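import Pool.Agent.Lib.MP_6947cd_al.L.BoxA

/-!
Problem MP_6947cd_al (Chollet).  THE LIBRARY OF PAIR FUNCTIONS, CASE C (generated): one box per cell of `h` and
range of `s`; the classes are the slopes, type `3`: pure, type `1`: minus `gtr u`.
-/

set_option autoImplicit false

namespace Pool.Agent.Lib.MP_6947cd_al
namespace CB

open CA

def xC130_80 : Box := ⟨(nat_lit 130), (nat_lit 140), (nat_lit 130), (nat_lit 140), (nat_lit 0), (nat_lit 0),
 (nat_lit 12), (nat_lit 80), (nat_lit 0), (nat_lit 0), [(nat_lit 50), (nat_lit 100), (nat_lit 150),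
 (nat_lit 200), (nat_lit 250), (nat_lit 300), (nat_lit 350), (nat_lit 400), (nat_lit 450), (nat_lit 500),
 (nat_lit 550), (nat_lit 600), (nat_lit 650), (nat_lit 700), (nat_lit 750), (nat_lit 800), (nat_lit 850),
 (nat_lit 900), (nat_lit 950), (nat_lit 1000)], [], [
    ⟨(nat_lit 3), (nat_lit 1000), (nat_lit 270), (Int.ofNat (nat_lit 0)), (Int.ofNat (nat_lit 0)),
 [(Int.ofNat (nat_lit 813)), (Int.ofNat (nat_lit 1768)), (Int.ofNat (nat_lit 2673)),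
 (Int.ofNat (nat_lit 3514)), (Int.ofNat (nat_lit 4317)), (Int.ofNat (nat_lit 5058)),
 (Int.ofNat (nat_lit 5747)), (Int.ofNat (nat_lit 6374)), (Int.ofNat (nat_lit 6941)),
 (Int.ofNat (nat_lit 7446)), (Int.ofNat (nat_lit 7887)), (Int.ofNat (nat_lit 8261)),
 (Int.ofNat (nat_lit 8565)), (Int.ofNat (nat_lit 8793)), (Int.ofNat (nat_lit 8942)),
 (Int.ofNat (nat_lit 9004)), (Int.ofNat (nat_lit 8955)), (Int.ofNat (nat_lit 8832)),
 (Int.ofNat (nat_lit 8772)), (Int.negSucc (nat_lit 299999))], []⟩]⟩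
def xC130_110 : Box := ⟨(nat_lit 130), (nat_lit 140), (nat_lit 130), (nat_lit 140), (nat_lit 0),
 (nat_lit 0), (nat_lit 12), (nat_lit 110), (nat_lit 0), (nat_lit 0), [(nat_lit 50), (nat_lit 100),
 (nat_lit 150), (nat_lit 200), (nat_lit 250), (nat_lit 300), (nat_lit 350), (nat_lit 400), (nat_lit 450),
 (nat_lit 500), (nat_lit 550), (nat_lit 600), (nat_lit 650), (nat_lit 700), (nat_lit 750), (nat_lit 800),
 (nat_lit 850), (nat_lit 900), (nat_lit 950), (nat_lit 1000)], [], [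
    ⟨(nat_lit 3), (nat_lit 1000), (nat_lit 300), (Int.ofNat (nat_lit 0)), (Int.ofNat (nat_lit 0)),
 [(Int.ofNat (nat_lit 759)), (Int.ofNat (nat_lit 1617)), (Int.ofNat (nat_lit 2577)),
 (Int.ofNat (nat_lit 3448)), (Int.ofNat (nat_lit 4281)), (Int.ofNat (nat_lit 5053)),
 (Int.ofNat (nat_lit 5748)), (Int.ofNat (nat_lit 6369)), (Int.ofNat (nat_lit 6910)),
 (Int.ofNat (nat_lit 7380)), (Int.ofNat (nat_lit 7766)), (Int.ofNat (nat_lit 8076)),
 (Int.ofNat (nat_lit 8295)), (Int.ofNat (nat_lit 8429)), (Int.ofNat (nat_lit 8457)),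
 (Int.ofNat (nat_lit 8380)), (Int.ofNat (nat_lit 8168)), (Int.ofNat (nat_lit 7798)),
 (Int.ofNat (nat_lit 7271)), (Int.ofNat (nat_lit 6704))], []⟩,
    ⟨(nat_lit 3), (nat_lit 1000), (nat_lit 400), (Int.ofNat (nat_lit 0)), (Int.ofNat (nat_lit 0)),
 [(Int.ofNat (nat_lit 696)), (Int.ofNat (nat_lit 1480)), (Int.ofNat (nat_lit 2350)),
 (Int.ofNat (nat_lit 3312)), (Int.ofNat (nat_lit 4218)), (Int.ofNat (nat_lit 5024)),
 (Int.ofNat (nat_lit 5761)), (Int.ofNat (nat_lit 6350)), (Int.ofNat (nat_lit 6811)),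
 (Int.ofNat (nat_lit 7157)), (Int.ofNat (nat_lit 7367)), (Int.ofNat (nat_lit 7458)),
 (Int.ofNat (nat_lit 7400)), (Int.ofNat (nat_lit 7210)), (Int.ofNat (nat_lit 6845)),
 (Int.ofNat (nat_lit 6310)), (Int.ofNat (nat_lit 5538)), (Int.ofNat (nat_lit 4489)),
 (Int.ofNat (nat_lit 2968)), (Int.ofNat (nat_lit 439))], []⟩,
    ⟨(nat_lit 3), (nat_lit 1000), (nat_lit 600), (Int.ofNat (nat_lit 0)), (Int.ofNat (nat_lit 0)),
 [(Int.ofNat (nat_lit 663)), (Int.ofNat (nat_lit 1407)), (Int.ofNat (nat_lit 2235)),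
 (Int.ofNat (nat_lit 3146)), (Int.ofNat (nat_lit 4132)), (Int.ofNat (nat_lit 4989)),
 (Int.ofNat (nat_lit 5765)), (Int.ofNat (nat_lit 6312)), (Int.ofNat (nat_lit 6612)),
 (Int.ofNat (nat_lit 6710)), (Int.ofNat (nat_lit 6568)), (Int.ofNat (nat_lit 6219)),
 (Int.ofNat (nat_lit 5612)), (Int.ofNat (nat_lit 4772)), (Int.ofNat (nat_lit 3620)),
 (Int.ofNat (nat_lit 2169)), (Int.ofNat (nat_lit 277)), (Int.negSucc (nat_lit 2128)),
 (Int.negSucc (nat_lit 5449)), (Int.negSucc (nat_lit 10811))], []⟩,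
    ⟨(nat_lit 3), (nat_lit 1000), (nat_lit 1000), (Int.ofNat (nat_lit 0)), (Int.ofNat (nat_lit 0)),
 [(Int.ofNat (nat_lit 647)), (Int.ofNat (nat_lit 1374)), (Int.ofNat (nat_lit 2182)),
 (Int.ofNat (nat_lit 3069)), (Int.ofNat (nat_lit 4055)), (Int.ofNat (nat_lit 5015)),
 (Int.ofNat (nat_lit 5804)), (Int.ofNat (nat_lit 6256)), (Int.ofNat (nat_lit 6237)),
 (Int.ofNat (nat_lit 5845)), (Int.ofNat (nat_lit 4999)), (Int.ofNat (nat_lit 3776)),
 (Int.ofNat (nat_lit 2070)), (Int.negSucc (nat_lit 62)), (Int.negSucc (nat_lit 2782)),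
 (Int.negSucc (nat_lit 6062)), (Int.negSucc (nat_lit 10187)), (Int.negSucc (nat_lit 15304)),
 (Int.negSucc (nat_lit 22256)), (Int.negSucc (nat_lit 33272))], []⟩,
    ⟨(nat_lit 3), (nat_lit 1000), (nat_lit 2000), (Int.ofNat (nat_lit 0)), (Int.ofNat (nat_lit 0)),
 [(Int.ofNat (nat_lit 643)), (Int.ofNat (nat_lit 1364)), (Int.ofNat (nat_lit 2164)),
 (Int.ofNat (nat_lit 3043)), (Int.ofNat (nat_lit 4001)), (Int.ofNat (nat_lit 5023)),
 (Int.ofNat (nat_lit 5901)), (Int.ofNat (nat_lit 6114)), (Int.ofNat (nat_lit 5299)),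
 (Int.ofNat (nat_lit 3676)), (Int.ofNat (nat_lit 1077)), (Int.negSucc (nat_lit 2334)),
 (Int.negSucc (nat_lit 6784)), (Int.negSucc (nat_lit 12152)), (Int.negSucc (nat_lit 18794)),
 (Int.negSucc (nat_lit 26646)), (Int.negSucc (nat_lit 36355)), (Int.negSucc (nat_lit 48248)),
 (Int.negSucc (nat_lit 64247)), (Int.negSucc (nat_lit 89402))], []⟩,
    ⟨(nat_lit 3), (nat_lit 1000), (nat_lit 4000), (Int.ofNat (nat_lit 0)), (Int.ofNat (nat_lit 0)),
 [(Int.ofNat (nat_lit 649)), (Int.ofNat (nat_lit 1375)), (Int.ofNat (nat_lit 2179)),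
 (Int.ofNat (nat_lit 3061)), (Int.ofNat (nat_lit 4022)), (Int.ofNat (nat_lit 5053)),
 (Int.ofNat (nat_lit 6082)), (Int.ofNat (nat_lit 5812)), (Int.ofNat (nat_lit 3404)),
 (Int.negSucc (nat_lit 681)), (Int.negSucc (nat_lit 6791)), (Int.negSucc (nat_lit 14584)),
 (Int.negSucc (nat_lit 24525)), (Int.negSucc (nat_lit 36384)), (Int.negSucc (nat_lit 50837)),
 (Int.negSucc (nat_lit 67854)), (Int.negSucc (nat_lit 88737)), (Int.negSucc (nat_lit 114186)),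
 (Int.negSucc (nat_lit 148285)), (Int.negSucc (nat_lit 201723))], []⟩]⟩
def xC140_80 : Box := ⟨(nat_lit 140), (nat_lit 150), (nat_lit 140), (nat_lit 150), (nat_lit 0), (nat_lit 0),
 (nat_lit 12), (nat_lit 80), (nat_lit 0), (nat_lit 0), [(nat_lit 50), (nat_lit 100), (nat_lit 150),
 (nat_lit 200), (nat_lit 250), (nat_lit 300), (nat_lit 350), (nat_lit 400), (nat_lit 450), (nat_lit 500),
 (nat_lit 550), (nat_lit 600), (nat_lit 650), (nat_lit 700), (nat_lit 750), (nat_lit 800), (nat_lit 850),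
 (nat_lit 900), (nat_lit 950), (nat_lit 1000)], [], [
    ⟨(nat_lit 3), (nat_lit 1000), (nat_lit 270), (Int.ofNat (nat_lit 0)), (Int.ofNat (nat_lit 0)),
 [(Int.ofNat (nat_lit 839)), (Int.ofNat (nat_lit 1788)), (Int.ofNat (nat_lit 2670)),
 (Int.ofNat (nat_lit 3487)), (Int.ofNat (nat_lit 4234)), (Int.ofNat (nat_lit 4923)),
 (Int.ofNat (nat_lit 5548)), (Int.ofNat (nat_lit 6123)), (Int.ofNat (nat_lit 6639)),
 (Int.ofNat (nat_lit 7107)), (Int.ofNat (nat_lit 7518)), (Int.ofNat (nat_lit 7881)),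
 (Int.ofNat (nat_lit 8187)), (Int.ofNat (nat_lit 8443)), (Int.ofNat (nat_lit 8638)),
 (Int.ofNat (nat_lit 8778)), (Int.ofNat (nat_lit 8848)), (Int.ofNat (nat_lit 8879)),
 (Int.ofNat (nat_lit 8553)), (Int.negSucc (nat_lit 299999))], []⟩]⟩
def xC140_110 : Box := ⟨(nat_lit 140), (nat_lit 150), (nat_lit 140), (nat_lit 150), (nat_lit 0),
 (nat_lit 0), (nat_lit 12), (nat_lit 110), (nat_lit 0), (nat_lit 0), [(nat_lit 50), (nat_lit 100),
 (nat_lit 150), (nat_lit 200), (nat_lit 250), (nat_lit 300), (nat_lit 350), (nat_lit 400), (nat_lit 450),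
 (nat_lit 500), (nat_lit 550), (nat_lit 600), (nat_lit 650), (nat_lit 700), (nat_lit 750), (nat_lit 800),
 (nat_lit 850), (nat_lit 900), (nat_lit 950), (nat_lit 1000)], [], [
    ⟨(nat_lit 3), (nat_lit 1000), (nat_lit 300), (Int.ofNat (nat_lit 0)), (Int.ofNat (nat_lit 0)),
 [(Int.ofNat (nat_lit 788)), (Int.ofNat (nat_lit 1685)), (Int.ofNat (nat_lit 2610)),
 (Int.ofNat (nat_lit 3445)), (Int.ofNat (nat_lit 4230)), (Int.ofNat (nat_lit 4923)),
 (Int.ofNat (nat_lit 5544)), (Int.ofNat (nat_lit 6089)), (Int.ofNat (nat_lit 6571)),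
 (Int.ofNat (nat_lit 6981)), (Int.ofNat (nat_lit 7330)), (Int.ofNat (nat_lit 7608)),
 (Int.ofNat (nat_lit 7823)), (Int.ofNat (nat_lit 7962)), (Int.ofNat (nat_lit 8035)),
 (Int.ofNat (nat_lit 8019)), (Int.ofNat (nat_lit 7921)), (Int.ofNat (nat_lit 7692)),
 (Int.ofNat (nat_lit 7464)), (Int.ofNat (nat_lit 7218))], []⟩,
    ⟨(nat_lit 3), (nat_lit 1000), (nat_lit 400), (Int.ofNat (nat_lit 0)), (Int.ofNat (nat_lit 0)),
 [(Int.ofNat (nat_lit 726)), (Int.ofNat (nat_lit 1540)), (Int.ofNat (nat_lit 2452)),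
 (Int.ofNat (nat_lit 3383)), (Int.ofNat (nat_lit 4196)), (Int.ofNat (nat_lit 4941)),
 (Int.ofNat (nat_lit 5518)), (Int.ofNat (nat_lit 5989)), (Int.ofNat (nat_lit 6333)),
 (Int.ofNat (nat_lit 6573)), (Int.ofNat (nat_lit 6692)), (Int.ofNat (nat_lit 6708)),
 (Int.ofNat (nat_lit 6597)), (Int.ofNat (nat_lit 6375)), (Int.ofNat (nat_lit 6007)),
 (Int.ofNat (nat_lit 5501)), (Int.ofNat (nat_lit 4800)), (Int.ofNat (nat_lit 3875)),
 (Int.ofNat (nat_lit 2560)), (Int.ofNat (nat_lit 407))], []⟩,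
    ⟨(nat_lit 3), (nat_lit 1000), (nat_lit 600), (Int.ofNat (nat_lit 0)), (Int.ofNat (nat_lit 0)),
 [(Int.ofNat (nat_lit 692)), (Int.ofNat (nat_lit 1469)), (Int.ofNat (nat_lit 2331)),
 (Int.ofNat (nat_lit 3289)), (Int.ofNat (nat_lit 4154)), (Int.ofNat (nat_lit 4951)),
 (Int.ofNat (nat_lit 5473)), (Int.ofNat (nat_lit 5783)), (Int.ofNat (nat_lit 5862)),
 (Int.ofNat (nat_lit 5752)), (Int.ofNat (nat_lit 5421)), (Int.ofNat (nat_lit 4902)),
 (Int.ofNat (nat_lit 4151)), (Int.ofNat (nat_lit 3193)), (Int.ofNat (nat_lit 1958)),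
 (Int.ofNat (nat_lit 459)), (Int.negSucc (nat_lit 1427)), (Int.negSucc (nat_lit 3769)),
 (Int.negSucc (nat_lit 6925)), (Int.negSucc (nat_lit 11909))], []⟩,
    ⟨(nat_lit 3), (nat_lit 1000), (nat_lit 1000), (Int.ofNat (nat_lit 0)), (Int.ofNat (nat_lit 0)),
 [(Int.ofNat (nat_lit 677)), (Int.ofNat (nat_lit 1436)), (Int.ofNat (nat_lit 2278)),
 (Int.ofNat (nat_lit 3215)), (Int.ofNat (nat_lit 4165)), (Int.ofNat (nat_lit 4998)),
 (Int.ofNat (nat_lit 5399)), (Int.ofNat (nat_lit 5391)), (Int.ofNat (nat_lit 4944)),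
 (Int.ofNat (nat_lit 4135)), (Int.ofNat (nat_lit 2910)), (Int.ofNat (nat_lit 1326)),
 (Int.negSucc (nat_lit 702)), (Int.negSucc (nat_lit 3126)), (Int.negSucc (nat_lit 6091)),
 (Int.negSucc (nat_lit 9570)), (Int.negSucc (nat_lit 13827)), (Int.negSucc (nat_lit 18996)),
 (Int.negSucc (nat_lit 25864)), (Int.negSucc (nat_lit 36501))], []⟩,
    ⟨(nat_lit 3), (nat_lit 1000), (nat_lit 2000), (Int.ofNat (nat_lit 0)), (Int.ofNat (nat_lit 0)),
 [(Int.ofNat (nat_lit 673)), (Int.ofNat (nat_lit 1426)), (Int.ofNat (nat_lit 2260)),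
 (Int.ofNat (nat_lit 3176)), (Int.ofNat (nat_lit 4160)), (Int.ofNat (nat_lit 5117)),
 (Int.ofNat (nat_lit 5214)), (Int.ofNat (nat_lit 4410)), (Int.ofNat (nat_lit 2646)),
 (Int.ofNat (nat_lit 93)), (Int.negSucc (nat_lit 3372)), (Int.negSucc (nat_lit 7621)),
 (Int.negSucc (nat_lit 12838)), (Int.negSucc (nat_lit 18931)), (Int.negSucc (nat_lit 26222)),
 (Int.negSucc (nat_lit 34651)), (Int.negSucc (nat_lit 44831)), (Int.negSucc (nat_lit 57068)),
 (Int.negSucc (nat_lit 73186)), (Int.negSucc (nat_lit 97956))], []⟩,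
    ⟨(nat_lit 3), (nat_lit 1000), (nat_lit 4000), (Int.ofNat (nat_lit 0)), (Int.ofNat (nat_lit 0)),
 [(Int.ofNat (nat_lit 679)), (Int.ofNat (nat_lit 1437)), (Int.ofNat (nat_lit 2275)),
 (Int.ofNat (nat_lit 3194)), (Int.ofNat (nat_lit 4186)), (Int.ofNat (nat_lit 5342)),
 (Int.ofNat (nat_lit 4828)), (Int.ofNat (nat_lit 2431)), (Int.negSucc (nat_lit 1968)),
 (Int.negSucc (nat_lit 8016)), (Int.negSucc (nat_lit 15957)), (Int.negSucc (nat_lit 25534)),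
 (Int.negSucc (nat_lit 37150)), (Int.negSucc (nat_lit 50592)), (Int.negSucc (nat_lit 66504)),
 (Int.negSucc (nat_lit 84854)), (Int.negSucc (nat_lit 106887)), (Int.negSucc (nat_lit 133264)),
 (Int.negSucc (nat_lit 167887)), (Int.negSucc (nat_lit 220931))], []⟩]⟩
def xC150_80 : Box := ⟨(nat_lit 150), (nat_lit 160), (nat_lit 150), (nat_lit 160), (nat_lit 0), (nat_lit 0),
 (nat_lit 12), (nat_lit 80), (nat_lit 0), (nat_lit 0), [(nat_lit 50), (nat_lit 100), (nat_lit 150),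
 (nat_lit 200), (nat_lit 250), (nat_lit 300), (nat_lit 350), (nat_lit 400), (nat_lit 450), (nat_lit 500),
 (nat_lit 550), (nat_lit 600), (nat_lit 650), (nat_lit 700), (nat_lit 750), (nat_lit 800), (nat_lit 850),
 (nat_lit 900), (nat_lit 950), (nat_lit 1000)], [], [
    ⟨(nat_lit 3), (nat_lit 1000), (nat_lit 270), (Int.ofNat (nat_lit 0)), (Int.ofNat (nat_lit 0)),
 [(Int.ofNat (nat_lit 864)), (Int.ofNat (nat_lit 1813)), (Int.ofNat (nat_lit 2645)),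
 (Int.ofNat (nat_lit 3407)), (Int.ofNat (nat_lit 4081)), (Int.ofNat (nat_lit 4699)),
 (Int.ofNat (nat_lit 5260)), (Int.ofNat (nat_lit 5777)), (Int.ofNat (nat_lit 6246)),
 (Int.ofNat (nat_lit 6679)), (Int.ofNat (nat_lit 7072)), (Int.ofNat (nat_lit 7432)),
 (Int.ofNat (nat_lit 7757)), (Int.ofNat (nat_lit 8054)), (Int.ofNat (nat_lit 8318)),
 (Int.ofNat (nat_lit 8556)), (Int.ofNat (nat_lit 8762)), (Int.ofNat (nat_lit 8943)),
 (Int.negSucc (nat_lit 299999)), (Int.negSucc (nat_lit 299999))], []⟩]⟩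
def xC150_110 : Box := ⟨(nat_lit 150), (nat_lit 160), (nat_lit 150), (nat_lit 160), (nat_lit 0),
 (nat_lit 0), (nat_lit 12), (nat_lit 110), (nat_lit 0), (nat_lit 0), [(nat_lit 50), (nat_lit 100),
 (nat_lit 150), (nat_lit 200), (nat_lit 250), (nat_lit 300), (nat_lit 350), (nat_lit 400), (nat_lit 450),
 (nat_lit 500), (nat_lit 550), (nat_lit 600), (nat_lit 650), (nat_lit 700), (nat_lit 750), (nat_lit 800),
 (nat_lit 850), (nat_lit 900), (nat_lit 950), (nat_lit 1000)], [], [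
    ⟨(nat_lit 3), (nat_lit 1000), (nat_lit 300), (Int.ofNat (nat_lit 0)), (Int.ofNat (nat_lit 0)),
 [(Int.ofNat (nat_lit 815)), (Int.ofNat (nat_lit 1728)), (Int.ofNat (nat_lit 2607)),
 (Int.ofNat (nat_lit 3394)), (Int.ofNat (nat_lit 4083)), (Int.ofNat (nat_lit 4692)),
 (Int.ofNat (nat_lit 5226)), (Int.ofNat (nat_lit 5701)), (Int.ofNat (nat_lit 6115)),
 (Int.ofNat (nat_lit 6480)), (Int.ofNat (nat_lit 6790)), (Int.ofNat (nat_lit 7057)),
 (Int.ofNat (nat_lit 7273)), (Int.ofNat (nat_lit 7447)), (Int.ofNat (nat_lit 7570)),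
 (Int.ofNat (nat_lit 7649)), (Int.ofNat (nat_lit 7669)), (Int.ofNat (nat_lit 7628)),
 (Int.ofNat (nat_lit 7705)), (Int.ofNat (nat_lit 5389))], []⟩,
    ⟨(nat_lit 3), (nat_lit 1000), (nat_lit 400), (Int.ofNat (nat_lit 0)), (Int.ofNat (nat_lit 0)),
 [(Int.ofNat (nat_lit 755)), (Int.ofNat (nat_lit 1600)), (Int.ofNat (nat_lit 2518)),
 (Int.ofNat (nat_lit 3367)), (Int.ofNat (nat_lit 4091)), (Int.ofNat (nat_lit 4669)),
 (Int.ofNat (nat_lit 5112)), (Int.ofNat (nat_lit 5451)), (Int.ofNat (nat_lit 5678)),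
 (Int.ofNat (nat_lit 5816)), (Int.ofNat (nat_lit 5854)), (Int.ofNat (nat_lit 5807)),
 (Int.ofNat (nat_lit 5659)), (Int.ofNat (nat_lit 5424)), (Int.ofNat (nat_lit 5077)),
 (Int.ofNat (nat_lit 4625)), (Int.ofNat (nat_lit 4024)), (Int.ofNat (nat_lit 3252)),
 (Int.ofNat (nat_lit 2174)), (Int.ofNat (nat_lit 120))], []⟩,
    ⟨(nat_lit 3), (nat_lit 1000), (nat_lit 600), (Int.ofNat (nat_lit 0)), (Int.ofNat (nat_lit 0)),
 [(Int.ofNat (nat_lit 722)), (Int.ofNat (nat_lit 1530)), (Int.ofNat (nat_lit 2438)),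
 (Int.ofNat (nat_lit 3317)), (Int.ofNat (nat_lit 4106)), (Int.ofNat (nat_lit 4621)),
 (Int.ofNat (nat_lit 4884)), (Int.ofNat (nat_lit 4949)), (Int.ofNat (nat_lit 4804)),
 (Int.ofNat (nat_lit 4489)), (Int.ofNat (nat_lit 3980)), (Int.ofNat (nat_lit 3306)),
 (Int.ofNat (nat_lit 2430)), (Int.ofNat (nat_lit 1379)), (Int.ofNat (nat_lit 90)),
 (Int.negSucc (nat_lit 1421)), (Int.negSucc (nat_lit 3266)), (Int.negSucc (nat_lit 5498)),
 (Int.negSucc (nat_lit 8433)), (Int.negSucc (nat_lit 13700))], []⟩,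
    ⟨(nat_lit 3), (nat_lit 1000), (nat_lit 1000), (Int.ofNat (nat_lit 0)), (Int.ofNat (nat_lit 0)),
 [(Int.ofNat (nat_lit 707)), (Int.ofNat (nat_lit 1497)), (Int.ofNat (nat_lit 2373)),
 (Int.ofNat (nat_lit 3310)), (Int.ofNat (nat_lit 4144)), (Int.ofNat (nat_lit 4546)),
 (Int.ofNat (nat_lit 4444)), (Int.ofNat (nat_lit 3970)), (Int.ofNat (nat_lit 3079)),
 (Int.ofNat (nat_lit 1865)), (Int.ofNat (nat_lit 262)), (Int.negSucc (nat_lit 1659)),
 (Int.negSucc (nat_lit 3986)), (Int.negSucc (nat_lit 6669)), (Int.negSucc (nat_lit 9831)),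
 (Int.negSucc (nat_lit 13459)), (Int.negSucc (nat_lit 17787)), (Int.negSucc (nat_lit 22934)),
 (Int.negSucc (nat_lit 29622)), (Int.negSucc (nat_lit 41305))], []⟩,
    ⟨(nat_lit 3), (nat_lit 1000), (nat_lit 2000), (Int.ofNat (nat_lit 0)), (Int.ofNat (nat_lit 0)),
 [(Int.ofNat (nat_lit 703)), (Int.ofNat (nat_lit 1488)), (Int.ofNat (nat_lit 2356)),
 (Int.ofNat (nat_lit 3296)), (Int.ofNat (nat_lit 4236)), (Int.ofNat (nat_lit 4359)),
 (Int.ofNat (nat_lit 3344)), (Int.ofNat (nat_lit 1516)), (Int.negSucc (nat_lit 1232)),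
 (Int.negSucc (nat_lit 4699)), (Int.negSucc (nat_lit 9031)), (Int.negSucc (nat_lit 14076)),
 (Int.negSucc (nat_lit 20031)), (Int.negSucc (nat_lit 26791)), (Int.negSucc (nat_lit 34641)),
 (Int.negSucc (nat_lit 43561)), (Int.negSucc (nat_lit 54095)), (Int.negSucc (nat_lit 66530)),
 (Int.negSucc (nat_lit 82570)), (Int.negSucc (nat_lit 110291))], []⟩,
    ⟨(nat_lit 3), (nat_lit 1000), (nat_lit 4000), (Int.ofNat (nat_lit 0)), (Int.ofNat (nat_lit 0)),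
 [(Int.ofNat (nat_lit 708)), (Int.ofNat (nat_lit 1498)), (Int.ofNat (nat_lit 2371)),
 (Int.ofNat (nat_lit 3321)), (Int.ofNat (nat_lit 4417)), (Int.ofNat (nat_lit 3965)),
 (Int.ofNat (nat_lit 1131)), (Int.negSucc (nat_lit 3407)), (Int.negSucc (nat_lit 9877)),
 (Int.negSucc (nat_lit 17853)), (Int.negSucc (nat_lit 27646)), (Int.negSucc (nat_lit 38941)),
 (Int.negSucc (nat_lit 52154)), (Int.negSucc (nat_lit 67073)), (Int.negSucc (nat_lit 84302)),
 (Int.negSucc (nat_lit 103809)), (Int.negSucc (nat_lit 126760)), (Int.negSucc (nat_lit 153775)),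
 (Int.negSucc (nat_lit 188519)), (Int.negSucc (nat_lit 248328))], []⟩]⟩
def xC160_80 : Box := ⟨(nat_lit 160), (nat_lit 170), (nat_lit 160), (nat_lit 170), (nat_lit 0), (nat_lit 0),
 (nat_lit 12), (nat_lit 80), (nat_lit 0), (nat_lit 0), [(nat_lit 50), (nat_lit 100), (nat_lit 150),
 (nat_lit 200), (nat_lit 250), (nat_lit 300), (nat_lit 350), (nat_lit 400), (nat_lit 450), (nat_lit 500),
 (nat_lit 550), (nat_lit 600), (nat_lit 650), (nat_lit 700), (nat_lit 750), (nat_lit 800), (nat_lit 850),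
 (nat_lit 900), (nat_lit 950), (nat_lit 1000)], [], [
    ⟨(nat_lit 3), (nat_lit 1000), (nat_lit 270), (Int.ofNat (nat_lit 0)), (Int.ofNat (nat_lit 0)),
 [(Int.ofNat (nat_lit 896)), (Int.ofNat (nat_lit 1805)), (Int.ofNat (nat_lit 2572)),
 (Int.ofNat (nat_lit 3241)), (Int.ofNat (nat_lit 3835)), (Int.ofNat (nat_lit 4372)),
 (Int.ofNat (nat_lit 4866)), (Int.ofNat (nat_lit 5324)), (Int.ofNat (nat_lit 5754)),
 (Int.ofNat (nat_lit 6159)), (Int.ofNat (nat_lit 6546)), (Int.ofNat (nat_lit 6919)),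
 (Int.ofNat (nat_lit 7281)), (Int.ofNat (nat_lit 7638)), (Int.ofNat (nat_lit 7992)),
 (Int.ofNat (nat_lit 8350)), (Int.ofNat (nat_lit 8714)), (Int.negSucc (nat_lit 299999)),
 (Int.negSucc (nat_lit 299999)), (Int.negSucc (nat_lit 299999))], []⟩]⟩
def xC160_110 : Box := ⟨(nat_lit 160), (nat_lit 170), (nat_lit 160), (nat_lit 170), (nat_lit 0),
 (nat_lit 0), (nat_lit 12), (nat_lit 110), (nat_lit 0), (nat_lit 0), [(nat_lit 50), (nat_lit 100),
 (nat_lit 150), (nat_lit 200), (nat_lit 250), (nat_lit 300), (nat_lit 350), (nat_lit 400), (nat_lit 450),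
 (nat_lit 500), (nat_lit 550), (nat_lit 600), (nat_lit 650), (nat_lit 700), (nat_lit 750), (nat_lit 800),
 (nat_lit 850), (nat_lit 900), (nat_lit 950), (nat_lit 1000)], [], [
    ⟨(nat_lit 3), (nat_lit 1000), (nat_lit 290), (Int.ofNat (nat_lit 0)), (Int.ofNat (nat_lit 0)),
 [(Int.ofNat (nat_lit 858)), (Int.ofNat (nat_lit 1772)), (Int.ofNat (nat_lit 2565)),
 (Int.ofNat (nat_lit 3243)), (Int.ofNat (nat_lit 3829)), (Int.ofNat (nat_lit 4347)),
 (Int.ofNat (nat_lit 4810)), (Int.ofNat (nat_lit 5229)), (Int.ofNat (nat_lit 5610)),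
 (Int.ofNat (nat_lit 5960)), (Int.ofNat (nat_lit 6283)), (Int.ofNat (nat_lit 6584)),
 (Int.ofNat (nat_lit 6865)), (Int.ofNat (nat_lit 7132)), (Int.ofNat (nat_lit 7386)),
 (Int.ofNat (nat_lit 7631)), (Int.ofNat (nat_lit 7868)), (Int.ofNat (nat_lit 8174)),
 (Int.ofNat (nat_lit 8392)), (Int.negSucc (nat_lit 299999))], []⟩,
    ⟨(nat_lit 3), (nat_lit 1000), (nat_lit 400), (Int.ofNat (nat_lit 0)), (Int.ofNat (nat_lit 0)),
 [(Int.ofNat (nat_lit 785)), (Int.ofNat (nat_lit 1658)), (Int.ofNat (nat_lit 2532)),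
 (Int.ofNat (nat_lit 3252)), (Int.ofNat (nat_lit 3799)), (Int.ofNat (nat_lit 4205)),
 (Int.ofNat (nat_lit 4506)), (Int.ofNat (nat_lit 4705)), (Int.ofNat (nat_lit 4825)),
 (Int.ofNat (nat_lit 4864)), (Int.ofNat (nat_lit 4838)), (Int.ofNat (nat_lit 4739)),
 (Int.ofNat (nat_lit 4580)), (Int.ofNat (nat_lit 4351)), (Int.ofNat (nat_lit 4057)),
 (Int.ofNat (nat_lit 3680)), (Int.ofNat (nat_lit 3217)), (Int.ofNat (nat_lit 2621)),
 (Int.ofNat (nat_lit 1823)), (Int.negSucc (nat_lit 299999))], []⟩,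
    ⟨(nat_lit 3), (nat_lit 1000), (nat_lit 600), (Int.ofNat (nat_lit 0)), (Int.ofNat (nat_lit 0)),
 [(Int.ofNat (nat_lit 752)), (Int.ofNat (nat_lit 1602)), (Int.ofNat (nat_lit 2473)),
 (Int.ofNat (nat_lit 3269)), (Int.ofNat (nat_lit 3745)), (Int.ofNat (nat_lit 3948)),
 (Int.ofNat (nat_lit 3951)), (Int.ofNat (nat_lit 3752)), (Int.ofNat (nat_lit 3397)),
 (Int.ofNat (nat_lit 2872)), (Int.ofNat (nat_lit 2210)), (Int.ofNat (nat_lit 1386)),
 (Int.ofNat (nat_lit 425)), (Int.negSucc (nat_lit 705)), (Int.negSucc (nat_lit 1997)),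
 (Int.negSucc (nat_lit 3502)), (Int.negSucc (nat_lit 5240)), (Int.negSucc (nat_lit 7337)),
 (Int.negSucc (nat_lit 9985)), (Int.negSucc (nat_lit 299999))], []⟩,
    ⟨(nat_lit 3), (nat_lit 1000), (nat_lit 1000), (Int.ofNat (nat_lit 0)), (Int.ofNat (nat_lit 0)),
 [(Int.ofNat (nat_lit 737)), (Int.ofNat (nat_lit 1559)), (Int.ofNat (nat_lit 2454)),
 (Int.ofNat (nat_lit 3310)), (Int.ofNat (nat_lit 3651)), (Int.ofNat (nat_lit 3448)),
 (Int.ofNat (nat_lit 2861)), (Int.ofNat (nat_lit 1867)), (Int.ofNat (nat_lit 569)),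
 (Int.negSucc (nat_lit 1081)), (Int.negSucc (nat_lit 3010)), (Int.negSucc (nat_lit 5281)),
 (Int.negSucc (nat_lit 7839)), (Int.negSucc (nat_lit 10774)), (Int.negSucc (nat_lit 14050)),
 (Int.negSucc (nat_lit 17812)), (Int.negSucc (nat_lit 22088)), (Int.negSucc (nat_lit 27189)),
 (Int.negSucc (nat_lit 33521)), (Int.negSucc (nat_lit 299999))], []⟩,
    ⟨(nat_lit 3), (nat_lit 1000), (nat_lit 2000), (Int.ofNat (nat_lit 0)), (Int.ofNat (nat_lit 0)),
 [(Int.ofNat (nat_lit 733)), (Int.ofNat (nat_lit 1550)), (Int.ofNat (nat_lit 2444)),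
 (Int.ofNat (nat_lit 3403)), (Int.ofNat (nat_lit 3426)), (Int.ofNat (nat_lit 2198)),
 (Int.ofNat (nat_lit 134)), (Int.negSucc (nat_lit 2845)), (Int.negSucc (nat_lit 6505)),
 (Int.negSucc (nat_lit 10970)), (Int.negSucc (nat_lit 16066)), (Int.negSucc (nat_lit 21956)),
 (Int.negSucc (nat_lit 28509)), (Int.negSucc (nat_lit 35947)), (Int.negSucc (nat_lit 44192)),
 (Int.negSucc (nat_lit 53591)), (Int.negSucc (nat_lit 64219)), (Int.negSucc (nat_lit 76823)),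
 (Int.negSucc (nat_lit 92375)), (Int.negSucc (nat_lit 299999))], []⟩,
    ⟨(nat_lit 3), (nat_lit 1000), (nat_lit 4000), (Int.ofNat (nat_lit 0)), (Int.ofNat (nat_lit 0)),
 [(Int.ofNat (nat_lit 738)), (Int.ofNat (nat_lit 1560)), (Int.ofNat (nat_lit 2463)),
 (Int.ofNat (nat_lit 3619)), (Int.ofNat (nat_lit 2927)), (Int.negSucc (nat_lit 313)),
 (Int.negSucc (nat_lit 5334)), (Int.negSucc (nat_lit 12288)), (Int.negSucc (nat_lit 20677)),
 (Int.negSucc (nat_lit 30772)), (Int.negSucc (nat_lit 42206)), (Int.negSucc (nat_lit 55335)),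
 (Int.negSucc (nat_lit 69882)), (Int.negSucc (nat_lit 86331)), (Int.negSucc (nat_lit 104519)),
 (Int.negSucc (nat_lit 125197)), (Int.negSucc (nat_lit 148532)), (Int.negSucc (nat_lit 176146)),
 (Int.negSucc (nat_lit 210144)), (Int.negSucc (nat_lit 299999))], []⟩]⟩
def xC170_80 : Box := ⟨(nat_lit 170), (nat_lit 180), (nat_lit 170), (nat_lit 180), (nat_lit 0), (nat_lit 0),
 (nat_lit 12), (nat_lit 80), (nat_lit 0), (nat_lit 0), [(nat_lit 50), (nat_lit 100), (nat_lit 150),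
 (nat_lit 200), (nat_lit 250), (nat_lit 300), (nat_lit 350), (nat_lit 400), (nat_lit 450), (nat_lit 500),
 (nat_lit 550), (nat_lit 600), (nat_lit 650), (nat_lit 700), (nat_lit 750), (nat_lit 800), (nat_lit 850),
 (nat_lit 900), (nat_lit 950), (nat_lit 1000)], [], [
    ⟨(nat_lit 3), (nat_lit 1000), (nat_lit 260), (Int.ofNat (nat_lit 0)), (Int.ofNat (nat_lit 0)),
 [(Int.ofNat (nat_lit 951)), (Int.ofNat (nat_lit 1759)), (Int.ofNat (nat_lit 2407)),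
 (Int.ofNat (nat_lit 2973)), (Int.ofNat (nat_lit 3478)), (Int.ofNat (nat_lit 3951)),
 (Int.ofNat (nat_lit 4396)), (Int.ofNat (nat_lit 4830)), (Int.ofNat (nat_lit 5256)),
 (Int.ofNat (nat_lit 5684)), (Int.ofNat (nat_lit 6118)), (Int.ofNat (nat_lit 6566)),
 (Int.ofNat (nat_lit 7032)), (Int.ofNat (nat_lit 7523)), (Int.ofNat (nat_lit 8045)),
 (Int.ofNat (nat_lit 8598)), (Int.negSucc (nat_lit 299999)), (Int.negSucc (nat_lit 299999)),
 (Int.negSucc (nat_lit 299999)), (Int.negSucc (nat_lit 299999))], []⟩]⟩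
def xC170_110 : Box := ⟨(nat_lit 170), (nat_lit 180), (nat_lit 170), (nat_lit 180), (nat_lit 0),
 (nat_lit 0), (nat_lit 12), (nat_lit 110), (nat_lit 0), (nat_lit 0), [(nat_lit 50), (nat_lit 100),
 (nat_lit 150), (nat_lit 200), (nat_lit 250), (nat_lit 300), (nat_lit 350), (nat_lit 400), (nat_lit 450),
 (nat_lit 500), (nat_lit 550), (nat_lit 600), (nat_lit 650), (nat_lit 700), (nat_lit 750), (nat_lit 800),
 (nat_lit 850), (nat_lit 900), (nat_lit 950), (nat_lit 1000)], [], [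
    ⟨(nat_lit 3), (nat_lit 1000), (nat_lit 290), (Int.ofNat (nat_lit 0)), (Int.ofNat (nat_lit 0)),
 [(Int.ofNat (nat_lit 882)), (Int.ofNat (nat_lit 1744)), (Int.ofNat (nat_lit 2411)),
 (Int.ofNat (nat_lit 2962)), (Int.ofNat (nat_lit 3433)), (Int.ofNat (nat_lit 3853)),
 (Int.ofNat (nat_lit 4234)), (Int.ofNat (nat_lit 4590)), (Int.ofNat (nat_lit 4927)),
 (Int.ofNat (nat_lit 5256)), (Int.ofNat (nat_lit 5579)), (Int.ofNat (nat_lit 5905)),
 (Int.ofNat (nat_lit 6239)), (Int.ofNat (nat_lit 6584)), (Int.ofNat (nat_lit 6948)),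
 (Int.ofNat (nat_lit 7334)), (Int.ofNat (nat_lit 7750)), (Int.ofNat (nat_lit 8215)),
 (Int.negSucc (nat_lit 299999)), (Int.negSucc (nat_lit 299999))], []⟩,
    ⟨(nat_lit 3), (nat_lit 1000), (nat_lit 400), (Int.ofNat (nat_lit 0)), (Int.ofNat (nat_lit 0)),
 [(Int.ofNat (nat_lit 815)), (Int.ofNat (nat_lit 1693)), (Int.ofNat (nat_lit 2429)),
 (Int.ofNat (nat_lit 2921)), (Int.ofNat (nat_lit 3270)), (Int.ofNat (nat_lit 3499)),
 (Int.ofNat (nat_lit 3642)), (Int.ofNat (nat_lit 3713)), (Int.ofNat (nat_lit 3726)),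
 (Int.ofNat (nat_lit 3688)), (Int.ofNat (nat_lit 3607)), (Int.ofNat (nat_lit 3488)),
 (Int.ofNat (nat_lit 3335)), (Int.ofNat (nat_lit 3148)), (Int.ofNat (nat_lit 2929)),
 (Int.ofNat (nat_lit 2672)), (Int.ofNat (nat_lit 2369)), (Int.ofNat (nat_lit 1995)),
 (Int.negSucc (nat_lit 299999)), (Int.negSucc (nat_lit 299999))], []⟩,
    ⟨(nat_lit 3), (nat_lit 1000), (nat_lit 600), (Int.ofNat (nat_lit 0)), (Int.ofNat (nat_lit 0)),
 [(Int.ofNat (nat_lit 783)), (Int.ofNat (nat_lit 1636)), (Int.ofNat (nat_lit 2439)),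
 (Int.ofNat (nat_lit 2863)), (Int.ofNat (nat_lit 2962)), (Int.ofNat (nat_lit 2860)),
 (Int.ofNat (nat_lit 2561)), (Int.ofNat (nat_lit 2124)), (Int.ofNat (nat_lit 1537)),
 (Int.ofNat (nat_lit 842)), (Int.ofNat (nat_lit 19)), (Int.negSucc (nat_lit 901)),
 (Int.negSucc (nat_lit 1945)), (Int.negSucc (nat_lit 3090)), (Int.negSucc (nat_lit 4376)),
 (Int.negSucc (nat_lit 5792)), (Int.negSucc (nat_lit 7411)), (Int.negSucc (nat_lit 9275)),
 (Int.negSucc (nat_lit 299999)), (Int.negSucc (nat_lit 299999))], []⟩,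
    ⟨(nat_lit 3), (nat_lit 1000), (nat_lit 1000), (Int.ofNat (nat_lit 0)), (Int.ofNat (nat_lit 0)),
 [(Int.ofNat (nat_lit 769)), (Int.ofNat (nat_lit 1614)), (Int.ofNat (nat_lit 2481)),
 (Int.ofNat (nat_lit 2747)), (Int.ofNat (nat_lit 2367)), (Int.ofNat (nat_lit 1595)),
 (Int.ofNat (nat_lit 423)), (Int.negSucc (nat_lit 1034)), (Int.negSucc (nat_lit 2808)),
 (Int.negSucc (nat_lit 4821)), (Int.negSucc (nat_lit 7118)), (Int.negSucc (nat_lit 9643)),
 (Int.negSucc (nat_lit 12457)), (Int.negSucc (nat_lit 15522)), (Int.negSucc (nat_lit 18928)),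
 (Int.negSucc (nat_lit 22666)), (Int.negSucc (nat_lit 26902)), (Int.negSucc (nat_lit 31748)),
 (Int.negSucc (nat_lit 299999)), (Int.negSucc (nat_lit 299999))], []⟩,
    ⟨(nat_lit 3), (nat_lit 1000), (nat_lit 2000), (Int.ofNat (nat_lit 0)), (Int.ofNat (nat_lit 0)),
 [(Int.ofNat (nat_lit 764)), (Int.ofNat (nat_lit 1609)), (Int.ofNat (nat_lit 2610)),
 (Int.ofNat (nat_lit 2430)), (Int.ofNat (nat_lit 873)), (Int.negSucc (nat_lit 1564)),
 (Int.negSucc (nat_lit 4923)), (Int.negSucc (nat_lit 8934)), (Int.negSucc (nat_lit 13676)),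
 (Int.negSucc (nat_lit 18983)), (Int.negSucc (nat_lit 24966)), (Int.negSucc (nat_lit 31502)),
 (Int.negSucc (nat_lit 38744)), (Int.negSucc (nat_lit 46606)), (Int.negSucc (nat_lit 55313)),
 (Int.negSucc (nat_lit 64856)), (Int.negSucc (nat_lit 75634)), (Int.negSucc (nat_lit 87939)),
 (Int.negSucc (nat_lit 299999)), (Int.negSucc (nat_lit 299999))], []⟩,
    ⟨(nat_lit 3), (nat_lit 1000), (nat_lit 4000), (Int.ofNat (nat_lit 0)), (Int.ofNat (nat_lit 0)),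
 [(Int.ofNat (nat_lit 770)), (Int.ofNat (nat_lit 1622)), (Int.ofNat (nat_lit 2843)),
 (Int.ofNat (nat_lit 1808)), (Int.negSucc (nat_lit 2118)), (Int.negSucc (nat_lit 7902)),
 (Int.negSucc (nat_lit 15634)), (Int.negSucc (nat_lit 24753)), (Int.negSucc (nat_lit 35435)),
 (Int.negSucc (nat_lit 47333)), (Int.negSucc (nat_lit 60691)), (Int.negSucc (nat_lit 75253)),
 (Int.negSucc (nat_lit 91353)), (Int.negSucc (nat_lit 108815)), (Int.negSucc (nat_lit 128128)),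
 (Int.negSucc (nat_lit 149284)), (Int.negSucc (nat_lit 173153)), (Int.negSucc (nat_lit 200379)),
 (Int.negSucc (nat_lit 299999)), (Int.negSucc (nat_lit 299999))], []⟩]⟩
def xC180_80 : Box := ⟨(nat_lit 180), (nat_lit 190), (nat_lit 180), (nat_lit 190), (nat_lit 0), (nat_lit 0),
 (nat_lit 12), (nat_lit 80), (nat_lit 0), (nat_lit 0), [(nat_lit 50), (nat_lit 100), (nat_lit 150),
 (nat_lit 200), (nat_lit 250), (nat_lit 300), (nat_lit 350), (nat_lit 400), (nat_lit 450), (nat_lit 500),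
 (nat_lit 550), (nat_lit 600), (nat_lit 650), (nat_lit 700), (nat_lit 750), (nat_lit 800), (nat_lit 850),
 (nat_lit 900), (nat_lit 950), (nat_lit 1000)], [], [
    ⟨(nat_lit 3), (nat_lit 1000), (nat_lit 260), (Int.ofNat (nat_lit 0)), (Int.ofNat (nat_lit 0)),
 [(Int.ofNat (nat_lit 944)), (Int.ofNat (nat_lit 1597)), (Int.ofNat (nat_lit 2108)),
 (Int.ofNat (nat_lit 2551)), (Int.ofNat (nat_lit 2958)), (Int.ofNat (nat_lit 3351)),
 (Int.ofNat (nat_lit 3743)), (Int.ofNat (nat_lit 4145)), (Int.ofNat (nat_lit 4563)),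
 (Int.ofNat (nat_lit 5007)), (Int.ofNat (nat_lit 5482)), (Int.ofNat (nat_lit 5996)),
 (Int.ofNat (nat_lit 6554)), (Int.ofNat (nat_lit 7163)), (Int.ofNat (nat_lit 7810)),
 (Int.negSucc (nat_lit 299999)), (Int.negSucc (nat_lit 299999)), (Int.negSucc (nat_lit 299999)),
 (Int.negSucc (nat_lit 299999)), (Int.negSucc (nat_lit 299999))], []⟩]⟩
def xC180_110 : Box := ⟨(nat_lit 180), (nat_lit 190), (nat_lit 180), (nat_lit 190), (nat_lit 0),
 (nat_lit 0), (nat_lit 12), (nat_lit 110), (nat_lit 0), (nat_lit 0), [(nat_lit 50), (nat_lit 100),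
 (nat_lit 150), (nat_lit 200), (nat_lit 250), (nat_lit 300), (nat_lit 350), (nat_lit 400), (nat_lit 450),
 (nat_lit 500), (nat_lit 550), (nat_lit 600), (nat_lit 650), (nat_lit 700), (nat_lit 750), (nat_lit 800),
 (nat_lit 850), (nat_lit 900), (nat_lit 950), (nat_lit 1000)], [], [
    ⟨(nat_lit 3), (nat_lit 1000), (nat_lit 290), (Int.ofNat (nat_lit 0)), (Int.ofNat (nat_lit 0)),
 [(Int.ofNat (nat_lit 924)), (Int.ofNat (nat_lit 1605)), (Int.ofNat (nat_lit 2091)),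
 (Int.ofNat (nat_lit 2495)), (Int.ofNat (nat_lit 2838)), (Int.ofNat (nat_lit 3158)),
 (Int.ofNat (nat_lit 3462)), (Int.ofNat (nat_lit 3766)), (Int.ofNat (nat_lit 4079)),
 (Int.ofNat (nat_lit 4407)), (Int.ofNat (nat_lit 4758)), (Int.ofNat (nat_lit 5138)),
 (Int.ofNat (nat_lit 5552)), (Int.ofNat (nat_lit 6008)), (Int.ofNat (nat_lit 6512)),
 (Int.ofNat (nat_lit 7070)), (Int.ofNat (nat_lit 7684)), (Int.negSucc (nat_lit 299999)),
 (Int.negSucc (nat_lit 299999)), (Int.negSucc (nat_lit 299999))], []⟩,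
    ⟨(nat_lit 3), (nat_lit 1000), (nat_lit 400), (Int.ofNat (nat_lit 0)), (Int.ofNat (nat_lit 0)),
 [(Int.ofNat (nat_lit 844)), (Int.ofNat (nat_lit 1643)), (Int.ofNat (nat_lit 2036)),
 (Int.ofNat (nat_lit 2286)), (Int.ofNat (nat_lit 2403)), (Int.ofNat (nat_lit 2448)),
 (Int.ofNat (nat_lit 2434)), (Int.ofNat (nat_lit 2384)), (Int.ofNat (nat_lit 2304)),
 (Int.ofNat (nat_lit 2209)), (Int.ofNat (nat_lit 2102)), (Int.ofNat (nat_lit 1991)),
 (Int.ofNat (nat_lit 1880)), (Int.ofNat (nat_lit 1773)), (Int.ofNat (nat_lit 1670)),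
 (Int.ofNat (nat_lit 1570)), (Int.ofNat (nat_lit 1471)), (Int.negSucc (nat_lit 299999)),
 (Int.negSucc (nat_lit 299999)), (Int.negSucc (nat_lit 299999))], []⟩,
    ⟨(nat_lit 3), (nat_lit 1000), (nat_lit 600), (Int.ofNat (nat_lit 0)), (Int.ofNat (nat_lit 0)),
 [(Int.ofNat (nat_lit 809)), (Int.ofNat (nat_lit 1633)), (Int.ofNat (nat_lit 1965)),
 (Int.ofNat (nat_lit 1889)), (Int.ofNat (nat_lit 1618)), (Int.ofNat (nat_lit 1153)),
 (Int.ofNat (nat_lit 570)), (Int.negSucc (nat_lit 131)), (Int.negSucc (nat_lit 915)),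
 (Int.negSucc (nat_lit 1785)), (Int.negSucc (nat_lit 2718)), (Int.negSucc (nat_lit 3723)),
 (Int.negSucc (nat_lit 4785)), (Int.negSucc (nat_lit 5920)), (Int.negSucc (nat_lit 7120)),
 (Int.negSucc (nat_lit 8417)), (Int.negSucc (nat_lit 9821)), (Int.negSucc (nat_lit 299999)),
 (Int.negSucc (nat_lit 299999)), (Int.negSucc (nat_lit 299999))], []⟩,
    ⟨(nat_lit 3), (nat_lit 1000), (nat_lit 1000), (Int.ofNat (nat_lit 0)), (Int.ofNat (nat_lit 0)),
 [(Int.ofNat (nat_lit 799)), (Int.ofNat (nat_lit 1686)), (Int.ofNat (nat_lit 1799)),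
 (Int.ofNat (nat_lit 1128)), (Int.ofNat (nat_lit 48)), (Int.negSucc (nat_lit 1413)),
 (Int.negSucc (nat_lit 3139)), (Int.negSucc (nat_lit 5135)), (Int.negSucc (nat_lit 7326)),
 (Int.negSucc (nat_lit 9738)), (Int.negSucc (nat_lit 12320)), (Int.negSucc (nat_lit 15109)),
 (Int.negSucc (nat_lit 18068)), (Int.negSucc (nat_lit 21252)), (Int.negSucc (nat_lit 24641)),
 (Int.negSucc (nat_lit 28327)), (Int.negSucc (nat_lit 32335)), (Int.negSucc (nat_lit 299999)),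
 (Int.negSucc (nat_lit 299999)), (Int.negSucc (nat_lit 299999))], []⟩,
    ⟨(nat_lit 3), (nat_lit 1000), (nat_lit 2000), (Int.ofNat (nat_lit 0)), (Int.ofNat (nat_lit 0)),
 [(Int.ofNat (nat_lit 798)), (Int.ofNat (nat_lit 1818)), (Int.ofNat (nat_lit 1383)),
 (Int.negSucc (nat_lit 782)), (Int.negSucc (nat_lit 3869)), (Int.negSucc (nat_lit 7834)),
 (Int.negSucc (nat_lit 12417)), (Int.negSucc (nat_lit 17646)), (Int.negSucc (nat_lit 23357)),
 (Int.negSucc (nat_lit 29624)), (Int.negSucc (nat_lit 36329)), (Int.negSucc (nat_lit 43576)),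
 (Int.negSucc (nat_lit 51280)), (Int.negSucc (nat_lit 59586)), (Int.negSucc (nat_lit 68451)),
 (Int.negSucc (nat_lit 78109)), (Int.negSucc (nat_lit 88630)), (Int.negSucc (nat_lit 299999)),
 (Int.negSucc (nat_lit 299999)), (Int.negSucc (nat_lit 299999))], []⟩,
    ⟨(nat_lit 3), (nat_lit 1000), (nat_lit 4000), (Int.ofNat (nat_lit 0)), (Int.ofNat (nat_lit 0)),
 [(Int.ofNat (nat_lit 804)), (Int.ofNat (nat_lit 2079)), (Int.ofNat (nat_lit 546)),
 (Int.negSucc (nat_lit 4612)), (Int.negSucc (nat_lit 11717)), (Int.negSucc (nat_lit 20690)),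
 (Int.negSucc (nat_lit 30989)), (Int.negSucc (nat_lit 42688)), (Int.negSucc (nat_lit 55444)),
 (Int.negSucc (nat_lit 69424)), (Int.negSucc (nat_lit 84381)), (Int.negSucc (nat_lit 100547)),
 (Int.negSucc (nat_lit 117745)), (Int.negSucc (nat_lit 136298)), (Int.negSucc (nat_lit 156119)),
 (Int.negSucc (nat_lit 177723)), (Int.negSucc (nat_lit 201276)), (Int.negSucc (nat_lit 299999)),
 (Int.negSucc (nat_lit 299999)), (Int.negSucc (nat_lit 299999))], []⟩]⟩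
def xC190_80 : Box := ⟨(nat_lit 190), (nat_lit 200), (nat_lit 190), (nat_lit 200), (nat_lit 0), (nat_lit 0),
 (nat_lit 12), (nat_lit 80), (nat_lit 0), (nat_lit 0), [(nat_lit 50), (nat_lit 100), (nat_lit 150),
 (nat_lit 200), (nat_lit 250), (nat_lit 300), (nat_lit 350), (nat_lit 400), (nat_lit 450), (nat_lit 500),
 (nat_lit 550), (nat_lit 600), (nat_lit 650), (nat_lit 700), (nat_lit 750), (nat_lit 800), (nat_lit 850),
 (nat_lit 900), (nat_lit 950), (nat_lit 1000)], [], [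
    ⟨(nat_lit 3), (nat_lit 1000), (nat_lit 260), (Int.ofNat (nat_lit 0)), (Int.ofNat (nat_lit 0)),
 [(Int.ofNat (nat_lit 954)), (Int.ofNat (nat_lit 1229)), (Int.ofNat (nat_lit 1566)),
 (Int.ofNat (nat_lit 1865)), (Int.ofNat (nat_lit 2171)), (Int.ofNat (nat_lit 2495)),
 (Int.ofNat (nat_lit 2850)), (Int.ofNat (nat_lit 3245)), (Int.ofNat (nat_lit 3687)),
 (Int.ofNat (nat_lit 4184)), (Int.ofNat (nat_lit 4741)), (Int.ofNat (nat_lit 5364)),
 (Int.ofNat (nat_lit 6039)), (Int.negSucc (nat_lit 299999)), (Int.negSucc (nat_lit 299999)),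
 (Int.negSucc (nat_lit 299999)), (Int.negSucc (nat_lit 299999)), (Int.negSucc (nat_lit 299999)),
 (Int.negSucc (nat_lit 299999)), (Int.negSucc (nat_lit 299999))], []⟩]⟩
def xC190_110 : Box := ⟨(nat_lit 190), (nat_lit 200), (nat_lit 190), (nat_lit 200), (nat_lit 0),
 (nat_lit 0), (nat_lit 12), (nat_lit 110), (nat_lit 0), (nat_lit 0), [(nat_lit 50), (nat_lit 100),
 (nat_lit 150), (nat_lit 200), (nat_lit 250), (nat_lit 300), (nat_lit 350), (nat_lit 400), (nat_lit 450),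
 (nat_lit 500), (nat_lit 550), (nat_lit 600), (nat_lit 650), (nat_lit 700), (nat_lit 750), (nat_lit 800),
 (nat_lit 850), (nat_lit 900), (nat_lit 950), (nat_lit 1000)], [], [
    ⟨(nat_lit 3), (nat_lit 1000), (nat_lit 280), (Int.ofNat (nat_lit 0)), (Int.ofNat (nat_lit 0)),
 [(Int.ofNat (nat_lit 929)), (Int.ofNat (nat_lit 1213)), (Int.ofNat (nat_lit 1509)),
 (Int.ofNat (nat_lit 1754)), (Int.ofNat (nat_lit 1998)), (Int.ofNat (nat_lit 2254)),
 (Int.ofNat (nat_lit 2535)), (Int.ofNat (nat_lit 2852)), (Int.ofNat (nat_lit 3211)),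
 (Int.ofNat (nat_lit 3620)), (Int.ofNat (nat_lit 4085)), (Int.ofNat (nat_lit 4611)),
 (Int.ofNat (nat_lit 5204)), (Int.ofNat (nat_lit 5870)), (Int.ofNat (nat_lit 6615)),
 (Int.ofNat (nat_lit 7413)), (Int.negSucc (nat_lit 299999)), (Int.negSucc (nat_lit 299999)),
 (Int.negSucc (nat_lit 299999)), (Int.negSucc (nat_lit 299999))], []⟩,
    ⟨(nat_lit 3), (nat_lit 1000), (nat_lit 400), (Int.ofNat (nat_lit 0)), (Int.ofNat (nat_lit 0)),
 [(Int.ofNat (nat_lit 869)), (Int.ofNat (nat_lit 1119)), (Int.ofNat (nat_lit 1162)),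
 (Int.ofNat (nat_lit 1092)), (Int.ofNat (nat_lit 967)), (Int.ofNat (nat_lit 812)),
 (Int.ofNat (nat_lit 650)), (Int.ofNat (nat_lit 494)), (Int.ofNat (nat_lit 353)), (Int.ofNat (nat_lit 235)),
 (Int.ofNat (nat_lit 147)), (Int.ofNat (nat_lit 93)), (Int.ofNat (nat_lit 79)), (Int.ofNat (nat_lit 107)),
 (Int.ofNat (nat_lit 180)), (Int.ofNat (nat_lit 282)), (Int.negSucc (nat_lit 299999)),
 (Int.negSucc (nat_lit 299999)), (Int.negSucc (nat_lit 299999)), (Int.negSucc (nat_lit 299999))], []⟩,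
    ⟨(nat_lit 3), (nat_lit 1000), (nat_lit 600), (Int.ofNat (nat_lit 0)), (Int.ofNat (nat_lit 0)),
 [(Int.ofNat (nat_lit 870)), (Int.ofNat (nat_lit 995)), (Int.ofNat (nat_lit 585)),
 (Int.negSucc (nat_lit 5)), (Int.negSucc (nat_lit 752)), (Int.negSucc (nat_lit 1582)),
 (Int.negSucc (nat_lit 2486)), (Int.negSucc (nat_lit 3429)), (Int.negSucc (nat_lit 4407)),
 (Int.negSucc (nat_lit 5403)), (Int.negSucc (nat_lit 6414)), (Int.negSucc (nat_lit 7433)),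
 (Int.negSucc (nat_lit 8461)), (Int.negSucc (nat_lit 9495)), (Int.negSucc (nat_lit 10542)),
 (Int.negSucc (nat_lit 11608)), (Int.negSucc (nat_lit 299999)), (Int.negSucc (nat_lit 299999)),
 (Int.negSucc (nat_lit 299999)), (Int.negSucc (nat_lit 299999))], []⟩,
    ⟨(nat_lit 3), (nat_lit 1000), (nat_lit 1000), (Int.ofNat (nat_lit 0)), (Int.ofNat (nat_lit 0)),
 [(Int.ofNat (nat_lit 949)), (Int.ofNat (nat_lit 709)), (Int.negSucc (nat_lit 554)),
 (Int.negSucc (nat_lit 2193)), (Int.negSucc (nat_lit 4172)), (Int.negSucc (nat_lit 6353)),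
 (Int.negSucc (nat_lit 8734)), (Int.negSucc (nat_lit 11244)), (Int.negSucc (nat_lit 13890)),
 (Int.negSucc (nat_lit 16632)), (Int.negSucc (nat_lit 19488)), (Int.negSucc (nat_lit 22429)),
 (Int.negSucc (nat_lit 25481)), (Int.negSucc (nat_lit 28629)), (Int.negSucc (nat_lit 31914)),
 (Int.negSucc (nat_lit 35353)), (Int.negSucc (nat_lit 299999)), (Int.negSucc (nat_lit 299999)),
 (Int.negSucc (nat_lit 299999)), (Int.negSucc (nat_lit 299999))], []⟩,
    ⟨(nat_lit 3), (nat_lit 1000), (nat_lit 2000), (Int.ofNat (nat_lit 0)), (Int.ofNat (nat_lit 0)),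
 [(Int.ofNat (nat_lit 1260)), (Int.negSucc (nat_lit 121)), (Int.negSucc (nat_lit 3408)),
 (Int.negSucc (nat_lit 7662)), (Int.negSucc (nat_lit 12720)), (Int.negSucc (nat_lit 18289)),
 (Int.negSucc (nat_lit 24357)), (Int.negSucc (nat_lit 30783)), (Int.negSucc (nat_lit 37600)),
 (Int.negSucc (nat_lit 44711)), (Int.negSucc (nat_lit 52175)), (Int.negSucc (nat_lit 59923)),
 (Int.negSucc (nat_lit 68036)), (Int.negSucc (nat_lit 76471)), (Int.negSucc (nat_lit 85350)),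
 (Int.negSucc (nat_lit 94723)), (Int.negSucc (nat_lit 299999)), (Int.negSucc (nat_lit 299999)),
 (Int.negSucc (nat_lit 299999)), (Int.negSucc (nat_lit 299999))], []⟩,
    ⟨(nat_lit 3), (nat_lit 1000), (nat_lit 4000), (Int.ofNat (nat_lit 0)), (Int.ofNat (nat_lit 0)),
 [(Int.ofNat (nat_lit 1775)), (Int.negSucc (nat_lit 1681)), (Int.negSucc (nat_lit 9120)),
 (Int.negSucc (nat_lit 18614)), (Int.negSucc (nat_lit 29842)), (Int.negSucc (nat_lit 42163)),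
 (Int.negSucc (nat_lit 55623)), (Int.negSucc (nat_lit 69886)), (Int.negSucc (nat_lit 85047)),
 (Int.negSucc (nat_lit 100900)), (Int.negSucc (nat_lit 117585)), (Int.negSucc (nat_lit 134950)),
 (Int.negSucc (nat_lit 153188)), (Int.negSucc (nat_lit 172202)), (Int.negSucc (nat_lit 192273)),
 (Int.negSucc (nat_lit 213518)), (Int.negSucc (nat_lit 299999)), (Int.negSucc (nat_lit 299999)),
 (Int.negSucc (nat_lit 299999)), (Int.negSucc (nat_lit 299999))], []⟩]⟩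

end CB
end Pool.Agent.Lib.MP_6947cd_al
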