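import Pool.Agent.Lib.MP_6947cd_al.L.CellR
import Pool.Agent.Lib.MP_6947cd_al.L.PtP

/-!
Problem MP_6947cd_al (Chollet).  CASE A, cells of the row `j`: the checker for the kernel, and elementary facts
about its parts.
-/

set_option autoImplicit false

namespace Pool.Agent.Lib.MP_6947cd_al
namespace CA

open Ent Ent.Pk Fr Fr.WT

/-! ### tables -/

/-- digit of 32 bits -/
def dg (t i : ℕ) : ℕ := Nat.land (Nat.shiftRight t (Nat.mul (nat_lit 32) i)) (nat_lit 4294967295)

/-- index of a list of digits, with bound check -/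
noncomputable def idxC (rd : List ℕ) : List ℕ → (ℕ → Bool) → Bool :=
  @List.rec ℕ (fun _ => List ℕ → (ℕ → Bool) → Bool)
    (fun ns k => @List.rec ℕ (fun _ => Bool) (k (nat_lit 0)) (fun _ _ _ => false) ns)
    (fun r _ ih ns k => @List.rec ℕ (fun _ => Bool) false (fun n ns' _ =>
      cond (Nat.ble (Nat.succ n) r) (ih ns' fun m => frc (Nat.add n (Nat.mul r m)) k) false) ns) rd

/-- the digits of an index -/
noncomputable def digC (rd : List ℕ) : ℕ → (List ℕ → Bool) → Bool :=
  @List.rec ℕ (fun _ => ℕ → (List ℕ → Bool) → Bool) (fun _ k => k [])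
    (fun r _ ih i k => frc (Nat.mod i r) fun n => frc (Nat.div i r) fun i' => ih i' fun ns => k (n :: ns)) rd

/-- unpacking `r` digits -/
noncomputable def upk (r : ℕ) : ℕ → (List ℕ → Bool) → Bool :=
  @Nat.rec (fun _ => ℕ → (List ℕ → Bool) → Bool) (fun _ k => k [])
    (fun _ ih N k => frc (Nat.land N (nat_lit 4294967295)) fun x =>
      frc (Nat.shiftRight N (nat_lit 32)) fun N' => ih N' fun l => k (x :: l)) r

/-- append -/
noncomputable def app (pre ns : List ℕ) : List ℕ := @List.rec ℕ (fun _ => List ℕ) ns (fun a _ ih => a :: ih) pre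

/-- the check of a packed table of row values: `R` types, multiplicities `pre ++ digits` -/
noncomputable def certOK (v : List (ℕ × ℕ)) (pre rd : List ℕ) (R tab XC : ℕ) (f : ℕ) : ℕ → Bool :=
  @Nat.rec (fun _ => ℕ → Bool) (fun i => Nat.beq (Nat.shiftRight tab (Nat.mul (nat_lit 32) i)) (nat_lit 0))
    (fun _ ih i => cond (frc (dg tab i) fun V => cond (Nat.beq V (nat_lit 0)) true
        (digC rd i fun ns => frc (Nat.shiftRight XC (Nat.mul (Nat.mul (nat_lit 32) R) i)) fun N =>
          upk R N fun X => rowOK v (app pre ns) X V))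
      (frc (Nat.succ i) fun i' => ih i') false) f

/-- the mathematical index -/
def idx : List ℕ → List ℕ → ℕ
  | r :: rd, n :: ns => n + r * idx rd ns
  | _, _ => 0

/-- the mathematical digits -/
def dig : List ℕ → ℕ → List ℕ
  | [], _ => []
  | r :: rd, i => (i % r) :: dig rd (i / r)

/-- digits below the radices -/
def OkD (rd ns : List ℕ) : Prop := List.Forall₂ (fun n r => n < r) ns rd

lemma dig_idx (rd : List ℕ) : ∀ ns, OkD rd ns → dig rd (idx rd ns) = ns := by
  induction rd with
  | nil =>
    intro ns h
    cases ns with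
    | nil => rfl
    | cons n ns => exact absurd h (by intro h; cases h)
  | cons r rd ih =>
    intro ns h
    cases h with
    | cons h1 h2 =>
      rename_i n ns
      have hr : 0 < r := by omega
      show (n + r * idx rd ns) % r :: dig rd ((n + r * idx rd ns) / r) = n :: ns
      rw [Nat.add_mul_mod_self_left, Nat.mod_eq_of_lt h1, Nat.add_mul_div_left _ _ hr,
        Nat.div_eq_of_lt h1, Nat.zero_add, ih ns h2]

lemma idxC_sound (rd : List ℕ) : ∀ (ns : List ℕ) (k : ℕ → Bool), idxC rd ns k = true →
    OkD rd ns ∧ k (idx rd ns) = true := by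
  induction rd with
  | nil =>
    intro ns k h
    cases ns with
    | nil => exact ⟨List.Forall₂.nil, h⟩
    | cons n ns => exact absurd h (by simp [idxC])
  | cons r rd ih =>
    intro ns k h
    cases ns with
    | nil => exact absurd h (by simp [idxC])
    | cons n ns =>
      have e : idxC (r :: rd) (n :: ns) k = cond (Nat.ble (Nat.succ n) r)
        (idxC rd ns fun m => frc (Nat.add n (Nat.mul r m)) k) false := rfl
      rw [e] at h
      obtain ⟨h1, h2⟩ := cond_eq_true h
      obtain ⟨h3, h4⟩ := ih ns _ h2
      rw [frc_eq] at h4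
      exact ⟨List.Forall₂.cons (Nat.le_of_ble_eq_true h1) h3, h4⟩

lemma digC_eq (rd : List ℕ) : ∀ (i : ℕ) (k : List ℕ → Bool), digC rd i k = k (dig rd i) := by
  induction rd with
  | nil => intro i k; rfl
  | cons r rd ih =>
    intro i k
    have e : digC (r :: rd) i k = frc (Nat.mod i r) fun n => frc (Nat.div i r) fun i' =>
      digC rd i' fun ns => k (n :: ns) := rfl
    rw [e, frc_eq, frc_eq, ih]
    rfl

lemma upk_sound (r : ℕ) : ∀ (N : ℕ) (k : List ℕ → Bool), upk r N k = true → ∃ l, k l = true := by
  induction r with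
  | zero => intro N k h; exact ⟨[], h⟩
  | succ r ih =>
    intro N k h
    have e : upk (r + 1) N k = frc (Nat.land N (nat_lit 4294967295)) fun x =>
      frc (Nat.shiftRight N (nat_lit 32)) fun N' => upk r N' fun l => k (x :: l) := rfl
    rw [e, frc_eq, frc_eq] at h
    obtain ⟨l, hl⟩ := ih _ _ h
    exact ⟨_, hl⟩

lemma app_eq (pre ns : List ℕ) : app pre ns = pre ++ ns := by
  induction pre with
  | nil => rfl
  | cons a pre ih =>
    have e : app (a :: pre) ns = a :: app pre ns := rfl
    rw [e, ih]
    rfl

lemma dg_zero (t i j : ℕ) (h : Nat.shiftRight t (32 * i) = 0) (hij : i ≤ j) : dg t j = 0 := by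
  unfold dg
  have e : Nat.shiftRight t (Nat.mul 32 j) = 0 := by
    have h1 : t >>> (32 * i) = 0 := h
    show t >>> (32 * j) = 0
    obtain ⟨d, rfl⟩ := Nat.exists_eq_add_of_le hij
    rw [Nat.mul_add, Nat.shiftRight_add, h1, Nat.zero_shiftRight]
  rw [e]
  rfl

lemma certOK_aux (v : List (ℕ × ℕ)) (pre rd : List ℕ) (R tab XC : ℕ) (f : ℕ) : ∀ i0,
    certOK v pre rd R tab XC f i0 = true → ∀ i, i0 ≤ i → dg tab i ≠ 0 →
    FM (mk (pre ++ dig rd i) (v.map fun u => (u.1 : ℝ) / (u.2 : ℝ))) ≤ (dg tab i : ℝ) / 10 ^ 7 := by
  induction f with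
  | zero =>
    intro i0 h i hi hne
    have h1 : Nat.beq (Nat.shiftRight tab (Nat.mul 32 i0)) 0 = true := h
    exact absurd (dg_zero tab i0 i (Nat.eq_of_beq_eq_true h1) hi) hne
  | succ f ih =>
    intro i0 h i hi hne
    have e : certOK v pre rd R tab XC (f + 1) i0 = cond (frc (dg tab i0) fun V =>
        cond (Nat.beq V (nat_lit 0)) true (digC rd i0 fun ns =>
          frc (Nat.shiftRight XC (Nat.mul (Nat.mul (nat_lit 32) R) i0)) fun N =>
          upk R N fun X => rowOK v (app pre ns) X V))
      (frc (Nat.succ i0) fun i' => certOK v pre rd R tab XC f i') false := rfl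
    rw [e] at h
    obtain ⟨h1, h2⟩ := cond_eq_true h
    rw [frc_eq] at h1 h2
    rcases Nat.eq_or_lt_of_le hi with rfl | hlt
    · have h3 : Nat.beq (dg tab i0) 0 = false := by
        rw [Bool.eq_false_iff]
        intro hcon
        exact hne (Nat.eq_of_beq_eq_true hcon)
      have h3' : Nat.beq (dg tab i0) (nat_lit 0) = false := h3
      rw [h3', cond_false, digC_eq, frc_eq] at h1
      obtain ⟨X, hX⟩ := upk_sound _ _ _ h1
      rw [app_eq] at hX
      exact row_sound _ _ _ _ hX
    · exact ih _ h2 i hlt hne

/-- soundness of the table check -/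
theorem certOK_sound (v : List (ℕ × ℕ)) (pre rd : List ℕ) (R tab XC f : ℕ)
    (h : certOK v pre rd R tab XC f (nat_lit 0) = true) (ns : List ℕ) (hns : OkD rd ns)
    (hne : 1 ≤ dg tab (idx rd ns)) :
    FM (mk (pre ++ ns) (v.map fun u => (u.1 : ℝ) / (u.2 : ℝ))) ≤ (dg tab (idx rd ns) : ℝ) / 10 ^ 7 := by
  have := certOK_aux v pre rd R tab XC f 0 h (idx rd ns) (Nat.zero_le _) (by omega)
  rwa [dig_idx rd ns hns] at this

/-! ### the enumeration of the cells -/

/-- extension of the corners by one knot (see `cors`) -/
noncomputable def extC (f : Bool) (n : ℕ) (acc : List (ℕ × List ℕ)) :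
    (List (ℕ × List ℕ) → Bool) → Bool :=
  @List.rec (ℕ × List ℕ) (fun _ => (List (ℕ × List ℕ) → Bool) → Bool) (fun k => k [])
    (fun t _ ih k => frc (Nat.add n t.1) fun m => ih fun r =>
      cond f (frc (Nat.succ m) fun m' => k ((nat_lit 1, m :: t.2) :: (nat_lit 0, m' :: t.2) :: r))
        (k ((nat_lit 0, m :: t.2) :: r))) acc

/-- the loop over the multiplicity of one knot -/
noncomputable def loopN (body : ℕ → ℕ → Bool) (k : ℕ) (f : ℕ) : ℕ → ℕ → Bool :=
  @Nat.rec (fun _ => ℕ → ℕ → Bool) (fun _ _ => true)
    (fun _ ih n T => cond (body n T) (frc (Nat.succ n) fun n' => frc (Nat.add T k) fun T' => ih n' T')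
      false) f

/-- the enumeration: knots (with their left neighbours) from above -/
noncomputable def enum (T1 : ℕ) (test : List (ℕ × List ℕ) → Bool) (rks : List (ℕ × ℕ)) :
    ℕ → List (ℕ × List ℕ) → Bool :=
  @List.rec (ℕ × ℕ) (fun _ => ℕ → List (ℕ × List ℕ) → Bool) (fun _ acc => test acc)
    (fun p _ ih T acc => loopN (fun n T =>
        cond (extC false n acc fun acc' => ih T acc')
          (cond (Nat.ble (Nat.add T p.2) T1)
            (frc (Nat.add T p.2) fun Ta => extC true n acc fun acc' => ih Ta acc') true) false)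
      p.1 (Nat.succ (Nat.div (Nat.sub T1 T) p.1)) (nat_lit 0) T) rks

lemma extC_true (n : ℕ) (acc : List (ℕ × List ℕ)) : ∀ k : List (ℕ × List ℕ) → Bool,
    extC true n acc k = k (acc.flatMap fun t => [(1, (n + t.1) :: t.2), (0, (n + t.1 + 1) :: t.2)]) := by
  induction acc with
  | nil => intro k; rfl
  | cons t acc ih =>
    intro k
    have e : extC true n (t :: acc) k = frc (Nat.add n t.1) fun m => extC true n acc fun r =>
      cond true (frc (Nat.succ m) fun m' => k ((nat_lit 1, m :: t.2) :: (nat_lit 0, m' :: t.2) :: r))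
        (k ((nat_lit 0, m :: t.2) :: r)) := rfl
    rw [e, frc_eq, ih, cond_true, frc_eq]
    rfl

lemma extC_false (n : ℕ) (acc : List (ℕ × List ℕ)) : ∀ k : List (ℕ × List ℕ) → Bool,
    extC false n acc k = k (acc.flatMap fun t => [(0, (n + t.1) :: t.2)]) := by
  induction acc with
  | nil => intro k; rfl
  | cons t acc ih =>
    intro k
    have e : extC false n (t :: acc) k = frc (Nat.add n t.1) fun m => extC false n acc fun r =>
      cond false (frc (Nat.succ m) fun m' => k ((nat_lit 1, m :: t.2) :: (nat_lit 0, m' :: t.2) :: r))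
        (k ((nat_lit 0, m :: t.2) :: r)) := rfl
    rw [e, frc_eq, ih, cond_false]
    rfl

lemma loopN_sound (body : ℕ → ℕ → Bool) (k : ℕ) (f : ℕ) : ∀ n T, loopN body k f n T = true →
    ∀ m < f, body (n + m) (T + m * k) = true := by
  induction f with
  | zero => intro n T _ m hm; omega
  | succ f ih =>
    intro n T h m hm
    have e : loopN body k (f + 1) n T = cond (body n T) (frc (Nat.succ n) fun n' =>
      frc (Nat.add T k) fun T' => loopN body k f n' T') false := rfl
    rw [e] at h
    obtain ⟨h1, h2⟩ := cond_eq_true h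
    rw [frc_eq, frc_eq] at h2
    cases m with
    | zero => simpa using h1
    | succ m =>
      have := ih _ _ h2 m (by omega)
      rw [show n + (m + 1) = Nat.succ n + m by omega,
        show T + (m + 1) * k = Nat.add T k + m * k by show _ = T + k + m * k; ring]
      exact this

/-- the smallest total of a cell -/
def tmin : List (ℕ × ℕ) → List ℕ → List Bool → ℕ
  | p :: ps, n :: ns, f :: fs => n * p.1 + (if f then p.2 else 0) + tmin ps ns fs
  | _, _, _ => 0

lemma enum_sound (T1 : ℕ) (test : List (ℕ × List ℕ) → Bool) (rks : List (ℕ × ℕ)) :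
    ∀ (T : ℕ) (nsU : List ℕ) (fsU : List Bool), (∀ p ∈ rks, 0 < p.1) →
    enum T1 test rks T (cors nsU fsU) = true →
    ∀ (rn : List ℕ) (rf : List Bool), rn.length = rks.length → rf.length = rks.length →
      T + tmin rks rn rf ≤ T1 →
      test (cors (rn.reverseAux nsU) (rf.reverseAux fsU)) = true := by
  induction rks with
  | nil =>
    intro T nsU fsU _ h rn rf h1 h2 _
    have h1' := List.eq_nil_of_length_eq_zero h1
    have h2' := List.eq_nil_of_length_eq_zero h2
    subst h1' h2'
    exact h
  | cons p rks ih =>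
    intro T nsU fsU hp h rn rf h1 h2 hT
    cases rn with
    | nil => simp at h1
    | cons n rn =>
      cases rf with
      | nil => simp at h2
      | cons f rf =>
        have hk : 0 < p.1 := hp p List.mem_cons_self
        have e : enum T1 test (p :: rks) T (cors nsU fsU) = loopN (fun n T =>
            cond (extC false n (cors nsU fsU) fun acc' => enum T1 test rks T acc')
              (cond (Nat.ble (Nat.add T p.2) T1)
                (frc (Nat.add T p.2) fun Ta => extC true n (cors nsU fsU) fun acc' =>
                  enum T1 test rks Ta acc') true) false)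
            p.1 (Nat.succ (Nat.div (Nat.sub T1 T) p.1)) (nat_lit 0) T := rfl
        rw [e] at h
        have hT' : T + (n * p.1 + (if f then p.2 else 0) + tmin rks rn rf) ≤ T1 := hT
        have hn : n < Nat.succ (Nat.div (Nat.sub T1 T) p.1) := by
          refine Nat.lt_succ_of_le ?_
          show n ≤ (T1 - T) / p.1
          rw [Nat.le_div_iff_mul_le hk]
          split_ifs at hT' <;> omega
        have h3 := loopN_sound _ _ _ _ _ h n hn
        have hz : nat_lit 0 + n = n := Nat.zero_add n
        rw [hz] at h3
        obtain ⟨h4, h5⟩ := cond_eq_true h3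
        rw [List.reverseAux, List.reverseAux]
        cases f with
        | false =>
          rw [extC_false] at h4
          refine ih (T + n * p.1) (n :: nsU) (false :: fsU) (fun q hq => hp q (List.mem_cons_of_mem _ hq))
            ?_ rn rf (by simpa using h1) (by simpa using h2) ?_
          · exact h4
          · simp only [Bool.false_eq_true, if_false] at hT'
            omega
        | true =>
          simp only [if_true] at hT'
          have h6 : Nat.ble (Nat.add (T + n * p.1) p.2) T1 = true :=
            Nat.ble_eq_true_of_le (show T + n * p.1 + p.2 ≤ T1 by omega)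
          rw [h6, cond_true, frc_eq, extC_true] at h5
          refine ih (T + n * p.1 + p.2) (n :: nsU) (true :: fsU)
            (fun q hq => hp q (List.mem_cons_of_mem _ hq)) ?_ rn rf (by simpa using h1)
            (by simpa using h2) (by omega)
          exact h5

end CA
end Pool.Agent.Lib.MP_6947cd_al
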