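import Pool.Agent.Lib.MP_6947cd_al.L.BoxA

/-!
Problem MP_6947cd_al (Chollet).  THE LIBRARY OF PAIR FUNCTIONS (generated): one box per cell of `h` and
range of `s`; the classes are the slopes, type `3`: pure, type `1`: minus `gtr u`.
-/

set_option autoImplicit false

namespace Pool.Agent.Lib.MP_6947cd_al
namespace CB

open CA

def xL100_20 : Box := ⟨(nat_lit 100), (nat_lit 110), (nat_lit 100), (nat_lit 110), (nat_lit 0), (nat_lit 0),
 (nat_lit 12), (nat_lit 20), (nat_lit 0), (nat_lit 0), [(nat_lit 50), (nat_lit 100), (nat_lit 150),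
 (nat_lit 200), (nat_lit 250), (nat_lit 300), (nat_lit 350), (nat_lit 400), (nat_lit 450), (nat_lit 500),
 (nat_lit 550), (nat_lit 600), (nat_lit 650), (nat_lit 700), (nat_lit 750), (nat_lit 800), (nat_lit 850),
 (nat_lit 900), (nat_lit 950), (nat_lit 1000)], [], [
    ⟨(nat_lit 3), (nat_lit 1000), (nat_lit 250), (Int.ofNat (nat_lit 0)), (Int.ofNat (nat_lit 0)),
 [(Int.ofNat (nat_lit 897)), (Int.ofNat (nat_lit 1833)), (Int.ofNat (nat_lit 2829)),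
 (Int.ofNat (nat_lit 3652)), (Int.ofNat (nat_lit 4422)), (Int.ofNat (nat_lit 5200)),
 (Int.ofNat (nat_lit 5952)), (Int.ofNat (nat_lit 6670)), (Int.ofNat (nat_lit 7338)),
 (Int.ofNat (nat_lit 7952)), (Int.ofNat (nat_lit 8501)), (Int.ofNat (nat_lit 8962)),
 (Int.ofNat (nat_lit 9337)), (Int.ofNat (nat_lit 9596)), (Int.ofNat (nat_lit 9740)),
 (Int.ofNat (nat_lit 9812)), (Int.negSucc (nat_lit 29914)), (Int.negSucc (nat_lit 29999)),
 (Int.negSucc (nat_lit 29999)), (Int.negSucc (nat_lit 29999))], []⟩,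
    ⟨(nat_lit 3), (nat_lit 1000), (nat_lit 400), (Int.ofNat (nat_lit 0)), (Int.ofNat (nat_lit 0)),
 [(Int.ofNat (nat_lit 601)), (Int.ofNat (nat_lit 1283)), (Int.ofNat (nat_lit 2046)),
 (Int.ofNat (nat_lit 2891)), (Int.ofNat (nat_lit 3819)), (Int.ofNat (nat_lit 4841)),
 (Int.ofNat (nat_lit 5801)), (Int.ofNat (nat_lit 6597)), (Int.ofNat (nat_lit 7312)),
 (Int.ofNat (nat_lit 7959)), (Int.ofNat (nat_lit 8475)), (Int.ofNat (nat_lit 8818)),
 (Int.ofNat (nat_lit 9005)), (Int.ofNat (nat_lit 8980)), (Int.ofNat (nat_lit 8752)),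
 (Int.ofNat (nat_lit 8310)), (Int.negSucc (nat_lit 29932)), (Int.negSucc (nat_lit 29999)),
 (Int.negSucc (nat_lit 29999)), (Int.negSucc (nat_lit 29999))], []⟩,
    ⟨(nat_lit 3), (nat_lit 1000), (nat_lit 1000), (Int.ofNat (nat_lit 0)), (Int.ofNat (nat_lit 0)),
 [(Int.ofNat (nat_lit 550)), (Int.ofNat (nat_lit 1172)), (Int.ofNat (nat_lit 1867)),
 (Int.ofNat (nat_lit 2635)), (Int.ofNat (nat_lit 3475)), (Int.ofNat (nat_lit 4388)),
 (Int.ofNat (nat_lit 5376)), (Int.ofNat (nat_lit 6483)), (Int.ofNat (nat_lit 7325)),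
 (Int.ofNat (nat_lit 7988)), (Int.ofNat (nat_lit 8372)), (Int.ofNat (nat_lit 8243)),
 (Int.ofNat (nat_lit 7676)), (Int.ofNat (nat_lit 6513)), (Int.ofNat (nat_lit 4802)),
 (Int.ofNat (nat_lit 2309)), (Int.negSucc (nat_lit 29993)), (Int.negSucc (nat_lit 29999)),
 (Int.negSucc (nat_lit 29999)), (Int.negSucc (nat_lit 29999))], []⟩,
    ⟨(nat_lit 1), (nat_lit 1000), (nat_lit 200), (Int.ofNat (nat_lit 0)), (Int.ofNat (nat_lit 0)),
 [(Int.ofNat (nat_lit 6853)), (Int.ofNat (nat_lit 1970)), (Int.ofNat (nat_lit 2660)),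
 (Int.ofNat (nat_lit 2892)), (Int.ofNat (nat_lit 2762)), (Int.ofNat (nat_lit 2563)),
 (Int.ofNat (nat_lit 2275)), (Int.ofNat (nat_lit 1866)), (Int.ofNat (nat_lit 1322)),
 (Int.ofNat (nat_lit 640)), (Int.negSucc (nat_lit 230)), (Int.negSucc (nat_lit 1270)),
 (Int.negSucc (nat_lit 2550)), (Int.negSucc (nat_lit 2920)), (Int.negSucc (nat_lit 2594)),
 (Int.negSucc (nat_lit 2435)), (Int.negSucc (nat_lit 29968)), (Int.negSucc (nat_lit 29999)),
 (Int.negSucc (nat_lit 29999)), (Int.negSucc (nat_lit 29999))], []⟩,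
    ⟨(nat_lit 1), (nat_lit 1000), (nat_lit 250), (Int.ofNat (nat_lit 0)), (Int.ofNat (nat_lit 0)),
 [(Int.ofNat (nat_lit 830)), (Int.ofNat (nat_lit 1484)), (Int.ofNat (nat_lit 2160)),
 (Int.ofNat (nat_lit 2395)), (Int.ofNat (nat_lit 2431)), (Int.ofNat (nat_lit 2360)),
 (Int.ofNat (nat_lit 2160)), (Int.ofNat (nat_lit 1825)), (Int.ofNat (nat_lit 1311)),
 (Int.ofNat (nat_lit 644)), (Int.negSucc (nat_lit 240)), (Int.negSucc (nat_lit 1317)),
 (Int.negSucc (nat_lit 2662)), (Int.negSucc (nat_lit 3123)), (Int.negSucc (nat_lit 2959)),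
 (Int.negSucc (nat_lit 2939)), (Int.negSucc (nat_lit 29944)), (Int.negSucc (nat_lit 29999)),
 (Int.negSucc (nat_lit 29999)), (Int.negSucc (nat_lit 29999))], []⟩,
    ⟨(nat_lit 1), (nat_lit 1000), (nat_lit 400), (Int.ofNat (nat_lit 0)), (Int.ofNat (nat_lit 0)),
 [(Int.ofNat (nat_lit 188)), (Int.ofNat (nat_lit 460)), (Int.ofNat (nat_lit 816)),
 (Int.ofNat (nat_lit 1281)), (Int.ofNat (nat_lit 1750)), (Int.ofNat (nat_lit 1971)),
 (Int.ofNat (nat_lit 1960)), (Int.ofNat (nat_lit 1709)), (Int.ofNat (nat_lit 1280)),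
 (Int.ofNat (nat_lit 654)), (Int.negSucc (nat_lit 269)), (Int.negSucc (nat_lit 1458)),
 (Int.negSucc (nat_lit 2997)), (Int.negSucc (nat_lit 3745)), (Int.negSucc (nat_lit 3937)),
 (Int.negSucc (nat_lit 4430)), (Int.negSucc (nat_lit 29944)), (Int.negSucc (nat_lit 29999)),
 (Int.negSucc (nat_lit 29999)), (Int.negSucc (nat_lit 29999))], []⟩,
    ⟨(nat_lit 1), (nat_lit 1000), (nat_lit 1000), (Int.ofNat (nat_lit 0)), (Int.ofNat (nat_lit 0)),
 [(Int.ofNat (nat_lit 11)), (Int.ofNat (nat_lit 79)), (Int.ofNat (nat_lit 206)), (Int.ofNat (nat_lit 392)),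
 (Int.ofNat (nat_lit 637)), (Int.ofNat (nat_lit 942)), (Int.ofNat (nat_lit 1329)),
 (Int.ofNat (nat_lit 1636)), (Int.ofNat (nat_lit 1214)), (Int.ofNat (nat_lit 698)),
 (Int.negSucc (nat_lit 388)), (Int.negSucc (nat_lit 2017)), (Int.negSucc (nat_lit 4343)),
 (Int.negSucc (nat_lit 6233)), (Int.negSucc (nat_lit 7850)), (Int.negSucc (nat_lit 10451)),
 (Int.negSucc (nat_lit 29999)), (Int.negSucc (nat_lit 29999)), (Int.negSucc (nat_lit 29999)),
 (Int.negSucc (nat_lit 29999))], []⟩]⟩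
def xL100_40 : Box := ⟨(nat_lit 100), (nat_lit 110), (nat_lit 100), (nat_lit 110), (nat_lit 0), (nat_lit 0),
 (nat_lit 12), (nat_lit 40), (nat_lit 0), (nat_lit 0), [(nat_lit 50), (nat_lit 100), (nat_lit 150),
 (nat_lit 200), (nat_lit 250), (nat_lit 300), (nat_lit 350), (nat_lit 400), (nat_lit 450), (nat_lit 500),
 (nat_lit 550), (nat_lit 600), (nat_lit 650), (nat_lit 700), (nat_lit 750), (nat_lit 800), (nat_lit 850),
 (nat_lit 900), (nat_lit 950), (nat_lit 1000)], [], [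
    ⟨(nat_lit 3), (nat_lit 1000), (nat_lit 250), (Int.ofNat (nat_lit 0)), (Int.ofNat (nat_lit 0)),
 [(Int.ofNat (nat_lit 1261)), (Int.ofNat (nat_lit 2238)), (Int.ofNat (nat_lit 2906)),
 (Int.ofNat (nat_lit 3654)), (Int.ofNat (nat_lit 4426)), (Int.ofNat (nat_lit 5200)),
 (Int.ofNat (nat_lit 5965)), (Int.ofNat (nat_lit 6682)), (Int.ofNat (nat_lit 7338)),
 (Int.ofNat (nat_lit 7952)), (Int.ofNat (nat_lit 8501)), (Int.ofNat (nat_lit 8962)),
 (Int.ofNat (nat_lit 9338)), (Int.ofNat (nat_lit 9595)), (Int.ofNat (nat_lit 9741)),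
 (Int.ofNat (nat_lit 9727)), (Int.ofNat (nat_lit 9576)), (Int.ofNat (nat_lit 9272)),
 (Int.negSucc (nat_lit 29899)), (Int.negSucc (nat_lit 29999))], []⟩,
    ⟨(nat_lit 3), (nat_lit 1000), (nat_lit 400), (Int.ofNat (nat_lit 0)), (Int.ofNat (nat_lit 0)),
 [(Int.ofNat (nat_lit 601)), (Int.ofNat (nat_lit 1283)), (Int.ofNat (nat_lit 2046)),
 (Int.ofNat (nat_lit 2891)), (Int.ofNat (nat_lit 3819)), (Int.ofNat (nat_lit 4852)),
 (Int.ofNat (nat_lit 5813)), (Int.ofNat (nat_lit 6607)), (Int.ofNat (nat_lit 7312)),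
 (Int.ofNat (nat_lit 7959)), (Int.ofNat (nat_lit 8476)), (Int.ofNat (nat_lit 8817)),
 (Int.ofNat (nat_lit 9006)), (Int.ofNat (nat_lit 8979)), (Int.ofNat (nat_lit 8753)),
 (Int.ofNat (nat_lit 8241)), (Int.ofNat (nat_lit 7433)), (Int.ofNat (nat_lit 6257)),
 (Int.negSucc (nat_lit 29905)), (Int.negSucc (nat_lit 29999))], []⟩,
    ⟨(nat_lit 3), (nat_lit 1000), (nat_lit 1000), (Int.ofNat (nat_lit 0)), (Int.ofNat (nat_lit 0)),
 [(Int.ofNat (nat_lit 550)), (Int.ofNat (nat_lit 1172)), (Int.ofNat (nat_lit 1867)),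
 (Int.ofNat (nat_lit 2635)), (Int.ofNat (nat_lit 3475)), (Int.ofNat (nat_lit 4388)),
 (Int.ofNat (nat_lit 5376)), (Int.ofNat (nat_lit 6483)), (Int.ofNat (nat_lit 7325)),
 (Int.ofNat (nat_lit 7983)), (Int.ofNat (nat_lit 8380)), (Int.ofNat (nat_lit 8238)),
 (Int.ofNat (nat_lit 7684)), (Int.ofNat (nat_lit 6508)), (Int.ofNat (nat_lit 4809)),
 (Int.ofNat (nat_lit 2295)), (Int.negSucc (nat_lit 1019)), (Int.negSucc (nat_lit 5691)),
 (Int.negSucc (nat_lit 29993)), (Int.negSucc (nat_lit 29999))], []⟩,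
    ⟨(nat_lit 1), (nat_lit 1000), (nat_lit 215), (Int.ofNat (nat_lit 0)), (Int.ofNat (nat_lit 0)),
 [(Int.ofNat (nat_lit 16069)), (Int.ofNat (nat_lit 2717)), (Int.ofNat (nat_lit 2746)),
 (Int.ofNat (nat_lit 2741)), (Int.ofNat (nat_lit 2666)), (Int.ofNat (nat_lit 2501)),
 (Int.ofNat (nat_lit 2253)), (Int.ofNat (nat_lit 1867)), (Int.ofNat (nat_lit 1316)),
 (Int.ofNat (nat_lit 641)), (Int.negSucc (nat_lit 233)), (Int.negSucc (nat_lit 1284)),
 (Int.negSucc (nat_lit 2577)), (Int.negSucc (nat_lit 2954)), (Int.negSucc (nat_lit 2722)),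
 (Int.negSucc (nat_lit 2606)), (Int.negSucc (nat_lit 2430)), (Int.negSucc (nat_lit 2803)),
 (Int.negSucc (nat_lit 29962)), (Int.negSucc (nat_lit 29999))], []⟩,
    ⟨(nat_lit 1), (nat_lit 1000), (nat_lit 250), (Int.ofNat (nat_lit 0)), (Int.ofNat (nat_lit 0)),
 [(Int.ofNat (nat_lit 1264)), (Int.ofNat (nat_lit 2092)), (Int.ofNat (nat_lit 2252)),
 (Int.ofNat (nat_lit 2395)), (Int.ofNat (nat_lit 2443)), (Int.ofNat (nat_lit 2376)),
 (Int.ofNat (nat_lit 2172)), (Int.ofNat (nat_lit 1837)), (Int.ofNat (nat_lit 1311)),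
 (Int.ofNat (nat_lit 644)), (Int.negSucc (nat_lit 240)), (Int.negSucc (nat_lit 1317)),
 (Int.negSucc (nat_lit 2662)), (Int.negSucc (nat_lit 3123)), (Int.negSucc (nat_lit 2959)),
 (Int.negSucc (nat_lit 2985)), (Int.negSucc (nat_lit 3127)), (Int.negSucc (nat_lit 3506)),
 (Int.negSucc (nat_lit 29965)), (Int.negSucc (nat_lit 29999))], []⟩,
    ⟨(nat_lit 1), (nat_lit 1000), (nat_lit 400), (Int.ofNat (nat_lit 0)), (Int.ofNat (nat_lit 0)),
 [(Int.ofNat (nat_lit 193)), (Int.ofNat (nat_lit 466)), (Int.ofNat (nat_lit 822)),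
 (Int.ofNat (nat_lit 1283)), (Int.ofNat (nat_lit 1755)), (Int.ofNat (nat_lit 1982)),
 (Int.ofNat (nat_lit 1972)), (Int.ofNat (nat_lit 1706)), (Int.ofNat (nat_lit 1284)),
 (Int.ofNat (nat_lit 652)), (Int.negSucc (nat_lit 267)), (Int.negSucc (nat_lit 1456)),
 (Int.negSucc (nat_lit 2998)), (Int.negSucc (nat_lit 3741)), (Int.negSucc (nat_lit 3945)),
 (Int.negSucc (nat_lit 4480)), (Int.negSucc (nat_lit 5264)), (Int.negSucc (nat_lit 6523)),
 (Int.negSucc (nat_lit 29959)), (Int.negSucc (nat_lit 29999))], []⟩,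
    ⟨(nat_lit 1), (nat_lit 1000), (nat_lit 1000), (Int.ofNat (nat_lit 0)), (Int.ofNat (nat_lit 0)),
 [(Int.ofNat (nat_lit 11)), (Int.ofNat (nat_lit 79)), (Int.ofNat (nat_lit 206)), (Int.ofNat (nat_lit 392)),
 (Int.ofNat (nat_lit 637)), (Int.ofNat (nat_lit 942)), (Int.ofNat (nat_lit 1337)),
 (Int.ofNat (nat_lit 1613)), (Int.ofNat (nat_lit 1226)), (Int.ofNat (nat_lit 698)),
 (Int.negSucc (nat_lit 388)), (Int.negSucc (nat_lit 2017)), (Int.negSucc (nat_lit 4343)),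
 (Int.negSucc (nat_lit 6224)), (Int.negSucc (nat_lit 7868)), (Int.negSucc (nat_lit 10441)),
 (Int.negSucc (nat_lit 13694)), (Int.negSucc (nat_lit 18445)), (Int.negSucc (nat_lit 29999)),
 (Int.negSucc (nat_lit 29999))], []⟩]⟩
def xL100_60 : Box := ⟨(nat_lit 100), (nat_lit 110), (nat_lit 100), (nat_lit 110), (nat_lit 0), (nat_lit 0),
 (nat_lit 12), (nat_lit 60), (nat_lit 0), (nat_lit 0), [(nat_lit 50), (nat_lit 100), (nat_lit 150),
 (nat_lit 200), (nat_lit 250), (nat_lit 300), (nat_lit 350), (nat_lit 400), (nat_lit 450), (nat_lit 500),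
 (nat_lit 550), (nat_lit 600), (nat_lit 650), (nat_lit 700), (nat_lit 750), (nat_lit 800), (nat_lit 850),
 (nat_lit 900), (nat_lit 950), (nat_lit 1000)], [], [
    ⟨(nat_lit 3), (nat_lit 1000), (nat_lit 260), (Int.ofNat (nat_lit 0)), (Int.ofNat (nat_lit 0)),
 [(Int.ofNat (nat_lit 2233)), (Int.ofNat (nat_lit 2023)), (Int.ofNat (nat_lit 2771)),
 (Int.ofNat (nat_lit 3569)), (Int.ofNat (nat_lit 4393)), (Int.ofNat (nat_lit 5171)),
 (Int.ofNat (nat_lit 5935)), (Int.ofNat (nat_lit 6660)), (Int.ofNat (nat_lit 7334)),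
 (Int.ofNat (nat_lit 7956)), (Int.ofNat (nat_lit 8495)), (Int.ofNat (nat_lit 8957)),
 (Int.ofNat (nat_lit 9310)), (Int.ofNat (nat_lit 9560)), (Int.ofNat (nat_lit 9669)),
 (Int.ofNat (nat_lit 9634)), (Int.ofNat (nat_lit 9415)), (Int.ofNat (nat_lit 9006)),
 (Int.ofNat (nat_lit 8329)), (Int.ofNat (nat_lit 5231))], []⟩,
    ⟨(nat_lit 3), (nat_lit 1000), (nat_lit 400), (Int.ofNat (nat_lit 0)), (Int.ofNat (nat_lit 0)),
 [(Int.ofNat (nat_lit 601)), (Int.ofNat (nat_lit 1283)), (Int.ofNat (nat_lit 2046)),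
 (Int.ofNat (nat_lit 2891)), (Int.ofNat (nat_lit 3820)), (Int.ofNat (nat_lit 4843)),
 (Int.ofNat (nat_lit 5810)), (Int.ofNat (nat_lit 6614)), (Int.ofNat (nat_lit 7308)),
 (Int.ofNat (nat_lit 7965)), (Int.ofNat (nat_lit 8469)), (Int.ofNat (nat_lit 8826)),
 (Int.ofNat (nat_lit 8996)), (Int.ofNat (nat_lit 8989)), (Int.ofNat (nat_lit 8742)),
 (Int.ofNat (nat_lit 8253)), (Int.ofNat (nat_lit 7420)), (Int.ofNat (nat_lit 6177)),
 (Int.ofNat (nat_lit 4235)), (Int.ofNat (nat_lit 497))], []⟩,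
    ⟨(nat_lit 3), (nat_lit 1000), (nat_lit 1000), (Int.ofNat (nat_lit 0)), (Int.ofNat (nat_lit 0)),
 [(Int.ofNat (nat_lit 550)), (Int.ofNat (nat_lit 1172)), (Int.ofNat (nat_lit 1867)),
 (Int.ofNat (nat_lit 2635)), (Int.ofNat (nat_lit 3475)), (Int.ofNat (nat_lit 4388)),
 (Int.ofNat (nat_lit 5375)), (Int.ofNat (nat_lit 6483)), (Int.ofNat (nat_lit 7325)),
 (Int.ofNat (nat_lit 8010)), (Int.ofNat (nat_lit 8348)), (Int.ofNat (nat_lit 8266)),
 (Int.ofNat (nat_lit 7650)), (Int.ofNat (nat_lit 6545)), (Int.ofNat (nat_lit 4768)),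
 (Int.ofNat (nat_lit 2340)), (Int.negSucc (nat_lit 1070)), (Int.negSucc (nat_lit 5632)),
 (Int.negSucc (nat_lit 12274)), (Int.negSucc (nat_lit 24647))], []⟩,
    ⟨(nat_lit 1), (nat_lit 1000), (nat_lit 235), (Int.ofNat (nat_lit 0)), (Int.ofNat (nat_lit 0)),
 [(Int.ofNat (nat_lit 13181)), (Int.ofNat (nat_lit 2317)), (Int.ofNat (nat_lit 2469)),
 (Int.ofNat (nat_lit 2539)), (Int.ofNat (nat_lit 2547)), (Int.ofNat (nat_lit 2424)),
 (Int.ofNat (nat_lit 2221)), (Int.ofNat (nat_lit 1840)), (Int.ofNat (nat_lit 1322)),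
 (Int.ofNat (nat_lit 643)), (Int.negSucc (nat_lit 237)), (Int.negSucc (nat_lit 1303)),
 (Int.negSucc (nat_lit 2622)), (Int.negSucc (nat_lit 3042)), (Int.negSucc (nat_lit 2846)),
 (Int.negSucc (nat_lit 2825)), (Int.negSucc (nat_lit 2904)), (Int.negSucc (nat_lit 3101)),
 (Int.negSucc (nat_lit 3591)), (Int.negSucc (nat_lit 6923))], []⟩,
    ⟨(nat_lit 1), (nat_lit 1000), (nat_lit 250), (Int.ofNat (nat_lit 0)), (Int.ofNat (nat_lit 0)),
 [(Int.ofNat (nat_lit 2663)), (Int.ofNat (nat_lit 2022)), (Int.ofNat (nat_lit 2254)),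
 (Int.ofNat (nat_lit 2395)), (Int.ofNat (nat_lit 2445)), (Int.ofNat (nat_lit 2372)),
 (Int.ofNat (nat_lit 2177)), (Int.ofNat (nat_lit 1824)), (Int.ofNat (nat_lit 1309)),
 (Int.ofNat (nat_lit 644)), (Int.negSucc (nat_lit 240)), (Int.negSucc (nat_lit 1317)),
 (Int.negSucc (nat_lit 2660)), (Int.negSucc (nat_lit 3107)), (Int.negSucc (nat_lit 2972)),
 (Int.negSucc (nat_lit 2969)), (Int.negSucc (nat_lit 3155)), (Int.negSucc (nat_lit 3464)),
 (Int.negSucc (nat_lit 4060)), (Int.negSucc (nat_lit 7293))], []⟩,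
    ⟨(nat_lit 1), (nat_lit 1000), (nat_lit 400), (Int.ofNat (nat_lit 0)), (Int.ofNat (nat_lit 0)),
 [(Int.ofNat (nat_lit 194)), (Int.ofNat (nat_lit 466)), (Int.ofNat (nat_lit 822)),
 (Int.ofNat (nat_lit 1275)), (Int.ofNat (nat_lit 1773)), (Int.ofNat (nat_lit 1976)),
 (Int.ofNat (nat_lit 1979)), (Int.ofNat (nat_lit 1721)), (Int.ofNat (nat_lit 1284)),
 (Int.ofNat (nat_lit 654)), (Int.negSucc (nat_lit 269)), (Int.negSucc (nat_lit 1456)),
 (Int.negSucc (nat_lit 2998)), (Int.negSucc (nat_lit 3722)), (Int.negSucc (nat_lit 3970)),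
 (Int.negSucc (nat_lit 4458)), (Int.negSucc (nat_lit 5291)), (Int.negSucc (nat_lit 6535)),
 (Int.negSucc (nat_lit 8477)), (Int.negSucc (nat_lit 12215))], []⟩,
    ⟨(nat_lit 1), (nat_lit 1000), (nat_lit 1000), (Int.ofNat (nat_lit 0)), (Int.ofNat (nat_lit 0)),
 [(Int.ofNat (nat_lit 11)), (Int.ofNat (nat_lit 79)), (Int.ofNat (nat_lit 206)), (Int.ofNat (nat_lit 392)),
 (Int.ofNat (nat_lit 637)), (Int.ofNat (nat_lit 942)), (Int.ofNat (nat_lit 1337)),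
 (Int.ofNat (nat_lit 1613)), (Int.ofNat (nat_lit 1226)), (Int.ofNat (nat_lit 698)),
 (Int.negSucc (nat_lit 388)), (Int.negSucc (nat_lit 2017)), (Int.negSucc (nat_lit 4343)),
 (Int.negSucc (nat_lit 6165)), (Int.negSucc (nat_lit 7945)), (Int.negSucc (nat_lit 10370)),
 (Int.negSucc (nat_lit 13784)), (Int.negSucc (nat_lit 18207)), (Int.negSucc (nat_lit 25159)),
 (Int.negSucc (nat_lit 29999))], []⟩]⟩
def xL110_20 : Box := ⟨(nat_lit 110), (nat_lit 120), (nat_lit 110), (nat_lit 120), (nat_lit 0), (nat_lit 0),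
 (nat_lit 12), (nat_lit 20), (nat_lit 0), (nat_lit 0), [(nat_lit 50), (nat_lit 100), (nat_lit 150),
 (nat_lit 200), (nat_lit 250), (nat_lit 300), (nat_lit 350), (nat_lit 400), (nat_lit 450), (nat_lit 500),
 (nat_lit 550), (nat_lit 600), (nat_lit 650), (nat_lit 700), (nat_lit 750), (nat_lit 800), (nat_lit 850),
 (nat_lit 900), (nat_lit 950), (nat_lit 1000)], [], [
    ⟨(nat_lit 3), (nat_lit 1000), (nat_lit 250), (Int.ofNat (nat_lit 0)), (Int.ofNat (nat_lit 0)),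
 [(Int.ofNat (nat_lit 914)), (Int.ofNat (nat_lit 1903)), (Int.ofNat (nat_lit 2862)),
 (Int.ofNat (nat_lit 3624)), (Int.ofNat (nat_lit 4421)), (Int.ofNat (nat_lit 5193)),
 (Int.ofNat (nat_lit 5935)), (Int.ofNat (nat_lit 6630)), (Int.ofNat (nat_lit 7284)),
 (Int.ofNat (nat_lit 7873)), (Int.ofNat (nat_lit 8397)), (Int.ofNat (nat_lit 8842)),
 (Int.ofNat (nat_lit 9204)), (Int.ofNat (nat_lit 9468)), (Int.ofNat (nat_lit 9624)),
 (Int.ofNat (nat_lit 9613)), (Int.negSucc (nat_lit 29999)), (Int.negSucc (nat_lit 29999)),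
 (Int.negSucc (nat_lit 29999)), (Int.negSucc (nat_lit 29999))], []⟩,
    ⟨(nat_lit 3), (nat_lit 1000), (nat_lit 400), (Int.ofNat (nat_lit 0)), (Int.ofNat (nat_lit 0)),
 [(Int.ofNat (nat_lit 634)), (Int.ofNat (nat_lit 1352)), (Int.ofNat (nat_lit 2153)),
 (Int.ofNat (nat_lit 3038)), (Int.ofNat (nat_lit 4020)), (Int.ofNat (nat_lit 5016)),
 (Int.ofNat (nat_lit 5834)), (Int.ofNat (nat_lit 6599)), (Int.ofNat (nat_lit 7293)),
 (Int.ofNat (nat_lit 7846)), (Int.ofNat (nat_lit 8256)), (Int.ofNat (nat_lit 8514)),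
 (Int.ofNat (nat_lit 8607)), (Int.ofNat (nat_lit 8520)), (Int.ofNat (nat_lit 8225)),
 (Int.ofNat (nat_lit 7618)), (Int.negSucc (nat_lit 29999)), (Int.negSucc (nat_lit 29999)),
 (Int.negSucc (nat_lit 29999)), (Int.negSucc (nat_lit 29999))], []⟩,
    ⟨(nat_lit 3), (nat_lit 1000), (nat_lit 1000), (Int.ofNat (nat_lit 0)), (Int.ofNat (nat_lit 0)),
 [(Int.ofNat (nat_lit 583)), (Int.ofNat (nat_lit 1240)), (Int.ofNat (nat_lit 1974)),
 (Int.ofNat (nat_lit 2782)), (Int.ofNat (nat_lit 3667)), (Int.ofNat (nat_lit 4627)),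
 (Int.ofNat (nat_lit 5710)), (Int.ofNat (nat_lit 6585)), (Int.ofNat (nat_lit 7318)),
 (Int.ofNat (nat_lit 7746)), (Int.ofNat (nat_lit 7687)), (Int.ofNat (nat_lit 7221)),
 (Int.ofNat (nat_lit 6217)), (Int.ofNat (nat_lit 4741)), (Int.ofNat (nat_lit 2617)),
 (Int.negSucc (nat_lit 295)), (Int.negSucc (nat_lit 29999)), (Int.negSucc (nat_lit 29999)),
 (Int.negSucc (nat_lit 29999)), (Int.negSucc (nat_lit 29999))], []⟩,
    ⟨(nat_lit 1), (nat_lit 1000), (nat_lit 195), (Int.ofNat (nat_lit 0)), (Int.ofNat (nat_lit 0)),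
 [(Int.ofNat (nat_lit 8615)), (Int.ofNat (nat_lit 2136)), (Int.ofNat (nat_lit 2811)),
 (Int.ofNat (nat_lit 2723)), (Int.ofNat (nat_lit 2643)), (Int.ofNat (nat_lit 2447)),
 (Int.ofNat (nat_lit 2158)), (Int.ofNat (nat_lit 1738)), (Int.ofNat (nat_lit 1197)),
 (Int.ofNat (nat_lit 508)), (Int.negSucc (nat_lit 361)), (Int.negSucc (nat_lit 1396)),
 (Int.negSucc (nat_lit 2655)), (Int.negSucc (nat_lit 2896)), (Int.negSucc (nat_lit 2575)),
 (Int.negSucc (nat_lit 2367)), (Int.negSucc (nat_lit 29999)), (Int.negSucc (nat_lit 29999)),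
 (Int.negSucc (nat_lit 29999)), (Int.negSucc (nat_lit 29999))], []⟩,
    ⟨(nat_lit 1), (nat_lit 1000), (nat_lit 250), (Int.ofNat (nat_lit 0)), (Int.ofNat (nat_lit 0)),
 [(Int.ofNat (nat_lit 858)), (Int.ofNat (nat_lit 1629)), (Int.ofNat (nat_lit 2213)),
 (Int.ofNat (nat_lit 2333)), (Int.ofNat (nat_lit 2405)), (Int.ofNat (nat_lit 2317)),
 (Int.ofNat (nat_lit 2106)), (Int.ofNat (nat_lit 1724)), (Int.ofNat (nat_lit 1201)),
 (Int.ofNat (nat_lit 498)), (Int.negSucc (nat_lit 413)), (Int.negSucc (nat_lit 1516)),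
 (Int.negSucc (nat_lit 2874)), (Int.negSucc (nat_lit 3244)), (Int.negSucc (nat_lit 3087)),
 (Int.negSucc (nat_lit 3100)), (Int.negSucc (nat_lit 29999)), (Int.negSucc (nat_lit 29999)),
 (Int.negSucc (nat_lit 29999)), (Int.negSucc (nat_lit 29999))], []⟩,
    ⟨(nat_lit 1), (nat_lit 1000), (nat_lit 400), (Int.ofNat (nat_lit 0)), (Int.ofNat (nat_lit 0)),
 [(Int.ofNat (nat_lit 254)), (Int.ofNat (nat_lit 593)), (Int.ofNat (nat_lit 1021)),
 (Int.ofNat (nat_lit 1555)), (Int.ofNat (nat_lit 1963)), (Int.ofNat (nat_lit 2048)),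
 (Int.ofNat (nat_lit 1964)), (Int.ofNat (nat_lit 1704)), (Int.ofNat (nat_lit 1205)),
 (Int.ofNat (nat_lit 471)), (Int.negSucc (nat_lit 555)), (Int.negSucc (nat_lit 1843)),
 (Int.negSucc (nat_lit 3472)), (Int.negSucc (nat_lit 4194)), (Int.negSucc (nat_lit 4485)),
 (Int.negSucc (nat_lit 5101)), (Int.negSucc (nat_lit 29999)), (Int.negSucc (nat_lit 29999)),
 (Int.negSucc (nat_lit 29999)), (Int.negSucc (nat_lit 29999))], []⟩,
    ⟨(nat_lit 1), (nat_lit 1000), (nat_lit 1000), (Int.ofNat (nat_lit 0)), (Int.ofNat (nat_lit 0)),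
 [(Int.ofNat (nat_lit 76)), (Int.ofNat (nat_lit 215)), (Int.ofNat (nat_lit 417)), (Int.ofNat (nat_lit 683)),
 (Int.ofNat (nat_lit 1012)), (Int.ofNat (nat_lit 1420)), (Int.ofNat (nat_lit 1822)),
 (Int.ofNat (nat_lit 1602)), (Int.ofNat (nat_lit 1236)), (Int.ofNat (nat_lit 364)),
 (Int.negSucc (nat_lit 1124)), (Int.negSucc (nat_lit 3150)), (Int.negSucc (nat_lit 5861)),
 (Int.negSucc (nat_lit 7990)), (Int.negSucc (nat_lit 10075)), (Int.negSucc (nat_lit 13102)),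
 (Int.negSucc (nat_lit 29999)), (Int.negSucc (nat_lit 29999)), (Int.negSucc (nat_lit 29999)),
 (Int.negSucc (nat_lit 29999))], []⟩]⟩
def xL110_40 : Box := ⟨(nat_lit 110), (nat_lit 120), (nat_lit 110), (nat_lit 120), (nat_lit 0), (nat_lit 0),
 (nat_lit 12), (nat_lit 40), (nat_lit 0), (nat_lit 0), [(nat_lit 50), (nat_lit 100), (nat_lit 150),
 (nat_lit 200), (nat_lit 250), (nat_lit 300), (nat_lit 350), (nat_lit 400), (nat_lit 450), (nat_lit 500),
 (nat_lit 550), (nat_lit 600), (nat_lit 650), (nat_lit 700), (nat_lit 750), (nat_lit 800), (nat_lit 850),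
 (nat_lit 900), (nat_lit 950), (nat_lit 1000)], [], [
    ⟨(nat_lit 3), (nat_lit 1000), (nat_lit 250), (Int.ofNat (nat_lit 0)), (Int.ofNat (nat_lit 0)),
 [(Int.ofNat (nat_lit 1347)), (Int.ofNat (nat_lit 2104)), (Int.ofNat (nat_lit 2839)),
 (Int.ofNat (nat_lit 3630)), (Int.ofNat (nat_lit 4423)), (Int.ofNat (nat_lit 5204)),
 (Int.ofNat (nat_lit 5946)), (Int.ofNat (nat_lit 6637)), (Int.ofNat (nat_lit 7284)),
 (Int.ofNat (nat_lit 7874)), (Int.ofNat (nat_lit 8396)), (Int.ofNat (nat_lit 8843)),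
 (Int.ofNat (nat_lit 9203)), (Int.ofNat (nat_lit 9468)), (Int.ofNat (nat_lit 9624)),
 (Int.ofNat (nat_lit 9654)), (Int.ofNat (nat_lit 9535)), (Int.ofNat (nat_lit 9225)),
 (Int.negSucc (nat_lit 29999)), (Int.negSucc (nat_lit 29999))], []⟩,
    ⟨(nat_lit 3), (nat_lit 1000), (nat_lit 400), (Int.ofNat (nat_lit 0)), (Int.ofNat (nat_lit 0)),
 [(Int.ofNat (nat_lit 634)), (Int.ofNat (nat_lit 1352)), (Int.ofNat (nat_lit 2153)),
 (Int.ofNat (nat_lit 3038)), (Int.ofNat (nat_lit 4022)), (Int.ofNat (nat_lit 5011)),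
 (Int.ofNat (nat_lit 5835)), (Int.ofNat (nat_lit 6599)), (Int.ofNat (nat_lit 7293)),
 (Int.ofNat (nat_lit 7846)), (Int.ofNat (nat_lit 8256)), (Int.ofNat (nat_lit 8514)),
 (Int.ofNat (nat_lit 8607)), (Int.ofNat (nat_lit 8520)), (Int.ofNat (nat_lit 8225)),
 (Int.ofNat (nat_lit 7692)), (Int.ofNat (nat_lit 6864)), (Int.ofNat (nat_lit 5640)),
 (Int.negSucc (nat_lit 29999)), (Int.negSucc (nat_lit 29999))], []⟩,
    ⟨(nat_lit 3), (nat_lit 1000), (nat_lit 1000), (Int.ofNat (nat_lit 0)), (Int.ofNat (nat_lit 0)),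
 [(Int.ofNat (nat_lit 583)), (Int.ofNat (nat_lit 1240)), (Int.ofNat (nat_lit 1974)),
 (Int.ofNat (nat_lit 2782)), (Int.ofNat (nat_lit 3667)), (Int.ofNat (nat_lit 4627)),
 (Int.ofNat (nat_lit 5710)), (Int.ofNat (nat_lit 6585)), (Int.ofNat (nat_lit 7317)),
 (Int.ofNat (nat_lit 7748)), (Int.ofNat (nat_lit 7685)), (Int.ofNat (nat_lit 7222)),
 (Int.ofNat (nat_lit 6216)), (Int.ofNat (nat_lit 4743)), (Int.ofNat (nat_lit 2615)),
 (Int.negSucc (nat_lit 135)), (Int.negSucc (nat_lit 3839)), (Int.negSucc (nat_lit 8663)),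
 (Int.negSucc (nat_lit 29999)), (Int.negSucc (nat_lit 29999))], []⟩,
    ⟨(nat_lit 1), (nat_lit 1000), (nat_lit 215), (Int.ofNat (nat_lit 0)), (Int.ofNat (nat_lit 0)),
 [(Int.ofNat (nat_lit 7676)), (Int.ofNat (nat_lit 2424)), (Int.ofNat (nat_lit 2554)),
 (Int.ofNat (nat_lit 2591)), (Int.ofNat (nat_lit 2562)), (Int.ofNat (nat_lit 2413)),
 (Int.ofNat (nat_lit 2148)), (Int.ofNat (nat_lit 1741)), (Int.ofNat (nat_lit 1197)),
 (Int.ofNat (nat_lit 504)), (Int.negSucc (nat_lit 380)), (Int.negSucc (nat_lit 1440)),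
 (Int.negSucc (nat_lit 2735)), (Int.negSucc (nat_lit 3024)), (Int.negSucc (nat_lit 2742)),
 (Int.negSucc (nat_lit 2566)), (Int.negSucc (nat_lit 2417)), (Int.negSucc (nat_lit 2859)),
 (Int.negSucc (nat_lit 29999)), (Int.negSucc (nat_lit 29999))], []⟩,
    ⟨(nat_lit 1), (nat_lit 1000), (nat_lit 250), (Int.ofNat (nat_lit 0)), (Int.ofNat (nat_lit 0)),
 [(Int.ofNat (nat_lit 1381)), (Int.ofNat (nat_lit 1931)), (Int.ofNat (nat_lit 2171)),
 (Int.ofNat (nat_lit 2344)), (Int.ofNat (nat_lit 2411)), (Int.ofNat (nat_lit 2332)),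
 (Int.ofNat (nat_lit 2114)), (Int.ofNat (nat_lit 1733)), (Int.ofNat (nat_lit 1200)),
 (Int.ofNat (nat_lit 498)), (Int.negSucc (nat_lit 413)), (Int.negSucc (nat_lit 1516)),
 (Int.negSucc (nat_lit 2874)), (Int.negSucc (nat_lit 3245)), (Int.negSucc (nat_lit 3086)),
 (Int.negSucc (nat_lit 3059)), (Int.negSucc (nat_lit 3174)), (Int.negSucc (nat_lit 3490)),
 (Int.negSucc (nat_lit 29999)), (Int.negSucc (nat_lit 29999))], []⟩,
    ⟨(nat_lit 1), (nat_lit 1000), (nat_lit 400), (Int.ofNat (nat_lit 0)), (Int.ofNat (nat_lit 0)),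
 [(Int.ofNat (nat_lit 260)), (Int.ofNat (nat_lit 599)), (Int.ofNat (nat_lit 1027)),
 (Int.ofNat (nat_lit 1559)), (Int.ofNat (nat_lit 1977)), (Int.ofNat (nat_lit 2054)),
 (Int.ofNat (nat_lit 1965)), (Int.ofNat (nat_lit 1704)), (Int.ofNat (nat_lit 1205)),
 (Int.ofNat (nat_lit 471)), (Int.negSucc (nat_lit 555)), (Int.negSucc (nat_lit 1843)),
 (Int.negSucc (nat_lit 3472)), (Int.negSucc (nat_lit 4195)), (Int.negSucc (nat_lit 4483)),
 (Int.negSucc (nat_lit 5023)), (Int.negSucc (nat_lit 5844)), (Int.negSucc (nat_lit 7078)),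
 (Int.negSucc (nat_lit 29999)), (Int.negSucc (nat_lit 29999))], []⟩,
    ⟨(nat_lit 1), (nat_lit 1000), (nat_lit 1000), (Int.ofNat (nat_lit 0)), (Int.ofNat (nat_lit 0)),
 [(Int.ofNat (nat_lit 76)), (Int.ofNat (nat_lit 215)), (Int.ofNat (nat_lit 417)), (Int.ofNat (nat_lit 683)),
 (Int.ofNat (nat_lit 1012)), (Int.ofNat (nat_lit 1420)), (Int.ofNat (nat_lit 1822)),
 (Int.ofNat (nat_lit 1602)), (Int.ofNat (nat_lit 1236)), (Int.ofNat (nat_lit 364)),
 (Int.negSucc (nat_lit 1124)), (Int.negSucc (nat_lit 3150)), (Int.negSucc (nat_lit 5861)),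
 (Int.negSucc (nat_lit 7995)), (Int.negSucc (nat_lit 10070)), (Int.negSucc (nat_lit 12876)),
 (Int.negSucc (nat_lit 16523)), (Int.negSucc (nat_lit 21427)), (Int.negSucc (nat_lit 29999)),
 (Int.negSucc (nat_lit 29999))], []⟩]⟩
def xL110_60 : Box := ⟨(nat_lit 110), (nat_lit 120), (nat_lit 110), (nat_lit 120), (nat_lit 0), (nat_lit 0),
 (nat_lit 12), (nat_lit 60), (nat_lit 0), (nat_lit 0), [(nat_lit 50), (nat_lit 100), (nat_lit 150),
 (nat_lit 200), (nat_lit 250), (nat_lit 300), (nat_lit 350), (nat_lit 400), (nat_lit 450), (nat_lit 500),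
 (nat_lit 550), (nat_lit 600), (nat_lit 650), (nat_lit 700), (nat_lit 750), (nat_lit 800), (nat_lit 850),
 (nat_lit 900), (nat_lit 950), (nat_lit 1000)], [], [
    ⟨(nat_lit 3), (nat_lit 1000), (nat_lit 260), (Int.ofNat (nat_lit 0)), (Int.ofNat (nat_lit 0)),
 [(Int.ofNat (nat_lit 1953)), (Int.ofNat (nat_lit 1929)), (Int.ofNat (nat_lit 2739)),
 (Int.ofNat (nat_lit 3575)), (Int.ofNat (nat_lit 4393)), (Int.ofNat (nat_lit 5182)),
 (Int.ofNat (nat_lit 5935)), (Int.ofNat (nat_lit 6633)), (Int.ofNat (nat_lit 7285)),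
 (Int.ofNat (nat_lit 7871)), (Int.ofNat (nat_lit 8388)), (Int.ofNat (nat_lit 8820)),
 (Int.ofNat (nat_lit 9164)), (Int.ofNat (nat_lit 9404)), (Int.ofNat (nat_lit 9531)),
 (Int.ofNat (nat_lit 9523)), (Int.ofNat (nat_lit 9376)), (Int.ofNat (nat_lit 9039)),
 (Int.ofNat (nat_lit 8657)), (Int.negSucc (nat_lit 29999))], []⟩,
    ⟨(nat_lit 3), (nat_lit 1000), (nat_lit 400), (Int.ofNat (nat_lit 0)), (Int.ofNat (nat_lit 0)),
 [(Int.ofNat (nat_lit 634)), (Int.ofNat (nat_lit 1352)), (Int.ofNat (nat_lit 2153)),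
 (Int.ofNat (nat_lit 3038)), (Int.ofNat (nat_lit 4016)), (Int.ofNat (nat_lit 5032)),
 (Int.ofNat (nat_lit 5844)), (Int.ofNat (nat_lit 6597)), (Int.ofNat (nat_lit 7297)),
 (Int.ofNat (nat_lit 7842)), (Int.ofNat (nat_lit 8260)), (Int.ofNat (nat_lit 8510)),
 (Int.ofNat (nat_lit 8612)), (Int.ofNat (nat_lit 8515)), (Int.ofNat (nat_lit 8230)),
 (Int.ofNat (nat_lit 7687)), (Int.ofNat (nat_lit 6870)), (Int.ofNat (nat_lit 5641)),
 (Int.ofNat (nat_lit 3831)), (Int.negSucc (nat_lit 29999))], []⟩,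
    ⟨(nat_lit 3), (nat_lit 1000), (nat_lit 1000), (Int.ofNat (nat_lit 0)), (Int.ofNat (nat_lit 0)),
 [(Int.ofNat (nat_lit 583)), (Int.ofNat (nat_lit 1240)), (Int.ofNat (nat_lit 1974)),
 (Int.ofNat (nat_lit 2782)), (Int.ofNat (nat_lit 3667)), (Int.ofNat (nat_lit 4627)),
 (Int.ofNat (nat_lit 5710)), (Int.ofNat (nat_lit 6585)), (Int.ofNat (nat_lit 7327)),
 (Int.ofNat (nat_lit 7736)), (Int.ofNat (nat_lit 7690)), (Int.ofNat (nat_lit 7203)),
 (Int.ofNat (nat_lit 6222)), (Int.ofNat (nat_lit 4728)), (Int.ofNat (nat_lit 2630)),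
 (Int.negSucc (nat_lit 152)), (Int.negSucc (nat_lit 3822)), (Int.negSucc (nat_lit 8662)),
 (Int.negSucc (nat_lit 15477)), (Int.negSucc (nat_lit 29999))], []⟩,
    ⟨(nat_lit 1), (nat_lit 1000), (nat_lit 230), (Int.ofNat (nat_lit 0)), (Int.ofNat (nat_lit 0)),
 [(Int.ofNat (nat_lit 19054)), (Int.ofNat (nat_lit 2198)), (Int.ofNat (nat_lit 2374)),
 (Int.ofNat (nat_lit 2501)), (Int.ofNat (nat_lit 2482)), (Int.ofNat (nat_lit 2382)),
 (Int.ofNat (nat_lit 2130)), (Int.ofNat (nat_lit 1737)), (Int.ofNat (nat_lit 1197)),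
 (Int.ofNat (nat_lit 501)), (Int.negSucc (nat_lit 394)), (Int.negSucc (nat_lit 1472)),
 (Int.negSucc (nat_lit 2795)), (Int.negSucc (nat_lit 3107)), (Int.negSucc (nat_lit 2871)),
 (Int.negSucc (nat_lit 2797)), (Int.negSucc (nat_lit 2758)), (Int.negSucc (nat_lit 2806)),
 (Int.negSucc (nat_lit 3065)), (Int.negSucc (nat_lit 29999))], []⟩,
    ⟨(nat_lit 1), (nat_lit 1000), (nat_lit 250), (Int.ofNat (nat_lit 0)), (Int.ofNat (nat_lit 0)),
 [(Int.ofNat (nat_lit 2339)), (Int.ofNat (nat_lit 1871)), (Int.ofNat (nat_lit 2164)),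
 (Int.ofNat (nat_lit 2351)), (Int.ofNat (nat_lit 2396)), (Int.ofNat (nat_lit 2334)),
 (Int.ofNat (nat_lit 2113)), (Int.ofNat (nat_lit 1733)), (Int.ofNat (nat_lit 1199)),
 (Int.ofNat (nat_lit 498)), (Int.negSucc (nat_lit 413)), (Int.negSucc (nat_lit 1516)),
 (Int.negSucc (nat_lit 2874)), (Int.negSucc (nat_lit 3245)), (Int.negSucc (nat_lit 3086)),
 (Int.negSucc (nat_lit 3053)), (Int.negSucc (nat_lit 3156)), (Int.negSucc (nat_lit 3380)),
 (Int.negSucc (nat_lit 3729)), (Int.negSucc (nat_lit 29999))], []⟩,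
    ⟨(nat_lit 1), (nat_lit 1000), (nat_lit 400), (Int.ofNat (nat_lit 0)), (Int.ofNat (nat_lit 0)),
 [(Int.ofNat (nat_lit 260)), (Int.ofNat (nat_lit 599)), (Int.ofNat (nat_lit 1027)),
 (Int.ofNat (nat_lit 1567)), (Int.ofNat (nat_lit 1977)), (Int.ofNat (nat_lit 2054)),
 (Int.ofNat (nat_lit 1968)), (Int.ofNat (nat_lit 1704)), (Int.ofNat (nat_lit 1205)),
 (Int.ofNat (nat_lit 471)), (Int.negSucc (nat_lit 555)), (Int.negSucc (nat_lit 1843)),
 (Int.negSucc (nat_lit 3472)), (Int.negSucc (nat_lit 4204)), (Int.negSucc (nat_lit 4470)),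
 (Int.negSucc (nat_lit 5033)), (Int.negSucc (nat_lit 5829)), (Int.negSucc (nat_lit 7083)),
 (Int.negSucc (nat_lit 8861)), (Int.negSucc (nat_lit 29999))], []⟩,
    ⟨(nat_lit 1), (nat_lit 1000), (nat_lit 1000), (Int.ofNat (nat_lit 0)), (Int.ofNat (nat_lit 0)),
 [(Int.ofNat (nat_lit 76)), (Int.ofNat (nat_lit 215)), (Int.ofNat (nat_lit 417)), (Int.ofNat (nat_lit 683)),
 (Int.ofNat (nat_lit 1012)), (Int.ofNat (nat_lit 1420)), (Int.ofNat (nat_lit 1822)),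
 (Int.ofNat (nat_lit 1602)), (Int.ofNat (nat_lit 1236)), (Int.ofNat (nat_lit 364)),
 (Int.negSucc (nat_lit 1118)), (Int.negSucc (nat_lit 3144)), (Int.negSucc (nat_lit 5861)),
 (Int.negSucc (nat_lit 8024)), (Int.negSucc (nat_lit 10026)), (Int.negSucc (nat_lit 12912)),
 (Int.negSucc (nat_lit 16471)), (Int.negSucc (nat_lit 21439)), (Int.negSucc (nat_lit 28100)),
 (Int.negSucc (nat_lit 29999))], []⟩]⟩
def xL120_20 : Box := ⟨(nat_lit 120), (nat_lit 130), (nat_lit 120), (nat_lit 130), (nat_lit 0), (nat_lit 0),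
 (nat_lit 12), (nat_lit 20), (nat_lit 0), (nat_lit 0), [(nat_lit 50), (nat_lit 100), (nat_lit 150),
 (nat_lit 200), (nat_lit 250), (nat_lit 300), (nat_lit 350), (nat_lit 400), (nat_lit 450), (nat_lit 500),
 (nat_lit 550), (nat_lit 600), (nat_lit 650), (nat_lit 700), (nat_lit 750), (nat_lit 800), (nat_lit 850),
 (nat_lit 900), (nat_lit 950), (nat_lit 1000)], [], [
    ⟨(nat_lit 3), (nat_lit 1000), (nat_lit 250), (Int.ofNat (nat_lit 0)), (Int.ofNat (nat_lit 0)),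
 [(Int.ofNat (nat_lit 932)), (Int.ofNat (nat_lit 1955)), (Int.ofNat (nat_lit 2808)),
 (Int.ofNat (nat_lit 3610)), (Int.ofNat (nat_lit 4402)), (Int.ofNat (nat_lit 5155)),
 (Int.ofNat (nat_lit 5867)), (Int.ofNat (nat_lit 6539)), (Int.ofNat (nat_lit 7159)),
 (Int.ofNat (nat_lit 7719)), (Int.ofNat (nat_lit 8218)), (Int.ofNat (nat_lit 8647)),
 (Int.ofNat (nat_lit 9004)), (Int.ofNat (nat_lit 9276)), (Int.ofNat (nat_lit 9456)),
 (Int.negSucc (nat_lit 29999)), (Int.negSucc (nat_lit 29999)), (Int.negSucc (nat_lit 29999)),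
 (Int.negSucc (nat_lit 29999)), (Int.negSucc (nat_lit 29999))], []⟩,
    ⟨(nat_lit 3), (nat_lit 1000), (nat_lit 400), (Int.ofNat (nat_lit 0)), (Int.ofNat (nat_lit 0)),
 [(Int.ofNat (nat_lit 666)), (Int.ofNat (nat_lit 1417)), (Int.ofNat (nat_lit 2253)),
 (Int.ofNat (nat_lit 3176)), (Int.ofNat (nat_lit 4181)), (Int.ofNat (nat_lit 5048)),
 (Int.ofNat (nat_lit 5834)), (Int.ofNat (nat_lit 6549)), (Int.ofNat (nat_lit 7130)),
 (Int.ofNat (nat_lit 7576)), (Int.ofNat (nat_lit 7889)), (Int.ofNat (nat_lit 8057)),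
 (Int.ofNat (nat_lit 8074)), (Int.ofNat (nat_lit 7923)), (Int.ofNat (nat_lit 7575)),
 (Int.negSucc (nat_lit 29999)), (Int.negSucc (nat_lit 29999)), (Int.negSucc (nat_lit 29999)),
 (Int.negSucc (nat_lit 29999)), (Int.negSucc (nat_lit 29999))], []⟩,
    ⟨(nat_lit 3), (nat_lit 1000), (nat_lit 1000), (Int.ofNat (nat_lit 0)), (Int.ofNat (nat_lit 0)),
 [(Int.ofNat (nat_lit 614)), (Int.ofNat (nat_lit 1306)), (Int.ofNat (nat_lit 2076)),
 (Int.ofNat (nat_lit 2924)), (Int.ofNat (nat_lit 3850)), (Int.ofNat (nat_lit 4904)),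
 (Int.ofNat (nat_lit 5787)), (Int.ofNat (nat_lit 6577)), (Int.ofNat (nat_lit 7025)),
 (Int.ofNat (nat_lit 7002)), (Int.ofNat (nat_lit 6590)), (Int.ofNat (nat_lit 5685)),
 (Int.ofNat (nat_lit 4368)), (Int.ofNat (nat_lit 2499)), (Int.ofNat (nat_lit 87)),
 (Int.negSucc (nat_lit 29999)), (Int.negSucc (nat_lit 29999)), (Int.negSucc (nat_lit 29999)),
 (Int.negSucc (nat_lit 29999)), (Int.negSucc (nat_lit 29999))], []⟩,
    ⟨(nat_lit 1), (nat_lit 1000), (nat_lit 190), (Int.ofNat (nat_lit 0)), (Int.ofNat (nat_lit 0)),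
 [(Int.ofNat (nat_lit 11063)), (Int.ofNat (nat_lit 2289)), (Int.ofNat (nat_lit 2752)),
 (Int.ofNat (nat_lit 2556)), (Int.ofNat (nat_lit 2467)), (Int.ofNat (nat_lit 2273)),
 (Int.ofNat (nat_lit 1958)), (Int.ofNat (nat_lit 1542)), (Int.ofNat (nat_lit 976)),
 (Int.ofNat (nat_lit 280)), (Int.negSucc (nat_lit 589)), (Int.negSucc (nat_lit 1615)),
 (Int.negSucc (nat_lit 2852)), (Int.negSucc (nat_lit 2900)), (Int.negSucc (nat_lit 2483)),
 (Int.negSucc (nat_lit 29999)), (Int.negSucc (nat_lit 29999)), (Int.negSucc (nat_lit 29999)),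
 (Int.negSucc (nat_lit 29999)), (Int.negSucc (nat_lit 29999))], []⟩,
    ⟨(nat_lit 1), (nat_lit 1000), (nat_lit 250), (Int.ofNat (nat_lit 0)), (Int.ofNat (nat_lit 0)),
 [(Int.ofNat (nat_lit 892)), (Int.ofNat (nat_lit 1740)), (Int.ofNat (nat_lit 2101)),
 (Int.ofNat (nat_lit 2273)), (Int.ofNat (nat_lit 2318)), (Int.ofNat (nat_lit 2212)),
 (Int.ofNat (nat_lit 1946)), (Int.ofNat (nat_lit 1546)), (Int.ofNat (nat_lit 964)),
 (Int.ofNat (nat_lit 223)), (Int.negSucc (nat_lit 721)), (Int.negSucc (nat_lit 1852)),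
 (Int.negSucc (nat_lit 3223)), (Int.negSucc (nat_lit 3446)), (Int.negSucc (nat_lit 3218)),
 (Int.negSucc (nat_lit 29999)), (Int.negSucc (nat_lit 29999)), (Int.negSucc (nat_lit 29999)),
 (Int.negSucc (nat_lit 29999)), (Int.negSucc (nat_lit 29999))], []⟩,
    ⟨(nat_lit 1), (nat_lit 1000), (nat_lit 400), (Int.ofNat (nat_lit 0)), (Int.ofNat (nat_lit 0)),
 [(Int.ofNat (nat_lit 316)), (Int.ofNat (nat_lit 720)), (Int.ofNat (nat_lit 1213)),
 (Int.ofNat (nat_lit 1772)), (Int.ofNat (nat_lit 1994)), (Int.ofNat (nat_lit 2054)),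
 (Int.ofNat (nat_lit 1917)), (Int.ofNat (nat_lit 1549)), (Int.ofNat (nat_lit 941)),
 (Int.ofNat (nat_lit 83)), (Int.negSucc (nat_lit 1052)), (Int.negSucc (nat_lit 2440)),
 (Int.negSucc (nat_lit 4155)), (Int.negSucc (nat_lit 4811)), (Int.negSucc (nat_lit 5056)),
 (Int.negSucc (nat_lit 29999)), (Int.negSucc (nat_lit 29999)), (Int.negSucc (nat_lit 29999)),
 (Int.negSucc (nat_lit 29999)), (Int.negSucc (nat_lit 29999))], []⟩,
    ⟨(nat_lit 1), (nat_lit 1000), (nat_lit 1000), (Int.ofNat (nat_lit 0)), (Int.ofNat (nat_lit 0)),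
 [(Int.ofNat (nat_lit 139)), (Int.ofNat (nat_lit 345)), (Int.ofNat (nat_lit 618)),
 (Int.ofNat (nat_lit 960)), (Int.ofNat (nat_lit 1369)), (Int.ofNat (nat_lit 1832)),
 (Int.ofNat (nat_lit 1787)), (Int.ofNat (nat_lit 1603)), (Int.ofNat (nat_lit 811)),
 (Int.negSucc (nat_lit 479)), (Int.negSucc (nat_lit 2375)), (Int.negSucc (nat_lit 4794)),
 (Int.negSucc (nat_lit 7879)), (Int.negSucc (nat_lit 10271)), (Int.negSucc (nat_lit 12408)),
 (Int.negSucc (nat_lit 29999)), (Int.negSucc (nat_lit 29999)), (Int.negSucc (nat_lit 29999)),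
 (Int.negSucc (nat_lit 29999)), (Int.negSucc (nat_lit 29999))], []⟩]⟩
def xL120_40 : Box := ⟨(nat_lit 120), (nat_lit 130), (nat_lit 120), (nat_lit 130), (nat_lit 0), (nat_lit 0),
 (nat_lit 12), (nat_lit 40), (nat_lit 0), (nat_lit 0), [(nat_lit 50), (nat_lit 100), (nat_lit 150),
 (nat_lit 200), (nat_lit 250), (nat_lit 300), (nat_lit 350), (nat_lit 400), (nat_lit 450), (nat_lit 500),
 (nat_lit 550), (nat_lit 600), (nat_lit 650), (nat_lit 700), (nat_lit 750), (nat_lit 800), (nat_lit 850),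
 (nat_lit 900), (nat_lit 950), (nat_lit 1000)], [], [
    ⟨(nat_lit 3), (nat_lit 1000), (nat_lit 250), (Int.ofNat (nat_lit 0)), (Int.ofNat (nat_lit 0)),
 [(Int.ofNat (nat_lit 1230)), (Int.ofNat (nat_lit 1982)), (Int.ofNat (nat_lit 2800)),
 (Int.ofNat (nat_lit 3611)), (Int.ofNat (nat_lit 4399)), (Int.ofNat (nat_lit 5160)),
 (Int.ofNat (nat_lit 5866)), (Int.ofNat (nat_lit 6539)), (Int.ofNat (nat_lit 7159)),
 (Int.ofNat (nat_lit 7719)), (Int.ofNat (nat_lit 8218)), (Int.ofNat (nat_lit 8647)),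
 (Int.ofNat (nat_lit 9003)), (Int.ofNat (nat_lit 9277)), (Int.ofNat (nat_lit 9462)),
 (Int.ofNat (nat_lit 9544)), (Int.ofNat (nat_lit 9510)), (Int.negSucc (nat_lit 29999)),
 (Int.negSucc (nat_lit 29999)), (Int.negSucc (nat_lit 29999))], []⟩,
    ⟨(nat_lit 3), (nat_lit 1000), (nat_lit 400), (Int.ofNat (nat_lit 0)), (Int.ofNat (nat_lit 0)),
 [(Int.ofNat (nat_lit 666)), (Int.ofNat (nat_lit 1417)), (Int.ofNat (nat_lit 2253)),
 (Int.ofNat (nat_lit 3181)), (Int.ofNat (nat_lit 4185)), (Int.ofNat (nat_lit 5050)),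
 (Int.ofNat (nat_lit 5831)), (Int.ofNat (nat_lit 6550)), (Int.ofNat (nat_lit 7129)),
 (Int.ofNat (nat_lit 7578)), (Int.ofNat (nat_lit 7888)), (Int.ofNat (nat_lit 8058)),
 (Int.ofNat (nat_lit 8073)), (Int.ofNat (nat_lit 7925)), (Int.ofNat (nat_lit 7588)),
 (Int.ofNat (nat_lit 7041)), (Int.ofNat (nat_lit 6232)), (Int.negSucc (nat_lit 29999)),
 (Int.negSucc (nat_lit 29999)), (Int.negSucc (nat_lit 29999))], []⟩,
    ⟨(nat_lit 3), (nat_lit 1000), (nat_lit 1000), (Int.ofNat (nat_lit 0)), (Int.ofNat (nat_lit 0)),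
 [(Int.ofNat (nat_lit 614)), (Int.ofNat (nat_lit 1306)), (Int.ofNat (nat_lit 2076)),
 (Int.ofNat (nat_lit 2924)), (Int.ofNat (nat_lit 3850)), (Int.ofNat (nat_lit 4896)),
 (Int.ofNat (nat_lit 5793)), (Int.ofNat (nat_lit 6577)), (Int.ofNat (nat_lit 7026)),
 (Int.ofNat (nat_lit 7002)), (Int.ofNat (nat_lit 6591)), (Int.ofNat (nat_lit 5684)),
 (Int.ofNat (nat_lit 4369)), (Int.ofNat (nat_lit 2498)), (Int.ofNat (nat_lit 117)),
 (Int.negSucc (nat_lit 2988)), (Int.negSucc (nat_lit 6858)), (Int.negSucc (nat_lit 29999)),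
 (Int.negSucc (nat_lit 29999)), (Int.negSucc (nat_lit 29999))], []⟩,
    ⟨(nat_lit 1), (nat_lit 1000), (nat_lit 210), (Int.ofNat (nat_lit 0)), (Int.ofNat (nat_lit 0)),
 [(Int.ofNat (nat_lit 9490)), (Int.ofNat (nat_lit 2247)), (Int.ofNat (nat_lit 2423)),
 (Int.ofNat (nat_lit 2459)), (Int.ofNat (nat_lit 2420)), (Int.ofNat (nat_lit 2252)),
 (Int.ofNat (nat_lit 1961)), (Int.ofNat (nat_lit 1540)), (Int.ofNat (nat_lit 975)),
 (Int.ofNat (nat_lit 261)), (Int.negSucc (nat_lit 633)), (Int.negSucc (nat_lit 1694)),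
 (Int.negSucc (nat_lit 2975)), (Int.negSucc (nat_lit 3075)), (Int.negSucc (nat_lit 2750)),
 (Int.negSucc (nat_lit 2480)), (Int.negSucc (nat_lit 2258)), (Int.negSucc (nat_lit 29999)),
 (Int.negSucc (nat_lit 29999)), (Int.negSucc (nat_lit 29999))], []⟩,
    ⟨(nat_lit 1), (nat_lit 1000), (nat_lit 250), (Int.ofNat (nat_lit 0)), (Int.ofNat (nat_lit 0)),
 [(Int.ofNat (nat_lit 1238)), (Int.ofNat (nat_lit 1764)), (Int.ofNat (nat_lit 2090)),
 (Int.ofNat (nat_lit 2282)), (Int.ofNat (nat_lit 2326)), (Int.ofNat (nat_lit 2227)),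
 (Int.ofNat (nat_lit 1947)), (Int.ofNat (nat_lit 1546)), (Int.ofNat (nat_lit 964)),
 (Int.ofNat (nat_lit 224)), (Int.negSucc (nat_lit 721)), (Int.negSucc (nat_lit 1851)),
 (Int.negSucc (nat_lit 3224)), (Int.negSucc (nat_lit 3440)), (Int.negSucc (nat_lit 3242)),
 (Int.negSucc (nat_lit 3174)), (Int.negSucc (nat_lit 3192)), (Int.negSucc (nat_lit 29999)),
 (Int.negSucc (nat_lit 29999)), (Int.negSucc (nat_lit 29999))], []⟩,
    ⟨(nat_lit 1), (nat_lit 1000), (nat_lit 400), (Int.ofNat (nat_lit 0)), (Int.ofNat (nat_lit 0)),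
 [(Int.ofNat (nat_lit 321)), (Int.ofNat (nat_lit 725)), (Int.ofNat (nat_lit 1213)),
 (Int.ofNat (nat_lit 1790)), (Int.ofNat (nat_lit 2006)), (Int.ofNat (nat_lit 2062)),
 (Int.ofNat (nat_lit 1919)), (Int.ofNat (nat_lit 1549)), (Int.ofNat (nat_lit 942)),
 (Int.ofNat (nat_lit 83)), (Int.negSucc (nat_lit 1052)), (Int.negSucc (nat_lit 2440)),
 (Int.negSucc (nat_lit 4155)), (Int.negSucc (nat_lit 4800)), (Int.negSucc (nat_lit 5104)),
 (Int.negSucc (nat_lit 5686)), (Int.negSucc (nat_lit 6458)), (Int.negSucc (nat_lit 29999)),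
 (Int.negSucc (nat_lit 29999)), (Int.negSucc (nat_lit 29999))], []⟩,
    ⟨(nat_lit 1), (nat_lit 1000), (nat_lit 1000), (Int.ofNat (nat_lit 0)), (Int.ofNat (nat_lit 0)),
 [(Int.ofNat (nat_lit 139)), (Int.ofNat (nat_lit 345)), (Int.ofNat (nat_lit 618)),
 (Int.ofNat (nat_lit 960)), (Int.ofNat (nat_lit 1369)), (Int.ofNat (nat_lit 1832)),
 (Int.ofNat (nat_lit 1787)), (Int.ofNat (nat_lit 1603)), (Int.ofNat (nat_lit 811)),
 (Int.negSucc (nat_lit 479)), (Int.negSucc (nat_lit 2369)), (Int.negSucc (nat_lit 4776)),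
 (Int.negSucc (nat_lit 7861)), (Int.negSucc (nat_lit 10240)), (Int.negSucc (nat_lit 12552)),
 (Int.negSucc (nat_lit 15733)), (Int.negSucc (nat_lit 19521)), (Int.negSucc (nat_lit 29999)),
 (Int.negSucc (nat_lit 29999)), (Int.negSucc (nat_lit 29999))], []⟩]⟩
def xL120_60 : Box := ⟨(nat_lit 120), (nat_lit 130), (nat_lit 120), (nat_lit 130), (nat_lit 0), (nat_lit 0),
 (nat_lit 12), (nat_lit 60), (nat_lit 0), (nat_lit 0), [(nat_lit 50), (nat_lit 100), (nat_lit 150),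
 (nat_lit 200), (nat_lit 250), (nat_lit 300), (nat_lit 350), (nat_lit 400), (nat_lit 450), (nat_lit 500),
 (nat_lit 550), (nat_lit 600), (nat_lit 650), (nat_lit 700), (nat_lit 750), (nat_lit 800), (nat_lit 850),
 (nat_lit 900), (nat_lit 950), (nat_lit 1000)], [], [
    ⟨(nat_lit 3), (nat_lit 1000), (nat_lit 260), (Int.ofNat (nat_lit 0)), (Int.ofNat (nat_lit 0)),
 [(Int.ofNat (nat_lit 1739)), (Int.ofNat (nat_lit 1869)), (Int.ofNat (nat_lit 2734)),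
 (Int.ofNat (nat_lit 3560)), (Int.ofNat (nat_lit 4377)), (Int.ofNat (nat_lit 5152)),
 (Int.ofNat (nat_lit 5875)), (Int.ofNat (nat_lit 6540)), (Int.ofNat (nat_lit 7157)),
 (Int.ofNat (nat_lit 7710)), (Int.ofNat (nat_lit 8196)), (Int.ofNat (nat_lit 8608)),
 (Int.ofNat (nat_lit 8941)), (Int.ofNat (nat_lit 9186)), (Int.ofNat (nat_lit 9337)),
 (Int.ofNat (nat_lit 9377)), (Int.ofNat (nat_lit 9292)), (Int.ofNat (nat_lit 9074)),
 (Int.ofNat (nat_lit 8408)), (Int.negSucc (nat_lit 29999))], []⟩,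
    ⟨(nat_lit 3), (nat_lit 1000), (nat_lit 400), (Int.ofNat (nat_lit 0)), (Int.ofNat (nat_lit 0)),
 [(Int.ofNat (nat_lit 666)), (Int.ofNat (nat_lit 1417)), (Int.ofNat (nat_lit 2254)),
 (Int.ofNat (nat_lit 3182)), (Int.ofNat (nat_lit 4181)), (Int.ofNat (nat_lit 5046)),
 (Int.ofNat (nat_lit 5831)), (Int.ofNat (nat_lit 6550)), (Int.ofNat (nat_lit 7129)),
 (Int.ofNat (nat_lit 7578)), (Int.ofNat (nat_lit 7888)), (Int.ofNat (nat_lit 8058)),
 (Int.ofNat (nat_lit 8073)), (Int.ofNat (nat_lit 7925)), (Int.ofNat (nat_lit 7588)),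
 (Int.ofNat (nat_lit 7041)), (Int.ofNat (nat_lit 6231)), (Int.ofNat (nat_lit 5081)),
 (Int.ofNat (nat_lit 3265)), (Int.negSucc (nat_lit 29999))], []⟩,
    ⟨(nat_lit 3), (nat_lit 1000), (nat_lit 1000), (Int.ofNat (nat_lit 0)), (Int.ofNat (nat_lit 0)),
 [(Int.ofNat (nat_lit 614)), (Int.ofNat (nat_lit 1306)), (Int.ofNat (nat_lit 2076)),
 (Int.ofNat (nat_lit 2924)), (Int.ofNat (nat_lit 3850)), (Int.ofNat (nat_lit 4896)),
 (Int.ofNat (nat_lit 5793)), (Int.ofNat (nat_lit 6577)), (Int.ofNat (nat_lit 7026)),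
 (Int.ofNat (nat_lit 7000)), (Int.ofNat (nat_lit 6589)), (Int.ofNat (nat_lit 5684)),
 (Int.ofNat (nat_lit 4369)), (Int.ofNat (nat_lit 2498)), (Int.ofNat (nat_lit 117)),
 (Int.negSucc (nat_lit 2988)), (Int.negSucc (nat_lit 6853)), (Int.negSucc (nat_lit 11924)),
 (Int.negSucc (nat_lit 19167)), (Int.negSucc (nat_lit 29999))], []⟩,
    ⟨(nat_lit 1), (nat_lit 1000), (nat_lit 230), (Int.ofNat (nat_lit 0)), (Int.ofNat (nat_lit 0)),
 [(Int.ofNat (nat_lit 8489)), (Int.ofNat (nat_lit 2006)), (Int.ofNat (nat_lit 2266)),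
 (Int.ofNat (nat_lit 2365)), (Int.ofNat (nat_lit 2371)), (Int.ofNat (nat_lit 2235)),
 (Int.ofNat (nat_lit 1960)), (Int.ofNat (nat_lit 1545)), (Int.ofNat (nat_lit 968)),
 (Int.ofNat (nat_lit 242)), (Int.negSucc (nat_lit 677)), (Int.negSucc (nat_lit 1772)),
 (Int.negSucc (nat_lit 3094)), (Int.negSucc (nat_lit 3254)), (Int.negSucc (nat_lit 2991)),
 (Int.negSucc (nat_lit 2840)), (Int.negSucc (nat_lit 2703)), (Int.negSucc (nat_lit 2595)),
 (Int.negSucc (nat_lit 4055)), (Int.negSucc (nat_lit 29999))], []⟩,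
    ⟨(nat_lit 1), (nat_lit 1000), (nat_lit 250), (Int.ofNat (nat_lit 0)), (Int.ofNat (nat_lit 0)),
 [(Int.ofNat (nat_lit 1883)), (Int.ofNat (nat_lit 1757)), (Int.ofNat (nat_lit 2111)),
 (Int.ofNat (nat_lit 2271)), (Int.ofNat (nat_lit 2321)), (Int.ofNat (nat_lit 2218)),
 (Int.ofNat (nat_lit 1960)), (Int.ofNat (nat_lit 1542)), (Int.ofNat (nat_lit 968)),
 (Int.ofNat (nat_lit 224)), (Int.negSucc (nat_lit 721)), (Int.negSucc (nat_lit 1851)),
 (Int.negSucc (nat_lit 3223)), (Int.negSucc (nat_lit 3440)), (Int.negSucc (nat_lit 3243)),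
 (Int.negSucc (nat_lit 3173)), (Int.negSucc (nat_lit 3194)), (Int.negSucc (nat_lit 3288)),
 (Int.negSucc (nat_lit 4233)), (Int.negSucc (nat_lit 29999))], []⟩,
    ⟨(nat_lit 1), (nat_lit 1000), (nat_lit 400), (Int.ofNat (nat_lit 0)), (Int.ofNat (nat_lit 0)),
 [(Int.ofNat (nat_lit 321)), (Int.ofNat (nat_lit 725)), (Int.ofNat (nat_lit 1219)),
 (Int.ofNat (nat_lit 1790)), (Int.ofNat (nat_lit 2006)), (Int.ofNat (nat_lit 2068)),
 (Int.ofNat (nat_lit 1913)), (Int.ofNat (nat_lit 1557)), (Int.ofNat (nat_lit 934)),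
 (Int.ofNat (nat_lit 82)), (Int.negSucc (nat_lit 1051)), (Int.negSucc (nat_lit 2439)),
 (Int.negSucc (nat_lit 4156)), (Int.negSucc (nat_lit 4799)), (Int.negSucc (nat_lit 5107)),
 (Int.negSucc (nat_lit 5684)), (Int.negSucc (nat_lit 6462)), (Int.negSucc (nat_lit 7648)),
 (Int.negSucc (nat_lit 9370)), (Int.negSucc (nat_lit 29999))], []⟩,
    ⟨(nat_lit 1), (nat_lit 1000), (nat_lit 1000), (Int.ofNat (nat_lit 0)), (Int.ofNat (nat_lit 0)),
 [(Int.ofNat (nat_lit 139)), (Int.ofNat (nat_lit 345)), (Int.ofNat (nat_lit 618)),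
 (Int.ofNat (nat_lit 960)), (Int.ofNat (nat_lit 1369)), (Int.ofNat (nat_lit 1832)),
 (Int.ofNat (nat_lit 1787)), (Int.ofNat (nat_lit 1603)), (Int.ofNat (nat_lit 811)),
 (Int.negSucc (nat_lit 478)), (Int.negSucc (nat_lit 2374)), (Int.negSucc (nat_lit 4794)),
 (Int.negSucc (nat_lit 7879)), (Int.negSucc (nat_lit 10235)), (Int.negSucc (nat_lit 12563)),
 (Int.negSucc (nat_lit 15726)), (Int.negSucc (nat_lit 19534)), (Int.negSucc (nat_lit 24685)),
 (Int.negSucc (nat_lit 29999)), (Int.negSucc (nat_lit 29999))], []⟩]⟩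
def xL130_20 : Box := ⟨(nat_lit 130), (nat_lit 140), (nat_lit 130), (nat_lit 140), (nat_lit 0), (nat_lit 0),
 (nat_lit 12), (nat_lit 20), (nat_lit 0), (nat_lit 0), [(nat_lit 50), (nat_lit 100), (nat_lit 150),
 (nat_lit 200), (nat_lit 250), (nat_lit 300), (nat_lit 350), (nat_lit 400), (nat_lit 450), (nat_lit 500),
 (nat_lit 550), (nat_lit 600), (nat_lit 650), (nat_lit 700), (nat_lit 750), (nat_lit 800), (nat_lit 850),
 (nat_lit 900), (nat_lit 950), (nat_lit 1000)], [], [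
    ⟨(nat_lit 3), (nat_lit 1000), (nat_lit 250), (Int.ofNat (nat_lit 0)), (Int.ofNat (nat_lit 0)),
 [(Int.ofNat (nat_lit 967)), (Int.ofNat (nat_lit 1948)), (Int.ofNat (nat_lit 2767)),
 (Int.ofNat (nat_lit 3578)), (Int.ofNat (nat_lit 4343)), (Int.ofNat (nat_lit 5068)),
 (Int.ofNat (nat_lit 5745)), (Int.ofNat (nat_lit 6379)), (Int.ofNat (nat_lit 6959)),
 (Int.ofNat (nat_lit 7492)), (Int.ofNat (nat_lit 7965)), (Int.ofNat (nat_lit 8386)),
 (Int.ofNat (nat_lit 8742)), (Int.ofNat (nat_lit 9037)), (Int.negSucc (nat_lit 29999)),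
 (Int.negSucc (nat_lit 29999)), (Int.negSucc (nat_lit 29999)), (Int.negSucc (nat_lit 29999)),
 (Int.negSucc (nat_lit 29999)), (Int.negSucc (nat_lit 29999))], []⟩,
    ⟨(nat_lit 3), (nat_lit 1000), (nat_lit 400), (Int.ofNat (nat_lit 0)), (Int.ofNat (nat_lit 0)),
 [(Int.ofNat (nat_lit 696)), (Int.ofNat (nat_lit 1479)), (Int.ofNat (nat_lit 2350)),
 (Int.ofNat (nat_lit 3332)), (Int.ofNat (nat_lit 4223)), (Int.ofNat (nat_lit 5033)),
 (Int.ofNat (nat_lit 5753)), (Int.ofNat (nat_lit 6350)), (Int.ofNat (nat_lit 6811)),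
 (Int.ofNat (nat_lit 7157)), (Int.ofNat (nat_lit 7367)), (Int.ofNat (nat_lit 7457)),
 (Int.ofNat (nat_lit 7401)), (Int.ofNat (nat_lit 7205)), (Int.negSucc (nat_lit 29999)),
 (Int.negSucc (nat_lit 29999)), (Int.negSucc (nat_lit 29999)), (Int.negSucc (nat_lit 29999)),
 (Int.negSucc (nat_lit 29999)), (Int.negSucc (nat_lit 29999))], []⟩,
    ⟨(nat_lit 3), (nat_lit 1000), (nat_lit 1000), (Int.ofNat (nat_lit 0)), (Int.ofNat (nat_lit 0)),
 [(Int.ofNat (nat_lit 645)), (Int.ofNat (nat_lit 1369)), (Int.ofNat (nat_lit 2174)),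
 (Int.ofNat (nat_lit 3059)), (Int.ofNat (nat_lit 4048)), (Int.ofNat (nat_lit 4994)),
 (Int.ofNat (nat_lit 5786)), (Int.ofNat (nat_lit 6236)), (Int.ofNat (nat_lit 6219)),
 (Int.ofNat (nat_lit 5823)), (Int.ofNat (nat_lit 4970)), (Int.ofNat (nat_lit 3743)),
 (Int.ofNat (nat_lit 2034)), (Int.negSucc (nat_lit 118)), (Int.negSucc (nat_lit 29999)),
 (Int.negSucc (nat_lit 29999)), (Int.negSucc (nat_lit 29999)), (Int.negSucc (nat_lit 29999)),
 (Int.negSucc (nat_lit 29999)), (Int.negSucc (nat_lit 29999))], []⟩,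
    ⟨(nat_lit 1), (nat_lit 1000), (nat_lit 185), (Int.ofNat (nat_lit 0)), (Int.ofNat (nat_lit 0)),
 [(Int.ofNat (nat_lit 14501)), (Int.ofNat (nat_lit 2273)), (Int.ofNat (nat_lit 2369)),
 (Int.ofNat (nat_lit 2341)), (Int.ofNat (nat_lit 2239)), (Int.ofNat (nat_lit 2029)),
 (Int.ofNat (nat_lit 1695)), (Int.ofNat (nat_lit 1254)), (Int.ofNat (nat_lit 671)),
 (Int.negSucc (nat_lit 35)), (Int.negSucc (nat_lit 904)), (Int.negSucc (nat_lit 1918)),
 (Int.negSucc (nat_lit 3121)), (Int.negSucc (nat_lit 3441)), (Int.negSucc (nat_lit 29999)),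
 (Int.negSucc (nat_lit 29999)), (Int.negSucc (nat_lit 29999)), (Int.negSucc (nat_lit 29999)),
 (Int.negSucc (nat_lit 29999)), (Int.negSucc (nat_lit 29999))], []⟩,
    ⟨(nat_lit 1), (nat_lit 1000), (nat_lit 250), (Int.ofNat (nat_lit 0)), (Int.ofNat (nat_lit 0)),
 [(Int.ofNat (nat_lit 969)), (Int.ofNat (nat_lit 1717)), (Int.ofNat (nat_lit 2020)),
 (Int.ofNat (nat_lit 2171)), (Int.ofNat (nat_lit 2167)), (Int.ofNat (nat_lit 2014)),
 (Int.ofNat (nat_lit 1699)), (Int.ofNat (nat_lit 1241)), (Int.ofNat (nat_lit 607)),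
 (Int.negSucc (nat_lit 180)), (Int.negSucc (nat_lit 1163)), (Int.negSucc (nat_lit 2321)),
 (Int.negSucc (nat_lit 3702)), (Int.negSucc (nat_lit 4234)), (Int.negSucc (nat_lit 29999)),
 (Int.negSucc (nat_lit 29999)), (Int.negSucc (nat_lit 29999)), (Int.negSucc (nat_lit 29999)),
 (Int.negSucc (nat_lit 29999)), (Int.negSucc (nat_lit 29999))], []⟩,
    ⟨(nat_lit 1), (nat_lit 1000), (nat_lit 400), (Int.ofNat (nat_lit 0)), (Int.ofNat (nat_lit 0)),
 [(Int.ofNat (nat_lit 374)), (Int.ofNat (nat_lit 839)), (Int.ofNat (nat_lit 1431)),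
 (Int.ofNat (nat_lit 1831)), (Int.ofNat (nat_lit 1999)), (Int.ofNat (nat_lit 1984)),
 (Int.ofNat (nat_lit 1707)), (Int.ofNat (nat_lit 1212)), (Int.ofNat (nat_lit 458)),
 (Int.negSucc (nat_lit 515)), (Int.negSucc (nat_lit 1762)), (Int.negSucc (nat_lit 3250)),
 (Int.negSucc (nat_lit 5043)), (Int.negSucc (nat_lit 6066)), (Int.negSucc (nat_lit 29999)),
 (Int.negSucc (nat_lit 29999)), (Int.negSucc (nat_lit 29999)), (Int.negSucc (nat_lit 29999)),
 (Int.negSucc (nat_lit 29999)), (Int.negSucc (nat_lit 29999))], []⟩,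
    ⟨(nat_lit 1), (nat_lit 1000), (nat_lit 1000), (Int.ofNat (nat_lit 0)), (Int.ofNat (nat_lit 0)),
 [(Int.ofNat (nat_lit 200)), (Int.ofNat (nat_lit 470)), (Int.ofNat (nat_lit 812)),
 (Int.ofNat (nat_lit 1226)), (Int.ofNat (nat_lit 1715)), (Int.ofNat (nat_lit 1854)),
 (Int.ofNat (nat_lit 1742)), (Int.ofNat (nat_lit 1097)), (Int.negSucc (nat_lit 136)),
 (Int.negSucc (nat_lit 1849)), (Int.negSucc (nat_lit 4151)), (Int.negSucc (nat_lit 6965)),
 (Int.negSucc (nat_lit 10409)), (Int.negSucc (nat_lit 13392)), (Int.negSucc (nat_lit 29999)),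
 (Int.negSucc (nat_lit 29999)), (Int.negSucc (nat_lit 29999)), (Int.negSucc (nat_lit 29999)),
 (Int.negSucc (nat_lit 29999)), (Int.negSucc (nat_lit 29999))], []⟩]⟩
def xL130_40 : Box := ⟨(nat_lit 130), (nat_lit 140), (nat_lit 130), (nat_lit 140), (nat_lit 0), (nat_lit 0),
 (nat_lit 12), (nat_lit 40), (nat_lit 0), (nat_lit 0), [(nat_lit 50), (nat_lit 100), (nat_lit 150),
 (nat_lit 200), (nat_lit 250), (nat_lit 300), (nat_lit 350), (nat_lit 400), (nat_lit 450), (nat_lit 500),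
 (nat_lit 550), (nat_lit 600), (nat_lit 650), (nat_lit 700), (nat_lit 750), (nat_lit 800), (nat_lit 850),
 (nat_lit 900), (nat_lit 950), (nat_lit 1000)], [], [
    ⟨(nat_lit 3), (nat_lit 1000), (nat_lit 250), (Int.ofNat (nat_lit 0)), (Int.ofNat (nat_lit 0)),
 [(Int.ofNat (nat_lit 1190)), (Int.ofNat (nat_lit 1928)), (Int.ofNat (nat_lit 2772)),
 (Int.ofNat (nat_lit 3576)), (Int.ofNat (nat_lit 4344)), (Int.ofNat (nat_lit 5070)),
 (Int.ofNat (nat_lit 5745)), (Int.ofNat (nat_lit 6379)), (Int.ofNat (nat_lit 6960)),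
 (Int.ofNat (nat_lit 7491)), (Int.ofNat (nat_lit 7966)), (Int.ofNat (nat_lit 8386)),
 (Int.ofNat (nat_lit 8742)), (Int.ofNat (nat_lit 9038)), (Int.ofNat (nat_lit 9263)),
 (Int.ofNat (nat_lit 9416)), (Int.negSucc (nat_lit 29999)), (Int.negSucc (nat_lit 29999)),
 (Int.negSucc (nat_lit 29999)), (Int.negSucc (nat_lit 29999))], []⟩,
    ⟨(nat_lit 3), (nat_lit 1000), (nat_lit 400), (Int.ofNat (nat_lit 0)), (Int.ofNat (nat_lit 0)),
 [(Int.ofNat (nat_lit 696)), (Int.ofNat (nat_lit 1479)), (Int.ofNat (nat_lit 2350)),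
 (Int.ofNat (nat_lit 3332)), (Int.ofNat (nat_lit 4223)), (Int.ofNat (nat_lit 5024)),
 (Int.ofNat (nat_lit 5761)), (Int.ofNat (nat_lit 6345)), (Int.ofNat (nat_lit 6816)),
 (Int.ofNat (nat_lit 7152)), (Int.ofNat (nat_lit 7372)), (Int.ofNat (nat_lit 7452)),
 (Int.ofNat (nat_lit 7406)), (Int.ofNat (nat_lit 7204)), (Int.ofNat (nat_lit 6851)),
 (Int.ofNat (nat_lit 6304)), (Int.negSucc (nat_lit 29999)), (Int.negSucc (nat_lit 29999)),
 (Int.negSucc (nat_lit 29999)), (Int.negSucc (nat_lit 29999))], []⟩,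
    ⟨(nat_lit 3), (nat_lit 1000), (nat_lit 1000), (Int.ofNat (nat_lit 0)), (Int.ofNat (nat_lit 0)),
 [(Int.ofNat (nat_lit 645)), (Int.ofNat (nat_lit 1369)), (Int.ofNat (nat_lit 2174)),
 (Int.ofNat (nat_lit 3059)), (Int.ofNat (nat_lit 4042)), (Int.ofNat (nat_lit 5000)),
 (Int.ofNat (nat_lit 5786)), (Int.ofNat (nat_lit 6236)), (Int.ofNat (nat_lit 6214)),
 (Int.ofNat (nat_lit 5819)), (Int.ofNat (nat_lit 4970)), (Int.ofNat (nat_lit 3743)),
 (Int.ofNat (nat_lit 2033)), (Int.negSucc (nat_lit 106)), (Int.negSucc (nat_lit 2824)),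
 (Int.negSucc (nat_lit 6116)), (Int.negSucc (nat_lit 29999)), (Int.negSucc (nat_lit 29999)),
 (Int.negSucc (nat_lit 29999)), (Int.negSucc (nat_lit 29999))], []⟩,
    ⟨(nat_lit 1), (nat_lit 1000), (nat_lit 205), (Int.ofNat (nat_lit 0)), (Int.ofNat (nat_lit 0)),
 [(Int.ofNat (nat_lit 11815)), (Int.ofNat (nat_lit 2084)), (Int.ofNat (nat_lit 2265)),
 (Int.ofNat (nat_lit 2291)), (Int.ofNat (nat_lit 2217)), (Int.ofNat (nat_lit 2026)),
 (Int.ofNat (nat_lit 1696)), (Int.ofNat (nat_lit 1250)), (Int.ofNat (nat_lit 652)),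
 (Int.negSucc (nat_lit 74)), (Int.negSucc (nat_lit 979)), (Int.negSucc (nat_lit 2042)),
 (Int.negSucc (nat_lit 3300)), (Int.negSucc (nat_lit 3126)), (Int.negSucc (nat_lit 2723)),
 (Int.negSucc (nat_lit 2354)), (Int.negSucc (nat_lit 29999)), (Int.negSucc (nat_lit 29999)),
 (Int.negSucc (nat_lit 29999)), (Int.negSucc (nat_lit 29999))], []⟩,
    ⟨(nat_lit 1), (nat_lit 1000), (nat_lit 250), (Int.ofNat (nat_lit 0)), (Int.ofNat (nat_lit 0)),
 [(Int.ofNat (nat_lit 1144)), (Int.ofNat (nat_lit 1680)), (Int.ofNat (nat_lit 2030)),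
 (Int.ofNat (nat_lit 2166)), (Int.ofNat (nat_lit 2172)), (Int.ofNat (nat_lit 2010)),
 (Int.ofNat (nat_lit 1702)), (Int.ofNat (nat_lit 1241)), (Int.ofNat (nat_lit 607)),
 (Int.negSucc (nat_lit 180)), (Int.negSucc (nat_lit 1163)), (Int.negSucc (nat_lit 2320)),
 (Int.negSucc (nat_lit 3703)), (Int.negSucc (nat_lit 3675)), (Int.negSucc (nat_lit 3447)),
 (Int.negSucc (nat_lit 3298)), (Int.negSucc (nat_lit 29999)), (Int.negSucc (nat_lit 29999)),
 (Int.negSucc (nat_lit 29999)), (Int.negSucc (nat_lit 29999))], []⟩,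
    ⟨(nat_lit 1), (nat_lit 1000), (nat_lit 400), (Int.ofNat (nat_lit 0)), (Int.ofNat (nat_lit 0)),
 [(Int.ofNat (nat_lit 376)), (Int.ofNat (nat_lit 843)), (Int.ofNat (nat_lit 1449)),
 (Int.ofNat (nat_lit 1849)), (Int.ofNat (nat_lit 2011)), (Int.ofNat (nat_lit 1984)),
 (Int.ofNat (nat_lit 1707)), (Int.ofNat (nat_lit 1213)), (Int.ofNat (nat_lit 458)),
 (Int.negSucc (nat_lit 515)), (Int.negSucc (nat_lit 1762)), (Int.negSucc (nat_lit 3249)),
 (Int.negSucc (nat_lit 5044)), (Int.negSucc (nat_lit 5508)), (Int.negSucc (nat_lit 5861)),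
 (Int.negSucc (nat_lit 6408)), (Int.negSucc (nat_lit 29999)), (Int.negSucc (nat_lit 29999)),
 (Int.negSucc (nat_lit 29999)), (Int.negSucc (nat_lit 29999))], []⟩,
    ⟨(nat_lit 1), (nat_lit 1000), (nat_lit 1000), (Int.ofNat (nat_lit 0)), (Int.ofNat (nat_lit 0)),
 [(Int.ofNat (nat_lit 200)), (Int.ofNat (nat_lit 470)), (Int.ofNat (nat_lit 812)),
 (Int.ofNat (nat_lit 1226)), (Int.ofNat (nat_lit 1710)), (Int.ofNat (nat_lit 1851)),
 (Int.ofNat (nat_lit 1742)), (Int.ofNat (nat_lit 1097)), (Int.negSucc (nat_lit 136)),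
 (Int.negSucc (nat_lit 1849)), (Int.negSucc (nat_lit 4151)), (Int.negSucc (nat_lit 6959)),
 (Int.negSucc (nat_lit 10409)), (Int.negSucc (nat_lit 12838)), (Int.negSucc (nat_lit 15517)),
 (Int.negSucc (nat_lit 18850)), (Int.negSucc (nat_lit 29999)), (Int.negSucc (nat_lit 29999)),
 (Int.negSucc (nat_lit 29999)), (Int.negSucc (nat_lit 29999))], []⟩]⟩
def xL130_60 : Box := ⟨(nat_lit 130), (nat_lit 140), (nat_lit 130), (nat_lit 140), (nat_lit 0), (nat_lit 0),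
 (nat_lit 12), (nat_lit 60), (nat_lit 0), (nat_lit 0), [(nat_lit 50), (nat_lit 100), (nat_lit 150),
 (nat_lit 200), (nat_lit 250), (nat_lit 300), (nat_lit 350), (nat_lit 400), (nat_lit 450), (nat_lit 500),
 (nat_lit 550), (nat_lit 600), (nat_lit 650), (nat_lit 700), (nat_lit 750), (nat_lit 800), (nat_lit 850),
 (nat_lit 900), (nat_lit 950), (nat_lit 1000)], [], [
    ⟨(nat_lit 3), (nat_lit 1000), (nat_lit 250), (Int.ofNat (nat_lit 0)), (Int.ofNat (nat_lit 0)),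
 [(Int.ofNat (nat_lit 4691)), (Int.ofNat (nat_lit 1933)), (Int.ofNat (nat_lit 2768)),
 (Int.ofNat (nat_lit 3577)), (Int.ofNat (nat_lit 4344)), (Int.ofNat (nat_lit 5070)),
 (Int.ofNat (nat_lit 5745)), (Int.ofNat (nat_lit 6379)), (Int.ofNat (nat_lit 6960)),
 (Int.ofNat (nat_lit 7492)), (Int.ofNat (nat_lit 7966)), (Int.ofNat (nat_lit 8386)),
 (Int.ofNat (nat_lit 8742)), (Int.ofNat (nat_lit 9038)), (Int.ofNat (nat_lit 9263)),
 (Int.ofNat (nat_lit 9416)), (Int.ofNat (nat_lit 9483)), (Int.ofNat (nat_lit 9485)),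
 (Int.negSucc (nat_lit 29999)), (Int.negSucc (nat_lit 29999))], []⟩,
    ⟨(nat_lit 3), (nat_lit 1000), (nat_lit 400), (Int.ofNat (nat_lit 0)), (Int.ofNat (nat_lit 0)),
 [(Int.ofNat (nat_lit 696)), (Int.ofNat (nat_lit 1479)), (Int.ofNat (nat_lit 2350)),
 (Int.ofNat (nat_lit 3318)), (Int.ofNat (nat_lit 4224)), (Int.ofNat (nat_lit 5024)),
 (Int.ofNat (nat_lit 5761)), (Int.ofNat (nat_lit 6345)), (Int.ofNat (nat_lit 6816)),
 (Int.ofNat (nat_lit 7152)), (Int.ofNat (nat_lit 7372)), (Int.ofNat (nat_lit 7452)),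
 (Int.ofNat (nat_lit 7406)), (Int.ofNat (nat_lit 7204)), (Int.ofNat (nat_lit 6851)),
 (Int.ofNat (nat_lit 6304)), (Int.ofNat (nat_lit 5544)), (Int.ofNat (nat_lit 4482)),
 (Int.negSucc (nat_lit 29999)), (Int.negSucc (nat_lit 29999))], []⟩,
    ⟨(nat_lit 3), (nat_lit 1000), (nat_lit 1000), (Int.ofNat (nat_lit 0)), (Int.ofNat (nat_lit 0)),
 [(Int.ofNat (nat_lit 645)), (Int.ofNat (nat_lit 1369)), (Int.ofNat (nat_lit 2174)),
 (Int.ofNat (nat_lit 3059)), (Int.ofNat (nat_lit 4042)), (Int.ofNat (nat_lit 5000)),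
 (Int.ofNat (nat_lit 5786)), (Int.ofNat (nat_lit 6236)), (Int.ofNat (nat_lit 6218)),
 (Int.ofNat (nat_lit 5823)), (Int.ofNat (nat_lit 4970)), (Int.ofNat (nat_lit 3743)),
 (Int.ofNat (nat_lit 2033)), (Int.negSucc (nat_lit 106)), (Int.negSucc (nat_lit 2824)),
 (Int.negSucc (nat_lit 6116)), (Int.negSucc (nat_lit 10232)), (Int.negSucc (nat_lit 15365)),
 (Int.negSucc (nat_lit 29999)), (Int.negSucc (nat_lit 29999))], []⟩,
    ⟨(nat_lit 1), (nat_lit 1000), (nat_lit 225), (Int.ofNat (nat_lit 0)), (Int.ofNat (nat_lit 0)),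
 [(Int.ofNat (nat_lit 10140)), (Int.ofNat (nat_lit 1910)), (Int.ofNat (nat_lit 2142)),
 (Int.ofNat (nat_lit 2240)), (Int.ofNat (nat_lit 2195)), (Int.ofNat (nat_lit 2022)),
 (Int.ofNat (nat_lit 1697)), (Int.ofNat (nat_lit 1246)), (Int.ofNat (nat_lit 632)),
 (Int.negSucc (nat_lit 122)), (Int.negSucc (nat_lit 1062)), (Int.negSucc (nat_lit 2165)),
 (Int.negSucc (nat_lit 3479)), (Int.negSucc (nat_lit 3372)), (Int.negSucc (nat_lit 3041)),
 (Int.negSucc (nat_lit 2782)), (Int.negSucc (nat_lit 2467)), (Int.negSucc (nat_lit 2502)),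
 (Int.negSucc (nat_lit 29999)), (Int.negSucc (nat_lit 29999))], []⟩,
    ⟨(nat_lit 1), (nat_lit 1000), (nat_lit 250), (Int.ofNat (nat_lit 0)), (Int.ofNat (nat_lit 0)),
 [(Int.ofNat (nat_lit 1129)), (Int.ofNat (nat_lit 1684)), (Int.ofNat (nat_lit 2016)),
 (Int.ofNat (nat_lit 2170)), (Int.ofNat (nat_lit 2168)), (Int.ofNat (nat_lit 2014)),
 (Int.ofNat (nat_lit 1701)), (Int.ofNat (nat_lit 1239)), (Int.ofNat (nat_lit 609)),
 (Int.negSucc (nat_lit 179)), (Int.negSucc (nat_lit 1162)), (Int.negSucc (nat_lit 2320)),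
 (Int.negSucc (nat_lit 3702)), (Int.negSucc (nat_lit 3675)), (Int.negSucc (nat_lit 3447)),
 (Int.negSucc (nat_lit 3298)), (Int.negSucc (nat_lit 3227)), (Int.negSucc (nat_lit 3232)),
 (Int.negSucc (nat_lit 29999)), (Int.negSucc (nat_lit 29999))], []⟩,
    ⟨(nat_lit 1), (nat_lit 1000), (nat_lit 400), (Int.ofNat (nat_lit 0)), (Int.ofNat (nat_lit 0)),
 [(Int.ofNat (nat_lit 380)), (Int.ofNat (nat_lit 845)), (Int.ofNat (nat_lit 1456)),
 (Int.ofNat (nat_lit 1839)), (Int.ofNat (nat_lit 2001)), (Int.ofNat (nat_lit 1984)),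
 (Int.ofNat (nat_lit 1707)), (Int.ofNat (nat_lit 1213)), (Int.ofNat (nat_lit 464)),
 (Int.negSucc (nat_lit 509)), (Int.negSucc (nat_lit 1762)), (Int.negSucc (nat_lit 3249)),
 (Int.negSucc (nat_lit 5044)), (Int.negSucc (nat_lit 5508)), (Int.negSucc (nat_lit 5861)),
 (Int.negSucc (nat_lit 6408)), (Int.negSucc (nat_lit 7167)), (Int.negSucc (nat_lit 8229)),
 (Int.negSucc (nat_lit 29999)), (Int.negSucc (nat_lit 29999))], []⟩,
    ⟨(nat_lit 1), (nat_lit 1000), (nat_lit 1000), (Int.ofNat (nat_lit 0)), (Int.ofNat (nat_lit 0)),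
 [(Int.ofNat (nat_lit 200)), (Int.ofNat (nat_lit 470)), (Int.ofNat (nat_lit 812)),
 (Int.ofNat (nat_lit 1226)), (Int.ofNat (nat_lit 1714)), (Int.ofNat (nat_lit 1855)),
 (Int.ofNat (nat_lit 1742)), (Int.ofNat (nat_lit 1097)), (Int.negSucc (nat_lit 136)),
 (Int.negSucc (nat_lit 1855)), (Int.negSucc (nat_lit 4157)), (Int.negSucc (nat_lit 6959)),
 (Int.negSucc (nat_lit 10403)), (Int.negSucc (nat_lit 12837)), (Int.negSucc (nat_lit 15517)),
 (Int.negSucc (nat_lit 18850)), (Int.negSucc (nat_lit 22924)), (Int.negSucc (nat_lit 28102)),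
 (Int.negSucc (nat_lit 29999)), (Int.negSucc (nat_lit 29999))], []⟩]⟩
def xL140_20 : Box := ⟨(nat_lit 140), (nat_lit 150), (nat_lit 140), (nat_lit 150), (nat_lit 0), (nat_lit 0),
 (nat_lit 12), (nat_lit 20), (nat_lit 0), (nat_lit 0), [(nat_lit 50), (nat_lit 100), (nat_lit 150),
 (nat_lit 200), (nat_lit 250), (nat_lit 300), (nat_lit 350), (nat_lit 400), (nat_lit 450), (nat_lit 500),
 (nat_lit 550), (nat_lit 600), (nat_lit 650), (nat_lit 700), (nat_lit 750), (nat_lit 800), (nat_lit 850),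
 (nat_lit 900), (nat_lit 950), (nat_lit 1000)], [], [
    ⟨(nat_lit 3), (nat_lit 1000), (nat_lit 250), (Int.ofNat (nat_lit 0)), (Int.ofNat (nat_lit 0)),
 [(Int.ofNat (nat_lit 985)), (Int.ofNat (nat_lit 1904)), (Int.ofNat (nat_lit 2732)),
 (Int.ofNat (nat_lit 3515)), (Int.ofNat (nat_lit 4242)), (Int.ofNat (nat_lit 4922)),
 (Int.ofNat (nat_lit 5554)), (Int.ofNat (nat_lit 6143)), (Int.ofNat (nat_lit 6687)),
 (Int.ofNat (nat_lit 7188)), (Int.ofNat (nat_lit 7646)), (Int.ofNat (nat_lit 8061)),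
 (Int.ofNat (nat_lit 8429)), (Int.negSucc (nat_lit 29999)), (Int.negSucc (nat_lit 29999)),
 (Int.negSucc (nat_lit 29999)), (Int.negSucc (nat_lit 29999)), (Int.negSucc (nat_lit 29999)),
 (Int.negSucc (nat_lit 29999)), (Int.negSucc (nat_lit 29999))], []⟩,
    ⟨(nat_lit 3), (nat_lit 1000), (nat_lit 400), (Int.ofNat (nat_lit 0)), (Int.ofNat (nat_lit 0)),
 [(Int.ofNat (nat_lit 726)), (Int.ofNat (nat_lit 1540)), (Int.ofNat (nat_lit 2458)),
 (Int.ofNat (nat_lit 3389)), (Int.ofNat (nat_lit 4205)), (Int.ofNat (nat_lit 4932)),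
 (Int.ofNat (nat_lit 5521)), (Int.ofNat (nat_lit 5987)), (Int.ofNat (nat_lit 6335)),
 (Int.ofNat (nat_lit 6571)), (Int.ofNat (nat_lit 6694)), (Int.ofNat (nat_lit 6705)),
 (Int.ofNat (nat_lit 6591)), (Int.negSucc (nat_lit 29999)), (Int.negSucc (nat_lit 29999)),
 (Int.negSucc (nat_lit 29999)), (Int.negSucc (nat_lit 29999)), (Int.negSucc (nat_lit 29999)),
 (Int.negSucc (nat_lit 29999)), (Int.negSucc (nat_lit 29999))], []⟩,
    ⟨(nat_lit 3), (nat_lit 1000), (nat_lit 1000), (Int.ofNat (nat_lit 0)), (Int.ofNat (nat_lit 0)),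
 [(Int.ofNat (nat_lit 675)), (Int.ofNat (nat_lit 1431)), (Int.ofNat (nat_lit 2270)),
 (Int.ofNat (nat_lit 3205)), (Int.ofNat (nat_lit 4152)), (Int.ofNat (nat_lit 4964)),
 (Int.ofNat (nat_lit 5401)), (Int.ofNat (nat_lit 5352)), (Int.ofNat (nat_lit 4939)),
 (Int.ofNat (nat_lit 4090)), (Int.ofNat (nat_lit 2898)), (Int.ofNat (nat_lit 1271)),
 (Int.negSucc (nat_lit 734)), (Int.negSucc (nat_lit 29999)), (Int.negSucc (nat_lit 29999)),
 (Int.negSucc (nat_lit 29999)), (Int.negSucc (nat_lit 29999)), (Int.negSucc (nat_lit 29999)),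
 (Int.negSucc (nat_lit 29999)), (Int.negSucc (nat_lit 29999))], []⟩,
    ⟨(nat_lit 1), (nat_lit 1000), (nat_lit 180), (Int.ofNat (nat_lit 0)), (Int.ofNat (nat_lit 0)),
 [(Int.ofNat (nat_lit 19162)), (Int.ofNat (nat_lit 2048)), (Int.ofNat (nat_lit 2124)),
 (Int.ofNat (nat_lit 2100)), (Int.ofNat (nat_lit 1957)), (Int.ofNat (nat_lit 1717)),
 (Int.ofNat (nat_lit 1354)), (Int.ofNat (nat_lit 880)), (Int.ofNat (nat_lit 284)),
 (Int.negSucc (nat_lit 437)), (Int.negSucc (nat_lit 1295)), (Int.negSucc (nat_lit 2295)),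
 (Int.negSucc (nat_lit 3460)), (Int.negSucc (nat_lit 29999)), (Int.negSucc (nat_lit 29999)),
 (Int.negSucc (nat_lit 29999)), (Int.negSucc (nat_lit 29999)), (Int.negSucc (nat_lit 29999)),
 (Int.negSucc (nat_lit 29999)), (Int.negSucc (nat_lit 29999))], []⟩,
    ⟨(nat_lit 1), (nat_lit 1000), (nat_lit 250), (Int.ofNat (nat_lit 0)), (Int.ofNat (nat_lit 0)),
 [(Int.ofNat (nat_lit 1005)), (Int.ofNat (nat_lit 1631)), (Int.ofNat (nat_lit 1903)),
 (Int.ofNat (nat_lit 2015)), (Int.ofNat (nat_lit 1942)), (Int.ofNat (nat_lit 1723)),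
 (Int.ofNat (nat_lit 1338)), (Int.ofNat (nat_lit 807)), (Int.ofNat (nat_lit 120)),
 (Int.negSucc (nat_lit 725)), (Int.negSucc (nat_lit 1739)), (Int.negSucc (nat_lit 2927)),
 (Int.negSucc (nat_lit 4318)), (Int.negSucc (nat_lit 29999)), (Int.negSucc (nat_lit 29999)),
 (Int.negSucc (nat_lit 29999)), (Int.negSucc (nat_lit 29999)), (Int.negSucc (nat_lit 29999)),
 (Int.negSucc (nat_lit 29999)), (Int.negSucc (nat_lit 29999))], []⟩,
    ⟨(nat_lit 1), (nat_lit 1000), (nat_lit 400), (Int.ofNat (nat_lit 0)), (Int.ofNat (nat_lit 0)),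
 [(Int.ofNat (nat_lit 431)), (Int.ofNat (nat_lit 954)), (Int.ofNat (nat_lit 1551)),
 (Int.ofNat (nat_lit 1819)), (Int.ofNat (nat_lit 1917)), (Int.ofNat (nat_lit 1724)),
 (Int.ofNat (nat_lit 1311)), (Int.ofNat (nat_lit 646)), (Int.negSucc (nat_lit 226)),
 (Int.negSucc (nat_lit 1348)), (Int.negSucc (nat_lit 2686)), (Int.negSucc (nat_lit 4288)),
 (Int.negSucc (nat_lit 6144)), (Int.negSucc (nat_lit 29999)), (Int.negSucc (nat_lit 29999)),
 (Int.negSucc (nat_lit 29999)), (Int.negSucc (nat_lit 29999)), (Int.negSucc (nat_lit 29999)),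
 (Int.negSucc (nat_lit 29999)), (Int.negSucc (nat_lit 29999))], []⟩,
    ⟨(nat_lit 1), (nat_lit 1000), (nat_lit 1000), (Int.ofNat (nat_lit 0)), (Int.ofNat (nat_lit 0)),
 [(Int.ofNat (nat_lit 260)), (Int.ofNat (nat_lit 592)), (Int.ofNat (nat_lit 1001)),
 (Int.ofNat (nat_lit 1516)), (Int.ofNat (nat_lit 1779)), (Int.ofNat (nat_lit 1762)),
 (Int.ofNat (nat_lit 1185)), (Int.ofNat (nat_lit 17)), (Int.negSucc (nat_lit 1622)),
 (Int.negSucc (nat_lit 3818)), (Int.negSucc (nat_lit 6487)), (Int.negSucc (nat_lit 9718)),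
 (Int.negSucc (nat_lit 13481)), (Int.negSucc (nat_lit 29999)), (Int.negSucc (nat_lit 29999)),
 (Int.negSucc (nat_lit 29999)), (Int.negSucc (nat_lit 29999)), (Int.negSucc (nat_lit 29999)),
 (Int.negSucc (nat_lit 29999)), (Int.negSucc (nat_lit 29999))], []⟩]⟩
def xL140_40 : Box := ⟨(nat_lit 140), (nat_lit 150), (nat_lit 140), (nat_lit 150), (nat_lit 0), (nat_lit 0),
 (nat_lit 12), (nat_lit 40), (nat_lit 0), (nat_lit 0), [(nat_lit 50), (nat_lit 100), (nat_lit 150),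
 (nat_lit 200), (nat_lit 250), (nat_lit 300), (nat_lit 350), (nat_lit 400), (nat_lit 450), (nat_lit 500),
 (nat_lit 550), (nat_lit 600), (nat_lit 650), (nat_lit 700), (nat_lit 750), (nat_lit 800), (nat_lit 850),
 (nat_lit 900), (nat_lit 950), (nat_lit 1000)], [], [
    ⟨(nat_lit 3), (nat_lit 1000), (nat_lit 250), (Int.ofNat (nat_lit 0)), (Int.ofNat (nat_lit 0)),
 [(Int.ofNat (nat_lit 991)), (Int.ofNat (nat_lit 1910)), (Int.ofNat (nat_lit 2734)),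
 (Int.ofNat (nat_lit 3513)), (Int.ofNat (nat_lit 4243)), (Int.ofNat (nat_lit 4921)),
 (Int.ofNat (nat_lit 5554)), (Int.ofNat (nat_lit 6143)), (Int.ofNat (nat_lit 6687)),
 (Int.ofNat (nat_lit 7189)), (Int.ofNat (nat_lit 7646)), (Int.ofNat (nat_lit 8061)),
 (Int.ofNat (nat_lit 8432)), (Int.ofNat (nat_lit 8761)), (Int.ofNat (nat_lit 9044)),
 (Int.negSucc (nat_lit 29999)), (Int.negSucc (nat_lit 29999)), (Int.negSucc (nat_lit 29999)),
 (Int.negSucc (nat_lit 29999)), (Int.negSucc (nat_lit 29999))], []⟩,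
    ⟨(nat_lit 3), (nat_lit 1000), (nat_lit 400), (Int.ofNat (nat_lit 0)), (Int.ofNat (nat_lit 0)),
 [(Int.ofNat (nat_lit 726)), (Int.ofNat (nat_lit 1540)), (Int.ofNat (nat_lit 2458)),
 (Int.ofNat (nat_lit 3389)), (Int.ofNat (nat_lit 4196)), (Int.ofNat (nat_lit 4941)),
 (Int.ofNat (nat_lit 5519)), (Int.ofNat (nat_lit 5989)), (Int.ofNat (nat_lit 6333)),
 (Int.ofNat (nat_lit 6573)), (Int.ofNat (nat_lit 6692)), (Int.ofNat (nat_lit 6707)),
 (Int.ofNat (nat_lit 6597)), (Int.ofNat (nat_lit 6374)), (Int.ofNat (nat_lit 6008)),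
 (Int.negSucc (nat_lit 29999)), (Int.negSucc (nat_lit 29999)), (Int.negSucc (nat_lit 29999)),
 (Int.negSucc (nat_lit 29999)), (Int.negSucc (nat_lit 29999))], []⟩,
    ⟨(nat_lit 3), (nat_lit 1000), (nat_lit 1000), (Int.ofNat (nat_lit 0)), (Int.ofNat (nat_lit 0)),
 [(Int.ofNat (nat_lit 675)), (Int.ofNat (nat_lit 1431)), (Int.ofNat (nat_lit 2270)),
 (Int.ofNat (nat_lit 3205)), (Int.ofNat (nat_lit 4152)), (Int.ofNat (nat_lit 4964)),
 (Int.ofNat (nat_lit 5401)), (Int.ofNat (nat_lit 5352)), (Int.ofNat (nat_lit 4939)),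
 (Int.ofNat (nat_lit 4090)), (Int.ofNat (nat_lit 2898)), (Int.ofNat (nat_lit 1271)),
 (Int.negSucc (nat_lit 719)), (Int.negSucc (nat_lit 3195)), (Int.negSucc (nat_lit 6111)),
 (Int.negSucc (nat_lit 29999)), (Int.negSucc (nat_lit 29999)), (Int.negSucc (nat_lit 29999)),
 (Int.negSucc (nat_lit 29999)), (Int.negSucc (nat_lit 29999))], []⟩,
    ⟨(nat_lit 1), (nat_lit 1000), (nat_lit 200), (Int.ofNat (nat_lit 0)), (Int.ofNat (nat_lit 0)),
 [(Int.ofNat (nat_lit 14628)), (Int.ofNat (nat_lit 1918)), (Int.ofNat (nat_lit 2066)),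
 (Int.ofNat (nat_lit 2070)), (Int.ofNat (nat_lit 1962)), (Int.ofNat (nat_lit 1711)),
 (Int.ofNat (nat_lit 1353)), (Int.ofNat (nat_lit 856)), (Int.ofNat (nat_lit 247)),
 (Int.negSucc (nat_lit 517)), (Int.negSucc (nat_lit 1418)), (Int.negSucc (nat_lit 2479)),
 (Int.negSucc (nat_lit 3668)), (Int.negSucc (nat_lit 3154)), (Int.negSucc (nat_lit 2656)),
 (Int.negSucc (nat_lit 29999)), (Int.negSucc (nat_lit 29999)), (Int.negSucc (nat_lit 29999)),
 (Int.negSucc (nat_lit 29999)), (Int.negSucc (nat_lit 29999))], []⟩,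
    ⟨(nat_lit 1), (nat_lit 1000), (nat_lit 250), (Int.ofNat (nat_lit 0)), (Int.ofNat (nat_lit 0)),
 [(Int.ofNat (nat_lit 1023)), (Int.ofNat (nat_lit 1649)), (Int.ofNat (nat_lit 1909)),
 (Int.ofNat (nat_lit 2012)), (Int.ofNat (nat_lit 1945)), (Int.ofNat (nat_lit 1721)),
 (Int.ofNat (nat_lit 1336)), (Int.ofNat (nat_lit 810)), (Int.ofNat (nat_lit 124)),
 (Int.negSucc (nat_lit 729)), (Int.negSucc (nat_lit 1735)), (Int.negSucc (nat_lit 2932)),
 (Int.negSucc (nat_lit 4280)), (Int.negSucc (nat_lit 3950)), (Int.negSucc (nat_lit 3668)),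
 (Int.negSucc (nat_lit 29999)), (Int.negSucc (nat_lit 29999)), (Int.negSucc (nat_lit 29999)),
 (Int.negSucc (nat_lit 29999)), (Int.negSucc (nat_lit 29999))], []⟩,
    ⟨(nat_lit 1), (nat_lit 1000), (nat_lit 400), (Int.ofNat (nat_lit 0)), (Int.ofNat (nat_lit 0)),
 [(Int.ofNat (nat_lit 432)), (Int.ofNat (nat_lit 960)), (Int.ofNat (nat_lit 1563)),
 (Int.ofNat (nat_lit 1830)), (Int.ofNat (nat_lit 1918)), (Int.ofNat (nat_lit 1724)),
 (Int.ofNat (nat_lit 1311)), (Int.ofNat (nat_lit 646)), (Int.negSucc (nat_lit 226)),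
 (Int.negSucc (nat_lit 1348)), (Int.negSucc (nat_lit 2685)), (Int.negSucc (nat_lit 4289)),
 (Int.negSucc (nat_lit 6114)), (Int.negSucc (nat_lit 6338)), (Int.negSucc (nat_lit 6704)),
 (Int.negSucc (nat_lit 29999)), (Int.negSucc (nat_lit 29999)), (Int.negSucc (nat_lit 29999)),
 (Int.negSucc (nat_lit 29999)), (Int.negSucc (nat_lit 29999))], []⟩,
    ⟨(nat_lit 1), (nat_lit 1000), (nat_lit 1000), (Int.ofNat (nat_lit 0)), (Int.ofNat (nat_lit 0)),
 [(Int.ofNat (nat_lit 260)), (Int.ofNat (nat_lit 592)), (Int.ofNat (nat_lit 1001)),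
 (Int.ofNat (nat_lit 1515)), (Int.ofNat (nat_lit 1780)), (Int.ofNat (nat_lit 1762)),
 (Int.ofNat (nat_lit 1186)), (Int.ofNat (nat_lit 16)), (Int.negSucc (nat_lit 1621)),
 (Int.negSucc (nat_lit 3818)), (Int.negSucc (nat_lit 6487)), (Int.negSucc (nat_lit 9719)),
 (Int.negSucc (nat_lit 13451)), (Int.negSucc (nat_lit 15888)), (Int.negSucc (nat_lit 18845)),
 (Int.negSucc (nat_lit 29999)), (Int.negSucc (nat_lit 29999)), (Int.negSucc (nat_lit 29999)),
 (Int.negSucc (nat_lit 29999)), (Int.negSucc (nat_lit 29999))], []⟩]⟩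
def xL140_60 : Box := ⟨(nat_lit 140), (nat_lit 150), (nat_lit 140), (nat_lit 150), (nat_lit 0), (nat_lit 0),
 (nat_lit 12), (nat_lit 60), (nat_lit 0), (nat_lit 0), [(nat_lit 50), (nat_lit 100), (nat_lit 150),
 (nat_lit 200), (nat_lit 250), (nat_lit 300), (nat_lit 350), (nat_lit 400), (nat_lit 450), (nat_lit 500),
 (nat_lit 550), (nat_lit 600), (nat_lit 650), (nat_lit 700), (nat_lit 750), (nat_lit 800), (nat_lit 850),
 (nat_lit 900), (nat_lit 950), (nat_lit 1000)], [], [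
    ⟨(nat_lit 3), (nat_lit 1000), (nat_lit 250), (Int.ofNat (nat_lit 0)), (Int.ofNat (nat_lit 0)),
 [(Int.ofNat (nat_lit 991)), (Int.ofNat (nat_lit 1910)), (Int.ofNat (nat_lit 2735)),
 (Int.ofNat (nat_lit 3520)), (Int.ofNat (nat_lit 4243)), (Int.ofNat (nat_lit 4924)),
 (Int.ofNat (nat_lit 5553)), (Int.ofNat (nat_lit 6143)), (Int.ofNat (nat_lit 6686)),
 (Int.ofNat (nat_lit 7189)), (Int.ofNat (nat_lit 7645)), (Int.ofNat (nat_lit 8062)),
 (Int.ofNat (nat_lit 8432)), (Int.ofNat (nat_lit 8761)), (Int.ofNat (nat_lit 9043)),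
 (Int.ofNat (nat_lit 9283)), (Int.ofNat (nat_lit 9471)), (Int.negSucc (nat_lit 29999)),
 (Int.negSucc (nat_lit 29999)), (Int.negSucc (nat_lit 29999))], []⟩,
    ⟨(nat_lit 3), (nat_lit 1000), (nat_lit 400), (Int.ofNat (nat_lit 0)), (Int.ofNat (nat_lit 0)),
 [(Int.ofNat (nat_lit 726)), (Int.ofNat (nat_lit 1540)), (Int.ofNat (nat_lit 2458)),
 (Int.ofNat (nat_lit 3389)), (Int.ofNat (nat_lit 4196)), (Int.ofNat (nat_lit 4941)),
 (Int.ofNat (nat_lit 5519)), (Int.ofNat (nat_lit 5989)), (Int.ofNat (nat_lit 6335)),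
 (Int.ofNat (nat_lit 6575)), (Int.ofNat (nat_lit 6692)), (Int.ofNat (nat_lit 6707)),
 (Int.ofNat (nat_lit 6597)), (Int.ofNat (nat_lit 6374)), (Int.ofNat (nat_lit 6008)),
 (Int.ofNat (nat_lit 5500)), (Int.ofNat (nat_lit 4802)), (Int.negSucc (nat_lit 29999)),
 (Int.negSucc (nat_lit 29999)), (Int.negSucc (nat_lit 29999))], []⟩,
    ⟨(nat_lit 3), (nat_lit 1000), (nat_lit 1000), (Int.ofNat (nat_lit 0)), (Int.ofNat (nat_lit 0)),
 [(Int.ofNat (nat_lit 675)), (Int.ofNat (nat_lit 1431)), (Int.ofNat (nat_lit 2270)),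
 (Int.ofNat (nat_lit 3205)), (Int.ofNat (nat_lit 4152)), (Int.ofNat (nat_lit 4964)),
 (Int.ofNat (nat_lit 5401)), (Int.ofNat (nat_lit 5370)), (Int.ofNat (nat_lit 4957)),
 (Int.ofNat (nat_lit 4090)), (Int.ofNat (nat_lit 2898)), (Int.ofNat (nat_lit 1271)),
 (Int.negSucc (nat_lit 719)), (Int.negSucc (nat_lit 3195)), (Int.negSucc (nat_lit 6111)),
 (Int.negSucc (nat_lit 9646)), (Int.negSucc (nat_lit 13846)), (Int.negSucc (nat_lit 29999)),
 (Int.negSucc (nat_lit 29999)), (Int.negSucc (nat_lit 29999))], []⟩,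
    ⟨(nat_lit 1), (nat_lit 1000), (nat_lit 220), (Int.ofNat (nat_lit 0)), (Int.ofNat (nat_lit 0)),
 [(Int.ofNat (nat_lit 4389)), (Int.ofNat (nat_lit 1786)), (Int.ofNat (nat_lit 2017)),
 (Int.ofNat (nat_lit 2045)), (Int.ofNat (nat_lit 1958)), (Int.ofNat (nat_lit 1713)),
 (Int.ofNat (nat_lit 1349)), (Int.ofNat (nat_lit 835)), (Int.ofNat (nat_lit 194)),
 (Int.negSucc (nat_lit 605)), (Int.negSucc (nat_lit 1544)), (Int.negSucc (nat_lit 2655)),
 (Int.negSucc (nat_lit 3908)), (Int.negSucc (nat_lit 3471)), (Int.negSucc (nat_lit 3062)),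
 (Int.negSucc (nat_lit 2646)), (Int.negSucc (nat_lit 2204)), (Int.negSucc (nat_lit 29999)),
 (Int.negSucc (nat_lit 29999)), (Int.negSucc (nat_lit 29999))], []⟩,
    ⟨(nat_lit 1), (nat_lit 1000), (nat_lit 250), (Int.ofNat (nat_lit 0)), (Int.ofNat (nat_lit 0)),
 [(Int.ofNat (nat_lit 1008)), (Int.ofNat (nat_lit 1640)), (Int.ofNat (nat_lit 1903)),
 (Int.ofNat (nat_lit 2021)), (Int.ofNat (nat_lit 1941)), (Int.ofNat (nat_lit 1726)),
 (Int.ofNat (nat_lit 1336)), (Int.ofNat (nat_lit 810)), (Int.ofNat (nat_lit 130)),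
 (Int.negSucc (nat_lit 723)), (Int.negSucc (nat_lit 1735)), (Int.negSucc (nat_lit 2926)),
 (Int.negSucc (nat_lit 4274)), (Int.negSucc (nat_lit 3950)), (Int.negSucc (nat_lit 3668)),
 (Int.negSucc (nat_lit 3429)), (Int.negSucc (nat_lit 3240)), (Int.negSucc (nat_lit 29999)),
 (Int.negSucc (nat_lit 29999)), (Int.negSucc (nat_lit 29999))], []⟩,
    ⟨(nat_lit 1), (nat_lit 1000), (nat_lit 400), (Int.ofNat (nat_lit 0)), (Int.ofNat (nat_lit 0)),
 [(Int.ofNat (nat_lit 437)), (Int.ofNat (nat_lit 959)), (Int.ofNat (nat_lit 1550)),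
 (Int.ofNat (nat_lit 1818)), (Int.ofNat (nat_lit 1919)), (Int.ofNat (nat_lit 1724)),
 (Int.ofNat (nat_lit 1311)), (Int.ofNat (nat_lit 646)), (Int.negSucc (nat_lit 226)),
 (Int.negSucc (nat_lit 1348)), (Int.negSucc (nat_lit 2685)), (Int.negSucc (nat_lit 4289)),
 (Int.negSucc (nat_lit 6114)), (Int.negSucc (nat_lit 6338)), (Int.negSucc (nat_lit 6704)),
 (Int.negSucc (nat_lit 7212)), (Int.negSucc (nat_lit 7910)), (Int.negSucc (nat_lit 29999)),
 (Int.negSucc (nat_lit 29999)), (Int.negSucc (nat_lit 29999))], []⟩,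
    ⟨(nat_lit 1), (nat_lit 1000), (nat_lit 1000), (Int.ofNat (nat_lit 0)), (Int.ofNat (nat_lit 0)),
 [(Int.ofNat (nat_lit 260)), (Int.ofNat (nat_lit 592)), (Int.ofNat (nat_lit 1001)),
 (Int.ofNat (nat_lit 1515)), (Int.ofNat (nat_lit 1780)), (Int.ofNat (nat_lit 1762)),
 (Int.ofNat (nat_lit 1187)), (Int.ofNat (nat_lit 17)), (Int.negSucc (nat_lit 1621)),
 (Int.negSucc (nat_lit 3818)), (Int.negSucc (nat_lit 6469)), (Int.negSucc (nat_lit 9701)),
 (Int.negSucc (nat_lit 13451)), (Int.negSucc (nat_lit 15888)), (Int.negSucc (nat_lit 18845)),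
 (Int.negSucc (nat_lit 22338)), (Int.negSucc (nat_lit 26582)), (Int.negSucc (nat_lit 29999)),
 (Int.negSucc (nat_lit 29999)), (Int.negSucc (nat_lit 29999))], []⟩]⟩
def xL150_20 : Box := ⟨(nat_lit 150), (nat_lit 160), (nat_lit 150), (nat_lit 160), (nat_lit 0), (nat_lit 0),
 (nat_lit 12), (nat_lit 20), (nat_lit 0), (nat_lit 0), [(nat_lit 50), (nat_lit 100), (nat_lit 150),
 (nat_lit 200), (nat_lit 250), (nat_lit 300), (nat_lit 350), (nat_lit 400), (nat_lit 450), (nat_lit 500),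
 (nat_lit 550), (nat_lit 600), (nat_lit 650), (nat_lit 700), (nat_lit 750), (nat_lit 800), (nat_lit 850),
 (nat_lit 900), (nat_lit 950), (nat_lit 1000)], [], [
    ⟨(nat_lit 3), (nat_lit 1000), (nat_lit 250), (Int.ofNat (nat_lit 0)), (Int.ofNat (nat_lit 0)),
 [(Int.ofNat (nat_lit 966)), (Int.ofNat (nat_lit 1878)), (Int.ofNat (nat_lit 2681)),
 (Int.ofNat (nat_lit 3412)), (Int.ofNat (nat_lit 4079)), (Int.ofNat (nat_lit 4704)),
 (Int.ofNat (nat_lit 5287)), (Int.ofNat (nat_lit 5831)), (Int.ofNat (nat_lit 6333)),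
 (Int.ofNat (nat_lit 6812)), (Int.ofNat (nat_lit 7259)), (Int.ofNat (nat_lit 7679)),
 (Int.negSucc (nat_lit 29999)), (Int.negSucc (nat_lit 29999)), (Int.negSucc (nat_lit 29999)),
 (Int.negSucc (nat_lit 29999)), (Int.negSucc (nat_lit 29999)), (Int.negSucc (nat_lit 29999)),
 (Int.negSucc (nat_lit 29999)), (Int.negSucc (nat_lit 29999))], []⟩,
    ⟨(nat_lit 3), (nat_lit 1000), (nat_lit 400), (Int.ofNat (nat_lit 0)), (Int.ofNat (nat_lit 0)),
 [(Int.ofNat (nat_lit 755)), (Int.ofNat (nat_lit 1602)), (Int.ofNat (nat_lit 2519)),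
 (Int.ofNat (nat_lit 3367)), (Int.ofNat (nat_lit 4091)), (Int.ofNat (nat_lit 4669)),
 (Int.ofNat (nat_lit 5112)), (Int.ofNat (nat_lit 5451)), (Int.ofNat (nat_lit 5678)),
 (Int.ofNat (nat_lit 5816)), (Int.ofNat (nat_lit 5854)), (Int.ofNat (nat_lit 5790)),
 (Int.negSucc (nat_lit 29999)), (Int.negSucc (nat_lit 29999)), (Int.negSucc (nat_lit 29999)),
 (Int.negSucc (nat_lit 29999)), (Int.negSucc (nat_lit 29999)), (Int.negSucc (nat_lit 29999)),
 (Int.negSucc (nat_lit 29999)), (Int.negSucc (nat_lit 29999))], []⟩,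
    ⟨(nat_lit 3), (nat_lit 1000), (nat_lit 1000), (Int.ofNat (nat_lit 0)), (Int.ofNat (nat_lit 0)),
 [(Int.ofNat (nat_lit 704)), (Int.ofNat (nat_lit 1492)), (Int.ofNat (nat_lit 2365)),
 (Int.ofNat (nat_lit 3300)), (Int.ofNat (nat_lit 4128)), (Int.ofNat (nat_lit 4534)),
 (Int.ofNat (nat_lit 4423)), (Int.ofNat (nat_lit 3952)), (Int.ofNat (nat_lit 3052)),
 (Int.ofNat (nat_lit 1840)), (Int.ofNat (nat_lit 228)), (Int.negSucc (nat_lit 1742)),
 (Int.negSucc (nat_lit 29999)), (Int.negSucc (nat_lit 29999)), (Int.negSucc (nat_lit 29999)),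
 (Int.negSucc (nat_lit 29999)), (Int.negSucc (nat_lit 29999)), (Int.negSucc (nat_lit 29999)),
 (Int.negSucc (nat_lit 29999)), (Int.negSucc (nat_lit 29999))], []⟩,
    ⟨(nat_lit 1), (nat_lit 1000), (nat_lit 180), (Int.ofNat (nat_lit 0)), (Int.ofNat (nat_lit 0)),
 [(Int.ofNat (nat_lit 8152)), (Int.ofNat (nat_lit 1790)), (Int.ofNat (nat_lit 1856)),
 (Int.ofNat (nat_lit 1792)), (Int.ofNat (nat_lit 1610)), (Int.ofNat (nat_lit 1324)),
 (Int.ofNat (nat_lit 925)), (Int.ofNat (nat_lit 419)), (Int.negSucc (nat_lit 208)),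
 (Int.negSucc (nat_lit 948)), (Int.negSucc (nat_lit 1812)), (Int.negSucc (nat_lit 2815)),
 (Int.negSucc (nat_lit 29999)), (Int.negSucc (nat_lit 29999)), (Int.negSucc (nat_lit 29999)),
 (Int.negSucc (nat_lit 29999)), (Int.negSucc (nat_lit 29999)), (Int.negSucc (nat_lit 29999)),
 (Int.negSucc (nat_lit 29999)), (Int.negSucc (nat_lit 29999))], []⟩,
    ⟨(nat_lit 1), (nat_lit 1000), (nat_lit 250), (Int.ofNat (nat_lit 0)), (Int.ofNat (nat_lit 0)),
 [(Int.ofNat (nat_lit 981)), (Int.ofNat (nat_lit 1531)), (Int.ofNat (nat_lit 1756)),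
 (Int.ofNat (nat_lit 1783)), (Int.ofNat (nat_lit 1614)), (Int.ofNat (nat_lit 1309)),
 (Int.ofNat (nat_lit 838)), (Int.ofNat (nat_lit 240)), (Int.negSucc (nat_lit 521)),
 (Int.negSucc (nat_lit 1410)), (Int.negSucc (nat_lit 2469)), (Int.negSucc (nat_lit 3688)),
 (Int.negSucc (nat_lit 29999)), (Int.negSucc (nat_lit 29999)), (Int.negSucc (nat_lit 29999)),
 (Int.negSucc (nat_lit 29999)), (Int.negSucc (nat_lit 29999)), (Int.negSucc (nat_lit 29999)),
 (Int.negSucc (nat_lit 29999)), (Int.negSucc (nat_lit 29999))], []⟩,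
    ⟨(nat_lit 1), (nat_lit 1000), (nat_lit 400), (Int.ofNat (nat_lit 0)), (Int.ofNat (nat_lit 0)),
 [(Int.ofNat (nat_lit 487)), (Int.ofNat (nat_lit 1096)), (Int.ofNat (nat_lit 1550)),
 (Int.ofNat (nat_lit 1737)), (Int.ofNat (nat_lit 1626)), (Int.ofNat (nat_lit 1272)),
 (Int.ofNat (nat_lit 668)), (Int.negSucc (nat_lit 132)), (Int.negSucc (nat_lit 1170)),
 (Int.negSucc (nat_lit 2408)), (Int.negSucc (nat_lit 3873)), (Int.negSucc (nat_lit 5583)),
 (Int.negSucc (nat_lit 29999)), (Int.negSucc (nat_lit 29999)), (Int.negSucc (nat_lit 29999)),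
 (Int.negSucc (nat_lit 29999)), (Int.negSucc (nat_lit 29999)), (Int.negSucc (nat_lit 29999)),
 (Int.negSucc (nat_lit 29999)), (Int.negSucc (nat_lit 29999))], []⟩,
    ⟨(nat_lit 1), (nat_lit 1000), (nat_lit 1000), (Int.ofNat (nat_lit 0)), (Int.ofNat (nat_lit 0)),
 [(Int.ofNat (nat_lit 318)), (Int.ofNat (nat_lit 714)), (Int.ofNat (nat_lit 1225)),
 (Int.ofNat (nat_lit 1584)), (Int.ofNat (nat_lit 1671)), (Int.ofNat (nat_lit 1131)),
 (Int.negSucc (nat_lit 15)), (Int.negSucc (nat_lit 1643)), (Int.negSucc (nat_lit 3797)),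
 (Int.negSucc (nat_lit 6390)), (Int.negSucc (nat_lit 9494)), (Int.negSucc (nat_lit 13136)),
 (Int.negSucc (nat_lit 29999)), (Int.negSucc (nat_lit 29999)), (Int.negSucc (nat_lit 29999)),
 (Int.negSucc (nat_lit 29999)), (Int.negSucc (nat_lit 29999)), (Int.negSucc (nat_lit 29999)),
 (Int.negSucc (nat_lit 29999)), (Int.negSucc (nat_lit 29999))], []⟩]⟩
def xL150_40 : Box := ⟨(nat_lit 150), (nat_lit 160), (nat_lit 150), (nat_lit 160), (nat_lit 0), (nat_lit 0),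
 (nat_lit 12), (nat_lit 40), (nat_lit 0), (nat_lit 0), [(nat_lit 50), (nat_lit 100), (nat_lit 150),
 (nat_lit 200), (nat_lit 250), (nat_lit 300), (nat_lit 350), (nat_lit 400), (nat_lit 450), (nat_lit 500),
 (nat_lit 550), (nat_lit 600), (nat_lit 650), (nat_lit 700), (nat_lit 750), (nat_lit 800), (nat_lit 850),
 (nat_lit 900), (nat_lit 950), (nat_lit 1000)], [], [
    ⟨(nat_lit 3), (nat_lit 1000), (nat_lit 250), (Int.ofNat (nat_lit 0)), (Int.ofNat (nat_lit 0)),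
 [(Int.ofNat (nat_lit 973)), (Int.ofNat (nat_lit 1883)), (Int.ofNat (nat_lit 2682)),
 (Int.ofNat (nat_lit 3412)), (Int.ofNat (nat_lit 4079)), (Int.ofNat (nat_lit 4704)),
 (Int.ofNat (nat_lit 5287)), (Int.ofNat (nat_lit 5831)), (Int.ofNat (nat_lit 6334)),
 (Int.ofNat (nat_lit 6816)), (Int.ofNat (nat_lit 7263)), (Int.ofNat (nat_lit 7683)),
 (Int.ofNat (nat_lit 8080)), (Int.ofNat (nat_lit 8459)), (Int.negSucc (nat_lit 29999)),
 (Int.negSucc (nat_lit 29999)), (Int.negSucc (nat_lit 29999)), (Int.negSucc (nat_lit 29999)),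
 (Int.negSucc (nat_lit 29999)), (Int.negSucc (nat_lit 29999))], []⟩,
    ⟨(nat_lit 3), (nat_lit 1000), (nat_lit 400), (Int.ofNat (nat_lit 0)), (Int.ofNat (nat_lit 0)),
 [(Int.ofNat (nat_lit 755)), (Int.ofNat (nat_lit 1606)), (Int.ofNat (nat_lit 2523)),
 (Int.ofNat (nat_lit 3367)), (Int.ofNat (nat_lit 4091)), (Int.ofNat (nat_lit 4669)),
 (Int.ofNat (nat_lit 5112)), (Int.ofNat (nat_lit 5451)), (Int.ofNat (nat_lit 5678)),
 (Int.ofNat (nat_lit 5816)), (Int.ofNat (nat_lit 5854)), (Int.ofNat (nat_lit 5806)),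
 (Int.ofNat (nat_lit 5659)), (Int.ofNat (nat_lit 5423)), (Int.negSucc (nat_lit 29999)),
 (Int.negSucc (nat_lit 29999)), (Int.negSucc (nat_lit 29999)), (Int.negSucc (nat_lit 29999)),
 (Int.negSucc (nat_lit 29999)), (Int.negSucc (nat_lit 29999))], []⟩,
    ⟨(nat_lit 3), (nat_lit 1000), (nat_lit 1000), (Int.ofNat (nat_lit 0)), (Int.ofNat (nat_lit 0)),
 [(Int.ofNat (nat_lit 704)), (Int.ofNat (nat_lit 1492)), (Int.ofNat (nat_lit 2365)),
 (Int.ofNat (nat_lit 3300)), (Int.ofNat (nat_lit 4132)), (Int.ofNat (nat_lit 4537)),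
 (Int.ofNat (nat_lit 4432)), (Int.ofNat (nat_lit 3948)), (Int.ofNat (nat_lit 3055)),
 (Int.ofNat (nat_lit 1837)), (Int.ofNat (nat_lit 230)), (Int.negSucc (nat_lit 1695)),
 (Int.negSucc (nat_lit 4026)), (Int.negSucc (nat_lit 6713)), (Int.negSucc (nat_lit 29999)),
 (Int.negSucc (nat_lit 29999)), (Int.negSucc (nat_lit 29999)), (Int.negSucc (nat_lit 29999)),
 (Int.negSucc (nat_lit 29999)), (Int.negSucc (nat_lit 29999))], []⟩,
    ⟨(nat_lit 1), (nat_lit 1000), (nat_lit 195), (Int.ofNat (nat_lit 0)), (Int.ofNat (nat_lit 0)),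
 [(Int.ofNat (nat_lit 17497)), (Int.ofNat (nat_lit 1736)), (Int.ofNat (nat_lit 1839)),
 (Int.ofNat (nat_lit 1785)), (Int.ofNat (nat_lit 1616)), (Int.ofNat (nat_lit 1315)),
 (Int.ofNat (nat_lit 907)), (Int.ofNat (nat_lit 376)), (Int.negSucc (nat_lit 269)),
 (Int.negSucc (nat_lit 1053)), (Int.negSucc (nat_lit 1947)), (Int.negSucc (nat_lit 2985)),
 (Int.negSucc (nat_lit 3743)), (Int.negSucc (nat_lit 3139)), (Int.negSucc (nat_lit 29999)),
 (Int.negSucc (nat_lit 29999)), (Int.negSucc (nat_lit 29999)), (Int.negSucc (nat_lit 29999)),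
 (Int.negSucc (nat_lit 29999)), (Int.negSucc (nat_lit 29999))], []⟩,
    ⟨(nat_lit 1), (nat_lit 1000), (nat_lit 250), (Int.ofNat (nat_lit 0)), (Int.ofNat (nat_lit 0)),
 [(Int.ofNat (nat_lit 1004)), (Int.ofNat (nat_lit 1543)), (Int.ofNat (nat_lit 1761)),
 (Int.ofNat (nat_lit 1780)), (Int.ofNat (nat_lit 1615)), (Int.ofNat (nat_lit 1308)),
 (Int.ofNat (nat_lit 840)), (Int.ofNat (nat_lit 238)), (Int.negSucc (nat_lit 520)),
 (Int.negSucc (nat_lit 1413)), (Int.negSucc (nat_lit 2461)), (Int.negSucc (nat_lit 3674)),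
 (Int.negSucc (nat_lit 4634)), (Int.negSucc (nat_lit 4246)), (Int.negSucc (nat_lit 29999)),
 (Int.negSucc (nat_lit 29999)), (Int.negSucc (nat_lit 29999)), (Int.negSucc (nat_lit 29999)),
 (Int.negSucc (nat_lit 29999)), (Int.negSucc (nat_lit 29999))], []⟩,
    ⟨(nat_lit 1), (nat_lit 1000), (nat_lit 400), (Int.ofNat (nat_lit 0)), (Int.ofNat (nat_lit 0)),
 [(Int.ofNat (nat_lit 487)), (Int.ofNat (nat_lit 1102)), (Int.ofNat (nat_lit 1568)),
 (Int.ofNat (nat_lit 1731)), (Int.ofNat (nat_lit 1635)), (Int.ofNat (nat_lit 1264)),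
 (Int.ofNat (nat_lit 676)), (Int.negSucc (nat_lit 141)), (Int.negSucc (nat_lit 1162)),
 (Int.negSucc (nat_lit 2417)), (Int.negSucc (nat_lit 3864)), (Int.negSucc (nat_lit 5553)),
 (Int.negSucc (nat_lit 7063)), (Int.negSucc (nat_lit 7255)), (Int.negSucc (nat_lit 29999)),
 (Int.negSucc (nat_lit 29999)), (Int.negSucc (nat_lit 29999)), (Int.negSucc (nat_lit 29999)),
 (Int.negSucc (nat_lit 29999)), (Int.negSucc (nat_lit 29999))], []⟩,
    ⟨(nat_lit 1), (nat_lit 1000), (nat_lit 1000), (Int.ofNat (nat_lit 0)), (Int.ofNat (nat_lit 0)),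
 [(Int.ofNat (nat_lit 318)), (Int.ofNat (nat_lit 714)), (Int.ofNat (nat_lit 1233)),
 (Int.ofNat (nat_lit 1569)), (Int.ofNat (nat_lit 1683)), (Int.ofNat (nat_lit 1119)),
 (Int.negSucc (nat_lit 4)), (Int.negSucc (nat_lit 1654)), (Int.negSucc (nat_lit 3786)),
 (Int.negSucc (nat_lit 6395)), (Int.negSucc (nat_lit 9468)), (Int.negSucc (nat_lit 13069)),
 (Int.negSucc (nat_lit 16779)), (Int.negSucc (nat_lit 19291)), (Int.negSucc (nat_lit 29999)),
 (Int.negSucc (nat_lit 29999)), (Int.negSucc (nat_lit 29999)), (Int.negSucc (nat_lit 29999)),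
 (Int.negSucc (nat_lit 29999)), (Int.negSucc (nat_lit 29999))], []⟩]⟩
def xL150_60 : Box := ⟨(nat_lit 150), (nat_lit 160), (nat_lit 150), (nat_lit 160), (nat_lit 0), (nat_lit 0),
 (nat_lit 12), (nat_lit 60), (nat_lit 0), (nat_lit 0), [(nat_lit 50), (nat_lit 100), (nat_lit 150),
 (nat_lit 200), (nat_lit 250), (nat_lit 300), (nat_lit 350), (nat_lit 400), (nat_lit 450), (nat_lit 500),
 (nat_lit 550), (nat_lit 600), (nat_lit 650), (nat_lit 700), (nat_lit 750), (nat_lit 800), (nat_lit 850),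
 (nat_lit 900), (nat_lit 950), (nat_lit 1000)], [], [
    ⟨(nat_lit 3), (nat_lit 1000), (nat_lit 250), (Int.ofNat (nat_lit 0)), (Int.ofNat (nat_lit 0)),
 [(Int.ofNat (nat_lit 973)), (Int.ofNat (nat_lit 1883)), (Int.ofNat (nat_lit 2681)),
 (Int.ofNat (nat_lit 3410)), (Int.ofNat (nat_lit 4080)), (Int.ofNat (nat_lit 4704)),
 (Int.ofNat (nat_lit 5283)), (Int.ofNat (nat_lit 5833)), (Int.ofNat (nat_lit 6340)),
 (Int.ofNat (nat_lit 6812)), (Int.ofNat (nat_lit 7259)), (Int.ofNat (nat_lit 7683)),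
 (Int.ofNat (nat_lit 8080)), (Int.ofNat (nat_lit 8459)), (Int.ofNat (nat_lit 8816)),
 (Int.ofNat (nat_lit 9161)), (Int.negSucc (nat_lit 29999)), (Int.negSucc (nat_lit 29999)),
 (Int.negSucc (nat_lit 29999)), (Int.negSucc (nat_lit 29999))], []⟩,
    ⟨(nat_lit 3), (nat_lit 1000), (nat_lit 400), (Int.ofNat (nat_lit 0)), (Int.ofNat (nat_lit 0)),
 [(Int.ofNat (nat_lit 755)), (Int.ofNat (nat_lit 1606)), (Int.ofNat (nat_lit 2523)),
 (Int.ofNat (nat_lit 3367)), (Int.ofNat (nat_lit 4091)), (Int.ofNat (nat_lit 4669)),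
 (Int.ofNat (nat_lit 5112)), (Int.ofNat (nat_lit 5451)), (Int.ofNat (nat_lit 5678)),
 (Int.ofNat (nat_lit 5816)), (Int.ofNat (nat_lit 5854)), (Int.ofNat (nat_lit 5806)),
 (Int.ofNat (nat_lit 5659)), (Int.ofNat (nat_lit 5423)), (Int.ofNat (nat_lit 5077)),
 (Int.ofNat (nat_lit 4624)), (Int.negSucc (nat_lit 29999)), (Int.negSucc (nat_lit 29999)),
 (Int.negSucc (nat_lit 29999)), (Int.negSucc (nat_lit 29999))], []⟩,
    ⟨(nat_lit 3), (nat_lit 1000), (nat_lit 1000), (Int.ofNat (nat_lit 0)), (Int.ofNat (nat_lit 0)),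
 [(Int.ofNat (nat_lit 704)), (Int.ofNat (nat_lit 1492)), (Int.ofNat (nat_lit 2365)),
 (Int.ofNat (nat_lit 3300)), (Int.ofNat (nat_lit 4132)), (Int.ofNat (nat_lit 4531)),
 (Int.ofNat (nat_lit 4426)), (Int.ofNat (nat_lit 3948)), (Int.ofNat (nat_lit 3055)),
 (Int.ofNat (nat_lit 1837)), (Int.ofNat (nat_lit 236)), (Int.negSucc (nat_lit 1689)),
 (Int.negSucc (nat_lit 4026)), (Int.negSucc (nat_lit 6714)), (Int.negSucc (nat_lit 9863)),
 (Int.negSucc (nat_lit 13500)), (Int.negSucc (nat_lit 29999)), (Int.negSucc (nat_lit 29999)),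
 (Int.negSucc (nat_lit 29999)), (Int.negSucc (nat_lit 29999))], []⟩,
    ⟨(nat_lit 1), (nat_lit 1000), (nat_lit 215), (Int.ofNat (nat_lit 0)), (Int.ofNat (nat_lit 0)),
 [(Int.ofNat (nat_lit 2207)), (Int.ofNat (nat_lit 1654)), (Int.ofNat (nat_lit 1814)),
 (Int.ofNat (nat_lit 1782)), (Int.ofNat (nat_lit 1618)), (Int.ofNat (nat_lit 1310)),
 (Int.ofNat (nat_lit 884)), (Int.ofNat (nat_lit 326)), (Int.negSucc (nat_lit 356)),
 (Int.negSucc (nat_lit 1186)), (Int.negSucc (nat_lit 2134)), (Int.negSucc (nat_lit 3235)),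
 (Int.negSucc (nat_lit 4067)), (Int.negSucc (nat_lit 3545)), (Int.negSucc (nat_lit 3022)),
 (Int.negSucc (nat_lit 2473)), (Int.negSucc (nat_lit 29999)), (Int.negSucc (nat_lit 29999)),
 (Int.negSucc (nat_lit 29999)), (Int.negSucc (nat_lit 29999))], []⟩,
    ⟨(nat_lit 1), (nat_lit 1000), (nat_lit 250), (Int.ofNat (nat_lit 0)), (Int.ofNat (nat_lit 0)),
 [(Int.ofNat (nat_lit 992)), (Int.ofNat (nat_lit 1531)), (Int.ofNat (nat_lit 1761)),
 (Int.ofNat (nat_lit 1777)), (Int.ofNat (nat_lit 1615)), (Int.ofNat (nat_lit 1308)),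
 (Int.ofNat (nat_lit 845)), (Int.ofNat (nat_lit 237)), (Int.negSucc (nat_lit 508)),
 (Int.negSucc (nat_lit 1419)), (Int.negSucc (nat_lit 2461)), (Int.negSucc (nat_lit 3674)),
 (Int.negSucc (nat_lit 4632)), (Int.negSucc (nat_lit 4252)), (Int.negSucc (nat_lit 3896)),
 (Int.negSucc (nat_lit 3550)), (Int.negSucc (nat_lit 29999)), (Int.negSucc (nat_lit 29999)),
 (Int.negSucc (nat_lit 29999)), (Int.negSucc (nat_lit 29999))], []⟩,
    ⟨(nat_lit 1), (nat_lit 1000), (nat_lit 400), (Int.ofNat (nat_lit 0)), (Int.ofNat (nat_lit 0)),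
 [(Int.ofNat (nat_lit 487)), (Int.ofNat (nat_lit 1090)), (Int.ofNat (nat_lit 1556)),
 (Int.ofNat (nat_lit 1729)), (Int.ofNat (nat_lit 1635)), (Int.ofNat (nat_lit 1264)),
 (Int.ofNat (nat_lit 676)), (Int.negSucc (nat_lit 146)), (Int.negSucc (nat_lit 1167)),
 (Int.negSucc (nat_lit 2417)), (Int.negSucc (nat_lit 3864)), (Int.negSucc (nat_lit 5553)),
 (Int.negSucc (nat_lit 7057)), (Int.negSucc (nat_lit 7282)), (Int.negSucc (nat_lit 7639)),
 (Int.negSucc (nat_lit 8081)), (Int.negSucc (nat_lit 29999)), (Int.negSucc (nat_lit 29999)),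
 (Int.negSucc (nat_lit 29999)), (Int.negSucc (nat_lit 29999))], []⟩,
    ⟨(nat_lit 1), (nat_lit 1000), (nat_lit 1000), (Int.ofNat (nat_lit 0)), (Int.ofNat (nat_lit 0)),
 [(Int.ofNat (nat_lit 318)), (Int.ofNat (nat_lit 714)), (Int.ofNat (nat_lit 1233)),
 (Int.ofNat (nat_lit 1569)), (Int.ofNat (nat_lit 1683)), (Int.ofNat (nat_lit 1119)),
 (Int.negSucc (nat_lit 4)), (Int.negSucc (nat_lit 1648)), (Int.negSucc (nat_lit 3772)),
 (Int.negSucc (nat_lit 6409)), (Int.negSucc (nat_lit 9472)), (Int.negSucc (nat_lit 13065)),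
 (Int.negSucc (nat_lit 16755)), (Int.negSucc (nat_lit 19398)), (Int.negSucc (nat_lit 22594)),
 (Int.negSucc (nat_lit 26184)), (Int.negSucc (nat_lit 29999)), (Int.negSucc (nat_lit 29999)),
 (Int.negSucc (nat_lit 29999)), (Int.negSucc (nat_lit 29999))], []⟩]⟩
def xL160_20 : Box := ⟨(nat_lit 160), (nat_lit 170), (nat_lit 160), (nat_lit 170), (nat_lit 0), (nat_lit 0),
 (nat_lit 12), (nat_lit 20), (nat_lit 0), (nat_lit 0), [(nat_lit 50), (nat_lit 100), (nat_lit 150),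
 (nat_lit 200), (nat_lit 250), (nat_lit 300), (nat_lit 350), (nat_lit 400), (nat_lit 450), (nat_lit 500),
 (nat_lit 550), (nat_lit 600), (nat_lit 650), (nat_lit 700), (nat_lit 750), (nat_lit 800), (nat_lit 850),
 (nat_lit 900), (nat_lit 950), (nat_lit 1000)], [], [
    ⟨(nat_lit 3), (nat_lit 1000), (nat_lit 250), (Int.ofNat (nat_lit 0)), (Int.ofNat (nat_lit 0)),
 [(Int.ofNat (nat_lit 958)), (Int.ofNat (nat_lit 1855)), (Int.ofNat (nat_lit 2573)),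
 (Int.ofNat (nat_lit 3244)), (Int.ofNat (nat_lit 3840)), (Int.ofNat (nat_lit 4405)),
 (Int.ofNat (nat_lit 4928)), (Int.ofNat (nat_lit 5420)), (Int.ofNat (nat_lit 5896)),
 (Int.ofNat (nat_lit 6405)), (Int.negSucc (nat_lit 29953)), (Int.negSucc (nat_lit 29999)),
 (Int.negSucc (nat_lit 29999)), (Int.negSucc (nat_lit 29999)), (Int.negSucc (nat_lit 29999)),
 (Int.negSucc (nat_lit 29999)), (Int.negSucc (nat_lit 29999)), (Int.negSucc (nat_lit 29999)),
 (Int.negSucc (nat_lit 29999)), (Int.negSucc (nat_lit 29999))], []⟩,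
    ⟨(nat_lit 3), (nat_lit 1000), (nat_lit 400), (Int.ofNat (nat_lit 0)), (Int.ofNat (nat_lit 0)),
 [(Int.ofNat (nat_lit 785)), (Int.ofNat (nat_lit 1658)), (Int.ofNat (nat_lit 2531)),
 (Int.ofNat (nat_lit 3253)), (Int.ofNat (nat_lit 3798)), (Int.ofNat (nat_lit 4206)),
 (Int.ofNat (nat_lit 4505)), (Int.ofNat (nat_lit 4706)), (Int.ofNat (nat_lit 4825)),
 (Int.ofNat (nat_lit 4902)), (Int.negSucc (nat_lit 29962)), (Int.negSucc (nat_lit 29999)),
 (Int.negSucc (nat_lit 29999)), (Int.negSucc (nat_lit 29999)), (Int.negSucc (nat_lit 29999)),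
 (Int.negSucc (nat_lit 29999)), (Int.negSucc (nat_lit 29999)), (Int.negSucc (nat_lit 29999)),
 (Int.negSucc (nat_lit 29999)), (Int.negSucc (nat_lit 29999))], []⟩,
    ⟨(nat_lit 3), (nat_lit 1000), (nat_lit 1000), (Int.ofNat (nat_lit 0)), (Int.ofNat (nat_lit 0)),
 [(Int.ofNat (nat_lit 734)), (Int.ofNat (nat_lit 1554)), (Int.ofNat (nat_lit 2446)),
 (Int.ofNat (nat_lit 3294)), (Int.ofNat (nat_lit 3651)), (Int.ofNat (nat_lit 3434)),
 (Int.ofNat (nat_lit 2850)), (Int.ofNat (nat_lit 1840)), (Int.ofNat (nat_lit 549)),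
 (Int.negSucc (nat_lit 1107)), (Int.negSucc (nat_lit 29990)), (Int.negSucc (nat_lit 29999)),
 (Int.negSucc (nat_lit 29999)), (Int.negSucc (nat_lit 29999)), (Int.negSucc (nat_lit 29999)),
 (Int.negSucc (nat_lit 29999)), (Int.negSucc (nat_lit 29999)), (Int.negSucc (nat_lit 29999)),
 (Int.negSucc (nat_lit 29999)), (Int.negSucc (nat_lit 29999))], []⟩,
    ⟨(nat_lit 1), (nat_lit 1000), (nat_lit 175), (Int.ofNat (nat_lit 0)), (Int.ofNat (nat_lit 0)),
 [(Int.ofNat (nat_lit 8585)), (Int.ofNat (nat_lit 1535)), (Int.ofNat (nat_lit 1546)),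
 (Int.ofNat (nat_lit 1418)), (Int.ofNat (nat_lit 1183)), (Int.ofNat (nat_lit 833)),
 (Int.ofNat (nat_lit 412)), (Int.negSucc (nat_lit 134)), (Int.negSucc (nat_lit 787)),
 (Int.negSucc (nat_lit 1509)), (Int.negSucc (nat_lit 29977)), (Int.negSucc (nat_lit 29999)),
 (Int.negSucc (nat_lit 29999)), (Int.negSucc (nat_lit 29999)), (Int.negSucc (nat_lit 29999)),
 (Int.negSucc (nat_lit 29999)), (Int.negSucc (nat_lit 29999)), (Int.negSucc (nat_lit 29999)),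
 (Int.negSucc (nat_lit 29999)), (Int.negSucc (nat_lit 29999))], []⟩,
    ⟨(nat_lit 1), (nat_lit 1000), (nat_lit 250), (Int.ofNat (nat_lit 0)), (Int.ofNat (nat_lit 0)),
 [(Int.ofNat (nat_lit 931)), (Int.ofNat (nat_lit 1439)), (Int.ofNat (nat_lit 1516)),
 (Int.ofNat (nat_lit 1432)), (Int.ofNat (nat_lit 1156)), (Int.ofNat (nat_lit 762)),
 (Int.ofNat (nat_lit 201)), (Int.negSucc (nat_lit 507)), (Int.negSucc (nat_lit 1325)),
 (Int.negSucc (nat_lit 2248)), (Int.negSucc (nat_lit 29971)), (Int.negSucc (nat_lit 29999)),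
 (Int.negSucc (nat_lit 29999)), (Int.negSucc (nat_lit 29999)), (Int.negSucc (nat_lit 29999)),
 (Int.negSucc (nat_lit 29999)), (Int.negSucc (nat_lit 29999)), (Int.negSucc (nat_lit 29999)),
 (Int.negSucc (nat_lit 29999)), (Int.negSucc (nat_lit 29999))], []⟩,
    ⟨(nat_lit 1), (nat_lit 1000), (nat_lit 400), (Int.ofNat (nat_lit 0)), (Int.ofNat (nat_lit 0)),
 [(Int.ofNat (nat_lit 548)), (Int.ofNat (nat_lit 1161)), (Int.ofNat (nat_lit 1464)),
 (Int.ofNat (nat_lit 1460)), (Int.ofNat (nat_lit 1112)), (Int.ofNat (nat_lit 554)),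
 (Int.negSucc (nat_lit 233)), (Int.negSucc (nat_lit 1209)), (Int.negSucc (nat_lit 2398)),
 (Int.negSucc (nat_lit 3762)), (Int.negSucc (nat_lit 29992)), (Int.negSucc (nat_lit 29999)),
 (Int.negSucc (nat_lit 29999)), (Int.negSucc (nat_lit 29999)), (Int.negSucc (nat_lit 29999)),
 (Int.negSucc (nat_lit 29999)), (Int.negSucc (nat_lit 29999)), (Int.negSucc (nat_lit 29999)),
 (Int.negSucc (nat_lit 29999)), (Int.negSucc (nat_lit 29999))], []⟩,
    ⟨(nat_lit 1), (nat_lit 1000), (nat_lit 1000), (Int.ofNat (nat_lit 0)), (Int.ofNat (nat_lit 0)),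
 [(Int.ofNat (nat_lit 378)), (Int.ofNat (nat_lit 863)), (Int.ofNat (nat_lit 1307)),
 (Int.ofNat (nat_lit 1483)), (Int.ofNat (nat_lit 965)), (Int.negSucc (nat_lit 224)),
 (Int.negSucc (nat_lit 1883)), (Int.negSucc (nat_lit 4087)), (Int.negSucc (nat_lit 6673)),
 (Int.negSucc (nat_lit 9751)), (Int.negSucc (nat_lit 29999)), (Int.negSucc (nat_lit 29999)),
 (Int.negSucc (nat_lit 29999)), (Int.negSucc (nat_lit 29999)), (Int.negSucc (nat_lit 29999)),
 (Int.negSucc (nat_lit 29999)), (Int.negSucc (nat_lit 29999)), (Int.negSucc (nat_lit 29999)),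
 (Int.negSucc (nat_lit 29999)), (Int.negSucc (nat_lit 29999))], []⟩]⟩
def xL160_40 : Box := ⟨(nat_lit 160), (nat_lit 170), (nat_lit 160), (nat_lit 170), (nat_lit 0), (nat_lit 0),
 (nat_lit 12), (nat_lit 40), (nat_lit 0), (nat_lit 0), [(nat_lit 50), (nat_lit 100), (nat_lit 150),
 (nat_lit 200), (nat_lit 250), (nat_lit 300), (nat_lit 350), (nat_lit 400), (nat_lit 450), (nat_lit 500),
 (nat_lit 550), (nat_lit 600), (nat_lit 650), (nat_lit 700), (nat_lit 750), (nat_lit 800), (nat_lit 850),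
 (nat_lit 900), (nat_lit 950), (nat_lit 1000)], [], [
    ⟨(nat_lit 3), (nat_lit 1000), (nat_lit 250), (Int.ofNat (nat_lit 0)), (Int.ofNat (nat_lit 0)),
 [(Int.ofNat (nat_lit 964)), (Int.ofNat (nat_lit 1861)), (Int.ofNat (nat_lit 2578)),
 (Int.ofNat (nat_lit 3244)), (Int.ofNat (nat_lit 3840)), (Int.ofNat (nat_lit 4405)),
 (Int.ofNat (nat_lit 4928)), (Int.ofNat (nat_lit 5426)), (Int.ofNat (nat_lit 5902)),
 (Int.ofNat (nat_lit 6365)), (Int.ofNat (nat_lit 6809)), (Int.ofNat (nat_lit 7254)),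
 (Int.ofNat (nat_lit 7697)), (Int.negSucc (nat_lit 29999)), (Int.negSucc (nat_lit 29999)),
 (Int.negSucc (nat_lit 29999)), (Int.negSucc (nat_lit 29999)), (Int.negSucc (nat_lit 29999)),
 (Int.negSucc (nat_lit 29999)), (Int.negSucc (nat_lit 29999))], []⟩,
    ⟨(nat_lit 3), (nat_lit 1000), (nat_lit 400), (Int.ofNat (nat_lit 0)), (Int.ofNat (nat_lit 0)),
 [(Int.ofNat (nat_lit 785)), (Int.ofNat (nat_lit 1658)), (Int.ofNat (nat_lit 2531)),
 (Int.ofNat (nat_lit 3253)), (Int.ofNat (nat_lit 3798)), (Int.ofNat (nat_lit 4206)),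
 (Int.ofNat (nat_lit 4505)), (Int.ofNat (nat_lit 4706)), (Int.ofNat (nat_lit 4825)),
 (Int.ofNat (nat_lit 4865)), (Int.ofNat (nat_lit 4837)), (Int.ofNat (nat_lit 4740)),
 (Int.ofNat (nat_lit 4580)), (Int.negSucc (nat_lit 29999)), (Int.negSucc (nat_lit 29999)),
 (Int.negSucc (nat_lit 29999)), (Int.negSucc (nat_lit 29999)), (Int.negSucc (nat_lit 29999)),
 (Int.negSucc (nat_lit 29999)), (Int.negSucc (nat_lit 29999))], []⟩,
    ⟨(nat_lit 3), (nat_lit 1000), (nat_lit 1000), (Int.ofNat (nat_lit 0)), (Int.ofNat (nat_lit 0)),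
 [(Int.ofNat (nat_lit 734)), (Int.ofNat (nat_lit 1554)), (Int.ofNat (nat_lit 2446)),
 (Int.ofNat (nat_lit 3299)), (Int.ofNat (nat_lit 3646)), (Int.ofNat (nat_lit 3437)),
 (Int.ofNat (nat_lit 2844)), (Int.ofNat (nat_lit 1844)), (Int.ofNat (nat_lit 544)),
 (Int.negSucc (nat_lit 1112)), (Int.negSucc (nat_lit 3043)), (Int.negSucc (nat_lit 5320)),
 (Int.negSucc (nat_lit 7881)), (Int.negSucc (nat_lit 29999)), (Int.negSucc (nat_lit 29999)),
 (Int.negSucc (nat_lit 29999)), (Int.negSucc (nat_lit 29999)), (Int.negSucc (nat_lit 29999)),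
 (Int.negSucc (nat_lit 29999)), (Int.negSucc (nat_lit 29999))], []⟩,
    ⟨(nat_lit 1), (nat_lit 1000), (nat_lit 190), (Int.ofNat (nat_lit 0)), (Int.ofNat (nat_lit 0)),
 [(Int.ofNat (nat_lit 9384)), (Int.ofNat (nat_lit 1509)), (Int.ofNat (nat_lit 1541)),
 (Int.ofNat (nat_lit 1419)), (Int.ofNat (nat_lit 1185)), (Int.ofNat (nat_lit 820)),
 (Int.ofNat (nat_lit 370)), (Int.negSucc (nat_lit 206)), (Int.negSucc (nat_lit 889)),
 (Int.negSucc (nat_lit 1677)), (Int.negSucc (nat_lit 2563)), (Int.negSucc (nat_lit 3565)),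
 (Int.negSucc (nat_lit 3988)), (Int.negSucc (nat_lit 29999)), (Int.negSucc (nat_lit 29999)),
 (Int.negSucc (nat_lit 29999)), (Int.negSucc (nat_lit 29999)), (Int.negSucc (nat_lit 29999)),
 (Int.negSucc (nat_lit 29999)), (Int.negSucc (nat_lit 29999))], []⟩,
    ⟨(nat_lit 1), (nat_lit 1000), (nat_lit 250), (Int.ofNat (nat_lit 0)), (Int.ofNat (nat_lit 0)),
 [(Int.ofNat (nat_lit 949)), (Int.ofNat (nat_lit 1457)), (Int.ofNat (nat_lit 1507)),
 (Int.ofNat (nat_lit 1440)), (Int.ofNat (nat_lit 1156)), (Int.ofNat (nat_lit 761)),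
 (Int.ofNat (nat_lit 198)), (Int.negSucc (nat_lit 504)), (Int.negSucc (nat_lit 1323)),
 (Int.negSucc (nat_lit 2266)), (Int.negSucc (nat_lit 3357)), (Int.negSucc (nat_lit 4566)),
 (Int.negSucc (nat_lit 5237)), (Int.negSucc (nat_lit 29999)), (Int.negSucc (nat_lit 29999)),
 (Int.negSucc (nat_lit 29999)), (Int.negSucc (nat_lit 29999)), (Int.negSucc (nat_lit 29999)),
 (Int.negSucc (nat_lit 29999)), (Int.negSucc (nat_lit 29999))], []⟩,
    ⟨(nat_lit 1), (nat_lit 1000), (nat_lit 400), (Int.ofNat (nat_lit 0)), (Int.ofNat (nat_lit 0)),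
 [(Int.ofNat (nat_lit 548)), (Int.ofNat (nat_lit 1161)), (Int.ofNat (nat_lit 1464)),
 (Int.ofNat (nat_lit 1460)), (Int.ofNat (nat_lit 1112)), (Int.ofNat (nat_lit 554)),
 (Int.negSucc (nat_lit 233)), (Int.negSucc (nat_lit 1209)), (Int.negSucc (nat_lit 2398)),
 (Int.negSucc (nat_lit 3764)), (Int.negSucc (nat_lit 5331)), (Int.negSucc (nat_lit 7078)),
 (Int.negSucc (nat_lit 8359)), (Int.negSucc (nat_lit 29999)), (Int.negSucc (nat_lit 29999)),
 (Int.negSucc (nat_lit 29999)), (Int.negSucc (nat_lit 29999)), (Int.negSucc (nat_lit 29999)),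
 (Int.negSucc (nat_lit 29999)), (Int.negSucc (nat_lit 29999))], []⟩,
    ⟨(nat_lit 1), (nat_lit 1000), (nat_lit 1000), (Int.ofNat (nat_lit 0)), (Int.ofNat (nat_lit 0)),
 [(Int.ofNat (nat_lit 378)), (Int.ofNat (nat_lit 869)), (Int.ofNat (nat_lit 1300)),
 (Int.ofNat (nat_lit 1490)), (Int.ofNat (nat_lit 958)), (Int.negSucc (nat_lit 219)),
 (Int.negSucc (nat_lit 1889)), (Int.negSucc (nat_lit 4083)), (Int.negSucc (nat_lit 6679)),
 (Int.negSucc (nat_lit 9747)), (Int.negSucc (nat_lit 13207)), (Int.negSucc (nat_lit 17144)),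
 (Int.negSucc (nat_lit 20843)), (Int.negSucc (nat_lit 29999)), (Int.negSucc (nat_lit 29999)),
 (Int.negSucc (nat_lit 29999)), (Int.negSucc (nat_lit 29999)), (Int.negSucc (nat_lit 29999)),
 (Int.negSucc (nat_lit 29999)), (Int.negSucc (nat_lit 29999))], []⟩]⟩
def xL160_60 : Box := ⟨(nat_lit 160), (nat_lit 170), (nat_lit 160), (nat_lit 170), (nat_lit 0), (nat_lit 0),
 (nat_lit 12), (nat_lit 60), (nat_lit 0), (nat_lit 0), [(nat_lit 50), (nat_lit 100), (nat_lit 150),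
 (nat_lit 200), (nat_lit 250), (nat_lit 300), (nat_lit 350), (nat_lit 400), (nat_lit 450), (nat_lit 500),
 (nat_lit 550), (nat_lit 600), (nat_lit 650), (nat_lit 700), (nat_lit 750), (nat_lit 800), (nat_lit 850),
 (nat_lit 900), (nat_lit 950), (nat_lit 1000)], [], [
    ⟨(nat_lit 3), (nat_lit 1000), (nat_lit 250), (Int.ofNat (nat_lit 0)), (Int.ofNat (nat_lit 0)),
 [(Int.ofNat (nat_lit 959)), (Int.ofNat (nat_lit 1866)), (Int.ofNat (nat_lit 2573)),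
 (Int.ofNat (nat_lit 3245)), (Int.ofNat (nat_lit 3840)), (Int.ofNat (nat_lit 4399)),
 (Int.ofNat (nat_lit 4924)), (Int.ofNat (nat_lit 5423)), (Int.ofNat (nat_lit 5899)),
 (Int.ofNat (nat_lit 6359)), (Int.ofNat (nat_lit 6809)), (Int.ofNat (nat_lit 7254)),
 (Int.ofNat (nat_lit 7697)), (Int.ofNat (nat_lit 8144)), (Int.ofNat (nat_lit 8599)),
 (Int.negSucc (nat_lit 29999)), (Int.negSucc (nat_lit 29999)), (Int.negSucc (nat_lit 29999)),
 (Int.negSucc (nat_lit 29999)), (Int.negSucc (nat_lit 29999))], []⟩,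
    ⟨(nat_lit 3), (nat_lit 1000), (nat_lit 400), (Int.ofNat (nat_lit 0)), (Int.ofNat (nat_lit 0)),
 [(Int.ofNat (nat_lit 785)), (Int.ofNat (nat_lit 1658)), (Int.ofNat (nat_lit 2532)),
 (Int.ofNat (nat_lit 3252)), (Int.ofNat (nat_lit 3799)), (Int.ofNat (nat_lit 4211)),
 (Int.ofNat (nat_lit 4512)), (Int.ofNat (nat_lit 4705)), (Int.ofNat (nat_lit 4825)),
 (Int.ofNat (nat_lit 4864)), (Int.ofNat (nat_lit 4838)), (Int.ofNat (nat_lit 4739)),
 (Int.ofNat (nat_lit 4580)), (Int.ofNat (nat_lit 4351)), (Int.ofNat (nat_lit 4057)),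
 (Int.negSucc (nat_lit 29999)), (Int.negSucc (nat_lit 29999)), (Int.negSucc (nat_lit 29999)),
 (Int.negSucc (nat_lit 29999)), (Int.negSucc (nat_lit 29999))], []⟩,
    ⟨(nat_lit 3), (nat_lit 1000), (nat_lit 1000), (Int.ofNat (nat_lit 0)), (Int.ofNat (nat_lit 0)),
 [(Int.ofNat (nat_lit 734)), (Int.ofNat (nat_lit 1554)), (Int.ofNat (nat_lit 2446)),
 (Int.ofNat (nat_lit 3300)), (Int.ofNat (nat_lit 3639)), (Int.ofNat (nat_lit 3432)),
 (Int.ofNat (nat_lit 2843)), (Int.ofNat (nat_lit 1845)), (Int.ofNat (nat_lit 543)),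
 (Int.negSucc (nat_lit 1111)), (Int.negSucc (nat_lit 3044)), (Int.negSucc (nat_lit 5320)),
 (Int.negSucc (nat_lit 7876)), (Int.negSucc (nat_lit 10815)), (Int.negSucc (nat_lit 14097)),
 (Int.negSucc (nat_lit 29999)), (Int.negSucc (nat_lit 29999)), (Int.negSucc (nat_lit 29999)),
 (Int.negSucc (nat_lit 29999)), (Int.negSucc (nat_lit 29999))], []⟩,
    ⟨(nat_lit 1), (nat_lit 1000), (nat_lit 210), (Int.ofNat (nat_lit 0)), (Int.ofNat (nat_lit 0)),
 [(Int.ofNat (nat_lit 1729)), (Int.ofNat (nat_lit 1474)), (Int.ofNat (nat_lit 1536)),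
 (Int.ofNat (nat_lit 1421)), (Int.ofNat (nat_lit 1178)), (Int.ofNat (nat_lit 796)),
 (Int.ofNat (nat_lit 304)), (Int.negSucc (nat_lit 313)), (Int.negSucc (nat_lit 1037)),
 (Int.negSucc (nat_lit 1878)), (Int.negSucc (nat_lit 2826)), (Int.negSucc (nat_lit 3897)),
 (Int.negSucc (nat_lit 4177)), (Int.negSucc (nat_lit 3554)), (Int.negSucc (nat_lit 2899)),
 (Int.negSucc (nat_lit 29999)), (Int.negSucc (nat_lit 29999)), (Int.negSucc (nat_lit 29999)),
 (Int.negSucc (nat_lit 29999)), (Int.negSucc (nat_lit 29999))], []⟩,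
    ⟨(nat_lit 1), (nat_lit 1000), (nat_lit 250), (Int.ofNat (nat_lit 0)), (Int.ofNat (nat_lit 0)),
 [(Int.ofNat (nat_lit 931)), (Int.ofNat (nat_lit 1456)), (Int.ofNat (nat_lit 1508)),
 (Int.ofNat (nat_lit 1441)), (Int.ofNat (nat_lit 1156)), (Int.ofNat (nat_lit 743)),
 (Int.ofNat (nat_lit 186)), (Int.negSucc (nat_lit 498)), (Int.negSucc (nat_lit 1317)),
 (Int.negSucc (nat_lit 2278)), (Int.negSucc (nat_lit 3351)), (Int.negSucc (nat_lit 4571)),
 (Int.negSucc (nat_lit 5014)), (Int.negSucc (nat_lit 4567)), (Int.negSucc (nat_lit 4112)),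
 (Int.negSucc (nat_lit 29999)), (Int.negSucc (nat_lit 29999)), (Int.negSucc (nat_lit 29999)),
 (Int.negSucc (nat_lit 29999)), (Int.negSucc (nat_lit 29999))], []⟩,
    ⟨(nat_lit 1), (nat_lit 1000), (nat_lit 400), (Int.ofNat (nat_lit 0)), (Int.ofNat (nat_lit 0)),
 [(Int.ofNat (nat_lit 548)), (Int.ofNat (nat_lit 1161)), (Int.ofNat (nat_lit 1463)),
 (Int.ofNat (nat_lit 1459)), (Int.ofNat (nat_lit 1112)), (Int.ofNat (nat_lit 554)),
 (Int.negSucc (nat_lit 233)), (Int.negSucc (nat_lit 1209)), (Int.negSucc (nat_lit 2395)),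
 (Int.negSucc (nat_lit 3771)), (Int.negSucc (nat_lit 5323)), (Int.negSucc (nat_lit 7086)),
 (Int.negSucc (nat_lit 8134)), (Int.negSucc (nat_lit 8358)), (Int.negSucc (nat_lit 8657)),
 (Int.negSucc (nat_lit 29999)), (Int.negSucc (nat_lit 29999)), (Int.negSucc (nat_lit 29999)),
 (Int.negSucc (nat_lit 29999)), (Int.negSucc (nat_lit 29999))], []⟩,
    ⟨(nat_lit 1), (nat_lit 1000), (nat_lit 1000), (Int.ofNat (nat_lit 0)), (Int.ofNat (nat_lit 0)),
 [(Int.ofNat (nat_lit 378)), (Int.ofNat (nat_lit 868)), (Int.ofNat (nat_lit 1301)),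
 (Int.ofNat (nat_lit 1489)), (Int.ofNat (nat_lit 959)), (Int.negSucc (nat_lit 220)),
 (Int.negSucc (nat_lit 1889)), (Int.negSucc (nat_lit 4077)), (Int.negSucc (nat_lit 6673)),
 (Int.negSucc (nat_lit 9747)), (Int.negSucc (nat_lit 13207)), (Int.negSucc (nat_lit 17145)),
 (Int.negSucc (nat_lit 20603)), (Int.negSucc (nat_lit 23513)), (Int.negSucc (nat_lit 26829)),
 (Int.negSucc (nat_lit 29999)), (Int.negSucc (nat_lit 29999)), (Int.negSucc (nat_lit 29999)),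
 (Int.negSucc (nat_lit 29999)), (Int.negSucc (nat_lit 29999))], []⟩]⟩
def xL170_20 : Box := ⟨(nat_lit 170), (nat_lit 180), (nat_lit 170), (nat_lit 180), (nat_lit 0), (nat_lit 0),
 (nat_lit 12), (nat_lit 20), (nat_lit 0), (nat_lit 0), [(nat_lit 50), (nat_lit 100), (nat_lit 150),
 (nat_lit 200), (nat_lit 250), (nat_lit 300), (nat_lit 350), (nat_lit 400), (nat_lit 450), (nat_lit 500),
 (nat_lit 550), (nat_lit 600), (nat_lit 650), (nat_lit 700), (nat_lit 750), (nat_lit 800), (nat_lit 850),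
 (nat_lit 900), (nat_lit 950), (nat_lit 1000)], [], [
    ⟨(nat_lit 3), (nat_lit 1000), (nat_lit 250), (Int.ofNat (nat_lit 0)), (Int.ofNat (nat_lit 0)),
 [(Int.ofNat (nat_lit 974)), (Int.ofNat (nat_lit 1766)), (Int.ofNat (nat_lit 2406)),
 (Int.ofNat (nat_lit 2979)), (Int.ofNat (nat_lit 3498)), (Int.ofNat (nat_lit 3989)),
 (Int.ofNat (nat_lit 4456)), (Int.ofNat (nat_lit 4909)), (Int.ofNat (nat_lit 5365)),
 (Int.negSucc (nat_lit 29999)), (Int.negSucc (nat_lit 29999)), (Int.negSucc (nat_lit 29999)),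
 (Int.negSucc (nat_lit 29999)), (Int.negSucc (nat_lit 29999)), (Int.negSucc (nat_lit 29999)),
 (Int.negSucc (nat_lit 29999)), (Int.negSucc (nat_lit 29999)), (Int.negSucc (nat_lit 29999)),
 (Int.negSucc (nat_lit 29999)), (Int.negSucc (nat_lit 29999))], []⟩,
    ⟨(nat_lit 3), (nat_lit 1000), (nat_lit 400), (Int.ofNat (nat_lit 0)), (Int.ofNat (nat_lit 0)),
 [(Int.ofNat (nat_lit 815)), (Int.ofNat (nat_lit 1694)), (Int.ofNat (nat_lit 2431)),
 (Int.ofNat (nat_lit 2918)), (Int.ofNat (nat_lit 3272)), (Int.ofNat (nat_lit 3496)),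
 (Int.ofNat (nat_lit 3646)), (Int.ofNat (nat_lit 3710)), (Int.ofNat (nat_lit 3730)),
 (Int.negSucc (nat_lit 29999)), (Int.negSucc (nat_lit 29999)), (Int.negSucc (nat_lit 29999)),
 (Int.negSucc (nat_lit 29999)), (Int.negSucc (nat_lit 29999)), (Int.negSucc (nat_lit 29999)),
 (Int.negSucc (nat_lit 29999)), (Int.negSucc (nat_lit 29999)), (Int.negSucc (nat_lit 29999)),
 (Int.negSucc (nat_lit 29999)), (Int.negSucc (nat_lit 29999))], []⟩,
    ⟨(nat_lit 3), (nat_lit 1000), (nat_lit 1000), (Int.ofNat (nat_lit 0)), (Int.ofNat (nat_lit 0)),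
 [(Int.ofNat (nat_lit 766)), (Int.ofNat (nat_lit 1609)), (Int.ofNat (nat_lit 2473)),
 (Int.ofNat (nat_lit 2737)), (Int.ofNat (nat_lit 2361)), (Int.ofNat (nat_lit 1571)),
 (Int.ofNat (nat_lit 409)), (Int.negSucc (nat_lit 1064)), (Int.negSucc (nat_lit 2831)),
 (Int.negSucc (nat_lit 29999)), (Int.negSucc (nat_lit 29999)), (Int.negSucc (nat_lit 29999)),
 (Int.negSucc (nat_lit 29999)), (Int.negSucc (nat_lit 29999)), (Int.negSucc (nat_lit 29999)),
 (Int.negSucc (nat_lit 29999)), (Int.negSucc (nat_lit 29999)), (Int.negSucc (nat_lit 29999)),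
 (Int.negSucc (nat_lit 29999)), (Int.negSucc (nat_lit 29999))], []⟩,
    ⟨(nat_lit 1), (nat_lit 1000), (nat_lit 170), (Int.ofNat (nat_lit 0)), (Int.ofNat (nat_lit 0)),
 [(Int.ofNat (nat_lit 8409)), (Int.ofNat (nat_lit 1227)), (Int.ofNat (nat_lit 1159)),
 (Int.ofNat (nat_lit 949)), (Int.ofNat (nat_lit 641)), (Int.ofNat (nat_lit 240)),
 (Int.negSucc (nat_lit 246)), (Int.negSucc (nat_lit 819)), (Int.negSucc (nat_lit 1465)),
 (Int.negSucc (nat_lit 29999)), (Int.negSucc (nat_lit 29999)), (Int.negSucc (nat_lit 29999)),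
 (Int.negSucc (nat_lit 29999)), (Int.negSucc (nat_lit 29999)), (Int.negSucc (nat_lit 29999)),
 (Int.negSucc (nat_lit 29999)), (Int.negSucc (nat_lit 29999)), (Int.negSucc (nat_lit 29999)),
 (Int.negSucc (nat_lit 29999)), (Int.negSucc (nat_lit 29999))], []⟩,
    ⟨(nat_lit 1), (nat_lit 1000), (nat_lit 250), (Int.ofNat (nat_lit 0)), (Int.ofNat (nat_lit 0)),
 [(Int.ofNat (nat_lit 914)), (Int.ofNat (nat_lit 1211)), (Int.ofNat (nat_lit 1166)),
 (Int.ofNat (nat_lit 923)), (Int.ofNat (nat_lit 524)), (Int.negSucc (nat_lit 15)),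
 (Int.negSucc (nat_lit 684)), (Int.negSucc (nat_lit 1461)), (Int.negSucc (nat_lit 2348)),
 (Int.negSucc (nat_lit 29999)), (Int.negSucc (nat_lit 29999)), (Int.negSucc (nat_lit 29999)),
 (Int.negSucc (nat_lit 29999)), (Int.negSucc (nat_lit 29999)), (Int.negSucc (nat_lit 29999)),
 (Int.negSucc (nat_lit 29999)), (Int.negSucc (nat_lit 29999)), (Int.negSucc (nat_lit 29999)),
 (Int.negSucc (nat_lit 29999)), (Int.negSucc (nat_lit 29999))], []⟩,
    ⟨(nat_lit 1), (nat_lit 1000), (nat_lit 400), (Int.ofNat (nat_lit 0)), (Int.ofNat (nat_lit 0)),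
 [(Int.ofNat (nat_lit 611)), (Int.ofNat (nat_lit 1131)), (Int.ofNat (nat_lit 1196)),
 (Int.ofNat (nat_lit 864)), (Int.ofNat (nat_lit 299)), (Int.negSucc (nat_lit 509)),
 (Int.negSucc (nat_lit 1486)), (Int.negSucc (nat_lit 2662)), (Int.negSucc (nat_lit 3981)),
 (Int.negSucc (nat_lit 29999)), (Int.negSucc (nat_lit 29999)), (Int.negSucc (nat_lit 29999)),
 (Int.negSucc (nat_lit 29999)), (Int.negSucc (nat_lit 29999)), (Int.negSucc (nat_lit 29999)),
 (Int.negSucc (nat_lit 29999)), (Int.negSucc (nat_lit 29999)), (Int.negSucc (nat_lit 29999)),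
 (Int.negSucc (nat_lit 29999)), (Int.negSucc (nat_lit 29999))], []⟩,
    ⟨(nat_lit 1), (nat_lit 1000), (nat_lit 1000), (Int.ofNat (nat_lit 0)), (Int.ofNat (nat_lit 0)),
 [(Int.ofNat (nat_lit 441)), (Int.ofNat (nat_lit 947)), (Int.ofNat (nat_lit 1254)),
 (Int.ofNat (nat_lit 663)), (Int.negSucc (nat_lit 614)), (Int.negSucc (nat_lit 2432)),
 (Int.negSucc (nat_lit 4726)), (Int.negSucc (nat_lit 7435)), (Int.negSucc (nat_lit 10545)),
 (Int.negSucc (nat_lit 29999)), (Int.negSucc (nat_lit 29999)), (Int.negSucc (nat_lit 29999)),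
 (Int.negSucc (nat_lit 29999)), (Int.negSucc (nat_lit 29999)), (Int.negSucc (nat_lit 29999)),
 (Int.negSucc (nat_lit 29999)), (Int.negSucc (nat_lit 29999)), (Int.negSucc (nat_lit 29999)),
 (Int.negSucc (nat_lit 29999)), (Int.negSucc (nat_lit 29999))], []⟩]⟩
def xL170_40 : Box := ⟨(nat_lit 170), (nat_lit 180), (nat_lit 170), (nat_lit 180), (nat_lit 0), (nat_lit 0),
 (nat_lit 12), (nat_lit 40), (nat_lit 0), (nat_lit 0), [(nat_lit 50), (nat_lit 100), (nat_lit 150),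
 (nat_lit 200), (nat_lit 250), (nat_lit 300), (nat_lit 350), (nat_lit 400), (nat_lit 450), (nat_lit 500),
 (nat_lit 550), (nat_lit 600), (nat_lit 650), (nat_lit 700), (nat_lit 750), (nat_lit 800), (nat_lit 850),
 (nat_lit 900), (nat_lit 950), (nat_lit 1000)], [], [
    ⟨(nat_lit 3), (nat_lit 1000), (nat_lit 250), (Int.ofNat (nat_lit 0)), (Int.ofNat (nat_lit 0)),
 [(Int.ofNat (nat_lit 980)), (Int.ofNat (nat_lit 1772)), (Int.ofNat (nat_lit 2406)),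
 (Int.ofNat (nat_lit 2979)), (Int.ofNat (nat_lit 3499)), (Int.ofNat (nat_lit 3989)),
 (Int.ofNat (nat_lit 4468)), (Int.ofNat (nat_lit 4927)), (Int.ofNat (nat_lit 5365)),
 (Int.ofNat (nat_lit 5827)), (Int.ofNat (nat_lit 6298)), (Int.ofNat (nat_lit 6781)),
 (Int.negSucc (nat_lit 29999)), (Int.negSucc (nat_lit 29999)), (Int.negSucc (nat_lit 29999)),
 (Int.negSucc (nat_lit 29999)), (Int.negSucc (nat_lit 29999)), (Int.negSucc (nat_lit 29999)),
 (Int.negSucc (nat_lit 29999)), (Int.negSucc (nat_lit 29999))], []⟩,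
    ⟨(nat_lit 3), (nat_lit 1000), (nat_lit 400), (Int.ofNat (nat_lit 0)), (Int.ofNat (nat_lit 0)),
 [(Int.ofNat (nat_lit 815)), (Int.ofNat (nat_lit 1698)), (Int.ofNat (nat_lit 2434)),
 (Int.ofNat (nat_lit 2920)), (Int.ofNat (nat_lit 3270)), (Int.ofNat (nat_lit 3497)),
 (Int.ofNat (nat_lit 3644)), (Int.ofNat (nat_lit 3712)), (Int.ofNat (nat_lit 3727)),
 (Int.ofNat (nat_lit 3687)), (Int.ofNat (nat_lit 3608)), (Int.ofNat (nat_lit 3487)),
 (Int.negSucc (nat_lit 29999)), (Int.negSucc (nat_lit 29999)), (Int.negSucc (nat_lit 29999)),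
 (Int.negSucc (nat_lit 29999)), (Int.negSucc (nat_lit 29999)), (Int.negSucc (nat_lit 29999)),
 (Int.negSucc (nat_lit 29999)), (Int.negSucc (nat_lit 29999))], []⟩,
    ⟨(nat_lit 3), (nat_lit 1000), (nat_lit 1000), (Int.ofNat (nat_lit 0)), (Int.ofNat (nat_lit 0)),
 [(Int.ofNat (nat_lit 766)), (Int.ofNat (nat_lit 1609)), (Int.ofNat (nat_lit 2473)),
 (Int.ofNat (nat_lit 2737)), (Int.ofNat (nat_lit 2351)), (Int.ofNat (nat_lit 1581)),
 (Int.ofNat (nat_lit 401)), (Int.negSucc (nat_lit 1055)), (Int.negSucc (nat_lit 2838)),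
 (Int.negSucc (nat_lit 4844)), (Int.negSucc (nat_lit 7151)), (Int.negSucc (nat_lit 9675)),
 (Int.negSucc (nat_lit 29999)), (Int.negSucc (nat_lit 29999)), (Int.negSucc (nat_lit 29999)),
 (Int.negSucc (nat_lit 29999)), (Int.negSucc (nat_lit 29999)), (Int.negSucc (nat_lit 29999)),
 (Int.negSucc (nat_lit 29999)), (Int.negSucc (nat_lit 29999))], []⟩,
    ⟨(nat_lit 1), (nat_lit 1000), (nat_lit 185), (Int.ofNat (nat_lit 0)), (Int.ofNat (nat_lit 0)),
 [(Int.ofNat (nat_lit 3229)), (Int.ofNat (nat_lit 1224)), (Int.ofNat (nat_lit 1161)),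
 (Int.ofNat (nat_lit 945)), (Int.ofNat (nat_lit 622)), (Int.ofNat (nat_lit 193)),
 (Int.negSucc (nat_lit 328)), (Int.negSucc (nat_lit 938)), (Int.negSucc (nat_lit 1635)),
 (Int.negSucc (nat_lit 2416)), (Int.negSucc (nat_lit 3277)), (Int.negSucc (nat_lit 4224)),
 (Int.negSucc (nat_lit 29999)), (Int.negSucc (nat_lit 29999)), (Int.negSucc (nat_lit 29999)),
 (Int.negSucc (nat_lit 29999)), (Int.negSucc (nat_lit 29999)), (Int.negSucc (nat_lit 29999)),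
 (Int.negSucc (nat_lit 29999)), (Int.negSucc (nat_lit 29999))], []⟩,
    ⟨(nat_lit 1), (nat_lit 1000), (nat_lit 250), (Int.ofNat (nat_lit 0)), (Int.ofNat (nat_lit 0)),
 [(Int.ofNat (nat_lit 932)), (Int.ofNat (nat_lit 1229)), (Int.ofNat (nat_lit 1163)),
 (Int.ofNat (nat_lit 928)), (Int.ofNat (nat_lit 521)), (Int.negSucc (nat_lit 12)),
 (Int.negSucc (nat_lit 669)), (Int.negSucc (nat_lit 1440)), (Int.negSucc (nat_lit 2351)),
 (Int.negSucc (nat_lit 3339)), (Int.negSucc (nat_lit 4445)), (Int.negSucc (nat_lit 5648)),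
 (Int.negSucc (nat_lit 29999)), (Int.negSucc (nat_lit 29999)), (Int.negSucc (nat_lit 29999)),
 (Int.negSucc (nat_lit 29999)), (Int.negSucc (nat_lit 29999)), (Int.negSucc (nat_lit 29999)),
 (Int.negSucc (nat_lit 29999)), (Int.negSucc (nat_lit 29999))], []⟩,
    ⟨(nat_lit 1), (nat_lit 1000), (nat_lit 400), (Int.ofNat (nat_lit 0)), (Int.ofNat (nat_lit 0)),
 [(Int.ofNat (nat_lit 610)), (Int.ofNat (nat_lit 1133)), (Int.ofNat (nat_lit 1194)),
 (Int.ofNat (nat_lit 867)), (Int.ofNat (nat_lit 297)), (Int.negSucc (nat_lit 506)),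
 (Int.negSucc (nat_lit 1489)), (Int.negSucc (nat_lit 2660)), (Int.negSucc (nat_lit 3984)),
 (Int.negSucc (nat_lit 5482)), (Int.negSucc (nat_lit 7128)), (Int.negSucc (nat_lit 8949)),
 (Int.negSucc (nat_lit 29999)), (Int.negSucc (nat_lit 29999)), (Int.negSucc (nat_lit 29999)),
 (Int.negSucc (nat_lit 29999)), (Int.negSucc (nat_lit 29999)), (Int.negSucc (nat_lit 29999)),
 (Int.negSucc (nat_lit 29999)), (Int.negSucc (nat_lit 29999))], []⟩,
    ⟨(nat_lit 1), (nat_lit 1000), (nat_lit 1000), (Int.ofNat (nat_lit 0)), (Int.ofNat (nat_lit 0)),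
 [(Int.ofNat (nat_lit 441)), (Int.ofNat (nat_lit 946)), (Int.ofNat (nat_lit 1239)),
 (Int.ofNat (nat_lit 678)), (Int.negSucc (nat_lit 626)), (Int.negSucc (nat_lit 2420)),
 (Int.negSucc (nat_lit 4736)), (Int.negSucc (nat_lit 7424)), (Int.negSucc (nat_lit 10554)),
 (Int.negSucc (nat_lit 14015)), (Int.negSucc (nat_lit 17898)), (Int.negSucc (nat_lit 22114)),
 (Int.negSucc (nat_lit 29999)), (Int.negSucc (nat_lit 29999)), (Int.negSucc (nat_lit 29999)),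
 (Int.negSucc (nat_lit 29999)), (Int.negSucc (nat_lit 29999)), (Int.negSucc (nat_lit 29999)),
 (Int.negSucc (nat_lit 29999)), (Int.negSucc (nat_lit 29999))], []⟩]⟩
def xL170_60 : Box := ⟨(nat_lit 170), (nat_lit 180), (nat_lit 170), (nat_lit 180), (nat_lit 0), (nat_lit 0),
 (nat_lit 12), (nat_lit 60), (nat_lit 0), (nat_lit 0), [(nat_lit 50), (nat_lit 100), (nat_lit 150),
 (nat_lit 200), (nat_lit 250), (nat_lit 300), (nat_lit 350), (nat_lit 400), (nat_lit 450), (nat_lit 500),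
 (nat_lit 550), (nat_lit 600), (nat_lit 650), (nat_lit 700), (nat_lit 750), (nat_lit 800), (nat_lit 850),
 (nat_lit 900), (nat_lit 950), (nat_lit 1000)], [], [
    ⟨(nat_lit 3), (nat_lit 1000), (nat_lit 250), (Int.ofNat (nat_lit 0)), (Int.ofNat (nat_lit 0)),
 [(Int.ofNat (nat_lit 985)), (Int.ofNat (nat_lit 1765)), (Int.ofNat (nat_lit 2410)),
 (Int.ofNat (nat_lit 2981)), (Int.ofNat (nat_lit 3508)), (Int.ofNat (nat_lit 3998)),
 (Int.ofNat (nat_lit 4468)), (Int.ofNat (nat_lit 4927)), (Int.ofNat (nat_lit 5381)),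
 (Int.ofNat (nat_lit 5827)), (Int.ofNat (nat_lit 6298)), (Int.ofNat (nat_lit 6786)),
 (Int.ofNat (nat_lit 7296)), (Int.ofNat (nat_lit 7831)), (Int.negSucc (nat_lit 29999)),
 (Int.negSucc (nat_lit 29999)), (Int.negSucc (nat_lit 29999)), (Int.negSucc (nat_lit 29999)),
 (Int.negSucc (nat_lit 29999)), (Int.negSucc (nat_lit 29999))], []⟩,
    ⟨(nat_lit 3), (nat_lit 1000), (nat_lit 400), (Int.ofNat (nat_lit 0)), (Int.ofNat (nat_lit 0)),
 [(Int.ofNat (nat_lit 815)), (Int.ofNat (nat_lit 1695)), (Int.ofNat (nat_lit 2431)),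
 (Int.ofNat (nat_lit 2920)), (Int.ofNat (nat_lit 3270)), (Int.ofNat (nat_lit 3497)),
 (Int.ofNat (nat_lit 3644)), (Int.ofNat (nat_lit 3714)), (Int.ofNat (nat_lit 3726)),
 (Int.ofNat (nat_lit 3688)), (Int.ofNat (nat_lit 3607)), (Int.ofNat (nat_lit 3488)),
 (Int.ofNat (nat_lit 3335)), (Int.ofNat (nat_lit 3148)), (Int.negSucc (nat_lit 29999)),
 (Int.negSucc (nat_lit 29999)), (Int.negSucc (nat_lit 29999)), (Int.negSucc (nat_lit 29999)),
 (Int.negSucc (nat_lit 29999)), (Int.negSucc (nat_lit 29999))], []⟩,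
    ⟨(nat_lit 3), (nat_lit 1000), (nat_lit 1000), (Int.ofNat (nat_lit 0)), (Int.ofNat (nat_lit 0)),
 [(Int.ofNat (nat_lit 766)), (Int.ofNat (nat_lit 1609)), (Int.ofNat (nat_lit 2473)),
 (Int.ofNat (nat_lit 2737)), (Int.ofNat (nat_lit 2354)), (Int.ofNat (nat_lit 1578)),
 (Int.ofNat (nat_lit 403)), (Int.negSucc (nat_lit 1058)), (Int.negSucc (nat_lit 2836)),
 (Int.negSucc (nat_lit 4852)), (Int.negSucc (nat_lit 7149)), (Int.negSucc (nat_lit 9678)),
 (Int.negSucc (nat_lit 12498)), (Int.negSucc (nat_lit 15573)), (Int.negSucc (nat_lit 29999)),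
 (Int.negSucc (nat_lit 29999)), (Int.negSucc (nat_lit 29999)), (Int.negSucc (nat_lit 29999)),
 (Int.negSucc (nat_lit 29999)), (Int.negSucc (nat_lit 29999))], []⟩,
    ⟨(nat_lit 1), (nat_lit 1000), (nat_lit 205), (Int.ofNat (nat_lit 0)), (Int.ofNat (nat_lit 0)),
 [(Int.ofNat (nat_lit 1538)), (Int.ofNat (nat_lit 1211)), (Int.ofNat (nat_lit 1176)),
 (Int.ofNat (nat_lit 936)), (Int.ofNat (nat_lit 595)), (Int.ofNat (nat_lit 126)),
 (Int.negSucc (nat_lit 422)), (Int.negSucc (nat_lit 1087)), (Int.negSucc (nat_lit 1836)),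
 (Int.negSucc (nat_lit 2703)), (Int.negSucc (nat_lit 3633)), (Int.negSucc (nat_lit 4665)),
 (Int.negSucc (nat_lit 4226)), (Int.negSucc (nat_lit 3476)), (Int.negSucc (nat_lit 29999)),
 (Int.negSucc (nat_lit 29999)), (Int.negSucc (nat_lit 29999)), (Int.negSucc (nat_lit 29999)),
 (Int.negSucc (nat_lit 29999)), (Int.negSucc (nat_lit 29999))], []⟩,
    ⟨(nat_lit 1), (nat_lit 1000), (nat_lit 250), (Int.ofNat (nat_lit 0)), (Int.ofNat (nat_lit 0)),
 [(Int.ofNat (nat_lit 937)), (Int.ofNat (nat_lit 1202)), (Int.ofNat (nat_lit 1170)),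
 (Int.ofNat (nat_lit 924)), (Int.ofNat (nat_lit 527)), (Int.negSucc (nat_lit 5)),
 (Int.negSucc (nat_lit 664)), (Int.negSucc (nat_lit 1446)), (Int.negSucc (nat_lit 2340)),
 (Int.negSucc (nat_lit 3344)), (Int.negSucc (nat_lit 4440)), (Int.negSucc (nat_lit 5653)),
 (Int.negSucc (nat_lit 5415)), (Int.negSucc (nat_lit 4880)), (Int.negSucc (nat_lit 29999)),
 (Int.negSucc (nat_lit 29999)), (Int.negSucc (nat_lit 29999)), (Int.negSucc (nat_lit 29999)),
 (Int.negSucc (nat_lit 29999)), (Int.negSucc (nat_lit 29999))], []⟩,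
    ⟨(nat_lit 1), (nat_lit 1000), (nat_lit 400), (Int.ofNat (nat_lit 0)), (Int.ofNat (nat_lit 0)),
 [(Int.ofNat (nat_lit 614)), (Int.ofNat (nat_lit 1136)), (Int.ofNat (nat_lit 1200)),
 (Int.ofNat (nat_lit 866)), (Int.ofNat (nat_lit 302)), (Int.negSucc (nat_lit 501)),
 (Int.negSucc (nat_lit 1483)), (Int.negSucc (nat_lit 2660)), (Int.negSucc (nat_lit 3983)),
 (Int.negSucc (nat_lit 5483)), (Int.negSucc (nat_lit 7128)), (Int.negSucc (nat_lit 8950)),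
 (Int.negSucc (nat_lit 9381)), (Int.negSucc (nat_lit 9552)), (Int.negSucc (nat_lit 29999)),
 (Int.negSucc (nat_lit 29999)), (Int.negSucc (nat_lit 29999)), (Int.negSucc (nat_lit 29999)),
 (Int.negSucc (nat_lit 29999)), (Int.negSucc (nat_lit 29999))], []⟩,
    ⟨(nat_lit 1), (nat_lit 1000), (nat_lit 1000), (Int.ofNat (nat_lit 0)), (Int.ofNat (nat_lit 0)),
 [(Int.ofNat (nat_lit 441)), (Int.ofNat (nat_lit 946)), (Int.ofNat (nat_lit 1244)),
 (Int.ofNat (nat_lit 673)), (Int.negSucc (nat_lit 623)), (Int.negSucc (nat_lit 2423)),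
 (Int.negSucc (nat_lit 4734)), (Int.negSucc (nat_lit 7427)), (Int.negSucc (nat_lit 10535)),
 (Int.negSucc (nat_lit 14036)), (Int.negSucc (nat_lit 17880)), (Int.negSucc (nat_lit 22134)),
 (Int.negSucc (nat_lit 25243)), (Int.negSucc (nat_lit 28196)), (Int.negSucc (nat_lit 29999)),
 (Int.negSucc (nat_lit 29999)), (Int.negSucc (nat_lit 29999)), (Int.negSucc (nat_lit 29999)),
 (Int.negSucc (nat_lit 29999)), (Int.negSucc (nat_lit 29999))], []⟩]⟩
def xL180_20 : Box := ⟨(nat_lit 180), (nat_lit 190), (nat_lit 180), (nat_lit 190), (nat_lit 0), (nat_lit 0),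
 (nat_lit 12), (nat_lit 20), (nat_lit 0), (nat_lit 0), [(nat_lit 50), (nat_lit 100), (nat_lit 150),
 (nat_lit 200), (nat_lit 250), (nat_lit 300), (nat_lit 350), (nat_lit 400), (nat_lit 450), (nat_lit 500),
 (nat_lit 550), (nat_lit 600), (nat_lit 650), (nat_lit 700), (nat_lit 750), (nat_lit 800), (nat_lit 850),
 (nat_lit 900), (nat_lit 950), (nat_lit 1000)], [], [
    ⟨(nat_lit 3), (nat_lit 1000), (nat_lit 250), (Int.ofNat (nat_lit 0)), (Int.ofNat (nat_lit 0)),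
 [(Int.ofNat (nat_lit 954)), (Int.ofNat (nat_lit 1597)), (Int.ofNat (nat_lit 2118)),
 (Int.ofNat (nat_lit 2577)), (Int.ofNat (nat_lit 3004)), (Int.ofNat (nat_lit 3418)),
 (Int.ofNat (nat_lit 3837)), (Int.ofNat (nat_lit 4264)), (Int.negSucc (nat_lit 29999)),
 (Int.negSucc (nat_lit 29999)), (Int.negSucc (nat_lit 29999)), (Int.negSucc (nat_lit 29999)),
 (Int.negSucc (nat_lit 29999)), (Int.negSucc (nat_lit 29999)), (Int.negSucc (nat_lit 29999)),
 (Int.negSucc (nat_lit 29999)), (Int.negSucc (nat_lit 29999)), (Int.negSucc (nat_lit 29999)),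
 (Int.negSucc (nat_lit 29999)), (Int.negSucc (nat_lit 29999))], []⟩,
    ⟨(nat_lit 3), (nat_lit 1000), (nat_lit 400), (Int.ofNat (nat_lit 0)), (Int.ofNat (nat_lit 0)),
 [(Int.ofNat (nat_lit 860)), (Int.ofNat (nat_lit 1628)), (Int.ofNat (nat_lit 2036)),
 (Int.ofNat (nat_lit 2286)), (Int.ofNat (nat_lit 2400)), (Int.ofNat (nat_lit 2452)),
 (Int.ofNat (nat_lit 2432)), (Int.ofNat (nat_lit 2386)), (Int.negSucc (nat_lit 29999)),
 (Int.negSucc (nat_lit 29999)), (Int.negSucc (nat_lit 29999)), (Int.negSucc (nat_lit 29999)),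
 (Int.negSucc (nat_lit 29999)), (Int.negSucc (nat_lit 29999)), (Int.negSucc (nat_lit 29999)),
 (Int.negSucc (nat_lit 29999)), (Int.negSucc (nat_lit 29999)), (Int.negSucc (nat_lit 29999)),
 (Int.negSucc (nat_lit 29999)), (Int.negSucc (nat_lit 29999))], []⟩,
    ⟨(nat_lit 3), (nat_lit 1000), (nat_lit 1000), (Int.ofNat (nat_lit 0)), (Int.ofNat (nat_lit 0)),
 [(Int.ofNat (nat_lit 796)), (Int.ofNat (nat_lit 1712)), (Int.ofNat (nat_lit 1760)),
 (Int.ofNat (nat_lit 1120)), (Int.ofNat (nat_lit 31)), (Int.negSucc (nat_lit 1429)),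
 (Int.negSucc (nat_lit 3164)), (Int.negSucc (nat_lit 5227)), (Int.negSucc (nat_lit 29999)),
 (Int.negSucc (nat_lit 29999)), (Int.negSucc (nat_lit 29999)), (Int.negSucc (nat_lit 29999)),
 (Int.negSucc (nat_lit 29999)), (Int.negSucc (nat_lit 29999)), (Int.negSucc (nat_lit 29999)),
 (Int.negSucc (nat_lit 29999)), (Int.negSucc (nat_lit 29999)), (Int.negSucc (nat_lit 29999)),
 (Int.negSucc (nat_lit 29999)), (Int.negSucc (nat_lit 29999))], []⟩,
    ⟨(nat_lit 1), (nat_lit 1000), (nat_lit 165), (Int.ofNat (nat_lit 0)), (Int.ofNat (nat_lit 0)),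
 [(Int.ofNat (nat_lit 5536)), (Int.ofNat (nat_lit 838)), (Int.ofNat (nat_lit 645)),
 (Int.ofNat (nat_lit 337)), (Int.negSucc (nat_lit 55)), (Int.negSucc (nat_lit 524)),
 (Int.negSucc (nat_lit 1055)), (Int.negSucc (nat_lit 1664)), (Int.negSucc (nat_lit 29999)),
 (Int.negSucc (nat_lit 29999)), (Int.negSucc (nat_lit 29999)), (Int.negSucc (nat_lit 29999)),
 (Int.negSucc (nat_lit 29999)), (Int.negSucc (nat_lit 29999)), (Int.negSucc (nat_lit 29999)),
 (Int.negSucc (nat_lit 29999)), (Int.negSucc (nat_lit 29999)), (Int.negSucc (nat_lit 29999)),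
 (Int.negSucc (nat_lit 29999)), (Int.negSucc (nat_lit 29999))], []⟩,
    ⟨(nat_lit 1), (nat_lit 1000), (nat_lit 250), (Int.ofNat (nat_lit 0)), (Int.ofNat (nat_lit 0)),
 [(Int.ofNat (nat_lit 908)), (Int.ofNat (nat_lit 851)), (Int.ofNat (nat_lit 609)),
 (Int.ofNat (nat_lit 178)), (Int.negSucc (nat_lit 386)), (Int.negSucc (nat_lit 1072)),
 (Int.negSucc (nat_lit 1847)), (Int.negSucc (nat_lit 2740)), (Int.negSucc (nat_lit 29999)),
 (Int.negSucc (nat_lit 29999)), (Int.negSucc (nat_lit 29999)), (Int.negSucc (nat_lit 29999)),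
 (Int.negSucc (nat_lit 29999)), (Int.negSucc (nat_lit 29999)), (Int.negSucc (nat_lit 29999)),
 (Int.negSucc (nat_lit 29999)), (Int.negSucc (nat_lit 29999)), (Int.negSucc (nat_lit 29999)),
 (Int.negSucc (nat_lit 29999)), (Int.negSucc (nat_lit 29999))], []⟩,
    ⟨(nat_lit 1), (nat_lit 1000), (nat_lit 400), (Int.ofNat (nat_lit 0)), (Int.ofNat (nat_lit 0)),
 [(Int.ofNat (nat_lit 708)), (Int.ofNat (nat_lit 896)), (Int.ofNat (nat_lit 523)),
 (Int.negSucc (nat_lit 104)), (Int.negSucc (nat_lit 995)), (Int.negSucc (nat_lit 2031)),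
 (Int.negSucc (nat_lit 3258)), (Int.negSucc (nat_lit 4603)), (Int.negSucc (nat_lit 29999)),
 (Int.negSucc (nat_lit 29999)), (Int.negSucc (nat_lit 29999)), (Int.negSucc (nat_lit 29999)),
 (Int.negSucc (nat_lit 29999)), (Int.negSucc (nat_lit 29999)), (Int.negSucc (nat_lit 29999)),
 (Int.negSucc (nat_lit 29999)), (Int.negSucc (nat_lit 29999)), (Int.negSucc (nat_lit 29999)),
 (Int.negSucc (nat_lit 29999)), (Int.negSucc (nat_lit 29999))], []⟩,
    ⟨(nat_lit 1), (nat_lit 1000), (nat_lit 1000), (Int.ofNat (nat_lit 0)), (Int.ofNat (nat_lit 0)),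
 [(Int.ofNat (nat_lit 502)), (Int.ofNat (nat_lit 969)), (Int.ofNat (nat_lit 252)),
 (Int.negSucc (nat_lit 1270)), (Int.negSucc (nat_lit 3353)), (Int.negSucc (nat_lit 5918)),
 (Int.negSucc (nat_lit 8849)), (Int.negSucc (nat_lit 12237)), (Int.negSucc (nat_lit 29999)),
 (Int.negSucc (nat_lit 29999)), (Int.negSucc (nat_lit 29999)), (Int.negSucc (nat_lit 29999)),
 (Int.negSucc (nat_lit 29999)), (Int.negSucc (nat_lit 29999)), (Int.negSucc (nat_lit 29999)),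
 (Int.negSucc (nat_lit 29999)), (Int.negSucc (nat_lit 29999)), (Int.negSucc (nat_lit 29999)),
 (Int.negSucc (nat_lit 29999)), (Int.negSucc (nat_lit 29999))], []⟩]⟩
def xL180_40 : Box := ⟨(nat_lit 180), (nat_lit 190), (nat_lit 180), (nat_lit 190), (nat_lit 0), (nat_lit 0),
 (nat_lit 12), (nat_lit 40), (nat_lit 0), (nat_lit 0), [(nat_lit 50), (nat_lit 100), (nat_lit 150),
 (nat_lit 200), (nat_lit 250), (nat_lit 300), (nat_lit 350), (nat_lit 400), (nat_lit 450), (nat_lit 500),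
 (nat_lit 550), (nat_lit 600), (nat_lit 650), (nat_lit 700), (nat_lit 750), (nat_lit 800), (nat_lit 850),
 (nat_lit 900), (nat_lit 950), (nat_lit 1000)], [], [
    ⟨(nat_lit 3), (nat_lit 1000), (nat_lit 250), (Int.ofNat (nat_lit 0)), (Int.ofNat (nat_lit 0)),
 [(Int.ofNat (nat_lit 955)), (Int.ofNat (nat_lit 1602)), (Int.ofNat (nat_lit 2118)),
 (Int.ofNat (nat_lit 2577)), (Int.ofNat (nat_lit 3004)), (Int.ofNat (nat_lit 3422)),
 (Int.ofNat (nat_lit 3843)), (Int.ofNat (nat_lit 4289)), (Int.ofNat (nat_lit 4743)),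
 (Int.ofNat (nat_lit 5295)), (Int.negSucc (nat_lit 29911)), (Int.negSucc (nat_lit 29999)),
 (Int.negSucc (nat_lit 29999)), (Int.negSucc (nat_lit 29999)), (Int.negSucc (nat_lit 29999)),
 (Int.negSucc (nat_lit 29999)), (Int.negSucc (nat_lit 29999)), (Int.negSucc (nat_lit 29999)),
 (Int.negSucc (nat_lit 29999)), (Int.negSucc (nat_lit 29999))], []⟩,
    ⟨(nat_lit 3), (nat_lit 1000), (nat_lit 400), (Int.ofNat (nat_lit 0)), (Int.ofNat (nat_lit 0)),
 [(Int.ofNat (nat_lit 864)), (Int.ofNat (nat_lit 1624)), (Int.ofNat (nat_lit 2038)),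
 (Int.ofNat (nat_lit 2284)), (Int.ofNat (nat_lit 2407)), (Int.ofNat (nat_lit 2456)),
 (Int.ofNat (nat_lit 2434)), (Int.ofNat (nat_lit 2384)), (Int.ofNat (nat_lit 2304)),
 (Int.ofNat (nat_lit 2288)), (Int.negSucc (nat_lit 29920)), (Int.negSucc (nat_lit 29999)),
 (Int.negSucc (nat_lit 29999)), (Int.negSucc (nat_lit 29999)), (Int.negSucc (nat_lit 29999)),
 (Int.negSucc (nat_lit 29999)), (Int.negSucc (nat_lit 29999)), (Int.negSucc (nat_lit 29999)),
 (Int.negSucc (nat_lit 29999)), (Int.negSucc (nat_lit 29999))], []⟩,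
    ⟨(nat_lit 3), (nat_lit 1000), (nat_lit 1000), (Int.ofNat (nat_lit 0)), (Int.ofNat (nat_lit 0)),
 [(Int.ofNat (nat_lit 797)), (Int.ofNat (nat_lit 1681)), (Int.ofNat (nat_lit 1797)),
 (Int.ofNat (nat_lit 1117)), (Int.ofNat (nat_lit 39)), (Int.negSucc (nat_lit 1436)),
 (Int.negSucc (nat_lit 3150)), (Int.negSucc (nat_lit 5159)), (Int.negSucc (nat_lit 7345)),
 (Int.negSucc (nat_lit 9746)), (Int.negSucc (nat_lit 29968)), (Int.negSucc (nat_lit 29999)),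
 (Int.negSucc (nat_lit 29999)), (Int.negSucc (nat_lit 29999)), (Int.negSucc (nat_lit 29999)),
 (Int.negSucc (nat_lit 29999)), (Int.negSucc (nat_lit 29999)), (Int.negSucc (nat_lit 29999)),
 (Int.negSucc (nat_lit 29999)), (Int.negSucc (nat_lit 29999))], []⟩,
    ⟨(nat_lit 1), (nat_lit 1000), (nat_lit 185), (Int.ofNat (nat_lit 0)), (Int.ofNat (nat_lit 0)),
 [(Int.ofNat (nat_lit 1962)), (Int.ofNat (nat_lit 839)), (Int.ofNat (nat_lit 638)),
 (Int.ofNat (nat_lit 297)), (Int.negSucc (nat_lit 132)), (Int.negSucc (nat_lit 653)),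
 (Int.negSucc (nat_lit 1236)), (Int.negSucc (nat_lit 1895)), (Int.negSucc (nat_lit 2610)),
 (Int.negSucc (nat_lit 3345)), (Int.negSucc (nat_lit 29944)), (Int.negSucc (nat_lit 29999)),
 (Int.negSucc (nat_lit 29999)), (Int.negSucc (nat_lit 29999)), (Int.negSucc (nat_lit 29999)),
 (Int.negSucc (nat_lit 29999)), (Int.negSucc (nat_lit 29999)), (Int.negSucc (nat_lit 29999)),
 (Int.negSucc (nat_lit 29999)), (Int.negSucc (nat_lit 29999))], []⟩,
    ⟨(nat_lit 1), (nat_lit 1000), (nat_lit 250), (Int.ofNat (nat_lit 0)), (Int.ofNat (nat_lit 0)),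
 [(Int.ofNat (nat_lit 910)), (Int.ofNat (nat_lit 854)), (Int.ofNat (nat_lit 615)),
 (Int.ofNat (nat_lit 176)), (Int.negSucc (nat_lit 383)), (Int.negSucc (nat_lit 1069)),
 (Int.negSucc (nat_lit 1840)), (Int.negSucc (nat_lit 2701)), (Int.negSucc (nat_lit 3645)),
 (Int.negSucc (nat_lit 4649)), (Int.negSucc (nat_lit 29950)), (Int.negSucc (nat_lit 29999)),
 (Int.negSucc (nat_lit 29999)), (Int.negSucc (nat_lit 29999)), (Int.negSucc (nat_lit 29999)),
 (Int.negSucc (nat_lit 29999)), (Int.negSucc (nat_lit 29999)), (Int.negSucc (nat_lit 29999)),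
 (Int.negSucc (nat_lit 29999)), (Int.negSucc (nat_lit 29999))], []⟩,
    ⟨(nat_lit 1), (nat_lit 1000), (nat_lit 400), (Int.ofNat (nat_lit 0)), (Int.ofNat (nat_lit 0)),
 [(Int.ofNat (nat_lit 708)), (Int.ofNat (nat_lit 896)), (Int.ofNat (nat_lit 529)),
 (Int.negSucc (nat_lit 110)), (Int.negSucc (nat_lit 990)), (Int.negSucc (nat_lit 2037)),
 (Int.negSucc (nat_lit 3253)), (Int.negSucc (nat_lit 4598)), (Int.negSucc (nat_lit 6080)),
 (Int.negSucc (nat_lit 7655)), (Int.negSucc (nat_lit 29962)), (Int.negSucc (nat_lit 29999)),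
 (Int.negSucc (nat_lit 29999)), (Int.negSucc (nat_lit 29999)), (Int.negSucc (nat_lit 29999)),
 (Int.negSucc (nat_lit 29999)), (Int.negSucc (nat_lit 29999)), (Int.negSucc (nat_lit 29999)),
 (Int.negSucc (nat_lit 29999)), (Int.negSucc (nat_lit 29999))], []⟩,
    ⟨(nat_lit 1), (nat_lit 1000), (nat_lit 1000), (Int.ofNat (nat_lit 0)), (Int.ofNat (nat_lit 0)),
 [(Int.ofNat (nat_lit 502)), (Int.ofNat (nat_lit 955)), (Int.ofNat (nat_lit 267)),
 (Int.negSucc (nat_lit 1280)), (Int.negSucc (nat_lit 3342)), (Int.negSucc (nat_lit 5926)),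
 (Int.negSucc (nat_lit 8839)), (Int.negSucc (nat_lit 12152)), (Int.negSucc (nat_lit 15737)),
 (Int.negSucc (nat_lit 19679)), (Int.negSucc (nat_lit 29999)), (Int.negSucc (nat_lit 29999)),
 (Int.negSucc (nat_lit 29999)), (Int.negSucc (nat_lit 29999)), (Int.negSucc (nat_lit 29999)),
 (Int.negSucc (nat_lit 29999)), (Int.negSucc (nat_lit 29999)), (Int.negSucc (nat_lit 29999)),
 (Int.negSucc (nat_lit 29999)), (Int.negSucc (nat_lit 29999))], []⟩]⟩
def xL180_60 : Box := ⟨(nat_lit 180), (nat_lit 190), (nat_lit 180), (nat_lit 190), (nat_lit 0), (nat_lit 0),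
 (nat_lit 12), (nat_lit 60), (nat_lit 0), (nat_lit 0), [(nat_lit 50), (nat_lit 100), (nat_lit 150),
 (nat_lit 200), (nat_lit 250), (nat_lit 300), (nat_lit 350), (nat_lit 400), (nat_lit 450), (nat_lit 500),
 (nat_lit 550), (nat_lit 600), (nat_lit 650), (nat_lit 700), (nat_lit 750), (nat_lit 800), (nat_lit 850),
 (nat_lit 900), (nat_lit 950), (nat_lit 1000)], [], [
    ⟨(nat_lit 3), (nat_lit 1000), (nat_lit 250), (Int.ofNat (nat_lit 0)), (Int.ofNat (nat_lit 0)),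
 [(Int.ofNat (nat_lit 957)), (Int.ofNat (nat_lit 1602)), (Int.ofNat (nat_lit 2113)),
 (Int.ofNat (nat_lit 2577)), (Int.ofNat (nat_lit 3004)), (Int.ofNat (nat_lit 3422)),
 (Int.ofNat (nat_lit 3854)), (Int.ofNat (nat_lit 4288)), (Int.ofNat (nat_lit 4743)),
 (Int.ofNat (nat_lit 5225)), (Int.ofNat (nat_lit 5742)), (Int.ofNat (nat_lit 6282)),
 (Int.ofNat (nat_lit 6870)), (Int.negSucc (nat_lit 29999)), (Int.negSucc (nat_lit 29999)),
 (Int.negSucc (nat_lit 29999)), (Int.negSucc (nat_lit 29999)), (Int.negSucc (nat_lit 29999)),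
 (Int.negSucc (nat_lit 29999)), (Int.negSucc (nat_lit 29999))], []⟩,
    ⟨(nat_lit 3), (nat_lit 1000), (nat_lit 400), (Int.ofNat (nat_lit 0)), (Int.ofNat (nat_lit 0)),
 [(Int.ofNat (nat_lit 863)), (Int.ofNat (nat_lit 1625)), (Int.ofNat (nat_lit 2038)),
 (Int.ofNat (nat_lit 2289)), (Int.ofNat (nat_lit 2406)), (Int.ofNat (nat_lit 2450)),
 (Int.ofNat (nat_lit 2434)), (Int.ofNat (nat_lit 2384)), (Int.ofNat (nat_lit 2304)),
 (Int.ofNat (nat_lit 2209)), (Int.ofNat (nat_lit 2102)), (Int.ofNat (nat_lit 1991)),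
 (Int.ofNat (nat_lit 1879)), (Int.negSucc (nat_lit 29999)), (Int.negSucc (nat_lit 29999)),
 (Int.negSucc (nat_lit 29999)), (Int.negSucc (nat_lit 29999)), (Int.negSucc (nat_lit 29999)),
 (Int.negSucc (nat_lit 29999)), (Int.negSucc (nat_lit 29999))], []⟩,
    ⟨(nat_lit 3), (nat_lit 1000), (nat_lit 1000), (Int.ofNat (nat_lit 0)), (Int.ofNat (nat_lit 0)),
 [(Int.ofNat (nat_lit 796)), (Int.ofNat (nat_lit 1681)), (Int.ofNat (nat_lit 1791)),
 (Int.ofNat (nat_lit 1115)), (Int.ofNat (nat_lit 35)), (Int.negSucc (nat_lit 1432)),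
 (Int.negSucc (nat_lit 3154)), (Int.negSucc (nat_lit 5156)), (Int.negSucc (nat_lit 7349)),
 (Int.negSucc (nat_lit 9774)), (Int.negSucc (nat_lit 12354)), (Int.negSucc (nat_lit 15150)),
 (Int.negSucc (nat_lit 18121)), (Int.negSucc (nat_lit 29999)), (Int.negSucc (nat_lit 29999)),
 (Int.negSucc (nat_lit 29999)), (Int.negSucc (nat_lit 29999)), (Int.negSucc (nat_lit 29999)),
 (Int.negSucc (nat_lit 29999)), (Int.negSucc (nat_lit 29999))], []⟩,
    ⟨(nat_lit 1), (nat_lit 1000), (nat_lit 200), (Int.ofNat (nat_lit 0)), (Int.ofNat (nat_lit 0)),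
 [(Int.ofNat (nat_lit 1435)), (Int.ofNat (nat_lit 842)), (Int.ofNat (nat_lit 630)),
 (Int.ofNat (nat_lit 269)), (Int.negSucc (nat_lit 186)), (Int.negSucc (nat_lit 744)),
 (Int.negSucc (nat_lit 1366)), (Int.negSucc (nat_lit 2074)), (Int.negSucc (nat_lit 2841)),
 (Int.negSucc (nat_lit 3679)), (Int.negSucc (nat_lit 4580)), (Int.negSucc (nat_lit 4999)),
 (Int.negSucc (nat_lit 4178)), (Int.negSucc (nat_lit 29999)), (Int.negSucc (nat_lit 29999)),
 (Int.negSucc (nat_lit 29999)), (Int.negSucc (nat_lit 29999)), (Int.negSucc (nat_lit 29999)),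
 (Int.negSucc (nat_lit 29999)), (Int.negSucc (nat_lit 29999))], []⟩,
    ⟨(nat_lit 1), (nat_lit 1000), (nat_lit 250), (Int.ofNat (nat_lit 0)), (Int.ofNat (nat_lit 0)),
 [(Int.ofNat (nat_lit 910)), (Int.ofNat (nat_lit 856)), (Int.ofNat (nat_lit 607)),
 (Int.ofNat (nat_lit 178)), (Int.negSucc (nat_lit 384)), (Int.negSucc (nat_lit 1068)),
 (Int.negSucc (nat_lit 1837)), (Int.negSucc (nat_lit 2708)), (Int.negSucc (nat_lit 3658)),
 (Int.negSucc (nat_lit 4695)), (Int.negSucc (nat_lit 5804)), (Int.negSucc (nat_lit 6430)),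
 (Int.negSucc (nat_lit 5842)), (Int.negSucc (nat_lit 29999)), (Int.negSucc (nat_lit 29999)),
 (Int.negSucc (nat_lit 29999)), (Int.negSucc (nat_lit 29999)), (Int.negSucc (nat_lit 29999)),
 (Int.negSucc (nat_lit 29999)), (Int.negSucc (nat_lit 29999))], []⟩,
    ⟨(nat_lit 1), (nat_lit 1000), (nat_lit 400), (Int.ofNat (nat_lit 0)), (Int.ofNat (nat_lit 0)),
 [(Int.ofNat (nat_lit 721)), (Int.ofNat (nat_lit 885)), (Int.ofNat (nat_lit 534)),
 (Int.negSucc (nat_lit 103)), (Int.negSucc (nat_lit 985)), (Int.negSucc (nat_lit 2030)),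
 (Int.negSucc (nat_lit 3248)), (Int.negSucc (nat_lit 4591)), (Int.negSucc (nat_lit 6086)),
 (Int.negSucc (nat_lit 7686)), (Int.negSucc (nat_lit 9424)), (Int.negSucc (nat_lit 10721)),
 (Int.negSucc (nat_lit 10832)), (Int.negSucc (nat_lit 29999)), (Int.negSucc (nat_lit 29999)),
 (Int.negSucc (nat_lit 29999)), (Int.negSucc (nat_lit 29999)), (Int.negSucc (nat_lit 29999)),
 (Int.negSucc (nat_lit 29999)), (Int.negSucc (nat_lit 29999))], []⟩,
    ⟨(nat_lit 1), (nat_lit 1000), (nat_lit 1000), (Int.ofNat (nat_lit 0)), (Int.ofNat (nat_lit 0)),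
 [(Int.ofNat (nat_lit 502)), (Int.ofNat (nat_lit 978)), (Int.ofNat (nat_lit 252)),
 (Int.negSucc (nat_lit 1263)), (Int.negSucc (nat_lit 3359)), (Int.negSucc (nat_lit 5906)),
 (Int.negSucc (nat_lit 8855)), (Int.negSucc (nat_lit 12133)), (Int.negSucc (nat_lit 15746)),
 (Int.negSucc (nat_lit 19664)), (Int.negSucc (nat_lit 23890)), (Int.negSucc (nat_lit 27884)),
 (Int.negSucc (nat_lit 29999)), (Int.negSucc (nat_lit 29999)), (Int.negSucc (nat_lit 29999)),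
 (Int.negSucc (nat_lit 29999)), (Int.negSucc (nat_lit 29999)), (Int.negSucc (nat_lit 29999)),
 (Int.negSucc (nat_lit 29999)), (Int.negSucc (nat_lit 29999))], []⟩]⟩
def xL190_20 : Box := ⟨(nat_lit 190), (nat_lit 200), (nat_lit 190), (nat_lit 200), (nat_lit 0), (nat_lit 0),
 (nat_lit 12), (nat_lit 20), (nat_lit 0), (nat_lit 0), [(nat_lit 50), (nat_lit 100), (nat_lit 150),
 (nat_lit 200), (nat_lit 250), (nat_lit 300), (nat_lit 350), (nat_lit 400), (nat_lit 450), (nat_lit 500),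
 (nat_lit 550), (nat_lit 600), (nat_lit 650), (nat_lit 700), (nat_lit 750), (nat_lit 800), (nat_lit 850),
 (nat_lit 900), (nat_lit 950), (nat_lit 1000)], [], [
    ⟨(nat_lit 3), (nat_lit 1000), (nat_lit 250), (Int.ofNat (nat_lit 0)), (Int.ofNat (nat_lit 0)),
 [(Int.ofNat (nat_lit 976)), (Int.ofNat (nat_lit 1238)), (Int.ofNat (nat_lit 1594)),
 (Int.ofNat (nat_lit 1921)), (Int.ofNat (nat_lit 2257)), (Int.ofNat (nat_lit 2607)),
 (Int.negSucc (nat_lit 29999)), (Int.negSucc (nat_lit 29999)), (Int.negSucc (nat_lit 29999)),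
 (Int.negSucc (nat_lit 29999)), (Int.negSucc (nat_lit 29999)), (Int.negSucc (nat_lit 29999)),
 (Int.negSucc (nat_lit 29999)), (Int.negSucc (nat_lit 29999)), (Int.negSucc (nat_lit 29999)),
 (Int.negSucc (nat_lit 29999)), (Int.negSucc (nat_lit 29999)), (Int.negSucc (nat_lit 29999)),
 (Int.negSucc (nat_lit 29999)), (Int.negSucc (nat_lit 29999))], []⟩,
    ⟨(nat_lit 3), (nat_lit 1000), (nat_lit 400), (Int.ofNat (nat_lit 0)), (Int.ofNat (nat_lit 0)),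
 [(Int.ofNat (nat_lit 872)), (Int.ofNat (nat_lit 1119)), (Int.ofNat (nat_lit 1162)),
 (Int.ofNat (nat_lit 1092)), (Int.ofNat (nat_lit 967)), (Int.ofNat (nat_lit 811)),
 (Int.negSucc (nat_lit 29999)), (Int.negSucc (nat_lit 29999)), (Int.negSucc (nat_lit 29999)),
 (Int.negSucc (nat_lit 29999)), (Int.negSucc (nat_lit 29999)), (Int.negSucc (nat_lit 29999)),
 (Int.negSucc (nat_lit 29999)), (Int.negSucc (nat_lit 29999)), (Int.negSucc (nat_lit 29999)),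
 (Int.negSucc (nat_lit 29999)), (Int.negSucc (nat_lit 29999)), (Int.negSucc (nat_lit 29999)),
 (Int.negSucc (nat_lit 29999)), (Int.negSucc (nat_lit 29999))], []⟩,
    ⟨(nat_lit 3), (nat_lit 1000), (nat_lit 1000), (Int.ofNat (nat_lit 0)), (Int.ofNat (nat_lit 0)),
 [(Int.ofNat (nat_lit 970)), (Int.ofNat (nat_lit 680)), (Int.negSucc (nat_lit 583)),
 (Int.negSucc (nat_lit 2180)), (Int.negSucc (nat_lit 4202)), (Int.negSucc (nat_lit 6351)),
 (Int.negSucc (nat_lit 29999)), (Int.negSucc (nat_lit 29999)), (Int.negSucc (nat_lit 29999)),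
 (Int.negSucc (nat_lit 29999)), (Int.negSucc (nat_lit 29999)), (Int.negSucc (nat_lit 29999)),
 (Int.negSucc (nat_lit 29999)), (Int.negSucc (nat_lit 29999)), (Int.negSucc (nat_lit 29999)),
 (Int.negSucc (nat_lit 29999)), (Int.negSucc (nat_lit 29999)), (Int.negSucc (nat_lit 29999)),
 (Int.negSucc (nat_lit 29999)), (Int.negSucc (nat_lit 29999))], []⟩,
    ⟨(nat_lit 1), (nat_lit 1000), (nat_lit 160), (Int.ofNat (nat_lit 0)), (Int.ofNat (nat_lit 0)),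
 [(Int.ofNat (nat_lit 3727)), (Int.ofNat (nat_lit 253)), (Int.negSucc (nat_lit 96)),
 (Int.negSucc (nat_lit 533)), (Int.negSucc (nat_lit 1021)), (Int.negSucc (nat_lit 1559)),
 (Int.negSucc (nat_lit 29999)), (Int.negSucc (nat_lit 29999)), (Int.negSucc (nat_lit 29999)),
 (Int.negSucc (nat_lit 29999)), (Int.negSucc (nat_lit 29999)), (Int.negSucc (nat_lit 29999)),
 (Int.negSucc (nat_lit 29999)), (Int.negSucc (nat_lit 29999)), (Int.negSucc (nat_lit 29999)),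
 (Int.negSucc (nat_lit 29999)), (Int.negSucc (nat_lit 29999)), (Int.negSucc (nat_lit 29999)),
 (Int.negSucc (nat_lit 29999)), (Int.negSucc (nat_lit 29999))], []⟩,
    ⟨(nat_lit 1), (nat_lit 1000), (nat_lit 250), (Int.ofNat (nat_lit 0)), (Int.ofNat (nat_lit 0)),
 [(Int.ofNat (nat_lit 952)), (Int.ofNat (nat_lit 180)), (Int.negSucc (nat_lit 353)),
 (Int.negSucc (nat_lit 1030)), (Int.negSucc (nat_lit 1793)), (Int.negSucc (nat_lit 2640)),
 (Int.negSucc (nat_lit 29999)), (Int.negSucc (nat_lit 29999)), (Int.negSucc (nat_lit 29999)),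
 (Int.negSucc (nat_lit 29999)), (Int.negSucc (nat_lit 29999)), (Int.negSucc (nat_lit 29999)),
 (Int.negSucc (nat_lit 29999)), (Int.negSucc (nat_lit 29999)), (Int.negSucc (nat_lit 29999)),
 (Int.negSucc (nat_lit 29999)), (Int.negSucc (nat_lit 29999)), (Int.negSucc (nat_lit 29999)),
 (Int.negSucc (nat_lit 29999)), (Int.negSucc (nat_lit 29999))], []⟩,
    ⟨(nat_lit 1), (nat_lit 1000), (nat_lit 400), (Int.ofNat (nat_lit 0)), (Int.ofNat (nat_lit 0)),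
 [(Int.ofNat (nat_lit 741)), (Int.ofNat (nat_lit 57)), (Int.negSucc (nat_lit 776)),
 (Int.negSucc (nat_lit 1853)), (Int.negSucc (nat_lit 3079)), (Int.negSucc (nat_lit 4441)),
 (Int.negSucc (nat_lit 29999)), (Int.negSucc (nat_lit 29999)), (Int.negSucc (nat_lit 29999)),
 (Int.negSucc (nat_lit 29999)), (Int.negSucc (nat_lit 29999)), (Int.negSucc (nat_lit 29999)),
 (Int.negSucc (nat_lit 29999)), (Int.negSucc (nat_lit 29999)), (Int.negSucc (nat_lit 29999)),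
 (Int.negSucc (nat_lit 29999)), (Int.negSucc (nat_lit 29999)), (Int.negSucc (nat_lit 29999)),
 (Int.negSucc (nat_lit 29999)), (Int.negSucc (nat_lit 29999))], []⟩,
    ⟨(nat_lit 1), (nat_lit 1000), (nat_lit 1000), (Int.ofNat (nat_lit 0)), (Int.ofNat (nat_lit 0)),
 [(Int.ofNat (nat_lit 650)), (Int.negSucc (nat_lit 369)), (Int.negSucc (nat_lit 2537)),
 (Int.negSucc (nat_lit 5121)), (Int.negSucc (nat_lit 8259)), (Int.negSucc (nat_lit 11591)),
 (Int.negSucc (nat_lit 29999)), (Int.negSucc (nat_lit 29999)), (Int.negSucc (nat_lit 29999)),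
 (Int.negSucc (nat_lit 29999)), (Int.negSucc (nat_lit 29999)), (Int.negSucc (nat_lit 29999)),
 (Int.negSucc (nat_lit 29999)), (Int.negSucc (nat_lit 29999)), (Int.negSucc (nat_lit 29999)),
 (Int.negSucc (nat_lit 29999)), (Int.negSucc (nat_lit 29999)), (Int.negSucc (nat_lit 29999)),
 (Int.negSucc (nat_lit 29999)), (Int.negSucc (nat_lit 29999))], []⟩]⟩
def xL190_40 : Box := ⟨(nat_lit 190), (nat_lit 200), (nat_lit 190), (nat_lit 200), (nat_lit 0), (nat_lit 0),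
 (nat_lit 12), (nat_lit 40), (nat_lit 0), (nat_lit 0), [(nat_lit 50), (nat_lit 100), (nat_lit 150),
 (nat_lit 200), (nat_lit 250), (nat_lit 300), (nat_lit 350), (nat_lit 400), (nat_lit 450), (nat_lit 500),
 (nat_lit 550), (nat_lit 600), (nat_lit 650), (nat_lit 700), (nat_lit 750), (nat_lit 800), (nat_lit 850),
 (nat_lit 900), (nat_lit 950), (nat_lit 1000)], [], [
    ⟨(nat_lit 3), (nat_lit 1000), (nat_lit 250), (Int.ofNat (nat_lit 0)), (Int.ofNat (nat_lit 0)),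
 [(Int.ofNat (nat_lit 977)), (Int.ofNat (nat_lit 1238)), (Int.ofNat (nat_lit 1600)),
 (Int.ofNat (nat_lit 1927)), (Int.ofNat (nat_lit 2257)), (Int.ofNat (nat_lit 2615)),
 (Int.ofNat (nat_lit 3007)), (Int.ofNat (nat_lit 3441)), (Int.ofNat (nat_lit 3901)),
 (Int.negSucc (nat_lit 29999)), (Int.negSucc (nat_lit 29999)), (Int.negSucc (nat_lit 29999)),
 (Int.negSucc (nat_lit 29999)), (Int.negSucc (nat_lit 29999)), (Int.negSucc (nat_lit 29999)),
 (Int.negSucc (nat_lit 29999)), (Int.negSucc (nat_lit 29999)), (Int.negSucc (nat_lit 29999)),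
 (Int.negSucc (nat_lit 29999)), (Int.negSucc (nat_lit 29999))], []⟩,
    ⟨(nat_lit 3), (nat_lit 1000), (nat_lit 400), (Int.ofNat (nat_lit 0)), (Int.ofNat (nat_lit 0)),
 [(Int.ofNat (nat_lit 872)), (Int.ofNat (nat_lit 1119)), (Int.ofNat (nat_lit 1163)),
 (Int.ofNat (nat_lit 1092)), (Int.ofNat (nat_lit 967)), (Int.ofNat (nat_lit 812)),
 (Int.ofNat (nat_lit 650)), (Int.ofNat (nat_lit 494)), (Int.ofNat (nat_lit 345)),
 (Int.negSucc (nat_lit 29999)), (Int.negSucc (nat_lit 29999)), (Int.negSucc (nat_lit 29999)),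
 (Int.negSucc (nat_lit 29999)), (Int.negSucc (nat_lit 29999)), (Int.negSucc (nat_lit 29999)),
 (Int.negSucc (nat_lit 29999)), (Int.negSucc (nat_lit 29999)), (Int.negSucc (nat_lit 29999)),
 (Int.negSucc (nat_lit 29999)), (Int.negSucc (nat_lit 29999))], []⟩,
    ⟨(nat_lit 3), (nat_lit 1000), (nat_lit 1000), (Int.ofNat (nat_lit 0)), (Int.ofNat (nat_lit 0)),
 [(Int.ofNat (nat_lit 973)), (Int.ofNat (nat_lit 677)), (Int.negSucc (nat_lit 550)),
 (Int.negSucc (nat_lit 2206)), (Int.negSucc (nat_lit 4181)), (Int.negSucc (nat_lit 6373)),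
 (Int.negSucc (nat_lit 8739)), (Int.negSucc (nat_lit 11258)), (Int.negSucc (nat_lit 14049)),
 (Int.negSucc (nat_lit 29999)), (Int.negSucc (nat_lit 29999)), (Int.negSucc (nat_lit 29999)),
 (Int.negSucc (nat_lit 29999)), (Int.negSucc (nat_lit 29999)), (Int.negSucc (nat_lit 29999)),
 (Int.negSucc (nat_lit 29999)), (Int.negSucc (nat_lit 29999)), (Int.negSucc (nat_lit 29999)),
 (Int.negSucc (nat_lit 29999)), (Int.negSucc (nat_lit 29999))], []⟩,
    ⟨(nat_lit 1), (nat_lit 1000), (nat_lit 180), (Int.ofNat (nat_lit 0)), (Int.ofNat (nat_lit 0)),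
 [(Int.ofNat (nat_lit 1861)), (Int.ofNat (nat_lit 234)), (Int.negSucc (nat_lit 151)),
 (Int.negSucc (nat_lit 644)), (Int.negSucc (nat_lit 1192)), (Int.negSucc (nat_lit 1799)),
 (Int.negSucc (nat_lit 2440)), (Int.negSucc (nat_lit 3125)), (Int.negSucc (nat_lit 3852)),
 (Int.negSucc (nat_lit 29999)), (Int.negSucc (nat_lit 29999)), (Int.negSucc (nat_lit 29999)),
 (Int.negSucc (nat_lit 29999)), (Int.negSucc (nat_lit 29999)), (Int.negSucc (nat_lit 29999)),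
 (Int.negSucc (nat_lit 29999)), (Int.negSucc (nat_lit 29999)), (Int.negSucc (nat_lit 29999)),
 (Int.negSucc (nat_lit 29999)), (Int.negSucc (nat_lit 29999))], []⟩,
    ⟨(nat_lit 1), (nat_lit 1000), (nat_lit 250), (Int.ofNat (nat_lit 0)), (Int.ofNat (nat_lit 0)),
 [(Int.ofNat (nat_lit 952)), (Int.ofNat (nat_lit 182)), (Int.negSucc (nat_lit 343)),
 (Int.negSucc (nat_lit 1025)), (Int.negSucc (nat_lit 1792)), (Int.negSucc (nat_lit 2639)),
 (Int.negSucc (nat_lit 3536)), (Int.negSucc (nat_lit 4499)), (Int.negSucc (nat_lit 5524)),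
 (Int.negSucc (nat_lit 29999)), (Int.negSucc (nat_lit 29999)), (Int.negSucc (nat_lit 29999)),
 (Int.negSucc (nat_lit 29999)), (Int.negSucc (nat_lit 29999)), (Int.negSucc (nat_lit 29999)),
 (Int.negSucc (nat_lit 29999)), (Int.negSucc (nat_lit 29999)), (Int.negSucc (nat_lit 29999)),
 (Int.negSucc (nat_lit 29999)), (Int.negSucc (nat_lit 29999))], []⟩,
    ⟨(nat_lit 1), (nat_lit 1000), (nat_lit 400), (Int.ofNat (nat_lit 0)), (Int.ofNat (nat_lit 0)),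
 [(Int.ofNat (nat_lit 742)), (Int.ofNat (nat_lit 50)), (Int.negSucc (nat_lit 768)),
 (Int.negSucc (nat_lit 1854)), (Int.negSucc (nat_lit 3071)), (Int.negSucc (nat_lit 4425)),
 (Int.negSucc (nat_lit 5872)), (Int.negSucc (nat_lit 7437)), (Int.negSucc (nat_lit 9108)),
 (Int.negSucc (nat_lit 29999)), (Int.negSucc (nat_lit 29999)), (Int.negSucc (nat_lit 29999)),
 (Int.negSucc (nat_lit 29999)), (Int.negSucc (nat_lit 29999)), (Int.negSucc (nat_lit 29999)),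
 (Int.negSucc (nat_lit 29999)), (Int.negSucc (nat_lit 29999)), (Int.negSucc (nat_lit 29999)),
 (Int.negSucc (nat_lit 29999)), (Int.negSucc (nat_lit 29999))], []⟩,
    ⟨(nat_lit 1), (nat_lit 1000), (nat_lit 1000), (Int.ofNat (nat_lit 0)), (Int.ofNat (nat_lit 0)),
 [(Int.ofNat (nat_lit 688)), (Int.negSucc (nat_lit 407)), (Int.negSucc (nat_lit 2513)),
 (Int.negSucc (nat_lit 5152)), (Int.negSucc (nat_lit 8234)), (Int.negSucc (nat_lit 11621)),
 (Int.negSucc (nat_lit 15293)), (Int.negSucc (nat_lit 19202)), (Int.negSucc (nat_lit 23574)),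
 (Int.negSucc (nat_lit 29999)), (Int.negSucc (nat_lit 29999)), (Int.negSucc (nat_lit 29999)),
 (Int.negSucc (nat_lit 29999)), (Int.negSucc (nat_lit 29999)), (Int.negSucc (nat_lit 29999)),
 (Int.negSucc (nat_lit 29999)), (Int.negSucc (nat_lit 29999)), (Int.negSucc (nat_lit 29999)),
 (Int.negSucc (nat_lit 29999)), (Int.negSucc (nat_lit 29999))], []⟩]⟩
def xL190_60 : Box := ⟨(nat_lit 190), (nat_lit 200), (nat_lit 190), (nat_lit 200), (nat_lit 0), (nat_lit 0),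
 (nat_lit 12), (nat_lit 60), (nat_lit 0), (nat_lit 0), [(nat_lit 50), (nat_lit 100), (nat_lit 150),
 (nat_lit 200), (nat_lit 250), (nat_lit 300), (nat_lit 350), (nat_lit 400), (nat_lit 450), (nat_lit 500),
 (nat_lit 550), (nat_lit 600), (nat_lit 650), (nat_lit 700), (nat_lit 750), (nat_lit 800), (nat_lit 850),
 (nat_lit 900), (nat_lit 950), (nat_lit 1000)], [], [
    ⟨(nat_lit 3), (nat_lit 1000), (nat_lit 250), (Int.ofNat (nat_lit 0)), (Int.ofNat (nat_lit 0)),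
 [(Int.ofNat (nat_lit 977)), (Int.ofNat (nat_lit 1244)), (Int.ofNat (nat_lit 1600)),
 (Int.ofNat (nat_lit 1921)), (Int.ofNat (nat_lit 2257)), (Int.ofNat (nat_lit 2615)),
 (Int.ofNat (nat_lit 3007)), (Int.ofNat (nat_lit 3441)), (Int.ofNat (nat_lit 3925)),
 (Int.ofNat (nat_lit 4466)), (Int.ofNat (nat_lit 5049)), (Int.negSucc (nat_lit 29999)),
 (Int.negSucc (nat_lit 29999)), (Int.negSucc (nat_lit 29999)), (Int.negSucc (nat_lit 29999)),
 (Int.negSucc (nat_lit 29999)), (Int.negSucc (nat_lit 29999)), (Int.negSucc (nat_lit 29999)),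
 (Int.negSucc (nat_lit 29999)), (Int.negSucc (nat_lit 29999))], []⟩,
    ⟨(nat_lit 3), (nat_lit 1000), (nat_lit 400), (Int.ofNat (nat_lit 0)), (Int.ofNat (nat_lit 0)),
 [(Int.ofNat (nat_lit 873)), (Int.ofNat (nat_lit 1125)), (Int.ofNat (nat_lit 1168)),
 (Int.ofNat (nat_lit 1092)), (Int.ofNat (nat_lit 985)), (Int.ofNat (nat_lit 830)),
 (Int.ofNat (nat_lit 650)), (Int.ofNat (nat_lit 494)), (Int.ofNat (nat_lit 353)), (Int.ofNat (nat_lit 235)),
 (Int.ofNat (nat_lit 137)), (Int.negSucc (nat_lit 29999)), (Int.negSucc (nat_lit 29999)),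
 (Int.negSucc (nat_lit 29999)), (Int.negSucc (nat_lit 29999)), (Int.negSucc (nat_lit 29999)),
 (Int.negSucc (nat_lit 29999)), (Int.negSucc (nat_lit 29999)), (Int.negSucc (nat_lit 29999)),
 (Int.negSucc (nat_lit 29999))], []⟩,
    ⟨(nat_lit 3), (nat_lit 1000), (nat_lit 1000), (Int.ofNat (nat_lit 0)), (Int.ofNat (nat_lit 0)),
 [(Int.ofNat (nat_lit 946)), (Int.ofNat (nat_lit 709)), (Int.negSucc (nat_lit 550)),
 (Int.negSucc (nat_lit 2206)), (Int.negSucc (nat_lit 4178)), (Int.negSucc (nat_lit 6374)),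
 (Int.negSucc (nat_lit 8739)), (Int.negSucc (nat_lit 11258)), (Int.negSucc (nat_lit 13909)),
 (Int.negSucc (nat_lit 16667)), (Int.negSucc (nat_lit 19531)), (Int.negSucc (nat_lit 29999)),
 (Int.negSucc (nat_lit 29999)), (Int.negSucc (nat_lit 29999)), (Int.negSucc (nat_lit 29999)),
 (Int.negSucc (nat_lit 29999)), (Int.negSucc (nat_lit 29999)), (Int.negSucc (nat_lit 29999)),
 (Int.negSucc (nat_lit 29999)), (Int.negSucc (nat_lit 29999))], []⟩,
    ⟨(nat_lit 1), (nat_lit 1000), (nat_lit 195), (Int.ofNat (nat_lit 0)), (Int.ofNat (nat_lit 0)),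
 [(Int.ofNat (nat_lit 1432)), (Int.ofNat (nat_lit 224)), (Int.negSucc (nat_lit 196)),
 (Int.negSucc (nat_lit 727)), (Int.negSucc (nat_lit 1321)), (Int.negSucc (nat_lit 1978)),
 (Int.negSucc (nat_lit 2675)), (Int.negSucc (nat_lit 3419)), (Int.negSucc (nat_lit 4192)),
 (Int.negSucc (nat_lit 5004)), (Int.negSucc (nat_lit 5840)), (Int.negSucc (nat_lit 29999)),
 (Int.negSucc (nat_lit 29999)), (Int.negSucc (nat_lit 29999)), (Int.negSucc (nat_lit 29999)),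
 (Int.negSucc (nat_lit 29999)), (Int.negSucc (nat_lit 29999)), (Int.negSucc (nat_lit 29999)),
 (Int.negSucc (nat_lit 29999)), (Int.negSucc (nat_lit 29999))], []⟩,
    ⟨(nat_lit 1), (nat_lit 1000), (nat_lit 250), (Int.ofNat (nat_lit 0)), (Int.ofNat (nat_lit 0)),
 [(Int.ofNat (nat_lit 952)), (Int.ofNat (nat_lit 185)), (Int.negSucc (nat_lit 347)),
 (Int.negSucc (nat_lit 1031)), (Int.negSucc (nat_lit 1792)), (Int.negSucc (nat_lit 2638)),
 (Int.negSucc (nat_lit 3537)), (Int.negSucc (nat_lit 4498)), (Int.negSucc (nat_lit 5500)),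
 (Int.negSucc (nat_lit 6554)), (Int.negSucc (nat_lit 7643)), (Int.negSucc (nat_lit 29999)),
 (Int.negSucc (nat_lit 29999)), (Int.negSucc (nat_lit 29999)), (Int.negSucc (nat_lit 29999)),
 (Int.negSucc (nat_lit 29999)), (Int.negSucc (nat_lit 29999)), (Int.negSucc (nat_lit 29999)),
 (Int.negSucc (nat_lit 29999)), (Int.negSucc (nat_lit 29999))], []⟩,
    ⟨(nat_lit 1), (nat_lit 1000), (nat_lit 400), (Int.ofNat (nat_lit 0)), (Int.ofNat (nat_lit 0)),
 [(Int.ofNat (nat_lit 742)), (Int.ofNat (nat_lit 61)), (Int.negSucc (nat_lit 774)),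
 (Int.negSucc (nat_lit 1853)), (Int.negSucc (nat_lit 3072)), (Int.negSucc (nat_lit 4432)),
 (Int.negSucc (nat_lit 5887)), (Int.negSucc (nat_lit 7442)), (Int.negSucc (nat_lit 9066)),
 (Int.negSucc (nat_lit 10778)), (Int.negSucc (nat_lit 12556)), (Int.negSucc (nat_lit 29999)),
 (Int.negSucc (nat_lit 29999)), (Int.negSucc (nat_lit 29999)), (Int.negSucc (nat_lit 29999)),
 (Int.negSucc (nat_lit 29999)), (Int.negSucc (nat_lit 29999)), (Int.negSucc (nat_lit 29999)),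
 (Int.negSucc (nat_lit 29999)), (Int.negSucc (nat_lit 29999))], []⟩,
    ⟨(nat_lit 1), (nat_lit 1000), (nat_lit 1000), (Int.ofNat (nat_lit 0)), (Int.ofNat (nat_lit 0)),
 [(Int.ofNat (nat_lit 694)), (Int.negSucc (nat_lit 401)), (Int.negSucc (nat_lit 2504)),
 (Int.negSucc (nat_lit 5149)), (Int.negSucc (nat_lit 8228)), (Int.negSucc (nat_lit 11622)),
 (Int.negSucc (nat_lit 15286)), (Int.negSucc (nat_lit 19195)), (Int.negSucc (nat_lit 23332)),
 (Int.negSucc (nat_lit 27684)), (Int.negSucc (nat_lit 29999)), (Int.negSucc (nat_lit 29999)),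
 (Int.negSucc (nat_lit 29999)), (Int.negSucc (nat_lit 29999)), (Int.negSucc (nat_lit 29999)),
 (Int.negSucc (nat_lit 29999)), (Int.negSucc (nat_lit 29999)), (Int.negSucc (nat_lit 29999)),
 (Int.negSucc (nat_lit 29999)), (Int.negSucc (nat_lit 29999))], []⟩]⟩

end CB
end Pool.Agent.Lib.MP_6947cd_al
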