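import Pool.Agent.Lib.MP_6947cd_al.L.PairA
import Pool.Agent.Lib.MP_6947cd_al.L.BoxLib

/-!
Problem MP_6947cd_al (Chollet).  The use of the library of pair functions.
-/

set_option autoImplicit false

namespace Pool.Agent.Lib.MP_6947cd_al
namespace CB

open CA Ent Fr

/-- a class of weight `1` of a box with (II): the pair inequality, in the form `≤ α s + P t` -/
theorem lib_use {x : Box} (hx : PropII x) {c : Cl} (hc : c ∈ x.cls) (hw : c.w = 1000)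
    {h s t e u : ℝ} (h0 : (x.H0 : ℝ) / 200 ≤ h) (h1 : h ≤ (x.H1 : ℝ) / 200) (g : PQ.Geo h s t e u)
    (hs : s ≤ (x.so : ℝ) / 200) (ht : t ≤ ((x.k.getLastD 0 : ℕ) : ℝ) / 1000) :
    omg s + omg t - omg (min u (max s t)) - (if c.ty = 1 then gtr (3 / 20) (9 / 20) u else 0)
      ≤ (c.a : ℝ) / 1000 * s + pl 0 0 (kR x.k) (vR c.b) t := by
  have h2 := (hx c hc h s t e u h0 h1 g).1 hs ht
  unfold cost phR at h2
  rw [hw] at h2
  push_cast at h2
  linarith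

/-- type `3` (pure) -/
theorem lib_pure {x : Box} (hx : PropII x) {c : Cl} (hc : c ∈ x.cls) (hw : c.w = 1000)
    (hty : c.ty = 3) {h s t e u : ℝ} (h0 : (x.H0 : ℝ) / 200 ≤ h) (h1 : h ≤ (x.H1 : ℝ) / 200)
    (g : PQ.Geo h s t e u) (hs : s ≤ (x.so : ℝ) / 200)
    (ht : t ≤ ((x.k.getLastD 0 : ℕ) : ℝ) / 1000) :
    omg s + omg t - omg (min u (max s t)) ≤ (c.a : ℝ) / 1000 * s + pl 0 0 (kR x.k) (vR c.b) t := by
  have h2 := lib_use hx hc hw h0 h1 g hs ht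
  rw [if_neg (by omega)] at h2
  linarith

/-- type `1` (minus `gtr u`) -/
theorem lib_std {x : Box} (hx : PropII x) {c : Cl} (hc : c ∈ x.cls) (hw : c.w = 1000)
    (hty : c.ty = 1) {h s t e u : ℝ} (h0 : (x.H0 : ℝ) / 200 ≤ h) (h1 : h ≤ (x.H1 : ℝ) / 200)
    (g : PQ.Geo h s t e u) (hs : s ≤ (x.so : ℝ) / 200)
    (ht : t ≤ ((x.k.getLastD 0 : ℕ) : ℝ) / 1000) :
    omg s + omg t - omg (min u (max s t)) - gtr (3 / 20) (9 / 20) u
      ≤ (c.a : ℝ) / 1000 * s + pl 0 0 (kR x.k) (vR c.b) t := by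
  have h2 := lib_use hx hc hw h0 h1 g hs ht
  rw [if_pos hty] at h2
  exact h2

end CB
end Pool.Agent.Lib.MP_6947cd_al
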