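import Pool.Agent.Lib.MP_6947cd_al.L.PairC
import Pool.Agent.Lib.MP_6947cd_al.L.BoxLibC
import Pool.Agent.Lib.MP_6947cd_al.PS.C140_110_0
import Pool.Agent.Lib.MP_6947cd_al.PS.C140_110_1

/-!
Problem MP_6947cd_al (Chollet).  Library of pair functions: certificates (generated).
-/

set_option autoImplicit false
set_option linter.defProp false
set_option maxRecDepth 100000

namespace Pool.Agent.Lib.MP_6947cd_al
namespace CB

open CA

def cC140_80 : chkIIp xC140_80 ⟨700000, 750000, 851343, 836787, 866153, 523861, 548266, 500544, 547722,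
 500000⟩ [⟨[.one ⟨2008000, 251, 542160, 336942, 0, 0, 0, 400000, 0, 50000⟩ ⟨50000, (.sp 250000 (.aff 2309402
 433013) (.sp 500000 (.aff 1511858 661438) (.aff 1264912 790569))), (.aff 866026 1154700), (.pol), (.pol),
 (.sx 225000 (.sx 137500 (.aff 0 879831 1136582) (.aff 500000 185696 1346287)) (.aff 1000000 0 0)), (.sx 25000
 (.aff 0 1553352 643770) (.aff 0 1264912 790569)), (.pol), (.pol), (.pol)⟩, .one ⟨2008000, 251, 542160,
 381118, -2209, 0, 0, 400000, 50000, 100000⟩ ⟨0, .pol, .pol, .pol, .pol, (.sy 75000 (.sx 200000 (.sx 100000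
 (.sx 50000 (.sx 25000 (.aff 0 1581139 632456) (.aff 0 1290995 774597)) (.aff 0 1051272 951229)) (.aff 250000
 484123 1161895)) (.aff 1000000 0 0)) (.sx 200000 (.sy 87500 (.sx 100000 (.sx 50000 (.aff 0 1471961 679366)
 (.aff 100000 1078771 750855)) (.aff 1000000 0 0)) (.sx 100000 (.sy 93750 (.sy 90625 (.sx 50000 (.sx 25000
 (.aff 0 2669270 374635) (.aff 0 1426785 700877)) (.aff 125000 1044517 732995)) (.sx 50000 (.sx 25000 (.aff 0
 2715696 368230) (.aff 0 1357848 736460)) (.aff 125000 1062684 720464))) (.sx 50000 (.sx 25000 (.aff 0 2783883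
 359211) (.aff 50000 1461417 617552)) (.aff 125000 1089367 702817))) (.aff 1000000 0 0))) (.aff 1000000 0
 0))), .pol, (.pol), (.sy 75000 (.sx 200000 (.sy 62500 (.sx 100000 (.sx 50000 (.pol) (.pol)) (.pol)) (.sx
 100000 (.sx 50000 (.pol) (.pol)) (.pol))) (.pol)) (.sx 200000 (.sy 87500 (.sx 100000 (.sx 50000 (.pol)
 (.pol)) (.pol)) (.sx 100000 (.sx 50000 (.pol) (.pol)) (.pol))) (.pol))), .pol⟩, .one ⟨2008000, 251, 542160,
 354211, 481, 0, 0, 400000, 100000, 150000⟩ ⟨0, .pol, .pol, .pol, .pol, (.sy 125000 (.sx 200000 (.sx 100000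
 (.sy 112500 (.sy 106250 (.sy 103125 (.sy 101562 (.sy 100781 (.sx 50000 (.sx 25000 (.aff 0 2833945 352865)
 (.aff 125000 1431657 534783)) (.aff 125000 1108957 690401)) (.sx 50000 (.sx 25000 (.aff 0 2844947 351501)
 (.aff 125000 1437215 532715)) (.aff 125000 1113262 687732))) (.sx 50000 (.sx 25000 (.aff 0 2861378 349482)
 (.aff 125000 1445515 529656)) (.aff 125000 1119691 683783))) (.sx 50000 (.sx 25000 (.aff 0 2893960 345548)
 (.aff 125000 1461975 523693)) (.aff 125000 1132441 676084))) (.sy 109375 (.sy 107812 (.sy 107031 (.sy 106640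
 (.sx 50000 (.sx 25000 (.aff 0 2918151 342683) (.aff 125000 1474196 519351)) (.aff 125000 1141907 670480))
 (.sy 106835 (.sy 106737 (.sy 106688 (.sx 50000 (.sx 25000 (.aff 0 2921151 342331) (.aff 125000 1475712
 518818)) (.aff 125000 1143081 669791)) (.sy 106712 (.sx 50000 (.sx 25000 (.aff 0 2921644 342274) (.aff 125000
 1475961 518730)) (.aff 125000 1143274 669678)) (.sx 50000 (.sx 25000 (.aff 0 2921979 342234) (.aff 125000
 1476130 518671)) (.aff 125000 1143406 669601)))) (.sx 50000 (.sx 25000 (.aff 0 2922821 342136) (.aff 125000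
 1476555 518522)) (.aff 125000 1143735 669408))) (.sx 50000 (.sx 25000 (.aff 0 2924832 341900) (.aff 125000
 1477571 518165)) (.aff 125000 1144522 668948)))) (.sx 50000 (.sx 25000 (.aff 0 2931505 341122) (.aff 138000
 1458940 509305)) (.aff 250000 983257 572079))) (.sx 50000 (.sx 25000 (.aff 0 2406586 415527) (.aff 137000
 1468579 507136)) (.aff 250000 988606 568983))) (.sy 110937 (.sy 110156 (.sx 50000 (.sx 25000 (.aff 0 2419538
 413303) (.aff 143000 1466217 500915)) (.aff 250000 993927 565937)) (.sy 110546 (.sy 110351 (.sx 50000 (.sx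
 25000 (.aff 0 2424910 412387) (.aff 150000 1494366 483483)) (.aff 250000 996134 564684)) (.sy 110448 (.sx
 50000 (.sx 25000 (.aff 0 2426515 412114) (.aff 163000 1472485 475774)) (.aff 250000 996793 564310)) (.sy
 110497 (.sx 50000 (.sx 25000 (.aff 0 2427317 411978) (.aff 163000 1472972 475616)) (.aff 250000 997123
 564123)) (.sx 50000 (.sx 25000 (.aff 0 2427856 411887) (.aff 163000 1473298 475511)) (.aff 250000 997344
 563998))))) (.sx 50000 (.sx 25000 (.aff 0 2430271 411477) (.aff 163000 1474764 475039)) (.aff 250000 998336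
 563438)))) (.sy 111718 (.sy 111327 (.sx 50000 (.sx 25000 (.aff 0 2434552 410754) (.aff 144000 1473594
 497245)) (.aff 250000 1000094 562448)) (.sy 111522 (.sy 111424 (.sx 50000 (.sx 25000 (.aff 0 2437217 410305)
 (.aff 144000 1475207 496701)) (.aff 250000 1001190 561832)) (.sy 111473 (.sy 111448 (.sy 111436 (.sx 50000
 (.sx 25000 (.aff 0 2437814 410204) (.aff 144000 1475568 496579)) (.aff 250000 1001434 561695)) (.sy 111442
 (.sx 50000 (.sx 25000 (.aff 0 2437912 410188) (.aff 144000 1475628 496559)) (.aff 250000 1001475 561672))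
 (.sx 50000 (.sx 25000 (.aff 0 2437978 410176) (.aff 144000 1475668 496546)) (.aff 250000 1001502 561657))))
 (.sx 50000 (.sx 25000 (.aff 0 2438147 410148) (.aff 144000 1475770 496511)) (.aff 250000 1001572 561618)))
 (.sx 50000 (.sx 25000 (.aff 0 2438552 410080) (.aff 144000 1476015 496429)) (.aff 250000 1001738 561525))))
 (.sy 111620 (.sy 111571 (.sx 50000 (.sx 25000 (.aff 0 2439088 409990) (.aff 144000 1476340 496320)) (.aff
 250000 1001958 561401)) (.sy 111595 (.sy 111583 (.sx 50000 (.sx 25000 (.aff 0 2439421 409934) (.aff 144000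
 1476541 496252)) (.aff 250000 1002095 561325)) (.sx 50000 (.sx 25000 (.aff 0 2439552 409912) (.aff 144000
 1476621 496225)) (.aff 250000 1002149 561294))) (.sx 50000 (.sx 25000 (.aff 0 2439755 409878) (.aff 144000
 1476743 496184)) (.aff 250000 1002232 561248)))) (.sx 50000 (.sx 25000 (.aff 0 2440427 409765) (.aff 147000
 1471973 494309)) (.aff 250000 1002508 561093))))) (.sx 50000 (.sx 25000 (.aff 0 2445230 408960) (.aff 156000
 1477665 482069)) (.aff 250000 1004481 559991)))))) (.sy 118750 (.sy 115625 (.sy 114062 (.sy 113281 (.sy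
 112890 (.sx 50000 (.sx 25000 (.aff 0 2451612 407895) (.sx 37500 (.aff 125000 1584306 483256) (.aff 175000
 1324090 514033))) (.aff 250000 1007103 558533)) (.sx 50000 (.sx 25000 (.aff 0 2455856 407190) (.sx 37500
 (.aff 125000 1587049 482421) (.aff 175000 1326382 513145))) (.aff 250000 1008846 557568))) (.sy 113671 (.sy
 113476 (.sy 113378 (.sx 50000 (.sx 25000 (.aff 0 2458504 406752) (.sx 37500 (.aff 125000 1588760 481901)
 (.aff 175000 1327812 512592))) (.aff 250000 1009934 556968)) (.sy 113427 (.sy 113402 (.sx 50000 (.sx 25000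
 (.aff 0 2459160 406643) (.aff 162000 1490980 470995)) (.aff 250000 1010203 556819)) (.sx 50000 (.sx 25000
 (.aff 0 2459426 406599) (.aff 162000 1491142 470944)) (.aff 250000 1010313 556759))) (.sx 50000 (.sx 25000
 (.aff 0 2459827 406533) (.aff 162000 1491385 470868)) (.aff 250000 1010477 556668)))) (.sx 50000 (.sx 25000
 (.aff 0 2461149 406315) (.aff 162000 1492186 470615)) (.aff 250000 1011021 556369))) (.sx 50000 (.sx 25000
 (.aff 0 2464322 405792) (.aff 162000 1494110 470009)) (.aff 250000 1012324 555653)))) (.sx 50000 (.sy 114843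
 (.sx 25000 (.aff 0 2470655 404751) (.sx 37500 (.aff 150000 1561100 462815) (.aff 175000 1334374 510071)))
 (.sy 115234 (.sx 25000 (.aff 0 2476972 403719) (.sx 37500 (.aff 150000 1565092 461635) (.aff 175000 1337786
 508770))) (.sy 115429 (.sy 115331 (.sx 25000 (.aff 0 2479597 403292) (.sx 37500 (.aff 150000 1566751 461146)
 (.aff 175000 1339204 508232))) (.sx 25000 (.aff 0 2480646 403121) (.aff 169000 1491444 463016))) (.sx 25000
 (.aff 0 2482225 402865) (.sx 37500 (.aff 150000 1568411 460658) (.aff 175000 1340624 507693)))))) (.aff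
 250000 1016658 553284))) (.sy 117187 (.sx 50000 (.sx 25000 (.aff 0 2491651 401341) (.aff 177000 1521197
 445261)) (.aff 250000 1023550 549558)) (.sy 117968 (.sy 117577 (.sy 117382 (.sy 117284 (.sy 117235 (.sx 50000
 (.sx 25000 (.aff 0 2500251 399960) (.sx 37500 (.aff 150000 1579801 457337) (.aff 175000 1350359 504033)))
 (.aff 500000 684722 365112)) (.sy 117259 (.sx 50000 (.sx 25000 (.aff 0 2500635 399899) (.sx 37500 (.aff
 175000 1612199 422172) (.aff 175000 1350566 503956))) (.aff 500000 684827 365056)) (.sx 50000 (.sx 25000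
 (.aff 0 2500896 399857) (.sx 37500 (.aff 175000 1612368 422128) (.aff 175000 1350708 503903))) (.aff 500000
 684899 365018)))) (.sx 50000 (.sx 25000 (.aff 0 2501552 399752) (.sx 37500 (.aff 175000 1612791 422017) (.aff
 175000 1351062 503771))) (.aff 500000 685079 364922))) (.sx 50000 (.sx 25000 (.aff 0 2503113 399503) (.sx
 37500 (.aff 175000 1613797 421754) (.aff 175000 1351905 503457))) (.aff 500000 685506 364695))) (.sy 117772
 (.sx 50000 (.sx 25000 (.aff 0 2505190 399172) (.sx 37500 (.aff 175000 1615136 421405) (.aff 175000 1353026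
 503040))) (.aff 500000 686075 364392)) (.sx 50000 (.sy 117870 (.sy 117821 (.sx 25000 (.aff 0 2506488 398965)
 (.sx 37500 (.aff 175000 1615973 421186) (.aff 175000 1353728 502779))) (.sx 25000 (.aff 0 2507009 398882)
 (.sx 37500 (.aff 175000 1616309 421099) (.aff 175000 1354009 502674)))) (.sx 25000 (.aff 0 2507791 398758)
 (.sx 37500 (.aff 175000 1616813 420968) (.aff 175000 1354431 502518)))) (.aff 500000 686645 364090)))) (.sx
 50000 (.sx 25000 (.aff 0 2512465 398016) (.sx 37500 (.aff 175000 1619827 420184) (.aff 175000 1448817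
 469780))) (.aff 500000 688067 363337))))) (.sy 121875 (.sy 120312 (.sy 119531 (.sx 50000 (.sx 25000 (.aff 0
 2520746 396708) (.sx 37500 (.aff 175000 1625166 418804) (.aff 200000 1370008 467151))) (.aff 1000000 0 0))
 (.sy 119921 (.sy 119726 (.sy 119628 (.sx 50000 (.sx 25000 (.aff 0 2525386 395980) (.sx 37500 (.aff 175000
 1628157 418035) (.aff 200000 1372530 466293))) (.aff 1000000 0 0)) (.sx 50000 (.sx 25000 (.aff 0 2526416
 395818) (.sx 37500 (.aff 175000 1628821 417864) (.aff 200000 1373089 466103))) (.aff 1000000 0 0))) (.sy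
 119823 (.sy 119774 (.sy 119750 (.sx 50000 (.sx 25000 (.aff 0 2527059 395717) (.sx 37500 (.aff 175000 1629236
 417758) (.aff 200000 1373439 465984))) (.aff 1000000 0 0)) (.sy 119762 (.sy 119756 (.sx 50000 (.sx 25000
 (.aff 0 2527218 395693) (.sx 37500 (.aff 175000 1629338 417732) (.aff 200000 1373525 465955))) (.aff 1000000
 0 0)) (.sx 50000 (.sx 25000 (.aff 0 2527281 395683) (.sx 37500 (.aff 175000 1629378 417721) (.aff 200000
 1373560 465943))) (.aff 1000000 0 0))) (.sx 50000 (.sx 25000 (.aff 0 2527376 395668) (.sx 37500 (.aff 175000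
 1629440 417705) (.aff 200000 1373611 465926))) (.aff 1000000 0 0)))) (.sx 50000 (.sx 25000 (.aff 0 2527698
 395617) (.sx 37500 (.aff 175000 1629647 417652) (.aff 200000 1373786 465866))) (.aff 1000000 0 0))) (.sy
 119872 (.sx 50000 (.sx 25000 (.aff 0 2528215 395536) (.sx 37500 (.aff 175000 1629980 417567) (.aff 200000
 1374067 465771))) (.aff 1000000 0 0)) (.sy 119896 (.sx 50000 (.sx 25000 (.aff 0 2528600 395476) (.sx 37500
 (.aff 175000 1630229 417503) (.aff 200000 1374276 465700))) (.aff 1000000 0 0)) (.sy 119908 (.sy 119902 (.sy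
 119899 (.sx 50000 (.sx 25000 (.aff 0 2528742 395454) (.sx 37500 (.aff 175000 1630320 417480) (.aff 200000
 1374354 465674))) (.aff 1000000 0 0)) (.sy 119900 (.sx 50000 (.sx 25000 (.aff 0 2528763 395451) (.sx 37500
 (.aff 175000 1630334 417476) (.aff 200000 1374365 465670))) (.aff 1000000 0 0)) (.sx 50000 (.sx 25000 (.aff 0
 2528779 395448) (.sx 37500 (.aff 175000 1630344 417474) (.aff 200000 1374374 465667))) (.aff 1000000 0 0))))
 (.sx 50000 (.sx 25000 (.aff 0 2528821 395442) (.sx 37500 (.aff 175000 1630371 417467) (.aff 200000 1374397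
 465659))) (.aff 1000000 0 0))) (.sx 50000 (.sx 25000 (.aff 0 2528921 395426) (.sx 37500 (.aff 175000 1630436
 417450) (.aff 200000 1374451 465641))) (.aff 1000000 0 0))))))) (.sx 50000 (.sx 25000 (.aff 0 2531050 395093)
 (.sx 37500 (.aff 175000 1631809 417099) (.aff 200000 1375608 465249))) (.aff 1000000 0 0)))) (.sy 121093 (.sx
 50000 (.sy 120702 (.sx 25000 (.aff 0 2535161 394453) (.sx 37500 (.aff 200000 1584930 403804) (.aff 200000
 1377843 464495))) (.sx 25000 (.aff 0 2539265 393815) (.aff 188000 1529546 431072))) (.aff 1000000 0 0)) (.sy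
 121484 (.sy 121288 (.sy 121190 (.sx 50000 (.sx 25000 (.aff 0 2541827 393418) (.aff 188000 1493286 441539))
 (.aff 1000000 0 0)) (.sy 121239 (.sx 50000 (.sx 25000 (.aff 0 2542592 393300) (.aff 188000 1493736 441406))
 (.aff 1000000 0 0)) (.sx 50000 (.sx 25000 (.aff 0 2543106 393220) (.aff 188000 1494038 441317)) (.aff 1000000
 0 0)))) (.sx 50000 (.sx 25000 (.aff 0 2544390 393022) (.aff 188000 1494792 441095)) (.aff 1000000 0 0))) (.sx
 50000 (.sx 25000 (.aff 0 2547465 392548) (.aff 188000 1496598 440562)) (.aff 1000000 0 0))))) (.sx 50000 (.sx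
 25000 (.aff 0 2565801 389742) (.sy 123437 (.aff 188000 1502592 438805) (.aff 187000 1522704 434076))) (.aff
 1000000 0 0))))) (.aff 1000000 0 0)) (.aff 1000000 0 0)) (.sx 200000 (.sx 100000 (.sy 137500 (.sx 50000 (.sx
 25000 (.aff 125000 2004877 381882) (.aff 213000 1515152 408784)) (.aff 1000000 0 0)) (.sx 50000 (.sx 25000
 (.aff 250000 2076656 270869) (.aff 250000 1543705 364384)) (.aff 1000000 0 0))) (.aff 1000000 0 0)) (.aff
 1000000 0 0))), .pol, (.pol), (.sx 200000 (.sx 100000 (.pol) (.pol)) (.pol)), .pol⟩, .one ⟨2008000, 251,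
 542160, 328107, 4397, 0, 0, 400000, 150000, 200000⟩ ⟨0, .pol, .pol, .pol, .pol, (.sx 200000 (.sy 175000 (.sy
 162500 (.sx 100000 (.sx 50000 (.sx 25000 (.aff 300000 1750000 280000) (.aff 325000 1509346 301870)) (.aff
 1000000 0 0)) (.aff 1000000 0 0)) (.sx 100000 (.sx 50000 (.sx 25000 (.aff 350000 1854898 227776) (.aff 375000
 1452369 268958)) (.aff 1000000 0 0)) (.aff 1000000 0 0))) (.sy 187500 (.sx 100000 (.sx 50000 (.sx 25000 (.aff
 388000 1902786 196840) (.aff 1000000 0 0)) (.aff 1000000 0 0)) (.aff 1000000 0 0)) (.sx 100000 (.sy 193750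
 (.sx 50000 (.sx 25000 (.aff 450000 1938124 156079) (.aff 1000000 0 0)) (.aff 1000000 0 0)) (.sx 50000 (.sx
 25000 (.aff 500000 1984314 125989) (.aff 1000000 0 0)) (.aff 1000000 0 0))) (.aff 1000000 0 0)))) (.aff
 1000000 0 0)), .pol, (.pol), (.sx 200000 (.sx 100000 (.pol) (.pol)) (.pol)), .pol⟩, .one ⟨2008000, 251,
 542160, 299995, 10019, 0, 0, 400000, 200000, 250000⟩ ⟨0, .pol, .pol, .pol, .pol, (.sx 200000 (.sy 225000 (.sy
 212500 (.sy 206250 (.sx 100000 (.sy 203125 (.sx 50000 (.aff 538000 1950324 109441) (.aff 1000000 0 0)) (.sx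
 50000 (.sx 25000 (.aff 500000 2023302 123561) (.aff 1000000 0 0)) (.aff 1000000 0 0))) (.aff 1000000 0 0))
 (.sx 100000 (.sx 50000 (.sx 25000 (.aff 525000 2043694 110401) (.aff 1000000 0 0)) (.aff 1000000 0 0)) (.aff
 1000000 0 0))) (.sx 100000 (.sy 218750 (.sx 50000 (.sx 25000 (.aff 588000 2082873 81496) (.aff 1000000 0 0))
 (.aff 1000000 0 0)) (.sy 221875 (.sx 50000 (.sx 25000 (.aff 625000 2117855 66400) (.aff 1000000 0 0)) (.aff
 1000000 0 0)) (.sx 50000 (.sx 25000 (.aff 587000 2072940 82284) (.aff 1000000 0 0)) (.aff 1000000 0 0))))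
 (.aff 1000000 0 0))) (.sx 100000 (.sy 237500 (.sy 231250 (.sy 228125 (.sx 50000 (.sx 25000 (.aff 600000
 2072860 77189) (.aff 1000000 0 0)) (.aff 1000000 0 0)) (.sx 50000 (.sx 25000 (.aff 606000 2055800 75512)
 (.aff 1000000 0 0)) (.aff 1000000 0 0))) (.sy 234375 (.sx 50000 (.sx 25000 (.aff 700000 2181152 41263) (.aff
 1000000 0 0)) (.aff 1000000 0 0)) (.sx 50000 (.sx 25000 (.aff 650000 2150437 56966) (.aff 1000000 0 0)) (.aff
 1000000 0 0)))) (.sx 50000 (.sx 25000 (.aff 650000 2079150 58919) (.aff 1000000 0 0)) (.aff 1000000 0 0)))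
 (.aff 1000000 0 0))) (.aff 1000000 0 0)), .pol, (.pol), (.sx 200000 (.pol) (.pol)), .pol⟩, .one ⟨2008000,
 251, 542160, 276702, 15843, 0, 0, 400000, 250000, 300000⟩ ⟨0, .pol, .pol, .pol, .pol, (.sx 200000 (.sx 100000
 (.sx 50000 (.sy 275000 (.sy 262500 (.aff 775000 2051472 24678) (.sx 25000 (.sx 12500 (.aff 825000 1982195
 15451) (.aff 1000000 0 0)) (.aff 1000000 0 0))) (.sx 25000 (.sx 12500 (.sx 6250 (.aff 875000 2070990 7545)
 (.aff 1000000 0 0)) (.aff 1000000 0 0)) (.aff 1000000 0 0))) (.aff 1000000 0 0)) (.aff 1000000 0 0)) (.aff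
 1000000 0 0)), .pol, (.pol), (.sx 200000 (.pol) (.pol)), .pol⟩, .one ⟨2008000, 251, 542160, 251000, 23553, 0,
 0, 400000, 300000, 350000⟩ ⟨0, .pol, .pol, .pol, .pol, (.sx 200000 (.sx 100000 (.sx 50000 (.sx 25000 (.sx
 12500 (.aff 1150000 2522059 8922) (.aff 1000000 0 0)) (.aff 1000000 0 0)) (.aff 1000000 0 0)) (.aff 1000000 0
 0)) (.aff 1000000 0 0)), .pol, (.pol), (.sx 200000 (.pol) (.pol)), .pol⟩, .one ⟨2008000, 251, 542160, 230920,
 30581, 0, 0, 400000, 350000, 400000⟩ ⟨0, .pol, .pol, .pol, .pol, (.sx 200000 (.sx 100000 (.sy 375000 (.sx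
 50000 (.sx 25000 (.aff 1350000 2665521 45958) (.aff 1000000 0 0)) (.aff 1000000 0 0)) (.sx 50000 (.sx 25000
 (.sx 12500 (.aff 1450000 2893096 69995) (.aff 1000000 0 0)) (.aff 1000000 0 0)) (.aff 1000000 0 0))) (.aff
 1000000 0 0)) (.aff 1000000 0 0)), .pol, (.pol), (.sx 200000 (.pol) (.sx 300000 (.pol) (.pol))), .pol⟩, .one
 ⟨2008000, 251, 542160, 207225, 40059, 0, 0, 400000, 400000, 450000⟩ ⟨0, .pol, .pol, .pol, .pol, (.sx 200000
 (.sx 100000 (.sy 425000 (.sy 412500 (.sx 50000 (.aff 1513000 2924550 89987) (.aff 1000000 0 0)) (.sx 50000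
 (.sx 25000 (.aff 1525000 3038658 90707) (.aff 1000000 0 0)) (.aff 1000000 0 0))) (.sx 50000 (.sy 437500 (.sy
 431250 (.sy 428125 (.sx 25000 (.aff 1516000 3014297 88332) (.aff 1000000 0 0)) (.sx 25000 (.sx 12500 (.aff
 2000000 8291562 120605) (.aff 1600000 3146427 114416)) (.aff 1000000 0 0))) (.sy 434375 (.sx 25000 (.sx 12500
 (.aff 2000000 8321659 120169) (.aff 1600000 3157848 114002)) (.aff 1000000 0 0)) (.sx 25000 (.sx 12500 (.aff
 2000000 8351647 119737) (.aff 1600000 3169228 113593)) (.aff 1000000 0 0)))) (.sx 25000 (.aff 1800000 3370460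
 189886) (.aff 1000000 0 0))) (.aff 1000000 0 0))) (.aff 1000000 0 0)) (.aff 1000000 0 0)), .pol, (.pol),
 (.pol), .pol⟩, .one ⟨2008000, 251, 542160, 187948, 48734, 0, 0, 400000, 450000, 500000⟩ ⟨0, .pol, .pol, .pol,
 .pol, (.sx 200000 (.sx 100000 (.sx 50000 (.sx 25000 (.aff 2000000 4358899 229416) (.aff 1875000 3273814
 233864)) (.aff 1000000 0 0)) (.aff 1000000 0 0)) (.aff 1000000 0 0)), .pol, (.pol), (.pol), .pol⟩, .one
 ⟨2008000, 251, 542160, 165057, 60179, 0, 0, 400000, 500000, 550000⟩ ⟨0, .pol, .pol, .pol, .pol, (.sx 200000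
 (.sy 525000 (.sx 100000 (.sx 50000 (.aff 2025000 3604462 291480) (.aff 2125000 3386681 373707)) (.aff 1000000
 0 0)) (.sx 100000 (.sx 50000 (.aff 3000000 6557439 609995) (.aff 2150000 3372463 392147)) (.aff 1000000 0
 0))) (.aff 1000000 0 0)), .pol, (.pol), (.pol), .pol⟩, .one ⟨2008000, 251, 542160, 145780, 70782, 0, 0,
 400000, 550000, 600000⟩ ⟨0, .pol, .pol, .pol, .pol, (.sx 200000 (.sy 575000 (.sy 562500 (.sx 100000 (.sx
 50000 (.aff 3000000 7702814 519291) (.aff 2138000 3394981 381459)) (.aff 1000000 0 0)) (.sx 100000 (.sx 50000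
 (.aff 3000000 7788881 513553) (.sx 75000 (.aff 2500000 4130678 544705) (.aff 2000000 2645752 377965))) (.aff
 1000000 0 0))) (.sy 587500 (.sx 100000 (.sx 50000 (.aff 3000000 9643651 414781) (.sx 75000 (.aff 3000000
 6099181 655826) (.aff 2200000 3209601 448654))) (.aff 1000000 0 0)) (.sx 100000 (.sx 50000 (.aff 3000000
 9746795 410392) (.sx 75000 (.aff 3000000 6164415 648886) (.aff 2300000 3514257 480899))) (.aff 1000000 0
 0)))) (.aff 1000000 0 0)), .pol, (.pol), (.pol), .pol⟩, .one ⟨2008000, 251, 542160, 122889, 84516, 0, 0,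
 400000, 600000, 650000⟩ ⟨0, .pol, .pol, .pol, .pol, (.sx 200000 (.sx 100000 (.aff 2700000 4250000 680000)
 (.sx 150000 (.aff 2500000 3535534 636397) (.aff 1000000 0 0))) (.aff 1000000 0 0)), .pol, (.pol), (.pol),
 .pol⟩, .one ⟨2008000, 251, 542160, 102809, 97568, 0, 0, 400000, 650000, 700000⟩ ⟨0, .pol, .pol, .pol, .pol,
 (.sy 675000 (.sx 200000 (.sx 100000 (.aff 3000000 5944185 672927) (.sx 150000 (.sx 125000 (.aff 3000000
 4723960 846748) (.aff 2800000 3976808 814724)) (.aff 1500000 972846 256978))) (.aff 1000000 0 0)) (.sx 200000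
 (.sx 100000 (.aff 3000000 6055301 660579) (.sx 150000 (.aff 3000000 4281745 934199) (.aff 2825000 3802725
 875853))) (.aff 1000000 0 0))), .pol, (.pol), (.pol), .pol⟩, .one ⟨2008000, 251, 542160, 78312, 114717, 0, 0,
 400000, 700000, 750000⟩ ⟨0, .pol, .pol, .pol, .pol, (.sx 200000 (.sx 100000 (.aff 3000000 6218253 643268)
 (.sx 150000 (.aff 3000000 4592484 870989) (.aff 2900000 3867262 933477))) (.aff 2250000 2352548 664174)),
 .pol, (.pol), (.pol), .pol⟩, .one ⟨2008000, 251, 542160, 56224, 131283, 0, 0, 400000, 750000, 800000⟩ ⟨0,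
 .pol, .pol, .pol, .pol, (.sx 200000 (.aff 5000000 7874008 2032002) (.sx 300000 (.sy 775000 (.sx 250000 (.aff
 3100000 3977954 1108611) (.aff 1500000 832576 300273)) (.sx 250000 (.sx 225000 (.aff 5000000 7700268 2077850)
 (.aff 3100000 3875286 1137981)) (.aff 3000000 3384457 1181874))) (.aff 1000000 0 0))), .pol, (.pol), (.pol),
 .pol⟩, .one ⟨2008000, 251, 542160, 28112, 153772, 0, 0, 400000, 800000, 850000⟩ ⟨0, .pol, .pol, .pol, .pol,
 (.sy 825000 (.sx 200000 (.aff 5000000 9309494 1718676) (.sy 812500 (.sx 300000 (.sx 250000 (.aff 5000000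
 7571878 2113083) (.aff 3200000 3855609 1255315)) (.aff 1500000 758877 329435)) (.sx 300000 (.sx 250000 (.aff
 5000000 7630349 2096890) (.aff 3250000 3973686 1274007)) (.aff 3000000 3058945 1307641)))) (.sx 200000 (.aff
 5000000 9451632 1692830) (.sx 300000 (.sx 250000 (.aff 5000000 7717225 2073285) (.aff 3339000 4074747
 1342641)) (.aff 3500000 4013200 1557361)))), .pol, (.pol), (.pol), .pol⟩, .one ⟨2008000, 251, 542160, 12449,
 167085, 0, 0, 400000, 850000, 900000⟩ ⟨0, .pol, .pol, .pol, .pol, (.sx 200000 (.aff 5000000 9660918 1656158)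
 (.sx 300000 (.aff 5000000 7135061 2242448) (.sx 350000 (.sx 325000 (.aff 4100000 5086559 1889293) (.aff
 3900000 4585303 1834121)) (.sy 875000 (.aff 3500000 3856254 1620744) (.aff 4003000 4586347 1966273))))),
 .pol, (.pol), (.pol), .pol⟩, .one ⟨2008000, 251, 542160, -130922, 296119, 0, 0, 400000, 900000, 950000⟩ ⟨0,
 .pol, .pol, .pol, .pol, (.sx 200000 (.aff 5000000 9933110 1610775) (.aff 5000000 6082763 2630384)), .pol,
 (.pol), (.pol), .pol⟩, .one ⟨2008000, 251, 542160, -123914885, 117890884, 0, 0, 400000, 950000, 1000000⟩ ⟨0,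
 .pol, .pol, .pol, .pol, (.inf 1766353 566139), .pol, (.pol), (.inf 1766353 566139), .pol⟩], []⟩] = true := by
 decide +kernel

theorem II_xC140_80 : PropII xC140_80 := propIIp_of cC140_80

theorem lC140_110_0 : chkPlp ⟨(nat_lit 3), (nat_lit 1000), Int.ofNat (nat_lit 300), 0, ⟨0, 1⟩, ⟨Int.ofNat
 (nat_lit 110), 200⟩⟩ ⟨700000, 750000, 851343, 836787, 866153, 523861, 548266, 500544, 547722, 500000⟩ true
 0 0 [(nat_lit 50), (nat_lit 100), (nat_lit 150), (nat_lit 200), (nat_lit 250), (nat_lit 300), (nat_lit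
 350), (nat_lit 400), (nat_lit 450), (nat_lit 500), (nat_lit 550), (nat_lit 600), (nat_lit 650), (nat_lit
 700), (nat_lit 750), (nat_lit 800), (nat_lit 850), (nat_lit 900), (nat_lit 950), (nat_lit 1000)]
 [(Int.ofNat (nat_lit 788)), (Int.ofNat (nat_lit 1685)), (Int.ofNat (nat_lit 2610)), (Int.ofNat (nat_lit
 3445)), (Int.ofNat (nat_lit 4230)), (Int.ofNat (nat_lit 4923)), (Int.ofNat (nat_lit 5544)), (Int.ofNat
 (nat_lit 6089)), (Int.ofNat (nat_lit 6571)), (Int.ofNat (nat_lit 6981)), (Int.ofNat (nat_lit 7330)),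
 (Int.ofNat (nat_lit 7608)), (Int.ofNat (nat_lit 7823)), (Int.ofNat (nat_lit 7962)), (Int.ofNat (nat_lit
 8035)), (Int.ofNat (nat_lit 8019)), (Int.ofNat (nat_lit 7921)), (Int.ofNat (nat_lit 7692)), (Int.ofNat
 (nat_lit 7464)), (Int.ofNat (nat_lit 7218))] [qC140_110_0_0, qC140_110_0_1, qC140_110_0_2, qC140_110_0_3,
 qC140_110_0_4, qC140_110_0_5, qC140_110_0_6, qC140_110_0_7, qC140_110_0_8, qC140_110_0_9, qC140_110_0_10,
 qC140_110_0_11, qC140_110_0_12, qC140_110_0_13, qC140_110_0_14, qC140_110_0_15, qC140_110_0_16,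
 qC140_110_0_17, qC140_110_0_18, qC140_110_0_19] = true :=
  chkPlp_cons rfl hC140_110_0_0 (chkPlp_cons rfl hC140_110_0_1 (chkPlp_cons rfl hC140_110_0_2 (chkPlp_cons
 rfl hC140_110_0_3 (chkPlp_cons rfl hC140_110_0_4 (chkPlp_cons rfl hC140_110_0_5 (chkPlp_cons rfl
 hC140_110_0_6 (chkPlp_cons rfl hC140_110_0_7 (chkPlp_cons rfl hC140_110_0_8 (chkPlp_cons rfl hC140_110_0_9
 (chkPlp_cons rfl hC140_110_0_10 (chkPlp_cons rfl hC140_110_0_11 (chkPlp_cons rfl hC140_110_0_12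
 (chkPlp_cons rfl hC140_110_0_13 (chkPlp_cons rfl hC140_110_0_14 (chkPlp_cons rfl hC140_110_0_15
 (chkPlp_cons rfl hC140_110_0_16 (chkPlp_cons rfl hC140_110_0_17 (chkPlp_cons rfl hC140_110_0_18
 (chkPlp_cons rfl hC140_110_0_19 chkPlp_nil)))))))))))))))))))

theorem lC140_110_1 : chkPlp ⟨(nat_lit 3), (nat_lit 1000), Int.ofNat (nat_lit 400), 0, ⟨0, 1⟩, ⟨Int.ofNat
 (nat_lit 110), 200⟩⟩ ⟨700000, 750000, 851343, 836787, 866153, 523861, 548266, 500544, 547722, 500000⟩ true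
 0 0 [(nat_lit 50), (nat_lit 100), (nat_lit 150), (nat_lit 200), (nat_lit 250), (nat_lit 300), (nat_lit
 350), (nat_lit 400), (nat_lit 450), (nat_lit 500), (nat_lit 550), (nat_lit 600), (nat_lit 650), (nat_lit
 700), (nat_lit 750), (nat_lit 800), (nat_lit 850), (nat_lit 900), (nat_lit 950), (nat_lit 1000)]
 [(Int.ofNat (nat_lit 726)), (Int.ofNat (nat_lit 1540)), (Int.ofNat (nat_lit 2452)), (Int.ofNat (nat_lit
 3383)), (Int.ofNat (nat_lit 4196)), (Int.ofNat (nat_lit 4941)), (Int.ofNat (nat_lit 5518)), (Int.ofNat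
 (nat_lit 5989)), (Int.ofNat (nat_lit 6333)), (Int.ofNat (nat_lit 6573)), (Int.ofNat (nat_lit 6692)),
 (Int.ofNat (nat_lit 6708)), (Int.ofNat (nat_lit 6597)), (Int.ofNat (nat_lit 6375)), (Int.ofNat (nat_lit
 6007)), (Int.ofNat (nat_lit 5501)), (Int.ofNat (nat_lit 4800)), (Int.ofNat (nat_lit 3875)), (Int.ofNat
 (nat_lit 2560)), (Int.ofNat (nat_lit 407))] [qC140_110_1_0, qC140_110_1_1, qC140_110_1_2, qC140_110_1_3,
 qC140_110_1_4, qC140_110_1_5, qC140_110_1_6, qC140_110_1_7, qC140_110_1_8, qC140_110_1_9, qC140_110_1_10,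
 qC140_110_1_11, qC140_110_1_12, qC140_110_1_13, qC140_110_1_14, qC140_110_1_15, qC140_110_1_16,
 qC140_110_1_17, qC140_110_1_18, qC140_110_1_19] = true :=
  chkPlp_cons rfl hC140_110_1_0 (chkPlp_cons rfl hC140_110_1_1 (chkPlp_cons rfl hC140_110_1_2 (chkPlp_cons
 rfl hC140_110_1_3 (chkPlp_cons rfl hC140_110_1_4 (chkPlp_cons rfl hC140_110_1_5 (chkPlp_cons rfl
 hC140_110_1_6 (chkPlp_cons rfl hC140_110_1_7 (chkPlp_cons rfl hC140_110_1_8 (chkPlp_cons rfl hC140_110_1_9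
 (chkPlp_cons rfl hC140_110_1_10 (chkPlp_cons rfl hC140_110_1_11 (chkPlp_cons rfl hC140_110_1_12
 (chkPlp_cons rfl hC140_110_1_13 (chkPlp_cons rfl hC140_110_1_14 (chkPlp_cons rfl hC140_110_1_15
 (chkPlp_cons rfl hC140_110_1_16 (chkPlp_cons rfl hC140_110_1_17 (chkPlp_cons rfl hC140_110_1_18
 (chkPlp_cons rfl hC140_110_1_19 chkPlp_nil)))))))))))))))))))

theorem lC140_110_2 : chkPlp ⟨(nat_lit 3), (nat_lit 1000), Int.ofNat (nat_lit 600), 0, ⟨0, 1⟩, ⟨Int.ofNat
 (nat_lit 110), 200⟩⟩ ⟨700000, 750000, 851343, 836787, 866153, 523861, 548266, 500544, 547722, 500000⟩ true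
 0 0 [(nat_lit 50), (nat_lit 100), (nat_lit 150), (nat_lit 200), (nat_lit 250), (nat_lit 300), (nat_lit
 350), (nat_lit 400), (nat_lit 450), (nat_lit 500), (nat_lit 550), (nat_lit 600), (nat_lit 650), (nat_lit
 700), (nat_lit 750), (nat_lit 800), (nat_lit 850), (nat_lit 900), (nat_lit 950), (nat_lit 1000)]
 [(Int.ofNat (nat_lit 692)), (Int.ofNat (nat_lit 1469)), (Int.ofNat (nat_lit 2331)), (Int.ofNat (nat_lit
 3289)), (Int.ofNat (nat_lit 4154)), (Int.ofNat (nat_lit 4951)), (Int.ofNat (nat_lit 5473)), (Int.ofNat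
 (nat_lit 5783)), (Int.ofNat (nat_lit 5862)), (Int.ofNat (nat_lit 5752)), (Int.ofNat (nat_lit 5421)),
 (Int.ofNat (nat_lit 4902)), (Int.ofNat (nat_lit 4151)), (Int.ofNat (nat_lit 3193)), (Int.ofNat (nat_lit
 1958)), (Int.ofNat (nat_lit 459)), (Int.negSucc (nat_lit 1427)), (Int.negSucc (nat_lit 3769)), (Int.negSucc
 (nat_lit 6925)), (Int.negSucc (nat_lit 11909))] [qC140_110_2_0, qC140_110_2_1, qC140_110_2_2,
 qC140_110_2_3, qC140_110_2_4, qC140_110_2_5, qC140_110_2_6, qC140_110_2_7, qC140_110_2_8, qC140_110_2_9,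
 qC140_110_2_10, qC140_110_2_11, qC140_110_2_12, qC140_110_2_13, qC140_110_2_14, qC140_110_2_15,
 qC140_110_2_16, qC140_110_2_17, qC140_110_2_18, qC140_110_2_19] = true :=
  chkPlp_cons rfl hC140_110_2_0 (chkPlp_cons rfl hC140_110_2_1 (chkPlp_cons rfl hC140_110_2_2 (chkPlp_cons
 rfl hC140_110_2_3 (chkPlp_cons rfl hC140_110_2_4 (chkPlp_cons rfl hC140_110_2_5 (chkPlp_cons rfl
 hC140_110_2_6 (chkPlp_cons rfl hC140_110_2_7 (chkPlp_cons rfl hC140_110_2_8 (chkPlp_cons rfl hC140_110_2_9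
 (chkPlp_cons rfl hC140_110_2_10 (chkPlp_cons rfl hC140_110_2_11 (chkPlp_cons rfl hC140_110_2_12
 (chkPlp_cons rfl hC140_110_2_13 (chkPlp_cons rfl hC140_110_2_14 (chkPlp_cons rfl hC140_110_2_15
 (chkPlp_cons rfl hC140_110_2_16 (chkPlp_cons rfl hC140_110_2_17 (chkPlp_cons rfl hC140_110_2_18
 (chkPlp_cons rfl hC140_110_2_19 chkPlp_nil)))))))))))))))))))

theorem lC140_110_3 : chkPlp ⟨(nat_lit 3), (nat_lit 1000), Int.ofNat (nat_lit 1000), 0, ⟨0, 1⟩, ⟨Int.ofNat
 (nat_lit 110), 200⟩⟩ ⟨700000, 750000, 851343, 836787, 866153, 523861, 548266, 500544, 547722, 500000⟩ true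
 0 0 [(nat_lit 50), (nat_lit 100), (nat_lit 150), (nat_lit 200), (nat_lit 250), (nat_lit 300), (nat_lit
 350), (nat_lit 400), (nat_lit 450), (nat_lit 500), (nat_lit 550), (nat_lit 600), (nat_lit 650), (nat_lit
 700), (nat_lit 750), (nat_lit 800), (nat_lit 850), (nat_lit 900), (nat_lit 950), (nat_lit 1000)]
 [(Int.ofNat (nat_lit 677)), (Int.ofNat (nat_lit 1436)), (Int.ofNat (nat_lit 2278)), (Int.ofNat (nat_lit
 3215)), (Int.ofNat (nat_lit 4165)), (Int.ofNat (nat_lit 4998)), (Int.ofNat (nat_lit 5399)), (Int.ofNat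
 (nat_lit 5391)), (Int.ofNat (nat_lit 4944)), (Int.ofNat (nat_lit 4135)), (Int.ofNat (nat_lit 2910)),
 (Int.ofNat (nat_lit 1326)), (Int.negSucc (nat_lit 702)), (Int.negSucc (nat_lit 3126)), (Int.negSucc
 (nat_lit 6091)), (Int.negSucc (nat_lit 9570)), (Int.negSucc (nat_lit 13827)), (Int.negSucc (nat_lit
 18996)), (Int.negSucc (nat_lit 25864)), (Int.negSucc (nat_lit 36501))] [qC140_110_3_0, qC140_110_3_1,
 qC140_110_3_2, qC140_110_3_3, qC140_110_3_4, qC140_110_3_5, qC140_110_3_6, qC140_110_3_7, qC140_110_3_8,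
 qC140_110_3_9, qC140_110_3_10, qC140_110_3_11, qC140_110_3_12, qC140_110_3_13, qC140_110_3_14,
 qC140_110_3_15, qC140_110_3_16, qC140_110_3_17, qC140_110_3_18, qC140_110_3_19] = true :=
  chkPlp_cons rfl hC140_110_3_0 (chkPlp_cons rfl hC140_110_3_1 (chkPlp_cons rfl hC140_110_3_2 (chkPlp_cons
 rfl hC140_110_3_3 (chkPlp_cons rfl hC140_110_3_4 (chkPlp_cons rfl hC140_110_3_5 (chkPlp_cons rfl
 hC140_110_3_6 (chkPlp_cons rfl hC140_110_3_7 (chkPlp_cons rfl hC140_110_3_8 (chkPlp_cons rfl hC140_110_3_9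
 (chkPlp_cons rfl hC140_110_3_10 (chkPlp_cons rfl hC140_110_3_11 (chkPlp_cons rfl hC140_110_3_12
 (chkPlp_cons rfl hC140_110_3_13 (chkPlp_cons rfl hC140_110_3_14 (chkPlp_cons rfl hC140_110_3_15
 (chkPlp_cons rfl hC140_110_3_16 (chkPlp_cons rfl hC140_110_3_17 (chkPlp_cons rfl hC140_110_3_18
 (chkPlp_cons rfl hC140_110_3_19 chkPlp_nil)))))))))))))))))))

theorem lC140_110_4 : chkPlp ⟨(nat_lit 3), (nat_lit 1000), Int.ofNat (nat_lit 2000), 0, ⟨0, 1⟩, ⟨Int.ofNat
 (nat_lit 110), 200⟩⟩ ⟨700000, 750000, 851343, 836787, 866153, 523861, 548266, 500544, 547722, 500000⟩ true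
 0 0 [(nat_lit 50), (nat_lit 100), (nat_lit 150), (nat_lit 200), (nat_lit 250), (nat_lit 300), (nat_lit
 350), (nat_lit 400), (nat_lit 450), (nat_lit 500), (nat_lit 550), (nat_lit 600), (nat_lit 650), (nat_lit
 700), (nat_lit 750), (nat_lit 800), (nat_lit 850), (nat_lit 900), (nat_lit 950), (nat_lit 1000)]
 [(Int.ofNat (nat_lit 673)), (Int.ofNat (nat_lit 1426)), (Int.ofNat (nat_lit 2260)), (Int.ofNat (nat_lit
 3176)), (Int.ofNat (nat_lit 4160)), (Int.ofNat (nat_lit 5117)), (Int.ofNat (nat_lit 5214)), (Int.ofNat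
 (nat_lit 4410)), (Int.ofNat (nat_lit 2646)), (Int.ofNat (nat_lit 93)), (Int.negSucc (nat_lit 3372)),
 (Int.negSucc (nat_lit 7621)), (Int.negSucc (nat_lit 12838)), (Int.negSucc (nat_lit 18931)), (Int.negSucc
 (nat_lit 26222)), (Int.negSucc (nat_lit 34651)), (Int.negSucc (nat_lit 44831)), (Int.negSucc (nat_lit
 57068)), (Int.negSucc (nat_lit 73186)), (Int.negSucc (nat_lit 97956))] [qC140_110_4_0, qC140_110_4_1,
 qC140_110_4_2, qC140_110_4_3, qC140_110_4_4, qC140_110_4_5, qC140_110_4_6, qC140_110_4_7, qC140_110_4_8,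
 qC140_110_4_9, qC140_110_4_10, qC140_110_4_11, qC140_110_4_12, qC140_110_4_13, qC140_110_4_14,
 qC140_110_4_15, qC140_110_4_16, qC140_110_4_17, qC140_110_4_18, qC140_110_4_19] = true :=
  chkPlp_cons rfl hC140_110_4_0 (chkPlp_cons rfl hC140_110_4_1 (chkPlp_cons rfl hC140_110_4_2 (chkPlp_cons
 rfl hC140_110_4_3 (chkPlp_cons rfl hC140_110_4_4 (chkPlp_cons rfl hC140_110_4_5 (chkPlp_cons rfl
 hC140_110_4_6 (chkPlp_cons rfl hC140_110_4_7 (chkPlp_cons rfl hC140_110_4_8 (chkPlp_cons rfl hC140_110_4_9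
 (chkPlp_cons rfl hC140_110_4_10 (chkPlp_cons rfl hC140_110_4_11 (chkPlp_cons rfl hC140_110_4_12
 (chkPlp_cons rfl hC140_110_4_13 (chkPlp_cons rfl hC140_110_4_14 (chkPlp_cons rfl hC140_110_4_15
 (chkPlp_cons rfl hC140_110_4_16 (chkPlp_cons rfl hC140_110_4_17 (chkPlp_cons rfl hC140_110_4_18
 (chkPlp_cons rfl hC140_110_4_19 chkPlp_nil)))))))))))))))))))

theorem lC140_110_5 : chkPlp ⟨(nat_lit 3), (nat_lit 1000), Int.ofNat (nat_lit 4000), 0, ⟨0, 1⟩, ⟨Int.ofNat
 (nat_lit 110), 200⟩⟩ ⟨700000, 750000, 851343, 836787, 866153, 523861, 548266, 500544, 547722, 500000⟩ true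
 0 0 [(nat_lit 50), (nat_lit 100), (nat_lit 150), (nat_lit 200), (nat_lit 250), (nat_lit 300), (nat_lit
 350), (nat_lit 400), (nat_lit 450), (nat_lit 500), (nat_lit 550), (nat_lit 600), (nat_lit 650), (nat_lit
 700), (nat_lit 750), (nat_lit 800), (nat_lit 850), (nat_lit 900), (nat_lit 950), (nat_lit 1000)]
 [(Int.ofNat (nat_lit 679)), (Int.ofNat (nat_lit 1437)), (Int.ofNat (nat_lit 2275)), (Int.ofNat (nat_lit
 3194)), (Int.ofNat (nat_lit 4186)), (Int.ofNat (nat_lit 5342)), (Int.ofNat (nat_lit 4828)), (Int.ofNat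
 (nat_lit 2431)), (Int.negSucc (nat_lit 1968)), (Int.negSucc (nat_lit 8016)), (Int.negSucc (nat_lit 15957)),
 (Int.negSucc (nat_lit 25534)), (Int.negSucc (nat_lit 37150)), (Int.negSucc (nat_lit 50592)), (Int.negSucc
 (nat_lit 66504)), (Int.negSucc (nat_lit 84854)), (Int.negSucc (nat_lit 106887)), (Int.negSucc (nat_lit
 133264)), (Int.negSucc (nat_lit 167887)), (Int.negSucc (nat_lit 220931))] [qC140_110_5_0, qC140_110_5_1,
 qC140_110_5_2, qC140_110_5_3, qC140_110_5_4, qC140_110_5_5, qC140_110_5_6, qC140_110_5_7, qC140_110_5_8,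
 qC140_110_5_9, qC140_110_5_10, qC140_110_5_11, qC140_110_5_12, qC140_110_5_13, qC140_110_5_14,
 qC140_110_5_15, qC140_110_5_16, qC140_110_5_17, qC140_110_5_18, qC140_110_5_19] = true :=
  chkPlp_cons rfl hC140_110_5_0 (chkPlp_cons rfl hC140_110_5_1 (chkPlp_cons rfl hC140_110_5_2 (chkPlp_cons
 rfl hC140_110_5_3 (chkPlp_cons rfl hC140_110_5_4 (chkPlp_cons rfl hC140_110_5_5 (chkPlp_cons rfl
 hC140_110_5_6 (chkPlp_cons rfl hC140_110_5_7 (chkPlp_cons rfl hC140_110_5_8 (chkPlp_cons rfl hC140_110_5_9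
 (chkPlp_cons rfl hC140_110_5_10 (chkPlp_cons rfl hC140_110_5_11 (chkPlp_cons rfl hC140_110_5_12
 (chkPlp_cons rfl hC140_110_5_13 (chkPlp_cons rfl hC140_110_5_14 (chkPlp_cons rfl hC140_110_5_15
 (chkPlp_cons rfl hC140_110_5_16 (chkPlp_cons rfl hC140_110_5_17 (chkPlp_cons rfl hC140_110_5_18
 (chkPlp_cons rfl hC140_110_5_19 chkPlp_nil)))))))))))))))))))

def cC140_110 : chkIIp xC140_110 ⟨700000, 750000, 851343, 836787, 866153, 523861, 548266, 500544, 547722,
 500000⟩ [⟨[qC140_110_0_0, qC140_110_0_1, qC140_110_0_2, qC140_110_0_3, qC140_110_0_4, qC140_110_0_5,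
 qC140_110_0_6, qC140_110_0_7, qC140_110_0_8, qC140_110_0_9, qC140_110_0_10, qC140_110_0_11, qC140_110_0_12,
 qC140_110_0_13, qC140_110_0_14, qC140_110_0_15, qC140_110_0_16, qC140_110_0_17, qC140_110_0_18,
 qC140_110_0_19], []⟩, ⟨[qC140_110_1_0, qC140_110_1_1, qC140_110_1_2, qC140_110_1_3, qC140_110_1_4,
 qC140_110_1_5, qC140_110_1_6, qC140_110_1_7, qC140_110_1_8, qC140_110_1_9, qC140_110_1_10, qC140_110_1_11,
 qC140_110_1_12, qC140_110_1_13, qC140_110_1_14, qC140_110_1_15, qC140_110_1_16, qC140_110_1_17,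
 qC140_110_1_18, qC140_110_1_19], []⟩, ⟨[qC140_110_2_0, qC140_110_2_1, qC140_110_2_2, qC140_110_2_3,
 qC140_110_2_4, qC140_110_2_5, qC140_110_2_6, qC140_110_2_7, qC140_110_2_8, qC140_110_2_9, qC140_110_2_10,
 qC140_110_2_11, qC140_110_2_12, qC140_110_2_13, qC140_110_2_14, qC140_110_2_15, qC140_110_2_16,
 qC140_110_2_17, qC140_110_2_18, qC140_110_2_19], []⟩, ⟨[qC140_110_3_0, qC140_110_3_1, qC140_110_3_2,
 qC140_110_3_3, qC140_110_3_4, qC140_110_3_5, qC140_110_3_6, qC140_110_3_7, qC140_110_3_8, qC140_110_3_9,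
 qC140_110_3_10, qC140_110_3_11, qC140_110_3_12, qC140_110_3_13, qC140_110_3_14, qC140_110_3_15,
 qC140_110_3_16, qC140_110_3_17, qC140_110_3_18, qC140_110_3_19], []⟩, ⟨[qC140_110_4_0, qC140_110_4_1,
 qC140_110_4_2, qC140_110_4_3, qC140_110_4_4, qC140_110_4_5, qC140_110_4_6, qC140_110_4_7, qC140_110_4_8,
 qC140_110_4_9, qC140_110_4_10, qC140_110_4_11, qC140_110_4_12, qC140_110_4_13, qC140_110_4_14,
 qC140_110_4_15, qC140_110_4_16, qC140_110_4_17, qC140_110_4_18, qC140_110_4_19], []⟩, ⟨[qC140_110_5_0,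
 qC140_110_5_1, qC140_110_5_2, qC140_110_5_3, qC140_110_5_4, qC140_110_5_5, qC140_110_5_6, qC140_110_5_7,
 qC140_110_5_8, qC140_110_5_9, qC140_110_5_10, qC140_110_5_11, qC140_110_5_12, qC140_110_5_13,
 qC140_110_5_14, qC140_110_5_15, qC140_110_5_16, qC140_110_5_17, qC140_110_5_18, qC140_110_5_19], []⟩] =
 true := chkIIp_mk (by decide +kernel) (chkClsp_cons lC140_110_0 (chkClsp_cons lC140_110_1 (chkClsp_cons
 lC140_110_2 (chkClsp_cons lC140_110_3 (chkClsp_cons lC140_110_4 (chkClsp_cons lC140_110_5 chkClsp_nil))))))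

theorem II_xC140_110 : PropII xC140_110 := propIIp_of cC140_110

end CB
end Pool.Agent.Lib.MP_6947cd_al
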