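import Pool.Agent.Lib.MP_6947cd_al.L.PairC
import Pool.Agent.Lib.MP_6947cd_al.L.BoxLibC
import Pool.Agent.Lib.MP_6947cd_al.PS.C150_110_0
import Pool.Agent.Lib.MP_6947cd_al.PS.C150_110_1
import Pool.Agent.Lib.MP_6947cd_al.PS.C150_110_2

/-!
Problem MP_6947cd_al (Chollet).  Library of pair functions: certificates (generated).
-/

set_option autoImplicit false
set_option linter.defProp false
set_option maxRecDepth 100000

namespace Pool.Agent.Lib.MP_6947cd_al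
namespace CB

open CA

def cC150_80 : chkIIp xC150_80 ⟨750000, 800000, 880226, 866140, 894542, 473607, 500736, 447950, 500000,
 447213⟩ [⟨[.one ⟨2008000, 251, 542160, 346982, 0, 0, 0, 400000, 0, 50000⟩ ⟨50000, (.sp 250000 (.aff 2309402
 433013) (.sp 500000 (.aff 1511858 661438) (.aff 1264912 790569))), (.aff 866026 1154700), (.pol), (.pol),
 (.sx 225000 (.sx 137500 (.aff 0 720345 1388224) (.aff 1000000 0 0)) (.aff 1000000 0 0)), (.sx 25000 (.aff 0
 1553352 643770) (.aff 0 1264912 790569)), (.pol), (.pol), (.pol)⟩, .one ⟨2008000, 251, 542160, 381118, -1707,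
 0, 0, 400000, 50000, 100000⟩ ⟨0, .pol, .pol, .pol, .pol, (.sx 200000 (.sx 100000 (.sx 50000 (.sx 25000 (.sy
 75000 (.aff 0 1581139 632456) (.aff 0 2160247 462911)) (.sx 37500 (.sy 75000 (.aff 0 1414214 707107) (.aff
 75000 1472333 581136)) (.sy 75000 (.aff 50000 1208160 747004) (.aff 125000 1237437 618719)))) (.aff 113000
 971660 809717)) (.aff 1000000 0 0)) (.aff 1000000 0 0)), .pol, (.pol), (.sy 75000 (.sx 200000 (.sy 62500 (.sx
 100000 (.sx 50000 (.pol) (.pol)) (.pol)) (.sx 100000 (.sx 50000 (.pol) (.pol)) (.pol))) (.pol)) (.sx 200000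
 (.sy 87500 (.sx 100000 (.sx 50000 (.pol) (.pol)) (.pol)) (.sx 100000 (.sx 50000 (.pol) (.pol)) (.pol)))
 (.pol))), .pol⟩, .one ⟨2008000, 251, 542160, 334131, 2991, 0, 0, 400000, 100000, 150000⟩ ⟨0, .pol, .pol,
 .pol, .pol, (.sx 200000 (.sy 125000 (.sy 112500 (.sx 100000 (.sx 50000 (.aff 200000 1649243 388057) (.aff
 1000000 0 0)) (.aff 1000000 0 0)) (.sx 100000 (.sx 50000 (.sx 25000 (.aff 250000 1887459 298020) (.aff 250000
 1462020 384742)) (.aff 1000000 0 0)) (.aff 1000000 0 0))) (.sx 100000 (.sy 137500 (.sx 50000 (.sx 25000 (.aff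
 300000 1852026 264576) (.aff 500000 1024696 243975)) (.aff 1000000 0 0)) (.sx 50000 (.sx 25000 (.aff 300000
 1855075 264141) (.aff 1000000 0 0)) (.aff 1000000 0 0))) (.aff 1000000 0 0))) (.aff 1000000 0 0)), .pol,
 (.pol), (.sx 200000 (.sx 100000 (.pol) (.pol)) (.pol)), .pol⟩, .one ⟨2008000, 251, 542160, 306019, 7208, 0,
 0, 400000, 150000, 200000⟩ ⟨0, .pol, .pol, .pol, .pol, (.sx 200000 (.sy 175000 (.sx 100000 (.sy 162500 (.sy
 156250 (.sx 50000 (.sx 25000 (.sy 153125 (.aff 350000 1848029 228622) (.aff 400000 1904618 189015)) (.aff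
 1000000 0 0)) (.aff 1000000 0 0)) (.sx 50000 (.sx 25000 (.sx 12500 (.aff 500000 2061553 121268) (.aff 500000
 1457738 171499)) (.aff 1000000 0 0)) (.aff 1000000 0 0))) (.sy 168750 (.sy 165625 (.sx 50000 (.sx 25000 (.sx
 12500 (.aff 500000 2091651 119523) (.aff 1000000 0 0)) (.aff 1000000 0 0)) (.aff 1000000 0 0)) (.sx 50000
 (.sx 25000 (.aff 494000 1994663 128361) (.aff 1000000 0 0)) (.aff 1000000 0 0))) (.sx 50000 (.sx 25000 (.aff
 507000 2020356 120301) (.aff 1000000 0 0)) (.aff 1000000 0 0)))) (.aff 1000000 0 0)) (.sx 100000 (.sy 187500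
 (.sy 181250 (.sy 178125 (.sx 50000 (.sx 25000 (.sx 12500 (.aff 525000 2061376 109454) (.aff 1000000 0 0))
 (.aff 1000000 0 0)) (.aff 1000000 0 0)) (.sx 50000 (.sx 25000 (.aff 600000 2091807 76489) (.aff 1000000 0 0))
 (.aff 1000000 0 0))) (.sy 184375 (.sx 50000 (.sx 25000 (.aff 600000 2057824 77753) (.aff 1000000 0 0)) (.aff
 1000000 0 0)) (.sx 50000 (.sx 25000 (.aff 625000 2045384 68753) (.aff 1000000 0 0)) (.aff 1000000 0 0))))
 (.sx 50000 (.sx 25000 (.aff 625000 2087912 67352) (.aff 1000000 0 0)) (.aff 1000000 0 0))) (.aff 1000000 0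
 0))) (.aff 1000000 0 0)), .pol, (.pol), (.sx 200000 (.sx 100000 (.pol) (.pol)) (.pol)), .pol⟩, .one ⟨2008000,
 251, 542160, 270678, 14276, 0, 0, 400000, 200000, 250000⟩ ⟨0, .pol, .pol, .pol, .pol, (.sx 200000 (.sx 100000
 (.sx 50000 (.sy 225000 (.aff 775000 2064632 24521) (.sx 25000 (.sx 12500 (.sx 6250 (.aff 875000 1882309 8301)
 (.aff 1000000 0 0)) (.aff 1000000 0 0)) (.aff 1000000 0 0))) (.aff 1000000 0 0)) (.aff 1000000 0 0)) (.aff
 1000000 0 0)), .pol, (.pol), (.sx 200000 (.pol) (.pol)), .pol⟩, .one ⟨2008000, 251, 542160, 248188, 19899, 0,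
 0, 400000, 250000, 300000⟩ ⟨0, .pol, .pol, .pol, .pol, (.sx 200000 (.sx 100000 (.sx 50000 (.sx 25000 (.sx
 12500 (.aff 1150000 2563949 8776) (.aff 1000000 0 0)) (.aff 1000000 0 0)) (.aff 1000000 0 0)) (.aff 1000000 0
 0)) (.aff 1000000 0 0)), .pol, (.pol), (.sx 200000 (.pol) (.pol)), .pol⟩, .one ⟨2008000, 251, 542160, 225297,
 26766, 0, 0, 400000, 300000, 350000⟩ ⟨0, .pol, .pol, .pol, .pol, (.sx 200000 (.sx 100000 (.sx 50000 (.sx
 25000 (.sx 12500 (.aff 1450000 3078313 65783) (.aff 1000000 0 0)) (.aff 1000000 0 0)) (.aff 1000000 0 0))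
 (.aff 1000000 0 0)) (.aff 1000000 0 0)), .pol, (.pol), (.sx 200000 (.pol) (.pol)), .pol⟩, .one ⟨2008000, 251,
 542160, 207627, 32951, 0, 0, 400000, 350000, 400000⟩ ⟨0, .pol, .pol, .pol, .pol, (.sx 200000 (.sx 100000 (.sy
 375000 (.sy 362500 (.sx 50000 (.aff 1563000 3005598 105460) (.aff 1000000 0 0)) (.sx 50000 (.sy 368750 (.sx
 25000 (.aff 1575000 3109788 106318) (.aff 1000000 0 0)) (.sy 371875 (.sx 25000 (.sx 12500 (.aff 2000000
 6284903 159112) (.aff 1600000 2920959 123248)) (.aff 1000000 0 0)) (.sx 25000 (.sx 12500 (.aff 2000000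
 7729813 129370) (.aff 1600000 2933258 122731)) (.aff 1000000 0 0)))) (.aff 1000000 0 0))) (.sy 387500 (.sy
 381250 (.sx 50000 (.sy 378125 (.sx 25000 (.sx 12500 (.aff 2000000 7762088 128832) (.aff 1600000 2945506
 122221)) (.aff 1000000 0 0)) (.sx 25000 (.aff 1850000 3482386 207473) (.aff 1000000 0 0))) (.aff 1000000 0
 0)) (.sx 50000 (.sx 25000 (.aff 1900000 3528988 229528) (.aff 1000000 0 0)) (.aff 1000000 0 0))) (.sy 393750
 (.sx 50000 (.sx 25000 (.aff 2000000 3952848 252983) (.aff 1000000 0 0)) (.aff 1000000 0 0)) (.sx 50000 (.sx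
 25000 (.aff 2000000 3984345 250983) (.aff 1000000 0 0)) (.aff 1000000 0 0))))) (.aff 1000000 0 0)) (.aff
 1000000 0 0)), .pol, (.pol), (.sx 200000 (.pol) (.sx 300000 (.pol) (.pol))), .pol⟩, .one ⟨2008000, 251,
 542160, 188350, 40662, 0, 0, 400000, 400000, 450000⟩ ⟨0, .pol, .pol, .pol, .pol, (.sx 200000 (.sx 100000 (.sx
 50000 (.sx 25000 (.aff 2000000 4123106 242536) (.aff 1975000 3282340 289619)) (.aff 1000000 0 0)) (.aff
 1000000 0 0)) (.aff 1000000 0 0)), .pol, (.pol), (.pol), .pol⟩, .one ⟨2008000, 251, 542160, 173892, 47167, 0,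
 0, 400000, 450000, 500000⟩ ⟨0, .pol, .pol, .pol, .pol, (.sx 200000 (.sy 475000 (.sx 100000 (.sx 50000 (.aff
 2100000 3674669 329282) (.aff 2225000 3416720 439201)) (.aff 1000000 0 0)) (.sy 487500 (.sx 100000 (.sx 50000
 (.aff 3000000 7164729 558291) (.aff 2250000 3468610 450469)) (.aff 1000000 0 0)) (.sx 100000 (.sx 50000 (.aff
 3000000 7257181 551179) (.aff 2200000 3372833 426941)) (.aff 1000000 0 0)))) (.aff 1000000 0 0)), .pol,
 (.pol), (.pol), .pol⟩, .one ⟨2008000, 251, 542160, 157828, 55199, 0, 0, 400000, 500000, 550000⟩ ⟨0, .pol,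
 .pol, .pol, .pol, (.sx 200000 (.sy 525000 (.sy 512500 (.sx 100000 (.sx 50000 (.aff 3000000 7348470 544331)
 (.sx 75000 (.aff 2500000 3897115 577351) (.aff 1500000 1202676 207870))) (.aff 1000000 0 0)) (.sx 100000 (.sx
 50000 (.aff 3000000 7438638 537733) (.sx 75000 (.aff 3000000 5259912 760469) (.aff 2200000 3032136 474913)))
 (.aff 1000000 0 0))) (.sy 537500 (.sy 531250 (.sx 100000 (.sx 50000 (.aff 3000000 9192389 435143) (.sx 75000
 (.aff 3000000 5813777 688021) (.aff 2300000 3314363 509902))) (.aff 1000000 0 0)) (.sx 100000 (.sx 50000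
 (.aff 3000000 9246622 432591) (.sx 75000 (.aff 3000000 5848077 683986) (.aff 2400000 3590372 545905))) (.aff
 1000000 0 0))) (.sx 100000 (.sx 50000 (.aff 3000000 9327380 428845) (.sx 75000 (.aff 3000000 5899153 678064)
 (.aff 2650000 3847544 707595))) (.aff 1000000 0 0)))) (.aff 1000000 0 0)), .pol, (.pol), (.pol), .pol⟩, .one
 ⟨2008000, 251, 542160, 144576, 62488, 0, 0, 400000, 550000, 600000⟩ ⟨0, .pol, .pol, .pol, .pol, (.sy 575000
 (.sx 200000 (.sx 100000 (.aff 2900000 4506246 801111) (.aff 2412000 3310324 602281)) (.aff 1000000 0 0)) (.sx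
 200000 (.sx 100000 (.aff 3000000 4847680 825137) (.sx 150000 (.sx 125000 (.aff 2800000 3902308 830278) (.aff
 1500000 1033529 241890)) (.aff 1000000 0 0))) (.aff 1000000 0 0))), .pol, (.pol), (.pol), .pol⟩, .one
 ⟨2008000, 251, 542160, 130520, 70922, 0, 0, 400000, 600000, 650000⟩ ⟨0, .pol, .pol, .pol, .pol, (.sy 625000
 (.sx 200000 (.sx 100000 (.aff 3000000 5715477 699855) (.sx 150000 (.aff 2900000 4010101 900227) (.aff 1500000
 935415 267262))) (.aff 1000000 0 0)) (.sy 637500 (.sx 200000 (.sx 100000 (.aff 3000000 5802299 689382) (.sx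
 150000 (.aff 3000000 4285282 933428) (.aff 2100000 2168038 558109))) (.aff 1000000 0 0)) (.sx 200000 (.sx
 100000 (.aff 3000000 5859466 682657) (.sx 150000 (.aff 3000000 4327502 924321) (.sx 175000 (.aff 3000000
 3980723 1004843) (.aff 1500000 926463 269844)))) (.aff 1000000 0 0)))), .pol, (.pol), (.pol), .pol⟩, .one
 ⟨2008000, 251, 542160, 119275, 78231, 0, 0, 400000, 650000, 700000⟩ ⟨0, .pol, .pol, .pol, .pol, (.sx 200000
 (.sx 100000 (.aff 3000000 6000001 666667) (.sx 150000 (.aff 3000000 4431294 902671) (.aff 3000000 3927923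
 1018350))) (.aff 2300000 2360776 715867)), .pol, (.pol), (.pol), .pol⟩, .one ⟨2008000, 251, 542160, 106022,
 87508, 0, 0, 400000, 700000, 750000⟩ ⟨0, .pol, .pol, .pol, .pol, (.sx 200000 (.aff 5000000 7615774 2100903)
 (.sx 300000 (.sy 725000 (.sx 250000 (.aff 3100000 3845319 1146849) (.aff 1000000 0 0)) (.sx 250000 (.sx
 225000 (.aff 5000000 7451806 2147131) (.aff 3100000 3750244 1175924)) (.aff 3000000 3275252 1221281))) (.aff
 1000000 0 0))), .pol, (.pol), (.pol), .pol⟩, .one ⟨2008000, 251, 542160, 95580, 95339, 0, 0, 400000, 750000,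
 800000⟩ ⟨0, .pol, .pol, .pol, .pol, (.sx 200000 (.aff 5000000 9092122 1759766) (.sy 775000 (.sx 300000 (.sx
 250000 (.aff 5000000 7167177 2232400) (.aff 3300000 3919974 1349499)) (.aff 2000000 1475999 677508)) (.sy
 787500 (.sx 300000 (.sx 250000 (.aff 5000000 7453560 2146626) (.sx 275000 (.aff 5000000 6900656 2318621)
 (.aff 3100000 3500000 1260000))) (.aff 3000000 3100869 1289961)) (.sx 300000 (.aff 4000000 4879806 1844336)
 (.aff 3000000 3125577 1279764))))), .pol, (.pol), (.pol), .pol⟩, .one ⟨2008000, 251, 542160, 82729, 105620,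
 0, 0, 400000, 800000, 850000⟩ ⟨0, .pol, .pol, .pol, .pol, (.sx 200000 (.aff 5000000 9380832 1705606) (.sx
 300000 (.aff 5000000 6633250 2412091) (.sx 350000 (.aff 3481000 3981073 1546157) (.aff 3400000 3620631
 1590883)))), .pol, (.pol), (.pol), .pol⟩, .one ⟨2008000, 251, 542160, 72689, 114154, 0, 0, 400000, 850000,
 900000⟩ ⟨0, .pol, .pol, .pol, .pol, (.sx 200000 (.aff 5000000 9660918 1656158) (.sx 300000 (.aff 5000000
 7483315 2138090) (.sx 350000 (.aff 5000000 6563302 2437798) (.aff 4000000 4437060 2028371)))), .pol, (.pol),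
 (.pol), .pol⟩, .one ⟨2008000, 251, 542160, -124071509, 111843933, 0, 0, 400000, 900000, 950000⟩ ⟨0, .pol,
 .pol, .pol, .pol, (.inf 1720466 581238), .pol, (.pol), (.inf 1720466 581238), .pol⟩, .one ⟨2008000, 251,
 542160, 0, -6024000, 0, 0, 400000, 950000, 1000000⟩ ⟨0, .pol, .pol, .pol, .pol, (.inf 1766353 566139), .pol,
 (.pol), (.inf 1766353 566139), .pol⟩], []⟩] = true := by decide +kernel

theorem II_xC150_80 : PropII xC150_80 := propIIp_of cC150_80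

theorem lC150_110_0 : chkPlp ⟨(nat_lit 3), (nat_lit 1000), Int.ofNat (nat_lit 300), 0, ⟨0, 1⟩, ⟨Int.ofNat
 (nat_lit 110), 200⟩⟩ ⟨750000, 800000, 880226, 866140, 894542, 473607, 500736, 447950, 500000, 447213⟩ true
 0 0 [(nat_lit 50), (nat_lit 100), (nat_lit 150), (nat_lit 200), (nat_lit 250), (nat_lit 300), (nat_lit
 350), (nat_lit 400), (nat_lit 450), (nat_lit 500), (nat_lit 550), (nat_lit 600), (nat_lit 650), (nat_lit
 700), (nat_lit 750), (nat_lit 800), (nat_lit 850), (nat_lit 900), (nat_lit 950), (nat_lit 1000)]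
 [(Int.ofNat (nat_lit 815)), (Int.ofNat (nat_lit 1728)), (Int.ofNat (nat_lit 2607)), (Int.ofNat (nat_lit
 3394)), (Int.ofNat (nat_lit 4083)), (Int.ofNat (nat_lit 4692)), (Int.ofNat (nat_lit 5226)), (Int.ofNat
 (nat_lit 5701)), (Int.ofNat (nat_lit 6115)), (Int.ofNat (nat_lit 6480)), (Int.ofNat (nat_lit 6790)),
 (Int.ofNat (nat_lit 7057)), (Int.ofNat (nat_lit 7273)), (Int.ofNat (nat_lit 7447)), (Int.ofNat (nat_lit
 7570)), (Int.ofNat (nat_lit 7649)), (Int.ofNat (nat_lit 7669)), (Int.ofNat (nat_lit 7628)), (Int.ofNat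
 (nat_lit 7705)), (Int.ofNat (nat_lit 5389))] [qC150_110_0_0, qC150_110_0_1, qC150_110_0_2, qC150_110_0_3,
 qC150_110_0_4, qC150_110_0_5, qC150_110_0_6, qC150_110_0_7, qC150_110_0_8, qC150_110_0_9, qC150_110_0_10,
 qC150_110_0_11, qC150_110_0_12, qC150_110_0_13, qC150_110_0_14, qC150_110_0_15, qC150_110_0_16,
 qC150_110_0_17, qC150_110_0_18, qC150_110_0_19] = true :=
  chkPlp_cons rfl hC150_110_0_0 (chkPlp_cons rfl hC150_110_0_1 (chkPlp_cons rfl hC150_110_0_2 (chkPlp_cons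
 rfl hC150_110_0_3 (chkPlp_cons rfl hC150_110_0_4 (chkPlp_cons rfl hC150_110_0_5 (chkPlp_cons rfl
 hC150_110_0_6 (chkPlp_cons rfl hC150_110_0_7 (chkPlp_cons rfl hC150_110_0_8 (chkPlp_cons rfl hC150_110_0_9
 (chkPlp_cons rfl hC150_110_0_10 (chkPlp_cons rfl hC150_110_0_11 (chkPlp_cons rfl hC150_110_0_12
 (chkPlp_cons rfl hC150_110_0_13 (chkPlp_cons rfl hC150_110_0_14 (chkPlp_cons rfl hC150_110_0_15
 (chkPlp_cons rfl hC150_110_0_16 (chkPlp_cons rfl hC150_110_0_17 (chkPlp_cons rfl hC150_110_0_18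
 (chkPlp_cons rfl hC150_110_0_19 chkPlp_nil)))))))))))))))))))

theorem lC150_110_1 : chkPlp ⟨(nat_lit 3), (nat_lit 1000), Int.ofNat (nat_lit 400), 0, ⟨0, 1⟩, ⟨Int.ofNat
 (nat_lit 110), 200⟩⟩ ⟨750000, 800000, 880226, 866140, 894542, 473607, 500736, 447950, 500000, 447213⟩ true
 0 0 [(nat_lit 50), (nat_lit 100), (nat_lit 150), (nat_lit 200), (nat_lit 250), (nat_lit 300), (nat_lit
 350), (nat_lit 400), (nat_lit 450), (nat_lit 500), (nat_lit 550), (nat_lit 600), (nat_lit 650), (nat_lit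
 700), (nat_lit 750), (nat_lit 800), (nat_lit 850), (nat_lit 900), (nat_lit 950), (nat_lit 1000)]
 [(Int.ofNat (nat_lit 755)), (Int.ofNat (nat_lit 1600)), (Int.ofNat (nat_lit 2518)), (Int.ofNat (nat_lit
 3367)), (Int.ofNat (nat_lit 4091)), (Int.ofNat (nat_lit 4669)), (Int.ofNat (nat_lit 5112)), (Int.ofNat
 (nat_lit 5451)), (Int.ofNat (nat_lit 5678)), (Int.ofNat (nat_lit 5816)), (Int.ofNat (nat_lit 5854)),
 (Int.ofNat (nat_lit 5807)), (Int.ofNat (nat_lit 5659)), (Int.ofNat (nat_lit 5424)), (Int.ofNat (nat_lit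
 5077)), (Int.ofNat (nat_lit 4625)), (Int.ofNat (nat_lit 4024)), (Int.ofNat (nat_lit 3252)), (Int.ofNat
 (nat_lit 2174)), (Int.ofNat (nat_lit 120))] [qC150_110_1_0, qC150_110_1_1, qC150_110_1_2, qC150_110_1_3,
 qC150_110_1_4, qC150_110_1_5, qC150_110_1_6, qC150_110_1_7, qC150_110_1_8, qC150_110_1_9, qC150_110_1_10,
 qC150_110_1_11, qC150_110_1_12, qC150_110_1_13, qC150_110_1_14, qC150_110_1_15, qC150_110_1_16,
 qC150_110_1_17, qC150_110_1_18, qC150_110_1_19] = true :=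
  chkPlp_cons rfl hC150_110_1_0 (chkPlp_cons rfl hC150_110_1_1 (chkPlp_cons rfl hC150_110_1_2 (chkPlp_cons
 rfl hC150_110_1_3 (chkPlp_cons rfl hC150_110_1_4 (chkPlp_cons rfl hC150_110_1_5 (chkPlp_cons rfl
 hC150_110_1_6 (chkPlp_cons rfl hC150_110_1_7 (chkPlp_cons rfl hC150_110_1_8 (chkPlp_cons rfl hC150_110_1_9
 (chkPlp_cons rfl hC150_110_1_10 (chkPlp_cons rfl hC150_110_1_11 (chkPlp_cons rfl hC150_110_1_12
 (chkPlp_cons rfl hC150_110_1_13 (chkPlp_cons rfl hC150_110_1_14 (chkPlp_cons rfl hC150_110_1_15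
 (chkPlp_cons rfl hC150_110_1_16 (chkPlp_cons rfl hC150_110_1_17 (chkPlp_cons rfl hC150_110_1_18
 (chkPlp_cons rfl hC150_110_1_19 chkPlp_nil)))))))))))))))))))

theorem lC150_110_2 : chkPlp ⟨(nat_lit 3), (nat_lit 1000), Int.ofNat (nat_lit 600), 0, ⟨0, 1⟩, ⟨Int.ofNat
 (nat_lit 110), 200⟩⟩ ⟨750000, 800000, 880226, 866140, 894542, 473607, 500736, 447950, 500000, 447213⟩ true
 0 0 [(nat_lit 50), (nat_lit 100), (nat_lit 150), (nat_lit 200), (nat_lit 250), (nat_lit 300), (nat_lit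
 350), (nat_lit 400), (nat_lit 450), (nat_lit 500), (nat_lit 550), (nat_lit 600), (nat_lit 650), (nat_lit
 700), (nat_lit 750), (nat_lit 800), (nat_lit 850), (nat_lit 900), (nat_lit 950), (nat_lit 1000)]
 [(Int.ofNat (nat_lit 722)), (Int.ofNat (nat_lit 1530)), (Int.ofNat (nat_lit 2438)), (Int.ofNat (nat_lit
 3317)), (Int.ofNat (nat_lit 4106)), (Int.ofNat (nat_lit 4621)), (Int.ofNat (nat_lit 4884)), (Int.ofNat
 (nat_lit 4949)), (Int.ofNat (nat_lit 4804)), (Int.ofNat (nat_lit 4489)), (Int.ofNat (nat_lit 3980)),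
 (Int.ofNat (nat_lit 3306)), (Int.ofNat (nat_lit 2430)), (Int.ofNat (nat_lit 1379)), (Int.ofNat (nat_lit
 90)), (Int.negSucc (nat_lit 1421)), (Int.negSucc (nat_lit 3266)), (Int.negSucc (nat_lit 5498)),
 (Int.negSucc (nat_lit 8433)), (Int.negSucc (nat_lit 13700))] [qC150_110_2_0, qC150_110_2_1, qC150_110_2_2,
 qC150_110_2_3, qC150_110_2_4, qC150_110_2_5, qC150_110_2_6, qC150_110_2_7, qC150_110_2_8, qC150_110_2_9,
 qC150_110_2_10, qC150_110_2_11, qC150_110_2_12, qC150_110_2_13, qC150_110_2_14, qC150_110_2_15,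
 qC150_110_2_16, qC150_110_2_17, qC150_110_2_18, qC150_110_2_19] = true :=
  chkPlp_cons rfl hC150_110_2_0 (chkPlp_cons rfl hC150_110_2_1 (chkPlp_cons rfl hC150_110_2_2 (chkPlp_cons
 rfl hC150_110_2_3 (chkPlp_cons rfl hC150_110_2_4 (chkPlp_cons rfl hC150_110_2_5 (chkPlp_cons rfl
 hC150_110_2_6 (chkPlp_cons rfl hC150_110_2_7 (chkPlp_cons rfl hC150_110_2_8 (chkPlp_cons rfl hC150_110_2_9
 (chkPlp_cons rfl hC150_110_2_10 (chkPlp_cons rfl hC150_110_2_11 (chkPlp_cons rfl hC150_110_2_12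
 (chkPlp_cons rfl hC150_110_2_13 (chkPlp_cons rfl hC150_110_2_14 (chkPlp_cons rfl hC150_110_2_15
 (chkPlp_cons rfl hC150_110_2_16 (chkPlp_cons rfl hC150_110_2_17 (chkPlp_cons rfl hC150_110_2_18
 (chkPlp_cons rfl hC150_110_2_19 chkPlp_nil)))))))))))))))))))

theorem lC150_110_3 : chkPlp ⟨(nat_lit 3), (nat_lit 1000), Int.ofNat (nat_lit 1000), 0, ⟨0, 1⟩, ⟨Int.ofNat
 (nat_lit 110), 200⟩⟩ ⟨750000, 800000, 880226, 866140, 894542, 473607, 500736, 447950, 500000, 447213⟩ true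
 0 0 [(nat_lit 50), (nat_lit 100), (nat_lit 150), (nat_lit 200), (nat_lit 250), (nat_lit 300), (nat_lit
 350), (nat_lit 400), (nat_lit 450), (nat_lit 500), (nat_lit 550), (nat_lit 600), (nat_lit 650), (nat_lit
 700), (nat_lit 750), (nat_lit 800), (nat_lit 850), (nat_lit 900), (nat_lit 950), (nat_lit 1000)]
 [(Int.ofNat (nat_lit 707)), (Int.ofNat (nat_lit 1497)), (Int.ofNat (nat_lit 2373)), (Int.ofNat (nat_lit
 3310)), (Int.ofNat (nat_lit 4144)), (Int.ofNat (nat_lit 4546)), (Int.ofNat (nat_lit 4444)), (Int.ofNat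
 (nat_lit 3970)), (Int.ofNat (nat_lit 3079)), (Int.ofNat (nat_lit 1865)), (Int.ofNat (nat_lit 262)),
 (Int.negSucc (nat_lit 1659)), (Int.negSucc (nat_lit 3986)), (Int.negSucc (nat_lit 6669)), (Int.negSucc
 (nat_lit 9831)), (Int.negSucc (nat_lit 13459)), (Int.negSucc (nat_lit 17787)), (Int.negSucc (nat_lit
 22934)), (Int.negSucc (nat_lit 29622)), (Int.negSucc (nat_lit 41305))] [qC150_110_3_0, qC150_110_3_1,
 qC150_110_3_2, qC150_110_3_3, qC150_110_3_4, qC150_110_3_5, qC150_110_3_6, qC150_110_3_7, qC150_110_3_8,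
 qC150_110_3_9, qC150_110_3_10, qC150_110_3_11, qC150_110_3_12, qC150_110_3_13, qC150_110_3_14,
 qC150_110_3_15, qC150_110_3_16, qC150_110_3_17, qC150_110_3_18, qC150_110_3_19] = true :=
  chkPlp_cons rfl hC150_110_3_0 (chkPlp_cons rfl hC150_110_3_1 (chkPlp_cons rfl hC150_110_3_2 (chkPlp_cons
 rfl hC150_110_3_3 (chkPlp_cons rfl hC150_110_3_4 (chkPlp_cons rfl hC150_110_3_5 (chkPlp_cons rfl
 hC150_110_3_6 (chkPlp_cons rfl hC150_110_3_7 (chkPlp_cons rfl hC150_110_3_8 (chkPlp_cons rfl hC150_110_3_9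
 (chkPlp_cons rfl hC150_110_3_10 (chkPlp_cons rfl hC150_110_3_11 (chkPlp_cons rfl hC150_110_3_12
 (chkPlp_cons rfl hC150_110_3_13 (chkPlp_cons rfl hC150_110_3_14 (chkPlp_cons rfl hC150_110_3_15
 (chkPlp_cons rfl hC150_110_3_16 (chkPlp_cons rfl hC150_110_3_17 (chkPlp_cons rfl hC150_110_3_18
 (chkPlp_cons rfl hC150_110_3_19 chkPlp_nil)))))))))))))))))))

theorem lC150_110_4 : chkPlp ⟨(nat_lit 3), (nat_lit 1000), Int.ofNat (nat_lit 2000), 0, ⟨0, 1⟩, ⟨Int.ofNat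
 (nat_lit 110), 200⟩⟩ ⟨750000, 800000, 880226, 866140, 894542, 473607, 500736, 447950, 500000, 447213⟩ true
 0 0 [(nat_lit 50), (nat_lit 100), (nat_lit 150), (nat_lit 200), (nat_lit 250), (nat_lit 300), (nat_lit
 350), (nat_lit 400), (nat_lit 450), (nat_lit 500), (nat_lit 550), (nat_lit 600), (nat_lit 650), (nat_lit
 700), (nat_lit 750), (nat_lit 800), (nat_lit 850), (nat_lit 900), (nat_lit 950), (nat_lit 1000)]
 [(Int.ofNat (nat_lit 703)), (Int.ofNat (nat_lit 1488)), (Int.ofNat (nat_lit 2356)), (Int.ofNat (nat_lit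
 3296)), (Int.ofNat (nat_lit 4236)), (Int.ofNat (nat_lit 4359)), (Int.ofNat (nat_lit 3344)), (Int.ofNat
 (nat_lit 1516)), (Int.negSucc (nat_lit 1232)), (Int.negSucc (nat_lit 4699)), (Int.negSucc (nat_lit 9031)),
 (Int.negSucc (nat_lit 14076)), (Int.negSucc (nat_lit 20031)), (Int.negSucc (nat_lit 26791)), (Int.negSucc
 (nat_lit 34641)), (Int.negSucc (nat_lit 43561)), (Int.negSucc (nat_lit 54095)), (Int.negSucc (nat_lit
 66530)), (Int.negSucc (nat_lit 82570)), (Int.negSucc (nat_lit 110291))] [qC150_110_4_0, qC150_110_4_1,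
 qC150_110_4_2, qC150_110_4_3, qC150_110_4_4, qC150_110_4_5, qC150_110_4_6, qC150_110_4_7, qC150_110_4_8,
 qC150_110_4_9, qC150_110_4_10, qC150_110_4_11, qC150_110_4_12, qC150_110_4_13, qC150_110_4_14,
 qC150_110_4_15, qC150_110_4_16, qC150_110_4_17, qC150_110_4_18, qC150_110_4_19] = true :=
  chkPlp_cons rfl hC150_110_4_0 (chkPlp_cons rfl hC150_110_4_1 (chkPlp_cons rfl hC150_110_4_2 (chkPlp_cons
 rfl hC150_110_4_3 (chkPlp_cons rfl hC150_110_4_4 (chkPlp_cons rfl hC150_110_4_5 (chkPlp_cons rfl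
 hC150_110_4_6 (chkPlp_cons rfl hC150_110_4_7 (chkPlp_cons rfl hC150_110_4_8 (chkPlp_cons rfl hC150_110_4_9
 (chkPlp_cons rfl hC150_110_4_10 (chkPlp_cons rfl hC150_110_4_11 (chkPlp_cons rfl hC150_110_4_12
 (chkPlp_cons rfl hC150_110_4_13 (chkPlp_cons rfl hC150_110_4_14 (chkPlp_cons rfl hC150_110_4_15
 (chkPlp_cons rfl hC150_110_4_16 (chkPlp_cons rfl hC150_110_4_17 (chkPlp_cons rfl hC150_110_4_18
 (chkPlp_cons rfl hC150_110_4_19 chkPlp_nil)))))))))))))))))))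

theorem lC150_110_5 : chkPlp ⟨(nat_lit 3), (nat_lit 1000), Int.ofNat (nat_lit 4000), 0, ⟨0, 1⟩, ⟨Int.ofNat
 (nat_lit 110), 200⟩⟩ ⟨750000, 800000, 880226, 866140, 894542, 473607, 500736, 447950, 500000, 447213⟩ true
 0 0 [(nat_lit 50), (nat_lit 100), (nat_lit 150), (nat_lit 200), (nat_lit 250), (nat_lit 300), (nat_lit
 350), (nat_lit 400), (nat_lit 450), (nat_lit 500), (nat_lit 550), (nat_lit 600), (nat_lit 650), (nat_lit
 700), (nat_lit 750), (nat_lit 800), (nat_lit 850), (nat_lit 900), (nat_lit 950), (nat_lit 1000)]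
 [(Int.ofNat (nat_lit 708)), (Int.ofNat (nat_lit 1498)), (Int.ofNat (nat_lit 2371)), (Int.ofNat (nat_lit
 3321)), (Int.ofNat (nat_lit 4417)), (Int.ofNat (nat_lit 3965)), (Int.ofNat (nat_lit 1131)), (Int.negSucc
 (nat_lit 3407)), (Int.negSucc (nat_lit 9877)), (Int.negSucc (nat_lit 17853)), (Int.negSucc (nat_lit
 27646)), (Int.negSucc (nat_lit 38941)), (Int.negSucc (nat_lit 52154)), (Int.negSucc (nat_lit 67073)),
 (Int.negSucc (nat_lit 84302)), (Int.negSucc (nat_lit 103809)), (Int.negSucc (nat_lit 126760)), (Int.negSucc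
 (nat_lit 153775)), (Int.negSucc (nat_lit 188519)), (Int.negSucc (nat_lit 248328))] [qC150_110_5_0,
 qC150_110_5_1, qC150_110_5_2, qC150_110_5_3, qC150_110_5_4, qC150_110_5_5, qC150_110_5_6, qC150_110_5_7,
 qC150_110_5_8, qC150_110_5_9, qC150_110_5_10, qC150_110_5_11, qC150_110_5_12, qC150_110_5_13,
 qC150_110_5_14, qC150_110_5_15, qC150_110_5_16, qC150_110_5_17, qC150_110_5_18, qC150_110_5_19] = true :=
  chkPlp_cons rfl hC150_110_5_0 (chkPlp_cons rfl hC150_110_5_1 (chkPlp_cons rfl hC150_110_5_2 (chkPlp_cons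
 rfl hC150_110_5_3 (chkPlp_cons rfl hC150_110_5_4 (chkPlp_cons rfl hC150_110_5_5 (chkPlp_cons rfl
 hC150_110_5_6 (chkPlp_cons rfl hC150_110_5_7 (chkPlp_cons rfl hC150_110_5_8 (chkPlp_cons rfl hC150_110_5_9
 (chkPlp_cons rfl hC150_110_5_10 (chkPlp_cons rfl hC150_110_5_11 (chkPlp_cons rfl hC150_110_5_12
 (chkPlp_cons rfl hC150_110_5_13 (chkPlp_cons rfl hC150_110_5_14 (chkPlp_cons rfl hC150_110_5_15
 (chkPlp_cons rfl hC150_110_5_16 (chkPlp_cons rfl hC150_110_5_17 (chkPlp_cons rfl hC150_110_5_18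
 (chkPlp_cons rfl hC150_110_5_19 chkPlp_nil)))))))))))))))))))

def cC150_110 : chkIIp xC150_110 ⟨750000, 800000, 880226, 866140, 894542, 473607, 500736, 447950, 500000,
 447213⟩ [⟨[qC150_110_0_0, qC150_110_0_1, qC150_110_0_2, qC150_110_0_3, qC150_110_0_4, qC150_110_0_5,
 qC150_110_0_6, qC150_110_0_7, qC150_110_0_8, qC150_110_0_9, qC150_110_0_10, qC150_110_0_11, qC150_110_0_12,
 qC150_110_0_13, qC150_110_0_14, qC150_110_0_15, qC150_110_0_16, qC150_110_0_17, qC150_110_0_18,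
 qC150_110_0_19], []⟩, ⟨[qC150_110_1_0, qC150_110_1_1, qC150_110_1_2, qC150_110_1_3, qC150_110_1_4,
 qC150_110_1_5, qC150_110_1_6, qC150_110_1_7, qC150_110_1_8, qC150_110_1_9, qC150_110_1_10, qC150_110_1_11,
 qC150_110_1_12, qC150_110_1_13, qC150_110_1_14, qC150_110_1_15, qC150_110_1_16, qC150_110_1_17,
 qC150_110_1_18, qC150_110_1_19], []⟩, ⟨[qC150_110_2_0, qC150_110_2_1, qC150_110_2_2, qC150_110_2_3,
 qC150_110_2_4, qC150_110_2_5, qC150_110_2_6, qC150_110_2_7, qC150_110_2_8, qC150_110_2_9, qC150_110_2_10,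
 qC150_110_2_11, qC150_110_2_12, qC150_110_2_13, qC150_110_2_14, qC150_110_2_15, qC150_110_2_16,
 qC150_110_2_17, qC150_110_2_18, qC150_110_2_19], []⟩, ⟨[qC150_110_3_0, qC150_110_3_1, qC150_110_3_2,
 qC150_110_3_3, qC150_110_3_4, qC150_110_3_5, qC150_110_3_6, qC150_110_3_7, qC150_110_3_8, qC150_110_3_9,
 qC150_110_3_10, qC150_110_3_11, qC150_110_3_12, qC150_110_3_13, qC150_110_3_14, qC150_110_3_15,
 qC150_110_3_16, qC150_110_3_17, qC150_110_3_18, qC150_110_3_19], []⟩, ⟨[qC150_110_4_0, qC150_110_4_1,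
 qC150_110_4_2, qC150_110_4_3, qC150_110_4_4, qC150_110_4_5, qC150_110_4_6, qC150_110_4_7, qC150_110_4_8,
 qC150_110_4_9, qC150_110_4_10, qC150_110_4_11, qC150_110_4_12, qC150_110_4_13, qC150_110_4_14,
 qC150_110_4_15, qC150_110_4_16, qC150_110_4_17, qC150_110_4_18, qC150_110_4_19], []⟩, ⟨[qC150_110_5_0,
 qC150_110_5_1, qC150_110_5_2, qC150_110_5_3, qC150_110_5_4, qC150_110_5_5, qC150_110_5_6, qC150_110_5_7,
 qC150_110_5_8, qC150_110_5_9, qC150_110_5_10, qC150_110_5_11, qC150_110_5_12, qC150_110_5_13,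
 qC150_110_5_14, qC150_110_5_15, qC150_110_5_16, qC150_110_5_17, qC150_110_5_18, qC150_110_5_19], []⟩] =
 true := chkIIp_mk (by decide +kernel) (chkClsp_cons lC150_110_0 (chkClsp_cons lC150_110_1 (chkClsp_cons
 lC150_110_2 (chkClsp_cons lC150_110_3 (chkClsp_cons lC150_110_4 (chkClsp_cons lC150_110_5 chkClsp_nil))))))

theorem II_xC150_110 : PropII xC150_110 := propIIp_of cC150_110

end CB
end Pool.Agent.Lib.MP_6947cd_al
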