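import Pool.Agent.Lib.MP_6947cd_al.L.PairC
import Pool.Agent.Lib.MP_6947cd_al.L.BoxLibC
import Pool.Agent.Lib.MP_6947cd_al.PS.C160_110_0
import Pool.Agent.Lib.MP_6947cd_al.PS.C160_110_1
import Pool.Agent.Lib.MP_6947cd_al.PS.C160_110_2

/-!
Problem MP_6947cd_al (Chollet).  Library of pair functions: certificates (generated).
-/

set_option autoImplicit false
set_option linter.defProp false
set_option maxRecDepth 100000

namespace Pool.Agent.Lib.MP_6947cd_al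
namespace CB

open CA

def cC160_80 : chkIIp xC160_80 ⟨800000, 850000, 908191, 894532, 922059, 417256, 448290, 388374, 447213,
 387298⟩ [⟨[.one ⟨2008000, 251, 542160, 359833, 0, 0, 0, 400000, 0, 50000⟩ ⟨25000, (.aff 1414214 707107),
 (.pol), (.pol), (.pol), (.sx 212500 (.sx 118750 (.aff 50000 1125253 802042) (.pol)) (.aff 1000000 0 0)),
 (.aff 0 1732051 577351), (.pol), (.sx 212500 (.pol) (.pol)), (.pol)⟩, .one ⟨2008000, 251, 542160, 365054,
 -262, 0, 0, 400000, 50000, 100000⟩ ⟨0, .pol, .pol, .pol, .pol, (.sx 200000 (.sx 100000 (.sx 50000 (.sx 25000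
 (.sy 75000 (.sx 12500 (.aff 0 2581989 387299) (.sy 62500 (.aff 25000 1563479 608020) (.aff 100000 1639320
 494108))) (.aff 125000 1710339 447646)) (.sx 37500 (.sy 75000 (.sy 62500 (.aff 50000 1484801 607826) (.aff
 100000 1407125 575642)) (.aff 175000 1455164 467731)) (.aff 150000 1150520 627977))) (.aff 500000 500000
 500000)) (.aff 1000000 0 0)) (.aff 1000000 0 0)), .pol, (.pol), (.sx 200000 (.sy 75000 (.sy 62500 (.sx 100000
 (.sx 50000 (.pol) (.pol)) (.pol)) (.sx 100000 (.sx 50000 (.pol) (.pol)) (.pol))) (.sy 87500 (.sx 100000 (.sx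
 50000 (.pol) (.pol)) (.pol)) (.sx 100000 (.sx 50000 (.pol) (.pol)) (.pol)))) (.pol)), .pol⟩, .one ⟨2008000,
 251, 542160, 308027, 5441, 0, 0, 400000, 100000, 150000⟩ ⟨0, .pol, .pol, .pol, .pol, (.sx 200000 (.sx 100000
 (.sy 125000 (.sy 112500 (.sy 106250 (.sx 50000 (.aff 363000 1829644 221775) (.aff 1000000 0 0)) (.sx 50000
 (.sx 25000 (.aff 250000 1811423 310530) (.aff 1000000 0 0)) (.aff 1000000 0 0))) (.sy 118750 (.sx 50000 (.sx
 25000 (.aff 375000 1900864 205499) (.aff 1000000 0 0)) (.aff 1000000 0 0)) (.sx 50000 (.sx 25000 (.sx 12500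
 (.aff 375000 1951562 200161) (.aff 1000000 0 0)) (.aff 1000000 0 0)) (.aff 1000000 0 0)))) (.sx 50000 (.sy
 137500 (.sx 25000 (.sx 12500 (.aff 475000 2070737 133105) (.aff 1000000 0 0)) (.aff 1000000 0 0)) (.sy 143750
 (.sx 25000 (.sy 140625 (.aff 475000 2027522 135942) (.aff 625000 2184645 64370)) (.aff 1000000 0 0)) (.sx
 25000 (.aff 625000 2220364 63335) (.aff 1000000 0 0)))) (.aff 1000000 0 0))) (.aff 1000000 0 0)) (.aff
 1000000 0 0)), .pol, (.pol), (.sx 200000 (.sx 100000 (.pol) (.pol)) (.pol)), .pol⟩, .one ⟨2008000, 251,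
 542160, 268670, 11345, 0, 0, 400000, 150000, 200000⟩ ⟨0, .pol, .pol, .pol, .pol, (.sx 200000 (.sx 100000 (.sx
 50000 (.sy 175000 (.sx 25000 (.aff 750000 2209473 28288) (.aff 1000000 0 0)) (.sx 25000 (.sx 12500 (.aff
 875000 2154871 7252) (.aff 1000000 0 0)) (.aff 1000000 0 0))) (.aff 1000000 0 0)) (.aff 1000000 0 0)) (.aff
 1000000 0 0)), .pol, (.pol), (.sx 200000 (.sx 100000 (.pol) (.pol)) (.pol)), .pol⟩, .one ⟨2008000, 251,
 542160, 238550, 17369, 0, 0, 400000, 200000, 250000⟩ ⟨0, .pol, .pol, .pol, .pol, (.sx 200000 (.sx 100000 (.sx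
 50000 (.sx 25000 (.sy 225000 (.sx 12500 (.sx 6250 (.aff 1100000 1502558 6656) (.aff 1000000 0 0)) (.aff
 1000000 0 0)) (.aff 1250000 2808074 22258)) (.aff 1000000 0 0)) (.aff 1000000 0 0)) (.aff 1000000 0 0)) (.aff
 1000000 0 0)), .pol, (.pol), (.sx 200000 (.pol) (.pol)), .pol⟩, .one ⟨2008000, 251, 542160, 215659, 23092, 0,
 0, 400000, 250000, 300000⟩ ⟨0, .pol, .pol, .pol, .pol, (.sx 200000 (.sx 100000 (.sy 275000 (.sx 50000 (.sx
 25000 (.aff 1450000 2916334 69437) (.aff 1000000 0 0)) (.aff 1000000 0 0)) (.sy 287500 (.sx 50000 (.sx 25000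
 (.sy 281250 (.aff 1450000 3001875 67458) (.aff 1469000 3009289 73095)) (.aff 1000000 0 0)) (.aff 1000000 0
 0)) (.sx 50000 (.aff 1644000 3121906 132848) (.aff 1000000 0 0)))) (.aff 1000000 0 0)) (.aff 1000000 0 0)),
 .pol, (.pol), (.sx 200000 (.pol) (.pol)), .pol⟩, .one ⟨2008000, 251, 542160, 198390, 28272, 0, 0, 400000,
 300000, 350000⟩ ⟨0, .pol, .pol, .pol, .pol, (.sx 200000 (.sx 100000 (.sx 50000 (.sx 25000 (.sx 12500 (.aff
 2000000 5887841 169842) (.aff 1850000 3387038 213314)) (.aff 1800000 3151125 203103)) (.aff 1000000 0 0))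
 (.aff 1000000 0 0)) (.aff 1000000 0 0)), .pol, (.pol), (.sx 200000 (.pol) (.pol)), .pol⟩, .one ⟨2008000, 251,
 542160, 183932, 33332, 0, 0, 400000, 350000, 400000⟩ ⟨0, .pol, .pol, .pol, .pol, (.sx 200000 (.sx 100000 (.sy
 375000 (.sy 362500 (.sx 50000 (.sx 25000 (.aff 2000000 4358899 229416) (.aff 2000000 3376389 296175)) (.aff
 1000000 0 0)) (.sx 50000 (.sx 25000 (.aff 2000000 4434712 225494) (.aff 1975000 3349235 283834)) (.aff
 1000000 0 0))) (.sx 50000 (.aff 2125000 3616370 349972) (.aff 1000000 0 0))) (.aff 1000000 0 0)) (.aff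
 1000000 0 0)), .pol, (.pol), (.sx 200000 (.pol) (.sx 300000 (.pol) (.pol))), .pol⟩, .one ⟨2008000, 251,
 542160, 172688, 37830, 0, 0, 400000, 400000, 450000⟩ ⟨0, .pol, .pol, .pol, .pol, (.sy 425000 (.sy 412500 (.sx
 200000 (.sx 100000 (.sx 50000 (.aff 2900000 5415834 666565) (.aff 2388000 3628303 530977)) (.aff 1000000 0
 0)) (.aff 1000000 0 0)) (.sx 200000 (.sx 100000 (.sx 50000 (.aff 3000000 5787919 691095) (.aff 2400000
 3623811 540868)) (.aff 1000000 0 0)) (.aff 1000000 0 0))) (.sx 200000 (.sy 437500 (.sx 100000 (.sx 50000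
 (.aff 3000000 6782330 589768) (.aff 2350000 3546160 513937)) (.aff 1000000 0 0)) (.sy 443750 (.sx 100000 (.sx
 50000 (.aff 3000000 6855655 583460) (.aff 2338000 3552636 503920)) (.aff 1000000 0 0)) (.sx 100000 (.sx 50000
 (.aff 3000000 6904106 579366) (.sx 75000 (.aff 2700000 4149649 696445) (.aff 1000000 0 0))) (.aff 1000000 0
 0)))) (.aff 1000000 0 0))), .pol, (.pol), (.pol), .pol⟩, .one ⟨2008000, 251, 542160, 162648, 42348, 0, 0,
 400000, 450000, 500000⟩ ⟨0, .pol, .pol, .pol, .pol, (.sy 475000 (.sx 200000 (.sy 462500 (.sy 456250 (.sx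
 100000 (.sx 50000 (.aff 3000000 6952218 575356) (.sx 75000 (.aff 3000000 4915961 813677) (.aff 1000000 0 0)))
 (.aff 1000000 0 0)) (.sx 100000 (.sx 50000 (.aff 3000000 7000000 571429) (.sx 75000 (.aff 3000000 5169843
 773718) (.aff 2200000 2853339 504672))) (.aff 1000000 0 0))) (.sy 468750 (.sx 100000 (.sx 50000 (.aff 3000000
 7047459 567581) (.sx 75000 (.aff 3000000 5458938 732744) (.aff 2400000 3351464 584820))) (.aff 1000000 0 0))
 (.sx 100000 (.sx 50000 (.aff 3000000 7094599 563810) (.sx 75000 (.aff 3000000 5495453 727875) (.sx 87500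
 (.aff 2900000 4412280 818172) (.aff 1000000 0 0)))) (.aff 1000000 0 0)))) (.aff 1000000 0 0)) (.sx 200000
 (.sx 100000 (.sx 50000 (.aff 3000000 7211103 554701) (.sx 75000 (.aff 3000000 5585697 716115) (.aff 2825000
 4029491 826563))) (.aff 1500000 987421 253185)) (.aff 1000000 0 0))), .pol, (.pol), (.pol), .pol⟩, .one
 ⟨2008000, 251, 542160, 155419, 45963, 0, 0, 400000, 500000, 550000⟩ ⟨0, .pol, .pol, .pol, .pol, (.sy 525000
 (.sx 200000 (.sx 100000 (.aff 3000000 4527693 883453) (.sx 150000 (.aff 2875000 3892697 903134) (.aff 1000000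
 0 0))) (.aff 1000000 0 0)) (.sx 200000 (.sx 100000 (.aff 3000000 4636810 862663) (.sx 150000 (.aff 2900000
 3939924 916262) (.aff 1000000 0 0))) (.aff 1000000 0 0))), .pol, (.pol), (.pol), .pol⟩, .one ⟨2008000, 251,
 542160, 149796, 49055, 0, 0, 400000, 550000, 600000⟩ ⟨0, .pol, .pol, .pol, .pol, (.sy 575000 (.sy 562500 (.sx
 200000 (.sx 100000 (.aff 3000000 5446712 734389) (.sx 150000 (.aff 3000000 4022664 994366) (.aff 1000000 0
 0))) (.aff 1000000 0 0)) (.sx 200000 (.sx 100000 (.aff 3000000 5507571 726273) (.sx 150000 (.aff 3000000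
 4067611 983379) (.aff 1500000 901388 277351))) (.aff 1000000 0 0))) (.sy 587500 (.sx 200000 (.sx 100000 (.aff
 3000000 5567765 718422) (.sx 150000 (.aff 3000000 4112067 972747) (.aff 3000000 3782552 1057488))) (.aff
 1000000 0 0)) (.sx 200000 (.sx 100000 (.aff 3000000 5627315 710819) (.sx 150000 (.aff 3000000 4156048 962453)
 (.aff 3000000 3823008 1046297))) (.aff 1000000 0 0)))), .pol, (.pol), (.pol), .pol⟩, .one ⟨2008000, 251,
 542160, 145379, 51706, 0, 0, 400000, 600000, 650000⟩ ⟨0, .pol, .pol, .pol, .pol, (.sx 200000 (.sx 100000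
 (.aff 3000000 5773503 692821) (.sx 150000 (.aff 3000000 4082483 979796) (.aff 3100000 3968627 1111216))) (.sy
 625000 (.aff 1500000 714435 349927) (.sx 300000 (.sx 250000 (.aff 3000000 3464102 1154701) (.aff 1000000 0
 0)) (.aff 1000000 0 0)))), .pol, (.pol), (.pol), .pol⟩, .one ⟨2008000, 251, 542160, 143371, 53011, 0, 0,
 400000, 650000, 700000⟩ ⟨0, .pol, .pol, .pol, .pol, (.sx 200000 (.aff 5000000 7348470 2177324) (.sy 675000
 (.sx 300000 (.sx 250000 (.aff 3200000 3884510 1245975) (.aff 1000000 0 0)) (.aff 1000000 0 0)) (.sx 300000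
 (.sy 687500 (.sx 250000 (.sx 225000 (.aff 5000000 7161992 2234016) (.aff 3100000 3604390 1223508)) (.aff
 2000000 1573936 635350)) (.sx 250000 (.aff 3900000 4830917 1740871) (.aff 3000000 3251374 1230250))) (.aff
 1000000 0 0)))), .pol, (.pol), (.pol), .pol⟩, .one ⟨2008000, 251, 542160, 142166, 53854, 0, 0, 400000,
 700000, 750000⟩ ⟨0, .pol, .pol, .pol, .pol, (.sx 200000 (.aff 5000000 8793938 1819436) (.sy 725000 (.sx
 300000 (.sx 250000 (.aff 5000000 6928204 2309401) (.aff 3300000 3789271 1396047)) (.aff 1500000 713393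
 350438)) (.sx 300000 (.sx 250000 (.aff 5000000 7241854 2209379) (.sx 275000 (.aff 5000000 6704654 2386403)
 (.aff 3300000 3724454 1420343))) (.sx 350000 (.aff 3000000 3072459 1301889) (.aff 1000000 0 0))))), .pol,
 (.pol), (.pol), .pol⟩, .one ⟨2008000, 251, 542160, 143772, 52649, 0, 0, 400000, 750000, 800000⟩ ⟨0, .pol,
 .pol, .pol, .pol, (.sx 200000 (.aff 5000000 9092122 1759766) (.sy 775000 (.sx 300000 (.aff 5000000 6377043
 2509000) (.sx 350000 (.aff 3400000 3748920 1536443) (.aff 3000000 2851900 1402574))) (.sx 300000 (.aff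
 5000000 7099296 2253745) (.sx 350000 (.aff 4000000 4500000 2000000) (.aff 3200000 3242605 1492628))))), .pol,
 (.pol), (.pol), .pol⟩, .one ⟨2008000, 251, 542160, 146182, 50722, 0, 0, 400000, 800000, 850000⟩ ⟨0, .pol,
 .pol, .pol, .pol, (.sx 200000 (.aff 5000000 9380832 1705606) (.sx 300000 (.aff 5000000 7266361 2201928) (.sx
 350000 (.aff 5000000 6373021 2510584) (.sy 825000 (.aff 3500000 3742810 1669869) (.aff 4600000 5209127
 2487941))))), .pol, (.pol), (.pol), .pol⟩, .one ⟨2008000, 251, 542160, -123979543, 105557588, 0, 0, 400000,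
 850000, 900000⟩ ⟨0, .pol, .pol, .pol, .pol, (.sx 200000 (.inf 2958040 338062) (.inf 1366261 731925)), .pol,
 (.pol), (.sx 200000 (.inf 2958040 338062) (.inf 1366261 731925)), .pol⟩, .one ⟨2008000, 251, 542160, 0,
 -6024000, 0, 0, 400000, 900000, 950000⟩ ⟨0, .pol, .pol, .pol, .pol, (.inf 1720466 581238), .pol, (.pol),
 (.inf 1720466 581238), .pol⟩, .one ⟨2008000, 251, 542160, 0, -6024000, 0, 0, 400000, 950000, 1000000⟩ ⟨0,
 .pol, .pol, .pol, .pol, (.inf 1766353 566139), .pol, (.pol), (.inf 1766353 566139), .pol⟩], []⟩] = true := by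
 decide +kernel

theorem II_xC160_80 : PropII xC160_80 := propIIp_of cC160_80

theorem lC160_110_0 : chkPlp ⟨(nat_lit 3), (nat_lit 1000), Int.ofNat (nat_lit 290), 0, ⟨0, 1⟩, ⟨Int.ofNat
 (nat_lit 110), 200⟩⟩ ⟨800000, 850000, 908191, 894532, 922059, 417256, 448290, 388374, 447213, 387298⟩ true
 0 0 [(nat_lit 50), (nat_lit 100), (nat_lit 150), (nat_lit 200), (nat_lit 250), (nat_lit 300), (nat_lit
 350), (nat_lit 400), (nat_lit 450), (nat_lit 500), (nat_lit 550), (nat_lit 600), (nat_lit 650), (nat_lit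
 700), (nat_lit 750), (nat_lit 800), (nat_lit 850), (nat_lit 900), (nat_lit 950), (nat_lit 1000)]
 [(Int.ofNat (nat_lit 858)), (Int.ofNat (nat_lit 1772)), (Int.ofNat (nat_lit 2565)), (Int.ofNat (nat_lit
 3243)), (Int.ofNat (nat_lit 3829)), (Int.ofNat (nat_lit 4347)), (Int.ofNat (nat_lit 4810)), (Int.ofNat
 (nat_lit 5229)), (Int.ofNat (nat_lit 5610)), (Int.ofNat (nat_lit 5960)), (Int.ofNat (nat_lit 6283)),
 (Int.ofNat (nat_lit 6584)), (Int.ofNat (nat_lit 6865)), (Int.ofNat (nat_lit 7132)), (Int.ofNat (nat_lit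
 7386)), (Int.ofNat (nat_lit 7631)), (Int.ofNat (nat_lit 7868)), (Int.ofNat (nat_lit 8174)), (Int.ofNat
 (nat_lit 8392)), (Int.negSucc (nat_lit 299999))] [qC160_110_0_0, qC160_110_0_1, qC160_110_0_2,
 qC160_110_0_3, qC160_110_0_4, qC160_110_0_5, qC160_110_0_6, qC160_110_0_7, qC160_110_0_8, qC160_110_0_9,
 qC160_110_0_10, qC160_110_0_11, qC160_110_0_12, qC160_110_0_13, qC160_110_0_14, qC160_110_0_15,
 qC160_110_0_16, qC160_110_0_17, qC160_110_0_18, qC160_110_0_19] = true :=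
  chkPlp_cons rfl hC160_110_0_0 (chkPlp_cons rfl hC160_110_0_1 (chkPlp_cons rfl hC160_110_0_2 (chkPlp_cons
 rfl hC160_110_0_3 (chkPlp_cons rfl hC160_110_0_4 (chkPlp_cons rfl hC160_110_0_5 (chkPlp_cons rfl
 hC160_110_0_6 (chkPlp_cons rfl hC160_110_0_7 (chkPlp_cons rfl hC160_110_0_8 (chkPlp_cons rfl hC160_110_0_9
 (chkPlp_cons rfl hC160_110_0_10 (chkPlp_cons rfl hC160_110_0_11 (chkPlp_cons rfl hC160_110_0_12
 (chkPlp_cons rfl hC160_110_0_13 (chkPlp_cons rfl hC160_110_0_14 (chkPlp_cons rfl hC160_110_0_15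
 (chkPlp_cons rfl hC160_110_0_16 (chkPlp_cons rfl hC160_110_0_17 (chkPlp_cons rfl hC160_110_0_18
 (chkPlp_cons rfl hC160_110_0_19 chkPlp_nil)))))))))))))))))))

theorem lC160_110_1 : chkPlp ⟨(nat_lit 3), (nat_lit 1000), Int.ofNat (nat_lit 400), 0, ⟨0, 1⟩, ⟨Int.ofNat
 (nat_lit 110), 200⟩⟩ ⟨800000, 850000, 908191, 894532, 922059, 417256, 448290, 388374, 447213, 387298⟩ true
 0 0 [(nat_lit 50), (nat_lit 100), (nat_lit 150), (nat_lit 200), (nat_lit 250), (nat_lit 300), (nat_lit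
 350), (nat_lit 400), (nat_lit 450), (nat_lit 500), (nat_lit 550), (nat_lit 600), (nat_lit 650), (nat_lit
 700), (nat_lit 750), (nat_lit 800), (nat_lit 850), (nat_lit 900), (nat_lit 950), (nat_lit 1000)]
 [(Int.ofNat (nat_lit 785)), (Int.ofNat (nat_lit 1658)), (Int.ofNat (nat_lit 2532)), (Int.ofNat (nat_lit
 3252)), (Int.ofNat (nat_lit 3799)), (Int.ofNat (nat_lit 4205)), (Int.ofNat (nat_lit 4506)), (Int.ofNat
 (nat_lit 4705)), (Int.ofNat (nat_lit 4825)), (Int.ofNat (nat_lit 4864)), (Int.ofNat (nat_lit 4838)),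
 (Int.ofNat (nat_lit 4739)), (Int.ofNat (nat_lit 4580)), (Int.ofNat (nat_lit 4351)), (Int.ofNat (nat_lit
 4057)), (Int.ofNat (nat_lit 3680)), (Int.ofNat (nat_lit 3217)), (Int.ofNat (nat_lit 2621)), (Int.ofNat
 (nat_lit 1823)), (Int.negSucc (nat_lit 299999))] [qC160_110_1_0, qC160_110_1_1, qC160_110_1_2,
 qC160_110_1_3, qC160_110_1_4, qC160_110_1_5, qC160_110_1_6, qC160_110_1_7, qC160_110_1_8, qC160_110_1_9,
 qC160_110_1_10, qC160_110_1_11, qC160_110_1_12, qC160_110_1_13, qC160_110_1_14, qC160_110_1_15,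
 qC160_110_1_16, qC160_110_1_17, qC160_110_1_18, qC160_110_1_19] = true :=
  chkPlp_cons rfl hC160_110_1_0 (chkPlp_cons rfl hC160_110_1_1 (chkPlp_cons rfl hC160_110_1_2 (chkPlp_cons
 rfl hC160_110_1_3 (chkPlp_cons rfl hC160_110_1_4 (chkPlp_cons rfl hC160_110_1_5 (chkPlp_cons rfl
 hC160_110_1_6 (chkPlp_cons rfl hC160_110_1_7 (chkPlp_cons rfl hC160_110_1_8 (chkPlp_cons rfl hC160_110_1_9
 (chkPlp_cons rfl hC160_110_1_10 (chkPlp_cons rfl hC160_110_1_11 (chkPlp_cons rfl hC160_110_1_12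
 (chkPlp_cons rfl hC160_110_1_13 (chkPlp_cons rfl hC160_110_1_14 (chkPlp_cons rfl hC160_110_1_15
 (chkPlp_cons rfl hC160_110_1_16 (chkPlp_cons rfl hC160_110_1_17 (chkPlp_cons rfl hC160_110_1_18
 (chkPlp_cons rfl hC160_110_1_19 chkPlp_nil)))))))))))))))))))

theorem lC160_110_2 : chkPlp ⟨(nat_lit 3), (nat_lit 1000), Int.ofNat (nat_lit 600), 0, ⟨0, 1⟩, ⟨Int.ofNat
 (nat_lit 110), 200⟩⟩ ⟨800000, 850000, 908191, 894532, 922059, 417256, 448290, 388374, 447213, 387298⟩ true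
 0 0 [(nat_lit 50), (nat_lit 100), (nat_lit 150), (nat_lit 200), (nat_lit 250), (nat_lit 300), (nat_lit
 350), (nat_lit 400), (nat_lit 450), (nat_lit 500), (nat_lit 550), (nat_lit 600), (nat_lit 650), (nat_lit
 700), (nat_lit 750), (nat_lit 800), (nat_lit 850), (nat_lit 900), (nat_lit 950), (nat_lit 1000)]
 [(Int.ofNat (nat_lit 752)), (Int.ofNat (nat_lit 1602)), (Int.ofNat (nat_lit 2473)), (Int.ofNat (nat_lit
 3269)), (Int.ofNat (nat_lit 3745)), (Int.ofNat (nat_lit 3948)), (Int.ofNat (nat_lit 3951)), (Int.ofNat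
 (nat_lit 3752)), (Int.ofNat (nat_lit 3397)), (Int.ofNat (nat_lit 2872)), (Int.ofNat (nat_lit 2210)),
 (Int.ofNat (nat_lit 1386)), (Int.ofNat (nat_lit 425)), (Int.negSucc (nat_lit 705)), (Int.negSucc (nat_lit
 1997)), (Int.negSucc (nat_lit 3502)), (Int.negSucc (nat_lit 5240)), (Int.negSucc (nat_lit 7337)),
 (Int.negSucc (nat_lit 9985)), (Int.negSucc (nat_lit 299999))] [qC160_110_2_0, qC160_110_2_1, qC160_110_2_2,
 qC160_110_2_3, qC160_110_2_4, qC160_110_2_5, qC160_110_2_6, qC160_110_2_7, qC160_110_2_8, qC160_110_2_9,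
 qC160_110_2_10, qC160_110_2_11, qC160_110_2_12, qC160_110_2_13, qC160_110_2_14, qC160_110_2_15,
 qC160_110_2_16, qC160_110_2_17, qC160_110_2_18, qC160_110_2_19] = true :=
  chkPlp_cons rfl hC160_110_2_0 (chkPlp_cons rfl hC160_110_2_1 (chkPlp_cons rfl hC160_110_2_2 (chkPlp_cons
 rfl hC160_110_2_3 (chkPlp_cons rfl hC160_110_2_4 (chkPlp_cons rfl hC160_110_2_5 (chkPlp_cons rfl
 hC160_110_2_6 (chkPlp_cons rfl hC160_110_2_7 (chkPlp_cons rfl hC160_110_2_8 (chkPlp_cons rfl hC160_110_2_9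
 (chkPlp_cons rfl hC160_110_2_10 (chkPlp_cons rfl hC160_110_2_11 (chkPlp_cons rfl hC160_110_2_12
 (chkPlp_cons rfl hC160_110_2_13 (chkPlp_cons rfl hC160_110_2_14 (chkPlp_cons rfl hC160_110_2_15
 (chkPlp_cons rfl hC160_110_2_16 (chkPlp_cons rfl hC160_110_2_17 (chkPlp_cons rfl hC160_110_2_18
 (chkPlp_cons rfl hC160_110_2_19 chkPlp_nil)))))))))))))))))))

theorem lC160_110_3 : chkPlp ⟨(nat_lit 3), (nat_lit 1000), Int.ofNat (nat_lit 1000), 0, ⟨0, 1⟩, ⟨Int.ofNat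
 (nat_lit 110), 200⟩⟩ ⟨800000, 850000, 908191, 894532, 922059, 417256, 448290, 388374, 447213, 387298⟩ true
 0 0 [(nat_lit 50), (nat_lit 100), (nat_lit 150), (nat_lit 200), (nat_lit 250), (nat_lit 300), (nat_lit
 350), (nat_lit 400), (nat_lit 450), (nat_lit 500), (nat_lit 550), (nat_lit 600), (nat_lit 650), (nat_lit
 700), (nat_lit 750), (nat_lit 800), (nat_lit 850), (nat_lit 900), (nat_lit 950), (nat_lit 1000)]
 [(Int.ofNat (nat_lit 737)), (Int.ofNat (nat_lit 1559)), (Int.ofNat (nat_lit 2454)), (Int.ofNat (nat_lit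
 3310)), (Int.ofNat (nat_lit 3651)), (Int.ofNat (nat_lit 3448)), (Int.ofNat (nat_lit 2861)), (Int.ofNat
 (nat_lit 1867)), (Int.ofNat (nat_lit 569)), (Int.negSucc (nat_lit 1081)), (Int.negSucc (nat_lit 3010)),
 (Int.negSucc (nat_lit 5281)), (Int.negSucc (nat_lit 7839)), (Int.negSucc (nat_lit 10774)), (Int.negSucc
 (nat_lit 14050)), (Int.negSucc (nat_lit 17812)), (Int.negSucc (nat_lit 22088)), (Int.negSucc (nat_lit
 27189)), (Int.negSucc (nat_lit 33521)), (Int.negSucc (nat_lit 299999))] [qC160_110_3_0, qC160_110_3_1,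
 qC160_110_3_2, qC160_110_3_3, qC160_110_3_4, qC160_110_3_5, qC160_110_3_6, qC160_110_3_7, qC160_110_3_8,
 qC160_110_3_9, qC160_110_3_10, qC160_110_3_11, qC160_110_3_12, qC160_110_3_13, qC160_110_3_14,
 qC160_110_3_15, qC160_110_3_16, qC160_110_3_17, qC160_110_3_18, qC160_110_3_19] = true :=
  chkPlp_cons rfl hC160_110_3_0 (chkPlp_cons rfl hC160_110_3_1 (chkPlp_cons rfl hC160_110_3_2 (chkPlp_cons
 rfl hC160_110_3_3 (chkPlp_cons rfl hC160_110_3_4 (chkPlp_cons rfl hC160_110_3_5 (chkPlp_cons rfl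
 hC160_110_3_6 (chkPlp_cons rfl hC160_110_3_7 (chkPlp_cons rfl hC160_110_3_8 (chkPlp_cons rfl hC160_110_3_9
 (chkPlp_cons rfl hC160_110_3_10 (chkPlp_cons rfl hC160_110_3_11 (chkPlp_cons rfl hC160_110_3_12
 (chkPlp_cons rfl hC160_110_3_13 (chkPlp_cons rfl hC160_110_3_14 (chkPlp_cons rfl hC160_110_3_15
 (chkPlp_cons rfl hC160_110_3_16 (chkPlp_cons rfl hC160_110_3_17 (chkPlp_cons rfl hC160_110_3_18
 (chkPlp_cons rfl hC160_110_3_19 chkPlp_nil)))))))))))))))))))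

theorem lC160_110_4 : chkPlp ⟨(nat_lit 3), (nat_lit 1000), Int.ofNat (nat_lit 2000), 0, ⟨0, 1⟩, ⟨Int.ofNat
 (nat_lit 110), 200⟩⟩ ⟨800000, 850000, 908191, 894532, 922059, 417256, 448290, 388374, 447213, 387298⟩ true
 0 0 [(nat_lit 50), (nat_lit 100), (nat_lit 150), (nat_lit 200), (nat_lit 250), (nat_lit 300), (nat_lit
 350), (nat_lit 400), (nat_lit 450), (nat_lit 500), (nat_lit 550), (nat_lit 600), (nat_lit 650), (nat_lit
 700), (nat_lit 750), (nat_lit 800), (nat_lit 850), (nat_lit 900), (nat_lit 950), (nat_lit 1000)]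
 [(Int.ofNat (nat_lit 733)), (Int.ofNat (nat_lit 1550)), (Int.ofNat (nat_lit 2444)), (Int.ofNat (nat_lit
 3403)), (Int.ofNat (nat_lit 3426)), (Int.ofNat (nat_lit 2198)), (Int.ofNat (nat_lit 134)), (Int.negSucc
 (nat_lit 2845)), (Int.negSucc (nat_lit 6505)), (Int.negSucc (nat_lit 10970)), (Int.negSucc (nat_lit
 16066)), (Int.negSucc (nat_lit 21956)), (Int.negSucc (nat_lit 28509)), (Int.negSucc (nat_lit 35947)),
 (Int.negSucc (nat_lit 44192)), (Int.negSucc (nat_lit 53591)), (Int.negSucc (nat_lit 64219)), (Int.negSucc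
 (nat_lit 76823)), (Int.negSucc (nat_lit 92375)), (Int.negSucc (nat_lit 299999))] [qC160_110_4_0,
 qC160_110_4_1, qC160_110_4_2, qC160_110_4_3, qC160_110_4_4, qC160_110_4_5, qC160_110_4_6, qC160_110_4_7,
 qC160_110_4_8, qC160_110_4_9, qC160_110_4_10, qC160_110_4_11, qC160_110_4_12, qC160_110_4_13,
 qC160_110_4_14, qC160_110_4_15, qC160_110_4_16, qC160_110_4_17, qC160_110_4_18, qC160_110_4_19] = true :=
  chkPlp_cons rfl hC160_110_4_0 (chkPlp_cons rfl hC160_110_4_1 (chkPlp_cons rfl hC160_110_4_2 (chkPlp_cons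
 rfl hC160_110_4_3 (chkPlp_cons rfl hC160_110_4_4 (chkPlp_cons rfl hC160_110_4_5 (chkPlp_cons rfl
 hC160_110_4_6 (chkPlp_cons rfl hC160_110_4_7 (chkPlp_cons rfl hC160_110_4_8 (chkPlp_cons rfl hC160_110_4_9
 (chkPlp_cons rfl hC160_110_4_10 (chkPlp_cons rfl hC160_110_4_11 (chkPlp_cons rfl hC160_110_4_12
 (chkPlp_cons rfl hC160_110_4_13 (chkPlp_cons rfl hC160_110_4_14 (chkPlp_cons rfl hC160_110_4_15
 (chkPlp_cons rfl hC160_110_4_16 (chkPlp_cons rfl hC160_110_4_17 (chkPlp_cons rfl hC160_110_4_18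
 (chkPlp_cons rfl hC160_110_4_19 chkPlp_nil)))))))))))))))))))

theorem lC160_110_5 : chkPlp ⟨(nat_lit 3), (nat_lit 1000), Int.ofNat (nat_lit 4000), 0, ⟨0, 1⟩, ⟨Int.ofNat
 (nat_lit 110), 200⟩⟩ ⟨800000, 850000, 908191, 894532, 922059, 417256, 448290, 388374, 447213, 387298⟩ true
 0 0 [(nat_lit 50), (nat_lit 100), (nat_lit 150), (nat_lit 200), (nat_lit 250), (nat_lit 300), (nat_lit
 350), (nat_lit 400), (nat_lit 450), (nat_lit 500), (nat_lit 550), (nat_lit 600), (nat_lit 650), (nat_lit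
 700), (nat_lit 750), (nat_lit 800), (nat_lit 850), (nat_lit 900), (nat_lit 950), (nat_lit 1000)]
 [(Int.ofNat (nat_lit 738)), (Int.ofNat (nat_lit 1560)), (Int.ofNat (nat_lit 2463)), (Int.ofNat (nat_lit
 3619)), (Int.ofNat (nat_lit 2927)), (Int.negSucc (nat_lit 313)), (Int.negSucc (nat_lit 5334)), (Int.negSucc
 (nat_lit 12288)), (Int.negSucc (nat_lit 20677)), (Int.negSucc (nat_lit 30772)), (Int.negSucc (nat_lit
 42206)), (Int.negSucc (nat_lit 55335)), (Int.negSucc (nat_lit 69882)), (Int.negSucc (nat_lit 86331)),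
 (Int.negSucc (nat_lit 104519)), (Int.negSucc (nat_lit 125197)), (Int.negSucc (nat_lit 148532)),
 (Int.negSucc (nat_lit 176146)), (Int.negSucc (nat_lit 210144)), (Int.negSucc (nat_lit 299999))]
 [qC160_110_5_0, qC160_110_5_1, qC160_110_5_2, qC160_110_5_3, qC160_110_5_4, qC160_110_5_5, qC160_110_5_6,
 qC160_110_5_7, qC160_110_5_8, qC160_110_5_9, qC160_110_5_10, qC160_110_5_11, qC160_110_5_12,
 qC160_110_5_13, qC160_110_5_14, qC160_110_5_15, qC160_110_5_16, qC160_110_5_17, qC160_110_5_18,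
 qC160_110_5_19] = true :=
  chkPlp_cons rfl hC160_110_5_0 (chkPlp_cons rfl hC160_110_5_1 (chkPlp_cons rfl hC160_110_5_2 (chkPlp_cons
 rfl hC160_110_5_3 (chkPlp_cons rfl hC160_110_5_4 (chkPlp_cons rfl hC160_110_5_5 (chkPlp_cons rfl
 hC160_110_5_6 (chkPlp_cons rfl hC160_110_5_7 (chkPlp_cons rfl hC160_110_5_8 (chkPlp_cons rfl hC160_110_5_9
 (chkPlp_cons rfl hC160_110_5_10 (chkPlp_cons rfl hC160_110_5_11 (chkPlp_cons rfl hC160_110_5_12
 (chkPlp_cons rfl hC160_110_5_13 (chkPlp_cons rfl hC160_110_5_14 (chkPlp_cons rfl hC160_110_5_15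
 (chkPlp_cons rfl hC160_110_5_16 (chkPlp_cons rfl hC160_110_5_17 (chkPlp_cons rfl hC160_110_5_18
 (chkPlp_cons rfl hC160_110_5_19 chkPlp_nil)))))))))))))))))))

def cC160_110 : chkIIp xC160_110 ⟨800000, 850000, 908191, 894532, 922059, 417256, 448290, 388374, 447213,
 387298⟩ [⟨[qC160_110_0_0, qC160_110_0_1, qC160_110_0_2, qC160_110_0_3, qC160_110_0_4, qC160_110_0_5,
 qC160_110_0_6, qC160_110_0_7, qC160_110_0_8, qC160_110_0_9, qC160_110_0_10, qC160_110_0_11, qC160_110_0_12,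
 qC160_110_0_13, qC160_110_0_14, qC160_110_0_15, qC160_110_0_16, qC160_110_0_17, qC160_110_0_18,
 qC160_110_0_19], []⟩, ⟨[qC160_110_1_0, qC160_110_1_1, qC160_110_1_2, qC160_110_1_3, qC160_110_1_4,
 qC160_110_1_5, qC160_110_1_6, qC160_110_1_7, qC160_110_1_8, qC160_110_1_9, qC160_110_1_10, qC160_110_1_11,
 qC160_110_1_12, qC160_110_1_13, qC160_110_1_14, qC160_110_1_15, qC160_110_1_16, qC160_110_1_17,
 qC160_110_1_18, qC160_110_1_19], []⟩, ⟨[qC160_110_2_0, qC160_110_2_1, qC160_110_2_2, qC160_110_2_3,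
 qC160_110_2_4, qC160_110_2_5, qC160_110_2_6, qC160_110_2_7, qC160_110_2_8, qC160_110_2_9, qC160_110_2_10,
 qC160_110_2_11, qC160_110_2_12, qC160_110_2_13, qC160_110_2_14, qC160_110_2_15, qC160_110_2_16,
 qC160_110_2_17, qC160_110_2_18, qC160_110_2_19], []⟩, ⟨[qC160_110_3_0, qC160_110_3_1, qC160_110_3_2,
 qC160_110_3_3, qC160_110_3_4, qC160_110_3_5, qC160_110_3_6, qC160_110_3_7, qC160_110_3_8, qC160_110_3_9,
 qC160_110_3_10, qC160_110_3_11, qC160_110_3_12, qC160_110_3_13, qC160_110_3_14, qC160_110_3_15,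
 qC160_110_3_16, qC160_110_3_17, qC160_110_3_18, qC160_110_3_19], []⟩, ⟨[qC160_110_4_0, qC160_110_4_1,
 qC160_110_4_2, qC160_110_4_3, qC160_110_4_4, qC160_110_4_5, qC160_110_4_6, qC160_110_4_7, qC160_110_4_8,
 qC160_110_4_9, qC160_110_4_10, qC160_110_4_11, qC160_110_4_12, qC160_110_4_13, qC160_110_4_14,
 qC160_110_4_15, qC160_110_4_16, qC160_110_4_17, qC160_110_4_18, qC160_110_4_19], []⟩, ⟨[qC160_110_5_0,
 qC160_110_5_1, qC160_110_5_2, qC160_110_5_3, qC160_110_5_4, qC160_110_5_5, qC160_110_5_6, qC160_110_5_7,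
 qC160_110_5_8, qC160_110_5_9, qC160_110_5_10, qC160_110_5_11, qC160_110_5_12, qC160_110_5_13,
 qC160_110_5_14, qC160_110_5_15, qC160_110_5_16, qC160_110_5_17, qC160_110_5_18, qC160_110_5_19], []⟩] =
 true := chkIIp_mk (by decide +kernel) (chkClsp_cons lC160_110_0 (chkClsp_cons lC160_110_1 (chkClsp_cons
 lC160_110_2 (chkClsp_cons lC160_110_3 (chkClsp_cons lC160_110_4 (chkClsp_cons lC160_110_5 chkClsp_nil))))))

theorem II_xC160_110 : PropII xC160_110 := propIIp_of cC160_110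

end CB
end Pool.Agent.Lib.MP_6947cd_al
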