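import Pool.Agent.Lib.MP_6947cd_al.L.PairC
import Pool.Agent.Lib.MP_6947cd_al.L.BoxLibC
import Pool.Agent.Lib.MP_6947cd_al.PS.C170_110_0
import Pool.Agent.Lib.MP_6947cd_al.PS.C170_110_1
import Pool.Agent.Lib.MP_6947cd_al.PS.C170_110_2

/-!
Problem MP_6947cd_al (Chollet).  Library of pair functions: certificates (generated).
-/

set_option autoImplicit false
set_option linter.defProp false
set_option maxRecDepth 100000

namespace Pool.Agent.Lib.MP_6947cd_al
namespace CB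

open CA

def cC170_80 : chkIIp xC170_80 ⟨850000, 900000, 935319, 922050, 948779, 351763, 389094, 318023, 387298,
 316227⟩ [⟨[.one ⟨2008000, 251, 522080, 381921, 0, 0, 0, 400000, 0, 50000⟩ ⟨50000, (.sp 250000 (.aff 2828428
 353554) (.aff 1264912 790569)), (.pol), (.pol), (.pol), (.aff 500000 213201 1172603), (.aff 100000 1272793
 636396), (.pol), (.pol), (.pol)⟩, .one ⟨2008000, 251, 522080, 324492, 2871, 0, 0, 400000, 50000, 100000⟩ ⟨0,
 .pol, .pol, .pol, .pol, (.sx 200000 (.sx 100000 (.sy 75000 (.sx 50000 (.sy 62500 (.sx 25000 (.aff 125000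
 1515545 505182) (.aff 500000 612373 408248)) (.sy 68750 (.sx 25000 (.aff 163000 1565884 447396) (.aff 1000000
 0 0)) (.sx 25000 (.sx 12500 (.aff 250000 1798437 312772) (.aff 250000 1608571 349690)) (.aff 1000000 0 0))))
 (.aff 1000000 0 0)) (.sy 87500 (.sx 50000 (.sx 25000 (.sx 12500 (.aff 300000 1784657 274563) (.aff 301000
 1675690 291582)) (.aff 1000000 0 0)) (.aff 1000000 0 0)) (.sx 50000 (.sx 25000 (.sx 12500 (.aff 375000
 1976424 197643) (.aff 1000000 0 0)) (.aff 1000000 0 0)) (.aff 1000000 0 0)))) (.aff 1000000 0 0)) (.aff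
 1000000 0 0)), .pol, (.pol), (.sx 200000 (.sy 75000 (.sy 62500 (.sy 56250 (.sx 100000 (.sx 50000 (.pol)
 (.pol)) (.pol)) (.sx 100000 (.sx 50000 (.pol) (.pol)) (.pol))) (.sy 68750 (.sx 100000 (.sx 50000 (.pol)
 (.pol)) (.pol)) (.sx 100000 (.sx 50000 (.pol) (.pol)) (.pol)))) (.sy 87500 (.sy 81250 (.sx 100000 (.sx 50000
 (.pol) (.pol)) (.pol)) (.sx 100000 (.sx 50000 (.pol) (.pol)) (.pol))) (.sy 93750 (.sx 100000 (.sx 50000
 (.pol) (.pol)) (.pol)) (.sx 100000 (.sx 50000 (.pol) (.pol)) (.pol))))) (.pol)), .pol⟩, .one ⟨2008000, 251,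
 522080, 260236, 9297, 0, 0, 400000, 100000, 150000⟩ ⟨0, .pol, .pol, .pol, .pol, (.sx 200000 (.sx 100000 (.sy
 125000 (.sy 112500 (.sy 106250 (.aff 550000 1665334 121598) (.sx 50000 (.sx 25000 (.aff 575000 1964887 91927)
 (.aff 1000000 0 0)) (.aff 1000000 0 0))) (.sx 50000 (.sy 118750 (.aff 650000 1988717 61598) (.sx 25000 (.aff
 700000 2077644 43319) (.aff 1000000 0 0))) (.aff 1000000 0 0))) (.sx 50000 (.sx 25000 (.sy 137500 (.sx 12500
 (.aff 775000 2175330 23273) (.aff 1000000 0 0)) (.aff 1000000 0 0)) (.aff 1000000 0 0)) (.aff 1000000 0 0)))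
 (.aff 1000000 0 0)) (.aff 1000000 0 0)), .pol, (.pol), (.sx 200000 (.sx 100000 (.pol) (.pol)) (.pol)), .pol⟩,
 .one ⟨2008000, 251, 522080, 227305, 14236, 0, 0, 400000, 150000, 200000⟩ ⟨0, .pol, .pol, .pol, .pol, (.sx
 200000 (.sx 100000 (.sx 50000 (.sy 175000 (.sx 25000 (.sx 12500 (.sx 6250 (.aff 1150000 1868387 12043) (.aff
 1000000 0 0)) (.aff 1000000 0 0)) (.aff 1000000 0 0)) (.aff 1300000 2585845 34805)) (.aff 1000000 0 0)) (.aff
 1000000 0 0)) (.aff 1000000 0 0)), .pol, (.pol), (.sx 200000 (.sx 100000 (.pol) (.pol)) (.pol)), .pol⟩, .one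
 ⟨2008000, 251, 522080, 202808, 19136, 0, 0, 400000, 200000, 250000⟩ ⟨0, .pol, .pol, .pol, .pol, (.sx 200000
 (.sx 100000 (.sy 225000 (.sx 50000 (.aff 1581000 2925901 115370) (.aff 1000000 0 0)) (.sy 237500 (.sx 50000
 (.sy 231250 (.sx 25000 (.sy 228125 (.sy 226562 (.aff 1550000 2991142 101132) (.sy 227343 (.sy 226952 (.sy
 226757 (.sx 12500 (.aff 1488000 2938778 81036) (.aff 1000000 0 0)) (.sx 12500 (.sx 6250 (.aff 1500000 3012338
 82993) (.aff 1500000 2694317 92788)) (.aff 1000000 0 0))) (.sx 12500 (.sx 6250 (.aff 1500000 3014283 82939)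
 (.aff 1500000 2696057 92729)) (.aff 1000000 0 0))) (.sy 227734 (.sx 12500 (.sx 6250 (.aff 1500000 3016876
 82868) (.aff 1600000 3238051 111178)) (.aff 1000000 0 0)) (.sx 12500 (.sx 6250 (.aff 1500000 3019467 82797)
 (.aff 1600000 3240832 111083)) (.aff 1000000 0 0))))) (.sx 12500 (.aff 1525000 2989817 92188) (.aff 1000000 0
 0))) (.aff 1000000 0 0)) (.sy 234375 (.sx 25000 (.sx 12500 (.aff 1900000 3884103 208543) (.aff 1000000 0 0))
 (.aff 1000000 0 0)) (.sx 25000 (.sx 12500 (.aff 2000000 4344537 230175) (.aff 1000000 0 0)) (.aff 1000000 0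
 0)))) (.aff 1000000 0 0)) (.sx 50000 (.sy 243750 (.sy 240625 (.sx 25000 (.sx 12500 (.aff 2000000 5049753
 198030) (.aff 1500000 1955761 127828)) (.aff 1000000 0 0)) (.sy 242187 (.sx 25000 (.sx 12500 (.aff 2000000
 5074444 197066) (.aff 1500000 1965324 127206)) (.aff 1000000 0 0)) (.sx 25000 (.sx 12500 (.aff 2000000
 5090839 196432) (.aff 1500000 1971674 126796)) (.aff 1000000 0 0)))) (.sx 25000 (.aff 1928000 3367332 255747)
 (.aff 1000000 0 0))) (.aff 1000000 0 0)))) (.aff 1000000 0 0)) (.aff 1000000 0 0)), .pol, (.pol), (.sx 200000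
 (.pol) (.pol)), .pol⟩, .one ⟨2008000, 251, 522080, 189956, 22349, 0, 0, 400000, 250000, 300000⟩ ⟨0, .pol,
 .pol, .pol, .pol, (.sx 200000 (.sy 275000 (.sy 262500 (.sx 100000 (.sx 50000 (.sx 25000 (.aff 1900000 3327161
 243451) (.aff 1000000 0 0)) (.aff 1000000 0 0)) (.aff 1000000 0 0)) (.sy 268750 (.sx 100000 (.sx 50000 (.sx
 25000 (.aff 1900000 3387477 239117) (.aff 1000000 0 0)) (.aff 1000000 0 0)) (.aff 1000000 0 0)) (.sx 100000
 (.sx 50000 (.sx 25000 (.aff 1900000 3427098 236352) (.aff 1000000 0 0)) (.aff 1000000 0 0)) (.aff 1000000 0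
 0)))) (.sx 100000 (.sy 287500 (.sy 281250 (.sx 50000 (.sx 25000 (.aff 1925000 3388804 252486) (.aff 1500000
 1491644 167601)) (.aff 1000000 0 0)) (.sy 284375 (.sx 50000 (.sx 25000 (.aff 2000000 3363407 297318) (.aff
 2000000 3008322 332412)) (.aff 1000000 0 0)) (.sx 50000 (.sx 25000 (.aff 2000000 3381938 295689) (.aff
 2000000 3024897 330590)) (.aff 1000000 0 0)))) (.sy 293750 (.sy 290625 (.sx 50000 (.sx 25000 (.aff 2000000
 3400368 294086) (.aff 2000000 3041382 328798)) (.aff 1000000 0 0)) (.sx 50000 (.sx 25000 (.aff 2000000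
 3418699 292509) (.aff 2000000 3057777 327035)) (.aff 1000000 0 0))) (.sy 296875 (.sx 50000 (.sx 25000 (.aff
 2000000 3436932 290958) (.aff 2000000 3074086 325300)) (.aff 1000000 0 0)) (.sy 298437 (.sx 50000 (.sx 25000
 (.aff 2000000 3450542 289810) (.aff 2000000 3086259 324017)) (.aff 1000000 0 0)) (.sx 50000 (.sx 25000 (.aff
 2000000 3459587 289052) (.aff 2000000 3094349 323170)) (.aff 1000000 0 0)))))) (.aff 1000000 0 0))) (.aff
 1000000 0 0)), .pol, (.pol), (.sx 200000 (.pol) (.pol)), .pol⟩, .one ⟨2008000, 251, 522080, 178712, 25722, 0,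
 0, 400000, 300000, 350000⟩ ⟨0, .pol, .pol, .pol, .pol, (.sy 325000 (.sy 312500 (.sx 200000 (.sx 100000 (.sy
 306250 (.sy 303125 (.sy 301562 (.sy 300781 (.sx 50000 (.sx 25000 (.aff 2000000 3466356 288488) (.aff 2000000
 3100403 322539)) (.aff 1000000 0 0)) (.sx 50000 (.sx 25000 (.aff 2000000 3470859 288114) (.aff 2000000
 3104431 322121)) (.aff 1000000 0 0))) (.sx 50000 (.sx 25000 (.aff 2000000 3477606 287555) (.aff 2000000
 3110465 321496)) (.aff 1000000 0 0))) (.sy 304687 (.sy 303906 (.sx 50000 (.sx 25000 (.aff 2000000 3484340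
 286999) (.aff 2100000 3428137 352962)) (.aff 1000000 0 0)) (.sx 50000 (.sx 25000 (.aff 2000000 3488820
 286630) (.aff 2100000 3432545 352509)) (.aff 1000000 0 0))) (.sx 50000 (.sx 25000 (.aff 2000000 3495532
 286080) (.aff 2100000 3439149 351832)) (.aff 1000000 0 0)))) (.sy 309375 (.sy 307812 (.sx 50000 (.sx 25000
 (.aff 2000000 3504461 285351) (.aff 2050000 3291209 334984)) (.aff 1000000 0 0)) (.sx 50000 (.sx 25000 (.aff
 2000000 3513366 284628) (.aff 2050000 3299573 334135)) (.aff 1000000 0 0))) (.sy 310937 (.sx 50000 (.sx 25000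
 (.aff 2000000 3522250 283910) (.aff 2050000 3307916 333292)) (.aff 1000000 0 0)) (.sx 50000 (.sx 25000 (.aff
 2000000 3531111 283197) (.aff 2050000 3316238 332456)) (.aff 1000000 0 0))))) (.aff 1000000 0 0)) (.aff
 1000000 0 0)) (.sy 318750 (.sy 315625 (.sy 314062 (.sy 313281 (.sx 200000 (.sx 100000 (.sx 50000 (.sx 25000
 (.aff 2000000 3537743 282667) (.aff 2050000 3322466 331832)) (.aff 1000000 0 0)) (.aff 1000000 0 0)) (.aff
 1000000 0 0)) (.sx 200000 (.sx 100000 (.sx 50000 (.sx 25000 (.aff 2000000 3542155 282315) (.aff 2050000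
 3326610 331419)) (.aff 1000000 0 0)) (.aff 1000000 0 0)) (.aff 1000000 0 0))) (.sx 200000 (.sx 100000 (.sx
 50000 (.sx 25000 (.aff 3000000 10037426 398509) (.sx 37500 (.aff 3000000 6348226 630098) (.aff 2000000
 2682615 372771))) (.aff 1000000 0 0)) (.aff 1000000 0 0)) (.aff 1000000 0 0))) (.sy 317187 (.sx 200000 (.sx
 100000 (.sx 50000 (.sx 25000 (.aff 3000000 10062302 397524) (.sx 37500 (.aff 3000000 6363959 628540) (.aff
 2000000 2689264 371849))) (.aff 1000000 0 0)) (.aff 1000000 0 0)) (.aff 1000000 0 0)) (.sx 200000 (.sx 100000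
 (.sx 50000 (.sx 25000 (.aff 3000000 10087117 396546) (.sx 37500 (.aff 3000000 6379653 626994) (.aff 2000000
 2797663 357442))) (.aff 1000000 0 0)) (.aff 1000000 0 0)) (.aff 1000000 0 0)))) (.sy 321875 (.sy 320312 (.sx
 200000 (.sx 100000 (.sx 50000 (.sx 25000 (.aff 3000000 10111871 395575) (.sx 37500 (.aff 3000000 6395309
 625459) (.aff 2000000 2804529 356567))) (.aff 1000000 0 0)) (.aff 1000000 0 0)) (.aff 1000000 0 0)) (.sy
 321093 (.sx 200000 (.sx 100000 (.sx 50000 (.sx 25000 (.aff 3000000 10130390 394852) (.sx 37500 (.aff 3000000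
 6407022 624316) (.aff 2100000 3090632 391506))) (.aff 1000000 0 0)) (.aff 1000000 0 0)) (.aff 1000000 0 0))
 (.sx 200000 (.sx 100000 (.sx 50000 (.sx 25000 (.aff 3000000 10142726 394372) (.sx 37500 (.aff 3000000 6414823
 623556) (.aff 2100000 3094395 391030))) (.aff 1000000 0 0)) (.aff 1000000 0 0)) (.aff 1000000 0 0)))) (.sx
 200000 (.sx 100000 (.sx 50000 (.sx 25000 (.aff 3000000 10173495 393179) (.sx 37500 (.aff 3000000 6434284
 621670) (.aff 2100000 3103782 389847))) (.aff 1000000 0 0)) (.aff 1000000 0 0)) (.aff 1000000 0 0))))) (.sy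
 337500 (.sy 331250 (.sy 328125 (.sx 200000 (.sx 100000 (.sx 50000 (.sx 25000 (.aff 3000000 10222525 391293)
 (.sx 37500 (.aff 3000000 6465292 618689) (.aff 2200000 3402262 423248))) (.aff 1000000 0 0)) (.aff 1000000 0
 0)) (.aff 1000000 0 0)) (.sx 200000 (.sx 100000 (.sx 50000 (.aff 2550000 3980137 603623) (.aff 1000000 0 0))
 (.aff 1000000 0 0)) (.aff 1000000 0 0))) (.sy 334375 (.sx 200000 (.sx 100000 (.sx 50000 (.aff 2600000 4127954
 620162) (.aff 1000000 0 0)) (.aff 1000000 0 0)) (.aff 1000000 0 0)) (.sy 335937 (.sx 200000 (.sx 100000 (.sx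
 50000 (.aff 2700000 4401366 656615) (.aff 1000000 0 0)) (.aff 1000000 0 0)) (.aff 1000000 0 0)) (.sy 336718
 (.sx 200000 (.sx 100000 (.sx 50000 (.aff 2800000 4668407 694027) (.aff 1000000 0 0)) (.aff 1000000 0 0))
 (.aff 1000000 0 0)) (.sx 200000 (.sx 100000 (.sx 50000 (.aff 2900000 4933485 731735) (.aff 1000000 0 0))
 (.aff 1000000 0 0)) (.aff 1000000 0 0)))))) (.sy 343750 (.sy 340625 (.sy 339062 (.sx 200000 (.sx 100000 (.sx
 50000 (.aff 3000000 5202162 768912) (.aff 1000000 0 0)) (.aff 1000000 0 0)) (.aff 1000000 0 0)) (.sx 200000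
 (.sx 100000 (.sx 50000 (.aff 3000000 5214162 767142) (.aff 1000000 0 0)) (.aff 1000000 0 0)) (.aff 1000000 0
 0))) (.sy 342187 (.sx 200000 (.sx 100000 (.sx 50000 (.aff 3000000 5226135 765384) (.aff 1000000 0 0)) (.aff
 1000000 0 0)) (.aff 1000000 0 0)) (.sx 200000 (.sx 100000 (.sx 50000 (.aff 3000000 5238080 763639) (.aff
 2100000 3147304 384457)) (.aff 1000000 0 0)) (.aff 1000000 0 0)))) (.sy 346875 (.sx 200000 (.sx 100000 (.sx
 50000 (.aff 3000000 5255950 761043) (.aff 2100000 2857514 423445)) (.aff 1000000 0 0)) (.aff 1000000 0 0))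
 (.sy 348437 (.sx 200000 (.sx 100000 (.sx 50000 (.aff 3000000 5273754 758473) (.aff 2050000 2736867 402833))
 (.aff 1000000 0 0)) (.aff 1000000 0 0)) (.sx 200000 (.sx 100000 (.sx 50000 (.aff 3000000 5285592 756775)
 (.aff 2500000 3545683 634575)) (.aff 1000000 0 0)) (.aff 1000000 0 0))))))), .pol, (.pol), (.sx 200000 (.pol)
 (.sx 300000 (.pol) (.pol))), .pol⟩, .one ⟨2008000, 251, 522080, 174294, 27268, 0, 0, 400000, 350000, 400000⟩
 ⟨0, .pol, .pol, .pol, .pol, (.sy 375000 (.sy 362500 (.sy 356250 (.sy 353125 (.sy 351562 (.sx 200000 (.sx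
 100000 (.sx 50000 (.aff 3000000 6116915 653925) (.aff 2500000 3553607 633160)) (.aff 1000000 0 0)) (.aff
 1000000 0 0)) (.sx 200000 (.sx 100000 (.sx 50000 (.aff 3000000 6130523 652473) (.aff 2500000 3561512 631755))
 (.aff 1000000 0 0)) (.aff 1000000 0 0))) (.sy 354687 (.sx 200000 (.sx 100000 (.sx 50000 (.aff 3000000 6144101
 651031) (.aff 2500000 3569400 630359)) (.aff 1000000 0 0)) (.aff 1000000 0 0)) (.sx 200000 (.sx 100000 (.sx
 50000 (.aff 3000000 6157649 649599) (.aff 2500000 3577271 628972)) (.aff 1000000 0 0)) (.aff 1000000 0 0))))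
 (.sy 359375 (.sy 357812 (.sy 357031 (.sx 200000 (.sx 100000 (.sx 50000 (.aff 3000000 6167792 648531) (.aff
 2500000 3583164 627937)) (.aff 1000000 0 0)) (.aff 1000000 0 0)) (.sx 200000 (.sx 100000 (.sx 50000 (.aff
 3000000 6174542 647822) (.aff 2500000 3587085 627251)) (.aff 1000000 0 0)) (.aff 1000000 0 0))) (.sx 200000
 (.sx 100000 (.sx 50000 (.aff 3000000 6184657 646762) (.aff 2500000 3592961 626225)) (.aff 1000000 0 0)) (.aff
 1000000 0 0))) (.sx 200000 (.sx 100000 (.sx 50000 (.aff 3000000 6204837 644659) (.aff 2450000 3484529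
 603382)) (.aff 1000000 0 0)) (.aff 1000000 0 0)))) (.sy 368750 (.sy 365625 (.sx 200000 (.sx 100000 (.sx 50000
 (.aff 3000000 6231640 641886) (.aff 2450000 3499581 600787)) (.aff 1000000 0 0)) (.aff 1000000 0 0)) (.sy
 367187 (.sx 200000 (.sx 100000 (.sx 50000 (.aff 3000000 6251665 639830) (.aff 2450000 3510826 598862)) (.aff
 1000000 0 0)) (.aff 1000000 0 0)) (.sx 200000 (.sx 100000 (.sx 50000 (.aff 3000000 6264980 638470) (.aff
 2450000 3518304 597590)) (.aff 1000000 0 0)) (.aff 1000000 0 0)))) (.sy 371875 (.sx 200000 (.sx 100000 (.sx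
 50000 (.aff 3000000 6284903 636446) (.sx 75000 (.aff 2745000 3926248 775556) (.aff 1000000 0 0))) (.aff
 1000000 0 0)) (.aff 1000000 0 0)) (.sy 373437 (.sy 372656 (.sx 200000 (.sx 100000 (.sx 50000 (.aff 3000000
 6301454 634775) (.sx 75000 (.aff 2769000 3941156 794022) (.aff 1000000 0 0))) (.aff 1000000 0 0)) (.aff
 1000000 0 0)) (.sx 200000 (.sx 100000 (.sx 50000 (.aff 3000000 6308061 634110) (.sx 75000 (.aff 2775000
 3958670 795880) (.aff 1000000 0 0))) (.aff 1000000 0 0)) (.aff 1000000 0 0))) (.sx 200000 (.sx 100000 (.sx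
 50000 (.aff 3000000 6317962 633116) (.sx 75000 (.aff 2750000 3909040 783441) (.aff 1000000 0 0))) (.aff
 1000000 0 0)) (.aff 1000000 0 0)))))) (.sx 200000 (.sx 100000 (.sx 50000 (.aff 3000000 6429101 622171) (.sx
 75000 (.aff 2700000 3864152 747901) (.aff 2500000 3275786 686859))) (.aff 1000000 0 0)) (.aff 1000000 0 0))),
 .pol, (.pol), (.sx 200000 (.pol) (.sx 300000 (.pol) (.pol))), .pol⟩, .one ⟨2008000, 251, 522080, 171081,
 28553, 0, 0, 400000, 400000, 450000⟩ ⟨0, .pol, .pol, .pol, .pol, (.sy 425000 (.sy 412500 (.sx 200000 (.sx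
 100000 (.sx 50000 (.aff 3000000 6582806 607644) (.aff 2825000 3932381 846975)) (.aff 1000000 0 0)) (.aff
 1000000 0 0)) (.sx 200000 (.sx 100000 (.sx 50000 (.aff 3000000 6683313 598506) (.sx 75000 (.aff 3000000
 5176872 772668) (.aff 2950000 3990360 952922))) (.aff 1000000 0 0)) (.aff 1000000 0 0))) (.sy 437500 (.sx
 200000 (.sx 100000 (.aff 3100000 4360978 1011242) (.aff 2300000 2668594 633293)) (.aff 1000000 0 0)) (.sy
 443750 (.sx 200000 (.sx 100000 (.aff 5000000 8396428 1905573) (.sx 150000 (.sx 125000 (.aff 3000000 3958115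
 1010583) (.aff 1000000 0 0)) (.aff 1000000 0 0))) (.aff 1000000 0 0)) (.sx 200000 (.sx 100000 (.aff 3000000
 4227884 946100) (.sx 150000 (.sx 125000 (.aff 3000000 3986087 1003491) (.aff 1000000 0 0)) (.aff 1000000 0
 0))) (.aff 1000000 0 0))))), .pol, (.pol), (.pol), .pol⟩, .one ⟨2008000, 251, 522080, 171884, 28192, 0, 0,
 400000, 450000, 500000⟩ ⟨0, .pol, .pol, .pol, .pol, (.sy 475000 (.sy 462500 (.sy 456250 (.sx 200000 (.sx
 100000 (.aff 3000000 4257347 939553) (.sx 150000 (.sx 125000 (.aff 3000000 4013865 996546) (.aff 1000000 0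
 0)) (.aff 1000000 0 0))) (.aff 1000000 0 0)) (.sx 200000 (.sx 100000 (.aff 3000000 4286608 933139) (.sx
 150000 (.sx 125000 (.aff 3000000 4041452 989744) (.aff 1000000 0 0)) (.aff 1000000 0 0))) (.aff 1000000 0
 0))) (.sy 468750 (.sx 200000 (.sx 100000 (.aff 3000000 4315670 926855) (.sx 150000 (.aff 3000000 3860052
 1036256) (.aff 1000000 0 0))) (.aff 1000000 0 0)) (.sx 200000 (.sx 100000 (.aff 3000000 4344537 920697) (.sx
 150000 (.aff 3000000 3885872 1029370) (.aff 1000000 0 0))) (.aff 1000000 0 0)))) (.sy 487500 (.sy 481250 (.sx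
 200000 (.sx 100000 (.aff 3000000 4373214 914660) (.sx 150000 (.aff 2950000 3813734 997055) (.aff 1000000 0
 0))) (.aff 1000000 0 0)) (.sx 200000 (.sx 100000 (.aff 3000000 4401705 908739) (.sx 150000 (.aff 2950000
 3838579 990601) (.aff 1000000 0 0))) (.aff 1000000 0 0))) (.sy 493750 (.sy 490625 (.sx 200000 (.sx 100000
 (.aff 3000000 4422952 904374) (.sx 150000 (.aff 2925000 3807658 973204) (.aff 1000000 0 0))) (.aff 1000000 0
 0)) (.sx 200000 (.sx 100000 (.aff 3000000 4437060 901498) (.sx 150000 (.sx 125000 (.aff 3000000 4183301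
 956183) (.aff 3000000 3783938 1057100)) (.aff 1000000 0 0))) (.aff 1000000 0 0))) (.sy 496875 (.sx 200000
 (.sx 100000 (.aff 3000000 4451124 898650) (.sx 150000 (.sx 125000 (.aff 3000000 4196560 953162) (.aff 3000000
 3795931 1053760)) (.aff 1000000 0 0))) (.aff 1000000 0 0)) (.sx 200000 (.sx 100000 (.aff 3000000 5155903
 775810) (.sx 150000 (.aff 3100000 3998281 1102975) (.aff 1000000 0 0))) (.aff 1000000 0 0)))))), .pol,
 (.pol), (.pol), .pol⟩, .one ⟨2008000, 251, 522080, 174294, 26987, 0, 0, 400000, 500000, 550000⟩ ⟨0, .pol,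
 .pol, .pol, .pol, (.sy 525000 (.sy 512500 (.sy 506250 (.sy 503125 (.sx 200000 (.sx 100000 (.aff 3000000
 5172041 773390) (.sx 150000 (.aff 3100000 4010796 1099533) (.aff 1500000 846474 295343))) (.aff 1000000 0 0))
 (.sx 200000 (.sx 100000 (.aff 3000000 5188128 770992) (.sx 150000 (.aff 3100000 4023271 1096124) (.aff
 1500000 849107 294427))) (.aff 1000000 0 0))) (.sy 509375 (.sx 200000 (.sx 100000 (.aff 3000000 5204165
 768616) (.sx 150000 (.aff 3100000 4035708 1092746) (.aff 1500000 851732 293520))) (.aff 1000000 0 0)) (.sx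
 200000 (.sx 100000 (.aff 3000000 5220154 766261) (.sx 150000 (.aff 3000000 3855339 1037523) (.aff 2000000
 1773198 563953))) (.aff 1000000 0 0)))) (.sy 518750 (.sy 515625 (.sx 200000 (.sx 100000 (.aff 3000000 5236093
 763929) (.sx 150000 (.aff 3000000 3867111 1034364) (.aff 3000000 3557225 1124473))) (.aff 1000000 0 0)) (.sx
 200000 (.sx 100000 (.aff 3000000 5251984 761617) (.sx 150000 (.aff 3000000 3878848 1031235) (.aff 3000000
 3568021 1121070))) (.aff 1000000 0 0))) (.sy 521875 (.sx 200000 (.sx 100000 (.aff 3000000 5267827 759327)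
 (.sx 150000 (.aff 3000000 3890548 1028133) (.aff 3000000 3578784 1117699))) (.aff 1000000 0 0)) (.sx 200000
 (.sx 100000 (.aff 3000000 5283623 757057) (.sx 150000 (.aff 3000000 3902214 1025060) (.aff 3000000 3589515
 1114357))) (.aff 1000000 0 0))))) (.sx 200000 (.sx 100000 (.aff 3000000 5354127 747088) (.sx 150000 (.aff
 5000000 8294577 1928972) (.aff 3037000 3704705 1120027))) (.aff 1000000 0 0))), .pol, (.pol), (.pol), .pol⟩,
 .one ⟨2008000, 251, 522080, 179916, 23895, 0, 0, 400000, 550000, 600000⟩ ⟨0, .pol, .pol, .pol, .pol, (.sx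
 200000 (.sx 100000 (.aff 3000000 5537750 722316) (.sx 150000 (.aff 3000000 3915781 1021508) (.aff 3137000
 3825523 1193764))) (.sy 575000 (.aff 1600000 900000 400000) (.sx 300000 (.sx 250000 (.aff 3200000 3658030
 1323117) (.aff 1000000 0 0)) (.aff 1000000 0 0)))), .pol, (.pol), (.pol), .pol⟩, .one ⟨2008000, 251, 522080,
 187145, 19557, 0, 0, 400000, 600000, 650000⟩ ⟨0, .pol, .pol, .pol, .pol, (.sx 200000 (.aff 5000000 7071068
 2262742) (.sy 625000 (.sx 300000 (.sy 612500 (.sx 250000 (.aff 3200000 3715944 1302496) (.aff 1000000 0 0))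
 (.sx 250000 (.sx 225000 (.aff 5000000 6825558 2344131) (.aff 3100000 3435074 1283816)) (.aff 1500000 750000
 333334))) (.aff 1000000 0 0)) (.sy 637500 (.sx 300000 (.sx 250000 (.aff 4000000 4767075 1887951) (.aff
 2000000 1550730 644858)) (.aff 1000000 0 0)) (.sx 300000 (.sx 250000 (.aff 5000000 6585471 2429591) (.aff
 3200000 3445218 1404846)) (.aff 1000000 0 0))))), .pol, (.pol), (.pol), .pol⟩, .one ⟨2008000, 251, 522080,
 197185, 13031, 0, 0, 400000, 650000, 700000⟩ ⟨0, .pol, .pol, .pol, .pol, (.sx 200000 (.aff 5000000 8485282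
 1885618) (.sy 675000 (.sy 662500 (.sx 300000 (.sx 250000 (.aff 5000000 6831301 2342161) (.aff 3300000 3636620
 1454648)) (.aff 1000000 0 0)) (.sx 300000 (.sx 250000 (.aff 5000000 6896054 2320168) (.aff 3300000 3671091
 1440989)) (.aff 2000000 1382286 723440))) (.sy 687500 (.sx 300000 (.aff 4000000 4520786 1990805) (.aff
 3000000 2895621 1381397)) (.sx 300000 (.aff 5000000 6082763 2630384) (.aff 3375000 3469952 1625563))))),
 .pol, (.pol), (.pol), .pol⟩, .one ⟨2008000, 251, 522080, 209635, 4317, 0, 0, 400000, 700000, 750000⟩ ⟨0,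
 .pol, .pol, .pol, .pol, (.sx 200000 (.aff 5000000 8793938 1819436) (.sx 300000 (.aff 5000000 6494754 2463527)
 (.sx 350000 (.aff 3335000 3556567 1533003) (.aff 3300000 3252692 1626346)))), .pol, (.pol), (.pol), .pol⟩,
 .one ⟨2008000, 251, 522080, 222084, -5020, 0, 0, 400000, 750000, 800000⟩ ⟨0, .pol, .pol, .pol, .pol, (.sx
 200000 (.aff 5000000 9092122 1759766) (.sx 300000 (.aff 5000000 7042727 2271848) (.sx 350000 (.aff 5000000
 6176880 2590305) (.aff 3372000 3446651 1632421)))), .pol, (.pol), (.pol), .pol⟩, .one ⟨2008000, 251, 522080,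
 -123932957, 99319013, 0, 0, 400000, 800000, 850000⟩ ⟨0, .pol, .pol, .pol, .pol, (.sx 200000 (.inf 2872282
 348156) (.inf 1326650 753779)), .pol, (.pol), (.sx 200000 (.inf 2872282 348156) (.inf 1326650 753779)),
 .pol⟩, .one ⟨2008000, 251, 522080, 0, -6024000, 0, 0, 400000, 850000, 900000⟩ ⟨0, .pol, .pol, .pol, .pol,
 (.inf 1673321 597614), .pol, (.pol), (.inf 1673321 597614), .pol⟩, .one ⟨2008000, 251, 522080, 0, -6024000,
 0, 0, 400000, 900000, 950000⟩ ⟨0, .pol, .pol, .pol, .pol, (.inf 1720466 581238), .pol, (.pol), (.inf 1720466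
 581238), .pol⟩, .one ⟨2008000, 251, 522080, 0, -6024000, 0, 0, 400000, 950000, 1000000⟩ ⟨0, .pol, .pol, .pol,
 .pol, (.inf 1766353 566139), .pol, (.pol), (.inf 1766353 566139), .pol⟩], []⟩] = true := by decide +kernel

theorem II_xC170_80 : PropII xC170_80 := propIIp_of cC170_80

theorem lC170_110_0 : chkPlp ⟨(nat_lit 3), (nat_lit 1000), Int.ofNat (nat_lit 290), 0, ⟨0, 1⟩, ⟨Int.ofNat
 (nat_lit 110), 200⟩⟩ ⟨850000, 900000, 935319, 922050, 948779, 351763, 389094, 318023, 387298, 316227⟩ true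
 0 0 [(nat_lit 50), (nat_lit 100), (nat_lit 150), (nat_lit 200), (nat_lit 250), (nat_lit 300), (nat_lit
 350), (nat_lit 400), (nat_lit 450), (nat_lit 500), (nat_lit 550), (nat_lit 600), (nat_lit 650), (nat_lit
 700), (nat_lit 750), (nat_lit 800), (nat_lit 850), (nat_lit 900), (nat_lit 950), (nat_lit 1000)]
 [(Int.ofNat (nat_lit 882)), (Int.ofNat (nat_lit 1744)), (Int.ofNat (nat_lit 2411)), (Int.ofNat (nat_lit
 2962)), (Int.ofNat (nat_lit 3433)), (Int.ofNat (nat_lit 3853)), (Int.ofNat (nat_lit 4234)), (Int.ofNat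
 (nat_lit 4590)), (Int.ofNat (nat_lit 4927)), (Int.ofNat (nat_lit 5256)), (Int.ofNat (nat_lit 5579)),
 (Int.ofNat (nat_lit 5905)), (Int.ofNat (nat_lit 6239)), (Int.ofNat (nat_lit 6584)), (Int.ofNat (nat_lit
 6948)), (Int.ofNat (nat_lit 7334)), (Int.ofNat (nat_lit 7750)), (Int.ofNat (nat_lit 8215)), (Int.negSucc
 (nat_lit 299999)), (Int.negSucc (nat_lit 299999))] [qC170_110_0_0, qC170_110_0_1, qC170_110_0_2,
 qC170_110_0_3, qC170_110_0_4, qC170_110_0_5, qC170_110_0_6, qC170_110_0_7, qC170_110_0_8, qC170_110_0_9,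
 qC170_110_0_10, qC170_110_0_11, qC170_110_0_12, qC170_110_0_13, qC170_110_0_14, qC170_110_0_15,
 qC170_110_0_16, qC170_110_0_17, qC170_110_0_18, qC170_110_0_19] = true :=
  chkPlp_cons rfl hC170_110_0_0 (chkPlp_cons rfl hC170_110_0_1 (chkPlp_cons rfl hC170_110_0_2 (chkPlp_cons
 rfl hC170_110_0_3 (chkPlp_cons rfl hC170_110_0_4 (chkPlp_cons rfl hC170_110_0_5 (chkPlp_cons rfl
 hC170_110_0_6 (chkPlp_cons rfl hC170_110_0_7 (chkPlp_cons rfl hC170_110_0_8 (chkPlp_cons rfl hC170_110_0_9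
 (chkPlp_cons rfl hC170_110_0_10 (chkPlp_cons rfl hC170_110_0_11 (chkPlp_cons rfl hC170_110_0_12
 (chkPlp_cons rfl hC170_110_0_13 (chkPlp_cons rfl hC170_110_0_14 (chkPlp_cons rfl hC170_110_0_15
 (chkPlp_cons rfl hC170_110_0_16 (chkPlp_cons rfl hC170_110_0_17 (chkPlp_cons rfl hC170_110_0_18
 (chkPlp_cons rfl hC170_110_0_19 chkPlp_nil)))))))))))))))))))

theorem lC170_110_1 : chkPlp ⟨(nat_lit 3), (nat_lit 1000), Int.ofNat (nat_lit 400), 0, ⟨0, 1⟩, ⟨Int.ofNat
 (nat_lit 110), 200⟩⟩ ⟨850000, 900000, 935319, 922050, 948779, 351763, 389094, 318023, 387298, 316227⟩ true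
 0 0 [(nat_lit 50), (nat_lit 100), (nat_lit 150), (nat_lit 200), (nat_lit 250), (nat_lit 300), (nat_lit
 350), (nat_lit 400), (nat_lit 450), (nat_lit 500), (nat_lit 550), (nat_lit 600), (nat_lit 650), (nat_lit
 700), (nat_lit 750), (nat_lit 800), (nat_lit 850), (nat_lit 900), (nat_lit 950), (nat_lit 1000)]
 [(Int.ofNat (nat_lit 815)), (Int.ofNat (nat_lit 1693)), (Int.ofNat (nat_lit 2429)), (Int.ofNat (nat_lit
 2921)), (Int.ofNat (nat_lit 3270)), (Int.ofNat (nat_lit 3499)), (Int.ofNat (nat_lit 3642)), (Int.ofNat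
 (nat_lit 3713)), (Int.ofNat (nat_lit 3726)), (Int.ofNat (nat_lit 3688)), (Int.ofNat (nat_lit 3607)),
 (Int.ofNat (nat_lit 3488)), (Int.ofNat (nat_lit 3335)), (Int.ofNat (nat_lit 3148)), (Int.ofNat (nat_lit
 2929)), (Int.ofNat (nat_lit 2672)), (Int.ofNat (nat_lit 2369)), (Int.ofNat (nat_lit 1995)), (Int.negSucc
 (nat_lit 299999)), (Int.negSucc (nat_lit 299999))] [qC170_110_1_0, qC170_110_1_1, qC170_110_1_2,
 qC170_110_1_3, qC170_110_1_4, qC170_110_1_5, qC170_110_1_6, qC170_110_1_7, qC170_110_1_8, qC170_110_1_9,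
 qC170_110_1_10, qC170_110_1_11, qC170_110_1_12, qC170_110_1_13, qC170_110_1_14, qC170_110_1_15,
 qC170_110_1_16, qC170_110_1_17, qC170_110_1_18, qC170_110_1_19] = true :=
  chkPlp_cons rfl hC170_110_1_0 (chkPlp_cons rfl hC170_110_1_1 (chkPlp_cons rfl hC170_110_1_2 (chkPlp_cons
 rfl hC170_110_1_3 (chkPlp_cons rfl hC170_110_1_4 (chkPlp_cons rfl hC170_110_1_5 (chkPlp_cons rfl
 hC170_110_1_6 (chkPlp_cons rfl hC170_110_1_7 (chkPlp_cons rfl hC170_110_1_8 (chkPlp_cons rfl hC170_110_1_9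
 (chkPlp_cons rfl hC170_110_1_10 (chkPlp_cons rfl hC170_110_1_11 (chkPlp_cons rfl hC170_110_1_12
 (chkPlp_cons rfl hC170_110_1_13 (chkPlp_cons rfl hC170_110_1_14 (chkPlp_cons rfl hC170_110_1_15
 (chkPlp_cons rfl hC170_110_1_16 (chkPlp_cons rfl hC170_110_1_17 (chkPlp_cons rfl hC170_110_1_18
 (chkPlp_cons rfl hC170_110_1_19 chkPlp_nil)))))))))))))))))))

theorem lC170_110_2 : chkPlp ⟨(nat_lit 3), (nat_lit 1000), Int.ofNat (nat_lit 600), 0, ⟨0, 1⟩, ⟨Int.ofNat
 (nat_lit 110), 200⟩⟩ ⟨850000, 900000, 935319, 922050, 948779, 351763, 389094, 318023, 387298, 316227⟩ true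
 0 0 [(nat_lit 50), (nat_lit 100), (nat_lit 150), (nat_lit 200), (nat_lit 250), (nat_lit 300), (nat_lit
 350), (nat_lit 400), (nat_lit 450), (nat_lit 500), (nat_lit 550), (nat_lit 600), (nat_lit 650), (nat_lit
 700), (nat_lit 750), (nat_lit 800), (nat_lit 850), (nat_lit 900), (nat_lit 950), (nat_lit 1000)]
 [(Int.ofNat (nat_lit 783)), (Int.ofNat (nat_lit 1636)), (Int.ofNat (nat_lit 2439)), (Int.ofNat (nat_lit
 2863)), (Int.ofNat (nat_lit 2962)), (Int.ofNat (nat_lit 2860)), (Int.ofNat (nat_lit 2561)), (Int.ofNat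
 (nat_lit 2124)), (Int.ofNat (nat_lit 1537)), (Int.ofNat (nat_lit 842)), (Int.ofNat (nat_lit 19)),
 (Int.negSucc (nat_lit 901)), (Int.negSucc (nat_lit 1945)), (Int.negSucc (nat_lit 3090)), (Int.negSucc
 (nat_lit 4376)), (Int.negSucc (nat_lit 5792)), (Int.negSucc (nat_lit 7411)), (Int.negSucc (nat_lit 9275)),
 (Int.negSucc (nat_lit 299999)), (Int.negSucc (nat_lit 299999))] [qC170_110_2_0, qC170_110_2_1,
 qC170_110_2_2, qC170_110_2_3, qC170_110_2_4, qC170_110_2_5, qC170_110_2_6, qC170_110_2_7, qC170_110_2_8,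
 qC170_110_2_9, qC170_110_2_10, qC170_110_2_11, qC170_110_2_12, qC170_110_2_13, qC170_110_2_14,
 qC170_110_2_15, qC170_110_2_16, qC170_110_2_17, qC170_110_2_18, qC170_110_2_19] = true :=
  chkPlp_cons rfl hC170_110_2_0 (chkPlp_cons rfl hC170_110_2_1 (chkPlp_cons rfl hC170_110_2_2 (chkPlp_cons
 rfl hC170_110_2_3 (chkPlp_cons rfl hC170_110_2_4 (chkPlp_cons rfl hC170_110_2_5 (chkPlp_cons rfl
 hC170_110_2_6 (chkPlp_cons rfl hC170_110_2_7 (chkPlp_cons rfl hC170_110_2_8 (chkPlp_cons rfl hC170_110_2_9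
 (chkPlp_cons rfl hC170_110_2_10 (chkPlp_cons rfl hC170_110_2_11 (chkPlp_cons rfl hC170_110_2_12
 (chkPlp_cons rfl hC170_110_2_13 (chkPlp_cons rfl hC170_110_2_14 (chkPlp_cons rfl hC170_110_2_15
 (chkPlp_cons rfl hC170_110_2_16 (chkPlp_cons rfl hC170_110_2_17 (chkPlp_cons rfl hC170_110_2_18
 (chkPlp_cons rfl hC170_110_2_19 chkPlp_nil)))))))))))))))))))

theorem lC170_110_3 : chkPlp ⟨(nat_lit 3), (nat_lit 1000), Int.ofNat (nat_lit 1000), 0, ⟨0, 1⟩, ⟨Int.ofNat
 (nat_lit 110), 200⟩⟩ ⟨850000, 900000, 935319, 922050, 948779, 351763, 389094, 318023, 387298, 316227⟩ true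
 0 0 [(nat_lit 50), (nat_lit 100), (nat_lit 150), (nat_lit 200), (nat_lit 250), (nat_lit 300), (nat_lit
 350), (nat_lit 400), (nat_lit 450), (nat_lit 500), (nat_lit 550), (nat_lit 600), (nat_lit 650), (nat_lit
 700), (nat_lit 750), (nat_lit 800), (nat_lit 850), (nat_lit 900), (nat_lit 950), (nat_lit 1000)]
 [(Int.ofNat (nat_lit 769)), (Int.ofNat (nat_lit 1614)), (Int.ofNat (nat_lit 2481)), (Int.ofNat (nat_lit
 2747)), (Int.ofNat (nat_lit 2367)), (Int.ofNat (nat_lit 1595)), (Int.ofNat (nat_lit 423)), (Int.negSucc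
 (nat_lit 1034)), (Int.negSucc (nat_lit 2808)), (Int.negSucc (nat_lit 4821)), (Int.negSucc (nat_lit 7118)),
 (Int.negSucc (nat_lit 9643)), (Int.negSucc (nat_lit 12457)), (Int.negSucc (nat_lit 15522)), (Int.negSucc
 (nat_lit 18928)), (Int.negSucc (nat_lit 22666)), (Int.negSucc (nat_lit 26902)), (Int.negSucc (nat_lit
 31748)), (Int.negSucc (nat_lit 299999)), (Int.negSucc (nat_lit 299999))] [qC170_110_3_0, qC170_110_3_1,
 qC170_110_3_2, qC170_110_3_3, qC170_110_3_4, qC170_110_3_5, qC170_110_3_6, qC170_110_3_7, qC170_110_3_8,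
 qC170_110_3_9, qC170_110_3_10, qC170_110_3_11, qC170_110_3_12, qC170_110_3_13, qC170_110_3_14,
 qC170_110_3_15, qC170_110_3_16, qC170_110_3_17, qC170_110_3_18, qC170_110_3_19] = true :=
  chkPlp_cons rfl hC170_110_3_0 (chkPlp_cons rfl hC170_110_3_1 (chkPlp_cons rfl hC170_110_3_2 (chkPlp_cons
 rfl hC170_110_3_3 (chkPlp_cons rfl hC170_110_3_4 (chkPlp_cons rfl hC170_110_3_5 (chkPlp_cons rfl
 hC170_110_3_6 (chkPlp_cons rfl hC170_110_3_7 (chkPlp_cons rfl hC170_110_3_8 (chkPlp_cons rfl hC170_110_3_9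
 (chkPlp_cons rfl hC170_110_3_10 (chkPlp_cons rfl hC170_110_3_11 (chkPlp_cons rfl hC170_110_3_12
 (chkPlp_cons rfl hC170_110_3_13 (chkPlp_cons rfl hC170_110_3_14 (chkPlp_cons rfl hC170_110_3_15
 (chkPlp_cons rfl hC170_110_3_16 (chkPlp_cons rfl hC170_110_3_17 (chkPlp_cons rfl hC170_110_3_18
 (chkPlp_cons rfl hC170_110_3_19 chkPlp_nil)))))))))))))))))))

theorem lC170_110_4 : chkPlp ⟨(nat_lit 3), (nat_lit 1000), Int.ofNat (nat_lit 2000), 0, ⟨0, 1⟩, ⟨Int.ofNat
 (nat_lit 110), 200⟩⟩ ⟨850000, 900000, 935319, 922050, 948779, 351763, 389094, 318023, 387298, 316227⟩ true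
 0 0 [(nat_lit 50), (nat_lit 100), (nat_lit 150), (nat_lit 200), (nat_lit 250), (nat_lit 300), (nat_lit
 350), (nat_lit 400), (nat_lit 450), (nat_lit 500), (nat_lit 550), (nat_lit 600), (nat_lit 650), (nat_lit
 700), (nat_lit 750), (nat_lit 800), (nat_lit 850), (nat_lit 900), (nat_lit 950), (nat_lit 1000)]
 [(Int.ofNat (nat_lit 764)), (Int.ofNat (nat_lit 1609)), (Int.ofNat (nat_lit 2610)), (Int.ofNat (nat_lit
 2430)), (Int.ofNat (nat_lit 873)), (Int.negSucc (nat_lit 1564)), (Int.negSucc (nat_lit 4923)), (Int.negSucc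
 (nat_lit 8934)), (Int.negSucc (nat_lit 13676)), (Int.negSucc (nat_lit 18983)), (Int.negSucc (nat_lit
 24966)), (Int.negSucc (nat_lit 31502)), (Int.negSucc (nat_lit 38744)), (Int.negSucc (nat_lit 46606)),
 (Int.negSucc (nat_lit 55313)), (Int.negSucc (nat_lit 64856)), (Int.negSucc (nat_lit 75634)), (Int.negSucc
 (nat_lit 87939)), (Int.negSucc (nat_lit 299999)), (Int.negSucc (nat_lit 299999))] [qC170_110_4_0,
 qC170_110_4_1, qC170_110_4_2, qC170_110_4_3, qC170_110_4_4, qC170_110_4_5, qC170_110_4_6, qC170_110_4_7,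
 qC170_110_4_8, qC170_110_4_9, qC170_110_4_10, qC170_110_4_11, qC170_110_4_12, qC170_110_4_13,
 qC170_110_4_14, qC170_110_4_15, qC170_110_4_16, qC170_110_4_17, qC170_110_4_18, qC170_110_4_19] = true :=
  chkPlp_cons rfl hC170_110_4_0 (chkPlp_cons rfl hC170_110_4_1 (chkPlp_cons rfl hC170_110_4_2 (chkPlp_cons
 rfl hC170_110_4_3 (chkPlp_cons rfl hC170_110_4_4 (chkPlp_cons rfl hC170_110_4_5 (chkPlp_cons rfl
 hC170_110_4_6 (chkPlp_cons rfl hC170_110_4_7 (chkPlp_cons rfl hC170_110_4_8 (chkPlp_cons rfl hC170_110_4_9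
 (chkPlp_cons rfl hC170_110_4_10 (chkPlp_cons rfl hC170_110_4_11 (chkPlp_cons rfl hC170_110_4_12
 (chkPlp_cons rfl hC170_110_4_13 (chkPlp_cons rfl hC170_110_4_14 (chkPlp_cons rfl hC170_110_4_15
 (chkPlp_cons rfl hC170_110_4_16 (chkPlp_cons rfl hC170_110_4_17 (chkPlp_cons rfl hC170_110_4_18
 (chkPlp_cons rfl hC170_110_4_19 chkPlp_nil)))))))))))))))))))

theorem lC170_110_5 : chkPlp ⟨(nat_lit 3), (nat_lit 1000), Int.ofNat (nat_lit 4000), 0, ⟨0, 1⟩, ⟨Int.ofNat
 (nat_lit 110), 200⟩⟩ ⟨850000, 900000, 935319, 922050, 948779, 351763, 389094, 318023, 387298, 316227⟩ true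
 0 0 [(nat_lit 50), (nat_lit 100), (nat_lit 150), (nat_lit 200), (nat_lit 250), (nat_lit 300), (nat_lit
 350), (nat_lit 400), (nat_lit 450), (nat_lit 500), (nat_lit 550), (nat_lit 600), (nat_lit 650), (nat_lit
 700), (nat_lit 750), (nat_lit 800), (nat_lit 850), (nat_lit 900), (nat_lit 950), (nat_lit 1000)]
 [(Int.ofNat (nat_lit 770)), (Int.ofNat (nat_lit 1622)), (Int.ofNat (nat_lit 2843)), (Int.ofNat (nat_lit
 1808)), (Int.negSucc (nat_lit 2118)), (Int.negSucc (nat_lit 7902)), (Int.negSucc (nat_lit 15634)),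
 (Int.negSucc (nat_lit 24753)), (Int.negSucc (nat_lit 35435)), (Int.negSucc (nat_lit 47333)), (Int.negSucc
 (nat_lit 60691)), (Int.negSucc (nat_lit 75253)), (Int.negSucc (nat_lit 91353)), (Int.negSucc (nat_lit
 108815)), (Int.negSucc (nat_lit 128128)), (Int.negSucc (nat_lit 149284)), (Int.negSucc (nat_lit 173153)),
 (Int.negSucc (nat_lit 200379)), (Int.negSucc (nat_lit 299999)), (Int.negSucc (nat_lit 299999))]
 [qC170_110_5_0, qC170_110_5_1, qC170_110_5_2, qC170_110_5_3, qC170_110_5_4, qC170_110_5_5, qC170_110_5_6,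
 qC170_110_5_7, qC170_110_5_8, qC170_110_5_9, qC170_110_5_10, qC170_110_5_11, qC170_110_5_12,
 qC170_110_5_13, qC170_110_5_14, qC170_110_5_15, qC170_110_5_16, qC170_110_5_17, qC170_110_5_18,
 qC170_110_5_19] = true :=
  chkPlp_cons rfl hC170_110_5_0 (chkPlp_cons rfl hC170_110_5_1 (chkPlp_cons rfl hC170_110_5_2 (chkPlp_cons
 rfl hC170_110_5_3 (chkPlp_cons rfl hC170_110_5_4 (chkPlp_cons rfl hC170_110_5_5 (chkPlp_cons rfl
 hC170_110_5_6 (chkPlp_cons rfl hC170_110_5_7 (chkPlp_cons rfl hC170_110_5_8 (chkPlp_cons rfl hC170_110_5_9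
 (chkPlp_cons rfl hC170_110_5_10 (chkPlp_cons rfl hC170_110_5_11 (chkPlp_cons rfl hC170_110_5_12
 (chkPlp_cons rfl hC170_110_5_13 (chkPlp_cons rfl hC170_110_5_14 (chkPlp_cons rfl hC170_110_5_15
 (chkPlp_cons rfl hC170_110_5_16 (chkPlp_cons rfl hC170_110_5_17 (chkPlp_cons rfl hC170_110_5_18
 (chkPlp_cons rfl hC170_110_5_19 chkPlp_nil)))))))))))))))))))

def cC170_110 : chkIIp xC170_110 ⟨850000, 900000, 935319, 922050, 948779, 351763, 389094, 318023, 387298,
 316227⟩ [⟨[qC170_110_0_0, qC170_110_0_1, qC170_110_0_2, qC170_110_0_3, qC170_110_0_4, qC170_110_0_5,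
 qC170_110_0_6, qC170_110_0_7, qC170_110_0_8, qC170_110_0_9, qC170_110_0_10, qC170_110_0_11, qC170_110_0_12,
 qC170_110_0_13, qC170_110_0_14, qC170_110_0_15, qC170_110_0_16, qC170_110_0_17, qC170_110_0_18,
 qC170_110_0_19], []⟩, ⟨[qC170_110_1_0, qC170_110_1_1, qC170_110_1_2, qC170_110_1_3, qC170_110_1_4,
 qC170_110_1_5, qC170_110_1_6, qC170_110_1_7, qC170_110_1_8, qC170_110_1_9, qC170_110_1_10, qC170_110_1_11,
 qC170_110_1_12, qC170_110_1_13, qC170_110_1_14, qC170_110_1_15, qC170_110_1_16, qC170_110_1_17,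
 qC170_110_1_18, qC170_110_1_19], []⟩, ⟨[qC170_110_2_0, qC170_110_2_1, qC170_110_2_2, qC170_110_2_3,
 qC170_110_2_4, qC170_110_2_5, qC170_110_2_6, qC170_110_2_7, qC170_110_2_8, qC170_110_2_9, qC170_110_2_10,
 qC170_110_2_11, qC170_110_2_12, qC170_110_2_13, qC170_110_2_14, qC170_110_2_15, qC170_110_2_16,
 qC170_110_2_17, qC170_110_2_18, qC170_110_2_19], []⟩, ⟨[qC170_110_3_0, qC170_110_3_1, qC170_110_3_2,
 qC170_110_3_3, qC170_110_3_4, qC170_110_3_5, qC170_110_3_6, qC170_110_3_7, qC170_110_3_8, qC170_110_3_9,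
 qC170_110_3_10, qC170_110_3_11, qC170_110_3_12, qC170_110_3_13, qC170_110_3_14, qC170_110_3_15,
 qC170_110_3_16, qC170_110_3_17, qC170_110_3_18, qC170_110_3_19], []⟩, ⟨[qC170_110_4_0, qC170_110_4_1,
 qC170_110_4_2, qC170_110_4_3, qC170_110_4_4, qC170_110_4_5, qC170_110_4_6, qC170_110_4_7, qC170_110_4_8,
 qC170_110_4_9, qC170_110_4_10, qC170_110_4_11, qC170_110_4_12, qC170_110_4_13, qC170_110_4_14,
 qC170_110_4_15, qC170_110_4_16, qC170_110_4_17, qC170_110_4_18, qC170_110_4_19], []⟩, ⟨[qC170_110_5_0,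
 qC170_110_5_1, qC170_110_5_2, qC170_110_5_3, qC170_110_5_4, qC170_110_5_5, qC170_110_5_6, qC170_110_5_7,
 qC170_110_5_8, qC170_110_5_9, qC170_110_5_10, qC170_110_5_11, qC170_110_5_12, qC170_110_5_13,
 qC170_110_5_14, qC170_110_5_15, qC170_110_5_16, qC170_110_5_17, qC170_110_5_18, qC170_110_5_19], []⟩] =
 true := chkIIp_mk (by decide +kernel) (chkClsp_cons lC170_110_0 (chkClsp_cons lC170_110_1 (chkClsp_cons
 lC170_110_2 (chkClsp_cons lC170_110_3 (chkClsp_cons lC170_110_4 (chkClsp_cons lC170_110_5 chkClsp_nil))))))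

theorem II_xC170_110 : PropII xC170_110 := propIIp_of cC170_110

end CB
end Pool.Agent.Lib.MP_6947cd_al
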