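import Pool.Agent.Lib.MP_6947cd_al.L.PairC
import Pool.Agent.Lib.MP_6947cd_al.L.BoxLibC
import Pool.Agent.Lib.MP_6947cd_al.PS.C180_110_0
import Pool.Agent.Lib.MP_6947cd_al.PS.C180_110_1
import Pool.Agent.Lib.MP_6947cd_al.PS.C180_110_2
import Pool.Agent.Lib.MP_6947cd_al.PS.C180_110_3

/-!
Problem MP_6947cd_al (Chollet).  Library of pair functions: certificates (generated).
-/

set_option autoImplicit false
set_option linter.defProp false
set_option maxRecDepth 100000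

namespace Pool.Agent.Lib.MP_6947cd_al
namespace CB

open CA

def cC180_80 : chkIIp xC180_80 ⟨900000, 950000, 961681, 948772, 974768, 269917, 320201, 227580, 316227,
 223606⟩ [⟨[.one ⟨2008000, 251, 522080, 379110, 0, 0, 0, 400000, 0, 50000⟩ ⟨25000, (.sp 250000 (.aff 2828428
 353554) (.aff 1511858 661438)), (.pol), (.pol), (.pol), (.sx 212500 (.aff 313000 447783 1054013) (.aff
 1000000 0 0)), (.aff 75000 1524010 561431), (.pol), (.sx 212500 (.pol) (.pol)), (.pol)⟩, .one ⟨2008000, 251,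
 522080, 262244, 5843, 0, 0, 400000, 50000, 100000⟩ ⟨0, .pol, .pol, .pol, .pol, (.sx 200000 (.sx 100000 (.sy
 75000 (.sy 62500 (.sx 50000 (.sx 25000 (.aff 375000 1875000 208334) (.aff 1000000 0 0)) (.aff 1000000 0 0))
 (.sx 50000 (.sy 68750 (.sx 25000 (.aff 500000 1978899 126333) (.aff 1000000 0 0)) (.sx 25000 (.sy 71875 (.aff
 588000 2061538 82339) (.sx 12500 (.aff 672000 2186952 49194) (.aff 1000000 0 0))) (.aff 1000000 0 0))) (.aff
 1000000 0 0))) (.sx 50000 (.sx 25000 (.sy 87500 (.sy 81250 (.sx 12500 (.sy 78125 (.sx 6250 (.aff 675000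
 2171475 48643) (.aff 1000000 0 0)) (.sx 6250 (.sx 3125 (.sx 1562 (.aff 675000 2321336 45502) (.aff 1000000 0
 0)) (.aff 1000000 0 0)) (.aff 1000000 0 0))) (.aff 1000000 0 0)) (.sx 12500 (.aff 750000 2141752 29182) (.aff
 1000000 0 0))) (.sx 12500 (.sx 6250 (.aff 750000 1936492 32275) (.aff 1000000 0 0)) (.aff 1000000 0 0)))
 (.aff 1000000 0 0)) (.aff 1000000 0 0))) (.aff 1000000 0 0)) (.aff 1000000 0 0)), .pol, (.pol), (.sx 200000
 (.sy 75000 (.sy 62500 (.sy 56250 (.sx 100000 (.sx 50000 (.pol) (.pol)) (.pol)) (.sx 100000 (.sx 50000 (.pol)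
 (.pol)) (.pol))) (.sy 68750 (.sx 100000 (.sx 50000 (.pol) (.pol)) (.pol)) (.sx 100000 (.sx 50000 (.pol)
 (.pol)) (.pol)))) (.sy 87500 (.sy 81250 (.sx 100000 (.sx 50000 (.pol) (.pol)) (.pol)) (.sx 100000 (.sx 50000
 (.pol) (.pol)) (.pol))) (.sy 93750 (.sx 100000 (.sx 50000 (.pol) (.pol)) (.pol)) (.sx 100000 (.sx 50000
 (.pol) (.pol)) (.pol))))) (.pol)), .pol⟩, .one ⟨2008000, 251, 522080, 205217, 11546, 0, 0, 400000, 100000,
 150000⟩ ⟨0, .pol, .pol, .pol, .pol, (.sx 200000 (.sx 100000 (.sx 50000 (.sy 125000 (.sx 25000 (.sx 12500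
 (.aff 1250000 2733179 22868) (.aff 1000000 0 0)) (.aff 1000000 0 0)) (.sy 137500 (.sx 25000 (.sx 12500 (.aff
 1450000 2990161 67723) (.aff 1000000 0 0)) (.aff 1000000 0 0)) (.sx 25000 (.sy 143750 (.sx 12500 (.aff
 1400000 2683282 59629) (.aff 1000000 0 0)) (.aff 1600000 2908608 123771)) (.aff 1000000 0 0)))) (.aff 1000000
 0 0)) (.aff 1000000 0 0)) (.aff 1000000 0 0)), .pol, (.pol), (.sx 200000 (.sx 100000 (.pol) (.pol)) (.pol)),
 .pol⟩, .one ⟨2008000, 251, 522080, 177908, 15642, 0, 0, 400000, 150000, 200000⟩ ⟨0, .pol, .pol, .pol, .pol,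
 (.sx 200000 (.sx 100000 (.sy 175000 (.sx 50000 (.sy 162500 (.sy 156250 (.sx 25000 (.aff 1600000 2969849
 121219) (.aff 1000000 0 0)) (.sx 25000 (.sx 12500 (.aff 1913000 3427210 243221) (.aff 1000000 0 0)) (.aff
 1000000 0 0))) (.sy 168750 (.sy 165625 (.sx 25000 (.sx 12500 (.aff 1963000 3488799 265814) (.aff 1000000 0
 0)) (.aff 1000000 0 0)) (.sx 25000 (.aff 1932000 3408497 254841) (.aff 1000000 0 0))) (.sx 25000 (.aff
 1912000 3381787 245949) (.aff 1000000 0 0)))) (.aff 1000000 0 0)) (.sy 187500 (.sy 181250 (.sy 178125 (.sy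
 176562 (.sx 50000 (.sx 25000 (.aff 1900000 3374998 240001) (.aff 1000000 0 0)) (.aff 1000000 0 0)) (.sx 50000
 (.sx 25000 (.aff 1900000 3389965 238941) (.aff 1000000 0 0)) (.aff 1000000 0 0))) (.sx 50000 (.sx 25000 (.aff
 1875000 3317509 230784) (.aff 1000000 0 0)) (.aff 1000000 0 0))) (.sy 184375 (.sx 50000 (.sx 25000 (.aff
 1875000 3346232 228803) (.aff 1000000 0 0)) (.aff 1000000 0 0)) (.sy 185937 (.sx 50000 (.sx 25000 (.aff
 1863000 3321427 224232) (.aff 1000000 0 0)) (.aff 1000000 0 0)) (.sx 50000 (.sx 25000 (.aff 1863000 3335412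
 223292) (.aff 1000000 0 0)) (.aff 1000000 0 0))))) (.sy 193750 (.sx 50000 (.sx 25000 (.aff 2150000 3666800
 360669) (.aff 1000000 0 0)) (.aff 1000000 0 0)) (.sx 50000 (.sx 25000 (.aff 2100000 3564408 339468) (.aff
 1000000 0 0)) (.aff 1000000 0 0))))) (.aff 1000000 0 0)) (.aff 1000000 0 0)), .pol, (.pol), (.sx 200000 (.sx
 100000 (.pol) (.pol)) (.pol)), .pol⟩, .one ⟨2008000, 251, 522080, 163451, 18533, 0, 0, 400000, 200000,
 250000⟩ ⟨0, .pol, .pol, .pol, .pol, (.sx 200000 (.sy 225000 (.sy 212500 (.sx 100000 (.sy 206250 (.sy 203125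
 (.sx 50000 (.sx 25000 (.aff 2100000 3606592 335497) (.aff 1000000 0 0)) (.aff 1000000 0 0)) (.sx 50000 (.sx
 25000 (.aff 2100000 3634442 332926) (.aff 1000000 0 0)) (.aff 1000000 0 0))) (.sy 209375 (.sx 50000 (.sx
 25000 (.aff 2100000 3662081 330414) (.aff 1000000 0 0)) (.aff 1000000 0 0)) (.sy 210937 (.sx 50000 (.sx 25000
 (.aff 2700000 4928898 586338) (.aff 1000000 0 0)) (.aff 1000000 0 0)) (.sx 50000 (.sx 25000 (.aff 2900000
 5529209 652897) (.aff 1000000 0 0)) (.aff 1000000 0 0))))) (.aff 1000000 0 0)) (.sx 100000 (.sy 218750 (.sy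
 215625 (.sx 50000 (.sx 25000 (.aff 3000000 5852350 683487) (.aff 2100000 2878976 420289)) (.aff 1000000 0 0))
 (.sx 50000 (.sx 25000 (.aff 3000000 5894914 678552) (.aff 2300000 3427171 493119)) (.aff 1000000 0 0))) (.sy
 221875 (.sy 220312 (.sx 50000 (.sx 25000 (.aff 3000000 6843485 584498) (.aff 2300000 3445612 490479)) (.aff
 1000000 0 0)) (.sx 50000 (.sx 25000 (.aff 3000000 6867796 582429) (.aff 2300000 3457852 488743)) (.aff
 1000000 0 0))) (.sx 50000 (.sx 25000 (.aff 3000000 6904106 579366) (.aff 2300000 3476133 486173)) (.aff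
 1000000 0 0)))) (.aff 1000000 0 0))) (.sy 237500 (.sy 231250 (.sx 100000 (.sy 228125 (.sy 226562 (.sx 50000
 (.sx 25000 (.aff 3000000 6940218 576351) (.aff 2300000 3494315 483643)) (.aff 1000000 0 0)) (.sx 50000 (.sx
 25000 (.aff 3000000 6964191 574367) (.aff 2300000 3506386 481978)) (.aff 1000000 0 0))) (.sx 50000 (.sx 25000
 (.aff 3000000 7000000 571429) (.aff 2300000 3524415 479513)) (.aff 1000000 0 0))) (.aff 1000000 0 0)) (.sx
 100000 (.sy 234375 (.sy 232812 (.sx 50000 (.sx 25000 (.aff 3000000 7035620 568536) (.aff 2300000 3542350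
 477085)) (.aff 1000000 0 0)) (.sx 50000 (.sx 25000 (.aff 3000000 7059270 566631) (.aff 2300000 3554257
 475487)) (.aff 1000000 0 0))) (.sx 50000 (.sx 25000 (.aff 3000000 7094599 563810) (.aff 2300000 3572045
 473119)) (.aff 1000000 0 0))) (.aff 1000000 0 0))) (.sy 243750 (.sx 100000 (.sy 240625 (.sy 239062 (.sx 50000
 (.sx 25000 (.aff 3000000 7129747 561030) (.aff 2300000 3589741 470787)) (.aff 1000000 0 0)) (.sx 50000 (.sx
 25000 (.aff 3000000 7153085 559200) (.sx 37500 (.aff 2800000 4552195 711745) (.aff 1000000 0 0))) (.aff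
 1000000 0 0))) (.sx 50000 (.sx 25000 (.aff 3000000 7187953 556487) (.sx 37500 (.aff 3000000 5082651 786991)
 (.aff 1000000 0 0))) (.aff 1000000 0 0))) (.aff 1000000 0 0)) (.sx 100000 (.sy 246875 (.sx 50000 (.sx 25000
 (.aff 3000000 7234179 552931) (.sx 37500 (.aff 3000000 5342795 748672) (.aff 2000000 2457329 406946))) (.aff
 1000000 0 0)) (.sx 50000 (.sx 25000 (.aff 3000000 7280110 549443) (.sx 37500 (.aff 3000000 5639149 709327)
 (.aff 2200000 2967517 485255))) (.aff 1000000 0 0))) (.aff 1000000 0 0))))) (.aff 1000000 0 0)), .pol,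
 (.pol), (.sx 200000 (.pol) (.pol)), .pol⟩, .one ⟨2008000, 251, 522080, 157828, 19939, 0, 0, 400000, 250000,
 300000⟩ ⟨0, .pol, .pol, .pol, .pol, (.sy 275000 (.sx 200000 (.sy 262500 (.sy 256250 (.sx 100000 (.sy 253125
 (.sx 50000 (.sx 25000 (.aff 3000000 8972180 445823) (.sx 37500 (.aff 3000000 5674505 704908) (.aff 2300000
 3234966 522417))) (.aff 1000000 0 0)) (.sy 254687 (.sx 50000 (.sx 25000 (.aff 3000000 9013874 443761) (.sx
 37500 (.aff 3000000 5700875 701647) (.aff 2801000 4109547 789285))) (.aff 1000000 0 0)) (.sx 50000 (.sx 25000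
 (.aff 3000000 9041567 442402) (.sx 37500 (.aff 3000000 5718389 699498) (.aff 2800000 4068705 796323))) (.aff
 1000000 0 0)))) (.aff 1000000 0 0)) (.sx 100000 (.sy 259375 (.sy 257812 (.sx 50000 (.sx 25000 (.aff 3000000
 9069175 441055) (.aff 2832000 4153682 808012)) (.aff 1000000 0 0)) (.sx 50000 (.sx 25000 (.aff 3000000
 9096699 439720) (.aff 2850000 4207223 813482)) (.aff 1000000 0 0))) (.sx 50000 (.aff 2875000 4283360 820764)
 (.aff 1000000 0 0))) (.aff 1000000 0 0))) (.sy 268750 (.sx 100000 (.sx 50000 (.aff 2900000 4379284 824336)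
 (.aff 1000000 0 0)) (.aff 1000000 0 0)) (.sx 100000 (.sx 50000 (.aff 3000000 4663690 857690) (.aff 2300000
 2996522 563988)) (.aff 1000000 0 0)))) (.aff 1000000 0 0)) (.sy 287500 (.sx 200000 (.sy 281250 (.sy 278125
 (.sx 100000 (.sx 50000 (.aff 3000000 4703722 850391) (.aff 2400000 3254724 602202)) (.aff 1000000 0 0)) (.sx
 100000 (.sx 50000 (.aff 3000000 4730222 845627) (.aff 2500000 3506851 641602)) (.aff 1000000 0 0))) (.sy
 284375 (.sx 100000 (.sx 50000 (.aff 3000000 4756575 840942) (.aff 2525000 3585161 648681)) (.aff 1000000 0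
 0)) (.sx 100000 (.sx 50000 (.aff 3000000 4782782 836334) (.sx 75000 (.aff 2900000 4063958 888297) (.aff
 1000000 0 0))) (.aff 1000000 0 0)))) (.aff 1000000 0 0)) (.sy 293750 (.sx 200000 (.sy 290625 (.sx 100000 (.sx
 50000 (.aff 3000000 4808847 831801) (.sx 75000 (.sx 62500 (.aff 3000000 4412900 906434) (.aff 1000000 0 0))
 (.aff 1000000 0 0))) (.aff 1000000 0 0)) (.sx 100000 (.sx 50000 (.aff 3000000 5582712 716498) (.sx 75000 (.sx
 62500 (.aff 3000000 4558265 877527) (.aff 1000000 0 0)) (.aff 1000000 0 0))) (.aff 1000000 0 0))) (.aff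
 1000000 0 0)) (.sx 200000 (.sy 296875 (.sx 100000 (.sx 50000 (.aff 3000000 5612487 712697) (.sx 75000 (.aff
 3000000 4145096 964996) (.aff 1000000 0 0))) (.aff 1000000 0 0)) (.sx 100000 (.sx 50000 (.aff 3000000 5642104
 708956) (.sx 75000 (.aff 3000000 4166970 959931) (.aff 1000000 0 0))) (.aff 1000000 0 0))) (.aff 1000000 0
 0))))), .pol, (.pol), (.sx 200000 (.pol) (.pol)), .pol⟩, .one ⟨2008000, 251, 522080, 157427, 20059, 0, 0,
 400000, 300000, 350000⟩ ⟨0, .pol, .pol, .pol, .pol, (.sy 325000 (.sy 312500 (.sy 306250 (.sx 200000 (.sy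
 303125 (.sx 100000 (.sx 50000 (.aff 3000000 5671567 705273) (.sx 75000 (.aff 3000000 4188730 954944) (.aff
 1000000 0 0))) (.aff 1000000 0 0)) (.sx 100000 (.sx 50000 (.aff 3000000 5700878 701647) (.sx 75000 (.aff
 3000000 4210377 950034) (.aff 1000000 0 0))) (.aff 1000000 0 0))) (.aff 1000000 0 0)) (.sx 200000 (.sx 100000
 (.sx 50000 (.aff 3000000 5744563 696311) (.sx 75000 (.aff 3000000 4242641 942809) (.aff 1000000 0 0))) (.aff
 1000000 0 0)) (.aff 1000000 0 0))) (.sy 318750 (.sx 200000 (.sy 315625 (.sx 100000 (.sx 50000 (.aff 3000000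
 5787919 691095) (.sx 75000 (.aff 3000000 4274662 935747) (.aff 1000000 0 0))) (.aff 1000000 0 0)) (.sx 100000
 (.sx 50000 (.aff 3000000 5816643 687682) (.sx 75000 (.aff 3000000 4295876 931126) (.aff 1000000 0 0))) (.aff
 1000000 0 0))) (.aff 1000000 0 0)) (.sx 200000 (.sx 100000 (.sx 50000 (.aff 3000000 5859466 682657) (.sx
 75000 (.aff 3000000 4327502 924321) (.aff 3000000 3980723 1004843))) (.aff 1000000 0 0)) (.aff 1000000 0
 0)))) (.sy 337500 (.sx 200000 (.sx 100000 (.sx 50000 (.aff 3000000 5944185 672927) (.sx 75000 (.aff 3000000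
 4390072 911147) (.aff 3000000 4038279 990521))) (.aff 1000000 0 0)) (.aff 1000000 0 0)) (.sx 200000 (.sx
 100000 (.sx 50000 (.aff 3000000 6055301 660579) (.sx 75000 (.aff 3000000 4472136 894428) (.aff 3100000
 4162332 1059503))) (.aff 1000000 0 0)) (.aff 1000000 0 0)))), .pol, (.pol), (.sx 200000 (.pol) (.sx 300000
 (.pol) (.pol))), .pol⟩, .one ⟨2008000, 251, 522080, 161443, 18654, 0, 0, 400000, 350000, 400000⟩ ⟨0, .pol,
 .pol, .pol, .pol, (.sy 375000 (.sy 362500 (.sx 200000 (.sx 100000 (.sx 50000 (.aff 3000000 6164415 648886)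
 (.aff 3100000 4237335 1040749)) (.sx 150000 (.aff 3200000 3914929 1236294) (.aff 1000000 0 0))) (.aff 1000000
 0 0)) (.sx 200000 (.sx 100000 (.aff 5000000 7681146 2083023) (.sx 150000 (.aff 3200000 3983020 1215159) (.aff
 1000000 0 0))) (.aff 1000000 0 0))) (.sy 387500 (.sy 381250 (.sx 200000 (.sx 100000 (.aff 5000000 7778175
 2057038) (.sx 150000 (.aff 3200000 4033334 1200000) (.aff 1000000 0 0))) (.aff 1000000 0 0)) (.sx 200000 (.sx
 100000 (.aff 5000000 9055386 1766905) (.sx 150000 (.aff 3150000 3974109 1163154) (.aff 1000000 0 0))) (.aff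
 1000000 0 0))) (.sy 393750 (.sx 200000 (.sx 100000 (.aff 5000000 9128710 1752713) (.sy 390625 (.sx 150000
 (.aff 3150000 3998268 1156126) (.aff 1000000 0 0)) (.sx 150000 (.sy 392187 (.sx 125000 (.aff 3075000 3982607
 1081108) (.aff 1000000 0 0)) (.sx 125000 (.sx 112500 (.aff 5000000 7692622 2079916) (.aff 3000000 3687084
 1084869)) (.aff 1000000 0 0))) (.aff 1000000 0 0)))) (.aff 1000000 0 0)) (.sx 200000 (.sx 100000 (.aff
 5000000 9201450 1738857) (.sy 396875 (.sx 150000 (.sy 395312 (.sx 125000 (.sx 112500 (.aff 5000000 7707901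
 2075793) (.aff 3100000 3879127 1136854)) (.aff 1000000 0 0)) (.sx 125000 (.aff 4600000 6408352 2022361) (.aff
 1000000 0 0))) (.aff 1000000 0 0)) (.sx 150000 (.sx 125000 (.aff 5000000 7326951 2183719) (.aff 1500000
 851136 293726)) (.aff 1000000 0 0)))) (.aff 1000000 0 0))))), .pol, (.pol), (.sx 200000 (.pol) (.sx 300000
 (.pol) (.pol))), .pol⟩, .one ⟨2008000, 251, 522080, 167868, 16084, 0, 0, 400000, 400000, 450000⟩ ⟨0, .pol,
 .pol, .pol, .pol, (.sy 425000 (.sy 412500 (.sy 406250 (.sx 200000 (.sx 100000 (.aff 5000000 9273619 1725325)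
 (.sy 403125 (.sx 150000 (.sx 125000 (.aff 5000000 7557190 2117190) (.aff 3000000 3417868 1170321)) (.aff
 1000000 0 0)) (.sx 150000 (.sx 125000 (.aff 5000000 7586538 2108999) (.aff 3000000 3511885 1138990)) (.aff
 1000000 0 0)))) (.aff 1000000 0 0)) (.sx 200000 (.sx 100000 (.aff 5000000 9345231 1712104) (.sy 409375 (.sx
 150000 (.sx 125000 (.aff 5000000 7615774 2100903) (.aff 3100000 3701689 1191349)) (.aff 1000000 0 0)) (.sx
 150000 (.sx 125000 (.aff 5000000 7644897 2092900) (.aff 3100000 3715845 1186810)) (.aff 1000000 0 0)))) (.aff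
 1000000 0 0))) (.sy 418750 (.sx 200000 (.sx 100000 (.aff 5000000 9416298 1699182) (.sy 415625 (.sy 414062
 (.sx 150000 (.sx 125000 (.aff 5000000 7666665 2086957) (.aff 3100000 3726425 1183440)) (.aff 1000000 0 0))
 (.sx 150000 (.sx 125000 (.aff 5000000 7681144 2083024) (.aff 3200000 3911247 1237458)) (.aff 1000000 0 0)))
 (.sy 417187 (.sx 150000 (.sx 125000 (.aff 5000000 7695596 2079112) (.aff 3200000 3918606 1235134)) (.aff
 1000000 0 0)) (.sx 150000 (.sx 125000 (.aff 5000000 7710021 2075222) (.aff 3200000 3925951 1232823)) (.aff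
 1000000 0 0))))) (.aff 1000000 0 0)) (.sx 200000 (.sy 421875 (.sx 100000 (.aff 5000000 9469249 1689680) (.sy
 420312 (.sx 150000 (.sx 125000 (.aff 5000000 7724418 2071354) (.aff 3200000 3933282 1230525)) (.aff 1000000 0
 0)) (.sx 150000 (.sx 125000 (.aff 5000000 7738789 2067507) (.aff 3200000 3940600 1228240)) (.aff 1000000 0
 0)))) (.sx 100000 (.aff 5000000 9504385 1683434) (.sy 423437 (.sx 150000 (.sx 125000 (.aff 5000000 7753134
 2063682) (.aff 3200000 3947904 1225967)) (.aff 1000000 0 0)) (.sx 150000 (.aff 3900000 4876938 1724443) (.aff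
 1000000 0 0))))) (.aff 1000000 0 0)))) (.sy 437500 (.sy 431250 (.sx 200000 (.sy 428125 (.sx 100000 (.aff
 5000000 9539393 1677256) (.sx 150000 (.aff 4000000 5059027 1778999) (.aff 1000000 0 0))) (.sx 100000 (.aff
 5000000 9574272 1671146) (.sx 150000 (.aff 4300000 5585277 1949770) (.aff 1500000 783479 319090)))) (.aff
 1000000 0 0)) (.sx 200000 (.sy 434375 (.sx 100000 (.aff 5000000 9609024 1665102) (.sx 150000 (.aff 5000000
 6794606 2354810) (.aff 1500000 786323 317936))) (.sy 435937 (.sx 100000 (.aff 5000000 9635003 1660612) (.sx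
 150000 (.aff 5000000 7115922 2248479) (.aff 1500000 788449 317079))) (.sx 100000 (.aff 5000000 9652286
 1657639) (.sx 150000 (.aff 5000000 7128686 2244453) (.aff 3000000 3278719 1219989))))) (.aff 1000000 0 0)))
 (.sy 443750 (.sx 200000 (.sy 440625 (.sx 100000 (.aff 5000000 9678155 1653208) (.sx 150000 (.aff 5000000
 7147791 2238454) (.aff 3100000 3451881 1277565))) (.sx 100000 (.aff 5000000 9712535 1647356) (.sx 150000
 (.aff 5000000 7173183 2230531) (.aff 3300000 3794062 1394285)))) (.aff 1000000 0 0)) (.sx 200000 (.sx 100000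
 (.aff 5000000 9763880 1638693) (.sx 150000 (.aff 5000000 7211103 2218801) (.aff 3400000 3979950 1447255)))
 (.aff 1000000 0 0))))), .pol, (.pol), (.pol), .pol⟩, .one ⟨2008000, 251, 522080, 178310, 11385, 0, 0, 400000,
 450000, 500000⟩ ⟨0, .pol, .pol, .pol, .pol, (.sx 200000 (.sy 475000 (.sx 100000 (.aff 5000000 9933110
 1610775) (.sx 150000 (.aff 5000000 7694154 2079501) (.aff 3375000 4006756 1407779))) (.sx 100000 (.aff
 5000000 12489996 1281026) (.sx 150000 (.aff 5000000 7899368 2025479) (.sx 175000 (.aff 5000000 6928204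
 2309401) (.aff 3500000 4100043 1524375))))) (.aff 1500000 841794 296985)), .pol, (.pol), (.pol), .pol⟩, .one
 ⟨2008000, 251, 522080, 190760, 5160, 0, 0, 400000, 500000, 550000⟩ ⟨0, .pol, .pol, .pol, .pol, (.sy 525000
 (.sx 200000 (.aff 5000000 6403125 2498780) (.sy 512500 (.sx 300000 (.sx 250000 (.aff 3400000 3704370 1554921)
 (.aff 1000000 0 0)) (.aff 1000000 0 0)) (.sy 518750 (.sx 300000 (.sx 250000 (.aff 3400000 3738512 1540720)
 (.aff 1000000 0 0)) (.aff 1000000 0 0)) (.sx 300000 (.sx 250000 (.aff 3500000 3917814 1595278) (.aff 1000000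
 0 0)) (.aff 1000000 0 0))))) (.sx 200000 (.aff 5000000 6557439 2439977) (.sy 537500 (.sy 531250 (.sx 300000
 (.sx 250000 (.aff 3500000 3941204 1585810) (.aff 1000000 0 0)) (.aff 1000000 0 0)) (.sx 300000 (.sx 250000
 (.aff 3475000 3924812 1560744) (.aff 1000000 0 0)) (.aff 1000000 0 0))) (.sy 543750 (.sx 300000 (.sy 540625
 (.sx 250000 (.sx 225000 (.aff 5000000 6370890 2511424) (.aff 3100000 3206255 1375437)) (.aff 1000000 0 0))
 (.sx 250000 (.aff 4150000 4638904 2138976) (.aff 1000000 0 0))) (.aff 1000000 0 0)) (.sy 546875 (.sx 300000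
 (.sx 250000 (.aff 4200000 4726098 2166693) (.aff 1500000 704088 355070)) (.aff 1000000 0 0)) (.sx 300000 (.sx
 250000 (.aff 4200000 4739621 2160511) (.aff 1500000 706102 354057)) (.aff 1000000 0 0))))))), .pol, (.pol),
 (.pol), .pol⟩, .one ⟨2008000, 251, 522080, 206422, -3454, 0, 0, 400000, 550000, 600000⟩ ⟨0, .pol, .pol, .pol,
 .pol, (.sx 200000 (.aff 5000000 6782330 2359072) (.sy 575000 (.sy 562500 (.sy 556250 (.sx 300000 (.sx 250000
 (.aff 4400000 5057322 2285795) (.aff 1500000 725801 344448)) (.aff 1000000 0 0)) (.sy 559375 (.sx 300000 (.sx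
 250000 (.aff 5000000 5974948 2677848) (.aff 2000000 1424223 702138)) (.aff 1000000 0 0)) (.sx 300000 (.sx
 250000 (.aff 5000000 6147315 2602763) (.aff 2000000 1428207 700179)) (.aff 1000000 0 0)))) (.sy 568750 (.sy
 565625 (.sx 300000 (.sx 250000 (.aff 5000000 6164415 2595543) (.aff 3000000 2931764 1364367)) (.aff 1000000 0
 0)) (.sx 300000 (.sx 250000 (.aff 5000000 6350853 2519347) (.aff 3100000 3086868 1428633)) (.aff 1000000 0
 0))) (.sy 571875 (.sx 300000 (.sx 250000 (.aff 5000000 6368325 2512435) (.aff 3300000 3390156 1560401)) (.aff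
 1000000 0 0)) (.sx 300000 (.sx 250000 (.aff 5000000 6385749 2505580) (.aff 3400000 3547233 1623801)) (.aff
 1000000 0 0))))) (.sy 587500 (.sy 581250 (.sy 578125 (.sx 300000 (.sx 250000 (.aff 5000000 6403125 2498780)
 (.aff 3400000 3556885 1619395)) (.aff 1000000 0 0)) (.sx 300000 (.sx 250000 (.aff 5000000 6420454 2492036)
 (.aff 3500000 3715116 1682317)) (.aff 1000000 0 0))) (.sy 584375 (.sx 300000 (.sx 250000 (.aff 5000000
 6437736 2485346) (.aff 3500000 3725116 1677801)) (.aff 1000000 0 0)) (.sx 300000 (.sx 250000 (.aff 5000000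
 6454973 2478710) (.aff 3500000 3735090 1673320)) (.aff 1000000 0 0)))) (.sy 593750 (.sy 590625 (.sx 300000
 (.sx 250000 (.aff 5000000 6472163 2472126) (.aff 3500000 3745037 1668876)) (.aff 1000000 0 0)) (.sx 300000
 (.sx 250000 (.aff 5000000 6489308 2465595) (.aff 3600000 3905156 1731045)) (.aff 1500000 650378 384392)))
 (.sy 596875 (.sy 595312 (.sx 300000 (.sx 250000 (.aff 5000000 6502136 2460730) (.aff 4225000 4540006
 2290884)) (.aff 1500000 651664 383634)) (.sx 300000 (.sx 250000 (.aff 5000000 6510674 2457503) (.aff 4200000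
 4510728 2270144)) (.aff 1500000 652520 383131))) (.sx 300000 (.sx 250000 (.aff 5000000 6523462 2452686) (.aff
 4200000 4519588 2265694)) (.aff 1500000 653801 382380))))))), .pol, (.pol), (.pol), .pol⟩, .one ⟨2008000,
 251, 522080, 224092, -14056, 0, 0, 400000, 600000, 650000⟩ ⟨0, .pol, .pol, .pol, .pol, (.sx 200000 (.aff
 5000000 8164966 1959592) (.sy 625000 (.sy 612500 (.sy 606250 (.sy 603125 (.sx 300000 (.sx 250000 (.aff
 5000000 6540473 2446307) (.aff 4300000 4672978 2330420)) (.aff 1500000 680251 367512)) (.sx 300000 (.aff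
 4400000 4827073 2394827) (.aff 2000000 1314412 760797))) (.sx 300000 (.aff 4700000 5273312 2596092) (.aff
 2000000 1319497 757865))) (.sx 300000 (.aff 5000000 5744563 2785243) (.aff 3500000 3449499 1811858))) (.sx
 300000 (.aff 5000000 6090231 2627159) (.sx 350000 (.aff 3600000 3713543 1820365) (.aff 2000000 1303841
 766965))))), .pol, (.pol), (.pol), .pol⟩, .one ⟨2008000, 251, 522080, 244574, -27370, 0, 0, 400000, 650000,
 700000⟩ ⟨0, .pol, .pol, .pol, .pol, (.sx 200000 (.aff 5000000 8485282 1885618) (.sx 300000 (.aff 5000000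
 6266796 2553139) (.sx 350000 (.aff 4200000 4443937 2304264) (.aff 3600000 3547899 1905353)))), .pol, (.pol),
 (.pol), .pol⟩, .one ⟨2008000, 251, 522080, 259835, -38052, 0, 0, 400000, 700000, 750000⟩ ⟨0, .pol, .pol,
 .pol, .pol, (.sx 200000 (.aff 5000000 8793938 1819436) (.sx 300000 (.aff 5000000 6811755 2348881) (.aff
 4200000 4308132 2376901))), .pol, (.pol), (.pol), .pol⟩, .one ⟨2008000, 251, 522080, -123616496, 92869196, 0,
 0, 400000, 750000, 800000⟩ ⟨0, .pol, .pol, .pol, .pol, (.inf 1574802 635001), .pol, (.pol), (.inf 1574802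
 635001), .pol⟩, .one ⟨2008000, 251, 522080, 0, -6024000, 0, 0, 400000, 800000, 850000⟩ ⟨0, .pol, .pol, .pol,
 .pol, (.inf 1624808 615458), .pol, (.pol), (.inf 1624808 615458), .pol⟩, .one ⟨2008000, 251, 522080, 0,
 -6024000, 0, 0, 400000, 850000, 900000⟩ ⟨0, .pol, .pol, .pol, .pol, (.inf 1673321 597614), .pol, (.pol),
 (.inf 1673321 597614), .pol⟩, .one ⟨2008000, 251, 522080, 0, -6024000, 0, 0, 400000, 900000, 950000⟩ ⟨0,
 .pol, .pol, .pol, .pol, (.inf 1720466 581238), .pol, (.pol), (.inf 1720466 581238), .pol⟩, .one ⟨2008000,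
 251, 522080, 0, -6024000, 0, 0, 400000, 950000, 1000000⟩ ⟨0, .pol, .pol, .pol, .pol, (.inf 2207941 452911),
 .pol, (.pol), (.inf 2207941 452911), .pol⟩], []⟩] = true := by decide +kernel

theorem II_xC180_80 : PropII xC180_80 := propIIp_of cC180_80

theorem lC180_110_0 : chkPlp ⟨(nat_lit 3), (nat_lit 1000), Int.ofNat (nat_lit 290), 0, ⟨0, 1⟩, ⟨Int.ofNat
 (nat_lit 110), 200⟩⟩ ⟨900000, 950000, 961681, 948772, 974768, 269917, 320201, 227580, 316227, 223606⟩ true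
 0 0 [(nat_lit 50), (nat_lit 100), (nat_lit 150), (nat_lit 200), (nat_lit 250), (nat_lit 300), (nat_lit
 350), (nat_lit 400), (nat_lit 450), (nat_lit 500), (nat_lit 550), (nat_lit 600), (nat_lit 650), (nat_lit
 700), (nat_lit 750), (nat_lit 800), (nat_lit 850), (nat_lit 900), (nat_lit 950), (nat_lit 1000)]
 [(Int.ofNat (nat_lit 924)), (Int.ofNat (nat_lit 1605)), (Int.ofNat (nat_lit 2091)), (Int.ofNat (nat_lit
 2495)), (Int.ofNat (nat_lit 2838)), (Int.ofNat (nat_lit 3158)), (Int.ofNat (nat_lit 3462)), (Int.ofNat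
 (nat_lit 3766)), (Int.ofNat (nat_lit 4079)), (Int.ofNat (nat_lit 4407)), (Int.ofNat (nat_lit 4758)),
 (Int.ofNat (nat_lit 5138)), (Int.ofNat (nat_lit 5552)), (Int.ofNat (nat_lit 6008)), (Int.ofNat (nat_lit
 6512)), (Int.ofNat (nat_lit 7070)), (Int.ofNat (nat_lit 7684)), (Int.negSucc (nat_lit 299999)),
 (Int.negSucc (nat_lit 299999)), (Int.negSucc (nat_lit 299999))] [qC180_110_0_0, qC180_110_0_1,
 qC180_110_0_2, qC180_110_0_3, qC180_110_0_4, qC180_110_0_5, qC180_110_0_6, qC180_110_0_7, qC180_110_0_8,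
 qC180_110_0_9, qC180_110_0_10, qC180_110_0_11, qC180_110_0_12, qC180_110_0_13, qC180_110_0_14,
 qC180_110_0_15, qC180_110_0_16, qC180_110_0_17, qC180_110_0_18, qC180_110_0_19] = true :=
  chkPlp_cons rfl hC180_110_0_0 (chkPlp_cons rfl hC180_110_0_1 (chkPlp_cons rfl hC180_110_0_2 (chkPlp_cons
 rfl hC180_110_0_3 (chkPlp_cons rfl hC180_110_0_4 (chkPlp_cons rfl hC180_110_0_5 (chkPlp_cons rfl
 hC180_110_0_6 (chkPlp_cons rfl hC180_110_0_7 (chkPlp_cons rfl hC180_110_0_8 (chkPlp_cons rfl hC180_110_0_9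
 (chkPlp_cons rfl hC180_110_0_10 (chkPlp_cons rfl hC180_110_0_11 (chkPlp_cons rfl hC180_110_0_12
 (chkPlp_cons rfl hC180_110_0_13 (chkPlp_cons rfl hC180_110_0_14 (chkPlp_cons rfl hC180_110_0_15
 (chkPlp_cons rfl hC180_110_0_16 (chkPlp_cons rfl hC180_110_0_17 (chkPlp_cons rfl hC180_110_0_18
 (chkPlp_cons rfl hC180_110_0_19 chkPlp_nil)))))))))))))))))))

theorem lC180_110_1 : chkPlp ⟨(nat_lit 3), (nat_lit 1000), Int.ofNat (nat_lit 400), 0, ⟨0, 1⟩, ⟨Int.ofNat
 (nat_lit 110), 200⟩⟩ ⟨900000, 950000, 961681, 948772, 974768, 269917, 320201, 227580, 316227, 223606⟩ true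
 0 0 [(nat_lit 50), (nat_lit 100), (nat_lit 150), (nat_lit 200), (nat_lit 250), (nat_lit 300), (nat_lit
 350), (nat_lit 400), (nat_lit 450), (nat_lit 500), (nat_lit 550), (nat_lit 600), (nat_lit 650), (nat_lit
 700), (nat_lit 750), (nat_lit 800), (nat_lit 850), (nat_lit 900), (nat_lit 950), (nat_lit 1000)]
 [(Int.ofNat (nat_lit 844)), (Int.ofNat (nat_lit 1643)), (Int.ofNat (nat_lit 2036)), (Int.ofNat (nat_lit
 2286)), (Int.ofNat (nat_lit 2403)), (Int.ofNat (nat_lit 2448)), (Int.ofNat (nat_lit 2434)), (Int.ofNat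
 (nat_lit 2384)), (Int.ofNat (nat_lit 2304)), (Int.ofNat (nat_lit 2209)), (Int.ofNat (nat_lit 2102)),
 (Int.ofNat (nat_lit 1991)), (Int.ofNat (nat_lit 1880)), (Int.ofNat (nat_lit 1773)), (Int.ofNat (nat_lit
 1670)), (Int.ofNat (nat_lit 1570)), (Int.ofNat (nat_lit 1471)), (Int.negSucc (nat_lit 299999)),
 (Int.negSucc (nat_lit 299999)), (Int.negSucc (nat_lit 299999))] [qC180_110_1_0, qC180_110_1_1,
 qC180_110_1_2, qC180_110_1_3, qC180_110_1_4, qC180_110_1_5, qC180_110_1_6, qC180_110_1_7, qC180_110_1_8,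
 qC180_110_1_9, qC180_110_1_10, qC180_110_1_11, qC180_110_1_12, qC180_110_1_13, qC180_110_1_14,
 qC180_110_1_15, qC180_110_1_16, qC180_110_1_17, qC180_110_1_18, qC180_110_1_19] = true :=
  chkPlp_cons rfl hC180_110_1_0 (chkPlp_cons rfl hC180_110_1_1 (chkPlp_cons rfl hC180_110_1_2 (chkPlp_cons
 rfl hC180_110_1_3 (chkPlp_cons rfl hC180_110_1_4 (chkPlp_cons rfl hC180_110_1_5 (chkPlp_cons rfl
 hC180_110_1_6 (chkPlp_cons rfl hC180_110_1_7 (chkPlp_cons rfl hC180_110_1_8 (chkPlp_cons rfl hC180_110_1_9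
 (chkPlp_cons rfl hC180_110_1_10 (chkPlp_cons rfl hC180_110_1_11 (chkPlp_cons rfl hC180_110_1_12
 (chkPlp_cons rfl hC180_110_1_13 (chkPlp_cons rfl hC180_110_1_14 (chkPlp_cons rfl hC180_110_1_15
 (chkPlp_cons rfl hC180_110_1_16 (chkPlp_cons rfl hC180_110_1_17 (chkPlp_cons rfl hC180_110_1_18
 (chkPlp_cons rfl hC180_110_1_19 chkPlp_nil)))))))))))))))))))

theorem lC180_110_2 : chkPlp ⟨(nat_lit 3), (nat_lit 1000), Int.ofNat (nat_lit 600), 0, ⟨0, 1⟩, ⟨Int.ofNat
 (nat_lit 110), 200⟩⟩ ⟨900000, 950000, 961681, 948772, 974768, 269917, 320201, 227580, 316227, 223606⟩ true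
 0 0 [(nat_lit 50), (nat_lit 100), (nat_lit 150), (nat_lit 200), (nat_lit 250), (nat_lit 300), (nat_lit
 350), (nat_lit 400), (nat_lit 450), (nat_lit 500), (nat_lit 550), (nat_lit 600), (nat_lit 650), (nat_lit
 700), (nat_lit 750), (nat_lit 800), (nat_lit 850), (nat_lit 900), (nat_lit 950), (nat_lit 1000)]
 [(Int.ofNat (nat_lit 809)), (Int.ofNat (nat_lit 1633)), (Int.ofNat (nat_lit 1965)), (Int.ofNat (nat_lit
 1889)), (Int.ofNat (nat_lit 1618)), (Int.ofNat (nat_lit 1153)), (Int.ofNat (nat_lit 570)), (Int.negSucc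
 (nat_lit 131)), (Int.negSucc (nat_lit 915)), (Int.negSucc (nat_lit 1785)), (Int.negSucc (nat_lit 2718)),
 (Int.negSucc (nat_lit 3723)), (Int.negSucc (nat_lit 4785)), (Int.negSucc (nat_lit 5920)), (Int.negSucc
 (nat_lit 7120)), (Int.negSucc (nat_lit 8417)), (Int.negSucc (nat_lit 9821)), (Int.negSucc (nat_lit
 299999)), (Int.negSucc (nat_lit 299999)), (Int.negSucc (nat_lit 299999))] [qC180_110_2_0, qC180_110_2_1,
 qC180_110_2_2, qC180_110_2_3, qC180_110_2_4, qC180_110_2_5, qC180_110_2_6, qC180_110_2_7, qC180_110_2_8,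
 qC180_110_2_9, qC180_110_2_10, qC180_110_2_11, qC180_110_2_12, qC180_110_2_13, qC180_110_2_14,
 qC180_110_2_15, qC180_110_2_16, qC180_110_2_17, qC180_110_2_18, qC180_110_2_19] = true :=
  chkPlp_cons rfl hC180_110_2_0 (chkPlp_cons rfl hC180_110_2_1 (chkPlp_cons rfl hC180_110_2_2 (chkPlp_cons
 rfl hC180_110_2_3 (chkPlp_cons rfl hC180_110_2_4 (chkPlp_cons rfl hC180_110_2_5 (chkPlp_cons rfl
 hC180_110_2_6 (chkPlp_cons rfl hC180_110_2_7 (chkPlp_cons rfl hC180_110_2_8 (chkPlp_cons rfl hC180_110_2_9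
 (chkPlp_cons rfl hC180_110_2_10 (chkPlp_cons rfl hC180_110_2_11 (chkPlp_cons rfl hC180_110_2_12
 (chkPlp_cons rfl hC180_110_2_13 (chkPlp_cons rfl hC180_110_2_14 (chkPlp_cons rfl hC180_110_2_15
 (chkPlp_cons rfl hC180_110_2_16 (chkPlp_cons rfl hC180_110_2_17 (chkPlp_cons rfl hC180_110_2_18
 (chkPlp_cons rfl hC180_110_2_19 chkPlp_nil)))))))))))))))))))

theorem lC180_110_3 : chkPlp ⟨(nat_lit 3), (nat_lit 1000), Int.ofNat (nat_lit 1000), 0, ⟨0, 1⟩, ⟨Int.ofNat
 (nat_lit 110), 200⟩⟩ ⟨900000, 950000, 961681, 948772, 974768, 269917, 320201, 227580, 316227, 223606⟩ true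
 0 0 [(nat_lit 50), (nat_lit 100), (nat_lit 150), (nat_lit 200), (nat_lit 250), (nat_lit 300), (nat_lit
 350), (nat_lit 400), (nat_lit 450), (nat_lit 500), (nat_lit 550), (nat_lit 600), (nat_lit 650), (nat_lit
 700), (nat_lit 750), (nat_lit 800), (nat_lit 850), (nat_lit 900), (nat_lit 950), (nat_lit 1000)]
 [(Int.ofNat (nat_lit 799)), (Int.ofNat (nat_lit 1686)), (Int.ofNat (nat_lit 1799)), (Int.ofNat (nat_lit
 1128)), (Int.ofNat (nat_lit 48)), (Int.negSucc (nat_lit 1413)), (Int.negSucc (nat_lit 3139)), (Int.negSucc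
 (nat_lit 5135)), (Int.negSucc (nat_lit 7326)), (Int.negSucc (nat_lit 9738)), (Int.negSucc (nat_lit 12320)),
 (Int.negSucc (nat_lit 15109)), (Int.negSucc (nat_lit 18068)), (Int.negSucc (nat_lit 21252)), (Int.negSucc
 (nat_lit 24641)), (Int.negSucc (nat_lit 28327)), (Int.negSucc (nat_lit 32335)), (Int.negSucc (nat_lit
 299999)), (Int.negSucc (nat_lit 299999)), (Int.negSucc (nat_lit 299999))] [qC180_110_3_0, qC180_110_3_1,
 qC180_110_3_2, qC180_110_3_3, qC180_110_3_4, qC180_110_3_5, qC180_110_3_6, qC180_110_3_7, qC180_110_3_8,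
 qC180_110_3_9, qC180_110_3_10, qC180_110_3_11, qC180_110_3_12, qC180_110_3_13, qC180_110_3_14,
 qC180_110_3_15, qC180_110_3_16, qC180_110_3_17, qC180_110_3_18, qC180_110_3_19] = true :=
  chkPlp_cons rfl hC180_110_3_0 (chkPlp_cons rfl hC180_110_3_1 (chkPlp_cons rfl hC180_110_3_2 (chkPlp_cons
 rfl hC180_110_3_3 (chkPlp_cons rfl hC180_110_3_4 (chkPlp_cons rfl hC180_110_3_5 (chkPlp_cons rfl
 hC180_110_3_6 (chkPlp_cons rfl hC180_110_3_7 (chkPlp_cons rfl hC180_110_3_8 (chkPlp_cons rfl hC180_110_3_9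
 (chkPlp_cons rfl hC180_110_3_10 (chkPlp_cons rfl hC180_110_3_11 (chkPlp_cons rfl hC180_110_3_12
 (chkPlp_cons rfl hC180_110_3_13 (chkPlp_cons rfl hC180_110_3_14 (chkPlp_cons rfl hC180_110_3_15
 (chkPlp_cons rfl hC180_110_3_16 (chkPlp_cons rfl hC180_110_3_17 (chkPlp_cons rfl hC180_110_3_18
 (chkPlp_cons rfl hC180_110_3_19 chkPlp_nil)))))))))))))))))))

theorem lC180_110_4 : chkPlp ⟨(nat_lit 3), (nat_lit 1000), Int.ofNat (nat_lit 2000), 0, ⟨0, 1⟩, ⟨Int.ofNat
 (nat_lit 110), 200⟩⟩ ⟨900000, 950000, 961681, 948772, 974768, 269917, 320201, 227580, 316227, 223606⟩ true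
 0 0 [(nat_lit 50), (nat_lit 100), (nat_lit 150), (nat_lit 200), (nat_lit 250), (nat_lit 300), (nat_lit
 350), (nat_lit 400), (nat_lit 450), (nat_lit 500), (nat_lit 550), (nat_lit 600), (nat_lit 650), (nat_lit
 700), (nat_lit 750), (nat_lit 800), (nat_lit 850), (nat_lit 900), (nat_lit 950), (nat_lit 1000)]
 [(Int.ofNat (nat_lit 798)), (Int.ofNat (nat_lit 1818)), (Int.ofNat (nat_lit 1383)), (Int.negSucc (nat_lit
 782)), (Int.negSucc (nat_lit 3869)), (Int.negSucc (nat_lit 7834)), (Int.negSucc (nat_lit 12417)),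
 (Int.negSucc (nat_lit 17646)), (Int.negSucc (nat_lit 23357)), (Int.negSucc (nat_lit 29624)), (Int.negSucc
 (nat_lit 36329)), (Int.negSucc (nat_lit 43576)), (Int.negSucc (nat_lit 51280)), (Int.negSucc (nat_lit
 59586)), (Int.negSucc (nat_lit 68451)), (Int.negSucc (nat_lit 78109)), (Int.negSucc (nat_lit 88630)),
 (Int.negSucc (nat_lit 299999)), (Int.negSucc (nat_lit 299999)), (Int.negSucc (nat_lit 299999))]
 [qC180_110_4_0, qC180_110_4_1, qC180_110_4_2, qC180_110_4_3, qC180_110_4_4, qC180_110_4_5, qC180_110_4_6,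
 qC180_110_4_7, qC180_110_4_8, qC180_110_4_9, qC180_110_4_10, qC180_110_4_11, qC180_110_4_12,
 qC180_110_4_13, qC180_110_4_14, qC180_110_4_15, qC180_110_4_16, qC180_110_4_17, qC180_110_4_18,
 qC180_110_4_19] = true :=
  chkPlp_cons rfl hC180_110_4_0 (chkPlp_cons rfl hC180_110_4_1 (chkPlp_cons rfl hC180_110_4_2 (chkPlp_cons
 rfl hC180_110_4_3 (chkPlp_cons rfl hC180_110_4_4 (chkPlp_cons rfl hC180_110_4_5 (chkPlp_cons rfl
 hC180_110_4_6 (chkPlp_cons rfl hC180_110_4_7 (chkPlp_cons rfl hC180_110_4_8 (chkPlp_cons rfl hC180_110_4_9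
 (chkPlp_cons rfl hC180_110_4_10 (chkPlp_cons rfl hC180_110_4_11 (chkPlp_cons rfl hC180_110_4_12
 (chkPlp_cons rfl hC180_110_4_13 (chkPlp_cons rfl hC180_110_4_14 (chkPlp_cons rfl hC180_110_4_15
 (chkPlp_cons rfl hC180_110_4_16 (chkPlp_cons rfl hC180_110_4_17 (chkPlp_cons rfl hC180_110_4_18
 (chkPlp_cons rfl hC180_110_4_19 chkPlp_nil)))))))))))))))))))

theorem lC180_110_5 : chkPlp ⟨(nat_lit 3), (nat_lit 1000), Int.ofNat (nat_lit 4000), 0, ⟨0, 1⟩, ⟨Int.ofNat
 (nat_lit 110), 200⟩⟩ ⟨900000, 950000, 961681, 948772, 974768, 269917, 320201, 227580, 316227, 223606⟩ true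
 0 0 [(nat_lit 50), (nat_lit 100), (nat_lit 150), (nat_lit 200), (nat_lit 250), (nat_lit 300), (nat_lit
 350), (nat_lit 400), (nat_lit 450), (nat_lit 500), (nat_lit 550), (nat_lit 600), (nat_lit 650), (nat_lit
 700), (nat_lit 750), (nat_lit 800), (nat_lit 850), (nat_lit 900), (nat_lit 950), (nat_lit 1000)]
 [(Int.ofNat (nat_lit 804)), (Int.ofNat (nat_lit 2079)), (Int.ofNat (nat_lit 546)), (Int.negSucc (nat_lit
 4612)), (Int.negSucc (nat_lit 11717)), (Int.negSucc (nat_lit 20690)), (Int.negSucc (nat_lit 30989)),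
 (Int.negSucc (nat_lit 42688)), (Int.negSucc (nat_lit 55444)), (Int.negSucc (nat_lit 69424)), (Int.negSucc
 (nat_lit 84381)), (Int.negSucc (nat_lit 100547)), (Int.negSucc (nat_lit 117745)), (Int.negSucc (nat_lit
 136298)), (Int.negSucc (nat_lit 156119)), (Int.negSucc (nat_lit 177723)), (Int.negSucc (nat_lit 201276)),
 (Int.negSucc (nat_lit 299999)), (Int.negSucc (nat_lit 299999)), (Int.negSucc (nat_lit 299999))]
 [qC180_110_5_0, qC180_110_5_1, qC180_110_5_2, qC180_110_5_3, qC180_110_5_4, qC180_110_5_5, qC180_110_5_6,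
 qC180_110_5_7, qC180_110_5_8, qC180_110_5_9, qC180_110_5_10, qC180_110_5_11, qC180_110_5_12,
 qC180_110_5_13, qC180_110_5_14, qC180_110_5_15, qC180_110_5_16, qC180_110_5_17, qC180_110_5_18,
 qC180_110_5_19] = true :=
  chkPlp_cons rfl hC180_110_5_0 (chkPlp_cons rfl hC180_110_5_1 (chkPlp_cons rfl hC180_110_5_2 (chkPlp_cons
 rfl hC180_110_5_3 (chkPlp_cons rfl hC180_110_5_4 (chkPlp_cons rfl hC180_110_5_5 (chkPlp_cons rfl
 hC180_110_5_6 (chkPlp_cons rfl hC180_110_5_7 (chkPlp_cons rfl hC180_110_5_8 (chkPlp_cons rfl hC180_110_5_9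
 (chkPlp_cons rfl hC180_110_5_10 (chkPlp_cons rfl hC180_110_5_11 (chkPlp_cons rfl hC180_110_5_12
 (chkPlp_cons rfl hC180_110_5_13 (chkPlp_cons rfl hC180_110_5_14 (chkPlp_cons rfl hC180_110_5_15
 (chkPlp_cons rfl hC180_110_5_16 (chkPlp_cons rfl hC180_110_5_17 (chkPlp_cons rfl hC180_110_5_18
 (chkPlp_cons rfl hC180_110_5_19 chkPlp_nil)))))))))))))))))))

def cC180_110 : chkIIp xC180_110 ⟨900000, 950000, 961681, 948772, 974768, 269917, 320201, 227580, 316227,
 223606⟩ [⟨[qC180_110_0_0, qC180_110_0_1, qC180_110_0_2, qC180_110_0_3, qC180_110_0_4, qC180_110_0_5,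
 qC180_110_0_6, qC180_110_0_7, qC180_110_0_8, qC180_110_0_9, qC180_110_0_10, qC180_110_0_11, qC180_110_0_12,
 qC180_110_0_13, qC180_110_0_14, qC180_110_0_15, qC180_110_0_16, qC180_110_0_17, qC180_110_0_18,
 qC180_110_0_19], []⟩, ⟨[qC180_110_1_0, qC180_110_1_1, qC180_110_1_2, qC180_110_1_3, qC180_110_1_4,
 qC180_110_1_5, qC180_110_1_6, qC180_110_1_7, qC180_110_1_8, qC180_110_1_9, qC180_110_1_10, qC180_110_1_11,
 qC180_110_1_12, qC180_110_1_13, qC180_110_1_14, qC180_110_1_15, qC180_110_1_16, qC180_110_1_17,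
 qC180_110_1_18, qC180_110_1_19], []⟩, ⟨[qC180_110_2_0, qC180_110_2_1, qC180_110_2_2, qC180_110_2_3,
 qC180_110_2_4, qC180_110_2_5, qC180_110_2_6, qC180_110_2_7, qC180_110_2_8, qC180_110_2_9, qC180_110_2_10,
 qC180_110_2_11, qC180_110_2_12, qC180_110_2_13, qC180_110_2_14, qC180_110_2_15, qC180_110_2_16,
 qC180_110_2_17, qC180_110_2_18, qC180_110_2_19], []⟩, ⟨[qC180_110_3_0, qC180_110_3_1, qC180_110_3_2,
 qC180_110_3_3, qC180_110_3_4, qC180_110_3_5, qC180_110_3_6, qC180_110_3_7, qC180_110_3_8, qC180_110_3_9,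
 qC180_110_3_10, qC180_110_3_11, qC180_110_3_12, qC180_110_3_13, qC180_110_3_14, qC180_110_3_15,
 qC180_110_3_16, qC180_110_3_17, qC180_110_3_18, qC180_110_3_19], []⟩, ⟨[qC180_110_4_0, qC180_110_4_1,
 qC180_110_4_2, qC180_110_4_3, qC180_110_4_4, qC180_110_4_5, qC180_110_4_6, qC180_110_4_7, qC180_110_4_8,
 qC180_110_4_9, qC180_110_4_10, qC180_110_4_11, qC180_110_4_12, qC180_110_4_13, qC180_110_4_14,
 qC180_110_4_15, qC180_110_4_16, qC180_110_4_17, qC180_110_4_18, qC180_110_4_19], []⟩, ⟨[qC180_110_5_0,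
 qC180_110_5_1, qC180_110_5_2, qC180_110_5_3, qC180_110_5_4, qC180_110_5_5, qC180_110_5_6, qC180_110_5_7,
 qC180_110_5_8, qC180_110_5_9, qC180_110_5_10, qC180_110_5_11, qC180_110_5_12, qC180_110_5_13,
 qC180_110_5_14, qC180_110_5_15, qC180_110_5_16, qC180_110_5_17, qC180_110_5_18, qC180_110_5_19], []⟩] =
 true := chkIIp_mk (by decide +kernel) (chkClsp_cons lC180_110_0 (chkClsp_cons lC180_110_1 (chkClsp_cons
 lC180_110_2 (chkClsp_cons lC180_110_3 (chkClsp_cons lC180_110_4 (chkClsp_cons lC180_110_5 chkClsp_nil))))))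

theorem II_xC180_110 : PropII xC180_110 := propIIp_of cC180_110

end CB
end Pool.Agent.Lib.MP_6947cd_al
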