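import Pool.Agent.Lib.MP_6947cd_al.L.PairC
import Pool.Agent.Lib.MP_6947cd_al.L.BoxLibC
import Pool.Agent.Lib.MP_6947cd_al.PS.C190_110_0
import Pool.Agent.Lib.MP_6947cd_al.PS.C190_110_1
import Pool.Agent.Lib.MP_6947cd_al.PS.C190_110_2
import Pool.Agent.Lib.MP_6947cd_al.PS.C190_110_3

/-!
Problem MP_6947cd_al (Chollet).  Library of pair functions: certificates (generated).
-/

set_option autoImplicit false
set_option linter.defProp false
set_option maxRecDepth 100000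

namespace Pool.Agent.Lib.MP_6947cd_al
namespace CB

open CA

def cC190_80 : chkIIp xC190_80 ⟨950000, 1000000, 987340, 974761, 1000082, 111803, 279510, 55902, 223606, 0⟩
 [⟨[.one ⟨2008000, 251, 522080, 383126, 0, 0, 0, 400000, 0, 50000⟩ ⟨250, (.sp 250000 (.aff 2000000 500000)
 (.sp 500000 (.aff 1788855 559017) (.aff 1154701 866026))), (.pol), (.pol), (.pol), (.sx 200125 (.sx 100187
 (.sx 50218 (.sx 25234 (.sx 12742 (.sx 6496 (.sy 25000 (.sy 12500 (.sy 6250 (.sx 3373 (.sx 1811 (.sy 3125 (.sx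
 1030 (.sy 1562 (.sx 640 (.sy 781 (.sy 390 (.pol) (.aff 0 1666709 599985)) (.sy 1171 (.aff 0 1829146 546704)
 (.aff 3000 1836686 541198))) (.aff 0 1535191 651385)) (.aff 3000 1837603 540927)) (.sy 1562 (.pol) (.aff 3000
 1726759 575651))) (.aff 9000 1845623 532114)) (.sy 3125 (.pol) (.sy 4687 (.aff 13000 1605769 606669) (.aff
 13000 1719181 566648)))) (.aff 0 1293966 772818)) (.sx 3373 (.aff 19000 1842416 522337) (.aff 25000 1618824
 587232))) (.aff 75000 1631517 524436)) (.aff 500000 1667161 149956)) (.sy 25000 (.sy 12500 (.aff 25000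
 1048826 906371) (.aff 125000 1221642 626718)) (.aff 1000000 0 0))) (.aff 250000 746515 753502)) (.aff 1000000
 0 0)) (.pol)) (.aff 1000000 0 0)) (.aff 1000000 0 0)), (.sx 125 (.sx 62 (.sy 25125 (.aff 0 2249301 444583)
 (.aff 0 34809389 28728)) (.sx 93 (.sy 25125 (.sy 12687 (.sy 6468 (.sy 3359 (.aff 0 1882725 531146) (.aff 0
 7962412 125591)) (.aff 0 11116684 89955)) (.aff 0 15618848 64026)) (.aff 0 22015391 45423)) (.sx 109 (.sy
 25125 (.sy 12687 (.sy 6468 (.sy 3359 (.aff 0 1862828 536819) (.aff 0 6974849 143373)) (.aff 0 9737902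
 102692)) (.aff 0 13681671 73091)) (.aff 0 19284863 51855)) (.sx 117 (.sy 25125 (.sy 12687 (.sy 6468 (.sy 3359
 (.sy 1804 (.aff 0 1842479 542748) (.aff 0 4779659 209220)) (.aff 0 6594112 151651)) (.aff 0 9206337 108621))
 (.aff 0 12934827 77311)) (.aff 0 18232156 54849)) (.sx 121 (.sy 25125 (.sy 12687 (.sy 6468 (.sx 119 (.sy 3359
 (.sy 1804 (.aff 0 1849910 540567) (.aff 0 4677299 213799)) (.aff 0 6452894 154970)) (.sx 120 (.sy 3359 (.sy
 1804 (.aff 0 1842186 542834) (.aff 0 4647851 215154)) (.aff 0 6412266 155952)) (.sy 3359 (.sy 1804 (.aff 0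
 1857634 538320) (.aff 0 4628525 216052)) (.aff 0 6385604 156603)))) (.aff 0 8971243 111468)) (.aff 0 12604521
 79337)) (.aff 0 17766578 56286)) (.sx 123 (.sy 25125 (.sy 12687 (.sy 6468 (.sy 3359 (.sy 1804 (.aff 0 1842469
 542750) (.aff 0 4599983 217393)) (.aff 0 6346227 157574)) (.aff 0 8860254 112864)) (.aff 0 12448583 80331))
 (.aff 0 17546776 56991)) (.sx 124 (.sy 25125 (.sy 12687 (.sy 6468 (.sy 3359 (.sy 1804 (.aff 0 1846530 541557)
 (.aff 0 4571962 218725)) (.aff 0 6307569 158540)) (.aff 0 8806283 113556)) (.aff 0 12372754 80823)) (.aff 0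
 17439891 57340)) (.sy 25125 (.sy 12687 (.sy 6468 (.sy 3359 (.sy 1804 (.aff 0 1850659 540349) (.aff 0 4553564
 219609)) (.aff 0 6282187 159181)) (.aff 0 8770845 114015)) (.aff 0 12322964 81150)) (.aff 0 17369711
 57572))))))))) (.sx 187 (.sy 25125 (.sy 12687 (.sy 6468 (.sx 156 (.sy 3359 (.sy 1804 (.sy 1027 (.aff 0
 1830580 546275) (.aff 0 3174073 315053)) (.aff 0 4286452 233294)) (.aff 0 5913674 169100)) (.sy 3359 (.sy
 1804 (.sy 1027 (.aff 0 1836308 544571) (.aff 0 2872916 348079)) (.aff 0 3879753 257749)) (.aff 0 5352584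
 186826))) (.aff 0 7835448 127626)) (.aff 0 11008738 90837)) (.aff 0 15517257 64445)) (.sy 25125 (.sy 12687
 (.sy 6468 (.sx 218 (.sy 3359 (.sy 1804 (.sy 1027 (.aff 0 1833456 545419) (.aff 0 2548160 392441)) (.aff 0
 3570455 280077)) (.aff 0 4925871 203010)) (.sx 234 (.sy 3359 (.sy 1804 (.sy 1027 (.aff 0 1828000 547046)
 (.aff 0 2013670 496606)) (.aff 0 3379729 295882)) (.aff 0 4662741 214467)) (.sy 3359 (.sy 1804 (.sy 1027
 (.aff 0 1832948 545570) (.aff 0 1948167 513304)) (.aff 0 3266092 306177)) (.aff 0 4505965 221929)))) (.aff 0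
 6620646 151043)) (.aff 0 9301953 107505)) (.aff 0 13111475 76270)))), (.pol), (.sx 200125 (.sy 25000 (.sy
 12500 (.sy 6250 (.sy 3125 (.sx 100187 (.sx 50218 (.sx 25234 (.sx 12742 (.sy 1562 (.pol) (.sx 6496 (.sy 2343
 (.pol) (.sx 3373 (.sx 1811 (.pol) (.pol)) (.pol))) (.pol))) (.pol)) (.pol)) (.pol)) (.pol)) (.sx 100187 (.sx
 50218 (.sx 25234 (.sx 12742 (.sy 4687 (.sx 6496 (.sy 3906 (.sx 3373 (.sx 1811 (.pol) (.pol)) (.pol)) (.sx
 3373 (.pol) (.pol))) (.pol)) (.sx 6496 (.sx 3373 (.pol) (.pol)) (.pol))) (.pol)) (.pol)) (.pol)) (.pol)))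
 (.sy 9375 (.sx 100187 (.sx 50218 (.sx 25234 (.sx 12742 (.sy 7812 (.sx 6496 (.sx 3373 (.pol) (.pol)) (.pol))
 (.sx 6496 (.pol) (.pol))) (.pol)) (.pol)) (.pol)) (.pol)) (.sx 100187 (.sx 50218 (.sx 25234 (.sx 12742 (.sx
 6496 (.pol) (.pol)) (.pol)) (.pol)) (.pol)) (.pol)))) (.sy 18750 (.sy 15625 (.sx 100187 (.sx 50218 (.sx 25234
 (.sx 12742 (.sx 6496 (.pol) (.pol)) (.pol)) (.pol)) (.pol)) (.pol)) (.sx 100187 (.sx 50218 (.sx 25234 (.sx
 12742 (.pol) (.pol)) (.pol)) (.pol)) (.pol))) (.sy 21875 (.sx 100187 (.sx 50218 (.sx 25234 (.sx 12742 (.pol)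
 (.pol)) (.pol)) (.pol)) (.pol)) (.sx 100187 (.sx 50218 (.sx 25234 (.sx 12742 (.pol) (.pol)) (.pol)) (.pol))
 (.pol))))) (.sy 37500 (.sy 31250 (.sy 28125 (.sx 100187 (.sx 50218 (.sx 25234 (.sx 12742 (.pol) (.pol))
 (.pol)) (.pol)) (.pol)) (.sx 100187 (.sx 50218 (.sx 25234 (.pol) (.pol)) (.pol)) (.pol))) (.sy 34375 (.sx
 100187 (.sx 50218 (.sx 25234 (.pol) (.pol)) (.pol)) (.pol)) (.sx 100187 (.sx 50218 (.sx 25234 (.pol) (.pol))
 (.pol)) (.pol)))) (.sy 43750 (.sy 40625 (.sx 100187 (.sx 50218 (.sx 25234 (.pol) (.pol)) (.pol)) (.pol)) (.sx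
 100187 (.sx 50218 (.sx 25234 (.pol) (.pol)) (.pol)) (.pol))) (.sy 46875 (.sx 100187 (.sx 50218 (.sx 25234
 (.pol) (.pol)) (.pol)) (.pol)) (.sx 100187 (.sx 50218 (.sx 25234 (.pol) (.pol)) (.pol)) (.pol)))))) (.pol)),
 (.pol)⟩, .one ⟨2008000, 251, 522080, 110440, 13634, 0, 0, 400000, 50000, 100000⟩ ⟨0, .pol, .pol, .pol, .pol,
 (.sx 200000 (.sx 100000 (.sx 50000 (.aff 2231000 3682923 411457) (.aff 1000000 0 0)) (.aff 1000000 0 0))
 (.aff 1000000 0 0)), .pol, (.pol), (.sx 200000 (.sy 75000 (.sy 62500 (.sx 100000 (.sx 50000 (.pol) (.pol))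
 (.pol)) (.sx 100000 (.sx 50000 (.pol) (.pol)) (.pol))) (.sy 87500 (.sx 100000 (.sx 50000 (.pol) (.pol))
 (.pol)) (.sx 100000 (.sx 50000 (.pol) (.pol)) (.pol)))) (.pol)), .pol⟩, .one ⟨2008000, 251, 522080, 135339,
 11144, 0, 0, 400000, 100000, 150000⟩ ⟨0, .pol, .pol, .pol, .pol, (.sx 200000 (.sx 100000 (.sx 50000 (.sx
 25000 (.sy 125000 (.sx 12500 (.aff 2400000 4200000 466667) (.sy 112500 (.aff 2100000 3503532 345366) (.aff
 2400000 3859534 507834))) (.sx 12500 (.aff 3000000 7659417 522233) (.sx 18750 (.aff 3000000 5416026 738549)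
 (.aff 2700000 4191264 689530)))) (.sx 37500 (.aff 2500000 3862415 582538) (.aff 1000000 0 0))) (.aff 1000000
 0 0)) (.aff 1000000 0 0)) (.aff 1000000 0 0)), .pol, (.pol), (.sx 200000 (.sx 100000 (.pol) (.pol)) (.pol)),
 .pol⟩, .one ⟨2008000, 251, 522080, 120078, 13433, 0, 0, 400000, 150000, 200000⟩ ⟨0, .pol, .pol, .pol, .pol,
 (.sx 200000 (.sx 100000 (.sx 50000 (.sx 25000 (.aff 3000000 5291503 755929) (.aff 3213000 4547473 1076943))
 (.sy 175000 (.aff 1000000 0 0) (.sx 75000 (.aff 3575000 4701286 1410386) (.aff 1000000 0 0)))) (.aff 1000000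
 0 0)) (.aff 1000000 0 0)), .pol, (.pol), (.sx 200000 (.sy 175000 (.sy 162500 (.sx 100000 (.pol) (.pol)) (.sx
 100000 (.pol) (.sx 150000 (.pol) (.pol)))) (.sy 187500 (.sx 100000 (.pol) (.sx 150000 (.pol) (.pol))) (.sx
 100000 (.pol) (.sx 150000 (.pol) (.pol))))) (.pol)), .pol⟩, .one ⟨2008000, 251, 522080, 122889, 12871, 0, 0,
 400000, 200000, 250000⟩ ⟨0, .pol, .pol, .pol, .pol, (.sx 200000 (.sx 100000 (.sy 225000 (.sx 50000 (.aff
 5000000 8246212 1940285) (.sy 212500 (.sx 75000 (.aff 3400000 4595651 1253359) (.aff 1000000 0 0)) (.sx 75000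
 (.sx 62500 (.aff 5000000 7677719 2083953) (.aff 3500000 4564355 1369307)) (.aff 1000000 0 0)))) (.sx 50000
 (.aff 5000000 10066446 1589439) (.sx 75000 (.aff 4100000 5516491 1742050) (.aff 3800000 4787163 1637714))))
 (.aff 1000000 0 0)) (.aff 1000000 0 0)), .pol, (.pol), (.sx 200000 (.pol) (.pol)), .pol⟩, .one ⟨2008000, 251,
 522080, 130118, 11064, 0, 0, 400000, 250000, 300000⟩ ⟨0, .pol, .pol, .pol, .pol, (.sx 200000 (.sx 100000 (.sx
 50000 (.aff 5000000 10832052 1477098) (.sx 75000 (.aff 5000000 8390471 1906926) (.aff 4200000 5306600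
 1929673))) (.sy 275000 (.aff 3200000 3523399 1373674) (.sx 150000 (.sx 125000 (.sx 112500 (.aff 4500000
 5595137 2189402) (.aff 4000000 4730580 1902516)) (.aff 1500000 722999 345782)) (.aff 1000000 0 0)))) (.aff
 1000000 0 0)), .pol, (.pol), (.sx 200000 (.pol) (.sx 300000 (.sx 250000 (.pol) (.pol)) (.pol))), .pol⟩, .one
 ⟨2008000, 251, 522080, 142568, 7329, 0, 0, 400000, 300000, 350000⟩ ⟨0, .pol, .pol, .pol, .pol, (.sx 200000
 (.sx 100000 (.aff 5000000 7211103 2218801) (.sy 325000 (.sx 150000 (.sx 125000 (.aff 4800000 6008328 2403331)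
 (.aff 4525000 5348762 2323085)) (.aff 1000000 0 0)) (.sx 150000 (.aff 4800000 5700001 2533333) (.sy 337500
 (.aff 1500000 687906 363422) (.sx 175000 (.aff 4877000 5568134 2699492) (.aff 1000000 0 0)))))) (.aff 1000000
 0 0)), .pol, (.pol), (.sx 200000 (.pol) (.sx 300000 (.pol) (.pol))), .pol⟩, .one ⟨2008000, 251, 522080,
 158632, 1706, 0, 0, 400000, 350000, 400000⟩ ⟨0, .pol, .pol, .pol, .pol, (.sx 200000 (.sx 100000 (.aff 5000000
 8944272 1788855) (.sx 150000 (.aff 5000000 6324556 2529822) (.sx 175000 (.aff 4700000 5416246 2527581) (.aff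
 4906000 5468162 2790122)))) (.aff 2000000 1224745 816497)), .pol, (.pol), (.sx 200000 (.pol) (.sx 300000
 (.pol) (.sx 350000 (.pol) (.pol)))), .pol⟩, .one ⟨2008000, 251, 522080, 177507, -5844, 0, 0, 400000, 400000,
 450000⟩ ⟨0, .pol, .pol, .pol, .pol, (.sx 200000 (.sy 425000 (.aff 5800000 6893476 3342291) (.aff 8000000
 10353140 4732864)) (.sy 425000 (.sx 300000 (.sx 250000 (.aff 4904000 5319183 2865331) (.aff 1000000 0 0))
 (.aff 1000000 0 0)) (.sx 300000 (.sx 250000 (.aff 5000000 5428968 2947154) (.aff 1500000 630657 396412))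
 (.aff 1000000 0 0)))), .pol, (.pol), (.pol), .pol⟩, .one ⟨2008000, 251, 522080, 199595, -15783, 0, 0, 400000,
 450000, 500000⟩ ⟨0, .pol, .pol, .pol, .pol, (.sx 200000 (.aff 5000000 6164415 2595543) (.sx 300000 (.sx
 250000 (.aff 5000000 5513620 2901905) (.aff 4900000 5125605 2967455)) (.aff 2000000 1164965 858395))), .pol,
 (.pol), (.pol), .pol⟩, .one ⟨2008000, 251, 522080, 223691, -27831, 0, 0, 400000, 500000, 550000⟩ ⟨0, .pol,
 .pol, .pol, .pol, (.sx 200000 (.aff 5000000 6480741 2468854) (.sx 300000 (.sx 250000 (.aff 5000000 6110101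
 2618615) (.aff 5000000 5291503 3023716)) (.sx 350000 (.aff 4950000 5020363 3107843) (.aff 2000000 1183216
 845155)))), .pol, (.pol), (.pol), .pol⟩, .one ⟨2008000, 251, 522080, 250196, -42409, 0, 0, 400000, 550000,
 600000⟩ ⟨0, .pol, .pol, .pol, .pol, (.sx 200000 (.aff 5000000 7831561 2043016) (.sx 300000 (.aff 5000000
 5783991 2766257) (.sx 350000 (.aff 5000000 5126960 3120758) (.aff 4800000 4705458 3068777)))), .pol, (.pol),
 (.pol), .pol⟩, .one ⟨2008000, 251, 522080, 271080, -54939, 0, 0, 400000, 600000, 650000⟩ ⟨0, .pol, .pol,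
 .pol, .pol, (.sy 625000 (.sy 612500 (.sx 200000 (.aff 5000000 8041559 1989664) (.sx 300000 (.aff 5000000
 6228965 2568646) (.sx 350000 (.aff 5000000 5463164 2928706) (.aff 5100000 5047540 3330336)))) (.sy 618750
 (.sx 200000 (.aff 5000000 8103498 1974456) (.sx 300000 (.aff 5000000 6276942 2549012) (.aff 4700000 4740720
 2887748))) (.sx 200000 (.aff 5000000 8144528 1964510) (.aff 6800000 7231853 4651644)))) (.aff 8000000 8837067
 5544827)), .pol, (.pol), (.pol), .pol⟩, .one ⟨2008000, 251, 522080, -122905263, 80009683, 0, 0, 400000,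
 650000, 700000⟩ ⟨0, .pol, .pol, .pol, .pol, (.sx 200000 (.inf 2598077 384901) (.inf 1200001 833333)), .pol,
 (.pol), (.sx 200000 (.inf 2598077 384901) (.inf 1200001 833333)), .pol⟩, .one ⟨2008000, 251, 522080, 0,
 -6024000, 0, 0, 400000, 700000, 750000⟩ ⟨0, .pol, .pol, .pol, .pol, (.inf 1523155 656533), .pol, (.pol),
 (.inf 1523155 656533), .pol⟩, .one ⟨2008000, 251, 522080, 0, -6024000, 0, 0, 400000, 750000, 800000⟩ ⟨0,
 .pol, .pol, .pol, .pol, (.inf 1574802 635001), .pol, (.pol), (.inf 1574802 635001), .pol⟩, .one ⟨2008000,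
 251, 522080, 0, -6024000, 0, 0, 400000, 800000, 850000⟩ ⟨0, .pol, .pol, .pol, .pol, (.inf 1624808 615458),
 .pol, (.pol), (.inf 1624808 615458), .pol⟩, .one ⟨2008000, 251, 522080, 0, -6024000, 0, 0, 400000, 850000,
 900000⟩ ⟨0, .pol, .pol, .pol, .pol, (.inf 1673321 597614), .pol, (.pol), (.inf 1673321 597614), .pol⟩, .one
 ⟨2008000, 251, 522080, 0, -6024000, 0, 0, 400000, 900000, 950000⟩ ⟨0, .pol, .pol, .pol, .pol, (.inf 2150582
 464991), .pol, (.pol), (.inf 2150582 464991), .pol⟩, .one ⟨2008000, 251, 522080, 0, -6024000, 0, 0, 400000,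
 950000, 1000000⟩ ⟨0, .pol, .pol, .pol, .pol, (.inf 2207941 452911), .pol, (.pol), (.inf 2207941 452911),
 .pol⟩], []⟩] = true := by decide +kernel

theorem II_xC190_80 : PropII xC190_80 := propIIp_of cC190_80

theorem lC190_110_0 : chkPlp ⟨(nat_lit 3), (nat_lit 1000), Int.ofNat (nat_lit 280), 0, ⟨0, 1⟩, ⟨Int.ofNat
 (nat_lit 110), 200⟩⟩ ⟨950000, 1000000, 987340, 974761, 1000082, 111803, 279510, 55902, 223606, 0⟩ true 0 0
 [(nat_lit 50), (nat_lit 100), (nat_lit 150), (nat_lit 200), (nat_lit 250), (nat_lit 300), (nat_lit 350),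
 (nat_lit 400), (nat_lit 450), (nat_lit 500), (nat_lit 550), (nat_lit 600), (nat_lit 650), (nat_lit 700),
 (nat_lit 750), (nat_lit 800), (nat_lit 850), (nat_lit 900), (nat_lit 950), (nat_lit 1000)] [(Int.ofNat
 (nat_lit 929)), (Int.ofNat (nat_lit 1213)), (Int.ofNat (nat_lit 1509)), (Int.ofNat (nat_lit 1754)),
 (Int.ofNat (nat_lit 1998)), (Int.ofNat (nat_lit 2254)), (Int.ofNat (nat_lit 2535)), (Int.ofNat (nat_lit
 2852)), (Int.ofNat (nat_lit 3211)), (Int.ofNat (nat_lit 3620)), (Int.ofNat (nat_lit 4085)), (Int.ofNat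
 (nat_lit 4611)), (Int.ofNat (nat_lit 5204)), (Int.ofNat (nat_lit 5870)), (Int.ofNat (nat_lit 6615)),
 (Int.ofNat (nat_lit 7413)), (Int.negSucc (nat_lit 299999)), (Int.negSucc (nat_lit 299999)), (Int.negSucc
 (nat_lit 299999)), (Int.negSucc (nat_lit 299999))] [qC190_110_0_0, qC190_110_0_1, qC190_110_0_2,
 qC190_110_0_3, qC190_110_0_4, qC190_110_0_5, qC190_110_0_6, qC190_110_0_7, qC190_110_0_8, qC190_110_0_9,
 qC190_110_0_10, qC190_110_0_11, qC190_110_0_12, qC190_110_0_13, qC190_110_0_14, qC190_110_0_15,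
 qC190_110_0_16, qC190_110_0_17, qC190_110_0_18, qC190_110_0_19] = true :=
  chkPlp_cons rfl hC190_110_0_0 (chkPlp_cons rfl hC190_110_0_1 (chkPlp_cons rfl hC190_110_0_2 (chkPlp_cons
 rfl hC190_110_0_3 (chkPlp_cons rfl hC190_110_0_4 (chkPlp_cons rfl hC190_110_0_5 (chkPlp_cons rfl
 hC190_110_0_6 (chkPlp_cons rfl hC190_110_0_7 (chkPlp_cons rfl hC190_110_0_8 (chkPlp_cons rfl hC190_110_0_9
 (chkPlp_cons rfl hC190_110_0_10 (chkPlp_cons rfl hC190_110_0_11 (chkPlp_cons rfl hC190_110_0_12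
 (chkPlp_cons rfl hC190_110_0_13 (chkPlp_cons rfl hC190_110_0_14 (chkPlp_cons rfl hC190_110_0_15
 (chkPlp_cons rfl hC190_110_0_16 (chkPlp_cons rfl hC190_110_0_17 (chkPlp_cons rfl hC190_110_0_18
 (chkPlp_cons rfl hC190_110_0_19 chkPlp_nil)))))))))))))))))))

theorem lC190_110_1 : chkPlp ⟨(nat_lit 3), (nat_lit 1000), Int.ofNat (nat_lit 400), 0, ⟨0, 1⟩, ⟨Int.ofNat
 (nat_lit 110), 200⟩⟩ ⟨950000, 1000000, 987340, 974761, 1000082, 111803, 279510, 55902, 223606, 0⟩ true 0 0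
 [(nat_lit 50), (nat_lit 100), (nat_lit 150), (nat_lit 200), (nat_lit 250), (nat_lit 300), (nat_lit 350),
 (nat_lit 400), (nat_lit 450), (nat_lit 500), (nat_lit 550), (nat_lit 600), (nat_lit 650), (nat_lit 700),
 (nat_lit 750), (nat_lit 800), (nat_lit 850), (nat_lit 900), (nat_lit 950), (nat_lit 1000)] [(Int.ofNat
 (nat_lit 869)), (Int.ofNat (nat_lit 1119)), (Int.ofNat (nat_lit 1162)), (Int.ofNat (nat_lit 1092)),
 (Int.ofNat (nat_lit 967)), (Int.ofNat (nat_lit 812)), (Int.ofNat (nat_lit 650)), (Int.ofNat (nat_lit 494)),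
 (Int.ofNat (nat_lit 353)), (Int.ofNat (nat_lit 235)), (Int.ofNat (nat_lit 147)), (Int.ofNat (nat_lit 93)),
 (Int.ofNat (nat_lit 79)), (Int.ofNat (nat_lit 107)), (Int.ofNat (nat_lit 180)), (Int.ofNat (nat_lit 282)),
 (Int.negSucc (nat_lit 299999)), (Int.negSucc (nat_lit 299999)), (Int.negSucc (nat_lit 299999)),
 (Int.negSucc (nat_lit 299999))] [qC190_110_1_0, qC190_110_1_1, qC190_110_1_2, qC190_110_1_3, qC190_110_1_4,
 qC190_110_1_5, qC190_110_1_6, qC190_110_1_7, qC190_110_1_8, qC190_110_1_9, qC190_110_1_10, qC190_110_1_11,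
 qC190_110_1_12, qC190_110_1_13, qC190_110_1_14, qC190_110_1_15, qC190_110_1_16, qC190_110_1_17,
 qC190_110_1_18, qC190_110_1_19] = true :=
  chkPlp_cons rfl hC190_110_1_0 (chkPlp_cons rfl hC190_110_1_1 (chkPlp_cons rfl hC190_110_1_2 (chkPlp_cons
 rfl hC190_110_1_3 (chkPlp_cons rfl hC190_110_1_4 (chkPlp_cons rfl hC190_110_1_5 (chkPlp_cons rfl
 hC190_110_1_6 (chkPlp_cons rfl hC190_110_1_7 (chkPlp_cons rfl hC190_110_1_8 (chkPlp_cons rfl hC190_110_1_9
 (chkPlp_cons rfl hC190_110_1_10 (chkPlp_cons rfl hC190_110_1_11 (chkPlp_cons rfl hC190_110_1_12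
 (chkPlp_cons rfl hC190_110_1_13 (chkPlp_cons rfl hC190_110_1_14 (chkPlp_cons rfl hC190_110_1_15
 (chkPlp_cons rfl hC190_110_1_16 (chkPlp_cons rfl hC190_110_1_17 (chkPlp_cons rfl hC190_110_1_18
 (chkPlp_cons rfl hC190_110_1_19 chkPlp_nil)))))))))))))))))))

theorem lC190_110_2 : chkPlp ⟨(nat_lit 3), (nat_lit 1000), Int.ofNat (nat_lit 600), 0, ⟨0, 1⟩, ⟨Int.ofNat
 (nat_lit 110), 200⟩⟩ ⟨950000, 1000000, 987340, 974761, 1000082, 111803, 279510, 55902, 223606, 0⟩ true 0 0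
 [(nat_lit 50), (nat_lit 100), (nat_lit 150), (nat_lit 200), (nat_lit 250), (nat_lit 300), (nat_lit 350),
 (nat_lit 400), (nat_lit 450), (nat_lit 500), (nat_lit 550), (nat_lit 600), (nat_lit 650), (nat_lit 700),
 (nat_lit 750), (nat_lit 800), (nat_lit 850), (nat_lit 900), (nat_lit 950), (nat_lit 1000)] [(Int.ofNat
 (nat_lit 870)), (Int.ofNat (nat_lit 995)), (Int.ofNat (nat_lit 585)), (Int.negSucc (nat_lit 5)),
 (Int.negSucc (nat_lit 752)), (Int.negSucc (nat_lit 1582)), (Int.negSucc (nat_lit 2486)), (Int.negSucc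
 (nat_lit 3429)), (Int.negSucc (nat_lit 4407)), (Int.negSucc (nat_lit 5403)), (Int.negSucc (nat_lit 6414)),
 (Int.negSucc (nat_lit 7433)), (Int.negSucc (nat_lit 8461)), (Int.negSucc (nat_lit 9495)), (Int.negSucc
 (nat_lit 10542)), (Int.negSucc (nat_lit 11608)), (Int.negSucc (nat_lit 299999)), (Int.negSucc (nat_lit
 299999)), (Int.negSucc (nat_lit 299999)), (Int.negSucc (nat_lit 299999))] [qC190_110_2_0, qC190_110_2_1,
 qC190_110_2_2, qC190_110_2_3, qC190_110_2_4, qC190_110_2_5, qC190_110_2_6, qC190_110_2_7, qC190_110_2_8,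
 qC190_110_2_9, qC190_110_2_10, qC190_110_2_11, qC190_110_2_12, qC190_110_2_13, qC190_110_2_14,
 qC190_110_2_15, qC190_110_2_16, qC190_110_2_17, qC190_110_2_18, qC190_110_2_19] = true :=
  chkPlp_cons rfl hC190_110_2_0 (chkPlp_cons rfl hC190_110_2_1 (chkPlp_cons rfl hC190_110_2_2 (chkPlp_cons
 rfl hC190_110_2_3 (chkPlp_cons rfl hC190_110_2_4 (chkPlp_cons rfl hC190_110_2_5 (chkPlp_cons rfl
 hC190_110_2_6 (chkPlp_cons rfl hC190_110_2_7 (chkPlp_cons rfl hC190_110_2_8 (chkPlp_cons rfl hC190_110_2_9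
 (chkPlp_cons rfl hC190_110_2_10 (chkPlp_cons rfl hC190_110_2_11 (chkPlp_cons rfl hC190_110_2_12
 (chkPlp_cons rfl hC190_110_2_13 (chkPlp_cons rfl hC190_110_2_14 (chkPlp_cons rfl hC190_110_2_15
 (chkPlp_cons rfl hC190_110_2_16 (chkPlp_cons rfl hC190_110_2_17 (chkPlp_cons rfl hC190_110_2_18
 (chkPlp_cons rfl hC190_110_2_19 chkPlp_nil)))))))))))))))))))

theorem lC190_110_3 : chkPlp ⟨(nat_lit 3), (nat_lit 1000), Int.ofNat (nat_lit 1000), 0, ⟨0, 1⟩, ⟨Int.ofNat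
 (nat_lit 110), 200⟩⟩ ⟨950000, 1000000, 987340, 974761, 1000082, 111803, 279510, 55902, 223606, 0⟩ true 0 0
 [(nat_lit 50), (nat_lit 100), (nat_lit 150), (nat_lit 200), (nat_lit 250), (nat_lit 300), (nat_lit 350),
 (nat_lit 400), (nat_lit 450), (nat_lit 500), (nat_lit 550), (nat_lit 600), (nat_lit 650), (nat_lit 700),
 (nat_lit 750), (nat_lit 800), (nat_lit 850), (nat_lit 900), (nat_lit 950), (nat_lit 1000)] [(Int.ofNat
 (nat_lit 949)), (Int.ofNat (nat_lit 709)), (Int.negSucc (nat_lit 554)), (Int.negSucc (nat_lit 2193)),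
 (Int.negSucc (nat_lit 4172)), (Int.negSucc (nat_lit 6353)), (Int.negSucc (nat_lit 8734)), (Int.negSucc
 (nat_lit 11244)), (Int.negSucc (nat_lit 13890)), (Int.negSucc (nat_lit 16632)), (Int.negSucc (nat_lit
 19488)), (Int.negSucc (nat_lit 22429)), (Int.negSucc (nat_lit 25481)), (Int.negSucc (nat_lit 28629)),
 (Int.negSucc (nat_lit 31914)), (Int.negSucc (nat_lit 35353)), (Int.negSucc (nat_lit 299999)), (Int.negSucc
 (nat_lit 299999)), (Int.negSucc (nat_lit 299999)), (Int.negSucc (nat_lit 299999))] [qC190_110_3_0,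
 qC190_110_3_1, qC190_110_3_2, qC190_110_3_3, qC190_110_3_4, qC190_110_3_5, qC190_110_3_6, qC190_110_3_7,
 qC190_110_3_8, qC190_110_3_9, qC190_110_3_10, qC190_110_3_11, qC190_110_3_12, qC190_110_3_13,
 qC190_110_3_14, qC190_110_3_15, qC190_110_3_16, qC190_110_3_17, qC190_110_3_18, qC190_110_3_19] = true :=
  chkPlp_cons rfl hC190_110_3_0 (chkPlp_cons rfl hC190_110_3_1 (chkPlp_cons rfl hC190_110_3_2 (chkPlp_cons
 rfl hC190_110_3_3 (chkPlp_cons rfl hC190_110_3_4 (chkPlp_cons rfl hC190_110_3_5 (chkPlp_cons rfl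
 hC190_110_3_6 (chkPlp_cons rfl hC190_110_3_7 (chkPlp_cons rfl hC190_110_3_8 (chkPlp_cons rfl hC190_110_3_9
 (chkPlp_cons rfl hC190_110_3_10 (chkPlp_cons rfl hC190_110_3_11 (chkPlp_cons rfl hC190_110_3_12
 (chkPlp_cons rfl hC190_110_3_13 (chkPlp_cons rfl hC190_110_3_14 (chkPlp_cons rfl hC190_110_3_15
 (chkPlp_cons rfl hC190_110_3_16 (chkPlp_cons rfl hC190_110_3_17 (chkPlp_cons rfl hC190_110_3_18
 (chkPlp_cons rfl hC190_110_3_19 chkPlp_nil)))))))))))))))))))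

theorem lC190_110_4 : chkPlp ⟨(nat_lit 3), (nat_lit 1000), Int.ofNat (nat_lit 2000), 0, ⟨0, 1⟩, ⟨Int.ofNat
 (nat_lit 110), 200⟩⟩ ⟨950000, 1000000, 987340, 974761, 1000082, 111803, 279510, 55902, 223606, 0⟩ true 0 0
 [(nat_lit 50), (nat_lit 100), (nat_lit 150), (nat_lit 200), (nat_lit 250), (nat_lit 300), (nat_lit 350),
 (nat_lit 400), (nat_lit 450), (nat_lit 500), (nat_lit 550), (nat_lit 600), (nat_lit 650), (nat_lit 700),
 (nat_lit 750), (nat_lit 800), (nat_lit 850), (nat_lit 900), (nat_lit 950), (nat_lit 1000)] [(Int.ofNat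
 (nat_lit 1260)), (Int.negSucc (nat_lit 121)), (Int.negSucc (nat_lit 3408)), (Int.negSucc (nat_lit 7662)),
 (Int.negSucc (nat_lit 12720)), (Int.negSucc (nat_lit 18289)), (Int.negSucc (nat_lit 24357)), (Int.negSucc
 (nat_lit 30783)), (Int.negSucc (nat_lit 37600)), (Int.negSucc (nat_lit 44711)), (Int.negSucc (nat_lit
 52175)), (Int.negSucc (nat_lit 59923)), (Int.negSucc (nat_lit 68036)), (Int.negSucc (nat_lit 76471)),
 (Int.negSucc (nat_lit 85350)), (Int.negSucc (nat_lit 94723)), (Int.negSucc (nat_lit 299999)), (Int.negSucc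
 (nat_lit 299999)), (Int.negSucc (nat_lit 299999)), (Int.negSucc (nat_lit 299999))] [qC190_110_4_0,
 qC190_110_4_1, qC190_110_4_2, qC190_110_4_3, qC190_110_4_4, qC190_110_4_5, qC190_110_4_6, qC190_110_4_7,
 qC190_110_4_8, qC190_110_4_9, qC190_110_4_10, qC190_110_4_11, qC190_110_4_12, qC190_110_4_13,
 qC190_110_4_14, qC190_110_4_15, qC190_110_4_16, qC190_110_4_17, qC190_110_4_18, qC190_110_4_19] = true :=
  chkPlp_cons rfl hC190_110_4_0 (chkPlp_cons rfl hC190_110_4_1 (chkPlp_cons rfl hC190_110_4_2 (chkPlp_cons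
 rfl hC190_110_4_3 (chkPlp_cons rfl hC190_110_4_4 (chkPlp_cons rfl hC190_110_4_5 (chkPlp_cons rfl
 hC190_110_4_6 (chkPlp_cons rfl hC190_110_4_7 (chkPlp_cons rfl hC190_110_4_8 (chkPlp_cons rfl hC190_110_4_9
 (chkPlp_cons rfl hC190_110_4_10 (chkPlp_cons rfl hC190_110_4_11 (chkPlp_cons rfl hC190_110_4_12
 (chkPlp_cons rfl hC190_110_4_13 (chkPlp_cons rfl hC190_110_4_14 (chkPlp_cons rfl hC190_110_4_15
 (chkPlp_cons rfl hC190_110_4_16 (chkPlp_cons rfl hC190_110_4_17 (chkPlp_cons rfl hC190_110_4_18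
 (chkPlp_cons rfl hC190_110_4_19 chkPlp_nil)))))))))))))))))))

theorem lC190_110_5 : chkPlp ⟨(nat_lit 3), (nat_lit 1000), Int.ofNat (nat_lit 4000), 0, ⟨0, 1⟩, ⟨Int.ofNat
 (nat_lit 110), 200⟩⟩ ⟨950000, 1000000, 987340, 974761, 1000082, 111803, 279510, 55902, 223606, 0⟩ true 0 0
 [(nat_lit 50), (nat_lit 100), (nat_lit 150), (nat_lit 200), (nat_lit 250), (nat_lit 300), (nat_lit 350),
 (nat_lit 400), (nat_lit 450), (nat_lit 500), (nat_lit 550), (nat_lit 600), (nat_lit 650), (nat_lit 700),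
 (nat_lit 750), (nat_lit 800), (nat_lit 850), (nat_lit 900), (nat_lit 950), (nat_lit 1000)] [(Int.ofNat
 (nat_lit 1775)), (Int.negSucc (nat_lit 1681)), (Int.negSucc (nat_lit 9120)), (Int.negSucc (nat_lit 18614)),
 (Int.negSucc (nat_lit 29842)), (Int.negSucc (nat_lit 42163)), (Int.negSucc (nat_lit 55623)), (Int.negSucc
 (nat_lit 69886)), (Int.negSucc (nat_lit 85047)), (Int.negSucc (nat_lit 100900)), (Int.negSucc (nat_lit
 117585)), (Int.negSucc (nat_lit 134950)), (Int.negSucc (nat_lit 153188)), (Int.negSucc (nat_lit 172202)),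
 (Int.negSucc (nat_lit 192273)), (Int.negSucc (nat_lit 213518)), (Int.negSucc (nat_lit 299999)),
 (Int.negSucc (nat_lit 299999)), (Int.negSucc (nat_lit 299999)), (Int.negSucc (nat_lit 299999))]
 [qC190_110_5_0, qC190_110_5_1, qC190_110_5_2, qC190_110_5_3, qC190_110_5_4, qC190_110_5_5, qC190_110_5_6,
 qC190_110_5_7, qC190_110_5_8, qC190_110_5_9, qC190_110_5_10, qC190_110_5_11, qC190_110_5_12,
 qC190_110_5_13, qC190_110_5_14, qC190_110_5_15, qC190_110_5_16, qC190_110_5_17, qC190_110_5_18,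
 qC190_110_5_19] = true :=
  chkPlp_cons rfl hC190_110_5_0 (chkPlp_cons rfl hC190_110_5_1 (chkPlp_cons rfl hC190_110_5_2 (chkPlp_cons
 rfl hC190_110_5_3 (chkPlp_cons rfl hC190_110_5_4 (chkPlp_cons rfl hC190_110_5_5 (chkPlp_cons rfl
 hC190_110_5_6 (chkPlp_cons rfl hC190_110_5_7 (chkPlp_cons rfl hC190_110_5_8 (chkPlp_cons rfl hC190_110_5_9
 (chkPlp_cons rfl hC190_110_5_10 (chkPlp_cons rfl hC190_110_5_11 (chkPlp_cons rfl hC190_110_5_12
 (chkPlp_cons rfl hC190_110_5_13 (chkPlp_cons rfl hC190_110_5_14 (chkPlp_cons rfl hC190_110_5_15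
 (chkPlp_cons rfl hC190_110_5_16 (chkPlp_cons rfl hC190_110_5_17 (chkPlp_cons rfl hC190_110_5_18
 (chkPlp_cons rfl hC190_110_5_19 chkPlp_nil)))))))))))))))))))

def cC190_110 : chkIIp xC190_110 ⟨950000, 1000000, 987340, 974761, 1000082, 111803, 279510, 55902, 223606,
 0⟩ [⟨[qC190_110_0_0, qC190_110_0_1, qC190_110_0_2, qC190_110_0_3, qC190_110_0_4, qC190_110_0_5,
 qC190_110_0_6, qC190_110_0_7, qC190_110_0_8, qC190_110_0_9, qC190_110_0_10, qC190_110_0_11, qC190_110_0_12,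
 qC190_110_0_13, qC190_110_0_14, qC190_110_0_15, qC190_110_0_16, qC190_110_0_17, qC190_110_0_18,
 qC190_110_0_19], []⟩, ⟨[qC190_110_1_0, qC190_110_1_1, qC190_110_1_2, qC190_110_1_3, qC190_110_1_4,
 qC190_110_1_5, qC190_110_1_6, qC190_110_1_7, qC190_110_1_8, qC190_110_1_9, qC190_110_1_10, qC190_110_1_11,
 qC190_110_1_12, qC190_110_1_13, qC190_110_1_14, qC190_110_1_15, qC190_110_1_16, qC190_110_1_17,
 qC190_110_1_18, qC190_110_1_19], []⟩, ⟨[qC190_110_2_0, qC190_110_2_1, qC190_110_2_2, qC190_110_2_3,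
 qC190_110_2_4, qC190_110_2_5, qC190_110_2_6, qC190_110_2_7, qC190_110_2_8, qC190_110_2_9, qC190_110_2_10,
 qC190_110_2_11, qC190_110_2_12, qC190_110_2_13, qC190_110_2_14, qC190_110_2_15, qC190_110_2_16,
 qC190_110_2_17, qC190_110_2_18, qC190_110_2_19], []⟩, ⟨[qC190_110_3_0, qC190_110_3_1, qC190_110_3_2,
 qC190_110_3_3, qC190_110_3_4, qC190_110_3_5, qC190_110_3_6, qC190_110_3_7, qC190_110_3_8, qC190_110_3_9,
 qC190_110_3_10, qC190_110_3_11, qC190_110_3_12, qC190_110_3_13, qC190_110_3_14, qC190_110_3_15,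
 qC190_110_3_16, qC190_110_3_17, qC190_110_3_18, qC190_110_3_19], []⟩, ⟨[qC190_110_4_0, qC190_110_4_1,
 qC190_110_4_2, qC190_110_4_3, qC190_110_4_4, qC190_110_4_5, qC190_110_4_6, qC190_110_4_7, qC190_110_4_8,
 qC190_110_4_9, qC190_110_4_10, qC190_110_4_11, qC190_110_4_12, qC190_110_4_13, qC190_110_4_14,
 qC190_110_4_15, qC190_110_4_16, qC190_110_4_17, qC190_110_4_18, qC190_110_4_19], []⟩, ⟨[qC190_110_5_0,
 qC190_110_5_1, qC190_110_5_2, qC190_110_5_3, qC190_110_5_4, qC190_110_5_5, qC190_110_5_6, qC190_110_5_7,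
 qC190_110_5_8, qC190_110_5_9, qC190_110_5_10, qC190_110_5_11, qC190_110_5_12, qC190_110_5_13,
 qC190_110_5_14, qC190_110_5_15, qC190_110_5_16, qC190_110_5_17, qC190_110_5_18, qC190_110_5_19], []⟩] =
 true := chkIIp_mk (by decide +kernel) (chkClsp_cons lC190_110_0 (chkClsp_cons lC190_110_1 (chkClsp_cons
 lC190_110_2 (chkClsp_cons lC190_110_3 (chkClsp_cons lC190_110_4 (chkClsp_cons lC190_110_5 chkClsp_nil))))))

theorem II_xC190_110 : PropII xC190_110 := propIIp_of cC190_110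

end CB
end Pool.Agent.Lib.MP_6947cd_al
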