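import Pool.Agent.Lib.MP_6947cd_al.L.PairLC1
import Pool.Agent.Lib.MP_6947cd_al.L.PairLC2
import Pool.Agent.Lib.MP_6947cd_al.L.PairLC3
import Pool.Agent.Lib.MP_6947cd_al.L.PairLC4
import Pool.Agent.Lib.MP_6947cd_al.L.PairLC5
import Pool.Agent.Lib.MP_6947cd_al.L.PairLC6
import Pool.Agent.Lib.MP_6947cd_al.L.PairLC7
import Pool.Agent.Lib.MP_6947cd_al.L.LibUse

/-!
Problem MP_6947cd_al (Chollet).  The library of pair functions of case C (`s ≤ 11/20`), all boxes: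
`CB.II_xC{H0}_{80|110}`, `H0 = 130, 140, .., 190`; `CB.lib_pure` applies.
-/
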