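import Pool.Agent.Lib.MP_6947cd_al.T.Frame4
import Pool.Agent.Lib.Interval.Core

/-!
Problem MP_6947cd_al (Chollet).  THE PAIR FUNCTION, checked by quadratic polynomials.

For a pair `i, j` with `h = b i j` and a third vertex with entries `s = b i k`, `t = b j k`, the merged
entry is `u` with `2 (1 + h) u = s + t + √(1-h) (t - s) + 2 √h c`, `c² ≤ s t`,
`s + t ≤ 1 - h + 2 √h c`.  Every `λ ≥ 0`, `A B ≥ (1-λ)²` gives
`2 (1 + h) u ≥ (1+λ) (s+t) + √(1-h) (t-s) - λ (1-h) - √h (A s + B t)`,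
and, for `h` in a box, this follows from affine functions of `(s, t)` at the two ends of the box
(concavity in `h`).  The inequality

`w (omg s + omg t - omg (min u (max s t)) - G u) - A s ≤ ba + sl (t - ka)`

becomes a finite list of inequalities for quadratic polynomials on rectangles, checked by Bernstein
coefficients in integer arithmetic.  Near the origin the inequality is divided by `t` (or `s`).
-/

set_option autoImplicit false

namespace Pool.Agent.Lib.MP_6947cd_al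
namespace Fr
namespace PQ

open IA (fdv ile fdv_le lt_fdv)
open Ent

/-- the type of the lower bound of the merged row: `std`: `gtr (3/20) (9/20)`; `sq p q`: `p/q u²` -/
inductive Ty where
  | std
  | sq (p q : ℕ)

/-- the polynomial (not truncated) entry function -/
noncomputable def Gp : Ty → ℝ → ℝ
  | .std, u => u * (43 / 200 + 3 / 20 * u)
  | .sq p q, u => (p : ℝ) / (q : ℝ) * (u * u)

/-- the entry function -/
noncomputable def Gv : Ty → ℝ → ℝ
  | .std, u => gtr (3 / 20) (9 / 20) u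
  | .sq p q, u => (p : ℝ) / (q : ℝ) * (u * u)

/-- `p/q ≤ 1/2` -/
def Ty.ok : Ty → Bool
  | .std => true
  | .sq p q => Nat.ble 1 q && Nat.ble (2 * p) q

/-! ### monotonicity -/

lemma omg_mono {a b : ℝ} (ha : -(1 / 2) ≤ a) (hab : a ≤ b) : omg a ≤ omg b := by
  unfold omg
  nlinarith

lemma ok_sq {p q : ℕ} (h : (Ty.sq p q).ok = true) : 0 ≤ (p : ℝ) / (q : ℝ) ∧ (p : ℝ) / (q : ℝ) ≤ 1 / 2 := by
  simp only [Ty.ok, Bool.and_eq_true] at h
  have h1 : 1 ≤ q := Nat.le_of_ble_eq_true h.1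
  have h2 : 2 * p ≤ q := Nat.le_of_ble_eq_true h.2
  have h3 : (0 : ℝ) < q := by exact_mod_cast h1
  have h4 : (2 : ℝ) * p ≤ q := by exact_mod_cast h2
  refine ⟨by positivity, ?_⟩
  rw [div_le_iff₀ h3]
  linarith

/-- the combined function `omg + G` is monotone, the smaller argument may be slightly negative -/
lemma Gp_mono (ty : Ty) (hty : ty.ok = true) {u v : ℝ} (hu : 0 ≤ u) (hv : -(3 / 10) ≤ v)
    (hvu : v ≤ u) : omg v + Gp ty v ≤ omg u + Gp ty u := by
  rcases le_total 0 v with h0 | h0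
  · have h1 := omg_mono (by linarith) hvu
    have h2 : Gp ty v ≤ Gp ty u := by
      cases ty with
      | std => unfold Gp; nlinarith
      | sq p q =>
        unfold Gp
        exact mul_le_mul_of_nonneg_left (by nlinarith) (ok_sq hty).1
    linarith
  · have h1 : omg v + Gp ty v ≤ 0 := by
      cases ty with
      | std => unfold Gp omg; nlinarith
      | sq p q =>
        unfold Gp omg
        have hk1 := (ok_sq hty).2
        nlinarith [mul_nonneg (sub_nonneg.mpr hk1) (mul_self_nonneg v)]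
    have h2 : 0 ≤ omg u + Gp ty u := by
      have h3 : 0 ≤ omg u := by unfold omg; positivity
      have h4 : 0 ≤ Gp ty u := by
        cases ty with
        | std =>
          show 0 ≤ u * (43 / 200 + 3 / 20 * u)
          exact mul_nonneg hu (by linarith)
        | sq p q =>
          show 0 ≤ (p : ℝ) / (q : ℝ) * (u * u)
          positivity
      linarith
    linarith

lemma Gv_std_def (u : ℝ) : Gv .std u = 43 / 200 * min u (9 / 20) + 3 / 20 * (min u (9 / 20)) ^ 2 := rfl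

lemma Gv_eq (ty : Ty) {u : ℝ} (h : u ≤ 9 / 20) : Gv ty u = Gp ty u := by
  cases ty with
  | std =>
    rw [Gv_std_def, min_eq_left h]
    show _ = u * (43 / 200 + 3 / 20 * u)
    ring
  | sq p q => rfl

lemma Gv_eq' (ty : Ty) (hty : ty ≠ .std) (u : ℝ) : Gv ty u = Gp ty u := by
  cases ty with
  | std => exact absurd rfl hty
  | sq p q => rfl

lemma Gv_std {u : ℝ} (h : 9 / 20 ≤ u) : Gv .std u = 1017 / 8000 := by
  rw [Gv_std_def]
  rw [min_eq_right h]; norm_num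

lemma Gv_mono (ty : Ty) (hty : ty.ok = true) {u v : ℝ} (hv : 0 ≤ v) (hvu : v ≤ u) :
    Gv ty v ≤ Gv ty u := by
  cases ty with
  | std =>
    unfold Gv gtr
    have h1 : 0 ≤ min v (9 / 20) := le_min hv (by norm_num)
    have h2 : min v (9 / 20) ≤ min u (9 / 20) := min_le_min_right _ hvu
    nlinarith
  | sq p q =>
    unfold Gv
    exact mul_le_mul_of_nonneg_left (by nlinarith) (ok_sq hty).1

/-- a linear lower bound of the truncated function -/
lemma Gv_std_ge {t : ℝ} (h0 : 0 ≤ t) (h1 : t ≤ 1) : 1017 / 8000 * t ≤ Gv .std t := by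
  rw [Gv_std_def]
  rcases le_total t (9 / 20) with h | h
  · rw [min_eq_left h]; nlinarith
  · rw [min_eq_right h]; norm_num; linarith

/-! ### the geometry -/

/-- the geometric data of a pair -/
structure Geo (h s t c u : ℝ) : Prop where
  h0 : 0 ≤ h
  h1 : h ≤ 1
  s0 : 0 ≤ s
  t0 : 0 ≤ t
  t1 : t ≤ 1
  u0 : 0 ≤ u
  c2 : c ^ 2 ≤ s * t
  fe : s + t ≤ 1 - h + 2 * Real.sqrt h * c
  ue : 2 * (1 + h) * u = s + t + Real.sqrt (1 - h) * (t - s) + 2 * Real.sqrt h * c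

namespace Geo

variable {h s t c u : ℝ}

/-- the family of lower bounds -/
lemma lb (g : Geo h s t c u) {l A B : ℝ} (hl0 : 0 ≤ l) (hA : 0 ≤ A) (hB : 0 ≤ B)
    (hAB : (1 - l) ^ 2 ≤ A * B) :
    (1 + l) * (s + t) + Real.sqrt (1 - h) * (t - s) - l * (1 - h) - Real.sqrt h * (A * s + B * t)
      ≤ 2 * (1 + h) * u := by
  rw [g.ue]
  have hx := Real.sqrt_nonneg h
  have h1 : -(A * s + B * t) ≤ 2 * ((1 - l) * c) := by
    have h2 : (2 * ((1 - l) * c)) ^ 2 ≤ (A * s + B * t) ^ 2 := by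
      have h3 : (1 - l) ^ 2 * c ^ 2 ≤ (A * B) * (s * t) :=
        mul_le_mul hAB g.c2 (sq_nonneg _) (mul_nonneg hA hB)
      nlinarith [sq_nonneg (A * s - B * t)]
    have h3 : 0 ≤ A * s + B * t := add_nonneg (mul_nonneg hA g.s0) (mul_nonneg hB g.t0)
    exact (abs_le_of_sq_le_sq' h2 h3).1
  have h2 := mul_le_mul_of_nonneg_left h1 hx
  have h3 := mul_le_mul_of_nonneg_left g.fe hl0
  nlinarith

/-- the affine function at the height `y` of the box; `x` stands for `√y`, `r` for `√(1-y)` -/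
noncomputable def aff (y x r l A B s t : ℝ) : ℝ :=
  (1 + l) * (s + t) + r * (t - s) - l * (1 - y) - x * (A * s + B * t)

lemma le_of_sq {a b : ℝ} (h : a ^ 2 ≤ b ^ 2) (hb : 0 ≤ b) : a ≤ b :=
  (abs_le_of_sq_le_sq' h hb).2

/-- the interpolation argument -/
lemma interp {h h0 h1 x x0 x1 r r0 r1 l A B s t u : ℝ} (hh0 : h0 ≤ h) (hh1 : h ≤ h1)
    (hN : 0 ≤ A * s + B * t)
    (hx : (h1 - h0) * x ≤ (h1 - h) * x0 + (h - h0) * x1)
    (hr : (h1 - h) * (r0 * (t - s)) + (h - h0) * (r1 * (t - s)) ≤ (h1 - h0) * (r * (t - s)))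
    (hx0 : x ≤ x0 ∨ h0 < h1) (hr0 : r0 * (t - s) ≤ r * (t - s) ∨ h0 < h1)
    (hlb : (1 + l) * (s + t) + r * (t - s) - l * (1 - h) - x * (A * s + B * t) ≤ 2 * (1 + h) * u) :
    aff h0 x0 r0 l A B s t ≤ 2 * (1 + h0) * u ∨ aff h1 x1 r1 l A B s t ≤ 2 * (1 + h1) * u := by
  by_contra hcon
  push Not at hcon
  obtain ⟨c0, c1⟩ := hcon
  unfold aff at c0 c1
  rcases eq_or_lt_of_le (hh0.trans hh1) with he | hlt
  · have e0 : h = h0 := le_antisymm (he ▸ hh1) hh0
    have h2 : r0 * (t - s) ≤ r * (t - s) := by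
      rcases hr0 with h | h
      · exact h
      · exact absurd h (by rw [he]; exact lt_irrefl _)
    have h3 : x ≤ x0 := by
      rcases hx0 with h | h
      · exact h
      · exact absurd h (by rw [he]; exact lt_irrefl _)
    have h5 := mul_le_mul_of_nonneg_right h3 hN
    rw [e0] at hlb
    linarith
  · have hd : 0 < h1 - h0 := by linarith
    have w0 : 0 ≤ h1 - h := by linarith
    have w1 : 0 ≤ h - h0 := by linarith
    have h5 := mul_le_mul_of_nonneg_right hx hN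
    have h6 := mul_le_mul_of_nonneg_left hlb hd.le
    set p0 := (1 + l) * (s + t) + r0 * (t - s) - l * (1 - h0) - x0 * (A * s + B * t)
      - 2 * (1 + h0) * u with hp0
    set p1 := (1 + l) * (s + t) + r1 * (t - s) - l * (1 - h1) - x1 * (A * s + B * t)
      - 2 * (1 + h1) * u with hp1
    have q0 : 0 < p0 := by rw [hp0]; linarith
    have q1 : 0 < p1 := by rw [hp1]; linarith
    have key : (h1 - h) * p0 + (h - h0) * p1 ≤ 0 := by
      have e : (h1 - h) * p0 + (h - h0) * p1 = (h1 - h0) * ((1 + l) * (s + t) - l * (1 - h)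
          - 2 * (1 + h) * u) + ((h1 - h) * (r0 * (t - s)) + (h - h0) * (r1 * (t - s)))
          - ((h1 - h) * x0 + (h - h0) * x1) * (A * s + B * t) := by
        rw [hp0, hp1]; ring
      rw [e]
      linarith
    rcases eq_or_lt_of_le w0 with hw | hw
    · have h7 := mul_pos (by linarith : 0 < h - h0) q1
      have h8 := mul_nonneg w0 q0.le
      linarith
    · have h7 := mul_pos hw q0
      have h8 := mul_nonneg w1 q1.le
      linarith

/-- reduction to the end points of the box, `s ≤ t`: `x₀, x₁ ≥` tangent of `√` at `xb`,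
`r₀ ≤ √(1-h₀)`, `r₁ ≤ √(1-h₁)` -/
lemma ends_ge (g : Geo h s t c u) {l A B : ℝ} (hl0 : 0 ≤ l) (hA : 0 ≤ A) (hB : 0 ≤ B)
    (hAB : (1 - l) ^ 2 ≤ A * B) {h0 h1 xb x0 x1 r0 r1 : ℝ} (hh0 : h0 ≤ h) (hh1 : h ≤ h1)
    (hxb : 0 < xb) (hx0 : xb ^ 2 + h0 ≤ 2 * xb * x0) (hx1 : xb ^ 2 + h1 ≤ 2 * xb * x1)
    (hr0' : r0 ^ 2 ≤ 1 - h0) (hr1' : r1 ^ 2 ≤ 1 - h1) (hst : s ≤ t) :
    aff h0 x0 r0 l A B s t ≤ 2 * (1 + h0) * u ∨ aff h1 x1 r1 l A B s t ≤ 2 * (1 + h1) * u := by
  have hlb := g.lb hl0 hA hB hAB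
  have hxx := Real.sq_sqrt g.h0
  have hr := Real.sqrt_nonneg (1 - h)
  have hrr := Real.sq_sqrt (by linarith [g.h1] : 0 ≤ 1 - h)
  set x := Real.sqrt h
  set r := Real.sqrt (1 - h)
  have hN : 0 ≤ A * s + B * t := add_nonneg (mul_nonneg hA g.s0) (mul_nonneg hB g.t0)
  have w0 : 0 ≤ h1 - h := by linarith
  have w1 : 0 ≤ h - h0 := by linarith
  have hd : 0 ≤ h1 - h0 := by linarith
  have hts : 0 ≤ t - s := by linarith
  have hxt : 2 * xb * x ≤ xb ^ 2 + h := by nlinarith [sq_nonneg (x - xb)]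
  refine interp hh0 hh1 hN ?_ ?_ ?_ ?_ hlb
  · have h7 : 2 * xb * ((h1 - h0) * x) ≤ 2 * xb * ((h1 - h) * x0 + (h - h0) * x1) := by
      have h4 := mul_le_mul_of_nonneg_left hx0 w0
      have h5 := mul_le_mul_of_nonneg_left hx1 w1
      have h6 := mul_le_mul_of_nonneg_left hxt hd
      linarith
    exact le_of_mul_le_mul_left h7 (by positivity)
  · have h2 : (h1 - h) * r0 + (h - h0) * r1 ≤ (h1 - h0) * r := by
      refine le_of_sq ?_ (mul_nonneg hd hr)
      have e1 : ((h1 - h0) * r) ^ 2 = (h1 - h0) * ((h1 - h) * (1 - h0) + (h - h0) * (1 - h1)) := by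
        rw [mul_pow, hrr]; ring
      rw [e1]
      have h4 := mul_le_mul_of_nonneg_left hr0' w0
      have h5 := mul_le_mul_of_nonneg_left hr1' w1
      have h6 := mul_nonneg (mul_nonneg w0 w1) (sq_nonneg (r0 - r1))
      have h7 : (h1 - h0) * ((h1 - h) * r0 ^ 2 + (h - h0) * r1 ^ 2)
        ≤ (h1 - h0) * ((h1 - h) * (1 - h0) + (h - h0) * (1 - h1)) :=
        mul_le_mul_of_nonneg_left (by linarith) hd
      have e2 : ((h1 - h) * r0 + (h - h0) * r1) ^ 2 = (h1 - h0) * ((h1 - h) * r0 ^ 2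
        + (h - h0) * r1 ^ 2) - (h1 - h) * (h - h0) * (r0 - r1) ^ 2 := by ring
      rw [e2]
      linarith
    have h3 := mul_le_mul_of_nonneg_right h2 hts
    linarith
  · rcases eq_or_lt_of_le hd with he | hlt
    · left
      have : h = h0 := by linarith
      rw [this] at hxt
      exact le_of_mul_le_mul_left (hxt.trans hx0) (by positivity)
    · right; linarith
  · rcases eq_or_lt_of_le hd with he | hlt
    · left
      have : h = h0 := by linarith
      refine mul_le_mul_of_nonneg_right (le_of_sq ?_ hr) hts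
      rw [hrr, this]; exact hr0'
    · right; linarith

/-- reduction to the end points of the box, `t ≤ s`: `q₀, q₁ ≥` tangent of `√(1-·)` -/
lemma ends_le (g : Geo h s t c u) {l A B : ℝ} (hl0 : 0 ≤ l) (hA : 0 ≤ A) (hB : 0 ≤ B)
    (hAB : (1 - l) ^ 2 ≤ A * B) {h0 h1 xb x0 x1 rb q0 q1 : ℝ} (hh0 : h0 ≤ h) (hh1 : h ≤ h1)
    (hxb : 0 < xb) (hx0 : xb ^ 2 + h0 ≤ 2 * xb * x0) (hx1 : xb ^ 2 + h1 ≤ 2 * xb * x1)
    (hrb : 0 < rb) (hq0 : rb ^ 2 + (1 - h0) ≤ 2 * rb * q0) (hq1 : rb ^ 2 + (1 - h1) ≤ 2 * rb * q1)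
    (hst : t ≤ s) :
    aff h0 x0 q0 l A B s t ≤ 2 * (1 + h0) * u ∨ aff h1 x1 q1 l A B s t ≤ 2 * (1 + h1) * u := by
  have hlb := g.lb hl0 hA hB hAB
  have hxx := Real.sq_sqrt g.h0
  have hr := Real.sqrt_nonneg (1 - h)
  have hrr := Real.sq_sqrt (by linarith [g.h1] : 0 ≤ 1 - h)
  set x := Real.sqrt h
  set r := Real.sqrt (1 - h)
  have hN : 0 ≤ A * s + B * t := add_nonneg (mul_nonneg hA g.s0) (mul_nonneg hB g.t0)
  have w0 : 0 ≤ h1 - h := by linarith
  have w1 : 0 ≤ h - h0 := by linarith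
  have hd : 0 ≤ h1 - h0 := by linarith
  have hts : 0 ≤ s - t := by linarith
  have hxt : 2 * xb * x ≤ xb ^ 2 + h := by nlinarith [sq_nonneg (x - xb)]
  have hrt : 2 * rb * r ≤ rb ^ 2 + (1 - h) := by nlinarith [sq_nonneg (r - rb)]
  refine interp hh0 hh1 hN ?_ ?_ ?_ ?_ hlb
  · have h7 : 2 * xb * ((h1 - h0) * x) ≤ 2 * xb * ((h1 - h) * x0 + (h - h0) * x1) := by
      have h4 := mul_le_mul_of_nonneg_left hx0 w0
      have h5 := mul_le_mul_of_nonneg_left hx1 w1
      have h6 := mul_le_mul_of_nonneg_left hxt hd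
      linarith
    exact le_of_mul_le_mul_left h7 (by positivity)
  · have h2 : (h1 - h0) * r ≤ (h1 - h) * q0 + (h - h0) * q1 := by
      have h7 : 2 * rb * ((h1 - h0) * r) ≤ 2 * rb * ((h1 - h) * q0 + (h - h0) * q1) := by
        have h4 := mul_le_mul_of_nonneg_left hq0 w0
        have h5 := mul_le_mul_of_nonneg_left hq1 w1
        have h6 := mul_le_mul_of_nonneg_left hrt hd
        linarith
      exact le_of_mul_le_mul_left h7 (by positivity)
    have h3 := mul_le_mul_of_nonneg_right h2 hts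
    linarith
  · rcases eq_or_lt_of_le hd with he | hlt
    · left
      have : h = h0 := by linarith
      rw [this] at hxt
      exact le_of_mul_le_mul_left (hxt.trans hx0) (by positivity)
    · right; linarith
  · rcases eq_or_lt_of_le hd with he | hlt
    · left
      have : h = h0 := by linarith
      rw [this] at hrt
      have h2 : r ≤ q0 := le_of_mul_le_mul_left (hrt.trans hq0) (by positivity)
      have h3 := mul_le_mul_of_nonneg_right h2 hts
      linarith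
    · right; linarith

/-- feasibility -/
lemma feas (g : Geo h s t c u) {A B h0 x0 xb : ℝ} (hA : 0 ≤ A) (hB : 0 ≤ B) (hAB : 1 ≤ A * B)
    (h00 : 0 ≤ h0) (hh0 : h0 ≤ h) (hst : s * t ≤ h0) (hxb : 0 < xb)
    (hx0 : xb ^ 2 + h0 ≤ 2 * xb * x0) :
    s + t ≤ 1 - h0 + x0 * (A * s + B * t) := by
  have hx := Real.sqrt_nonneg h
  have hxx := Real.sq_sqrt g.h0
  have hy := Real.sqrt_nonneg h0
  have hyy := Real.sq_sqrt h00
  have hf := g.fe
  set x := Real.sqrt h
  set y := Real.sqrt h0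
  set p := Real.sqrt (s * t) with hp
  have hp0 : 0 ≤ p := Real.sqrt_nonneg _
  have hpp : p ^ 2 = s * t := Real.sq_sqrt (mul_nonneg g.s0 g.t0)
  have hcp : c ≤ p := le_of_sq (by rw [hpp]; exact g.c2) hp0
  have hpy : p ≤ y := le_of_sq (by rw [hpp, hyy]; exact hst) hy
  have hyx : y ≤ x := le_of_sq (by rw [hyy, hxx]; exact hh0) hx
  have hyx0 : y ≤ x0 := by
    have : 2 * xb * y ≤ 2 * xb * x0 := by nlinarith [sq_nonneg (y - xb)]
    exact le_of_mul_le_mul_left this (by positivity)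
  have h1 : s + t ≤ 1 - h + 2 * x * p := by
    have := mul_le_mul_of_nonneg_left hcp hx
    linarith
  have h2 : 1 - h + 2 * x * p ≤ 1 - h0 + 2 * y * p := by
    nlinarith [mul_nonneg (sub_nonneg.mpr hyx) (by linarith : 0 ≤ x + y - 2 * p)]
  have h3 : 2 * p ≤ A * s + B * t := by
    refine le_of_sq ?_ (add_nonneg (mul_nonneg hA g.s0) (mul_nonneg hB g.t0))
    have h4 : s * t ≤ (A * B) * (s * t) := le_mul_of_one_le_left (mul_nonneg g.s0 g.t0) hAB
    have h5 : (2 * p) ^ 2 = 4 * (s * t) := by rw [mul_pow, hpp]; ring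
    rw [h5]
    nlinarith [sq_nonneg (A * s - B * t)]
  have h4 := mul_le_mul hyx0 h3 (by linarith) (hy.trans hyx0)
  linarith

end Geo

/-! ### polynomials with integer coefficients on rectangles -/

/-- `cs s + ct t + css s² + ctt t² - c0 - p1 v - p2 v²` -/
structure Po where
  cs : ℤ
  ct : ℤ
  css : ℤ
  ctt : ℤ
  c0 : ℤ
  p1 : ℤ
  p2 : ℤ

/-- its value -/
noncomputable def Po.val (P : Po) (s t v : ℝ) : ℝ :=
  P.cs * s + P.ct * t + P.css * s ^ 2 + P.ctt * t ^ 2 - P.c0 - P.p1 * v - P.p2 * v ^ 2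

/-- Bernstein coefficients, real form -/
lemma bern {cs ct css ctt c0 p1 p2 x0 x1 y0 y1 l00 l10 l01 l11 μ ν : ℝ}
    (hl : l11 = l10 + l01 - l00) (hμ0 : 0 ≤ μ) (hμ1 : μ ≤ 1) (hν0 : 0 ≤ ν) (hν1 : ν ≤ 1)
    (h00 : 2 * (x0 * (cs + css * x0)) + 2 * (y0 * (ct + ctt * y0)) ≤
      2 * c0 + 2 * (l00 * (p1 + p2 * l00)))
    (h10 : (cs * (x0 + x1) + 2 * (css * (x0 * x1))) + 2 * (y0 * (ct + ctt * y0)) ≤
      2 * c0 + (p1 * (l00 + l10) + 2 * (p2 * (l00 * l10))))
    (h20 : 2 * (x1 * (cs + css * x1)) + 2 * (y0 * (ct + ctt * y0)) ≤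
      2 * c0 + 2 * (l10 * (p1 + p2 * l10)))
    (h01 : 2 * (x0 * (cs + css * x0)) + (ct * (y0 + y1) + 2 * (ctt * (y0 * y1))) ≤
      2 * c0 + (p1 * (l00 + l01) + 2 * (p2 * (l00 * l01))))
    (h11 : (cs * (x0 + x1) + 2 * (css * (x0 * x1))) + (ct * (y0 + y1) + 2 * (ctt * (y0 * y1))) ≤
      2 * c0 + (p1 * (l00 + l11) + p2 * (l00 * l11 + l10 * l01)))
    (h21 : 2 * (x1 * (cs + css * x1)) + (ct * (y0 + y1) + 2 * (ctt * (y0 * y1))) ≤
      2 * c0 + (p1 * (l10 + l11) + 2 * (p2 * (l10 * l11))))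
    (h02 : 2 * (x0 * (cs + css * x0)) + 2 * (y1 * (ct + ctt * y1)) ≤
      2 * c0 + 2 * (l01 * (p1 + p2 * l01)))
    (h12 : (cs * (x0 + x1) + 2 * (css * (x0 * x1))) + 2 * (y1 * (ct + ctt * y1)) ≤
      2 * c0 + (p1 * (l01 + l11) + 2 * (p2 * (l01 * l11))))
    (h22 : 2 * (x1 * (cs + css * x1)) + 2 * (y1 * (ct + ctt * y1)) ≤
      2 * c0 + 2 * (l11 * (p1 + p2 * l11))) :
    cs * ((1 - μ) * x0 + μ * x1) + ct * ((1 - ν) * y0 + ν * y1)
      + css * ((1 - μ) * x0 + μ * x1) ^ 2 + ctt * ((1 - ν) * y0 + ν * y1) ^ 2 ≤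
    c0 + p1 * ((1 - μ) * ((1 - ν) * l00 + ν * l01) + μ * ((1 - ν) * l10 + ν * l11))
      + p2 * ((1 - μ) * ((1 - ν) * l00 + ν * l01) + μ * ((1 - ν) * l10 + ν * l11)) ^ 2 := by
  have m1 : 0 ≤ 1 - μ := by linarith
  have n1 : 0 ≤ 1 - ν := by linarith
  have t00 := mul_nonneg (mul_nonneg (sq_nonneg (1 - μ)) (sq_nonneg (1 - ν))) (sub_nonneg.mpr h00)
  have t10 := mul_nonneg (mul_nonneg (mul_nonneg (mul_nonneg zero_le_two hμ0) m1)
    (sq_nonneg (1 - ν))) (sub_nonneg.mpr h10)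
  have t20 := mul_nonneg (mul_nonneg (sq_nonneg μ) (sq_nonneg (1 - ν))) (sub_nonneg.mpr h20)
  have t01 := mul_nonneg (mul_nonneg (sq_nonneg (1 - μ)) (mul_nonneg (mul_nonneg zero_le_two hν0) n1))
    (sub_nonneg.mpr h01)
  have t11 := mul_nonneg (mul_nonneg (mul_nonneg (mul_nonneg zero_le_two hμ0) m1)
    (mul_nonneg (mul_nonneg zero_le_two hν0) n1)) (sub_nonneg.mpr h11)
  have t21 := mul_nonneg (mul_nonneg (sq_nonneg μ) (mul_nonneg (mul_nonneg zero_le_two hν0) n1))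
    (sub_nonneg.mpr h21)
  have t02 := mul_nonneg (mul_nonneg (sq_nonneg (1 - μ)) (sq_nonneg ν)) (sub_nonneg.mpr h02)
  have t12 := mul_nonneg (mul_nonneg (mul_nonneg (mul_nonneg zero_le_two hμ0) m1)
    (sq_nonneg ν)) (sub_nonneg.mpr h12)
  have t22 := mul_nonneg (mul_nonneg (sq_nonneg μ) (sq_nonneg ν)) (sub_nonneg.mpr h22)
  subst hl
  linarith

/-- the check of one polynomial on one rectangle; `l = a x + b y - c N` at the corners -/
def phi2 (cs ct css ctt c0 p1 p2 x0 x1 y0 y1 l00 l10 l01 l11 : ℤ) : Bool :=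
  ile (-300000000000) l00 && (ile (-300000000000) l10 && (ile (-300000000000) l01 &&
  (ile (-300000000000) l11 &&
  phi3 p1 p2 l00 l10 l01 l11 (Int.mul 2 (Int.mul x0 (Int.add cs (Int.mul css x0))))
    (Int.add (Int.mul cs (Int.add x0 x1)) (Int.mul 2 (Int.mul css (Int.mul x0 x1))))
    (Int.mul 2 (Int.mul x1 (Int.add cs (Int.mul css x1))))
    (Int.sub (Int.mul 2 (Int.mul y0 (Int.add ct (Int.mul ctt y0)))) (Int.mul 2 c0))
    (Int.sub (Int.add (Int.mul ct (Int.add y0 y1)) (Int.mul 2 (Int.mul ctt (Int.mul y0 y1))))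
      (Int.mul 2 c0))
    (Int.sub (Int.mul 2 (Int.mul y1 (Int.add ct (Int.mul ctt y1)))) (Int.mul 2 c0)))))
where
  /-- the nine comparisons -/
  phi3 (p1 p2 l00 l10 l01 l11 e0 e1 e2 f0 f1 f2 : ℤ) : Bool :=
    ile (Int.add e0 f0) (Int.mul 2 (Int.mul l00 (Int.add p1 (Int.mul p2 l00)))) &&
    (ile (Int.add e1 f0) (Int.add (Int.mul p1 (Int.add l00 l10))
      (Int.mul 2 (Int.mul p2 (Int.mul l00 l10)))) &&
    (ile (Int.add e2 f0) (Int.mul 2 (Int.mul l10 (Int.add p1 (Int.mul p2 l10)))) &&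
    (ile (Int.add e0 f1) (Int.add (Int.mul p1 (Int.add l00 l01))
      (Int.mul 2 (Int.mul p2 (Int.mul l00 l01)))) &&
    (ile (Int.add e1 f1) (Int.add (Int.mul p1 (Int.add l00 l11))
      (Int.mul p2 (Int.add (Int.mul l00 l11) (Int.mul l10 l01)))) &&
    (ile (Int.add e2 f1) (Int.add (Int.mul p1 (Int.add l10 l11))
      (Int.mul 2 (Int.mul p2 (Int.mul l10 l11)))) &&
    (ile (Int.add e0 f2) (Int.mul 2 (Int.mul l01 (Int.add p1 (Int.mul p2 l01)))) &&
    (ile (Int.add e1 f2) (Int.add (Int.mul p1 (Int.add l01 l11))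
      (Int.mul 2 (Int.mul p2 (Int.mul l01 l11)))) &&
    ile (Int.add e2 f2) (Int.mul 2 (Int.mul l11 (Int.add p1 (Int.mul p2 l11)))))))))))

/-- `N³`, `N²`, `N⁴` -/
def N3 : ℤ := 1000000000000000000
def N2 : ℤ := 1000000000000
def N4 : ℤ := 1000000000000000000000000

def lin (a b c x y : ℤ) : ℤ := Int.sub (Int.add (Int.mul a x) (Int.mul b y)) (Int.mul c 1000000)

def phi (P : Po) (a b c x0 x1 y0 y1 : ℤ) : Bool :=
  phi2 (Int.mul P.cs N3) (Int.mul P.ct N3) (Int.mul P.css N2) (Int.mul P.ctt N2) (Int.mul P.c0 N4)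
    (Int.mul P.p1 N2) P.p2 x0 x1 y0 y1 (lin a b c x0 y0) (lin a b c x1 y0) (lin a b c x0 y1)
    (lin a b c x1 y1)

@[simp] lemma im (a b : ℤ) : Int.mul a b = a * b := rfl
@[simp] lemma ia (a b : ℤ) : Int.add a b = a + b := rfl
@[simp] lemma is (a b : ℤ) : Int.sub a b = a - b := rfl

/-- a real number in an interval with integer end points is a convex combination -/
lemma exists_weight {x x0 x1 : ℝ} (h0 : x0 ≤ x) (h1 : x ≤ x1) :
    ∃ μ : ℝ, 0 ≤ μ ∧ μ ≤ 1 ∧ x = (1 - μ) * x0 + μ * x1 := by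
  rcases eq_or_lt_of_le (h0.trans h1) with h | h
  · exact ⟨0, le_rfl, zero_le_one, by linarith⟩
  · refine ⟨(x - x0) / (x1 - x0), div_nonneg (by linarith) (by linarith), ?_, ?_⟩
    · rw [div_le_one (by linarith)]; linarith
    · field_simp
      ring

theorem phi_sound {P : Po} {a b c : ℤ} {x0 x1 y0 y1 : ℤ} (h : phi P a b c x0 x1 y0 y1 = true)
    {s t : ℝ} (hs0 : (x0 : ℝ) ≤ s * 1000000) (hs1 : s * 1000000 ≤ x1)
    (ht0 : (y0 : ℝ) ≤ t * 1000000) (ht1 : t * 1000000 ≤ y1) :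
    P.val s t ((a * s + b * t - c) / 1000000) ≤ 0 ∧
      -(3 / 10) ≤ ((a : ℝ) * s + b * t - c) / 1000000 := by
  obtain ⟨μ, hμ0, hμ1, hμ⟩ := exists_weight hs0 hs1
  obtain ⟨ν, hν0, hν1, hν⟩ := exists_weight ht0 ht1
  unfold phi phi2 phi2.phi3 lin N2 N3 N4 at h
  simp only [Bool.and_eq_true, IA.ile_iff, im, ia, is] at h
  obtain ⟨g00, g10, g01, g11, h00, h10, h20, h01, h11, h21, h02, h12, h22⟩ := h
  have G00 : ((-300000000000 : ℤ) : ℝ) ≤ ((a * x0 + b * y0 - c * 1000000 : ℤ) : ℝ) := by exact_mod_cast g00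
  have G10 : ((-300000000000 : ℤ) : ℝ) ≤ ((a * x1 + b * y0 - c * 1000000 : ℤ) : ℝ) := by exact_mod_cast g10
  have G01 : ((-300000000000 : ℤ) : ℝ) ≤ ((a * x0 + b * y1 - c * 1000000 : ℤ) : ℝ) := by exact_mod_cast g01
  have G11 : ((-300000000000 : ℤ) : ℝ) ≤ ((a * x1 + b * y1 - c * 1000000 : ℤ) : ℝ) := by exact_mod_cast g11
  have es : s = ((1 - μ) * x0 + μ * x1) / 1000000 := by
    rw [eq_div_iff (by norm_num)]; exact hμ
  have et : t = ((1 - ν) * y0 + ν * y1) / 1000000 := by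
    rw [eq_div_iff (by norm_num)]; exact hν
  have m1 : 0 ≤ 1 - μ := by linarith
  have n1 : 0 ≤ 1 - ν := by linarith
  have key := bern (cs := P.cs * 1000000000000000000) (ct := P.ct * 1000000000000000000)
    (css := P.css * 1000000000000) (ctt := P.ctt * 1000000000000)
    (c0 := P.c0 * 1000000000000000000000000) (p1 := P.p1 * 1000000000000) (p2 := P.p2)
    (x0 := x0) (x1 := x1) (y0 := y0) (y1 := y1) (l00 := a * x0 + b * y0 - c * 1000000)
    (l10 := a * x1 + b * y0 - c * 1000000) (l01 := a * x0 + b * y1 - c * 1000000)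
    (l11 := a * x1 + b * y1 - c * 1000000) (μ := μ) (ν := ν) (by ring) hμ0 hμ1 hν0 hν1
    (by have : ((_ : ℤ) : ℝ) ≤ ((_ : ℤ) : ℝ) := Int.cast_le.mpr h00
        push_cast at this; linarith)
    (by have : ((_ : ℤ) : ℝ) ≤ ((_ : ℤ) : ℝ) := Int.cast_le.mpr h10
        push_cast at this; linarith)
    (by have : ((_ : ℤ) : ℝ) ≤ ((_ : ℤ) : ℝ) := Int.cast_le.mpr h20
        push_cast at this; linarith)
    (by have : ((_ : ℤ) : ℝ) ≤ ((_ : ℤ) : ℝ) := Int.cast_le.mpr h01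
        push_cast at this; linarith)
    (by have : ((_ : ℤ) : ℝ) ≤ ((_ : ℤ) : ℝ) := Int.cast_le.mpr h11
        push_cast at this; linarith)
    (by have : ((_ : ℤ) : ℝ) ≤ ((_ : ℤ) : ℝ) := Int.cast_le.mpr h21
        push_cast at this; linarith)
    (by have : ((_ : ℤ) : ℝ) ≤ ((_ : ℤ) : ℝ) := Int.cast_le.mpr h02
        push_cast at this; linarith)
    (by have : ((_ : ℤ) : ℝ) ≤ ((_ : ℤ) : ℝ) := Int.cast_le.mpr h12
        push_cast at this; linarith)
    (by have : ((_ : ℤ) : ℝ) ≤ ((_ : ℤ) : ℝ) := Int.cast_le.mpr h22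
        push_cast at this; linarith)
  have eL : (1 - μ) * ((1 - ν) * ((a : ℝ) * x0 + b * y0 - c * 1000000)
      + ν * (a * x0 + b * y1 - c * 1000000))
      + μ * ((1 - ν) * (a * x1 + b * y0 - c * 1000000) + ν * (a * x1 + b * y1 - c * 1000000))
      = (a * s + b * t - c) * 1000000 := by
    have : (a * s + b * t - c) * 1000000 = a * (s * 1000000) + b * (t * 1000000) - c * 1000000 := by
      ring
    rw [this, hμ, hν]; ring
  constructor
  · rw [eL, ← hμ, ← hν] at key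
    unfold Po.val
    have e : ((P.cs : ℝ) * s + P.ct * t + P.css * s ^ 2 + P.ctt * t ^ 2 - P.c0
        - P.p1 * ((a * s + b * t - c) / 1000000) - P.p2 * ((a * s + b * t - c) / 1000000) ^ 2)
        * 1000000000000000000000000 ≤ 0 := by
      have e1 : ((P.cs : ℝ) * s + P.ct * t + P.css * s ^ 2 + P.ctt * t ^ 2 - P.c0
        - P.p1 * ((a * s + b * t - c) / 1000000) - P.p2 * ((a * s + b * t - c) / 1000000) ^ 2)
        * 1000000000000000000000000
        = P.cs * 1000000000000000000 * (s * 1000000) + P.ct * 1000000000000000000 * (t * 1000000)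
          + P.css * 1000000000000 * (s * 1000000) ^ 2 + P.ctt * 1000000000000 * (t * 1000000) ^ 2
          - (P.c0 * 1000000000000000000000000
            + P.p1 * 1000000000000 * ((a * s + b * t - c) * 1000000)
            + P.p2 * ((a * s + b * t - c) * 1000000) ^ 2) := by ring
      rw [e1]; linarith
    nlinarith
  · have h1 := mul_nonneg (mul_nonneg m1 n1) (sub_nonneg.mpr G00)
    have h2 := mul_nonneg (mul_nonneg hμ0 n1) (sub_nonneg.mpr G10)
    have h3 := mul_nonneg (mul_nonneg m1 hν0) (sub_nonneg.mpr G01)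
    have h4 := mul_nonneg (mul_nonneg hμ0 hν0) (sub_nonneg.mpr G11)
    push_cast at h1 h2 h3 h4
    have h5 : -300000000000 ≤ (a * s + b * t - c) * 1000000 := by
      rw [← eL]; linarith
    rw [le_div_iff₀ (by norm_num)]
    linarith

/-! ### the box -/

/-- the constants of a box, in units `10⁻⁶`: `h ∈ [H0, H1]`; `X0, X1 ≥` tangent of `√` at `xb`;
`Q0, Q1 ≥` tangent of `√` at `rb`, at `1 - H0`, `1 - H1`; `R0, R1 ≤ √(1-H0), √(1-H1)` -/
structure Bx where
  H0 : ℕ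
  H1 : ℕ
  xb : ℕ
  X0 : ℕ
  X1 : ℕ
  rb : ℕ
  Q0 : ℕ
  Q1 : ℕ
  R0 : ℕ
  R1 : ℕ

def Bx.ok (B : Bx) : Bool :=
  Nat.ble B.H0 1000000 && (Nat.ble B.H1 1000000 && (Nat.ble 1 B.xb && (Nat.ble 1 B.rb &&
  (Nat.ble (B.xb ^ 2 + 1000000 * B.H0) (2 * B.xb * B.X0) &&
  (Nat.ble (B.xb ^ 2 + 1000000 * B.H1) (2 * B.xb * B.X1) &&
  (Nat.ble (B.rb ^ 2 + 1000000 * 1000000) (2 * B.rb * B.Q0 + 1000000 * B.H0) &&
  (Nat.ble (B.rb ^ 2 + 1000000 * 1000000) (2 * B.rb * B.Q1 + 1000000 * B.H1) &&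
  (Nat.ble (B.R0 ^ 2 + 1000000 * B.H0) (1000000 * 1000000) &&
  Nat.ble (B.R1 ^ 2 + 1000000 * B.H1) (1000000 * 1000000)))))))))

/-- coefficients of the affine function at one end -/
def coa (H X r lam A : ℕ) : ℤ :=
  fdv (Int.subNatNat (1000000 * (1000000 + lam)) (1000000 * r + X * A)) (2 * (1000000 + H))
def cob (H X r lam B : ℕ) : ℤ :=
  fdv (Int.subNatNat (1000000 * (1000000 + lam) + 1000000 * r) (X * B)) (2 * (1000000 + H))
def coc (H lam : ℕ) : ℤ :=
  Int.ofNat ((lam * (1000000 - H) + (2 * (1000000 + H) - 1)) / (2 * (1000000 + H)))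

/-- the affine function is a lower bound -/
lemma co_le {H X r lam A B : ℕ} (hH : H ≤ 1000000) {s t : ℝ} (hs : 0 ≤ s) (ht : 0 ≤ t) :
    ((coa H X r lam A : ℝ) * s + cob H X r lam B * t - coc H lam) / 1000000 ≤
      Geo.aff (H / 1000000) (X / 1000000) (r / 1000000) (lam / 1000000) (A / 1000000) (B / 1000000)
        s t / (2 * (1 + H / 1000000)) := by
  have hD : 0 < 2 * (1000000 + H) := by positivity
  have hDR : (0 : ℝ) < ((2 * (1000000 + H) : ℕ) : ℝ) := by exact_mod_cast hD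
  have h1 := fdv_le (Int.subNatNat (1000000 * (1000000 + lam)) (1000000 * r + X * A))
    (2 * (1000000 + H)) hD
  have h2 := fdv_le (Int.subNatNat (1000000 * (1000000 + lam) + 1000000 * r) (X * B))
    (2 * (1000000 + H)) hD
  have h3 : ((lam * (1000000 - H) : ℕ) : ℝ) ≤ (coc H lam : ℝ) * ((2 * (1000000 + H) : ℕ) : ℝ) := by
    have h4 : lam * (1000000 - H) ≤
        (lam * (1000000 - H) + (2 * (1000000 + H) - 1)) / (2 * (1000000 + H)) * (2 * (1000000 + H)) := by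
      have h5 := Nat.lt_div_mul_add hD (a := lam * (1000000 - H) + (2 * (1000000 + H) - 1))
      omega
    have e : (coc H lam : ℝ) =
        (((lam * (1000000 - H) + (2 * (1000000 + H) - 1)) / (2 * (1000000 + H)) : ℕ) : ℝ) := by
      unfold coc
      rw [Int.ofNat_eq_natCast, Int.cast_natCast]
    rw [e, ← Nat.cast_mul]
    exact Nat.cast_le.mpr h4
  have ea : coa H X r lam A = fdv (Int.subNatNat (1000000 * (1000000 + lam)) (1000000 * r + X * A))
    (2 * (1000000 + H)) := rfl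
  have eb : cob H X r lam B = fdv (Int.subNatNat (1000000 * (1000000 + lam) + 1000000 * r) (X * B))
    (2 * (1000000 + H)) := rfl
  rw [← ea, Int.subNatNat_eq_coe] at h1
  rw [← eb, Int.subNatNat_eq_coe] at h2
  rw [Nat.cast_mul, Nat.cast_sub hH] at h3
  push_cast at h1 h2 h3
  have hH0 : (0 : ℝ) ≤ H := Nat.cast_nonneg H
  rw [div_le_div_iff₀ (by norm_num) (by positivity)]
  unfold Geo.aff
  have h1' := mul_le_mul_of_nonneg_right h1 hs
  have h2' := mul_le_mul_of_nonneg_right h2 ht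
  nlinarith

def lamOK (lam A B : ℕ) : Bool :=
  Nat.ble ((1000000 - lam) ^ 2 + (lam - 1000000) ^ 2) (A * B)

lemma sub_sq (N lam : ℕ) : (((N - lam) ^ 2 + (lam - N) ^ 2 : ℕ) : ℝ) = ((N : ℝ) - lam) ^ 2 := by
  rcases le_total lam N with h | h
  · rw [Nat.sub_eq_zero_of_le h]
    push_cast [Nat.cast_sub h]
    ring
  · rw [Nat.sub_eq_zero_of_le h]
    push_cast [Nat.cast_sub h]
    ring

lemma lamOK_real {lam a b : ℕ} (hl : lamOK lam a b = true) :
    (1000000 - (lam : ℝ)) ^ 2 ≤ a * b := by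
  unfold lamOK at hl
  have l2 := Nat.cast_le (α := ℝ).mpr (Nat.le_of_ble_eq_true hl)
  rw [sub_sq, Nat.cast_mul] at l2
  exact_mod_cast l2

/-- one of the two affine functions is a lower bound of `u`, `s ≤ t` -/
theorem Bx.ends_ge {B : Bx} (hB : B.ok = true) {lam a b : ℕ} (hl : lamOK lam a b = true)
    {h s t c u : ℝ} (g : Geo h s t c u) (h0 : (B.H0 : ℝ) / 1000000 ≤ h) (h1 : h ≤ (B.H1 : ℝ) / 1000000)
    (hst : s ≤ t) :
    ((coa B.H0 B.X0 B.R0 lam a : ℝ) * s + cob B.H0 B.X0 B.R0 lam b * t - coc B.H0 lam) / 1000000 ≤ u ∨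
    ((coa B.H1 B.X1 B.R1 lam a : ℝ) * s + cob B.H1 B.X1 B.R1 lam b * t - coc B.H1 lam) / 1000000 ≤ u
    := by
  unfold Bx.ok at hB
  simp only [Bool.and_eq_true] at hB
  obtain ⟨q1, q2, q3, q4, q5, q6, q7, q8, q9, q10⟩ := hB
  have p1 : B.H0 ≤ 1000000 := Nat.le_of_ble_eq_true q1
  have p2 : B.H1 ≤ 1000000 := Nat.le_of_ble_eq_true q2
  have p3 : 1 ≤ B.xb := Nat.le_of_ble_eq_true q3
  have p5 : ((B.xb ^ 2 + 1000000 * B.H0 : ℕ) : ℝ) ≤ ((2 * B.xb * B.X0 : ℕ) : ℝ) :=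
    Nat.cast_le.mpr (Nat.le_of_ble_eq_true q5)
  have p6 : ((B.xb ^ 2 + 1000000 * B.H1 : ℕ) : ℝ) ≤ ((2 * B.xb * B.X1 : ℕ) : ℝ) :=
    Nat.cast_le.mpr (Nat.le_of_ble_eq_true q6)
  have p9 : ((B.R0 ^ 2 + 1000000 * B.H0 : ℕ) : ℝ) ≤ ((1000000 * 1000000 : ℕ) : ℝ) :=
    Nat.cast_le.mpr (Nat.le_of_ble_eq_true q9)
  have p10 : ((B.R1 ^ 2 + 1000000 * B.H1 : ℕ) : ℝ) ≤ ((1000000 * 1000000 : ℕ) : ℝ) :=
    Nat.cast_le.mpr (Nat.le_of_ble_eq_true q10)
  push_cast at p5 p6 p9 p10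
  have hxb : (0 : ℝ) < B.xb := by exact_mod_cast p3
  have l2 := lamOK_real hl
  have e := Geo.ends_ge g (l := lam / 1000000) (A := a / 1000000) (B := b / 1000000) (by positivity)
    (by positivity) (by positivity)
    (by
      have : (1 - (lam : ℝ) / 1000000) ^ 2 = (1000000 - lam) ^ 2 / 1000000000000 := by ring
      rw [this, div_mul_div_comm]
      exact (div_le_div_iff_of_pos_right (by norm_num)).mpr l2 |>.trans_eq (by norm_num))
    (xb := B.xb / 1000000) (x0 := B.X0 / 1000000) (x1 := B.X1 / 1000000) (r0 := B.R0 / 1000000)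
    (r1 := B.R1 / 1000000) h0 h1 (by positivity)
    (by linarith) (by linarith) (by linarith) (by linarith) hst
  rcases e with e | e
  · left
    refine (co_le p1 g.s0 g.t0).trans ?_
    rw [div_le_iff₀ (by positivity)]
    linarith
  · right
    refine (co_le p2 g.s0 g.t0).trans ?_
    rw [div_le_iff₀ (by positivity)]
    linarith

/-- one of the two affine functions is a lower bound of `u`, `t ≤ s` -/
theorem Bx.ends_le {B : Bx} (hB : B.ok = true) {lam a b : ℕ} (hl : lamOK lam a b = true)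
    {h s t c u : ℝ} (g : Geo h s t c u) (h0 : (B.H0 : ℝ) / 1000000 ≤ h) (h1 : h ≤ (B.H1 : ℝ) / 1000000)
    (hst : t ≤ s) :
    ((coa B.H0 B.X0 B.Q0 lam a : ℝ) * s + cob B.H0 B.X0 B.Q0 lam b * t - coc B.H0 lam) / 1000000 ≤ u ∨
    ((coa B.H1 B.X1 B.Q1 lam a : ℝ) * s + cob B.H1 B.X1 B.Q1 lam b * t - coc B.H1 lam) / 1000000 ≤ u
    := by
  unfold Bx.ok at hB
  simp only [Bool.and_eq_true] at hB
  obtain ⟨q1, q2, q3, q4, q5, q6, q7, q8, q9, q10⟩ := hB
  have p1 : B.H0 ≤ 1000000 := Nat.le_of_ble_eq_true q1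
  have p2 : B.H1 ≤ 1000000 := Nat.le_of_ble_eq_true q2
  have p3 : 1 ≤ B.xb := Nat.le_of_ble_eq_true q3
  have p4 : 1 ≤ B.rb := Nat.le_of_ble_eq_true q4
  have p5 : ((B.xb ^ 2 + 1000000 * B.H0 : ℕ) : ℝ) ≤ ((2 * B.xb * B.X0 : ℕ) : ℝ) :=
    Nat.cast_le.mpr (Nat.le_of_ble_eq_true q5)
  have p6 : ((B.xb ^ 2 + 1000000 * B.H1 : ℕ) : ℝ) ≤ ((2 * B.xb * B.X1 : ℕ) : ℝ) :=
    Nat.cast_le.mpr (Nat.le_of_ble_eq_true q6)
  have p7 : ((B.rb ^ 2 + 1000000 * 1000000 : ℕ) : ℝ) ≤ ((2 * B.rb * B.Q0 + 1000000 * B.H0 : ℕ) : ℝ) :=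
    Nat.cast_le.mpr (Nat.le_of_ble_eq_true q7)
  have p8 : ((B.rb ^ 2 + 1000000 * 1000000 : ℕ) : ℝ) ≤ ((2 * B.rb * B.Q1 + 1000000 * B.H1 : ℕ) : ℝ) :=
    Nat.cast_le.mpr (Nat.le_of_ble_eq_true q8)
  push_cast at p5 p6 p7 p8
  have hxb : (0 : ℝ) < B.xb := by exact_mod_cast p3
  have hrb : (0 : ℝ) < B.rb := by exact_mod_cast p4
  have l2 := lamOK_real hl
  have e := Geo.ends_le g (l := lam / 1000000) (A := a / 1000000) (B := b / 1000000) (by positivity)
    (by positivity) (by positivity)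
    (by
      have : (1 - (lam : ℝ) / 1000000) ^ 2 = (1000000 - lam) ^ 2 / 1000000000000 := by ring
      rw [this, div_mul_div_comm]
      exact (div_le_div_iff_of_pos_right (by norm_num)).mpr l2 |>.trans_eq (by norm_num))
    (xb := B.xb / 1000000) (x0 := B.X0 / 1000000) (x1 := B.X1 / 1000000) (rb := B.rb / 1000000)
    (q0 := B.Q0 / 1000000) (q1 := B.Q1 / 1000000) h0 h1 (by positivity)
    (by linarith) (by linarith) (by positivity) (by linarith) (by linarith) hst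
  rcases e with e | e
  · left
    refine (co_le p1 g.s0 g.t0).trans ?_
    rw [div_le_iff₀ (by positivity)]
    linarith
  · right
    refine (co_le p2 g.s0 g.t0).trans ?_
    rw [div_le_iff₀ (by positivity)]
    linarith

/-! ### the trees -/

/-- subdivision of a rectangle: `aff l A B`: the affine bounds with these parameters; `inf A B`: not
feasible; `pol`: the polynomial without `u` -/
inductive QT where
  | sx (c : ℕ) (l r : QT)
  | sy (c : ℕ) (l r : QT)
  | aff (lam A B : ℕ)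
  | inf (A B : ℕ)
  | pol

/-- what is to be checked: `Pa` with the affine bounds (if `al`), escape if the bound is `≥ 9/20`
(if `esc`), `Pge`, `Ple` without `u` for `s ≤ t`, `t ≤ s` -/
structure Md where
  al : Bool
  esc : Bool
  Pa : Po
  Pge : Po
  Ple : Po

/-- the affine function is at least `9/20` -/
def hi (a b c x0 x1 y0 y1 : ℤ) : Bool :=
  ile 450000000000 (lin a b c x0 y0) && (ile 450000000000 (lin a b c x1 y0) &&
  (ile 450000000000 (lin a b c x0 y1) && ile 450000000000 (lin a b c x1 y1)))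

def one (M : Md) (a b c x0 x1 y0 y1 : ℤ) : Bool :=
  cond (phi M.Pa a b c x0 x1 y0 y1) true (cond M.esc (hi a b c x0 x1 y0 y1) false)

/-- affine bounds at both ends, `s ≤ t` -/
def fge (B : Bx) (M : Md) (lam A Bq : ℕ) (x0 x1 y0 y1 : ℤ) : Bool :=
  one M (coa B.H0 B.X0 B.R0 lam A) (cob B.H0 B.X0 B.R0 lam Bq) (coc B.H0 lam) x0 x1 y0 y1 &&
  one M (coa B.H1 B.X1 B.R1 lam A) (cob B.H1 B.X1 B.R1 lam Bq) (coc B.H1 lam) x0 x1 y0 y1

/-- affine bounds at both ends, `t ≤ s` -/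
def fle (B : Bx) (M : Md) (lam A Bq : ℕ) (x0 x1 y0 y1 : ℤ) : Bool :=
  one M (coa B.H0 B.X0 B.Q0 lam A) (cob B.H0 B.X0 B.Q0 lam Bq) (coc B.H0 lam) x0 x1 y0 y1 &&
  one M (coa B.H1 B.X1 B.Q1 lam A) (cob B.H1 B.X1 B.Q1 lam Bq) (coc B.H1 lam) x0 x1 y0 y1

/-- leaf with affine bounds -/
def fa (B : Bx) (M : Md) (lam A Bq x0 x1 y0 y1 : ℕ) : Bool :=
  M.al && (lamOK lam A Bq &&
  cond (Nat.ble x1 y0)
    (fge B M lam A Bq (Int.ofNat x0) (Int.ofNat x1) (Int.ofNat y0) (Int.ofNat y1))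
    (cond (Nat.ble y1 x0)
      (fle B M lam A Bq (Int.ofNat x0) (Int.ofNat x1) (Int.ofNat y0) (Int.ofNat y1))
      (fge B M lam A Bq (Int.ofNat x0) (Int.ofNat x1) (Int.ofNat y0) (Int.ofNat y1) &&
        fle B M lam A Bq (Int.ofNat x0) (Int.ofNat x1) (Int.ofNat y0) (Int.ofNat y1))))

/-- corner of an infeasible rectangle -/
def infc (B : Bx) (A Bq x y : ℕ) : Bool :=
  Nat.blt (1000000000000 * (1000000 - B.H0) + B.X0 * (A * x + Bq * y)) (1000000000000 * (x + y))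

/-- infeasible leaf -/
def fi (B : Bx) (A Bq x0 x1 y0 y1 : ℕ) : Bool :=
  Nat.ble 1000000000000 (A * Bq) && (Nat.ble (x1 * y1) (1000000 * B.H0) &&
  (infc B A Bq x0 y0 && (infc B A Bq x1 y0 && (infc B A Bq x0 y1 && infc B A Bq x1 y1))))

/-- leaf without `u` -/
def fp (M : Md) (x0 x1 y0 y1 : ℕ) : Bool :=
  cond (Nat.ble x1 y0)
    (phi M.Pge 0 0 0 (Int.ofNat x0) (Int.ofNat x1) (Int.ofNat y0) (Int.ofNat y1))
    (cond (Nat.ble y1 x0)
      (phi M.Ple 0 0 0 (Int.ofNat x0) (Int.ofNat x1) (Int.ofNat y0) (Int.ofNat y1))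
      (phi M.Pge 0 0 0 (Int.ofNat x0) (Int.ofNat x1) (Int.ofNat y0) (Int.ofNat y1) &&
        phi M.Ple 0 0 0 (Int.ofNat x0) (Int.ofNat x1) (Int.ofNat y0) (Int.ofNat y1)))

def qchk (B : Bx) (M : Md) : QT → ℕ → ℕ → ℕ → ℕ → Bool
  | .sx c l r, x0, x1, y0, y1 => cond (qchk B M l x0 c y0 y1) (qchk B M r c x1 y0 y1) false
  | .sy c l r, x0, x1, y0, y1 => cond (qchk B M l x0 x1 y0 c) (qchk B M r x0 x1 c y1) false
  | .aff lam A Bq, x0, x1, y0, y1 => fa B M lam A Bq x0 x1 y0 y1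
  | .inf A Bq, x0, x1, y0, y1 => fi B A Bq x0 x1 y0 y1
  | .pol, x0, x1, y0, y1 => fp M x0 x1 y0 y1

/-- the meaning of a mode at a point, for the conclusion `G` -/
structure Mode (M : Md) (s t u : ℝ) (G : Prop) : Prop where
  a : M.al = true → ∀ v : ℝ, -(3 / 10) ≤ v → v ≤ u → M.Pa.val s t v ≤ 0 → G
  e : M.esc = true → 9 / 20 ≤ u → G
  ge : s ≤ t → M.Pge.val s t 0 ≤ 0 → G
  le : t ≤ s → M.Ple.val s t 0 ≤ 0 → G

lemma cond_true_left {a b : Bool} (h : cond a true b = true) : a = true ∨ b = true := by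
  cases a <;> simp_all

lemma cond_and {a b : Bool} (h : cond a b false = true) : a = true ∧ b = true := by
  cases a <;> simp_all

lemma hi_sound {a b c x0 x1 y0 y1 : ℤ} (h : hi a b c x0 x1 y0 y1 = true) {s t : ℝ}
    (hs0 : (x0 : ℝ) ≤ s * 1000000) (hs1 : s * 1000000 ≤ x1)
    (ht0 : (y0 : ℝ) ≤ t * 1000000) (ht1 : t * 1000000 ≤ y1) :
    9 / 20 ≤ ((a : ℝ) * s + b * t - c) / 1000000 := by
  obtain ⟨μ, hμ0, hμ1, hμ⟩ := exists_weight hs0 hs1
  obtain ⟨ν, hν0, hν1, hν⟩ := exists_weight ht0 ht1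
  unfold hi lin at h
  simp only [Bool.and_eq_true, IA.ile_iff, im, ia, is] at h
  obtain ⟨g00, g10, g01, g11⟩ := h
  have G00 : ((450000000000 : ℤ) : ℝ) ≤ ((a * x0 + b * y0 - c * 1000000 : ℤ) : ℝ) := by exact_mod_cast g00
  have G10 : ((450000000000 : ℤ) : ℝ) ≤ ((a * x1 + b * y0 - c * 1000000 : ℤ) : ℝ) := by exact_mod_cast g10
  have G01 : ((450000000000 : ℤ) : ℝ) ≤ ((a * x0 + b * y1 - c * 1000000 : ℤ) : ℝ) := by exact_mod_cast g01
  have G11 : ((450000000000 : ℤ) : ℝ) ≤ ((a * x1 + b * y1 - c * 1000000 : ℤ) : ℝ) := by exact_mod_cast g11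
  have m1 : 0 ≤ 1 - μ := by linarith
  have n1 : 0 ≤ 1 - ν := by linarith
  have h1 := mul_nonneg (mul_nonneg m1 n1) (sub_nonneg.mpr G00)
  have h2 := mul_nonneg (mul_nonneg hμ0 n1) (sub_nonneg.mpr G10)
  have h3 := mul_nonneg (mul_nonneg m1 hν0) (sub_nonneg.mpr G01)
  have h4 := mul_nonneg (mul_nonneg hμ0 hν0) (sub_nonneg.mpr G11)
  push_cast at h1 h2 h3 h4
  have e : (a * s + b * t - c) * 1000000 = a * ((1 - μ) * x0 + μ * x1)
      + b * ((1 - ν) * y0 + ν * y1) - c * 1000000 := by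
    rw [← hμ, ← hν]; ring
  rw [le_div_iff₀ (by norm_num)]
  nlinarith

lemma one_sound {M : Md} {a b c x0 x1 y0 y1 : ℤ} (h : one M a b c x0 x1 y0 y1 = true) {s t u : ℝ}
    {G : Prop} (hM : Mode M s t u G) (hal : M.al = true)
    (hs0 : (x0 : ℝ) ≤ s * 1000000) (hs1 : s * 1000000 ≤ x1)
    (ht0 : (y0 : ℝ) ≤ t * 1000000) (ht1 : t * 1000000 ≤ y1)
    (hv : ((a : ℝ) * s + b * t - c) / 1000000 ≤ u) : G := by
  unfold one at h
  rcases cond_true_left h with h | h
  · obtain ⟨h1, h2⟩ := phi_sound h hs0 hs1 ht0 ht1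
    exact hM.a hal _ h2 hv h1
  · obtain ⟨h1, h2⟩ := cond_and h
    exact hM.e h1 ((hi_sound h2 hs0 hs1 ht0 ht1).trans hv)

lemma cond_cases {a b c : Bool} (h : cond a b c = true) : a = true ∧ b = true ∨ c = true := by
  cases a <;> simp_all

section

variable {B : Bx} {M : Md} {h s t c u : ℝ} {G : Prop} {x0 x1 y0 y1 : ℤ}

lemma fge_sound (hB : B.ok = true) (g : Geo h s t c u) (h0 : (B.H0 : ℝ) / 1000000 ≤ h)
    (h1 : h ≤ (B.H1 : ℝ) / 1000000) (hM : Mode M s t u G) (hal : M.al = true) {lam A Bq : ℕ}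
    (hl : lamOK lam A Bq = true) (hc : fge B M lam A Bq x0 x1 y0 y1 = true) (hst : s ≤ t)
    (b1 : (x0 : ℝ) ≤ s * 1000000) (b2 : s * 1000000 ≤ x1)
    (b3 : (y0 : ℝ) ≤ t * 1000000) (b4 : t * 1000000 ≤ y1) : G := by
  unfold fge at hc
  simp only [Bool.and_eq_true] at hc
  rcases Bx.ends_ge hB hl g h0 h1 hst with h7 | h7
  · exact one_sound hc.1 hM hal b1 b2 b3 b4 h7
  · exact one_sound hc.2 hM hal b1 b2 b3 b4 h7

lemma fle_sound (hB : B.ok = true) (g : Geo h s t c u) (h0 : (B.H0 : ℝ) / 1000000 ≤ h)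
    (h1 : h ≤ (B.H1 : ℝ) / 1000000) (hM : Mode M s t u G) (hal : M.al = true) {lam A Bq : ℕ}
    (hl : lamOK lam A Bq = true) (hc : fle B M lam A Bq x0 x1 y0 y1 = true) (hst : t ≤ s)
    (b1 : (x0 : ℝ) ≤ s * 1000000) (b2 : s * 1000000 ≤ x1)
    (b3 : (y0 : ℝ) ≤ t * 1000000) (b4 : t * 1000000 ≤ y1) : G := by
  unfold fle at hc
  simp only [Bool.and_eq_true] at hc
  rcases Bx.ends_le hB hl g h0 h1 hst with h7 | h7
  · exact one_sound hc.1 hM hal b1 b2 b3 b4 h7
  · exact one_sound hc.2 hM hal b1 b2 b3 b4 h7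

end

theorem qchk_sound {B : Bx} (hB : B.ok = true) {M : Md} {h s t c u : ℝ} (g : Geo h s t c u)
    (h0 : (B.H0 : ℝ) / 1000000 ≤ h) (h1 : h ≤ (B.H1 : ℝ) / 1000000) {G : Prop}
    (hM : Mode M s t u G) : ∀ (T : QT) (x0 x1 y0 y1 : ℕ), qchk B M T x0 x1 y0 y1 = true →
    (x0 : ℝ) ≤ s * 1000000 → s * 1000000 ≤ x1 → (y0 : ℝ) ≤ t * 1000000 → t * 1000000 ≤ y1 → G := by
  intro T
  induction T with
  | sx d l r ihl ihr =>
    intro x0 x1 y0 y1 hc a1 a2 a3 a4
    simp only [qchk] at hc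
    obtain ⟨c1, c2⟩ := cond_and hc
    rcases le_total (s * 1000000) (d : ℝ) with h2 | h2
    · exact ihl _ _ _ _ c1 a1 h2 a3 a4
    · exact ihr _ _ _ _ c2 h2 a2 a3 a4
  | sy d l r ihl ihr =>
    intro x0 x1 y0 y1 hc a1 a2 a3 a4
    simp only [qchk] at hc
    obtain ⟨c1, c2⟩ := cond_and hc
    rcases le_total (t * 1000000) (d : ℝ) with h2 | h2
    · exact ihl _ _ _ _ c1 a1 a2 a3 h2
    · exact ihr _ _ _ _ c2 a1 a2 h2 a4
  | aff lam A Bq =>
    intro x0 x1 y0 y1 hc a1 a2 a3 a4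
    simp only [qchk, fa, Bool.and_eq_true] at hc
    obtain ⟨c1, c2, c3⟩ := hc
    have b1 : ((Int.ofNat x0 : ℤ) : ℝ) ≤ s * 1000000 := by simpa using a1
    have b2 : s * 1000000 ≤ ((Int.ofNat x1 : ℤ) : ℝ) := by simpa using a2
    have b3 : ((Int.ofNat y0 : ℤ) : ℝ) ≤ t * 1000000 := by simpa using a3
    have b4 : t * 1000000 ≤ ((Int.ofNat y1 : ℤ) : ℝ) := by simpa using a4
    rcases cond_cases c3 with ⟨c4, c5⟩ | c4
    · have h6 : (x1 : ℝ) ≤ y0 := by exact_mod_cast Nat.le_of_ble_eq_true c4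
      exact fge_sound hB g h0 h1 hM c1 c2 c5 (by linarith) b1 b2 b3 b4
    · rcases cond_cases c4 with ⟨c5, c6⟩ | c5
      · have h6 : (y1 : ℝ) ≤ x0 := by exact_mod_cast Nat.le_of_ble_eq_true c5
        exact fle_sound hB g h0 h1 hM c1 c2 c6 (by linarith) b1 b2 b3 b4
      · simp only [Bool.and_eq_true] at c5
        rcases le_total s t with hst | hst
        · exact fge_sound hB g h0 h1 hM c1 c2 c5.1 hst b1 b2 b3 b4
        · exact fle_sound hB g h0 h1 hM c1 c2 c5.2 hst b1 b2 b3 b4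
  | inf A Bq =>
    intro x0 x1 y0 y1 hc a1 a2 a3 a4
    exfalso
    simp only [qchk, fi, Bool.and_eq_true, infc] at hc
    obtain ⟨c1, c2, c3, c4, c5, c6⟩ := hc
    unfold Bx.ok at hB
    simp only [Bool.and_eq_true] at hB
    obtain ⟨q1, -, q3, -, q5, -⟩ := hB
    have p1 : B.H0 ≤ 1000000 := Nat.le_of_ble_eq_true q1
    have p3 : 1 ≤ B.xb := Nat.le_of_ble_eq_true q3
    have hxb : (0 : ℝ) < B.xb := by exact_mod_cast p3
    have p5 : ((B.xb ^ 2 + 1000000 * B.H0 : ℕ) : ℝ) ≤ ((2 * B.xb * B.X0 : ℕ) : ℝ) :=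
      Nat.cast_le.mpr (Nat.le_of_ble_eq_true q5)
    push_cast at p5
    have d1 : (1000000000000 : ℝ) ≤ A * Bq := by exact_mod_cast Nat.le_of_ble_eq_true c1
    have d2 : (x1 : ℝ) * y1 ≤ 1000000 * B.H0 := by exact_mod_cast Nat.le_of_ble_eq_true c2
    have hs0 := g.s0
    have ht0 := g.t0
    have f := g.feas (A := A / 1000000) (B := Bq / 1000000) (h0 := B.H0 / 1000000)
      (x0 := B.X0 / 1000000) (xb := B.xb / 1000000) (by positivity) (by positivity)
      (by rw [div_mul_div_comm, le_div_iff₀ (by norm_num)]; linarith) (by positivity) h0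
      (by
        have h5 : (s * 1000000) * (t * 1000000) ≤ x1 * y1 :=
          mul_le_mul a2 a4 (by positivity) (Nat.cast_nonneg _)
        rw [le_div_iff₀ (by norm_num)]
        linarith)
      (by positivity) (by linarith)
    obtain ⟨μ, hμ0, hμ1, hμ⟩ := exists_weight a1 a2
    obtain ⟨ν, hν0, hν1, hν⟩ := exists_weight a3 a4
    have m1 : 0 ≤ 1 - μ := by linarith
    have n1 : 0 ≤ 1 - ν := by linarith
    have corner : ∀ {x y : ℕ}, Nat.blt (1000000000000 * (1000000 - B.H0) + B.X0 * (A * x + Bq * y))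
        (1000000000000 * (x + y)) = true → (0 : ℝ) ≤ 1000000000000 * (x + y)
        - (1000000000000 * (1000000 - B.H0) + B.X0 * (A * x + Bq * y)) - 1 := by
      intro x y hxy
      have h5 : 1000000000000 * (1000000 - B.H0) + B.X0 * (A * x + Bq * y) + 1
        ≤ 1000000000000 * (x + y) := Nat.le_of_ble_eq_true hxy
      have h6 : ((1000000000000 * (1000000 - B.H0) + B.X0 * (A * x + Bq * y) + 1 : ℕ) : ℝ)
        ≤ ((1000000000000 * (x + y) : ℕ) : ℝ) := Nat.cast_le.mpr h5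
      rw [Nat.cast_add, Nat.cast_add, Nat.cast_mul, Nat.cast_sub p1] at h6
      push_cast at h6
      linarith
    have k1 := mul_nonneg (mul_nonneg m1 n1) (corner c3)
    have k2 := mul_nonneg (mul_nonneg hμ0 n1) (corner c4)
    have k3 := mul_nonneg (mul_nonneg m1 hν0) (corner c5)
    have k4 := mul_nonneg (mul_nonneg hμ0 hν0) (corner c6)
    have e : (0 : ℝ) ≤ 1000000000000 * (s * 1000000 + t * 1000000)
        - (1000000000000 * (1000000 - B.H0) + B.X0 * (A * (s * 1000000) + Bq * (t * 1000000))) - 1 := by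
      rw [hμ, hν]
      linarith
    linarith
  | pol =>
    intro x0 x1 y0 y1 hc a1 a2 a3 a4
    simp only [qchk, fp] at hc
    have b1 : ((Int.ofNat x0 : ℤ) : ℝ) ≤ s * 1000000 := by simpa using a1
    have b2 : s * 1000000 ≤ ((Int.ofNat x1 : ℤ) : ℝ) := by simpa using a2
    have b3 : ((Int.ofNat y0 : ℤ) : ℝ) ≤ t * 1000000 := by simpa using a3
    have b4 : t * 1000000 ≤ ((Int.ofNat y1 : ℤ) : ℝ) := by simpa using a4
    have zero : ∀ {P : Po}, P.val s t (((0 : ℤ) * s + (0 : ℤ) * t - (0 : ℤ)) / 1000000) ≤ 0 →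
        P.val s t 0 ≤ 0 := by
      intro P hP
      simpa using hP
    rcases cond_cases hc with ⟨c4, c5⟩ | c4
    · have h6 : (x1 : ℝ) ≤ y0 := by exact_mod_cast Nat.le_of_ble_eq_true c4
      exact hM.ge (by linarith) (zero (phi_sound c5 b1 b2 b3 b4).1)
    · rcases cond_cases c4 with ⟨c5, c6⟩ | c5
      · have h6 : (y1 : ℝ) ≤ x0 := by exact_mod_cast Nat.le_of_ble_eq_true c5
        exact hM.le (by linarith) (zero (phi_sound c6 b1 b2 b3 b4).1)
      · simp only [Bool.and_eq_true] at c5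
        rcases le_total s t with hst | hst
        · exact hM.ge hst (zero (phi_sound c5.1 b1 b2 b3 b4).1)
        · exact hM.le hst (zero (phi_sound c5.2 b1 b2 b3 b4).1)

/-! ### the cones at the origin -/

inductive CT where
  | sp (c : ℕ) (l r : CT)
  | aff (A B : ℕ)
  | pol

/-- the check on `z ∈ [z0, z1]`, `y ∈ [0, T]` of
`cv z + cc - p1 l + y (cvv z² + ccc - p2 l²) ≤ 0`, `l = lv z + lc` -/
def cone (cv cvv cc ccc p1 p2 lv lc T z0 z1 : ℤ) : Bool :=
  cone2 (Int.add (Int.mul lv z0) (Int.mul 1000000 lc)) (Int.add (Int.mul lv z1) (Int.mul 1000000 lc))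
where
  /-- with the values of `l` -/
  cone2 (l0 l1 : ℤ) : Bool :=
    ile T 300000 && (ile (-1000000000000) l0 && (ile (-1000000000000) l1 &&
    cone3 l0 l1 (Int.sub (Int.mul 1000000 (Int.add (Int.mul cv z0) (Int.mul 1000000 cc))) (Int.mul p1 l0))
      (Int.sub (Int.mul 1000000 (Int.add (Int.mul cv z1) (Int.mul 1000000 cc))) (Int.mul p1 l1))))
  /-- the five comparisons -/
  cone3 (l0 l1 e0 e1 : ℤ) : Bool :=
    ile e0 0 && (ile e1 0 &&
    (ile (Int.add (Int.mul e0 N3) (Int.mul T (Int.sub (Int.add (Int.mul (Int.mul cvv (Int.mul z0 z0)) N2)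
      (Int.mul ccc N4)) (Int.mul p2 (Int.mul l0 l0))))) 0 &&
    (ile (Int.add (Int.mul (Int.add e0 e1) N3) (Int.mul (Int.mul 2 T) (Int.sub (Int.add
      (Int.mul (Int.mul cvv (Int.mul z0 z1)) N2) (Int.mul ccc N4)) (Int.mul p2 (Int.mul l0 l1))))) 0 &&
    ile (Int.add (Int.mul e1 N3) (Int.mul T (Int.sub (Int.add (Int.mul (Int.mul cvv (Int.mul z1 z1)) N2)
      (Int.mul ccc N4)) (Int.mul p2 (Int.mul l1 l1))))) 0)))

lemma coneR {cv cvv cc ccc p1 p2 lv lc T z0 z1 μ κ : ℝ} (hμ0 : 0 ≤ μ) (hμ1 : μ ≤ 1) (hκ0 : 0 ≤ κ)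
    (hκ1 : κ ≤ 1)
    (E0 : 1000000 * (cv * z0 + 1000000 * cc) - p1 * (lv * z0 + 1000000 * lc) ≤ 0)
    (E1 : 1000000 * (cv * z1 + 1000000 * cc) - p1 * (lv * z1 + 1000000 * lc) ≤ 0)
    (F0 : (1000000 * (cv * z0 + 1000000 * cc) - p1 * (lv * z0 + 1000000 * lc)) * 1000000000000000000
      + T * (cvv * (z0 * z0) * 1000000000000 + ccc * 1000000000000000000000000
        - p2 * ((lv * z0 + 1000000 * lc) * (lv * z0 + 1000000 * lc))) ≤ 0)
    (F1 : ((1000000 * (cv * z0 + 1000000 * cc) - p1 * (lv * z0 + 1000000 * lc))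
        + (1000000 * (cv * z1 + 1000000 * cc) - p1 * (lv * z1 + 1000000 * lc))) * 1000000000000000000
      + 2 * T * (cvv * (z0 * z1) * 1000000000000 + ccc * 1000000000000000000000000
        - p2 * ((lv * z0 + 1000000 * lc) * (lv * z1 + 1000000 * lc))) ≤ 0)
    (F2 : (1000000 * (cv * z1 + 1000000 * cc) - p1 * (lv * z1 + 1000000 * lc)) * 1000000000000000000
      + T * (cvv * (z1 * z1) * 1000000000000 + ccc * 1000000000000000000000000
        - p2 * ((lv * z1 + 1000000 * lc) * (lv * z1 + 1000000 * lc))) ≤ 0) :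
    (1000000 * (cv * ((1 - μ) * z0 + μ * z1) + 1000000 * cc)
        - p1 * (lv * ((1 - μ) * z0 + μ * z1) + 1000000 * lc)) * 1000000000000000000
      + κ * (T * (cvv * ((1 - μ) * z0 + μ * z1) ^ 2 * 1000000000000 + ccc * 1000000000000000000000000
        - p2 * (lv * ((1 - μ) * z0 + μ * z1) + 1000000 * lc) ^ 2)) ≤ 0 := by
  have m1 : 0 ≤ 1 - μ := by linarith
  have k1 : 0 ≤ 1 - κ := by linarith
  set e0 := 1000000 * (cv * z0 + 1000000 * cc) - p1 * (lv * z0 + 1000000 * lc) with he0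
  set e1 := 1000000 * (cv * z1 + 1000000 * cc) - p1 * (lv * z1 + 1000000 * lc) with he1
  have hE : 1000000 * (cv * ((1 - μ) * z0 + μ * z1) + 1000000 * cc)
      - p1 * (lv * ((1 - μ) * z0 + μ * z1) + 1000000 * lc) = (1 - μ) * e0 + μ * e1 := by
    rw [he0, he1]; ring
  have hq : T * (cvv * ((1 - μ) * z0 + μ * z1) ^ 2 * 1000000000000 + ccc * 1000000000000000000000000
      - p2 * (lv * ((1 - μ) * z0 + μ * z1) + 1000000 * lc) ^ 2)
      = (1 - μ) ^ 2 * (T * (cvv * (z0 * z0) * 1000000000000 + ccc * 1000000000000000000000000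
        - p2 * ((lv * z0 + 1000000 * lc) * (lv * z0 + 1000000 * lc))))
      + μ * (1 - μ) * (2 * T * (cvv * (z0 * z1) * 1000000000000 + ccc * 1000000000000000000000000
        - p2 * ((lv * z0 + 1000000 * lc) * (lv * z1 + 1000000 * lc))))
      + μ ^ 2 * (T * (cvv * (z1 * z1) * 1000000000000 + ccc * 1000000000000000000000000
        - p2 * ((lv * z1 + 1000000 * lc) * (lv * z1 + 1000000 * lc)))) := by ring
  rw [hE, hq]
  set q00 := T * (cvv * (z0 * z0) * 1000000000000 + ccc * 1000000000000000000000000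
        - p2 * ((lv * z0 + 1000000 * lc) * (lv * z0 + 1000000 * lc)))
  set q01 := 2 * T * (cvv * (z0 * z1) * 1000000000000 + ccc * 1000000000000000000000000
        - p2 * ((lv * z0 + 1000000 * lc) * (lv * z1 + 1000000 * lc)))
  set q11 := T * (cvv * (z1 * z1) * 1000000000000 + ccc * 1000000000000000000000000
        - p2 * ((lv * z1 + 1000000 * lc) * (lv * z1 + 1000000 * lc)))
  have g1 : (1 - μ) * e0 + μ * e1 ≤ 0 := by
    have a1 := mul_nonpos_of_nonneg_of_nonpos m1 E0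
    have a2 := mul_nonpos_of_nonneg_of_nonpos hμ0 E1
    linarith
  have g2 : ((1 - μ) * e0 + μ * e1) * 1000000000000000000 + ((1 - μ) ^ 2 * q00 + μ * (1 - μ) * q01
      + μ ^ 2 * q11) ≤ 0 := by
    have a1 := mul_nonpos_of_nonneg_of_nonpos (sq_nonneg (1 - μ)) F0
    have a2 := mul_nonpos_of_nonneg_of_nonpos (mul_nonneg hμ0 m1) F1
    have a3 := mul_nonpos_of_nonneg_of_nonpos (sq_nonneg μ) F2
    linarith
  have a1 := mul_nonpos_of_nonneg_of_nonpos k1 g1
  have a2 := mul_nonpos_of_nonneg_of_nonpos hκ0 g2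
  linarith

theorem cone_sound {cv cvv cc ccc p1 p2 lv lc T z0 z1 : ℤ}
    (h : cone cv cvv cc ccc p1 p2 lv lc T z0 z1 = true) {z y : ℝ}
    (hz0 : (z0 : ℝ) ≤ z * 1000000) (hz1 : z * 1000000 ≤ z1) (hy0 : 0 ≤ y) (hy1 : y * 1000000 ≤ T) :
    (cv : ℝ) * z + cc - p1 * ((lv * z + lc) / 1000000)
      + y * (cvv * z ^ 2 + ccc - p2 * ((lv * z + lc) / 1000000) ^ 2) ≤ 0 ∧
    -1 ≤ ((lv : ℝ) * z + lc) / 1000000 ∧ T ≤ 300000 := by
  obtain ⟨μ, hμ0, hμ1, hμ⟩ := exists_weight hz0 hz1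
  obtain ⟨κ, hκ0, hκ1, hκ⟩ := exists_weight (x0 := 0) (by positivity : (0 : ℝ) ≤ y * 1000000) hy1
  unfold cone cone.cone2 cone.cone3 N2 N3 N4 at h
  simp only [Bool.and_eq_true, IA.ile_iff, im, ia, is] at h
  obtain ⟨hT, b0, b1, e0, e1, f0, f1, f2⟩ := h
  have B0 : ((-1000000000000 : ℤ) : ℝ) ≤ ((lv * z0 + 1000000 * lc : ℤ) : ℝ) := Int.cast_le.mpr b0
  have B1 : ((-1000000000000 : ℤ) : ℝ) ≤ ((lv * z1 + 1000000 * lc : ℤ) : ℝ) := Int.cast_le.mpr b1
  have E0 : ((1000000 * (cv * z0 + 1000000 * cc) - p1 * (lv * z0 + 1000000 * lc) : ℤ) : ℝ)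
    ≤ ((0 : ℤ) : ℝ) := Int.cast_le.mpr e0
  have E1 : ((1000000 * (cv * z1 + 1000000 * cc) - p1 * (lv * z1 + 1000000 * lc) : ℤ) : ℝ)
    ≤ ((0 : ℤ) : ℝ) := Int.cast_le.mpr e1
  have F0 := Int.cast_le (R := ℝ).mpr f0
  have F1 := Int.cast_le (R := ℝ).mpr f1
  have F2 := Int.cast_le (R := ℝ).mpr f2
  push_cast at B0 B1 E0 E1 F0 F1 F2
  have m1 : 0 ≤ 1 - μ := by linarith
  have k1 : 0 ≤ 1 - κ := by linarith
  have ez : z = ((1 - μ) * z0 + μ * z1) / 1000000 := by
    rw [eq_div_iff (by norm_num)]; exact hμ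
  have ey : y = κ * T / 1000000 := by
    rw [eq_div_iff (by norm_num)]; linarith
  refine ⟨?_, ?_, hT⟩
  · have key := coneR hμ0 hμ1 hκ0 hκ1 (by linarith) (by linarith) (by linarith) (by linarith)
      (by linarith) (cv := cv) (cvv := cvv) (cc := cc) (ccc := ccc) (p1 := p1) (p2 := p2) (lv := lv)
      (lc := lc) (T := T) (z0 := z0) (z1 := z1)
    rw [← hμ] at key
    have e : ((cv : ℝ) * z + cc - p1 * ((lv * z + lc) / 1000000)
        + y * (cvv * z ^ 2 + ccc - p2 * ((lv * z + lc) / 1000000) ^ 2))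
          * 1000000000000000000000000000000
        = (1000000 * (cv * (z * 1000000) + 1000000 * cc)
          - p1 * (lv * (z * 1000000) + 1000000 * lc)) * 1000000000000000000
          + κ * (T * (cvv * (z * 1000000) ^ 2 * 1000000000000 + ccc * 1000000000000000000000000
          - p2 * (lv * (z * 1000000) + 1000000 * lc) ^ 2)) := by
      rw [ey]; ring
    rw [← e] at key
    by_contra hcon
    push Not at hcon
    have := mul_pos hcon (by norm_num : (0 : ℝ) < 1000000000000000000000000000000)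
    linarith
  · have g0 := mul_nonneg m1 (sub_nonneg.mpr B0)
    have g1 := mul_nonneg hμ0 (sub_nonneg.mpr B1)
    rw [le_div_iff₀ (by norm_num)]
    have e : ((lv : ℝ) * z + lc) * 1000000 = lv * (z * 1000000) + 1000000 * lc := by ring
    have e2 : lv * (z * 1000000) + 1000000 * lc = (1 - μ) * (lv * z0 + 1000000 * lc)
        + μ * (lv * z1 + 1000000 * (lc : ℝ)) := by rw [hμ]; ring
    linarith

/-- first chart, `s = z t` -/
def cchkA (B : Bx) (M : Md) (T : ℤ) : CT → ℕ → ℕ → Bool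
  | .sp c l r, z0, z1 => cond (cchkA B M T l z0 c) (cchkA B M T r c z1) false
  | .aff A Bq, z0, z1 => M.al && (lamOK 0 A Bq &&
      (cone M.Pa.cs M.Pa.css M.Pa.ct M.Pa.ctt M.Pa.p1 M.Pa.p2 (coa B.H0 B.X0 B.R0 0 A)
        (cob B.H0 B.X0 B.R0 0 Bq) T (Int.ofNat z0) (Int.ofNat z1) &&
      cone M.Pa.cs M.Pa.css M.Pa.ct M.Pa.ctt M.Pa.p1 M.Pa.p2 (coa B.H1 B.X1 B.R1 0 A)
        (cob B.H1 B.X1 B.R1 0 Bq) T (Int.ofNat z0) (Int.ofNat z1)))
  | .pol, z0, z1 => cone M.Pge.cs M.Pge.css M.Pge.ct M.Pge.ctt 0 0 0 0 T (Int.ofNat z0) (Int.ofNat z1)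

/-- second chart, `t = z s` -/
def cchkB (B : Bx) (M : Md) (T : ℤ) : CT → ℕ → ℕ → Bool
  | .sp c l r, z0, z1 => cond (cchkB B M T l z0 c) (cchkB B M T r c z1) false
  | .aff A Bq, z0, z1 => M.al && (lamOK 0 A Bq &&
      (cone M.Pa.ct M.Pa.ctt M.Pa.cs M.Pa.css M.Pa.p1 M.Pa.p2 (cob B.H0 B.X0 B.Q0 0 Bq)
        (coa B.H0 B.X0 B.Q0 0 A) T (Int.ofNat z0) (Int.ofNat z1) &&
      cone M.Pa.ct M.Pa.ctt M.Pa.cs M.Pa.css M.Pa.p1 M.Pa.p2 (cob B.H1 B.X1 B.Q1 0 Bq)
        (coa B.H1 B.X1 B.Q1 0 A) T (Int.ofNat z0) (Int.ofNat z1)))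
  | .pol, z0, z1 => cone M.Ple.ct M.Ple.ctt M.Ple.cs M.Ple.css 0 0 0 0 T (Int.ofNat z0) (Int.ofNat z1)

lemma coc_zero (H : ℕ) : coc H 0 = 0 := by
  unfold coc
  have h : (0 * (1000000 - H) + (2 * (1000000 + H) - 1)) / (2 * (1000000 + H)) = 0 := by
    rw [zero_mul, zero_add]
    exact Nat.div_eq_of_lt (by omega)
  rw [h]
  rfl

/-- the conditions `c0 = 0` -/
structure Md.Zero (M : Md) : Prop where
  a : M.Pa.c0 = 0
  ge : M.Pge.c0 = 0
  le : M.Ple.c0 = 0

theorem cchkA_sound {B : Bx} (hB : B.ok = true) {M : Md} (hZ : M.Zero) {h s t c u : ℝ}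
    (g : Geo h s t c u) (h0 : (B.H0 : ℝ) / 1000000 ≤ h) (h1 : h ≤ (B.H1 : ℝ) / 1000000) {G : Prop}
    (hM : Mode M s t u G) {T : ℤ} (ht : 0 < t) (hT : t * 1000000 ≤ T) (hst : s ≤ t) {z : ℝ}
    (hz : s = z * t) : ∀ (C : CT) (z0 z1 : ℕ), cchkA B M T C z0 z1 = true →
    (z0 : ℝ) ≤ z * 1000000 → z * 1000000 ≤ z1 → G := by
  intro C
  induction C with
  | sp d l r ihl ihr =>
    intro z0 z1 hc a1 a2
    simp only [cchkA] at hc
    obtain ⟨c1, c2⟩ := cond_and hc
    rcases le_total (z * 1000000) (d : ℝ) with h2 | h2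
    · exact ihl _ _ c1 a1 h2
    · exact ihr _ _ c2 h2 a2
  | aff A Bq =>
    intro z0 z1 hc a1 a2
    simp only [cchkA, Bool.and_eq_true] at hc
    obtain ⟨c1, c2, c3, c4⟩ := hc
    have b1 : ((Int.ofNat z0 : ℤ) : ℝ) ≤ z * 1000000 := by simpa using a1
    have b2 : z * 1000000 ≤ ((Int.ofNat z1 : ℤ) : ℝ) := by simpa using a2
    have main : ∀ {a b : ℤ}, cone M.Pa.cs M.Pa.css M.Pa.ct M.Pa.ctt M.Pa.p1 M.Pa.p2 a b T
        (Int.ofNat z0) (Int.ofNat z1) = true → ((a : ℝ) * s + b * t - (0 : ℤ)) / 1000000 ≤ u → G := by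
      intro a b hc hv
      obtain ⟨k1, k2, k3⟩ := cone_sound hc b1 b2 ht.le hT
      have e : ((a : ℝ) * s + b * t - (0 : ℤ)) / 1000000 = t * ((a * z + b) / 1000000) := by
        rw [hz]; push_cast; ring
      rw [e] at hv
      have kT : (T : ℝ) ≤ 300000 := by exact_mod_cast k3
      refine hM.a c1 _ ?_ hv ?_
      · nlinarith
      · unfold Po.val
        rw [hZ.a, hz]
        have := mul_nonpos_of_nonneg_of_nonpos ht.le k1
        push_cast
        nlinarith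
    rcases Bx.ends_ge hB c2 g h0 h1 hst with h7 | h7
    · rw [coc_zero] at h7
      exact main c3 h7
    · rw [coc_zero] at h7
      exact main c4 h7
  | pol =>
    intro z0 z1 hc a1 a2
    simp only [cchkA] at hc
    have b1 : ((Int.ofNat z0 : ℤ) : ℝ) ≤ z * 1000000 := by simpa using a1
    have b2 : z * 1000000 ≤ ((Int.ofNat z1 : ℤ) : ℝ) := by simpa using a2
    obtain ⟨k1, k2, k3⟩ := cone_sound hc b1 b2 ht.le hT
    refine hM.ge hst ?_
    unfold Po.val
    rw [hZ.ge, hz]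
    have := mul_nonpos_of_nonneg_of_nonpos ht.le k1
    push_cast at this ⊢
    nlinarith

theorem cchkB_sound {B : Bx} (hB : B.ok = true) {M : Md} (hZ : M.Zero) {h s t c u : ℝ}
    (g : Geo h s t c u) (h0 : (B.H0 : ℝ) / 1000000 ≤ h) (h1 : h ≤ (B.H1 : ℝ) / 1000000) {G : Prop}
    (hM : Mode M s t u G) {T : ℤ} (hs : 0 < s) (hT : s * 1000000 ≤ T) (hst : t ≤ s) {z : ℝ}
    (hz : t = z * s) : ∀ (C : CT) (z0 z1 : ℕ), cchkB B M T C z0 z1 = true →
    (z0 : ℝ) ≤ z * 1000000 → z * 1000000 ≤ z1 → G := by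
  intro C
  induction C with
  | sp d l r ihl ihr =>
    intro z0 z1 hc a1 a2
    simp only [cchkB] at hc
    obtain ⟨c1, c2⟩ := cond_and hc
    rcases le_total (z * 1000000) (d : ℝ) with h2 | h2
    · exact ihl _ _ c1 a1 h2
    · exact ihr _ _ c2 h2 a2
  | aff A Bq =>
    intro z0 z1 hc a1 a2
    simp only [cchkB, Bool.and_eq_true] at hc
    obtain ⟨c1, c2, c3, c4⟩ := hc
    have b1 : ((Int.ofNat z0 : ℤ) : ℝ) ≤ z * 1000000 := by simpa using a1
    have b2 : z * 1000000 ≤ ((Int.ofNat z1 : ℤ) : ℝ) := by simpa using a2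
    have main : ∀ {a b : ℤ}, cone M.Pa.ct M.Pa.ctt M.Pa.cs M.Pa.css M.Pa.p1 M.Pa.p2 b a T
        (Int.ofNat z0) (Int.ofNat z1) = true → ((a : ℝ) * s + b * t - (0 : ℤ)) / 1000000 ≤ u → G := by
      intro a b hc hv
      obtain ⟨k1, k2, k3⟩ := cone_sound hc b1 b2 hs.le hT
      have e : ((a : ℝ) * s + b * t - (0 : ℤ)) / 1000000 = s * ((b * z + a) / 1000000) := by
        rw [hz]; push_cast; ring
      rw [e] at hv
      have kT : (T : ℝ) ≤ 300000 := by exact_mod_cast k3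
      refine hM.a c1 _ ?_ hv ?_
      · nlinarith
      · unfold Po.val
        rw [hZ.a, hz]
        have := mul_nonpos_of_nonneg_of_nonpos hs.le k1
        push_cast
        nlinarith
    rcases Bx.ends_le hB c2 g h0 h1 hst with h7 | h7
    · rw [coc_zero] at h7
      exact main c3 h7
    · rw [coc_zero] at h7
      exact main c4 h7
  | pol =>
    intro z0 z1 hc a1 a2
    simp only [cchkB] at hc
    have b1 : ((Int.ofNat z0 : ℤ) : ℝ) ≤ z * 1000000 := by simpa using a1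
    have b2 : z * 1000000 ≤ ((Int.ofNat z1 : ℤ) : ℝ) := by simpa using a2
    obtain ⟨k1, k2, k3⟩ := cone_sound hc b1 b2 hs.le hT
    refine hM.le hst ?_
    unfold Po.val
    rw [hZ.le, hz]
    have := mul_nonpos_of_nonneg_of_nonpos hs.le k1
    push_cast at this ⊢
    nlinarith

/-! ### the pieces -/

/-- a rational parameter -/
structure R where
  p : ℤ
  q : ℕ

/-- its value -/
noncomputable def R.r (x : R) : ℝ := (x.p : ℝ) / (x.q : ℝ)

/-- one piece: type, weight `w`, cost `A`, `s ∈ [sa, sb]`, `t ∈ [ka, kb]`, line `ba + sl (t - ka)`;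
`dv = true`: `ka = 0`, `ba = 0` -/
structure Pc where
  ty : Ty
  dv : Bool
  w : R
  A : R
  sa : R
  sb : R
  ka : R
  kb : R
  ba : R
  sl : R

/-- the goal -/
def Goal (P : Pc) (s t u : ℝ) : Prop :=
  P.w.r * (omg s + omg t - omg (min u (max s t)) - Gv P.ty u) - P.A.r * s
    ≤ P.ba.r + P.sl.r * (t - P.ka.r)

/-- integer data of a piece: `D w = 8000 V`, `Ai ≤ D A`, `Sl ≤ D sl`, `C0 ≤ D (ba - sl ka)`,
`K ≤ D w k`; end points of the intervals in units `10⁻⁶` -/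
structure Nm where
  D : ℕ
  V : ℕ
  Ai : ℤ
  Sl : ℤ
  C0 : ℤ
  K : ℕ
  SA : ℕ
  SB : ℕ
  KA : ℕ
  KB : ℕ

def leR (a b : R) : Bool := ile (Int.mul a.p b.q) (Int.mul b.p a.q)

def R.okq (a : R) : Bool := Nat.ble 1 a.q

def tyOK (V K : ℕ) : Ty → Bool
  | .std => true
  | .sq p q => Nat.ble (K * q) (8000 * V * p)

def numOK (P : Pc) (n : Nm) : Bool :=
  P.ty.ok && (P.w.okq && (P.A.okq && (P.sa.okq && (P.sb.okq && (P.ka.okq && (P.kb.okq &&
  (P.ba.okq && (P.sl.okq && (Nat.ble 1 n.D &&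
  (decide (P.w.p * (n.D : ℤ) = 8000 * (n.V : ℤ) * (P.w.q : ℤ)) &&
  (leR ⟨n.Ai, n.D⟩ P.A && (leR ⟨n.Sl, n.D⟩ P.sl &&
  (ile (n.C0 * (P.ba.q * P.sl.q * P.ka.q)) (n.D * (P.ba.p * P.sl.q * P.ka.q - P.sl.p * P.ka.p * P.ba.q)) &&
  (leR ⟨n.SA, 1000000⟩ P.sa && (leR P.sb ⟨n.SB, 1000000⟩ && (leR ⟨n.KA, 1000000⟩ P.ka &&
  (leR P.kb ⟨n.KB, 1000000⟩ && (Nat.blt n.SB 450000 && (tyOK n.V n.K P.ty &&
  cond P.dv (decide (P.ka.p = 0) && (decide (P.ba.p = 0) && decide (n.C0 = 0))) true)))))))))))))))))))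

lemma okq_pos {a : R} (h : a.okq = true) : (0 : ℝ) < a.q := by
  have : 1 ≤ a.q := Nat.le_of_ble_eq_true h
  exact_mod_cast this

lemma leR_iff {a b : R} (ha : a.okq = true) (hb : b.okq = true) : leR a b = true ↔ a.r ≤ b.r := by
  unfold leR R.r
  rw [IA.ile_iff, div_le_div_iff₀ (okq_pos ha) (okq_pos hb)]
  have h1 : Int.mul a.p b.q = a.p * b.q := rfl
  have h2 : Int.mul b.p a.q = b.p * a.q := rfl
  rw [h1, h2]
  constructor
  · intro h; exact_mod_cast h
  · intro h; exact_mod_cast h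

/-- the conditions in real form -/
structure NOk (P : Pc) (n : Nm) : Prop where
  ty : P.ty.ok = true
  D : (0 : ℝ) < n.D
  w : P.w.r * n.D = 8000 * n.V
  A : (n.Ai : ℝ) ≤ P.A.r * n.D
  sl : (n.Sl : ℝ) ≤ P.sl.r * n.D
  c0 : (n.C0 : ℝ) ≤ n.D * (P.ba.r - P.sl.r * P.ka.r)
  sa : (n.SA : ℝ) ≤ P.sa.r * 1000000
  sb : P.sb.r * 1000000 ≤ (n.SB : ℝ)
  ka : (n.KA : ℝ) ≤ P.ka.r * 1000000
  kb : P.kb.r * 1000000 ≤ (n.KB : ℝ)
  sb' : (n.SB : ℝ) < 450000
  k : ∀ p q : ℕ, P.ty = .sq p q → (n.K : ℝ) ≤ 8000 * n.V * ((p : ℝ) / q)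
  dv : P.dv = true → P.ka.r = 0 ∧ P.ba.r = 0 ∧ n.C0 = 0

lemma NOk.of {P : Pc} {n : Nm} (h : numOK P n = true) : NOk P n := by
  unfold numOK at h
  simp only [Bool.and_eq_true, decide_eq_true_eq] at h
  obtain ⟨h1, h2, h3, h4, h5, h6, h7, h8, h9, h10, h11, h12, h13, h14, h15, h16, h17, h18, h19, h20,
    h21⟩ := h
  have w2 := okq_pos h2
  have w3 := okq_pos h3
  have w6 := okq_pos h6
  have w8 := okq_pos h8
  have w9 := okq_pos h9
  have hD1 : 1 ≤ n.D := Nat.le_of_ble_eq_true h10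
  have hD : (0 : ℝ) < n.D := by exact_mod_cast hD1
  have hDq : R.okq ⟨n.Ai, n.D⟩ = true := h10
  have hDq' : R.okq ⟨n.Sl, n.D⟩ = true := h10
  refine ⟨h1, hD, ?_, ?_, ?_, ?_, ?_, ?_, ?_, ?_, ?_, ?_, ?_⟩
  · unfold R.r
    have : (P.w.p : ℝ) * n.D = 8000 * n.V * P.w.q := by exact_mod_cast h11
    field_simp
    linarith
  · have := (leR_iff hDq h3).mp h12
    have e : (⟨n.Ai, n.D⟩ : R).r = (n.Ai : ℝ) / n.D := rfl
    rw [e, div_le_iff₀ hD] at this
    exact this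
  · have := (leR_iff hDq' h9).mp h13
    have e : (⟨n.Sl, n.D⟩ : R).r = (n.Sl : ℝ) / n.D := rfl
    rw [e, div_le_iff₀ hD] at this
    exact this
  · have h : (n.C0 : ℝ) * (P.ba.q * P.sl.q * P.ka.q)
        ≤ n.D * (P.ba.p * P.sl.q * P.ka.q - P.sl.p * P.ka.p * P.ba.q) := by
      exact_mod_cast (IA.ile_iff _ _).mp h14
    have hQ : (0 : ℝ) < P.ba.q * P.sl.q * P.ka.q := by positivity
    have e : (n.D : ℝ) * (P.ba.r - P.sl.r * P.ka.r)
        = n.D * (P.ba.p * P.sl.q * P.ka.q - P.sl.p * P.ka.p * P.ba.q) / (P.ba.q * P.sl.q * P.ka.q) := by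
      unfold R.r
      field_simp
    rw [e, le_div_iff₀ hQ]
    exact h
  · have := (leR_iff (a := ⟨n.SA, 1000000⟩) rfl h4).mp h15
    have e : (⟨n.SA, 1000000⟩ : R).r = (n.SA : ℝ) / 1000000 := by unfold R.r; push_cast; rfl
    rw [e, div_le_iff₀ (by norm_num)] at this
    exact this
  · have := (leR_iff (b := ⟨n.SB, 1000000⟩) h5 rfl).mp h16
    have e : (⟨n.SB, 1000000⟩ : R).r = (n.SB : ℝ) / 1000000 := by unfold R.r; push_cast; rfl
    rw [e, le_div_iff₀ (by norm_num)] at this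
    exact this
  · have := (leR_iff (a := ⟨n.KA, 1000000⟩) rfl h6).mp h17
    have e : (⟨n.KA, 1000000⟩ : R).r = (n.KA : ℝ) / 1000000 := by unfold R.r; push_cast; rfl
    rw [e, div_le_iff₀ (by norm_num)] at this
    exact this
  · have := (leR_iff (b := ⟨n.KB, 1000000⟩) h7 rfl).mp h18
    have e : (⟨n.KB, 1000000⟩ : R).r = (n.KB : ℝ) / 1000000 := by unfold R.r; push_cast; rfl
    rw [e, le_div_iff₀ (by norm_num)] at this
    exact this
  · have h : n.SB + 1 ≤ 450000 := Nat.le_of_ble_eq_true h19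
    have : ((n.SB + 1 : ℕ) : ℝ) ≤ ((450000 : ℕ) : ℝ) := Nat.cast_le.mpr h
    push_cast at this
    linarith
  · intro p q hty
    rw [hty] at h20 h1
    have h : n.K * q ≤ 8000 * n.V * p := Nat.le_of_ble_eq_true h20
    have h' : (n.K : ℝ) * q ≤ 8000 * n.V * p := by exact_mod_cast h
    have hq : (0 : ℝ) < q := by
      simp only [Ty.ok, Bool.and_eq_true] at h1
      have : 1 ≤ q := Nat.le_of_ble_eq_true h1.1
      exact_mod_cast this
    rw [← mul_div_assoc, le_div_iff₀ hq]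
    exact h'
  · intro hd
    rw [hd] at h21
    simp only [cond_true, Bool.and_eq_true, decide_eq_true_eq] at h21
    unfold R.r
    rw [h21.1, h21.2.1, h21.2.2]
    simp

lemma NOk.w0 {P : Pc} {n : Nm} (h : NOk P n) : 0 ≤ P.w.r := by
  by_contra hcon
  push Not at hcon
  have h1 := mul_neg_of_neg_of_pos hcon h.D
  have h2 := h.w
  have h3 : (0 : ℝ) ≤ n.V := Nat.cast_nonneg _
  linarith

lemma goal1 {P : Pc} (hty : P.ty.ok = true) (hw : 0 ≤ P.w.r) {s t u v : ℝ} (hu0 : 0 ≤ u)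
    (hv : -(3 / 10) ≤ v) (hvu : v ≤ u) (hM : u ≤ max s t) (hτ : P.ty = .std → u ≤ 9 / 20)
    (h : P.w.r * (omg s + omg t - (omg v + Gp P.ty v)) - P.A.r * s
      - (P.ba.r + P.sl.r * (t - P.ka.r)) ≤ 0) : Goal P s t u := by
  unfold Goal
  rw [min_eq_left hM]
  have h1 : Gv P.ty u = Gp P.ty u := by
    by_cases h2 : P.ty = .std
    · exact Gv_eq _ (hτ h2)
    · exact Gv_eq' _ h2 _
  rw [h1]
  have h2 := Gp_mono P.ty hty hu0 hv hvu
  have h3 := mul_le_mul_of_nonneg_left h2 hw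
  nlinarith

lemma goal2 {P : Pc} (hw : 0 ≤ P.w.r) (hty : P.ty = .std) {s t u v : ℝ} (hv : -(3 / 10) ≤ v)
    (hvu : v ≤ u) (hM : u ≤ max s t) (hτ : 9 / 20 ≤ u)
    (h : P.w.r * (omg s + omg t - (omg v + 1017 / 8000)) - P.A.r * s
      - (P.ba.r + P.sl.r * (t - P.ka.r)) ≤ 0) : Goal P s t u := by
  unfold Goal
  rw [min_eq_left hM, hty, Gv_std hτ]
  have h2 := omg_mono (by linarith) hvu
  have h3 := mul_le_mul_of_nonneg_left h2 hw
  nlinarith

lemma goal3 {P : Pc} (hw : 0 ≤ P.w.r) {s t u G : ℝ} (hst : s ≤ t) (hM : t ≤ u)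
    (hG : G ≤ Gv P.ty u)
    (h : P.w.r * (omg s - G) - P.A.r * s - (P.ba.r + P.sl.r * (t - P.ka.r)) ≤ 0) :
    Goal P s t u := by
  unfold Goal
  rw [max_eq_right hst, min_eq_right hM]
  have h3 := mul_le_mul_of_nonneg_left hG hw
  nlinarith

lemma goal4 {P : Pc} (hw : 0 ≤ P.w.r) {s t u G : ℝ} (hst : t ≤ s) (hM : s ≤ u)
    (hG : G ≤ Gv P.ty u)
    (h : P.w.r * (omg t - G) - P.A.r * s - (P.ba.r + P.sl.r * (t - P.ka.r)) ≤ 0) :
    Goal P s t u := by
  unfold Goal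
  rw [max_eq_left hst, min_eq_right hM]
  have h3 := mul_le_mul_of_nonneg_left hG hw
  nlinarith

/-- `u ≤ max s t`, `u < 9/20` (if `std`) -/
def M1 (n : Nm) : Ty → Md
  | .std => ⟨true, true,
      ⟨1720 * n.V - n.Ai, 1720 * n.V - n.Sl, 1560 * n.V, 1560 * n.V, n.C0, 3440 * n.V, 2760 * n.V⟩,
      ⟨1720 * n.V - n.Ai, 1720 * n.V - n.Sl, 1560 * n.V, 1560 * n.V, n.C0, 0, 0⟩,
      ⟨1720 * n.V - n.Ai, 1720 * n.V - n.Sl, 1560 * n.V, 1560 * n.V, n.C0, 0, 0⟩⟩
  | .sq _ _ => ⟨true, false,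
      ⟨1720 * n.V - n.Ai, 1720 * n.V - n.Sl, 1560 * n.V, 1560 * n.V, n.C0, 1720 * n.V,
        1560 * n.V + n.K⟩,
      ⟨1720 * n.V - n.Ai, 1720 * n.V - n.Sl, 1560 * n.V, 1560 * n.V, n.C0, 0, 0⟩,
      ⟨1720 * n.V - n.Ai, 1720 * n.V - n.Sl, 1560 * n.V, 1560 * n.V, n.C0, 0, 0⟩⟩

/-- `9/20 ≤ u ≤ max s t` -/
def M2 (n : Nm) : Md :=
  ⟨true, false,
    ⟨1720 * n.V - n.Ai, 1720 * n.V - n.Sl, 1560 * n.V, 1560 * n.V, n.C0 + 1017 * n.V, 1720 * n.V,
      1560 * n.V⟩,
    ⟨1720 * n.V - n.Ai, 1720 * n.V - n.Sl, 1560 * n.V, 1560 * n.V, n.C0 + 2106 * n.V, 0, 0⟩,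
    ⟨1720 * n.V - n.Ai, 1720 * n.V - n.Sl, 1560 * n.V, 1560 * n.V, n.C0 + 2106 * n.V, 0, 0⟩⟩

/-- `max s t ≤ u`; for `s ≤ t` the bound `g(u) ≥ g(t)` if `t ≤ 9/20` or `9/20 ≤ t` on the whole piece, else
`g(u) ≥ 1017/8000 t` -/
def M3 (n : Nm) : Ty → Md
  | .std => ⟨false, false, ⟨0, 0, 0, 0, 0, 0, 0⟩,
      cond (Nat.ble n.KB 450000)
        ⟨1720 * n.V - n.Ai, -1720 * n.V - n.Sl, 1560 * n.V, -1200 * n.V, n.C0, 0, 0⟩
        (cond (Nat.ble 450000 n.KA)
          ⟨1720 * n.V - n.Ai, -n.Sl, 1560 * n.V, 0, n.C0 + 1017 * n.V, 0, 0⟩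
          ⟨1720 * n.V - n.Ai, -1017 * n.V - n.Sl, 1560 * n.V, 0, n.C0, 0, 0⟩),
      ⟨-1720 * n.V - n.Ai, 1720 * n.V - n.Sl, -1200 * n.V, 1560 * n.V, n.C0, 0, 0⟩⟩
  | .sq _ _ => ⟨false, false, ⟨0, 0, 0, 0, 0, 0, 0⟩,
      ⟨1720 * n.V - n.Ai, -n.Sl, 1560 * n.V, -n.K, n.C0, 0, 0⟩,
      ⟨-n.Ai, 1720 * n.V - n.Sl, -n.K, 1560 * n.V, n.C0, 0, 0⟩⟩

section modes

variable {P : Pc} {n : Nm} {s t u : ℝ}

/-- division by `D` -/
lemma NOk.div (h : NOk P n) {x y : ℝ} (hxy : x * n.D ≤ y) (hy : y ≤ 0) : x ≤ 0 := by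
  by_contra hcon
  push Not at hcon
  have := mul_pos hcon h.D
  linarith

/-- the common part -/
lemma NOk.common (h : NOk P n) (hs : 0 ≤ s) (ht : 0 ≤ t) :
    (-P.A.r * s - (P.ba.r + P.sl.r * (t - P.ka.r))) * n.D ≤ -n.Ai * s - n.Sl * t - n.C0 := by
  have h1 := mul_le_mul_of_nonneg_right h.A hs
  have h2 := mul_le_mul_of_nonneg_right h.sl ht
  have h3 := h.c0
  nlinarith

lemma mode1 (h : NOk P n) (hs : 0 ≤ s) (ht : 0 ≤ t) (hu : 0 ≤ u) (hM : u ≤ max s t)
    (hτ : P.ty = .std → u < 9 / 20) : Mode (M1 n P.ty) s t u (Goal P s t u) := by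
  have hc := h.common hs ht
  have hw := h.w
  have hτ' : P.ty = .std → u ≤ 9 / 20 := fun h => (hτ h).le
  have zero : ∀ {Q : Po}, Q = ⟨1720 * n.V - n.Ai, 1720 * n.V - n.Sl, 1560 * n.V, 1560 * n.V, n.C0, 0, 0⟩
      → Q.val s t 0 ≤ 0 → Goal P s t u := by
    intro Q hQ hv
    refine goal1 h.ty h.w0 hu (v := 0) (by norm_num) hu hM hτ' (h.div ?_ hv)
    have e : omg 0 + Gp P.ty 0 = 0 := by
      cases P.ty with
      | std => unfold omg Gp; norm_num
      | sq p q => unfold omg Gp; norm_num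
    rw [e, hQ]
    unfold Po.val omg
    push_cast
    nlinarith
  constructor
  · intro _ v hv0 hvu hval
    refine goal1 h.ty h.w0 hu hv0 hvu hM hτ' (h.div ?_ hval)
    cases hty : P.ty with
    | std =>
      unfold M1 Po.val omg Gp
      push_cast
      have e : (P.w.r * (43 / 200 * s + 39 / 200 * s ^ 2 + (43 / 200 * t + 39 / 200 * t ^ 2)
          - (43 / 200 * v + 39 / 200 * v ^ 2 + v * (43 / 200 + 3 / 20 * v)))) * n.D
          = 1720 * n.V * s + 1560 * n.V * s ^ 2 + 1720 * n.V * t + 1560 * n.V * t ^ 2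
            - 3440 * n.V * v - 2760 * n.V * v ^ 2 := by
        have : (P.w.r * (43 / 200 * s + 39 / 200 * s ^ 2 + (43 / 200 * t + 39 / 200 * t ^ 2)
          - (43 / 200 * v + 39 / 200 * v ^ 2 + v * (43 / 200 + 3 / 20 * v)))) * n.D
          = (P.w.r * n.D) * (43 / 200 * s + 39 / 200 * s ^ 2 + (43 / 200 * t + 39 / 200 * t ^ 2)
          - (43 / 200 * v + 39 / 200 * v ^ 2 + v * (43 / 200 + 3 / 20 * v))) := by ring
        rw [this, hw]; ring
      linarith
    | sq p q =>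
      have hk := h.k p q hty
      unfold M1 Po.val omg Gp
      push_cast
      have e : (P.w.r * (43 / 200 * s + 39 / 200 * s ^ 2 + (43 / 200 * t + 39 / 200 * t ^ 2)
          - (43 / 200 * v + 39 / 200 * v ^ 2 + (p : ℝ) / q * (v * v)))) * n.D
          = 1720 * n.V * s + 1560 * n.V * s ^ 2 + 1720 * n.V * t + 1560 * n.V * t ^ 2
            - 1720 * n.V * v - 1560 * n.V * v ^ 2 - (8000 * n.V * ((p : ℝ) / q)) * v ^ 2 := by
        have : (P.w.r * (43 / 200 * s + 39 / 200 * s ^ 2 + (43 / 200 * t + 39 / 200 * t ^ 2)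
          - (43 / 200 * v + 39 / 200 * v ^ 2 + (p : ℝ) / q * (v * v)))) * n.D
          = (P.w.r * n.D) * (43 / 200 * s + 39 / 200 * s ^ 2 + (43 / 200 * t + 39 / 200 * t ^ 2)
          - (43 / 200 * v + 39 / 200 * v ^ 2 + (p : ℝ) / q * (v * v))) := by ring
        rw [this, hw]; ring
      have h5 := mul_le_mul_of_nonneg_right hk (sq_nonneg v)
      linarith
  · intro he h9
    cases hty : P.ty with
    | std => exact absurd h9 (not_le.mpr (hτ hty))
    | sq p q => rw [hty] at he; exact absurd he (by simp [M1])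
  · intro _ hval
    cases hty : P.ty with
    | std => rw [hty] at hval; exact zero rfl hval
    | sq p q => rw [hty] at hval; exact zero rfl hval
  · intro _ hval
    cases hty : P.ty with
    | std => rw [hty] at hval; exact zero rfl hval
    | sq p q => rw [hty] at hval; exact zero rfl hval

lemma mode2 (h : NOk P n) (hty : P.ty = .std) (hs : 0 ≤ s) (ht : 0 ≤ t) (hM : u ≤ max s t)
    (hτ : 9 / 20 ≤ u) : Mode (M2 n) s t u (Goal P s t u) := by
  have hc := h.common hs ht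
  have hw := h.w
  have hV : (0 : ℝ) ≤ n.V := Nat.cast_nonneg _
  have zero : ∀ {Q : Po}, Q = ⟨1720 * n.V - n.Ai, 1720 * n.V - n.Sl, 1560 * n.V, 1560 * n.V,
      n.C0 + 2106 * n.V, 0, 0⟩ → Q.val s t 0 ≤ 0 → Goal P s t u := by
    intro Q hQ hv
    refine goal2 h.w0 hty (v := 9 / 20) (by norm_num) hτ hM hτ (h.div ?_ hv)
    rw [hQ]
    unfold Po.val omg
    push_cast
    have e : (P.w.r * (43 / 200 * s + 39 / 200 * s ^ 2 + (43 / 200 * t + 39 / 200 * t ^ 2)
        - (43 / 200 * (9 / 20) + 39 / 200 * (9 / 20) ^ 2 + 1017 / 8000))) * n.D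
        = 1720 * n.V * s + 1560 * n.V * s ^ 2 + 1720 * n.V * t + 1560 * n.V * t ^ 2
          - 21069 / 10 * n.V := by
      have : (P.w.r * (43 / 200 * s + 39 / 200 * s ^ 2 + (43 / 200 * t + 39 / 200 * t ^ 2)
        - (43 / 200 * (9 / 20) + 39 / 200 * (9 / 20) ^ 2 + 1017 / 8000))) * n.D
        = (P.w.r * n.D) * (43 / 200 * s + 39 / 200 * s ^ 2 + (43 / 200 * t + 39 / 200 * t ^ 2)
        - (43 / 200 * (9 / 20) + 39 / 200 * (9 / 20) ^ 2 + 1017 / 8000)) := by ring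
      rw [this, hw]; ring
    linarith
  constructor
  · intro _ v hv0 hvu hval
    refine goal2 h.w0 hty hv0 hvu hM hτ (h.div ?_ hval)
    unfold M2 Po.val omg
    push_cast
    have e : (P.w.r * (43 / 200 * s + 39 / 200 * s ^ 2 + (43 / 200 * t + 39 / 200 * t ^ 2)
        - (43 / 200 * v + 39 / 200 * v ^ 2 + 1017 / 8000))) * n.D
        = 1720 * n.V * s + 1560 * n.V * s ^ 2 + 1720 * n.V * t + 1560 * n.V * t ^ 2
          - 1720 * n.V * v - 1560 * n.V * v ^ 2 - 1017 * n.V := by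
      have : (P.w.r * (43 / 200 * s + 39 / 200 * s ^ 2 + (43 / 200 * t + 39 / 200 * t ^ 2)
        - (43 / 200 * v + 39 / 200 * v ^ 2 + 1017 / 8000))) * n.D
        = (P.w.r * n.D) * (43 / 200 * s + 39 / 200 * s ^ 2 + (43 / 200 * t + 39 / 200 * t ^ 2)
        - (43 / 200 * v + 39 / 200 * v ^ 2 + 1017 / 8000)) := by ring
      rw [this, hw]; ring
    linarith
  · intro he _
    exact absurd he (by simp [M2])
  · intro _ hval
    exact zero rfl hval
  · intro _ hval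
    exact zero rfl hval

lemma mode3 (h : NOk P n) (hs : 0 ≤ s) (ht : 0 ≤ t) (ht1 : t ≤ 1) (hsτ : s ≤ 9 / 20)
    (htτ : Nat.ble n.KB 450000 = true → t ≤ 9 / 20)
    (htτ' : Nat.ble 450000 n.KA = true → 9 / 20 ≤ t)
    (hM : max s t ≤ u) : Mode (M3 n P.ty) s t u (Goal P s t u) := by
  have hc := h.common hs ht
  have hw := h.w
  have hsu : s ≤ u := (le_max_left _ _).trans hM
  have htu : t ≤ u := (le_max_right _ _).trans hM
  constructor
  · intro he
    exfalso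
    cases hty : P.ty with
    | std => rw [hty] at he; simp [M3] at he
    | sq p q => rw [hty] at he; simp [M3] at he
  · intro he
    exfalso
    cases hty : P.ty with
    | std => rw [hty] at he; simp [M3] at he
    | sq p q => rw [hty] at he; simp [M3] at he
  · intro hst hval
    cases hty : P.ty with
    | std =>
      rw [hty] at hval
      unfold M3 at hval
      cases hk : Nat.ble n.KB 450000 with
      | true =>
        rw [hk] at hval
        simp only [cond_true] at hval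
        refine goal3 h.w0 hst htu (G := t * (43 / 200 + 3 / 20 * t)) ?_ (h.div ?_ hval)
        · rw [hty]
          refine le_trans (le_of_eq ?_) (Gv_mono .std rfl ht htu)
          rw [Gv_eq _ (htτ hk)]
          rfl
        · unfold Po.val omg
          push_cast
          have e : (P.w.r * (43 / 200 * s + 39 / 200 * s ^ 2 - t * (43 / 200 + 3 / 20 * t))) * n.D
              = 1720 * n.V * s + 1560 * n.V * s ^ 2 - 1720 * n.V * t - 1200 * n.V * t ^ 2 := by
            have : (P.w.r * (43 / 200 * s + 39 / 200 * s ^ 2 - t * (43 / 200 + 3 / 20 * t))) * n.D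
              = (P.w.r * n.D) * (43 / 200 * s + 39 / 200 * s ^ 2 - t * (43 / 200 + 3 / 20 * t)) := by
              ring
            rw [this, hw]; ring
          linarith
      | false =>
        rw [hk] at hval
        simp only [cond_false] at hval
        cases hk' : Nat.ble 450000 n.KA with
        | true =>
          rw [hk'] at hval
          simp only [cond_true] at hval
          refine goal3 h.w0 hst htu (G := 1017 / 8000) ?_ (h.div ?_ hval)
          · rw [hty]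
            refine le_trans (le_of_eq ?_) (Gv_mono .std rfl ht htu)
            rw [Gv_std (htτ' hk')]
          · unfold Po.val omg
            push_cast
            have e : (P.w.r * (43 / 200 * s + 39 / 200 * s ^ 2 - 1017 / 8000)) * n.D
                = 1720 * n.V * s + 1560 * n.V * s ^ 2 - 1017 * n.V := by
              have : (P.w.r * (43 / 200 * s + 39 / 200 * s ^ 2 - 1017 / 8000)) * n.D
                = (P.w.r * n.D) * (43 / 200 * s + 39 / 200 * s ^ 2 - 1017 / 8000) := by ring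
              rw [this, hw]; ring
            linarith
        | false =>
          rw [hk'] at hval
          simp only [cond_false] at hval
          refine goal3 h.w0 hst htu (G := 1017 / 8000 * t) ?_ (h.div ?_ hval)
          · rw [hty]
            exact (Gv_std_ge ht ht1).trans (Gv_mono _ rfl ht htu)
          · unfold Po.val omg
            push_cast
            have e : (P.w.r * (43 / 200 * s + 39 / 200 * s ^ 2 - 1017 / 8000 * t)) * n.D
                = 1720 * n.V * s + 1560 * n.V * s ^ 2 - 1017 * n.V * t := by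
              have : (P.w.r * (43 / 200 * s + 39 / 200 * s ^ 2 - 1017 / 8000 * t)) * n.D
                = (P.w.r * n.D) * (43 / 200 * s + 39 / 200 * s ^ 2 - 1017 / 8000 * t) := by ring
              rw [this, hw]; ring
            linarith
    | sq p q =>
      have hk := h.k p q hty
      rw [hty] at hval
      refine goal3 h.w0 hst htu (G := (p : ℝ) / q * (t * t)) ?_ (h.div ?_ hval)
      · rw [hty]
        exact Gv_mono (.sq p q) (hty ▸ h.ty) ht htu
      · unfold M3 Po.val omg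
        push_cast
        have e : (P.w.r * (43 / 200 * s + 39 / 200 * s ^ 2 - (p : ℝ) / q * (t * t))) * n.D
            = 1720 * n.V * s + 1560 * n.V * s ^ 2 - (8000 * n.V * ((p : ℝ) / q)) * t ^ 2 := by
          have : (P.w.r * (43 / 200 * s + 39 / 200 * s ^ 2 - (p : ℝ) / q * (t * t))) * n.D
            = (P.w.r * n.D) * (43 / 200 * s + 39 / 200 * s ^ 2 - (p : ℝ) / q * (t * t)) := by ring
          rw [this, hw]; ring
        have h5 := mul_le_mul_of_nonneg_right hk (sq_nonneg t)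
        linarith
  · intro hst hval
    have hG : Gp P.ty s ≤ Gv P.ty u := by
      rw [← Gv_eq P.ty hsτ]
      exact Gv_mono _ h.ty hs hsu
    cases hty : P.ty with
    | std =>
      rw [hty] at hval hG
      refine goal4 h.w0 hst hsu (G := s * (43 / 200 + 3 / 20 * s)) (by rw [hty]; exact hG)
        (h.div ?_ hval)
      unfold M3 Po.val omg
      push_cast
      have e : (P.w.r * (43 / 200 * t + 39 / 200 * t ^ 2 - s * (43 / 200 + 3 / 20 * s))) * n.D
          = 1720 * n.V * t + 1560 * n.V * t ^ 2 - 1720 * n.V * s - 1200 * n.V * s ^ 2 := by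
        have : (P.w.r * (43 / 200 * t + 39 / 200 * t ^ 2 - s * (43 / 200 + 3 / 20 * s))) * n.D
          = (P.w.r * n.D) * (43 / 200 * t + 39 / 200 * t ^ 2 - s * (43 / 200 + 3 / 20 * s)) := by ring
        rw [this, hw]; ring
      linarith
    | sq p q =>
      have hk := h.k p q hty
      rw [hty] at hval hG
      refine goal4 h.w0 hst hsu (G := (p : ℝ) / q * (s * s)) (by rw [hty]; exact hG)
        (h.div ?_ hval)
      unfold M3 Po.val omg
      push_cast
      have e : (P.w.r * (43 / 200 * t + 39 / 200 * t ^ 2 - (p : ℝ) / q * (s * s))) * n.D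
          = 1720 * n.V * t + 1560 * n.V * t ^ 2 - (8000 * n.V * ((p : ℝ) / q)) * s ^ 2 := by
        have : (P.w.r * (43 / 200 * t + 39 / 200 * t ^ 2 - (p : ℝ) / q * (s * s))) * n.D
          = (P.w.r * n.D) * (43 / 200 * t + 39 / 200 * t ^ 2 - (p : ℝ) / q * (s * s)) := by ring
        rw [this, hw]; ring
      have h5 := mul_le_mul_of_nonneg_right hk (sq_nonneg s)
      linarith

end modes

/-! ### the certificate of a piece -/

/-- trees of a piece: `T`: side of the square at the origin (units `10⁻⁶`, only if `dv`); cones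
`a1, b1` (`u ≤ max s t`), `a3, b3` (`max s t ≤ u`); rectangles `p1, q1`, `p2` (`9/20 ≤ u ≤ max s t`),
`p3, q3` -/
structure QCert where
  T : ℕ
  a1 : CT
  b1 : CT
  a3 : CT
  b3 : CT
  p1 : QT
  q1 : QT
  p2 : QT
  p3 : QT
  q3 : QT

/-- one mode -/
def chkM (B : Bx) (n : Nm) (dv : Bool) (T : ℕ) (M : Md) (a b : CT) (p q : QT) : Bool :=
  cond dv
    (cchkA B M (Int.ofNat T) a 0 1000000 && (cchkB B M (Int.ofNat T) b 0 1000000 &&
    (cond (Nat.ble T n.SB) (qchk B M p T n.SB n.KA n.KB) true &&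
    cond (Nat.ble T n.KB) (qchk B M q n.SA T T n.KB) true)))
    (qchk B M p n.SA n.SB n.KA n.KB)

def isStd : Ty → Bool
  | .std => true
  | _ => false

def chkQ (P : Pc) (B : Bx) (n : Nm) (C : QCert) : Bool :=
  numOK P n && (chkM B n P.dv C.T (M1 n P.ty) C.a1 C.b1 C.p1 C.q1 &&
  (cond (isStd P.ty && Nat.ble 450000 n.KB)
    (qchk B (M2 n) C.p2 n.SA n.SB (cond (Nat.ble n.KA 450000) 450000 n.KA) n.KB) true &&
  chkM B n P.dv C.T (M3 n P.ty) C.a3 C.b3 C.p3 C.q3))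

theorem chkM_sound {B : Bx} (hB : B.ok = true) {P : Pc} {n : Nm} (hn : NOk P n) {T : ℕ} {M : Md}
    {a b : CT} {p q : QT} (hc : chkM B n P.dv T M a b p q = true) (hZ : P.dv = true → M.Zero)
    {h s t c u : ℝ} (g : Geo h s t c u) (h0 : (B.H0 : ℝ) / 1000000 ≤ h)
    (h1 : h ≤ (B.H1 : ℝ) / 1000000) {G : Prop} (hM : Mode M s t u G)
    (hs0 : P.sa.r ≤ s) (hs1 : s ≤ P.sb.r) (ht0 : P.ka.r ≤ t) (ht1 : t ≤ P.kb.r)
    (hne : P.dv = true → s ≠ 0 ∨ t ≠ 0) : G := by
  have e1 : (n.SA : ℝ) ≤ s * 1000000 := hn.sa.trans (by linarith)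
  have e2 : s * 1000000 ≤ n.SB := le_trans (by linarith) hn.sb
  have e3 : (n.KA : ℝ) ≤ t * 1000000 := hn.ka.trans (by linarith)
  have e4 : t * 1000000 ≤ n.KB := le_trans (by linarith) hn.kb
  unfold chkM at hc
  cases hd : P.dv with
  | false =>
    rw [hd] at hc
    simp only [cond_false] at hc
    exact qchk_sound hB g h0 h1 hM _ _ _ _ _ hc e1 e2 e3 e4
  | true =>
    rw [hd] at hc
    simp only [cond_true, Bool.and_eq_true] at hc
    obtain ⟨c1, c2, c3, c4⟩ := hc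
    have hz := hZ hd
    have hne := hne hd
    rcases le_or_gt (s * 1000000) (T : ℝ) with hsT | hsT
    · rcases le_or_gt (t * 1000000) (T : ℝ) with htT | htT
      · -- the square
        have hT1 : s * 1000000 ≤ ((Int.ofNat T : ℤ) : ℝ) := by simpa using hsT
        have hT2 : t * 1000000 ≤ ((Int.ofNat T : ℤ) : ℝ) := by simpa using htT
        rcases le_total s t with hst | hst
        · have ht : 0 < t := by
            rcases eq_or_lt_of_le g.t0 with h5 | h5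
            · exfalso
              rcases hne with h6 | h6
              · exact h6 (le_antisymm (hst.trans (le_of_eq h5.symm)) g.s0)
              · exact h6 h5.symm
            · exact h5
          refine cchkA_sound hB hz g h0 h1 hM ht hT2 hst (z := s / t) (by field_simp) _ _ _ c1 ?_ ?_
          · have := div_nonneg g.s0 g.t0
            push_cast
            positivity
          · have : s / t ≤ 1 := by rw [div_le_one ht]; exact hst
            push_cast
            linarith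
        · have hs : 0 < s := by
            rcases eq_or_lt_of_le g.s0 with h5 | h5
            · exfalso
              rcases hne with h6 | h6
              · exact h6 h5.symm
              · exact h6 (le_antisymm (hst.trans (le_of_eq h5.symm)) g.t0)
            · exact h5
          refine cchkB_sound hB hz g h0 h1 hM hs hT1 hst (z := t / s) (by field_simp) _ _ _ c2 ?_ ?_
          · have := div_nonneg g.t0 g.s0
            push_cast
            positivity
          · have : t / s ≤ 1 := by rw [div_le_one hs]; exact hst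
            push_cast
            linarith
      · -- `t > T`
        have hk : Nat.ble T n.KB = true := by
          have : (T : ℝ) ≤ n.KB := htT.le.trans e4
          exact Nat.ble_eq_true_of_le (by exact_mod_cast this)
        rw [hk] at c4
        exact qchk_sound hB g h0 h1 hM _ _ _ _ _ c4 e1 hsT htT.le e4
    · have hk : Nat.ble T n.SB = true := by
        have : (T : ℝ) ≤ n.SB := hsT.le.trans e2
        exact Nat.ble_eq_true_of_le (by exact_mod_cast this)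
      rw [hk] at c3
      exact qchk_sound hB g h0 h1 hM _ _ _ _ _ c3 hsT.le e2 e3 e4

/-- **THE PAIR FUNCTION** on one piece. -/
theorem chkQ_sound {P : Pc} {B : Bx} (hB : B.ok = true) {n : Nm} {C : QCert}
    (hc : chkQ P B n C = true) {h s t c u : ℝ} (g : Geo h s t c u)
    (h0 : (B.H0 : ℝ) / 1000000 ≤ h) (h1 : h ≤ (B.H1 : ℝ) / 1000000)
    (hs0 : P.sa.r ≤ s) (hs1 : s ≤ P.sb.r) (ht0 : P.ka.r ≤ t) (ht1 : t ≤ P.kb.r) : Goal P s t u := by
  unfold chkQ at hc
  simp only [Bool.and_eq_true] at hc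
  obtain ⟨c0, c1, c2, c3⟩ := hc
  have hn := NOk.of c0
  have hsb : s < 9 / 20 := by
    have := hn.sb
    have := hn.sb'
    linarith
  have z1 : P.dv = true → (M1 n P.ty).Zero := by
    intro hd
    have := (hn.dv hd).2.2
    cases P.ty with
    | std => exact ⟨this, this, this⟩
    | sq p q => exact ⟨this, this, this⟩
  have z3 : P.dv = true → (M3 n P.ty).Zero := by
    intro hd
    have := (hn.dv hd).2.2
    cases P.ty with
    | std =>
      refine ⟨rfl, ?_, this⟩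
      have hKA : Nat.ble 450000 n.KA = false := by
        have h1 := hn.ka
        rw [(hn.dv hd).1] at h1
        have h2 : (n.KA : ℝ) ≤ 0 := by linarith
        have h3 : n.KA ≤ 0 := by exact_mod_cast h2
        rw [Nat.le_zero.mp h3]
        rfl
      show (cond (Nat.ble n.KB 450000) _ (cond (Nat.ble 450000 n.KA) _ _) : Po).c0 = 0
      rw [hKA]
      cases Nat.ble n.KB 450000 <;> exact this
    | sq p q => exact ⟨rfl, this, this⟩
  -- the origin
  by_cases hne : P.dv = true → s ≠ 0 ∨ t ≠ 0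
  · rcases le_total u (max s t) with hM | hM
    · by_cases hτ : P.ty = .std ∧ 9 / 20 ≤ u
      · obtain ⟨hty, hτ⟩ := hτ
        have htτ : 9 / 20 ≤ t := by
          rcases le_max_iff.mp (hτ.trans hM) with h5 | h5
          · linarith
          · exact h5
        have e4 : t * 1000000 ≤ n.KB := le_trans (by linarith) hn.kb
        have hk : (isStd P.ty && Nat.ble 450000 n.KB) = true := by
          rw [hty]
          simp only [isStd, Bool.true_and]
          have : (450000 : ℝ) ≤ n.KB := by linarith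
          exact Nat.ble_eq_true_of_le (by exact_mod_cast this)
        rw [hk] at c2
        simp only [cond_true] at c2
        refine qchk_sound hB g h0 h1 (mode2 hn hty g.s0 g.t0 hM hτ) _ _ _ _ _ c2
          (hn.sa.trans (by linarith)) (le_trans (by linarith) hn.sb) ?_ e4
        have e3 : (n.KA : ℝ) ≤ t * 1000000 := hn.ka.trans (by linarith)
        cases Nat.ble n.KA 450000 with
        | true => simp only [cond_true]; push_cast; linarith
        | false => simpa only [cond_false] using e3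
      · refine chkM_sound hB hn c1 z1 g h0 h1 (mode1 hn g.s0 g.t0 g.u0 hM ?_) hs0 hs1 ht0 ht1 hne
        intro hty
        by_contra hcon
        exact hτ ⟨hty, not_lt.mp hcon⟩
    · refine chkM_sound hB hn c3 z3 g h0 h1 (mode3 hn g.s0 g.t0 g.t1 hsb.le (fun hk => ?_)
        (fun hk => ?_) hM) hs0 hs1 ht0 ht1 hne
      · have h5 : (n.KB : ℝ) ≤ 450000 := by exact_mod_cast Nat.le_of_ble_eq_true hk
        have h6 := hn.kb
        linarith
      · have h5 : (450000 : ℝ) ≤ n.KA := by exact_mod_cast Nat.le_of_ble_eq_true hk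
        have h6 := hn.ka
        linarith
  · push Not at hne
    obtain ⟨hd, hs, ht⟩ := hne
    obtain ⟨hka, hba, -⟩ := hn.dv hd
    unfold Goal
    rw [hs, ht, hka, hba, max_self, min_eq_right g.u0]
    have h8 : (0 : ℝ) ≤ Gv P.ty u := by
      have h9 := Gv_mono P.ty hn.ty (le_refl (0 : ℝ)) g.u0
      refine le_trans (le_of_eq ?_) h9
      cases P.ty with
      | std => rw [Gv_std_def]; norm_num
      | sq p q => simp [Gv]
    have h9 := mul_nonneg hn.w0 h8
    have h10 : omg 0 = 0 := by unfold omg; norm_num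
    rw [h10]
    nlinarith

/-! ### the interface with the merging inequality -/

end PQ

namespace CEG

open PQ Ent

variable {Γ : RF} {n : ℕ} {A : Matrix (Fin n) (Fin n) ℂ}

/-- THE MERGING INEQUALITY with the geometric data (row `i` gets the small weight). -/
theorem pairQ (h : CEG Γ A) (i j : Fin n) (hij : i ≠ j) :
    ∃ u : Fin n → ℝ,
      (∀ k, k ≠ i → k ≠ j → 0 ≤ u k ∧ u k ≤ 1 ∧
        ∃ c, PQ.Geo (row A i j) (row A i k) (row A j k) c (u k)) ∧
      2 * Real.log (1 + row A i j) + Γ.G (Fin n) (vrow i j u)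
        < Γ.G (Fin n) (row A i) + Γ.G (Fin n) (row A j)
          + ∑ k ∈ {i, j}ᶜ, (omg (row A i k) + omg (row A j k)
            - omg (Min.min (u k) (Max.max (row A i k) (row A j k)))) := by
  have hr0 := row_nonneg A i j
  have hr1 := row_le_one A h.psd h.diag i j
  set x := row A i j with hx
  have hs := Real.sq_sqrt (by linarith : 0 ≤ 1 - x)
  have hs0 := Real.sqrt_nonneg (1 - x)
  set r := Real.sqrt (1 - x) with hr
  have hr1' : r ≤ 1 := by nlinarith
  have hnorm : ‖A i j‖ = Real.sqrt x := by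
    rw [hx]
    unfold row
    rw [Real.sqrt_sq (norm_nonneg _)]
  have hxx := Real.sq_sqrt hr0
  set α := Real.sqrt ((1 - r) / (2 * (1 + x))) with hα
  set β := Real.sqrt ((1 + r) / (2 * (1 + x))) with hβ
  have hα2 : α ^ 2 = (1 - r) / (2 * (1 + x)) :=
    Real.sq_sqrt (div_nonneg (by linarith) (by linarith))
  have hβ2 : β ^ 2 = (1 + r) / (2 * (1 + x)) :=
    Real.sq_sqrt (div_nonneg (by linarith) (by linarith))
  have hP : 0 < 1 + x := by linarith
  have hαβ : α * β = Real.sqrt x / (2 * (1 + x)) := by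
    have h1 : (α * β) ^ 2 = (Real.sqrt x / (2 * (1 + x))) ^ 2 := by
      rw [mul_pow, hα2, hβ2, div_mul_div_comm, div_pow, hxx]
      have : (1 - r) * (1 + r) = x := by nlinarith
      rw [this, ← pow_two]
    have h2 : 0 ≤ α * β := mul_nonneg (Real.sqrt_nonneg _) (Real.sqrt_nonneg _)
    have h3 : 0 ≤ Real.sqrt x / (2 * (1 + x)) := div_nonneg (Real.sqrt_nonneg _) (by linarith)
    exact (pow_left_inj₀ h2 h3 two_ne_zero).mp h1
  obtain ⟨u, c, h4, h5⟩ := h.nr3 i j hij α β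
    (by rw [hα2, hβ2, ← hx]; field_simp; ring) (by rw [hαβ, hnorm])
  refine ⟨u, fun k hki hkj => ?_, h5⟩
  obtain ⟨e1, e2, e3, e4, e5⟩ := h4 k hki hkj
  refine ⟨e1, e2, c k, ?_⟩
  refine ⟨hr0, hr1, row_nonneg A _ _, row_nonneg A _ _, row_le_one A h.psd h.diag _ _, e1, e4, ?_, ?_⟩
  · rw [hnorm] at e5; exact e5
  · rw [e3, hα2, hβ2, hαβ, ← hr]
    field_simp
    ring

end CEG

namespace PQ

end PQ
end Fr
end Pool.Agent.Lib.MP_6947cd_al
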