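import Pool.Agent.Lib.MP_6947cd_al.T.Frame6
import Pool.Agent.Lib.MP_6947cd_al.T.TwoT04
import Pool.Agent.Lib.MP_6947cd_al.T.TwoT05
import Pool.Agent.Lib.MP_6947cd_al.T.TwoT06
import Pool.Agent.Lib.MP_6947cd_al.T.TwoT07
import Pool.Agent.Lib.MP_6947cd_al.T.TwoT08
import Pool.Agent.Lib.MP_6947cd_al.T.TwoT09
import Pool.Agent.Lib.MP_6947cd_al.T.TwoT10
import Pool.Agent.Lib.MP_6947cd_al.T.Geo
import Pool.Agent.Lib.MP_6947cd_al.L.PairQ

/-!
Problem MP_6947cd_al (Chollet).  The two-entry loss in the row functional `GG` and in the inequalities of a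
minimal counterexample: `lo2 s t` is the loss of the two entries `s`, `t` of one row.
-/

set_option autoImplicit false
open scoped Matrix ComplexOrder
open Matrix Finset

namespace Pool.Agent.Lib.MP_6947cd_al
namespace Fr

open Ent

/-- loss of the smaller entry -/
noncomputable def l1 (A B s : ℝ) : ℝ := max (A * s + B / 2 * s ^ 2) (gtr (3 / 20) (9 / 20) s)

/-- loss of an entry `s` in the presence of an entry `M ≥ s` -/
noncomputable def lv (M s : ℝ) : ℝ :=
  if 10 / 10 ≤ M then l1 (161 / 1000) (240 / 1000) s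
    else if 9 / 10 ≤ M then l1 (169 / 1000) (260 / 1000) s
    else if 8 / 10 ≤ M then l1 (178 / 1000) (285 / 1000) s
    else if 7 / 10 ≤ M then l1 (186 / 1000) (310 / 1000) s
    else if 6 / 10 ≤ M then l1 (194 / 1000) (330 / 1000) s
    else if 5 / 10 ≤ M then l1 (202 / 1000) (340 / 1000) s
    else if 4 / 10 ≤ M then l1 (208 / 1000) (345 / 1000) s
    else omg s

/-- loss of two entries of one row -/
noncomputable def lo2 (s t : ℝ) : ℝ := lv (max s t) (min s t) + omg (max s t)

lemma lo2_comm (s t : ℝ) : lo2 s t = lo2 t s := by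
  unfold lo2
  rw [max_comm, min_comm]

lemma l1_le_omg (A B : ℝ) (hA : A ≤ 43 / 200) (hB : B / 2 ≤ 39 / 200) {s : ℝ} (hs : 0 ≤ s)
    (hs1 : s ≤ 1) : l1 A B s ≤ omg s := by
  unfold l1
  refine max_le ?_ ?_
  · unfold omg
    nlinarith [mul_nonneg hs (sub_nonneg.mpr hA), mul_nonneg (sq_nonneg s) (sub_nonneg.mpr hB)]
  · have h := (gtr_mono (3 / 20) (9 / 20) (by norm_num) (by norm_num) (by norm_num) 0 s le_rfl hs hs1).2
    have e1 : gtr (3 / 20) (9 / 20) 0 = 0 := gtr_zero _ _ (by norm_num)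
    have e2 : omg 0 = 0 := by unfold omg; norm_num
    rw [e1, e2] at h
    linarith

lemma l1_mono {A B A' B' : ℝ} (hA : A ≤ A') (hB : B ≤ B') {s : ℝ} (hs : 0 ≤ s) :
    l1 A B s ≤ l1 A' B' s := by
  unfold l1
  refine max_le_max ?_ le_rfl
  have h1 := mul_le_mul_of_nonneg_right hA hs
  have h2 := mul_le_mul_of_nonneg_right (show B / 2 ≤ B' / 2 by linarith) (sq_nonneg s)
  linarith

/-- the ordinary loss is larger -/
lemma lv_le_omg {M s : ℝ} (hs : 0 ≤ s) (hs1 : s ≤ 1) : lv M s ≤ omg s := by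
  unfold lv
  split_ifs <;> first | exact le_rfl | exact l1_le_omg _ _ (by norm_num) (by norm_num) hs hs1

/-- the levels -/
lemma lv_le_04 {M s : ℝ} (hs : 0 ≤ s) (h : 4 / 10 ≤ M) : lv M s ≤ l1 (208 / 1000) (345 / 1000) s := by
  unfold lv
  split_ifs <;> exact l1_mono (by norm_num) (by norm_num) hs

lemma lv_le_05 {M s : ℝ} (hs : 0 ≤ s) (h : 5 / 10 ≤ M) : lv M s ≤ l1 (202 / 1000) (340 / 1000) s := by
  unfold lv
  split_ifs <;> exact l1_mono (by norm_num) (by norm_num) hs

lemma lv_le_06 {M s : ℝ} (hs : 0 ≤ s) (h : 6 / 10 ≤ M) : lv M s ≤ l1 (194 / 1000) (330 / 1000) s := by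
  unfold lv
  split_ifs <;> exact l1_mono (by norm_num) (by norm_num) hs

lemma lv_le_07 {M s : ℝ} (hs : 0 ≤ s) (h : 7 / 10 ≤ M) : lv M s ≤ l1 (186 / 1000) (310 / 1000) s := by
  unfold lv
  split_ifs <;> exact l1_mono (by norm_num) (by norm_num) hs

lemma lv_le_08 {M s : ℝ} (hs : 0 ≤ s) (h : 8 / 10 ≤ M) : lv M s ≤ l1 (178 / 1000) (285 / 1000) s := by
  unfold lv
  split_ifs <;> exact l1_mono (by norm_num) (by norm_num) hs

lemma lv_le_09 {M s : ℝ} (hs : 0 ≤ s) (h : 9 / 10 ≤ M) : lv M s ≤ l1 (169 / 1000) (260 / 1000) s := by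
  unfold lv
  split_ifs <;> exact l1_mono (by norm_num) (by norm_num) hs

lemma lo2_le_omg {s t : ℝ} (hs : 0 ≤ s) (hs1 : s ≤ 1) (ht : 0 ≤ t) : lo2 s t ≤ omg s + omg t := by
  have hm0 : 0 ≤ min s t := le_min hs ht
  have hm1 : min s t ≤ 1 := (min_le_left _ _).trans hs1
  have e : omg s + omg t = omg (min s t) + omg (max s t) := by
    rcases le_total s t with h | h
    · rw [min_eq_left h, max_eq_right h]
    · rw [min_eq_right h, max_eq_left h]; ring
  rw [e]
  unfold lo2
  exact add_le_add (lv_le_omg hm0 hm1) le_rfl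

section Row
variable {κ : Type} [Fintype κ] [DecidableEq κ]

/-- loss in `GG` of an entry in the presence of a larger entry `≥ a` -/
theorem GG_update_two (b : κ → ℝ) (hb0 : ∀ j, 0 ≤ b j) (hb1 : ∀ j, b j ≤ 1) (i c d : κ)
    (hic : i ≠ c) (hid : i ≠ d) (hcd : c ≠ d) (hi : b i = 1) (a A B : ℝ) (ha : 0 < a)
    (had : a ≤ b d) (hbcd : b c ≤ b d) (hA : 0 ≤ A) (hB : 0 ≤ B) (H : TwoHyp a A B) :
    GG.G κ b ≤ GG.G κ (Function.update b c 0) + l1 A B (b c) := by
  have h1 := F_update_two b hb0 hb1 i c d hic hid hcd hi a A B ha had hbcd hA hB H 0 le_rfl (hb0 c)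
  have h2 : ∑ j, gtr (3 / 20) (9 / 20) (b j) = gtr (3 / 20) (9 / 20) (b c)
      + ∑ j, gtr (3 / 20) (9 / 20) (Function.update b c 0 j) := by
    rw [← Finset.add_sum_erase _ _ (Finset.mem_univ c),
      ← Finset.add_sum_erase _ (fun j => gtr (3 / 20) (9 / 20) (Function.update b c 0 j))
        (Finset.mem_univ c), Function.update_self, gtr_zero _ _ (by norm_num), zero_add]
    congr 1
    refine Finset.sum_congr rfl fun j hj => ?_
    rw [Function.update_of_ne (Finset.ne_of_mem_erase hj)]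
  have hg0 : 0 ≤ gtr (3 / 20) (9 / 20) (b c) := by
    have := (gtr_mono (3 / 20) (9 / 20) (by norm_num) (by norm_num) (by norm_num) 0 (b c) le_rfl
      (hb0 c) (hb1 c)).1
    rwa [gtr_zero _ _ (by norm_num)] at this
  refine max_le ?_ ?_
  · refine h1.trans ?_
    have h3 : F (Function.update b c 0) ≤ GG.G κ (Function.update b c 0) := F_le_GG _
    have h4 : A * b c + B / 2 * (b c) ^ 2 ≤ l1 A B (b c) := le_max_left _ _
    have e : A * (b c - 0) + B / 2 * ((b c) ^ 2 - 0 ^ 2) = A * b c + B / 2 * (b c) ^ 2 := by ring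
    rw [e]
    linarith
  · set X := ∑ j, gtr (3 / 20) (9 / 20) (Function.update b c 0 j) - gtr (3 / 20) (9 / 20) 1 with hX
    have h3 : phi (6 / 125) (1 / 2) X ≤ GG.G κ (Function.update b c 0) := le_max_right _ _
    have h4 : gtr (3 / 20) (9 / 20) (b c) ≤ l1 A B (b c) := le_max_right _ _
    have h5 := (phi_mono (6 / 125) (1 / 2) X (X + gtr (3 / 20) (9 / 20) (b c)) (by linarith)).2
    have e : ∑ j, gtr (3 / 20) (9 / 20) (b j) - gtr (3 / 20) (9 / 20) 1
        = X + gtr (3 / 20) (9 / 20) (b c) := by rw [h2, hX]; ring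
    have h6 : phi (6 / 125) (1 / 2) (∑ j, gtr (3 / 20) (9 / 20) (b j) - gtr (3 / 20) (9 / 20) 1)
        ≤ GG.G κ (Function.update b c 0) + l1 A B (b c) := by
      rw [e]
      linarith
    exact h6

/-- removing the entries of `V` in the presence of a larger entry `p` outside `V`, one level, `F` -/
theorem F_restV (b : κ → ℝ) (hb0 : ∀ j, 0 ≤ b j) (hb1 : ∀ j, b j ≤ 1) (k p : κ) (hkp : k ≠ p)
    (hk : b k = 1) (a A B : ℝ) (ha : 0 < a) (hap : a ≤ b p) (hA : 0 ≤ A) (hB : 0 ≤ B)
    (H : TwoHyp a A B) (V : Finset κ) (hkV : k ∉ V) (hpV : p ∉ V) (hV : ∀ q ∈ V, b q ≤ b p) :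
    F b ≤ F (rest b V) + ∑ q ∈ V, (A * b q + B / 2 * (b q) ^ 2) := by
  classical
  induction V using Finset.induction_on with
  | empty =>
    have e : rest b ∅ = b := by funext j; simp [rest]
    rw [e]
    simp
  | insert q V hq ih =>
    have h1 := ih (fun h => hkV (Finset.mem_insert_of_mem h)) (fun h => hpV (Finset.mem_insert_of_mem h))
      (fun q hq => hV q (Finset.mem_insert_of_mem hq))
    have hqk : k ≠ q := fun h => hkV (h ▸ Finset.mem_insert_self q V)
    have hqp : p ≠ q := fun h => hpV (h ▸ Finset.mem_insert_self q V)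
    have hkV' : k ∉ V := fun h => hkV (Finset.mem_insert_of_mem h)
    have hpV' : p ∉ V := fun h => hpV (Finset.mem_insert_of_mem h)
    have r0 : ∀ j, 0 ≤ rest b V j := fun j => by unfold rest; split_ifs; exacts [le_rfl, hb0 j]
    have r1 : ∀ j, rest b V j ≤ 1 := fun j => by unfold rest; split_ifs; exacts [zero_le_one, hb1 j]
    have ek : rest b V k = 1 := by unfold rest; rw [if_neg hkV', hk]
    have ep : rest b V p = b p := by unfold rest; rw [if_neg hpV']
    have eq : rest b V q = b q := by unfold rest; rw [if_neg hq]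
    have h2 := F_update_two (rest b V) r0 r1 k q p hqk hkp hqp.symm ek a A B ha (by rw [ep]; exact hap)
      (by rw [ep, eq]; exact hV q (Finset.mem_insert_self q V)) hA hB H 0 le_rfl (r0 q)
    have e : Function.update (rest b V) q 0 = rest b (insert q V) := by
      funext j
      by_cases h : j = q
      · rw [h, Function.update_self]
        unfold rest
        rw [if_pos (Finset.mem_insert_self q V)]
      · rw [Function.update_of_ne h]
        unfold rest
        simp [Finset.mem_insert, h]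
    rw [e, eq] at h2
    rw [Finset.sum_insert hq]
    have e3 : A * (b q - 0) + B / 2 * ((b q) ^ 2 - 0 ^ 2) = A * b q + B / 2 * (b q) ^ 2 := by ring
    linarith

/-- removing the entries of `V` in the presence of a larger entry `p` outside `V`, one level -/
theorem GG_restV (b : κ → ℝ) (hb0 : ∀ j, 0 ≤ b j) (hb1 : ∀ j, b j ≤ 1) (k p : κ) (hkp : k ≠ p)
    (hk : b k = 1) (a A B : ℝ) (ha : 0 < a) (hap : a ≤ b p) (hA : 0 ≤ A) (hB : 0 ≤ B)
    (H : TwoHyp a A B) (V : Finset κ) (hkV : k ∉ V) (hpV : p ∉ V) (hV : ∀ q ∈ V, b q ≤ b p) :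
    GG.G κ b ≤ GG.G κ (rest b V) + ∑ q ∈ V, l1 A B (b q) := by
  classical
  induction V using Finset.induction_on with
  | empty =>
    have e : rest b ∅ = b := by funext j; simp [rest]
    rw [e]
    simp
  | insert q V hq ih =>
    have h1 := ih (fun h => hkV (Finset.mem_insert_of_mem h)) (fun h => hpV (Finset.mem_insert_of_mem h))
      (fun q hq => hV q (Finset.mem_insert_of_mem hq))
    have hqk : k ≠ q := fun h => hkV (h ▸ Finset.mem_insert_self q V)
    have hqp : p ≠ q := fun h => hpV (h ▸ Finset.mem_insert_self q V)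
    have hkV' : k ∉ V := fun h => hkV (Finset.mem_insert_of_mem h)
    have hpV' : p ∉ V := fun h => hpV (Finset.mem_insert_of_mem h)
    have r0 : ∀ j, 0 ≤ rest b V j := fun j => by unfold rest; split_ifs; exacts [le_rfl, hb0 j]
    have r1 : ∀ j, rest b V j ≤ 1 := fun j => by unfold rest; split_ifs; exacts [zero_le_one, hb1 j]
    have ek : rest b V k = 1 := by unfold rest; rw [if_neg hkV', hk]
    have ep : rest b V p = b p := by unfold rest; rw [if_neg hpV']
    have eq : rest b V q = b q := by unfold rest; rw [if_neg hq]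
    have h2 := GG_update_two (rest b V) r0 r1 k q p hqk hkp hqp.symm ek a A B ha
      (by rw [ep]; exact hap) (by rw [ep, eq]; exact hV q (Finset.mem_insert_self q V)) hA hB H
    have e : Function.update (rest b V) q 0 = rest b (insert q V) := by
      funext j
      by_cases h : j = q
      · rw [h, Function.update_self]
        unfold rest
        rw [if_pos (Finset.mem_insert_self q V)]
      · rw [Function.update_of_ne h]
        unfold rest
        simp [Finset.mem_insert, h]
    rw [e, eq] at h2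
    rw [Finset.sum_insert hq]
    linarith

/-- removing the entries of `V` in the presence of a larger entry `p` outside `V` -/
theorem GG_restL (b : κ → ℝ) (hb0 : ∀ j, 0 ≤ b j) (hb1 : ∀ j, b j ≤ 1) (k p : κ) (hkp : k ≠ p)
    (hk : b k = 1) (V : Finset κ) (hkV : k ∉ V) (hpV : p ∉ V) (hV : ∀ q ∈ V, b q ≤ b p) :
    GG.G κ b ≤ GG.G κ (rest b V) + ∑ q ∈ V, lv (b p) (b q) := by
  have hlev : ∀ a A B : ℝ, 0 < a → 0 ≤ A → 0 ≤ B → TwoHyp a A B → a ≤ b p →
      (∀ s, lv (b p) s = l1 A B s) → GG.G κ b ≤ GG.G κ (rest b V) + ∑ q ∈ V, lv (b p) (b q) := by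
    intro a A B ha hA hB H hap e
    simp only [e]
    exact GG_restV b hb0 hb1 k p hkp hk a A B ha hap hA hB H V hkV hpV hV
  by_cases h1 : 10 / 10 ≤ b p
  · refine hlev _ _ _ (by norm_num) (by norm_num) (by norm_num) two10 h1 fun s => ?_
    unfold lv; rw [if_pos h1]
  by_cases h2 : 9 / 10 ≤ b p
  · refine hlev _ _ _ (by norm_num) (by norm_num) (by norm_num) two09 h2 fun s => ?_
    unfold lv; rw [if_neg h1, if_pos h2]
  by_cases h3 : 8 / 10 ≤ b p
  · refine hlev _ _ _ (by norm_num) (by norm_num) (by norm_num) two08 h3 fun s => ?_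
    unfold lv; rw [if_neg h1, if_neg h2, if_pos h3]
  by_cases h4 : 7 / 10 ≤ b p
  · refine hlev _ _ _ (by norm_num) (by norm_num) (by norm_num) two07 h4 fun s => ?_
    unfold lv; rw [if_neg h1, if_neg h2, if_neg h3, if_pos h4]
  by_cases h5 : 6 / 10 ≤ b p
  · refine hlev _ _ _ (by norm_num) (by norm_num) (by norm_num) two06 h5 fun s => ?_
    unfold lv; rw [if_neg h1, if_neg h2, if_neg h3, if_neg h4, if_pos h5]
  by_cases h6 : 5 / 10 ≤ b p
  · refine hlev _ _ _ (by norm_num) (by norm_num) (by norm_num) two05 h6 fun s => ?_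
    unfold lv; rw [if_neg h1, if_neg h2, if_neg h3, if_neg h4, if_neg h5, if_pos h6]
  by_cases h7 : 4 / 10 ≤ b p
  · refine hlev _ _ _ (by norm_num) (by norm_num) (by norm_num) two04 h7 fun s => ?_
    unfold lv; rw [if_neg h1, if_neg h2, if_neg h3, if_neg h4, if_neg h5, if_neg h6, if_pos h7]
  have e : ∀ s, lv (b p) s = omg s := fun s => by
    unfold lv; rw [if_neg h1, if_neg h2, if_neg h3, if_neg h4, if_neg h5, if_neg h6, if_neg h7]
  simp only [e]
  exact GG.rest_le b hb0 hb1 k hk V hkV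

/-- THE LOSS OF THE ENTRIES OF `U`, `p ∈ U` being a largest one. -/
theorem GG_restU (b : κ → ℝ) (hb0 : ∀ j, 0 ≤ b j) (hb1 : ∀ j, b j ≤ 1) (k p : κ)
    (hk : b k = 1) (U : Finset κ) (hkU : k ∉ U) (hpU : p ∈ U) (hU : ∀ q ∈ U, b q ≤ b p) :
    GG.G κ b ≤ GG.G κ (rest b U) + (omg (b p) + ∑ q ∈ U.erase p, lv (b p) (b q)) := by
  have hkp : k ≠ p := fun h => hkU (h ▸ hpU)
  have h1 := GG_restL b hb0 hb1 k p hkp hk (U.erase p) (fun h => hkU (Finset.mem_of_mem_erase h))
    (Finset.notMem_erase p U) (fun q hq => hU q (Finset.mem_of_mem_erase hq))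
  have r0 : ∀ j, 0 ≤ rest b (U.erase p) j := fun j => by
    unfold rest; split_ifs; exacts [le_rfl, hb0 j]
  have r1 : ∀ j, rest b (U.erase p) j ≤ 1 := fun j => by
    unfold rest; split_ifs; exacts [zero_le_one, hb1 j]
  have ek : rest b (U.erase p) k = 1 := by
    unfold rest
    rw [if_neg (fun h => hkU (Finset.mem_of_mem_erase h)), hk]
  have h2 := GG.rest_le (rest b (U.erase p)) r0 r1 k ek {p} (by simpa using hkp)
  have e : rest (rest b (U.erase p)) {p} = rest b U := by
    funext j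
    unfold rest
    by_cases h : j = p
    · simp [h, hpU]
    · simp [h]
  have ep : rest b (U.erase p) p = b p := by
    unfold rest
    rw [if_neg (Finset.notMem_erase p U)]
  rw [e, Finset.sum_singleton, ep] at h2
  linarith

/-- the loss of two entries of a row, one of them being replaced -/
theorem GG_lose2 (b : κ → ℝ) (hb0 : ∀ j, 0 ≤ b j) (hb1 : ∀ j, b j ≤ 1) (i p q : κ) (hip : i ≠ p)
    (hiq : i ≠ q) (hpq : p ≠ q) (hi : b i = 1) (hqp : b q ≤ b p) (w : ℝ) (hw0 : 0 ≤ w)
    (hw : w ≤ b p) :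
    GG.G κ b ≤ GG.G κ (fun l => if l = p then w else if l = q then 0 else b l)
      + (lo2 (b p) (b q) - omg w) := by
  set b' : κ → ℝ := fun l => if l = p then w else if l = q then 0 else b l with hb'
  have h1 := GG_restL b hb0 hb1 i p hip hi {q} (by simpa using hiq) (by simpa using hpq)
    (fun l hl => by rw [Finset.mem_singleton.mp hl]; exact hqp)
  rw [Finset.sum_singleton] at h1
  have r0 : ∀ j, 0 ≤ rest b {q} j := fun j => by unfold rest; split_ifs; exacts [le_rfl, hb0 j]
  have r1 : ∀ j, rest b {q} j ≤ 1 := fun j => by unfold rest; split_ifs; exacts [zero_le_one, hb1 j]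
  have h3 := GG.sub_le κ (rest b {q}) b'
    (fun l => by
      simp only [hb']
      split_ifs
      · exact hw0
      · exact le_rfl
      · exact hb0 _)
    (fun l => by
      simp only [hb']
      unfold rest
      split_ifs with h4 h5 h6 h7 <;> simp_all) r1 i
    (by simp only [hb']; rw [if_neg hip, if_neg hiq]; exact hi)
  have h4 : ∑ l, (omg (rest b {q} l) - omg (b' l)) = omg (b p) - omg w := by
    rw [Finset.sum_eq_single p]
    · simp [hb', rest, hpq]
    · intro l _ hl
      by_cases h : l = q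
      · simp [hb', rest, h, Ne.symm hpq]
      · simp [hb', rest, h, hl]
    · intro h; exact absurd (Finset.mem_univ p) h
  rw [h4] at h3
  have hM : max (b p) (b q) = b p := max_eq_left hqp
  have hm : min (b p) (b q) = b q := min_eq_right hqp
  unfold lo2
  rw [hM, hm]
  linarith

/-- the loss of two entries of a row -/
theorem GG_rest2 (b : κ → ℝ) (hb0 : ∀ j, 0 ≤ b j) (hb1 : ∀ j, b j ≤ 1) (k i j : κ) (hki : k ≠ i)
    (hkj : k ≠ j) (hij : i ≠ j) (hk : b k = 1) :
    GG.G κ b ≤ GG.G κ (rest b {i, j}) + lo2 (b i) (b j) := by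
  have e4 : omg 0 = 0 := by unfold omg; norm_num
  rcases le_total (b j) (b i) with h | h
  · have h1 := GG_lose2 b hb0 hb1 k i j hki hkj hij hk h 0 le_rfl (hb0 i)
    rw [e4, sub_zero] at h1
    refine h1.trans (le_of_eq ?_)
    congr 2
    funext l
    unfold rest
    by_cases h2 : l = i
    · simp [h2]
    · by_cases h3 : l = j
      · simp [h3]
      · simp [h2, h3]
  · have h1 := GG_lose2 b hb0 hb1 k j i hkj hki hij.symm hk h 0 le_rfl (hb0 j)
    rw [e4, sub_zero, lo2_comm] at h1
    refine h1.trans (le_of_eq ?_)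
    congr 2
    funext l
    unfold rest
    by_cases h2 : l = i
    · simp [h2]
    · by_cases h3 : l = j
      · simp [h3]
      · simp [h2, h3]

end Row

namespace CEG

open PQ

variable {n : ℕ} {A : Matrix (Fin n) (Fin n) ℂ}

/-- the loss of two entries in a minimal counterexample -/
theorem loss2 (h : CEG GG A) (i j k : Fin n) (hki : k ≠ i) (hkj : k ≠ j) (hij : i ≠ j) :
    GG.G (Fin n) (row A k) ≤ GG.G (Fin n) (rest (row A k) {i, j}) + lo2 (row A i k) (row A j k) := by
  have h1 := GG_rest2 (row A k) (row_nonneg A k) (row_le_one A h.psd h.diag k) k i j hki hkj hij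
    (row_diag A h.diag k)
  rwa [row_symm A h.psd k i, row_symm A h.psd k j] at h1

/-- the loss of the entries of `U` in a minimal counterexample -/
theorem lossU (h : CEG GG A) (U : Finset (Fin n)) (k p : Fin n) (hkU : k ∉ U) (hpU : p ∈ U)
    (hU : ∀ q ∈ U, row A q k ≤ row A p k) :
    GG.G (Fin n) (row A k) ≤ GG.G (Fin n) (rest (row A k) U)
      + (omg (row A p k) + ∑ q ∈ U.erase p, lv (row A p k) (row A q k)) := by
  have h1 := GG_restU (row A k) (row_nonneg A k) (row_le_one A h.psd h.diag k) k p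
    (row_diag A h.diag k) U hkU hpU (fun q hq => by
      rw [row_symm A h.psd k q, row_symm A h.psd k p]
      exact hU q hq)
  rw [row_symm A h.psd k p] at h1
  have e : ∑ q ∈ U.erase p, lv (row A p k) (row A k q)
      = ∑ q ∈ U.erase p, lv (row A p k) (row A q k) :=
    Finset.sum_congr rfl fun q _ => by rw [row_symm A h.psd k q]
  rwa [e] at h1

/-- `NR_ij` with the two-entry loss -/
theorem nr_pair2 (h : CEG GG A) (i j : Fin n) (hij : i ≠ j) :
    2 * Real.log (1 + row A i j) < GG.G (Fin n) (row A i) + GG.G (Fin n) (row A j)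
      + ∑ k ∈ {i, j}ᶜ, lo2 (row A i k) (row A j k) := by
  have h1 := h.nr_gen {i, j} (Finset.insert_nonempty i {j}) (fun k => lo2 (row A i k) (row A j k))
    (fun k hk => by
      simp only [Finset.mem_insert, Finset.mem_singleton, not_or] at hk
      exact h.loss2 i j k hk.1 hk.2 hij)
  rw [Finset.sum_pair hij, S_two A h.psd h.diag i j hij] at h1
  exact h1

/-- the two vertex inequality with the two-entry loss -/
theorem n1_two (h : CEG GG A) (i j : Fin n) (hij : i ≠ j) :
    (1 - row A i j) * Real.exp (-((GG.G (Fin n) (row A i)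
        + (GG.G (Fin n) (row A j) - GG.G (Fin n) (rest (row A j) {i}))
        + ∑ k ∈ {i, j}ᶜ, omg (row A i k)) / 2))
      + 2 * row A i j * Real.exp (-((GG.G (Fin n) (row A i) + GG.G (Fin n) (row A j)
        + ∑ k ∈ {i, j}ᶜ, lo2 (row A i k) (row A j k)) / 2)) < 1 :=
  h.n1_gen i j hij (fun k => omg (row A i k)) (fun k => lo2 (row A i k) (row A j k))
    (fun k hki _ => by
      have := h.loss {i} k (by simpa using hki)
      rwa [Finset.sum_singleton] at this)
    (fun k hki hkj => h.loss2 i j k hki hkj hij)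

/-- THE MERGING INEQUALITY with the geometric data (row `i` gets the small weight) and the
two-entry loss at every vertex. -/
theorem pairQ2 (h : CEG GG A) (i j : Fin n) (hij : i ≠ j) :
    ∃ u : Fin n → ℝ,
      (∀ k, k ≠ i → k ≠ j → 0 ≤ u k ∧ u k ≤ 1 ∧
        ∃ c, PQ.Geo (row A i j) (row A i k) (row A j k) c (u k)) ∧
      2 * Real.log (1 + row A i j) + GG.G (Fin n) (vrow i j u)
        < GG.G (Fin n) (row A i) + GG.G (Fin n) (row A j)
          + ∑ k ∈ {i, j}ᶜ, (lo2 (row A i k) (row A j k)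
            - omg (Min.min (u k) (Max.max (row A i k) (row A j k)))) := by
  have hr0 := row_nonneg A i j
  have hr1 := row_le_one A h.psd h.diag i j
  set x := row A i j with hx
  have hs := Real.sq_sqrt (by linarith : 0 ≤ 1 - x)
  have hs0 := Real.sqrt_nonneg (1 - x)
  set r := Real.sqrt (1 - x) with hr
  have hr1' : r ≤ 1 := by nlinarith
  have hnorm : ‖A i j‖ = Real.sqrt x := by
    rw [hx]
    unfold row
    rw [Real.sqrt_sq (norm_nonneg _)]
  have hxx := Real.sq_sqrt hr0
  set α := Real.sqrt ((1 - r) / (2 * (1 + x))) with hα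
  set β := Real.sqrt ((1 + r) / (2 * (1 + x))) with hβ
  have hα2 : α ^ 2 = (1 - r) / (2 * (1 + x)) :=
    Real.sq_sqrt (div_nonneg (by linarith) (by linarith))
  have hβ2 : β ^ 2 = (1 + r) / (2 * (1 + x)) :=
    Real.sq_sqrt (div_nonneg (by linarith) (by linarith))
  have hP : 0 < 1 + x := by linarith
  have hαβ : α * β = Real.sqrt x / (2 * (1 + x)) := by
    have h1 : (α * β) ^ 2 = (Real.sqrt x / (2 * (1 + x))) ^ 2 := by
      rw [mul_pow, hα2, hβ2, div_mul_div_comm, div_pow, hxx]
      have : (1 - r) * (1 + r) = x := by nlinarith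
      rw [this, ← pow_two]
    have h2 : 0 ≤ α * β := mul_nonneg (Real.sqrt_nonneg _) (Real.sqrt_nonneg _)
    have h3 : 0 ≤ Real.sqrt x / (2 * (1 + x)) := div_nonneg (Real.sqrt_nonneg _) (by linarith)
    exact (pow_left_inj₀ h2 h3 two_ne_zero).mp h1
  obtain ⟨u, c, h4, h5⟩ := h.nr3g i j hij α β
    (by rw [hα2, hβ2, ← hx]; field_simp; ring) (by rw [hαβ, hnorm])
    (fun k w => lo2 (row A i k) (row A j k) - omg w)
    (fun k hki hkj p q hpq hne hqp w hw0 hwp => by
      have hp : p = i ∨ p = j := by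
        have : p ∈ ({i, j} : Finset (Fin n)) := by rw [← hpq]; simp
        simpa using this
      have hq : q = i ∨ q = j := by
        have : q ∈ ({i, j} : Finset (Fin n)) := by rw [← hpq]; simp
        simpa using this
      have hkp : k ≠ p := by rcases hp with h | h <;> rw [h] <;> assumption
      have hkq : k ≠ q := by rcases hq with h | h <;> rw [h] <;> assumption
      have h6 := GG_lose2 (row A k) (row_nonneg A k) (row_le_one A h.psd h.diag k) k p q hkp hkq hne
        (row_diag A h.diag k) hqp w hw0 hwp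
      have e : lo2 (row A k p) (row A k q) = lo2 (row A i k) (row A j k) := by
        rw [row_symm A h.psd i k, row_symm A h.psd j k]
        rcases hp with h | h <;> rcases hq with h' | h'
        · exact absurd (h.trans h'.symm) hne
        · rw [h, h']
        · rw [h, h', lo2_comm]
        · exact absurd (h.trans h'.symm) hne
      rw [e] at h6
      exact h6)
  refine ⟨u, fun k hki hkj => ?_, h5⟩
  obtain ⟨e1, e2, e3, e4, e5⟩ := h4 k hki hkj
  refine ⟨e1, e2, c k, ?_⟩
  refine ⟨hr0, hr1, row_nonneg A _ _, row_nonneg A _ _, row_le_one A h.psd h.diag _ _, e1, e4, ?_, ?_⟩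
  · rw [hnorm] at e5; exact e5
  · rw [e3, hα2, hβ2, hαβ, ← hr]
    field_simp
    ring

end CEG

end Fr
end Pool.Agent.Lib.MP_6947cd_al
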