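import Pool.Agent.Lib.MP_6947cd_al.L.Assembly

/-!
Problem MP_6947cd_al (Chollet).  How to use the LOCAL LEMMA: bounds of `rho`, one payer, several payers.

`need W A i k R = D i * (4 h - h²) + 4 R max (D i) (1/1000)`, `h = row A i k`; the payer `k` pays the
fraction `3 h² (- D k) / need`.
-/

set_option autoImplicit false
open scoped Matrix ComplexOrder
open Matrix Finset

namespace Pool.Agent.Lib.MP_6947cd_al
namespace Fr
namespace LL

open Ent

variable {W : ℝ → ℝ} {n : ℕ} {A : Matrix (Fin n) (Fin n) ℂ}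

lemma y_nonneg (l : Fin n) : 0 ≤ y W A l := by
  unfold y
  have : 0 ≤ max (D W A l) 0 := le_max_right _ _
  exact le_min zero_le_one (by positivity)

lemma y_le_one (l : Fin n) : y W A l ≤ 1 := min_le_left _ _

lemma rho_nonneg (i k : Fin n) : 0 ≤ rho W A i k :=
  Finset.sum_nonneg fun l _ => mul_nonneg (y_nonneg l) (row_nonneg A i l)

/-- `rho` is at most the sum over the bad vertices near `k`, different from `i` and `k`. -/
theorem rho_le_sum (i k : Fin n) (hk : D W A k ≤ 0) (T : Finset (Fin n))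
    (hT : ∀ l, l ≠ i → l ≠ k → 0 < D W A l → 3 / 10 ≤ row A k l → l ∈ T) :
    rho W A i k ≤ ∑ l ∈ T, y W A l * row A i l := by
  classical
  unfold rho
  refine Finset.sum_le_sum_of_subset_of_nonneg ?_ fun l _ _ =>
    mul_nonneg (y_nonneg l) (row_nonneg A i l)
  intro l hl
  obtain ⟨h1, h2⟩ := Finset.mem_erase.mp hl
  unfold bad at h2
  obtain ⟨_, h3, h4⟩ := Finset.mem_filter.mp h2
  refine hT l h1 (fun h => ?_) h3 h4
  rw [h] at h3
  exact absurd h3 (not_lt.mpr hk)

/-- `rho` is at most the sum of the other entries of the row `i`. -/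
theorem rho_le_tot (i k : Fin n) (hik : i ≠ k) (hk : D W A k ≤ 0) :
    rho W A i k ≤ tot A i - row A i k := by
  classical
  have h := rho_le_sum i k hk ((univ.erase i).erase k) fun l h1 h2 _ _ =>
    Finset.mem_erase.mpr ⟨h2, Finset.mem_erase.mpr ⟨h1, Finset.mem_univ _⟩⟩
  refine h.trans ?_
  have h2 := Finset.add_sum_erase (univ.erase i) (fun l => row A i l)
    (Finset.mem_erase.mpr ⟨hik.symm, Finset.mem_univ k⟩)
  have h3 : ∑ l ∈ (univ.erase i).erase k, y W A l * row A i l
      ≤ ∑ l ∈ (univ.erase i).erase k, row A i l :=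
    Finset.sum_le_sum fun l _ => mul_le_of_le_one_left (row_nonneg A i l) (y_le_one l)
  unfold tot
  linarith

/-- what the payer `k` has to provide for the vertex `i` -/
noncomputable def need (W : ℝ → ℝ) {n : ℕ} (A : Matrix (Fin n) (Fin n) ℂ) (i k : Fin n) (R : ℝ) : ℝ :=
  D W A i * (4 * row A i k - (row A i k) ^ 2) + 4 * R * max (D W A i) (1 / 1000)

theorem need_pos (hA : A.PosSemidef) (hd : ∀ i, A i i = 1) (i k : Fin n) (hi : 0 < D W A i)
    (hb : 3 / 10 ≤ row A i k) (R : ℝ) (hR : 0 ≤ R) : 0 < need W A i k R := by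
  unfold need
  have h1 := row_le_one A hA hd i k
  have h2 : 0 < 4 * row A i k - (row A i k) ^ 2 := by nlinarith
  have h3 : 0 < max (D W A i) (1 / 1000) := lt_max_of_lt_left hi
  have h4 := mul_pos hi h2
  have h5 : 0 ≤ 4 * R * max (D W A i) (1 / 1000) := by positivity
  linarith

/-- the payment of one payer -/
theorem pay_ge (hA : A.PosSemidef) (hd : ∀ i, A i i = 1) (i k : Fin n) (hi : 0 < D W A i)
    (hb : 3 / 10 ≤ row A i k) (hk : D W A k ≤ 0) (R : ℝ) (hR : rho W A i k ≤ R) :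
    max (D W A i) (1 / 1000) * (3 * (row A i k) ^ 2 * (-D W A k) / need W A i k R)
      ≤ 3 * (row A i k) ^ 2 * (-D W A k)
        / (y W A i * (4 * row A i k - (row A i k) ^ 2) + 4 * rho W A i k) := by
  have h1 := row_le_one A hA hd i k
  have h2 : 0 < 4 * row A i k - (row A i k) ^ 2 := by nlinarith
  have hM : 0 < max (D W A i) (1 / 1000) := lt_max_of_lt_left hi
  have hρ := rho_nonneg (W := W) (A := A) i k
  have hy := y_pos W A hi
  have hden : 0 < y W A i * (4 * row A i k - (row A i k) ^ 2) + 4 * rho W A i k := by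
    have := mul_pos hy h2
    linarith
  have hneed := need_pos hA hd i k hi hb R (hρ.trans hR)
  have hnum : 0 ≤ 3 * (row A i k) ^ 2 * (-D W A k) := by
    have := neg_nonneg.mpr hk
    positivity
  rw [← mul_div_assoc, div_le_div_iff₀ hneed hden]
  have h3 : max (D W A i) (1 / 1000)
      * (y W A i * (4 * row A i k - (row A i k) ^ 2) + 4 * rho W A i k) ≤ need W A i k R := by
    unfold need
    have h4 := y_mul W A hi
    have h5 : max (D W A i) (1 / 1000) * rho W A i k ≤ max (D W A i) (1 / 1000) * R :=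
      mul_le_mul_of_nonneg_left hR hM.le
    nlinarith
  calc max (D W A i) (1 / 1000) * (3 * (row A i k) ^ 2 * (-D W A k))
      * (y W A i * (4 * row A i k - (row A i k) ^ 2) + 4 * rho W A i k)
      = (3 * (row A i k) ^ 2 * (-D W A k)) * (max (D W A i) (1 / 1000)
        * (y W A i * (4 * row A i k - (row A i k) ^ 2) + 4 * rho W A i k)) := by ring
    _ ≤ (3 * (row A i k) ^ 2 * (-D W A k)) * need W A i k R :=
      mul_le_mul_of_nonneg_left h3 hnum

/-- THE LOCAL LEMMA FROM SEVERAL PAYERS: the fractions add up to at least one. -/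
theorem LLat_of_sum (hA : A.PosSemidef) (hd : ∀ i, A i i = 1) (i : Fin n) (hi : 0 < D W A i)
    (S : Finset (Fin n)) (hS : ∀ k ∈ S, D W A k ≤ 0 ∧ 3 / 10 ≤ row A i k) (R : Fin n → ℝ)
    (hR : ∀ k ∈ S, rho W A i k ≤ R k)
    (h : 1 ≤ ∑ k ∈ S, 3 * (row A i k) ^ 2 * (-D W A k) / need W A i k (R k)) : LLat W A i := by
  classical
  unfold LLat
  have hM : 0 < max (D W A i) (1 / 1000) := lt_max_of_lt_left hi
  have h1 := mul_le_mul_of_nonneg_left h hM.le
  rw [mul_one, Finset.mul_sum] at h1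
  refine h1.trans ((Finset.sum_le_sum fun k hk =>
    pay_ge hA hd i k hi (hS k hk).2 (hS k hk).1 (R k) (hR k hk)).trans ?_)
  refine Finset.sum_le_sum_of_subset_of_nonneg ?_ ?_
  · intro k hk
    unfold payers
    exact Finset.mem_filter.mpr ⟨Finset.mem_univ _, hS k hk⟩
  · intro k hk _
    unfold payers at hk
    obtain ⟨_, h2, h3⟩ := Finset.mem_filter.mp hk
    have h4 := row_le_one A hA hd i k
    have h5 : 0 < 4 * row A i k - (row A i k) ^ 2 := by nlinarith
    have h6 := mul_pos (y_pos W A hi) h5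
    have h7 := rho_nonneg (W := W) (A := A) i k
    have h8 := neg_nonneg.mpr h2
    positivity

/-- ONE PAYER. -/
theorem LLat_of_one (hA : A.PosSemidef) (hd : ∀ i, A i i = 1) (i j : Fin n) (hi : 0 < D W A i)
    (hb : 3 / 10 ≤ row A i j) (R : ℝ) (hR : D W A j ≤ 0 → rho W A i j ≤ R) (hR0 : 0 ≤ R)
    (h : need W A i j R ≤ 3 * (row A i j) ^ 2 * (-D W A j)) : LLat W A i := by
  have hpos := need_pos hA hd i j hi hb R hR0
  have hj : D W A j ≤ 0 := by
    by_contra hcon
    push Not at hcon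
    have : 3 * (row A i j) ^ 2 * (-D W A j) ≤ 0 := by
      have h1 : 0 < 3 * (row A i j) ^ 2 := by positivity
      nlinarith
    linarith
  refine LLat_of_sum hA hd i hi {j} (fun k hk => ?_) (fun _ => R) (fun k hk => ?_) ?_
  · rw [Finset.mem_singleton.mp hk]; exact ⟨hj, hb⟩
  · rw [Finset.mem_singleton.mp hk]; exact hR hj
  · rw [Finset.sum_singleton, le_div_iff₀ hpos, one_mul]
    exact h

/-- TWO PAYERS. -/
theorem LLat_of_two (hA : A.PosSemidef) (hd : ∀ i, A i i = 1) (i j k : Fin n) (hjk : j ≠ k)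
    (hi : 0 < D W A i) (hj : D W A j ≤ 0) (hk : D W A k ≤ 0) (hbj : 3 / 10 ≤ row A i j)
    (hbk : 3 / 10 ≤ row A i k) (Rj Rk : ℝ) (hRj : rho W A i j ≤ Rj) (hRk : rho W A i k ≤ Rk)
    (h : 1 ≤ 3 * (row A i j) ^ 2 * (-D W A j) / need W A i j Rj
      + 3 * (row A i k) ^ 2 * (-D W A k) / need W A i k Rk) : LLat W A i := by
  classical
  refine LLat_of_sum hA hd i hi {j, k} (fun l hl => ?_) (fun l => if l = j then Rj else Rk)
    (fun l hl => ?_) ?_
  · rcases Finset.mem_insert.mp hl with rfl | hl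
    · exact ⟨hj, hbj⟩
    · rw [Finset.mem_singleton.mp hl]; exact ⟨hk, hbk⟩
  · rcases Finset.mem_insert.mp hl with rfl | hl
    · rw [if_pos rfl]; exact hRj
    · rw [Finset.mem_singleton.mp hl, if_neg hjk.symm]; exact hRk
  · rw [Finset.sum_pair hjk, if_pos rfl, if_neg hjk.symm]
    exact h

end LL
end Fr
end Pool.Agent.Lib.MP_6947cd_al
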