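import Pool.Agent.Lib.MP_6947cd_al.L.PairQ

/-!
Problem MP_6947cd_al (Chollet).  THE MERGED ENTRY IN A CELL: for a triple with entries `h`, `t`, `g` in a box, the
merged entry `u` is at least the trilinear interpolation of eight numbers; exact check without square roots.

For `Geo h t g c u`: `2 (1 + h) u ≥ 2 (t + g) + r (g - t) - r²`, `r = √(1 - h)`; affine in `t` and in `g`; at the
four corners of `(t, g)` the comparison with an affine function of `h = 1 - r²` is a polynomial of degree four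
in `r`, nonnegative by its Bernstein coefficients.
-/

set_option autoImplicit false

namespace Pool.Agent.Lib.MP_6947cd_al
namespace Fr
namespace N3C

/-- nonnegativity of a quartic without cubic term by its Bernstein coefficients -/
lemma bern4 {c0 c1 c2 c4 a b r : ℝ} (har : a ≤ r) (hrb : r ≤ b)
    (h0 : 0 ≤ 12 * c0 + 3 * c1 * (4 * a) + 2 * c2 * (6 * a ^ 2) + 12 * c4 * a ^ 4)
    (h1 : 0 ≤ 12 * c0 + 3 * c1 * (3 * a + b) + 2 * c2 * (3 * a ^ 2 + 3 * (a * b))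
      + 12 * c4 * (a ^ 3 * b))
    (h2 : 0 ≤ 12 * c0 + 3 * c1 * (2 * a + 2 * b) + 2 * c2 * (a ^ 2 + 4 * (a * b) + b ^ 2)
      + 12 * c4 * (a ^ 2 * b ^ 2))
    (h3 : 0 ≤ 12 * c0 + 3 * c1 * (a + 3 * b) + 2 * c2 * (3 * (a * b) + 3 * b ^ 2)
      + 12 * c4 * (a * b ^ 3))
    (h4 : 0 ≤ 12 * c0 + 3 * c1 * (4 * b) + 2 * c2 * (6 * b ^ 2) + 12 * c4 * b ^ 4) :
    0 ≤ c0 + c1 * r + c2 * r ^ 2 + c4 * r ^ 4 := by
  obtain ⟨τ, hτ0, hτ1, hτ⟩ := PQ.exists_weight har hrb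
  have hσ : 0 ≤ 1 - τ := by linarith
  have key : 12 * (c0 + c1 * r + c2 * r ^ 2 + c4 * r ^ 4)
      = (1 - τ) ^ 4 * (12 * c0 + 3 * c1 * (4 * a) + 2 * c2 * (6 * a ^ 2) + 12 * c4 * a ^ 4)
        + 4 * ((1 - τ) ^ 3 * τ) * (12 * c0 + 3 * c1 * (3 * a + b)
          + 2 * c2 * (3 * a ^ 2 + 3 * (a * b)) + 12 * c4 * (a ^ 3 * b))
        + 6 * ((1 - τ) ^ 2 * τ ^ 2) * (12 * c0 + 3 * c1 * (2 * a + 2 * b)
          + 2 * c2 * (a ^ 2 + 4 * (a * b) + b ^ 2) + 12 * c4 * (a ^ 2 * b ^ 2))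
        + 4 * ((1 - τ) * τ ^ 3) * (12 * c0 + 3 * c1 * (a + 3 * b)
          + 2 * c2 * (3 * (a * b) + 3 * b ^ 2) + 12 * c4 * (a * b ^ 3))
        + τ ^ 4 * (12 * c0 + 3 * c1 * (4 * b) + 2 * c2 * (6 * b ^ 2) + 12 * c4 * b ^ 4) := by
    rw [hτ]
    ring
  have t0 := mul_nonneg (pow_nonneg hσ 4) h0
  have t1 := mul_nonneg (mul_nonneg (show (0 : ℝ) ≤ 4 by norm_num)
    (mul_nonneg (pow_nonneg hσ 3) hτ0)) h1
  have t2 := mul_nonneg (mul_nonneg (show (0 : ℝ) ≤ 6 by norm_num)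
    (mul_nonneg (pow_nonneg hσ 2) (pow_nonneg hτ0 2))) h2
  have t3 := mul_nonneg (mul_nonneg (show (0 : ℝ) ≤ 4 by norm_num)
    (mul_nonneg hσ (pow_nonneg hτ0 3))) h3
  have t4 := mul_nonneg (pow_nonneg hτ0 4) h4
  linarith

/-- the lower bound of the merged entry -/
theorem u_ge {h t g c u : ℝ} (q : PQ.Geo h t g c u) :
    2 * (t + g) + Real.sqrt (1 - h) * (g - t) - (1 - h) ≤ 2 * (1 + h) * u := by
  have h1 := q.fe
  rw [q.ue]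
  linarith

/-! ### the check at one corner of `(t, g)` -/

/-- coefficients of the quartic (times `10^9`) -/
def k0 (H0 H1 T G : ℕ) (v0 v1 : ℤ) : ℤ :=
  2000 * ((H1 : ℤ) - H0) * ((T : ℤ) + G) - 4 * (v0 * ((H1 : ℤ) - H0) + (v1 - v0) * (1000 - H0))
def k1 (H0 H1 T G : ℕ) : ℤ := 1000 * ((H1 : ℤ) - H0) * ((G : ℤ) - T)
def k2 (H0 H1 : ℕ) (v0 v1 : ℤ) : ℤ :=
  -(1000000 * ((H1 : ℤ) - H0)) + 4000 * (v1 - v0)
    + 2 * (v0 * ((H1 : ℤ) - H0) + (v1 - v0) * (1000 - H0))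
def k4 (v0 v1 : ℤ) : ℤ := -(2000 * (v1 - v0))

/-- the five Bernstein coefficients are nonnegative (`a`, `b` in units of `10^-4`) -/
def bchk (c0 c1 c2 c4 a b : ℤ) : Bool :=
  decide (0 ≤ 12 * (10000 ^ 4 * c0) + 3 * (10000 ^ 3 * c1) * (4 * a)
    + 2 * (10000 ^ 2 * c2) * (6 * a ^ 2) + 12 * c4 * a ^ 4) &&
  (decide (0 ≤ 12 * (10000 ^ 4 * c0) + 3 * (10000 ^ 3 * c1) * (3 * a + b)
    + 2 * (10000 ^ 2 * c2) * (3 * a ^ 2 + 3 * (a * b)) + 12 * c4 * (a ^ 3 * b)) &&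
  (decide (0 ≤ 12 * (10000 ^ 4 * c0) + 3 * (10000 ^ 3 * c1) * (2 * a + 2 * b)
    + 2 * (10000 ^ 2 * c2) * (a ^ 2 + 4 * (a * b) + b ^ 2) + 12 * c4 * (a ^ 2 * b ^ 2)) &&
  (decide (0 ≤ 12 * (10000 ^ 4 * c0) + 3 * (10000 ^ 3 * c1) * (a + 3 * b)
    + 2 * (10000 ^ 2 * c2) * (3 * (a * b) + 3 * b ^ 2) + 12 * c4 * (a * b ^ 3)) &&
  decide (0 ≤ 12 * (10000 ^ 4 * c0) + 3 * (10000 ^ 3 * c1) * (4 * b)
    + 2 * (10000 ^ 2 * c2) * (6 * b ^ 2) + 12 * c4 * b ^ 4))))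

lemma bchk_sound {c0 c1 c2 c4 a b : ℤ} (h : bchk c0 c1 c2 c4 a b = true) {r : ℝ}
    (ha : (a : ℝ) / 10000 ≤ r) (hb : r ≤ (b : ℝ) / 10000) :
    0 ≤ (c0 : ℝ) + c1 * r + c2 * r ^ 2 + c4 * r ^ 4 := by
  unfold bchk at h
  rw [Bool.and_eq_true, Bool.and_eq_true, Bool.and_eq_true, Bool.and_eq_true, decide_eq_true_eq,
    decide_eq_true_eq, decide_eq_true_eq, decide_eq_true_eq, decide_eq_true_eq] at h
  obtain ⟨h0, h1, h2, h3, h4⟩ := h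
  have r0 : (0 : ℝ) ≤ ((12 * (10000 ^ 4 * c0) + 3 * (10000 ^ 3 * c1) * (4 * a)
    + 2 * (10000 ^ 2 * c2) * (6 * a ^ 2) + 12 * c4 * a ^ 4 : ℤ) : ℝ) := by exact_mod_cast h0
  have r1 : (0 : ℝ) ≤ ((12 * (10000 ^ 4 * c0) + 3 * (10000 ^ 3 * c1) * (3 * a + b)
    + 2 * (10000 ^ 2 * c2) * (3 * a ^ 2 + 3 * (a * b)) + 12 * c4 * (a ^ 3 * b) : ℤ) : ℝ) := by
    exact_mod_cast h1
  have r2 : (0 : ℝ) ≤ ((12 * (10000 ^ 4 * c0) + 3 * (10000 ^ 3 * c1) * (2 * a + 2 * b)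
    + 2 * (10000 ^ 2 * c2) * (a ^ 2 + 4 * (a * b) + b ^ 2) + 12 * c4 * (a ^ 2 * b ^ 2) : ℤ) : ℝ) := by
    exact_mod_cast h2
  have r3 : (0 : ℝ) ≤ ((12 * (10000 ^ 4 * c0) + 3 * (10000 ^ 3 * c1) * (a + 3 * b)
    + 2 * (10000 ^ 2 * c2) * (3 * (a * b) + 3 * b ^ 2) + 12 * c4 * (a * b ^ 3) : ℤ) : ℝ) := by
    exact_mod_cast h3
  have r4 : (0 : ℝ) ≤ ((12 * (10000 ^ 4 * c0) + 3 * (10000 ^ 3 * c1) * (4 * b)
    + 2 * (10000 ^ 2 * c2) * (6 * b ^ 2) + 12 * c4 * b ^ 4 : ℤ) : ℝ) := by exact_mod_cast h4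
  push_cast at r0 r1 r2 r3 r4
  have key := bern4 (c0 := 10000 ^ 4 * (c0 : ℝ)) (c1 := 10000 ^ 3 * (c1 : ℝ))
    (c2 := 10000 ^ 2 * (c2 : ℝ)) (c4 := (c4 : ℝ)) (a := (a : ℝ)) (b := (b : ℝ)) (r := 10000 * r)
    (by rw [div_le_iff₀ (by norm_num)] at ha; linarith)
    (by rw [le_div_iff₀ (by norm_num)] at hb; linarith) (by linarith) (by linarith) (by linarith)
    (by linarith) (by linarith)
  have e : 10000 ^ 4 * (c0 : ℝ) + 10000 ^ 3 * (c1 : ℝ) * (10000 * r)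
      + 10000 ^ 2 * (c2 : ℝ) * (10000 * r) ^ 2 + (c4 : ℝ) * (10000 * r) ^ 4
      = 10000 ^ 4 * ((c0 : ℝ) + c1 * r + c2 * r ^ 2 + c4 * r ^ 4) := by ring
  rw [e] at key
  exact nonneg_of_mul_nonneg_right key (by norm_num)

/-- the check at one corner -/
def chk1 (H0 H1 T G ra rb : ℕ) (v0 v1 : ℤ) : Bool :=
  bchk (k0 H0 H1 T G v0 v1) (k1 H0 H1 T G) (k2 H0 H1 v0 v1) (k4 v0 v1) ra rb

/-- the radii `ra ≤ 10^4 √(1 - h) ≤ rb` -/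
def rchk (H0 H1 ra rb : ℕ) : Bool :=
  Nat.ble (ra ^ 2) (100000 * (1000 - H1)) && Nat.ble (100000 * (1000 - H0)) (rb ^ 2) &&
    Nat.ble H0 H1 && Nat.ble H1 1000

lemma rchk_sound {H0 H1 ra rb : ℕ} (hc : rchk H0 H1 ra rb = true) {h : ℝ}
    (h0 : (H0 : ℝ) / 1000 ≤ h) (h1 : h ≤ (H1 : ℝ) / 1000) :
    (ra : ℝ) / 10000 ≤ Real.sqrt (1 - h) ∧ Real.sqrt (1 - h) ≤ (rb : ℝ) / 10000 := by
  unfold rchk at hc
  rw [Bool.and_eq_true, Bool.and_eq_true, Bool.and_eq_true, Nat.ble_eq, Nat.ble_eq, Nat.ble_eq,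
    Nat.ble_eq] at hc
  obtain ⟨⟨⟨c1, c2⟩, c3⟩, c4⟩ := hc
  have d1 : ((ra ^ 2 : ℕ) : ℝ) ≤ ((100000 * (1000 - H1) : ℕ) : ℝ) := by exact_mod_cast c1
  have d2 : ((100000 * (1000 - H0) : ℕ) : ℝ) ≤ ((rb ^ 2 : ℕ) : ℝ) := by exact_mod_cast c2
  have e1 : ((1000 - H1 : ℕ) : ℝ) = 1000 - (H1 : ℝ) := by rw [Nat.cast_sub c4]; norm_num
  have e2 : ((1000 - H0 : ℕ) : ℝ) = 1000 - (H0 : ℝ) := by rw [Nat.cast_sub (c3.trans c4)]; norm_num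
  rw [Nat.cast_mul, e1] at d1
  rw [Nat.cast_mul, e2] at d2
  push_cast at d1 d2
  constructor
  · apply Real.le_sqrt_of_sq_le
    rw [div_pow]
    rw [div_le_iff₀ (by norm_num)]
    rw [le_div_iff₀ (by norm_num)] at h1
    linarith
  · rw [Real.sqrt_le_left (by positivity), div_pow, le_div_iff₀ (by norm_num)]
    rw [div_le_iff₀ (by norm_num)] at h0
    linarith

/-- one corner: comparison with the affine function through `v0`, `v1` -/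
theorem chk1_sound {H0 H1 T G ra rb : ℕ} {v0 v1 : ℤ} (hr : rchk H0 H1 ra rb = true)
    (hc : chk1 H0 H1 T G ra rb v0 v1 = true) (hH : H0 < H1) {l : ℝ} (hl0 : 0 ≤ l) (hl1 : l ≤ 1) :
    2 * (1 + ((1 - l) * ((H0 : ℝ) / 1000) + l * ((H1 : ℝ) / 1000)))
        * ((1 - l) * ((v0 : ℝ) / 1000000) + l * ((v1 : ℝ) / 1000000))
      ≤ 2 * ((T : ℝ) / 1000 + (G : ℝ) / 1000)
        + Real.sqrt (1 - ((1 - l) * ((H0 : ℝ) / 1000) + l * ((H1 : ℝ) / 1000)))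
          * ((G : ℝ) / 1000 - (T : ℝ) / 1000)
        - (1 - ((1 - l) * ((H0 : ℝ) / 1000) + l * ((H1 : ℝ) / 1000))) := by
  have hH' : (H0 : ℝ) < H1 := by exact_mod_cast hH
  set h : ℝ := (1 - l) * ((H0 : ℝ) / 1000) + l * ((H1 : ℝ) / 1000) with hh
  have h0 : (H0 : ℝ) / 1000 ≤ h := by rw [hh]; nlinarith
  have h1 : h ≤ (H1 : ℝ) / 1000 := by rw [hh]; nlinarith
  obtain ⟨ra0, rb0⟩ := rchk_sound hr h0 h1
  have hH1 : (H1 : ℝ) ≤ 1000 := by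
    unfold rchk at hr
    rw [Bool.and_eq_true, Nat.ble_eq] at hr
    exact_mod_cast hr.2
  have hsq : Real.sqrt (1 - h) ^ 2 = 1 - h := Real.sq_sqrt (by linarith)
  set r := Real.sqrt (1 - h) with hrdef
  unfold chk1 at hc
  have key := bchk_sound hc (r := r) (by rw [Int.cast_natCast]; exact ra0)
    (by rw [Int.cast_natCast]; exact rb0)
  unfold k0 k1 k2 k4 at key
  push_cast at key
  -- substitute `r² = 1 - h`
  have e4 : r ^ 4 = (1 - h) ^ 2 := by rw [← hsq]; ring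
  rw [e4, hsq] at key
  have hd : 0 < (H1 : ℝ) - H0 := by linarith
  -- the affine function
  have el : (1 - l) * ((v0 : ℝ) / 1000000) + l * ((v1 : ℝ) / 1000000)
      = ((v0 : ℝ) * (H1 - H0) + (v1 - v0) * (1000 * h - H0)) / (1000000 * (H1 - H0)) := by
    rw [eq_div_iff (by positivity), hh]
    ring
  rw [el, ← sub_nonneg]
  have e5 : 2 * ((T : ℝ) / 1000 + (G : ℝ) / 1000) + r * ((G : ℝ) / 1000 - (T : ℝ) / 1000) - (1 - h)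
      - 2 * (1 + h) * (((v0 : ℝ) * (H1 - H0) + (v1 - v0) * (1000 * h - H0))
        / (1000000 * (H1 - H0)))
      = (2000 * ((H1 : ℝ) - H0) * (T + G) - 4 * (v0 * ((H1 : ℝ) - H0) + (v1 - v0) * (1000 - H0))
        + 1000 * ((H1 : ℝ) - H0) * (G - T) * r
        + (-(1000000 * ((H1 : ℝ) - H0)) + 4000 * (v1 - v0)
          + 2 * (v0 * ((H1 : ℝ) - H0) + (v1 - v0) * (1000 - H0))) * (1 - h)
        + -(2000 * ((v1 : ℝ) - v0)) * (1 - h) ^ 2) / (1000000 * (H1 - H0)) := by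
    rw [eq_div_iff (by positivity), sub_mul, mul_assoc (2 * (1 + h)),
      div_mul_cancel₀ _ (show (1000000 * ((H1 : ℝ) - H0)) ≠ 0 by positivity)]
    ring
  rw [e5]
  exact div_nonneg key (by positivity)

/-- eight corner values, order `h`, `t`, `g` -/
structure V8 where
  v000 : ℤ
  v001 : ℤ
  v010 : ℤ
  v011 : ℤ
  v100 : ℤ
  v101 : ℤ
  v110 : ℤ
  v111 : ℤ

/-- trilinear interpolation (`l`, `m`, `n` = weights of the upper ends) -/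
noncomputable def V8.tri (V : V8) (l m n : ℝ) : ℝ :=
  (1 - l) * ((1 - m) * ((1 - n) * V.v000 + n * V.v001) + m * ((1 - n) * V.v010 + n * V.v011))
    + l * ((1 - m) * ((1 - n) * V.v100 + n * V.v101) + m * ((1 - n) * V.v110 + n * V.v111))

/-- THE CHECK OF A CELL -/
def n3chk (H0 H1 T0 T1 G0 G1 ra rb : ℕ) (V : V8) : Bool :=
  rchk H0 H1 ra rb && (Nat.blt H0 H1 && (chk1 H0 H1 T0 G0 ra rb V.v000 V.v100 &&
    (chk1 H0 H1 T0 G1 ra rb V.v001 V.v101 && (chk1 H0 H1 T1 G0 ra rb V.v010 V.v110 &&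
    chk1 H0 H1 T1 G1 ra rb V.v011 V.v111))))

/-- THE MERGED ENTRY IN A CELL, with weights. -/
theorem n3chk_sound {H0 H1 T0 T1 G0 G1 ra rb : ℕ} {V : V8}
    (hc : n3chk H0 H1 T0 T1 G0 G1 ra rb V = true) {l m n c u : ℝ} (hl0 : 0 ≤ l) (hl1 : l ≤ 1)
    (hm0 : 0 ≤ m) (hm1 : m ≤ 1) (hn0 : 0 ≤ n) (hn1 : n ≤ 1)
    (q : PQ.Geo ((1 - l) * ((H0 : ℝ) / 1000) + l * ((H1 : ℝ) / 1000))
      ((1 - m) * ((T0 : ℝ) / 1000) + m * ((T1 : ℝ) / 1000))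
      ((1 - n) * ((G0 : ℝ) / 1000) + n * ((G1 : ℝ) / 1000)) c u) :
    V.tri l m n / 1000000 ≤ u := by
  unfold n3chk at hc
  rw [Bool.and_eq_true, Bool.and_eq_true, Bool.and_eq_true, Bool.and_eq_true, Bool.and_eq_true,
    Nat.blt_eq] at hc
  obtain ⟨hr, hH, c00, c01, c10, c11⟩ := hc
  have h1 := u_ge q
  have d00 := chk1_sound hr c00 hH hl0 hl1
  have d01 := chk1_sound hr c01 hH hl0 hl1
  have d10 := chk1_sound hr c10 hH hl0 hl1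
  have d11 := chk1_sound hr c11 hH hl0 hl1
  set h : ℝ := (1 - l) * ((H0 : ℝ) / 1000) + l * ((H1 : ℝ) / 1000) with hh
  set r := Real.sqrt (1 - h) with hrd
  have hm' : 0 ≤ 1 - m := by linarith
  have hn' : 0 ≤ 1 - n := by linarith
  have f00 := mul_le_mul_of_nonneg_left d00 (mul_nonneg hm' hn')
  have f01 := mul_le_mul_of_nonneg_left d01 (mul_nonneg hm' hn0)
  have f10 := mul_le_mul_of_nonneg_left d10 (mul_nonneg hm0 hn')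
  have f11 := mul_le_mul_of_nonneg_left d11 (mul_nonneg hm0 hn0)
  have hpos : 0 < 2 * (1 + h) := by
    have := q.h0
    linarith
  refine le_of_mul_le_mul_left ?_ hpos
  refine le_trans (le_of_eq ?_) ((add_le_add (add_le_add f00 f01) (add_le_add f10 f11)).trans
    (le_trans (le_of_eq ?_) h1))
  · unfold V8.tri
    ring
  · ring

/-- THE MERGED ENTRY IN A CELL. -/
theorem n3chk_sound' {H0 H1 T0 T1 G0 G1 ra rb : ℕ} {V : V8}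
    (hc : n3chk H0 H1 T0 T1 G0 G1 ra rb V = true) {h t g c u : ℝ} (q : PQ.Geo h t g c u)
    (h0 : (H0 : ℝ) / 1000 ≤ h) (h1 : h ≤ (H1 : ℝ) / 1000) (t0 : (T0 : ℝ) / 1000 ≤ t)
    (t1 : t ≤ (T1 : ℝ) / 1000) (g0 : (G0 : ℝ) / 1000 ≤ g) (g1 : g ≤ (G1 : ℝ) / 1000) :
    ∃ l m n : ℝ, 0 ≤ l ∧ l ≤ 1 ∧ 0 ≤ m ∧ m ≤ 1 ∧ 0 ≤ n ∧ n ≤ 1 ∧
      h = (1 - l) * ((H0 : ℝ) / 1000) + l * ((H1 : ℝ) / 1000) ∧
      t = (1 - m) * ((T0 : ℝ) / 1000) + m * ((T1 : ℝ) / 1000) ∧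
      g = (1 - n) * ((G0 : ℝ) / 1000) + n * ((G1 : ℝ) / 1000) ∧ V.tri l m n / 1000000 ≤ u := by
  obtain ⟨l, l0, l1, el⟩ := PQ.exists_weight h0 h1
  obtain ⟨m, m0, m1, em⟩ := PQ.exists_weight t0 t1
  obtain ⟨n, n0, n1, en⟩ := PQ.exists_weight g0 g1
  refine ⟨l, m, n, l0, l1, m0, m1, n0, n1, el, em, en, ?_⟩
  rw [el, em, en] at q
  exact n3chk_sound hc l0 l1 m0 m1 n0 n1 q

/-- example: the cell `[.85,.9] × [.5,.55] × [.6,.7]` -/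
example : n3chk 850 900 500 550 600 700 3162 3873 ⟨0, 0, 0, 0, 0, 0, 0, 0⟩ = true := by
  decide +kernel

end N3C
end Fr
end Pool.Agent.Lib.MP_6947cd_al
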