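import Pool.Agent.Lib.MP_6947cd_al.L.PtL

/-!
Problem MP_6947cd_al (Chollet).  THE ROW FUNCTION FROM BELOW AT A FIXED DISTRIBUTION.

For a distribution `p` (proportional to `X`, constant on types) `F b ≥ Ψ(p) + ∑ p_k log b_k` with a constant
`Ψ(p)` which depends only on `p` and on the multiplicities: `psiOK m X X0 V = true` implies
`V / 10 ^ 7 ≤ Ψ(p)` (`psi_sound`).
-/

set_option autoImplicit false
open Finset

namespace Pool.Agent.Lib.MP_6947cd_al
namespace Ent

section General

variable {κ : Type} [Fintype κ] [DecidableEq κ]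

/-- the value of the row function at a distribution -/
theorem F_ge_pi (b x : κ → ℝ) (hx : ∀ j, 0 ≤ x j) (hxb : ∀ j, b j = 0 → x j = 0)
    (hX : 0 < ∑ j, x j) :
    (∑ j, x j * (Real.log (b j) - Real.log (x j) + ell Finset.univ x j)) / ∑ j, x j ≤ F b := by
  set X := ∑ j, x j with hXd
  have hadm : (fun j => x j / X) ∈ adm b := by
    refine ⟨fun j => div_nonneg (hx j) hX.le, ?_, fun j hj => by show x j / X = 0; rw [hxb j hj, zero_div]⟩
    rw [← Finset.sum_div, ← hXd, div_self hX.ne']
  refine le_trans (le_of_eq ?_) (val_le_F b _ hadm)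
  rw [Finset.sum_div]
  unfold val
  refine Finset.sum_congr rfl fun j _ => ?_
  by_cases hj : x j = 0
  · show _ = x j / X * _
    rw [hj, zero_mul, zero_div, zero_mul]
  · have hj0 : 0 < x j := lt_of_le_of_ne (hx j) (Ne.symm hj)
    have e1 : Real.log (x j / X) = Real.log (x j) - Real.log X := Real.log_div hj hX.ne'
    have e2 : ell Finset.univ (fun j => x j / X) j = ell Finset.univ x j - Real.log X := by
      have hw := sum_w j
      unfold ell
      rw [Finset.card_univ]
      have e3 : ∀ K ∈ (Finset.univ.erase j).powerset,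
          w (Fintype.card κ) K.card * Real.log (x j / X + ∑ k ∈ K, x k / X)
          = w (Fintype.card κ) K.card * Real.log (x j + ∑ k ∈ K, x k)
            - w (Fintype.card κ) K.card * Real.log X := by
        intro K _
        have h1 : 0 < x j + ∑ k ∈ K, x k := by
          have := Finset.sum_nonneg (s := K) fun k _ => hx k
          linarith
        rw [← Finset.sum_div, ← add_div, Real.log_div h1.ne' hX.ne']
        ring
      rw [Finset.sum_congr rfl e3, Finset.sum_sub_distrib, ← Finset.sum_mul, hw, one_mul]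
    rw [e1, e2]
    ring

variable {α : Type} [DecidableEq α]

lemma ell_types (l : List α) (hl : l.Nodup) (S : α → Finset κ)
    (hdis : ∀ a ∈ l, ∀ c ∈ l, a ≠ c → Disjoint (S a) (S c)) (x : α → ℝ) (X : κ → ℝ)
    (hXS : ∀ a ∈ l, ∀ k ∈ S a, X k = x a) (hX0 : ∀ k, (∀ a ∈ l, k ∉ S a) → X k = 0)
    (a : α) (ha : a ∈ l) (k : κ) (hka : k ∈ S a) :
    ell Finset.univ X k = bx 0 0 (l.map fun c => ((S c).card - (if c = a then 1 else 0), x c)) (x a) := by
  rw [ell_eq Finset.univ X k (Finset.mem_univ k), ← blm_int]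
  refine intervalIntegral.integral_congr fun u _ => ?_
  simp only [pow_zero, one_mul]
  set S' : α → Finset κ := fun c => (S c).erase k with hS'
  have hdis' : ∀ a ∈ l, ∀ c ∈ l, a ≠ c → Disjoint (S' a) (S' c) := fun a ha c hc hac =>
    Finset.disjoint_of_subset_left (Finset.erase_subset _ _)
      (Finset.disjoint_of_subset_right (Finset.erase_subset _ _) (hdis a ha c hc hac))
  have hx' : ∀ a ∈ l, ∀ k ∈ S' a, X k = x a := fun c hc m hm =>
    hXS c hc m (Finset.mem_of_mem_erase hm)
  set Z : Finset κ := (Finset.univ.erase k).filter fun m => ∀ a ∈ l, m ∉ S a with hZ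
  have hsplit : (Finset.univ : Finset κ).erase k = l.toFinset.biUnion S' ∪ Z := by
    ext m
    simp only [Finset.mem_erase, Finset.mem_univ, and_true, Finset.mem_union, Finset.mem_biUnion,
      List.mem_toFinset, hS', hZ, Finset.mem_filter]
    constructor
    · intro hm
      by_cases h : ∃ a ∈ l, m ∈ S a
      · obtain ⟨c, hc, hmc⟩ := h
        exact Or.inl ⟨c, hc, hm, hmc⟩
      · push Not at h
        exact Or.inr ⟨hm, h⟩
    · rintro (⟨c, _, hm, _⟩ | ⟨hm, _⟩)
      · exact hm
      · exact hm
  have hdZ : Disjoint (l.toFinset.biUnion S') Z := by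
    rw [Finset.disjoint_left]
    intro m hm hmZ
    simp only [Finset.mem_biUnion, List.mem_toFinset, hS'] at hm
    obtain ⟨c, hc, hmc⟩ := hm
    rw [hZ, Finset.mem_filter] at hmZ
    exact hmZ.2 c hc (Finset.mem_of_mem_erase hmc)
  have hXk : X k = x a := hXS a ha k hka
  rw [hsplit, hXk, bern_zero u X _ Z hdZ (fun m hm => by
    rw [hZ, Finset.mem_filter] at hm
    exact hX0 m hm.2) (x a), bern_types u X S' x l hl hdis' hx' (x a)]
  have hcard : ∀ c ∈ l, (S' c).card = (S c).card - (if c = a then 1 else 0) := by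
    intro c hc
    simp only [hS']
    by_cases hca : c = a
    · rw [if_pos hca, Finset.card_erase_of_mem (by rw [hca]; exact hka)]
    · rw [if_neg hca, Finset.erase_eq_of_notMem, Nat.sub_zero]
      intro hkc
      exact (Finset.disjoint_left.mp (hdis c hc a ha hca)) hkc hka
  have e : (l.map fun c => ((S' c).card, x c))
      = l.map fun c => ((S c).card - (if c = a then 1 else 0), x c) :=
    List.map_congr_left fun c hc => by rw [hcard c hc]
  rw [e]

end General

/-- a row realising a list of multisets -/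
lemma exists_typedM (Rs : List (Multiset ℝ)) :
    ∃ (n : ℕ) (b : Fin n → ℝ) (S : ℕ → Finset (Fin n)),
      (Finset.univ : Finset (Fin n)).val.map b = Rs.sum ∧
      (∀ a < Rs.length, ∀ c < Rs.length, a ≠ c → Disjoint (S a) (S c)) ∧
      (∀ a < Rs.length, (S a).val.map b = Rs.getD a 0) ∧
      (∀ k, ∃ a < Rs.length, k ∈ S a) := by
  induction Rs with
  | nil => exact ⟨0, Fin.elim0, fun _ => ∅, rfl, by simp, by simp, fun k => k.elim0⟩
  | cons R Rs ih =>
    obtain ⟨n, b, S, h1, h2, h3, h4⟩ := ih
    obtain ⟨n0, b0, hb0⟩ := exists_row R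
    let S' : ℕ → Finset (Fin (n0 + n)) := fun a => match a with
      | 0 => Finset.univ.map (Fin.castAddEmb n)
      | a + 1 => (S a).map (Fin.natAddEmb n0)
    refine ⟨n0 + n, Fin.append b0 b, S', ?_, ?_, ?_, ?_⟩
    · rw [List.sum_cons, ← h1, ← hb0]
      rw [Fin.univ_val_map, List.ofFn_fin_append, ← Multiset.coe_add, ← Fin.univ_val_map,
        ← Fin.univ_val_map]
    · intro a ha c hc hac
      cases a with
      | zero =>
        cases c with
        | zero => exact absurd rfl hac
        | succ c =>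
          rw [Finset.disjoint_left]
          intro k hk hk'
          simp only [S', Finset.mem_map, Finset.mem_univ, true_and] at hk hk'
          obtain ⟨x, rfl⟩ := hk
          obtain ⟨y, _, hy⟩ := hk'
          have := congrArg Fin.val hy
          simp at this
          omega
      | succ a =>
        cases c with
        | zero =>
          rw [Finset.disjoint_left]
          intro k hk hk'
          simp only [S', Finset.mem_map, Finset.mem_univ, true_and] at hk hk'
          obtain ⟨x, rfl⟩ := hk'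
          obtain ⟨y, _, hy⟩ := hk
          have := congrArg Fin.val hy
          simp at this
          omega
        | succ c =>
          have := h2 a (by simpa using ha) c (by simpa using hc) (by omega)
          exact (Finset.disjoint_map _).mpr this
    · intro a ha
      cases a with
      | zero =>
        simp only [S', Finset.map_val, Multiset.map_map, List.getD_cons_zero]
        rw [← hb0]
        refine Multiset.map_congr rfl fun i _ => ?_
        simp
      | succ a =>
        simp only [S', Finset.map_val, Multiset.map_map, List.getD_cons_succ]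
        rw [← h3 a (by simpa using ha)]
        refine Multiset.map_congr rfl fun i _ => ?_
        simp
    · intro k
      refine Fin.addCases (fun i => ?_) (fun i => ?_) k
      · exact ⟨0, by simp, by simp [S']⟩
      · obtain ⟨a, ha, hk⟩ := h4 i
        refine ⟨a + 1, by simpa using ha, ?_⟩
        simp only [S', Finset.mem_map]
        exact ⟨i, hk, rfl⟩

/-- the weighted sum of the logarithms -/
noncomputable def logS : List (Multiset ℝ) → List ℕ → ℝ
  | R :: Rs, x :: X => (x : ℝ) * (R.map Real.log).sum + logS Rs X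
  | _, _ => 0

lemma logS_eq (Rs : List (Multiset ℝ)) : ∀ X : List ℕ, X.length = Rs.length →
    logS Rs X = ∑ a ∈ Finset.range Rs.length, (X.getD a 0 : ℝ) * ((Rs.getD a 0).map Real.log).sum := by
  induction Rs with
  | nil => intro X h; cases X <;> simp [logS]
  | cons R Rs ih =>
    intro X h
    cases X with
    | nil => simp at h
    | cons x X =>
      rw [List.length_cons, Finset.sum_range_succ', add_comm]
      simp only [List.getD_cons_succ, List.getD_cons_zero, logS]
      rw [ih X (by simpa using h)]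

namespace Pk

lemma dotN_card (Rs : List (Multiset ℝ)) : ∀ X : List ℕ, X.length = Rs.length →
    (dotN (Rs.map Multiset.card) X : ℝ) = ∑ a ∈ Finset.range Rs.length,
      ((Rs.getD a 0).card : ℝ) * (X.getD a 0 : ℝ) := by
  induction Rs with
  | nil => intro X h; cases X <;> simp [dotN]
  | cons R Rs ih =>
    intro X h
    cases X with
    | nil => simp at h
    | cons x X =>
      rw [List.length_cons, Finset.sum_range_succ', add_comm]
      simp only [List.getD_cons_succ, List.getD_cons_zero, List.map_cons, dotN]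
      push_cast
      rw [ih X (by simpa using h)]

/-- the row function at a distribution, types of equal probability -/
theorem FM_ge_pi (Rs : List (Multiset ℝ)) (X : List ℕ) (hl : X.length = Rs.length)
    (hXp : ∀ a < Rs.length, 0 < X.getD a 0) (hpos : ∀ R ∈ Rs, ∀ z ∈ R, (0 : ℝ) < z)
    (hne : ∃ a < Rs.length, 0 < (Rs.getD a 0).card) (rest : Multiset ℝ) (V ρ : ℝ) (hρ : 0 < ρ)
    (hV : V * (dotN (Rs.map Multiset.card) X : ℝ) ≤ ∑ a ∈ Finset.range Rs.length,
      (X.getD a 0 : ℝ) * (((Rs.getD a 0).card : ℝ) * (bx 0 0 ((decN a (Rs.map Multiset.card)).zip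
        (X.map fun x : ℕ => ρ * ((x : ℝ) / 4096))) (ρ * ((X.getD a 0 : ℝ) / 4096)) - Real.log (ρ * ((X.getD a 0 : ℝ) / 4096))))) :
    V + logS Rs X / (dotN (Rs.map Multiset.card) X : ℝ) ≤ FM (Rs.sum + rest) := by
  classical
  obtain ⟨n, b, S, h1, h2, h3, h4⟩ := exists_typedM (Rs ++ [rest])
  have hlen : ∀ a < Rs.length, a < (Rs ++ [rest]).length := fun a ha => by simp; omega
  have hR : ∀ a < Rs.length, (S a).val.map b = Rs.getD a 0 := by
    intro a ha
    rw [h3 a (hlen a ha), List.getD_append _ _ _ _ ha]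
  have hdis : ∀ a < Rs.length, ∀ c < Rs.length, a ≠ c → Disjoint (S a) (S c) := fun a ha c hc hac =>
    h2 a (hlen a ha) c (hlen c hc) hac
  have hcardS : ∀ a < Rs.length, (S a).card = (Rs.getD a 0).card := by
    intro a ha
    rw [← hR a ha, Multiset.card_map]
    rfl
  have e0 : FM (Rs.sum + rest) = F b := by
    rw [F_eq_FM, h1, List.sum_append, List.sum_singleton]
  rw [e0]
  set Xf : Fin n → ℝ := fun k => if h : ∃ a < Rs.length, k ∈ S a then ρ * ((X.getD h.choose 0 : ℝ) / 4096) else 0
    with hXf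
  have hXS : ∀ a < Rs.length, ∀ k ∈ S a, Xf k = ρ * ((X.getD a 0 : ℝ) / 4096) := by
    intro a ha k hk
    have h : ∃ a < Rs.length, k ∈ S a := ⟨a, ha, hk⟩
    simp only [hXf]
    rw [dif_pos h]
    obtain ⟨g1, g2⟩ := h.choose_spec
    by_contra hne'
    have hne2 : h.choose ≠ a := fun h5 => hne' (by rw [h5])
    exact (Finset.disjoint_left.mp (hdis _ g1 a ha hne2)) g2 hk
  have hX0 : ∀ k, (∀ a < Rs.length, k ∉ S a) → Xf k = 0 := by
    intro k hk
    simp only [hXf]
    rw [dif_neg]
    rintro ⟨a, ha, hka⟩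
    exact hk a ha hka
  have hXr : ∀ a < Rs.length, (0 : ℝ) < (X.getD a 0 : ℝ) := fun a ha => by exact_mod_cast hXp a ha
  have hXnn : ∀ k, 0 ≤ Xf k := by
    intro k
    by_cases h : ∃ a < Rs.length, k ∈ S a
    · obtain ⟨a, ha, hk⟩ := h
      rw [hXS a ha k hk]
      have := hXr a ha
      positivity
    · push Not at h
      rw [hX0 k h]
  have hsum : ∀ g : Fin n → ℝ, ∑ k, Xf k * g k
      = ∑ a ∈ Finset.range Rs.length, ρ * ((X.getD a 0 : ℝ) / 4096) * ∑ k ∈ S a, g k := by
    intro g
    have e1 : ∑ k, Xf k * g k = ∑ k ∈ (Finset.range Rs.length).biUnion S, Xf k * g k := by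
      refine (Finset.sum_subset (Finset.subset_univ _) fun k _ hk => ?_).symm
      rw [hX0 k, zero_mul]
      intro a ha hka
      exact hk (Finset.mem_biUnion.mpr ⟨a, Finset.mem_range.mpr ha, hka⟩)
    rw [e1, Finset.sum_biUnion]
    · refine Finset.sum_congr rfl fun a ha => ?_
      rw [Finset.mul_sum]
      refine Finset.sum_congr rfl fun k hk => ?_
      rw [hXS a (Finset.mem_range.mp ha) k hk]
    · intro a ha c hc hac
      exact hdis a (by simpa using ha) c (by simpa using hc) hac
  have hSX : ∑ k, Xf k = ρ * ((dotN (Rs.map Multiset.card) X : ℝ) / 4096) := by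
    have e1 := hsum fun _ => 1
    simp only [mul_one] at e1
    rw [e1, dotN_card Rs X hl, Finset.sum_div, Finset.mul_sum]
    refine Finset.sum_congr rfl fun a ha => ?_
    rw [Finset.sum_const, nsmul_eq_mul, mul_one, hcardS a (Finset.mem_range.mp ha)]
    ring
  have hTpos : (0 : ℝ) < (dotN (Rs.map Multiset.card) X : ℝ) := by
    rw [dotN_card Rs X hl]
    obtain ⟨a, ha, hca⟩ := hne
    have hca' : (0 : ℝ) < ((Rs.getD a 0).card : ℝ) := by exact_mod_cast hca
    refine lt_of_lt_of_le (mul_pos hca' (hXr a ha))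
      (Finset.single_le_sum (f := fun a => ((Rs.getD a 0).card : ℝ) * (X.getD a 0 : ℝ)) (fun c _ => ?_)
        (Finset.mem_range.mpr ha))
    positivity
  have key := F_ge_pi b Xf hXnn ?_ (by rw [hSX]; positivity)
  · refine le_trans ?_ key
    rw [hsum fun j => Real.log (b j) - Real.log (Xf j) + ell Finset.univ Xf j, hSX, le_div_iff₀ (by positivity),
      logS_eq Rs X hl]
    have e2 : ∀ a ∈ Finset.range Rs.length,
        ρ * ((X.getD a 0 : ℝ) / 4096) * ∑ k ∈ S a, (Real.log (b k) - Real.log (Xf k) + ell Finset.univ Xf k)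
        = ((X.getD a 0 : ℝ) * ((Rs.getD a 0).map Real.log).sum
          + (X.getD a 0 : ℝ) * (((Rs.getD a 0).card : ℝ) * (bx 0 0 ((decN a (Rs.map Multiset.card)).zip
        (X.map fun x : ℕ => ρ * ((x : ℝ) / 4096))) (ρ * ((X.getD a 0 : ℝ) / 4096))
          - Real.log (ρ * ((X.getD a 0 : ℝ) / 4096))))) * (ρ / 4096) := by
      intro a ha
      have ha' := Finset.mem_range.mp ha
      have e3 : ∀ k ∈ S a, Real.log (b k) - Real.log (Xf k) + ell Finset.univ Xf k
          = Real.log (b k) + (bx 0 0 ((decN a (Rs.map Multiset.card)).zip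
        (X.map fun x : ℕ => ρ * ((x : ℝ) / 4096))) (ρ * ((X.getD a 0 : ℝ) / 4096))
            - Real.log (ρ * ((X.getD a 0 : ℝ) / 4096))) := by
        intro k hk
        rw [ell_types (List.range Rs.length) List.nodup_range S (fun a ha c hc hac =>
          hdis a (List.mem_range.mp ha) c (List.mem_range.mp hc) hac) (fun a => ρ * ((X.getD a 0 : ℝ) / 4096)) Xf
          (fun a ha k hk => hXS a (List.mem_range.mp ha) k hk)
          (fun k hk => hX0 k fun a ha => hk a (List.mem_range.mpr ha)) a (List.mem_range.mpr ha') k hk,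
          hXS a ha' k hk]
        have e4 : ((List.range Rs.length).map fun c => ((S c).card - (if c = a then 1 else 0),
            ρ * ((X.getD c 0 : ℝ) / 4096))) = (decN a (Rs.map Multiset.card)).zip (X.map fun x : ℕ => ρ * ((x : ℝ) / 4096)) := by
          apply List.ext_getElem
          · simp [decN_length, hl]
          · intro i hi1 hi2
            rw [List.length_map, List.length_range] at hi1
            rw [List.getElem_map, List.getElem_zip, List.getElem_range, List.getElem_map, hcardS i hi1]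
            have k5 := decN_getD a (Rs.map Multiset.card) i
            have hi3 : i < (Rs.map Multiset.card).length := by simpa using hi1
            rw [List.getD_eq_getElem _ _ (by rw [decN_length]; exact hi3)] at k5
            rw [k5, List.getD_eq_getElem X _ (by rw [hl]; exact hi1), List.getD_eq_getElem _ _ hi3,
              List.getElem_map, List.getD_eq_getElem _ _ hi1]
        rw [e4]
        ring
      rw [Finset.sum_congr rfl e3, Finset.sum_add_distrib, Finset.sum_const, nsmul_eq_mul, hcardS a ha']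
      have e5 : ∑ k ∈ S a, Real.log (b k) = ((Rs.getD a 0).map Real.log).sum := by
        rw [← hR a ha', Multiset.map_map]
        rfl
      rw [e5]
      ring
    rw [Finset.sum_congr rfl e2, ← Finset.sum_mul, Finset.sum_add_distrib]
    generalize ∑ a ∈ Finset.range Rs.length, (X.getD a 0 : ℝ) * ((Rs.getD a 0).map Real.log).sum = A
    generalize (∑ a ∈ Finset.range Rs.length,
      (X.getD a 0 : ℝ) * (((Rs.getD a 0).card : ℝ) * (bx 0 0 ((decN a (Rs.map Multiset.card)).zip
        (X.map fun x : ℕ => ρ * ((x : ℝ) / 4096))) (ρ * ((X.getD a 0 : ℝ) / 4096))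
          - Real.log (ρ * ((X.getD a 0 : ℝ) / 4096))))) = B at hV ⊢
    generalize (dotN (Rs.map Multiset.card) X : ℝ) = T at hV hTpos ⊢
    have e6 : (V + A / T) * (ρ * (T / 4096)) = (V * T + A) * (ρ / 4096) := by
      field_simp
    rw [e6]
    exact mul_le_mul_of_nonneg_right (by linarith) (by positivity)
  · intro j hj
    by_cases h : ∃ a < Rs.length, j ∈ S a
    · obtain ⟨a, ha, hja⟩ := h
      exfalso
      have hmem : b j ∈ Rs.getD a 0 := by
        rw [← hR a ha]
        exact Multiset.mem_map_of_mem b hja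
      have := hpos (Rs.getD a 0) (by rw [List.getD_eq_getElem _ _ ha]; exact List.getElem_mem ha) _ hmem
      linarith
    · push Not at h
      exact hX0 j h

/-! ### the program -/

/-- the sums over the types -/
noncomputable def psiL (T X0 er : ℕ) (ms : List ℕ) : List ℕ → ℕ → ℕ → ℕ → Bool :=
  @List.rec ℕ (fun _ => List ℕ → ℕ → ℕ → ℕ → Bool)
    (fun Xs _ L R => @List.rec ℕ (fun _ => Bool) (Nat.ble L R) (fun _ _ _ => false) Xs)
    (fun m _ ih Xs N L R => @List.rec ℕ (fun _ => Bool) false
      (fun X Xs' _ => cond (Nat.ble X0 X)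
        (frc (Nat.add L (Nat.mul (Nat.mul (Nat.mul m X) T) (Nat.add er (lgU X)))) fun L' =>
          frc (Nat.add R (Nat.mul X (Nat.land N (nat_lit 115792089237316195423570985008687907853269984665640564039457584007913129639935)))) fun R' =>
            frc (Nat.shiftRight N (nat_lit 256)) fun N' => ih Xs' N' L' R') false) Xs) ms

/-- the check of a distribution -/
noncomputable def psiOK (m X : List ℕ) (X0 V : ℕ) : Bool :=
  frc (lsum m (nat_lit 0)) fun n => frc (erB X0) fun er => cond (Nat.ble (nat_lit 65536) X0)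
    (cond (Nat.ble (nat_lit 1) n) (cond (Nat.ble n (nat_lit 40))
      (frc (ldot m X (nat_lit 0)) fun TX => cond (Nat.ble TX (nat_lit 67108863))
      (pick (nat_lit 0) (fun B => mkR m fun rows => mkZ X (nat_lit 18446744073709551616) fun zs =>
        frc (Nat.mul n (Nat.shiftRight B (Nat.mul (nat_lit 160) n))) fun T =>
          frc (evN B rows zs (nat_lit 0) (nat_lit 1)) fun N =>
            frc (Nat.mul (Nat.mul (Nat.mul V (nat_lit 100000)) T) TX) fun L =>
              psiL T X0 er m X N L (nat_lit 0)) BT n) false)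
      false) false) false

theorem psiL_sound (T X0 er : ℕ) (ms : List ℕ) : ∀ (Xs : List ℕ) (N L R : ℕ),
    psiL T X0 er ms Xs N L R = true → Xs.length = ms.length ∧ (∀ a < ms.length, X0 ≤ Xs.getD a 0) ∧
    L + ∑ a ∈ Finset.range ms.length, ms.getD a 0 * Xs.getD a 0 * T * (er + lgU (Xs.getD a 0))
      ≤ R + ∑ a ∈ Finset.range ms.length, Xs.getD a 0 * (N / 2 ^ (256 * a) % 2 ^ 256) := by
  induction ms with
  | nil =>
    intro Xs N L R h
    cases Xs with
    | cons X Xs => exact absurd h (by show ¬ (false = true); simp)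
    | nil =>
      have h1 : L ≤ R := Nat.le_of_ble_eq_true h
      exact ⟨rfl, by simp, by simpa using h1⟩
  | cons m ms ih =>
    intro Xs N L R h
    cases Xs with
    | nil => exact absurd h (by show ¬ (false = true); simp)
    | cons X Xs =>
      have e : psiL T X0 er (m :: ms) (X :: Xs) N L R = cond (Nat.ble X0 X)
        (frc (L + m * X * T * (er + lgU X)) fun L' => frc (R + X * (N &&& (2 ^ 256 - 1))) fun R' =>
          frc (N >>> 256) fun N' => psiL T X0 er ms Xs N' L' R') false := rfl
      rw [e, frc_eq, frc_eq, frc_eq, Nat.and_two_pow_sub_one_eq_mod, Nat.shiftRight_eq_div_pow] at h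
      obtain ⟨h1, h2⟩ := cond_eq_true h
      obtain ⟨g1, g2, g3⟩ := ih Xs _ _ _ h2
      refine ⟨by simp [g1], fun a ha => ?_, ?_⟩
      · cases a with
        | zero => exact Nat.le_of_ble_eq_true h1
        | succ a => exact g2 a (by simpa using ha)
      · rw [List.length_cons, Finset.sum_range_succ', Finset.sum_range_succ']
        simp only [List.getD_cons_succ, List.getD_cons_zero, mul_zero, pow_zero, Nat.div_one]
        have e2 : ∀ a, N / 2 ^ (256 * (a + 1)) = N / 2 ^ 256 / 2 ^ (256 * a) := by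
          intro a
          rw [show 256 * (a + 1) = 256 + 256 * a by ring, pow_add, ← Nat.div_div_eq_div_mul]
        simp only [e2]
        generalize ∑ a ∈ Finset.range ms.length, ms.getD a 0 * Xs.getD a 0 * T
          * (er + lgU (Xs.getD a 0)) = A at g3 ⊢
        generalize ∑ a ∈ Finset.range ms.length, Xs.getD a 0
          * (N / 2 ^ 256 / 2 ^ (256 * a) % 2 ^ 256) = B at g3 ⊢
        omega

/-- THE ROW FUNCTION FROM BELOW AT A FIXED DISTRIBUTION. -/
theorem psi_sound (m X : List ℕ) (X0 V : ℕ) (h : psiOK m X X0 V = true) (Rs : List (Multiset ℝ))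
    (hcard : Rs.map Multiset.card = m) (hpos : ∀ R ∈ Rs, ∀ z ∈ R, (0 : ℝ) < z) (rest : Multiset ℝ) :
    (V : ℝ) / 10 ^ 7 + logS Rs X / (dotN m X : ℝ) ≤ FM (Rs.sum + rest) := by
  unfold psiOK at h
  simp only [frc_eq, lsum_eq, ldot_eq, pick_eq] at h
  obtain ⟨hX0, h⟩ := cond_eq_true h
  obtain ⟨hn1, h⟩ := cond_eq_true h
  obtain ⟨hn, h⟩ := cond_eq_true h
  obtain ⟨hd, h⟩ := cond_eq_true h
  rw [Nat.zero_add] at hn1 hn hd h
  have hX0 : 65536 ≤ X0 := Nat.le_of_ble_eq_true hX0
  have hn1 : 1 ≤ m.sum := Nat.le_of_ble_eq_true hn1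
  have hn : m.sum ≤ 40 := Nat.le_of_ble_eq_true hn
  have hd : dotN m X < 2 ^ 26 := by
    have : dotN m X ≤ 67108863 := Nat.le_of_ble_eq_true hd
    omega
  have hm40 : ∀ x ∈ m, x ≤ 40 := by
    intro x hx
    obtain ⟨i, hi, rfl⟩ := List.getElem_of_mem hx
    have := getD_le_sum m i
    rw [List.getD_eq_getElem _ _ hi] at this
    omega
  rw [mkR_eq m hm40, mkZ_eq] at h
  obtain ⟨hlX, hXX, hty⟩ := psiL_sound _ _ _ m X _ _ _ h
  have eT : Nat.mul m.sum (Nat.shiftRight (BT.getD m.sum 0) (Nat.mul 160 m.sum)) = m.sum.factorial :=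
    (BT_sound m.sum hn hn1).2
  have eN := evN_digits (BT.getD m.sum 0) m X hlX hn hd
  set Sa : ℕ → ℕ := fun a => SF m fun c => slot (BT.getD m.sum 0) c.sum * lgU (dotN c X) * c.getD a 0
    with hSa
  have hdig : ∀ a < m.length, evN (BT.getD m.sum 0) (m.map brow) (zsOf X 18446744073709551616) 0 1
      / 2 ^ (256 * a) % 2 ^ 256 = Sa a := by
    intro a ha
    rw [show (18446744073709551616 : ℕ) = 2 ^ 64 by norm_num, eN]
    exact digit m.length Sa (fun b _ => digit_lt m X hn hn1 hd b) a ha
  rw [eT, Nat.zero_add] at hty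
  have hlR : Rs.length = m.length := by rw [← hcard, List.length_map]
  have hgetc : ∀ a < m.length, (Rs.getD a 0).card = m.getD a 0 := by
    intro a ha
    rw [← hcard, List.getD_eq_getElem _ _ (by rw [hlR]; exact ha),
      List.getD_eq_getElem _ _ (by rw [List.length_map, hlR]; exact ha), List.getElem_map]
  obtain ⟨ρ, hρ, hlρ⟩ : ∃ ρ : ℝ, 0 < ρ ∧ (10 : ℝ) ^ 12 * Real.log ρ = (erB X0 : ℕ) :=
    ⟨Real.exp ((erB X0 : ℕ) / 10 ^ 12), Real.exp_pos _, by rw [Real.log_exp]; field_simp⟩
  have hPpos : (0 : ℝ) < (m.sum.factorial : ℝ) := by exact_mod_cast Nat.factorial_pos _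
  rw [← hcard]
  refine FM_ge_pi Rs X (by rw [hlX, hlR]) ?_ hpos ?_ rest _ ρ hρ ?_
  · intro a ha
    have := hXX a (by rw [← hlR]; exact ha)
    omega
  · obtain ⟨a, ha⟩ : ∃ a, 0 < m.getD a 0 := by
      by_contra hcon
      push Not at hcon
      have : m.sum = 0 := by
        rw [List.sum_eq_zero_iff]
        intro x hx
        obtain ⟨i, hi, rfl⟩ := List.getElem_of_mem hx
        have := hcon i
        rw [List.getD_eq_getElem _ _ hi] at this
        omega
      omega
    have haR : a < m.length := by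
      by_contra hcon
      rw [List.getD_eq_default _ _ (by omega)] at ha
      omega
    exact ⟨a, by rw [hlR]; exact haR, by rw [hgetc a haR]; exact ha⟩
  · rw [hcard, hlR]
    have hS : ∀ a ∈ Finset.range m.length, (X.getD a 0 : ℝ) * (Sa a : ℝ)
        - (m.getD a 0 : ℝ) * (X.getD a 0 : ℝ) * (m.sum.factorial : ℝ) * ((erB X0 : ℕ) + (lgU (X.getD a 0) : ℕ))
        ≤ (10 : ℝ) ^ 12 * (m.sum.factorial : ℝ) * ((X.getD a 0 : ℝ) * (((Rs.getD a 0).card : ℝ)
          * (bx 0 0 ((decN a m).zip (X.map fun x : ℕ => ρ * ((x : ℝ) / 4096))) (ρ * ((X.getD a 0 : ℝ) / 4096))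
            - Real.log (ρ * ((X.getD a 0 : ℝ) / 4096))))) := by
      intro a ha
      have ha' := Finset.mem_range.mp ha
      rw [hgetc a ha']
      have hXa : X0 ≤ X.getD a 0 := hXX a ha'
      have hXpos : (0 : ℝ) < (X.getD a 0 : ℝ) / 4096 := by
        have : (0 : ℝ) < (X.getD a 0 : ℝ) := by exact_mod_cast (by omega : 0 < X.getD a 0)
        positivity
      rcases Nat.eq_zero_or_pos (m.getD a 0) with h0 | h0
      · have hSa0 : Sa a = 0 := by
          have h1 : (SF m fun c => slot (BT.getD m.sum 0) c.sum * lgU (dotN c X) * c.getD a 0)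
              ≤ SF m fun _ => (0 * 0 : ℕ) := by
            refine SF_mono m _ _ fun c hc => ?_
            have h2 := getD_mono c m hc a
            rw [h0] at h2
            rw [Nat.le_zero.mp h2]
            simp
          rw [SF_mul, zero_mul] at h1
          exact Nat.le_zero.mp h1
        rw [hSa0, h0]
        simp
      · have hma : m.getD a 0 * X.getD a 0 ≤ dotN m X := mul_getD_le_dot m X a (by rw [hlX])
        have hXlt : X.getD a 0 < 67108864 := by
          have : 1 * X.getD a 0 ≤ m.getD a 0 * X.getD a 0 := Nat.mul_le_mul_right _ h0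
          omega
        have k1 := type_ineq_lo m X X0 hX0 hlX hn a h0 hXa hd ρ hρ hlρ
        have k2 := lgU_ge (X.getD a 0) (by omega) hXlt
        have e9 : ((SF m fun c => slot (BT.getD m.sum 0) c.sum * lgU (dotN c X) * c.getD a 0 : ℕ) : ℝ)
            = ((Sa a : ℕ) : ℝ) := rfl
        rw [e9] at k1
        have k3 : (10 : ℝ) ^ 12 * Real.log (ρ * ((X.getD a 0 : ℝ) / 4096))
            = (10 : ℝ) ^ 12 * Real.log ((X.getD a 0 : ℝ) / 4096) + (erB X0 : ℕ) := by
          rw [Real.log_mul hρ.ne' hXpos.ne', ← hlρ]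
          ring
        push_cast at k1
        have hx0 : (0 : ℝ) ≤ (X.getD a 0 : ℝ) := Nat.cast_nonneg _
        have hm0 : (0 : ℝ) ≤ (m.getD a 0 : ℝ) := Nat.cast_nonneg _
        generalize bx 0 0 ((decN a m).zip (X.map fun x : ℕ => ρ * ((x : ℝ) / 4096)))
          (ρ * ((X.getD a 0 : ℝ) / 4096)) = B at k1 ⊢
        generalize Real.log (ρ * ((X.getD a 0 : ℝ) / 4096)) = L at k3 ⊢
        generalize Real.log ((X.getD a 0 : ℝ) / 4096) = L0 at k2 k3
        generalize ((lgU (X.getD a 0) : ℕ) : ℝ) = U at k2 ⊢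
        generalize ((erB X0 : ℕ) : ℝ) = er at k3 ⊢
        generalize (X.getD a 0 : ℝ) = x at hx0 ⊢
        generalize (m.getD a 0 : ℝ) = mm at hm0 k1 ⊢
        generalize (m.sum.factorial : ℝ) = P at hPpos k1 ⊢
        have a1 := mul_le_mul_of_nonneg_left k1 hx0
        have a2 : (10 : ℝ) ^ 12 * L ≤ er + U := by linarith
        have a3 := mul_le_mul_of_nonneg_left a2 (by positivity : 0 ≤ mm * x * P)
        have e1 : (10 : ℝ) ^ 12 * P * (x * (mm * (B - L)))
            = x * (mm * P * ((10 : ℝ) ^ 12 * B)) - mm * x * P * ((10 : ℝ) ^ 12 * L) := by ring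
        rw [e1]
        linarith
    have h3 := Finset.sum_le_sum hS
    rw [Finset.sum_sub_distrib, ← Finset.mul_sum] at h3
    have h4 : (V : ℝ) * 100000 * (m.sum.factorial : ℝ) * (dotN m X : ℝ)
        + ∑ a ∈ Finset.range m.length, (m.getD a 0 : ℝ) * (X.getD a 0 : ℝ) * (m.sum.factorial : ℝ)
          * ((erB X0 : ℕ) + (lgU (X.getD a 0) : ℕ))
        ≤ ∑ a ∈ Finset.range m.length, (X.getD a 0 : ℝ) * (Sa a : ℝ) := by
      have h5 : ∑ a ∈ Finset.range m.length, X.getD a 0 * (evN (BT.getD m.sum 0) (m.map brow)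
          (zsOf X 18446744073709551616) 0 1 / 2 ^ (256 * a) % 2 ^ 256)
          = ∑ a ∈ Finset.range m.length, X.getD a 0 * Sa a :=
        Finset.sum_congr rfl fun a ha => by rw [hdig a (Finset.mem_range.mp ha)]
      have h6 : V * 100000 * m.sum.factorial * dotN m X
          + ∑ a ∈ Finset.range m.length, m.getD a 0 * X.getD a 0 * m.sum.factorial
            * (erB X0 + lgU (X.getD a 0)) ≤ ∑ a ∈ Finset.range m.length, X.getD a 0 * Sa a := by
        rw [← h5]
        have e7 : Nat.mul (Nat.mul (Nat.mul V 100000) m.sum.factorial) (dotN m X)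
            = V * 100000 * m.sum.factorial * dotN m X := rfl
        rw [e7] at hty
        simpa using hty
      exact_mod_cast h6
    generalize ∑ a ∈ Finset.range m.length, (X.getD a 0 : ℝ) * (Sa a : ℝ) = A at h3 h4
    generalize ∑ a ∈ Finset.range m.length, (m.getD a 0 : ℝ) * (X.getD a 0 : ℝ) * (m.sum.factorial : ℝ)
          * ((erB X0 : ℕ) + (lgU (X.getD a 0) : ℕ)) = C at h3 h4
    generalize (m.sum.factorial : ℝ) = P at hPpos h3 h4
    generalize (dotN m X : ℝ) = T at h4 ⊢
    generalize ∑ a ∈ Finset.range m.length, (X.getD a 0 : ℝ) * (((Rs.getD a 0).card : ℝ)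
          * (bx 0 0 ((decN a m).zip (X.map fun x : ℕ => ρ * ((x : ℝ) / 4096))) (ρ * ((X.getD a 0 : ℝ) / 4096))
            - Real.log (ρ * ((X.getD a 0 : ℝ) / 4096)))) = B at h3 ⊢
    have h7 : (V : ℝ) * 100000 * T * P ≤ (10 : ℝ) ^ 12 * B * P := by linarith
    have h8 := le_of_mul_le_mul_right h7 hPpos
    norm_num at h8 ⊢
    linarith

end Pk
end Ent
end Pool.Agent.Lib.MP_6947cd_al
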