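import Pool.Agent.Lib.MP_6947cd_al.L.FillR
import Pool.Agent.Lib.MP_6947cd_al.L.CellN

/-!
Problem MP_6947cd_al (Chollet).  TABLES OF ROW VALUES, COMPUTED FROM A FEW EXACT ROWS.

All entries are multiples of `1 / D`.  `fx` = fixed part (value, multiplicity), the first one is `(D, m)`, `m ≥ 1`;
`ks` = knots, `rd` = radices (`n_q < rd_q`).  The table `T` has digits of 64 bits, digit number
`idx rd n = n_0 + rd_0 * (n_1 + rd_1 * ..)`, unit `1 / 10 ^ 7`; every digit is at every moment a bound of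
`FM (fixed + mk n ks)`; in the beginning all digits are `2 ^ 60`.

A pass reads one hexadecimal digit per entry (increasing index):
`0` keep, `1` exact row (certificate from `B`: digits `V`, `X_1`, .. of 32 bits), `2 + q` rule `FM_two`,
`6 + q` rule `FM_log`, `10 + q` chord `FM_chord`.
-/

set_option autoImplicit false
open Finset

namespace Pool.Agent.Lib.MP_6947cd_al
namespace Ent
namespace Fl

open Pk CA

/-! ### the program -/

/-- digit of 64 bits -/
def dq (T i : ℕ) : ℕ :=
  Nat.land (Nat.shiftRight T (Nat.mul (nat_lit 64) i)) (nat_lit 18446744073709551615)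

/-- replacing a digit -/
def up (T i d : ℕ) : ℕ :=
  Nat.sub (Nat.add T (Nat.shiftLeft d (Nat.mul (nat_lit 64) i)))
    (Nat.shiftLeft (dq T i) (Nat.mul (nat_lit 64) i))

/-- the table without information -/
noncomputable def ini : ℕ → ℕ :=
  @Nat.rec (fun _ => ℕ) (nat_lit 0)
    (fun _ T => Nat.add (Nat.shiftLeft T (nat_lit 64)) (nat_lit 1152921504606846976))

/-- `f` plus the sum of the knots which are at least `x` -/
noncomputable def sge (x : ℕ) (ks : List ℕ) : List ℕ → ℕ → ℕ :=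
  @List.rec ℕ (fun _ => List ℕ → ℕ → ℕ) (fun _ f => f)
    (fun y _ ih ns f => @List.rec ℕ (fun _ => ℕ) f (fun n ns' _ =>
      cond (Nat.ble x y) (frc (Nat.add f (Nat.mul n y)) fun f' => ih ns' f') (ih ns' f)) ns) ks

/-- all knots present are at most `K` -/
noncomputable def leK (K : ℕ) (ks : List ℕ) : List ℕ → Bool :=
  @List.rec ℕ (fun _ => List ℕ → Bool) (fun _ => true)
    (fun y _ ih ns => @List.rec ℕ (fun _ => Bool) true (fun n ns' _ =>
      cond (Nat.beq n (nat_lit 0)) (ih ns') (cond (Nat.ble y K) (ih ns') false)) ns) ks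

/-- `10 ^ 7 * log (1 + x / S)`, rounded up -/
def inc2 (x S : ℕ) : ℕ :=
  Nat.succ (Nat.div (Nat.mul (Nat.mul (nat_lit 20000000) x)
      (Nat.add (Nat.mul (nat_lit 12) (Nat.mul S (Nat.add S x))) (Nat.mul x x)))
    (Nat.mul (Nat.mul (nat_lit 12) (Nat.add (Nat.add S S) x)) (Nat.mul S (Nat.add S x))))

/-- unpacking `r` digits of 32 bits, with the rest -/
noncomputable def upr (r : ℕ) : ℕ → (List ℕ → ℕ → Bool) → Bool :=
  @Nat.rec (fun _ => ℕ → (List ℕ → ℕ → Bool) → Bool) (fun N k => k [] N)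
    (fun _ ih N k => frc (Nat.land N (nat_lit 4294967295)) fun x =>
      frc (Nat.shiftRight N (nat_lit 32)) fun N' => ih N' fun l N'' => k (x :: l) N'') r

/-- new digit -/
noncomputable def setd (T i B : ℕ) (k : ℕ → ℕ → Bool) (d : ℕ) : Bool :=
  cond (Nat.ble d (nat_lit 1152921504606846976)) (frc (up T i d) fun T' => k T' B) false

/-- one entry -/
noncomputable def step (v : List (ℕ × ℕ)) (pre : List ℕ) (R : ℕ) (ks rd st sf i1 : List ℕ)
    (i C T B : ℕ) (k : ℕ → ℕ → Bool) : Bool :=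
  frc (Nat.land C (nat_lit 15)) fun c =>
    cond (Nat.beq c (nat_lit 0)) (k T B)
    (digC rd i fun ns =>
      cond (Nat.beq c (nat_lit 1))
        (frc (Nat.land B (nat_lit 4294967295)) fun V => frc (Nat.shiftRight B (nat_lit 32)) fun B1 =>
          upr R B1 fun X B2 => cond (rowOK v (app pre ns) X V) (setd T i B2 k V) false)
      (cond (Nat.ble c (nat_lit 5))
        (frc (Nat.sub c (nat_lit 2)) fun q =>
          pick (nat_lit 0) (fun n => cond (Nat.ble (nat_lit 1) n)
            (pick (nat_lit 0) (fun s => pick (nat_lit 0) (fun a => cond (Nat.ble (nat_lit 1) a)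
              (frc (Nat.add (dq T (Nat.sub i s)) a) fun d => setd T i B k d) false) i1 q) st q) false) ns q)
      (cond (Nat.ble c (nat_lit 9))
        (frc (Nat.sub c (nat_lit 6)) fun q =>
          pick (nat_lit 0) (fun n => cond (Nat.ble (nat_lit 1) n)
            (pick (nat_lit 0) (fun x => pick (nat_lit 0) (fun f =>
              frc (Nat.sub (sge x ks ns f) x) fun S =>
                pick (nat_lit 0) (fun s =>
                  frc (Nat.add (dq T (Nat.sub i s)) (inc2 x S)) fun d => setd T i B k d) st q) sf q) ks q)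
            false) ns q)
        (frc (Nat.sub c (nat_lit 10)) fun q =>
          pick (nat_lit 0) (fun K => cond (Nat.ble (nat_lit 1) K) (cond (leK K ks ns)
            (pick (nat_lit 0) (fun s => frc (sge (nat_lit 0) ks ns (nat_lit 0)) fun M =>
              frc (Nat.div M K) fun m => pick (nat_lit 0) (fun r => cond (Nat.ble (Nat.add m (nat_lit 2)) r)
                (frc (dq T (Nat.mul m s)) fun u => frc (dq T (Nat.mul (Nat.succ m) s)) fun w =>
                  frc (Nat.add u (Nat.succ (Nat.div (Nat.mul (Nat.sub M (Nat.mul m K)) (Nat.sub w u)) K)))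
                    fun d => setd T i B k d) false) rd q) st q) false) false) ks q))))

/-- one pass -/
noncomputable def loop (v : List (ℕ × ℕ)) (pre : List ℕ) (R : ℕ) (ks rd st sf i1 : List ℕ) (P : ℕ) :
    ℕ → ℕ → ℕ → ℕ → (ℕ → ℕ → Bool) → Bool :=
  @Nat.rec (fun _ => ℕ → ℕ → ℕ → ℕ → (ℕ → ℕ → Bool) → Bool) (fun _ _ T B k => k T B)
    (fun _ ih i C T B k => cond (Nat.beq C (nat_lit 0)) (k T B)
      (step v pre R ks rd st sf i1 i C T B fun T' B' =>
        frc (Nat.shiftRight C (nat_lit 4)) fun C' => frc (Nat.succ i) fun i' => ih i' C' T' B' k)) P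

/-- several passes -/
noncomputable def passes (v : List (ℕ × ℕ)) (pre : List ℕ) (R : ℕ) (ks rd st sf i1 : List ℕ) (P : ℕ)
    (Cs : List ℕ) : ℕ → ℕ → (ℕ → Bool) → Bool :=
  @List.rec ℕ (fun _ => ℕ → ℕ → (ℕ → Bool) → Bool) (fun T _ k => k T)
    (fun C _ ih T B k => loop v pre R ks rd st sf i1 P (nat_lit 0) C T B fun T' B' => ih T' B' k) Cs

/-- fixed part of the sum, entries at least `x` -/
def sumF (x : ℕ) : List (ℕ × ℕ) → ℕ
  | [] => 0
  | (p, m) :: l => (if x ≤ p then m * p else 0) + sumF x l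

/-- the strides -/
def stOK : List ℕ → List ℕ → ℕ → Bool
  | [], [], _ => true
  | r :: rd, s :: st, t => Nat.beq s t && Nat.ble 1 r && stOK rd st (t * r)
  | _, _, _ => false

/-- a second entry which is at least `dA`, besides `D` -/
def twoOK (dA : ℕ) : List (ℕ × ℕ) → Bool
  | [] => false
  | (p, m) :: l => (Nat.ble dA p && Nat.ble 1 m) || twoOK dA l

/-- the parameters -/
def prmOK (D : ℕ) (fx : List (ℕ × ℕ)) (v : List (ℕ × ℕ)) (pre : List ℕ) (ks rd st sf i1 : List ℕ)
    (dA An Bn : ℕ) : Bool :=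
  (match fx with
    | [] => false
    | (p, m) :: l => Nat.beq p D && Nat.ble 1 m && Nat.ble 1 D && l.all (fun u => Nat.ble u.1 D)
      && (i1.all (fun a => Nat.beq a 0) || (Nat.ble dA D && (Nat.ble 2 m || twoOK dA l)))) &&
  decide (v = (fx.map fun u => (u.1, D)) ++ (ks.map fun x => (x, D))) &&
  decide (pre = fx.map fun u => u.2) && decide ((fx.map fun u => u.2).sum + rd.sum ≤ 1000000000) &&
  (ks.all fun x => Nat.ble 1 x && Nat.ble x D) &&
  stOK rd st 1 && Nat.beq ks.length rd.length && Nat.beq i1.length ks.length &&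
  decide (sf = ks.map fun x => sumF x fx) &&
  ((ks.zip i1).all fun u => Nat.beq u.2 0 ||
    (Nat.ble u.1 dA && Nat.ble (10000 * An * u.1 * D + 5000 * Bn * u.1 ^ 2) (u.2 * D ^ 2)))

/-- THE PROGRAM. -/
noncomputable def fill (v : List (ℕ × ℕ)) (pre : List ℕ) (R : ℕ) (ks rd st sf i1 : List ℕ) (P : ℕ)
    (Cs : List ℕ) (B : ℕ) (k : ℕ → Bool) : Bool :=
  frc (ini P) fun T => passes v pre R ks rd st sf i1 P Cs T B k

/-! ### digits -/

lemma dq_eq (T i : ℕ) : dq T i = T / 2 ^ (64 * i) % 2 ^ 64 := by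
  show (T >>> (64 * i)) &&& (2 ^ 64 - 1) = _
  rw [Nat.and_two_pow_sub_one_eq_mod, Nat.shiftRight_eq_div_pow]

lemma dq_mod (T i : ℕ) : dq T i = T % 2 ^ (64 * (i + 1)) / 2 ^ (64 * i) := by
  rw [dq_eq, show 64 * (i + 1) = 64 * i + 64 by ring, pow_add, Nat.mod_mul_right_div_self]

lemma up_eq (T i d : ℕ) : up T i d = T / 2 ^ (64 * (i + 1)) * 2 ^ (64 * (i + 1)) + d * 2 ^ (64 * i)
    + T % 2 ^ (64 * i) := by
  have e1 : up T i d = T + d * 2 ^ (64 * i) - dq T i * 2 ^ (64 * i) := by
    show (T + d <<< (64 * i)) - (dq T i) <<< (64 * i) = _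
    rw [Nat.shiftLeft_eq, Nat.shiftLeft_eq]
  have e2 : T = T / 2 ^ (64 * (i + 1)) * 2 ^ (64 * (i + 1)) + dq T i * 2 ^ (64 * i)
      + T % 2 ^ (64 * i) := by
    have h1 := Nat.div_add_mod T (2 ^ (64 * i))
    have h2 := Nat.div_add_mod (T / 2 ^ (64 * i)) (2 ^ 64)
    have h3 : T / 2 ^ (64 * (i + 1)) = T / 2 ^ (64 * i) / 2 ^ 64 := by
      rw [Nat.div_div_eq_div_mul, ← pow_add]
      congr 2
    rw [← dq_eq] at h2
    rw [h3]
    have h4 : (2 : ℕ) ^ (64 * (i + 1)) = 2 ^ (64 * i) * 2 ^ 64 := by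
      rw [← pow_add]
      congr 1
    rw [h4]
    calc T = 2 ^ (64 * i) * (T / 2 ^ (64 * i)) + T % 2 ^ (64 * i) := h1.symm
      _ = 2 ^ (64 * i) * (2 ^ 64 * (T / 2 ^ (64 * i) / 2 ^ 64) + dq T i) + T % 2 ^ (64 * i) := by
          rw [h2]
      _ = _ := by ring
  rw [e1]
  have e3 : T + d * 2 ^ (64 * i) = (T / 2 ^ (64 * (i + 1)) * 2 ^ (64 * (i + 1)) + d * 2 ^ (64 * i)
      + T % 2 ^ (64 * i)) + dq T i * 2 ^ (64 * i) := by
    calc T + d * 2 ^ (64 * i) = (T / 2 ^ (64 * (i + 1)) * 2 ^ (64 * (i + 1)) + dq T i * 2 ^ (64 * i)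
      + T % 2 ^ (64 * i)) + d * 2 ^ (64 * i) := by rw [← e2]
      _ = _ := by ring
  rw [e3, Nat.add_sub_cancel]

lemma up_same (T i d : ℕ) (hd : d < 2 ^ 64) : dq (up T i d) i = d := by
  rw [dq_eq, up_eq, show 64 * (i + 1) = 64 * i + 64 by ring, pow_add]
  have hB : 0 < 2 ^ (64 * i) := by positivity
  have e : T / (2 ^ (64 * i) * 2 ^ 64) * (2 ^ (64 * i) * 2 ^ 64) + d * 2 ^ (64 * i) + T % 2 ^ (64 * i)
      = T % 2 ^ (64 * i) + 2 ^ (64 * i) * (T / (2 ^ (64 * i) * 2 ^ 64) * 2 ^ 64 + d) := by ring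
  rw [e, Nat.add_mul_div_left _ _ hB, Nat.div_eq_of_lt (Nat.mod_lt _ hB), Nat.zero_add,
    Nat.add_comm, Nat.add_mul_mod_self_right, Nat.mod_eq_of_lt hd]

lemma up_other (T i d j : ℕ) (hd : d < 2 ^ 64) (hj : j ≠ i) : dq (up T i d) j = dq T j := by
  have hB : 0 < 2 ^ (64 * i) := by positivity
  have hC : 0 < 2 ^ (64 * (i + 1)) := by positivity
  have hlt : d * 2 ^ (64 * i) + T % 2 ^ (64 * i) < 2 ^ (64 * (i + 1)) := by
    have h1 := Nat.mod_lt T hB
    have h2 : (2 : ℕ) ^ (64 * (i + 1)) = 2 ^ 64 * 2 ^ (64 * i) := by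
      rw [← pow_add]
      congr 1
      ring
    rw [h2]
    calc d * 2 ^ (64 * i) + T % 2 ^ (64 * i) < d * 2 ^ (64 * i) + 2 ^ (64 * i) := by omega
      _ = (d + 1) * 2 ^ (64 * i) := by ring
      _ ≤ 2 ^ 64 * 2 ^ (64 * i) := Nat.mul_le_mul_right _ hd
  rcases Nat.lt_or_gt_of_ne hj with h | h
  · -- lower digits
    rw [dq_mod, dq_mod]
    congr 1
    have h1 : 2 ^ (64 * (j + 1)) ∣ 2 ^ (64 * i) := pow_dvd_pow 2 (by omega)
    have h2 : up T i d % 2 ^ (64 * i) = T % 2 ^ (64 * i) := by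
      rw [up_eq, show 64 * (i + 1) = 64 * i + 64 by ring, pow_add]
      have e : T / (2 ^ (64 * i) * 2 ^ 64) * (2 ^ (64 * i) * 2 ^ 64) + d * 2 ^ (64 * i) + T % 2 ^ (64 * i)
          = T % 2 ^ (64 * i) + 2 ^ (64 * i) * (T / (2 ^ (64 * i) * 2 ^ 64) * 2 ^ 64 + d) := by ring
      rw [e, Nat.add_mul_mod_self_left, Nat.mod_mod]
    rw [← Nat.mod_mod_of_dvd (up T i d) h1, h2, Nat.mod_mod_of_dvd T h1]
  · -- higher digits
    rw [dq_eq, dq_eq]
    congr 1
    have e : 2 ^ (64 * j) = 2 ^ (64 * (i + 1)) * 2 ^ (64 * (j - (i + 1))) := by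
      rw [← pow_add]
      congr 1
      omega
    rw [e, ← Nat.div_div_eq_div_mul, ← Nat.div_div_eq_div_mul]
    congr 1
    rw [up_eq, Nat.add_assoc, Nat.add_comm, Nat.add_mul_div_right _ _ hC, Nat.div_eq_of_lt hlt,
      Nat.zero_add]

lemma ini_dq (P : ℕ) : ∀ j, j < P → dq (ini P) j = 1152921504606846976 := by
  induction P with
  | zero => intro j hj; omega
  | succ P ih =>
    intro j hj
    have e : ini (P + 1) = ini P * 2 ^ 64 + 1152921504606846976 := by
      show (ini P) <<< 64 + 1152921504606846976 = _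
      rw [Nat.shiftLeft_eq]
    rw [dq_eq, e]
    cases j with
    | zero => simp [Nat.add_mod]
    | succ j =>
      have h2 : (2 : ℕ) ^ (64 * (j + 1)) = 2 ^ 64 * 2 ^ (64 * j) := by
        rw [← pow_add]
        congr 1
        ring
      rw [h2, ← Nat.div_div_eq_div_mul, Nat.add_comm (ini P * 2 ^ 64),
        Nat.add_mul_div_right _ _ (by positivity)]
      have h3 : 1152921504606846976 / 2 ^ 64 = 0 := by norm_num
      rw [h3, Nat.zero_add, ← dq_eq]
      exact ih j (by omega)

/-! ### indices -/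

/-- removing one copy of the knot `q` -/
def dec1 : List ℕ → ℕ → List ℕ
  | [], _ => []
  | n :: ns, 0 => (n - 1) :: ns
  | n :: ns, q + 1 => n :: dec1 ns q

/-- `m` copies of the knot `q` -/
def pur : List ℕ → ℕ → ℕ → List ℕ
  | [], _, _ => []
  | _ :: rd, 0, m => m :: rd.map fun _ => 0
  | _ :: rd, q + 1, m => 0 :: pur rd q m

/-- strides -/
def strd : List ℕ → ℕ → ℕ
  | [], _ => 0
  | _ :: _, 0 => 1
  | r :: rd, q + 1 => r * strd rd q

lemma dig_zero (rd : List ℕ) : dig rd 0 = rd.map fun _ => 0 := by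
  induction rd with
  | nil => rfl
  | cons r rd ih =>
    show (0 % r) :: dig rd (0 / r) = _
    rw [Nat.zero_mod, Nat.zero_div, ih]
    rfl

lemma dig_dec (rd : List ℕ) : ∀ (q i : ℕ), (∀ r ∈ rd, 1 ≤ r) → 1 ≤ (dig rd i).getD q 0 →
    strd rd q ≤ i ∧ dig rd (i - strd rd q) = dec1 (dig rd i) q := by
  induction rd with
  | nil => intro q i _ h; simp [dig] at h
  | cons r rd ih =>
    intro q i hr h
    have hr1 : 1 ≤ r := hr r (by simp)
    cases q with
    | zero =>
      have h1 : 1 ≤ i % r := by simpa [dig] using h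
      have h2 := Nat.div_add_mod i r
      have h3 : i % r < r := Nat.mod_lt i hr1
      have h4 : i - 1 = (i % r - 1) + r * (i / r) := by omega
      refine ⟨by show 1 ≤ i; omega, ?_⟩
      show ((i - 1) % r) :: dig rd ((i - 1) / r) = (i % r - 1) :: dig rd (i / r)
      rw [h4, Nat.add_mul_mod_self_left, Nat.mod_eq_of_lt (by omega), Nat.add_mul_div_left _ _ hr1,
        Nat.div_eq_of_lt (by omega), Nat.zero_add]
    | succ q =>
      have h1 : 1 ≤ (dig rd (i / r)).getD q 0 := by simpa [dig] using h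
      obtain ⟨h2, h3⟩ := ih q (i / r) (fun r' hr' => hr r' (by simp [hr'])) h1
      have h4 : r * strd rd q ≤ i := (Nat.mul_le_mul_left r h2).trans (Nat.mul_div_le i r)
      refine ⟨h4, ?_⟩
      show ((i - r * strd rd q) % r) :: dig rd ((i - r * strd rd q) / r)
        = (i % r) :: dec1 (dig rd (i / r)) q
      rw [← h3, Nat.sub_mul_div, Nat.sub_mul_mod h4]

lemma dig_pur (rd : List ℕ) : ∀ (q m : ℕ), (∀ r ∈ rd, 1 ≤ r) → m < rd.getD q 0 →
    dig rd (m * strd rd q) = pur rd q m ∧ m * strd rd q < rd.prod := by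
  induction rd with
  | nil => intro q m _ h; simp at h
  | cons r rd ih =>
    intro q m hr h
    have hr1 : 1 ≤ r := hr r (by simp)
    have hprod : 1 ≤ rd.prod := by
      have : ∀ l : List ℕ, (∀ r ∈ l, 1 ≤ r) → 1 ≤ l.prod := by
        intro l
        induction l with
        | nil => intro _; simp
        | cons x l ih =>
          intro hl
          rw [List.prod_cons]
          exact Nat.mul_pos (hl x (by simp)) (ih fun r hr => hl r (by simp [hr]))
      exact this rd fun r' hr' => hr r' (by simp [hr'])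
    cases q with
    | zero =>
      have h1 : m < r := by simpa using h
      have e : m * strd (r :: rd) 0 = m := Nat.mul_one m
      rw [e]
      refine ⟨?_, ?_⟩
      · show (m % r) :: dig rd (m / r) = m :: rd.map fun _ => 0
        rw [Nat.mod_eq_of_lt h1, Nat.div_eq_of_lt h1, dig_zero]
      · rw [List.prod_cons]
        nlinarith
    | succ q =>
      have h1 : m < rd.getD q 0 := by simpa using h
      obtain ⟨h2, h3⟩ := ih q m (fun r' hr' => hr r' (by simp [hr'])) h1
      have e : m * strd (r :: rd) (q + 1) = r * (m * strd rd q) := by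
        show m * (r * strd rd q) = _
        ring
      rw [e]
      refine ⟨?_, ?_⟩
      · show (r * (m * strd rd q) % r) :: dig rd (r * (m * strd rd q) / r) = 0 :: pur rd q m
        rw [Nat.mul_mod_right, Nat.mul_div_cancel_left _ hr1, h2]
      · rw [List.prod_cons]
        exact Nat.mul_lt_mul_of_pos_left h3 hr1

lemma stOK_sound (rd : List ℕ) : ∀ (st : List ℕ) (t : ℕ), stOK rd st t = true →
    (∀ r ∈ rd, 1 ≤ r) ∧ ∀ q, q < rd.length → st.getD q 0 = t * strd rd q := by
  induction rd with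
  | nil =>
    intro st t _
    exact ⟨by simp, fun q hq => by simp at hq⟩
  | cons r rd ih =>
    intro st t h
    cases st with
    | nil => simp [stOK] at h
    | cons s st =>
      simp only [stOK, Bool.and_eq_true] at h
      obtain ⟨⟨h1, h2⟩, h3⟩ := h
      obtain ⟨h4, h5⟩ := ih st (t * r) h3
      have h1 := Nat.eq_of_beq_eq_true h1
      have h2 := Nat.le_of_ble_eq_true h2
      refine ⟨?_, ?_⟩
      · intro r' hr'
        rcases List.mem_cons.mp hr' with rfl | hr'
        · exact h2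
        · exact h4 r' hr'
      · intro q hq
        cases q with
        | zero =>
          show s = t * 1
          omega
        | succ q =>
          rw [List.getD_cons_succ, h5 q (by simpa using hq)]
          show t * r * strd rd q = t * (r * strd rd q)
          ring

lemma dig_length (rd : List ℕ) : ∀ i, (dig rd i).length = rd.length := by
  induction rd with
  | nil => intro i; rfl
  | cons r rd ih =>
    intro i
    show (dig rd (i / r)).length + 1 = rd.length + 1
    rw [ih]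

/-! ### multisets -/

/-- the knots as reals -/
noncomputable def kR (D : ℕ) (ks : List ℕ) : List ℝ := ks.map fun x : ℕ => (x : ℝ) / (D : ℝ)

/-- the fixed part -/
noncomputable def fxM (D : ℕ) (fx : List (ℕ × ℕ)) : Multiset ℝ :=
  mk (fx.map fun u => u.2) (fx.map fun u => (u.1 : ℝ) / (D : ℝ))

lemma mk_dec (D : ℕ) (ks : List ℕ) : ∀ (ns : List ℕ) (q : ℕ), ks.length = ns.length →
    1 ≤ ns.getD q 0 →
    mk ns (kR D ks) = ((ks.getD q 0 : ℕ) : ℝ) / (D : ℝ) ::ₘ mk (dec1 ns q) (kR D ks) := by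
  induction ks with
  | nil =>
    intro ns q h1 h2
    have : ns = [] := List.length_eq_zero_iff.mp (by simpa using h1.symm)
    subst this
    simp at h2
  | cons x ks ih =>
    intro ns q h1 h2
    cases ns with
    | nil => simp at h1
    | cons n ns =>
      cases q with
      | zero =>
        have h3 : 1 ≤ n := by simpa using h2
        obtain ⟨n', rfl⟩ := Nat.exists_eq_add_of_le' h3
        show mk ((n' + 1) :: ns) ((x : ℝ) / D :: kR D ks) = (x : ℝ) / D ::ₘ mk ((n' + 1 - 1) :: ns) ((x : ℝ) / D :: kR D ks)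
        rw [Nat.add_sub_cancel, Ent.mk_cons, Ent.mk_cons, Multiset.replicate_succ, Multiset.cons_add]
      | succ q =>
        have h3 : 1 ≤ ns.getD q 0 := by simpa using h2
        show mk (n :: ns) ((x : ℝ) / D :: kR D ks) = _ ::ₘ mk (n :: dec1 ns q) ((x : ℝ) / D :: kR D ks)
        rw [Ent.mk_cons, Ent.mk_cons, ih ns q (by simpa using h1) h3, List.getD_cons_succ,
          Multiset.add_cons]

lemma mk_zeros (D : ℕ) (rd : List ℕ) : ∀ ks : List ℕ, mk (rd.map fun _ => 0) (kR D ks) = 0 := by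
  induction rd with
  | nil => intro ks; exact Ent.mk_nil _
  | cons r rd ih =>
    intro ks
    cases ks with
    | nil => rfl
    | cons x ks =>
      show mk (0 :: rd.map fun _ => 0) ((x : ℝ) / D :: kR D ks) = 0
      rw [Ent.mk_cons, ih, Multiset.replicate_zero, add_zero]

lemma mk_pur (D : ℕ) (rd : List ℕ) : ∀ (ks : List ℕ) (q m : ℕ), ks.length = rd.length →
    q < rd.length → mk (pur rd q m) (kR D ks) = Multiset.replicate m (((ks.getD q 0 : ℕ) : ℝ) / (D : ℝ)) := by
  induction rd with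
  | nil => intro ks q m _ h; simp at h
  | cons r rd ih =>
    intro ks q m h1 h2
    cases ks with
    | nil => simp at h1
    | cons x ks =>
      cases q with
      | zero =>
        show mk (m :: rd.map fun _ => 0) ((x : ℝ) / D :: kR D ks) = _
        rw [Ent.mk_cons, mk_zeros, add_zero]
        rfl
      | succ q =>
        show mk (0 :: pur rd q m) ((x : ℝ) / D :: kR D ks) = _
        rw [Ent.mk_cons, ih ks q m (by simpa using h1) (by simpa using h2), Multiset.replicate_zero,
          zero_add, List.getD_cons_succ]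

/-- sum of the knots at least `x` -/
def sumGe (x : ℕ) : List ℕ → List ℕ → ℕ
  | y :: ks, n :: ns => (if x ≤ y then n * y else 0) + sumGe x ks ns
  | _, _ => 0

lemma sge_eq (x : ℕ) (ks : List ℕ) : ∀ (ns : List ℕ) (f : ℕ), sge x ks ns f = f + sumGe x ks ns := by
  induction ks with
  | nil => intro ns f; rfl
  | cons y ks ih =>
    intro ns f
    cases ns with
    | nil => rfl
    | cons n ns =>
      have e : sge x (y :: ks) (n :: ns) f = cond (Nat.ble x y)
        (frc (Nat.add f (Nat.mul n y)) fun f' => sge x ks ns f') (sge x ks ns f) := rfl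
      rw [e, frc_eq, ih, ih]
      show cond (Nat.ble x y) (f + n * y + sumGe x ks ns) (f + sumGe x ks ns)
        = f + ((if x ≤ y then n * y else 0) + sumGe x ks ns)
      by_cases h : x ≤ y
      · rw [Nat.ble_eq_true_of_le h, if_pos h]
        show f + n * y + sumGe x ks ns = _
        ring
      · have h' : Nat.ble x y = false := by
          rw [Bool.eq_false_iff]
          intro hc
          exact h (Nat.le_of_ble_eq_true hc)
        rw [h', if_neg h]
        show f + sumGe x ks ns = _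
        ring

lemma sumGe_dec (ks : List ℕ) (x : ℕ) : ∀ (ns : List ℕ) (q : ℕ), ks.length = ns.length →
    1 ≤ ns.getD q 0 → x = ks.getD q 0 → sumGe x ks ns = sumGe x ks (dec1 ns q) + x := by
  induction ks with
  | nil =>
    intro ns q h1 h2
    have : ns = [] := List.length_eq_zero_iff.mp (by simpa using h1.symm)
    subst this
    simp at h2
  | cons y ks ih =>
    intro ns q h1 h2 h3
    cases ns with
    | nil => simp at h1
    | cons n ns =>
      cases q with
      | zero =>
        have h4 : 1 ≤ n := by simpa using h2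
        have h5 : x = y := by simpa using h3
        obtain ⟨n', rfl⟩ := Nat.exists_eq_add_of_le' h4
        subst h5
        show (if x ≤ x then (n' + 1) * x else 0) + sumGe x ks ns
          = (if x ≤ x then (n' + 1 - 1) * x else 0) + sumGe x ks ns + x
        rw [if_pos le_rfl, if_pos le_rfl, Nat.add_sub_cancel]
        ring
      | succ q =>
        have h4 := ih ns q (by simpa using h1) (by simpa using h2) (by simpa using h3)
        show (if x ≤ y then n * y else 0) + sumGe x ks ns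
          = (if x ≤ y then n * y else 0) + sumGe x ks (dec1 ns q) + x
        rw [h4]
        ring

lemma filter_sum_mk (D : ℕ) (hD : 0 < D) (x : ℕ) (ks : List ℕ) : ∀ ns : List ℕ,
    ((mk ns (kR D ks)).filter fun z => (x : ℝ) / D ≤ z).sum = (sumGe x ks ns : ℝ) / D := by
  have hD' : (0 : ℝ) < D := by exact_mod_cast hD
  induction ks with
  | nil =>
    intro ns
    have e : mk ns (kR D []) = 0 := by cases ns <;> rfl
    rw [e]
    have e2 : sumGe x [] ns = 0 := by cases ns <;> rfl
    rw [e2]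
    simp
  | cons y ks ih =>
    intro ns
    cases ns with
    | nil =>
      rw [Ent.mk_nil]
      simp [sumGe]
    | cons n ns =>
      show ((mk (n :: ns) ((y : ℝ) / D :: kR D ks)).filter fun z => (x : ℝ) / D ≤ z).sum = _
      rw [Ent.mk_cons, Multiset.filter_add, Multiset.sum_add, ih]
      by_cases h : x ≤ y
      · have h' : ∀ z ∈ Multiset.replicate n ((y : ℝ) / D), (x : ℝ) / D ≤ z := by
          intro z hz
          rw [Multiset.eq_of_mem_replicate hz]
          exact div_le_div_of_nonneg_right (by exact_mod_cast h) hD'.le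
        rw [Multiset.filter_eq_self.mpr h', Multiset.sum_replicate, nsmul_eq_mul]
        simp only [sumGe, if_pos h]
        push_cast
        ring
      · have h' : ∀ z ∈ Multiset.replicate n ((y : ℝ) / D), ¬ (x : ℝ) / D ≤ z := by
          intro z hz hc
          rw [Multiset.eq_of_mem_replicate hz, div_le_div_iff_of_pos_right hD'] at hc
          exact h (by exact_mod_cast hc)
        rw [Multiset.filter_eq_nil.mpr h']
        simp only [sumGe, if_neg h]
        simp

lemma filter_sum_fx (D : ℕ) (hD : 0 < D) (x : ℕ) (fx : List (ℕ × ℕ)) :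
    ((fxM D fx).filter fun z => (x : ℝ) / D ≤ z).sum = (sumF x fx : ℝ) / D := by
  have hD' : (0 : ℝ) < D := by exact_mod_cast hD
  induction fx with
  | nil =>
    have e : fxM D [] = 0 := rfl
    rw [e]
    simp [sumF]
  | cons u fx ih =>
    obtain ⟨p, m⟩ := u
    have e : fxM D ((p, m) :: fx) = Multiset.replicate m ((p : ℝ) / D) + fxM D fx := rfl
    rw [e, Multiset.filter_add, Multiset.sum_add, ih]
    by_cases h : x ≤ p
    · have h' : ∀ z ∈ Multiset.replicate m ((p : ℝ) / D), (x : ℝ) / D ≤ z := by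
        intro z hz
        rw [Multiset.eq_of_mem_replicate hz]
        exact div_le_div_of_nonneg_right (by exact_mod_cast h) hD'.le
      rw [Multiset.filter_eq_self.mpr h', Multiset.sum_replicate, nsmul_eq_mul]
      simp only [sumF, if_pos h]
      push_cast
      ring
    · have h' : ∀ z ∈ Multiset.replicate m ((p : ℝ) / D), ¬ (x : ℝ) / D ≤ z := by
        intro z hz hc
        rw [Multiset.eq_of_mem_replicate hz, div_le_div_iff_of_pos_right hD'] at hc
        exact h (by exact_mod_cast hc)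
      rw [Multiset.filter_eq_nil.mpr h']
      simp only [sumF, if_neg h]
      simp

lemma sum_mk (D : ℕ) (ks : List ℕ) : ∀ ns : List ℕ, (mk ns (kR D ks)).sum = (sumGe 0 ks ns : ℝ) / D := by
  induction ks with
  | nil =>
    intro ns
    have e : mk ns (kR D []) = 0 := by cases ns <;> rfl
    have e2 : sumGe 0 [] ns = 0 := by cases ns <;> rfl
    rw [e, e2]
    simp
  | cons y ks ih =>
    intro ns
    cases ns with
    | nil =>
      rw [Ent.mk_nil]
      simp [sumGe]
    | cons n ns =>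
      show (mk (n :: ns) ((y : ℝ) / D :: kR D ks)).sum = _
      rw [Ent.mk_cons, Multiset.sum_add, ih, Multiset.sum_replicate, nsmul_eq_mul]
      simp only [sumGe, if_pos (Nat.zero_le y)]
      push_cast
      ring

lemma mem_mk (D : ℕ) (ks : List ℕ) : ∀ (ns : List ℕ) (z : ℝ), z ∈ mk ns (kR D ks) →
    ∃ x ∈ ks, z = (x : ℝ) / D := by
  intro ns z hz
  have h := mk_mem (kR D ks) ns z hz
  unfold kR at h
  rw [List.mem_map] at h
  obtain ⟨y, hy, hyz⟩ := h
  exact ⟨y, hy, hyz.symm⟩

lemma leK_sound (D : ℕ) (hD : 0 < D) (K : ℕ) (ks : List ℕ) : ∀ ns : List ℕ, leK K ks ns = true →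
    ∀ z ∈ mk ns (kR D ks), z ≤ (K : ℝ) / D := by
  have hD' : (0 : ℝ) < D := by exact_mod_cast hD
  induction ks with
  | nil =>
    intro ns _ z hz
    have e : mk ns (kR D []) = 0 := by cases ns <;> rfl
    rw [e] at hz
    exact absurd hz (Multiset.notMem_zero z)
  | cons y ks ih =>
    intro ns h z hz
    cases ns with
    | nil =>
      rw [Ent.mk_nil] at hz
      exact absurd hz (Multiset.notMem_zero z)
    | cons n ns =>
      have e : leK K (y :: ks) (n :: ns) = cond (Nat.beq n 0) (leK K ks ns)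
        (cond (Nat.ble y K) (leK K ks ns) false) := rfl
      rw [e] at h
      change z ∈ mk (n :: ns) ((y : ℝ) / D :: kR D ks) at hz
      rw [Ent.mk_cons] at hz
      cases hb : Nat.beq n 0 with
      | true =>
        rw [hb, cond_true] at h
        have h0 := Nat.eq_of_beq_eq_true hb
        rw [h0, Multiset.replicate_zero, zero_add] at hz
        exact ih ns h z hz
      | false =>
        rw [hb, cond_false] at h
        obtain ⟨h1, h2⟩ := cond_eq_true h
        rcases Multiset.mem_add.mp hz with hz | hz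
        · rw [Multiset.eq_of_mem_replicate hz]
          exact div_le_div_of_nonneg_right (by exact_mod_cast Nat.le_of_ble_eq_true h1) hD'.le
        · exact ih ns h2 z hz

/-! ### the rule `FM_log` -/

theorem FM_log' (s : Multiset ℝ) (h1 : 1 ∈ s) (hs : ∀ z ∈ s, 0 ≤ z ∧ z ≤ 1) (x : ℝ) (hx0 : 0 ≤ x)
    (hx1 : x ≤ 1) (S : ℝ) (hS : 1 ≤ S) (hle : S ≤ (s.filter fun z => x ≤ z).sum) :
    FM (x ::ₘ s) ≤ FM s + (Real.log (x + S) - Real.log S) := by
  have h := FM_log (s.filter fun z => x ≤ z) (s.filter fun z => ¬ x ≤ z)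
    (Multiset.mem_filter.mpr ⟨h1, hx1⟩) (fun z hz => (hs z (Multiset.mem_of_mem_filter hz)).2)
    (fun z hz => hs z (Multiset.mem_of_mem_filter hz)) x hx0 (fun z hz => (Multiset.mem_filter.mp hz).2)
  rw [Multiset.filter_add_not] at h
  refine h.trans (add_le_add le_rfl ?_)
  set S' := (s.filter fun z => x ≤ z).sum with hS'
  have hS0 : 0 < S := by linarith
  have hS'0 : 0 < S' := by linarith
  rw [← Real.log_div (by positivity) hS0.ne', ← Real.log_div (by positivity) hS'0.ne']
  refine Real.log_le_log (by positivity) ?_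
  rw [div_le_div_iff₀ hS'0 hS0]
  nlinarith

lemma log_atanh (z : ℝ) (hz0 : 0 ≤ z) (hz1 : z < 1) :
    Real.log (1 + z) - Real.log (1 - z) ≤ 2 * z + 2 * z ^ 3 / (3 * (1 - z ^ 2)) := by
  have h1 := Real.hasSum_log_sub_log_of_abs_lt_one (show |z| < 1 by rw [abs_of_nonneg hz0]; exact hz1)
  have hz2 : z ^ 2 < 1 := by nlinarith
  have h2 : HasSum (fun k : ℕ => 2 / 3 * z ^ 3 * (z ^ 2) ^ k) (2 / 3 * z ^ 3 * (1 - z ^ 2)⁻¹) :=
    (hasSum_geometric_of_lt_one (sq_nonneg z) hz2).mul_left _
  have h3 : HasSum (fun k : ℕ => 2 * (1 / (2 * ((k + 1 : ℕ) : ℝ) + 1)) * z ^ (2 * (k + 1) + 1))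
      (Real.log (1 + z) - Real.log (1 - z) - 2 * (1 / (2 * ((0 : ℕ) : ℝ) + 1)) * z ^ (2 * 0 + 1)) := by
    have := (hasSum_nat_add_iff' 1).mpr h1
    simpa using this
  have h4 := hasSum_le (fun k => ?_) h3 h2
  · have e1 : 2 * (1 / (2 * ((0 : ℕ) : ℝ) + 1)) * z ^ (2 * 0 + 1) = 2 * z := by
      simp
    rw [e1] at h4
    have e2 : 2 / 3 * z ^ 3 * (1 - z ^ 2)⁻¹ = 2 * z ^ 3 / (3 * (1 - z ^ 2)) := by
      have : 1 - z ^ 2 ≠ 0 := by linarith
      field_simp
    linarith
  · show 2 * (1 / (2 * ((k + 1 : ℕ) : ℝ) + 1)) * z ^ (2 * (k + 1) + 1) ≤ 2 / 3 * z ^ 3 * (z ^ 2) ^ k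
    have e3 : z ^ (2 * (k + 1) + 1) = z ^ 3 * (z ^ 2) ^ k := by
      rw [← pow_mul, ← pow_add]
      congr 1
      ring
    rw [e3, ← mul_assoc]
    refine mul_le_mul_of_nonneg_right (mul_le_mul_of_nonneg_right ?_ (by positivity)) (by positivity)
    have hk : (0 : ℝ) ≤ (k : ℝ) := Nat.cast_nonneg k
    push_cast
    have : 1 / (2 * ((k : ℝ) + 1) + 1) ≤ 1 / 3 := one_div_le_one_div_of_le (by norm_num) (by linarith)
    linarith

lemma inc2_sound (x S D : ℕ) (hD : 0 < D) (hS : 0 < S) :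
    Real.log ((x : ℝ) / D + (S : ℝ) / D) - Real.log ((S : ℝ) / D) ≤ (inc2 x S : ℝ) / 10 ^ 7 := by
  have hD' : (0 : ℝ) < D := by exact_mod_cast hD
  have hS' : (0 : ℝ) < S := by exact_mod_cast hS
  have hx' : (0 : ℝ) ≤ x := Nat.cast_nonneg x
  set z : ℝ := (x : ℝ) / (2 * S + x) with hz
  have hden : (0 : ℝ) < 2 * S + x := by linarith
  have hz0 : 0 ≤ z := div_nonneg hx' hden.le
  have hz1 : z < 1 := by rw [hz, div_lt_one hden]; linarith
  have h1 := log_atanh z hz0 hz1
  have e1 : 1 + z = 2 * (S + x) / (2 * S + x) := by rw [hz]; field_simp; ring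
  have e2 : 1 - z = 2 * S / (2 * S + x) := by rw [hz]; field_simp; ring
  have e3 : Real.log ((x : ℝ) / D + (S : ℝ) / D) - Real.log ((S : ℝ) / D)
      = Real.log (1 + z) - Real.log (1 - z) := by
    rw [← Real.log_div (by positivity) (by positivity), ← Real.log_div (by positivity) (by linarith)]
    congr 1
    rw [e1, e2]
    field_simp
    ring
  rw [e3]
  refine h1.trans ?_
  have e4 : 2 * z + 2 * z ^ 3 / (3 * (1 - z ^ 2)) = ((20000000 * x * (12 * (S * (S + x)) + x * x) : ℕ) : ℝ)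
      / ((12 * (S + S + x) * (S * (S + x)) : ℕ) : ℝ) / 10 ^ 7 := by
    have e5 : 1 - z ^ 2 = 4 * S * (S + x) / (2 * S + x) ^ 2 := by
      have : 1 - z ^ 2 = (1 - z) * (1 + z) := by ring
      rw [this, e1, e2]
      field_simp
      ring
    rw [e5, hz]
    push_cast
    field_simp
    ring
  rw [e4]
  refine div_le_div_of_nonneg_right ?_ (by positivity)
  have h6 : inc2 x S = 20000000 * x * (12 * (S * (S + x)) + x * x) / (12 * (S + S + x) * (S * (S + x))) + 1 := rfl
  have h7 : 0 < 12 * (S + S + x) * (S * (S + x)) := by positivity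
  rw [h6]
  generalize 20000000 * x * (12 * (S * (S + x)) + x * x) = a
  generalize 12 * (S + S + x) * (S * (S + x)) = c at h7 ⊢
  have h8 : a ≤ (a / c + 1) * c := by
    rw [Nat.mul_comm]
    exact (Nat.lt_mul_div_succ a h7).le
  have h9 : (a : ℝ) ≤ ((a / c + 1 : ℕ) : ℝ) * (c : ℝ) := by exact_mod_cast h8
  rw [div_le_iff₀ (by exact_mod_cast h7)]
  exact h9

/-! ### soundness -/

/-- every digit is a bound -/
def Inv (D : ℕ) (fx : List (ℕ × ℕ)) (ks rd : List ℕ) (T : ℕ) : Prop :=
  ∀ j, j < rd.prod → FM (fxM D fx + mk (dig rd j) (kR D ks)) ≤ (dq T j : ℝ) / 10 ^ 7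

/-- the facts about the parameters -/
structure Prm (D : ℕ) (fx : List (ℕ × ℕ)) (v : List (ℕ × ℕ)) (pre ks rd st sf i1 : List ℕ) : Prop where
  hD : 0 < D
  hv : v = (fx.map fun u => (u.1, D)) ++ (ks.map fun x => (x, D))
  hpre : pre = fx.map fun u => u.2
  one : (1 : ℝ) ∈ fxM D fx
  fx01 : ∀ z ∈ fxM D fx, 0 ≤ z ∧ z ≤ 1
  ks01 : ∀ x ∈ ks, 1 ≤ x ∧ x ≤ D
  rd1 : ∀ r ∈ rd, 1 ≤ r
  hst : ∀ q, q < rd.length → st.getD q 0 = strd rd q
  hlen : ks.length = rd.length
  hsf : sf = ks.map fun x => sumF x fx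
  sum1 : ∀ x ∈ ks, D ≤ sumF x fx
  hi1 : ∀ q, q < ks.length → 1 ≤ i1.getD q 0 → ∀ s : Multiset ℝ, (∀ z ∈ s, 0 ≤ z ∧ z ≤ 1) →
    FM (((ks.getD q 0 : ℕ) : ℝ) / (D : ℝ) ::ₘ (fxM D fx + s)) ≤ FM (fxM D fx + s)
      + ((i1.getD q 0 : ℕ) : ℝ) / 10 ^ 7

lemma mk_append (A : List ℕ) : ∀ (a : List ℝ) (B : List ℕ) (b : List ℝ), A.length = a.length →
    mk (A ++ B) (a ++ b) = mk A a + mk B b := by
  induction A with
  | nil =>
    intro a B b h
    have : a = [] := List.length_eq_zero_iff.mp (by simpa using h.symm)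
    subst this
    simp [Ent.mk_nil]
  | cons n A ih =>
    intro a B b h
    cases a with
    | nil => simp at h
    | cons x a =>
      show mk (n :: (A ++ B)) (x :: (a ++ b)) = mk (n :: A) (x :: a) + mk B b
      rw [Ent.mk_cons, Ent.mk_cons, ih a B b (by simpa using h), add_assoc]

section Sound

variable {D : ℕ} {fx : List (ℕ × ℕ)} {v : List (ℕ × ℕ)} {pre ks rd st sf i1 : List ℕ}
  (hP : Prm D fx v pre ks rd st sf i1)

include hP

lemma mk01 (ns : List ℕ) : ∀ z ∈ mk ns (kR D ks), 0 ≤ z ∧ z ≤ 1 := by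
  intro z hz
  have hD' : (0 : ℝ) < D := by exact_mod_cast hP.hD
  obtain ⟨x, hx, rfl⟩ := mem_mk D ks ns z hz
  obtain ⟨_, h2⟩ := hP.ks01 x hx
  refine ⟨by positivity, ?_⟩
  rw [div_le_one hD']
  exact_mod_cast h2

lemma all01 (ns : List ℕ) : ∀ z ∈ fxM D fx + mk ns (kR D ks), 0 ≤ z ∧ z ≤ 1 := by
  intro z hz
  rcases Multiset.mem_add.mp hz with hz | hz
  · exact hP.fx01 z hz
  · exact mk01 hP ns z hz

omit hP in
lemma Inv_up (T i d : ℕ) (hT : Inv D fx ks rd T) (hd : d ≤ 1152921504606846976)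
    (h : FM (fxM D fx + mk (dig rd i) (kR D ks)) ≤ (d : ℝ) / 10 ^ 7) :
    Inv D fx ks rd (up T i d) := by
  have hd' : d < 2 ^ 64 := by
    have : (1152921504606846976 : ℕ) < 2 ^ 64 := by norm_num
    omega
  intro j hj
  by_cases hji : j = i
  · subst hji
    rw [up_same T j d hd']
    exact h
  · rw [up_other T i d j hd' hji]
    exact hT j hj

lemma setd_sound (T i B : ℕ) (k : ℕ → ℕ → Bool) (d : ℕ) (hT : Inv D fx ks rd T)
    (h : FM (fxM D fx + mk (dig rd i) (kR D ks)) ≤ (d : ℝ) / 10 ^ 7) (hk : setd T i B k d = true) :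
    ∃ T' B', Inv D fx ks rd T' ∧ k T' B' = true := by
  unfold setd at hk
  obtain ⟨h1, h2⟩ := cond_eq_true hk
  rw [frc_eq] at h2
  exact ⟨_, _, Inv_up T i d hT (Nat.le_of_ble_eq_true h1) h, h2⟩

omit hP in
lemma upr_sound (r : ℕ) : ∀ (N : ℕ) (k : List ℕ → ℕ → Bool), upr r N k = true →
    ∃ l N', k l N' = true := by
  induction r with
  | zero => intro N k h; exact ⟨[], N, h⟩
  | succ r ih =>
    intro N k h
    have e : upr (r + 1) N k = frc (Nat.land N (nat_lit 4294967295)) fun x =>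
      frc (Nat.shiftRight N (nat_lit 32)) fun N' => upr r N' fun l N'' => k (x :: l) N'' := rfl
    rw [e, frc_eq, frc_eq] at h
    obtain ⟨l, N', hl⟩ := ih _ _ h
    exact ⟨_, _, hl⟩

/-- the exact row -/
lemma rule_row (ns X : List ℕ) (V : ℕ) (h : rowOK v (app pre ns) X V = true) :
    FM (fxM D fx + mk ns (kR D ks)) ≤ (V : ℝ) / 10 ^ 7 := by
  have h1 := row_sound _ _ _ _ h
  rw [app_eq, hP.hpre, hP.hv, List.map_append, List.map_map, List.map_map,
    mk_append _ _ _ _ (by simp)] at h1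
  exact h1

/-- rule `FM_two` -/
lemma rule_two (T i q : ℕ) (hT : Inv D fx ks rd T) (hi : i < rd.prod)
    (hn : 1 ≤ (dig rd i).getD q 0) (ha : 1 ≤ i1.getD q 0) :
    FM (fxM D fx + mk (dig rd i) (kR D ks)) ≤ ((dq T (i - st.getD q 0) + i1.getD q 0 : ℕ) : ℝ) / 10 ^ 7 := by
  have hq : q < rd.length := by
    by_contra hc
    have := List.getD_eq_default (dig rd i) 0 (by rw [dig_length]; omega : (dig rd i).length ≤ q)
    omega
  obtain ⟨h1, h2⟩ := dig_dec rd q i hP.rd1 hn
  have h3 := hT (i - strd rd q) (by omega)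
  rw [h2] at h3
  rw [mk_dec D ks (dig rd i) q (by rw [dig_length]; exact hP.hlen) hn, Multiset.add_cons, hP.hst q hq]
  have h4 := hP.hi1 q (by rw [hP.hlen]; exact hq) ha _ (mk01 hP (dec1 (dig rd i) q))
  refine h4.trans ?_
  push_cast
  rw [add_div]
  linarith

/-- rule `FM_log` -/
lemma rule_log (T i q : ℕ) (hT : Inv D fx ks rd T) (hi : i < rd.prod)
    (hn : 1 ≤ (dig rd i).getD q 0) :
    FM (fxM D fx + mk (dig rd i) (kR D ks)) ≤ ((dq T (i - st.getD q 0)
      + inc2 (ks.getD q 0) (sge (ks.getD q 0) ks (dig rd i) (sf.getD q 0) - ks.getD q 0) : ℕ) : ℝ) / 10 ^ 7 := by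
  have hq : q < rd.length := by
    by_contra hc
    have := List.getD_eq_default (dig rd i) 0 (by rw [dig_length]; omega : (dig rd i).length ≤ q)
    omega
  have hqk : q < ks.length := by rw [hP.hlen]; exact hq
  have hlen : ks.length = (dig rd i).length := by rw [dig_length]; exact hP.hlen
  have hD' : (0 : ℝ) < D := by exact_mod_cast hP.hD
  obtain ⟨h1, h2⟩ := dig_dec rd q i hP.rd1 hn
  have h3 := hT (i - strd rd q) (by omega)
  rw [h2] at h3
  set x := ks.getD q 0 with hx
  have hxm : x ∈ ks := by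
    rw [hx, List.getD_eq_getElem _ _ hqk]
    exact List.getElem_mem _
  obtain ⟨hx1, hxD⟩ := hP.ks01 x hxm
  have hsfq : sf.getD q 0 = sumF x fx := by
    rw [hP.hsf, List.getD_eq_getElem _ _ (by simpa using hqk), List.getElem_map, hx,
      List.getD_eq_getElem _ _ hqk]
  have hS : sge x ks (dig rd i) (sf.getD q 0) - x = sumF x fx + sumGe x ks (dec1 (dig rd i) q) := by
    rw [sge_eq, hsfq, sumGe_dec ks x (dig rd i) q hlen hn hx]
    omega
  rw [hS, mk_dec D ks (dig rd i) q hlen hn, Multiset.add_cons, hP.hst q hq, ← hx]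
  have hSD := hP.sum1 x hxm
  have hS0 : 0 < sumF x fx + sumGe x ks (dec1 (dig rd i) q) := by
    have := hP.hD
    omega
  have h4 := FM_log' (fxM D fx + mk (dec1 (dig rd i) q) (kR D ks)) (Multiset.mem_add.mpr (Or.inl hP.one))
    (all01 hP _) ((x : ℝ) / D) (by positivity) (by rw [div_le_one hD']; exact_mod_cast hxD)
    (((sumF x fx + sumGe x ks (dec1 (dig rd i) q) : ℕ) : ℝ) / D) (by
      rw [one_le_div hD']
      have : D ≤ sumF x fx + sumGe x ks (dec1 (dig rd i) q) := by omega
      exact_mod_cast this) (by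
      rw [Multiset.filter_add, Multiset.sum_add, filter_sum_fx D hP.hD, filter_sum_mk D hP.hD]
      push_cast
      rw [add_div])
  have h5 := inc2_sound x (sumF x fx + sumGe x ks (dec1 (dig rd i) q)) D hP.hD hS0
  rw [Nat.cast_add (dq T (i - strd rd q)), add_div]
  linarith

/-- rule `FM_chord` -/
lemma rule_chord (T i q : ℕ) (hT : Inv D fx ks rd T) (hK : 1 ≤ ks.getD q 0)
    (hle : leK (ks.getD q 0) ks (dig rd i) = true)
    (hr : sge 0 ks (dig rd i) 0 / ks.getD q 0 + 2 ≤ rd.getD q 0) :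
    FM (fxM D fx + mk (dig rd i) (kR D ks)) ≤
      ((dq T (sge 0 ks (dig rd i) 0 / ks.getD q 0 * st.getD q 0)
        + ((sge 0 ks (dig rd i) 0 - sge 0 ks (dig rd i) 0 / ks.getD q 0 * ks.getD q 0)
          * (dq T ((sge 0 ks (dig rd i) 0 / ks.getD q 0 + 1) * st.getD q 0)
            - dq T (sge 0 ks (dig rd i) 0 / ks.getD q 0 * st.getD q 0)) / ks.getD q 0 + 1) : ℕ) : ℝ) / 10 ^ 7 := by
  have hD' : (0 : ℝ) < D := by exact_mod_cast hP.hD
  have hq : q < rd.length := by
    by_contra hc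
    have h0 := List.getD_eq_default rd 0 (by omega : rd.length ≤ q)
    rw [h0] at hr
    exact absurd (le_trans (Nat.le_add_left 2 _) hr) (by norm_num)
  have hqk : q < ks.length := by rw [hP.hlen]; exact hq
  rw [sge_eq, Nat.zero_add] at hr ⊢
  rw [hP.hst q hq]
  set K := ks.getD q 0 with hKdef
  set M := sumGe 0 ks (dig rd i) with hM
  set m := M / K with hm
  have hKm : K ∈ ks := by
    rw [hKdef, List.getD_eq_getElem _ _ hqk]
    exact List.getElem_mem _
  obtain ⟨_, hKD⟩ := hP.ks01 K hKm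
  have hK' : (0 : ℝ) < K := by exact_mod_cast hK
  obtain ⟨a1, a2⟩ := dig_pur rd q m hP.rd1 (by omega)
  obtain ⟨b1, b2⟩ := dig_pur rd q (m + 1) hP.rd1 (by omega)
  have c1 := hT _ a2
  have c2 := hT _ b2
  rw [a1, mk_pur D rd ks q m hP.hlen hq] at c1
  rw [b1, mk_pur D rd ks q (m + 1) hP.hlen hq] at c2
  set u := dq T (m * strd rd q) with hu
  set w := dq T ((m + 1) * strd rd q) with hw
  have e1 : (mk (dig rd i) (kR D ks)).sum = (M : ℝ) / D := sum_mk D ks (dig rd i)
  have d1 : m * K ≤ M := Nat.div_mul_le_self M K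
  have d2 : M ≤ (m + 1) * K := by
    rw [Nat.mul_comm]
    exact (Nat.lt_mul_div_succ M (by omega)).le
  have d1' : (m : ℝ) * K ≤ M := by exact_mod_cast d1
  have d2' : (M : ℝ) ≤ ((m : ℝ) + 1) * K := by exact_mod_cast d2
  have h := FM_chord (fxM D fx) (mk (dig rd i) (kR D ks)) hP.one hP.fx01 ((K : ℝ) / D) (by positivity)
    (by rw [div_le_one hD']; exact_mod_cast hKD)
    (fun z hz => ⟨(mk01 hP _ z hz).1, leK_sound D hP.hD K ks _ hle z hz⟩) m _ _ (by
      rw [e1, mul_div_assoc']
      exact div_le_div_of_nonneg_right d1' hD'.le) (by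
      rw [e1, mul_div_assoc']
      exact div_le_div_of_nonneg_right d2' hD'.le) c1 c2
  refine h.trans ?_
  have e2 : (mk (dig rd i) (kR D ks)).sum / ((K : ℝ) / D) - m = ((M - m * K : ℕ) : ℝ) / K := by
    rw [e1, Nat.cast_sub d1]
    push_cast
    field_simp
  rw [e2]
  have f0 : (0 : ℝ) ≤ ((M - m * K : ℕ) : ℝ) / K := by positivity
  have f1 : (w : ℝ) - u ≤ ((w - u : ℕ) : ℝ) := by
    have : w ≤ (w - u) + u := by omega
    have : (w : ℝ) ≤ ((w - u : ℕ) : ℝ) + u := by exact_mod_cast this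
    linarith
  have f2 : ((M - m * K : ℕ) : ℝ) / K * ((w : ℝ) / 10 ^ 7 - (u : ℝ) / 10 ^ 7)
      ≤ ((M - m * K : ℕ) : ℝ) / K * ((w - u : ℕ) : ℝ) / 10 ^ 7 := by
    rw [← sub_div, ← mul_div_assoc]
    exact div_le_div_of_nonneg_right (mul_le_mul_of_nonneg_left f1 f0) (by positivity)
  have f3 : ((M - m * K : ℕ) : ℝ) / K * ((w - u : ℕ) : ℝ) ≤ (((M - m * K) * (w - u) / K + 1 : ℕ) : ℝ) := by
    have g1 : (M - m * K) * (w - u) ≤ ((M - m * K) * (w - u) / K + 1) * K := by
      rw [Nat.mul_comm ((M - m * K) * (w - u) / K + 1)]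
      exact (Nat.lt_mul_div_succ _ (by omega)).le
    have g2 : (((M - m * K) * (w - u) : ℕ) : ℝ) ≤ (((M - m * K) * (w - u) / K + 1 : ℕ) : ℝ) * K := by
      exact_mod_cast g1
    rw [div_mul_eq_mul_div, div_le_iff₀ hK', ← Nat.cast_mul]
    exact g2
  have f4 := div_le_div_of_nonneg_right f3 (show (0 : ℝ) ≤ 10 ^ 7 by positivity)
  rw [Nat.cast_add, add_div]
  linarith

lemma step_sound (R i C T B : ℕ) (k : ℕ → ℕ → Bool) (hT : Inv D fx ks rd T) (hi : i < rd.prod)
    (h : step v pre R ks rd st sf i1 i C T B k = true) :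
    ∃ T' B', Inv D fx ks rd T' ∧ k T' B' = true := by
  unfold step at h
  simp only [frc_eq, digC_eq, pick_eq] at h
  set c := Nat.land C 15 with hc
  cases hb : Nat.beq c 0 with
  | true =>
    rw [hb, cond_true] at h
    exact ⟨T, B, hT, h⟩
  | false =>
    rw [hb, cond_false] at h
    cases hb1 : Nat.beq c 1 with
    | true =>
      rw [hb1, cond_true] at h
      obtain ⟨X, B2, h1⟩ := upr_sound _ _ _ h
      obtain ⟨h2, h3⟩ := cond_eq_true h1
      exact setd_sound hP T i B2 k _ hT (rule_row hP _ X _ h2) h3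
    | false =>
      rw [hb1, cond_false] at h
      cases hb2 : Nat.ble c 5 with
      | true =>
        rw [hb2, cond_true] at h
        obtain ⟨h1, h2⟩ := cond_eq_true h
        obtain ⟨h3, h4⟩ := cond_eq_true h2
        exact setd_sound hP T i B k _ hT (rule_two hP T i _ hT hi (Nat.le_of_ble_eq_true h1)
          (Nat.le_of_ble_eq_true h3)) h4
      | false =>
        rw [hb2, cond_false] at h
        cases hb3 : Nat.ble c 9 with
        | true =>
          rw [hb3, cond_true] at h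
          obtain ⟨h1, h2⟩ := cond_eq_true h
          exact setd_sound hP T i B k _ hT (rule_log hP T i _ hT hi (Nat.le_of_ble_eq_true h1)) h2
        | false =>
          rw [hb3, cond_false] at h
          obtain ⟨h1, h2⟩ := cond_eq_true h
          obtain ⟨h3, h4⟩ := cond_eq_true h2
          obtain ⟨h5, h6⟩ := cond_eq_true h4
          exact setd_sound hP T i B k _ hT (rule_chord hP T i _ hT (Nat.le_of_ble_eq_true h1) h3
            (Nat.le_of_ble_eq_true h5)) h6

lemma loop_sound (R P : ℕ) : ∀ (i C T B : ℕ) (k : ℕ → ℕ → Bool), Inv D fx ks rd T →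
    i + P ≤ rd.prod → loop v pre R ks rd st sf i1 P i C T B k = true →
    ∃ T' B', Inv D fx ks rd T' ∧ k T' B' = true := by
  induction P with
  | zero => intro i C T B k hT _ h; exact ⟨T, B, hT, h⟩
  | succ P ih =>
    intro i C T B k hT hi h
    have e : loop v pre R ks rd st sf i1 (P + 1) i C T B k = cond (Nat.beq C (nat_lit 0)) (k T B)
      (step v pre R ks rd st sf i1 i C T B fun T' B' =>
        frc (Nat.shiftRight C (nat_lit 4)) fun C' => frc (Nat.succ i) fun i' =>
          loop v pre R ks rd st sf i1 P i' C' T' B' k) := rfl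
    rw [e] at h
    cases hb : Nat.beq C (nat_lit 0) with
    | true =>
      rw [hb, cond_true] at h
      exact ⟨T, B, hT, h⟩
    | false =>
      rw [hb, cond_false] at h
      obtain ⟨T', B', h1, h2⟩ := step_sound hP R i C T B _ hT (by omega) h
      rw [frc_eq, frc_eq] at h2
      exact ih (i + 1) _ T' B' k h1 (by omega) h2

lemma passes_sound (R P : ℕ) (hPP : P ≤ rd.prod) (Cs : List ℕ) : ∀ (T B : ℕ) (k : ℕ → Bool),
    Inv D fx ks rd T → passes v pre R ks rd st sf i1 P Cs T B k = true →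
    ∃ T', Inv D fx ks rd T' ∧ k T' = true := by
  induction Cs with
  | nil => intro T B k hT h; exact ⟨T, hT, h⟩
  | cons C Cs ih =>
    intro T B k hT h
    have e : passes v pre R ks rd st sf i1 P (C :: Cs) T B k
      = loop v pre R ks rd st sf i1 P (nat_lit 0) C T B fun T' B' =>
        passes v pre R ks rd st sf i1 P Cs T' B' k := rfl
    rw [e] at h
    obtain ⟨T', B', h1, h2⟩ := loop_sound hP R P 0 C T B _ hT (by omega) h
    exact ih T' B' k h1 h2

omit hP in
lemma FM_card (s : Multiset ℝ) (hs : ∀ z ∈ s, 0 ≤ z ∧ z ≤ 1) : FM (1 ::ₘ s) ≤ (s.card : ℝ) + 1 := by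
  induction s using Multiset.induction_on with
  | empty =>
    have h := row_sound [(1, 1)] [1] [67108863] 10 (by decide +kernel)
    have e : mk [1] ([(1, 1)].map fun u : ℕ × ℕ => (u.1 : ℝ) / (u.2 : ℝ)) = 1 ::ₘ 0 := by
      simp only [List.map_cons, List.map_nil, Ent.mk_cons, Ent.mk_nil, Nat.cast_one, div_one,
        Multiset.replicate_one, add_zero]
      rfl
    rw [e] at h
    refine h.trans ?_
    norm_num
  | cons x s ih =>
    have hx := hs x (Multiset.mem_cons_self x s)
    have hs' : ∀ z ∈ s, 0 ≤ z ∧ z ≤ 1 := fun z hz => hs z (Multiset.mem_cons_of_mem hz)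
    have h1 := FM_log {1} s (Multiset.mem_singleton_self 1)
      (fun z hz => by rw [Multiset.mem_singleton] at hz; exact hz.le) hs' x hx.1
      (fun z hz => by rw [Multiset.mem_singleton] at hz; rw [hz]; exact hx.2)
    rw [Multiset.sum_singleton, Real.log_one, sub_zero, Multiset.singleton_add] at h1
    have h2 : Real.log (x + 1) ≤ x := by
      have := Real.log_le_sub_one_of_pos (show 0 < x + 1 by linarith)
      linarith
    have h3 := ih hs'
    rw [Multiset.cons_swap, Multiset.card_cons]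
    push_cast
    linarith [hx.2]

omit hP in
lemma card_mk (D : ℕ) (rd : List ℕ) : ∀ (ks ns : List ℕ), OkD rd ns →
    (mk ns (kR D ks)).card ≤ rd.sum := by
  induction rd with
  | nil =>
    intro ks ns h
    cases h
    rw [Ent.mk_nil]
    simp
  | cons r rd ih =>
    intro ks ns h
    cases h with
    | cons h1 h2 =>
      rename_i n ns
      cases ks with
      | nil => simp [kR, Ent.mk]
      | cons x ks =>
        show (mk (n :: ns) ((x : ℝ) / D :: kR D ks)).card ≤ _
        rw [Ent.mk_cons, Multiset.card_add, Multiset.card_replicate, List.sum_cons]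
        have := ih ks ns h2
        omega

omit hP in
lemma okD_dig (rd : List ℕ) (hr : ∀ r ∈ rd, 1 ≤ r) : ∀ i, OkD rd (dig rd i) := by
  induction rd with
  | nil => intro i; exact List.Forall₂.nil
  | cons r rd ih =>
    intro i
    exact List.Forall₂.cons (Nat.mod_lt _ (hr r (by simp))) (ih (fun r' hr' => hr r' (by simp [hr'])) _)

omit hP in
lemma card_fx (D : ℕ) (fx : List (ℕ × ℕ)) : (fxM D fx).card = (fx.map fun u => u.2).sum := by
  induction fx with
  | nil => rfl
  | cons u fx ih =>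
    have e : fxM D (u :: fx) = Multiset.replicate u.2 ((u.1 : ℝ) / D) + fxM D fx := rfl
    rw [e, Multiset.card_add, Multiset.card_replicate, ih, List.map_cons, List.sum_cons]

lemma Inv_ini (hc : (fx.map fun u => u.2).sum + rd.sum ≤ 1000000000) : Inv D fx ks rd (ini rd.prod) := by
  intro j hj
  rw [ini_dq rd.prod j hj]
  obtain ⟨s, hs⟩ := Multiset.exists_cons_of_mem (Multiset.mem_add.mpr (Or.inl hP.one) :
    (1 : ℝ) ∈ fxM D fx + mk (dig rd j) (kR D ks))
  have h01 := all01 hP (dig rd j)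
  have hcard : (fxM D fx + mk (dig rd j) (kR D ks)).card ≤ 1000000000 := by
    rw [Multiset.card_add, card_fx]
    have := card_mk D rd ks (dig rd j) (okD_dig rd hP.rd1 j)
    omega
  rw [hs] at h01 hcard ⊢
  have h1 := FM_card s (fun z hz => h01 z (Multiset.mem_cons_of_mem hz))
  rw [Multiset.card_cons] at hcard
  have h2 : ((s.card + 1 : ℕ) : ℝ) ≤ 1000000000 := by exact_mod_cast hcard
  push_cast at h2
  refine h1.trans (h2.trans ?_)
  norm_num

end Sound

/-- a level of the two-entry loss -/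
def Lev (D dA An Bn : ℕ) : Prop := ∃ a : ℝ, 0 < a ∧ a * D ≤ dA ∧ TwoHyp a ((An : ℝ) / 1000) ((Bn : ℝ) / 1000)

lemma twoOK_sound (D dA : ℕ) (hD : 0 < D) (fx : List (ℕ × ℕ)) (h01 : ∀ u ∈ fx, u.1 ≤ D)
    (h : twoOK dA fx = true) : ∃ d : ℝ, d ∈ fxM D fx ∧ (dA : ℝ) / D ≤ d ∧ d ≤ 1 := by
  have hD' : (0 : ℝ) < D := by exact_mod_cast hD
  induction fx with
  | nil => simp [twoOK] at h
  | cons u fx ih =>
    obtain ⟨p, m⟩ := u
    have e : fxM D ((p, m) :: fx) = Multiset.replicate m ((p : ℝ) / D) + fxM D fx := rfl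
    simp only [twoOK, Bool.or_eq_true, Bool.and_eq_true] at h
    rcases h with ⟨h1, h2⟩ | h
    · have h1 := Nat.le_of_ble_eq_true h1
      have h2 := Nat.le_of_ble_eq_true h2
      refine ⟨(p : ℝ) / D, ?_, ?_, ?_⟩
      · rw [e]
        exact Multiset.mem_add.mpr (Or.inl (by rw [Multiset.mem_replicate]; exact ⟨by omega, rfl⟩))
      · exact div_le_div_of_nonneg_right (by exact_mod_cast h1) hD'.le
      · rw [div_le_one hD']
        exact_mod_cast h01 (p, m) (by simp)
    · obtain ⟨d, h1, h2⟩ := ih (fun u hu => h01 u (by simp [hu])) h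
      exact ⟨d, by rw [e]; exact Multiset.mem_add.mpr (Or.inr h1), h2⟩

lemma fxM01 (D : ℕ) (hD : 0 < D) (fx : List (ℕ × ℕ)) (h01 : ∀ u ∈ fx, u.1 ≤ D) :
    ∀ z ∈ fxM D fx, 0 ≤ z ∧ z ≤ 1 := by
  have hD' : (0 : ℝ) < D := by exact_mod_cast hD
  intro z hz
  have h := mk_mem _ _ z hz
  rw [List.mem_map] at h
  obtain ⟨u, hu, rfl⟩ := h
  refine ⟨by positivity, ?_⟩
  rw [div_le_one hD']
  exact_mod_cast h01 u hu

lemma sumF_ge (x : ℕ) (fx : List (ℕ × ℕ)) (p m : ℕ) (hx : x ≤ p) (hm : 1 ≤ m) :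
    p ≤ sumF x ((p, m) :: fx) := by
  show p ≤ (if x ≤ p then m * p else 0) + sumF x fx
  rw [if_pos hx]
  nlinarith

/-- the parameters are correct -/
theorem prm_of {D : ℕ} {fx : List (ℕ × ℕ)} {v : List (ℕ × ℕ)} {pre ks rd st sf i1 : List ℕ}
    {dA An Bn : ℕ} (h : prmOK D fx v pre ks rd st sf i1 dA An Bn = true)
    (hL : (i1.all fun a => Nat.beq a 0) = true ∨ Lev D dA An Bn) :
    Prm D fx v pre ks rd st sf i1 ∧ (fx.map fun u => u.2).sum + rd.sum ≤ 1000000000 := by
  unfold prmOK at h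
  simp only [Bool.and_eq_true] at h
  obtain ⟨⟨⟨⟨⟨⟨⟨⟨⟨h1, h2⟩, h3⟩, h4⟩, h5⟩, h6⟩, h7⟩, h8⟩, h9⟩, h10⟩ := h
  cases fx with
  | nil => simp at h1
  | cons u l =>
    obtain ⟨p, m⟩ := u
    simp only [Bool.and_eq_true] at h1
    obtain ⟨⟨⟨⟨a1, a2⟩, a3⟩, a4⟩, a5⟩ := h1
    have a1 := Nat.eq_of_beq_eq_true a1
    have a2 := Nat.le_of_ble_eq_true a2
    have a3 := Nat.le_of_ble_eq_true a3
    subst a1
    have hD : 0 < p := a3
    have hD' : (0 : ℝ) < p := by exact_mod_cast hD
    have hl : ∀ u ∈ l, u.1 ≤ p := fun u hu => Nat.le_of_ble_eq_true (List.all_eq_true.mp a4 u hu)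
    have hfx : ∀ u ∈ (p, m) :: l, u.1 ≤ p := by
      intro u hu
      rcases List.mem_cons.mp hu with rfl | hu
      · exact le_rfl
      · exact hl u hu
    have e : fxM p ((p, m) :: l) = Multiset.replicate m ((p : ℝ) / p) + fxM p l := rfl
    rw [div_self hD'.ne'] at e
    have hks : ∀ x ∈ ks, 1 ≤ x ∧ x ≤ p := by
      intro x hx
      have := List.all_eq_true.mp h5 x hx
      rw [Bool.and_eq_true] at this
      exact ⟨Nat.le_of_ble_eq_true this.1, Nat.le_of_ble_eq_true this.2⟩
    obtain ⟨hr, hst⟩ := stOK_sound rd st 1 h6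
    have hlen := Nat.eq_of_beq_eq_true h7
    have hleni := Nat.eq_of_beq_eq_true h8
    refine ⟨⟨hD, of_decide_eq_true h2, of_decide_eq_true h3, ?_, fxM01 p hD _ hfx, hks, hr,
      fun q hq => by rw [hst q hq, one_mul], hlen, of_decide_eq_true h9, ?_, ?_⟩, of_decide_eq_true h4⟩
    · rw [e]
      exact Multiset.mem_add.mpr (Or.inl (by rw [Multiset.mem_replicate]; exact ⟨by omega, rfl⟩))
    · intro x hx
      exact sumF_ge x l p m (hks x hx).2 a2
    · intro q hq ha s hs
      have hqi : q < i1.length := by rw [hleni]; exact hq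
      have hnot : ¬ (i1.all fun a => Nat.beq a 0) = true := by
        intro hc
        have h11 := List.all_eq_true.mp hc (i1.getD q 0) (by
          rw [List.getD_eq_getElem _ _ hqi]
          exact List.getElem_mem _)
        have := Nat.eq_of_beq_eq_true h11
        omega
      obtain ⟨a, ha0, haD, H⟩ := hL.resolve_left hnot
      rw [Bool.or_eq_true] at a5
      have a6 := a5.resolve_left hnot
      rw [Bool.and_eq_true, Bool.or_eq_true] at a6
      obtain ⟨a7, a8⟩ := a6
      have a7 := Nat.le_of_ble_eq_true a7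
      -- the second entry
      obtain ⟨d, s', hds, hd1, hd2, hd3⟩ : ∃ (d : ℝ) (s' : Multiset ℝ), fxM p ((p, m) :: l) = d ::ₘ s' ∧
          (dA : ℝ) / p ≤ d ∧ d ≤ 1 ∧ (1 : ℝ) ∈ s' := by
        rcases a8 with a8 | a8
        · have a8 := Nat.le_of_ble_eq_true a8
          obtain ⟨m', rfl⟩ := Nat.exists_eq_add_of_le a8
          refine ⟨1, Multiset.replicate (m' + 1) 1 + fxM p l, ?_, ?_, le_rfl, ?_⟩
          · rw [e, show 2 + m' = (m' + 1) + 1 by ring, Multiset.replicate_succ, Multiset.cons_add]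
          · rw [div_le_one hD']
            exact_mod_cast a7
          · exact Multiset.mem_add.mpr (Or.inl (by rw [Multiset.mem_replicate]; exact ⟨by omega, rfl⟩))
        · obtain ⟨d, k1, k2, k3⟩ := twoOK_sound p dA hD l hl a8
          obtain ⟨l', hl'⟩ := Multiset.exists_cons_of_mem k1
          refine ⟨d, Multiset.replicate m 1 + l', ?_, k2, k3, ?_⟩
          · rw [e, hl', Multiset.add_cons]
          · exact Multiset.mem_add.mpr (Or.inl (by rw [Multiset.mem_replicate]; exact ⟨by omega, rfl⟩))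
      -- the check
      have hz : (ks.getD q 0, i1.getD q 0) ∈ ks.zip i1 := by
        rw [List.getD_eq_getElem _ _ hq, List.getD_eq_getElem _ _ hqi, List.mem_iff_getElem]
        exact ⟨q, by rw [List.length_zip]; omega, by rw [List.getElem_zip]⟩
      have h11 := List.all_eq_true.mp h10 _ hz
      rw [Bool.or_eq_true, Bool.and_eq_true] at h11
      have h12 := h11.resolve_left (by
        intro hc
        have := Nat.eq_of_beq_eq_true hc
        simp only at this
        omega)
      have b1 := Nat.le_of_ble_eq_true h12.1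
      have b2 := Nat.le_of_ble_eq_true h12.2
      simp only at b1 b2
      set x := ks.getD q 0 with hx
      set w := i1.getD q 0 with hw
      have hx0 : (0 : ℝ) ≤ (x : ℝ) / p := by positivity
      have hxd : (x : ℝ) / p ≤ d := (div_le_div_of_nonneg_right (by exact_mod_cast b1) hD'.le).trans hd1
      have had : a ≤ d := by
        refine le_trans ?_ hd1
        rw [le_div_iff₀ hD']
        exact haD
      have h01 := fxM01 p hD _ hfx
      rw [hds] at h01 ⊢
      have h := FM_two (s' + s) (Multiset.mem_add.mpr (Or.inl hd3)) (fun z hz => by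
        rcases Multiset.mem_add.mp hz with hz | hz
        · exact h01 z (Multiset.mem_cons_of_mem hz)
        · exact hs z hz) ((x : ℝ) / p) d hx0 hxd hd2 a _ _ ha0 had (by positivity) (by positivity) H
      rw [Multiset.cons_add]
      refine h.trans (add_le_add le_rfl ?_)
      have b3 : (10000 * (An : ℝ) * x * p + 5000 * Bn * (x : ℝ) ^ 2) ≤ w * (p : ℝ) ^ 2 := by
        exact_mod_cast b2
      rw [le_div_iff₀ (by positivity)]
      have e2 : ((An : ℝ) / 1000 * ((x : ℝ) / p) + (Bn : ℝ) / 1000 / 2 * ((x : ℝ) / p) ^ 2) * 10 ^ 7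
          = (10000 * (An : ℝ) * x * p + 5000 * Bn * (x : ℝ) ^ 2) / (p : ℝ) ^ 2 := by
        field_simp
        ring
      rw [e2, div_le_iff₀ (by positivity)]
      exact b3

lemma idx_lt (rd : List ℕ) : ∀ ns, OkD rd ns → idx rd ns < rd.prod := by
  induction rd with
  | nil =>
    intro ns h
    cases h
    show 0 < 1
    norm_num
  | cons r rd ih =>
    intro ns h
    cases h with
    | cons h1 h2 =>
      rename_i n ns
      have h3 := ih ns h2
      show n + r * idx rd ns < (r :: rd).prod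
      rw [List.prod_cons]
      calc n + r * idx rd ns < r + r * idx rd ns := by omega
        _ = r * (idx rd ns + 1) := by ring
        _ ≤ r * rd.prod := Nat.mul_le_mul_left r h3

/-- SOUNDNESS of the program. -/
theorem fill_sound {D : ℕ} {fx : List (ℕ × ℕ)} {v : List (ℕ × ℕ)} {pre ks rd st sf i1 : List ℕ}
    {dA An Bn : ℕ} (hp : prmOK D fx v pre ks rd st sf i1 dA An Bn = true)
    (hL : (i1.all fun a => Nat.beq a 0) = true ∨ Lev D dA An Bn) (R P : ℕ) (hPP : P = rd.prod)
    (Cs : List ℕ) (B : ℕ) (k : ℕ → Bool) (h : fill v pre R ks rd st sf i1 P Cs B k = true) :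
    ∃ T, (∀ ns, OkD rd ns → FM (fxM D fx + mk ns (kR D ks)) ≤ (dq T (idx rd ns) : ℝ) / 10 ^ 7) ∧
      k T = true := by
  obtain ⟨hP, hc⟩ := prm_of hp hL
  unfold fill at h
  rw [frc_eq] at h
  subst hPP
  obtain ⟨T, h1, h2⟩ := passes_sound hP R rd.prod le_rfl Cs _ B k (Inv_ini hP hc) h
  refine ⟨T, fun ns hns => ?_, h2⟩
  have h3 := h1 (idx rd ns) (idx_lt rd ns hns)
  rwa [dig_idx rd ns hns] at h3

end Fl
end Ent
end Pool.Agent.Lib.MP_6947cd_al
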