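import Pool.Agent.Lib.MP_6947cd_al.L.WConc
import Pool.Agent.Lib.MP_6947cd_al.L.Fill

/-!
Problem MP_6947cd_al (Chollet).  FAR TOTALS.  The smallest rests are removed one by one (`Ent.Fl.FM_log'`) until the
total is in the window `[T0, T0 + κ)`.
-/

set_option autoImplicit false
set_option maxRecDepth 100000
open Finset

namespace Pool.Agent.Lib.MP_6947cd_al
namespace Fr
namespace Far

open Ent IA T WT

/-! ### the removal -/

lemma exists_min (M : Multiset ℝ) (h : M ≠ 0) : ∃ e M1, M = e ::ₘ M1 ∧ ∀ z ∈ M1, e ≤ z := by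
  classical
  have hne : M.toFinset.Nonempty := by
    rw [Finset.nonempty_iff_ne_empty]
    intro h0
    exact h (Multiset.toFinset_eq_empty.mp h0)
  obtain ⟨e, he, hmin⟩ := Finset.exists_min_image M.toFinset id hne
  obtain ⟨M1, hM1⟩ := Multiset.exists_cons_of_mem (Multiset.mem_toFinset.mp he)
  refine ⟨e, M1, hM1, fun z hz => hmin z (Multiset.mem_toFinset.mpr ?_)⟩
  rw [hM1]
  exact Multiset.mem_cons_of_mem hz

theorem removal (T0 sm κ : ℝ) (S : Multiset ℝ) (hκ1 : κ ≤ 1) (hsm : sm ≤ T0)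
    (hS : ∀ z ∈ S, 0 ≤ z ∧ z ≤ 1) (hSsm : (S.filter fun z => z < κ).sum ≤ sm) (hST : S.sum < T0) :
    ∀ (n : ℕ) (M : Multiset ℝ), M.card = n → (∀ e ∈ M, 0 ≤ e ∧ e ≤ κ) → T0 ≤ S.sum + M.sum →
      ∃ M' ≤ M, T0 ≤ S.sum + M'.sum ∧ S.sum + M'.sum < T0 + κ ∧
        FM (1 ::ₘ (S + M)) ≤ FM (1 ::ₘ (S + M'))
          + (Real.log (1 + (S.sum + M.sum) - sm) - Real.log (1 + (S.sum + M'.sum) - sm)) := by
  classical
  intro n
  induction n with
  | zero =>
    intro M hM _ hT
    rw [Multiset.card_eq_zero] at hM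
    subst hM
    simp only [Multiset.sum_zero, add_zero] at hT
    linarith
  | succ n ih =>
    intro M hM hMe hT
    by_cases hw : S.sum + M.sum < T0 + κ
    · exact ⟨M, le_rfl, hT, hw, by linarith⟩
    push Not at hw
    have hne : M ≠ 0 := by
      intro h0
      rw [h0] at hM
      simp at hM
    obtain ⟨e, M1, rfl, hmin⟩ := exists_min M hne
    have he := hMe e (Multiset.mem_cons_self e M1)
    rw [Multiset.sum_cons] at hw
    have hT1 : T0 ≤ S.sum + M1.sum := by linarith [he.2]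
    obtain ⟨M', hM', h1, h2, h3⟩ := ih M1 (by simpa using hM)
      (fun z hz => hMe z (Multiset.mem_cons_of_mem hz)) hT1
    refine ⟨M', hM'.trans (Multiset.le_cons_self M1 e), h1, h2, ?_⟩
    have hs : ∀ z ∈ 1 ::ₘ (S + M1), 0 ≤ z ∧ z ≤ 1 := by
      intro z hz
      rcases Multiset.mem_cons.mp hz with rfl | hz
      · exact ⟨by norm_num, le_rfl⟩
      rcases Multiset.mem_add.mp hz with hz | hz
      · exact hS z hz
      · have := hMe z (Multiset.mem_cons_of_mem hz)
        exact ⟨this.1, this.2.trans hκ1⟩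
    have hle : 1 + (S.sum + M1.sum) - sm ≤ ((1 ::ₘ (S + M1)).filter fun z => e ≤ z).sum := by
      rw [Multiset.filter_cons_of_pos _ (he.2.trans hκ1), Multiset.sum_cons, Multiset.filter_add,
        Multiset.sum_add, Multiset.filter_eq_self.mpr hmin]
      have h4 : (S.filter fun z => e ≤ z).sum + (S.filter fun z => ¬ e ≤ z).sum = S.sum := by
        rw [← Multiset.sum_add, Multiset.filter_add_not]
      have h5 : (S.filter fun z => ¬ e ≤ z).sum ≤ (S.filter fun z => z < κ).sum := by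
        have h6 : (S.filter fun z => ¬ e ≤ z) ≤ (S.filter fun z => z < κ) :=
          Multiset.monotone_filter_right S fun z hz => (not_le.mp hz).trans_le he.2
        obtain ⟨U, hU⟩ := Multiset.le_iff_exists_add.mp h6
        rw [hU, Multiset.sum_add]
        have : 0 ≤ U.sum := by
          refine Multiset.sum_nonneg fun z hz => ?_
          have h7 : z ∈ S.filter fun z => z < κ := by
            rw [hU]
            exact Multiset.mem_add.mpr (Or.inr hz)
          exact (hS z (Multiset.mem_of_mem_filter h7)).1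
        linarith
      linarith
    have h8 := Ent.Fl.FM_log' (1 ::ₘ (S + M1)) (Multiset.mem_cons_self _ _) hs e he.1
      (he.2.trans hκ1) (1 + (S.sum + M1.sum) - sm) (by linarith) hle
    have h9 : (1 : ℝ) ::ₘ (S + e ::ₘ M1) = e ::ₘ (1 ::ₘ (S + M1)) := by
      rw [Multiset.add_cons, Multiset.cons_swap]
    rw [h9, Multiset.sum_cons]
    have h10 : e + (1 + (S.sum + M1.sum) - sm) = 1 + (S.sum + (e + M1.sum)) - sm := by ring
    rw [h10] at h8
    linarith

/-! ### the one-variable inequality, in the table -/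

/-- the slopes of the table against `1 / (1 + s - sm)`, `sm = a / 100` -/
def chkF (k0 a : ℕ) : Bool :=
  (List.range (370 - k0)).all fun i =>
    Nat.ble 20000000 (Nat.mul (Nat.sub (yn (k0 + i + 1)) (yn (k0 + i))) (Nat.sub (100 + 2 * (k0 + i)) a))

/-- `Wc s - log (1 + s - sm)` -/
noncomputable def H (sm s : ℝ) : ℝ := Wc s - Real.log (1 + s - sm)

lemma mono_piece (k a : ℕ) (hk : 15 ≤ k) (hk' : k ≤ 369)
    (hc : 20000000 ≤ (yn (k + 1) - yn k) * (100 + 2 * k - a)) :
    MonotoneOn (H ((a : ℝ) / 100)) (Set.Icc ((k : ℝ) / 50) (((k : ℝ) + 1) / 50)) := by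
  intro s hs t ht hst
  have h1 : Wc s = lineW k s :=
    le_antisymm (Wc_le_line k hk hk' s) (line_le_Wc k hk hk' s hs.1 hs.2)
  have h2 : Wc t = lineW k t :=
    le_antisymm (Wc_le_line k hk hk' t) (line_le_Wc k hk hk' t ht.1 ht.2)
  have ha : a < 100 + 2 * k := by
    by_contra hcon
    have : 100 + 2 * k - a = 0 := by omega
    rw [this] at hc
    omega
  have hy : yn k < yn (k + 1) := by
    by_contra hcon
    have : yn (k + 1) - yn k = 0 := by omega
    rw [this] at hc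
    omega
  have hc' : (20000000 : ℝ) ≤ ((yn (k + 1) : ℝ) - yn k) * (100 + 2 * k - a) := by
    have h3 : ((20000000 : ℕ) : ℝ) ≤ (((yn (k + 1) - yn k) * (100 + 2 * k - a) : ℕ) : ℝ) := by
      exact_mod_cast hc
    rw [Nat.cast_mul, Nat.cast_sub hy.le, Nat.cast_sub ha.le] at h3
    push_cast at h3
    exact h3
  have ha' : (a : ℝ) < 100 + 2 * k := by exact_mod_cast ha
  have hs0 : 0 < 1 + s - (a : ℝ) / 100 := by
    have := hs.1
    linarith
  have ht0 : 0 < 1 + t - (a : ℝ) / 100 := by linarith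
  unfold H
  rw [h1, h2]
  -- the logarithm
  have hlog : Real.log (1 + t - (a : ℝ) / 100) - Real.log (1 + s - (a : ℝ) / 100)
      ≤ (t - s) / (1 + s - (a : ℝ) / 100) := by
    rw [← Real.log_div ht0.ne' hs0.ne']
    have := Real.log_le_sub_one_of_pos (div_pos ht0 hs0)
    have e : (1 + t - (a : ℝ) / 100) / (1 + s - (a : ℝ) / 100) - 1
        = (t - s) / (1 + s - (a : ℝ) / 100) := by
      rw [div_sub_one hs0.ne']
      congr 1
      ring
    linarith
  have hd : (t - s) / (1 + s - (a : ℝ) / 100) ≤ lineW k t - lineW k s := by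
    have e : lineW k t - lineW k s = 50 * (t - s) * (yr (k + 1) - yr k) := by
      unfold lineW
      ring
    rw [e, div_le_iff₀ hs0]
    have h4 : (1 : ℝ) ≤ 50 * (yr (k + 1) - yr k) * (1 + s - (a : ℝ) / 100) := by
      have h5 : 0 ≤ yr (k + 1) - yr k := by
        unfold yr
        have : (yn k : ℝ) ≤ yn (k + 1) := by exact_mod_cast hy.le
        rw [← sub_div]
        exact div_nonneg (by linarith) (by norm_num)
      have h6 : (1 : ℝ) ≤ 50 * (yr (k + 1) - yr k) * (1 + (k : ℝ) / 50 - (a : ℝ) / 100) := by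
        have e2 : 50 * (yr (k + 1) - yr k) * (1 + (k : ℝ) / 50 - (a : ℝ) / 100)
            = ((yn (k + 1) : ℝ) - yn k) * (100 + 2 * k - a) / 20000000 := by
          unfold yr
          ring
        rw [e2, le_div_iff₀ (by norm_num)]
        linarith
      have h7 : 50 * (yr (k + 1) - yr k) * (1 + (k : ℝ) / 50 - (a : ℝ) / 100)
          ≤ 50 * (yr (k + 1) - yr k) * (1 + s - (a : ℝ) / 100) :=
        mul_le_mul_of_nonneg_left (by linarith [hs.1]) (by linarith)
      linarith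
    have h8 : 0 ≤ t - s := by linarith
    nlinarith [mul_le_mul_of_nonneg_left h4 h8]
  linarith

lemma mono_table (k0 a : ℕ) (hk : 15 ≤ k0) (h370 : k0 ≤ 370) (hc : chkF k0 a = true) :
    MonotoneOn (H ((a : ℝ) / 100)) (Set.Icc ((k0 : ℝ) / 50) (37 / 5)) := by
  have key : ∀ m : ℕ, k0 + m ≤ 370 →
      MonotoneOn (H ((a : ℝ) / 100)) (Set.Icc ((k0 : ℝ) / 50) (((k0 + m : ℕ) : ℝ) / 50)) := by
    intro m
    induction m with
    | zero =>
      intro _
      rw [add_zero, Set.Icc_self]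
      exact Set.subsingleton_singleton.monotoneOn _
    | succ m ih =>
      intro hm
      have h1 := ih (by omega)
      have h2 := List.all_eq_true.mp hc m (List.mem_range.mpr (by omega))
      have h3 := mono_piece (k0 + m) a (by omega) (by omega) (Nat.le_of_ble_eq_true h2)
      have e : Set.Icc ((k0 : ℝ) / 50) (((k0 + (m + 1) : ℕ) : ℝ) / 50)
          = Set.Icc ((k0 : ℝ) / 50) (((k0 + m : ℕ) : ℝ) / 50)
            ∪ Set.Icc (((k0 + m : ℕ) : ℝ) / 50) ((((k0 + m : ℕ) : ℝ) + 1) / 50) := by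
        rw [Set.Icc_union_Icc_eq_Icc]
        · push_cast
          ring_nf
        · push_cast
          have : (0 : ℝ) ≤ m := Nat.cast_nonneg m
          linarith
        · linarith
      rw [e]
      refine MonotoneOn.union_right (c := ((k0 + m : ℕ) : ℝ) / 50) h1 h3 ?_ ?_
      · refine isGreatest_Icc ?_
        push_cast
        have : (0 : ℝ) ≤ m := Nat.cast_nonneg m
        linarith
      · refine isLeast_Icc ?_
        linarith
  have h := key (370 - k0) (by omega)
  have e : ((k0 + (370 - k0) : ℕ) : ℝ) / 50 = 37 / 5 := by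
    rw [show k0 + (370 - k0) = 370 by omega]
    norm_num
  rw [e] at h
  exact h

/-! ### beyond the table -/

lemma Wc_end : Wc (37 / 5) ≤ W6 (37 / 5) := by
  have hi : 257 < p8.length := by rw [p8_len]; norm_num
  have h3 := List.all_eq_true.mp p8_yn 257 (List.mem_range.mpr (by norm_num))
  rw [Bool.and_eq_true, List.getD_eq_getElem _ _ hi] at h3
  have h4 := use_one (W6E .x0) W6 (fun x y z => W6E_ev .x0 x y z) 1 (by norm_num) _ 112 p8 c8 257 hi
    (37 / 5) (by norm_num) (by norm_num)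
  refine (Wc_le_line 369 (by norm_num) le_rfl _).trans (le_trans ?_ h4)
  refine line_le_lin 369 _ _ ?_ ?_ _ (by norm_num) (by norm_num)
  · exact (Nat.eq_of_beq_eq_true h3.1).symm.le
  · exact (Nat.eq_of_beq_eq_true h3.2).symm.le

lemma log_52 : Real.log (26 / 5) ≤ 17 / 10 := by
  have h1 : Real.log (26 / 5) = 2 * Real.log 2 + Real.log (13 / 10) := by
    rw [show (26 / 5 : ℝ) = 2 ^ 2 * (13 / 10) by norm_num, Real.log_mul (by norm_num) (by norm_num),
      Real.log_pow]
    norm_num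
  have h2 := Real.log_two_lt_d9
  have h3 := Real.log_le_sub_one_of_pos (show (0 : ℝ) < 13 / 10 by norm_num)
  rw [h1]
  linarith

lemma hasDeriv_W6 (sm s : ℝ) (hs : 37 / 5 ≤ s) (hsm : sm ≤ 5 / 4) :
    HasDerivAt (fun s => W6 s - Real.log (1 + s - sm))
      (2 / (1 + s) - 4 * Real.log ((3 + s) / 2) / (1 + s) ^ 2
        - 2 / 81 / ((8 / 9 + s) ^ 2 * (1 + s)) - 1 / (1 + s - sm)) s := by
  have h1 : HasDerivAt (fun s : ℝ => 1 + s) 1 s := (hasDerivAt_id s).const_add 1
  have h3 : HasDerivAt (fun s : ℝ => 3 + s) 1 s := (hasDerivAt_id s).const_add 3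
  have h8 : HasDerivAt (fun s : ℝ => 8 / 9 + s) 1 s := (hasDerivAt_id s).const_add (8 / 9)
  have hsm' : HasDerivAt (fun s : ℝ => 1 + s - sm) 1 s := h1.sub_const sm
  have p1 : (1 + s) ≠ 0 := by linarith
  have p3 : (3 + s) ≠ 0 := by linarith
  have p8 : (8 / 9 + s) ≠ 0 := by linarith
  have psm : (1 + s - sm) ≠ 0 := by linarith
  have d1 : HasDerivAt (fun s : ℝ => Real.log ((3 + s) / 4)) (1 / 4 / ((3 + s) / 4)) s :=
    (h3.div_const 4).log (by positivity)
  have d2 : HasDerivAt (fun s : ℝ => Real.log ((3 + s) / 2)) (1 / 2 / ((3 + s) / 2)) s :=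
    (h3.div_const 2).log (by positivity)
  have d3 : HasDerivAt (fun s : ℝ => 2 / (1 + s)) ((0 * (1 + s) - 2 * 1) / (1 + s) ^ 2) s :=
    (hasDerivAt_const s (2 : ℝ)).div h1 p1
  have d4 : HasDerivAt (fun s : ℝ => Real.log ((8 / 9 + s) / (1 + s)))
      (((1 * (1 + s) - (8 / 9 + s) * 1) / (1 + s) ^ 2) / ((8 / 9 + s) / (1 + s))) s :=
    (h8.div h1 p1).log (div_ne_zero p8 p1)
  have d5 : HasDerivAt (fun s : ℝ => (1 / 9 : ℝ) / (8 / 9 + s))
      ((0 * (8 / 9 + s) - 1 / 9 * 1) / (8 / 9 + s) ^ 2) s :=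
    (hasDerivAt_const s (1 / 9 : ℝ)).div h8 p8
  have d6 : HasDerivAt (fun s : ℝ => Real.log (1 + s - sm)) (1 / (1 + s - sm)) s := hsm'.log psm
  have hfun : (fun s => W6 s - Real.log (1 + s - sm)) = fun s => 2 * ((Real.log ((3 + s) / 4)
      - 577216 / 1000000 + 2 / (1 + s) * Real.log ((3 + s) / 2))
      + (Real.log ((8 / 9 + s) / (1 + s)) + 1 / 9 / (8 / 9 + s)) - 304 / 1000000)
      - Real.log (1 + s - sm) := by
    funext s
    unfold W6 CholB.WM.w0
    norm_num
  rw [hfun]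
  have d := (((((d1.sub_const (577216 / 1000000)).add (d3.mul d2)).add (d4.add d5)).sub_const
    (304 / 1000000)).const_mul 2).sub d6
  refine d.congr_deriv ?_
  field_simp
  ring

lemma mono_W6 (sm : ℝ) (hsm0 : 0 ≤ sm) (hsm : sm ≤ 5 / 4) :
    MonotoneOn (fun s => W6 s - Real.log (1 + s - sm)) (Set.Ici (37 / 5)) := by
  refine monotoneOn_of_deriv_nonneg (convex_Ici _)
    (fun s hs => (hasDeriv_W6 sm s hs hsm).continuousAt.continuousWithinAt)
    (fun s hs => (hasDeriv_W6 sm s (interior_subset hs) hsm).differentiableAt.differentiableWithinAt)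
    (fun s hs => ?_)
  have hs' : 37 / 5 ≤ s := interior_subset hs
  rw [(hasDeriv_W6 sm s hs' hsm).deriv]
  -- the logarithm
  have hlog : Real.log ((3 + s) / 2) ≤ 17 / 10 + (s - 37 / 5) / (52 / 5) := by
    have h1 : Real.log ((3 + s) / 2) = Real.log (26 / 5) + Real.log ((3 + s) / (52 / 5)) := by
      rw [← Real.log_mul (by norm_num) (by positivity)]
      congr 1
      ring
    have h2 := Real.log_le_sub_one_of_pos (show (0 : ℝ) < (3 + s) / (52 / 5) by positivity)
    have h3 := log_52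
    have e : (3 + s) / (52 / 5) - 1 = (s - 37 / 5) / (52 / 5) := by ring
    linarith
  have hu : (42 / 5 : ℝ) ≤ 1 + s := by linarith
  have hpos : 0 < 1 + s - sm := by linarith
  have e1 : 1 / (1 + s - sm) ≤ (1 + s + sm + sm ^ 2 / (1 + s - sm)) / (1 + s) ^ 2 := by
    rw [div_le_div_iff₀ hpos (by positivity)]
    have : (1 + s + sm + sm ^ 2 / (1 + s - sm)) * (1 + s - sm) = (1 + s) ^ 2 := by
      field_simp
      ring
    linarith
  have e2 : sm ^ 2 / (1 + s - sm) ≤ 1 / 4 := by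
    rw [div_le_iff₀ hpos]
    nlinarith
  have e3 : 2 / 81 / ((8 / 9 + s) ^ 2 * (1 + s)) ≤ (1 / 100) / (1 + s) ^ 2 := by
    rw [div_div, div_le_div_iff₀ (by positivity) (by positivity)]
    have h1 : (1 + s) ^ 2 ≤ 2 * (8 / 9 + s) ^ 2 := by nlinarith
    nlinarith [mul_nonneg (sq_nonneg (8 / 9 + s)) (show (0 : ℝ) ≤ 1 + s - 42 / 5 by linarith)]
  have e4 : 2 / (1 + s) = 2 * (1 + s) / (1 + s) ^ 2 := by
    field_simp
  rw [e4]
  have e5 : 0 ≤ (2 * (1 + s) - 4 * Real.log ((3 + s) / 2) - 1 / 100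
      - (1 + s + sm + sm ^ 2 / (1 + s - sm))) / (1 + s) ^ 2 := by
    refine div_nonneg ?_ (by positivity)
    have : (s - 37 / 5) / (52 / 5) * 4 ≤ s - 37 / 5 := by
      rw [div_mul_eq_mul_div, div_le_iff₀ (by norm_num)]
      linarith
    linarith
  have e6 : (2 * (1 + s) - 4 * Real.log ((3 + s) / 2) - 1 / 100
      - (1 + s + sm + sm ^ 2 / (1 + s - sm))) / (1 + s) ^ 2
      = 2 * (1 + s) / (1 + s) ^ 2 - 4 * Real.log ((3 + s) / 2) / (1 + s) ^ 2
        - (1 / 100) / (1 + s) ^ 2 - (1 + s + sm + sm ^ 2 / (1 + s - sm)) / (1 + s) ^ 2 := by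
    ring
  rw [e6] at e5
  linarith

/-- the one-variable inequality -/
theorem star (k0 a : ℕ) (hk : 16 ≤ k0) (h370 : k0 ≤ 370) (ha : a ≤ 125) (hc : chkF k0 a = true)
    (s t : ℝ) (h1 : (k0 : ℝ) / 50 ≤ s) (h2 : s ≤ 37 / 5) (hst : s ≤ t) :
    Wc s + (Real.log (1 + t - (a : ℝ) / 100) - Real.log (1 + s - (a : ℝ) / 100)) ≤ What t := by
  have hk' : (16 : ℝ) ≤ k0 := by exact_mod_cast hk
  have hm := mono_table k0 a (by omega) h370 hc
  rcases le_or_gt t (37 / 5) with h | h
  · have h3 := hm ⟨h1, h2⟩ ⟨h1.trans hst, h⟩ hst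
    simp only [H] at h3
    have h4 := Wc_le_What t (by linarith) h
    linarith
  · have h3 := hm ⟨h1, h2⟩ ⟨h1.trans h2, le_rfl⟩ h2
    have h4 := mono_W6 ((a : ℝ) / 100) (by positivity)
      (by
        have : (a : ℝ) ≤ 125 := by exact_mod_cast ha
        linarith) (Set.mem_Ici.mpr (le_refl (37 / 5 : ℝ)))
      (Set.mem_Ici.mpr h.le) h.le
    simp only [H] at h3
    simp only at h4
    have h5 := Wc_end
    have h6 := What_six t (by linarith)
    linarith

/-! ### the statement -/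

/-- FAR TOTALS: windows `[T0, T0 + κ)`, `κ ≤ K`; `sm` bounds the sum of the fixed entries below `κ`. -/
def SpecFarK (T0 sm K : ℝ) : Prop :=
  ∀ (κ E : ℝ) (S M : Multiset ℝ), 0 ≤ E → 0 < κ → κ ≤ K → (∀ z ∈ S, 0 ≤ z ∧ z ≤ 1) →
    (∀ e ∈ M, 0 ≤ e ∧ e ≤ κ) → (S.filter fun z => z < κ).sum ≤ sm → S.sum < T0 →
    T0 ≤ S.sum + M.sum →
    (∀ M' ≤ M, T0 ≤ S.sum + M'.sum → S.sum + M'.sum < T0 + κ →
      FM (1 ::ₘ (S + M')) + E ≤ Wc (S.sum + M'.sum)) →
    FM (1 ::ₘ (S + M)) + E ≤ What (S.sum + M.sum)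

/-- FAR TOTALS for every cap `κ ≤ 1`. -/
def SpecFar (T0 sm : ℝ) : Prop :=
  ∀ (κ E : ℝ) (S M : Multiset ℝ), 0 ≤ E → 0 < κ → κ ≤ 1 → (∀ z ∈ S, 0 ≤ z ∧ z ≤ 1) →
    (∀ e ∈ M, 0 ≤ e ∧ e ≤ κ) → (S.filter fun z => z < κ).sum ≤ sm → S.sum < T0 →
    T0 ≤ S.sum + M.sum →
    (∀ M' ≤ M, T0 ≤ S.sum + M'.sum → S.sum + M'.sum < T0 + κ →
      FM (1 ::ₘ (S + M')) + E ≤ Wc (S.sum + M'.sum)) →
    FM (1 ::ₘ (S + M)) + E ≤ What (S.sum + M.sum)

/-- `T0 = k0 / 50`, `sm = a / 100 ≤ 5 / 4`, windows in the table. -/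
theorem farK (k0 a : ℕ) (K : ℝ) (hk : 16 ≤ k0) (h370 : k0 ≤ 370) (ha : a ≤ 125)
    (hak : a ≤ 2 * k0) (hK1 : K ≤ 1) (hK : (k0 : ℝ) / 50 + K ≤ 37 / 5) (hc : chkF k0 a = true) :
    SpecFarK ((k0 : ℝ) / 50) ((a : ℝ) / 100) K := by
  intro κ E S M hE hκ hκK hS hM hSsm hST hT hwin
  have hsm : (a : ℝ) / 100 ≤ (k0 : ℝ) / 50 := by
    have : (a : ℝ) ≤ 2 * k0 := by exact_mod_cast hak
    linarith
  obtain ⟨M', hM', h1, h2, h3⟩ := removal ((k0 : ℝ) / 50) ((a : ℝ) / 100) κ S (hκK.trans hK1) hsm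
    hS hSsm hST M.card M rfl hM hT
  have h4 := hwin M' hM' h1 h2
  have hle : S.sum + M'.sum ≤ S.sum + M.sum := by
    obtain ⟨U, hU⟩ := Multiset.le_iff_exists_add.mp hM'
    rw [hU, Multiset.sum_add]
    have : 0 ≤ U.sum := by
      refine Multiset.sum_nonneg fun z hz => (hM z ?_).1
      rw [hU]
      exact Multiset.mem_add.mpr (Or.inr hz)
    linarith
  have h5 := star k0 a hk h370 ha hc (S.sum + M'.sum) (S.sum + M.sum) h1 (by linarith) hle
  linarith

theorem c210 : chkF 210 0 = true := by decide +kernel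
theorem c265 : chkF 265 50 = true := by decide +kernel
theorem c290 : chkF 290 75 = true := by decide +kernel
theorem c320 : chkF 320 100 = true := by decide +kernel
theorem c345 : chkF 345 125 = true := by decide +kernel

theorem specFar0 : SpecFar (21 / 5) 0 := by
  have h := farK 210 0 1 (by norm_num) (by norm_num) (by norm_num) (by norm_num) le_rfl (by norm_num) c210
  norm_num at h
  exact h

theorem specFar50 : SpecFar (53 / 10) (1 / 2) := by
  have h := farK 265 50 1 (by norm_num) (by norm_num) (by norm_num) (by norm_num) le_rfl (by norm_num) c265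
  norm_num at h
  exact h

theorem specFar75 : SpecFar (29 / 5) (3 / 4) := by
  have h := farK 290 75 1 (by norm_num) (by norm_num) (by norm_num) (by norm_num) le_rfl (by norm_num) c290
  norm_num at h
  exact h

theorem specFar100 : SpecFar (32 / 5) 1 := by
  have h := farK 320 100 1 (by norm_num) (by norm_num) (by norm_num) (by norm_num) le_rfl (by norm_num) c320
  norm_num at h
  exact h

theorem specFar125 : SpecFarK (69 / 10) (5 / 4) (1 / 2) := by
  have h := farK 345 125 (1 / 2) (by norm_num) (by norm_num) (by norm_num) (by norm_num) (by norm_num)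
    (by norm_num) c345
  norm_num at h
  exact h

end Far
end Fr
end Pool.Agent.Lib.MP_6947cd_al
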