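import Pool.Agent.Lib.MP_6947cd_al.L.WConc2
import Pool.Agent.Lib.MP_6947cd_al.L.Far

/-!
Problem MP_6947cd_al (Chollet).  FAR TOTALS for the extended table `Wd` (windows anywhere in `[8/25, 16]`,
`sm ≤ 5`).
-/

set_option autoImplicit false
set_option maxRecDepth 100000
open Finset

namespace Pool.Agent.Lib.MP_6947cd_al
namespace Fr
namespace Far2

open Ent IA T WT WD Far

/-! ### the one-variable inequality, in the table -/

/-- the slopes of the table against `1 / (1 + s - sm)`, `sm = a / 100` -/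
def chkG (k0 a : ℕ) : Bool :=
  (List.range (800 - k0)).all fun i =>
    Nat.ble 20000000 (Nat.mul (Nat.sub (yd (k0 + i + 1)) (yd (k0 + i))) (Nat.sub (100 + 2 * (k0 + i)) a))

/-- `Wd s - log (1 + s - sm)` -/
noncomputable def H' (sm s : ℝ) : ℝ := Wd s - Real.log (1 + s - sm)

lemma mono_piece (k a : ℕ) (hk : 15 ≤ k) (hk' : k ≤ 799)
    (hc : 20000000 ≤ (yd (k + 1) - yd k) * (100 + 2 * k - a)) :
    MonotoneOn (H' ((a : ℝ) / 100)) (Set.Icc ((k : ℝ) / 50) (((k : ℝ) + 1) / 50)) := by
  intro s hs t ht hst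
  have h1 : Wd s = lineD k s := Wd_piece k hk hk' s hs.1 hs.2
  have h2 : Wd t = lineD k t := Wd_piece k hk hk' t ht.1 ht.2
  have ha : a < 100 + 2 * k := by
    by_contra hcon
    have : 100 + 2 * k - a = 0 := by omega
    rw [this] at hc
    omega
  have hy : yd k < yd (k + 1) := by
    by_contra hcon
    have : yd (k + 1) - yd k = 0 := by omega
    rw [this] at hc
    omega
  have hc' : (20000000 : ℝ) ≤ ((yd (k + 1) : ℝ) - yd k) * (100 + 2 * k - a) := by
    have h3 : ((20000000 : ℕ) : ℝ) ≤ (((yd (k + 1) - yd k) * (100 + 2 * k - a) : ℕ) : ℝ) := by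
      exact_mod_cast hc
    rw [Nat.cast_mul, Nat.cast_sub hy.le, Nat.cast_sub ha.le] at h3
    push_cast at h3
    exact h3
  have ha' : (a : ℝ) < 100 + 2 * k := by exact_mod_cast ha
  have hs0 : 0 < 1 + s - (a : ℝ) / 100 := by
    have := hs.1
    linarith
  have ht0 : 0 < 1 + t - (a : ℝ) / 100 := by linarith
  unfold H'
  rw [h1, h2]
  -- the logarithm
  have hlog : Real.log (1 + t - (a : ℝ) / 100) - Real.log (1 + s - (a : ℝ) / 100)
      ≤ (t - s) / (1 + s - (a : ℝ) / 100) := by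
    rw [← Real.log_div ht0.ne' hs0.ne']
    have := Real.log_le_sub_one_of_pos (div_pos ht0 hs0)
    have e : (1 + t - (a : ℝ) / 100) / (1 + s - (a : ℝ) / 100) - 1
        = (t - s) / (1 + s - (a : ℝ) / 100) := by
      rw [div_sub_one hs0.ne']
      congr 1
      ring
    linarith
  have hd : (t - s) / (1 + s - (a : ℝ) / 100) ≤ lineD k t - lineD k s := by
    have e : lineD k t - lineD k s = 50 * (t - s) * (yr' (k + 1) - yr' k) := by
      unfold lineD
      ring
    rw [e, div_le_iff₀ hs0]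
    have h4 : (1 : ℝ) ≤ 50 * (yr' (k + 1) - yr' k) * (1 + s - (a : ℝ) / 100) := by
      have h5 : 0 ≤ yr' (k + 1) - yr' k := by
        unfold yr'
        have : (yd k : ℝ) ≤ yd (k + 1) := by exact_mod_cast hy.le
        rw [← sub_div]
        exact div_nonneg (by linarith) (by norm_num)
      have h6 : (1 : ℝ) ≤ 50 * (yr' (k + 1) - yr' k) * (1 + (k : ℝ) / 50 - (a : ℝ) / 100) := by
        have e2 : 50 * (yr' (k + 1) - yr' k) * (1 + (k : ℝ) / 50 - (a : ℝ) / 100)
            = ((yd (k + 1) : ℝ) - yd k) * (100 + 2 * k - a) / 20000000 := by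
          unfold yr'
          ring
        rw [e2, le_div_iff₀ (by norm_num)]
        linarith
      have h7 : 50 * (yr' (k + 1) - yr' k) * (1 + (k : ℝ) / 50 - (a : ℝ) / 100)
          ≤ 50 * (yr' (k + 1) - yr' k) * (1 + s - (a : ℝ) / 100) :=
        mul_le_mul_of_nonneg_left (by linarith [hs.1]) (by linarith)
      linarith
    have h8 : 0 ≤ t - s := by linarith
    nlinarith [mul_le_mul_of_nonneg_left h4 h8]
  linarith

lemma mono_table (k0 a : ℕ) (hk : 15 ≤ k0) (h800 : k0 ≤ 800) (hc : chkG k0 a = true) :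
    MonotoneOn (H' ((a : ℝ) / 100)) (Set.Icc ((k0 : ℝ) / 50) 16) := by
  have key : ∀ m : ℕ, k0 + m ≤ 800 →
      MonotoneOn (H' ((a : ℝ) / 100)) (Set.Icc ((k0 : ℝ) / 50) (((k0 + m : ℕ) : ℝ) / 50)) := by
    intro m
    induction m with
    | zero =>
      intro _
      rw [add_zero, Set.Icc_self]
      exact Set.subsingleton_singleton.monotoneOn _
    | succ m ih =>
      intro hm
      have h1 := ih (by omega)
      have h2 := List.all_eq_true.mp hc m (List.mem_range.mpr (by omega))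
      have h3 := mono_piece (k0 + m) a (by omega) (by omega) (Nat.le_of_ble_eq_true h2)
      have e : Set.Icc ((k0 : ℝ) / 50) (((k0 + (m + 1) : ℕ) : ℝ) / 50)
          = Set.Icc ((k0 : ℝ) / 50) (((k0 + m : ℕ) : ℝ) / 50)
            ∪ Set.Icc (((k0 + m : ℕ) : ℝ) / 50) ((((k0 + m : ℕ) : ℝ) + 1) / 50) := by
        rw [Set.Icc_union_Icc_eq_Icc]
        · push_cast
          ring_nf
        · push_cast
          have : (0 : ℝ) ≤ m := Nat.cast_nonneg m
          linarith
        · linarith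
      rw [e]
      refine MonotoneOn.union_right (c := ((k0 + m : ℕ) : ℝ) / 50) h1 h3 ?_ ?_
      · refine isGreatest_Icc ?_
        push_cast
        have : (0 : ℝ) ≤ m := Nat.cast_nonneg m
        linarith
      · refine isLeast_Icc ?_
        linarith
  have h := key (800 - k0) (by omega)
  have e : ((k0 + (800 - k0) : ℕ) : ℝ) / 50 = 16 := by
    rw [show k0 + (800 - k0) = 800 by omega]
    norm_num
  rw [e] at h
  exact h

/-! ### beyond the table -/

lemma Wd_end : Wd 16 ≤ W6 16 :=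
  (Wd_le_line 799 (by norm_num) le_rfl _).trans
    (lineD_le_W6 799 (by norm_num) le_rfl 16 (by norm_num) (by norm_num))

lemma log_95 : Real.log (19 / 2) ≤ 2267 / 1000 := by
  have h1 : Real.log (19 / 2) = 3 * Real.log 2 + Real.log (19 / 16) := by
    rw [show (19 / 2 : ℝ) = 2 ^ 3 * (19 / 16) by norm_num, Real.log_mul (by norm_num) (by norm_num),
      Real.log_pow]
    norm_num
  have h2 := Real.log_two_lt_d9
  have h3 := Real.log_le_sub_one_of_pos (show (0 : ℝ) < 19 / 16 by norm_num)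
  rw [h1]
  linarith

lemma hasDeriv_W6 (sm s : ℝ) (hs : 16 ≤ s) (hsm : sm ≤ 5) :
    HasDerivAt (fun s => W6 s - Real.log (1 + s - sm))
      (2 / (1 + s) - 4 * Real.log ((3 + s) / 2) / (1 + s) ^ 2
        - 2 / 81 / ((8 / 9 + s) ^ 2 * (1 + s)) - 1 / (1 + s - sm)) s := by
  have h1 : HasDerivAt (fun s : ℝ => 1 + s) 1 s := (hasDerivAt_id s).const_add 1
  have h3 : HasDerivAt (fun s : ℝ => 3 + s) 1 s := (hasDerivAt_id s).const_add 3
  have h8 : HasDerivAt (fun s : ℝ => 8 / 9 + s) 1 s := (hasDerivAt_id s).const_add (8 / 9)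
  have hsm' : HasDerivAt (fun s : ℝ => 1 + s - sm) 1 s := h1.sub_const sm
  have p1 : (1 + s) ≠ 0 := by linarith
  have p3 : (3 + s) ≠ 0 := by linarith
  have p8 : (8 / 9 + s) ≠ 0 := by linarith
  have psm : (1 + s - sm) ≠ 0 := by linarith
  have d1 : HasDerivAt (fun s : ℝ => Real.log ((3 + s) / 4)) (1 / 4 / ((3 + s) / 4)) s :=
    (h3.div_const 4).log (by positivity)
  have d2 : HasDerivAt (fun s : ℝ => Real.log ((3 + s) / 2)) (1 / 2 / ((3 + s) / 2)) s :=
    (h3.div_const 2).log (by positivity)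
  have d3 : HasDerivAt (fun s : ℝ => 2 / (1 + s)) ((0 * (1 + s) - 2 * 1) / (1 + s) ^ 2) s :=
    (hasDerivAt_const s (2 : ℝ)).div h1 p1
  have d4 : HasDerivAt (fun s : ℝ => Real.log ((8 / 9 + s) / (1 + s)))
      (((1 * (1 + s) - (8 / 9 + s) * 1) / (1 + s) ^ 2) / ((8 / 9 + s) / (1 + s))) s :=
    (h8.div h1 p1).log (div_ne_zero p8 p1)
  have d5 : HasDerivAt (fun s : ℝ => (1 / 9 : ℝ) / (8 / 9 + s))
      ((0 * (8 / 9 + s) - 1 / 9 * 1) / (8 / 9 + s) ^ 2) s :=
    (hasDerivAt_const s (1 / 9 : ℝ)).div h8 p8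
  have d6 : HasDerivAt (fun s : ℝ => Real.log (1 + s - sm)) (1 / (1 + s - sm)) s := hsm'.log psm
  have hfun : (fun s => W6 s - Real.log (1 + s - sm)) = fun s => 2 * ((Real.log ((3 + s) / 4)
      - 577216 / 1000000 + 2 / (1 + s) * Real.log ((3 + s) / 2))
      + (Real.log ((8 / 9 + s) / (1 + s)) + 1 / 9 / (8 / 9 + s)) - 304 / 1000000)
      - Real.log (1 + s - sm) := by
    funext s
    unfold W6 CholB.WM.w0
    norm_num
  rw [hfun]
  have d := (((((d1.sub_const (577216 / 1000000)).add (d3.mul d2)).add (d4.add d5)).sub_const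
    (304 / 1000000)).const_mul 2).sub d6
  refine d.congr_deriv ?_
  field_simp
  ring

lemma mono_W6 (sm : ℝ) (hsm0 : 0 ≤ sm) (hsm : sm ≤ 5) :
    MonotoneOn (fun s => W6 s - Real.log (1 + s - sm)) (Set.Ici 16) := by
  refine monotoneOn_of_deriv_nonneg (convex_Ici _)
    (fun s hs => (hasDeriv_W6 sm s hs hsm).continuousAt.continuousWithinAt)
    (fun s hs => (hasDeriv_W6 sm s (interior_subset hs) hsm).differentiableAt.differentiableWithinAt)
    (fun s hs => ?_)
  have hs' : 16 ≤ s := interior_subset hs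
  rw [(hasDeriv_W6 sm s hs' hsm).deriv]
  -- the logarithm
  have hlog : Real.log ((3 + s) / 2) ≤ 2267 / 1000 + (s - 16) / 19 := by
    have h1 : Real.log ((3 + s) / 2) = Real.log (19 / 2) + Real.log ((3 + s) / 19) := by
      rw [← Real.log_mul (by norm_num) (by positivity)]
      congr 1
      ring
    have h2 := Real.log_le_sub_one_of_pos (show (0 : ℝ) < (3 + s) / 19 by positivity)
    have h3 := log_95
    have e : (3 + s) / 19 - 1 = (s - 16) / 19 := by ring
    linarith
  have hu : (17 : ℝ) ≤ 1 + s := by linarith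
  have hpos : 0 < 1 + s - sm := by linarith
  have e1 : 1 / (1 + s - sm) ≤ (1 + s + sm + sm ^ 2 / (1 + s - sm)) / (1 + s) ^ 2 := by
    rw [div_le_div_iff₀ hpos (by positivity)]
    have : (1 + s + sm + sm ^ 2 / (1 + s - sm)) * (1 + s - sm) = (1 + s) ^ 2 := by
      field_simp
      ring
    linarith
  have e2 : sm ^ 2 / (1 + s - sm) ≤ 21 / 10 := by
    rw [div_le_iff₀ hpos]
    nlinarith
  have e3 : 2 / 81 / ((8 / 9 + s) ^ 2 * (1 + s)) ≤ (1 / 100) / (1 + s) ^ 2 := by
    rw [div_div, div_le_div_iff₀ (by positivity) (by positivity)]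
    have h1 : (1 + s) ^ 2 ≤ 2 * (8 / 9 + s) ^ 2 := by nlinarith
    nlinarith [mul_nonneg (sq_nonneg (8 / 9 + s)) (show (0 : ℝ) ≤ 1 + s - 17 by linarith)]
  have e4 : 2 / (1 + s) = 2 * (1 + s) / (1 + s) ^ 2 := by
    field_simp
  rw [e4]
  have e5 : 0 ≤ (2 * (1 + s) - 4 * Real.log ((3 + s) / 2) - 1 / 100
      - (1 + s + sm + sm ^ 2 / (1 + s - sm))) / (1 + s) ^ 2 := by
    refine div_nonneg ?_ (by positivity)
    have : (s - 16) / 19 * 4 ≤ s - 16 := by
      rw [div_mul_eq_mul_div, div_le_iff₀ (by norm_num)]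
      linarith
    linarith
  have e6 : (2 * (1 + s) - 4 * Real.log ((3 + s) / 2) - 1 / 100
      - (1 + s + sm + sm ^ 2 / (1 + s - sm))) / (1 + s) ^ 2
      = 2 * (1 + s) / (1 + s) ^ 2 - 4 * Real.log ((3 + s) / 2) / (1 + s) ^ 2
        - (1 / 100) / (1 + s) ^ 2 - (1 + s + sm + sm ^ 2 / (1 + s - sm)) / (1 + s) ^ 2 := by
    ring
  rw [e6] at e5
  linarith

/-- the one-variable inequality -/
theorem star (k0 a : ℕ) (hk : 16 ≤ k0) (h800 : k0 ≤ 800) (ha : a ≤ 500) (hc : chkG k0 a = true)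
    (s t : ℝ) (h1 : (k0 : ℝ) / 50 ≤ s) (h2 : s ≤ 16) (hst : s ≤ t) :
    Wd s + (Real.log (1 + t - (a : ℝ) / 100) - Real.log (1 + s - (a : ℝ) / 100)) ≤ What t := by
  have hk' : (16 : ℝ) ≤ k0 := by exact_mod_cast hk
  have hm := mono_table k0 a (by omega) h800 hc
  rcases le_or_gt t 16 with h | h
  · have h3 := hm ⟨h1, h2⟩ ⟨h1.trans hst, h⟩ hst
    simp only [H'] at h3
    have h4 := Wd_le_What t (by linarith) h
    linarith
  · have h3 := hm ⟨h1, h2⟩ ⟨h1.trans h2, le_rfl⟩ h2
    have h4 := mono_W6 ((a : ℝ) / 100) (by positivity)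
      (by
        have : (a : ℝ) ≤ 500 := by exact_mod_cast ha
        linarith) (Set.mem_Ici.mpr (le_refl (16 : ℝ)))
      (Set.mem_Ici.mpr h.le) h.le
    simp only [H'] at h3
    simp only at h4
    have h5 := Wd_end
    have h6 := What_six t (by linarith)
    linarith

/-! ### the statement -/

/-- FAR TOTALS, table `Wd`: windows `[T0, T0 + κ)`, `κ ≤ K`; `sm` bounds the sum of the fixed entries below `κ`. -/
def SpecFarD (T0 sm K : ℝ) : Prop :=
  ∀ (κ E : ℝ) (S M : Multiset ℝ), 0 ≤ E → 0 < κ → κ ≤ K → (∀ z ∈ S, 0 ≤ z ∧ z ≤ 1) →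
    (∀ e ∈ M, 0 ≤ e ∧ e ≤ κ) → (S.filter fun z => z < κ).sum ≤ sm → S.sum < T0 →
    T0 ≤ S.sum + M.sum →
    (∀ M' ≤ M, T0 ≤ S.sum + M'.sum → S.sum + M'.sum < T0 + κ →
      FM (1 ::ₘ (S + M')) + E ≤ Wd (S.sum + M'.sum)) →
    FM (1 ::ₘ (S + M)) + E ≤ What (S.sum + M.sum)

/-- `T0 = k0 / 50`, `sm = a / 100 ≤ 5`, windows in the table. -/
theorem farD (k0 a : ℕ) (K : ℝ) (hk : 16 ≤ k0) (h800 : k0 ≤ 800) (ha : a ≤ 500)
    (hak : a ≤ 2 * k0) (hK1 : K ≤ 1) (hK : (k0 : ℝ) / 50 + K ≤ 16) (hc : chkG k0 a = true) :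
    SpecFarD ((k0 : ℝ) / 50) ((a : ℝ) / 100) K := by
  intro κ E S M hE hκ hκK hS hM hSsm hST hT hwin
  have hsm : (a : ℝ) / 100 ≤ (k0 : ℝ) / 50 := by
    have : (a : ℝ) ≤ 2 * k0 := by exact_mod_cast hak
    linarith
  obtain ⟨M', hM', h1, h2, h3⟩ := removal ((k0 : ℝ) / 50) ((a : ℝ) / 100) κ S (hκK.trans hK1) hsm
    hS hSsm hST M.card M rfl hM hT
  have h4 := hwin M' hM' h1 h2
  have hle : S.sum + M'.sum ≤ S.sum + M.sum := by
    obtain ⟨U, hU⟩ := Multiset.le_iff_exists_add.mp hM'
    rw [hU, Multiset.sum_add]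
    have : 0 ≤ U.sum := by
      refine Multiset.sum_nonneg fun z hz => (hM z ?_).1
      rw [hU]
      exact Multiset.mem_add.mpr (Or.inr hz)
    linarith
  have h5 := star k0 a hk h800 ha hc (S.sum + M'.sum) (S.sum + M.sum) h1 (by linarith) hle
  linarith

theorem d205 : chkG 205 0 = true := by decide +kernel
theorem d235 : chkG 235 25 = true := by decide +kernel
theorem d265 : chkG 265 50 = true := by decide +kernel
theorem d290 : chkG 290 75 = true := by decide +kernel
theorem d320 : chkG 320 100 = true := by decide +kernel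
theorem d345 : chkG 345 125 = true := by decide +kernel
theorem d375 : chkG 375 150 = true := by decide +kernel
theorem d430 : chkG 430 200 = true := by decide +kernel
theorem d485 : chkG 485 250 = true := by decide +kernel
theorem d540 : chkG 540 300 = true := by decide +kernel
theorem d650 : chkG 650 400 = true := by decide +kernel

theorem far0 : SpecFarD (41 / 10) 0 1 := by
  have h := farD 205 0 1 (by norm_num) (by norm_num) (by norm_num) (by norm_num) le_rfl (by norm_num) d205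
  norm_num at h
  exact h

theorem far25 : SpecFarD (47 / 10) (1 / 4) 1 := by
  have h := farD 235 25 1 (by norm_num) (by norm_num) (by norm_num) (by norm_num) le_rfl (by norm_num) d235
  norm_num at h
  exact h

theorem far50 : SpecFarD (53 / 10) (1 / 2) 1 := by
  have h := farD 265 50 1 (by norm_num) (by norm_num) (by norm_num) (by norm_num) le_rfl (by norm_num) d265
  norm_num at h
  exact h

theorem far75 : SpecFarD (29 / 5) (3 / 4) 1 := by
  have h := farD 290 75 1 (by norm_num) (by norm_num) (by norm_num) (by norm_num) le_rfl (by norm_num) d290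
  norm_num at h
  exact h

theorem far100 : SpecFarD (32 / 5) 1 1 := by
  have h := farD 320 100 1 (by norm_num) (by norm_num) (by norm_num) (by norm_num) le_rfl (by norm_num) d320
  norm_num at h
  exact h

theorem far125 : SpecFarD (69 / 10) (5 / 4) 1 := by
  have h := farD 345 125 1 (by norm_num) (by norm_num) (by norm_num) (by norm_num) le_rfl (by norm_num) d345
  norm_num at h
  exact h

theorem far150 : SpecFarD (15 / 2) (3 / 2) 1 := by
  have h := farD 375 150 1 (by norm_num) (by norm_num) (by norm_num) (by norm_num) le_rfl (by norm_num) d375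
  norm_num at h
  exact h

theorem far200 : SpecFarD (43 / 5) 2 1 := by
  have h := farD 430 200 1 (by norm_num) (by norm_num) (by norm_num) (by norm_num) le_rfl (by norm_num) d430
  norm_num at h
  exact h

theorem far250 : SpecFarD (97 / 10) (5 / 2) 1 := by
  have h := farD 485 250 1 (by norm_num) (by norm_num) (by norm_num) (by norm_num) le_rfl (by norm_num) d485
  norm_num at h
  exact h

theorem far300 : SpecFarD (54 / 5) 3 1 := by
  have h := farD 540 300 1 (by norm_num) (by norm_num) (by norm_num) (by norm_num) le_rfl (by norm_num) d540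
  norm_num at h
  exact h

theorem far400 : SpecFarD 13 4 1 := by
  have h := farD 650 400 1 (by norm_num) (by norm_num) (by norm_num) (by norm_num) le_rfl (by norm_num) d650
  norm_num at h
  exact h

end Far2
end Fr
end Pool.Agent.Lib.MP_6947cd_al
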