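import Pool.Agent.Lib.MP_6947cd_al.T.Frame4

/-!
Problem MP_6947cd_al (Chollet).  THE LOCAL LEMMA and the assembly of the proof.

`W : ℝ → ℝ` is the row value of Theorem S as a function of the total of the row (helper63's `What`).
In a minimal counterexample `A` (for the functional `GG`):

* `D i = G (row i) - W (tot i)`, `0 < ∑ i, D i` (`SpecW`);
* bad vertices: `0 < D i`; `y i = min 1 (D i⁺ / (1/1000))`;
* a vertex `k` with `D k ≤ 0` pays the bad vertices `i` with `3/10 ≤ b i k`;
* `rho i k = ∑ y l * b i l` over the bad vertices `l ≠ i` with `3/10 ≤ b k l`;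
* capacity (`SpecCap`): `∑ i, 3 y_i h² / (y_i (4 h - h²) + 4 rho i k) ≤ 1`, `h = b i k`;
* LOCAL LEMMA for `i` (`LLat`): `max (D i) (1/1000) ≤ ∑ k, 3 h² (- D k) / (y_i (4 h - h²) + 4 rho i k)`.
-/

set_option autoImplicit false
open scoped Matrix ComplexOrder
open Matrix Finset

namespace Pool.Agent.Lib.MP_6947cd_al
namespace Fr
namespace LL

open Ent

variable (W : ℝ → ℝ) {n : ℕ} (A : Matrix (Fin n) (Fin n) ℂ)

/-- the total of a row -/
noncomputable def tot (i : Fin n) : ℝ := ∑ j ∈ univ.erase i, row A i j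

/-- the defect of a row -/
noncomputable def D (i : Fin n) : ℝ := GG.G (Fin n) (row A i) - W (tot A i)

/-- the weight of a row -/
noncomputable def y (i : Fin n) : ℝ := min 1 (max (D W A i) 0 / (1 / 1000))

open Classical in
/-- the bad neighbours paid by `k` -/
noncomputable def bad (k : Fin n) : Finset (Fin n) :=
  univ.filter fun l => 0 < D W A l ∧ 3 / 10 ≤ row A k l

/-- the weighted sum of the bad neighbours of `i` paid by `k` -/
noncomputable def rho (i k : Fin n) : ℝ := ∑ l ∈ (bad W A k).erase i, y W A l * row A i l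

open Classical in
/-- the payers of `i` -/
noncomputable def payers (i : Fin n) : Finset (Fin n) :=
  univ.filter fun k => D W A k ≤ 0 ∧ 3 / 10 ≤ row A i k

/-- the LOCAL LEMMA at the vertex `i` -/
def LLat (i : Fin n) : Prop :=
  max (D W A i) (1 / 1000) ≤ ∑ k ∈ payers W A i,
    3 * (row A i k) ^ 2 * (-D W A k)
      / (y W A i * (4 * row A i k - (row A i k) ^ 2) + 4 * rho W A i k)

/-- Theorem S, row-only form -/
def SpecW : Prop := ∀ (n : ℕ) (A : Matrix (Fin n) (Fin n) ℂ), CEG GG A → 0 < ∑ i, D W A i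

/-- The capacity of a vertex: for arbitrary weights `y ≥ 0` on a set `P` not containing `k`. -/
def SpecCap : Prop := ∀ (n : ℕ) (A : Matrix (Fin n) (Fin n) ℂ), A.PosSemidef → (∀ i, A i i = 1) →
  ∀ (k : Fin n) (P : Finset (Fin n)) (y : Fin n → ℝ), k ∉ P → (∀ i ∈ P, 0 < y i) →
    (∀ i ∈ P, 0 < row A k i) →
    ∑ i ∈ P, 3 * y i * (row A i k) ^ 2
      / (y i * (4 * row A i k - (row A i k) ^ 2) + 4 * ∑ l ∈ P.erase i, y l * row A i l) ≤ 1

/-- The local lemma -/
def SpecLL : Prop := ∀ (n : ℕ) (A : Matrix (Fin n) (Fin n) ℂ), CEG GG A →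
  ∀ i, 0 < D W A i → LLat W A i

/-- Rows whose entries are all at most `3/10` are not bad. -/
def SpecLight : Prop := ∀ (n : ℕ) (A : Matrix (Fin n) (Fin n) ℂ), CEG GG A →
  ∀ i, (∀ j, j ≠ i → row A i j ≤ 3 / 10) → D W A i ≤ 0

/-- Case A: one entry `≥ 3/10`. -/
def SpecA : Prop := ∀ (n : ℕ) (A : Matrix (Fin n) (Fin n) ℂ), CEG GG A →
  ∀ i j, i ≠ j → 0 < D W A i → 3 / 10 ≤ row A i j →
    (∀ k, k ≠ i → k ≠ j → row A i k ≤ 3 / 10) → LLat W A i

/-- Case B: two entries `≥ 3/10`. -/
def SpecB : Prop := ∀ (n : ℕ) (A : Matrix (Fin n) (Fin n) ℂ), CEG GG A →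
  ∀ i j k, i ≠ j → i ≠ k → j ≠ k → 0 < D W A i → row A i k ≤ row A i j → 3 / 10 ≤ row A i k →
    (∀ l, l ≠ i → l ≠ j → l ≠ k → row A i l ≤ 3 / 10) → LLat W A i

/-- Case C: three entries `≥ 3/10` (`j`, `k`, `l` the largest entries of the row `i`). -/
def SpecC : Prop := ∀ (n : ℕ) (A : Matrix (Fin n) (Fin n) ℂ), CEG GG A →
  ∀ i j k l, i ≠ j → i ≠ k → i ≠ l → j ≠ k → j ≠ l → k ≠ l → 0 < D W A i →
    row A i k ≤ row A i j → row A i l ≤ row A i k → 3 / 10 ≤ row A i l →
    (∀ m, m ≠ i → m ≠ j → m ≠ k → m ≠ l → row A i m ≤ row A i l) → LLat W A i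

/-- The case distinction. -/
theorem ll_of_cases (hL : SpecLight W) (hA : SpecA W) (hB : SpecB W) (hC : SpecC W) : SpecLL W := by
  classical
  intro n A hce i hi
  -- the largest entry outside a set
  have hmax : ∀ T : Finset (Fin n), (∃ j, j ∉ T) → ∃ j, j ∉ T ∧ ∀ k, k ∉ T → row A i k ≤ row A i j := by
    rintro T ⟨j0, hj0⟩
    obtain ⟨j, hj, hm⟩ := Finset.exists_max_image Tᶜ (fun k => row A i k)
      ⟨j0, Finset.mem_compl.mpr hj0⟩
    exact ⟨j, Finset.mem_compl.mp hj, fun k hk => hm k (Finset.mem_compl.mpr hk)⟩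
  by_cases h1 : ∀ j, j ≠ i → row A i j ≤ 3 / 10
  · exact absurd (hL n A hce i h1) (not_le.mpr hi)
  · push Not at h1
    obtain ⟨j0, hj0, hj0'⟩ := h1
    obtain ⟨j, hj, hjm⟩ := hmax {i} ⟨j0, by simpa using hj0⟩
    have hji : j ≠ i := by simpa using hj
    have hjb : 3 / 10 ≤ row A i j := hj0'.le.trans (hjm j0 (by simpa using hj0))
    by_cases h2 : ∀ k, k ≠ i → k ≠ j → row A i k ≤ 3 / 10
    · exact hA n A hce i j hji.symm hi hjb h2
    · push Not at h2
      obtain ⟨k0, hk0, hk0', hk0''⟩ := h2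
      obtain ⟨k, hk, hkm⟩ := hmax {i, j} ⟨k0, by simp [hk0, hk0']⟩
      simp only [Finset.mem_insert, Finset.mem_singleton, not_or] at hk
      have hkb : 3 / 10 ≤ row A i k := hk0''.le.trans (hkm k0 (by simp [hk0, hk0']))
      have hkj : row A i k ≤ row A i j := hjm k (by simpa using hk.1)
      by_cases h3 : ∀ l, l ≠ i → l ≠ j → l ≠ k → row A i l ≤ 3 / 10
      · exact hB n A hce i j k hji.symm (Ne.symm hk.1) (Ne.symm hk.2) hi hkj hkb h3
      · push Not at h3
        obtain ⟨l0, hl0, hl0', hl0'', hl0b⟩ := h3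
        obtain ⟨l, hl, hlm⟩ := hmax {i, j, k} ⟨l0, by simp [hl0, hl0', hl0'']⟩
        simp only [Finset.mem_insert, Finset.mem_singleton, not_or] at hl
        have hlb : 3 / 10 ≤ row A i l := hl0b.le.trans (hlm l0 (by simp [hl0, hl0', hl0'']))
        have hlk : row A i l ≤ row A i k := hkm l (by simp [hl.1, hl.2.1])
        refine hC n A hce i j k l hji.symm (Ne.symm hk.1) (Ne.symm hl.1) (Ne.symm hk.2)
          (Ne.symm hl.2.1) (Ne.symm hl.2.2) hi hkj hlk hlb ?_
        intro m m1 m2 m3 _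
        exact hlm m (by simp [m1, m2, m3])

lemma y_pos {i : Fin n} (hi : 0 < D W A i) : 0 < y W A i := by
  unfold y
  have : 0 < max (D W A i) 0 := lt_max_of_lt_left hi
  exact lt_min one_pos (by positivity)

lemma y_mul {i : Fin n} (hi : 0 < D W A i) : y W A i * max (D W A i) (1 / 1000) = D W A i := by
  unfold y
  rw [max_eq_left hi.le]
  rcases le_total (D W A i) (1 / 1000) with h | h
  · rw [max_eq_right h, min_eq_right (by rw [div_le_one (by norm_num)]; exact h)]
    field_simp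
  · rw [max_eq_left h, min_eq_left (by rw [le_div_iff₀ (by norm_num)]; linarith), one_mul]

/-- THE DISCHARGING. -/
theorem no_CEG (hW : SpecW W) (hCap : SpecCap) (hLL : SpecLL W) (n : ℕ)
    (A : Matrix (Fin n) (Fin n) ℂ) : ¬ CEG GG A := by
  classical
  intro hce
  have hpos := hW n A hce
  set P : Finset (Fin n) := univ.filter fun i => 0 < D W A i with hP
  set N : Finset (Fin n) := univ.filter fun i => ¬ 0 < D W A i with hN
  rw [← Finset.sum_filter_add_sum_filter_not univ (fun i => 0 < D W A i)] at hpos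
  -- the payments
  let q : Fin n → Fin n → ℝ := fun i k => 3 * y W A i * (row A i k) ^ 2
    / (y W A i * (4 * row A i k - (row A i k) ^ 2) + 4 * rho W A i k)
  have h1 : ∀ i ∈ P, D W A i ≤ ∑ k ∈ N, if 3 / 10 ≤ row A i k then q i k * (-D W A k) else 0 := by
    intro i hi
    have hi' : 0 < D W A i := (Finset.mem_filter.mp hi).2
    have h2 := mul_le_mul_of_nonneg_left (hLL n A hce i hi') (y_pos W A hi').le
    rw [y_mul W A hi', Finset.mul_sum] at h2
    refine h2.trans (le_of_eq ?_)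
    rw [← Finset.sum_filter]
    have e : N.filter (fun k => 3 / 10 ≤ row A i k) = payers W A i := by
      unfold payers
      rw [hN, Finset.filter_filter]
      congr 1
      ext k
      simp only [not_lt]
    rw [e]
    refine Finset.sum_congr rfl fun k _ => ?_
    simp only [q]
    ring
  have h3 : ∀ k ∈ N, ∑ i ∈ P, (if 3 / 10 ≤ row A i k then q i k * (-D W A k) else 0) ≤ -D W A k := by
    intro k hk
    have hk' : D W A k ≤ 0 := not_lt.mp (Finset.mem_filter.mp hk).2
    rw [← Finset.sum_filter, ← Finset.sum_mul]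
    have e : P.filter (fun i => 3 / 10 ≤ row A i k) = bad W A k := by
      unfold bad
      rw [hP, Finset.filter_filter]
      refine Finset.filter_congr fun i _ => ?_
      rw [row_symm A hce.psd i k]
    rw [e]
    have hkP : k ∉ bad W A k := by
      unfold bad
      simp only [Finset.mem_filter, Finset.mem_univ, true_and, not_and]
      intro h
      exact absurd h (not_lt.mpr hk')
    have hy : ∀ i ∈ bad W A k, 0 < y W A i := by
      intro i hi
      unfold bad at hi
      exact y_pos W A (Finset.mem_filter.mp hi).2.1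
    have hr : ∀ i ∈ bad W A k, 0 < row A k i := by
      intro i hi
      unfold bad at hi
      have := (Finset.mem_filter.mp hi).2.2
      linarith
    have hc := hCap n A hce.psd hce.diag k (bad W A k) (y W A) hkP hy hr
    have h4 : ∑ i ∈ bad W A k, q i k ≤ 1 := hc
    have h5 := mul_le_mul_of_nonneg_right h4 (neg_nonneg.mpr hk')
    rw [one_mul] at h5
    exact h5
  have h6 : ∑ i ∈ P, D W A i ≤ ∑ k ∈ N, (-D W A k) := by
    calc ∑ i ∈ P, D W A i
        ≤ ∑ i ∈ P, ∑ k ∈ N, (if 3 / 10 ≤ row A i k then q i k * (-D W A k) else 0) :=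
          Finset.sum_le_sum h1
      _ = ∑ k ∈ N, ∑ i ∈ P, (if 3 / 10 ≤ row A i k then q i k * (-D W A k) else 0) :=
          Finset.sum_comm
      _ ≤ ∑ k ∈ N, (-D W A k) := Finset.sum_le_sum h3
  rw [Finset.sum_neg_distrib] at h6
  linarith

/-- **Chollet's conjecture from the specifications.** -/
theorem chollet_of_specs (hW : SpecW W) (hCap : SpecCap) (hL : SpecLight W) (hA : SpecA W)
    (hB : SpecB W) (hC : SpecC W) (n : ℕ) (A B : Matrix (Fin n) (Fin n) ℂ) (hAp : A.PosSemidef)
    (hBp : B.PosSemidef) : (A ⊙ B).permanent ≤ A.permanent * B.permanent :=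
  chollet_of_no_CEG GG (fun n A => no_CEG W hW hCap (ll_of_cases W hL hA hB hC) n A) n A B hAp hBp

end LL
end Fr
end Pool.Agent.Lib.MP_6947cd_al
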