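import Pool.Agent.Lib.MP_6947cd_al.T.Convex
import Pool.Agent.Lib.MP_6947cd_al.T.Schur2
import Pool.Agent.Lib.MP_6947cd_al.T.PatN

/-!
Problem MP_6947cd_al (Chollet).  The row function of a MULTISET of entries: zero entries can be dropped,
transfers, coordinate convexity, natural number certificates.
-/

set_option autoImplicit false
open Finset

namespace Pool.Agent.Lib.MP_6947cd_al
namespace Ent

variable {κ κ' : Type} [Fintype κ] [DecidableEq κ] [Fintype κ'] [DecidableEq κ']

omit [DecidableEq κ] [DecidableEq κ'] in
/-- Two rows with the same multiset of entries are the same up to a bijection. -/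
lemma exists_equiv_of_map (b : κ → ℝ) (b' : κ' → ℝ)
    (h : (Finset.univ : Finset κ).val.map b = (Finset.univ : Finset κ').val.map b') :
    ∃ e : κ ≃ κ', ∀ k, b' (e k) = b k := by
  classical
  have hc : ∀ r : ℝ, Fintype.card {k // b k = r} = Fintype.card {k // b' k = r} := by
    intro r
    have h1 := congrArg (Multiset.count r) h
    rw [Multiset.count_map, Multiset.count_map] at h1
    rw [Fintype.card_subtype, Fintype.card_subtype]
    have e1 : ∀ {α : Type} [Fintype α] (f : α → ℝ), (Finset.univ.filter fun k => f k = r).card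
        = (Multiset.filter (fun a => r = f a) (Finset.univ : Finset α).val).card := by
      intro α _ f
      rw [Finset.card_def, Finset.filter_val]
      congr 1
      exact Multiset.filter_congr fun x _ => eq_comm
    rw [e1 b, e1 b', h1]
  let E : ∀ r : ℝ, {k // b k = r} ≃ {k // b' k = r} := fun r => Fintype.equivOfCardEq (hc r)
  let e := (Equiv.sigmaFiberEquiv b).symm.trans
    ((Equiv.sigmaCongrRight fun r => (E r)).trans (Equiv.sigmaFiberEquiv b'))
  refine ⟨e, fun k => ?_⟩
  exact (E (b k) ⟨k, rfl⟩).2

/-- The row function only depends on the multiset of the entries. -/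
theorem F_congr_map (b : κ → ℝ) (b' : κ' → ℝ)
    (h : (Finset.univ : Finset κ).val.map b = (Finset.univ : Finset κ').val.map b') : F b = F b' := by
  obtain ⟨e, he⟩ := exists_equiv_of_map b b' h
  have h1 := F_emb e.toEmbedding b' (fun j hj => by
    exfalso
    exact hj ⟨e.symm j, by simp⟩)
  rw [← h1]
  congr 1
  ext k
  exact (he k).symm

/-- The row function of a multiset. -/
noncomputable def FM (s : Multiset ℝ) : ℝ := FL s.toList

lemma map_get (l : List ℝ) :
    (Finset.univ : Finset (Fin l.length)).val.map (fun k => l.get k) = (l : Multiset ℝ) := by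
  rw [Fin.univ_val_map]
  rw [List.ofFn_get]

theorem F_eq_FM (b : κ → ℝ) : F b = FM ((Finset.univ : Finset κ).val.map b) := by
  unfold FM FL
  refine F_congr_map _ _ ?_
  rw [map_get, Multiset.coe_toList]

/-- zero entries can be dropped -/
theorem FM_zero_cons (s : Multiset ℝ) : FM (0 ::ₘ s) = FM s := by
  have h1 : FM (0 ::ₘ s) = F (fun k : Option (Fin s.toList.length) =>
      k.elim 0 fun k => s.toList.get k) := by
    rw [F_eq_FM]
    congr 1
    have e1 : (Finset.univ : Finset (Option (Fin s.toList.length))).val
        = none ::ₘ ((Finset.univ : Finset (Fin s.toList.length)).val.map some) := rfl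
    rw [e1, Multiset.map_cons, Multiset.map_map]
    show (0 ::ₘ s) = (0 : ℝ) ::ₘ Multiset.map (fun k => s.toList.get k) (Finset.univ : Finset (Fin s.toList.length)).val
    rw [map_get, Multiset.coe_toList]
  rw [h1]
  have h2 := F_emb (κ := Option (Fin s.toList.length)) (κ' := Fin s.toList.length)
    (Function.Embedding.some) (fun k => k.elim 0 fun k => s.toList.get k) (by
      intro j hj
      cases j with
      | none => rfl
      | some j => exact absurd ⟨j, rfl⟩ hj)
  rw [← h2]
  rfl

theorem FM_zero_add (n : ℕ) (s : Multiset ℝ) : FM (Multiset.replicate n 0 + s) = FM s := by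
  induction n with
  | zero => simp
  | succ n ih => rw [Multiset.replicate_succ, Multiset.cons_add, FM_zero_cons, ih]

lemma FM_cons_eq (x : ℝ) (b : κ → ℝ) :
    FM (x ::ₘ (Finset.univ : Finset κ).val.map b) = F (fun k : Option κ => k.elim x b) := by
  rw [F_eq_FM]
  congr 1
  have e1 : (Finset.univ : Finset (Option κ)).val
      = none ::ₘ ((Finset.univ : Finset κ).val.map some) := rfl
  rw [e1, Multiset.map_cons, Multiset.map_map]
  rfl

/-- a row realising a multiset -/
lemma exists_row (s : Multiset ℝ) : ∃ (n : ℕ) (b : Fin n → ℝ),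
    (Finset.univ : Finset (Fin n)).val.map b = s :=
  ⟨_, fun k => s.toList.get k, by rw [map_get, Multiset.coe_toList]⟩

/-- Moving weight from the smaller entry `y` to the larger entry `x`. -/
theorem FM_transfer (s : Multiset ℝ) (h1 : 1 ∈ s) (hs : ∀ z ∈ s, 0 ≤ z ∧ z ≤ 1) (x y δ : ℝ)
    (hδ0 : 0 ≤ δ) (hδy : δ ≤ y) (hyx : y ≤ x) (hx1 : x + δ ≤ 1) :
    FM (x ::ₘ y ::ₘ s) ≤ FM ((x + δ) ::ₘ (y - δ) ::ₘ s) := by
  obtain ⟨n, b, hb⟩ := exists_row s
  have hmem : ∀ k, b k ∈ s := fun k => by
    rw [← hb]
    exact Multiset.mem_map_of_mem b (Finset.mem_univ_val k)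
  obtain ⟨i, _, hi⟩ := Multiset.mem_map.mp (by rw [hb]; exact h1 : (1 : ℝ) ∈ (Finset.univ : Finset (Fin n)).val.map b)
  have e : ∀ x y : ℝ, FM (x ::ₘ y ::ₘ s) = F (fun k : Option (Option (Fin n)) => k.elim x fun k => k.elim y b) := by
    intro x y
    rw [← FM_cons_eq x (fun k : Option (Fin n) => k.elim y b)]
    congr 2
    rw [← hb]
    have e1 : (Finset.univ : Finset (Option (Fin n))).val
        = none ::ₘ ((Finset.univ : Finset (Fin n)).val.map some) := rfl
    rw [e1, Multiset.map_cons, Multiset.map_map]
    rfl
  rw [e, e]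
  have h := F_transfer (fun k : Option (Option (Fin n)) => k.elim x fun k => k.elim y b) (by
      rintro (_ | _ | k)
      · exact hδ0.trans (hδy.trans hyx)
      · exact hδ0.trans hδy
      · exact (hs _ (hmem k)).1) (by
      rintro (_ | _ | k)
      · show x ≤ 1; linarith
      · show y ≤ 1; linarith
      · exact (hs _ (hmem k)).2) (some (some i)) none (some none) hi (by simp) (by simp) (by simp)
      δ hδ0 hδy hyx hx1
  refine h.trans (le_of_eq ?_)
  congr 1
  ext k
  rcases k with (_ | _ | k)
  · rw [Function.update_of_ne (by simp), Function.update_self]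
    rfl
  · rw [Function.update_self]
    rfl
  · rw [Function.update_of_ne (by simp), Function.update_of_ne (by simp)]
    rfl

/-- COORDINATE CONVEXITY. -/
theorem FM_convexOn (s : Multiset ℝ) (h1 : 1 ∈ s) (hs : ∀ z ∈ s, 0 ≤ z ∧ z ≤ 1) :
    ConvexOn ℝ (Set.Icc 0 1) fun t => FM (t ::ₘ s) := by
  obtain ⟨n, b, hb⟩ := exists_row s
  have hmem : ∀ k, b k ∈ s := fun k => by
    rw [← hb]
    exact Multiset.mem_map_of_mem b (Finset.mem_univ_val k)
  obtain ⟨i, _, hi⟩ := Multiset.mem_map.mp (by rw [hb]; exact h1 : (1 : ℝ) ∈ (Finset.univ : Finset (Fin n)).val.map b)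
  have h := F_convexOn (fun k : Option (Fin n) => k.elim 0 b) (by
      rintro (_ | k)
      · exact le_rfl
      · exact (hs _ (hmem k)).1) (by
      rintro (_ | k)
      · exact zero_le_one
      · exact (hs _ (hmem k)).2) (some i) none (by simp) hi
  refine h.congr fun t _ => ?_
  show F (Function.update (fun k : Option (Fin n) => k.elim 0 b) none t) = FM (t ::ₘ s)
  rw [← hb, FM_cons_eq]
  congr 1
  ext k
  rcases k with (_ | k)
  · rw [Function.update_self]
    rfl
  · rw [Function.update_of_ne (by simp)]
    rfl

/-- the multiset with `m a` copies of `v a` -/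
noncomputable def mk : List ℕ → List ℝ → Multiset ℝ
  | m :: ms, v :: vs => Multiset.replicate m v + mk ms vs
  | _, _ => 0

lemma mk_nil (vs : List ℝ) : mk [] vs = 0 := by cases vs <;> rfl
lemma mk_cons (m : ℕ) (ms : List ℕ) (v : ℝ) (vs : List ℝ) :
    mk (m :: ms) (v :: vs) = Multiset.replicate m v + mk ms vs := rfl

/-- a typed row realising `mk` -/
lemma exists_typed (m : List ℕ) : ∀ v : List ℝ, v.length = m.length →
    ∃ (n : ℕ) (b : Fin n → ℝ) (S : ℕ → Finset (Fin n)),
      (Finset.univ : Finset (Fin n)).val.map b = mk m v ∧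
      (∀ a < m.length, ∀ c < m.length, a ≠ c → Disjoint (S a) (S c)) ∧
      (∀ a < m.length, (S a).card = m.getD a 0) ∧
      (∀ k, ∃ a < m.length, k ∈ S a) ∧
      (∀ a < m.length, ∀ k ∈ S a, b k = v.getD a 0) := by
  induction m with
  | nil =>
    intro v hv
    refine ⟨0, Fin.elim0, fun _ => ∅, ?_, by simp, by simp, fun k => k.elim0, by simp⟩
    rw [mk_nil]
    rfl
  | cons n0 ms ih =>
    intro v hv
    cases v with
    | nil => simp at hv
    | cons v0 vs =>
      obtain ⟨n, b, S, h1, h2, h3, h4, h5⟩ := ih vs (by simpa using hv)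
      let S' : ℕ → Finset (Fin (n0 + n)) := fun a => match a with
        | 0 => Finset.univ.map (Fin.castAddEmb n)
        | a + 1 => (S a).map (Fin.natAddEmb n0)
      refine ⟨n0 + n, Fin.append (fun _ => v0) b, S', ?_, ?_, ?_, ?_, ?_⟩
      · rw [mk_cons, ← h1]
        rw [Fin.univ_val_map, List.ofFn_fin_append, ← Multiset.coe_add, ← Fin.univ_val_map,
          ← Fin.univ_val_map]
        congr 1
        rw [Multiset.map_const']
        simp
      · intro a ha c hc hac
        cases a with
        | zero =>
          cases c with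
          | zero => exact absurd rfl hac
          | succ c =>
            rw [Finset.disjoint_left]
            intro k hk hk'
            simp only [S', Finset.mem_map, Finset.mem_univ, true_and] at hk hk'
            obtain ⟨x, rfl⟩ := hk
            obtain ⟨y, _, hy⟩ := hk'
            have := congrArg Fin.val hy
            simp at this
            omega
        | succ a =>
          cases c with
          | zero =>
            rw [Finset.disjoint_left]
            intro k hk hk'
            simp only [S', Finset.mem_map, Finset.mem_univ, true_and] at hk hk'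
            obtain ⟨x, rfl⟩ := hk'
            obtain ⟨y, _, hy⟩ := hk
            have := congrArg Fin.val hy
            simp at this
            omega
          | succ c =>
            have := h2 a (by simpa using ha) c (by simpa using hc) (by omega)
            exact (Finset.disjoint_map _).mpr this
      · intro a ha
        cases a with
        | zero => simp [S']
        | succ a =>
          simp only [S', Finset.card_map, List.getD_cons_succ]
          exact h3 a (by simpa using ha)
      · intro k
        refine Fin.addCases (fun i => ?_) (fun i => ?_) k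
        · exact ⟨0, by simp, by simp [S']⟩
        · obtain ⟨a, ha, hk⟩ := h4 i
          refine ⟨a + 1, by simpa using ha, ?_⟩
          simp only [S', Finset.mem_map]
          exact ⟨i, hk, rfl⟩
      · intro a ha k hk
        cases a with
        | zero =>
          simp only [S', Finset.mem_map, Finset.mem_univ, true_and] at hk
          obtain ⟨x, rfl⟩ := hk
          simp
        | succ a =>
          simp only [S', Finset.mem_map] at hk
          obtain ⟨x, hx, rfl⟩ := hk
          simp only [List.getD_cons_succ, Fin.natAddEmb_apply, Fin.append_right]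
          exact h5 a (by simpa using ha) x hx

/-- Natural number certificates for multisets. -/
theorem FM_pt (m : List ℕ) (D : ℕ) (tl : List (List (ℕ × List ℕ))) (hp : patOK m D tl = true)
    (v : List (ℕ × ℕ)) (X : List ℕ) (p q : ℕ) (h : ptOK D m tl v X p q = true)
    (hlX : X.length = m.length) (hlv : v.length = m.length) (hvd : ∀ u ∈ v, 0 < u.2)
    (hne : 0 < m.getD 0 0) (hv0 : 0 < (v.getD 0 (0, 0)).1) :
    FM (mk m (v.map fun u => (u.1 : ℝ) / (u.2 : ℝ))) ≤ Real.log ((p : ℝ) / q) := by
  obtain ⟨n, b, S, h1, h2, h3, h4, h5⟩ := exists_typed m (v.map fun u => (u.1 : ℝ) / (u.2 : ℝ))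
    (by simpa using hlv)
  rw [← h1, ← F_eq_FM]
  have hv : ∀ a < m.length, (v.map fun u => (u.1 : ℝ) / (u.2 : ℝ)).getD a 0
      = ((v.getD a (0, 0)).1 : ℝ) / ((v.getD a (0, 0)).2 : ℝ) := by
    intro a ha
    have ha' : a < v.length := by omega
    rw [List.getD_eq_getElem _ _ (by simpa using ha'), List.getD_eq_getElem _ _ ha', List.getElem_map]
  have hml : 0 < m.length := by
    rcases m with _ | ⟨m0, ms⟩
    · simp at hne
    · simp
  refine pt_sound m D tl hp v X p q h hlX hlv hvd b ?_ ?_ S h2 h3 ?_ ?_
  · intro k
    obtain ⟨a, ha, hk⟩ := h4 k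
    rw [h5 a ha k hk, hv a ha]
    positivity
  · have hc := h3 0 hml
    obtain ⟨k, hk⟩ := Finset.card_pos.mp (by rw [hc]; exact hne)
    refine ⟨k, ?_⟩
    rw [h5 0 hml k hk, hv 0 hml]
    have h6 : (0 : ℝ) < ((v.getD 0 (0, 0)).1 : ℝ) := by exact_mod_cast hv0
    have h7 : (0 : ℝ) < ((v.getD 0 (0, 0)).2 : ℝ) := by
      have h8 : 0 < v.length := by omega
      rw [List.getD_eq_getElem _ _ h8]
      exact_mod_cast hvd _ (List.getElem_mem h8)
    positivity
  · intro k hk
    obtain ⟨a, ha, hk'⟩ := h4 k
    exact absurd hk' (hk a ha)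
  · intro a ha k hk
    rw [h5 a ha k hk, hv a ha]

end Ent
end Pool.Agent.Lib.MP_6947cd_al
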