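import Pool.Agent.Lib.MP_6947cd_al.L.Pay
import Pool.Agent.Lib.MP_6947cd_al.L.PairQ
import Pool.Agent.Lib.MP_6947cd_al.T.WSide
import Pool.Agent.Lib.MP_6947cd_al.L.Multi

/-!
Problem MP_6947cd_al (Chollet).  CASE A: the data of a box and what has to be proved about it.

`i` = bad vertex, `j` = its largest neighbour (the payer), `h = b_ij`; the rests are the other vertices (without
the special vertex `l`, if there is one), `S'` = sum of the rests of row `i`, `σ = b_il`.

* `PropI x`: the row inequalities of the bad row `i` (and: its rests are at most `so/200`);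
* `PropII x`: the pair inequalities for every third vertex;
* `PropCap x`: the entries of the row `j` are at most the last knots;
* `PropIII x`: the configurations of the row `j`.
-/

set_option autoImplicit false
open Finset

namespace Pool.Agent.Lib.MP_6947cd_al
namespace CA

open Ent Fr

/-- A class: weight `w / 1000` of the merging inequality, absolute linear weights `a / 1000` (rests) and
`a2 / 1000` (special vertex), row bound `rt / 10^5`, values `b` at the knots (`/ 10^5`), values `s` at the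
special knots (`/ 10^5`).  `ty = 0`: `w = 0`; `ty = 1`: additive bound of the merged row; `ty = 2`: bound `1/2`. -/
structure Cl where
  ty : ℕ
  w : ℕ
  a : ℕ
  a2 : ℤ
  rt : ℤ
  b : List ℤ
  s : List ℤ

/-- A box: `H0/200 < h ≤ H1/200` inside the block `[B0/200, B1/200]`; `slo/40 ≤ σ ≤ shi/40`, the rests are at
most `mx/40` (and at most `σ`), `S' ≤ so/200`; phase 1 for `T ≤ T1/1000`, `rz/10^5` row bound of the class zero;
knots `k/1000`, special knots `q/1000` (first one `0`; `q = []`: no special vertex). -/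
structure Box where
  H0 : ℕ
  H1 : ℕ
  B0 : ℕ
  B1 : ℕ
  slo : ℕ
  shi : ℕ
  mx : ℕ
  so : ℕ
  T1 : ℕ
  rz : ℕ
  k : List ℕ
  q : List ℕ
  cls : List Cl

/-- the piecewise linear function through `(a, v)` and the points of the lists, constant afterwards -/
noncomputable def pl : ℝ → ℝ → List ℝ → List ℝ → ℝ → ℝ
  | a, v, k :: ks, b :: bs, x => if x ≤ k then v + (b - v) / (k - a) * (x - a) else pl k b ks bs x
  | _, v, _, _, _ => v

/-- knots as real numbers -/
noncomputable def kR (l : List ℕ) : List ℝ := l.map fun k : ℕ => (k : ℝ) / 1000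
/-- values as real numbers -/
noncomputable def vR (l : List ℤ) : List ℝ := l.map fun b : ℤ => (b : ℝ) / 100000

/-- the payment function of the rests -/
noncomputable def phR (x : Box) (c : Cl) (t : ℝ) : ℝ := pl 0 0 (kR x.k) (vR c.b) t

/-- the payment function of the special vertex -/
noncomputable def psR (x : Box) (c : Cl) (t : ℝ) : ℝ :=
  pl 0 ((c.s.headD 0 : ℤ) / 100000) (kR x.q.tail) (vR c.s.tail) t

/-- the row inequality of a class, `S` = sum of the rests -/
def IneqI (x : Box) (w a a2 rt : ℝ) (D Fb h S σ : ℝ) : Prop :=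
  (D * (4 * h - h ^ 2) + 4 * (S + σ) * max D (1 / 1000)) / (3 * h ^ 2) + w * Fb + a * S
    + a2 * (σ - (x.slo : ℝ) / 40) ≤ rt

/-- (I) without special vertex -/
def PropI0 (x : Box) : Prop :=
  ∀ (κ : Type) [Fintype κ] [DecidableEq κ] (b : κ → ℝ), (∀ c, 0 ≤ b c) → (∀ c, b c ≤ 1) →
    ∀ i j : κ, i ≠ j → b i = 1 → (x.H0 : ℝ) / 200 < b j → b j ≤ (x.H1 : ℝ) / 200 →
    (∀ c, c ≠ i → c ≠ j → b c ≤ (x.mx : ℝ) / 40) →
    ∀ S D : ℝ, S = ∑ c ∈ ({i, j} : Finset κ)ᶜ, b c → D = F b - What (b j + S) → 0 < D →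
      (∀ c, c ≠ i → c ≠ j → b c ≤ (x.so : ℝ) / 200) ∧
      IneqI x 0 0 0 ((x.rz : ℝ) / 100000) D (F b) (b j) S 0 ∧
      ∀ c ∈ x.cls, IneqI x ((c.w : ℝ) / 1000) ((c.a : ℝ) / 1000) 0 ((c.rt : ℝ) / 100000) D (F b) (b j) S 0

/-- (I) with the special vertex `l` -/
def PropI1 (x : Box) : Prop :=
  ∀ (κ : Type) [Fintype κ] [DecidableEq κ] (b : κ → ℝ), (∀ c, 0 ≤ b c) → (∀ c, b c ≤ 1) →
    ∀ i j l : κ, i ≠ j → i ≠ l → j ≠ l → b i = 1 → (x.H0 : ℝ) / 200 < b j → b j ≤ (x.H1 : ℝ) / 200 →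
    (x.slo : ℝ) / 40 ≤ b l → b l ≤ (x.shi : ℝ) / 40 → (∀ c, c ≠ i → c ≠ j → c ≠ l → b c ≤ b l) →
    ∀ S D : ℝ, S = ∑ c ∈ ({i, j, l} : Finset κ)ᶜ, b c → D = F b - What (b j + b l + S) → 0 < D →
      (∀ c, c ≠ i → c ≠ j → c ≠ l → b c ≤ (x.so : ℝ) / 200) ∧
      IneqI x 0 0 0 ((x.rz : ℝ) / 100000) D (F b) (b j) S (b l) ∧
      ∀ c ∈ x.cls, IneqI x ((c.w : ℝ) / 1000) ((c.a : ℝ) / 1000) ((c.a2 : ℝ) / 1000)
        ((c.rt : ℝ) / 100000) D (F b) (b j) S (b l)

/-- (I) -/
def PropI (x : Box) : Prop := (x.q = [] → PropI0 x) ∧ (x.q ≠ [] → PropI1 x)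

/-- the cost of a third vertex -/
noncomputable def cost (c : Cl) (s t u : ℝ) : ℝ :=
  (c.w : ℝ) / 1000 * (omg s + omg t - omg (min u (max s t))
    - if c.ty = 1 then gtr (3 / 20) (9 / 20) u else 0)

/-- (II): the pair inequalities, for the rests and for the special vertex -/
def PropII (x : Box) : Prop :=
  ∀ c ∈ x.cls, ∀ h s t e u : ℝ, (x.H0 : ℝ) / 200 ≤ h → h ≤ (x.H1 : ℝ) / 200 → PQ.Geo h s t e u →
    (s ≤ (x.so : ℝ) / 200 → t ≤ ((x.k.getLastD 0 : ℕ) : ℝ) / 1000 →
      cost c s t u - (c.a : ℝ) / 1000 * s ≤ phR x c t) ∧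
    (x.q ≠ [] → (x.slo : ℝ) / 40 ≤ s → s ≤ (x.shi : ℝ) / 40 → t ≤ ((x.q.getLastD 0 : ℕ) : ℝ) / 1000 →
      cost c s t u - (c.a2 : ℝ) / 1000 * (s - (x.slo : ℝ) / 40) ≤ psR x c t)

/-- the geometry: the entries of the row `j` are bounded by the last knots -/
def PropCap (x : Box) : Prop :=
  ∀ h s t e u : ℝ, (x.H0 : ℝ) / 200 ≤ h → h ≤ (x.H1 : ℝ) / 200 → PQ.Geo h s t e u →
    (s ≤ (x.so : ℝ) / 200 → t ≤ ((x.k.getLastD 0 : ℕ) : ℝ) / 1000) ∧
    (x.q ≠ [] → (x.slo : ℝ) / 40 ≤ s → s ≤ (x.shi : ℝ) / 40 → t ≤ ((x.q.getLastD 0 : ℕ) : ℝ) / 1000)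

/-- the total of a class at a configuration of the row `j`: `g` = value of the functional on the row `j`,
`tl` = entry at the special vertex (`0` if there is none), `M` = the other entries -/
noncomputable def ValC (x : Box) (c : Cl) (g h tl : ℝ) (M : Multiset ℝ) : ℝ :=
  (1 + (c.w : ℝ) / 1000) * g - What (h + tl + M.sum) + (M.map (phR x c)).sum
    + (if x.q = [] then 0 else psR x c tl) + (c.rt : ℝ) / 100000
    + (c.w : ℝ) / 1000 * ((if c.ty = 1 then 6 / 125 else -(1 / 2)) - 2 * Real.log (1 + h))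

/-- (III): the rows `j`. The last alternative: for both types of the bound of the merged row there is a
class with nonpositive total. -/
def PropIII (x : Box) : Prop :=
  ∀ (h tl g : ℝ) (M : Multiset ℝ), (x.H0 : ℝ) / 200 ≤ h → h ≤ (x.H1 : ℝ) / 200 →
    (∀ t ∈ M, 0 ≤ t ∧ t ≤ ((x.k.getLastD 0 : ℕ) : ℝ) / 1000) →
    0 ≤ tl → tl ≤ ((x.q.getLastD 0 : ℕ) : ℝ) / 1000 →
    (g = FM (1 ::ₘ h ::ₘ tl ::ₘ M) ∨
      g ≤ min (gtr (3 / 20) (9 / 20) h + gtr (3 / 20) (9 / 20) tl
        + (M.map (gtr (3 / 20) (9 / 20))).sum - 6 / 125) (1 / 2)) →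
    g - What (h + tl + M.sum) + (x.rz : ℝ) / 100000 ≤ 0 ∨
    ∀ τ : ℕ, τ = 1 ∨ τ = 2 → ∃ c ∈ x.cls, (c.ty = 0 ∧ c.w = 0 ∨ c.ty = τ) ∧ ValC x c g h tl M ≤ 0

/-! ### the function `pl` -/

lemma pl_cons (a v k b : ℝ) (ks bs : List ℝ) (x : ℝ) :
    pl a v (k :: ks) (b :: bs) x = if x ≤ k then v + (b - v) / (k - a) * (x - a) else pl k b ks bs x := rfl

lemma pl_nil (a v : ℝ) (bs : List ℝ) (x : ℝ) : pl a v [] bs x = v := by
  cases bs <;> rfl

/-- a bound on every piece gives a bound everywhere -/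
theorem le_pl (f : ℝ → ℝ) (ks : List ℝ) : ∀ (a v : ℝ) (bs : List ℝ) (x : ℝ), ks.length = bs.length →
    ks ≠ [] → a ≤ x → x ≤ ks.getLastD a →
    (∀ p < ks.length, ∀ y, (a :: ks).getD p 0 ≤ y → y ≤ ks.getD p 0 →
      f y ≤ (v :: bs).getD p 0 + (bs.getD p 0 - (v :: bs).getD p 0)
        / (ks.getD p 0 - (a :: ks).getD p 0) * (y - (a :: ks).getD p 0)) →
    f x ≤ pl a v ks bs x := by
  induction ks with
  | nil => intro a v bs x _ h; exact absurd rfl h
  | cons k ks ih =>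
    intro a v bs x hl _ hax hx hp
    cases bs with
    | nil => simp at hl
    | cons b bs =>
      rw [pl_cons]
      split_ifs with h
      · have := hp 0 (by simp) x (by simpa using hax) (by simpa using h)
        simpa using this
      · have h' : k < x := not_le.mp h
        have hne : ks ≠ [] := by
          rintro rfl
          simp only [List.getLastD_cons, List.getLastD_nil] at hx
          linarith
        refine ih k b bs x (by simpa using hl) hne h'.le ?_ ?_
        · rw [List.getLastD_cons] at hx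
          exact hx
        · intro p hp' y h1 h2
          have := hp (p + 1) (by simpa using hp') y (by simpa using h1) (by simpa using h2)
          simpa using this

end CA
end Pool.Agent.Lib.MP_6947cd_al
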