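import Pool.Agent.Lib.MP_6947cd_al.L.BoxA

/-!
Problem MP_6947cd_al (Chollet).  CASE B with one payer: second entry `σ = b_ik` (the special vertex) above `3/10`,
all rests at most `mx/40`.  The data and what has to be proved about them.

New compared with case A: classes of type `3`, where the functional of the merged row is bounded from below by
`FM (1 ::ₘ lowUs tl ::ₘ M.map lowU)`, `lowU`, `lowUs` = lower bounds of the merged entries.
-/

set_option autoImplicit false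
open Finset

namespace Pool.Agent.Lib.MP_6947cd_al
namespace CB

open Ent Fr CA

/-- A box together with the values (`/ 1000`) of the lower bounds of the merged entries at the knots
(`u`: at the knots `k`; `us`: at the special knots `q`). -/
structure BoxB where
  x : Box
  u : List ℕ
  us : List ℕ

/-- the piecewise linear function through `(a, v)` and the points of the lists, zero on the pieces which start
with the value zero -/
noncomputable def plz : ℝ → ℝ → List ℝ → List ℝ → ℝ → ℝ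
  | a, v, k :: ks, b :: bs, x => if x ≤ k then (if v = 0 then 0 else v + (b - v) / (k - a) * (x - a))
      else plz k b ks bs x
  | _, v, _, _, _ => v

lemma plz_cons (a v k b : ℝ) (ks bs : List ℝ) (x : ℝ) :
    plz a v (k :: ks) (b :: bs) x = if x ≤ k then (if v = 0 then 0 else v + (b - v) / (k - a) * (x - a))
      else plz k b ks bs x := rfl

lemma plz_nil (a v : ℝ) (bs : List ℝ) (x : ℝ) : plz a v [] bs x = v := by
  cases bs <;> rfl

/-- lower bound of the merged entry of a rest -/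
noncomputable def lowU (y : BoxB) (t : ℝ) : ℝ := plz 0 0 (kR y.x.k) (kR y.u) t

/-- lower bound of the merged entry of the special vertex -/
noncomputable def lowUs (y : BoxB) (t : ℝ) : ℝ :=
  plz 0 (((y.us.headD 0 : ℕ) : ℝ) / 1000) (kR y.x.q.tail) (kR y.us.tail) t

/-- (I): the rests are at most `mx/40` -/
def PropIB (x : Box) : Prop :=
  ∀ (κ : Type) [Fintype κ] [DecidableEq κ] (b : κ → ℝ), (∀ c, 0 ≤ b c) → (∀ c, b c ≤ 1) →
    ∀ i j l : κ, i ≠ j → i ≠ l → j ≠ l → b i = 1 → (x.H0 : ℝ) / 200 < b j → b j ≤ (x.H1 : ℝ) / 200 →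
    (x.slo : ℝ) / 40 ≤ b l → b l ≤ (x.shi : ℝ) / 40 → b l ≤ b j →
    (∀ c, c ≠ i → c ≠ j → c ≠ l → b c ≤ (x.mx : ℝ) / 40) →
    ∀ S D : ℝ, S = ∑ c ∈ ({i, j, l} : Finset κ)ᶜ, b c → D = F b - What (b j + b l + S) → 0 < D →
      (∀ c, c ≠ i → c ≠ j → c ≠ l → b c ≤ (x.so : ℝ) / 200) ∧
      IneqI x 0 0 0 ((x.rz : ℝ) / 100000) D (F b) (b j) S (b l) ∧
      ∀ c ∈ x.cls, IneqI x ((c.w : ℝ) / 1000) ((c.a : ℝ) / 1000) ((c.a2 : ℝ) / 1000)
        ((c.rt : ℝ) / 100000) D (F b) (b j) S (b l)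

/-- the lower bounds of the merged entries -/
def PropU (y : BoxB) : Prop :=
  ∀ h s t e v : ℝ, (y.x.H0 : ℝ) / 200 ≤ h → h ≤ (y.x.H1 : ℝ) / 200 → PQ.Geo h s t e v →
    (s ≤ (y.x.so : ℝ) / 200 → t ≤ ((y.x.k.getLastD 0 : ℕ) : ℝ) / 1000 → lowU y t ≤ v) ∧
    ((y.x.slo : ℝ) / 40 ≤ s → s ≤ (y.x.shi : ℝ) / 40 → t ≤ ((y.x.q.getLastD 0 : ℕ) : ℝ) / 1000 →
      lowUs y t ≤ v)

/-- the total of a class of type `3` -/
noncomputable def ValU (y : BoxB) (c : Cl) (g h tl : ℝ) (M : Multiset ℝ) : ℝ :=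
  (1 + (c.w : ℝ) / 1000) * g - What (h + tl + M.sum) + (M.map (phR y.x c)).sum
    + psR y.x c tl + (c.rt : ℝ) / 100000
    + (c.w : ℝ) / 1000 * (-FM (1 ::ₘ lowUs y tl ::ₘ M.map (lowU y)) - 2 * Real.log (1 + h))

/-- (III): the rows `j`. -/
def PropIIIB (y : BoxB) : Prop :=
  ∀ (h tl g : ℝ) (M : Multiset ℝ), (y.x.H0 : ℝ) / 200 ≤ h → h ≤ (y.x.H1 : ℝ) / 200 →
    (∀ t ∈ M, 0 ≤ t ∧ t ≤ ((y.x.k.getLastD 0 : ℕ) : ℝ) / 1000) →
    0 ≤ tl → tl ≤ ((y.x.q.getLastD 0 : ℕ) : ℝ) / 1000 →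
    (g = FM (1 ::ₘ h ::ₘ tl ::ₘ M) ∨
      (g ≤ min (gtr (3 / 20) (9 / 20) h + gtr (3 / 20) (9 / 20) tl
        + (M.map (gtr (3 / 20) (9 / 20))).sum - 6 / 125) (1 / 2) ∧ g ≤ What (h + tl + M.sum))) →
    g - What (h + tl + M.sum) + (y.x.rz : ℝ) / 100000 ≤ 0 ∨
    ∀ τ : ℕ, τ = 1 ∨ τ = 2 → ∃ c ∈ y.x.cls,
      ((c.ty = 0 ∧ c.w = 0 ∨ c.ty = τ) ∧ ValC y.x c g h tl M ≤ 0) ∨ (c.ty = 3 ∧ ValU y c g h tl M ≤ 0)

/-- rows with second entry in `[lo, hi]`, largest entry at most `h1` and rests at most `3/10` are not bad -/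
def EmptyB (h1 lo hi : ℝ) : Prop :=
  ∀ (κ : Type) [Fintype κ] [DecidableEq κ] (b : κ → ℝ), (∀ c, 0 ≤ b c) → (∀ c, b c ≤ 1) →
    ∀ i j l : κ, i ≠ j → i ≠ l → j ≠ l → b i = 1 → b l ≤ b j → b j ≤ h1 → lo ≤ b l → b l ≤ hi →
    (∀ c, c ≠ i → c ≠ j → c ≠ l → b c ≤ 3 / 10) →
    F b ≤ What (b j + b l + ∑ c ∈ ({i, j, l} : Finset κ)ᶜ, b c)

/-- the parameters of a list of boxes with second entry in `[s0/40, s1/40]` -/
def parB (s0 s1 : ℕ) (y : BoxB) : Bool :=
  !y.x.q.isEmpty && (Nat.beq y.x.slo s0 && (Nat.beq y.x.shi s1 && Nat.beq y.x.mx 12))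

/-- strictly increasing knots above `a` -/
def incr : ℕ → List ℕ → Bool
  | _, [] => true
  | a, k :: ks => Nat.ble (a + 1) k && incr k ks

/-- the knots of the lower bounds -/
def knOK (y : BoxB) : Bool :=
  incr 0 y.x.k && (incr 0 y.x.q.tail &&
    (Nat.beq y.x.k.length y.u.length && Nat.beq y.x.q.tail.length y.us.tail.length))

lemma kR_cons (k : ℕ) (ks : List ℕ) : kR (k :: ks) = ((k : ℝ) / 1000) :: kR ks := rfl

lemma plz_nonneg (ks : List ℕ) : ∀ (a v : ℕ) (bs : List ℕ) (x : ℝ), incr a ks = true →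
    (a : ℝ) / 1000 ≤ x → 0 ≤ plz ((a : ℝ) / 1000) ((v : ℝ) / 1000) (kR ks) (kR bs) x := by
  induction ks with
  | nil =>
    intro a v bs x _ _
    have h1 : kR [] = [] := rfl
    rw [h1, plz_nil]
    positivity
  | cons k ks ih =>
    intro a v bs x h hx
    unfold incr at h
    rw [Bool.and_eq_true, Nat.ble_eq] at h
    have hk : (a : ℝ) + 1 ≤ k := by exact_mod_cast h.1
    cases bs with
    | nil =>
      have : plz ((a : ℝ) / 1000) ((v : ℝ) / 1000) (kR (k :: ks)) (kR []) x = (v : ℝ) / 1000 := by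
        rw [kR_cons]
        rfl
      rw [this]
      positivity
    | cons b bs =>
      rw [kR_cons, kR_cons, plz_cons]
      split_ifs with h2 h4
      · exact le_rfl
      · have e : (v : ℝ) / 1000 + ((b : ℝ) / 1000 - (v : ℝ) / 1000)
            / ((k : ℝ) / 1000 - (a : ℝ) / 1000) * (x - (a : ℝ) / 1000)
            = ((v : ℝ) / 1000 * ((k : ℝ) / 1000 - x) + (b : ℝ) / 1000 * (x - (a : ℝ) / 1000))
              / ((k : ℝ) / 1000 - (a : ℝ) / 1000) := by
          have hd : (k : ℝ) / 1000 - (a : ℝ) / 1000 ≠ 0 := by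
            have : 0 < (k : ℝ) / 1000 - (a : ℝ) / 1000 := by linarith
            exact this.ne'
          generalize (k : ℝ) / 1000 = K at hd ⊢
          generalize (a : ℝ) / 1000 = A' at hd ⊢
          generalize (v : ℝ) / 1000 = V
          generalize (b : ℝ) / 1000 = B
          rw [eq_div_iff hd, add_mul, div_mul_eq_mul_div, div_mul_cancel₀ _ hd]
          ring
        rw [e]
        have h3 : 0 ≤ (k : ℝ) / 1000 - x := by linarith
        have h4 : 0 ≤ x - (a : ℝ) / 1000 := by linarith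
        have h5 : 0 ≤ (k : ℝ) / 1000 - (a : ℝ) / 1000 := by linarith
        positivity
      · exact ih k b bs x h.2 (by linarith)

lemma lowU_nonneg (y : BoxB) (h : knOK y = true) (t : ℝ) (ht : 0 ≤ t) : 0 ≤ lowU y t := by
  unfold knOK at h
  rw [Bool.and_eq_true] at h
  have := plz_nonneg y.x.k 0 0 y.u t h.1 (by simpa using ht)
  simpa [lowU] using this

lemma lowUs_nonneg (y : BoxB) (h : knOK y = true) (t : ℝ) (ht : 0 ≤ t) : 0 ≤ lowUs y t := by
  unfold knOK at h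
  rw [Bool.and_eq_true, Bool.and_eq_true] at h
  have := plz_nonneg y.x.q.tail 0 (y.us.headD 0) y.us.tail t h.2.1 (by simpa using ht)
  simpa [lowUs] using this

end CB
end Pool.Agent.Lib.MP_6947cd_al
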