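import Pool.Agent.Lib.MP_6947cd_al.L.BoxA

/-!
Problem MP_6947cd_al (Chollet).  CASE A: the boxes (generated). `A`: rests `≤ 1/5`; `P`: second entry in
`[1/5, 1/4]`; `Q`: second entry in `[1/4, 3/10]`; `T`: `h > 21/25`.
-/

set_option autoImplicit false

namespace Pool.Agent.Lib.MP_6947cd_al
namespace CA

def xA0 : Box := ⟨(nat_lit 63), (nat_lit 64), (nat_lit 62), (nat_lit 64), (nat_lit 0), (nat_lit 0), (nat_lit 8), (nat_lit 1), (nat_lit 2247), (nat_lit 143), [(nat_lit 690), (nat_lit 719), (nat_lit 749)], [],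
  [⟨(nat_lit 1), (nat_lit 3000), (nat_lit 5408), (Int.ofNat (nat_lit 0)), (Int.ofNat (nat_lit 16311)), [(Int.negSucc (nat_lit 9967)), (Int.negSucc (nat_lit 10384)), (Int.negSucc (nat_lit 11558))], []⟩,
    ⟨(nat_lit 0), (nat_lit 0), (nat_lit 153), (Int.ofNat (nat_lit 0)), (Int.ofNat (nat_lit 143)), [(Int.ofNat (nat_lit 104)), (Int.ofNat (nat_lit 45)), (Int.negSucc (nat_lit 47))], []⟩,
    ⟨(nat_lit 1), (nat_lit 191), (nat_lit 1605), (Int.ofNat (nat_lit 0)), (Int.ofNat (nat_lit 1337)), [(Int.negSucc (nat_lit 555)), (Int.negSucc (nat_lit 819)), (Int.negSucc (nat_lit 1264))], []⟩,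
    ⟨(nat_lit 2), (nat_lit 114), (nat_lit 57), (Int.ofNat (nat_lit 0)), (Int.ofNat (nat_lit 698)), [(Int.ofNat (nat_lit 1278)), (Int.ofNat (nat_lit 1150)), (Int.ofNat (nat_lit 1255))], []⟩]⟩
def xA1 : Box := ⟨(nat_lit 64), (nat_lit 65), (nat_lit 64), (nat_lit 66), (nat_lit 0), (nat_lit 0), (nat_lit 8), (nat_lit 1), (nat_lit 2295), (nat_lit 288), [(nat_lit 680), (nat_lit 735), (nat_lit 765)], [],
  [⟨(nat_lit 1), (nat_lit 3000), (nat_lit 7250), (Int.ofNat (nat_lit 0)), (Int.ofNat (nat_lit 18601)), [(Int.negSucc (nat_lit 9962)), (Int.negSucc (nat_lit 10771)), (Int.negSucc (nat_lit 17470))], []⟩,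
    ⟨(nat_lit 0), (nat_lit 0), (nat_lit 153), (Int.ofNat (nat_lit 0)), (Int.ofNat (nat_lit 288)), [(Int.ofNat (nat_lit 103)), (Int.ofNat (nat_lit 11)), (Int.negSucc (nat_lit 230))], []⟩,
    ⟨(nat_lit 1), (nat_lit 202), (nat_lit 1173), (Int.ofNat (nat_lit 0)), (Int.ofNat (nat_lit 1571)), [(Int.negSucc (nat_lit 484)), (Int.negSucc (nat_lit 1000)), (Int.negSucc (nat_lit 1624))], []⟩,
    ⟨(nat_lit 2), (nat_lit 114), (nat_lit 57), (Int.ofNat (nat_lit 0)), (Int.ofNat (nat_lit 860)), [(Int.ofNat (nat_lit 1269)), (Int.ofNat (nat_lit 1151)), (Int.ofNat (nat_lit 1092))], []⟩]⟩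
def xA2 : Box := ⟨(nat_lit 65), (nat_lit 66), (nat_lit 64), (nat_lit 66), (nat_lit 0), (nat_lit 0), (nat_lit 8), (nat_lit 2), (nat_lit 2295), (nat_lit 428), [(nat_lit 680), (nat_lit 735), (nat_lit 765)], [],
  [⟨(nat_lit 1), (nat_lit 3000), (nat_lit 6793), (Int.ofNat (nat_lit 0)), (Int.ofNat (nat_lit 20683)), [(Int.negSucc (nat_lit 9332)), (Int.negSucc (nat_lit 11236)), (Int.negSucc (nat_lit 15330))], []⟩,
    ⟨(nat_lit 0), (nat_lit 0), (nat_lit 153), (Int.ofNat (nat_lit 0)), (Int.ofNat (nat_lit 428)), [(Int.ofNat (nat_lit 103)), (Int.ofNat (nat_lit 0)), (Int.negSucc (nat_lit 124))], []⟩,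
    ⟨(nat_lit 1), (nat_lit 202), (nat_lit 917), (Int.ofNat (nat_lit 0)), (Int.ofNat (nat_lit 1707)), [(Int.negSucc (nat_lit 482)), (Int.negSucc (nat_lit 987)), (Int.negSucc (nat_lit 1431))], []⟩,
    ⟨(nat_lit 2), (nat_lit 114), (nat_lit 57), (Int.ofNat (nat_lit 0)), (Int.ofNat (nat_lit 1017)), [(Int.ofNat (nat_lit 1278)), (Int.ofNat (nat_lit 1151)), (Int.ofNat (nat_lit 1248))], []⟩]⟩
def xA3 : Box := ⟨(nat_lit 66), (nat_lit 67), (nat_lit 66), (nat_lit 68), (nat_lit 0), (nat_lit 0), (nat_lit 8), (nat_lit 2), (nat_lit 2325), (nat_lit 577), [(nat_lit 670), (nat_lit 745), (nat_lit 775)], [],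
  [⟨(nat_lit 1), (nat_lit 3000), (nat_lit 5578), (Int.ofNat (nat_lit 0)), (Int.ofNat (nat_lit 21532)), [(Int.negSucc (nat_lit 8286)), (Int.negSucc (nat_lit 12011)), (Int.negSucc (nat_lit 15290))], []⟩,
    ⟨(nat_lit 0), (nat_lit 0), (nat_lit 173), (Int.ofNat (nat_lit 0)), (Int.ofNat (nat_lit 577)), [(Int.ofNat (nat_lit 237)), (Int.ofNat (nat_lit 159)), (Int.negSucc (nat_lit 363))], []⟩,
    ⟨(nat_lit 1), (nat_lit 209), (nat_lit 788), (Int.ofNat (nat_lit 0)), (Int.ofNat (nat_lit 1896)), [(Int.negSucc (nat_lit 398)), (Int.negSucc (nat_lit 1110)), (Int.negSucc (nat_lit 1569))], []⟩,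
    ⟨(nat_lit 2), (nat_lit 210), (nat_lit 105), (Int.ofNat (nat_lit 0)), (Int.ofNat (nat_lit 1694)), [(Int.ofNat (nat_lit 2079)), (Int.ofNat (nat_lit 2249)), (Int.ofNat (nat_lit 1710))], []⟩]⟩
def xA4 : Box := ⟨(nat_lit 67), (nat_lit 68), (nat_lit 66), (nat_lit 68), (nat_lit 0), (nat_lit 0), (nat_lit 8), (nat_lit 3), (nat_lit 2325), (nat_lit 721), [(nat_lit 670), (nat_lit 745), (nat_lit 775)], [],
  [⟨(nat_lit 1), (nat_lit 3000), (nat_lit 5017), (Int.ofNat (nat_lit 0)), (Int.ofNat (nat_lit 23083)), [(Int.negSucc (nat_lit 7539)), (Int.negSucc (nat_lit 12500)), (Int.negSucc (nat_lit 14491))], []⟩,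
    ⟨(nat_lit 0), (nat_lit 0), (nat_lit 182), (Int.ofNat (nat_lit 0)), (Int.ofNat (nat_lit 721)), [(Int.ofNat (nat_lit 214)), (Int.ofNat (nat_lit 137)), (Int.negSucc (nat_lit 149))], []⟩,
    ⟨(nat_lit 1), (nat_lit 209), (nat_lit 687), (Int.ofNat (nat_lit 0)), (Int.ofNat (nat_lit 2014)), [(Int.negSucc (nat_lit 398)), (Int.negSucc (nat_lit 1109)), (Int.negSucc (nat_lit 1563))], []⟩,
    ⟨(nat_lit 2), (nat_lit 196), (nat_lit 95), (Int.ofNat (nat_lit 0)), (Int.ofNat (nat_lit 1793)), [(Int.ofNat (nat_lit 1956)), (Int.ofNat (nat_lit 2119)), (Int.ofNat (nat_lit 1835))], []⟩]⟩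
def xA5 : Box := ⟨(nat_lit 68), (nat_lit 69), (nat_lit 68), (nat_lit 70), (nat_lit 0), (nat_lit 0), (nat_lit 8), (nat_lit 3), (nat_lit 2346), (nat_lit 871), [(nat_lit 660), (nat_lit 752), (nat_lit 782)], [],
  [⟨(nat_lit 1), (nat_lit 3000), (nat_lit 4677), (Int.ofNat (nat_lit 0)), (Int.ofNat (nat_lit 24125)), [(Int.negSucc (nat_lit 6792)), (Int.negSucc (nat_lit 13070)), (Int.negSucc (nat_lit 15690))], []⟩,
    ⟨(nat_lit 0), (nat_lit 0), (nat_lit 144), (Int.ofNat (nat_lit 0)), (Int.ofNat (nat_lit 871)), [(Int.ofNat (nat_lit 213)), (Int.negSucc (nat_lit 110)), (Int.negSucc (nat_lit 151))], []⟩,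
    ⟨(nat_lit 1), (nat_lit 215), (nat_lit 644), (Int.ofNat (nat_lit 0)), (Int.ofNat (nat_lit 2215)), [(Int.negSucc (nat_lit 332)), (Int.negSucc (nat_lit 1216)), (Int.negSucc (nat_lit 1742))], []⟩,
    ⟨(nat_lit 2), (nat_lit 196), (nat_lit 95), (Int.ofNat (nat_lit 0)), (Int.ofNat (nat_lit 1973)), [(Int.ofNat (nat_lit 1938)), (Int.ofNat (nat_lit 2114)), (Int.ofNat (nat_lit 1659))], []⟩]⟩
def xA6 : Box := ⟨(nat_lit 69), (nat_lit 70), (nat_lit 68), (nat_lit 70), (nat_lit 0), (nat_lit 0), (nat_lit 8), (nat_lit 4), (nat_lit 2346), (nat_lit 1016), [(nat_lit 660), (nat_lit 752), (nat_lit 782)], [],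
  [⟨(nat_lit 1), (nat_lit 3000), (nat_lit 4217), (Int.ofNat (nat_lit 0)), (Int.ofNat (nat_lit 25233)), [(Int.negSucc (nat_lit 6047)), (Int.negSucc (nat_lit 13009)), (Int.negSucc (nat_lit 15560))], []⟩,
    ⟨(nat_lit 0), (nat_lit 0), (nat_lit 144), (Int.ofNat (nat_lit 0)), (Int.ofNat (nat_lit 1016)), [(Int.ofNat (nat_lit 213)), (Int.negSucc (nat_lit 126)), (Int.negSucc (nat_lit 162))], []⟩,
    ⟨(nat_lit 1), (nat_lit 217), (nat_lit 577), (Int.ofNat (nat_lit 0)), (Int.ofNat (nat_lit 2326)), [(Int.negSucc (nat_lit 348)), (Int.negSucc (nat_lit 1218)), (Int.negSucc (nat_lit 1676))], []⟩,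
    ⟨(nat_lit 2), (nat_lit 196), (nat_lit 95), (Int.ofNat (nat_lit 0)), (Int.ofNat (nat_lit 2148)), [(Int.ofNat (nat_lit 1948)), (Int.ofNat (nat_lit 2113)), (Int.ofNat (nat_lit 1819))], []⟩]⟩
def xA7 : Box := ⟨(nat_lit 70), (nat_lit 71), (nat_lit 70), (nat_lit 72), (nat_lit 0), (nat_lit 0), (nat_lit 8), (nat_lit 5), (nat_lit 3168), (nat_lit 1168), [(nat_lit 650), (nat_lit 762), (nat_lit 792)], [],
  [⟨(nat_lit 1), (nat_lit 3000), (nat_lit 3668), (Int.ofNat (nat_lit 0)), (Int.ofNat (nat_lit 25786)), [(Int.negSucc (nat_lit 5083)), (Int.negSucc (nat_lit 13449)), (Int.negSucc (nat_lit 16293))], []⟩,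
    ⟨(nat_lit 0), (nat_lit 0), (nat_lit 144), (Int.ofNat (nat_lit 0)), (Int.ofNat (nat_lit 1168)), [(Int.ofNat (nat_lit 213)), (Int.negSucc (nat_lit 180)), (Int.negSucc (nat_lit 236))], []⟩,
    ⟨(nat_lit 1), (nat_lit 224), (nat_lit 562), (Int.ofNat (nat_lit 0)), (Int.ofNat (nat_lit 2553)), [(Int.negSucc (nat_lit 277)), (Int.negSucc (nat_lit 1373)), (Int.negSucc (nat_lit 1943))], []⟩,
    ⟨(nat_lit 2), (nat_lit 196), (nat_lit 95), (Int.ofNat (nat_lit 0)), (Int.ofNat (nat_lit 2331)), [(Int.ofNat (nat_lit 1928)), (Int.ofNat (nat_lit 2104)), (Int.ofNat (nat_lit 1791))], []⟩]⟩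
def xA8 : Box := ⟨(nat_lit 71), (nat_lit 72), (nat_lit 70), (nat_lit 72), (nat_lit 0), (nat_lit 0), (nat_lit 8), (nat_lit 5), (nat_lit 3168), (nat_lit 1315), [(nat_lit 650), (nat_lit 762), (nat_lit 792)], [],
  [⟨(nat_lit 1), (nat_lit 2999), (nat_lit 3517), (Int.ofNat (nat_lit 0)), (Int.ofNat (nat_lit 27104)), [(Int.negSucc (nat_lit 4518)), (Int.negSucc (nat_lit 13536)), (Int.negSucc (nat_lit 16269))], []⟩,
    ⟨(nat_lit 0), (nat_lit 0), (nat_lit 156), (Int.ofNat (nat_lit 0)), (Int.ofNat (nat_lit 1315)), [(Int.ofNat (nat_lit 213)), (Int.negSucc (nat_lit 207)), (Int.negSucc (nat_lit 297))], []⟩,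
    ⟨(nat_lit 1), (nat_lit 227), (nat_lit 539), (Int.ofNat (nat_lit 0)), (Int.ofNat (nat_lit 2729)), [(Int.negSucc (nat_lit 309)), (Int.negSucc (nat_lit 1406)), (Int.negSucc (nat_lit 1917))], []⟩,
    ⟨(nat_lit 2), (nat_lit 196), (nat_lit 95), (Int.ofNat (nat_lit 0)), (Int.ofNat (nat_lit 2510)), [(Int.ofNat (nat_lit 1937)), (Int.ofNat (nat_lit 2100)), (Int.ofNat (nat_lit 1743))], []⟩]⟩
def xA9 : Box := ⟨(nat_lit 72), (nat_lit 73), (nat_lit 72), (nat_lit 74), (nat_lit 0), (nat_lit 0), (nat_lit 8), (nat_lit 6), (nat_lit 3212), (nat_lit 1468), [(nat_lit 640), (nat_lit 760), (nat_lit 803)], [],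
  [⟨(nat_lit 1), (nat_lit 3000), (nat_lit 3407), (Int.ofNat (nat_lit 0)), (Int.ofNat (nat_lit 28936)), [(Int.negSucc (nat_lit 3935)), (Int.negSucc (nat_lit 13452)), (Int.negSucc (nat_lit 17519))], []⟩,
    ⟨(nat_lit 0), (nat_lit 0), (nat_lit 169), (Int.ofNat (nat_lit 0)), (Int.ofNat (nat_lit 1468)), [(Int.ofNat (nat_lit 157)), (Int.negSucc (nat_lit 214)), (Int.negSucc (nat_lit 456))], []⟩,
    ⟨(nat_lit 1), (nat_lit 229), (nat_lit 507), (Int.ofNat (nat_lit 0)), (Int.ofNat (nat_lit 2913)), [(Int.negSucc (nat_lit 267)), (Int.negSucc (nat_lit 1394)), (Int.negSucc (nat_lit 2113))], []⟩,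
    ⟨(nat_lit 2), (nat_lit 196), (nat_lit 95), (Int.ofNat (nat_lit 0)), (Int.ofNat (nat_lit 2693)), [(Int.ofNat (nat_lit 1917)), (Int.ofNat (nat_lit 2106)), (Int.ofNat (nat_lit 1705))], []⟩]⟩
def xA10 : Box := ⟨(nat_lit 73), (nat_lit 74), (nat_lit 72), (nat_lit 74), (nat_lit 0), (nat_lit 0), (nat_lit 8), (nat_lit 7), (nat_lit 3212), (nat_lit 1615), [(nat_lit 640), (nat_lit 760), (nat_lit 803)], [],
  [⟨(nat_lit 1), (nat_lit 2999), (nat_lit 3050), (Int.ofNat (nat_lit 0)), (Int.ofNat (nat_lit 29831)), [(Int.negSucc (nat_lit 3135)), (Int.negSucc (nat_lit 12903)), (Int.negSucc (nat_lit 16960))], []⟩,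
    ⟨(nat_lit 0), (nat_lit 0), (nat_lit 213), (Int.ofNat (nat_lit 0)), (Int.ofNat (nat_lit 1615)), [(Int.ofNat (nat_lit 72)), (Int.negSucc (nat_lit 142)), (Int.negSucc (nat_lit 715))], []⟩,
    ⟨(nat_lit 1), (nat_lit 230), (nat_lit 477), (Int.ofNat (nat_lit 0)), (Int.ofNat (nat_lit 3095)), [(Int.negSucc (nat_lit 281)), (Int.negSucc (nat_lit 1407)), (Int.negSucc (nat_lit 2076))], []⟩,
    ⟨(nat_lit 2), (nat_lit 168), (nat_lit 98), (Int.ofNat (nat_lit 0)), (Int.ofNat (nat_lit 2693)), [(Int.ofNat (nat_lit 1646)), (Int.ofNat (nat_lit 1720)), (Int.ofNat (nat_lit 1447))], []⟩]⟩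
def xA11 : Box := ⟨(nat_lit 74), (nat_lit 75), (nat_lit 74), (nat_lit 76), (nat_lit 0), (nat_lit 0), (nat_lit 8), (nat_lit 8), (nat_lit 3260), (nat_lit 1769), [(nat_lit 630), (nat_lit 750), (nat_lit 815)], [],
  [⟨(nat_lit 1), (nat_lit 509), (nat_lit 483), (Int.ofNat (nat_lit 0)), (Int.ofNat (nat_lit 5294)), [(Int.negSucc (nat_lit 430)), (Int.negSucc (nat_lit 2003)), (Int.negSucc (nat_lit 2676))], []⟩,
    ⟨(nat_lit 0), (nat_lit 0), (nat_lit 155), (Int.ofNat (nat_lit 0)), (Int.ofNat (nat_lit 1769)), [(Int.ofNat (nat_lit 135)), (Int.negSucc (nat_lit 209)), (Int.negSucc (nat_lit 600))], []⟩,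
    ⟨(nat_lit 1), (nat_lit 228), (nat_lit 423), (Int.ofNat (nat_lit 0)), (Int.ofNat (nat_lit 3269)), [(Int.negSucc (nat_lit 272)), (Int.negSucc (nat_lit 1168)), (Int.negSucc (nat_lit 2192))], []⟩,
    ⟨(nat_lit 1), (nat_lit 482), (nat_lit 216), (Int.ofNat (nat_lit 0)), (Int.ofNat (nat_lit 4941)), [(Int.ofNat (nat_lit 395)), (Int.negSucc (nat_lit 1423)), (Int.negSucc (nat_lit 1733))], []⟩,
    ⟨(nat_lit 2), (nat_lit 219), (nat_lit 110), (Int.ofNat (nat_lit 0)), (Int.ofNat (nat_lit 3210)), [(Int.ofNat (nat_lit 2330)), (Int.ofNat (nat_lit 2286)), (Int.ofNat (nat_lit 2099))], []⟩,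
    ⟨(nat_lit 2), (nat_lit 212), (nat_lit 106), (Int.ofNat (nat_lit 0)), (Int.ofNat (nat_lit 3164)), [(Int.ofNat (nat_lit 2212)), (Int.ofNat (nat_lit 2007)), (Int.ofNat (nat_lit 2105))], []⟩]⟩
def xA12 : Box := ⟨(nat_lit 75), (nat_lit 76), (nat_lit 74), (nat_lit 76), (nat_lit 0), (nat_lit 0), (nat_lit 8), (nat_lit 9), (nat_lit 3260), (nat_lit 1919), [(nat_lit 630), (nat_lit 750), (nat_lit 815)], [],
  [⟨(nat_lit 1), (nat_lit 474), (nat_lit 422), (Int.ofNat (nat_lit 0)), (Int.ofNat (nat_lit 5116)), [(Int.negSucc (nat_lit 300)), (Int.negSucc (nat_lit 1677)), (Int.negSucc (nat_lit 2098))], []⟩,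
    ⟨(nat_lit 0), (nat_lit 0), (nat_lit 155), (Int.ofNat (nat_lit 0)), (Int.ofNat (nat_lit 1919)), [(Int.ofNat (nat_lit 135)), (Int.negSucc (nat_lit 230)), (Int.negSucc (nat_lit 633))], []⟩,
    ⟨(nat_lit 1), (nat_lit 228), (nat_lit 423), (Int.ofNat (nat_lit 0)), (Int.ofNat (nat_lit 3456)), [(Int.negSucc (nat_lit 241)), (Int.negSucc (nat_lit 1219)), (Int.negSucc (nat_lit 2264))], []⟩,
    ⟨(nat_lit 1), (nat_lit 482), (nat_lit 216), (Int.ofNat (nat_lit 0)), (Int.ofNat (nat_lit 5169)), [(Int.ofNat (nat_lit 479)), (Int.negSucc (nat_lit 1430)), (Int.negSucc (nat_lit 1742))], []⟩,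
    ⟨(nat_lit 2), (nat_lit 219), (nat_lit 110), (Int.ofNat (nat_lit 0)), (Int.ofNat (nat_lit 3396)), [(Int.ofNat (nat_lit 2338)), (Int.ofNat (nat_lit 2282)), (Int.ofNat (nat_lit 2108))], []⟩,
    ⟨(nat_lit 2), (nat_lit 212), (nat_lit 106), (Int.ofNat (nat_lit 0)), (Int.ofNat (nat_lit 3349)), [(Int.ofNat (nat_lit 2219)), (Int.ofNat (nat_lit 2003)), (Int.ofNat (nat_lit 2096))], []⟩]⟩
def xA13 : Box := ⟨(nat_lit 76), (nat_lit 77), (nat_lit 76), (nat_lit 78), (nat_lit 0), (nat_lit 0), (nat_lit 8), (nat_lit 8), (nat_lit 3204), (nat_lit 2072), [(nat_lit 620), (nat_lit 740), (nat_lit 801)], [],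
  [⟨(nat_lit 1), (nat_lit 2999), (nat_lit 2618), (Int.ofNat (nat_lit 0)), (Int.ofNat (nat_lit 32200)), [(Int.negSucc (nat_lit 1316)), (Int.negSucc (nat_lit 11957)), (Int.negSucc (nat_lit 15033))], []⟩,
    ⟨(nat_lit 0), (nat_lit 0), (nat_lit 222), (Int.ofNat (nat_lit 0)), (Int.ofNat (nat_lit 2072)), [(Int.ofNat (nat_lit 107)), (Int.negSucc (nat_lit 199)), (Int.negSucc (nat_lit 714))], []⟩,
    ⟨(nat_lit 1), (nat_lit 233), (nat_lit 482), (Int.ofNat (nat_lit 0)), (Int.ofNat (nat_lit 3828)), [(Int.negSucc (nat_lit 281)), (Int.negSucc (nat_lit 1352)), (Int.negSucc (nat_lit 2269))], []⟩,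
    ⟨(nat_lit 2), (nat_lit 149), (nat_lit 74), (Int.ofNat (nat_lit 0)), (Int.ofNat (nat_lit 3102)), [(Int.ofNat (nat_lit 1425)), (Int.ofNat (nat_lit 1558)), (Int.ofNat (nat_lit 1390))], []⟩]⟩
def xA14 : Box := ⟨(nat_lit 77), (nat_lit 78), (nat_lit 76), (nat_lit 78), (nat_lit 0), (nat_lit 0), (nat_lit 8), (nat_lit 8), (nat_lit 3204), (nat_lit 2221), [(nat_lit 620), (nat_lit 740), (nat_lit 801)], [],
  [⟨(nat_lit 1), (nat_lit 2999), (nat_lit 2597), (Int.ofNat (nat_lit 0)), (Int.ofNat (nat_lit 32391)), [(Int.negSucc (nat_lit 912)), (Int.negSucc (nat_lit 12126)), (Int.negSucc (nat_lit 15325))], []⟩,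
    ⟨(nat_lit 0), (nat_lit 0), (nat_lit 263), (Int.ofNat (nat_lit 0)), (Int.ofNat (nat_lit 2221)), [(Int.ofNat (nat_lit 171)), (Int.negSucc (nat_lit 143)), (Int.negSucc (nat_lit 1002))], []⟩,
    ⟨(nat_lit 1), (nat_lit 223), (nat_lit 469), (Int.ofNat (nat_lit 0)), (Int.ofNat (nat_lit 3896)), [(Int.negSucc (nat_lit 241)), (Int.negSucc (nat_lit 1362)), (Int.negSucc (nat_lit 2276))], []⟩,
    ⟨(nat_lit 2), (nat_lit 152), (nat_lit 96), (Int.ofNat (nat_lit 0)), (Int.ofNat (nat_lit 3297)), [(Int.ofNat (nat_lit 1561)), (Int.ofNat (nat_lit 1571)), (Int.ofNat (nat_lit 1339))], []⟩]⟩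
def xA15 : Box := ⟨(nat_lit 78), (nat_lit 79), (nat_lit 78), (nat_lit 80), (nat_lit 0), (nat_lit 0), (nat_lit 8), (nat_lit 9), (nat_lit 3212), (nat_lit 2376), [(nat_lit 610), (nat_lit 730), (nat_lit 803)], [],
  [⟨(nat_lit 1), (nat_lit 3000), (nat_lit 2595), (Int.ofNat (nat_lit 0)), (Int.ofNat (nat_lit 33638)), [(Int.negSucc (nat_lit 575)), (Int.negSucc (nat_lit 11858)), (Int.negSucc (nat_lit 15390))], []⟩,
    ⟨(nat_lit 0), (nat_lit 0), (nat_lit 163), (Int.ofNat (nat_lit 0)), (Int.ofNat (nat_lit 2376)), [(Int.ofNat (nat_lit 171)), (Int.ofNat (nat_lit 1)), (Int.negSucc (nat_lit 619))], []⟩,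
    ⟨(nat_lit 1), (nat_lit 220), (nat_lit 497), (Int.ofNat (nat_lit 0)), (Int.ofNat (nat_lit 4109)), [(Int.negSucc (nat_lit 215)), (Int.negSucc (nat_lit 1338)), (Int.negSucc (nat_lit 2427))], []⟩,
    ⟨(nat_lit 2), (nat_lit 161), (nat_lit 112), (Int.ofNat (nat_lit 0)), (Int.ofNat (nat_lit 3543)), [(Int.ofNat (nat_lit 1610)), (Int.ofNat (nat_lit 1527)), (Int.ofNat (nat_lit 1345))], []⟩]⟩
def xA16 : Box := ⟨(nat_lit 79), (nat_lit 80), (nat_lit 78), (nat_lit 80), (nat_lit 0), (nat_lit 0), (nat_lit 8), (nat_lit 9), (nat_lit 3212), (nat_lit 2526), [(nat_lit 610), (nat_lit 730), (nat_lit 803)], [],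
  [⟨(nat_lit 1), (nat_lit 3000), (nat_lit 2501), (Int.ofNat (nat_lit 0)), (Int.ofNat (nat_lit 34285)), [(Int.negSucc (nat_lit 71)), (Int.negSucc (nat_lit 11886)), (Int.negSucc (nat_lit 15444))], []⟩,
    ⟨(nat_lit 0), (nat_lit 0), (nat_lit 163), (Int.ofNat (nat_lit 0)), (Int.ofNat (nat_lit 2526)), [(Int.ofNat (nat_lit 171)), (Int.negSucc (nat_lit 20)), (Int.negSucc (nat_lit 661))], []⟩,
    ⟨(nat_lit 1), (nat_lit 211), (nat_lit 484), (Int.ofNat (nat_lit 0)), (Int.ofNat (nat_lit 4207)), [(Int.negSucc (nat_lit 181)), (Int.negSucc (nat_lit 1352)), (Int.negSucc (nat_lit 2420))], []⟩,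
    ⟨(nat_lit 2), (nat_lit 161), (nat_lit 112), (Int.ofNat (nat_lit 0)), (Int.ofNat (nat_lit 3721)), [(Int.ofNat (nat_lit 1617)), (Int.ofNat (nat_lit 1519)), (Int.ofNat (nat_lit 1331))], []⟩]⟩
def xA17 : Box := ⟨(nat_lit 80), (nat_lit 81), (nat_lit 80), (nat_lit 84), (nat_lit 0), (nat_lit 0), (nat_lit 8), (nat_lit 10), (nat_lit 3220), (nat_lit 2680), [(nat_lit 600), (nat_lit 805)], [],
  [⟨(nat_lit 1), (nat_lit 3000), (nat_lit 2448), (Int.ofNat (nat_lit 0)), (Int.ofNat (nat_lit 35253)), [(Int.ofNat (nat_lit 359)), (Int.negSucc (nat_lit 17166))], []⟩,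
    ⟨(nat_lit 0), (nat_lit 0), (nat_lit 389), (Int.ofNat (nat_lit 0)), (Int.ofNat (nat_lit 2680)), [(Int.ofNat (nat_lit 248)), (Int.negSucc (nat_lit 1054))], []⟩,
    ⟨(nat_lit 1), (nat_lit 227), (nat_lit 611), (Int.ofNat (nat_lit 0)), (Int.ofNat (nat_lit 4706)), [(Int.negSucc (nat_lit 184)), (Int.negSucc (nat_lit 2455))], []⟩,
    ⟨(nat_lit 2), (nat_lit 204), (nat_lit 112), (Int.ofNat (nat_lit 0)), (Int.ofNat (nat_lit 4229)), [(Int.ofNat (nat_lit 2048)), (Int.ofNat (nat_lit 1963))], []⟩]⟩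
def xA18 : Box := ⟨(nat_lit 81), (nat_lit 82), (nat_lit 80), (nat_lit 84), (nat_lit 0), (nat_lit 0), (nat_lit 8), (nat_lit 10), (nat_lit 3220), (nat_lit 2829), [(nat_lit 600), (nat_lit 805)], [],
  [⟨(nat_lit 1), (nat_lit 3000), (nat_lit 2354), (Int.ofNat (nat_lit 0)), (Int.ofNat (nat_lit 35932)), [(Int.ofNat (nat_lit 863)), (Int.negSucc (nat_lit 16745))], []⟩,
    ⟨(nat_lit 0), (nat_lit 0), (nat_lit 394), (Int.ofNat (nat_lit 0)), (Int.ofNat (nat_lit 2829)), [(Int.ofNat (nat_lit 271)), (Int.negSucc (nat_lit 1190))], []⟩,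
    ⟨(nat_lit 1), (nat_lit 209), (nat_lit 601), (Int.ofNat (nat_lit 0)), (Int.ofNat (nat_lit 4659)), [(Int.negSucc (nat_lit 149)), (Int.negSucc (nat_lit 2483))], []⟩,
    ⟨(nat_lit 2), (nat_lit 186), (nat_lit 103), (Int.ofNat (nat_lit 0)), (Int.ofNat (nat_lit 4274)), [(Int.ofNat (nat_lit 1856)), (Int.ofNat (nat_lit 1776))], []⟩]⟩
def xA19 : Box := ⟨(nat_lit 82), (nat_lit 83), (nat_lit 80), (nat_lit 84), (nat_lit 0), (nat_lit 0), (nat_lit 8), (nat_lit 11), (nat_lit 3220), (nat_lit 2984), [(nat_lit 600), (nat_lit 805)], [],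
  [⟨(nat_lit 1), (nat_lit 3000), (nat_lit 2311), (Int.ofNat (nat_lit 0)), (Int.ofNat (nat_lit 36950)), [(Int.ofNat (nat_lit 1245)), (Int.negSucc (nat_lit 17253))], []⟩,
    ⟨(nat_lit 0), (nat_lit 0), (nat_lit 193), (Int.ofNat (nat_lit 0)), (Int.ofNat (nat_lit 2984)), [(Int.ofNat (nat_lit 209)), (Int.negSucc (nat_lit 638))], []⟩,
    ⟨(nat_lit 1), (nat_lit 195), (nat_lit 578), (Int.ofNat (nat_lit 0)), (Int.ofNat (nat_lit 4632)), [(Int.negSucc (nat_lit 115)), (Int.negSucc (nat_lit 2508))], []⟩,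
    ⟨(nat_lit 2), (nat_lit 177), (nat_lit 178), (Int.ofNat (nat_lit 0)), (Int.ofNat (nat_lit 4390)), [(Int.ofNat (nat_lit 1921)), (Int.ofNat (nat_lit 1322))], []⟩]⟩
def xA20 : Box := ⟨(nat_lit 83), (nat_lit 84), (nat_lit 80), (nat_lit 84), (nat_lit 0), (nat_lit 0), (nat_lit 8), (nat_lit 11), (nat_lit 3220), (nat_lit 3134), [(nat_lit 600), (nat_lit 805)], [],
  [⟨(nat_lit 1), (nat_lit 2999), (nat_lit 2224), (Int.ofNat (nat_lit 0)), (Int.ofNat (nat_lit 37884)), [(Int.ofNat (nat_lit 1743)), (Int.negSucc (nat_lit 16757))], []⟩,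
    ⟨(nat_lit 0), (nat_lit 0), (nat_lit 461), (Int.ofNat (nat_lit 0)), (Int.ofNat (nat_lit 3134)), [(Int.ofNat (nat_lit 182)), (Int.negSucc (nat_lit 1353))], []⟩,
    ⟨(nat_lit 1), (nat_lit 189), (nat_lit 552), (Int.ofNat (nat_lit 0)), (Int.ofNat (nat_lit 4669)), [(Int.negSucc (nat_lit 93)), (Int.negSucc (nat_lit 2546))], []⟩,
    ⟨(nat_lit 2), (nat_lit 144), (nat_lit 74), (Int.ofNat (nat_lit 0)), (Int.ofNat (nat_lit 4303)), [(Int.ofNat (nat_lit 1455)), (Int.ofNat (nat_lit 1354))], []⟩]⟩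
def xA21 : Box := ⟨(nat_lit 84), (nat_lit 85), (nat_lit 84), (nat_lit 88), (nat_lit 0), (nat_lit 0), (nat_lit 8), (nat_lit 12), (nat_lit 3236), (nat_lit 3134), [(nat_lit 580), (nat_lit 809)], [],
  [⟨(nat_lit 1), (nat_lit 3000), (nat_lit 2163), (Int.ofNat (nat_lit 0)), (Int.ofNat (nat_lit 39043)), [(Int.ofNat (nat_lit 2069)), (Int.negSucc (nat_lit 17408))], []⟩,
    ⟨(nat_lit 0), (nat_lit 0), (nat_lit 155), (Int.ofNat (nat_lit 0)), (Int.ofNat (nat_lit 3134)), [(Int.ofNat (nat_lit 111)), (Int.negSucc (nat_lit 325))], []⟩,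
    ⟨(nat_lit 1), (nat_lit 235), (nat_lit 505), (Int.ofNat (nat_lit 0)), (Int.ofNat (nat_lit 5042)), [(Int.negSucc (nat_lit 57)), (Int.negSucc (nat_lit 2505))], []⟩,
    ⟨(nat_lit 2), (nat_lit 159), (nat_lit 123), (Int.ofNat (nat_lit 0)), (Int.ofNat (nat_lit 4425)), [(Int.ofNat (nat_lit 1753)), (Int.ofNat (nat_lit 1153))], []⟩]⟩
def xA22 : Box := ⟨(nat_lit 85), (nat_lit 86), (nat_lit 84), (nat_lit 88), (nat_lit 0), (nat_lit 0), (nat_lit 8), (nat_lit 13), (nat_lit 3236), (nat_lit 3044), [(nat_lit 580), (nat_lit 809)], [],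
  [⟨(nat_lit 1), (nat_lit 3000), (nat_lit 2105), (Int.ofNat (nat_lit 0)), (Int.ofNat (nat_lit 40002)), [(Int.ofNat (nat_lit 2506)), (Int.negSucc (nat_lit 17435))], []⟩,
    ⟨(nat_lit 0), (nat_lit 0), (nat_lit 155), (Int.ofNat (nat_lit 0)), (Int.ofNat (nat_lit 3044)), [(Int.ofNat (nat_lit 111)), (Int.negSucc (nat_lit 363))], []⟩,
    ⟨(nat_lit 1), (nat_lit 221), (nat_lit 471), (Int.ofNat (nat_lit 0)), (Int.ofNat (nat_lit 4919)), [(Int.negSucc (nat_lit 31)), (Int.negSucc (nat_lit 2519))], []⟩,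
    ⟨(nat_lit 2), (nat_lit 159), (nat_lit 179), (Int.ofNat (nat_lit 0)), (Int.ofNat (nat_lit 4393)), [(Int.ofNat (nat_lit 1728)), (Int.ofNat (nat_lit 1149))], []⟩]⟩
def xA23 : Box := ⟨(nat_lit 86), (nat_lit 87), (nat_lit 84), (nat_lit 88), (nat_lit 0), (nat_lit 0), (nat_lit 8), (nat_lit 13), (nat_lit 3236), (nat_lit 3139), [(nat_lit 580), (nat_lit 809)], [],
  [⟨(nat_lit 1), (nat_lit 3000), (nat_lit 2084), (Int.ofNat (nat_lit 0)), (Int.ofNat (nat_lit 41292)), [(Int.ofNat (nat_lit 2848)), (Int.negSucc (nat_lit 17549))], []⟩,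
    ⟨(nat_lit 0), (nat_lit 0), (nat_lit 255), (Int.ofNat (nat_lit 0)), (Int.ofNat (nat_lit 3139)), [(Int.ofNat (nat_lit 84)), (Int.negSucc (nat_lit 618))], []⟩,
    ⟨(nat_lit 1), (nat_lit 206), (nat_lit 459), (Int.ofNat (nat_lit 0)), (Int.ofNat (nat_lit 4924)), [(Int.negSucc (nat_lit 10)), (Int.negSucc (nat_lit 2547))], []⟩,
    ⟨(nat_lit 2), (nat_lit 157), (nat_lit 162), (Int.ofNat (nat_lit 0)), (Int.ofNat (nat_lit 4500)), [(Int.ofNat (nat_lit 1708)), (Int.ofNat (nat_lit 1128))], []⟩]⟩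
def xA24 : Box := ⟨(nat_lit 87), (nat_lit 88), (nat_lit 84), (nat_lit 88), (nat_lit 0), (nat_lit 0), (nat_lit 8), (nat_lit 14), (nat_lit 3236), (nat_lit 3232), [(nat_lit 580), (nat_lit 809)], [],
  [⟨(nat_lit 1), (nat_lit 3000), (nat_lit 2001), (Int.ofNat (nat_lit 0)), (Int.ofNat (nat_lit 42250)), [(Int.ofNat (nat_lit 3292)), (Int.negSucc (nat_lit 17281))], []⟩,
    ⟨(nat_lit 0), (nat_lit 0), (nat_lit 255), (Int.ofNat (nat_lit 0)), (Int.ofNat (nat_lit 3232)), [(Int.ofNat (nat_lit 84)), (Int.negSucc (nat_lit 692))], []⟩,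
    ⟨(nat_lit 1), (nat_lit 194), (nat_lit 448), (Int.ofNat (nat_lit 0)), (Int.ofNat (nat_lit 4948)), [(Int.ofNat (nat_lit 5)), (Int.negSucc (nat_lit 2585))], []⟩,
    ⟨(nat_lit 2), (nat_lit 157), (nat_lit 162), (Int.ofNat (nat_lit 0)), (Int.ofNat (nat_lit 4621)), [(Int.ofNat (nat_lit 1714)), (Int.ofNat (nat_lit 1093))], []⟩]⟩
def xA25 : Box := ⟨(nat_lit 88), (nat_lit 89), (nat_lit 88), (nat_lit 92), (nat_lit 0), (nat_lit 0), (nat_lit 8), (nat_lit 15), (nat_lit 3288), (nat_lit 3328), [(nat_lit 560), (nat_lit 822)], [],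
  [⟨(nat_lit 1), (nat_lit 3000), (nat_lit 1980), (Int.ofNat (nat_lit 0)), (Int.ofNat (nat_lit 43544)), [(Int.ofNat (nat_lit 3485)), (Int.negSucc (nat_lit 18552))], []⟩,
    ⟨(nat_lit 0), (nat_lit 0), (nat_lit 255), (Int.ofNat (nat_lit 0)), (Int.ofNat (nat_lit 3328)), [(Int.ofNat (nat_lit 84)), (Int.negSucc (nat_lit 576))], []⟩,
    ⟨(nat_lit 1), (nat_lit 250), (nat_lit 432), (Int.ofNat (nat_lit 0)), (Int.ofNat (nat_lit 5588)), [(Int.ofNat (nat_lit 62)), (Int.negSucc (nat_lit 2695))], []⟩,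
    ⟨(nat_lit 2), (nat_lit 193), (nat_lit 194), (Int.ofNat (nat_lit 0)), (Int.ofNat (nat_lit 5072)), [(Int.ofNat (nat_lit 1983)), (Int.ofNat (nat_lit 1317))], []⟩]⟩
def xA26 : Box := ⟨(nat_lit 89), (nat_lit 90), (nat_lit 88), (nat_lit 92), (nat_lit 0), (nat_lit 0), (nat_lit 8), (nat_lit 16), (nat_lit 3288), (nat_lit 3422), [(nat_lit 560), (nat_lit 822)], [],
  [⟨(nat_lit 1), (nat_lit 2999), (nat_lit 1922), (Int.ofNat (nat_lit 0)), (Int.ofNat (nat_lit 44445)), [(Int.ofNat (nat_lit 3903)), (Int.negSucc (nat_lit 18549))], []⟩,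
    ⟨(nat_lit 0), (nat_lit 0), (nat_lit 166), (Int.ofNat (nat_lit 0)), (Int.ofNat (nat_lit 3422)), [(Int.ofNat (nat_lit 234)), (Int.negSucc (nat_lit 560))], []⟩,
    ⟨(nat_lit 1), (nat_lit 234), (nat_lit 422), (Int.ofNat (nat_lit 0)), (Int.ofNat (nat_lit 5579)), [(Int.ofNat (nat_lit 77)), (Int.negSucc (nat_lit 2714))], []⟩,
    ⟨(nat_lit 2), (nat_lit 191), (nat_lit 141), (Int.ofNat (nat_lit 0)), (Int.ofNat (nat_lit 5183)), [(Int.ofNat (nat_lit 2321)), (Int.ofNat (nat_lit 1213))], []⟩]⟩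
def xA27 : Box := ⟨(nat_lit 90), (nat_lit 91), (nat_lit 88), (nat_lit 92), (nat_lit 0), (nat_lit 0), (nat_lit 8), (nat_lit 17), (nat_lit 3288), (nat_lit 3520), [(nat_lit 560), (nat_lit 822)], [],
  [⟨(nat_lit 1), (nat_lit 2999), (nat_lit 1863), (Int.ofNat (nat_lit 0)), (Int.ofNat (nat_lit 45681)), [(Int.ofNat (nat_lit 4332)), (Int.negSucc (nat_lit 18341))], []⟩,
    ⟨(nat_lit 0), (nat_lit 0), (nat_lit 166), (Int.ofNat (nat_lit 0)), (Int.ofNat (nat_lit 3520)), [(Int.ofNat (nat_lit 234)), (Int.negSucc (nat_lit 607))], []⟩,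
    ⟨(nat_lit 1), (nat_lit 221), (nat_lit 408), (Int.ofNat (nat_lit 0)), (Int.ofNat (nat_lit 5600)), [(Int.ofNat (nat_lit 91)), (Int.negSucc (nat_lit 2739))], []⟩,
    ⟨(nat_lit 2), (nat_lit 191), (nat_lit 141), (Int.ofNat (nat_lit 0)), (Int.ofNat (nat_lit 5317)), [(Int.ofNat (nat_lit 2327)), (Int.ofNat (nat_lit 1185))], []⟩]⟩
def xA28 : Box := ⟨(nat_lit 91), (nat_lit 92), (nat_lit 88), (nat_lit 92), (nat_lit 0), (nat_lit 0), (nat_lit 8), (nat_lit 18), (nat_lit 3288), (nat_lit 3616), [(nat_lit 560), (nat_lit 822)], [],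
  [⟨(nat_lit 1), (nat_lit 3000), (nat_lit 1831), (Int.ofNat (nat_lit 0)), (Int.ofNat (nat_lit 47097)), [(Int.ofNat (nat_lit 4675)), (Int.negSucc (nat_lit 18668))], []⟩,
    ⟨(nat_lit 0), (nat_lit 0), (nat_lit 166), (Int.ofNat (nat_lit 0)), (Int.ofNat (nat_lit 3616)), [(Int.ofNat (nat_lit 234)), (Int.negSucc (nat_lit 657))], []⟩,
    ⟨(nat_lit 1), (nat_lit 218), (nat_lit 396), (Int.ofNat (nat_lit 0)), (Int.ofNat (nat_lit 5717)), [(Int.ofNat (nat_lit 112)), (Int.negSucc (nat_lit 2697))], []⟩,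
    ⟨(nat_lit 2), (nat_lit 191), (nat_lit 141), (Int.ofNat (nat_lit 0)), (Int.ofNat (nat_lit 5449)), [(Int.ofNat (nat_lit 2331)), (Int.ofNat (nat_lit 1156))], []⟩]⟩
def xA29 : Box := ⟨(nat_lit 92), (nat_lit 93), (nat_lit 92), (nat_lit 96), (nat_lit 0), (nat_lit 0), (nat_lit 8), (nat_lit 18), (nat_lit 3328), (nat_lit 3716), [(nat_lit 540), (nat_lit 832)], [],
  [⟨(nat_lit 1), (nat_lit 2999), (nat_lit 1754), (Int.ofNat (nat_lit 0)), (Int.ofNat (nat_lit 48115)), [(Int.ofNat (nat_lit 4946)), (Int.negSucc (nat_lit 19058))], []⟩,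
    ⟨(nat_lit 0), (nat_lit 0), (nat_lit 166), (Int.ofNat (nat_lit 0)), (Int.ofNat (nat_lit 3716)), [(Int.ofNat (nat_lit 234)), (Int.negSucc (nat_lit 624))], []⟩,
    ⟨(nat_lit 1), (nat_lit 283), (nat_lit 380), (Int.ofNat (nat_lit 0)), (Int.ofNat (nat_lit 6530)), [(Int.ofNat (nat_lit 211)), (Int.negSucc (nat_lit 2825))], []⟩,
    ⟨(nat_lit 2), (nat_lit 191), (nat_lit 141), (Int.ofNat (nat_lit 0)), (Int.ofNat (nat_lit 5585)), [(Int.ofNat (nat_lit 2275)), (Int.ofNat (nat_lit 1140))], []⟩]⟩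
def xA30 : Box := ⟨(nat_lit 93), (nat_lit 94), (nat_lit 92), (nat_lit 96), (nat_lit 0), (nat_lit 0), (nat_lit 8), (nat_lit 19), (nat_lit 3328), (nat_lit 3813), [(nat_lit 540), (nat_lit 832)], [],
  [⟨(nat_lit 1), (nat_lit 2999), (nat_lit 1730), (Int.ofNat (nat_lit 0)), (Int.ofNat (nat_lit 49567)), [(Int.ofNat (nat_lit 5250)), (Int.negSucc (nat_lit 18986))], []⟩,
    ⟨(nat_lit 0), (nat_lit 0), (nat_lit 166), (Int.ofNat (nat_lit 0)), (Int.ofNat (nat_lit 3813)), [(Int.ofNat (nat_lit 234)), (Int.negSucc (nat_lit 674))], []⟩,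
    ⟨(nat_lit 1), (nat_lit 283), (nat_lit 380), (Int.ofNat (nat_lit 0)), (Int.ofNat (nat_lit 6797)), [(Int.ofNat (nat_lit 233)), (Int.negSucc (nat_lit 2993))], []⟩,
    ⟨(nat_lit 2), (nat_lit 191), (nat_lit 141), (Int.ofNat (nat_lit 0)), (Int.ofNat (nat_lit 5719)), [(Int.ofNat (nat_lit 2279)), (Int.ofNat (nat_lit 1110))], []⟩]⟩
def xA31 : Box := ⟨(nat_lit 94), (nat_lit 95), (nat_lit 92), (nat_lit 96), (nat_lit 0), (nat_lit 0), (nat_lit 8), (nat_lit 21), (nat_lit 3328), (nat_lit 3914), [(nat_lit 540), (nat_lit 832)], [],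
  [⟨(nat_lit 1), (nat_lit 2996), (nat_lit 1633), (Int.ofNat (nat_lit 0)), (Int.ofNat (nat_lit 50314)), [(Int.ofNat (nat_lit 5812)), (Int.negSucc (nat_lit 18505))], []⟩,
    ⟨(nat_lit 0), (nat_lit 0), (nat_lit 166), (Int.ofNat (nat_lit 0)), (Int.ofNat (nat_lit 3914)), [(Int.ofNat (nat_lit 234)), (Int.negSucc (nat_lit 726))], []⟩,
    ⟨(nat_lit 1), (nat_lit 283), (nat_lit 380), (Int.ofNat (nat_lit 0)), (Int.ofNat (nat_lit 7074)), [(Int.ofNat (nat_lit 255)), (Int.negSucc (nat_lit 3167))], []⟩,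
    ⟨(nat_lit 2), (nat_lit 191), (nat_lit 141), (Int.ofNat (nat_lit 0)), (Int.ofNat (nat_lit 5857)), [(Int.ofNat (nat_lit 2283)), (Int.ofNat (nat_lit 1078))], []⟩]⟩
def xA32 : Box := ⟨(nat_lit 95), (nat_lit 96), (nat_lit 92), (nat_lit 96), (nat_lit 0), (nat_lit 0), (nat_lit 8), (nat_lit 22), (nat_lit 3328), (nat_lit 4012), [(nat_lit 540), (nat_lit 832)], [],
  [⟨(nat_lit 1), (nat_lit 570), (nat_lit 303), (Int.ofNat (nat_lit 0)), (Int.ofNat (nat_lit 9921)), [(Int.ofNat (nat_lit 1183)), (Int.negSucc (nat_lit 2818))], []⟩,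
    ⟨(nat_lit 0), (nat_lit 0), (nat_lit 166), (Int.ofNat (nat_lit 0)), (Int.ofNat (nat_lit 4012)), [(Int.ofNat (nat_lit 234)), (Int.negSucc (nat_lit 781))], []⟩,
    ⟨(nat_lit 1), (nat_lit 283), (nat_lit 380), (Int.ofNat (nat_lit 0)), (Int.ofNat (nat_lit 7407)), [(Int.ofNat (nat_lit 280)), (Int.negSucc (nat_lit 3325))], []⟩,
    ⟨(nat_lit 2), (nat_lit 191), (nat_lit 141), (Int.ofNat (nat_lit 0)), (Int.ofNat (nat_lit 5992)), [(Int.ofNat (nat_lit 2287)), (Int.ofNat (nat_lit 1046))], []⟩]⟩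
def xA33 : Box := ⟨(nat_lit 96), (nat_lit 97), (nat_lit 96), (nat_lit 100), (nat_lit 0), (nat_lit 0), (nat_lit 8), (nat_lit 23), (nat_lit 3384), (nat_lit 4113), [(nat_lit 520), (nat_lit 846)], [],
  [⟨(nat_lit 1), (nat_lit 539), (nat_lit 292), (Int.ofNat (nat_lit 0)), (Int.ofNat (nat_lit 9807)), [(Int.ofNat (nat_lit 1092)), (Int.negSucc (nat_lit 3110))], []⟩,
    ⟨(nat_lit 0), (nat_lit 0), (nat_lit 166), (Int.ofNat (nat_lit 0)), (Int.ofNat (nat_lit 4113)), [(Int.ofNat (nat_lit 234)), (Int.negSucc (nat_lit 749))], []⟩,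
    ⟨(nat_lit 1), (nat_lit 283), (nat_lit 380), (Int.ofNat (nat_lit 0)), (Int.ofNat (nat_lit 7749)), [(Int.ofNat (nat_lit 292)), (Int.negSucc (nat_lit 2882))], []⟩,
    ⟨(nat_lit 2), (nat_lit 191), (nat_lit 141), (Int.ofNat (nat_lit 0)), (Int.ofNat (nat_lit 6131)), [(Int.ofNat (nat_lit 2228)), (Int.ofNat (nat_lit 1029))], []⟩]⟩
def xA34 : Box := ⟨(nat_lit 97), (nat_lit 98), (nat_lit 96), (nat_lit 100), (nat_lit 0), (nat_lit 0), (nat_lit 8), (nat_lit 24), (nat_lit 3384), (nat_lit 4212), [(nat_lit 520), (nat_lit 846)], [],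
  [⟨(nat_lit 1), (nat_lit 542), (nat_lit 283), (Int.ofNat (nat_lit 0)), (Int.ofNat (nat_lit 10046)), [(Int.ofNat (nat_lit 1176)), (Int.negSucc (nat_lit 3353))], []⟩,
    ⟨(nat_lit 0), (nat_lit 0), (nat_lit 166), (Int.ofNat (nat_lit 0)), (Int.ofNat (nat_lit 4212)), [(Int.ofNat (nat_lit 234)), (Int.negSucc (nat_lit 805))], []⟩,
    ⟨(nat_lit 1), (nat_lit 283), (nat_lit 380), (Int.ofNat (nat_lit 0)), (Int.ofNat (nat_lit 8029)), [(Int.ofNat (nat_lit 311)), (Int.negSucc (nat_lit 3070))], []⟩,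
    ⟨(nat_lit 2), (nat_lit 191), (nat_lit 141), (Int.ofNat (nat_lit 0)), (Int.ofNat (nat_lit 6267)), [(Int.ofNat (nat_lit 2233)), (Int.ofNat (nat_lit 993))], []⟩]⟩
def xA35 : Box := ⟨(nat_lit 98), (nat_lit 99), (nat_lit 96), (nat_lit 100), (nat_lit 0), (nat_lit 0), (nat_lit 8), (nat_lit 25), (nat_lit 3384), (nat_lit 4315), [(nat_lit 520), (nat_lit 846)], [],
  [⟨(nat_lit 1), (nat_lit 536), (nat_lit 274), (Int.ofNat (nat_lit 0)), (Int.ofNat (nat_lit 10191)), [(Int.ofNat (nat_lit 1222)), (Int.negSucc (nat_lit 3463))], []⟩,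
    ⟨(nat_lit 0), (nat_lit 0), (nat_lit 166), (Int.ofNat (nat_lit 0)), (Int.ofNat (nat_lit 4315)), [(Int.ofNat (nat_lit 234)), (Int.negSucc (nat_lit 863))], []⟩,
    ⟨(nat_lit 1), (nat_lit 290), (nat_lit 333), (Int.ofNat (nat_lit 0)), (Int.ofNat (nat_lit 7843)), [(Int.ofNat (nat_lit 369)), (Int.negSucc (nat_lit 3270))], []⟩,
    ⟨(nat_lit 2), (nat_lit 191), (nat_lit 141), (Int.ofNat (nat_lit 0)), (Int.ofNat (nat_lit 6408)), [(Int.ofNat (nat_lit 2236)), (Int.ofNat (nat_lit 957))], []⟩]⟩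
def xA36 : Box := ⟨(nat_lit 99), (nat_lit 100), (nat_lit 96), (nat_lit 100), (nat_lit 0), (nat_lit 0), (nat_lit 8), (nat_lit 27), (nat_lit 3384), (nat_lit 4414), [(nat_lit 520), (nat_lit 846)], [],
  [⟨(nat_lit 1), (nat_lit 519), (nat_lit 263), (Int.ofNat (nat_lit 0)), (Int.ofNat (nat_lit 10205)), [(Int.ofNat (nat_lit 1228)), (Int.negSucc (nat_lit 3272))], []⟩,
    ⟨(nat_lit 0), (nat_lit 0), (nat_lit 166), (Int.ofNat (nat_lit 0)), (Int.ofNat (nat_lit 4414)), [(Int.ofNat (nat_lit 234)), (Int.negSucc (nat_lit 923))], []⟩,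
    ⟨(nat_lit 1), (nat_lit 235), (nat_lit 278), (Int.ofNat (nat_lit 0)), (Int.ofNat (nat_lit 7036)), [(Int.ofNat (nat_lit 313)), (Int.negSucc (nat_lit 2913))], []⟩,
    ⟨(nat_lit 2), (nat_lit 191), (nat_lit 141), (Int.ofNat (nat_lit 0)), (Int.ofNat (nat_lit 6546)), [(Int.ofNat (nat_lit 2239)), (Int.ofNat (nat_lit 921))], []⟩]⟩
def xA37 : Box := ⟨(nat_lit 100), (nat_lit 101), (nat_lit 100), (nat_lit 104), (nat_lit 0), (nat_lit 0), (nat_lit 8), (nat_lit 28), (nat_lit 4330), (nat_lit 4517), [(nat_lit 500), (nat_lit 866)], [],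
  [⟨(nat_lit 1), (nat_lit 482), (nat_lit 255), (Int.ofNat (nat_lit 0)), (Int.ofNat (nat_lit 9992)), [(Int.ofNat (nat_lit 1083)), (Int.negSucc (nat_lit 3372))], []⟩,
    ⟨(nat_lit 0), (nat_lit 0), (nat_lit 166), (Int.ofNat (nat_lit 0)), (Int.ofNat (nat_lit 4517)), [(Int.ofNat (nat_lit 234)), (Int.negSucc (nat_lit 899))], []⟩,
    ⟨(nat_lit 1), (nat_lit 240), (nat_lit 244), (Int.ofNat (nat_lit 0)), (Int.ofNat (nat_lit 7243)), [(Int.ofNat (nat_lit 350)), (Int.negSucc (nat_lit 2614))], []⟩,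
    ⟨(nat_lit 2), (nat_lit 191), (nat_lit 141), (Int.ofNat (nat_lit 0)), (Int.ofNat (nat_lit 6686)), [(Int.ofNat (nat_lit 2180)), (Int.ofNat (nat_lit 897))], []⟩]⟩
def xA38 : Box := ⟨(nat_lit 101), (nat_lit 102), (nat_lit 100), (nat_lit 104), (nat_lit 0), (nat_lit 0), (nat_lit 8), (nat_lit 30), (nat_lit 4330), (nat_lit 4617), [(nat_lit 500), (nat_lit 866)], [],
  [⟨(nat_lit 1), (nat_lit 469), (nat_lit 246), (Int.ofNat (nat_lit 0)), (Int.ofNat (nat_lit 10042)), [(Int.ofNat (nat_lit 1091)), (Int.negSucc (nat_lit 3202))], []⟩,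
    ⟨(nat_lit 0), (nat_lit 0), (nat_lit 166), (Int.ofNat (nat_lit 0)), (Int.ofNat (nat_lit 4617)), [(Int.ofNat (nat_lit 234)), (Int.negSucc (nat_lit 961))], []⟩,
    ⟨(nat_lit 1), (nat_lit 271), (nat_lit 274), (Int.ofNat (nat_lit 0)), (Int.ofNat (nat_lit 7766)), [(Int.ofNat (nat_lit 412)), (Int.negSucc (nat_lit 3007))], []⟩,
    ⟨(nat_lit 2), (nat_lit 191), (nat_lit 141), (Int.ofNat (nat_lit 0)), (Int.ofNat (nat_lit 6825)), [(Int.ofNat (nat_lit 2183)), (Int.ofNat (nat_lit 858))], []⟩]⟩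
def xA39 : Box := ⟨(nat_lit 102), (nat_lit 103), (nat_lit 100), (nat_lit 104), (nat_lit 0), (nat_lit 0), (nat_lit 8), (nat_lit 32), (nat_lit 4330), (nat_lit 4720), [(nat_lit 500), (nat_lit 866)], [],
  [⟨(nat_lit 1), (nat_lit 480), (nat_lit 231), (Int.ofNat (nat_lit 0)), (Int.ofNat (nat_lit 10366)), [(Int.ofNat (nat_lit 1232)), (Int.negSucc (nat_lit 3097))], []⟩,
    ⟨(nat_lit 0), (nat_lit 0), (nat_lit 166), (Int.ofNat (nat_lit 0)), (Int.ofNat (nat_lit 4720)), [(Int.ofNat (nat_lit 234)), (Int.negSucc (nat_lit 1026))], []⟩,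
    ⟨(nat_lit 1), (nat_lit 248), (nat_lit 261), (Int.ofNat (nat_lit 0)), (Int.ofNat (nat_lit 7637)), [(Int.ofNat (nat_lit 416)), (Int.negSucc (nat_lit 3149))], []⟩,
    ⟨(nat_lit 2), (nat_lit 191), (nat_lit 141), (Int.ofNat (nat_lit 0)), (Int.ofNat (nat_lit 6966)), [(Int.ofNat (nat_lit 2185)), (Int.ofNat (nat_lit 817))], []⟩]⟩
def xA40 : Box := ⟨(nat_lit 103), (nat_lit 104), (nat_lit 100), (nat_lit 104), (nat_lit 0), (nat_lit 0), (nat_lit 8), (nat_lit 34), (nat_lit 4330), (nat_lit 4820), [(nat_lit 500), (nat_lit 866)], [],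
  [⟨(nat_lit 1), (nat_lit 444), (nat_lit 222), (Int.ofNat (nat_lit 0)), (Int.ofNat (nat_lit 10133)), [(Int.ofNat (nat_lit 1130)), (Int.negSucc (nat_lit 2728))], []⟩,
    ⟨(nat_lit 0), (nat_lit 0), (nat_lit 166), (Int.ofNat (nat_lit 0)), (Int.ofNat (nat_lit 4820)), [(Int.ofNat (nat_lit 234)), (Int.negSucc (nat_lit 1093))], []⟩,
    ⟨(nat_lit 1), (nat_lit 235), (nat_lit 246), (Int.ofNat (nat_lit 0)), (Int.ofNat (nat_lit 7632)), [(Int.ofNat (nat_lit 428)), (Int.negSucc (nat_lit 3164))], []⟩,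
    ⟨(nat_lit 2), (nat_lit 191), (nat_lit 141), (Int.ofNat (nat_lit 0)), (Int.ofNat (nat_lit 7106)), [(Int.ofNat (nat_lit 2189)), (Int.ofNat (nat_lit 775))], []⟩]⟩
def xA41 : Box := ⟨(nat_lit 104), (nat_lit 105), (nat_lit 104), (nat_lit 108), (nat_lit 0), (nat_lit 0), (nat_lit 8), (nat_lit 36), (nat_lit 4410), (nat_lit 4922), [(nat_lit 480), (nat_lit 882)], [],
  [⟨(nat_lit 1), (nat_lit 442), (nat_lit 209), (Int.ofNat (nat_lit 0)), (Int.ofNat (nat_lit 10303)), [(Int.ofNat (nat_lit 1158)), (Int.negSucc (nat_lit 2810))], []⟩,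
    ⟨(nat_lit 0), (nat_lit 0), (nat_lit 166), (Int.ofNat (nat_lit 0)), (Int.ofNat (nat_lit 4922)), [(Int.ofNat (nat_lit 234)), (Int.negSucc (nat_lit 1034))], []⟩,
    ⟨(nat_lit 1), (nat_lit 275), (nat_lit 232), (Int.ofNat (nat_lit 0)), (Int.ofNat (nat_lit 8270)), [(Int.ofNat (nat_lit 552)), (Int.negSucc (nat_lit 3203))], []⟩,
    ⟨(nat_lit 2), (nat_lit 191), (nat_lit 141), (Int.ofNat (nat_lit 0)), (Int.ofNat (nat_lit 7247)), [(Int.ofNat (nat_lit 2128)), (Int.ofNat (nat_lit 783))], []⟩]⟩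
def xA42 : Box := ⟨(nat_lit 105), (nat_lit 106), (nat_lit 104), (nat_lit 108), (nat_lit 0), (nat_lit 0), (nat_lit 8), (nat_lit 38), (nat_lit 4410), (nat_lit 5023), [(nat_lit 480), (nat_lit 882)], [],
  [⟨(nat_lit 1), (nat_lit 403), (nat_lit 198), (Int.ofNat (nat_lit 0)), (Int.ofNat (nat_lit 10015)), [(Int.ofNat (nat_lit 1043)), (Int.negSucc (nat_lit 2858))], []⟩,
    ⟨(nat_lit 0), (nat_lit 0), (nat_lit 166), (Int.ofNat (nat_lit 0)), (Int.ofNat (nat_lit 5023)), [(Int.ofNat (nat_lit 234)), (Int.negSucc (nat_lit 1102))], []⟩,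
    ⟨(nat_lit 1), (nat_lit 263), (nat_lit 221), (Int.ofNat (nat_lit 0)), (Int.ofNat (nat_lit 8306)), [(Int.ofNat (nat_lit 561)), (Int.negSucc (nat_lit 3229))], []⟩,
    ⟨(nat_lit 2), (nat_lit 191), (nat_lit 141), (Int.ofNat (nat_lit 0)), (Int.ofNat (nat_lit 7387)), [(Int.ofNat (nat_lit 2131)), (Int.ofNat (nat_lit 738))], []⟩]⟩
def xA43 : Box := ⟨(nat_lit 106), (nat_lit 107), (nat_lit 104), (nat_lit 108), (nat_lit 0), (nat_lit 0), (nat_lit 8), (nat_lit 40), (nat_lit 4410), (nat_lit 5125), [(nat_lit 480), (nat_lit 882)], [],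
  [⟨(nat_lit 1), (nat_lit 391), (nat_lit 187), (Int.ofNat (nat_lit 0)), (Int.ofNat (nat_lit 10046)), [(Int.ofNat (nat_lit 1055)), (Int.negSucc (nat_lit 2834))], []⟩,
    ⟨(nat_lit 0), (nat_lit 0), (nat_lit 166), (Int.ofNat (nat_lit 0)), (Int.ofNat (nat_lit 5125)), [(Int.ofNat (nat_lit 234)), (Int.negSucc (nat_lit 1173))], []⟩,
    ⟨(nat_lit 1), (nat_lit 272), (nat_lit 209), (Int.ofNat (nat_lit 0)), (Int.ofNat (nat_lit 8606)), [(Int.ofNat (nat_lit 561)), (Int.negSucc (nat_lit 3191))], []⟩,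
    ⟨(nat_lit 2), (nat_lit 191), (nat_lit 141), (Int.ofNat (nat_lit 0)), (Int.ofNat (nat_lit 7529)), [(Int.ofNat (nat_lit 2133)), (Int.ofNat (nat_lit 693))], []⟩]⟩
def xA44 : Box := ⟨(nat_lit 107), (nat_lit 108), (nat_lit 104), (nat_lit 108), (nat_lit 0), (nat_lit 0), (nat_lit 8), (nat_lit 40), (nat_lit 4410), (nat_lit 5226), [(nat_lit 480), (nat_lit 882)], [],
  [⟨(nat_lit 1), (nat_lit 390), (nat_lit 185), (Int.ofNat (nat_lit 0)), (Int.ofNat (nat_lit 10215)), [(Int.ofNat (nat_lit 1080)), (Int.negSucc (nat_lit 2891))], []⟩,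
    ⟨(nat_lit 0), (nat_lit 0), (nat_lit 179), (Int.ofNat (nat_lit 0)), (Int.ofNat (nat_lit 5226)), [(Int.ofNat (nat_lit 234)), (Int.negSucc (nat_lit 1323))], []⟩,
    ⟨(nat_lit 1), (nat_lit 265), (nat_lit 207), (Int.ofNat (nat_lit 0)), (Int.ofNat (nat_lit 8649)), [(Int.ofNat (nat_lit 541)), (Int.negSucc (nat_lit 3222))], []⟩,
    ⟨(nat_lit 2), (nat_lit 274), (nat_lit 163), (Int.ofNat (nat_lit 0)), (Int.ofNat (nat_lit 8731)), [(Int.ofNat (nat_lit 2593)), (Int.ofNat (nat_lit 1737))], []⟩]⟩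
def xA45 : Box := ⟨(nat_lit 108), (nat_lit 109), (nat_lit 108), (nat_lit 112), (nat_lit 0), (nat_lit 0), (nat_lit 8), (nat_lit 40), (nat_lit 4375), (nat_lit 5328), [(nat_lit 460), (nat_lit 875)], [],
  [⟨(nat_lit 1), (nat_lit 395), (nat_lit 181), (Int.ofNat (nat_lit 0)), (Int.ofNat (nat_lit 10472)), [(Int.ofNat (nat_lit 1099)), (Int.negSucc (nat_lit 2760))], []⟩,
    ⟨(nat_lit 0), (nat_lit 0), (nat_lit 155), (Int.ofNat (nat_lit 0)), (Int.ofNat (nat_lit 5328)), [(Int.ofNat (nat_lit 110)), (Int.negSucc (nat_lit 781))], []⟩,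
    ⟨(nat_lit 1), (nat_lit 278), (nat_lit 201), (Int.ofNat (nat_lit 0)), (Int.ofNat (nat_lit 8978)), [(Int.ofNat (nat_lit 628)), (Int.negSucc (nat_lit 3109))], []⟩,
    ⟨(nat_lit 2), (nat_lit 143), (nat_lit 131), (Int.ofNat (nat_lit 0)), (Int.ofNat (nat_lit 7187)), [(Int.ofNat (nat_lit 1660)), (Int.ofNat (nat_lit 249))], []⟩]⟩
def xA46 : Box := ⟨(nat_lit 109), (nat_lit 110), (nat_lit 108), (nat_lit 112), (nat_lit 0), (nat_lit 0), (nat_lit 8), (nat_lit 40), (nat_lit 4375), (nat_lit 5427), [(nat_lit 460), (nat_lit 875)], [],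
  [⟨(nat_lit 1), (nat_lit 390), (nat_lit 177), (Int.ofNat (nat_lit 0)), (Int.ofNat (nat_lit 10588)), [(Int.ofNat (nat_lit 1113)), (Int.negSucc (nat_lit 2673))], []⟩,
    ⟨(nat_lit 0), (nat_lit 0), (nat_lit 155), (Int.ofNat (nat_lit 0)), (Int.ofNat (nat_lit 5427)), [(Int.ofNat (nat_lit 110)), (Int.negSucc (nat_lit 847))], []⟩,
    ⟨(nat_lit 1), (nat_lit 281), (nat_lit 199), (Int.ofNat (nat_lit 0)), (Int.ofNat (nat_lit 9241)), [(Int.ofNat (nat_lit 606)), (Int.negSucc (nat_lit 3133))], []⟩,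
    ⟨(nat_lit 2), (nat_lit 148), (nat_lit 140), (Int.ofNat (nat_lit 0)), (Int.ofNat (nat_lit 7383)), [(Int.ofNat (nat_lit 1558)), (Int.ofNat (nat_lit 344))], []⟩]⟩
def xA47 : Box := ⟨(nat_lit 110), (nat_lit 111), (nat_lit 108), (nat_lit 112), (nat_lit 0), (nat_lit 0), (nat_lit 8), (nat_lit 40), (nat_lit 4375), (nat_lit 5529), [(nat_lit 460), (nat_lit 875)], [],
  [⟨(nat_lit 1), (nat_lit 384), (nat_lit 173), (Int.ofNat (nat_lit 0)), (Int.ofNat (nat_lit 10686)), [(Int.ofNat (nat_lit 1121)), (Int.negSucc (nat_lit 2584))], []⟩,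
    ⟨(nat_lit 0), (nat_lit 0), (nat_lit 182), (Int.ofNat (nat_lit 0)), (Int.ofNat (nat_lit 5529)), [(Int.ofNat (nat_lit 233)), (Int.negSucc (nat_lit 1314))], []⟩,
    ⟨(nat_lit 1), (nat_lit 276), (nat_lit 201), (Int.ofNat (nat_lit 0)), (Int.ofNat (nat_lit 9453)), [(Int.ofNat (nat_lit 605)), (Int.negSucc (nat_lit 3217))], []⟩,
    ⟨(nat_lit 2), (nat_lit 333), (nat_lit 167), (Int.ofNat (nat_lit 0)), (Int.ofNat (nat_lit 10000)), [(Int.ofNat (nat_lit 2971)), (Int.ofNat (nat_lit 2616))], []⟩]⟩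
def xA48 : Box := ⟨(nat_lit 111), (nat_lit 112), (nat_lit 108), (nat_lit 112), (nat_lit 0), (nat_lit 0), (nat_lit 8), (nat_lit 40), (nat_lit 4375), (nat_lit 5629), [(nat_lit 460), (nat_lit 875)], [],
  [⟨(nat_lit 1), (nat_lit 380), (nat_lit 169), (Int.ofNat (nat_lit 0)), (Int.ofNat (nat_lit 10811)), [(Int.ofNat (nat_lit 1139)), (Int.negSucc (nat_lit 2525))], []⟩,
    ⟨(nat_lit 0), (nat_lit 0), (nat_lit 179), (Int.ofNat (nat_lit 0)), (Int.ofNat (nat_lit 5629)), [(Int.ofNat (nat_lit 233)), (Int.negSucc (nat_lit 1380))], []⟩,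
    ⟨(nat_lit 1), (nat_lit 272), (nat_lit 200), (Int.ofNat (nat_lit 0)), (Int.ofNat (nat_lit 9615)), [(Int.ofNat (nat_lit 604)), (Int.negSucc (nat_lit 3262))], []⟩,
    ⟨(nat_lit 2), (nat_lit 298), (nat_lit 132), (Int.ofNat (nat_lit 0)), (Int.ofNat (nat_lit 9693)), [(Int.ofNat (nat_lit 2709)), (Int.ofNat (nat_lit 2295))], []⟩]⟩
def xA49 : Box := ⟨(nat_lit 112), (nat_lit 114), (nat_lit 112), (nat_lit 116), (nat_lit 0), (nat_lit 0), (nat_lit 8), (nat_lit 40), (nat_lit 4310), (nat_lit 5829), [(nat_lit 440), (nat_lit 862)], [],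
  [⟨(nat_lit 1), (nat_lit 363), (nat_lit 163), (Int.ofNat (nat_lit 0)), (Int.ofNat (nat_lit 10937)), [(Int.ofNat (nat_lit 1063)), (Int.negSucc (nat_lit 2097))], []⟩,
    ⟨(nat_lit 0), (nat_lit 0), (nat_lit 187), (Int.ofNat (nat_lit 0)), (Int.ofNat (nat_lit 5829)), [(Int.ofNat (nat_lit 347)), (Int.negSucc (nat_lit 1780))], []⟩,
    ⟨(nat_lit 1), (nat_lit 287), (nat_lit 182), (Int.ofNat (nat_lit 0)), (Int.ofNat (nat_lit 10008)), [(Int.ofNat (nat_lit 685)), (Int.negSucc (nat_lit 2905))], []⟩,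
    ⟨(nat_lit 2), (nat_lit 428), (nat_lit 192), (Int.ofNat (nat_lit 0)), (Int.ofNat (nat_lit 12637)), [(Int.ofNat (nat_lit 3556)), (Int.ofNat (nat_lit 3655))], []⟩]⟩
def xA50 : Box := ⟨(nat_lit 114), (nat_lit 116), (nat_lit 112), (nat_lit 116), (nat_lit 0), (nat_lit 0), (nat_lit 8), (nat_lit 40), (nat_lit 4310), (nat_lit 6027), [(nat_lit 440), (nat_lit 862)], [],
  [⟨(nat_lit 1), (nat_lit 349), (nat_lit 157), (Int.ofNat (nat_lit 0)), (Int.ofNat (nat_lit 11093)), [(Int.ofNat (nat_lit 1049)), (Int.negSucc (nat_lit 2349))], []⟩,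
    ⟨(nat_lit 0), (nat_lit 0), (nat_lit 202), (Int.ofNat (nat_lit 0)), (Int.ofNat (nat_lit 6027)), [(Int.ofNat (nat_lit 274)), (Int.negSucc (nat_lit 1864))], []⟩,
    ⟨(nat_lit 1), (nat_lit 278), (nat_lit 185), (Int.ofNat (nat_lit 0)), (Int.ofNat (nat_lit 10400)), [(Int.ofNat (nat_lit 672)), (Int.negSucc (nat_lit 3049))], []⟩,
    ⟨(nat_lit 2), (nat_lit 428), (nat_lit 192), (Int.ofNat (nat_lit 0)), (Int.ofNat (nat_lit 13188)), [(Int.ofNat (nat_lit 3563)), (Int.ofNat (nat_lit 3535))], []⟩]⟩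
def xA51 : Box := ⟨(nat_lit 116), (nat_lit 118), (nat_lit 116), (nat_lit 120), (nat_lit 0), (nat_lit 0), (nat_lit 8), (nat_lit 40), (nat_lit 4235), (nat_lit 6224), [(nat_lit 420), (nat_lit 847)], [],
  [⟨(nat_lit 1), (nat_lit 338), (nat_lit 150), (Int.ofNat (nat_lit 0)), (Int.ofNat (nat_lit 11272)), [(Int.ofNat (nat_lit 1007)), (Int.negSucc (nat_lit 2056))], []⟩,
    ⟨(nat_lit 0), (nat_lit 0), (nat_lit 203), (Int.ofNat (nat_lit 0)), (Int.ofNat (nat_lit 6224)), [(Int.ofNat (nat_lit 272)), (Int.negSucc (nat_lit 1585))], []⟩,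
    ⟨(nat_lit 1), (nat_lit 290), (nat_lit 169), (Int.ofNat (nat_lit 0)), (Int.ofNat (nat_lit 10777)), [(Int.ofNat (nat_lit 740)), (Int.negSucc (nat_lit 2737))], []⟩,
    ⟨(nat_lit 2), (nat_lit 467), (nat_lit 159), (Int.ofNat (nat_lit 0)), (Int.ofNat (nat_lit 13777)), [(Int.ofNat (nat_lit 3746)), (Int.ofNat (nat_lit 4456))], []⟩]⟩
def xA52 : Box := ⟨(nat_lit 118), (nat_lit 120), (nat_lit 116), (nat_lit 120), (nat_lit 0), (nat_lit 0), (nat_lit 8), (nat_lit 40), (nat_lit 4235), (nat_lit 6420), [(nat_lit 420), (nat_lit 847)], [],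
  [⟨(nat_lit 1), (nat_lit 329), (nat_lit 144), (Int.ofNat (nat_lit 0)), (Int.ofNat (nat_lit 11478)), [(Int.ofNat (nat_lit 1017)), (Int.negSucc (nat_lit 1813))], []⟩,
    ⟨(nat_lit 0), (nat_lit 0), (nat_lit 155), (Int.ofNat (nat_lit 0)), (Int.ofNat (nat_lit 6420)), [(Int.ofNat (nat_lit 109)), (Int.negSucc (nat_lit 957))], []⟩,
    ⟨(nat_lit 1), (nat_lit 282), (nat_lit 172), (Int.ofNat (nat_lit 0)), (Int.ofNat (nat_lit 11166)), [(Int.ofNat (nat_lit 725)), (Int.negSucc (nat_lit 2873))], []⟩,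
    ⟨(nat_lit 2), (nat_lit 181), (nat_lit 178), (Int.ofNat (nat_lit 0)), (Int.ofNat (nat_lit 9417)), [(Int.ofNat (nat_lit 1388)), (Int.ofNat (nat_lit 1022))], []⟩]⟩
def xA53 : Box := ⟨(nat_lit 120), (nat_lit 122), (nat_lit 120), (nat_lit 124), (nat_lit 0), (nat_lit 0), (nat_lit 8), (nat_lit 40), (nat_lit 4160), (nat_lit 6587), [(nat_lit 400), (nat_lit 832)], [],
  [⟨(nat_lit 1), (nat_lit 908), (nat_lit 393), (Int.ofNat (nat_lit 0)), (Int.ofNat (nat_lit 27594)), [(Int.ofNat (nat_lit 2751)), (Int.negSucc (nat_lit 6133))], []⟩,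
    ⟨(nat_lit 0), (nat_lit 0), (nat_lit 169), (Int.ofNat (nat_lit 0)), (Int.ofNat (nat_lit 6587)), [(Int.ofNat (nat_lit 112)), (Int.negSucc (nat_lit 987))], []⟩,
    ⟨(nat_lit 1), (nat_lit 275), (nat_lit 150), (Int.ofNat (nat_lit 0)), (Int.ofNat (nat_lit 10936)), [(Int.ofNat (nat_lit 751)), (Int.negSucc (nat_lit 2448))], []⟩,
    ⟨(nat_lit 2), (nat_lit 162), (nat_lit 148), (Int.ofNat (nat_lit 0)), (Int.ofNat (nat_lit 9149)), [(Int.ofNat (nat_lit 1394)), (Int.ofNat (nat_lit 597))], []⟩]⟩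
def xA54 : Box := ⟨(nat_lit 122), (nat_lit 124), (nat_lit 120), (nat_lit 124), (nat_lit 0), (nat_lit 0), (nat_lit 8), (nat_lit 40), (nat_lit 4160), (nat_lit 6763), [(nat_lit 400), (nat_lit 832)], [],
  [⟨(nat_lit 1), (nat_lit 850), (nat_lit 363), (Int.ofNat (nat_lit 0)), (Int.ofNat (nat_lit 26320)), [(Int.ofNat (nat_lit 2661)), (Int.negSucc (nat_lit 5357))], []⟩,
    ⟨(nat_lit 0), (nat_lit 0), (nat_lit 190), (Int.ofNat (nat_lit 0)), (Int.ofNat (nat_lit 6770)), [(Int.ofNat (nat_lit 67)), (Int.negSucc (nat_lit 1061))], []⟩,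
    ⟨(nat_lit 1), (nat_lit 269), (nat_lit 154), (Int.ofNat (nat_lit 0)), (Int.ofNat (nat_lit 11213)), [(Int.ofNat (nat_lit 716)), (Int.negSucc (nat_lit 2541))], []⟩,
    ⟨(nat_lit 2), (nat_lit 162), (nat_lit 148), (Int.ofNat (nat_lit 0)), (Int.ofNat (nat_lit 9398)), [(Int.ofNat (nat_lit 1396)), (Int.ofNat (nat_lit 478))], []⟩]⟩
def xA55 : Box := ⟨(nat_lit 124), (nat_lit 126), (nat_lit 124), (nat_lit 128), (nat_lit 0), (nat_lit 0), (nat_lit 8), (nat_lit 40), (nat_lit 4085), (nat_lit 6939), [(nat_lit 380), (nat_lit 817)], [],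
  [⟨(nat_lit 1), (nat_lit 803), (nat_lit 339), (Int.ofNat (nat_lit 0)), (Int.ofNat (nat_lit 25560)), [(Int.ofNat (nat_lit 2461)), (Int.negSucc (nat_lit 5140))], []⟩,
    ⟨(nat_lit 0), (nat_lit 0), (nat_lit 190), (Int.ofNat (nat_lit 0)), (Int.ofNat (nat_lit 6986)), [(Int.ofNat (nat_lit 67)), (Int.negSucc (nat_lit 895))], []⟩,
    ⟨(nat_lit 1), (nat_lit 270), (nat_lit 149), (Int.ofNat (nat_lit 0)), (Int.ofNat (nat_lit 11459)), [(Int.ofNat (nat_lit 721)), (Int.negSucc (nat_lit 2231))], []⟩,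
    ⟨(nat_lit 2), (nat_lit 162), (nat_lit 148), (Int.ofNat (nat_lit 0)), (Int.ofNat (nat_lit 9646)), [(Int.ofNat (nat_lit 1342)), (Int.ofNat (nat_lit 550))], []⟩]⟩
def xA56 : Box := ⟨(nat_lit 126), (nat_lit 128), (nat_lit 124), (nat_lit 128), (nat_lit 0), (nat_lit 0), (nat_lit 8), (nat_lit 40), (nat_lit 4085), (nat_lit 7112), [(nat_lit 380), (nat_lit 817)], [],
  [⟨(nat_lit 1), (nat_lit 769), (nat_lit 319), (Int.ofNat (nat_lit 0)), (Int.ofNat (nat_lit 25099)), [(Int.ofNat (nat_lit 2433)), (Int.negSucc (nat_lit 4971))], []⟩,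
    ⟨(nat_lit 0), (nat_lit 0), (nat_lit 166), (Int.ofNat (nat_lit 0)), (Int.ofNat (nat_lit 7112)), [(Int.ofNat (nat_lit 233)), (Int.negSucc (nat_lit 1335))], []⟩,
    ⟨(nat_lit 1), (nat_lit 263), (nat_lit 148), (Int.ofNat (nat_lit 0)), (Int.ofNat (nat_lit 11627)), [(Int.ofNat (nat_lit 705)), (Int.negSucc (nat_lit 2345))], []⟩,
    ⟨(nat_lit 2), (nat_lit 365), (nat_lit 153), (Int.ofNat (nat_lit 0)), (Int.ofNat (nat_lit 13681)), [(Int.ofNat (nat_lit 2765)), (Int.ofNat (nat_lit 2975))], []⟩]⟩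
def xA57 : Box := ⟨(nat_lit 128), (nat_lit 130), (nat_lit 128), (nat_lit 132), (nat_lit 0), (nat_lit 0), (nat_lit 8), (nat_lit 40), (nat_lit 4000), (nat_lit 7284), [(nat_lit 360), (nat_lit 800)], [],
  [⟨(nat_lit 1), (nat_lit 737), (nat_lit 296), (Int.ofNat (nat_lit 0)), (Int.ofNat (nat_lit 24591)), [(Int.ofNat (nat_lit 2304)), (Int.negSucc (nat_lit 4582))], []⟩,
    ⟨(nat_lit 0), (nat_lit 0), (nat_lit 174), (Int.ofNat (nat_lit 0)), (Int.ofNat (nat_lit 7284)), [(Int.ofNat (nat_lit 192)), (Int.negSucc (nat_lit 1387))], []⟩,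
    ⟨(nat_lit 1), (nat_lit 266), (nat_lit 148), (Int.ofNat (nat_lit 0)), (Int.ofNat (nat_lit 11978)), [(Int.ofNat (nat_lit 701)), (Int.negSucc (nat_lit 2042))], []⟩,
    ⟨(nat_lit 2), (nat_lit 365), (nat_lit 153), (Int.ofNat (nat_lit 0)), (Int.ofNat (nat_lit 14028)), [(Int.ofNat (nat_lit 2644)), (Int.ofNat (nat_lit 2992))], []⟩]⟩
def xA58 : Box := ⟨(nat_lit 130), (nat_lit 132), (nat_lit 128), (nat_lit 132), (nat_lit 0), (nat_lit 0), (nat_lit 8), (nat_lit 40), (nat_lit 4000), (nat_lit 7454), [(nat_lit 360), (nat_lit 800)], [],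
  [⟨(nat_lit 1), (nat_lit 705), (nat_lit 276), (Int.ofNat (nat_lit 0)), (Int.ofNat (nat_lit 24101)), [(Int.ofNat (nat_lit 2287)), (Int.negSucc (nat_lit 4355))], []⟩,
    ⟨(nat_lit 0), (nat_lit 0), (nat_lit 155), (Int.ofNat (nat_lit 0)), (Int.ofNat (nat_lit 7454)), [(Int.ofNat (nat_lit 109)), (Int.negSucc (nat_lit 1022))], []⟩,
    ⟨(nat_lit 1), (nat_lit 256), (nat_lit 147), (Int.ofNat (nat_lit 0)), (Int.ofNat (nat_lit 12083)), [(Int.ofNat (nat_lit 676)), (Int.negSucc (nat_lit 2154))], []⟩,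
    ⟨(nat_lit 2), (nat_lit 152), (nat_lit 144), (Int.ofNat (nat_lit 0)), (Int.ofNat (nat_lit 10202)), [(Int.ofNat (nat_lit 1351)), (Int.ofNat (nat_lit 119))], []⟩]⟩
def xA59 : Box := ⟨(nat_lit 132), (nat_lit 136), (nat_lit 132), (nat_lit 136), (nat_lit 0), (nat_lit 0), (nat_lit 8), (nat_lit 40), (nat_lit 3915), (nat_lit 7789), [(nat_lit 340), (nat_lit 783)], [],
  [⟨(nat_lit 1), (nat_lit 599), (nat_lit 244), (Int.ofNat (nat_lit 0)), (Int.ofNat (nat_lit 22270)), [(Int.ofNat (nat_lit 1846)), (Int.negSucc (nat_lit 3367))], []⟩,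
    ⟨(nat_lit 0), (nat_lit 0), (nat_lit 166), (Int.ofNat (nat_lit 0)), (Int.ofNat (nat_lit 7789)), [(Int.ofNat (nat_lit 15)), (Int.negSucc (nat_lit 318))], []⟩,
    ⟨(nat_lit 1), (nat_lit 259), (nat_lit 141), (Int.ofNat (nat_lit 0)), (Int.ofNat (nat_lit 12713)), [(Int.ofNat (nat_lit 735)), (Int.negSucc (nat_lit 1999))], []⟩,
    ⟨(nat_lit 2), (nat_lit 179), (nat_lit 131), (Int.ofNat (nat_lit 0)), (Int.ofNat (nat_lit 11190)), [(Int.ofNat (nat_lit 1493)), (Int.ofNat (nat_lit 611))], []⟩]⟩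
def xA60 : Box := ⟨(nat_lit 136), (nat_lit 140), (nat_lit 136), (nat_lit 140), (nat_lit 0), (nat_lit 0), (nat_lit 8), (nat_lit 40), (nat_lit 3830), (nat_lit 8114), [(nat_lit 320), (nat_lit 766)], [],
  [⟨(nat_lit 1), (nat_lit 526), (nat_lit 209), (Int.ofNat (nat_lit 0)), (Int.ofNat (nat_lit 20926)), [(Int.ofNat (nat_lit 1602)), (Int.negSucc (nat_lit 2744))], []⟩,
    ⟨(nat_lit 0), (nat_lit 0), (nat_lit 163), (Int.ofNat (nat_lit 0)), (Int.ofNat (nat_lit 8114)), [(Int.ofNat (nat_lit 203)), (Int.negSucc (nat_lit 1239))], []⟩,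
    ⟨(nat_lit 1), (nat_lit 263), (nat_lit 132), (Int.ofNat (nat_lit 0)), (Int.ofNat (nat_lit 13357)), [(Int.ofNat (nat_lit 709)), (Int.negSucc (nat_lit 1799))], []⟩,
    ⟨(nat_lit 2), (nat_lit 201), (nat_lit 89), (Int.ofNat (nat_lit 0)), (Int.ofNat (nat_lit 12121)), [(Int.ofNat (nat_lit 1609)), (Int.ofNat (nat_lit 1392))], []⟩]⟩
def xA61 : Box := ⟨(nat_lit 140), (nat_lit 144), (nat_lit 140), (nat_lit 144), (nat_lit 0), (nat_lit 0), (nat_lit 8), (nat_lit 40), (nat_lit 4482), (nat_lit 8429), [(nat_lit 300), (nat_lit 747)], [],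
  [⟨(nat_lit 1), (nat_lit 467), (nat_lit 174), (Int.ofNat (nat_lit 0)), (Int.ofNat (nat_lit 19761)), [(Int.ofNat (nat_lit 1437)), (Int.negSucc (nat_lit 2432))], []⟩,
    ⟨(nat_lit 0), (nat_lit 0), (nat_lit 165), (Int.ofNat (nat_lit 0)), (Int.ofNat (nat_lit 8438)), [(Int.ofNat (nat_lit 55)), (Int.negSucc (nat_lit 606))], []⟩,
    ⟨(nat_lit 1), (nat_lit 269), (nat_lit 124), (Int.ofNat (nat_lit 0)), (Int.ofNat (nat_lit 14046)), [(Int.ofNat (nat_lit 729)), (Int.negSucc (nat_lit 1719))], []⟩,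
    ⟨(nat_lit 2), (nat_lit 202), (nat_lit 90), (Int.ofNat (nat_lit 0)), (Int.ofNat (nat_lit 12647)), [(Int.ofNat (nat_lit 1546)), (Int.ofNat (nat_lit 1334))], []⟩]⟩
def xA62 : Box := ⟨(nat_lit 144), (nat_lit 148), (nat_lit 144), (nat_lit 148), (nat_lit 0), (nat_lit 0), (nat_lit 8), (nat_lit 40), (nat_lit 4368), (nat_lit 8734), [(nat_lit 280), (nat_lit 728)], [],
  [⟨(nat_lit 1), (nat_lit 458), (nat_lit 166), (Int.ofNat (nat_lit 0)), (Int.ofNat (nat_lit 20257)), [(Int.ofNat (nat_lit 1379)), (Int.negSucc (nat_lit 2175))], []⟩,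
    ⟨(nat_lit 0), (nat_lit 0), (nat_lit 165), (Int.ofNat (nat_lit 0)), (Int.ofNat (nat_lit 8882)), [(Int.ofNat (nat_lit 55)), (Int.negSucc (nat_lit 624))], []⟩,
    ⟨(nat_lit 1), (nat_lit 264), (nat_lit 119), (Int.ofNat (nat_lit 0)), (Int.ofNat (nat_lit 14504)), [(Int.ofNat (nat_lit 696)), (Int.negSucc (nat_lit 1592))], []⟩,
    ⟨(nat_lit 2), (nat_lit 202), (nat_lit 90), (Int.ofNat (nat_lit 0)), (Int.ofNat (nat_lit 13144)), [(Int.ofNat (nat_lit 1477)), (Int.ofNat (nat_lit 1271))], []⟩]⟩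
def xA63 : Box := ⟨(nat_lit 148), (nat_lit 152), (nat_lit 148), (nat_lit 152), (nat_lit 0), (nat_lit 0), (nat_lit 8), (nat_lit 40), (nat_lit 4242), (nat_lit 9028), [(nat_lit 260), (nat_lit 707)], [],
  [⟨(nat_lit 1), (nat_lit 435), (nat_lit 156), (Int.ofNat (nat_lit 0)), (Int.ofNat (nat_lit 20309)), [(Int.ofNat (nat_lit 1255)), (Int.negSucc (nat_lit 2258))], []⟩,
    ⟨(nat_lit 0), (nat_lit 0), (nat_lit 118), (Int.ofNat (nat_lit 0)), (Int.ofNat (nat_lit 9028)), [(Int.ofNat (nat_lit 35)), (Int.negSucc (nat_lit 545))], []⟩,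
    ⟨(nat_lit 1), (nat_lit 262), (nat_lit 113), (Int.ofNat (nat_lit 0)), (Int.ofNat (nat_lit 15002)), [(Int.ofNat (nat_lit 673)), (Int.negSucc (nat_lit 1485))], []⟩,
    ⟨(nat_lit 2), (nat_lit 202), (nat_lit 90), (Int.ofNat (nat_lit 0)), (Int.ofNat (nat_lit 13632)), [(Int.ofNat (nat_lit 1409)), (Int.ofNat (nat_lit 1202))], []⟩]⟩
def xA64 : Box := ⟨(nat_lit 152), (nat_lit 156), (nat_lit 152), (nat_lit 156), (nat_lit 0), (nat_lit 0), (nat_lit 8), (nat_lit 40), (nat_lit 4116), (nat_lit 9310), [(nat_lit 240), (nat_lit 686)], [],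
  [⟨(nat_lit 1), (nat_lit 412), (nat_lit 148), (Int.ofNat (nat_lit 0)), (Int.ofNat (nat_lit 20354)), [(Int.ofNat (nat_lit 1121)), (Int.negSucc (nat_lit 2207))], []⟩,
    ⟨(nat_lit 0), (nat_lit 0), (nat_lit 118), (Int.ofNat (nat_lit 0)), (Int.ofNat (nat_lit 9310)), [(Int.ofNat (nat_lit 35)), (Int.negSucc (nat_lit 559))], []⟩,
    ⟨(nat_lit 1), (nat_lit 252), (nat_lit 109), (Int.ofNat (nat_lit 0)), (Int.ofNat (nat_lit 15303)), [(Int.ofNat (nat_lit 613)), (Int.negSucc (nat_lit 1357))], []⟩,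
    ⟨(nat_lit 2), (nat_lit 202), (nat_lit 90), (Int.ofNat (nat_lit 0)), (Int.ofNat (nat_lit 14110)), [(Int.ofNat (nat_lit 1339)), (Int.ofNat (nat_lit 1127))], []⟩]⟩
def xA65 : Box := ⟨(nat_lit 156), (nat_lit 160), (nat_lit 156), (nat_lit 160), (nat_lit 0), (nat_lit 0), (nat_lit 8), (nat_lit 40), (nat_lit 3984), (nat_lit 9581), [(nat_lit 220), (nat_lit 664)], [],
  [⟨(nat_lit 1), (nat_lit 371), (nat_lit 132), (Int.ofNat (nat_lit 0)), (Int.ofNat (nat_lit 19666)), [(Int.ofNat (nat_lit 953)), (Int.negSucc (nat_lit 1716))], []⟩,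
    ⟨(nat_lit 0), (nat_lit 0), (nat_lit 118), (Int.ofNat (nat_lit 0)), (Int.ofNat (nat_lit 9581)), [(Int.ofNat (nat_lit 35)), (Int.negSucc (nat_lit 573))], []⟩,
    ⟨(nat_lit 1), (nat_lit 250), (nat_lit 104), (Int.ofNat (nat_lit 0)), (Int.ofNat (nat_lit 15769)), [(Int.ofNat (nat_lit 584)), (Int.negSucc (nat_lit 1283))], []⟩,
    ⟨(nat_lit 2), (nat_lit 202), (nat_lit 90), (Int.ofNat (nat_lit 0)), (Int.ofNat (nat_lit 14578)), [(Int.ofNat (nat_lit 1271)), (Int.ofNat (nat_lit 1047))], []⟩]⟩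
def xA66 : Box := ⟨(nat_lit 160), (nat_lit 164), (nat_lit 160), (nat_lit 164), (nat_lit 0), (nat_lit 0), (nat_lit 8), (nat_lit 40), (nat_lit 3840), (nat_lit 9581), [(nat_lit 200), (nat_lit 640)], [],
  [⟨(nat_lit 1), (nat_lit 356), (nat_lit 126), (Int.ofNat (nat_lit 0)), (Int.ofNat (nat_lit 19839)), [(Int.ofNat (nat_lit 853)), (Int.negSucc (nat_lit 1273))], []⟩,
    ⟨(nat_lit 0), (nat_lit 0), (nat_lit 118), (Int.ofNat (nat_lit 0)), (Int.ofNat (nat_lit 9581)), [(Int.ofNat (nat_lit 35)), (Int.negSucc (nat_lit 588))], []⟩,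
    ⟨(nat_lit 1), (nat_lit 250), (nat_lit 104), (Int.ofNat (nat_lit 0)), (Int.ofNat (nat_lit 16369)), [(Int.ofNat (nat_lit 544)), (Int.negSucc (nat_lit 1225))], []⟩,
    ⟨(nat_lit 2), (nat_lit 202), (nat_lit 90), (Int.ofNat (nat_lit 0)), (Int.ofNat (nat_lit 14727)), [(Int.ofNat (nat_lit 1202)), (Int.ofNat (nat_lit 962))], []⟩]⟩
def xA67 : Box := ⟨(nat_lit 164), (nat_lit 168), (nat_lit 164), (nat_lit 168), (nat_lit 0), (nat_lit 0), (nat_lit 8), (nat_lit 40), (nat_lit 3696), (nat_lit 9727), [(nat_lit 180), (nat_lit 616)], [],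
  [⟨(nat_lit 1), (nat_lit 519), (nat_lit 181), (Int.ofNat (nat_lit 0)), (Int.ofNat (nat_lit 28202)), [(Int.ofNat (nat_lit 1154)), (Int.negSucc (nat_lit 1932))], []⟩,
    ⟨(nat_lit 0), (nat_lit 0), (nat_lit 133), (Int.ofNat (nat_lit 0)), (Int.ofNat (nat_lit 10164)), [(Int.ofNat (nat_lit 11)), (Int.negSucc (nat_lit 330))], []⟩,
    ⟨(nat_lit 1), (nat_lit 258), (nat_lit 108), (Int.ofNat (nat_lit 0)), (Int.ofNat (nat_lit 17268)), [(Int.ofNat (nat_lit 515)), (Int.negSucc (nat_lit 1216))], []⟩,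
    ⟨(nat_lit 2), (nat_lit 200), (nat_lit 134), (Int.ofNat (nat_lit 0)), (Int.ofNat (nat_lit 16079)), [(Int.ofNat (nat_lit 723)), (Int.ofNat (nat_lit 830))], []⟩]⟩
def xP0 : Box := ⟨(nat_lit 106), (nat_lit 108), (nat_lit 104), (nat_lit 108), (nat_lit 8), (nat_lit 10), (nat_lit 10), (nat_lit 1), (nat_lit 2754), (nat_lit 275), [(nat_lit 480), (nat_lit 541)], [(nat_lit 0), (nat_lit 300), (nat_lit 550), (nat_lit 750), (nat_lit 918)],
  [⟨(nat_lit 1), (nat_lit 116), (nat_lit 392), (Int.ofNat (nat_lit 26)), (Int.ofNat (nat_lit 2128)), [(Int.ofNat (nat_lit 161)), (Int.negSucc (nat_lit 60))], [(Int.ofNat (nat_lit 792)), (Int.ofNat (nat_lit 792)), (Int.negSucc (nat_lit 94)), (Int.ofNat (nat_lit 27)), (Int.ofNat (nat_lit 277))]⟩,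
    ⟨(nat_lit 0), (nat_lit 0), (nat_lit 166), (Int.ofNat (nat_lit 0)), (Int.ofNat (nat_lit 275)), [(Int.ofNat (nat_lit 73)), (Int.ofNat (nat_lit 125))], [(Int.ofNat (nat_lit 4)), (Int.ofNat (nat_lit 6)), (Int.ofNat (nat_lit 8)), (Int.ofNat (nat_lit 10)), (Int.ofNat (nat_lit 12))]⟩,
    ⟨(nat_lit 1), (nat_lit 307), (nat_lit 622), (Int.ofNat (nat_lit 30)), (Int.ofNat (nat_lit 5311)), [(Int.ofNat (nat_lit 457)), (Int.negSucc (nat_lit 132))], [(Int.ofNat (nat_lit 2247)), (Int.ofNat (nat_lit 2247)), (Int.negSucc (nat_lit 264)), (Int.ofNat (nat_lit 75)), (Int.ofNat (nat_lit 708))]⟩,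
    ⟨(nat_lit 2), (nat_lit 145), (nat_lit 72), (Int.ofNat (nat_lit 3)), (Int.ofNat (nat_lit 2592)), [(Int.ofNat (nat_lit 1321)), (Int.ofNat (nat_lit 1287))], [(Int.ofNat (nat_lit 1158)), (Int.ofNat (nat_lit 1335)), (Int.ofNat (nat_lit 1633)), (Int.ofNat (nat_lit 1940)), (Int.ofNat (nat_lit 2240))]⟩]⟩
def xP1 : Box := ⟨(nat_lit 108), (nat_lit 110), (nat_lit 108), (nat_lit 112), (nat_lit 8), (nat_lit 10), (nat_lit 10), (nat_lit 3), (nat_lit 3648), (nat_lit 656), [(nat_lit 460), (nat_lit 592)], [(nat_lit 0), (nat_lit 300), (nat_lit 550), (nat_lit 750), (nat_lit 912)],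
  [⟨(nat_lit 1), (nat_lit 117), (nat_lit 475), (Int.ofNat (nat_lit 23)), (Int.ofNat (nat_lit 2574)), [(Int.ofNat (nat_lit 166)), (Int.ofNat (nat_lit 3))], [(Int.ofNat (nat_lit 790)), (Int.ofNat (nat_lit 790)), (Int.negSucc (nat_lit 93)), (Int.ofNat (nat_lit 37)), (Int.ofNat (nat_lit 288))]⟩,
    ⟨(nat_lit 0), (nat_lit 0), (nat_lit 166), (Int.ofNat (nat_lit 0)), (Int.ofNat (nat_lit 656)), [(Int.ofNat (nat_lit 36)), (Int.ofNat (nat_lit 38))], [(Int.ofNat (nat_lit 4)), (Int.ofNat (nat_lit 6)), (Int.ofNat (nat_lit 8)), (Int.ofNat (nat_lit 10)), (Int.ofNat (nat_lit 12))]⟩,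
    ⟨(nat_lit 1), (nat_lit 314), (nat_lit 478), (Int.ofNat (nat_lit 31)), (Int.ofNat (nat_lit 6053)), [(Int.ofNat (nat_lit 516)), (Int.negSucc (nat_lit 718))], [(Int.ofNat (nat_lit 2265)), (Int.ofNat (nat_lit 2265)), (Int.negSucc (nat_lit 264)), (Int.ofNat (nat_lit 102)), (Int.ofNat (nat_lit 749))]⟩,
    ⟨(nat_lit 2), (nat_lit 158), (nat_lit 79), (Int.ofNat (nat_lit 51)), (Int.ofNat (nat_lit 3352)), [(Int.ofNat (nat_lit 1299)), (Int.ofNat (nat_lit 1605))], [(Int.ofNat (nat_lit 1104)), (Int.ofNat (nat_lit 1322)), (Int.ofNat (nat_lit 1686)), (Int.ofNat (nat_lit 2055)), (Int.ofNat (nat_lit 2394))]⟩]⟩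
def xP2 : Box := ⟨(nat_lit 110), (nat_lit 112), (nat_lit 108), (nat_lit 112), (nat_lit 8), (nat_lit 10), (nat_lit 10), (nat_lit 4), (nat_lit 3648), (nat_lit 1044), [(nat_lit 460), (nat_lit 592)], [(nat_lit 0), (nat_lit 300), (nat_lit 550), (nat_lit 750), (nat_lit 912)],
  [⟨(nat_lit 1), (nat_lit 117), (nat_lit 492), (Int.ofNat (nat_lit 34)), (Int.ofNat (nat_lit 3010)), [(Int.ofNat (nat_lit 179)), (Int.negSucc (nat_lit 265))], [(Int.ofNat (nat_lit 780)), (Int.ofNat (nat_lit 780)), (Int.negSucc (nat_lit 90)), (Int.ofNat (nat_lit 46)), (Int.ofNat (nat_lit 306))]⟩,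
    ⟨(nat_lit 0), (nat_lit 0), (nat_lit 166), (Int.ofNat (nat_lit 0)), (Int.ofNat (nat_lit 1044)), [(Int.ofNat (nat_lit 36)), (Int.negSucc (nat_lit 10))], [(Int.ofNat (nat_lit 4)), (Int.ofNat (nat_lit 6)), (Int.ofNat (nat_lit 8)), (Int.ofNat (nat_lit 10)), (Int.ofNat (nat_lit 12))]⟩,
    ⟨(nat_lit 1), (nat_lit 313), (nat_lit 523), (Int.ofNat (nat_lit 32)), (Int.ofNat (nat_lit 6555)), [(Int.ofNat (nat_lit 535)), (Int.negSucc (nat_lit 962))], [(Int.ofNat (nat_lit 2221)), (Int.ofNat (nat_lit 2221)), (Int.negSucc (nat_lit 256)), (Int.ofNat (nat_lit 123)), (Int.ofNat (nat_lit 792))]⟩,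
    ⟨(nat_lit 2), (nat_lit 158), (nat_lit 79), (Int.ofNat (nat_lit 51)), (Int.ofNat (nat_lit 3813)), [(Int.ofNat (nat_lit 1301)), (Int.ofNat (nat_lit 1590))], [(Int.ofNat (nat_lit 1093)), (Int.ofNat (nat_lit 1314)), (Int.ofNat (nat_lit 1687)), (Int.ofNat (nat_lit 2068)), (Int.ofNat (nat_lit 2418))]⟩]⟩
def xP3 : Box := ⟨(nat_lit 112), (nat_lit 114), (nat_lit 112), (nat_lit 116), (nat_lit 8), (nat_lit 10), (nat_lit 10), (nat_lit 6), (nat_lit 3600), (nat_lit 1423), [(nat_lit 440), (nat_lit 613)], [(nat_lit 0), (nat_lit 300), (nat_lit 550), (nat_lit 750), (nat_lit 900)],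
  [⟨(nat_lit 1), (nat_lit 2178), (nat_lit 2149), (Int.ofNat (nat_lit 413)), (Int.ofNat (nat_lit 44707)), [(Int.ofNat (nat_lit 4301)), (Int.negSucc (nat_lit 5915))], [(Int.ofNat (nat_lit 14276)), (Int.ofNat (nat_lit 14276)), (Int.negSucc (nat_lit 1790)), (Int.ofNat (nat_lit 867)), (Int.ofNat (nat_lit 5446))]⟩,
    ⟨(nat_lit 0), (nat_lit 0), (nat_lit 166), (Int.ofNat (nat_lit 0)), (Int.ofNat (nat_lit 1423)), [(Int.ofNat (nat_lit 36)), (Int.negSucc (nat_lit 20))], [(Int.ofNat (nat_lit 4)), (Int.ofNat (nat_lit 6)), (Int.ofNat (nat_lit 8)), (Int.ofNat (nat_lit 10)), (Int.ofNat (nat_lit 12))]⟩,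
    ⟨(nat_lit 1), (nat_lit 285), (nat_lit 489), (Int.ofNat (nat_lit 29)), (Int.ofNat (nat_lit 6456)), [(Int.ofNat (nat_lit 495)), (Int.negSucc (nat_lit 951))], [(Int.ofNat (nat_lit 1992)), (Int.ofNat (nat_lit 1992)), (Int.negSucc (nat_lit 226)), (Int.ofNat (nat_lit 138)), (Int.ofNat (nat_lit 718))]⟩,
    ⟨(nat_lit 2), (nat_lit 158), (nat_lit 79), (Int.ofNat (nat_lit 51)), (Int.ofNat (nat_lit 4246)), [(Int.ofNat (nat_lit 1251)), (Int.ofNat (nat_lit 1583))], [(Int.ofNat (nat_lit 1080)), (Int.ofNat (nat_lit 1306)), (Int.ofNat (nat_lit 1689)), (Int.ofNat (nat_lit 2081)), (Int.ofNat (nat_lit 2414))]⟩]⟩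
def xP4 : Box := ⟨(nat_lit 114), (nat_lit 116), (nat_lit 112), (nat_lit 116), (nat_lit 8), (nat_lit 10), (nat_lit 10), (nat_lit 6), (nat_lit 3600), (nat_lit 1793), [(nat_lit 440), (nat_lit 613)], [(nat_lit 0), (nat_lit 300), (nat_lit 550), (nat_lit 750), (nat_lit 900)],
  [⟨(nat_lit 1), (nat_lit 3000), (nat_lit 3493), (Int.ofNat (nat_lit 352)), (Int.ofNat (nat_lit 64675)), [(Int.ofNat (nat_lit 5903)), (Int.negSucc (nat_lit 10548))], [(Int.ofNat (nat_lit 20379)), (Int.ofNat (nat_lit 20379)), (Int.negSucc (nat_lit 2404)), (Int.ofNat (nat_lit 1437)), (Int.ofNat (nat_lit 7919))]⟩,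
    ⟨(nat_lit 0), (nat_lit 0), (nat_lit 166), (Int.ofNat (nat_lit 0)), (Int.ofNat (nat_lit 1793)), [(Int.ofNat (nat_lit 36)), (Int.negSucc (nat_lit 85))], [(Int.ofNat (nat_lit 4)), (Int.ofNat (nat_lit 6)), (Int.ofNat (nat_lit 8)), (Int.ofNat (nat_lit 10)), (Int.ofNat (nat_lit 12))]⟩,
    ⟨(nat_lit 1), (nat_lit 284), (nat_lit 517), (Int.ofNat (nat_lit 29)), (Int.ofNat (nat_lit 6880)), [(Int.ofNat (nat_lit 517)), (Int.negSucc (nat_lit 1239))], [(Int.ofNat (nat_lit 1954)), (Int.ofNat (nat_lit 1954)), (Int.negSucc (nat_lit 219)), (Int.ofNat (nat_lit 161)), (Int.ofNat (nat_lit 756))]⟩,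
    ⟨(nat_lit 2), (nat_lit 158), (nat_lit 79), (Int.ofNat (nat_lit 51)), (Int.ofNat (nat_lit 4616)), [(Int.ofNat (nat_lit 1253)), (Int.ofNat (nat_lit 1562))], [(Int.ofNat (nat_lit 1068)), (Int.ofNat (nat_lit 1299)), (Int.ofNat (nat_lit 1691)), (Int.ofNat (nat_lit 2094)), (Int.ofNat (nat_lit 2437))]⟩]⟩
def xP5 : Box := ⟨(nat_lit 116), (nat_lit 118), (nat_lit 116), (nat_lit 120), (nat_lit 8), (nat_lit 10), (nat_lit 10), (nat_lit 7), (nat_lit 3552), (nat_lit 2155), [(nat_lit 420), (nat_lit 610)], [(nat_lit 0), (nat_lit 300), (nat_lit 550), (nat_lit 750), (nat_lit 888)],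
  [⟨(nat_lit 1), (nat_lit 3000), (nat_lit 2921), (Int.ofNat (nat_lit 342)), (Int.ofNat (nat_lit 65502)), [(Int.ofNat (nat_lit 6191)), (Int.negSucc (nat_lit 8050))], [(Int.ofNat (nat_lit 20120)), (Int.ofNat (nat_lit 20120)), (Int.negSucc (nat_lit 2338)), (Int.ofNat (nat_lit 1682)), (Int.ofNat (nat_lit 7803))]⟩,
    ⟨(nat_lit 0), (nat_lit 0), (nat_lit 166), (Int.ofNat (nat_lit 0)), (Int.ofNat (nat_lit 2155)), [(Int.ofNat (nat_lit 35)), (Int.negSucc (nat_lit 45))], [(Int.ofNat (nat_lit 4)), (Int.ofNat (nat_lit 6)), (Int.ofNat (nat_lit 8)), (Int.ofNat (nat_lit 10)), (Int.ofNat (nat_lit 12))]⟩,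
    ⟨(nat_lit 1), (nat_lit 276), (nat_lit 495), (Int.ofNat (nat_lit 29)), (Int.ofNat (nat_lit 7216)), [(Int.ofNat (nat_lit 503)), (Int.negSucc (nat_lit 844))], [(Int.ofNat (nat_lit 1866)), (Int.ofNat (nat_lit 1866)), (Int.negSucc (nat_lit 207)), (Int.ofNat (nat_lit 176)), (Int.ofNat (nat_lit 723))]⟩,
    ⟨(nat_lit 2), (nat_lit 158), (nat_lit 79), (Int.ofNat (nat_lit 51)), (Int.ofNat (nat_lit 5057)), [(Int.ofNat (nat_lit 1202)), (Int.ofNat (nat_lit 1552))], [(Int.ofNat (nat_lit 1057)), (Int.ofNat (nat_lit 1291)), (Int.ofNat (nat_lit 1693)), (Int.ofNat (nat_lit 2107)), (Int.ofNat (nat_lit 2430))]⟩]⟩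
def xP6 : Box := ⟨(nat_lit 118), (nat_lit 120), (nat_lit 116), (nat_lit 120), (nat_lit 8), (nat_lit 10), (nat_lit 10), (nat_lit 8), (nat_lit 3552), (nat_lit 2508), [(nat_lit 420), (nat_lit 610)], [(nat_lit 0), (nat_lit 300), (nat_lit 550), (nat_lit 750), (nat_lit 888)],
  [⟨(nat_lit 1), (nat_lit 3000), (nat_lit 2542), (Int.ofNat (nat_lit 301)), (Int.ofNat (nat_lit 67439)), [(Int.ofNat (nat_lit 6736)), (Int.negSucc (nat_lit 8734))], [(Int.ofNat (nat_lit 19996)), (Int.ofNat (nat_lit 19996)), (Int.negSucc (nat_lit 2270)), (Int.ofNat (nat_lit 2129)), (Int.ofNat (nat_lit 8231))]⟩,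
    ⟨(nat_lit 0), (nat_lit 0), (nat_lit 166), (Int.ofNat (nat_lit 0)), (Int.ofNat (nat_lit 2508)), [(Int.ofNat (nat_lit 35)), (Int.negSucc (nat_lit 117))], [(Int.ofNat (nat_lit 4)), (Int.ofNat (nat_lit 6)), (Int.ofNat (nat_lit 8)), (Int.ofNat (nat_lit 10)), (Int.ofNat (nat_lit 12))]⟩,
    ⟨(nat_lit 1), (nat_lit 276), (nat_lit 603), (Int.ofNat (nat_lit 30)), (Int.ofNat (nat_lit 7615)), [(Int.ofNat (nat_lit 513)), (Int.negSucc (nat_lit 1319))], [(Int.ofNat (nat_lit 1831)), (Int.ofNat (nat_lit 1831)), (Int.negSucc (nat_lit 201)), (Int.ofNat (nat_lit 194)), (Int.ofNat (nat_lit 760))]⟩,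
    ⟨(nat_lit 2), (nat_lit 158), (nat_lit 79), (Int.ofNat (nat_lit 51)), (Int.ofNat (nat_lit 5432)), [(Int.ofNat (nat_lit 1204)), (Int.ofNat (nat_lit 1527))], [(Int.ofNat (nat_lit 1046)), (Int.ofNat (nat_lit 1283)), (Int.ofNat (nat_lit 1695)), (Int.ofNat (nat_lit 2119)), (Int.ofNat (nat_lit 2451))]⟩]⟩
def xP7 : Box := ⟨(nat_lit 120), (nat_lit 122), (nat_lit 120), (nat_lit 124), (nat_lit 8), (nat_lit 10), (nat_lit 10), (nat_lit 10), (nat_lit 3500), (nat_lit 2508), [(nat_lit 400), (nat_lit 625)], [(nat_lit 0), (nat_lit 300), (nat_lit 550), (nat_lit 750), (nat_lit 875)],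
  [⟨(nat_lit 1), (nat_lit 3000), (nat_lit 2352), (Int.ofNat (nat_lit 382)), (Int.ofNat (nat_lit 70650)), [(Int.ofNat (nat_lit 6793)), (Int.negSucc (nat_lit 8233))], [(Int.ofNat (nat_lit 19245)), (Int.ofNat (nat_lit 19245)), (Int.negSucc (nat_lit 2200)), (Int.ofNat (nat_lit 2169)), (Int.ofNat (nat_lit 7988))]⟩,
    ⟨(nat_lit 0), (nat_lit 0), (nat_lit 166), (Int.ofNat (nat_lit 0)), (Int.ofNat (nat_lit 2508)), [(Int.ofNat (nat_lit 35)), (Int.negSucc (nat_lit 98))], [(Int.ofNat (nat_lit 4)), (Int.ofNat (nat_lit 6)), (Int.ofNat (nat_lit 8)), (Int.ofNat (nat_lit 10)), (Int.ofNat (nat_lit 12))]⟩,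
    ⟨(nat_lit 1), (nat_lit 280), (nat_lit 469), (Int.ofNat (nat_lit 30)), (Int.ofNat (nat_lit 7694)), [(Int.ofNat (nat_lit 539)), (Int.negSucc (nat_lit 1079))], [(Int.ofNat (nat_lit 1827)), (Int.ofNat (nat_lit 1827)), (Int.negSucc (nat_lit 197)), (Int.ofNat (nat_lit 222)), (Int.ofNat (nat_lit 752))]⟩,
    ⟨(nat_lit 2), (nat_lit 158), (nat_lit 79), (Int.ofNat (nat_lit 51)), (Int.ofNat (nat_lit 5432)), [(Int.ofNat (nat_lit 1153)), (Int.ofNat (nat_lit 1527))], [(Int.ofNat (nat_lit 1035)), (Int.ofNat (nat_lit 1276)), (Int.ofNat (nat_lit 1697)), (Int.ofNat (nat_lit 2132)), (Int.ofNat (nat_lit 2440))]⟩]⟩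
def xP8 : Box := ⟨(nat_lit 122), (nat_lit 124), (nat_lit 120), (nat_lit 124), (nat_lit 8), (nat_lit 10), (nat_lit 10), (nat_lit 11), (nat_lit 3500), (nat_lit 2591), [(nat_lit 400), (nat_lit 625)], [(nat_lit 0), (nat_lit 300), (nat_lit 550), (nat_lit 750), (nat_lit 875)],
  [⟨(nat_lit 1), (nat_lit 3000), (nat_lit 2144), (Int.ofNat (nat_lit 382)), (Int.ofNat (nat_lit 73328)), [(Int.ofNat (nat_lit 7255)), (Int.negSucc (nat_lit 9014))], [(Int.ofNat (nat_lit 18872)), (Int.ofNat (nat_lit 18872)), (Int.negSucc (nat_lit 2129)), (Int.ofNat (nat_lit 2411)), (Int.ofNat (nat_lit 8362))]⟩,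
    ⟨(nat_lit 0), (nat_lit 0), (nat_lit 149), (Int.ofNat (nat_lit 0)), (Int.ofNat (nat_lit 2591)), [(Int.ofNat (nat_lit 151)), (Int.negSucc (nat_lit 445))], [(Int.ofNat (nat_lit 4)), (Int.ofNat (nat_lit 6)), (Int.ofNat (nat_lit 8)), (Int.ofNat (nat_lit 10)), (Int.ofNat (nat_lit 12))]⟩,
    ⟨(nat_lit 1), (nat_lit 278), (nat_lit 426), (Int.ofNat (nat_lit 31)), (Int.ofNat (nat_lit 7977)), [(Int.ofNat (nat_lit 564)), (Int.negSucc (nat_lit 1343))], [(Int.ofNat (nat_lit 1774)), (Int.ofNat (nat_lit 1774)), (Int.negSucc (nat_lit 189)), (Int.ofNat (nat_lit 237)), (Int.ofNat (nat_lit 781))]⟩,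
    ⟨(nat_lit 2), (nat_lit 234), (nat_lit 117), (Int.ofNat (nat_lit 12)), (Int.ofNat (nat_lit 7124)), [(Int.ofNat (nat_lit 1588)), (Int.ofNat (nat_lit 2141))], [(Int.ofNat (nat_lit 1691)), (Int.ofNat (nat_lit 2022)), (Int.ofNat (nat_lit 2618)), (Int.ofNat (nat_lit 3247)), (Int.ofNat (nat_lit 3701))]⟩]⟩
def xP9 : Box := ⟨(nat_lit 124), (nat_lit 126), (nat_lit 124), (nat_lit 128), (nat_lit 8), (nat_lit 10), (nat_lit 10), (nat_lit 13), (nat_lit 3444), (nat_lit 2871), [(nat_lit 380), (nat_lit 644)], [(nat_lit 0), (nat_lit 300), (nat_lit 500), (nat_lit 700), (nat_lit 861)],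
  [⟨(nat_lit 1), (nat_lit 3000), (nat_lit 1970), (Int.ofNat (nat_lit 361)), (Int.ofNat (nat_lit 75802)), [(Int.ofNat (nat_lit 7311)), (Int.negSucc (nat_lit 8637))], [(Int.ofNat (nat_lit 18655)), (Int.ofNat (nat_lit 18655)), (Int.ofNat (nat_lit 44)), (Int.ofNat (nat_lit 353)), (Int.ofNat (nat_lit 7985))]⟩,
    ⟨(nat_lit 0), (nat_lit 0), (nat_lit 149), (Int.ofNat (nat_lit 0)), (Int.ofNat (nat_lit 2871)), [(Int.ofNat (nat_lit 151)), (Int.negSucc (nat_lit 493))], [(Int.ofNat (nat_lit 4)), (Int.ofNat (nat_lit 6)), (Int.ofNat (nat_lit 8)), (Int.ofNat (nat_lit 10)), (Int.ofNat (nat_lit 12))]⟩,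
    ⟨(nat_lit 1), (nat_lit 280), (nat_lit 400), (Int.ofNat (nat_lit 32)), (Int.ofNat (nat_lit 8418)), [(Int.ofNat (nat_lit 567)), (Int.negSucc (nat_lit 1214))], [(Int.ofNat (nat_lit 1753)), (Int.ofNat (nat_lit 1753)), (Int.ofNat (nat_lit 11)), (Int.ofNat (nat_lit 50)), (Int.ofNat (nat_lit 751))]⟩,
    ⟨(nat_lit 2), (nat_lit 234), (nat_lit 117), (Int.ofNat (nat_lit 12)), (Int.ofNat (nat_lit 7507)), [(Int.ofNat (nat_lit 1511)), (Int.ofNat (nat_lit 2207))], [(Int.ofNat (nat_lit 1674)), (Int.ofNat (nat_lit 2011)), (Int.ofNat (nat_lit 2481)), (Int.ofNat (nat_lit 3092)), (Int.ofNat (nat_lit 3678))]⟩]⟩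
def xP10 : Box := ⟨(nat_lit 126), (nat_lit 128), (nat_lit 124), (nat_lit 128), (nat_lit 8), (nat_lit 10), (nat_lit 10), (nat_lit 15), (nat_lit 3444), (nat_lit 3145), [(nat_lit 380), (nat_lit 644)], [(nat_lit 0), (nat_lit 300), (nat_lit 500), (nat_lit 700), (nat_lit 861)],
  [⟨(nat_lit 1), (nat_lit 3000), (nat_lit 1878), (Int.ofNat (nat_lit 285)), (Int.ofNat (nat_lit 78302)), [(Int.ofNat (nat_lit 7634)), (Int.negSucc (nat_lit 12277))], [(Int.ofNat (nat_lit 18632)), (Int.ofNat (nat_lit 18632)), (Int.ofNat (nat_lit 37)), (Int.ofNat (nat_lit 922)), (Int.ofNat (nat_lit 8580))]⟩,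
    ⟨(nat_lit 0), (nat_lit 0), (nat_lit 149), (Int.ofNat (nat_lit 0)), (Int.ofNat (nat_lit 3145)), [(Int.ofNat (nat_lit 151)), (Int.negSucc (nat_lit 578))], [(Int.ofNat (nat_lit 4)), (Int.ofNat (nat_lit 6)), (Int.ofNat (nat_lit 8)), (Int.ofNat (nat_lit 10)), (Int.ofNat (nat_lit 12))]⟩,
    ⟨(nat_lit 1), (nat_lit 273), (nat_lit 380), (Int.ofNat (nat_lit 33)), (Int.ofNat (nat_lit 8675)), [(Int.ofNat (nat_lit 573)), (Int.negSucc (nat_lit 1523))], [(Int.ofNat (nat_lit 1663)), (Int.ofNat (nat_lit 1663)), (Int.ofNat (nat_lit 10)), (Int.ofNat (nat_lit 58)), (Int.ofNat (nat_lit 767))]⟩,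
    ⟨(nat_lit 2), (nat_lit 234), (nat_lit 117), (Int.ofNat (nat_lit 12)), (Int.ofNat (nat_lit 7884)), [(Int.ofNat (nat_lit 1512)), (Int.ofNat (nat_lit 2138))], [(Int.ofNat (nat_lit 1657)), (Int.ofNat (nat_lit 2000)), (Int.ofNat (nat_lit 2480)), (Int.ofNat (nat_lit 3107)), (Int.ofNat (nat_lit 3706))]⟩]⟩
def xP11 : Box := ⟨(nat_lit 128), (nat_lit 130), (nat_lit 128), (nat_lit 132), (nat_lit 8), (nat_lit 10), (nat_lit 10), (nat_lit 18), (nat_lit 3384), (nat_lit 3414), [(nat_lit 360), (nat_lit 667)], [(nat_lit 0), (nat_lit 300), (nat_lit 500), (nat_lit 700), (nat_lit 846)],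
  [⟨(nat_lit 1), (nat_lit 3000), (nat_lit 1723), (Int.ofNat (nat_lit 285)), (Int.ofNat (nat_lit 80922)), [(Int.ofNat (nat_lit 7676)), (Int.negSucc (nat_lit 12097))], [(Int.ofNat (nat_lit 18268)), (Int.ofNat (nat_lit 18268)), (Int.ofNat (nat_lit 32)), (Int.ofNat (nat_lit 1110)), (Int.ofNat (nat_lit 8203))]⟩,
    ⟨(nat_lit 0), (nat_lit 0), (nat_lit 147), (Int.ofNat (nat_lit 18)), (Int.ofNat (nat_lit 3414)), [(Int.ofNat (nat_lit 31)), (Int.negSucc (nat_lit 208))], [(Int.ofNat (nat_lit 4)), (Int.ofNat (nat_lit 5)), (Int.ofNat (nat_lit 7)), (Int.ofNat (nat_lit 9)), (Int.ofNat (nat_lit 11))]⟩,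
    ⟨(nat_lit 1), (nat_lit 294), (nat_lit 355), (Int.ofNat (nat_lit 31)), (Int.ofNat (nat_lit 9523)), [(Int.ofNat (nat_lit 618)), (Int.negSucc (nat_lit 1415))], [(Int.ofNat (nat_lit 1778)), (Int.ofNat (nat_lit 1778)), (Int.ofNat (nat_lit 10)), (Int.ofNat (nat_lit 102)), (Int.ofNat (nat_lit 799))]⟩,
    ⟨(nat_lit 2), (nat_lit 158), (nat_lit 79), (Int.ofNat (nat_lit 51)), (Int.ofNat (nat_lit 6684)), [(Int.ofNat (nat_lit 1050)), (Int.ofNat (nat_lit 1482))], [(Int.ofNat (nat_lit 990)), (Int.ofNat (nat_lit 1247)), (Int.ofNat (nat_lit 1600)), (Int.ofNat (nat_lit 2055)), (Int.ofNat (nat_lit 2437))]⟩]⟩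
def xP12 : Box := ⟨(nat_lit 130), (nat_lit 132), (nat_lit 128), (nat_lit 132), (nat_lit 8), (nat_lit 10), (nat_lit 10), (nat_lit 20), (nat_lit 3384), (nat_lit 3676), [(nat_lit 360), (nat_lit 667)], [(nat_lit 0), (nat_lit 300), (nat_lit 500), (nat_lit 700), (nat_lit 846)],
  [⟨(nat_lit 1), (nat_lit 3000), (nat_lit 1696), (Int.ofNat (nat_lit 412)), (Int.ofNat (nat_lit 84864)), [(Int.ofNat (nat_lit 7897)), (Int.negSucc (nat_lit 13625))], [(Int.ofNat (nat_lit 17265)), (Int.ofNat (nat_lit 17265)), (Int.ofNat (nat_lit 29)), (Int.ofNat (nat_lit 886)), (Int.ofNat (nat_lit 8247))]⟩,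
    ⟨(nat_lit 0), (nat_lit 0), (nat_lit 147), (Int.ofNat (nat_lit 18)), (Int.ofNat (nat_lit 3676)), [(Int.ofNat (nat_lit 31)), (Int.negSucc (nat_lit 316))], [(Int.ofNat (nat_lit 4)), (Int.ofNat (nat_lit 5)), (Int.ofNat (nat_lit 7)), (Int.ofNat (nat_lit 9)), (Int.ofNat (nat_lit 11))]⟩,
    ⟨(nat_lit 1), (nat_lit 276), (nat_lit 335), (Int.ofNat (nat_lit 32)), (Int.ofNat (nat_lit 9540)), [(Int.ofNat (nat_lit 597)), (Int.negSucc (nat_lit 1692))], [(Int.ofNat (nat_lit 1621)), (Int.ofNat (nat_lit 1621)), (Int.ofNat (nat_lit 9)), (Int.ofNat (nat_lit 100)), (Int.ofNat (nat_lit 767))]⟩,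
    ⟨(nat_lit 2), (nat_lit 158), (nat_lit 79), (Int.ofNat (nat_lit 51)), (Int.ofNat (nat_lit 7016)), [(Int.ofNat (nat_lit 1050)), (Int.ofNat (nat_lit 1438))], [(Int.ofNat (nat_lit 979)), (Int.ofNat (nat_lit 1240)), (Int.ofNat (nat_lit 1600)), (Int.ofNat (nat_lit 2064)), (Int.ofNat (nat_lit 2453))]⟩]⟩
def xP13 : Box := ⟨(nat_lit 132), (nat_lit 134), (nat_lit 132), (nat_lit 136), (nat_lit 8), (nat_lit 10), (nat_lit 10), (nat_lit 22), (nat_lit 3324), (nat_lit 3934), [(nat_lit 340), (nat_lit 684)], [(nat_lit 0), (nat_lit 300), (nat_lit 500), (nat_lit 700), (nat_lit 831)],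
  [⟨(nat_lit 1), (nat_lit 2998), (nat_lit 1642), (Int.ofNat (nat_lit 412)), (Int.ofNat (nat_lit 88378)), [(Int.ofNat (nat_lit 7735)), (Int.negSucc (nat_lit 13191))], [(Int.ofNat (nat_lit 16855)), (Int.ofNat (nat_lit 16855)), (Int.ofNat (nat_lit 31)), (Int.ofNat (nat_lit 1069)), (Int.ofNat (nat_lit 7786))]⟩,
    ⟨(nat_lit 0), (nat_lit 0), (nat_lit 164), (Int.ofNat (nat_lit 0)), (Int.ofNat (nat_lit 3934)), [(Int.ofNat (nat_lit 31)), (Int.negSucc (nat_lit 254))], [(Int.ofNat (nat_lit 4)), (Int.ofNat (nat_lit 6)), (Int.ofNat (nat_lit 8)), (Int.ofNat (nat_lit 10)), (Int.ofNat (nat_lit 11))]⟩,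
    ⟨(nat_lit 1), (nat_lit 310), (nat_lit 312), (Int.ofNat (nat_lit 31)), (Int.ofNat (nat_lit 10709)), [(Int.ofNat (nat_lit 673)), (Int.negSucc (nat_lit 1597))], [(Int.ofNat (nat_lit 1804)), (Int.ofNat (nat_lit 1804)), (Int.ofNat (nat_lit 10)), (Int.ofNat (nat_lit 155)), (Int.ofNat (nat_lit 840))]⟩,
    ⟨(nat_lit 2), (nat_lit 158), (nat_lit 79), (Int.ofNat (nat_lit 51)), (Int.ofNat (nat_lit 7346)), [(Int.ofNat (nat_lit 997)), (Int.ofNat (nat_lit 1454))], [(Int.ofNat (nat_lit 968)), (Int.ofNat (nat_lit 1233)), (Int.ofNat (nat_lit 1600)), (Int.ofNat (nat_lit 2074)), (Int.ofNat (nat_lit 2429))]⟩]⟩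
def xP14 : Box := ⟨(nat_lit 134), (nat_lit 136), (nat_lit 132), (nat_lit 136), (nat_lit 8), (nat_lit 10), (nat_lit 10), (nat_lit 25), (nat_lit 3324), (nat_lit 4185), [(nat_lit 340), (nat_lit 684)], [(nat_lit 0), (nat_lit 300), (nat_lit 500), (nat_lit 700), (nat_lit 831)],
  [⟨(nat_lit 1), (nat_lit 2835), (nat_lit 1432), (Int.ofNat (nat_lit 325)), (Int.ofNat (nat_lit 85670)), [(Int.ofNat (nat_lit 7725)), (Int.negSucc (nat_lit 14206))], [(Int.ofNat (nat_lit 15879)), (Int.ofNat (nat_lit 15879)), (Int.ofNat (nat_lit 33)), (Int.ofNat (nat_lit 1302)), (Int.ofNat (nat_lit 7673))]⟩,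
    ⟨(nat_lit 0), (nat_lit 0), (nat_lit 164), (Int.ofNat (nat_lit 0)), (Int.ofNat (nat_lit 4185)), [(Int.ofNat (nat_lit 31)), (Int.negSucc (nat_lit 395))], [(Int.ofNat (nat_lit 4)), (Int.ofNat (nat_lit 6)), (Int.ofNat (nat_lit 8)), (Int.ofNat (nat_lit 10)), (Int.ofNat (nat_lit 11))]⟩,
    ⟨(nat_lit 1), (nat_lit 284), (nat_lit 295), (Int.ofNat (nat_lit 30)), (Int.ofNat (nat_lit 10521)), [(Int.ofNat (nat_lit 628)), (Int.negSucc (nat_lit 1833))], [(Int.ofNat (nat_lit 1606)), (Int.ofNat (nat_lit 1606)), (Int.ofNat (nat_lit 10)), (Int.ofNat (nat_lit 152)), (Int.ofNat (nat_lit 792))]⟩,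
    ⟨(nat_lit 2), (nat_lit 158), (nat_lit 79), (Int.ofNat (nat_lit 51)), (Int.ofNat (nat_lit 7688)), [(Int.ofNat (nat_lit 998)), (Int.ofNat (nat_lit 1403))], [(Int.ofNat (nat_lit 957)), (Int.ofNat (nat_lit 1226)), (Int.ofNat (nat_lit 1600)), (Int.ofNat (nat_lit 2084)), (Int.ofNat (nat_lit 2445))]⟩]⟩
def xP15 : Box := ⟨(nat_lit 136), (nat_lit 138), (nat_lit 136), (nat_lit 140), (nat_lit 8), (nat_lit 10), (nat_lit 10), (nat_lit 28), (nat_lit 3256), (nat_lit 4432), [(nat_lit 320), (nat_lit 710)], [(nat_lit 0), (nat_lit 300), (nat_lit 500), (nat_lit 700), (nat_lit 814)],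
  [⟨(nat_lit 1), (nat_lit 2767), (nat_lit 1367), (Int.ofNat (nat_lit 345)), (Int.ofNat (nat_lit 87384)), [(Int.ofNat (nat_lit 7300)), (Int.negSucc (nat_lit 13793))], [(Int.ofNat (nat_lit 14991)), (Int.ofNat (nat_lit 14991)), (Int.ofNat (nat_lit 39)), (Int.ofNat (nat_lit 1327)), (Int.ofNat (nat_lit 6902))]⟩,
    ⟨(nat_lit 0), (nat_lit 0), (nat_lit 166), (Int.ofNat (nat_lit 0)), (Int.ofNat (nat_lit 4432)), [(Int.ofNat (nat_lit 5)), (Int.ofNat (nat_lit 91))], [(Int.ofNat (nat_lit 4)), (Int.ofNat (nat_lit 6)), (Int.ofNat (nat_lit 8)), (Int.ofNat (nat_lit 10)), (Int.ofNat (nat_lit 11))]⟩,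
    ⟨(nat_lit 1), (nat_lit 313), (nat_lit 273), (Int.ofNat (nat_lit 37)), (Int.ofNat (nat_lit 11623)), [(Int.ofNat (nat_lit 735)), (Int.negSucc (nat_lit 1951))], [(Int.ofNat (nat_lit 1709)), (Int.ofNat (nat_lit 1709)), (Int.ofNat (nat_lit 11)), (Int.ofNat (nat_lit 167)), (Int.ofNat (nat_lit 790))]⟩,
    ⟨(nat_lit 2), (nat_lit 161), (nat_lit 86), (Int.ofNat (nat_lit 51)), (Int.ofNat (nat_lit 8094)), [(Int.ofNat (nat_lit 975)), (Int.ofNat (nat_lit 1395))], [(Int.ofNat (nat_lit 964)), (Int.ofNat (nat_lit 1243)), (Int.ofNat (nat_lit 1631)), (Int.ofNat (nat_lit 2133)), (Int.ofNat (nat_lit 2458))]⟩]⟩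
def xP16 : Box := ⟨(nat_lit 138), (nat_lit 140), (nat_lit 136), (nat_lit 140), (nat_lit 8), (nat_lit 10), (nat_lit 10), (nat_lit 32), (nat_lit 3256), (nat_lit 4672), [(nat_lit 320), (nat_lit 710)], [(nat_lit 0), (nat_lit 300), (nat_lit 500), (nat_lit 700), (nat_lit 814)],
  [⟨(nat_lit 1), (nat_lit 2610), (nat_lit 1192), (Int.ofNat (nat_lit 372)), (Int.ofNat (nat_lit 85215)), [(Int.ofNat (nat_lit 7291)), (Int.negSucc (nat_lit 15335))], [(Int.ofNat (nat_lit 13570)), (Int.ofNat (nat_lit 13570)), (Int.ofNat (nat_lit 45)), (Int.ofNat (nat_lit 1413)), (Int.ofNat (nat_lit 6752))]⟩,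
    ⟨(nat_lit 0), (nat_lit 0), (nat_lit 137), (Int.ofNat (nat_lit 8)), (Int.ofNat (nat_lit 4672)), [(Int.ofNat (nat_lit 4)), (Int.negSucc (nat_lit 204))], [(Int.ofNat (nat_lit 4)), (Int.ofNat (nat_lit 5)), (Int.ofNat (nat_lit 7)), (Int.ofNat (nat_lit 9)), (Int.ofNat (nat_lit 11))]⟩,
    ⟨(nat_lit 1), (nat_lit 296), (nat_lit 252), (Int.ofNat (nat_lit 33)), (Int.ofNat (nat_lit 11592)), [(Int.ofNat (nat_lit 712)), (Int.negSucc (nat_lit 2075))], [(Int.ofNat (nat_lit 1586)), (Int.ofNat (nat_lit 1586)), (Int.ofNat (nat_lit 12)), (Int.ofNat (nat_lit 187)), (Int.ofNat (nat_lit 786))]⟩,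
    ⟨(nat_lit 2), (nat_lit 234), (nat_lit 117), (Int.ofNat (nat_lit 12)), (Int.ofNat (nat_lit 10042)), [(Int.ofNat (nat_lit 1278)), (Int.ofNat (nat_lit 2120))], [(Int.ofNat (nat_lit 1555)), (Int.ofNat (nat_lit 1937)), (Int.ofNat (nat_lit 2481)), (Int.ofNat (nat_lit 3195)), (Int.ofNat (nat_lit 3669))]⟩]⟩
def xP17 : Box := ⟨(nat_lit 140), (nat_lit 142), (nat_lit 140), (nat_lit 144), (nat_lit 8), (nat_lit 10), (nat_lit 10), (nat_lit 36), (nat_lit 3985), (nat_lit 4908), [(nat_lit 300), (nat_lit 738)], [(nat_lit 0), (nat_lit 300), (nat_lit 550), (nat_lit 797)],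
  [⟨(nat_lit 1), (nat_lit 421), (nat_lit 227), (Int.ofNat (nat_lit 58)), (Int.ofNat (nat_lit 15187)), [(Int.ofNat (nat_lit 1042)), (Int.negSucc (nat_lit 1272))], [(Int.ofNat (nat_lit 2143)), (Int.ofNat (nat_lit 2143)), (Int.negSucc (nat_lit 190)), (Int.ofNat (nat_lit 942))]⟩,
    ⟨(nat_lit 0), (nat_lit 0), (nat_lit 137), (Int.ofNat (nat_lit 7)), (Int.ofNat (nat_lit 4908)), [(Int.ofNat (nat_lit 27)), (Int.negSucc (nat_lit 363))], [(Int.ofNat (nat_lit 4)), (Int.ofNat (nat_lit 5)), (Int.ofNat (nat_lit 8)), (Int.ofNat (nat_lit 10))]⟩,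
    ⟨(nat_lit 1), (nat_lit 311), (nat_lit 239), (Int.ofNat (nat_lit 63)), (Int.ofNat (nat_lit 12514)), [(Int.ofNat (nat_lit 737)), (Int.negSucc (nat_lit 2105))], [(Int.ofNat (nat_lit 1581)), (Int.ofNat (nat_lit 1581)), (Int.negSucc (nat_lit 138)), (Int.ofNat (nat_lit 594))]⟩,
    ⟨(nat_lit 2), (nat_lit 237), (nat_lit 158), (Int.ofNat (nat_lit 11)), (Int.ofNat (nat_lit 10454)), [(Int.ofNat (nat_lit 1287)), (Int.ofNat (nat_lit 1804))], [(Int.ofNat (nat_lit 1566)), (Int.ofNat (nat_lit 1958)), (Int.ofNat (nat_lit 2688)), (Int.ofNat (nat_lit 3669))]⟩]⟩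
def xP18 : Box := ⟨(nat_lit 142), (nat_lit 144), (nat_lit 140), (nat_lit 144), (nat_lit 8), (nat_lit 10), (nat_lit 10), (nat_lit 40), (nat_lit 3985), (nat_lit 5138), [(nat_lit 300), (nat_lit 738)], [(nat_lit 0), (nat_lit 300), (nat_lit 550), (nat_lit 797)],
  [⟨(nat_lit 1), (nat_lit 418), (nat_lit 203), (Int.ofNat (nat_lit 57)), (Int.ofNat (nat_lit 15531)), [(Int.ofNat (nat_lit 1100)), (Int.negSucc (nat_lit 390))], [(Int.ofNat (nat_lit 2073)), (Int.ofNat (nat_lit 2073)), (Int.negSucc (nat_lit 176)), (Int.ofNat (nat_lit 946))]⟩,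
    ⟨(nat_lit 0), (nat_lit 0), (nat_lit 137), (Int.ofNat (nat_lit 7)), (Int.ofNat (nat_lit 5138)), [(Int.ofNat (nat_lit 27)), (Int.negSucc (nat_lit 522))], [(Int.ofNat (nat_lit 4)), (Int.ofNat (nat_lit 5)), (Int.ofNat (nat_lit 8)), (Int.ofNat (nat_lit 10))]⟩,
    ⟨(nat_lit 1), (nat_lit 324), (nat_lit 216), (Int.ofNat (nat_lit 70)), (Int.ofNat (nat_lit 13243)), [(Int.ofNat (nat_lit 762)), (Int.negSucc (nat_lit 2334))], [(Int.ofNat (nat_lit 1607)), (Int.ofNat (nat_lit 1607)), (Int.negSucc (nat_lit 135)), (Int.ofNat (nat_lit 601))]⟩,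
    ⟨(nat_lit 2), (nat_lit 237), (nat_lit 158), (Int.ofNat (nat_lit 11)), (Int.ofNat (nat_lit 10793)), [(Int.ofNat (nat_lit 1287)), (Int.ofNat (nat_lit 1643))], [(Int.ofNat (nat_lit 1550)), (Int.ofNat (nat_lit 1948)), (Int.ofNat (nat_lit 2691)), (Int.ofNat (nat_lit 3687))]⟩]⟩
def xP19 : Box := ⟨(nat_lit 144), (nat_lit 146), (nat_lit 144), (nat_lit 148), (nat_lit 8), (nat_lit 10), (nat_lit 10), (nat_lit 46), (nat_lit 3895), (nat_lit 5363), [(nat_lit 280), (nat_lit 770)], [(nat_lit 0), (nat_lit 300), (nat_lit 550), (nat_lit 779)],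
  [⟨(nat_lit 1), (nat_lit 416), (nat_lit 179), (Int.ofNat (nat_lit 55)), (Int.ofNat (nat_lit 15913)), [(Int.ofNat (nat_lit 1104)), (Int.negSucc (nat_lit 163))], [(Int.ofNat (nat_lit 2013)), (Int.ofNat (nat_lit 2013)), (Int.negSucc (nat_lit 162)), (Int.ofNat (nat_lit 874))]⟩,
    ⟨(nat_lit 0), (nat_lit 0), (nat_lit 137), (Int.ofNat (nat_lit 7)), (Int.ofNat (nat_lit 5363)), [(Int.ofNat (nat_lit 27)), (Int.negSucc (nat_lit 438))], [(Int.ofNat (nat_lit 4)), (Int.ofNat (nat_lit 5)), (Int.ofNat (nat_lit 8)), (Int.ofNat (nat_lit 10))]⟩,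
    ⟨(nat_lit 1), (nat_lit 324), (nat_lit 194), (Int.ofNat (nat_lit 70)), (Int.ofNat (nat_lit 13653)), [(Int.ofNat (nat_lit 858)), (Int.negSucc (nat_lit 2562))], [(Int.ofNat (nat_lit 1565)), (Int.ofNat (nat_lit 1565)), (Int.negSucc (nat_lit 125)), (Int.ofNat (nat_lit 543))]⟩,
    ⟨(nat_lit 2), (nat_lit 237), (nat_lit 158), (Int.ofNat (nat_lit 11)), (Int.ofNat (nat_lit 11127)), [(Int.ofNat (nat_lit 1207)), (Int.ofNat (nat_lit 1743))], [(Int.ofNat (nat_lit 1532)), (Int.ofNat (nat_lit 1938)), (Int.ofNat (nat_lit 2695)), (Int.ofNat (nat_lit 3631))]⟩]⟩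
def xP20 : Box := ⟨(nat_lit 146), (nat_lit 148), (nat_lit 144), (nat_lit 148), (nat_lit 8), (nat_lit 10), (nat_lit 10), (nat_lit 50), (nat_lit 3895), (nat_lit 5582), [(nat_lit 280), (nat_lit 770)], [(nat_lit 0), (nat_lit 300), (nat_lit 550), (nat_lit 779)],
  [⟨(nat_lit 1), (nat_lit 354), (nat_lit 155), (Int.ofNat (nat_lit 46)), (Int.ofNat (nat_lit 14670)), [(Int.ofNat (nat_lit 943)), (Int.negSucc (nat_lit 2390))], [(Int.ofNat (nat_lit 1667)), (Int.ofNat (nat_lit 1667)), (Int.negSucc (nat_lit 126)), (Int.ofNat (nat_lit 750))]⟩,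
    ⟨(nat_lit 0), (nat_lit 0), (nat_lit 137), (Int.ofNat (nat_lit 7)), (Int.ofNat (nat_lit 5582)), [(Int.ofNat (nat_lit 27)), (Int.negSucc (nat_lit 623))], [(Int.ofNat (nat_lit 4)), (Int.ofNat (nat_lit 5)), (Int.ofNat (nat_lit 8)), (Int.ofNat (nat_lit 10))]⟩,
    ⟨(nat_lit 1), (nat_lit 302), (nat_lit 165), (Int.ofNat (nat_lit 64)), (Int.ofNat (nat_lit 13411)), [(Int.ofNat (nat_lit 751)), (Int.negSucc (nat_lit 2380))], [(Int.ofNat (nat_lit 1420)), (Int.ofNat (nat_lit 1420)), (Int.negSucc (nat_lit 106)), (Int.ofNat (nat_lit 511))]⟩,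
    ⟨(nat_lit 2), (nat_lit 237), (nat_lit 158), (Int.ofNat (nat_lit 11)), (Int.ofNat (nat_lit 11460)), [(Int.ofNat (nat_lit 1205)), (Int.ofNat (nat_lit 1558))], [(Int.ofNat (nat_lit 1516)), (Int.ofNat (nat_lit 1928)), (Int.ofNat (nat_lit 2699)), (Int.ofNat (nat_lit 3648))]⟩]⟩
def xP21 : Box := ⟨(nat_lit 148), (nat_lit 150), (nat_lit 148), (nat_lit 152), (nat_lit 8), (nat_lit 10), (nat_lit 10), (nat_lit 50), (nat_lit 3800), (nat_lit 5797), [(nat_lit 260), (nat_lit 760)], [(nat_lit 0), (nat_lit 300), (nat_lit 550), (nat_lit 760)],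
  [⟨(nat_lit 1), (nat_lit 362), (nat_lit 148), (Int.ofNat (nat_lit 38)), (Int.ofNat (nat_lit 15231)), [(Int.ofNat (nat_lit 944)), (Int.negSucc (nat_lit 2194))], [(Int.ofNat (nat_lit 1692)), (Int.ofNat (nat_lit 1692)), (Int.negSucc (nat_lit 117)), (Int.ofNat (nat_lit 738))]⟩,
    ⟨(nat_lit 0), (nat_lit 0), (nat_lit 137), (Int.ofNat (nat_lit 7)), (Int.ofNat (nat_lit 5797)), [(Int.ofNat (nat_lit 27)), (Int.negSucc (nat_lit 464))], [(Int.ofNat (nat_lit 4)), (Int.ofNat (nat_lit 5)), (Int.ofNat (nat_lit 8)), (Int.ofNat (nat_lit 10))]⟩,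
    ⟨(nat_lit 1), (nat_lit 263), (nat_lit 154), (Int.ofNat (nat_lit 64)), (Int.ofNat (nat_lit 12748)), [(Int.ofNat (nat_lit 679)), (Int.negSucc (nat_lit 2053))], [(Int.ofNat (nat_lit 1203)), (Int.ofNat (nat_lit 1203)), (Int.negSucc (nat_lit 82)), (Int.ofNat (nat_lit 363))]⟩,
    ⟨(nat_lit 2), (nat_lit 237), (nat_lit 158), (Int.ofNat (nat_lit 11)), (Int.ofNat (nat_lit 11797)), [(Int.ofNat (nat_lit 1126)), (Int.ofNat (nat_lit 1641))], [(Int.ofNat (nat_lit 1501)), (Int.ofNat (nat_lit 1918)), (Int.ofNat (nat_lit 2703)), (Int.ofNat (nat_lit 3584))]⟩]⟩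
def xP22 : Box := ⟨(nat_lit 150), (nat_lit 152), (nat_lit 148), (nat_lit 152), (nat_lit 8), (nat_lit 10), (nat_lit 10), (nat_lit 50), (nat_lit 3800), (nat_lit 6006), [(nat_lit 260), (nat_lit 760)], [(nat_lit 0), (nat_lit 300), (nat_lit 550), (nat_lit 760)],
  [⟨(nat_lit 1), (nat_lit 353), (nat_lit 149), (Int.ofNat (nat_lit 42)), (Int.ofNat (nat_lit 15403)), [(Int.ofNat (nat_lit 915)), (Int.negSucc (nat_lit 2514))], [(Int.ofNat (nat_lit 1572)), (Int.ofNat (nat_lit 1503)), (Int.negSucc (nat_lit 102)), (Int.ofNat (nat_lit 693))]⟩,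
    ⟨(nat_lit 0), (nat_lit 0), (nat_lit 137), (Int.ofNat (nat_lit 7)), (Int.ofNat (nat_lit 6006)), [(Int.ofNat (nat_lit 27)), (Int.negSucc (nat_lit 661))], [(Int.ofNat (nat_lit 4)), (Int.ofNat (nat_lit 5)), (Int.ofNat (nat_lit 8)), (Int.ofNat (nat_lit 10))]⟩,
    ⟨(nat_lit 1), (nat_lit 279), (nat_lit 161), (Int.ofNat (nat_lit 69)), (Int.ofNat (nat_lit 13546)), [(Int.ofNat (nat_lit 653)), (Int.negSucc (nat_lit 2201))], [(Int.ofNat (nat_lit 1239)), (Int.ofNat (nat_lit 1239)), (Int.negSucc (nat_lit 78)), (Int.ofNat (nat_lit 362))]⟩,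
    ⟨(nat_lit 2), (nat_lit 237), (nat_lit 158), (Int.ofNat (nat_lit 11)), (Int.ofNat (nat_lit 12128)), [(Int.ofNat (nat_lit 1125)), (Int.ofNat (nat_lit 1442))], [(Int.ofNat (nat_lit 1485)), (Int.ofNat (nat_lit 1909)), (Int.ofNat (nat_lit 2707)), (Int.ofNat (nat_lit 3599))]⟩]⟩
def xP23 : Box := ⟨(nat_lit 152), (nat_lit 154), (nat_lit 152), (nat_lit 156), (nat_lit 8), (nat_lit 10), (nat_lit 10), (nat_lit 50), (nat_lit 3700), (nat_lit 6211), [(nat_lit 240), (nat_lit 740)], [(nat_lit 0), (nat_lit 300), (nat_lit 550), (nat_lit 740)],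
  [⟨(nat_lit 1), (nat_lit 348), (nat_lit 144), (Int.ofNat (nat_lit 40)), (Int.ofNat (nat_lit 15630)), [(Int.ofNat (nat_lit 854)), (Int.negSucc (nat_lit 2147))], [(Int.ofNat (nat_lit 1503)), (Int.ofNat (nat_lit 1503)), (Int.negSucc (nat_lit 88)), (Int.ofNat (nat_lit 612))]⟩,
    ⟨(nat_lit 0), (nat_lit 0), (nat_lit 137), (Int.ofNat (nat_lit 7)), (Int.ofNat (nat_lit 6211)), [(Int.ofNat (nat_lit 27)), (Int.negSucc (nat_lit 479))], [(Int.ofNat (nat_lit 4)), (Int.ofNat (nat_lit 5)), (Int.ofNat (nat_lit 8)), (Int.ofNat (nat_lit 10))]⟩,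
    ⟨(nat_lit 1), (nat_lit 295), (nat_lit 154), (Int.ofNat (nat_lit 62)), (Int.ofNat (nat_lit 14293)), [(Int.ofNat (nat_lit 674)), (Int.negSucc (nat_lit 1917))], [(Int.ofNat (nat_lit 1272)), (Int.ofNat (nat_lit 1272)), (Int.negSucc (nat_lit 73)), (Int.ofNat (nat_lit 380))]⟩,
    ⟨(nat_lit 2), (nat_lit 237), (nat_lit 158), (Int.ofNat (nat_lit 11)), (Int.ofNat (nat_lit 12454)), [(Int.ofNat (nat_lit 1046)), (Int.ofNat (nat_lit 1525))], [(Int.ofNat (nat_lit 1469)), (Int.ofNat (nat_lit 1899)), (Int.ofNat (nat_lit 2711)), (Int.ofNat (nat_lit 3528))]⟩]⟩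
def xP24 : Box := ⟨(nat_lit 154), (nat_lit 156), (nat_lit 152), (nat_lit 156), (nat_lit 8), (nat_lit 10), (nat_lit 10), (nat_lit 50), (nat_lit 3700), (nat_lit 6410), [(nat_lit 240), (nat_lit 740)], [(nat_lit 0), (nat_lit 300), (nat_lit 550), (nat_lit 740)],
  [⟨(nat_lit 1), (nat_lit 345), (nat_lit 140), (Int.ofNat (nat_lit 38)), (Int.ofNat (nat_lit 15909)), [(Int.ofNat (nat_lit 867)), (Int.negSucc (nat_lit 2403))], [(Int.ofNat (nat_lit 1444)), (Int.ofNat (nat_lit 1444)), (Int.negSucc (nat_lit 75)), (Int.ofNat (nat_lit 607))]⟩,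
    ⟨(nat_lit 0), (nat_lit 0), (nat_lit 137), (Int.ofNat (nat_lit 7)), (Int.ofNat (nat_lit 6410)), [(Int.ofNat (nat_lit 27)), (Int.negSucc (nat_lit 689))], [(Int.ofNat (nat_lit 4)), (Int.ofNat (nat_lit 5)), (Int.ofNat (nat_lit 8)), (Int.ofNat (nat_lit 10))]⟩,
    ⟨(nat_lit 1), (nat_lit 229), (nat_lit 149), (Int.ofNat (nat_lit 62)), (Int.ofNat (nat_lit 12808)), [(Int.ofNat (nat_lit 499)), (Int.negSucc (nat_lit 1719))], [(Int.ofNat (nat_lit 958)), (Int.ofNat (nat_lit 958)), (Int.negSucc (nat_lit 46)), (Int.ofNat (nat_lit 212))]⟩,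
    ⟨(nat_lit 2), (nat_lit 237), (nat_lit 158), (Int.ofNat (nat_lit 11)), (Int.ofNat (nat_lit 12877)), [(Int.ofNat (nat_lit 1044)), (Int.ofNat (nat_lit 1317))], [(Int.ofNat (nat_lit 1453)), (Int.ofNat (nat_lit 1890)), (Int.ofNat (nat_lit 2716)), (Int.ofNat (nat_lit 3541))]⟩]⟩
def xP25 : Box := ⟨(nat_lit 156), (nat_lit 158), (nat_lit 156), (nat_lit 160), (nat_lit 8), (nat_lit 10), (nat_lit 10), (nat_lit 50), (nat_lit 3595), (nat_lit 6604), [(nat_lit 220), (nat_lit 719)], [(nat_lit 0), (nat_lit 300), (nat_lit 550), (nat_lit 719)],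
  [⟨(nat_lit 1), (nat_lit 346), (nat_lit 135), (Int.ofNat (nat_lit 37)), (Int.ofNat (nat_lit 16298)), [(Int.ofNat (nat_lit 826)), (Int.negSucc (nat_lit 1763))], [(Int.ofNat (nat_lit 1399)), (Int.ofNat (nat_lit 1399)), (Int.negSucc (nat_lit 62)), (Int.ofNat (nat_lit 528))]⟩,
    ⟨(nat_lit 0), (nat_lit 0), (nat_lit 137), (Int.ofNat (nat_lit 7)), (Int.ofNat (nat_lit 6604)), [(Int.ofNat (nat_lit 27)), (Int.negSucc (nat_lit 497))], [(Int.ofNat (nat_lit 4)), (Int.ofNat (nat_lit 5)), (Int.ofNat (nat_lit 8)), (Int.ofNat (nat_lit 10))]⟩,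
    ⟨(nat_lit 1), (nat_lit 229), (nat_lit 149), (Int.ofNat (nat_lit 62)), (Int.ofNat (nat_lit 13119)), [(Int.ofNat (nat_lit 467)), (Int.negSucc (nat_lit 1366))], [(Int.ofNat (nat_lit 926)), (Int.ofNat (nat_lit 926)), (Int.negSucc (nat_lit 38)), (Int.ofNat (nat_lit 165))]⟩,
    ⟨(nat_lit 2), (nat_lit 237), (nat_lit 158), (Int.ofNat (nat_lit 11)), (Int.ofNat (nat_lit 13308)), [(Int.ofNat (nat_lit 964)), (Int.ofNat (nat_lit 1402))], [(Int.ofNat (nat_lit 1437)), (Int.ofNat (nat_lit 1881)), (Int.ofNat (nat_lit 2720)), (Int.ofNat (nat_lit 3462))]⟩]⟩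
def xP26 : Box := ⟨(nat_lit 158), (nat_lit 160), (nat_lit 156), (nat_lit 160), (nat_lit 8), (nat_lit 10), (nat_lit 10), (nat_lit 50), (nat_lit 3595), (nat_lit 6793), [(nat_lit 220), (nat_lit 719)], [(nat_lit 0), (nat_lit 300), (nat_lit 550), (nat_lit 719)],
  [⟨(nat_lit 1), (nat_lit 340), (nat_lit 132), (Int.ofNat (nat_lit 35)), (Int.ofNat (nat_lit 16488)), [(Int.ofNat (nat_lit 825)), (Int.negSucc (nat_lit 2221))], [(Int.ofNat (nat_lit 1326)), (Int.ofNat (nat_lit 1326)), (Int.negSucc (nat_lit 47)), (Int.ofNat (nat_lit 511))]⟩,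
    ⟨(nat_lit 0), (nat_lit 0), (nat_lit 137), (Int.ofNat (nat_lit 7)), (Int.ofNat (nat_lit 6793)), [(Int.ofNat (nat_lit 27)), (Int.negSucc (nat_lit 719))], [(Int.ofNat (nat_lit 4)), (Int.ofNat (nat_lit 5)), (Int.ofNat (nat_lit 8)), (Int.ofNat (nat_lit 10))]⟩,
    ⟨(nat_lit 1), (nat_lit 269), (nat_lit 143), (Int.ofNat (nat_lit 77)), (Int.ofNat (nat_lit 14649)), [(Int.ofNat (nat_lit 584)), (Int.negSucc (nat_lit 1867))], [(Int.ofNat (nat_lit 1049)), (Int.ofNat (nat_lit 1049)), (Int.negSucc (nat_lit 36)), (Int.ofNat (nat_lit 142))]⟩,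
    ⟨(nat_lit 2), (nat_lit 237), (nat_lit 158), (Int.ofNat (nat_lit 11)), (Int.ofNat (nat_lit 13730)), [(Int.ofNat (nat_lit 964)), (Int.ofNat (nat_lit 1175))], [(Int.ofNat (nat_lit 1421)), (Int.ofNat (nat_lit 1871)), (Int.ofNat (nat_lit 2725)), (Int.ofNat (nat_lit 3474))]⟩]⟩
def xP27 : Box := ⟨(nat_lit 160), (nat_lit 162), (nat_lit 160), (nat_lit 164), (nat_lit 8), (nat_lit 10), (nat_lit 10), (nat_lit 50), (nat_lit 3485), (nat_lit 6978), [(nat_lit 200), (nat_lit 697)], [(nat_lit 0), (nat_lit 300), (nat_lit 550), (nat_lit 697)],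
  [⟨(nat_lit 1), (nat_lit 337), (nat_lit 130), (Int.ofNat (nat_lit 33)), (Int.ofNat (nat_lit 16792)), [(Int.ofNat (nat_lit 753)), (Int.negSucc (nat_lit 1919))], [(Int.ofNat (nat_lit 1267)), (Int.ofNat (nat_lit 1267)), (Int.negSucc (nat_lit 33)), (Int.ofNat (nat_lit 425))]⟩,
    ⟨(nat_lit 0), (nat_lit 0), (nat_lit 137), (Int.ofNat (nat_lit 7)), (Int.ofNat (nat_lit 6978)), [(Int.ofNat (nat_lit 26)), (Int.negSucc (nat_lit 516))], [(Int.ofNat (nat_lit 4)), (Int.ofNat (nat_lit 5)), (Int.ofNat (nat_lit 8)), (Int.ofNat (nat_lit 9))]⟩,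
    ⟨(nat_lit 1), (nat_lit 269), (nat_lit 143), (Int.ofNat (nat_lit 77)), (Int.ofNat (nat_lit 15058)), [(Int.ofNat (nat_lit 541)), (Int.negSucc (nat_lit 1518))], [(Int.ofNat (nat_lit 1010)), (Int.ofNat (nat_lit 368)), (Int.negSucc (nat_lit 25)), (Int.ofNat (nat_lit 87))]⟩,
    ⟨(nat_lit 2), (nat_lit 237), (nat_lit 158), (Int.ofNat (nat_lit 11)), (Int.ofNat (nat_lit 14143)), [(Int.ofNat (nat_lit 885)), (Int.ofNat (nat_lit 1263))], [(Int.ofNat (nat_lit 1405)), (Int.ofNat (nat_lit 1862)), (Int.ofNat (nat_lit 2730)), (Int.ofNat (nat_lit 3388))]⟩]⟩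
def xP28 : Box := ⟨(nat_lit 162), (nat_lit 164), (nat_lit 160), (nat_lit 164), (nat_lit 8), (nat_lit 10), (nat_lit 10), (nat_lit 50), (nat_lit 3485), (nat_lit 7158), [(nat_lit 200), (nat_lit 697)], [(nat_lit 0), (nat_lit 300), (nat_lit 550), (nat_lit 697)],
  [⟨(nat_lit 1), (nat_lit 398), (nat_lit 149), (Int.ofNat (nat_lit 26)), (Int.ofNat (nat_lit 19757)), [(Int.ofNat (nat_lit 916)), (Int.negSucc (nat_lit 1935))], [(Int.ofNat (nat_lit 1494)), (Int.ofNat (nat_lit 1494)), (Int.negSucc (nat_lit 24)), (Int.ofNat (nat_lit 541))]⟩,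
    ⟨(nat_lit 0), (nat_lit 0), (nat_lit 137), (Int.ofNat (nat_lit 7)), (Int.ofNat (nat_lit 7158)), [(Int.ofNat (nat_lit 26)), (Int.negSucc (nat_lit 753))], [(Int.ofNat (nat_lit 4)), (Int.ofNat (nat_lit 5)), (Int.ofNat (nat_lit 8)), (Int.ofNat (nat_lit 9))]⟩,
    ⟨(nat_lit 1), (nat_lit 300), (nat_lit 130), (Int.ofNat (nat_lit 78)), (Int.ofNat (nat_lit 16215)), [(Int.ofNat (nat_lit 644)), (Int.negSucc (nat_lit 2003))], [(Int.ofNat (nat_lit 1082)), (Int.ofNat (nat_lit 1082)), (Int.negSucc (nat_lit 16)), (Int.ofNat (nat_lit 91))]⟩,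
    ⟨(nat_lit 2), (nat_lit 237), (nat_lit 158), (Int.ofNat (nat_lit 11)), (Int.ofNat (nat_lit 14547)), [(Int.ofNat (nat_lit 884)), (Int.ofNat (nat_lit 1026))], [(Int.ofNat (nat_lit 1389)), (Int.ofNat (nat_lit 1854)), (Int.ofNat (nat_lit 2735)), (Int.ofNat (nat_lit 3399))]⟩]⟩
def xP29 : Box := ⟨(nat_lit 164), (nat_lit 166), (nat_lit 164), (nat_lit 168), (nat_lit 8), (nat_lit 10), (nat_lit 10), (nat_lit 50), (nat_lit 3365), (nat_lit 7334), [(nat_lit 180), (nat_lit 673)], [(nat_lit 0), (nat_lit 300), (nat_lit 550), (nat_lit 673)],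
  [⟨(nat_lit 1), (nat_lit 396), (nat_lit 153), (Int.ofNat (nat_lit 29)), (Int.ofNat (nat_lit 20277)), [(Int.ofNat (nat_lit 813)), (Int.negSucc (nat_lit 1549))], [(Int.ofNat (nat_lit 1403)), (Int.ofNat (nat_lit 1403)), (Int.negSucc (nat_lit 7)), (Int.ofNat (nat_lit 403))]⟩,
    ⟨(nat_lit 0), (nat_lit 0), (nat_lit 137), (Int.ofNat (nat_lit 7)), (Int.ofNat (nat_lit 7334)), [(Int.ofNat (nat_lit 26)), (Int.negSucc (nat_lit 537))], [(Int.ofNat (nat_lit 4)), (Int.ofNat (nat_lit 5)), (Int.ofNat (nat_lit 8)), (Int.ofNat (nat_lit 9))]⟩,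
    ⟨(nat_lit 1), (nat_lit 312), (nat_lit 123), (Int.ofNat (nat_lit 68)), (Int.ofNat (nat_lit 16844)), [(Int.ofNat (nat_lit 635)), (Int.negSucc (nat_lit 1723))], [(Int.ofNat (nat_lit 1079)), (Int.ofNat (nat_lit 1079)), (Int.negSucc (nat_lit 4)), (Int.ofNat (nat_lit 93))]⟩,
    ⟨(nat_lit 2), (nat_lit 237), (nat_lit 158), (Int.ofNat (nat_lit 11)), (Int.ofNat (nat_lit 14943)), [(Int.ofNat (nat_lit 805)), (Int.ofNat (nat_lit 1118))], [(Int.ofNat (nat_lit 1371)), (Int.ofNat (nat_lit 1845)), (Int.ofNat (nat_lit 2740)), (Int.ofNat (nat_lit 3300))]⟩]⟩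
def xP30 : Box := ⟨(nat_lit 166), (nat_lit 168), (nat_lit 164), (nat_lit 168), (nat_lit 8), (nat_lit 10), (nat_lit 10), (nat_lit 50), (nat_lit 3365), (nat_lit 7504), [(nat_lit 180), (nat_lit 673)], [(nat_lit 0), (nat_lit 300), (nat_lit 550), (nat_lit 673)],
  [⟨(nat_lit 1), (nat_lit 394), (nat_lit 149), (Int.ofNat (nat_lit 30)), (Int.ofNat (nat_lit 20575)), [(Int.ofNat (nat_lit 829)), (Int.negSucc (nat_lit 1877))], [(Int.ofNat (nat_lit 1322)), (Int.ofNat (nat_lit 1322)), (Int.ofNat (nat_lit 10)), (Int.ofNat (nat_lit 352))]⟩,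
    ⟨(nat_lit 0), (nat_lit 0), (nat_lit 137), (Int.ofNat (nat_lit 7)), (Int.ofNat (nat_lit 7504)), [(Int.ofNat (nat_lit 26)), (Int.negSucc (nat_lit 792))], [(Int.ofNat (nat_lit 4)), (Int.ofNat (nat_lit 5)), (Int.ofNat (nat_lit 8)), (Int.ofNat (nat_lit 9))]⟩,
    ⟨(nat_lit 1), (nat_lit 290), (nat_lit 128), (Int.ofNat (nat_lit 68)), (Int.ofNat (nat_lit 16618)), [(Int.ofNat (nat_lit 563)), (Int.negSucc (nat_lit 1870))], [(Int.ofNat (nat_lit 959)), (Int.ofNat (nat_lit 959)), (Int.ofNat (nat_lit 9)), (Int.ofNat (nat_lit 6))]⟩,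
    ⟨(nat_lit 2), (nat_lit 237), (nat_lit 158), (Int.ofNat (nat_lit 11)), (Int.ofNat (nat_lit 15330)), [(Int.ofNat (nat_lit 804)), (Int.ofNat (nat_lit 865))], [(Int.ofNat (nat_lit 1356)), (Int.ofNat (nat_lit 1836)), (Int.ofNat (nat_lit 2745)), (Int.ofNat (nat_lit 3310))]⟩]⟩
def xQ0 : Box := ⟨(nat_lit 108), (nat_lit 109), (nat_lit 108), (nat_lit 112), (nat_lit 10), (nat_lit 12), (nat_lit 12), (nat_lit 1), (nat_lit 2823), (nat_lit 172), [(nat_lit 460), (nat_lit 531)], [(nat_lit 0), (nat_lit 300), (nat_lit 550), (nat_lit 750), (nat_lit 941)],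
  [⟨(nat_lit 1), (nat_lit 104), (nat_lit 402), (Int.ofNat (nat_lit 30)), (Int.ofNat (nat_lit 2052)), [(Int.ofNat (nat_lit 143)), (Int.ofNat (nat_lit 53))], [(Int.ofNat (nat_lit 804)), (Int.ofNat (nat_lit 804)), (Int.negSucc (nat_lit 85)), (Int.ofNat (nat_lit 88)), (Int.ofNat (nat_lit 337))]⟩,
    ⟨(nat_lit 0), (nat_lit 0), (nat_lit 137), (Int.ofNat (nat_lit 0)), (Int.ofNat (nat_lit 172)), [(Int.ofNat (nat_lit 140)), (Int.ofNat (nat_lit 88))], [(Int.ofNat (nat_lit 5)), (Int.ofNat (nat_lit 6)), (Int.ofNat (nat_lit 9)), (Int.ofNat (nat_lit 11)), (Int.ofNat (nat_lit 13))]⟩,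
    ⟨(nat_lit 1), (nat_lit 307), (nat_lit 677), (Int.ofNat (nat_lit 71)), (Int.ofNat (nat_lit 5639)), [(Int.ofNat (nat_lit 449)), (Int.negSucc (nat_lit 161))], [(Int.ofNat (nat_lit 2368)), (Int.ofNat (nat_lit 2368)), (Int.negSucc (nat_lit 270)), (Int.ofNat (nat_lit 238)), (Int.ofNat (nat_lit 971))]⟩,
    ⟨(nat_lit 1), (nat_lit 345), (nat_lit 150), (Int.ofNat (nat_lit 77)), (Int.ofNat (nat_lit 6285)), [(Int.ofNat (nat_lit 743)), (Int.ofNat (nat_lit 197))], [(Int.ofNat (nat_lit 2660)), (Int.ofNat (nat_lit 2660)), (Int.negSucc (nat_lit 305)), (Int.ofNat (nat_lit 267)), (Int.ofNat (nat_lit 1089))]⟩,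
    ⟨(nat_lit 2), (nat_lit 248), (nat_lit 124), (Int.ofNat (nat_lit 52)), (Int.ofNat (nat_lit 4563)), [(Int.ofNat (nat_lit 1939)), (Int.ofNat (nat_lit 2075))], [(Int.ofNat (nat_lit 2000)), (Int.ofNat (nat_lit 2292)), (Int.ofNat (nat_lit 2815)), (Int.ofNat (nat_lit 3347)), (Int.ofNat (nat_lit 3939))]⟩]⟩
def xQ1 : Box := ⟨(nat_lit 109), (nat_lit 110), (nat_lit 108), (nat_lit 112), (nat_lit 10), (nat_lit 12), (nat_lit 12), (nat_lit 1), (nat_lit 2823), (nat_lit 308), [(nat_lit 460), (nat_lit 531)], [(nat_lit 0), (nat_lit 300), (nat_lit 550), (nat_lit 750), (nat_lit 941)],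
  [⟨(nat_lit 1), (nat_lit 105), (nat_lit 772), (Int.ofNat (nat_lit 24)), (Int.ofNat (nat_lit 2242)), [(Int.ofNat (nat_lit 143)), (Int.ofNat (nat_lit 6))], [(Int.ofNat (nat_lit 806)), (Int.ofNat (nat_lit 806)), (Int.negSucc (nat_lit 85)), (Int.ofNat (nat_lit 93)), (Int.ofNat (nat_lit 349))]⟩,
    ⟨(nat_lit 0), (nat_lit 0), (nat_lit 137), (Int.ofNat (nat_lit 0)), (Int.ofNat (nat_lit 308)), [(Int.ofNat (nat_lit 140)), (Int.ofNat (nat_lit 72))], [(Int.ofNat (nat_lit 5)), (Int.ofNat (nat_lit 6)), (Int.ofNat (nat_lit 9)), (Int.ofNat (nat_lit 11)), (Int.ofNat (nat_lit 13))]⟩,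
    ⟨(nat_lit 1), (nat_lit 308), (nat_lit 861), (Int.ofNat (nat_lit 59)), (Int.ofNat (nat_lit 5872)), [(Int.ofNat (nat_lit 449)), (Int.negSucc (nat_lit 242))], [(Int.ofNat (nat_lit 2370)), (Int.ofNat (nat_lit 2370)), (Int.negSucc (nat_lit 268)), (Int.ofNat (nat_lit 252)), (Int.ofNat (nat_lit 1000))]⟩,
    ⟨(nat_lit 1), (nat_lit 345), (nat_lit 150), (Int.ofNat (nat_lit 77)), (Int.ofNat (nat_lit 6423)), [(Int.ofNat (nat_lit 763)), (Int.ofNat (nat_lit 163))], [(Int.ofNat (nat_lit 2642)), (Int.ofNat (nat_lit 2642)), (Int.negSucc (nat_lit 301)), (Int.ofNat (nat_lit 282)), (Int.ofNat (nat_lit 1119))]⟩,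
    ⟨(nat_lit 2), (nat_lit 248), (nat_lit 124), (Int.ofNat (nat_lit 52)), (Int.ofNat (nat_lit 4685)), [(Int.ofNat (nat_lit 1942)), (Int.ofNat (nat_lit 2064))], [(Int.ofNat (nat_lit 1990)), (Int.ofNat (nat_lit 2285)), (Int.ofNat (nat_lit 2816)), (Int.ofNat (nat_lit 3358)), (Int.ofNat (nat_lit 3960))]⟩]⟩
def xQ2 : Box := ⟨(nat_lit 110), (nat_lit 111), (nat_lit 108), (nat_lit 112), (nat_lit 10), (nat_lit 12), (nat_lit 12), (nat_lit 1), (nat_lit 2823), (nat_lit 308), [(nat_lit 460), (nat_lit 531)], [(nat_lit 0), (nat_lit 300), (nat_lit 550), (nat_lit 750), (nat_lit 941)],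
  [⟨(nat_lit 1), (nat_lit 106), (nat_lit 1738), (Int.ofNat (nat_lit 25)), (Int.ofNat (nat_lit 2179)), [(Int.ofNat (nat_lit 146)), (Int.negSucc (nat_lit 223))], [(Int.ofNat (nat_lit 808)), (Int.ofNat (nat_lit 808)), (Int.negSucc (nat_lit 85)), (Int.ofNat (nat_lit 98)), (Int.ofNat (nat_lit 361))]⟩,
    ⟨(nat_lit 0), (nat_lit 0), (nat_lit 137), (Int.ofNat (nat_lit 0)), (Int.ofNat (nat_lit 308)), [(Int.ofNat (nat_lit 140)), (Int.ofNat (nat_lit 54))], [(Int.ofNat (nat_lit 5)), (Int.ofNat (nat_lit 6)), (Int.ofNat (nat_lit 9)), (Int.ofNat (nat_lit 11)), (Int.ofNat (nat_lit 13))]⟩,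
    ⟨(nat_lit 1), (nat_lit 310), (nat_lit 1613), (Int.ofNat (nat_lit 54)), (Int.ofNat (nat_lit 5779)), [(Int.ofNat (nat_lit 440)), (Int.negSucc (nat_lit 398))], [(Int.ofNat (nat_lit 2391)), (Int.ofNat (nat_lit 2391)), (Int.negSucc (nat_lit 266)), (Int.ofNat (nat_lit 267)), (Int.ofNat (nat_lit 1033))]⟩,
    ⟨(nat_lit 1), (nat_lit 345), (nat_lit 150), (Int.ofNat (nat_lit 77)), (Int.ofNat (nat_lit 6397)), [(Int.ofNat (nat_lit 782)), (Int.ofNat (nat_lit 119))], [(Int.ofNat (nat_lit 2624)), (Int.ofNat (nat_lit 2624)), (Int.negSucc (nat_lit 297)), (Int.ofNat (nat_lit 296)), (Int.ofNat (nat_lit 1148))]⟩,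
    ⟨(nat_lit 2), (nat_lit 248), (nat_lit 124), (Int.ofNat (nat_lit 52)), (Int.ofNat (nat_lit 4685)), [(Int.ofNat (nat_lit 1944)), (Int.ofNat (nat_lit 2050))], [(Int.ofNat (nat_lit 1981)), (Int.ofNat (nat_lit 2279)), (Int.ofNat (nat_lit 2818)), (Int.ofNat (nat_lit 3369)), (Int.ofNat (nat_lit 3981))]⟩]⟩
def xQ3 : Box := ⟨(nat_lit 111), (nat_lit 112), (nat_lit 108), (nat_lit 112), (nat_lit 10), (nat_lit 12), (nat_lit 12), (nat_lit 1), (nat_lit 2823), (nat_lit 146), [(nat_lit 460), (nat_lit 531)], [(nat_lit 0), (nat_lit 300), (nat_lit 550), (nat_lit 750), (nat_lit 941)],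
  [⟨(nat_lit 1), (nat_lit 105), (nat_lit 596), (Int.ofNat (nat_lit 27)), (Int.ofNat (nat_lit 2054)), [(Int.ofNat (nat_lit 157)), (Int.ofNat (nat_lit 71))], [(Int.ofNat (nat_lit 795)), (Int.ofNat (nat_lit 795)), (Int.negSucc (nat_lit 83)), (Int.ofNat (nat_lit 102)), (Int.ofNat (nat_lit 367))]⟩,
    ⟨(nat_lit 0), (nat_lit 0), (nat_lit 137), (Int.ofNat (nat_lit 0)), (Int.ofNat (nat_lit 146)), [(Int.ofNat (nat_lit 140)), (Int.ofNat (nat_lit 33))], [(Int.ofNat (nat_lit 5)), (Int.ofNat (nat_lit 6)), (Int.ofNat (nat_lit 9)), (Int.ofNat (nat_lit 11)), (Int.ofNat (nat_lit 13))]⟩,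
    ⟨(nat_lit 1), (nat_lit 308), (nat_lit 1304), (Int.ofNat (nat_lit 47)), (Int.ofNat (nat_lit 5772)), [(Int.ofNat (nat_lit 463)), (Int.negSucc (nat_lit 213))], [(Int.ofNat (nat_lit 2390)), (Int.ofNat (nat_lit 2390)), (Int.negSucc (nat_lit 261)), (Int.ofNat (nat_lit 279)), (Int.ofNat (nat_lit 1052))]⟩,
    ⟨(nat_lit 1), (nat_lit 345), (nat_lit 150), (Int.ofNat (nat_lit 77)), (Int.ofNat (nat_lit 6440)), [(Int.ofNat (nat_lit 802)), (Int.ofNat (nat_lit 62))], [(Int.ofNat (nat_lit 2605)), (Int.ofNat (nat_lit 2605)), (Int.negSucc (nat_lit 293)), (Int.ofNat (nat_lit 311)), (Int.ofNat (nat_lit 1177))]⟩,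
    ⟨(nat_lit 2), (nat_lit 248), (nat_lit 124), (Int.ofNat (nat_lit 52)), (Int.ofNat (nat_lit 4645)), [(Int.ofNat (nat_lit 1946)), (Int.ofNat (nat_lit 2033))], [(Int.ofNat (nat_lit 1971)), (Int.ofNat (nat_lit 2273)), (Int.ofNat (nat_lit 2819)), (Int.ofNat (nat_lit 3379)), (Int.ofNat (nat_lit 4002))]⟩]⟩
def xQ4 : Box := ⟨(nat_lit 112), (nat_lit 113), (nat_lit 112), (nat_lit 116), (nat_lit 10), (nat_lit 12), (nat_lit 12), (nat_lit 1), (nat_lit 3724), (nat_lit 260), [(nat_lit 440), (nat_lit 548)], [(nat_lit 0), (nat_lit 300), (nat_lit 550), (nat_lit 750), (nat_lit 931)],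
  [⟨(nat_lit 1), (nat_lit 105), (nat_lit 415), (Int.ofNat (nat_lit 26)), (Int.ofNat (nat_lit 2178)), [(Int.ofNat (nat_lit 161)), (Int.ofNat (nat_lit 72))], [(Int.ofNat (nat_lit 790)), (Int.ofNat (nat_lit 790)), (Int.negSucc (nat_lit 81)), (Int.ofNat (nat_lit 106)), (Int.ofNat (nat_lit 361))]⟩,
    ⟨(nat_lit 0), (nat_lit 0), (nat_lit 137), (Int.ofNat (nat_lit 0)), (Int.ofNat (nat_lit 260)), [(Int.ofNat (nat_lit 140)), (Int.negSucc (nat_lit 18))], [(Int.ofNat (nat_lit 5)), (Int.ofNat (nat_lit 6)), (Int.ofNat (nat_lit 9)), (Int.ofNat (nat_lit 11)), (Int.ofNat (nat_lit 13))]⟩,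
    ⟨(nat_lit 1), (nat_lit 313), (nat_lit 810), (Int.ofNat (nat_lit 35)), (Int.ofNat (nat_lit 6118)), [(Int.ofNat (nat_lit 492)), (Int.negSucc (nat_lit 388))], [(Int.ofNat (nat_lit 2476)), (Int.ofNat (nat_lit 2476)), (Int.negSucc (nat_lit 262)), (Int.ofNat (nat_lit 323)), (Int.ofNat (nat_lit 1049))]⟩,
    ⟨(nat_lit 1), (nat_lit 354), (nat_lit 153), (Int.ofNat (nat_lit 77)), (Int.ofNat (nat_lit 6995)), [(Int.ofNat (nat_lit 820)), (Int.negSucc (nat_lit 101))], [(Int.ofNat (nat_lit 2656)), (Int.ofNat (nat_lit 2656)), (Int.negSucc (nat_lit 297)), (Int.ofNat (nat_lit 334)), (Int.ofNat (nat_lit 1189))]⟩,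
    ⟨(nat_lit 2), (nat_lit 248), (nat_lit 124), (Int.ofNat (nat_lit 52)), (Int.ofNat (nat_lit 4929)), [(Int.ofNat (nat_lit 1865)), (Int.ofNat (nat_lit 2057))], [(Int.ofNat (nat_lit 1962)), (Int.ofNat (nat_lit 2266)), (Int.ofNat (nat_lit 2821)), (Int.ofNat (nat_lit 3390)), (Int.ofNat (nat_lit 3989))]⟩]⟩
def xQ5 : Box := ⟨(nat_lit 113), (nat_lit 114), (nat_lit 112), (nat_lit 116), (nat_lit 10), (nat_lit 12), (nat_lit 12), (nat_lit 2), (nat_lit 3724), (nat_lit 402), [(nat_lit 440), (nat_lit 548)], [(nat_lit 0), (nat_lit 300), (nat_lit 550), (nat_lit 750), (nat_lit 931)],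
  [⟨(nat_lit 1), (nat_lit 106), (nat_lit 458), (Int.ofNat (nat_lit 22)), (Int.ofNat (nat_lit 2361)), [(Int.ofNat (nat_lit 166)), (Int.ofNat (nat_lit 176))], [(Int.ofNat (nat_lit 792)), (Int.ofNat (nat_lit 792)), (Int.negSucc (nat_lit 81)), (Int.ofNat (nat_lit 112)), (Int.ofNat (nat_lit 373))]⟩,
    ⟨(nat_lit 0), (nat_lit 0), (nat_lit 193), (Int.ofNat (nat_lit 0)), (Int.ofNat (nat_lit 402)), [(Int.ofNat (nat_lit 206)), (Int.negSucc (nat_lit 113))], [(Int.ofNat (nat_lit 5)), (Int.ofNat (nat_lit 6)), (Int.ofNat (nat_lit 9)), (Int.ofNat (nat_lit 11)), (Int.ofNat (nat_lit 13))]⟩,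
    ⟨(nat_lit 1), (nat_lit 312), (nat_lit 700), (Int.negSucc (nat_lit 0)), (Int.ofNat (nat_lit 6335)), [(Int.ofNat (nat_lit 516)), (Int.negSucc (nat_lit 370))], [(Int.ofNat (nat_lit 2626)), (Int.ofNat (nat_lit 2626)), (Int.negSucc (nat_lit 167)), (Int.ofNat (nat_lit 515)), (Int.ofNat (nat_lit 1251))]⟩,
    ⟨(nat_lit 1), (nat_lit 354), (nat_lit 227), (Int.ofNat (nat_lit 46)), (Int.ofNat (nat_lit 7398)), [(Int.ofNat (nat_lit 877)), (Int.negSucc (nat_lit 107))], [(Int.ofNat (nat_lit 2744)), (Int.ofNat (nat_lit 2744)), (Int.negSucc (nat_lit 293)), (Int.ofNat (nat_lit 349)), (Int.ofNat (nat_lit 1218))]⟩,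
    ⟨(nat_lit 2), (nat_lit 200), (nat_lit 100), (Int.ofNat (nat_lit 53)), (Int.ofNat (nat_lit 4376)), [(Int.ofNat (nat_lit 1746)), (Int.ofNat (nat_lit 1749))], [(Int.ofNat (nat_lit 1565)), (Int.ofNat (nat_lit 1824)), (Int.ofNat (nat_lit 2278)), (Int.ofNat (nat_lit 2744)), (Int.ofNat (nat_lit 3236))]⟩]⟩
def xQ6 : Box := ⟨(nat_lit 114), (nat_lit 115), (nat_lit 112), (nat_lit 116), (nat_lit 10), (nat_lit 12), (nat_lit 12), (nat_lit 2), (nat_lit 3724), (nat_lit 575), [(nat_lit 440), (nat_lit 548)], [(nat_lit 0), (nat_lit 300), (nat_lit 550), (nat_lit 750), (nat_lit 931)],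
  [⟨(nat_lit 1), (nat_lit 106), (nat_lit 505), (Int.ofNat (nat_lit 21)), (Int.ofNat (nat_lit 2556)), [(Int.ofNat (nat_lit 170)), (Int.ofNat (nat_lit 154))], [(Int.ofNat (nat_lit 787)), (Int.ofNat (nat_lit 787)), (Int.negSucc (nat_lit 80)), (Int.ofNat (nat_lit 116)), (Int.ofNat (nat_lit 382))]⟩,
    ⟨(nat_lit 0), (nat_lit 0), (nat_lit 193), (Int.ofNat (nat_lit 0)), (Int.ofNat (nat_lit 575)), [(Int.ofNat (nat_lit 206)), (Int.negSucc (nat_lit 138))], [(Int.ofNat (nat_lit 5)), (Int.ofNat (nat_lit 6)), (Int.ofNat (nat_lit 9)), (Int.ofNat (nat_lit 11)), (Int.ofNat (nat_lit 13))]⟩,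
    ⟨(nat_lit 1), (nat_lit 309), (nat_lit 599), (Int.negSucc (nat_lit 5)), (Int.ofNat (nat_lit 6483)), [(Int.ofNat (nat_lit 539)), (Int.negSucc (nat_lit 417))], [(Int.ofNat (nat_lit 2604)), (Int.ofNat (nat_lit 2604)), (Int.negSucc (nat_lit 138)), (Int.ofNat (nat_lit 548)), (Int.ofNat (nat_lit 1289))]⟩,
    ⟨(nat_lit 1), (nat_lit 354), (nat_lit 227), (Int.ofNat (nat_lit 46)), (Int.ofNat (nat_lit 7583)), [(Int.ofNat (nat_lit 893)), (Int.negSucc (nat_lit 150))], [(Int.ofNat (nat_lit 2719)), (Int.ofNat (nat_lit 2719)), (Int.negSucc (nat_lit 289)), (Int.ofNat (nat_lit 364)), (Int.ofNat (nat_lit 1246))]⟩,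
    ⟨(nat_lit 2), (nat_lit 200), (nat_lit 100), (Int.ofNat (nat_lit 53)), (Int.ofNat (nat_lit 4530)), [(Int.ofNat (nat_lit 1748)), (Int.ofNat (nat_lit 1723))], [(Int.ofNat (nat_lit 1557)), (Int.ofNat (nat_lit 1819)), (Int.ofNat (nat_lit 2279)), (Int.ofNat (nat_lit 2753)), (Int.ofNat (nat_lit 3252))]⟩]⟩
def xQ7 : Box := ⟨(nat_lit 115), (nat_lit 116), (nat_lit 112), (nat_lit 116), (nat_lit 10), (nat_lit 12), (nat_lit 12), (nat_lit 3), (nat_lit 3724), (nat_lit 744), [(nat_lit 440), (nat_lit 548)], [(nat_lit 0), (nat_lit 300), (nat_lit 550), (nat_lit 750), (nat_lit 931)],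
  [⟨(nat_lit 1), (nat_lit 106), (nat_lit 526), (Int.ofNat (nat_lit 20)), (Int.ofNat (nat_lit 2747)), [(Int.ofNat (nat_lit 175)), (Int.ofNat (nat_lit 195))], [(Int.ofNat (nat_lit 781)), (Int.ofNat (nat_lit 781)), (Int.negSucc (nat_lit 79)), (Int.ofNat (nat_lit 121)), (Int.ofNat (nat_lit 390))]⟩,
    ⟨(nat_lit 0), (nat_lit 0), (nat_lit 193), (Int.ofNat (nat_lit 0)), (Int.ofNat (nat_lit 744)), [(Int.ofNat (nat_lit 206)), (Int.negSucc (nat_lit 158))], [(Int.ofNat (nat_lit 5)), (Int.ofNat (nat_lit 6)), (Int.ofNat (nat_lit 9)), (Int.ofNat (nat_lit 11)), (Int.ofNat (nat_lit 13))]⟩,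
    ⟨(nat_lit 1), (nat_lit 305), (nat_lit 427), (Int.negSucc (nat_lit 11)), (Int.ofNat (nat_lit 6510)), [(Int.ofNat (nat_lit 582)), (Int.negSucc (nat_lit 386))], [(Int.ofNat (nat_lit 2584)), (Int.ofNat (nat_lit 2584)), (Int.negSucc (nat_lit 104)), (Int.ofNat (nat_lit 585)), (Int.ofNat (nat_lit 1328))]⟩,
    ⟨(nat_lit 1), (nat_lit 354), (nat_lit 227), (Int.ofNat (nat_lit 46)), (Int.ofNat (nat_lit 7789)), [(Int.ofNat (nat_lit 917)), (Int.negSucc (nat_lit 142))], [(Int.ofNat (nat_lit 2699)), (Int.ofNat (nat_lit 2699)), (Int.negSucc (nat_lit 285)), (Int.ofNat (nat_lit 379)), (Int.ofNat (nat_lit 1274))]⟩,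
    ⟨(nat_lit 2), (nat_lit 200), (nat_lit 100), (Int.ofNat (nat_lit 53)), (Int.ofNat (nat_lit 4703)), [(Int.ofNat (nat_lit 1749)), (Int.ofNat (nat_lit 1761))], [(Int.ofNat (nat_lit 1550)), (Int.ofNat (nat_lit 1814)), (Int.ofNat (nat_lit 2280)), (Int.ofNat (nat_lit 2761)), (Int.ofNat (nat_lit 3268))]⟩]⟩
def xQ8 : Box := ⟨(nat_lit 116), (nat_lit 117), (nat_lit 116), (nat_lit 120), (nat_lit 10), (nat_lit 12), (nat_lit 12), (nat_lit 3), (nat_lit 3684), (nat_lit 912), [(nat_lit 420), (nat_lit 569)], [(nat_lit 0), (nat_lit 300), (nat_lit 550), (nat_lit 750), (nat_lit 921)],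
  [⟨(nat_lit 1), (nat_lit 107), (nat_lit 536), (Int.ofNat (nat_lit 24)), (Int.ofNat (nat_lit 2957)), [(Int.ofNat (nat_lit 174)), (Int.ofNat (nat_lit 5))], [(Int.ofNat (nat_lit 783)), (Int.ofNat (nat_lit 783)), (Int.negSucc (nat_lit 78)), (Int.ofNat (nat_lit 126)), (Int.ofNat (nat_lit 387))]⟩,
    ⟨(nat_lit 0), (nat_lit 0), (nat_lit 193), (Int.ofNat (nat_lit 0)), (Int.ofNat (nat_lit 912)), [(Int.ofNat (nat_lit 205)), (Int.negSucc (nat_lit 252))], [(Int.ofNat (nat_lit 5)), (Int.ofNat (nat_lit 6)), (Int.ofNat (nat_lit 9)), (Int.ofNat (nat_lit 11)), (Int.ofNat (nat_lit 13))]⟩,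
    ⟨(nat_lit 1), (nat_lit 188), (nat_lit 223), (Int.ofNat (nat_lit 19)), (Int.ofNat (nat_lit 4509)), [(Int.ofNat (nat_lit 366)), (Int.negSucc (nat_lit 301))], [(Int.ofNat (nat_lit 1449)), (Int.ofNat (nat_lit 1449)), (Int.negSucc (nat_lit 145)), (Int.ofNat (nat_lit 241)), (Int.ofNat (nat_lit 681))]⟩,
    ⟨(nat_lit 1), (nat_lit 342), (nat_lit 479), (Int.ofNat (nat_lit 36)), (Int.ofNat (nat_lit 7746)), [(Int.ofNat (nat_lit 639)), (Int.negSucc (nat_lit 547))], [(Int.ofNat (nat_lit 2626)), (Int.ofNat (nat_lit 2626)), (Int.negSucc (nat_lit 271)), (Int.ofNat (nat_lit 422)), (Int.ofNat (nat_lit 1222))]⟩,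
    ⟨(nat_lit 2), (nat_lit 200), (nat_lit 100), (Int.ofNat (nat_lit 53)), (Int.ofNat (nat_lit 4924)), [(Int.ofNat (nat_lit 1684)), (Int.ofNat (nat_lit 1726))], [(Int.ofNat (nat_lit 1541)), (Int.ofNat (nat_lit 1809)), (Int.ofNat (nat_lit 2281)), (Int.ofNat (nat_lit 2770)), (Int.ofNat (nat_lit 3255))]⟩]⟩
def xQ9 : Box := ⟨(nat_lit 117), (nat_lit 118), (nat_lit 116), (nat_lit 120), (nat_lit 10), (nat_lit 12), (nat_lit 12), (nat_lit 4), (nat_lit 3684), (nat_lit 1077), [(nat_lit 420), (nat_lit 569)], [(nat_lit 0), (nat_lit 300), (nat_lit 550), (nat_lit 750), (nat_lit 921)],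
  [⟨(nat_lit 1), (nat_lit 107), (nat_lit 541), (Int.ofNat (nat_lit 26)), (Int.ofNat (nat_lit 3147)), [(Int.ofNat (nat_lit 179)), (Int.negSucc (nat_lit 35))], [(Int.ofNat (nat_lit 777)), (Int.ofNat (nat_lit 777)), (Int.negSucc (nat_lit 77)), (Int.ofNat (nat_lit 131)), (Int.ofNat (nat_lit 395))]⟩,
    ⟨(nat_lit 0), (nat_lit 0), (nat_lit 193), (Int.ofNat (nat_lit 0)), (Int.ofNat (nat_lit 1077)), [(Int.ofNat (nat_lit 205)), (Int.negSucc (nat_lit 282))], [(Int.ofNat (nat_lit 5)), (Int.ofNat (nat_lit 6)), (Int.ofNat (nat_lit 9)), (Int.ofNat (nat_lit 11)), (Int.ofNat (nat_lit 13))]⟩,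
    ⟨(nat_lit 1), (nat_lit 173), (nat_lit 286), (Int.ofNat (nat_lit 22)), (Int.ofNat (nat_lit 4428)), [(Int.ofNat (nat_lit 322)), (Int.negSucc (nat_lit 370))], [(Int.ofNat (nat_lit 1300)), (Int.ofNat (nat_lit 1300)), (Int.negSucc (nat_lit 130)), (Int.ofNat (nat_lit 207)), (Int.ofNat (nat_lit 630))]⟩,
    ⟨(nat_lit 1), (nat_lit 342), (nat_lit 507), (Int.ofNat (nat_lit 29)), (Int.ofNat (nat_lit 7962)), [(Int.ofNat (nat_lit 645)), (Int.negSucc (nat_lit 644))], [(Int.ofNat (nat_lit 2639)), (Int.ofNat (nat_lit 2639)), (Int.negSucc (nat_lit 267)), (Int.ofNat (nat_lit 472)), (Int.ofNat (nat_lit 1284))]⟩,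
    ⟨(nat_lit 2), (nat_lit 200), (nat_lit 100), (Int.ofNat (nat_lit 53)), (Int.ofNat (nat_lit 5141)), [(Int.ofNat (nat_lit 1684)), (Int.ofNat (nat_lit 1737))], [(Int.ofNat (nat_lit 1534)), (Int.ofNat (nat_lit 1804)), (Int.ofNat (nat_lit 2282)), (Int.ofNat (nat_lit 2778)), (Int.ofNat (nat_lit 3270))]⟩]⟩
def xQ10 : Box := ⟨(nat_lit 118), (nat_lit 119), (nat_lit 116), (nat_lit 120), (nat_lit 10), (nat_lit 12), (nat_lit 12), (nat_lit 5), (nat_lit 3684), (nat_lit 1242), [(nat_lit 420), (nat_lit 569)], [(nat_lit 0), (nat_lit 300), (nat_lit 550), (nat_lit 750), (nat_lit 921)],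
  [⟨(nat_lit 1), (nat_lit 107), (nat_lit 544), (Int.ofNat (nat_lit 23)), (Int.ofNat (nat_lit 3332)), [(Int.ofNat (nat_lit 183)), (Int.negSucc (nat_lit 176))], [(Int.ofNat (nat_lit 770)), (Int.ofNat (nat_lit 770)), (Int.negSucc (nat_lit 76)), (Int.ofNat (nat_lit 135)), (Int.ofNat (nat_lit 403))]⟩,
    ⟨(nat_lit 0), (nat_lit 0), (nat_lit 193), (Int.ofNat (nat_lit 0)), (Int.ofNat (nat_lit 1242)), [(Int.ofNat (nat_lit 205)), (Int.negSucc (nat_lit 313))], [(Int.ofNat (nat_lit 5)), (Int.ofNat (nat_lit 6)), (Int.ofNat (nat_lit 9)), (Int.ofNat (nat_lit 11)), (Int.ofNat (nat_lit 13))]⟩,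
    ⟨(nat_lit 1), (nat_lit 178), (nat_lit 358), (Int.ofNat (nat_lit 22)), (Int.ofNat (nat_lit 4743)), [(Int.ofNat (nat_lit 329)), (Int.negSucc (nat_lit 512))], [(Int.ofNat (nat_lit 1331)), (Int.ofNat (nat_lit 1331)), (Int.negSucc (nat_lit 132)), (Int.ofNat (nat_lit 224)), (Int.ofNat (nat_lit 660))]⟩,
    ⟨(nat_lit 1), (nat_lit 341), (nat_lit 519), (Int.ofNat (nat_lit 37)), (Int.ofNat (nat_lit 8223)), [(Int.ofNat (nat_lit 655)), (Int.negSucc (nat_lit 737))], [(Int.ofNat (nat_lit 2572)), (Int.ofNat (nat_lit 2572)), (Int.negSucc (nat_lit 262)), (Int.ofNat (nat_lit 445)), (Int.ofNat (nat_lit 1266))]⟩,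
    ⟨(nat_lit 2), (nat_lit 200), (nat_lit 100), (Int.ofNat (nat_lit 53)), (Int.ofNat (nat_lit 5358)), [(Int.ofNat (nat_lit 1685)), (Int.ofNat (nat_lit 1738))], [(Int.ofNat (nat_lit 1526)), (Int.ofNat (nat_lit 1799)), (Int.ofNat (nat_lit 2284)), (Int.ofNat (nat_lit 2786)), (Int.ofNat (nat_lit 3285))]⟩]⟩
def xQ11 : Box := ⟨(nat_lit 119), (nat_lit 120), (nat_lit 116), (nat_lit 120), (nat_lit 10), (nat_lit 12), (nat_lit 12), (nat_lit 5), (nat_lit 3684), (nat_lit 1403), [(nat_lit 420), (nat_lit 569)], [(nat_lit 0), (nat_lit 300), (nat_lit 550), (nat_lit 750), (nat_lit 921)],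
  [⟨(nat_lit 1), (nat_lit 108), (nat_lit 543), (Int.ofNat (nat_lit 23)), (Int.ofNat (nat_lit 3536)), [(Int.ofNat (nat_lit 190)), (Int.negSucc (nat_lit 336))], [(Int.ofNat (nat_lit 770)), (Int.ofNat (nat_lit 770)), (Int.negSucc (nat_lit 75)), (Int.ofNat (nat_lit 141)), (Int.ofNat (nat_lit 415))]⟩,
    ⟨(nat_lit 0), (nat_lit 0), (nat_lit 193), (Int.ofNat (nat_lit 0)), (Int.ofNat (nat_lit 1403)), [(Int.ofNat (nat_lit 205)), (Int.negSucc (nat_lit 346))], [(Int.ofNat (nat_lit 5)), (Int.ofNat (nat_lit 6)), (Int.ofNat (nat_lit 9)), (Int.ofNat (nat_lit 11)), (Int.ofNat (nat_lit 13))]⟩,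
    ⟨(nat_lit 1), (nat_lit 204), (nat_lit 446), (Int.ofNat (nat_lit 22)), (Int.ofNat (nat_lit 5499)), [(Int.ofNat (nat_lit 380)), (Int.negSucc (nat_lit 722))], [(Int.ofNat (nat_lit 1524)), (Int.ofNat (nat_lit 1524)), (Int.negSucc (nat_lit 150)), (Int.ofNat (nat_lit 280)), (Int.ofNat (nat_lit 779))]⟩,
    ⟨(nat_lit 1), (nat_lit 341), (nat_lit 525), (Int.ofNat (nat_lit 36)), (Int.ofNat (nat_lit 8461)), [(Int.ofNat (nat_lit 668)), (Int.negSucc (nat_lit 886))], [(Int.ofNat (nat_lit 2549)), (Int.ofNat (nat_lit 2549)), (Int.negSucc (nat_lit 258)), (Int.ofNat (nat_lit 464)), (Int.ofNat (nat_lit 1298))]⟩,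
    ⟨(nat_lit 2), (nat_lit 200), (nat_lit 100), (Int.ofNat (nat_lit 53)), (Int.ofNat (nat_lit 5570)), [(Int.ofNat (nat_lit 1686)), (Int.ofNat (nat_lit 1720))], [(Int.ofNat (nat_lit 1519)), (Int.ofNat (nat_lit 1795)), (Int.ofNat (nat_lit 2285)), (Int.ofNat (nat_lit 2795)), (Int.ofNat (nat_lit 3300))]⟩]⟩
def xQ12 : Box := ⟨(nat_lit 120), (nat_lit 121), (nat_lit 120), (nat_lit 124), (nat_lit 10), (nat_lit 12), (nat_lit 12), (nat_lit 6), (nat_lit 3636), (nat_lit 1565), [(nat_lit 400), (nat_lit 585)], [(nat_lit 0), (nat_lit 300), (nat_lit 550), (nat_lit 750), (nat_lit 909)],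
  [⟨(nat_lit 1), (nat_lit 108), (nat_lit 533), (Int.ofNat (nat_lit 26)), (Int.ofNat (nat_lit 3730)), [(Int.ofNat (nat_lit 186)), (Int.ofNat (nat_lit 81))], [(Int.ofNat (nat_lit 764)), (Int.ofNat (nat_lit 764)), (Int.negSucc (nat_lit 74)), (Int.ofNat (nat_lit 145)), (Int.ofNat (nat_lit 403))]⟩,
    ⟨(nat_lit 0), (nat_lit 0), (nat_lit 193), (Int.ofNat (nat_lit 0)), (Int.ofNat (nat_lit 1565)), [(Int.ofNat (nat_lit 205)), (Int.negSucc (nat_lit 396))], [(Int.ofNat (nat_lit 5)), (Int.ofNat (nat_lit 6)), (Int.ofNat (nat_lit 9)), (Int.ofNat (nat_lit 11)), (Int.ofNat (nat_lit 13))]⟩,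
    ⟨(nat_lit 1), (nat_lit 292), (nat_lit 533), (Int.ofNat (nat_lit 18)), (Int.ofNat (nat_lit 7569)), [(Int.ofNat (nat_lit 542)), (Int.negSucc (nat_lit 789))], [(Int.ofNat (nat_lit 2231)), (Int.ofNat (nat_lit 2231)), (Int.negSucc (nat_lit 216)), (Int.ofNat (nat_lit 476)), (Int.ofNat (nat_lit 1149))]⟩,
    ⟨(nat_lit 1), (nat_lit 411), (nat_lit 561), (Int.ofNat (nat_lit 55)), (Int.ofNat (nat_lit 10368)), [(Int.ofNat (nat_lit 803)), (Int.negSucc (nat_lit 932))], [(Int.ofNat (nat_lit 2991)), (Int.ofNat (nat_lit 2991)), (Int.negSucc (nat_lit 308)), (Int.ofNat (nat_lit 524)), (Int.ofNat (nat_lit 1501))]⟩,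
    ⟨(nat_lit 2), (nat_lit 200), (nat_lit 100), (Int.ofNat (nat_lit 53)), (Int.ofNat (nat_lit 5783)), [(Int.ofNat (nat_lit 1621)), (Int.ofNat (nat_lit 1709))], [(Int.ofNat (nat_lit 1512)), (Int.ofNat (nat_lit 1790)), (Int.ofNat (nat_lit 2286)), (Int.ofNat (nat_lit 2803)), (Int.ofNat (nat_lit 3279))]⟩]⟩
def xQ13 : Box := ⟨(nat_lit 121), (nat_lit 122), (nat_lit 120), (nat_lit 124), (nat_lit 10), (nat_lit 12), (nat_lit 12), (nat_lit 7), (nat_lit 3636), (nat_lit 1722), [(nat_lit 400), (nat_lit 585)], [(nat_lit 0), (nat_lit 300), (nat_lit 550), (nat_lit 750), (nat_lit 909)],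
  [⟨(nat_lit 1), (nat_lit 109), (nat_lit 516), (Int.ofNat (nat_lit 22)), (Int.ofNat (nat_lit 3921)), [(Int.ofNat (nat_lit 193)), (Int.ofNat (nat_lit 169))], [(Int.ofNat (nat_lit 766)), (Int.ofNat (nat_lit 766)), (Int.negSucc (nat_lit 73)), (Int.ofNat (nat_lit 151)), (Int.ofNat (nat_lit 415))]⟩,
    ⟨(nat_lit 0), (nat_lit 0), (nat_lit 143), (Int.ofNat (nat_lit 0)), (Int.ofNat (nat_lit 1722)), [(Int.ofNat (nat_lit 173)), (Int.negSucc (nat_lit 160))], [(Int.ofNat (nat_lit 5)), (Int.ofNat (nat_lit 6)), (Int.ofNat (nat_lit 9)), (Int.ofNat (nat_lit 11)), (Int.ofNat (nat_lit 13))]⟩,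
    ⟨(nat_lit 1), (nat_lit 291), (nat_lit 534), (Int.ofNat (nat_lit 28)), (Int.ofNat (nat_lit 7827)), [(Int.ofNat (nat_lit 553)), (Int.negSucc (nat_lit 904))], [(Int.ofNat (nat_lit 2150)), (Int.ofNat (nat_lit 2150)), (Int.negSucc (nat_lit 212)), (Int.ofNat (nat_lit 436)), (Int.ofNat (nat_lit 1117))]⟩,
    ⟨(nat_lit 1), (nat_lit 491), (nat_lit 369), (Int.ofNat (nat_lit 4)), (Int.ofNat (nat_lit 12010)), [(Int.ofNat (nat_lit 1156)), (Int.negSucc (nat_lit 1084))], [(Int.ofNat (nat_lit 3841)), (Int.ofNat (nat_lit 3841)), (Int.negSucc (nat_lit 271)), (Int.ofNat (nat_lit 944)), (Int.ofNat (nat_lit 2091))]⟩,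
    ⟨(nat_lit 2), (nat_lit 250), (nat_lit 125), (Int.ofNat (nat_lit 30)), (Int.ofNat (nat_lit 6953)), [(Int.ofNat (nat_lit 1722)), (Int.ofNat (nat_lit 2163))], [(Int.ofNat (nat_lit 2003)), (Int.ofNat (nat_lit 2319)), (Int.ofNat (nat_lit 2904)), (Int.ofNat (nat_lit 3525)), (Int.ofNat (nat_lit 4109))]⟩]⟩
def xQ14 : Box := ⟨(nat_lit 122), (nat_lit 123), (nat_lit 120), (nat_lit 124), (nat_lit 10), (nat_lit 12), (nat_lit 12), (nat_lit 7), (nat_lit 3636), (nat_lit 1880), [(nat_lit 400), (nat_lit 585)], [(nat_lit 0), (nat_lit 300), (nat_lit 550), (nat_lit 750), (nat_lit 909)],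
  [⟨(nat_lit 1), (nat_lit 439), (nat_lit 513), (Int.ofNat (nat_lit 20)), (Int.ofNat (nat_lit 11235)), [(Int.ofNat (nat_lit 916)), (Int.negSucc (nat_lit 607))], [(Int.ofNat (nat_lit 3328)), (Int.ofNat (nat_lit 3328)), (Int.negSucc (nat_lit 319)), (Int.ofNat (nat_lit 782)), (Int.ofNat (nat_lit 1822))]⟩,
    ⟨(nat_lit 0), (nat_lit 0), (nat_lit 143), (Int.ofNat (nat_lit 0)), (Int.ofNat (nat_lit 1880)), [(Int.ofNat (nat_lit 173)), (Int.negSucc (nat_lit 189))], [(Int.ofNat (nat_lit 5)), (Int.ofNat (nat_lit 6)), (Int.ofNat (nat_lit 9)), (Int.ofNat (nat_lit 11)), (Int.ofNat (nat_lit 13))]⟩,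
    ⟨(nat_lit 1), (nat_lit 290), (nat_lit 526), (Int.ofNat (nat_lit 17)), (Int.ofNat (nat_lit 7981)), [(Int.ofNat (nat_lit 562)), (Int.negSucc (nat_lit 992))], [(Int.ofNat (nat_lit 2180)), (Int.ofNat (nat_lit 2180)), (Int.negSucc (nat_lit 207)), (Int.ofNat (nat_lit 501)), (Int.ofNat (nat_lit 1189))]⟩,
    ⟨(nat_lit 1), (nat_lit 491), (nat_lit 369), (Int.ofNat (nat_lit 4)), (Int.ofNat (nat_lit 12281)), [(Int.ofNat (nat_lit 1174)), (Int.negSucc (nat_lit 1182))], [(Int.ofNat (nat_lit 3813)), (Int.ofNat (nat_lit 3813)), (Int.negSucc (nat_lit 267)), (Int.ofNat (nat_lit 965)), (Int.ofNat (nat_lit 2128))]⟩,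
    ⟨(nat_lit 2), (nat_lit 250), (nat_lit 125), (Int.ofNat (nat_lit 30)), (Int.ofNat (nat_lit 7173)), [(Int.ofNat (nat_lit 1722)), (Int.ofNat (nat_lit 2140))], [(Int.ofNat (nat_lit 1993)), (Int.ofNat (nat_lit 2313)), (Int.ofNat (nat_lit 2906)), (Int.ofNat (nat_lit 3535)), (Int.ofNat (nat_lit 4128))]⟩]⟩
def xQ15 : Box := ⟨(nat_lit 123), (nat_lit 124), (nat_lit 120), (nat_lit 124), (nat_lit 10), (nat_lit 12), (nat_lit 12), (nat_lit 8), (nat_lit 3636), (nat_lit 2034), [(nat_lit 400), (nat_lit 585)], [(nat_lit 0), (nat_lit 300), (nat_lit 550), (nat_lit 750), (nat_lit 909)],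
  [⟨(nat_lit 1), (nat_lit 438), (nat_lit 495), (Int.ofNat (nat_lit 23)), (Int.ofNat (nat_lit 11480)), [(Int.ofNat (nat_lit 936)), (Int.negSucc (nat_lit 785))], [(Int.ofNat (nat_lit 3269)), (Int.ofNat (nat_lit 3269)), (Int.negSucc (nat_lit 312)), (Int.ofNat (nat_lit 783)), (Int.ofNat (nat_lit 1834))]⟩,
    ⟨(nat_lit 0), (nat_lit 0), (nat_lit 143), (Int.ofNat (nat_lit 0)), (Int.ofNat (nat_lit 2034)), [(Int.ofNat (nat_lit 173)), (Int.negSucc (nat_lit 219))], [(Int.ofNat (nat_lit 5)), (Int.ofNat (nat_lit 6)), (Int.ofNat (nat_lit 9)), (Int.ofNat (nat_lit 11)), (Int.ofNat (nat_lit 13))]⟩,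
    ⟨(nat_lit 1), (nat_lit 289), (nat_lit 508), (Int.ofNat (nat_lit 9)), (Int.ofNat (nat_lit 8139)), [(Int.ofNat (nat_lit 574)), (Int.negSucc (nat_lit 1093))], [(Int.ofNat (nat_lit 2189)), (Int.ofNat (nat_lit 2189)), (Int.negSucc (nat_lit 184)), (Int.ofNat (nat_lit 552)), (Int.ofNat (nat_lit 1246))]⟩,
    ⟨(nat_lit 1), (nat_lit 495), (nat_lit 156), (Int.ofNat (nat_lit 13)), (Int.ofNat (nat_lit 12680)), [(Int.ofNat (nat_lit 2094)), (Int.negSucc (nat_lit 788))], [(Int.ofNat (nat_lit 3759)), (Int.ofNat (nat_lit 3759)), (Int.negSucc (nat_lit 311)), (Int.ofNat (nat_lit 949)), (Int.ofNat (nat_lit 2136))]⟩,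
    ⟨(nat_lit 2), (nat_lit 250), (nat_lit 125), (Int.ofNat (nat_lit 30)), (Int.ofNat (nat_lit 7388)), [(Int.ofNat (nat_lit 1722)), (Int.ofNat (nat_lit 2117))], [(Int.ofNat (nat_lit 1984)), (Int.ofNat (nat_lit 2307)), (Int.ofNat (nat_lit 2908)), (Int.ofNat (nat_lit 3546)), (Int.ofNat (nat_lit 4146))]⟩]⟩
def xQ16 : Box := ⟨(nat_lit 124), (nat_lit 125), (nat_lit 124), (nat_lit 128), (nat_lit 10), (nat_lit 12), (nat_lit 12), (nat_lit 9), (nat_lit 3588), (nat_lit 2188), [(nat_lit 380), (nat_lit 610)], [(nat_lit 0), (nat_lit 300), (nat_lit 550), (nat_lit 750), (nat_lit 897)],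
  [⟨(nat_lit 1), (nat_lit 3000), (nat_lit 2210), (Int.ofNat (nat_lit 94)), (Int.ofNat (nat_lit 75704)), [(Int.ofNat (nat_lit 6908)), (Int.negSucc (nat_lit 9428))], [(Int.ofNat (nat_lit 22522)), (Int.ofNat (nat_lit 22522)), (Int.negSucc (nat_lit 1991)), (Int.ofNat (nat_lit 5745)), (Int.ofNat (nat_lit 12477))]⟩,
    ⟨(nat_lit 0), (nat_lit 0), (nat_lit 143), (Int.ofNat (nat_lit 0)), (Int.ofNat (nat_lit 2188)), [(Int.ofNat (nat_lit 173)), (Int.negSucc (nat_lit 275))], [(Int.ofNat (nat_lit 5)), (Int.ofNat (nat_lit 6)), (Int.ofNat (nat_lit 9)), (Int.ofNat (nat_lit 11)), (Int.ofNat (nat_lit 12))]⟩,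
    ⟨(nat_lit 1), (nat_lit 296), (nat_lit 483), (Int.ofNat (nat_lit 0)), (Int.ofNat (nat_lit 8473)), [(Int.ofNat (nat_lit 574)), (Int.negSucc (nat_lit 1003))], [(Int.ofNat (nat_lit 2272)), (Int.ofNat (nat_lit 2272)), (Int.negSucc (nat_lit 141)), (Int.ofNat (nat_lit 623)), (Int.ofNat (nat_lit 1289))]⟩,
    ⟨(nat_lit 1), (nat_lit 495), (nat_lit 156), (Int.ofNat (nat_lit 13)), (Int.ofNat (nat_lit 12948)), [(Int.ofNat (nat_lit 2055)), (Int.negSucc (nat_lit 1171))], [(Int.ofNat (nat_lit 3732)), (Int.ofNat (nat_lit 3732)), (Int.negSucc (nat_lit 308)), (Int.ofNat (nat_lit 970)), (Int.ofNat (nat_lit 2082))]⟩,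
    ⟨(nat_lit 2), (nat_lit 250), (nat_lit 125), (Int.ofNat (nat_lit 30)), (Int.ofNat (nat_lit 7604)), [(Int.ofNat (nat_lit 1640)), (Int.ofNat (nat_lit 2190))], [(Int.ofNat (nat_lit 1975)), (Int.ofNat (nat_lit 2301)), (Int.ofNat (nat_lit 2910)), (Int.ofNat (nat_lit 3556)), (Int.ofNat (nat_lit 4118))]⟩]⟩
def xQ17 : Box := ⟨(nat_lit 125), (nat_lit 126), (nat_lit 124), (nat_lit 128), (nat_lit 10), (nat_lit 12), (nat_lit 12), (nat_lit 10), (nat_lit 3588), (nat_lit 2339), [(nat_lit 380), (nat_lit 610)], [(nat_lit 0), (nat_lit 300), (nat_lit 550), (nat_lit 750), (nat_lit 897)],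
  [⟨(nat_lit 1), (nat_lit 3000), (nat_lit 2106), (Int.ofNat (nat_lit 77)), (Int.ofNat (nat_lit 76952)), [(Int.ofNat (nat_lit 7124)), (Int.negSucc (nat_lit 9645))], [(Int.ofNat (nat_lit 22361)), (Int.ofNat (nat_lit 22361)), (Int.negSucc (nat_lit 1885)), (Int.ofNat (nat_lit 5955)), (Int.ofNat (nat_lit 12773))]⟩,
    ⟨(nat_lit 0), (nat_lit 0), (nat_lit 143), (Int.ofNat (nat_lit 0)), (Int.ofNat (nat_lit 2339)), [(Int.ofNat (nat_lit 173)), (Int.negSucc (nat_lit 310))], [(Int.ofNat (nat_lit 5)), (Int.ofNat (nat_lit 6)), (Int.ofNat (nat_lit 9)), (Int.ofNat (nat_lit 11)), (Int.ofNat (nat_lit 12))]⟩,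
    ⟨(nat_lit 1), (nat_lit 295), (nat_lit 480), (Int.ofNat (nat_lit 17)), (Int.ofNat (nat_lit 8763)), [(Int.ofNat (nat_lit 583)), (Int.negSucc (nat_lit 1074))], [(Int.ofNat (nat_lit 2155)), (Int.ofNat (nat_lit 2155)), (Int.negSucc (nat_lit 200)), (Int.ofNat (nat_lit 548)), (Int.ofNat (nat_lit 1220))]⟩,
    ⟨(nat_lit 1), (nat_lit 495), (nat_lit 156), (Int.ofNat (nat_lit 13)), (Int.ofNat (nat_lit 13213)), [(Int.ofNat (nat_lit 2109)), (Int.negSucc (nat_lit 1199))], [(Int.ofNat (nat_lit 3691)), (Int.ofNat (nat_lit 3691)), (Int.negSucc (nat_lit 304)), (Int.ofNat (nat_lit 990)), (Int.ofNat (nat_lit 2116))]⟩,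
    ⟨(nat_lit 2), (nat_lit 250), (nat_lit 125), (Int.ofNat (nat_lit 30)), (Int.ofNat (nat_lit 7816)), [(Int.ofNat (nat_lit 1641)), (Int.ofNat (nat_lit 2160))], [(Int.ofNat (nat_lit 1966)), (Int.ofNat (nat_lit 2295)), (Int.ofNat (nat_lit 2911)), (Int.ofNat (nat_lit 3567)), (Int.ofNat (nat_lit 4136))]⟩]⟩
def xQ18 : Box := ⟨(nat_lit 126), (nat_lit 127), (nat_lit 124), (nat_lit 128), (nat_lit 10), (nat_lit 12), (nat_lit 12), (nat_lit 11), (nat_lit 3588), (nat_lit 2490), [(nat_lit 380), (nat_lit 610)], [(nat_lit 0), (nat_lit 300), (nat_lit 550), (nat_lit 750), (nat_lit 897)],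
  [⟨(nat_lit 1), (nat_lit 3000), (nat_lit 1931), (Int.ofNat (nat_lit 148)), (Int.ofNat (nat_lit 78213)), [(Int.ofNat (nat_lit 7457)), (Int.negSucc (nat_lit 9704))], [(Int.ofNat (nat_lit 21837)), (Int.ofNat (nat_lit 21837)), (Int.negSucc (nat_lit 2083)), (Int.ofNat (nat_lit 5725)), (Int.ofNat (nat_lit 12627))]⟩,
    ⟨(nat_lit 0), (nat_lit 0), (nat_lit 193), (Int.ofNat (nat_lit 0)), (Int.ofNat (nat_lit 2490)), [(Int.ofNat (nat_lit 205)), (Int.negSucc (nat_lit 675))], [(Int.ofNat (nat_lit 5)), (Int.ofNat (nat_lit 6)), (Int.ofNat (nat_lit 9)), (Int.ofNat (nat_lit 11)), (Int.ofNat (nat_lit 12))]⟩,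
    ⟨(nat_lit 1), (nat_lit 295), (nat_lit 468), (Int.ofNat (nat_lit 16)), (Int.ofNat (nat_lit 8980)), [(Int.ofNat (nat_lit 597)), (Int.negSucc (nat_lit 1178))], [(Int.ofNat (nat_lit 2143)), (Int.ofNat (nat_lit 2143)), (Int.negSucc (nat_lit 196)), (Int.ofNat (nat_lit 566)), (Int.ofNat (nat_lit 1246))]⟩,
    ⟨(nat_lit 1), (nat_lit 404), (nat_lit 183), (Int.ofNat (nat_lit 26)), (Int.ofNat (nat_lit 11487)), [(Int.ofNat (nat_lit 1280)), (Int.negSucc (nat_lit 1097))], [(Int.ofNat (nat_lit 2913)), (Int.ofNat (nat_lit 2913)), (Int.negSucc (nat_lit 272)), (Int.ofNat (nat_lit 750)), (Int.ofNat (nat_lit 1681))]⟩,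
    ⟨(nat_lit 2), (nat_lit 200), (nat_lit 100), (Int.ofNat (nat_lit 53)), (Int.ofNat (nat_lit 7014)), [(Int.ofNat (nat_lit 1557)), (Int.ofNat (nat_lit 1612))], [(Int.ofNat (nat_lit 1469)), (Int.ofNat (nat_lit 1762)), (Int.ofNat (nat_lit 2294)), (Int.ofNat (nat_lit 2852)), (Int.ofNat (nat_lit 3325))]⟩]⟩
def xQ19 : Box := ⟨(nat_lit 127), (nat_lit 128), (nat_lit 124), (nat_lit 128), (nat_lit 10), (nat_lit 12), (nat_lit 12), (nat_lit 12), (nat_lit 3588), (nat_lit 2637), [(nat_lit 380), (nat_lit 610)], [(nat_lit 0), (nat_lit 300), (nat_lit 550), (nat_lit 750), (nat_lit 897)],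
  [⟨(nat_lit 1), (nat_lit 3000), (nat_lit 2007), (Int.ofNat (nat_lit 148)), (Int.ofNat (nat_lit 80194)), [(Int.ofNat (nat_lit 7464)), (Int.negSucc (nat_lit 10571))], [(Int.ofNat (nat_lit 21592)), (Int.ofNat (nat_lit 21592)), (Int.negSucc (nat_lit 2044)), (Int.ofNat (nat_lit 5850)), (Int.ofNat (nat_lit 12834))]⟩,
    ⟨(nat_lit 0), (nat_lit 0), (nat_lit 193), (Int.ofNat (nat_lit 0)), (Int.ofNat (nat_lit 2637)), [(Int.ofNat (nat_lit 205)), (Int.negSucc (nat_lit 727))], [(Int.ofNat (nat_lit 5)), (Int.ofNat (nat_lit 6)), (Int.ofNat (nat_lit 9)), (Int.ofNat (nat_lit 11)), (Int.ofNat (nat_lit 12))]⟩,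
    ⟨(nat_lit 1), (nat_lit 294), (nat_lit 458), (Int.ofNat (nat_lit 23)), (Int.ofNat (nat_lit 9214)), [(Int.ofNat (nat_lit 607)), (Int.negSucc (nat_lit 1335))], [(Int.ofNat (nat_lit 2077)), (Int.ofNat (nat_lit 2077)), (Int.negSucc (nat_lit 192)), (Int.ofNat (nat_lit 541)), (Int.ofNat (nat_lit 1227))]⟩,
    ⟨(nat_lit 1), (nat_lit 404), (nat_lit 183), (Int.ofNat (nat_lit 26)), (Int.ofNat (nat_lit 11728)), [(Int.ofNat (nat_lit 1293)), (Int.negSucc (nat_lit 1148))], [(Int.ofNat (nat_lit 2880)), (Int.ofNat (nat_lit 2880)), (Int.negSucc (nat_lit 267)), (Int.ofNat (nat_lit 767)), (Int.ofNat (nat_lit 1709))]⟩,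
    ⟨(nat_lit 2), (nat_lit 200), (nat_lit 100), (Int.ofNat (nat_lit 53)), (Int.ofNat (nat_lit 7211)), [(Int.ofNat (nat_lit 1557)), (Int.ofNat (nat_lit 1594))], [(Int.ofNat (nat_lit 1461)), (Int.ofNat (nat_lit 1757)), (Int.ofNat (nat_lit 2295)), (Int.ofNat (nat_lit 2860)), (Int.ofNat (nat_lit 3339))]⟩]⟩
def xQ20 : Box := ⟨(nat_lit 128), (nat_lit 129), (nat_lit 128), (nat_lit 132), (nat_lit 10), (nat_lit 12), (nat_lit 12), (nat_lit 13), (nat_lit 3536), (nat_lit 2784), [(nat_lit 360), (nat_lit 628)], [(nat_lit 0), (nat_lit 300), (nat_lit 550), (nat_lit 750), (nat_lit 884)],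
  [⟨(nat_lit 1), (nat_lit 3000), (nat_lit 1771), (Int.ofNat (nat_lit 399)), (Int.ofNat (nat_lit 81778)), [(Int.ofNat (nat_lit 7497)), (Int.negSucc (nat_lit 10127))], [(Int.ofNat (nat_lit 20095)), (Int.ofNat (nat_lit 20095)), (Int.negSucc (nat_lit 2005)), (Int.ofNat (nat_lit 4743)), (Int.ofNat (nat_lit 11334))]⟩,
    ⟨(nat_lit 0), (nat_lit 0), (nat_lit 183), (Int.ofNat (nat_lit 0)), (Int.ofNat (nat_lit 2784)), [(Int.ofNat (nat_lit 83)), (Int.negSucc (nat_lit 444))], [(Int.ofNat (nat_lit 5)), (Int.ofNat (nat_lit 6)), (Int.ofNat (nat_lit 9)), (Int.ofNat (nat_lit 11)), (Int.ofNat (nat_lit 12))]⟩,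
    ⟨(nat_lit 1), (nat_lit 269), (nat_lit 134), (Int.ofNat (nat_lit 33)), (Int.ofNat (nat_lit 8897)), [(Int.ofNat (nat_lit 733)), (Int.negSucc (nat_lit 817))], [(Int.ofNat (nat_lit 1819)), (Int.ofNat (nat_lit 1819)), (Int.negSucc (nat_lit 171)), (Int.ofNat (nat_lit 447)), (Int.ofNat (nat_lit 1026))]⟩,
    ⟨(nat_lit 1), (nat_lit 313), (nat_lit 445), (Int.ofNat (nat_lit 19)), (Int.ofNat (nat_lit 9840)), [(Int.ofNat (nat_lit 631)), (Int.negSucc (nat_lit 1214))], [(Int.ofNat (nat_lit 2213)), (Int.ofNat (nat_lit 2213)), (Int.negSucc (nat_lit 201)), (Int.ofNat (nat_lit 615)), (Int.ofNat (nat_lit 1289))]⟩,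
    ⟨(nat_lit 2), (nat_lit 200), (nat_lit 100), (Int.ofNat (nat_lit 53)), (Int.ofNat (nat_lit 7409)), [(Int.ofNat (nat_lit 1491)), (Int.ofNat (nat_lit 1581))], [(Int.ofNat (nat_lit 1455)), (Int.ofNat (nat_lit 1752)), (Int.ofNat (nat_lit 2297)), (Int.ofNat (nat_lit 2869)), (Int.ofNat (nat_lit 3309))]⟩]⟩
def xQ21 : Box := ⟨(nat_lit 129), (nat_lit 130), (nat_lit 128), (nat_lit 132), (nat_lit 10), (nat_lit 12), (nat_lit 12), (nat_lit 14), (nat_lit 3536), (nat_lit 2928), [(nat_lit 360), (nat_lit 628)], [(nat_lit 0), (nat_lit 300), (nat_lit 550), (nat_lit 750), (nat_lit 884)],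
  [⟨(nat_lit 1), (nat_lit 3000), (nat_lit 1826), (Int.ofNat (nat_lit 376)), (Int.ofNat (nat_lit 83713)), [(Int.ofNat (nat_lit 7498)), (Int.negSucc (nat_lit 10946))], [(Int.ofNat (nat_lit 20040)), (Int.ofNat (nat_lit 20040)), (Int.negSucc (nat_lit 1966)), (Int.ofNat (nat_lit 4959)), (Int.ofNat (nat_lit 11476))]⟩,
    ⟨(nat_lit 0), (nat_lit 0), (nat_lit 183), (Int.ofNat (nat_lit 0)), (Int.ofNat (nat_lit 2928)), [(Int.ofNat (nat_lit 83)), (Int.negSucc (nat_lit 499))], [(Int.ofNat (nat_lit 5)), (Int.ofNat (nat_lit 6)), (Int.ofNat (nat_lit 9)), (Int.ofNat (nat_lit 11)), (Int.ofNat (nat_lit 12))]⟩,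
    ⟨(nat_lit 1), (nat_lit 269), (nat_lit 134), (Int.ofNat (nat_lit 33)), (Int.ofNat (nat_lit 9107)), [(Int.ofNat (nat_lit 742)), (Int.negSucc (nat_lit 869))], [(Int.ofNat (nat_lit 1804)), (Int.ofNat (nat_lit 1804)), (Int.negSucc (nat_lit 168)), (Int.ofNat (nat_lit 458)), (Int.ofNat (nat_lit 1044))]⟩,
    ⟨(nat_lit 1), (nat_lit 300), (nat_lit 429), (Int.ofNat (nat_lit 32)), (Int.ofNat (nat_lit 9822)), [(Int.ofNat (nat_lit 613)), (Int.negSucc (nat_lit 1268))], [(Int.ofNat (nat_lit 2035)), (Int.ofNat (nat_lit 2035)), (Int.negSucc (nat_lit 188)), (Int.ofNat (nat_lit 534)), (Int.ofNat (nat_lit 1186))]⟩,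
    ⟨(nat_lit 2), (nat_lit 200), (nat_lit 100), (Int.ofNat (nat_lit 53)), (Int.ofNat (nat_lit 7604)), [(Int.ofNat (nat_lit 1491)), (Int.ofNat (nat_lit 1560))], [(Int.ofNat (nat_lit 1447)), (Int.ofNat (nat_lit 1748)), (Int.ofNat (nat_lit 2298)), (Int.ofNat (nat_lit 2877)), (Int.ofNat (nat_lit 3322))]⟩]⟩
def xQ22 : Box := ⟨(nat_lit 130), (nat_lit 131), (nat_lit 128), (nat_lit 132), (nat_lit 10), (nat_lit 12), (nat_lit 12), (nat_lit 15), (nat_lit 3536), (nat_lit 3072), [(nat_lit 360), (nat_lit 628)], [(nat_lit 0), (nat_lit 300), (nat_lit 550), (nat_lit 750), (nat_lit 884)],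
  [⟨(nat_lit 1), (nat_lit 3000), (nat_lit 1650), (Int.ofNat (nat_lit 365)), (Int.ofNat (nat_lit 84367)), [(Int.ofNat (nat_lit 7908)), (Int.negSucc (nat_lit 11393))], [(Int.ofNat (nat_lit 19851)), (Int.ofNat (nat_lit 19851)), (Int.negSucc (nat_lit 1927)), (Int.ofNat (nat_lit 5138)), (Int.ofNat (nat_lit 11726))]⟩,
    ⟨(nat_lit 0), (nat_lit 0), (nat_lit 202), (Int.ofNat (nat_lit 0)), (Int.ofNat (nat_lit 3072)), [(Int.ofNat (nat_lit 70)), (Int.negSucc (nat_lit 559))], [(Int.ofNat (nat_lit 5)), (Int.ofNat (nat_lit 6)), (Int.ofNat (nat_lit 9)), (Int.ofNat (nat_lit 11)), (Int.ofNat (nat_lit 12))]⟩,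
    ⟨(nat_lit 1), (nat_lit 300), (nat_lit 416), (Int.ofNat (nat_lit 28)), (Int.ofNat (nat_lit 10018)), [(Int.ofNat (nat_lit 625)), (Int.negSucc (nat_lit 1542))], [(Int.ofNat (nat_lit 2031)), (Int.ofNat (nat_lit 2031)), (Int.negSucc (nat_lit 184)), (Int.ofNat (nat_lit 566)), (Int.ofNat (nat_lit 1226))]⟩,
    ⟨(nat_lit 1), (nat_lit 404), (nat_lit 183), (Int.ofNat (nat_lit 26)), (Int.ofNat (nat_lit 12446)), [(Int.ofNat (nat_lit 1264)), (Int.negSucc (nat_lit 1383))], [(Int.ofNat (nat_lit 2792)), (Int.ofNat (nat_lit 2792)), (Int.negSucc (nat_lit 251)), (Int.ofNat (nat_lit 817)), (Int.ofNat (nat_lit 1706))]⟩,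
    ⟨(nat_lit 2), (nat_lit 200), (nat_lit 100), (Int.ofNat (nat_lit 53)), (Int.ofNat (nat_lit 7797)), [(Int.ofNat (nat_lit 1492)), (Int.ofNat (nat_lit 1539))], [(Int.ofNat (nat_lit 1440)), (Int.ofNat (nat_lit 1743)), (Int.ofNat (nat_lit 2300)), (Int.ofNat (nat_lit 2885)), (Int.ofNat (nat_lit 3335))]⟩]⟩
def xQ23 : Box := ⟨(nat_lit 131), (nat_lit 132), (nat_lit 128), (nat_lit 132), (nat_lit 10), (nat_lit 12), (nat_lit 12), (nat_lit 16), (nat_lit 3536), (nat_lit 3213), [(nat_lit 360), (nat_lit 628)], [(nat_lit 0), (nat_lit 300), (nat_lit 550), (nat_lit 750), (nat_lit 884)],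
  [⟨(nat_lit 1), (nat_lit 3000), (nat_lit 1677), (Int.ofNat (nat_lit 397)), (Int.ofNat (nat_lit 86418)), [(Int.ofNat (nat_lit 7941)), (Int.negSucc (nat_lit 12167))], [(Int.ofNat (nat_lit 19447)), (Int.ofNat (nat_lit 19447)), (Int.negSucc (nat_lit 1887)), (Int.ofNat (nat_lit 5108)), (Int.ofNat (nat_lit 11904))]⟩,
    ⟨(nat_lit 0), (nat_lit 0), (nat_lit 145), (Int.ofNat (nat_lit 1)), (Int.ofNat (nat_lit 3213)), [(Int.ofNat (nat_lit 75)), (Int.negSucc (nat_lit 362))], [(Int.ofNat (nat_lit 4)), (Int.ofNat (nat_lit 6)), (Int.ofNat (nat_lit 8)), (Int.ofNat (nat_lit 10)), (Int.ofNat (nat_lit 12))]⟩,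
    ⟨(nat_lit 1), (nat_lit 299), (nat_lit 402), (Int.ofNat (nat_lit 9)), (Int.ofNat (nat_lit 10111)), [(Int.ofNat (nat_lit 635)), (Int.negSucc (nat_lit 1553))], [(Int.ofNat (nat_lit 2094)), (Int.ofNat (nat_lit 2094)), (Int.negSucc (nat_lit 173)), (Int.ofNat (nat_lit 671)), (Int.ofNat (nat_lit 1336))]⟩,
    ⟨(nat_lit 1), (nat_lit 495), (nat_lit 156), (Int.ofNat (nat_lit 13)), (Int.ofNat (nat_lit 14770)), [(Int.ofNat (nat_lit 2140)), (Int.negSucc (nat_lit 1651))], [(Int.ofNat (nat_lit 3474)), (Int.ofNat (nat_lit 3474)), (Int.negSucc (nat_lit 283)), (Int.ofNat (nat_lit 1113)), (Int.ofNat (nat_lit 2213))]⟩,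
    ⟨(nat_lit 2), (nat_lit 250), (nat_lit 125), (Int.ofNat (nat_lit 30)), (Int.ofNat (nat_lit 9056)), [(Int.ofNat (nat_lit 1560)), (Int.ofNat (nat_lit 2073))], [(Int.ofNat (nat_lit 1910)), (Int.ofNat (nat_lit 2260)), (Int.ofNat (nat_lit 2922)), (Int.ofNat (nat_lit 3629)), (Int.ofNat (nat_lit 4185))]⟩]⟩
def xQ24 : Box := ⟨(nat_lit 132), (nat_lit 133), (nat_lit 132), (nat_lit 136), (nat_lit 10), (nat_lit 12), (nat_lit 12), (nat_lit 17), (nat_lit 3484), (nat_lit 3353), [(nat_lit 340), (nat_lit 642)], [(nat_lit 0), (nat_lit 300), (nat_lit 550), (nat_lit 750), (nat_lit 871)],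
  [⟨(nat_lit 1), (nat_lit 2999), (nat_lit 1625), (Int.ofNat (nat_lit 403)), (Int.ofNat (nat_lit 87774)), [(Int.ofNat (nat_lit 7687)), (Int.negSucc (nat_lit 11428))], [(Int.ofNat (nat_lit 19230)), (Int.ofNat (nat_lit 19230)), (Int.negSucc (nat_lit 1846)), (Int.ofNat (nat_lit 5228)), (Int.ofNat (nat_lit 11423))]⟩,
    ⟨(nat_lit 0), (nat_lit 0), (nat_lit 193), (Int.ofNat (nat_lit 0)), (Int.ofNat (nat_lit 3353)), [(Int.ofNat (nat_lit 205)), (Int.negSucc (nat_lit 883))], [(Int.ofNat (nat_lit 5)), (Int.ofNat (nat_lit 6)), (Int.ofNat (nat_lit 9)), (Int.ofNat (nat_lit 11)), (Int.ofNat (nat_lit 12))]⟩,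
    ⟨(nat_lit 1), (nat_lit 233), (nat_lit 317), (Int.ofNat (nat_lit 26)), (Int.ofNat (nat_lit 8832)), [(Int.ofNat (nat_lit 476)), (Int.negSucc (nat_lit 992))], [(Int.ofNat (nat_lit 1524)), (Int.ofNat (nat_lit 1524)), (Int.negSucc (nat_lit 135)), (Int.ofNat (nat_lit 440)), (Int.ofNat (nat_lit 913))]⟩,
    ⟨(nat_lit 1), (nat_lit 328), (nat_lit 389), (Int.ofNat (nat_lit 14)), (Int.ofNat (nat_lit 11041)), [(Int.ofNat (nat_lit 693)), (Int.negSucc (nat_lit 1428))], [(Int.ofNat (nat_lit 2257)), (Int.ofNat (nat_lit 2257)), (Int.negSucc (nat_lit 193)), (Int.ofNat (nat_lit 728)), (Int.ofNat (nat_lit 1394))]⟩,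
    ⟨(nat_lit 2), (nat_lit 200), (nat_lit 100), (Int.ofNat (nat_lit 53)), (Int.ofNat (nat_lit 8179)), [(Int.ofNat (nat_lit 1425)), (Int.ofNat (nat_lit 1515))], [(Int.ofNat (nat_lit 1424)), (Int.ofNat (nat_lit 1734)), (Int.ofNat (nat_lit 2302)), (Int.ofNat (nat_lit 2901)), (Int.ofNat (nat_lit 3315))]⟩]⟩
def xQ25 : Box := ⟨(nat_lit 133), (nat_lit 134), (nat_lit 132), (nat_lit 136), (nat_lit 10), (nat_lit 12), (nat_lit 12), (nat_lit 18), (nat_lit 3484), (nat_lit 3490), [(nat_lit 340), (nat_lit 642)], [(nat_lit 0), (nat_lit 300), (nat_lit 550), (nat_lit 750), (nat_lit 871)],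
  [⟨(nat_lit 1), (nat_lit 2983), (nat_lit 1638), (Int.ofNat (nat_lit 97)), (Int.ofNat (nat_lit 87666)), [(Int.ofNat (nat_lit 7685)), (Int.negSucc (nat_lit 11699))], [(Int.ofNat (nat_lit 20416)), (Int.ofNat (nat_lit 20416)), (Int.negSucc (nat_lit 1796)), (Int.ofNat (nat_lit 6807)), (Int.ofNat (nat_lit 12913))]⟩,
    ⟨(nat_lit 0), (nat_lit 0), (nat_lit 193), (Int.ofNat (nat_lit 0)), (Int.ofNat (nat_lit 3490)), [(Int.ofNat (nat_lit 205)), (Int.negSucc (nat_lit 947))], [(Int.ofNat (nat_lit 5)), (Int.ofNat (nat_lit 6)), (Int.ofNat (nat_lit 9)), (Int.ofNat (nat_lit 11)), (Int.ofNat (nat_lit 12))]⟩,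
    ⟨(nat_lit 1), (nat_lit 261), (nat_lit 384), (Int.ofNat (nat_lit 30)), (Int.ofNat (nat_lit 9722)), [(Int.ofNat (nat_lit 533)), (Int.negSucc (nat_lit 1280))], [(Int.ofNat (nat_lit 1682)), (Int.ofNat (nat_lit 1682)), (Int.negSucc (nat_lit 148)), (Int.ofNat (nat_lit 498)), (Int.ofNat (nat_lit 1033))]⟩,
    ⟨(nat_lit 1), (nat_lit 310), (nat_lit 381), (Int.ofNat (nat_lit 38)), (Int.ofNat (nat_lit 10945)), [(Int.ofNat (nat_lit 647)), (Int.negSucc (nat_lit 1491))], [(Int.ofNat (nat_lit 1985)), (Int.ofNat (nat_lit 1985)), (Int.negSucc (nat_lit 178)), (Int.ofNat (nat_lit 578)), (Int.ofNat (nat_lit 1213))]⟩,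
    ⟨(nat_lit 2), (nat_lit 200), (nat_lit 100), (Int.ofNat (nat_lit 53)), (Int.ofNat (nat_lit 8366)), [(Int.ofNat (nat_lit 1425)), (Int.ofNat (nat_lit 1490))], [(Int.ofNat (nat_lit 1417)), (Int.ofNat (nat_lit 1730)), (Int.ofNat (nat_lit 2304)), (Int.ofNat (nat_lit 2909)), (Int.ofNat (nat_lit 3327))]⟩]⟩
def xQ26 : Box := ⟨(nat_lit 134), (nat_lit 135), (nat_lit 132), (nat_lit 136), (nat_lit 10), (nat_lit 12), (nat_lit 12), (nat_lit 19), (nat_lit 3484), (nat_lit 3628), [(nat_lit 340), (nat_lit 642)], [(nat_lit 0), (nat_lit 300), (nat_lit 550), (nat_lit 750), (nat_lit 871)],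
  [⟨(nat_lit 1), (nat_lit 2942), (nat_lit 1597), (Int.ofNat (nat_lit 101)), (Int.ofNat (nat_lit 88266)), [(Int.ofNat (nat_lit 7681)), (Int.negSucc (nat_lit 12879))], [(Int.ofNat (nat_lit 19891)), (Int.ofNat (nat_lit 19891)), (Int.negSucc (nat_lit 1731)), (Int.ofNat (nat_lit 6807)), (Int.ofNat (nat_lit 12891))]⟩,
    ⟨(nat_lit 0), (nat_lit 0), (nat_lit 193), (Int.ofNat (nat_lit 0)), (Int.ofNat (nat_lit 3628)), [(Int.ofNat (nat_lit 205)), (Int.negSucc (nat_lit 1015))], [(Int.ofNat (nat_lit 5)), (Int.ofNat (nat_lit 6)), (Int.ofNat (nat_lit 9)), (Int.ofNat (nat_lit 11)), (Int.ofNat (nat_lit 12))]⟩,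
    ⟨(nat_lit 1), (nat_lit 264), (nat_lit 364), (Int.ofNat (nat_lit 14)), (Int.ofNat (nat_lit 9919)), [(Int.ofNat (nat_lit 551)), (Int.negSucc (nat_lit 1509))], [(Int.ofNat (nat_lit 1763)), (Int.ofNat (nat_lit 1763)), (Int.negSucc (nat_lit 147)), (Int.ofNat (nat_lit 596)), (Int.ofNat (nat_lit 1143))]⟩,
    ⟨(nat_lit 1), (nat_lit 306), (nat_lit 367), (Int.ofNat (nat_lit 25)), (Int.ofNat (nat_lit 10991)), [(Int.ofNat (nat_lit 652)), (Int.negSucc (nat_lit 1553))], [(Int.ofNat (nat_lit 2000)), (Int.ofNat (nat_lit 2000)), (Int.negSucc (nat_lit 172)), (Int.ofNat (nat_lit 645)), (Int.ofNat (nat_lit 1279))]⟩,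
    ⟨(nat_lit 2), (nat_lit 200), (nat_lit 100), (Int.ofNat (nat_lit 53)), (Int.ofNat (nat_lit 8553)), [(Int.ofNat (nat_lit 1425)), (Int.ofNat (nat_lit 1465))], [(Int.ofNat (nat_lit 1410)), (Int.ofNat (nat_lit 1725)), (Int.ofNat (nat_lit 2305)), (Int.ofNat (nat_lit 2917)), (Int.ofNat (nat_lit 3339))]⟩]⟩
def xQ27 : Box := ⟨(nat_lit 135), (nat_lit 136), (nat_lit 132), (nat_lit 136), (nat_lit 10), (nat_lit 12), (nat_lit 12), (nat_lit 20), (nat_lit 3484), (nat_lit 3762), [(nat_lit 340), (nat_lit 642)], [(nat_lit 0), (nat_lit 300), (nat_lit 550), (nat_lit 750), (nat_lit 871)],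
  [⟨(nat_lit 1), (nat_lit 2879), (nat_lit 1527), (Int.negSucc (nat_lit 34)), (Int.ofNat (nat_lit 87329)), [(Int.ofNat (nat_lit 7674)), (Int.negSucc (nat_lit 13453))], [(Int.ofNat (nat_lit 19916)), (Int.ofNat (nat_lit 19916)), (Int.negSucc (nat_lit 1059)), (Int.ofNat (nat_lit 7449)), (Int.ofNat (nat_lit 13462))]⟩,
    ⟨(nat_lit 0), (nat_lit 0), (nat_lit 193), (Int.ofNat (nat_lit 0)), (Int.ofNat (nat_lit 3762)), [(Int.ofNat (nat_lit 205)), (Int.negSucc (nat_lit 1086))], [(Int.ofNat (nat_lit 5)), (Int.ofNat (nat_lit 6)), (Int.ofNat (nat_lit 9)), (Int.ofNat (nat_lit 11)), (Int.ofNat (nat_lit 12))]⟩,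
    ⟨(nat_lit 1), (nat_lit 263), (nat_lit 348), (Int.ofNat (nat_lit 3)), (Int.ofNat (nat_lit 10036)), [(Int.ofNat (nat_lit 559)), (Int.negSucc (nat_lit 1554))], [(Int.ofNat (nat_lit 1792)), (Int.ofNat (nat_lit 1792)), (Int.negSucc (nat_lit 119)), (Int.ofNat (nat_lit 659)), (Int.ofNat (nat_lit 1210))]⟩,
    ⟨(nat_lit 1), (nat_lit 315), (nat_lit 352), (Int.ofNat (nat_lit 24)), (Int.ofNat (nat_lit 11414)), [(Int.ofNat (nat_lit 686)), (Int.negSucc (nat_lit 1759))], [(Int.ofNat (nat_lit 2043)), (Int.ofNat (nat_lit 2043)), (Int.negSucc (nat_lit 172)), (Int.ofNat (nat_lit 686)), (Int.ofNat (nat_lit 1345))]⟩,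
    ⟨(nat_lit 2), (nat_lit 200), (nat_lit 100), (Int.ofNat (nat_lit 53)), (Int.ofNat (nat_lit 8737)), [(Int.ofNat (nat_lit 1425)), (Int.ofNat (nat_lit 1439))], [(Int.ofNat (nat_lit 1403)), (Int.ofNat (nat_lit 1721)), (Int.ofNat (nat_lit 2307)), (Int.ofNat (nat_lit 2925)), (Int.ofNat (nat_lit 3351))]⟩]⟩
def xQ28 : Box := ⟨(nat_lit 136), (nat_lit 137), (nat_lit 136), (nat_lit 140), (nat_lit 10), (nat_lit 12), (nat_lit 12), (nat_lit 22), (nat_lit 3424), (nat_lit 3896), [(nat_lit 320), (nat_lit 666)], [(nat_lit 0), (nat_lit 300), (nat_lit 500), (nat_lit 700), (nat_lit 856)],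
  [⟨(nat_lit 1), (nat_lit 2821), (nat_lit 1460), (Int.ofNat (nat_lit 131)), (Int.ofNat (nat_lit 87828)), [(Int.ofNat (nat_lit 7218)), (Int.negSucc (nat_lit 12617))], [(Int.ofNat (nat_lit 18470)), (Int.ofNat (nat_lit 18470)), (Int.ofNat (nat_lit 142)), (Int.ofNat (nat_lit 4305)), (Int.ofNat (nat_lit 11795))]⟩,
    ⟨(nat_lit 0), (nat_lit 0), (nat_lit 143), (Int.ofNat (nat_lit 0)), (Int.ofNat (nat_lit 3896)), [(Int.ofNat (nat_lit 172)), (Int.negSucc (nat_lit 665))], [(Int.ofNat (nat_lit 5)), (Int.ofNat (nat_lit 6)), (Int.ofNat (nat_lit 8)), (Int.ofNat (nat_lit 10)), (Int.ofNat (nat_lit 12))]⟩,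
    ⟨(nat_lit 1), (nat_lit 284), (nat_lit 336), (Int.ofNat (nat_lit 6)), (Int.ofNat (nat_lit 10769)), [(Int.ofNat (nat_lit 615)), (Int.negSucc (nat_lit 1505))], [(Int.ofNat (nat_lit 1899)), (Int.ofNat (nat_lit 1899)), (Int.ofNat (nat_lit 21)), (Int.ofNat (nat_lit 479)), (Int.ofNat (nat_lit 1234))]⟩,
    ⟨(nat_lit 1), (nat_lit 502), (nat_lit 319), (Int.ofNat (nat_lit 27)), (Int.ofNat (nat_lit 16284)), [(Int.ofNat (nat_lit 1279)), (Int.negSucc (nat_lit 2515))], [(Int.ofNat (nat_lit 3271)), (Int.ofNat (nat_lit 3271)), (Int.ofNat (nat_lit 32)), (Int.ofNat (nat_lit 756)), (Int.ofNat (nat_lit 2090))]⟩,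
    ⟨(nat_lit 2), (nat_lit 250), (nat_lit 125), (Int.ofNat (nat_lit 30)), (Int.ofNat (nat_lit 10044)), [(Int.ofNat (nat_lit 1393)), (Int.ofNat (nat_lit 2153))], [(Int.ofNat (nat_lit 1862)), (Int.ofNat (nat_lit 2232)), (Int.ofNat (nat_lit 2769)), (Int.ofNat (nat_lit 3477)), (Int.ofNat (nat_lit 4142))]⟩]⟩
def xQ29 : Box := ⟨(nat_lit 137), (nat_lit 138), (nat_lit 136), (nat_lit 140), (nat_lit 10), (nat_lit 12), (nat_lit 12), (nat_lit 23), (nat_lit 3424), (nat_lit 4026), [(nat_lit 320), (nat_lit 666)], [(nat_lit 0), (nat_lit 300), (nat_lit 500), (nat_lit 700), (nat_lit 856)],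
  [⟨(nat_lit 1), (nat_lit 424), (nat_lit 317), (Int.ofNat (nat_lit 61)), (Int.ofNat (nat_lit 14737)), [(Int.ofNat (nat_lit 968)), (Int.negSucc (nat_lit 2036))], [(Int.ofNat (nat_lit 2540)), (Int.ofNat (nat_lit 2540)), (Int.ofNat (nat_lit 29)), (Int.ofNat (nat_lit 473)), (Int.ofNat (nat_lit 1629))]⟩,
    ⟨(nat_lit 0), (nat_lit 0), (nat_lit 143), (Int.ofNat (nat_lit 0)), (Int.ofNat (nat_lit 4026)), [(Int.ofNat (nat_lit 172)), (Int.negSucc (nat_lit 721))], [(Int.ofNat (nat_lit 5)), (Int.ofNat (nat_lit 6)), (Int.ofNat (nat_lit 8)), (Int.ofNat (nat_lit 10)), (Int.ofNat (nat_lit 12))]⟩,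
    ⟨(nat_lit 1), (nat_lit 287), (nat_lit 324), (Int.ofNat (nat_lit 8)), (Int.ofNat (nat_lit 11050)), [(Int.ofNat (nat_lit 603)), (Int.negSucc (nat_lit 1563))], [(Int.ofNat (nat_lit 1887)), (Int.ofNat (nat_lit 1887)), (Int.ofNat (nat_lit 22)), (Int.ofNat (nat_lit 483)), (Int.ofNat (nat_lit 1254))]⟩,
    ⟨(nat_lit 1), (nat_lit 502), (nat_lit 311), (Int.ofNat (nat_lit 34)), (Int.ofNat (nat_lit 16593)), [(Int.ofNat (nat_lit 1280)), (Int.negSucc (nat_lit 2636))], [(Int.ofNat (nat_lit 3198)), (Int.ofNat (nat_lit 3198)), (Int.ofNat (nat_lit 32)), (Int.ofNat (nat_lit 737)), (Int.ofNat (nat_lit 2084))]⟩,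
    ⟨(nat_lit 2), (nat_lit 250), (nat_lit 125), (Int.ofNat (nat_lit 30)), (Int.ofNat (nat_lit 10236)), [(Int.ofNat (nat_lit 1393)), (Int.ofNat (nat_lit 2105))], [(Int.ofNat (nat_lit 1853)), (Int.ofNat (nat_lit 2226)), (Int.ofNat (nat_lit 2770)), (Int.ofNat (nat_lit 3485)), (Int.ofNat (nat_lit 4157))]⟩]⟩
def xQ30 : Box := ⟨(nat_lit 138), (nat_lit 139), (nat_lit 136), (nat_lit 140), (nat_lit 10), (nat_lit 12), (nat_lit 12), (nat_lit 25), (nat_lit 3424), (nat_lit 4157), [(nat_lit 320), (nat_lit 666)], [(nat_lit 0), (nat_lit 300), (nat_lit 500), (nat_lit 700), (nat_lit 856)],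
  [⟨(nat_lit 1), (nat_lit 423), (nat_lit 304), (Int.ofNat (nat_lit 53)), (Int.ofNat (nat_lit 14902)), [(Int.ofNat (nat_lit 987)), (Int.negSucc (nat_lit 1357))], [(Int.ofNat (nat_lit 2540)), (Int.ofNat (nat_lit 2540)), (Int.ofNat (nat_lit 29)), (Int.ofNat (nat_lit 514)), (Int.ofNat (nat_lit 1660))]⟩,
    ⟨(nat_lit 0), (nat_lit 0), (nat_lit 143), (Int.ofNat (nat_lit 0)), (Int.ofNat (nat_lit 4157)), [(Int.ofNat (nat_lit 172)), (Int.negSucc (nat_lit 780))], [(Int.ofNat (nat_lit 5)), (Int.ofNat (nat_lit 6)), (Int.ofNat (nat_lit 8)), (Int.ofNat (nat_lit 10)), (Int.ofNat (nat_lit 12))]⟩,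
    ⟨(nat_lit 1), (nat_lit 287), (nat_lit 323), (Int.ofNat (nat_lit 32)), (Int.ofNat (nat_lit 11374)), [(Int.ofNat (nat_lit 610)), (Int.negSucc (nat_lit 1707))], [(Int.ofNat (nat_lit 1744)), (Int.ofNat (nat_lit 1744)), (Int.ofNat (nat_lit 22)), (Int.ofNat (nat_lit 372)), (Int.ofNat (nat_lit 1150))]⟩,
    ⟨(nat_lit 1), (nat_lit 394), (nat_lit 248), (Int.negSucc (nat_lit 0)), (Int.ofNat (nat_lit 13901)), [(Int.ofNat (nat_lit 958)), (Int.negSucc (nat_lit 2106))], [(Int.ofNat (nat_lit 2618)), (Int.ofNat (nat_lit 2618)), (Int.ofNat (nat_lit 74)), (Int.ofNat (nat_lit 732)), (Int.ofNat (nat_lit 1799))]⟩,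
    ⟨(nat_lit 2), (nat_lit 250), (nat_lit 125), (Int.ofNat (nat_lit 30)), (Int.ofNat (nat_lit 10427)), [(Int.ofNat (nat_lit 1392)), (Int.ofNat (nat_lit 2056))], [(Int.ofNat (nat_lit 1844)), (Int.ofNat (nat_lit 2221)), (Int.ofNat (nat_lit 2770)), (Int.ofNat (nat_lit 3493)), (Int.ofNat (nat_lit 4171))]⟩]⟩
def xQ31 : Box := ⟨(nat_lit 139), (nat_lit 140), (nat_lit 136), (nat_lit 140), (nat_lit 10), (nat_lit 12), (nat_lit 12), (nat_lit 26), (nat_lit 3424), (nat_lit 4285), [(nat_lit 320), (nat_lit 666)], [(nat_lit 0), (nat_lit 300), (nat_lit 500), (nat_lit 700), (nat_lit 856)],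
  [⟨(nat_lit 1), (nat_lit 422), (nat_lit 293), (Int.ofNat (nat_lit 49)), (Int.ofNat (nat_lit 15088)), [(Int.ofNat (nat_lit 1003)), (Int.negSucc (nat_lit 1960))], [(Int.ofNat (nat_lit 2520)), (Int.ofNat (nat_lit 2520)), (Int.ofNat (nat_lit 30)), (Int.ofNat (nat_lit 546)), (Int.ofNat (nat_lit 1699))]⟩,
    ⟨(nat_lit 0), (nat_lit 0), (nat_lit 193), (Int.ofNat (nat_lit 0)), (Int.ofNat (nat_lit 4285)), [(Int.ofNat (nat_lit 204)), (Int.negSucc (nat_lit 1314))], [(Int.ofNat (nat_lit 5)), (Int.ofNat (nat_lit 6)), (Int.ofNat (nat_lit 8)), (Int.ofNat (nat_lit 10)), (Int.ofNat (nat_lit 12))]⟩,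
    ⟨(nat_lit 1), (nat_lit 286), (nat_lit 311), (Int.ofNat (nat_lit 36)), (Int.ofNat (nat_lit 11560)), [(Int.ofNat (nat_lit 619)), (Int.negSucc (nat_lit 1697))], [(Int.ofNat (nat_lit 1695)), (Int.ofNat (nat_lit 1695)), (Int.ofNat (nat_lit 23)), (Int.ofNat (nat_lit 359)), (Int.ofNat (nat_lit 1141))]⟩,
    ⟨(nat_lit 1), (nat_lit 404), (nat_lit 183), (Int.ofNat (nat_lit 26)), (Int.ofNat (nat_lit 14510)), [(Int.ofNat (nat_lit 1220)), (Int.negSucc (nat_lit 2005))], [(Int.ofNat (nat_lit 2517)), (Int.ofNat (nat_lit 2517)), (Int.ofNat (nat_lit 29)), (Int.ofNat (nat_lit 628)), (Int.ofNat (nat_lit 1732))]⟩,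
    ⟨(nat_lit 2), (nat_lit 200), (nat_lit 100), (Int.ofNat (nat_lit 53)), (Int.ofNat (nat_lit 9459)), [(Int.ofNat (nat_lit 1358)), (Int.ofNat (nat_lit 1353))], [(Int.ofNat (nat_lit 1374)), (Int.ofNat (nat_lit 1704)), (Int.ofNat (nat_lit 2173)), (Int.ofNat (nat_lit 2783)), (Int.ofNat (nat_lit 3339))]⟩]⟩
def xQ32 : Box := ⟨(nat_lit 140), (nat_lit 141), (nat_lit 140), (nat_lit 144), (nat_lit 10), (nat_lit 12), (nat_lit 12), (nat_lit 28), (nat_lit 3364), (nat_lit 4413), [(nat_lit 300), (nat_lit 692)], [(nat_lit 0), (nat_lit 300), (nat_lit 500), (nat_lit 700), (nat_lit 841)],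
  [⟨(nat_lit 1), (nat_lit 533), (nat_lit 266), (Int.ofNat (nat_lit 5)), (Int.ofNat (nat_lit 17937)), [(Int.ofNat (nat_lit 1350)), (Int.negSucc (nat_lit 2176))], [(Int.ofNat (nat_lit 3424)), (Int.ofNat (nat_lit 1405)), (Int.ofNat (nat_lit 66)), (Int.ofNat (nat_lit 988)), (Int.ofNat (nat_lit 2316))]⟩,
    ⟨(nat_lit 0), (nat_lit 0), (nat_lit 166), (Int.ofNat (nat_lit 0)), (Int.ofNat (nat_lit 4413)), [(Int.ofNat (nat_lit 85)), (Int.negSucc (nat_lit 625))], [(Int.ofNat (nat_lit 5)), (Int.ofNat (nat_lit 6)), (Int.ofNat (nat_lit 8)), (Int.ofNat (nat_lit 10)), (Int.ofNat (nat_lit 12))]⟩,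
    ⟨(nat_lit 1), (nat_lit 293), (nat_lit 298), (Int.ofNat (nat_lit 32)), (Int.ofNat (nat_lit 11916)), [(Int.ofNat (nat_lit 663)), (Int.negSucc (nat_lit 1828))], [(Int.ofNat (nat_lit 1737)), (Int.ofNat (nat_lit 694)), (Int.ofNat (nat_lit 23)), (Int.ofNat (nat_lit 402)), (Int.ofNat (nat_lit 1132))]⟩,
    ⟨(nat_lit 1), (nat_lit 575), (nat_lit 268), (Int.ofNat (nat_lit 13)), (Int.ofNat (nat_lit 19152)), [(Int.ofNat (nat_lit 1696)), (Int.negSucc (nat_lit 3114))], [(Int.ofNat (nat_lit 3655)), (Int.ofNat (nat_lit 1477)), (Int.ofNat (nat_lit 38)), (Int.ofNat (nat_lit 1027)), (Int.ofNat (nat_lit 2459))]⟩,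
    ⟨(nat_lit 2), (nat_lit 198), (nat_lit 99), (Int.ofNat (nat_lit 3)), (Int.ofNat (nat_lit 9335)), [(Int.ofNat (nat_lit 1130)), (Int.ofNat (nat_lit 1389))], [(Int.ofNat (nat_lit 1551)), (Int.ofNat (nat_lit 1855)), (Int.ofNat (nat_lit 2299)), (Int.ofNat (nat_lit 2885)), (Int.ofNat (nat_lit 3379))]⟩,
    ⟨(nat_lit 2), (nat_lit 151), (nat_lit 76), (Int.ofNat (nat_lit 56)), (Int.ofNat (nat_lit 8395)), [(Int.ofNat (nat_lit 974)), (Int.ofNat (nat_lit 944))], [(Int.ofNat (nat_lit 1033)), (Int.ofNat (nat_lit 1285)), (Int.ofNat (nat_lit 1643)), (Int.ofNat (nat_lit 2109)), (Int.ofNat (nat_lit 2491))]⟩]⟩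
def xQ33 : Box := ⟨(nat_lit 141), (nat_lit 142), (nat_lit 140), (nat_lit 144), (nat_lit 10), (nat_lit 12), (nat_lit 12), (nat_lit 29), (nat_lit 3364), (nat_lit 4537), [(nat_lit 300), (nat_lit 692)], [(nat_lit 0), (nat_lit 300), (nat_lit 500), (nat_lit 700), (nat_lit 841)],
  [⟨(nat_lit 1), (nat_lit 436), (nat_lit 269), (Int.ofNat (nat_lit 59)), (Int.ofNat (nat_lit 15948)), [(Int.ofNat (nat_lit 1030)), (Int.negSucc (nat_lit 2424))], [(Int.ofNat (nat_lit 2492)), (Int.ofNat (nat_lit 2492)), (Int.ofNat (nat_lit 32)), (Int.ofNat (nat_lit 549)), (Int.ofNat (nat_lit 1645))]⟩,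
    ⟨(nat_lit 0), (nat_lit 0), (nat_lit 180), (Int.ofNat (nat_lit 5)), (Int.ofNat (nat_lit 4537)), [(Int.ofNat (nat_lit 31)), (Int.negSucc (nat_lit 450))], [(Int.ofNat (nat_lit 4)), (Int.ofNat (nat_lit 6)), (Int.ofNat (nat_lit 8)), (Int.ofNat (nat_lit 10)), (Int.ofNat (nat_lit 11))]⟩,
    ⟨(nat_lit 1), (nat_lit 305), (nat_lit 283), (Int.ofNat (nat_lit 21)), (Int.ofNat (nat_lit 12374)), [(Int.ofNat (nat_lit 663)), (Int.negSucc (nat_lit 1871))], [(Int.ofNat (nat_lit 1845)), (Int.ofNat (nat_lit 1845)), (Int.ofNat (nat_lit 25)), (Int.ofNat (nat_lit 489)), (Int.ofNat (nat_lit 1256))]⟩,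
    ⟨(nat_lit 1), (nat_lit 575), (nat_lit 268), (Int.ofNat (nat_lit 13)), (Int.ofNat (nat_lit 19566)), [(Int.ofNat (nat_lit 1706)), (Int.negSucc (nat_lit 3267))], [(Int.ofNat (nat_lit 3609)), (Int.ofNat (nat_lit 3609)), (Int.ofNat (nat_lit 39)), (Int.ofNat (nat_lit 1045)), (Int.ofNat (nat_lit 2490))]⟩,
    ⟨(nat_lit 2), (nat_lit 198), (nat_lit 99), (Int.ofNat (nat_lit 3)), (Int.ofNat (nat_lit 9509)), [(Int.ofNat (nat_lit 1130)), (Int.ofNat (nat_lit 1352))], [(Int.ofNat (nat_lit 1543)), (Int.ofNat (nat_lit 1851)), (Int.ofNat (nat_lit 2300)), (Int.ofNat (nat_lit 2891)), (Int.ofNat (nat_lit 3390))]⟩,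
    ⟨(nat_lit 2), (nat_lit 151), (nat_lit 76), (Int.ofNat (nat_lit 56)), (Int.ofNat (nat_lit 8558)), [(Int.ofNat (nat_lit 974)), (Int.ofNat (nat_lit 919))], [(Int.ofNat (nat_lit 1028)), (Int.ofNat (nat_lit 1281)), (Int.ofNat (nat_lit 1643)), (Int.ofNat (nat_lit 2113)), (Int.ofNat (nat_lit 2499))]⟩]⟩
def xQ34 : Box := ⟨(nat_lit 142), (nat_lit 143), (nat_lit 140), (nat_lit 144), (nat_lit 10), (nat_lit 12), (nat_lit 12), (nat_lit 31), (nat_lit 3364), (nat_lit 4662), [(nat_lit 300), (nat_lit 692)], [(nat_lit 0), (nat_lit 300), (nat_lit 500), (nat_lit 700), (nat_lit 841)],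
  [⟨(nat_lit 1), (nat_lit 426), (nat_lit 259), (Int.ofNat (nat_lit 57)), (Int.ofNat (nat_lit 15916)), [(Int.ofNat (nat_lit 1020)), (Int.negSucc (nat_lit 1950))], [(Int.ofNat (nat_lit 2403)), (Int.ofNat (nat_lit 2403)), (Int.ofNat (nat_lit 32)), (Int.ofNat (nat_lit 554)), (Int.ofNat (nat_lit 1633))]⟩,
    ⟨(nat_lit 0), (nat_lit 0), (nat_lit 177), (Int.ofNat (nat_lit 5)), (Int.ofNat (nat_lit 4662)), [(Int.ofNat (nat_lit 14)), (Int.negSucc (nat_lit 353))], [(Int.ofNat (nat_lit 4)), (Int.ofNat (nat_lit 6)), (Int.ofNat (nat_lit 8)), (Int.ofNat (nat_lit 10)), (Int.ofNat (nat_lit 11))]⟩,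
    ⟨(nat_lit 1), (nat_lit 293), (nat_lit 278), (Int.ofNat (nat_lit 39)), (Int.ofNat (nat_lit 12356)), [(Int.ofNat (nat_lit 628)), (Int.negSucc (nat_lit 1898))], [(Int.ofNat (nat_lit 1655)), (Int.ofNat (nat_lit 1655)), (Int.ofNat (nat_lit 25)), (Int.ofNat (nat_lit 385)), (Int.ofNat (nat_lit 1128))]⟩,
    ⟨(nat_lit 1), (nat_lit 547), (nat_lit 240), (Int.negSucc (nat_lit 0)), (Int.ofNat (nat_lit 18771)), [(Int.ofNat (nat_lit 1693)), (Int.negSucc (nat_lit 3144))], [(Int.ofNat (nat_lit 3456)), (Int.ofNat (nat_lit 3456)), (Int.ofNat (nat_lit 100)), (Int.ofNat (nat_lit 1079)), (Int.ofNat (nat_lit 2465))]⟩,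
    ⟨(nat_lit 2), (nat_lit 198), (nat_lit 99), (Int.ofNat (nat_lit 3)), (Int.ofNat (nat_lit 9682)), [(Int.ofNat (nat_lit 1130)), (Int.ofNat (nat_lit 1312))], [(Int.ofNat (nat_lit 1536)), (Int.ofNat (nat_lit 1846)), (Int.ofNat (nat_lit 2300)), (Int.ofNat (nat_lit 2898)), (Int.ofNat (nat_lit 3400))]⟩,
    ⟨(nat_lit 2), (nat_lit 151), (nat_lit 76), (Int.ofNat (nat_lit 56)), (Int.ofNat (nat_lit 8721)), [(Int.ofNat (nat_lit 974)), (Int.ofNat (nat_lit 892))], [(Int.ofNat (nat_lit 1023)), (Int.ofNat (nat_lit 1278)), (Int.ofNat (nat_lit 1643)), (Int.ofNat (nat_lit 2118)), (Int.ofNat (nat_lit 2506))]⟩]⟩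
def xQ35 : Box := ⟨(nat_lit 143), (nat_lit 144), (nat_lit 140), (nat_lit 144), (nat_lit 10), (nat_lit 12), (nat_lit 12), (nat_lit 33), (nat_lit 3364), (nat_lit 4784), [(nat_lit 300), (nat_lit 692)], [(nat_lit 0), (nat_lit 300), (nat_lit 500), (nat_lit 700), (nat_lit 841)],
  [⟨(nat_lit 1), (nat_lit 449), (nat_lit 244), (Int.ofNat (nat_lit 59)), (Int.ofNat (nat_lit 16737)), [(Int.ofNat (nat_lit 1129)), (Int.negSucc (nat_lit 2214))], [(Int.ofNat (nat_lit 2501)), (Int.ofNat (nat_lit 2501)), (Int.ofNat (nat_lit 34)), (Int.ofNat (nat_lit 603)), (Int.ofNat (nat_lit 1750))]⟩,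
    ⟨(nat_lit 0), (nat_lit 0), (nat_lit 177), (Int.ofNat (nat_lit 5)), (Int.ofNat (nat_lit 4784)), [(Int.ofNat (nat_lit 14)), (Int.negSucc (nat_lit 475))], [(Int.ofNat (nat_lit 4)), (Int.ofNat (nat_lit 6)), (Int.ofNat (nat_lit 8)), (Int.ofNat (nat_lit 10)), (Int.ofNat (nat_lit 11))]⟩,
    ⟨(nat_lit 1), (nat_lit 292), (nat_lit 265), (Int.ofNat (nat_lit 39)), (Int.ofNat (nat_lit 12506)), [(Int.ofNat (nat_lit 636)), (Int.negSucc (nat_lit 1956))], [(Int.ofNat (nat_lit 1626)), (Int.ofNat (nat_lit 1626)), (Int.ofNat (nat_lit 25)), (Int.ofNat (nat_lit 392)), (Int.ofNat (nat_lit 1139))]⟩,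
    ⟨(nat_lit 1), (nat_lit 556), (nat_lit 244), (Int.ofNat (nat_lit 4)), (Int.ofNat (nat_lit 19530)), [(Int.ofNat (nat_lit 1668)), (Int.negSucc (nat_lit 3261))], [(Int.ofNat (nat_lit 3442)), (Int.ofNat (nat_lit 3442)), (Int.ofNat (nat_lit 78)), (Int.ofNat (nat_lit 1089)), (Int.ofNat (nat_lit 2509))]⟩,
    ⟨(nat_lit 2), (nat_lit 198), (nat_lit 99), (Int.ofNat (nat_lit 3)), (Int.ofNat (nat_lit 9852)), [(Int.ofNat (nat_lit 1130)), (Int.ofNat (nat_lit 1273))], [(Int.ofNat (nat_lit 1529)), (Int.ofNat (nat_lit 1842)), (Int.ofNat (nat_lit 2300)), (Int.ofNat (nat_lit 2904)), (Int.ofNat (nat_lit 3411))]⟩,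
    ⟨(nat_lit 2), (nat_lit 151), (nat_lit 76), (Int.ofNat (nat_lit 56)), (Int.ofNat (nat_lit 8881)), [(Int.ofNat (nat_lit 974)), (Int.ofNat (nat_lit 865))], [(Int.ofNat (nat_lit 1017)), (Int.ofNat (nat_lit 1275)), (Int.ofNat (nat_lit 1643)), (Int.ofNat (nat_lit 2123)), (Int.ofNat (nat_lit 2514))]⟩]⟩
def xQ36 : Box := ⟨(nat_lit 144), (nat_lit 145), (nat_lit 144), (nat_lit 148), (nat_lit 10), (nat_lit 12), (nat_lit 12), (nat_lit 35), (nat_lit 4120), (nat_lit 4905), [(nat_lit 280), (nat_lit 740)], [(nat_lit 0), (nat_lit 300), (nat_lit 500), (nat_lit 700), (nat_lit 824)],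
  [⟨(nat_lit 1), (nat_lit 447), (nat_lit 234), (Int.ofNat (nat_lit 58)), (Int.ofNat (nat_lit 16916)), [(Int.ofNat (nat_lit 1074)), (Int.negSucc (nat_lit 2052))], [(Int.ofNat (nat_lit 2457)), (Int.ofNat (nat_lit 2457)), (Int.ofNat (nat_lit 35)), (Int.ofNat (nat_lit 618)), (Int.ofNat (nat_lit 1630))]⟩,
    ⟨(nat_lit 0), (nat_lit 0), (nat_lit 140), (Int.ofNat (nat_lit 0)), (Int.ofNat (nat_lit 4905)), [(Int.ofNat (nat_lit 83)), (Int.negSucc (nat_lit 717))], [(Int.ofNat (nat_lit 5)), (Int.ofNat (nat_lit 6)), (Int.ofNat (nat_lit 8)), (Int.ofNat (nat_lit 10)), (Int.ofNat (nat_lit 12))]⟩,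
    ⟨(nat_lit 1), (nat_lit 252), (nat_lit 262), (Int.ofNat (nat_lit 81)), (Int.ofNat (nat_lit 11846)), [(Int.ofNat (nat_lit 564)), (Int.negSucc (nat_lit 1925))], [(Int.ofNat (nat_lit 1386)), (Int.ofNat (nat_lit 1386)), (Int.ofNat (nat_lit 23)), (Int.ofNat (nat_lit 340)), (Int.ofNat (nat_lit 918))]⟩,
    ⟨(nat_lit 1), (nat_lit 328), (nat_lit 240), (Int.ofNat (nat_lit 1)), (Int.ofNat (nat_lit 13462)), [(Int.ofNat (nat_lit 819)), (Int.negSucc (nat_lit 2468))], [(Int.ofNat (nat_lit 2012)), (Int.ofNat (nat_lit 2012)), (Int.ofNat (nat_lit 57)), (Int.ofNat (nat_lit 664)), (Int.ofNat (nat_lit 1407))]⟩,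
    ⟨(nat_lit 2), (nat_lit 259), (nat_lit 130), (Int.ofNat (nat_lit 30)), (Int.ofNat (nat_lit 11776)), [(Int.ofNat (nat_lit 1399)), (Int.ofNat (nat_lit 1729))], [(Int.ofNat (nat_lit 1861)), (Int.ofNat (nat_lit 2272)), (Int.ofNat (nat_lit 2876)), (Int.ofNat (nat_lit 3673)), (Int.ofNat (nat_lit 4260))]⟩,
    ⟨(nat_lit 2), (nat_lit 109), (nat_lit 55), (Int.ofNat (nat_lit 19)), (Int.ofNat (nat_lit 7742)), [(Int.ofNat (nat_lit 513)), (Int.ofNat (nat_lit 1137))], [(Int.ofNat (nat_lit 754)), (Int.ofNat (nat_lit 928)), (Int.ofNat (nat_lit 1188)), (Int.ofNat (nat_lit 1538)), (Int.ofNat (nat_lit 1789))]⟩]⟩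
def xQ37 : Box := ⟨(nat_lit 145), (nat_lit 146), (nat_lit 144), (nat_lit 148), (nat_lit 10), (nat_lit 12), (nat_lit 12), (nat_lit 38), (nat_lit 4120), (nat_lit 5024), [(nat_lit 280), (nat_lit 740)], [(nat_lit 0), (nat_lit 300), (nat_lit 500), (nat_lit 700), (nat_lit 824)],
  [⟨(nat_lit 1), (nat_lit 425), (nat_lit 204), (Int.ofNat (nat_lit 55)), (Int.ofNat (nat_lit 16565)), [(Int.ofNat (nat_lit 1067)), (Int.negSucc (nat_lit 1944))], [(Int.ofNat (nat_lit 2304)), (Int.ofNat (nat_lit 2304)), (Int.ofNat (nat_lit 35)), (Int.ofNat (nat_lit 602)), (Int.ofNat (nat_lit 1573))]⟩,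
    ⟨(nat_lit 0), (nat_lit 0), (nat_lit 140), (Int.ofNat (nat_lit 0)), (Int.ofNat (nat_lit 5024)), [(Int.ofNat (nat_lit 83)), (Int.negSucc (nat_lit 797))], [(Int.ofNat (nat_lit 5)), (Int.ofNat (nat_lit 6)), (Int.ofNat (nat_lit 8)), (Int.ofNat (nat_lit 10)), (Int.ofNat (nat_lit 12))]⟩,
    ⟨(nat_lit 1), (nat_lit 170), (nat_lit 220), (Int.ofNat (nat_lit 51)), (Int.ofNat (nat_lit 9682)), [(Int.ofNat (nat_lit 348)), (Int.negSucc (nat_lit 1365))], [(Int.ofNat (nat_lit 923)), (Int.ofNat (nat_lit 923)), (Int.ofNat (nat_lit 19)), (Int.ofNat (nat_lit 238)), (Int.ofNat (nat_lit 631))]⟩,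
    ⟨(nat_lit 1), (nat_lit 332), (nat_lit 216), (Int.ofNat (nat_lit 3)), (Int.ofNat (nat_lit 13848)), [(Int.ofNat (nat_lit 815)), (Int.negSucc (nat_lit 2463))], [(Int.ofNat (nat_lit 1999)), (Int.ofNat (nat_lit 1999)), (Int.ofNat (nat_lit 48)), (Int.ofNat (nat_lit 673)), (Int.ofNat (nat_lit 1431))]⟩,
    ⟨(nat_lit 2), (nat_lit 259), (nat_lit 130), (Int.ofNat (nat_lit 30)), (Int.ofNat (nat_lit 11958)), [(Int.ofNat (nat_lit 1399)), (Int.ofNat (nat_lit 1669))], [(Int.ofNat (nat_lit 1852)), (Int.ofNat (nat_lit 2266)), (Int.ofNat (nat_lit 2876)), (Int.ofNat (nat_lit 3681)), (Int.ofNat (nat_lit 4273))]⟩,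
    ⟨(nat_lit 2), (nat_lit 109), (nat_lit 55), (Int.ofNat (nat_lit 19)), (Int.ofNat (nat_lit 7889)), [(Int.ofNat (nat_lit 513)), (Int.ofNat (nat_lit 1095))], [(Int.ofNat (nat_lit 750)), (Int.ofNat (nat_lit 926)), (Int.ofNat (nat_lit 1189)), (Int.ofNat (nat_lit 1542)), (Int.ofNat (nat_lit 1794))]⟩]⟩
def xQ38 : Box := ⟨(nat_lit 146), (nat_lit 147), (nat_lit 144), (nat_lit 148), (nat_lit 10), (nat_lit 12), (nat_lit 12), (nat_lit 43), (nat_lit 4120), (nat_lit 5142), [(nat_lit 280), (nat_lit 740)], [(nat_lit 0), (nat_lit 300), (nat_lit 500), (nat_lit 700), (nat_lit 824)],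
  [⟨(nat_lit 1), (nat_lit 432), (nat_lit 193), (Int.ofNat (nat_lit 55)), (Int.ofNat (nat_lit 16957)), [(Int.ofNat (nat_lit 1132)), (Int.negSucc (nat_lit 1638))], [(Int.ofNat (nat_lit 2310)), (Int.ofNat (nat_lit 2310)), (Int.ofNat (nat_lit 37)), (Int.ofNat (nat_lit 630)), (Int.ofNat (nat_lit 1624))]⟩,
    ⟨(nat_lit 0), (nat_lit 0), (nat_lit 185), (Int.ofNat (nat_lit 9)), (Int.ofNat (nat_lit 5142)), [(Int.ofNat (nat_lit 14)), (Int.negSucc (nat_lit 622))], [(Int.ofNat (nat_lit 4)), (Int.ofNat (nat_lit 6)), (Int.ofNat (nat_lit 8)), (Int.ofNat (nat_lit 10)), (Int.ofNat (nat_lit 11))]⟩,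
    ⟨(nat_lit 1), (nat_lit 307), (nat_lit 212), (Int.ofNat (nat_lit 59)), (Int.ofNat (nat_lit 13653)), [(Int.ofNat (nat_lit 688)), (Int.negSucc (nat_lit 2251))], [(Int.ofNat (nat_lit 1642)), (Int.ofNat (nat_lit 1642)), (Int.ofNat (nat_lit 28)), (Int.ofNat (nat_lit 431)), (Int.ofNat (nat_lit 1145))]⟩,
    ⟨(nat_lit 1), (nat_lit 346), (nat_lit 211), (Int.ofNat (nat_lit 56)), (Int.ofNat (nat_lit 14782)), [(Int.ofNat (nat_lit 972)), (Int.negSucc (nat_lit 2905))], [(Int.ofNat (nat_lit 1850)), (Int.ofNat (nat_lit 1850)), (Int.ofNat (nat_lit 31)), (Int.ofNat (nat_lit 485)), (Int.ofNat (nat_lit 1289))]⟩,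
    ⟨(nat_lit 2), (nat_lit 121), (nat_lit 61), (Int.ofNat (nat_lit 40)), (Int.ofNat (nat_lit 8465)), [(Int.ofNat (nat_lit 624)), (Int.ofNat (nat_lit 1048))], [(Int.ofNat (nat_lit 805)), (Int.ofNat (nat_lit 1015)), (Int.ofNat (nat_lit 1319)), (Int.ofNat (nat_lit 1714)), (Int.ofNat (nat_lit 1996))]⟩,
    ⟨(nat_lit 2), (nat_lit 277), (nat_lit 138), (Int.ofNat (nat_lit 39)), (Int.ofNat (nat_lit 12669)), [(Int.ofNat (nat_lit 1527)), (Int.ofNat (nat_lit 1766))], [(Int.ofNat (nat_lit 1936)), (Int.ofNat (nat_lit 2383)), (Int.ofNat (nat_lit 3041)), (Int.ofNat (nat_lit 3912)), (Int.ofNat (nat_lit 4556))]⟩]⟩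
def xQ39 : Box := ⟨(nat_lit 147), (nat_lit 148), (nat_lit 144), (nat_lit 148), (nat_lit 10), (nat_lit 12), (nat_lit 12), (nat_lit 45), (nat_lit 4120), (nat_lit 5258), [(nat_lit 280), (nat_lit 740)], [(nat_lit 0), (nat_lit 300), (nat_lit 500), (nat_lit 700), (nat_lit 824)],
  [⟨(nat_lit 1), (nat_lit 413), (nat_lit 185), (Int.ofNat (nat_lit 51)), (Int.ofNat (nat_lit 16633)), [(Int.ofNat (nat_lit 1089)), (Int.negSucc (nat_lit 2094))], [(Int.ofNat (nat_lit 2179)), (Int.ofNat (nat_lit 2179)), (Int.ofNat (nat_lit 37)), (Int.ofNat (nat_lit 624)), (Int.ofNat (nat_lit 1581))]⟩,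
    ⟨(nat_lit 0), (nat_lit 0), (nat_lit 185), (Int.ofNat (nat_lit 9)), (Int.ofNat (nat_lit 5258)), [(Int.ofNat (nat_lit 14)), (Int.negSucc (nat_lit 780))], [(Int.ofNat (nat_lit 4)), (Int.ofNat (nat_lit 6)), (Int.ofNat (nat_lit 8)), (Int.ofNat (nat_lit 10)), (Int.ofNat (nat_lit 11))]⟩,
    ⟨(nat_lit 1), (nat_lit 252), (nat_lit 206), (Int.ofNat (nat_lit 56)), (Int.ofNat (nat_lit 12267)), [(Int.ofNat (nat_lit 547)), (Int.negSucc (nat_lit 2063))], [(Int.ofNat (nat_lit 1330)), (Int.ofNat (nat_lit 1330)), (Int.ofNat (nat_lit 26)), (Int.ofNat (nat_lit 364)), (Int.ofNat (nat_lit 954))]⟩,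
    ⟨(nat_lit 1), (nat_lit 335), (nat_lit 192), (Int.ofNat (nat_lit 41)), (Int.ofNat (nat_lit 14439)), [(Int.ofNat (nat_lit 799)), (Int.negSucc (nat_lit 2514))], [(Int.ofNat (nat_lit 1770)), (Int.ofNat (nat_lit 1770)), (Int.ofNat (nat_lit 31)), (Int.ofNat (nat_lit 510)), (Int.ofNat (nat_lit 1287))]⟩,
    ⟨(nat_lit 2), (nat_lit 121), (nat_lit 61), (Int.ofNat (nat_lit 40)), (Int.ofNat (nat_lit 8612)), [(Int.ofNat (nat_lit 623)), (Int.ofNat (nat_lit 1016))], [(Int.ofNat (nat_lit 801)), (Int.ofNat (nat_lit 1013)), (Int.ofNat (nat_lit 1319)), (Int.ofNat (nat_lit 1718)), (Int.ofNat (nat_lit 2002))]⟩,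
    ⟨(nat_lit 2), (nat_lit 277), (nat_lit 138), (Int.ofNat (nat_lit 39)), (Int.ofNat (nat_lit 12851)), [(Int.ofNat (nat_lit 1526)), (Int.ofNat (nat_lit 1701))], [(Int.ofNat (nat_lit 1926)), (Int.ofNat (nat_lit 2377)), (Int.ofNat (nat_lit 3041)), (Int.ofNat (nat_lit 3920)), (Int.ofNat (nat_lit 4569))]⟩]⟩
def xQ40 : Box := ⟨(nat_lit 148), (nat_lit 149), (nat_lit 148), (nat_lit 150), (nat_lit 10), (nat_lit 12), (nat_lit 12), (nat_lit 48), (nat_lit 4035), (nat_lit 5374), [(nat_lit 260), (nat_lit 760)], [(nat_lit 0), (nat_lit 300), (nat_lit 500), (nat_lit 700), (nat_lit 807)],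
  [⟨(nat_lit 1), (nat_lit 397), (nat_lit 175), (Int.ofNat (nat_lit 49)), (Int.ofNat (nat_lit 16375)), [(Int.ofNat (nat_lit 986)), (Int.negSucc (nat_lit 2104))], [(Int.ofNat (nat_lit 2064)), (Int.ofNat (nat_lit 2064)), (Int.ofNat (nat_lit 37)), (Int.ofNat (nat_lit 613)), (Int.ofNat (nat_lit 1413))]⟩,
    ⟨(nat_lit 0), (nat_lit 0), (nat_lit 120), (Int.ofNat (nat_lit 0)), (Int.ofNat (nat_lit 5374)), [(Int.ofNat (nat_lit 11)), (Int.negSucc (nat_lit 170))], [(Int.ofNat (nat_lit 5)), (Int.ofNat (nat_lit 6)), (Int.ofNat (nat_lit 8)), (Int.ofNat (nat_lit 10)), (Int.ofNat (nat_lit 12))]⟩,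
    ⟨(nat_lit 1), (nat_lit 323), (nat_lit 184), (Int.ofNat (nat_lit 44)), (Int.ofNat (nat_lit 14336)), [(Int.ofNat (nat_lit 888)), (Int.negSucc (nat_lit 2651))], [(Int.ofNat (nat_lit 1680)), (Int.ofNat (nat_lit 1680)), (Int.ofNat (nat_lit 32)), (Int.ofNat (nat_lit 480)), (Int.ofNat (nat_lit 1131))]⟩,
    ⟨(nat_lit 1), (nat_lit 247), (nat_lit 184), (Int.ofNat (nat_lit 8)), (Int.ofNat (nat_lit 12055)), [(Int.ofNat (nat_lit 573)), (Int.negSucc (nat_lit 1860))], [(Int.ofNat (nat_lit 1396)), (Int.ofNat (nat_lit 1396)), (Int.ofNat (nat_lit 26)), (Int.ofNat (nat_lit 498)), (Int.ofNat (nat_lit 996))]⟩,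
    ⟨(nat_lit 2), (nat_lit 119), (nat_lit 60), (Int.ofNat (nat_lit 17)), (Int.ofNat (nat_lit 8589)), [(Int.ofNat (nat_lit 676)), (Int.ofNat (nat_lit 802))], [(Int.ofNat (nat_lit 824)), (Int.ofNat (nat_lit 1021)), (Int.ofNat (nat_lit 1310)), (Int.ofNat (nat_lit 1694)), (Int.ofNat (nat_lit 1936))]⟩,
    ⟨(nat_lit 2), (nat_lit 192), (nat_lit 96), (Int.ofNat (nat_lit 13)), (Int.ofNat (nat_lit 10572)), [(Int.ofNat (nat_lit 849)), (Int.ofNat (nat_lit 1713))], [(Int.ofNat (nat_lit 1399)), (Int.ofNat (nat_lit 1716)), (Int.ofNat (nat_lit 2181)), (Int.ofNat (nat_lit 2796)), (Int.ofNat (nat_lit 3184))]⟩]⟩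
def xQ41 : Box := ⟨(nat_lit 149), (nat_lit 150), (nat_lit 148), (nat_lit 150), (nat_lit 10), (nat_lit 12), (nat_lit 12), (nat_lit 51), (nat_lit 4035), (nat_lit 5486), [(nat_lit 260), (nat_lit 760)], [(nat_lit 0), (nat_lit 300), (nat_lit 500), (nat_lit 700), (nat_lit 807)],
  [⟨(nat_lit 1), (nat_lit 387), (nat_lit 166), (Int.ofNat (nat_lit 47)), (Int.ofNat (nat_lit 16303)), [(Int.ofNat (nat_lit 981)), (Int.negSucc (nat_lit 1978))], [(Int.ofNat (nat_lit 1983)), (Int.ofNat (nat_lit 1983)), (Int.ofNat (nat_lit 38)), (Int.ofNat (nat_lit 614)), (Int.ofNat (nat_lit 1399))]⟩,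
    ⟨(nat_lit 0), (nat_lit 0), (nat_lit 174), (Int.ofNat (nat_lit 0)), (Int.ofNat (nat_lit 5486)), [(Int.ofNat (nat_lit 206)), (Int.negSucc (nat_lit 1869))], [(Int.ofNat (nat_lit 5)), (Int.ofNat (nat_lit 6)), (Int.ofNat (nat_lit 8)), (Int.ofNat (nat_lit 10)), (Int.ofNat (nat_lit 12))]⟩,
    ⟨(nat_lit 1), (nat_lit 222), (nat_lit 165), (Int.ofNat (nat_lit 47)), (Int.ofNat (nat_lit 11732)), [(Int.ofNat (nat_lit 531)), (Int.negSucc (nat_lit 1881))], [(Int.ofNat (nat_lit 1139)), (Int.ofNat (nat_lit 1139)), (Int.ofNat (nat_lit 25)), (Int.ofNat (nat_lit 336)), (Int.ofNat (nat_lit 790))]⟩,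
    ⟨(nat_lit 1), (nat_lit 347), (nat_lit 170), (Int.ofNat (nat_lit 46)), (Int.ofNat (nat_lit 15183)), [(Int.ofNat (nat_lit 922)), (Int.negSucc (nat_lit 2678))], [(Int.ofNat (nat_lit 1778)), (Int.ofNat (nat_lit 1778)), (Int.ofNat (nat_lit 34)), (Int.ofNat (nat_lit 532)), (Int.ofNat (nat_lit 1237))]⟩,
    ⟨(nat_lit 2), (nat_lit 121), (nat_lit 61), (Int.ofNat (nat_lit 40)), (Int.ofNat (nat_lit 8904)), [(Int.ofNat (nat_lit 582)), (Int.ofNat (nat_lit 1045))], [(Int.ofNat (nat_lit 792)), (Int.ofNat (nat_lit 1008)), (Int.ofNat (nat_lit 1319)), (Int.ofNat (nat_lit 1726)), (Int.ofNat (nat_lit 1974))]⟩,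
    ⟨(nat_lit 2), (nat_lit 277), (nat_lit 138), (Int.ofNat (nat_lit 39)), (Int.ofNat (nat_lit 13213)), [(Int.ofNat (nat_lit 1433)), (Int.ofNat (nat_lit 1725))], [(Int.ofNat (nat_lit 1906)), (Int.ofNat (nat_lit 2365)), (Int.ofNat (nat_lit 3042)), (Int.ofNat (nat_lit 3938)), (Int.ofNat (nat_lit 4505))]⟩]⟩
def xQ42 : Box := ⟨(nat_lit 150), (nat_lit 151), (nat_lit 150), (nat_lit 152), (nat_lit 10), (nat_lit 12), (nat_lit 12), (nat_lit 54), (nat_lit 3985), (nat_lit 5599), [(nat_lit 250), (nat_lit 775)], [(nat_lit 0), (nat_lit 300), (nat_lit 550), (nat_lit 797)],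
  [⟨(nat_lit 1), (nat_lit 359), (nat_lit 156), (Int.ofNat (nat_lit 42)), (Int.ofNat (nat_lit 15693)), [(Int.ofNat (nat_lit 875)), (Int.negSucc (nat_lit 1768))], [(Int.ofNat (nat_lit 1814)), (Int.ofNat (nat_lit 1814)), (Int.negSucc (nat_lit 117)), (Int.ofNat (nat_lit 1249))]⟩,
    ⟨(nat_lit 0), (nat_lit 0), (nat_lit 174), (Int.ofNat (nat_lit 0)), (Int.ofNat (nat_lit 5599)), [(Int.ofNat (nat_lit 206)), (Int.negSucc (nat_lit 1882))], [(Int.ofNat (nat_lit 5)), (Int.ofNat (nat_lit 6)), (Int.ofNat (nat_lit 9)), (Int.ofNat (nat_lit 11))]⟩,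
    ⟨(nat_lit 1), (nat_lit 274), (nat_lit 169), (Int.ofNat (nat_lit 55)), (Int.ofNat (nat_lit 13388)), [(Int.ofNat (nat_lit 650)), (Int.negSucc (nat_lit 2103))], [(Int.ofNat (nat_lit 1384)), (Int.ofNat (nat_lit 540)), (Int.negSucc (nat_lit 87)), (Int.ofNat (nat_lit 857))]⟩,
    ⟨(nat_lit 1), (nat_lit 349), (nat_lit 162), (Int.ofNat (nat_lit 65)), (Int.ofNat (nat_lit 15529)), [(Int.ofNat (nat_lit 947)), (Int.negSucc (nat_lit 2718))], [(Int.ofNat (nat_lit 1762)), (Int.ofNat (nat_lit 686)), (Int.negSucc (nat_lit 113)), (Int.ofNat (nat_lit 1091))]⟩,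
    ⟨(nat_lit 2), (nat_lit 121), (nat_lit 61), (Int.ofNat (nat_lit 40)), (Int.ofNat (nat_lit 9047)), [(Int.ofNat (nat_lit 562)), (Int.ofNat (nat_lit 1064))], [(Int.ofNat (nat_lit 788)), (Int.ofNat (nat_lit 1005)), (Int.ofNat (nat_lit 1413)), (Int.ofNat (nat_lit 1947))]⟩,
    ⟨(nat_lit 2), (nat_lit 277), (nat_lit 138), (Int.ofNat (nat_lit 39)), (Int.ofNat (nat_lit 13391)), [(Int.ofNat (nat_lit 1386)), (Int.ofNat (nat_lit 1743))], [(Int.ofNat (nat_lit 1896)), (Int.ofNat (nat_lit 2359)), (Int.ofNat (nat_lit 3248)), (Int.ofNat (nat_lit 4457))]⟩]⟩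
def xQ43 : Box := ⟨(nat_lit 151), (nat_lit 152), (nat_lit 150), (nat_lit 152), (nat_lit 10), (nat_lit 12), (nat_lit 12), (nat_lit 56), (nat_lit 3985), (nat_lit 5710), [(nat_lit 250), (nat_lit 775)], [(nat_lit 0), (nat_lit 300), (nat_lit 550), (nat_lit 797)],
  [⟨(nat_lit 1), (nat_lit 364), (nat_lit 150), (Int.ofNat (nat_lit 42)), (Int.ofNat (nat_lit 16047)), [(Int.ofNat (nat_lit 921)), (Int.negSucc (nat_lit 2198))], [(Int.ofNat (nat_lit 1810)), (Int.ofNat (nat_lit 1810)), (Int.negSucc (nat_lit 112)), (Int.ofNat (nat_lit 1278))]⟩,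
    ⟨(nat_lit 0), (nat_lit 0), (nat_lit 174), (Int.ofNat (nat_lit 0)), (Int.ofNat (nat_lit 5710)), [(Int.ofNat (nat_lit 206)), (Int.negSucc (nat_lit 2000))], [(Int.ofNat (nat_lit 5)), (Int.ofNat (nat_lit 6)), (Int.ofNat (nat_lit 9)), (Int.ofNat (nat_lit 11))]⟩,
    ⟨(nat_lit 1), (nat_lit 274), (nat_lit 169), (Int.ofNat (nat_lit 55)), (Int.ofNat (nat_lit 13695)), [(Int.ofNat (nat_lit 653)), (Int.negSucc (nat_lit 2262))], [(Int.ofNat (nat_lit 1363)), (Int.ofNat (nat_lit 1363)), (Int.negSucc (nat_lit 82)), (Int.ofNat (nat_lit 859))]⟩,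
    ⟨(nat_lit 1), (nat_lit 355), (nat_lit 155), (Int.ofNat (nat_lit 67)), (Int.ofNat (nat_lit 15933)), [(Int.ofNat (nat_lit 919)), (Int.negSucc (nat_lit 2691))], [(Int.ofNat (nat_lit 1765)), (Int.ofNat (nat_lit 1765)), (Int.negSucc (nat_lit 109)), (Int.ofNat (nat_lit 1112))]⟩,
    ⟨(nat_lit 2), (nat_lit 121), (nat_lit 61), (Int.ofNat (nat_lit 40)), (Int.ofNat (nat_lit 9188)), [(Int.ofNat (nat_lit 562)), (Int.ofNat (nat_lit 1027))], [(Int.ofNat (nat_lit 784)), (Int.ofNat (nat_lit 1003)), (Int.ofNat (nat_lit 1414)), (Int.ofNat (nat_lit 1951))]⟩,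
    ⟨(nat_lit 2), (nat_lit 277), (nat_lit 138), (Int.ofNat (nat_lit 39)), (Int.ofNat (nat_lit 13568)), [(Int.ofNat (nat_lit 1386)), (Int.ofNat (nat_lit 1668))], [(Int.ofNat (nat_lit 1887)), (Int.ofNat (nat_lit 2353)), (Int.ofNat (nat_lit 3251)), (Int.ofNat (nat_lit 4468))]⟩]⟩
def xQ44 : Box := ⟨(nat_lit 152), (nat_lit 153), (nat_lit 152), (nat_lit 154), (nat_lit 10), (nat_lit 12), (nat_lit 12), (nat_lit 57), (nat_lit 3940), (nat_lit 5819), [(nat_lit 240), (nat_lit 783)], [(nat_lit 0), (nat_lit 300), (nat_lit 550), (nat_lit 788)],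
  [⟨(nat_lit 1), (nat_lit 348), (nat_lit 146), (Int.ofNat (nat_lit 39)), (Int.ofNat (nat_lit 15762)), [(Int.ofNat (nat_lit 841)), (Int.negSucc (nat_lit 2333))], [(Int.ofNat (nat_lit 1706)), (Int.ofNat (nat_lit 1706)), (Int.negSucc (nat_lit 101)), (Int.ofNat (nat_lit 1189))]⟩,
    ⟨(nat_lit 0), (nat_lit 0), (nat_lit 186), (Int.ofNat (nat_lit 0)), (Int.ofNat (nat_lit 5819)), [(Int.ofNat (nat_lit 62)), (Int.negSucc (nat_lit 1159))], [(Int.ofNat (nat_lit 5)), (Int.ofNat (nat_lit 6)), (Int.ofNat (nat_lit 9)), (Int.ofNat (nat_lit 11))]⟩,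
    ⟨(nat_lit 1), (nat_lit 283), (nat_lit 153), (Int.ofNat (nat_lit 52)), (Int.ofNat (nat_lit 13979)), [(Int.ofNat (nat_lit 735)), (Int.negSucc (nat_lit 2275))], [(Int.ofNat (nat_lit 1385)), (Int.ofNat (nat_lit 1385)), (Int.negSucc (nat_lit 80)), (Int.ofNat (nat_lit 865))]⟩,
    ⟨(nat_lit 1), (nat_lit 390), (nat_lit 165), (Int.ofNat (nat_lit 93)), (Int.ofNat (nat_lit 17811)), [(Int.ofNat (nat_lit 1015)), (Int.negSucc (nat_lit 2929))], [(Int.ofNat (nat_lit 1908)), (Int.ofNat (nat_lit 1908)), (Int.negSucc (nat_lit 114)), (Int.ofNat (nat_lit 1171))]⟩,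
    ⟨(nat_lit 2), (nat_lit 121), (nat_lit 61), (Int.ofNat (nat_lit 40)), (Int.ofNat (nat_lit 9329)), [(Int.ofNat (nat_lit 541)), (Int.ofNat (nat_lit 1044))], [(Int.ofNat (nat_lit 779)), (Int.ofNat (nat_lit 1001)), (Int.ofNat (nat_lit 1415)), (Int.ofNat (nat_lit 1936))]⟩,
    ⟨(nat_lit 2), (nat_lit 277), (nat_lit 138), (Int.ofNat (nat_lit 39)), (Int.ofNat (nat_lit 13744)), [(Int.ofNat (nat_lit 1339)), (Int.ofNat (nat_lit 1685))], [(Int.ofNat (nat_lit 1875)), (Int.ofNat (nat_lit 2348)), (Int.ofNat (nat_lit 3253)), (Int.ofNat (nat_lit 4434))]⟩]⟩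
def xQ45 : Box := ⟨(nat_lit 153), (nat_lit 154), (nat_lit 152), (nat_lit 154), (nat_lit 10), (nat_lit 12), (nat_lit 12), (nat_lit 60), (nat_lit 3940), (nat_lit 5926), [(nat_lit 240), (nat_lit 783)], [(nat_lit 0), (nat_lit 300), (nat_lit 550), (nat_lit 788)],
  [⟨(nat_lit 1), (nat_lit 321), (nat_lit 138), (Int.ofNat (nat_lit 36)), (Int.ofNat (nat_lit 15179)), [(Int.ofNat (nat_lit 771)), (Int.negSucc (nat_lit 1672))], [(Int.ofNat (nat_lit 1546)), (Int.ofNat (nat_lit 1546)), (Int.negSucc (nat_lit 87)), (Int.ofNat (nat_lit 1105))]⟩,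
    ⟨(nat_lit 0), (nat_lit 0), (nat_lit 186), (Int.ofNat (nat_lit 0)), (Int.ofNat (nat_lit 5926)), [(Int.ofNat (nat_lit 62)), (Int.negSucc (nat_lit 1301))], [(Int.ofNat (nat_lit 5)), (Int.ofNat (nat_lit 6)), (Int.ofNat (nat_lit 9)), (Int.ofNat (nat_lit 11))]⟩,
    ⟨(nat_lit 1), (nat_lit 263), (nat_lit 148), (Int.ofNat (nat_lit 45)), (Int.ofNat (nat_lit 13548)), [(Int.ofNat (nat_lit 684)), (Int.negSucc (nat_lit 2240))], [(Int.ofNat (nat_lit 1267)), (Int.ofNat (nat_lit 1267)), (Int.negSucc (nat_lit 70)), (Int.ofNat (nat_lit 826))]⟩,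
    ⟨(nat_lit 1), (nat_lit 352), (nat_lit 136), (Int.ofNat (nat_lit 80)), (Int.ofNat (nat_lit 16272)), [(Int.ofNat (nat_lit 953)), (Int.negSucc (nat_lit 2709))], [(Int.ofNat (nat_lit 1695)), (Int.ofNat (nat_lit 1695)), (Int.negSucc (nat_lit 96)), (Int.ofNat (nat_lit 1059))]⟩,
    ⟨(nat_lit 2), (nat_lit 121), (nat_lit 61), (Int.ofNat (nat_lit 40)), (Int.ofNat (nat_lit 9468)), [(Int.ofNat (nat_lit 541)), (Int.ofNat (nat_lit 1006))], [(Int.ofNat (nat_lit 775)), (Int.ofNat (nat_lit 998)), (Int.ofNat (nat_lit 1417)), (Int.ofNat (nat_lit 1940))]⟩,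
    ⟨(nat_lit 2), (nat_lit 277), (nat_lit 138), (Int.ofNat (nat_lit 39)), (Int.ofNat (nat_lit 13918)), [(Int.ofNat (nat_lit 1338)), (Int.ofNat (nat_lit 1606))], [(Int.ofNat (nat_lit 1865)), (Int.ofNat (nat_lit 2342)), (Int.ofNat (nat_lit 3256)), (Int.ofNat (nat_lit 4443))]⟩]⟩
def xQ46 : Box := ⟨(nat_lit 154), (nat_lit 155), (nat_lit 154), (nat_lit 156), (nat_lit 10), (nat_lit 12), (nat_lit 12), (nat_lit 60), (nat_lit 3890), (nat_lit 6033), [(nat_lit 230), (nat_lit 778)], [(nat_lit 0), (nat_lit 300), (nat_lit 550), (nat_lit 778)],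
  [⟨(nat_lit 1), (nat_lit 320), (nat_lit 134), (Int.ofNat (nat_lit 34)), (Int.ofNat (nat_lit 15317)), [(Int.ofNat (nat_lit 752)), (Int.negSucc (nat_lit 1409))], [(Int.ofNat (nat_lit 1521)), (Int.ofNat (nat_lit 1521)), (Int.negSucc (nat_lit 81)), (Int.ofNat (nat_lit 1068))]⟩,
    ⟨(nat_lit 0), (nat_lit 0), (nat_lit 186), (Int.ofNat (nat_lit 0)), (Int.ofNat (nat_lit 6033)), [(Int.ofNat (nat_lit 61)), (Int.negSucc (nat_lit 1188))], [(Int.ofNat (nat_lit 5)), (Int.ofNat (nat_lit 6)), (Int.ofNat (nat_lit 9)), (Int.ofNat (nat_lit 11))]⟩,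
    ⟨(nat_lit 1), (nat_lit 269), (nat_lit 143), (Int.ofNat (nat_lit 40)), (Int.ofNat (nat_lit 13866)), [(Int.ofNat (nat_lit 708)), (Int.negSucc (nat_lit 2284))], [(Int.ofNat (nat_lit 1275)), (Int.ofNat (nat_lit 1275)), (Int.negSucc (nat_lit 67)), (Int.ofNat (nat_lit 841))]⟩,
    ⟨(nat_lit 1), (nat_lit 358), (nat_lit 129), (Int.ofNat (nat_lit 68)), (Int.ofNat (nat_lit 16647)), [(Int.ofNat (nat_lit 928)), (Int.negSucc (nat_lit 2494))], [(Int.ofNat (nat_lit 1695)), (Int.ofNat (nat_lit 1695)), (Int.negSucc (nat_lit 92)), (Int.ofNat (nat_lit 1040))]⟩,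
    ⟨(nat_lit 2), (nat_lit 121), (nat_lit 61), (Int.ofNat (nat_lit 40)), (Int.ofNat (nat_lit 9606)), [(Int.ofNat (nat_lit 521)), (Int.ofNat (nat_lit 1016))], [(Int.ofNat (nat_lit 771)), (Int.ofNat (nat_lit 996)), (Int.ofNat (nat_lit 1418)), (Int.ofNat (nat_lit 1922))]⟩,
    ⟨(nat_lit 2), (nat_lit 277), (nat_lit 138), (Int.ofNat (nat_lit 39)), (Int.ofNat (nat_lit 14091)), [(Int.ofNat (nat_lit 1292)), (Int.ofNat (nat_lit 1617))], [(Int.ofNat (nat_lit 1856)), (Int.ofNat (nat_lit 2336)), (Int.ofNat (nat_lit 3258)), (Int.ofNat (nat_lit 4403))]⟩]⟩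
def xQ47 : Box := ⟨(nat_lit 155), (nat_lit 156), (nat_lit 154), (nat_lit 156), (nat_lit 10), (nat_lit 12), (nat_lit 12), (nat_lit 60), (nat_lit 3890), (nat_lit 6138), [(nat_lit 230), (nat_lit 778)], [(nat_lit 0), (nat_lit 300), (nat_lit 550), (nat_lit 778)],
  [⟨(nat_lit 1), (nat_lit 319), (nat_lit 133), (Int.ofNat (nat_lit 31)), (Int.ofNat (nat_lit 15440)), [(Int.ofNat (nat_lit 756)), (Int.negSucc (nat_lit 1371))], [(Int.ofNat (nat_lit 1502)), (Int.ofNat (nat_lit 1502)), (Int.negSucc (nat_lit 75)), (Int.ofNat (nat_lit 1087))]⟩,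
    ⟨(nat_lit 0), (nat_lit 0), (nat_lit 186), (Int.ofNat (nat_lit 0)), (Int.ofNat (nat_lit 6138)), [(Int.ofNat (nat_lit 61)), (Int.negSucc (nat_lit 1334))], [(Int.ofNat (nat_lit 5)), (Int.ofNat (nat_lit 6)), (Int.ofNat (nat_lit 9)), (Int.ofNat (nat_lit 11))]⟩,
    ⟨(nat_lit 1), (nat_lit 269), (nat_lit 143), (Int.ofNat (nat_lit 40)), (Int.ofNat (nat_lit 14039)), [(Int.ofNat (nat_lit 712)), (Int.negSucc (nat_lit 2424))], [(Int.ofNat (nat_lit 1253)), (Int.ofNat (nat_lit 1253)), (Int.negSucc (nat_lit 62)), (Int.ofNat (nat_lit 846))]⟩,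
    ⟨(nat_lit 1), (nat_lit 359), (nat_lit 131), (Int.ofNat (nat_lit 69)), (Int.ofNat (nat_lit 16945)), [(Int.ofNat (nat_lit 929)), (Int.negSucc (nat_lit 2602))], [(Int.ofNat (nat_lit 1672)), (Int.ofNat (nat_lit 1672)), (Int.negSucc (nat_lit 86)), (Int.ofNat (nat_lit 1043))]⟩,
    ⟨(nat_lit 2), (nat_lit 121), (nat_lit 61), (Int.ofNat (nat_lit 40)), (Int.ofNat (nat_lit 9741)), [(Int.ofNat (nat_lit 520)), (Int.ofNat (nat_lit 976))], [(Int.ofNat (nat_lit 767)), (Int.ofNat (nat_lit 993)), (Int.ofNat (nat_lit 1419)), (Int.ofNat (nat_lit 1926))]⟩,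
    ⟨(nat_lit 2), (nat_lit 277), (nat_lit 138), (Int.ofNat (nat_lit 39)), (Int.ofNat (nat_lit 14262)), [(Int.ofNat (nat_lit 1291)), (Int.ofNat (nat_lit 1536))], [(Int.ofNat (nat_lit 1846)), (Int.ofNat (nat_lit 2331)), (Int.ofNat (nat_lit 3260)), (Int.ofNat (nat_lit 4412))]⟩]⟩
def xQ48 : Box := ⟨(nat_lit 156), (nat_lit 157), (nat_lit 156), (nat_lit 158), (nat_lit 10), (nat_lit 12), (nat_lit 12), (nat_lit 60), (nat_lit 3840), (nat_lit 6242), [(nat_lit 220), (nat_lit 768)], [(nat_lit 0), (nat_lit 300), (nat_lit 550), (nat_lit 768)],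
  [⟨(nat_lit 1), (nat_lit 327), (nat_lit 131), (Int.ofNat (nat_lit 31)), (Int.ofNat (nat_lit 15854)), [(Int.ofNat (nat_lit 764)), (Int.negSucc (nat_lit 2082))], [(Int.ofNat (nat_lit 1514)), (Int.ofNat (nat_lit 1514)), (Int.negSucc (nat_lit 72)), (Int.ofNat (nat_lit 1072))]⟩,
    ⟨(nat_lit 0), (nat_lit 0), (nat_lit 186), (Int.ofNat (nat_lit 0)), (Int.ofNat (nat_lit 6242)), [(Int.ofNat (nat_lit 61)), (Int.negSucc (nat_lit 1206))], [(Int.ofNat (nat_lit 5)), (Int.ofNat (nat_lit 6)), (Int.ofNat (nat_lit 9)), (Int.ofNat (nat_lit 11))]⟩,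
    ⟨(nat_lit 1), (nat_lit 296), (nat_lit 137), (Int.ofNat (nat_lit 39)), (Int.ofNat (nat_lit 14988)), [(Int.ofNat (nat_lit 730)), (Int.negSucc (nat_lit 2283))], [(Int.ofNat (nat_lit 1355)), (Int.ofNat (nat_lit 1355)), (Int.negSucc (nat_lit 64)), (Int.ofNat (nat_lit 915))]⟩,
    ⟨(nat_lit 1), (nat_lit 360), (nat_lit 127), (Int.ofNat (nat_lit 74)), (Int.ofNat (nat_lit 17086)), [(Int.ofNat (nat_lit 917)), (Int.negSucc (nat_lit 2467))], [(Int.ofNat (nat_lit 1647)), (Int.ofNat (nat_lit 1647)), (Int.negSucc (nat_lit 80)), (Int.ofNat (nat_lit 981))]⟩,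
    ⟨(nat_lit 2), (nat_lit 121), (nat_lit 61), (Int.ofNat (nat_lit 40)), (Int.ofNat (nat_lit 9876)), [(Int.ofNat (nat_lit 500)), (Int.ofNat (nat_lit 985))], [(Int.ofNat (nat_lit 763)), (Int.ofNat (nat_lit 991)), (Int.ofNat (nat_lit 1420)), (Int.ofNat (nat_lit 1907))]⟩,
    ⟨(nat_lit 2), (nat_lit 277), (nat_lit 138), (Int.ofNat (nat_lit 39)), (Int.ofNat (nat_lit 14432)), [(Int.ofNat (nat_lit 1245)), (Int.ofNat (nat_lit 1545))], [(Int.ofNat (nat_lit 1837)), (Int.ofNat (nat_lit 2325)), (Int.ofNat (nat_lit 3263)), (Int.ofNat (nat_lit 4371))]⟩]⟩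
def xQ49 : Box := ⟨(nat_lit 157), (nat_lit 158), (nat_lit 156), (nat_lit 158), (nat_lit 10), (nat_lit 12), (nat_lit 12), (nat_lit 60), (nat_lit 3840), (nat_lit 6344), [(nat_lit 220), (nat_lit 768)], [(nat_lit 0), (nat_lit 300), (nat_lit 550), (nat_lit 768)],
  [⟨(nat_lit 1), (nat_lit 325), (nat_lit 130), (Int.ofNat (nat_lit 27)), (Int.ofNat (nat_lit 15967)), [(Int.ofNat (nat_lit 765)), (Int.negSucc (nat_lit 2269))], [(Int.ofNat (nat_lit 1494)), (Int.ofNat (nat_lit 1494)), (Int.negSucc (nat_lit 65)), (Int.ofNat (nat_lit 1092))]⟩,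
    ⟨(nat_lit 0), (nat_lit 0), (nat_lit 186), (Int.ofNat (nat_lit 0)), (Int.ofNat (nat_lit 6344)), [(Int.ofNat (nat_lit 61)), (Int.negSucc (nat_lit 1357))], [(Int.ofNat (nat_lit 5)), (Int.ofNat (nat_lit 6)), (Int.ofNat (nat_lit 9)), (Int.ofNat (nat_lit 11))]⟩,
    ⟨(nat_lit 1), (nat_lit 296), (nat_lit 137), (Int.ofNat (nat_lit 39)), (Int.ofNat (nat_lit 15219)), [(Int.ofNat (nat_lit 734)), (Int.negSucc (nat_lit 2424))], [(Int.ofNat (nat_lit 1331)), (Int.ofNat (nat_lit 1331)), (Int.negSucc (nat_lit 59)), (Int.ofNat (nat_lit 920))]⟩,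
    ⟨(nat_lit 1), (nat_lit 387), (nat_lit 134), (Int.ofNat (nat_lit 89)), (Int.ofNat (nat_lit 18574)), [(Int.ofNat (nat_lit 1006)), (Int.negSucc (nat_lit 2639))], [(Int.ofNat (nat_lit 1740)), (Int.ofNat (nat_lit 1740)), (Int.negSucc (nat_lit 79)), (Int.ofNat (nat_lit 1051))]⟩,
    ⟨(nat_lit 2), (nat_lit 121), (nat_lit 61), (Int.ofNat (nat_lit 40)), (Int.ofNat (nat_lit 10009)), [(Int.ofNat (nat_lit 500)), (Int.ofNat (nat_lit 943))], [(Int.ofNat (nat_lit 759)), (Int.ofNat (nat_lit 989)), (Int.ofNat (nat_lit 1421)), (Int.ofNat (nat_lit 1911))]⟩,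
    ⟨(nat_lit 2), (nat_lit 277), (nat_lit 138), (Int.ofNat (nat_lit 39)), (Int.ofNat (nat_lit 14601)), [(Int.ofNat (nat_lit 1244)), (Int.ofNat (nat_lit 1460))], [(Int.ofNat (nat_lit 1827)), (Int.ofNat (nat_lit 2319)), (Int.ofNat (nat_lit 3265)), (Int.ofNat (nat_lit 4380))]⟩]⟩
def xQ50 : Box := ⟨(nat_lit 158), (nat_lit 159), (nat_lit 158), (nat_lit 160), (nat_lit 10), (nat_lit 12), (nat_lit 12), (nat_lit 60), (nat_lit 3790), (nat_lit 6445), [(nat_lit 210), (nat_lit 758)], [(nat_lit 0), (nat_lit 300), (nat_lit 550), (nat_lit 758)],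
  [⟨(nat_lit 1), (nat_lit 314), (nat_lit 129), (Int.ofNat (nat_lit 22)), (Int.ofNat (nat_lit 15782)), [(Int.ofNat (nat_lit 698)), (Int.negSucc (nat_lit 2040))], [(Int.ofNat (nat_lit 1435)), (Int.ofNat (nat_lit 1435)), (Int.negSucc (nat_lit 57)), (Int.ofNat (nat_lit 1031))]⟩,
    ⟨(nat_lit 0), (nat_lit 0), (nat_lit 186), (Int.ofNat (nat_lit 0)), (Int.ofNat (nat_lit 6490)), [(Int.ofNat (nat_lit 61)), (Int.negSucc (nat_lit 1227))], [(Int.ofNat (nat_lit 5)), (Int.ofNat (nat_lit 6)), (Int.ofNat (nat_lit 9)), (Int.ofNat (nat_lit 11))]⟩,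
    ⟨(nat_lit 1), (nat_lit 191), (nat_lit 138), (Int.ofNat (nat_lit 10)), (Int.ofNat (nat_lit 12070)), [(Int.ofNat (nat_lit 372)), (Int.negSucc (nat_lit 1419))], [(Int.ofNat (nat_lit 891)), (Int.ofNat (nat_lit 891)), (Int.negSucc (nat_lit 31)), (Int.ofNat (nat_lit 649))]⟩,
    ⟨(nat_lit 1), (nat_lit 364), (nat_lit 126), (Int.ofNat (nat_lit 76)), (Int.ofNat (nat_lit 17715)), [(Int.ofNat (nat_lit 918)), (Int.negSucc (nat_lit 2472))], [(Int.ofNat (nat_lit 1607)), (Int.ofNat (nat_lit 1607)), (Int.negSucc (nat_lit 67)), (Int.ofNat (nat_lit 936))]⟩,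
    ⟨(nat_lit 2), (nat_lit 121), (nat_lit 61), (Int.ofNat (nat_lit 40)), (Int.ofNat (nat_lit 10141)), [(Int.ofNat (nat_lit 480)), (Int.ofNat (nat_lit 952))], [(Int.ofNat (nat_lit 755)), (Int.ofNat (nat_lit 986)), (Int.ofNat (nat_lit 1422)), (Int.ofNat (nat_lit 1892))]⟩,
    ⟨(nat_lit 2), (nat_lit 277), (nat_lit 138), (Int.ofNat (nat_lit 39)), (Int.ofNat (nat_lit 14817)), [(Int.ofNat (nat_lit 1198)), (Int.ofNat (nat_lit 1469))], [(Int.ofNat (nat_lit 1818)), (Int.ofNat (nat_lit 2314)), (Int.ofNat (nat_lit 3268)), (Int.ofNat (nat_lit 4337))]⟩]⟩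
def xQ51 : Box := ⟨(nat_lit 159), (nat_lit 160), (nat_lit 158), (nat_lit 160), (nat_lit 10), (nat_lit 12), (nat_lit 12), (nat_lit 60), (nat_lit 3790), (nat_lit 6545), [(nat_lit 210), (nat_lit 758)], [(nat_lit 0), (nat_lit 300), (nat_lit 550), (nat_lit 758)],
  [⟨(nat_lit 1), (nat_lit 313), (nat_lit 127), (Int.ofNat (nat_lit 25)), (Int.ofNat (nat_lit 15941)), [(Int.ofNat (nat_lit 705)), (Int.negSucc (nat_lit 2204))], [(Int.ofNat (nat_lit 1386)), (Int.ofNat (nat_lit 1386)), (Int.negSucc (nat_lit 51)), (Int.ofNat (nat_lit 1018))]⟩,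
    ⟨(nat_lit 0), (nat_lit 0), (nat_lit 186), (Int.ofNat (nat_lit 0)), (Int.ofNat (nat_lit 6661)), [(Int.ofNat (nat_lit 61)), (Int.negSucc (nat_lit 1382))], [(Int.ofNat (nat_lit 5)), (Int.ofNat (nat_lit 6)), (Int.ofNat (nat_lit 9)), (Int.ofNat (nat_lit 11))]⟩,
    ⟨(nat_lit 1), (nat_lit 191), (nat_lit 138), (Int.ofNat (nat_lit 10)), (Int.ofNat (nat_lit 12216)), [(Int.ofNat (nat_lit 375)), (Int.negSucc (nat_lit 1588))], [(Int.ofNat (nat_lit 874)), (Int.ofNat (nat_lit 874)), (Int.negSucc (nat_lit 27)), (Int.ofNat (nat_lit 653))]⟩,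
    ⟨(nat_lit 1), (nat_lit 365), (nat_lit 128), (Int.ofNat (nat_lit 76)), (Int.ofNat (nat_lit 18060)), [(Int.ofNat (nat_lit 912)), (Int.negSucc (nat_lit 2582))], [(Int.ofNat (nat_lit 1581)), (Int.ofNat (nat_lit 1581)), (Int.negSucc (nat_lit 61)), (Int.ofNat (nat_lit 937))]⟩,
    ⟨(nat_lit 2), (nat_lit 121), (nat_lit 61), (Int.ofNat (nat_lit 40)), (Int.ofNat (nat_lit 10271)), [(Int.ofNat (nat_lit 479)), (Int.ofNat (nat_lit 909))], [(Int.ofNat (nat_lit 751)), (Int.ofNat (nat_lit 984)), (Int.ofNat (nat_lit 1423)), (Int.ofNat (nat_lit 1895))]⟩,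
    ⟨(nat_lit 2), (nat_lit 277), (nat_lit 138), (Int.ofNat (nat_lit 39)), (Int.ofNat (nat_lit 15049)), [(Int.ofNat (nat_lit 1197)), (Int.ofNat (nat_lit 1382))], [(Int.ofNat (nat_lit 1808)), (Int.ofNat (nat_lit 2308)), (Int.ofNat (nat_lit 3271)), (Int.ofNat (nat_lit 4346))]⟩]⟩
def xQ52 : Box := ⟨(nat_lit 160), (nat_lit 161), (nat_lit 160), (nat_lit 164), (nat_lit 10), (nat_lit 12), (nat_lit 12), (nat_lit 60), (nat_lit 3735), (nat_lit 6643), [(nat_lit 200), (nat_lit 747)], [(nat_lit 0), (nat_lit 300), (nat_lit 550), (nat_lit 747)],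
  [⟨(nat_lit 1), (nat_lit 305), (nat_lit 127), (Int.ofNat (nat_lit 20)), (Int.ofNat (nat_lit 15855)), [(Int.ofNat (nat_lit 649)), (Int.negSucc (nat_lit 1762))], [(Int.ofNat (nat_lit 1344)), (Int.ofNat (nat_lit 1344)), (Int.negSucc (nat_lit 43)), (Int.ofNat (nat_lit 964))]⟩,
    ⟨(nat_lit 0), (nat_lit 0), (nat_lit 116), (Int.ofNat (nat_lit 9)), (Int.ofNat (nat_lit 6643)), [(Int.ofNat (nat_lit 55)), (Int.negSucc (nat_lit 805))], [(Int.ofNat (nat_lit 4)), (Int.ofNat (nat_lit 6)), (Int.ofNat (nat_lit 8)), (Int.ofNat (nat_lit 10))]⟩,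
    ⟨(nat_lit 1), (nat_lit 345), (nat_lit 122), (Int.ofNat (nat_lit 61)), (Int.ofNat (nat_lit 17339)), [(Int.ofNat (nat_lit 892)), (Int.negSucc (nat_lit 2446))], [(Int.ofNat (nat_lit 1466)), (Int.ofNat (nat_lit 1466)), (Int.negSucc (nat_lit 50)), (Int.ofNat (nat_lit 892))]⟩,
    ⟨(nat_lit 1), (nat_lit 428), (nat_lit 221), (Int.ofNat (nat_lit 47)), (Int.ofNat (nat_lit 23205)), [(Int.ofNat (nat_lit 1295)), (Int.negSucc (nat_lit 4119))], [(Int.ofNat (nat_lit 1818)), (Int.ofNat (nat_lit 1818)), (Int.negSucc (nat_lit 65)), (Int.ofNat (nat_lit 1251))]⟩,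
    ⟨(nat_lit 2), (nat_lit 168), (nat_lit 84), (Int.ofNat (nat_lit 52)), (Int.ofNat (nat_lit 11878)), [(Int.ofNat (nat_lit 784)), (Int.ofNat (nat_lit 890))], [(Int.ofNat (nat_lit 1035)), (Int.ofNat (nat_lit 1361)), (Int.ofNat (nat_lit 1975)), (Int.ofNat (nat_lit 2598))]⟩]⟩
def xQ53 : Box := ⟨(nat_lit 161), (nat_lit 162), (nat_lit 160), (nat_lit 164), (nat_lit 10), (nat_lit 12), (nat_lit 12), (nat_lit 60), (nat_lit 3735), (nat_lit 6740), [(nat_lit 200), (nat_lit 747)], [(nat_lit 0), (nat_lit 300), (nat_lit 550), (nat_lit 747)],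
  [⟨(nat_lit 1), (nat_lit 307), (nat_lit 124), (Int.ofNat (nat_lit 24)), (Int.ofNat (nat_lit 16098)), [(Int.ofNat (nat_lit 668)), (Int.negSucc (nat_lit 1858))], [(Int.ofNat (nat_lit 1305)), (Int.ofNat (nat_lit 1305)), (Int.negSucc (nat_lit 38)), (Int.ofNat (nat_lit 955))]⟩,
    ⟨(nat_lit 0), (nat_lit 0), (nat_lit 143), (Int.ofNat (nat_lit 0)), (Int.ofNat (nat_lit 6740)), [(Int.ofNat (nat_lit 171)), (Int.negSucc (nat_lit 1638))], [(Int.ofNat (nat_lit 5)), (Int.ofNat (nat_lit 6)), (Int.ofNat (nat_lit 9)), (Int.ofNat (nat_lit 11))]⟩,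
    ⟨(nat_lit 1), (nat_lit 219), (nat_lit 142), (Int.ofNat (nat_lit 18)), (Int.ofNat (nat_lit 13458)), [(Int.ofNat (nat_lit 435)), (Int.negSucc (nat_lit 1551))], [(Int.ofNat (nat_lit 927)), (Int.ofNat (nat_lit 927)), (Int.negSucc (nat_lit 24)), (Int.ofNat (nat_lit 680))]⟩,
    ⟨(nat_lit 1), (nat_lit 368), (nat_lit 124), (Int.negSucc (nat_lit 3)), (Int.ofNat (nat_lit 18142)), [(Int.ofNat (nat_lit 921)), (Int.negSucc (nat_lit 2385))], [(Int.ofNat (nat_lit 1727)), (Int.ofNat (nat_lit 1727)), (Int.negSucc (nat_lit 13)), (Int.ofNat (nat_lit 1315))]⟩,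
    ⟨(nat_lit 2), (nat_lit 250), (nat_lit 125), (Int.ofNat (nat_lit 30)), (Int.ofNat (nat_lit 14397)), [(Int.ofNat (nat_lit 883)), (Int.ofNat (nat_lit 1730))], [(Int.ofNat (nat_lit 1641)), (Int.ofNat (nat_lit 2100)), (Int.ofNat (nat_lit 2984)), (Int.ofNat (nat_lit 3913))]⟩]⟩
def xQ54 : Box := ⟨(nat_lit 162), (nat_lit 163), (nat_lit 160), (nat_lit 164), (nat_lit 10), (nat_lit 12), (nat_lit 12), (nat_lit 60), (nat_lit 3735), (nat_lit 6836), [(nat_lit 200), (nat_lit 747)], [(nat_lit 0), (nat_lit 300), (nat_lit 550), (nat_lit 747)],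
  [⟨(nat_lit 1), (nat_lit 309), (nat_lit 122), (Int.ofNat (nat_lit 28)), (Int.ofNat (nat_lit 16353)), [(Int.ofNat (nat_lit 685)), (Int.negSucc (nat_lit 1969))], [(Int.ofNat (nat_lit 1265)), (Int.ofNat (nat_lit 1265)), (Int.negSucc (nat_lit 32)), (Int.ofNat (nat_lit 944))]⟩,
    ⟨(nat_lit 0), (nat_lit 0), (nat_lit 143), (Int.ofNat (nat_lit 0)), (Int.ofNat (nat_lit 6836)), [(Int.ofNat (nat_lit 171)), (Int.negSucc (nat_lit 1761))], [(Int.ofNat (nat_lit 5)), (Int.ofNat (nat_lit 6)), (Int.ofNat (nat_lit 9)), (Int.ofNat (nat_lit 11))]⟩,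
    ⟨(nat_lit 1), (nat_lit 219), (nat_lit 142), (Int.ofNat (nat_lit 18)), (Int.ofNat (nat_lit 13668)), [(Int.ofNat (nat_lit 438)), (Int.negSucc (nat_lit 1730))], [(Int.ofNat (nat_lit 907)), (Int.ofNat (nat_lit 907)), (Int.negSucc (nat_lit 20)), (Int.ofNat (nat_lit 683))]⟩,
    ⟨(nat_lit 1), (nat_lit 365), (nat_lit 128), (Int.negSucc (nat_lit 14)), (Int.ofNat (nat_lit 18355)), [(Int.ofNat (nat_lit 894)), (Int.negSucc (nat_lit 2581))], [(Int.ofNat (nat_lit 1734)), (Int.ofNat (nat_lit 1734)), (Int.ofNat (nat_lit 48)), (Int.ofNat (nat_lit 1368))]⟩,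
    ⟨(nat_lit 2), (nat_lit 250), (nat_lit 125), (Int.ofNat (nat_lit 30)), (Int.ofNat (nat_lit 14553)), [(Int.ofNat (nat_lit 883)), (Int.ofNat (nat_lit 1622))], [(Int.ofNat (nat_lit 1632)), (Int.ofNat (nat_lit 2095)), (Int.ofNat (nat_lit 2986)), (Int.ofNat (nat_lit 3920))]⟩]⟩
def xQ55 : Box := ⟨(nat_lit 163), (nat_lit 164), (nat_lit 160), (nat_lit 164), (nat_lit 10), (nat_lit 12), (nat_lit 12), (nat_lit 60), (nat_lit 3735), (nat_lit 6930), [(nat_lit 200), (nat_lit 747)], [(nat_lit 0), (nat_lit 300), (nat_lit 550), (nat_lit 747)],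
  [⟨(nat_lit 1), (nat_lit 309), (nat_lit 120), (Int.ofNat (nat_lit 25)), (Int.ofNat (nat_lit 16506)), [(Int.ofNat (nat_lit 695)), (Int.negSucc (nat_lit 1740))], [(Int.ofNat (nat_lit 1250)), (Int.ofNat (nat_lit 1250)), (Int.negSucc (nat_lit 26)), (Int.ofNat (nat_lit 964))]⟩,
    ⟨(nat_lit 0), (nat_lit 0), (nat_lit 143), (Int.ofNat (nat_lit 0)), (Int.ofNat (nat_lit 6930)), [(Int.ofNat (nat_lit 171)), (Int.negSucc (nat_lit 1891))], [(Int.ofNat (nat_lit 5)), (Int.ofNat (nat_lit 6)), (Int.ofNat (nat_lit 9)), (Int.ofNat (nat_lit 11))]⟩,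
    ⟨(nat_lit 1), (nat_lit 275), (nat_lit 126), (Int.ofNat (nat_lit 18)), (Int.ofNat (nat_lit 15418)), [(Int.ofNat (nat_lit 570)), (Int.negSucc (nat_lit 2227))], [(Int.ofNat (nat_lit 1134)), (Int.ofNat (nat_lit 1134)), (Int.negSucc (nat_lit 22)), (Int.ofNat (nat_lit 883))]⟩,
    ⟨(nat_lit 1), (nat_lit 373), (nat_lit 132), (Int.negSucc (nat_lit 5)), (Int.ofNat (nat_lit 19039)), [(Int.ofNat (nat_lit 895)), (Int.negSucc (nat_lit 2867))], [(Int.ofNat (nat_lit 1689)), (Int.ofNat (nat_lit 1689)), (Int.ofNat (nat_lit 9)), (Int.ofNat (nat_lit 1360))]⟩,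
    ⟨(nat_lit 2), (nat_lit 250), (nat_lit 125), (Int.ofNat (nat_lit 30)), (Int.ofNat (nat_lit 14707)), [(Int.ofNat (nat_lit 882)), (Int.ofNat (nat_lit 1516))], [(Int.ofNat (nat_lit 1623)), (Int.ofNat (nat_lit 2090)), (Int.ofNat (nat_lit 2988)), (Int.ofNat (nat_lit 3927))]⟩]⟩
def xQ56 : Box := ⟨(nat_lit 164), (nat_lit 165), (nat_lit 164), (nat_lit 168), (nat_lit 10), (nat_lit 12), (nat_lit 12), (nat_lit 60), (nat_lit 3625), (nat_lit 7024), [(nat_lit 180), (nat_lit 725)], [(nat_lit 0), (nat_lit 300), (nat_lit 550), (nat_lit 725)],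
  [⟨(nat_lit 1), (nat_lit 307), (nat_lit 118), (Int.ofNat (nat_lit 25)), (Int.ofNat (nat_lit 16606)), [(Int.ofNat (nat_lit 630)), (Int.negSucc (nat_lit 1569))], [(Int.ofNat (nat_lit 1212)), (Int.ofNat (nat_lit 1212)), (Int.negSucc (nat_lit 19)), (Int.ofNat (nat_lit 850))]⟩,
    ⟨(nat_lit 0), (nat_lit 0), (nat_lit 143), (Int.ofNat (nat_lit 0)), (Int.ofNat (nat_lit 7024)), [(Int.ofNat (nat_lit 171)), (Int.negSucc (nat_lit 1578))], [(Int.ofNat (nat_lit 5)), (Int.ofNat (nat_lit 6)), (Int.ofNat (nat_lit 9)), (Int.ofNat (nat_lit 11))]⟩,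
    ⟨(nat_lit 1), (nat_lit 285), (nat_lit 119), (Int.ofNat (nat_lit 23)), (Int.ofNat (nat_lit 15913)), [(Int.ofNat (nat_lit 560)), (Int.negSucc (nat_lit 1785))], [(Int.ofNat (nat_lit 1126)), (Int.ofNat (nat_lit 1126)), (Int.negSucc (nat_lit 17)), (Int.ofNat (nat_lit 791))]⟩,
    ⟨(nat_lit 1), (nat_lit 357), (nat_lit 113), (Int.ofNat (nat_lit 0)), (Int.ofNat (nat_lit 18154)), [(Int.ofNat (nat_lit 850)), (Int.negSucc (nat_lit 2268))], [(Int.ofNat (nat_lit 1554)), (Int.ofNat (nat_lit 1554)), (Int.negSucc (nat_lit 12)), (Int.ofNat (nat_lit 1137))]⟩,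
    ⟨(nat_lit 2), (nat_lit 250), (nat_lit 125), (Int.ofNat (nat_lit 30)), (Int.ofNat (nat_lit 14861)), [(Int.ofNat (nat_lit 799)), (Int.ofNat (nat_lit 1690))], [(Int.ofNat (nat_lit 1614)), (Int.ofNat (nat_lit 2085)), (Int.ofNat (nat_lit 2991)), (Int.ofNat (nat_lit 3829))]⟩]⟩
def xQ57 : Box := ⟨(nat_lit 165), (nat_lit 166), (nat_lit 164), (nat_lit 168), (nat_lit 10), (nat_lit 12), (nat_lit 12), (nat_lit 60), (nat_lit 3625), (nat_lit 7115), [(nat_lit 180), (nat_lit 725)], [(nat_lit 0), (nat_lit 300), (nat_lit 550), (nat_lit 725)],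
  [⟨(nat_lit 1), (nat_lit 306), (nat_lit 117), (Int.ofNat (nat_lit 22)), (Int.ofNat (nat_lit 16741)), [(Int.ofNat (nat_lit 633)), (Int.negSucc (nat_lit 1641))], [(Int.ofNat (nat_lit 1193)), (Int.ofNat (nat_lit 1193)), (Int.negSucc (nat_lit 13)), (Int.ofNat (nat_lit 865))]⟩,
    ⟨(nat_lit 0), (nat_lit 0), (nat_lit 143), (Int.ofNat (nat_lit 0)), (Int.ofNat (nat_lit 7115)), [(Int.ofNat (nat_lit 171)), (Int.negSucc (nat_lit 1702))], [(Int.ofNat (nat_lit 5)), (Int.ofNat (nat_lit 6)), (Int.ofNat (nat_lit 9)), (Int.ofNat (nat_lit 11))]⟩,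
    ⟨(nat_lit 1), (nat_lit 285), (nat_lit 119), (Int.ofNat (nat_lit 23)), (Int.ofNat (nat_lit 16073)), [(Int.ofNat (nat_lit 563)), (Int.negSucc (nat_lit 1934))], [(Int.ofNat (nat_lit 1099)), (Int.ofNat (nat_lit 1099)), (Int.negSucc (nat_lit 11)), (Int.ofNat (nat_lit 792))]⟩,
    ⟨(nat_lit 1), (nat_lit 359), (nat_lit 116), (Int.negSucc (nat_lit 4)), (Int.ofNat (nat_lit 18527)), [(Int.ofNat (nat_lit 842)), (Int.negSucc (nat_lit 2417))], [(Int.ofNat (nat_lit 1553)), (Int.ofNat (nat_lit 1553)), (Int.ofNat (nat_lit 19)), (Int.ofNat (nat_lit 1176))]⟩,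
    ⟨(nat_lit 2), (nat_lit 250), (nat_lit 125), (Int.ofNat (nat_lit 30)), (Int.ofNat (nat_lit 15013)), [(Int.ofNat (nat_lit 799)), (Int.ofNat (nat_lit 1577))], [(Int.ofNat (nat_lit 1606)), (Int.ofNat (nat_lit 2080)), (Int.ofNat (nat_lit 2994)), (Int.ofNat (nat_lit 3835))]⟩]⟩
def xQ58 : Box := ⟨(nat_lit 166), (nat_lit 167), (nat_lit 164), (nat_lit 168), (nat_lit 10), (nat_lit 12), (nat_lit 12), (nat_lit 60), (nat_lit 3625), (nat_lit 7206), [(nat_lit 180), (nat_lit 725)], [(nat_lit 0), (nat_lit 300), (nat_lit 550), (nat_lit 725)],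
  [⟨(nat_lit 1), (nat_lit 304), (nat_lit 115), (Int.ofNat (nat_lit 21)), (Int.ofNat (nat_lit 16823)), [(Int.ofNat (nat_lit 637)), (Int.negSucc (nat_lit 1730))], [(Int.ofNat (nat_lit 1159)), (Int.ofNat (nat_lit 1159)), (Int.negSucc (nat_lit 6)), (Int.ofNat (nat_lit 865))]⟩,
    ⟨(nat_lit 0), (nat_lit 0), (nat_lit 143), (Int.ofNat (nat_lit 0)), (Int.ofNat (nat_lit 7206)), [(Int.ofNat (nat_lit 171)), (Int.negSucc (nat_lit 1834))], [(Int.ofNat (nat_lit 5)), (Int.ofNat (nat_lit 6)), (Int.ofNat (nat_lit 9)), (Int.ofNat (nat_lit 11))]⟩,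
    ⟨(nat_lit 1), (nat_lit 297), (nat_lit 116), (Int.ofNat (nat_lit 25)), (Int.ofNat (nat_lit 16620)), [(Int.ofNat (nat_lit 612)), (Int.negSucc (nat_lit 2154))], [(Int.ofNat (nat_lit 1111)), (Int.ofNat (nat_lit 1111)), (Int.negSucc (nat_lit 6)), (Int.ofNat (nat_lit 821))]⟩,
    ⟨(nat_lit 1), (nat_lit 370), (nat_lit 120), (Int.negSucc (nat_lit 6)), (Int.ofNat (nat_lit 19276)), [(Int.ofNat (nat_lit 869)), (Int.negSucc (nat_lit 2555))], [(Int.ofNat (nat_lit 1573)), (Int.ofNat (nat_lit 1573)), (Int.ofNat (nat_lit 36)), (Int.ofNat (nat_lit 1228))]⟩,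
    ⟨(nat_lit 2), (nat_lit 250), (nat_lit 125), (Int.ofNat (nat_lit 30)), (Int.ofNat (nat_lit 15170)), [(Int.ofNat (nat_lit 798)), (Int.ofNat (nat_lit 1466))], [(Int.ofNat (nat_lit 1597)), (Int.ofNat (nat_lit 2075)), (Int.ofNat (nat_lit 2996)), (Int.ofNat (nat_lit 3842))]⟩]⟩
def xQ59 : Box := ⟨(nat_lit 167), (nat_lit 168), (nat_lit 164), (nat_lit 168), (nat_lit 10), (nat_lit 12), (nat_lit 12), (nat_lit 60), (nat_lit 3625), (nat_lit 7296), [(nat_lit 180), (nat_lit 725)], [(nat_lit 0), (nat_lit 300), (nat_lit 550), (nat_lit 725)],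
  [⟨(nat_lit 1), (nat_lit 299), (nat_lit 114), (Int.ofNat (nat_lit 21)), (Int.ofNat (nat_lit 16825)), [(Int.ofNat (nat_lit 626)), (Int.negSucc (nat_lit 1892))], [(Int.ofNat (nat_lit 1109)), (Int.ofNat (nat_lit 1109)), (Int.negSucc (nat_lit 0)), (Int.ofNat (nat_lit 850))]⟩,
    ⟨(nat_lit 0), (nat_lit 0), (nat_lit 139), (Int.ofNat (nat_lit 0)), (Int.ofNat (nat_lit 7296)), [(Int.ofNat (nat_lit 42)), (Int.negSucc (nat_lit 1133))], [(Int.ofNat (nat_lit 5)), (Int.ofNat (nat_lit 6)), (Int.ofNat (nat_lit 9)), (Int.ofNat (nat_lit 11))]⟩,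
    ⟨(nat_lit 1), (nat_lit 301), (nat_lit 114), (Int.ofNat (nat_lit 25)), (Int.ofNat (nat_lit 16919)), [(Int.ofNat (nat_lit 634)), (Int.negSucc (nat_lit 2304))], [(Int.ofNat (nat_lit 1099)), (Int.ofNat (nat_lit 1099)), (Int.negSucc (nat_lit 0)), (Int.ofNat (nat_lit 833))]⟩,
    ⟨(nat_lit 1), (nat_lit 422), (nat_lit 141), (Int.negSucc (nat_lit 11)), (Int.ofNat (nat_lit 22049)), [(Int.ofNat (nat_lit 970)), (Int.negSucc (nat_lit 3136))], [(Int.ofNat (nat_lit 1772)), (Int.ofNat (nat_lit 1772)), (Int.ofNat (nat_lit 68)), (Int.ofNat (nat_lit 1426))]⟩,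
    ⟨(nat_lit 2), (nat_lit 250), (nat_lit 125), (Int.ofNat (nat_lit 30)), (Int.ofNat (nat_lit 15376)), [(Int.ofNat (nat_lit 797)), (Int.ofNat (nat_lit 1348))], [(Int.ofNat (nat_lit 1588)), (Int.ofNat (nat_lit 2070)), (Int.ofNat (nat_lit 2999)), (Int.ofNat (nat_lit 3848))]⟩]⟩
def xT0 : Box := ⟨(nat_lit 168), (nat_lit 170), (nat_lit 168), (nat_lit 172), (nat_lit 0), (nat_lit 0), (nat_lit 12), (nat_lit 60), (nat_lit 4206), (nat_lit 9821), [(nat_lit 200), (nat_lit 701)], [],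
  [⟨(nat_lit 1), (nat_lit 315), (nat_lit 107), (Int.ofNat (nat_lit 0)), (Int.ofNat (nat_lit 20762)), [(Int.ofNat (nat_lit 800)), (Int.negSucc (nat_lit 2250))], []⟩,
    ⟨(nat_lit 0), (nat_lit 0), (nat_lit 120), (Int.ofNat (nat_lit 0)), (Int.ofNat (nat_lit 11005)), [(Int.ofNat (nat_lit 14)), (Int.negSucc (nat_lit 1245))], []⟩,
    ⟨(nat_lit 1), (nat_lit 231), (nat_lit 98), (Int.ofNat (nat_lit 0)), (Int.ofNat (nat_lit 17786)), [(Int.ofNat (nat_lit 519)), (Int.negSucc (nat_lit 2190))], []⟩,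
    ⟨(nat_lit 1), (nat_lit 654), (nat_lit 291), (Int.ofNat (nat_lit 0)), (Int.ofNat (nat_lit 44768)), [(Int.ofNat (nat_lit 1512)), (Int.negSucc (nat_lit 6554))], []⟩,
    ⟨(nat_lit 2), (nat_lit 208), (nat_lit 104), (Int.ofNat (nat_lit 0)), (Int.ofNat (nat_lit 17225)), [(Int.ofNat (nat_lit 772)), (Int.ofNat (nat_lit 830))], []⟩]⟩
def xT1 : Box := ⟨(nat_lit 170), (nat_lit 172), (nat_lit 168), (nat_lit 172), (nat_lit 0), (nat_lit 0), (nat_lit 12), (nat_lit 60), (nat_lit 4206), (nat_lit 9912), [(nat_lit 200), (nat_lit 701)], [],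
  [⟨(nat_lit 1), (nat_lit 314), (nat_lit 104), (Int.ofNat (nat_lit 0)), (Int.ofNat (nat_lit 20959)), [(Int.ofNat (nat_lit 821)), (Int.negSucc (nat_lit 2385))], []⟩,
    ⟨(nat_lit 0), (nat_lit 0), (nat_lit 116), (Int.ofNat (nat_lit 0)), (Int.ofNat (nat_lit 11060)), [(Int.ofNat (nat_lit 14)), (Int.negSucc (nat_lit 1616))], []⟩,
    ⟨(nat_lit 1), (nat_lit 223), (nat_lit 96), (Int.ofNat (nat_lit 0)), (Int.ofNat (nat_lit 17746)), [(Int.ofNat (nat_lit 504)), (Int.negSucc (nat_lit 2344))], []⟩,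
    ⟨(nat_lit 1), (nat_lit 654), (nat_lit 291), (Int.ofNat (nat_lit 0)), (Int.ofNat (nat_lit 45540)), [(Int.ofNat (nat_lit 1528)), (Int.negSucc (nat_lit 7189))], []⟩,
    ⟨(nat_lit 2), (nat_lit 208), (nat_lit 104), (Int.ofNat (nat_lit 0)), (Int.ofNat (nat_lit 17496)), [(Int.ofNat (nat_lit 772)), (Int.ofNat (nat_lit 664))], []⟩]⟩
def xT2 : Box := ⟨(nat_lit 172), (nat_lit 174), (nat_lit 172), (nat_lit 176), (nat_lit 0), (nat_lit 0), (nat_lit 12), (nat_lit 60), (nat_lit 4050), (nat_lit 10002), [(nat_lit 190), (nat_lit 675)], [],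
  [⟨(nat_lit 1), (nat_lit 303), (nat_lit 103), (Int.ofNat (nat_lit 0)), (Int.ofNat (nat_lit 20892)), [(Int.ofNat (nat_lit 745)), (Int.negSucc (nat_lit 1680))], []⟩,
    ⟨(nat_lit 0), (nat_lit 0), (nat_lit 135), (Int.ofNat (nat_lit 0)), (Int.ofNat (nat_lit 11800)), [(Int.ofNat (nat_lit 14)), (Int.negSucc (nat_lit 2124))], []⟩,
    ⟨(nat_lit 1), (nat_lit 224), (nat_lit 103), (Int.ofNat (nat_lit 0)), (Int.ofNat (nat_lit 18263)), [(Int.ofNat (nat_lit 497)), (Int.negSucc (nat_lit 2397))], []⟩,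
    ⟨(nat_lit 1), (nat_lit 637), (nat_lit 277), (Int.ofNat (nat_lit 0)), (Int.ofNat (nat_lit 44687)), [(Int.ofNat (nat_lit 1375)), (Int.negSucc (nat_lit 6394))], []⟩,
    ⟨(nat_lit 2), (nat_lit 208), (nat_lit 104), (Int.ofNat (nat_lit 0)), (Int.ofNat (nat_lit 17762)), [(Int.ofNat (nat_lit 737)), (Int.ofNat (nat_lit 594))], []⟩]⟩
def xT3 : Box := ⟨(nat_lit 174), (nat_lit 176), (nat_lit 172), (nat_lit 176), (nat_lit 0), (nat_lit 0), (nat_lit 12), (nat_lit 60), (nat_lit 4050), (nat_lit 10089), [(nat_lit 190), (nat_lit 675)], [],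
  [⟨(nat_lit 1), (nat_lit 303), (nat_lit 99), (Int.ofNat (nat_lit 0)), (Int.ofNat (nat_lit 21065)), [(Int.ofNat (nat_lit 775)), (Int.negSucc (nat_lit 1752))], []⟩,
    ⟨(nat_lit 0), (nat_lit 0), (nat_lit 135), (Int.ofNat (nat_lit 0)), (Int.ofNat (nat_lit 11965)), [(Int.ofNat (nat_lit 14)), (Int.negSucc (nat_lit 2532))], []⟩,
    ⟨(nat_lit 1), (nat_lit 221), (nat_lit 92), (Int.ofNat (nat_lit 0)), (Int.ofNat (nat_lit 18100)), [(Int.ofNat (nat_lit 488)), (Int.negSucc (nat_lit 2327))], []⟩,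
    ⟨(nat_lit 1), (nat_lit 637), (nat_lit 277), (Int.ofNat (nat_lit 0)), (Int.ofNat (nat_lit 45511)), [(Int.ofNat (nat_lit 1386)), (Int.negSucc (nat_lit 7013))], []⟩,
    ⟨(nat_lit 2), (nat_lit 208), (nat_lit 104), (Int.ofNat (nat_lit 0)), (Int.ofNat (nat_lit 18024)), [(Int.ofNat (nat_lit 736)), (Int.ofNat (nat_lit 428))], []⟩]⟩
def xT4 : Box := ⟨(nat_lit 176), (nat_lit 178), (nat_lit 176), (nat_lit 180), (nat_lit 0), (nat_lit 0), (nat_lit 12), (nat_lit 60), (nat_lit 3876), (nat_lit 10174), [(nat_lit 170), (nat_lit 646)], [],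
  [⟨(nat_lit 1), (nat_lit 291), (nat_lit 99), (Int.ofNat (nat_lit 0)), (Int.ofNat (nat_lit 20979)), [(Int.ofNat (nat_lit 653)), (Int.negSucc (nat_lit 2026))], []⟩,
    ⟨(nat_lit 0), (nat_lit 0), (nat_lit 135), (Int.ofNat (nat_lit 0)), (Int.ofNat (nat_lit 12150)), [(Int.ofNat (nat_lit 14)), (Int.negSucc (nat_lit 2269))], []⟩,
    ⟨(nat_lit 1), (nat_lit 215), (nat_lit 85), (Int.ofNat (nat_lit 0)), (Int.ofNat (nat_lit 17949)), [(Int.ofNat (nat_lit 442)), (Int.negSucc (nat_lit 2066))], []⟩,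
    ⟨(nat_lit 1), (nat_lit 637), (nat_lit 277), (Int.ofNat (nat_lit 0)), (Int.ofNat (nat_lit 46358)), [(Int.ofNat (nat_lit 1258)), (Int.negSucc (nat_lit 6443))], []⟩,
    ⟨(nat_lit 2), (nat_lit 208), (nat_lit 104), (Int.ofNat (nat_lit 0)), (Int.ofNat (nat_lit 18290)), [(Int.ofNat (nat_lit 667)), (Int.ofNat (nat_lit 421))], []⟩]⟩
def xT5 : Box := ⟨(nat_lit 178), (nat_lit 180), (nat_lit 176), (nat_lit 180), (nat_lit 0), (nat_lit 0), (nat_lit 12), (nat_lit 60), (nat_lit 3876), (nat_lit 10257), [(nat_lit 170), (nat_lit 646)], [],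
  [⟨(nat_lit 1), (nat_lit 303), (nat_lit 98), (Int.ofNat (nat_lit 0)), (Int.ofNat (nat_lit 21792)), [(Int.ofNat (nat_lit 712)), (Int.negSucc (nat_lit 2437))], []⟩,
    ⟨(nat_lit 0), (nat_lit 0), (nat_lit 105), (Int.ofNat (nat_lit 0)), (Int.ofNat (nat_lit 11541)), [(Int.ofNat (nat_lit 14)), (Int.negSucc (nat_lit 2131))], []⟩,
    ⟨(nat_lit 1), (nat_lit 211), (nat_lit 78), (Int.ofNat (nat_lit 0)), (Int.ofNat (nat_lit 18016)), [(Int.ofNat (nat_lit 454)), (Int.negSucc (nat_lit 2066))], []⟩,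
    ⟨(nat_lit 1), (nat_lit 637), (nat_lit 277), (Int.ofNat (nat_lit 0)), (Int.ofNat (nat_lit 47263)), [(Int.ofNat (nat_lit 1275)), (Int.negSucc (nat_lit 7114))], []⟩,
    ⟨(nat_lit 2), (nat_lit 208), (nat_lit 104), (Int.ofNat (nat_lit 0)), (Int.ofNat (nat_lit 18692)), [(Int.ofNat (nat_lit 667)), (Int.ofNat (nat_lit 248))], []⟩]⟩
def xT6 : Box := ⟨(nat_lit 180), (nat_lit 182), (nat_lit 180), (nat_lit 184), (nat_lit 0), (nat_lit 0), (nat_lit 12), (nat_lit 60), (nat_lit 3690), (nat_lit 10338), [(nat_lit 150), (nat_lit 615)], [],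
  [⟨(nat_lit 1), (nat_lit 291), (nat_lit 97), (Int.ofNat (nat_lit 0)), (Int.ofNat (nat_lit 21622)), [(Int.ofNat (nat_lit 597)), (Int.negSucc (nat_lit 2408))], []⟩,
    ⟨(nat_lit 0), (nat_lit 0), (nat_lit 105), (Int.ofNat (nat_lit 0)), (Int.ofNat (nat_lit 11680)), [(Int.ofNat (nat_lit 14)), (Int.negSucc (nat_lit 1932))], []⟩,
    ⟨(nat_lit 1), (nat_lit 210), (nat_lit 84), (Int.ofNat (nat_lit 0)), (Int.ofNat (nat_lit 18397)), [(Int.ofNat (nat_lit 387)), (Int.negSucc (nat_lit 2073))], []⟩,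
    ⟨(nat_lit 1), (nat_lit 951), (nat_lit 257), (Int.ofNat (nat_lit 0)), (Int.ofNat (nat_lit 60072)), [(Int.ofNat (nat_lit 2622)), (Int.negSucc (nat_lit 6251))], []⟩,
    ⟨(nat_lit 2), (nat_lit 208), (nat_lit 104), (Int.ofNat (nat_lit 0)), (Int.ofNat (nat_lit 18928)), [(Int.ofNat (nat_lit 598)), (Int.ofNat (nat_lit 233))], []⟩]⟩
def xT7 : Box := ⟨(nat_lit 182), (nat_lit 184), (nat_lit 180), (nat_lit 184), (nat_lit 0), (nat_lit 0), (nat_lit 12), (nat_lit 60), (nat_lit 3690), (nat_lit 10416), [(nat_lit 150), (nat_lit 615)], [],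
  [⟨(nat_lit 1), (nat_lit 294), (nat_lit 93), (Int.ofNat (nat_lit 0)), (Int.ofNat (nat_lit 21877)), [(Int.ofNat (nat_lit 633)), (Int.negSucc (nat_lit 2504))], []⟩,
    ⟨(nat_lit 0), (nat_lit 0), (nat_lit 105), (Int.ofNat (nat_lit 0)), (Int.ofNat (nat_lit 11813)), [(Int.ofNat (nat_lit 14)), (Int.negSucc (nat_lit 2298))], []⟩,
    ⟨(nat_lit 1), (nat_lit 216), (nat_lit 80), (Int.ofNat (nat_lit 0)), (Int.ofNat (nat_lit 18722)), [(Int.ofNat (nat_lit 420)), (Int.negSucc (nat_lit 2214))], []⟩,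
    ⟨(nat_lit 1), (nat_lit 951), (nat_lit 257), (Int.ofNat (nat_lit 0)), (Int.ofNat (nat_lit 61281)), [(Int.ofNat (nat_lit 2633)), (Int.negSucc (nat_lit 6887))], []⟩,
    ⟨(nat_lit 2), (nat_lit 208), (nat_lit 104), (Int.ofNat (nat_lit 0)), (Int.ofNat (nat_lit 19158)), [(Int.ofNat (nat_lit 597)), (Int.ofNat (nat_lit 53))], []⟩]⟩
def xT8 : Box := ⟨(nat_lit 184), (nat_lit 186), (nat_lit 184), (nat_lit 188), (nat_lit 0), (nat_lit 0), (nat_lit 12), (nat_lit 60), (nat_lit 4067), (nat_lit 10492), [(nat_lit 130), (nat_lit 581)], [],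
  [⟨(nat_lit 1), (nat_lit 287), (nat_lit 91), (Int.ofNat (nat_lit 0)), (Int.ofNat (nat_lit 21833)), [(Int.ofNat (nat_lit 539)), (Int.negSucc (nat_lit 2399))], []⟩,
    ⟨(nat_lit 0), (nat_lit 0), (nat_lit 101), (Int.ofNat (nat_lit 0)), (Int.ofNat (nat_lit 11824)), [(Int.ofNat (nat_lit 13)), (Int.negSucc (nat_lit 2024))], []⟩,
    ⟨(nat_lit 1), (nat_lit 220), (nat_lit 84), (Int.ofNat (nat_lit 0)), (Int.ofNat (nat_lit 19216)), [(Int.ofNat (nat_lit 368)), (Int.negSucc (nat_lit 2137))], []⟩,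
    ⟨(nat_lit 1), (nat_lit 951), (nat_lit 257), (Int.ofNat (nat_lit 0)), (Int.ofNat (nat_lit 62595)), [(Int.ofNat (nat_lit 2326)), (Int.negSucc (nat_lit 6854))], []⟩,
    ⟨(nat_lit 2), (nat_lit 208), (nat_lit 104), (Int.ofNat (nat_lit 0)), (Int.ofNat (nat_lit 19385)), [(Int.ofNat (nat_lit 529)), (Int.ofNat (nat_lit 27))], []⟩]⟩
def xT9 : Box := ⟨(nat_lit 186), (nat_lit 188), (nat_lit 184), (nat_lit 188), (nat_lit 0), (nat_lit 0), (nat_lit 12), (nat_lit 60), (nat_lit 4067), (nat_lit 10566), [(nat_lit 130), (nat_lit 581)], [],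
  [⟨(nat_lit 1), (nat_lit 278), (nat_lit 90), (Int.ofNat (nat_lit 0)), (Int.ofNat (nat_lit 21740)), [(Int.ofNat (nat_lit 520)), (Int.negSucc (nat_lit 2465))], []⟩,
    ⟨(nat_lit 0), (nat_lit 0), (nat_lit 101), (Int.ofNat (nat_lit 0)), (Int.ofNat (nat_lit 11950)), [(Int.ofNat (nat_lit 13)), (Int.negSucc (nat_lit 2410))], []⟩,
    ⟨(nat_lit 1), (nat_lit 223), (nat_lit 89), (Int.ofNat (nat_lit 0)), (Int.ofNat (nat_lit 19704)), [(Int.ofNat (nat_lit 370)), (Int.negSucc (nat_lit 2419))], []⟩,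
    ⟨(nat_lit 1), (nat_lit 951), (nat_lit 257), (Int.ofNat (nat_lit 0)), (Int.ofNat (nat_lit 63997)), [(Int.ofNat (nat_lit 2337)), (Int.negSucc (nat_lit 7450))], []⟩,
    ⟨(nat_lit 2), (nat_lit 208), (nat_lit 104), (Int.ofNat (nat_lit 0)), (Int.ofNat (nat_lit 19673)), [(Int.ofNat (nat_lit 529)), (Int.negSucc (nat_lit 152))], []⟩]⟩
def xT10 : Box := ⟨(nat_lit 188), (nat_lit 190), (nat_lit 188), (nat_lit 192), (nat_lit 0), (nat_lit 0), (nat_lit 12), (nat_lit 60), (nat_lit 3794), (nat_lit 10638), [(nat_lit 110), (nat_lit 542)], [],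
  [⟨(nat_lit 1), (nat_lit 272), (nat_lit 88), (Int.ofNat (nat_lit 0)), (Int.ofNat (nat_lit 21710)), [(Int.ofNat (nat_lit 435)), (Int.negSucc (nat_lit 2349))], []⟩,
    ⟨(nat_lit 0), (nat_lit 0), (nat_lit 101), (Int.ofNat (nat_lit 0)), (Int.ofNat (nat_lit 12073)), [(Int.ofNat (nat_lit 13)), (Int.negSucc (nat_lit 2229))], []⟩,
    ⟨(nat_lit 1), (nat_lit 223), (nat_lit 89), (Int.ofNat (nat_lit 0)), (Int.ofNat (nat_lit 19931)), [(Int.ofNat (nat_lit 318)), (Int.negSucc (nat_lit 2248))], []⟩,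
    ⟨(nat_lit 1), (nat_lit 951), (nat_lit 257), (Int.ofNat (nat_lit 0)), (Int.ofNat (nat_lit 65521)), [(Int.ofNat (nat_lit 2029)), (Int.negSucc (nat_lit 6946))], []⟩,
    ⟨(nat_lit 2), (nat_lit 208), (nat_lit 104), (Int.ofNat (nat_lit 0)), (Int.ofNat (nat_lit 19985)), [(Int.ofNat (nat_lit 461)), (Int.negSucc (nat_lit 190))], []⟩]⟩
def xT11 : Box := ⟨(nat_lit 190), (nat_lit 192), (nat_lit 188), (nat_lit 192), (nat_lit 0), (nat_lit 0), (nat_lit 12), (nat_lit 60), (nat_lit 3794), (nat_lit 10707), [(nat_lit 110), (nat_lit 542)], [],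
  [⟨(nat_lit 1), (nat_lit 279), (nat_lit 84), (Int.ofNat (nat_lit 0)), (Int.ofNat (nat_lit 22099)), [(Int.ofNat (nat_lit 475)), (Int.negSucc (nat_lit 2396))], []⟩,
    ⟨(nat_lit 0), (nat_lit 0), (nat_lit 101), (Int.ofNat (nat_lit 0)), (Int.ofNat (nat_lit 12192)), [(Int.ofNat (nat_lit 13)), (Int.negSucc (nat_lit 2659))], []⟩,
    ⟨(nat_lit 1), (nat_lit 223), (nat_lit 89), (Int.ofNat (nat_lit 0)), (Int.ofNat (nat_lit 20154)), [(Int.ofNat (nat_lit 323)), (Int.negSucc (nat_lit 2514))], []⟩,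
    ⟨(nat_lit 1), (nat_lit 776), (nat_lit 206), (Int.ofNat (nat_lit 0)), (Int.ofNat (nat_lit 54499)), [(Int.ofNat (nat_lit 1676)), (Int.negSucc (nat_lit 5924))], []⟩,
    ⟨(nat_lit 2), (nat_lit 260), (nat_lit 132), (Int.ofNat (nat_lit 0)), (Int.ofNat (nat_lit 24173)), [(Int.ofNat (nat_lit 555)), (Int.negSucc (nat_lit 706))], []⟩]⟩
def xT12 : Box := ⟨(nat_lit 192), (nat_lit 194), (nat_lit 192), (nat_lit 196), (nat_lit 0), (nat_lit 0), (nat_lit 12), (nat_lit 60), (nat_lit 3472), (nat_lit 10775), [(nat_lit 100), (nat_lit 496)], [],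
  [⟨(nat_lit 1), (nat_lit 269), (nat_lit 83), (Int.ofNat (nat_lit 0)), (Int.ofNat (nat_lit 21940)), [(Int.ofNat (nat_lit 413)), (Int.negSucc (nat_lit 2059))], []⟩,
    ⟨(nat_lit 0), (nat_lit 0), (nat_lit 140), (Int.ofNat (nat_lit 0)), (Int.ofNat (nat_lit 13840)), [(Int.ofNat (nat_lit 24)), (Int.negSucc (nat_lit 3099))], []⟩,
    ⟨(nat_lit 1), (nat_lit 204), (nat_lit 74), (Int.ofNat (nat_lit 0)), (Int.ofNat (nat_lit 19206)), [(Int.ofNat (nat_lit 295)), (Int.negSucc (nat_lit 1545))], []⟩,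
    ⟨(nat_lit 1), (nat_lit 531), (nat_lit 116), (Int.ofNat (nat_lit 0)), (Int.ofNat (nat_lit 36096)), [(Int.ofNat (nat_lit 1194)), (Int.negSucc (nat_lit 2919))], []⟩,
    ⟨(nat_lit 2), (nat_lit 274), (nat_lit 137), (Int.ofNat (nat_lit 0)), (Int.ofNat (nat_lit 25637)), [(Int.ofNat (nat_lit 576)), (Int.negSucc (nat_lit 823))], []⟩]⟩
def xT13 : Box := ⟨(nat_lit 194), (nat_lit 196), (nat_lit 192), (nat_lit 196), (nat_lit 0), (nat_lit 0), (nat_lit 12), (nat_lit 60), (nat_lit 3472), (nat_lit 10839), [(nat_lit 100), (nat_lit 496)], [],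
  [⟨(nat_lit 1), (nat_lit 262), (nat_lit 81), (Int.ofNat (nat_lit 0)), (Int.ofNat (nat_lit 21841)), [(Int.ofNat (nat_lit 408)), (Int.negSucc (nat_lit 2412))], []⟩,
    ⟨(nat_lit 0), (nat_lit 0), (nat_lit 141), (Int.ofNat (nat_lit 0)), (Int.ofNat (nat_lit 14102)), [(Int.ofNat (nat_lit 6)), (Int.negSucc (nat_lit 3706))], []⟩,
    ⟨(nat_lit 1), (nat_lit 213), (nat_lit 77), (Int.ofNat (nat_lit 0)), (Int.ofNat (nat_lit 19847)), [(Int.ofNat (nat_lit 304)), (Int.negSucc (nat_lit 1676))], []⟩,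
    ⟨(nat_lit 1), (nat_lit 428), (nat_lit 103), (Int.ofNat (nat_lit 0)), (Int.ofNat (nat_lit 30338)), [(Int.ofNat (nat_lit 824)), (Int.negSucc (nat_lit 2865))], []⟩,
    ⟨(nat_lit 2), (nat_lit 274), (nat_lit 137), (Int.ofNat (nat_lit 0)), (Int.ofNat (nat_lit 25937)), [(Int.ofNat (nat_lit 579)), (Int.negSucc (nat_lit 1081))], []⟩]⟩
def xT14 : Box := ⟨(nat_lit 196), (nat_lit 198), (nat_lit 196), (nat_lit 198), (nat_lit 0), (nat_lit 0), (nat_lit 12), (nat_lit 60), (nat_lit 3496), (nat_lit 10902), [(nat_lit 95), (nat_lit 437)], [],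
  [⟨(nat_lit 1), (nat_lit 264), (nat_lit 78), (Int.ofNat (nat_lit 0)), (Int.ofNat (nat_lit 22059)), [(Int.ofNat (nat_lit 415)), (Int.negSucc (nat_lit 1518))], []⟩,
    ⟨(nat_lit 0), (nat_lit 0), (nat_lit 130), (Int.ofNat (nat_lit 0)), (Int.ofNat (nat_lit 13638)), [(Int.ofNat (nat_lit 64)), (Int.negSucc (nat_lit 3373))], []⟩,
    ⟨(nat_lit 1), (nat_lit 166), (nat_lit 81), (Int.ofNat (nat_lit 0)), (Int.ofNat (nat_lit 18355)), [(Int.ofNat (nat_lit 212)), (Int.negSucc (nat_lit 2125))], []⟩,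
    ⟨(nat_lit 1), (nat_lit 482), (nat_lit 119), (Int.ofNat (nat_lit 0)), (Int.ofNat (nat_lit 34891)), [(Int.ofNat (nat_lit 898)), (Int.negSucc (nat_lit 3143))], []⟩,
    ⟨(nat_lit 1), (nat_lit 1330), (nat_lit 953), (Int.ofNat (nat_lit 0)), (Int.ofNat (nat_lit 152807)), [(Int.ofNat (nat_lit 1675)), (Int.negSucc (nat_lit 27535))], []⟩,
    ⟨(nat_lit 2), (nat_lit 267), (nat_lit 118), (Int.ofNat (nat_lit 0)), (Int.ofNat (nat_lit 24583)), [(Int.ofNat (nat_lit 677)), (Int.negSucc (nat_lit 591))], []⟩]⟩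
def xT15 : Box := ⟨(nat_lit 198), (nat_lit 199), (nat_lit 198), (nat_lit 200), (nat_lit 0), (nat_lit 0), (nat_lit 12), (nat_lit 60), (nat_lit 3168), (nat_lit 10933), [(nat_lit 90), (nat_lit 396)], [],
  [⟨(nat_lit 1), (nat_lit 259), (nat_lit 78), (Int.ofNat (nat_lit 0)), (Int.ofNat (nat_lit 21985)), [(Int.ofNat (nat_lit 388)), (Int.negSucc (nat_lit 1949))], []⟩,
    ⟨(nat_lit 0), (nat_lit 0), (nat_lit 121), (Int.ofNat (nat_lit 0)), (Int.ofNat (nat_lit 13193)), [(Int.ofNat (nat_lit 196)), (Int.negSucc (nat_lit 3117))], []⟩,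
    ⟨(nat_lit 1), (nat_lit 157), (nat_lit 85), (Int.ofNat (nat_lit 0)), (Int.ofNat (nat_lit 18216)), [(Int.ofNat (nat_lit 188)), (Int.negSucc (nat_lit 2428))], []⟩,
    ⟨(nat_lit 1), (nat_lit 476), (nat_lit 118), (Int.ofNat (nat_lit 0)), (Int.ofNat (nat_lit 34752)), [(Int.ofNat (nat_lit 849)), (Int.negSucc (nat_lit 3184))], []⟩,
    ⟨(nat_lit 1), (nat_lit 1330), (nat_lit 953), (Int.ofNat (nat_lit 0)), (Int.ofNat (nat_lit 153551)), [(Int.ofNat (nat_lit 1638)), (Int.negSucc (nat_lit 27560))], []⟩,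
    ⟨(nat_lit 2), (nat_lit 267), (nat_lit 135), (Int.ofNat (nat_lit 0)), (Int.ofNat (nat_lit 26030)), [(Int.ofNat (nat_lit 589)), (Int.negSucc (nat_lit 1259))], []⟩]⟩
def xT16 : Box := ⟨(nat_lit 199), (nat_lit 200), (nat_lit 198), (nat_lit 200), (nat_lit 0), (nat_lit 0), (nat_lit 12), (nat_lit 60), (nat_lit 3168), (nat_lit 10963), [(nat_lit 90), (nat_lit 396)], [],
  [⟨(nat_lit 1), (nat_lit 261), (nat_lit 76), (Int.ofNat (nat_lit 0)), (Int.ofNat (nat_lit 22110)), [(Int.ofNat (nat_lit 405)), (Int.negSucc (nat_lit 1422))], []⟩,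
    ⟨(nat_lit 0), (nat_lit 0), (nat_lit 121), (Int.ofNat (nat_lit 0)), (Int.ofNat (nat_lit 13287)), [(Int.ofNat (nat_lit 196)), (Int.negSucc (nat_lit 3511))], []⟩,
    ⟨(nat_lit 1), (nat_lit 178), (nat_lit 76), (Int.ofNat (nat_lit 0)), (Int.ofNat (nat_lit 18857)), [(Int.ofNat (nat_lit 234)), (Int.negSucc (nat_lit 2137))], []⟩,
    ⟨(nat_lit 1), (nat_lit 457), (nat_lit 114), (Int.ofNat (nat_lit 0)), (Int.ofNat (nat_lit 33697)), [(Int.ofNat (nat_lit 820)), (Int.negSucc (nat_lit 3501))], []⟩,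
    ⟨(nat_lit 1), (nat_lit 1330), (nat_lit 953), (Int.ofNat (nat_lit 0)), (Int.ofNat (nat_lit 154323)), [(Int.ofNat (nat_lit 1645)), (Int.negSucc (nat_lit 30646))], []⟩,
    ⟨(nat_lit 2), (nat_lit 267), (nat_lit 135), (Int.ofNat (nat_lit 0)), (Int.ofNat (nat_lit 26229)), [(Int.ofNat (nat_lit 589)), (Int.negSucc (nat_lit 1614))], []⟩]⟩

/-- the boxes of the set `A` -/
def boxA : List Box := [xA0, xA1, xA2, xA3, xA4, xA5, xA6, xA7, xA8, xA9, xA10, xA11, xA12, xA13, xA14, xA15, xA16, xA17, xA18, xA19, xA20, xA21, xA22, xA23, xA24, xA25, xA26, xA27, xA28, xA29, xA30, xA31, xA32, xA33, xA34, xA35, xA36, xA37, xA38, xA39, xA40, xA41, xA42, xA43, xA44, xA45, xA46, xA47, xA48, xA49, xA50, xA51, xA52, xA53, xA54, xA55, xA56, xA57, xA58, xA59, xA60, xA61, xA62, xA63, xA64, xA65, xA66, xA67]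

/-- the boxes of the set `P` -/
def boxP : List Box := [xP0, xP1, xP2, xP3, xP4, xP5, xP6, xP7, xP8, xP9, xP10, xP11, xP12, xP13, xP14, xP15, xP16, xP17, xP18, xP19, xP20, xP21, xP22, xP23, xP24, xP25, xP26, xP27, xP28, xP29, xP30]

/-- the boxes of the set `Q` -/
def boxQ : List Box := [xQ0, xQ1, xQ2, xQ3, xQ4, xQ5, xQ6, xQ7, xQ8, xQ9, xQ10, xQ11, xQ12, xQ13, xQ14, xQ15, xQ16, xQ17, xQ18, xQ19, xQ20, xQ21, xQ22, xQ23, xQ24, xQ25, xQ26, xQ27, xQ28, xQ29, xQ30, xQ31, xQ32, xQ33, xQ34, xQ35, xQ36, xQ37, xQ38, xQ39, xQ40, xQ41, xQ42, xQ43, xQ44, xQ45, xQ46, xQ47, xQ48, xQ49, xQ50, xQ51, xQ52, xQ53, xQ54, xQ55, xQ56, xQ57, xQ58, xQ59]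

/-- the boxes of the set `T` -/
def boxT : List Box := [xT0, xT1, xT2, xT3, xT4, xT5, xT6, xT7, xT8, xT9, xT10, xT11, xT12, xT13, xT14, xT15, xT16]

end CA
end Pool.Agent.Lib.MP_6947cd_al
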