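import Pool.Agent.Lib.MP_6947cd_al.L.BoxB

/-!
Problem MP_6947cd_al (Chollet).  CASE B, second entry in `[3/10, 2/5]`: the boxes (generated).
`box12`, .., `box15`: second entry in `[s/40, (s + 1)/40]`.
-/

set_option autoImplicit false

namespace Pool.Agent.Lib.MP_6947cd_al
namespace CB

open CA

def xB12_0 : Box := ⟨(nat_lit 108), (nat_lit 112), (nat_lit 104), (nat_lit 112), (nat_lit 12), (nat_lit 13),
 (nat_lit 12), (nat_lit 1), (nat_lit 3944), (nat_lit 340), [(nat_lit 120), (nat_lit 200), (nat_lit 300),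
 (nat_lit 450), (nat_lit 800)], [(nat_lit 0), (nat_lit 400), (nat_lit 600), (nat_lit 750), (nat_lit 986)],
 [
    ⟨(nat_lit 3), (nat_lit 417), (nat_lit 2741), (Int.ofNat (nat_lit 0)), (Int.ofNat (nat_lit 1)),
 [(Int.ofNat (nat_lit 595)), (Int.ofNat (nat_lit 1086)), (Int.ofNat (nat_lit 1804)),
 (Int.ofNat (nat_lit 3437)), (Int.negSucc (nat_lit 188))], [(Int.ofNat (nat_lit 3858)),
 (Int.ofNat (nat_lit 4739)), (Int.ofNat (nat_lit 5434)), (Int.ofNat (nat_lit 8078)),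
 (Int.ofNat (nat_lit 6867))]⟩]⟩
def yB12_0 : BoxB := ⟨xB12_0, [(nat_lit 49), (nat_lit 91), (nat_lit 130), (nat_lit 230), (nat_lit 313)], [(nat_lit 0), (nat_lit 279), (nat_lit 499), (nat_lit 627), (nat_lit 816)]⟩
def xB12_1 : Box := ⟨(nat_lit 112), (nat_lit 116), (nat_lit 112), (nat_lit 120), (nat_lit 12), (nat_lit 13),
 (nat_lit 12), (nat_lit 2), (nat_lit 3900), (nat_lit 395), [(nat_lit 120), (nat_lit 200), (nat_lit 300),
 (nat_lit 450), (nat_lit 800)], [(nat_lit 0), (nat_lit 400), (nat_lit 600), (nat_lit 750), (nat_lit 975)],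
 [
    ⟨(nat_lit 3), (nat_lit 477), (nat_lit 2200), (Int.ofNat (nat_lit 91)), (Int.ofNat (nat_lit 11463)),
 [(Int.ofNat (nat_lit 698)), (Int.ofNat (nat_lit 1272)), (Int.ofNat (nat_lit 2113)),
 (Int.ofNat (nat_lit 3713)), (Int.negSucc (nat_lit 855))], [(Int.ofNat (nat_lit 4107)),
 (Int.ofNat (nat_lit 5165)), (Int.ofNat (nat_lit 6049)), (Int.ofNat (nat_lit 9148)),
 (Int.ofNat (nat_lit 7721))]⟩]⟩
def yB12_1 : BoxB := ⟨xB12_1, [(nat_lit 43), (nat_lit 83), (nat_lit 123), (nat_lit 235), (nat_lit 321)], [(nat_lit 0), (nat_lit 287), (nat_lit 497), (nat_lit 623), (nat_lit 801)]⟩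
def xB12_2 : Box := ⟨(nat_lit 116), (nat_lit 120), (nat_lit 112), (nat_lit 120), (nat_lit 12), (nat_lit 13),
 (nat_lit 12), (nat_lit 4), (nat_lit 3900), (nat_lit 1095), [(nat_lit 120), (nat_lit 200), (nat_lit 300),
 (nat_lit 450), (nat_lit 800)], [(nat_lit 0), (nat_lit 400), (nat_lit 600), (nat_lit 750), (nat_lit 975)],
 [
    ⟨(nat_lit 3), (nat_lit 435), (nat_lit 1113), (Int.ofNat (nat_lit 0)), (Int.ofNat (nat_lit 11515)),
 [(Int.ofNat (nat_lit 654)), (Int.ofNat (nat_lit 1192)), (Int.ofNat (nat_lit 1980)),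
 (Int.ofNat (nat_lit 3386)), (Int.negSucc (nat_lit 982))], [(Int.ofNat (nat_lit 3883)),
 (Int.ofNat (nat_lit 4892)), (Int.ofNat (nat_lit 5720)), (Int.ofNat (nat_lit 8733)),
 (Int.ofNat (nat_lit 7222))]⟩]⟩
def yB12_2 : BoxB := ⟨xB12_2, [(nat_lit 35), (nat_lit 68), (nat_lit 119), (nat_lit 243), (nat_lit 344)], [(nat_lit 0), (nat_lit 294), (nat_lit 496), (nat_lit 619), (nat_lit 786)]⟩
def xB12_3 : Box := ⟨(nat_lit 120), (nat_lit 124), (nat_lit 120), (nat_lit 128), (nat_lit 12), (nat_lit 13),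
 (nat_lit 12), (nat_lit 7), (nat_lit 3840), (nat_lit 1762), [(nat_lit 120), (nat_lit 200), (nat_lit 300),
 (nat_lit 450), (nat_lit 800)], [(nat_lit 0), (nat_lit 400), (nat_lit 600), (nat_lit 750), (nat_lit 960)],
 [
    ⟨(nat_lit 3), (nat_lit 316), (nat_lit 607), (Int.ofNat (nat_lit 0)), (Int.ofNat (nat_lit 9124)),
 [(Int.ofNat (nat_lit 488)), (Int.ofNat (nat_lit 889)), (Int.ofNat (nat_lit 1594)),
 (Int.ofNat (nat_lit 2321)), (Int.negSucc (nat_lit 462))], [(Int.ofNat (nat_lit 2771)),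
 (Int.ofNat (nat_lit 3538)), (Int.ofNat (nat_lit 4177)), (Int.ofNat (nat_lit 6742)),
 (Int.ofNat (nat_lit 5242))]⟩]⟩
def yB12_3 : BoxB := ⟨xB12_3, [(nat_lit 29), (nat_lit 60), (nat_lit 120), (nat_lit 245), (nat_lit 357)], [(nat_lit 4), (nat_lit 302), (nat_lit 494), (nat_lit 615), (nat_lit 770)]⟩
def xB12_4 : Box := ⟨(nat_lit 124), (nat_lit 128), (nat_lit 120), (nat_lit 128), (nat_lit 12), (nat_lit 13),
 (nat_lit 12), (nat_lit 10), (nat_lit 3840), (nat_lit 2397), [(nat_lit 120), (nat_lit 200), (nat_lit 300),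
 (nat_lit 450), (nat_lit 800)], [(nat_lit 0), (nat_lit 400), (nat_lit 600), (nat_lit 750), (nat_lit 960)],
 [
    ⟨(nat_lit 3), (nat_lit 345), (nat_lit 572), (Int.ofNat (nat_lit 0)), (Int.ofNat (nat_lit 10945)),
 [(Int.ofNat (nat_lit 545)), (Int.ofNat (nat_lit 992)), (Int.ofNat (nat_lit 1957)),
 (Int.ofNat (nat_lit 2364)), (Int.negSucc (nat_lit 597))], [(Int.ofNat (nat_lit 2957)),
 (Int.ofNat (nat_lit 4551)), (Int.ofNat (nat_lit 4580)), (Int.ofNat (nat_lit 7108)),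
 (Int.ofNat (nat_lit 5747))]⟩]⟩
def yB12_4 : BoxB := ⟨xB12_4, [(nat_lit 19), (nat_lit 58), (nat_lit 124), (nat_lit 245), (nat_lit 389)], [(nat_lit 11), (nat_lit 309), (nat_lit 493), (nat_lit 612), (nat_lit 756)]⟩
def xB12_5 : Box := ⟨(nat_lit 128), (nat_lit 132), (nat_lit 128), (nat_lit 136), (nat_lit 12), (nat_lit 13),
 (nat_lit 12), (nat_lit 14), (nat_lit 3772), (nat_lit 3001), [(nat_lit 120), (nat_lit 200), (nat_lit 300),
 (nat_lit 450), (nat_lit 800)], [(nat_lit 0), (nat_lit 400), (nat_lit 600), (nat_lit 750), (nat_lit 943)],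
 [
    ⟨(nat_lit 3), (nat_lit 339), (nat_lit 439), (Int.ofNat (nat_lit 0)), (Int.ofNat (nat_lit 11403)),
 [(Int.ofNat (nat_lit 549)), (Int.ofNat (nat_lit 999)), (Int.ofNat (nat_lit 1888)),
 (Int.ofNat (nat_lit 2261)), (Int.negSucc (nat_lit 441))], [(Int.ofNat (nat_lit 2859)),
 (Int.ofNat (nat_lit 3759)), (Int.ofNat (nat_lit 4521)), (Int.ofNat (nat_lit 6937)),
 (Int.ofNat (nat_lit 5717))]⟩]⟩
def yB12_5 : BoxB := ⟨xB12_5, [(nat_lit 16), (nat_lit 60), (nat_lit 125), (nat_lit 248), (nat_lit 404)], [(nat_lit 18), (nat_lit 317), (nat_lit 491), (nat_lit 608), (nat_lit 739)]⟩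
def xB12_6 : Box := ⟨(nat_lit 132), (nat_lit 136), (nat_lit 128), (nat_lit 136), (nat_lit 12), (nat_lit 13),
 (nat_lit 12), (nat_lit 18), (nat_lit 3772), (nat_lit 3576), [(nat_lit 120), (nat_lit 200), (nat_lit 300),
 (nat_lit 450), (nat_lit 800)], [(nat_lit 0), (nat_lit 400), (nat_lit 600), (nat_lit 750), (nat_lit 943)],
 [
    ⟨(nat_lit 3), (nat_lit 330), (nat_lit 369), (Int.ofNat (nat_lit 0)), (Int.ofNat (nat_lit 11921)),
 [(Int.ofNat (nat_lit 547)), (Int.ofNat (nat_lit 995)), (Int.ofNat (nat_lit 1826)),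
 (Int.ofNat (nat_lit 2100)), (Int.negSucc (nat_lit 460))], [(Int.ofNat (nat_lit 2728)),
 (Int.ofNat (nat_lit 3642)), (Int.ofNat (nat_lit 4421)), (Int.ofNat (nat_lit 6665)),
 (Int.ofNat (nat_lit 5522))]⟩]⟩
def yB12_6 : BoxB := ⟨xB12_6, [(nat_lit 13), (nat_lit 61), (nat_lit 128), (nat_lit 250), (nat_lit 431)], [(nat_lit 25), (nat_lit 324), (nat_lit 490), (nat_lit 605), (nat_lit 725)]⟩
def xB12_7 : Box := ⟨(nat_lit 136), (nat_lit 140), (nat_lit 136), (nat_lit 144), (nat_lit 12), (nat_lit 13),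
 (nat_lit 12), (nat_lit 23), (nat_lit 3688), (nat_lit 4122), [(nat_lit 120), (nat_lit 200), (nat_lit 300),
 (nat_lit 450), (nat_lit 800)], [(nat_lit 0), (nat_lit 400), (nat_lit 600), (nat_lit 750), (nat_lit 922)],
 [
    ⟨(nat_lit 3), (nat_lit 317), (nat_lit 323), (Int.ofNat (nat_lit 23)), (Int.ofNat (nat_lit 12482)),
 [(Int.ofNat (nat_lit 537)), (Int.ofNat (nat_lit 976)), (Int.ofNat (nat_lit 1696)),
 (Int.ofNat (nat_lit 1941)), (Int.negSucc (nat_lit 740))], [(Int.ofNat (nat_lit 2516)),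
 (Int.ofNat (nat_lit 3426)), (Int.ofNat (nat_lit 4209)), (Int.ofNat (nat_lit 6354)),
 (Int.ofNat (nat_lit 5267))]⟩]⟩
def yB12_7 : BoxB := ⟨xB12_7, [(nat_lit 12), (nat_lit 63), (nat_lit 130), (nat_lit 253), (nat_lit 455)], [(nat_lit 32), (nat_lit 332), (nat_lit 489), (nat_lit 601), (nat_lit 707)]⟩
def xB12_8 : Box := ⟨(nat_lit 140), (nat_lit 144), (nat_lit 136), (nat_lit 144), (nat_lit 12), (nat_lit 13),
 (nat_lit 12), (nat_lit 29), (nat_lit 3688), (nat_lit 4642), [(nat_lit 120), (nat_lit 200), (nat_lit 300),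
 (nat_lit 450), (nat_lit 800)], [(nat_lit 0), (nat_lit 400), (nat_lit 600), (nat_lit 750), (nat_lit 922)],
 [
    ⟨(nat_lit 3), (nat_lit 337), (nat_lit 275), (Int.ofNat (nat_lit 14)), (Int.ofNat (nat_lit 13809)),
 [(Int.ofNat (nat_lit 586)), (Int.ofNat (nat_lit 1342)), (Int.ofNat (nat_lit 1726)),
 (Int.ofNat (nat_lit 2030)), (Int.negSucc (nat_lit 262))], [(Int.ofNat (nat_lit 2644)),
 (Int.ofNat (nat_lit 3651)), (Int.ofNat (nat_lit 4520)), (Int.ofNat (nat_lit 6637)),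
 (Int.ofNat (nat_lit 5545))]⟩]⟩
def yB12_8 : BoxB := ⟨xB12_8, [(nat_lit 13), (nat_lit 65), (nat_lit 132), (nat_lit 257), (nat_lit 482)], [(nat_lit 39), (nat_lit 339), (nat_lit 487), (nat_lit 597), (nat_lit 692)]⟩
def xB12_9 : Box := ⟨(nat_lit 144), (nat_lit 148), (nat_lit 144), (nat_lit 152), (nat_lit 12), (nat_lit 13),
 (nat_lit 12), (nat_lit 40), (nat_lit 4480), (nat_lit 5138), [(nat_lit 120), (nat_lit 200), (nat_lit 300),
 (nat_lit 450), (nat_lit 800)], [(nat_lit 0), (nat_lit 400), (nat_lit 600), (nat_lit 750), (nat_lit 896)],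
 [
    ⟨(nat_lit 3), (nat_lit 334), (nat_lit 214), (Int.ofNat (nat_lit 16)), (Int.ofNat (nat_lit 14534)),
 [(Int.ofNat (nat_lit 599)), (Int.ofNat (nat_lit 1171)), (Int.ofNat (nat_lit 1662)),
 (Int.ofNat (nat_lit 1952)), (Int.ofNat (nat_lit 520))], [(Int.ofNat (nat_lit 2559)),
 (Int.ofNat (nat_lit 3598)), (Int.ofNat (nat_lit 4495)), (Int.ofNat (nat_lit 6446)),
 (Int.ofNat (nat_lit 5542))]⟩]⟩
def yB12_9 : BoxB := ⟨xB12_9, [(nat_lit 14), (nat_lit 67), (nat_lit 135), (nat_lit 260), (nat_lit 530)], [(nat_lit 46), (nat_lit 339), (nat_lit 485), (nat_lit 594), (nat_lit 675)]⟩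
def xB12_10 : Box := ⟨(nat_lit 148), (nat_lit 152), (nat_lit 144), (nat_lit 152), (nat_lit 12),
 (nat_lit 13), (nat_lit 12), (nat_lit 49), (nat_lit 4480), (nat_lit 5609), [(nat_lit 120), (nat_lit 200),
 (nat_lit 300), (nat_lit 450), (nat_lit 800)], [(nat_lit 0), (nat_lit 400), (nat_lit 600), (nat_lit 750),
 (nat_lit 896)], [
    ⟨(nat_lit 3), (nat_lit 338), (nat_lit 178), (Int.ofNat (nat_lit 37)), (Int.ofNat (nat_lit 15484)),
 [(Int.ofNat (nat_lit 626)), (Int.ofNat (nat_lit 1163)), (Int.ofNat (nat_lit 1631)),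
 (Int.ofNat (nat_lit 1921)), (Int.ofNat (nat_lit 1090))], [(Int.ofNat (nat_lit 2478)),
 (Int.ofNat (nat_lit 3573)), (Int.ofNat (nat_lit 4518)), (Int.ofNat (nat_lit 6399)),
 (Int.ofNat (nat_lit 5359))]⟩]⟩
def yB12_10 : BoxB := ⟨xB12_10, [(nat_lit 15), (nat_lit 70), (nat_lit 138), (nat_lit 264), (nat_lit 573)], [(nat_lit 53), (nat_lit 340), (nat_lit 484), (nat_lit 590), (nat_lit 659)]⟩
def xB12_11 : Box := ⟨(nat_lit 152), (nat_lit 156), (nat_lit 152), (nat_lit 160), (nat_lit 12),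
 (nat_lit 13), (nat_lit 12), (nat_lit 60), (nat_lit 4335), (nat_lit 6056), [(nat_lit 120), (nat_lit 200),
 (nat_lit 300), (nat_lit 450), (nat_lit 800)], [(nat_lit 0), (nat_lit 400), (nat_lit 600), (nat_lit 750),
 (nat_lit 867)], [
    ⟨(nat_lit 3), (nat_lit 331), (nat_lit 137), (Int.ofNat (nat_lit 88)), (Int.ofNat (nat_lit 16134)),
 [(Int.ofNat (nat_lit 659)), (Int.ofNat (nat_lit 1116)), (Int.ofNat (nat_lit 1585)),
 (Int.ofNat (nat_lit 1844)), (Int.ofNat (nat_lit 1888))], [(Int.ofNat (nat_lit 2269)),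
 (Int.ofNat (nat_lit 3420)), (Int.ofNat (nat_lit 4401)), (Int.ofNat (nat_lit 5928)),
 (Int.ofNat (nat_lit 5187))]⟩]⟩
def yB12_11 : BoxB := ⟨xB12_11, [(nat_lit 16), (nat_lit 72), (nat_lit 142), (nat_lit 264), (nat_lit 610)], [(nat_lit 60), (nat_lit 338), (nat_lit 482), (nat_lit 586), (nat_lit 642)]⟩
def xB12_12 : Box := ⟨(nat_lit 156), (nat_lit 160), (nat_lit 152), (nat_lit 160), (nat_lit 12),
 (nat_lit 13), (nat_lit 12), (nat_lit 60), (nat_lit 4335), (nat_lit 6478), [(nat_lit 120), (nat_lit 200),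
 (nat_lit 300), (nat_lit 450), (nat_lit 800)], [(nat_lit 0), (nat_lit 400), (nat_lit 600), (nat_lit 750),
 (nat_lit 867)], [
    ⟨(nat_lit 3), (nat_lit 327), (nat_lit 131), (Int.ofNat (nat_lit 0)), (Int.ofNat (nat_lit 16463)),
 [(Int.ofNat (nat_lit 665)), (Int.ofNat (nat_lit 1096)), (Int.ofNat (nat_lit 1495)),
 (Int.ofNat (nat_lit 1738)), (Int.ofNat (nat_lit 1754))], [(Int.ofNat (nat_lit 2367)),
 (Int.ofNat (nat_lit 3518)), (Int.ofNat (nat_lit 4503)), (Int.ofNat (nat_lit 6062)),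
 (Int.ofNat (nat_lit 4837))]⟩]⟩
def yB12_12 : BoxB := ⟨xB12_12, [(nat_lit 18), (nat_lit 76), (nat_lit 145), (nat_lit 274), (nat_lit 597)], [(nat_lit 67), (nat_lit 337), (nat_lit 479), (nat_lit 583), (nat_lit 624)]⟩
def xB12_13 : Box := ⟨(nat_lit 160), (nat_lit 164), (nat_lit 160), (nat_lit 168), (nat_lit 12),
 (nat_lit 13), (nat_lit 12), (nat_lit 60), (nat_lit 4160), (nat_lit 6878), [(nat_lit 120), (nat_lit 200),
 (nat_lit 300), (nat_lit 450), (nat_lit 800)], [(nat_lit 0), (nat_lit 400), (nat_lit 600), (nat_lit 750),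
 (nat_lit 832)], [
    ⟨(nat_lit 3), (nat_lit 339), (nat_lit 130), (Int.ofNat (nat_lit 0)), (Int.ofNat (nat_lit 17827)),
 [(Int.ofNat (nat_lit 683)), (Int.ofNat (nat_lit 1145)), (Int.ofNat (nat_lit 1475)),
 (Int.ofNat (nat_lit 1718)), (Int.ofNat (nat_lit 1778))], [(Int.ofNat (nat_lit 2389)),
 (Int.ofNat (nat_lit 3633)), (Int.ofNat (nat_lit 4691)), (Int.ofNat (nat_lit 5920)),
 (Int.ofNat (nat_lit 5291))]⟩]⟩
def yB12_13 : BoxB := ⟨xB12_13, [(nat_lit 20), (nat_lit 78), (nat_lit 150), (nat_lit 279), (nat_lit 580)], [(nat_lit 73), (nat_lit 336), (nat_lit 475), (nat_lit 580), (nat_lit 605)]⟩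
def xB12_14 : Box := ⟨(nat_lit 164), (nat_lit 168), (nat_lit 160), (nat_lit 168), (nat_lit 12),
 (nat_lit 13), (nat_lit 12), (nat_lit 60), (nat_lit 4160), (nat_lit 7256), [(nat_lit 120), (nat_lit 200),
 (nat_lit 300), (nat_lit 450), (nat_lit 800)], [(nat_lit 0), (nat_lit 400), (nat_lit 600), (nat_lit 750),
 (nat_lit 832)], [
    ⟨(nat_lit 3), (nat_lit 337), (nat_lit 123), (Int.ofNat (nat_lit 0)), (Int.ofNat (nat_lit 18462)),
 [(Int.ofNat (nat_lit 687)), (Int.ofNat (nat_lit 1119)), (Int.ofNat (nat_lit 1364)),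
 (Int.ofNat (nat_lit 1720)), (Int.ofNat (nat_lit 1652))], [(Int.ofNat (nat_lit 2307)),
 (Int.ofNat (nat_lit 3599)), (Int.ofNat (nat_lit 5595)), (Int.ofNat (nat_lit 5639)),
 (Int.negSucc (nat_lit 299999))]⟩]⟩
def yB12_14 : BoxB := ⟨xB12_14, [(nat_lit 22), (nat_lit 82), (nat_lit 155), (nat_lit 285), (nat_lit 562)], [(nat_lit 80), (nat_lit 333), (nat_lit 470), (nat_lit 579), (nat_lit 586)]⟩
def xB12_15 : Box := ⟨(nat_lit 168), (nat_lit 172), (nat_lit 168), (nat_lit 176), (nat_lit 12),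
 (nat_lit 13), (nat_lit 12), (nat_lit 60), (nat_lit 4000), (nat_lit 7614), [(nat_lit 120), (nat_lit 200),
 (nat_lit 300), (nat_lit 450), (nat_lit 800)], [(nat_lit 0), (nat_lit 400), (nat_lit 600), (nat_lit 750),
 (nat_lit 792)], [
    ⟨(nat_lit 3), (nat_lit 338), (nat_lit 127), (Int.ofNat (nat_lit 0)), (Int.ofNat (nat_lit 19504)),
 [(Int.ofNat (nat_lit 684)), (Int.ofNat (nat_lit 1081)), (Int.ofNat (nat_lit 1269)),
 (Int.ofNat (nat_lit 1679)), (Int.ofNat (nat_lit 1328))], [(Int.ofNat (nat_lit 2242)),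
 (Int.ofNat (nat_lit 3597)), (Int.ofNat (nat_lit 5830)), (Int.ofNat (nat_lit 5480)),
 (Int.negSucc (nat_lit 299999))]⟩]⟩
def yB12_15 : BoxB := ⟨xB12_15, [(nat_lit 25), (nat_lit 86), (nat_lit 161), (nat_lit 292), (nat_lit 542)], [(nat_lit 88), (nat_lit 330), (nat_lit 475), (nat_lit 569), (nat_lit 569)]⟩
def xB12_16 : Box := ⟨(nat_lit 172), (nat_lit 176), (nat_lit 168), (nat_lit 176), (nat_lit 12),
 (nat_lit 13), (nat_lit 12), (nat_lit 60), (nat_lit 4000), (nat_lit 8115), [(nat_lit 120), (nat_lit 200),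
 (nat_lit 300), (nat_lit 450), (nat_lit 800)], [(nat_lit 0), (nat_lit 400), (nat_lit 600), (nat_lit 750),
 (nat_lit 792)], [
    ⟨(nat_lit 3), (nat_lit 328), (nat_lit 125), (Int.ofNat (nat_lit 0)), (Int.ofNat (nat_lit 19897)),
 [(Int.ofNat (nat_lit 662)), (Int.ofNat (nat_lit 966)), (Int.ofNat (nat_lit 1125)),
 (Int.ofNat (nat_lit 1737)), (Int.ofNat (nat_lit 891))], [(Int.ofNat (nat_lit 2102)),
 (Int.ofNat (nat_lit 3479)), (Int.ofNat (nat_lit 5636)), (Int.ofNat (nat_lit 5045)),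
 (Int.negSucc (nat_lit 299999))]⟩,
    ⟨(nat_lit 3), (nat_lit 1086), (nat_lit 236), (Int.ofNat (nat_lit 0)), (Int.ofNat (nat_lit 53995)),
 [(Int.ofNat (nat_lit 3362)), (Int.ofNat (nat_lit 3192)), (Int.ofNat (nat_lit 4400)),
 (Int.ofNat (nat_lit 6169)), (Int.ofNat (nat_lit 11016))], [(Int.ofNat (nat_lit 6950)),
 (Int.ofNat (nat_lit 11501)), (Int.ofNat (nat_lit 19206)), (Int.ofNat (nat_lit 16386)),
 (Int.negSucc (nat_lit 299999))]⟩]⟩
def yB12_16 : BoxB := ⟨xB12_16, [(nat_lit 28), (nat_lit 91), (nat_lit 167), (nat_lit 299), (nat_lit 523)], [(nat_lit 95), (nat_lit 326), (nat_lit 473), (nat_lit 548), (nat_lit 548)]⟩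
def xB12_17 : Box := ⟨(nat_lit 176), (nat_lit 180), (nat_lit 176), (nat_lit 184), (nat_lit 12),
 (nat_lit 13), (nat_lit 12), (nat_lit 60), (nat_lit 3715), (nat_lit 8406), [(nat_lit 90), (nat_lit 180),
 (nat_lit 330), (nat_lit 650)], [(nat_lit 0), (nat_lit 400), (nat_lit 600), (nat_lit 743)], [
    ⟨(nat_lit 3), (nat_lit 339), (nat_lit 97), (Int.ofNat (nat_lit 0)), (Int.ofNat (nat_lit 20310)),
 [(Int.ofNat (nat_lit 542)), (Int.ofNat (nat_lit 875)), (Int.ofNat (nat_lit 1453)),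
 (Int.ofNat (nat_lit 2046))], [(Int.ofNat (nat_lit 2090)), (Int.ofNat (nat_lit 3584)),
 (Int.ofNat (nat_lit 5821)), (Int.ofNat (nat_lit 4707))]⟩]⟩
def yB12_17 : BoxB := ⟨xB12_17, [(nat_lit 17), (nat_lit 80), (nat_lit 196), (nat_lit 497)], [(nat_lit 104), (nat_lit 321), (nat_lit 471), (nat_lit 529)]⟩
def xB12_18 : Box := ⟨(nat_lit 180), (nat_lit 184), (nat_lit 176), (nat_lit 184), (nat_lit 12),
 (nat_lit 13), (nat_lit 12), (nat_lit 60), (nat_lit 4458), (nat_lit 8680), [(nat_lit 90), (nat_lit 180),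
 (nat_lit 330), (nat_lit 650)], [(nat_lit 0), (nat_lit 400), (nat_lit 600), (nat_lit 743)], [
    ⟨(nat_lit 3), (nat_lit 352), (nat_lit 113), (Int.ofNat (nat_lit 0)), (Int.ofNat (nat_lit 22113)),
 [(Int.ofNat (nat_lit 547)), (Int.ofNat (nat_lit 827)), (Int.ofNat (nat_lit 1124)),
 (Int.ofNat (nat_lit 1608))], [(Int.ofNat (nat_lit 2078)), (Int.ofNat (nat_lit 3710)),
 (Int.ofNat (nat_lit 5745)), (Int.ofNat (nat_lit 4120))]⟩]⟩
def yB12_18 : BoxB := ⟨xB12_18, [(nat_lit 21), (nat_lit 86), (nat_lit 208), (nat_lit 479)], [(nat_lit 113), (nat_lit 317), (nat_lit 471), (nat_lit 507)]⟩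
def xB12_19 : Box := ⟨(nat_lit 184), (nat_lit 188), (nat_lit 184), (nat_lit 192), (nat_lit 12),
 (nat_lit 13), (nat_lit 12), (nat_lit 60), (nat_lit 4092), (nat_lit 8939), [(nat_lit 90), (nat_lit 180),
 (nat_lit 330), (nat_lit 650)], [(nat_lit 0), (nat_lit 400), (nat_lit 600), (nat_lit 682)], [
    ⟨(nat_lit 3), (nat_lit 360), (nat_lit 123), (Int.ofNat (nat_lit 0)), (Int.ofNat (nat_lit 23519)),
 [(Int.ofNat (nat_lit 554)), (Int.ofNat (nat_lit 720)), (Int.ofNat (nat_lit 954)),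
 (Int.ofNat (nat_lit 1193))], [(Int.ofNat (nat_lit 2021)), (Int.ofNat (nat_lit 3784)),
 (Int.ofNat (nat_lit 5244)), (Int.ofNat (nat_lit 4460))]⟩]⟩
def yB12_19 : BoxB := ⟨xB12_19, [(nat_lit 24), (nat_lit 93), (nat_lit 218), (nat_lit 457)], [(nat_lit 124), (nat_lit 309), (nat_lit 474), (nat_lit 483)]⟩
def xB12_20 : Box := ⟨(nat_lit 188), (nat_lit 192), (nat_lit 184), (nat_lit 192), (nat_lit 12),
 (nat_lit 13), (nat_lit 12), (nat_lit 60), (nat_lit 4092), (nat_lit 9182), [(nat_lit 90), (nat_lit 180),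
 (nat_lit 330), (nat_lit 650)], [(nat_lit 0), (nat_lit 400), (nat_lit 600), (nat_lit 682)], [
    ⟨(nat_lit 3), (nat_lit 356), (nat_lit 110), (Int.ofNat (nat_lit 0)), (Int.ofNat (nat_lit 23705)),
 [(Int.ofNat (nat_lit 560)), (Int.ofNat (nat_lit 622)), (Int.ofNat (nat_lit 1333)),
 (Int.ofNat (nat_lit 1159))], [(Int.ofNat (nat_lit 1807)), (Int.ofNat (nat_lit 3900)),
 (Int.ofNat (nat_lit 5040)), (Int.negSucc (nat_lit 299999))]⟩]⟩
def yB12_20 : BoxB := ⟨xB12_20, [(nat_lit 29), (nat_lit 102), (nat_lit 230), (nat_lit 431)], [(nat_lit 136), (nat_lit 307), (nat_lit 459), (nat_lit 459)]⟩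
def xB12_21 : Box := ⟨(nat_lit 192), (nat_lit 196), (nat_lit 192), (nat_lit 200), (nat_lit 12),
 (nat_lit 13), (nat_lit 12), (nat_lit 60), (nat_lit 3900), (nat_lit 9411), [(nat_lit 90), (nat_lit 180),
 (nat_lit 330), (nat_lit 650)], [(nat_lit 0), (nat_lit 400), (nat_lit 601)], [
    ⟨(nat_lit 3), (nat_lit 313), (nat_lit 92), (Int.ofNat (nat_lit 0)), (Int.ofNat (nat_lit 22000)),
 [(Int.ofNat (nat_lit 503)), (Int.ofNat (nat_lit 438)), (Int.ofNat (nat_lit 1286)),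
 (Int.ofNat (nat_lit 619))], [(Int.ofNat (nat_lit 1167)), (Int.ofNat (nat_lit 3852)),
 (Int.ofNat (nat_lit 4096))]⟩,
    ⟨(nat_lit 3), (nat_lit 1069), (nat_lit 239), (Int.ofNat (nat_lit 0)), (Int.ofNat (nat_lit 66973)),
 [(Int.ofNat (nat_lit 2014)), (Int.ofNat (nat_lit 1904)), (Int.ofNat (nat_lit 3308)),
 (Int.ofNat (nat_lit 7447))], [(Int.ofNat (nat_lit 2994)), (Int.ofNat (nat_lit 14684)),
 (Int.ofNat (nat_lit 12975))]⟩]⟩
def yB12_21 : BoxB := ⟨xB12_21, [(nat_lit 36), (nat_lit 114), (nat_lit 246), (nat_lit 403)], [(nat_lit 153), (nat_lit 301), (nat_lit 430)]⟩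
def xB12_22 : Box := ⟨(nat_lit 196), (nat_lit 200), (nat_lit 192), (nat_lit 200), (nat_lit 12),
 (nat_lit 13), (nat_lit 12), (nat_lit 60), (nat_lit 3900), (nat_lit 9626), [(nat_lit 90), (nat_lit 180),
 (nat_lit 330), (nat_lit 650)], [(nat_lit 0), (nat_lit 400), (nat_lit 601)], [
    ⟨(nat_lit 3), (nat_lit 298), (nat_lit 86), (Int.ofNat (nat_lit 0)), (Int.ofNat (nat_lit 21807)),
 [(Int.ofNat (nat_lit 494)), (Int.ofNat (nat_lit 259)), (Int.ofNat (nat_lit 1092)),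
 (Int.negSucc (nat_lit 350))], [(Int.ofNat (nat_lit 841)), (Int.ofNat (nat_lit 3581)),
 (Int.ofNat (nat_lit 3233))]⟩,
    ⟨(nat_lit 3), (nat_lit 1745), (nat_lit 352), (Int.ofNat (nat_lit 0)), (Int.ofNat (nat_lit 109229)),
 [(Int.ofNat (nat_lit 3905)), (Int.ofNat (nat_lit 2791)), (Int.ofNat (nat_lit 14284)),
 (Int.negSucc (nat_lit 4343))], [(Int.ofNat (nat_lit 4176)), (Int.ofNat (nat_lit 21655)),
 (Int.ofNat (nat_lit 17310))]⟩,
    ⟨(nat_lit 3), (nat_lit 158), (nat_lit 97), (Int.ofNat (nat_lit 9)), (Int.ofNat (nat_lit 15905)),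
 [(Int.ofNat (nat_lit 239)), (Int.negSucc (nat_lit 298)), (Int.ofNat (nat_lit 13108)),
 (Int.negSucc (nat_lit 29999))], [(Int.ofNat (nat_lit 671)), (Int.ofNat (nat_lit 1636)),
 (Int.ofNat (nat_lit 2230))]⟩]⟩
def yB12_22 : BoxB := ⟨xB12_22, [(nat_lit 48), (nat_lit 130), (nat_lit 268), (nat_lit 370)], [(nat_lit 178), (nat_lit 297), (nat_lit 397)]⟩
def xB13_0 : Box := ⟨(nat_lit 108), (nat_lit 112), (nat_lit 104), (nat_lit 112), (nat_lit 13), (nat_lit 14),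
 (nat_lit 12), (nat_lit 1), (nat_lit 3944), (nat_lit 355), [(nat_lit 120), (nat_lit 200), (nat_lit 300),
 (nat_lit 450), (nat_lit 800)], [(nat_lit 0), (nat_lit 400), (nat_lit 600), (nat_lit 750), (nat_lit 986)],
 [
    ⟨(nat_lit 3), (nat_lit 395), (nat_lit 2544), (Int.ofNat (nat_lit 0)), (Int.ofNat (nat_lit 1)),
 [(Int.ofNat (nat_lit 564)), (Int.ofNat (nat_lit 1029)), (Int.ofNat (nat_lit 1709)),
 (Int.ofNat (nat_lit 3271)), (Int.negSucc (nat_lit 273))], [(Int.ofNat (nat_lit 3914)),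
 (Int.ofNat (nat_lit 4685)), (Int.ofNat (nat_lit 5315)), (Int.ofNat (nat_lit 7871)),
 (Int.ofNat (nat_lit 6743))]⟩]⟩
def yB13_0 : BoxB := ⟨xB13_0, [(nat_lit 49), (nat_lit 91), (nat_lit 130), (nat_lit 230), (nat_lit 313)], [(nat_lit 0), (nat_lit 295), (nat_lit 509), (nat_lit 637), (nat_lit 835)]⟩
def xB13_1 : Box := ⟨(nat_lit 112), (nat_lit 116), (nat_lit 112), (nat_lit 120), (nat_lit 13), (nat_lit 14),
 (nat_lit 12), (nat_lit 2), (nat_lit 2925), (nat_lit 380), [(nat_lit 120), (nat_lit 200), (nat_lit 300),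
 (nat_lit 450), (nat_lit 800)], [(nat_lit 0), (nat_lit 400), (nat_lit 600), (nat_lit 750), (nat_lit 975)],
 [
    ⟨(nat_lit 3), (nat_lit 435), (nat_lit 1809), (Int.ofNat (nat_lit 0)), (Int.ofNat (nat_lit 10569)),
 [(Int.ofNat (nat_lit 637)), (Int.ofNat (nat_lit 1161)), (Int.ofNat (nat_lit 1929)),
 (Int.ofNat (nat_lit 3436)), (Int.negSucc (nat_lit 786))], [(Int.ofNat (nat_lit 4236)),
 (Int.ofNat (nat_lit 5133)), (Int.ofNat (nat_lit 5879)), (Int.ofNat (nat_lit 8767)),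
 (Int.ofNat (nat_lit 7541))]⟩]⟩
def yB13_1 : BoxB := ⟨xB13_1, [(nat_lit 43), (nat_lit 83), (nat_lit 123), (nat_lit 235), (nat_lit 321)], [(nat_lit 0), (nat_lit 304), (nat_lit 508), (nat_lit 633), (nat_lit 822)]⟩
def xB13_2 : Box := ⟨(nat_lit 116), (nat_lit 120), (nat_lit 112), (nat_lit 120), (nat_lit 13), (nat_lit 14),
 (nat_lit 12), (nat_lit 4), (nat_lit 3900), (nat_lit 1096), [(nat_lit 120), (nat_lit 200), (nat_lit 300),
 (nat_lit 450), (nat_lit 800)], [(nat_lit 0), (nat_lit 400), (nat_lit 600), (nat_lit 750), (nat_lit 975)],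
 [
    ⟨(nat_lit 3), (nat_lit 435), (nat_lit 1148), (Int.ofNat (nat_lit 0)), (Int.ofNat (nat_lit 11933)),
 [(Int.ofNat (nat_lit 654)), (Int.ofNat (nat_lit 1192)), (Int.ofNat (nat_lit 1979)),
 (Int.ofNat (nat_lit 3400)), (Int.negSucc (nat_lit 1217))], [(Int.ofNat (nat_lit 4166)),
 (Int.ofNat (nat_lit 5108)), (Int.ofNat (nat_lit 5905)), (Int.ofNat (nat_lit 8886)),
 (Int.ofNat (nat_lit 7569))]⟩]⟩
def yB13_2 : BoxB := ⟨xB13_2, [(nat_lit 35), (nat_lit 68), (nat_lit 119), (nat_lit 243), (nat_lit 344)], [(nat_lit 6), (nat_lit 312), (nat_lit 506), (nat_lit 630), (nat_lit 806)]⟩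
def xB13_3 : Box := ⟨(nat_lit 120), (nat_lit 124), (nat_lit 120), (nat_lit 128), (nat_lit 13), (nat_lit 14),
 (nat_lit 12), (nat_lit 6), (nat_lit 3840), (nat_lit 1776), [(nat_lit 120), (nat_lit 200), (nat_lit 300),
 (nat_lit 450), (nat_lit 800)], [(nat_lit 0), (nat_lit 400), (nat_lit 600), (nat_lit 750), (nat_lit 960)],
 [
    ⟨(nat_lit 3), (nat_lit 331), (nat_lit 714), (Int.ofNat (nat_lit 0)), (Int.ofNat (nat_lit 10047)),
 [(Int.ofNat (nat_lit 510)), (Int.ofNat (nat_lit 929)), (Int.ofNat (nat_lit 1740)),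
 (Int.ofNat (nat_lit 2394)), (Int.negSucc (nat_lit 840))], [(Int.ofNat (nat_lit 3113)),
 (Int.ofNat (nat_lit 3870)), (Int.ofNat (nat_lit 4516)), (Int.ofNat (nat_lit 7109)),
 (Int.ofNat (nat_lit 5788))]⟩]⟩
def yB13_3 : BoxB := ⟨xB13_3, [(nat_lit 29), (nat_lit 60), (nat_lit 120), (nat_lit 245), (nat_lit 357)], [(nat_lit 14), (nat_lit 320), (nat_lit 505), (nat_lit 626), (nat_lit 792)]⟩
def xB13_4 : Box := ⟨(nat_lit 124), (nat_lit 128), (nat_lit 120), (nat_lit 128), (nat_lit 13), (nat_lit 14),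
 (nat_lit 12), (nat_lit 9), (nat_lit 3840), (nat_lit 2423), [(nat_lit 120), (nat_lit 200), (nat_lit 300),
 (nat_lit 450), (nat_lit 800)], [(nat_lit 0), (nat_lit 400), (nat_lit 600), (nat_lit 750), (nat_lit 960)],
 [
    ⟨(nat_lit 3), (nat_lit 360), (nat_lit 484), (Int.ofNat (nat_lit 0)), (Int.ofNat (nat_lit 11182)),
 [(Int.ofNat (nat_lit 571)), (Int.ofNat (nat_lit 1040)), (Int.ofNat (nat_lit 1910)),
 (Int.ofNat (nat_lit 2555)), (Int.ofNat (nat_lit 74))], [(Int.ofNat (nat_lit 3310)),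
 (Int.ofNat (nat_lit 5111)), (Int.ofNat (nat_lit 4933)), (Int.ofNat (nat_lit 7455)),
 (Int.ofNat (nat_lit 6338))]⟩]⟩
def yB13_4 : BoxB := ⟨xB13_4, [(nat_lit 21), (nat_lit 58), (nat_lit 124), (nat_lit 245), (nat_lit 379)], [(nat_lit 21), (nat_lit 327), (nat_lit 504), (nat_lit 622), (nat_lit 778)]⟩
def xB13_5 : Box := ⟨(nat_lit 128), (nat_lit 132), (nat_lit 128), (nat_lit 136), (nat_lit 13), (nat_lit 14),
 (nat_lit 12), (nat_lit 13), (nat_lit 3772), (nat_lit 3037), [(nat_lit 120), (nat_lit 200), (nat_lit 300),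
 (nat_lit 450), (nat_lit 800)], [(nat_lit 0), (nat_lit 400), (nat_lit 600), (nat_lit 750), (nat_lit 943)],
 [
    ⟨(nat_lit 3), (nat_lit 365), (nat_lit 441), (Int.ofNat (nat_lit 0)), (Int.ofNat (nat_lit 12316)),
 [(Int.ofNat (nat_lit 592)), (Int.ofNat (nat_lit 1078)), (Int.ofNat (nat_lit 2057)),
 (Int.ofNat (nat_lit 2419)), (Int.ofNat (nat_lit 5))], [(Int.ofNat (nat_lit 3313)),
 (Int.ofNat (nat_lit 4810)), (Int.ofNat (nat_lit 5023)), (Int.ofNat (nat_lit 7453)),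
 (Int.ofNat (nat_lit 6525))]⟩]⟩
def yB13_5 : BoxB := ⟨xB13_5, [(nat_lit 16), (nat_lit 60), (nat_lit 125), (nat_lit 248), (nat_lit 404)], [(nat_lit 28), (nat_lit 335), (nat_lit 502), (nat_lit 619), (nat_lit 763)]⟩
def xB13_6 : Box := ⟨(nat_lit 132), (nat_lit 136), (nat_lit 128), (nat_lit 136), (nat_lit 13), (nat_lit 14),
 (nat_lit 12), (nat_lit 17), (nat_lit 3772), (nat_lit 3619), [(nat_lit 120), (nat_lit 200), (nat_lit 300),
 (nat_lit 450), (nat_lit 800)], [(nat_lit 0), (nat_lit 400), (nat_lit 600), (nat_lit 750), (nat_lit 943)],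
 [
    ⟨(nat_lit 3), (nat_lit 331), (nat_lit 376), (Int.ofNat (nat_lit 0)), (Int.ofNat (nat_lit 12217)),
 [(Int.ofNat (nat_lit 548)), (Int.ofNat (nat_lit 998)), (Int.ofNat (nat_lit 1830)),
 (Int.ofNat (nat_lit 2105)), (Int.negSucc (nat_lit 553))], [(Int.ofNat (nat_lit 2948)),
 (Int.ofNat (nat_lit 3817)), (Int.ofNat (nat_lit 4576)), (Int.ofNat (nat_lit 6823)),
 (Int.ofNat (nat_lit 5879))]⟩]⟩
def yB13_6 : BoxB := ⟨xB13_6, [(nat_lit 13), (nat_lit 61), (nat_lit 128), (nat_lit 250), (nat_lit 423)], [(nat_lit 36), (nat_lit 342), (nat_lit 501), (nat_lit 615), (nat_lit 748)]⟩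
def xB13_7 : Box := ⟨(nat_lit 136), (nat_lit 140), (nat_lit 136), (nat_lit 144), (nat_lit 13), (nat_lit 14),
 (nat_lit 12), (nat_lit 22), (nat_lit 3688), (nat_lit 4172), [(nat_lit 120), (nat_lit 200), (nat_lit 300),
 (nat_lit 450), (nat_lit 800)], [(nat_lit 0), (nat_lit 400), (nat_lit 600), (nat_lit 750), (nat_lit 922)],
 [
    ⟨(nat_lit 3), (nat_lit 317), (nat_lit 329), (Int.ofNat (nat_lit 0)), (Int.ofNat (nat_lit 12674)),
 [(Int.ofNat (nat_lit 537)), (Int.ofNat (nat_lit 975)), (Int.ofNat (nat_lit 1688)),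
 (Int.ofNat (nat_lit 1951)), (Int.negSucc (nat_lit 882))], [(Int.ofNat (nat_lit 2769)),
 (Int.ofNat (nat_lit 3639)), (Int.ofNat (nat_lit 4402)), (Int.ofNat (nat_lit 6549)),
 (Int.ofNat (nat_lit 5676))]⟩]⟩
def yB13_7 : BoxB := ⟨xB13_7, [(nat_lit 12), (nat_lit 63), (nat_lit 130), (nat_lit 253), (nat_lit 447)], [(nat_lit 43), (nat_lit 346), (nat_lit 499), (nat_lit 612), (nat_lit 732)]⟩
def xB13_8 : Box := ⟨(nat_lit 140), (nat_lit 144), (nat_lit 136), (nat_lit 144), (nat_lit 13), (nat_lit 14),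
 (nat_lit 12), (nat_lit 31), (nat_lit 3688), (nat_lit 4697), [(nat_lit 120), (nat_lit 200), (nat_lit 300),
 (nat_lit 450), (nat_lit 800)], [(nat_lit 0), (nat_lit 400), (nat_lit 600), (nat_lit 750), (nat_lit 922)],
 [
    ⟨(nat_lit 3), (nat_lit 315), (nat_lit 260), (Int.ofNat (nat_lit 0)), (Int.ofNat (nat_lit 13407)),
 [(Int.ofNat (nat_lit 548)), (Int.ofNat (nat_lit 995)), (Int.ofNat (nat_lit 1627)),
 (Int.ofNat (nat_lit 1871)), (Int.negSucc (nat_lit 244))], [(Int.ofNat (nat_lit 2697)),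
 (Int.ofNat (nat_lit 3601)), (Int.ofNat (nat_lit 4394)), (Int.ofNat (nat_lit 6537)),
 (Int.ofNat (nat_lit 5544))]⟩]⟩
def yB13_8 : BoxB := ⟨xB13_8, [(nat_lit 13), (nat_lit 65), (nat_lit 132), (nat_lit 257), (nat_lit 495)], [(nat_lit 50), (nat_lit 348), (nat_lit 498), (nat_lit 608), (nat_lit 716)]⟩
def xB13_9 : Box := ⟨(nat_lit 144), (nat_lit 148), (nat_lit 144), (nat_lit 152), (nat_lit 13), (nat_lit 14),
 (nat_lit 12), (nat_lit 38), (nat_lit 4480), (nat_lit 5194), [(nat_lit 120), (nat_lit 200), (nat_lit 300),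
 (nat_lit 450), (nat_lit 800)], [(nat_lit 0), (nat_lit 400), (nat_lit 600), (nat_lit 750), (nat_lit 896)],
 [
    ⟨(nat_lit 3), (nat_lit 321), (nat_lit 227), (Int.ofNat (nat_lit 8)), (Int.ofNat (nat_lit 14415)),
 [(Int.ofNat (nat_lit 572)), (Int.ofNat (nat_lit 1143)), (Int.ofNat (nat_lit 1591)),
 (Int.ofNat (nat_lit 1855)), (Int.negSucc (nat_lit 2))], [(Int.ofNat (nat_lit 2671)),
 (Int.ofNat (nat_lit 3634)), (Int.ofNat (nat_lit 4477)), (Int.ofNat (nat_lit 6382)),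
 (Int.ofNat (nat_lit 5738))]⟩]⟩
def yB13_9 : BoxB := ⟨xB13_9, [(nat_lit 14), (nat_lit 67), (nat_lit 135), (nat_lit 260), (nat_lit 523)], [(nat_lit 57), (nat_lit 348), (nat_lit 496), (nat_lit 604), (nat_lit 701)]⟩
def xB13_10 : Box := ⟨(nat_lit 148), (nat_lit 152), (nat_lit 144), (nat_lit 152), (nat_lit 13),
 (nat_lit 14), (nat_lit 12), (nat_lit 47), (nat_lit 4480), (nat_lit 5666), [(nat_lit 120), (nat_lit 200),
 (nat_lit 300), (nat_lit 450), (nat_lit 800)], [(nat_lit 0), (nat_lit 400), (nat_lit 600), (nat_lit 750),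
 (nat_lit 896)], [
    ⟨(nat_lit 3), (nat_lit 325), (nat_lit 191), (Int.ofNat (nat_lit 4)), (Int.ofNat (nat_lit 15261)),
 [(Int.ofNat (nat_lit 596)), (Int.ofNat (nat_lit 1130)), (Int.ofNat (nat_lit 1560)),
 (Int.ofNat (nat_lit 1809)), (Int.ofNat (nat_lit 540))], [(Int.ofNat (nat_lit 2655)),
 (Int.ofNat (nat_lit 3674)), (Int.ofNat (nat_lit 4563)), (Int.ofNat (nat_lit 6520)),
 (Int.ofNat (nat_lit 5654))]⟩]⟩
def yB13_10 : BoxB := ⟨xB13_10, [(nat_lit 15), (nat_lit 70), (nat_lit 138), (nat_lit 264), (nat_lit 561)], [(nat_lit 64), (nat_lit 348), (nat_lit 495), (nat_lit 601), (nat_lit 684)]⟩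
def xB13_11 : Box := ⟨(nat_lit 152), (nat_lit 156), (nat_lit 152), (nat_lit 160), (nat_lit 13),
 (nat_lit 14), (nat_lit 12), (nat_lit 60), (nat_lit 4335), (nat_lit 6112), [(nat_lit 120), (nat_lit 200),
 (nat_lit 300), (nat_lit 450), (nat_lit 800)], [(nat_lit 0), (nat_lit 400), (nat_lit 600), (nat_lit 750),
 (nat_lit 867)], [
    ⟨(nat_lit 3), (nat_lit 324), (nat_lit 151), (Int.ofNat (nat_lit 84)), (Int.ofNat (nat_lit 16217)),
 [(Int.ofNat (nat_lit 618)), (Int.ofNat (nat_lit 1102)), (Int.ofNat (nat_lit 1531)),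
 (Int.ofNat (nat_lit 1750)), (Int.ofNat (nat_lit 1366))], [(Int.ofNat (nat_lit 2406)),
 (Int.ofNat (nat_lit 3500)), (Int.ofNat (nat_lit 4441)), (Int.ofNat (nat_lit 6080)),
 (Int.ofNat (nat_lit 5511))]⟩]⟩
def yB13_11 : BoxB := ⟨xB13_11, [(nat_lit 16), (nat_lit 72), (nat_lit 142), (nat_lit 264), (nat_lit 610)], [(nat_lit 71), (nat_lit 346), (nat_lit 493), (nat_lit 597), (nat_lit 667)]⟩
def xB13_12 : Box := ⟨(nat_lit 156), (nat_lit 160), (nat_lit 152), (nat_lit 160), (nat_lit 13),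
 (nat_lit 14), (nat_lit 12), (nat_lit 60), (nat_lit 4335), (nat_lit 6535), [(nat_lit 120), (nat_lit 200),
 (nat_lit 300), (nat_lit 450), (nat_lit 800)], [(nat_lit 0), (nat_lit 400), (nat_lit 600), (nat_lit 750),
 (nat_lit 867)], [
    ⟨(nat_lit 3), (nat_lit 336), (nat_lit 135), (Int.ofNat (nat_lit 0)), (Int.ofNat (nat_lit 17015)),
 [(Int.ofNat (nat_lit 676)), (Int.ofNat (nat_lit 1130)), (Int.ofNat (nat_lit 1530)),
 (Int.ofNat (nat_lit 1789)), (Int.ofNat (nat_lit 1775))], [(Int.ofNat (nat_lit 2626)),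
 (Int.ofNat (nat_lit 3779)), (Int.ofNat (nat_lit 4771)), (Int.ofNat (nat_lit 6448)),
 (Int.ofNat (nat_lit 5723))]⟩]⟩
def yB13_12 : BoxB := ⟨xB13_12, [(nat_lit 18), (nat_lit 76), (nat_lit 145), (nat_lit 274), (nat_lit 597)], [(nat_lit 77), (nat_lit 345), (nat_lit 491), (nat_lit 593), (nat_lit 650)]⟩
def xB13_13 : Box := ⟨(nat_lit 160), (nat_lit 164), (nat_lit 160), (nat_lit 168), (nat_lit 13),
 (nat_lit 14), (nat_lit 12), (nat_lit 60), (nat_lit 4160), (nat_lit 6934), [(nat_lit 120), (nat_lit 200),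
 (nat_lit 300), (nat_lit 450), (nat_lit 800)], [(nat_lit 0), (nat_lit 400), (nat_lit 600), (nat_lit 750),
 (nat_lit 832)], [
    ⟨(nat_lit 3), (nat_lit 352), (nat_lit 124), (Int.ofNat (nat_lit 0)), (Int.ofNat (nat_lit 18247)),
 [(Int.ofNat (nat_lit 717)), (Int.ofNat (nat_lit 1190)), (Int.ofNat (nat_lit 1513)),
 (Int.ofNat (nat_lit 1910)), (Int.ofNat (nat_lit 2062))], [(Int.ofNat (nat_lit 2679)),
 (Int.ofNat (nat_lit 3943)), (Int.ofNat (nat_lit 5021)), (Int.ofNat (nat_lit 6496)),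
 (Int.ofNat (nat_lit 6078))]⟩]⟩
def yB13_13 : BoxB := ⟨xB13_13, [(nat_lit 20), (nat_lit 78), (nat_lit 150), (nat_lit 279), (nat_lit 580)], [(nat_lit 85), (nat_lit 342), (nat_lit 489), (nat_lit 590), (nat_lit 631)]⟩
def xB13_14 : Box := ⟨(nat_lit 164), (nat_lit 168), (nat_lit 160), (nat_lit 168), (nat_lit 13),
 (nat_lit 14), (nat_lit 12), (nat_lit 60), (nat_lit 4160), (nat_lit 7312), [(nat_lit 120), (nat_lit 200),
 (nat_lit 300), (nat_lit 450), (nat_lit 800)], [(nat_lit 0), (nat_lit 400), (nat_lit 600), (nat_lit 750),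
 (nat_lit 832)], [
    ⟨(nat_lit 3), (nat_lit 332), (nat_lit 119), (Int.ofNat (nat_lit 0)), (Int.ofNat (nat_lit 18260)),
 [(Int.ofNat (nat_lit 678)), (Int.ofNat (nat_lit 1100)), (Int.ofNat (nat_lit 1348)),
 (Int.ofNat (nat_lit 1774)), (Int.ofNat (nat_lit 1674))], [(Int.ofNat (nat_lit 2457)),
 (Int.ofNat (nat_lit 3706)), (Int.ofNat (nat_lit 4759)), (Int.ofNat (nat_lit 6069)),
 (Int.ofNat (nat_lit 5159))]⟩]⟩
def yB13_14 : BoxB := ⟨xB13_14, [(nat_lit 22), (nat_lit 82), (nat_lit 155), (nat_lit 285), (nat_lit 562)], [(nat_lit 92), (nat_lit 339), (nat_lit 484), (nat_lit 587), (nat_lit 614)]⟩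
def xB13_15 : Box := ⟨(nat_lit 168), (nat_lit 172), (nat_lit 168), (nat_lit 176), (nat_lit 13),
 (nat_lit 14), (nat_lit 12), (nat_lit 60), (nat_lit 4000), (nat_lit 7836), [(nat_lit 120), (nat_lit 200),
 (nat_lit 300), (nat_lit 450), (nat_lit 800)], [(nat_lit 0), (nat_lit 400), (nat_lit 600), (nat_lit 750),
 (nat_lit 792)], [
    ⟨(nat_lit 3), (nat_lit 332), (nat_lit 122), (Int.ofNat (nat_lit 0)), (Int.ofNat (nat_lit 19230)),
 [(Int.ofNat (nat_lit 673)), (Int.ofNat (nat_lit 1059)), (Int.ofNat (nat_lit 1254)),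
 (Int.ofNat (nat_lit 1705)), (Int.ofNat (nat_lit 1397))], [(Int.ofNat (nat_lit 2383)),
 (Int.ofNat (nat_lit 3693)), (Int.ofNat (nat_lit 5675)), (Int.ofNat (nat_lit 5738)),
 (Int.negSucc (nat_lit 299999))]⟩]⟩
def yB13_15 : BoxB := ⟨xB13_15, [(nat_lit 25), (nat_lit 86), (nat_lit 161), (nat_lit 292), (nat_lit 542)], [(nat_lit 99), (nat_lit 335), (nat_lit 479), (nat_lit 586), (nat_lit 593)]⟩
def xB13_16 : Box := ⟨(nat_lit 172), (nat_lit 176), (nat_lit 168), (nat_lit 176), (nat_lit 13),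
 (nat_lit 14), (nat_lit 12), (nat_lit 60), (nat_lit 4000), (nat_lit 8144), [(nat_lit 120), (nat_lit 200),
 (nat_lit 300), (nat_lit 450), (nat_lit 800)], [(nat_lit 0), (nat_lit 400), (nat_lit 600), (nat_lit 750),
 (nat_lit 792)], [
    ⟨(nat_lit 3), (nat_lit 317), (nat_lit 112), (Int.ofNat (nat_lit 0)), (Int.ofNat (nat_lit 19172)),
 [(Int.ofNat (nat_lit 645)), (Int.ofNat (nat_lit 946)), (Int.ofNat (nat_lit 1117)),
 (Int.ofNat (nat_lit 1895)), (Int.ofNat (nat_lit 1153))], [(Int.ofNat (nat_lit 2200)),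
 (Int.ofNat (nat_lit 3515)), (Int.ofNat (nat_lit 5577)), (Int.ofNat (nat_lit 5312)),
 (Int.negSucc (nat_lit 299999))]⟩,
    ⟨(nat_lit 3), (nat_lit 1584), (nat_lit 354), (Int.ofNat (nat_lit 0)), (Int.ofNat (nat_lit 79756)),
 [(Int.ofNat (nat_lit 4325)), (Int.ofNat (nat_lit 4649)), (Int.ofNat (nat_lit 6388)),
 (Int.ofNat (nat_lit 15413)), (Int.ofNat (nat_lit 11994))], [(Int.ofNat (nat_lit 10977)),
 (Int.ofNat (nat_lit 17530)), (Int.ofNat (nat_lit 27268)), (Int.ofNat (nat_lit 26619)),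
 (Int.negSucc (nat_lit 299999))]⟩]⟩
def yB13_16 : BoxB := ⟨xB13_16, [(nat_lit 28), (nat_lit 91), (nat_lit 167), (nat_lit 299), (nat_lit 523)], [(nat_lit 108), (nat_lit 332), (nat_lit 484), (nat_lit 575), (nat_lit 575)]⟩
def xB13_17 : Box := ⟨(nat_lit 176), (nat_lit 180), (nat_lit 176), (nat_lit 184), (nat_lit 13),
 (nat_lit 14), (nat_lit 12), (nat_lit 60), (nat_lit 3715), (nat_lit 8435), [(nat_lit 90), (nat_lit 180),
 (nat_lit 330), (nat_lit 650)], [(nat_lit 0), (nat_lit 400), (nat_lit 600), (nat_lit 743)], [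
    ⟨(nat_lit 3), (nat_lit 349), (nat_lit 100), (Int.ofNat (nat_lit 0)), (Int.ofNat (nat_lit 20924)),
 [(Int.ofNat (nat_lit 558)), (Int.ofNat (nat_lit 900)), (Int.ofNat (nat_lit 1376)),
 (Int.ofNat (nat_lit 2104))], [(Int.ofNat (nat_lit 2333)), (Int.ofNat (nat_lit 3856)),
 (Int.ofNat (nat_lit 6061)), (Int.ofNat (nat_lit 5591))]⟩]⟩
def yB13_17 : BoxB := ⟨xB13_17, [(nat_lit 17), (nat_lit 80), (nat_lit 196), (nat_lit 497)], [(nat_lit 117), (nat_lit 328), (nat_lit 482), (nat_lit 554)]⟩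
def xB13_18 : Box := ⟨(nat_lit 180), (nat_lit 184), (nat_lit 176), (nat_lit 184), (nat_lit 13),
 (nat_lit 14), (nat_lit 12), (nat_lit 60), (nat_lit 4458), (nat_lit 8710), [(nat_lit 90), (nat_lit 180),
 (nat_lit 330), (nat_lit 650)], [(nat_lit 0), (nat_lit 400), (nat_lit 600), (nat_lit 743)], [
    ⟨(nat_lit 3), (nat_lit 357), (nat_lit 107), (Int.ofNat (nat_lit 0)), (Int.ofNat (nat_lit 22264)),
 [(Int.ofNat (nat_lit 564)), (Int.ofNat (nat_lit 839)), (Int.ofNat (nat_lit 1480)),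
 (Int.ofNat (nat_lit 1845))], [(Int.ofNat (nat_lit 2288)), (Int.ofNat (nat_lit 3932)),
 (Int.ofNat (nat_lit 6104)), (Int.ofNat (nat_lit 5215))]⟩]⟩
def yB13_18 : BoxB := ⟨xB13_18, [(nat_lit 21), (nat_lit 86), (nat_lit 208), (nat_lit 479)], [(nat_lit 126), (nat_lit 321), (nat_lit 480), (nat_lit 533)]⟩
def xB13_19 : Box := ⟨(nat_lit 184), (nat_lit 188), (nat_lit 184), (nat_lit 192), (nat_lit 13),
 (nat_lit 14), (nat_lit 12), (nat_lit 60), (nat_lit 4092), (nat_lit 8969), [(nat_lit 90), (nat_lit 180),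
 (nat_lit 330), (nat_lit 650)], [(nat_lit 0), (nat_lit 400), (nat_lit 600), (nat_lit 682)], [
    ⟨(nat_lit 3), (nat_lit 355), (nat_lit 114), (Int.ofNat (nat_lit 0)), (Int.ofNat (nat_lit 23162)),
 [(Int.ofNat (nat_lit 553)), (Int.ofNat (nat_lit 726)), (Int.ofNat (nat_lit 1017)),
 (Int.ofNat (nat_lit 1435))], [(Int.ofNat (nat_lit 2167)), (Int.ofNat (nat_lit 3898)),
 (Int.ofNat (nat_lit 5683)), (Int.ofNat (nat_lit 5090))]⟩]⟩
def yB13_19 : BoxB := ⟨xB13_19, [(nat_lit 24), (nat_lit 93), (nat_lit 218), (nat_lit 457)], [(nat_lit 138), (nat_lit 317), (nat_lit 480), (nat_lit 510)]⟩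
def xB13_20 : Box := ⟨(nat_lit 188), (nat_lit 192), (nat_lit 184), (nat_lit 192), (nat_lit 13),
 (nat_lit 14), (nat_lit 12), (nat_lit 60), (nat_lit 4092), (nat_lit 9212), [(nat_lit 90), (nat_lit 180),
 (nat_lit 330), (nat_lit 650)], [(nat_lit 0), (nat_lit 400), (nat_lit 600), (nat_lit 682)], [
    ⟨(nat_lit 3), (nat_lit 356), (nat_lit 110), (Int.ofNat (nat_lit 0)), (Int.ofNat (nat_lit 23829)),
 [(Int.ofNat (nat_lit 560)), (Int.ofNat (nat_lit 622)), (Int.ofNat (nat_lit 1405)),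
 (Int.ofNat (nat_lit 1122))], [(Int.ofNat (nat_lit 2002)), (Int.ofNat (nat_lit 3986)),
 (Int.ofNat (nat_lit 5240)), (Int.negSucc (nat_lit 299999))]⟩]⟩
def yB13_20 : BoxB := ⟨xB13_20, [(nat_lit 29), (nat_lit 102), (nat_lit 230), (nat_lit 431)], [(nat_lit 152), (nat_lit 315), (nat_lit 485), (nat_lit 485)]⟩
def xB13_21 : Box := ⟨(nat_lit 192), (nat_lit 196), (nat_lit 192), (nat_lit 200), (nat_lit 13),
 (nat_lit 14), (nat_lit 12), (nat_lit 60), (nat_lit 3900), (nat_lit 9441), [(nat_lit 90), (nat_lit 180),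
 (nat_lit 330), (nat_lit 650)], [(nat_lit 0), (nat_lit 400), (nat_lit 601)], [
    ⟨(nat_lit 3), (nat_lit 302), (nat_lit 86), (Int.ofNat (nat_lit 0)), (Int.ofNat (nat_lit 21430)),
 [(Int.ofNat (nat_lit 490)), (Int.ofNat (nat_lit 438)), (Int.ofNat (nat_lit 1337)),
 (Int.ofNat (nat_lit 669))], [(Int.ofNat (nat_lit 1183)), (Int.ofNat (nat_lit 3857)),
 (Int.ofNat (nat_lit 4257))]⟩,
    ⟨(nat_lit 3), (nat_lit 1090), (nat_lit 244), (Int.ofNat (nat_lit 0)), (Int.ofNat (nat_lit 68634)),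
 [(Int.ofNat (nat_lit 2052)), (Int.ofNat (nat_lit 1940)), (Int.ofNat (nat_lit 7199)),
 (Int.ofNat (nat_lit 4008))], [(Int.ofNat (nat_lit 3507)), (Int.ofNat (nat_lit 14865)),
 (Int.ofNat (nat_lit 15001))]⟩]⟩
def yB13_21 : BoxB := ⟨xB13_21, [(nat_lit 36), (nat_lit 114), (nat_lit 246), (nat_lit 403)], [(nat_lit 172), (nat_lit 310), (nat_lit 456)]⟩
def xB13_22 : Box := ⟨(nat_lit 196), (nat_lit 200), (nat_lit 192), (nat_lit 200), (nat_lit 13),
 (nat_lit 14), (nat_lit 12), (nat_lit 60), (nat_lit 3900), (nat_lit 9656), [(nat_lit 90), (nat_lit 180),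
 (nat_lit 330), (nat_lit 650)], [(nat_lit 0), (nat_lit 400), (nat_lit 601)], [
    ⟨(nat_lit 3), (nat_lit 288), (nat_lit 81), (Int.ofNat (nat_lit 0)), (Int.ofNat (nat_lit 21294)),
 [(Int.ofNat (nat_lit 481)), (Int.ofNat (nat_lit 268)), (Int.ofNat (nat_lit 1048)),
 (Int.negSucc (nat_lit 133))], [(Int.ofNat (nat_lit 731)), (Int.ofNat (nat_lit 3666)),
 (Int.ofNat (nat_lit 3587))]⟩,
    ⟨(nat_lit 3), (nat_lit 2576), (nat_lit 550), (Int.ofNat (nat_lit 0)), (Int.ofNat (nat_lit 164108)),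
 [(Int.ofNat (nat_lit 5135)), (Int.ofNat (nat_lit 3860)), (Int.ofNat (nat_lit 27270)),
 (Int.negSucc (nat_lit 21596))], [(Int.ofNat (nat_lit 4350)), (Int.ofNat (nat_lit 34456)),
 (Int.ofNat (nat_lit 29856))]⟩,
    ⟨(nat_lit 3), (nat_lit 215), (nat_lit 92), (Int.ofNat (nat_lit 0)), (Int.ofNat (nat_lit 18319)),
 [(Int.ofNat (nat_lit 334)), (Int.negSucc (nat_lit 67)), (Int.ofNat (nat_lit 14244)),
 (Int.negSucc (nat_lit 29999))], [(Int.ofNat (nat_lit 329)), (Int.ofNat (nat_lit 2913)),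
 (Int.ofNat (nat_lit 2464))]⟩]⟩
def yB13_22 : BoxB := ⟨xB13_22, [(nat_lit 48), (nat_lit 130), (nat_lit 268), (nat_lit 370)], [(nat_lit 201), (nat_lit 308), (nat_lit 422)]⟩
def xB14_0 : Box := ⟨(nat_lit 108), (nat_lit 112), (nat_lit 104), (nat_lit 112), (nat_lit 14), (nat_lit 15),
 (nat_lit 12), (nat_lit 2), (nat_lit 3944), (nat_lit 485), [(nat_lit 120), (nat_lit 200), (nat_lit 300),
 (nat_lit 450), (nat_lit 800)], [(nat_lit 0), (nat_lit 400), (nat_lit 600), (nat_lit 750), (nat_lit 986)],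
 [
    ⟨(nat_lit 3), (nat_lit 344), (nat_lit 1296), (Int.ofNat (nat_lit 0)), (Int.ofNat (nat_lit 1)),
 [(Int.ofNat (nat_lit 493)), (Int.ofNat (nat_lit 899)), (Int.ofNat (nat_lit 1495)),
 (Int.ofNat (nat_lit 2962)), (Int.ofNat (nat_lit 62))], [(Int.ofNat (nat_lit 3639)),
 (Int.ofNat (nat_lit 4259)), (Int.ofNat (nat_lit 4783)), (Int.ofNat (nat_lit 7064)),
 (Int.ofNat (nat_lit 6068))]⟩]⟩
def yB14_0 : BoxB := ⟨xB14_0, [(nat_lit 44), (nat_lit 85), (nat_lit 124), (nat_lit 232), (nat_lit 339)], [(nat_lit 1), (nat_lit 314), (nat_lit 520), (nat_lit 643), (nat_lit 850)]⟩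
def xB14_1 : Box := ⟨(nat_lit 112), (nat_lit 116), (nat_lit 112), (nat_lit 120), (nat_lit 14), (nat_lit 15),
 (nat_lit 12), (nat_lit 2), (nat_lit 3900), (nat_lit 509), [(nat_lit 120), (nat_lit 200), (nat_lit 300),
 (nat_lit 450), (nat_lit 800)], [(nat_lit 0), (nat_lit 400), (nat_lit 600), (nat_lit 750), (nat_lit 975)],
 [
    ⟨(nat_lit 3), (nat_lit 614), (nat_lit 2882), (Int.ofNat (nat_lit 0)), (Int.ofNat (nat_lit 16153)),
 [(Int.ofNat (nat_lit 898)), (Int.ofNat (nat_lit 1637)), (Int.ofNat (nat_lit 2719)),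
 (Int.ofNat (nat_lit 4928)), (Int.negSucc (nat_lit 2441))], [(Int.ofNat (nat_lit 6390)),
 (Int.ofNat (nat_lit 7558)), (Int.ofNat (nat_lit 8567)), (Int.ofNat (nat_lit 11896)),
 (Int.ofNat (nat_lit 11086))]⟩]⟩
def yB14_1 : BoxB := ⟨xB14_1, [(nat_lit 43), (nat_lit 83), (nat_lit 123), (nat_lit 235), (nat_lit 321)], [(nat_lit 9), (nat_lit 322), (nat_lit 519), (nat_lit 637), (nat_lit 834)]⟩
def xB14_2 : Box := ⟨(nat_lit 116), (nat_lit 120), (nat_lit 112), (nat_lit 120), (nat_lit 14), (nat_lit 15),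
 (nat_lit 12), (nat_lit 4), (nat_lit 3900), (nat_lit 1223), [(nat_lit 120), (nat_lit 200), (nat_lit 300),
 (nat_lit 450), (nat_lit 800)], [(nat_lit 0), (nat_lit 400), (nat_lit 600), (nat_lit 750), (nat_lit 975)],
 [
    ⟨(nat_lit 3), (nat_lit 282), (nat_lit 676), (Int.ofNat (nat_lit 0)), (Int.ofNat (nat_lit 8005)),
 [(Int.ofNat (nat_lit 425)), (Int.ofNat (nat_lit 774)), (Int.ofNat (nat_lit 1286)),
 (Int.ofNat (nat_lit 2205)), (Int.negSucc (nat_lit 463))], [(Int.ofNat (nat_lit 2887)),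
 (Int.ofNat (nat_lit 3459)), (Int.ofNat (nat_lit 3958)), (Int.ofNat (nat_lit 6379)),
 (Int.ofNat (nat_lit 5045))]⟩]⟩
def yB14_2 : BoxB := ⟨xB14_2, [(nat_lit 35), (nat_lit 68), (nat_lit 119), (nat_lit 243), (nat_lit 344)], [(nat_lit 17), (nat_lit 330), (nat_lit 517), (nat_lit 639), (nat_lit 826)]⟩
def xB14_3 : Box := ⟨(nat_lit 120), (nat_lit 124), (nat_lit 120), (nat_lit 128), (nat_lit 14), (nat_lit 15),
 (nat_lit 12), (nat_lit 7), (nat_lit 3840), (nat_lit 1902), [(nat_lit 120), (nat_lit 200), (nat_lit 300),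
 (nat_lit 450), (nat_lit 800)], [(nat_lit 0), (nat_lit 400), (nat_lit 600), (nat_lit 750), (nat_lit 960)],
 [
    ⟨(nat_lit 3), (nat_lit 372), (nat_lit 755), (Int.ofNat (nat_lit 0)), (Int.ofNat (nat_lit 11570)),
 [(Int.ofNat (nat_lit 574)), (Int.ofNat (nat_lit 1045)), (Int.ofNat (nat_lit 1929)),
 (Int.ofNat (nat_lit 2703)), (Int.negSucc (nat_lit 687))], [(Int.ofNat (nat_lit 3731)),
 (Int.ofNat (nat_lit 5214)), (Int.ofNat (nat_lit 5241)), (Int.ofNat (nat_lit 7791)),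
 (Int.ofNat (nat_lit 6840))]⟩]⟩
def yB14_3 : BoxB := ⟨xB14_3, [(nat_lit 27), (nat_lit 59), (nat_lit 121), (nat_lit 244), (nat_lit 371)], [(nat_lit 24), (nat_lit 338), (nat_lit 516), (nat_lit 632), (nat_lit 808)]⟩
def xB14_4 : Box := ⟨(nat_lit 124), (nat_lit 128), (nat_lit 120), (nat_lit 128), (nat_lit 14), (nat_lit 15),
 (nat_lit 12), (nat_lit 10), (nat_lit 3840), (nat_lit 2546), [(nat_lit 120), (nat_lit 200), (nat_lit 300),
 (nat_lit 450), (nat_lit 800)], [(nat_lit 0), (nat_lit 400), (nat_lit 600), (nat_lit 750), (nat_lit 960)],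
 [
    ⟨(nat_lit 3), (nat_lit 346), (nat_lit 488), (Int.ofNat (nat_lit 0)), (Int.ofNat (nat_lit 11202)),
 [(Int.ofNat (nat_lit 548)), (Int.ofNat (nat_lit 998)), (Int.ofNat (nat_lit 1898)),
 (Int.ofNat (nat_lit 2412)), (Int.ofNat (nat_lit 45))], [(Int.ofNat (nat_lit 3696)),
 (Int.ofNat (nat_lit 4204)), (Int.ofNat (nat_lit 4896)), (Int.ofNat (nat_lit 7387)),
 (Int.ofNat (nat_lit 6359))]⟩]⟩
def yB14_4 : BoxB := ⟨xB14_4, [(nat_lit 19), (nat_lit 58), (nat_lit 124), (nat_lit 245), (nat_lit 389)], [(nat_lit 32), (nat_lit 345), (nat_lit 514), (nat_lit 633), (nat_lit 798)]⟩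
def xB14_5 : Box := ⟨(nat_lit 128), (nat_lit 132), (nat_lit 128), (nat_lit 136), (nat_lit 14), (nat_lit 15),
 (nat_lit 12), (nat_lit 13), (nat_lit 3772), (nat_lit 3157), [(nat_lit 120), (nat_lit 200), (nat_lit 300),
 (nat_lit 450), (nat_lit 800)], [(nat_lit 0), (nat_lit 400), (nat_lit 600), (nat_lit 750), (nat_lit 943)],
 [
    ⟨(nat_lit 3), (nat_lit 344), (nat_lit 434), (Int.ofNat (nat_lit 0)), (Int.ofNat (nat_lit 12061)),
 [(Int.ofNat (nat_lit 558)), (Int.ofNat (nat_lit 1015)), (Int.ofNat (nat_lit 1987)),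
 (Int.ofNat (nat_lit 2247)), (Int.negSucc (nat_lit 75))], [(Int.ofNat (nat_lit 3363)),
 (Int.ofNat (nat_lit 4161)), (Int.ofNat (nat_lit 4889)), (Int.ofNat (nat_lit 7235)),
 (Int.ofNat (nat_lit 6415))]⟩]⟩
def yB14_5 : BoxB := ⟨xB14_5, [(nat_lit 16), (nat_lit 60), (nat_lit 125), (nat_lit 248), (nat_lit 404)], [(nat_lit 39), (nat_lit 353), (nat_lit 513), (nat_lit 625), (nat_lit 781)]⟩
def xB14_6 : Box := ⟨(nat_lit 132), (nat_lit 136), (nat_lit 128), (nat_lit 136), (nat_lit 14), (nat_lit 15),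
 (nat_lit 12), (nat_lit 17), (nat_lit 3772), (nat_lit 3737), [(nat_lit 120), (nat_lit 200), (nat_lit 300),
 (nat_lit 450), (nat_lit 800)], [(nat_lit 0), (nat_lit 400), (nat_lit 600), (nat_lit 750), (nat_lit 943)],
 [
    ⟨(nat_lit 3), (nat_lit 337), (nat_lit 386), (Int.ofNat (nat_lit 0)), (Int.ofNat (nat_lit 12771)),
 [(Int.ofNat (nat_lit 558)), (Int.ofNat (nat_lit 1015)), (Int.ofNat (nat_lit 1864)),
 (Int.ofNat (nat_lit 2142)), (Int.negSucc (nat_lit 612))], [(Int.ofNat (nat_lit 3217)),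
 (Int.ofNat (nat_lit 4059)), (Int.ofNat (nat_lit 4810)), (Int.ofNat (nat_lit 7051)),
 (Int.ofNat (nat_lit 6287))]⟩]⟩
def yB14_6 : BoxB := ⟨xB14_6, [(nat_lit 13), (nat_lit 61), (nat_lit 128), (nat_lit 250), (nat_lit 423)], [(nat_lit 46), (nat_lit 356), (nat_lit 511), (nat_lit 626), (nat_lit 769)]⟩
def xB14_7 : Box := ⟨(nat_lit 136), (nat_lit 140), (nat_lit 136), (nat_lit 144), (nat_lit 14), (nat_lit 15),
 (nat_lit 12), (nat_lit 22), (nat_lit 3688), (nat_lit 4287), [(nat_lit 120), (nat_lit 200), (nat_lit 300),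
 (nat_lit 450), (nat_lit 800)], [(nat_lit 0), (nat_lit 400), (nat_lit 600), (nat_lit 750), (nat_lit 922)],
 [
    ⟨(nat_lit 3), (nat_lit 317), (nat_lit 338), (Int.ofNat (nat_lit 0)), (Int.ofNat (nat_lit 13052)),
 [(Int.ofNat (nat_lit 536)), (Int.ofNat (nat_lit 974)), (Int.ofNat (nat_lit 1690)),
 (Int.ofNat (nat_lit 1943)), (Int.negSucc (nat_lit 1034))], [(Int.ofNat (nat_lit 2970)),
 (Int.ofNat (nat_lit 3802)), (Int.ofNat (nat_lit 4545)), (Int.ofNat (nat_lit 6671)),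
 (Int.ofNat (nat_lit 5973))]⟩]⟩
def yB14_7 : BoxB := ⟨xB14_7, [(nat_lit 12), (nat_lit 63), (nat_lit 130), (nat_lit 253), (nat_lit 447)], [(nat_lit 53), (nat_lit 357), (nat_lit 510), (nat_lit 619), (nat_lit 752)]⟩
def xB14_8 : Box := ⟨(nat_lit 140), (nat_lit 144), (nat_lit 136), (nat_lit 144), (nat_lit 14), (nat_lit 15),
 (nat_lit 12), (nat_lit 30), (nat_lit 3688), (nat_lit 4809), [(nat_lit 120), (nat_lit 200), (nat_lit 300),
 (nat_lit 450), (nat_lit 800)], [(nat_lit 0), (nat_lit 400), (nat_lit 600), (nat_lit 750), (nat_lit 922)],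
 [
    ⟨(nat_lit 3), (nat_lit 316), (nat_lit 271), (Int.ofNat (nat_lit 0)), (Int.ofNat (nat_lit 13807)),
 [(Int.ofNat (nat_lit 548)), (Int.ofNat (nat_lit 1177)), (Int.ofNat (nat_lit 1608)),
 (Int.ofNat (nat_lit 1917)), (Int.negSucc (nat_lit 566))], [(Int.ofNat (nat_lit 2903)),
 (Int.ofNat (nat_lit 3774)), (Int.ofNat (nat_lit 4550)), (Int.ofNat (nat_lit 6680)),
 (Int.ofNat (nat_lit 5906))]⟩]⟩
def yB14_8 : BoxB := ⟨xB14_8, [(nat_lit 13), (nat_lit 65), (nat_lit 132), (nat_lit 257), (nat_lit 488)], [(nat_lit 60), (nat_lit 357), (nat_lit 508), (nat_lit 619), (nat_lit 738)]⟩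
def xB14_9 : Box := ⟨(nat_lit 144), (nat_lit 148), (nat_lit 144), (nat_lit 152), (nat_lit 14), (nat_lit 15),
 (nat_lit 12), (nat_lit 37), (nat_lit 4480), (nat_lit 5303), [(nat_lit 120), (nat_lit 200), (nat_lit 300),
 (nat_lit 450), (nat_lit 800)], [(nat_lit 0), (nat_lit 400), (nat_lit 600), (nat_lit 750), (nat_lit 896)],
 [
    ⟨(nat_lit 3), (nat_lit 320), (nat_lit 237), (Int.ofNat (nat_lit 0)), (Int.ofNat (nat_lit 14701)),
 [(Int.ofNat (nat_lit 569)), (Int.ofNat (nat_lit 1069)), (Int.ofNat (nat_lit 1587)),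
 (Int.ofNat (nat_lit 1828)), (Int.negSucc (nat_lit 230))], [(Int.ofNat (nat_lit 2880)),
 (Int.ofNat (nat_lit 3806)), (Int.ofNat (nat_lit 4627)), (Int.ofNat (nat_lit 6612)),
 (Int.ofNat (nat_lit 6050))]⟩]⟩
def yB14_9 : BoxB := ⟨xB14_9, [(nat_lit 14), (nat_lit 67), (nat_lit 135), (nat_lit 260), (nat_lit 519)], [(nat_lit 67), (nat_lit 357), (nat_lit 507), (nat_lit 614), (nat_lit 721)]⟩
def xB14_10 : Box := ⟨(nat_lit 148), (nat_lit 152), (nat_lit 144), (nat_lit 152), (nat_lit 14),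
 (nat_lit 15), (nat_lit 12), (nat_lit 45), (nat_lit 4480), (nat_lit 5771), [(nat_lit 120), (nat_lit 200),
 (nat_lit 300), (nat_lit 450), (nat_lit 800)], [(nat_lit 0), (nat_lit 400), (nat_lit 600), (nat_lit 750),
 (nat_lit 896)], [
    ⟨(nat_lit 3), (nat_lit 305), (nat_lit 203), (Int.ofNat (nat_lit 0)), (Int.ofNat (nat_lit 15002)),
 [(Int.ofNat (nat_lit 554)), (Int.ofNat (nat_lit 1064)), (Int.ofNat (nat_lit 1462)),
 (Int.ofNat (nat_lit 1635)), (Int.negSucc (nat_lit 59))], [(Int.ofNat (nat_lit 2620)),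
 (Int.ofNat (nat_lit 5306)), (Int.ofNat (nat_lit 4430)), (Int.ofNat (nat_lit 6378)),
 (Int.ofNat (nat_lit 5664))]⟩,
    ⟨(nat_lit 3), (nat_lit 363), (nat_lit 193), (Int.ofNat (nat_lit 0)), (Int.ofNat (nat_lit 16749)),
 [(Int.ofNat (nat_lit 671)), (Int.ofNat (nat_lit 1227)), (Int.ofNat (nat_lit 1777)),
 (Int.ofNat (nat_lit 2019)), (Int.ofNat (nat_lit 1231))], [(Int.ofNat (nat_lit 3190)),
 (Int.ofNat (nat_lit 4482)), (Int.ofNat (nat_lit 5270)), (Int.ofNat (nat_lit 6280)),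
 (Int.ofNat (nat_lit 7186))]⟩,
    ⟨(nat_lit 3), (nat_lit 206), (nat_lit 219), (Int.ofNat (nat_lit 0)), (Int.ofNat (nat_lit 11996)),
 [(Int.ofNat (nat_lit 368)), (Int.ofNat (nat_lit 734)), (Int.ofNat (nat_lit 979)),
 (Int.ofNat (nat_lit 1087)), (Int.negSucc (nat_lit 2294))], [(Int.ofNat (nat_lit 1816)),
 (Int.ofNat (nat_lit 2443)), (Int.ofNat (nat_lit 2995)), (Int.ofNat (nat_lit 4592)),
 (Int.ofNat (nat_lit 3753))]⟩]⟩
def yB14_10 : BoxB := ⟨xB14_10, [(nat_lit 15), (nat_lit 70), (nat_lit 138), (nat_lit 264), (nat_lit 550)], [(nat_lit 75), (nat_lit 356), (nat_lit 505), (nat_lit 611), (nat_lit 708)]⟩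
def xB14_11 : Box := ⟨(nat_lit 152), (nat_lit 156), (nat_lit 152), (nat_lit 160), (nat_lit 14),
 (nat_lit 15), (nat_lit 12), (nat_lit 58), (nat_lit 4245), (nat_lit 6215), [(nat_lit 120), (nat_lit 200),
 (nat_lit 300), (nat_lit 450), (nat_lit 800)], [(nat_lit 0), (nat_lit 400), (nat_lit 600), (nat_lit 750),
 (nat_lit 849)], [
    ⟨(nat_lit 3), (nat_lit 312), (nat_lit 161), (Int.ofNat (nat_lit 0)), (Int.ofNat (nat_lit 15929)),
 [(Int.ofNat (nat_lit 588)), (Int.ofNat (nat_lit 1072)), (Int.ofNat (nat_lit 1459)),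
 (Int.ofNat (nat_lit 1638)), (Int.ofNat (nat_lit 876))], [(Int.ofNat (nat_lit 2687)),
 (Int.ofNat (nat_lit 3682)), (Int.ofNat (nat_lit 4551)), (Int.ofNat (nat_lit 6043)),
 (Int.ofNat (nat_lit 5925))]⟩,
    ⟨(nat_lit 3), (nat_lit 1189), (nat_lit 285), (Int.ofNat (nat_lit 0)), (Int.ofNat (nat_lit 51106)),
 [(Int.ofNat (nat_lit 3017)), (Int.ofNat (nat_lit 4090)), (Int.ofNat (nat_lit 5561)),
 (Int.ofNat (nat_lit 7766)), (Int.ofNat (nat_lit 11354))], [(Int.ofNat (nat_lit 10227)),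
 (Int.ofNat (nat_lit 14008)), (Int.ofNat (nat_lit 17314)), (Int.ofNat (nat_lit 20465)),
 (Int.ofNat (nat_lit 22820))]⟩]⟩
def yB14_11 : BoxB := ⟨xB14_11, [(nat_lit 17), (nat_lit 72), (nat_lit 142), (nat_lit 269), (nat_lit 598)], [(nat_lit 82), (nat_lit 353), (nat_lit 504), (nat_lit 600), (nat_lit 682)]⟩
def xB14_12 : Box := ⟨(nat_lit 156), (nat_lit 160), (nat_lit 152), (nat_lit 160), (nat_lit 14),
 (nat_lit 15), (nat_lit 12), (nat_lit 60), (nat_lit 4335), (nat_lit 6634), [(nat_lit 120), (nat_lit 200),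
 (nat_lit 300), (nat_lit 450), (nat_lit 800)], [(nat_lit 0), (nat_lit 400), (nat_lit 600), (nat_lit 750),
 (nat_lit 867)], [
    ⟨(nat_lit 3), (nat_lit 306), (nat_lit 146), (Int.ofNat (nat_lit 0)), (Int.ofNat (nat_lit 16381)),
 [(Int.ofNat (nat_lit 599)), (Int.ofNat (nat_lit 1030)), (Int.ofNat (nat_lit 1388)),
 (Int.ofNat (nat_lit 1502)), (Int.ofNat (nat_lit 1007))], [(Int.ofNat (nat_lit 2573)),
 (Int.ofNat (nat_lit 3597)), (Int.ofNat (nat_lit 4483)), (Int.ofNat (nat_lit 6137)),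
 (Int.ofNat (nat_lit 5611))]⟩,
    ⟨(nat_lit 3), (nat_lit 1245), (nat_lit 291), (Int.ofNat (nat_lit 0)), (Int.ofNat (nat_lit 56003)),
 [(Int.ofNat (nat_lit 3366)), (Int.ofNat (nat_lit 4209)), (Int.ofNat (nat_lit 5684)),
 (Int.ofNat (nat_lit 10974)), (Int.ofNat (nat_lit 11779))], [(Int.ofNat (nat_lit 10454)),
 (Int.ofNat (nat_lit 14611)), (Int.ofNat (nat_lit 18208)), (Int.ofNat (nat_lit 24065)),
 (Int.ofNat (nat_lit 23175))]⟩]⟩
def yB14_12 : BoxB := ⟨xB14_12, [(nat_lit 18), (nat_lit 76), (nat_lit 145), (nat_lit 274), (nat_lit 597)], [(nat_lit 89), (nat_lit 351), (nat_lit 502), (nat_lit 604), (nat_lit 675)]⟩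
def xB14_13 : Box := ⟨(nat_lit 160), (nat_lit 164), (nat_lit 160), (nat_lit 168), (nat_lit 14),
 (nat_lit 15), (nat_lit 12), (nat_lit 60), (nat_lit 4065), (nat_lit 7051), [(nat_lit 120), (nat_lit 200),
 (nat_lit 300), (nat_lit 450), (nat_lit 800)], [(nat_lit 0), (nat_lit 400), (nat_lit 600), (nat_lit 750),
 (nat_lit 813)], [
    ⟨(nat_lit 3), (nat_lit 318), (nat_lit 139), (Int.ofNat (nat_lit 0)), (Int.ofNat (nat_lit 17563)),
 [(Int.ofNat (nat_lit 638)), (Int.ofNat (nat_lit 1058)), (Int.ofNat (nat_lit 1356)),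
 (Int.ofNat (nat_lit 1524)), (Int.ofNat (nat_lit 1098))], [(Int.ofNat (nat_lit 2606)),
 (Int.ofNat (nat_lit 3724)), (Int.ofNat (nat_lit 4679)), (Int.ofNat (nat_lit 5705)),
 (Int.ofNat (nat_lit 5950))]⟩,
    ⟨(nat_lit 3), (nat_lit 1205), (nat_lit 277), (Int.ofNat (nat_lit 0)), (Int.ofNat (nat_lit 55699)),
 [(Int.ofNat (nat_lit 3402)), (Int.ofNat (nat_lit 3921)), (Int.ofNat (nat_lit 5392)),
 (Int.ofNat (nat_lit 7333)), (Int.ofNat (nat_lit 11838))], [(Int.ofNat (nat_lit 9862)),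
 (Int.ofNat (nat_lit 14089)), (Int.ofNat (nat_lit 17702)), (Int.ofNat (nat_lit 21137)),
 (Int.ofNat (nat_lit 22738))]⟩]⟩
def yB14_13 : BoxB := ⟨xB14_13, [(nat_lit 20), (nat_lit 78), (nat_lit 150), (nat_lit 279), (nat_lit 580)], [(nat_lit 96), (nat_lit 348), (nat_lit 501), (nat_lit 596), (nat_lit 651)]⟩
def xB14_14 : Box := ⟨(nat_lit 164), (nat_lit 168), (nat_lit 160), (nat_lit 168), (nat_lit 14),
 (nat_lit 15), (nat_lit 12), (nat_lit 60), (nat_lit 4160), (nat_lit 7577), [(nat_lit 120), (nat_lit 200),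
 (nat_lit 300), (nat_lit 450), (nat_lit 800)], [(nat_lit 0), (nat_lit 400), (nat_lit 600), (nat_lit 750),
 (nat_lit 832)], [
    ⟨(nat_lit 3), (nat_lit 283), (nat_lit 139), (Int.ofNat (nat_lit 0)), (Int.ofNat (nat_lit 17096)),
 [(Int.ofNat (nat_lit 570)), (Int.ofNat (nat_lit 925)), (Int.ofNat (nat_lit 1092)),
 (Int.ofNat (nat_lit 1117)), (Int.ofNat (nat_lit 260))], [(Int.ofNat (nat_lit 2256)),
 (Int.ofNat (nat_lit 3303)), (Int.ofNat (nat_lit 4184)), (Int.ofNat (nat_lit 5503)),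
 (Int.ofNat (nat_lit 4959))]⟩,
    ⟨(nat_lit 3), (nat_lit 586), (nat_lit 190), (Int.ofNat (nat_lit 0)), (Int.ofNat (nat_lit 30490)),
 [(Int.ofNat (nat_lit 1222)), (Int.ofNat (nat_lit 1886)), (Int.ofNat (nat_lit 2429)),
 (Int.ofNat (nat_lit 3599)), (Int.ofNat (nat_lit 3583))], [(Int.ofNat (nat_lit 4668)),
 (Int.ofNat (nat_lit 6831)), (Int.ofNat (nat_lit 8653)), (Int.ofNat (nat_lit 11089)),
 (Int.ofNat (nat_lit 10533))]⟩,
    ⟨(nat_lit 3), (nat_lit 224), (nat_lit 150), (Int.ofNat (nat_lit 0)), (Int.ofNat (nat_lit 15116)),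
 [(Int.ofNat (nat_lit 452)), (Int.ofNat (nat_lit 727)), (Int.ofNat (nat_lit 815)),
 (Int.ofNat (nat_lit 540)), (Int.negSucc (nat_lit 1025))], [(Int.ofNat (nat_lit 1787)),
 (Int.ofNat (nat_lit 2616)), (Int.ofNat (nat_lit 3314)), (Int.ofNat (nat_lit 4418)),
 (Int.ofNat (nat_lit 3871))]⟩]⟩
def yB14_14 : BoxB := ⟨xB14_14, [(nat_lit 22), (nat_lit 82), (nat_lit 155), (nat_lit 285), (nat_lit 562)], [(nat_lit 104), (nat_lit 345), (nat_lit 498), (nat_lit 597), (nat_lit 637)]⟩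
def xB14_15 : Box := ⟨(nat_lit 168), (nat_lit 172), (nat_lit 168), (nat_lit 176), (nat_lit 14),
 (nat_lit 15), (nat_lit 12), (nat_lit 60), (nat_lit 4000), (nat_lit 7901), [(nat_lit 120), (nat_lit 200),
 (nat_lit 300), (nat_lit 450), (nat_lit 800)], [(nat_lit 0), (nat_lit 400), (nat_lit 600), (nat_lit 750),
 (nat_lit 792)], [
    ⟨(nat_lit 3), (nat_lit 332), (nat_lit 125), (Int.ofNat (nat_lit 0)), (Int.ofNat (nat_lit 19473)),
 [(Int.ofNat (nat_lit 672)), (Int.ofNat (nat_lit 1060)), (Int.ofNat (nat_lit 1246)),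
 (Int.ofNat (nat_lit 1661)), (Int.ofNat (nat_lit 1289))], [(Int.ofNat (nat_lit 2523)),
 (Int.ofNat (nat_lit 4116)), (Int.ofNat (nat_lit 4930)), (Int.ofNat (nat_lit 6112)),
 (Int.ofNat (nat_lit 5941))]⟩,
    ⟨(nat_lit 3), (nat_lit 243), (nat_lit 138), (Int.ofNat (nat_lit 0)), (Int.ofNat (nat_lit 16304)),
 [(Int.ofNat (nat_lit 488)), (Int.ofNat (nat_lit 775)), (Int.ofNat (nat_lit 790)),
 (Int.ofNat (nat_lit 662)), (Int.negSucc (nat_lit 688))], [(Int.ofNat (nat_lit 1881)),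
 (Int.ofNat (nat_lit 2827)), (Int.ofNat (nat_lit 3611)), (Int.ofNat (nat_lit 4517)),
 (Int.ofNat (nat_lit 4308))]⟩,
    ⟨(nat_lit 3), (nat_lit 1192), (nat_lit 263), (Int.ofNat (nat_lit 0)), (Int.ofNat (nat_lit 58423)),
 [(Int.ofNat (nat_lit 3689)), (Int.ofNat (nat_lit 3642)), (Int.ofNat (nat_lit 5021)),
 (Int.ofNat (nat_lit 11900)), (Int.ofNat (nat_lit 10018))], [(Int.ofNat (nat_lit 9211)),
 (Int.ofNat (nat_lit 13836)), (Int.ofNat (nat_lit 17674)), (Int.ofNat (nat_lit 21767)),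
 (Int.ofNat (nat_lit 21463))]⟩]⟩
def yB14_15 : BoxB := ⟨xB14_15, [(nat_lit 25), (nat_lit 86), (nat_lit 161), (nat_lit 292), (nat_lit 542)], [(nat_lit 112), (nat_lit 341), (nat_lit 493), (nat_lit 594), (nat_lit 618)]⟩
def xB14_16 : Box := ⟨(nat_lit 172), (nat_lit 176), (nat_lit 168), (nat_lit 176), (nat_lit 14),
 (nat_lit 15), (nat_lit 12), (nat_lit 60), (nat_lit 4000), (nat_lit 8207), [(nat_lit 120), (nat_lit 200),
 (nat_lit 300), (nat_lit 450), (nat_lit 800)], [(nat_lit 0), (nat_lit 400), (nat_lit 600), (nat_lit 770)],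
 [
    ⟨(nat_lit 3), (nat_lit 267), (nat_lit 125), (Int.ofNat (nat_lit 0)), (Int.ofNat (nat_lit 17663)),
 [(Int.ofNat (nat_lit 531)), (Int.ofNat (nat_lit 809)), (Int.ofNat (nat_lit 825)),
 (Int.ofNat (nat_lit 959)), (Int.negSucc (nat_lit 104))], [(Int.ofNat (nat_lit 2000)),
 (Int.ofNat (nat_lit 3095)), (Int.ofNat (nat_lit 5253)), (Int.ofNat (nat_lit 4678))]⟩,
    ⟨(nat_lit 3), (nat_lit 391), (nat_lit 145), (Int.ofNat (nat_lit 0)), (Int.ofNat (nat_lit 23324)),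
 [(Int.ofNat (nat_lit 791)), (Int.ofNat (nat_lit 1147)), (Int.ofNat (nat_lit 1357)),
 (Int.ofNat (nat_lit 2185)), (Int.ofNat (nat_lit 1183))], [(Int.ofNat (nat_lit 2927)),
 (Int.ofNat (nat_lit 4528)), (Int.ofNat (nat_lit 7245)), (Int.ofNat (nat_lit 6918))]⟩]⟩
def yB14_16 : BoxB := ⟨xB14_16, [(nat_lit 28), (nat_lit 91), (nat_lit 167), (nat_lit 299), (nat_lit 523)], [(nat_lit 121), (nat_lit 338), (nat_lit 495), (nat_lit 599)]⟩
def xB14_17 : Box := ⟨(nat_lit 176), (nat_lit 180), (nat_lit 176), (nat_lit 184), (nat_lit 14),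
 (nat_lit 15), (nat_lit 12), (nat_lit 60), (nat_lit 3715), (nat_lit 8496), [(nat_lit 90), (nat_lit 180),
 (nat_lit 330), (nat_lit 650)], [(nat_lit 0), (nat_lit 400), (nat_lit 600), (nat_lit 743)], [
    ⟨(nat_lit 3), (nat_lit 352), (nat_lit 104), (Int.ofNat (nat_lit 0)), (Int.ofNat (nat_lit 21329)),
 [(Int.ofNat (nat_lit 557)), (Int.ofNat (nat_lit 914)), (Int.ofNat (nat_lit 1305)),
 (Int.ofNat (nat_lit 2027))], [(Int.ofNat (nat_lit 2541)), (Int.ofNat (nat_lit 4064)),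
 (Int.ofNat (nat_lit 6323)), (Int.ofNat (nat_lit 6084))]⟩]⟩
def yB14_17 : BoxB := ⟨xB14_17, [(nat_lit 17), (nat_lit 80), (nat_lit 196), (nat_lit 497)], [(nat_lit 131), (nat_lit 332), (nat_lit 493), (nat_lit 580)]⟩
def xB14_18 : Box := ⟨(nat_lit 180), (nat_lit 184), (nat_lit 176), (nat_lit 184), (nat_lit 14),
 (nat_lit 15), (nat_lit 12), (nat_lit 60), (nat_lit 4458), (nat_lit 8769), [(nat_lit 90), (nat_lit 180),
 (nat_lit 330), (nat_lit 650)], [(nat_lit 0), (nat_lit 400), (nat_lit 600), (nat_lit 743)], [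
    ⟨(nat_lit 3), (nat_lit 334), (nat_lit 102), (Int.ofNat (nat_lit 0)), (Int.ofNat (nat_lit 21300)),
 [(Int.ofNat (nat_lit 525)), (Int.ofNat (nat_lit 784)), (Int.ofNat (nat_lit 1335)),
 (Int.ofNat (nat_lit 1669))], [(Int.ofNat (nat_lit 2315)), (Int.ofNat (nat_lit 3844)),
 (Int.ofNat (nat_lit 6054)), (Int.ofNat (nat_lit 5407))]⟩,
    ⟨(nat_lit 3), (nat_lit 1161), (nat_lit 245), (Int.ofNat (nat_lit 0)), (Int.ofNat (nat_lit 63036)),
 [(Int.ofNat (nat_lit 2688)), (Int.ofNat (nat_lit 2850)), (Int.ofNat (nat_lit 4666)),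
 (Int.ofNat (nat_lit 9464))], [(Int.ofNat (nat_lit 8035)), (Int.ofNat (nat_lit 13340)),
 (Int.ofNat (nat_lit 21282)), (Int.ofNat (nat_lit 18613))]⟩]⟩
def yB14_18 : BoxB := ⟨xB14_18, [(nat_lit 21), (nat_lit 86), (nat_lit 208), (nat_lit 479)], [(nat_lit 142), (nat_lit 329), (nat_lit 491), (nat_lit 558)]⟩
def xB14_19 : Box := ⟨(nat_lit 184), (nat_lit 188), (nat_lit 184), (nat_lit 192), (nat_lit 14),
 (nat_lit 15), (nat_lit 12), (nat_lit 60), (nat_lit 4092), (nat_lit 9026), [(nat_lit 90), (nat_lit 180),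
 (nat_lit 330), (nat_lit 650)], [(nat_lit 0), (nat_lit 400), (nat_lit 600), (nat_lit 682)], [
    ⟨(nat_lit 3), (nat_lit 333), (nat_lit 104), (Int.ofNat (nat_lit 0)), (Int.ofNat (nat_lit 22068)),
 [(Int.ofNat (nat_lit 522)), (Int.ofNat (nat_lit 688)), (Int.ofNat (nat_lit 1233)),
 (Int.ofNat (nat_lit 1382))], [(Int.ofNat (nat_lit 2201)), (Int.ofNat (nat_lit 3820)),
 (Int.ofNat (nat_lit 5419)), (Int.ofNat (nat_lit 5437))]⟩,
    ⟨(nat_lit 3), (nat_lit 925), (nat_lit 190), (Int.ofNat (nat_lit 0)), (Int.ofNat (nat_lit 52086)),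
 [(Int.ofNat (nat_lit 2328)), (Int.ofNat (nat_lit 2131)), (Int.ofNat (nat_lit 3575)),
 (Int.ofNat (nat_lit 7563))], [(Int.ofNat (nat_lit 6106)), (Int.ofNat (nat_lit 10597)),
 (Int.ofNat (nat_lit 15767)), (Int.ofNat (nat_lit 14773))]⟩]⟩
def yB14_19 : BoxB := ⟨xB14_19, [(nat_lit 24), (nat_lit 93), (nat_lit 218), (nat_lit 457)], [(nat_lit 155), (nat_lit 324), (nat_lit 490), (nat_lit 535)]⟩
def xB14_20 : Box := ⟨(nat_lit 188), (nat_lit 192), (nat_lit 184), (nat_lit 192), (nat_lit 14),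
 (nat_lit 15), (nat_lit 12), (nat_lit 60), (nat_lit 4092), (nat_lit 9268), [(nat_lit 90), (nat_lit 180),
 (nat_lit 330), (nat_lit 650)], [(nat_lit 0), (nat_lit 400), (nat_lit 600), (nat_lit 682)], [
    ⟨(nat_lit 3), (nat_lit 330), (nat_lit 101), (Int.ofNat (nat_lit 0)), (Int.ofNat (nat_lit 22569)),
 [(Int.ofNat (nat_lit 521)), (Int.ofNat (nat_lit 580)), (Int.ofNat (nat_lit 1304)),
 (Int.ofNat (nat_lit 1084))], [(Int.ofNat (nat_lit 1997)), (Int.ofNat (nat_lit 3871)),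
 (Int.ofNat (nat_lit 5306)), (Int.ofNat (nat_lit 4660))]⟩,
    ⟨(nat_lit 3), (nat_lit 244), (nat_lit 102), (Int.ofNat (nat_lit 0)), (Int.ofNat (nat_lit 18800)),
 [(Int.ofNat (nat_lit 367)), (Int.ofNat (nat_lit 332)), (Int.ofNat (nat_lit 291)),
 (Int.negSucc (nat_lit 89))], [(Int.ofNat (nat_lit 1525)), (Int.ofNat (nat_lit 2793)),
 (Int.ofNat (nat_lit 3915)), (Int.ofNat (nat_lit 3482))]⟩,
    ⟨(nat_lit 3), (nat_lit 4276), (nat_lit 866), (Int.ofNat (nat_lit 0)), (Int.ofNat (nat_lit 250521)),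
 [(Int.ofNat (nat_lit 10506)), (Int.ofNat (nat_lit 9079)), (Int.ofNat (nat_lit 15703)),
 (Int.ofNat (nat_lit 34580))], [(Int.ofNat (nat_lit 26660)), (Int.ofNat (nat_lit 48808)),
 (Int.ofNat (nat_lit 117098)), (Int.negSucc (nat_lit 90521))]⟩]⟩
def yB14_20 : BoxB := ⟨xB14_20, [(nat_lit 29), (nat_lit 102), (nat_lit 230), (nat_lit 431)], [(nat_lit 170), (nat_lit 324), (nat_lit 491), (nat_lit 510)]⟩
def xB14_21 : Box := ⟨(nat_lit 192), (nat_lit 196), (nat_lit 192), (nat_lit 200), (nat_lit 14),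
 (nat_lit 15), (nat_lit 12), (nat_lit 60), (nat_lit 3900), (nat_lit 9496), [(nat_lit 90), (nat_lit 180),
 (nat_lit 330), (nat_lit 650)], [(nat_lit 0), (nat_lit 400), (nat_lit 601)], [
    ⟨(nat_lit 3), (nat_lit 305), (nat_lit 88), (Int.ofNat (nat_lit 0)), (Int.ofNat (nat_lit 21748)),
 [(Int.ofNat (nat_lit 493)), (Int.ofNat (nat_lit 436)), (Int.ofNat (nat_lit 1369)),
 (Int.ofNat (nat_lit 592))], [(Int.ofNat (nat_lit 1364)), (Int.ofNat (nat_lit 3910)),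
 (Int.ofNat (nat_lit 4582))]⟩,
    ⟨(nat_lit 3), (nat_lit 1084), (nat_lit 242), (Int.ofNat (nat_lit 0)), (Int.ofNat (nat_lit 68069)),
 [(Int.ofNat (nat_lit 2046)), (Int.ofNat (nat_lit 1933)), (Int.ofNat (nat_lit 7181)),
 (Int.ofNat (nat_lit 4004))], [(Int.ofNat (nat_lit 3440)), (Int.ofNat (nat_lit 15339)),
 (Int.ofNat (nat_lit 16038))]⟩,
    ⟨(nat_lit 3), (nat_lit 233), (nat_lit 98), (Int.ofNat (nat_lit 0)), (Int.ofNat (nat_lit 18807)),
 [(Int.ofNat (nat_lit 352)), (Int.ofNat (nat_lit 176)), (Int.negSucc (nat_lit 5)),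
 (Int.negSucc (nat_lit 346))], [(Int.ofNat (nat_lit 546)), (Int.ofNat (nat_lit 3510)),
 (Int.ofNat (nat_lit 3424))]⟩]⟩
def yB14_21 : BoxB := ⟨xB14_21, [(nat_lit 36), (nat_lit 114), (nat_lit 246), (nat_lit 403)], [(nat_lit 193), (nat_lit 320), (nat_lit 482)]⟩
def xB14_22 : Box := ⟨(nat_lit 196), (nat_lit 198), (nat_lit 192), (nat_lit 200), (nat_lit 14),
 (nat_lit 15), (nat_lit 12), (nat_lit 60), (nat_lit 3900), (nat_lit 9604), [(nat_lit 90), (nat_lit 180),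
 (nat_lit 330), (nat_lit 650)], [(nat_lit 0), (nat_lit 400), (nat_lit 601)], [
    ⟨(nat_lit 3), (nat_lit 295), (nat_lit 85), (Int.ofNat (nat_lit 0)), (Int.ofNat (nat_lit 21533)),
 [(Int.ofNat (nat_lit 483)), (Int.ofNat (nat_lit 257)), (Int.ofNat (nat_lit 1086)),
 (Int.negSucc (nat_lit 344))], [(Int.ofNat (nat_lit 832)), (Int.ofNat (nat_lit 3815)),
 (Int.ofNat (nat_lit 4147))]⟩,
    ⟨(nat_lit 3), (nat_lit 3900), (nat_lit 870), (Int.ofNat (nat_lit 0)), (Int.ofNat (nat_lit 249911)),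
 [(Int.ofNat (nat_lit 7342)), (Int.ofNat (nat_lit 5524)), (Int.ofNat (nat_lit 38262)),
 (Int.negSucc (nat_lit 29999))], [(Int.ofNat (nat_lit 2803)), (Int.ofNat (nat_lit 55523)),
 (Int.ofNat (nat_lit 50863))]⟩,
    ⟨(nat_lit 3), (nat_lit 249), (nat_lit 93), (Int.ofNat (nat_lit 0)), (Int.ofNat (nat_lit 19683)),
 [(Int.ofNat (nat_lit 385)), (Int.ofNat (nat_lit 36)), (Int.ofNat (nat_lit 14743)),
 (Int.negSucc (nat_lit 29999))], [(Int.ofNat (nat_lit 156)), (Int.ofNat (nat_lit 3570)),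
 (Int.ofNat (nat_lit 3244))]⟩]⟩
def yB14_22 : BoxB := ⟨xB14_22, [(nat_lit 48), (nat_lit 130), (nat_lit 268), (nat_lit 370)], [(nat_lit 226), (nat_lit 321), (nat_lit 448)]⟩
def xB14_23 : Box := ⟨(nat_lit 198), (nat_lit 200), (nat_lit 192), (nat_lit 200), (nat_lit 14),
 (nat_lit 15), (nat_lit 12), (nat_lit 60), (nat_lit 3900), (nat_lit 9709), [(nat_lit 90), (nat_lit 180),
 (nat_lit 330), (nat_lit 650)], [(nat_lit 0), (nat_lit 400), (nat_lit 601)], [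
    ⟨(nat_lit 3), (nat_lit 294), (nat_lit 83), (Int.ofNat (nat_lit 0)), (Int.ofNat (nat_lit 21743)),
 [(Int.ofNat (nat_lit 491)), (Int.ofNat (nat_lit 150)), (Int.ofNat (nat_lit 939)),
 (Int.negSucc (nat_lit 1523))], [(Int.ofNat (nat_lit 150)), (Int.ofNat (nat_lit 3884)),
 (Int.ofNat (nat_lit 3529))]⟩,
    ⟨(nat_lit 3), (nat_lit 1050), (nat_lit 194), (Int.ofNat (nat_lit 0)), (Int.ofNat (nat_lit 65593)),
 [(Int.ofNat (nat_lit 3179)), (Int.ofNat (nat_lit 1655)), (Int.ofNat (nat_lit 13470)),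
 (Int.negSucc (nat_lit 29999))], [(Int.negSucc (nat_lit 416)), (Int.ofNat (nat_lit 14250)),
 (Int.ofNat (nat_lit 11892))]⟩,
    ⟨(nat_lit 3), (nat_lit 226), (nat_lit 94), (Int.ofNat (nat_lit 0)), (Int.ofNat (nat_lit 18954)),
 [(Int.ofNat (nat_lit 352)), (Int.negSucc (nat_lit 215)), (Int.ofNat (nat_lit 6962)),
 (Int.negSucc (nat_lit 29999))], [(Int.negSucc (nat_lit 102)), (Int.ofNat (nat_lit 3081)),
 (Int.ofNat (nat_lit 2555))]⟩]⟩
def yB14_23 : BoxB := ⟨xB14_23, [(nat_lit 58), (nat_lit 143), (nat_lit 284), (nat_lit 347)], [(nat_lit 252), (nat_lit 326), (nat_lit 425)]⟩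
def xB15_0 : Box := ⟨(nat_lit 108), (nat_lit 112), (nat_lit 104), (nat_lit 112), (nat_lit 15), (nat_lit 16),
 (nat_lit 12), (nat_lit 2), (nat_lit 3944), (nat_lit 740), [(nat_lit 120), (nat_lit 200), (nat_lit 300),
 (nat_lit 450), (nat_lit 800)], [(nat_lit 0), (nat_lit 400), (nat_lit 600), (nat_lit 750), (nat_lit 986)],
 [
    ⟨(nat_lit 3), (nat_lit 251), (nat_lit 853), (Int.ofNat (nat_lit 0)), (Int.ofNat (nat_lit 1)),
 [(Int.ofNat (nat_lit 360)), (Int.ofNat (nat_lit 657)), (Int.ofNat (nat_lit 1092)),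
 (Int.ofNat (nat_lit 2271)), (Int.negSucc (nat_lit 255))], [(Int.ofNat (nat_lit 2818)),
 (Int.ofNat (nat_lit 4050)), (Int.ofNat (nat_lit 3609)), (Int.ofNat (nat_lit 5831)),
 (Int.ofNat (nat_lit 4542))]⟩]⟩
def yB15_0 : BoxB := ⟨xB15_0, [(nat_lit 44), (nat_lit 85), (nat_lit 124), (nat_lit 232), (nat_lit 339)], [(nat_lit 12), (nat_lit 332), (nat_lit 531), (nat_lit 647), (nat_lit 862)]⟩
def xB15_1 : Box := ⟨(nat_lit 112), (nat_lit 116), (nat_lit 112), (nat_lit 120), (nat_lit 15), (nat_lit 16),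
 (nat_lit 12), (nat_lit 2), (nat_lit 3900), (nat_lit 733), [(nat_lit 120), (nat_lit 200), (nat_lit 300),
 (nat_lit 450), (nat_lit 800)], [(nat_lit 0), (nat_lit 400), (nat_lit 600), (nat_lit 750), (nat_lit 975)],
 [
    ⟨(nat_lit 3), (nat_lit 428), (nat_lit 1443), (Int.ofNat (nat_lit 0)), (Int.ofNat (nat_lit 11598)),
 [(Int.ofNat (nat_lit 628)), (Int.ofNat (nat_lit 1145)), (Int.ofNat (nat_lit 1902)),
 (Int.ofNat (nat_lit 3464)), (Int.negSucc (nat_lit 527))], [(Int.ofNat (nat_lit 4743)),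
 (Int.ofNat (nat_lit 5683)), (Int.ofNat (nat_lit 6174)), (Int.ofNat (nat_lit 8807)),
 (Int.ofNat (nat_lit 7948))]⟩]⟩
def yB15_1 : BoxB := ⟨xB15_1, [(nat_lit 43), (nat_lit 83), (nat_lit 123), (nat_lit 235), (nat_lit 321)], [(nat_lit 19), (nat_lit 340), (nat_lit 529), (nat_lit 642), (nat_lit 845)]⟩
def xB15_2 : Box := ⟨(nat_lit 116), (nat_lit 120), (nat_lit 112), (nat_lit 120), (nat_lit 15), (nat_lit 16),
 (nat_lit 12), (nat_lit 5), (nat_lit 3900), (nat_lit 1439), [(nat_lit 120), (nat_lit 200), (nat_lit 300),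
 (nat_lit 450), (nat_lit 800)], [(nat_lit 0), (nat_lit 400), (nat_lit 600), (nat_lit 750), (nat_lit 975)],
 [
    ⟨(nat_lit 3), (nat_lit 277), (nat_lit 627), (Int.ofNat (nat_lit 0)), (Int.ofNat (nat_lit 8196)),
 [(Int.ofNat (nat_lit 418)), (Int.ofNat (nat_lit 761)), (Int.ofNat (nat_lit 1264)),
 (Int.ofNat (nat_lit 2211)), (Int.negSucc (nat_lit 489))], [(Int.ofNat (nat_lit 3010)),
 (Int.ofNat (nat_lit 4840)), (Int.ofNat (nat_lit 4017)), (Int.ofNat (nat_lit 6437)),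
 (Int.ofNat (nat_lit 5159))]⟩]⟩
def yB15_2 : BoxB := ⟨xB15_2, [(nat_lit 32), (nat_lit 64), (nat_lit 118), (nat_lit 243), (nat_lit 361)], [(nat_lit 27), (nat_lit 348), (nat_lit 528), (nat_lit 642), (nat_lit 838)]⟩
def xB15_3 : Box := ⟨(nat_lit 120), (nat_lit 124), (nat_lit 120), (nat_lit 128), (nat_lit 15), (nat_lit 16),
 (nat_lit 12), (nat_lit 7), (nat_lit 3840), (nat_lit 2109), [(nat_lit 120), (nat_lit 200), (nat_lit 300),
 (nat_lit 450), (nat_lit 800)], [(nat_lit 0), (nat_lit 400), (nat_lit 600), (nat_lit 750), (nat_lit 960)],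
 [
    ⟨(nat_lit 3), (nat_lit 290), (nat_lit 558), (Int.ofNat (nat_lit 0)), (Int.ofNat (nat_lit 9371)),
 [(Int.ofNat (nat_lit 448)), (Int.ofNat (nat_lit 816)), (Int.ofNat (nat_lit 1459)),
 (Int.ofNat (nat_lit 2132)), (Int.negSucc (nat_lit 442))], [(Int.ofNat (nat_lit 3117)),
 (Int.ofNat (nat_lit 3696)), (Int.ofNat (nat_lit 4223)), (Int.ofNat (nat_lit 6584)),
 (Int.ofNat (nat_lit 5517))]⟩]⟩
def yB15_3 : BoxB := ⟨xB15_3, [(nat_lit 27), (nat_lit 59), (nat_lit 121), (nat_lit 244), (nat_lit 371)], [(nat_lit 35), (nat_lit 356), (nat_lit 526), (nat_lit 632), (nat_lit 819)]⟩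
def xB15_4 : Box := ⟨(nat_lit 124), (nat_lit 128), (nat_lit 120), (nat_lit 128), (nat_lit 15), (nat_lit 16),
 (nat_lit 12), (nat_lit 10), (nat_lit 3840), (nat_lit 2745), [(nat_lit 120), (nat_lit 200), (nat_lit 300),
 (nat_lit 450), (nat_lit 800)], [(nat_lit 0), (nat_lit 400), (nat_lit 600), (nat_lit 750), (nat_lit 960)],
 [
    ⟨(nat_lit 3), (nat_lit 297), (nat_lit 503), (Int.ofNat (nat_lit 0)), (Int.ofNat (nat_lit 10423)),
 [(Int.ofNat (nat_lit 469)), (Int.ofNat (nat_lit 854)), (Int.ofNat (nat_lit 1688)),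
 (Int.ofNat (nat_lit 2033)), (Int.negSucc (nat_lit 607))], [(Int.ofNat (nat_lit 3136)),
 (Int.ofNat (nat_lit 5869)), (Int.ofNat (nat_lit 4343)), (Int.ofNat (nat_lit 6569)),
 (Int.ofNat (nat_lit 5680))]⟩]⟩
def yB15_4 : BoxB := ⟨xB15_4, [(nat_lit 19), (nat_lit 58), (nat_lit 124), (nat_lit 245), (nat_lit 389)], [(nat_lit 42), (nat_lit 363), (nat_lit 525), (nat_lit 637), (nat_lit 811)]⟩
def xB15_5 : Box := ⟨(nat_lit 128), (nat_lit 132), (nat_lit 128), (nat_lit 136), (nat_lit 15), (nat_lit 16),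
 (nat_lit 12), (nat_lit 14), (nat_lit 3772), (nat_lit 3348), [(nat_lit 120), (nat_lit 200), (nat_lit 300),
 (nat_lit 450), (nat_lit 800)], [(nat_lit 0), (nat_lit 400), (nat_lit 600), (nat_lit 750), (nat_lit 943)],
 [
    ⟨(nat_lit 3), (nat_lit 312), (nat_lit 446), (Int.ofNat (nat_lit 0)), (Int.ofNat (nat_lit 11689)),
 [(Int.ofNat (nat_lit 504)), (Int.ofNat (nat_lit 1302)), (Int.ofNat (nat_lit 1780)),
 (Int.ofNat (nat_lit 2044)), (Int.negSucc (nat_lit 795))], [(Int.ofNat (nat_lit 3233)),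
 (Int.ofNat (nat_lit 5617)), (Int.ofNat (nat_lit 4582)), (Int.ofNat (nat_lit 6822)),
 (Int.ofNat (nat_lit 6054))]⟩]⟩
def yB15_5 : BoxB := ⟨xB15_5, [(nat_lit 15), (nat_lit 60), (nat_lit 126), (nat_lit 248), (nat_lit 414)], [(nat_lit 49), (nat_lit 365), (nat_lit 523), (nat_lit 628), (nat_lit 792)]⟩
def xB15_6 : Box := ⟨(nat_lit 132), (nat_lit 134), (nat_lit 128), (nat_lit 136), (nat_lit 15), (nat_lit 16),
 (nat_lit 12), (nat_lit 16), (nat_lit 3772), (nat_lit 3641), [(nat_lit 120), (nat_lit 200), (nat_lit 300),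
 (nat_lit 450), (nat_lit 800)], [(nat_lit 0), (nat_lit 400), (nat_lit 600), (nat_lit 750), (nat_lit 943)],
 [
    ⟨(nat_lit 3), (nat_lit 334), (nat_lit 418), (Int.ofNat (nat_lit 0)), (Int.ofNat (nat_lit 12720)),
 [(Int.ofNat (nat_lit 547)), (Int.ofNat (nat_lit 994)), (Int.ofNat (nat_lit 1851)),
 (Int.ofNat (nat_lit 2111)), (Int.negSucc (nat_lit 1136))], [(Int.ofNat (nat_lit 3408)),
 (Int.ofNat (nat_lit 4201)), (Int.ofNat (nat_lit 4914)), (Int.ofNat (nat_lit 7139)),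
 (Int.ofNat (nat_lit 6494))]⟩]⟩
def yB15_6 : BoxB := ⟨xB15_6, [(nat_lit 14), (nat_lit 61), (nat_lit 128), (nat_lit 250), (nat_lit 415)], [(nat_lit 57), (nat_lit 366), (nat_lit 523), (nat_lit 635), (nat_lit 788)]⟩
def xB15_7 : Box := ⟨(nat_lit 134), (nat_lit 136), (nat_lit 128), (nat_lit 136), (nat_lit 15), (nat_lit 16),
 (nat_lit 12), (nat_lit 18), (nat_lit 3772), (nat_lit 3920), [(nat_lit 120), (nat_lit 200), (nat_lit 300),
 (nat_lit 450), (nat_lit 800)], [(nat_lit 0), (nat_lit 400), (nat_lit 600), (nat_lit 750), (nat_lit 943)],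
 [
    ⟨(nat_lit 3), (nat_lit 330), (nat_lit 385), (Int.ofNat (nat_lit 0)), (Int.ofNat (nat_lit 12975)),
 [(Int.ofNat (nat_lit 546)), (Int.ofNat (nat_lit 994)), (Int.ofNat (nat_lit 1787)),
 (Int.ofNat (nat_lit 2061)), (Int.negSucc (nat_lit 1210))], [(Int.ofNat (nat_lit 3336)),
 (Int.ofNat (nat_lit 4142)), (Int.ofNat (nat_lit 4866)), (Int.ofNat (nat_lit 7118)),
 (Int.ofNat (nat_lit 6411))]⟩]⟩
def yB15_7 : BoxB := ⟨xB15_7, [(nat_lit 13), (nat_lit 62), (nat_lit 129), (nat_lit 252), (nat_lit 422)], [(nat_lit 60), (nat_lit 366), (nat_lit 522), (nat_lit 637), (nat_lit 783)]⟩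
def xB15_8 : Box := ⟨(nat_lit 136), (nat_lit 138), (nat_lit 136), (nat_lit 144), (nat_lit 15), (nat_lit 16),
 (nat_lit 12), (nat_lit 20), (nat_lit 3688), (nat_lit 4198), [(nat_lit 120), (nat_lit 200), (nat_lit 300),
 (nat_lit 450), (nat_lit 800)], [(nat_lit 0), (nat_lit 400), (nat_lit 600), (nat_lit 750), (nat_lit 922)],
 [
    ⟨(nat_lit 3), (nat_lit 319), (nat_lit 368), (Int.ofNat (nat_lit 0)), (Int.ofNat (nat_lit 13120)),
 [(Int.ofNat (nat_lit 533)), (Int.ofNat (nat_lit 969)), (Int.ofNat (nat_lit 1692)),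
 (Int.ofNat (nat_lit 1957)), (Int.negSucc (nat_lit 1573))], [(Int.ofNat (nat_lit 3195)),
 (Int.ofNat (nat_lit 3996)), (Int.ofNat (nat_lit 4714)), (Int.ofNat (nat_lit 6802)),
 (Int.ofNat (nat_lit 6271))]⟩]⟩
def yB15_8 : BoxB := ⟨xB15_8, [(nat_lit 12), (nat_lit 63), (nat_lit 130), (nat_lit 253), (nat_lit 430)], [(nat_lit 64), (nat_lit 366), (nat_lit 521), (nat_lit 625), (nat_lit 767)]⟩
def xB15_9 : Box := ⟨(nat_lit 138), (nat_lit 140), (nat_lit 136), (nat_lit 144), (nat_lit 15), (nat_lit 16),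
 (nat_lit 12), (nat_lit 25), (nat_lit 3688), (nat_lit 4463), [(nat_lit 120), (nat_lit 200), (nat_lit 300),
 (nat_lit 450), (nat_lit 800)], [(nat_lit 0), (nat_lit 400), (nat_lit 600), (nat_lit 750), (nat_lit 922)],
 [
    ⟨(nat_lit 3), (nat_lit 320), (nat_lit 311), (Int.ofNat (nat_lit 0)), (Int.ofNat (nat_lit 13520)),
 [(Int.ofNat (nat_lit 543)), (Int.ofNat (nat_lit 987)), (Int.ofNat (nat_lit 1672)),
 (Int.ofNat (nat_lit 1936)), (Int.negSucc (nat_lit 891))], [(Int.ofNat (nat_lit 3175)),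
 (Int.ofNat (nat_lit 4000)), (Int.ofNat (nat_lit 4738)), (Int.ofNat (nat_lit 6930)),
 (Int.ofNat (nat_lit 6283))]⟩]⟩
def yB15_9 : BoxB := ⟨xB15_9, [(nat_lit 12), (nat_lit 64), (nat_lit 131), (nat_lit 255), (nat_lit 461)], [(nat_lit 68), (nat_lit 366), (nat_lit 521), (nat_lit 628), (nat_lit 763)]⟩
def xB15_10 : Box := ⟨(nat_lit 140), (nat_lit 142), (nat_lit 136), (nat_lit 144), (nat_lit 15),
 (nat_lit 16), (nat_lit 12), (nat_lit 27), (nat_lit 3688), (nat_lit 4726), [(nat_lit 120), (nat_lit 200),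
 (nat_lit 300), (nat_lit 450), (nat_lit 800)], [(nat_lit 0), (nat_lit 400), (nat_lit 600), (nat_lit 750),
 (nat_lit 922)], [
    ⟨(nat_lit 3), (nat_lit 322), (nat_lit 295), (Int.ofNat (nat_lit 0)), (Int.ofNat (nat_lit 13998)),
 [(Int.ofNat (nat_lit 552)), (Int.ofNat (nat_lit 1297)), (Int.ofNat (nat_lit 1642)),
 (Int.ofNat (nat_lit 1930)), (Int.negSucc (nat_lit 939))], [(Int.ofNat (nat_lit 3164)),
 (Int.ofNat (nat_lit 4017)), (Int.ofNat (nat_lit 4778)), (Int.ofNat (nat_lit 6930)),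
 (Int.ofNat (nat_lit 6314))]⟩]⟩
def yB15_10 : BoxB := ⟨xB15_10, [(nat_lit 13), (nat_lit 65), (nat_lit 132), (nat_lit 256), (nat_lit 467)], [(nat_lit 71), (nat_lit 365), (nat_lit 520), (nat_lit 629), (nat_lit 759)]⟩
def xB15_11 : Box := ⟨(nat_lit 142), (nat_lit 144), (nat_lit 136), (nat_lit 144), (nat_lit 15),
 (nat_lit 16), (nat_lit 12), (nat_lit 30), (nat_lit 3688), (nat_lit 4978), [(nat_lit 120), (nat_lit 200),
 (nat_lit 300), (nat_lit 450), (nat_lit 800)], [(nat_lit 0), (nat_lit 400), (nat_lit 600), (nat_lit 750),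
 (nat_lit 922)], [
    ⟨(nat_lit 3), (nat_lit 322), (nat_lit 277), (Int.ofNat (nat_lit 0)), (Int.ofNat (nat_lit 14365)),
 [(Int.ofNat (nat_lit 559)), (Int.ofNat (nat_lit 1169)), (Int.ofNat (nat_lit 1617)),
 (Int.ofNat (nat_lit 1879)), (Int.negSucc (nat_lit 858))], [(Int.ofNat (nat_lit 3133)),
 (Int.ofNat (nat_lit 4009)), (Int.ofNat (nat_lit 4787)), (Int.ofNat (nat_lit 6991)),
 (Int.ofNat (nat_lit 6290))]⟩]⟩
def yB15_11 : BoxB := ⟨xB15_11, [(nat_lit 13), (nat_lit 66), (nat_lit 134), (nat_lit 258), (nat_lit 480)], [(nat_lit 75), (nat_lit 364), (nat_lit 519), (nat_lit 629), (nat_lit 754)]⟩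
def xB15_12 : Box := ⟨(nat_lit 144), (nat_lit 146), (nat_lit 144), (nat_lit 152), (nat_lit 15),
 (nat_lit 16), (nat_lit 12), (nat_lit 33), (nat_lit 4480), (nat_lit 5227), [(nat_lit 120), (nat_lit 200),
 (nat_lit 300), (nat_lit 450), (nat_lit 800)], [(nat_lit 0), (nat_lit 400), (nat_lit 600), (nat_lit 750),
 (nat_lit 896)], [
    ⟨(nat_lit 3), (nat_lit 328), (nat_lit 259), (Int.ofNat (nat_lit 0)), (Int.ofNat (nat_lit 14942)),
 [(Int.ofNat (nat_lit 576)), (Int.ofNat (nat_lit 1167)), (Int.ofNat (nat_lit 1618)),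
 (Int.ofNat (nat_lit 1873)), (Int.negSucc (nat_lit 642))], [(Int.ofNat (nat_lit 3159)),
 (Int.ofNat (nat_lit 4075)), (Int.ofNat (nat_lit 4887)), (Int.ofNat (nat_lit 6887)),
 (Int.ofNat (nat_lit 6493))]⟩]⟩
def yB15_12 : BoxB := ⟨xB15_12, [(nat_lit 14), (nat_lit 67), (nat_lit 135), (nat_lit 260), (nat_lit 490)], [(nat_lit 78), (nat_lit 364), (nat_lit 518), (nat_lit 619), (nat_lit 736)]⟩
def xB15_13 : Box := ⟨(nat_lit 146), (nat_lit 148), (nat_lit 144), (nat_lit 152), (nat_lit 15),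
 (nat_lit 16), (nat_lit 12), (nat_lit 37), (nat_lit 4480), (nat_lit 5465), [(nat_lit 120), (nat_lit 200),
 (nat_lit 300), (nat_lit 450), (nat_lit 800)], [(nat_lit 0), (nat_lit 400), (nat_lit 600), (nat_lit 750),
 (nat_lit 896)], [
    ⟨(nat_lit 3), (nat_lit 325), (nat_lit 242), (Int.ofNat (nat_lit 0)), (Int.ofNat (nat_lit 15249)),
 [(Int.ofNat (nat_lit 577)), (Int.ofNat (nat_lit 1092)), (Int.ofNat (nat_lit 1600)),
 (Int.ofNat (nat_lit 1736)), (Int.negSucc (nat_lit 398))], [(Int.ofNat (nat_lit 3098)),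
 (Int.ofNat (nat_lit 4030)), (Int.ofNat (nat_lit 4852)), (Int.ofNat (nat_lit 6919)),
 (Int.ofNat (nat_lit 6411))]⟩]⟩
def yB15_13 : BoxB := ⟨xB15_13, [(nat_lit 14), (nat_lit 69), (nat_lit 137), (nat_lit 262), (nat_lit 508)], [(nat_lit 82), (nat_lit 363), (nat_lit 518), (nat_lit 621), (nat_lit 733)]⟩
def xB15_14 : Box := ⟨(nat_lit 148), (nat_lit 150), (nat_lit 144), (nat_lit 152), (nat_lit 15),
 (nat_lit 16), (nat_lit 12), (nat_lit 40), (nat_lit 4480), (nat_lit 5701), [(nat_lit 120), (nat_lit 200),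
 (nat_lit 300), (nat_lit 450), (nat_lit 800)], [(nat_lit 0), (nat_lit 400), (nat_lit 600), (nat_lit 750),
 (nat_lit 896)], [
    ⟨(nat_lit 3), (nat_lit 332), (nat_lit 224), (Int.ofNat (nat_lit 0)), (Int.ofNat (nat_lit 15832)),
 [(Int.ofNat (nat_lit 598)), (Int.ofNat (nat_lit 1143)), (Int.ofNat (nat_lit 1601)),
 (Int.ofNat (nat_lit 1749)), (Int.negSucc (nat_lit 88))], [(Int.ofNat (nat_lit 3132)),
 (Int.ofNat (nat_lit 4109)), (Int.ofNat (nat_lit 4966)), (Int.ofNat (nat_lit 7019)),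
 (Int.ofNat (nat_lit 6524))]⟩,
    ⟨(nat_lit 3), (nat_lit 276), (nat_lit 234), (Int.ofNat (nat_lit 0)), (Int.ofNat (nat_lit 14141)),
 [(Int.ofNat (nat_lit 492)), (Int.ofNat (nat_lit 1014)), (Int.ofNat (nat_lit 1299)),
 (Int.ofNat (nat_lit 1461)), (Int.negSucc (nat_lit 1450))], [(Int.ofNat (nat_lit 2604)),
 (Int.ofNat (nat_lit 3417)), (Int.ofNat (nat_lit 4131)), (Int.ofNat (nat_lit 6062)),
 (Int.ofNat (nat_lit 5401))]⟩]⟩
def yB15_14 : BoxB := ⟨xB15_14, [(nat_lit 15), (nat_lit 70), (nat_lit 138), (nat_lit 264), (nat_lit 519)], [(nat_lit 85), (nat_lit 362), (nat_lit 517), (nat_lit 623), (nat_lit 729)]⟩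
def xB15_15 : Box := ⟨(nat_lit 150), (nat_lit 152), (nat_lit 144), (nat_lit 152), (nat_lit 15),
 (nat_lit 16), (nat_lit 12), (nat_lit 45), (nat_lit 4480), (nat_lit 5927), [(nat_lit 120), (nat_lit 200),
 (nat_lit 300), (nat_lit 450), (nat_lit 800)], [(nat_lit 0), (nat_lit 400), (nat_lit 600), (nat_lit 750),
 (nat_lit 896)], [
    ⟨(nat_lit 3), (nat_lit 281), (nat_lit 214), (Int.ofNat (nat_lit 0)), (Int.ofNat (nat_lit 14660)),
 [(Int.ofNat (nat_lit 507)), (Int.ofNat (nat_lit 995)), (Int.ofNat (nat_lit 1315)),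
 (Int.ofNat (nat_lit 1348)), (Int.negSucc (nat_lit 889))], [(Int.ofNat (nat_lit 2622)),
 (Int.ofNat (nat_lit 3472)), (Int.ofNat (nat_lit 4214)), (Int.ofNat (nat_lit 6131)),
 (Int.ofNat (nat_lit 5460))]⟩,
    ⟨(nat_lit 3), (nat_lit 370), (nat_lit 198), (Int.ofNat (nat_lit 0)), (Int.ofNat (nat_lit 17390)),
 [(Int.ofNat (nat_lit 684)), (Int.ofNat (nat_lit 1314)), (Int.ofNat (nat_lit 1731)),
 (Int.ofNat (nat_lit 2072)), (Int.ofNat (nat_lit 849))], [(Int.ofNat (nat_lit 3452)),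
 (Int.ofNat (nat_lit 4569)), (Int.ofNat (nat_lit 5545)), (Int.ofNat (nat_lit 7844)),
 (Int.ofNat (nat_lit 7224))]⟩,
    ⟨(nat_lit 3), (nat_lit 199), (nat_lit 227), (Int.ofNat (nat_lit 0)), (Int.ofNat (nat_lit 12105)),
 [(Int.ofNat (nat_lit 354)), (Int.ofNat (nat_lit 726)), (Int.ofNat (nat_lit 918)),
 (Int.ofNat (nat_lit 716)), (Int.negSucc (nat_lit 2504))], [(Int.ofNat (nat_lit 1859)),
 (Int.ofNat (nat_lit 2461)), (Int.ofNat (nat_lit 2987)), (Int.ofNat (nat_lit 4602)),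
 (Int.ofNat (nat_lit 3825))]⟩]⟩
def yB15_15 : BoxB := ⟨xB15_15, [(nat_lit 16), (nat_lit 71), (nat_lit 140), (nat_lit 266), (nat_lit 541)], [(nat_lit 89), (nat_lit 360), (nat_lit 516), (nat_lit 622), (nat_lit 723)]⟩
def xB15_16 : Box := ⟨(nat_lit 152), (nat_lit 154), (nat_lit 152), (nat_lit 160), (nat_lit 15),
 (nat_lit 16), (nat_lit 12), (nat_lit 50), (nat_lit 4335), (nat_lit 6150), [(nat_lit 120), (nat_lit 200),
 (nat_lit 300), (nat_lit 450), (nat_lit 800)], [(nat_lit 0), (nat_lit 400), (nat_lit 600), (nat_lit 750),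
 (nat_lit 867)], [
    ⟨(nat_lit 3), (nat_lit 334), (nat_lit 185), (Int.ofNat (nat_lit 0)), (Int.ofNat (nat_lit 16643)),
 [(Int.ofNat (nat_lit 620)), (Int.ofNat (nat_lit 1149)), (Int.ofNat (nat_lit 1560)),
 (Int.ofNat (nat_lit 1701)), (Int.ofNat (nat_lit 619))], [(Int.ofNat (nat_lit 3082)),
 (Int.ofNat (nat_lit 4117)), (Int.ofNat (nat_lit 5017)), (Int.ofNat (nat_lit 6744)),
 (Int.ofNat (nat_lit 6595))]⟩,
    ⟨(nat_lit 3), (nat_lit 281), (nat_lit 194), (Int.ofNat (nat_lit 0)), (Int.ofNat (nat_lit 14975)),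
 [(Int.ofNat (nat_lit 514)), (Int.ofNat (nat_lit 987)), (Int.ofNat (nat_lit 1293)),
 (Int.ofNat (nat_lit 1464)), (Int.negSucc (nat_lit 772))], [(Int.ofNat (nat_lit 2593)),
 (Int.ofNat (nat_lit 3465)), (Int.ofNat (nat_lit 4223)), (Int.ofNat (nat_lit 5904)),
 (Int.ofNat (nat_lit 5550))]⟩]⟩
def yB15_16 : BoxB := ⟨xB15_16, [(nat_lit 16), (nat_lit 72), (nat_lit 142), (nat_lit 269), (nat_lit 559)], [(nat_lit 93), (nat_lit 361), (nat_lit 515), (nat_lit 612), (nat_lit 705)]⟩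
def xB15_17 : Box := ⟨(nat_lit 154), (nat_lit 156), (nat_lit 152), (nat_lit 160), (nat_lit 15),
 (nat_lit 16), (nat_lit 12), (nat_lit 56), (nat_lit 4335), (nat_lit 6364), [(nat_lit 120), (nat_lit 200),
 (nat_lit 300), (nat_lit 450), (nat_lit 800)], [(nat_lit 0), (nat_lit 400), (nat_lit 600), (nat_lit 750),
 (nat_lit 867)], [
    ⟨(nat_lit 3), (nat_lit 296), (nat_lit 171), (Int.ofNat (nat_lit 0)), (Int.ofNat (nat_lit 15806)),
 [(Int.ofNat (nat_lit 553)), (Int.ofNat (nat_lit 1025)), (Int.ofNat (nat_lit 1342)),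
 (Int.ofNat (nat_lit 1413)), (Int.ofNat (nat_lit 203))], [(Int.ofNat (nat_lit 2700)),
 (Int.ofNat (nat_lit 3643)), (Int.ofNat (nat_lit 4457)), (Int.ofNat (nat_lit 6151)),
 (Int.ofNat (nat_lit 5809))]⟩,
    ⟨(nat_lit 3), (nat_lit 438), (nat_lit 146), (Int.ofNat (nat_lit 0)), (Int.ofNat (nat_lit 20343)),
 [(Int.ofNat (nat_lit 889)), (Int.ofNat (nat_lit 1535)), (Int.ofNat (nat_lit 2000)),
 (Int.ofNat (nat_lit 2664)), (Int.ofNat (nat_lit 2998))], [(Int.ofNat (nat_lit 3993)),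
 (Int.ofNat (nat_lit 5387)), (Int.ofNat (nat_lit 6590)), (Int.ofNat (nat_lit 8741)),
 (Int.ofNat (nat_lit 8618))]⟩]⟩
def yB15_17 : BoxB := ⟨xB15_17, [(nat_lit 18), (nat_lit 74), (nat_lit 143), (nat_lit 271), (nat_lit 585)], [(nat_lit 97), (nat_lit 359), (nat_lit 515), (nat_lit 615), (nat_lit 702)]⟩
def xB15_18 : Box := ⟨(nat_lit 156), (nat_lit 158), (nat_lit 152), (nat_lit 160), (nat_lit 15),
 (nat_lit 16), (nat_lit 12), (nat_lit 60), (nat_lit 4335), (nat_lit 6575), [(nat_lit 120), (nat_lit 200),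
 (nat_lit 300), (nat_lit 450), (nat_lit 800)], [(nat_lit 0), (nat_lit 400), (nat_lit 600), (nat_lit 750),
 (nat_lit 867)], [
    ⟨(nat_lit 3), (nat_lit 290), (nat_lit 157), (Int.ofNat (nat_lit 0)), (Int.ofNat (nat_lit 15894)),
 [(Int.ofNat (nat_lit 549)), (Int.ofNat (nat_lit 981)), (Int.ofNat (nat_lit 1304)),
 (Int.ofNat (nat_lit 1333)), (Int.ofNat (nat_lit 418))], [(Int.ofNat (nat_lit 2614)),
 (Int.ofNat (nat_lit 3563)), (Int.ofNat (nat_lit 4376)), (Int.ofNat (nat_lit 6093)),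
 (Int.ofNat (nat_lit 5634))]⟩,
    ⟨(nat_lit 3), (nat_lit 415), (nat_lit 135), (Int.ofNat (nat_lit 0)), (Int.ofNat (nat_lit 19952)),
 [(Int.ofNat (nat_lit 849)), (Int.ofNat (nat_lit 1464)), (Int.ofNat (nat_lit 1865)),
 (Int.ofNat (nat_lit 2469)), (Int.ofNat (nat_lit 2881))], [(Int.ofNat (nat_lit 3739)),
 (Int.ofNat (nat_lit 5095)), (Int.ofNat (nat_lit 6257)), (Int.ofNat (nat_lit 8435)),
 (Int.ofNat (nat_lit 8104))]⟩]⟩
def yB15_18 : BoxB := ⟨xB15_18, [(nat_lit 18), (nat_lit 76), (nat_lit 145), (nat_lit 274), (nat_lit 597)], [(nat_lit 101), (nat_lit 357), (nat_lit 514), (nat_lit 617), (nat_lit 697)]⟩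
def xB15_19 : Box := ⟨(nat_lit 158), (nat_lit 159), (nat_lit 152), (nat_lit 160), (nat_lit 15),
 (nat_lit 16), (nat_lit 12), (nat_lit 60), (nat_lit 4335), (nat_lit 6696), [(nat_lit 120), (nat_lit 200),
 (nat_lit 300), (nat_lit 450), (nat_lit 800)], [(nat_lit 0), (nat_lit 400), (nat_lit 600), (nat_lit 750),
 (nat_lit 867)], [
    ⟨(nat_lit 3), (nat_lit 305), (nat_lit 158), (Int.ofNat (nat_lit 0)), (Int.ofNat (nat_lit 16657)),
 [(Int.ofNat (nat_lit 588)), (Int.ofNat (nat_lit 1026)), (Int.ofNat (nat_lit 1329)),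
 (Int.ofNat (nat_lit 1363)), (Int.ofNat (nat_lit 501))], [(Int.ofNat (nat_lit 2716)),
 (Int.ofNat (nat_lit 3739)), (Int.ofNat (nat_lit 4606)), (Int.ofNat (nat_lit 6382)),
 (Int.ofNat (nat_lit 5859))]⟩,
    ⟨(nat_lit 3), (nat_lit 5382), (nat_lit 1461), (Int.ofNat (nat_lit 0)), (Int.ofNat (nat_lit 249742)),
 [(Int.ofNat (nat_lit 11594)), (Int.ofNat (nat_lit 17837)), (Int.ofNat (nat_lit 24172)),
 (Int.ofNat (nat_lit 35634)), (Int.ofNat (nat_lit 44928))], [(Int.ofNat (nat_lit 47842)),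
 (Int.ofNat (nat_lit 65840)), (Int.ofNat (nat_lit 81104)), (Int.ofNat (nat_lit 105898)),
 (Int.ofNat (nat_lit 105017))]⟩]⟩
def yB15_19 : BoxB := ⟨xB15_19, [(nat_lit 19), (nat_lit 77), (nat_lit 147), (nat_lit 277), (nat_lit 588)], [(nat_lit 104), (nat_lit 355), (nat_lit 513), (nat_lit 616), (nat_lit 690)]⟩
def xB15_20 : Box := ⟨(nat_lit 159), (nat_lit 160), (nat_lit 152), (nat_lit 160), (nat_lit 15),
 (nat_lit 16), (nat_lit 12), (nat_lit 60), (nat_lit 4335), (nat_lit 6989), [(nat_lit 120), (nat_lit 200),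
 (nat_lit 300), (nat_lit 450), (nat_lit 800)], [(nat_lit 0), (nat_lit 400), (nat_lit 600), (nat_lit 750),
 (nat_lit 867)], [
    ⟨(nat_lit 3), (nat_lit 295), (nat_lit 161), (Int.ofNat (nat_lit 0)), (Int.ofNat (nat_lit 16607)),
 [(Int.ofNat (nat_lit 569)), (Int.ofNat (nat_lit 991)), (Int.ofNat (nat_lit 1256)),
 (Int.ofNat (nat_lit 1233)), (Int.ofNat (nat_lit 168))], [(Int.ofNat (nat_lit 2610)),
 (Int.ofNat (nat_lit 3614)), (Int.ofNat (nat_lit 4460)), (Int.ofNat (nat_lit 6160)),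
 (Int.ofNat (nat_lit 5630))]⟩,
    ⟨(nat_lit 3), (nat_lit 404), (nat_lit 141), (Int.ofNat (nat_lit 0)), (Int.ofNat (nat_lit 20170)),
 [(Int.ofNat (nat_lit 820)), (Int.ofNat (nat_lit 1393)), (Int.ofNat (nat_lit 1758)),
 (Int.ofNat (nat_lit 2231)), (Int.ofNat (nat_lit 2449))], [(Int.ofNat (nat_lit 3573)),
 (Int.ofNat (nat_lit 4946)), (Int.ofNat (nat_lit 6105)), (Int.ofNat (nat_lit 8301)),
 (Int.ofNat (nat_lit 7752))]⟩,
    ⟨(nat_lit 3), (nat_lit 262), (nat_lit 167), (Int.ofNat (nat_lit 0)), (Int.ofNat (nat_lit 15527)),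
 [(Int.ofNat (nat_lit 527)), (Int.ofNat (nat_lit 862)), (Int.ofNat (nat_lit 1158)),
 (Int.ofNat (nat_lit 895)), (Int.negSucc (nat_lit 344))], [(Int.ofNat (nat_lit 2319)),
 (Int.ofNat (nat_lit 3210)), (Int.ofNat (nat_lit 3963)), (Int.ofNat (nat_lit 5576)),
 (Int.ofNat (nat_lit 4966))]⟩]⟩
def yB15_20 : BoxB := ⟨xB15_20, [(nat_lit 20), (nat_lit 78), (nat_lit 149), (nat_lit 278), (nat_lit 583)], [(nat_lit 106), (nat_lit 355), (nat_lit 513), (nat_lit 615), (nat_lit 684)]⟩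
def xB15_21 : Box := ⟨(nat_lit 160), (nat_lit 162), (nat_lit 160), (nat_lit 168), (nat_lit 15),
 (nat_lit 16), (nat_lit 12), (nat_lit 60), (nat_lit 4160), (nat_lit 7170), [(nat_lit 120), (nat_lit 200),
 (nat_lit 300), (nat_lit 450), (nat_lit 800)], [(nat_lit 0), (nat_lit 400), (nat_lit 600), (nat_lit 750),
 (nat_lit 832)], [
    ⟨(nat_lit 3), (nat_lit 272), (nat_lit 160), (Int.ofNat (nat_lit 0)), (Int.ofNat (nat_lit 16153)),
 [(Int.ofNat (nat_lit 537)), (Int.ofNat (nat_lit 900)), (Int.ofNat (nat_lit 1146)),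
 (Int.ofNat (nat_lit 998)), (Int.negSucc (nat_lit 173))], [(Int.ofNat (nat_lit 2392)),
 (Int.ofNat (nat_lit 3330)), (Int.ofNat (nat_lit 4122)), (Int.ofNat (nat_lit 5165)),
 (Int.ofNat (nat_lit 5308))]⟩,
    ⟨(nat_lit 3), (nat_lit 407), (nat_lit 141), (Int.ofNat (nat_lit 0)), (Int.ofNat (nat_lit 20794)),
 [(Int.ofNat (nat_lit 845)), (Int.ofNat (nat_lit 1346)), (Int.ofNat (nat_lit 1767)),
 (Int.ofNat (nat_lit 2182)), (Int.ofNat (nat_lit 2523))], [(Int.ofNat (nat_lit 3577)),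
 (Int.ofNat (nat_lit 4978)), (Int.ofNat (nat_lit 6163)), (Int.ofNat (nat_lit 8015)),
 (Int.ofNat (nat_lit 7936))]⟩,
    ⟨(nat_lit 3), (nat_lit 234), (nat_lit 167), (Int.ofNat (nat_lit 0)), (Int.ofNat (nat_lit 14896)),
 [(Int.ofNat (nat_lit 472)), (Int.ofNat (nat_lit 767)), (Int.ofNat (nat_lit 1002)),
 (Int.ofNat (nat_lit 1493)), (Int.negSucc (nat_lit 1710))], [(Int.ofNat (nat_lit 2058)),
 (Int.ofNat (nat_lit 2866)), (Int.ofNat (nat_lit 3548)), (Int.ofNat (nat_lit 4836)),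
 (Int.ofNat (nat_lit 4568))]⟩]⟩
def yB15_21 : BoxB := ⟨xB15_21, [(nat_lit 20), (nat_lit 78), (nat_lit 150), (nat_lit 279), (nat_lit 580)], [(nat_lit 108), (nat_lit 354), (nat_lit 512), (nat_lit 607), (nat_lit 673)]⟩
def xB15_22 : Box := ⟨(nat_lit 162), (nat_lit 164), (nat_lit 160), (nat_lit 168), (nat_lit 15),
 (nat_lit 16), (nat_lit 12), (nat_lit 60), (nat_lit 4160), (nat_lit 7345), [(nat_lit 120), (nat_lit 200),
 (nat_lit 300), (nat_lit 450), (nat_lit 800)], [(nat_lit 0), (nat_lit 400), (nat_lit 600), (nat_lit 750),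
 (nat_lit 832)], [
    ⟨(nat_lit 3), (nat_lit 270), (nat_lit 155), (Int.ofNat (nat_lit 0)), (Int.ofNat (nat_lit 16373)),
 [(Int.ofNat (nat_lit 537)), (Int.ofNat (nat_lit 888)), (Int.ofNat (nat_lit 1077)),
 (Int.ofNat (nat_lit 946)), (Int.negSucc (nat_lit 256))], [(Int.ofNat (nat_lit 2343)),
 (Int.ofNat (nat_lit 3299)), (Int.ofNat (nat_lit 4101)), (Int.ofNat (nat_lit 5415)),
 (Int.ofNat (nat_lit 5221))]⟩,
    ⟨(nat_lit 3), (nat_lit 377), (nat_lit 136), (Int.ofNat (nat_lit 0)), (Int.ofNat (nat_lit 19976)),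
 [(Int.ofNat (nat_lit 821)), (Int.ofNat (nat_lit 1211)), (Int.ofNat (nat_lit 1632)),
 (Int.ofNat (nat_lit 1885)), (Int.ofNat (nat_lit 2215))], [(Int.ofNat (nat_lit 3270)),
 (Int.ofNat (nat_lit 4603)), (Int.ofNat (nat_lit 5722)), (Int.ofNat (nat_lit 7537)),
 (Int.ofNat (nat_lit 7288))]⟩,
    ⟨(nat_lit 3), (nat_lit 245), (nat_lit 160), (Int.ofNat (nat_lit 0)), (Int.ofNat (nat_lit 15547)),
 [(Int.ofNat (nat_lit 499)), (Int.ofNat (nat_lit 798)), (Int.ofNat (nat_lit 977)),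
 (Int.ofNat (nat_lit 1347)), (Int.negSucc (nat_lit 1371))], [(Int.ofNat (nat_lit 2127)),
 (Int.ofNat (nat_lit 2994)), (Int.ofNat (nat_lit 3722)), (Int.ofNat (nat_lit 5031)),
 (Int.ofNat (nat_lit 4724))]⟩]⟩
def yB15_22 : BoxB := ⟨xB15_22, [(nat_lit 21), (nat_lit 80), (nat_lit 153), (nat_lit 282), (nat_lit 569)], [(nat_lit 112), (nat_lit 353), (nat_lit 511), (nat_lit 608), (nat_lit 669)]⟩
def xB15_23 : Box := ⟨(nat_lit 164), (nat_lit 165), (nat_lit 160), (nat_lit 168), (nat_lit 15),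
 (nat_lit 16), (nat_lit 12), (nat_lit 60), (nat_lit 4160), (nat_lit 7431), [(nat_lit 120), (nat_lit 200),
 (nat_lit 300), (nat_lit 450), (nat_lit 800)], [(nat_lit 0), (nat_lit 400), (nat_lit 600), (nat_lit 750),
 (nat_lit 832)], [
    ⟨(nat_lit 3), (nat_lit 282), (nat_lit 151), (Int.ofNat (nat_lit 0)), (Int.ofNat (nat_lit 16941)),
 [(Int.ofNat (nat_lit 567)), (Int.ofNat (nat_lit 922)), (Int.ofNat (nat_lit 1070)),
 (Int.ofNat (nat_lit 1004)), (Int.negSucc (nat_lit 127))], [(Int.ofNat (nat_lit 2414)),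
 (Int.ofNat (nat_lit 3439)), (Int.ofNat (nat_lit 4287)), (Int.ofNat (nat_lit 5724)),
 (Int.ofNat (nat_lit 5359))]⟩,
    ⟨(nat_lit 3), (nat_lit 414), (nat_lit 146), (Int.ofNat (nat_lit 0)), (Int.ofNat (nat_lit 21967)),
 [(Int.ofNat (nat_lit 857)), (Int.ofNat (nat_lit 1337)), (Int.ofNat (nat_lit 1696)),
 (Int.ofNat (nat_lit 2407)), (Int.ofNat (nat_lit 2122))], [(Int.ofNat (nat_lit 3541)),
 (Int.ofNat (nat_lit 5045)), (Int.ofNat (nat_lit 6289)), (Int.ofNat (nat_lit 8173)),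
 (Int.ofNat (nat_lit 7932))]⟩]⟩
def yB15_23 : BoxB := ⟨xB15_23, [(nat_lit 22), (nat_lit 82), (nat_lit 155), (nat_lit 285), (nat_lit 562)], [(nat_lit 116), (nat_lit 350), (nat_lit 511), (nat_lit 610), (nat_lit 663)]⟩
def xB15_24 : Box := ⟨(nat_lit 165), (nat_lit 166), (nat_lit 160), (nat_lit 168), (nat_lit 15),
 (nat_lit 16), (nat_lit 12), (nat_lit 60), (nat_lit 4160), (nat_lit 7516), [(nat_lit 120), (nat_lit 200),
 (nat_lit 300), (nat_lit 450), (nat_lit 800)], [(nat_lit 0), (nat_lit 400), (nat_lit 600), (nat_lit 750),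
 (nat_lit 832)], [
    ⟨(nat_lit 3), (nat_lit 273), (nat_lit 150), (Int.ofNat (nat_lit 0)), (Int.ofNat (nat_lit 16773)),
 [(Int.ofNat (nat_lit 554)), (Int.ofNat (nat_lit 880)), (Int.ofNat (nat_lit 1006)),
 (Int.ofNat (nat_lit 915)), (Int.negSucc (nat_lit 354))], [(Int.ofNat (nat_lit 2320)),
 (Int.ofNat (nat_lit 3327)), (Int.ofNat (nat_lit 4155)), (Int.ofNat (nat_lit 5537)),
 (Int.ofNat (nat_lit 5136))]⟩,
    ⟨(nat_lit 3), (nat_lit 504), (nat_lit 158), (Int.ofNat (nat_lit 0)), (Int.ofNat (nat_lit 26119)),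
 [(Int.ofNat (nat_lit 1054)), (Int.ofNat (nat_lit 1600)), (Int.ofNat (nat_lit 2078)),
 (Int.ofNat (nat_lit 3004)), (Int.ofNat (nat_lit 3266))], [(Int.ofNat (nat_lit 4280)),
 (Int.ofNat (nat_lit 6134)), (Int.ofNat (nat_lit 7662)), (Int.ofNat (nat_lit 9890)),
 (Int.ofNat (nat_lit 9609))]⟩]⟩
def yB15_24 : BoxB := ⟨xB15_24, [(nat_lit 23), (nat_lit 83), (nat_lit 157), (nat_lit 287), (nat_lit 557)], [(nat_lit 119), (nat_lit 349), (nat_lit 511), (nat_lit 610), (nat_lit 658)]⟩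
def xB15_25 : Box := ⟨(nat_lit 166), (nat_lit 167), (nat_lit 160), (nat_lit 168), (nat_lit 15),
 (nat_lit 16), (nat_lit 12), (nat_lit 60), (nat_lit 4160), (nat_lit 7600), [(nat_lit 120), (nat_lit 200),
 (nat_lit 300), (nat_lit 450), (nat_lit 800)], [(nat_lit 0), (nat_lit 400), (nat_lit 600), (nat_lit 750),
 (nat_lit 832)], [
    ⟨(nat_lit 3), (nat_lit 263), (nat_lit 150), (Int.ofNat (nat_lit 0)), (Int.ofNat (nat_lit 16590)),
 [(Int.ofNat (nat_lit 528)), (Int.ofNat (nat_lit 849)), (Int.ofNat (nat_lit 921)),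
 (Int.ofNat (nat_lit 785)), (Int.negSucc (nat_lit 586))], [(Int.ofNat (nat_lit 2220)),
 (Int.ofNat (nat_lit 3202)), (Int.ofNat (nat_lit 4008)), (Int.ofNat (nat_lit 5330)),
 (Int.ofNat (nat_lit 4886))]⟩,
    ⟨(nat_lit 3), (nat_lit 385), (nat_lit 133), (Int.ofNat (nat_lit 0)), (Int.ofNat (nat_lit 20914)),
 [(Int.ofNat (nat_lit 796)), (Int.ofNat (nat_lit 1221)), (Int.ofNat (nat_lit 1535)),
 (Int.ofNat (nat_lit 2295)), (Int.ofNat (nat_lit 1965))], [(Int.ofNat (nat_lit 3247)),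
 (Int.ofNat (nat_lit 4684)), (Int.ofNat (nat_lit 5862)), (Int.ofNat (nat_lit 7655)),
 (Int.ofNat (nat_lit 7228))]⟩]⟩
def yB15_25 : BoxB := ⟨xB15_25, [(nat_lit 23), (nat_lit 84), (nat_lit 158), (nat_lit 288), (nat_lit 552)], [(nat_lit 121), (nat_lit 349), (nat_lit 510), (nat_lit 609), (nat_lit 655)]⟩
def xB15_26 : Box := ⟨(nat_lit 167), (nat_lit 168), (nat_lit 160), (nat_lit 168), (nat_lit 15),
 (nat_lit 16), (nat_lit 12), (nat_lit 60), (nat_lit 4160), (nat_lit 7682), [(nat_lit 120), (nat_lit 200),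
 (nat_lit 300), (nat_lit 450), (nat_lit 800)], [(nat_lit 0), (nat_lit 400), (nat_lit 600), (nat_lit 750),
 (nat_lit 832)], [
    ⟨(nat_lit 3), (nat_lit 258), (nat_lit 148), (Int.ofNat (nat_lit 0)), (Int.ofNat (nat_lit 16544)),
 [(Int.ofNat (nat_lit 514)), (Int.ofNat (nat_lit 835)), (Int.ofNat (nat_lit 892)),
 (Int.ofNat (nat_lit 682)), (Int.negSucc (nat_lit 597))], [(Int.ofNat (nat_lit 2161)),
 (Int.ofNat (nat_lit 3139)), (Int.ofNat (nat_lit 3936)), (Int.ofNat (nat_lit 5216)),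
 (Int.ofNat (nat_lit 4723))]⟩,
    ⟨(nat_lit 3), (nat_lit 380), (nat_lit 126), (Int.ofNat (nat_lit 0)), (Int.ofNat (nat_lit 20743)),
 [(Int.ofNat (nat_lit 788)), (Int.ofNat (nat_lit 1188)), (Int.ofNat (nat_lit 1506)),
 (Int.ofNat (nat_lit 2459)), (Int.ofNat (nat_lit 2029))], [(Int.ofNat (nat_lit 3181)),
 (Int.ofNat (nat_lit 4619)), (Int.ofNat (nat_lit 5792)), (Int.ofNat (nat_lit 7602)),
 (Int.ofNat (nat_lit 7007))]⟩]⟩
def yB15_26 : BoxB := ⟨xB15_26, [(nat_lit 24), (nat_lit 85), (nat_lit 159), (nat_lit 290), (nat_lit 547)], [(nat_lit 123), (nat_lit 347), (nat_lit 510), (nat_lit 608), (nat_lit 649)]⟩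
def xB15_27 : Box := ⟨(nat_lit 168), (nat_lit 170), (nat_lit 168), (nat_lit 176), (nat_lit 15),
 (nat_lit 16), (nat_lit 12), (nat_lit 60), (nat_lit 4000), (nat_lit 7845), [(nat_lit 120), (nat_lit 200),
 (nat_lit 300), (nat_lit 450), (nat_lit 800)], [(nat_lit 0), (nat_lit 400), (nat_lit 600), (nat_lit 750),
 (nat_lit 792)], [
    ⟨(nat_lit 3), (nat_lit 263), (nat_lit 143), (Int.ofNat (nat_lit 0)), (Int.ofNat (nat_lit 17004)),
 [(Int.ofNat (nat_lit 529)), (Int.ofNat (nat_lit 838)), (Int.ofNat (nat_lit 871)),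
 (Int.ofNat (nat_lit 775)), (Int.negSucc (nat_lit 516))], [(Int.ofNat (nat_lit 2187)),
 (Int.ofNat (nat_lit 3196)), (Int.ofNat (nat_lit 4021)), (Int.ofNat (nat_lit 5013)),
 (Int.ofNat (nat_lit 5012))]⟩,
    ⟨(nat_lit 3), (nat_lit 403), (nat_lit 148), (Int.ofNat (nat_lit 0)), (Int.ofNat (nat_lit 22788)),
 [(Int.ofNat (nat_lit 835)), (Int.ofNat (nat_lit 1245)), (Int.ofNat (nat_lit 1535)),
 (Int.ofNat (nat_lit 1997)), (Int.ofNat (nat_lit 1726))], [(Int.ofNat (nat_lit 3348)),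
 (Int.ofNat (nat_lit 4893)), (Int.ofNat (nat_lit 6155)), (Int.ofNat (nat_lit 7704)),
 (Int.ofNat (nat_lit 7673))]⟩]⟩
def yB15_27 : BoxB := ⟨xB15_27, [(nat_lit 25), (nat_lit 86), (nat_lit 161), (nat_lit 292), (nat_lit 542)], [(nat_lit 125), (nat_lit 347), (nat_lit 509), (nat_lit 603), (nat_lit 641)]⟩
def xB15_28 : Box := ⟨(nat_lit 170), (nat_lit 172), (nat_lit 168), (nat_lit 176), (nat_lit 15),
 (nat_lit 16), (nat_lit 12), (nat_lit 60), (nat_lit 4000), (nat_lit 8002), [(nat_lit 120), (nat_lit 200),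
 (nat_lit 300), (nat_lit 450), (nat_lit 800)], [(nat_lit 0), (nat_lit 400), (nat_lit 600), (nat_lit 750),
 (nat_lit 792)], [
    ⟨(nat_lit 3), (nat_lit 253), (nat_lit 140), (Int.ofNat (nat_lit 0)), (Int.ofNat (nat_lit 16913)),
 [(Int.ofNat (nat_lit 509)), (Int.ofNat (nat_lit 783)), (Int.ofNat (nat_lit 781)),
 (Int.ofNat (nat_lit 597)), (Int.negSucc (nat_lit 666))], [(Int.ofNat (nat_lit 2071)),
 (Int.ofNat (nat_lit 3070)), (Int.ofNat (nat_lit 3877)), (Int.ofNat (nat_lit 4861)),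
 (Int.ofNat (nat_lit 4751))]⟩,
    ⟨(nat_lit 3), (nat_lit 373), (nat_lit 119), (Int.ofNat (nat_lit 0)), (Int.ofNat (nat_lit 21161)),
 [(Int.ofNat (nat_lit 772)), (Int.ofNat (nat_lit 1118)), (Int.ofNat (nat_lit 1425)),
 (Int.ofNat (nat_lit 2540)), (Int.ofNat (nat_lit 1941))], [(Int.ofNat (nat_lit 3052)),
 (Int.ofNat (nat_lit 4522)), (Int.ofNat (nat_lit 5711)), (Int.ofNat (nat_lit 7129)),
 (Int.ofNat (nat_lit 7012))]⟩,
    ⟨(nat_lit 3), (nat_lit 207), (nat_lit 148), (Int.ofNat (nat_lit 0)), (Int.ofNat (nat_lit 15286)),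
 [(Int.ofNat (nat_lit 405)), (Int.ofNat (nat_lit 682)), (Int.ofNat (nat_lit 518)),
 (Int.ofNat (nat_lit 230)), (Int.negSucc (nat_lit 1924))], [(Int.ofNat (nat_lit 1696)),
 (Int.ofNat (nat_lit 2513)), (Int.ofNat (nat_lit 3174)), (Int.ofNat (nat_lit 4021)),
 (Int.ofNat (nat_lit 3873))]⟩]⟩
def yB15_28 : BoxB := ⟨xB15_28, [(nat_lit 26), (nat_lit 88), (nat_lit 164), (nat_lit 295), (nat_lit 531)], [(nat_lit 130), (nat_lit 345), (nat_lit 507), (nat_lit 604), (nat_lit 634)]⟩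
def xB15_29 : Box := ⟨(nat_lit 172), (nat_lit 173), (nat_lit 168), (nat_lit 176), (nat_lit 15),
 (nat_lit 16), (nat_lit 12), (nat_lit 60), (nat_lit 4000), (nat_lit 8079), [(nat_lit 120), (nat_lit 200),
 (nat_lit 300), (nat_lit 450), (nat_lit 800)], [(nat_lit 0), (nat_lit 400), (nat_lit 600), (nat_lit 750),
 (nat_lit 792)], [
    ⟨(nat_lit 3), (nat_lit 330), (nat_lit 130), (Int.ofNat (nat_lit 0)), (Int.ofNat (nat_lit 19955)),
 [(Int.ofNat (nat_lit 664)), (Int.ofNat (nat_lit 975)), (Int.ofNat (nat_lit 1115)),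
 (Int.ofNat (nat_lit 1587)), (Int.ofNat (nat_lit 788))], [(Int.ofNat (nat_lit 2567)),
 (Int.ofNat (nat_lit 4310)), (Int.ofNat (nat_lit 5059)), (Int.ofNat (nat_lit 6268)),
 (Int.ofNat (nat_lit 6061))]⟩,
    ⟨(nat_lit 3), (nat_lit 246), (nat_lit 139), (Int.ofNat (nat_lit 0)), (Int.ofNat (nat_lit 16794)),
 [(Int.ofNat (nat_lit 484)), (Int.ofNat (nat_lit 768)), (Int.ofNat (nat_lit 670)),
 (Int.ofNat (nat_lit 512)), (Int.negSucc (nat_lit 981))], [(Int.ofNat (nat_lit 1981)),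
 (Int.ofNat (nat_lit 2980)), (Int.ofNat (nat_lit 3774)), (Int.ofNat (nat_lit 4717)),
 (Int.ofNat (nat_lit 4465))]⟩,
    ⟨(nat_lit 3), (nat_lit 1182), (nat_lit 257), (Int.ofNat (nat_lit 0)), (Int.ofNat (nat_lit 58962)),
 [(Int.ofNat (nat_lit 3650)), (Int.ofNat (nat_lit 3490)), (Int.ofNat (nat_lit 4764)),
 (Int.ofNat (nat_lit 11823)), (Int.ofNat (nat_lit 9109))], [(Int.ofNat (nat_lit 9504)),
 (Int.ofNat (nat_lit 14285)), (Int.ofNat (nat_lit 18095)), (Int.ofNat (nat_lit 22280)),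
 (Int.ofNat (nat_lit 21863))]⟩]⟩
def yB15_29 : BoxB := ⟨xB15_29, [(nat_lit 28), (nat_lit 91), (nat_lit 167), (nat_lit 299), (nat_lit 523)], [(nat_lit 135), (nat_lit 342), (nat_lit 505), (nat_lit 603), (nat_lit 624)]⟩
def xB15_30 : Box := ⟨(nat_lit 173), (nat_lit 174), (nat_lit 168), (nat_lit 176), (nat_lit 15),
 (nat_lit 16), (nat_lit 12), (nat_lit 60), (nat_lit 4000), (nat_lit 8155), [(nat_lit 120), (nat_lit 200),
 (nat_lit 300), (nat_lit 450), (nat_lit 800)], [(nat_lit 0), (nat_lit 400), (nat_lit 600), (nat_lit 750),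
 (nat_lit 792)], [
    ⟨(nat_lit 3), (nat_lit 274), (nat_lit 132), (Int.ofNat (nat_lit 0)), (Int.ofNat (nat_lit 17925)),
 [(Int.ofNat (nat_lit 543)), (Int.ofNat (nat_lit 811)), (Int.ofNat (nat_lit 801)),
 (Int.ofNat (nat_lit 755)), (Int.negSucc (nat_lit 225))], [(Int.ofNat (nat_lit 2188)),
 (Int.ofNat (nat_lit 3315)), (Int.ofNat (nat_lit 4207)), (Int.ofNat (nat_lit 5184)),
 (Int.ofNat (nat_lit 4913))]⟩,
    ⟨(nat_lit 3), (nat_lit 898), (nat_lit 237), (Int.ofNat (nat_lit 0)), (Int.ofNat (nat_lit 46772)),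
 [(Int.ofNat (nat_lit 1973)), (Int.ofNat (nat_lit 2579)), (Int.ofNat (nat_lit 3477)),
 (Int.ofNat (nat_lit 5177)), (Int.ofNat (nat_lit 7003))], [(Int.ofNat (nat_lit 7160)),
 (Int.ofNat (nat_lit 10845)), (Int.ofNat (nat_lit 13765)), (Int.ofNat (nat_lit 16911)),
 (Int.ofNat (nat_lit 16203))]⟩]⟩
def yB15_30 : BoxB := ⟨xB15_30, [(nat_lit 29), (nat_lit 92), (nat_lit 169), (nat_lit 301), (nat_lit 516)], [(nat_lit 137), (nat_lit 341), (nat_lit 502), (nat_lit 603), (nat_lit 619)]⟩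
def xB15_31 : Box := ⟨(nat_lit 174), (nat_lit 175), (nat_lit 168), (nat_lit 176), (nat_lit 15),
 (nat_lit 16), (nat_lit 12), (nat_lit 60), (nat_lit 4000), (nat_lit 8230), [(nat_lit 120), (nat_lit 200),
 (nat_lit 300), (nat_lit 450), (nat_lit 800)], [(nat_lit 0), (nat_lit 400), (nat_lit 600), (nat_lit 750),
 (nat_lit 792)], [
    ⟨(nat_lit 3), (nat_lit 299), (nat_lit 126), (Int.ofNat (nat_lit 0)), (Int.ofNat (nat_lit 18972)),
 [(Int.ofNat (nat_lit 598)), (Int.ofNat (nat_lit 838)), (Int.ofNat (nat_lit 922)),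
 (Int.ofNat (nat_lit 1195)), (Int.ofNat (nat_lit 304))], [(Int.ofNat (nat_lit 2366)),
 (Int.ofNat (nat_lit 3614)), (Int.ofNat (nat_lit 4596)), (Int.ofNat (nat_lit 5594)),
 (Int.ofNat (nat_lit 5209))]⟩,
    ⟨(nat_lit 3), (nat_lit 4810), (nat_lit 1207), (Int.ofNat (nat_lit 0)), (Int.ofNat (nat_lit 249805)),
 [(Int.ofNat (nat_lit 10896)), (Int.ofNat (nat_lit 13670)), (Int.ofNat (nat_lit 18519)),
 (Int.ofNat (nat_lit 40008)), (Int.ofNat (nat_lit 31747))], [(Int.ofNat (nat_lit 37998)),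
 (Int.ofNat (nat_lit 58000)), (Int.ofNat (nat_lit 73769)), (Int.ofNat (nat_lit 89412)),
 (Int.ofNat (nat_lit 86247))]⟩,
    ⟨(nat_lit 3), (nat_lit 248), (nat_lit 135), (Int.ofNat (nat_lit 0)), (Int.ofNat (nat_lit 17137)),
 [(Int.ofNat (nat_lit 489)), (Int.ofNat (nat_lit 717)), (Int.ofNat (nat_lit 627)),
 (Int.ofNat (nat_lit 461)), (Int.negSucc (nat_lit 906))], [(Int.ofNat (nat_lit 1964)),
 (Int.ofNat (nat_lit 2999)), (Int.ofNat (nat_lit 3814)), (Int.ofNat (nat_lit 4644)),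
 (Int.ofNat (nat_lit 4312))]⟩]⟩
def yB15_31 : BoxB := ⟨xB15_31, [(nat_lit 30), (nat_lit 93), (nat_lit 170), (nat_lit 303), (nat_lit 512)], [(nat_lit 139), (nat_lit 342), (nat_lit 500), (nat_lit 603), (nat_lit 615)]⟩
def xB15_32 : Box := ⟨(nat_lit 175), (nat_lit 176), (nat_lit 168), (nat_lit 176), (nat_lit 15),
 (nat_lit 16), (nat_lit 12), (nat_lit 60), (nat_lit 4000), (nat_lit 8304), [(nat_lit 120), (nat_lit 200),
 (nat_lit 300), (nat_lit 450), (nat_lit 800)], [(nat_lit 0), (nat_lit 400), (nat_lit 600), (nat_lit 750),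
 (nat_lit 792)], [
    ⟨(nat_lit 3), (nat_lit 281), (nat_lit 127), (Int.ofNat (nat_lit 0)), (Int.ofNat (nat_lit 18458)),
 [(Int.ofNat (nat_lit 559)), (Int.ofNat (nat_lit 763)), (Int.ofNat (nat_lit 797)),
 (Int.ofNat (nat_lit 1049)), (Int.negSucc (nat_lit 191))], [(Int.ofNat (nat_lit 2204)),
 (Int.ofNat (nat_lit 3394)), (Int.ofNat (nat_lit 5635)), (Int.ofNat (nat_lit 5180)),
 (Int.negSucc (nat_lit 29999))]⟩,
    ⟨(nat_lit 3), (nat_lit 836), (nat_lit 223), (Int.ofNat (nat_lit 0)), (Int.ofNat (nat_lit 44430)),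
 [(Int.ofNat (nat_lit 1827)), (Int.ofNat (nat_lit 2332)), (Int.ofNat (nat_lit 3125)),
 (Int.ofNat (nat_lit 6918)), (Int.ofNat (nat_lit 4654))], [(Int.ofNat (nat_lit 6549)),
 (Int.ofNat (nat_lit 10079)), (Int.ofNat (nat_lit 15222)), (Int.ofNat (nat_lit 15396)),
 (Int.negSucc (nat_lit 29999))]⟩]⟩
def yB15_32 : BoxB := ⟨xB15_32, [(nat_lit 30), (nat_lit 95), (nat_lit 172), (nat_lit 305), (nat_lit 506)], [(nat_lit 142), (nat_lit 340), (nat_lit 498), (nat_lit 602), (nat_lit 610)]⟩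
def xB15_33 : Box := ⟨(nat_lit 176), (nat_lit 180), (nat_lit 176), (nat_lit 184), (nat_lit 15),
 (nat_lit 16), (nat_lit 12), (nat_lit 60), (nat_lit 4458), (nat_lit 8589), [(nat_lit 90), (nat_lit 180),
 (nat_lit 330), (nat_lit 650)], [(nat_lit 0), (nat_lit 400), (nat_lit 600), (nat_lit 743)], [
    ⟨(nat_lit 3), (nat_lit 316), (nat_lit 113), (Int.ofNat (nat_lit 0)), (Int.ofNat (nat_lit 20283)),
 [(Int.ofNat (nat_lit 483)), (Int.ofNat (nat_lit 863)), (Int.ofNat (nat_lit 1033)),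
 (Int.ofNat (nat_lit 1334))], [(Int.ofNat (nat_lit 2456)), (Int.ofNat (nat_lit 3812)),
 (Int.ofNat (nat_lit 5493)), (Int.ofNat (nat_lit 5794))]⟩,
    ⟨(nat_lit 3), (nat_lit 878), (nat_lit 188), (Int.ofNat (nat_lit 0)), (Int.ofNat (nat_lit 46472)),
 [(Int.ofNat (nat_lit 2081)), (Int.ofNat (nat_lit 2276)), (Int.ofNat (nat_lit 6168)),
 (Int.ofNat (nat_lit 7174))], [(Int.ofNat (nat_lit 6815)), (Int.ofNat (nat_lit 10576)),
 (Int.ofNat (nat_lit 16271)), (Int.ofNat (nat_lit 16074))]⟩,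
    ⟨(nat_lit 3), (nat_lit 231), (nat_lit 128), (Int.ofNat (nat_lit 0)), (Int.ofNat (nat_lit 17136)),
 [(Int.ofNat (nat_lit 340)), (Int.ofNat (nat_lit 686)), (Int.ofNat (nat_lit 460)),
 (Int.negSucc (nat_lit 95))], [(Int.ofNat (nat_lit 1796)), (Int.ofNat (nat_lit 2789)),
 (Int.ofNat (nat_lit 4753)), (Int.ofNat (nat_lit 4236))]⟩]⟩
def yB15_33 : BoxB := ⟨xB15_33, [(nat_lit 17), (nat_lit 80), (nat_lit 196), (nat_lit 497)], [(nat_lit 145), (nat_lit 339), (nat_lit 497), (nat_lit 597)]⟩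
def xB15_34 : Box := ⟨(nat_lit 180), (nat_lit 184), (nat_lit 176), (nat_lit 184), (nat_lit 15),
 (nat_lit 16), (nat_lit 12), (nat_lit 60), (nat_lit 4458), (nat_lit 8858), [(nat_lit 90), (nat_lit 180),
 (nat_lit 330), (nat_lit 650)], [(nat_lit 0), (nat_lit 400), (nat_lit 600), (nat_lit 743)], [
    ⟨(nat_lit 3), (nat_lit 297), (nat_lit 110), (Int.ofNat (nat_lit 0)), (Int.ofNat (nat_lit 20135)),
 [(Int.ofNat (nat_lit 451)), (Int.ofNat (nat_lit 704)), (Int.ofNat (nat_lit 824)),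
 (Int.ofNat (nat_lit 880))], [(Int.ofNat (nat_lit 2218)), (Int.ofNat (nat_lit 3571)),
 (Int.ofNat (nat_lit 5806)), (Int.ofNat (nat_lit 5176))]⟩,
    ⟨(nat_lit 3), (nat_lit 907), (nat_lit 192), (Int.ofNat (nat_lit 0)), (Int.ofNat (nat_lit 49719)),
 [(Int.ofNat (nat_lit 2075)), (Int.ofNat (nat_lit 2226)), (Int.ofNat (nat_lit 3641)),
 (Int.ofNat (nat_lit 7376))], [(Int.ofNat (nat_lit 6764)), (Int.ofNat (nat_lit 10888)),
 (Int.ofNat (nat_lit 17267)), (Int.ofNat (nat_lit 15897))]⟩]⟩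
def yB15_34 : BoxB := ⟨xB15_34, [(nat_lit 21), (nat_lit 86), (nat_lit 208), (nat_lit 479)], [(nat_lit 157), (nat_lit 336), (nat_lit 503), (nat_lit 584)]⟩
def xB15_35 : Box := ⟨(nat_lit 184), (nat_lit 188), (nat_lit 184), (nat_lit 192), (nat_lit 15),
 (nat_lit 16), (nat_lit 12), (nat_lit 60), (nat_lit 4092), (nat_lit 9112), [(nat_lit 90), (nat_lit 180),
 (nat_lit 330), (nat_lit 650)], [(nat_lit 0), (nat_lit 400), (nat_lit 600), (nat_lit 682)], [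
    ⟨(nat_lit 3), (nat_lit 322), (nat_lit 101), (Int.ofNat (nat_lit 0)), (Int.ofNat (nat_lit 21681)),
 [(Int.ofNat (nat_lit 504)), (Int.ofNat (nat_lit 664)), (Int.ofNat (nat_lit 1222)),
 (Int.ofNat (nat_lit 1312))], [(Int.ofNat (nat_lit 2118)), (Int.ofNat (nat_lit 4154)),
 (Int.ofNat (nat_lit 5195)), (Int.ofNat (nat_lit 5567))]⟩,
    ⟨(nat_lit 3), (nat_lit 946), (nat_lit 194), (Int.ofNat (nat_lit 0)), (Int.ofNat (nat_lit 53627)),
 [(Int.ofNat (nat_lit 2403)), (Int.ofNat (nat_lit 2180)), (Int.ofNat (nat_lit 7324)),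
 (Int.ofNat (nat_lit 6732))], [(Int.ofNat (nat_lit 6738)), (Int.ofNat (nat_lit 11317)),
 (Int.ofNat (nat_lit 16307)), (Int.ofNat (nat_lit 16331))]⟩]⟩
def yB15_35 : BoxB := ⟨xB15_35, [(nat_lit 24), (nat_lit 93), (nat_lit 218), (nat_lit 457)], [(nat_lit 172), (nat_lit 332), (nat_lit 495), (nat_lit 555)]⟩
def xB15_36 : Box := ⟨(nat_lit 188), (nat_lit 192), (nat_lit 184), (nat_lit 192), (nat_lit 15),
 (nat_lit 16), (nat_lit 12), (nat_lit 60), (nat_lit 4092), (nat_lit 9351), [(nat_lit 90), (nat_lit 180),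
 (nat_lit 330), (nat_lit 650)], [(nat_lit 0), (nat_lit 400), (nat_lit 600), (nat_lit 682)], [
    ⟨(nat_lit 3), (nat_lit 325), (nat_lit 119), (Int.ofNat (nat_lit 0)), (Int.ofNat (nat_lit 23066)),
 [(Int.ofNat (nat_lit 496)), (Int.ofNat (nat_lit 501)), (Int.ofNat (nat_lit 741)),
 (Int.ofNat (nat_lit 460))], [(Int.ofNat (nat_lit 2183)), (Int.ofNat (nat_lit 3894)),
 (Int.ofNat (nat_lit 5508)), (Int.ofNat (nat_lit 5295))]⟩,
    ⟨(nat_lit 3), (nat_lit 260), (nat_lit 103), (Int.ofNat (nat_lit 0)), (Int.ofNat (nat_lit 19673)),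
 [(Int.ofNat (nat_lit 393)), (Int.ofNat (nat_lit 405)), (Int.ofNat (nat_lit 320)),
 (Int.ofNat (nat_lit 157))], [(Int.ofNat (nat_lit 1756)), (Int.ofNat (nat_lit 3106)),
 (Int.ofNat (nat_lit 4502)), (Int.ofNat (nat_lit 4161))]⟩,
    ⟨(nat_lit 3), (nat_lit 991), (nat_lit 199), (Int.ofNat (nat_lit 0)), (Int.ofNat (nat_lit 58344)),
 [(Int.ofNat (nat_lit 2570)), (Int.ofNat (nat_lit 2112)), (Int.ofNat (nat_lit 3665)),
 (Int.ofNat (nat_lit 8089))], [(Int.ofNat (nat_lit 6682)), (Int.ofNat (nat_lit 11816)),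
 (Int.ofNat (nat_lit 17066)), (Int.ofNat (nat_lit 15881))]⟩]⟩
def yB15_36 : BoxB := ⟨xB15_36, [(nat_lit 29), (nat_lit 102), (nat_lit 230), (nat_lit 431)], [(nat_lit 189), (nat_lit 333), (nat_lit 500), (nat_lit 537)]⟩
def xB15_37 : Box := ⟨(nat_lit 192), (nat_lit 196), (nat_lit 192), (nat_lit 200), (nat_lit 15),
 (nat_lit 16), (nat_lit 12), (nat_lit 60), (nat_lit 3900), (nat_lit 9575), [(nat_lit 90), (nat_lit 180),
 (nat_lit 330), (nat_lit 650)], [(nat_lit 0), (nat_lit 400), (nat_lit 601)], [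
    ⟨(nat_lit 3), (nat_lit 290), (nat_lit 92), (Int.ofNat (nat_lit 0)), (Int.ofNat (nat_lit 21345)),
 [(Int.ofNat (nat_lit 457)), (Int.ofNat (nat_lit 369)), (Int.ofNat (nat_lit 1093)),
 (Int.ofNat (nat_lit 275))], [(Int.ofNat (nat_lit 1595)), (Int.ofNat (nat_lit 3898)),
 (Int.ofNat (nat_lit 4565))]⟩,
    ⟨(nat_lit 3), (nat_lit 3989), (nat_lit 890), (Int.ofNat (nat_lit 0)), (Int.ofNat (nat_lit 250609)),
 [(Int.ofNat (nat_lit 7521)), (Int.ofNat (nat_lit 7104)), (Int.ofNat (nat_lit 13254)),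
 (Int.ofNat (nat_lit 26974))], [(Int.ofNat (nat_lit 11098)), (Int.ofNat (nat_lit 59293)),
 (Int.ofNat (nat_lit 62625))]⟩]⟩
def yB15_37 : BoxB := ⟨xB15_37, [(nat_lit 36), (nat_lit 114), (nat_lit 246), (nat_lit 403)], [(nat_lit 216), (nat_lit 328), (nat_lit 508)]⟩
def xB15_38 : Box := ⟨(nat_lit 196), (nat_lit 198), (nat_lit 192), (nat_lit 200), (nat_lit 15),
 (nat_lit 16), (nat_lit 12), (nat_lit 60), (nat_lit 3900), (nat_lit 9682), [(nat_lit 90), (nat_lit 180),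
 (nat_lit 330), (nat_lit 650)], [(nat_lit 0), (nat_lit 400), (nat_lit 601)], [
    ⟨(nat_lit 3), (nat_lit 300), (nat_lit 88), (Int.ofNat (nat_lit 0)), (Int.ofNat (nat_lit 22004)),
 [(Int.ofNat (nat_lit 488)), (Int.ofNat (nat_lit 248)), (Int.ofNat (nat_lit 974)),
 (Int.negSucc (nat_lit 230))], [(Int.ofNat (nat_lit 928)), (Int.ofNat (nat_lit 3954)),
 (Int.ofNat (nat_lit 4547))]⟩,
    ⟨(nat_lit 3), (nat_lit 3878), (nat_lit 865), (Int.ofNat (nat_lit 0)), (Int.ofNat (nat_lit 250074)),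
 [(Int.ofNat (nat_lit 7301)), (Int.ofNat (nat_lit 5494)), (Int.ofNat (nat_lit 38139)),
 (Int.negSucc (nat_lit 29999))], [(Int.negSucc (nat_lit 1315)), (Int.ofNat (nat_lit 57820)),
 (Int.ofNat (nat_lit 55763))]⟩,
    ⟨(nat_lit 3), (nat_lit 250), (nat_lit 96), (Int.ofNat (nat_lit 0)), (Int.ofNat (nat_lit 19941)),
 [(Int.ofNat (nat_lit 385)), (Int.ofNat (nat_lit 14)), (Int.ofNat (nat_lit 14625)),
 (Int.negSucc (nat_lit 29999))], [(Int.negSucc (nat_lit 12)), (Int.ofNat (nat_lit 3692)),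
 (Int.ofNat (nat_lit 3623))]⟩]⟩
def yB15_38 : BoxB := ⟨xB15_38, [(nat_lit 48), (nat_lit 130), (nat_lit 268), (nat_lit 370)], [(nat_lit 251), (nat_lit 335), (nat_lit 474)]⟩
def xB15_39 : Box := ⟨(nat_lit 198), (nat_lit 200), (nat_lit 192), (nat_lit 200), (nat_lit 15),
 (nat_lit 16), (nat_lit 12), (nat_lit 60), (nat_lit 3900), (nat_lit 9785), [(nat_lit 90), (nat_lit 180),
 (nat_lit 330), (nat_lit 650)], [(nat_lit 0), (nat_lit 400), (nat_lit 601)], [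
    ⟨(nat_lit 3), (nat_lit 378), (nat_lit 107), (Int.ofNat (nat_lit 0)), (Int.ofNat (nat_lit 26518)),
 [(Int.ofNat (nat_lit 630)), (Int.ofNat (nat_lit 189)), (Int.ofNat (nat_lit 951)),
 (Int.negSucc (nat_lit 1013))], [(Int.negSucc (nat_lit 934)), (Int.ofNat (nat_lit 5468)),
 (Int.ofNat (nat_lit 4912))]⟩,
    ⟨(nat_lit 3), (nat_lit 238), (nat_lit 95), (Int.ofNat (nat_lit 0)), (Int.ofNat (nat_lit 19653)),
 [(Int.ofNat (nat_lit 372)), (Int.negSucc (nat_lit 182)), (Int.ofNat (nat_lit 1400)),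
 (Int.negSucc (nat_lit 7821))], [(Int.negSucc (nat_lit 752)), (Int.ofNat (nat_lit 3516)),
 (Int.ofNat (nat_lit 3025))]⟩]⟩
def yB15_39 : BoxB := ⟨xB15_39, [(nat_lit 58), (nat_lit 143), (nat_lit 284), (nat_lit 347)], [(nat_lit 280), (nat_lit 342), (nat_lit 451)]⟩

/-- second entry in `[12/40, 13/40]` -/
def box12 : List BoxB := [yB12_0, yB12_1, yB12_2, yB12_3, yB12_4, yB12_5, yB12_6, yB12_7, yB12_8, yB12_9,
 yB12_10, yB12_11, yB12_12, yB12_13, yB12_14, yB12_15, yB12_16, yB12_17, yB12_18, yB12_19, yB12_20, yB12_21,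
 yB12_22]

/-- second entry in `[13/40, 14/40]` -/
def box13 : List BoxB := [yB13_0, yB13_1, yB13_2, yB13_3, yB13_4, yB13_5, yB13_6, yB13_7, yB13_8, yB13_9,
 yB13_10, yB13_11, yB13_12, yB13_13, yB13_14, yB13_15, yB13_16, yB13_17, yB13_18, yB13_19, yB13_20, yB13_21,
 yB13_22]

/-- second entry in `[14/40, 15/40]` -/
def box14 : List BoxB := [yB14_0, yB14_1, yB14_2, yB14_3, yB14_4, yB14_5, yB14_6, yB14_7, yB14_8, yB14_9,
 yB14_10, yB14_11, yB14_12, yB14_13, yB14_14, yB14_15, yB14_16, yB14_17, yB14_18, yB14_19, yB14_20, yB14_21,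
 yB14_22, yB14_23]

/-- second entry in `[15/40, 16/40]` -/
def box15 : List BoxB := [yB15_0, yB15_1, yB15_2, yB15_3, yB15_4, yB15_5, yB15_6, yB15_7, yB15_8, yB15_9,
 yB15_10, yB15_11, yB15_12, yB15_13, yB15_14, yB15_15, yB15_16, yB15_17, yB15_18, yB15_19, yB15_20, yB15_21,
 yB15_22, yB15_23, yB15_24, yB15_25, yB15_26, yB15_27, yB15_28, yB15_29, yB15_30, yB15_31, yB15_32, yB15_33,
 yB15_34, yB15_35, yB15_36, yB15_37, yB15_38, yB15_39]

end CB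
end Pool.Agent.Lib.MP_6947cd_al
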