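import Pool.Agent.Lib.MP_6947cd_al.L.Assembly

/-!
Problem MP_6947cd_al (Chollet).  The capacity of a vertex (`SpecCap`).
-/

set_option autoImplicit false
open scoped Matrix ComplexOrder
open Matrix Finset

namespace Pool.Agent.Lib.MP_6947cd_al
namespace Fr
namespace LL

variable {n : ℕ} (A : Matrix (Fin n) (Fin n) ℂ)

/-- the quadratic form of `A` on a set -/
theorem quad_nonneg (hA : A.PosSemidef) (T : Finset (Fin n)) (x : Fin n → ℂ) :
    0 ≤ (∑ a ∈ T, ∑ b ∈ T, star (x a) * A a b * x b).re := by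
  classical
  set x' : Fin n → ℂ := fun a => if a ∈ T then x a else 0 with hx'
  have h := hA.dotProduct_mulVec_nonneg x'
  have h2 := (Complex.le_def.mp h).1
  rw [Complex.zero_re] at h2
  refine h2.trans (le_of_eq ?_)
  congr 1
  simp only [dotProduct, mulVec, Pi.star_apply]
  rw [← Finset.sum_subset (Finset.subset_univ T)]
  · refine Finset.sum_congr rfl fun a ha => ?_
    rw [Finset.mul_sum, ← Finset.sum_subset (Finset.subset_univ T)]
    · refine Finset.sum_congr rfl fun b hb => ?_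
      simp only [hx', if_pos ha, if_pos hb]
      ring
    · intro b _ hb
      simp only [hx', if_neg hb, mul_zero]
  · intro a _ ha
    simp only [hx', if_neg ha, star_zero, zero_mul]

/-- the test vector `e_k - ∑ γ_i ⟨e_i, e_k⟩ e_i` -/
theorem test_vector (hA : A.PosSemidef) (hd : ∀ i, A i i = 1) (k : Fin n) (P : Finset (Fin n))
    (hk : k ∉ P) (γ : Fin n → ℝ) (hγ : ∀ i ∈ P, 0 ≤ γ i) :
    0 ≤ 1 - 2 * ∑ i ∈ P, γ i * row A i k
      + ∑ a ∈ P, ∑ b ∈ P, γ a * γ b * (‖A a k‖ * ‖A a b‖ * ‖A b k‖) := by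
  classical
  set x : Fin n → ℂ := fun a => if a = k then 1 else -((γ a : ℂ) * A a k) with hx
  have hxk : x k = 1 := if_pos rfl
  have hxP : ∀ a ∈ P, x a = -((γ a : ℂ) * A a k) := fun a ha => if_neg (fun h : a = k => hk (by rw [← h]; exact ha))
  have h := quad_nonneg A hA (insert k P) x
  rw [Finset.sum_insert hk, Finset.sum_insert hk, Complex.add_re, Complex.add_re, Complex.re_sum,
    Complex.re_sum] at h
  have e0 : (star (x k) * A k k * x k).re = 1 := by rw [hxk, hd]; simp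
  have herm : ∀ a b, A a b = star (A b a) := fun a b => (hA.1.apply a b).symm
  have e1 : ∀ b ∈ P, (star (x k) * A k b * x b).re = -(γ b * row A b k) := by
    intro b hb
    rw [hxk, hxP b hb, herm k b, star_one, one_mul]
    have : star (A b k) * -((γ b : ℂ) * A b k) = ((-(γ b * ‖A b k‖ ^ 2) : ℝ) : ℂ) := by
      have h2 : star (A b k) * A b k = ((‖A b k‖ ^ 2 : ℝ) : ℂ) := by
        rw [Complex.star_def, mul_comm, Complex.mul_conj, Complex.normSq_eq_norm_sq]
      push_cast at h2 ⊢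
      rw [mul_neg, mul_left_comm, h2]
    rw [this, Complex.ofReal_re]
    rfl
  have e2 : ∀ a ∈ P, (∑ b ∈ insert k P, star (x a) * A a b * x b).re
      ≤ -(γ a * row A a k) + ∑ b ∈ P, γ a * γ b * (‖A a k‖ * ‖A a b‖ * ‖A b k‖) := by
    intro a ha
    rw [Finset.sum_insert hk, Complex.add_re, Complex.re_sum]
    refine add_le_add (le_of_eq ?_) (Finset.sum_le_sum fun b hb => ?_)
    · rw [hxk, hxP a ha, mul_one]
      have : star (-((γ a : ℂ) * A a k)) * A a k = ((-(γ a * ‖A a k‖ ^ 2) : ℝ) : ℂ) := by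
        have h2 : star (A a k) * A a k = ((‖A a k‖ ^ 2 : ℝ) : ℂ) := by
          rw [Complex.star_def, mul_comm, Complex.mul_conj, Complex.normSq_eq_norm_sq]
        rw [star_neg, star_mul']
        have h3 : star ((γ a : ℂ)) = (γ a : ℂ) := by rw [Complex.star_def, Complex.conj_ofReal]
        rw [h3, neg_mul, mul_assoc, h2]
        push_cast
        ring
      rw [this, Complex.ofReal_re]
      rfl
    · rw [hxP a ha, hxP b hb]
      refine (Complex.re_le_norm _).trans (le_of_eq ?_)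
      rw [norm_mul, norm_mul, norm_star, norm_neg, norm_neg, norm_mul, norm_mul,
        Complex.norm_real, Complex.norm_real, Real.norm_of_nonneg (hγ a ha),
        Real.norm_of_nonneg (hγ b hb)]
      ring
  have h2 := Finset.sum_le_sum e2
  rw [Finset.sum_add_distrib, Finset.sum_neg_distrib] at h2
  rw [e0, Finset.sum_congr rfl e1, Finset.sum_neg_distrib] at h
  linarith

/-- **The capacity of a vertex.** -/
theorem specCap : SpecCap := by
  classical
  intro n A hA hd k P y hk hy hr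
  set β : Fin n → ℝ := fun i => row A i k with hβ
  have hβ1 : ∀ i, β i ≤ 1 := fun i => row_le_one A hA hd i k
  have hβ0 : ∀ i ∈ P, 0 < β i := fun i hi => by
    rw [hβ]; simp only; rw [row_symm A hA i k]; exact hr i hi
  set ρ : Fin n → ℝ := fun i => ∑ l ∈ P.erase i, y l * row A i l with hρ
  have hρ0 : ∀ i ∈ P, 0 ≤ ρ i := fun i _ => Finset.sum_nonneg fun l hl =>
    mul_nonneg (hy l (Finset.mem_of_mem_erase hl)).le (row_nonneg A i l)
  set Λ : Fin n → ℝ := fun i => y i * (4 * β i - β i ^ 2) + 4 * ρ i with hΛ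
  have hΛ0 : ∀ i ∈ P, 0 < Λ i := by
    intro i hi
    have h1 : 0 < 4 * β i - β i ^ 2 := by nlinarith [hβ0 i hi, hβ1 i]
    have h2 := mul_pos (hy i hi) h1
    have h3 := hρ0 i hi
    simp only [hΛ]
    linarith
  set σ : ℝ := ∑ i ∈ P, y i * β i ^ 2 / Λ i with hσ
  have hgoal : ∑ i ∈ P, 3 * y i * (row A i k) ^ 2
      / (y i * (4 * row A i k - (row A i k) ^ 2) + 4 * ∑ l ∈ P.erase i, y l * row A i l)
      = 3 * σ := by
    rw [hσ, Finset.mul_sum]
    refine Finset.sum_congr rfl fun i _ => ?_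
    show 3 * y i * β i ^ 2 / Λ i = _
    ring
  rw [hgoal]
  rcases P.eq_empty_or_nonempty with hP | hP
  · rw [hσ, hP]; simp
  have hσ0 : 0 < σ := Finset.sum_pos (fun i hi => by
    have := hΛ0 i hi; have := hy i hi; have := hβ0 i hi; positivity) hP
  set δ : Fin n → ℝ := fun i => σ⁻¹ * β i / Λ i with hδ
  have hδ0 : ∀ i ∈ P, 0 ≤ δ i := fun i hi => by
    have := hΛ0 i hi; have := hβ0 i hi; positivity
  set γ : Fin n → ℝ := fun i => y i * δ i with hγ
  have hγ0 : ∀ i ∈ P, 0 ≤ γ i := fun i hi => mul_nonneg (hy i hi).le (hδ0 i hi)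
  have htest := test_vector A hA hd k P hk γ hγ0
  have hX : ∑ i ∈ P, γ i * row A i k = 1 := by
    have : ∀ i ∈ P, γ i * row A i k = σ⁻¹ * (y i * β i ^ 2 / Λ i) := by
      intro i _
      simp only [hγ, hδ, hβ]
      ring
    rw [Finset.sum_congr rfl this, ← Finset.mul_sum, ← hσ, inv_mul_cancel₀ hσ0.ne']
  rw [hX] at htest
  -- the double sum
  have hdiag : ∀ a ∈ P, ∑ b ∈ P, γ a * γ b * (‖A a k‖ * ‖A a b‖ * ‖A b k‖)
      ≤ γ a ^ 2 * β a + ∑ b ∈ P.erase a, (1 / 4 * (γ a * β a) * (γ b * β b)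
        + γ a * γ b * row A a b) := by
    intro a ha
    rw [← Finset.add_sum_erase P _ ha]
    refine add_le_add (le_of_eq ?_) (Finset.sum_le_sum fun b hb => ?_)
    · rw [hd, norm_one]
      simp only [hβ, row]
      ring
    · have hg : 0 ≤ γ a * γ b := mul_nonneg (hγ0 a ha) (hγ0 b (Finset.mem_of_mem_erase hb))
      have h1 : ‖A a k‖ * ‖A a b‖ * ‖A b k‖ ≤ 1 / 4 * (β a * β b) + row A a b := by
        simp only [hβ, row]
        nlinarith [sq_nonneg (‖A a k‖ * ‖A b k‖ / 2 - ‖A a b‖)]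
      have h2 := mul_le_mul_of_nonneg_left h1 hg
      refine h2.trans (le_of_eq ?_)
      ring
  have hsum1 : ∑ a ∈ P, ∑ b ∈ P.erase a, 1 / 4 * (γ a * β a) * (γ b * β b)
      = 1 / 4 * (1 - ∑ a ∈ P, γ a ^ 2 * β a ^ 2) := by
    have h1 : ∀ a ∈ P, ∑ b ∈ P.erase a, 1 / 4 * (γ a * β a) * (γ b * β b)
        = 1 / 4 * (γ a * β a) - 1 / 4 * (γ a ^ 2 * β a ^ 2) := by
      intro a ha
      rw [← Finset.mul_sum]
      have h2 : ∑ b ∈ P.erase a, γ b * β b = 1 - γ a * β a := by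
        have h3 := Finset.add_sum_erase P (fun b => γ b * β b) ha
        have h4 : ∑ b ∈ P, γ b * β b = 1 := hX
        linarith
      rw [h2]
      ring
    rw [Finset.sum_congr rfl h1, Finset.sum_sub_distrib, ← Finset.mul_sum, ← Finset.mul_sum]
    have h4 : ∑ b ∈ P, γ b * β b = 1 := hX
    rw [h4]
    ring
  have hsum2 : ∑ a ∈ P, ∑ b ∈ P.erase a, γ a * γ b * row A a b ≤ ∑ a ∈ P, δ a ^ 2 * y a * ρ a := by
    have h1 : ∀ a ∈ P, ∀ b ∈ P.erase a, γ a * γ b * row A a b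
        ≤ 1 / 2 * (δ a ^ 2 * y a * (y b * row A a b)) + 1 / 2 * (δ b ^ 2 * y b * (y a * row A b a)) := by
      intro a ha b hb
      have hb' := Finset.mem_of_mem_erase hb
      rw [row_symm A hA b a]
      have h2 : 0 ≤ y a * y b * row A a b :=
        mul_nonneg (mul_nonneg (hy a ha).le (hy b hb').le) (row_nonneg A a b)
      simp only [hγ]
      nlinarith [mul_nonneg h2 (sq_nonneg (δ a - δ b))]
    calc ∑ a ∈ P, ∑ b ∈ P.erase a, γ a * γ b * row A a b
        ≤ ∑ a ∈ P, ∑ b ∈ P.erase a, (1 / 2 * (δ a ^ 2 * y a * (y b * row A a b))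
            + 1 / 2 * (δ b ^ 2 * y b * (y a * row A b a))) :=
          Finset.sum_le_sum fun a ha => Finset.sum_le_sum fun b hb => h1 a ha b hb
      _ = 1 / 2 * ∑ a ∈ P, ∑ b ∈ P.erase a, δ a ^ 2 * y a * (y b * row A a b)
            + 1 / 2 * ∑ a ∈ P, ∑ b ∈ P.erase a, δ b ^ 2 * y b * (y a * row A b a) := by
          simp only [Finset.sum_add_distrib, Finset.mul_sum]
      _ = 1 / 2 * ∑ a ∈ P, ∑ b ∈ P.erase a, δ a ^ 2 * y a * (y b * row A a b)
            + 1 / 2 * ∑ b ∈ P, ∑ a ∈ P.erase b, δ b ^ 2 * y b * (y a * row A b a) := by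
          congr 2
          refine Finset.sum_comm' ?_
          intro a b
          simp only [Finset.mem_erase]
          constructor
          · rintro ⟨h1, h2, h3⟩
            exact ⟨⟨Ne.symm h2, h1⟩, h3⟩
          · rintro ⟨⟨h1, h2⟩, h3⟩
            exact ⟨h2, Ne.symm h1, h3⟩
      _ = ∑ a ∈ P, ∑ b ∈ P.erase a, δ a ^ 2 * y a * (y b * row A a b) := by ring
      _ = ∑ a ∈ P, δ a ^ 2 * y a * ρ a := by
          refine Finset.sum_congr rfl fun a _ => ?_
          rw [← Finset.mul_sum]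
  have hdouble : ∑ a ∈ P, ∑ b ∈ P, γ a * γ b * (‖A a k‖ * ‖A a b‖ * ‖A b k‖)
      ≤ 1 / 4 + ∑ a ∈ P, δ a ^ 2 * y a * (Λ a / 4) := by
    refine (Finset.sum_le_sum hdiag).trans ?_
    simp only [Finset.sum_add_distrib]
    rw [hsum1]
    have h5 : ∑ a ∈ P, δ a ^ 2 * y a * (Λ a / 4) = ∑ a ∈ P, γ a ^ 2 * β a
        - 1 / 4 * ∑ a ∈ P, γ a ^ 2 * β a ^ 2 + ∑ a ∈ P, δ a ^ 2 * y a * ρ a := by
      rw [Finset.mul_sum, ← Finset.sum_sub_distrib, ← Finset.sum_add_distrib]
      refine Finset.sum_congr rfl fun a _ => ?_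
      simp only [hγ, hΛ]
      ring
    linarith
  have hlast : ∑ a ∈ P, δ a ^ 2 * y a * (Λ a / 4) = σ⁻¹ / 4 := by
    have h1 : ∀ a ∈ P, δ a ^ 2 * y a * (Λ a / 4) = σ⁻¹ ^ 2 / 4 * (y a * β a ^ 2 / Λ a) := by
      intro a ha
      have := (hΛ0 a ha).ne'
      simp only [hδ]
      field_simp
    rw [Finset.sum_congr rfl h1, ← Finset.mul_sum, ← hσ]
    field_simp
  have h9 : 3 ≤ σ⁻¹ := by linarith
  have h10 : 3 * σ ≤ σ⁻¹ * σ := mul_le_mul_of_nonneg_right h9 hσ0.le
  rwa [inv_mul_cancel₀ hσ0.ne'] at h10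

end LL
end Fr
end Pool.Agent.Lib.MP_6947cd_al
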