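import Pool.Agent.Lib.MP_6947cd_al.L.Multi

/-!
Problem MP_6947cd_al (Chollet).  REDUCTION OF ROWS TO CELLS AND CORNERS.

`ks` = increasing list of knots, `a` = knot to the left (`a = 0` at the beginning).  A multiset `M` of
entries is reduced (`Red a ks ns fs M`) if it consists of `ns p` copies of the knot `ks p` and of at most one
entry (present iff `fs p = true`) strictly inside the piece before `ks p`.

* `reduce`: every multiset with entries in `[a, top]` can be replaced by `m` copies of `a` and a reduced
  multiset: `FM` does not decrease, all the sums of functions which are affine on the pieces are kept.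
* `corner_le`: a functional which is convex in every entry on every piece is bounded on a reduced multiset
  by its maximum over the corners `cors ns fs` (natural number lists).
-/

set_option autoImplicit false
open Finset

namespace Pool.Agent.Lib.MP_6947cd_al
namespace Ent

/-- increasing knots, the last one at most `1` -/
def Inc : ℝ → List ℝ → Prop
  | a, [] => a ≤ 1
  | a, k :: ks => a < k ∧ Inc k ks

/-- the last knot -/
def top : ℝ → List ℝ → ℝ
  | a, [] => a
  | _, k :: ks => top k ks

/-- affine on the pieces -/
def Aff (φ : ℝ → ℝ) : ℝ → List ℝ → Prop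
  | _, [] => True
  | a, k :: ks => (∃ α β : ℝ, ∀ x, a ≤ x → x ≤ k → φ x = α * x + β) ∧ Aff φ k ks

/-- reduced multisets -/
def Red : ℝ → List ℝ → List ℕ → List Bool → Multiset ℝ → Prop
  | _, [], [], [], M => M = 0
  | a, k :: ks, n :: ns, f :: fs, M => ∃ M' r : Multiset ℝ, Red k ks ns fs M' ∧
      (match f with
        | true => ∃ x, a < x ∧ x < k ∧ r = {x}
        | false => r = 0) ∧ M = r + (Multiset.replicate n k + M')
  | _, _, _, _, _ => False

/-- the corners: number of entries moved to the knot `a`, multiplicities of the knots -/
def cors : List ℕ → List Bool → List (ℕ × List ℕ)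
  | [], _ => [(0, [])]
  | n :: ns, true :: fs => (cors ns fs).flatMap fun t =>
      [(1, (n + t.1) :: t.2), (0, (n + t.1 + 1) :: t.2)]
  | n :: ns, false :: fs => (cors ns fs).flatMap fun t => [(0, (n + t.1) :: t.2)]
  | n :: ns, [] => [(0, n :: ns)]

/-- convexity of a functional in every entry on every piece -/
def ConvP (V : Multiset ℝ → ℝ) : ℝ → List ℝ → Prop
  | _, [] => True
  | a, k :: ks => (∀ N : Multiset ℝ, (∀ x ∈ N, 0 ≤ x ∧ x ≤ 1) →
      ConvexOn ℝ (Set.Icc a k) fun t => V (t ::ₘ N)) ∧ ConvP V k ks

lemma Inc.le_one {ks : List ℝ} : ∀ {a : ℝ}, Inc a ks → a ≤ 1 := by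
  induction ks with
  | nil => intro a h; exact h
  | cons k ks ih => intro a h; exact h.1.le.trans (ih h.2)

lemma Inc.le_top {ks : List ℝ} : ∀ {a : ℝ}, Inc a ks → a ≤ top a ks := by
  induction ks with
  | nil => intro a _; exact le_rfl
  | cons k ks ih => intro a h; exact h.1.le.trans (ih h.2)

/-- two entries inside a piece -/
lemma piece_two (a c : ℝ) (ha : 0 ≤ a) (hc : c ≤ 1) (T : Multiset ℝ)
    (hT1 : 1 ∈ T) (hT : ∀ z ∈ T, 0 ≤ z ∧ z ≤ 1) (x y : ℝ) (hy : a < y) (hyx : y ≤ x) (hx : x < c) :
    ∃ (m n : ℕ) (r : Multiset ℝ), r.card ≤ 1 ∧ (∀ z ∈ r, a < z ∧ z < c) ∧ m + n + r.card = 2 ∧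
      m * a + n * c + r.sum = x + y ∧
      FM (x ::ₘ y ::ₘ T) ≤ FM (T + (Multiset.replicate m a + Multiset.replicate n c + r)) := by
  rcases le_total (y - a) (c - x) with h | h
  · have h1 := FM_transfer T hT1 hT x y (y - a) (by linarith) (by linarith) hyx (by linarith)
    rw [show y - (y - a) = a by ring] at h1
    rcases eq_or_lt_of_le h with h2 | h2
    · refine ⟨1, 1, 0, by simp, by simp, by simp, by simp; linarith, h1.trans (le_of_eq ?_)⟩
      rw [show x + (y - a) = c by linarith]
      congr 1
      rw [Multiset.replicate_one, Multiset.replicate_one, add_zero, add_comm T, add_assoc,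
        Multiset.singleton_add, Multiset.singleton_add, Multiset.cons_swap]
    · refine ⟨1, 0, {x + (y - a)}, by simp, ?_, by simp, by simp; ring, h1.trans (le_of_eq ?_)⟩
      · intro z hz
        rw [Multiset.mem_singleton] at hz
        subst hz
        constructor <;> linarith
      · congr 1
        rw [Multiset.replicate_one, Multiset.replicate_zero, add_zero, add_comm T, add_assoc,
          Multiset.singleton_add, Multiset.singleton_add, Multiset.cons_swap]
  · rcases eq_or_lt_of_le h with h2 | h2
    · have h1 := FM_transfer T hT1 hT x y (y - a) (by linarith) (by linarith) hyx (by linarith)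
      rw [show y - (y - a) = a by ring] at h1
      refine ⟨1, 1, 0, by simp, by simp, by simp, by simp; linarith, h1.trans (le_of_eq ?_)⟩
      rw [show x + (y - a) = c by linarith]
      congr 1
      rw [Multiset.replicate_one, Multiset.replicate_one, add_zero, add_comm T, add_assoc,
        Multiset.singleton_add, Multiset.singleton_add, Multiset.cons_swap]
    · have h1 := FM_transfer T hT1 hT x y (c - x) (by linarith) (by linarith) hyx (by linarith)
      rw [show x + (c - x) = c by ring] at h1
      refine ⟨0, 1, {y - (c - x)}, by simp, ?_, by simp, by simp; ring, h1.trans (le_of_eq ?_)⟩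
      · intro z hz
        rw [Multiset.mem_singleton] at hz
        subst hz
        constructor <;> linarith
      · congr 1
        rw [Multiset.replicate_one, Multiset.replicate_zero, zero_add, add_comm T, add_assoc,
          Multiset.singleton_add, Multiset.singleton_add]

/-- ONE PIECE: at most one entry strictly inside. -/
theorem piece (a c : ℝ) (ha : 0 ≤ a) (hac : a < c) (hc : c ≤ 1) (M : Multiset ℝ) :
    ∀ S : Multiset ℝ, 1 ∈ S → (∀ z ∈ S, 0 ≤ z ∧ z ≤ 1) → (∀ z ∈ M, a ≤ z ∧ z ≤ c) →
    ∃ (m n : ℕ) (r : Multiset ℝ), r.card ≤ 1 ∧ (∀ z ∈ r, a < z ∧ z < c) ∧ m + n + r.card = M.card ∧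
      m * a + n * c + r.sum = M.sum ∧
      FM (S + M) ≤ FM (S + (Multiset.replicate m a + Multiset.replicate n c + r)) := by
  induction M using Multiset.induction_on with
  | empty =>
    intro S _ _ _
    exact ⟨0, 0, 0, by simp, by simp, by simp, by simp, by simp⟩
  | cons x M ih =>
    intro S hS1 hS hM
    have hx := hM x (Multiset.mem_cons_self x M)
    obtain ⟨m, n, r, h1, h2, h3, h4, h5⟩ := ih (x ::ₘ S) (Multiset.mem_cons_of_mem hS1) (by
      intro z hz
      rcases Multiset.mem_cons.mp hz with rfl | hz
      · exact ⟨ha.trans hx.1, hx.2.trans hc⟩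
      · exact hS z hz) (fun z hz => hM z (Multiset.mem_cons_of_mem hz))
    have e0 : S + x ::ₘ M = x ::ₘ S + M := by
      rw [Multiset.add_cons, Multiset.cons_add]
    rcases eq_or_lt_of_le hx.1 with hxa | hxa
    · refine ⟨m + 1, n, r, h1, h2, by rw [Multiset.card_cons]; omega, ?_, ?_⟩
      · rw [Multiset.sum_cons, ← h4, ← hxa]; push_cast; ring
      · rw [e0]
        refine h5.trans (le_of_eq ?_)
        congr 1
        simp only [Multiset.replicate_succ, ← hxa, ← Multiset.singleton_add]
        abel
    rcases eq_or_lt_of_le hx.2 with hxc | hxc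
    · refine ⟨m, n + 1, r, h1, h2, by rw [Multiset.card_cons]; omega, ?_, ?_⟩
      · rw [Multiset.sum_cons, ← h4, hxc]; push_cast; ring
      · rw [e0]
        refine h5.trans (le_of_eq ?_)
        congr 1
        simp only [Multiset.replicate_succ, hxc, ← Multiset.singleton_add]
        abel
    rcases Nat.lt_or_ge 0 r.card with hr | hr
    · obtain ⟨y, rfl⟩ := Multiset.card_eq_one.mp (le_antisymm h1 hr)
      have hy := h2 y (Multiset.mem_singleton_self y)
      have hT1 : 1 ∈ S + (Multiset.replicate m a + Multiset.replicate n c) :=
        Multiset.mem_add.mpr (Or.inl hS1)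
      have hT : ∀ z ∈ S + (Multiset.replicate m a + Multiset.replicate n c), 0 ≤ z ∧ z ≤ 1 := by
        intro z hz
        rcases Multiset.mem_add.mp hz with hz | hz
        · exact hS z hz
        rcases Multiset.mem_add.mp hz with hz | hz
        · rw [Multiset.eq_of_mem_replicate hz]; exact ⟨ha, hac.le.trans hc⟩
        · rw [Multiset.eq_of_mem_replicate hz]; exact ⟨ha.trans hac.le, hc⟩
      have key : ∃ (m' n' : ℕ) (r' : Multiset ℝ), r'.card ≤ 1 ∧ (∀ z ∈ r', a < z ∧ z < c) ∧
          m' + n' + r'.card = 2 ∧ m' * a + n' * c + r'.sum = x + y ∧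
          FM (x ::ₘ y ::ₘ (S + (Multiset.replicate m a + Multiset.replicate n c)))
            ≤ FM (S + (Multiset.replicate m a + Multiset.replicate n c)
              + (Multiset.replicate m' a + Multiset.replicate n' c + r')) := by
        rcases le_total y x with hyx | hyx
        · exact piece_two a c ha hc _ hT1 hT x y hy.1 hyx hxc
        · obtain ⟨m', n', r', g1, g2, g3, g4, g5⟩ :=
            piece_two a c ha hc _ hT1 hT y x hxa hyx hy.2
          exact ⟨m', n', r', g1, g2, g3, by linarith, by rw [Multiset.cons_swap]; exact g5⟩
      obtain ⟨m', n', r', g1, g2, g3, g4, g5⟩ := key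
      refine ⟨m + m', n + n', r', g1, g2, ?_, ?_, ?_⟩
      · rw [Multiset.card_cons, ← h3, Multiset.card_singleton]; omega
      · rw [Multiset.sum_cons, ← h4, Multiset.sum_singleton]
        push_cast
        linarith
      · rw [e0]
        refine h5.trans (le_trans (le_of_eq ?_) (g5.trans (le_of_eq ?_)))
        · congr 1
          simp only [← Multiset.singleton_add]
          abel
        · congr 1
          rw [Multiset.replicate_add, Multiset.replicate_add]
          abel
    · have hr0 : r = 0 := Multiset.card_eq_zero.mp (Nat.le_zero.mp hr)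
      subst hr0
      refine ⟨m, n, {x}, by simp, ?_, ?_, ?_, ?_⟩
      · intro z hz
        rw [Multiset.mem_singleton] at hz
        subst hz
        exact ⟨hxa, hxc⟩
      · rw [Multiset.card_cons, ← h3]; simp
      · rw [Multiset.sum_cons, ← h4]; simp; ring
      · rw [e0]
        refine h5.trans (le_of_eq ?_)
        congr 1
        simp only [← Multiset.singleton_add]
        abel

/-- sums of affine functions -/
lemma sum_affine (M : Multiset ℝ) (φ : ℝ → ℝ) (a c α β : ℝ) (h : ∀ x, a ≤ x → x ≤ c → φ x = α * x + β)
    (hM : ∀ z ∈ M, a ≤ z ∧ z ≤ c) : (M.map φ).sum = α * M.sum + β * M.card := by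
  induction M using Multiset.induction_on with
  | empty => simp
  | cons x M ih =>
    have hx := hM x (Multiset.mem_cons_self x M)
    rw [Multiset.map_cons, Multiset.sum_cons, ih (fun z hz => hM z (Multiset.mem_cons_of_mem hz)),
      h x hx.1 hx.2, Multiset.sum_cons, Multiset.card_cons]
    push_cast
    ring

/-- REDUCTION of a multiset of entries. -/
theorem reduce (ks : List ℝ) : ∀ (a : ℝ), 0 ≤ a → Inc a ks → ∀ (S M : Multiset ℝ), 1 ∈ S →
    (∀ z ∈ S, 0 ≤ z ∧ z ≤ 1) → (∀ z ∈ M, a ≤ z ∧ z ≤ top a ks) →
    ∃ (m : ℕ) (ns : List ℕ) (fs : List Bool) (M' : Multiset ℝ), Red a ks ns fs M' ∧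
      FM (S + M) ≤ FM (S + (Multiset.replicate m a + M')) ∧
      (∀ φ : ℝ → ℝ, Aff φ a ks → (M.map φ).sum = m * φ a + (M'.map φ).sum) ∧
      M.sum = m * a + M'.sum := by
  induction ks with
  | nil =>
    intro a _ _ S M _ _ hM
    have e : M = Multiset.replicate M.card a := by
      rw [Multiset.eq_replicate]
      exact ⟨rfl, fun z hz => le_antisymm (hM z hz).2 (hM z hz).1⟩
    refine ⟨M.card, [], [], 0, rfl, by rw [add_zero, ← e], fun φ _ => ?_, ?_⟩
    · rw [e]; simp
    · rw [e]; simp
  | cons k ks ih =>
    intro a ha hinc S M hS1 hS hM
    have hk1 := hinc.2.le_one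
    set M1 := M.filter (fun x => x ≤ k) with hM1
    set M2 := M.filter (fun x => ¬ x ≤ k) with hM2
    have e : M1 + M2 = M := Multiset.filter_add_not _ M
    have hM1' : ∀ z ∈ M1, a ≤ z ∧ z ≤ k := fun z hz =>
      ⟨(hM z (Multiset.mem_of_mem_filter hz)).1, (Multiset.mem_filter.mp hz).2⟩
    have hM2' : ∀ z ∈ M2, k ≤ z ∧ z ≤ top k ks := fun z hz =>
      ⟨(not_le.mp (Multiset.mem_filter.mp hz).2).le, (hM z (Multiset.mem_of_mem_filter hz)).2⟩
    have htop1 : ∀ (ks : List ℝ) (k : ℝ), Inc k ks → top k ks ≤ 1 := by
      intro ks
      induction ks with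
      | nil => intro k h; exact h
      | cons k' ks ih => intro k h; exact ih k' h.2
    have hk0 : 0 ≤ k := ha.trans hinc.1.le
    obtain ⟨m, n, r, h1, h2, h3, h4, h5⟩ := piece a k ha hinc.1 hk1 M1 (S + M2)
      (Multiset.mem_add.mpr (Or.inl hS1)) (by
        intro z hz
        rcases Multiset.mem_add.mp hz with hz | hz
        · exact hS z hz
        · exact ⟨hk0.trans (hM2' z hz).1, (hM2' z hz).2.trans (htop1 ks k hinc.2)⟩) hM1'
    obtain ⟨m', ns, fs, M', g1, g2, g3, g4⟩ := ih k hk0 hinc.2
      (S + (Multiset.replicate m a + Multiset.replicate n k + r)) M2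
      (Multiset.mem_add.mpr (Or.inl hS1)) (by
        intro z hz
        rcases Multiset.mem_add.mp hz with hz | hz
        · exact hS z hz
        rcases Multiset.mem_add.mp hz with hz | hz
        · rcases Multiset.mem_add.mp hz with hz | hz
          · rw [Multiset.eq_of_mem_replicate hz]; exact ⟨ha, hinc.1.le.trans hk1⟩
          · rw [Multiset.eq_of_mem_replicate hz]; exact ⟨hk0, hk1⟩
        · exact ⟨ha.trans (h2 z hz).1.le, (h2 z hz).2.le.trans hk1⟩) hM2'
    have hr : ∃ f : Bool, (match f with
        | true => ∃ x, a < x ∧ x < k ∧ r = {x}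
        | false => r = 0) := by
      rcases Nat.lt_or_ge 0 r.card with hr | hr
      · obtain ⟨y, rfl⟩ := Multiset.card_eq_one.mp (le_antisymm h1 hr)
        have hy := h2 y (Multiset.mem_singleton_self y)
        exact ⟨true, y, hy.1, hy.2, rfl⟩
      · exact ⟨false, Multiset.card_eq_zero.mp (Nat.le_zero.mp hr)⟩
    obtain ⟨f, hf⟩ := hr
    refine ⟨m, (n + m') :: ns, f :: fs, r + (Multiset.replicate (n + m') k + M'),
      ⟨M', r, g1, hf, rfl⟩, ?_, ?_, ?_⟩
    · calc FM (S + M) = FM (S + M2 + M1) := by
            congr 1
            rw [← e]
            abel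
        _ ≤ _ := h5
        _ = FM (S + (Multiset.replicate m a + Multiset.replicate n k + r) + M2) := by
            congr 1
            abel
        _ ≤ _ := g2
        _ = _ := by
            congr 1
            rw [Multiset.replicate_add]
            abel
    · intro φ hφ
      obtain ⟨⟨α, β, hαβ⟩, hφ2⟩ := hφ
      have g3' := g3 φ hφ2
      have e1 := sum_affine M1 φ a k α β hαβ hM1'
      have e2 := sum_affine r φ a k α β hαβ (fun z hz => ⟨(h2 z hz).1.le, (h2 z hz).2.le⟩)
      have e3 : φ a = α * a + β := hαβ a le_rfl hinc.1.le
      have e4 : φ k = α * k + β := hαβ k hinc.1.le le_rfl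
      have h3' : (m : ℝ) + n + r.card = M1.card := by exact_mod_cast h3
      rw [← e, Multiset.map_add, Multiset.sum_add, g3', e1]
      simp only [Multiset.map_add, Multiset.sum_add, Multiset.map_replicate, Multiset.sum_replicate,
        nsmul_eq_mul, e2, e3, e4]
      rw [← h4, ← h3']
      push_cast
      ring
    · rw [← e, Multiset.sum_add, g4, ← h4]
      simp only [Multiset.sum_add, Multiset.sum_replicate, nsmul_eq_mul]
      push_cast
      ring

/-- CORNERS. -/
theorem corner_le (V : Multiset ℝ → ℝ) (C : ℝ) (ks : List ℝ) :
    ∀ (a : ℝ) (ns : List ℕ) (fs : List Bool) (N M' : Multiset ℝ), 0 ≤ a → Inc a ks →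
      Red a ks ns fs M' → ConvP V a ks → (∀ z ∈ N, 0 ≤ z ∧ z ≤ 1) →
      (∀ t ∈ cors ns fs, V (N + (Multiset.replicate t.1 a + mk t.2 ks)) ≤ C) → V (N + M') ≤ C := by
  induction ks with
  | nil =>
    intro a ns fs N M' _ _ hred _ _ h
    cases ns with
    | nil =>
      cases fs with
      | nil =>
        have h0 : M' = 0 := hred
        have := h (0, []) (by simp [cors])
        rw [h0]
        simpa [mk_nil] using this
      | cons f fs => exact hred.elim
    | cons n ns => cases fs <;> exact hred.elim
  | cons k ks ih =>
    intro a ns fs N M' ha hinc hred hconv hN h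
    cases ns with
    | nil => exact hred.elim
    | cons n ns =>
      cases fs with
      | nil => exact hred.elim
      | cons f fs =>
        obtain ⟨M2, r, hred2, hf, hM'⟩ := hred
        have hk0 : 0 ≤ k := ha.trans hinc.1.le
        have hk1 := hinc.2.le_one
        have hvalid : ∀ N' : Multiset ℝ, (∀ z ∈ N', 0 ≤ z ∧ z ≤ 1) →
            ∀ z ∈ N' + Multiset.replicate n k, 0 ≤ z ∧ z ≤ 1 := by
          intro N' hN' z hz
          rcases Multiset.mem_add.mp hz with hz | hz
          · exact hN' z hz
          · rw [Multiset.eq_of_mem_replicate hz]; exact ⟨hk0, hk1⟩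
        have hM2v : ∀ (ks : List ℝ) (a : ℝ) (ns : List ℕ) (fs : List Bool) (M : Multiset ℝ), 0 ≤ a →
            Inc a ks → Red a ks ns fs M → ∀ z ∈ M, 0 ≤ z ∧ z ≤ 1 := by
          intro ks
          induction ks with
          | nil =>
            intro a ns fs M _ _ hr z hz
            cases ns with
            | nil =>
              cases fs with
              | nil =>
                have h0 : M = 0 := hr
                rw [h0] at hz
                exact absurd hz (Multiset.notMem_zero z)
              | cons f fs => exact hr.elim
            | cons n ns => cases fs <;> exact hr.elim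
          | cons k ks ih =>
            intro a ns fs M ha hinc hr z hz
            cases ns with
            | nil => exact hr.elim
            | cons n ns =>
              cases fs with
              | nil => exact hr.elim
              | cons f fs =>
                obtain ⟨M2, r, hr2, hf, rfl⟩ := hr
                rcases Multiset.mem_add.mp hz with hz | hz
                · cases f with
                  | true =>
                    obtain ⟨x, h1, h2, rfl⟩ := hf
                    rw [Multiset.mem_singleton] at hz
                    subst hz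
                    exact ⟨ha.trans h1.le, h2.le.trans hinc.2.le_one⟩
                  | false =>
                    have hf' : r = 0 := hf
                    rw [hf'] at hz
                    exact absurd hz (Multiset.notMem_zero z)
                · rcases Multiset.mem_add.mp hz with hz | hz
                  · rw [Multiset.eq_of_mem_replicate hz]
                    exact ⟨ha.trans hinc.1.le, hinc.2.le_one⟩
                  · exact ih k ns fs M2 (ha.trans hinc.1.le) hinc.2 hr2 z hz
        cases f with
        | false =>
          have hf' : r = 0 := hf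
          rw [hM', hf', zero_add, ← add_assoc]
          refine ih k ns fs (N + Multiset.replicate n k) M2 hk0 hinc.2 hred2 hconv.2 (hvalid N hN) ?_
          intro t ht
          have h1 := h (0, (n + t.1) :: t.2) (by
            simp only [cors, List.mem_flatMap]
            exact ⟨t, ht, by simp⟩)
          refine le_trans (le_of_eq ?_) h1
          congr 1
          rw [mk_cons, Multiset.replicate_zero, zero_add, Multiset.replicate_add]
          abel
        | true =>
          obtain ⟨x, hx1, hx2, hr⟩ := hf
          have hcv := hconv.1 (N + (Multiset.replicate n k + M2)) (by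
            intro z hz
            rcases Multiset.mem_add.mp hz with hz | hz
            · exact hN z hz
            rcases Multiset.mem_add.mp hz with hz | hz
            · rw [Multiset.eq_of_mem_replicate hz]; exact ⟨hk0, hk1⟩
            · exact hM2v ks k ns fs M2 hk0 hinc.2 hred2 z hz)
          have hmax := hcv.le_max_of_mem_Icc (Set.left_mem_Icc.mpr hinc.1.le)
            (Set.right_mem_Icc.mpr hinc.1.le) ⟨hx1.le, hx2.le⟩
          beta_reduce at hmax
          have e : N + M' = x ::ₘ (N + (Multiset.replicate n k + M2)) := by
            rw [hM', hr, ← Multiset.singleton_add]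
            abel
          rw [e]
          refine hmax.trans (max_le ?_ ?_)
          · have h0 := ih k ns fs (a ::ₘ N + Multiset.replicate n k) M2 hk0 hinc.2 hred2 hconv.2
              (hvalid _ (by
                intro z hz
                rcases Multiset.mem_cons.mp hz with rfl | hz
                · exact ⟨ha, hinc.1.le.trans hk1⟩
                · exact hN z hz)) (by
                intro t ht
                have h1 := h (1, (n + t.1) :: t.2) (by
                  simp only [cors, List.mem_flatMap]
                  exact ⟨t, ht, by simp⟩)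
                refine le_trans (le_of_eq ?_) h1
                congr 1
                rw [mk_cons, Multiset.replicate_one, Multiset.replicate_add,
                  ← Multiset.singleton_add a N]
                abel)
            refine le_trans (le_of_eq ?_) h0
            congr 1
            rw [← Multiset.singleton_add, ← Multiset.singleton_add a N]
            abel
          · have h0 := ih k ns fs (k ::ₘ N + Multiset.replicate n k) M2 hk0 hinc.2 hred2 hconv.2
              (hvalid _ (by
                intro z hz
                rcases Multiset.mem_cons.mp hz with rfl | hz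
                · exact ⟨hk0, hk1⟩
                · exact hN z hz)) (by
                intro t ht
                have h1 := h (0, (n + t.1 + 1) :: t.2) (by
                  simp only [cors, List.mem_flatMap]
                  exact ⟨t, ht, by simp⟩)
                refine le_trans (le_of_eq ?_) h1
                congr 1
                rw [mk_cons, Multiset.replicate_zero, zero_add, Multiset.replicate_add,
                  Multiset.replicate_add, Multiset.replicate_one, ← Multiset.singleton_add k N]
                abel)
            refine le_trans (le_of_eq ?_) h0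
            congr 1
            rw [← Multiset.singleton_add, ← Multiset.singleton_add k N]
            abel

end Ent
end Pool.Agent.Lib.MP_6947cd_al
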