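import Pool.Agent.Lib.MP_6947cd_al.L.WTab
import Pool.Agent.Lib.MP_6947cd_al.T.LogTab

/-!
Problem MP_6947cd_al (Chollet).  A CONCAVE piecewise linear lower bound `Wc` of the row value `What` on
`(3/10, 37/5]`, nodes at the multiples of `1/50`.
-/

set_option autoImplicit false
set_option maxRecDepth 100000
open Finset

namespace Pool.Agent.Lib.MP_6947cd_al
namespace Fr
namespace WT

/-- the nodes `k = 15, .., 370` (`/ 10^7`) -/
def yl : List ℕ :=
    [92589, 160451, 228131, 295624, 362925, 430032, 496940, 563647,
    630151, 696449, 762539, 828419, 894089, 959547, 1024792, 1089823,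
    1154640, 1219243, 1283630, 1347803, 1411760, 1475503, 1539030, 1602343,
    1665442, 1728326, 1790998, 1853456, 1915703, 1977737, 2039561, 2101175,
    2162580, 2223775, 2284764, 2345545, 2406121, 2466492, 2526659, 2586623,
    2646385, 2705946, 2765307, 2824469, 2883434, 2942201, 3000773, 3059150,
    3117334, 3175325, 3233124, 3290733, 3348153, 3405385, 3462430, 3519288,
    3575962, 3632452, 3688759, 3744884, 3800829, 3856594, 3912181, 3967590,
    4022823, 4077881, 4132764, 4187474, 4242013, 4296380, 4350577, 4404605,
    4458464, 4512157, 4565684, 4619046, 4672244, 4725279, 4778151, 4830863,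
    4883415, 4935807, 4988041, 5040118, 5092039, 5143804, 5195415, 5246873,
    5298178, 5349331, 5400333, 5451186, 5501890, 5552445, 5602853, 5653115,
    5703231, 5753203, 5803031, 5852716, 5902258, 5951660, 6000921, 6050042,
    6099025, 6147869, 6196576, 6245147, 6293582, 6341882, 6390048, 6438080,
    6485980, 6533748, 6581385, 6628892, 6676269, 6723517, 6770637, 6817629,
    6864495, 6911235, 6957849, 7004338, 7050704, 7096946, 7143066, 7189064,
    7234940, 7280696, 7326332, 7371849, 7417247, 7462527, 7507690, 7552736,
    7597665, 7642480, 7687179, 7731764, 7776236, 7820594, 7864840, 7908974,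
    7952997, 7996909, 8040711, 8084404, 8127988, 8171463, 8214830, 8258090,
    8301243, 8344290, 8387232, 8430068, 8472800, 8515428, 8557952, 8600373,
    8642692, 8684909, 8727025, 8769039, 8810953, 8852767, 8894482, 8936098,
    8977615, 9019035, 9060357, 9101582, 9142710, 9183743, 9224680, 9265521,
    9306268, 9346921, 9387480, 9427946, 9468319, 9508600, 9548789, 9588886,
    9628892, 9668807, 9708633, 9748368, 9788014, 9827571, 9867040, 9906420,
    9945713, 9984918, 10024037, 10063069, 10102015, 10140875, 10179650, 10218340,
    10256946, 10295467, 10333905, 10372259, 10410531, 10448719, 10486826, 10524850,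
    10562793, 10600655, 10638436, 10676137, 10713757, 10751298, 10788760, 10826142,
    10863446, 10900672, 10937819, 10974889, 11011882, 11048798, 11085637, 11122400,
    11159087, 11195698, 11232234, 11268695, 11305081, 11341393, 11377631, 11413795,
    11449886, 11485904, 11521849, 11557721, 11593522, 11629250, 11664907, 11700493,
    11736008, 11771452, 11806825, 11842129, 11877363, 11912527, 11947622, 11982648,
    12017606, 12052495, 12087316, 12122069, 12156755, 12191374, 12225925, 12260410,
    12294828, 12329180, 12363467, 12397687, 12431842, 12465932, 12499958, 12533918,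
    12567814, 12601646, 12635415, 12669119, 12702761, 12736339, 12769854, 12803307,
    12836697, 12870026, 12903292, 12936497, 12969640, 13002722, 13035743, 13068704,
    13101604, 13134444, 13167224, 13199944, 13232604, 13265206, 13297748, 13330231,
    13362656, 13395022, 13427330, 13459580, 13491772, 13523906, 13555984, 13588004,
    13619967, 13651874, 13683724, 13715517, 13747255, 13778937, 13810563, 13842134,
    13873649, 13905109, 13936515, 13967865, 13999162, 14030404, 14061592, 14092726,
    14123806, 14154833, 14185807, 14216727, 14247595, 14278410, 14309172, 14339882,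
    14370540, 14401146, 14431700, 14462202, 14492653, 14523052, 14553401, 14583699,
    14613946, 14644142, 14674288, 14704384, 14734430, 14764426, 14794372, 14824269,
    14854116, 14883915, 14913664, 14943365, 14973016, 15002620, 15032175, 15061681,
    15091140, 15120551, 15149915, 15179230, 15208499, 15237720, 15266894, 15296021,
    15325102, 15354136, 15383123, 15412065]

/-- the nodes as a packed number, digits of 32 bits -/
def YP : ℕ := (nat_lit 241551363661704780970916898541524714402647602642664557681408493432904420057505833648722218432531615638449173129334017303864919807895863534706485115945699867853259362227426713488767911054008668776471878331160177177055530625206710450434387456236604873051639010895251227752644223907838473049861312935410851364140515012075565686708372823625403584208492363979916949582122602472741718356603009360874201444227442197290965020624613839116080075083361688597916802961174151042842341601012802423659719078061403431151092333729254909778407101799107270645555052127781568619567685998561455072085842400934889396637289315056726459502848983024281878311075535626221447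8827276336830104256571311299984806754669164291913945040067674948136518333481743838872236491607832306901330118324106446176201372339150969698825093600933913967164815502669555896089351854352839472721431710834828958394087818282997995999085221976239259534067188640544822333453608873821784529714671797568101349549407901307602028394567999148166826515296411910587481910013764031536703262894301106813794193987224525151451546995213819220129403269742117840640619847663117348839672219967075906543349695504571228394596169469306027914183357881468564212934303996264054959509949680830258479506539662788083559640233686639493079897252696145161500407069356492252008408607065367862882138711404364923110827241015877085239314031760377902819701912201689099653033412245280540608538084812448473241917522610894230248158732670602833824866171418395283487612314888440932670212635421861626721563902838179443327414187904706594848432403391509986622968787268948686633077448484984892215622925048907908311310583911163823696045739039282227257940158530083522216144420212334787144658718242780279995121862140731534023472943749628498489186926812554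5410214255954827267092594027868490772805678151373334057106832628472844560537881691207216363106010567144006765162538185600039078272802161045424663788417790264533156359064964987865153711452380160584465949196529771144221110252207303154305718929205047876910499098777577722148417330961733914967792438956226835235701848673734385971481026892827169225573907439044006810678526142765581152975954645843698537066086525062904971833136763364119774979999242996301262227332413018377860101487877608584487263092304027414424795578521465483722118096088046488826298401027317507926435523462176633126426068540813544069602044597051655088534147357812740479799155673243259630796996145916865157868250673588987659060034549703136903379643579765937541900624199154610509774882001535159360213891777441052429145198096865123045362493869289362217229956593552941165121103583270433858340723384673469534912158128187887543206995448347064733074142258589975850224882895671994795097080047531104579913701900094117886998663938086082995415640102456742351110678611513547519541927651353222579957395268772556464661592600734256841964847538395645630810863750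281614226634328115174636183895334100310398940451008572145296038829897929411292658100106726869665955608063426558046037031501569843401280292510665787889364409354538574232902802680509566791853016480916533132774580185707835716777232172862277258087611955079494640468639700918548751699578881048734097672779156527875397555150968489158585519841452431047417425844748327119353533107705789091875565349874483816405591410081428621522800885558489307179884316797320265362862099396424117383527372004655270963472744774804983118382960534184774425208373406075031861571934960211175230490089361836742159336868115298598884235594284969695965981911548240321530601744877928371571150705096957487110508591160354747110472250973296263168)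

/-- the node `k` -/
def yn (k : ℕ) : ℕ := Nat.land (Nat.shiftRight YP (Nat.mul (nat_lit 32) k)) (nat_lit 4294967295)

/-- the pairs of consecutive nodes -/
def prs : List ℕ → List (ℕ × ℕ)
  | a :: b :: l => (a, b) :: prs (b :: l)
  | _ => []

/-- fine entries `112 ≤ j < 370` -/
def p8 : List (ℕ × ℕ) := prs (yl.drop 97)

section
open IA T
theorem c8 : tabOK [] (W6E .x0) .x0 1 50 1 D1 p8 112 = true := by decide +kernel
end

theorem p8_len : p8.length = 258 := by decide +kernel

theorem p8_yn : ((List.range 258).all fun i => Nat.beq (p8.getD i (0, 0)).1 (yn (112 + i))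
    && Nat.beq (p8.getD i (0, 0)).2 (yn (113 + i))) = true := by decide +kernel

theorem pr_yn : ((List.range 97).all fun i => Nat.ble (yn (15 + i)) (pr.getD i (0, 0)).1
    && Nat.ble (yn (16 + i)) (pr.getD i (0, 0)).2) = true := by decide +kernel

theorem conc_yn : ((List.range 354).all fun i =>
    Nat.ble (yn (17 + i) + yn (15 + i)) (2 * yn (16 + i))) = true := by decide +kernel

/-- the node as a real number -/
noncomputable def yr (k : ℕ) : ℝ := (yn k : ℝ) / 10000000

/-- the line through the nodes `k`, `k + 1` -/
noncomputable def lineW (k : ℕ) (s : ℝ) : ℝ := yr k + (50 * s - k) * (yr (k + 1) - yr k)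

/-- THE CONCAVE LOWER BOUND -/
noncomputable def Wc (s : ℝ) : ℝ := (Finset.Icc 15 369).inf' ⟨15, by simp⟩ fun k => lineW k s

theorem line_le_lin (k a b : ℕ) (ha : yn k ≤ a) (hb : yn (k + 1) ≤ b) (s : ℝ) (h1 : (k : ℝ) / 50 ≤ s)
    (h2 : s ≤ ((k : ℝ) + 1) / 50) : lineW k s ≤ lin k 1 a b s := by
  have ha' : (yn k : ℝ) ≤ a := by exact_mod_cast ha
  have hb' : (yn (k + 1) : ℝ) ≤ b := by exact_mod_cast hb
  have e : lineW k s = (((k : ℝ) + 1 - 50 * s) * yn k + (50 * s - k) * yn (k + 1)) / 10000000 := by
    unfold lineW yr
    ring
  rw [e]
  unfold lin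
  rw [Nat.cast_one, one_mul]
  refine div_le_div_of_nonneg_right ?_ (by norm_num)
  have h3 : 0 ≤ (k : ℝ) + 1 - 50 * s := by linarith
  have h4 : 0 ≤ 50 * s - k := by linarith
  nlinarith [mul_le_mul_of_nonneg_left ha' h3, mul_le_mul_of_nonneg_left hb' h4]

theorem line_le_What (k : ℕ) (hk : 15 ≤ k) (hk' : k ≤ 369) (s : ℝ) (h1 : (k : ℝ) / 50 < s)
    (h2 : s ≤ ((k : ℝ) + 1) / 50) : lineW k s ≤ What s := by
  rcases Nat.lt_or_ge k 112 with h | h
  · obtain ⟨i, rfl⟩ := Nat.exists_eq_add_of_le hk
    have hi : i < 97 := by omega
    have hi' : i < pr.length := by rw [lpr]; exact hi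
    have h3 := List.all_eq_true.mp pr_yn i (List.mem_range.mpr hi)
    rw [Bool.and_eq_true, List.getD_eq_getElem _ _ hi'] at h3
    have h4 := What_fine i hi' s h1 h2
    refine le_trans ?_ h4
    exact line_le_lin (15 + i) _ _ (Nat.le_of_ble_eq_true h3.1)
      (by rw [show 15 + i + 1 = 16 + i by omega]; exact Nat.le_of_ble_eq_true h3.2) s h1.le h2
  · obtain ⟨i, rfl⟩ := Nat.exists_eq_add_of_le h
    have hi : i < 258 := by omega
    have hi' : i < p8.length := by rw [p8_len]; exact hi
    have h3 := List.all_eq_true.mp p8_yn i (List.mem_range.mpr hi)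
    rw [Bool.and_eq_true, List.getD_eq_getElem _ _ hi'] at h3
    have h65 : 6 / 5 < s := by
      have : (112 : ℝ) ≤ ((112 + i : ℕ) : ℝ) := by
        have : 112 ≤ 112 + i := by omega
        exact_mod_cast this
      linarith
    have h4 := (use_one (W6E .x0) W6 (fun x y z => W6E_ev .x0 x y z) 1 (by norm_num) _ 112 p8 c8 i hi' s
      (by rw [mul_one]; exact h1.le) (by rw [mul_one, Nat.cast_one]; exact h2)).trans (What_six s h65)
    refine le_trans ?_ h4
    rw [mul_one]
    refine line_le_lin (112 + i) _ _ ?_ ?_ s h1.le h2
    · rw [Nat.eq_of_beq_eq_true h3.1]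
    · rw [Nat.eq_of_beq_eq_true h3.2, show 112 + i + 1 = 113 + i by omega]

theorem Wc_le_line (m : ℕ) (h : 15 ≤ m) (h' : m ≤ 369) (s : ℝ) : Wc s ≤ lineW m s :=
  Finset.inf'_le _ (Finset.mem_Icc.mpr ⟨h, h'⟩)

/-- `Wc` is a lower bound. -/
theorem Wc_le_What (s : ℝ) (h1 : 3 / 10 < s) (h2 : s ≤ 37 / 5) : Wc s ≤ What s := by
  obtain ⟨k, hk1, hk2⟩ : ∃ k : ℕ, (k : ℝ) < 50 * s ∧ 50 * s ≤ (k : ℝ) + 1 := by
    have hpos : 0 < ⌈50 * s⌉₊ := Nat.ceil_pos.mpr (by linarith)
    refine ⟨⌈50 * s⌉₊ - 1, ?_, ?_⟩
    · have := Nat.lt_ceil.mp (show ⌈50 * s⌉₊ - 1 < ⌈50 * s⌉₊ by omega)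
      exact this
    · have h3 := Nat.le_ceil (50 * s)
      have h4 : ((⌈50 * s⌉₊ - 1 : ℕ) : ℝ) + 1 = ⌈50 * s⌉₊ := by
        have : (⌈50 * s⌉₊ - 1) + 1 = ⌈50 * s⌉₊ := by omega
        exact_mod_cast this
      rw [h4]
      exact h3
  have hk15 : 15 ≤ k := by
    by_contra hcon
    have : (k : ℝ) + 1 ≤ 15 := by
      have : k + 1 ≤ 15 := by omega
      exact_mod_cast this
    linarith
  have hk369 : k ≤ 369 := by
    by_contra hcon
    have : (370 : ℝ) ≤ k := by
      have : 370 ≤ k := by omega
      exact_mod_cast this
    linarith
  refine (Wc_le_line k hk15 hk369 s).trans (line_le_What k hk15 hk369 s ?_ ?_)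
  · linarith
  · linarith

/-- `Wc` is concave. -/
theorem Wc_concave : ConcaveOn ℝ Set.univ Wc := by
  refine ⟨convex_univ, fun x _ y _ a b ha hb hab => ?_⟩
  unfold Wc
  refine (Finset.le_inf'_iff _ _).mpr fun m hm => ?_
  have h1 : (Finset.Icc 15 369).inf' ⟨15, by simp⟩ (fun k => lineW k x) ≤ lineW m x :=
    Finset.inf'_le _ hm
  have h2 : (Finset.Icc 15 369).inf' ⟨15, by simp⟩ (fun k => lineW k y) ≤ lineW m y :=
    Finset.inf'_le _ hm
  have e : lineW m (a • x + b • y) = a * lineW m x + b * lineW m y := by
    unfold lineW
    have hb' : b = 1 - a := by linarith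
    simp only [smul_eq_mul]
    rw [hb']
    ring
  rw [e]
  simp only [smul_eq_mul]
  exact add_le_add (mul_le_mul_of_nonneg_left h1 ha) (mul_le_mul_of_nonneg_left h2 hb)

theorem yr_conc (k : ℕ) (hk : 15 ≤ k) (hk' : k + 2 ≤ 370) : yr (k + 2) - yr (k + 1) ≤ yr (k + 1) - yr k := by
  obtain ⟨i, rfl⟩ := Nat.exists_eq_add_of_le hk
  have h3 := List.all_eq_true.mp conc_yn i (List.mem_range.mpr (by omega))
  have h4 := Nat.le_of_ble_eq_true h3
  have h5 : ((yn (17 + i) : ℕ) : ℝ) + yn (15 + i) ≤ 2 * yn (16 + i) := by exact_mod_cast h4
  unfold yr
  rw [show 15 + i + 2 = 17 + i by omega, show 15 + i + 1 = 16 + i by omega]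
  linarith

/-- upwards -/
theorem line_up (k : ℕ) (hk : 15 ≤ k) (s : ℝ) (h2 : s ≤ ((k : ℝ) + 1) / 50) (d : ℕ) :
    k + d ≤ 369 → lineW k s ≤ lineW (k + d) s := by
  induction d with
  | zero => intro _; exact le_rfl
  | succ d ih =>
    intro h
    refine (ih (by omega)).trans ?_
    have h3 := yr_conc (k + d) (by omega) (by omega)
    unfold lineW
    rw [show k + (d + 1) = k + d + 1 by omega]
    push_cast
    have h4 : 50 * s - (k + d + 1) ≤ 0 := by
      have : (0 : ℝ) ≤ d := Nat.cast_nonneg d
      linarith
    rw [show k + d + 1 + 1 = k + d + 2 by omega]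
    nlinarith

/-- downwards -/
theorem line_dn (m : ℕ) (hm : 15 ≤ m) (d : ℕ) : ∀ s : ℝ, ((m + d : ℕ) : ℝ) / 50 ≤ s → m + d ≤ 369 →
    lineW (m + d) s ≤ lineW m s := by
  induction d with
  | zero => intro s _ _; exact le_rfl
  | succ d ih =>
    intro s hs h
    refine le_trans ?_ (ih s (by push_cast at hs ⊢; linarith) (by omega))
    have h3 := yr_conc (m + d) (by omega) (by omega)
    unfold lineW
    rw [show m + (d + 1) = m + d + 1 by omega]
    rw [show m + (d + 1) = m + d + 1 by omega] at hs
    push_cast at hs ⊢
    have h4 : 0 ≤ 50 * s - (m + d + 1) := by linarith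
    rw [show m + d + 1 + 1 = m + d + 2 by omega]
    nlinarith

/-- `Wc` is the line on the interval. -/
theorem line_le_Wc (k : ℕ) (hk : 15 ≤ k) (hk' : k ≤ 369) (s : ℝ) (h1 : (k : ℝ) / 50 ≤ s)
    (h2 : s ≤ ((k : ℝ) + 1) / 50) : lineW k s ≤ Wc s := by
  unfold Wc
  refine (Finset.le_inf'_iff _ _).mpr fun m hm => ?_
  obtain ⟨m1, m2⟩ := Finset.mem_Icc.mp hm
  rcases le_total k m with h | h
  · obtain ⟨d, rfl⟩ := Nat.exists_eq_add_of_le h
    exact line_up k hk s h2 d m2
  · obtain ⟨d, rfl⟩ := Nat.exists_eq_add_of_le h
    exact line_dn m m1 d s h1 hk'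

/-- values on the grid `T / 1000`, times `20 * 10 ^ 7` -/
def w20 (T : ℕ) : ℕ :=
  Ent.Pk.frc (Nat.div T (nat_lit 20)) fun k => Ent.Pk.frc (Nat.mod T (nat_lit 20)) fun r =>
    Nat.add (Nat.mul (Nat.sub (nat_lit 20) r) (yn k)) (Nat.mul r (yn (Nat.succ k)))

theorem w20_le (T : ℕ) (h1 : 300 ≤ T) (h2 : T < 7400) :
    (w20 T : ℝ) / 200000000 ≤ Wc ((T : ℝ) / 1000) := by
  have hk : 15 ≤ T / 20 := by omega
  have hk' : T / 20 ≤ 369 := by omega
  have hT : (T : ℝ) = 20 * ((T / 20 : ℕ) : ℝ) + ((T % 20 : ℕ) : ℝ) := by
    have := Nat.div_add_mod T 20
    exact_mod_cast this.symm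
  have hr : ((T % 20 : ℕ) : ℝ) < 20 := by
    have := Nat.mod_lt T (show 20 > 0 by norm_num)
    exact_mod_cast this
  have hr0 : (0 : ℝ) ≤ ((T % 20 : ℕ) : ℝ) := Nat.cast_nonneg _
  refine le_trans (le_of_eq ?_) (line_le_Wc (T / 20) hk hk' ((T : ℝ) / 1000) ?_ ?_)
  · have e : w20 T = (20 - T % 20) * yn (T / 20) + T % 20 * yn (T / 20 + 1) := by
      unfold w20
      rw [Ent.Pk.frc_eq, Ent.Pk.frc_eq]
      rfl
    rw [e]
    unfold lineW yr
    have hsub : ((20 - T % 20 : ℕ) : ℝ) = 20 - ((T % 20 : ℕ) : ℝ) := by
      rw [Nat.cast_sub (by have := Nat.mod_lt T (show 20 > 0 by norm_num); omega)]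
      norm_num
    push_cast [hsub]
    generalize ((yn (T / 20) : ℕ) : ℝ) = y0
    generalize ((yn (T / 20 + 1) : ℕ) : ℝ) = y1
    rw [hT]
    generalize ((T / 20 : ℕ) : ℝ) = k
    generalize ((T % 20 : ℕ) : ℝ) = r
    ring
  · rw [hT]; linarith
  · rw [hT]; linarith

end WT
end Fr
end Pool.Agent.Lib.MP_6947cd_al
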