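import Pool.Agent.Lib.MP_6947cd_al.L.BoxA
import Pool.Agent.Lib.MP_6947cd_al.L.Cell
import Pool.Agent.Lib.MP_6947cd_al.L.WConc
import Pool.Agent.Lib.MP_6947cd_al.T.Tail

/-!
Problem MP_6947cd_al (Chollet).  CASE A, cells of the row `j`, real number part: a function which is convex
in every coordinate is bounded by its values at the corners.
-/

set_option autoImplicit false


namespace Pool.Agent.Lib.MP_6947cd_al
namespace CA

open Ent Fr Fr.WT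

/-- the total with the concave lower bound -/
noncomputable def VV (lam C : ℝ) (φ ψ : ℝ → ℝ) (h tl : ℝ) (M : Multiset ℝ) : ℝ :=
  (1 + lam) * FM (1 ::ₘ h ::ₘ tl ::ₘ M) - Wc (h + tl + M.sum) + (M.map φ).sum + ψ tl + C
    - 2 * lam * Real.log (1 + h)

lemma cons3 (a b c t : ℝ) (N : Multiset ℝ) : a ::ₘ b ::ₘ c ::ₘ t ::ₘ N = t ::ₘ a ::ₘ b ::ₘ c ::ₘ N := by
  rw [Multiset.cons_swap c t, Multiset.cons_swap b t, Multiset.cons_swap a t]

lemma cons2 (a b t : ℝ) (N : Multiset ℝ) : a ::ₘ b ::ₘ t ::ₘ N = t ::ₘ a ::ₘ b ::ₘ N := by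
  rw [Multiset.cons_swap b t, Multiset.cons_swap a t]

/-- convexity of one summand after the other -/
lemma conv_aux (lam : ℝ) (hlam : 0 ≤ lam) (S : Multiset ℝ) (h1 : 1 ∈ S) (hS : ∀ z ∈ S, 0 ≤ z ∧ z ≤ 1)
    (e a k : ℝ) (ha : 0 ≤ a) (hk : k ≤ 1) (r : ℝ → ℝ) (hr : ConvexOn ℝ (Set.Icc a k) r) :
    ConvexOn ℝ (Set.Icc a k) fun t => (1 + lam) * FM (t ::ₘ S) - Wc (e + t) + r t := by
  have c1 : ConvexOn ℝ (Set.Icc a k) fun t => FM (t ::ₘ S) :=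
    (FM_convexOn S h1 hS).subset (Set.Icc_subset_Icc ha hk) (convex_Icc a k)
  have c2 : ConvexOn ℝ (Set.Icc a k) fun t => (1 + lam) * FM (t ::ₘ S) :=
    c1.smul (by linarith : (0 : ℝ) ≤ 1 + lam)
  have c3 : ConvexOn ℝ (Set.Icc a k) fun t => -Wc (e + t) := by
    refine ⟨convex_Icc a k, fun x _ y _ p q hp hq hpq => ?_⟩
    have h2 := Wc_concave.2 (Set.mem_univ (e + x)) (Set.mem_univ (e + y)) hp hq hpq
    have e1 : p • (e + x) + q • (e + y) = e + (p • x + q • y) := by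
      have hq' : q = 1 - p := by linarith
      simp only [smul_eq_mul]
      rw [hq']
      ring
    rw [e1] at h2
    simp only [smul_eq_mul] at h2 ⊢
    linarith
  refine ((c2.add c3).add hr).congr fun t _ => ?_
  simp only [Pi.add_apply]
  ring

lemma affine_conv (a k α β : ℝ) (φ : ℝ → ℝ) (h : ∀ x, a ≤ x → x ≤ k → φ x = α * x + β) :
    ConvexOn ℝ (Set.Icc a k) φ := by
  refine ⟨convex_Icc a k, fun x hx y hy p q hp hq hpq => le_of_eq ?_⟩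
  have hm := (convex_Icc a k) hx hy hp hq hpq
  rw [h _ hm.1 hm.2, h x hx.1 hx.2, h y hy.1 hy.2]
  have hq' : q = 1 - p := by linarith
  simp only [smul_eq_mul]
  rw [hq']
  ring

lemma conv_add_const (s : Set ℝ) (f : ℝ → ℝ) (c : ℝ) (h : ConvexOn ℝ s f) :
    ConvexOn ℝ s fun t => f t + c := h.add_const c

/-- convexity in the entries -/
lemma convP_VV (lam C : ℝ) (hlam : 0 ≤ lam) (φ ψ : ℝ → ℝ) (h tl : ℝ) (hh : 0 ≤ h ∧ h ≤ 1)
    (htl : 0 ≤ tl ∧ tl ≤ 1) (ks : List ℝ) : ∀ a : ℝ, 0 ≤ a → Inc a ks → Aff φ a ks →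
    ConvP (VV lam C φ ψ h tl) a ks := by
  induction ks with
  | nil => intro a _ _ _; exact trivial
  | cons k ks ih =>
    intro a ha hinc haff
    obtain ⟨⟨α, β, hαβ⟩, haff2⟩ := haff
    refine ⟨fun N hN => ?_, ih k (ha.trans hinc.1.le) hinc.2 haff2⟩
    have hk1 := hinc.2.le_one
    have c := conv_aux lam hlam (1 ::ₘ h ::ₘ tl ::ₘ N) (Multiset.mem_cons_self _ _) (by
      intro z hz
      simp only [Multiset.mem_cons] at hz
      rcases hz with rfl | rfl | rfl | hz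
      · exact ⟨zero_le_one, le_rfl⟩
      · exact hh
      · exact htl
      · exact hN z hz) (h + tl + N.sum) a k ha hk1 φ (affine_conv a k α β φ hαβ)
    refine (conv_add_const _ _ ((N.map φ).sum + ψ tl + C - 2 * lam * Real.log (1 + h)) c).congr
      fun t _ => ?_
    unfold VV
    rw [cons3, Multiset.sum_cons, Multiset.map_cons, Multiset.sum_cons]
    rw [show h + tl + (t + N.sum) = h + tl + N.sum + t by ring]
    ring

/-- convexity in the special entry -/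
lemma conv_tl (lam C : ℝ) (hlam : 0 ≤ lam) (φ ψ : ℝ → ℝ) (h : ℝ) (hh : 0 ≤ h ∧ h ≤ 1)
    (N : Multiset ℝ) (hN : ∀ z ∈ N, 0 ≤ z ∧ z ≤ 1) (q0 q1 : ℝ) (hq0 : 0 ≤ q0) (hq1 : q1 ≤ 1)
    (hψ : ∃ α β : ℝ, ∀ x, q0 ≤ x → x ≤ q1 → ψ x = α * x + β) :
    ConvexOn ℝ (Set.Icc q0 q1) fun t => VV lam C φ ψ h t N := by
  obtain ⟨α, β, hαβ⟩ := hψ
  have c := conv_aux lam hlam (1 ::ₘ h ::ₘ N) (Multiset.mem_cons_self _ _) (by
      intro z hz
      simp only [Multiset.mem_cons] at hz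
      rcases hz with rfl | rfl | hz
      · exact ⟨zero_le_one, le_rfl⟩
      · exact hh
      · exact hN z hz) (h + N.sum) q0 q1 hq0 hq1 ψ (affine_conv q0 q1 α β ψ hαβ)
  refine (conv_add_const _ _ ((N.map φ).sum + C - 2 * lam * Real.log (1 + h)) c).congr fun t _ => ?_
  unfold VV
  rw [cons2, show h + t + N.sum = h + N.sum + t by ring]
  ring

/-- convexity in `h` -/
lemma conv_h (lam C : ℝ) (hlam : 0 ≤ lam) (φ ψ : ℝ → ℝ) (tl : ℝ) (ht : 0 ≤ tl ∧ tl ≤ 1)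
    (N : Multiset ℝ) (hN : ∀ z ∈ N, 0 ≤ z ∧ z ≤ 1) (a0 a1 : ℝ) (h0 : 0 ≤ a0) (h1 : a1 ≤ 1) :
    ConvexOn ℝ (Set.Icc a0 a1) fun t => VV lam C φ ψ t tl N := by
  have cl : ConvexOn ℝ (Set.Icc a0 a1) fun t => -(2 * lam * Real.log (1 + t)) := by
    refine ⟨convex_Icc a0 a1, fun x hx y hy p q hp hq hpq => ?_⟩
    have h2 := strictConcaveOn_log_Ioi.concaveOn.2
      (show (1 + x) ∈ Set.Ioi (0 : ℝ) by simp only [Set.mem_Ioi]; linarith [hx.1])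
      (show (1 + y) ∈ Set.Ioi (0 : ℝ) by simp only [Set.mem_Ioi]; linarith [hy.1]) hp hq hpq
    have e1 : p • (1 + x) + q • (1 + y) = 1 + (p • x + q • y) := by
      have hq' : q = 1 - p := by linarith
      simp only [smul_eq_mul]
      rw [hq']
      ring
    rw [e1] at h2
    simp only [smul_eq_mul] at h2 ⊢
    nlinarith [mul_le_mul_of_nonneg_left h2 (by linarith : (0 : ℝ) ≤ 2 * lam)]
  have c := conv_aux lam hlam (1 ::ₘ tl ::ₘ N) (Multiset.mem_cons_self _ _) (by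
      intro z hz
      simp only [Multiset.mem_cons] at hz
      rcases hz with rfl | rfl | hz
      · exact ⟨zero_le_one, le_rfl⟩
      · exact ht
      · exact hN z hz) (tl + N.sum) a0 a1 h0 h1 _ cl
  refine (conv_add_const _ _ ((N.map φ).sum + ψ tl + C) c).congr fun t _ => ?_
  unfold VV
  rw [Multiset.cons_swap 1 t, show t + tl + N.sum = tl + N.sum + t by ring]
  ring

lemma mk_mem (ks : List ℝ) : ∀ (ns : List ℕ), ∀ z ∈ mk ns ks, z ∈ ks := by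
  induction ks with
  | nil => intro ns z hz; cases ns <;> exact absurd hz (Multiset.notMem_zero z)
  | cons k ks ih =>
    intro ns z hz
    cases ns with
    | nil => exact absurd hz (Multiset.notMem_zero z)
    | cons n ns =>
      rw [Ent.mk_cons] at hz
      rcases Multiset.mem_add.mp hz with hz | hz
      · rw [Multiset.eq_of_mem_replicate hz]; exact List.mem_cons_self
      · exact List.mem_cons_of_mem _ (ih ns z hz)

lemma inc_mem (ks : List ℝ) : ∀ a : ℝ, 0 ≤ a → Inc a ks → ∀ z ∈ ks, 0 ≤ z ∧ z ≤ 1 := by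
  induction ks with
  | nil => intro a _ _ z hz; exact absurd hz List.not_mem_nil
  | cons k ks ih =>
    intro a ha hinc z hz
    rcases List.mem_cons.mp hz with rfl | hz
    · exact ⟨ha.trans hinc.1.le, hinc.2.le_one⟩
    · exact ih k (ha.trans hinc.1.le) hinc.2 z hz

/-- THE CELL LEMMA. -/
theorem cell_le (lam C : ℝ) (hlam : 0 ≤ lam) (φ ψ : ℝ → ℝ) (ks : List ℝ) (hinc : Inc 0 ks)
    (haff : Aff φ 0 ks) (hφ0 : φ 0 = 0) (a0 a1 q0 q1 : ℝ) (ha0 : 0 ≤ a0) (ha1 : a1 ≤ 1)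
    (hq0 : 0 ≤ q0) (hq1 : q1 ≤ 1) (hψ : ∃ α β : ℝ, ∀ x, q0 ≤ x → x ≤ q1 → ψ x = α * x + β)
    (ns : List ℕ) (fs : List Bool) (M' : Multiset ℝ) (hred : Red 0 ks ns fs M')
    (hcor : ∀ t ∈ cors ns fs, (VV lam C φ ψ a0 q0 (mk t.2 ks) ≤ 0 ∧ VV lam C φ ψ a0 q1 (mk t.2 ks) ≤ 0) ∧
      VV lam C φ ψ a1 q0 (mk t.2 ks) ≤ 0 ∧ VV lam C φ ψ a1 q1 (mk t.2 ks) ≤ 0)
    (h tl : ℝ) (h0 : a0 ≤ h) (h1 : h ≤ a1) (t0 : q0 ≤ tl) (t1 : tl ≤ q1) :
    VV lam C φ ψ h tl M' ≤ 0 := by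
  have hh : 0 ≤ h ∧ h ≤ 1 := ⟨ha0.trans h0, h1.trans ha1⟩
  have htl : 0 ≤ tl ∧ tl ≤ 1 := ⟨hq0.trans t0, t1.trans hq1⟩
  have key := corner_le (VV lam C φ ψ h tl) 0 ks 0 ns fs 0 M' le_rfl hinc hred
    (convP_VV lam C hlam φ ψ h tl hh htl ks 0 le_rfl hinc haff)
    (fun z hz => absurd hz (Multiset.notMem_zero z)) ?_
  · rwa [zero_add] at key
  intro t ht
  have hN : ∀ z ∈ mk t.2 ks, 0 ≤ z ∧ z ≤ 1 := fun z hz =>
    inc_mem ks 0 le_rfl hinc z (mk_mem ks t.2 z hz)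
  have e : VV lam C φ ψ h tl (0 + (Multiset.replicate t.1 0 + mk t.2 ks)) = VV lam C φ ψ h tl (mk t.2 ks) := by
    unfold VV
    have e1 : 1 ::ₘ h ::ₘ tl ::ₘ (0 + (Multiset.replicate t.1 0 + mk t.2 ks))
        = Multiset.replicate t.1 0 + (1 ::ₘ h ::ₘ tl ::ₘ mk t.2 ks) := by
      simp only [← Multiset.singleton_add, zero_add]
      abel
    rw [e1, FM_zero_add]
    simp [hφ0]
  rw [e]
  obtain ⟨⟨c1, c2⟩, c3, c4⟩ := hcor t ht
  have hq : ∀ g : ℝ, 0 ≤ g ∧ g ≤ 1 → VV lam C φ ψ g q0 (mk t.2 ks) ≤ 0 → VV lam C φ ψ g q1 (mk t.2 ks) ≤ 0 →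
      VV lam C φ ψ g tl (mk t.2 ks) ≤ 0 := by
    intro g hg d1 d2
    have h2 := (conv_tl lam C hlam φ ψ g hg (mk t.2 ks) hN q0 q1 hq0 hq1 hψ).le_max_of_mem_Icc
      (Set.left_mem_Icc.mpr (t0.trans t1)) (Set.right_mem_Icc.mpr (t0.trans t1)) ⟨t0, t1⟩
    exact h2.trans (max_le d1 d2)
  have ha : a0 ≤ a1 := h0.trans h1
  have h2 := (conv_h lam C hlam φ ψ tl htl (mk t.2 ks) hN a0 a1 ha0 ha1).le_max_of_mem_Icc
    (Set.left_mem_Icc.mpr ha) (Set.right_mem_Icc.mpr ha) ⟨h0, h1⟩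
  exact h2.trans (max_le (hq a0 ⟨ha0, ha.trans ha1⟩ c1 c2) (hq a1 ⟨ha0.trans ha, ha1⟩ c3 c4))

end CA
end Pool.Agent.Lib.MP_6947cd_al
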