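import Pool.Agent.Lib.MP_6947cd_al.L.BoxB
import Pool.Agent.Lib.MP_6947cd_al.L.CellR
import Pool.Agent.Lib.MP_6947cd_al.L.Psi

/-!
Problem MP_6947cd_al (Chollet).  CASE B, rows `j`, real number part.

The entries of a piece `[a, k]` are replaced by copies of the end points (`piece_max`); payments of an entry may
depend on its piece (they are affine on the pieces).  `Dom`: the corners of the pieces which have been treated
dominate.
-/

set_option autoImplicit false

namespace Pool.Agent.Lib.MP_6947cd_al
namespace CB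

open Ent Fr Fr.WT CA

/-- the functional without payments -/
noncomputable def UX (lam h tl : ℝ) (E : Multiset ℝ) : ℝ :=
  (1 + lam) * FM (1 ::ₘ h ::ₘ tl ::ₘ E) - Wc (h + tl + E.sum)

lemma perm3 (h tl : ℝ) (A B : Multiset ℝ) : 1 ::ₘ h ::ₘ tl ::ₘ (A + B) = (1 ::ₘ h ::ₘ tl ::ₘ A) + B := by
  simp only [← Multiset.singleton_add]
  abel

/-- one entry moves to one of the ends of its interval -/
lemma one_max (lam h tl : ℝ) (hlam : 0 ≤ lam) (hh : 0 ≤ h ∧ h ≤ 1) (htl : 0 ≤ tl ∧ tl ≤ 1) (E : Multiset ℝ)
    (hE : ∀ z ∈ E, 0 ≤ z ∧ z ≤ 1) (a k x α β s : ℝ) (ha : 0 ≤ a) (hk : k ≤ 1) (hax : a ≤ x) (hxk : x ≤ k)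
    (c0 : UX lam h tl (a ::ₘ E) + (α * a + β) + s ≤ 0) (c1 : UX lam h tl (k ::ₘ E) + (α * k + β) + s ≤ 0) :
    UX lam h tl (x ::ₘ E) + (α * x + β) + s ≤ 0 := by
  have c := conv_aux lam hlam (1 ::ₘ h ::ₘ tl ::ₘ E) (Multiset.mem_cons_self _ _) (by
      intro z hz
      simp only [Multiset.mem_cons] at hz
      rcases hz with rfl | rfl | rfl | hz
      · exact ⟨zero_le_one, le_rfl⟩
      · exact hh
      · exact htl
      · exact hE z hz) (h + tl + E.sum) a k ha hk (fun t => α * t + β)
    (affine_conv a k α β _ fun _ _ _ => rfl)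
  have c' : ConvexOn ℝ (Set.Icc a k) fun t => UX lam h tl (t ::ₘ E) + (α * t + β) + s := by
    refine (conv_add_const _ _ s c).congr fun t _ => ?_
    unfold UX
    rw [cons3, Multiset.sum_cons, show h + tl + (t + E.sum) = h + tl + E.sum + t by ring]
  exact (c'.le_max_of_mem_Icc (Set.left_mem_Icc.mpr (hax.trans hxk)) (Set.right_mem_Icc.mpr (hax.trans hxk))
    ⟨hax, hxk⟩).trans (max_le c0 c1)

/-- THE PIECE LEMMA. -/
theorem piece_max (lam h tl : ℝ) (hlam : 0 ≤ lam) (hh : 0 ≤ h ∧ h ≤ 1) (htl : 0 ≤ tl ∧ tl ≤ 1)
    (E : Multiset ℝ) (hE : ∀ z ∈ E, 0 ≤ z ∧ z ≤ 1) (a k : ℝ) (ha : 0 ≤ a) (hak : a < k) (hk : k ≤ 1)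
    (R : Multiset ℝ) (hR : ∀ z ∈ R, a ≤ z ∧ z ≤ k) (n m : ℕ) (hn : n + m + 1 = R.card)
    (h0 : ((m : ℝ) + 1) * a + n * k ≤ R.sum) (h1 : R.sum ≤ (m : ℝ) * a + (n + 1) * k) (α β s : ℝ)
    (c0 : UX lam h tl (E + (Multiset.replicate n k + Multiset.replicate (m + 1) a))
      + (α * ((m + 1 : ℕ) * a + (n : ℕ) * k) + β * R.card) + s ≤ 0)
    (c1 : UX lam h tl (E + (Multiset.replicate (n + 1) k + Multiset.replicate m a))
      + (α * ((m : ℕ) * a + (n + 1 : ℕ) * k) + β * R.card) + s ≤ 0) :
    UX lam h tl (E + R) + (α * R.sum + β * R.card) + s ≤ 0 := by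
  obtain ⟨m', n', r, g1, g2, g3, g4, g5⟩ := piece a k ha hak hk R (1 ::ₘ h ::ₘ tl ::ₘ E)
    (Multiset.mem_cons_self _ _) (by
      intro z hz
      simp only [Multiset.mem_cons] at hz
      rcases hz with rfl | rfl | rfl | hz
      · exact ⟨zero_le_one, le_rfl⟩
      · exact hh
      · exact htl
      · exact hE z hz) hR
  have hd : 0 < k - a := by linarith
  have hsum : (E + R).sum = (E + (Multiset.replicate m' a + Multiset.replicate n' k + r)).sum := by
    simp only [Multiset.sum_add, Multiset.sum_replicate, nsmul_eq_mul]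
    linarith
  have hle : UX lam h tl (E + R) ≤ UX lam h tl (E + (Multiset.replicate m' a + Multiset.replicate n' k + r)) := by
    unfold UX
    rw [hsum]
    have := mul_le_mul_of_nonneg_left g5 (by linarith : (0 : ℝ) ≤ 1 + lam)
    rw [← perm3, ← perm3] at this
    linarith
  have key : UX lam h tl (E + (Multiset.replicate m' a + Multiset.replicate n' k + r))
      + (α * R.sum + β * R.card) + s ≤ 0 := by
    rcases Nat.eq_zero_or_pos r.card with hr | hr
    · have hr0 : r = 0 := Multiset.card_eq_zero.mp hr
      subst hr0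
      rw [add_zero]
      have g3' : m' + n' = n + m + 1 := by rw [hn]; simpa using g3
      have g4' : (m' : ℝ) * a + n' * k = R.sum := by simpa using g4
      -- `n' = n` or `n' = n + 1`
      have hm' : (m' : ℝ) = n + m + 1 - n' := by
        have : (m' : ℝ) + n' = n + m + 1 := by exact_mod_cast g3'
        linarith
      have e1 : R.sum = (n + m + 1) * a + n' * (k - a) := by rw [← g4', hm']; ring
      have b0 : n ≤ n' := by
        have : (n : ℝ) * (k - a) ≤ n' * (k - a) := by nlinarith
        exact_mod_cast le_of_mul_le_mul_right this hd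
      have b1 : n' ≤ n + 1 := by
        have : (n' : ℝ) * (k - a) ≤ (n + 1) * (k - a) := by nlinarith
        exact_mod_cast le_of_mul_le_mul_right this hd
      rcases Nat.eq_or_lt_of_le b0 with b2 | b2
      · subst b2
        have b3 : m' = m + 1 := by omega
        subst b3
        rw [← g4', add_comm (Multiset.replicate (m + 1) a)]
        exact c0
      · have b3 : n' = n + 1 := by omega
        have b4 : m' = m := by omega
        subst b3 b4
        rw [← g4', add_comm (Multiset.replicate m' a)]
        exact c1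
    · have hr1 : r.card = 1 := by omega
      obtain ⟨x, rfl⟩ := Multiset.card_eq_one.mp hr1
      have hx := g2 x (Multiset.mem_singleton_self x)
      have g3' : m' + n' = n + m := by
        have : m' + n' + 1 = R.card := by simpa using g3
        omega
      have g4' : (m' : ℝ) * a + n' * k + x = R.sum := by simpa using g4
      have hm' : (m' : ℝ) = n + m - n' := by
        have : (m' : ℝ) + n' = n + m := by exact_mod_cast g3'
        linarith
      have e1 : R.sum = (n + m) * a + n' * (k - a) + x := by rw [← g4', hm']; ring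
      have b0 : n ≤ n' := by
        by_contra hcon
        push Not at hcon
        have h2 : (n' : ℝ) + 1 ≤ n := by exact_mod_cast hcon
        nlinarith [mul_le_mul_of_nonneg_right h2 hd.le]
      have b1 : n' ≤ n := by
        by_contra hcon
        push Not at hcon
        have h2 : (n : ℝ) + 1 ≤ n' := by exact_mod_cast hcon
        nlinarith [mul_le_mul_of_nonneg_right h2 hd.le]
      have b2 : n' = n := le_antisymm b1 b0
      have b3 : m' = m := by omega
      subst b2 b3
      have e2 : E + (Multiset.replicate m' a + Multiset.replicate n' k + {x})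
          = x ::ₘ (E + (Multiset.replicate n' k + Multiset.replicate m' a)) := by
        simp only [← Multiset.singleton_add]
        abel
      have hE' : ∀ z ∈ E + (Multiset.replicate n' k + Multiset.replicate m' a), 0 ≤ z ∧ z ≤ 1 := by
        intro z hz
        rcases Multiset.mem_add.mp hz with hz | hz
        · exact hE z hz
        rcases Multiset.mem_add.mp hz with hz | hz
        · rw [Multiset.eq_of_mem_replicate hz]; exact ⟨by linarith, hk⟩
        · rw [Multiset.eq_of_mem_replicate hz]; exact ⟨ha, by linarith⟩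
      have hcard : (R.card : ℝ) = n' + m' + 1 := by rw [← hn]; push_cast; ring
      rw [e2]
      have e3 : α * R.sum + β * R.card = (α * x + β) + (α * (m' * a + n' * k) + β * (n' + m')) := by
        rw [← g4', hcard]; ring
      rw [e3]
      have key2 := one_max lam h tl hlam hh htl _ hE' a k x α β
        ((α * (m' * a + n' * k) + β * (n' + m')) + s) ha hk hx.1.le hx.2.le ?_ ?_
      · linarith
      · have e4 : a ::ₘ (E + (Multiset.replicate n' k + Multiset.replicate m' a))
            = E + (Multiset.replicate n' k + Multiset.replicate (m' + 1) a) := by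
          rw [Multiset.replicate_succ]
          simp only [← Multiset.singleton_add]
          abel
        rw [e4]
        refine le_trans (le_of_eq ?_) c0
        rw [hcard]
        push_cast
        ring
      · have e4 : k ::ₘ (E + (Multiset.replicate n' k + Multiset.replicate m' a))
            = E + (Multiset.replicate (n' + 1) k + Multiset.replicate m' a) := by
          rw [Multiset.replicate_succ]
          simp only [← Multiset.singleton_add]
          abel
        rw [e4]
        refine le_trans (le_of_eq ?_) c1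
        rw [hcard]
        push_cast
        ring
  linarith

/-- the cell of a nonempty piece -/
lemma piece_floor (a k : ℝ) (hak : a < k) (R : Multiset ℝ) (hR : ∀ z ∈ R, a ≤ z ∧ z ≤ k) (h0 : R ≠ 0) :
    ∃ n m : ℕ, n + m + 1 = R.card ∧ ((m : ℝ) + 1) * a + n * k ≤ R.sum ∧ R.sum ≤ (m : ℝ) * a + (n + 1) * k := by
  have hd : 0 < k - a := by linarith
  have hc : 0 < R.card := Multiset.card_pos.mpr h0
  have s0 : (R.card : ℝ) * a ≤ R.sum := by
    have := Multiset.card_nsmul_le_sum (s := R) (a := a) fun z hz => (hR z hz).1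
    rwa [nsmul_eq_mul] at this
  have s1 : R.sum ≤ (R.card : ℝ) * k := by
    have := Multiset.sum_le_card_nsmul R k fun z hz => (hR z hz).2
    rwa [nsmul_eq_mul] at this
  set f := ⌊(R.sum - R.card * a) / (k - a)⌋₊ with hf
  have hnn : 0 ≤ (R.sum - R.card * a) / (k - a) := div_nonneg (by linarith) hd.le
  have f0 : (f : ℝ) * (k - a) ≤ R.sum - R.card * a := by
    have := Nat.floor_le hnn
    rwa [← hf, le_div_iff₀ hd] at this
  have f1 : R.sum - R.card * a < (f + 1) * (k - a) := by
    have := Nat.lt_floor_add_one ((R.sum - R.card * a) / (k - a))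
    rwa [← hf, div_lt_iff₀ hd] at this
  rcases Nat.lt_or_ge f R.card with h | h
  · obtain ⟨m, hm⟩ := Nat.exists_eq_add_of_lt h
    refine ⟨f, m, by omega, ?_, ?_⟩
    · have : (R.card : ℝ) = f + m + 1 := by exact_mod_cast hm
      rw [this] at f0
      nlinarith
    · have : (R.card : ℝ) = f + m + 1 := by exact_mod_cast hm
      rw [this] at f1
      nlinarith
  · obtain ⟨n, hn⟩ : ∃ n, R.card = n + 1 := ⟨R.card - 1, by omega⟩
    have hn' : (R.card : ℝ) = n + 1 := by exact_mod_cast hn
    refine ⟨n, 0, by omega, ?_, ?_⟩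
    · have hfn : (n : ℝ) + 1 ≤ f := by
        have : n + 1 ≤ f := by omega
        exact_mod_cast this
      rw [hn'] at f0
      push_cast
      nlinarith [mul_le_mul_of_nonneg_right hfn hd.le]
    · rw [hn'] at s1
      push_cast
      linarith

/-- spreading down to zero -/
theorem zero_max (lam h tl : ℝ) (hlam : 0 ≤ lam) (hh : 0 ≤ h ∧ h ≤ 1) (htl : 0 ≤ tl ∧ tl ≤ 1)
    (E : Multiset ℝ) (hE : ∀ z ∈ E, 0 ≤ z ∧ z ≤ 1) (k : ℝ) (hk0 : 0 < k) (hk : k ≤ 1)
    (R : Multiset ℝ) (hR : ∀ z ∈ R, 0 ≤ z ∧ z ≤ k) (n : ℕ)
    (h0 : n * k ≤ R.sum) (h1 : R.sum < (n + 1) * k) (α s : ℝ)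
    (c0 : UX lam h tl (E + Multiset.replicate n k) + α * (n * k) + s ≤ 0)
    (c1 : UX lam h tl (E + Multiset.replicate (n + 1) k) + α * ((n + 1 : ℕ) * k) + s ≤ 0) :
    UX lam h tl (E + R) + α * R.sum + s ≤ 0 := by
  have hz : ∀ (m : ℕ) (X : Multiset ℝ), UX lam h tl (X + Multiset.replicate m 0) = UX lam h tl X := by
    intro m X
    unfold UX
    rw [perm3, add_comm _ (Multiset.replicate m (0 : ℝ)), FM_zero_add]
    simp
  by_cases hR0 : R = 0
  · subst hR0
    have hn : n = 0 := by
      by_contra hcon
      have : (1 : ℝ) ≤ n := by exact_mod_cast Nat.one_le_iff_ne_zero.mpr hcon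
      rw [Multiset.sum_zero] at h0
      nlinarith
    subst hn
    simpa using c0
  · obtain ⟨n', m', g1, g2, g3⟩ := piece_floor 0 k hk0 R hR hR0
    rw [mul_zero, zero_add] at g2 g3
    have b0 : n' ≤ n := by
      have : (n' : ℝ) * k < (n + 1) * k := by linarith
      have h2 := lt_of_mul_lt_mul_right this hk0.le
      have : n' < n + 1 := by exact_mod_cast h2
      omega
    have b1 : n ≤ n' + 1 := by
      have : (n : ℝ) * k ≤ (n' + 1) * k := by linarith
      exact_mod_cast le_of_mul_le_mul_right this hk0
    have key := fun c0 c1 => piece_max lam h tl hlam hh htl E hE 0 k le_rfl hk0 hk R hR n' m' g1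
      (by rw [mul_zero, zero_add]; exact g2) (by rw [mul_zero, zero_add]; exact g3) α 0 s c0 c1
    simp only [zero_mul, add_zero, mul_zero, zero_add] at key
    rcases Nat.eq_or_lt_of_le b0 with b2 | b2
    · subst b2
      refine key ?_ ?_
      · rw [← add_assoc, hz]
        exact c0
      · rw [← add_assoc, hz]
        exact c1
    · -- `R.sum = n k` and `n = n' + 1`
      have b3 : n = n' + 1 := by omega
      subst b3
      have b4 : R.sum = ((n' + 1 : ℕ) : ℝ) * k := by
        refine le_antisymm ?_ h0
        push_cast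
        exact g3
      -- use the row itself: no entry strictly inside
      obtain ⟨m2, n2, r, q1, q2, q3, q4, q5⟩ := piece 0 k le_rfl hk0 hk R (1 ::ₘ h ::ₘ tl ::ₘ E)
        (Multiset.mem_cons_self _ _) (by
          intro z hz
          simp only [Multiset.mem_cons] at hz
          rcases hz with rfl | rfl | rfl | hz
          · exact ⟨zero_le_one, le_rfl⟩
          · exact hh
          · exact htl
          · exact hE z hz) hR
      have hr : r = 0 := by
        rcases Nat.eq_zero_or_pos r.card with hr | hr
        · exact Multiset.card_eq_zero.mp hr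
        · exfalso
          have hr1 : r.card = 1 := by omega
          obtain ⟨x, rfl⟩ := Multiset.card_eq_one.mp hr1
          have hx := q2 x (Multiset.mem_singleton_self x)
          rw [mul_zero, zero_add, Multiset.sum_singleton, b4] at q4
          have u0 : (n2 : ℝ) < ((n' + 1 : ℕ) : ℝ) := by
            by_contra hcon
            push Not at hcon
            nlinarith [mul_le_mul_of_nonneg_right hcon hk0.le]
          have u1 : ((n' + 1 : ℕ) : ℝ) < (n2 : ℝ) + 1 := by
            by_contra hcon
            push Not at hcon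
            nlinarith [mul_le_mul_of_nonneg_right hcon hk0.le]
          have u0' : n2 < n' + 1 := by exact_mod_cast u0
          have u1' : n' + 1 < n2 + 1 := by exact_mod_cast u1
          omega
      subst hr
      have hn2 : n2 = n' + 1 := by
        rw [mul_zero, zero_add, Multiset.sum_zero, add_zero, b4] at q4
        exact_mod_cast mul_right_cancel₀ hk0.ne' q4
      subst hn2
      have hsum : (E + R).sum = (E + (Multiset.replicate m2 0 + Multiset.replicate (n' + 1) k + 0)).sum := by
        simp only [Multiset.sum_add, Multiset.sum_replicate, nsmul_eq_mul, mul_zero, add_zero, zero_add]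
        rw [b4]
      have hle : UX lam h tl (E + R)
          ≤ UX lam h tl (E + (Multiset.replicate m2 0 + Multiset.replicate (n' + 1) k + 0)) := by
        unfold UX
        rw [hsum]
        have := mul_le_mul_of_nonneg_left q5 (by linarith : (0 : ℝ) ≤ 1 + lam)
        rw [← perm3, ← perm3] at this
        linarith
      rw [add_zero, add_comm (Multiset.replicate m2 (0 : ℝ)), ← add_assoc, hz] at hle
      rw [b4]
      linarith

/-! ### domination -/

/-- a treated piece: lower and upper knot, the entries -/
structure PcD where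
  a : ℝ
  k : ℝ
  R : Multiset ℝ

/-- a corner: the entries at the knots above the present one, the number of entries at the present knot, the
numbers of entries at the lower and at the upper knot of the treated pieces -/
structure GC where
  P : Multiset ℝ
  D : ℕ
  cn : List (ℕ × ℕ)

/-- payments of the entries of the treated pieces, `α t + β` in each piece -/
noncomputable def payM : List PcD → List (ℝ × ℝ) → ℝ
  | p :: pd, c :: co => (c.1 * p.R.sum + c.2 * p.R.card) + payM pd co
  | _, _ => 0

/-- the payments at a corner -/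
noncomputable def payC : List PcD → List (ℝ × ℝ) → List (ℕ × ℕ) → ℝ
  | p :: pd, c :: co, m :: cn => (c.1 * (m.1 * p.a + m.2 * p.k) + c.2 * p.R.card) + payC pd co cn
  | _, _, _ => 0

/-- the entries of the treated pieces -/
noncomputable def sumR : List PcD → Multiset ℝ
  | [] => 0
  | p :: pd => p.R + sumR pd

/-- THE CORNERS DOMINATE. -/
def Dom (h tl : ℝ) (pd : List PcD) (kr : ℝ) (gc : List GC) : Prop :=
  ∀ (lam : ℝ) (_ : 0 ≤ lam) (co : List (ℝ × ℝ)) (_ : co.length = pd.length) (s : ℝ) (R : Multiset ℝ),
    (∀ t ∈ R, 0 ≤ t ∧ t ≤ kr) →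
    (∀ g ∈ gc, UX lam h tl (g.P + Multiset.replicate g.D kr + R) + payC pd co g.cn + s ≤ 0) →
    UX lam h tl (sumR pd + R) + payM pd co + s ≤ 0

lemma dom_init (h tl kr : ℝ) : Dom h tl [] kr [⟨0, 0, []⟩] := by
  intro lam _ co hco s R _ hg
  have := hg ⟨0, 0, []⟩ List.mem_cons_self
  simp only [Multiset.replicate_zero, add_zero, zero_add, payC] at this
  simpa [sumR, payM] using this

/-- the next corners -/
noncomputable def nextC (kr : ℝ) (N n : ℕ) (g : GC) : List GC :=
  [⟨g.P + Multiset.replicate (g.D + n) kr, N - n, (N - n, n) :: g.cn⟩,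
    ⟨g.P + Multiset.replicate (g.D + (n + 1)) kr, N - (n + 1), (N - (n + 1), n + 1) :: g.cn⟩]

/-- the next corner if the piece is empty -/
noncomputable def nextZ (kr : ℝ) (g : GC) : GC := ⟨g.P + Multiset.replicate g.D kr, 0, (0, 0) :: g.cn⟩

/-- the entries of the corners are in `[0, 1]` -/
def GB (gc : List GC) : Prop := ∀ g ∈ gc, ∀ z ∈ g.P, 0 ≤ z ∧ z ≤ 1

lemma GB_nextC {kr : ℝ} (h0 : 0 ≤ kr) (h1 : kr ≤ 1) (N n : ℕ) {gc : List GC} (h : GB gc) :
    GB (gc.flatMap (nextC kr N n)) := by
  intro g hg
  obtain ⟨g', hg', hg2⟩ := List.mem_flatMap.mp hg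
  simp only [nextC, List.mem_cons, List.not_mem_nil, or_false] at hg2
  rcases hg2 with rfl | rfl
  · intro z hz
    rcases Multiset.mem_add.mp hz with hz | hz
    · exact h g' hg' z hz
    · rw [Multiset.eq_of_mem_replicate hz]; exact ⟨h0, h1⟩
  · intro z hz
    rcases Multiset.mem_add.mp hz with hz | hz
    · exact h g' hg' z hz
    · rw [Multiset.eq_of_mem_replicate hz]; exact ⟨h0, h1⟩

lemma GB_nextZ {kr : ℝ} (h0 : 0 ≤ kr) (h1 : kr ≤ 1) {gc : List GC} (h : GB gc) :
    GB (gc.map (nextZ kr)) := by
  intro g hg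
  obtain ⟨g', hg', rfl⟩ := List.mem_map.mp hg
  intro z hz
  rcases Multiset.mem_add.mp hz with hz | hz
  · exact h g' hg' z hz
  · rw [Multiset.eq_of_mem_replicate hz]; exact ⟨h0, h1⟩

/-- the step over an empty piece -/
theorem dom_zero {h tl : ℝ} {pd : List PcD} {kr a : ℝ} {gc : List GC} (hd : Dom h tl pd kr gc) (hak : a ≤ kr) :
    Dom h tl (⟨a, kr, 0⟩ :: pd) a (gc.map (nextZ kr)) := by
  intro lam hlam co hco s R hR hg
  cases co with
  | nil => simp at hco
  | cons c co =>
    have h1 := hd lam hlam co (by simpa using hco) s R (fun t ht => ⟨(hR t ht).1, (hR t ht).2.trans hak⟩) ?_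
    · simpa [sumR, payM] using h1
    · intro g hgm
      have h2 := hg (nextZ kr g) (List.mem_map_of_mem hgm)
      simp only [nextZ, payC, Multiset.replicate_zero, add_zero] at h2
      simpa using h2

/-- the step over a nonempty piece -/
theorem dom_succ {h tl : ℝ} (hh : 0 ≤ h ∧ h ≤ 1) (htl : 0 ≤ tl ∧ tl ≤ 1) {pd : List PcD} {kr a : ℝ}
    {gc : List GC} (hd : Dom h tl pd kr gc) (hgb : GB gc) (ha : 0 ≤ a) (hak : a < kr) (hk : kr ≤ 1)
    (T : Multiset ℝ) (hT : ∀ z ∈ T, a ≤ z ∧ z ≤ kr) (n m : ℕ) (hn : n + m + 1 = T.card)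
    (h0 : ((m : ℝ) + 1) * a + n * kr ≤ T.sum) (h1 : T.sum ≤ (m : ℝ) * a + (n + 1) * kr) :
    Dom h tl (⟨a, kr, T⟩ :: pd) a (gc.flatMap (nextC kr T.card n)) := by
  intro lam hlam co hco s R hR hg
  cases co with
  | nil => simp at hco
  | cons c co =>
    have hTR : ∀ t ∈ T + R, 0 ≤ t ∧ t ≤ kr := by
      intro t ht
      rcases Multiset.mem_add.mp ht with ht | ht
      · exact ⟨ha.trans (hT t ht).1, (hT t ht).2⟩
      · exact ⟨(hR t ht).1, (hR t ht).2.trans hak.le⟩
    have h2 := hd lam hlam co (by simpa using hco) (c.1 * T.sum + c.2 * T.card + s) (T + R) hTR ?_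
    · have e : sumR (⟨a, kr, T⟩ :: pd) + R = sumR pd + (T + R) := by
        simp only [sumR]
        abel
      rw [e]
      simp only [payM]
      linarith
    · intro g hgm
      have hE : ∀ z ∈ g.P + Multiset.replicate g.D kr + R, 0 ≤ z ∧ z ≤ 1 := by
        intro z hz
        rcases Multiset.mem_add.mp hz with hz | hz
        · rcases Multiset.mem_add.mp hz with hz | hz
          · exact hgb g hgm z hz
          · rw [Multiset.eq_of_mem_replicate hz]; exact ⟨ha.trans hak.le, hk⟩
        · exact ⟨(hR z hz).1, (hR z hz).2.trans (hak.le.trans hk)⟩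
      have c0 := hg _ (List.mem_flatMap.mpr ⟨g, hgm, List.mem_cons_self⟩)
      have c1 := hg _ (List.mem_flatMap.mpr ⟨g, hgm, List.mem_cons_of_mem _ List.mem_cons_self⟩)
      simp only [payC] at c0 c1
      have m0 : T.card - n = m + 1 := by omega
      have m1 : T.card - (n + 1) = m := by omega
      rw [m0] at c0
      rw [m1] at c1
      have key := piece_max lam h tl hlam hh htl _ hE a kr ha hak hk T hT n m hn h0 h1 c.1 c.2
        (payC pd co g.cn + s) ?_ ?_
      · have e : g.P + Multiset.replicate g.D kr + (T + R) = g.P + Multiset.replicate g.D kr + R + T := by abel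
        rw [e]
        linarith
      · have e : g.P + Multiset.replicate g.D kr + R + (Multiset.replicate n kr + Multiset.replicate (m + 1) a)
            = g.P + Multiset.replicate (g.D + n) kr + Multiset.replicate (m + 1) a + R := by
          rw [Multiset.replicate_add g.D n]
          abel
        rw [e]
        linarith
      · have e : g.P + Multiset.replicate g.D kr + R + (Multiset.replicate (n + 1) kr + Multiset.replicate m a)
            = g.P + Multiset.replicate (g.D + (n + 1)) kr + Multiset.replicate m a + R := by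
          rw [Multiset.replicate_add g.D (n + 1)]
          abel
        rw [e]
        linarith

end CB
end Pool.Agent.Lib.MP_6947cd_al
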