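import Pool.Agent.Lib.MP_6947cd_al.L.CellC

/-!
Problem MP_6947cd_al (Chollet).  CASE A, cells of the row `j`: the meaning of prepared classes.
-/

set_option autoImplicit false
set_option maxRecDepth 100000

namespace Pool.Agent.Lib.MP_6947cd_al
namespace CA

open Ent Ent.Pk Fr Fr.WT

/-! ### logarithms -/

/-- lower bounds of `10^7 * 2 log (1 + H/200)`, digits of 32 bits -/
def LGP : ℕ := (nat_lit 541785846982889546200566212497242132629196529566856989021451987598797449908553225106861372938489235933054586319425045456502182103295117326066561774499626633590587003320140342535474870603191361603937678888122686384201487481896311131144310328830745220241374274445626169999126039789005258002944934726814380746853296349598295133847536256028528892616495487769185657490244525339611476691813509660815348703236997167127513799453299053652451848179687825081136316556285454068539336860859806758848629781051771876240029761038343664025270503544880755134237927420850890930203274145402798323653966948694765122876384027331907893341412860188230798298937711134177527035077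72646690435844598020363227442164387700800992179888490464653047081347686777231077315406209028930838112188587858915725491533745635683664147542726404963066292053194253209694909938807085310827804767006898638826625623223155041839474967623590636744756781416853043551102656092666871646929517469619260787336990366093701868985681012618197683682625450734332721262713887768958223668678507574178476235878848394629083828200267939293527506417313913766297624234559449573536670958193381309604411251325645081774982586218967369677208459538872508379383683277463366123313220435442487655935935886409384069185334130047923308358796356146370184544891197815247591039830232511147638776237815094238337902548082186866571902908086268880026359320759340845367338831890223122468526136745227198105470022027006963257364036972554600900188890353002970543457789173744178653789516140852876492274918551464311268284523036046225710269881029735310786363830266511199520687489848410122549767278371965484726463876368477640961927748937493756760304259481219833975225085851733709568702163588025876753489623323077735944636342473678720053306598188788905015762891271816996130479852053162460201676442573459645484489613659508672183184702439222485427506121545518424023738427166385003468459918082542791358580319448867951186228237303808)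

section
open IA
/-- the expression for the index `H` -/
def lgE (H : ℕ) : E := .sub (.cst (Int.ofNat (dg LGP H)) 10000000) (.mul (.cst 2 1) (.log (.cst (Int.ofNat (200 + H)) 200)))
theorem lgC : ((List.range 141).all fun i => chk [lgE (60 + i)] (T.v 0) ⟨0, 0⟩ ⟨0, 0⟩ ⟨0, 0⟩) = true := by
  decide +kernel
end

theorem lg_le (H : ℕ) (h0 : 60 ≤ H) (h1 : H ≤ 200) :
    (dg LGP H : ℝ) / 10000000 ≤ 2 * Real.log (1 + (H : ℝ) / 200) := by
  obtain ⟨i, rfl⟩ := Nat.exists_eq_add_of_le h0
  have h2 := List.all_eq_true.mp lgC i (List.mem_range.mpr (by omega))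
  obtain ⟨e, he, h⟩ := IA.chk_sound _ _ _ _ _ h2 0 0 0 ⟨by simp, by simp⟩ ⟨by simp, by simp⟩
    ⟨by simp, by simp⟩
  simp only [List.mem_cons, List.not_mem_nil, or_false] at he
  rw [he] at h
  simp only [lgE, IA.E.ev, Int.ofNat_eq_natCast, Int.cast_natCast] at h
  push_cast at h ⊢
  rw [show (1 : ℝ) + (60 + i) / 200 = (200 + (60 + i)) / 200 by ring]
  linarith

/-! ### piecewise linear functions -/

lemma pl_left (ks : List ℝ) : ∀ (a v : ℝ) (bs : List ℝ), Inc a ks → pl a v ks bs a = v := by
  intro a v bs h
  cases ks with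
  | nil => exact pl_nil a v bs a
  | cons k ks =>
    cases bs with
    | nil => rfl
    | cons b bs =>
      rw [pl_cons, if_pos h.1.le, sub_self, mul_zero, add_zero]

lemma pl_tail (a v k b : ℝ) (ks bs : List ℝ) (h : Inc a (k :: ks)) (x : ℝ) (hx : k ≤ x) :
    pl a v (k :: ks) (b :: bs) x = pl k b ks bs x := by
  rcases eq_or_lt_of_le hx with rfl | hx
  · rw [pl_cons, if_pos le_rfl, pl_left ks k b bs h.2, div_mul_cancel₀]
    · ring
    · have := h.1
      intro hcon
      linarith
  · rw [pl_cons, if_neg (not_le.mpr hx)]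

lemma Aff_congr (ks : List ℝ) : ∀ (a : ℝ) (φ φ' : ℝ → ℝ), Inc a ks → (∀ x, a ≤ x → φ x = φ' x) →
    Aff φ' a ks → Aff φ a ks := by
  induction ks with
  | nil => intro a φ φ' _ _ _; exact trivial
  | cons k ks ih =>
    intro a φ φ' hinc h h2
    obtain ⟨⟨α, β, h3⟩, h4⟩ := h2
    exact ⟨⟨α, β, fun x hx hx' => by rw [h x hx, h3 x hx hx']⟩,
      ih k φ φ' hinc.2 (fun x hx => h x (hinc.1.le.trans hx)) h4⟩

lemma aff_pl (ks : List ℝ) : ∀ (a v : ℝ) (bs : List ℝ), Inc a ks → ks.length = bs.length →
    Aff (pl a v ks bs) a ks := by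
  induction ks with
  | nil => intro a v bs _ _; exact trivial
  | cons k ks ih =>
    intro a v bs hinc hl
    cases bs with
    | nil => simp at hl
    | cons b bs =>
      refine ⟨⟨(b - v) / (k - a), v - (b - v) / (k - a) * a, fun x _ hx => ?_⟩,
        Aff_congr ks k _ _ hinc.2 (fun x hx => pl_tail a v k b ks bs hinc x hx)
          (ih k b bs hinc.2 (by simpa using hl))⟩
      rw [pl_cons, if_pos hx]
      ring

lemma inc_ge (ks : List ℝ) : ∀ a : ℝ, Inc a ks → ∀ z ∈ ks, a ≤ z := by
  induction ks with
  | nil => intro a _ z hz; exact absurd hz List.not_mem_nil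
  | cons k ks ih =>
    intro a h z hz
    rcases List.mem_cons.mp hz with rfl | hz
    · exact h.1.le
    · exact h.1.le.trans (ih k h.2 z hz)

/-- dot product -/
noncomputable def dotR : List ℕ → List ℝ → ℝ
  | n :: ns, b :: bs => n * b + dotR ns bs
  | _, _ => 0

lemma sum_pl (ks : List ℝ) : ∀ (a v : ℝ) (bs : List ℝ) (ns : List ℕ), Inc a ks → ks.length = bs.length →
    ns.length = ks.length → ((mk ns ks).map (pl a v ks bs)).sum = dotR ns bs := by
  induction ks with
  | nil =>
    intro a v bs ns _ _ hn
    have := List.eq_nil_of_length_eq_zero hn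
    subst this
    simp [mk, dotR]
  | cons k ks ih =>
    intro a v bs ns hinc hl hn
    cases bs with
    | nil => simp at hl
    | cons b bs =>
      cases ns with
      | nil => simp at hn
      | cons n ns =>
        rw [Ent.mk_cons, Multiset.map_add, Multiset.sum_add, Multiset.map_replicate, Multiset.sum_replicate,
          nsmul_eq_mul]
        have e1 : pl a v (k :: ks) (b :: bs) k = b := by
          rw [pl_tail a v k b ks bs hinc k le_rfl, pl_left ks k b bs hinc.2]
        have e2 : (mk ns ks).map (pl a v (k :: ks) (b :: bs)) = (mk ns ks).map (pl k b ks bs) := by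
          refine Multiset.map_congr rfl fun z hz => ?_
          exact pl_tail a v k b ks bs hinc z (inc_ge ks k hinc.2 z (mk_mem ks ns z hz))
        rw [e1, e2, ih k b bs ns hinc.2 (by simpa using hl) (by simpa using hn)]
        rfl

lemma pl_le_lin (σ : ℝ) (ks : List ℝ) : ∀ (a v : ℝ) (bs : List ℝ), Inc a ks → ks.length = bs.length →
    v ≤ σ * a → (∀ i < ks.length, bs.getD i 0 ≤ σ * ks.getD i 0) → ∀ x, a ≤ x → x ≤ ks.getLastD a →
    pl a v ks bs x ≤ σ * x := by
  induction ks with
  | nil =>
    intro a v bs _ _ hv _ x hx hx'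
    rw [pl_nil]
    have : x = a := le_antisymm hx' hx
    rw [this]
    exact hv
  | cons k ks ih =>
    intro a v bs hinc hl hv hb x hx hx'
    cases bs with
    | nil => simp at hl
    | cons b bs =>
      have hb0 : b ≤ σ * k := by simpa using hb 0 (by simp)
      rcases le_total x k with hk | hk
      · rw [pl_cons, if_pos hk]
        have hd : 0 < k - a := by linarith [hinc.1]
        have e : v + (b - v) / (k - a) * (x - a) = ((k - x) * v + (x - a) * b) / (k - a) := by
          field_simp
          ring
        rw [e, div_le_iff₀ hd]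
        nlinarith [mul_le_mul_of_nonneg_left hv (by linarith : 0 ≤ k - x),
          mul_le_mul_of_nonneg_left hb0 (by linarith : 0 ≤ x - a)]
      · rw [pl_tail a v k b ks bs hinc x hk]
        refine ih k b bs hinc.2 (by simpa using hl) hb0 (fun i hi => ?_) x hk ?_
        · have := hb (i + 1) (by simpa using hi)
          simpa using this
        · rw [List.getLastD_cons] at hx'
          exact hx'

lemma pl_node (ks : List ℝ) : ∀ (a v : ℝ) (bs : List ℝ), Inc a ks → ks.length = bs.length →
    ∀ i ≤ ks.length, pl a v ks bs ((a :: ks).getD i 0) = (v :: bs).getD i 0 := by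
  induction ks with
  | nil =>
    intro a v bs _ hl i hi
    have h0 : i = 0 := by simpa using hi
    subst h0
    rw [pl_nil]
    rfl
  | cons k ks ih =>
    intro a v bs hinc hl i hi
    cases bs with
    | nil => simp at hl
    | cons b bs =>
      cases i with
      | zero =>
        rw [List.getD_cons_zero, List.getD_cons_zero]
        exact pl_left (k :: ks) a v (b :: bs) hinc
      | succ i =>
        rw [List.getD_cons_succ, List.getD_cons_succ]
        have hge : k ≤ (k :: ks).getD i 0 := by
          have hi' : i < (k :: ks).length := by simp at hi ⊢; omega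
          rw [List.getD_eq_getElem _ _ hi']
          rcases List.mem_cons.mp (List.getElem_mem hi') with h | h
          · exact h.symm.le
          · exact inc_ge ks k hinc.2 _ h
        rw [pl_tail a v k b ks bs hinc _ hge]
        exact ih k b bs hinc.2 (by simpa using hl) i (by simp at hi; omega)

lemma aff_get (φ : ℝ → ℝ) (ks : List ℝ) : ∀ (a : ℝ), Aff φ a ks → ∀ i < ks.length,
    ∃ α β : ℝ, ∀ x, (a :: ks).getD i 0 ≤ x → x ≤ ks.getD i 0 → φ x = α * x + β := by
  induction ks with
  | nil => intro a _ i hi; simp at hi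
  | cons k ks ih =>
    intro a h i hi
    cases i with
    | zero => simpa using h.1
    | succ i =>
      have := ih k h.2 i (by simpa using hi)
      simpa using this

/-! ### prepared classes -/

def bnOK : List ℕ → List ℤ → List ℕ → Bool
  | n :: ns, b :: bs, k :: ks => decide ((n : ℤ) = b + 1000 * k) && bnOK ns bs ks
  | [], [], [] => true
  | _, _, _ => false

def sgOK (sg : ℕ) : List ℕ → List ℕ → Bool
  | n :: ns, k :: ks => Nat.ble (10000 * n) (sg * k) && sgOK sg ns ks
  | _, _ => true

def snOK (sn : ℕ) : List ℤ → ℕ → Bool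
  | s :: l, z => decide ((dg sn z : ℤ) = s + 1000000) && snOK sn l (z + 1)
  | [], _ => true

/-- the constant of one end -/
def aOK (dB w : ℕ) (rt : ℤ) (ty lg A : ℕ) : Bool :=
  decide ((A : ℤ) = 20 * dB * (w * (lg - (if ty = 1 then 480000 else -5000000)) - 100000 * rt + 100000000000))

/-- the check of a prepared class -/
def preOK (x : Box) (τ : ℕ) (c : Cl) (p : PC) : Bool :=
  decide (c.ty = τ) && (decide (τ ≠ 0) || decide (c.w = 0)) && decide (p.w1 = 1000 + c.w) &&
  bnOK p.bn c.b x.k && sgOK p.sg p.bn x.k &&
  (match x.q with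
    | [] => decide (dg p.sn 0 = 1000000)
    | _ :: _ => decide (c.s.length = x.q.length) && snOK p.sn c.s 0) &&
  aOK (x.B1 - x.B0) c.w c.rt c.ty (dg LGP x.H0) p.A0 && aOK (x.B1 - x.B0) c.w c.rt c.ty (dg LGP x.H1) p.A1

lemma bnOK_len (bn : List ℕ) : ∀ (b : List ℤ) (k : List ℕ), bnOK bn b k = true →
    b.length = k.length ∧ bn.length = k.length := by
  induction bn with
  | nil =>
    intro b k h
    cases b <;> cases k <;> simp_all [bnOK]
  | cons n ns ih =>
    intro b k h
    cases b with
    | nil => simp [bnOK] at h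
    | cons b bs =>
      cases k with
      | nil => simp [bnOK] at h
      | cons k ks =>
        simp only [bnOK, Bool.and_eq_true] at h
        have := ih bs ks h.2
        simp [this.1, this.2]

lemma bnOK_dot (bn : List ℕ) : ∀ (b : List ℤ) (k ns : List ℕ), bnOK bn b k = true → ns.length = k.length →
    dotR ns (vR b) = ((Pk.dotN ns bn : ℝ) - 1000 * (Pk.dotN ns k : ℝ)) / 100000 := by
  induction bn with
  | nil =>
    intro b k ns h hn
    cases b with
    | nil =>
      cases k with
      | nil =>
        have := List.eq_nil_of_length_eq_zero hn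
        subst this
        simp [vR, dotR, Pk.dotN]
      | cons k ks => simp [bnOK] at h
    | cons b bs => cases k <;> simp [bnOK] at h
  | cons n' bn ih =>
    intro b k ns h hn
    cases b with
    | nil => simp [bnOK] at h
    | cons b bs =>
      cases k with
      | nil => simp [bnOK] at h
      | cons k ks =>
        cases ns with
        | nil => simp at hn
        | cons n ns =>
          simp only [bnOK, Bool.and_eq_true, decide_eq_true_eq] at h
          have h2 := ih bs ks ns h.2 (by simpa using hn)
          have e1 : dotR (n :: ns) (vR (b :: bs)) = n * ((b : ℝ) / 100000) + dotR ns (vR bs) := rfl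
          have e2 : Pk.dotN (n :: ns) (n' :: bn) = n * n' + Pk.dotN ns bn := rfl
          have e3 : Pk.dotN (n :: ns) (k :: ks) = n * k + Pk.dotN ns ks := rfl
          have h3 : (n' : ℝ) = (b : ℝ) + 1000 * (k : ℝ) := by exact_mod_cast h.1
          rw [e1, e2, e3, h2]
          push_cast
          rw [h3]
          ring

lemma sgOK_get (sg : ℕ) (bn : List ℕ) : ∀ (b : List ℤ) (k : List ℕ), bnOK bn b k = true →
    sgOK sg bn k = true → ∀ i < k.length,
    (vR b).getD i 0 ≤ ((sg : ℝ) - 10000000) / 1000000 * (kR k).getD i 0 := by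
  induction bn with
  | nil =>
    intro b k h _ i hi
    cases b with
    | nil => cases k with
      | nil => simp at hi
      | cons k ks => simp [bnOK] at h
    | cons b bs => cases k <;> simp [bnOK] at h
  | cons n' bn ih =>
    intro b k h hs i hi
    cases b with
    | nil => simp [bnOK] at h
    | cons b bs =>
      cases k with
      | nil => simp [bnOK] at h
      | cons k ks =>
        simp only [bnOK, Bool.and_eq_true, decide_eq_true_eq] at h
        simp only [sgOK, Bool.and_eq_true] at hs
        cases i with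
        | zero =>
          have h3 : (n' : ℝ) = (b : ℝ) + 1000 * (k : ℝ) := by exact_mod_cast h.1
          have h4 : (10000 : ℝ) * n' ≤ sg * k := by exact_mod_cast Nat.le_of_ble_eq_true hs.1
          show (b : ℝ) / 100000 ≤ ((sg : ℝ) - 10000000) / 1000000 * ((k : ℝ) / 1000)
          rw [h3] at h4
          rw [div_mul_div_comm, div_le_div_iff₀ (by norm_num) (by norm_num)]
          nlinarith
        | succ i =>
          have := ih bs ks h.2 hs.2 i (by simpa using hi)
          exact this

lemma snOK_get (sn : ℕ) (l : List ℤ) : ∀ z, snOK sn l z = true → ∀ i < l.length,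
    (dg sn (z + i) : ℤ) = l.getD i 0 + 1000000 := by
  induction l with
  | nil => intro z _ i hi; simp at hi
  | cons s l ih =>
    intro z h i hi
    simp only [snOK, Bool.and_eq_true, decide_eq_true_eq] at h
    cases i with
    | zero => simpa using h.1
    | succ i =>
      have := ih (z + 1) h.2 i (by simpa using hi)
      rw [show z + (i + 1) = z + 1 + i by omega, this]
      simp

lemma kR_getLastD' (l : List ℕ) : ∀ d : ℕ, (kR l).getLastD ((d : ℝ) / 1000) = ((l.getLastD d : ℕ) : ℝ) / 1000 := by
  induction l with
  | nil => intro d; rfl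
  | cons k l ih =>
    intro d
    have e : kR (k :: l) = ((k : ℝ) / 1000) :: kR l := rfl
    rw [e, List.getLastD_cons, List.getLastD_cons]
    exact ih k

lemma kR_getLastD (l : List ℕ) (a : ℝ) (h : l ≠ []) : (kR l).getLastD a = ((l.getLastD 0 : ℕ) : ℝ) / 1000 := by
  cases l with
  | nil => exact absurd rfl h
  | cons k l =>
    have e : kR (k :: l) = ((k : ℝ) / 1000) :: kR l := rfl
    rw [e, List.getLastD_cons, List.getLastD_cons]
    exact kR_getLastD' l k

/-- the function at the special entry (zero if there is none) -/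
noncomputable def psi0 (x : Box) (c : Cl) (t : ℝ) : ℝ := if x.q = [] then 0 else psR x c t

/-- the constant of a class -/
noncomputable def cC (c : Cl) : ℝ :=
  (c.rt : ℝ) / 100000 + (c.w : ℝ) / 1000 * (if c.ty = 1 then 6 / 125 else -(1 / 2))

lemma aOK_real {dB w ty lg A : ℕ} {rt : ℤ} (h : aOK dB w rt ty lg A = true) {L : ℝ}
    (hL : (lg : ℝ) / 10000000 ≤ 2 * L) :
    (A : ℝ) ≤ 200000000000 * dB * (10 - ((rt : ℝ) / 100000 + (w : ℝ) / 1000 * (if ty = 1 then 6 / 125 else -(1 / 2)))
      + 2 * ((w : ℝ) / 1000) * L) := by
  unfold aOK at h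
  have h1 := of_decide_eq_true h
  have h2 : (A : ℝ) = 20 * dB * (w * (lg - (if ty = 1 then 480000 else -5000000)) - 100000 * rt
      + 100000000000) := by
    have h3 : ((A : ℤ) : ℝ) = ((20 * dB * (w * (lg - (if ty = 1 then 480000 else -5000000)) - 100000 * rt
      + 100000000000) : ℤ) : ℝ) := by rw [h1]
    push_cast at h3
    exact h3
  rw [h2]
  have hw : (0 : ℝ) ≤ w := Nat.cast_nonneg _
  have hd : (0 : ℝ) ≤ dB := Nat.cast_nonneg _
  have h4 := mul_le_mul_of_nonneg_left (mul_le_mul_of_nonneg_left hL hw) hd
  split_ifs <;> nlinarith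

/-- the meaning of a prepared class -/
theorem sem_of {x : Box} {τ : ℕ} {c : Cl} {p : PC} (h : preOK x τ c p = true)
    (hinc : Inc 0 (kR x.k)) (hk : x.k ≠ []) (hH0 : 60 ≤ x.H0) (hH01 : x.H0 ≤ 200) (hH1 : 60 ≤ x.H1)
    (hH11 : x.H1 ≤ 200) (q0 z0 q1 z1 : ℕ)
    (hz : (x.q = [] ∧ q0 = 0 ∧ q1 = 0 ∧ z0 = 0 ∧ z1 = 0) ∨
      (∃ q' : List ℕ, x.q = 0 :: q' ∧ Inc 0 (kR q') ∧ z1 = z0 + 1 ∧ z0 < q'.length ∧
        q0 = (0 :: q').getD z0 0 ∧ q1 = q'.getD z0 0)) :
    Sem x.k (x.B1 - x.B0) ((x.H0 : ℝ) / 200) ((x.H1 : ℝ) / 200) q0 z0 q1 z1 p ((c.w : ℝ) / 1000) (cC c)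
      (phR x c) (psi0 x c) := by
  unfold preOK at h
  simp only [Bool.and_eq_true, decide_eq_true_eq] at h
  obtain ⟨⟨⟨⟨⟨⟨⟨h1, h2⟩, h3⟩, h4⟩, h5⟩, h6⟩, h7⟩, h8⟩ := h
  obtain ⟨l1, l2⟩ := bnOK_len _ _ _ h4
  have hlen : (kR x.k).length = (vR c.b).length := by simp [kR, vR, l1]
  have hs01 : psi0 x c ((q0 : ℝ) / 1000) = ((dg p.sn z0 : ℝ) - 1000000) / 100000 ∧
      psi0 x c ((q1 : ℝ) / 1000) = ((dg p.sn z1 : ℝ) - 1000000) / 100000 ∧
      ∃ α β : ℝ, ∀ y, (q0 : ℝ) / 1000 ≤ y → y ≤ (q1 : ℝ) / 1000 → psi0 x c y = α * y + β := by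
    rcases hz with ⟨e1, e2, e3, e4, e5⟩ | ⟨q', e1, e2, e3, e4, e5, e6⟩
    · rw [e1] at h6
      have h6' : dg p.sn 0 = 1000000 := of_decide_eq_true h6
      rw [e4, e5, h6']
      unfold psi0
      simp only [if_pos e1]
      exact ⟨by norm_num, by norm_num, 0, 0, fun y _ _ => by ring⟩
    · rw [e1] at h6
      simp only [Bool.and_eq_true, decide_eq_true_eq] at h6
      obtain ⟨h61, h62⟩ := h6
      have hne : x.q ≠ [] := by rw [e1]; simp
      have eψ : ∀ y, psi0 x c y = pl 0 (((c.s.headD 0 : ℤ) : ℝ) / 100000) (kR q') (vR c.s.tail) y := by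
        intro y
        unfold psi0 psR
        rw [if_neg hne, e1]
        rfl
      have hsl : c.s ≠ [] := by
        intro hcon
        rw [hcon] at h61
        simp at h61
      obtain ⟨s0, s', es⟩ : ∃ s0 s', c.s = s0 :: s' := by
        cases hcs : c.s with
        | nil => exact absurd hcs hsl
        | cons s0 s' => exact ⟨s0, s', rfl⟩
      have hl' : (kR q').length = (vR s').length := by
        rw [es] at h61
        simp [kR, vR] at h61 ⊢
        omega
      have hnode : ∀ i ≤ q'.length, psi0 x c ((((0 :: q').getD i 0 : ℕ) : ℝ) / 1000)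
          = ((dg p.sn i : ℝ) - 1000000) / 100000 := by
        intro i hi
        rw [eψ, es]
        have e7 : ((((0 :: q').getD i 0 : ℕ) : ℝ) / 1000) = ((0 : ℝ) :: kR q').getD i 0 := by
          have e8 : ((0 : ℝ) :: kR q') = (0 :: q').map fun k : ℕ => (k : ℝ) / 1000 := by simp [kR]
          rw [e8, show (0 : ℝ) = (fun k : ℕ => (k : ℝ) / 1000) 0 by simp, List.getD_map]
        rw [e7]
        have e9 := pl_node (kR q') 0 (((s0 : ℤ) : ℝ) / 100000) (vR s') e2 hl' i (by simpa [kR] using hi)
        have e10 : (((s0 :: s').headD 0 : ℤ) : ℝ) = (s0 : ℝ) := rfl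
        rw [e10]
        show pl 0 ((s0 : ℝ) / 100000) (kR q') (vR s') _ = _
        rw [e9]
        have e11 := snOK_get _ _ _ h62 i (by rw [h61]; simp; omega)
        rw [Nat.zero_add, es] at e11
        have e12 : (((s0 : ℤ) : ℝ) / 100000 :: vR s').getD i 0 = (((s0 :: s').getD i 0 : ℤ) : ℝ) / 100000 := by
          have e8 : (((s0 : ℤ) : ℝ) / 100000 :: vR s') = (s0 :: s').map fun k : ℤ => (k : ℝ) / 100000 := by
            simp [vR]
          rw [e8, show (0 : ℝ) = (fun k : ℤ => (k : ℝ) / 100000) 0 by simp, List.getD_map]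
        rw [e12]
        have e13 : (dg p.sn i : ℝ) = (((s0 :: s').getD i 0 : ℤ) : ℝ) + 1000000 := by exact_mod_cast e11
        rw [e13]
        ring
      refine ⟨?_, ?_, ?_⟩
      · rw [e5]; exact hnode z0 e4.le
      · rw [e6, e3]
        have := hnode (z0 + 1) e4
        rwa [List.getD_cons_succ] at this
      · obtain ⟨α, β, hαβ⟩ := aff_get _ (kR q') 0 (aff_pl (kR q') 0 (((c.s.headD 0 : ℤ) : ℝ) / 100000)
          (vR c.s.tail) e2 (by rw [es]; exact hl')) z0 (by simpa [kR] using e4)
        refine ⟨α, β, fun y hy hy' => ?_⟩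
        rw [eψ]
        refine hαβ y ?_ ?_
        · refine le_trans (le_of_eq ?_) hy
          rw [e5]
          have e8 : ((0 : ℝ) :: kR q') = (0 :: q').map fun k : ℕ => (k : ℝ) / 1000 := by simp [kR]
          rw [e8, show (0 : ℝ) = (fun k : ℕ => (k : ℝ) / 1000) 0 by simp, List.getD_map]
        · refine le_trans hy' (le_of_eq ?_)
          rw [e6]
          unfold kR
          rw [show (0 : ℝ) = (fun k : ℕ => (k : ℝ) / 1000) 0 by simp, List.getD_map]
  obtain ⟨r1, r2, r3⟩ := hs01
  refine
    { lam0 := by positivity
      w1 := ?_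
      aff := aff_pl (kR x.k) 0 0 (vR c.b) hinc hlen
      phi0 := pl_left (kR x.k) 0 0 (vR c.b) hinc
      bn := fun ns hns => ?_
      psi := r3
      s0 := r1
      s1 := r2
      A0 := ?_
      A1 := ?_
      sg := fun y hy hy' => ?_ }
  · rw [h3]; push_cast; ring
  · have e := sum_pl (kR x.k) 0 0 (vR c.b) ns hinc hlen (by simpa [kR] using hns)
    have e2 := bnOK_dot _ _ _ ns h4 hns
    rw [← e2, ← e]
    rfl
  · have := aOK_real h7 (L := Real.log (1 + (x.H0 : ℝ) / 200)) (lg_le x.H0 hH0 hH01)
    exact this
  · have := aOK_real h8 (L := Real.log (1 + (x.H1 : ℝ) / 200)) (lg_le x.H1 hH1 hH11)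
    exact this
  · have := pl_le_lin (((p.sg : ℝ) - 10000000) / 1000000) (kR x.k) 0 0 (vR c.b) hinc hlen (by simp)
      (fun i hi => sgOK_get _ _ _ _ h4 h5 i (by simpa [kR] using hi)) y hy
      (by rw [kR_getLastD _ _ hk]; exact hy')
    exact this

end CA
end Pool.Agent.Lib.MP_6947cd_al
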