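import Pool.Agent.Lib.MP_6947cd_al.L.CellB1
import Pool.Agent.Lib.MP_6947cd_al.L.CellD

/-!
Problem MP_6947cd_al (Chollet).  CASE B, rows `j`: the checker for the kernel.

Row values are stored in trees `FT` (children = number of entries at the present knot, from the largest knot down;
leaves = lists of values for the numbers of entries at the smallest knot).  For a box they are combined to trees
`PT` which contain, packed in digits of 64 bits, the trivial test (bit 63) and for every class and both ends of the
box the slack.  The enumeration (`nodeR`) runs through the cells from the largest knot down, with the list of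
all corners of the treated pieces; the last level is done for all numbers of entries at once.
-/

set_option autoImplicit false

namespace Pool.Agent.Lib.MP_6947cd_al
namespace CB

open Ent Ent.Pk Fr Fr.WT CA

/-! ### data types -/

/-- tables of row values -/
inductive FT
  | nil
  | leaf (l : List ℕ)
  | cons (hd tl : FT)

/-- the rows of a class at both ends -/
structure RQ where
  r0 : ℕ
  r1 : ℕ

/-- prepared tables -/
inductive PT
  | nil
  | leaf (tv : ℕ) (rq : List RQ)
  | node (tv : ℕ) (ch : PT)
  | cons (hd tl : PT)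

/-- tables of distributions: `V`, lower bound of the weights, weight of the entry one, of the special entry, of
the entries of the pieces -/
inductive PF
  | nil
  | leaf (V X0 Xo Xs : ℕ) (X : List ℕ)
  | cons (hd tl : PF)

/-- corners: tables for both special knots, carry, payments -/
structure Cn where
  t0 : PT
  t1 : PT
  D : ℕ
  pay : List ℕ

/-- corners in the last step: rows, carry, two constants -/
structure FC where
  q0 : List RQ
  q1 : List RQ
  D : ℕ
  S0 : ℕ
  S1 : ℕ

/-- knots of a piece with `10^7 * (-log)` of the lower bounds of the merged entries -/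
structure KN where
  k : ℕ
  a : ℕ
  lo : ℕ
  hi : ℕ

structure AG where
  A : ℕ
  G : ℕ

/-- a class: `20 w1`, `2 10^6 dB bn_0`, `bn_1, ..`, special values, constants of both ends, `20 dB w` -/
structure PB where
  c20 : ℕ
  e1 : ℕ
  bu : List ℕ
  sn : ℕ
  O0 : ℕ
  O1 : ℕ
  wN : ℕ

/-- parameters of a box -/
structure BQ where
  dB : ℕ
  a00 : ℕ
  a01 : ℕ
  a10 : ℕ
  a11 : ℕ
  h0 : ℕ
  h1 : ℕ
  k0 : ℕ
  ku : List ℕ
  rz2 : ℕ
  e0 : ℕ
  t9 : ℕ

/-! ### packed numbers -/

/-- packing of digits of 64 bits -/
noncomputable def pkR (l : List ℕ) : ℕ :=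
  @List.rec ℕ (fun _ => ℕ) (nat_lit 0) (fun d _ ih => Nat.add d (Nat.mul (nat_lit 18446744073709551616) ih)) l

/-- the bits `64 i + 63`, `i < 64` -/
def HG : ℕ := nat_lit 522194440706576253374184572712008336538432020404566997046596998128690226023721373189023753533395654475531309332801258307251624882375624199544348978560484094533945181362921877708806392582509237007455724233487282594234875975149300903477380160743740447394901889753544507473577219826761968913323252574694867753948405570758128217361832534078923257271755241894610053621642429639987347919219646621036320704305486157105423169373760837953363421619378558881643560719238575633830317417872026851265118833461029875370958769950323225351063353034374359893071029763987748799059267410920972299524582668304723819390144129472583952155448547860378380500433416523201466463991737974112888728588176637361768071698250664221438357863202079286004655024230107857112022117784507812295164149569105484567485170281984526050569958491843040113949609559280788210276413411672584245715273790110751986642244268382890913206351584291170372831704303914924148573848633851791787220234991540717555840305682985846388792467687763374957187486455922211686737567696067975082678729625469770223930479865907306859708921932031128202935004147298520588104152388103970733204910854159961609573952669192457189439107612428287207628716296964114564235266422713412981183408007726716985521733632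

/-- the bits `64 i`, `i < 64` -/
def ON : ℕ := nat_lit 56616434707392290496899791761750213708960512973426544075885289529220695131793750610172511951163253776515676326565454791825461869269602911121933386182133757077251195030634755700483378455118618962093433110900889061282425637142894277292995870801285310875870390913405328712178527365791706501209872164634468648776759437967585573943931030356396637940258162836915670822466893374358425866917136754325554852429283761472230109150945245123790646338288109918652217774068960034196387115889087662472366769917030081290193690854951893948953967694318746376800041975473819048823167036197102853917692584452973287287090589807511150175134997666315324305880641678028079254863184257045529468201016248521240296356118783447225295141301080254241253722169404072796057192307076878550697456284177497251356962660151563162675950057166670432859824700381772803647668631780887965871542861845958775841060791427524424282777561926932160220988924847142843992570011179653645917138142121425524525035579530659114905771137219605655025267936476699987028388777820107282310152163592767147671470567177343586349690837594600249591393902059556387997891903796941361808927690281788292975213922443107225530759377436717996867612063688792526276572210745093567889276929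

/-- the first `n` of them -/
def HM (n : ℕ) : ℕ := Nat.shiftRight HG (Nat.mul (nat_lit 64) (Nat.sub (nat_lit 64) n))

/-- `2^63` -/
def HB : ℕ := nat_lit 9223372036854775808

/-! ### access -/

noncomputable def tvOf (t : PT) : ℕ :=
  @PT.rec (fun _ => ℕ) (nat_lit 0) (fun tv _ => tv) (fun tv _ _ => tv) (fun _ _ _ _ => (nat_lit 0)) t

noncomputable def chOf (t : PT) : PT :=
  @PT.rec (fun _ => PT) PT.nil (fun _ _ => PT.nil) (fun _ ch _ => ch) (fun _ _ _ _ => PT.nil) t

noncomputable def rqOf (t : PT) : List RQ :=
  @PT.rec (fun _ => List RQ) [] (fun _ rq => rq) (fun _ _ _ => []) (fun _ _ _ _ => []) t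

noncomputable def hdC (t : PT) (k : PT → Bool) : Bool :=
  @PT.rec (fun _ => Bool) (k PT.nil) (fun _ _ => k PT.nil) (fun _ _ _ => k PT.nil) (fun hd _ _ _ => k hd) t

noncomputable def tlC (t : PT) (k : PT → Bool) : Bool :=
  @PT.rec (fun _ => Bool) (k PT.nil) (fun _ _ => k PT.nil) (fun _ _ _ => k PT.nil) (fun _ tl _ _ => k tl) t

/-- the tail after `i` children -/
noncomputable def dropC (i : ℕ) : PT → (PT → Bool) → Bool :=
  @Nat.rec (fun _ => PT → (PT → Bool) → Bool) (fun t k => k t) (fun _ ih t k => tlC t fun u => ih u k) i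

/-- child `i` -/
noncomputable def nthC (i : ℕ) (t : PT) (k : PT → Bool) : Bool := dropC i t fun u => hdC u k

/-- children `i` and `i + 1` -/
noncomputable def nth2C (i : ℕ) (t : PT) (k : PT → PT → Bool) : Bool :=
  dropC i t fun u => hdC u fun a => tlC u fun v => hdC v fun b => k a b

noncomputable def nthQ (i : ℕ) : List RQ → (ℕ → ℕ → Bool) → Bool :=
  @Nat.rec (fun _ => List RQ → (ℕ → ℕ → Bool) → Bool)
    (fun l k => @List.rec RQ (fun _ => Bool) (k (nat_lit 0) (nat_lit 0))
      (fun q _ _ => @RQ.rec (fun _ => Bool) (fun r0 r1 => k r0 r1) q) l)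
    (fun _ ih l k => @List.rec RQ (fun _ => Bool) (k (nat_lit 0) (nat_lit 0)) (fun _ l' _ => ih l' k) l) i

/-! ### preparation of the tables of a box -/

/-- length at most `n` -/
noncomputable def lenOK (l : List ℕ) : ℕ → Bool :=
  @List.rec ℕ (fun _ => ℕ → Bool) (fun _ => true)
    (fun _ _ ih n => @Nat.rec (fun _ => Bool) false (fun m _ => ih m) n) l

/-- the values at a leaf: trivial test, chord of the row value and constants for both ends -/
noncomputable def leafL (P : BQ) (q : ℕ) (l0 : List ℕ) :
    List ℕ → ℕ → (List ℕ → List AG → List AG → Bool) → Bool :=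
  @List.rec ℕ (fun _ => List ℕ → ℕ → (List ℕ → List AG → List AG → Bool) → Bool) (fun _ _ k => k [] [] [])
    (fun f0 _ ih l1 T k => @List.rec ℕ (fun _ => Bool) (k [] [] []) (fun f1 l1' _ =>
      frc (Nat.add T q) fun tq => frc (Nat.add P.h0 tq) fun s0 => frc (Nat.add P.h1 tq) fun s1 =>
      cond (Nat.ble s1 (nat_lit 7400)) (cond (Nat.ble s0 (nat_lit 7400))
        (frc (Nat.add (Nat.mul P.a00 f0) (Nat.mul P.a01 f1)) fun A0 =>
        frc (Nat.add (Nat.mul P.a10 f0) (Nat.mul P.a11 f1)) fun A1 =>
        frc (Nat.mul P.dB (w20 s0)) fun w0 => frc (Nat.mul P.dB (w20 s1)) fun w1 =>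
        frc (Nat.mul P.t9 T) fun tt =>
        frc (Nat.add (Nat.mul (nat_lit 1000) w0) tt) fun G0 =>
        frc (Nat.add (Nat.mul (nat_lit 1000) w1) tt) fun G1 =>
        frc (cond (Nat.ble (Nat.add (Nat.mul (nat_lit 20) A0) P.rz2) w0)
          (cond (Nat.ble (Nat.add (Nat.mul (nat_lit 20) A1) P.rz2) w1) HB (nat_lit 0)) (nat_lit 0)) fun d =>
        frc (Nat.add T P.k0) fun T' => ih l1' T' fun ds g0 g1 => k (d :: ds) (⟨A0, G0⟩ :: g0) (⟨A1, G1⟩ :: g1))
        (k [] [] [])) (k [] [] [])) l1) l0

/-- the slacks of a class at one end -/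
noncomputable def rowB (c20 cO e1 : ℕ) (l : List AG) : ℕ → (List ℕ → Bool) → Bool :=
  @List.rec AG (fun _ => ℕ → (List ℕ → Bool) → Bool) (fun _ k => k [])
    (fun g _ ih e k => @AG.rec (fun _ => Bool) (fun A G =>
      frc (Nat.add (Nat.mul c20 A) e) fun L => frc (Nat.add G cO) fun R =>
      cond (Nat.ble L R) (frc (Nat.sub R L) fun Q => cond (Nat.ble Q (nat_lit 4611686018427387903))
        (frc (Nat.add e e1) fun e' => ih e' fun ds => k (Q :: ds)) false) false) g) l

/-- the rows of all classes -/
noncomputable def rowsA (E0 : ℕ) (cs : List PB) : List ℕ → ℕ → List AG → List AG → (List RQ → Bool) → Bool :=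
  @List.rec PB (fun _ => List ℕ → ℕ → List AG → List AG → (List RQ → Bool) → Bool) (fun _ _ _ _ k => k [])
    (fun c _ ih vs z g0 g1 k => @PB.rec (fun _ => Bool) (fun c20 e1 bu sn O0 O1 _ =>
      frc (Nat.mul E0 (Nat.add (ldot vs bu (nat_lit 0)) (dg sn z))) fun e =>
      rowB c20 O0 e1 g0 e fun d0 => rowB c20 O1 e1 g1 e fun d1 =>
      frc (pkR d0) fun r0 => frc (pkR d1) fun r1 => ih vs z g0 g1 fun l => k (⟨r0, r1⟩ :: l)) c) cs

/-- a leaf -/
noncomputable def prepL (P : BQ) (cs : List PB) (z q : ℕ) (t0 t1 : FT) (vs : List ℕ) (k : PT → Bool) : Bool :=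
  @FT.rec (fun _ => Bool) (k PT.nil) (fun l0 => @FT.rec (fun _ => Bool) (k PT.nil) (fun l1 =>
    frc (ldot vs P.ku (nat_lit 0)) fun T => leafL P q l0 l1 T fun ds g0 g1 =>
      cond (lenOK ds (nat_lit 64)) (frc (pkR ds) fun tv => rowsA P.e0 cs vs z g0 g1 fun rq => k (PT.leaf tv rq))
        false) (fun _ _ _ _ => k PT.nil) t1) (fun _ _ _ _ => k PT.nil) t0

/-- a list of children -/
noncomputable def loopF (down : FT → FT → List ℕ → (PT → Bool) → Bool) (t0 : FT) :
    FT → List ℕ → ℕ → (ℕ → PT → Bool) → Bool :=
  @FT.rec (fun _ => FT → List ℕ → ℕ → (ℕ → PT → Bool) → Bool) (fun _ _ _ k => k (nat_lit 0) PT.nil)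
    (fun _ _ _ _ k => k (nat_lit 0) PT.nil)
    (fun h0 _ _ ih t1 vs i k => @FT.rec (fun _ => Bool) (k (nat_lit 0) PT.nil) (fun _ => k (nat_lit 0) PT.nil)
      (fun h1 u1 _ _ => down h0 h1 (i :: vs) fun p => frc (Nat.succ i) fun i' => ih u1 vs i' fun tv ch =>
        frc (Nat.add (Nat.land (tvOf p) HB) (Nat.mul (nat_lit 18446744073709551616) tv)) fun tv' =>
          k tv' (PT.cons p ch)) t1) t0

/-- the preparation of a tree with `d` inner levels -/
noncomputable def prepD (P : BQ) (cs : List PB) (z q d : ℕ) : FT → FT → List ℕ → (PT → Bool) → Bool :=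
  @Nat.rec (fun _ => FT → FT → List ℕ → (PT → Bool) → Bool) (fun t0 t1 vs k => prepL P cs z q t0 t1 vs k)
    (fun _ down t0 t1 vs k => loopF down t0 t1 vs (nat_lit 0) fun tv ch => k (PT.node tv ch)) d

/-! ### the enumeration -/

/-- trivial levels for all corners -/
noncomputable def accT (pc : List Cn) : ℕ → (ℕ → Bool) → Bool :=
  @List.rec Cn (fun _ => ℕ → (ℕ → Bool) → Bool) (fun a k => k a)
    (fun c _ ih a k => @Cn.rec (fun _ => Bool) (fun t0 t1 D _ =>
      frc (Nat.land a (Nat.shiftRight (Nat.land (tvOf t0) (tvOf t1)) (Nat.mul (nat_lit 64) D))) fun a' =>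
        ih a' k) c) pc

/-- the rows with large sum of the remaining entries; continue with the bound `Y` of the sum -/
noncomputable def coarse (k : ℕ) (pc : List Cn) (lim : ℕ) (cont : ℕ → ℕ → Bool) : Bool :=
  frc (Nat.div (Nat.add lim (Nat.sub k (nat_lit 1))) k) fun nh => accT pc HG fun acc =>
    frc (HM (Nat.succ nh)) fun M => frc (Nat.xor (Nat.land acc M) M) fun miss =>
      cond (Nat.beq miss (nat_lit 0)) true
        (frc (Nat.succ (Nat.div (Nat.log2 miss) (nat_lit 64))) fun ns =>
          frc (HM (Nat.sub (Nat.succ nh) ns)) fun M2 =>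
          cond (Nat.beq (Nat.land (Nat.shiftRight acc (Nat.mul (nat_lit 64) ns)) M2) M2)
            (frc (Nat.mul ns k) fun nk => cond (Nat.ble nk lim) (cont acc nk) (cont acc lim)) false)

/-- the next corners, empty piece -/
noncomputable def nextK0 (pc : List Cn) : (List Cn → Bool) → Bool :=
  @List.rec Cn (fun _ => (List Cn → Bool) → Bool) (fun k => k [])
    (fun c _ ih k => @Cn.rec (fun _ => Bool) (fun t0 t1 D pay =>
      nthC D (chOf t0) fun u0 => nthC D (chOf t1) fun u1 => ih fun l =>
        k (⟨u0, u1, (nat_lit 0), (nat_lit 0) :: pay⟩ :: l)) c) pc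

/-- the next corners -/
noncomputable def nextK (n m0 m p0 p1 : ℕ) (pc : List Cn) : (List Cn → Bool) → Bool :=
  @List.rec Cn (fun _ => (List Cn → Bool) → Bool) (fun k => k [])
    (fun c _ ih k => @Cn.rec (fun _ => Bool) (fun t0 t1 D pay =>
      frc (Nat.add D n) fun v => nth2C v (chOf t0) fun u0 v0 => nth2C v (chOf t1) fun u1 v1 => ih fun l =>
        k (⟨u0, u1, m0, p0 :: pay⟩ :: ⟨v0, v1, m, p1 :: pay⟩ :: l)) c) pc

/-- the numbers of entries at the upper knot -/
noncomputable def innerN (Y d : ℕ) (child : ℕ → ℕ → ℕ → Bool) (N : ℕ) : ℕ → ℕ → Bool :=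
  @Nat.rec (fun _ => ℕ → ℕ → Bool) (fun _ _ => true)
    (fun m ih n tc => cond (Nat.ble Y tc) true (cond (frc (Nat.sub Y tc) fun lim => child n m lim)
      (frc (Nat.succ n) fun n' => frc (Nat.add tc d) fun tc' => ih n' tc') false)) N

/-- the numbers of entries of the piece -/
noncomputable def outerN (Y a : ℕ) (step : ℕ → ℕ → PF → Bool) (fuel : ℕ) : ℕ → ℕ → PF → Bool :=
  @Nat.rec (fun _ => ℕ → ℕ → PF → Bool) (fun _ _ _ => false)
    (fun _ ih N Na F => cond (Nat.ble Y Na) true (@PF.rec (fun _ => Bool) false (fun _ _ _ _ _ => false)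
      (fun F0 Fs _ _ => cond (step N Na F0) (frc (Nat.succ N) fun N' => frc (Nat.add Na a) fun Na' =>
        ih N' Na' Fs) false) F)) fuel

/-- THE ENUMERATION -/
noncomputable def nodeR (fin : List Cn → ℕ → PF → Bool) (ks : List KN) : List Cn → ℕ → PF → Bool :=
  @List.rec KN (fun _ => List Cn → ℕ → PF → Bool) fin
    (fun kn _ ih pc lim F => @KN.rec (fun _ => Bool) (fun k a lo hi =>
      coarse k pc lim fun _ Y => @PF.rec (fun _ => Bool) false (fun _ _ _ _ _ => false)
        (fun F0 Fs _ _ => cond (nextK0 pc fun pc' => ih pc' Y F0)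
          (frc (Nat.sub k a) fun d => outerN Y a (fun N Na FN => innerN Y d (fun n m lim' =>
            frc (Nat.succ m) fun m0 => frc (Nat.add (Nat.mul m0 lo) (Nat.mul n hi)) fun p0 =>
            frc (Nat.add (Nat.mul m lo) (Nat.mul (Nat.succ n) hi)) fun p1 =>
            nextK n m0 m p0 p1 pc fun pc' => ih pc' lim' FN) N (nat_lit 0) Na) (nat_lit 64) (nat_lit 1) a Fs)
          false) F) kn) ks

/-! ### the last level -/

/-- the constants of the corners -/
noncomputable def mkS (X : List ℕ) (xs0 xs1 : ℕ) (pc : List Cn) : (List FC → Bool) → Bool :=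
  @List.rec Cn (fun _ => (List FC → Bool) → Bool) (fun k => k [])
    (fun c _ ih k => @Cn.rec (fun _ => Bool) (fun t0 t1 D pay =>
      frc (ldot X pay (nat_lit 0)) fun s =>
      frc (Nat.succ (Nat.div (Nat.add s xs0) (nat_lit 67000000))) fun S0 =>
      frc (Nat.succ (Nat.div (Nat.add s xs1) (nat_lit 67000000))) fun S1 =>
      ih fun l => k (⟨rqOf t0, rqOf t1, D, S0, S1⟩ :: l)) c) pc

/-- one class: the levels where it is good at all corners; `c1 = wN V`, offset `2^50` -/
noncomputable def maskC (i wN c1 : ℕ) (fc : List FC) : ℕ → (ℕ → Bool) → Bool :=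
  @List.rec FC (fun _ => ℕ → (ℕ → Bool) → Bool) (fun a k => k a)
    (fun c _ ih a k => @FC.rec (fun _ => Bool) (fun q0 q1 D S0 S1 =>
      nthQ i q0 fun x0 x1 => nthQ i q1 fun y0 y1 =>
      frc (Nat.mul (Nat.sub c1 (Nat.mul wN S0)) ON) fun z0 =>
      frc (Nat.mul (Nat.sub c1 (Nat.mul wN S1)) ON) fun z1 =>
      frc (Nat.land a (Nat.shiftRight (Nat.land (Nat.land (Nat.add x0 z0) (Nat.add x1 z0))
        (Nat.land (Nat.add y0 z1) (Nat.add y1 z1))) (Nat.mul (nat_lit 64) D))) fun a' => ih a' k) c) fc

/-- all classes -/
noncomputable def clsL (V M : ℕ) (fc : List FC) (ws : List ℕ) : ℕ → ℕ → Bool :=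
  @List.rec ℕ (fun _ => ℕ → ℕ → Bool) (fun _ U => Nat.beq (Nat.land U M) M)
    (fun wN _ ih i U => cond (Nat.beq (Nat.land U M) M) true
      (frc (Nat.mul wN V) fun c0 => cond (Nat.ble c0 (nat_lit 1125899906842623))
        (frc (Nat.add (nat_lit 9222246136947933184) c0) fun c1 => maskC i wN c1 fc HG fun m =>
          frc (Nat.lor U (Nat.land m (Nat.shiftRight m (nat_lit 64)))) fun U' =>
            frc (Nat.succ i) fun i' => ih i' U') false)) ws

/-- THE LAST LEVEL -/
noncomputable def finL (k0 lus0 lus1 : ℕ) (ws : List ℕ) (pc : List Cn) (lim : ℕ) (F : PF) : Bool :=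
  coarse k0 pc lim fun acc Y =>
    frc (HM (Nat.div (Nat.add Y (Nat.sub k0 (nat_lit 1))) k0)) fun M =>
      @PF.rec (fun _ => Bool) false (fun V _ _ Xs X =>
        frc (Nat.mul Xs lus0) fun xs0 => frc (Nat.mul Xs lus1) fun xs1 =>
        mkS X xs0 xs1 pc fun fc => frc (Nat.land acc (Nat.shiftRight acc (nat_lit 64))) fun U =>
          clsL V M fc ws (nat_lit 0) U) (fun _ _ _ _ => false) F

end CB
end Pool.Agent.Lib.MP_6947cd_al
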