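import Pool.Agent.Lib.MP_6947cd_al.L.CellB2

/-!
Problem MP_6947cd_al (Chollet).  CASE B, rows `j`: packed numbers, and the meaning of the prepared tables.
-/

set_option autoImplicit false

namespace Pool.Agent.Lib.MP_6947cd_al
namespace CB

open Ent Ent.Pk Fr Fr.WT CA

/-! ### packed numbers -/

lemma pkR_nil : pkR [] = 0 := rfl

lemma pkR_cons (d : ℕ) (l : List ℕ) : pkR (d :: l) = d + 2 ^ 64 * pkR l := by
  show d + 18446744073709551616 * pkR l = _
  norm_num

lemma pkR_step (l : List ℕ) : pkR l = 2 ^ 64 * pkR l.tail + l.headD 0 := by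
  cases l with
  | nil => simp [pkR_nil]
  | cons d l => rw [pkR_cons, List.tail_cons, List.headD_cons, add_comm]

/-- `∑_{i < m} 2 ^ (64 i)` -/
def onF : ℕ → ℕ
  | 0 => 0
  | m + 1 => 1 + 2 ^ 64 * onF m

lemma ON_eq : ON = onF 64 := by decide +kernel

lemma onF_step (m : ℕ) : onF m = 2 ^ 64 * onF (m - 1) + (if m = 0 then 0 else 1) := by
  cases m with
  | zero => simp [onF]
  | succ m => simp [onF, add_comm]

/-- the bit 63 of a digit of a packed number plus a constant in every digit -/
lemma simd_aux (κ : ℕ) (hκ : κ < 2 ^ 63) : ∀ (j : ℕ) (l : List ℕ) (m : ℕ), (∀ d ∈ l, d < 2 ^ 62) →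
    Nat.testBit (pkR l + κ * onF m) (64 * j + 63) = true → 2 ^ 63 ≤ l.getD j 0 + κ := by
  intro j
  induction j with
  | zero =>
    intro l m hl h
    have h0 : l.headD 0 < 2 ^ 62 := by
      cases l with
      | nil => simp
      | cons d l => exact hl d List.mem_cons_self
    have e : pkR l + κ * onF m = 2 ^ 64 * (pkR l.tail + κ * onF (m - 1))
        + (l.headD 0 + κ * (if m = 0 then 0 else 1)) := by
      rw [pkR_step l, onF_step m]
      ring
    have hb : l.headD 0 + κ * (if m = 0 then 0 else 1) < 2 ^ 64 := by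
      split_ifs <;> omega
    rw [e, Nat.testBit_two_pow_mul_add _ hb, if_pos (by norm_num)] at h
    have h2 := Nat.ge_two_pow_of_testBit h
    have e2 : l.getD 0 0 = l.headD 0 := by cases l <;> rfl
    rw [e2]
    refine h2.trans ?_
    split_ifs <;> omega
  | succ j ih =>
    intro l m hl h
    have h0 : l.headD 0 < 2 ^ 62 := by
      cases l with
      | nil => simp
      | cons d l => exact hl d List.mem_cons_self
    have e : pkR l + κ * onF m = 2 ^ 64 * (pkR l.tail + κ * onF (m - 1))
        + (l.headD 0 + κ * (if m = 0 then 0 else 1)) := by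
      rw [pkR_step l, onF_step m]
      ring
    have hb : l.headD 0 + κ * (if m = 0 then 0 else 1) < 2 ^ 64 := by
      split_ifs <;> omega
    rw [e, Nat.testBit_two_pow_mul_add _ hb, if_neg (by omega),
      show 64 * (j + 1) + 63 - 64 = 64 * j + 63 by omega] at h
    have h2 := ih l.tail (m - 1) (fun d hd => hl d (List.mem_of_mem_tail hd)) h
    have e2 : l.getD (j + 1) 0 = l.tail.getD j 0 := by cases l <;> simp
    rw [e2]
    exact h2

/-- THE PACKED TEST. -/
lemma simd (l : List ℕ) (hl : ∀ d ∈ l, d < 2 ^ 62) (κ : ℕ) (hκ : κ < 2 ^ 63) (j : ℕ)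
    (h : Nat.testBit (Nat.add (pkR l) (Nat.mul κ ON)) (64 * j + 63) = true) :
    ∃ d, l[j]? = some d ∧ 2 ^ 63 ≤ d + κ := by
  have h1 := simd_aux κ hκ j l 64 hl (by rw [← ON_eq]; exact h)
  cases e : l[j]? with
  | none =>
    rw [List.getD_eq_getElem?_getD, e, Option.getD_none] at h1
    omega
  | some d =>
    rw [List.getD_eq_getElem?_getD, e, Option.getD_some] at h1
    exact ⟨d, rfl, h1⟩

/-- bits of a packed list -/
lemma pkR_bit : ∀ (j : ℕ) (l : List ℕ), (∀ d ∈ l, d < 2 ^ 64) → Nat.testBit (pkR l) (64 * j + 63) = true →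
    ∃ d, l[j]? = some d ∧ 2 ^ 63 ≤ d := by
  intro j
  induction j with
  | zero =>
    intro l hl h
    cases l with
    | nil => simp [pkR_nil] at h
    | cons d l =>
      rw [pkR_cons, add_comm, Nat.testBit_two_pow_mul_add _ (hl d List.mem_cons_self),
        if_pos (by norm_num)] at h
      exact ⟨d, rfl, Nat.ge_two_pow_of_testBit h⟩
  | succ j ih =>
    intro l hl h
    cases l with
    | nil => simp [pkR_nil] at h
    | cons d l =>
      rw [pkR_cons, add_comm, Nat.testBit_two_pow_mul_add _ (hl d List.mem_cons_self), if_neg (by omega),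
        show 64 * (j + 1) + 63 - 64 = 64 * j + 63 by omega] at h
      obtain ⟨d', h1, h2⟩ := ih l (fun d hd => hl d (List.mem_cons_of_mem _ hd)) h
      exact ⟨d', by simpa using h1, h2⟩

lemma HG_bit : ∀ i < 64, Nat.testBit HG (64 * i + 63) = true := by decide +kernel

lemma HM_bit (n i : ℕ) (hn : n ≤ 64) (hi : i < n) : Nat.testBit (HM n) (64 * i + 63) = true := by
  have e : HM n = HG >>> (64 * (64 - n)) := rfl
  rw [e, Nat.testBit_shiftRight, show 64 * (64 - n) + (64 * i + 63) = 64 * (64 - n + i) + 63 by ring]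
  exact HG_bit _ (by omega)

lemma land_bit {a b i : ℕ} (h : Nat.testBit (Nat.land a b) i = true) :
    Nat.testBit a i = true ∧ Nat.testBit b i = true := by
  have e : Nat.land a b = a &&& b := rfl
  rw [e, Nat.testBit_and, Bool.and_eq_true] at h
  exact h

lemma lor_bit {a b i : ℕ} (h : Nat.testBit (Nat.lor a b) i = true) :
    Nat.testBit a i = true ∨ Nat.testBit b i = true := by
  have e : Nat.lor a b = a ||| b := rfl
  rw [e, Nat.testBit_or, Bool.or_eq_true] at h
  exact h

lemma shift_bit {a D i : ℕ} (h : Nat.testBit (Nat.shiftRight a (Nat.mul (nat_lit 64) D)) (64 * i + 63) = true) :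
    Nat.testBit a (64 * (D + i) + 63) = true := by
  have e : Nat.shiftRight a (Nat.mul (nat_lit 64) D) = a >>> (64 * D) := rfl
  rw [e, Nat.testBit_shiftRight] at h
  rw [← h]
  congr 1
  ring

lemma shift1_bit {a i : ℕ} (h : Nat.testBit (Nat.shiftRight a (nat_lit 64)) (64 * i + 63) = true) :
    Nat.testBit a (64 * (i + 1) + 63) = true := by
  have e : Nat.shiftRight a (nat_lit 64) = a >>> 64 := rfl
  rw [e, Nat.testBit_shiftRight] at h
  rw [← h]
  congr 1
  ring

/-- a mask which is contained -/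
lemma mask_bit {a M i : ℕ} (h : Nat.beq (Nat.land a M) M = true) (hM : Nat.testBit M i = true) :
    Nat.testBit a i = true := by
  have h1 := Nat.eq_of_beq_eq_true h
  rw [← h1] at hM
  exact (land_bit hM).1

end CB
end Pool.Agent.Lib.MP_6947cd_al
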