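import Pool.Agent.Lib.MP_6947cd_al.L.CellB3

/-!
Problem MP_6947cd_al (Chollet).  CASE B, rows `j`: the meaning of the prepared tables, soundness of the
preparation.
-/

set_option autoImplicit false

namespace Pool.Agent.Lib.MP_6947cd_al
namespace CB

open Ent Ent.Pk Fr Fr.WT CA

/-! ### meaning -/

/-- a class, real numbers -/
structure CD where
  lam : ℝ
  C : ℝ
  φ : ℝ → ℝ
  ψ : ℝ → ℝ

/-- context: both ends of the box, special knot, constant of the trivial test, smallest knot, classes -/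
structure CX where
  h0 : ℝ
  h1 : ℝ
  q : ℝ
  rz : ℝ
  k0 : ℝ
  dB : ℕ
  cr : List CD

/-- trivial levels -/
def TrB (x : CX) (κ : ℝ) (tv : ℕ) (P : Multiset ℝ) : Prop :=
  ∀ j : ℕ, Nat.testBit tv (64 * j + 63) = true →
    UX 0 x.h0 x.q (P + Multiset.replicate j κ) + x.rz ≤ 0 ∧
    UX 0 x.h1 x.q (P + Multiset.replicate j κ) + x.rz ≤ 0

/-- the digits of a row bound the slack of a class -/
def RowS (x : CX) (h : ℝ) (c : CD) (r : ℕ) (P : Multiset ℝ) : Prop :=
  ∃ l : List ℕ, r = pkR l ∧ (∀ d ∈ l, d < 2 ^ 62) ∧ ∀ (j d : ℕ), l[j]? = some d →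
    (d : ℝ) ≤ 2 ^ 50 - 200000000000 * x.dB * VV c.lam c.C c.φ c.ψ h x.q (P + Multiset.replicate j x.k0)

lemma RowS_zero (x : CX) (h : ℝ) (c : CD) (P : Multiset ℝ) : RowS x h c 0 P :=
  ⟨[], rfl, fun d hd => absurd hd List.not_mem_nil, fun j d hd => by simp at hd⟩

/-- the rows of all classes -/
def RqB (x : CX) (rq : List RQ) (P : Multiset ℝ) : Prop :=
  ∀ (i : ℕ) (r : RQ) (c : CD), rq[i]? = some r → x.cr[i]? = some c → RowS x x.h0 c r.r0 P ∧ RowS x x.h1 c r.r1 P

/-- the meaning of a prepared table; `ks` = knots from the present one down, without the smallest one -/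
def PS (x : CX) : PT → List ℝ → Multiset ℝ → ℕ → Prop
  | .nil, _, _, _ => True
  | .leaf tv rq, ks, P, _ => TrB x (ks.headD x.k0) tv P ∧ (ks = [] → RqB x rq P)
  | .node tv ch, ks, P, _ => TrB x (ks.headD x.k0) tv P ∧ PS x ch ks P 0
  | .cons _ _, [], _, _ => True
  | .cons hd tl, κ :: ks, P, i => PS x hd ks (P + Multiset.replicate i κ) 0 ∧ PS x tl (κ :: ks) P (i + 1)

/-- the meaning of a table of row values; `B`, `q`: second and third entry -/
def FS (B q k0 : ℝ) : FT → List ℝ → Multiset ℝ → ℕ → Prop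
  | .nil, _, _, _ => True
  | .leaf l, ks, P, _ => ks = [] → ∀ (j d : ℕ), l[j]? = some d →
      FM (1 ::ₘ B ::ₘ q ::ₘ (P + Multiset.replicate j k0)) ≤ (d : ℝ) / 10 ^ 7
  | .cons _ _, [], _, _ => True
  | .cons hd tl, κ :: ks, P, i => FS B q k0 hd ks (P + Multiset.replicate i κ) 0 ∧
      FS B q k0 tl (κ :: ks) P (i + 1)

/-- consistency of the parameters of a box -/
structure BQOK (B0 B1 H0 H1 rz : ℕ) (P : BQ) : Prop where
  B01 : B0 < B1
  B1' : B1 ≤ 200
  dB : P.dB = B1 - B0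
  le0 : B0 ≤ H0
  le1 : H0 ≤ H1
  le2 : H1 ≤ B1
  a00 : P.a00 = B1 - H0
  a01 : P.a01 = H0 - B0
  a10 : P.a10 = B1 - H1
  a11 : P.a11 = H1 - B0
  h0 : P.h0 = 5 * H0
  h1 : P.h1 = 5 * H1
  hH : 60 ≤ H0
  rz2 : P.rz2 = 2000 * P.dB * rz
  e0 : P.e0 = 2000000 * P.dB
  t9 : P.t9 = 2000000000 * P.dB
  inc : Inc 0 (kR (P.k0 :: P.ku))

/-- the meaning of a prepared class -/
structure SemB (ks : List ℕ) (dB : ℕ) (hr0 hr1 qr : ℝ) (z : ℕ) (p : PB) (c : CD) : Prop where
  lam0 : 0 ≤ c.lam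
  c20 : (p.c20 : ℝ) = 20000 * (1 + c.lam)
  bn : ∃ b0 : ℕ, p.e1 = 2000000 * dB * b0 ∧ ∀ ns : List ℕ, ns.length = ks.length →
    ((mk ns (kR ks)).map c.φ).sum = ((Pk.dotN ns (b0 :: p.bu) : ℝ) - 1000 * (Pk.dotN ns ks : ℝ)) / 100000
  sn : c.ψ qr = ((dg p.sn z : ℝ) - 1000000) / 100000
  O0 : (p.O0 : ℝ) ≤ 2 ^ 50 + 200000000000 * dB * (10 - c.C + 2 * c.lam * Real.log (1 + hr0))
  O1 : (p.O1 : ℝ) ≤ 2 ^ 50 + 200000000000 * dB * (10 - c.C + 2 * c.lam * Real.log (1 + hr1))

/-! ### one end -/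

lemma w20_le' (T : ℕ) (h1 : 300 ≤ T) (h2 : T ≤ 7400) : (w20 T : ℝ) / 200000000 ≤ Wc ((T : ℝ) / 1000) := by
  rcases Nat.lt_or_ge T 7400 with h | h
  · exact w20_le T h1 h
  · have hT : T = 7400 := by omega
    subst hT
    refine le_trans (le_of_eq ?_) (line_le_Wc 369 (by norm_num) (by norm_num) (((7400 : ℕ) : ℝ) / 1000)
      (by norm_num) (by norm_num))
    have e : w20 7400 = 20 * yn 370 := by
      unfold w20
      rw [Ent.Pk.frc_eq, Ent.Pk.frc_eq]
      show (20 - 7400 % 20) * yn (7400 / 20) + 7400 % 20 * yn (7400 / 20 + 1) = 20 * yn 370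
      norm_num
    rw [e]
    unfold lineW yr
    push_cast
    norm_num
    ring

lemma end_le {dB : ℕ} {lam C : ℝ} {φ ψ : ℝ → ℝ} (hlam : 0 ≤ lam)
    (c20 H ta tb v0 v1 q S T d O Q : ℕ) (hc : (c20 : ℝ) = 20000 * (1 + lam)) (hH : 300 ≤ 5 * H) (E : Multiset ℝ)
    (hT : E.sum = (T : ℝ) / 1000)
    (hbn : (E.map φ).sum = ((d : ℝ) - 1000 * (T : ℝ)) / 100000)
    (hS : ψ ((q : ℝ) / 1000) = ((S : ℝ) - 1000000) / 100000)
    (hA : (O : ℝ) ≤ 2 ^ 50 + 200000000000 * dB * (10 - C + 2 * lam * Real.log (1 + (H : ℝ) / 200)))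
    (hF : FM (1 ::ₘ ((H : ℝ) / 200) ::ₘ ((q : ℝ) / 1000) ::ₘ E) * (dB : ℝ)
      ≤ (ta : ℝ) * ((v0 : ℝ) / 10 ^ 7) + (tb : ℝ) * ((v1 : ℝ) / 10 ^ 7))
    (hs : 5 * H + (q + T) ≤ 7400)
    (h : c20 * (ta * v0 + tb * v1) + 2000000 * dB * (d + S) + Q
      = dB * (1000 * w20 (5 * H + (q + T)) + 2000000000 * T) + O) :
    (Q : ℝ) ≤ 2 ^ 50 - 200000000000 * dB * VV lam C φ ψ ((H : ℝ) / 200) ((q : ℝ) / 1000) E := by
  have hw20 := w20_le' (5 * H + (q + T)) (by omega) (by omega)
  have g4 : (c20 : ℝ) * (ta * v0 + tb * v1) + 2000000 * dB * ((d : ℝ) + S) + Q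
      = dB * (1000 * (w20 (5 * H + (q + T)) : ℝ) + 2000000000 * (T : ℝ)) + O := by
    exact_mod_cast h
  unfold VV
  rw [hbn, hS, hT]
  have e1 : (H : ℝ) / 200 + (q : ℝ) / 1000 + (T : ℝ) / 1000
      = ((5 * H + (q + T) : ℕ) : ℝ) / 1000 := by push_cast; ring
  rw [e1]
  generalize Wc (((5 * H + (q + T) : ℕ) : ℝ) / 1000) = W at hw20 ⊢
  generalize (w20 (5 * H + (q + T)) : ℝ) = w at g4 hw20
  generalize FM (1 ::ₘ ((H : ℝ) / 200) ::ₘ ((q : ℝ) / 1000) ::ₘ E) = FF at hF ⊢
  generalize Real.log (1 + (H : ℝ) / 200) = L at hA ⊢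
  generalize (T : ℝ) = T' at g4 ⊢
  generalize (d : ℝ) = d' at g4 ⊢
  rw [hc] at g4
  have h5 := mul_le_mul_of_nonneg_left hF (by linarith : (0 : ℝ) ≤ 200000000000 * (1 + lam))
  have h6 := mul_le_mul_of_nonneg_left hw20 (by positivity : (0 : ℝ) ≤ 200000000000 * dB)
  nlinarith

/-- the trivial test at one end -/
lemma triv_le {dB : ℕ} (hdB : 0 < dB) (H ta tb v0 v1 q T rz : ℕ) (hH : 300 ≤ 5 * H) (E : Multiset ℝ)
    (hT : E.sum = (T : ℝ) / 1000)
    (hF : FM (1 ::ₘ ((H : ℝ) / 200) ::ₘ ((q : ℝ) / 1000) ::ₘ E) * (dB : ℝ)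
      ≤ (ta : ℝ) * ((v0 : ℝ) / 10 ^ 7) + (tb : ℝ) * ((v1 : ℝ) / 10 ^ 7))
    (hs : 5 * H + (q + T) ≤ 7400)
    (h : 20 * (ta * v0 + tb * v1) + 2000 * dB * rz ≤ dB * w20 (5 * H + (q + T))) :
    UX 0 ((H : ℝ) / 200) ((q : ℝ) / 1000) E + (rz : ℝ) / 100000 ≤ 0 := by
  have hw20 := w20_le' (5 * H + (q + T)) (by omega) (by omega)
  have g4 : 20 * ((ta : ℝ) * v0 + tb * v1) + 2000 * dB * rz
      ≤ dB * (w20 (5 * H + (q + T)) : ℝ) := by
    exact_mod_cast h
  have hdBr : (0 : ℝ) < dB := by exact_mod_cast hdB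
  unfold UX
  rw [hT]
  have e1 : (H : ℝ) / 200 + (q : ℝ) / 1000 + (T : ℝ) / 1000
      = ((5 * H + (q + T) : ℕ) : ℝ) / 1000 := by push_cast; ring
  rw [e1]
  generalize Wc (((5 * H + (q + T) : ℕ) : ℝ) / 1000) = W at hw20 ⊢
  generalize (w20 (5 * H + (q + T)) : ℝ) = w at g4 hw20
  generalize FM (1 ::ₘ ((H : ℝ) / 200) ::ₘ ((q : ℝ) / 1000) ::ₘ E) = FF at hF ⊢
  have h6 := mul_le_mul_of_nonneg_left hw20 (by positivity : (0 : ℝ) ≤ 200000000 * dB)
  have key : 200000000 * (dB : ℝ) * ((1 + 0) * FF - W + (rz : ℝ) / 100000) ≤ 0 := by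
    nlinarith
  by_contra hcon
  push Not at hcon
  have := mul_pos (by positivity : (0 : ℝ) < 200000000 * dB) hcon
  linarith

/-! ### leaves -/

lemma leafL_sound (P : BQ) (q : ℕ) (l0 : List ℕ) : ∀ (l1 : List ℕ) (T : ℕ)
    (k : List ℕ → List AG → List AG → Bool), leafL P q l0 l1 T k = true →
    ∃ ds g0 g1, k ds g0 g1 = true ∧ (∀ d ∈ ds, d < 2 ^ 64) ∧
      (∀ j d, ds[j]? = some d → 2 ^ 63 ≤ d → ∃ f0 f1, l0[j]? = some f0 ∧ l1[j]? = some f1 ∧
        P.h0 + (T + j * P.k0 + q) ≤ 7400 ∧ P.h1 + (T + j * P.k0 + q) ≤ 7400 ∧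
        20 * (P.a00 * f0 + P.a01 * f1) + P.rz2 ≤ P.dB * w20 (P.h0 + (T + j * P.k0 + q)) ∧
        20 * (P.a10 * f0 + P.a11 * f1) + P.rz2 ≤ P.dB * w20 (P.h1 + (T + j * P.k0 + q))) ∧
      (∀ j A G, g0[j]? = some ⟨A, G⟩ → ∃ f0 f1, l0[j]? = some f0 ∧ l1[j]? = some f1 ∧
        P.h0 + (T + j * P.k0 + q) ≤ 7400 ∧ A = P.a00 * f0 + P.a01 * f1 ∧
        G = 1000 * (P.dB * w20 (P.h0 + (T + j * P.k0 + q))) + P.t9 * (T + j * P.k0)) ∧
      (∀ j A G, g1[j]? = some ⟨A, G⟩ → ∃ f0 f1, l0[j]? = some f0 ∧ l1[j]? = some f1 ∧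
        P.h1 + (T + j * P.k0 + q) ≤ 7400 ∧ A = P.a10 * f0 + P.a11 * f1 ∧
        G = 1000 * (P.dB * w20 (P.h1 + (T + j * P.k0 + q))) + P.t9 * (T + j * P.k0)) := by
  have hnil : ∀ k : List ℕ → List AG → List AG → Bool, k [] [] [] = true → ∀ (l0 l1 : List ℕ) (T : ℕ),
      ∃ ds g0 g1, k ds g0 g1 = true ∧ (∀ d ∈ ds, d < 2 ^ 64) ∧
      (∀ j d, ds[j]? = some d → 2 ^ 63 ≤ d → ∃ f0 f1, l0[j]? = some f0 ∧ l1[j]? = some f1 ∧
        P.h0 + (T + j * P.k0 + q) ≤ 7400 ∧ P.h1 + (T + j * P.k0 + q) ≤ 7400 ∧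
        20 * (P.a00 * f0 + P.a01 * f1) + P.rz2 ≤ P.dB * w20 (P.h0 + (T + j * P.k0 + q)) ∧
        20 * (P.a10 * f0 + P.a11 * f1) + P.rz2 ≤ P.dB * w20 (P.h1 + (T + j * P.k0 + q))) ∧
      (∀ j A G, g0[j]? = some (⟨A, G⟩ : AG) → ∃ f0 f1, l0[j]? = some f0 ∧ l1[j]? = some f1 ∧
        P.h0 + (T + j * P.k0 + q) ≤ 7400 ∧ A = P.a00 * f0 + P.a01 * f1 ∧
        G = 1000 * (P.dB * w20 (P.h0 + (T + j * P.k0 + q))) + P.t9 * (T + j * P.k0)) ∧
      (∀ j A G, g1[j]? = some (⟨A, G⟩ : AG) → ∃ f0 f1, l0[j]? = some f0 ∧ l1[j]? = some f1 ∧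
        P.h1 + (T + j * P.k0 + q) ≤ 7400 ∧ A = P.a10 * f0 + P.a11 * f1 ∧
        G = 1000 * (P.dB * w20 (P.h1 + (T + j * P.k0 + q))) + P.t9 * (T + j * P.k0)) := by
    intro k hk l0 l1 T
    refine ⟨[], [], [], hk, fun d hd => absurd hd List.not_mem_nil, ?_, ?_, ?_⟩
    · intro j d hd; simp at hd
    · intro j A G hd; simp at hd
    · intro j A G hd; simp at hd
  induction l0 with
  | nil => intro l1 T k h; exact hnil k h [] l1 T
  | cons f0 l0 ih =>
    intro l1 T k h
    cases l1 with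
    | nil => exact hnil k h _ _ T
    | cons f1 l1 =>
      have e : leafL P q (f0 :: l0) (f1 :: l1) T k =
        (frc (Nat.add T q) fun tq => frc (Nat.add P.h0 tq) fun s0 => frc (Nat.add P.h1 tq) fun s1 =>
          cond (Nat.ble s1 (nat_lit 7400)) (cond (Nat.ble s0 (nat_lit 7400))
            (frc (Nat.add (Nat.mul P.a00 f0) (Nat.mul P.a01 f1)) fun A0 =>
            frc (Nat.add (Nat.mul P.a10 f0) (Nat.mul P.a11 f1)) fun A1 =>
            frc (Nat.mul P.dB (w20 s0)) fun w0 => frc (Nat.mul P.dB (w20 s1)) fun w1 =>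
            frc (Nat.mul P.t9 T) fun tt =>
            frc (Nat.add (Nat.mul (nat_lit 1000) w0) tt) fun G0 =>
            frc (Nat.add (Nat.mul (nat_lit 1000) w1) tt) fun G1 =>
            frc (cond (Nat.ble (Nat.add (Nat.mul (nat_lit 20) A0) P.rz2) w0)
              (cond (Nat.ble (Nat.add (Nat.mul (nat_lit 20) A1) P.rz2) w1) HB (nat_lit 0)) (nat_lit 0)) fun d =>
            frc (Nat.add T P.k0) fun T' => leafL P q l0 l1 T' fun ds g0 g1 =>
              k (d :: ds) (⟨A0, G0⟩ :: g0) (⟨A1, G1⟩ :: g1))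
            (k [] [] [])) (k [] [] [])) := rfl
      rw [e] at h
      simp only [frc_eq] at h
      cases c1 : Nat.ble (Nat.add P.h1 (Nat.add T q)) (nat_lit 7400) with
      | false =>
        rw [c1, cond_false] at h
        exact hnil k h _ _ T
      | true =>
        cases c0 : Nat.ble (Nat.add P.h0 (Nat.add T q)) (nat_lit 7400) with
        | false =>
          rw [c1, cond_true, c0, cond_false] at h
          exact hnil k h _ _ T
        | true =>
          rw [c1, cond_true, c0, cond_true] at h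
          have c1' : P.h1 + (T + q) ≤ 7400 := Nat.le_of_ble_eq_true c1
          have c0' : P.h0 + (T + q) ≤ 7400 := Nat.le_of_ble_eq_true c0
          obtain ⟨ds, g0, g1, hk, p1, p2, p3, p4⟩ := ih l1 _ _ h
          have eT : ∀ j, Nat.add T P.k0 + j * P.k0 = T + (j + 1) * P.k0 := by
            intro j
            show T + P.k0 + j * P.k0 = _
            ring
          simp only [eT] at p2 p3 p4
          refine ⟨_, _, _, hk, ?_, ?_, ?_, ?_⟩
          · intro d hd
            rcases List.mem_cons.mp hd with rfl | hd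
            · cases Nat.ble (Nat.add (Nat.mul (nat_lit 20) (Nat.add (Nat.mul P.a00 f0) (Nat.mul P.a01 f1))) P.rz2)
                (Nat.mul P.dB (w20 (Nat.add P.h0 (Nat.add T q)))) <;>
              cases Nat.ble (Nat.add (Nat.mul (nat_lit 20) (Nat.add (Nat.mul P.a10 f0) (Nat.mul P.a11 f1))) P.rz2)
                (Nat.mul P.dB (w20 (Nat.add P.h1 (Nat.add T q)))) <;>
              simp [HB]
            · exact p1 d hd
          · intro j d hj hd
            cases j with
            | zero =>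
              simp only [List.length_cons, Nat.zero_lt_succ, List.getElem?_cons_zero, Option.some.injEq] at hj
              refine ⟨f0, f1, rfl, rfl, ?_, ?_, ?_, ?_⟩
              · simpa using c0'
              · simpa using c1'
              · cases b0 : Nat.ble (Nat.add (Nat.mul (nat_lit 20) (Nat.add (Nat.mul P.a00 f0) (Nat.mul P.a01 f1))) P.rz2)
                  (Nat.mul P.dB (w20 (Nat.add P.h0 (Nat.add T q)))) with
                | false =>
                  rw [b0, cond_false] at hj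
                  omega
                | true =>
                  have := Nat.le_of_ble_eq_true b0
                  rw [Nat.zero_mul, Nat.add_zero]
                  exact this
              · cases b0 : Nat.ble (Nat.add (Nat.mul (nat_lit 20) (Nat.add (Nat.mul P.a00 f0) (Nat.mul P.a01 f1))) P.rz2)
                  (Nat.mul P.dB (w20 (Nat.add P.h0 (Nat.add T q)))) with
                | false =>
                  rw [b0, cond_false] at hj
                  omega
                | true =>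
                  cases b1 : Nat.ble (Nat.add (Nat.mul (nat_lit 20) (Nat.add (Nat.mul P.a10 f0) (Nat.mul P.a11 f1))) P.rz2)
                    (Nat.mul P.dB (w20 (Nat.add P.h1 (Nat.add T q)))) with
                  | false =>
                    rw [b0, b1, cond_true, cond_false] at hj
                    omega
                  | true =>
                    have := Nat.le_of_ble_eq_true b1
                    rw [Nat.zero_mul, Nat.add_zero]
                    exact this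
            | succ j =>
              rw [List.getElem?_cons_succ] at hj
              obtain ⟨f0', f1', q1, q2, q3⟩ := p2 j d hj hd
              exact ⟨f0', f1', by simpa using q1, by simpa using q2, q3⟩
          · intro j A G hj
            cases j with
            | zero =>
              rw [List.getElem?_cons_zero, Option.some.injEq] at hj
              injection hj with hA hG
              refine ⟨f0, f1, rfl, rfl, ?_, hA.symm, ?_⟩
              · simpa using c0'
              · rw [Nat.zero_mul, Nat.add_zero]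
                exact hG.symm
            | succ j =>
              rw [List.getElem?_cons_succ] at hj
              obtain ⟨f0', f1', q1, q2, q3⟩ := p3 j A G hj
              exact ⟨f0', f1', by simpa using q1, by simpa using q2, q3⟩
          · intro j A G hj
            cases j with
            | zero =>
              rw [List.getElem?_cons_zero, Option.some.injEq] at hj
              injection hj with hA hG
              refine ⟨f0, f1, rfl, rfl, ?_, hA.symm, ?_⟩
              · simpa using c1'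
              · rw [Nat.zero_mul, Nat.add_zero]
                exact hG.symm
            | succ j =>
              rw [List.getElem?_cons_succ] at hj
              obtain ⟨f0', f1', q1, q2, q3⟩ := p4 j A G hj
              exact ⟨f0', f1', by simpa using q1, by simpa using q2, q3⟩

lemma rowB_sound (c20 cO e1 : ℕ) (l : List AG) : ∀ (e : ℕ) (k : List ℕ → Bool), rowB c20 cO e1 l e k = true →
    ∃ ds, k ds = true ∧ (∀ d ∈ ds, d < 2 ^ 62) ∧
      ∀ j d, ds[j]? = some d → ∃ A G, l[j]? = some ⟨A, G⟩ ∧ c20 * A + (e + j * e1) + d = G + cO := by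
  induction l with
  | nil =>
    intro e k h
    refine ⟨[], h, fun d hd => absurd hd List.not_mem_nil, fun j d hd => by simp at hd⟩
  | cons g l ih =>
    intro e k h
    obtain ⟨A, G⟩ := g
    have eq : rowB c20 cO e1 (⟨A, G⟩ :: l) e k =
      (frc (Nat.add (Nat.mul c20 A) e) fun L => frc (Nat.add G cO) fun R =>
      cond (Nat.ble L R) (frc (Nat.sub R L) fun Q => cond (Nat.ble Q (nat_lit 4611686018427387903))
        (frc (Nat.add e e1) fun e' => rowB c20 cO e1 l e' fun ds => k (Q :: ds)) false) false) := rfl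
    rw [eq] at h
    simp only [frc_eq] at h
    obtain ⟨h1, h⟩ := cond_eq_true h
    obtain ⟨h2, h⟩ := cond_eq_true h
    have h1' : c20 * A + e ≤ G + cO := Nat.le_of_ble_eq_true h1
    have h2' : G + cO - (c20 * A + e) ≤ 4611686018427387903 := Nat.le_of_ble_eq_true h2
    obtain ⟨ds, hk, p1, p2⟩ := ih _ _ h
    refine ⟨_, hk, ?_, ?_⟩
    · intro d hd
      rcases List.mem_cons.mp hd with rfl | hd
      · show G + cO - (c20 * A + e) < 2 ^ 62
        omega
      · exact p1 d hd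
    · intro j d hj
      cases j with
      | zero =>
        rw [List.getElem?_cons_zero, Option.some.injEq] at hj
        have hj' : G + cO - (c20 * A + e) = d := hj
        exact ⟨A, G, rfl, by omega⟩
      | succ j =>
        rw [List.getElem?_cons_succ] at hj
        obtain ⟨A', G', q1, q2⟩ := p2 j d hj
        refine ⟨A', G', by simpa using q1, ?_⟩
        rw [← q2]
        show _ = c20 * A' + (e + e1 + j * e1) + d
        ring

end CB
end Pool.Agent.Lib.MP_6947cd_al
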