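import Pool.Agent.Lib.MP_6947cd_al.L.CellB4

/-!
Problem MP_6947cd_al (Chollet).  CASE B, rows `j`: soundness of the preparation.
-/

set_option autoImplicit false

namespace Pool.Agent.Lib.MP_6947cd_al
namespace CB

open Ent Ent.Pk Fr Fr.WT CA

/-- context and parameters -/
structure CXOK (x : CX) (H0 H1 rz q : ℕ) (P : BQ) : Prop where
  h0 : x.h0 = (H0 : ℝ) / 200
  h1 : x.h1 = (H1 : ℝ) / 200
  qe : x.q = (q : ℝ) / 1000
  q1 : q ≤ 1000
  rz : x.rz = (rz : ℝ) / 100000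
  k0 : x.k0 = (P.k0 : ℝ) / 1000
  dB : x.dB = P.dB

lemma rowsA_sound (x : CX) (Q : Multiset ℝ) (E0 z : ℕ) (vs : List ℕ) (g0 g1 : List AG) (R : PB → CD → Prop)
    (H0 : ∀ p c, R p c → ∀ j A G d, g0[j]? = some ⟨A, G⟩ →
      p.c20 * A + (E0 * (Pk.dotN vs p.bu + dg p.sn z) + j * p.e1) + d = G + p.O0 →
      (d : ℝ) ≤ 2 ^ 50 - 200000000000 * x.dB * VV c.lam c.C c.φ c.ψ x.h0 x.q (Q + Multiset.replicate j x.k0))
    (H1 : ∀ p c, R p c → ∀ j A G d, g1[j]? = some ⟨A, G⟩ →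
      p.c20 * A + (E0 * (Pk.dotN vs p.bu + dg p.sn z) + j * p.e1) + d = G + p.O1 →
      (d : ℝ) ≤ 2 ^ 50 - 200000000000 * x.dB * VV c.lam c.C c.φ c.ψ x.h1 x.q (Q + Multiset.replicate j x.k0))
    (cs : List PB) : ∀ (cr : List CD), List.Forall₂ R cs cr → ∀ k : List RQ → Bool,
      rowsA E0 cs vs z g0 g1 k = true → ∃ rq, k rq = true ∧
        ∀ (i : ℕ) (r : RQ) (c : CD), rq[i]? = some r → cr[i]? = some c →
          RowS x x.h0 c r.r0 Q ∧ RowS x x.h1 c r.r1 Q := by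
  induction cs with
  | nil =>
    intro cr hcr k h
    cases hcr
    exact ⟨[], h, fun i r c hi => by simp at hi⟩
  | cons p cs ih =>
    intro cr hcr k h
    cases hcr with
    | @cons _ c _ cr hpc hcr =>
    obtain ⟨c20, e1, bu, sn, O0, O1, wN⟩ := p
    have e : rowsA E0 (⟨c20, e1, bu, sn, O0, O1, wN⟩ :: cs) vs z g0 g1 k =
      (frc (Nat.mul E0 (Nat.add (ldot vs bu (nat_lit 0)) (dg sn z))) fun e =>
      rowB c20 O0 e1 g0 e fun d0 => rowB c20 O1 e1 g1 e fun d1 =>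
      frc (pkR d0) fun r0 => frc (pkR d1) fun r1 => rowsA E0 cs vs z g0 g1 fun l => k (⟨r0, r1⟩ :: l)) := rfl
    rw [e, frc_eq, ldot0] at h
    obtain ⟨d0, h, a1, a2⟩ := rowB_sound _ _ _ _ _ _ h
    obtain ⟨d1, h, b1, b2⟩ := rowB_sound _ _ _ _ _ _ h
    rw [frc_eq, frc_eq] at h
    obtain ⟨rq, hk, hr⟩ := ih cr hcr _ h
    refine ⟨_, hk, ?_⟩
    intro i r c' hi hc
    cases i with
    | zero =>
      rw [List.getElem?_cons_zero, Option.some.injEq] at hi hc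
      subst hi hc
      constructor
      · refine ⟨d0, rfl, a1, fun j d hj => ?_⟩
        obtain ⟨A, G, q1, q2⟩ := a2 j d hj
        exact H0 _ _ hpc j A G d q1 q2
      · refine ⟨d1, rfl, b1, fun j d hj => ?_⟩
        obtain ⟨A, G, q1, q2⟩ := b2 j d hj
        exact H1 _ _ hpc j A G d q1 q2
    | succ i =>
      rw [List.getElem?_cons_succ] at hi hc
      exact hr i r c' hi hc

lemma mk_snoc (j : ℕ) (vs : List ℕ) (k : ℕ) (ku : List ℕ) :
    mk vs (kR ku) + Multiset.replicate j ((k : ℝ) / 1000) = mk (j :: vs) (kR (k :: ku)) := by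
  rw [kR_cons, Ent.mk_cons, add_comm]

/-- a leaf -/
lemma prepL_sound {B0 B1 H0 H1 rz q z : ℕ} {P : BQ} (hP : BQOK B0 B1 H0 H1 rz P) {x : CX}
    (hx : CXOK x H0 H1 rz q P) {cs : List PB}
    (hcs : List.Forall₂ (SemB (P.k0 :: P.ku) P.dB x.h0 x.h1 x.q z) cs x.cr) (t0 t1 : FT) (vs : List ℕ)
    (hvs : vs.length = P.ku.length)
    (f0 : FS ((B0 : ℝ) / 200) x.q x.k0 t0 [] (mk vs (kR P.ku)) 0)
    (f1 : FS ((B1 : ℝ) / 200) x.q x.k0 t1 [] (mk vs (kR P.ku)) 0) (k : PT → Bool)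
    (h : prepL P cs z q t0 t1 vs k = true) : ∃ p, PS x p [] (mk vs (kR P.ku)) 0 ∧ k p = true := by
  cases t0 with
  | nil => exact ⟨.nil, trivial, h⟩
  | cons a b => exact ⟨.nil, trivial, h⟩
  | leaf l0 =>
  cases t1 with
  | nil => exact ⟨.nil, trivial, h⟩
  | cons a b => exact ⟨.nil, trivial, h⟩
  | leaf l1 =>
  have e : prepL P cs z q (.leaf l0) (.leaf l1) vs k =
    (frc (ldot vs P.ku (nat_lit 0)) fun T => leafL P q l0 l1 T fun ds g0 g1 =>
      cond (lenOK ds (nat_lit 64)) (frc (pkR ds) fun tv => rowsA P.e0 cs vs z g0 g1 fun rq => k (PT.leaf tv rq))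
        false) := rfl
  rw [e, frc_eq, ldot0] at h
  obtain ⟨ds, g0, g1, h, p1, p2, p3, p4⟩ := leafL_sound _ _ _ _ _ _ h
  obtain ⟨_, h⟩ := cond_eq_true h
  rw [frc_eq] at h
  have F0 := f0 rfl
  have F1 := f1 rfl
  have hdB : 0 < P.dB := by rw [hP.dB]; have := hP.B01; omega
  have hsum : ∀ j, (mk vs (kR P.ku) + Multiset.replicate j x.k0).sum
      = ((Pk.dotN vs P.ku + j * P.k0 : ℕ) : ℝ) / 1000 := by
    intro j
    rw [hx.k0, mk_snoc, kR_sum]
    have : Pk.dotN (j :: vs) (P.k0 :: P.ku) = j * P.k0 + Pk.dotN vs P.ku := rfl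
    rw [this, add_comm]
  have hmem : ∀ j, ∀ z ∈ mk vs (kR P.ku) + Multiset.replicate j x.k0, 0 ≤ z ∧ z ≤ 1 := by
    intro j z hz
    rw [hx.k0, mk_snoc] at hz
    exact inc_mem _ 0 le_rfl hP.inc z (mk_mem _ _ z hz)
  have hqr : (q : ℝ) ≤ 1000 := by exact_mod_cast hx.q1
  have hx01 : 0 ≤ x.q ∧ x.q ≤ 1 := by
    rw [hx.qe]
    exact ⟨by positivity, by linarith⟩
  have hS : ∀ j, ∀ z ∈ (1 ::ₘ x.q ::ₘ (mk vs (kR P.ku) + Multiset.replicate j x.k0)), 0 ≤ z ∧ z ≤ 1 := by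
    intro j z hz
    simp only [Multiset.mem_cons] at hz
    rcases hz with rfl | rfl | hz
    · exact ⟨zero_le_one, le_rfl⟩
    · exact hx01
    · exact hmem j z hz
  -- chords
  have hc0 : ∀ (j a b : ℕ), l0[j]? = some a → l1[j]? = some b →
      FM (1 ::ₘ ((H0 : ℝ) / 200) ::ₘ x.q ::ₘ (mk vs (kR P.ku) + Multiset.replicate j x.k0)) * (P.dB : ℝ)
        ≤ (P.a00 : ℝ) * ((a : ℝ) / 10 ^ 7) + (P.a01 : ℝ) * ((b : ℝ) / 10 ^ 7) := by
    intro j a b ha hb
    have u0 := F0 j a ha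
    have u1 := F1 j b hb
    rw [Multiset.cons_swap] at u0 u1
    have hc := chord_h _ (Multiset.mem_cons_self _ _) (hS j) B0 B1 H0 hP.B01 hP.B1' hP.le0
      (hP.le1.trans hP.le2) _ _ u0 u1
    rw [Multiset.cons_swap, ← hP.dB, ← hP.a00, ← hP.a01] at hc
    exact hc
  have hc1 : ∀ (j a b : ℕ), l0[j]? = some a → l1[j]? = some b →
      FM (1 ::ₘ ((H1 : ℝ) / 200) ::ₘ x.q ::ₘ (mk vs (kR P.ku) + Multiset.replicate j x.k0)) * (P.dB : ℝ)
        ≤ (P.a10 : ℝ) * ((a : ℝ) / 10 ^ 7) + (P.a11 : ℝ) * ((b : ℝ) / 10 ^ 7) := by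
    intro j a b ha hb
    have u0 := F0 j a ha
    have u1 := F1 j b hb
    rw [Multiset.cons_swap] at u0 u1
    have hc := chord_h _ (Multiset.mem_cons_self _ _) (hS j) B0 B1 H1 hP.B01 hP.B1' (hP.le0.trans hP.le1)
      hP.le2 _ _ u0 u1
    rw [Multiset.cons_swap, ← hP.dB, ← hP.a10, ← hP.a11] at hc
    exact hc
  have hH0 := hP.hH
  have hH1 := hP.le1
  obtain ⟨rq, h, hrq⟩ := rowsA_sound x (mk vs (kR P.ku)) P.e0 z vs g0 g1 _ (by
      intro p c hpc j A G d hj heq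
      obtain ⟨f0', f1', q1, q2, q3, q4, q5⟩ := p3 j A G hj
      obtain ⟨b0, e1, hb⟩ := hpc.bn
      have hbn := hb (j :: vs) (by simp [hvs])
      rw [← mk_snoc, ← hx.k0] at hbn
      have hc := hc0 j f0' f1' q1 q2
      have hq' := hx.qe
      rw [hx.dB, hx.h0]
      rw [hq'] at hc ⊢
      refine end_le hpc.lam0 p.c20 H0 P.a00 P.a01 f0' f1' q (dg p.sn z) (Pk.dotN vs P.ku + j * P.k0)
        (Pk.dotN (j :: vs) (b0 :: p.bu)) p.O0 d hpc.c20 (by omega) _ (hsum j) ?_ ?_ ?_ hc ?_ ?_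
      · rw [hbn]
        have : Pk.dotN (j :: vs) (P.k0 :: P.ku) = j * P.k0 + Pk.dotN vs P.ku := rfl
        rw [this, add_comm (j * P.k0)]
      · rw [← hq']; exact hpc.sn
      · have := hpc.O0
        rwa [hx.h0] at this
      · rw [hP.h0] at q3
        omega
      · rw [hP.h0, hP.t9] at q5
        rw [hP.e0, e1, q4, q5] at heq
        have : Pk.dotN (j :: vs) (b0 :: p.bu) = j * b0 + Pk.dotN vs p.bu := rfl
        rw [this, show 5 * H0 + (q + (Pk.dotN vs P.ku + j * P.k0)) = 5 * H0 + (Pk.dotN vs P.ku + j * P.k0 + q) by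
          ring]
        generalize w20 (5 * H0 + (Pk.dotN vs P.ku + j * P.k0 + q)) = W at heq ⊢
        linarith) (by
      intro p c hpc j A G d hj heq
      obtain ⟨f0', f1', q1, q2, q3, q4, q5⟩ := p4 j A G hj
      obtain ⟨b0, e1, hb⟩ := hpc.bn
      have hbn := hb (j :: vs) (by simp [hvs])
      rw [← mk_snoc, ← hx.k0] at hbn
      have hc := hc1 j f0' f1' q1 q2
      have hq' := hx.qe
      rw [hx.dB, hx.h1]
      rw [hq'] at hc ⊢
      refine end_le hpc.lam0 p.c20 H1 P.a10 P.a11 f0' f1' q (dg p.sn z) (Pk.dotN vs P.ku + j * P.k0)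
        (Pk.dotN (j :: vs) (b0 :: p.bu)) p.O1 d hpc.c20 (by omega) _ (hsum j) ?_ ?_ ?_ hc ?_ ?_
      · rw [hbn]
        have : Pk.dotN (j :: vs) (P.k0 :: P.ku) = j * P.k0 + Pk.dotN vs P.ku := rfl
        rw [this, add_comm (j * P.k0)]
      · rw [← hq']; exact hpc.sn
      · have := hpc.O1
        rwa [hx.h1] at this
      · rw [hP.h1] at q3
        omega
      · rw [hP.h1, hP.t9] at q5
        rw [hP.e0, e1, q4, q5] at heq
        have : Pk.dotN (j :: vs) (b0 :: p.bu) = j * b0 + Pk.dotN vs p.bu := rfl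
        rw [this, show 5 * H1 + (q + (Pk.dotN vs P.ku + j * P.k0)) = 5 * H1 + (Pk.dotN vs P.ku + j * P.k0 + q) by
          ring]
        generalize w20 (5 * H1 + (Pk.dotN vs P.ku + j * P.k0 + q)) = W at heq ⊢
        linarith) cs x.cr hcs _ h
  refine ⟨PT.leaf _ rq, ⟨?_, fun _ => hrq⟩, h⟩
  intro j hj
  obtain ⟨d, hd1, hd2⟩ := pkR_bit j ds p1 hj
  obtain ⟨f0', f1', q1, q2, q3, q4, q5, q6⟩ := p2 j d hd1 hd2
  have hq' := hx.qe
  have c0 := hc0 j f0' f1' q1 q2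
  have c1 := hc1 j f0' f1' q1 q2
  show UX 0 x.h0 x.q (_ + Multiset.replicate j x.k0) + x.rz ≤ 0 ∧
    UX 0 x.h1 x.q (_ + Multiset.replicate j x.k0) + x.rz ≤ 0
  rw [hx.h0, hx.h1, hx.rz]
  rw [hq'] at c0 c1 ⊢
  rw [hP.h0] at q3 q5
  rw [hP.h1] at q4 q6
  rw [hP.rz2] at q5 q6
  constructor
  · refine triv_le hdB H0 P.a00 P.a01 f0' f1' q (Pk.dotN vs P.ku + j * P.k0) rz (by omega) _ (hsum j) c0
      (by omega) ?_
    rw [show 5 * H0 + (q + (Pk.dotN vs P.ku + j * P.k0)) = 5 * H0 + (Pk.dotN vs P.ku + j * P.k0 + q) by ring]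
    exact q5
  · refine triv_le hdB H1 P.a10 P.a11 f0' f1' q (Pk.dotN vs P.ku + j * P.k0) rz (by omega) _ (hsum j) c1
      (by omega) ?_
    rw [show 5 * H1 + (q + (Pk.dotN vs P.ku + j * P.k0)) = 5 * H1 + (Pk.dotN vs P.ku + j * P.k0 + q) by ring]
    exact q6

/-! ### inner nodes -/

lemma PS_tv {x : CX} {p : PT} {ks : List ℝ} {Q : Multiset ℝ} {i : ℕ} (h : PS x p ks Q i) :
    TrB x (ks.headD x.k0) (tvOf p) Q := by
  cases p with
  | nil => intro j hj; simp [tvOf] at hj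
  | cons a b => intro j hj; simp [tvOf] at hj
  | leaf tv rq => exact h.1
  | node tv ch => exact h.1

lemma loopF_sound {x : CX} {κ : ℝ} {kd : List ℝ} {Q : Multiset ℝ} {B0 B1 : ℝ} {vs : List ℕ}
    (down : FT → FT → List ℕ → (PT → Bool) → Bool)
    (hdown : ∀ (a b : FT) (i : ℕ) (k : PT → Bool), FS B0 x.q x.k0 a kd (Q + Multiset.replicate i κ) 0 →
      FS B1 x.q x.k0 b kd (Q + Multiset.replicate i κ) 0 → down a b (i :: vs) k = true →
      ∃ p, PS x p kd (Q + Multiset.replicate i κ) 0 ∧ k p = true) (t0 : FT) :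
    ∀ (t1 : FT) (i : ℕ) (k : ℕ → PT → Bool), FS B0 x.q x.k0 t0 (κ :: kd) Q i →
      FS B1 x.q x.k0 t1 (κ :: kd) Q i → loopF down t0 t1 vs i k = true →
      ∃ tv ch, k tv ch = true ∧ PS x ch (κ :: kd) Q i ∧ ∀ j, Nat.testBit tv (64 * j + 63) = true →
        UX 0 x.h0 x.q (Q + Multiset.replicate (i + j) κ) + x.rz ≤ 0 ∧
        UX 0 x.h1 x.q (Q + Multiset.replicate (i + j) κ) + x.rz ≤ 0 := by
  have hz : ∀ (i : ℕ) (k : ℕ → PT → Bool), k (nat_lit 0) PT.nil = true →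
      ∃ tv ch, k tv ch = true ∧ PS x ch (κ :: kd) Q i ∧ ∀ j, Nat.testBit tv (64 * j + 63) = true →
        UX 0 x.h0 x.q (Q + Multiset.replicate (i + j) κ) + x.rz ≤ 0 ∧
        UX 0 x.h1 x.q (Q + Multiset.replicate (i + j) κ) + x.rz ≤ 0 := by
    intro i k h
    exact ⟨_, _, h, trivial, fun j hj => by simp at hj⟩
  induction t0 with
  | nil => intro t1 i k _ _ h; exact hz i k h
  | leaf l => intro t1 i k _ _ h; exact hz i k h
  | cons h0 u0 _ ih =>
    intro t1 i k f0 f1 h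
    cases t1 with
    | nil => exact hz i k h
    | leaf l => exact hz i k h
    | cons h1 u1 =>
      have e : loopF down (.cons h0 u0) (.cons h1 u1) vs i k =
        (down h0 h1 (i :: vs) fun p => frc (Nat.succ i) fun i' => loopF down u0 u1 vs i' fun tv ch =>
        frc (Nat.add (Nat.land (tvOf p) HB) (Nat.mul (nat_lit 18446744073709551616) tv)) fun tv' =>
          k tv' (PT.cons p ch)) := rfl
      rw [e] at h
      obtain ⟨p, hp, h⟩ := hdown _ _ _ _ f0.1 f1.1 h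
      rw [frc_eq] at h
      obtain ⟨tv, ch, h, hch, htv⟩ := ih u1 (i + 1) _ f0.2 f1.2 h
      rw [frc_eq] at h
      refine ⟨_, _, h, ⟨hp, hch⟩, ?_⟩
      intro j hj
      have e2 : Nat.add (Nat.land (tvOf p) HB) (Nat.mul (nat_lit 18446744073709551616) tv)
          = 2 ^ 64 * tv + (tvOf p &&& HB) := by
        show (tvOf p &&& HB) + 18446744073709551616 * tv = _
        rw [add_comm]
        norm_num
      have hlt : (tvOf p &&& HB) < 2 ^ 64 := by
        refine lt_of_le_of_lt Nat.and_le_right ?_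
        norm_num [HB]
      rw [e2, Nat.testBit_two_pow_mul_add _ hlt] at hj
      cases j with
      | zero =>
        rw [if_pos (by norm_num)] at hj
        have h1 := (land_bit hj).1
        have h2 := PS_tv hp 0 (by simpa using h1)
        simpa using h2
      | succ j =>
        rw [if_neg (by omega), show 64 * (j + 1) + 63 - 64 = 64 * j + 63 by omega] at hj
        have := htv j hj
        rwa [show i + 1 + j = i + (j + 1) by ring] at this

/-- THE PREPARATION. -/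
theorem prepD_sound {B0 B1 H0 H1 rz q z : ℕ} {P : BQ} (hP : BQOK B0 B1 H0 H1 rz P) {x : CX}
    (hx : CXOK x H0 H1 rz q P) {cs : List PB}
    (hcs : List.Forall₂ (SemB (P.k0 :: P.ku) P.dB x.h0 x.h1 x.q z) cs x.cr) :
    ∀ (kd kup : List ℕ) (t0 t1 : FT) (vs : List ℕ) (k : PT → Bool), kd.reverseAux kup = P.ku →
    vs.length = kup.length →
    FS ((B0 : ℝ) / 200) x.q x.k0 t0 (kR kd) (mk vs (kR kup)) 0 →
    FS ((B1 : ℝ) / 200) x.q x.k0 t1 (kR kd) (mk vs (kR kup)) 0 →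
    prepD P cs z q kd.length t0 t1 vs k = true →
    ∃ p, PS x p (kR kd) (mk vs (kR kup)) 0 ∧ k p = true := by
  intro kd
  induction kd with
  | nil =>
    intro kup t0 t1 vs k hk hvs f0 f1 h
    have hk' : kup = P.ku := hk
    subst hk'
    exact prepL_sound hP hx hcs t0 t1 vs hvs f0 f1 k h
  | cons κ kd ih =>
    intro kup t0 t1 vs k hk hvs f0 f1 h
    have e : prepD P cs z q (κ :: kd).length t0 t1 vs k
        = loopF (prepD P cs z q kd.length) t0 t1 vs (nat_lit 0) fun tv ch => k (PT.node tv ch) := rfl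
    rw [e] at h
    obtain ⟨tv, ch, h, hch, htv⟩ := loopF_sound (κ := (κ : ℝ) / 1000) (kd := kR kd) (Q := mk vs (kR kup))
      (B0 := (B0 : ℝ) / 200) (B1 := (B1 : ℝ) / 200) _ (by
        intro a b i k fa fb hd
        rw [mk_snoc] at fa fb ⊢
        exact ih (κ :: kup) a b (i :: vs) k hk (by simp [hvs]) fa fb hd) t0 t1 0 _ f0 f1 h
    refine ⟨PT.node tv ch, ⟨?_, hch⟩, h⟩
    intro j hj
    have := htv j hj
    rwa [Nat.zero_add] at this

end CB
end Pool.Agent.Lib.MP_6947cd_al
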