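import Pool.Agent.Lib.MP_6947cd_al.L.CellB5

/-!
Problem MP_6947cd_al (Chollet).  CASE B, rows `j`: soundness of the enumeration.
-/

set_option autoImplicit false

namespace Pool.Agent.Lib.MP_6947cd_al
namespace CB

open Ent Ent.Pk Fr Fr.WT CA

/-! ### real numbers -/

lemma VV_eq (lam C : ℝ) (φ ψ : ℝ → ℝ) (h tl : ℝ) (E : Multiset ℝ) :
    VV lam C φ ψ h tl E = UX lam h tl E + ((E.map φ).sum + ψ tl + C - 2 * lam * Real.log (1 + h)) := by
  unfold VV UX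
  ring

/-- from the corners of the box to the box -/
lemma box_le (lam C : ℝ) (hlam : 0 ≤ lam) (φ ψ : ℝ → ℝ) (E : Multiset ℝ) (hN : ∀ z ∈ E, 0 ≤ z ∧ z ≤ 1)
    (a0 a1 q0 q1 : ℝ) (ha0 : 0 ≤ a0) (ha1 : a1 ≤ 1) (hq0 : 0 ≤ q0) (hq1 : q1 ≤ 1)
    (hψ : ∃ α β : ℝ, ∀ x, q0 ≤ x → x ≤ q1 → ψ x = α * x + β)
    (c1 : VV lam C φ ψ a0 q0 E ≤ 0) (c2 : VV lam C φ ψ a0 q1 E ≤ 0) (c3 : VV lam C φ ψ a1 q0 E ≤ 0)
    (c4 : VV lam C φ ψ a1 q1 E ≤ 0) (h tl : ℝ) (h0 : a0 ≤ h) (h1 : h ≤ a1) (t0 : q0 ≤ tl) (t1 : tl ≤ q1) :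
    VV lam C φ ψ h tl E ≤ 0 := by
  have htl : 0 ≤ tl ∧ tl ≤ 1 := ⟨hq0.trans t0, t1.trans hq1⟩
  have hq : ∀ g : ℝ, 0 ≤ g ∧ g ≤ 1 → VV lam C φ ψ g q0 E ≤ 0 → VV lam C φ ψ g q1 E ≤ 0 →
      VV lam C φ ψ g tl E ≤ 0 := by
    intro g hg d1 d2
    have h2 := (conv_tl lam C hlam φ ψ g hg E hN q0 q1 hq0 hq1 hψ).le_max_of_mem_Icc
      (Set.left_mem_Icc.mpr (t0.trans t1)) (Set.right_mem_Icc.mpr (t0.trans t1)) ⟨t0, t1⟩
    exact h2.trans (max_le d1 d2)
  have ha : a0 ≤ a1 := h0.trans h1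
  have h2 := (conv_h lam C hlam φ ψ tl htl E hN a0 a1 ha0 ha1).le_max_of_mem_Icc
    (Set.left_mem_Icc.mpr ha) (Set.right_mem_Icc.mpr ha) ⟨h0, h1⟩
  exact h2.trans (max_le (hq a0 ⟨ha0, ha.trans ha1⟩ c1 c2) (hq a1 ⟨ha0.trans ha, ha1⟩ c3 c4))

/-- the trivial inequality on the box -/
lemma box_triv (rz : ℝ) (E : Multiset ℝ) (hN : ∀ z ∈ E, 0 ≤ z ∧ z ≤ 1)
    (a0 a1 q0 q1 : ℝ) (ha0 : 0 ≤ a0) (ha1 : a1 ≤ 1) (hq0 : 0 ≤ q0) (hq1 : q1 ≤ 1)
    (c1 : UX 0 a0 q0 E + rz ≤ 0) (c2 : UX 0 a0 q1 E + rz ≤ 0) (c3 : UX 0 a1 q0 E + rz ≤ 0)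
    (c4 : UX 0 a1 q1 E + rz ≤ 0) (h tl : ℝ) (h0 : a0 ≤ h) (h1 : h ≤ a1) (t0 : q0 ≤ tl) (t1 : tl ≤ q1) :
    UX 0 h tl E + rz ≤ 0 := by
  have e : ∀ h tl : ℝ, VV 0 rz (fun _ => 0) (fun _ => 0) h tl E = UX 0 h tl E + rz := by
    intro h tl
    rw [VV_eq]
    simp
  have := box_le 0 rz le_rfl (fun _ => 0) (fun _ => 0) E hN a0 a1 q0 q1 ha0 ha1 hq0 hq1
    ⟨0, 0, fun x _ _ => by ring⟩ (by rw [e]; exact c1) (by rw [e]; exact c2) (by rw [e]; exact c3)
    (by rw [e]; exact c4) h tl h0 h1 t0 t1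
  rwa [e] at this

/-! ### relations -/

/-- the payments of a corner -/
def payK : List KN → List (ℕ × ℕ) → List ℕ
  | kn :: kns, m :: cn => (m.1 * kn.lo + m.2 * kn.hi) :: payK kns cn
  | _, _ => []

/-- sum of a function over the entries of a corner -/
noncomputable def sumF (φ : ℝ → ℝ) : List KN → List (ℕ × ℕ) → ℝ
  | kn :: kns, m :: cn => (m.1 * φ ((kn.a : ℝ) / 1000) + m.2 * φ ((kn.k : ℝ) / 1000)) + sumF φ kns cn
  | _, _ => 0

/-- the treated pieces -/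
noncomputable def pdOf : List KN → List (Multiset ℝ) → List PcD
  | kn :: kns, R :: Rs => ⟨(kn.a : ℝ) / 1000, (kn.k : ℝ) / 1000, R⟩ :: pdOf kns Rs
  | _, _ => []

/-- kernel corner and real corner -/
structure RelC (x x' : CX) (ks : List ℝ) (kns : List KN) (c : Cn) (g : GC) : Prop where
  t0 : PS x c.t0 ks g.P 0
  t1 : PS x' c.t1 ks g.P 0
  D : c.D = g.D
  pay : c.pay = payK kns g.cn

/-- the entries of a corner -/
structure RelG (kr : ℝ) (kns : List KN) (Ns : List ℕ) (g : GC) : Prop where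
  num : List.Forall₂ (fun (m : ℕ × ℕ) N => m.1 + m.2 = N) g.cn Ns
  sum : ∀ φ : ℝ → ℝ, ((g.P + Multiset.replicate g.D kr).map φ).sum = sumF φ kns g.cn

/-- table of distributions: meaning, `Pi` = what is claimed at a leaf -/
def PfS (Pi : List ℕ → ℕ → ℕ → List ℕ → Prop) : PF → ℕ → List ℕ → ℕ → Prop
  | .nil, _, _, _ => True
  | .leaf V _ _ Xs X, d, Ns, _ => d = 0 → Pi Ns V Xs X
  | .cons _ _, 0, _, _ => True
  | .cons hd tl, d + 1, Ns, i => PfS Pi hd d (i :: Ns) 0 ∧ PfS Pi tl (d + 1) Ns (i + 1)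

/-- the next knots are linked -/
def Link (k0 : ℕ) : List KN → Prop
  | [] => True
  | kn :: kns => kn.a = (match kns with | [] => k0 | kn' :: _ => kn'.k) ∧ kn.a < kn.k ∧ k0 ≤ kn.k ∧
      kn.k ≤ 1000 ∧ Link k0 kns

/-- present knot -/
def topK (k0 : ℕ) : List KN → ℕ
  | [] => k0
  | kn :: _ => kn.k

lemma Link_topK {k0 : ℕ} {kn : KN} {kns : List KN} (h : Link k0 (kn :: kns)) : kn.a = topK k0 kns := by
  cases kns with
  | nil => exact h.1
  | cons kn' kns => exact h.1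

noncomputable def kdR (ks : List KN) : List ℝ := ks.map fun kn => (kn.k : ℝ) / 1000

/-- the state of the enumeration -/
structure Inv (x x' : CX) (h tl : ℝ) (Pi : List ℕ → ℕ → ℕ → List ℕ → Prop) (ks : List KN) (k0 : ℕ)
    (kns : List KN) (Rs : List (Multiset ℝ)) (pc : List Cn) (gc : List GC) (F : PF) : Prop where
  rel : List.Forall₂ (RelC x x' (kdR ks) kns) pc gc
  relG : ∀ g ∈ gc, RelG ((topK k0 ks : ℝ) / 1000) kns (Rs.map Multiset.card) g
  gb : GB gc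
  dom : Dom h tl (pdOf kns Rs) ((topK k0 ks : ℝ) / 1000) gc
  mem : List.Forall₂ (fun kn (R : Multiset ℝ) => ∀ t ∈ R, (kn.a : ℝ) / 1000 < t ∧ t ≤ (kn.k : ℝ) / 1000) kns Rs
  pf : PfS Pi F ks.length (Rs.map Multiset.card) 0

lemma pdOf_length (kns : List KN) : ∀ Rs : List (Multiset ℝ), kns.length = Rs.length →
    (pdOf kns Rs).length = kns.length := by
  induction kns with
  | nil => intro Rs _; rfl
  | cons kn kns ih =>
    intro Rs h
    cases Rs with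
    | nil => simp at h
    | cons R Rs => simp [pdOf, ih Rs (by simpa using h)]

lemma payM_zero (pd : List PcD) : payM pd (pd.map fun _ => ((0 : ℝ), (0 : ℝ))) = 0 := by
  induction pd with
  | nil => rfl
  | cons p pd ih =>
    show (0 * p.R.sum + 0 * (p.R.card : ℝ)) + payM pd (pd.map fun _ => ((0 : ℝ), (0 : ℝ))) = 0
    rw [ih]
    ring

lemma payC_zero (pd : List PcD) : ∀ cn : List (ℕ × ℕ), payC pd (pd.map fun _ => ((0 : ℝ), (0 : ℝ))) cn = 0 := by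
  induction pd with
  | nil => intro cn; rfl
  | cons p pd ih =>
    intro cn
    cases cn with
    | nil => rfl
    | cons m cn =>
      show (0 * (m.1 * p.a + m.2 * p.k) + 0 * (p.R.card : ℝ)) + payC pd (pd.map fun _ => ((0 : ℝ), (0 : ℝ))) cn = 0
      rw [ih]
      ring

/-! ### the coarse step -/

lemma accT_sound (pc : List Cn) : ∀ (a : ℕ) (k : ℕ → Bool), accT pc a k = true →
    ∃ a', k a' = true ∧ ∀ j, Nat.testBit a' (64 * j + 63) = true → Nat.testBit a (64 * j + 63) = true ∧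
      ∀ c ∈ pc, Nat.testBit (tvOf c.t0) (64 * (c.D + j) + 63) = true ∧
        Nat.testBit (tvOf c.t1) (64 * (c.D + j) + 63) = true := by
  induction pc with
  | nil =>
    intro a k h
    exact ⟨a, h, fun j hj => ⟨hj, fun c hc => absurd hc List.not_mem_nil⟩⟩
  | cons c pc ih =>
    intro a k h
    obtain ⟨t0, t1, D, pay⟩ := c
    have e : accT (⟨t0, t1, D, pay⟩ :: pc) a k =
      (frc (Nat.land a (Nat.shiftRight (Nat.land (tvOf t0) (tvOf t1)) (Nat.mul (nat_lit 64) D))) fun a' =>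
        accT pc a' k) := rfl
    rw [e, frc_eq] at h
    obtain ⟨a', h1, h2⟩ := ih _ _ h
    refine ⟨a', h1, fun j hj => ?_⟩
    obtain ⟨h3, h4⟩ := h2 j hj
    obtain ⟨h5, h6⟩ := land_bit h3
    have h7 := land_bit (shift_bit h6)
    refine ⟨h5, fun c hc => ?_⟩
    rcases List.mem_cons.mp hc with rfl | hc
    · exact h7
    · exact h4 c hc

/-- the bits of `acc` -/
def AccB (pc : List Cn) (acc : ℕ) : Prop := ∀ j, Nat.testBit acc (64 * j + 63) = true →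
  ∀ c ∈ pc, Nat.testBit (tvOf c.t0) (64 * (c.D + j) + 63) = true ∧
    Nat.testBit (tvOf c.t1) (64 * (c.D + j) + 63) = true

lemma coarse_sound (k : ℕ) (hk : 0 < k) (pc : List Cn) (lim : ℕ) (hlim : lim ≤ 63 * k)
    (cont : ℕ → ℕ → Bool) (h : coarse k pc lim cont = true) :
    ∃ acc Y, AccB pc acc ∧ Y ≤ lim ∧ (∀ (s : ℝ) (n : ℕ), (Y : ℝ) ≤ s → (n : ℝ) * k ≤ s → s < ((n : ℝ) + 1) * k →
      s < lim → Nat.testBit acc (64 * n + 63) = true ∧ Nat.testBit acc (64 * (n + 1) + 63) = true) ∧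
      (Y = 0 ∨ cont acc Y = true) := by
  unfold coarse at h
  rw [frc_eq] at h
  obtain ⟨acc, h, hacc⟩ := accT_sound _ _ _ h
  rw [frc_eq, frc_eq] at h
  set nh := Nat.div (Nat.add lim (Nat.sub k (nat_lit 1))) k with hnh
  have hnh' : nh = (lim + (k - 1)) / k := rfl
  have hle : nh + 1 ≤ 64 := by
    rw [hnh']
    have h1 : (lim + (k - 1)) / k ≤ (63 * k + (k - 1)) / k := Nat.div_le_div_right (by omega)
    have h2 : (63 * k + (k - 1)) / k = 63 := by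
      rw [Nat.add_comm, Nat.add_mul_div_right _ _ hk, Nat.div_eq_of_lt (by omega)]
    omega
  have hn : ∀ (s : ℝ) (n : ℕ), (n : ℝ) * k ≤ s → s < lim → n + 1 ≤ nh := by
    intro s n h1 h2
    have h3 : (n : ℝ) * k < lim := lt_of_le_of_lt h1 h2
    have h4 : n * k < lim := by exact_mod_cast h3
    rw [hnh', Nat.le_div_iff_mul_le hk]
    have : (n + 1) * k = n * k + k := by ring
    omega
  have hA : AccB pc acc := fun j hj => (hacc j hj).2
  cases c0 : Nat.beq (Nat.xor (Nat.land acc (HM (Nat.succ nh))) (HM (Nat.succ nh))) (nat_lit 0) with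
  | true =>
    refine ⟨acc, 0, hA, Nat.zero_le _, fun s n _ h1 _ h3 => ?_, Or.inl rfl⟩
    have h4 := hn s n h1 h3
    have h5 : Nat.land acc (HM (Nat.succ nh)) = HM (Nat.succ nh) := by
      have h6 : Nat.xor (Nat.land acc (HM (Nat.succ nh))) (HM (Nat.succ nh)) = 0 :=
        Nat.eq_of_beq_eq_true c0
      exact Nat.xor_eq_zero_iff.mp h6
    have h7 : ∀ i, i < nh + 1 → Nat.testBit acc (64 * i + 63) = true := by
      intro i hi
      refine mask_bit (M := HM (Nat.succ nh)) ?_ (HM_bit (nh + 1) i hle hi)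
      rw [h5]
      exact Nat.beq_refl _
    exact ⟨h7 n (by omega), h7 (n + 1) (by omega)⟩
  | false =>
    rw [c0, cond_false] at h
    rw [frc_eq, frc_eq] at h
    set ns := Nat.succ (Nat.div (Nat.log2 (Nat.xor (Nat.land acc (HM (Nat.succ nh))) (HM (Nat.succ nh))))
      (nat_lit 64)) with hns
    obtain ⟨h1, h⟩ := cond_eq_true h
    rw [frc_eq] at h
    have hb : ∀ i, ns ≤ i → i < nh + 1 → Nat.testBit acc (64 * i + 63) = true := by
      intro i h3 h4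
      obtain ⟨j, rfl⟩ := Nat.exists_eq_add_of_le h3
      have h5 : Nat.testBit (HM (Nat.sub (Nat.succ nh) ns)) (64 * j + 63) = true := by
        refine HM_bit _ _ ?_ ?_
        · show nh + 1 - ns ≤ 64
          omega
        · show j < nh + 1 - ns
          omega
      exact shift_bit (mask_bit h1 h5)
    cases c1 : Nat.ble (Nat.mul ns k) lim with
    | true =>
      rw [c1, cond_true] at h
      refine ⟨acc, ns * k, hA, Nat.le_of_ble_eq_true c1, fun s n g0 g1 g2 g3 => ?_, Or.inr h⟩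
      have h4 := hn s n g1 g3
      have h5 : ns ≤ n := by
        have h6 : ((ns * k : ℕ) : ℝ) < ((n : ℝ) + 1) * k := lt_of_le_of_lt g0 g2
        have h7 : ns * k < (n + 1) * k := by exact_mod_cast h6
        have := Nat.lt_of_mul_lt_mul_right h7
        omega
      exact ⟨hb n h5 (by omega), hb (n + 1) (by omega) (by omega)⟩
    | false =>
      rw [c1, cond_false] at h
      refine ⟨acc, lim, hA, le_rfl, fun s n g0 _ _ g3 => ?_, Or.inr h⟩
      exact absurd g3 (not_lt.mpr g0)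

/-- trivial rows -/
lemma triv_row {x x' : CX} {h tl : ℝ} {Pi : List ℕ → ℕ → ℕ → List ℕ → Prop} {ks : List KN} {k0 : ℕ}
    {kns : List KN} {Rs : List (Multiset ℝ)} {pc : List Cn} {gc : List GC} {F : PF}
    (hI : Inv x x' h tl Pi ks k0 kns Rs pc gc F) (hx1 : x'.h0 = x.h0) (hx2 : x'.h1 = x.h1)
    (hx3 : x'.rz = x.rz) (hx4 : x.k0 = (k0 : ℝ) / 1000) (hx5 : x'.k0 = (k0 : ℝ) / 1000)
    (b0 : 0 ≤ x.h0) (b1 : x.h1 ≤ 1) (b2 : 0 ≤ x.q) (b3 : x'.q ≤ 1)
    (i0 : x.h0 ≤ h) (i1 : h ≤ x.h1) (i2 : x.q ≤ tl) (i3 : tl ≤ x'.q) (hk0 : 0 < topK k0 ks)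
    (hk1 : topK k0 ks ≤ 1000) {acc n : ℕ} (hA : AccB pc acc) (g0 : Nat.testBit acc (64 * n + 63) = true)
    (g1 : Nat.testBit acc (64 * (n + 1) + 63) = true) (R : Multiset ℝ)
    (hR : ∀ t ∈ R, 0 ≤ t ∧ t ≤ (topK k0 ks : ℝ) / 1000) (r0 : n * ((topK k0 ks : ℝ) / 1000) ≤ R.sum)
    (r1 : R.sum < (n + 1) * ((topK k0 ks : ℝ) / 1000)) :
    UX 0 h tl (sumR (pdOf kns Rs) + R) + x.rz ≤ 0 := by
  have hk0r : (0 : ℝ) < (topK k0 ks : ℝ) / 1000 := by
    have : (0 : ℝ) < topK k0 ks := by exact_mod_cast hk0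
    positivity
  have hk1r : (topK k0 ks : ℝ) / 1000 ≤ 1 := by
    have : (topK k0 ks : ℝ) ≤ 1000 := by exact_mod_cast hk1
    linarith
  have hhd : ∀ y : CX, y.k0 = (k0 : ℝ) / 1000 → (kdR ks).headD y.k0 = (topK k0 ks : ℝ) / 1000 := by
    intro y hy
    cases ks with
    | nil => exact hy
    | cons kn ks => rfl
  have key := hI.dom 0 le_rfl ((pdOf kns Rs).map fun _ => ((0 : ℝ), (0 : ℝ))) (by simp) x.rz R hR ?_
  · rw [payM_zero] at key
    linarith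
  intro g hg
  rw [payC_zero]
  -- the corresponding kernel corner
  obtain ⟨c, hc, hr⟩ : ∃ c ∈ pc, RelC x x' (kdR ks) kns c g := by
    have : ∀ (pc : List Cn) (gc : List GC), List.Forall₂ (RelC x x' (kdR ks) kns) pc gc → g ∈ gc →
        ∃ c ∈ pc, RelC x x' (kdR ks) kns c g := by
      intro pc gc hf
      induction hf with
      | nil => intro hg; exact absurd hg List.not_mem_nil
      | cons h1 _ ih =>
        intro hg
        rcases List.mem_cons.mp hg with rfl | hg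
        · exact ⟨_, List.mem_cons_self, h1⟩
        · obtain ⟨c, hc, hr⟩ := ih hg
          exact ⟨c, List.mem_cons_of_mem _ hc, hr⟩
    exact this pc gc hI.rel hg
  have hE : ∀ m : ℕ, ∀ z ∈ g.P + Multiset.replicate m ((topK k0 ks : ℝ) / 1000), 0 ≤ z ∧ z ≤ 1 := by
    intro m z hz
    rcases Multiset.mem_add.mp hz with hz | hz
    · exact hI.gb g hg z hz
    · rw [Multiset.eq_of_mem_replicate hz]
      exact ⟨hk0r.le, hk1r⟩
  have hb : ∀ m : ℕ, Nat.testBit acc (64 * m + 63) = true →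
      UX 0 h tl (g.P + Multiset.replicate (g.D + m) ((topK k0 ks : ℝ) / 1000)) + x.rz ≤ 0 := by
    intro m hm
    obtain ⟨u0, u1⟩ := hA m hm c hc
    rw [hr.D] at u0 u1
    have w0 := PS_tv hr.t0 _ u0
    have w1 := PS_tv hr.t1 _ u1
    rw [hhd x hx4] at w0
    rw [hhd x' hx5, hx1, hx2, hx3] at w1
    exact box_triv x.rz _ (hE _) x.h0 x.h1 x.q x'.q b0 b1 b2 b3 w0.1 w1.1 w0.2 w1.2 h tl i0 i1 i2 i3
  have hh : 0 ≤ h ∧ h ≤ 1 := ⟨b0.trans i0, i1.trans b1⟩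
  have htl : 0 ≤ tl ∧ tl ≤ 1 := ⟨b2.trans i2, i3.trans b3⟩
  have z := zero_max 0 h tl le_rfl hh htl (g.P + Multiset.replicate g.D ((topK k0 ks : ℝ) / 1000)) (hE _)
    ((topK k0 ks : ℝ) / 1000) hk0r hk1r R hR n r0 r1 0 x.rz ?_ ?_
  · linarith
  · have e : g.P + Multiset.replicate g.D ((topK k0 ks : ℝ) / 1000) + Multiset.replicate n ((topK k0 ks : ℝ) / 1000)
        = g.P + Multiset.replicate (g.D + n) ((topK k0 ks : ℝ) / 1000) := by
      rw [Multiset.replicate_add g.D n, add_assoc]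
    rw [e, zero_mul, add_zero]
    exact hb n g0
  · have e : g.P + Multiset.replicate g.D ((topK k0 ks : ℝ) / 1000)
        + Multiset.replicate (n + 1) ((topK k0 ks : ℝ) / 1000)
        = g.P + Multiset.replicate (g.D + (n + 1)) ((topK k0 ks : ℝ) / 1000) := by
      rw [Multiset.replicate_add g.D (n + 1), add_assoc]
    rw [e, zero_mul, add_zero]
    exact hb (n + 1) g1

end CB
end Pool.Agent.Lib.MP_6947cd_al
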