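import Pool.Agent.Lib.MP_6947cd_al.L.CellB6

/-!
Problem MP_6947cd_al (Chollet).  CASE B, rows `j`: soundness of the enumeration, main induction.
-/

set_option autoImplicit false

namespace Pool.Agent.Lib.MP_6947cd_al
namespace CB

open Ent Ent.Pk Fr Fr.WT CA

/-! ### access to children -/

lemma PS_ch {x : CX} {p : PT} {κ : ℝ} {ks : List ℝ} {Q : Multiset ℝ} (h : PS x p (κ :: ks) Q 0) :
    PS x (chOf p) (κ :: ks) Q 0 := by
  cases p with
  | nil => exact trivial
  | cons a b => exact trivial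
  | leaf tv rq => exact trivial
  | node tv ch => exact h.2

lemma hdC_sound {x : CX} {p : PT} {κ : ℝ} {ks : List ℝ} {Q : Multiset ℝ} {i : ℕ} (h : PS x p (κ :: ks) Q i)
    (k : PT → Bool) (hk : hdC p k = true) : ∃ u, k u = true ∧ PS x u ks (Q + Multiset.replicate i κ) 0 := by
  cases p with
  | nil => exact ⟨.nil, hk, trivial⟩
  | cons a b => exact ⟨a, hk, h.1⟩
  | leaf tv rq => exact ⟨.nil, hk, trivial⟩
  | node tv ch => exact ⟨.nil, hk, trivial⟩

lemma tlC_sound {x : CX} {p : PT} {κ : ℝ} {ks : List ℝ} {Q : Multiset ℝ} {i : ℕ} (h : PS x p (κ :: ks) Q i)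
    (k : PT → Bool) (hk : tlC p k = true) : ∃ u, k u = true ∧ PS x u (κ :: ks) Q (i + 1) := by
  cases p with
  | nil => exact ⟨.nil, hk, trivial⟩
  | cons a b => exact ⟨b, hk, h.2⟩
  | leaf tv rq => exact ⟨.nil, hk, trivial⟩
  | node tv ch => exact ⟨.nil, hk, trivial⟩

lemma dropC_sound {x : CX} {κ : ℝ} {ks : List ℝ} {Q : Multiset ℝ} (i : ℕ) : ∀ (p : PT) (j : ℕ)
    (_ : PS x p (κ :: ks) Q j) (k : PT → Bool), dropC i p k = true →
    ∃ u, k u = true ∧ PS x u (κ :: ks) Q (j + i) := by
  induction i with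
  | zero => intro p j h k hk; exact ⟨p, hk, h⟩
  | succ i ih =>
    intro p j h k hk
    have e : dropC (i + 1) p k = tlC p fun u => dropC i u k := rfl
    rw [e] at hk
    obtain ⟨u, hu, h2⟩ := tlC_sound h _ hk
    obtain ⟨v, hv, h3⟩ := ih u (j + 1) h2 k hu
    exact ⟨v, hv, by rwa [show j + (i + 1) = j + 1 + i by ring]⟩

lemma nthC_sound {x : CX} {κ : ℝ} {ks : List ℝ} {Q : Multiset ℝ} (i : ℕ) (p : PT)
    (h : PS x p (κ :: ks) Q 0) (k : PT → Bool) (hk : nthC i (chOf p) k = true) :
    ∃ u, k u = true ∧ PS x u ks (Q + Multiset.replicate i κ) 0 := by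
  obtain ⟨u, hu, h2⟩ := dropC_sound i _ 0 (PS_ch h) _ hk
  rw [Nat.zero_add] at h2
  exact hdC_sound h2 k hu

lemma nth2C_sound {x : CX} {κ : ℝ} {ks : List ℝ} {Q : Multiset ℝ} (i : ℕ) (p : PT)
    (h : PS x p (κ :: ks) Q 0) (k : PT → PT → Bool) (hk : nth2C i (chOf p) k = true) :
    ∃ u v, k u v = true ∧ PS x u ks (Q + Multiset.replicate i κ) 0 ∧
      PS x v ks (Q + Multiset.replicate (i + 1) κ) 0 := by
  obtain ⟨u, hu, h2⟩ := dropC_sound i _ 0 (PS_ch h) _ hk
  rw [Nat.zero_add] at h2
  obtain ⟨a, ha, h3⟩ := hdC_sound h2 _ hu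
  obtain ⟨w, hw, h4⟩ := tlC_sound h2 _ ha
  obtain ⟨b, hb, h5⟩ := hdC_sound h4 _ hw
  exact ⟨a, b, hb, h3, h5⟩

/-! ### the next corners -/

lemma nextK0_sound {x x' : CX} {κ : ℝ} {ks : List ℝ} {kns : List KN} (kn : KN) (pc : List Cn) :
    ∀ (gc : List GC), List.Forall₂ (RelC x x' (κ :: ks) kns) pc gc → ∀ k : List Cn → Bool,
      nextK0 pc k = true →
      ∃ pc', k pc' = true ∧ List.Forall₂ (RelC x x' ks (kn :: kns)) pc' (gc.map (nextZ κ)) := by
  induction pc with
  | nil =>
    intro gc hgc k h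
    cases hgc
    exact ⟨[], h, List.Forall₂.nil⟩
  | cons c pc ih =>
    intro gc hgc k h
    cases hgc with
    | @cons _ g _ gc hc hgc =>
    obtain ⟨t0, t1, D, pay⟩ := c
    have e : nextK0 (⟨t0, t1, D, pay⟩ :: pc) k =
      (nthC D (chOf t0) fun u0 => nthC D (chOf t1) fun u1 => nextK0 pc fun l =>
        k (⟨u0, u1, (nat_lit 0), (nat_lit 0) :: pay⟩ :: l)) := rfl
    rw [e] at h
    obtain ⟨h1, h2, h3, h4⟩ := hc
    simp only at h1 h2 h3 h4
    obtain ⟨u0, h, q0⟩ := nthC_sound D t0 h1 _ h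
    obtain ⟨u1, h, q1⟩ := nthC_sound D t1 h2 _ h
    obtain ⟨l, h, hl⟩ := ih gc hgc _ h
    refine ⟨_, h, List.Forall₂.cons ⟨?_, ?_, rfl, ?_⟩ hl⟩
    · rw [h3] at q0; exact q0
    · rw [h3] at q1; exact q1
    · show 0 :: pay = payK (kn :: kns) ((0, 0) :: g.cn)
      rw [h4]
      simp [payK]

lemma nextK_sound {x x' : CX} {κ : ℝ} {ks : List ℝ} {kns : List KN} (kn : KN) (n m : ℕ) (pc : List Cn) :
    ∀ (gc : List GC), List.Forall₂ (RelC x x' (κ :: ks) kns) pc gc → ∀ k : List Cn → Bool,
      nextK n (m + 1) m ((m + 1) * kn.lo + n * kn.hi) (m * kn.lo + (n + 1) * kn.hi) pc k = true →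
      ∃ pc', k pc' = true ∧
        List.Forall₂ (RelC x x' ks (kn :: kns)) pc' (gc.flatMap (nextC κ (n + m + 1) n)) := by
  induction pc with
  | nil =>
    intro gc hgc k h
    cases hgc
    exact ⟨[], h, List.Forall₂.nil⟩
  | cons c pc ih =>
    intro gc hgc k h
    cases hgc with
    | @cons _ g _ gc hc hgc =>
    obtain ⟨t0, t1, D, pay⟩ := c
    have e : nextK n (m + 1) m ((m + 1) * kn.lo + n * kn.hi) (m * kn.lo + (n + 1) * kn.hi)
        (⟨t0, t1, D, pay⟩ :: pc) k =
      (frc (Nat.add D n) fun v => nth2C v (chOf t0) fun u0 v0 => nth2C v (chOf t1) fun u1 v1 =>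
        nextK n (m + 1) m ((m + 1) * kn.lo + n * kn.hi) (m * kn.lo + (n + 1) * kn.hi) pc fun l =>
        k (⟨u0, u1, m + 1, ((m + 1) * kn.lo + n * kn.hi) :: pay⟩ ::
          ⟨v0, v1, m, (m * kn.lo + (n + 1) * kn.hi) :: pay⟩ :: l)) := rfl
    rw [e, frc_eq] at h
    obtain ⟨h1, h2, h3, h4⟩ := hc
    simp only at h1 h2 h3 h4
    obtain ⟨u0, v0, h, q0, r0⟩ := nth2C_sound _ t0 h1 _ h
    obtain ⟨u1, v1, h, q1, r1⟩ := nth2C_sound _ t1 h2 _ h
    obtain ⟨l, h, hl⟩ := ih gc hgc _ h
    have eD : Nat.add D n = g.D + n := by rw [← h3]; rfl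
    rw [eD] at q0 r0 q1 r1
    have e0 : n + m + 1 - n = m + 1 := by omega
    have e1 : n + m + 1 - (n + 1) = m := by omega
    have eC : (g :: gc).flatMap (nextC κ (n + m + 1) n)
        = ⟨g.P + Multiset.replicate (g.D + n) κ, m + 1, (m + 1, n) :: g.cn⟩ ::
          ⟨g.P + Multiset.replicate (g.D + (n + 1)) κ, m, (m, n + 1) :: g.cn⟩ ::
          gc.flatMap (nextC κ (n + m + 1) n) := by
      rw [List.flatMap_cons]
      simp only [nextC, e0, e1]
      rfl
    rw [eC]
    refine ⟨_, h, List.Forall₂.cons ⟨q0, q1, rfl, ?_⟩ (List.Forall₂.cons ⟨r0, r1, rfl, ?_⟩ hl)⟩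
    · show _ :: pay = payK (kn :: kns) ((m + 1, n) :: g.cn)
      rw [h4]
      rfl
    · show _ :: pay = payK (kn :: kns) ((m, n + 1) :: g.cn)
      rw [h4]
      rfl

/-! ### loops -/

lemma innerN_sound (Y d : ℕ) (child : ℕ → ℕ → ℕ → Bool) (N : ℕ) : ∀ n tc : ℕ,
    innerN Y d child N n tc = true → ∀ i < N, Y ≤ tc + i * d ∨
      child (n + i) (N - 1 - i) (Y - (tc + i * d)) = true := by
  induction N with
  | zero => intro n tc _ i hi; omega
  | succ m ih =>
    intro n tc h i hi
    have e : innerN Y d child (m + 1) n tc =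
      cond (Nat.ble Y tc) true (cond (frc (Nat.sub Y tc) fun lim => child n m lim)
      (frc (Nat.succ n) fun n' => frc (Nat.add tc d) fun tc' => innerN Y d child m n' tc') false) := rfl
    rw [e] at h
    cases c : Nat.ble Y tc with
    | true =>
      left
      exact (Nat.le_of_ble_eq_true c).trans (Nat.le_add_right _ _)
    | false =>
      rw [c, cond_false] at h
      obtain ⟨h1, h2⟩ := cond_eq_true h
      rw [frc_eq] at h1
      rw [frc_eq, frc_eq] at h2
      cases i with
      | zero =>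
        right
        simpa using h1
      | succ i =>
        have h3 := ih (n + 1) (tc + d) h2 i (by omega)
        rw [show n + 1 + i = n + (i + 1) by ring, show tc + d + i * d = tc + (i + 1) * d by ring,
          show m - 1 - i = m + 1 - 1 - (i + 1) by omega] at h3
        exact h3

lemma outerN_sound {Pi : List ℕ → ℕ → ℕ → List ℕ → Prop} (Y a : ℕ) (step : ℕ → ℕ → PF → Bool) (d : ℕ)
    (Ns : List ℕ) (fuel : ℕ) : ∀ (N Na : ℕ) (F : PF), PfS Pi F (d + 1) Ns N →
    outerN Y a step fuel N Na F = true → ∀ i, Y ≤ Na + i * a ∨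
      ∃ FN, PfS Pi FN d ((N + i) :: Ns) 0 ∧ step (N + i) (Na + i * a) FN = true := by
  induction fuel with
  | zero => intro N Na F _ h; exact absurd h (by simp [outerN])
  | succ f ih =>
    intro N Na F hF h i
    have e : outerN Y a step (f + 1) N Na F = cond (Nat.ble Y Na) true (@PF.rec (fun _ => Bool) false
      (fun _ _ _ _ _ => false)
      (fun F0 Fs _ _ => cond (step N Na F0) (frc (Nat.succ N) fun N' => frc (Nat.add Na a) fun Na' =>
        outerN Y a step f N' Na' Fs) false) F) := rfl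
    rw [e] at h
    cases c : Nat.ble Y Na with
    | true =>
      left
      exact (Nat.le_of_ble_eq_true c).trans (Nat.le_add_right _ _)
    | false =>
      rw [c, cond_false] at h
      cases F with
      | nil => exact absurd h (by simp)
      | leaf V X0 Xo Xs X => exact absurd h (by simp)
      | cons F0 Fs =>
        obtain ⟨h1, h2⟩ := cond_eq_true h
        rw [frc_eq, frc_eq] at h2
        cases i with
        | zero =>
          right
          refine ⟨F0, ?_, ?_⟩
          · exact hF.1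
          · simpa using h1
        | succ i =>
          have h3 := ih (N + 1) (Na + a) Fs hF.2 h2 i
          rw [show N + 1 + i = N + (i + 1) by ring, show Na + a + i * a = Na + (i + 1) * a by ring] at h3
          exact h3

/-! ### corners: entries -/

lemma relG_nextZ {kr a : ℝ} {kns : List KN} {Ns : List ℕ} {gc : List GC} (kn : KN)
    (h : ∀ g ∈ gc, RelG kr kns Ns g) : ∀ g ∈ gc.map (nextZ kr), RelG a (kn :: kns) (0 :: Ns) g := by
  intro g hg
  obtain ⟨g', hg', rfl⟩ := List.mem_map.mp hg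
  obtain ⟨h1, h2⟩ := h g' hg'
  refine ⟨List.Forall₂.cons rfl h1, fun φ => ?_⟩
  simp only [nextZ, Multiset.replicate_zero, add_zero, sumF, Nat.cast_zero, zero_mul, zero_add]
  exact h2 φ

lemma relG_nextC {kns : List KN} {Ns : List ℕ} {gc : List GC} (kn : KN) (N n : ℕ) (hn : n + 1 ≤ N)
    (h : ∀ g ∈ gc, RelG ((kn.k : ℝ) / 1000) kns Ns g) :
    ∀ g ∈ gc.flatMap (nextC ((kn.k : ℝ) / 1000) N n), RelG ((kn.a : ℝ) / 1000) (kn :: kns) (N :: Ns) g := by
  intro g hg
  obtain ⟨g', hg', hg2⟩ := List.mem_flatMap.mp hg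
  obtain ⟨h1, h2⟩ := h g' hg'
  have key : ∀ m m' : ℕ, m + m' = N → RelG ((kn.a : ℝ) / 1000) (kn :: kns) (N :: Ns)
      ⟨g'.P + Multiset.replicate (g'.D + m') ((kn.k : ℝ) / 1000), m, (m, m') :: g'.cn⟩ := by
    intro m m' hm
    refine ⟨List.Forall₂.cons hm h1, fun φ => ?_⟩
    have h3 := h2 φ
    simp only [Multiset.map_add, Multiset.sum_add, Multiset.map_replicate, Multiset.sum_replicate,
      nsmul_eq_mul, sumF] at h3 ⊢
    rw [← h3]
    push_cast
    ring
  simp only [nextC, List.mem_cons, List.not_mem_nil, or_false] at hg2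
  rcases hg2 with rfl | rfl
  · exact key _ _ (by omega)
  · exact key _ _ (by omega)

/-! ### the main induction -/

/-- the box of `(h, tl)` -/
structure Bx (x x' : CX) (k0 : ℕ) (h tl : ℝ) : Prop where
  x1 : x'.h0 = x.h0
  x2 : x'.h1 = x.h1
  x3 : x'.rz = x.rz
  x4 : x.k0 = (k0 : ℝ) / 1000
  x5 : x'.k0 = (k0 : ℝ) / 1000
  b0 : 0 ≤ x.h0
  b1 : x.h1 ≤ 1
  b2 : 0 ≤ x.q
  b3 : x'.q ≤ 1
  i0 : x.h0 ≤ h
  i1 : h ≤ x.h1
  i2 : x.q ≤ tl
  i3 : tl ≤ x'.q
  kp : 0 < k0
  k1 : k0 ≤ 1000

theorem nodeR_sound {x x' : CX} {h tl : ℝ} {k0 : ℕ} (hB : Bx x x' k0 h tl)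
    {Pi : List ℕ → ℕ → ℕ → List ℕ → Prop} (KF : List KN) (Con : Multiset ℝ → Prop)
    (hTriv : ∀ M, UX 0 h tl M + x.rz ≤ 0 → Con M) (fin : List Cn → ℕ → PF → Bool)
    (hfin : ∀ Rs pc gc F lim, Inv x x' h tl Pi [] k0 KF Rs pc gc F → fin pc lim F = true → lim ≤ 63 * k0 →
      ∀ R : Multiset ℝ, (∀ t ∈ R, 0 ≤ t ∧ t ≤ (k0 : ℝ) / 1000) → R.sum * 1000 < lim →
      Con (sumR (pdOf KF Rs) + R)) (ks : List KN) :
    ∀ (kns : List KN) (Rs : List (Multiset ℝ)) (pc : List Cn) (gc : List GC) (F : PF) (lim : ℕ),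
    ks.reverseAux kns = KF → Link k0 ks → Inv x x' h tl Pi ks k0 kns Rs pc gc F → lim ≤ 63 * k0 →
    nodeR fin ks pc lim F = true →
    ∀ R : Multiset ℝ, (∀ t ∈ R, 0 ≤ t ∧ t ≤ (topK k0 ks : ℝ) / 1000) → R.sum * 1000 < lim →
      Con (sumR (pdOf kns Rs) + R) := by
  induction ks with
  | nil =>
    intro kns Rs pc gc F lim hks _ hI hlim hn R hR hs
    have hks' : kns = KF := hks
    subst hks'
    exact hfin Rs pc gc F lim hI hn hlim R hR hs
  | cons kn ks ih =>
    intro kns Rs pc gc F lim hks hL hI hlim hn R hR hs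
    obtain ⟨k, a, lo, hi⟩ := kn
    have hLa : a = topK k0 ks := Link_topK hL
    obtain ⟨_, hak, hk0k, hk1, hL2⟩ := hL
    simp only at hak hk0k hk1
    have e : nodeR fin (⟨k, a, lo, hi⟩ :: ks) pc lim F =
      (coarse k pc lim fun _ Y => @PF.rec (fun _ => Bool) false (fun _ _ _ _ _ => false)
        (fun F0 Fs _ _ => cond (nextK0 pc fun pc' => nodeR fin ks pc' Y F0)
          (frc (Nat.sub k a) fun d => outerN Y a (fun N Na FN => innerN Y d (fun n m lim' =>
            frc (Nat.succ m) fun m0 => frc (Nat.add (Nat.mul m0 lo) (Nat.mul n hi)) fun p0 =>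
            frc (Nat.add (Nat.mul m lo) (Nat.mul (Nat.succ n) hi)) fun p1 =>
            nextK n m0 m p0 p1 pc fun pc' => nodeR fin ks pc' lim' FN) N (nat_lit 0) Na) (nat_lit 64) (nat_lit 1) a Fs)
          false) F) := rfl
    rw [e] at hn
    have hkpos : 0 < k := lt_of_lt_of_le hB.kp hk0k
    obtain ⟨acc, Y, hA, hY, hbits, hcont⟩ := coarse_sound k hkpos pc lim (by omega) _ hn
    have hkr : (0 : ℝ) < k := by exact_mod_cast hkpos
    have hR0 : 0 ≤ R.sum := Multiset.sum_nonneg fun t ht => (hR t ht).1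
    by_cases hYs : (Y : ℝ) ≤ R.sum * 1000
    · -- trivial
      set n := ⌊R.sum * 1000 / k⌋₊ with hndef
      have f0 : (n : ℝ) * k ≤ R.sum * 1000 := by
        have := Nat.floor_le (div_nonneg (by linarith) hkr.le : 0 ≤ R.sum * 1000 / k)
        rwa [← hndef, le_div_iff₀ hkr] at this
      have f1 : R.sum * 1000 < ((n : ℝ) + 1) * k := by
        have := Nat.lt_floor_add_one (R.sum * 1000 / k)
        rwa [← hndef, div_lt_iff₀ hkr] at this
      obtain ⟨g0, g1⟩ := hbits _ n hYs f0 f1 hs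
      refine hTriv _ (triv_row hI hB.x1 hB.x2 hB.x3 hB.x4 hB.x5 hB.b0 hB.b1 hB.b2 hB.b3 hB.i0 hB.i1 hB.i2
        hB.i3 hkpos hk1 hA g0 g1 R hR ?_ ?_)
      · show (n : ℝ) * ((k : ℝ) / 1000) ≤ R.sum
        rw [← mul_div_assoc, div_le_iff₀ (by norm_num)]
        exact f0
      · show R.sum < ((n : ℝ) + 1) * ((k : ℝ) / 1000)
        rw [← mul_div_assoc, lt_div_iff₀ (by norm_num)]
        exact f1
    · push Not at hYs
      have hY0 : Y ≠ 0 := by
        intro hcon
        rw [hcon, Nat.cast_zero] at hYs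
        linarith
      have hcont := hcont.resolve_left hY0
      simp only at hcont
      cases F with
      | nil => exact absurd hcont (by simp)
      | leaf V X0 Xo Xs X => exact absurd hcont (by simp)
      | cons F0 Fs =>
        obtain ⟨c1, c2⟩ := cond_eq_true hcont
        have hpf0 : PfS Pi F0 ks.length (0 :: Rs.map Multiset.card) 0 := hI.pf.1
        have hpfs : PfS Pi Fs (ks.length + 1) (Rs.map Multiset.card) 1 := hI.pf.2
        have hrel : List.Forall₂ (RelC x x' (((k : ℝ) / 1000) :: kdR ks) kns) pc gc := hI.rel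
        have har : (a : ℝ) / 1000 < (k : ℝ) / 1000 := by
          have : (a : ℝ) < k := by exact_mod_cast hak
          linarith
        have ha0 : (0 : ℝ) ≤ (a : ℝ) / 1000 := by positivity
        have hk1r : (k : ℝ) / 1000 ≤ 1 := by
          have : (k : ℝ) ≤ 1000 := by exact_mod_cast hk1
          linarith
        have hh : 0 ≤ h ∧ h ≤ 1 := ⟨hB.b0.trans hB.i0, hB.i1.trans hB.b1⟩
        have htl : 0 ≤ tl ∧ tl ≤ 1 := ⟨hB.b2.trans hB.i2, hB.i3.trans hB.b3⟩
        classical
        set T := R.filter fun t => (a : ℝ) / 1000 < t with hT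
        set R' := R.filter fun t => ¬((a : ℝ) / 1000 < t) with hR'
        have hsplit : T + R' = R := Multiset.filter_add_not _ R
        have hTm : ∀ t ∈ T, (a : ℝ) / 1000 ≤ t ∧ t ≤ (k : ℝ) / 1000 := by
          intro t ht
          obtain ⟨h1, h2⟩ := Multiset.mem_filter.mp ht
          exact ⟨h2.le, (hR t h1).2⟩
        have hTs' : ∀ t ∈ T, (a : ℝ) / 1000 < t ∧ t ≤ (k : ℝ) / 1000 := by
          intro t ht
          obtain ⟨h1, h2⟩ := Multiset.mem_filter.mp ht
          exact ⟨h2, (hR t h1).2⟩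
        have hRm : ∀ t ∈ R', 0 ≤ t ∧ t ≤ (topK k0 ks : ℝ) / 1000 := by
          intro t ht
          obtain ⟨h1, h2⟩ := Multiset.mem_filter.mp ht
          rw [← hLa]
          exact ⟨(hR t h1).1, not_lt.mp h2⟩
        have hsum : R.sum = T.sum + R'.sum := by rw [← hsplit, Multiset.sum_add]
        have hR'0 : 0 ≤ R'.sum := Multiset.sum_nonneg fun t ht => (hRm t ht).1
        by_cases hT0 : T = 0
        · -- empty piece
          obtain ⟨pc', hn', hrel'⟩ := nextK0_sound (⟨k, a, lo, hi⟩ : KN) pc gc hrel _ c1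
          have hI' : Inv x x' h tl Pi ks k0 (⟨k, a, lo, hi⟩ :: kns) (0 :: Rs) pc'
              (gc.map (nextZ ((k : ℝ) / 1000))) F0 := by
            refine ⟨hrel', ?_, ?_, ?_, ?_, ?_⟩
            · rw [List.map_cons, Multiset.card_zero]
              exact relG_nextZ _ hI.relG
            · exact GB_nextZ (by positivity) hk1r hI.gb
            · rw [← hLa]
              exact dom_zero hI.dom har.le
            · exact List.Forall₂.cons (fun t ht => absurd ht (Multiset.notMem_zero t)) hI.mem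
            · rw [List.map_cons, Multiset.card_zero]
              exact hpf0
          have h3 := ih _ _ pc' _ F0 Y hks hL2 hI' (hY.trans hlim) hn' R' hRm (by
            have : R.sum = R'.sum := by rw [hsum, hT0]; simp
            rw [← this]
            exact hYs)
          have h4 : sumR (pdOf (⟨k, a, lo, hi⟩ :: kns) (0 :: Rs)) + R' = sumR (pdOf kns Rs) + R := by
            simp only [pdOf, sumR, zero_add]
            rw [← hsplit, hT0, zero_add]
          rwa [h4] at h3
        · -- nonempty piece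
          rw [frc_eq] at c2
          have hNpos : 0 < T.card := Multiset.card_pos.mpr hT0
          obtain ⟨n, m, p1, p2, p3⟩ := piece_floor ((a : ℝ) / 1000) ((k : ℝ) / 1000) har T hTm hT0
          have hTs : ((m : ℝ) + 1) * a + n * k ≤ T.sum * 1000 := by
            have e1 : (((m : ℝ) + 1) * ((a : ℝ) / 1000) + n * ((k : ℝ) / 1000)) * 1000
                = ((m : ℝ) + 1) * a + n * k := by ring
            nlinarith
          have hNr : (T.card : ℝ) = n + m + 1 := by rw [← p1]; push_cast; ring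
          have hakr : (a : ℝ) ≤ k := by exact_mod_cast hak.le
          have o := outerN_sound Y a _ ks.length (Rs.map Multiset.card) 64 1 a Fs hpfs c2 (T.card - 1)
          have e1 : 1 + (T.card - 1) = T.card := by omega
          have e2 : a + (T.card - 1) * a = T.card * a := by
            obtain ⟨c, hc⟩ : ∃ c, T.card = c + 1 := ⟨T.card - 1, by omega⟩
            rw [hc, Nat.add_sub_cancel]
            ring
          rw [e1, e2] at o
          have hnot : ¬ (Y ≤ T.card * a) := by
            intro hcon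
            have : (Y : ℝ) ≤ T.card * a := by exact_mod_cast hcon
            rw [hNr] at this
            nlinarith [mul_le_mul_of_nonneg_left hakr (Nat.cast_nonneg n : (0 : ℝ) ≤ n)]
          obtain ⟨FN, hFN, hstep⟩ := o.resolve_left hnot
          have hin := innerN_sound Y (Nat.sub k a) _ T.card 0 (T.card * a) hstep n (by omega)
          have hd : ((Nat.sub k a : ℕ) : ℝ) = (k : ℝ) - a := by
            have : Nat.sub k a = k - a := rfl
            rw [this, Nat.cast_sub hak.le]
          have hnot2 : ¬ (Y ≤ T.card * a + n * Nat.sub k a) := by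
            intro hcon
            have : (Y : ℝ) ≤ T.card * a + n * ((Nat.sub k a : ℕ) : ℝ) := by exact_mod_cast hcon
            rw [hNr, hd] at this
            nlinarith
          have hch := hin.resolve_left hnot2
          rw [Nat.zero_add, show T.card - 1 - n = m by omega] at hch
          simp only [frc_eq] at hch
          obtain ⟨pc', hn', hrel'⟩ := nextK_sound (⟨k, a, lo, hi⟩ : KN) n m pc gc hrel _ hch
          have hI' : Inv x x' h tl Pi ks k0 (⟨k, a, lo, hi⟩ :: kns) (T :: Rs) pc'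
              (gc.flatMap (nextC ((k : ℝ) / 1000) T.card n)) FN := by
            refine ⟨?_, ?_, ?_, ?_, ?_, ?_⟩
            · rw [← p1]
              exact hrel'
            · rw [List.map_cons, ← hLa]
              exact relG_nextC (⟨k, a, lo, hi⟩ : KN) T.card n (by omega) hI.relG
            · exact GB_nextC (by positivity) hk1r _ _ hI.gb
            · rw [← hLa]
              exact dom_succ hh htl hI.dom hI.gb ha0 har hk1r T hTm n m p1 p2 p3
            · exact List.Forall₂.cons hTs' hI.mem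
            · rw [List.map_cons]
              exact hFN
          have h3 := ih _ _ pc' _ FN (Y - (T.card * a + n * Nat.sub k a)) hks hL2 hI'
            ((Nat.sub_le _ _).trans (hY.trans hlim)) hn' R' hRm (by
            push Not at hnot2
            rw [Nat.cast_sub hnot2.le]
            push_cast
            rw [hd, hNr]
            nlinarith)
          have h4 : sumR (pdOf (⟨k, a, lo, hi⟩ :: kns) (T :: Rs)) + R' = sumR (pdOf kns Rs) + R := by
            simp only [pdOf, sumR]
            rw [← hsplit]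
            abel
          rwa [h4] at h3

end CB
end Pool.Agent.Lib.MP_6947cd_al
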