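import Pool.Agent.Lib.MP_6947cd_al.L.CellB7

/-!
Problem MP_6947cd_al (Chollet).  CASE B, rows `j`: soundness of the last level.
-/

set_option autoImplicit false

namespace Pool.Agent.Lib.MP_6947cd_al
namespace CB

open Ent Ent.Pk Fr Fr.WT CA

/-! ### distributions -/

/-- weighted sum of `-log` -/
noncomputable def wlog : List ℕ → List (Multiset ℝ) → ℝ
  | x :: X, R :: Rs => x * (R.map fun z => -Real.log z).sum + wlog X Rs
  | _, _ => 0

/-- entries in `[0, 1]`, positive where the weight is not zero -/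
def PosX : List ℕ → List (Multiset ℝ) → Prop
  | _, [] => True
  | X, R :: Rs => (∀ z ∈ R, 0 ≤ z ∧ z ≤ 1) ∧ (X.headD 0 ≠ 0 → ∀ z ∈ R, 0 < z) ∧ PosX X.tail Rs

/-- what a distribution shows -/
def PiS (Ns : List ℕ) (V Xs : ℕ) (X : List ℕ) : Prop :=
  ∀ (σ : ℝ) (Rs : List (Multiset ℝ)) (rest : Multiset ℝ), Rs.map Multiset.card = Ns → 0 ≤ σ → σ ≤ 1 →
    (Xs ≠ 0 → 0 < σ) → PosX X Rs → (∀ z ∈ rest, 0 ≤ z ∧ z ≤ 1) →
    (V : ℝ) / 10 ^ 7 - (Xs * (-Real.log σ) + wlog X Rs) / 67000000 ≤ FM (1 ::ₘ σ ::ₘ (Rs.sum + rest))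

/-- weights only on usable pieces -/
def UseX : List KN → List ℕ → Prop
  | kn :: kns, x :: X => (x ≠ 0 → kn.lo ≠ 0) ∧ UseX kns X
  | _, _ => True

/-- the claim at the leaves of the tree of distributions -/
def PiF (KF : List KN) (lus0 : ℕ) (Ns : List ℕ) (V Xs : ℕ) (X : List ℕ) : Prop :=
  PiS Ns V Xs X ∧ UseX KF X ∧ (Xs ≠ 0 → lus0 ≠ 0)

/-! ### payments of a class -/

/-- the value of the affine payment of a piece -/
noncomputable def ell (kn : KN) (t : ℝ) : ℝ :=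
  (kn.lo : ℝ) / 10 ^ 7 + ((kn.hi : ℝ) - kn.lo) / 10 ^ 7 / ((kn.k : ℝ) / 1000 - (kn.a : ℝ) / 1000)
    * (t - (kn.a : ℝ) / 1000)

/-- slope of a function -/
noncomputable def slF (φ : ℝ → ℝ) (kn : KN) : ℝ :=
  (φ ((kn.k : ℝ) / 1000) - φ ((kn.a : ℝ) / 1000)) / ((kn.k : ℝ) / 1000 - (kn.a : ℝ) / 1000)

/-- the payments of a class -/
noncomputable def coL (lam : ℝ) (φ : ℝ → ℝ) : List KN → List ℕ → List (ℝ × ℝ)
  | [], _ => []
  | kn :: kns, X =>
    (slF φ kn + lam * ((X.headD 0 : ℕ) : ℝ) / 67000000 * slF (ell kn) kn,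
      (φ ((kn.a : ℝ) / 1000) - slF φ kn * ((kn.a : ℝ) / 1000))
        + lam * ((X.headD 0 : ℕ) : ℝ) / 67000000 * (ell kn ((kn.a : ℝ) / 1000) - slF (ell kn) kn * ((kn.a : ℝ) / 1000)))
      :: coL lam φ kns X.tail

lemma coL_length (lam : ℝ) (φ : ℝ → ℝ) (kns : List KN) : ∀ X, (coL lam φ kns X).length = kns.length := by
  induction kns with
  | nil => intro X; rfl
  | cons kn kns ih => intro X; simp [coL, ih]

/-- a function is affine on the pieces -/
def AffK (φ : ℝ → ℝ) (kns : List KN) : Prop :=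
  ∀ kn ∈ kns, kn.a < kn.k ∧ ∃ α β : ℝ, ∀ t, (kn.a : ℝ) / 1000 ≤ t → t ≤ (kn.k : ℝ) / 1000 → φ t = α * t + β

lemma slF_aff {φ : ℝ → ℝ} {kn : KN} (hk : kn.a < kn.k) (h : ∃ α β : ℝ, ∀ t, (kn.a : ℝ) / 1000 ≤ t →
    t ≤ (kn.k : ℝ) / 1000 → φ t = α * t + β) (t : ℝ) (h0 : (kn.a : ℝ) / 1000 ≤ t) (h1 : t ≤ (kn.k : ℝ) / 1000) :
    φ t = slF φ kn * t + (φ ((kn.a : ℝ) / 1000) - slF φ kn * ((kn.a : ℝ) / 1000)) := by
  obtain ⟨α, β, hαβ⟩ := h
  have hkr : (kn.a : ℝ) < kn.k := by exact_mod_cast hk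
  have hd : (kn.k : ℝ) / 1000 - (kn.a : ℝ) / 1000 ≠ 0 := by
    have : (0 : ℝ) < (kn.k : ℝ) / 1000 - (kn.a : ℝ) / 1000 := by linarith
    exact this.ne'
  have hs : slF φ kn = α := by
    unfold slF
    rw [hαβ _ le_rfl (h0.trans h1), hαβ _ (h0.trans h1) le_rfl]
    rw [div_eq_iff hd]
    ring
  rw [hs, hαβ t h0 h1, hαβ _ le_rfl (h0.trans h1)]
  ring

lemma ell_aff (kn : KN) : ∃ α β : ℝ, ∀ t, (kn.a : ℝ) / 1000 ≤ t → t ≤ (kn.k : ℝ) / 1000 → ell kn t = α * t + β := by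
  refine ⟨((kn.hi : ℝ) - kn.lo) / 10 ^ 7 / ((kn.k : ℝ) / 1000 - (kn.a : ℝ) / 1000),
    (kn.lo : ℝ) / 10 ^ 7 - ((kn.hi : ℝ) - kn.lo) / 10 ^ 7 / ((kn.k : ℝ) / 1000 - (kn.a : ℝ) / 1000)
      * ((kn.a : ℝ) / 1000), fun t _ _ => ?_⟩
  unfold ell
  ring

lemma ell_a (kn : KN) : ell kn ((kn.a : ℝ) / 1000) = (kn.lo : ℝ) / 10 ^ 7 := by
  unfold ell
  ring

lemma ell_k (kn : KN) (hk : kn.a < kn.k) : ell kn ((kn.k : ℝ) / 1000) = (kn.hi : ℝ) / 10 ^ 7 := by
  unfold ell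
  have hkr : (kn.a : ℝ) < kn.k := by exact_mod_cast hk
  have hd : (kn.k : ℝ) / 1000 - (kn.a : ℝ) / 1000 ≠ 0 := by
    have : (0 : ℝ) < (kn.k : ℝ) / 1000 - (kn.a : ℝ) / 1000 := by linarith
    exact this.ne'
  rw [div_mul_cancel₀ _ hd]
  ring

/-- weighted sum of the affine payments -/
noncomputable def sumL : List KN → List ℕ → List (Multiset ℝ) → ℝ
  | kn :: kns, x :: X, R :: Rs => x * (R.map (ell kn)).sum + sumL kns X Rs
  | _, _, _ => 0

lemma sum_affine (R : Multiset ℝ) (f : ℝ → ℝ) (α β : ℝ) (h : ∀ t ∈ R, f t = α * t + β) :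
    (R.map f).sum = α * R.sum + β * R.card := by
  have h1 : R.map f = R.map fun t => α * t + β := Multiset.map_congr rfl h
  rw [h1]
  clear h h1
  induction R using Multiset.induction with
  | empty => simp
  | cons a R ih =>
    rw [Multiset.map_cons, Multiset.sum_cons, ih, Multiset.sum_cons, Multiset.card_cons]
    push_cast
    ring

lemma sumL_nil (kns : List KN) (Rs : List (Multiset ℝ)) : sumL kns [] Rs = 0 := by
  cases kns <;> cases Rs <;> rfl

lemma payM_co (lam : ℝ) (φ : ℝ → ℝ) (kns : List KN) : ∀ (Rs : List (Multiset ℝ)) (X : List ℕ), AffK φ kns →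
    List.Forall₂ (fun kn (R : Multiset ℝ) => ∀ t ∈ R, (kn.a : ℝ) / 1000 < t ∧ t ≤ (kn.k : ℝ) / 1000) kns Rs →
    payM (pdOf kns Rs) (coL lam φ kns X) = ((sumR (pdOf kns Rs)).map φ).sum + lam / 67000000 * sumL kns X Rs := by
  induction kns with
  | nil =>
    intro Rs X _ h
    cases h
    simp [pdOf, coL, payM, sumR, sumL]
  | cons kn kns ih =>
    intro Rs X hA h
    cases h with
    | @cons _ R _ Rs hR hRs =>
    obtain ⟨hk, haff⟩ := hA kn List.mem_cons_self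
    have ih' := ih Rs X.tail (fun kn' h' => hA kn' (List.mem_cons_of_mem _ h')) hRs
    have e1 := sum_affine R φ _ _ fun t ht => slF_aff hk haff t (hR t ht).1.le (hR t ht).2
    have e2 := sum_affine R (ell kn) _ _ fun t ht => slF_aff hk (ell_aff kn) t (hR t ht).1.le (hR t ht).2
    have e3 : payM (pdOf (kn :: kns) (R :: Rs)) (coL lam φ (kn :: kns) X) =
      ((slF φ kn + lam * ((X.headD 0 : ℕ) : ℝ) / 67000000 * slF (ell kn) kn) * R.sum +
      ((φ ((kn.a : ℝ) / 1000) - slF φ kn * ((kn.a : ℝ) / 1000))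
        + lam * ((X.headD 0 : ℕ) : ℝ) / 67000000 * (ell kn ((kn.a : ℝ) / 1000) - slF (ell kn) kn * ((kn.a : ℝ) / 1000)))
        * R.card) + payM (pdOf kns Rs) (coL lam φ kns X.tail) := rfl
    have e4 : sumL (kn :: kns) X (R :: Rs) = ((X.headD 0 : ℕ) : ℝ) * (R.map (ell kn)).sum + sumL kns X.tail Rs := by
      cases X with
      | nil => simp [sumL, sumL_nil]
      | cons x X => rfl
    have e5 : sumR (pdOf (kn :: kns) (R :: Rs)) = R + sumR (pdOf kns Rs) := rfl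
    rw [e3, ih', e4, e5, Multiset.map_add, Multiset.sum_add, e1, e2]
    ring

lemma payC_co (lam : ℝ) (φ : ℝ → ℝ) (kns : List KN) : ∀ (Rs : List (Multiset ℝ)) (X : List ℕ)
    (cn : List (ℕ × ℕ)), (∀ kn ∈ kns, kn.a < kn.k) → kns.length = Rs.length →
    List.Forall₂ (fun (m : ℕ × ℕ) N => m.1 + m.2 = N) cn (Rs.map Multiset.card) →
    payC (pdOf kns Rs) (coL lam φ kns X) cn
      = sumF φ kns cn + lam / 67000000 * ((Pk.dotN X (payK kns cn) : ℕ) : ℝ) / 10 ^ 7 := by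
  induction kns with
  | nil =>
    intro Rs X cn _ hl h
    have e1 : sumF φ [] cn = 0 := by cases cn <;> rfl
    have e2 : payK [] cn = [] := by cases cn <;> rfl
    have e3 : Pk.dotN X [] = 0 := by cases X <;> rfl
    rw [e1, e2, e3]
    simp [pdOf, payC]
  | cons kn kns ih =>
    intro Rs X cn hk hl h
    cases Rs with
    | nil => simp at hl
    | cons R Rs =>
    cases cn with
    | nil => cases h
    | cons m cn =>
    rw [List.map_cons] at h
    obtain ⟨hm, hcn⟩ := List.forall₂_cons.mp h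
    have hk0 := hk kn List.mem_cons_self
    have ih' := ih Rs X.tail cn (fun kn' h' => hk kn' (List.mem_cons_of_mem _ h')) (by simpa using hl) hcn
    have e3 : payC (pdOf (kn :: kns) (R :: Rs)) (coL lam φ (kn :: kns) X) (m :: cn) =
      ((slF φ kn + lam * ((X.headD 0 : ℕ) : ℝ) / 67000000 * slF (ell kn) kn)
        * (m.1 * ((kn.a : ℝ) / 1000) + m.2 * ((kn.k : ℝ) / 1000)) +
      ((φ ((kn.a : ℝ) / 1000) - slF φ kn * ((kn.a : ℝ) / 1000))
        + lam * ((X.headD 0 : ℕ) : ℝ) / 67000000 * (ell kn ((kn.a : ℝ) / 1000) - slF (ell kn) kn * ((kn.a : ℝ) / 1000)))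
        * R.card) + payC (pdOf kns Rs) (coL lam φ kns X.tail) cn := rfl
    have e4 : (Pk.dotN X (payK (kn :: kns) (m :: cn)) : ℕ)
        = X.headD 0 * (m.1 * kn.lo + m.2 * kn.hi) + Pk.dotN X.tail (payK kns cn) := by
      cases X with
      | nil =>
        have : Pk.dotN [] (payK kns cn) = 0 := by cases payK kns cn <;> rfl
        simp [payK, Pk.dotN]
      | cons x X => rfl
    have e5 : sumF φ (kn :: kns) (m :: cn) = (m.1 * φ ((kn.a : ℝ) / 1000) + m.2 * φ ((kn.k : ℝ) / 1000))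
        + sumF φ kns cn := rfl
    have hkr : (kn.a : ℝ) < kn.k := by exact_mod_cast hk0
    have hd : (kn.k : ℝ) / 1000 - (kn.a : ℝ) / 1000 ≠ 0 := by
      have : (0 : ℝ) < (kn.k : ℝ) / 1000 - (kn.a : ℝ) / 1000 := by linarith
      exact this.ne'
    have s1 : slF φ kn * ((kn.k : ℝ) / 1000 - (kn.a : ℝ) / 1000)
        = φ ((kn.k : ℝ) / 1000) - φ ((kn.a : ℝ) / 1000) := by
      unfold slF
      exact div_mul_cancel₀ _ hd
    have s2 : slF (ell kn) kn * ((kn.k : ℝ) / 1000 - (kn.a : ℝ) / 1000)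
        = (kn.hi : ℝ) / 10 ^ 7 - (kn.lo : ℝ) / 10 ^ 7 := by
      rw [← ell_k kn hk0, ← ell_a kn]
      unfold slF
      exact div_mul_cancel₀ _ hd
    have hcard : (R.card : ℝ) = m.1 + m.2 := by exact_mod_cast hm.symm
    rw [e3, ih', e4, e5, hcard, ell_a]
    push_cast
    generalize slF φ kn = s at s1 ⊢
    generalize slF (ell kn) kn = s' at s2 ⊢
    generalize φ ((kn.a : ℝ) / 1000) = fa at s1 ⊢
    generalize φ ((kn.k : ℝ) / 1000) = fk at s1 ⊢
    generalize (kn.a : ℝ) / 1000 = aa at s1 s2 ⊢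
    generalize (kn.k : ℝ) / 1000 = kk at s1 s2 ⊢
    have e6 : fk = fa + s * (kk - aa) := by linarith
    have e7 : (kn.hi : ℝ) = kn.lo + s' * (kk - aa) * 10 ^ 7 := by
      have : (kn.hi : ℝ) / 10 ^ 7 = (kn.lo : ℝ) / 10 ^ 7 + s' * (kk - aa) := by linarith
      field_simp at this
      linarith
    rw [e6, e7]
    ring

/-- logarithms and affine payments -/
lemma wlog_le (u : ℝ → ℝ) (kns : List KN) : ∀ (Rs : List (Multiset ℝ)) (X : List ℕ), UseX kns X →
    (∀ kn ∈ kns, kn.lo ≠ 0 → ∀ t, (kn.a : ℝ) / 1000 < t → t ≤ (kn.k : ℝ) / 1000 → 0 < u t ∧ -Real.log (u t) ≤ ell kn t) →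
    List.Forall₂ (fun kn (R : Multiset ℝ) => ∀ t ∈ R, (kn.a : ℝ) / 1000 < t ∧ t ≤ (kn.k : ℝ) / 1000) kns Rs →
    wlog X (Rs.map fun R => R.map u) ≤ sumL kns X Rs := by
  induction kns with
  | nil =>
    intro Rs X _ _ h
    cases h
    have e : wlog X [] = 0 := by cases X <;> rfl
    rw [List.map_nil, e]
    exact le_of_eq (by cases X <;> rfl)
  | cons kn kns ih =>
    intro Rs X hX hu h
    cases h with
    | @cons _ R _ Rs hR hRs =>
    cases X with
    | nil => exact le_of_eq rfl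
    | cons x X =>
    have ih' := ih Rs X hX.2 (fun kn' h' => hu kn' (List.mem_cons_of_mem _ h')) hRs
    have e1 : wlog (x :: X) ((R :: Rs).map fun R => R.map u) = x * ((R.map u).map fun z => -Real.log z).sum
        + wlog X (Rs.map fun R => R.map u) := rfl
    have e2 : sumL (kn :: kns) (x :: X) (R :: Rs) = x * (R.map (ell kn)).sum + sumL kns X Rs := rfl
    rw [e1, e2]
    refine add_le_add ?_ ih'
    rcases Nat.eq_zero_or_pos x with hx | hx
    · rw [hx]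
      simp
    · refine mul_le_mul_of_nonneg_left ?_ (Nat.cast_nonneg x)
      rw [Multiset.map_map]
      refine Multiset.sum_map_le_sum_map _ _ fun t ht => ?_
      exact (hu kn List.mem_cons_self (hX.1 hx.ne') t (hR t ht).1 (hR t ht).2).2

/-- positivity -/
lemma posX_of (u : ℝ → ℝ) (hu01 : ∀ t, 0 ≤ t → t ≤ 1 → 0 ≤ u t ∧ u t ≤ 1) (kns : List KN) :
    ∀ (Rs : List (Multiset ℝ)) (X : List ℕ), UseX kns X → (∀ kn ∈ kns, kn.k ≤ 1000) →
    (∀ kn ∈ kns, kn.lo ≠ 0 → ∀ t, (kn.a : ℝ) / 1000 < t → t ≤ (kn.k : ℝ) / 1000 → 0 < u t ∧ -Real.log (u t) ≤ ell kn t) →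
    List.Forall₂ (fun kn (R : Multiset ℝ) => ∀ t ∈ R, (kn.a : ℝ) / 1000 < t ∧ t ≤ (kn.k : ℝ) / 1000) kns Rs →
    PosX X (Rs.map fun R => R.map u) := by
  induction kns with
  | nil =>
    intro Rs X _ _ _ h
    cases h
    cases X <;> exact trivial
  | cons kn kns ih =>
    intro Rs X hX hk hu h
    cases h with
    | @cons _ R _ Rs hR hRs =>
    have hX' : UseX kns X.tail := by
      cases X with
      | nil => cases kns <;> exact trivial
      | cons x X => exact hX.2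
    have ih' := ih Rs X.tail hX' (fun kn' h' => hk kn' (List.mem_cons_of_mem _ h'))
      (fun kn' h' => hu kn' (List.mem_cons_of_mem _ h')) hRs
    have e : (R :: Rs).map (fun R => R.map u) = R.map u :: Rs.map fun R => R.map u := rfl
    rw [e]
    have hkr : (kn.k : ℝ) ≤ 1000 := by exact_mod_cast hk kn List.mem_cons_self
    have hnn : (0 : ℝ) ≤ (kn.a : ℝ) / 1000 := by positivity
    have hgoal : (∀ z ∈ R.map u, 0 ≤ z ∧ z ≤ 1) ∧ (X.headD 0 ≠ 0 → ∀ z ∈ R.map u, 0 < z) ∧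
        PosX X.tail (Rs.map fun R => R.map u) := by
      refine ⟨fun z hz => ?_, fun hx z hz => ?_, ih'⟩
      · obtain ⟨t, ht, rfl⟩ := Multiset.mem_map.mp hz
        have := hR t ht
        exact hu01 t (by linarith) (by linarith)
      · obtain ⟨t, ht, rfl⟩ := Multiset.mem_map.mp hz
        cases X with
        | nil => exact absurd rfl hx
        | cons x X => exact (hu kn List.mem_cons_self (hX.1 hx) t (hR t ht).1 (hR t ht).2).1
    cases X <;> exact hgoal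

end CB
end Pool.Agent.Lib.MP_6947cd_al
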