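import Pool.Agent.Lib.MP_6947cd_al.L.CellB8

/-!
Problem MP_6947cd_al (Chollet).  CASE B, rows `j`: soundness of the last level, main part.
-/

set_option autoImplicit false

namespace Pool.Agent.Lib.MP_6947cd_al
namespace CB

open Ent Ent.Pk Fr Fr.WT CA

/-! ### real numbers: one class at one level -/

/-- a class on the present interval of the special entry and the knots -/
structure ClOK (x x' : CX) (KF : List KN) (k0 : ℕ) (c : CD) : Prop where
  lam0 : 0 ≤ c.lam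
  aff : AffK c.φ KF
  aff0 : ∃ α : ℝ, ∀ t, 0 ≤ t → t ≤ (k0 : ℝ) / 1000 → c.φ t = α * t
  psi : ∃ α β : ℝ, ∀ t, x.q ≤ t → t ≤ x'.q → c.ψ t = α * t + β

/-- payment of the special entry -/
noncomputable def ells (q0 q1 : ℝ) (lus0 lus1 : ℕ) (t : ℝ) : ℝ :=
  (lus0 : ℝ) / 10 ^ 7 + ((lus1 : ℝ) - lus0) / 10 ^ 7 / (q1 - q0) * (t - q0)

lemma ells_0 (q0 q1 : ℝ) (lus0 lus1 : ℕ) : ells q0 q1 lus0 lus1 q0 = (lus0 : ℝ) / 10 ^ 7 := by
  unfold ells
  ring

lemma ells_1 (q0 q1 : ℝ) (hq : q0 < q1) (lus0 lus1 : ℕ) : ells q0 q1 lus0 lus1 q1 = (lus1 : ℝ) / 10 ^ 7 := by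
  unfold ells
  have : q1 - q0 ≠ 0 := by
    have : 0 < q1 - q0 := by linarith
    exact this.ne'
  rw [div_mul_cancel₀ _ this]
  ring

/-- the constant at a corner -/
noncomputable def Cg (c : CD) (KF : List KN) (V : ℕ) (X : List ℕ) (g : GC) : ℝ :=
  c.C - c.lam * V / 10 ^ 7 + c.lam / 67000000 * ((Pk.dotN X (payK KF g.cn) : ℕ) : ℝ) / 10 ^ 7

/-- the function of the special entry -/
noncomputable def psg (c : CD) (q0 q1 : ℝ) (lus0 lus1 Xs : ℕ) (t : ℝ) : ℝ :=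
  c.ψ t + c.lam * Xs / 67000000 * ells q0 q1 lus0 lus1 t

/-- the four corners of the box at one level for one class and one corner -/
def Four (x x' : CX) (KF : List KN) (k0 lus0 lus1 V Xs : ℕ) (X : List ℕ) (c : CD) (g : GC) (n : ℕ) : Prop :=
  (VV c.lam (Cg c KF V X g) c.φ (psg c x.q x'.q lus0 lus1 Xs) x.h0 x.q
    (g.P + Multiset.replicate (g.D + n) ((k0 : ℝ) / 1000)) ≤ 0 ∧
  VV c.lam (Cg c KF V X g) c.φ (psg c x.q x'.q lus0 lus1 Xs) x.h1 x.q
    (g.P + Multiset.replicate (g.D + n) ((k0 : ℝ) / 1000)) ≤ 0) ∧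
  VV c.lam (Cg c KF V X g) c.φ (psg c x.q x'.q lus0 lus1 Xs) x.h0 x'.q
    (g.P + Multiset.replicate (g.D + n) ((k0 : ℝ) / 1000)) ≤ 0 ∧
  VV c.lam (Cg c KF V X g) c.φ (psg c x.q x'.q lus0 lus1 Xs) x.h1 x'.q
    (g.P + Multiset.replicate (g.D + n) ((k0 : ℝ) / 1000)) ≤ 0

/-- the total of a class -/
noncomputable def VU (u us : ℝ → ℝ) (h tl : ℝ) (c : CD) (M : Multiset ℝ) : ℝ :=
  VV c.lam c.C c.φ c.ψ h tl M - c.lam * FM (1 ::ₘ us tl ::ₘ M.map u)

/-- the lower bounds of the merged entries -/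
structure UOK (x x' : CX) (KF : List KN) (lus0 lus1 : ℕ) (u us : ℝ → ℝ) (tl : ℝ) : Prop where
  u01 : ∀ t, 0 ≤ t → t ≤ 1 → 0 ≤ u t ∧ u t ≤ 1
  us01 : 0 ≤ us tl ∧ us tl ≤ 1
  up : ∀ kn ∈ KF, kn.lo ≠ 0 → ∀ t, (kn.a : ℝ) / 1000 < t → t ≤ (kn.k : ℝ) / 1000 →
    0 < u t ∧ -Real.log (u t) ≤ ell kn t
  usp : lus0 ≠ 0 → 0 < us tl ∧ -Real.log (us tl) ≤ ells x.q x'.q lus0 lus1 tl

lemma map_sumR (φ : ℝ → ℝ) (kns : List KN) : ∀ Rs : List (Multiset ℝ), kns.length = Rs.length →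
    (sumR (pdOf kns Rs)).map φ = (Rs.map fun R => R.map φ).sum := by
  induction kns with
  | nil =>
    intro Rs h
    have : Rs = [] := List.eq_nil_of_length_eq_zero h.symm
    subst this
    simp [pdOf, sumR]
  | cons kn kns ih =>
    intro Rs h
    cases Rs with
    | nil => simp at h
    | cons R Rs =>
      have e : sumR (pdOf (kn :: kns) (R :: Rs)) = R + sumR (pdOf kns Rs) := rfl
      rw [e, Multiset.map_add, ih Rs (by simpa using h)]
      simp

/-- ONE CLASS AT ONE LEVEL. -/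
theorem lev_class {x x' : CX} {h tl : ℝ} {k0 : ℕ} (hB : Bx x x' k0 h tl) {KF : List KN}
    (hKF : ∀ kn ∈ KF, kn.a < kn.k ∧ kn.k ≤ 1000) {lus0 lus1 : ℕ} {u us : ℝ → ℝ}
    (hU : UOK x x' KF lus0 lus1 u us tl) {Rs : List (Multiset ℝ)} {pc : List Cn} {gc : List GC} {F : PF}
    (hI : Inv x x' h tl (PiF KF lus0) [] k0 KF Rs pc gc F) {c : CD} (hc : ClOK x x' KF k0 c)
    {V Xs : ℕ} {X : List ℕ} (hPi : PiF KF lus0 (Rs.map Multiset.card) V Xs X) (n : ℕ)
    (hn0 : ∀ g ∈ gc, Four x x' KF k0 lus0 lus1 V Xs X c g n)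
    (hn1 : ∀ g ∈ gc, Four x x' KF k0 lus0 lus1 V Xs X c g (n + 1))
    (R : Multiset ℝ) (hR : ∀ t ∈ R, 0 ≤ t ∧ t ≤ (k0 : ℝ) / 1000) (r0 : n * ((k0 : ℝ) / 1000) ≤ R.sum)
    (r1 : R.sum < (n + 1) * ((k0 : ℝ) / 1000)) :
    VU u us h tl c (sumR (pdOf KF Rs) + R) ≤ 0 := by
  obtain ⟨α, hα⟩ := hc.aff0
  have hk0r : (0 : ℝ) < (k0 : ℝ) / 1000 := by
    have : (0 : ℝ) < k0 := by exact_mod_cast hB.kp
    positivity
  have hk1r : (k0 : ℝ) / 1000 ≤ 1 := by
    have : (k0 : ℝ) ≤ 1000 := by exact_mod_cast hB.k1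
    linarith
  have hlen : KF.length = Rs.length := hI.mem.length_eq
  have hpd : (pdOf KF Rs).length = KF.length := pdOf_length KF Rs hlen
  have hh : 0 ≤ h ∧ h ≤ 1 := ⟨hB.b0.trans hB.i0, hB.i1.trans hB.b1⟩
  have htl : 0 ≤ tl ∧ tl ≤ 1 := ⟨hB.b2.trans hB.i2, hB.i3.trans hB.b3⟩
  have hlam := hc.lam0
  have hα0 : (R.map c.φ).sum = α * R.sum := by
    have := sum_affine R c.φ α 0 fun t ht => by rw [hα t (hR t ht).1 (hR t ht).2]; ring
    rw [this]
    ring
  -- the special function is affine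
  have hψg : ∃ a b : ℝ, ∀ t, x.q ≤ t → t ≤ x'.q → psg c x.q x'.q lus0 lus1 Xs t = a * t + b := by
    obtain ⟨a, b, hab⟩ := hc.psi
    refine ⟨a + c.lam * Xs / 67000000 * (((lus1 : ℝ) - lus0) / 10 ^ 7 / (x'.q - x.q)),
      b + c.lam * Xs / 67000000 * ((lus0 : ℝ) / 10 ^ 7 - ((lus1 : ℝ) - lus0) / 10 ^ 7 / (x'.q - x.q) * x.q),
      fun t ht ht' => ?_⟩
    unfold psg ells
    rw [hab t ht ht']
    ring
  have key := hI.dom c.lam hlam (coL c.lam c.φ KF X) (by rw [coL_length, hpd])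
    ((R.map c.φ).sum + psg c x.q x'.q lus0 lus1 Xs tl + (c.C - c.lam * V / 10 ^ 7)
      - 2 * c.lam * Real.log (1 + h)) R hR ?_
  · -- conclusion
    rw [payM_co c.lam c.φ KF Rs X hc.aff hI.mem] at key
    unfold VU
    rw [VV_eq, Multiset.map_add, Multiset.sum_add]
    obtain ⟨p1, p2, p3⟩ := hPi
    have q1 := p1 (us tl) (Rs.map fun R => R.map u) (R.map u) (by
        rw [List.map_map]
        refine List.map_congr_left fun R _ => ?_
        exact Multiset.card_map u R) hU.us01.1 hU.us01.2 (fun h0 => (hU.usp (p3 h0)).1)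
      (posX_of u hU.u01 KF Rs X p2 (fun kn h' => (hKF kn h').2) hU.up hI.mem) (by
        intro z hz
        obtain ⟨t, ht, rfl⟩ := Multiset.mem_map.mp hz
        exact hU.u01 t (hR t ht).1 ((hR t ht).2.trans hk1r))
    rw [← map_sumR u KF Rs hlen, ← Multiset.map_add] at q1
    have q2 := wlog_le u KF Rs X p2 hU.up hI.mem
    have q3 : (Xs : ℝ) * (-Real.log (us tl)) ≤ Xs * ells x.q x'.q lus0 lus1 tl := by
      rcases Nat.eq_zero_or_pos Xs with hx | hx
      · rw [hx]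
        simp
      · exact mul_le_mul_of_nonneg_left (hU.usp (p3 hx.ne')).2 (Nat.cast_nonneg Xs)
    have q4 := mul_le_mul_of_nonneg_left q1 hlam
    have q5 := mul_le_mul_of_nonneg_left q2 hlam
    have q6 := mul_le_mul_of_nonneg_left q3 hlam
    unfold psg at key
    generalize FM (1 ::ₘ us tl ::ₘ (sumR (pdOf KF Rs) + R).map u) = FF at q4 ⊢
    generalize Real.log (us tl) = Lu at q4 q6
    generalize wlog X (Rs.map fun R => R.map u) = WL at q4 q5
    generalize sumL KF X Rs = SL at q5 key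
    generalize ells x.q x'.q lus0 lus1 tl = EL at q6 key
    generalize UX c.lam h tl (sumR (pdOf KF Rs) + R) = UU at key ⊢
    generalize ((sumR (pdOf KF Rs)).map c.φ).sum = S1 at key ⊢
    generalize (R.map c.φ).sum = S2 at key ⊢
    generalize c.ψ tl = Q at key ⊢
    generalize Real.log (1 + h) = Lh at key ⊢
    generalize c.lam = lam at key q4 q5 q6 ⊢
    have e1 : lam * ((V : ℝ) / 10 ^ 7 - (Xs * -Lu + WL) / 67000000)
        = lam * V / 10 ^ 7 - (lam * (Xs * -Lu) + lam * WL) / 67000000 := by ring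
    rw [e1] at q4
    have e2 : lam * Xs / 67000000 * EL = lam * (Xs * EL) / 67000000 := by ring
    have e3 : lam / 67000000 * SL = lam * SL / 67000000 := by ring
    rw [e2, e3] at key
    have e4 : (lam * (Xs * -Lu) + lam * WL) / 67000000 ≤ (lam * (Xs * EL) + lam * SL) / 67000000 := by
      gcongr
    have e5 : (lam * (Xs * EL) + lam * SL) / 67000000 = lam * (Xs * EL) / 67000000 + lam * SL / 67000000 := by
      ring
    linarith
  · intro g hg
    rw [payC_co c.lam c.φ KF Rs X g.cn (fun kn h' => (hKF kn h').1) hlen (hI.relG g hg).num]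
    have hE : ∀ m : ℕ, ∀ z ∈ g.P + Multiset.replicate m ((k0 : ℝ) / 1000), 0 ≤ z ∧ z ≤ 1 := by
      intro m z hz
      rcases Multiset.mem_add.mp hz with hz | hz
      · exact hI.gb g hg z hz
      · rw [Multiset.eq_of_mem_replicate hz]
        exact ⟨hk0r.le, hk1r⟩
    have hb : ∀ m : ℕ, Four x x' KF k0 lus0 lus1 V Xs X c g m →
        UX c.lam h tl (g.P + Multiset.replicate g.D ((k0 : ℝ) / 1000) + Multiset.replicate m ((k0 : ℝ) / 1000))
          + α * (m * ((k0 : ℝ) / 1000)) + (sumF c.φ KF g.cn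
          + c.lam / 67000000 * ((Pk.dotN X (payK KF g.cn) : ℕ) : ℝ) / 10 ^ 7
          + psg c x.q x'.q lus0 lus1 Xs tl + (c.C - c.lam * V / 10 ^ 7) - 2 * c.lam * Real.log (1 + h)) ≤ 0 := by
      intro m hf
      obtain ⟨⟨f1, f2⟩, f3, f4⟩ := hf
      have h1 := box_le c.lam (Cg c KF V X g) hlam c.φ (psg c x.q x'.q lus0 lus1 Xs)
        (g.P + Multiset.replicate (g.D + m) ((k0 : ℝ) / 1000)) (hE _) x.h0 x.h1 x.q x'.q hB.b0 hB.b1 hB.b2
        hB.b3 hψg f1 f3 f2 f4 h tl hB.i0 hB.i1 hB.i2 hB.i3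
      rw [VV_eq] at h1
      have h2 := (hI.relG g hg).sum c.φ
      have e : g.P + Multiset.replicate g.D ((k0 : ℝ) / 1000) + Multiset.replicate m ((k0 : ℝ) / 1000)
          = g.P + Multiset.replicate (g.D + m) ((k0 : ℝ) / 1000) := by
        rw [Multiset.replicate_add g.D m, add_assoc]
      have h3 : ((g.P + Multiset.replicate (g.D + m) ((k0 : ℝ) / 1000)).map c.φ).sum
          = sumF c.φ KF g.cn + α * (m * ((k0 : ℝ) / 1000)) := by
        rw [← e, Multiset.map_add, Multiset.sum_add, Multiset.map_replicate, Multiset.sum_replicate,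
          nsmul_eq_mul, hα _ hk0r.le le_rfl]
        have h2' : ((g.P + Multiset.replicate g.D ((k0 : ℝ) / 1000)).map c.φ).sum = sumF c.φ KF g.cn := h2
        rw [h2']
        ring
      rw [h3] at h1
      rw [e]
      unfold Cg at h1
      linarith
    have z := zero_max c.lam h tl hlam hh htl (g.P + Multiset.replicate g.D ((k0 : ℝ) / 1000)) (hE _)
      ((k0 : ℝ) / 1000) hk0r hk1r R hR n r0 r1 α _ (hb n (hn0 g hg)) (by
        have := hb (n + 1) (hn1 g hg)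
        exact this)
    rw [hα0]
    have e : g.P + Multiset.replicate g.D ((topK k0 ([] : List KN) : ℝ) / 1000) + R
        = g.P + Multiset.replicate g.D ((k0 : ℝ) / 1000) + R := rfl
    rw [e]
    linarith

/-! ### the packed tests -/

/-- one digit -/
lemma cor_ok {x x' : CX} {KF : List KN} {lus0 lus1 V Xs : ℕ} {X : List ℕ} {c : CD} {g : GC} (hdB : 0 < x.dB)
    (hr : ℝ) (y : CX) (hy : y.dB = x.dB) (r wN S xs D : ℕ) (k0r : ℝ) (hk0 : y.k0 = k0r)
    (hD : D = g.D) (hrow : RowS y hr c r g.P) (hw : (wN : ℝ) = 20000 * x.dB * c.lam)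
    (hV : wN * V ≤ 1125899906842623)
    (hS : ((Pk.dotN X (payK KF g.cn) : ℕ) : ℝ) + xs ≤ 67000000 * S)
    (hψ : psg c x.q x'.q lus0 lus1 Xs y.q = c.ψ y.q + c.lam / 67000000 * xs / 10 ^ 7) (j : ℕ)
    (hb : Nat.testBit (Nat.add r (Nat.mul (Nat.sub (Nat.add (nat_lit 9222246136947933184) (Nat.mul wN V))
      (Nat.mul wN S)) ON)) (64 * (D + j) + 63) = true) :
    VV c.lam (Cg c KF V X g) c.φ (psg c x.q x'.q lus0 lus1 Xs) hr y.q
      (g.P + Multiset.replicate (g.D + j) k0r) ≤ 0 := by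
  obtain ⟨l, rfl, hl, hd⟩ := hrow
  have e0 : Nat.sub (Nat.add (nat_lit 9222246136947933184) (Nat.mul wN V)) (Nat.mul wN S)
      = 9222246136947933184 + wN * V - wN * S := rfl
  rw [e0] at hb
  obtain ⟨d, h1, h2⟩ := simd l hl _ (by omega) (D + j) hb
  have h3 := hd _ d h1
  have h4 := hl d (List.mem_of_getElem? h1)
  have h5 : wN * S ≤ 9222246136947933184 + wN * V := by omega
  have h6 : 2 ^ 63 + wN * S ≤ d + (9222246136947933184 + wN * V) := by omega
  have h6r : (2 : ℝ) ^ 63 + wN * S ≤ d + (9222246136947933184 + wN * V) := by exact_mod_cast h6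
  have hdBr : (0 : ℝ) < x.dB := by exact_mod_cast hdB
  rw [hy, hk0, hD] at h3
  rw [VV_eq] at h3 ⊢
  rw [hψ]
  unfold Cg
  have hlam' : 200000000000 * (x.dB : ℝ) * (c.lam / 10 ^ 7) = wN := by rw [hw]; ring
  have hwn : (0 : ℝ) ≤ wN := Nat.cast_nonneg _
  have h7 := mul_le_mul_of_nonneg_left hS hwn
  generalize UX c.lam hr y.q (g.P + Multiset.replicate (g.D + j) k0r) = UU at h3 ⊢
  generalize ((g.P + Multiset.replicate (g.D + j) k0r).map c.φ).sum = S1 at h3 ⊢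
  generalize ((Pk.dotN X (payK KF g.cn) : ℕ) : ℝ) = DN at h7 ⊢
  by_contra hcon
  push Not at hcon
  have h8 := mul_pos (by positivity : (0 : ℝ) < 200000000000 * x.dB) hcon
  have e1 : 200000000000 * (x.dB : ℝ) * (UU + (S1 + (c.ψ y.q + c.lam / 67000000 * xs / 10 ^ 7)
      + (c.C - c.lam * V / 10 ^ 7 + c.lam / 67000000 * DN / 10 ^ 7) - 2 * c.lam * Real.log (1 + hr)))
      = 200000000000 * (x.dB : ℝ) * (UU + (S1 + c.ψ y.q + c.C - 2 * c.lam * Real.log (1 + hr)))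
        + 200000000000 * (x.dB : ℝ) * (c.lam / 10 ^ 7) * ((DN + xs) / 67000000 - V) := by ring
  rw [e1, hlam'] at h8
  have e2 : (wN : ℝ) * ((DN + xs) / 67000000 - V) = wN * (DN + xs) / 67000000 - wN * V := by ring
  rw [e2] at h8
  have e3 : (wN : ℝ) * (DN + xs) / 67000000 ≤ wN * S := by
    rw [div_le_iff₀ (by norm_num)]
    linarith
  linarith

lemma nthQ_sound (i : ℕ) : ∀ (l : List RQ) (k : ℕ → ℕ → Bool), nthQ i l k = true →
    ∃ r0 r1, k r0 r1 = true ∧ (l[i]? = some ⟨r0, r1⟩ ∨ (r0 = 0 ∧ r1 = 0)) := by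
  induction i with
  | zero =>
    intro l k h
    cases l with
    | nil => exact ⟨0, 0, h, Or.inr ⟨rfl, rfl⟩⟩
    | cons q l =>
      obtain ⟨r0, r1⟩ := q
      exact ⟨r0, r1, h, Or.inl rfl⟩
  | succ i ih =>
    intro l k h
    cases l with
    | nil => exact ⟨0, 0, h, Or.inr ⟨rfl, rfl⟩⟩
    | cons q l =>
      obtain ⟨r0, r1, h1, h2⟩ := ih l k h
      exact ⟨r0, r1, h1, by simpa using h2⟩

/-- kernel corner of the last level and real corner -/
structure RelF (x x' : CX) (KF : List KN) (X : List ℕ) (xs0 xs1 : ℕ) (f : FC) (g : GC) : Prop where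
  q0 : RqB x f.q0 g.P
  q1 : RqB x' f.q1 g.P
  D : f.D = g.D
  S0 : ((Pk.dotN X (payK KF g.cn) : ℕ) : ℝ) + xs0 ≤ 67000000 * f.S0
  S1 : ((Pk.dotN X (payK KF g.cn) : ℕ) : ℝ) + xs1 ≤ 67000000 * f.S1

lemma rq_of {x : CX} {p : PT} {Q : Multiset ℝ} (h : PS x p [] Q 0) : RqB x (rqOf p) Q := by
  cases p with
  | nil => intro i r c hi; simp [rqOf] at hi
  | cons a b => intro i r c hi; simp [rqOf] at hi
  | node tv ch => intro i r c hi; simp [rqOf] at hi
  | leaf tv rq => exact h.2 rfl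

lemma div_succ_le (s : ℕ) : (s : ℝ) ≤ 67000000 * ((s / 67000000 + 1 : ℕ) : ℝ) := by
  have h := Nat.lt_mul_div_succ s (show 0 < 67000000 by norm_num)
  have : (s : ℝ) < ((67000000 * (s / 67000000 + 1) : ℕ) : ℝ) := by exact_mod_cast h
  rw [Nat.cast_mul] at this
  exact_mod_cast this.le

lemma mkS_sound {x x' : CX} {KF : List KN} (X : List ℕ) (xs0 xs1 : ℕ) (pc : List Cn) :
    ∀ (gc : List GC), List.Forall₂ (RelC x x' [] KF) pc gc → ∀ k : List FC → Bool, mkS X xs0 xs1 pc k = true →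
      ∃ fc, k fc = true ∧ List.Forall₂ (RelF x x' KF X xs0 xs1) fc gc := by
  induction pc with
  | nil =>
    intro gc hgc k h
    cases hgc
    exact ⟨[], h, List.Forall₂.nil⟩
  | cons c pc ih =>
    intro gc hgc k h
    cases hgc with
    | @cons _ g _ gc hc hgc =>
    obtain ⟨t0, t1, D, pay⟩ := c
    have e : mkS X xs0 xs1 (⟨t0, t1, D, pay⟩ :: pc) k =
      (frc (ldot X pay (nat_lit 0)) fun s =>
      frc (Nat.succ (Nat.div (Nat.add s xs0) (nat_lit 67000000))) fun S0 =>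
      frc (Nat.succ (Nat.div (Nat.add s xs1) (nat_lit 67000000))) fun S1 =>
      mkS X xs0 xs1 pc fun l => k (⟨rqOf t0, rqOf t1, D, S0, S1⟩ :: l)) := rfl
    rw [e, frc_eq, frc_eq, frc_eq, ldot0] at h
    obtain ⟨h1, h2, h3, h4⟩ := hc
    simp only at h1 h2 h3 h4
    obtain ⟨fc, hk, hf⟩ := ih gc hgc _ h
    refine ⟨_, hk, List.Forall₂.cons ⟨rq_of h1, rq_of h2, h3, ?_, ?_⟩ hf⟩
    · rw [← h4]
      have := div_succ_le (Pk.dotN X pay + xs0)
      push_cast at this ⊢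
      exact this
    · rw [← h4]
      have := div_succ_le (Pk.dotN X pay + xs1)
      push_cast at this ⊢
      exact this

/-- one class -/
lemma maskC_sound {x x' : CX} {KF : List KN} {k0 lus0 lus1 V Xs : ℕ} {X : List ℕ} (hdB : 0 < x.dB)
    (hdB' : x'.dB = x.dB) (hk : x.k0 = (k0 : ℝ) / 1000) (hk' : x'.k0 = (k0 : ℝ) / 1000) (hh0 : x'.h0 = x.h0)
    (hh1 : x'.h1 = x.h1) (hcr : x'.cr = x.cr) (hq : x.q < x'.q) (i wN : ℕ) (c : CD) (hc : x.cr[i]? = some c)
    (hw : (wN : ℝ) = 20000 * x.dB * c.lam) (hV : wN * V ≤ 1125899906842623) (fc : List FC) :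
    ∀ (gc : List GC), List.Forall₂ (RelF x x' KF X (Xs * lus0) (Xs * lus1)) fc gc → ∀ (a : ℕ) (k : ℕ → Bool),
      maskC i wN (Nat.add (nat_lit 9222246136947933184) (Nat.mul wN V)) fc a k = true →
      ∃ m, k m = true ∧ (∀ j, Nat.testBit m (64 * j + 63) = true → Nat.testBit a (64 * j + 63) = true) ∧
        ∀ j, Nat.testBit m (64 * j + 63) = true → ∀ g ∈ gc, Four x x' KF k0 lus0 lus1 V Xs X c g j := by
  induction fc with
  | nil =>
    intro gc hgc a k h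
    cases hgc
    exact ⟨a, h, fun j hj => hj, fun j _ g hg => absurd hg List.not_mem_nil⟩
  | cons f fc ih =>
    intro gc hgc a k h
    cases hgc with
    | @cons _ g _ gc hf hgc =>
    obtain ⟨q0, q1, D, S0, S1⟩ := f
    have e : maskC i wN (Nat.add (nat_lit 9222246136947933184) (Nat.mul wN V)) (⟨q0, q1, D, S0, S1⟩ :: fc) a k =
      (nthQ i q0 fun x0 x1 => nthQ i q1 fun y0 y1 =>
      frc (Nat.mul (Nat.sub (Nat.add (nat_lit 9222246136947933184) (Nat.mul wN V)) (Nat.mul wN S0)) ON) fun z0 =>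
      frc (Nat.mul (Nat.sub (Nat.add (nat_lit 9222246136947933184) (Nat.mul wN V)) (Nat.mul wN S1)) ON) fun z1 =>
      frc (Nat.land a (Nat.shiftRight (Nat.land (Nat.land (Nat.add x0 z0) (Nat.add x1 z0))
        (Nat.land (Nat.add y0 z1) (Nat.add y1 z1))) (Nat.mul (nat_lit 64) D))) fun a' =>
        maskC i wN (Nat.add (nat_lit 9222246136947933184) (Nat.mul wN V)) fc a' k) := rfl
    rw [e] at h
    obtain ⟨x0, x1, h, hx⟩ := nthQ_sound _ _ _ h
    obtain ⟨y0, y1, h, hy⟩ := nthQ_sound _ _ _ h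
    rw [frc_eq, frc_eq, frc_eq] at h
    obtain ⟨m, hk1, hm1, hm2⟩ := ih gc hgc _ _ h
    refine ⟨m, hk1, fun j hj => (land_bit (hm1 j hj)).1, fun j hj g' hg' => ?_⟩
    rcases List.mem_cons.mp hg' with rfl | hg'
    · have hb := shift_bit (land_bit (hm1 j hj)).2
      obtain ⟨hb1, hb2⟩ := land_bit hb
      obtain ⟨b1, b2⟩ := land_bit hb1
      obtain ⟨b3, b4⟩ := land_bit hb2
      obtain ⟨r1, r2, r3, r4, r5⟩ := hf
      simp only at r1 r2 r3 r4 r5
      have rx : RowS x x.h0 c x0 g'.P ∧ RowS x x.h1 c x1 g'.P := by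
        rcases hx with hx | ⟨hx0, hx1⟩
        · exact r1 i _ c hx hc
        · rw [hx0, hx1]
          exact ⟨RowS_zero _ _ _ _, RowS_zero _ _ _ _⟩
      have ry : RowS x' x'.h0 c y0 g'.P ∧ RowS x' x'.h1 c y1 g'.P := by
        rcases hy with hy | ⟨hy0, hy1⟩
        · exact r2 i _ c hy (by rw [hcr]; exact hc)
        · rw [hy0, hy1]
          exact ⟨RowS_zero _ _ _ _, RowS_zero _ _ _ _⟩
      have hψ0 : psg c x.q x'.q lus0 lus1 Xs x.q
          = c.ψ x.q + c.lam / 67000000 * ((Xs * lus0 : ℕ) : ℝ) / 10 ^ 7 := by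
        unfold psg
        rw [ells_0]
        push_cast
        ring
      have hψ1 : psg c x.q x'.q lus0 lus1 Xs x'.q
          = c.ψ x'.q + c.lam / 67000000 * ((Xs * lus1 : ℕ) : ℝ) / 10 ^ 7 := by
        unfold psg
        rw [ells_1 _ _ hq]
        push_cast
        ring
      refine ⟨⟨?_, ?_⟩, ?_, ?_⟩
      · exact cor_ok hdB x.h0 x rfl x0 wN S0 _ D _ hk r3 rx.1 hw hV r4 hψ0 j b1
      · exact cor_ok hdB x.h1 x rfl x1 wN S0 _ D _ hk r3 rx.2 hw hV r4 hψ0 j b2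
      · have := cor_ok hdB x'.h0 x' hdB' y0 wN S1 _ D _ hk' r3 ry.1 hw hV r5 hψ1 j b3
        rwa [hh0] at this
      · have := cor_ok hdB x'.h1 x' hdB' y1 wN S1 _ D _ hk' r3 ry.2 hw hV r5 hψ1 j b4
        rwa [hh1] at this
    · exact hm2 j hj g' hg'

/-- all classes -/
lemma clsL_sound {x x' : CX} {KF : List KN} {k0 lus0 lus1 V Xs : ℕ} {X : List ℕ} (hdB : 0 < x.dB)
    (hdB' : x'.dB = x.dB) (hk : x.k0 = (k0 : ℝ) / 1000) (hk' : x'.k0 = (k0 : ℝ) / 1000) (hh0 : x'.h0 = x.h0)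
    (hh1 : x'.h1 = x.h1) (hcr : x'.cr = x.cr) (hq : x.q < x'.q) (fc : List FC) (gc : List GC)
    (hf : List.Forall₂ (RelF x x' KF X (Xs * lus0) (Xs * lus1)) fc gc) (M : ℕ) (Lev : ℕ → Prop)
    (hLev : ∀ c ∈ x.cr, ∀ n, (∀ g ∈ gc, Four x x' KF k0 lus0 lus1 V Xs X c g n) →
      (∀ g ∈ gc, Four x x' KF k0 lus0 lus1 V Xs X c g (n + 1)) → Lev n) (ws : List ℕ) :
    ∀ (i U : ℕ), (∀ n, Nat.testBit U (64 * n + 63) = true → Lev n) →
      (∀ (j wN : ℕ), ws[j]? = some wN → ∃ c, x.cr[i + j]? = some c ∧ (wN : ℝ) = 20000 * x.dB * c.lam) →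
      clsL V M fc ws i U = true → ∀ n, Nat.testBit M (64 * n + 63) = true → Lev n := by
  induction ws with
  | nil =>
    intro i U hU _ h n hn
    exact hU n (mask_bit h hn)
  | cons wN ws ih =>
    intro i U hU hws h n hn
    have e : clsL V M fc (wN :: ws) i U = cond (Nat.beq (Nat.land U M) M) true
      (frc (Nat.mul wN V) fun c0 => cond (Nat.ble c0 (nat_lit 1125899906842623))
        (frc (Nat.add (nat_lit 9222246136947933184) c0) fun c1 => maskC i wN c1 fc HG fun m =>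
          frc (Nat.lor U (Nat.land m (Nat.shiftRight m (nat_lit 64)))) fun U' =>
            frc (Nat.succ i) fun i' => clsL V M fc ws i' U') false) := rfl
    rw [e] at h
    cases c0 : Nat.beq (Nat.land U M) M with
    | true => exact hU n (mask_bit c0 hn)
    | false =>
      rw [c0, cond_false, frc_eq] at h
      obtain ⟨h1, h⟩ := cond_eq_true h
      rw [frc_eq] at h
      obtain ⟨c, hc, hw⟩ := hws 0 wN rfl
      rw [Nat.add_zero] at hc
      obtain ⟨m, h, _, hm⟩ := maskC_sound (k0 := k0) hdB hdB' hk hk' hh0 hh1 hcr hq i wN c hc hw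
        (Nat.le_of_ble_eq_true h1) fc gc hf _ _ h
      rw [frc_eq, frc_eq] at h
      refine ih (i + 1) _ ?_ ?_ h n hn
      · intro n hn
        rcases lor_bit hn with hn | hn
        · exact hU n hn
        · obtain ⟨g1, g2⟩ := land_bit hn
          exact hLev c (List.mem_of_getElem? hc) n (hm n g1) (hm (n + 1) (shift1_bit g2))
      · intro j wN' hj
        have := hws (j + 1) wN' (by simpa using hj)
        rwa [show i + (j + 1) = i + 1 + j by ring] at this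

/-- what has to be shown for a row -/
def ConB (x : CX) (u us : ℝ → ℝ) (h tl : ℝ) (M : Multiset ℝ) : Prop :=
  UX 0 h tl M + x.rz ≤ 0 ∨ ∃ c ∈ x.cr, VU u us h tl c M ≤ 0

/-- THE LAST LEVEL. -/
theorem finL_sound {x x' : CX} {h tl : ℝ} {k0 : ℕ} (hB : Bx x x' k0 h tl) {KF : List KN}
    (hKF : ∀ kn ∈ KF, kn.a < kn.k ∧ kn.k ≤ 1000) {lus0 lus1 : ℕ} {u us : ℝ → ℝ}
    (hU : UOK x x' KF lus0 lus1 u us tl) (hdB : 0 < x.dB) (hdB' : x'.dB = x.dB) (hcr : x'.cr = x.cr)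
    (hq : x.q < x'.q) (hcl : ∀ c ∈ x.cr, ClOK x x' KF k0 c) (ws : List ℕ)
    (hws : ∀ (j wN : ℕ), ws[j]? = some wN → ∃ c, x.cr[j]? = some c ∧ (wN : ℝ) = 20000 * x.dB * c.lam)
    (Rs : List (Multiset ℝ)) (pc : List Cn) (gc : List GC) (F : PF) (lim : ℕ)
    (hI : Inv x x' h tl (PiF KF lus0) [] k0 KF Rs pc gc F) (hfin : finL k0 lus0 lus1 ws pc lim F = true)
    (hlim : lim ≤ 63 * k0) (R : Multiset ℝ) (hR : ∀ t ∈ R, 0 ≤ t ∧ t ≤ (k0 : ℝ) / 1000)
    (hs : R.sum * 1000 < lim) : ConB x u us h tl (sumR (pdOf KF Rs) + R) := by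
  have hkp := hB.kp
  have hkr : (0 : ℝ) < k0 := by exact_mod_cast hkp
  have hR0 : 0 ≤ R.sum := Multiset.sum_nonneg fun t ht => (hR t ht).1
  obtain ⟨acc, Y, hA, hY, hbits, hcont⟩ := coarse_sound k0 hkp pc lim hlim _ hfin
  set n := ⌊R.sum * 1000 / k0⌋₊ with hndef
  have f0 : (n : ℝ) * k0 ≤ R.sum * 1000 := by
    have := Nat.floor_le (div_nonneg (by linarith) hkr.le : 0 ≤ R.sum * 1000 / k0)
    rwa [← hndef, le_div_iff₀ hkr] at this
  have f1 : R.sum * 1000 < ((n : ℝ) + 1) * k0 := by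
    have := Nat.lt_floor_add_one (R.sum * 1000 / k0)
    rwa [← hndef, div_lt_iff₀ hkr] at this
  have f0' : (n : ℝ) * ((k0 : ℝ) / 1000) ≤ R.sum := by
    rw [← mul_div_assoc, div_le_iff₀ (by norm_num)]
    exact f0
  have f1' : R.sum < ((n : ℝ) + 1) * ((k0 : ℝ) / 1000) := by
    rw [← mul_div_assoc, lt_div_iff₀ (by norm_num)]
    exact f1
  have htriv : ∀ m : ℕ, Nat.testBit acc (64 * m + 63) = true → Nat.testBit acc (64 * (m + 1) + 63) = true →
      ∀ R : Multiset ℝ, (∀ t ∈ R, 0 ≤ t ∧ t ≤ (k0 : ℝ) / 1000) → m * ((k0 : ℝ) / 1000) ≤ R.sum →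
      R.sum < (m + 1) * ((k0 : ℝ) / 1000) → ConB x u us h tl (sumR (pdOf KF Rs) + R) := by
    intro m g0 g1 R hR r0 r1
    exact Or.inl (triv_row hI hB.x1 hB.x2 hB.x3 hB.x4 hB.x5 hB.b0 hB.b1 hB.b2 hB.b3 hB.i0 hB.i1 hB.i2
        hB.i3 hkp hB.k1 hA g0 g1 R hR r0 r1)
  by_cases hYs : (Y : ℝ) ≤ R.sum * 1000
  · obtain ⟨g0, g1⟩ := hbits _ n hYs f0 f1 hs
    exact htriv n g0 g1 R hR f0' f1'
  · push Not at hYs
    have hY0 : Y ≠ 0 := by
      intro hcon
      rw [hcon, Nat.cast_zero] at hYs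
      linarith
    have hcont := hcont.resolve_left hY0
    simp only [frc_eq] at hcont
    cases F with
    | nil => exact absurd hcont (by simp)
    | cons a b => exact absurd hcont (by simp)
    | leaf V X0 Xo Xs X =>
      have hPi : PiF KF lus0 (Rs.map Multiset.card) V Xs X := hI.pf rfl
      have hrel : List.Forall₂ (RelC x x' [] KF) pc gc := hI.rel
      obtain ⟨fc, hcont, hfc⟩ := mkS_sound X _ _ pc gc hrel _ hcont
      refine clsL_sound (k0 := k0) (Xs := Xs) hdB hdB' hB.x4 hB.x5 hB.x1 hB.x2 hcr hq fc gc hfc _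
        (fun n => ∀ R : Multiset ℝ, (∀ t ∈ R, 0 ≤ t ∧ t ≤ (k0 : ℝ) / 1000) → n * ((k0 : ℝ) / 1000) ≤ R.sum →
          R.sum < (n + 1) * ((k0 : ℝ) / 1000) → ConB x u us h tl (sumR (pdOf KF Rs) + R)) ?_ ws 0 _ ?_ ?_
        hcont n ?_ R hR f0' f1'
      · intro c hc m h0 h1 R hR r0 r1
        exact Or.inr ⟨c, hc, lev_class hB hKF hU hI (hcl c hc) hPi m h0 h1 R hR r0 r1⟩
      · intro m hm
        obtain ⟨g0, g1⟩ := land_bit hm
        exact htriv m g0 (shift1_bit g1)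
      · intro j wN hj
        rw [Nat.zero_add]
        exact hws j wN hj
      · refine HM_bit _ _ ?_ ?_
        · show (Y + (k0 - 1)) / k0 ≤ 64
          have h1 : (Y + (k0 - 1)) / k0 ≤ (63 * k0 + (k0 - 1)) / k0 := Nat.div_le_div_right (by omega)
          have h2 : (63 * k0 + (k0 - 1)) / k0 = 63 := by
            rw [Nat.add_comm, Nat.add_mul_div_right _ _ hkp, Nat.div_eq_of_lt (by omega)]
          omega
        · show n < (Y + (k0 - 1)) / k0
          have h3 : (n : ℝ) * k0 < Y := lt_of_le_of_lt f0 hYs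
          have h4 : n * k0 < Y := by exact_mod_cast h3
          have h5 : n + 1 ≤ (Y + (k0 - 1)) / k0 := by
            rw [Nat.le_div_iff_mul_le hkp]
            have : (n + 1) * k0 = n * k0 + k0 := by ring
            omega
          omega

end CB
end Pool.Agent.Lib.MP_6947cd_al
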