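import Pool.Agent.Lib.MP_6947cd_al.L.CellBQ
import Pool.Agent.Lib.MP_6947cd_al.L.ReP

/-!
Problem MP_6947cd_al (Chollet).  CASE B, rows `j`: the tables of row values with a check `rc` of the rows as parameter.
-/

set_option autoImplicit false

namespace Pool.Agent.Lib.MP_6947cd_al
namespace CB

open Ent Ent.Pk Fr Fr.WT CA

/-- `rc` is a sound check of a row -/
def RcS (rc : List (ℕ × ℕ) → List ℕ → List ℕ → ℕ → Bool) : Prop :=
  ∀ v m X V, rc v m X V = true → FM (mk m (v.map fun u => (u.1 : ℝ) / (u.2 : ℝ))) ≤ (V : ℝ) / 10 ^ 7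

/-! ### the check of a leaf of a table of row values -/

/-- values at a leaf: item `0` = rule `log` from the previous value, else packed weights of an exact row;
`S` = sum of the entries of the previous row -/
noncomputable def leafCr (rc : List (ℕ × ℕ) → List ℕ → List ℕ → ℕ → Bool) (v : List (ℕ × ℕ)) (pre : List ℕ) (R k0 : ℕ) (vs l : List ℕ) :
    List ℕ → ℕ → ℕ → ℕ → Bool :=
  @List.rec ℕ (fun _ => List ℕ → ℕ → ℕ → ℕ → Bool) (fun _ _ _ _ => true)
    (fun d _ ih c j S pv => @List.rec ℕ (fun _ => Bool) false (fun N c' _ =>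
      cond (cond (Nat.beq N (nat_lit 0)) (cond (Nat.ble (nat_lit 1) j)
          (Nat.ble (Nat.add pv (Fl.inc2 k0 S)) d) false)
        (upk R N fun X => rc v (app pre (j :: vs)) X d))
        (frc (Nat.succ j) fun j' => frc (Nat.add S k0) fun S' => ih c' j' S' d) false) c) l

/-- the check of a leaf -/
noncomputable def lfCr (rc : List (ℕ × ℕ) → List ℕ → List ℕ → ℕ → Bool) (v : List (ℕ × ℕ)) (pre : List ℕ) (R k0 : ℕ) (ku : List ℕ) (S0 : ℕ) (vs l c : List ℕ) :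
    Bool :=
  frc (Nat.add (Nat.sub S0 k0) (ldot vs ku (nat_lit 0))) fun S => leafCr rc v pre R k0 vs l c (nat_lit 0) S (nat_lit 0)

lemma leafCr_sound (rc : List (ℕ × ℕ) → List ℕ → List ℕ → ℕ → Bool) (v : List (ℕ × ℕ)) (pre : List ℕ) (R k0 : ℕ) (vs : List ℕ) (Bm : Multiset ℝ) (κ : ℝ) (S' : ℕ)
    (H1 : ∀ j X d, rc v (app pre (j :: vs)) X d = true →
      FM (Bm + Multiset.replicate j κ) ≤ (d : ℝ) / 10 ^ 7)
    (H2 : ∀ j, FM (Bm + Multiset.replicate (j + 1) κ) ≤ FM (Bm + Multiset.replicate j κ)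
      + (Fl.inc2 k0 (S' + j * k0) : ℝ) / 10 ^ 7) (l : List ℕ) :
    ∀ (c : List ℕ) (j S pv : ℕ), leafCr rc v pre R k0 vs l c j S pv = true → S + k0 = S' + j * k0 →
      (1 ≤ j → FM (Bm + Multiset.replicate (j - 1) κ) ≤ (pv : ℝ) / 10 ^ 7) →
      ∀ (i x : ℕ), l[i]? = some x → FM (Bm + Multiset.replicate (j + i) κ) ≤ (x : ℝ) / 10 ^ 7 := by
  induction l with
  | nil => intro c j S pv _ _ _ i x hi; simp at hi
  | cons d l ih =>
    intro c j S pv h hS hpv i x hi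
    cases c with
    | nil => exact absurd h (by simp [leafCr])
    | cons N c =>
      have e : leafCr rc v pre R k0 vs (d :: l) (N :: c) j S pv =
        cond (cond (Nat.beq N (nat_lit 0)) (cond (Nat.ble (nat_lit 1) j)
          (Nat.ble (Nat.add pv (Fl.inc2 k0 S)) d) false)
        (upk R N fun X => rc v (app pre (j :: vs)) X d))
        (frc (Nat.succ j) fun j' => frc (Nat.add S k0) fun S' => leafCr rc v pre R k0 vs l c j' S' d) false := rfl
      rw [e] at h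
      obtain ⟨h1, h2⟩ := cond_eq_true h
      rw [frc_eq, frc_eq] at h2
      have hd : FM (Bm + Multiset.replicate j κ) ≤ (d : ℝ) / 10 ^ 7 := by
        cases c0 : Nat.beq N (nat_lit 0) with
        | false =>
          rw [c0, cond_false] at h1
          obtain ⟨X, hX⟩ := upk_sound _ _ _ h1
          exact H1 j X d hX
        | true =>
          rw [c0, cond_true] at h1
          obtain ⟨h3, h4⟩ := cond_eq_true h1
          have hj : 1 ≤ j := Nat.le_of_ble_eq_true h3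
          obtain ⟨j', rfl⟩ := Nat.exists_eq_add_of_le' hj
          have h5 : pv + Fl.inc2 k0 S ≤ d := Nat.le_of_ble_eq_true h4
          have h6 := hpv hj
          rw [Nat.add_sub_cancel] at h6
          have h7 := H2 j'
          have h8 : S = S' + j' * k0 := by
            have : (j' + 1) * k0 = j' * k0 + k0 := by ring
            omega
          rw [← h8] at h7
          have h9 : (pv : ℝ) + Fl.inc2 k0 S ≤ d := by exact_mod_cast h5
          have h10 : ((pv : ℝ) + Fl.inc2 k0 S) / 10 ^ 7 ≤ (d : ℝ) / 10 ^ 7 := by gcongr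
          rw [add_div] at h10
          linarith
      cases i with
      | zero =>
        rw [List.getElem?_cons_zero, Option.some.injEq] at hi
        subst hi
        exact hd
      | succ i =>
        rw [List.getElem?_cons_succ] at hi
        have h3 := ih c (j + 1) (S + k0) d h2 (by rw [hS]; ring) (fun _ => by
          rw [Nat.add_sub_cancel]; exact hd) i x hi
        rwa [show j + 1 + i = j + (i + 1) by ring] at h3

/-- A TABLE OF ROW VALUES. -/
theorem ftab_sound_r {rc : List (ℕ × ℕ) → List ℕ → List ℕ → ℕ → Bool} (hrc : RcS rc) {B q k0 S0 hi R : ℕ} {ku : List ℕ} {F : FT} (hB : B ≤ 200) (hq : q ≤ 1000)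
    (hkB : k0 ≤ 5 * B) (hkq : q = 0 ∨ k0 ≤ q) (hinc : Inc 0 (kR (k0 :: ku)))
    (hS0 : S0 = 1000 + 5 * B + q)
    (h : FtP (lfCr rc (vT B q (k0 :: ku)) (preT q) R k0 ku S0) F ku.reverse.length 0 hi)
    (hl : (Lv F ku.reverse.length [] 0).length ≤ hi) :
    FS ((B : ℝ) / 200) ((q : ℝ) / 1000) ((k0 : ℝ) / 1000) F (kR ku.reverse) 0 0 := by
  have hk01 : k0 ≤ 1000 := by
    have h1 := hinc.2.le_one
    have : (k0 : ℝ) / 1000 ≤ 1 := h1
    have h2 : (k0 : ℝ) ≤ 1000 := by linarith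
    exact_mod_cast h2
  have key := FS_of (B := (B : ℝ) / 200) (q := (q : ℝ) / 1000) (k0 := (k0 : ℝ) / 1000) (ku := ku) F
    ku.reverse [] [] 0 (by rw [List.reverseAux_eq, List.reverse_reverse, List.append_nil]) ?_
  · exact key
  intro p hp
  obtain ⟨vs, l⟩ := p
  obtain ⟨c, hc⟩ := h.all hl _ hp
  simp only at hc ⊢
  unfold lfCr at hc
  rw [frc_eq, ldot0] at hc
  have hBr : (B : ℝ) ≤ 200 := by exact_mod_cast hB
  have hqr : (q : ℝ) ≤ 1000 := by exact_mod_cast hq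
  have e0 : ∀ j, 1 ::ₘ ((B : ℝ) / 200) ::ₘ ((q : ℝ) / 1000) ::ₘ mk vs (kR ku)
      + Multiset.replicate j ((k0 : ℝ) / 1000)
      = 1 ::ₘ ((B : ℝ) / 200) ::ₘ ((q : ℝ) / 1000) ::ₘ (mk vs (kR ku) + Multiset.replicate j ((k0 : ℝ) / 1000)) :=
    fun j => (perm3 _ _ _ _).symm
  have e1 : ∀ j, 1 ::ₘ ((B : ℝ) / 200) ::ₘ ((q : ℝ) / 1000) ::ₘ mk vs (kR ku)
      + Multiset.replicate j ((k0 : ℝ) / 1000)
      = 1 ::ₘ ((B : ℝ) / 200) ::ₘ ((q : ℝ) / 1000) ::ₘ mk (j :: vs) (kR (k0 :: ku)) := by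
    intro j
    rw [e0, mk_snoc]
  have hs01 : ∀ j, ∀ z ∈ (1 ::ₘ ((B : ℝ) / 200) ::ₘ ((q : ℝ) / 1000) ::ₘ mk (j :: vs) (kR (k0 :: ku)) : Multiset ℝ),
      0 ≤ z ∧ z ≤ 1 := by
    intro j z hz
    simp only [Multiset.mem_cons] at hz
    rcases hz with rfl | rfl | rfl | hz
    · exact ⟨zero_le_one, le_rfl⟩
    · exact ⟨by positivity, by linarith⟩
    · exact ⟨by positivity, by linarith⟩
    · exact inc_mem _ 0 le_rfl hinc z (mk_mem _ _ z hz)
  have hge : ∀ j, ∀ z ∈ (1 ::ₘ ((B : ℝ) / 200) ::ₘ ((q : ℝ) / 1000) ::ₘ mk (j :: vs) (kR (k0 :: ku)) : Multiset ℝ),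
      (k0 : ℝ) / 1000 ≤ z ∨ z = 0 := by
    intro j z hz
    simp only [Multiset.mem_cons] at hz
    rcases hz with rfl | rfl | rfl | hz
    · left
      have : (k0 : ℝ) ≤ 1000 := by exact_mod_cast hk01
      linarith
    · left
      have : (k0 : ℝ) ≤ 5 * B := by exact_mod_cast hkB
      linarith
    · rcases hkq with hkq | hkq
      · right
        rw [hkq]
        simp
      · left
        have : (k0 : ℝ) ≤ q := by exact_mod_cast hkq
        linarith
    · left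
      rcases List.mem_cons.mp (mk_mem _ _ z hz) with h1 | h1
      · exact h1.ge
      · exact inc_ge _ _ hinc.2 z h1
  intro j x hj
  have hle : k0 ≤ S0 := by omega
  have := leafCr_sound rc (vT B q (k0 :: ku)) (preT q) R k0 vs
    (1 ::ₘ ((B : ℝ) / 200) ::ₘ ((q : ℝ) / 1000) ::ₘ mk vs (kR ku)) ((k0 : ℝ) / 1000) (S0 + Pk.dotN vs ku) ?_ ?_
    l c 0 _ _ hc ?_ ?_ j x hj
  · rw [Nat.zero_add, e0] at this
    exact this
  · intro j X d hr
    rw [app_eq] at hr
    have h1 := hrc _ _ _ _ hr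
    rw [mk_vT] at h1
    rw [e1]
    exact h1
  · intro j
    have e2 : 1 ::ₘ ((B : ℝ) / 200) ::ₘ ((q : ℝ) / 1000) ::ₘ mk vs (kR ku)
        + Multiset.replicate (j + 1) ((k0 : ℝ) / 1000)
        = ((k0 : ℝ) / 1000) ::ₘ (1 ::ₘ ((B : ℝ) / 200) ::ₘ ((q : ℝ) / 1000) ::ₘ mk vs (kR ku)
        + Multiset.replicate j ((k0 : ℝ) / 1000)) := by
      rw [Multiset.replicate_succ]
      simp only [← Multiset.singleton_add]
      abel
    rw [e2]
    have hsum : (1 ::ₘ ((B : ℝ) / 200) ::ₘ ((q : ℝ) / 1000) ::ₘ mk vs (kR ku)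
        + Multiset.replicate j ((k0 : ℝ) / 1000)).sum = ((S0 + Pk.dotN vs ku + j * k0 : ℕ) : ℝ) / ((1000 : ℕ) : ℝ) := by
      rw [e1]
      simp only [Multiset.sum_cons]
      rw [kR_sum]
      have : Pk.dotN (j :: vs) (k0 :: ku) = j * k0 + Pk.dotN vs ku := rfl
      rw [this, hS0]
      push_cast
      ring
    have hk1r : (k0 : ℝ) / 1000 ≤ 1 := by
      have : (k0 : ℝ) ≤ 1000 := by exact_mod_cast hk01
      linarith
    have hSS : (1000 : ℕ) ≤ S0 + Pk.dotN vs ku + j * k0 := by omega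
    have h1 := Fl.FM_log' (1 ::ₘ ((B : ℝ) / 200) ::ₘ ((q : ℝ) / 1000) ::ₘ mk vs (kR ku)
        + Multiset.replicate j ((k0 : ℝ) / 1000))
      (by rw [e0]; exact Multiset.mem_cons_self _ _) (by rw [e1]; exact hs01 j)
      ((k0 : ℝ) / 1000) (by positivity) hk1r (((S0 + Pk.dotN vs ku + j * k0 : ℕ) : ℝ) / ((1000 : ℕ) : ℝ)) (by
        rw [le_div_iff₀ (by norm_num), one_mul]
        exact_mod_cast hSS) (by
        rw [filter_sum_eq _ _ (by rw [e1]; exact hge j), hsum])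
    refine h1.trans ?_
    have h2 := Fl.inc2_sound k0 (S0 + Pk.dotN vs ku + j * k0) 1000 (by norm_num) (by omega)
    have e3 : ((k0 : ℝ) / 1000) = (k0 : ℝ) / ((1000 : ℕ) : ℝ) := by norm_num
    rw [e3]
    linarith
  · show S0 - k0 + Pk.dotN vs ku + k0 = S0 + Pk.dotN vs ku + 0 * k0
    omega
  · intro h0
    omega

/-- the check of a leaf with `rowE` -/
noncomputable def lfE (v : List (ℕ × ℕ)) (pre : List ℕ) (R k0 : ℕ) (ku : List ℕ) (S0 : ℕ) (vs l c : List ℕ) : Bool :=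
  lfCr RE.rowE v pre R k0 ku S0 vs l c

/-- A TABLE OF ROW VALUES. -/
theorem ftab_of_r {rc : List (ℕ × ℕ) → List ℕ → List ℕ → ℕ → Bool} (hrc : RcS rc) {B q k0 S0 hi R d : ℕ} {ku : List ℕ} {F : FT} {v : List (ℕ × ℕ)} {pre : List ℕ}
    (hb : ftOK B q k0 ku S0 v pre d = true) (h : FtP (lfCr rc v pre R k0 ku S0) F d 0 hi)
    (hl : cntL F d 0 (fun c => Nat.ble c hi) = true) :
    FS ((B : ℝ) / 200) ((q : ℝ) / 1000) ((k0 : ℝ) / 1000) F (kR ku.reverse) 0 0 := by
  unfold ftOK at hb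
  simp only [Bool.and_eq_true, Bool.or_eq_true, decide_eq_true_eq] at hb
  obtain ⟨h1, h2, h3, h4, h5, h6, h7, h8, h9, h10⟩ := hb
  have h10 := Nat.eq_of_beq_eq_true h10
  subst h8 h9 h10
  rw [cntL_eq F _ [] 0, Nat.zero_add] at hl
  refine ftab_sound_r hrc (Nat.le_of_ble_eq_true h1) (Nat.le_of_ble_eq_true h2) (Nat.le_of_ble_eq_true h3) ?_ ?_
    (Nat.eq_of_beq_eq_true h7) h (Nat.le_of_ble_eq_true hl)
  · rcases h4 with h4 | h4
    · exact Or.inl (Nat.eq_of_beq_eq_true h4)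
    · exact Or.inr (Nat.le_of_ble_eq_true h4)
  · have := incr_inc (k0 :: ku) 0 h5 (Nat.le_of_ble_eq_true h6)
    rwa [Nat.cast_zero, zero_div] at this

/-- a table of row values with `rowE` -/
theorem ftab_of_E (hrc : RcS RE.rowE) {B q k0 S0 hi R d : ℕ} {ku : List ℕ} {F : FT} {v : List (ℕ × ℕ)} {pre : List ℕ}
    (hb : ftOK B q k0 ku S0 v pre d = true) (h : FtP (lfE v pre R k0 ku S0) F d 0 hi)
    (hl : cntL F d 0 (fun c => Nat.ble c hi) = true) :
    FS ((B : ℝ) / 200) ((q : ℝ) / 1000) ((k0 : ℝ) / 1000) F (kR ku.reverse) 0 0 :=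
  ftab_of_r hrc hb h hl

end CB
end Pool.Agent.Lib.MP_6947cd_al
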