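import Pool.Agent.Lib.MP_6947cd_al.L.CellBS

/-!
Problem MP_6947cd_al (Chollet).  CASE B, rows `j`: the additive functional.
-/

set_option autoImplicit false

namespace Pool.Agent.Lib.MP_6947cd_al
namespace CB

open Ent Ent.Pk Fr Fr.WT CA

/-- the case of the additive functional -/
theorem gcaseB {x : Box} {P : BP} (hP : BPOK x.B0 x.B1 x.H0 x.H1 P) {z0 z1 q0 q1 a0 a1 g0 g1 : ℕ}
    {nodes : List ℕ} {c0 : List PC} (R : CD → Prop)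
    (s0 : ∀ p ∈ c0, ∃ c : CD, R c ∧ Sem x.k (x.B1 - x.B0) ((x.H0 : ℝ) / 200) ((x.H1 : ℝ) / 200) q0 z0 q1 z1 p
      c.lam c.C c.φ c.ψ)
    (hgh : gqOK (5 * x.H0) (5 * x.H1) g0 g1 = true) (hgq : gqOK q0 q1 a0 a1 = true)
    (hchk : gLoop (gTest P c0 [] [] g0 g1 z0 q0 a0 z1 q1 a1) P.T1 q0 nodes 0 = true)
    (g h tl : ℝ) (M : Multiset ℝ) (h0 : (x.H0 : ℝ) / 200 ≤ h)
    (h1 : h ≤ (x.H1 : ℝ) / 200) (t0 : (q0 : ℝ) / 1000 ≤ tl) (t1 : tl ≤ (q1 : ℝ) / 1000)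
    (hM : ∀ t ∈ M, 0 ≤ t ∧ t ≤ ((x.k.getLastD 0 : ℕ) : ℝ) / 1000)
    (hT : tl + M.sum < (P.T1 : ℝ) / 1000)
    (hg : g ≤ min (gtr (3 / 20) (9 / 20) h + gtr (3 / 20) (9 / 20) tl
        + (M.map (gtr (3 / 20) (9 / 20))).sum - 6 / 125) (1 / 2)) :
    ∃ c : CD, R c ∧ (1 + c.lam) * g - Wc (h + tl + M.sum) + (M.map c.φ).sum + c.ψ tl + c.C
      - 2 * c.lam * Real.log (1 + h) ≤ 0 := by
  have htl0 : 0 ≤ tl := le_trans (by positivity) t0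
  have hMs : 0 ≤ M.sum := Multiset.sum_nonneg fun z hz => (hM z hz).1
  obtain ⟨ta, tb, hab, u0, u1⟩ := gLoop_sound _ _ _ _ 0 hchk M.sum (by simpa using hMs) (by linarith)
  obtain ⟨_, αh, βh, eh0, eh1, hgh'⟩ := gqOK_sound hgh
  obtain ⟨_, αq, βq, eq0, eq1, hgq'⟩ := gqOK_sound hgq
  have ex0 : ((5 * x.H0 : ℕ) : ℝ) / 1000 = (x.H0 : ℝ) / 200 := by push_cast; ring
  have ex1 : ((5 * x.H1 : ℕ) : ℝ) / 1000 = (x.H1 : ℝ) / 200 := by push_cast; ring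
  rw [ex0] at eh0 hgh'
  rw [ex1] at eh1 hgh'
  have hdB : 0 < P.dB := by rw [hP.dB]; have := hP.B01; omega
  have hgL : g ≤ (αh * h + βh) + (αq * tl + βq) + 113 / 400 * M.sum - 6 / 125 := by
    have k1 := hg.trans (min_le_left _ _)
    have k2 := hgh' h h0 h1
    have k3 := hgq' tl t0 t1
    have k4 := sum_le_lin M (gtr (3 / 20) (9 / 20)) (113 / 400) fun t ht => gtr_le_lin t (hM t ht).1
    linarith
  have hgH : g ≤ 1 / 2 := hg.trans (min_le_right _ _)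
  have htest : gTest P c0 [] [] g0 g1 z0 q0 a0 z1 q1 a1 ta tb = true := hab
  unfold gTest at htest
  have hany : anyR (fun p => cond (gCls P g0 g1 z0 q0 a0 z1 q1 a1 ta tb p true) true
      (gCls P g0 g1 z0 q0 a0 z1 q1 a1 ta tb p false)) c0 = true := by
    cases hb0 : anyR (fun p => cond (gCls P g0 g1 z0 q0 a0 z1 q1 a1 ta tb p true) true
      (gCls P g0 g1 z0 q0 a0 z1 q1 a1 ta tb p false)) c0 with
    | true => rfl
    | false =>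
      rw [hb0, cond_false] at htest
      exact absurd htest (by simp [anyR])
  obtain ⟨p, hp, hpc⟩ := anyR_sound _ _ hany
  obtain ⟨c, hc, hsem⟩ := s0 p hp
  refine ⟨c, hc, ?_⟩
  -- the mode
  obtain ⟨m, hm⟩ : ∃ m : Bool, gCls P g0 g1 z0 q0 a0 z1 q1 a1 ta tb p m = true := by
    cases hb : gCls P g0 g1 z0 q0 a0 z1 q1 a1 ta tb p true with
    | true => exact ⟨true, hb⟩
    | false =>
      rw [hb, cond_false] at hpc
      exact ⟨false, hpc⟩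
  unfold gCls at hm
  obtain ⟨m1, hm⟩ := cond_eq_true hm
  obtain ⟨m2, hm⟩ := cond_eq_true hm
  obtain ⟨m3, m4⟩ := cond_eq_true hm
  obtain ⟨αψ, βψ, hψ⟩ := hsem.psi
  have hq01 : (q0 : ℝ) / 1000 ≤ (q1 : ℝ) / 1000 := t0.trans t1
  have hψ0 := hψ _ le_rfl hq01
  have hψ1 := hψ _ hq01 le_rfl
  have hA0 : (p.A0 : ℝ) ≤ 200000000000 * (P.dB : ℕ) * (10 - c.C
      + 2 * c.lam * Real.log (1 + (x.H0 : ℝ) / 200)) := by rw [hP.dB]; exact hsem.A0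
  have hA1 : (p.A1 : ℝ) ≤ 200000000000 * (P.dB : ℕ) * (10 - c.C
      + 2 * c.lam * Real.log (1 + (x.H1 : ℝ) / 200)) := by rw [hP.dB]; exact hsem.A1
  have half : ∀ z q gq t : ℕ, gHalf P g0 g1 p z q gq t m = true →
      c.ψ ((q : ℝ) / 1000) = ((dg p.sn z : ℝ) - 1000000) / 100000 →
      ((1 + c.lam) * Gm m ((g0 : ℝ) / 100000000 + (gq : ℝ) / 100000000
          + 113 / 400 * ((t : ℝ) / 1000))
        - Wc ((x.H0 : ℝ) / 200 + (q : ℝ) / 1000 + (t : ℝ) / 1000)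
        + ((p.sg : ℝ) - 10000000) / 1000000 * ((t : ℝ) / 1000) + c.ψ ((q : ℝ) / 1000) + c.C
        - 2 * c.lam * Real.log (1 + (x.H0 : ℝ) / 200) ≤ 0) ∧
      ((1 + c.lam) * Gm m ((g1 : ℝ) / 100000000 + (gq : ℝ) / 100000000
          + 113 / 400 * ((t : ℝ) / 1000))
        - Wc ((x.H1 : ℝ) / 200 + (q : ℝ) / 1000 + (t : ℝ) / 1000)
        + ((p.sg : ℝ) - 10000000) / 1000000 * ((t : ℝ) / 1000) + c.ψ ((q : ℝ) / 1000) + c.C
        - 2 * c.lam * Real.log (1 + (x.H1 : ℝ) / 200) ≤ 0) := by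
    intro z q gq t hh hψq
    unfold gHalf at hh
    rw [frc_eq] at hh
    obtain ⟨k1, k2⟩ := cond_eq_true hh
    rw [hP.h0] at k1
    rw [hP.h1] at k2
    have hH := hP.hH
    have hH' := hP.le1
    exact ⟨gEnd_sound hdB hsem.lam0 hsem.w1 x.H0 g0 gq q t _ _ _ (by omega) m hψq hA0 k1,
      gEnd_sound hdB hsem.lam0 hsem.w1 x.H1 g1 gq q t _ _ _ (by omega) m hψq hA1 k2⟩
  obtain ⟨r1, r2⟩ := half z0 q0 a0 ta m1 hsem.s0
  obtain ⟨r3, r4⟩ := half z0 q0 a0 tb m2 hsem.s0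
  obtain ⟨r5, r6⟩ := half z1 q1 a1 ta m3 hsem.s1
  obtain ⟨r7, r8⟩ := half z1 q1 a1 tb m4 hsem.s1
  -- the value of the functional
  have hgm : g ≤ Gm m ((αh * h + βh) + (αq * tl + βq) + 113 / 400 * M.sum) := by
    unfold Gm
    split_ifs
    · exact hgL
    · exact hgH
  have hφ : (M.map c.φ).sum ≤ ((p.sg : ℝ) - 10000000) / 1000000 * M.sum :=
    sum_le_lin M _ _ fun t ht => hsem.sg t (hM t ht).1 (hM t ht).2
  have hl1 := mul_le_mul_of_nonneg_left hgm (by have := hsem.lam0; linarith : (0 : ℝ) ≤ 1 + c.lam)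
  refine le_trans (show _ ≤ (1 + c.lam) * Gm m ((αh * h + βh) + (αq * tl + βq) + 113 / 400 * M.sum)
      - Wc (h + tl + M.sum) + ((p.sg : ℝ) - 10000000) / 1000000 * M.sum + c.ψ tl + c.C
      - 2 * c.lam * Real.log (1 + h) by linarith) ?_
  rw [hψ tl t0 t1]
  rw [hψ0, ← eh0, ← eq0] at r1 r3
  rw [hψ0, ← eh1, ← eq0] at r2 r4
  rw [hψ1, ← eh0, ← eq1] at r5 r7
  rw [hψ1, ← eh1, ← eq1] at r6 r8
  obtain ⟨μ, ν, hμ⟩ : ∃ μ ν : ℝ, ∀ u, Gm m u = μ * u + ν := by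
    cases m with
    | true => exact ⟨1, -(6 / 125), fun u => by unfold Gm; rw [if_pos rfl]; ring⟩
    | false => exact ⟨0, 1 / 2, fun u => by unfold Gm; rw [if_neg (by simp)]; ring⟩
  simp only [hμ] at r1 r2 r3 r4 r5 r6 r7 r8 ⊢
  refine three c.lam hsem.lam0 ((1 + c.lam) * μ * αh)
    ((1 + c.lam) * μ * αq + αψ)
    ((1 + c.lam) * μ * (113 / 400) + ((p.sg : ℝ) - 10000000) / 1000000)
    ((1 + c.lam) * (μ * (βh + βq) + ν) + βψ + c.C)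
    ((x.H0 : ℝ) / 200) ((x.H1 : ℝ) / 200) ((q0 : ℝ) / 1000) ((q1 : ℝ) / 1000) ((ta : ℝ) / 1000)
    ((tb : ℝ) / 1000) (by positivity)
    (fun h q t => (1 + c.lam) * (μ * (αh * h + βh + (αq * q + βq) + 113 / 400 * t) + ν)
      - Wc (h + q + t) + ((p.sg : ℝ) - 10000000) / 1000000 * t + (αψ * q + βψ) + c.C
      - 2 * c.lam * Real.log (1 + h)) (fun h q t => by ring)
    ⟨⟨r1, r3⟩, ⟨r5, r7⟩, ⟨r2, r4⟩, r6, r8⟩ h tl M.sum h0 h1 t0 t1 u0 u1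

/-- the bound `1 / 2` and a large total -/
lemma gtail {a b s c : ℝ} (ha : c ≤ Wc a) (hb : c ≤ Wc b) (h0 : a ≤ s) (h1 : s ≤ b) : c ≤ Wc s := by
  have hc : ConvexOn ℝ (Set.Icc a b) fun t => (0 : ℝ) * t + 0 - Wc (0 + t) := convW _ (convex_Icc _ _) 0 0 0
  have h2 := hc.le_max_of_mem_Icc (Set.left_mem_Icc.mpr (h0.trans h1)) (Set.right_mem_Icc.mpr (h0.trans h1))
    ⟨h0, h1⟩
  simp only [zero_mul, zero_add, zero_sub] at h2
  have h3 : max (-Wc a) (-Wc b) ≤ -c := max_le (by linarith) (by linarith)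
  linarith

end CB
end Pool.Agent.Lib.MP_6947cd_al
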