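import Pool.Agent.Lib.MP_6947cd_al.L.CellBU

/-!
Problem MP_6947cd_al (Chollet).  CASE B, rows `j`: the checks of a box and their soundness.
-/

set_option autoImplicit false

namespace Pool.Agent.Lib.MP_6947cd_al
namespace CB

open Ent Ent.Pk Fr Fr.WT CA

/-! ### the checks -/

/-- the program for an interval of the special entry -/
noncomputable def ivC (P : BQ) (cs : List PB) (ws : List ℕ) (kns : List KN) (d lim z q0 : ℕ) (t00 t01 : FT)
    (z1 q1 : ℕ) (t10 t11 : FT) (l0 l1 : ℕ) (F : PF) : Bool :=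
  prepD P cs z q0 d t00 t01 [] fun p0 => prepD P cs z1 q1 d t10 t11 [] fun p1 =>
    nodeR (finL P.k0 l0 l1 ws) kns (⟨p0, p1, nat_lit 0, []⟩ :: []) lim F

/-- parameters for the additive functional -/
def toBP (P : BQ) (T1 : ℕ) : BP := ⟨P.dB, P.a00, P.a01, P.a10, P.a11, P.h0, P.h1, T1, [], []⟩

/-- the trivial class -/
def tc (x : Box) : Cl :=
  ⟨3, 0, 0, 0, (x.rz : ℤ), List.replicate x.k.length 0, List.replicate x.q.length 0⟩

def bqOK (x : Box) (P : BQ) : Bool :=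
  Nat.ble (x.B0 + 1) x.B1 && (Nat.ble x.B1 200 && (Nat.beq P.dB (x.B1 - x.B0) && (Nat.ble x.B0 x.H0 &&
  (Nat.ble x.H0 x.H1 && (Nat.ble x.H1 x.B1 && (Nat.beq P.a00 (x.B1 - x.H0) && (Nat.beq P.a01 (x.H0 - x.B0) &&
  (Nat.beq P.a10 (x.B1 - x.H1) && (Nat.beq P.a11 (x.H1 - x.B0) && (Nat.beq P.h0 (5 * x.H0) &&
  (Nat.beq P.h1 (5 * x.H1) && (Nat.ble 62 x.H0 && (Nat.beq P.rz2 (2000 * P.dB * x.rz) &&
  (Nat.beq P.e0 (2000000 * P.dB) && (Nat.beq P.t9 (2000000000 * P.dB) && (decide (x.k = P.k0 :: P.ku) &&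
  (incr 0 x.k && (Nat.ble (x.k.getLastD 0) 1000 && Nat.ble x.rz 11000))))))))))))))))))

def clOK (x : Box) : List Cl → List PC → List PB → Bool
  | c :: cl, p :: ps, r :: rs => (Nat.beq c.ty 3 && (preG x c p && pbOK (x.B1 - x.B0) c.w p r)) && clOK x cl ps rs
  | [], [], [] => true
  | _, _, _ => false

def linkB (k0 : ℕ) : List KN → Bool
  | [] => true
  | kn :: kns => (Nat.beq kn.a (topK k0 kns) && (Nat.ble (kn.a + 1) kn.k && (Nat.ble k0 kn.k &&
      Nat.ble kn.k 1000))) && linkB k0 kns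

/-- the parameters of a box -/
def parC (y : BoxB) (P : BQ) (cs : List PB) (ps : List PC) (p0 : PC) (kns : List KN) (ws : List ℕ) : Bool :=
  bqOK y.x P && (clOK y.x y.x.cls ps cs && (preG y.x (tc y.x) p0 && (knOK y &&
  ((y.u.all fun b => Nat.ble b 1000) && ((y.us.all fun b => Nat.ble b 1000) &&
  (kfOK kns.reverse P.k0 (y.u.headD 0) P.ku y.u.tail && (linkB P.k0 kns &&
  (decide (kns.map (fun kn => kn.k) = P.ku.reverse) && (decide (ws = cs.map fun r => r.wN) &&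
  (decide (y.x.q = 0 :: y.x.q.tail) && (decide (y.us = y.us.headD 0 :: y.us.tail) &&
  (Nat.ble (y.x.q.getLastD 0) 1000 &&
  Nat.ble (6200 - 5 * y.x.H0) (63 * P.k0)))))))))))))

/-- the parameters of an interval of the special entry -/
def zOK (y : BoxB) (z q0 q1 l0 l1 : ℕ) : Bool :=
  Nat.ble (z + 2) y.x.q.length && (Nat.beq (y.x.q.getD z 0) q0 && (Nat.beq (y.x.q.getD (z + 1) 0) q1 &&
  (Nat.beq l0 0 || (Nat.ble 1 (y.us.getD z 0) && (Nat.ble 1 (y.us.getD (z + 1) 0) &&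
    (Nat.ble (dg NLP (y.us.getD z 0)) l0 && Nat.ble (dg NLP (y.us.getD (z + 1) 0)) l1))))))

/-- the additive functional -/
noncomputable def gOK (x : Box) (P : BQ) (T1 : ℕ) (pl : List PC) (z q0 z1 q1 a0 a1 g0 g1 : ℕ) (nodes : List ℕ) : Bool :=
  gqOK (5 * x.H0) (5 * x.H1) g0 g1 && (gqOK q0 q1 a0 a1 &&
  (gLoop (gTest (toBP P T1) pl [] [] g0 g1 z q0 a0 z1 q1 a1) T1 q0 nodes 0 &&
  (Nat.beq z1 (z + 1) && (Nat.ble (5 * x.H0 + T1) 6200 &&
  (Nat.ble (100000000 + 2000 * x.rz) (w20 (5 * x.H0 + T1)) && Nat.ble (100000000 + 2000 * x.rz) (w20 6200))))))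

/-! ### what the parameters mean -/

lemma bq_of {x : Box} {P : BQ} (h : bqOK x P = true) : BQOK x.B0 x.B1 x.H0 x.H1 x.rz P ∧
    x.k = P.k0 :: P.ku ∧ incr 0 x.k = true ∧ x.k.getLastD 0 ≤ 1000 ∧ x.rz ≤ 11000 ∧ 62 ≤ x.H0 := by
  unfold bqOK at h
  simp only [Bool.and_eq_true, decide_eq_true_eq] at h
  obtain ⟨h1, h2, h3, h4, h5, h6, h7, h8, h9, h10, h11, h12, h13, h14, h15, h16, h17, h18, h19, h20⟩ := h
  have e1 := Nat.le_of_ble_eq_true h1
  have e2 := Nat.le_of_ble_eq_true h2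
  have e4 := Nat.le_of_ble_eq_true h4
  have e5 := Nat.le_of_ble_eq_true h5
  have e6 := Nat.le_of_ble_eq_true h6
  have e13 := Nat.le_of_ble_eq_true h13
  have e19 := Nat.le_of_ble_eq_true h19
  refine ⟨?_, h17, h18, e19, Nat.le_of_ble_eq_true h20, e13⟩
  refine
    { B01 := e1
      B1' := e2
      dB := Nat.eq_of_beq_eq_true h3
      le0 := e4
      le1 := e5
      le2 := e6
      a00 := Nat.eq_of_beq_eq_true h7
      a01 := Nat.eq_of_beq_eq_true h8
      a10 := Nat.eq_of_beq_eq_true h9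
      a11 := Nat.eq_of_beq_eq_true h10
      h0 := Nat.eq_of_beq_eq_true h11
      h1 := Nat.eq_of_beq_eq_true h12
      hH := by omega
      rz2 := Nat.eq_of_beq_eq_true h14
      e0 := Nat.eq_of_beq_eq_true h15
      t9 := Nat.eq_of_beq_eq_true h16
      inc := ?_ }
  rw [← h17]
  have key : ∀ (ks : List ℕ) (a : ℕ), incr a ks = true → ks.getLastD a ≤ 1000 →
      Inc ((a : ℝ) / 1000) (kR ks) := by
    intro ks
    induction ks with
    | nil =>
      intro a _ hl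
      have : (a : ℝ) ≤ 1000 := by exact_mod_cast hl
      show (a : ℝ) / 1000 ≤ 1
      linarith
    | cons k ks ih =>
      intro a hi hl
      unfold incr at hi
      rw [Bool.and_eq_true, Nat.ble_eq] at hi
      rw [List.getLastD_cons] at hl
      refine ⟨?_, ih k hi.2 hl⟩
      have : (a : ℝ) + 1 ≤ k := by exact_mod_cast hi.1
      show (a : ℝ) / 1000 < (k : ℝ) / 1000
      linarith
  have := key x.k 0 h18 e19
  simpa using this

/-- the real form of a class -/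
noncomputable def cdOf (x : Box) (c : Cl) : CD :=
  ⟨(c.w : ℝ) / 1000, (c.rt : ℝ) / 100000, phR x c, psi0 x c⟩

lemma link_of (k0 : ℕ) (kns : List KN) : linkB k0 kns = true → Link k0 kns := by
  induction kns with
  | nil => intro _; exact trivial
  | cons kn kns ih =>
    intro h
    simp only [linkB, Bool.and_eq_true] at h
    obtain ⟨⟨h1, h2, h3, h4⟩, h5⟩ := h
    refine ⟨?_, Nat.le_of_ble_eq_true h2, Nat.le_of_ble_eq_true h3, Nat.le_of_ble_eq_true h4, ih h5⟩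
    have := Nat.eq_of_beq_eq_true h1
    rw [this]
    cases kns <;> rfl

lemma topK_last (k0 : ℕ) (kns : List KN) (ku : List ℕ) (h : kns.map (fun kn => kn.k) = ku.reverse) :
    topK k0 kns = (k0 :: ku).getLastD 0 := by
  cases kns with
  | nil =>
    have : ku = [] := by
      have h2 : ku.reverse = [] := h.symm
      simpa using h2
    rw [this]
    rfl
  | cons kn kns =>
    rw [List.map_cons] at h
    have h2 : ku = (kns.map fun kn => kn.k).reverse ++ [kn.k] := by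
      have h3 := congrArg List.reverse h
      rw [List.reverse_reverse, List.reverse_cons] at h3
      exact h3.symm
    rw [h2]
    show kn.k = _
    rw [List.getLastD_cons]
    simp [List.getLastD_eq_getLast?]

/-- the class data on an interval -/
lemma cl_of {x : Box} (hinc : Inc 0 (kR x.k)) (hk : x.k ≠ []) (hH0 : 60 ≤ x.H0) (hH01 : x.H0 ≤ 200)
    (hH1 : 60 ≤ x.H1) (hH11 : x.H1 ≤ 200) (q0 z0 q1 z1 : ℕ)
    (hz : (x.q = [] ∧ q0 = 0 ∧ q1 = 0 ∧ z0 = 0 ∧ z1 = 0) ∨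
      (∃ q' : List ℕ, x.q = 0 :: q' ∧ Inc 0 (kR q') ∧ z1 = z0 + 1 ∧ z0 < q'.length ∧
        q0 = (0 :: q').getD z0 0 ∧ q1 = q'.getD z0 0)) (cl : List Cl) :
    ∀ (ps : List PC) (cs : List PB), clOK x cl ps cs = true →
    List.Forall₂ (fun r c => SemB x.k (x.B1 - x.B0) ((x.H0 : ℝ) / 200) ((x.H1 : ℝ) / 200) ((q0 : ℝ) / 1000) z0 r c ∧
      SemB x.k (x.B1 - x.B0) ((x.H0 : ℝ) / 200) ((x.H1 : ℝ) / 200) ((q1 : ℝ) / 1000) z1 r c ∧
      (r.wN : ℝ) = 20000 * ((x.B1 - x.B0 : ℕ) : ℝ) * c.lam) cs (cl.map (cdOf x)) ∧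
    (∀ p ∈ ps, ∃ c ∈ cl, c.ty = 3 ∧ Sem x.k (x.B1 - x.B0) ((x.H0 : ℝ) / 200) ((x.H1 : ℝ) / 200) q0 z0 q1 z1 p
      (cdOf x c).lam (cdOf x c).C (cdOf x c).φ (cdOf x c).ψ) ∧
    (∀ c ∈ cl, c.ty = 3 ∧ ∃ p : PC, Sem x.k (x.B1 - x.B0) ((x.H0 : ℝ) / 200) ((x.H1 : ℝ) / 200) q0 z0 q1 z1 p
      (cdOf x c).lam (cdOf x c).C (cdOf x c).φ (cdOf x c).ψ) := by
  induction cl with
  | nil =>
    intro ps cs h
    cases ps with
    | cons p ps => cases cs <;> exact absurd h (by simp [clOK])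
    | nil =>
      cases cs with
      | cons r cs => exact absurd h (by simp [clOK])
      | nil => exact ⟨List.Forall₂.nil, fun p hp => absurd hp List.not_mem_nil, fun c hc => absurd hc List.not_mem_nil⟩
  | cons c cl ih =>
    intro ps cs h
    cases ps with
    | nil => cases cs <;> exact absurd h (by simp [clOK])
    | cons p ps =>
    cases cs with
    | nil => exact absurd h (by simp [clOK])
    | cons r cs =>
    simp only [clOK, Bool.and_eq_true] at h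
    obtain ⟨⟨h1, h2, h3⟩, h4⟩ := h
    obtain ⟨i1, i2, i3⟩ := ih ps cs h4
    have hty : c.ty = 3 := Nat.eq_of_beq_eq_true h1
    have hs := sem3_of h2 hinc hk hH0 hH01 hH1 hH11 q0 z0 q1 z1 hz
    have hs' : Sem x.k (x.B1 - x.B0) ((x.H0 : ℝ) / 200) ((x.H1 : ℝ) / 200) q0 z0 q1 z1 p
      (cdOf x c).lam (cdOf x c).C (cdOf x c).φ (cdOf x c).ψ := hs
    have hbn : p.bn ≠ [] := by
      intro hcon
      unfold preG at h2
      simp only [Bool.and_eq_true] at h2
      obtain ⟨_, l2⟩ := bnOK_len _ _ _ h2.1.1.1.1.2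
      rw [hcon] at l2
      exact hk (List.eq_nil_of_length_eq_zero l2.symm)
    obtain ⟨b1, b2⟩ := semB_of hs' hbn h3
    have hw : r.wN = 20 * (x.B1 - x.B0) * c.w := by
      unfold pbOK at h3
      simp only [Bool.and_eq_true] at h3
      exact Nat.eq_of_beq_eq_true h3.2
    refine ⟨List.Forall₂.cons ⟨b1, b2, ?_⟩ i1, ?_, ?_⟩
    · rw [hw]
      show _ = 20000 * ((x.B1 - x.B0 : ℕ) : ℝ) * ((c.w : ℝ) / 1000)
      rw [Nat.cast_mul, Nat.cast_mul]
      push_cast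
      ring
    · intro p' hp'
      rcases List.mem_cons.mp hp' with rfl | hp'
      · exact ⟨c, List.mem_cons_self, hty, hs'⟩
      · obtain ⟨c', hc', hs2⟩ := i2 p' hp'
        exact ⟨c', List.mem_cons_of_mem _ hc', hs2⟩
    · intro c' hc'
      rcases List.mem_cons.mp hc' with rfl | hc'
      · exact ⟨hty, p, hs'⟩
      · exact i3 c' hc'

lemma pl_zero (ks : List ℝ) : ∀ (a : ℝ) (n : ℕ) (t : ℝ), pl a 0 ks (vR (List.replicate n 0)) t = 0 := by
  induction ks with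
  | nil => intro a n t; rw [pl_nil]
  | cons k ks ih =>
    intro a n t
    cases n with
    | zero => rfl
    | succ n =>
      have e : vR (List.replicate (n + 1) 0) = (0 : ℝ) :: vR (List.replicate n 0) := by
        simp [vR, List.replicate_succ]
      rw [e, pl_cons]
      split_ifs
      · ring
      · exact ih k n t

/-- affine on the pieces -/
lemma affK_of (φ : ℝ → ℝ) (KF : List KN) : ∀ (a ua : ℕ) (ks us : List ℕ), kfOK KF a ua ks us = true →
    Aff φ ((a : ℝ) / 1000) (kR ks) → AffK φ KF := by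
  induction KF with
  | nil => intro a ua ks us _ _ kn hkn; exact absurd hkn List.not_mem_nil
  | cons kn0 KF ih =>
    intro a ua ks us h haff kn hkn
    cases ks with
    | nil => exact absurd h (by simp [kfOK])
    | cons k ks =>
    cases us with
    | nil => exact absurd h (by simp [kfOK])
    | cons u us =>
    simp only [kfOK, Bool.and_eq_true] at h
    obtain ⟨⟨⟨⟨h1, h2⟩, h3⟩, h4⟩, h5⟩ := h
    have h1 := Nat.eq_of_beq_eq_true h1
    have h2 := Nat.eq_of_beq_eq_true h2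
    have h3 := Nat.le_of_ble_eq_true h3
    rcases List.mem_cons.mp hkn with rfl | hkn
    · refine ⟨by omega, ?_⟩
      rw [h1, h2]
      exact haff.1
    · exact ih k u ks us h5 haff.2 kn hkn

/-! ### one interval of the special entry -/

/-- the claim for an interval -/
def IvP (y : BoxB) (z : ℕ) : Prop :=
  ∀ (h tl g : ℝ) (M : Multiset ℝ), (y.x.H0 : ℝ) / 200 ≤ h → h ≤ (y.x.H1 : ℝ) / 200 →
    (∀ t ∈ M, 0 ≤ t ∧ t ≤ ((y.x.k.getLastD 0 : ℕ) : ℝ) / 1000) →
    ((y.x.q.getD z 0 : ℕ) : ℝ) / 1000 ≤ tl → (z = 0 ∨ ((y.x.q.getD z 0 : ℕ) : ℝ) / 1000 < tl) →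
    tl ≤ ((y.x.q.getD (z + 1) 0 : ℕ) : ℝ) / 1000 →
    (g = FM (1 ::ₘ h ::ₘ tl ::ₘ M) ∨
      g ≤ min (gtr (3 / 20) (9 / 20) h + gtr (3 / 20) (9 / 20) tl
        + (M.map (gtr (3 / 20) (9 / 20))).sum - 6 / 125) (1 / 2)) →
    g - What (h + tl + M.sum) + (y.x.rz : ℝ) / 100000 ≤ 0 ∨
      ∃ c ∈ y.x.cls, c.ty = 3 ∧ ValU y c g h tl M ≤ 0

end CB
end Pool.Agent.Lib.MP_6947cd_al
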