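import Pool.Agent.Lib.MP_6947cd_al.L.CellBM

/-!
Problem MP_6947cd_al (Chollet).  CASE B, rows `j`: soundness of the checks of a box.
-/

set_option autoImplicit false

namespace Pool.Agent.Lib.MP_6947cd_al
namespace CB

open Ent Ent.Pk Fr Fr.WT CA

lemma lowU_above {y : BoxB} {k0 : ℕ} {ku : List ℕ} (hk : y.x.k = k0 :: ku) (hu : y.u ≠ []) {t : ℝ}
    (ht : (k0 : ℝ) / 1000 < t) :
    lowU y t = plz ((k0 : ℝ) / 1000) (((y.u.headD 0 : ℕ) : ℝ) / 1000) (kR ku) (kR y.u.tail) t := by
  unfold lowU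
  rw [hk, kR_cons]
  cases hu' : y.u with
  | nil => exact absurd hu' hu
  | cons b bs =>
    rw [kR_cons, plz_cons, if_neg (not_le.mpr ht)]
    rfl

lemma incr_inc (ks : List ℕ) : ∀ (a : ℕ), incr a ks = true → ks.getLastD a ≤ 1000 →
    Inc ((a : ℝ) / 1000) (kR ks) := by
  induction ks with
  | nil =>
    intro a _ hl
    have : (a : ℝ) ≤ 1000 := by exact_mod_cast hl
    show (a : ℝ) / 1000 ≤ 1
    linarith
  | cons k ks ih =>
    intro a hi hl
    unfold incr at hi
    rw [Bool.and_eq_true, Nat.ble_eq] at hi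
    rw [List.getLastD_cons] at hl
    refine ⟨?_, ih k hi.2 hl⟩
    have : (a : ℝ) + 1 ≤ k := by exact_mod_cast hi.1
    show (a : ℝ) / 1000 < (k : ℝ) / 1000
    linarith

lemma incr_getD (ks : List ℕ) : ∀ (a z : ℕ), incr a ks = true → z < ks.length →
    (a :: ks).getD z 0 < ks.getD z 0 ∧ ks.getD z 0 ≤ ks.getLastD 0 := by
  have hge : ∀ (l : List ℕ) (b : ℕ), incr b l = true → b ≤ l.getLastD b := by
    intro l
    induction l with
    | nil => intro b _; exact le_rfl
    | cons k l ih =>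
      intro b h
      unfold incr at h
      rw [Bool.and_eq_true, Nat.ble_eq] at h
      rw [List.getLastD_cons]
      have := ih k h.2
      omega
  induction ks with
  | nil => intro a z _ hz; simp at hz
  | cons k ks ih =>
    intro a z h hz
    unfold incr at h
    rw [Bool.and_eq_true, Nat.ble_eq] at h
    cases z with
    | zero =>
      simp only [List.getD_cons_zero]
      rw [List.getLastD_cons]
      exact ⟨by omega, hge ks k h.2⟩
    | succ z =>
      simp only [List.getD_cons_succ]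
      obtain ⟨h1, h2⟩ := ih k z h.2 (by simpa using hz)
      refine ⟨h1, ?_⟩
      cases ks with
      | nil => simp at hz
      | cons k' ks => exact h2

lemma lowUs_piece {y : BoxB} (hkn : knOK y = true) {z q0 q1 l0 l1 : ℕ} (hz : zOK y z q0 q1 l0 l1 = true)
    (hq : y.x.q = 0 :: y.x.q.tail) (hus : y.us = y.us.headD 0 :: y.us.tail)
    (hus1 : (y.us.all fun b => Nat.ble b 1000) = true) (hl : l0 ≠ 0) {tl : ℝ} (t0 : (q0 : ℝ) / 1000 ≤ tl)
    (t0' : z = 0 ∨ (q0 : ℝ) / 1000 < tl) (t1 : tl ≤ (q1 : ℝ) / 1000) :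
    0 < lowUs y tl ∧ -Real.log (lowUs y tl) ≤ ells ((q0 : ℝ) / 1000) ((q1 : ℝ) / 1000) l0 l1 tl := by
  unfold zOK at hz
  simp only [Bool.and_eq_true, Bool.or_eq_true] at hz
  obtain ⟨z1, z2, z3, z4⟩ := hz
  have z1 := Nat.le_of_ble_eq_true z1
  have z2 := Nat.eq_of_beq_eq_true z2
  have z3 := Nat.eq_of_beq_eq_true z3
  obtain ⟨y1, y2, y3, y4⟩ := z4.resolve_left (fun h => hl (Nat.eq_of_beq_eq_true h))
  have y1 := Nat.le_of_ble_eq_true y1
  have y2 := Nat.le_of_ble_eq_true y2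
  have y3 := Nat.le_of_ble_eq_true y3
  have y4 := Nat.le_of_ble_eq_true y4
  unfold knOK at hkn
  simp only [Bool.and_eq_true] at hkn
  obtain ⟨_, k2, _, k4⟩ := hkn
  have k4 := Nat.eq_of_beq_eq_true k4
  have hall : ∀ b ∈ y.us, b ≤ 1000 := fun b hb => Nat.le_of_ble_eq_true (List.all_eq_true.mp hus1 b hb)
  have hget : ∀ i, y.us.getD i 0 ≤ 1000 := by
    intro i
    by_cases hi : i < y.us.length
    · rw [List.getD_eq_getElem _ _ hi]
      exact hall _ (List.getElem_mem hi)
    · rw [List.getD_eq_default _ _ (by omega)]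
      exact Nat.zero_le _
  have u0 := hget z
  have u1 := hget (z + 1)
  have hzl : z < y.x.q.tail.length := by
    rw [List.length_tail]
    omega
  rw [hq] at z2 z3
  rw [hus] at y1 y2 y3 y4 u0 u1
  rw [List.getD_cons_succ] at z3 y2 y4 u1
  have key : lowUs y tl = (((y.us.headD 0 :: y.us.tail).getD z 0 : ℕ) : ℝ) / 1000
      + (((y.us.tail.getD z 0 : ℕ) : ℝ) / 1000 - (((y.us.headD 0 :: y.us.tail).getD z 0 : ℕ) : ℝ) / 1000)
        / ((q1 : ℝ) / 1000 - (q0 : ℝ) / 1000) * (tl - (q0 : ℝ) / 1000) := by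
    unfold lowUs
    rcases t0' with hz0 | hlt
    · subst hz0
      cases hqt : y.x.q.tail with
      | nil => rw [hqt] at hzl; simp at hzl
      | cons b bs =>
      cases hut : y.us.tail with
      | nil => rw [hqt, hut] at k4; simp at k4
      | cons v vs =>
      rw [hqt] at z3
      simp only [List.getD_cons_zero] at z2 z3 y1 ⊢
      subst z2 z3
      rw [kR_cons, kR_cons, plz_cons, if_pos t1, if_neg (by
        have : (1 : ℝ) ≤ ((y.us.headD 0 : ℕ) : ℝ) := by exact_mod_cast y1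
        positivity)]
      simp
    · have := (plz_piece y.x.q.tail 0 (y.us.headD 0) y.us.tail z tl k2 hzl k4 (by rw [z2]; exact hlt)
        (by rw [z3]; exact t1) (by omega)).1
      rw [z2, z3, Nat.cast_zero, zero_div] at this
      exact this
  have hlt01 : (q0 : ℝ) / 1000 < (q1 : ℝ) / 1000 := by
    have := (incr_getD y.x.q.tail 0 z k2 hzl).1
    rw [z2, z3] at this
    have : (q0 : ℝ) < q1 := by exact_mod_cast this
    linarith
  rw [key]
  have c0 : (0 : ℝ) < (((y.us.headD 0 :: y.us.tail).getD z 0 : ℕ) : ℝ) / 1000 := by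
    have : (1 : ℝ) ≤ (((y.us.headD 0 :: y.us.tail).getD z 0 : ℕ) : ℝ) := by exact_mod_cast y1
    positivity
  have c1 : (0 : ℝ) < ((y.us.tail.getD z 0 : ℕ) : ℝ) / 1000 := by
    have : (1 : ℝ) ≤ ((y.us.tail.getD z 0 : ℕ) : ℝ) := by exact_mod_cast y2
    positivity
  have l1' := (nl_le _ y1 u0).trans (show (dg NLP ((y.us.headD 0 :: y.us.tail).getD z 0) : ℝ) / 10 ^ 7
      ≤ (l0 : ℝ) / 10 ^ 7 by
    have : (dg NLP ((y.us.headD 0 :: y.us.tail).getD z 0) : ℝ) ≤ l0 := by exact_mod_cast y3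
    gcongr)
  have l2' := (nl_le _ y2 u1).trans (show (dg NLP (y.us.tail.getD z 0) : ℝ) / 10 ^ 7
      ≤ (l1 : ℝ) / 10 ^ 7 by
    have : (dg NLP (y.us.tail.getD z 0) : ℝ) ≤ l1 := by exact_mod_cast y4
    gcongr)
  have h := interp_log c0 c1 l1' l2' hlt01 t0 t1
  refine ⟨h.1, h.2.trans (le_of_eq ?_)⟩
  unfold ells
  rw [show ((l1 : ℝ) - l0) / 10 ^ 7 = (l1 : ℝ) / 10 ^ 7 - (l0 : ℝ) / 10 ^ 7 from sub_div _ _ _]

/-- facts from the parameters of a box -/
structure ParF (y : BoxB) (P : BQ) (cs : List PB) (ps : List PC) (p0 : PC) (kns : List KN) (ws : List ℕ) :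
    Prop where
  bq : BQOK y.x.B0 y.x.B1 y.x.H0 y.x.H1 y.x.rz P
  k : y.x.k = P.k0 :: P.ku
  inc : Inc 0 (kR y.x.k)
  kl : y.x.k.getLastD 0 ≤ 1000
  rz : y.x.rz ≤ 11000
  H0 : 62 ≤ y.x.H0
  cl : clOK y.x y.x.cls ps cs = true
  p0 : preG y.x (tc y.x) p0 = true
  kn : knOK y = true
  u : (y.u.all fun b => Nat.ble b 1000) = true
  us : (y.us.all fun b => Nat.ble b 1000) = true
  kf : kfOK kns.reverse P.k0 (y.u.headD 0) P.ku y.u.tail = true
  lk : Link P.k0 kns
  kk : kns.map (fun kn => kn.k) = P.ku.reverse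
  ws : ws = cs.map fun r => r.wN
  q : y.x.q = 0 :: y.x.q.tail
  ush : y.us = y.us.headD 0 :: y.us.tail
  ql : y.x.q.getLastD 0 ≤ 1000
  lim : 6200 - 5 * y.x.H0 ≤ 63 * P.k0
  une : y.u ≠ []
  kp : 0 < P.k0

lemma par_of {y : BoxB} {P : BQ} {cs : List PB} {ps : List PC} {p0 : PC} {kns : List KN} {ws : List ℕ}
    (h : parC y P cs ps p0 kns ws = true) : ParF y P cs ps p0 kns ws := by
  unfold parC at h
  simp only [Bool.and_eq_true, decide_eq_true_eq] at h
  obtain ⟨h1, h2, h3, h4, h5, h6, h7, h8, h9, h10, h11, h12, h13, h14⟩ := h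
  obtain ⟨b1, b2, b3, b4, b5, b6⟩ := bq_of h1
  have hlen : y.x.k.length = y.u.length := by
    unfold knOK at h4
    simp only [Bool.and_eq_true] at h4
    exact Nat.eq_of_beq_eq_true h4.2.2.1
  have hune : y.u ≠ [] := by
    intro hcon
    rw [hcon, b2] at hlen
    simp at hlen
  have hinc : Inc 0 (kR y.x.k) := by
    have := b1.inc
    rw [← b2] at this
    exact this
  have hkp : 0 < P.k0 := by
    rw [b2] at b3
    unfold incr at b3
    rw [Bool.and_eq_true, Nat.ble_eq] at b3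
    omega
  exact ⟨b1, b2, hinc, b4, b5, b6, h2, h3, h4, h5, h6, h7, link_of _ _ h8, h9, h10, h11, h12,
    Nat.le_of_ble_eq_true h13, Nat.le_of_ble_eq_true h14, hune, hkp⟩

lemma phR_tc (x : Box) (t : ℝ) : phR x (tc x) t = 0 := pl_zero _ _ _ _

lemma psi0_tc (x : Box) (t : ℝ) : psi0 x (tc x) t = 0 := by
  unfold psi0 psR tc
  split_ifs with h
  · rfl
  · have e1 : (((List.replicate x.q.length (0 : ℤ)).headD 0 : ℤ) : ℝ) / 100000 = 0 := by
      cases x.q.length with
      | zero => simp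
      | succ n => simp [List.replicate_succ]
    have e2 : (List.replicate x.q.length (0 : ℤ)).tail = List.replicate (x.q.length - 1) 0 := by
      rw [List.tail_replicate]
    simp only [e1, e2]
    exact pl_zero _ _ _ _

/-- ONE INTERVAL OF THE SPECIAL ENTRY. -/
theorem iv_sound {y : BoxB} {P : BQ} {cs : List PB} {ps : List PC} {p0 : PC} {kns : List KN} {ws : List ℕ}
    (hc : parC y P cs ps p0 kns ws = true) {z q0 q1 l0 l1 lim d : ℕ} (hz : zOK y z q0 q1 l0 l1 = true)
    (hd : kns.length = d) (hlim : 6200 - 5 * y.x.H0 - q0 = lim)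
    {t00 t01 t10 t11 : FT} {F : PF}
    (f00 : FS ((y.x.B0 : ℝ) / 200) ((q0 : ℝ) / 1000) ((P.k0 : ℝ) / 1000) t00 (kR P.ku.reverse) 0 0)
    (f01 : FS ((y.x.B1 : ℝ) / 200) ((q0 : ℝ) / 1000) ((P.k0 : ℝ) / 1000) t01 (kR P.ku.reverse) 0 0)
    (f10 : FS ((y.x.B0 : ℝ) / 200) ((q1 : ℝ) / 1000) ((P.k0 : ℝ) / 1000) t10 (kR P.ku.reverse) 0 0)
    (f11 : FS ((y.x.B1 : ℝ) / 200) ((q1 : ℝ) / 1000) ((P.k0 : ℝ) / 1000) t11 (kR P.ku.reverse) 0 0)
    (hF : PfS (PiF kns.reverse l0) F d [] 0)
    (hiv : ivC P cs ws kns d lim z q0 t00 t01 (z + 1) q1 t10 t11 l0 l1 F = true)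
    {T1 a0 a1 g0 g1 : ℕ} {nodes : List ℕ}
    (hg : gOK y.x P T1 (p0 :: ps) z q0 (z + 1) q1 a0 a1 g0 g1 nodes = true) : IvP y z := by
  subst hd hlim
  have hp := par_of hc
  have hbq := hp.bq
  intro h tl g M h0 h1 hM t0 t0' t1 hg'
  -- numbers
  have hzz := hz
  unfold zOK at hzz
  simp only [Bool.and_eq_true] at hzz
  obtain ⟨z1, z2, z3, _⟩ := hzz
  have z1 := Nat.le_of_ble_eq_true z1
  have z2 := Nat.eq_of_beq_eq_true z2
  have z3 := Nat.eq_of_beq_eq_true z3
  rw [z2] at t0 t0'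
  rw [z3] at t1
  have hkn := hp.kn
  have hkn' := hkn
  unfold knOK at hkn'
  simp only [Bool.and_eq_true] at hkn'
  obtain ⟨kn1, kn2, _, kn4⟩ := hkn'
  have kn4 := Nat.eq_of_beq_eq_true kn4
  have hzl : z < y.x.q.tail.length := by
    rw [List.length_tail]
    omega
  have z2' := z2
  have z3' := z3
  rw [hp.q] at z2' z3'
  rw [List.getD_cons_succ] at z3'
  have hqq := incr_getD y.x.q.tail 0 z kn2 hzl
  rw [z2', z3'] at hqq
  have hq1 : q1 ≤ 1000 := by
    have h2 : y.x.q.getLastD 0 = y.x.q.tail.getLastD 0 := by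
      rw [hp.q, List.getLastD_cons]
      rfl
    have := hp.ql
    omega
  have hq1r : (q1 : ℝ) ≤ 1000 := by exact_mod_cast hq1
  have hq0r : (0 : ℝ) ≤ q0 := Nat.cast_nonneg _
  have hqqr : (q0 : ℝ) < q1 := by exact_mod_cast hqq.1
  have hH0r : (62 : ℝ) ≤ y.x.H0 := by exact_mod_cast hp.H0
  have hH01 : y.x.H0 ≤ 200 := hbq.le1.trans (hbq.le2.trans hbq.B1')
  have hH11 : y.x.H1 ≤ 200 := hbq.le2.trans hbq.B1'
  have hH01r : (y.x.H0 : ℝ) ≤ 200 := by exact_mod_cast hH01
  have hH1r : (y.x.H1 : ℝ) ≤ 200 := by exact_mod_cast hH11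
  have hh : 0 ≤ h ∧ h ≤ 1 := ⟨by linarith, by linarith⟩
  have htl : 0 ≤ tl ∧ tl ≤ 1 := ⟨by linarith, by linarith⟩
  have hkl : ((y.x.k.getLastD 0 : ℕ) : ℝ) ≤ 1000 := by exact_mod_cast hp.kl
  have hM1 : ∀ t ∈ M, 0 ≤ t ∧ t ≤ 1 := fun t ht => ⟨(hM t ht).1, by linarith [(hM t ht).2]⟩
  have hMs : 0 ≤ M.sum := Multiset.sum_nonneg fun t ht => (hM t ht).1
  have esum : (h ::ₘ tl ::ₘ M).sum = h + tl + M.sum := by
    rw [Multiset.sum_cons, Multiset.sum_cons]; ring
  -- large totals
  rcases le_or_gt (31 / 5) (h + tl + M.sum) with hs | hs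
  · left
    have := tail_row (h ::ₘ tl ::ₘ M) (by
      intro w hw
      rcases Multiset.mem_cons.mp hw with rfl | hw
      · exact hh
      rcases Multiset.mem_cons.mp hw with rfl | hw
      · exact htl
      · exact hM1 w hw) (by rw [esum]; exact hs) g y.x.rz hp.rz (by
      rcases hg' with hg' | hg'
      · exact Or.inl hg'
      · exact Or.inr (hg'.trans (min_le_right _ _)))
    rwa [esum] at this
  have hWW : Wc (h + tl + M.sum) ≤ What (h + tl + M.sum) :=
    Wc_le_What _ (by linarith) (by linarith)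
  -- classes
  obtain ⟨cl1, cl2, cl3⟩ := cl_of (x := y.x) hp.inc (by rw [hp.k]; simp) (by have := hp.H0; omega) hH01
    (by have := hp.H0; have := hbq.le1; omega) hH11 q0 z q1 (z + 1)
    (Or.inr ⟨y.x.q.tail, hp.q, by
      have := incr_inc y.x.q.tail 0 kn2 (by
        have h2 : y.x.q.getLastD 0 = y.x.q.tail.getLastD 0 := by
          rw [hp.q, List.getLastD_cons]
          rfl
        have := hp.ql
        omega)
      rwa [Nat.cast_zero, zero_div] at this, rfl, hzl, z2'.symm, z3'.symm⟩) y.x.cls ps cs hp.cl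
  have hqne : y.x.q ≠ [] := by rw [hp.q]; simp
  have hpsi : ∀ (c : Cl) (t : ℝ), psi0 y.x c t = psR y.x c t := fun c t => if_neg hqne
  rcases hg' with hgF | hgG
  · -- the functional
    set x : CX := ⟨(y.x.H0 : ℝ) / 200, (y.x.H1 : ℝ) / 200, (q0 : ℝ) / 1000, (y.x.rz : ℝ) / 100000,
      (P.k0 : ℝ) / 1000, P.dB, y.x.cls.map (cdOf y.x)⟩ with hx
    set x' : CX := ⟨(y.x.H0 : ℝ) / 200, (y.x.H1 : ℝ) / 200, (q1 : ℝ) / 1000, (y.x.rz : ℝ) / 100000,
      (P.k0 : ℝ) / 1000, P.dB, y.x.cls.map (cdOf y.x)⟩ with hx'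
    have hxo : CXOK x y.x.H0 y.x.H1 y.x.rz q0 P := ⟨rfl, rfl, rfl, by omega, rfl, rfl, rfl⟩
    have hxo' : CXOK x' y.x.H0 y.x.H1 y.x.rz q1 P := ⟨rfl, rfl, rfl, hq1, rfl, rfl, rfl⟩
    have hF2 : List.Forall₂ (SemB (P.k0 :: P.ku) P.dB x.h0 x.h1 x.q z) cs x.cr := by
      rw [← hp.k, hbq.dB]
      exact cl1.imp fun r c hrc => hrc.1
    have hF2' : List.Forall₂ (SemB (P.k0 :: P.ku) P.dB x'.h0 x'.h1 x'.q (z + 1)) cs x'.cr := by
      rw [← hp.k, hbq.dB]
      exact cl1.imp fun r c hrc => hrc.2.1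
    have hkl2 : kns.length = P.ku.reverse.length := by
      rw [← hp.kk, List.length_map]
    have hiv2 : prepD P cs z q0 P.ku.reverse.length t00 t01 [] (fun p0 =>
        prepD P cs (z + 1) q1 P.ku.reverse.length t10 t11 [] fun p1 =>
        nodeR (finL P.k0 l0 l1 ws) kns (⟨p0, p1, nat_lit 0, []⟩ :: [])
          (6200 - 5 * y.x.H0 - q0) F) = true := by
      rw [← hkl2]
      exact hiv
    have hrev : P.ku.reverse.reverseAux [] = P.ku := by simp
    obtain ⟨t0p, hP0, hiv3⟩ := prepD_sound hbq hxo hF2 P.ku.reverse [] t00 t01 [] _ hrev rfl f00 f01 hiv2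
    obtain ⟨t1p, hP1, hiv4⟩ := prepD_sound hbq hxo' hF2' P.ku.reverse [] t10 t11 [] _ hrev rfl f10 f11 hiv3
    have hB : Bx x x' P.k0 h tl := by
      refine ⟨rfl, rfl, rfl, rfl, rfl, ?_, ?_, ?_, ?_, h0, h1, t0, t1, hp.kp, ?_⟩
      · show (0 : ℝ) ≤ (y.x.H0 : ℝ) / 200
        positivity
      · show (y.x.H1 : ℝ) / 200 ≤ 1
        linarith
      · show (0 : ℝ) ≤ (q0 : ℝ) / 1000
        positivity
      · show (q1 : ℝ) / 1000 ≤ 1
        linarith
      · have h2 : P.k0 ≤ y.x.k.getLastD 0 := by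
          rw [hp.k, List.getLastD_cons]
          have hge : ∀ (l : List ℕ) (b : ℕ), incr b l = true → b ≤ l.getLastD b := by
            intro l
            induction l with
            | nil => intro b _; exact le_rfl
            | cons k l ih =>
              intro b h
              unfold incr at h
              rw [Bool.and_eq_true, Nat.ble_eq] at h
              rw [List.getLastD_cons]
              have := ih k h.2
              omega
          rw [hp.k] at kn1
          unfold incr at kn1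
          rw [Bool.and_eq_true] at kn1
          exact hge P.ku P.k0 kn1.2
        exact h2.trans hp.kl
    have hkdR : kdR kns = kR P.ku.reverse := by
      unfold kdR kR
      rw [← hp.kk, List.map_map]
      rfl
    have hI : Inv x x' h tl (PiF kns.reverse l0) kns P.k0 [] [] [⟨t0p, t1p, 0, []⟩] [⟨0, 0, []⟩] F := by
      refine ⟨List.Forall₂.cons ⟨?_, ?_, rfl, rfl⟩ List.Forall₂.nil, ?_, ?_, dom_init _ _ _,
        List.Forall₂.nil, hF⟩
      · show PS x t0p (kdR kns) 0 0
        rw [hkdR]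
        exact hP0
      · show PS x' t1p (kdR kns) 0 0
        rw [hkdR]
        exact hP1
      · intro g hg
        rw [List.mem_singleton] at hg
        subst hg
        exact ⟨List.Forall₂.nil, fun φ => by simp [sumF]⟩
      · intro g hg w hw
        rw [List.mem_singleton] at hg
        subst hg
        exact absurd hw (Multiset.notMem_zero _)
    have hlimr : ((6200 - 5 * y.x.H0 - q0 : ℕ) : ℝ) = 6200 - 5 * y.x.H0 - q0 := by
      rw [Nat.cast_sub (by omega), Nat.cast_sub (by omega)]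
      push_cast
      ring
    have hU : UOK x x' kns.reverse l0 l1 (lowU y) (lowUs y) tl := by
      refine ⟨fun t ht0 ht1 => ⟨lowU_nonneg y hkn t ht0, ?_⟩, ⟨lowUs_nonneg y hkn tl htl.1, ?_⟩, ?_, ?_⟩
      · have := plz_le_one y.x.k 0 0 y.u t kn1 (by omega) hp.u (by simpa using ht0)
        simpa [lowU] using this
      · have hush : y.us.headD 0 ≤ 1000 := by
          refine Nat.le_of_ble_eq_true (List.all_eq_true.mp hp.us _ ?_)
          rw [hp.ush]
          simp
        have hust : (y.us.tail.all fun b => Nat.ble b 1000) = true := by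
          rw [List.all_eq_true]
          intro b hb
          exact List.all_eq_true.mp hp.us b (List.mem_of_mem_tail hb)
        have := plz_le_one y.x.q.tail 0 (y.us.headD 0) y.us.tail tl kn2 hush hust (by simpa using htl.1)
        simpa [lowUs] using this
      · intro kn hknm hlo t ht0 ht1
        obtain ⟨b1, _, b3⟩ := kf_up kns.reverse P.k0 (y.u.headD 0) P.ku y.u.tail hp.kf kn hknm
        have hgt : (P.k0 : ℝ) / 1000 < t := by
          have : (P.k0 : ℝ) ≤ kn.a := by exact_mod_cast b1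
          linarith [div_le_div_of_nonneg_right this (by norm_num : (0 : ℝ) ≤ 1000)]
        rw [lowU_above hp.k hp.une hgt]
        exact b3 hlo t ht0 ht1
      · intro hl
        exact lowUs_piece hkn hz hp.q hp.ush hp.us hl t0 t0' t1
    have hcl : ∀ c ∈ x.cr, ClOK x x' kns.reverse P.k0 c := by
      intro c hc
      obtain ⟨c', hc', rfl⟩ := List.mem_map.mp hc
      obtain ⟨_, p, hsem⟩ := cl3 c' hc'
      have haff := hsem.aff
      rw [hp.k, kR_cons] at haff
      refine ⟨hsem.lam0, affK_of _ kns.reverse P.k0 (y.u.headD 0) P.ku y.u.tail hp.kf haff.2, ?_, hsem.psi⟩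
      obtain ⟨α, β, hα⟩ := haff.1
      have hk0r : (0 : ℝ) ≤ (P.k0 : ℝ) / 1000 := by positivity
      have hβ : β = 0 := by
        have h2 := hα 0 le_rfl hk0r
        have h3 := hsem.phi0
        linarith
      refine ⟨α, fun t ht0 ht1 => ?_⟩
      rw [hα t ht0 ht1, hβ, add_zero]
    have hKF : ∀ kn ∈ kns.reverse, kn.a < kn.k ∧ kn.k ≤ 1000 := by
      have : ∀ (l : List KN), Link P.k0 l → ∀ kn ∈ l, kn.a < kn.k ∧ kn.k ≤ 1000 := by
        intro l
        induction l with
        | nil => intro _ kn hkn; exact absurd hkn List.not_mem_nil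
        | cons kn0 l ih =>
          intro hl kn hkn
          rcases List.mem_cons.mp hkn with rfl | hkn
          · exact ⟨hl.2.1, hl.2.2.2.1⟩
          · exact ih hl.2.2.2.2 kn hkn
      intro kn hkn
      exact this kns hp.lk kn (List.mem_reverse.mp hkn)
    have hws : ∀ (j wN : ℕ), ws[j]? = some wN → ∃ c, x.cr[j]? = some c ∧ (wN : ℝ) = 20000 * x.dB * c.lam := by
      intro j wN hj
      rw [hp.ws, List.getElem?_map] at hj
      obtain ⟨r, hr, hrw⟩ := Option.map_eq_some_iff.mp hj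
      have key : ∀ (cs : List PB) (cr : List CD), List.Forall₂ (fun r c =>
          SemB y.x.k (y.x.B1 - y.x.B0) ((y.x.H0 : ℝ) / 200) ((y.x.H1 : ℝ) / 200) ((q0 : ℝ) / 1000) z r c ∧
          SemB y.x.k (y.x.B1 - y.x.B0) ((y.x.H0 : ℝ) / 200) ((y.x.H1 : ℝ) / 200) ((q1 : ℝ) / 1000) (z + 1) r c ∧
          (r.wN : ℝ) = 20000 * ((y.x.B1 - y.x.B0 : ℕ) : ℝ) * c.lam) cs cr → ∀ (j : ℕ) (r : PB), cs[j]? = some r →
          ∃ c, cr[j]? = some c ∧ (r.wN : ℝ) = 20000 * ((y.x.B1 - y.x.B0 : ℕ) : ℝ) * c.lam := by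
        intro cs cr hf
        induction hf with
        | nil => intro j r hj; simp at hj
        | cons h1 _ ih =>
          intro j r hj
          cases j with
          | zero =>
            rw [List.getElem?_cons_zero, Option.some.injEq] at hj
            subst hj
            exact ⟨_, List.getElem?_cons_zero, h1.2.2⟩
          | succ j =>
            rw [List.getElem?_cons_succ] at hj
            obtain ⟨c, hc1, hc2⟩ := ih j r hj
            exact ⟨c, by rw [List.getElem?_cons_succ]; exact hc1, hc2⟩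
      obtain ⟨c, hc1, hc2⟩ := key _ _ cl1 j r hr
      refine ⟨c, hc1, ?_⟩
      rw [← hrw, hc2]
      show _ = 20000 * ((P.dB : ℕ) : ℝ) * c.lam
      rw [hbq.dB]
    have hdB : 0 < x.dB := by
      show 0 < P.dB
      rw [hbq.dB]
      have := hbq.B01
      omega
    have hqlt : x.q < x'.q := by
      show (q0 : ℝ) / 1000 < (q1 : ℝ) / 1000
      linarith
    have hCon := nodeR_sound hB (Pi := PiF kns.reverse l0) kns.reverse (ConB x (lowU y) (lowUs y) h tl)
      (fun M hM => Or.inl hM) (finL P.k0 l0 l1 ws)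
      (fun Rs pc gc F lim hI hfin hlim R hR hs =>
        finL_sound hB hKF hU hdB rfl rfl hqlt hcl ws hws Rs pc gc F lim hI hfin hlim R hR hs)
      kns [] [] _ _ F _ rfl hp.lk hI (by
        have := hp.lim
        omega) hiv4 M (by
        intro t ht
        refine ⟨(hM t ht).1, (hM t ht).2.trans (le_of_eq ?_)⟩
        rw [topK_last P.k0 kns P.ku hp.kk, hp.k]) (by
        rw [hlimr]
        linarith)
    have hCon2 : ConB x (lowU y) (lowUs y) h tl M := by
      have e : sumR (pdOf [] []) + M = M := by simp [pdOf, sumR]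
      rwa [e] at hCon
    rcases hCon2 with h2 | ⟨c, hc, h2⟩
    · left
      unfold UX at h2
      rw [hgF]
      have h3 : (1 + 0) * FM (1 ::ₘ h ::ₘ tl ::ₘ M) - Wc (h + tl + M.sum) + (y.x.rz : ℝ) / 100000 ≤ 0 := h2
      linarith
    · right
      obtain ⟨c', hc', rfl⟩ := List.mem_map.mp hc
      obtain ⟨hty, _⟩ := cl3 c' hc'
      refine ⟨c', hc', hty, ?_⟩
      unfold VU VV at h2
      have h3 : (1 + (c'.w : ℝ) / 1000) * FM (1 ::ₘ h ::ₘ tl ::ₘ M) - Wc (h + tl + M.sum)
          + (M.map (phR y.x c')).sum + psi0 y.x c' tl + (c'.rt : ℝ) / 100000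
          - 2 * ((c'.w : ℝ) / 1000) * Real.log (1 + h)
          - (c'.w : ℝ) / 1000 * FM (1 ::ₘ lowUs y tl ::ₘ M.map (lowU y)) ≤ 0 := h2
      rw [hpsi] at h3
      unfold ValU
      rw [hgF]
      linarith
  · -- the additive functional
    have hgo := hg
    unfold gOK at hgo
    simp only [Bool.and_eq_true] at hgo
    obtain ⟨g1', g2', g3', _, g5', g6', g7'⟩ := hgo
    have g5' := Nat.le_of_ble_eq_true g5'
    have g6' := Nat.le_of_ble_eq_true g6'
    have g7' := Nat.le_of_ble_eq_true g7'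
    rcases lt_or_ge (tl + M.sum) ((T1 : ℝ) / 1000) with hT | hT
    · -- small totals
      have hBP : BPOK y.x.B0 y.x.B1 y.x.H0 y.x.H1 (toBP P T1) := by
        refine ⟨hbq.B01, hbq.B1', hbq.dB, hbq.le0, hbq.le1, hbq.le2, hbq.a00, hbq.a01, hbq.a10, hbq.a11,
          hbq.h0, hbq.h1, hp.H0, rfl, ?_⟩
        show (0 : ℝ) ≤ 1
        norm_num
      have hs0 : Sem y.x.k (y.x.B1 - y.x.B0) ((y.x.H0 : ℝ) / 200) ((y.x.H1 : ℝ) / 200) q0 z q1 (z + 1) p0
          (cdOf y.x (tc y.x)).lam (cdOf y.x (tc y.x)).C (cdOf y.x (tc y.x)).φ (cdOf y.x (tc y.x)).ψ :=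
        sem3_of hp.p0 hp.inc (by rw [hp.k]; simp) (by have := hp.H0; omega) hH01
          (by have := hp.H0; have := hbq.le1; omega) hH11 q0 z q1 (z + 1)
          (Or.inr ⟨y.x.q.tail, hp.q, by
            have := incr_inc y.x.q.tail 0 kn2 (by
              have h2 : y.x.q.getLastD 0 = y.x.q.tail.getLastD 0 := by
                rw [hp.q, List.getLastD_cons]
                rfl
              have := hp.ql
              omega)
            rwa [Nat.cast_zero, zero_div] at this, rfl, hzl, z2'.symm, z3'.symm⟩)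
      obtain ⟨c, hc, hval⟩ := gcaseB hBP (c0 := p0 :: ps)
        (fun c => c = cdOf y.x (tc y.x) ∨ ∃ c' ∈ y.x.cls, c'.ty = 3 ∧ c = cdOf y.x c') (by
          intro p hpm
          rcases List.mem_cons.mp hpm with rfl | hpm
          · exact ⟨_, Or.inl rfl, hs0⟩
          · obtain ⟨c', hc', hty, hsem⟩ := cl2 p hpm
            exact ⟨_, Or.inr ⟨c', hc', hty, rfl⟩, hsem⟩) g1' g2' g3' g h tl M h0 h1 t0 t1 hM hT hgG
      rcases hc with rfl | ⟨c', hc', hty, rfl⟩
      · left
        have e1 : (M.map (cdOf y.x (tc y.x)).φ).sum = 0 := by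
          have : M.map (cdOf y.x (tc y.x)).φ = M.map fun _ => (0 : ℝ) :=
            Multiset.map_congr rfl fun t _ => phR_tc y.x t
          rw [this]
          simp
        have e2 : (cdOf y.x (tc y.x)).ψ tl = 0 := psi0_tc y.x tl
        have e3 : (cdOf y.x (tc y.x)).lam = 0 := by
          show (((0 : ℕ) : ℝ)) / 1000 = 0
          simp
        have e4 : (cdOf y.x (tc y.x)).C = (y.x.rz : ℝ) / 100000 := by
          show (((y.x.rz : ℤ) : ℝ)) / 100000 = _
          push_cast
          ring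
        rw [e1, e2, e3, e4] at hval
        linarith
      · right
        refine ⟨c', hc', hty, ?_⟩
        have h3 : (1 + (c'.w : ℝ) / 1000) * g - Wc (h + tl + M.sum)
          + (M.map (phR y.x c')).sum + psi0 y.x c' tl + (c'.rt : ℝ) / 100000
          - 2 * ((c'.w : ℝ) / 1000) * Real.log (1 + h) ≤ 0 := hval
        rw [hpsi] at h3
        have h4 : 0 ≤ FM (1 ::ₘ lowUs y tl ::ₘ M.map (lowU y)) := fm_nonneg _
        have h5 : 0 ≤ (c'.w : ℝ) / 1000 * FM (1 ::ₘ lowUs y tl ::ₘ M.map (lowU y)) := by positivity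
        unfold ValU
        linarith
    · -- large totals
      left
      have hg2 := hgG.trans (min_le_right _ _)
      have hn1 : 300 ≤ 5 * y.x.H0 + T1 := by have := hp.H0; omega
      have w1 := w20_le' (5 * y.x.H0 + T1) hn1 (by omega)
      have w2 := w20_le' 6200 (by norm_num) (by norm_num)
      have k1 : (100000000 + 2000 * (y.x.rz : ℝ)) ≤ (w20 (5 * y.x.H0 + T1) : ℝ) := by exact_mod_cast g6'
      have k2 : (100000000 + 2000 * (y.x.rz : ℝ)) ≤ (w20 6200 : ℝ) := by exact_mod_cast g7'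
      have hgt := gtail (a := ((5 * y.x.H0 + T1 : ℕ) : ℝ) / 1000) (b := ((6200 : ℕ) : ℝ) / 1000)
        (s := h + tl + M.sum) (c := 1 / 2 + (y.x.rz : ℝ) / 100000) (by linarith) (by linarith)
        (by push_cast; linarith) (by push_cast; linarith)
      linarith

/-! ### all intervals -/

lemma locate (ks : List ℕ) : ∀ (a : ℕ) (t : ℝ), ks ≠ [] → (a : ℝ) / 1000 ≤ t →
    t ≤ ((ks.getLastD 0 : ℕ) : ℝ) / 1000 → ∃ z < ks.length, (((a :: ks).getD z 0 : ℕ) : ℝ) / 1000 ≤ t ∧
      (z = 0 ∨ (((a :: ks).getD z 0 : ℕ) : ℝ) / 1000 < t) ∧ t ≤ ((ks.getD z 0 : ℕ) : ℝ) / 1000 := by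
  induction ks with
  | nil => intro a t h; exact absurd rfl h
  | cons k ks ih =>
    intro a t _ h0 h1
    rcases le_or_gt t ((k : ℝ) / 1000) with h | h
    · exact ⟨0, by simp, by simpa using h0, Or.inl rfl, by simpa using h⟩
    · cases ks with
      | nil =>
        simp only [List.getLastD_cons, List.getLastD_nil] at h1
        linarith
      | cons k' ks =>
        obtain ⟨z, hz, z1, z2, z3⟩ := ih k t (by simp) h.le (by simpa using h1)
        refine ⟨z + 1, by simpa using hz, by simpa using z1, Or.inr ?_, by simpa using z3⟩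
        rcases z2 with rfl | z2
        · simpa using h
        · simpa using z2

/-- the claim for the first `n` intervals -/
def AllIv (y : BoxB) : ℕ → Prop
  | 0 => True
  | n + 1 => AllIv y n ∧ IvP y n

lemma AllIv_get {y : BoxB} (n : ℕ) : AllIv y n → ∀ z < n, IvP y z := by
  induction n with
  | zero => intro _ z hz; omega
  | succ n ih =>
    intro h z hz
    rcases Nat.lt_succ_iff_lt_or_eq.mp hz with h1 | rfl
    · exact ih h.1 z h1
    · exact h.2

/-- (III) of a box -/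
theorem III_of {y : BoxB} {P : BQ} {cs : List PB} {ps : List PC} {p0 : PC} {kns : List KN} {ws : List ℕ}
    (hc : parC y P cs ps p0 kns ws = true) {n : ℕ} (hn : y.x.q.length = n + 2) (h : AllIv y (n + 1)) :
    PropIIIB y := by
  have hp := par_of hc
  intro u tl g M h0 h1 hM t0 t1 hg
  obtain ⟨z, hz, z1, z2, z3⟩ := locate y.x.q.tail 0 tl (by
      intro hcon
      have := congrArg List.length hcon
      rw [List.length_tail, hn] at this
      simp at this) (by simpa using t0) (by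
      refine t1.trans (le_of_eq ?_)
      rw [hp.q, List.getLastD_cons]
      rfl)
  rw [← hp.q] at z1 z2
  have e3 : y.x.q.tail.getD z 0 = y.x.q.getD (z + 1) 0 := by
    rw [hp.q, List.getD_cons_succ]
    rfl
  rw [e3] at z3
  have hzn : z < n + 1 := by
    rw [List.length_tail, hn] at hz
    omega
  rcases AllIv_get _ h z hzn u tl g M h0 h1 hM z1 z2 z3 (by
    rcases hg with hg | hg
    · exact Or.inl hg
    · exact Or.inr hg.1) with h2 | ⟨c, hc, hty, h2⟩
  · exact Or.inl h2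
  · exact Or.inr fun τ _ => ⟨c, hc, Or.inr ⟨hty, h2⟩⟩

end CB
end Pool.Agent.Lib.MP_6947cd_al
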