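import Pool.Agent.Lib.MP_6947cd_al.L.CellBT

/-!
Problem MP_6947cd_al (Chollet).  CASE B, rows `j`: the trees of distributions and their checks.
-/

set_option autoImplicit false

namespace Pool.Agent.Lib.MP_6947cd_al
namespace CB

open Ent Ent.Pk Fr Fr.WT CA

/-- a leaf -/
structure PL where
  V : ℕ
  X0 : ℕ
  Xo : ℕ
  Xs : ℕ
  X : List ℕ

/-- the leaves with their paths -/
def LvP : PF → ℕ → List ℕ → ℕ → List (List ℕ × PL)
  | .nil, _, _, _ => []
  | .leaf V X0 Xo Xs X, 0, vs, _ => [(vs, ⟨V, X0, Xo, Xs, X⟩)]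
  | .leaf _ _ _ _ _, _ + 1, _, _ => []
  | .cons _ _, 0, _, _ => []
  | .cons a b, d + 1, vs, i => LvP a d (i :: vs) 0 ++ LvP b (d + 1) vs (i + 1)

/-- traversal -/
noncomputable def pfT (ck : List ℕ → PL → Bool) (lo hi : ℕ) (F : PF) :
    ℕ → List ℕ → ℕ → ℕ → (ℕ → Bool) → Bool :=
  @PF.rec (fun _ => ℕ → List ℕ → ℕ → ℕ → (ℕ → Bool) → Bool)
    (fun _ _ _ cnt k => k cnt)
    (fun V X0 Xo Xs X d vs _ cnt k => @Nat.rec (fun _ => Bool)
      (cond (Nat.ble hi cnt) true (cond (Nat.ble lo cnt)
        (cond (ck vs ⟨V, X0, Xo, Xs, X⟩) (frc (Nat.succ cnt) k) false)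
        (frc (Nat.succ cnt) k))) (fun _ _ => k cnt) d)
    (fun _ _ iha ihb d vs i cnt k => @Nat.rec (fun _ => Bool) (k cnt)
      (fun d' _ => iha d' (i :: vs) (nat_lit 0) cnt fun cnt' => frc (Nat.succ i) fun i' =>
        ihb (Nat.succ d') vs i' cnt' k) d) F

lemma pfT_sound (ck : List ℕ → PL → Bool) (lo hi : ℕ) (F : PF) :
    ∀ (d : ℕ) (vs : List ℕ) (i cnt : ℕ) (k : ℕ → Bool),
    pfT ck lo hi F d vs i cnt k = true →
    (∀ n, lo ≤ cnt + n → cnt + n < hi → ∀ p, (LvP F d vs i)[n]? = some p → ck p.1 p.2 = true) ∧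
    (cnt + (LvP F d vs i).length ≤ hi → k (cnt + (LvP F d vs i).length) = true) := by
  induction F with
  | nil =>
    intro d vs i cnt k h
    have hL : LvP .nil d vs i = [] := by simp [LvP]
    rw [hL]
    exact ⟨fun n _ _ p hp => by simp at hp, fun _ => h⟩
  | leaf V X0 Xo Xs X =>
    intro d vs i cnt k h
    cases d with
    | succ d =>
      have hL : LvP (.leaf V X0 Xo Xs X) (d + 1) vs i = [] := by simp [LvP]
      rw [hL]
      exact ⟨fun n _ _ p hp => by simp at hp, fun _ => h⟩
    | zero =>
      have e : pfT ck lo hi (.leaf V X0 Xo Xs X) 0 vs i cnt k =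
        (cond (Nat.ble hi cnt) true (cond (Nat.ble lo cnt)
        (cond (ck vs ⟨V, X0, Xo, Xs, X⟩) (frc (Nat.succ cnt) k) false)
        (frc (Nat.succ cnt) k))) := rfl
      rw [e] at h
      have hL : LvP (.leaf V X0 Xo Xs X) 0 vs i = [(vs, ⟨V, X0, Xo, Xs, X⟩)] := rfl
      rw [hL]
      cases c1 : Nat.ble hi cnt with
      | true =>
        have := Nat.le_of_ble_eq_true c1
        exact ⟨fun n _ h2 => by omega, fun h2 => by simp at h2; omega⟩
      | false =>
        rw [c1, cond_false] at h
        cases c2 : Nat.ble lo cnt with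
        | false =>
          rw [c2, cond_false, frc_eq] at h
          have hlt : ¬ (lo ≤ cnt) := fun hcon => by
            have := Nat.ble_eq_true_of_le hcon
            rw [c2] at this
            exact absurd this (by simp)
          refine ⟨fun n h1 _ p hp => ?_, fun _ => h⟩
          cases n with
          | zero => exact absurd h1 hlt
          | succ n => simp at hp
        | true =>
          rw [c2, cond_true] at h
          obtain ⟨h1, h2⟩ := cond_eq_true h
          rw [frc_eq] at h2
          refine ⟨fun n _ _ p hp => ?_, fun _ => h2⟩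
          cases n with
          | zero =>
            rw [List.getElem?_cons_zero, Option.some.injEq] at hp
            subst hp
            exact h1
          | succ n => simp at hp
  | cons a b iha ihb =>
    intro d vs i cnt k h
    cases d with
    | zero =>
      have hL : LvP (.cons a b) 0 vs i = [] := by simp [LvP]
      rw [hL]
      exact ⟨fun n _ _ p hp => by simp at hp, fun _ => h⟩
    | succ d =>
      have e : pfT ck lo hi (.cons a b) (d + 1) vs i cnt k =
        pfT ck lo hi a d (i :: vs) (nat_lit 0) cnt fun cnt' => frc (Nat.succ i) fun i' =>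
        pfT ck lo hi b (Nat.succ d) vs i' cnt' k := rfl
      rw [e] at h
      have hL : LvP (.cons a b) (d + 1) vs i = LvP a d (i :: vs) 0 ++ LvP b (d + 1) vs (i + 1) := rfl
      rw [hL]
      obtain ⟨h1, h2⟩ := iha d (i :: vs) 0 cnt _ h
      by_cases hle : cnt + (LvP a d (i :: vs) 0).length ≤ hi
      · have h3 := h2 hle
        rw [frc_eq] at h3
        obtain ⟨h4, h5⟩ := ihb (d + 1) vs (i + 1) _ _ h3
        refine ⟨fun n g1 g2 p hp => ?_, fun g => ?_⟩
        · rcases Nat.lt_or_ge n (LvP a d (i :: vs) 0).length with hn | hn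
          · rw [List.getElem?_append_left hn] at hp
            exact h1 n g1 g2 p hp
          · rw [List.getElem?_append_right hn] at hp
            exact h4 _ (by omega) (by omega) p hp
        · rw [List.length_append] at g ⊢
          have := h5 (by rw [Nat.add_assoc]; exact g)
          rwa [Nat.add_assoc] at this
      · refine ⟨fun n g1 g2 p hp => ?_, fun g => ?_⟩
        · rw [List.getElem?_append_left (by omega)] at hp
          exact h1 n g1 g2 p hp
        · rw [List.length_append] at g
          omega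

/-- the leaves with numbers in `[lo, hi)` are checked -/
def PfP (ck : List ℕ → PL → Bool) (F : PF) (d lo hi : ℕ) : Prop :=
  ∀ n, lo ≤ n → n < hi → ∀ p, (LvP F d [] 0)[n]? = some p → ck p.1 p.2 = true

/-- a chunk of a table -/
noncomputable def pfC (ck : List ℕ → PL → Bool) (F : PF) (d lo hi : ℕ) : Bool :=
  pfT ck lo hi F d [] (nat_lit 0) (nat_lit 0) fun _ => true

lemma pfC_sound {ck : List ℕ → PL → Bool} {F : PF} {d lo hi : ℕ} (h : pfC ck F d lo hi = true) :
    PfP ck F d lo hi := by
  intro n h1 h2 p hp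
  exact (pfT_sound ck lo hi F d [] 0 0 _ h).1 n (by omega) (by omega) p hp

lemma PfP.trans {ck : List ℕ → PL → Bool} {F : PF} {d a b c : ℕ} (h1 : PfP ck F d a b)
    (h2 : PfP ck F d b c) : PfP ck F d a c := by
  intro n g1 g2
  rcases Nat.lt_or_ge n b with h | h
  · exact h1 n g1 h
  · exact h2 n h g2

lemma PfP.all {ck : List ℕ → PL → Bool} {F : PF} {d hi : ℕ} (h : PfP ck F d 0 hi)
    (hl : (LvP F d [] 0).length ≤ hi) : ∀ p ∈ LvP F d [] 0, ck p.1 p.2 = true := by
  intro p hp
  obtain ⟨n, hn, rfl⟩ := List.getElem_of_mem hp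
  exact h n (Nat.zero_le _) (by omega) _ (List.getElem?_eq_getElem hn)

/-- from the leaves to the meaning -/
lemma PfS_of {Pi : List ℕ → ℕ → ℕ → List ℕ → Prop} (F : PF) : ∀ (d : ℕ) (Ns : List ℕ) (i : ℕ),
    (∀ p ∈ LvP F d Ns i, Pi p.1 p.2.V p.2.Xs p.2.X) → PfS Pi F d Ns i := by
  induction F with
  | nil => intro d Ns i _; exact trivial
  | leaf V X0 Xo Xs X =>
    intro d Ns i h hd
    subst hd
    exact h _ List.mem_cons_self
  | cons a b iha ihb =>
    intro d Ns i h
    cases d with
    | zero => exact trivial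
    | succ d =>
      refine ⟨?_, ?_⟩
      · exact iha d (i :: Ns) 0 fun p hp => h p (List.mem_append_left _ hp)
      · exact ihb (d + 1) Ns (i + 1) fun p hp => h p (List.mem_append_right _ hp)

/-! ### the check of a distribution -/

/-- the types which occur -/
noncomputable def filtC (Ns : List ℕ) : List ℕ → (List ℕ → List ℕ → Bool) → Bool :=
  @List.rec ℕ (fun _ => List ℕ → (List ℕ → List ℕ → Bool) → Bool) (fun _ k => k [] [])
    (fun N _ ih X k => @List.rec ℕ (fun _ => Bool) (k [] []) (fun x X' _ =>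
      cond (Nat.beq N (nat_lit 0)) (ih X' k) (cond (Nat.beq x (nat_lit 0)) (ih X' k)
        (ih X' fun m Xf => k (N :: m) (x :: Xf)))) X) Ns

/-- weights only on usable pieces -/
noncomputable def useC (los : List ℕ) : List ℕ → Bool :=
  @List.rec ℕ (fun _ => List ℕ → Bool) (fun _ => true)
    (fun lo _ ih X => @List.rec ℕ (fun _ => Bool) true (fun x X' _ =>
      cond (Nat.beq x (nat_lit 0)) (ih X') (cond (Nat.beq lo (nat_lit 0)) false (ih X'))) X) los

/-- the check of a distribution which is not trivial -/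
noncomputable def piC0 (los : List ℕ) (lus0 : ℕ) (Ns : List ℕ) (p : PL) : Bool :=
  @PL.rec (fun _ => Bool) (fun V X0 Xo Xs X => cond (useC los X) (filtC Ns X fun m Xf =>
    cond (Nat.beq Xs (nat_lit 0))
      (cond (Nat.ble (nat_lit 67000000) (ldot (nat_lit 1 :: m) (Xo :: Xf) (nat_lit 0)))
        (psiOK (nat_lit 1 :: m) (Xo :: Xf) X0 V) false)
      (cond (Nat.beq lus0 (nat_lit 0)) false
        (cond (Nat.ble (nat_lit 67000000) (ldot (nat_lit 1 :: nat_lit 1 :: m) (Xo :: Xs :: Xf) (nat_lit 0)))
          (psiOK (nat_lit 1 :: nat_lit 1 :: m) (Xo :: Xs :: Xf) X0 V) false))) false) p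

/-- the check; `V = 0`: nothing to show -/
noncomputable def piC (los : List ℕ) (lus0 : ℕ) (Ns : List ℕ) (p : PL) : Bool :=
  cond (@PL.rec (fun _ => Bool) (fun V _ _ Xs X => cond (Nat.beq V (nat_lit 0)) (cond (Nat.beq Xs (nat_lit 0))
    (useC los X) false) false) p) true (piC0 los lus0 Ns p)

lemma useC_sound (kns : List KN) : ∀ X : List ℕ, useC (kns.map fun kn => kn.lo) X = true → UseX kns X := by
  induction kns with
  | nil => intro X _; cases X <;> exact trivial
  | cons kn kns ih =>
    intro X h
    cases X with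
    | nil => exact trivial
    | cons x X =>
      have e : useC ((kn :: kns).map fun kn => kn.lo) (x :: X) =
        cond (Nat.beq x (nat_lit 0)) (useC (kns.map fun kn => kn.lo) X)
          (cond (Nat.beq kn.lo (nat_lit 0)) false (useC (kns.map fun kn => kn.lo) X)) := rfl
      rw [e] at h
      cases c0 : Nat.beq x (nat_lit 0) with
      | true =>
        rw [c0, cond_true] at h
        have hx : x = 0 := Nat.eq_of_beq_eq_true c0
        exact ⟨fun hcon => absurd hx hcon, ih X h⟩
      | false =>
        rw [c0, cond_false] at h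
        cases c1 : Nat.beq kn.lo (nat_lit 0) with
        | true => rw [c1, cond_true] at h; exact absurd h (by simp)
        | false =>
          rw [c1, cond_false] at h
          refine ⟨fun _ hcon => ?_, ih X h⟩
          rw [hcon] at c1
          exact absurd c1 (by decide)

lemma wlog_nil (Rs : List (Multiset ℝ)) : wlog [] Rs = 0 := by cases Rs <;> rfl

lemma wlog_nonneg (Rs : List (Multiset ℝ)) : ∀ X : List ℕ, PosX X Rs → 0 ≤ wlog X Rs := by
  induction Rs with
  | nil => intro X _; cases X <;> exact le_rfl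
  | cons R Rs ih =>
    intro X h
    cases X with
    | nil => rw [wlog_nil]
    | cons x X =>
      obtain ⟨h1, _, h3⟩ : (∀ z ∈ R, 0 ≤ z ∧ z ≤ 1) ∧ ((x :: X).headD 0 ≠ 0 → ∀ z ∈ R, 0 < z) ∧ PosX X Rs := h
      have e : wlog (x :: X) (R :: Rs) = x * (R.map fun z => -Real.log z).sum + wlog X Rs := rfl
      rw [e]
      have h4 : 0 ≤ (R.map fun z => -Real.log z).sum := Multiset.sum_nonneg (by
        intro y hy
        obtain ⟨z, hz, rfl⟩ := Multiset.mem_map.mp hy
        have := Real.log_nonpos (h1 z hz).1 (h1 z hz).2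
        linarith)
      have := ih X h3
      positivity

lemma filtC_sound (Rs : List (Multiset ℝ)) : ∀ (X : List ℕ) (k : List ℕ → List ℕ → Bool), PosX X Rs →
    filtC (Rs.map Multiset.card) X k = true → ∃ (m Xf : List ℕ) (Rf : List (Multiset ℝ)) (rest : Multiset ℝ),
      k m Xf = true ∧ Rf.map Multiset.card = m ∧ Rs.sum = Rf.sum + rest ∧ (∀ R ∈ Rf, ∀ z ∈ R, (0 : ℝ) < z) ∧
      logS Rf Xf = -wlog X Rs := by
  induction Rs with
  | nil =>
    intro X k _ h
    refine ⟨[], [], [], 0, h, rfl, by simp, by simp, ?_⟩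
    cases X <;> simp [logS, wlog]
  | cons R Rs ih =>
    intro X k hp h
    cases X with
    | nil =>
      refine ⟨[], [], [], (R :: Rs).sum, h, rfl, by simp, by simp, ?_⟩
      rw [wlog_nil]
      simp [logS]
    | cons x X =>
      obtain ⟨h1, h2, h3⟩ : (∀ z ∈ R, 0 ≤ z ∧ z ≤ 1) ∧ (x ≠ 0 → ∀ z ∈ R, 0 < z) ∧ PosX X Rs := hp
      have e : filtC ((R :: Rs).map Multiset.card) (x :: X) k =
        cond (Nat.beq R.card (nat_lit 0)) (filtC (Rs.map Multiset.card) X k)
        (cond (Nat.beq x (nat_lit 0)) (filtC (Rs.map Multiset.card) X k)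
        (filtC (Rs.map Multiset.card) X fun m Xf => k (R.card :: m) (x :: Xf))) := rfl
      rw [e] at h
      have ew : wlog (x :: X) (R :: Rs) = x * (R.map fun z => -Real.log z).sum + wlog X Rs := rfl
      cases c0 : Nat.beq R.card (nat_lit 0) with
      | true =>
        rw [c0, cond_true] at h
        have hR : R = 0 := Multiset.card_eq_zero.mp (Nat.eq_of_beq_eq_true c0)
        obtain ⟨m, Xf, Rf, rest, g1, g2, g3, g4, g5⟩ := ih X k h3 h
        refine ⟨m, Xf, Rf, rest, g1, g2, ?_, g4, ?_⟩
        · rw [List.sum_cons, g3, hR, zero_add]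
        · rw [g5, ew, hR]
          simp
      | false =>
        rw [c0, cond_false] at h
        cases c1 : Nat.beq x (nat_lit 0) with
        | true =>
          rw [c1, cond_true] at h
          have hx : x = 0 := Nat.eq_of_beq_eq_true c1
          obtain ⟨m, Xf, Rf, rest, g1, g2, g3, g4, g5⟩ := ih X k h3 h
          refine ⟨m, Xf, Rf, R + rest, g1, g2, ?_, g4, ?_⟩
          · rw [List.sum_cons, g3]
            abel
          · rw [g5, ew, hx]
            simp
        | false =>
          rw [c1, cond_false] at h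
          have hx : x ≠ 0 := by
            intro hcon
            rw [hcon] at c1
            exact absurd c1 (by decide)
          obtain ⟨m, Xf, Rf, rest, g1, g2, g3, g4, g5⟩ := ih X _ h3 h
          refine ⟨R.card :: m, x :: Xf, R :: Rf, rest, g1, ?_, ?_, ?_, ?_⟩
          · rw [List.map_cons, g2]
          · rw [List.sum_cons, List.sum_cons, g3]
            abel
          · intro R' hR'
            rcases List.mem_cons.mp hR' with rfl | hR'
            · exact h2 hx
            · exact g4 R' hR'
          · have e3 : logS (R :: Rf) (x :: Xf) = (x : ℝ) * (R.map Real.log).sum + logS Rf Xf := rfl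
            rw [e3, g5, ew]
            have e4 : (R.map fun z => -Real.log z).sum = -(R.map Real.log).sum := by
              clear * -
              induction R using Multiset.induction with
              | empty => simp
              | cons a R ih =>
                rw [Multiset.map_cons, Multiset.sum_cons, ih, Multiset.map_cons, Multiset.sum_cons]
                ring
            rw [e4]
            ring

/-- A CHECKED DISTRIBUTION. -/
theorem piC0_sound {KF : List KN} {lus0 : ℕ} {Ns : List ℕ} {p : PL}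
    (h : piC0 (KF.map fun kn => kn.lo) lus0 Ns p = true) : PiF KF lus0 Ns p.V p.Xs p.X := by
  obtain ⟨V, X0, Xo, Xs, X⟩ := p
  simp only
  have e : piC0 (KF.map fun kn => kn.lo) lus0 Ns ⟨V, X0, Xo, Xs, X⟩ =
    cond (useC (KF.map fun kn => kn.lo) X) (filtC Ns X fun m Xf =>
    cond (Nat.beq Xs (nat_lit 0))
      (cond (Nat.ble (nat_lit 67000000) (ldot (nat_lit 1 :: m) (Xo :: Xf) (nat_lit 0)))
        (psiOK (nat_lit 1 :: m) (Xo :: Xf) X0 V) false)
      (cond (Nat.beq lus0 (nat_lit 0)) false
        (cond (Nat.ble (nat_lit 67000000) (ldot (nat_lit 1 :: nat_lit 1 :: m) (Xo :: Xs :: Xf) (nat_lit 0)))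
          (psiOK (nat_lit 1 :: nat_lit 1 :: m) (Xo :: Xs :: Xf) X0 V) false))) false := rfl
  rw [e] at h
  obtain ⟨hu, h⟩ := cond_eq_true h
  refine ⟨?_, useC_sound KF X hu, ?_⟩
  · intro σ Rs rest hcard hσ0 hσ1 hσ hpos hrest
    subst hcard
    obtain ⟨m, Xf, Rf, rf, g1, g2, g3, g4, g5⟩ := filtC_sound Rs X _ hpos h
    have hwn := wlog_nonneg Rs X hpos
    cases c0 : Nat.beq Xs (nat_lit 0) with
    | true =>
      rw [c0, cond_true] at g1
      obtain ⟨k1, k2⟩ := cond_eq_true g1
      rw [ldot0] at k1
      have k1' : 67000000 ≤ Pk.dotN (1 :: m) (Xo :: Xf) := Nat.le_of_ble_eq_true k1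
      have hXs : Xs = 0 := Nat.eq_of_beq_eq_true c0
      have key := psi_sound (1 :: m) (Xo :: Xf) X0 V k2 ({1} :: Rf) (by
          rw [List.map_cons, g2, Multiset.card_singleton]) (by
          intro R hR z hz
          rcases List.mem_cons.mp hR with rfl | hR
          · rw [Multiset.mem_singleton.mp hz]; norm_num
          · exact g4 R hR z hz) (σ ::ₘ (rf + rest))
      have e1 : ({1} :: Rf : List (Multiset ℝ)).sum + (σ ::ₘ (rf + rest)) = 1 ::ₘ σ ::ₘ (Rs.sum + rest) := by
        rw [List.sum_cons, g3]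
        simp only [← Multiset.singleton_add]
        abel
      rw [e1] at key
      have e2 : logS ({1} :: Rf) (Xo :: Xf) = (Xo : ℝ) * (({1} : Multiset ℝ).map Real.log).sum + logS Rf Xf := rfl
      rw [e2, Multiset.map_singleton, Multiset.sum_singleton, Real.log_one, mul_zero, zero_add, g5] at key
      refine le_trans ?_ key
      rw [hXs, Nat.cast_zero, zero_mul, zero_add, neg_div, sub_eq_add_neg]
      have hT : (67000000 : ℝ) ≤ ((Pk.dotN (1 :: m) (Xo :: Xf) : ℕ) : ℝ) := by exact_mod_cast k1'
      have h3 : wlog X Rs / ((Pk.dotN (1 :: m) (Xo :: Xf) : ℕ) : ℝ) ≤ wlog X Rs / 67000000 :=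
        div_le_div_of_nonneg_left hwn (by norm_num) hT
      linarith
    | false =>
      rw [c0, cond_false] at g1
      have hXs : Xs ≠ 0 := by
        intro hcon
        rw [hcon] at c0
        exact absurd c0 (by decide)
      cases c1 : Nat.beq lus0 (nat_lit 0) with
      | true => rw [c1, cond_true] at g1; exact absurd g1 (by simp)
      | false =>
        rw [c1, cond_false] at g1
        obtain ⟨k1, k2⟩ := cond_eq_true g1
        rw [ldot0] at k1
        have k1' : 67000000 ≤ Pk.dotN (1 :: 1 :: m) (Xo :: Xs :: Xf) := Nat.le_of_ble_eq_true k1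
        have key := psi_sound (1 :: 1 :: m) (Xo :: Xs :: Xf) X0 V k2 ({1} :: {σ} :: Rf) (by
            rw [List.map_cons, List.map_cons, g2, Multiset.card_singleton, Multiset.card_singleton]) (by
            intro R hR z hz
            rcases List.mem_cons.mp hR with rfl | hR
            · rw [Multiset.mem_singleton.mp hz]; norm_num
            · rcases List.mem_cons.mp hR with rfl | hR
              · rw [Multiset.mem_singleton.mp hz]; exact hσ hXs
              · exact g4 R hR z hz) (rf + rest)
        have e1 : ({1} :: {σ} :: Rf : List (Multiset ℝ)).sum + (rf + rest) = 1 ::ₘ σ ::ₘ (Rs.sum + rest) := by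
          rw [List.sum_cons, List.sum_cons, g3]
          simp only [← Multiset.singleton_add]
          abel
        rw [e1] at key
        have e2 : logS ({1} :: {σ} :: Rf) (Xo :: Xs :: Xf) = (Xo : ℝ) * (({1} : Multiset ℝ).map Real.log).sum
            + ((Xs : ℝ) * (({σ} : Multiset ℝ).map Real.log).sum + logS Rf Xf) := rfl
        rw [e2, Multiset.map_singleton, Multiset.sum_singleton, Real.log_one, mul_zero, zero_add,
          Multiset.map_singleton, Multiset.sum_singleton, g5] at key
        refine le_trans ?_ key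
        have hσn : 0 ≤ -Real.log σ := by
          have := Real.log_nonpos hσ0 hσ1
          linarith
        have hT : (67000000 : ℝ) ≤ ((Pk.dotN (1 :: 1 :: m) (Xo :: Xs :: Xf) : ℕ) : ℝ) := by exact_mod_cast k1'
        have h3 : ((Xs : ℝ) * -Real.log σ + wlog X Rs) / ((Pk.dotN (1 :: 1 :: m) (Xo :: Xs :: Xf) : ℕ) : ℝ)
            ≤ ((Xs : ℝ) * -Real.log σ + wlog X Rs) / 67000000 :=
          div_le_div_of_nonneg_left (by positivity) (by norm_num) hT
        have h4 : ((Xs : ℝ) * Real.log σ + -wlog X Rs) / ((Pk.dotN (1 :: 1 :: m) (Xo :: Xs :: Xf) : ℕ) : ℝ)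
            = -(((Xs : ℝ) * -Real.log σ + wlog X Rs) / ((Pk.dotN (1 :: 1 :: m) (Xo :: Xs :: Xf) : ℕ) : ℝ)) := by
          rw [← neg_div]
          congr 1
          ring
        rw [h4]
        linarith
  · intro hXs hcon
    -- take any multisets to read the rest of the check
    have hfin : ∀ (Ns X : List ℕ) (k : List ℕ → List ℕ → Bool), filtC Ns X k = true → ∃ m Xf, k m Xf = true := by
      intro Ns
      induction Ns with
      | nil => intro X k h; exact ⟨_, _, h⟩
      | cons N Ns ih =>
        intro X k h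
        cases X with
        | nil => exact ⟨_, _, h⟩
        | cons x X =>
          have e : filtC (N :: Ns) (x :: X) k = cond (Nat.beq N (nat_lit 0)) (filtC Ns X k)
            (cond (Nat.beq x (nat_lit 0)) (filtC Ns X k) (filtC Ns X fun m Xf => k (N :: m) (x :: Xf))) := rfl
          rw [e] at h
          cases c0 : Nat.beq N (nat_lit 0) with
          | true => rw [c0, cond_true] at h; exact ih X k h
          | false =>
            rw [c0, cond_false] at h
            cases c1 : Nat.beq x (nat_lit 0) with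
            | true => rw [c1, cond_true] at h; exact ih X k h
            | false =>
              rw [c1, cond_false] at h
              obtain ⟨m, Xf, h⟩ := ih X _ h
              exact ⟨_, _, h⟩
    obtain ⟨m, Xf, g⟩ := hfin _ _ _ h
    have c0 : Nat.beq Xs (nat_lit 0) = false := by
      cases c : Nat.beq Xs (nat_lit 0) with
      | true => exact absurd (Nat.eq_of_beq_eq_true c) hXs
      | false => rfl
    rw [c0, cond_false, hcon] at g
    have : Nat.beq 0 (nat_lit 0) = true := rfl
    rw [this, cond_true] at g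
    exact absurd g (by simp)

lemma fm_nonneg (S : Multiset ℝ) : 0 ≤ FM (1 ::ₘ S) := by
  obtain ⟨n, b, hb⟩ := exists_row (1 ::ₘ S)
  obtain ⟨i, _, hi⟩ := Multiset.mem_map.mp
    (by rw [hb]; exact Multiset.mem_cons_self _ _ : (1 : ℝ) ∈ (Finset.univ : Finset (Fin n)).val.map b)
  rw [← hb, ← F_eq_FM]
  exact F_nonneg b i hi

theorem piC_sound {KF : List KN} {lus0 : ℕ} {Ns : List ℕ} {p : PL}
    (h : piC (KF.map fun kn => kn.lo) lus0 Ns p = true) : PiF KF lus0 Ns p.V p.Xs p.X := by
  unfold piC at h
  cases c0 : (@PL.rec (fun _ => Bool) (fun V _ _ Xs X => cond (Nat.beq V (nat_lit 0))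
    (cond (Nat.beq Xs (nat_lit 0)) (useC (KF.map fun kn => kn.lo) X) false) false) p) with
  | false =>
    rw [c0, cond_false] at h
    exact piC0_sound h
  | true =>
    obtain ⟨V, X0, Xo, Xs, X⟩ := p
    obtain ⟨c1, c2⟩ := cond_eq_true c0
    obtain ⟨c3, c4⟩ := cond_eq_true c2
    have hV : V = 0 := Nat.eq_of_beq_eq_true c1
    have hXs : Xs = 0 := Nat.eq_of_beq_eq_true c3
    subst hV hXs
    refine ⟨?_, useC_sound KF X c4, fun hcon => absurd rfl hcon⟩
    intro σ Rs rest _ _ _ _ hpos _
    have hwn := wlog_nonneg Rs X hpos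
    have h2 := fm_nonneg (σ ::ₘ (Rs.sum + rest))
    rw [Nat.cast_zero, zero_div, zero_mul, zero_add, zero_sub]
    have : 0 ≤ wlog X Rs / 67000000 := by positivity
    linarith

/-- A TREE OF DISTRIBUTIONS. -/
theorem pftab_sound {KF : List KN} {lus0 hi d : ℕ} {F : PF}
    (h : PfP (piC (KF.map fun kn => kn.lo) lus0) F d 0 hi) (hl : (LvP F d [] 0).length ≤ hi) :
    PfS (PiF KF lus0) F d [] 0 :=
  PfS_of F d [] 0 fun p hp => piC_sound (h.all hl p hp)

end CB
end Pool.Agent.Lib.MP_6947cd_al
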