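import Pool.Agent.Lib.MP_6947cd_al.L.CellBN

/-!
Problem MP_6947cd_al (Chollet).  CASE B, rows `j`: the theorems for the generated data.
-/

set_option autoImplicit false

namespace Pool.Agent.Lib.MP_6947cd_al
namespace CB

open Ent Ent.Pk Fr Fr.WT CA

/-- number of leaves -/
noncomputable def cntL (F : FT) : ℕ → ℕ → (ℕ → Bool) → Bool :=
  @FT.rec (fun _ => ℕ → ℕ → (ℕ → Bool) → Bool) (fun _ c k => k c)
    (fun _ d c k => @Nat.rec (fun _ => Bool) (frc (Nat.succ c) k) (fun _ _ => k c) d)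
    (fun _ _ iha ihb d c k => @Nat.rec (fun _ => Bool) (k c)
      (fun d' _ => iha d' c fun c' => ihb (Nat.succ d') c' k) d) F

lemma cntL_eq (F : FT) : ∀ (d : ℕ) (vs : List ℕ) (i c : ℕ) (k : ℕ → Bool),
    cntL F d c k = k (c + (Lv F d vs i).length) := by
  induction F with
  | nil => intro d vs i c k; simp [cntL, Lv]
  | leaf l =>
    intro d vs i c k
    cases d with
    | zero =>
      have e : cntL (.leaf l) 0 c k = frc (Nat.succ c) k := rfl
      rw [e, frc_eq]
      simp [Lv]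
    | succ d => simp [cntL, Lv]
  | cons a b iha ihb =>
    intro d vs i c k
    cases d with
    | zero => simp [cntL, Lv]
    | succ d =>
      have e : cntL (.cons a b) (d + 1) c k = cntL a d c fun c' => cntL b (d + 1) c' k := rfl
      rw [e, iha d (i :: vs) 0 c, ihb (d + 1) vs (i + 1)]
      have e2 : Lv (.cons a b) (d + 1) vs i = Lv a d (i :: vs) 0 ++ Lv b (d + 1) vs (i + 1) := rfl
      rw [e2, List.length_append, add_assoc]

noncomputable def cntP (F : PF) : ℕ → ℕ → (ℕ → Bool) → Bool :=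
  @PF.rec (fun _ => ℕ → ℕ → (ℕ → Bool) → Bool) (fun _ c k => k c)
    (fun _ _ _ _ _ d c k => @Nat.rec (fun _ => Bool) (frc (Nat.succ c) k) (fun _ _ => k c) d)
    (fun _ _ iha ihb d c k => @Nat.rec (fun _ => Bool) (k c)
      (fun d' _ => iha d' c fun c' => ihb (Nat.succ d') c' k) d) F

lemma cntP_eq (F : PF) : ∀ (d : ℕ) (vs : List ℕ) (i c : ℕ) (k : ℕ → Bool),
    cntP F d c k = k (c + (LvP F d vs i).length) := by
  induction F with
  | nil => intro d vs i c k; simp [cntP, LvP]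
  | leaf V X0 Xo Xs X =>
    intro d vs i c k
    cases d with
    | zero =>
      have e : cntP (.leaf V X0 Xo Xs X) 0 c k = frc (Nat.succ c) k := rfl
      rw [e, frc_eq]
      simp [LvP]
    | succ d => simp [cntP, LvP]
  | cons a b iha ihb =>
    intro d vs i c k
    cases d with
    | zero => simp [cntP, LvP]
    | succ d =>
      have e : cntP (.cons a b) (d + 1) c k = cntP a d c fun c' => cntP b (d + 1) c' k := rfl
      rw [e, iha d (i :: vs) 0 c, ihb (d + 1) vs (i + 1)]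
      have e2 : LvP (.cons a b) (d + 1) vs i = LvP a d (i :: vs) 0 ++ LvP b (d + 1) vs (i + 1) := rfl
      rw [e2, List.length_append, add_assoc]

/-- parameters of a table of row values -/
def ftOK (B q k0 : ℕ) (ku : List ℕ) (S0 : ℕ) (v : List (ℕ × ℕ)) (pre : List ℕ) (d : ℕ) : Bool :=
  Nat.ble B 200 && (Nat.ble q 1000 && (Nat.ble k0 (5 * B) && ((Nat.beq q 0 || Nat.ble k0 q) &&
  (incr 0 (k0 :: ku) && (Nat.ble ((k0 :: ku).getLastD 0) 1000 && (Nat.beq S0 (1000 + 5 * B + q) &&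
  (decide (v = vT B q (k0 :: ku)) && (decide (pre = preT q) && Nat.beq d ku.reverse.length))))))))

/-- A TABLE OF ROW VALUES. -/
theorem ftab_of {B q k0 S0 hi R d : ℕ} {ku : List ℕ} {F : FT} {v : List (ℕ × ℕ)} {pre : List ℕ}
    (hb : ftOK B q k0 ku S0 v pre d = true) (h : FtP (lfC v pre R k0 ku S0) F d 0 hi)
    (hl : cntL F d 0 (fun c => Nat.ble c hi) = true) :
    FS ((B : ℝ) / 200) ((q : ℝ) / 1000) ((k0 : ℝ) / 1000) F (kR ku.reverse) 0 0 := by
  unfold ftOK at hb
  simp only [Bool.and_eq_true, Bool.or_eq_true, decide_eq_true_eq] at hb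
  obtain ⟨h1, h2, h3, h4, h5, h6, h7, h8, h9, h10⟩ := hb
  have h10 := Nat.eq_of_beq_eq_true h10
  subst h8 h9 h10
  rw [cntL_eq F _ [] 0, Nat.zero_add] at hl
  refine ftab_sound (Nat.le_of_ble_eq_true h1) (Nat.le_of_ble_eq_true h2) (Nat.le_of_ble_eq_true h3) ?_ ?_
    (Nat.eq_of_beq_eq_true h7) h (Nat.le_of_ble_eq_true hl)
  · rcases h4 with h4 | h4
    · exact Or.inl (Nat.eq_of_beq_eq_true h4)
    · exact Or.inr (Nat.le_of_ble_eq_true h4)
  · have := incr_inc (k0 :: ku) 0 h5 (Nat.le_of_ble_eq_true h6)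
    rwa [Nat.cast_zero, zero_div] at this

/-- A TREE OF DISTRIBUTIONS. -/
theorem pftab_of {kns : List KN} {los : List ℕ} {lus0 hi d : ℕ} {F : PF}
    (hb : decide (los = kns.reverse.map fun kn => kn.lo) = true) (h : PfP (piC los lus0) F d 0 hi)
    (hl : cntP F d 0 (fun c => Nat.ble c hi) = true) : PfS (PiF kns.reverse lus0) F d [] 0 := by
  rw [decide_eq_true_eq] at hb
  subst hb
  rw [cntP_eq F _ [] 0, Nat.zero_add] at hl
  exact pftab_sound h (Nat.le_of_ble_eq_true hl)

end CB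
end Pool.Agent.Lib.MP_6947cd_al
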