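import Pool.Agent.Lib.MP_6947cd_al.L.CellG

/-!
Problem MP_6947cd_al (Chollet).  CASE A, rows `j`: the check of a box gives `PropIII`.
-/

set_option autoImplicit false

namespace Pool.Agent.Lib.MP_6947cd_al
namespace CA

open Ent Ent.Pk Fr Fr.WT

/-! ### tables from certificates -/

/-- the check of the indices `i ≤ i' < i + f`; `j` = number of the certificate -/
noncomputable def certR (v : List (ℕ × ℕ)) (pre rd : List ℕ) (R tab XC : ℕ) (f : ℕ) : ℕ → ℕ → Bool :=
  @Nat.rec (fun _ => ℕ → ℕ → Bool) (fun _ _ => true)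
    (fun _ ih i j => cond (frc (dg tab i) fun V => cond (Nat.beq V (nat_lit 0)) true
        (digC rd i fun ns => frc (Nat.shiftRight XC (Nat.mul (Nat.mul (nat_lit 32) R) j)) fun N =>
          upk R N fun X => rowOK v (app pre ns) X V))
      (frc (Nat.succ i) fun i' => frc (Nat.succ j) fun j' => ih i' j') false) f

/-- the entries `lo ≤ i < hi` of the table are upper bounds -/
def GoodR (v : List (ℕ × ℕ)) (pre rd : List ℕ) (tab lo hi : ℕ) : Prop :=
  ∀ i, lo ≤ i → i < hi → dg tab i ≠ 0 →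
    FM (mk (pre ++ dig rd i) (v.map fun u => (u.1 : ℝ) / (u.2 : ℝ))) ≤ (dg tab i : ℝ) / 10 ^ 7

theorem goodR_of {v : List (ℕ × ℕ)} {pre rd : List ℕ} {R tab XC : ℕ} : ∀ {f i j : ℕ},
    certR v pre rd R tab XC f i j = true → GoodR v pre rd tab i (Nat.add i f) := by
  intro f
  induction f with
  | zero =>
    intro i j _ i' h1 h2
    exact absurd (show i' < i from h2) (by omega)
  | succ f ih =>
    intro i j h i' h1 h2 hne
    have e : certR v pre rd R tab XC (f + 1) i j = cond (frc (dg tab i) fun V =>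
        cond (Nat.beq V (nat_lit 0)) true (digC rd i fun ns =>
          frc (Nat.shiftRight XC (Nat.mul (Nat.mul (nat_lit 32) R) j)) fun N =>
          upk R N fun X => rowOK v (app pre ns) X V))
      (frc (Nat.succ i) fun i' => frc (Nat.succ j) fun j' => certR v pre rd R tab XC f i' j') false := rfl
    rw [e] at h
    obtain ⟨h3, h4⟩ := cond_eq_true h
    rw [frc_eq] at h3 h4
    rw [frc_eq] at h4
    rcases Nat.eq_or_lt_of_le h1 with rfl | hlt
    · have h5 : Nat.beq (dg tab i) 0 = false := by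
        rw [Bool.eq_false_iff]
        intro hcon
        exact hne (Nat.eq_of_beq_eq_true hcon)
      have h5' : Nat.beq (dg tab i) (nat_lit 0) = false := h5
      rw [h5', cond_false, digC_eq, frc_eq] at h3
      obtain ⟨X, hX⟩ := upk_sound _ _ _ h3
      rw [app_eq] at hX
      exact row_sound _ _ _ _ hX
    · refine ih h4 i' hlt ?_ hne
      have h6 : i' < i + (f + 1) := h2
      show i' < Nat.succ i + f
      omega

theorem GoodR.append {v : List (ℕ × ℕ)} {pre rd : List ℕ} {tab lo mid hi : ℕ}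
    (h1 : GoodR v pre rd tab lo mid) (h2 : GoodR v pre rd tab mid hi) : GoodR v pre rd tab lo hi := by
  intro i hi1 hi2 hne
  rcases Nat.lt_or_ge i mid with h | h
  · exact h1 i hi1 h hne
  · exact h2 i h hi2 hne

/-- a complete table: the entries `i < N` are upper bounds, the others vanish -/
structure TabG (v : List (ℕ × ℕ)) (pre rd : List ℕ) (tab N : ℕ) : Prop where
  good : GoodR v pre rd tab (nat_lit 0) N
  fin : Nat.beq (Nat.shiftRight tab (Nat.mul (nat_lit 32) N)) (nat_lit 0) = true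

theorem good_sound {v : List (ℕ × ℕ)} {pre rd : List ℕ} {tab N : ℕ} (h' : TabG v pre rd tab N)
    (ns : List ℕ) (hns : OkD rd ns) (hne : 1 ≤ dg tab (idx rd ns)) :
    FM (mk (pre ++ ns) (v.map fun u => (u.1 : ℝ) / (u.2 : ℝ))) ≤ (dg tab (idx rd ns) : ℝ) / 10 ^ 7 := by
  obtain ⟨h, hN⟩ := h'
  have hlt : idx rd ns < N := by
    by_contra hcon
    have := dg_zero tab N (idx rd ns) (Nat.eq_of_beq_eq_true hN) (not_lt.mp hcon)
    omega
  have := h (idx rd ns) (Nat.zero_le _) hlt (by omega)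
  rwa [dig_idx rd ns hns] at this

lemma mk_one (v : ℝ) (ns : List ℕ) (vs : List ℝ) : mk (1 :: ns) (v :: vs) = v ::ₘ mk ns vs := by
  rw [Ent.mk_cons, Multiset.replicate_one, Multiset.singleton_add]

lemma map_ks (ks : List ℕ) : (ks.map fun k : ℕ => (k, 1000)).map (fun u : ℕ × ℕ => (u.1 : ℝ) / (u.2 : ℝ))
    = kR ks := by
  unfold kR
  rw [List.map_map]
  refine List.map_congr_left fun k _ => ?_
  simp

/-- table of a positive special knot -/
theorem tab_pos {B q : ℕ} {ks rd : List ℕ} {v : List (ℕ × ℕ)} {tab N : ℕ}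
    (hv : v = (1, 1) :: (B, 200) :: (q, 1000) :: ks.map fun k : ℕ => (k, 1000))
    (h : TabG v [(nat_lit 1), (nat_lit 1), (nat_lit 1)] rd tab N) (ns : List ℕ) (hns : OkD rd ns)
    (hne : 1 ≤ dg tab (idx rd ns)) :
    FM (1 ::ₘ ((B : ℝ) / 200) ::ₘ ((q : ℝ) / 1000) ::ₘ mk ns (kR ks)) ≤ (dg tab (idx rd ns) : ℝ) / 10 ^ 7 := by
  have h1 := good_sound h ns hns hne
  rw [hv] at h1
  rw [List.map_cons, List.map_cons, List.map_cons, map_ks] at h1
  have e : mk ([1, 1, 1] ++ ns) ((((1 : ℕ) : ℝ) / ((1 : ℕ) : ℝ)) :: ((B : ℝ) / ((200 : ℕ) : ℝ))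
      :: ((q : ℝ) / ((1000 : ℕ) : ℝ)) :: kR ks)
      = 1 ::ₘ ((B : ℝ) / 200) ::ₘ ((q : ℝ) / 1000) ::ₘ mk ns (kR ks) := by
    show mk (1 :: 1 :: 1 :: ns) _ = _
    rw [mk_one, mk_one, mk_one]
    norm_num
  rw [e] at h1
  exact h1

/-- table of the special knot zero -/
theorem tab_zero {B : ℕ} {ks rd : List ℕ} {v : List (ℕ × ℕ)} {tab N : ℕ}
    (hv : v = (1, 1) :: (B, 200) :: ks.map fun k : ℕ => (k, 1000))
    (h : TabG v [(nat_lit 1), (nat_lit 1)] rd tab N) (ns : List ℕ) (hns : OkD rd ns)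
    (hne : 1 ≤ dg tab (idx rd ns)) :
    FM (1 ::ₘ ((B : ℝ) / 200) ::ₘ (((0 : ℕ) : ℝ) / 1000) ::ₘ mk ns (kR ks))
      ≤ (dg tab (idx rd ns) : ℝ) / 10 ^ 7 := by
  have h1 := good_sound h ns hns hne
  rw [hv] at h1
  rw [List.map_cons, List.map_cons, map_ks] at h1
  have e : mk ([1, 1] ++ ns) ((((1 : ℕ) : ℝ) / ((1 : ℕ) : ℝ)) :: ((B : ℝ) / ((200 : ℕ) : ℝ)) :: kR ks)
      = 1 ::ₘ ((B : ℝ) / 200) ::ₘ mk ns (kR ks) := by
    show mk (1 :: 1 :: ns) _ = _
    rw [mk_one, mk_one]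
    norm_num
  rw [e] at h1
  have e2 : 1 ::ₘ ((B : ℝ) / 200) ::ₘ (((0 : ℕ) : ℝ) / 1000) ::ₘ mk ns (kR ks)
      = 0 ::ₘ 1 ::ₘ ((B : ℝ) / 200) ::ₘ mk ns (kR ks) := by
    rw [Nat.cast_zero, zero_div, Multiset.cons_swap ((B : ℝ) / 200) 0, Multiset.cons_swap 1 0]
  rw [e2, FM_zero_cons]
  exact h1

/-- table of phase 2 -/
theorem tab_two {B c r : ℕ} {v : List (ℕ × ℕ)} {R tab XC f : ℕ}
    (hv : v = [(1, 1), (B, 200), (c, 1000)])
    (h : certOK v [1, 1] [r] R tab XC f (nat_lit 0) = true) (n : ℕ) (hn : n < r) (hne : 1 ≤ dg tab n) :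
    FM (1 ::ₘ ((B : ℝ) / 200) ::ₘ Multiset.replicate n ((c : ℝ) / 1000)) ≤ (dg tab n : ℝ) / 10 ^ 7 := by
  have hi : idx [r] [n] = n := by show n + r * 0 = n; omega
  have h1 := certOK_sound v [1, 1] [r] R tab XC f h [n] (List.Forall₂.cons hn List.Forall₂.nil)
    (by rw [hi]; exact hne)
  rw [hi, hv] at h1
  rw [List.map_cons, List.map_cons, List.map_cons, List.map_nil] at h1
  have e : mk ([1, 1] ++ [n]) ((((1 : ℕ) : ℝ) / ((1 : ℕ) : ℝ)) :: ((B : ℝ) / ((200 : ℕ) : ℝ))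
      :: ((c : ℝ) / ((1000 : ℕ) : ℝ)) :: []) = 1 ::ₘ ((B : ℝ) / 200) ::ₘ Multiset.replicate n ((c : ℝ) / 1000) := by
    show mk (1 :: 1 :: [n]) _ = _
    rw [mk_one, mk_one, Ent.mk_cons, mk_nil, add_zero]
    norm_num
  rw [e] at h1
  exact h1

/-! ### blocks -/

/-- increasing lists -/
def incOK : ℕ → List ℕ → Bool
  | a, [] => Nat.ble a 1000
  | a, k :: ks => Nat.blt a k && incOK k ks

lemma incOK_sound (ks : List ℕ) : ∀ a, incOK a ks = true → Inc ((a : ℝ) / 1000) (kR ks) := by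
  induction ks with
  | nil =>
    intro a h
    have h1 : a ≤ 1000 := Nat.le_of_ble_eq_true h
    have h2 : (a : ℝ) ≤ 1000 := by exact_mod_cast h1
    show (a : ℝ) / 1000 ≤ 1
    linarith
  | cons k ks ih =>
    intro a h
    unfold incOK at h
    rw [Bool.and_eq_true] at h
    have h1 : a < k := Nat.le_of_ble_eq_true h.1
    have h2 : (a : ℝ) < k := by exact_mod_cast h1
    exact ⟨by linarith, ih k h.2⟩

/-- the data of a block: end points, knots, radices, special knots with their tables, phase 2 -/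
structure Blk where
  B0 : ℕ
  B1 : ℕ
  ks : List ℕ
  rd : List ℕ
  zs : List ZT
  c : ℕ
  n0 : ℕ
  fuel : ℕ
  r : ℕ
  P0 : ℕ
  P1 : ℕ

/-- the meaning of the tables of a block -/
structure BlkOK (b : Blk) : Prop where
  tab : ∀ Z ∈ b.zs, TabR b.B0 b.B1 b.rd b.ks Z
  p0 : ∀ n < b.r, 1 ≤ dg b.P0 n →
    FM (1 ::ₘ ((b.B0 : ℝ) / 200) ::ₘ Multiset.replicate n ((b.c : ℝ) / 1000)) ≤ (dg b.P0 n : ℝ) / 10 ^ 7
  p1 : ∀ n < b.r, 1 ≤ dg b.P1 n →
    FM (1 ::ₘ ((b.B1 : ℝ) / 200) ::ₘ Multiset.replicate n ((b.c : ℝ) / 1000)) ≤ (dg b.P1 n : ℝ) / 10 ^ 7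

/-! ### the check of a box -/

/-- one pair of special knots -/
noncomputable def sideOK (P : BP) (rks : List (ℕ × ℕ)) (c0 c1 c2 : List PC) (g0 g1 : ℕ) (nodes : List ℕ)
    (z0 : ℕ) (Z0 : ZT) (a0 : ℕ) (z1 : ℕ) (Z1 : ZT) (a1 : ℕ) : Bool :=
  cond (gqOK Z0.q Z1.q a0 a1) (cond (Nat.ble Z1.q (nat_lit 1000))
    (cond (enum P.T1 (testF P c0 c1 c2 z0 Z0 z1 Z1) rks Z0.q [(nat_lit 0, [])])
      (gLoop (gTest P c0 c1 c2 g0 g1 z0 Z0.q a0 z1 Z1.q a1) P.T1 Z0.q nodes (nat_lit 0)) false) false) false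

/-- all pairs of consecutive special knots -/
noncomputable def pairL (chk : ℕ → ZT → ℕ → ℕ → ZT → ℕ → Bool) (zs : List ZT) :
    List ℕ → ℕ → ZT → ℕ → Bool :=
  @List.rec ZT (fun _ => List ℕ → ℕ → ZT → ℕ → Bool) (fun _ _ _ _ => true)
    (fun Z' _ ih gq z Z a => @List.rec ℕ (fun _ => Bool) false (fun a' gq' _ =>
      frc (Nat.succ z) fun z' => cond (chk z Z a z' Z' a') (ih gq' z' Z' a') false) gq) zs

/-- all pairs; a single pair if there is only the knot zero -/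
noncomputable def runOK (chk : ℕ → ZT → ℕ → ℕ → ZT → ℕ → Bool) (zs : List ZT) (gq : List ℕ) : Bool :=
  @List.rec ZT (fun _ => Bool) false (fun Z zs' _ => @List.rec ℕ (fun _ => Bool) false (fun a gq' _ =>
    @List.rec ZT (fun _ => Bool) (chk (nat_lit 0) Z a (nat_lit 0) Z a)
      (fun _ _ _ => pairL chk zs' gq' (nat_lit 0) Z a) zs') gq) zs

/-- the consistency of the parameters -/
def bpOK (x : Box) (P : BP) : Bool :=
  decide (x.B0 < x.B1) && decide (x.B1 ≤ 200) && decide (P.dB = x.B1 - x.B0) && decide (x.B0 ≤ x.H0) &&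
  decide (x.H0 ≤ x.H1) && decide (x.H1 ≤ x.B1) && decide (P.a00 = x.B1 - x.H0) &&
  decide (P.a01 = x.H0 - x.B0) && decide (P.a10 = x.B1 - x.H1) && decide (P.a11 = x.H1 - x.B0) &&
  decide (P.h0 = 5 * x.H0) && decide (P.h1 = 5 * x.H1) && decide (62 ≤ x.H0) &&
  decide (P.rd.length = P.ks.length) && incOK 0 P.ks

lemma bpOK_sound {x : Box} {P : BP} (h : bpOK x P = true) : BPOK x.B0 x.B1 x.H0 x.H1 P := by
  unfold bpOK at h
  simp only [Bool.and_eq_true, decide_eq_true_eq] at h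
  obtain ⟨⟨⟨⟨⟨⟨⟨⟨⟨⟨⟨⟨⟨⟨h1, h2⟩, h3⟩, h4⟩, h5⟩, h6⟩, h7⟩, h8⟩, h9⟩, h10⟩, h11⟩, h12⟩, h13⟩, h14⟩, h15⟩ := h
  exact
    { B01 := h1
      B1' := h2
      dB := h3
      le0 := h4
      le1 := h5
      le2 := h6
      a00 := h7
      a01 := h8
      a10 := h9
      a11 := h10
      h0 := h11
      h1 := h12
      hH := h13
      len := h14
      inc := by simpa using incOK_sound _ _ h15 }

/-- the other parameters -/
def parOK (x : Box) (b : Blk) (P : BP) (rks : List (ℕ × ℕ)) (c0 c1 c2 : List PC) (g0 g1 : ℕ) : Bool :=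
  bpOK x P && (decide (b.B0 = x.B0) && (decide (b.B1 = x.B1) && (decide (b.ks = x.k) &&
  (decide (P.ks = x.k) && (decide (P.rd = b.rd) && (decide (x.k ≠ []) && (decide (P.T1 ≤ 6000) &&
  (decide (rks = (P.ks.zip (0 :: P.ks)).reverse) &&
  ((c0.all fun p => x.cls.any fun c => preOK x 0 c p) && ((c1.all fun p => x.cls.any fun c => preOK x 1 c p) &&
  ((c2.all fun p => x.cls.any fun c => preOK x 2 c p) && (gqOK (5 * x.H0) (5 * x.H1) g0 g1 &&
  ((match x.q with
    | [] => decide ((b.zs.map fun Z => Z.q) = [0])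
    | q :: q' => decide (q = 0) && (incOK 0 q' && (decide (q' ≠ []) &&
        decide ((b.zs.map fun Z => Z.q) = 0 :: q')))) &&
  (decide (1 ≤ b.c) && (decide (b.c ≤ 1000) && (decide (x.k.getLastD 0 ≤ b.c) &&
  (decide (x.q.getLastD 0 ≤ b.c) && (decide (b.n0 * b.c ≤ P.T1) &&
  (decide ((6200 - 5 * x.H0) / b.c + 2 ≤ b.n0 + b.fuel) && (decide (b.n0 + b.fuel ≤ b.r) &&
  decide (x.rz ≤ 11000)))))))))))))))))))))

/-- THE CHECK OF A BOX. -/
noncomputable def boxOK3 (x : Box) (b : Blk) (P : BP) (rks : List (ℕ × ℕ)) (c0 c1 c2 : List PC) (g0 g1 : ℕ)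
    (gq nodes : List ℕ) : Bool :=
  cond (parOK x b P rks c0 c1 c2 g0 g1)
    (cond (frc x.rz fun rz => frc b.n0 fun n0 => frc b.c fun c => frc (Nat.mul n0 c) fun T =>
        frc b.P0 fun P0 => frc b.P1 fun P1 => loopN (fun n T => p2One P P0 P1 rz n T) c b.fuel n0 T)
      (runOK (fun z Z a z' Z' a' => sideOK P rks c0 c1 c2 g0 g1 nodes z Z a z' Z' a') b.zs gq) false) false

lemma pairL_sound (chk : ℕ → ZT → ℕ → ℕ → ZT → ℕ → Bool) (zs : List ZT) : ∀ (gq : List ℕ) (z : ℕ) (Z : ZT)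
    (a : ℕ), pairL chk zs gq z Z a = true → zs ≠ [] → ∀ tl : ℝ, (Z.q : ℝ) / 1000 ≤ tl →
    tl ≤ (((zs.map fun Z => Z.q).getLastD 0 : ℕ) : ℝ) / 1000 →
    ∃ i < zs.length, ∃ Z0 a0 Z1 a1, chk (z + i) Z0 a0 (z + i + 1) Z1 a1 = true ∧ Z0 ∈ Z :: zs ∧ Z1 ∈ zs ∧
      Z0.q = (Z.q :: zs.map fun Z => Z.q).getD i 0 ∧ Z1.q = (zs.map fun Z => Z.q).getD i 0 ∧
      (Z0.q : ℝ) / 1000 ≤ tl ∧ tl ≤ (Z1.q : ℝ) / 1000 := by
  induction zs with
  | nil => intro gq z Z a _ h; exact absurd rfl h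
  | cons Z' zs ih =>
    intro gq z Z a h _ tl h0 h1
    cases gq with
    | nil => exact absurd h (by simp [pairL])
    | cons a' gq' =>
      have e : pairL chk (Z' :: zs) (a' :: gq') z Z a = frc (Nat.succ z) fun z' =>
        cond (chk z Z a z' Z' a') (pairL chk zs gq' z' Z' a') false := rfl
      rw [e, frc_eq] at h
      obtain ⟨h2, h3⟩ := cond_eq_true h
      rcases le_total tl ((Z'.q : ℝ) / 1000) with h4 | h4
      · exact ⟨0, by simp, Z, a, Z', a', h2, List.mem_cons_self, List.mem_cons_self, rfl, rfl, h0, h4⟩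
      · by_cases hz : zs = []
        · subst hz
          have h5 : tl = (Z'.q : ℝ) / 1000 := le_antisymm (by simpa using h1) h4
          exact ⟨0, by simp, Z, a, Z', a', h2, List.mem_cons_self, List.mem_cons_self, rfl, rfl, h0, h5.le⟩
        · have hlast : ((Z' :: zs).map fun Z => Z.q).getLastD 0 = (zs.map fun Z => Z.q).getLastD 0 := by
            rw [List.map_cons, List.getLastD_cons]
            cases zs with
            | nil => exact absurd rfl hz
            | cons Z'' zs => rw [List.map_cons, List.getLastD_cons, List.getLastD_cons]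
          rw [hlast] at h1
          obtain ⟨i, hi, Z0, a0, Z1, a1, r1, r2, r3, r4, r5, r6, r7⟩ := ih gq' (Nat.succ z) Z' a' h3 hz tl h4 h1
          refine ⟨i + 1, by simpa using hi, Z0, a0, Z1, a1, ?_, List.mem_cons_of_mem _ r2,
            List.mem_cons_of_mem _ r3, r4, r5, r6, r7⟩
          rw [show z + (i + 1) = Nat.succ z + i by omega]
          exact r1

lemma semL_of {x : Box} {τ : ℕ} {l : List PC} (h : (l.all fun p => x.cls.any fun c => preOK x τ c p) = true)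
    (hinc : Inc 0 (kR x.k)) (hk : x.k ≠ []) (hH0 : 60 ≤ x.H0) (hH01 : x.H0 ≤ 200) (hH1 : 60 ≤ x.H1)
    (hH11 : x.H1 ≤ 200) (q0 z0 q1 z1 : ℕ)
    (hz : (x.q = [] ∧ q0 = 0 ∧ q1 = 0 ∧ z0 = 0 ∧ z1 = 0) ∨
      (∃ q' : List ℕ, x.q = 0 :: q' ∧ Inc 0 (kR q') ∧ z1 = z0 + 1 ∧ z0 < q'.length ∧
        q0 = (0 :: q').getD z0 0 ∧ q1 = q'.getD z0 0)) : SemL x q0 z0 q1 z1 τ l := by
  intro p hp
  have h1 := List.all_eq_true.mp h p hp
  obtain ⟨c, hc, h2⟩ := List.any_eq_true.mp h1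
  refine ⟨c, hc, ?_, ?_, sem_of h2 hinc hk hH0 hH01 hH1 hH11 q0 z0 q1 z1 hz⟩
  · unfold preOK at h2
    simp only [Bool.and_eq_true, decide_eq_true_eq] at h2
    exact h2.1.1.1.1.1.1.1
  · intro hτ
    unfold preOK at h2
    simp only [Bool.and_eq_true, Bool.or_eq_true, decide_eq_true_eq] at h2
    rcases h2.1.1.1.1.1.1.2 with h3 | h3
    · exact absurd hτ h3
    · exact h3

/-- THE BOX THEOREM. -/
theorem propIII_of {x : Box} {b : Blk} (hb : BlkOK b) {P : BP} {rks : List (ℕ × ℕ)} {c0 c1 c2 : List PC}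
    {g0 g1 : ℕ} {gq nodes : List ℕ} (hchk : boxOK3 x b P rks c0 c1 c2 g0 g1 gq nodes = true) :
    PropIII x := by
  unfold boxOK3 at hchk
  obtain ⟨hpar, hchk⟩ := cond_eq_true hchk
  obtain ⟨hp2, hrun⟩ := cond_eq_true hchk
  rw [frc_eq, frc_eq, frc_eq, frc_eq, frc_eq, frc_eq] at hp2
  unfold parOK at hpar
  simp only [Bool.and_eq_true, decide_eq_true_eq] at hpar
  obtain ⟨k1, k2, k3, k4, k5, k6, k7, k8, k9, k10, k11, k12, k13, k14, k15, k16, k17, k18, k19, k20, k21,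
    k22⟩ := hpar
  have hP := bpOK_sound k1
  have hinc : Inc 0 (kR x.k) := by rw [← k5]; exact hP.inc
  have hH0 := hP.hH
  have hH01 := hP.le1
  have hH12 := hP.le2
  have hB1 := hP.B1'
  have hbks : b.ks = P.ks := by rw [k4, k5]
  intro h tl g M h0 h1 hM htl0 htl1 hg
  rcases le_or_gt ((P.T1 : ℝ) / 1000) (tl + M.sum) with hT | hT
  · left
    have hk17 : ((x.k.getLastD 0 : ℕ) : ℝ) ≤ b.c := by exact_mod_cast k17
    have hk18 : ((x.q.getLastD 0 : ℕ) : ℝ) ≤ b.c := by exact_mod_cast k18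
    refine phase2 hP (c := b.c) (n0 := b.n0) (fuel := b.fuel) (r := b.r) (P0 := b.P0) (P1 := b.P1)
      (T1 := P.T1) (rz := x.rz) k15 k16 ?_ ?_ k19 k20 k21 hp2 k22 g h tl M h0 h1
      (fun t ht => ⟨(hM t ht).1, (hM t ht).2.trans (by linarith)⟩) ⟨htl0, htl1.trans (by linarith)⟩ hT ?_
    · rw [← k2]; exact hb.p0
    · rw [← k3]; exact hb.p1
    · rcases hg with hg | hg
      · exact Or.inl hg
      · exact Or.inr (hg.trans (min_le_right _ _))
  · right
    intro τ hτ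
    -- the pair of special knots
    obtain ⟨z0, Z0, a0, z1, Z1, a1, r1, r2, r3, r4, r5, hz⟩ : ∃ z0 Z0 a0 z1 Z1 a1,
        sideOK P rks c0 c1 c2 g0 g1 nodes z0 Z0 a0 z1 Z1 a1 = true ∧ Z0 ∈ b.zs ∧ Z1 ∈ b.zs ∧
        (Z0.q : ℝ) / 1000 ≤ tl ∧ tl ≤ (Z1.q : ℝ) / 1000 ∧
        ((x.q = [] ∧ Z0.q = 0 ∧ Z1.q = 0 ∧ z0 = 0 ∧ z1 = 0) ∨
        (∃ q' : List ℕ, x.q = 0 :: q' ∧ Inc 0 (kR q') ∧ z1 = z0 + 1 ∧ z0 < q'.length ∧
          Z0.q = (0 :: q').getD z0 0 ∧ Z1.q = q'.getD z0 0)) := by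
      cases hzs : b.zs with
      | nil =>
        rw [hzs] at hrun
        exact absurd hrun (by simp [runOK])
      | cons Z zs' =>
        rw [hzs] at hrun k14
        cases gq with
        | nil => exact absurd hrun (by simp [runOK])
        | cons a gq' =>
          have e : runOK (fun z Z a z' Z' a' => sideOK P rks c0 c1 c2 g0 g1 nodes z Z a z' Z' a') (Z :: zs')
              (a :: gq') = @List.rec ZT (fun _ => Bool)
                (sideOK P rks c0 c1 c2 g0 g1 nodes (nat_lit 0) Z a (nat_lit 0) Z a)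
                (fun _ _ _ => pairL (fun z Z a z' Z' a' => sideOK P rks c0 c1 c2 g0 g1 nodes z Z a z' Z' a')
                  zs' gq' (nat_lit 0) Z a) zs' := rfl
          rw [e] at hrun
          cases hq : x.q with
          | nil =>
            rw [hq] at k14 htl1
            simp only [decide_eq_true_eq, List.map_cons, List.cons.injEq, List.map_eq_nil_iff] at k14
            obtain ⟨k14a, k14b⟩ := k14
            subst k14b
            have htl : tl = 0 := le_antisymm (by simpa using htl1) htl0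
            refine ⟨0, Z, a, 0, Z, a, hrun, List.mem_cons_self, List.mem_cons_self, ?_, ?_,
              Or.inl ⟨rfl, k14a, k14a, rfl, rfl⟩⟩
            · rw [k14a, htl]; simp
            · rw [k14a, htl]; simp
          | cons q q' =>
            rw [hq] at k14 htl1
            simp only [Bool.and_eq_true, decide_eq_true_eq, List.map_cons, List.cons.injEq] at k14
            obtain ⟨k14a, k14b, k14c, k14d, k14e⟩ := k14
            have hzs' : zs' ≠ [] := by
              rintro rfl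
              exact k14c (by rw [← k14e]; rfl)
            cases zs' with
            | nil => exact absurd rfl hzs'
            | cons Z' zs'' =>
              have hrun' : pairL (fun z Z a z' Z' a' => sideOK P rks c0 c1 c2 g0 g1 nodes z Z a z' Z' a')
                  (Z' :: zs'') gq' 0 Z a = true := hrun
              have hlast : ((q :: q').getLastD 0) = ((Z' :: zs'').map fun Z => Z.q).getLastD 0 := by
                rw [k14e, List.getLastD_cons]
                cases q' with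
                | nil => exact absurd rfl k14c
                | cons _ _ => rw [List.getLastD_cons, List.getLastD_cons]
              rw [hlast] at htl1
              obtain ⟨i, hi, Z0, a0, Z1, a1, s1, s2, s3, s4, s5, s6, s7⟩ := pairL_sound _ _ _ _ _ _ hrun'
                hzs' tl (by rw [k14d]; simpa using htl0) htl1
              rw [Nat.zero_add] at s1
              have s1' : sideOK P rks c0 c1 c2 g0 g1 nodes i Z0 a0 (i + 1) Z1 a1 = true := s1
              refine ⟨i, Z0, a0, i + 1, Z1, a1, s1', s2, List.mem_cons_of_mem _ s3, s6, s7,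
                Or.inr ⟨q', by rw [k14a], by simpa using incOK_sound _ _ k14b, rfl, ?_, ?_, ?_⟩⟩
              · rw [← k14e, List.length_map]; exact hi
              · rw [s4, k14e, k14d]
              · rw [s5, k14e]
    unfold sideOK at r1
    obtain ⟨m1, r1⟩ := cond_eq_true r1
    obtain ⟨m2, r1⟩ := cond_eq_true r1
    obtain ⟨m3, m4⟩ := cond_eq_true r1
    have hq1 : Z1.q ≤ 1000 := Nat.le_of_ble_eq_true m2
    have hq01 : Z0.q ≤ Z1.q := by
      have : (Z0.q : ℝ) ≤ Z1.q := by linarith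
      exact_mod_cast this
    have hsem : ∀ (σ : ℕ) (l : List PC), (l.all fun p => x.cls.any fun c => preOK x σ c p) = true →
        SemL x Z0.q z0 Z1.q z1 σ l := fun σ l hl =>
      semL_of hl hinc k7 (by omega) (by omega) (by omega) (by omega) _ _ _ _ hz
    have hZ0 : TabR x.B0 x.B1 P.rd P.ks Z0 := by
      rw [← k2, ← k3, k6, ← hbks]; exact hb.tab Z0 r2
    have hZ1 : TabR x.B0 x.B1 P.rd P.ks Z1 := by
      rw [← k2, ← k3, k6, ← hbks]; exact hb.tab Z1 r3
    rcases hg with hg | hg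
    · rw [hg]
      exact fcase hP k5 k7 k9 hZ0 hZ1 hq1 hq01 (hsem 0 c0 k10) (hsem 1 c1 k11) (hsem 2 c2 k12) m3 k8
        h tl M h0 h1 r4 r5 hM hT τ hτ
    · exact gcase hP (hsem 0 c0 k10) (hsem 1 c1 k11) (hsem 2 c2 k12) k13 m1 m4 k8 g h tl M h0 h1 r4 r5 hM
        hT hg τ hτ

end CA
end Pool.Agent.Lib.MP_6947cd_al
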