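import Pool.Agent.Lib.MP_6947cd_al.L.CellBP
import Pool.Agent.Lib.MP_6947cd_al.L.CellH

/-!
Problem MP_6947cd_al (Chollet).  CASE B, rows `j`: the meaning of prepared classes of type `3`.
-/

set_option autoImplicit false
set_option maxRecDepth 100000

namespace Pool.Agent.Lib.MP_6947cd_al
namespace CB

open Ent Ent.Pk Fr Fr.WT CA

/-- the constant of one end -/
def aOK3 (dB w : ℕ) (rt : ℤ) (lg A : ℕ) : Bool :=
  decide ((A : ℤ) = 20 * dB * (w * lg - 100000 * rt + 100000000000))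

/-- the check of a prepared class -/
def preG (x : Box) (c : Cl) (p : PC) : Bool :=
  decide (p.w1 = 1000 + c.w) &&
  bnOK p.bn c.b x.k && sgOK p.sg p.bn x.k &&
  (match x.q with
    | [] => decide (dg p.sn 0 = 1000000)
    | _ :: _ => decide (c.s.length = x.q.length) && snOK p.sn c.s 0) &&
  aOK3 (x.B1 - x.B0) c.w c.rt (dg LGP x.H0) p.A0 && aOK3 (x.B1 - x.B0) c.w c.rt (dg LGP x.H1) p.A1

lemma aOK3_real {dB w lg A : ℕ} {rt : ℤ} (h : aOK3 dB w rt lg A = true) {L : ℝ}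
    (hL : (lg : ℝ) / 10000000 ≤ 2 * L) :
    (A : ℝ) ≤ 200000000000 * dB * (10 - (rt : ℝ) / 100000 + 2 * ((w : ℝ) / 1000) * L) := by
  unfold aOK3 at h
  have h1 := of_decide_eq_true h
  have h2 : (A : ℝ) = 20 * dB * (w * lg - 100000 * rt + 100000000000) := by
    have h3 : ((A : ℤ) : ℝ) = ((20 * dB * (w * lg - 100000 * rt + 100000000000) : ℤ) : ℝ) := by rw [h1]
    push_cast at h3
    exact h3
  rw [h2]
  have hw : (0 : ℝ) ≤ w := Nat.cast_nonneg _
  have hd : (0 : ℝ) ≤ dB := Nat.cast_nonneg _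
  have h4 := mul_le_mul_of_nonneg_left (mul_le_mul_of_nonneg_left hL hw) hd
  nlinarith

/-- the meaning of a prepared class -/
theorem sem3_of {x : Box} {c : Cl} {p : PC} (h : preG x c p = true)
    (hinc : Inc 0 (kR x.k)) (hk : x.k ≠ []) (hH0 : 60 ≤ x.H0) (hH01 : x.H0 ≤ 200) (hH1 : 60 ≤ x.H1)
    (hH11 : x.H1 ≤ 200) (q0 z0 q1 z1 : ℕ)
    (hz : (x.q = [] ∧ q0 = 0 ∧ q1 = 0 ∧ z0 = 0 ∧ z1 = 0) ∨
      (∃ q' : List ℕ, x.q = 0 :: q' ∧ Inc 0 (kR q') ∧ z1 = z0 + 1 ∧ z0 < q'.length ∧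
        q0 = (0 :: q').getD z0 0 ∧ q1 = q'.getD z0 0)) :
    Sem x.k (x.B1 - x.B0) ((x.H0 : ℝ) / 200) ((x.H1 : ℝ) / 200) q0 z0 q1 z1 p ((c.w : ℝ) / 1000)
      ((c.rt : ℝ) / 100000) (phR x c) (psi0 x c) := by
  unfold preG at h
  simp only [Bool.and_eq_true, decide_eq_true_eq] at h
  obtain ⟨⟨⟨⟨⟨h3, h4⟩, h5⟩, h6⟩, h7⟩, h8⟩ := h
  obtain ⟨l1, l2⟩ := bnOK_len _ _ _ h4
  have hlen : (kR x.k).length = (vR c.b).length := by simp [kR, vR, l1]
  have hs01 : psi0 x c ((q0 : ℝ) / 1000) = ((dg p.sn z0 : ℝ) - 1000000) / 100000 ∧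
      psi0 x c ((q1 : ℝ) / 1000) = ((dg p.sn z1 : ℝ) - 1000000) / 100000 ∧
      ∃ α β : ℝ, ∀ y, (q0 : ℝ) / 1000 ≤ y → y ≤ (q1 : ℝ) / 1000 → psi0 x c y = α * y + β := by
    rcases hz with ⟨e1, e2, e3, e4, e5⟩ | ⟨q', e1, e2, e3, e4, e5, e6⟩
    · rw [e1] at h6
      have h6' : dg p.sn 0 = 1000000 := of_decide_eq_true h6
      rw [e4, e5, h6']
      unfold psi0
      simp only [if_pos e1]
      exact ⟨by norm_num, by norm_num, 0, 0, fun y _ _ => by ring⟩
    · rw [e1] at h6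
      simp only [Bool.and_eq_true, decide_eq_true_eq] at h6
      obtain ⟨h61, h62⟩ := h6
      have hne : x.q ≠ [] := by rw [e1]; simp
      have eψ : ∀ y, psi0 x c y = pl 0 (((c.s.headD 0 : ℤ) : ℝ) / 100000) (kR q') (vR c.s.tail) y := by
        intro y
        unfold psi0 psR
        rw [if_neg hne, e1]
        rfl
      have hsl : c.s ≠ [] := by
        intro hcon
        rw [hcon] at h61
        simp at h61
      obtain ⟨s0, s', es⟩ : ∃ s0 s', c.s = s0 :: s' := by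
        cases hcs : c.s with
        | nil => exact absurd hcs hsl
        | cons s0 s' => exact ⟨s0, s', rfl⟩
      have hl' : (kR q').length = (vR s').length := by
        rw [es] at h61
        simp [kR, vR] at h61 ⊢
        omega
      have hnode : ∀ i ≤ q'.length, psi0 x c ((((0 :: q').getD i 0 : ℕ) : ℝ) / 1000)
          = ((dg p.sn i : ℝ) - 1000000) / 100000 := by
        intro i hi
        rw [eψ, es]
        have e7 : ((((0 :: q').getD i 0 : ℕ) : ℝ) / 1000) = ((0 : ℝ) :: kR q').getD i 0 := by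
          have e8 : ((0 : ℝ) :: kR q') = (0 :: q').map fun k : ℕ => (k : ℝ) / 1000 := by simp [kR]
          rw [e8, show (0 : ℝ) = (fun k : ℕ => (k : ℝ) / 1000) 0 by simp, List.getD_map]
        rw [e7]
        have e9 := pl_node (kR q') 0 (((s0 : ℤ) : ℝ) / 100000) (vR s') e2 hl' i (by simpa [kR] using hi)
        have e10 : (((s0 :: s').headD 0 : ℤ) : ℝ) = (s0 : ℝ) := rfl
        rw [e10]
        show pl 0 ((s0 : ℝ) / 100000) (kR q') (vR s') _ = _
        rw [e9]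
        have e11 := snOK_get _ _ _ h62 i (by rw [h61]; simp; omega)
        rw [Nat.zero_add, es] at e11
        have e12 : (((s0 : ℤ) : ℝ) / 100000 :: vR s').getD i 0 = (((s0 :: s').getD i 0 : ℤ) : ℝ) / 100000 := by
          have e8 : (((s0 : ℤ) : ℝ) / 100000 :: vR s') = (s0 :: s').map fun k : ℤ => (k : ℝ) / 100000 := by
            simp [vR]
          rw [e8, show (0 : ℝ) = (fun k : ℤ => (k : ℝ) / 100000) 0 by simp, List.getD_map]
        rw [e12]
        have e13 : (dg p.sn i : ℝ) = (((s0 :: s').getD i 0 : ℤ) : ℝ) + 1000000 := by exact_mod_cast e11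
        rw [e13]
        ring
      refine ⟨?_, ?_, ?_⟩
      · rw [e5]; exact hnode z0 e4.le
      · rw [e6, e3]
        have := hnode (z0 + 1) e4
        rwa [List.getD_cons_succ] at this
      · obtain ⟨α, β, hαβ⟩ := aff_get _ (kR q') 0 (aff_pl (kR q') 0 (((c.s.headD 0 : ℤ) : ℝ) / 100000)
          (vR c.s.tail) e2 (by rw [es]; exact hl')) z0 (by simpa [kR] using e4)
        refine ⟨α, β, fun y hy hy' => ?_⟩
        rw [eψ]
        refine hαβ y ?_ ?_
        · refine le_trans (le_of_eq ?_) hy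
          rw [e5]
          have e8 : ((0 : ℝ) :: kR q') = (0 :: q').map fun k : ℕ => (k : ℝ) / 1000 := by simp [kR]
          rw [e8, show (0 : ℝ) = (fun k : ℕ => (k : ℝ) / 1000) 0 by simp, List.getD_map]
        · refine le_trans hy' (le_of_eq ?_)
          rw [e6]
          unfold kR
          rw [show (0 : ℝ) = (fun k : ℕ => (k : ℝ) / 1000) 0 by simp, List.getD_map]
  obtain ⟨r1, r2, r3⟩ := hs01
  refine
    { lam0 := by positivity
      w1 := ?_
      aff := aff_pl (kR x.k) 0 0 (vR c.b) hinc hlen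
      phi0 := pl_left (kR x.k) 0 0 (vR c.b) hinc
      bn := fun ns hns => ?_
      psi := r3
      s0 := r1
      s1 := r2
      A0 := ?_
      A1 := ?_
      sg := fun y hy hy' => ?_ }
  · rw [h3]; push_cast; ring
  · have e := sum_pl (kR x.k) 0 0 (vR c.b) ns hinc hlen (by simpa [kR] using hns)
    have e2 := bnOK_dot _ _ _ ns h4 hns
    rw [← e2, ← e]
    rfl
  · have := aOK3_real h7 (L := Real.log (1 + (x.H0 : ℝ) / 200)) (lg_le x.H0 hH0 hH01)
    exact this
  · have := aOK3_real h8 (L := Real.log (1 + (x.H1 : ℝ) / 200)) (lg_le x.H1 hH1 hH11)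
    exact this
  · have := pl_le_lin (((p.sg : ℝ) - 10000000) / 1000000) (kR x.k) 0 0 (vR c.b) hinc hlen (by simp)
      (fun i hi => sgOK_get _ _ _ _ h4 h5 i (by simpa [kR] using hi)) y hy
      (by rw [kR_getLastD _ _ hk]; exact hy')
    exact this

/-! ### the two forms of a prepared class -/

/-- the second form -/
def pbOK (dB w : ℕ) (p : PC) (r : PB) : Bool :=
  Nat.beq r.c20 (20 * p.w1) && Nat.beq r.e1 (2000000 * dB * p.bn.headD 0) && decide (r.bu = p.bn.tail) &&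
  Nat.beq r.sn p.sn && Nat.beq r.O0 (p.A0 + 1125899906842624) && Nat.beq r.O1 (p.A1 + 1125899906842624) &&
  Nat.beq r.wN (20 * dB * w)

lemma semB_of {ks : List ℕ} {dB : ℕ} {hr0 hr1 : ℝ} {q0 z0 q1 z1 : ℕ} {p : PC} {c : CD}
    (h : Sem ks dB hr0 hr1 q0 z0 q1 z1 p c.lam c.C c.φ c.ψ) (hbn : p.bn ≠ []) {r : PB} {w : ℕ}
    (hr : pbOK dB w p r = true) :
    SemB ks dB hr0 hr1 ((q0 : ℝ) / 1000) z0 r c ∧ SemB ks dB hr0 hr1 ((q1 : ℝ) / 1000) z1 r c := by
  unfold pbOK at hr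
  simp only [Bool.and_eq_true, decide_eq_true_eq] at hr
  obtain ⟨⟨⟨⟨⟨⟨h1, h2⟩, h3⟩, h4⟩, h5⟩, h6⟩, _⟩ := hr
  have h1 := Nat.eq_of_beq_eq_true h1
  have h2 := Nat.eq_of_beq_eq_true h2
  have h4 := Nat.eq_of_beq_eq_true h4
  have h5 := Nat.eq_of_beq_eq_true h5
  have h6 := Nat.eq_of_beq_eq_true h6
  have e : p.bn = p.bn.headD 0 :: r.bu := by
    rw [h3]
    cases hb : p.bn with
    | nil => exact absurd hb hbn
    | cons b bs => rfl
  have key : ∀ (q z : ℕ), c.ψ ((q : ℝ) / 1000) = ((dg p.sn z : ℝ) - 1000000) / 100000 →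
      SemB ks dB hr0 hr1 ((q : ℝ) / 1000) z r c := by
    intro q z hψ
    refine ⟨h.lam0, ?_, ⟨p.bn.headD 0, h2, fun ns hns => ?_⟩, ?_, ?_, ?_⟩
    · rw [h1]
      push_cast
      rw [h.w1]
      ring
    · rw [← e]
      exact h.bn ns hns
    · rw [h4]
      exact hψ
    · rw [h5]
      push_cast
      have := h.A0
      norm_num at this ⊢
      linarith
    · rw [h6]
      push_cast
      have := h.A1
      norm_num at this ⊢
      linarith
  exact ⟨key q0 z0 h.s0, key q1 z1 h.s1⟩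

end CB
end Pool.Agent.Lib.MP_6947cd_al
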