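import Pool.Agent.Lib.MP_6947cd_al.L.CellB9
import Pool.Agent.Lib.MP_6947cd_al.L.Fill

/-!
Problem MP_6947cd_al (Chollet).  CASE B, rows `j`: the tables of row values and of distributions, and their
checks.

The leaves of a tree are numbered from the left; a check treats the leaves with numbers in `[lo, hi)`.
-/

set_option autoImplicit false

namespace Pool.Agent.Lib.MP_6947cd_al
namespace CB

open Ent Ent.Pk Fr Fr.WT CA

/-! ### tables of row values -/

/-- the leaves with their paths -/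
def Lv : FT → ℕ → List ℕ → ℕ → List (List ℕ × List ℕ)
  | .nil, _, _, _ => []
  | .leaf l, 0, vs, _ => [(vs, l)]
  | .leaf _, _ + 1, _, _ => []
  | .cons _ _, 0, _, _ => []
  | .cons a b, d + 1, vs, i => Lv a d (i :: vs) 0 ++ Lv b (d + 1) vs (i + 1)

/-- traversal -/
noncomputable def ftT (ck : List ℕ → List ℕ → List ℕ → Bool) (lo hi : ℕ) (F : FT) :
    ℕ → List ℕ → ℕ → ℕ → List (List ℕ) → (ℕ → List (List ℕ) → Bool) → Bool :=
  @FT.rec (fun _ => ℕ → List ℕ → ℕ → ℕ → List (List ℕ) → (ℕ → List (List ℕ) → Bool) → Bool)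
    (fun _ _ _ cnt cs k => k cnt cs)
    (fun l d vs _ cnt cs k => @Nat.rec (fun _ => Bool)
      (cond (Nat.ble hi cnt) true (cond (Nat.ble lo cnt)
        (@List.rec (List ℕ) (fun _ => Bool) false (fun c cs' _ => cond (ck vs l c)
          (frc (Nat.succ cnt) fun cnt' => k cnt' cs') false) cs)
        (frc (Nat.succ cnt) fun cnt' => k cnt' cs))) (fun _ _ => k cnt cs) d)
    (fun _ _ iha ihb d vs i cnt cs k => @Nat.rec (fun _ => Bool) (k cnt cs)
      (fun d' _ => iha d' (i :: vs) (nat_lit 0) cnt cs fun cnt' cs' => frc (Nat.succ i) fun i' =>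
        ihb (Nat.succ d') vs i' cnt' cs' k) d) F

lemma ftT_sound (ck : List ℕ → List ℕ → List ℕ → Bool) (lo hi : ℕ) (F : FT) :
    ∀ (d : ℕ) (vs : List ℕ) (i cnt : ℕ) (cs : List (List ℕ)) (k : ℕ → List (List ℕ) → Bool),
    ftT ck lo hi F d vs i cnt cs k = true →
    (∀ n, lo ≤ cnt + n → cnt + n < hi → ∀ p, (Lv F d vs i)[n]? = some p → ∃ c, ck p.1 p.2 c = true) ∧
    (cnt + (Lv F d vs i).length ≤ hi → ∃ cs', k (cnt + (Lv F d vs i).length) cs' = true) := by
  induction F with
  | nil =>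
    intro d vs i cnt cs k h
    have hL : Lv .nil d vs i = [] := by simp [Lv]
    rw [hL]
    exact ⟨fun n _ _ p hp => by simp at hp, fun _ => ⟨cs, h⟩⟩
  | leaf l =>
    intro d vs i cnt cs k h
    cases d with
    | succ d =>
      have hL : Lv (.leaf l) (d + 1) vs i = [] := by simp [Lv]
      rw [hL]
      exact ⟨fun n _ _ p hp => by simp at hp, fun _ => ⟨cs, h⟩⟩
    | zero =>
      have e : ftT ck lo hi (.leaf l) 0 vs i cnt cs k =
        (cond (Nat.ble hi cnt) true (cond (Nat.ble lo cnt)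
        (@List.rec (List ℕ) (fun _ => Bool) false (fun c cs' _ => cond (ck vs l c)
          (frc (Nat.succ cnt) fun cnt' => k cnt' cs') false) cs)
        (frc (Nat.succ cnt) fun cnt' => k cnt' cs))) := rfl
      rw [e] at h
      have hL : Lv (.leaf l) 0 vs i = [(vs, l)] := rfl
      rw [hL]
      cases c1 : Nat.ble hi cnt with
      | true =>
        have := Nat.le_of_ble_eq_true c1
        exact ⟨fun n _ h2 => by omega, fun h2 => by simp at h2; omega⟩
      | false =>
        rw [c1, cond_false] at h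
        cases c2 : Nat.ble lo cnt with
        | false =>
          rw [c2, cond_false, frc_eq] at h
          have hlt : ¬ (lo ≤ cnt) := fun hcon => by
            have := Nat.ble_eq_true_of_le hcon
            rw [c2] at this
            exact absurd this (by simp)
          refine ⟨fun n h1 _ p hp => ?_, fun _ => ⟨cs, h⟩⟩
          cases n with
          | zero => exact absurd h1 hlt
          | succ n => simp at hp
        | true =>
          rw [c2, cond_true] at h
          cases cs with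
          | nil => exact absurd h (by simp)
          | cons c cs =>
            obtain ⟨h1, h2⟩ := cond_eq_true h
            rw [frc_eq] at h2
            refine ⟨fun n _ _ p hp => ?_, fun _ => ⟨cs, h2⟩⟩
            cases n with
            | zero =>
              rw [List.getElem?_cons_zero, Option.some.injEq] at hp
              subst hp
              exact ⟨c, h1⟩
            | succ n => simp at hp
  | cons a b iha ihb =>
    intro d vs i cnt cs k h
    cases d with
    | zero =>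
      have hL : Lv (.cons a b) 0 vs i = [] := by simp [Lv]
      rw [hL]
      exact ⟨fun n _ _ p hp => by simp at hp, fun _ => ⟨cs, h⟩⟩
    | succ d =>
      have e : ftT ck lo hi (.cons a b) (d + 1) vs i cnt cs k =
        ftT ck lo hi a d (i :: vs) (nat_lit 0) cnt cs fun cnt' cs' => frc (Nat.succ i) fun i' =>
        ftT ck lo hi b (Nat.succ d) vs i' cnt' cs' k := rfl
      rw [e] at h
      have hL : Lv (.cons a b) (d + 1) vs i = Lv a d (i :: vs) 0 ++ Lv b (d + 1) vs (i + 1) := rfl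
      rw [hL]
      obtain ⟨h1, h2⟩ := iha d (i :: vs) 0 cnt cs _ h
      by_cases hle : cnt + (Lv a d (i :: vs) 0).length ≤ hi
      · obtain ⟨cs', h3⟩ := h2 hle
        rw [frc_eq] at h3
        obtain ⟨h4, h5⟩ := ihb (d + 1) vs (i + 1) _ _ _ h3
        refine ⟨fun n g1 g2 p hp => ?_, fun g => ?_⟩
        · rcases Nat.lt_or_ge n (Lv a d (i :: vs) 0).length with hn | hn
          · rw [List.getElem?_append_left hn] at hp
            exact h1 n g1 g2 p hp
          · rw [List.getElem?_append_right hn] at hp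
            exact h4 _ (by omega) (by omega) p hp
        · rw [List.length_append] at g ⊢
          have := h5 (by rw [Nat.add_assoc]; exact g)
          rwa [Nat.add_assoc] at this
      · refine ⟨fun n g1 g2 p hp => ?_, fun g => ?_⟩
        · rw [List.getElem?_append_left (by omega)] at hp
          exact h1 n g1 g2 p hp
        · rw [List.length_append] at g
          omega

/-- the leaves with numbers in `[lo, hi)` are checked -/
def FtP (ck : List ℕ → List ℕ → List ℕ → Bool) (F : FT) (d lo hi : ℕ) : Prop :=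
  ∀ n, lo ≤ n → n < hi → ∀ p, (Lv F d [] 0)[n]? = some p → ∃ c, ck p.1 p.2 c = true

/-- the chunk of a table -/
noncomputable def ftC (ck : List ℕ → List ℕ → List ℕ → Bool) (F : FT) (d lo hi : ℕ) (cs : List (List ℕ)) : Bool :=
  ftT ck lo hi F d [] (nat_lit 0) (nat_lit 0) cs fun _ _ => true

lemma ftC_sound {ck : List ℕ → List ℕ → List ℕ → Bool} {F : FT} {d lo hi : ℕ} {cs : List (List ℕ)}
    (h : ftC ck F d lo hi cs = true) : FtP ck F d lo hi := by
  intro n h1 h2 p hp
  exact (ftT_sound ck lo hi F d [] 0 0 cs _ h).1 n (by omega) (by omega) p hp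

lemma FtP.trans {ck : List ℕ → List ℕ → List ℕ → Bool} {F : FT} {d a b c : ℕ} (h1 : FtP ck F d a b)
    (h2 : FtP ck F d b c) : FtP ck F d a c := by
  intro n g1 g2
  rcases Nat.lt_or_ge n b with h | h
  · exact h1 n g1 h
  · exact h2 n h g2

lemma FtP.all {ck : List ℕ → List ℕ → List ℕ → Bool} {F : FT} {d hi : ℕ} (h : FtP ck F d 0 hi)
    (hl : (Lv F d [] 0).length ≤ hi) : ∀ p ∈ Lv F d [] 0, ∃ c, ck p.1 p.2 c = true := by
  intro p hp
  obtain ⟨n, hn, rfl⟩ := List.getElem_of_mem hp
  exact h n (Nat.zero_le _) (by omega) _ (List.getElem?_eq_getElem hn)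

/-- from the leaves to the meaning -/
lemma FS_of {B q k0 : ℝ} {ku : List ℕ} (F : FT) : ∀ (kd kup vs : List ℕ) (i : ℕ), kd.reverseAux kup = ku →
    (∀ p ∈ Lv F kd.length vs i, ∀ (j x : ℕ), p.2[j]? = some x →
      FM (1 ::ₘ B ::ₘ q ::ₘ (mk p.1 (kR ku) + Multiset.replicate j k0)) ≤ (x : ℝ) / 10 ^ 7) →
    FS B q k0 F (kR kd) (mk vs (kR kup)) i := by
  induction F with
  | nil => intro kd kup vs i _ _; exact trivial
  | leaf l =>
    intro kd kup vs i hk h hkd j x hj
    cases kd with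
    | cons κ kd => exact absurd hkd (by simp [kR])
    | nil =>
      have hk' : kup = ku := hk
      subst hk'
      exact h (vs, l) List.mem_cons_self j x hj
  | cons a b iha ihb =>
    intro kd kup vs i hk h
    cases kd with
    | nil => exact trivial
    | cons κ kd =>
      refine ⟨?_, ?_⟩
      · show FS B q k0 a (kR kd) (mk vs (kR kup) + Multiset.replicate i ((κ : ℝ) / 1000)) 0
        rw [mk_snoc]
        exact iha kd (κ :: kup) (i :: vs) 0 hk fun p hp => h p (List.mem_append_left _ hp)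
      · exact ihb (κ :: kd) kup vs (i + 1) hk fun p hp => h p (List.mem_append_right _ hp)

/-! ### the check of a leaf of a table of row values -/

/-- values at a leaf: item `0` = rule `log` from the previous value, else packed weights of an exact row;
`S` = sum of the entries of the previous row -/
noncomputable def leafC (v : List (ℕ × ℕ)) (pre : List ℕ) (R k0 : ℕ) (vs l : List ℕ) :
    List ℕ → ℕ → ℕ → ℕ → Bool :=
  @List.rec ℕ (fun _ => List ℕ → ℕ → ℕ → ℕ → Bool) (fun _ _ _ _ => true)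
    (fun d _ ih c j S pv => @List.rec ℕ (fun _ => Bool) false (fun N c' _ =>
      cond (cond (Nat.beq N (nat_lit 0)) (cond (Nat.ble (nat_lit 1) j)
          (Nat.ble (Nat.add pv (Fl.inc2 k0 S)) d) false)
        (upk R N fun X => rowOK v (app pre (j :: vs)) X d))
        (frc (Nat.succ j) fun j' => frc (Nat.add S k0) fun S' => ih c' j' S' d) false) c) l

/-- the check of a leaf -/
noncomputable def lfC (v : List (ℕ × ℕ)) (pre : List ℕ) (R k0 : ℕ) (ku : List ℕ) (S0 : ℕ) (vs l c : List ℕ) :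
    Bool :=
  frc (Nat.add (Nat.sub S0 k0) (ldot vs ku (nat_lit 0))) fun S => leafC v pre R k0 vs l c (nat_lit 0) S (nat_lit 0)

lemma leafC_sound (v : List (ℕ × ℕ)) (pre : List ℕ) (R k0 : ℕ) (vs : List ℕ) (Bm : Multiset ℝ) (κ : ℝ) (S' : ℕ)
    (H1 : ∀ j X d, rowOK v (app pre (j :: vs)) X d = true →
      FM (Bm + Multiset.replicate j κ) ≤ (d : ℝ) / 10 ^ 7)
    (H2 : ∀ j, FM (Bm + Multiset.replicate (j + 1) κ) ≤ FM (Bm + Multiset.replicate j κ)
      + (Fl.inc2 k0 (S' + j * k0) : ℝ) / 10 ^ 7) (l : List ℕ) :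
    ∀ (c : List ℕ) (j S pv : ℕ), leafC v pre R k0 vs l c j S pv = true → S + k0 = S' + j * k0 →
      (1 ≤ j → FM (Bm + Multiset.replicate (j - 1) κ) ≤ (pv : ℝ) / 10 ^ 7) →
      ∀ (i x : ℕ), l[i]? = some x → FM (Bm + Multiset.replicate (j + i) κ) ≤ (x : ℝ) / 10 ^ 7 := by
  induction l with
  | nil => intro c j S pv _ _ _ i x hi; simp at hi
  | cons d l ih =>
    intro c j S pv h hS hpv i x hi
    cases c with
    | nil => exact absurd h (by simp [leafC])
    | cons N c =>
      have e : leafC v pre R k0 vs (d :: l) (N :: c) j S pv =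
        cond (cond (Nat.beq N (nat_lit 0)) (cond (Nat.ble (nat_lit 1) j)
          (Nat.ble (Nat.add pv (Fl.inc2 k0 S)) d) false)
        (upk R N fun X => rowOK v (app pre (j :: vs)) X d))
        (frc (Nat.succ j) fun j' => frc (Nat.add S k0) fun S' => leafC v pre R k0 vs l c j' S' d) false := rfl
      rw [e] at h
      obtain ⟨h1, h2⟩ := cond_eq_true h
      rw [frc_eq, frc_eq] at h2
      have hd : FM (Bm + Multiset.replicate j κ) ≤ (d : ℝ) / 10 ^ 7 := by
        cases c0 : Nat.beq N (nat_lit 0) with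
        | false =>
          rw [c0, cond_false] at h1
          obtain ⟨X, hX⟩ := upk_sound _ _ _ h1
          exact H1 j X d hX
        | true =>
          rw [c0, cond_true] at h1
          obtain ⟨h3, h4⟩ := cond_eq_true h1
          have hj : 1 ≤ j := Nat.le_of_ble_eq_true h3
          obtain ⟨j', rfl⟩ := Nat.exists_eq_add_of_le' hj
          have h5 : pv + Fl.inc2 k0 S ≤ d := Nat.le_of_ble_eq_true h4
          have h6 := hpv hj
          rw [Nat.add_sub_cancel] at h6
          have h7 := H2 j'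
          have h8 : S = S' + j' * k0 := by
            have : (j' + 1) * k0 = j' * k0 + k0 := by ring
            omega
          rw [← h8] at h7
          have h9 : (pv : ℝ) + Fl.inc2 k0 S ≤ d := by exact_mod_cast h5
          have h10 : ((pv : ℝ) + Fl.inc2 k0 S) / 10 ^ 7 ≤ (d : ℝ) / 10 ^ 7 := by gcongr
          rw [add_div] at h10
          linarith
      cases i with
      | zero =>
        rw [List.getElem?_cons_zero, Option.some.injEq] at hi
        subst hi
        exact hd
      | succ i =>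
        rw [List.getElem?_cons_succ] at hi
        have h3 := ih c (j + 1) (S + k0) d h2 (by rw [hS]; ring) (fun _ => by
          rw [Nat.add_sub_cancel]; exact hd) i x hi
        rwa [show j + 1 + i = j + (i + 1) by ring] at h3

lemma filter_sum_eq (s : Multiset ℝ) (κ : ℝ) (h : ∀ z ∈ s, κ ≤ z ∨ z = 0) :
    (s.filter fun z => κ ≤ z).sum = s.sum := by
  induction s using Multiset.induction with
  | empty => simp
  | cons a s ih =>
    have ih' := ih fun z hz => h z (Multiset.mem_cons_of_mem hz)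
    by_cases ha : κ ≤ a
    · rw [Multiset.filter_cons_of_pos _ ha, Multiset.sum_cons, Multiset.sum_cons, ih']
    · rw [Multiset.filter_cons_of_neg _ ha, Multiset.sum_cons, ih']
      rcases h a (Multiset.mem_cons_self _ _) with h1 | h1
      · exact absurd h1 ha
      · rw [h1, zero_add]

/-- types of a table -/
def vT (B q : ℕ) (ks : List ℕ) : List (ℕ × ℕ) :=
  (1, 1) :: (B, 200) :: ((if q = 0 then [] else [(q, 1000)]) ++ ks.map fun k => (k, 1000))

def preT (q : ℕ) : List ℕ := if q = 0 then [1, 1] else [1, 1, 1]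

lemma mk_app (A : List ℕ) : ∀ (a : List ℝ) (B : List ℕ) (b : List ℝ), A.length = a.length →
    mk (A ++ B) (a ++ b) = mk A a + mk B b := by
  induction A with
  | nil =>
    intro a B b h
    have : a = [] := List.eq_nil_of_length_eq_zero h.symm
    subst this
    simp [mk]
  | cons n A ih =>
    intro a B b h
    cases a with
    | nil => simp at h
    | cons x a =>
      rw [List.cons_append, List.cons_append, Ent.mk_cons, Ent.mk_cons, ih a B b (by simpa using h), add_assoc]

lemma mk_vT (B q : ℕ) (ks ns : List ℕ) : FM (mk (preT q ++ ns) ((vT B q ks).map fun u => (u.1 : ℝ) / (u.2 : ℝ)))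
    = FM (1 ::ₘ ((B : ℝ) / 200) ::ₘ ((q : ℝ) / 1000) ::ₘ mk ns (kR ks)) := by
  have e0 : (ks.map fun k : ℕ => (k, 1000)).map (fun u : ℕ × ℕ => (u.1 : ℝ) / (u.2 : ℝ)) = kR ks := by
    rw [List.map_map]
    unfold kR
    refine List.map_congr_left fun k _ => ?_
    simp
  by_cases hq : q = 0
  · subst hq
    have e1 : (vT B 0 ks).map (fun u => (u.1 : ℝ) / (u.2 : ℝ)) = [1, (B : ℝ) / 200] ++ kR ks := by
      rw [← e0]
      simp [vT]
    have e2 : preT 0 = [1, 1] := by simp [preT]
    rw [e1, e2, mk_app _ _ _ _ (by simp)]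
    have e3 : mk [1, 1] [1, (B : ℝ) / 200] = 1 ::ₘ ((B : ℝ) / 200) ::ₘ 0 := by
      simp only [mk, Multiset.replicate_one, add_zero, ← Multiset.singleton_add]
    rw [e3, Nat.cast_zero, zero_div]
    have e4 : (1 : ℝ) ::ₘ ((B : ℝ) / 200) ::ₘ (0 : ℝ) ::ₘ mk ns (kR ks)
        = 0 ::ₘ (1 ::ₘ ((B : ℝ) / 200) ::ₘ 0 + mk ns (kR ks)) := by
      simp only [← Multiset.singleton_add, add_zero]
      abel
    rw [e4, FM_zero_cons]
  · have e1 : (vT B q ks).map (fun u => (u.1 : ℝ) / (u.2 : ℝ)) = [1, (B : ℝ) / 200, (q : ℝ) / 1000] ++ kR ks := by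
      rw [← e0]
      simp [vT, hq]
    have e2 : preT q = [1, 1, 1] := by simp [preT, hq]
    rw [e1, e2, mk_app _ _ _ _ (by simp)]
    congr 1
    simp only [mk, Multiset.replicate_one, add_zero, ← Multiset.singleton_add]
    abel

/-- A TABLE OF ROW VALUES. -/
theorem ftab_sound {B q k0 S0 hi R : ℕ} {ku : List ℕ} {F : FT} (hB : B ≤ 200) (hq : q ≤ 1000)
    (hkB : k0 ≤ 5 * B) (hkq : q = 0 ∨ k0 ≤ q) (hinc : Inc 0 (kR (k0 :: ku)))
    (hS0 : S0 = 1000 + 5 * B + q)
    (h : FtP (lfC (vT B q (k0 :: ku)) (preT q) R k0 ku S0) F ku.reverse.length 0 hi)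
    (hl : (Lv F ku.reverse.length [] 0).length ≤ hi) :
    FS ((B : ℝ) / 200) ((q : ℝ) / 1000) ((k0 : ℝ) / 1000) F (kR ku.reverse) 0 0 := by
  have hk01 : k0 ≤ 1000 := by
    have h1 := hinc.2.le_one
    have : (k0 : ℝ) / 1000 ≤ 1 := h1
    have h2 : (k0 : ℝ) ≤ 1000 := by linarith
    exact_mod_cast h2
  have key := FS_of (B := (B : ℝ) / 200) (q := (q : ℝ) / 1000) (k0 := (k0 : ℝ) / 1000) (ku := ku) F
    ku.reverse [] [] 0 (by rw [List.reverseAux_eq, List.reverse_reverse, List.append_nil]) ?_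
  · exact key
  intro p hp
  obtain ⟨vs, l⟩ := p
  obtain ⟨c, hc⟩ := h.all hl _ hp
  simp only at hc ⊢
  unfold lfC at hc
  rw [frc_eq, ldot0] at hc
  have hBr : (B : ℝ) ≤ 200 := by exact_mod_cast hB
  have hqr : (q : ℝ) ≤ 1000 := by exact_mod_cast hq
  have e0 : ∀ j, 1 ::ₘ ((B : ℝ) / 200) ::ₘ ((q : ℝ) / 1000) ::ₘ mk vs (kR ku)
      + Multiset.replicate j ((k0 : ℝ) / 1000)
      = 1 ::ₘ ((B : ℝ) / 200) ::ₘ ((q : ℝ) / 1000) ::ₘ (mk vs (kR ku) + Multiset.replicate j ((k0 : ℝ) / 1000)) :=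
    fun j => (perm3 _ _ _ _).symm
  have e1 : ∀ j, 1 ::ₘ ((B : ℝ) / 200) ::ₘ ((q : ℝ) / 1000) ::ₘ mk vs (kR ku)
      + Multiset.replicate j ((k0 : ℝ) / 1000)
      = 1 ::ₘ ((B : ℝ) / 200) ::ₘ ((q : ℝ) / 1000) ::ₘ mk (j :: vs) (kR (k0 :: ku)) := by
    intro j
    rw [e0, mk_snoc]
  have hs01 : ∀ j, ∀ z ∈ (1 ::ₘ ((B : ℝ) / 200) ::ₘ ((q : ℝ) / 1000) ::ₘ mk (j :: vs) (kR (k0 :: ku)) : Multiset ℝ),
      0 ≤ z ∧ z ≤ 1 := by
    intro j z hz
    simp only [Multiset.mem_cons] at hz
    rcases hz with rfl | rfl | rfl | hz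
    · exact ⟨zero_le_one, le_rfl⟩
    · exact ⟨by positivity, by linarith⟩
    · exact ⟨by positivity, by linarith⟩
    · exact inc_mem _ 0 le_rfl hinc z (mk_mem _ _ z hz)
  have hge : ∀ j, ∀ z ∈ (1 ::ₘ ((B : ℝ) / 200) ::ₘ ((q : ℝ) / 1000) ::ₘ mk (j :: vs) (kR (k0 :: ku)) : Multiset ℝ),
      (k0 : ℝ) / 1000 ≤ z ∨ z = 0 := by
    intro j z hz
    simp only [Multiset.mem_cons] at hz
    rcases hz with rfl | rfl | rfl | hz
    · left
      have : (k0 : ℝ) ≤ 1000 := by exact_mod_cast hk01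
      linarith
    · left
      have : (k0 : ℝ) ≤ 5 * B := by exact_mod_cast hkB
      linarith
    · rcases hkq with hkq | hkq
      · right
        rw [hkq]
        simp
      · left
        have : (k0 : ℝ) ≤ q := by exact_mod_cast hkq
        linarith
    · left
      rcases List.mem_cons.mp (mk_mem _ _ z hz) with h1 | h1
      · exact h1.ge
      · exact inc_ge _ _ hinc.2 z h1
  intro j x hj
  have hle : k0 ≤ S0 := by omega
  have := leafC_sound (vT B q (k0 :: ku)) (preT q) R k0 vs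
    (1 ::ₘ ((B : ℝ) / 200) ::ₘ ((q : ℝ) / 1000) ::ₘ mk vs (kR ku)) ((k0 : ℝ) / 1000) (S0 + Pk.dotN vs ku) ?_ ?_
    l c 0 _ _ hc ?_ ?_ j x hj
  · rw [Nat.zero_add, e0] at this
    exact this
  · intro j X d hr
    rw [app_eq] at hr
    have h1 := row_sound _ _ _ _ hr
    rw [mk_vT] at h1
    rw [e1]
    exact h1
  · intro j
    have e2 : 1 ::ₘ ((B : ℝ) / 200) ::ₘ ((q : ℝ) / 1000) ::ₘ mk vs (kR ku)
        + Multiset.replicate (j + 1) ((k0 : ℝ) / 1000)
        = ((k0 : ℝ) / 1000) ::ₘ (1 ::ₘ ((B : ℝ) / 200) ::ₘ ((q : ℝ) / 1000) ::ₘ mk vs (kR ku)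
        + Multiset.replicate j ((k0 : ℝ) / 1000)) := by
      rw [Multiset.replicate_succ]
      simp only [← Multiset.singleton_add]
      abel
    rw [e2]
    have hsum : (1 ::ₘ ((B : ℝ) / 200) ::ₘ ((q : ℝ) / 1000) ::ₘ mk vs (kR ku)
        + Multiset.replicate j ((k0 : ℝ) / 1000)).sum = ((S0 + Pk.dotN vs ku + j * k0 : ℕ) : ℝ) / ((1000 : ℕ) : ℝ) := by
      rw [e1]
      simp only [Multiset.sum_cons]
      rw [kR_sum]
      have : Pk.dotN (j :: vs) (k0 :: ku) = j * k0 + Pk.dotN vs ku := rfl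
      rw [this, hS0]
      push_cast
      ring
    have hk1r : (k0 : ℝ) / 1000 ≤ 1 := by
      have : (k0 : ℝ) ≤ 1000 := by exact_mod_cast hk01
      linarith
    have hSS : (1000 : ℕ) ≤ S0 + Pk.dotN vs ku + j * k0 := by omega
    have h1 := Fl.FM_log' (1 ::ₘ ((B : ℝ) / 200) ::ₘ ((q : ℝ) / 1000) ::ₘ mk vs (kR ku)
        + Multiset.replicate j ((k0 : ℝ) / 1000))
      (by rw [e0]; exact Multiset.mem_cons_self _ _) (by rw [e1]; exact hs01 j)
      ((k0 : ℝ) / 1000) (by positivity) hk1r (((S0 + Pk.dotN vs ku + j * k0 : ℕ) : ℝ) / ((1000 : ℕ) : ℝ)) (by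
        rw [le_div_iff₀ (by norm_num), one_mul]
        exact_mod_cast hSS) (by
        rw [filter_sum_eq _ _ (by rw [e1]; exact hge j), hsum])
    refine h1.trans ?_
    have h2 := Fl.inc2_sound k0 (S0 + Pk.dotN vs ku + j * k0) 1000 (by norm_num) (by omega)
    have e3 : ((k0 : ℝ) / 1000) = (k0 : ℝ) / ((1000 : ℕ) : ℝ) := by norm_num
    rw [e3]
    linarith
  · show S0 - k0 + Pk.dotN vs ku + k0 = S0 + Pk.dotN vs ku + 0 * k0
    omega
  · intro h0
    omega

end CB
end Pool.Agent.Lib.MP_6947cd_al
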