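import Pool.Agent.Lib.MP_6947cd_al.L.CellBL

/-!
Problem MP_6947cd_al (Chollet).  CASE B, rows `j`: the lower bounds of the merged entries.
-/

set_option autoImplicit false

namespace Pool.Agent.Lib.MP_6947cd_al
namespace CB

open Ent Ent.Pk Fr Fr.WT CA

lemma interp_log {v b lo hi a k t : ℝ} (hv : 0 < v) (hb : 0 < b) (h1 : -Real.log v ≤ lo)
    (h2 : -Real.log b ≤ hi) (hak : a < k) (hat : a ≤ t) (htk : t ≤ k) :
    0 < v + (b - v) / (k - a) * (t - a) ∧
      -Real.log (v + (b - v) / (k - a) * (t - a)) ≤ lo + (hi - lo) / (k - a) * (t - a) := by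
  have hd : 0 < k - a := by linarith
  set θ := (t - a) / (k - a) with hθ
  have t0 : 0 ≤ θ := div_nonneg (by linarith) hd.le
  have t1 : θ ≤ 1 := by rw [hθ, div_le_one hd]; linarith
  have e1 : v + (b - v) / (k - a) * (t - a) = (1 - θ) * v + θ * b := by
    rw [hθ]
    field_simp
    ring
  have e2 : lo + (hi - lo) / (k - a) * (t - a) = (1 - θ) * lo + θ * hi := by
    rw [hθ]
    field_simp
    ring
  rw [e1, e2]
  have hc := strictConcaveOn_log_Ioi.concaveOn.2 (show v ∈ Set.Ioi (0 : ℝ) from hv)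
    (show b ∈ Set.Ioi (0 : ℝ) from hb) (show 0 ≤ 1 - θ by linarith) t0 (by ring)
  simp only [smul_eq_mul] at hc
  have h3 := mul_le_mul_of_nonneg_left h1 (show 0 ≤ 1 - θ by linarith)
  have h4 := mul_le_mul_of_nonneg_left h2 t0
  refine ⟨?_, by linarith⟩
  rcases eq_or_lt_of_le t0 with h5 | h5
  · rw [← h5]
    linarith
  · have := mul_pos h5 hb
    have := mul_nonneg (show 0 ≤ 1 - θ by linarith) hv.le
    linarith

/-- upper bound of `plz` -/
lemma plz_le_one (ks : List ℕ) : ∀ (a v : ℕ) (bs : List ℕ) (x : ℝ), incr a ks = true → v ≤ 1000 →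
    (bs.all fun b => Nat.ble b 1000) = true → (a : ℝ) / 1000 ≤ x →
    plz ((a : ℝ) / 1000) ((v : ℝ) / 1000) (kR ks) (kR bs) x ≤ 1 := by
  induction ks with
  | nil =>
    intro a v bs x _ hv _ _
    have h1 : kR [] = [] := rfl
    rw [h1, plz_nil]
    have : (v : ℝ) ≤ 1000 := by exact_mod_cast hv
    linarith
  | cons k ks ih =>
    intro a v bs x h hv hbs hx
    unfold incr at h
    rw [Bool.and_eq_true, Nat.ble_eq] at h
    have hk : (a : ℝ) + 1 ≤ k := by exact_mod_cast h.1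
    have hvr : (v : ℝ) ≤ 1000 := by exact_mod_cast hv
    cases bs with
    | nil =>
      have : plz ((a : ℝ) / 1000) ((v : ℝ) / 1000) (kR (k :: ks)) (kR []) x = (v : ℝ) / 1000 := by
        rw [kR_cons]
        rfl
      rw [this]
      linarith
    | cons b bs =>
      rw [List.all_cons, Bool.and_eq_true] at hbs
      have hb : b ≤ 1000 := Nat.le_of_ble_eq_true hbs.1
      have hbr : (b : ℝ) ≤ 1000 := by exact_mod_cast hb
      rw [kR_cons, kR_cons, plz_cons]
      split_ifs with h2 h4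
      · exact zero_le_one
      · have hd : (0 : ℝ) < (k : ℝ) / 1000 - (a : ℝ) / 1000 := by linarith
        have e : (v : ℝ) / 1000 + ((b : ℝ) / 1000 - (v : ℝ) / 1000)
            / ((k : ℝ) / 1000 - (a : ℝ) / 1000) * (x - (a : ℝ) / 1000)
            = ((v : ℝ) / 1000 * ((k : ℝ) / 1000 - x) + (b : ℝ) / 1000 * (x - (a : ℝ) / 1000))
              / ((k : ℝ) / 1000 - (a : ℝ) / 1000) := by
          have hd' := hd.ne'
          generalize (k : ℝ) / 1000 = K at hd' ⊢
          generalize (a : ℝ) / 1000 = A' at hd' ⊢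
          generalize (v : ℝ) / 1000 = V
          generalize (b : ℝ) / 1000 = B
          rw [eq_div_iff hd', add_mul, div_mul_eq_mul_div, div_mul_cancel₀ _ hd']
          ring
        rw [e, div_le_one hd]
        have h3 : 0 ≤ (k : ℝ) / 1000 - x := by linarith
        have h5 : 0 ≤ x - (a : ℝ) / 1000 := by linarith
        nlinarith [mul_le_mul_of_nonneg_right (show (v : ℝ) / 1000 ≤ 1 by linarith) h3,
          mul_le_mul_of_nonneg_right (show (b : ℝ) / 1000 ≤ 1 by linarith) h5]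
      · exact ih k b bs x h.2 hb hbs.2 (by linarith)

/-- check of the pieces -/
def kfOK : List KN → ℕ → ℕ → List ℕ → List ℕ → Bool
  | kn :: KF, a, ua, k :: ks, u :: us => (Nat.beq kn.a a && Nat.beq kn.k k && Nat.ble (a + 1) k &&
      (Nat.beq kn.lo 0 || (Nat.ble 1 ua && Nat.ble 1 u && Nat.ble ua 1000 && Nat.ble u 1000 &&
        Nat.ble (dg NLP ua) kn.lo && Nat.ble (dg NLP u) kn.hi))) && kfOK KF k u ks us
  | [], _, _, [], _ => true
  | _, _, _, _, _ => false

lemma kf_up (KF : List KN) : ∀ (a ua : ℕ) (ks us : List ℕ), kfOK KF a ua ks us = true →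
    ∀ kn ∈ KF, a ≤ kn.a ∧ kn.a < kn.k ∧ (kn.lo ≠ 0 → ∀ t : ℝ, (kn.a : ℝ) / 1000 < t → t ≤ (kn.k : ℝ) / 1000 →
      0 < plz ((a : ℝ) / 1000) ((ua : ℝ) / 1000) (kR ks) (kR us) t ∧
        -Real.log (plz ((a : ℝ) / 1000) ((ua : ℝ) / 1000) (kR ks) (kR us) t) ≤ ell kn t) := by
  induction KF with
  | nil => intro a ua ks us _ kn hkn; exact absurd hkn List.not_mem_nil
  | cons kn0 KF ih =>
    intro a ua ks us h kn hkn
    cases ks with
    | nil => exact absurd h (by simp [kfOK])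
    | cons k ks =>
    cases us with
    | nil => exact absurd h (by simp [kfOK])
    | cons u us =>
    simp only [kfOK, Bool.and_eq_true, Bool.or_eq_true] at h
    obtain ⟨⟨⟨⟨h1, h2⟩, h3⟩, h4⟩, h5⟩ := h
    have h1 := Nat.eq_of_beq_eq_true h1
    have h2 := Nat.eq_of_beq_eq_true h2
    have h3 := Nat.le_of_ble_eq_true h3
    have h3r : (a : ℝ) + 1 ≤ k := by exact_mod_cast h3
    rcases List.mem_cons.mp hkn with rfl | hkn
    · refine ⟨h1.ge, by omega, fun hlo t ht0 ht1 => ?_⟩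
      rcases h4 with h4 | h4
      · exact absurd (Nat.eq_of_beq_eq_true h4) hlo
      obtain ⟨⟨⟨⟨⟨a1, a2⟩, a3⟩, a4⟩, a5⟩, a6⟩ := h4
      have a1 := Nat.le_of_ble_eq_true a1
      have a2 := Nat.le_of_ble_eq_true a2
      have a3 := Nat.le_of_ble_eq_true a3
      have a4 := Nat.le_of_ble_eq_true a4
      have a5 := Nat.le_of_ble_eq_true a5
      have a6 := Nat.le_of_ble_eq_true a6
      have hv : (0 : ℝ) < (ua : ℝ) / 1000 := by
        have : (1 : ℝ) ≤ ua := by exact_mod_cast a1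
        positivity
      have hb : (0 : ℝ) < (u : ℝ) / 1000 := by
        have : (1 : ℝ) ≤ u := by exact_mod_cast a2
        positivity
      rw [h1] at ht0
      rw [h2] at ht1
      rw [kR_cons, kR_cons, plz_cons, if_pos ht1, if_neg hv.ne']
      have l1 := (nl_le ua a1 a3).trans (show (dg NLP ua : ℝ) / 10 ^ 7 ≤ (kn.lo : ℝ) / 10 ^ 7 by
        have : (dg NLP ua : ℝ) ≤ kn.lo := by exact_mod_cast a5
        gcongr)
      have l2 := (nl_le u a2 a4).trans (show (dg NLP u : ℝ) / 10 ^ 7 ≤ (kn.hi : ℝ) / 10 ^ 7 by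
        have : (dg NLP u : ℝ) ≤ kn.hi := by exact_mod_cast a6
        gcongr)
      have key := interp_log hv hb l1 l2 (show (a : ℝ) / 1000 < (k : ℝ) / 1000 by linarith) ht0.le ht1
      refine ⟨key.1, key.2.trans (le_of_eq ?_)⟩
      unfold ell
      rw [h1, h2]
      ring
    · obtain ⟨b1, b2, b3⟩ := ih k u ks us h5 kn hkn
      refine ⟨by omega, b2, fun hlo t ht0 ht1 => ?_⟩
      have hkt : (k : ℝ) / 1000 < t := by
        have : (k : ℝ) ≤ kn.a := by exact_mod_cast b1
        have : (k : ℝ) / 1000 ≤ (kn.a : ℝ) / 1000 := by linarith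
        linarith
      rw [kR_cons, kR_cons, plz_cons, if_neg (not_le.mpr hkt)]
      exact b3 hlo t ht0 ht1

/-- one piece of `plz` -/
lemma plz_piece (ks : List ℕ) : ∀ (a v : ℕ) (bs : List ℕ) (z : ℕ) (t : ℝ), incr a ks = true →
    z < ks.length → ks.length = bs.length → (((a :: ks).getD z 0 : ℕ) : ℝ) / 1000 < t →
    t ≤ ((ks.getD z 0 : ℕ) : ℝ) / 1000 → (v :: bs).getD z 0 ≠ 0 →
    plz ((a : ℝ) / 1000) ((v : ℝ) / 1000) (kR ks) (kR bs) t
      = (((v :: bs).getD z 0 : ℕ) : ℝ) / 1000 + (((bs.getD z 0 : ℕ) : ℝ) / 1000 - (((v :: bs).getD z 0 : ℕ) : ℝ) / 1000)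
        / (((ks.getD z 0 : ℕ) : ℝ) / 1000 - (((a :: ks).getD z 0 : ℕ) : ℝ) / 1000)
        * (t - (((a :: ks).getD z 0 : ℕ) : ℝ) / 1000) ∧
      (((a :: ks).getD z 0 : ℕ) : ℝ) / 1000 < ((ks.getD z 0 : ℕ) : ℝ) / 1000 ∧
      (a : ℝ) / 1000 ≤ (((a :: ks).getD z 0 : ℕ) : ℝ) / 1000 := by
  induction ks with
  | nil => intro a v bs z t _ hz; simp at hz
  | cons k ks ih =>
    intro a v bs z t h hz hl ht0 ht1 hv
    cases bs with
    | nil => simp at hl
    | cons b bs =>
    unfold incr at h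
    rw [Bool.and_eq_true, Nat.ble_eq] at h
    have hk : (a : ℝ) + 1 ≤ k := by exact_mod_cast h.1
    cases z with
    | zero =>
      simp only [List.getD_cons_zero] at ht0 ht1 hv ⊢
      have hvr : ((v : ℝ) / 1000) ≠ 0 := by
        have : (v : ℝ) ≠ 0 := by exact_mod_cast hv
        positivity
      rw [kR_cons, kR_cons, plz_cons, if_pos ht1, if_neg hvr]
      exact ⟨rfl, by linarith, le_rfl⟩
    | succ z =>
      simp only [List.getD_cons_succ] at ht0 ht1 hv ⊢
      obtain ⟨c1, c2, c3⟩ := ih k b bs z t h.2 (by simpa using hz) (by simpa using hl) ht0 ht1 hv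
      rw [kR_cons, kR_cons, plz_cons, if_neg (not_le.mpr (by linarith))]
      exact ⟨c1, c2, by linarith⟩

end CB
end Pool.Agent.Lib.MP_6947cd_al
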