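import Pool.Agent.Lib.MP_6947cd_al.L.CellN

/-!
Problem MP_6947cd_al (Chollet).  CASE A, cells of the row `j`: the checks of the corners, soundness for one
interval of the special entry.
-/

set_option autoImplicit false

namespace Pool.Agent.Lib.MP_6947cd_al
namespace CA

open Ent Ent.Pk Fr Fr.WT

/-- prepared class: `1000 + w`, knot values `b + 1000 k`, packed special values `s + 10^6`, constants of the
two ends, slope -/
structure PC where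
  w1 : ℕ
  bn : List ℕ
  sn : ℕ
  A0 : ℕ
  A1 : ℕ
  sg : ℕ

/-- a special knot with its two tables -/
structure ZT where
  q : ℕ
  t0 : ℕ
  t1 : ℕ

/-- parameters of a box: `dB = B1 - B0`, `a00 = B1 - H0`, `a01 = H0 - B0`, `a10 = B1 - H1`, `a11 = H1 - B0`,
`h0 = 5 H0`, `h1 = 5 H1` -/
structure BP where
  dB : ℕ
  a00 : ℕ
  a01 : ℕ
  a10 : ℕ
  a11 : ℕ
  h0 : ℕ
  h1 : ℕ
  T1 : ℕ
  rd : List ℕ
  ks : List ℕ

noncomputable def anyR {α : Type} (p : α → Bool) (l : List α) : Bool :=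
  @List.rec α (fun _ => Bool) false (fun c _ ih => cond ih true (p c)) l

noncomputable def allR {α : Type} (p : α → Bool) (l : List α) : Bool :=
  @List.rec α (fun _ => Bool) true (fun c _ ih => cond (p c) ih false) l

/-- one end of the box at one corner -/
noncomputable def endOK (dB w1 ta tb hh v0 v1 T tq d S A : ℕ) : Bool :=
  frc (Nat.add hh tq) fun s => cond (Nat.ble s (nat_lit 7399))
    (Nat.ble (Nat.add (Nat.mul (Nat.mul (nat_lit 20) w1) (Nat.add (Nat.mul ta v0) (Nat.mul tb v1)))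
        (Nat.mul (Nat.mul (nat_lit 2000000) dB) (Nat.add d S)))
      (Nat.add (Nat.mul dB (Nat.add (Nat.mul (nat_lit 1000) (w20 s)) (Nat.mul (nat_lit 2000000000) T))) A))
    false

/-- one special knot at one corner -/
noncomputable def halfOK (P : BP) (c : PC) (z : ℕ) (Z : ZT) (i T d : ℕ) : Bool :=
  frc (dg Z.t0 i) fun v0 => frc (dg Z.t1 i) fun v1 => frc (dg c.sn z) fun S => frc (Nat.add Z.q T) fun tq =>
    cond (Nat.ble (nat_lit 1) v0) (cond (Nat.ble (nat_lit 1) v1)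
      (cond (endOK P.dB c.w1 P.a00 P.a01 P.h0 v0 v1 T tq d S c.A0)
        (endOK P.dB c.w1 P.a10 P.a11 P.h1 v0 v1 T tq d S c.A1) false) false) false

/-- one corner -/
noncomputable def corOK (P : BP) (z0 : ℕ) (Z0 : ZT) (z1 : ℕ) (Z1 : ZT) (c : PC) (ns : List ℕ) : Bool :=
  idxC P.rd ns fun i => frc (ldot ns P.ks (nat_lit 0)) fun T => frc (ldot ns c.bn (nat_lit 0)) fun d =>
    cond (halfOK P c z0 Z0 i T d) (halfOK P c z1 Z1 i T d) false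

/-- one cell: a class without merging inequality, or one of each type -/
noncomputable def testF (P : BP) (c0 c1 c2 : List PC) (z0 : ℕ) (Z0 : ZT) (z1 : ℕ) (Z1 : ZT)
    (acc : List (ℕ × List ℕ)) : Bool :=
  cond (anyR (fun c => allR (fun t => corOK P z0 Z0 z1 Z1 c t.2) acc) c0) true
    (cond (anyR (fun c => allR (fun t => corOK P z0 Z0 z1 Z1 c t.2) acc) c1)
      (anyR (fun c => allR (fun t => corOK P z0 Z0 z1 Z1 c t.2) acc) c2) false)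

lemma anyR_sound {α : Type} (p : α → Bool) (l : List α) (h : anyR p l = true) : ∃ c ∈ l, p c = true := by
  induction l with
  | nil => exact absurd h (by simp [anyR])
  | cons c l ih =>
    have e : anyR p (c :: l) = cond (anyR p l) true (p c) := rfl
    rw [e] at h
    cases h2 : anyR p l with
    | true =>
      obtain ⟨c', h3, h4⟩ := ih h2
      exact ⟨c', List.mem_cons_of_mem _ h3, h4⟩
    | false =>
      rw [h2, cond_false] at h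
      exact ⟨c, List.mem_cons_self, h⟩

lemma allR_sound {α : Type} (p : α → Bool) (l : List α) (h : allR p l = true) : ∀ c ∈ l, p c = true := by
  induction l with
  | nil => intro c hc; exact absurd hc List.not_mem_nil
  | cons c l ih =>
    have e : allR p (c :: l) = cond (p c) (allR p l) false := rfl
    rw [e] at h
    obtain ⟨h1, h2⟩ := cond_eq_true h
    intro c' hc'
    rcases List.mem_cons.mp hc' with rfl | hc'
    · exact h1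
    · exact ih h2 c' hc'

/-- the real number meaning of a prepared class on an interval `[q0, q1] / 1000` of the special entry -/
structure Sem (ks : List ℕ) (dB : ℕ) (hr0 hr1 : ℝ) (q0 z0 q1 z1 : ℕ) (p : PC) (lam C : ℝ)
    (φ ψ : ℝ → ℝ) : Prop where
  lam0 : 0 ≤ lam
  w1 : (p.w1 : ℝ) = 1000 * (1 + lam)
  aff : Aff φ 0 (kR ks)
  phi0 : φ 0 = 0
  bn : ∀ ns : List ℕ, ns.length = ks.length →
    ((mk ns (kR ks)).map φ).sum = ((Pk.dotN ns p.bn : ℝ) - 1000 * (Pk.dotN ns ks : ℝ)) / 100000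
  psi : ∃ α β : ℝ, ∀ x, (q0 : ℝ) / 1000 ≤ x → x ≤ (q1 : ℝ) / 1000 → ψ x = α * x + β
  s0 : ψ ((q0 : ℝ) / 1000) = ((dg p.sn z0 : ℝ) - 1000000) / 100000
  s1 : ψ ((q1 : ℝ) / 1000) = ((dg p.sn z1 : ℝ) - 1000000) / 100000
  A0 : (p.A0 : ℝ) ≤ 200000000000 * dB * (10 - C + 2 * lam * Real.log (1 + hr0))
  A1 : (p.A1 : ℝ) ≤ 200000000000 * dB * (10 - C + 2 * lam * Real.log (1 + hr1))
  sg : ∀ x, 0 ≤ x → x ≤ ((ks.getLastD 0 : ℕ) : ℝ) / 1000 → φ x ≤ ((p.sg : ℝ) - 10000000) / 1000000 * x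

/-- the meaning of the tables of a special knot -/
def TabR (B0 B1 : ℕ) (rd ks : List ℕ) (Z : ZT) : Prop :=
  ∀ ns : List ℕ, OkD rd ns →
    (1 ≤ dg Z.t0 (idx rd ns) → FM (1 ::ₘ ((B0 : ℝ) / 200) ::ₘ ((Z.q : ℝ) / 1000) ::ₘ mk ns (kR ks))
      ≤ (dg Z.t0 (idx rd ns) : ℝ) / 10 ^ 7) ∧
    (1 ≤ dg Z.t1 (idx rd ns) → FM (1 ::ₘ ((B1 : ℝ) / 200) ::ₘ ((Z.q : ℝ) / 1000) ::ₘ mk ns (kR ks))
      ≤ (dg Z.t1 (idx rd ns) : ℝ) / 10 ^ 7)

/-- consistency of the parameters -/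
structure BPOK (B0 B1 H0 H1 : ℕ) (P : BP) : Prop where
  B01 : B0 < B1
  B1' : B1 ≤ 200
  dB : P.dB = B1 - B0
  le0 : B0 ≤ H0
  le1 : H0 ≤ H1
  le2 : H1 ≤ B1
  a00 : P.a00 = B1 - H0
  a01 : P.a01 = H0 - B0
  a10 : P.a10 = B1 - H1
  a11 : P.a11 = H1 - B0
  h0 : P.h0 = 5 * H0
  h1 : P.h1 = 5 * H1
  hH : 62 ≤ H0
  len : P.rd.length = P.ks.length
  inc : Inc 0 (kR P.ks)

/-- the chord in `h` -/
lemma chord_h (S : Multiset ℝ) (h1 : 1 ∈ S) (hS : ∀ z ∈ S, 0 ≤ z ∧ z ≤ 1) (B0 B1 H : ℕ) (hB : B0 < B1)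
    (hB1 : B1 ≤ 200) (hH0 : B0 ≤ H) (hH1 : H ≤ B1) (v0 v1 : ℝ)
    (f0 : FM (((B0 : ℝ) / 200) ::ₘ S) ≤ v0) (f1 : FM (((B1 : ℝ) / 200) ::ₘ S) ≤ v1) :
    FM (((H : ℝ) / 200) ::ₘ S) * ((B1 - B0 : ℕ) : ℝ) ≤ ((B1 - H : ℕ) : ℝ) * v0 + ((H - B0 : ℕ) : ℝ) * v1 := by
  rw [Nat.cast_sub hB.le, Nat.cast_sub hH1, Nat.cast_sub hH0]
  have hBr : (B0 : ℝ) < B1 := by exact_mod_cast hB
  have hB1r : (B1 : ℝ) ≤ 200 := by exact_mod_cast hB1
  have hH0r : (B0 : ℝ) ≤ H := by exact_mod_cast hH0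
  have hH1r : (H : ℝ) ≤ B1 := by exact_mod_cast hH1
  have hB0r : (0 : ℝ) ≤ B0 := Nat.cast_nonneg _
  have hd : (0 : ℝ) < B1 - B0 := by linarith
  have hc := (FM_convexOn S h1 hS).2
    (show (B0 : ℝ) / 200 ∈ Set.Icc (0 : ℝ) 1 from ⟨by positivity, by linarith⟩)
    (show (B1 : ℝ) / 200 ∈ Set.Icc (0 : ℝ) 1 from ⟨by positivity, by linarith⟩)
    (show 0 ≤ ((B1 : ℝ) - H) / (B1 - B0) from div_nonneg (by linarith) hd.le)
    (show 0 ≤ ((H : ℝ) - B0) / (B1 - B0) from div_nonneg (by linarith) hd.le)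
    (by rw [← add_div]; rw [div_eq_one_iff_eq hd.ne']; ring)
  have e : ((B1 : ℝ) - H) / (B1 - B0) * ((B0 : ℝ) / 200) + ((H : ℝ) - B0) / (B1 - B0) * ((B1 : ℝ) / 200)
      = (H : ℝ) / 200 := by
    rw [div_mul_div_comm, div_mul_div_comm, ← add_div, div_eq_div_iff (by positivity) (by norm_num)]
    ring
  simp only [smul_eq_mul] at hc
  rw [e] at hc
  have h3 := mul_le_mul_of_nonneg_right hc hd.le
  rw [add_mul] at h3
  have e1 : ∀ a f : ℝ, a / ((B1 : ℝ) - B0) * f * (B1 - B0) = a * f := by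
    intro a f
    field_simp
  rw [e1, e1] at h3
  have h4 := mul_le_mul_of_nonneg_left f0 (by linarith : 0 ≤ (B1 : ℝ) - H)
  have h5 := mul_le_mul_of_nonneg_left f1 (by linarith : 0 ≤ (H : ℝ) - B0)
  linarith

lemma kR_sum (ks : List ℕ) : ∀ ns : List ℕ, (mk ns (kR ks)).sum = (Pk.dotN ns ks : ℝ) / 1000 := by
  induction ks with
  | nil => intro ns; cases ns <;> simp [mk, kR, Pk.dotN]
  | cons k ks ih =>
    intro ns
    cases ns with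
    | nil => simp [mk, kR, Pk.dotN]
    | cons n ns =>
      have e : mk (n :: ns) (kR (k :: ks)) = Multiset.replicate n ((k : ℝ) / 1000) + mk ns (kR ks) := rfl
      have e2 : Pk.dotN (n :: ns) (k :: ks) = n * k + Pk.dotN ns ks := rfl
      rw [e, e2, Multiset.sum_add, ih ns, Multiset.sum_replicate, nsmul_eq_mul]
      push_cast
      ring

lemma ldot0 (l X : List ℕ) : ldot l X (nat_lit 0) = Pk.dotN l X := by
  rw [ldot_eq]
  exact Nat.zero_add _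

/-- one end -/
lemma endOK_sound {ks : List ℕ} {dB : ℕ} (hdB : 0 < dB) {lam C ψq hr A' : ℝ} {φ ψ : ℝ → ℝ} (hlam : 0 ≤ lam)
    {p : PC} (hw : (p.w1 : ℝ) = 1000 * (1 + lam)) (H ta tb v0 v1 q S A : ℕ) (hH : 300 ≤ 5 * H)
    (ns : List ℕ) (hbn : ((mk ns (kR ks)).map φ).sum = ((Pk.dotN ns p.bn : ℝ) - 1000 * (Pk.dotN ns ks : ℝ)) / 100000)
    (hS : ψ ((q : ℝ) / 1000) = ((S : ℝ) - 1000000) / 100000)
    (hA : (A : ℝ) ≤ 200000000000 * dB * (10 - C + 2 * lam * Real.log (1 + (H : ℝ) / 200)))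
    (hF : FM (1 ::ₘ ((H : ℝ) / 200) ::ₘ ((q : ℝ) / 1000) ::ₘ mk ns (kR ks)) * (dB : ℝ)
      ≤ (ta : ℝ) * ((v0 : ℝ) / 10 ^ 7) + (tb : ℝ) * ((v1 : ℝ) / 10 ^ 7))
    (h : endOK dB p.w1 ta tb (5 * H) v0 v1 (Pk.dotN ns ks) (Nat.add q (Pk.dotN ns ks)) (Pk.dotN ns p.bn) S A = true) :
    VV lam C φ ψ ((H : ℝ) / 200) ((q : ℝ) / 1000) (mk ns (kR ks)) ≤ 0 := by
  unfold endOK at h
  rw [frc_eq] at h
  obtain ⟨g1, g2⟩ := cond_eq_true h
  have g1' := Nat.le_of_ble_eq_true g1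
  have g2' := Nat.le_of_ble_eq_true g2
  have g3 : 20 * p.w1 * (ta * v0 + tb * v1) + 2000000 * dB * (Pk.dotN ns p.bn + S)
      ≤ dB * (1000 * w20 (5 * H + (q + Pk.dotN ns ks)) + 2000000000 * Pk.dotN ns ks) + A := g2'
  have g1'' : 5 * H + (q + Pk.dotN ns ks) ≤ 7399 := g1'
  have hw20 := w20_le (5 * H + (q + Pk.dotN ns ks)) (by omega) (by omega)
  have g4 : (20 : ℝ) * p.w1 * (ta * v0 + tb * v1) + 2000000 * dB * ((Pk.dotN ns p.bn : ℝ) + S)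
      ≤ dB * (1000 * (w20 (5 * H + (q + Pk.dotN ns ks)) : ℝ) + 2000000000 * (Pk.dotN ns ks : ℝ)) + A := by
    exact_mod_cast g3
  have hdBr : (0 : ℝ) < dB := by exact_mod_cast hdB
  unfold VV
  rw [hbn, hS, kR_sum]
  have e1 : (H : ℝ) / 200 + (q : ℝ) / 1000 + (Pk.dotN ns ks : ℝ) / 1000
      = ((5 * H + (q + Pk.dotN ns ks) : ℕ) : ℝ) / 1000 := by push_cast; ring
  rw [e1]
  generalize Wc (((5 * H + (q + Pk.dotN ns ks) : ℕ) : ℝ) / 1000) = W at hw20 ⊢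
  generalize (w20 (5 * H + (q + Pk.dotN ns ks)) : ℝ) = w at g4 hw20
  generalize FM (1 ::ₘ ((H : ℝ) / 200) ::ₘ ((q : ℝ) / 1000) ::ₘ mk ns (kR ks)) = FF at hF ⊢
  generalize Real.log (1 + (H : ℝ) / 200) = L at hA ⊢
  generalize (Pk.dotN ns ks : ℝ) = T at g4 ⊢
  generalize (Pk.dotN ns p.bn : ℝ) = d at g4 ⊢
  rw [hw] at g4
  have h5 := mul_le_mul_of_nonneg_left hF (by linarith : (0 : ℝ) ≤ 200000000000 * (1 + lam))
  have h6 := mul_le_mul_of_nonneg_left hw20 (by positivity : (0 : ℝ) ≤ 200000000000 * dB)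
  have key : 200000000000 * (dB : ℝ) * ((1 + lam) * FF - W + (d - 1000 * T) / 100000
      + ((S : ℝ) - 1000000) / 100000 + C - 2 * lam * L) ≤ 0 := by
    nlinarith
  by_contra hcon
  push Not at hcon
  have := mul_pos (by positivity : (0 : ℝ) < 200000000000 * dB) hcon
  linarith

/-- one corner -/
lemma corOK_sound {B0 B1 H0 H1 : ℕ} {P : BP} (hP : BPOK B0 B1 H0 H1 P) {z0 z1 : ℕ} {Z0 Z1 : ZT}
    (hZ0 : TabR B0 B1 P.rd P.ks Z0) (hZ1 : TabR B0 B1 P.rd P.ks Z1) (hq0 : Z0.q ≤ 1000) (hq1 : Z1.q ≤ 1000)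
    {p : PC} {lam C : ℝ} {φ ψ : ℝ → ℝ}
    (hs : Sem P.ks P.dB ((H0 : ℝ) / 200) ((H1 : ℝ) / 200) Z0.q z0 Z1.q z1 p lam C φ ψ)
    (ns : List ℕ) (h : corOK P z0 Z0 z1 Z1 p ns = true) :
    (VV lam C φ ψ ((H0 : ℝ) / 200) ((Z0.q : ℝ) / 1000) (mk ns (kR P.ks)) ≤ 0 ∧
      VV lam C φ ψ ((H0 : ℝ) / 200) ((Z1.q : ℝ) / 1000) (mk ns (kR P.ks)) ≤ 0) ∧
    VV lam C φ ψ ((H1 : ℝ) / 200) ((Z0.q : ℝ) / 1000) (mk ns (kR P.ks)) ≤ 0 ∧
      VV lam C φ ψ ((H1 : ℝ) / 200) ((Z1.q : ℝ) / 1000) (mk ns (kR P.ks)) ≤ 0 := by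
  unfold corOK at h
  obtain ⟨hok, h⟩ := idxC_sound _ _ _ h
  rw [frc_eq, frc_eq, ldot0, ldot0] at h
  obtain ⟨g0, g1⟩ := cond_eq_true h
  have hlen : ns.length = P.ks.length := by rw [← hP.len]; exact List.Forall₂.length_eq hok
  have hbn := hs.bn ns hlen
  have hmem : ∀ z ∈ mk ns (kR P.ks), 0 ≤ z ∧ z ≤ 1 := fun z hz =>
    inc_mem _ 0 le_rfl hP.inc z (mk_mem _ ns z hz)
  have hdB : 0 < P.dB := by rw [hP.dB]; have := hP.B01; omega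
  have half : ∀ (z : ℕ) (Z : ZT), TabR B0 B1 P.rd P.ks Z → Z.q ≤ 1000 →
      ψ ((Z.q : ℝ) / 1000) = ((dg p.sn z : ℝ) - 1000000) / 100000 →
      halfOK P p z Z (idx P.rd ns) (Pk.dotN ns P.ks) (Pk.dotN ns p.bn) = true →
      VV lam C φ ψ ((H0 : ℝ) / 200) ((Z.q : ℝ) / 1000) (mk ns (kR P.ks)) ≤ 0 ∧
      VV lam C φ ψ ((H1 : ℝ) / 200) ((Z.q : ℝ) / 1000) (mk ns (kR P.ks)) ≤ 0 := by
    intro z Z hZ hq hψ hh
    unfold halfOK at hh
    rw [frc_eq, frc_eq, frc_eq, frc_eq] at hh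
    obtain ⟨k1, hh⟩ := cond_eq_true hh
    obtain ⟨k2, hh⟩ := cond_eq_true hh
    obtain ⟨k3, k4⟩ := cond_eq_true hh
    obtain ⟨f0, f1⟩ := hZ ns hok
    have f0' := f0 (Nat.le_of_ble_eq_true k1)
    have f1' := f1 (Nat.le_of_ble_eq_true k2)
    rw [Multiset.cons_swap] at f0' f1'
    have hqr : (Z.q : ℝ) ≤ 1000 := by exact_mod_cast hq
    have hS : ∀ z ∈ (1 ::ₘ ((Z.q : ℝ) / 1000) ::ₘ mk ns (kR P.ks)), 0 ≤ z ∧ z ≤ 1 := by
      intro z hz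
      simp only [Multiset.mem_cons] at hz
      rcases hz with rfl | rfl | hz
      · exact ⟨zero_le_one, le_rfl⟩
      · exact ⟨by positivity, by linarith⟩
      · exact hmem z hz
    constructor
    · have hc := chord_h _ (Multiset.mem_cons_self _ _) hS B0 B1 H0 hP.B01 hP.B1' hP.le0
        (hP.le1.trans hP.le2) _ _ f0' f1'
      rw [Multiset.cons_swap, ← hP.dB, ← hP.a00, ← hP.a01] at hc
      rw [hP.h0] at k3
      exact endOK_sound hdB (hr := 0) (A' := 0) (ψq := 0) hs.lam0 hs.w1 H0 _ _ _ _ Z.q _ _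
        (by have := hP.hH; omega) ns hbn hψ hs.A0 hc k3
    · have hc := chord_h _ (Multiset.mem_cons_self _ _) hS B0 B1 H1 hP.B01 hP.B1' (hP.le0.trans hP.le1)
        hP.le2 _ _ f0' f1'
      rw [Multiset.cons_swap, ← hP.dB, ← hP.a10, ← hP.a11] at hc
      rw [hP.h1] at k4
      exact endOK_sound hdB (hr := 0) (A' := 0) (ψq := 0) hs.lam0 hs.w1 H1 _ _ _ _ Z.q _ _
        (by have := hP.hH; have := hP.le1; omega) ns hbn hψ hs.A1 hc k4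
  obtain ⟨r1, r2⟩ := half z0 Z0 hZ0 hq0 hs.s0 g0
  obtain ⟨r3, r4⟩ := half z1 Z1 hZ1 hq1 hs.s1 g1
  exact ⟨⟨r1, r3⟩, r2, r4⟩

/-- one class on one cell -/
lemma cell_sound {B0 B1 H0 H1 : ℕ} {P : BP} (hP : BPOK B0 B1 H0 H1 P) {z0 z1 : ℕ} {Z0 Z1 : ZT}
    (hZ0 : TabR B0 B1 P.rd P.ks Z0) (hZ1 : TabR B0 B1 P.rd P.ks Z1) (hq0 : Z0.q ≤ 1000) (hq1 : Z1.q ≤ 1000)
    {p : PC} {lam C : ℝ} {φ ψ : ℝ → ℝ}
    (hs : Sem P.ks P.dB ((H0 : ℝ) / 200) ((H1 : ℝ) / 200) Z0.q z0 Z1.q z1 p lam C φ ψ)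
    (ns : List ℕ) (fs : List Bool)
    (h : allR (fun t : ℕ × List ℕ => corOK P z0 Z0 z1 Z1 p t.2) (cors ns fs) = true)
    (M' : Multiset ℝ) (hred : Red 0 (kR P.ks) ns fs M') (x tl : ℝ) (x0 : (H0 : ℝ) / 200 ≤ x)
    (x1 : x ≤ (H1 : ℝ) / 200) (t0 : (Z0.q : ℝ) / 1000 ≤ tl) (t1 : tl ≤ (Z1.q : ℝ) / 1000) :
    VV lam C φ ψ x tl M' ≤ 0 := by
  have hH1 : (H1 : ℝ) ≤ 200 := by
    have := hP.le2.trans hP.B1'
    exact_mod_cast this
  have hq1r : (Z1.q : ℝ) ≤ 1000 := by exact_mod_cast hq1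
  refine cell_le lam C hs.lam0 φ ψ (kR P.ks) hP.inc hs.aff hs.phi0 ((H0 : ℝ) / 200) ((H1 : ℝ) / 200)
    ((Z0.q : ℝ) / 1000) ((Z1.q : ℝ) / 1000) (by positivity) (by linarith) (by positivity) (by linarith)
    hs.psi ns fs M' hred ?_ x tl x0 x1 t0 t1
  intro t ht
  exact corOK_sound hP hZ0 hZ1 hq0 hq1 hs t.2 (allR_sound _ _ h t ht)

end CA
end Pool.Agent.Lib.MP_6947cd_al
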