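import Pool.Agent.Lib.MP_6947cd_al.L.CellD

/-!
Problem MP_6947cd_al (Chollet).  CASE A, rows `j`: one interval of the special entry (row function and additive
functional).
-/

set_option autoImplicit false

namespace Pool.Agent.Lib.MP_6947cd_al
namespace CA

open Ent Ent.Pk Fr Fr.WT

/-! ### the row function -/

lemma tmin_append (ps : List (ℕ × ℕ)) : ∀ (ns : List ℕ) (fs : List Bool) (ps' : List (ℕ × ℕ)) (ns' : List ℕ)
    (fs' : List Bool), ns.length = ps.length → fs.length = ps.length →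
    tmin (ps ++ ps') (ns ++ ns') (fs ++ fs') = tmin ps ns fs + tmin ps' ns' fs' := by
  induction ps with
  | nil =>
    intro ns fs ps' ns' fs' h1 h2
    have h1' := List.eq_nil_of_length_eq_zero h1
    have h2' := List.eq_nil_of_length_eq_zero h2
    subst h1' h2'
    simp [tmin]
  | cons p ps ih =>
    intro ns fs ps' ns' fs' h1 h2
    cases ns with
    | nil => simp at h1
    | cons n ns =>
      cases fs with
      | nil => simp at h2
      | cons f fs =>
        simp only [List.cons_append, tmin]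
        rw [ih ns fs ps' ns' fs' (by simpa using h1) (by simpa using h2)]
        ring

lemma tmin_reverse (ps : List (ℕ × ℕ)) : ∀ (ns : List ℕ) (fs : List Bool), ns.length = ps.length →
    fs.length = ps.length → tmin ps.reverse ns.reverse fs.reverse = tmin ps ns fs := by
  induction ps with
  | nil =>
    intro ns fs h1 h2
    have h1' := List.eq_nil_of_length_eq_zero h1
    have h2' := List.eq_nil_of_length_eq_zero h2
    subst h1' h2'
    rfl
  | cons p ps ih =>
    intro ns fs h1 h2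
    cases ns with
    | nil => simp at h1
    | cons n ns =>
      cases fs with
      | nil => simp at h2
      | cons f fs =>
        simp only [List.reverse_cons]
        rw [tmin_append _ _ _ _ _ _ (by simpa using h1) (by simpa using h2),
          ih ns fs (by simpa using h1) (by simpa using h2)]
        simp only [tmin]
        ring

/-- lengths and smallest total of a reduced multiset -/
lemma red_len (ks : List ℕ) : ∀ (a : ℕ) (ns : List ℕ) (fs : List Bool) (M : Multiset ℝ),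
    Red ((a : ℝ) / 1000) (kR ks) ns fs M → ns.length = ks.length ∧ fs.length = ks.length ∧
    (tmin (ks.zip (a :: ks)) ns fs : ℝ) / 1000 ≤ M.sum := by
  induction ks with
  | nil =>
    intro a ns fs M h
    cases ns with
    | nil =>
      cases fs with
      | nil =>
        have h0 : M = 0 := h
        rw [h0]
        simp [tmin]
      | cons f fs => exact h.elim
    | cons n ns => cases fs <;> exact h.elim
  | cons k ks ih =>
    intro a ns fs M h
    cases ns with
    | nil => exact h.elim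
    | cons n ns =>
      cases fs with
      | nil => exact h.elim
      | cons f fs =>
        obtain ⟨M', r, h1, h2, h3⟩ := h
        obtain ⟨l1, l2, l3⟩ := ih k ns fs M' h1
        refine ⟨by simp [l1], by simp [l2], ?_⟩
        have e : tmin ((k :: ks).zip (a :: k :: ks)) (n :: ns) (f :: fs)
            = n * k + (if f then a else 0) + tmin (ks.zip (k :: ks)) ns fs := rfl
        rw [e, h3, Multiset.sum_add, Multiset.sum_add, Multiset.sum_replicate, nsmul_eq_mul]
        have hr : (((if f then a else 0 : ℕ) : ℕ) : ℝ) / 1000 ≤ r.sum := by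
          cases f with
          | false =>
            have h2' : r = 0 := h2
            rw [h2']
            simp
          | true =>
            obtain ⟨y, h4, h5, h6⟩ := h2
            rw [h6, Multiset.sum_singleton]
            simpa using h4.le
        push_cast at hr ⊢
        have e1 : ((n : ℝ) * k + (if f = true then (a : ℝ) else 0) + (tmin (ks.zip (k :: ks)) ns fs : ℝ)) / 1000
            = n * (k / 1000) + (if f = true then (a : ℝ) else 0) / 1000
              + (tmin (ks.zip (k :: ks)) ns fs : ℝ) / 1000 := by ring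
        rw [e1]
        linarith

/-- what has to be known about a list of prepared classes -/
def SemL (x : Box) (q0 z0 q1 z1 : ℕ) (τ : ℕ) (l : List PC) : Prop :=
  ∀ p ∈ l, ∃ c ∈ x.cls, c.ty = τ ∧ (τ = 0 → c.w = 0) ∧
    Sem x.k (x.B1 - x.B0) ((x.H0 : ℝ) / 200) ((x.H1 : ℝ) / 200) q0 z0 q1 z1 p ((c.w : ℝ) / 1000) (cC c)
      (phR x c) (psi0 x c)

lemma valC_le (x : Box) (c : Cl) (g G' h tl : ℝ) (M : Multiset ℝ) (hg : g ≤ G')
    (hW : Wc (h + tl + M.sum) ≤ What (h + tl + M.sum)) :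
    ValC x c g h tl M ≤ (1 + (c.w : ℝ) / 1000) * G' - Wc (h + tl + M.sum) + (M.map (phR x c)).sum
      + psi0 x c tl + cC c - 2 * ((c.w : ℝ) / 1000) * Real.log (1 + h) := by
  unfold ValC psi0 cC
  have h1 : (0 : ℝ) ≤ 1 + (c.w : ℝ) / 1000 := by positivity
  have h2 := mul_le_mul_of_nonneg_left hg h1
  have h3 : (c.w : ℝ) / 1000 * ((if c.ty = 1 then 6 / 125 else -(1 / 2)) - 2 * Real.log (1 + h))
      = (c.w : ℝ) / 1000 * (if c.ty = 1 then 6 / 125 else -(1 / 2)) - 2 * ((c.w : ℝ) / 1000) * Real.log (1 + h) := by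
    ring
  rw [h3]
  linarith

/-- the case of the row function -/
theorem fcase {x : Box} {P : BP} (hP : BPOK x.B0 x.B1 x.H0 x.H1 P) (hks : P.ks = x.k) (hk : x.k ≠ [])
    {rks : List (ℕ × ℕ)} (hr : rks = (P.ks.zip (0 :: P.ks)).reverse) {z0 z1 : ℕ} {Z0 Z1 : ZT}
    (hZ0 : TabR x.B0 x.B1 P.rd P.ks Z0) (hZ1 : TabR x.B0 x.B1 P.rd P.ks Z1) (hq1 : Z1.q ≤ 1000)
    (hq01 : Z0.q ≤ Z1.q) {c0 c1 c2 : List PC}
    (s0 : SemL x Z0.q z0 Z1.q z1 0 c0) (s1 : SemL x Z0.q z0 Z1.q z1 1 c1) (s2 : SemL x Z0.q z0 Z1.q z1 2 c2)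
    (hchk : enum P.T1 (testF P c0 c1 c2 z0 Z0 z1 Z1) rks Z0.q [(0, [])] = true) (hT1 : P.T1 ≤ 6000)
    (h tl : ℝ) (M : Multiset ℝ) (h0 : (x.H0 : ℝ) / 200 ≤ h) (h1 : h ≤ (x.H1 : ℝ) / 200)
    (t0 : (Z0.q : ℝ) / 1000 ≤ tl) (t1 : tl ≤ (Z1.q : ℝ) / 1000)
    (hM : ∀ t ∈ M, 0 ≤ t ∧ t ≤ ((x.k.getLastD 0 : ℕ) : ℝ) / 1000)
    (hT : tl + M.sum < (P.T1 : ℝ) / 1000) (τ : ℕ) (hτ : τ = 1 ∨ τ = 2) :
    ∃ c ∈ x.cls, (c.ty = 0 ∧ c.w = 0 ∨ c.ty = τ) ∧ ValC x c (FM (1 ::ₘ h ::ₘ tl ::ₘ M)) h tl M ≤ 0 := by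
  have hinc := hP.inc
  have hH0r : (62 : ℝ) ≤ x.H0 := by exact_mod_cast hP.hH
  have hH1r : (x.H1 : ℝ) ≤ 200 := by
    have := hP.le2.trans hP.B1'
    exact_mod_cast this
  have hq1r : (Z1.q : ℝ) ≤ 1000 := by exact_mod_cast hq1
  have htl0 : 0 ≤ tl := le_trans (by positivity) t0
  have htop : top 0 (kR P.ks) = ((x.k.getLastD 0 : ℕ) : ℝ) / 1000 := by
    have e : ∀ (l : List ℝ) (a : ℝ), top a l = l.getLastD a := by
      intro l
      induction l with
      | nil => intro a; rfl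
      | cons k l ih => intro a; rw [List.getLastD_cons]; exact ih k
    rw [e, hks, kR_getLastD _ _ hk]
  obtain ⟨m, ns, fs, M', hred, hF, hmap, hsum⟩ := reduce (kR P.ks) 0 le_rfl hinc (1 ::ₘ h ::ₘ tl ::ₘ 0) M
    (Multiset.mem_cons_self _ _) (by
      intro z hz
      simp only [Multiset.mem_cons, Multiset.notMem_zero, or_false] at hz
      rcases hz with rfl | rfl | rfl
      · exact ⟨zero_le_one, le_rfl⟩
      · exact ⟨by linarith, by linarith⟩
      · exact ⟨htl0, by linarith⟩) (by rw [htop]; exact hM)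
  have hred' : Red (((0 : ℕ) : ℝ) / 1000) (kR P.ks) ns fs M' := by simpa using hred
  obtain ⟨l1, l2, l3⟩ := red_len P.ks 0 ns fs M' hred'
  rw [mul_zero, zero_add] at hsum
  -- the cell
  have htm : Z0.q + tmin (P.ks.zip (0 :: P.ks)) ns fs ≤ P.T1 := by
    have h3 : (Z0.q : ℝ) / 1000 + (tmin (P.ks.zip (0 :: P.ks)) ns fs : ℝ) / 1000 < (P.T1 : ℝ) / 1000 := by
      rw [← hsum] at l3
      linarith
    have h4 : ((Z0.q + tmin (P.ks.zip (0 :: P.ks)) ns fs : ℕ) : ℝ) < (P.T1 : ℝ) := by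
      push_cast
      linarith
    exact_mod_cast h4.le
  have hz : (P.ks.zip (0 :: P.ks)).length = P.ks.length := by simp
  have hpos : ∀ (ks : List ℕ) (a : ℕ), Inc ((a : ℝ) / 1000) (kR ks) → ∀ p ∈ ks.zip (a :: ks), 0 < p.1 := by
    intro ks
    induction ks with
    | nil => intro a _ p hp; simp at hp
    | cons k ks ih =>
      intro a hi p hp
      have e : (k :: ks).zip (a :: k :: ks) = (k, a) :: ks.zip (k :: ks) := rfl
      rw [e] at hp
      rcases List.mem_cons.mp hp with rfl | hp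
      · have h3 := hi.1
        have h4 : (a : ℝ) < k := by linarith
        have h5 : a < k := by exact_mod_cast h4
        show 0 < k
        omega
      · exact ih k hi.2 p hp
  have hinc' : Inc (((0 : ℕ) : ℝ) / 1000) (kR P.ks) := by simpa using hinc
  have htest := enum_sound P.T1 (testF P c0 c1 c2 z0 Z0 z1 Z1) rks Z0.q [] [] (by
      intro p hp
      rw [hr] at hp
      exact hpos P.ks 0 hinc' p (List.mem_reverse.mp hp)) hchk ns.reverse fs.reverse
      (by rw [hr, List.length_reverse, List.length_reverse, hz, l1])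
      (by rw [hr, List.length_reverse, List.length_reverse, hz, l2]) (by
        rw [hr, tmin_reverse _ _ _ (by rw [hz, l1]) (by rw [hz, l2])]
        exact htm)
  rw [List.reverseAux_eq, List.reverseAux_eq, List.reverse_reverse, List.reverse_reverse,
    List.append_nil, List.append_nil] at htest
  -- from the cell to the multiset
  have hWW : Wc (h + tl + M.sum) ≤ What (h + tl + M.sum) := by
    have hT1r : (P.T1 : ℝ) ≤ 6000 := by exact_mod_cast hT1
    have hMs : 0 ≤ M.sum := Multiset.sum_nonneg fun z hz => (hM z hz).1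
    exact Wc_le_What _ (by linarith) (by linarith)
  have main : ∀ (σ : ℕ) (l : List PC), SemL x Z0.q z0 Z1.q z1 σ l →
      anyR (fun c => allR (fun t => corOK P z0 Z0 z1 Z1 c t.2) (cors ns fs)) l = true →
      ∃ c ∈ x.cls, c.ty = σ ∧ (σ = 0 → c.w = 0) ∧ ValC x c (FM (1 ::ₘ h ::ₘ tl ::ₘ M)) h tl M ≤ 0 := by
    intro σ l hs hany
    obtain ⟨p, hp, hpc⟩ := anyR_sound _ _ hany
    obtain ⟨c, hc, hcσ, hcw, hsem⟩ := hs p hp
    refine ⟨c, hc, hcσ, hcw, ?_⟩
    have hsem' : Sem P.ks P.dB ((x.H0 : ℝ) / 200) ((x.H1 : ℝ) / 200) Z0.q z0 Z1.q z1 p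
        ((c.w : ℝ) / 1000) (cC c) (phR x c) (psi0 x c) := by rw [hks, hP.dB]; exact hsem
    have h3 := cell_sound hP hZ0 hZ1 (hq01.trans hq1) hq1 hsem' ns fs hpc M' hred h tl h0 h1 t0 t1
    refine (valC_le x c _ _ h tl M le_rfl hWW).trans (le_trans ?_ h3)
    unfold VV
    rw [← hsum, hmap (phR x c) hsem'.aff, hsem'.phi0, mul_zero, zero_add]
    have h4 : FM (1 ::ₘ h ::ₘ tl ::ₘ M) ≤ FM (1 ::ₘ h ::ₘ tl ::ₘ M') := by
      have e1 : (1 ::ₘ h ::ₘ tl ::ₘ 0) + M = 1 ::ₘ h ::ₘ tl ::ₘ M := by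
        simp only [Multiset.cons_add, zero_add]
      have e2 : (1 ::ₘ h ::ₘ tl ::ₘ 0) + (Multiset.replicate m 0 + M')
          = Multiset.replicate m 0 + (1 ::ₘ h ::ₘ tl ::ₘ M') := by
        simp only [← Multiset.singleton_add]
        abel
      rw [e1, e2, FM_zero_add] at hF
      exact hF
    have h5 : (0 : ℝ) ≤ 1 + (c.w : ℝ) / 1000 := by positivity
    have h6 := mul_le_mul_of_nonneg_left h4 h5
    linarith
  unfold testF at htest
  cases hb0 : anyR (fun c => allR (fun t => corOK P z0 Z0 z1 Z1 c t.2) (cors ns fs)) c0 with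
  | true =>
    obtain ⟨c, r1, r2, r3, r4⟩ := main 0 c0 s0 hb0
    exact ⟨c, r1, Or.inl ⟨r2, r3 rfl⟩, r4⟩
  | false =>
    rw [hb0, cond_false] at htest
    obtain ⟨k1, k2⟩ := cond_eq_true htest
    rcases hτ with rfl | rfl
    · obtain ⟨c, r1, r2, _, r4⟩ := main 1 c1 s1 k1
      exact ⟨c, r1, Or.inr r2, r4⟩
    · obtain ⟨c, r1, r2, _, r4⟩ := main 2 c2 s2 k2
      exact ⟨c, r1, Or.inr r2, r4⟩

/-! ### the additive functional -/

/-- one corner: `m = true`: additive bound, `m = false`: bound `1/2` -/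
noncomputable def gEnd (dB w1 hh gh gq q t S sg A : ℕ) (m : Bool) : Bool :=
  frc (Nat.add hh (Nat.add q t)) fun s => cond (Nat.ble s (nat_lit 7399))
    (frc (Nat.add (Nat.mul (nat_lit 20000000) S) (Nat.mul (Nat.mul (nat_lit 2000) sg) t)) fun l0 =>
      frc (Nat.add (Nat.mul (nat_lit 20000000000) t) (Nat.mul (nat_lit 10000) (w20 s))) fun r0 =>
      cond m
        (Nat.ble (Nat.mul dB (Nat.add (Nat.mul (Nat.mul (nat_lit 20) w1)
            (Nat.add (Nat.add gh gq) (Nat.mul (nat_lit 28250) t))) l0))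
          (Nat.add (Nat.mul dB (Nat.add (Nat.mul (Nat.mul (nat_lit 20) w1) (nat_lit 4800000)) r0))
            (Nat.mul (nat_lit 10) A)))
        (Nat.ble (Nat.mul dB (Nat.add (Nat.mul (Nat.mul (nat_lit 20) w1) (nat_lit 50000000)) l0))
          (Nat.add (Nat.mul dB r0) (Nat.mul (nat_lit 10) A))))
    false

noncomputable def gHalf (P : BP) (g0 g1 : ℕ) (p : PC) (z q gq t : ℕ) (m : Bool) : Bool :=
  frc (dg p.sn z) fun S => cond (gEnd P.dB p.w1 P.h0 g0 gq q t S p.sg p.A0 m)
    (gEnd P.dB p.w1 P.h1 g1 gq q t S p.sg p.A1 m) false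

noncomputable def gCls (P : BP) (g0 g1 : ℕ) (z0 q0 a0 z1 q1 a1 ta tb : ℕ) (p : PC) (m : Bool) : Bool :=
  cond (gHalf P g0 g1 p z0 q0 a0 ta m) (cond (gHalf P g0 g1 p z0 q0 a0 tb m)
    (cond (gHalf P g0 g1 p z1 q1 a1 ta m) (gHalf P g0 g1 p z1 q1 a1 tb m) false) false) false

noncomputable def gTest (P : BP) (c0 c1 c2 : List PC) (g0 g1 : ℕ) (z0 q0 a0 z1 q1 a1 ta tb : ℕ) : Bool :=
  cond (anyR (fun p => cond (gCls P g0 g1 z0 q0 a0 z1 q1 a1 ta tb p true) true
      (gCls P g0 g1 z0 q0 a0 z1 q1 a1 ta tb p false)) c0) true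
    (cond (anyR (fun p => cond (gCls P g0 g1 z0 q0 a0 z1 q1 a1 ta tb p true) true
        (gCls P g0 g1 z0 q0 a0 z1 q1 a1 ta tb p false)) c1)
      (anyR (fun p => cond (gCls P g0 g1 z0 q0 a0 z1 q1 a1 ta tb p true) true
        (gCls P g0 g1 z0 q0 a0 z1 q1 a1 ta tb p false)) c2) false)

noncomputable def gLoop (chk : ℕ → ℕ → Bool) (T1 q0 : ℕ) (nodes : List ℕ) : ℕ → Bool :=
  @List.rec ℕ (fun _ => ℕ → Bool) (fun a => Nat.ble T1 (Nat.add a q0))
    (fun b _ ih a => cond (Nat.ble T1 (Nat.add a q0)) true (cond (chk a b) (ih b) false)) nodes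

/-- a chord with the values `g0`, `g1` (`/ 10^8`) at `q0`, `q1` (`/ 1000`) is above `gtr` -/
def gqOK (q0 q1 g0 g1 : ℕ) : Bool :=
  (Nat.blt q0 q1 || (Nat.beq q0 q1 && Nat.beq g0 g1)) &&
  (if q1 ≤ 450 then Nat.ble (21500 * q0 + 15 * q0 ^ 2) g0 && Nat.ble (21500 * q1 + 15 * q1 ^ 2) g1
   else if 450 ≤ q0 then Nat.ble 12712500 g0 && Nat.ble 12712500 g1
   else Nat.ble (21500 * q0 + 15 * q0 ^ 2) g0 && (Nat.ble g0 g1 &&
     Nat.ble (12712500 * (q1 - q0)) (g0 * (q1 - 450) + g1 * (450 - q0))))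

lemma gLoop_sound (chk : ℕ → ℕ → Bool) (T1 q0 : ℕ) (nodes : List ℕ) : ∀ a : ℕ,
    gLoop chk T1 q0 nodes a = true → ∀ t : ℝ, (a : ℝ) / 1000 ≤ t → t + (q0 : ℝ) / 1000 < (T1 : ℝ) / 1000 →
    ∃ a' b' : ℕ, chk a' b' = true ∧ (a' : ℝ) / 1000 ≤ t ∧ t ≤ (b' : ℝ) / 1000 := by
  induction nodes with
  | nil =>
    intro a h t h1 h2
    have h3 : T1 ≤ a + q0 := Nat.le_of_ble_eq_true h
    have h4 : (T1 : ℝ) ≤ a + q0 := by exact_mod_cast h3
    linarith
  | cons b nodes ih =>
    intro a h t h1 h2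
    have e : gLoop chk T1 q0 (b :: nodes) a = cond (Nat.ble T1 (Nat.add a q0)) true
      (cond (chk a b) (gLoop chk T1 q0 nodes b) false) := rfl
    rw [e] at h
    cases h3 : Nat.ble T1 (Nat.add a q0) with
    | true =>
      have h4 : T1 ≤ a + q0 := Nat.le_of_ble_eq_true h3
      have h5 : (T1 : ℝ) ≤ a + q0 := by exact_mod_cast h4
      linarith
    | false =>
      rw [h3, cond_false] at h
      obtain ⟨h4, h5⟩ := cond_eq_true h
      rcases le_total t ((b : ℝ) / 1000) with h6 | h6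
      · exact ⟨a, b, h4, h1, h6⟩
      · exact ih b h5 t h6 h2

lemma gtr_eq (t : ℝ) : gtr (3 / 20) (9 / 20) t = 43 / 200 * min t (9 / 20) + 3 / 20 * (min t (9 / 20)) ^ 2 := rfl

/-- the chord -/
lemma gqOK_sound {q0 q1 g0 g1 : ℕ} (h : gqOK q0 q1 g0 g1 = true) : q0 ≤ q1 ∧ ∃ α β : ℝ,
    α * ((q0 : ℝ) / 1000) + β = (g0 : ℝ) / 100000000 ∧ α * ((q1 : ℝ) / 1000) + β = (g1 : ℝ) / 100000000 ∧
    ∀ t, (q0 : ℝ) / 1000 ≤ t → t ≤ (q1 : ℝ) / 1000 → gtr (3 / 20) (9 / 20) t ≤ α * t + β := by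
  unfold gqOK at h
  rw [Bool.and_eq_true, Bool.or_eq_true, Bool.and_eq_true] at h
  obtain ⟨h1, h2⟩ := h
  rcases h1 with h1 | ⟨h1, h1'⟩
  · have hlt : q0 < q1 := Nat.le_of_ble_eq_true h1
    have hltr : (q0 : ℝ) < q1 := by exact_mod_cast hlt
    have hd : (0 : ℝ) < q1 - q0 := by linarith
    refine ⟨hlt.le, ((g1 : ℝ) - g0) / 100000 / (q1 - q0),
      (g0 : ℝ) / 100000000 - ((g1 : ℝ) - g0) / 100000 / (q1 - q0) * ((q0 : ℝ) / 1000), by ring, ?_, ?_⟩
    · field_simp
      ring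
    · intro t ht0 ht1
      have hq0 : (0 : ℝ) ≤ q0 := Nat.cast_nonneg _
      have e : ((g1 : ℝ) - g0) / 100000 / (q1 - q0) * t + ((g0 : ℝ) / 100000000
          - ((g1 : ℝ) - g0) / 100000 / (q1 - q0) * ((q0 : ℝ) / 1000))
          = ((q1 - 1000 * t) * g0 + (1000 * t - q0) * g1) / (100000000 * (q1 - q0)) := by
        field_simp
        ring
      rw [e, le_div_iff₀ (by positivity), gtr_eq]
      have u0 : 0 ≤ (q1 : ℝ) - 1000 * t := by linarith
      have u1 : 0 ≤ 1000 * t - (q0 : ℝ) := by linarith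
      split_ifs at h2 with c1 c2
      · rw [Bool.and_eq_true] at h2
        have k0 : (21500 : ℝ) * q0 + 15 * q0 ^ 2 ≤ g0 := by exact_mod_cast Nat.le_of_ble_eq_true h2.1
        have k1 : (21500 : ℝ) * q1 + 15 * q1 ^ 2 ≤ g1 := by exact_mod_cast Nat.le_of_ble_eq_true h2.2
        have c1r : (q1 : ℝ) ≤ 450 := by exact_mod_cast c1
        rw [min_eq_left (by linarith)]
        have m0 := mul_le_mul_of_nonneg_left k0 u0
        have m1 := mul_le_mul_of_nonneg_left k1 u1
        nlinarith [mul_nonneg (mul_nonneg u0 u1) hd.le]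
      · rw [Bool.and_eq_true] at h2
        have k0 : (12712500 : ℝ) ≤ g0 := by exact_mod_cast Nat.le_of_ble_eq_true h2.1
        have k1 : (12712500 : ℝ) ≤ g1 := by exact_mod_cast Nat.le_of_ble_eq_true h2.2
        have c2r : (450 : ℝ) ≤ q0 := by exact_mod_cast c2
        rw [min_eq_right (by linarith)]
        have m0 := mul_le_mul_of_nonneg_left k0 u0
        have m1 := mul_le_mul_of_nonneg_left k1 u1
        linarith
      · rw [Bool.and_eq_true, Bool.and_eq_true] at h2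
        obtain ⟨h2a, h2b, h2c⟩ := h2
        have c1' : 450 < q1 := not_le.mp c1
        have c2' : q0 < 450 := not_le.mp c2
        have k0 : (21500 : ℝ) * q0 + 15 * q0 ^ 2 ≤ g0 := by exact_mod_cast Nat.le_of_ble_eq_true h2a
        have k1 : (g0 : ℝ) ≤ g1 := by exact_mod_cast Nat.le_of_ble_eq_true h2b
        have k2n := Nat.le_of_ble_eq_true h2c
        have k2 : (12712500 : ℝ) * (q1 - q0) ≤ g0 * (q1 - 450) + g1 * (450 - q0) := by
          have k3 : ((12712500 * (q1 - q0) : ℕ) : ℝ) ≤ ((g0 * (q1 - 450) + g1 * (450 - q0) : ℕ) : ℝ) := by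
            exact_mod_cast k2n
          push_cast [Nat.cast_sub hlt.le, Nat.cast_sub c1'.le, Nat.cast_sub c2'.le] at k3
          linarith
        have c1r : (450 : ℝ) < q1 := by exact_mod_cast c1'
        have c2r : (q0 : ℝ) < 450 := by exact_mod_cast c2'
        rcases le_total t (9 / 20) with ht | ht
        · rw [min_eq_left ht]
          -- compare with the chord between `q0` and `450`
          have hden : (0 : ℝ) < 450 - q0 := by linarith
          have u2 : 0 ≤ 450 - 1000 * t := by linarith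
          have v1 : (43 / 200 * t + 3 / 20 * t ^ 2) * (100000000 * (450 - q0))
              ≤ (450 - 1000 * t) * (21500 * q0 + 15 * q0 ^ 2) + (1000 * t - q0) * 12712500 := by
            nlinarith [mul_nonneg (mul_nonneg u1 u2) hden.le]
          have v2 := mul_le_mul_of_nonneg_left k0 u2
          have v3 := mul_le_mul_of_nonneg_left k2 u1
          have v4 : (450 - q0) * ((43 / 200 * t + 3 / 20 * t ^ 2) * (100000000 * (q1 - q0)))
              ≤ (450 - q0) * ((q1 - 1000 * t) * g0 + (1000 * t - q0) * g1) := by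
            have v5 := mul_le_mul_of_nonneg_right v1 hd.le
            have v6 := mul_le_mul_of_nonneg_right v2 hd.le
            nlinarith
          exact le_of_mul_le_mul_left v4 hden
        · rw [min_eq_right ht]
          have u3 : 0 ≤ 1000 * t - 450 := by linarith
          nlinarith [mul_nonneg u3 (sub_nonneg.mpr k1)]
  · have hq : q0 = q1 := Nat.eq_of_beq_eq_true h1
    have hg : g0 = g1 := Nat.eq_of_beq_eq_true h1'
    subst hq hg
    refine ⟨le_rfl, 0, (g0 : ℝ) / 100000000, by ring, by ring, fun t ht0 ht1 => ?_⟩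
    have ht : t = (q0 : ℝ) / 1000 := le_antisymm ht1 ht0
    have hq0 : (0 : ℝ) ≤ q0 := Nat.cast_nonneg _
    rw [gtr_eq, zero_mul, zero_add]
    split_ifs at h2 with c1 c2
    · rw [Bool.and_eq_true] at h2
      have k0 : (21500 : ℝ) * q0 + 15 * q0 ^ 2 ≤ g0 := by exact_mod_cast Nat.le_of_ble_eq_true h2.1
      have c1r : (q0 : ℝ) ≤ 450 := by exact_mod_cast c1
      rw [min_eq_left (by rw [ht]; linarith), ht]
      nlinarith
    · rw [Bool.and_eq_true] at h2
      have k0 : (12712500 : ℝ) ≤ g0 := by exact_mod_cast Nat.le_of_ble_eq_true h2.1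
      have c2r : (450 : ℝ) ≤ q0 := by exact_mod_cast c2
      rw [min_eq_right (by rw [ht]; linarith)]
      linarith
    · omega

end CA
end Pool.Agent.Lib.MP_6947cd_al
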