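import Pool.Agent.Lib.MP_6947cd_al.L.SpecW
import Pool.Agent.Lib.MP_6947cd_al.T.Point
import Pool.Agent.Lib.MP_6947cd_al.T.Tail

/-!
Problem MP_6947cd_al (Chollet).  Rows whose entries are all at most `3/10` are not bad.
-/

set_option autoImplicit false
open Finset

namespace Pool.Agent.Lib.MP_6947cd_al
namespace Fr
namespace LL

open Ent

theorem hub_pt (n D : ℕ) (tl : List (List (ℕ × List ℕ))) (x p : ℕ)
    (hp : patOK [1, n] D tl = true)
    (h : ptOK D [1, n] tl [(1, 1), (3, 10)] [10000, x] p 100000 = true)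
    {κ : Type} [Fintype κ] [DecidableEq κ] (b : κ → ℝ) (i : κ) (hi : b i = 1)
    (U : Finset κ) (hU : Disjoint ({i} : Finset κ) U) (hc : U.card = n) :
    F (hub b {i} U (3 / 10)) ≤ Real.log (p / 100000) := by
  have hiU : i ∉ U := Finset.disjoint_singleton_left.mp hU
  have h0 := pt_sound [1, n] D tl hp [(1, 1), (3, 10)] [10000, x] p 100000 h rfl rfl
    (by simp) (hub b {i} U (3 / 10)) (by
      intro j
      unfold hub
      split_ifs with h1 h2
      · rw [Finset.mem_singleton.mp h1, hi]; exact zero_le_one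
      · norm_num
      · exact le_rfl) ⟨i, by
        unfold hub
        rw [if_pos (Finset.mem_singleton_self i), hi]
        exact one_ne_zero⟩ (fun a => if a = 0 then {i} else U) (by
      intro a ha c hc' hac
      simp only [List.length_cons, List.length_nil] at ha hc'
      interval_cases a <;> interval_cases c
      · exact absurd rfl hac
      · exact hU
      · exact hU.symm
      · exact absurd rfl hac) (by
      intro a ha
      simp only [List.length_cons, List.length_nil] at ha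
      interval_cases a
      · simp
      · simp [hc]) (by
      intro k hk
      have h1 : k ∉ ({i} : Finset κ) := by simpa using hk 0 (by simp)
      have h2 : k ∉ U := by simpa using hk 1 (by simp)
      unfold hub
      rw [if_neg h1, if_neg h2]) (by
      intro a ha k hk
      simp only [List.length_cons, List.length_nil] at ha
      interval_cases a
      · have hk' : k ∈ ({i} : Finset κ) := by simpa using hk
        unfold hub
        rw [if_pos hk', Finset.mem_singleton.mp hk', hi]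
        simp
      · have hk' : k ∈ U := by simpa using hk
        have h3 : k ∉ ({i} : Finset κ) := fun h4 => hiU (by rwa [Finset.mem_singleton.mp h4] at hk')
        unfold hub
        rw [if_neg h3, if_pos hk']
        simp)
  refine h0.trans (le_of_eq ?_)
  norm_num

theorem lp1 {κ : Type} [Fintype κ] [DecidableEq κ] (b : κ → ℝ) (i : κ) (hi : b i = 1)
    (U : Finset κ) (hU : Disjoint ({i} : Finset κ) U) (hc : U.card = 1) :
    F (hub b {i} U (3 / 10)) ≤ Real.log (104404 / 100000) :=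
  hub_pt 1 2 [[(1, [1, 0]), (1, [1, 1])], [(1, [0, 1]), (1, [1, 1])]] 900 104404 (by decide +kernel) (by decide +kernel) b i hi U hU hc

theorem lp2 {κ : Type} [Fintype κ] [DecidableEq κ] (b : κ → ℝ) (i : κ) (hi : b i = 1)
    (U : Finset κ) (hU : Disjoint ({i} : Finset κ) U) (hc : U.card = 2) :
    F (hub b {i} U (3 / 10)) ≤ Real.log (110606 / 100000) :=
  hub_pt 2 6 [[(2, [1, 0]), (2, [1, 1]), (2, [1, 2])], [(2, [0, 1]), (1, [0, 2]), (1, [1, 1]), (2, [1, 2])]] 1095 110606 (by decide +kernel) (by decide +kernel) b i hi U hU hc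

theorem lp3 {κ : Type} [Fintype κ] [DecidableEq κ] (b : κ → ℝ) (i : κ) (hi : b i = 1)
    (U : Finset κ) (hU : Disjoint ({i} : Finset κ) U) (hc : U.card = 3) :
    F (hub b {i} U (3 / 10)) ≤ Real.log (118073 / 100000) :=
  hub_pt 3 12 [[(3, [1, 0]), (3, [1, 1]), (3, [1, 2]), (3, [1, 3])], [(3, [0, 1]), (2, [0, 2]), (1, [0, 3]), (1, [1, 1]), (2, [1, 2]), (3, [1, 3])]] 1261 118073 (by decide +kernel) (by decide +kernel) b i hi U hU hc

theorem lp4 {κ : Type} [Fintype κ] [DecidableEq κ] (b : κ → ℝ) (i : κ) (hi : b i = 1)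
    (U : Finset κ) (hU : Disjoint ({i} : Finset κ) U) (hc : U.card = 4) :
    F (hub b {i} U (3 / 10)) ≤ Real.log (126465 / 100000) :=
  hub_pt 4 20 [[(4, [1, 0]), (4, [1, 1]), (4, [1, 2]), (4, [1, 3]), (4, [1, 4])], [(4, [0, 1]), (3, [0, 2]), (2, [0, 3]), (1, [0, 4]), (1, [1, 1]), (2, [1, 2]), (3, [1, 3]), (4, [1, 4])]] 1401 126465 (by decide +kernel) (by decide +kernel) b i hi U hU hc

theorem lp5 {κ : Type} [Fintype κ] [DecidableEq κ] (b : κ → ℝ) (i : κ) (hi : b i = 1)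
    (U : Finset κ) (hU : Disjoint ({i} : Finset κ) U) (hc : U.card = 5) :
    F (hub b {i} U (3 / 10)) ≤ Real.log (135507 / 100000) :=
  hub_pt 5 30 [[(5, [1, 0]), (5, [1, 1]), (5, [1, 2]), (5, [1, 3]), (5, [1, 4]), (5, [1, 5])], [(5, [0, 1]), (4, [0, 2]), (3, [0, 3]), (2, [0, 4]), (1, [0, 5]), (1, [1, 1]), (2, [1, 2]), (3, [1, 3]), (4, [1, 4]), (5, [1, 5])]] 1520 135507 (by decide +kernel) (by decide +kernel) b i hi U hU hc

theorem lp6 {κ : Type} [Fintype κ] [DecidableEq κ] (b : κ → ℝ) (i : κ) (hi : b i = 1)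
    (U : Finset κ) (hU : Disjoint ({i} : Finset κ) U) (hc : U.card = 6) :
    F (hub b {i} U (3 / 10)) ≤ Real.log (145014 / 100000) :=
  hub_pt 6 42 [[(6, [1, 0]), (6, [1, 1]), (6, [1, 2]), (6, [1, 3]), (6, [1, 4]), (6, [1, 5]), (6, [1, 6])], [(6, [0, 1]), (5, [0, 2]), (4, [0, 3]), (3, [0, 4]), (2, [0, 5]), (1, [0, 6]), (1, [1, 1]), (2, [1, 2]), (3, [1, 3]), (4, [1, 4]), (5, [1, 5]), (6, [1, 6])]] 1622 145014 (by decide +kernel) (by decide +kernel) b i hi U hU hc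

theorem lp7 {κ : Type} [Fintype κ] [DecidableEq κ] (b : κ → ℝ) (i : κ) (hi : b i = 1)
    (U : Finset κ) (hU : Disjoint ({i} : Finset κ) U) (hc : U.card = 7) :
    F (hub b {i} U (3 / 10)) ≤ Real.log (154861 / 100000) :=
  hub_pt 7 56 [[(7, [1, 0]), (7, [1, 1]), (7, [1, 2]), (7, [1, 3]), (7, [1, 4]), (7, [1, 5]), (7, [1, 6]), (7, [1, 7])], [(7, [0, 1]), (6, [0, 2]), (5, [0, 3]), (4, [0, 4]), (3, [0, 5]), (2, [0, 6]), (1, [0, 7]), (1, [1, 1]), (2, [1, 2]), (3, [1, 3]), (4, [1, 4]), (5, [1, 5]), (6, [1, 6]), (7, [1, 7])]] 1710 154861 (by decide +kernel) (by decide +kernel) b i hi U hU hc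

theorem lp8 {κ : Type} [Fintype κ] [DecidableEq κ] (b : κ → ℝ) (i : κ) (hi : b i = 1)
    (U : Finset κ) (hU : Disjoint ({i} : Finset κ) U) (hc : U.card = 8) :
    F (hub b {i} U (3 / 10)) ≤ Real.log (164958 / 100000) :=
  hub_pt 8 72 [[(8, [1, 0]), (8, [1, 1]), (8, [1, 2]), (8, [1, 3]), (8, [1, 4]), (8, [1, 5]), (8, [1, 6]), (8, [1, 7]), (8, [1, 8])], [(8, [0, 1]), (7, [0, 2]), (6, [0, 3]), (5, [0, 4]), (4, [0, 5]), (3, [0, 6]), (2, [0, 7]), (1, [0, 8]), (1, [1, 1]), (2, [1, 2]), (3, [1, 3]), (4, [1, 4]), (5, [1, 5]), (6, [1, 6]), (7, [1, 7]), (8, [1, 8])]] 1787 164958 (by decide +kernel) (by decide +kernel) b i hi U hU hc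

theorem lp9 {κ : Type} [Fintype κ] [DecidableEq κ] (b : κ → ℝ) (i : κ) (hi : b i = 1)
    (U : Finset κ) (hU : Disjoint ({i} : Finset κ) U) (hc : U.card = 9) :
    F (hub b {i} U (3 / 10)) ≤ Real.log (175238 / 100000) :=
  hub_pt 9 90 [[(9, [1, 0]), (9, [1, 1]), (9, [1, 2]), (9, [1, 3]), (9, [1, 4]), (9, [1, 5]), (9, [1, 6]), (9, [1, 7]), (9, [1, 8]), (9, [1, 9])], [(9, [0, 1]), (8, [0, 2]), (7, [0, 3]), (6, [0, 4]), (5, [0, 5]), (4, [0, 6]), (3, [0, 7]), (2, [0, 8]), (1, [0, 9]), (1, [1, 1]), (2, [1, 2]), (3, [1, 3]), (4, [1, 4]), (5, [1, 5]), (6, [1, 6]), (7, [1, 7]), (8, [1, 8]), (9, [1, 9])]] 1854 175238 (by decide +kernel) (by decide +kernel) b i hi U hU hc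

theorem lp10 {κ : Type} [Fintype κ] [DecidableEq κ] (b : κ → ℝ) (i : κ) (hi : b i = 1)
    (U : Finset κ) (hU : Disjoint ({i} : Finset κ) U) (hc : U.card = 10) :
    F (hub b {i} U (3 / 10)) ≤ Real.log (185682 / 100000) :=
  hub_pt 10 110 [[(10, [1, 0]), (10, [1, 1]), (10, [1, 2]), (10, [1, 3]), (10, [1, 4]), (10, [1, 5]), (10, [1, 6]), (10, [1, 7]), (10, [1, 8]), (10, [1, 9]), (10, [1, 10])], [(10, [0, 1]), (9, [0, 2]), (8, [0, 3]), (7, [0, 4]), (6, [0, 5]), (5, [0, 6]), (4, [0, 7]), (3, [0, 8]), (2, [0, 9]), (1, [0, 10]), (1, [1, 1]), (2, [1, 2]), (3, [1, 3]), (4, [1, 4]), (5, [1, 5]), (6, [1, 6]), (7, [1, 7]), (8, [1, 8]), (9, [1, 9]), (10, [1, 10])]] 1914 185682 (by decide +kernel) (by decide +kernel) b i hi U hU hc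

theorem lp11 {κ : Type} [Fintype κ] [DecidableEq κ] (b : κ → ℝ) (i : κ) (hi : b i = 1)
    (U : Finset κ) (hU : Disjoint ({i} : Finset κ) U) (hc : U.card = 11) :
    F (hub b {i} U (3 / 10)) ≤ Real.log (196227 / 100000) :=
  hub_pt 11 132 [[(11, [1, 0]), (11, [1, 1]), (11, [1, 2]), (11, [1, 3]), (11, [1, 4]), (11, [1, 5]), (11, [1, 6]), (11, [1, 7]), (11, [1, 8]), (11, [1, 9]), (11, [1, 10]), (11, [1, 11])], [(11, [0, 1]), (10, [0, 2]), (9, [0, 3]), (8, [0, 4]), (7, [0, 5]), (6, [0, 6]), (5, [0, 7]), (4, [0, 8]), (3, [0, 9]), (2, [0, 10]), (1, [0, 11]), (1, [1, 1]), (2, [1, 2]), (3, [1, 3]), (4, [1, 4]), (5, [1, 5]), (6, [1, 6]), (7, [1, 7]), (8, [1, 8]), (9, [1, 9]), (10, [1, 10]), (11, [1, 11])]] 1967 196227 (by decide +kernel) (by decide +kernel) b i hi U hU hc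

theorem lp12 {κ : Type} [Fintype κ] [DecidableEq κ] (b : κ → ℝ) (i : κ) (hi : b i = 1)
    (U : Finset κ) (hU : Disjoint ({i} : Finset κ) U) (hc : U.card = 12) :
    F (hub b {i} U (3 / 10)) ≤ Real.log (206836 / 100000) :=
  hub_pt 12 156 [[(12, [1, 0]), (12, [1, 1]), (12, [1, 2]), (12, [1, 3]), (12, [1, 4]), (12, [1, 5]), (12, [1, 6]), (12, [1, 7]), (12, [1, 8]), (12, [1, 9]), (12, [1, 10]), (12, [1, 11]), (12, [1, 12])], [(12, [0, 1]), (11, [0, 2]), (10, [0, 3]), (9, [0, 4]), (8, [0, 5]), (7, [0, 6]), (6, [0, 7]), (5, [0, 8]), (4, [0, 9]), (3, [0, 10]), (2, [0, 11]), (1, [0, 12]), (1, [1, 1]), (2, [1, 2]), (3, [1, 3]), (4, [1, 4]), (5, [1, 5]), (6, [1, 6]), (7, [1, 7]), (8, [1, 8]), (9, [1, 9]), (10, [1, 10]), (11, [1, 11]), (12, [1, 12])]] 2014 206836 (by decide +kernel) (by decide +kernel) b i hi U hU hc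

theorem lp13 {κ : Type} [Fintype κ] [DecidableEq κ] (b : κ → ℝ) (i : κ) (hi : b i = 1)
    (U : Finset κ) (hU : Disjoint ({i} : Finset κ) U) (hc : U.card = 13) :
    F (hub b {i} U (3 / 10)) ≤ Real.log (217548 / 100000) :=
  hub_pt 13 182 [[(13, [1, 0]), (13, [1, 1]), (13, [1, 2]), (13, [1, 3]), (13, [1, 4]), (13, [1, 5]), (13, [1, 6]), (13, [1, 7]), (13, [1, 8]), (13, [1, 9]), (13, [1, 10]), (13, [1, 11]), (13, [1, 12]), (13, [1, 13])], [(13, [0, 1]), (12, [0, 2]), (11, [0, 3]), (10, [0, 4]), (9, [0, 5]), (8, [0, 6]), (7, [0, 7]), (6, [0, 8]), (5, [0, 9]), (4, [0, 10]), (3, [0, 11]), (2, [0, 12]), (1, [0, 13]), (1, [1, 1]), (2, [1, 2]), (3, [1, 3]), (4, [1, 4]), (5, [1, 5]), (6, [1, 6]), (7, [1, 7]), (8, [1, 8]), (9, [1, 9]), (10, [1, 10]), (11, [1, 11]), (12, [1, 12]), (13, [1, 13])]] 2057 217548 (by decide +kernel) (by decide +kernel) b i hi U hU hc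

theorem lp14 {κ : Type} [Fintype κ] [DecidableEq κ] (b : κ → ℝ) (i : κ) (hi : b i = 1)
    (U : Finset κ) (hU : Disjoint ({i} : Finset κ) U) (hc : U.card = 14) :
    F (hub b {i} U (3 / 10)) ≤ Real.log (228320 / 100000) :=
  hub_pt 14 210 [[(14, [1, 0]), (14, [1, 1]), (14, [1, 2]), (14, [1, 3]), (14, [1, 4]), (14, [1, 5]), (14, [1, 6]), (14, [1, 7]), (14, [1, 8]), (14, [1, 9]), (14, [1, 10]), (14, [1, 11]), (14, [1, 12]), (14, [1, 13]), (14, [1, 14])], [(14, [0, 1]), (13, [0, 2]), (12, [0, 3]), (11, [0, 4]), (10, [0, 5]), (9, [0, 6]), (8, [0, 7]), (7, [0, 8]), (6, [0, 9]), (5, [0, 10]), (4, [0, 11]), (3, [0, 12]), (2, [0, 13]), (1, [0, 14]), (1, [1, 1]), (2, [1, 2]), (3, [1, 3]), (4, [1, 4]), (5, [1, 5]), (6, [1, 6]), (7, [1, 7]), (8, [1, 8]), (9, [1, 9]), (10, [1, 10]), (11, [1, 11]), (12, [1, 12]), (13, [1, 13]), (14, [1, 14])]] 2096 228320 (by decide +kernel) (by decide +kernel) b i hi U hU hc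

theorem lp15 {κ : Type} [Fintype κ] [DecidableEq κ] (b : κ → ℝ) (i : κ) (hi : b i = 1)
    (U : Finset κ) (hU : Disjoint ({i} : Finset κ) U) (hc : U.card = 15) :
    F (hub b {i} U (3 / 10)) ≤ Real.log (239107 / 100000) :=
  hub_pt 15 240 [[(15, [1, 0]), (15, [1, 1]), (15, [1, 2]), (15, [1, 3]), (15, [1, 4]), (15, [1, 5]), (15, [1, 6]), (15, [1, 7]), (15, [1, 8]), (15, [1, 9]), (15, [1, 10]), (15, [1, 11]), (15, [1, 12]), (15, [1, 13]), (15, [1, 14]), (15, [1, 15])], [(15, [0, 1]), (14, [0, 2]), (13, [0, 3]), (12, [0, 4]), (11, [0, 5]), (10, [0, 6]), (9, [0, 7]), (8, [0, 8]), (7, [0, 9]), (6, [0, 10]), (5, [0, 11]), (4, [0, 12]), (3, [0, 13]), (2, [0, 14]), (1, [0, 15]), (1, [1, 1]), (2, [1, 2]), (3, [1, 3]), (4, [1, 4]), (5, [1, 5]), (6, [1, 6]), (7, [1, 7]), (8, [1, 8]), (9, [1, 9]), (10, [1, 10]), (11, [1, 11]), (12, [1, 12]), (13, [1, 13]), (14, [1, 14]), (15, [1, 15])]] 2131 239107 (by decide +kernel) (by decide +kernel)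 b i hi U hU hc

theorem lp16 {κ : Type} [Fintype κ] [DecidableEq κ] (b : κ → ℝ) (i : κ) (hi : b i = 1)
    (U : Finset κ) (hU : Disjoint ({i} : Finset κ) U) (hc : U.card = 16) :
    F (hub b {i} U (3 / 10)) ≤ Real.log (249950 / 100000) :=
  hub_pt 16 272 [[(16, [1, 0]), (16, [1, 1]), (16, [1, 2]), (16, [1, 3]), (16, [1, 4]), (16, [1, 5]), (16, [1, 6]), (16, [1, 7]), (16, [1, 8]), (16, [1, 9]), (16, [1, 10]), (16, [1, 11]), (16, [1, 12]), (16, [1, 13]), (16, [1, 14]), (16, [1, 15]), (16, [1, 16])], [(16, [0, 1]), (15, [0, 2]), (14, [0, 3]), (13, [0, 4]), (12, [0, 5]), (11, [0, 6]), (10, [0, 7]), (9, [0, 8]), (8, [0, 9]), (7, [0, 10]), (6, [0, 11]), (5, [0, 12]), (4, [0, 13]), (3, [0, 14]), (2, [0, 15]), (1, [0, 16]), (1, [1, 1]), (2, [1, 2]), (3, [1, 3]), (4, [1, 4]), (5, [1, 5]), (6, [1, 6]), (7, [1, 7]), (8, [1, 8]), (9, [1, 9]), (10, [1, 10]), (11, [1, 11]), (12, [1, 12]), (13, [1, 13]), (14, [1, 14]), (15, [1, 15]), (16,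 [1, 16])]] 2163 249950 (by decide +kernel) (by decide +kernel) b i hi U hU hc

theorem lp17 {κ : Type} [Fintype κ] [DecidableEq κ] (b : κ → ℝ) (i : κ) (hi : b i = 1)
    (U : Finset κ) (hU : Disjoint ({i} : Finset κ) U) (hc : U.card = 17) :
    F (hub b {i} U (3 / 10)) ≤ Real.log (260827 / 100000) :=
  hub_pt 17 306 [[(17, [1, 0]), (17, [1, 1]), (17, [1, 2]), (17, [1, 3]), (17, [1, 4]), (17, [1, 5]), (17, [1, 6]), (17, [1, 7]), (17, [1, 8]), (17, [1, 9]), (17, [1, 10]), (17, [1, 11]), (17, [1, 12]), (17, [1, 13]), (17, [1, 14]), (17, [1, 15]), (17, [1, 16]), (17, [1, 17])], [(17, [0, 1]), (16, [0, 2]), (15, [0, 3]), (14, [0, 4]), (13, [0, 5]), (12, [0, 6]), (11, [0, 7]), (10, [0, 8]), (9, [0, 9]), (8, [0, 10]), (7, [0, 11]), (6, [0, 12]), (5, [0, 13]), (4, [0, 14]), (3, [0, 15]), (2, [0, 16]), (1, [0, 17]), (1, [1, 1]), (2, [1, 2]), (3, [1, 3]), (4, [1, 4]), (5, [1, 5]), (6, [1, 6]), (7, [1, 7]), (8, [1, 8]), (9, [1, 9]),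 (10, [1, 10]), (11, [1, 11]), (12, [1, 12]), (13, [1, 13]), (14, [1, 14]), (15, [1, 15]), (16, [1, 16]), (17, [1, 17])]] 2193 260827 (by decide +kernel) (by decide +kernel) b i hi U hU hc

theorem lp18 {κ : Type} [Fintype κ] [DecidableEq κ] (b : κ → ℝ) (i : κ) (hi : b i = 1)
    (U : Finset κ) (hU : Disjoint ({i} : Finset κ) U) (hc : U.card = 18) :
    F (hub b {i} U (3 / 10)) ≤ Real.log (271732 / 100000) :=
  hub_pt 18 342 [[(18, [1, 0]), (18, [1, 1]), (18, [1, 2]), (18, [1, 3]), (18, [1, 4]), (18, [1, 5]), (18, [1, 6]), (18, [1, 7]), (18, [1, 8]), (18, [1, 9]), (18, [1, 10]), (18, [1, 11]), (18, [1, 12]), (18, [1, 13]), (18, [1, 14]), (18, [1, 15]), (18, [1, 16]), (18, [1, 17]), (18, [1, 18])], [(18, [0, 1]), (17, [0, 2]), (16, [0, 3]), (15, [0, 4]), (14, [0, 5]), (13, [0, 6]), (12, [0, 7]), (11, [0, 8]), (10, [0, 9]), (9, [0, 10]), (8, [0, 11]), (7, [0, 12]), (6, [0, 13]), (5, [0, 14]), (4, [0, 15]), (3, [0, 16]), (2,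 [0, 17]), (1, [0, 18]), (1, [1, 1]), (2, [1, 2]), (3, [1, 3]), (4, [1, 4]), (5, [1, 5]), (6, [1, 6]), (7, [1, 7]), (8, [1, 8]), (9, [1, 9]), (10, [1, 10]), (11, [1, 11]), (12, [1, 12]), (13, [1, 13]), (14, [1, 14]), (15, [1, 15]), (16, [1, 16]), (17, [1, 17]), (18, [1, 18])]] 2220 271732 (by decide +kernel) (by decide +kernel) b i hi U hU hc

theorem lp19 {κ : Type} [Fintype κ] [DecidableEq κ] (b : κ → ℝ) (i : κ) (hi : b i = 1)
    (U : Finset κ) (hU : Disjoint ({i} : Finset κ) U) (hc : U.card = 19) :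
    F (hub b {i} U (3 / 10)) ≤ Real.log (282677 / 100000) :=
  hub_pt 19 380 [[(19, [1, 0]), (19, [1, 1]), (19, [1, 2]), (19, [1, 3]), (19, [1, 4]), (19, [1, 5]), (19, [1, 6]), (19, [1, 7]), (19, [1, 8]), (19, [1, 9]), (19, [1, 10]), (19, [1, 11]), (19, [1, 12]), (19, [1, 13]), (19, [1, 14]), (19, [1, 15]), (19, [1, 16]), (19, [1, 17]), (19, [1, 18]), (19, [1, 19])], [(19, [0, 1]), (18, [0, 2]), (17, [0, 3]), (16, [0, 4]), (15, [0, 5]), (14, [0, 6]), (13, [0, 7]), (12, [0, 8]), (11, [0, 9]), (10, [0, 10]), (9, [0, 11]), (8, [0, 12]), (7, [0, 13]), (6, [0, 14]), (5, [0, 15]), (4, [0, 16]), (3, [0, 17]), (2, [0, 18]), (1, [0, 19]), (1, [1, 1]), (2, [1, 2]), (3, [1, 3]), (4, [1, 4]), (5, [1, 5]), (6, [1, 6]), (7, [1, 7]), (8, [1, 8]), (9, [1, 9]), (10, [1, 10]), (11, [1, 11]), (12, [1, 12]), (13, [1, 13]), (14, [1, 14]), (15, [1, 15]), (16, [1, 16]), (17, [1, 17]), (18, [1, 18]), (19, [1, 19])]] 2246 282677 (by decide +kernel)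 (by decide +kernel) b i hi U hU hc

theorem lp20 {κ : Type} [Fintype κ] [DecidableEq κ] (b : κ → ℝ) (i : κ) (hi : b i = 1)
    (U : Finset κ) (hU : Disjoint ({i} : Finset κ) U) (hc : U.card = 20) :
    F (hub b {i} U (3 / 10)) ≤ Real.log (293602 / 100000) :=
  hub_pt 20 420 [[(20, [1, 0]), (20, [1, 1]), (20, [1, 2]), (20, [1, 3]), (20, [1, 4]), (20, [1, 5]), (20, [1, 6]), (20, [1, 7]), (20, [1, 8]), (20, [1, 9]), (20, [1, 10]), (20, [1, 11]), (20, [1, 12]), (20, [1, 13]), (20, [1, 14]), (20, [1, 15]), (20, [1, 16]), (20, [1, 17]), (20, [1, 18]), (20, [1, 19]), (20, [1, 20])], [(20, [0, 1]), (19, [0, 2]), (18, [0, 3]), (17, [0, 4]), (16, [0, 5]), (15, [0, 6]), (14, [0, 7]), (13, [0, 8]), (12, [0, 9]), (11, [0, 10]), (10, [0, 11]), (9, [0, 12]), (8, [0, 13]), (7, [0, 14]), (6, [0, 15]), (5, [0, 16]), (4, [0, 17]), (3, [0, 18]), (2, [0, 19]), (1, [0, 20]), (1, [1, 1]), (2, [1, 2]), (3, [1, 3]), (4, [1, 4]), (5, [1, 5]), (6,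 [1, 6]), (7, [1, 7]), (8, [1, 8]), (9, [1, 9]), (10, [1, 10]), (11, [1, 11]), (12, [1, 12]), (13, [1, 13]), (14, [1, 14]), (15, [1, 15]), (16, [1, 16]), (17, [1, 17]), (18, [1, 18]), (19, [1, 19]), (20, [1, 20])]] 2269 293602 (by decide +kernel) (by decide +kernel) b i hi U hU hc

theorem lp21 {κ : Type} [Fintype κ] [DecidableEq κ] (b : κ → ℝ) (i : κ) (hi : b i = 1)
    (U : Finset κ) (hU : Disjoint ({i} : Finset κ) U) (hc : U.card = 21) :
    F (hub b {i} U (3 / 10)) ≤ Real.log (304563 / 100000) :=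
  hub_pt 21 462 [[(21, [1, 0]), (21, [1, 1]), (21, [1, 2]), (21, [1, 3]), (21, [1, 4]), (21, [1, 5]), (21, [1, 6]), (21, [1, 7]), (21, [1, 8]), (21, [1, 9]), (21, [1, 10]), (21, [1, 11]), (21, [1, 12]), (21, [1, 13]), (21, [1, 14]), (21, [1, 15]), (21, [1, 16]), (21, [1, 17]), (21, [1, 18]), (21, [1, 19]), (21, [1, 20]), (21, [1, 21])], [(21, [0, 1]), (20, [0, 2]), (19, [0, 3]), (18, [0, 4]), (17, [0, 5]), (16, [0, 6]), (15, [0, 7]), (14, [0, 8]), (13, [0, 9]), (12, [0, 10]), (11, [0, 11]), (10, [0, 12]), (9, [0, 13]), (8, [0, 14]), (7, [0, 15]), (6, [0, 16]), (5, [0, 17]), (4, [0, 18]), (3, [0, 19]), (2, [0, 20]), (1, [0, 21]), (1, [1, 1]), (2, [1, 2]), (3, [1, 3]), (4, [1, 4]), (5, [1, 5]), (6, [1, 6]), (7, [1, 7]), (8, [1, 8]), (9, [1, 9]), (10, [1, 10]), (11, [1, 11]), (12, [1, 12]), (13, [1, 13]), (14, [1, 14]), (15, [1, 15]), (16, [1, 16]), (17, [1, 17]), (18, [1, 18]), (19, [1, 19]), (20, [1, 20]), (21, [1, 21])]]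 2291 304563 (by decide +kernel) (by decide +kernel) b i hi U hU hc

/-- numerators of the exponentials of the bounds -/
def lpN : ℕ → ℕ := fun n => [100000, 104404, 110606, 118073, 126465, 135507, 145014, 154861, 164958,
  175238, 185682, 196227, 206836, 217548, 228320, 239107, 249950, 260827, 271732, 282677, 293602,
  304563].getD n 0

/-- the bounds -/
noncomputable def lpL (n : ℕ) : ℝ := if n ≤ 21 then Real.log (lpN n / 100000) else Lone n

theorem F_hub_le {κ : Type} [Fintype κ] [DecidableEq κ] (b : κ → ℝ) (i : κ) (hi : b i = 1)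
    (U : Finset κ) (hU : Disjoint ({i} : Finset κ) U) :
    F (hub b {i} U (3 / 10)) ≤ lpL U.card := by
  have hiU : i ∉ U := Finset.disjoint_singleton_left.mp hU
  unfold lpL
  split_ifs with hn
  · obtain ⟨m, hm⟩ : ∃ m, U.card = m := ⟨_, rfl⟩
    rw [hm] at hn ⊢
    interval_cases m
    · -- the isolated row
      have hU0 : U = ∅ := Finset.card_eq_zero.mp hm
      have h1 : F (hub b {i} U (3 / 10)) ≤ F (hub b {i} U 1) := by
        refine F_mono _ _ ?_ ?_ ⟨i, ?_⟩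
        · intro j; unfold hub
          split_ifs with h1 h2
          · rw [Finset.mem_singleton.mp h1, hi]; exact zero_le_one
          · norm_num
          · exact le_rfl
        · intro j; unfold hub
          split_ifs
          · exact le_rfl
          · norm_num
          · exact le_rfl
        · unfold hub
          rw [if_pos (Finset.mem_singleton_self i), hi]
          exact one_ne_zero
      have h2 := F_ones b i hi U hU
      rw [hm] at h2
      refine h1.trans (h2.trans ?_)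
      simp [Lone, lpN]
    · exact (lp1 b i hi U hU hm).trans (le_of_eq (by simp [lpN]))
    · exact (lp2 b i hi U hU hm).trans (le_of_eq (by simp [lpN]))
    · exact (lp3 b i hi U hU hm).trans (le_of_eq (by simp [lpN]))
    · exact (lp4 b i hi U hU hm).trans (le_of_eq (by simp [lpN]))
    · exact (lp5 b i hi U hU hm).trans (le_of_eq (by simp [lpN]))
    · exact (lp6 b i hi U hU hm).trans (le_of_eq (by simp [lpN]))
    · exact (lp7 b i hi U hU hm).trans (le_of_eq (by simp [lpN]))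
    · exact (lp8 b i hi U hU hm).trans (le_of_eq (by simp [lpN]))
    · exact (lp9 b i hi U hU hm).trans (le_of_eq (by simp [lpN]))
    · exact (lp10 b i hi U hU hm).trans (le_of_eq (by simp [lpN]))
    · exact (lp11 b i hi U hU hm).trans (le_of_eq (by simp [lpN]))
    · exact (lp12 b i hi U hU hm).trans (le_of_eq (by simp [lpN]))
    · exact (lp13 b i hi U hU hm).trans (le_of_eq (by simp [lpN]))
    · exact (lp14 b i hi U hU hm).trans (le_of_eq (by simp [lpN]))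
    · exact (lp15 b i hi U hU hm).trans (le_of_eq (by simp [lpN]))
    · exact (lp16 b i hi U hU hm).trans (le_of_eq (by simp [lpN]))
    · exact (lp17 b i hi U hU hm).trans (le_of_eq (by simp [lpN]))
    · exact (lp18 b i hi U hU hm).trans (le_of_eq (by simp [lpN]))
    · exact (lp19 b i hi U hU hm).trans (le_of_eq (by simp [lpN]))
    · exact (lp20 b i hi U hU hm).trans (le_of_eq (by simp [lpN]))
    · exact (lp21 b i hi U hU hm).trans (le_of_eq (by simp [lpN]))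
  · have h1 : F (hub b {i} U (3 / 10)) ≤ F (hub b {i} U 1) := by
      refine F_mono _ _ ?_ ?_ ⟨i, ?_⟩
      · intro j; unfold hub
        split_ifs with h1 h2
        · rw [Finset.mem_singleton.mp h1, hi]; exact zero_le_one
        · norm_num
        · exact le_rfl
      · intro j; unfold hub
        split_ifs
        · exact le_rfl
        · norm_num
        · exact le_rfl
      · unfold hub
        rw [if_pos (Finset.mem_singleton_self i), hi]
        exact one_ne_zero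
    exact h1.trans (F_ones b i hi U hU)

/-- the chord between two consecutive numbers of entries -/
theorem F_light_chord {κ : Type} [Fintype κ] [DecidableEq κ] (b : κ → ℝ) (hb0 : ∀ j, 0 ≤ b j)
    (i : κ) (hi : b i = 1) (hm : ∀ j, j ≠ i → b j ≤ 3 / 10) (n : ℕ) (hn : n + 1 ≤ 21)
    (h1 : (n : ℝ) * (3 / 10) ≤ ∑ j ∈ univ.erase i, b j)
    (h2 : ∑ j ∈ univ.erase i, b j ≤ ((n : ℝ) + 1) * (3 / 10)) :
    F b ≤ ((n : ℝ) + 1 - (∑ j ∈ univ.erase i, b j) / (3 / 10)) * Real.log (lpN n / 100000)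
      + ((∑ j ∈ univ.erase i, b j) / (3 / 10) - n) * Real.log (lpN (n + 1) / 100000) := by
  have e : (Finset.univ.erase i : Finset κ) = ({i} : Finset κ)ᶜ := by
    ext k; simp
  rw [e] at h1 h2 ⊢
  have hb1 : ∀ j, b j ≤ 1 := fun j => by
    by_cases hj : j = i
    · rw [hj, hi]
    · linarith [hm j hj]
  have h := F_le_chord b hb0 hb1 i hi {i} (Finset.mem_singleton_self i) (3 / 10) (by norm_num)
    (by norm_num) (fun k hk => hm k (by simpa using hk)) lpL
    (fun U hU => F_hub_le b i hi U hU) n h1 h2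
  unfold lpL at h
  rwa [if_pos (by omega), if_pos hn] at h

section Check
open IA

/-- the chord expression -/
def chE (n : ℕ) (W : E → E) : E :=
  .sub (.add (.mul (.sub (.cst (n + 1) 1) (.div .x0 (.cst 3 10))) (.log (.cst (lpN n) 100000)))
    (.mul (.sub (.div .x0 (.cst 3 10)) (.cst n 1)) (.log (.cst (lpN (n + 1)) 100000)))) (W .x0)

end Check


open IA T in
theorem ch1_W2_chk : chk [chE 1 W2E] (s0 (s0 (s0 (s0 (d 0) (d 0)) (s0 (d 0) (d 0))) (s0 (d 0) (d 0))) (s0 (s0 (d 0) (d 0)) (s0 (d 0) (d 0)))) ⟨329853488332, 461794883666⟩ ⟨0, 0⟩ ⟨0, 0⟩ = true := by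
  decide +kernel

theorem ch1_W2 (s : ℝ) (h0 : 3 / 10 ≤ s) (h1 : s ≤ 21 / 50) :
    (((1 : ℕ) : ℝ) + 1 - s / (3 / 10)) * Real.log (lpN 1 / 100000)
      + (s / (3 / 10) - ((1 : ℕ) : ℝ)) * Real.log (lpN (1 + 1) / 100000) ≤ W2 s := by
  have h := chk1 _ _ _ ch1_W2_chk s (by push_cast; linarith) (by push_cast; linarith)
  simp only [chE, IA.E.ev, W2E_ev] at h
  push_cast at h ⊢
  simp only [div_one] at h
  linarith

open IA T in
theorem ch1_W3_chk : chk [chE 1 W3E] (s0 (s0 (s0 (d 0) (d 0)) (d 0)) (s0 (d 0) (d 0))) ⟨461794883665, 659706976666⟩ ⟨0, 0⟩ ⟨0, 0⟩ = true := by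
  decide +kernel

theorem ch1_W3 (s : ℝ) (h0 : 21 / 50 ≤ s) (h1 : s ≤ 3 / 5) :
    (((1 : ℕ) : ℝ) + 1 - s / (3 / 10)) * Real.log (lpN 1 / 100000)
      + (s / (3 / 10) - ((1 : ℕ) : ℝ)) * Real.log (lpN (1 + 1) / 100000) ≤ W3 s := by
  have h := chk1 _ _ _ ch1_W3_chk s (by push_cast; linarith) (by push_cast; linarith)
  simp only [chE, IA.E.ev, W3E_ev] at h
  push_cast at h ⊢
  simp only [div_one] at h
  linarith

open IA T in
theorem ch2_W4_chk : chk [chE 2 W4E] (s0 (s0 (d 0) (d 0)) (d 0)) ⟨659706976665, 879609302221⟩ ⟨0, 0⟩ ⟨0, 0⟩ = true := by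
  decide +kernel

theorem ch2_W4 (s : ℝ) (h0 : 3 / 5 ≤ s) (h1 : s ≤ 4 / 5) :
    (((2 : ℕ) : ℝ) + 1 - s / (3 / 10)) * Real.log (lpN 2 / 100000)
      + (s / (3 / 10) - ((2 : ℕ) : ℝ)) * Real.log (lpN (2 + 1) / 100000) ≤ W4 s := by
  have h := chk1 _ _ _ ch2_W4_chk s (by push_cast; linarith) (by push_cast; linarith)
  simp only [chE, IA.E.ev, W4E_ev] at h
  push_cast at h ⊢
  simp only [div_one] at h
  linarith

open IA T in
theorem ch2_W5_chk : chk [chE 2 W5E] (d 0) ⟨879609302220, 989560464999⟩ ⟨0, 0⟩ ⟨0, 0⟩ = true := by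
  decide +kernel

theorem ch2_W5 (s : ℝ) (h0 : 4 / 5 ≤ s) (h1 : s ≤ 9 / 10) :
    (((2 : ℕ) : ℝ) + 1 - s / (3 / 10)) * Real.log (lpN 2 / 100000)
      + (s / (3 / 10) - ((2 : ℕ) : ℝ)) * Real.log (lpN (2 + 1) / 100000) ≤ W5 s := by
  have h := chk1 _ _ _ ch2_W5_chk s (by push_cast; linarith) (by push_cast; linarith)
  simp only [chE, IA.E.ev, W5E_ev] at h
  push_cast at h ⊢
  simp only [div_one] at h
  linarith

open IA T in
theorem ch3_W5_chk : chk [chE 3 W5E] (s0 (d 0) (d 0)) ⟨989560464998, 1319413953332⟩ ⟨0, 0⟩ ⟨0, 0⟩ = true := by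
  decide +kernel

theorem ch3_W5 (s : ℝ) (h0 : 9 / 10 ≤ s) (h1 : s ≤ 6 / 5) :
    (((3 : ℕ) : ℝ) + 1 - s / (3 / 10)) * Real.log (lpN 3 / 100000)
      + (s / (3 / 10) - ((3 : ℕ) : ℝ)) * Real.log (lpN (3 + 1) / 100000) ≤ W5 s := by
  have h := chk1 _ _ _ ch3_W5_chk s (by push_cast; linarith) (by push_cast; linarith)
  simp only [chE, IA.E.ev, W5E_ev] at h
  push_cast at h ⊢
  simp only [div_one] at h
  linarith

open IA T in
theorem ch4_W6_chk : chk [chE 4 W6E] (d 0) ⟨1319413953331, 1649267441664⟩ ⟨0, 0⟩ ⟨0, 0⟩ = true := by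
  decide +kernel

theorem ch4_W6 (s : ℝ) (h0 : 6 / 5 ≤ s) (h1 : s ≤ 3 / 2) :
    (((4 : ℕ) : ℝ) + 1 - s / (3 / 10)) * Real.log (lpN 4 / 100000)
      + (s / (3 / 10) - ((4 : ℕ) : ℝ)) * Real.log (lpN (4 + 1) / 100000) ≤ W6 s := by
  have h := chk1 _ _ _ ch4_W6_chk s (by push_cast; linarith) (by push_cast; linarith)
  simp only [chE, IA.E.ev, W6E_ev] at h
  push_cast at h ⊢
  simp only [div_one] at h
  linarith

open IA T in
theorem ch5_W6_chk : chk [chE 5 W6E] (d 0) ⟨1649267441664, 1979120929997⟩ ⟨0, 0⟩ ⟨0, 0⟩ = true := by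
  decide +kernel

theorem ch5_W6 (s : ℝ) (h0 : 3 / 2 ≤ s) (h1 : s ≤ 9 / 5) :
    (((5 : ℕ) : ℝ) + 1 - s / (3 / 10)) * Real.log (lpN 5 / 100000)
      + (s / (3 / 10) - ((5 : ℕ) : ℝ)) * Real.log (lpN (5 + 1) / 100000) ≤ W6 s := by
  have h := chk1 _ _ _ ch5_W6_chk s (by push_cast; linarith) (by push_cast; linarith)
  simp only [chE, IA.E.ev, W6E_ev] at h
  push_cast at h ⊢
  simp only [div_one] at h
  linarith

open IA T in
theorem ch6_W6_chk : chk [chE 6 W6E] (d 0) ⟨1979120929996, 2308974418330⟩ ⟨0, 0⟩ ⟨0, 0⟩ = true := by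
  decide +kernel

theorem ch6_W6 (s : ℝ) (h0 : 9 / 5 ≤ s) (h1 : s ≤ 21 / 10) :
    (((6 : ℕ) : ℝ) + 1 - s / (3 / 10)) * Real.log (lpN 6 / 100000)
      + (s / (3 / 10) - ((6 : ℕ) : ℝ)) * Real.log (lpN (6 + 1) / 100000) ≤ W6 s := by
  have h := chk1 _ _ _ ch6_W6_chk s (by push_cast; linarith) (by push_cast; linarith)
  simp only [chE, IA.E.ev, W6E_ev] at h
  push_cast at h ⊢
  simp only [div_one] at h
  linarith

open IA T in
theorem ch7_W6_chk : chk [chE 7 W6E] (d 0) ⟨2308974418329, 2638827906663⟩ ⟨0, 0⟩ ⟨0, 0⟩ = true := by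
  decide +kernel

theorem ch7_W6 (s : ℝ) (h0 : 21 / 10 ≤ s) (h1 : s ≤ 12 / 5) :
    (((7 : ℕ) : ℝ) + 1 - s / (3 / 10)) * Real.log (lpN 7 / 100000)
      + (s / (3 / 10) - ((7 : ℕ) : ℝ)) * Real.log (lpN (7 + 1) / 100000) ≤ W6 s := by
  have h := chk1 _ _ _ ch7_W6_chk s (by push_cast; linarith) (by push_cast; linarith)
  simp only [chE, IA.E.ev, W6E_ev] at h
  push_cast at h ⊢
  simp only [div_one] at h
  linarith

open IA T in
theorem ch8_W6_chk : chk [chE 8 W6E] (d 0) ⟨2638827906662, 2968681394996⟩ ⟨0, 0⟩ ⟨0, 0⟩ = true := by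
  decide +kernel

theorem ch8_W6 (s : ℝ) (h0 : 12 / 5 ≤ s) (h1 : s ≤ 27 / 10) :
    (((8 : ℕ) : ℝ) + 1 - s / (3 / 10)) * Real.log (lpN 8 / 100000)
      + (s / (3 / 10) - ((8 : ℕ) : ℝ)) * Real.log (lpN (8 + 1) / 100000) ≤ W6 s := by
  have h := chk1 _ _ _ ch8_W6_chk s (by push_cast; linarith) (by push_cast; linarith)
  simp only [chE, IA.E.ev, W6E_ev] at h
  push_cast at h ⊢
  simp only [div_one] at h
  linarith

open IA T in
theorem ch9_W6_chk : chk [chE 9 W6E] (d 0) ⟨2968681394995, 3298534883328⟩ ⟨0, 0⟩ ⟨0, 0⟩ = true := by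
  decide +kernel

theorem ch9_W6 (s : ℝ) (h0 : 27 / 10 ≤ s) (h1 : s ≤ 3) :
    (((9 : ℕ) : ℝ) + 1 - s / (3 / 10)) * Real.log (lpN 9 / 100000)
      + (s / (3 / 10) - ((9 : ℕ) : ℝ)) * Real.log (lpN (9 + 1) / 100000) ≤ W6 s := by
  have h := chk1 _ _ _ ch9_W6_chk s (by push_cast; linarith) (by push_cast; linarith)
  simp only [chE, IA.E.ev, W6E_ev] at h
  push_cast at h ⊢
  simp only [div_one] at h
  linarith

open IA T in
theorem ch10_W6_chk : chk [chE 10 W6E] (d 0) ⟨3298534883328, 3628388371661⟩ ⟨0, 0⟩ ⟨0, 0⟩ = true := by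
  decide +kernel

theorem ch10_W6 (s : ℝ) (h0 : 3 ≤ s) (h1 : s ≤ 33 / 10) :
    (((10 : ℕ) : ℝ) + 1 - s / (3 / 10)) * Real.log (lpN 10 / 100000)
      + (s / (3 / 10) - ((10 : ℕ) : ℝ)) * Real.log (lpN (10 + 1) / 100000) ≤ W6 s := by
  have h := chk1 _ _ _ ch10_W6_chk s (by push_cast; linarith) (by push_cast; linarith)
  simp only [chE, IA.E.ev, W6E_ev] at h
  push_cast at h ⊢
  simp only [div_one] at h
  linarith

open IA T in
theorem ch11_W6_chk : chk [chE 11 W6E] (d 0) ⟨3628388371660, 3958241859994⟩ ⟨0, 0⟩ ⟨0, 0⟩ = true := by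
  decide +kernel

theorem ch11_W6 (s : ℝ) (h0 : 33 / 10 ≤ s) (h1 : s ≤ 18 / 5) :
    (((11 : ℕ) : ℝ) + 1 - s / (3 / 10)) * Real.log (lpN 11 / 100000)
      + (s / (3 / 10) - ((11 : ℕ) : ℝ)) * Real.log (lpN (11 + 1) / 100000) ≤ W6 s := by
  have h := chk1 _ _ _ ch11_W6_chk s (by push_cast; linarith) (by push_cast; linarith)
  simp only [chE, IA.E.ev, W6E_ev] at h
  push_cast at h ⊢
  simp only [div_one] at h
  linarith

open IA T in
theorem ch12_W6_chk : chk [chE 12 W6E] (d 0) ⟨3958241859993, 4288095348327⟩ ⟨0, 0⟩ ⟨0, 0⟩ = true := by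
  decide +kernel

theorem ch12_W6 (s : ℝ) (h0 : 18 / 5 ≤ s) (h1 : s ≤ 39 / 10) :
    (((12 : ℕ) : ℝ) + 1 - s / (3 / 10)) * Real.log (lpN 12 / 100000)
      + (s / (3 / 10) - ((12 : ℕ) : ℝ)) * Real.log (lpN (12 + 1) / 100000) ≤ W6 s := by
  have h := chk1 _ _ _ ch12_W6_chk s (by push_cast; linarith) (by push_cast; linarith)
  simp only [chE, IA.E.ev, W6E_ev] at h
  push_cast at h ⊢
  simp only [div_one] at h
  linarith

open IA T in
theorem ch13_W6_chk : chk [chE 13 W6E] (d 0) ⟨4288095348326, 4617948836660⟩ ⟨0, 0⟩ ⟨0, 0⟩ = true := by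
  decide +kernel

theorem ch13_W6 (s : ℝ) (h0 : 39 / 10 ≤ s) (h1 : s ≤ 21 / 5) :
    (((13 : ℕ) : ℝ) + 1 - s / (3 / 10)) * Real.log (lpN 13 / 100000)
      + (s / (3 / 10) - ((13 : ℕ) : ℝ)) * Real.log (lpN (13 + 1) / 100000) ≤ W6 s := by
  have h := chk1 _ _ _ ch13_W6_chk s (by push_cast; linarith) (by push_cast; linarith)
  simp only [chE, IA.E.ev, W6E_ev] at h
  push_cast at h ⊢
  simp only [div_one] at h
  linarith

open IA T in
theorem ch14_W6_chk : chk [chE 14 W6E] (d 0) ⟨4617948836659, 4947802324992⟩ ⟨0, 0⟩ ⟨0, 0⟩ = true := by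
  decide +kernel

theorem ch14_W6 (s : ℝ) (h0 : 21 / 5 ≤ s) (h1 : s ≤ 9 / 2) :
    (((14 : ℕ) : ℝ) + 1 - s / (3 / 10)) * Real.log (lpN 14 / 100000)
      + (s / (3 / 10) - ((14 : ℕ) : ℝ)) * Real.log (lpN (14 + 1) / 100000) ≤ W6 s := by
  have h := chk1 _ _ _ ch14_W6_chk s (by push_cast; linarith) (by push_cast; linarith)
  simp only [chE, IA.E.ev, W6E_ev] at h
  push_cast at h ⊢
  simp only [div_one] at h
  linarith

open IA T in
theorem ch15_W6_chk : chk [chE 15 W6E] (d 0) ⟨4947802324992, 5277655813325⟩ ⟨0, 0⟩ ⟨0, 0⟩ = true := by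
  decide +kernel

theorem ch15_W6 (s : ℝ) (h0 : 9 / 2 ≤ s) (h1 : s ≤ 24 / 5) :
    (((15 : ℕ) : ℝ) + 1 - s / (3 / 10)) * Real.log (lpN 15 / 100000)
      + (s / (3 / 10) - ((15 : ℕ) : ℝ)) * Real.log (lpN (15 + 1) / 100000) ≤ W6 s := by
  have h := chk1 _ _ _ ch15_W6_chk s (by push_cast; linarith) (by push_cast; linarith)
  simp only [chE, IA.E.ev, W6E_ev] at h
  push_cast at h ⊢
  simp only [div_one] at h
  linarith

open IA T in
theorem ch16_W6_chk : chk [chE 16 W6E] (d 0) ⟨5277655813324, 5607509301658⟩ ⟨0, 0⟩ ⟨0, 0⟩ = true := by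
  decide +kernel

theorem ch16_W6 (s : ℝ) (h0 : 24 / 5 ≤ s) (h1 : s ≤ 51 / 10) :
    (((16 : ℕ) : ℝ) + 1 - s / (3 / 10)) * Real.log (lpN 16 / 100000)
      + (s / (3 / 10) - ((16 : ℕ) : ℝ)) * Real.log (lpN (16 + 1) / 100000) ≤ W6 s := by
  have h := chk1 _ _ _ ch16_W6_chk s (by push_cast; linarith) (by push_cast; linarith)
  simp only [chE, IA.E.ev, W6E_ev] at h
  push_cast at h ⊢
  simp only [div_one] at h
  linarith

open IA T in
theorem ch17_W6_chk : chk [chE 17 W6E] (d 0) ⟨5607509301657, 5937362789991⟩ ⟨0, 0⟩ ⟨0, 0⟩ = true := by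
  decide +kernel

theorem ch17_W6 (s : ℝ) (h0 : 51 / 10 ≤ s) (h1 : s ≤ 27 / 5) :
    (((17 : ℕ) : ℝ) + 1 - s / (3 / 10)) * Real.log (lpN 17 / 100000)
      + (s / (3 / 10) - ((17 : ℕ) : ℝ)) * Real.log (lpN (17 + 1) / 100000) ≤ W6 s := by
  have h := chk1 _ _ _ ch17_W6_chk s (by push_cast; linarith) (by push_cast; linarith)
  simp only [chE, IA.E.ev, W6E_ev] at h
  push_cast at h ⊢
  simp only [div_one] at h
  linarith

open IA T in
theorem ch18_W6_chk : chk [chE 18 W6E] (d 0) ⟨5937362789990, 6267216278324⟩ ⟨0, 0⟩ ⟨0, 0⟩ = true := by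
  decide +kernel

theorem ch18_W6 (s : ℝ) (h0 : 27 / 5 ≤ s) (h1 : s ≤ 57 / 10) :
    (((18 : ℕ) : ℝ) + 1 - s / (3 / 10)) * Real.log (lpN 18 / 100000)
      + (s / (3 / 10) - ((18 : ℕ) : ℝ)) * Real.log (lpN (18 + 1) / 100000) ≤ W6 s := by
  have h := chk1 _ _ _ ch18_W6_chk s (by push_cast; linarith) (by push_cast; linarith)
  simp only [chE, IA.E.ev, W6E_ev] at h
  push_cast at h ⊢
  simp only [div_one] at h
  linarith

open IA T in
theorem ch19_W6_chk : chk [chE 19 W6E] (d 0) ⟨6267216278323, 6597069766656⟩ ⟨0, 0⟩ ⟨0, 0⟩ = true := by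
  decide +kernel

theorem ch19_W6 (s : ℝ) (h0 : 57 / 10 ≤ s) (h1 : s ≤ 6) :
    (((19 : ℕ) : ℝ) + 1 - s / (3 / 10)) * Real.log (lpN 19 / 100000)
      + (s / (3 / 10) - ((19 : ℕ) : ℝ)) * Real.log (lpN (19 + 1) / 100000) ≤ W6 s := by
  have h := chk1 _ _ _ ch19_W6_chk s (by push_cast; linarith) (by push_cast; linarith)
  simp only [chE, IA.E.ev, W6E_ev] at h
  push_cast at h ⊢
  simp only [div_one] at h
  linarith

open IA T in
theorem ch20_W6_chk : chk [chE 20 W6E] (d 0) ⟨6597069766656, 6926923254989⟩ ⟨0, 0⟩ ⟨0, 0⟩ = true := by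
  decide +kernel

theorem ch20_W6 (s : ℝ) (h0 : 6 ≤ s) (h1 : s ≤ 63 / 10) :
    (((20 : ℕ) : ℝ) + 1 - s / (3 / 10)) * Real.log (lpN 20 / 100000)
      + (s / (3 / 10) - ((20 : ℕ) : ℝ)) * Real.log (lpN (20 + 1) / 100000) ≤ W6 s := by
  have h := chk1 _ _ _ ch20_W6_chk s (by push_cast; linarith) (by push_cast; linarith)
  simp only [chE, IA.E.ev, W6E_ev] at h
  push_cast at h ⊢
  simp only [div_one] at h
  linarith

/-- the tail -/
theorem wh_tail (s : ℝ) (hs : 31 / 5 ≤ s) : 2 * CholB.WM.wh s - 11 / 100 ≤ W6 s := by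
  have h1 : 0 < 1 + s := by linarith
  have h2 : Real.log ((4 / 5 + s) / (1 + s)) ≤ 0 := by
    refine Real.log_nonpos (by positivity) ?_
    rw [div_le_one h1]
    linarith
  have h3 : (1 / 5) / (4 / 5 + s) ≤ 1 / 35 := by
    rw [div_le_div_iff₀ (by linarith) (by norm_num)]
    linarith
  have h4 : 0 ≤ Real.log ((8 / 9 + s) / (1 + s)) + (1 / 9) / (8 / 9 + s) := by
    have h11 := Real.one_sub_inv_le_log_of_pos (show 0 < (8 / 9 + s) / (1 + s) by positivity)
    have h12 : 1 - ((8 / 9 + s) / (1 + s))⁻¹ = -((1 / 9) / (8 / 9 + s)) := by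
      rw [inv_div]
      field_simp
      ring
    rw [h12] at h11
    linarith
  have h5 : 0 ≤ 2 * Real.log (5 / 4) - Real.log 2 + 1 / 4 := by
    have hc : IA.chk [.sub (.cst 0 1) (.add (.sub (.mul (.cst 2 1) (.log (.cst 5 4)))
        (.log (.cst 2 1))) (.cst 1 4))] (.v 0) ⟨0, 0⟩ ⟨0, 0⟩ ⟨0, 0⟩ = true := by decide +kernel
    have h := chk1 _ _ _ hc 0 (by norm_num) (by norm_num)
    simp only [IA.E.ev] at h
    push_cast at h
    simp only [div_one] at h
    linarith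
  unfold W6 CholB.WM.wh
  linarith

theorem F_le_What_light {κ : Type} [Fintype κ] [DecidableEq κ] (b : κ → ℝ) (hb0 : ∀ j, 0 ≤ b j)
    (i : κ) (hi : b i = 1) (hm : ∀ j, j ≠ i → b j ≤ 3 / 10) :
    F b ≤ What (∑ j ∈ univ.erase i, b j) := by
  have hb1 : ∀ j, b j ≤ 1 := fun j => by
    by_cases hj : j = i
    · rw [hj, hi]
    · linarith [hm j hj]
  set s := ∑ j ∈ univ.erase i, b j with hsdef
  have hs0 : 0 ≤ s := Finset.sum_nonneg fun j _ => hb0 j
  have hch : ∀ n : ℕ, n + 1 ≤ 21 → (n : ℝ) * (3 / 10) ≤ s → s ≤ ((n : ℝ) + 1) * (3 / 10) →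
      F b ≤ ((n : ℝ) + 1 - s / (3 / 10)) * Real.log (lpN n / 100000)
        + (s / (3 / 10) - n) * Real.log (lpN (n + 1) / 100000) := fun n hn h1 h2 =>
    F_light_chord b hb0 i hi hm n hn h1 h2
  rcases le_or_gt s (3 / 10) with c0 | c0
  · have hF := F_le_Pc b hb0 hb1 i hi
    have hPc : Pc (s ^ 2) = s ^ 2 / 2 - s ^ 4 / 6 + s ^ 6 / 12 := by unfold Pc; ring
    rw [← hsdef, hPc] at hF
    rcases le_or_gt s (1 / 20) with c1 | c1
    · refine hF.trans (le_trans ?_ (What_zero s hs0 c1))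
      have h6 : s ^ 6 / 12 ≤ s ^ 4 / 6 := by
        have : s ^ 2 ≤ 1 := by nlinarith
        nlinarith [mul_nonneg (pow_nonneg hs0 4) (sub_nonneg.mpr this)]
      linarith
    rcases le_or_gt s (1 / 5) with c2 | c2
    · exact hF.trans ((b1_W1 s c1.le c2).trans (What_one s c1 c2))
    · exact hF.trans ((b1_W2 s c2.le c0).trans (What_two s c2 (by linarith)))
  rcases le_or_gt s (3 / 5) with c1 | c1
  · refine (hch 1 (by norm_num) (by push_cast; linarith) (by push_cast; linarith)).trans ?_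
    rcases le_or_gt s (21 / 50) with c | c
    · exact (ch1_W2 s c0.le c).trans (What_two s (by linarith) c)
    · exact (ch1_W3 s c.le c1).trans (What_three s c c1)
  rcases le_or_gt s (9 / 10) with c2 | c2
  · refine (hch 2 (by norm_num) (by push_cast; linarith) (by push_cast; linarith)).trans ?_
    rcases le_or_gt s (4 / 5) with c | c
    · exact (ch2_W4 s c1.le c).trans (What_four s c1 c)
    · exact (ch2_W5 s c.le c2).trans (What_five s c (by linarith))
  rcases le_or_gt s (6 / 5) with c3 | c3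
  · exact (hch 3 (by norm_num) (by push_cast; linarith) (by push_cast; linarith)).trans
      ((ch3_W5 s c2.le c3).trans (What_five s (by linarith) c3))
  rcases le_or_gt s (3 / 2) with c4 | c4
  · exact (hch 4 (by norm_num) (by push_cast; linarith) (by push_cast; linarith)).trans
      ((ch4_W6 s (by linarith) c4).trans (What_six s (by linarith)))
  rcases le_or_gt s (9 / 5) with c5 | c5
  · exact (hch 5 (by norm_num) (by push_cast; linarith) (by push_cast; linarith)).trans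
      ((ch5_W6 s (by linarith) c5).trans (What_six s (by linarith)))
  rcases le_or_gt s (21 / 10) with c6 | c6
  · exact (hch 6 (by norm_num) (by push_cast; linarith) (by push_cast; linarith)).trans
      ((ch6_W6 s (by linarith) c6).trans (What_six s (by linarith)))
  rcases le_or_gt s (12 / 5) with c7 | c7
  · exact (hch 7 (by norm_num) (by push_cast; linarith) (by push_cast; linarith)).trans
      ((ch7_W6 s (by linarith) c7).trans (What_six s (by linarith)))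
  rcases le_or_gt s (27 / 10) with c8 | c8
  · exact (hch 8 (by norm_num) (by push_cast; linarith) (by push_cast; linarith)).trans
      ((ch8_W6 s (by linarith) c8).trans (What_six s (by linarith)))
  rcases le_or_gt s (3) with c9 | c9
  · exact (hch 9 (by norm_num) (by push_cast; linarith) (by push_cast; linarith)).trans
      ((ch9_W6 s (by linarith) c9).trans (What_six s (by linarith)))
  rcases le_or_gt s (33 / 10) with c10 | c10
  · exact (hch 10 (by norm_num) (by push_cast; linarith) (by push_cast; linarith)).trans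
      ((ch10_W6 s (by linarith) c10).trans (What_six s (by linarith)))
  rcases le_or_gt s (18 / 5) with c11 | c11
  · exact (hch 11 (by norm_num) (by push_cast; linarith) (by push_cast; linarith)).trans
      ((ch11_W6 s (by linarith) c11).trans (What_six s (by linarith)))
  rcases le_or_gt s (39 / 10) with c12 | c12
  · exact (hch 12 (by norm_num) (by push_cast; linarith) (by push_cast; linarith)).trans
      ((ch12_W6 s (by linarith) c12).trans (What_six s (by linarith)))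
  rcases le_or_gt s (21 / 5) with c13 | c13
  · exact (hch 13 (by norm_num) (by push_cast; linarith) (by push_cast; linarith)).trans
      ((ch13_W6 s (by linarith) c13).trans (What_six s (by linarith)))
  rcases le_or_gt s (9 / 2) with c14 | c14
  · exact (hch 14 (by norm_num) (by push_cast; linarith) (by push_cast; linarith)).trans
      ((ch14_W6 s (by linarith) c14).trans (What_six s (by linarith)))
  rcases le_or_gt s (24 / 5) with c15 | c15
  · exact (hch 15 (by norm_num) (by push_cast; linarith) (by push_cast; linarith)).trans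
      ((ch15_W6 s (by linarith) c15).trans (What_six s (by linarith)))
  rcases le_or_gt s (51 / 10) with c16 | c16
  · exact (hch 16 (by norm_num) (by push_cast; linarith) (by push_cast; linarith)).trans
      ((ch16_W6 s (by linarith) c16).trans (What_six s (by linarith)))
  rcases le_or_gt s (27 / 5) with c17 | c17
  · exact (hch 17 (by norm_num) (by push_cast; linarith) (by push_cast; linarith)).trans
      ((ch17_W6 s (by linarith) c17).trans (What_six s (by linarith)))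
  rcases le_or_gt s (57 / 10) with c18 | c18
  · exact (hch 18 (by norm_num) (by push_cast; linarith) (by push_cast; linarith)).trans
      ((ch18_W6 s (by linarith) c18).trans (What_six s (by linarith)))
  rcases le_or_gt s (6) with c19 | c19
  · exact (hch 19 (by norm_num) (by push_cast; linarith) (by push_cast; linarith)).trans
      ((ch19_W6 s (by linarith) c19).trans (What_six s (by linarith)))
  rcases le_or_gt s (63 / 10) with c20 | c20
  · exact (hch 20 (by norm_num) (by push_cast; linarith) (by push_cast; linarith)).trans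
      ((ch20_W6 s (by linarith) c20).trans (What_six s (by linarith)))
  have hT := F_tail b hb0 hb1 i hi (by rw [← hsdef]; linarith)
  rw [← hsdef] at hT
  exact hT.trans ((wh_tail s (by linarith)).trans (What_six s (by linarith)))

/-- `SpecLight` -/
theorem specLight : SpecLight What := fun _ A h i hm =>
  D_nonpos h i (F_le_What_light (row A i) (row_nonneg A i) i (row_diag A h.diag i) hm)

end LL
end Fr
end Pool.Agent.Lib.MP_6947cd_al

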