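import Pool.Agent.Lib.MP_6947cd_al.L.CellE
import Pool.Agent.Lib.MP_6947cd_al.L.Light

/-!
Problem MP_6947cd_al (Chollet).  CASE A, rows `j`: the additive functional, rows with a large total.
-/

set_option autoImplicit false

namespace Pool.Agent.Lib.MP_6947cd_al
namespace CA

open Ent Ent.Pk Fr Fr.WT

/-- the bound of the functional -/
noncomputable def Gm (m : Bool) (u : ℝ) : ℝ := if m = true then u - 6 / 125 else 1 / 2

lemma gEnd_sound {dB : ℕ} (hdB : 0 < dB) {lam C ψq L : ℝ} (hlam : 0 ≤ lam) {w1 : ℕ}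
    (hw : (w1 : ℝ) = 1000 * (1 + lam)) (H gh gq q t S sg A : ℕ) (hH : 300 ≤ 5 * H) (m : Bool)
    (hS : ψq = ((S : ℝ) - 1000000) / 100000)
    (hA : (A : ℝ) ≤ 200000000000 * dB * (10 - C + 2 * lam * L))
    (h : gEnd dB w1 (5 * H) gh gq q t S sg A m = true) :
    (1 + lam) * Gm m ((gh : ℝ) / 100000000 + (gq : ℝ) / 100000000 + 113 / 400 * ((t : ℝ) / 1000))
      - Wc ((H : ℝ) / 200 + (q : ℝ) / 1000 + (t : ℝ) / 1000)
      + ((sg : ℝ) - 10000000) / 1000000 * ((t : ℝ) / 1000) + ψq + C - 2 * lam * L ≤ 0 := by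
  unfold gEnd at h
  rw [frc_eq] at h
  obtain ⟨g1, g2⟩ := cond_eq_true h
  rw [frc_eq, frc_eq] at g2
  have g1' : 5 * H + (q + t) ≤ 7399 := Nat.le_of_ble_eq_true g1
  have hw20 := w20_le (5 * H + (q + t)) (by omega) (by omega)
  have e1 : (H : ℝ) / 200 + (q : ℝ) / 1000 + (t : ℝ) / 1000 = ((5 * H + (q + t) : ℕ) : ℝ) / 1000 := by
    push_cast; ring
  rw [e1]
  have hdBr : (0 : ℝ) < dB := by exact_mod_cast hdB
  have h6 := mul_le_mul_of_nonneg_left hw20 (by positivity : (0 : ℝ) ≤ 2000000000000 * dB)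
  have hpos : (0 : ℝ) < 2000000000000 * dB := by positivity
  by_contra hcon
  push Not at hcon
  have h7 := mul_pos hpos hcon
  have e2 : Nat.add (5 * H) (Nat.add q t) = 5 * H + (q + t) := rfl
  rw [e2] at g2
  generalize Wc (((5 * H + (q + t) : ℕ) : ℝ) / 1000) = W at h6 h7
  cases m with
  | true =>
    rw [cond_true] at g2
    have g3 : dB * (20 * w1 * (gh + gq + 28250 * t) + (20000000 * S + 2000 * sg * t))
        ≤ dB * (20 * w1 * 4800000 + (20000000000 * t + 10000 * w20 (5 * H + (q + t)))) + 10 * A :=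
      Nat.le_of_ble_eq_true g2
    have g4 : (dB : ℝ) * (20 * w1 * ((gh : ℝ) + gq + 28250 * t) + (20000000 * S + 2000 * sg * t))
        ≤ dB * (20 * w1 * 4800000 + (20000000000 * t + 10000 * (w20 (5 * H + (q + t)) : ℝ))) + 10 * A := by
      exact_mod_cast g3
    generalize (w20 (5 * H + (q + t)) : ℝ) = w at g4 h6
    rw [hw] at g4
    rw [hS] at h7
    have e3 : Gm true ((gh : ℝ) / 100000000 + (gq : ℝ) / 100000000 + 113 / 400 * ((t : ℝ) / 1000))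
        = (gh : ℝ) / 100000000 + (gq : ℝ) / 100000000 + 113 / 400 * ((t : ℝ) / 1000) - 6 / 125 := if_pos rfl
    rw [e3] at h7
    nlinarith
  | false =>
    rw [cond_false] at g2
    have g3 : dB * (20 * w1 * 50000000 + (20000000 * S + 2000 * sg * t))
        ≤ dB * (20000000000 * t + 10000 * w20 (5 * H + (q + t))) + 10 * A :=
      Nat.le_of_ble_eq_true g2
    have g4 : (dB : ℝ) * (20 * w1 * 50000000 + (20000000 * S + 2000 * sg * t))
        ≤ dB * (20000000000 * t + 10000 * (w20 (5 * H + (q + t)) : ℝ)) + 10 * A := by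
      exact_mod_cast g3
    generalize (w20 (5 * H + (q + t)) : ℝ) = w at g4 h6
    rw [hw] at g4
    rw [hS] at h7
    have e3 : Gm false ((gh : ℝ) / 100000000 + (gq : ℝ) / 100000000 + 113 / 400 * ((t : ℝ) / 1000))
        = 1 / 2 := if_neg (by simp)
    rw [e3] at h7
    nlinarith

lemma convW (s : Set ℝ) (hs : Convex ℝ s) (a b e : ℝ) : ConvexOn ℝ s fun t => a * t + b - Wc (e + t) := by
  refine ⟨hs, fun x _ y _ p q hp hq hpq => ?_⟩
  have h2 := Wc_concave.2 (Set.mem_univ (e + x)) (Set.mem_univ (e + y)) hp hq hpq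
  have hq' : q = 1 - p := by linarith
  have e1 : p • (e + x) + q • (e + y) = e + (p • x + q • y) := by
    simp only [smul_eq_mul]
    rw [hq']
    ring
  rw [e1] at h2
  simp only [smul_eq_mul] at h2 ⊢
  have e2 : a * (p * x + q * y) + b = p * (a * x + b) + q * (a * y + b) := by
    rw [hq']
    ring
  rw [e2]
  linarith

/-- a separately convex function of three variables -/
lemma three (lam : ℝ) (hlam : 0 ≤ lam) (a1 a2 a3 b h0 h1 q0 q1 t0 t1 : ℝ) (hh0 : 0 ≤ h0)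
    (f : ℝ → ℝ → ℝ → ℝ) (hf : ∀ h q t, f h q t = a1 * h + a2 * q + a3 * t + b - Wc (h + q + t)
      - 2 * lam * Real.log (1 + h))
    (c : (f h0 q0 t0 ≤ 0 ∧ f h0 q0 t1 ≤ 0) ∧ (f h0 q1 t0 ≤ 0 ∧ f h0 q1 t1 ≤ 0) ∧
      (f h1 q0 t0 ≤ 0 ∧ f h1 q0 t1 ≤ 0) ∧ (f h1 q1 t0 ≤ 0 ∧ f h1 q1 t1 ≤ 0))
    (h q t : ℝ) (x0 : h0 ≤ h) (x1 : h ≤ h1) (y0 : q0 ≤ q) (y1 : q ≤ q1) (z0 : t0 ≤ t) (z1 : t ≤ t1) :
    f h q t ≤ 0 := by
  obtain ⟨⟨c1, c2⟩, ⟨c3, c4⟩, ⟨c5, c6⟩, c7, c8⟩ := c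
  have ct : ∀ h q, f h q t0 ≤ 0 → f h q t1 ≤ 0 → f h q t ≤ 0 := by
    intro h q d0 d1
    have hc : ConvexOn ℝ (Set.Icc t0 t1) fun t => f h q t := by
      refine (convW (Set.Icc t0 t1) (convex_Icc _ _) a3 (a1 * h + a2 * q + b - 2 * lam * Real.log (1 + h))
        (h + q)).congr fun t _ => ?_
      rw [hf]
      ring
    exact (hc.le_max_of_mem_Icc (Set.left_mem_Icc.mpr (z0.trans z1)) (Set.right_mem_Icc.mpr (z0.trans z1))
      ⟨z0, z1⟩).trans (max_le d0 d1)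
  have cq : ∀ h, f h q0 t ≤ 0 → f h q1 t ≤ 0 → f h q t ≤ 0 := by
    intro h d0 d1
    have hc : ConvexOn ℝ (Set.Icc q0 q1) fun q => f h q t := by
      refine (convW (Set.Icc q0 q1) (convex_Icc _ _) a2 (a1 * h + a3 * t + b - 2 * lam * Real.log (1 + h))
        (h + t)).congr fun q _ => ?_
      rw [hf, show h + q + t = h + t + q by ring]
      ring
    exact (hc.le_max_of_mem_Icc (Set.left_mem_Icc.mpr (y0.trans y1)) (Set.right_mem_Icc.mpr (y0.trans y1))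
      ⟨y0, y1⟩).trans (max_le d0 d1)
  have hc : ConvexOn ℝ (Set.Icc h0 h1) fun h => f h q t := by
    have cl : ConvexOn ℝ (Set.Icc h0 h1) fun t => -(2 * lam * Real.log (1 + t)) := by
      refine ⟨convex_Icc h0 h1, fun x hx y hy p q hp hq hpq => ?_⟩
      have h2 := strictConcaveOn_log_Ioi.concaveOn.2
        (show (1 + x) ∈ Set.Ioi (0 : ℝ) by simp only [Set.mem_Ioi]; linarith [hx.1])
        (show (1 + y) ∈ Set.Ioi (0 : ℝ) by simp only [Set.mem_Ioi]; linarith [hy.1]) hp hq hpq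
      have e1 : p • (1 + x) + q • (1 + y) = 1 + (p • x + q • y) := by
        have hq' : q = 1 - p := by linarith
        simp only [smul_eq_mul]
        rw [hq']
        ring
      rw [e1] at h2
      simp only [smul_eq_mul] at h2 ⊢
      nlinarith [mul_le_mul_of_nonneg_left h2 (by linarith : (0 : ℝ) ≤ 2 * lam)]
    refine ((convW (Set.Icc h0 h1) (convex_Icc _ _) a1 (a2 * q + a3 * t + b) (q + t)).add cl).congr
      fun h _ => ?_
    rw [hf, show h + q + t = q + t + h by ring]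
    simp only [Pi.add_apply]
    ring
  exact (hc.le_max_of_mem_Icc (Set.left_mem_Icc.mpr (x0.trans x1)) (Set.right_mem_Icc.mpr (x0.trans x1))
    ⟨x0, x1⟩).trans (max_le (cq h0 (ct h0 q0 c1 c2) (ct h0 q1 c3 c4)) (cq h1 (ct h1 q0 c5 c6) (ct h1 q1 c7 c8)))

lemma gtr_le_lin (t : ℝ) (ht : 0 ≤ t) : gtr (3 / 20) (9 / 20) t ≤ 113 / 400 * t := by
  rw [gtr_eq]
  rcases le_total t (9 / 20) with h | h
  · rw [min_eq_left h]
    nlinarith
  · rw [min_eq_right h]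
    linarith

lemma sum_le_lin (M : Multiset ℝ) (φ : ℝ → ℝ) (σ : ℝ) (h : ∀ t ∈ M, φ t ≤ σ * t) :
    (M.map φ).sum ≤ σ * M.sum := by
  induction M using Multiset.induction_on with
  | empty => simp
  | cons x M ih =>
    rw [Multiset.map_cons, Multiset.sum_cons, Multiset.sum_cons, mul_add]
    exact add_le_add (h x (Multiset.mem_cons_self _ _)) (ih fun t ht => h t (Multiset.mem_cons_of_mem ht))

/-- the case of the additive functional -/
theorem gcase {x : Box} {P : BP} (hP : BPOK x.B0 x.B1 x.H0 x.H1 P) {z0 z1 q0 q1 a0 a1 g0 g1 : ℕ}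
    {nodes : List ℕ} {c0 c1 c2 : List PC}
    (s0 : SemL x q0 z0 q1 z1 0 c0) (s1 : SemL x q0 z0 q1 z1 1 c1) (s2 : SemL x q0 z0 q1 z1 2 c2)
    (hgh : gqOK (5 * x.H0) (5 * x.H1) g0 g1 = true) (hgq : gqOK q0 q1 a0 a1 = true)
    (hchk : gLoop (gTest P c0 c1 c2 g0 g1 z0 q0 a0 z1 q1 a1) P.T1 q0 nodes 0 = true)
    (hT1 : P.T1 ≤ 6000) (g h tl : ℝ) (M : Multiset ℝ) (h0 : (x.H0 : ℝ) / 200 ≤ h)
    (h1 : h ≤ (x.H1 : ℝ) / 200) (t0 : (q0 : ℝ) / 1000 ≤ tl) (t1 : tl ≤ (q1 : ℝ) / 1000)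
    (hM : ∀ t ∈ M, 0 ≤ t ∧ t ≤ ((x.k.getLastD 0 : ℕ) : ℝ) / 1000)
    (hT : tl + M.sum < (P.T1 : ℝ) / 1000)
    (hg : g ≤ min (gtr (3 / 20) (9 / 20) h + gtr (3 / 20) (9 / 20) tl
        + (M.map (gtr (3 / 20) (9 / 20))).sum - 6 / 125) (1 / 2)) (τ : ℕ) (hτ : τ = 1 ∨ τ = 2) :
    ∃ c ∈ x.cls, (c.ty = 0 ∧ c.w = 0 ∨ c.ty = τ) ∧ ValC x c g h tl M ≤ 0 := by
  have hH0r : (62 : ℝ) ≤ x.H0 := by exact_mod_cast hP.hH
  have hH1r : (x.H1 : ℝ) ≤ 200 := by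
    have := hP.le2.trans hP.B1'
    exact_mod_cast this
  have htl0 : 0 ≤ tl := le_trans (by positivity) t0
  have hMs : 0 ≤ M.sum := Multiset.sum_nonneg fun z hz => (hM z hz).1
  have hT1r : (P.T1 : ℝ) ≤ 6000 := by exact_mod_cast hT1
  have hWW : Wc (h + tl + M.sum) ≤ What (h + tl + M.sum) :=
    Wc_le_What _ (by linarith) (by linarith)
  obtain ⟨ta, tb, hab, u0, u1⟩ := gLoop_sound _ _ _ _ 0 hchk M.sum (by simpa using hMs) (by linarith)
  obtain ⟨_, αh, βh, eh0, eh1, hgh'⟩ := gqOK_sound hgh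
  obtain ⟨_, αq, βq, eq0, eq1, hgq'⟩ := gqOK_sound hgq
  have ex0 : ((5 * x.H0 : ℕ) : ℝ) / 1000 = (x.H0 : ℝ) / 200 := by push_cast; ring
  have ex1 : ((5 * x.H1 : ℕ) : ℝ) / 1000 = (x.H1 : ℝ) / 200 := by push_cast; ring
  rw [ex0] at eh0 hgh'
  rw [ex1] at eh1 hgh'
  have hdB : 0 < P.dB := by rw [hP.dB]; have := hP.B01; omega
  have hgL : g ≤ (αh * h + βh) + (αq * tl + βq) + 113 / 400 * M.sum - 6 / 125 := by
    have k1 := hg.trans (min_le_left _ _)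
    have k2 := hgh' h h0 h1
    have k3 := hgq' tl t0 t1
    have k4 := sum_le_lin M (gtr (3 / 20) (9 / 20)) (113 / 400) fun t ht => gtr_le_lin t (hM t ht).1
    linarith
  have hgH : g ≤ 1 / 2 := hg.trans (min_le_right _ _)
  have main : ∀ (σ : ℕ) (l : List PC), SemL x q0 z0 q1 z1 σ l →
      anyR (fun p => cond (gCls P g0 g1 z0 q0 a0 z1 q1 a1 ta tb p true) true
        (gCls P g0 g1 z0 q0 a0 z1 q1 a1 ta tb p false)) l = true →
      ∃ c ∈ x.cls, c.ty = σ ∧ (σ = 0 → c.w = 0) ∧ ValC x c g h tl M ≤ 0 := by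
    intro σ l hs hany
    obtain ⟨p, hp, hpc⟩ := anyR_sound _ _ hany
    obtain ⟨c, hc, hcσ, hcw, hsem⟩ := hs p hp
    refine ⟨c, hc, hcσ, hcw, ?_⟩
    -- the mode
    obtain ⟨m, hm⟩ : ∃ m : Bool, gCls P g0 g1 z0 q0 a0 z1 q1 a1 ta tb p m = true := by
      cases hb : gCls P g0 g1 z0 q0 a0 z1 q1 a1 ta tb p true with
      | true => exact ⟨true, hb⟩
      | false =>
        rw [hb, cond_false] at hpc
        exact ⟨false, hpc⟩
    unfold gCls at hm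
    obtain ⟨m1, hm⟩ := cond_eq_true hm
    obtain ⟨m2, hm⟩ := cond_eq_true hm
    obtain ⟨m3, m4⟩ := cond_eq_true hm
    obtain ⟨αψ, βψ, hψ⟩ := hsem.psi
    have hq01 : (q0 : ℝ) / 1000 ≤ (q1 : ℝ) / 1000 := t0.trans t1
    have hψ0 := hψ _ le_rfl hq01
    have hψ1 := hψ _ hq01 le_rfl
    have hA0 : (p.A0 : ℝ) ≤ 200000000000 * (P.dB : ℕ) * (10 - cC c
        + 2 * ((c.w : ℝ) / 1000) * Real.log (1 + (x.H0 : ℝ) / 200)) := by rw [hP.dB]; exact hsem.A0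
    have hA1 : (p.A1 : ℝ) ≤ 200000000000 * (P.dB : ℕ) * (10 - cC c
        + 2 * ((c.w : ℝ) / 1000) * Real.log (1 + (x.H1 : ℝ) / 200)) := by rw [hP.dB]; exact hsem.A1
    have half : ∀ z q gq t : ℕ, gHalf P g0 g1 p z q gq t m = true →
        psi0 x c ((q : ℝ) / 1000) = ((dg p.sn z : ℝ) - 1000000) / 100000 →
        ((1 + (c.w : ℝ) / 1000) * Gm m ((g0 : ℝ) / 100000000 + (gq : ℝ) / 100000000
            + 113 / 400 * ((t : ℝ) / 1000))
          - Wc ((x.H0 : ℝ) / 200 + (q : ℝ) / 1000 + (t : ℝ) / 1000)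
          + ((p.sg : ℝ) - 10000000) / 1000000 * ((t : ℝ) / 1000) + psi0 x c ((q : ℝ) / 1000) + cC c
          - 2 * ((c.w : ℝ) / 1000) * Real.log (1 + (x.H0 : ℝ) / 200) ≤ 0) ∧
        ((1 + (c.w : ℝ) / 1000) * Gm m ((g1 : ℝ) / 100000000 + (gq : ℝ) / 100000000
            + 113 / 400 * ((t : ℝ) / 1000))
          - Wc ((x.H1 : ℝ) / 200 + (q : ℝ) / 1000 + (t : ℝ) / 1000)
          + ((p.sg : ℝ) - 10000000) / 1000000 * ((t : ℝ) / 1000) + psi0 x c ((q : ℝ) / 1000) + cC c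
          - 2 * ((c.w : ℝ) / 1000) * Real.log (1 + (x.H1 : ℝ) / 200) ≤ 0) := by
      intro z q gq t hh hψq
      unfold gHalf at hh
      rw [frc_eq] at hh
      obtain ⟨k1, k2⟩ := cond_eq_true hh
      rw [hP.h0] at k1
      rw [hP.h1] at k2
      have hH := hP.hH
      have hH' := hP.le1
      exact ⟨gEnd_sound hdB hsem.lam0 hsem.w1 x.H0 g0 gq q t _ _ _ (by omega) m hψq hA0 k1,
        gEnd_sound hdB hsem.lam0 hsem.w1 x.H1 g1 gq q t _ _ _ (by omega) m hψq hA1 k2⟩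
    obtain ⟨r1, r2⟩ := half z0 q0 a0 ta m1 hsem.s0
    obtain ⟨r3, r4⟩ := half z0 q0 a0 tb m2 hsem.s0
    obtain ⟨r5, r6⟩ := half z1 q1 a1 ta m3 hsem.s1
    obtain ⟨r7, r8⟩ := half z1 q1 a1 tb m4 hsem.s1
    -- the value of the functional
    have hgm : g ≤ Gm m ((αh * h + βh) + (αq * tl + βq) + 113 / 400 * M.sum) := by
      unfold Gm
      split_ifs
      · exact hgL
      · exact hgH
    have hφ : (M.map (phR x c)).sum ≤ ((p.sg : ℝ) - 10000000) / 1000000 * M.sum :=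
      sum_le_lin M _ _ fun t ht => hsem.sg t (hM t ht).1 (hM t ht).2
    refine (valC_le x c _ _ h tl M hgm hWW).trans ?_
    refine le_trans (add_le_add_left (add_le_add_left (add_le_add_left (add_le_add_right hφ _) _) _) _)
      (show (1 + (c.w : ℝ) / 1000) * Gm m ((αh * h + βh) + (αq * tl + βq) + 113 / 400 * M.sum)
        - Wc (h + tl + M.sum) + ((p.sg : ℝ) - 10000000) / 1000000 * M.sum + psi0 x c tl + cC c
        - 2 * ((c.w : ℝ) / 1000) * Real.log (1 + h) ≤ 0 from ?_)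
    rw [hψ tl t0 t1]
    rw [hψ0, ← eh0, ← eq0] at r1 r3
    rw [hψ0, ← eh1, ← eq0] at r2 r4
    rw [hψ1, ← eh0, ← eq1] at r5 r7
    rw [hψ1, ← eh1, ← eq1] at r6 r8
    obtain ⟨μ, ν, hμ⟩ : ∃ μ ν : ℝ, ∀ u, Gm m u = μ * u + ν := by
      cases m with
      | true => exact ⟨1, -(6 / 125), fun u => by unfold Gm; rw [if_pos rfl]; ring⟩
      | false => exact ⟨0, 1 / 2, fun u => by unfold Gm; rw [if_neg (by simp)]; ring⟩
    simp only [hμ] at r1 r2 r3 r4 r5 r6 r7 r8 ⊢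
    refine three ((c.w : ℝ) / 1000) hsem.lam0 ((1 + (c.w : ℝ) / 1000) * μ * αh)
      ((1 + (c.w : ℝ) / 1000) * μ * αq + αψ)
      ((1 + (c.w : ℝ) / 1000) * μ * (113 / 400) + ((p.sg : ℝ) - 10000000) / 1000000)
      ((1 + (c.w : ℝ) / 1000) * (μ * (βh + βq) + ν) + βψ + cC c)
      ((x.H0 : ℝ) / 200) ((x.H1 : ℝ) / 200) ((q0 : ℝ) / 1000) ((q1 : ℝ) / 1000) ((ta : ℝ) / 1000)
      ((tb : ℝ) / 1000) (by positivity)
      (fun h q t => (1 + (c.w : ℝ) / 1000) * (μ * (αh * h + βh + (αq * q + βq) + 113 / 400 * t) + ν)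
        - Wc (h + q + t) + ((p.sg : ℝ) - 10000000) / 1000000 * t + (αψ * q + βψ) + cC c
        - 2 * ((c.w : ℝ) / 1000) * Real.log (1 + h)) (fun h q t => by ring)
      ⟨⟨r1, r3⟩, ⟨r5, r7⟩, ⟨r2, r4⟩, r6, r8⟩ h tl M.sum h0 h1 t0 t1 u0 u1
  have htest : gTest P c0 c1 c2 g0 g1 z0 q0 a0 z1 q1 a1 ta tb = true := hab
  unfold gTest at htest
  cases hb0 : anyR (fun p => cond (gCls P g0 g1 z0 q0 a0 z1 q1 a1 ta tb p true) true
      (gCls P g0 g1 z0 q0 a0 z1 q1 a1 ta tb p false)) c0 with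
  | true =>
    obtain ⟨c, r1, r2, r3, r4⟩ := main 0 c0 s0 hb0
    exact ⟨c, r1, Or.inl ⟨r2, r3 rfl⟩, r4⟩
  | false =>
    rw [hb0, cond_false] at htest
    obtain ⟨k1, k2⟩ := cond_eq_true htest
    rcases hτ with rfl | rfl
    · obtain ⟨c, r1, r2, _, r4⟩ := main 1 c1 s1 k1
      exact ⟨c, r1, Or.inr r2, r4⟩
    · obtain ⟨c, r1, r2, _, r4⟩ := main 2 c2 s2 k2
      exact ⟨c, r1, Or.inr r2, r4⟩

end CA
end Pool.Agent.Lib.MP_6947cd_al
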