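import Pool.Agent.Lib.MP_6947cd_al.L.CellF

/-!
Problem MP_6947cd_al (Chollet).  CASE A, rows `j` with a large total (phase 2).
-/

set_option autoImplicit false

namespace Pool.Agent.Lib.MP_6947cd_al
namespace CA

open Ent Ent.Pk Fr Fr.WT

/-- one end of the box in phase 2 -/
noncomputable def p2End (dB ta tb hh T v0 v1 rz : ℕ) : Bool :=
  frc (Nat.add hh T) fun s => cond (Nat.ble s (nat_lit 7399))
    (frc (Nat.mul dB (w20 s)) fun W => frc (Nat.mul (Nat.mul (nat_lit 2000) dB) rz) fun R =>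
      cond (Nat.ble (Nat.add (Nat.mul (nat_lit 20) (Nat.add (Nat.mul ta v0) (Nat.mul tb v1))) R) W)
        (Nat.ble (Nat.add (Nat.mul (nat_lit 100000000) dB) R) W) false) false

/-- one multiplicity in phase 2 -/
noncomputable def p2One (P : BP) (P0 P1 rz n T : ℕ) : Bool :=
  frc (dg P0 n) fun v0 => frc (dg P1 n) fun v1 =>
    cond (Nat.ble (nat_lit 1) v0) (cond (Nat.ble (nat_lit 1) v1)
      (cond (p2End P.dB P.a00 P.a01 P.h0 T v0 v1 rz) (p2End P.dB P.a10 P.a11 P.h1 T v0 v1 rz) false)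
      false) false

lemma p2End_sound {dB : ℕ} (hdB : 0 < dB) (H ta tb v0 v1 T rz : ℕ) (hH : 300 ≤ 5 * H) {FF : ℝ}
    (hF : FF * (dB : ℝ) ≤ (ta : ℝ) * ((v0 : ℝ) / 10 ^ 7) + (tb : ℝ) * ((v1 : ℝ) / 10 ^ 7))
    (h : p2End dB ta tb (5 * H) T v0 v1 rz = true) :
    FF - Wc ((H : ℝ) / 200 + (T : ℝ) / 1000) + (rz : ℝ) / 100000 ≤ 0 ∧
      1 / 2 - Wc ((H : ℝ) / 200 + (T : ℝ) / 1000) + (rz : ℝ) / 100000 ≤ 0 := by
  unfold p2End at h
  rw [frc_eq] at h
  obtain ⟨g1, g2⟩ := cond_eq_true h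
  rw [frc_eq, frc_eq] at g2
  obtain ⟨g3, g4⟩ := cond_eq_true g2
  have g1' : 5 * H + T ≤ 7399 := Nat.le_of_ble_eq_true g1
  have hw20 := w20_le (5 * H + T) (by omega) (by omega)
  have k3 : 20 * (ta * v0 + tb * v1) + 2000 * dB * rz ≤ dB * w20 (5 * H + T) := Nat.le_of_ble_eq_true g3
  have k4 : 100000000 * dB + 2000 * dB * rz ≤ dB * w20 (5 * H + T) := Nat.le_of_ble_eq_true g4
  have e1 : (H : ℝ) / 200 + (T : ℝ) / 1000 = ((5 * H + T : ℕ) : ℝ) / 1000 := by
    push_cast; ring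
  rw [e1]
  have k3' : (20 : ℝ) * (ta * v0 + tb * v1) + 2000 * dB * rz ≤ dB * (w20 (5 * H + T) : ℝ) := by
    exact_mod_cast k3
  have k4' : (100000000 : ℝ) * dB + 2000 * dB * rz ≤ dB * (w20 (5 * H + T) : ℝ) := by
    exact_mod_cast k4
  have hdBr : (0 : ℝ) < dB := by exact_mod_cast hdB
  generalize Wc (((5 * H + T : ℕ) : ℝ) / 1000) = W at hw20 ⊢
  generalize (w20 (5 * H + T) : ℝ) = w at k3' k4' hw20
  have h6 := mul_le_mul_of_nonneg_left hw20 (by positivity : (0 : ℝ) ≤ 200000000 * dB)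
  have hpos : (0 : ℝ) < 200000000 * dB := by positivity
  constructor
  · by_contra hcon
    push Not at hcon
    have h7 := mul_pos hpos hcon
    nlinarith
  · by_contra hcon
    push Not at hcon
    have h7 := mul_pos hpos hcon
    nlinarith

/-- rows with total at least `31/5` -/
lemma tail_row (S : Multiset ℝ) (hS : ∀ z ∈ S, 0 ≤ z ∧ z ≤ 1) (hs : 31 / 5 ≤ S.sum) (g : ℝ) (rz : ℕ)
    (hrz : rz ≤ 11000) (hg : g = FM (1 ::ₘ S) ∨ g ≤ 1 / 2) :
    g - What S.sum + (rz : ℝ) / 100000 ≤ 0 := by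
  have hW := (LL.wh_tail S.sum hs).trans (What_six S.sum (by linarith))
  have hrzr : (rz : ℝ) ≤ 11000 := by exact_mod_cast hrz
  have hW2 : 2 * CholB.WM.wh S.sum ≤ What S.sum := by
    refine le_trans ?_ (What_six S.sum (by linarith))
    have h1 : 0 < 1 + S.sum := by linarith
    have h4 : (1 / 5) / (4 / 5 + S.sum) - (1 / 9) / (8 / 9 + S.sum) - 1 / 1000
        ≤ Real.log ((8 / 9 + S.sum) / (1 + S.sum)) - Real.log ((4 / 5 + S.sum) / (1 + S.sum)) := by
      have a1 : (0 : ℝ) < 8 / 9 + S.sum := by linarith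
      have a2 : (0 : ℝ) < 4 / 5 + S.sum := by linarith
      rw [← Real.log_div (by positivity) (by positivity)]
      have e : (8 / 9 + S.sum) / (1 + S.sum) / ((4 / 5 + S.sum) / (1 + S.sum))
          = (8 / 9 + S.sum) / (4 / 5 + S.sum) := by
        field_simp
      rw [e]
      have h11 := Real.one_sub_inv_le_log_of_pos (show 0 < (8 / 9 + S.sum) / (4 / 5 + S.sum) by positivity)
      have h12 : 1 - ((8 / 9 + S.sum) / (4 / 5 + S.sum))⁻¹ = (4 / 45) / (8 / 9 + S.sum) := by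
        rw [inv_div]
        field_simp
        ring
      rw [h12] at h11
      have e5 : (1 / 5) / (4 / 5 + S.sum) - (1 / 5) / (8 / 9 + S.sum)
          = (4 / 225) / ((4 / 5 + S.sum) * (8 / 9 + S.sum)) := by
        field_simp
        ring
      have e6 : (4 / 225) / ((4 / 5 + S.sum) * (8 / 9 + S.sum)) ≤ 1 / 1000 := by
        rw [div_le_div_iff₀ (by positivity) (by norm_num)]
        nlinarith
      have e7 : (1 / 9) / (8 / 9 + S.sum) + (4 / 45) / (8 / 9 + S.sum) = (1 / 5) / (8 / 9 + S.sum) := by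
        rw [← add_div]
        norm_num
      linarith
    have h5 : 2 / 1000 ≤ 2 * Real.log (5 / 4) - Real.log 2 + 1 / 4 := by
      have hc : IA.chk [.sub (.cst 2 1000) (.add (.sub (.mul (.cst 2 1) (.log (.cst 5 4)))
          (.log (.cst 2 1))) (.cst 1 4))] (.v 0) ⟨0, 0⟩ ⟨0, 0⟩ ⟨0, 0⟩ = true := by decide +kernel
      obtain ⟨e, he, h⟩ := IA.chk_sound _ _ _ _ _ hc 0 0 0 ⟨by simp, by simp⟩ ⟨by simp, by simp⟩
        ⟨by simp, by simp⟩
      simp only [List.mem_cons, List.not_mem_nil, or_false] at he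
      rw [he] at h
      simp only [IA.E.ev] at h
      push_cast at h
      simp only [div_one] at h
      linarith
    unfold W6 CholB.WM.wh
    linarith
  rcases hg with rfl | hg
  · obtain ⟨n, b, hb⟩ := exists_row (1 ::ₘ S)
    have hmem : ∀ k, b k ∈ 1 ::ₘ S := fun k => by
      rw [← hb]
      exact Multiset.mem_map_of_mem b (Finset.mem_univ_val k)
    obtain ⟨i, _, hi⟩ := Multiset.mem_map.mp
      (by rw [hb]; exact Multiset.mem_cons_self _ _ : (1 : ℝ) ∈ (Finset.univ : Finset (Fin n)).val.map b)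
    have hsum : ∑ k ∈ Finset.univ.erase i, b k = S.sum := by
      have h1 : (∑ k ∈ Finset.univ.erase i, b k) + b i = ∑ k, b k :=
        Finset.sum_erase_add _ _ (Finset.mem_univ i)
      have h2 : ∑ k, b k = (1 ::ₘ S).sum := by rw [← hb]; rfl
      rw [h2, Multiset.sum_cons, hi] at h1
      linarith
    have hb01 : ∀ k, 0 ≤ b k ∧ b k ≤ 1 := fun k => by
      rcases Multiset.mem_cons.mp (hmem k) with h | h
      · rw [h]; exact ⟨zero_le_one, le_rfl⟩
      · exact hS _ h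
    have hF := F_tail b (fun k => (hb01 k).1) (fun k => (hb01 k).2) i hi (by rw [hsum]; exact hs)
    rw [hsum, F_eq_FM, hb] at hF
    linarith
  · have := tail_large S.sum hs
    linarith

/-- PHASE 2. -/
theorem phase2 {x : Box} {P : BP} (hP : BPOK x.B0 x.B1 x.H0 x.H1 P) {c n0 fuel r P0 P1 T1 rz : ℕ}
    (hc0 : 1 ≤ c) (hc1 : c ≤ 1000)
    (t0 : ∀ n < r, 1 ≤ dg P0 n → FM (1 ::ₘ ((x.B0 : ℝ) / 200) ::ₘ Multiset.replicate n ((c : ℝ) / 1000))
      ≤ (dg P0 n : ℝ) / 10 ^ 7)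
    (t1 : ∀ n < r, 1 ≤ dg P1 n → FM (1 ::ₘ ((x.B1 : ℝ) / 200) ::ₘ Multiset.replicate n ((c : ℝ) / 1000))
      ≤ (dg P1 n : ℝ) / 10 ^ 7)
    (hn0 : n0 * c ≤ T1) (hN : (6200 - 5 * x.H0) / c + 2 ≤ n0 + fuel) (hr : n0 + fuel ≤ r)
    (hchk : loopN (fun n T => p2One P P0 P1 rz n T) c fuel n0 (n0 * c) = true) (hrz : rz ≤ 11000)
    (g h tl : ℝ) (M : Multiset ℝ) (h0 : (x.H0 : ℝ) / 200 ≤ h) (h1 : h ≤ (x.H1 : ℝ) / 200)
    (hM : ∀ t ∈ M, 0 ≤ t ∧ t ≤ (c : ℝ) / 1000) (htl : 0 ≤ tl ∧ tl ≤ (c : ℝ) / 1000)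
    (hT : (T1 : ℝ) / 1000 ≤ tl + M.sum) (hg : g = FM (1 ::ₘ h ::ₘ tl ::ₘ M) ∨ g ≤ 1 / 2) :
    g - What (h + tl + M.sum) + (rz : ℝ) / 100000 ≤ 0 := by
  have hH0r : (62 : ℝ) ≤ x.H0 := by exact_mod_cast hP.hH
  have hH1r : (x.H1 : ℝ) ≤ 200 := by
    have := hP.le2.trans hP.B1'
    exact_mod_cast this
  have hc0r : (1 : ℝ) ≤ c := by exact_mod_cast hc0
  have hc1r : (c : ℝ) ≤ 1000 := by exact_mod_cast hc1
  have hMs : 0 ≤ M.sum := Multiset.sum_nonneg fun z hz => (hM z hz).1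
  have hh : 0 ≤ h ∧ h ≤ 1 := ⟨by linarith, by linarith⟩
  have esum : (h ::ₘ tl ::ₘ M).sum = h + tl + M.sum := by
    rw [Multiset.sum_cons, Multiset.sum_cons]; ring
  rcases le_or_gt (31 / 5) (h + tl + M.sum) with hs | hs
  · have := tail_row (h ::ₘ tl ::ₘ M) (by
      intro z hz
      rcases Multiset.mem_cons.mp hz with rfl | hz
      · exact hh
      rcases Multiset.mem_cons.mp hz with rfl | hz
      · exact ⟨htl.1, by linarith [htl.2]⟩
      · exact ⟨(hM z hz).1, by linarith [(hM z hz).2]⟩) (by rw [esum]; exact hs) g rz hrz hg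
    rwa [esum] at this
  -- the reduction
  have hinc : Inc 0 [(c : ℝ) / 1000] := ⟨by positivity, by show (c : ℝ) / 1000 ≤ 1; linarith⟩
  obtain ⟨m, ns, fs, M', hred, hF, hmap, hsum⟩ := reduce [(c : ℝ) / 1000] 0 le_rfl hinc (1 ::ₘ h ::ₘ 0)
    (tl ::ₘ M) (Multiset.mem_cons_self _ _) (by
      intro z hz
      simp only [Multiset.mem_cons, Multiset.notMem_zero, or_false] at hz
      rcases hz with rfl | rfl
      · exact ⟨zero_le_one, le_rfl⟩
      · exact hh) (by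
      intro z hz
      rcases Multiset.mem_cons.mp hz with rfl | hz
      · exact htl
      · exact hM z hz)
  rw [mul_zero, zero_add, Multiset.sum_cons] at hsum
  obtain ⟨n, f, hns, hfs⟩ : ∃ n f, ns = [n] ∧ fs = [f] := by
    cases ns with
    | nil => exact hred.elim
    | cons n ns =>
      cases fs with
      | nil => exact hred.elim
      | cons f fs =>
        obtain ⟨M'', r', h2, _⟩ := hred
        cases ns with
        | nil =>
          cases fs with
          | nil => exact ⟨n, f, rfl, rfl⟩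
          | cons f fs => exact h2.elim
        | cons n ns => cases fs <;> exact h2.elim
  subst hns hfs
  have hred' := hred
  obtain ⟨M'', r', hM'', hr', eM'⟩ := hred
  have hM0 : M'' = 0 := hM''
  subst hM0
  have hr'0 : 0 ≤ r'.sum ∧ r'.sum ≤ (if f then (c : ℝ) / 1000 else 0) ∧ r'.sum < (c : ℝ) / 1000 := by
    cases f with
    | false =>
      have h2 : r' = 0 := hr'
      rw [h2, Multiset.sum_zero]
      exact ⟨le_rfl, le_rfl, by positivity⟩
    | true =>
      obtain ⟨y, h2, h3, h4⟩ := hr'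
      rw [h4, Multiset.sum_singleton]
      exact ⟨h2.le, by simpa using h3.le, h3⟩
  have esM : M'.sum = r'.sum + n * ((c : ℝ) / 1000) := by
    rw [eM', Multiset.sum_add, Multiset.sum_add, Multiset.sum_replicate, nsmul_eq_mul, Multiset.sum_zero,
      add_zero]
  -- the range of `n`
  have hnlo : n0 ≤ n := by
    have h2 : ((n0 * c : ℕ) : ℝ) ≤ T1 := by exact_mod_cast hn0
    push_cast at h2
    have h3 : (n0 : ℝ) * c < (n + 1) * c := by
      have : (n0 : ℝ) * c / 1000 < (n + 1) * c / 1000 := by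
        calc (n0 : ℝ) * c / 1000 ≤ (T1 : ℝ) / 1000 := by linarith
          _ ≤ M'.sum := by rw [← hsum]; exact hT
          _ < (n + 1) * c / 1000 := by rw [esM]; linarith [hr'0.2.2]
      linarith
    have h4 : (n0 : ℝ) < n + 1 := lt_of_mul_lt_mul_right h3 (by linarith)
    have h5 : n0 < n + 1 := by exact_mod_cast h4
    omega
  have hnhi : n ≤ (6200 - 5 * x.H0) / c := by
    rw [Nat.le_div_iff_mul_le (by omega)]
    have h2 : (n : ℝ) * c ≤ 6200 - 5 * x.H0 := by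
      have : (n : ℝ) * (c / 1000) ≤ M'.sum := by rw [esM]; linarith [hr'0.1]
      rw [← hsum] at this
      linarith
    have h3 : ((n * c + 5 * x.H0 : ℕ) : ℝ) ≤ 6200 := by
      push_cast
      linarith
    have h4 : n * c + 5 * x.H0 ≤ 6200 := by exact_mod_cast h3
    omega
  -- the corners
  have hdB : 0 < P.dB := by rw [hP.dB]; have := hP.B01; omega
  have hcorn : ∀ n' : ℕ, n ≤ n' → n' ≤ n + 1 →
      ((FM (1 ::ₘ ((x.H0 : ℝ) / 200) ::ₘ Multiset.replicate n' ((c : ℝ) / 1000))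
        - Wc ((x.H0 : ℝ) / 200 + ((n' * c : ℕ) : ℝ) / 1000) + (rz : ℝ) / 100000 ≤ 0) ∧
        1 / 2 - Wc ((x.H0 : ℝ) / 200 + ((n' * c : ℕ) : ℝ) / 1000) + (rz : ℝ) / 100000 ≤ 0) ∧
      ((FM (1 ::ₘ ((x.H1 : ℝ) / 200) ::ₘ Multiset.replicate n' ((c : ℝ) / 1000))
        - Wc ((x.H1 : ℝ) / 200 + ((n' * c : ℕ) : ℝ) / 1000) + (rz : ℝ) / 100000 ≤ 0) ∧
        1 / 2 - Wc ((x.H1 : ℝ) / 200 + ((n' * c : ℕ) : ℝ) / 1000) + (rz : ℝ) / 100000 ≤ 0) := by
    intro n' hn1 hn2
    obtain ⟨d, rfl⟩ := Nat.exists_eq_add_of_le (hnlo.trans hn1)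
    have hd : d < fuel := by omega
    have h2 := loopN_sound _ _ _ _ _ hchk d hd
    have e2 : n0 * c + d * c = (n0 + d) * c := by ring
    rw [e2] at h2
    have h2' : p2One P P0 P1 rz (n0 + d) ((n0 + d) * c) = true := h2
    unfold p2One at h2'
    rw [frc_eq, frc_eq] at h2'
    obtain ⟨k1, h2'⟩ := cond_eq_true h2'
    obtain ⟨k2, h2'⟩ := cond_eq_true h2'
    obtain ⟨k3, k4⟩ := cond_eq_true h2'
    have hlt : n0 + d < r := by omega
    have f0 := t0 (n0 + d) hlt (Nat.le_of_ble_eq_true k1)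
    have f1 := t1 (n0 + d) hlt (Nat.le_of_ble_eq_true k2)
    have hS : ∀ z ∈ (1 ::ₘ Multiset.replicate (n0 + d) ((c : ℝ) / 1000)), 0 ≤ z ∧ z ≤ 1 := by
      intro z hz
      rcases Multiset.mem_cons.mp hz with rfl | hz
      · exact ⟨zero_le_one, le_rfl⟩
      · rw [Multiset.eq_of_mem_replicate hz]
        exact ⟨by positivity, by linarith⟩
    rw [Multiset.cons_swap] at f0 f1
    constructor
    · have hc := chord_h _ (Multiset.mem_cons_self _ _) hS x.B0 x.B1 x.H0 hP.B01 hP.B1' hP.le0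
        (hP.le1.trans hP.le2) _ _ f0 f1
      rw [Multiset.cons_swap, ← hP.dB, ← hP.a00, ← hP.a01] at hc
      rw [hP.h0] at k3
      exact p2End_sound hdB x.H0 _ _ _ _ _ _ (by have := hP.hH; omega) hc k3
    · have hc := chord_h _ (Multiset.mem_cons_self _ _) hS x.B0 x.B1 x.H1 hP.B01 hP.B1' (hP.le0.trans hP.le1)
        hP.le2 _ _ f0 f1
      rw [Multiset.cons_swap, ← hP.dB, ← hP.a10, ← hP.a11] at hc
      rw [hP.h1] at k4
      exact p2End_sound hdB x.H1 _ _ _ _ _ _ (by have := hP.hH; have := hP.le1; omega) hc k4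
  have hWW : Wc (h + tl + M.sum) ≤ What (h + tl + M.sum) :=
    Wc_le_What _ (by linarith [htl.1]) (by linarith)
  have hc1' : (c : ℝ) / 1000 ≤ 1 := by linarith
  rcases hg with hg | hg
  · have hVV : ∀ (a : ℝ) (n' : ℕ), VV 0 ((rz : ℝ) / 100000) (fun _ => 0) (fun _ => 0) a 0
        (mk [n'] [(c : ℝ) / 1000]) = FM (1 ::ₘ a ::ₘ Multiset.replicate n' ((c : ℝ) / 1000))
        - Wc (a + ((n' * c : ℕ) : ℝ) / 1000) + (rz : ℝ) / 100000 := by
      intro a n'
      unfold VV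
      have e1 : mk [n'] [(c : ℝ) / 1000] = Multiset.replicate n' ((c : ℝ) / 1000) := by
        rw [Ent.mk_cons, mk_nil, add_zero]
      have e2 : 1 ::ₘ a ::ₘ (0 : ℝ) ::ₘ mk [n'] [(c : ℝ) / 1000]
          = 0 ::ₘ 1 ::ₘ a ::ₘ Multiset.replicate n' ((c : ℝ) / 1000) := by
        rw [e1, Multiset.cons_swap a 0, Multiset.cons_swap 1 0]
      rw [e2, FM_zero_cons, e1, Multiset.sum_replicate, nsmul_eq_mul]
      simp only [Multiset.map_const', Multiset.sum_replicate, smul_zero]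
      push_cast
      rw [show a + 0 + (n' : ℝ) * ((c : ℝ) / 1000) = a + (n' : ℝ) * c / 1000 by ring]
      ring
    have h3 := cell_le 0 ((rz : ℝ) / 100000) le_rfl (fun _ => 0) (fun _ => 0) [(c : ℝ) / 1000] hinc
      ⟨⟨0, 0, fun y _ _ => by ring⟩, trivial⟩ rfl ((x.H0 : ℝ) / 200) ((x.H1 : ℝ) / 200) 0 0 (by positivity)
      (by linarith) le_rfl zero_le_one ⟨0, 0, fun y _ _ => by ring⟩ [n] [f] M' hred' (by
        intro t ht
        obtain ⟨n', hn', hn1, hn2⟩ : ∃ n', t.2 = [n'] ∧ n ≤ n' ∧ n' ≤ n + 1 := by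
          cases f with
          | false =>
            simp only [cors, List.flatMap_cons, List.flatMap_nil, List.append_nil, List.mem_cons,
              List.not_mem_nil, or_false] at ht
            rw [ht]
            exact ⟨n + 0, rfl, by omega, by omega⟩
          | true =>
            simp only [cors, List.flatMap_cons, List.flatMap_nil, List.append_nil, List.mem_cons,
              List.not_mem_nil, or_false] at ht
            rcases ht with ht | ht
            · rw [ht]; exact ⟨n + 0, rfl, by omega, by omega⟩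
            · rw [ht]; exact ⟨n + 0 + 1, rfl, by omega, by omega⟩
        rw [hn']
        simp only [hVV]
        obtain ⟨⟨u1, _⟩, u2, _⟩ := hcorn n' hn1 hn2
        exact ⟨⟨u1, u1⟩, u2, u2⟩) h 0 h0 h1 le_rfl le_rfl
    have h4 : FM (1 ::ₘ h ::ₘ tl ::ₘ M) ≤ FM (1 ::ₘ h ::ₘ 0 ::ₘ M') := by
      have e1 : (1 ::ₘ h ::ₘ 0) + (tl ::ₘ M) = 1 ::ₘ h ::ₘ tl ::ₘ M := by
        simp only [Multiset.cons_add, zero_add]
      have e2 : (1 ::ₘ h ::ₘ 0) + (Multiset.replicate m 0 + M')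
          = Multiset.replicate m 0 + (1 ::ₘ h ::ₘ M') := by
        simp only [← Multiset.singleton_add]
        abel
      have e3 : 1 ::ₘ h ::ₘ (0 : ℝ) ::ₘ M' = 0 ::ₘ 1 ::ₘ h ::ₘ M' := by
        rw [Multiset.cons_swap h 0, Multiset.cons_swap 1 0]
      rw [e1, e2, FM_zero_add] at hF
      rw [e3, FM_zero_cons]
      exact hF
    unfold VV at h3
    rw [hg]
    have e5 : h + 0 + M'.sum = h + tl + M.sum := by rw [← hsum]; ring
    rw [e5] at h3
    simp only [Multiset.map_const', Multiset.sum_replicate, smul_zero] at h3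
    linarith
  · -- the bound `1/2`
    obtain ⟨⟨_, u1⟩, _, u2⟩ := hcorn n le_rfl (by omega)
    obtain ⟨⟨_, u3⟩, _, u4⟩ := hcorn (n + 1) (by omega) le_rfl
    have e1 : h + tl + M.sum = h + (r'.sum + n * ((c : ℝ) / 1000)) := by rw [← esM, ← hsum]; ring
    have hmem : h + tl + M.sum ∈ Set.Icc ((x.H0 : ℝ) / 200 + ((n * c : ℕ) : ℝ) / 1000)
        ((x.H1 : ℝ) / 200 + (((n + 1) * c : ℕ) : ℝ) / 1000) := by
      rw [e1]
      push_cast
      constructor
      · linarith [hr'0.1]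
      · linarith [hr'0.2.2]
    have h5 := Wc_concave.min_le_of_mem_Icc (Set.mem_univ _) (Set.mem_univ _) hmem
    rcases min_le_iff.mp h5 with h6 | h6
    · linarith
    · linarith

end CA
end Pool.Agent.Lib.MP_6947cd_al
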