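import Pool.Agent.Lib.MP_6947cd_al.L.CellBM

/-!
Problem MP_6947cd_al (Chollet).  CASE B, rows `j`: the check of an interval of the special entry, split by
the number of entries of the first piece (to keep the single kernel computations small).
-/

set_option autoImplicit false

namespace Pool.Agent.Lib.MP_6947cd_al
namespace CB

open Ent Ent.Pk Fr Fr.WT CA

/-- conjunctive: two successful continuations can be combined -/
def Cj {α : Type} (f : (α → Bool) → Bool) : Prop :=
  ∀ k1 k2 k : α → Bool, (∀ a, k1 a = true → k2 a = true → k a = true) →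
    f k1 = true → f k2 = true → f k = true

def Cj2 {α β : Type} (f : (α → β → Bool) → Bool) : Prop :=
  ∀ k1 k2 k : α → β → Bool, (∀ a b, k1 a b = true → k2 a b = true → k a b = true) →
    f k1 = true → f k2 = true → f k = true

def Cj3 {α β γ : Type} (f : (α → β → γ → Bool) → Bool) : Prop :=
  ∀ k1 k2 k : α → β → γ → Bool, (∀ a b c, k1 a b c = true → k2 a b c = true → k a b c = true) →
    f k1 = true → f k2 = true → f k = true

theorem leafL_cj (P : BQ) (q : ℕ) (l0 : List ℕ) : ∀ (l1 : List ℕ) (T : ℕ), Cj3 (leafL P q l0 l1 T) := by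
  induction l0 with
  | nil =>
    intro l1 T k1 k2 k hk h1 h2
    exact hk _ _ _ h1 h2
  | cons f0 l0 ih =>
    intro l1 T k1 k2 k hk h1 h2
    cases l1 with
    | nil => exact hk _ _ _ h1 h2
    | cons f1 l1 =>
      have e : ∀ k, leafL P q (f0 :: l0) (f1 :: l1) T k =
          (frc (Nat.add T q) fun tq => frc (Nat.add P.h0 tq) fun s0 => frc (Nat.add P.h1 tq) fun s1 =>
          cond (Nat.ble s1 (nat_lit 7400)) (cond (Nat.ble s0 (nat_lit 7400))
            (frc (Nat.add (Nat.mul P.a00 f0) (Nat.mul P.a01 f1)) fun A0 =>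
            frc (Nat.add (Nat.mul P.a10 f0) (Nat.mul P.a11 f1)) fun A1 =>
            frc (Nat.mul P.dB (w20 s0)) fun w0 => frc (Nat.mul P.dB (w20 s1)) fun w1 =>
            frc (Nat.mul P.t9 T) fun tt =>
            frc (Nat.add (Nat.mul (nat_lit 1000) w0) tt) fun G0 =>
            frc (Nat.add (Nat.mul (nat_lit 1000) w1) tt) fun G1 =>
            frc (cond (Nat.ble (Nat.add (Nat.mul (nat_lit 20) A0) P.rz2) w0)
              (cond (Nat.ble (Nat.add (Nat.mul (nat_lit 20) A1) P.rz2) w1) HB (nat_lit 0)) (nat_lit 0)) fun d =>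
            frc (Nat.add T P.k0) fun T' => leafL P q l0 l1 T' fun ds g0 g1 =>
              k (d :: ds) (⟨A0, G0⟩ :: g0) (⟨A1, G1⟩ :: g1))
            (k [] [] [])) (k [] [] [])) := fun _ => rfl
      rw [e] at h1 h2 ⊢
      simp only [frc_eq] at h1 h2 ⊢
      generalize Nat.ble (Nat.add P.h1 (Nat.add T q)) (nat_lit 7400) = c1 at h1 h2 ⊢
      generalize Nat.ble (Nat.add P.h0 (Nat.add T q)) (nat_lit 7400) = c0 at h1 h2 ⊢
      cases c1 with
      | false => exact hk _ _ _ h1 h2
      | true =>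
        cases c0 with
        | false => exact hk _ _ _ h1 h2
        | true => exact ih _ _ _ _ _ (fun _ _ _ a b => hk _ _ _ a b) h1 h2

theorem rowB_cj (c20 cO e1 : ℕ) (l : List AG) : ∀ e : ℕ, Cj (rowB c20 cO e1 l e) := by
  induction l with
  | nil =>
    intro e k1 k2 k hk h1 h2
    exact hk _ h1 h2
  | cons g l ih =>
    intro e k1 k2 k hk h1 h2
    obtain ⟨A, G⟩ := g
    have ee : ∀ k, rowB c20 cO e1 (⟨A, G⟩ :: l) e k =
      (frc (Nat.add (Nat.mul c20 A) e) fun L => frc (Nat.add G cO) fun R =>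
      cond (Nat.ble L R) (frc (Nat.sub R L) fun Q => cond (Nat.ble Q (nat_lit 4611686018427387903))
        (frc (Nat.add e e1) fun e' => rowB c20 cO e1 l e' fun ds => k (Q :: ds)) false) false) := fun _ => rfl
    rw [ee] at h1 h2 ⊢
    simp only [frc_eq] at h1 h2 ⊢
    generalize Nat.ble (Nat.add (Nat.mul c20 A) e) (Nat.add G cO) = c1 at h1 h2 ⊢
    generalize Nat.ble (Nat.sub (Nat.add G cO) (Nat.add (Nat.mul c20 A) e)) (nat_lit 4611686018427387903) = c0
      at h1 h2 ⊢
    cases c1 with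
    | false => exact h1
    | true =>
      cases c0 with
      | false => exact h1
      | true => exact ih _ _ _ _ (fun _ a b => hk _ a b) h1 h2

theorem rowsA_cj (E0 : ℕ) (cs : List PB) : ∀ (vs : List ℕ) (z : ℕ) (g0 g1 : List AG),
    Cj (rowsA E0 cs vs z g0 g1) := by
  induction cs with
  | nil =>
    intro vs z g0 g1 k1 k2 k hk h1 h2
    exact hk _ h1 h2
  | cons c cs ih =>
    intro vs z g0 g1 k1 k2 k hk h1 h2
    obtain ⟨c20, e1, bu, sn, O0, O1, wN⟩ := c
    have ee : ∀ k, rowsA E0 (⟨c20, e1, bu, sn, O0, O1, wN⟩ :: cs) vs z g0 g1 k =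
      (frc (Nat.mul E0 (Nat.add (ldot vs bu (nat_lit 0)) (dg sn z))) fun e =>
      rowB c20 O0 e1 g0 e fun d0 => rowB c20 O1 e1 g1 e fun d1 =>
      frc (pkR d0) fun r0 => frc (pkR d1) fun r1 => rowsA E0 cs vs z g0 g1 fun l => k (⟨r0, r1⟩ :: l)) :=
      fun _ => rfl
    rw [ee] at h1 h2 ⊢
    simp only [frc_eq] at h1 h2 ⊢
    refine rowB_cj _ _ _ _ _ _ _ _ (fun d0 a b => ?_) h1 h2
    refine rowB_cj _ _ _ _ _ _ _ _ (fun d1 a b => ?_) a b
    exact ih _ _ _ _ _ _ _ (fun _ a b => hk _ a b) a b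

theorem prepL_cj (P : BQ) (cs : List PB) (z q : ℕ) (t0 t1 : FT) (vs : List ℕ) :
    Cj (prepL P cs z q t0 t1 vs) := by
  intro k1 k2 k hk h1 h2
  cases t0 with
  | leaf l0 =>
    cases t1 with
    | leaf l1 =>
      have ee : ∀ k, prepL P cs z q (FT.leaf l0) (FT.leaf l1) vs k =
        (frc (ldot vs P.ku (nat_lit 0)) fun T => leafL P q l0 l1 T fun ds g0 g1 =>
          cond (lenOK ds (nat_lit 64)) (frc (pkR ds) fun tv => rowsA P.e0 cs vs z g0 g1 fun rq =>
            k (PT.leaf tv rq)) false) := fun _ => rfl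
      rw [ee] at h1 h2 ⊢
      simp only [frc_eq] at h1 h2 ⊢
      refine leafL_cj _ _ _ _ _ _ _ _ (fun ds g0 g1 a b => ?_) h1 h2
      generalize lenOK ds (nat_lit 64) = c0 at a b ⊢
      cases c0 with
      | false => exact a
      | true => exact rowsA_cj _ _ _ _ _ _ _ _ _ (fun _ a b => hk _ a b) a b
    | _ => exact hk _ h1 h2
  | _ => exact hk _ h1 h2

theorem loopF_cj (down : FT → FT → List ℕ → (PT → Bool) → Bool)
    (hd : ∀ a b vs, Cj (down a b vs)) (t0 : FT) : ∀ (t1 : FT) (vs : List ℕ) (i : ℕ),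
    Cj2 (loopF down t0 t1 vs i) := by
  induction t0 with
  | nil =>
    intro t1 vs i k1 k2 k hk h1 h2
    exact hk _ _ h1 h2
  | leaf l =>
    intro t1 vs i k1 k2 k hk h1 h2
    exact hk _ _ h1 h2
  | cons h0 u0 _ ih =>
    intro t1 vs i k1 k2 k hk h1 h2
    cases t1 with
    | nil => exact hk _ _ h1 h2
    | leaf l => exact hk _ _ h1 h2
    | cons hh1 u1 =>
      have ee : ∀ k, loopF down (FT.cons h0 u0) (FT.cons hh1 u1) vs i k =
        (down h0 hh1 (i :: vs) fun p => frc (Nat.succ i) fun i' => loopF down u0 u1 vs i' fun tv ch =>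
          frc (Nat.add (Nat.land (tvOf p) HB) (Nat.mul (nat_lit 18446744073709551616) tv)) fun tv' =>
            k tv' (PT.cons p ch)) := fun _ => rfl
      rw [ee] at h1 h2 ⊢
      simp only [frc_eq] at h1 h2 ⊢
      refine hd _ _ _ _ _ _ (fun p a b => ?_) h1 h2
      exact ih _ _ _ _ _ _ (fun _ _ a b => hk _ _ a b) a b

theorem prepD_cj (P : BQ) (cs : List PB) (z q : ℕ) (d : ℕ) : ∀ (t0 t1 : FT) (vs : List ℕ),
    Cj (prepD P cs z q d t0 t1 vs) := by
  induction d with
  | zero => exact fun t0 t1 vs => prepL_cj P cs z q t0 t1 vs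
  | succ d ih =>
    intro t0 t1 vs k1 k2 k hk h1 h2
    exact loopF_cj _ ih t0 t1 vs _ _ _ _ (fun _ _ a b => hk _ a b) h1 h2

theorem coarse_cj (k : ℕ) (pc : List Cn) (lim : ℕ) : Cj2 (coarse k pc lim) := by
  intro k1 k2 kk hk h1 h2
  unfold coarse at h1 h2 ⊢
  simp only [frc_eq] at h1 h2 ⊢
  have acc : ∀ (pc : List Cn) (a : ℕ), Cj (accT pc a) := by
    intro pc
    induction pc with
    | nil =>
      intro a j1 j2 j hj a1 a2
      exact hj _ a1 a2
    | cons c pc ih =>
      intro a j1 j2 j hj a1 a2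
      obtain ⟨t0, t1, D, pay⟩ := c
      have ee : ∀ j, accT (⟨t0, t1, D, pay⟩ :: pc) a j =
        (frc (Nat.land a (Nat.shiftRight (Nat.land (tvOf t0) (tvOf t1)) (Nat.mul (nat_lit 64) D))) fun a' =>
          accT pc a' j) := fun _ => rfl
      rw [ee, frc_eq] at a1 a2 ⊢
      exact ih _ _ _ _ hj a1 a2
  refine acc _ _ _ _ _ (fun A a b => ?_) h1 h2
  revert a b
  cases Nat.beq (Nat.xor (Nat.land A (HM (Nat.succ (Nat.div (Nat.add lim (Nat.sub k (nat_lit 1))) k))))
    (HM (Nat.succ (Nat.div (Nat.add lim (Nat.sub k (nat_lit 1))) k)))) (nat_lit 0) with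
  | true => intro _ _; rfl
  | false =>
    dsimp only [cond_false]
    generalize Nat.beq (Nat.land (Nat.shiftRight A _) _) _ = c1
    cases c1 with
    | false => exact fun a _ => a
    | true =>
      dsimp only [cond_true]
      generalize Nat.ble _ lim = c2
      cases c2 with
      | false => exact fun a b => hk _ _ a b
      | true => exact fun a b => hk _ _ a b

theorem outerN_cj (Y a : ℕ) (s1 s2 s : ℕ → ℕ → PF → Bool)
    (hs : ∀ N Na F, s1 N Na F = true → s2 N Na F = true → s N Na F = true) (fuel : ℕ) :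
    ∀ (N Na : ℕ) (F : PF), outerN Y a s1 fuel N Na F = true → outerN Y a s2 fuel N Na F = true →
      outerN Y a s fuel N Na F = true := by
  induction fuel with
  | zero => exact fun _ _ _ a _ => a
  | succ f ih =>
    intro N Na F h1 h2
    have ee : ∀ st : ℕ → ℕ → PF → Bool, outerN Y a st (f + 1) N Na F =
      cond (Nat.ble Y Na) true (@PF.rec (fun _ => Bool) false (fun _ _ _ _ _ => false)
      (fun F0 Fs _ _ => cond (st N Na F0) (frc (Nat.succ N) fun N' => frc (Nat.add Na a) fun Na' =>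
        outerN Y a st f N' Na' Fs) false) F) := fun _ => rfl
    rw [ee] at h1 h2 ⊢
    generalize Nat.ble Y Na = c at h1 h2 ⊢
    cases c with
    | true => rfl
    | false =>
      dsimp only [cond_false] at h1 h2 ⊢
      cases F with
      | nil => exact h1
      | leaf _ _ _ _ _ => exact h1
      | cons F0 Fs =>
        dsimp only at h1 h2 ⊢
        simp only [frc_eq] at h1 h2 ⊢
        have e1 : s1 N Na F0 = true := by
          by_contra hc
          rw [Bool.not_eq_true] at hc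
          rw [hc] at h1
          exact absurd h1 (by simp)
        have e2 : s2 N Na F0 = true := by
          by_contra hc
          rw [Bool.not_eq_true] at hc
          rw [hc] at h2
          exact absurd h2 (by simp)
        rw [e1] at h1
        rw [e2] at h2
        rw [hs _ _ _ e1 e2]
        exact ih _ _ _ h1 h2

/-- the enumeration, with the first piece restricted to the numbers `N` of entries selected by `sel` -/
noncomputable def nodeS (sel : ℕ → Bool) (fin : List Cn → ℕ → PF → Bool) (ks : List KN) (pc : List Cn) (lim : ℕ)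
    (F : PF) : Bool :=
  @List.rec KN (fun _ => Bool) false
    (fun kn ks _ => @KN.rec (fun _ => Bool) (fun k a lo hi =>
      coarse k pc lim fun _ Y => @PF.rec (fun _ => Bool) false (fun _ _ _ _ _ => false)
        (fun F0 Fs _ _ => cond (cond (sel (nat_lit 0)) (nextK0 pc fun pc' => nodeR fin ks pc' Y F0) true)
          (frc (Nat.sub k a) fun d => outerN Y a (fun N Na FN => cond (sel N) (innerN Y d (fun n m lim' =>
            frc (Nat.succ m) fun m0 => frc (Nat.add (Nat.mul m0 lo) (Nat.mul n hi)) fun p0 =>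
            frc (Nat.add (Nat.mul m lo) (Nat.mul (Nat.succ n) hi)) fun p1 =>
            nextK n m0 m p0 p1 pc fun pc' => nodeR fin ks pc' lim' FN) N (nat_lit 0) Na) true)
              (nat_lit 64) (nat_lit 1) a Fs)
          false) F) kn) ks

theorem nodeS_cj {s1 s2 s : ℕ → Bool} (hs : ∀ N, s N = true → s1 N = true ∨ s2 N = true)
    (fin : List Cn → ℕ → PF → Bool) (ks : List KN) (pc : List Cn) (lim : ℕ) (F : PF)
    (h1 : nodeS s1 fin ks pc lim F = true) (h2 : nodeS s2 fin ks pc lim F = true) :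
    nodeS s fin ks pc lim F = true := by
  cases ks with
  | nil => exact h1
  | cons kn ks =>
    obtain ⟨k, a, lo, hi⟩ := kn
    refine coarse_cj k pc lim _ _ _ (fun A Y a1 a2 => ?_) h1 h2
    cases F with
    | nil => exact a1
    | leaf _ _ _ _ _ => exact a1
    | cons F0 Fs =>
      dsimp only at a1 a2 ⊢
      have key : ∀ (b1 b2 : Bool) (X : Bool), cond b1 X true = true → cond b2 X true = true →
          ∀ b : Bool, (b = true → b1 = true ∨ b2 = true) → cond b X true = true := by decide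
      have cc : ∀ X Y : Bool, cond X Y false = true → X = true ∧ Y = true := by decide
      obtain ⟨p1, q1⟩ := cc _ _ a1
      obtain ⟨p2, q2⟩ := cc _ _ a2
      rw [key _ _ _ p1 p2 _ (hs _)]
      rw [frc_eq] at q1 q2
      rw [cond_true, frc_eq]
      exact outerN_cj _ _ _ _ _ (fun N Na FN b1 b2 => key _ _ _ b1 b2 _ (hs _)) _ _ _ _ q1 q2

theorem nodeS_all (fin : List Cn → ℕ → PF → Bool) (kn : KN) (ks : List KN) (pc : List Cn) (lim : ℕ) (F : PF)
    (h : nodeS (fun _ => true) fin (kn :: ks) pc lim F = true) : nodeR fin (kn :: ks) pc lim F = true := by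
  obtain ⟨k, a, lo, hi⟩ := kn
  exact h

/-- the program for an interval of the special entry, restricted -/
noncomputable def ivS (sel : ℕ → Bool) (P : BQ) (cs : List PB) (ws : List ℕ) (kns : List KN)
    (d lim z q0 : ℕ) (t00 t01 : FT) (z1 q1 : ℕ) (t10 t11 : FT) (l0 l1 : ℕ) (F : PF) : Bool :=
  prepD P cs z q0 d t00 t01 [] fun p0 => prepD P cs z1 q1 d t10 t11 [] fun p1 =>
    nodeS sel (finL P.k0 l0 l1 ws) kns (⟨p0, p1, nat_lit 0, []⟩ :: []) lim F

theorem ivS_cj {s1 s2 s : ℕ → Bool} (hs : ∀ N, s N = true → s1 N = true ∨ s2 N = true)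
    {P : BQ} {cs : List PB} {ws : List ℕ} {kns : List KN}
    {d lim z q0 : ℕ} {t00 t01 : FT} {z1 q1 : ℕ} {t10 t11 : FT} {l0 l1 : ℕ} {F : PF}
    (h1 : ivS s1 P cs ws kns d lim z q0 t00 t01 z1 q1 t10 t11 l0 l1 F = true)
    (h2 : ivS s2 P cs ws kns d lim z q0 t00 t01 z1 q1 t10 t11 l0 l1 F = true) :
    ivS s P cs ws kns d lim z q0 t00 t01 z1 q1 t10 t11 l0 l1 F = true := by
  refine prepD_cj P cs z q0 d t00 t01 [] _ _ _ (fun p0 a b => ?_) h1 h2
  refine prepD_cj P cs z1 q1 d t10 t11 [] _ _ _ (fun p1 a b => ?_) a b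
  exact nodeS_cj hs _ _ _ _ _ a b

/-- the selected numbers `a ≤ N ≤ b` -/
def selI (a b N : ℕ) : Bool := cond (Nat.ble a N) (Nat.ble N b) false

def selG (a N : ℕ) : Bool := Nat.ble a N

theorem ivC_of {P : BQ} {cs : List PB} {ws : List ℕ} {kn : KN} {kns : List KN}
    {d lim z q0 : ℕ} {t00 t01 : FT} {z1 q1 : ℕ} {t10 t11 : FT} {l0 l1 : ℕ} {F : PF}
    (h : ivS (selG 0) P cs ws (kn :: kns) d lim z q0 t00 t01 z1 q1 t10 t11 l0 l1 F = true) :
    ivC P cs ws (kn :: kns) d lim z q0 t00 t01 z1 q1 t10 t11 l0 l1 F = true := by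
  have h0 := ivS_cj (s := fun _ => true) (s1 := selG 0) (s2 := selG 0)
    (fun N _ => Or.inl (by simp [selG])) h h
  refine prepD_cj P cs z q0 d t00 t01 [] _ _ _ (fun p0 a b => ?_) h0 h0
  refine prepD_cj P cs z1 q1 d t10 t11 [] _ _ _ (fun p1 a b => ?_) a b
  exact nodeS_all _ _ _ _ _ _ a

/-- cut at `c` -/
theorem ivS_cut {a c : ℕ} {P : BQ} {cs : List PB} {ws : List ℕ} {kns : List KN}
    {d lim z q0 : ℕ} {t00 t01 : FT} {z1 q1 : ℕ} {t10 t11 : FT} {l0 l1 : ℕ} {F : PF}
    (h1 : ivS (selI a c) P cs ws kns d lim z q0 t00 t01 z1 q1 t10 t11 l0 l1 F = true)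
    (h2 : ivS (selG (c + 1)) P cs ws kns d lim z q0 t00 t01 z1 q1 t10 t11 l0 l1 F = true) :
    ivS (selG a) P cs ws kns d lim z q0 t00 t01 z1 q1 t10 t11 l0 l1 F = true := by
  refine ivS_cj (fun N hN => ?_) h1 h2
  have hN' : a ≤ N := Nat.le_of_ble_eq_true hN
  rcases Nat.lt_or_ge c N with hc | hc
  · exact Or.inr (Nat.ble_eq_true_of_le hc)
  · left
    have e1 : Nat.ble a N = true := Nat.ble_eq_true_of_le hN'
    have e2 : Nat.ble N c = true := Nat.ble_eq_true_of_le hc
    simp [selI, e1, e2]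

end CB
end Pool.Agent.Lib.MP_6947cd_al
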