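import Pool.Agent.Lib.MP_6947cd_al.L.TabL1
import Pool.Agent.Lib.MP_6947cd_al.L.TabL2

/-!
Problem MP_6947cd_al (Chollet).  Tables of concentrated rows `(1; k/100, q/40, m^n, r)`, `m = 3/10`, `50 ≤ k ≤ 100`, `12 ≤ q ≤ 18`.
-/

set_option autoImplicit false
open Finset

namespace Pool.Agent.Lib.MP_6947cd_al
namespace Fr
namespace TG

open Ent Ent.Pk IA.F TZ

/-- the packed values -/
def vL : List (List ℕ) := [vL12, vL13, vL14, vL15, vL16, vL17, vL18]

/-- the packed values -/
def VL (k q : ℕ) : ℕ := (vL.getD (q - 12) []).getD (k - 50) 0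

/-- the numbers of nodes -/
def NL (k : ℕ) : ℕ := nL.getD (k - 50) 0

theorem tabL : Tab3 (fun z k q => gt (VL k q) z) NL 12 50 100 12 18 := by
  intro z k q hk hk' hq hq' hz
  interval_cases q
  · exact tz3_sound 12 12 nL xL12 vL12 50 100 cL12 (by decide +kernel) z k hk hk' hz
  · exact tz3_sound 12 13 nL xL13 vL13 50 100 cL13 (by decide +kernel) z k hk hk' hz
  · exact tz3_sound 12 14 nL xL14 vL14 50 100 cL14 (by decide +kernel) z k hk hk' hz
  · exact tz3_sound 12 15 nL xL15 vL15 50 100 cL15 (by decide +kernel) z k hk hk' hz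
  · exact tz3_sound 12 16 nL xL16 vL16 50 100 cL16 (by decide +kernel) z k hk hk' hz
  · exact tz3_sound 12 17 nL xL17 vL17 50 100 cL17 (by decide +kernel) z k hk hk' hz
  · exact tz3_sound 12 18 nL xL18 vL18 50 100 cL18 (by decide +kernel) z k hk hk' hz

end TG
end Fr
end Pool.Agent.Lib.MP_6947cd_al
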