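import Pool.Agent.Lib.MP_6947cd_al.L.PropIB
import Pool.Agent.Lib.MP_6947cd_al.L.TabL

/-!
Problem MP_6947cd_al (Chollet).  CASE B: no bad rows for `h ≤ 108/200`, second entry in `[q/40, (q+1)/40]`,
`q = 12, .., 15`.
-/

set_option autoImplicit false
open Finset

namespace Pool.Agent.Lib.MP_6947cd_al
namespace Fr
namespace IB

open Ent CA CB TG

/-- the set without bad rows -/
def eB (q : ℕ) : Box := ⟨100, 108, 100, 108, q, q + 1, 12, 0, 0, 0, [], [0], []⟩

/-- from the check to the emptiness -/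
theorem emptyB_of (q : ℕ) (h12 : 12 ≤ q) (h17 : q ≤ 17) (hI : PropIB (eB q)) :
    EmptyB (((108 : ℕ) : ℝ) / 200) ((q : ℝ) / 40) (((q + 1 : ℕ) : ℝ) / 40) := by
  intro κ _ _ b hb0 hb1 i j l hij hil hjl hi hlj hj g0 g1 hm
  have hq : (12 : ℝ) ≤ q := by exact_mod_cast h12
  have hq' : (q : ℝ) ≤ 17 := by exact_mod_cast h17
  push_cast at g1
  rcases le_or_gt (b j) (1 / 2) with h5 | h5
  · exact emptyB (b j) ((q : ℝ) / 40) (((q : ℝ) + 1) / 40) h5 (by linarith) (by linarith) κ b hb0 hb1 i j l hij hil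
      hjl hi hlj le_rfl g0 g1 hm
  · by_contra hcon
    push Not at hcon
    obtain ⟨_, h2, _⟩ := hI κ b hb0 hb1 i j l hij hil hjl hi
      (by show ((100 : ℕ) : ℝ) / 200 < b j; push_cast; linarith) hj g0 (by
        show b l ≤ ((q + 1 : ℕ) : ℝ) / 40
        push_cast
        exact g1) hlj (fun c hc hc' hc'' => (hm c hc hc' hc'').trans (by
        show (3 : ℝ) / 10 ≤ ((12 : ℕ) : ℝ) / 40
        norm_num)) _ _ rfl rfl (sub_pos.mpr hcon)
    unfold IneqI at h2
    have hrz : (((eB q).rz : ℕ) : ℝ) / 100000 = 0 := by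
      show ((0 : ℕ) : ℝ) / 100000 = 0
      norm_num
    rw [hrz] at h2
    have hS : 0 ≤ ∑ c ∈ ({i, j, l} : Finset κ)ᶜ, b c := Finset.sum_nonneg fun c _ => hb0 c
    have hl0 := hb0 l
    have hj1 := hb1 j
    have hD : 0 < F b - What (b j + b l + ∑ c ∈ ({i, j, l} : Finset κ)ᶜ, b c) := sub_pos.mpr hcon
    have h3 : 0 < (F b - What (b j + b l + ∑ c ∈ ({i, j, l} : Finset κ)ᶜ, b c)) * (4 * b j - b j ^ 2) :=
      mul_pos hD (by nlinarith)
    have h4 : 0 ≤ 4 * (∑ c ∈ ({i, j, l} : Finset κ)ᶜ, b c + b l) *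
        max (F b - What (b j + b l + ∑ c ∈ ({i, j, l} : Finset κ)ᶜ, b c)) (1 / 1000) :=
      mul_nonneg (by linarith) (le_max_of_le_right (by norm_num))
    have h6 : 0 < 3 * b j ^ 2 := by positivity
    have h7 : 0 < ((F b - What (b j + b l + ∑ c ∈ ({i, j, l} : Finset κ)ᶜ, b c)) * (4 * b j - b j ^ 2)
        + 4 * (∑ c ∈ ({i, j, l} : Finset κ)ᶜ, b c + b l) *
        max (F b - What (b j + b l + ∑ c ∈ ({i, j, l} : Finset κ)ᶜ, b c)) (1 / 1000)) / (3 * b j ^ 2) :=
      div_pos (by linarith) h6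
    rw [zero_mul, zero_mul, zero_mul, add_zero, add_zero, add_zero] at h2
    linarith

/-- certificate -/
def ce12 : List (List (List ℕ)) :=
  [[[(nat_lit 0x75580d89ba0180a00000020228),
     (nat_lit 0x75780d89ba0100200000020228)],
    [(nat_lit 0x75370d89ba8200a00000020228),
     (nat_lit 0x75580d89ba0180200000020228)],
    [(nat_lit 0x75178dff518180a00000020229),
     (nat_lit 0x75380dff518100200000020229)],
    [(nat_lit 0x74f60dff518200a00000020229),
     (nat_lit 0x75178dff518180200000020229)]]]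

theorem emptyB12 : EmptyB (((108 : ℕ) : ℝ) / 200) (((12 : ℕ) : ℝ) / 40) (((13 : ℕ) : ℝ) / 40) :=
  emptyB_of 12 (by norm_num) (by norm_num) (box4_sound VL NL 50 100 12 18 (eB 12) ce12 tabL (by norm_num)
    (by norm_num) (by decide +kernel))

/-- certificate -/
def ce13 : List (List (List ℕ)) :=
  [[[(nat_lit 0x74f60dff518200a00000020229),
     (nat_lit 0x75178dff518180200000020229)],
    [(nat_lit 0x74f60dff518200a00000020229),
     (nat_lit 0x75178dff518180200000020229)],
    [(nat_lit 0x74b40e74a88200a0000002022a),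
     (nat_lit 0x74d58e74aa018020000002022a)],
    [(nat_lit 0x74b40e74a88200a0000002022a),
     (nat_lit 0x74d58e74aa018020000002022a)]]]

theorem emptyB13 : EmptyB (((108 : ℕ) : ℝ) / 200) (((13 : ℕ) : ℝ) / 40) (((14 : ℕ) : ℝ) / 40) :=
  emptyB_of 13 (by norm_num) (by norm_num) (box4_sound VL NL 50 100 12 18 (eB 13) ce13 tabL (by norm_num)
    (by norm_num) (by decide +kernel))

/-- certificate -/
def ce14 : List (List (List ℕ)) :=
  [[[(nat_lit 0x74b40e74a88200a0000002022a),
     (nat_lit 0x74d58e74aa018020000002022a)],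
    [(nat_lit 0x74920ee9c20180a0000002022b),
     (nat_lit 0x74b48ee9c2010020000002022b)],
    [(nat_lit 0x74700ee9c08200a0000002022b),
     (nat_lit 0x74920ee9c2018020000002022b)],
    [(nat_lit 0x744d8f5e980180a0000002022c),
     (nat_lit 0x74700f5e98010020000002022c)]]]

theorem emptyB14 : EmptyB (((108 : ℕ) : ℝ) / 200) (((14 : ℕ) : ℝ) / 40) (((15 : ℕ) : ℝ) / 40) :=
  emptyB_of 14 (by norm_num) (by norm_num) (box4_sound VL NL 50 100 12 18 (eB 14) ce14 tabL (by norm_num)
    (by norm_num) (by decide +kernel))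

/-- certificate -/
def ce15 : List (List (List ℕ)) :=
  [[[(nat_lit 0x74700ee9c08200a0000002022b),
     (nat_lit 0x74920ee9c2018020000002022b)],
    [(nat_lit 0x742a0f5e980200a0000002022c),
     (nat_lit 0x744d8f5e98018020000002022c)],
    [(nat_lit 0x742a0f5e980200a0000002022c),
     (nat_lit 0x744d8f5e98018020000002022c)],
    [(nat_lit 0x73e40fd32a0200a0000002022d),
     (nat_lit 0x74078fd32b018020000002022d)]]]

theorem emptyB15 : EmptyB (((108 : ℕ) : ℝ) / 200) (((15 : ℕ) : ℝ) / 40) (((16 : ℕ) : ℝ) / 40) :=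
  emptyB_of 15 (by norm_num) (by norm_num) (box4_sound VL NL 50 100 12 18 (eB 15) ce15 tabL (by norm_num)
    (by norm_num) (by decide +kernel))

/-- certificate -/
def ce16 : List (List (List ℕ)) :=
  [[[(nat_lit 0x74078fd32b0180a0000002022d),
     (nat_lit 0x742a8fd32b010020000002022d)],
    [(nat_lit 0x73e40fd32a0200a0000002022d),
     (nat_lit 0x74078fd32b018020000002022d)],
    [(nat_lit 0x73c09047788180a0000002022e),
     (nat_lit 0x73e4904778810020000002022e)],
    [(nat_lit 0x739c1047788200a0000002022e),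
     (nat_lit 0x73c0904778818020000002022e)]]]

theorem emptyB16 : EmptyB (((108 : ℕ) : ℝ) / 200) (((16 : ℕ) : ℝ) / 40) (((17 : ℕ) : ℝ) / 40) :=
  emptyB_of 16 (by norm_num) (by norm_num) (box4_sound VL NL 50 100 12 18 (eB 16) ce16 tabL (by norm_num)
    (by norm_num) (by decide +kernel))

end IB
end Fr
end Pool.Agent.Lib.MP_6947cd_al
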