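import Pool.Agent.Lib.MP_6947cd_al.L.ReZ
import Pool.Agent.Lib.MP_6947cd_al.Y.TWr

/-!
Problem MP_6947cd_al (Chollet).  Row certificates `rowE`: soundness in the form of the packed tables.
-/

set_option autoImplicit false

namespace Pool.Agent.Lib.MP_6947cd_al
namespace RE

theorem rcOK_rowE : PkA.RcOK rowE := rowE_sound

end RE
end Pool.Agent.Lib.MP_6947cd_al
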