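import Pool.Agent.Lib.MP_6947cd_al.ZB.Fin
import Pool.Agent.Lib.MP_6947cd_al.TB.EnvOk
import Pool.Agent.Lib.MP_6947cd_al.C.LibAll
import Pool.Agent.Lib.MP_6947cd_al.L.ReE

/-!
Problem MP_6947cd_al (Chollet).  CASE B, SECOND ENTRY IN `[2/5, 17/20]`: the library of pairs, the tables, the root
cells together.
-/

set_option autoImplicit false

namespace Pool.Agent.Lib.MP_6947cd_al
namespace B2

open Ent Fr B1 PkA

/-- the environment is correct -/
theorem eb_env : EB TB.env := ⟨CB.libII, TB.env_ok RE.rcOK_rowE⟩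

/-- **CASE B, SECOND ENTRY IN `[2/5, 17/20]`.** -/
theorem specBI_mid : LL.SpecBI What (2 / 5) (17 / 20) := specB2Z eb_env

end B2
end Pool.Agent.Lib.MP_6947cd_al
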