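import Pool.Agent.Lib.MP_6947cd_al.L.Last
import Pool.Agent.Lib.MP_6947cd_al.L.LastB
import Pool.Agent.Lib.MP_6947cd_al.TC.All

/-!
Problem MP_6947cd_al (Chollet).  CHOLLET'S INEQUALITY.
-/

set_option autoImplicit false
open scoped Matrix ComplexOrder
open Matrix Finset

namespace Pool.Agent.Lib.MP_6947cd_al

/-- **CHOLLET'S INEQUALITY** for the permanent of the entrywise product of positive semidefinite matrices. -/
theorem chollet : ∀ n : ℕ, ∀ A B : Matrix (Fin n) (Fin n) ℂ, A.PosSemidef → B.PosSemidef →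
    (A ⊙ B).permanent ≤ A.permanent * B.permanent :=
  Fr.LL.chollet_of_BC' B2.specBI_mid TC.specC

end Pool.Agent.Lib.MP_6947cd_al
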