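import Pool.Agent.Lib.MP_6947cd_al.T.Two
import Pool.Agent.Lib.MP_6947cd_al.L.Cell

/-!
Problem MP_6947cd_al (Chollet).  RULES FOR FILLING TABLES OF ROW VALUES.

* `FM_two`: an entry `x` below an entry `d ≥ a` costs at most `A x + B x ^ 2 / 2` (`TwoHyp a A B`);
* `FM_log`: an entry `x` costs at most `log (1 + x / L)`, `L` = the sum of the entries which are at least `x`;
* `FM_chord`: concentration of entries in `[0, K]` (chord of the rows with `n` and `n + 1` entries `K`).
-/

set_option autoImplicit false
open Finset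

namespace Pool.Agent.Lib.MP_6947cd_al
namespace Ent

variable {κ : Type} [Fintype κ] [DecidableEq κ]

/-- the mass of an entry which is smaller than the entries of `T` -/
theorem mass_log (b : κ → ℝ) (c : κ) (T : Finset κ) (hcT : c ∉ T) (hc : 0 < b c)
    (hle : ∀ d ∈ T, b c ≤ b d) :
    ∃ p ∈ adm b, val b p = F b ∧ p c * (b c + ∑ d ∈ T, b d) ≤ b c := by
  have hcomp : IsCompact {p : κ → ℝ | p ∈ adm b ∧ val b p = F b} := by
    have h := (isCompact_adm b).inter_right (isClosed_eq (continuous_val b) continuous_const :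
      IsClosed {p : κ → ℝ | val b p = F b})
    exact h
  obtain ⟨p0, hp0, hv0⟩ := exists_val_eq_F b ⟨c, hc.ne'⟩
  obtain ⟨p, ⟨hp, hv⟩, hmin⟩ := hcomp.exists_isMinOn ⟨p0, hp0, hv0⟩
    ((continuous_apply c).continuousOn : ContinuousOn (fun p : κ → ℝ => p c) _)
  refine ⟨p, hp, hv, ?_⟩
  have hmass : ∀ d ∈ T, p c ≤ p d := by
    intro d hd
    by_contra hcon
    push Not at hcon
    have hdc : b c ≤ b d := hle d hd
    have hbd : 0 < b d := hc.trans_le hdc
    have hcd : c ≠ d := fun h => hcT (h ▸ hd)
    have hadm : (fun a => p (Equiv.swap d c a)) ∈ adm b := by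
      refine ⟨fun j => hp.1 _, ?_, fun j hj => ?_⟩
      · rw [Equiv.sum_comp (Equiv.swap d c) p]
        exact hp.2.1
      · have hjd : j ≠ d := fun h => by rw [h] at hj; exact hbd.ne' hj
        have hjc : j ≠ c := fun h => by rw [h] at hj; exact hc.ne' hj
        show p (Equiv.swap d c j) = 0
        rw [Equiv.swap_apply_of_ne_of_ne hjd hjc]
        exact hp.2.2 j hj
    have hval : val b (fun a => p (Equiv.swap d c a)) = F b := by
      refine le_antisymm (val_le_F b _ hadm) ?_
      rw [val_swap, hv]
      have h1 : 0 ≤ p c - p d := by linarith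
      have h2 : 0 ≤ Real.log (b d) - Real.log (b c) := sub_nonneg.mpr (Real.log_le_log hc hdc)
      have := mul_nonneg h1 h2
      linarith
    have h3 := isMinOn_iff.mp hmin (fun a => p (Equiv.swap d c a)) ⟨hadm, hval⟩
    have h4 : p (Equiv.swap d c c) = p d := by rw [Equiv.swap_apply_right]
    change p c ≤ p (Equiv.swap d c c) at h3
    rw [h4] at h3
    linarith
  have hpc := hp.1 c
  have hT : ∀ d ∈ T, p c / b c * b d ≤ p d := by
    intro d hd
    have hcd : d ≠ c := fun h => hcT (h ▸ hd)
    have hbd : 0 < b d := hc.trans_le (hle d hd)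
    have h1 := ratio_le b p hp hv d c hcd hc (hle d hd) (hmass d hd)
    calc p c / b c * b d ≤ p d / b d * b d := mul_le_mul_of_nonneg_right h1 hbd.le
      _ = p d := by field_simp
  have h2 : p c + ∑ d ∈ T, p d ≤ 1 := by
    rw [← Finset.sum_insert hcT, ← hp.2.1]
    exact Finset.sum_le_sum_of_subset_of_nonneg (Finset.subset_univ _) fun j _ _ => hp.1 j
  have h3 : p c / b c * ∑ d ∈ T, b d ≤ ∑ d ∈ T, p d := by
    rw [Finset.mul_sum]
    exact Finset.sum_le_sum hT
  have h4 : p c / b c * (b c + ∑ d ∈ T, b d) ≤ 1 := by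
    have e : p c / b c * b c = p c := by field_simp
    rw [mul_add, e]
    linarith
  calc p c * (b c + ∑ d ∈ T, b d) = b c * (p c / b c * (b c + ∑ d ∈ T, b d)) := by field_simp
    _ ≤ b c * 1 := mul_le_mul_of_nonneg_left h4 hc.le
    _ = b c := mul_one _

/-- removing an entry which is smaller than the entries of `T` -/
theorem F_update_log (b : κ → ℝ) (hb0 : ∀ j, 0 ≤ b j) (hb1 : ∀ j, b j ≤ 1) (i c : κ) (hic : i ≠ c)
    (hi : b i = 1) (T : Finset κ) (hcT : c ∉ T) (hiT : i ∈ T) (hle : ∀ d ∈ T, b c ≤ b d) :
    F b ≤ F (Function.update b c 0)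
      + (Real.log (b c + ∑ d ∈ T, b d) - Real.log (∑ d ∈ T, b d)) := by
  set S := ∑ d ∈ T, b d with hS
  have hS1 : 1 ≤ S := by
    rw [← hi]
    exact Finset.single_le_sum (fun d _ => hb0 d) hiT
  rcases eq_or_lt_of_le (hb0 c) with h0 | h0
  · have e : Function.update b c 0 = b := by
      funext j
      by_cases hj : j = c
      · subst hj
        rw [Function.update_self]
        exact h0
      · rw [Function.update_of_ne hj]
    rw [e, ← h0, zero_add]
    simp
  have hne : ∀ d, d ∈ T → d ≠ c := by
    rintro d hd rfl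
    exact hcT hd
  -- one step
  have hstep : ∀ r r' : ℝ, 0 < r → r ≤ r' → r' ≤ b c →
      F (Function.update b c r') ≤ F (Function.update b c r)
        + r' / (r' + S) * (Real.log r' - Real.log r) := by
    intro r r' hr0 hrr hr'
    have hr'0 : 0 < r' := hr0.trans_le hrr
    have hTe : ∑ d ∈ T, Function.update b c r' d = S := by
      refine Finset.sum_congr rfl fun d hd => ?_
      rw [Function.update_of_ne (hne d hd)]
    obtain ⟨p, hp, hv, hm⟩ := mass_log (Function.update b c r') c T hcT
      (by rw [Function.update_self]; exact hr'0) (fun d hd => by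
        rw [Function.update_self, Function.update_of_ne (hne d hd)]
        exact hr'.trans (hle d hd))
    rw [Function.update_self, hTe] at hm
    have hpos : 0 < r' + S := by linarith
    have hm' : p c ≤ r' / (r' + S) := by rw [le_div_iff₀ hpos]; exact hm
    have hp' : p ∈ adm (Function.update b c r) := by
      refine ⟨hp.1, hp.2.1, fun j hj => hp.2.2 j ?_⟩
      by_cases hjc : j = c
      · subst hjc
        rw [Function.update_self] at hj
        exact absurd hj hr0.ne'
      · rw [Function.update_of_ne hjc] at hj ⊢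
        exact hj
    have h1 := val_le_F _ p hp'
    have h2 := val_update b p c r r'
    rw [hv] at h2
    have h3 : 0 ≤ Real.log r' - Real.log r := sub_nonneg.mpr (Real.log_le_log hr0 hrr)
    have h4 := mul_le_mul_of_nonneg_right hm' h3
    linarith
  -- positive lower end
  have hpos : ∀ s : ℝ, 0 < s → s ≤ b c →
      F b ≤ F (Function.update b c s) + (Real.log (b c + S) - Real.log (s + S)) := by
    intro s hs0 hs
    have h := mono_of_quad (fun t => F (Function.update b c (b c - t)) - Real.log (b c - t + S))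
      (b c - s) (1 / s) (by linarith) ?_
    · simp only [sub_zero, Function.update_eq_self, sub_sub_cancel] at h
      linarith
    · intro t t' h0 h1 h2
      have hr0 : 0 < b c - t' := by linarith
      have h3 := hstep (b c - t') (b c - t) hr0 (by linarith) (by linarith)
      set r := b c - t' with hr
      set r' := b c - t with hr'
      have hrr : r ≤ r' := by linarith
      have hr'0 : 0 < r' := by linarith
      have e : t' - t = r' - r := by linarith
      rw [e]
      have hA : Real.log r' - Real.log r ≤ (r' - r) / r := by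
        have := Real.log_le_sub_one_of_pos (show 0 < r' / r by positivity)
        rw [Real.log_div hr'0.ne' hr0.ne'] at this
        refine this.trans (le_of_eq ?_)
        field_simp
      have hB : (r' - r) / (r' + S) ≤ Real.log (r' + S) - Real.log (r + S) := by
        have h5 := Real.one_sub_inv_le_log_of_pos (show 0 < (r' + S) / (r + S) by positivity)
        rw [Real.log_div (by positivity) (by positivity), inv_div] at h5
        refine le_trans (le_of_eq ?_) h5
        field_simp
        ring
      have hq : 0 ≤ r' / (r' + S) := by positivity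
      have h6 := mul_le_mul_of_nonneg_left hA hq
      have hs' : s ≤ r := by linarith
      have h7 : r' / (r' + S) * ((r' - r) / r) - (r' - r) / (r' + S) ≤ (r' - r) ^ 2 * (1 / s) := by
        have e1 : r' / (r' + S) * ((r' - r) / r) - (r' - r) / (r' + S)
            = (r' - r) ^ 2 * (1 / (r * (r' + S))) := by
          field_simp
        rw [e1]
        refine mul_le_mul_of_nonneg_left ?_ (sq_nonneg _)
        refine one_div_le_one_div_of_le hs0 ?_
        nlinarith
      show F (Function.update b c r') - Real.log (r' + S)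
        ≤ F (Function.update b c r) - Real.log (r + S) + (r' - r) ^ 2 * (1 / s)
      linarith
  refine le_of_forall_pos_le_add fun ε hε => ?_
  obtain ⟨δ, hδ, hend⟩ := path_end b hb0 hb1 i c hic hi (43 / 200) (39 / 200) _ (by norm_num)
    (by norm_num) le_rfl (slopeHyp _) ε hε
  set r := min (δ / 2) (b c) with hr
  have hr0 : 0 < r := lt_min (by linarith) h0
  have hrδ : r < δ := lt_of_le_of_lt (min_le_left _ _) (by linarith)
  have hrb : r ≤ b c := min_le_right _ _
  have h2 := hpos r hr0 hrb
  have h3 := hend r hr0 hrδ hrb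
  have h4 : Real.log S ≤ Real.log (r + S) := Real.log_le_log (by linarith) (by linarith)
  linarith

/-! ### multisets -/

/-- an entry `x` below an entry `d ≥ a` -/
theorem FM_two (s : Multiset ℝ) (h1 : 1 ∈ s) (hs : ∀ z ∈ s, 0 ≤ z ∧ z ≤ 1) (x d : ℝ) (hx0 : 0 ≤ x)
    (hxd : x ≤ d) (hd1 : d ≤ 1) (a A B : ℝ) (ha : 0 < a) (had : a ≤ d) (hA : 0 ≤ A) (hB : 0 ≤ B)
    (H : TwoHyp a A B) :
    FM (x ::ₘ d ::ₘ s) ≤ FM (d ::ₘ s) + (A * x + B / 2 * x ^ 2) := by
  obtain ⟨n, b, hb⟩ := exists_row s
  have hmem : ∀ k, b k ∈ s := fun k => by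
    rw [← hb]
    exact Multiset.mem_map_of_mem b (Finset.mem_univ_val k)
  obtain ⟨i, _, hi⟩ := Multiset.mem_map.mp (by rw [hb]; exact h1 :
    (1 : ℝ) ∈ (Finset.univ : Finset (Fin n)).val.map b)
  have e : ∀ x : ℝ, FM (x ::ₘ d ::ₘ s) = F (fun k : Option (Option (Fin n)) => k.elim x fun k => k.elim d b) := by
    intro x
    rw [← FM_cons_eq x (fun k : Option (Fin n) => k.elim d b)]
    congr 2
    rw [← hb]
    have e1 : (Finset.univ : Finset (Option (Fin n))).val
        = none ::ₘ ((Finset.univ : Finset (Fin n)).val.map some) := rfl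
    rw [e1, Multiset.map_cons, Multiset.map_map]
    rfl
  have h := F_update_two (fun k : Option (Option (Fin n)) => k.elim x fun k => k.elim d b) (by
      rintro (_ | _ | k)
      · exact hx0
      · exact hx0.trans hxd
      · exact (hs _ (hmem k)).1) (by
      rintro (_ | _ | k)
      · exact hxd.trans hd1
      · exact hd1
      · exact (hs _ (hmem k)).2) (some (some i)) none (some none) (by simp) (by simp) (by simp) hi
      a A B ha had hxd hA hB H 0 le_rfl hx0
  have e2 : F (Function.update (fun k : Option (Option (Fin n)) => k.elim x fun k => k.elim d b) none 0)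
      = FM (d ::ₘ s) := by
    rw [← FM_zero_cons, e]
    congr 1
    ext k
    rcases k with (_ | k)
    · rw [Function.update_self]
      rfl
    · rw [Function.update_of_ne (by simp)]
      rfl
  rw [e2] at h
  rw [e]
  refine h.trans (le_of_eq ?_)
  show FM (d ::ₘ s) + (A * (x - 0) + B / 2 * (x ^ 2 - 0 ^ 2)) = _
  ring

/-- an entry `x` below all entries of `L` -/
theorem FM_log (L R : Multiset ℝ) (h1 : 1 ∈ L) (hL : ∀ z ∈ L, z ≤ 1) (hR : ∀ z ∈ R, 0 ≤ z ∧ z ≤ 1)
    (x : ℝ) (hx0 : 0 ≤ x) (hxL : ∀ z ∈ L, x ≤ z) :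
    FM (x ::ₘ (L + R)) ≤ FM (L + R) + (Real.log (x + L.sum) - Real.log L.sum) := by
  classical
  obtain ⟨n, b, hb⟩ := exists_row (L + R)
  have hmem : ∀ k, b k ∈ L + R := fun k => by
    rw [← hb]
    exact Multiset.mem_map_of_mem b (Finset.mem_univ_val k)
  have hval : ∀ k, 0 ≤ b k ∧ b k ≤ 1 := by
    intro k
    rcases Multiset.mem_add.mp (hmem k) with h | h
    · exact ⟨hx0.trans (hxL _ h), hL _ h⟩
    · exact hR _ h
  obtain ⟨i, _, hi⟩ := Multiset.mem_map.mp (by rw [hb]; exact Multiset.mem_add.mpr (Or.inl h1) :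
    (1 : ℝ) ∈ (Finset.univ : Finset (Fin n)).val.map b)
  have hx1 : x ≤ 1 := hxL 1 h1
  set T : Finset (Option (Fin n)) := Finset.univ.filter fun k => k ≠ none ∧ x ≤ k.elim x b with hT
  have hTsum : ∑ d ∈ T, (fun k : Option (Fin n) => k.elim x b) d
      = ((L + R).filter fun z => x ≤ z).sum := by
    have e1 : T = (Finset.univ.filter fun k : Fin n => x ≤ b k).map Function.Embedding.some := by
      ext k
      rw [hT]
      simp only [Finset.mem_filter, Finset.mem_univ, true_and, Finset.mem_map,
        Function.Embedding.some_apply]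
      constructor
      · rintro ⟨h2, h3⟩
        rcases k with (_ | k)
        · exact absurd rfl h2
        · exact ⟨k, h3, rfl⟩
      · rintro ⟨k, h2, rfl⟩
        exact ⟨by simp, h2⟩
    rw [e1, Finset.sum_map, ← hb, Multiset.filter_map]
    rfl
  have hle : L.sum ≤ ((L + R).filter fun z => x ≤ z).sum := by
    rw [Multiset.filter_add, Multiset.sum_add, Multiset.filter_eq_self.mpr hxL]
    have : 0 ≤ (R.filter fun z => x ≤ z).sum :=
      Multiset.sum_nonneg fun z hz => (hR z (Multiset.mem_of_mem_filter hz)).1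
    linarith
  have hLpos : 1 ≤ L.sum := by
    obtain ⟨L', hL'⟩ := Multiset.exists_cons_of_mem h1
    rw [hL', Multiset.sum_cons]
    have : 0 ≤ L'.sum := Multiset.sum_nonneg fun z hz =>
      hx0.trans (hxL z (by rw [hL']; exact Multiset.mem_cons_of_mem hz))
    linarith
  have h := F_update_log (fun k : Option (Fin n) => k.elim x b) (by
      rintro (_ | k)
      · exact hx0
      · exact (hval k).1) (by
      rintro (_ | k)
      · exact hx1
      · exact (hval k).2) (some i) none (by simp) hi T (by rw [hT]; simp) (by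
      rw [hT]
      simp only [Finset.mem_filter, Finset.mem_univ, true_and]
      refine ⟨by simp, ?_⟩
      show x ≤ b i
      rw [hi]
      exact hx1) (by
      intro d hd
      rw [hT] at hd
      exact (Finset.mem_filter.mp hd).2.2)
  rw [hTsum] at h
  have e2 : F (Function.update (fun k : Option (Fin n) => k.elim x b) none 0) = FM (L + R) := by
    rw [← FM_zero_cons, ← hb, FM_cons_eq]
    congr 1
    ext k
    rcases k with (_ | k)
    · rw [Function.update_self]
      rfl
    · rw [Function.update_of_ne (by simp)]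
      rfl
  rw [e2, ← FM_cons_eq, hb] at h
  refine h.trans (add_le_add le_rfl ?_)
  change Real.log (x + ((L + R).filter fun z => x ≤ z).sum)
    - Real.log ((L + R).filter fun z => x ≤ z).sum ≤ _
  set S := ((L + R).filter fun z => x ≤ z).sum with hS
  have hS0 : 0 < S := by linarith
  have hL0 : 0 < L.sum := by linarith
  rw [← Real.log_div (by positivity) hS0.ne', ← Real.log_div (by positivity) hL0.ne']
  refine Real.log_le_log (by positivity) ?_
  rw [div_le_div_iff₀ hS0 hL0]
  nlinarith

/-- concentration of entries in `[0, K]` -/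
theorem FM_chord (S M : Multiset ℝ) (h1 : 1 ∈ S) (hS : ∀ z ∈ S, 0 ≤ z ∧ z ≤ 1) (K : ℝ) (hK0 : 0 < K)
    (hK1 : K ≤ 1) (hM : ∀ z ∈ M, 0 ≤ z ∧ z ≤ K) (n : ℕ) (u v : ℝ) (hn1 : (n : ℝ) * K ≤ M.sum)
    (hn2 : M.sum ≤ ((n : ℝ) + 1) * K) (hu : FM (S + Multiset.replicate n K) ≤ u)
    (hv : FM (S + Multiset.replicate (n + 1) K) ≤ v) :
    FM (S + M) ≤ u + (M.sum / K - n) * (v - u) := by
  obtain ⟨m, n', r, g1, g2, g3, g4, g5⟩ := piece 0 K le_rfl hK0 hK1 M _ h1 hS hM
  have e0 : ∀ X : Multiset ℝ, FM (S + (Multiset.replicate m 0 + Multiset.replicate n' K + X))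
      = FM (S + (Multiset.replicate n' K + X)) := by
    intro X
    rw [← FM_zero_add m (S + (Multiset.replicate n' K + X))]
    congr 1
    abel
  rw [e0] at g5
  rw [mul_zero, zero_add] at g4
  refine g5.trans ?_
  rcases Nat.lt_or_ge 0 r.card with hr | hr
  · obtain ⟨y, rfl⟩ := Multiset.card_eq_one.mp (le_antisymm g1 hr)
    have hy := g2 y (Multiset.mem_singleton_self y)
    rw [Multiset.sum_singleton] at g4
    have k1 : n' = n := by
      have a1 : (n' : ℝ) * K < ((n + 1 : ℕ) : ℝ) * K := by push_cast; linarith [hy.1]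
      have a2 : (n : ℝ) * K < ((n' + 1 : ℕ) : ℝ) * K := by push_cast; linarith [hy.2]
      have b1 : n' < n + 1 := by exact_mod_cast lt_of_mul_lt_mul_right a1 hK0.le
      have b2 : n < n' + 1 := by exact_mod_cast lt_of_mul_lt_mul_right a2 hK0.le
      omega
    subst k1
    have hN : ∀ z ∈ S + Multiset.replicate n' K, 0 ≤ z ∧ z ≤ 1 := by
      intro z hz
      rcases Multiset.mem_add.mp hz with hz | hz
      · exact hS z hz
      · rw [Multiset.eq_of_mem_replicate hz]; exact ⟨hK0.le, hK1⟩
    have hcv := FM_convexOn (S + Multiset.replicate n' K) (Multiset.mem_add.mpr (Or.inl h1)) hN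
    have h2 := hcv.2 (show (0 : ℝ) ∈ Set.Icc (0 : ℝ) 1 from ⟨le_rfl, zero_le_one⟩)
      (show K ∈ Set.Icc (0 : ℝ) 1 from ⟨hK0.le, hK1⟩)
      (show 0 ≤ 1 - y / K by rw [sub_nonneg, div_le_one hK0]; exact hy.2.le)
      (show 0 ≤ y / K from div_nonneg hy.1.le hK0.le) (by ring)
    have e1 : (1 - y / K) • (0 : ℝ) + (y / K) • K = y := by
      rw [smul_zero, zero_add, smul_eq_mul]
      field_simp
    rw [e1] at h2
    have e2 : y ::ₘ (S + Multiset.replicate n' K) = S + (Multiset.replicate n' K + {y}) := by
      rw [← Multiset.singleton_add]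
      abel
    have e3 : K ::ₘ (S + Multiset.replicate n' K) = S + Multiset.replicate (n' + 1) K := by
      rw [Multiset.replicate_succ, ← Multiset.singleton_add, ← Multiset.singleton_add K]
      abel
    change FM (y ::ₘ (S + Multiset.replicate n' K)) ≤ (1 - y / K) • FM (0 ::ₘ (S + Multiset.replicate n' K))
      + (y / K) • FM (K ::ₘ (S + Multiset.replicate n' K)) at h2
    rw [e2, e3, FM_zero_cons, smul_eq_mul, smul_eq_mul] at h2
    refine h2.trans ?_
    have h3 := mul_le_mul_of_nonneg_left hu (show 0 ≤ 1 - y / K by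
      rw [sub_nonneg, div_le_one hK0]; exact hy.2.le)
    have h4 := mul_le_mul_of_nonneg_left hv (div_nonneg hy.1.le hK0.le)
    have e4 : M.sum / K - n' = y / K := by
      rw [← g4]
      field_simp
      ring
    rw [e4]
    linarith
  · have hr0 : r = 0 := Multiset.card_eq_zero.mp (Nat.le_zero.mp hr)
    subst hr0
    rw [Multiset.sum_zero, add_zero] at g4
    rw [add_zero]
    have a1 : n ≤ n' := by
      have : (n : ℝ) * K ≤ n' * K := by linarith
      exact_mod_cast le_of_mul_le_mul_right this hK0
    have a2 : n' ≤ n + 1 := by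
      have : (n' : ℝ) * K ≤ ((n + 1 : ℕ) : ℝ) * K := by push_cast; linarith
      exact_mod_cast le_of_mul_le_mul_right this hK0
    rcases Nat.eq_or_lt_of_le a1 with h | h
    · subst h
      have e : M.sum / K - n = 0 := by
        rw [← g4]
        field_simp
        ring
      rw [e, zero_mul, add_zero]
      exact hu
    · have h' : n' = n + 1 := by omega
      subst h'
      have e : M.sum / K - n = 1 := by
        rw [← g4]
        push_cast
        field_simp
        ring
      rw [e, one_mul]
      linarith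

end Ent
end Pool.Agent.Lib.MP_6947cd_al
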