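import Pool.Agent.Lib.MP_6947cd_al.L.Assembly
import Pool.Agent.Lib.MP_6947cd_al.T.WhatLB
import Pool.Agent.Lib.MP_6947cd_al.T.GeHarmless

/-!
Problem MP_6947cd_al (Chollet).  `SpecW` for helper63's row value `What`; the extended functional is harmless.
-/

set_option autoImplicit false
open scoped Matrix ComplexOrder
open Matrix Finset

namespace Pool.Agent.Lib.MP_6947cd_al
namespace Fr
namespace LL

open Ent

theorem specW : SpecW What := fun _ _ h => h.row_sum

/-- `GG ≤ max F What` -/
theorem GG_le_max {κ : Type} [Fintype κ] [DecidableEq κ] (b : κ → ℝ) (hb0 : ∀ j, 0 ≤ b j) (i : κ)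
    (hi : b i = 1) : GG.G κ b ≤ max (F b) (What (∑ j ∈ Finset.univ.erase i, b j)) :=
  ge_harmless What What_w1 What_w2 What_w3 What_w4 What_w5 b hb0 i hi

/-- a row is not bad if the entropic function is at most the row value -/
theorem D_nonpos {n : ℕ} {A : Matrix (Fin n) (Fin n) ℂ} (h : CEG GG A) (i : Fin n)
    (hF : F (row A i) ≤ What (tot A i)) : D What A i ≤ 0 := by
  have h1 := GG_le_max (row A i) (row_nonneg A i) i (row_diag A h.diag i)
  have h2 : GG.G (Fin n) (row A i) ≤ What (tot A i) := h1.trans (max_le hF le_rfl)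
  unfold D
  linarith

/-- the extended functional agrees with the entropic function on the bad rows -/
theorem GG_eq_of_bad {n : ℕ} {A : Matrix (Fin n) (Fin n) ℂ} (h : CEG GG A) (i : Fin n)
    (hD : 0 < D What A i) : GG.G (Fin n) (row A i) = F (row A i) := by
  refine le_antisymm ?_ (F_le_GG _)
  have h1 := GG_le_max (row A i) (row_nonneg A i) i (row_diag A h.diag i)
  rcases le_max_iff.mp h1 with h2 | h2
  · exact h2
  · exfalso
    have h3 : GG.G (Fin n) (row A i) ≤ What (tot A i) := h2
    unfold D at hD
    linarith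

end LL
end Fr
end Pool.Agent.Lib.MP_6947cd_al
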