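import Pool.Agent.Lib.MP_6947cd_al.L.BoxData
import Pool.Agent.Lib.MP_6947cd_al.L.SpecW
import Pool.Agent.Lib.MP_6947cd_al.L.Light

/-!
Problem MP_6947cd_al (Chollet).  CASE A, the glue: `PropI`, `PropII`, `PropIII` of the boxes give `SpecA What`.
-/

set_option autoImplicit false
open scoped Matrix ComplexOrder
open Matrix Finset

namespace Pool.Agent.Lib.MP_6947cd_al
namespace CA

open Ent Fr

/-! ### the last knots -/

/-- the check of the last knot: `s / 200` bounds the entry of the row `i`, `kap / 1000` is the knot -/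
def capN (H0 s kap : ℕ) : Bool :=
  Nat.ble H0 200 && (Nat.ble 1000 kap ||
    (Nat.ble (s * 1000 + (200 - H0) * (1000 - kap)) (H0 * kap) &&
      Nat.ble (4000 * s * ((200 - H0) * (1000 - kap)))
        ((H0 * kap - (s * 1000 + (200 - H0) * (1000 - kap))) ^ 2)))

/-- the check of the knots of a box -/
def capOK (x : Box) : Bool :=
  capN x.H0 x.so (x.k.getLastD 0) && (x.q.isEmpty || capN x.H0 (5 * x.shi) (x.q.getLastD 0))

theorem capN_sound {H0 s kap : ℕ} (h : capN H0 s kap = true) {y a t e u : ℝ}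
    (h0 : (H0 : ℝ) / 200 ≤ y) (g : PQ.Geo y a t e u) (ha : a ≤ (s : ℝ) / 200) :
    t ≤ (kap : ℝ) / 1000 := by
  unfold capN at h
  rw [Bool.and_eq_true, Bool.or_eq_true, Bool.and_eq_true, Nat.ble_eq, Nat.ble_eq, Nat.ble_eq,
    Nat.ble_eq] at h
  obtain ⟨h1, h2⟩ := h
  by_contra hcon
  push Not at hcon
  have ht1 := g.t1
  rcases lt_or_ge kap 1000 with hk | hk
  swap
  · have : (1000 : ℝ) ≤ kap := by exact_mod_cast hk
    linarith
  rcases h2 with h2 | ⟨h2, h3⟩
  · omega
  -- the real numbers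
  set P : ℝ := (H0 : ℝ) / 200 with hP
  set K : ℝ := (kap : ℝ) / 1000 with hK
  set σ : ℝ := (s : ℝ) / 200 with hσ
  have hP1 : P ≤ 1 := by
    have : (H0 : ℝ) ≤ 200 := by exact_mod_cast h1
    rw [hP]
    linarith
  have hK1 : K ≤ 1 := by
    have : (kap : ℝ) ≤ 1000 := by exact_mod_cast hk.le
    rw [hK]
    linarith
  have hP0 : 0 ≤ P := by rw [hP]; positivity
  have hK0 : 0 ≤ K := by rw [hK]; positivity
  have hσ0 : 0 ≤ σ := by rw [hσ]; positivity
  have e1 : ((200 - H0 : ℕ) : ℝ) = 200 * (1 - P) := by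
    rw [Nat.cast_sub h1, hP]
    push_cast
    ring
  have e2 : ((1000 - kap : ℕ) : ℝ) = 1000 * (1 - K) := by
    rw [Nat.cast_sub hk.le, hK]
    push_cast
    ring
  have e3 : (H0 : ℝ) = 200 * P := by rw [hP]; ring
  have e4 : (kap : ℝ) = 1000 * K := by rw [hK]; ring
  have e5 : (s : ℝ) = 200 * σ := by rw [hσ]; ring
  have r2 : ((s * 1000 + (200 - H0) * (1000 - kap) : ℕ) : ℝ) ≤ ((H0 * kap : ℕ) : ℝ) := by
    exact_mod_cast h2
  have r3 : ((4000 * s * ((200 - H0) * (1000 - kap)) : ℕ) : ℝ)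
      ≤ (((H0 * kap - (s * 1000 + (200 - H0) * (1000 - kap))) ^ 2 : ℕ) : ℝ) := by
    exact_mod_cast h3
  rw [Nat.cast_pow, Nat.cast_sub h2] at r3
  simp only [Nat.cast_add, Nat.cast_mul, e1, e2, e3, e4, e5] at r2 r3
  push_cast at r2 r3
  set X : ℝ := P * K - σ - (1 - P) * (1 - K) with hX
  have hX0 : 0 ≤ X := by rw [hX]; nlinarith
  have hX2 : 4 * σ * ((1 - P) * (1 - K)) ≤ X ^ 2 := by
    have e : (200 * P * (1000 * K) - (200 * σ * 1000 + 200 * (1 - P) * (1000 * (1 - K)))) ^ 2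
        = 40000000000 * X ^ 2 := by rw [hX]; ring
    rw [e] at r3
    nlinarith
  -- the geometry
  have gs := g.s0
  have hsq := Real.sq_sqrt g.h0
  set Z : ℝ := a + t + y - 1 with hZ
  have hZle : Z ≤ 2 * (Real.sqrt y * e) := by
    have := g.fe
    rw [hZ]
    linarith
  set Y : ℝ := Z - 2 * a with hY
  have hYX : X < Y := by
    have f1 : P + K - 1 = P * K - (1 - P) * (1 - K) := by ring
    rw [hY, hZ, hX]
    linarith
  have hY0 : 0 < Y := lt_of_le_of_lt hX0 hYX
  have hZ0 : 0 ≤ Z := by linarith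
  have hZ2 : Z ^ 2 ≤ 4 * (y * (a * t)) := by
    have f1 : Z ^ 2 ≤ (2 * (Real.sqrt y * e)) ^ 2 := by
      exact pow_le_pow_left₀ hZ0 hZle 2
    have f2 : (2 * (Real.sqrt y * e)) ^ 2 = 4 * (y * e ^ 2) := by
      rw [mul_pow, mul_pow, hsq]
      ring
    rw [f2] at f1
    have f3 := mul_le_mul_of_nonneg_left g.c2 g.h0
    linarith
  have hY2 : Y ^ 2 ≤ 4 * a * ((1 - y) * (1 - t)) := by
    have : Y ^ 2 = Z ^ 2 - 4 * a * Z + 4 * a ^ 2 := by rw [hY]; ring
    rw [this]
    have f1 : 4 * a * Z = 4 * a * (a + t + y - 1) := by rw [hZ]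
    rw [f1]
    nlinarith
  have f1 : (1 - y) * (1 - t) ≤ (1 - P) * (1 - K) :=
    mul_le_mul (by linarith) (by linarith) (by linarith) (by linarith)
  have f2 : 0 ≤ (1 - y) * (1 - t) := mul_nonneg (by linarith [g.h1]) (by linarith)
  have f3 : 4 * a * ((1 - y) * (1 - t)) ≤ 4 * σ * ((1 - P) * (1 - K)) :=
    mul_le_mul (by linarith) f1 f2 (by linarith)
  have f4 : X ^ 2 < Y ^ 2 := by
    exact pow_lt_pow_left₀ hYX hX0 two_ne_zero
  linarith

theorem propCap_of_ok (x : Box) (h : capOK x = true) : PropCap x := by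
  unfold capOK at h
  rw [Bool.and_eq_true, Bool.or_eq_true] at h
  obtain ⟨h1, h2⟩ := h
  intro y s t e u h0 _ g
  refine ⟨fun hs => capN_sound h1 h0 g hs, fun hq _ hs => ?_⟩
  rcases h2 with h2 | h2
  · exact absurd (List.isEmpty_iff.mp h2) hq
  · refine capN_sound h2 h0 g ?_
    push_cast
    linarith

set_option maxRecDepth 100000 in
theorem capAll : ((boxA ++ boxP ++ boxQ ++ boxT).all capOK) = true := by
  decide +kernel

theorem propCap_all : ∀ x ∈ boxA ++ boxP ++ boxQ ++ boxT, PropCap x := fun x hx =>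
  propCap_of_ok x (List.all_eq_true.mp capAll x hx)

end CA

/-! ### the glue for one box -/

namespace Fr
namespace LL

open Ent CA CEG

section

variable {n : ℕ} {A : Matrix (Fin n) (Fin n) ℂ}

lemma sum_vrow (i j : Fin n) (hij : i ≠ j) (u : Fin n → ℝ) :
    ∑ k ∈ univ.erase i, gtr (3 / 20) (9 / 20) (vrow i j u k)
      = ∑ k ∈ ({i, j} : Finset (Fin n))ᶜ, gtr (3 / 20) (9 / 20) (u k) := by
  have h1 : univ.erase i = insert j (({i, j} : Finset (Fin n))ᶜ) := by
    ext k
    simp only [Finset.mem_erase, Finset.mem_univ, and_true, Finset.mem_insert, Finset.mem_compl,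
      Finset.mem_singleton, not_or]
    constructor
    · intro h
      by_cases h2 : k = j
      · exact Or.inl h2
      · exact Or.inr ⟨h, h2⟩
    · rintro (rfl | ⟨h, _⟩)
      · exact hij.symm
      · exact h
  rw [h1, Finset.sum_insert (by simp)]
  have h2 : vrow i j u j = 0 := by
    unfold vrow
    rw [if_neg hij.symm, if_pos rfl]
  rw [h2, gtr_zero _ _ (by norm_num), zero_add]
  refine Finset.sum_congr rfl fun k hk => ?_
  simp only [Finset.mem_compl, Finset.mem_insert, Finset.mem_singleton, not_or] at hk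
  unfold vrow
  rw [if_neg hk.1, if_neg hk.2]

lemma GG_cases {κ : Type} [Fintype κ] [DecidableEq κ] (b : κ → ℝ) (i : κ) (hi : b i = 1) :
    GG.G κ b = F b ∨
      GG.G κ b ≤ min (∑ j ∈ Finset.univ.erase i, gtr (3 / 20) (9 / 20) (b j) - 6 / 125) (1 / 2) := by
  rcases le_or_gt (GG.G κ b) (F b) with h | h
  · exact Or.inl (le_antisymm h (F_le_GG b))
  · refine Or.inr ?_
    rcases le_total (min (∑ j ∈ Finset.univ.erase i, gtr (3 / 20) (9 / 20) (b j) - 6 / 125) (1 / 2))
      (F b) with h2 | h2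
    · have := GG_le b i hi (F b) le_rfl h2
      exact absurd h (not_lt.mpr this)
    · exact GG_le b i hi _ h2 le_rfl

/-- the weight of the merging inequality in a class and the lower bound of the merged row -/
noncomputable def kc (c : Cl) : ℝ := if c.ty = 1 then 6 / 125 else -(1 / 2)

theorem core (hce : CEG GG A) (x : Box) (i j : Fin n) (hij : i ≠ j) (hD : 0 < D What A i)
    (hb : 3 / 10 ≤ row A i j) (u : Fin n → ℝ)
    (hu : 2 * Real.log (1 + row A i j) + GG.G (Fin n) (vrow i j u)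
        < GG.G (Fin n) (row A i) + GG.G (Fin n) (row A j)
          + ∑ k ∈ {i, j}ᶜ, (omg (row A i k) + omg (row A j k)
            - omg (Min.min (u k) (Max.max (row A i k) (row A j k)))))
    (S σ tl : ℝ) (a2 : Cl → ℝ) (M : Multiset ℝ) (hSi : tot A i = row A i j + (S + σ))
    (hSj : tot A j = row A i j + tl + M.sum) (hS0 : 0 ≤ S + σ)
    (hz : IneqI x 0 0 0 ((x.rz : ℝ) / 100000) (D What A i) (F (row A i)) (row A i j) S σ)
    (hI : ∀ c ∈ x.cls, IneqI x ((c.w : ℝ) / 1000) ((c.a : ℝ) / 1000) (a2 c) ((c.rt : ℝ) / 100000)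
      (D What A i) (F (row A i)) (row A i j) S σ)
    (hcost : ∀ c ∈ x.cls, ∑ k ∈ ({i, j} : Finset (Fin n))ᶜ, cost c (row A i k) (row A j k) (u k)
      ≤ (c.a : ℝ) / 1000 * S + a2 c * (σ - (x.slo : ℝ) / 40) + (M.map (phR x c)).sum
        + (if x.q = [] then 0 else psR x c tl))
    (h3 : GG.G (Fin n) (row A j) - What (row A i j + tl + M.sum) + (x.rz : ℝ) / 100000 ≤ 0 ∨
      ∀ τ : ℕ, τ = 1 ∨ τ = 2 → ∃ c ∈ x.cls, (c.ty = 0 ∧ c.w = 0 ∨ c.ty = τ) ∧
        ValC x c (GG.G (Fin n) (row A j)) (row A i j) tl M ≤ 0) : LLat What A i := by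
  have hG : GG.G (Fin n) (row A i) = F (row A i) := GG_eq_of_bad hce i hD
  set h := row A i j with hh
  have hpos : 0 < h := by linarith
  have hq : 0 < 3 * h ^ 2 := by positivity
  refine LLat_of_one hce.psd hce.diag i j hD hb (S + σ) (fun hj => ?_) hS0 ?_
  · have := rho_le_tot i j hij hj
    rw [← hh] at this
    linarith
  rw [← hh]
  set N := need What A i j (S + σ) with hN
  have hNe : N = D What A i * (4 * h - h ^ 2) + 4 * (S + σ) * max (D What A i) (1 / 1000) := by
    rw [hN]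
    rfl
  have hDj : D What A j = GG.G (Fin n) (row A j) - What (h + tl + M.sum) := by
    unfold D
    rw [hSj]
  suffices hQ : N / (3 * h ^ 2) ≤ - D What A j by
    rw [div_le_iff₀ hq] at hQ
    linarith
  unfold IneqI at hz hI
  rw [← hNe] at hz hI
  rcases h3 with h3 | h3
  · rw [hDj]
    linarith
  -- the merged row
  have hv := GG_ge (vrow i j u) i (by unfold vrow; rw [if_pos rfl])
  rw [sum_vrow i j hij u] at hv
  set T : ℝ := ∑ k ∈ ({i, j} : Finset (Fin n))ᶜ, gtr (3 / 20) (9 / 20) (u k) with hT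
  set O : ℝ := ∑ k ∈ ({i, j} : Finset (Fin n))ᶜ, (omg (row A i k) + omg (row A j k)
    - omg (Min.min (u k) (Max.max (row A i k) (row A j k)))) with hO
  have key : ∃ c ∈ x.cls, ValC x c (GG.G (Fin n) (row A j)) h tl M ≤ 0 ∧
      (c.w : ℝ) / 1000 * ((if c.ty = 1 then T else 0) - kc c)
        ≤ (c.w : ℝ) / 1000 * GG.G (Fin n) (vrow i j u) := by
    rcases le_or_gt (T - 6 / 125) (1 / 2) with hA | hA
    · obtain ⟨c, hc, hty, hval⟩ := h3 1 (Or.inl rfl)
      refine ⟨c, hc, hval, ?_⟩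
      rcases hty with ⟨_, hw⟩ | hty
      · rw [hw]
        simp
      · refine mul_le_mul_of_nonneg_left ?_ (by positivity)
        unfold kc
        rw [if_pos hty, if_pos hty]
        rw [min_eq_left hA] at hv
        exact hv
    · obtain ⟨c, hc, hty, hval⟩ := h3 2 (Or.inr rfl)
      refine ⟨c, hc, hval, ?_⟩
      rcases hty with ⟨_, hw⟩ | hty
      · rw [hw]
        simp
      · refine mul_le_mul_of_nonneg_left ?_ (by positivity)
        unfold kc
        rw [if_neg (by omega), if_neg (by omega)]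
        rw [min_eq_right hA.le] at hv
        linarith
  obtain ⟨c, hc, hval, hvc⟩ := key
  have hIc := hI c hc
  have hcc := hcost c hc
  set w : ℝ := (c.w : ℝ) / 1000 with hw
  have hw0 : 0 ≤ w := by rw [hw]; positivity
  have hsum : ∑ k ∈ ({i, j} : Finset (Fin n))ᶜ, cost c (row A i k) (row A j k) (u k)
      = w * O - w * (if c.ty = 1 then T else 0) := by
    unfold cost
    rw [← Finset.mul_sum, Finset.sum_sub_distrib, mul_sub]
    congr 2
    split_ifs with h5
    · rfl
    · simp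
  have hm := mul_le_mul_of_nonneg_left hu.le hw0
  rw [hG] at hm
  unfold ValC at hval
  rw [← hw] at hval
  change _ + w * (kc c - 2 * Real.log (1 + h)) ≤ 0 at hval
  rw [hsum] at hcc
  rw [hDj]
  nlinarith


lemma compl_insert {κ : Type} [Fintype κ] [DecidableEq κ] (i j l : κ) (hil : i ≠ l) (hjl : j ≠ l) :
    ({i, j} : Finset κ)ᶜ = insert l (({i, j, l} : Finset κ)ᶜ) := by
  ext k
  simp only [Finset.mem_insert, Finset.mem_compl, Finset.mem_singleton, not_or]
  constructor
  · rintro ⟨h1, h2⟩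
    by_cases h3 : k = l
    · exact Or.inl h3
    · exact Or.inr ⟨h1, h2, h3⟩
  · rintro (rfl | ⟨h1, h2, _⟩)
    · exact ⟨hil.symm, hjl.symm⟩
    · exact ⟨h1, h2⟩

lemma notMem_compl3 {κ : Type} [Fintype κ] [DecidableEq κ] (i j l : κ) :
    l ∉ ({i, j, l} : Finset κ)ᶜ := by simp

lemma erase_eq {κ : Type} [Fintype κ] [DecidableEq κ] (i j : κ) (hij : i ≠ j) :
    univ.erase i = insert j (({i, j} : Finset κ)ᶜ) := by
  ext k
  simp only [Finset.mem_erase, Finset.mem_univ, and_true, Finset.mem_insert, Finset.mem_compl,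
    Finset.mem_singleton, not_or]
  constructor
  · intro h
    by_cases h2 : k = j
    · exact Or.inl h2
    · exact Or.inr ⟨h, h2⟩
  · rintro (rfl | ⟨h, _⟩)
    · exact hij.symm
    · exact h

lemma univ_eq {κ : Type} [Fintype κ] [DecidableEq κ] (j : κ) :
    (univ : Finset κ) = insert j (univ.erase j) := (Finset.insert_erase (Finset.mem_univ j)).symm

lemma sum_erase_eq {κ : Type} [Fintype κ] [DecidableEq κ] (i j : κ) (hij : i ≠ j) (f : κ → ℝ) :
    ∑ k ∈ univ.erase i, f k = f j + ∑ k ∈ ({i, j} : Finset κ)ᶜ, f k := by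
  rw [erase_eq i j hij, Finset.sum_insert (by simp)]

lemma sum_compl2 {κ : Type} [Fintype κ] [DecidableEq κ] (i j l : κ) (hil : i ≠ l) (hjl : j ≠ l)
    (f : κ → ℝ) : ∑ k ∈ ({i, j} : Finset κ)ᶜ, f k = f l + ∑ k ∈ ({i, j, l} : Finset κ)ᶜ, f k := by
  rw [compl_insert i j l hil hjl, Finset.sum_insert (notMem_compl3 i j l)]

/-- the row `j` as a multiset -/
lemma map_univ {κ : Type} [Fintype κ] [DecidableEq κ] (i j : κ) (hij : i ≠ j) (b : κ → ℝ) :
    (univ : Finset κ).val.map b = b j ::ₘ b i ::ₘ (({i, j} : Finset κ)ᶜ).val.map b := by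
  rw [univ_eq j, Finset.insert_val_of_notMem (by simp), Multiset.map_cons, erase_eq j i hij.symm,
    Finset.insert_val_of_notMem (by simp), Multiset.map_cons, Finset.pair_comm]

lemma map_compl2 {κ : Type} [Fintype κ] [DecidableEq κ] (i j l : κ) (hil : i ≠ l) (hjl : j ≠ l)
    (b : κ → ℝ) : (({i, j} : Finset κ)ᶜ).val.map b = b l ::ₘ (({i, j, l} : Finset κ)ᶜ).val.map b := by
  rw [compl_insert i j l hil hjl, Finset.insert_val_of_notMem (notMem_compl3 i j l), Multiset.map_cons]

/-- ONE BOX, WITHOUT SPECIAL VERTEX. -/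
theorem LLat_of_box0 (hce : CEG GG A) (x : Box) (hq : x.q = []) (hI : PropI x) (hII : PropII x)
    (hC : PropCap x) (hIII : PropIII x) (i j : Fin n) (hij : i ≠ j) (hD : 0 < D What A i)
    (hb : 3 / 10 ≤ row A i j) (h0 : (x.H0 : ℝ) / 200 < row A i j)
    (h1 : row A i j ≤ (x.H1 : ℝ) / 200)
    (hr : ∀ k, k ≠ i → k ≠ j → row A i k ≤ (x.mx : ℝ) / 40) : LLat What A i := by
  have hG := GG_eq_of_bad hce i hD
  have hnn := fun a k => row_nonneg A a k
  have hle := fun a k => row_le_one A hce.psd hce.diag a k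
  have hsym : row A j i = row A i j := row_symm A hce.psd j i
  obtain ⟨S, hS⟩ : ∃ S : ℝ, S = ∑ c ∈ ({i, j} : Finset (Fin n))ᶜ, row A i c := ⟨_, rfl⟩
  have htot : tot A i = row A i j + S := by
    unfold tot
    rw [sum_erase_eq i j hij, hS]
  obtain ⟨hSo, hz, hc⟩ := hI.1 hq (Fin n) (row A i) (hnn i) (hle i) i j hij (row_diag A hce.diag i)
    h0 h1 hr S (D What A i) hS (by unfold D; rw [hG, htot]) hD
  obtain ⟨u, hu1, hu2⟩ := hce.pairQ i j hij
  obtain ⟨M, hM⟩ : ∃ M : Multiset ℝ, M = (({i, j} : Finset (Fin n))ᶜ).val.map (row A j) := ⟨_, rfl⟩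
  have hMs : M.sum = ∑ c ∈ ({i, j} : Finset (Fin n))ᶜ, row A j c := by rw [hM]; rfl
  have htj : tot A j = row A i j + 0 + M.sum := by
    unfold tot
    rw [sum_erase_eq j i hij.symm, hMs, hsym, Finset.pair_comm j i]
    ring
  have hS0 : 0 ≤ S := by
    rw [hS]
    exact Finset.sum_nonneg fun c _ => hnn i c
  have hs : ∀ k ∈ ({i, j} : Finset (Fin n))ᶜ, row A i k ≤ (x.so : ℝ) / 200 := by
    intro k hk
    have hk' : k ≠ i ∧ k ≠ j := by simpa [not_or] using hk
    exact hSo k hk'.1 hk'.2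
  have ht : ∀ k ∈ ({i, j} : Finset (Fin n))ᶜ, row A j k ≤ ((x.k.getLastD 0 : ℕ) : ℝ) / 1000 := by
    intro k hk
    have hk' : k ≠ i ∧ k ≠ j := by simpa [not_or] using hk
    obtain ⟨_, _, c, hg⟩ := hu1 k hk'.1 hk'.2
    exact (hC _ _ _ _ _ h0.le h1 hg).1 (hs k hk)
  have key := core hce x i j hij hD hb u hu2 S 0 0 (fun _ => 0) M (by rw [htot]; ring) htj
    (by linarith) hz hc
  refine key ?_ ?_
  · intro c hcm
    rw [if_pos hq, zero_mul, add_zero, add_zero]
    have h2 : ∑ k ∈ ({i, j} : Finset (Fin n))ᶜ, cost c (row A i k) (row A j k) (u k)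
        ≤ ∑ k ∈ ({i, j} : Finset (Fin n))ᶜ, ((c.a : ℝ) / 1000 * row A i k + phR x c (row A j k)) := by
      refine Finset.sum_le_sum fun k hk => ?_
      have hk' : k ≠ i ∧ k ≠ j := by simpa [not_or] using hk
      obtain ⟨_, _, e, hg⟩ := hu1 k hk'.1 hk'.2
      have := (hII c hcm _ _ _ _ _ h0.le h1 hg).1 (hs k hk) (ht k hk)
      linarith
    rw [Finset.sum_add_distrib, ← Finset.mul_sum, ← hS] at h2
    refine h2.trans (le_of_eq ?_)
    congr 1
    rw [hM, Multiset.map_map]
    rfl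
  · refine hIII (row A i j) 0 (GG.G (Fin n) (row A j)) M h0.le h1 ?_ le_rfl ?_ ?_
    · intro t htM
      rw [hM] at htM
      obtain ⟨k, hk, rfl⟩ := Multiset.mem_map.mp htM
      exact ⟨hnn j k, ht k hk⟩
    · positivity
    · rcases GG_cases (row A j) j (row_diag A hce.diag j) with h2 | h2
      · refine Or.inl ?_
        rw [h2, F_eq_FM, map_univ i j hij, row_diag A hce.diag j, hsym, ← hM,
          ← FM_zero_cons (1 ::ₘ row A i j ::ₘ M)]
        congr 1
        rw [Multiset.cons_swap 0 1, Multiset.cons_swap 0 (row A i j)]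
      · refine Or.inr (h2.trans (le_of_eq ?_))
        rw [sum_erase_eq j i hij.symm, hsym, gtr_zero _ _ (by norm_num), Finset.pair_comm j i, hM,
          Multiset.map_map]
        congr 2
        rw [add_zero]
        rfl

/-- ONE BOX, WITH SPECIAL VERTEX. -/
theorem LLat_of_box1 (hce : CEG GG A) (x : Box) (hq : x.q ≠ []) (hI : PropI x) (hII : PropII x)
    (hC : PropCap x) (hIII : PropIII x) (i j l : Fin n) (hij : i ≠ j) (hil : i ≠ l) (hjl : j ≠ l)
    (hD : 0 < D What A i) (hb : 3 / 10 ≤ row A i j) (h0 : (x.H0 : ℝ) / 200 < row A i j)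
    (h1 : row A i j ≤ (x.H1 : ℝ) / 200) (hl0 : (x.slo : ℝ) / 40 ≤ row A i l)
    (hl1 : row A i l ≤ (x.shi : ℝ) / 40)
    (hr : ∀ k, k ≠ i → k ≠ j → k ≠ l → row A i k ≤ row A i l) : LLat What A i := by
  have hG := GG_eq_of_bad hce i hD
  have hnn := fun a k => row_nonneg A a k
  have hle := fun a k => row_le_one A hce.psd hce.diag a k
  have hsym : row A j i = row A i j := row_symm A hce.psd j i
  obtain ⟨S, hS⟩ : ∃ S : ℝ, S = ∑ c ∈ ({i, j, l} : Finset (Fin n))ᶜ, row A i c := ⟨_, rfl⟩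
  have htot : tot A i = row A i j + row A i l + S := by
    unfold tot
    rw [sum_erase_eq i j hij, sum_compl2 i j l hil hjl, hS]
    ring
  obtain ⟨hSo, hz, hc⟩ := hI.2 hq (Fin n) (row A i) (hnn i) (hle i) i j l hij hil hjl
    (row_diag A hce.diag i) h0 h1 hl0 hl1 hr S (D What A i) hS
    (by unfold D; rw [hG, htot]) hD
  obtain ⟨u, hu1, hu2⟩ := hce.pairQ i j hij
  obtain ⟨M, hM⟩ : ∃ M : Multiset ℝ, M = (({i, j, l} : Finset (Fin n))ᶜ).val.map (row A j) := ⟨_, rfl⟩
  have hMs : M.sum = ∑ c ∈ ({i, j, l} : Finset (Fin n))ᶜ, row A j c := by rw [hM]; rfl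
  have htj : tot A j = row A i j + row A j l + M.sum := by
    unfold tot
    rw [sum_erase_eq j i hij.symm, hMs, hsym, Finset.pair_comm j i, sum_compl2 i j l hil hjl]
    ring
  have hS0 : 0 ≤ S := by
    rw [hS]
    exact Finset.sum_nonneg fun c _ => hnn i c
  have hmem : ∀ k ∈ ({i, j, l} : Finset (Fin n))ᶜ, k ≠ i ∧ k ≠ j ∧ k ≠ l := by
    intro k hk
    simpa [not_or] using hk
  have hs : ∀ k ∈ ({i, j, l} : Finset (Fin n))ᶜ, row A i k ≤ (x.so : ℝ) / 200 := by
    intro k hk
    have hk' := hmem k hk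
    exact hSo k hk'.1 hk'.2.1 hk'.2.2
  have ht : ∀ k ∈ ({i, j, l} : Finset (Fin n))ᶜ, row A j k ≤ ((x.k.getLastD 0 : ℕ) : ℝ) / 1000 := by
    intro k hk
    have hk' := hmem k hk
    obtain ⟨_, _, c, hg⟩ := hu1 k hk'.1 hk'.2.1
    exact (hC _ _ _ _ _ h0.le h1 hg).1 (hs k hk)
  obtain ⟨_, _, el, hgl⟩ := hu1 l hil.symm hjl.symm
  have htl : row A j l ≤ ((x.q.getLastD 0 : ℕ) : ℝ) / 1000 :=
    (hC _ _ _ _ _ h0.le h1 hgl).2 hq hl0 hl1
  have key := core hce x i j hij hD hb u hu2 S (row A i l) (row A j l)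
    (fun c => (c.a2 : ℝ) / 1000) M (by rw [htot]; ring) htj
    (by have := hnn i l; linarith) hz hc
  refine key ?_ ?_
  · intro c hcm
    rw [if_neg hq, sum_compl2 i j l hil hjl]
    have h2 : ∑ k ∈ ({i, j, l} : Finset (Fin n))ᶜ, cost c (row A i k) (row A j k) (u k)
        ≤ ∑ k ∈ ({i, j, l} : Finset (Fin n))ᶜ,
          ((c.a : ℝ) / 1000 * row A i k + phR x c (row A j k)) := by
      refine Finset.sum_le_sum fun k hk => ?_
      have hk' := hmem k hk
      obtain ⟨_, _, e, hg⟩ := hu1 k hk'.1 hk'.2.1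
      have := (hII c hcm _ _ _ _ _ h0.le h1 hg).1 (hs k hk) (ht k hk)
      linarith
    rw [Finset.sum_add_distrib, ← Finset.mul_sum, ← hS] at h2
    have h3 := (hII c hcm _ _ _ _ _ h0.le h1 hgl).2 hq hl0 hl1 htl
    have h4 : (M.map (phR x c)).sum
        = ∑ k ∈ ({i, j, l} : Finset (Fin n))ᶜ, phR x c (row A j k) := by
      rw [hM, Multiset.map_map]
      rfl
    rw [h4]
    linarith
  · refine hIII (row A i j) (row A j l) (GG.G (Fin n) (row A j)) M h0.le h1 ?_ (hnn j l) htl ?_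
    · intro t htM
      rw [hM] at htM
      obtain ⟨k, hk, rfl⟩ := Multiset.mem_map.mp htM
      exact ⟨hnn j k, ht k hk⟩
    · rcases GG_cases (row A j) j (row_diag A hce.diag j) with h2 | h2
      · refine Or.inl ?_
        rw [h2, F_eq_FM, map_univ i j hij, row_diag A hce.diag j, hsym,
          map_compl2 i j l hil hjl, ← hM]
      · refine Or.inr (h2.trans (le_of_eq ?_))
        rw [sum_erase_eq j i hij.symm, hsym, Finset.pair_comm j i, sum_compl2 i j l hil hjl, hM,
          Multiset.map_map]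
        congr 2
        rw [add_assoc]
        rfl

end

end LL
end Fr

namespace CA

open Ent Fr

/-! ### the boxes cover the case A -/

/-- consecutive boxes from `a` to `b` -/
def chain : ℕ → ℕ → List Box → Bool
  | a, b, [] => Nat.ble b a
  | a, b, x :: xs => Nat.beq x.H0 a && chain x.H1 b xs

theorem chain_get (b : ℕ) (L : List Box) : ∀ a : ℕ, chain a b L = true →
    ∀ h : ℝ, (a : ℝ) / 200 < h → h ≤ (b : ℝ) / 200 →
    ∃ x ∈ L, (x.H0 : ℝ) / 200 < h ∧ h ≤ (x.H1 : ℝ) / 200 := by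
  induction L with
  | nil =>
    intro a hc h h0 h1
    unfold chain at hc
    rw [Nat.ble_eq] at hc
    have : (b : ℝ) ≤ a := by exact_mod_cast hc
    linarith
  | cons x xs ih =>
    intro a hc h h0 h1
    unfold chain at hc
    rw [Bool.and_eq_true, Nat.beq_eq] at hc
    obtain ⟨e, hc⟩ := hc
    rcases le_or_gt h ((x.H1 : ℝ) / 200) with h2 | h2
    · exact ⟨x, by simp, by rw [e]; exact h0, h2⟩
    · obtain ⟨y, hy, h3⟩ := ih x.H1 hc h h2 h1
      exact ⟨y, by simp [hy], h3⟩

theorem chainA : chain 63 168 boxA = true := by decide +kernel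
theorem chainP : chain 106 168 boxP = true := by decide +kernel
theorem chainQ : chain 108 168 boxQ = true := by decide +kernel
theorem chainT : chain 168 200 boxT = true := by decide +kernel

theorem parA : (boxA.all fun x => x.q.isEmpty && Nat.beq x.mx 8) = true := by decide +kernel
theorem parT : (boxT.all fun x => x.q.isEmpty && Nat.beq x.mx 12) = true := by decide +kernel
theorem parP : (boxP.all fun x => !x.q.isEmpty && (Nat.beq x.slo 8 && Nat.beq x.shi 10)) = true := by
  decide +kernel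
theorem parQ : (boxQ.all fun x => !x.q.isEmpty && (Nat.beq x.slo 10 && Nat.beq x.shi 12)) = true := by
  decide +kernel

/-- rows without special vertex and with largest entry at most `hi` are not bad -/
def Empty0 (hi mx : ℝ) : Prop :=
  ∀ (κ : Type) [Fintype κ] [DecidableEq κ] (b : κ → ℝ), (∀ c, 0 ≤ b c) → (∀ c, b c ≤ 1) →
    ∀ i j : κ, i ≠ j → b i = 1 → 3 / 10 < b j → b j ≤ hi → (∀ c, c ≠ i → c ≠ j → b c ≤ mx) →
    F b ≤ What (b j + ∑ c ∈ ({i, j} : Finset κ)ᶜ, b c)

/-- rows with second entry in `[lo, mx]` and with largest entry at most `hi` are not bad -/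
def Empty1 (hi lo mx : ℝ) : Prop :=
  ∀ (κ : Type) [Fintype κ] [DecidableEq κ] (b : κ → ℝ), (∀ c, 0 ≤ b c) → (∀ c, b c ≤ 1) →
    ∀ i j l : κ, i ≠ j → i ≠ l → j ≠ l → b i = 1 → 3 / 10 < b j → b j ≤ hi → lo ≤ b l → b l ≤ mx →
    (∀ c, c ≠ i → c ≠ j → c ≠ l → b c ≤ b l) →
    F b ≤ What (b j + b l + ∑ c ∈ ({i, j, l} : Finset κ)ᶜ, b c)

end CA

namespace Fr
namespace LL

open Ent CA CEG

/-- THE GLUE OF CASE A. -/
theorem specA_of (hI : ∀ x ∈ boxA ++ boxP ++ boxQ ++ boxT, PropI x)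
    (hII : ∀ x ∈ boxA ++ boxP ++ boxQ ++ boxT, PropII x)
    (hIII : ∀ x ∈ boxA ++ boxP ++ boxQ ++ boxT, PropIII x)
    (hEA : Empty0 (63 / 200) (1 / 5)) (hEP : Empty1 (106 / 200) (1 / 5) (1 / 4))
    (hEQ : Empty1 (108 / 200) (1 / 4) (3 / 10)) : SpecA What := by
  intro n A hce i j hij hD hb hr
  have hnn := fun k => row_nonneg A i k
  have hle := fun k => row_le_one A hce.psd hce.diag i k
  have hd := row_diag A hce.diag i
  have hb' : 3 / 10 < row A i j := by
    by_contra hcon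
    push Not at hcon
    refine absurd hD (not_lt.mpr (specLight n A hce i fun k hk => ?_))
    by_cases hkj : k = j
    · rw [hkj]; exact hcon
    · exact hr k hk hkj
  rcases lt_or_ge (21 / 25) (row A i j) with ht | ht
  · -- the set `T`
    obtain ⟨x, hx, h0, h1⟩ := chain_get 200 boxT 168 chainT (row A i j) (by push_cast; linarith)
      (by push_cast; linarith [hle j])
    have hp := List.all_eq_true.mp parT x hx
    rw [Bool.and_eq_true, List.isEmpty_iff, Nat.beq_eq] at hp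
    have hx' : x ∈ boxA ++ boxP ++ boxQ ++ boxT := by simp [hx]
    refine LLat_of_box0 hce x hp.1 (hI x hx') (hII x hx') (propCap_all x hx') (hIII x hx') i j hij
      hD hb h0 h1 ?_
    intro k h2 h3
    rw [hp.2]
    push_cast
    linarith [hr k h2 h3]
  by_cases hs : ∀ k, k ≠ i → k ≠ j → row A i k ≤ 1 / 5
  · -- the set `A`
    rcases le_or_gt (row A i j) (63 / 200) with he | he
    · exfalso
      have := hEA (Fin n) (row A i) hnn hle i j hij hd hb' he hs
      rw [← sum_erase_eq i j hij] at this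
      exact absurd hD (not_lt.mpr (D_nonpos hce i this))
    · obtain ⟨x, hx, h0, h1⟩ := chain_get 168 boxA 63 chainA (row A i j) (by push_cast; linarith)
        (by push_cast; linarith)
      have hp := List.all_eq_true.mp parA x hx
      rw [Bool.and_eq_true, List.isEmpty_iff, Nat.beq_eq] at hp
      have hx' : x ∈ boxA ++ boxP ++ boxQ ++ boxT := by simp [hx]
      refine LLat_of_box0 hce x hp.1 (hI x hx') (hII x hx') (propCap_all x hx') (hIII x hx') i j
        hij hD hb h0 h1 ?_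
      intro k h2 h3
      rw [hp.2]
      push_cast
      linarith [hs k h2 h3]
  push Not at hs
  obtain ⟨l0, hl0i, hl0j, hl0⟩ := hs
  obtain ⟨l, hl, hm⟩ := Finset.exists_max_image (({i, j} : Finset (Fin n))ᶜ) (fun k => row A i k)
    ⟨l0, by simp [hl0i, hl0j]⟩
  have hl' : l ≠ i ∧ l ≠ j := by simpa [not_or] using hl
  have hl5 : 1 / 5 < row A i l := lt_of_lt_of_le hl0 (hm l0 (by simp [hl0i, hl0j]))
  have hm' : ∀ k, k ≠ i → k ≠ j → k ≠ l → row A i k ≤ row A i l := fun k h2 h3 _ =>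
    hm k (by simp [h2, h3])
  have hl10 : row A i l ≤ 3 / 10 := hr l hl'.1 hl'.2
  have hsum : tot A i = row A i j + row A i l + ∑ c ∈ ({i, j, l} : Finset (Fin n))ᶜ, row A i c := by
    unfold tot
    rw [sum_erase_eq i j hij, sum_compl2 i j l hl'.1.symm hl'.2.symm]
    ring
  rcases le_or_gt (row A i l) (1 / 4) with hq | hq
  · -- the set `P`
    rcases le_or_gt (row A i j) (106 / 200) with he | he
    · exfalso
      have := hEP (Fin n) (row A i) hnn hle i j l hij hl'.1.symm hl'.2.symm hd hb' he hl5.le hq hm'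
      rw [← hsum] at this
      exact absurd hD (not_lt.mpr (D_nonpos hce i this))
    · obtain ⟨x, hx, h0, h1⟩ := chain_get 168 boxP 106 chainP (row A i j) (by push_cast; linarith)
        (by push_cast; linarith)
      have hp := List.all_eq_true.mp parP x hx
      rw [Bool.and_eq_true, Bool.and_eq_true, Nat.beq_eq, Nat.beq_eq] at hp
      have hqn : x.q ≠ [] := by
        intro h
        rw [h] at hp
        exact absurd hp.1 (by simp)
      have hx' : x ∈ boxA ++ boxP ++ boxQ ++ boxT := by simp [hx]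
      refine LLat_of_box1 hce x hqn (hI x hx') (hII x hx') (propCap_all x hx') (hIII x hx') i j l
        hij hl'.1.symm hl'.2.symm hD hb h0 h1 ?_ ?_ hm'
      · rw [hp.2.1]; push_cast; linarith
      · rw [hp.2.2]; push_cast; linarith
  · -- the set `Q`
    rcases le_or_gt (row A i j) (108 / 200) with he | he
    · exfalso
      have := hEQ (Fin n) (row A i) hnn hle i j l hij hl'.1.symm hl'.2.symm hd hb' he hq.le hl10 hm'
      rw [← hsum] at this
      exact absurd hD (not_lt.mpr (D_nonpos hce i this))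
    · obtain ⟨x, hx, h0, h1⟩ := chain_get 168 boxQ 108 chainQ (row A i j) (by push_cast; linarith)
        (by push_cast; linarith)
      have hp := List.all_eq_true.mp parQ x hx
      rw [Bool.and_eq_true, Bool.and_eq_true, Nat.beq_eq, Nat.beq_eq] at hp
      have hqn : x.q ≠ [] := by
        intro h
        rw [h] at hp
        exact absurd hp.1 (by simp)
      have hx' : x ∈ boxA ++ boxP ++ boxQ ++ boxT := by simp [hx]
      refine LLat_of_box1 hce x hqn (hI x hx') (hII x hx') (propCap_all x hx') (hIII x hx') i j l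
        hij hl'.1.symm hl'.2.symm hD hb h0 h1 ?_ ?_ hm'
      · rw [hp.2.1]; push_cast; linarith
      · rw [hp.2.2]; push_cast; linarith

end LL
end Fr
end Pool.Agent.Lib.MP_6947cd_al
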