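import Pool.Agent.Lib.MP_6947cd_al.L.Assembly

/-!
Problem MP_6947cd_al (Chollet).  The cases B and C are split by the size of the second and third entry
of the row `i`.
-/

set_option autoImplicit false
open scoped Matrix ComplexOrder
open Matrix Finset

namespace Pool.Agent.Lib.MP_6947cd_al
namespace Fr
namespace LL

open Ent

variable (W : ℝ → ℝ)

/-- Case B, second entry in `[a, b]`. -/
def SpecBI (a b : ℝ) : Prop := ∀ (n : ℕ) (A : Matrix (Fin n) (Fin n) ℂ), CEG GG A →
  ∀ i j k, i ≠ j → i ≠ k → j ≠ k → 0 < D W A i → row A i k ≤ row A i j → a ≤ row A i k →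
    row A i k ≤ b → (∀ l, l ≠ i → l ≠ j → l ≠ k → row A i l ≤ 3 / 10) → LLat W A i

/-- Case C, second entry `≥ 7/10`, or second entry `≥ 3/5` and third entry `≥ 1/2`. -/
def SpecChi : Prop := ∀ (n : ℕ) (A : Matrix (Fin n) (Fin n) ℂ), CEG GG A →
  ∀ i j k l, i ≠ j → i ≠ k → i ≠ l → j ≠ k → j ≠ l → k ≠ l → 0 < D W A i →
    row A i k ≤ row A i j → row A i l ≤ row A i k → 3 / 10 ≤ row A i l →
    (∀ m, m ≠ i → m ≠ j → m ≠ k → m ≠ l → row A i m ≤ row A i l) →
    (7 / 10 ≤ row A i k ∨ (3 / 5 ≤ row A i k ∧ 1 / 2 ≤ row A i l)) → LLat W A i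

/-- Case C, second entry `≤ 3/5`, or second entry `≤ 7/10` and third entry `≤ 1/2`. -/
def SpecClo : Prop := ∀ (n : ℕ) (A : Matrix (Fin n) (Fin n) ℂ), CEG GG A →
  ∀ i j k l, i ≠ j → i ≠ k → i ≠ l → j ≠ k → j ≠ l → k ≠ l → 0 < D W A i →
    row A i k ≤ row A i j → row A i l ≤ row A i k → 3 / 10 ≤ row A i l →
    (∀ m, m ≠ i → m ≠ j → m ≠ k → m ≠ l → row A i m ≤ row A i l) →
    (row A i k ≤ 3 / 5 ∨ (row A i k ≤ 7 / 10 ∧ row A i l ≤ 1 / 2)) → LLat W A i

/-- gluing two adjacent ranges of the second entry -/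
theorem specBI_glue {a b c : ℝ} (h1 : SpecBI W a b) (h2 : SpecBI W b c) : SpecBI W a c := by
  intro n A hce i j k hij hik hjk hD hkj ha hc hrest
  rcases le_total (row A i k) b with h | h
  · exact h1 n A hce i j k hij hik hjk hD hkj ha h hrest
  · exact h2 n A hce i j k hij hik hjk hD hkj h hc hrest

theorem specB_of_BI (h : SpecBI W (3 / 10) 1) : SpecB W := by
  intro n A hce i j k hij hik hjk hD hkj hk hrest
  exact h n A hce i j k hij hik hjk hD hkj hk (row_le_one A hce.psd hce.diag i k) hrest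

theorem specC_of_split (h1 : SpecChi W) (h2 : SpecClo W) : SpecC W := by
  intro n A hce i j k l hij hik hil hjk hjl hkl hD hkj hlk hl hrest
  rcases le_total (7 / 10) (row A i k) with h | h
  · exact h1 n A hce i j k l hij hik hil hjk hjl hkl hD hkj hlk hl hrest (Or.inl h)
  · rcases le_total (row A i k) (3 / 5) with h' | h'
    · exact h2 n A hce i j k l hij hik hil hjk hjl hkl hD hkj hlk hl hrest (Or.inl h')
    · rcases le_total (1 / 2) (row A i l) with h'' | h''
      · exact h1 n A hce i j k l hij hik hil hjk hjl hkl hD hkj hlk hl hrest (Or.inr ⟨h', h''⟩)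
      · exact h2 n A hce i j k l hij hik hil hjk hjl hkl hD hkj hlk hl hrest (Or.inr ⟨h, h''⟩)

/-- THE ASSEMBLY from all parts (`T` = border between the two parts of case B). -/
theorem chollet_of_parts (hW : SpecW W) (hCap : SpecCap) (hL : SpecLight W) (hA : SpecA W) (T : ℝ)
    (hB1 : SpecBI W T 1) (hB2 : SpecBI W (3 / 10) T) (hC1 : SpecChi W) (hC2 : SpecClo W) (n : ℕ)
    (A B : Matrix (Fin n) (Fin n) ℂ) (hA' : A.PosSemidef) (hB' : B.PosSemidef) :
    (A ⊙ B).permanent ≤ A.permanent * B.permanent :=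
  chollet_of_specs W hW hCap hL hA (specB_of_BI W (specBI_glue W hB2 hB1))
    (specC_of_split W hC1 hC2) n A B hA' hB'

end LL
end Fr
end Pool.Agent.Lib.MP_6947cd_al
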