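import Pool.Agent.Lib.MP_6947cd_al.L.BoxB
import Pool.Agent.Lib.MP_6947cd_al.L.GlueA
import Pool.Agent.Lib.MP_6947cd_al.L.Split

/-!
Problem MP_6947cd_al (Chollet).  CASE B with one payer, the glue: the properties of the boxes give
`SpecBI What (s0/40) (s1/40)`.
-/

set_option autoImplicit false
open scoped Matrix ComplexOrder
open Matrix Finset

namespace Pool.Agent.Lib.MP_6947cd_al
namespace Fr
namespace LL

open Ent CA CB CEG

section

variable {n : ℕ} {A : Matrix (Fin n) (Fin n) ℂ}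

theorem coreB (hce : CEG GG A) (x : Box) (i j : Fin n) (hij : i ≠ j) (hD : 0 < D What A i)
    (hb : 3 / 10 ≤ row A i j) (u : Fin n → ℝ)
    (hu : 2 * Real.log (1 + row A i j) + GG.G (Fin n) (vrow i j u)
        < GG.G (Fin n) (row A i) + GG.G (Fin n) (row A j)
          + ∑ k ∈ {i, j}ᶜ, (omg (row A i k) + omg (row A j k)
            - omg (Min.min (u k) (Max.max (row A i k) (row A j k)))))
    (S σ ψ V W : ℝ) (hSi : tot A i = row A i j + (S + σ)) (hS0 : 0 ≤ S + σ)
    (hW : W = What (tot A j)) (c : Cl) (hI : IneqI x ((c.w : ℝ) / 1000) ((c.a : ℝ) / 1000) ((c.a2 : ℝ) / 1000)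
      ((c.rt : ℝ) / 100000) (D What A i) (F (row A i)) (row A i j) S σ)
    (hcost : ∑ k ∈ ({i, j} : Finset (Fin n))ᶜ, cost c (row A i k) (row A j k) (u k)
      ≤ (c.a : ℝ) / 1000 * S + (c.a2 : ℝ) / 1000 * (σ - (x.slo : ℝ) / 40) + ψ) (κ : ℝ)
    (hκ : (c.w : ℝ) / 1000 * ((if c.ty = 1 then
        ∑ k ∈ ({i, j} : Finset (Fin n))ᶜ, gtr (3 / 20) (9 / 20) (u k) else 0) - κ)
        ≤ (c.w : ℝ) / 1000 * GG.G (Fin n) (vrow i j u))
    (hV : V = (1 + (c.w : ℝ) / 1000) * GG.G (Fin n) (row A j) - W + ψ + (c.rt : ℝ) / 100000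
      + (c.w : ℝ) / 1000 * (κ - 2 * Real.log (1 + row A i j)))
    (hV0 : V ≤ 0) : LLat What A i := by
  have hG : GG.G (Fin n) (row A i) = F (row A i) := GG_eq_of_bad hce i hD
  set h := row A i j with hh
  have hpos : 0 < h := by linarith
  have hq : 0 < 3 * h ^ 2 := by positivity
  refine LLat_of_one hce.psd hce.diag i j hD hb (S + σ) (fun hj => ?_) hS0 ?_
  · have := rho_le_tot i j hij hj
    rw [← hh] at this
    linarith
  rw [← hh]
  set N := need What A i j (S + σ) with hN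
  have hNe : N = D What A i * (4 * h - h ^ 2) + 4 * (S + σ) * max (D What A i) (1 / 1000) := by
    rw [hN]
    rfl
  have hDj : D What A j = GG.G (Fin n) (row A j) - W := by
    unfold D
    rw [hW]
  suffices hQ : N / (3 * h ^ 2) ≤ - D What A j by
    rw [div_le_iff₀ hq] at hQ
    linarith
  unfold IneqI at hI
  rw [← hNe] at hI
  set T : ℝ := ∑ k ∈ ({i, j} : Finset (Fin n))ᶜ, gtr (3 / 20) (9 / 20) (u k) with hT
  set O : ℝ := ∑ k ∈ ({i, j} : Finset (Fin n))ᶜ, (omg (row A i k) + omg (row A j k)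
    - omg (Min.min (u k) (Max.max (row A i k) (row A j k)))) with hO
  set w : ℝ := (c.w : ℝ) / 1000 with hw
  have hw0 : 0 ≤ w := by rw [hw]; positivity
  have hsum : ∑ k ∈ ({i, j} : Finset (Fin n))ᶜ, cost c (row A i k) (row A j k) (u k)
      = w * O - w * (if c.ty = 1 then T else 0) := by
    unfold cost
    rw [← Finset.mul_sum, Finset.sum_sub_distrib, mul_sub]
    congr 2
    split_ifs with h5
    · rfl
    · simp
  have hm := mul_le_mul_of_nonneg_left hu.le hw0
  rw [hG] at hm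
  rw [hsum] at hcost
  rw [hDj]
  rw [hV] at hV0
  nlinarith

/-- the functional of the merged row, bounded from below by the row function of the lower bounds -/
theorem FM_le_vrow (i j l : Fin n) (hij : i ≠ j) (hil : i ≠ l) (hjl : j ≠ l) (u : Fin n → ℝ)
    (hu1 : ∀ k, k ≠ i → k ≠ j → u k ≤ 1) (lo : Fin n → ℝ) (los : ℝ) (h0 : ∀ k, k ≠ i → k ≠ j → k ≠ l → 0 ≤ lo k)
    (hlo : ∀ k, k ≠ i → k ≠ j → k ≠ l → lo k ≤ u k) (hs0 : 0 ≤ los) (hs : los ≤ u l) :
    FM (1 ::ₘ los ::ₘ (({i, j, l} : Finset (Fin n))ᶜ).val.map lo) ≤ GG.G (Fin n) (vrow i j u) := by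
  set b : Fin n → ℝ := fun k => if k = i then 1 else if k = j then 0 else if k = l then los else lo k
    with hb
  have e : FM (1 ::ₘ los ::ₘ (({i, j, l} : Finset (Fin n))ᶜ).val.map lo) = F b := by
    rw [F_eq_FM, map_univ i j hij, map_compl2 i j l hil hjl]
    have b1 : b j = 0 := by simp [hb, hij.symm]
    have b2 : b i = 1 := by simp [hb]
    have b3 : b l = los := by simp [hb, hil.symm, hjl.symm]
    have b4 : (({i, j, l} : Finset (Fin n))ᶜ).val.map b = (({i, j, l} : Finset (Fin n))ᶜ).val.map lo := by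
      refine Multiset.map_congr rfl fun k hk => ?_
      have hk' : k ≠ i ∧ k ≠ j ∧ k ≠ l := by
        have : k ∈ ({i, j, l} : Finset (Fin n))ᶜ := hk
        simpa [not_or] using this
      simp [hb, hk'.1, hk'.2.1, hk'.2.2]
    rw [b1, b2, b3, b4, FM_zero_cons]
  rw [e]
  refine le_trans ?_ (F_le_GG (vrow i j u))
  have hcase : ∀ k, 0 ≤ b k ∧ b k ≤ vrow i j u k ∧ vrow i j u k ≤ 1 := by
    intro k
    by_cases h1 : k = i
    · subst h1
      simp [hb, vrow]
    by_cases h2 : k = j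
    · subst h2
      simp [hb, vrow, h1]
    by_cases h3 : k = l
    · subst h3
      have := hu1 k h1 h2
      simp [hb, vrow, h1, h2, hs0, hs, this]
    · have := hu1 k h1 h2
      have h4 := h0 k h1 h2 h3
      have h5 := hlo k h1 h2 h3
      simp [hb, vrow, h1, h2, h3, this, h4, h5]
  refine RF.base.mono (Fin n) b (vrow i j u) (fun k => (hcase k).1) (fun k => (hcase k).2.1)
    (fun k => (hcase k).2.2) ⟨i, ?_⟩
  simp [hb]

/-- ONE BOX, SECOND ENTRY ABOVE `3/10`. -/
theorem LLat_of_boxB (hce : CEG GG A) (y : BoxB) (hkn : knOK y = true) (hq : y.x.q ≠ [])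
    (hI : PropIB y.x) (hII : PropII y.x) (hC : PropCap y.x) (hU : PropU y) (hIII : PropIIIB y)
    (i j l : Fin n) (hij : i ≠ j) (hil : i ≠ l) (hjl : j ≠ l)
    (hD : 0 < D What A i) (hb : 3 / 10 ≤ row A i j) (h0 : (y.x.H0 : ℝ) / 200 < row A i j)
    (h1 : row A i j ≤ (y.x.H1 : ℝ) / 200) (hl0 : (y.x.slo : ℝ) / 40 ≤ row A i l)
    (hl1 : row A i l ≤ (y.x.shi : ℝ) / 40) (hlj : row A i l ≤ row A i j)
    (hr : ∀ k, k ≠ i → k ≠ j → k ≠ l → row A i k ≤ (y.x.mx : ℝ) / 40) : LLat What A i := by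
  have hG := GG_eq_of_bad hce i hD
  have hnn := fun a k => row_nonneg A a k
  have hle := fun a k => row_le_one A hce.psd hce.diag a k
  have hsym : row A j i = row A i j := row_symm A hce.psd j i
  obtain ⟨x, hx⟩ : ∃ x : Box, x = y.x := ⟨_, rfl⟩
  obtain ⟨S, hS⟩ : ∃ S : ℝ, S = ∑ c ∈ ({i, j, l} : Finset (Fin n))ᶜ, row A i c := ⟨_, rfl⟩
  have htot : tot A i = row A i j + row A i l + S := by
    unfold tot
    rw [sum_erase_eq i j hij, sum_compl2 i j l hil hjl, hS]
    ring
  obtain ⟨hSo, hz, hc⟩ := hI (Fin n) (row A i) (hnn i) (hle i) i j l hij hil hjl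
    (row_diag A hce.diag i) h0 h1 hl0 hl1 hlj hr S (D What A i) hS
    (by unfold D; rw [hG, htot]) hD
  obtain ⟨u, hu1, hu2⟩ := hce.pairQ i j hij
  obtain ⟨M, hM⟩ : ∃ M : Multiset ℝ, M = (({i, j, l} : Finset (Fin n))ᶜ).val.map (row A j) := ⟨_, rfl⟩
  have hMs : M.sum = ∑ c ∈ ({i, j, l} : Finset (Fin n))ᶜ, row A j c := by rw [hM]; rfl
  have htj : tot A j = row A i j + row A j l + M.sum := by
    unfold tot
    rw [sum_erase_eq j i hij.symm, hMs, hsym, Finset.pair_comm j i, sum_compl2 i j l hil hjl]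
    ring
  have hS0 : 0 ≤ S := by
    rw [hS]
    exact Finset.sum_nonneg fun c _ => hnn i c
  have hmem : ∀ k ∈ ({i, j, l} : Finset (Fin n))ᶜ, k ≠ i ∧ k ≠ j ∧ k ≠ l := by
    intro k hk
    simpa [not_or] using hk
  have ht' : ∀ k, k ≠ i → k ≠ j → k ≠ l → row A j k ≤ ((y.x.k.getLastD 0 : ℕ) : ℝ) / 1000 := by
    intro k hk1 hk2 hk3
    obtain ⟨_, _, c, hg⟩ := hu1 k hk1 hk2
    exact (hC _ _ _ _ _ h0.le h1 hg).1 (hSo k hk1 hk2 hk3)
  obtain ⟨hul0, hul1, el, hgl⟩ := hu1 l hil.symm hjl.symm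
  have htl : row A j l ≤ ((y.x.q.getLastD 0 : ℕ) : ℝ) / 1000 :=
    (hC _ _ _ _ _ h0.le h1 hgl).2 hq hl0 hl1
  -- the merged row
  have hv := GG_ge (vrow i j u) i (by unfold vrow; rw [if_pos rfl])
  rw [sum_vrow i j hij u] at hv
  have hvU : FM (1 ::ₘ lowUs y (row A j l) ::ₘ M.map (lowU y)) ≤ GG.G (Fin n) (vrow i j u) := by
    have := FM_le_vrow i j l hij hil hjl u (fun k h1 h2 => (hu1 k h1 h2).2.1)
      (fun k => lowU y (row A j k)) (lowUs y (row A j l))
      (fun k _ _ _ => lowU_nonneg y hkn _ (hnn j k))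
      (fun k k1 k2 k3 => by
        obtain ⟨_, _, c, hg⟩ := hu1 k k1 k2
        exact (hU _ _ _ _ _ h0.le h1 hg).1 (hSo k k1 k2 k3) (ht' k k1 k2 k3))
      (lowUs_nonneg y hkn _ (hnn j l)) ((hU _ _ _ _ _ h0.le h1 hgl).2 hl0 hl1 htl)
    have e : M.map (lowU y) = (({i, j, l} : Finset (Fin n))ᶜ).val.map fun k => lowU y (row A j k) := by
      rw [hM, Multiset.map_map]
      rfl
    rw [e]
    exact this
  -- the alternatives of (III)
  have hg : (GG.G (Fin n) (row A j) = FM (1 ::ₘ row A i j ::ₘ row A j l ::ₘ M) ∨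
      (GG.G (Fin n) (row A j) ≤ min (gtr (3 / 20) (9 / 20) (row A i j)
        + gtr (3 / 20) (9 / 20) (row A j l)
        + (M.map (gtr (3 / 20) (9 / 20))).sum - 6 / 125) (1 / 2) ∧
        GG.G (Fin n) (row A j) ≤ What (row A i j + row A j l + M.sum))) := by
    rcases le_or_gt (GG.G (Fin n) (row A j)) (F (row A j)) with h2 | h2
    · refine Or.inl ?_
      have h3 := le_antisymm h2 (F_le_GG (row A j))
      rw [h3, F_eq_FM, map_univ i j hij, row_diag A hce.diag j, hsym,
        map_compl2 i j l hil hjl, ← hM]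
    · refine Or.inr ⟨?_, ?_⟩
      · rcases GG_cases (row A j) j (row_diag A hce.diag j) with h3 | h3
        · exact absurd h2 (not_lt.mpr h3.le)
        refine h3.trans (le_of_eq ?_)
        rw [sum_erase_eq j i hij.symm, hsym, Finset.pair_comm j i, sum_compl2 i j l hil hjl, hM,
          Multiset.map_map]
        congr 2
        rw [add_assoc]
        rfl
      · have h3 := GG_le_max (row A j) (hnn j) j (row_diag A hce.diag j)
        rcases le_max_iff.mp h3 with h4 | h4
        · exact absurd h2 (not_lt.mpr h4)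
        · have h5 : ∑ c ∈ Finset.univ.erase j, row A j c = row A i j + row A j l + M.sum := htj
          rw [h5] at h4
          exact h4
  have hcost : ∀ c ∈ y.x.cls, ∑ k ∈ ({i, j} : Finset (Fin n))ᶜ, cost c (row A i k) (row A j k) (u k)
      ≤ (c.a : ℝ) / 1000 * S + (c.a2 : ℝ) / 1000 * (row A i l - (y.x.slo : ℝ) / 40)
        + ((M.map (phR y.x c)).sum + psR y.x c (row A j l)) := by
    intro c hcm
    rw [sum_compl2 i j l hil hjl]
    have h2 : ∑ k ∈ ({i, j, l} : Finset (Fin n))ᶜ, cost c (row A i k) (row A j k) (u k)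
        ≤ ∑ k ∈ ({i, j, l} : Finset (Fin n))ᶜ,
          ((c.a : ℝ) / 1000 * row A i k + phR y.x c (row A j k)) := by
      refine Finset.sum_le_sum fun k hk => ?_
      have hk' := hmem k hk
      obtain ⟨_, _, e, hg⟩ := hu1 k hk'.1 hk'.2.1
      have := (hII c hcm _ _ _ _ _ h0.le h1 hg).1 (hSo k hk'.1 hk'.2.1 hk'.2.2)
        (ht' k hk'.1 hk'.2.1 hk'.2.2)
      linarith
    rw [Finset.sum_add_distrib, ← Finset.mul_sum, ← hS] at h2
    have h3 := (hII c hcm _ _ _ _ _ h0.le h1 hgl).2 hq hl0 hl1 htl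
    have h4 : (M.map (phR y.x c)).sum
        = ∑ k ∈ ({i, j, l} : Finset (Fin n))ᶜ, phR y.x c (row A j k) := by
      rw [hM, Multiset.map_map]
      rfl
    rw [h4]
    linarith
  have hS1 : tot A i = row A i j + (S + row A i l) := by rw [htot]; ring
  have hS2 : 0 ≤ S + row A i l := by have := hnn i l; linarith
  rcases hIII (row A i j) (row A j l) (GG.G (Fin n) (row A j)) M h0.le h1
    (fun t htM => by
      rw [hM] at htM
      obtain ⟨k, hk, rfl⟩ := Multiset.mem_map.mp htM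
      have hk' := hmem k hk
      exact ⟨hnn j k, ht' k hk'.1 hk'.2.1 hk'.2.2⟩) (hnn j l) htl hg with h3 | h3
  · -- the class zero
    have hDj : D What A j = GG.G (Fin n) (row A j) - What (row A i j + row A j l + M.sum) := by
      unfold D
      rw [htj]
    refine LLat_of_one hce.psd hce.diag i j hD hb (S + row A i l) (fun hj => ?_) hS2 ?_
    · have := rho_le_tot i j hij hj
      linarith
    unfold IneqI at hz
    have hpos : 0 < row A i j := by linarith
    have hq3 : 0 < 3 * (row A i j) ^ 2 := by positivity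
    have hQ : need What A i j (S + row A i l) / (3 * (row A i j) ^ 2) ≤ - D What A j := by
      have e : need What A i j (S + row A i l)
          = D What A i * (4 * row A i j - (row A i j) ^ 2)
            + 4 * (S + row A i l) * max (D What A i) (1 / 1000) := rfl
      rw [e, hDj]
      linarith
    rw [div_le_iff₀ hq3] at hQ
    linarith
  · -- the other classes
    set T : ℝ := ∑ k ∈ ({i, j} : Finset (Fin n))ᶜ, gtr (3 / 20) (9 / 20) (u k) with hT
    obtain ⟨τ, hτ12, hτ⟩ : ∃ τ : ℕ, (τ = 1 ∨ τ = 2) ∧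
        ((τ = 1 → T - 6 / 125 ≤ GG.G (Fin n) (vrow i j u)) ∧
          (τ = 2 → 1 / 2 ≤ GG.G (Fin n) (vrow i j u))) := by
      rcases le_or_gt (T - 6 / 125) (1 / 2) with hA | hA
      · refine ⟨1, Or.inl rfl, fun _ => ?_, fun h => absurd h (by norm_num)⟩
        rw [min_eq_left hA] at hv
        exact hv
      · refine ⟨2, Or.inr rfl, fun h => absurd h (by norm_num), fun _ => ?_⟩
        rw [min_eq_right hA.le] at hv
        exact hv
    obtain ⟨c, hcm, hc3⟩ := h3 τ hτ12
    have hw0 : 0 ≤ (c.w : ℝ) / 1000 := by positivity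
    rcases hc3 with ⟨hty, hval⟩ | ⟨hty, hval⟩
    · refine coreB hce y.x i j hij hD hb u hu2 S (row A i l)
        ((M.map (phR y.x c)).sum + psR y.x c (row A j l)) _ (What (tot A j)) hS1 hS2 rfl c
        (hc c hcm) (hcost c hcm) (if c.ty = 1 then 6 / 125 else -(1 / 2)) ?_ rfl ?_
      · rcases hty with ⟨hty, hw⟩ | hty
        · rw [hw]
          simp
        · refine mul_le_mul_of_nonneg_left ?_ hw0
          rcases hτ12 with h | h
          · rw [if_pos (by omega), if_pos (by omega)]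
            exact hτ.1 h
          · rw [if_neg (by omega), if_neg (by omega)]
            have := hτ.2 h
            linarith
      · refine le_trans (le_of_eq ?_) hval
        unfold ValC
        rw [if_neg hq, htj]
        ring
    · refine coreB hce y.x i j hij hD hb u hu2 S (row A i l)
        ((M.map (phR y.x c)).sum + psR y.x c (row A j l)) _ (What (tot A j)) hS1 hS2 rfl c
        (hc c hcm) (hcost c hcm) (-FM (1 ::ₘ lowUs y (row A j l) ::ₘ M.map (lowU y))) ?_ rfl ?_
      · refine mul_le_mul_of_nonneg_left ?_ hw0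
        rw [if_neg (by omega)]
        linarith
      · refine le_trans (le_of_eq ?_) hval
        unfold ValU
        rw [htj]
        ring

end

/-- THE GLUE: second entry in `[s0/40, s1/40]`; `a/200` = start of the boxes (no bad rows below). -/
theorem specBI_of (s0 s1 a : ℕ) (L : List BoxB) (hs : 12 ≤ s0)
    (hch : chain a 200 (L.map BoxB.x) = true) (hpar : L.all (parB s0 s1) = true)
    (hkn : L.all knOK = true) (hcap : L.all (fun y => capOK y.x) = true)
    (hI : ∀ y ∈ L, PropIB y.x) (hII : ∀ y ∈ L, PropII y.x) (hU : ∀ y ∈ L, PropU y)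
    (hIII : ∀ y ∈ L, PropIIIB y)
    (hE : EmptyB ((a : ℝ) / 200) ((s0 : ℝ) / 40) ((s1 : ℝ) / 40)) :
    SpecBI What ((s0 : ℝ) / 40) ((s1 : ℝ) / 40) := by
  intro n A hce i j l hij hil hjl hD hlj hl0 hl1 hr
  have hnn := fun k => row_nonneg A i k
  have hle := fun k => row_le_one A hce.psd hce.diag i k
  have hd := row_diag A hce.diag i
  have hs' : (12 : ℝ) ≤ s0 := by exact_mod_cast hs
  have hb : 3 / 10 ≤ row A i j := by linarith
  rcases le_or_gt (row A i j) ((a : ℝ) / 200) with he | he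
  · exfalso
    have hsum : tot A i = row A i j + row A i l + ∑ c ∈ ({i, j, l} : Finset (Fin n))ᶜ, row A i c := by
      unfold tot
      rw [sum_erase_eq i j hij, sum_compl2 i j l hil hjl]
      ring
    have := hE (Fin n) (row A i) hnn hle i j l hij hil hjl hd hlj he hl0 hl1
      (fun c h1 h2 h3 => hr c h1 h2 h3)
    rw [← hsum] at this
    exact absurd hD (not_lt.mpr (D_nonpos hce i this))
  · obtain ⟨x, hx, h0, h1⟩ := chain_get 200 (L.map BoxB.x) a hch (row A i j) he
      (by push_cast; linarith [hle j])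
    obtain ⟨y, hy, rfl⟩ := List.mem_map.mp hx
    have hp := List.all_eq_true.mp hpar y hy
    unfold parB at hp
    rw [Bool.and_eq_true, Bool.and_eq_true, Bool.and_eq_true, Nat.beq_eq, Nat.beq_eq, Nat.beq_eq] at hp
    obtain ⟨p1, p2, p3, p4⟩ := hp
    have hqn : y.x.q ≠ [] := by
      intro h
      rw [h] at p1
      exact absurd p1 (by simp)
    refine LLat_of_boxB hce y (List.all_eq_true.mp hkn y hy) hqn (hI y hy) (hII y hy)
      (propCap_of_ok y.x (List.all_eq_true.mp hcap y hy)) (hU y hy) (hIII y hy) i j l hij hil hjl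
      hD hb h0 h1 ?_ ?_ hlj ?_
    · rw [p2]; exact hl0
    · rw [p3]; exact hl1
    · intro k k1 k2 k3
      rw [p4]
      have := hr k k1 k2 k3
      push_cast
      linarith

end LL
end Fr
end Pool.Agent.Lib.MP_6947cd_al
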