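import Pool.Agent.Lib.MP_6947cd_al.L.PairBAll
import Pool.Agent.Lib.MP_6947cd_al.L.GlueB
import Pool.Agent.Lib.MP_6947cd_al.L.EmptyB

/-!
Problem MP_6947cd_al (Chollet).  CASE B, second entry in `[3/10, 2/5]`: the four lists of boxes together;
(I), (U), (III) are hypotheses here.
-/

set_option autoImplicit false
open scoped Matrix ComplexOrder
open Matrix Finset

namespace Pool.Agent.Lib.MP_6947cd_al
namespace Fr
namespace LL

open Ent CA CB CEG

theorem chk12 : (chain 108 200 (box12.map BoxB.x) && (box12.all (parB 12 13) && (box12.all knOK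
    && box12.all fun y => capOK y.x))) = true := by decide +kernel

theorem chk13 : (chain 108 200 (box13.map BoxB.x) && (box13.all (parB 13 14) && (box13.all knOK
    && box13.all fun y => capOK y.x))) = true := by decide +kernel

theorem chk14 : (chain 108 200 (box14.map BoxB.x) && (box14.all (parB 14 15) && (box14.all knOK
    && box14.all fun y => capOK y.x))) = true := by decide +kernel

theorem chk15 : (chain 108 200 (box15.map BoxB.x) && (box15.all (parB 15 16) && (box15.all knOK
    && box15.all fun y => capOK y.x))) = true := by decide +kernel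

theorem specBI_set {s0 s1 : ℕ} {L : List BoxB} (hs : 12 ≤ s0)
    (hc : (chain 108 200 (L.map BoxB.x) && (L.all (parB s0 s1) && (L.all knOK
      && L.all fun y => capOK y.x))) = true)
    (hI : ∀ y ∈ L, PropIB y.x) (hII : ∀ y ∈ L, PropII y.x) (hU : ∀ y ∈ L, PropU y)
    (hIII : ∀ y ∈ L, PropIIIB y) (hE : EmptyB (108 / 200) ((s0 : ℝ) / 40) ((s1 : ℝ) / 40)) :
    SpecBI What ((s0 : ℝ) / 40) ((s1 : ℝ) / 40) := by
  rw [Bool.and_eq_true, Bool.and_eq_true, Bool.and_eq_true] at hc
  obtain ⟨c1, c2, c3, c4⟩ := hc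
  exact specBI_of s0 s1 108 L hs c1 c2 c3 c4 hI hII hU hIII (by exact_mod_cast hE)

/-- CASE B, second entry in `[3/10, 2/5]`. -/
theorem specBI_low
    (i12 : ∀ y ∈ box12, PropIB y.x) (i13 : ∀ y ∈ box13, PropIB y.x)
    (i14 : ∀ y ∈ box14, PropIB y.x) (i15 : ∀ y ∈ box15, PropIB y.x)
    (u12 : ∀ y ∈ box12, PropU y) (u13 : ∀ y ∈ box13, PropU y)
    (u14 : ∀ y ∈ box14, PropU y) (u15 : ∀ y ∈ box15, PropU y)
    (t12 : ∀ y ∈ box12, PropIIIB y) (t13 : ∀ y ∈ box13, PropIIIB y)
    (t14 : ∀ y ∈ box14, PropIIIB y) (t15 : ∀ y ∈ box15, PropIIIB y) :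
    SpecBI What (3 / 10) (2 / 5) := by
  have h12 := specBI_set (s0 := 12) (s1 := 13) le_rfl chk12 i12 II_box12 u12 t12
    (by exact_mod_cast IB.emptyB12)
  have h13 := specBI_set (s0 := 13) (s1 := 14) (by norm_num) chk13 i13 II_box13 u13 t13
    (by exact_mod_cast IB.emptyB13)
  have h14 := specBI_set (s0 := 14) (s1 := 15) (by norm_num) chk14 i14 II_box14 u14 t14
    (by exact_mod_cast IB.emptyB14)
  have h15 := specBI_set (s0 := 15) (s1 := 16) (by norm_num) chk15 i15 II_box15 u15 t15
    (by exact_mod_cast IB.emptyB15)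
  have h := specBI_glue What (specBI_glue What (specBI_glue What h12 h13) h14) h15
  norm_num at h ⊢
  exact h

end LL
end Fr
end Pool.Agent.Lib.MP_6947cd_al
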