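import Pool.Agent.Lib.MP_6947cd_al.L.ReC

/-!
Problem MP_6947cd_al (Chollet).  Row certificates `rowE`: the inequality on `[1, 2]`.
-/

set_option autoImplicit false
open Finset

namespace Pool.Agent.Lib.MP_6947cd_al
namespace RE

open Ent.Pk

/-! ### the grid values -/

/-- squaring chain from `e` (upper bounds of `2 ^ 100 * exp (- 2 ^ i x)`), sum of `f + 1` terms -/
noncomputable def chE (f : ℕ) : ℕ → ℕ → (ℕ → Bool) → Bool :=
  @Nat.rec (fun _ => ℕ → ℕ → (ℕ → Bool) → Bool) (fun e S k => frc (Nat.add S e) k)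
    (fun _ ih e S k => frc (Nat.add S e) fun S' =>
      frc (Nat.succ (Nat.shiftRight (Nat.mul e e) (nat_lit 100))) fun e' => ih e' S' k) f

/-- upper bound of `10 ^ 18 * log ((n + 1) / n)` -/
def ubA (n : ℕ) : ℕ :=
  Nat.add (Nat.succ (Nat.div (nat_lit 2000000000000000000) (Nat.succ (Nat.mul (nat_lit 2) n))))
    (Nat.succ (Nat.div (nat_lit 2000000000000000000)
      (Nat.mul (nat_lit 3) (Nat.mul (Nat.succ (Nat.mul (nat_lit 2) n)) (Nat.mul (nat_lit 4) (Nat.mul n (Nat.succ n)))))))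

/-- the check of the grid points `n, n + 1, ..` (`t = n / 8192`); `A` bounds `10 ^ 18 * log t` -/
noncomputable def lpA (f : ℕ) : ℕ → ℕ → Bool :=
  @Nat.rec (fun _ => ℕ → ℕ → Bool) (fun _ _ => true)
    (fun _ ih n A =>
      cond (frc (Nat.sub (Nat.add (Nat.shiftLeft (nat_lit 1) (nat_lit 100)) (Nat.shiftLeft (Nat.mul n n) (nat_lit 13)))
          (Nat.shiftLeft n (nat_lit 57))) fun e => chE (nat_lit 34) e (nat_lit 0) fun S =>
        Nat.ble (Nat.add (Nat.shiftLeft (Nat.add (nat_lit 230640974000000000) A) (nat_lit 100))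
          (Nat.mul (nat_lit 693147180300000000) (Nat.add S (Nat.shiftLeft (nat_lit 1) (nat_lit 55)))))
          (Nat.mul (nat_lit 693147180300000000) (Nat.shiftLeft (nat_lit 30) (nat_lit 100))))
      (frc (Nat.add A (ubA n)) fun A' => frc (Nat.succ n) fun n' => ih n' A') false) f

theorem lpA_ok : lpA (nat_lit 8193) (nat_lit 8192) (nat_lit 0) = true := by decide +kernel

/-! ### soundness of the grid check -/

lemma chE_sound (f : ℕ) : ∀ (e S : ℕ) (k : ℕ → Bool) (x : ℝ), chE f e S k = true → 2 ^ 100 * Real.exp (-x) ≤ e →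
    ∃ S' : ℕ, k S' = true ∧ (S : ℝ) + 2 ^ 100 * ∑ i ∈ range (f + 1), Real.exp (-(2 ^ i * x)) ≤ S' := by
  induction f with
  | zero =>
    intro e S k x h he
    have h1 : frc (Nat.add S e) k = true := h
    rw [frc_eq] at h1
    refine ⟨_, h1, ?_⟩
    have e1 : ((Nat.add S e : ℕ) : ℝ) = S + e := Nat.cast_add S e
    rw [e1, zero_add, sum_range_one, pow_zero, one_mul]
    linarith
  | succ f ih =>
    intro e S k x h he
    have e0 : chE (f + 1) e S k = frc (Nat.add S e) fun S' =>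
      frc (Nat.succ (Nat.shiftRight (Nat.mul e e) (nat_lit 100))) fun e' => chE f e' S' k := rfl
    rw [e0, frc_eq, frc_eq] at h
    obtain ⟨S', h1, h2⟩ := ih _ _ k (2 * x) h (by
      have e1 : ((Nat.succ (Nat.shiftRight (Nat.mul e e) (nat_lit 100)) : ℕ) : ℝ) = (((e * e) >>> 100 : ℕ) : ℝ) + 1 :=
        Nat.cast_succ _
      rw [e1, Nat.shiftRight_eq_div_pow]
      have h3 : e * e < (e * e / 2 ^ 100 + 1) * 2 ^ 100 := by
        have := Nat.div_add_mod (e * e) (2 ^ 100)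
        have := Nat.mod_lt (e * e) (show 0 < 2 ^ 100 by norm_num)
        omega
      have h4 : (e : ℝ) * e ≤ (((e * e / 2 ^ 100 : ℕ) : ℝ) + 1) * 2 ^ 100 := by exact_mod_cast h3.le
      have h5 : Real.exp (-(2 * x)) = Real.exp (-x) * Real.exp (-x) := by
        rw [← Real.exp_add]
        congr 1
        ring
      have h6 : (2 ^ 100 * Real.exp (-x)) * (2 ^ 100 * Real.exp (-x)) ≤ (e : ℝ) * e :=
        mul_le_mul he he (by positivity) (by positivity)
      rw [h5]
      generalize Real.exp (-x) = y at h6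
      have h7 : (2 ^ 100 * (y * y)) * 2 ^ 100 ≤ (((e * e / 2 ^ 100 : ℕ) : ℝ) + 1) * 2 ^ 100 := by
        calc (2 ^ 100 * (y * y)) * 2 ^ 100 = (2 ^ 100 * y) * (2 ^ 100 * y) := by ring
          _ ≤ _ := h6.trans h4
      exact le_of_mul_le_mul_right h7 (by positivity))
    refine ⟨S', h1, le_trans ?_ h2⟩
    have e1 : ((Nat.add S e : ℕ) : ℝ) = S + e := Nat.cast_add S e
    rw [e1, sum_range_succ', pow_zero, one_mul]
    have e2 : ∑ i ∈ range (f + 1), Real.exp (-(2 ^ (i + 1) * x)) = ∑ i ∈ range (f + 1), Real.exp (-(2 ^ i * (2 * x))) :=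
      sum_congr rfl fun i _ => by
        congr 2
        ring
    rw [e2]
    linarith

lemma log_step (n : ℕ) (hn : 1 ≤ n) : Real.log (1 + (n : ℝ)⁻¹)
    ≤ 2 / (2 * n + 1) + 2 / (3 * ((2 * n + 1) * (4 * (n * (n + 1))))) := by
  have hn0 : (0 : ℝ) < n := by exact_mod_cast hn
  have h := Real.hasSum_log_one_add_inv hn0
  have h1 := (hasSum_nat_add_iff' 1).mpr h
  set y : ℝ := 1 / (2 * n + 1) with hy
  have hy0 : 0 < y := by positivity
  have hy1 : y < 1 := by
    rw [hy, div_lt_one (by positivity)]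
    linarith
  have hy2 : y ^ 2 < 1 := by nlinarith
  have h2 := (hasSum_geometric_of_lt_one (sq_nonneg y) hy2).mul_left (2 / 3 * y ^ 3)
  have h3 := hasSum_le (fun k : ℕ => ?_) h1 h2
  · rw [sum_range_one] at h3
    have e1 : (2 : ℝ) / 3 * y ^ 3 * (1 - y ^ 2)⁻¹ = 2 / (3 * ((2 * n + 1) * (4 * (n * (n + 1))))) := by
      have : (1 : ℝ) - y ^ 2 = 4 * (n * (n + 1)) / (2 * n + 1) ^ 2 := by
        rw [hy]
        field_simp
        ring
      rw [this, hy]
      field_simp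
    rw [e1] at h3
    have e2 : (2 : ℝ) * (1 / (2 * ((0 : ℕ) : ℝ) + 1)) * y ^ (2 * 0 + 1) = 2 / (2 * n + 1) := by
      rw [hy]
      push_cast
      field_simp
      ring
    rw [e2] at h3
    linarith
  · have e3 : y ^ (2 * (k + 1) + 1) = y ^ 3 * (y ^ 2) ^ k := by
      rw [← pow_mul, ← pow_add]
      congr 1
      ring
    rw [e3]
    have h4 : (1 : ℝ) / (2 * ((k + 1 : ℕ) : ℝ) + 1) ≤ 1 / 3 := by
      have : (0 : ℝ) ≤ k := Nat.cast_nonneg k
      push_cast
      gcongr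
      linarith
    have h5 : 0 ≤ y ^ 3 * (y ^ 2) ^ k := by positivity
    nlinarith

lemma ubA_sound (n : ℕ) (hn : 1 ≤ n) : 10 ^ 18 * Real.log (1 + (n : ℝ)⁻¹) ≤ (ubA n : ℝ) := by
  have h1 := log_step n hn
  have e : ubA n = (2 * 10 ^ 18 / (2 * n + 1) + 1) + (2 * 10 ^ 18 / (3 * ((2 * n + 1) * (4 * (n * (n + 1))))) + 1) := rfl
  have hdiv : ∀ w : ℕ, 0 < w → (2 * 10 ^ 18 : ℝ) / w ≤ ((2 * 10 ^ 18 / w + 1 : ℕ) : ℝ) := by
    intro w hw
    have hw' : (0 : ℝ) < w := by exact_mod_cast hw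
    rw [div_le_iff₀ hw']
    have h2 : 2 * 10 ^ 18 < (2 * 10 ^ 18 / w + 1) * w := by
      have := Nat.div_add_mod (2 * 10 ^ 18) w
      have := Nat.mod_lt (2 * 10 ^ 18) hw
      have e3 : (2 * 10 ^ 18 / w + 1) * w = w * (2 * 10 ^ 18 / w) + w := by ring
      omega
    exact_mod_cast h2.le
  have h3 := hdiv (2 * n + 1) (by omega)
  have h4 := hdiv (3 * ((2 * n + 1) * (4 * (n * (n + 1))))) (by positivity)
  rw [e, Nat.cast_add]
  have e1 : ((2 * n + 1 : ℕ) : ℝ) = 2 * n + 1 := by push_cast; ring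
  have e2 : ((3 * ((2 * n + 1) * (4 * (n * (n + 1)))) : ℕ) : ℝ) = 3 * ((2 * n + 1) * (4 * (n * (n + 1)))) := by
    push_cast
    ring
  rw [e1] at h3
  rw [e2] at h4
  have e4 : (10 : ℝ) ^ 18 * (2 / (2 * n + 1) + 2 / (3 * ((2 * n + 1) * (4 * (n * (n + 1))))))
      = (2 * 10 ^ 18) / (2 * n + 1) + (2 * 10 ^ 18) / (3 * ((2 * n + 1) * (4 * (n * (n + 1))))) := by ring
  have h5 : (10 : ℝ) ^ 18 * Real.log (1 + (n : ℝ)⁻¹)
      ≤ 10 ^ 18 * (2 / (2 * n + 1) + 2 / (3 * ((2 * n + 1) * (4 * (n * (n + 1)))))) :=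
    mul_le_mul_of_nonneg_left h1 (by positivity)
  rw [e4] at h5
  linarith

/-- the sum of the exponentials at `t` -/
noncomputable def psA (t : ℝ) : ℝ := ∑ i ∈ range 35, Real.exp (-(2 ^ i * (t / 2 ^ 30)))

/-- the fact of a grid point -/
def GA (m : ℕ) : Prop := Real.log ((m : ℝ) / 8192) + 230640974 / 10 ^ 9
  ≤ 6931471803 / 10 ^ 10 * (30 - psA ((m : ℝ) / 8192) - 1 / 2 ^ 45)

lemma exp_neg_le (x : ℝ) (h : 0 ≤ x) : Real.exp (-x) ≤ 1 - x + x ^ 2 / 2 := by
  have h1 := Real.quadratic_le_exp_of_nonneg h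
  rw [Real.exp_neg, inv_le_comm₀ (Real.exp_pos _) (by nlinarith)]
  refine le_trans ?_ h1
  rw [inv_le_iff_one_le_mul₀ (by nlinarith)]
  nlinarith [sq_nonneg (x ^ 2)]

lemma lpA_sound (f : ℕ) : ∀ (n A : ℕ), lpA f n A = true → 1 ≤ n → 10 ^ 18 * Real.log ((n : ℝ) / 8192) ≤ A →
    ∀ m, n ≤ m → m < n + f → GA m := by
  induction f with
  | zero => intro n A _ _ _ m h1 h2; omega
  | succ f ih =>
    intro n A h hn hA m h1 h2
    have e : lpA (f + 1) n A =
      cond (frc (Nat.sub (Nat.add (Nat.shiftLeft (nat_lit 1) (nat_lit 100)) (Nat.shiftLeft (Nat.mul n n) (nat_lit 13)))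
          (Nat.shiftLeft n (nat_lit 57))) fun e => chE (nat_lit 34) e (nat_lit 0) fun S =>
        Nat.ble (Nat.add (Nat.shiftLeft (Nat.add (nat_lit 230640974000000000) A) (nat_lit 100))
          (Nat.mul (nat_lit 693147180300000000) (Nat.add S (Nat.shiftLeft (nat_lit 1) (nat_lit 55)))))
          (Nat.mul (nat_lit 693147180300000000) (Nat.shiftLeft (nat_lit 30) (nat_lit 100))))
      (frc (Nat.add A (ubA n)) fun A' => frc (Nat.succ n) fun n' => lpA f n' A') false := rfl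
    rw [e] at h
    obtain ⟨h3, h4⟩ := cond_eq_true h
    rw [frc_eq, frc_eq] at h4
    rw [frc_eq] at h3
    have hn0 : (0 : ℝ) < n := by exact_mod_cast hn
    rcases Nat.lt_or_ge n m with hm | hm
    · refine ih _ _ h4 (by omega) ?_ m hm (by omega)
      have e1 : ((Nat.add A (ubA n) : ℕ) : ℝ) = A + ubA n := Nat.cast_add _ _
      have e2 : ((Nat.succ n : ℕ) : ℝ) / 8192 = (n : ℝ) / 8192 * (1 + (n : ℝ)⁻¹) := by
        push_cast
        field_simp
      rw [e1, e2, Real.log_mul (by positivity) (by positivity)]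
      have := ubA_sound n hn
      linarith
    · have hmn : m = n := by omega
      subst hmn
      obtain ⟨S, h5, h6⟩ := chE_sound 34 _ _ _ ((m : ℝ) / 8192 / 2 ^ 30) h3 (by
        have e1 : Nat.sub (Nat.add (Nat.shiftLeft (nat_lit 1) (nat_lit 100)) (Nat.shiftLeft (Nat.mul m m) (nat_lit 13)))
          (Nat.shiftLeft m (nat_lit 57)) = (1 <<< 100 + (m * m) <<< 13) - m <<< 57 := rfl
        rw [e1, Nat.shiftLeft_eq, Nat.shiftLeft_eq, Nat.shiftLeft_eq]
        have h7 : ((1 * 2 ^ 100 + m * m * 2 ^ 13 : ℕ) : ℝ) - ((m * 2 ^ 57 : ℕ) : ℝ)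
            ≤ ((1 * 2 ^ 100 + m * m * 2 ^ 13 - m * 2 ^ 57 : ℕ) : ℝ) := by
          rw [sub_le_iff_le_add]
          have : 1 * 2 ^ 100 + m * m * 2 ^ 13 ≤ (1 * 2 ^ 100 + m * m * 2 ^ 13 - m * 2 ^ 57) + m * 2 ^ 57 := by omega
          exact_mod_cast this
        refine le_trans ?_ h7
        have h8 := exp_neg_le ((m : ℝ) / 8192 / 2 ^ 30) (by positivity)
        have h9 : 2 ^ 100 * Real.exp (-((m : ℝ) / 8192 / 2 ^ 30))
            ≤ 2 ^ 100 * (1 - (m : ℝ) / 8192 / 2 ^ 30 + ((m : ℝ) / 8192 / 2 ^ 30) ^ 2 / 2) :=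
          mul_le_mul_of_nonneg_left h8 (by positivity)
        refine h9.trans (le_of_eq ?_)
        push_cast
        ring)
      have h7 : (230640974000000000 + A) <<< 100 + 693147180300000000 * (S + 1 <<< 55)
          ≤ 693147180300000000 * (30 <<< 100) := Nat.le_of_ble_eq_true h5
      rw [Nat.shiftLeft_eq, Nat.shiftLeft_eq, Nat.shiftLeft_eq] at h7
      have h8 : ((230640974000000000 : ℝ) + A) * 2 ^ 100 + 693147180300000000 * (S + 1 * 2 ^ 55)
          ≤ 693147180300000000 * (30 * 2 ^ 100) := by exact_mod_cast h7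
      unfold GA psA
      have h9 : ((nat_lit 0 : ℕ) : ℝ) = 0 := Nat.cast_zero
      rw [h9, zero_add] at h6
      generalize ∑ i ∈ range (34 + 1), Real.exp (-(2 ^ i * ((m : ℝ) / 8192 / 2 ^ 30))) = Y at h6 ⊢
      generalize Real.log ((m : ℝ) / 8192) = l at hA ⊢
      have h10 : (230640974000000000 + 10 ^ 18 * l) * 2 ^ 100 ≤ ((230640974000000000 : ℝ) + A) * 2 ^ 100 := by
        refine mul_le_mul_of_nonneg_right (by linarith) (by positivity)
      have h11 : (693147180300000000 : ℝ) * (2 ^ 100 * Y + 1 * 2 ^ 55) ≤ 693147180300000000 * (S + 1 * 2 ^ 55) := by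
        refine mul_le_mul_of_nonneg_left (by linarith) (by positivity)
      have h12 : (l + 230640974 / 10 ^ 9) * (10 ^ 18 * 2 ^ 100)
          ≤ (6931471803 / 10 ^ 10 * (30 - Y - 1 / 2 ^ 45)) * (10 ^ 18 * 2 ^ 100) := by
        norm_num at h8 h10 h11 ⊢
        linarith
      exact le_of_mul_le_mul_right h12 (by positivity)

/-! ### between the grid points -/

lemma psA_conv {a b t lam mu : ℝ} (hl : 0 ≤ lam) (hm : 0 ≤ mu) (hlm : lam + mu = 1) (ht : t = lam * a + mu * b) :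
    psA t ≤ lam * psA a + mu * psA b := by
  unfold psA
  rw [mul_sum, mul_sum, ← sum_add_distrib]
  refine sum_le_sum fun i _ => ?_
  have h := convexOn_exp.2 (Set.mem_univ (-(2 ^ i * (a / 2 ^ 30)))) (Set.mem_univ (-(2 ^ i * (b / 2 ^ 30)))) hl hm hlm
  simp only [smul_eq_mul] at h
  refine le_trans (le_of_eq ?_) h
  congr 1
  rw [ht]
  ring

lemma log_conv {a b t lam mu : ℝ} (ha : 1 ≤ a) (hab : a ≤ b) (hl : 0 ≤ lam) (hm : 0 ≤ mu) (hlm : lam + mu = 1)
    (ht : t = lam * a + mu * b) : Real.log t ≤ lam * Real.log a + mu * Real.log b + (b - a) ^ 2 / 4 := by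
  have hb : 1 ≤ b := ha.trans hab
  have ht1 : 1 ≤ t := by rw [ht]; nlinarith
  have h1 := Real.log_le_sub_one_of_pos (show 0 < t / a by positivity)
  have h2 := Real.log_le_sub_one_of_pos (show 0 < t / b by positivity)
  rw [Real.log_div (by positivity) (by positivity)] at h1 h2
  have h3 : lam * (Real.log t - Real.log a) + mu * (Real.log t - Real.log b)
      ≤ lam * (t / a - 1) + mu * (t / b - 1) :=
    add_le_add (mul_le_mul_of_nonneg_left h1 hl) (mul_le_mul_of_nonneg_left h2 hm)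
  have h4 : lam * (t / a - 1) + mu * (t / b - 1) = lam * mu * ((b - a) ^ 2 / (a * b)) := by
    have hmu : mu = 1 - lam := by linarith
    subst hmu
    rw [ht]
    field_simp
    ring
  have h5 : (b - a) ^ 2 / (a * b) ≤ (b - a) ^ 2 := by
    rw [div_le_iff₀ (by positivity)]
    have : 1 ≤ a * b := by nlinarith
    nlinarith [sq_nonneg (b - a)]
  have h6 : lam * mu ≤ 1 / 4 := by nlinarith [sq_nonneg (lam - mu)]
  have h7 : lam * mu * ((b - a) ^ 2 / (a * b)) ≤ 1 / 4 * (b - a) ^ 2 :=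
    mul_le_mul h6 h5 (by positivity) (by norm_num)
  have h8 : lam * (Real.log t - Real.log a) + mu * (Real.log t - Real.log b)
      = Real.log t - (lam * Real.log a + mu * Real.log b) := by
    have : lam * Real.log t + mu * Real.log t = Real.log t := by rw [← add_mul, hlm, one_mul]
    linarith
  linarith

lemma midA (t : ℝ) (h1 : 1 ≤ t) (h2 : t ≤ 2) :
    Real.log t + 23064097 / 10 ^ 8 ≤ 6931471803 / 10 ^ 10 * (30 - psA t - 1 / 2 ^ 45) := by
  have hG : ∀ m, 8192 ≤ m → m ≤ 16384 → GA m := by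
    intro m hm1 hm2
    exact lpA_sound 8193 8192 0 lpA_ok (by norm_num) (by norm_num) m hm1 (by omega)
  obtain ⟨n, hn1, hn2, hn3, hn4⟩ : ∃ n : ℕ, 8192 ≤ n ∧ n < 16384 ∧ (n : ℝ) ≤ 8192 * t ∧ 8192 * t ≤ n + 1 := by
    rcases lt_or_ge t 2 with h3 | h3
    · refine ⟨⌊8192 * t⌋₊, ?_, ?_, Nat.floor_le (by positivity), (Nat.lt_floor_add_one _).le⟩
      · exact Nat.le_floor (by push_cast; linarith)
      · rw [Nat.floor_lt (by positivity)]
        push_cast
        linarith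
    · have : t = 2 := le_antisymm h2 h3
      subst this
      exact ⟨16383, by norm_num, by norm_num, by norm_num, by norm_num⟩
  have g1 := hG n hn1 hn2.le
  have g2 := hG (n + 1) (by omega) (by omega)
  unfold GA at g1 g2
  set a : ℝ := (n : ℝ) / 8192 with ha
  set b : ℝ := ((n + 1 : ℕ) : ℝ) / 8192 with hb
  set lam : ℝ := n + 1 - 8192 * t with hlam
  set mu : ℝ := 8192 * t - n with hmu
  have hl : 0 ≤ lam := by linarith
  have hm : 0 ≤ mu := by linarith
  have hlm : lam + mu = 1 := by rw [hlam, hmu]; ring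
  have ht : t = lam * a + mu * b := by
    rw [hlam, hmu, ha, hb]
    push_cast
    ring
  have hn1' : (8192 : ℝ) ≤ n := by exact_mod_cast hn1
  have ha1 : 1 ≤ a := by
    rw [ha, le_div_iff₀ (by norm_num)]
    linarith
  have hba : b - a = 1 / 8192 := by
    rw [ha, hb]
    push_cast
    ring
  have h3 := psA_conv hl hm hlm ht
  have h4 := log_conv ha1 (by linarith) hl hm hlm ht
  rw [hba] at h4
  have h5 : lam * (Real.log a + 230640974 / 10 ^ 9) + mu * (Real.log b + 230640974 / 10 ^ 9)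
      ≤ lam * (6931471803 / 10 ^ 10 * (30 - psA a - 1 / 2 ^ 45)) + mu * (6931471803 / 10 ^ 10 * (30 - psA b - 1 / 2 ^ 45)) :=
    add_le_add (mul_le_mul_of_nonneg_left g1 hl) (mul_le_mul_of_nonneg_left g2 hm)
  have h6 : lam * (Real.log a + 230640974 / 10 ^ 9) + mu * (Real.log b + 230640974 / 10 ^ 9)
      = lam * Real.log a + mu * Real.log b + 230640974 / 10 ^ 9 := by
    calc _ = lam * Real.log a + mu * Real.log b + (lam + mu) * (230640974 / 10 ^ 9) := by ring
      _ = _ := by rw [hlm, one_mul]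
  have h7 : lam * (6931471803 / 10 ^ 10 * (30 - psA a - 1 / 2 ^ 45)) + mu * (6931471803 / 10 ^ 10 * (30 - psA b - 1 / 2 ^ 45))
      = 6931471803 / 10 ^ 10 * (30 - (lam * psA a + mu * psA b) - 1 / 2 ^ 45) := by
    calc _ = 6931471803 / 10 ^ 10 * ((lam + mu) * 30 - (lam * psA a + mu * psA b) - (lam + mu) * (1 / 2 ^ 45)) := by ring
      _ = _ := by rw [hlm, one_mul, one_mul]
  rw [h6, h7] at h5
  have h8 : (6931471803 : ℝ) / 10 ^ 10 * (30 - (lam * psA a + mu * psA b) - 1 / 2 ^ 45)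
      ≤ 6931471803 / 10 ^ 10 * (30 - psA t - 1 / 2 ^ 45) :=
    mul_le_mul_of_nonneg_left (by linarith) (by norm_num)
  norm_num at h4 h5 h8 ⊢
  linarith

/-- the tail of the exponentials -/
lemma Us_tail (M : ℕ) (t : ℝ) (h1 : 1 ≤ t) : Us M t ≤ Us 5 t + 1 / 2 ^ 45 := by
  have hk : ∀ k : ℕ, Real.exp (-(2 ^ (5 + k) * t)) ≤ 1 / 2 ^ 46 * (1 / 2) ^ k := by
    intro k
    have h2 : (32 : ℝ) + k ≤ 2 ^ (5 + k) * t := by
      have h3 : (1 : ℝ) + k ≤ 2 ^ k := by
        have := one_add_mul_le_pow (show (-2 : ℝ) ≤ 1 by norm_num) k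
        norm_num at this
        linarith
      have h4 : (2 : ℝ) ^ (5 + k) = 32 * 2 ^ k := by
        rw [pow_add]
        norm_num
      have h5 : (0 : ℝ) < 2 ^ (5 + k) := by positivity
      have hk0 : (0 : ℝ) ≤ k := Nat.cast_nonneg k
      nlinarith
    have h6 : Real.exp (-(2 ^ (5 + k) * t)) ≤ Real.exp (-1) ^ 32 * Real.exp (-1) ^ k := by
      rw [← Real.exp_nat_mul, ← Real.exp_nat_mul, ← Real.exp_add, Real.exp_le_exp]
      push_cast
      linarith
    have he : Real.exp (-1) ≤ 1 / 2.7182818283 := by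
      rw [Real.exp_neg, inv_eq_one_div]
      exact one_div_le_one_div_of_le (by norm_num) Real.exp_one_gt_d9.le
    have he0 := (Real.exp_pos (-1)).le
    have h7 : Real.exp (-1) ^ 32 ≤ 1 / 2 ^ 46 := (pow_le_pow_left₀ he0 he 32).trans (by norm_num)
    have h8 : Real.exp (-1) ^ k ≤ (1 / 2) ^ k := pow_le_pow_left₀ he0 (he.trans (by norm_num)) k
    exact h6.trans (mul_le_mul h7 h8 (by positivity) (by positivity))
  have hs : ∀ K : ℕ, ∑ k ∈ range K, (1 / 2 ^ 46 * (1 / 2 : ℝ) ^ k) ≤ 1 / 2 ^ 45 := by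
    intro K
    rw [← mul_sum]
    have : ∑ k ∈ range K, (1 / 2 : ℝ) ^ k ≤ 2 := by
      rw [geom_sum_eq (by norm_num)]
      have : (0 : ℝ) < (1 / 2) ^ K := by positivity
      norm_num
      linarith
    calc (1 : ℝ) / 2 ^ 46 * ∑ k ∈ range K, (1 / 2 : ℝ) ^ k ≤ 1 / 2 ^ 46 * 2 :=
          mul_le_mul_of_nonneg_left this (by positivity)
      _ = 1 / 2 ^ 45 := by norm_num
  have h9 := Us_mono (show M ≤ 5 + M by omega) t
  refine h9.trans ?_
  unfold Us
  rw [sum_range_add]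
  have h10 := (sum_le_sum fun k (_ : k ∈ range M) => hk k).trans (hs M)
  linarith

/-- (A) -/
theorem pA : PA := by
  intro N M t hN h1 h2
  have hm := midA t h1 h2
  have hU := Us_tail M t h1
  have hL : Ls 30 t ≤ Ls N t := by
    unfold Ls
    refine sum_le_sum_of_subset_of_nonneg (range_subset_range.mpr hN) fun i _ _ => ?_
    have : Real.exp (-(t / 2 ^ (i + 1))) ≤ 1 := by
      rw [Real.exp_le_one_iff]
      have : (0 : ℝ) ≤ t / 2 ^ (i + 1) := by positivity
      linarith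
    linarith
  have hps : Ls 30 t - Us 5 t = 30 - psA t := by
    unfold Ls Us psA
    rw [show (35 : ℕ) = 30 + 5 by norm_num, sum_range_add, sum_sub_distrib]
    have e0 : ∑ x ∈ range 30, Real.exp (-(t / 2 ^ (x + 1))) = ∑ j ∈ range 30, Real.exp (-(t / 2 ^ (30 - 1 - j + 1))) :=
      (sum_range_reflect (fun x => Real.exp (-(t / 2 ^ (x + 1)))) 30).symm
    have e1 : ∑ j ∈ range 30, Real.exp (-(t / 2 ^ (30 - 1 - j + 1))) = ∑ i ∈ range 30, Real.exp (-(2 ^ i * (t / 2 ^ 30))) := by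
      refine sum_congr rfl fun i hi => ?_
      rw [mem_range] at hi
      congr 2
      rw [show 30 - 1 - i + 1 = 30 - i by omega]
      have : (2 : ℝ) ^ 30 = 2 ^ (30 - i) * 2 ^ i := by
        rw [← pow_add]
        congr 1
        omega
      rw [this]
      field_simp
    have e2 : ∑ j ∈ range 5, Real.exp (-(2 ^ j * t)) = ∑ i ∈ range 5, Real.exp (-(2 ^ (30 + i) * (t / 2 ^ 30))) := by
      refine sum_congr rfl fun i _ => ?_
      congr 2
      rw [pow_add]
      field_simp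
    rw [e0, e1, e2]
    simp only [sum_const, card_range, nsmul_eq_mul, mul_one]
    push_cast
    ring
  have hl := Real.log_two_gt_d9
  have hlog : 0 ≤ Real.log t := Real.log_nonneg h1
  have hpos : 0 ≤ 30 - psA t - 1 / 2 ^ 45 := by
    by_contra hcon
    push Not at hcon
    have : (6931471803 : ℝ) / 10 ^ 10 * (30 - psA t - 1 / 2 ^ 45) < 0 := mul_neg_of_pos_of_neg (by norm_num) hcon
    norm_num at *
    linarith
  have h3 : (6931471803 : ℝ) / 10 ^ 10 * (30 - psA t - 1 / 2 ^ 45) ≤ Real.log 2 * (30 - psA t - 1 / 2 ^ 45) :=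
    mul_le_mul_of_nonneg_right (by linarith) hpos
  have h4 : Real.log 2 * (30 - psA t - 1 / 2 ^ 45) ≤ Real.log 2 * (Ls N t - Us M t) :=
    mul_le_mul_of_nonneg_left (by linarith) (by linarith)
  linarith

end RE
end Pool.Agent.Lib.MP_6947cd_al
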