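import Pool.Agent.Lib.MP_6947cd_al.L.ReC

/-!
Problem MP_6947cd_al (Chollet).  Row certificates `rowE`: the inequality on `[0, 1 / 2]`.
-/

set_option autoImplicit false
set_option maxRecDepth 100000
open Finset

namespace Pool.Agent.Lib.MP_6947cd_al
namespace RE

open Ent.Pk

/-! ### nonnegativity of a polynomial with integer coefficients on an interval -/

/-- evaluation -/
noncomputable def evN' : List ℕ → ℝ → ℝ
  | [], _ => 0
  | c :: l, t => c + t * evN' l t

/-- `c + (a + t) p (t)`, with continuation -/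
noncomputable def mA (a : ℕ) (p : List ℕ) : ℕ → (List ℕ → Bool) → Bool :=
  @List.rec ℕ (fun _ => ℕ → (List ℕ → Bool) → Bool) (fun c k => k [c])
    (fun x _ ih c k => frc (Nat.add (Nat.mul a x) c) fun y => ih x fun l => k (y :: l)) p

/-- the coefficients in `t` of `p (a + t)` -/
noncomputable def sA (a : ℕ) (p : List ℕ) : (List ℕ → Bool) → Bool :=
  @List.rec ℕ (fun _ => (List ℕ → Bool) → Bool) (fun k => k [])
    (fun c _ ih k => ih fun r => @List.rec ℕ (fun _ => Bool) (k [c]) (fun x r' _ =>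
      frc (Nat.add (Nat.mul a x) c) fun y => mA a r' x fun l => k (y :: l)) r) p

/-- lower bound of `P - N` on `[0, h]`: `P_0 - y` -/
noncomputable def lwA (h : ℕ) (P : List ℕ) : List ℕ → (ℕ → ℕ → Bool) → Bool :=
  @List.rec ℕ (fun _ => List ℕ → (ℕ → ℕ → Bool) → Bool) (fun _ k => k (nat_lit 0) (nat_lit 0))
    (fun x _ ih N k => @List.rec ℕ (fun _ => Bool) false (fun y N' _ => ih N' fun x1 y1 =>
      frc (Nat.add y (Nat.mul (Nat.sub y1 x1) h)) fun y2 => k x y2) N) P

/-- `P - N ≥ E` on `[a, a + h]` -/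
noncomputable def pcA (P N : List ℕ) (E a h : ℕ) : Bool :=
  sA a P fun P' => sA a N fun N' => lwA h P' N' fun x y => Nat.ble (Nat.add y E) x

/-- with bisection -/
noncomputable def cvA (P N : List ℕ) (E : ℕ) (f : ℕ) : ℕ → ℕ → Bool :=
  @Nat.rec (fun _ => ℕ → ℕ → Bool) (fun a h => pcA P N E a h)
    (fun _ ih a h => cond (pcA P N E a h) true (frc (Nat.div h (nat_lit 2)) fun g => frc (Nat.add a g) fun b =>
      cond (Nat.beq (Nat.add g g) h) (cond (ih a g) (ih b g) false) false)) f

lemma mA_sound (a : ℕ) (p : List ℕ) : ∀ (c : ℕ) (k : List ℕ → Bool), mA a p c k = true →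
    ∃ r, k r = true ∧ r.length = p.length + 1 ∧ ∀ t : ℝ, evN' r t = c + (a + t) * evN' p t := by
  induction p with
  | nil => intro c k h; exact ⟨[c], h, rfl, fun t => by simp [evN']⟩
  | cons x p ih =>
    intro c k h
    have e : mA a (x :: p) c k = frc (Nat.add (Nat.mul a x) c) fun y => mA a p x fun l => k (y :: l) := rfl
    rw [e, frc_eq] at h
    obtain ⟨r, h1, h2, h3⟩ := ih x _ h
    refine ⟨_, h1, by simp [h2], fun t => ?_⟩
    show ((a * x + c : ℕ) : ℝ) + t * evN' r t = c + (a + t) * (x + t * evN' p t)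
    rw [h3]
    push_cast
    ring

lemma sA_sound (a : ℕ) (p : List ℕ) : ∀ (k : List ℕ → Bool), sA a p k = true →
    ∃ r, k r = true ∧ r.length = p.length ∧ ∀ t : ℝ, evN' r t = evN' p (a + t) := by
  induction p with
  | nil => intro k h; exact ⟨[], h, rfl, fun t => rfl⟩
  | cons c p ih =>
    intro k h
    have e : sA a (c :: p) k = sA a p fun r => @List.rec ℕ (fun _ => Bool) (k [c]) (fun x r' _ =>
      frc (Nat.add (Nat.mul a x) c) fun y => mA a r' x fun l => k (y :: l)) r := rfl
    rw [e] at h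
    obtain ⟨r, h1, h2, h3⟩ := ih _ h
    cases r with
    | nil =>
      have h4 : p = [] := List.eq_nil_of_length_eq_zero h2.symm
      subst h4
      exact ⟨[c], h1, rfl, fun t => by simp [evN']⟩
    | cons x r =>
      have h4 : frc (Nat.add (Nat.mul a x) c) (fun y => mA a r x fun l => k (y :: l)) = true := h1
      rw [frc_eq] at h4
      obtain ⟨r', h5, h6, h7⟩ := mA_sound a r x _ h4
      refine ⟨_, h5, by simp only [List.length_cons] at h2 ⊢; omega, fun t => ?_⟩
      show ((a * x + c : ℕ) : ℝ) + t * evN' r' t = c + (a + t) * evN' p (a + t)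
      rw [h7, ← h3]
      show ((a * x + c : ℕ) : ℝ) + t * (x + (a + t) * evN' r t) = c + (a + t) * (x + t * evN' r t)
      push_cast
      ring

lemma lwA_sound (h : ℕ) (P : List ℕ) : ∀ (N : List ℕ) (k : ℕ → ℕ → Bool), lwA h P N k = true → P.length = N.length →
    ∃ x y : ℕ, k x y = true ∧ ∀ t : ℝ, 0 ≤ t → t ≤ h → (x : ℝ) - y ≤ evN' P t - evN' N t := by
  induction P with
  | nil =>
    intro N k hk hl
    have : N = [] := List.eq_nil_of_length_eq_zero hl.symm
    subst this
    exact ⟨0, 0, hk, fun t _ _ => by simp [evN']⟩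
  | cons x P ih =>
    intro N k hk hl
    cases N with
    | nil => simp at hl
    | cons y N =>
      have e : lwA h (x :: P) (y :: N) k = lwA h P N fun x1 y1 =>
        frc (Nat.add y (Nat.mul (Nat.sub y1 x1) h)) fun y2 => k x y2 := rfl
      rw [e] at hk
      obtain ⟨x1, y1, h1, h2⟩ := ih N _ hk (by simpa using hl)
      rw [frc_eq] at h1
      refine ⟨x, _, h1, fun t ht0 ht1 => ?_⟩
      have h3 := h2 t ht0 ht1
      show (x : ℝ) - ((y + (y1 - x1) * h : ℕ) : ℝ) ≤ (x + t * evN' P t) - (y + t * evN' N t)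
      have h4 : ((y1 : ℝ) - x1) ≤ ((y1 - x1 : ℕ) : ℝ) := by
        rcases le_total x1 y1 with h5 | h5
        · rw [Nat.cast_sub h5]
        · have : (y1 : ℝ) ≤ x1 := by exact_mod_cast h5
          have h6 : (0 : ℝ) ≤ ((y1 - x1 : ℕ) : ℝ) := Nat.cast_nonneg _
          linarith
      have h6 : (0 : ℝ) ≤ ((y1 - x1 : ℕ) : ℝ) := Nat.cast_nonneg _
      rw [Nat.cast_add, Nat.cast_mul]
      generalize ((y1 - x1 : ℕ) : ℝ) = z at h4 h6 ⊢
      generalize evN' P t = A at h3 ⊢
      generalize evN' N t = B at h3 ⊢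
      have h7 : t * z ≤ h * z := mul_le_mul_of_nonneg_right ht1 h6
      have h8 : t * (-z) ≤ t * (A - B) := mul_le_mul_of_nonneg_left (by linarith) ht0
      nlinarith

lemma pcA_sound {P N : List ℕ} {E a h : ℕ} (hk : pcA P N E a h = true) (hl : P.length = N.length) :
    ∀ t : ℝ, a ≤ t → t ≤ a + h → (E : ℝ) ≤ evN' P t - evN' N t := by
  obtain ⟨P', h1, h2, h3⟩ := sA_sound a P _ hk
  obtain ⟨N', h4, h5, h6⟩ := sA_sound a N _ h1
  obtain ⟨x, y, h7, h8⟩ := lwA_sound h P' N' _ h4 (by omega)
  have h9 : y + E ≤ x := Nat.le_of_ble_eq_true h7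
  have h10 : (y : ℝ) + E ≤ x := by exact_mod_cast h9
  intro t ht0 ht1
  have h11 := h8 (t - a) (by linarith) (by linarith)
  rw [h3, h6, show (a : ℝ) + (t - a) = t by ring] at h11
  linarith

lemma cvA_sound {P N : List ℕ} {E : ℕ} (hl : P.length = N.length) (f : ℕ) : ∀ a h : ℕ, cvA P N E f a h = true →
    ∀ t : ℝ, a ≤ t → t ≤ a + h → (E : ℝ) ≤ evN' P t - evN' N t := by
  induction f with
  | zero => intro a h hk; exact pcA_sound hk hl
  | succ f ih =>
    intro a h hk
    have e : cvA P N E (f + 1) a h = cond (pcA P N E a h) true (frc (Nat.div h (nat_lit 2)) fun g =>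
      frc (Nat.add a g) fun b =>
      cond (Nat.beq (Nat.add g g) h) (cond (cvA P N E f a g) (cvA P N E f b g) false) false) := rfl
    rw [e] at hk
    cases c1 : pcA P N E a h with
    | true => exact pcA_sound c1 hl
    | false =>
      rw [c1, cond_false, frc_eq, frc_eq] at hk
      obtain ⟨h1, h2⟩ := cond_eq_true hk
      obtain ⟨h3, h4⟩ := cond_eq_true h2
      have h1 : h / 2 + h / 2 = h := Nat.eq_of_beq_eq_true h1
      have h1r : ((h / 2 : ℕ) : ℝ) + ((h / 2 : ℕ) : ℝ) = h := by exact_mod_cast h1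
      have h5 := ih _ _ h3
      have h6 := ih _ _ h4
      intro t ht0 ht1
      rcases le_total t (a + ((h / 2 : ℕ) : ℝ)) with h7 | h7
      · exact h5 t ht0 h7
      · refine h6 t ?_ ?_
        · show ((a + h / 2 : ℕ) : ℝ) ≤ t
          push_cast
          exact_mod_cast h7
        · show t ≤ ((a + h / 2 : ℕ) : ℝ) + ((h / 2 : ℕ) : ℝ)
          have : ((a + h / 2 : ℕ) : ℝ) = a + ((h / 2 : ℕ) : ℝ) := Nat.cast_add _ _
          rw [this]
          linarith

/-! ### the polynomial -/

/-- positive coefficients (times `M`, variable `512 s`) -/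
def PB1 : List ℕ :=
  [(nat_lit 0x120a98a73b0d3827edd0898000000000000000000000000000000000000000000000000000000000000000000000000000000000000),
  (nat_lit 0x3e9fe18c59cf0ea26378ea0f09b00941000000000000000000000000000000000000000000000000000000000000000000000000000),
  (nat_lit 0),
  (nat_lit 0x2caac5cd3a5c9e8a465179b2e2176c2b8000000000000000000000000000000000000000000000000000000000000000000000000),
  (nat_lit 0),
  (nat_lit 0x21f9205923d1ef56229b881e10ee08ed5680000000000000000000000000000000000000000000000000000000000000000000),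
  (nat_lit 0),
  (nat_lit 0x56c7d5c8201d1820b55b3d83aa9b2accae1000000000000000000000000000000000000000000000000000000000000000),
  (nat_lit 0),
  (nat_lit 0x59789e24d5e05f6fb26e2fcc9e83c81b65dc8000000000000000000000000000000000000000000000000000000000),
  (nat_lit 0),
  (nat_lit 0x3613582949e6c59c06bbe53eec4439ede290f00000000000000000000000000000000000000000000000000000),
  (nat_lit 0),
  (nat_lit 0x1665f1ffe8afc1c5433fcb5cf1c327659912d9000000000000000000000000000000000000000000000000),
  (nat_lit 0),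
  (nat_lit 0x6d7ae526bbe1e561efecfee009780fe85cb1e20000000000000000000000000000000000000000000),
  (nat_lit 0),
  (nat_lit 0x19c684603cd9cdd555b55a15f4a3374fe87257080000000000000000000000000000000000000),
  (nat_lit 0),
  (nat_lit 0x4d2fec98ac2d73a3ebbcbbdb32eba95ee351aa3000000000000000000000000000000000),
  (nat_lit 0),
  (nat_lit 0xbc3261c833fbfb9603d7fde1beeb1737149a12b0000000000000000000000000000),
  (nat_lit 0),
  (nat_lit 0x17cdc3f55896a4ea657de057866cfbbcf5ce6e8e00000000000000000000000),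
  (nat_lit 0),
  (nat_lit 0x28a00cfd4e946b1c8dcac02f98fc1514e0fa1f75000000000000000000),
  (nat_lit 0),
  (nat_lit 0x3b42740926a735073f1f51368768a0bb3853d7560000000000000),
  (nat_lit 0),
  (nat_lit 0x4abb36fd071b17745b2fc22a15ce1adf21d5894200000000),
  (nat_lit 0),
  (nat_lit 0x5248e882ea2df85b3bd9ec845e1f25190457e744000),
  (nat_lit 0)]

/-- negative coefficients -/
def NB1 : List ℕ :=
  [(nat_lit 0),
  (nat_lit 0),
  (nat_lit 0x54342377d6c2e3dbbe5393f80ba870c000000000000000000000000000000000000000000000000000000000000000000000000000),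
  (nat_lit 0),
  (nat_lit 0xc73a87eccebe1721a5af3971c2e5a82250000000000000000000000000000000000000000000000000000000000000000000000),
  (nat_lit 0),
  (nat_lit 0x3f0278b4a9f64fc961178f6f217ffa01e2e00000000000000000000000000000000000000000000000000000000000000000),
  (nat_lit 0),
  (nat_lit 0x5fbaf810f2500a104dbc02e3e2bf36ef5fc1000000000000000000000000000000000000000000000000000000000000),
  (nat_lit 0),
  (nat_lit 0x4969db37c3975cceead2ccca2dfe3fc97414a0000000000000000000000000000000000000000000000000000000),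
  (nat_lit 0),
  (nat_lit 0x2447f4a2e74785a12da9f5333a43015dedd20a00000000000000000000000000000000000000000000000000),
  (nat_lit 0),
  (nat_lit 0xcd1c7557fffaaa671c94b7c482455aa92e987c000000000000000000000000000000000000000000000),
  (nat_lit 0),
  (nat_lit 0x36c30c36c09203dbf7650bbe013390e5cc538f10000000000000000000000000000000000000000),
  (nat_lit 0),
  (nat_lit 0xb74f79d5d6a8eae6a16bcfb2bbde232f843f43200000000000000000000000000000000000),
  (nat_lit 0),
  (nat_lit 0x1ee02ac627530fc64f9b9b637fb7687c718c710e000000000000000000000000000000),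
  (nat_lit 0),
  (nat_lit 0x446f8560ec8d247b3159a05d9064ccd23957dd840000000000000000000000000),
  (nat_lit 0),
  (nat_lit 0x7ef4221939ad265f5f5c08998cbd1030a35a24da00000000000000000000),
  (nat_lit 0),
  (nat_lit 0xc80045102b92a5a4716428030765c7a465af6c24000000000000000),
  (nat_lit 0),
  (nat_lit 0x10ee6a67785f94a87264e2ab7a36193d8fa6118f40000000000),
  (nat_lit 0),
  (nat_lit 0x13eda84ba0ee455468faf599445f2420a8d4a027800000),
  (nat_lit 0),
  (nat_lit 0x14923a22d545bee94fbda00eb0f0f36212115f9d1)]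

theorem cvB : cvA PB1 NB1 (nat_lit 116042362844707401978225736871919815312238432002930619719158359592665480535217193225341331950734118115584798504875403894237867) (nat_lit 9) (nat_lit 0) (nat_lit 256) = true := by decide +kernel

/-- upper bound of the sums `Ls` -/
noncomputable def Gp (s : ℝ) : ℝ := s - s ^ 2 / 6 + s ^ 3 / 42 - s ^ 4 / 360 + s ^ 5 / 3720 - s ^ 6 / 45360 + s ^ 7 / 640080
  - s ^ 8 / 10281600 + s ^ 9 / 185431680 + s ^ 10 / 1856131200

lemma identB (s : ℝ) : (16283470147712848850763306593890932902368606238732241007860864707908567985804795590725240660526699753710747435843756144772251648000000000 : ℝ)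
    * (3 / 10 ^ 9 + 524668399482 / 2 ^ 40 * s
      + ∑ j ∈ range 5, (uR j - 1) * (1 - ∑ k ∈ range 33, (-(2 ^ j * s)) ^ k / (k.factorial : ℝ)) - Gp s)
      = evN' PB1 (512 * s) - evN' NB1 (512 * s) := by
  unfold Gp
  simp only [evN', PB1, NB1, uR, uN, sum_range_succ, sum_range_zero, List.getD_cons_zero, List.getD_cons_succ, Nat.factorial]
  push_cast
  ring

lemma exp_taylor (x : ℝ) (n : ℕ) (h : |x| / (n.succ : ℝ) ≤ 1 / 2) :
    |Real.exp x - ∑ m ∈ range n, x ^ m / (m.factorial : ℝ)| ≤ |x| ^ n / (n.factorial : ℝ) * 2 := by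
  have h1 := Complex.exp_bound' (x := (x : ℂ)) (n := n) (by rw [Complex.norm_real, Real.norm_eq_abs]; exact h)
  have h2 : Complex.exp (x : ℂ) - ∑ m ∈ range n, (x : ℂ) ^ m / (m.factorial : ℂ)
      = ((Real.exp x - ∑ m ∈ range n, x ^ m / (m.factorial : ℝ) : ℝ) : ℂ) := by
    push_cast
    rfl
  rw [h2, Complex.norm_real, Complex.norm_real, Real.norm_eq_abs, Real.norm_eq_abs] at h1
  exact h1

lemma Gp_step (s : ℝ) (h0 : 0 ≤ s) (h1 : s ≤ 1 / 2) : 1 - Real.exp (-(s / 2)) ≤ Gp s - Gp (s / 2) := by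
  have h2 := exp_taylor (-(s / 2)) 10 (by
    rw [abs_neg, abs_of_nonneg (by linarith), div_le_iff₀ (by positivity)]
    push_cast
    linarith)
  have h3 := (abs_le.mp h2).1
  rw [abs_neg, abs_of_nonneg (by linarith : (0 : ℝ) ≤ s / 2)] at h3
  have h4 : Gp s - Gp (s / 2) = 1 - ∑ m ∈ range 10, (-(s / 2)) ^ m / (m.factorial : ℝ)
      + (s / 2) ^ 10 / ((10 : ℕ).factorial : ℝ) * 2 := by
    unfold Gp
    simp only [sum_range_succ, sum_range_zero, Nat.factorial]
    push_cast
    ring
  rw [h4]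
  linarith

lemma Gp_nonneg (s : ℝ) (h0 : 0 ≤ s) (h1 : s ≤ 1 / 2) : 0 ≤ Gp s := by
  have e : Gp s = s * (1 - s / 6) + s ^ 3 * (1 / 42 - s / 360) + s ^ 5 * (1 / 3720 - s / 45360)
      + s ^ 7 * (1 / 640080 - s / 10281600) + s ^ 9 / 185431680 + s ^ 10 / 1856131200 := by
    unfold Gp
    ring
  rw [e]
  have h2 : 0 ≤ 1 - s / 6 := by linarith
  have h3 : 0 ≤ 1 / 42 - s / 360 := by linarith
  have h4 : 0 ≤ 1 / 3720 - s / 45360 := by linarith
  have h5 : 0 ≤ 1 / 640080 - s / 10281600 := by linarith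
  positivity

lemma Ls_le (N : ℕ) (s : ℝ) (h0 : 0 ≤ s) (h1 : s ≤ 1 / 2) : Ls N s ≤ Gp s - Gp (s / 2 ^ N) := by
  induction N with
  | zero => simp [Ls]
  | succ N ih =>
    unfold Ls at ih ⊢
    rw [sum_range_succ]
    have h2 : (1 : ℝ) ≤ 2 ^ N := one_le_pow₀ (by norm_num)
    have h3 := Gp_step (s / 2 ^ N) (by positivity) ((div_le_self h0 h2).trans h1)
    have h4 : s / 2 ^ N / 2 = s / 2 ^ (N + 1) := by
      rw [pow_succ]
      field_simp
    rw [h4] at h3
    linarith

/-- (B) -/
theorem pB : PB := by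
  intro N s h0 h1
  have hG := Ls_le N s h0 h1
  have h2N : (1 : ℝ) ≤ 2 ^ N := one_le_pow₀ (by norm_num)
  have hG0 := Gp_nonneg (s / 2 ^ N) (by positivity) ((div_le_self h0 h2N).trans h1)
  have hQ := cvA_sound (P := PB1) (N := NB1) rfl _ _ _ cvB (512 * s) (by push_cast; linarith) (by push_cast; linarith)
  rw [← identB s] at hQ
  -- the exponentials
  have hj : ∀ j ∈ range 5, (uR j - 1) * (1 - ∑ k ∈ range 33, (-(2 ^ j * s)) ^ k / (k.factorial : ℝ))
      - |uR j - 1| * ((2 ^ j / 2) ^ 33 / ((33 : ℕ).factorial : ℝ) * 2) ≤ (uR j - 1) * (1 - Real.exp (-(2 ^ j * s))) := by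
    intro j hj
    rw [mem_range] at hj
    have hx0 : 0 ≤ 2 ^ j * s := by positivity
    have hx1 : 2 ^ j * s ≤ 2 ^ j / 2 := by
      have : (0 : ℝ) < 2 ^ j := by positivity
      nlinarith
    have hx2 : (2 : ℝ) ^ j / 2 ≤ 8 := by
      have : (2 : ℝ) ^ j ≤ 2 ^ 4 := pow_le_pow_right₀ (by norm_num) (by omega)
      linarith
    have h3 := exp_taylor (-(2 ^ j * s)) 33 (by
      rw [abs_neg, abs_of_nonneg hx0, div_le_iff₀ (by positivity)]
      push_cast
      linarith)
    rw [abs_neg, abs_of_nonneg hx0] at h3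
    have h4 : (2 ^ j * s) ^ 33 / ((33 : ℕ).factorial : ℝ) * 2 ≤ (2 ^ j / 2) ^ 33 / ((33 : ℕ).factorial : ℝ) * 2 := by
      have : (2 ^ j * s) ^ 33 ≤ (2 ^ j / 2 : ℝ) ^ 33 := pow_le_pow_left₀ hx0 hx1 33
      gcongr
    have h5 := h3.trans h4
    generalize Real.exp (-(2 ^ j * s)) = e at h5 ⊢
    generalize ∑ k ∈ range 33, (-(2 ^ j * s)) ^ k / (k.factorial : ℝ) = T at h5 ⊢
    generalize (2 ^ j / 2 : ℝ) ^ 33 / ((33 : ℕ).factorial : ℝ) * 2 = w at h5 ⊢
    have h6 : |(uR j - 1) * (e - T)| ≤ |uR j - 1| * w := by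
      rw [abs_mul]
      exact mul_le_mul_of_nonneg_left h5 (abs_nonneg _)
    have h7 := (abs_le.mp h6).2
    nlinarith
  have hs := sum_le_sum hj
  rw [sum_sub_distrib] at hs
  have herr : ∑ j ∈ range 5, |uR j - 1| * ((2 ^ j / 2 : ℝ) ^ 33 / ((33 : ℕ).factorial : ℝ) * 2)
      ≤ (116042362844707401978225736871919815312238432002930619719158359592665480535217193225341331950734118115584798504875403894237867 : ℝ) / 16283470147712848850763306593890932902368606238732241007860864707908567985804795590725240660526699753710747435843756144772251648000000000 := by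
    have a0 : |uR 0 - 1| ≤ 1 := by
      rw [abs_le]
      constructor <;> norm_num [uR, uN]
    have a1 : |uR 1 - 1| ≤ 1 := by
      rw [abs_le]
      constructor <;> norm_num [uR, uN]
    have a2 : |uR 2 - 1| ≤ 1 := by
      rw [abs_le]
      constructor <;> norm_num [uR, uN]
    have a3 : |uR 3 - 1| ≤ 1 := by
      rw [abs_le]
      constructor <;> norm_num [uR, uN]
    have a4 : |uR 4 - 1| ≤ 4437752069 / 10 ^ 14 := by
      rw [abs_le]
      constructor <;> norm_num [uR, uN]
    simp only [sum_range_succ, sum_range_zero, zero_add]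
    refine (add_le_add (add_le_add (add_le_add (add_le_add
      (mul_le_mul_of_nonneg_right a0 (by positivity)) (mul_le_mul_of_nonneg_right a1 (by positivity)))
      (mul_le_mul_of_nonneg_right a2 (by positivity))) (mul_le_mul_of_nonneg_right a3 (by positivity)))
      (mul_le_mul_of_nonneg_right a4 (by positivity))).trans ?_
    norm_num [Nat.factorial]
  have hQ2 : ((116042362844707401978225736871919815312238432002930619719158359592665480535217193225341331950734118115584798504875403894237867 : ℝ) / 16283470147712848850763306593890932902368606238732241007860864707908567985804795590725240660526699753710747435843756144772251648000000000)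
      ≤ 3 / 10 ^ 9 + 524668399482 / 2 ^ 40 * s
      + ∑ j ∈ range 5, (uR j - 1) * (1 - ∑ k ∈ range 33, (-(2 ^ j * s)) ^ k / (k.factorial : ℝ)) - Gp s := by
    rw [div_le_iff₀ (by norm_num), mul_comm]
    refine le_trans (le_of_eq ?_) hQ
    norm_num
  linarith

end RE
end Pool.Agent.Lib.MP_6947cd_al
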