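import Pool.Agent.Lib.MP_6947cd_al.L.CellBQ

/-!
Problem MP_6947cd_al (Chollet).  CASE B, rows `j`: tables of row values (generated).
-/

set_option autoImplicit false
set_option linter.defProp false
set_option maxRecDepth 20000

namespace Pool.Agent.Lib.MP_6947cd_al
namespace CB

open Ent Ent.Pk Fr Fr.WT CA

def f192_0_600 : FT := (FT.cons (FT.cons (FT.cons (FT.leaf [(nat_lit 4539205), (nat_lit 4636622), (nat_lit 4741945), (nat_lit 4853478), (nat_lit 4969996), (nat_lit 5090562), (nat_lit 5214428), (nat_lit 5340984), (nat_lit 5469720), (nat_lit 5600207), (nat_lit 5732075), (nat_lit 5865012), (nat_lit 5998740), (nat_lit 6133022), (nat_lit 6267652), (nat_lit 6402446), (nat_lit 6537245), (nat_lit 6671910), (nat_lit 6806318)]) (FT.cons (FT.leaf [(nat_lit 4784647), (nat_lit 4892736), (nat_lit 5006462), (nat_lit 5124686), (nat_lit 5246539), (nat_lit 5371332), (nat_lit 5498503), (nat_lit 5627582), (nat_lit 5758175), (nat_lit 5889945),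 (nat_lit 6022600), (nat_lit 6155891), (nat_lit 6289600), (nat_lit 6423535), (nat_lit 6557532), (nat_lit 6691445), (nat_lit 6825146), (nat_lit 6958525)]) (FT.cons (FT.leaf [(nat_lit 5044845), (nat_lit 5160318), (nat_lit 5279869), (nat_lit 5402686), (nat_lit 5528128), (nat_lit 5655673), (nat_lit 5784889), (nat_lit 5915410), (nat_lit 6046927), (nat_lit 6179170), (nat_lit 6311912), (nat_lit 6444950), (nat_lit 6578110), (nat_lit 6711241), (nat_lit 6844210), (nat_lit 6976900)]) (FT.cons (FT.leaf [(nat_lit 5314674), (nat_lit 5435231), (nat_lit 5558735), (nat_lit 5684587), (nat_lit 5812302),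
 (nat_lit 5941477), (nat_lit 6071775), (nat_lit 6202906), (nat_lit 6334626), (nat_lit 6466721), (nat_lit 6599008), (nat_lit 6731324), (nat_lit 6863531), (nat_lit 6995508)]) (FT.cons (FT.leaf [(nat_lit 5590507), (nat_lit 5714461), (nat_lit 5840520), (nat_lit 5968228), (nat_lit 6097210), (nat_lit 6227152), (nat_lit 6357787), (nat_lit 6488886), (nat_lit 6620253), (nat_lit 6751717), (nat_lit 6883133), (nat_lit 7014368)]) (FT.cons (FT.leaf [(nat_lit 5869677), (nat_lit 5995766), (nat_lit 6123315), (nat_lit 6251972), (nat_lit 6381446), (nat_lit 6511487), (nat_lit 6641884), (nat_lit 6772454), (nat_lit 6903039), (nat_lit 7033504)]) (FT.cons (FT.leaf [(nat_lit 6150189), (nat_lit 6277447), (nat_lit 6405668), (nat_lit 6534577), (nat_lit 6663943), (nat_lit 6793567), (nat_lit 6923280), (nat_lit 7052938)]) (FT.cons (FT.leaf [(nat_lit 6430530), (nat_lit 6558218), (nat_lit 6686479), (nat_lit 6815098), (nat_lit 6943891), (nat_lit 7072699)]) (FT.cons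 (FT.leaf [(nat_lit 6709555), (nat_lit 6837098), (nat_lit 6964911), (nat_lit 7092822)]) (FT.cons (FT.leaf [(nat_lit 6986391), (nat_lit 7113348)]) (FT.cons (FT.leaf [(nat_lit 7260381)]) (FT.cons (FT.leaf [(nat_lit 7531034)]) (FT.cons (FT.leaf [(nat_lit
 7797990)]) (FT.cons (FT.leaf [(nat_lit 8060988)]) FT.nil)))))))))))))) (FT.cons (FT.cons (FT.leaf [(nat_lit 5089126), (nat_lit 5197748), (nat_lit 5311582), (nat_lit 5429520), (nat_lit 5550731), (nat_lit 5674564), (nat_lit 5800491), (nat_lit 5928077), (nat_lit 6056959), (nat_lit 6186826), (nat_lit 6317416), (nat_lit 6448498), (nat_lit 6579877), (nat_lit 6711382), (nat_lit 6842862), (nat_lit 6974187), (nat_lit 7105242)]) (FT.cons (FT.leaf [(nat_lit 5348943), (nat_lit 5464131), (nat_lit 5583050), (nat_lit 5704924), (nat_lit 5829145), (nat_lit 5955222), (nat_lit 6082754), (nat_lit 6211402), (nat_lit 6340880), (nat_lit 6470944), (nat_lit 6601384), (nat_lit 6732019), (nat_lit 6862690),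 (nat_lit 6993261), (nat_lit 7123611), (nat_lit 7253636)]) (FT.cons (FT.leaf [(nat_lit 5616825), (nat_lit 5736458), (nat_lit 5858764), (nat_lit 5983176), (nat_lit 6109236), (nat_lit 6236566), (nat_lit 6364856), (nat_lit 6493838), (nat_lit 6623286), (nat_lit 6753007), (nat_lit 6882832), (nat_lit 7012616), (nat_lit 7142232), (nat_lit 7271569)]) (FT.cons (FT.leaf [(nat_lit 5889532), (nat_lit 6012075), (nat_lit 6136508), (nat_lit 6262403), (nat_lit 6389409), (nat_lit 6517232), (nat_lit 6645626), (nat_lit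
 6774381), (nat_lit 6903316), (nat_lit 7032277), (nat_lit 7161127), (nat_lit 7289752)]) (FT.cons (FT.leaf [(nat_lit 6164704), (nat_lit 6289013), (nat_lit 6414618), (nat_lit 6541190), (nat_lit 6668455), (nat_lit 6796184), (nat_lit 6924178), (nat_lit 7052273), (nat_lit 7180322), (nat_lit 7308201)]) (FT.cons (FT.leaf [(nat_lit 6440583), (nat_lit 6565790), (nat_lit 6691837), (nat_lit 6818465), (nat_lit 6945460), (nat_lit 7072639), (nat_lit 7199845), (nat_lit 7326945)]) (FT.cons (FT.leaf [(nat_lit 6715846), (nat_lit 6841286), (nat_lit 6967210), (nat_lit 7093416), (nat_lit 7219731), (nat_lit 7346010)]) (FT.cons (FT.leaf [(nat_lit 6989489), (nat_lit 7114651), (nat_lit 7240018), (nat_lit 7365430)]) (FT.cons (FT.leaf [(nat_lit 7260755), (nat_lit 7385244)]) (FT.cons (FT.leaf [(nat_lit 7529074)]) (FT.cons (FT.leaf [(nat_lit 7794024)]) (FT.cons (FT.leaf [(nat_lit 8055294)]) (FT.cons (FT.leaf [(nat_lit 8312664)]) FT.nil))))))))))))) (FT.cons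 (FT.cons (FT.leaf [(nat_lit 5648014), (nat_lit 5762537), (nat_lit 5880497), (nat_lit 6001149), (nat_lit 6123914), (nat_lit 6248332), (nat_lit 6374024), (nat_lit 6500678), (nat_lit 6628028), (nat_lit 6755849), (nat_lit 6883950), (nat_lit 7012162), (nat_lit
 7140344), (nat_lit 7268370), (nat_lit 7396131)]) (FT.cons (FT.leaf [(nat_lit 5913238), (nat_lit 6031680), (nat_lit 6152565), (nat_lit 6275349), (nat_lit 6399603), (nat_lit 6524972), (nat_lit 6651165), (nat_lit 6777936), (nat_lit 6905074), (nat_lit 7032403), (nat_lit 7159768), (nat_lit 7287034), (nat_lit 7414087), (nat_lit 7540829)]) (FT.cons (FT.leaf [(nat_lit 6182343), (nat_lit 6303295), (nat_lit 6425958), (nat_lit 6549926), (nat_lit 6674869), (nat_lit 6800513), (nat_lit 6926629), (nat_lit 7053022), (nat_lit 7179526), (nat_lit 7305997), (nat_lit 7432313), (nat_lit 7558366)]) (FT.cons (FT.leaf [(nat_lit 6453220), (nat_lit 6575639), (nat_lit 6699217), (nat_lit 6823644), (nat_lit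 6948664), (nat_lit 7074062), (nat_lit 7199655), (nat_lit 7325290), (nat_lit 7450831), (nat_lit 7576166)]) (FT.cons (FT.leaf [(nat_lit 6724306), (nat_lit 6847405), (nat_lit 6971240), (nat_lit 7095571), (nat_lit 7220196), (nat_lit 7344944), (nat_lit 7469672), (nat_lit 7594254)]) (FT.cons (FT.leaf [(nat_lit 6994432), (nat_lit 7117609), (nat_lit 7241197), (nat_lit 7365002), (nat_lit 7488868), (nat_lit 7612658)]) (FT.cons (FT.leaf [(nat_lit 7262715), (nat_lit 7385509), (nat_lit 7508458), (nat_lit 7631410)])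
 (FT.cons (FT.leaf [(nat_lit 7528489), (nat_lit 7650547)]) (FT.cons (FT.leaf [(nat_lit 7791258)]) (FT.cons (FT.leaf [(nat_lit 8050654)]) (FT.cons (FT.leaf [(nat_lit 8306408)]) FT.nil))))))))))) (FT.cons (FT.cons (FT.leaf [(nat_lit 6203677), (nat_lit 6320735), (nat_lit 6440037), (nat_lit 6561066), (nat_lit 6683413), (nat_lit 6806747), (nat_lit 6930793), (nat_lit 7055323), (nat_lit 7180141), (nat_lit 7305082), (nat_lit 7430006)]) (FT.cons (FT.leaf [(nat_lit 6468851), (nat_lit 6588088), (nat_lit 6708883), (nat_lit 6830852), (nat_lit 6953683), (nat_lit 7077119), (nat_lit 7200947), (nat_lit 7324982), (nat_lit 7449074), (nat_lit 7573088)]) (FT.cons (FT.leaf [(nat_lit 6735243), (nat_lit 6855701), (nat_lit 6977205), (nat_lit 7099459), (nat_lit 7222223), (nat_lit 7345296), (nat_lit 7468506), (nat_lit 7591712)]) (FT.cons (FT.leaf [(nat_lit 7001454), (nat_lit 7122416), (nat_lit 7244030), (nat_lit 7366069), (nat_lit 7488342), (nat_lit 7610691)])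 (FT.cons (FT.leaf [(nat_lit 7266441), (nat_lit 7387361), (nat_lit 7508628), (nat_lit 7630065)]) (FT.cons (FT.leaf [(nat_lit 7529422), (nat_lit 7649879)]) (FT.cons (FT.leaf [(nat_lit 7789808)]) (FT.cons (FT.leaf [(nat_lit 8047162)]) (FT.cons (FT.leaf
 [(nat_lit 8301162)]) (FT.cons (FT.leaf [(nat_lit 8551576)]) FT.nil)))))))))) (FT.cons (FT.cons (FT.leaf [(nat_lit 6749051), (nat_lit 6866490), (nat_lit 6985358), (nat_lit 7105288), (nat_lit 7225986), (nat_lit 7347208), (nat_lit 7468756), (nat_lit 7590457), (nat_lit 7712169)]) (FT.cons (FT.leaf [(nat_lit 7010849), (nat_lit 7129309), (nat_lit 7248716), (nat_lit 7368793), (nat_lit 7489310), (nat_lit 7610078), (nat_lit 7730939), (nat_lit 7851757)]) (FT.cons (FT.leaf [(nat_lit 7272161), (nat_lit 7390982), (nat_lit 7510383), (nat_lit 7630150), (nat_lit 7750104), (nat_lit 7870095)]) (FT.cons (FT.leaf [(nat_lit 7532049), (nat_lit 7650731), (nat_lit 7769710), (nat_lit 7888819)]) (FT.cons (FT.leaf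 [(nat_lit 7789814), (nat_lit 7907975)]) (FT.cons (FT.leaf [(nat_lit 8044934)]) (FT.cons (FT.leaf [(nat_lit 8297019)]) (FT.cons (FT.leaf [(nat_lit 8545787)]) FT.nil)))))))) (FT.cons (FT.cons (FT.leaf [(nat_lit 7280158), (nat_lit 7396603), (nat_lit 7513913), (nat_lit 7631823), (nat_lit 7750115), (nat_lit 7868614), (nat_lit 7987167)]) (FT.cons (FT.leaf [(nat_lit 7536588), (nat_lit 7653279), (nat_lit 7770491), (nat_lit 7888019), (nat_lit 8005695), (nat_lit 8123377)]) (FT.cons (FT.leaf [(nat_lit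
 7791446), (nat_lit 7907922), (nat_lit 8024655), (nat_lit 8141483)]) (FT.cons (FT.leaf [(nat_lit 8044102), (nat_lit 8160013)]) (FT.cons (FT.leaf [(nat_lit 8294088)]) (FT.cons (FT.leaf [(nat_lit 8541056)]) FT.nil)))))) (FT.cons (FT.cons (FT.leaf [(nat_lit 7794914), (nat_lit 7909499), (nat_lit 8024554)]) (FT.cons (FT.leaf [(nat_lit 8044832), (nat_lit 8159143)]) (FT.cons (FT.leaf [(nat_lit 8292499)]) (FT.cons (FT.leaf [(nat_lit 8537491)]) FT.nil)))) (FT.cons (FT.cons (FT.leaf [(nat_lit 8292410)]) (FT.cons (FT.leaf [(nat_lit 8535214)]) FT.nil)) (FT.cons (FT.cons (FT.leaf [(nat_lit 8772458)]) FT.nil) (FT.cons (FT.cons (FT.leaf [(nat_lit 9235311)]) FT.nil) (FT.cons (FT.cons (FT.leaf [(nat_lit 9681485)]) FT.nil) FT.nil))))))))))) (FT.cons (FT.cons (FT.cons (FT.leaf [(nat_lit 5883961), (nat_lit 5986415), (nat_lit 6093600), (nat_lit 6204487), (nat_lit 6318311), (nat_lit 6434477), (nat_lit 6552507), (nat_lit 6672014), (nat_lit 6792672),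 (nat_lit 6914207), (nat_lit 7036388), (nat_lit 7159013), (nat_lit 7281912), (nat_lit 7404933), (nat_lit 7527947), (nat_lit 7650839), (nat_lit 7773511)]) (FT.cons (FT.leaf [(nat_lit 6128081), (nat_lit 6236374), (nat_lit 6348045), (nat_lit 6462377), (nat_lit
 6578817), (nat_lit 6696922), (nat_lit 6816330), (nat_lit 6936741), (nat_lit 7057901), (nat_lit 7179593), (nat_lit 7301632), (nat_lit 7423860), (nat_lit 7546136), (nat_lit 7668342), (nat_lit 7790373), (nat_lit 7912135)]) (FT.cons (FT.leaf [(nat_lit 6379149), (nat_lit 6491384), (nat_lit 6606038), (nat_lit 6722594), (nat_lit 6840638), (nat_lit 6959833), (nat_lit 7079897), (nat_lit 7200595), (nat_lit 7321726), (nat_lit 7443117), (nat_lit 7564622), (nat_lit 7686113), (nat_lit 7807476), (nat_lit 7928616)]) (FT.cons (FT.leaf [(nat_lit 6634340), (nat_lit 6749157), (nat_lit 6865693), (nat_lit 6983559), (nat_lit 7102439), (nat_lit 7222071), (nat_lit 7342235), (nat_lit 7462742), (nat_lit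 7583435), (nat_lit 7704173), (nat_lit 7824840), (nat_lit 7945331)]) (FT.cons (FT.leaf [(nat_lit 6891618), (nat_lit 7008015), (nat_lit 7125601), (nat_lit 7244081), (nat_lit 7363206), (nat_lit 7482773), (nat_lit 7602605), (nat_lit 7722553), (nat_lit 7842489), (nat_lit 7962301)]) (FT.cons (FT.leaf [(nat_lit 7149477), (nat_lit 7266697), (nat_lit 7384700), (nat_lit 7503257), (nat_lit 7622172), (nat_lit 7741283), (nat_lit 7860450), (nat_lit 7979551)]) (FT.cons (FT.leaf [(nat_lit 7406788), (nat_lit 7524251),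
 (nat_lit 7642184), (nat_lit 7760402), (nat_lit 7878754), (nat_lit 7997106)]) (FT.cons (FT.leaf [(nat_lit 7662695), (nat_lit 7779956), (nat_lit 7897439), (nat_lit 8014997)]) (FT.cons (FT.leaf [(nat_lit 7916549), (nat_lit 8033262)]) (FT.cons (FT.leaf [(nat_lit 8167859)]) (FT.cons (FT.leaf [(nat_lit 8416256)]) (FT.cons (FT.leaf [(nat_lit 8661466)]) FT.nil)))))))))))) (FT.cons (FT.cons (FT.leaf [(nat_lit 6406035), (nat_lit 6513597), (nat_lit 6624294), (nat_lit 6737440), (nat_lit 6852506), (nat_lit 6969073), (nat_lit 7086801), (nat_lit 7205408), (nat_lit 7324658), (nat_lit 7444349), (nat_lit 7564312), (nat_lit 7684398), (nat_lit 7804481), (nat_lit 7924448), (nat_lit 8044207)]) (FT.cons (FT.leaf [(nat_lit 6654465), (nat_lit 6765549), (nat_lit 6878864), (nat_lit 6993917), (nat_lit 7110314), (nat_lit 7227736), (nat_lit 7345921), (nat_lit 7464648), (nat_lit 7583729), (nat_lit 7703007), (nat_lit 7822343), (nat_lit 7941619), (nat_lit 8060732),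 (nat_lit 8179594)]) (FT.cons (FT.leaf [(nat_lit 6906287), (nat_lit 7019636), (nat_lit 7134559), (nat_lit 7250687), (nat_lit 7367720), (nat_lit 7485411), (nat_lit 7603554), (nat_lit 7721975), (nat_lit 7840525), (nat_lit 7959075), (nat_lit 8077515),
 (nat_lit 8195750)]) (FT.cons (FT.leaf [(nat_lit 7159661), (nat_lit 7274355), (nat_lit 7390127), (nat_lit 7506698), (nat_lit 7623833), (nat_lit 7741341), (nat_lit 7859058), (nat_lit 7976842), (nat_lit 8094577), (nat_lit 8212156)]) (FT.cons (FT.leaf [(nat_lit 7413235), (nat_lit 7528580), (nat_lit 7644625), (nat_lit 7761152), (nat_lit 7877980), (nat_lit 7994954), (nat_lit 8111943), (nat_lit 8228837)]) (FT.cons (FT.leaf [(nat_lit 7665998), (nat_lit 7781465), (nat_lit 7897338), (nat_lit 8013447), (nat_lit 8129648), (nat_lit 8245817)]) (FT.cons (FT.leaf [(nat_lit 7917186), (nat_lit 8032367), (nat_lit 8147726), (nat_lit 8263126)]) (FT.cons (FT.leaf [(nat_lit 8166221), (nat_lit 8280802)]) (FT.cons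 (FT.leaf [(nat_lit 8412667)]) (FT.cons (FT.leaf [(nat_lit 8656199)]) (FT.cons (FT.leaf [(nat_lit 8896576)]) FT.nil))))))))))) (FT.cons (FT.cons (FT.leaf [(nat_lit 6924393), (nat_lit 7034191), (nat_lit 7146059), (nat_lit 7259522), (nat_lit 7374206), (nat_lit 7489810), (nat_lit 7606087), (nat_lit 7722829), (nat_lit 7839863), (nat_lit 7957038), (nat_lit 8074226)]) (FT.cons (FT.leaf [(nat_lit 7172627), (nat_lit 7284426), (nat_lit 7397674), (nat_lit 7512018), (nat_lit 7627175), (nat_lit 7742912),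
 (nat_lit 7859035), (nat_lit 7975380), (nat_lit 8091807), (nat_lit 8208200)]) (FT.cons (FT.leaf [(nat_lit 7421981), (nat_lit 7534928), (nat_lit 7648859), (nat_lit 7763507), (nat_lit 7878652), (nat_lit 7994112), (nat_lit 8109733), (nat_lit 8225384)]) (FT.cons (FT.leaf [(nat_lit 7671231), (nat_lit 7784686), (nat_lit 7898772), (nat_lit 8013281), (nat_lit 8128041), (nat_lit 8242908)]) (FT.cons (FT.leaf [(nat_lit 7919463), (nat_lit 8032942), (nat_lit 8146776), (nat_lit 8260805)]) (FT.cons (FT.leaf [(nat_lit 8165993), (nat_lit 8279121)]) (FT.cons (FT.leaf [(nat_lit 8410301)]) (FT.cons (FT.leaf [(nat_lit 8651999)]) (FT.cons (FT.leaf [(nat_lit 8890799)]) (FT.cons (FT.leaf [(nat_lit 9126486)]) FT.nil)))))))))) (FT.cons (FT.cons (FT.leaf [(nat_lit 7433399), (nat_lit 7543592), (nat_lit 7655124), (nat_lit 7767661), (nat_lit 7880932), (nat_lit 7994718), (nat_lit 8108833), (nat_lit 8223125), (nat_lit 8337462)]) (FT.cons (FT.leaf [(nat_lit 7678670),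 (nat_lit 7789846), (nat_lit 7901925), (nat_lit 8014653), (nat_lit 8127819), (nat_lit 8241254), (nat_lit 8354810), (nat_lit 8468366)]) (FT.cons (FT.leaf [(nat_lit 7923592), (nat_lit 8035160), (nat_lit 8147298), (nat_lit 8259810), (nat_lit 8372532),
 (nat_lit 8485329)]) (FT.cons (FT.leaf [(nat_lit 8167338), (nat_lit 8278849), (nat_lit 8390674), (nat_lit 8502658)]) (FT.cons (FT.leaf [(nat_lit 8409287), (nat_lit 8520398)]) (FT.cons (FT.leaf [(nat_lit 8648973)]) (FT.cons (FT.leaf [(nat_lit 8886046)]) (FT.cons (FT.leaf [(nat_lit 9120248)]) FT.nil)))))))) (FT.cons (FT.cons (FT.leaf [(nat_lit 7929840), (nat_lit 8039238), (nat_lit 8149470), (nat_lit 8260290), (nat_lit 8371501), (nat_lit 8482939), (nat_lit 8594468)]) (FT.cons (FT.leaf [(nat_lit 8170462), (nat_lit 8280156), (nat_lit 8390369), (nat_lit 8500913), (nat_lit 8611633), (nat_lit 8722400)]) (FT.cons (FT.leaf [(nat_lit 8409786), (nat_lit 8519359), (nat_lit 8629209), (nat_lit 8739189)])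 (FT.cons (FT.leaf [(nat_lit 8647247), (nat_lit 8756381)]) (FT.cons (FT.leaf [(nat_lit 8882422)]) (FT.cons (FT.leaf [(nat_lit 9114997)]) FT.nil)))))) (FT.cons (FT.cons (FT.leaf [(nat_lit 8411996), (nat_lit 8519837), (nat_lit 8628152)]) (FT.cons (FT.leaf [(nat_lit 8646976), (nat_lit 8754644)]) (FT.cons (FT.leaf [(nat_lit 8880049)]) (FT.cons (FT.leaf [(nat_lit 9110831)]) FT.nil)))) (FT.cons (FT.cons (FT.leaf [(nat_lit 8879077)]) (FT.cons (FT.leaf [(nat_lit 9107870)]) FT.nil)) (FT.cons (FT.cons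
 (FT.leaf [(nat_lit 9330881)]) FT.nil) (FT.cons (FT.cons (FT.leaf [(nat_lit 9767568)]) FT.nil) (FT.cons (FT.cons (FT.leaf [(nat_lit 10189522)]) FT.nil) FT.nil)))))))))) (FT.cons (FT.cons (FT.cons (FT.leaf [(nat_lit 7103525), (nat_lit 7204944), (nat_lit 7309254), (nat_lit 7415819), (nat_lit 7524152), (nat_lit 7633869), (nat_lit 7744658), (nat_lit 7856264), (nat_lit 7968472), (nat_lit 8081101), (nat_lit 8193999), (nat_lit 8307029), (nat_lit 8420081)]) (FT.cons (FT.leaf [(nat_lit 7337212), (nat_lit 7441847), (nat_lit 7548545), (nat_lit 7656851), (nat_lit 7766403), (nat_lit 7876911), (nat_lit 7988134), (nat_lit 8099873), (nat_lit 8211958), (nat_lit 8324244), (nat_lit 8436608), (nat_lit 8548945)]) (FT.cons (FT.leaf [(nat_lit 7573945), (nat_lit 7680663), (nat_lit 7788844), (nat_lit 7898148), (nat_lit 8008304), (nat_lit 8119085), (nat_lit 8230303), (nat_lit 8341800), (nat_lit 8453441), (nat_lit 8565110)]) (FT.cons (FT.leaf [(nat_lit 7812094),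 (nat_lit 7920066), (nat_lit 8029052), (nat_lit 8138794), (nat_lit 8249081), (nat_lit 8359735), (nat_lit 8470607), (nat_lit 8581572)]) (FT.cons (FT.leaf [(nat_lit 8050463), (nat_lit 8159068), (nat_lit 8268344), (nat_lit 8378092), (nat_lit 8488145),
 (nat_lit 8598362)]) (FT.cons (FT.leaf [(nat_lit 8288161), (nat_lit 8396926), (nat_lit 8506096), (nat_lit 8615514)]) (FT.cons (FT.leaf [(nat_lit 8524512), (nat_lit 8633072)]) (FT.cons (FT.leaf [(nat_lit 8759005)]) (FT.cons (FT.leaf [(nat_lit 8991252)]) FT.nil))))))))) (FT.cons (FT.cons (FT.leaf [(nat_lit 7589408), (nat_lit 7692864), (nat_lit 7798246), (nat_lit 7905116), (nat_lit 8013129), (nat_lit 8122009), (nat_lit 8231530), (nat_lit 8341502), (nat_lit 8451766), (nat_lit 8562186), (nat_lit 8672648)]) (FT.cons (FT.leaf [(nat_lit 7822886), (nat_lit 7928205), (nat_lit 8034881), (nat_lit 8142590), (nat_lit 8251073), (nat_lit 8360114), (nat_lit 8469538), (nat_lit 8579193), (nat_lit 8688954),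 (nat_lit 8798711)]) (FT.cons (FT.leaf [(nat_lit 8057429), (nat_lit 8163839), (nat_lit 8271182), (nat_lit 8379215), (nat_lit 8487733), (nat_lit 8596570), (nat_lit 8705586), (nat_lit 8814662)]) (FT.cons (FT.leaf [(nat_lit 8291944), (nat_lit 8398869), (nat_lit 8506405), (nat_lit 8614363), (nat_lit 8722583), (nat_lit 8830933)]) (FT.cons (FT.leaf [(nat_lit 8525620), (nat_lit 8632622), (nat_lit 8739986), (nat_lit 8847561)]) (FT.cons (FT.leaf [(nat_lit 8757845), (nat_lit 8864587)]) (FT.cons (FT.leaf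
 [(nat_lit 8988155)]) (FT.cons (FT.leaf [(nat_lit 9216200)]) FT.nil)))))))) (FT.cons (FT.cons (FT.leaf [(nat_lit 8066889), (nat_lit 8170769), (nat_lit 8275914), (nat_lit 8382013), (nat_lit 8488818), (nat_lit 8596126), (nat_lit 8703768), (nat_lit 8811603), (nat_lit 8919511)]) (FT.cons (FT.leaf [(nat_lit 8297787), (nat_lit 8402620), (nat_lit 8508317), (nat_lit 8614644), (nat_lit 8721407), (nat_lit 8828449), (nat_lit 8935635), (nat_lit 9042853)]) (FT.cons (FT.leaf [(nat_lit 8528456), (nat_lit 8633705), (nat_lit 8739515), (nat_lit 8845701), (nat_lit 8952116), (nat_lit 9058631)]) (FT.cons (FT.leaf [(nat_lit 8758154), (nat_lit 8863412), (nat_lit 8968995), (nat_lit 9074759)]) (FT.cons (FT.leaf [(nat_lit 8986322), (nat_lit 9091276)]) (FT.cons (FT.leaf [(nat_lit 9212539)]) FT.nil)))))) (FT.cons (FT.cons (FT.leaf [(nat_lit 8533273), (nat_lit 8636526), (nat_lit 8740583), (nat_lit 8845217), (nat_lit 8950246)]) (FT.cons (FT.leaf [(nat_lit 8760126),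 (nat_lit 8863712), (nat_lit 8967813), (nat_lit 9072255)]) (FT.cons (FT.leaf [(nat_lit 8985903), (nat_lit 9089442)]) (FT.cons (FT.leaf [(nat_lit 9210093)]) FT.nil)))) (FT.cons (FT.cons (FT.leaf [(nat_lit 8987084), (nat_lit 9089027), (nat_lit
 9191445)]) (FT.cons (FT.leaf [(nat_lit 9209009), (nat_lit 9310858)]) FT.nil)) (FT.cons (FT.cons (FT.leaf [(nat_lit 9427615)]) FT.nil) (FT.cons (FT.cons (FT.leaf [(nat_lit 9854647)]) FT.nil) (FT.cons (FT.cons (FT.leaf [(nat_lit 10268270)]) FT.nil) FT.nil)))))))) (FT.cons (FT.cons (FT.cons (FT.leaf [(nat_lit 8206941), (nat_lit 8304817), (nat_lit 8404497), (nat_lit 8505573), (nat_lit 8607728), (nat_lit 8710705), (nat_lit 8814294), (nat_lit 8918322), (nat_lit 9022644), (nat_lit 9127133), (nat_lit 9231684)]) (FT.cons (FT.leaf [(nat_lit 8427465), (nat_lit 8527089), (nat_lit 8627994), (nat_lit 8729878), (nat_lit 8832500), (nat_lit 8935663), (nat_lit 9039202), (nat_lit 9142981), (nat_lit 9246882),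 (nat_lit 9350806)]) (FT.cons (FT.leaf [(nat_lit 8649016), (nat_lit 8749685), (nat_lit 8851245), (nat_lit 8953467), (nat_lit 9056165), (nat_lit 9159183), (nat_lit 9262394), (nat_lit 9365685)]) (FT.cons (FT.leaf [(nat_lit 8870610), (nat_lit 8971799), (nat_lit 9073581), (nat_lit 9175781), (nat_lit 9278252), (nat_lit 9380870)]) (FT.cons (FT.leaf [(nat_lit 9091514), (nat_lit 9192824), (nat_lit 9294496), (nat_lit 9396394)]) (FT.cons (FT.leaf [(nat_lit 9311177), (nat_lit 9412298)]) (FT.cons (FT.leaf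
 [(nat_lit 9529177)]) FT.nil))))))) (FT.cons (FT.cons (FT.leaf [(nat_lit 8656853), (nat_lit 8755184), (nat_lit 8854713), (nat_lit 8955154), (nat_lit 9056275), (nat_lit 9157886), (nat_lit 9259834), (nat_lit 9361987), (nat_lit 9464234)]) (FT.cons (FT.leaf [(nat_lit 8875134), (nat_lit 8974390), (nat_lit 9074476), (nat_lit 9175173), (nat_lit 9276302), (nat_lit 9377716), (nat_lit 9479293), (nat_lit 9580926)]) (FT.cons (FT.leaf [(nat_lit 9093287), (nat_lit 9192977), (nat_lit 9293216), (nat_lit 9393835), (nat_lit 9494692), (nat_lit 9595672)]) (FT.cons (FT.leaf [(nat_lit 9310638), (nat_lit 9410389), (nat_lit 9510471), (nat_lit 9610752)]) (FT.cons (FT.leaf [(nat_lit 9526678), (nat_lit 9626204)]) (FT.cons (FT.leaf [(nat_lit 9741024)]) FT.nil)))))) (FT.cons (FT.cons (FT.leaf [(nat_lit 9096918), (nat_lit 9194761), (nat_lit 9293379), (nat_lit 9392563), (nat_lit 9492142)]) (FT.cons (FT.leaf [(nat_lit 9311658), (nat_lit 9409863), (nat_lit 9508575),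 (nat_lit 9607634)]) (FT.cons (FT.leaf [(nat_lit 9525506), (nat_lit 9623722)]) (FT.cons (FT.leaf [(nat_lit 9737993)]) FT.nil)))) (FT.cons (FT.cons (FT.leaf [(nat_lit 9525839), (nat_lit 9622572), (nat_lit 9719780)]) (FT.cons (FT.leaf [(nat_lit 9736241),
 (nat_lit 9832946)]) FT.nil)) (FT.cons (FT.cons (FT.leaf [(nat_lit 9942965)]) FT.nil) (FT.cons (FT.cons (FT.leaf [(nat_lit 10348069)]) FT.nil) FT.nil)))))) (FT.cons (FT.cons (FT.cons (FT.leaf [(nat_lit 9209143), (nat_lit 9302552), (nat_lit 9397104), (nat_lit 9492528), (nat_lit 9588607), (nat_lit 9685167), (nat_lit 9782062)]) (FT.cons (FT.leaf [(nat_lit 9416252), (nat_lit 9510563), (nat_lit 9605671), (nat_lit 9701373), (nat_lit 9797502), (nat_lit 9893920)]) (FT.cons (FT.leaf [(nat_lit 9623318), (nat_lit 9718075), (nat_lit 9813369), (nat_lit 9909041)]) (FT.cons (FT.leaf [(nat_lit 9829720), (nat_lit 9924580)]) (FT.cons (FT.leaf [(nat_lit 10034996)]) FT.nil))))) (FT.cons (FT.cons (FT.leaf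 [(nat_lit 9625956), (nat_lit 9718993), (nat_lit 9812781), (nat_lit 9907121), (nat_lit 10001854)]) (FT.cons (FT.leaf [(nat_lit 9829949), (nat_lit 9923369), (nat_lit 10017289), (nat_lit 10111558)]) (FT.cons (FT.leaf [(nat_lit 10033201), (nat_lit 10126678)]) (FT.cons (FT.leaf [(nat_lit 10235278)]) FT.nil)))) (FT.cons (FT.cons (FT.leaf [(nat_lit 10032824)]) (FT.cons (FT.leaf [(nat_lit 10232974)]) FT.nil)) (FT.cons (FT.cons (FT.leaf [(nat_lit 10429145)]) FT.nil) FT.nil)))) (FT.cons (FT.cons (FT.cons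
 (FT.leaf [(nat_lit 10124602)]) FT.nil) (FT.cons (FT.cons (FT.leaf [(nat_lit 10511780)]) FT.nil) FT.nil)) (FT.cons (FT.cons (FT.cons (FT.leaf [(nat_lit 10965811)]) FT.nil) FT.nil) (FT.cons (FT.cons (FT.cons (FT.leaf [(nat_lit 11743164)]) FT.nil) FT.nil) (FT.cons (FT.cons (FT.cons (FT.leaf [(nat_lit 12465243)]) FT.nil) FT.nil) FT.nil)))))))))

def f192_0_601 : FT := (FT.cons (FT.cons (FT.cons (FT.leaf [(nat_lit 4542217), (nat_lit 4639610), (nat_lit 4744906), (nat_lit 4856410), (nat_lit 4972898), (nat_lit 5093431), (nat_lit 5217264), (nat_lit 5343785), (nat_lit 5472487), (nat_lit 5602938), (nat_lit 5734772), (nat_lit 5867672), (nat_lit 6001364), (nat_lit 6135610), (nat_lit 6270203), (nat_lit 6404962), (nat_lit 6539725), (nat_lit 6674355), (nat_lit 6808728), (nat_lit 6942738), (nat_lit 7076291)]) (FT.cons (FT.leaf [(nat_lit 4787595), (nat_lit 4895656), (nat_lit 5009352), (nat_lit 5127544), (nat_lit 5249365), (nat_lit 5374125), (nat_lit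 5501261), (nat_lit 5630305), (nat_lit 5760863), (nat_lit 5892596), (nat_lit 6025216), (nat_lit 6158472), (nat_lit 6292144), (nat_lit 6426044), (nat_lit 6560006), (nat_lit 6693883), (nat_lit 6827549), (nat_lit 6960893), (nat_lit 7093817), (nat_lit 7226234)]) (FT.cons (FT.leaf [(nat_lit 5047723), (nat_lit 5163166), (nat_lit 5282685), (nat_lit 5405468), (nat_lit 5530876), (nat_lit 5658387), (nat_lit 5787568), (nat_lit 5918054), (nat_lit 6049535), (nat_lit 6181743), (nat_lit 6314449), (nat_lit 6447451), (nat_lit 6580578), (nat_lit 6713673), (nat_lit 6846608), (nat_lit 6979263), (nat_lit 7111538), (nat_lit 7243345)])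
 (FT.cons (FT.leaf [(nat_lit 5317478), (nat_lit 5438002), (nat_lit 5561473), (nat_lit 5687292), (nat_lit 5814972), (nat_lit 5944113), (nat_lit 6074375), (nat_lit 6205472), (nat_lit 6337156), (nat_lit 6469216), (nat_lit 6601468), (nat_lit 6733750), (nat_lit 6865923), (nat_lit 6997865), (nat_lit 7129472), (nat_lit 7260647)]) (FT.cons (FT.leaf [(nat_lit 5593235), (nat_lit 5717156), (nat_lit 5843181), (nat_lit 5970855), (nat_lit 6099802), (nat_lit 6229709), (nat_lit 6360310), (nat_lit 6491374), (nat_lit 6622707), (nat_lit 6754137), (nat_lit 6885518), (nat_lit 7016721), (nat_lit 7147633), (nat_lit 7278158)]) (FT.cons (FT.leaf [(nat_lit 5872329), (nat_lit 5998384), (nat_lit 6125898), (nat_lit 6254522), (nat_lit 6383961), (nat_lit 6513968), (nat_lit 6644331), (nat_lit 6774867), (nat_lit 6905419), (nat_lit 7035850), (nat_lit 7166043), (nat_lit 7295892)]) (FT.cons (FT.leaf [(nat_lit 6152764), (nat_lit 6279989), (nat_lit 6408176), (nat_lit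 6537051), (nat_lit 6666382), (nat_lit 6795973), (nat_lit 6925654), (nat_lit 7055278), (nat_lit 7184720), (nat_lit 7313869)]) (FT.cons (FT.leaf [(nat_lit 6433030), (nat_lit 6560684), (nat_lit 6688913), (nat_lit 6817499), (nat_lit 6946258), (nat_lit
 7075033), (nat_lit 7203689), (nat_lit 7332108)]) (FT.cons (FT.leaf [(nat_lit 6711981), (nat_lit 6839492), (nat_lit 6967273), (nat_lit 7095151), (nat_lit 7222980), (nat_lit 7350634)]) (FT.cons (FT.leaf [(nat_lit 6988745), (nat_lit 7115671), (nat_lit 7242626), (nat_lit 7369476)]) (FT.cons (FT.leaf [(nat_lit 7262665), (nat_lit 7388665)]) (FT.cons (FT.leaf [(nat_lit 7533251)]) (FT.cons (FT.leaf [(nat_lit 7800143)]) (FT.cons (FT.leaf [(nat_lit 8063079)]) FT.nil)))))))))))))) (FT.cons (FT.cons (FT.leaf [(nat_lit 5091984), (nat_lit 5200579), (nat_lit 5314381), (nat_lit 5432288), (nat_lit 5553467), (nat_lit 5677267), (nat_lit 5803160), (nat_lit 5930712), (nat_lit 6059559), (nat_lit 6189392),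 (nat_lit 6319947), (nat_lit 6450995), (nat_lit 6582339), (nat_lit 6713809), (nat_lit 6845255), (nat_lit 6976547), (nat_lit 7107569), (nat_lit 7238225), (nat_lit 7368424)]) (FT.cons (FT.leaf [(nat_lit 5351731), (nat_lit 5466888), (nat_lit 5585775), (nat_lit 5707617), (nat_lit 5831804), (nat_lit 5957848), (nat_lit 6085346), (nat_lit 6213959), (nat_lit 6343403), (nat_lit 6473434), (nat_lit 6603840), (nat_lit 6734442), (nat_lit 6865078), (nat_lit 6995616), (nat_lit 7125932), (nat_lit 7255925), (nat_lit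
 7385502), (nat_lit 7514581)]) (FT.cons (FT.leaf [(nat_lit 5619540), (nat_lit 5739141), (nat_lit 5861415), (nat_lit 5985793), (nat_lit 6111819), (nat_lit 6239117), (nat_lit 6367372), (nat_lit 6496320), (nat_lit 6625735), (nat_lit 6755422), (nat_lit 6885214), (nat_lit 7014964), (nat_lit 7144548), (nat_lit 7273853), (nat_lit 7402786), (nat_lit 7531260)]) (FT.cons (FT.leaf [(nat_lit 5892172), (nat_lit 6014683), (nat_lit 6139083), (nat_lit 6264945), (nat_lit 6391917), (nat_lit 6519707), (nat_lit 6648068), (nat_lit 6776790), (nat_lit 6905692), (nat_lit 7034620), (nat_lit 7163438), (nat_lit 7292030), (nat_lit 7420294), (nat_lit 7548142)]) (FT.cons (FT.leaf [(nat_lit 6167270), (nat_lit 6291546), (nat_lit 6417119), (nat_lit 6543658), (nat_lit 6670890), (nat_lit 6798585), (nat_lit 6926548), (nat_lit 7054610), (nat_lit 7182627), (nat_lit 7310474), (nat_lit 7438045), (nat_lit 7565243)]) (FT.cons (FT.leaf [(nat_lit 6443076), (nat_lit 6568251),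 (nat_lit 6694264), (nat_lit 6820860), (nat_lit 6947823), (nat_lit 7074970), (nat_lit 7202144), (nat_lit 7329213), (nat_lit 7456058), (nat_lit 7582582)]) (FT.cons (FT.leaf [(nat_lit 6718266), (nat_lit 6843674), (nat_lit 6969567), (nat_lit 7095740),
 (nat_lit 7222024), (nat_lit 7348272), (nat_lit 7474360), (nat_lit 7600179)]) (FT.cons (FT.leaf [(nat_lit 6991838), (nat_lit 7116970), (nat_lit 7242306), (nat_lit 7367687), (nat_lit 7492977), (nat_lit 7618057)]) (FT.cons (FT.leaf [(nat_lit 7263037), (nat_lit 7387495), (nat_lit 7511940), (nat_lit 7636244)]) (FT.cons (FT.leaf [(nat_lit 7531289), (nat_lit 7654772)]) (FT.cons (FT.leaf [(nat_lit 7796175)]) (FT.cons (FT.leaf [(nat_lit 8057383)]) (FT.cons (FT.leaf [(nat_lit 8314694)]) FT.nil))))))))))))) (FT.cons (FT.cons (FT.leaf [(nat_lit 5650714), (nat_lit 5765207), (nat_lit 5883136), (nat_lit 6003756), (nat_lit 6126489), (nat_lit 6250874), (nat_lit 6376533), (nat_lit 6503154), (nat_lit 6630471),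 (nat_lit 6758259), (nat_lit 6886327), (nat_lit 7014508), (nat_lit 7142657), (nat_lit 7270651), (nat_lit 7398381)]) (FT.cons (FT.leaf [(nat_lit 5915867), (nat_lit 6034278), (nat_lit 6155131), (nat_lit 6277883), (nat_lit 6402104), (nat_lit 6527441), (nat_lit 6653601), (nat_lit 6780339), (nat_lit 6907446), (nat_lit 7034742), (nat_lit 7162074), (nat_lit 7289310), (nat_lit 7416332), (nat_lit 7543042)]) (FT.cons (FT.leaf [(nat_lit 6184900), (nat_lit 6305820), (nat_lit 6428451), (nat_lit 6552387),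
 (nat_lit 6677298), (nat_lit 6802910), (nat_lit 6928994), (nat_lit 7055355), (nat_lit 7181827), (nat_lit 7308267), (nat_lit 7434552), (nat_lit 7560574)]) (FT.cons (FT.leaf [(nat_lit 6455705), (nat_lit 6578092), (nat_lit 6701639), (nat_lit 6826034), (nat_lit 6951022), (nat_lit 7076388), (nat_lit 7201951), (nat_lit 7327554), (nat_lit 7453065), (nat_lit 7578370)]) (FT.cons (FT.leaf [(nat_lit 6726720), (nat_lit 6849788), (nat_lit 6973592), (nat_lit 7097891), (nat_lit 7222486), (nat_lit 7347203), (nat_lit 7471901), (nat_lit 7596453)]) (FT.cons (FT.leaf [(nat_lit 6996777), (nat_lit 7119924), (nat_lit 7243480), (nat_lit 7367255), (nat_lit 7491091), (nat_lit 7614851)]) (FT.cons (FT.leaf [(nat_lit 7264991), (nat_lit 7387757), (nat_lit 7510676), (nat_lit 7633598)]) (FT.cons (FT.leaf [(nat_lit 7530700), (nat_lit 7652730)]) (FT.cons (FT.leaf [(nat_lit 7793406)]) (FT.cons (FT.leaf [(nat_lit 8052741)]) (FT.cons (FT.leaf [(nat_lit 8308437)])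 FT.nil))))))))))) (FT.cons (FT.cons (FT.leaf [(nat_lit 6206223), (nat_lit 6323250), (nat_lit 6442521), (nat_lit 6563519), (nat_lit 6685836), (nat_lit 6809139), (nat_lit 6933153), (nat_lit 7057651), (nat_lit 7182439), (nat_lit 7307349), (nat_lit 7432242),
 (nat_lit 7556993), (nat_lit 7681498)]) (FT.cons (FT.leaf [(nat_lit 6471327), (nat_lit 6590534), (nat_lit 6711298), (nat_lit 6833236), (nat_lit 6956036), (nat_lit 7079442), (nat_lit 7203238), (nat_lit 7327244), (nat_lit 7451306), (nat_lit 7575289), (nat_lit 7699083), (nat_lit 7822587)]) (FT.cons (FT.leaf [(nat_lit 6737650), (nat_lit 6858078), (nat_lit 6979551), (nat_lit 7101775), (nat_lit 7224508), (nat_lit 7347551), (nat_lit 7470732), (nat_lit 7593908), (nat_lit 7716955), (nat_lit 7839767)]) (FT.cons (FT.leaf [(nat_lit 7003793), (nat_lit 7124725), (nat_lit 7246309), (nat_lit 7368318), (nat_lit 7490562), (nat_lit 7612882), (nat_lit 7735143), (nat_lit 7857229)]) (FT.cons (FT.leaf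 [(nat_lit 7268714), (nat_lit 7389604), (nat_lit 7510842), (nat_lit 7632250), (nat_lit 7753678), (nat_lit 7875000)]) (FT.cons (FT.leaf [(nat_lit 7531630), (nat_lit 7652059), (nat_lit 7772600), (nat_lit 7893112)]) (FT.cons (FT.leaf [(nat_lit 7791954), (nat_lit 7911602)]) (FT.cons (FT.leaf [(nat_lit 8049248)]) (FT.cons (FT.leaf [(nat_lit 8303190)]) (FT.cons (FT.leaf [(nat_lit 8553548)]) FT.nil)))))))))) (FT.cons (FT.cons (FT.leaf [(nat_lit 6751451), (nat_lit 6868860), (nat_lit 6987698), (nat_lit 7107599),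
 (nat_lit 7228266), (nat_lit 7349460), (nat_lit 7470978), (nat_lit 7592650), (nat_lit 7714334), (nat_lit 7835906), (nat_lit 7957259)]) (FT.cons (FT.leaf [(nat_lit 7013182), (nat_lit 7131613), (nat_lit 7250991), (nat_lit 7371038), (nat_lit 7491525), (nat_lit 7612266), (nat_lit 7733099), (nat_lit 7853889), (nat_lit 7974522), (nat_lit 8094900)]) (FT.cons (FT.leaf [(nat_lit 7274429), (nat_lit 7393221), (nat_lit 7512594), (nat_lit 7632332), (nat_lit 7752258), (nat_lit 7872221), (nat_lit 7992095), (nat_lit 8111772)]) (FT.cons (FT.leaf [(nat_lit 7534253), (nat_lit 7652907), (nat_lit 7771859), (nat_lit 7890940), (nat_lit 8010009), (nat_lit 8128948)]) (FT.cons (FT.leaf [(nat_lit 7791957), (nat_lit 7910090), (nat_lit 8028302), (nat_lit 8146458)]) (FT.cons (FT.leaf [(nat_lit 8047017), (nat_lit 8164338)]) (FT.cons (FT.leaf [(nat_lit 8299045)]) (FT.cons (FT.leaf [(nat_lit 8547757)]) FT.nil)))))))) (FT.cons (FT.cons (FT.leaf [(nat_lit 7282420),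 (nat_lit 7398838), (nat_lit 7516120), (nat_lit 7634001), (nat_lit 7752267), (nat_lit 7870737), (nat_lit 7989264)]) (FT.cons (FT.leaf [(nat_lit 7538788), (nat_lit 7655452), (nat_lit 7772636), (nat_lit 7890137), (nat_lit 8007786), (nat_lit 8125441)])
 (FT.cons (FT.leaf [(nat_lit 7793586), (nat_lit 7910035), (nat_lit 8026741), (nat_lit 8143543)]) (FT.cons (FT.leaf [(nat_lit 8046183), (nat_lit 8162068)]) (FT.cons (FT.leaf [(nat_lit 8296112)]) (FT.cons (FT.leaf [(nat_lit 8543026)]) FT.nil)))))) (FT.cons (FT.cons (FT.leaf [(nat_lit 7797050), (nat_lit 7911609), (nat_lit 8026637), (nat_lit 8141941), (nat_lit 8257362)]) (FT.cons (FT.leaf [(nat_lit 8046911), (nat_lit 8161196), (nat_lit 8275702), (nat_lit 8390279)]) (FT.cons (FT.leaf [(nat_lit 8294521), (nat_lit 8408209)]) (FT.cons (FT.leaf [(nat_lit 8539458)]) FT.nil)))) (FT.cons (FT.cons (FT.leaf [(nat_lit 8294430)]) (FT.cons (FT.leaf [(nat_lit 8537181)]) FT.nil)) (FT.cons (FT.cons (FT.leaf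 [(nat_lit 8774371)]) FT.nil) (FT.cons (FT.cons (FT.leaf [(nat_lit 9237126)]) FT.nil) (FT.cons (FT.cons (FT.leaf [(nat_lit 9683210)]) FT.nil) FT.nil))))))))))) (FT.cons (FT.cons (FT.cons (FT.leaf [(nat_lit 5886559), (nat_lit 5988988), (nat_lit 6096147), (nat_lit 6207007), (nat_lit 6320802), (nat_lit 6436939), (nat_lit 6554941), (nat_lit 6674418), (nat_lit 6795046), (nat_lit 6916552), (nat_lit 7038704), (nat_lit 7161300), (nat_lit 7284169), (nat_lit 7407160), (nat_lit 7530144), (nat_lit 7653009),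
 (nat_lit 7775651)]) (FT.cons (FT.leaf [(nat_lit 6130617), (nat_lit 6238884), (nat_lit 6350527), (nat_lit 6464831), (nat_lit 6581242), (nat_lit 6699319), (nat_lit 6818699), (nat_lit 6939080), (nat_lit 7060210), (nat_lit 7181872), (nat_lit 7303882), (nat_lit 7426081), (nat_lit 7548330), (nat_lit 7670507), (nat_lit 7792510), (nat_lit 7914244)]) (FT.cons (FT.leaf [(nat_lit 6381623), (nat_lit 6493830), (nat_lit 6608456), (nat_lit 6724984), (nat_lit 6842999), (nat_lit 6962164), (nat_lit 7082200), (nat_lit 7202868), (nat_lit 7323970), (nat_lit 7445334), (nat_lit 7566811), (nat_lit 7688273), (nat_lit 7809608), (nat_lit 7930720)]) (FT.cons (FT.leaf [(nat_lit 6636750), (nat_lit 6751539), (nat_lit 6868047), (nat_lit 6985884), (nat_lit 7104735), (nat_lit 7224339), (nat_lit 7344474), (nat_lit 7464953), (nat_lit 7585617), (nat_lit 7706329), (nat_lit 7826967), (nat_lit 7947430)]) (FT.cons (FT.leaf [(nat_lit 6893964), (nat_lit 7010333), (nat_lit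 7127891), (nat_lit 7246342), (nat_lit 7365440), (nat_lit 7484978), (nat_lit 7604782), (nat_lit 7724703), (nat_lit 7844611), (nat_lit 7964396)]) (FT.cons (FT.leaf [(nat_lit 7151760), (nat_lit 7268952), (nat_lit 7386928), (nat_lit 7505457), (nat_lit
 7624344), (nat_lit 7743427), (nat_lit 7862566), (nat_lit 7981641)]) (FT.cons (FT.leaf [(nat_lit 7409009), (nat_lit 7526445), (nat_lit 7644350), (nat_lit 7762541), (nat_lit 7880866), (nat_lit 7999192)]) (FT.cons (FT.leaf [(nat_lit 7664856), (nat_lit 7782090), (nat_lit 7899546), (nat_lit 8017078)]) (FT.cons (FT.leaf [(nat_lit 7918651), (nat_lit 8035338)]) (FT.cons (FT.leaf [(nat_lit 8169904)]) (FT.cons (FT.leaf [(nat_lit 8418246)]) (FT.cons (FT.leaf [(nat_lit 8663403)]) FT.nil)))))))))))) (FT.cons (FT.cons (FT.leaf [(nat_lit 6408497), (nat_lit 6516033), (nat_lit 6626703), (nat_lit 6739821), (nat_lit 6854859), (nat_lit 6971398), (nat_lit 7089099), (nat_lit 7207677), (nat_lit 7326898), (nat_lit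 7446562), (nat_lit 7566496), (nat_lit 7686556), (nat_lit 7806610), (nat_lit 7926551), (nat_lit 8046282)]) (FT.cons (FT.leaf [(nat_lit 6656866), (nat_lit 6767922), (nat_lit 6881211), (nat_lit 6996235), (nat_lit 7112604), (nat_lit 7229999), (nat_lit 7348156), (nat_lit 7466855), (nat_lit 7585909), (nat_lit 7705159), (nat_lit 7824468), (nat_lit 7943716), (nat_lit 8062803), (nat_lit 8181639)]) (FT.cons (FT.leaf [(nat_lit 6908625), (nat_lit 7021948), (nat_lit 7136843), (nat_lit 7252943), (nat_lit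
 7369948), (nat_lit 7487612), (nat_lit 7605728), (nat_lit 7724122), (nat_lit 7842644), (nat_lit 7961167), (nat_lit 8079581), (nat_lit 8197790)]) (FT.cons (FT.leaf [(nat_lit 7161938), (nat_lit 7276604), (nat_lit 7392350), (nat_lit 7508893), (nat_lit 7626002), (nat_lit 7743482), (nat_lit 7861172), (nat_lit 7978930), (nat_lit 8096638), (nat_lit 8214192)]) (FT.cons (FT.leaf [(nat_lit 7415452), (nat_lit 7530769), (nat_lit 7646788), (nat_lit 7763288), (nat_lit 7880089), (nat_lit 7997037), (nat_lit 8114001), (nat_lit 8230867)]) (FT.cons (FT.leaf [(nat_lit 7668156), (nat_lit 7783595), (nat_lit 7899442), (nat_lit 8015525), (nat_lit 8131700), (nat_lit 8247843)]) (FT.cons (FT.leaf [(nat_lit 7919285), (nat_lit 8034440), (nat_lit 8149774), (nat_lit 8265149)]) (FT.cons (FT.leaf [(nat_lit 8168264), (nat_lit 8282820)]) (FT.cons (FT.leaf [(nat_lit 8414656)]) (FT.cons (FT.leaf [(nat_lit 8658135)]) (FT.cons (FT.leaf [(nat_lit 8898461)]) FT.nil)))))))))))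 (FT.cons (FT.cons (FT.leaf [(nat_lit 6926723), (nat_lit 7036495), (nat_lit 7148336), (nat_lit 7261772), (nat_lit 7376430), (nat_lit 7492008), (nat_lit 7608258), (nat_lit 7724973), (nat_lit 7841980), (nat_lit 7959127), (nat_lit 8076291), (nat_lit
 8193358), (nat_lit 8310236)]) (FT.cons (FT.leaf [(nat_lit 7174897), (nat_lit 7286670), (nat_lit 7399891), (nat_lit 7514209), (nat_lit 7629339), (nat_lit 7745049), (nat_lit 7861146), (nat_lit 7977465), (nat_lit 8093867), (nat_lit 8210233), (nat_lit 8326460), (nat_lit 8442460)]) (FT.cons (FT.leaf [(nat_lit 7424192), (nat_lit 7537113), (nat_lit 7651018), (nat_lit 7765639), (nat_lit 7880759), (nat_lit 7996193), (nat_lit 8111788), (nat_lit 8227414), (nat_lit 8342959), (nat_lit 8458327)]) (FT.cons (FT.leaf [(nat_lit 7673383), (nat_lit 7786813), (nat_lit 7900873), (nat_lit 8015356), (nat_lit 8130092), (nat_lit 8244933), (nat_lit 8359757), (nat_lit 8474462)]) (FT.cons (FT.leaf [(nat_lit 7921559),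 (nat_lit 8035012), (nat_lit 8148822), (nat_lit 8262825), (nat_lit 8376887), (nat_lit 8490890)]) (FT.cons (FT.leaf [(nat_lit 8168033), (nat_lit 8281137), (nat_lit 8394383), (nat_lit 8507643)]) (FT.cons (FT.leaf [(nat_lit 8412287), (nat_lit 8524754)]) (FT.cons (FT.leaf [(nat_lit 8653934)]) (FT.cons (FT.leaf [(nat_lit 8892683)]) (FT.cons (FT.leaf [(nat_lit 9128321)]) FT.nil)))))))))) (FT.cons (FT.cons (FT.leaf [(nat_lit 7435604), (nat_lit 7545771), (nat_lit 7657278), (nat_lit 7769790), (nat_lit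
 7883036), (nat_lit 7996795), (nat_lit 8110885), (nat_lit 8225152), (nat_lit 8339465), (nat_lit 8453712), (nat_lit 8567797)]) (FT.cons (FT.leaf [(nat_lit 7680817), (nat_lit 7791968), (nat_lit 7904022), (nat_lit 8016725), (nat_lit 8129867), (nat_lit 8243276), (nat_lit 8356808), (nat_lit 8470339), (nat_lit 8583766), (nat_lit 8696996)]) (FT.cons (FT.leaf [(nat_lit 7925684), (nat_lit 8037227), (nat_lit 8149341), (nat_lit 8261828), (nat_lit 8374526), (nat_lit 8487298), (nat_lit 8600027), (nat_lit 8712617)]) (FT.cons (FT.leaf [(nat_lit 8169375), (nat_lit 8280862), (nat_lit 8392663), (nat_lit 8504624), (nat_lit 8616614), (nat_lit 8728525)]) (FT.cons (FT.leaf [(nat_lit 8411272), (nat_lit 8522359), (nat_lit 8633559), (nat_lit 8744750)]) (FT.cons (FT.leaf [(nat_lit 8650906), (nat_lit 8761329)]) (FT.cons (FT.leaf [(nat_lit 8887929)]) (FT.cons (FT.leaf [(nat_lit 9122083)]) FT.nil)))))))) (FT.cons (FT.cons (FT.leaf [(nat_lit 7931928), (nat_lit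 8041302), (nat_lit 8151509), (nat_lit 8262305), (nat_lit 8373492), (nat_lit 8484907), (nat_lit 8596412)]) (FT.cons (FT.leaf [(nat_lit 8172496), (nat_lit 8282166), (nat_lit 8392356), (nat_lit 8502876), (nat_lit 8613573), (nat_lit 8724316)]) (FT.cons
 (FT.leaf [(nat_lit 8411768), (nat_lit 8521317), (nat_lit 8631144), (nat_lit 8741102)]) (FT.cons (FT.leaf [(nat_lit 8649178), (nat_lit 8758289)]) (FT.cons (FT.leaf [(nat_lit 8884305)]) (FT.cons (FT.leaf [(nat_lit 9116831)]) FT.nil)))))) (FT.cons (FT.cons (FT.leaf [(nat_lit 8413975), (nat_lit 8521793), (nat_lit 8630086), (nat_lit 8738674), (nat_lit 8847411)]) (FT.cons (FT.leaf [(nat_lit 8648905), (nat_lit 8756551), (nat_lit 8864444), (nat_lit 8972443)]) (FT.cons (FT.leaf [(nat_lit 8881930), (nat_lit 8989108)]) (FT.cons (FT.leaf [(nat_lit 9112664)]) FT.nil)))) (FT.cons (FT.cons (FT.leaf [(nat_lit 8880956)]) (FT.cons (FT.leaf [(nat_lit 9109702)]) FT.nil)) (FT.cons (FT.cons (FT.leaf [(nat_lit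 9332666)]) FT.nil) (FT.cons (FT.cons (FT.leaf [(nat_lit 9769268)]) FT.nil) (FT.cons (FT.cons (FT.leaf [(nat_lit 10191144)]) FT.nil) FT.nil)))))))))) (FT.cons (FT.cons (FT.cons (FT.leaf [(nat_lit 7105787), (nat_lit 7207183), (nat_lit 7311470), (nat_lit 7418011), (nat_lit 7526321), (nat_lit 7636013), (nat_lit 7746777), (nat_lit 7858358), (nat_lit 7970543), (nat_lit 8083147), (nat_lit 8196021), (nat_lit 8309027), (nat_lit 8422054), (nat_lit 8535002), (nat_lit 8647783)]) (FT.cons (FT.leaf [(nat_lit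
 7339420), (nat_lit 7444032), (nat_lit 7550707), (nat_lit 7658989), (nat_lit 7768517), (nat_lit 7879001), (nat_lit 7990200), (nat_lit 8101914), (nat_lit 8213975), (nat_lit 8326237), (nat_lit 8438579), (nat_lit 8550891), (nat_lit 8663083), (nat_lit 8775071)]) (FT.cons (FT.leaf [(nat_lit 7576100), (nat_lit 7682794), (nat_lit 7790951), (nat_lit 7900233), (nat_lit 8010364), (nat_lit 8121121), (nat_lit 8232316), (nat_lit 8343790), (nat_lit 8455407), (nat_lit 8567051), (nat_lit 8678626), (nat_lit 8790041)]) (FT.cons (FT.leaf [(nat_lit 7814196), (nat_lit 7922144), (nat_lit 8031107), (nat_lit 8140826), (nat_lit 8251089), (nat_lit 8361719), (nat_lit 8472569), (nat_lit 8583510), (nat_lit 8694435), (nat_lit 8805248)]) (FT.cons (FT.leaf [(nat_lit 8052513), (nat_lit 8161095), (nat_lit 8270348), (nat_lit 8380072), (nat_lit 8490101), (nat_lit 8600295), (nat_lit 8710535), (nat_lit 8820716)]) (FT.cons (FT.leaf [(nat_lit 8290159), (nat_lit 8398901),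 (nat_lit 8508048), (nat_lit 8617444), (nat_lit 8726955), (nat_lit 8836470)]) (FT.cons (FT.leaf [(nat_lit 8526460), (nat_lit 8634997), (nat_lit 8743732), (nat_lit 8852538)]) (FT.cons (FT.leaf [(nat_lit 8760905), (nat_lit 8868954)]) (FT.cons (FT.leaf
 [(nat_lit 8993103)]) (FT.cons (FT.leaf [(nat_lit 9222764)]) (FT.cons (FT.leaf [(nat_lit 9449666)]) FT.nil))))))))))) (FT.cons (FT.cons (FT.leaf [(nat_lit 7591556), (nat_lit 7694989), (nat_lit 7800349), (nat_lit 7907195), (nat_lit 8015185), (nat_lit 8124043), (nat_lit 8233540), (nat_lit 8343488), (nat_lit 8453729), (nat_lit 8564127), (nat_lit 8674567), (nat_lit 8784947), (nat_lit 8895182)]) (FT.cons (FT.leaf [(nat_lit 7824983), (nat_lit 7930278), (nat_lit 8036932), (nat_lit 8144619), (nat_lit 8253077), (nat_lit 8362096), (nat_lit 8471496), (nat_lit 8581129), (nat_lit 8690867), (nat_lit 8800602), (nat_lit 8910240), (nat_lit 9019700)]) (FT.cons (FT.leaf [(nat_lit 8059474), (nat_lit 8165861),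 (nat_lit 8273182), (nat_lit 8381192), (nat_lit 8489688), (nat_lit 8598503), (nat_lit 8707496), (nat_lit 8816549), (nat_lit 8925559), (nat_lit 9034437)]) (FT.cons (FT.leaf [(nat_lit 8293938), (nat_lit 8400841), (nat_lit 8508355), (nat_lit 8616290), (nat_lit 8724489), (nat_lit 8832817), (nat_lit 8941163), (nat_lit 9049430)]) (FT.cons (FT.leaf [(nat_lit 8527565), (nat_lit 8634545), (nat_lit 8741887), (nat_lit 8849441), (nat_lit 8957081), (nat_lit 9064702)]) (FT.cons (FT.leaf [(nat_lit 8759742),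
 (nat_lit 8866462), (nat_lit 8973349), (nat_lit 9080283)]) (FT.cons (FT.leaf [(nat_lit 8990006), (nat_lit 9096205)]) (FT.cons (FT.leaf [(nat_lit 9218006)]) (FT.cons (FT.leaf [(nat_lit 9443478)]) (FT.cons (FT.leaf [(nat_lit 9666226)]) FT.nil)))))))))) (FT.cons (FT.cons (FT.leaf [(nat_lit 8068929), (nat_lit 8172787), (nat_lit 8277910), (nat_lit 8383987), (nat_lit 8490770), (nat_lit 8598056), (nat_lit 8705676), (nat_lit 8813489), (nat_lit 8921376)]) (FT.cons (FT.leaf [(nat_lit 8299777), (nat_lit 8404589), (nat_lit 8510264), (nat_lit 8616569), (nat_lit 8723311), (nat_lit 8830331), (nat_lit 8937495), (nat_lit 9044693)]) (FT.cons (FT.leaf [(nat_lit 8530398), (nat_lit 8635626), (nat_lit 8741414), (nat_lit 8847579), (nat_lit 8953972), (nat_lit 9060467)]) (FT.cons (FT.leaf [(nat_lit 8760049), (nat_lit 8865286), (nat_lit 8970847), (nat_lit 9076591)]) (FT.cons (FT.leaf [(nat_lit 8988171), (nat_lit 9093104)]) (FT.cons (FT.leaf [(nat_lit 9214343)])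 (FT.cons (FT.leaf [(nat_lit 9438247)]) (FT.cons (FT.leaf [(nat_lit 9659643)]) FT.nil)))))))) (FT.cons (FT.cons (FT.leaf [(nat_lit 8535212), (nat_lit 8638444), (nat_lit 8742480), (nat_lit 8847093), (nat_lit 8952101), (nat_lit 9057352), (nat_lit
 9162720)]) (FT.cons (FT.leaf [(nat_lit 8762018), (nat_lit 8865583), (nat_lit 8969664), (nat_lit 9074086), (nat_lit 9178705), (nat_lit 9283401)]) (FT.cons (FT.leaf [(nat_lit 8987749), (nat_lit 9091269), (nat_lit 9195080), (nat_lit 9299047)]) (FT.cons (FT.leaf [(nat_lit 9211896), (nat_lit 9315076)]) (FT.cons (FT.leaf [(nat_lit 9434070)]) (FT.cons (FT.leaf [(nat_lit 9653983)]) FT.nil)))))) (FT.cons (FT.cons (FT.leaf [(nat_lit 8988929), (nat_lit 9090851), (nat_lit 9193249)]) (FT.cons (FT.leaf [(nat_lit 9210809), (nat_lit 9312639)]) (FT.cons (FT.leaf [(nat_lit 9431065)]) (FT.cons (FT.leaf [(nat_lit 9649339)]) FT.nil)))) (FT.cons (FT.cons (FT.leaf [(nat_lit 9429371)]) (FT.cons (FT.leaf [(nat_lit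 9645825)]) FT.nil)) (FT.cons (FT.cons (FT.leaf [(nat_lit 9856322)]) FT.nil) (FT.cons (FT.cons (FT.leaf [(nat_lit 10269869)]) FT.nil) FT.nil)))))))) (FT.cons (FT.cons (FT.cons (FT.leaf [(nat_lit 8208935), (nat_lit 8306790), (nat_lit 8406450), (nat_lit 8507507), (nat_lit 8609641), (nat_lit 8712597), (nat_lit 8816167), (nat_lit 8920174), (nat_lit 9024475), (nat_lit 9128945), (nat_lit 9233476)]) (FT.cons (FT.leaf [(nat_lit 8429414), (nat_lit 8529018), (nat_lit 8629902), (nat_lit 8731766), (nat_lit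
 8834368), (nat_lit 8937511), (nat_lit 9041030), (nat_lit 9144789), (nat_lit 9248671), (nat_lit 9352575)]) (FT.cons (FT.leaf [(nat_lit 8650920), (nat_lit 8751569), (nat_lit 8853108), (nat_lit 8955310), (nat_lit 9057989), (nat_lit 9160987), (nat_lit 9264178), (nat_lit 9367450)]) (FT.cons (FT.leaf [(nat_lit 8872469), (nat_lit 8973638), (nat_lit 9075401), (nat_lit 9177582), (nat_lit 9280033), (nat_lit 9382631)]) (FT.cons (FT.leaf [(nat_lit 9093330), (nat_lit 9194620), (nat_lit 9296274), (nat_lit 9398153)]) (FT.cons (FT.leaf [(nat_lit 9312951), (nat_lit 9414053)]) (FT.cons (FT.leaf [(nat_lit 9530910)]) FT.nil))))))) (FT.cons (FT.cons (FT.leaf [(nat_lit 8658753), (nat_lit 8757063), (nat_lit 8856574), (nat_lit 8956995), (nat_lit 9058096), (nat_lit 9159689), (nat_lit 9261617), (nat_lit 9363751), (nat_lit 9465979)]) (FT.cons (FT.leaf [(nat_lit 8876990), (nat_lit 8976227), (nat_lit 9076294), (nat_lit 9176972), (nat_lit 9278081), (nat_lit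 9379477), (nat_lit 9481034), (nat_lit 9582649)]) (FT.cons (FT.leaf [(nat_lit 9095101), (nat_lit 9194772), (nat_lit 9294992), (nat_lit 9395591), (nat_lit 9496431), (nat_lit 9597392)]) (FT.cons (FT.leaf [(nat_lit 9312410), (nat_lit 9412142), (nat_lit
 9512206), (nat_lit 9612468)]) (FT.cons (FT.leaf [(nat_lit 9528410), (nat_lit 9627917)]) (FT.cons (FT.leaf [(nat_lit 9742716)]) FT.nil)))))) (FT.cons (FT.cons (FT.leaf [(nat_lit 9098729), (nat_lit 9196553), (nat_lit 9295153), (nat_lit 9394318), (nat_lit 9493879)]) (FT.cons (FT.leaf [(nat_lit 9313428), (nat_lit 9411614), (nat_lit 9510308), (nat_lit 9609349)]) (FT.cons (FT.leaf [(nat_lit 9527236), (nat_lit 9625433)]) (FT.cons (FT.leaf [(nat_lit 9739684)]) FT.nil)))) (FT.cons (FT.cons (FT.leaf [(nat_lit 9527566), (nat_lit 9624282), (nat_lit 9721472)]) (FT.cons (FT.leaf [(nat_lit 9737931), (nat_lit 9834618)]) FT.nil)) (FT.cons (FT.cons (FT.leaf [(nat_lit 9944615)]) FT.nil) (FT.cons (FT.cons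 (FT.leaf [(nat_lit 10349647)]) FT.nil) FT.nil)))))) (FT.cons (FT.cons (FT.cons (FT.leaf [(nat_lit 9210920), (nat_lit 9304313), (nat_lit 9398847), (nat_lit 9494254), (nat_lit 9590316), (nat_lit 9686858), (nat_lit 9783736)]) (FT.cons (FT.leaf [(nat_lit 9417991), (nat_lit 9512285), (nat_lit 9607376), (nat_lit 9703061), (nat_lit 9799173), (nat_lit 9895574)]) (FT.cons (FT.leaf [(nat_lit 9625019), (nat_lit 9719760), (nat_lit 9815037), (nat_lit 9910692)]) (FT.cons (FT.leaf [(nat_lit 9831385), (nat_lit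
 9926228)]) (FT.cons (FT.leaf [(nat_lit 10036624)]) FT.nil))))) (FT.cons (FT.cons (FT.leaf [(nat_lit 9627655), (nat_lit 9720676), (nat_lit 9814447), (nat_lit 9908770), (nat_lit 10003488)]) (FT.cons (FT.leaf [(nat_lit 9831612), (nat_lit 9925015), (nat_lit 10018919), (nat_lit 10113172)]) (FT.cons (FT.leaf [(nat_lit 10034828), (nat_lit 10128289)]) (FT.cons (FT.leaf [(nat_lit 10236871)]) FT.nil)))) (FT.cons (FT.cons (FT.leaf [(nat_lit 10034450)]) (FT.cons (FT.leaf [(nat_lit 10234566)]) FT.nil)) (FT.cons (FT.cons (FT.leaf [(nat_lit 10430702)]) FT.nil) FT.nil)))) (FT.cons (FT.cons (FT.cons (FT.leaf [(nat_lit 10126203), (nat_lit 10214925), (nat_lit 10304373)]) (FT.cons (FT.leaf [(nat_lit 10320554), (nat_lit 10409674)]) (FT.cons (FT.leaf [(nat_lit 10514290)]) FT.nil))) (FT.cons (FT.cons (FT.leaf [(nat_lit 10513316)]) (FT.cons (FT.leaf [(nat_lit 10704243)]) FT.nil)) FT.nil)) (FT.cons (FT.cons (FT.cons (FT.leaf [(nat_lit 10967266)]) FT.nil)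 FT.nil) (FT.cons (FT.cons (FT.cons (FT.leaf [(nat_lit 11744498)]) FT.nil) FT.nil) (FT.cons (FT.cons (FT.cons (FT.leaf [(nat_lit 12466472)]) FT.nil) FT.nil) FT.nil)))))))))

def f192_0_682 : FT := (FT.cons (FT.cons (FT.cons (FT.leaf [(nat_lit 4791412), (nat_lit 4886611), (nat_lit 4989507), (nat_lit 5098448), (nat_lit 5212243), (nat_lit 5329978), (nat_lit 5450929), (nat_lit 5574505), (nat_lit 5700211), (nat_lit 5827634), (nat_lit 5956417), (nat_lit 6086256), (nat_lit 6216888), (nat_lit 6348081), (nat_lit 6479635), (nat_lit 6611376), (nat_lit 6743150), (nat_lit 6874820), (nat_lit 7006270)]) (FT.cons (FT.leaf [(nat_lit 5031086), (nat_lit 5136661), (nat_lit 5247728), (nat_lit 5363178), (nat_lit 5482166), (nat_lit 5604024), (nat_lit 5728207), (nat_lit 5854261), (nat_lit 5981804), (nat_lit 6110512), (nat_lit 6240101), (nat_lit 6370333), (nat_lit 6500996), (nat_lit 6631905), (nat_lit 6762902), (nat_lit 6893843), (nat_lit 7024608), (nat_lit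 7155087)]) (FT.cons (FT.leaf [(nat_lit 5285087), (nat_lit 5397853), (nat_lit 5514595), (nat_lit 5634528), (nat_lit 5757028), (nat_lit 5881590), (nat_lit 6007794), (nat_lit 6135289), (nat_lit 6263773), (nat_lit 6392989), (nat_lit 6522714), (nat_lit 6652753), (nat_lit 6782939), (nat_lit 6913125), (nat_lit 7043179), (nat_lit 7172992)]) (FT.cons (FT.leaf [(nat_lit 5548468), (nat_lit 5666197), (nat_lit 5786810), (nat_lit 5909724), (nat_lit 6034469),
 (nat_lit 6160656), (nat_lit 6287957), (nat_lit 6416093), (nat_lit 6544827), (nat_lit 6673953), (nat_lit 6803291), (nat_lit 6932687), (nat_lit 7062006), (nat_lit 7191128)]) (FT.cons (FT.leaf [(nat_lit 5817733), (nat_lit 5938800), (nat_lit 6061934), (nat_lit 6186693), (nat_lit 6312717), (nat_lit 6439698), (nat_lit 6567378), (nat_lit 6695538), (nat_lit 6823985), (nat_lit 6952556), (nat_lit 7081105), (nat_lit 7209511)]) (FT.cons (FT.leaf [(nat_lit 6090318), (nat_lit 6213503), (nat_lit 6338133),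 (nat_lit 6463866), (nat_lit 6590420), (nat_lit 6717552), (nat_lit 6845058), (nat_lit 6972760), (nat_lit 7100507), (nat_lit 7228164)]) (FT.cons (FT.leaf [(nat_lit 6364303), (nat_lit 6488677), (nat_lit 6614013), (nat_lit 6740047), (nat_lit 6866551), (nat_lit 6993336), (nat_lit 7120236), (nat_lit 7247111)]) (FT.cons (FT.leaf [(nat_lit 6638235), (nat_lit 6763081), (nat_lit 6888513), (nat_lit 7014323), (nat_lit 7140329), (nat_lit 7266380)]) (FT.cons (FT.leaf [(nat_lit 6911005), (nat_lit 7035769), (nat_lit 7160826), (nat_lit 7286005)]) (FT.cons (FT.leaf [(nat_lit 7181771), (nat_lit 7306025)]) (FT.cons (FT.leaf [(nat_lit 7449894)]) (FT.cons (FT.leaf [(nat_lit 7714894)]) (FT.cons (FT.leaf [(nat_lit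
 7976414)]) (FT.cons (FT.leaf [(nat_lit 8234196)]) FT.nil)))))))))))))) (FT.cons (FT.cons (FT.leaf [(nat_lit 5327765), (nat_lit 5433864), (nat_lit 5545048), (nat_lit 5660240), (nat_lit 5778632), (nat_lit 5899591), (nat_lit 6022606), (nat_lit 6147255), (nat_lit 6273186), (nat_lit 6400099), (nat_lit 6527739), (nat_lit 6655884), (nat_lit 6784343), (nat_lit 6912952), (nat_lit 7041564), (nat_lit 7170055), (nat_lit 7298310)]) (FT.cons (FT.leaf [(nat_lit 5581425), (nat_lit 5693934), (nat_lit 5810093), (nat_lit 5929144), (nat_lit 6050498), (nat_lit 6173680), (nat_lit 6298298), (nat_lit 6424026), (nat_lit 6550588), (nat_lit 6677744), (nat_lit 6805294), (nat_lit 6933060), (nat_lit 7060888), (nat_lit 7188647), (nat_lit 7316219), (nat_lit 7443502)]) (FT.cons (FT.leaf [(nat_lit 5842978), (nat_lit 5959846), (nat_lit 6079337), (nat_lit 6200898), (nat_lit 6324084), (nat_lit 6448533), (nat_lit 6573939), (nat_lit 6700045), (nat_lit 6826632), (nat_lit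 6953511), (nat_lit 7080519), (nat_lit 7207515), (nat_lit 7334376), (nat_lit 7460994)]) (FT.cons (FT.leaf [(nat_lit 6109300), (nat_lit 6229041), (nat_lit 6350647), (nat_lit 6473698), (nat_lit 6597856), (nat_lit 6722837), (nat_lit 6848400), (nat_lit
 6974342), (nat_lit 7100487), (nat_lit 7226684), (nat_lit 7352803), (nat_lit 7478729)]) (FT.cons (FT.leaf [(nat_lit 6378113), (nat_lit 6499622), (nat_lit 6622418), (nat_lit 6746183), (nat_lit 6870649), (nat_lit 6995594), (nat_lit 7120827), (nat_lit 7246183), (nat_lit 7371524), (nat_lit 7496727)]) (FT.cons (FT.leaf [(nat_lit 6647722), (nat_lit 6770159), (nat_lit 6893441), (nat_lit 7017317), (nat_lit 7141577), (nat_lit 7266046), (nat_lit 7390569), (nat_lit 7515016)]) (FT.cons (FT.leaf [(nat_lit 6916848), (nat_lit 7039569), (nat_lit 7162789), (nat_lit 7286312), (nat_lit 7409969), (nat_lit 7533620)]) (FT.cons (FT.leaf [(nat_lit 7184521), (nat_lit 7307029), (nat_lit 7429765), (nat_lit 7552573)])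 (FT.cons (FT.leaf [(nat_lit 7450002), (nat_lit 7571913)]) (FT.cons (FT.leaf [(nat_lit 7712738)]) (FT.cons (FT.leaf [(nat_lit 7972309)]) (FT.cons (FT.leaf [(nat_lit 8228411)]) (FT.cons (FT.leaf [(nat_lit 8480822)]) FT.nil))))))))))))) (FT.cons (FT.cons (FT.leaf [(nat_lit 5872987), (nat_lit 5984885), (nat_lit 6100151), (nat_lit 6218058), (nat_lit 6338047), (nat_lit 6459666), (nat_lit 6582551), (nat_lit 6706397), (nat_lit 6830948), (nat_lit 6955983), (nat_lit 7081318), (nat_lit 7206790), (nat_lit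
 7332258), (nat_lit 7457603), (nat_lit 7582717)]) (FT.cons (FT.leaf [(nat_lit 6132048), (nat_lit 6247803), (nat_lit 6365959), (nat_lit 6485990), (nat_lit 6607475), (nat_lit 6730073), (nat_lit 6853499), (nat_lit 6977513), (nat_lit 7101914), (nat_lit 7226527), (nat_lit 7351203), (nat_lit 7475810), (nat_lit 7600238), (nat_lit 7724389)]) (FT.cons (FT.leaf [(nat_lit 6394977), (nat_lit 6513223), (nat_lit 6633161), (nat_lit 6754395), (nat_lit 6876606), (nat_lit 6999526), (nat_lit 7122933), (nat_lit 7246638), (nat_lit 7370477), (nat_lit 7494314), (nat_lit 7618024), (nat_lit 7741507)]) (FT.cons (FT.leaf [(nat_lit 6659736), (nat_lit 6779462), (nat_lit 6900345), (nat_lit 7022083), (nat_lit 7144424), (nat_lit 7267161), (nat_lit 7390117), (nat_lit 7513140), (nat_lit 7636100), (nat_lit 7758886)]) (FT.cons (FT.leaf [(nat_lit 6924813), (nat_lit 7045257), (nat_lit 7166446), (nat_lit 7288146), (nat_lit 7410161), (nat_lit 7532323), (nat_lit 7654492),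 (nat_lit 7776547)]) (FT.cons (FT.leaf [(nat_lit 7189074), (nat_lit 7309652), (nat_lit 7430656), (nat_lit 7551902), (nat_lit 7673234), (nat_lit 7794519)]) (FT.cons (FT.leaf [(nat_lit 7451660), (nat_lit 7571923), (nat_lit 7692363), (nat_lit 7812832)])
 (FT.cons (FT.leaf [(nat_lit 7711925), (nat_lit 7831526)]) (FT.cons (FT.leaf [(nat_lit 7969379)]) (FT.cons (FT.leaf [(nat_lit 8223659)]) (FT.cons (FT.leaf [(nat_lit 8474498)]) FT.nil))))))))))) (FT.cons (FT.cons (FT.leaf [(nat_lit 6415455), (nat_lit 6529912), (nat_lit 6646581), (nat_lit 6764959), (nat_lit 6884646), (nat_lit 7005321), (nat_lit 7126717), (nat_lit 7248610), (nat_lit 7370812), (nat_lit 7493160), (nat_lit 7615518)]) (FT.cons (FT.leaf [(nat_lit 6674678), (nat_lit 6791310), (nat_lit 6909486), (nat_lit 7028833), (nat_lit 7149046), (nat_lit 7269876), (nat_lit 7391114), (nat_lit 7512584), (nat_lit 7634133), (nat_lit 7755634)]) (FT.cons (FT.leaf [(nat_lit 6935199), (nat_lit 7053076),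 (nat_lit 7171996), (nat_lit 7291676), (nat_lit 7411880), (nat_lit 7532412), (nat_lit 7653106), (nat_lit 7773821)]) (FT.cons (FT.leaf [(nat_lit 7195661), (nat_lit 7314083), (nat_lit 7433168), (nat_lit 7552693), (nat_lit 7672475), (nat_lit 7792358)]) (FT.cons (FT.leaf [(nat_lit 7455048), (nat_lit 7573485), (nat_lit 7692288), (nat_lit 7811283)]) (FT.cons (FT.leaf [(nat_lit 7712599), (nat_lit 7830641)]) (FT.cons (FT.leaf [(nat_lit 7967737)]) (FT.cons (FT.leaf [(nat_lit 8220032)]) (FT.cons (FT.leaf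
 [(nat_lit 8469164)]) (FT.cons (FT.leaf [(nat_lit 8714900)]) FT.nil)))))))))) (FT.cons (FT.cons (FT.leaf [(nat_lit 6948396), (nat_lit 7063332), (nat_lit 7179687), (nat_lit 7297105), (nat_lit 7415298), (nat_lit 7534030), (nat_lit 7653104), (nat_lit 7772356), (nat_lit 7891643)]) (FT.cons (FT.leaf [(nat_lit 7204571), (nat_lit 7320556), (nat_lit 7437492), (nat_lit 7555107), (nat_lit 7673179), (nat_lit 7791522), (nat_lit 7909981), (nat_lit 8028426)]) (FT.cons (FT.leaf [(nat_lit 7460387), (nat_lit 7576779), (nat_lit 7693764), (nat_lit 7811133), (nat_lit 7928709), (nat_lit 8046348)]) (FT.cons (FT.leaf [(nat_lit 7714932), (nat_lit 7831243), (nat_lit 7947871), (nat_lit 8064650)]) (FT.cons (FT.leaf [(nat_lit 7967522), (nat_lit 8083378)]) (FT.cons (FT.leaf [(nat_lit 8217642)]) (FT.cons (FT.leaf [(nat_lit 8464910)]) (FT.cons (FT.leaf [(nat_lit 8709043)]) FT.nil)))))))) (FT.cons (FT.cons (FT.leaf [(nat_lit 7467955), (nat_lit 7582032), (nat_lit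 7696979), (nat_lit 7812537), (nat_lit 7928495), (nat_lit 8044679), (nat_lit 8160941)]) (FT.cons (FT.leaf [(nat_lit 7719138), (nat_lit 7833508), (nat_lit 7948412), (nat_lit 8063650), (nat_lit 8179058), (nat_lit 8294496)]) (FT.cons (FT.leaf [(nat_lit
 7968899), (nat_lit 8083112), (nat_lit 8197600), (nat_lit 8312207)]) (FT.cons (FT.leaf [(nat_lit 8216622), (nat_lit 8330334)]) (FT.cons (FT.leaf [(nat_lit 8461844)]) (FT.cons (FT.leaf [(nat_lit 8704223)]) FT.nil)))))) (FT.cons (FT.cons (FT.leaf [(nat_lit 7972075), (nat_lit 8084442), (nat_lit 8197293)]) (FT.cons (FT.leaf [(nat_lit 8217131), (nat_lit 8329281)]) (FT.cons (FT.leaf [(nat_lit 8460094)]) (FT.cons (FT.leaf [(nat_lit 8700546)]) FT.nil)))) (FT.cons (FT.cons (FT.leaf [(nat_lit 8459815)]) (FT.cons (FT.leaf [(nat_lit 8698134)]) FT.nil)) (FT.cons (FT.cons (FT.leaf [(nat_lit 8930934)]) FT.nil) (FT.cons (FT.cons (FT.leaf [(nat_lit 9385619)]) FT.nil) (FT.cons (FT.cons (FT.leaf [(nat_lit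 9824313)]) FT.nil) FT.nil))))))))))) (FT.cons (FT.cons (FT.cons (FT.leaf [(nat_lit 6100610), (nat_lit 6200860), (nat_lit 6305750), (nat_lit 6414266), (nat_lit 6525663), (nat_lit 6639361), (nat_lit 6754896), (nat_lit 6871889), (nat_lit 6990025), (nat_lit 7109038), (nat_lit 7228701), (nat_lit 7348820), (nat_lit 7469228), (nat_lit 7589778), (nat_lit 7710343), (nat_lit 7830814), (nat_lit 7951093)]) (FT.cons (FT.leaf [(nat_lit 6339396), (nat_lit 6445379), (nat_lit 6554674), (nat_lit 6666583), (nat_lit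
 6780566), (nat_lit 6896194), (nat_lit 7013113), (nat_lit 7131030), (nat_lit 7249699), (nat_lit 7368909), (nat_lit 7488481), (nat_lit 7608260), (nat_lit 7728110), (nat_lit 7847913), (nat_lit 7967569), (nat_lit 8086987)]) (FT.cons (FT.leaf [(nat_lit 6585029), (nat_lit 6694890), (nat_lit 6807132), (nat_lit 6921248), (nat_lit 7036838), (nat_lit 7153570), (nat_lit 7271172), (nat_lit 7389415), (nat_lit 7508103), (nat_lit 7627070), (nat_lit 7746168), (nat_lit 7865275), (nat_lit 7984283), (nat_lit 8103094)]) (FT.cons (FT.leaf [(nat_lit 6834758), (nat_lit 6947177), (nat_lit 7061295), (nat_lit 7176733), (nat_lit 7293181), (nat_lit 7410387), (nat_lit 7528133), (nat_lit 7646238), (nat_lit 7764546), (nat_lit 7882924), (nat_lit 8001252), (nat_lit 8119432)]) (FT.cons (FT.leaf [(nat_lit 7086608), (nat_lit 7200613), (nat_lit 7315800), (nat_lit 7431882), (nat_lit 7548618), (nat_lit 7665807), (nat_lit 7783277), (nat_lit 7900884), (nat_lit 8018502),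 (nat_lit 8136024)]) (FT.cons (FT.leaf [(nat_lit 7339121), (nat_lit 7453974), (nat_lit 7569616), (nat_lit 7685821), (nat_lit 7802399), (nat_lit 7919191), (nat_lit 8036060), (nat_lit 8152888)]) (FT.cons (FT.leaf [(nat_lit 7591198), (nat_lit 7706337),
 (nat_lit 7821957), (nat_lit 7937880), (nat_lit 8053955), (nat_lit 8170054)]) (FT.cons (FT.leaf [(nat_lit 7842007), (nat_lit 7956996), (nat_lit 8072225), (nat_lit 8187552)]) (FT.cons (FT.leaf [(nat_lit 8090914), (nat_lit 8205416)]) (FT.cons (FT.leaf [(nat_lit 8337438)]) (FT.cons (FT.leaf [(nat_lit 8581214)]) (FT.cons (FT.leaf [(nat_lit 8821972)]) FT.nil)))))))))))) (FT.cons (FT.cons (FT.leaf [(nat_lit 6610970), (nat_lit 6716276), (nat_lit 6824661), (nat_lit 6935455), (nat_lit 7048143), (nat_lit 7162317), (nat_lit 7277645), (nat_lit 7393853), (nat_lit 7510710), (nat_lit 7628021), (nat_lit 7745619), (nat_lit 7863359), (nat_lit 7981119), (nat_lit 8098790), (nat_lit 8216277)]) (FT.cons (FT.leaf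 [(nat_lit 6854121), (nat_lit 6962901), (nat_lit 7073882), (nat_lit 7186578), (nat_lit 7300608), (nat_lit 7415661), (nat_lit 7531481), (nat_lit 7647852), (nat_lit 7764591), (nat_lit 7881545), (nat_lit 7998579), (nat_lit 8115575), (nat_lit 8232436), (nat_lit 8349075)]) (FT.cons (FT.leaf [(nat_lit 7100664), (nat_lit 7211699), (nat_lit 7324291), (nat_lit 7438082), (nat_lit 7552778), (nat_lit 7668140), (nat_lit 7783965), (nat_lit 7900085), (nat_lit 8016352), (nat_lit 8132642), (nat_lit 8248849),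
 (nat_lit 8364876)]) (FT.cons (FT.leaf [(nat_lit 7348814), (nat_lit 7461206), (nat_lit 7574674), (nat_lit 7688942), (nat_lit 7803786), (nat_lit 7919016), (nat_lit 8034472), (nat_lit 8150017), (nat_lit 8265535), (nat_lit 8380926)]) (FT.cons (FT.leaf [(nat_lit 7597258), (nat_lit 7710331), (nat_lit 7824111), (nat_lit 7938385), (nat_lit 8052975), (nat_lit 8167730), (nat_lit 8282524), (nat_lit 8397244)]) (FT.cons (FT.leaf [(nat_lit 7845008), (nat_lit 7958247), (nat_lit 8071907), (nat_lit 8185819), (nat_lit 8299843), (nat_lit 8413858)]) (FT.cons (FT.leaf [(nat_lit 8091321), (nat_lit 8204327), (nat_lit 8317531), (nat_lit 8430797)]) (FT.cons (FT.leaf [(nat_lit 8335629), (nat_lit 8448097)]) (FT.cons (FT.leaf [(nat_lit 8577506)]) (FT.cons (FT.leaf [(nat_lit 8816627)]) (FT.cons (FT.leaf [(nat_lit 9052754)]) FT.nil))))))))))) (FT.cons (FT.cons (FT.leaf [(nat_lit 7118087), (nat_lit 7225658), (nat_lit 7335271), (nat_lit 7446464), (nat_lit 7558871),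 (nat_lit 7672199), (nat_lit 7786206), (nat_lit 7900689), (nat_lit 8015478), (nat_lit 8130428), (nat_lit 8245414)]) (FT.cons (FT.leaf [(nat_lit 7361235), (nat_lit 7470803), (nat_lit 7581808), (nat_lit 7693906), (nat_lit 7806820), (nat_lit 7920323),
 (nat_lit 8034225), (nat_lit 8148367), (nat_lit 8262612), (nat_lit 8376843)]) (FT.cons (FT.leaf [(nat_lit 7605570), (nat_lit 7716304), (nat_lit 7828022), (nat_lit 7940463), (nat_lit 8053412), (nat_lit 8166691), (nat_lit 8280149), (nat_lit 8393658)]) (FT.cons (FT.leaf [(nat_lit 7849900), (nat_lit 7961177), (nat_lit 8073092), (nat_lit 8185444), (nat_lit 8298062), (nat_lit 8410806)]) (FT.cons (FT.leaf [(nat_lit 8093335), (nat_lit 8204680), (nat_lit 8316395), (nat_lit 8428322)]) (FT.cons (FT.leaf [(nat_lit 8335202), (nat_lit 8446251)]) (FT.cons (FT.leaf [(nat_lit 8574995)]) (FT.cons (FT.leaf [(nat_lit 8812329)]) (FT.cons (FT.leaf [(nat_lit 9046917)]) (FT.cons (FT.leaf [(nat_lit 9278547)])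 FT.nil)))))))))) (FT.cons (FT.cons (FT.leaf [(nat_lit 7616501), (nat_lit 7724547), (nat_lit 7833924), (nat_lit 7944305), (nat_lit 8055425), (nat_lit 8167069), (nat_lit 8279058), (nat_lit 8391241), (nat_lit 8503489)]) (FT.cons (FT.leaf [(nat_lit 7856955), (nat_lit 7966007), (nat_lit 8075963), (nat_lit 8186574), (nat_lit 8297638), (nat_lit 8408984), (nat_lit 8520471), (nat_lit 8631978)]) (FT.cons (FT.leaf [(nat_lit 8097164), (nat_lit 8206644), (nat_lit 8316703), (nat_lit 8427149), (nat_lit 8537822),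
 (nat_lit 8648587)]) (FT.cons (FT.leaf [(nat_lit 8336319), (nat_lit 8445788), (nat_lit 8555584), (nat_lit 8665558)]) (FT.cons (FT.leaf [(nat_lit 8573812), (nat_lit 8682932)]) (FT.cons (FT.leaf [(nat_lit 8809183)]) (FT.cons (FT.leaf [(nat_lit 9042086)]) (FT.cons (FT.leaf [(nat_lit 9272266)]) FT.nil)))))))) (FT.cons (FT.cons (FT.leaf [(nat_lit 8103072), (nat_lit 8210432), (nat_lit 8318628), (nat_lit 8427421), (nat_lit 8536617), (nat_lit 8646057), (nat_lit 8755604)]) (FT.cons (FT.leaf [(nat_lit 8339181), (nat_lit 8446873), (nat_lit 8555095), (nat_lit 8663660), (nat_lit 8772419), (nat_lit 8881244)]) (FT.cons (FT.leaf [(nat_lit 8574112), (nat_lit 8681729), (nat_lit 8789638), (nat_lit 8897694)]) (FT.cons (FT.leaf [(nat_lit 8807312), (nat_lit 8914541)]) (FT.cons (FT.leaf [(nat_lit 9038363)]) (FT.cons (FT.leaf [(nat_lit 9266952)]) FT.nil)))))) (FT.cons (FT.cons (FT.leaf [(nat_lit 8576092), (nat_lit 8682015), (nat_lit 8788423)]) (FT.cons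 (FT.leaf [(nat_lit 8806870), (nat_lit 8912665)]) (FT.cons (FT.leaf [(nat_lit 9035868)]) (FT.cons (FT.leaf [(nat_lit 9262705)]) FT.nil)))) (FT.cons (FT.cons (FT.leaf [(nat_lit 9034748)]) (FT.cons (FT.leaf [(nat_lit 9259641)]) FT.nil)) (FT.cons (FT.cons
 (FT.leaf [(nat_lit 9478793)]) FT.nil) (FT.cons (FT.cons (FT.leaf [(nat_lit 9908338)]) FT.nil) (FT.cons (FT.cons (FT.leaf [(nat_lit 10323717)]) FT.nil) FT.nil)))))))))) (FT.cons (FT.cons (FT.cons (FT.leaf [(nat_lit 7291702), (nat_lit 7391166), (nat_lit 7493476), (nat_lit 7598007), (nat_lit 7704284), (nat_lit 7811933), (nat_lit 7920648), (nat_lit 8030180), (nat_lit 8140320), (nat_lit 8250891), (nat_lit 8361741), (nat_lit 8472743), (nat_lit 8583782)]) (FT.cons (FT.leaf [(nat_lit 7520827), (nat_lit 7623471), (nat_lit 7728150), (nat_lit 7834419), (nat_lit 7941926), (nat_lit 8050385), (nat_lit 8159563), (nat_lit 8269264), (nat_lit 8379322), (nat_lit 8489597), (nat_lit 8599966), (nat_lit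 8710325)]) (FT.cons (FT.leaf [(nat_lit 7753005), (nat_lit 7857721), (nat_lit 7963887), (nat_lit 8071171), (nat_lit 8179307), (nat_lit 8288072), (nat_lit 8397284), (nat_lit 8506787), (nat_lit 8616450), (nat_lit 8726159)]) (FT.cons (FT.leaf [(nat_lit 7986645), (nat_lit 8092626), (nat_lit 8199618), (nat_lit 8307369), (nat_lit 8415670), (nat_lit 8524351), (nat_lit 8633263), (nat_lit 8742284)]) (FT.cons (FT.leaf [(nat_lit 8220583), (nat_lit 8327221), (nat_lit 8434536), (nat_lit 8542331), (nat_lit 8650443),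
 (nat_lit 8758734)]) (FT.cons (FT.leaf [(nat_lit 8453945), (nat_lit 8560779), (nat_lit 8668029), (nat_lit 8775540)]) (FT.cons (FT.leaf [(nat_lit 8686073), (nat_lit 8792745)]) (FT.cons (FT.leaf [(nat_lit 8916464)]) (FT.cons (FT.leaf [(nat_lit 9144735)]) FT.nil))))))))) (FT.cons (FT.cons (FT.leaf [(nat_lit 7767915), (nat_lit 7869443), (nat_lit 7972873), (nat_lit 8077778), (nat_lit 8183820), (nat_lit 8290728), (nat_lit 8398282), (nat_lit 8506296), (nat_lit 8614614), (nat_lit 8723103), (nat_lit 8831651)]) (FT.cons (FT.leaf [(nat_lit 7996998), (nat_lit 8100384), (nat_lit 8205119), (nat_lit 8310883), (nat_lit 8417422), (nat_lit 8524526), (nat_lit 8632023), (nat_lit 8739764), (nat_lit 8847627), (nat_lit 8955505)]) (FT.cons (FT.leaf [(nat_lit 8227200), (nat_lit 8331693), (nat_lit 8437119), (nat_lit 8543236), (nat_lit 8649848), (nat_lit 8756791), (nat_lit 8863927), (nat_lit 8971138)]) (FT.cons (FT.leaf [(nat_lit 8457458), (nat_lit 8562492),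 (nat_lit 8668145), (nat_lit 8774227), (nat_lit 8880585), (nat_lit 8987088)]) (FT.cons (FT.leaf [(nat_lit 8686975), (nat_lit 8792122), (nat_lit 8897643), (nat_lit 9003389)]) (FT.cons (FT.leaf [(nat_lit 8915151), (nat_lit 9020081)]) (FT.cons (FT.leaf
 [(nat_lit 9141530)]) (FT.cons (FT.leaf [(nat_lit 9365768)]) FT.nil)))))))) (FT.cons (FT.cons (FT.leaf [(nat_lit 8236268), (nat_lit 8338286), (nat_lit 8441560), (nat_lit 8545788), (nat_lit 8650725), (nat_lit 8756171), (nat_lit 8861963), (nat_lit 8967961), (nat_lit 9074049)]) (FT.cons (FT.leaf [(nat_lit 8462992), (nat_lit 8565980), (nat_lit 8669833), (nat_lit 8774320), (nat_lit 8879253), (nat_lit 8984476), (nat_lit 9089858), (nat_lit 9195288)]) (FT.cons (FT.leaf [(nat_lit 8689572), (nat_lit 8793005), (nat_lit 8897004), (nat_lit 9001391), (nat_lit 9106019), (nat_lit 9210762)]) (FT.cons (FT.leaf [(nat_lit 8915280), (nat_lit 9018758), (nat_lit 9122571), (nat_lit 9226580)]) (FT.cons (FT.leaf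 [(nat_lit 9139566), (nat_lit 9242783)]) (FT.cons (FT.leaf [(nat_lit 9362016)]) FT.nil)))))) (FT.cons (FT.cons (FT.leaf [(nat_lit 8694116), (nat_lit 8795594), (nat_lit 8897878), (nat_lit 9000745), (nat_lit 9104016)]) (FT.cons (FT.leaf [(nat_lit 8917042), (nat_lit 9018883), (nat_lit 9121246), (nat_lit 9223960)]) (FT.cons (FT.leaf [(nat_lit 9138992), (nat_lit 9240822)]) (FT.cons (FT.leaf [(nat_lit 9359460)]) FT.nil)))) (FT.cons (FT.cons (FT.leaf [(nat_lit 9139990), (nat_lit 9240255), (nat_lit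
 9341003)]) (FT.cons (FT.leaf [(nat_lit 9358241), (nat_lit 9458449)]) FT.nil)) (FT.cons (FT.cons (FT.leaf [(nat_lit 9573162)]) FT.nil) (FT.cons (FT.cons (FT.leaf [(nat_lit 9993382)]) FT.nil) (FT.cons (FT.cons (FT.leaf [(nat_lit 10400704)]) FT.nil) FT.nil)))))))) (FT.cons (FT.cons (FT.cons (FT.leaf [(nat_lit 8372523), (nat_lit 8468713), (nat_lit 8566687), (nat_lit 8666045), (nat_lit 8766475), (nat_lit 8867727), (nat_lit 8969595), (nat_lit 9071907), (nat_lit 9174523)]) (FT.cons (FT.leaf [(nat_lit 8589210), (nat_lit 8687145), (nat_lit 8786351), (nat_lit 8886532), (nat_lit 8987452), (nat_lit 9088917), (nat_lit 9190768), (nat_lit 9292868)]) (FT.cons (FT.leaf [(nat_lit 8806970), (nat_lit 8905961), (nat_lit 9005840), (nat_lit 9106385), (nat_lit 9207410), (nat_lit 9308767)]) (FT.cons (FT.leaf [(nat_lit 9024840), (nat_lit 9124371), (nat_lit 9224501), (nat_lit 9325055)]) (FT.cons (FT.leaf [(nat_lit 9242101), (nat_lit 9341782)]) (FT.cons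 (FT.leaf [(nat_lit 9458211)]) (FT.cons (FT.leaf [(nat_lit 9672756)]) FT.nil))))))) (FT.cons (FT.cons (FT.leaf [(nat_lit 8814486), (nat_lit 8911184), (nat_lit 9009075), (nat_lit 9107874), (nat_lit 9207354), (nat_lit 9307332), (nat_lit 9407654)]) (FT.cons
 (FT.leaf [(nat_lit 9029114), (nat_lit 9126752), (nat_lit 9225218), (nat_lit 9324299), (nat_lit 9423819), (nat_lit 9523634)]) (FT.cons (FT.leaf [(nat_lit 9243682), (nat_lit 9341777), (nat_lit 9440424), (nat_lit 9539459)]) (FT.cons (FT.leaf [(nat_lit 9457529), (nat_lit 9555714)]) (FT.cons (FT.leaf [(nat_lit 9670156)]) (FT.cons (FT.leaf [(nat_lit 9881181)]) FT.nil)))))) (FT.cons (FT.cons (FT.leaf [(nat_lit 9247092), (nat_lit 9343373), (nat_lit 9440432), (nat_lit 9538060), (nat_lit 9636090)]) (FT.cons (FT.leaf [(nat_lit 9458382), (nat_lit 9555049), (nat_lit 9652229), (nat_lit 9749764)]) (FT.cons (FT.leaf [(nat_lit 9668860), (nat_lit 9765568)]) (FT.cons (FT.leaf [(nat_lit 9878065)])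 FT.nil)))) (FT.cons (FT.cons (FT.leaf [(nat_lit 9669045)]) (FT.cons (FT.leaf [(nat_lit 9876208)]) FT.nil)) (FT.cons (FT.cons (FT.leaf [(nat_lit 10079685)]) FT.nil) (FT.cons (FT.cons (FT.leaf [(nat_lit 10478755)]) FT.nil) FT.nil)))))) (FT.cons (FT.cons (FT.cons (FT.leaf [(nat_lit 9356606), (nat_lit 9448573), (nat_lit 9541675), (nat_lit 9635646), (nat_lit 9730273)]) (FT.cons (FT.leaf [(nat_lit 9560489), (nat_lit 9653367), (nat_lit 9747042), (nat_lit 9841312)]) (FT.cons (FT.leaf [(nat_lit 9764384), (nat_lit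
 9857727)]) (FT.cons (FT.leaf [(nat_lit 9967683)]) (FT.cons (FT.leaf [(nat_lit 10169929)]) FT.nil))))) (FT.cons (FT.cons (FT.leaf [(nat_lit 9766840), (nat_lit 9858493), (nat_lit 9950896)]) (FT.cons (FT.leaf [(nat_lit 9967776), (nat_lit 10059830)]) (FT.cons (FT.leaf [(nat_lit 10168036)]) (FT.cons (FT.leaf [(nat_lit 10367195)]) FT.nil)))) (FT.cons (FT.cons (FT.leaf [(nat_lit 10167540)]) (FT.cons (FT.leaf [(nat_lit 10364807)]) FT.nil)) (FT.cons (FT.cons (FT.leaf [(nat_lit 10558094)]) FT.nil) FT.nil)))) (FT.cons (FT.cons (FT.cons (FT.leaf [(nat_lit 10257323)]) FT.nil) (FT.cons (FT.cons (FT.leaf [(nat_lit 10638998)]) FT.nil) FT.nil)) (FT.cons (FT.cons (FT.cons (FT.leaf [(nat_lit 11086356)]) FT.nil) FT.nil) (FT.cons (FT.cons (FT.cons (FT.leaf [(nat_lit 11853517)]) FT.nil) FT.nil) (FT.cons (FT.cons (FT.cons (FT.leaf [(nat_lit 12566937)]) FT.nil) FT.nil) FT.nil)))))))))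

def f200_0_0 : FT := (FT.cons (FT.cons (FT.cons (FT.leaf [(nat_lit 3465756), (nat_lit 3541222), (nat_lit 3629171), (nat_lit 3727125), (nat_lit 3833321), (nat_lit 3946399), (nat_lit 4065269), (nat_lit 4189020), (nat_lit 4316885), (nat_lit 4448201), (nat_lit 4582396), (nat_lit 4718970), (nat_lit 4857484), (nat_lit 4997553), (nat_lit 5138838), (nat_lit 5281036), (nat_lit 5423887), (nat_lit 5567153), (nat_lit 5710630), (nat_lit 5854134), (nat_lit 5997506), (nat_lit 6140604), (nat_lit 6283302)]) (FT.cons (FT.leaf [(nat_lit 3678086), (nat_lit 3772096), (nat_lit 3875182), (nat_lit 3985686), (nat_lit 4102350), (nat_lit 4224167), (nat_lit 4350305), (nat_lit 4480058), (nat_lit 4612826), (nat_lit 4748085), (nat_lit 4885380), (nat_lit 5024314), (nat_lit 5164537), (nat_lit 5305740), (nat_lit 5447654), (nat_lit 5590037), (nat_lit 5732681), (nat_lit 5875396), (nat_lit 6018019), (nat_lit 6160408), (nat_lit 6302431), (nat_lit 6443981)]) (FT.cons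 (FT.leaf [(nat_lit 3919674), (nat_lit 4026987), (nat_lit 4141026), (nat_lit 4260608), (nat_lit 4384795), (nat_lit 4512815), (nat_lit 4644020), (nat_lit 4777857), (nat_lit 4913847), (nat_lit 5051574), (nat_lit 5190676), (nat_lit 5330835), (nat_lit 5471770), (nat_lit 5613234),
 (nat_lit 5755011), (nat_lit 5896911), (nat_lit 6038764), (nat_lit 6180421), (nat_lit 6321753), (nat_lit 6462645)]) (FT.cons (FT.leaf [(nat_lit 4181682), (nat_lit 4298613), (nat_lit 4420553), (nat_lit 4546620), (nat_lit 4676095), (nat_lit 4808378), (nat_lit 4942958), (nat_lit 5079394), (nat_lit 5217305), (nat_lit 5356360), (nat_lit 5496266), (nat_lit 5636771), (nat_lit 5777649), (nat_lit 5918701), (nat_lit 6059756), (nat_lit 6200661), (nat_lit 6341280), (nat_lit 6481497)]) (FT.cons (FT.leaf [(nat_lit 4457846), (nat_lit 4581667), (nat_lit 4709197), (nat_lit 4839761), (nat_lit 4972801), (nat_lit 5107843), (nat_lit 5244481), (nat_lit 5382363), (nat_lit 5521187),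 (nat_lit 5660682), (nat_lit 5800619), (nat_lit 5940791), (nat_lit 6081018), (nat_lit 6221144), (nat_lit 6361030), (nat_lit 6500553)]) (FT.cons (FT.leaf [(nat_lit 4743516), (nat_lit 4872150), (nat_lit 5003488), (nat_lit 5137010), (nat_lit 5272274), (nat_lit 5408904), (nat_lit 5546575), (nat_lit 5685007), (nat_lit 5823956), (nat_lit 5963207), (nat_lit 6102574), (nat_lit 6241892), (nat_lit 6381018), (nat_lit 6519825)]) (FT.cons (FT.leaf [(nat_lit 5035161), (nat_lit 5167004), (nat_lit 5300769), (nat_lit 5436047), (nat_lit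
 5572488), (nat_lit 5709791), (nat_lit 5847698), (nat_lit 5985983), (nat_lit 6124450), (nat_lit 6262927), (nat_lit 6401265), (nat_lit 6539332)]) (FT.cons (FT.leaf [(nat_lit 5330074), (nat_lit 5463879), (nat_lit 5598992), (nat_lit 5735088), (nat_lit 5871890), (nat_lit 6009155), (nat_lit 6146678), (nat_lit 6284277), (nat_lit 6421795), (nat_lit 6559093)]) (FT.cons (FT.leaf [(nat_lit 5626171), (nat_lit 5760966), (nat_lit 5896584), (nat_lit 6032768), (nat_lit 6169295), (nat_lit 6305972), (nat_lit 6442632), (nat_lit 6579130)]) (FT.cons (FT.leaf [(nat_lit 5921847), (nat_lit 6056874), (nat_lit 6192343), (nat_lit 6328047), (nat_lit 6463807), (nat_lit 6599469)]) (FT.cons (FT.leaf [(nat_lit 6215874), (nat_lit 6350545), (nat_lit 6485356), (nat_lit 6620140)]) (FT.cons (FT.leaf [(nat_lit 6507318), (nat_lit 6641176)]) (FT.cons (FT.leaf [(nat_lit 6795474)]) (FT.cons (FT.leaf [(nat_lit 7079819)]) (FT.cons (FT.leaf [(nat_lit 7359972)]) (FT.cons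 (FT.leaf [(nat_lit 7635667)]) FT.nil)))))))))))))))) (FT.cons (FT.cons (FT.leaf [(nat_lit 3986420), (nat_lit 4084156), (nat_lit 4190327), (nat_lit 4303251), (nat_lit 4421690), (nat_lit 4544675), (nat_lit 4671423), (nat_lit 4801280), (nat_lit 4933695),
 (nat_lit 5068196), (nat_lit 5204373), (nat_lit 5341872), (nat_lit 5480380), (nat_lit 5619627), (nat_lit 5759374), (nat_lit 5899411), (nat_lit 6039553), (nat_lit 6179639), (nat_lit 6319523), (nat_lit 6459081), (nat_lit 6598204)]) (FT.cons (FT.leaf [(nat_lit 4234373), (nat_lit 4343924), (nat_lit 4459614), (nat_lit 4580282), (nat_lit 4705024), (nat_lit 4833116), (nat_lit 4963951), (nat_lit 5097024), (nat_lit 5231897), (nat_lit 5368198), (nat_lit 5505600), (nat_lit 5643819), (nat_lit 5782608), (nat_lit 5921748), (nat_lit 6061049), (nat_lit 6200343), (nat_lit 6339481), (nat_lit 6478335), (nat_lit 6616790), (nat_lit 6754748)]) (FT.cons (FT.leaf [(nat_lit 4499508), (nat_lit 4617440), (nat_lit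 4739881), (nat_lit 4865986), (nat_lit 4995075), (nat_lit 5126588), (nat_lit 5260056), (nat_lit 5395075), (nat_lit 5531301), (nat_lit 5668436), (nat_lit 5806218), (nat_lit 5944421), (nat_lit 6082845), (nat_lit 6221318), (nat_lit 6359683), (nat_lit 6497809), (nat_lit 6635578), (nat_lit 6772886)]) (FT.cons (FT.leaf [(nat_lit 4776257), (nat_lit 4900084), (nat_lit 5027211), (nat_lit 5157003), (nat_lit 5288935), (nat_lit 5422572), (nat_lit 5557540), (nat_lit 5693523), (nat_lit 5830242), (nat_lit 5967461),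
 (nat_lit 6104969), (nat_lit 6242586), (nat_lit 6380150), (nat_lit 6517524), (nat_lit 6654583), (nat_lit 6791222)]) (FT.cons (FT.leaf [(nat_lit 5060550), (nat_lit 5188408), (nat_lit 5318646), (nat_lit 5450774), (nat_lit 5584387), (nat_lit 5719136), (nat_lit 5854727), (nat_lit 5990907), (nat_lit 6127454), (nat_lit 6264175), (nat_lit 6400906), (nat_lit 6537498), (nat_lit 6673824), (nat_lit 6809773)]) (FT.cons (FT.leaf [(nat_lit 5349327), (nat_lit 5479790), (nat_lit 5611923), (nat_lit 5745343), (nat_lit 5879727), (nat_lit 6014804), (nat_lit 6150335), (nat_lit 6286118), (nat_lit 6421975), (nat_lit 6557754), (nat_lit 6693319), (nat_lit 6828554)]) (FT.cons (FT.leaf [(nat_lit 5640255), (nat_lit 5772225), (nat_lit 5905308), (nat_lit 6039204), (nat_lit 6173658), (nat_lit 6308449), (nat_lit 6443391), (nat_lit 6578319), (nat_lit 6713091), (nat_lit 6847583)]) (FT.cons (FT.leaf [(nat_lit 5931551), (nat_lit 6064174), (nat_lit 6197474), (nat_lit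 6331213), (nat_lit 6465187), (nat_lit 6599221), (nat_lit 6733164), (nat_lit 6866884)]) (FT.cons (FT.leaf [(nat_lit 6221848), (nat_lit 6354461), (nat_lit 6487407), (nat_lit 6620498), (nat_lit 6753570), (nat_lit 6886482)]) (FT.cons (FT.leaf [(nat_lit
 6510101), (nat_lit 6642189), (nat_lit 6774342), (nat_lit 6906405)]) (FT.cons (FT.leaf [(nat_lit 6795519), (nat_lit 6926686)]) (FT.cons (FT.leaf [(nat_lit 7077510)]) (FT.cons (FT.leaf [(nat_lit 7355634)]) (FT.cons (FT.leaf [(nat_lit 7629577)]) (FT.cons (FT.leaf [(nat_lit 7899121)]) FT.nil))))))))))))))) (FT.cons (FT.cons (FT.leaf [(nat_lit 4547987), (nat_lit 4658805), (nat_lit 4775268), (nat_lit 4896238), (nat_lit 5020848), (nat_lit 5148409), (nat_lit 5278359), (nat_lit 5410226), (nat_lit 5543614), (nat_lit 5678178), (nat_lit 5813627), (nat_lit 5949704), (nat_lit 6086188), (nat_lit 6222886), (nat_lit 6359625), (nat_lit 6496257), (nat_lit 6632654), (nat_lit 6768699), (nat_lit 6904292)])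 (FT.cons (FT.leaf [(nat_lit 4814244), (nat_lit 4932440), (nat_lit 5054729), (nat_lit 5180298), (nat_lit 5308505), (nat_lit 5438825), (nat_lit 5570821), (nat_lit 5704125), (nat_lit 5838420), (nat_lit 5973437), (nat_lit 6108940), (nat_lit 6244726), (nat_lit 6380614), (nat_lit 6516453), (nat_lit 6652102), (nat_lit 6787446), (nat_lit 6922378), (nat_lit 7056808)]) (FT.cons (FT.leaf [(nat_lit 5090111), (nat_lit 5213399), (nat_lit 5339650), (nat_lit 5468259), (nat_lit 5598738), (nat_lit 5730680), (nat_lit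
 5863742), (nat_lit 5997631), (nat_lit 6132098), (nat_lit 6266926), (nat_lit 6401926), (nat_lit 6536935), (nat_lit 6671812), (nat_lit 6806428), (nat_lit 6940678), (nat_lit 7074464)]) (FT.cons (FT.leaf [(nat_lit 5371978), (nat_lit 5498669), (nat_lit 5627473), (nat_lit 5757930), (nat_lit 5889659), (nat_lit 6022342), (nat_lit 6155709), (nat_lit 6289525), (nat_lit 6423592), (nat_lit 6557734), (nat_lit 6691803), (nat_lit 6825666), (nat_lit 6959208), (nat_lit 7092329)]) (FT.cons (FT.leaf [(nat_lit 5657162), (nat_lit 5785978), (nat_lit 5916255), (nat_lit 6047636), (nat_lit 6179825), (nat_lit 6312566), (nat_lit 6445646), (nat_lit 6578879), (nat_lit 6712103), (nat_lit 6845180), (nat_lit 6977987), (nat_lit 7110421)]) (FT.cons (FT.leaf [(nat_lit 5943632), (nat_lit 6073594), (nat_lit 6204511), (nat_lit 6336103), (nat_lit 6468134), (nat_lit 6600405), (nat_lit 6732742), (nat_lit 6864996), (nat_lit 6997038), (nat_lit 7128757)]) (FT.cons (FT.leaf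 [(nat_lit 6229847), (nat_lit 6360197), (nat_lit 6491107), (nat_lit 6622356), (nat_lit 6753755), (nat_lit 6885145), (nat_lit 7016385), (nat_lit 7147359)]) (FT.cons (FT.leaf [(nat_lit 6514626), (nat_lit 6644780), (nat_lit 6775183), (nat_lit 6905660),
 (nat_lit 7036059), (nat_lit 7166253)]) (FT.cons (FT.leaf [(nat_lit 6797076), (nat_lit 6926581), (nat_lit 7056091), (nat_lit 7185464)]) (FT.cons (FT.leaf [(nat_lit 7076521), (nat_lit 7205028)]) (FT.cons (FT.leaf [(nat_lit 7352455)]) (FT.cons (FT.leaf [(nat_lit 7624512)]) (FT.cons (FT.leaf [(nat_lit 7892426)]) FT.nil))))))))))))) (FT.cons (FT.cons (FT.leaf [(nat_lit 5124724), (nat_lit 5242635), (nat_lit 5364289), (nat_lit 5488904), (nat_lit 5615869), (nat_lit 5744690), (nat_lit 5874962), (nat_lit 6006343), (nat_lit 6138543), (nat_lit 6271315), (nat_lit 6404444), (nat_lit 6537748), (nat_lit 6671064), (nat_lit 6804252), (nat_lit 6937190)]) (FT.cons (FT.leaf [(nat_lit 5398640), (nat_lit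 5520988), (nat_lit 5646017), (nat_lit 5773152), (nat_lit 5901933), (nat_lit 6031980), (nat_lit 6162974), (nat_lit 6294648), (nat_lit 6426770), (nat_lit 6559144), (nat_lit 6691599), (nat_lit 6823987), (nat_lit 6956177), (nat_lit 7088060)]) (FT.cons (FT.leaf [(nat_lit 5677330), (nat_lit 5802573), (nat_lit 5929707), (nat_lit 6058298), (nat_lit 6187990), (nat_lit 6318487), (nat_lit 6449539), (nat_lit 6580931), (nat_lit 6712482), (nat_lit 6844031), (nat_lit 6975442), (nat_lit 7106597)]) (FT.cons (FT.leaf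
 [(nat_lit 5958419), (nat_lit 6085401), (nat_lit 6213672), (nat_lit 6342899), (nat_lit 6472804), (nat_lit 6603152), (nat_lit 6733746), (nat_lit 6864414), (nat_lit 6995010), (nat_lit 7125406)]) (FT.cons (FT.leaf [(nat_lit 6240121), (nat_lit 6367962), (nat_lit 6496629), (nat_lit 6625859), (nat_lit 6755436), (nat_lit 6885172), (nat_lit 7014910), (nat_lit 7144511)]) (FT.cons (FT.leaf [(nat_lit 6521090), (nat_lit 6649113), (nat_lit 6777600), (nat_lit 6906346), (nat_lit 7035176), (nat_lit 7163942)]) (FT.cons (FT.leaf [(nat_lit 6800301), (nat_lit 6927985), (nat_lit 7055849), (nat_lit 7183732)]) (FT.cons (FT.leaf [(nat_lit 7076978), (nat_lit 7203921)]) (FT.cons (FT.leaf [(nat_lit 7350541)]) (FT.cons (FT.leaf [(nat_lit 7620558)]) (FT.cons (FT.leaf [(nat_lit 7886714)]) FT.nil))))))))))) (FT.cons (FT.cons (FT.leaf [(nat_lit 5701351), (nat_lit 5822467), (nat_lit 5946025), (nat_lit 6071480), (nat_lit 6198393), (nat_lit 6326411), (nat_lit 6455236),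 (nat_lit 6584619), (nat_lit 6714349), (nat_lit 6844243), (nat_lit 6974147), (nat_lit 7103924), (nat_lit 7233457)]) (FT.cons (FT.leaf [(nat_lit 5976335), (nat_lit 6099930), (nat_lit 6225231), (nat_lit 6351827), (nat_lit 6479382), (nat_lit 6607622),
 (nat_lit 6736312), (nat_lit 6865255), (nat_lit 6994283), (nat_lit 7123250), (nat_lit 7252031), (nat_lit 7380518)]) (FT.cons (FT.leaf [(nat_lit 6252989), (nat_lit 6378012), (nat_lit 6504182), (nat_lit 6631185), (nat_lit 6758761), (nat_lit 6886692), (nat_lit 7014794), (nat_lit 7142909), (nat_lit 7270902), (nat_lit 7398657)]) (FT.cons (FT.leaf [(nat_lit 6529734), (nat_lit 6655387), (nat_lit 6781759), (nat_lit 6908605), (nat_lit 7035721), (nat_lit 7162935), (nat_lit 7290099), (nat_lit 7417087)]) (FT.cons (FT.leaf [(nat_lit 6805381), (nat_lit 6931055), (nat_lit 7057114), (nat_lit 7183369), (nat_lit 7309655), (nat_lit 7435836)]) (FT.cons (FT.leaf [(nat_lit 7079033), (nat_lit 7204258), (nat_lit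 7329611), (nat_lit 7454938)]) (FT.cons (FT.leaf [(nat_lit 7350012), (nat_lit 7474429)]) (FT.cons (FT.leaf [(nat_lit 7617814)]) (FT.cons (FT.leaf [(nat_lit 7882066)]) (FT.cons (FT.leaf [(nat_lit 8142500)]) FT.nil)))))))))) (FT.cons (FT.cons (FT.leaf [(nat_lit 6268860), (nat_lit 6390672), (nat_lit 6514031), (nat_lit 6638549), (nat_lit 6763911), (nat_lit 6889856), (nat_lit 7016169), (nat_lit 7142665), (nat_lit 7269187), (nat_lit 7395603), (nat_lit 7521795)]) (FT.cons (FT.leaf [(nat_lit 6540866),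
 (nat_lit 6663850), (nat_lit 6787863), (nat_lit 6912607), (nat_lit 7037839), (nat_lit 7163354), (nat_lit 7288981), (nat_lit 7414573), (nat_lit 7540005), (nat_lit 7665170)]) (FT.cons (FT.leaf [(nat_lit 6812553), (nat_lit 6935984), (nat_lit 7060047), (nat_lit 7184510), (nat_lit 7309183), (nat_lit 7433903), (nat_lit 7558535), (nat_lit 7682959)]) (FT.cons (FT.leaf [(nat_lit 7082866), (nat_lit 7206192), (nat_lit 7329840), (nat_lit 7453632), (nat_lit 7577416), (nat_lit 7701062)]) (FT.cons (FT.leaf [(nat_lit 7351013), (nat_lit 7473808), (nat_lit 7596688), (nat_lit 7719509)]) (FT.cons (FT.leaf [(nat_lit 7616397), (nat_lit 7738339)]) (FT.cons (FT.leaf [(nat_lit 7878578)]) (FT.cons (FT.leaf [(nat_lit 8137230)]) FT.nil)))))))) (FT.cons (FT.cons (FT.leaf [(nat_lit 6822110), (nat_lit 6943011), (nat_lit 7064842), (nat_lit 7187319), (nat_lit 7310213), (nat_lit 7433333), (nat_lit 7556517)]) (FT.cons (FT.leaf [(nat_lit 7088705), (nat_lit 7209907),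 (nat_lit 7331666), (nat_lit 7453767), (nat_lit 7576028), (nat_lit 7698297)]) (FT.cons (FT.leaf [(nat_lit 7353720), (nat_lit 7474716), (nat_lit 7595985), (nat_lit 7717357)]) (FT.cons (FT.leaf [(nat_lit 7616448), (nat_lit 7736854)]) (FT.cons (FT.leaf
 [(nat_lit 7876362)]) (FT.cons (FT.leaf [(nat_lit 8133072)]) FT.nil)))))) (FT.cons (FT.cons (FT.leaf [(nat_lit 7358351), (nat_lit 7477334), (nat_lit 7596813), (nat_lit 7716584), (nat_lit 7836475)]) (FT.cons (FT.leaf [(nat_lit 7618136), (nat_lit 7736837), (nat_lit 7855768), (nat_lit 7974768)]) (FT.cons (FT.leaf [(nat_lit 7875554), (nat_lit 7993620)]) (FT.cons (FT.leaf [(nat_lit 8130136)]) FT.nil)))) (FT.cons (FT.cons (FT.leaf [(nat_lit 7876320)]) (FT.cons (FT.leaf [(nat_lit 8128553)]) FT.nil)) (FT.cons (FT.cons (FT.leaf [(nat_lit 8375664)]) FT.nil) (FT.cons (FT.cons (FT.leaf [(nat_lit 8856586)]) FT.nil) (FT.cons (FT.cons (FT.leaf [(nat_lit 9319614)]) FT.nil) (FT.cons (FT.cons (FT.leaf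 [(nat_lit 9765457)]) FT.nil) FT.nil))))))))))))) (FT.cons (FT.cons (FT.cons (FT.leaf [(nat_lit 4852432), (nat_lit 4946377), (nat_lit 5047960), (nat_lit 5155558), (nat_lit 5267996), (nat_lit 5384375), (nat_lit 5503981), (nat_lit 5626229), (nat_lit 5750633), (nat_lit 5876780), (nat_lit 6004319), (nat_lit 6132947), (nat_lit 6262399), (nat_lit 6392448), (nat_lit 6522895), (nat_lit 6653562), (nat_lit 6784295), (nat_lit 6914959), (nat_lit 7045437), (nat_lit 7175622), (nat_lit 7305422)]) (FT.cons (FT.leaf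
 [(nat_lit 5089036), (nat_lit 5193324), (nat_lit 5303080), (nat_lit 5417213), (nat_lit 5534889), (nat_lit 5655449), (nat_lit 5778354), (nat_lit 5903156), (nat_lit 6029474), (nat_lit 6156987), (nat_lit 6285414), (nat_lit 6414517), (nat_lit 6544084), (nat_lit 6673930), (nat_lit 6803898), (nat_lit 6933845), (nat_lit 7063645), (nat_lit 7193194), (nat_lit 7322392), (nat_lit 7451157)]) (FT.cons (FT.leaf [(nat_lit 5340021), (nat_lit 5451512), (nat_lit 5566980), (nat_lit 5685645), (nat_lit 5806894), (nat_lit 5930227), (nat_lit 6055228), (nat_lit 6181547), (nat_lit 6308885), (nat_lit 6436986), (nat_lit 6565629), (nat_lit 6694618), (nat_lit 6823787), (nat_lit 6952986), (nat_lit 7082088), (nat_lit 7210977), (nat_lit 7339556), (nat_lit 7467735)]) (FT.cons (FT.leaf [(nat_lit 5600501), (nat_lit 5716997), (nat_lit 5836388), (nat_lit 5958098), (nat_lit 6081661), (nat_lit 6206691), (nat_lit 6332863), (nat_lit 6459901), (nat_lit 6587567), (nat_lit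 6715654), (nat_lit 6843986), (nat_lit 6972407), (nat_lit 7100781), (nat_lit 7228989), (nat_lit 7356927), (nat_lit 7484503)]) (FT.cons (FT.leaf [(nat_lit 5867012), (nat_lit 5986902), (nat_lit 6108878), (nat_lit 6232502), (nat_lit 6357415), (nat_lit
 6483313), (nat_lit 6609940), (nat_lit 6737075), (nat_lit 6864527), (nat_lit 6992133), (nat_lit 7119748), (nat_lit 7247248), (nat_lit 7374522), (nat_lit 7501475)]) (FT.cons (FT.leaf [(nat_lit 6137007), (nat_lit 6259078), (nat_lit 6382617), (nat_lit 6507285), (nat_lit 6632800), (nat_lit 6758921), (nat_lit 6885444), (nat_lit 7012193), (nat_lit 7139013), (nat_lit 7265775), (nat_lit 7392359), (nat_lit 7518665)]) (FT.cons (FT.leaf [(nat_lit 6408569), (nat_lit 6531895), (nat_lit 6656208), (nat_lit 6781244), (nat_lit 6906779), (nat_lit 7032622), (nat_lit 7158608), (nat_lit 7284594), (nat_lit 7410458), (nat_lit 7536094)]) (FT.cons (FT.leaf [(nat_lit 6680240), (nat_lit 6804104), (nat_lit 6928581),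 (nat_lit 7053460), (nat_lit 7178562), (nat_lit 7303734), (nat_lit 7428845), (nat_lit 7553779)]) (FT.cons (FT.leaf [(nat_lit 6950908), (nat_lit 7074754), (nat_lit 7198917), (nat_lit 7323229), (nat_lit 7447546), (nat_lit 7571746)]) (FT.cons (FT.leaf [(nat_lit 7219719), (nat_lit 7343115), (nat_lit 7466594), (nat_lit 7590021)]) (FT.cons (FT.leaf [(nat_lit 7486027), (nat_lit 7608636)]) (FT.cons (FT.leaf [(nat_lit 7749338)]) (FT.cons (FT.leaf [(nat_lit 8009289)]) (FT.cons (FT.leaf [(nat_lit 8265612)])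
 FT.nil)))))))))))))) (FT.cons (FT.cons (FT.leaf [(nat_lit 5382265), (nat_lit 5487173), (nat_lit 5597149), (nat_lit 5711130), (nat_lit 5828317), (nat_lit 5948086), (nat_lit 6069929), (nat_lit 6193429), (nat_lit 6318238), (nat_lit 6444056), (nat_lit 6570630), (nat_lit 6697740), (nat_lit 6825195), (nat_lit 6952828), (nat_lit 7080495), (nat_lit 7208070), (nat_lit 7335440), (nat_lit 7462509), (nat_lit 7589189)]) (FT.cons (FT.leaf [(nat_lit 5633151), (nat_lit 5744488), (nat_lit 5859474), (nat_lit 5977362), (nat_lit 6097569), (nat_lit 6219623), (nat_lit 6343137), (nat_lit 6467788), (nat_lit 6593298), (nat_lit 6719432), (nat_lit 6845989), (nat_lit 6972790), (nat_lit 7099683), (nat_lit 7226536), (nat_lit 7353230), (nat_lit 7479664), (nat_lit 7605748), (nat_lit 7731403)]) (FT.cons (FT.leaf [(nat_lit 5892044), (nat_lit 6007779), (nat_lit 6126148), (nat_lit 6246604), (nat_lit 6368707), (nat_lit 6492094), (nat_lit 6616465), (nat_lit 6741563),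 (nat_lit 6867168), (nat_lit 6993094), (nat_lit 7119177), (nat_lit 7245277), (nat_lit 7371268), (nat_lit 7497043), (nat_lit 7622509), (nat_lit 7747584)]) (FT.cons (FT.leaf [(nat_lit 6155843), (nat_lit 6274504), (nat_lit 6395046), (nat_lit 6517055),
 (nat_lit 6640194), (nat_lit 6764180), (nat_lit 6888776), (nat_lit 7013776), (nat_lit 7139006), (nat_lit 7264315), (nat_lit 7389573), (nat_lit 7514665), (nat_lit 7639490), (nat_lit 7763964)]) (FT.cons (FT.leaf [(nat_lit 6422283), (nat_lit 6542769), (nat_lit 6664564), (nat_lit 6787349), (nat_lit 6910861), (nat_lit 7034876), (nat_lit 7159204), (nat_lit 7283684), (nat_lit 7408172), (nat_lit 7532549), (nat_lit 7656709), (nat_lit 7780559)]) (FT.cons (FT.leaf [(nat_lit 6689670), (nat_lit 6811144), (nat_lit 6933485), (nat_lit 7056444), (nat_lit 7179813), (nat_lit 7303413), (nat_lit 7427093), (nat_lit 7550722), (nat_lit 7674186), (nat_lit 7797388)]) (FT.cons (FT.leaf [(nat_lit 6956721), (nat_lit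 7078540), (nat_lit 7200879), (nat_lit 7323544), (nat_lit 7446368), (nat_lit 7569209), (nat_lit 7691944), (nat_lit 7814469)]) (FT.cons (FT.leaf [(nat_lit 7222460), (nat_lit 7344122), (nat_lit 7466035), (nat_lit 7588043), (nat_lit 7710011), (nat_lit 7831827)]) (FT.cons (FT.leaf [(nat_lit 7486142), (nat_lit 7607262), (nat_lit 7728419), (nat_lit 7849486)]) (FT.cons (FT.leaf [(nat_lit 7747203), (nat_lit 7867479)]) (FT.cons (FT.leaf [(nat_lit 8005215)]) (FT.cons (FT.leaf [(nat_lit 8259865)]) (FT.cons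
 (FT.leaf [(nat_lit 8510922)]) FT.nil))))))))))))) (FT.cons (FT.cons (FT.leaf [(nat_lit 5921794), (nat_lit 6032612), (nat_lit 6146799), (nat_lit 6263638), (nat_lit 6382571), (nat_lit 6503155), (nat_lit 6625027), (nat_lit 6747882), (nat_lit 6871466), (nat_lit 6995562), (nat_lit 7119982), (nat_lit 7244566), (nat_lit 7369174), (nat_lit 7493682), (nat_lit 7617986)]) (FT.cons (FT.leaf [(nat_lit 6178412), (nat_lit 6293125), (nat_lit 6410250), (nat_lit 6529265), (nat_lit 6649754), (nat_lit 6771377), (nat_lit 6893851), (nat_lit 7016938), (nat_lit 7140436), (nat_lit 7264171), (nat_lit 7387994), (nat_lit 7511774), (nat_lit 7635400), (nat_lit 7758772)]) (FT.cons (FT.leaf [(nat_lit 6439027), (nat_lit 6556279), (nat_lit 6675239), (nat_lit 6795515), (nat_lit 6916787), (nat_lit 7038793), (nat_lit 7161309), (nat_lit 7284146), (nat_lit 7407143), (nat_lit 7530159), (nat_lit 7653077), (nat_lit 7775789)]) (FT.cons (FT.leaf [(nat_lit 6701607), (nat_lit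 6820393), (nat_lit 6940353), (nat_lit 7061189), (nat_lit 7182652), (nat_lit 7304532), (nat_lit 7426654), (nat_lit 7548867), (nat_lit 7671040), (nat_lit 7793062)]) (FT.cons (FT.leaf [(nat_lit 6964642), (nat_lit 7084199), (nat_lit 7204522), (nat_lit
 7325377), (nat_lit 7446568), (nat_lit 7567929), (nat_lit 7689320), (nat_lit 7810619)]) (FT.cons (FT.leaf [(nat_lit 7226994), (nat_lit 7346739), (nat_lit 7466931), (nat_lit 7587385), (nat_lit 7707947), (nat_lit 7828484)]) (FT.cons (FT.leaf [(nat_lit 7487800), (nat_lit 7607281), (nat_lit 7726959), (nat_lit 7846689)]) (FT.cons (FT.leaf [(nat_lit 7746403), (nat_lit 7865272)]) (FT.cons (FT.leaf [(nat_lit 8002308)]) (FT.cons (FT.leaf [(nat_lit 8255144)]) (FT.cons (FT.leaf [(nat_lit 8504635)]) FT.nil))))))))))) (FT.cons (FT.cons (FT.leaf [(nat_lit 6459354), (nat_lit 6572852), (nat_lit 6688572), (nat_lit 6806014), (nat_lit 6924784), (nat_lit 7044560), (nat_lit 7165079), (nat_lit 7286116), (nat_lit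 7407484), (nat_lit 7529024), (nat_lit 7650594), (nat_lit 7772076), (nat_lit 7893367)]) (FT.cons (FT.leaf [(nat_lit 6716450), (nat_lit 6832166), (nat_lit 6949442), (nat_lit 7067905), (nat_lit 7187254), (nat_lit 7307240), (nat_lit 7427656), (nat_lit 7548324), (nat_lit 7669095), (nat_lit 7789838), (nat_lit 7910444), (nat_lit 8030816)]) (FT.cons (FT.leaf [(nat_lit 6974967), (nat_lit 7091975), (nat_lit 7210046), (nat_lit 7328894), (nat_lit 7448287), (nat_lit 7568028), (nat_lit 7687951), (nat_lit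
 7807917), (nat_lit 7927805), (nat_lit 8047510)]) (FT.cons (FT.leaf [(nat_lit 7233548), (nat_lit 7351151), (nat_lit 7469436), (nat_lit 7588181), (nat_lit 7707202), (nat_lit 7826343), (nat_lit 7945474), (nat_lit 8064481)]) (FT.cons (FT.leaf [(nat_lit 7491176), (nat_lit 7608842), (nat_lit 7726893), (nat_lit 7845156), (nat_lit 7963484), (nat_lit 8081753)]) (FT.cons (FT.leaf [(nat_lit 7747081), (nat_lit 7864400), (nat_lit 7981872), (nat_lit 8099360)]) (FT.cons (FT.leaf [(nat_lit 8000683), (nat_lit 8117337)]) (FT.cons (FT.leaf [(nat_lit 8251543)]) (FT.cons (FT.leaf [(nat_lit 8499333)]) (FT.cons (FT.leaf [(nat_lit 8743816)]) FT.nil)))))))))) (FT.cons (FT.cons (FT.leaf [(nat_lit 6988082), (nat_lit 7102173), (nat_lit 7217697), (nat_lit 7334299), (nat_lit 7451693), (nat_lit 7569645), (nat_lit 7687958), (nat_lit 7806469), (nat_lit 7925035), (nat_lit 8043538), (nat_lit 8161873)]) (FT.cons (FT.leaf [(nat_lit 7242410), (nat_lit 7357593), (nat_lit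 7473743), (nat_lit 7590589), (nat_lit 7707910), (nat_lit 7825521), (nat_lit 7943267), (nat_lit 8061017), (nat_lit 8178658), (nat_lit 8296093)]) (FT.cons (FT.leaf [(nat_lit 7496490), (nat_lit 7612125), (nat_lit 7728370), (nat_lit 7845015), (nat_lit
 7961887), (nat_lit 8078839), (nat_lit 8195747), (nat_lit 8312507)]) (FT.cons (FT.leaf [(nat_lit 7749409), (nat_lit 7865007), (nat_lit 7980938), (nat_lit 8097038), (nat_lit 8213170), (nat_lit 8329217)]) (FT.cons (FT.leaf [(nat_lit 8000476), (nat_lit 8115661), (nat_lit 8230964), (nat_lit 8346254)]) (FT.cons (FT.leaf [(nat_lit 8249172), (nat_lit 8363655)]) (FT.cons (FT.leaf [(nat_lit 8495106)]) (FT.cons (FT.leaf [(nat_lit 8737992)]) FT.nil)))))))) (FT.cons (FT.cons (FT.leaf [(nat_lit 7504021), (nat_lit 7617356), (nat_lit 7731574), (nat_lit 7846420), (nat_lit 7961682), (nat_lit 8077186), (nat_lit 8192787)]) (FT.cons (FT.leaf [(nat_lit 7753598), (nat_lit 7867266), (nat_lit 7981484), (nat_lit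 8096051), (nat_lit 8210804), (nat_lit 8325604)]) (FT.cons (FT.leaf [(nat_lit 8001853), (nat_lit 8115403), (nat_lit 8229245), (nat_lit 8343220)]) (FT.cons (FT.leaf [(nat_lit 8248163), (nat_lit 8361252)]) (FT.cons (FT.leaf [(nat_lit 8492062)]) (FT.cons (FT.leaf [(nat_lit 8733201)]) FT.nil)))))) (FT.cons (FT.cons (FT.leaf [(nat_lit 8005019), (nat_lit 8116734), (nat_lit 8228947), (nat_lit 8341467), (nat_lit 8454140)]) (FT.cons (FT.leaf [(nat_lit 8248676), (nat_lit 8360211), (nat_lit 8471999), (nat_lit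
 8583894)]) (FT.cons (FT.leaf [(nat_lit 8490327), (nat_lit 8601361)]) (FT.cons (FT.leaf [(nat_lit 8729546)]) FT.nil)))) (FT.cons (FT.cons (FT.leaf [(nat_lit 8490056)]) (FT.cons (FT.leaf [(nat_lit 8727151)]) FT.nil)) (FT.cons (FT.cons (FT.leaf [(nat_lit 8958821)]) FT.nil) (FT.cons (FT.cons (FT.leaf [(nat_lit 9411445)]) FT.nil) (FT.cons (FT.cons (FT.leaf [(nat_lit 9848327)]) FT.nil) (FT.cons (FT.cons (FT.leaf [(nat_lit 10270021)]) FT.nil) FT.nil)))))))))))) (FT.cons (FT.cons (FT.cons (FT.leaf [(nat_lit 6147407), (nat_lit 6246727), (nat_lit 6350673), (nat_lit 6458241), (nat_lit 6568694), (nat_lit 6681456), (nat_lit 6796068), (nat_lit 6912155), (nat_lit 7029403), (nat_lit 7147547), (nat_lit 7266362), (nat_lit 7385653), (nat_lit 7505257), (nat_lit 7625023), (nat_lit 7744828), (nat_lit 7864559), (nat_lit 7984120)]) (FT.cons (FT.leaf [(nat_lit 6384031), (nat_lit 6489096), (nat_lit 6597471), (nat_lit 6708465), (nat_lit 6821545), (nat_lit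 6936281), (nat_lit 7052325), (nat_lit 7169386), (nat_lit 7287218), (nat_lit 7405611), (nat_lit 7524387), (nat_lit 7643390), (nat_lit 7762487), (nat_lit 7881558), (nat_lit 8000501), (nat_lit 8119228)]) (FT.cons (FT.leaf [(nat_lit 6627583), (nat_lit
 6736553), (nat_lit 6847909), (nat_lit 6961152), (nat_lit 7075881), (nat_lit 7191770), (nat_lit 7308547), (nat_lit 7425984), (nat_lit 7543884), (nat_lit 7662083), (nat_lit 7780437), (nat_lit 7898818), (nat_lit 8017120), (nat_lit 8135246)]) (FT.cons (FT.leaf [(nat_lit 6875328), (nat_lit 6986892), (nat_lit 7100166), (nat_lit 7214774), (nat_lit 7330409), (nat_lit 7446818), (nat_lit 7563788), (nat_lit 7681135), (nat_lit 7798705), (nat_lit 7916363), (nat_lit 8033993), (nat_lit 8151494)]) (FT.cons (FT.leaf [(nat_lit 7125300), (nat_lit 7238490), (nat_lit 7352877), (nat_lit 7468175), (nat_lit 7584144), (nat_lit 7700584), (nat_lit 7817324), (nat_lit 7934220), (nat_lit 8051146), (nat_lit 8167994)])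 (FT.cons (FT.leaf [(nat_lit 7376043), (nat_lit 7490125), (nat_lit 7605010), (nat_lit 7720476), (nat_lit 7836332), (nat_lit 7952421), (nat_lit 8068604), (nat_lit 8184766)]) (FT.cons (FT.leaf [(nat_lit 7626457), (nat_lit 7740867), (nat_lit 7855775), (nat_lit 7971002), (nat_lit 8086399), (nat_lit 8201838)]) (FT.cons (FT.leaf [(nat_lit 7875706), (nat_lit 7990009), (nat_lit 8104567), (nat_lit 8219240)]) (FT.cons (FT.leaf [(nat_lit 8123152), (nat_lit 8237007)]) (FT.cons (FT.leaf [(nat_lit 8368307)])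
 (FT.cons (FT.leaf [(nat_lit 8610801)]) (FT.cons (FT.leaf [(nat_lit 8850358)]) FT.nil)))))))))))) (FT.cons (FT.cons (FT.leaf [(nat_lit 6653340), (nat_lit 6757794), (nat_lit 6865326), (nat_lit 6975272), (nat_lit 7087123), (nat_lit 7200472), (nat_lit 7314991), (nat_lit 7430405), (nat_lit 7546487), (nat_lit 7663041), (nat_lit 7779901), (nat_lit 7896923), (nat_lit 8013983), (nat_lit 8130973), (nat_lit 8247799)]) (FT.cons (FT.leaf [(nat_lit 6894565), (nat_lit 7002519), (nat_lit 7112680), (nat_lit 7224567), (nat_lit 7337800), (nat_lit 7452072), (nat_lit 7567127), (nat_lit 7682750), (nat_lit 7798760), (nat_lit 7915002), (nat_lit 8031343), (nat_lit 8147667), (nat_lit 8263872), (nat_lit 8379872)]) (FT.cons (FT.leaf [(nat_lit 7139273), (nat_lit 7249515), (nat_lit 7361325), (nat_lit 7474347), (nat_lit 7588289), (nat_lit 7702913), (nat_lit 7818019), (nat_lit 7933435), (nat_lit 8049016), (nat_lit 8164640), (nat_lit 8280196), (nat_lit 8395591)])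 (FT.cons (FT.leaf [(nat_lit 7385686), (nat_lit 7497322), (nat_lit 7610048), (nat_lit 7723589), (nat_lit 7837722), (nat_lit 7952257), (nat_lit 8067034), (nat_lit 8181919), (nat_lit 8296793), (nat_lit 8411557)]) (FT.cons (FT.leaf [(nat_lit 7632491),
 (nat_lit 7744847), (nat_lit 7857926), (nat_lit 7971514), (nat_lit 8085434), (nat_lit 8199535), (nat_lit 8313691), (nat_lit 8427791)]) (FT.cons (FT.leaf [(nat_lit 7878700), (nat_lit 7991261), (nat_lit 8104259), (nat_lit 8217525), (nat_lit 8330919), (nat_lit 8444319)]) (FT.cons (FT.leaf [(nat_lit 8123564), (nat_lit 8235932), (nat_lit 8348512), (nat_lit 8461170)]) (FT.cons (FT.leaf [(nat_lit 8366515), (nat_lit 8478380)]) (FT.cons (FT.leaf [(nat_lit 8607117)]) (FT.cons (FT.leaf [(nat_lit 8845043)]) (FT.cons (FT.leaf [(nat_lit 9080049)]) FT.nil))))))))))) (FT.cons (FT.cons (FT.leaf [(nat_lit 7156591), (nat_lit 7263395), (nat_lit 7372247), (nat_lit 7482688), (nat_lit 7594356), (nat_lit 7706959),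 (nat_lit 7820256), (nat_lit 7934045), (nat_lit 8048156), (nat_lit 8162445), (nat_lit 8276788), (nat_lit 8391076), (nat_lit 8505215)]) (FT.cons (FT.leaf [(nat_lit 7398038), (nat_lit 7506871), (nat_lit 7617149), (nat_lit 7728534), (nat_lit 7840748), (nat_lit 7953566), (nat_lit 8066799), (nat_lit 8180286), (nat_lit 8293893), (nat_lit 8407502), (nat_lit 8521015), (nat_lit 8634341)]) (FT.cons (FT.leaf [(nat_lit 7640763), (nat_lit 7750795), (nat_lit 7861824), (nat_lit 7973589), (nat_lit 8085877),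
 (nat_lit 8198509), (nat_lit 8311336), (nat_lit 8424231), (nat_lit 8537083), (nat_lit 8649799)]) (FT.cons (FT.leaf [(nat_lit 7883573), (nat_lit 7994184), (nat_lit 8105447), (nat_lit 8217159), (nat_lit 8329154), (nat_lit 8441289), (nat_lit 8553445), (nat_lit 8665519)]) (FT.cons (FT.leaf [(nat_lit 8125576), (nat_lit 8236291), (nat_lit 8347390), (nat_lit 8458715), (nat_lit 8570132), (nat_lit 8681528)]) (FT.cons (FT.leaf [(nat_lit 8366097), (nat_lit 8476550), (nat_lit 8587178), (nat_lit 8697854)]) (FT.cons (FT.leaf [(nat_lit 8604625), (nat_lit 8714532)]) (FT.cons (FT.leaf [(nat_lit 8840771)]) (FT.cons (FT.leaf [(nat_lit 9074243)]) (FT.cons (FT.leaf [(nat_lit 9304824)]) FT.nil)))))))))) (FT.cons (FT.cons (FT.leaf [(nat_lit 7651638), (nat_lit 7758999), (nat_lit 7867702), (nat_lit 7977419), (nat_lit 8087888), (nat_lit 8198894), (nat_lit 8310259), (nat_lit 8421833), (nat_lit 8533487)]) (FT.cons (FT.leaf [(nat_lit 7890596), (nat_lit 7998996),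 (nat_lit 8108310), (nat_lit 8218293), (nat_lit 8328740), (nat_lit 8439484), (nat_lit 8550382), (nat_lit 8661316)]) (FT.cons (FT.leaf [(nat_lit 8129393), (nat_lit 8238253), (nat_lit 8347704), (nat_lit 8457554), (nat_lit 8567645), (nat_lit 8677843)])
 (FT.cons (FT.leaf [(nat_lit 8367216), (nat_lit 8476097), (nat_lit 8585319), (nat_lit 8694730)]) (FT.cons (FT.leaf [(nat_lit 8603454), (nat_lit 8712019)]) (FT.cons (FT.leaf [(nat_lit 8837645)]) (FT.cons (FT.leaf [(nat_lit 9069439)]) (FT.cons (FT.leaf [(nat_lit 9298573)]) FT.nil)))))))) (FT.cons (FT.cons (FT.leaf [(nat_lit 8135277), (nat_lit 8242029), (nat_lit 8349626), (nat_lit 8457833), (nat_lit 8566454), (nat_lit 8675331), (nat_lit 8784331)]) (FT.cons (FT.leaf [(nat_lit 8370071), (nat_lit 8477184), (nat_lit 8584838), (nat_lit 8692848), (nat_lit 8801063), (nat_lit 8909357)]) (FT.cons (FT.leaf [(nat_lit 8603761), (nat_lit 8710829), (nat_lit 8818200), (nat_lit 8925731)]) (FT.cons (FT.leaf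 [(nat_lit 8835789), (nat_lit 8942498)]) (FT.cons (FT.leaf [(nat_lit 9065737)]) (FT.cons (FT.leaf [(nat_lit 9293287)]) FT.nil)))))) (FT.cons (FT.cons (FT.leaf [(nat_lit 8605737), (nat_lit 8711120), (nat_lit 8816997), (nat_lit 8923194), (nat_lit 9029567)]) (FT.cons (FT.leaf [(nat_lit 8835355), (nat_lit 8940637), (nat_lit 9046191), (nat_lit 9151878)]) (FT.cons (FT.leaf [(nat_lit 9063258), (nat_lit 9168148)]) (FT.cons (FT.leaf [(nat_lit 9289063)]) FT.nil)))) (FT.cons (FT.cons (FT.leaf [(nat_lit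
 9062149)]) (FT.cons (FT.leaf [(nat_lit 9286017)]) FT.nil)) (FT.cons (FT.cons (FT.leaf [(nat_lit 9504220)]) FT.nil) (FT.cons (FT.cons (FT.leaf [(nat_lit 9932020)]) FT.nil) (FT.cons (FT.cons (FT.leaf [(nat_lit 10345850)]) FT.nil) FT.nil)))))))))) (FT.cons (FT.cons (FT.cons (FT.leaf [(nat_lit 7329050), (nat_lit 7427826), (nat_lit 7529445), (nat_lit 7633289), (nat_lit 7738886), (nat_lit 7845863), (nat_lit 7953917), (nat_lit 8062801), (nat_lit 8172305), (nat_lit 8282253), (nat_lit 8392497), (nat_lit 8502904), (nat_lit 8613363), (nat_lit 8723778), (nat_lit 8834064)]) (FT.cons (FT.leaf [(nat_lit 7556621), (nat_lit 7658594), (nat_lit 7762607), (nat_lit 7868216), (nat_lit 7975072), (nat_lit 8082892), (nat_lit 8191442), (nat_lit 8300528), (nat_lit 8409985), (nat_lit 8519672), (nat_lit 8629468), (nat_lit 8739268), (nat_lit 8848982), (nat_lit 8958530)]) (FT.cons (FT.leaf [(nat_lit 7787310), (nat_lit 7891380), (nat_lit 7996907), (nat_lit 8103561),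 (nat_lit 8211077), (nat_lit 8319235), (nat_lit 8427853), (nat_lit 8536776), (nat_lit 8645870), (nat_lit 8755024), (nat_lit 8864140), (nat_lit 8973132)]) (FT.cons (FT.leaf [(nat_lit 8019534), (nat_lit 8124895), (nat_lit 8231278), (nat_lit 8338430),
 (nat_lit 8446144), (nat_lit 8554250), (nat_lit 8662600), (nat_lit 8771072), (nat_lit 8879559), (nat_lit 8987968)]) (FT.cons (FT.leaf [(nat_lit 8252128), (nat_lit 8358176), (nat_lit 8464912), (nat_lit 8572138), (nat_lit 8679694), (nat_lit 8787441), (nat_lit 8895264), (nat_lit 9003061)]) (FT.cons (FT.leaf [(nat_lit 8484221), (nat_lit 8590494), (nat_lit 8697194), (nat_lit 8804167), (nat_lit 8911284), (nat_lit 9018434)]) (FT.cons (FT.leaf [(nat_lit 8715150), (nat_lit 8821290), (nat_lit 8927652), (nat_lit 9034115)]) (FT.cons (FT.leaf [(nat_lit 8944410), (nat_lit 9050137)]) (FT.cons (FT.leaf [(nat_lit 9171614)]) (FT.cons (FT.leaf [(nat_lit 9396470)]) (FT.cons (FT.leaf [(nat_lit 9618756)])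 FT.nil))))))))))) (FT.cons (FT.cons (FT.leaf [(nat_lit 7802143), (nat_lit 7903045), (nat_lit 8005853), (nat_lit 8110141), (nat_lit 8215577), (nat_lit 8321888), (nat_lit 8428855), (nat_lit 8536294), (nat_lit 8644050), (nat_lit 8751990), (nat_lit 8860002), (nat_lit 8967987), (nat_lit 9075860)]) (FT.cons (FT.leaf [(nat_lit 8029839), (nat_lit 8132622), (nat_lit 8236759), (nat_lit 8341935), (nat_lit 8447895), (nat_lit 8554432), (nat_lit 8661373), (nat_lit 8768571), (nat_lit 8875902), (nat_lit 8983261),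
 (nat_lit 9090554), (nat_lit 9197704)]) (FT.cons (FT.leaf [(nat_lit 8258720), (nat_lit 8362634), (nat_lit 8467490), (nat_lit 8573048), (nat_lit 8679111), (nat_lit 8785516), (nat_lit 8892125), (nat_lit 8998822), (nat_lit 9105507), (nat_lit 9212092)]) (FT.cons (FT.leaf [(nat_lit 8487724), (nat_lit 8592207), (nat_lit 8697316), (nat_lit 8802868), (nat_lit 8908705), (nat_lit 9014699), (nat_lit 9120739), (nat_lit 9226731)]) (FT.cons (FT.leaf [(nat_lit 8716054), (nat_lit 8820677), (nat_lit 8925683), (nat_lit 9030925), (nat_lit 9136280), (nat_lit 9241645)]) (FT.cons (FT.leaf [(nat_lit 8943109), (nat_lit 9047541), (nat_lit 9152164), (nat_lit 9256862)]) (FT.cons (FT.leaf [(nat_lit 9168430), (nat_lit 9272414)]) (FT.cons (FT.leaf [(nat_lit 9391668)]) (FT.cons (FT.leaf [(nat_lit 9612558)]) (FT.cons (FT.leaf [(nat_lit 9830901)]) FT.nil)))))))))) (FT.cons (FT.cons (FT.leaf [(nat_lit 8267749), (nat_lit 8369201), (nat_lit 8471918), (nat_lit 8575595),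 (nat_lit 8679990), (nat_lit 8784906), (nat_lit 8890177), (nat_lit 8995667), (nat_lit 9101257)]) (FT.cons (FT.leaf [(nat_lit 8493239), (nat_lit 8595686), (nat_lit 8699005), (nat_lit 8802968), (nat_lit 8907386), (nat_lit 9012105), (nat_lit 9116994),
 (nat_lit 9221943)]) (FT.cons (FT.leaf [(nat_lit 8718647), (nat_lit 8821563), (nat_lit 8925054), (nat_lit 9028943), (nat_lit 9133083), (nat_lit 9237348)]) (FT.cons (FT.leaf [(nat_lit 8943244), (nat_lit 9046230), (nat_lit 9149561), (nat_lit 9253097)]) (FT.cons (FT.leaf [(nat_lit 9166480), (nat_lit 9269229)]) (FT.cons (FT.leaf [(nat_lit 9387937)]) (FT.cons (FT.leaf [(nat_lit 9607298)]) (FT.cons (FT.leaf [(nat_lit 9824321)]) FT.nil)))))))) (FT.cons (FT.cons (FT.leaf [(nat_lit 8723177), (nat_lit 8824147), (nat_lit 8925931), (nat_lit 9028306), (nat_lit 9131095), (nat_lit 9234148), (nat_lit 9337342)]) (FT.cons (FT.leaf [(nat_lit 8945006), (nat_lit 9046362), (nat_lit 9148248), (nat_lit 9250495),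 (nat_lit 9352960), (nat_lit 9455529)]) (FT.cons (FT.leaf [(nat_lit 9165914), (nat_lit 9267282), (nat_lit 9368963), (nat_lit 9470821)]) (FT.cons (FT.leaf [(nat_lit 9385396), (nat_lit 9486490)]) (FT.cons (FT.leaf [(nat_lit 9603071)]) (FT.cons (FT.leaf [(nat_lit 9818646)]) FT.nil)))))) (FT.cons (FT.cons (FT.leaf [(nat_lit 9166914), (nat_lit 9266724), (nat_lit 9367024)]) (FT.cons (FT.leaf [(nat_lit 9384189), (nat_lit 9483963)]) (FT.cons (FT.leaf [(nat_lit 9599990)]) (FT.cons (FT.leaf [(nat_lit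
 9813966)]) FT.nil)))) (FT.cons (FT.cons (FT.leaf [(nat_lit 9598196)]) (FT.cons (FT.leaf [(nat_lit 9810393)]) FT.nil)) (FT.cons (FT.cons (FT.leaf [(nat_lit 10016737)]) FT.nil) (FT.cons (FT.cons (FT.leaf [(nat_lit 10422561)]) FT.nil) FT.nil)))))))) (FT.cons (FT.cons (FT.cons (FT.leaf [(nat_lit 8403290), (nat_lit 8498959), (nat_lit 8596414), (nat_lit 8695259), (nat_lit 8795181), (nat_lit 8895932), (nat_lit 8997308), (nat_lit 9099139), (nat_lit 9201280), (nat_lit 9303613), (nat_lit 9406030)]) (FT.cons (FT.leaf [(nat_lit 8618824), (nat_lit 8716255), (nat_lit 8814960), (nat_lit 8914649), (nat_lit 9015083), (nat_lit 9116071), (nat_lit 9217454), (nat_lit 9319094), (nat_lit 9420880), (nat_lit 9522713)]) (FT.cons (FT.leaf [(nat_lit 8835481), (nat_lit 8933987), (nat_lit 9033387), (nat_lit 9133460), (nat_lit 9234024), (nat_lit 9334926), (nat_lit 9436039), (nat_lit 9537256)]) (FT.cons (FT.leaf [(nat_lit 9052300), (nat_lit 9151367), (nat_lit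 9251039), (nat_lit 9351144), (nat_lit 9451538), (nat_lit 9552100)]) (FT.cons (FT.leaf [(nat_lit 9268562), (nat_lit 9367799), (nat_lit 9467417), (nat_lit 9567279)]) (FT.cons (FT.leaf [(nat_lit 9483724), (nat_lit 9582829)]) (FT.cons (FT.leaf [(nat_lit
 9697370)]) FT.nil))))))) (FT.cons (FT.cons (FT.leaf [(nat_lit 8842970), (nat_lit 8939194), (nat_lit 9036615), (nat_lit 9134950), (nat_lit 9233974), (nat_lit 9333504), (nat_lit 9433385), (nat_lit 9533490), (nat_lit 9633712)]) (FT.cons (FT.leaf [(nat_lit 9056562), (nat_lit 9153743), (nat_lit 9251760), (nat_lit 9350398), (nat_lit 9449482), (nat_lit 9548869), (nat_lit 9648437), (nat_lit 9748084)]) (FT.cons (FT.leaf [(nat_lit 9270143), (nat_lit 9367801), (nat_lit 9466017), (nat_lit 9564629), (nat_lit 9663497), (nat_lit 9762509)]) (FT.cons (FT.leaf [(nat_lit 9483051), (nat_lit 9580818), (nat_lit 9678931), (nat_lit 9777261)]) (FT.cons (FT.leaf [(nat_lit 9694785), (nat_lit 9792379)]) (FT.cons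 (FT.leaf [(nat_lit 9904964)]) FT.nil)))))) (FT.cons (FT.cons (FT.leaf [(nat_lit 9273545), (nat_lit 9369397), (nat_lit 9466031), (nat_lit 9563241), (nat_lit 9660861)]) (FT.cons (FT.leaf [(nat_lit 9483906), (nat_lit 9580161), (nat_lit 9676936), (nat_lit 9774071)]) (FT.cons (FT.leaf [(nat_lit 9693501), (nat_lit 9789813)]) (FT.cons (FT.leaf [(nat_lit 9901864)]) FT.nil)))) (FT.cons (FT.cons (FT.leaf [(nat_lit 9693690), (nat_lit 9788554), (nat_lit 9883904)]) (FT.cons (FT.leaf [(nat_lit 9900018), (nat_lit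
 9994898)]) FT.nil)) (FT.cons (FT.cons (FT.leaf [(nat_lit 10102715)]) FT.nil) (FT.cons (FT.cons (FT.leaf [(nat_lit 10500340)]) FT.nil) FT.nil)))))) (FT.cons (FT.cons (FT.cons (FT.leaf [(nat_lit 9382592), (nat_lit 9474155), (nat_lit 9566857), (nat_lit 9660432), (nat_lit 9754669), (nat_lit 9849397), (nat_lit 9944472)]) (FT.cons (FT.leaf [(nat_lit 9585594), (nat_lit 9678082), (nat_lit 9771372), (nat_lit 9865262), (nat_lit 9959590), (nat_lit 10054221)]) (FT.cons (FT.leaf [(nat_lit 9788646), (nat_lit 9881614), (nat_lit 9975127), (nat_lit 10069030)]) (FT.cons (FT.leaf [(nat_lit 9991141), (nat_lit 10084250)]) (FT.cons (FT.leaf [(nat_lit 10192619)]) FT.nil))))) (FT.cons (FT.cons (FT.leaf [(nat_lit 9791099), (nat_lit 9882384), (nat_lit 9974422), (nat_lit 10067021), (nat_lit 10160024)]) (FT.cons (FT.leaf [(nat_lit 9991239), (nat_lit 10082938), (nat_lit 10175147), (nat_lit 10267716)]) (FT.cons (FT.leaf [(nat_lit 10190738), (nat_lit 10282533)])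 (FT.cons (FT.leaf [(nat_lit 10389171)]) FT.nil)))) (FT.cons (FT.cons (FT.leaf [(nat_lit 10190249)]) (FT.cons (FT.leaf [(nat_lit 10386796)]) FT.nil)) (FT.cons (FT.cons (FT.leaf [(nat_lit 10579409)]) FT.nil) FT.nil)))) (FT.cons (FT.cons (FT.cons (FT.leaf
 [(nat_lit 10279711)]) FT.nil) (FT.cons (FT.cons (FT.leaf [(nat_lit 10660043)]) FT.nil) FT.nil)) (FT.cons (FT.cons (FT.cons (FT.leaf [(nat_lit 11105957)]) FT.nil) FT.nil) (FT.cons (FT.cons (FT.cons (FT.leaf [(nat_lit 11870906)]) FT.nil) FT.nil) (FT.cons (FT.cons (FT.cons (FT.leaf [(nat_lit 12582532)]) FT.nil) FT.nil) FT.nil))))))))))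

def f200_0_400 : FT := (FT.cons (FT.cons (FT.cons (FT.leaf [(nat_lit 4155767), (nat_lit 4253670), (nat_lit 4359814), (nat_lit 4472512), (nat_lit 4590531), (nat_lit 4712913), (nat_lit 4838889), (nat_lit 4967823), (nat_lit 5099177), (nat_lit 5232496), (nat_lit 5367385), (nat_lit 5503505), (nat_lit 5640557), (nat_lit 5778283), (nat_lit 5916453), (nat_lit 6054868), (nat_lit 6193352), (nat_lit 6331751), (nat_lit 6469930), (nat_lit 6607767), (nat_lit 6745159), (nat_lit 6882015), (nat_lit 7018253)]) (FT.cons (FT.leaf [(nat_lit 4403450), (nat_lit 4512741), (nat_lit 4627990), (nat_lit 4748042), (nat_lit 4872007), (nat_lit 4999173), (nat_lit 5128952), (nat_lit 5260848), (nat_lit 5394444), (nat_lit 5529376), (nat_lit 5665333), (nat_lit 5802043), (nat_lit 5939267), (nat_lit 6076797), (nat_lit 6214454), (nat_lit 6352073), (nat_lit 6489518), (nat_lit 6626663), (nat_lit 6763402), (nat_lit 6899637), (nat_lit 7035288), (nat_lit 7170280)]) (FT.cons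 (FT.leaf [(nat_lit 4667403), (nat_lit 4784709), (nat_lit 4906369), (nat_lit 5031550), (nat_lit 5159586), (nat_lit 5289932), (nat_lit 5422130), (nat_lit 5555791), (nat_lit 5690585), (nat_lit 5826221), (nat_lit 5962452), (nat_lit 6099059), (nat_lit 6235852), (nat_lit 6372664),
 (nat_lit 6509350), (nat_lit 6645781), (nat_lit 6781845), (nat_lit 6917444), (nat_lit 7052490), (nat_lit 7186912)]) (FT.cons (FT.leaf [(nat_lit 4942238), (nat_lit 5065144), (nat_lit 5191225), (nat_lit 5319857), (nat_lit 5450530), (nat_lit 5582821), (nat_lit 5716369), (nat_lit 5850867), (nat_lit 5986049), (nat_lit 6121685), (nat_lit 6257576), (nat_lit 6393546), (nat_lit 6529444), (nat_lit 6665136), (nat_lit 6800504), (nat_lit 6935446), (nat_lit 7069875), (nat_lit 7203708)]) (FT.cons (FT.leaf [(nat_lit 5224054), (nat_lit 5350763), (nat_lit 5479754), (nat_lit 5610550), (nat_lit 5742754), (nat_lit 5876033), (nat_lit 6010101), (nat_lit 6144712), (nat_lit 6279656),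 (nat_lit 6414746), (nat_lit 6549823), (nat_lit 6684748), (nat_lit 6819395), (nat_lit 6953660), (nat_lit 7087450), (nat_lit 7220682)]) (FT.cons (FT.leaf [(nat_lit 5509938), (nat_lit 5639084), (nat_lit 5769823), (nat_lit 5901788), (nat_lit 6034664), (nat_lit 6168187), (nat_lit 6302129), (nat_lit 6436296), (nat_lit 6570515), (nat_lit 6704638), (nat_lit 6838539), (nat_lit 6972103), (nat_lit 7105234), (nat_lit 7237843)]) (FT.cons (FT.leaf [(nat_lit 5797681), (nat_lit 5928212), (nat_lit 6059802), (nat_lit 6192161), (nat_lit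
 6325041), (nat_lit 6458230), (nat_lit 6591548), (nat_lit 6724836), (nat_lit 6857957), (nat_lit 6990793), (nat_lit 7123241), (nat_lit 7255210)]) (FT.cons (FT.leaf [(nat_lit 6085595), (nat_lit 6216698), (nat_lit 6348441), (nat_lit 6480593), (nat_lit 6612959), (nat_lit 6745368), (nat_lit 6877674), (nat_lit 7009751), (nat_lit 7141491), (nat_lit 7272795)]) (FT.cons (FT.leaf [(nat_lit 6372392), (nat_lit 6503436), (nat_lit 6634789), (nat_lit 6766270), (nat_lit 6897721), (nat_lit 7029003), (nat_lit 7160003), (nat_lit 7290619)]) (FT.cons (FT.leaf [(nat_lit 6657089), (nat_lit 6787583), (nat_lit 6918128), (nat_lit 7048577), (nat_lit 7178804), (nat_lit 7308700)]) (FT.cons (FT.leaf [(nat_lit 6938939), (nat_lit 7068506), (nat_lit 7197921), (nat_lit 7327064)]) (FT.cons (FT.leaf [(nat_lit 7217385), (nat_lit 7345736)]) (FT.cons (FT.leaf [(nat_lit 7492016)]) (FT.cons (FT.leaf [(nat_lit 7762536)]) (FT.cons (FT.leaf [(nat_lit 8028738)]) (FT.cons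 (FT.leaf [(nat_lit 8290490)]) FT.nil)))))))))))))))) (FT.cons (FT.cons (FT.leaf [(nat_lit 4714394), (nat_lit 4824681), (nat_lit 4940456), (nat_lit 5060595), (nat_lit 5184241), (nat_lit 5310721), (nat_lit 5439483), (nat_lit 5570070), (nat_lit 5702096),
 (nat_lit 5835232), (nat_lit 5969192), (nat_lit 6103734), (nat_lit 6238641), (nat_lit 6373730), (nat_lit 6508837), (nat_lit 6643819), (nat_lit 6778552), (nat_lit 6912927), (nat_lit 7046845), (nat_lit 7180228), (nat_lit 7312998)]) (FT.cons (FT.leaf [(nat_lit 4978914), (nat_lit 5096282), (nat_lit 5217615), (nat_lit 5342112), (nat_lit 5469142), (nat_lit 5598194), (nat_lit 5728842), (nat_lit 5860729), (nat_lit 5993552), (nat_lit 6127046), (nat_lit 6260987), (nat_lit 6395178), (nat_lit 6529449), (nat_lit 6663649), (nat_lit 6797650), (nat_lit 6931335), (nat_lit 7064606), (nat_lit 7197375), (nat_lit 7329567), (nat_lit 7461115)]) (FT.cons (FT.leaf [(nat_lit 5252477), (nat_lit 5374703), (nat_lit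 5499790), (nat_lit 5627146), (nat_lit 5756291), (nat_lit 5886832), (nat_lit 6018434), (nat_lit 6150816), (nat_lit 6283736), (nat_lit 6416983), (nat_lit 6550380), (nat_lit 6683766), (nat_lit 6817004), (nat_lit 6949977), (nat_lit 7082578), (nat_lit 7214716), (nat_lit 7346312), (nat_lit 7477297)]) (FT.cons (FT.leaf [(nat_lit 5531611), (nat_lit 5657063), (nat_lit 5784549), (nat_lit 5913620), (nat_lit 6043906), (nat_lit 6175098), (nat_lit 6306932), (nat_lit 6439184), (nat_lit 6571660), (nat_lit 6704194),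
 (nat_lit 6836640), (nat_lit 6968871), (nat_lit 7100778), (nat_lit 7232265), (nat_lit 7363246), (nat_lit 7493651)]) (FT.cons (FT.leaf [(nat_lit 5813752), (nat_lit 5941201), (nat_lit 6070051), (nat_lit 6199957), (nat_lit 6330629), (nat_lit 6461822), (nat_lit 6593327), (nat_lit 6724965), (nat_lit 6856581), (nat_lit 6988040), (nat_lit 7119226), (nat_lit 7250037), (nat_lit 7380385), (nat_lit 7510193)]) (FT.cons (FT.leaf [(nat_lit 6096969), (nat_lit 6225473), (nat_lit 6354891), (nat_lit 6484950), (nat_lit 6615423), (nat_lit 6746115), (nat_lit 6876857), (nat_lit 7007509), (nat_lit 7137942), (nat_lit 7268051), (nat_lit 7397743), (nat_lit 7526933)]) (FT.cons (FT.leaf [(nat_lit 6379795), (nat_lit 6508631), (nat_lit 6637999), (nat_lit 6767684), (nat_lit 6897505), (nat_lit 7027306), (nat_lit 7156952), (nat_lit 7286330), (nat_lit 7415338), (nat_lit 7543890)]) (FT.cons (FT.leaf [(nat_lit 6661115), (nat_lit 6789723), (nat_lit 6918563), (nat_lit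 7047466), (nat_lit 7176285), (nat_lit 7304896), (nat_lit 7433192), (nat_lit 7561079)]) (FT.cons (FT.leaf [(nat_lit 6940081), (nat_lit 7068029), (nat_lit 7195973), (nat_lit 7323777), (nat_lit 7451327), (nat_lit 7578521)]) (FT.cons (FT.leaf [(nat_lit
 7216055), (nat_lit 7343008), (nat_lit 7469772), (nat_lit 7596240)]) (FT.cons (FT.leaf [(nat_lit 7488559), (nat_lit 7614262)]) (FT.cons (FT.leaf [(nat_lit 7757245)]) (FT.cons (FT.leaf [(nat_lit 8021865)]) (FT.cons (FT.leaf [(nat_lit 8282249)]) (FT.cons (FT.leaf [(nat_lit 8538290)]) FT.nil))))))))))))))) (FT.cons (FT.cons (FT.leaf [(nat_lit 5285888), (nat_lit 5402831), (nat_lit 5523409), (nat_lit 5646853), (nat_lit 5772562), (nat_lit 5900055), (nat_lit 6028936), (nat_lit 6158872), (nat_lit 6289583), (nat_lit 6420830), (nat_lit 6552406), (nat_lit 6684132), (nat_lit 6815854), (nat_lit 6947438), (nat_lit 7078765), (nat_lit 7209734), (nat_lit 7340254), (nat_lit 7470248), (nat_lit 7599648)])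 (FT.cons (FT.leaf [(nat_lit 5557239), (nat_lit 5678432), (nat_lit 5802223), (nat_lit 5928047), (nat_lit 6055453), (nat_lit 6184071), (nat_lit 6313593), (nat_lit 6443756), (nat_lit 6574340), (nat_lit 6705153), (nat_lit 6836029), (nat_lit 6966825), (nat_lit 7097418), (nat_lit 7227699), (nat_lit 7357574), (nat_lit 7486963), (nat_lit 7615790), (nat_lit 7743995)]) (FT.cons (FT.leaf [(nat_lit 5833038), (nat_lit 5956988), (nat_lit 6082765), (nat_lit 6209945), (nat_lit 6338182), (nat_lit 6467186), (nat_lit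
 6596715), (nat_lit 6726561), (nat_lit 6856545), (nat_lit 6986519), (nat_lit 7116346), (nat_lit 7245912), (nat_lit 7375120), (nat_lit 7503879), (nat_lit 7632118), (nat_lit 7759766)]) (FT.cons (FT.leaf [(nat_lit 6111006), (nat_lit 6236596), (nat_lit 6363430), (nat_lit 6491181), (nat_lit 6619579), (nat_lit 6748398), (nat_lit 6877442), (nat_lit 7006548), (nat_lit 7135573), (nat_lit 7264394), (nat_lit 7392906), (nat_lit 7521016), (nat_lit 7648643), (nat_lit 7775719)]) (FT.cons (FT.leaf [(nat_lit 6389438), (nat_lit 6515822), (nat_lit 6642998), (nat_lit 6770716), (nat_lit 6898759), (nat_lit 7026948), (nat_lit 7155130), (nat_lit 7283171), (nat_lit 7410957), (nat_lit 7538391), (nat_lit 7665385), (nat_lit 7791867)]) (FT.cons (FT.leaf [(nat_lit 6667048), (nat_lit 6793575), (nat_lit 6920546), (nat_lit 7047760), (nat_lit 7175049), (nat_lit 7302270), (nat_lit 7429297), (nat_lit 7556024), (nat_lit 7682361), (nat_lit 7808228)]) (FT.cons (FT.leaf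 [(nat_lit 6942863), (nat_lit 7069033), (nat_lit 7195372), (nat_lit 7321723), (nat_lit 7447951), (nat_lit 7573939), (nat_lit 7699590), (nat_lit 7824816)]) (FT.cons (FT.leaf [(nat_lit 7216146), (nat_lit 7341573), (nat_lit 7466954), (nat_lit 7592164),
 (nat_lit 7717095), (nat_lit 7841654)]) (FT.cons (FT.leaf [(nat_lit 7486344), (nat_lit 7610731), (nat_lit 7734903), (nat_lit 7858762)]) (FT.cons (FT.leaf [(nat_lit 7753046), (nat_lit 7876167)]) (FT.cons (FT.leaf [(nat_lit 8015957)]) (FT.cons (FT.leaf [(nat_lit 8274864)]) (FT.cons (FT.leaf [(nat_lit 8529628)]) FT.nil))))))))))))) (FT.cons (FT.cons (FT.leaf [(nat_lit 5856121), (nat_lit 5976024), (nat_lit 6098300), (nat_lit 6222413), (nat_lit 6347935), (nat_lit 6474518), (nat_lit 6601874), (nat_lit 6729761), (nat_lit 6857973), (nat_lit 6986334), (nat_lit 7114692), (nat_lit 7242918), (nat_lit 7370898), (nat_lit 7498533), (nat_lit 7625736)]) (FT.cons (FT.leaf [(nat_lit 6128125), (nat_lit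 6250400), (nat_lit 6374328), (nat_lit 6499508), (nat_lit 6625612), (nat_lit 6752372), (nat_lit 6879560), (nat_lit 7006985), (nat_lit 7134483), (nat_lit 7261912), (nat_lit 7389152), (nat_lit 7516099), (nat_lit 7642659), (nat_lit 7768755)]) (FT.cons (FT.leaf [(nat_lit 6401632), (nat_lit 6525259), (nat_lit 6649997), (nat_lit 6775538), (nat_lit 6901629), (nat_lit 7028057), (nat_lit 7154644), (nat_lit 7281236), (nat_lit 7407703), (nat_lit 7533929), (nat_lit 7659821), (nat_lit 7785291)]) (FT.cons (FT.leaf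
 [(nat_lit 6675127), (nat_lit 6799336), (nat_lit 6924241), (nat_lit 7049601), (nat_lit 7175218), (nat_lit 7300923), (nat_lit 7426575), (nat_lit 7552049), (nat_lit 7677240), (nat_lit 7802059)]) (FT.cons (FT.leaf [(nat_lit 6947471), (nat_lit 7071676), (nat_lit 7196253), (nat_lit 7321014), (nat_lit 7445803), (nat_lit 7570483), (nat_lit 7694942), (nat_lit 7819080)]) (FT.cons (FT.leaf [(nat_lit 7217807), (nat_lit 7341556), (nat_lit 7465425), (nat_lit 7589266), (nat_lit 7712953), (nat_lit 7836378)]) (FT.cons (FT.leaf [(nat_lit 7485490), (nat_lit 7608437), (nat_lit 7731306), (nat_lit 7853980)]) (FT.cons (FT.leaf [(nat_lit 7750037), (nat_lit 7871916)]) (FT.cons (FT.leaf [(nat_lit 8011094)]) (FT.cons (FT.leaf [(nat_lit 8268404)]) (FT.cons (FT.leaf [(nat_lit 8521788)]) FT.nil))))))))))) (FT.cons (FT.cons (FT.leaf [(nat_lit 6416785), (nat_lit 6537267), (nat_lit 6659254), (nat_lit 6782365), (nat_lit 6906293), (nat_lit 7030783), (nat_lit 7155623),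 (nat_lit 7280636), (nat_lit 7405667), (nat_lit 7530588), (nat_lit 7655287), (nat_lit 7779667), (nat_lit 7903644)]) (FT.cons (FT.leaf [(nat_lit 6685653), (nat_lit 6807251), (nat_lit 6929849), (nat_lit 7053156), (nat_lit 7176932), (nat_lit 7300979),
 (nat_lit 7425129), (nat_lit 7549241), (nat_lit 7673193), (nat_lit 7796879), (nat_lit 7920211), (nat_lit 8043109)]) (FT.cons (FT.leaf [(nat_lit 6954136), (nat_lit 7076148), (nat_lit 7198772), (nat_lit 7321784), (nat_lit 7444996), (nat_lit 7568250), (nat_lit 7691415), (nat_lit 7814374), (nat_lit 7937032), (nat_lit 8059302)]) (FT.cons (FT.leaf [(nat_lit 7221219), (nat_lit 7343110), (nat_lit 7465314), (nat_lit 7587655), (nat_lit 7709985), (nat_lit 7832179), (nat_lit 7954129), (nat_lit 8075745)]) (FT.cons (FT.leaf [(nat_lit 7486141), (nat_lit 7607502), (nat_lit 7728943), (nat_lit 7850325), (nat_lit 7971530), (nat_lit 8092457)]) (FT.cons (FT.leaf [(nat_lit 7748334), (nat_lit 7868850), (nat_lit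 7989265), (nat_lit 8109467)]) (FT.cons (FT.leaf [(nat_lit 8007372), (nat_lit 8126805)]) (FT.cons (FT.leaf [(nat_lit 8262946)]) (FT.cons (FT.leaf [(nat_lit 8514834)]) (FT.cons (FT.leaf [(nat_lit 8762883)]) FT.nil)))))))))) (FT.cons (FT.cons (FT.leaf [(nat_lit 6963150), (nat_lit 7082684), (nat_lit 7203124), (nat_lit 7324194), (nat_lit 7445668), (nat_lit 7567358), (nat_lit 7689109), (nat_lit 7810785), (nat_lit 7932276), (nat_lit 8053482), (nat_lit 8174322)]) (FT.cons (FT.leaf [(nat_lit 7226604),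
 (nat_lit 7346416), (nat_lit 7466773), (nat_lit 7587460), (nat_lit 7708302), (nat_lit 7829151), (nat_lit 7949881), (nat_lit 8070385), (nat_lit 8190574), (nat_lit 8310369)]) (FT.cons (FT.leaf [(nat_lit 7488472), (nat_lit 7608072), (nat_lit 7727938), (nat_lit 7847903), (nat_lit 7967827), (nat_lit 8087593), (nat_lit 8207098), (nat_lit 8326261)]) (FT.cons (FT.leaf [(nat_lit 7748073), (nat_lit 7867088), (nat_lit 7986152), (nat_lit 8105133), (nat_lit 8223920), (nat_lit 8342419)]) (FT.cons (FT.leaf [(nat_lit 8004902), (nat_lit 8123047), (nat_lit 8241070), (nat_lit 8358868)]) (FT.cons (FT.leaf [(nat_lit 8258583), (nat_lit 8375638)]) (FT.cons (FT.leaf [(nat_lit 8508843)]) (FT.cons (FT.leaf [(nat_lit 8755488)]) FT.nil)))))))) (FT.cons (FT.cons (FT.leaf [(nat_lit 7492696), (nat_lit 7610325), (nat_lit 7728439), (nat_lit 7846838), (nat_lit 7965355), (nat_lit 8083849), (nat_lit 8202203)]) (FT.cons (FT.leaf [(nat_lit 7749425), (nat_lit 7866771),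 (nat_lit 7984342), (nat_lit 8101981), (nat_lit 8219556), (nat_lit 8336957)]) (FT.cons (FT.leaf [(nat_lit 8003818), (nat_lit 8120539), (nat_lit 8237281), (nat_lit 8353924)]) (FT.cons (FT.leaf [(nat_lit 8255422), (nat_lit 8371255)]) (FT.cons (FT.leaf
 [(nat_lit 8503903)]) (FT.cons (FT.leaf [(nat_lit 8749018)]) FT.nil)))))) (FT.cons (FT.cons (FT.leaf [(nat_lit 8004283), (nat_lit 8119416), (nat_lit 8234744), (nat_lit 8350114), (nat_lit 8465402)]) (FT.cons (FT.leaf [(nat_lit 8253593), (nat_lit 8368073), (nat_lit 8482557), (nat_lit 8596925)]) (FT.cons (FT.leaf [(nat_lit 8500118), (nat_lit 8613703)]) (FT.cons (FT.leaf [(nat_lit 8743558)]) FT.nil)))) (FT.cons (FT.cons (FT.leaf [(nat_lit 8497614)]) (FT.cons (FT.leaf [(nat_lit 8739210)]) FT.nil)) (FT.cons (FT.cons (FT.leaf [(nat_lit 8972910)]) FT.nil) (FT.cons (FT.cons (FT.leaf [(nat_lit 9430695)]) FT.nil) (FT.cons (FT.cons (FT.leaf [(nat_lit 9871664)]) FT.nil) (FT.cons (FT.cons (FT.leaf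 [(nat_lit 10296597)]) FT.nil) FT.nil))))))))))))) (FT.cons (FT.cons (FT.cons (FT.leaf [(nat_lit 5536152), (nat_lit 5640426), (nat_lit 5749649), (nat_lit 5862767), (nat_lit 5978994), (nat_lit 6097715), (nat_lit 6218434), (nat_lit 6340746), (nat_lit 6464307), (nat_lit 6588831), (nat_lit 6714068), (nat_lit 6839809), (nat_lit 6965866), (nat_lit 7092081), (nat_lit 7218315), (nat_lit 7344443), (nat_lit 7470360), (nat_lit 7595972), (nat_lit 7721196), (nat_lit 7845958), (nat_lit 7970199)]) (FT.cons (FT.leaf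
 [(nat_lit 5785163), (nat_lit 5895651), (nat_lit 6009691), (nat_lit 6126545), (nat_lit 6245642), (nat_lit 6366521), (nat_lit 6488804), (nat_lit 6612172), (nat_lit 6736361), (nat_lit 6861139), (nat_lit 6986312), (nat_lit 7111707), (nat_lit 7237179), (nat_lit 7362598), (nat_lit 7487850), (nat_lit 7612838), (nat_lit 7737475), (nat_lit 7861686), (nat_lit 7985404), (nat_lit 8108569)]) (FT.cons (FT.leaf [(nat_lit 6041788), (nat_lit 6156506), (nat_lit 6273782), (nat_lit 6393078), (nat_lit 6513963), (nat_lit 6636084), (nat_lit 6759148), (nat_lit 6882903), (nat_lit 7007139), (nat_lit 7131672), (nat_lit 7256347), (nat_lit 7381024), (nat_lit 7505586), (nat_lit 7629926), (nat_lit 7753958), (nat_lit 7877597), (nat_lit 8000776), (nat_lit 8123435)]) (FT.cons (FT.leaf [(nat_lit 6303026), (nat_lit 6420545), (nat_lit 6539885), (nat_lit 6660645), (nat_lit 6782492), (nat_lit 6905151), (nat_lit 7028390), (nat_lit 7152012), (nat_lit 7275847), (nat_lit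 7399747), (nat_lit 7523587), (nat_lit 7647255), (nat_lit 7770656), (nat_lit 7893706), (nat_lit 8016331), (nat_lit 8138465)]) (FT.cons (FT.leaf [(nat_lit 6566698), (nat_lit 6685951), (nat_lit 6806470), (nat_lit 6927944), (nat_lit 7050115), (nat_lit
 7172765), (nat_lit 7295712), (nat_lit 7418795), (nat_lit 7541878), (nat_lit 7664845), (nat_lit 7787591), (nat_lit 7910029), (nat_lit 8032079), (nat_lit 8153674)]) (FT.cons (FT.leaf [(nat_lit 6831178), (nat_lit 6951357), (nat_lit 7072373), (nat_lit 7193983), (nat_lit 7315983), (nat_lit 7438201), (nat_lit 7560489), (nat_lit 7682719), (nat_lit 7804782), (nat_lit 7926581), (nat_lit 8048035), (nat_lit 8169073)]) (FT.cons (FT.leaf [(nat_lit 7095238), (nat_lit 7215722), (nat_lit 7336708), (nat_lit 7458005), (nat_lit 7579450), (nat_lit 7700905), (nat_lit 7822250), (nat_lit 7943385), (nat_lit 8064219), (nat_lit 8184676)]) (FT.cons (FT.leaf [(nat_lit 7357944), (nat_lit 7478253), (nat_lit 7598800),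 (nat_lit 7719434), (nat_lit 7840026), (nat_lit 7960462), (nat_lit 8080648), (nat_lit 8200501)]) (FT.cons (FT.leaf [(nat_lit 7618586), (nat_lit 7738346), (nat_lit 7858137), (nat_lit 7977839), (nat_lit 8097346), (nat_lit 8216568)]) (FT.cons (FT.leaf [(nat_lit 7876623), (nat_lit 7995546), (nat_lit 8114336), (nat_lit 8232897)]) (FT.cons (FT.leaf [(nat_lit 8131652), (nat_lit 8249514)]) (FT.cons (FT.leaf [(nat_lit 8383368)]) (FT.cons (FT.leaf [(nat_lit 8631558)]) (FT.cons (FT.leaf [(nat_lit 8876065)])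
 FT.nil)))))))))))))) (FT.cons (FT.cons (FT.leaf [(nat_lit 6070533), (nat_lit 6180420), (nat_lit 6293592), (nat_lit 6409343), (nat_lit 6527126), (nat_lit 6646506), (nat_lit 6767126), (nat_lit 6888693), (nat_lit 7010955), (nat_lit 7133704), (nat_lit 7256757), (nat_lit 7379958), (nat_lit 7503170), (nat_lit 7626278), (nat_lit 7749177), (nat_lit 7871778), (nat_lit 7994001), (nat_lit 8115782), (nat_lit 8237055)]) (FT.cons (FT.leaf [(nat_lit 6324740), (nat_lit 6438385), (nat_lit 6554378), (nat_lit 6672205), (nat_lit 6791460), (nat_lit 6911809), (nat_lit 7032976), (nat_lit 7154731), (nat_lit 7276875), (nat_lit 7399240), (nat_lit 7521681), (nat_lit 7644072), (nat_lit 7766304), (nat_lit 7888281), (nat_lit 8009919), (nat_lit 8131150), (nat_lit 8251905), (nat_lit 8372134)]) (FT.cons (FT.leaf [(nat_lit 6582716), (nat_lit 6698800), (nat_lit 6816544), (nat_lit 6935562), (nat_lit 7055545), (nat_lit 7176233), (nat_lit 7297410), (nat_lit 7418890),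 (nat_lit 7540518), (nat_lit 7662156), (nat_lit 7783691), (nat_lit 7905019), (nat_lit 8026051), (nat_lit 8146713), (nat_lit 8266934), (nat_lit 8386658)]) (FT.cons (FT.leaf [(nat_lit 6842502), (nat_lit 6960049), (nat_lit 7078736), (nat_lit 7198269),
 (nat_lit 7318407), (nat_lit 7438945), (nat_lit 7559713), (nat_lit 7680561), (nat_lit 7801364), (nat_lit 7922014), (nat_lit 8042414), (nat_lit 8162485), (nat_lit 8282152), (nat_lit 8401356)]) (FT.cons (FT.leaf [(nat_lit 7102643), (nat_lit 7220915), (nat_lit 7339929), (nat_lit 7459456), (nat_lit 7579306), (nat_lit 7699316), (nat_lit 7819349), (nat_lit 7939287), (nat_lit 8059027), (nat_lit 8178483), (nat_lit 8297576), (nat_lit 8416241)]) (FT.cons (FT.leaf [(nat_lit 7362046), (nat_lit 7480479), (nat_lit 7599344), (nat_lit 7718461), (nat_lit 7837678), (nat_lit 7956866), (nat_lit 8075914), (nat_lit 8194727), (nat_lit 8313222), (nat_lit 8431328)]) (FT.cons (FT.leaf [(nat_lit 7619884), (nat_lit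 7738042), (nat_lit 7856389), (nat_lit 7974783), (nat_lit 8093101), (nat_lit 8211239), (nat_lit 8329109), (nat_lit 8446632)]) (FT.cons (FT.leaf [(nat_lit 7875527), (nat_lit 7993074), (nat_lit 8110618), (nat_lit 8228046), (nat_lit 8345258), (nat_lit 8462173)]) (FT.cons (FT.leaf [(nat_lit 8128502), (nat_lit 8245175), (nat_lit 8361696), (nat_lit 8477971)]) (FT.cons (FT.leaf [(nat_lit 8378451), (nat_lit 8494051)]) (FT.cons (FT.leaf [(nat_lit 8625114)]) (FT.cons (FT.leaf [(nat_lit 8868301)]) (FT.cons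
 (FT.leaf [(nat_lit 9107882)]) FT.nil))))))))))))) (FT.cons (FT.cons (FT.leaf [(nat_lit 6602268), (nat_lit 6714668), (nat_lit 6829234), (nat_lit 6945478), (nat_lit 7063011), (nat_lit 7181519), (nat_lit 7300743), (nat_lit 7420466), (nat_lit 7540504), (nat_lit 7660701), (nat_lit 7780921), (nat_lit 7901049), (nat_lit 8020985), (nat_lit 8140639), (nat_lit 8259937)]) (FT.cons (FT.leaf [(nat_lit 6856690), (nat_lit 6971227), (nat_lit 7087284), (nat_lit 7204495), (nat_lit 7322566), (nat_lit 7441252), (nat_lit 7560352), (nat_lit 7679691), (nat_lit 7799124), (nat_lit 7918527), (nat_lit 8037789), (nat_lit 8156816), (nat_lit 8275530), (nat_lit 8393857)]) (FT.cons (FT.leaf [(nat_lit 7112416), (nat_lit 7228191), (nat_lit 7345000), (nat_lit 7462565), (nat_lit 7580656), (nat_lit 7699081), (nat_lit 7817681), (nat_lit 7936317), (nat_lit 8054872), (nat_lit 8173245), (nat_lit 8291348), (nat_lit 8409105)]) (FT.cons (FT.leaf [(nat_lit 7368138), (nat_lit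 7484474), (nat_lit 7601473), (nat_lit 7718917), (nat_lit 7836628), (nat_lit 7954452), (nat_lit 8072263), (nat_lit 8189948), (nat_lit 8307413), (nat_lit 8424577)]) (FT.cons (FT.leaf [(nat_lit 7622874), (nat_lit 7739255), (nat_lit 7856010), (nat_lit
 7972970), (nat_lit 8089990), (nat_lit 8206950), (nat_lit 8323746), (nat_lit 8440290)]) (FT.cons (FT.leaf [(nat_lit 7875886), (nat_lit 7991915), (nat_lit 8108092), (nat_lit 8224283), (nat_lit 8340374), (nat_lit 8456265)]) (FT.cons (FT.leaf [(nat_lit 8126613), (nat_lit 8241984), (nat_lit 8357324), (nat_lit 8472529)]) (FT.cons (FT.leaf [(nat_lit 8374635), (nat_lit 8489110)]) (FT.cons (FT.leaf [(nat_lit 8619639)]) (FT.cons (FT.leaf [(nat_lit 8861393)]) (FT.cons (FT.leaf [(nat_lit 9099736)]) FT.nil))))))))))) (FT.cons (FT.cons (FT.leaf [(nat_lit 7124939), (nat_lit 7237852), (nat_lit 7352166), (nat_lit 7467530), (nat_lit 7583665), (nat_lit 7700342), (nat_lit 7817366), (nat_lit 7934580), (nat_lit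 8051844), (nat_lit 8169043), (nat_lit 8286073), (nat_lit 8402850), (nat_lit 8519297)]) (FT.cons (FT.leaf [(nat_lit 7376502), (nat_lit 7490466), (nat_lit 7605374), (nat_lit 7720960), (nat_lit 7837007), (nat_lit 7953334), (nat_lit 8069791), (nat_lit 8186249), (nat_lit 8302597), (nat_lit 8418741), (nat_lit 8534600), (nat_lit 8650101)]) (FT.cons (FT.leaf [(nat_lit 7627773), (nat_lit 7742165), (nat_lit 7857151), (nat_lit 7972526), (nat_lit 8088122), (nat_lit 8203794), (nat_lit 8319421), (nat_lit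
 8434901), (nat_lit 8550143), (nat_lit 8665072)]) (FT.cons (FT.leaf [(nat_lit 7877868), (nat_lit 7992211), (nat_lit 8106880), (nat_lit 8221713), (nat_lit 8336576), (nat_lit 8451354), (nat_lit 8565950), (nat_lit 8680280)]) (FT.cons (FT.leaf [(nat_lit 8126121), (nat_lit 8240052), (nat_lit 8354098), (nat_lit 8468132), (nat_lit 8582045), (nat_lit 8695746)]) (FT.cons (FT.leaf [(nat_lit 8372031), (nat_lit 8485269), (nat_lit 8598458), (nat_lit 8711493)]) (FT.cons (FT.leaf [(nat_lit 8615223), (nat_lit 8727553)]) (FT.cons (FT.leaf [(nat_lit 8855418)]) (FT.cons (FT.leaf [(nat_lit 9092414)]) (FT.cons (FT.leaf [(nat_lit 9326065)]) FT.nil)))))))))) (FT.cons (FT.cons (FT.leaf [(nat_lit 7634855), (nat_lit 7746991), (nat_lit 7859991), (nat_lit 7973604), (nat_lit 8087624), (nat_lit 8201879), (nat_lit 8316226), (nat_lit 8430545), (nat_lit 8544732), (nat_lit 8658699), (nat_lit 8772369)]) (FT.cons (FT.leaf [(nat_lit 7881683), (nat_lit 7994135), (nat_lit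 8107125), (nat_lit 8220456), (nat_lit 8333969), (nat_lit 8447528), (nat_lit 8561018), (nat_lit 8674342), (nat_lit 8787418), (nat_lit 8900173)]) (FT.cons (FT.leaf [(nat_lit 8127188), (nat_lit 8239518), (nat_lit 8352132), (nat_lit 8464878), (nat_lit
 8577628), (nat_lit 8690274), (nat_lit 8802724), (nat_lit 8914900)]) (FT.cons (FT.leaf [(nat_lit 8370767), (nat_lit 8482639), (nat_lit 8594598), (nat_lit 8706523), (nat_lit 8818314), (nat_lit 8929881)]) (FT.cons (FT.leaf [(nat_lit 8611970), (nat_lit 8723126), (nat_lit 8834213), (nat_lit 8945138)]) (FT.cons (FT.leaf [(nat_lit 8850460), (nat_lit 8960700)]) (FT.cons (FT.leaf [(nat_lit 9085987)]) (FT.cons (FT.leaf [(nat_lit 9318371)]) FT.nil)))))))) (FT.cons (FT.cons (FT.leaf [(nat_lit 8130018), (nat_lit 8240547), (nat_lit 8351565), (nat_lit 8462884), (nat_lit 8574354), (nat_lit 8685844), (nat_lit 8797247)]) (FT.cons (FT.leaf [(nat_lit 8371003), (nat_lit 8481351), (nat_lit 8591949), (nat_lit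 8702652), (nat_lit 8813338), (nat_lit 8923905)]) (FT.cons (FT.leaf [(nat_lit 8610008), (nat_lit 8719862), (nat_lit 8829782), (nat_lit 8939652)]) (FT.cons (FT.leaf [(nat_lit 8846621), (nat_lit 8955744)]) (FT.cons (FT.leaf [(nat_lit 9080539)]) (FT.cons (FT.leaf [(nat_lit 9311538)]) FT.nil)))))) (FT.cons (FT.cons (FT.leaf [(nat_lit 8609488), (nat_lit 8717890), (nat_lit 8826514), (nat_lit 8935220), (nat_lit 9043894)]) (FT.cons (FT.leaf [(nat_lit 8844023), (nat_lit 8951907), (nat_lit 9059838), (nat_lit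
 9167705)]) (FT.cons (FT.leaf [(nat_lit 9076168), (nat_lit 9183312)]) (FT.cons (FT.leaf [(nat_lit 9305647)]) FT.nil)))) (FT.cons (FT.cons (FT.leaf [(nat_lit 9072993)]) (FT.cons (FT.leaf [(nat_lit 9300794)]) FT.nil)) (FT.cons (FT.cons (FT.leaf [(nat_lit 9520677)]) FT.nil) (FT.cons (FT.cons (FT.leaf [(nat_lit 9952933)]) FT.nil) (FT.cons (FT.cons (FT.leaf [(nat_lit 10370305)]) FT.nil) (FT.cons (FT.cons (FT.leaf [(nat_lit 10773419)]) FT.nil) FT.nil)))))))))))) (FT.cons (FT.cons (FT.cons (FT.leaf [(nat_lit 6791323), (nat_lit 6894910), (nat_lit 7001507), (nat_lit 7110462), (nat_lit 7221271), (nat_lit 7333537), (nat_lit 7446935), (nat_lit 7561201), (nat_lit 7676109), (nat_lit 7791469), (nat_lit 7907120), (nat_lit 8022923), (nat_lit 8138754), (nat_lit 8254511), (nat_lit 8370100), (nat_lit 8485444), (nat_lit 8600470)]) (FT.cons (FT.leaf [(nat_lit 7030334), (nat_lit 7137316), (nat_lit 7246452), (nat_lit 7357272), (nat_lit 7469401), (nat_lit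 7582538), (nat_lit 7696433), (nat_lit 7810875), (nat_lit 7925689), (nat_lit 8040723), (nat_lit 8155846), (nat_lit 8270947), (nat_lit 8385926), (nat_lit 8500699), (nat_lit 8615191), (nat_lit 8729337)]) (FT.cons (FT.leaf [(nat_lit 7272661), (nat_lit
 7381854), (nat_lit 7492577), (nat_lit 7604478), (nat_lit 7717275), (nat_lit 7830732), (nat_lit 7944653), (nat_lit 8058873), (nat_lit 8173248), (nat_lit 8287659), (nat_lit 8401999), (nat_lit 8516178), (nat_lit 8630115), (nat_lit 8743742)]) (FT.cons (FT.leaf [(nat_lit 7516579), (nat_lit 7627113), (nat_lit 7738707), (nat_lit 7851096), (nat_lit 7964058), (nat_lit 8077408), (nat_lit 8190991), (nat_lit 8304675), (nat_lit 8418344), (nat_lit 8531900), (nat_lit 8645259), (nat_lit 8758345)]) (FT.cons (FT.leaf [(nat_lit 7760818), (nat_lit 7872037), (nat_lit 7983959), (nat_lit 8096376), (nat_lit 8209113), (nat_lit 8322025), (nat_lit 8434986), (nat_lit 8547889), (nat_lit 8660643), (nat_lit 8773166)])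 (FT.cons (FT.leaf [(nat_lit 8004425), (nat_lit 8115829), (nat_lit 8227657), (nat_lit 8339745), (nat_lit 8451955), (nat_lit 8564169), (nat_lit 8676286), (nat_lit 8788220)]) (FT.cons (FT.leaf [(nat_lit 8246677), (nat_lit 8357880), (nat_lit 8469287), (nat_lit 8580770), (nat_lit 8692215), (nat_lit 8803530)]) (FT.cons (FT.leaf [(nat_lit 8487025), (nat_lit 8597726), (nat_lit 8708459), (nat_lit 8819119)]) (FT.cons (FT.leaf [(nat_lit 8725051), (nat_lit 8835017)]) (FT.cons (FT.leaf [(nat_lit 8960440)])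
 (FT.cons (FT.leaf [(nat_lit 9192956)]) (FT.cons (FT.leaf [(nat_lit 9422427)]) FT.nil)))))))))))) (FT.cons (FT.cons (FT.leaf [(nat_lit 7289330), (nat_lit 7395145), (nat_lit 7502964), (nat_lit 7612336), (nat_lit 7722904), (nat_lit 7834382), (nat_lit 7946533), (nat_lit 8059160), (nat_lit 8172097), (nat_lit 8285204), (nat_lit 8398357), (nat_lit 8511453), (nat_lit 8624399), (nat_lit 8737117), (nat_lit 8849540)]) (FT.cons (FT.leaf [(nat_lit 7528385), (nat_lit 7636166), (nat_lit 7745362), (nat_lit 7855636), (nat_lit 7966719), (nat_lit 8078388), (nat_lit 8190459), (nat_lit 8302775), (nat_lit 8415205), (nat_lit 8527633), (nat_lit 8639961), (nat_lit 8752106), (nat_lit 8863992), (nat_lit 8975556)]) (FT.cons (FT.leaf [(nat_lit 7768632), (nat_lit 7877571), (nat_lit 7987484), (nat_lit 8098114), (nat_lit 8209253), (nat_lit 8320726), (nat_lit 8432387), (nat_lit 8544110), (nat_lit 8655789), (nat_lit 8767333), (nat_lit 8878660), (nat_lit 8989702)])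 (FT.cons (FT.leaf [(nat_lit 8008915), (nat_lit 8118406), (nat_lit 8228534), (nat_lit 8339100), (nat_lit 8449940), (nat_lit 8560916), (nat_lit 8671909), (nat_lit 8782821), (nat_lit 8893562), (nat_lit 9004060)]) (FT.cons (FT.leaf [(nat_lit 8248369),
 (nat_lit 8357951), (nat_lit 8467909), (nat_lit 8578085), (nat_lit 8688351), (nat_lit 8798594), (nat_lit 8908720), (nat_lit 9018647)]) (FT.cons (FT.leaf [(nat_lit 8486344), (nat_lit 8595660), (nat_lit 8705148), (nat_lit 8814682), (nat_lit 8924157), (nat_lit 9033486)]) (FT.cons (FT.leaf [(nat_lit 8722343), (nat_lit 8831119), (nat_lit 8939904), (nat_lit 9048598)]) (FT.cons (FT.leaf [(nat_lit 8955992), (nat_lit 9064013)]) (FT.cons (FT.leaf [(nat_lit 9187009)]) (FT.cons (FT.leaf [(nat_lit 9415184)]) (FT.cons (FT.leaf [(nat_lit 9640365)]) FT.nil))))))))))) (FT.cons (FT.cons (FT.leaf [(nat_lit 7779012), (nat_lit 7885328), (nat_lit 7992958), (nat_lit 8101579), (nat_lit 8210936), (nat_lit 8320816),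 (nat_lit 8431045), (nat_lit 8541475), (nat_lit 8651982), (nat_lit 8762459), (nat_lit 8872813), (nat_lit 8982965), (nat_lit 9092847)]) (FT.cons (FT.leaf [(nat_lit 8015524), (nat_lit 8122844), (nat_lit 8231061), (nat_lit 8339931), (nat_lit 8449255), (nat_lit 8558867), (nat_lit 8668630), (nat_lit 8778424), (nat_lit 8888149), (nat_lit 8997720), (nat_lit 9107061), (nat_lit 9216108)]) (FT.cons (FT.leaf [(nat_lit 8251841), (nat_lit 8359602), (nat_lit 8467943), (nat_lit 8576675), (nat_lit 8685641),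
 (nat_lit 8794711), (nat_lit 8903772), (nat_lit 9012730), (nat_lit 9121505), (nat_lit 9230025)]) (FT.cons (FT.leaf [(nat_lit 8487176), (nat_lit 8594951), (nat_lit 8703059), (nat_lit 8811354), (nat_lit 8919709), (nat_lit 9028021), (nat_lit 9136199), (nat_lit 9244169)]) (FT.cons (FT.leaf [(nat_lit 8720935), (nat_lit 8828395), (nat_lit 8935996), (nat_lit 9043620), (nat_lit 9151169), (nat_lit 9258557)]) (FT.cons (FT.leaf [(nat_lit 8952673), (nat_lit 9059562), (nat_lit 9166442), (nat_lit 9273216)]) (FT.cons (FT.leaf [(nat_lit 9182049), (nat_lit 9288171)]) (FT.cons (FT.leaf [(nat_lit 9408810)]) (FT.cons (FT.leaf [(nat_lit 9632768)]) (FT.cons (FT.leaf [(nat_lit 9853788)]) FT.nil)))))))))) (FT.cons (FT.cons (FT.leaf [(nat_lit 8257350), (nat_lit 8363042), (nat_lit 8469563), (nat_lit 8576682), (nat_lit 8684207), (nat_lit 8791982), (nat_lit 8899875), (nat_lit 9007776), (nat_lit 9115587)]) (FT.cons (FT.leaf [(nat_lit 8489719), (nat_lit 8595759),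 (nat_lit 8702329), (nat_lit 8809249), (nat_lit 8916370), (nat_lit 9023567), (nat_lit 9130735), (nat_lit 9237785)]) (FT.cons (FT.leaf [(nat_lit 8720984), (nat_lit 8826975), (nat_lit 8933263), (nat_lit 9039709), (nat_lit 9146193), (nat_lit 9252616)])
 (FT.cons (FT.leaf [(nat_lit 8950606), (nat_lit 9056241), (nat_lit 9161993), (nat_lit 9267750)]) (FT.cons (FT.leaf [(nat_lit 9178175), (nat_lit 9283219)]) (FT.cons (FT.leaf [(nat_lit 9403386)]) (FT.cons (FT.leaf [(nat_lit 9626008)]) (FT.cons (FT.leaf [(nat_lit 9845874)]) FT.nil)))))))) (FT.cons (FT.cons (FT.leaf [(nat_lit 8722680), (nat_lit 8827014), (nat_lit 8931836), (nat_lit 9036973), (nat_lit 9142282), (nat_lit 9247646), (nat_lit 9352963)]) (FT.cons (FT.leaf [(nat_lit 8949940), (nat_lit 9054173), (nat_lit 9158674), (nat_lit 9263308), (nat_lit 9367963), (nat_lit 9472543)]) (FT.cons (FT.leaf [(nat_lit 9175508), (nat_lit 9279355), (nat_lit 9383298), (nat_lit 9487232)]) (FT.cons (FT.leaf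 [(nat_lit 9399009), (nat_lit 9502250)]) (FT.cons (FT.leaf [(nat_lit 9620165)]) (FT.cons (FT.leaf [(nat_lit 9838766)]) FT.nil)))))) (FT.cons (FT.cons (FT.leaf [(nat_lit 9174190), (nat_lit 9276697), (nat_lit 9379448), (nat_lit 9482310), (nat_lit 9585177)]) (FT.cons (FT.leaf [(nat_lit 9395794), (nat_lit 9497892), (nat_lit 9600069), (nat_lit 9702224)]) (FT.cons (FT.leaf [(nat_lit 9615330), (nat_lit 9716812)]) (FT.cons (FT.leaf [(nat_lit 9832541)]) FT.nil)))) (FT.cons (FT.cons (FT.leaf [(nat_lit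
 9611616)]) (FT.cons (FT.leaf [(nat_lit 9827290)]) FT.nil)) (FT.cons (FT.cons (FT.leaf [(nat_lit 10035037)]) FT.nil) (FT.cons (FT.cons (FT.leaf [(nat_lit 10444750)]) FT.nil) (FT.cons (FT.cons (FT.leaf [(nat_lit 10841182)]) FT.nil) FT.nil)))))))))) (FT.cons (FT.cons (FT.cons (FT.leaf [(nat_lit 7926084), (nat_lit 8026096), (nat_lit 8127977), (nat_lit 8231308), (nat_lit 8335760), (nat_lit 8441068), (nat_lit 8547015), (nat_lit 8653422), (nat_lit 8760134), (nat_lit 8867024), (nat_lit 8973980), (nat_lit 9080908), (nat_lit 9187721), (nat_lit 9294351), (nat_lit 9400734)]) (FT.cons (FT.leaf [(nat_lit 8151636), (nat_lit 8253478), (nat_lit 8356648), (nat_lit 8460834), (nat_lit 8565787), (nat_lit 8671303), (nat_lit 8777211), (nat_lit 8883369), (nat_lit 8989655), (nat_lit 9095965), (nat_lit 9202209), (nat_lit 9308309), (nat_lit 9414197), (nat_lit 9519815)]) (FT.cons (FT.leaf [(nat_lit 8378308), (nat_lit 8481247), (nat_lit 8585109), (nat_lit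 8689658), (nat_lit 8794700), (nat_lit 8900075), (nat_lit 9005649), (nat_lit 9111307), (nat_lit 9216950), (nat_lit 9322495), (nat_lit 9427867), (nat_lit 9533004)]) (FT.cons (FT.leaf [(nat_lit 8605064), (nat_lit 8708551), (nat_lit 8812652), (nat_lit 8917185),
 (nat_lit 9021997), (nat_lit 9126961), (nat_lit 9231970), (nat_lit 9336929), (nat_lit 9441761), (nat_lit 9546394)]) (FT.cons (FT.leaf [(nat_lit 8831132), (nat_lit 8934749), (nat_lit 9038740), (nat_lit 9142963), (nat_lit 9247296), (nat_lit 9351636), (nat_lit 9455898), (nat_lit 9560004)]) (FT.cons (FT.leaf [(nat_lit 9055927), (nat_lit 9159350), (nat_lit 9262961), (nat_lit 9366644), (nat_lit 9470303), (nat_lit 9573854)]) (FT.cons (FT.leaf [(nat_lit 9279005), (nat_lit 9381984), (nat_lit 9485002), (nat_lit 9587966)]) (FT.cons (FT.leaf [(nat_lit 9500027), (nat_lit 9602366)]) (FT.cons (FT.leaf [(nat_lit 9718737)]) (FT.cons (FT.leaf [(nat_lit 9934939)]) (FT.cons (FT.leaf [(nat_lit 10148493)])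 FT.nil))))))))))) (FT.cons (FT.cons (FT.leaf [(nat_lit 8386918), (nat_lit 8487438), (nat_lit 8589197), (nat_lit 8691899), (nat_lit 8795305), (nat_lit 8899219), (nat_lit 9003481), (nat_lit 9107954), (nat_lit 9212525), (nat_lit 9317094), (nat_lit 9421576), (nat_lit 9525899), (nat_lit 9630000)]) (FT.cons (FT.leaf [(nat_lit 8610230), (nat_lit 8711716), (nat_lit 8814059), (nat_lit 8917032), (nat_lit 9020452), (nat_lit 9124165), (nat_lit 9228045), (nat_lit 9331981), (nat_lit 9435881), (nat_lit 9539666),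
 (nat_lit 9643267), (nat_lit 9746624)]) (FT.cons (FT.leaf [(nat_lit 8833434), (nat_lit 8935374), (nat_lit 9037878), (nat_lit 9140773), (nat_lit 9243912), (nat_lit 9347176), (nat_lit 9450460), (nat_lit 9553678), (nat_lit 9656754), (nat_lit 9759624)]) (FT.cons (FT.leaf [(nat_lit 9055822), (nat_lit 9157825), (nat_lit 9260167), (nat_lit 9362710), (nat_lit 9465339), (nat_lit 9567957), (nat_lit 9670482), (nat_lit 9772840)]) (FT.cons (FT.leaf [(nat_lit 9276858), (nat_lit 9378624), (nat_lit 9480552), (nat_lit 9582531), (nat_lit 9684471), (nat_lit 9786291)]) (FT.cons (FT.leaf [(nat_lit 9496136), (nat_lit 9597431), (nat_lit 9698749), (nat_lit 9799999)]) (FT.cons (FT.leaf [(nat_lit 9713347), (nat_lit 9813990)]) (FT.cons (FT.leaf [(nat_lit 9928258)]) (FT.cons (FT.leaf [(nat_lit 10140694)]) (FT.cons (FT.leaf [(nat_lit 10350527)]) FT.nil)))))))))) (FT.cons (FT.cons (FT.leaf [(nat_lit 8837647), (nat_lit 8937675), (nat_lit 9038500), (nat_lit 9139908),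 (nat_lit 9241722), (nat_lit 9343795), (nat_lit 9446005), (nat_lit 9548251), (nat_lit 9650442)]) (FT.cons (FT.leaf [(nat_lit 9057321), (nat_lit 9157722), (nat_lit 9258644), (nat_lit 9359920), (nat_lit 9461413), (nat_lit 9563005), (nat_lit 9664600),
 (nat_lit 9766114)]) (FT.cons (FT.leaf [(nat_lit 9276075), (nat_lit 9376484), (nat_lit 9477201), (nat_lit 9578094), (nat_lit 9679052), (nat_lit 9779984)]) (FT.cons (FT.leaf [(nat_lit 9493417), (nat_lit 9593555), (nat_lit 9693832), (nat_lit 9794143)]) (FT.cons (FT.leaf [(nat_lit 9708976), (nat_lit 9808623)]) (FT.cons (FT.leaf [(nat_lit 9922469)]) (FT.cons (FT.leaf [(nat_lit 10133681)]) (FT.cons (FT.leaf [(nat_lit 10342455)]) FT.nil)))))))) (FT.cons (FT.cons (FT.leaf [(nat_lit 9276837), (nat_lit 9375714), (nat_lit 9475075), (nat_lit 9574758), (nat_lit 9674632), (nat_lit 9774586), (nat_lit 9874527)]) (FT.cons (FT.leaf [(nat_lit 9492014), (nat_lit 9590854), (nat_lit 9689975), (nat_lit 9789248),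 (nat_lit 9888571), (nat_lit 9987855)]) (FT.cons (FT.leaf [(nat_lit 9705737), (nat_lit 9804276), (nat_lit 9902937), (nat_lit 10001618)]) (FT.cons (FT.leaf [(nat_lit 9917661), (nat_lit 10015696)]) (FT.cons (FT.leaf [(nat_lit 10127527)]) (FT.cons (FT.leaf [(nat_lit 10335139)]) FT.nil)))))) (FT.cons (FT.cons (FT.leaf [(nat_lit 9703766), (nat_lit 9801063), (nat_lit 9898617)]) (FT.cons (FT.leaf [(nat_lit 9913945), (nat_lit 10010920)]) (FT.cons (FT.leaf [(nat_lit 10122321)]) (FT.cons (FT.leaf [(nat_lit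
 10328655)]) FT.nil)))) (FT.cons (FT.cons (FT.leaf [(nat_lit 10118171)]) (FT.cons (FT.leaf [(nat_lit 10323087)]) FT.nil)) (FT.cons (FT.cons (FT.leaf [(nat_lit 10520083)]) FT.nil) (FT.cons (FT.cons (FT.leaf [(nat_lit 10909721)]) FT.nil) FT.nil)))))))) (FT.cons (FT.cons (FT.cons (FT.leaf [(nat_lit 8954973), (nat_lit 9050360), (nat_lit 9146923), (nat_lit 9244385), (nat_lit 9342522), (nat_lit 9441155), (nat_lit 9540132), (nat_lit 9639328), (nat_lit 9738637), (nat_lit 9837967), (nat_lit 9937241)]) (FT.cons (FT.leaf [(nat_lit 9166614), (nat_lit 9262935), (nat_lit 9360076), (nat_lit 9457828), (nat_lit 9556019), (nat_lit 9654505), (nat_lit 9753169), (nat_lit 9851911), (nat_lit 9950643), (nat_lit 10049291)]) (FT.cons (FT.leaf [(nat_lit 9378224), (nat_lit 9475006), (nat_lit 9572340), (nat_lit 9670061), (nat_lit 9768035), (nat_lit 9866148), (nat_lit 9964306), (nat_lit 10062427)]) (FT.cons (FT.leaf [(nat_lit 9589155), (nat_lit 9686042), (nat_lit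 9783269), (nat_lit 9880710), (nat_lit 9978256), (nat_lit 10075817)]) (FT.cons (FT.leaf [(nat_lit 9798921), (nat_lit 9895634), (nat_lit 9992525), (nat_lit 10089490)]) (FT.cons (FT.leaf [(nat_lit 10007149), (nat_lit 10103475)]) (FT.cons (FT.leaf
 [(nat_lit 10213557)]) FT.nil))))))) (FT.cons (FT.cons (FT.leaf [(nat_lit 9381354), (nat_lit 9476361), (nat_lit 9572137), (nat_lit 9668480), (nat_lit 9765226), (nat_lit 9862238), (nat_lit 9959403), (nat_lit 10056624), (nat_lit 10153819)]) (FT.cons (FT.leaf [(nat_lit 9589787), (nat_lit 9685186), (nat_lit 9781096), (nat_lit 9877363), (nat_lit 9973856), (nat_lit 10070467), (nat_lit 10167106), (nat_lit 10263694)]) (FT.cons (FT.leaf [(nat_lit 9797453), (nat_lit 9892906), (nat_lit 9988673), (nat_lit 10084630), (nat_lit 10180674), (nat_lit 10276719)]) (FT.cons (FT.leaf [(nat_lit 10003900), (nat_lit 10099149), (nat_lit 10194555), (nat_lit 10290020)]) (FT.cons (FT.leaf [(nat_lit 10208786), (nat_lit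 10303628)]) (FT.cons (FT.leaf [(nat_lit 10411848)]) FT.nil)))))) (FT.cons (FT.cons (FT.leaf [(nat_lit 9797439), (nat_lit 9891466), (nat_lit 9985973), (nat_lit 10080806), (nat_lit 10175843)]) (FT.cons (FT.leaf [(nat_lit 10001888), (nat_lit 10095930), (nat_lit 10190260), (nat_lit 10284760)]) (FT.cons (FT.leaf [(nat_lit 10205079), (nat_lit 10298891)]) (FT.cons (FT.leaf [(nat_lit 10406695)]) FT.nil)))) (FT.cons (FT.cons (FT.leaf [(nat_lit 10202570), (nat_lit 10295223), (nat_lit 10388143)]) (FT.cons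
 (FT.leaf [(nat_lit 10402571), (nat_lit 10494973)]) FT.nil)) (FT.cons (FT.cons (FT.leaf [(nat_lit 10596485)]) FT.nil) (FT.cons (FT.cons (FT.leaf [(nat_lit 10979177)]) FT.nil) FT.nil)))))) (FT.cons (FT.cons (FT.cons (FT.leaf [(nat_lit 9893023), (nat_lit 9983545), (nat_lit 10074810), (nat_lit 10166627), (nat_lit 10258841), (nat_lit 10351327), (nat_lit 10443976)]) (FT.cons (FT.leaf [(nat_lit 10091424), (nat_lit 10182352), (nat_lit 10273782), (nat_lit 10365567), (nat_lit 10457585), (nat_lit 10549736)]) (FT.cons (FT.leaf [(nat_lit 10289186), (nat_lit 10380206), (nat_lit 10471543), (nat_lit 10563078)]) (FT.cons (FT.leaf [(nat_lit 10485892), (nat_lit 10576762)]) (FT.cons (FT.leaf [(nat_lit 10681222)]) FT.nil))))) (FT.cons (FT.cons (FT.leaf [(nat_lit 10288522), (nat_lit 10378209), (nat_lit 10468367), (nat_lit 10558855), (nat_lit 10649555)]) (FT.cons (FT.leaf [(nat_lit 10483374), (nat_lit 10573116), (nat_lit 10663151), (nat_lit 10753369)])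 (FT.cons (FT.leaf [(nat_lit 10677133), (nat_lit 10766701)]) (FT.cons (FT.leaf [(nat_lit 10869502)]) FT.nil)))) (FT.cons (FT.cons (FT.leaf [(nat_lit 10674175)]) (FT.cons (FT.leaf [(nat_lit 10865044)]) FT.nil)) (FT.cons (FT.cons (FT.leaf [(nat_lit
 11049719)]) FT.nil) FT.nil)))) (FT.cons (FT.cons (FT.cons (FT.leaf [(nat_lit 10753424)]) FT.nil) (FT.cons (FT.cons (FT.leaf [(nat_lit 11121553)]) FT.nil) FT.nil)) (FT.cons (FT.cons (FT.cons (FT.leaf [(nat_lit 11547205)]) FT.nil) FT.nil) (FT.cons (FT.cons (FT.cons (FT.leaf [(nat_lit 12283453)]) FT.nil) FT.nil) (FT.cons (FT.cons (FT.cons (FT.leaf [(nat_lit 12969650)]) FT.nil) FT.nil) FT.nil))))))))))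

def f200_0_601 : FT := (FT.cons (FT.cons (FT.cons (FT.leaf [(nat_lit 4706739), (nat_lit 4801865), (nat_lit 4904750), (nat_lit 5013745), (nat_lit 5127658), (nat_lit 5245578), (nat_lit 5366777), (nat_lit 5490661), (nat_lit 5616733), (nat_lit 5744573), (nat_lit 5873822), (nat_lit 6004170), (nat_lit 6135349), (nat_lit 6267124), (nat_lit 6399291), (nat_lit 6531671), (nat_lit 6664107), (nat_lit 6796459), (nat_lit 6928606), (nat_lit 7060441), (nat_lit 7191873)]) (FT.cons (FT.leaf [(nat_lit 4946440), (nat_lit 5052085), (nat_lit 5163284), (nat_lit 5278928), (nat_lit 5398171), (nat_lit 5520343), (nat_lit 5644894), (nat_lit 5771368), (nat_lit 5899377), (nat_lit 6028593), (nat_lit 6158729), (nat_lit 6289541), (nat_lit 6420813), (nat_lit 6552360), (nat_lit 6684014), (nat_lit 6815635), (nat_lit 6947093), (nat_lit 7078281), (nat_lit 7209098), (nat_lit 7339461)]) (FT.cons (FT.leaf [(nat_lit 5200789), (nat_lit 5313758), (nat_lit 5430762), (nat_lit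 5551013), (nat_lit 5673884), (nat_lit 5798866), (nat_lit 5925537), (nat_lit 6053539), (nat_lit 6182569), (nat_lit 6312363), (nat_lit 6442695), (nat_lit 6573368), (nat_lit 6704210), (nat_lit 6835070), (nat_lit 6965815), (nat_lit 7096333), (nat_lit 7226519), (nat_lit 7356285)])
 (FT.cons (FT.leaf [(nat_lit 5464802), (nat_lit 5582852), (nat_lit 5703838), (nat_lit 5827174), (nat_lit 5952385), (nat_lit 6079079), (nat_lit 6206923), (nat_lit 6335635), (nat_lit 6464974), (nat_lit 6594729), (nat_lit 6724720), (nat_lit 6854787), (nat_lit 6984793), (nat_lit 7114615), (nat_lit 7244149), (nat_lit 7373301)]) (FT.cons (FT.leaf [(nat_lit 5734938), (nat_lit 5856427), (nat_lit 5980026), (nat_lit 6105291), (nat_lit 6231855), (nat_lit 6359409), (nat_lit 6487692), (nat_lit 6616479), (nat_lit 6745574), (nat_lit 6874812), (nat_lit 7004045), (nat_lit 7133146), (nat_lit 7262005), (nat_lit 7390521)]) (FT.cons (FT.leaf [(nat_lit 6008591), (nat_lit 6132279),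 (nat_lit 6257447), (nat_lit 6383750), (nat_lit 6510903), (nat_lit 6638658), (nat_lit 6766809), (nat_lit 6895174), (nat_lit 7023599), (nat_lit 7151948), (nat_lit 7280104), (nat_lit 7407963)]) (FT.cons (FT.leaf [(nat_lit 6283796), (nat_lit 6408736), (nat_lit 6534667), (nat_lit 6661319), (nat_lit 6788465), (nat_lit 6915910), (nat_lit 7043484), (nat_lit 7171047), (nat_lit 7298469), (nat_lit 7425645)]) (FT.cons (FT.leaf [(nat_lit 6559063), (nat_lit 6684524), (nat_lit 6810593), (nat_lit 6937057), (nat_lit 7063734), (nat_lit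
 7190468), (nat_lit 7317124), (nat_lit 7443586)]) (FT.cons (FT.leaf [(nat_lit 6833253), (nat_lit 6958667), (nat_lit 7084389), (nat_lit 7210247), (nat_lit 7336097), (nat_lit 7461812)]) (FT.cons (FT.leaf [(nat_lit 7105495), (nat_lit 7230422), (nat_lit 7355419), (nat_lit 7480348)]) (FT.cons (FT.leaf [(nat_lit 7375129), (nat_lit 7499228)]) (FT.cons (FT.leaf [(nat_lit 7641657)]) (FT.cons (FT.leaf [(nat_lit 7904708)]) (FT.cons (FT.leaf [(nat_lit 8164013)]) FT.nil)))))))))))))) (FT.cons (FT.cons (FT.leaf [(nat_lit 5243940), (nat_lit 5350225), (nat_lit 5461651), (nat_lit 5577140), (nat_lit 5695882), (nat_lit 5817238), (nat_lit 5940697), (nat_lit 6065830), (nat_lit 6192284), (nat_lit 6319753), (nat_lit 6447979), (nat_lit 6576738), (nat_lit 6705834), (nat_lit 6835098), (nat_lit 6964383), (nat_lit 7093561), (nat_lit 7222517), (nat_lit 7351152), (nat_lit 7479379)]) (FT.cons (FT.leaf [(nat_lit 5498199), (nat_lit 5611009), (nat_lit 5727518),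 (nat_lit 5846967), (nat_lit 5968764), (nat_lit 6092429), (nat_lit 6217568), (nat_lit 6343851), (nat_lit 6470995), (nat_lit 6598762), (nat_lit 6726944), (nat_lit 6855362), (nat_lit 6983860), (nat_lit 7112303), (nat_lit 7240570), (nat_lit 7368559), (nat_lit
 7496177), (nat_lit 7623347)]) (FT.cons (FT.leaf [(nat_lit 5760584), (nat_lit 5877850), (nat_lit 5997782), (nat_lit 6119825), (nat_lit 6243530), (nat_lit 6368530), (nat_lit 6494515), (nat_lit 6621228), (nat_lit 6748444), (nat_lit 6875971), (nat_lit 7003645), (nat_lit 7131321), (nat_lit 7258873), (nat_lit 7386192), (nat_lit 7513182), (nat_lit 7639760)]) (FT.cons (FT.leaf [(nat_lit 6027929), (nat_lit 6148150), (nat_lit 6270270), (nat_lit 6393870), (nat_lit 6518605), (nat_lit 6644188), (nat_lit 6770376), (nat_lit 6896962), (nat_lit 7023769), (nat_lit 7150642), (nat_lit 7277447), (nat_lit 7404070), (nat_lit 7530408), (nat_lit 7656373)]) (FT.cons (FT.leaf [(nat_lit 6297919), (nat_lit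 6419972), (nat_lit 6543342), (nat_lit 6667704), (nat_lit 6792791), (nat_lit 6918376), (nat_lit 7044266), (nat_lit 7170294), (nat_lit 7296317), (nat_lit 7422213), (nat_lit 7547873), (nat_lit 7673205)]) (FT.cons (FT.leaf [(nat_lit 6568823), (nat_lit 6691854), (nat_lit 6815751), (nat_lit 6940263), (nat_lit 7065176), (nat_lit 7190310), (nat_lit 7315511), (nat_lit 7440646), (nat_lit 7565598), (nat_lit 7690270)]) (FT.cons (FT.leaf [(nat_lit 6839330), (nat_lit 6962681), (nat_lit 7086549), (nat_lit 7210733),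
 (nat_lit 7335063), (nat_lit 7459397), (nat_lit 7583609), (nat_lit 7707592)]) (FT.cons (FT.leaf [(nat_lit 7108443), (nat_lit 7231608), (nat_lit 7355012), (nat_lit 7478498), (nat_lit 7601930), (nat_lit 7725192)]) (FT.cons (FT.leaf [(nat_lit 7375405), (nat_lit 7497988), (nat_lit 7620595), (nat_lit 7743096)]) (FT.cons (FT.leaf [(nat_lit 7639640), (nat_lit 7761338)]) (FT.cons (FT.leaf [(nat_lit 7900718)]) (FT.cons (FT.leaf [(nat_lit 8158321)]) (FT.cons (FT.leaf [(nat_lit 8412220)]) FT.nil))))))))))))) (FT.cons (FT.cons (FT.leaf [(nat_lit 5791010), (nat_lit 5903281), (nat_lit 6018963), (nat_lit 6137329), (nat_lit 6257811), (nat_lit 6379959), (nat_lit 6503403), (nat_lit 6627835), (nat_lit 6752993), (nat_lit 6878658), (nat_lit 7004641), (nat_lit 7130774), (nat_lit 7256919), (nat_lit 7382948), (nat_lit 7508756)]) (FT.cons (FT.leaf [(nat_lit 6051050), (nat_lit 6167259), (nat_lit 6285906), (nat_lit 6406462), (nat_lit 6528501), (nat_lit 6651681),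 (nat_lit 6775711), (nat_lit 6900351), (nat_lit 7025396), (nat_lit 7150666), (nat_lit 7276012), (nat_lit 7401300), (nat_lit 7526418), (nat_lit 7651264)]) (FT.cons (FT.leaf [(nat_lit 6315112), (nat_lit 6433878), (nat_lit 6554365), (nat_lit 6676176),
 (nat_lit 6798987), (nat_lit 6922528), (nat_lit 7046574), (nat_lit 7170932), (nat_lit 7295437), (nat_lit 7419950), (nat_lit 7544346), (nat_lit 7668520)]) (FT.cons (FT.leaf [(nat_lit 6581122), (nat_lit 6701420), (nat_lit 6822898), (nat_lit 6945251), (nat_lit 7068226), (nat_lit 7191612), (nat_lit 7315229), (nat_lit 7438924), (nat_lit 7562565), (nat_lit 7686037)]) (FT.cons (FT.leaf [(nat_lit 6847541), (nat_lit 6968595), (nat_lit 7090413), (nat_lit 7212756), (nat_lit 7335427), (nat_lit 7458256), (nat_lit 7581101), (nat_lit 7703838)]) (FT.cons (FT.leaf [(nat_lit 7113207), (nat_lit 7234423), (nat_lit 7356078), (nat_lit 7477986), (nat_lit 7599988), (nat_lit 7721950)]) (FT.cons (FT.leaf [(nat_lit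 7377241), (nat_lit 7498160), (nat_lit 7619265), (nat_lit 7740407)]) (FT.cons (FT.leaf [(nat_lit 7638977), (nat_lit 7759245)]) (FT.cons (FT.leaf [(nat_lit 7897911)]) (FT.cons (FT.leaf [(nat_lit 8153670)]) (FT.cons (FT.leaf [(nat_lit 8405976)]) FT.nil))))))))))) (FT.cons (FT.cons (FT.leaf [(nat_lit 6335934), (nat_lit 6450886), (nat_lit 6568081), (nat_lit 6687012), (nat_lit 6807278), (nat_lit 6928554), (nat_lit 7050569), (nat_lit 7173097), (nat_lit 7295947), (nat_lit 7418956), (nat_lit 7541984),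
 (nat_lit 7664907), (nat_lit 7787623)]) (FT.cons (FT.leaf [(nat_lit 6596366), (nat_lit 6713545), (nat_lit 6832294), (nat_lit 6952236), (nat_lit 7073063), (nat_lit 7194524), (nat_lit 7316405), (nat_lit 7438530), (nat_lit 7560745), (nat_lit 7682919), (nat_lit 7804938), (nat_lit 7926705)]) (FT.cons (FT.leaf [(nat_lit 6858187), (nat_lit 6976652), (nat_lit 7096181), (nat_lit 7216485), (nat_lit 7337328), (nat_lit 7458510), (nat_lit 7579864), (nat_lit 7701247), (nat_lit 7822536), (nat_lit 7943627)]) (FT.cons (FT.leaf [(nat_lit 7120016), (nat_lit 7239057), (nat_lit 7358775), (nat_lit 7478946), (nat_lit 7599382), (nat_lit 7719927), (nat_lit 7840447), (nat_lit 7960826)]) (FT.cons (FT.leaf [(nat_lit 7380817), (nat_lit 7499893), (nat_lit 7619345), (nat_lit 7738998), (nat_lit 7858702), (nat_lit 7978333)]) (FT.cons (FT.leaf [(nat_lit 7639809), (nat_lit 7758503), (nat_lit 7877339), (nat_lit 7996176)]) (FT.cons (FT.leaf [(nat_lit 7896402), (nat_lit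 8014393)]) (FT.cons (FT.leaf [(nat_lit 8150151)]) (FT.cons (FT.leaf [(nat_lit 8400729)]) (FT.cons (FT.leaf [(nat_lit 8647895)]) FT.nil)))))))))) (FT.cons (FT.cons (FT.leaf [(nat_lit 6871659), (nat_lit 6987160), (nat_lit 7104102), (nat_lit 7222125),
 (nat_lit 7340938), (nat_lit 7460303), (nat_lit 7580022), (nat_lit 7699926), (nat_lit 7819873), (nat_lit 7939741), (nat_lit 8059427)]) (FT.cons (FT.leaf [(nat_lit 7129162), (nat_lit 7245746), (nat_lit 7363295), (nat_lit 7481538), (nat_lit 7600248), (nat_lit 7719239), (nat_lit 7838352), (nat_lit 7957457), (nat_lit 8076437), (nat_lit 8195194)]) (FT.cons (FT.leaf [(nat_lit 7386356), (nat_lit 7503370), (nat_lit 7620987), (nat_lit 7738997), (nat_lit 7857223), (nat_lit 7975516), (nat_lit 8093752), (nat_lit 8211824)]) (FT.cons (FT.leaf [(nat_lit 7642312), (nat_lit 7759258), (nat_lit 7876529), (nat_lit 7993958), (nat_lit 8111405), (nat_lit 8228753)]) (FT.cons (FT.leaf [(nat_lit 7896327), (nat_lit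 8012827), (nat_lit 8129433), (nat_lit 8246012)]) (FT.cons (FT.leaf [(nat_lit 8147878), (nat_lit 8263639)]) (FT.cons (FT.leaf [(nat_lit 8396571)]) (FT.cons (FT.leaf [(nat_lit 8642114)]) FT.nil)))))))) (FT.cons (FT.cons (FT.leaf [(nat_lit 7394139), (nat_lit 7508817), (nat_lit 7624378), (nat_lit 7740561), (nat_lit 7857153), (nat_lit 7973977), (nat_lit 8090885)]) (FT.cons (FT.leaf [(nat_lit 7646698), (nat_lit 7761686), (nat_lit 7877218), (nat_lit 7993091), (nat_lit 8109139), (nat_lit 8225222)])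
 (FT.cons (FT.leaf [(nat_lit 7897856), (nat_lit 8012698), (nat_lit 8127820), (nat_lit 8243066)]) (FT.cons (FT.leaf [(nat_lit 8146983), (nat_lit 8261328)]) (FT.cons (FT.leaf [(nat_lit 8393608)]) (FT.cons (FT.leaf [(nat_lit 8637379)]) FT.nil)))))) (FT.cons (FT.cons (FT.leaf [(nat_lit 7901195), (nat_lit 8014174), (nat_lit 8127645), (nat_lit 8241415), (nat_lit 8355325)]) (FT.cons (FT.leaf [(nat_lit 8147629), (nat_lit 8260398), (nat_lit 8373411), (nat_lit 8486520)]) (FT.cons (FT.leaf [(nat_lit 8391970), (nat_lit 8504205)]) (FT.cons (FT.leaf [(nat_lit 8633792)]) FT.nil)))) (FT.cons (FT.cons (FT.leaf [(nat_lit 8391813)]) (FT.cons (FT.leaf [(nat_lit 8631480)]) FT.nil)) (FT.cons (FT.cons (FT.leaf [(nat_lit 8865705)]) FT.nil) (FT.cons (FT.cons (FT.leaf [(nat_lit 9323035)]) FT.nil) (FT.cons (FT.cons (FT.leaf [(nat_lit 9764236)]) FT.nil) FT.nil))))))))))) (FT.cons (FT.cons (FT.cons (FT.leaf [(nat_lit 6021356), (nat_lit 6121901), (nat_lit 6227121),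 (nat_lit 6336008), (nat_lit 6447814), (nat_lit 6561955), (nat_lit 6677965), (nat_lit 6795463), (nat_lit 6914128), (nat_lit 7033694), (nat_lit 7153929), (nat_lit 7274639), (nat_lit 7395652), (nat_lit 7516821), (nat_lit 7638015), (nat_lit 7759125),
 (nat_lit 7880047)]) (FT.cons (FT.leaf [(nat_lit 6260948), (nat_lit 6367299), (nat_lit 6476999), (nat_lit 6589348), (nat_lit 6703803), (nat_lit 6819931), (nat_lit 6937376), (nat_lit 7055841), (nat_lit 7175079), (nat_lit 7294877), (nat_lit 7415050), (nat_lit 7535442), (nat_lit 7655917), (nat_lit 7776355), (nat_lit 7896651), (nat_lit 8016715)]) (FT.cons (FT.leaf [(nat_lit 6507534), (nat_lit 6617831), (nat_lit 6730540), (nat_lit 6845153), (nat_lit 6961264), (nat_lit 7078540), (nat_lit 7196707), (nat_lit 7315532), (nat_lit 7434818), (nat_lit 7554393), (nat_lit 7674113), (nat_lit 7793850), (nat_lit 7913495), (nat_lit 8032948)]) (FT.cons (FT.leaf [(nat_lit 6758341), (nat_lit 6871253), (nat_lit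 6985887), (nat_lit 7101865), (nat_lit 7218874), (nat_lit 7336656), (nat_lit 7454994), (nat_lit 7573705), (nat_lit 7692630), (nat_lit 7811632), (nat_lit 7930594), (nat_lit 8049413)]) (FT.cons (FT.leaf [(nat_lit 7011370), (nat_lit 7125909), (nat_lit 7241652), (nat_lit 7358306), (nat_lit 7475629), (nat_lit 7593418), (nat_lit 7711501), (nat_lit 7829730), (nat_lit 7947976), (nat_lit 8066131)]) (FT.cons (FT.leaf [(nat_lit 7265134), (nat_lit 7380555), (nat_lit 7496780), (nat_lit 7613580), (nat_lit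
 7730765), (nat_lit 7848173), (nat_lit 7965666), (nat_lit 8083124)]) (FT.cons (FT.leaf [(nat_lit 7518515), (nat_lit 7634245), (nat_lit 7750467), (nat_lit 7867001), (nat_lit 7983696), (nat_lit 8100420)]) (FT.cons (FT.leaf [(nat_lit 7770664), (nat_lit 7886259), (nat_lit 8002102), (nat_lit 8118048)]) (FT.cons (FT.leaf [(nat_lit 8020929), (nat_lit 8136046)]) (FT.cons (FT.leaf [(nat_lit 8268819)]) (FT.cons (FT.leaf [(nat_lit 8513958)]) (FT.cons (FT.leaf [(nat_lit 8756070)]) FT.nil)))))))))))) (FT.cons (FT.cons (FT.leaf [(nat_lit 6533835), (nat_lit 6639551), (nat_lit 6748379), (nat_lit 6859646), (nat_lit 6972834), (nat_lit 7087532), (nat_lit 7203405), (nat_lit 7320177), (nat_lit 7437613), (nat_lit 7555518), (nat_lit 7673720), (nat_lit 7792077), (nat_lit 7910460), (nat_lit 8028760), (nat_lit 8146883)]) (FT.cons (FT.leaf [(nat_lit 6778020), (nat_lit 6887268), (nat_lit 6998743), (nat_lit 7111958), (nat_lit 7226528), (nat_lit 7342140), (nat_lit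 7458534), (nat_lit 7575494), (nat_lit 7692834), (nat_lit 7810399), (nat_lit 7928051), (nat_lit 8045674), (nat_lit 8163165), (nat_lit 8280437)]) (FT.cons (FT.leaf [(nat_lit 7025700), (nat_lit 7137247), (nat_lit 7250374), (nat_lit 7364718), (nat_lit
 7479984), (nat_lit 7595930), (nat_lit 7712352), (nat_lit 7829077), (nat_lit 7945959), (nat_lit 8062870), (nat_lit 8179702), (nat_lit 8296360)]) (FT.cons (FT.leaf [(nat_lit 7275064), (nat_lit 7388003), (nat_lit 7502035), (nat_lit 7616883), (nat_lit 7732317), (nat_lit 7848148), (nat_lit 7964214), (nat_lit 8080376), (nat_lit 8196516), (nat_lit 8312531)]) (FT.cons (FT.leaf [(nat_lit 7524777), (nat_lit 7638423), (nat_lit 7752789), (nat_lit 7867659), (nat_lit 7982854), (nat_lit 8098221), (nat_lit 8213631), (nat_lit 8328974)]) (FT.cons (FT.leaf [(nat_lit 7773836), (nat_lit 7887665), (nat_lit 8001924), (nat_lit 8116444), (nat_lit 8231081), (nat_lit 8345712)]) (FT.cons (FT.leaf [(nat_lit 8021480),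 (nat_lit 8135088), (nat_lit 8248899), (nat_lit 8362777)]) (FT.cons (FT.leaf [(nat_lit 8267130), (nat_lit 8380204)]) (FT.cons (FT.leaf [(nat_lit 8510349)]) (FT.cons (FT.leaf [(nat_lit 8750805)]) (FT.cons (FT.leaf [(nat_lit 8988253)]) FT.nil))))))))))) (FT.cons (FT.cons (FT.leaf [(nat_lit 7043415), (nat_lit 7151474), (nat_lit 7261600), (nat_lit 7373325), (nat_lit 7486283), (nat_lit 7600177), (nat_lit 7714763), (nat_lit 7829838), (nat_lit 7945227), (nat_lit 8060784), (nat_lit 8176384), (nat_lit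
 8291916), (nat_lit 8407287)]) (FT.cons (FT.leaf [(nat_lit 7287736), (nat_lit 7397830), (nat_lit 7509379), (nat_lit 7622038), (nat_lit 7735526), (nat_lit 7849614), (nat_lit 7964112), (nat_lit 8078856), (nat_lit 8193710), (nat_lit 8308554), (nat_lit 8423288), (nat_lit 8537823)]) (FT.cons (FT.leaf [(nat_lit 7533305), (nat_lit 7644593), (nat_lit 7756879), (nat_lit 7869900), (nat_lit 7983438), (nat_lit 8097314), (nat_lit 8211377), (nat_lit 8325496), (nat_lit 8439560), (nat_lit 8553474)]) (FT.cons (FT.leaf [(nat_lit 7778911), (nat_lit 7890761), (nat_lit 8003261), (nat_lit 8116204), (nat_lit 8229422), (nat_lit 8342770), (nat_lit 8456128), (nat_lit 8569392)]) (FT.cons (FT.leaf [(nat_lit 8023647), (nat_lit 8135579), (nat_lit 8247889), (nat_lit 8360415), (nat_lit 8473023), (nat_lit 8585599)]) (FT.cons (FT.leaf [(nat_lit 8266832), (nat_lit 8378474), (nat_lit 8490282), (nat_lit 8602127)]) (FT.cons (FT.leaf [(nat_lit 8507944), (nat_lit 8619010)])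 (FT.cons (FT.leaf [(nat_lit 8746594)]) (FT.cons (FT.leaf [(nat_lit 8982485)]) (FT.cons (FT.leaf [(nat_lit 9215401)]) FT.nil)))))))))) (FT.cons (FT.cons (FT.leaf [(nat_lit 7544464), (nat_lit 7653044), (nat_lit 7762971), (nat_lit 7873914), (nat_lit
 7985608), (nat_lit 8097835), (nat_lit 8210414), (nat_lit 8323193), (nat_lit 8436043), (nat_lit 8548851), (nat_lit 8661526)]) (FT.cons (FT.leaf [(nat_lit 7786160), (nat_lit 7895768), (nat_lit 8006292), (nat_lit 8117481), (nat_lit 8229129), (nat_lit 8341066), (nat_lit 8453149), (nat_lit 8565255), (nat_lit 8677282), (nat_lit 8789138)]) (FT.cons (FT.leaf [(nat_lit 8027642), (nat_lit 8137693), (nat_lit 8248331), (nat_lit 8359363), (nat_lit 8470627), (nat_lit 8581986), (nat_lit 8693328), (nat_lit 8804555)]) (FT.cons (FT.leaf [(nat_lit 8268087), (nat_lit 8378136), (nat_lit 8488518), (nat_lit 8599081), (nat_lit 8709697), (nat_lit 8820257)]) (FT.cons (FT.leaf [(nat_lit 8506876), (nat_lit 8616581),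 (nat_lit 8726420), (nat_lit 8836273)]) (FT.cons (FT.leaf [(nat_lit 8743541), (nat_lit 8852638)]) (FT.cons (FT.leaf [(nat_lit 8977730)]) (FT.cons (FT.leaf [(nat_lit 9209180)]) FT.nil)))))))) (FT.cons (FT.cons (FT.leaf [(nat_lit 8033727), (nat_lit 8141641), (nat_lit 8250401), (nat_lit 8359765), (nat_lit 8469539), (nat_lit 8579561), (nat_lit 8689695)]) (FT.cons (FT.leaf [(nat_lit 8271098), (nat_lit 8379355), (nat_lit 8488148), (nat_lit 8597291), (nat_lit 8706631), (nat_lit 8816039)]) (FT.cons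
 (FT.leaf [(nat_lit 8507301), (nat_lit 8615489), (nat_lit 8723973), (nat_lit 8832608)]) (FT.cons (FT.leaf [(nat_lit 8741773), (nat_lit 8849575)]) (FT.cons (FT.leaf [(nat_lit 8974090)]) (FT.cons (FT.leaf [(nat_lit 9203933)]) FT.nil)))))) (FT.cons (FT.cons (FT.leaf [(nat_lit 8509415), (nat_lit 8615895), (nat_lit 8722866), (nat_lit 8830150), (nat_lit 8937601)]) (FT.cons (FT.leaf [(nat_lit 8741442), (nat_lit 8847798), (nat_lit 8954418), (nat_lit 9061165)]) (FT.cons (FT.leaf [(nat_lit 8971686), (nat_lit 9077623)]) (FT.cons (FT.leaf [(nat_lit 9199760)]) FT.nil)))) (FT.cons (FT.cons (FT.leaf [(nat_lit 8970666)]) (FT.cons (FT.leaf [(nat_lit 9196777)]) FT.nil)) (FT.cons (FT.cons (FT.leaf [(nat_lit 9417206)]) FT.nil) (FT.cons (FT.cons (FT.leaf [(nat_lit 9849131)]) FT.nil) (FT.cons (FT.cons (FT.leaf [(nat_lit 10266768)]) FT.nil) FT.nil)))))))))) (FT.cons (FT.cons (FT.cons (FT.leaf [(nat_lit 7219050), (nat_lit 7318927), (nat_lit 7421676),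 (nat_lit 7526670), (nat_lit 7633431), (nat_lit 7741580), (nat_lit 7850812), (nat_lit 7960875), (nat_lit 8071557), (nat_lit 8182680), (nat_lit 8294090), (nat_lit 8405657), (nat_lit 8517268), (nat_lit 8628824), (nat_lit 8740237)]) (FT.cons (FT.leaf [(nat_lit
 7449197), (nat_lit 7552296), (nat_lit 7657453), (nat_lit 7764217), (nat_lit 7872235), (nat_lit 7981220), (nat_lit 8090935), (nat_lit 8201183), (nat_lit 8311796), (nat_lit 8422633), (nat_lit 8533571), (nat_lit 8644503), (nat_lit 8755337), (nat_lit 8865994)]) (FT.cons (FT.leaf [(nat_lit 7682468), (nat_lit 7787673), (nat_lit 7894344), (nat_lit 8002149), (nat_lit 8110815), (nat_lit 8220122), (nat_lit 8329886), (nat_lit 8439947), (nat_lit 8550173), (nat_lit 8660450), (nat_lit 8770678), (nat_lit 8880771)]) (FT.cons (FT.leaf [(nat_lit 7917254), (nat_lit 8023748), (nat_lit 8131266), (nat_lit 8239554), (nat_lit 8348402), (nat_lit 8457636), (nat_lit 8567108), (nat_lit 8676692), (nat_lit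 8786282), (nat_lit 8895785)]) (FT.cons (FT.leaf [(nat_lit 8152373), (nat_lit 8259544), (nat_lit 8367399), (nat_lit 8475742), (nat_lit 8584408), (nat_lit 8693259), (nat_lit 8802175), (nat_lit 8911057)]) (FT.cons (FT.leaf [(nat_lit 8386942), (nat_lit 8494319), (nat_lit 8602118), (nat_lit 8710184), (nat_lit 8818386), (nat_lit 8926611)]) (FT.cons (FT.leaf [(nat_lit 8620289), (nat_lit 8727510), (nat_lit 8834947), (nat_lit 8942475)]) (FT.cons (FT.leaf [(nat_lit 8851902), (nat_lit 8958686)]) (FT.cons (FT.leaf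
 [(nat_lit 9081391)]) (FT.cons (FT.leaf [(nat_lit 9308460)]) (FT.cons (FT.leaf [(nat_lit 9532886)]) FT.nil))))))))))) (FT.cons (FT.cons (FT.leaf [(nat_lit 7697624), (nat_lit 7799619), (nat_lit 7903536), (nat_lit 8008942), (nat_lit 8115499), (nat_lit 8222935), (nat_lit 8331025), (nat_lit 8439583), (nat_lit 8548452), (nat_lit 8657498), (nat_lit 8766607), (nat_lit 8875678), (nat_lit 8984627)]) (FT.cons (FT.leaf [(nat_lit 7927817), (nat_lit 8031699), (nat_lit 8136942), (nat_lit 8243227), (nat_lit 8350296), (nat_lit 8457941), (nat_lit 8565983), (nat_lit 8674278), (nat_lit 8782697), (nat_lit 8891134), (nat_lit 8999496), (nat_lit 9107702)]) (FT.cons (FT.leaf [(nat_lit 8159171), (nat_lit 8264178), (nat_lit 8370129), (nat_lit 8476781), (nat_lit 8583934), (nat_lit 8691425), (nat_lit 8799112), (nat_lit 8906879), (nat_lit 9014622), (nat_lit 9122257)]) (FT.cons (FT.leaf [(nat_lit 8390606), (nat_lit 8496169), (nat_lit 8602358), (nat_lit 8708982),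 (nat_lit 8815888), (nat_lit 8922941), (nat_lit 9030033), (nat_lit 9137065)]) (FT.cons (FT.leaf [(nat_lit 8621317), (nat_lit 8727002), (nat_lit 8833064), (nat_lit 8939356), (nat_lit 9045754), (nat_lit 9152150)]) (FT.cons (FT.leaf [(nat_lit 8850694),
 (nat_lit 8956165), (nat_lit 9061821), (nat_lit 9167541)]) (FT.cons (FT.leaf [(nat_lit 9078273), (nat_lit 9183271)]) (FT.cons (FT.leaf [(nat_lit 9303702)]) (FT.cons (FT.leaf [(nat_lit 9526714)]) (FT.cons (FT.leaf [(nat_lit 9747110)]) FT.nil)))))))))) (FT.cons (FT.cons (FT.leaf [(nat_lit 8168431), (nat_lit 8270945), (nat_lit 8374729), (nat_lit 8479476), (nat_lit 8584940), (nat_lit 8690921), (nat_lit 8797253), (nat_lit 8903796), (nat_lit 9010431)]) (FT.cons (FT.leaf [(nat_lit 8396304), (nat_lit 8499805), (nat_lit 8604179), (nat_lit 8709195), (nat_lit 8814663), (nat_lit 8920426), (nat_lit 9026350), (nat_lit 9132326)]) (FT.cons (FT.leaf [(nat_lit 8624052), (nat_lit 8728008), (nat_lit 8832537),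 (nat_lit 8937458), (nat_lit 9042624), (nat_lit 9147908)]) (FT.cons (FT.leaf [(nat_lit 8850937), (nat_lit 8954944), (nat_lit 9059291), (nat_lit 9163836)]) (FT.cons (FT.leaf [(nat_lit 9076403), (nat_lit 9180150)]) (FT.cons (FT.leaf [(nat_lit 9300027)]) (FT.cons (FT.leaf [(nat_lit 9521490)]) (FT.cons (FT.leaf [(nat_lit 9740549)]) FT.nil)))))))) (FT.cons (FT.cons (FT.leaf [(nat_lit 8628743), (nat_lit 8730730), (nat_lit 8833530), (nat_lit 8936919), (nat_lit 9040717), (nat_lit 9144773), (nat_lit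
 9248963)]) (FT.cons (FT.leaf [(nat_lit 8852823), (nat_lit 8955181), (nat_lit 9058065), (nat_lit 9161304), (nat_lit 9264757), (nat_lit 9368303)]) (FT.cons (FT.leaf [(nat_lit 9075930), (nat_lit 9178281), (nat_lit 9280937), (nat_lit 9383766)]) (FT.cons (FT.leaf [(nat_lit 9297554), (nat_lit 9399607)]) (FT.cons (FT.leaf [(nat_lit 9517309)]) (FT.cons (FT.leaf [(nat_lit 9734901)]) FT.nil)))))) (FT.cons (FT.cons (FT.leaf [(nat_lit 9077040), (nat_lit 9177813), (nat_lit 9279074)]) (FT.cons (FT.leaf [(nat_lit 9296427), (nat_lit 9397146)]) (FT.cons (FT.leaf [(nat_lit 9514285)]) (FT.cons (FT.leaf [(nat_lit 9730259)]) FT.nil)))) (FT.cons (FT.cons (FT.leaf [(nat_lit 9512561)]) (FT.cons (FT.leaf [(nat_lit 9726734)]) FT.nil)) (FT.cons (FT.cons (FT.leaf [(nat_lit 9935037)]) FT.nil) (FT.cons (FT.cons (FT.leaf [(nat_lit 10344509)]) FT.nil) FT.nil)))))))) (FT.cons (FT.cons (FT.cons (FT.leaf [(nat_lit 8306174), (nat_lit 8402803), (nat_lit 8501232),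 (nat_lit 8601058), (nat_lit 8701966), (nat_lit 8803706), (nat_lit 8906068), (nat_lit 9008881), (nat_lit 9112002), (nat_lit 9215308), (nat_lit 9318692)]) (FT.cons (FT.leaf [(nat_lit 8523898), (nat_lit 8622293), (nat_lit 8721971), (nat_lit 8822634), (nat_lit
 8924044), (nat_lit 9026006), (nat_lit 9128357), (nat_lit 9230964), (nat_lit 9333707), (nat_lit 9436490)]) (FT.cons (FT.leaf [(nat_lit 8742724), (nat_lit 8842190), (nat_lit 8942554), (nat_lit 9043590), (nat_lit 9145112), (nat_lit 9246970), (nat_lit 9349033), (nat_lit 9451193)]) (FT.cons (FT.leaf [(nat_lit 8961678), (nat_lit 9061695), (nat_lit 9162317), (nat_lit 9263367), (nat_lit 9364702), (nat_lit 9466200)]) (FT.cons (FT.leaf [(nat_lit 9180032), (nat_lit 9280205), (nat_lit 9380754), (nat_lit 9481542)]) (FT.cons (FT.leaf [(nat_lit 9397238), (nat_lit 9497261)]) (FT.cons (FT.leaf [(nat_lit 9612875)]) FT.nil))))))) (FT.cons (FT.cons (FT.leaf [(nat_lit 8750403), (nat_lit 8847561),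 (nat_lit 8945921), (nat_lit 9045199), (nat_lit 9145164), (nat_lit 9245631), (nat_lit 9346447), (nat_lit 9447482), (nat_lit 9548626)]) (FT.cons (FT.leaf [(nat_lit 8966089), (nat_lit 9064198), (nat_lit 9163144), (nat_lit 9262710), (nat_lit 9362720), (nat_lit 9463028), (nat_lit 9563511), (nat_lit 9664066)]) (FT.cons (FT.leaf [(nat_lit 9181728), (nat_lit 9280302), (nat_lit 9379435), (nat_lit 9478957), (nat_lit 9578733), (nat_lit 9678644)]) (FT.cons (FT.leaf [(nat_lit 9396652), (nat_lit 9495319), (nat_lit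
 9594331), (nat_lit 9693552)]) (FT.cons (FT.leaf [(nat_lit 9610353), (nat_lit 9708829)]) (FT.cons (FT.leaf [(nat_lit 9822447)]) FT.nil)))))) (FT.cons (FT.cons (FT.leaf [(nat_lit 9185262), (nat_lit 9282011), (nat_lit 9379542), (nat_lit 9477647), (nat_lit 9576159)]) (FT.cons (FT.leaf [(nat_lit 9397608), (nat_lit 9494747), (nat_lit 9592404), (nat_lit 9690418)]) (FT.cons (FT.leaf [(nat_lit 9609142), (nat_lit 9706325)]) (FT.cons (FT.leaf [(nat_lit 9819400)]) FT.nil)))) (FT.cons (FT.cons (FT.leaf [(nat_lit 9609421), (nat_lit 9705138), (nat_lit 9801338)]) (FT.cons (FT.leaf [(nat_lit 9817618), (nat_lit 9913336)]) FT.nil)) (FT.cons (FT.cons (FT.leaf [(nat_lit 10022193)]) FT.nil) (FT.cons (FT.cons (FT.leaf [(nat_lit 10423311)]) FT.nil) FT.nil)))))) (FT.cons (FT.cons (FT.cons (FT.leaf [(nat_lit 9295888), (nat_lit 9388281), (nat_lit 9481816), (nat_lit 9576227), (nat_lit 9671300), (nat_lit 9766861), (nat_lit 9862767)]) (FT.cons (FT.leaf [(nat_lit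 9500746), (nat_lit 9594059), (nat_lit 9688174), (nat_lit 9782889), (nat_lit 9878040), (nat_lit 9973489)]) (FT.cons (FT.leaf [(nat_lit 9705624), (nat_lit 9799407), (nat_lit 9893734), (nat_lit 9988448)]) (FT.cons (FT.leaf [(nat_lit 9909909), (nat_lit
 10003821)]) (FT.cons (FT.leaf [(nat_lit 10113137)]) FT.nil))))) (FT.cons (FT.cons (FT.leaf [(nat_lit 9708186), (nat_lit 9800268), (nat_lit 9893105), (nat_lit 9986501), (nat_lit 10080298)]) (FT.cons (FT.leaf [(nat_lit 9910089), (nat_lit 10002576), (nat_lit 10095571), (nat_lit 10188923)]) (FT.cons (FT.leaf [(nat_lit 10111315), (nat_lit 10203886)]) (FT.cons (FT.leaf [(nat_lit 10311436)]) FT.nil)))) (FT.cons (FT.cons (FT.leaf [(nat_lit 10110899)]) (FT.cons (FT.leaf [(nat_lit 10309112)]) FT.nil)) (FT.cons (FT.cons (FT.leaf [(nat_lit 10503397)]) FT.nil) FT.nil)))) (FT.cons (FT.cons (FT.cons (FT.leaf [(nat_lit 10201528), (nat_lit 10289423), (nat_lit 10378047)]) (FT.cons (FT.leaf [(nat_lit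 10394070), (nat_lit 10482381)]) (FT.cons (FT.leaf [(nat_lit 10586049)]) FT.nil))) (FT.cons (FT.cons (FT.leaf [(nat_lit 10585046)]) (FT.cons (FT.leaf [(nat_lit 10774289)]) FT.nil)) FT.nil)) (FT.cons (FT.cons (FT.cons (FT.leaf [(nat_lit 11034841)]) FT.nil) FT.nil) (FT.cons (FT.cons (FT.cons (FT.leaf [(nat_lit 11805722)]) FT.nil) FT.nil) (FT.cons (FT.cons (FT.cons (FT.leaf [(nat_lit 12522406)]) FT.nil) FT.nil) FT.nil)))))))))

def f104_1_0 : FT := (FT.cons (FT.cons (FT.cons (FT.cons (FT.leaf [(nat_lit 1196671), (nat_lit 1345023), (nat_lit 1517156), (nat_lit 1707613), (nat_lit 1912343)]) (FT.cons (FT.leaf [(nat_lit 1515980), (nat_lit 1695769), (nat_lit 1892050), (nat_lit 2101010)]) (FT.cons (FT.leaf [(nat_lit 1877744), (nat_lit 2078642)]) (FT.cons (FT.leaf [(nat_lit 2266620)]) FT.nil)))) (FT.cons (FT.cons (FT.leaf [(nat_lit 1782456), (nat_lit 1966309), (nat_lit 2165219)]) (FT.cons (FT.leaf [(nat_lit 2149388), (nat_lit 2351846)]) (FT.cons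 (FT.leaf [(nat_lit 2539151)]) FT.nil))) (FT.cons (FT.cons (FT.leaf [(nat_lit 2419406)]) (FT.cons (FT.leaf [(nat_lit 2808408)]) FT.nil)) (FT.cons (FT.cons (FT.leaf [(nat_lit 3073841)]) FT.nil) FT.nil)))) (FT.cons (FT.cons (FT.cons (FT.leaf [(nat_lit 2265156), (nat_lit 2447435), (nat_lit 2643379), (nat_lit 2849402), (nat_lit 3062849)]) (FT.cons (FT.leaf [(nat_lit 2626791), (nat_lit 2825374), (nat_lit 3032976), (nat_lit 3247129)]) (FT.cons (FT.leaf [(nat_lit 3007478), (nat_lit 3216098)]) (FT.cons (FT.leaf [(nat_lit 3398460)]) FT.nil)))) (FT.cons (FT.cons (FT.leaf [(nat_lit 2888629), (nat_lit 3086977), (nat_lit 3293534)]) (FT.cons (FT.leaf [(nat_lit 3267312), (nat_lit 3474433)]) (FT.cons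
 (FT.leaf [(nat_lit 3654328)]) FT.nil))) (FT.cons (FT.cons (FT.leaf [(nat_lit 3523043)]) (FT.cons (FT.leaf [(nat_lit 3905564)]) FT.nil)) (FT.cons (FT.cons (FT.leaf [(nat_lit 4152092)]) FT.nil) FT.nil)))) (FT.cons (FT.cons (FT.cons (FT.leaf [(nat_lit 3338858), (nat_lit 3532127), (nat_lit 3732877)]) (FT.cons (FT.leaf [(nat_lit 3706712), (nat_lit 3907715)]) (FT.cons (FT.leaf [(nat_lit 4081425)]) FT.nil))) (FT.cons (FT.cons (FT.leaf [(nat_lit 3952984)]) (FT.cons (FT.leaf [(nat_lit 4323041)]) FT.nil)) (FT.cons (FT.cons (FT.leaf [(nat_lit 4560113)]) FT.nil) FT.nil))) (FT.cons (FT.cons (FT.cons (FT.leaf [(nat_lit 4364776)]) FT.nil) (FT.cons (FT.cons (FT.leaf [(nat_lit 4951028)]) FT.nil) FT.nil)) (FT.cons (FT.cons (FT.cons (FT.leaf [(nat_lit 5326075)]) FT.nil) FT.nil) (FT.cons (FT.cons (FT.cons (FT.leaf [(nat_lit 6220854)]) FT.nil) FT.nil) (FT.cons (FT.cons (FT.cons (FT.leaf [(nat_lit 7052885)]) FT.nil) FT.nil) FT.nil))))))) (FT.cons (FT.cons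 (FT.cons (FT.cons (FT.leaf [(nat_lit 3627704), (nat_lit 3787163), (nat_lit 3958324), (nat_lit 4138154), (nat_lit 4324446)]) (FT.cons (FT.leaf [(nat_lit 3942956), (nat_lit 4116343), (nat_lit 4297575), (nat_lit 4484594)]) (FT.cons (FT.leaf [(nat_lit
 4274517), (nat_lit 4456732)]) (FT.cons (FT.leaf [(nat_lit 4615407)]) FT.nil)))) (FT.cons (FT.cons (FT.leaf [(nat_lit 4168931), (nat_lit 4342269), (nat_lit 4522847)]) (FT.cons (FT.leaf [(nat_lit 4499170), (nat_lit 4680406)]) (FT.cons (FT.leaf [(nat_lit 4837308)]) FT.nil))) (FT.cons (FT.cons (FT.leaf [(nat_lit 4720823)]) (FT.cons (FT.leaf [(nat_lit 5055837)]) FT.nil)) (FT.cons (FT.cons (FT.leaf [(nat_lit 5270931)]) FT.nil) FT.nil)))) (FT.cons (FT.cons (FT.cons (FT.leaf [(nat_lit 4554967), (nat_lit 4724638), (nat_lit 4901023), (nat_lit 5082253)]) (FT.cons (FT.leaf [(nat_lit 4877345), (nat_lit 5054164), (nat_lit 5235356)]) (FT.cons (FT.leaf [(nat_lit 5206555)]) FT.nil))) (FT.cons (FT.cons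 (FT.leaf [(nat_lit 5092096), (nat_lit 5267560)]) (FT.cons (FT.leaf [(nat_lit 5418043)]) FT.nil)) (FT.cons (FT.cons (FT.leaf [(nat_lit 5626185)]) FT.nil) FT.nil))) (FT.cons (FT.cons (FT.cons (FT.leaf [(nat_lit 5450134)]) FT.nil) (FT.cons (FT.cons (FT.leaf [(nat_lit 5968804)]) FT.nil) FT.nil)) (FT.cons (FT.cons (FT.cons (FT.leaf [(nat_lit 6299555)]) FT.nil) FT.nil) (FT.cons (FT.cons (FT.cons (FT.leaf [(nat_lit 7099798)]) FT.nil) FT.nil) (FT.cons (FT.cons (FT.cons (FT.leaf [(nat_lit 7851952)]) FT.nil)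
 FT.nil) FT.nil)))))) (FT.cons (FT.cons (FT.cons (FT.cons (FT.leaf [(nat_lit 5594108), (nat_lit 5746534), (nat_lit 5905052), (nat_lit 6068028)]) (FT.cons (FT.leaf [(nat_lit 5883228), (nat_lit 6042249), (nat_lit 6205332)]) (FT.cons (FT.leaf [(nat_lit 6178911)]) FT.nil))) (FT.cons (FT.cons (FT.leaf [(nat_lit 6074867), (nat_lit 6232915)]) (FT.cons (FT.leaf [(nat_lit 6368114)]) FT.nil)) (FT.cons (FT.cons (FT.leaf [(nat_lit 6554714)]) FT.nil) FT.nil))) (FT.cons (FT.cons (FT.cons (FT.leaf [(nat_lit 6393367)]) FT.nil) (FT.cons (FT.cons (FT.leaf [(nat_lit 6861207)]) FT.nil) FT.nil)) (FT.cons (FT.cons (FT.cons (FT.leaf [(nat_lit 7158393)]) FT.nil) FT.nil) (FT.cons (FT.cons (FT.cons (FT.leaf [(nat_lit 7885327)]) FT.nil) FT.nil) FT.nil)))) (FT.cons (FT.cons (FT.cons (FT.cons (FT.leaf [(nat_lit 7230729)]) FT.nil) FT.nil) (FT.cons (FT.cons (FT.cons (FT.leaf [(nat_lit 7929264)]) FT.nil) FT.nil) FT.nil)) (FT.cons (FT.cons (FT.cons (FT.cons (FT.leaf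 [(nat_lit 8630150)]) FT.nil) FT.nil) FT.nil) (FT.cons (FT.cons (FT.cons (FT.cons (FT.leaf [(nat_lit 9852187)]) FT.nil) FT.nil) FT.nil) (FT.cons (FT.cons (FT.cons (FT.cons (FT.leaf [(nat_lit 10936876)]) FT.nil) FT.nil) FT.nil) (FT.cons (FT.cons (FT.cons
 (FT.cons (FT.leaf [(nat_lit 11912145)]) FT.nil) FT.nil) FT.nil) (FT.cons (FT.cons (FT.cons (FT.cons (FT.leaf [(nat_lit 12798205)]) FT.nil) FT.nil) FT.nil) FT.nil)))))))))

def f104_1_400 : FT := (FT.cons (FT.cons (FT.cons (FT.cons (FT.leaf [(nat_lit 2094900), (nat_lit 2278522), (nat_lit 2476207), (nat_lit 2684320), (nat_lit 2900150)]) (FT.cons (FT.leaf [(nat_lit 2459733), (nat_lit 2660285), (nat_lit 2870160), (nat_lit 3086833)]) (FT.cons (FT.leaf [(nat_lit 2844605), (nat_lit 3055641)]) (FT.cons (FT.leaf [(nat_lit 3240428)]) FT.nil)))) (FT.cons (FT.cons (FT.leaf [(nat_lit 2724975), (nat_lit 2925473), (nat_lit 3134432)]) (FT.cons (FT.leaf [(nat_lit 3108112), (nat_lit 3317737)]) (FT.cons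 (FT.leaf [(nat_lit 3500076)]) FT.nil))) (FT.cons (FT.cons (FT.leaf [(nat_lit 3367536)]) (FT.cons (FT.leaf [(nat_lit 3755043)]) FT.nil)) (FT.cons (FT.cons (FT.leaf [(nat_lit 4005231)]) FT.nil) FT.nil)))) (FT.cons (FT.cons (FT.cons (FT.leaf [(nat_lit 3182338), (nat_lit 3377799), (nat_lit 3580938), (nat_lit 3789502), (nat_lit 4001797)]) (FT.cons (FT.leaf [(nat_lit 3554648), (nat_lit 3758105), (nat_lit 3966376), (nat_lit 4177884)]) (FT.cons (FT.leaf [(nat_lit 3934157), (nat_lit 4141859)]) (FT.cons (FT.leaf [(nat_lit 4315828)]) FT.nil)))) (FT.cons (FT.cons (FT.leaf [(nat_lit 3804455), (nat_lit 4005907), (nat_lit 4211726)]) (FT.cons (FT.leaf [(nat_lit 4179288), (nat_lit 4384346)]) (FT.cons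
 (FT.leaf [(nat_lit 4555375)]) FT.nil))) (FT.cons (FT.cons (FT.leaf [(nat_lit 4419787)]) (FT.cons (FT.leaf [(nat_lit 4790174)]) FT.nil)) (FT.cons (FT.cons (FT.leaf [(nat_lit 5020296)]) FT.nil) FT.nil)))) (FT.cons (FT.cons (FT.cons (FT.leaf [(nat_lit 4222757), (nat_lit 4418006), (nat_lit 4617269)]) (FT.cons (FT.leaf [(nat_lit 4585359), (nat_lit 4783792)]) (FT.cons (FT.leaf [(nat_lit 4948754)]) FT.nil))) (FT.cons (FT.cons (FT.leaf [(nat_lit 4816741)]) (FT.cons (FT.leaf [(nat_lit 5174633)]) FT.nil)) (FT.cons (FT.cons (FT.leaf [(nat_lit 5396103)]) FT.nil) FT.nil))) (FT.cons (FT.cons (FT.cons (FT.leaf [(nat_lit 5197369)]) FT.nil) (FT.cons (FT.cons (FT.leaf [(nat_lit 5756902)]) FT.nil) FT.nil)) (FT.cons (FT.cons (FT.cons (FT.leaf [(nat_lit 6103814)]) FT.nil) FT.nil) (FT.cons (FT.cons (FT.cons (FT.leaf [(nat_lit 6945915)]) FT.nil) FT.nil) (FT.cons (FT.cons (FT.cons (FT.leaf [(nat_lit 7729445)]) FT.nil) FT.nil) FT.nil))))))) (FT.cons (FT.cons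 (FT.cons (FT.cons (FT.leaf [(nat_lit 4421019), (nat_lit 4592279), (nat_lit 4770399), (nat_lit 4953477), (nat_lit 5140096)]) (FT.cons (FT.leaf [(nat_lit 4746636), (nat_lit 4925239), (nat_lit 5108311), (nat_lit 5294527)]) (FT.cons (FT.leaf [(nat_lit
 5079340), (nat_lit 5262190)]) (FT.cons (FT.leaf [(nat_lit 5415014)]) FT.nil)))) (FT.cons (FT.cons (FT.leaf [(nat_lit 4963965), (nat_lit 5141225), (nat_lit 5322603)]) (FT.cons (FT.leaf [(nat_lit 5293404), (nat_lit 5474405)]) (FT.cons (FT.leaf [(nat_lit 5625087)]) FT.nil))) (FT.cons (FT.cons (FT.leaf [(nat_lit 5504070)]) (FT.cons (FT.leaf [(nat_lit 5831647)]) FT.nil)) (FT.cons (FT.cons (FT.leaf [(nat_lit 6034728)]) FT.nil) FT.nil)))) (FT.cons (FT.cons (FT.cons (FT.leaf [(nat_lit 5326751), (nat_lit 5499498), (nat_lit 5676080), (nat_lit 5855301)]) (FT.cons (FT.leaf [(nat_lit 5647240), (nat_lit 5823373), (nat_lit 6001860)]) (FT.cons (FT.leaf [(nat_lit 5969550)]) FT.nil))) (FT.cons (FT.cons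 (FT.leaf [(nat_lit 5851157), (nat_lit 6025365)]) (FT.cons (FT.leaf [(nat_lit 6169448)]) FT.nil)) (FT.cons (FT.cons (FT.leaf [(nat_lit 6366024)]) FT.nil) FT.nil))) (FT.cons (FT.cons (FT.cons (FT.leaf [(nat_lit 6186092)]) FT.nil) (FT.cons (FT.cons (FT.leaf [(nat_lit 6685967)]) FT.nil) FT.nil)) (FT.cons (FT.cons (FT.cons (FT.leaf [(nat_lit 6995270)]) FT.nil) FT.nil) (FT.cons (FT.cons (FT.cons (FT.leaf [(nat_lit 7755343)]) FT.nil) FT.nil) (FT.cons (FT.cons (FT.cons (FT.leaf [(nat_lit 8469346)]) FT.nil)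
 FT.nil) FT.nil)))))) (FT.cons (FT.cons (FT.cons (FT.cons (FT.leaf [(nat_lit 6283714), (nat_lit 6439670), (nat_lit 6599247), (nat_lit 6761387)]) (FT.cons (FT.leaf [(nat_lit 6572736), (nat_lit 6732074), (nat_lit 6893733)]) (FT.cons (FT.leaf [(nat_lit 6864057)]) FT.nil))) (FT.cons (FT.cons (FT.leaf [(nat_lit 6756033), (nat_lit 6913912)]) (FT.cons (FT.leaf [(nat_lit 7044258)]) FT.nil)) (FT.cons (FT.cons (FT.leaf [(nat_lit 7221836)]) FT.nil) FT.nil))) (FT.cons (FT.cons (FT.cons (FT.leaf [(nat_lit 7056501)]) FT.nil) (FT.cons (FT.cons (FT.leaf [(nat_lit 7510443)]) FT.nil) FT.nil)) (FT.cons (FT.cons (FT.cons (FT.leaf [(nat_lit 7790565)]) FT.nil) FT.nil) (FT.cons (FT.cons (FT.cons (FT.leaf [(nat_lit 8485663)]) FT.nil) FT.nil) FT.nil)))) (FT.cons (FT.cons (FT.cons (FT.cons (FT.leaf [(nat_lit 7836519)]) FT.nil) FT.nil) (FT.cons (FT.cons (FT.cons (FT.leaf [(nat_lit 8510394)]) FT.nil) FT.nil) FT.nil)) (FT.cons (FT.cons (FT.cons (FT.cons (FT.leaf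 [(nat_lit 9169156)]) FT.nil) FT.nil) FT.nil) (FT.cons (FT.cons (FT.cons (FT.cons (FT.leaf [(nat_lit 10337313)]) FT.nil) FT.nil) FT.nil) (FT.cons (FT.cons (FT.cons (FT.cons (FT.leaf [(nat_lit 11377801)]) FT.nil) FT.nil) FT.nil) (FT.cons (FT.cons
 (FT.cons (FT.cons (FT.leaf [(nat_lit 12316226)]) FT.nil) FT.nil) FT.nil) (FT.cons (FT.cons (FT.cons (FT.cons (FT.leaf [(nat_lit 13171131)]) FT.nil) FT.nil) FT.nil) FT.nil)))))))))

def f104_1_600 : FT := (FT.cons (FT.cons (FT.cons (FT.cons (FT.leaf [(nat_lit 2819455), (nat_lit 2994145), (nat_lit 3181540), (nat_lit 3378251), (nat_lit 3581804)]) (FT.cons (FT.leaf [(nat_lit 3165151), (nat_lit 3354819), (nat_lit 3552857), (nat_lit 3756963)]) (FT.cons (FT.leaf [(nat_lit 3528070), (nat_lit 3726952)]) (FT.cons (FT.leaf [(nat_lit 3900287)]) FT.nil)))) (FT.cons (FT.cons (FT.leaf [(nat_lit 3413615), (nat_lit 3602894), (nat_lit 3799841)]) (FT.cons (FT.leaf [(nat_lit 3774406), (nat_lit 3971826)]) (FT.cons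 (FT.leaf [(nat_lit 4142855)]) FT.nil))) (FT.cons (FT.cons (FT.leaf [(nat_lit 4016906)]) (FT.cons (FT.leaf [(nat_lit 4381177)]) FT.nil)) (FT.cons (FT.cons (FT.leaf [(nat_lit 4615213)]) FT.nil) FT.nil)))) (FT.cons (FT.cons (FT.cons (FT.leaf [(nat_lit 3838688), (nat_lit 4023210), (nat_lit 4214790)]) (FT.cons (FT.leaf [(nat_lit 4189428), (nat_lit 4381237)]) (FT.cons (FT.leaf [(nat_lit 4546642)]) FT.nil))) (FT.cons (FT.cons (FT.leaf [(nat_lit 4423329)]) (FT.cons (FT.leaf [(nat_lit 4776278)]) FT.nil)) (FT.cons (FT.cons (FT.leaf [(nat_lit 5001787)]) FT.nil) FT.nil))) (FT.cons (FT.cons (FT.cons (FT.leaf [(nat_lit 4813447)]) FT.nil) (FT.cons (FT.cons (FT.leaf [(nat_lit 5373014)]) FT.nil) FT.nil))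
 (FT.cons (FT.cons (FT.cons (FT.leaf [(nat_lit 5729964)]) FT.nil) FT.nil) (FT.cons (FT.cons (FT.cons (FT.leaf [(nat_lit 6586446)]) FT.nil) FT.nil) FT.nil))))) (FT.cons (FT.cons (FT.cons (FT.cons (FT.leaf [(nat_lit 4981885), (nat_lit 5145198), (nat_lit 5314901)]) (FT.cons (FT.leaf [(nat_lit 5291810), (nat_lit 5461911)]) (FT.cons (FT.leaf [(nat_lit 5608213)]) FT.nil))) (FT.cons (FT.cons (FT.leaf [(nat_lit 5497539)]) (FT.cons (FT.leaf [(nat_lit 5810895)]) FT.nil)) (FT.cons (FT.cons (FT.leaf [(nat_lit 6010483)]) FT.nil) FT.nil))) (FT.cons (FT.cons (FT.cons (FT.leaf [(nat_lit 5839729)]) FT.nil) (FT.cons (FT.cons (FT.leaf [(nat_lit 6338471)]) FT.nil) FT.nil)) (FT.cons (FT.cons (FT.cons (FT.leaf [(nat_lit 6655595)]) FT.nil) FT.nil) (FT.cons (FT.cons (FT.cons (FT.leaf [(nat_lit 7426320)]) FT.nil) FT.nil) FT.nil)))) (FT.cons (FT.cons (FT.cons (FT.cons (FT.leaf [(nat_lit 6739243)]) FT.nil) FT.nil) (FT.cons (FT.cons (FT.cons (FT.leaf [(nat_lit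 7477929)]) FT.nil) FT.nil) FT.nil)) (FT.cons (FT.cons (FT.cons (FT.cons (FT.leaf [(nat_lit 8219864)]) FT.nil) FT.nil) FT.nil) (FT.cons (FT.cons (FT.cons (FT.cons (FT.leaf [(nat_lit 9500126)]) FT.nil) FT.nil) FT.nil) (FT.cons (FT.cons (FT.cons (FT.cons
 (FT.leaf [(nat_lit 10628571)]) FT.nil) FT.nil) FT.nil) (FT.cons (FT.cons (FT.cons (FT.cons (FT.leaf [(nat_lit 11637918)]) FT.nil) FT.nil) FT.nil) (FT.cons (FT.cons (FT.cons (FT.cons (FT.leaf [(nat_lit 12551263)]) FT.nil) FT.nil) FT.nil) FT.nil))))))))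

def f104_1_750 : FT := (FT.cons (FT.cons (FT.cons (FT.cons (FT.leaf [(nat_lit 3420507), (nat_lit 3584105), (nat_lit 3759645), (nat_lit 3943993), (nat_lit 4134874), (nat_lit 4330553)]) (FT.cons (FT.leaf [(nat_lit 3743970), (nat_lit 3921720), (nat_lit 4107425), (nat_lit 4298966), (nat_lit 4494734)]) (FT.cons (FT.leaf [(nat_lit 4083881), (nat_lit 4270511), (nat_lit 4462367), (nat_lit 4657949)]) (FT.cons (FT.leaf [(nat_lit 4433027), (nat_lit 4624901)]) (FT.cons (FT.leaf [(nat_lit 4786426)]) (FT.cons (FT.leaf [(nat_lit 5140557)]) FT.nil)))))) (FT.cons (FT.cons (FT.leaf [(nat_lit 3975871), (nat_lit 4153452), (nat_lit 4338363), (nat_lit 4528582), (nat_lit 4722589)]) (FT.cons (FT.leaf [(nat_lit 4314196), (nat_lit 4499699), (nat_lit 4689966), (nat_lit 4883577)]) (FT.cons (FT.leaf [(nat_lit 4660290), (nat_lit 4850353)]) (FT.cons (FT.leaf [(nat_lit 5009625)]) (FT.cons (FT.leaf [(nat_lit 5359017)]) FT.nil))))) (FT.cons (FT.cons (FT.leaf [(nat_lit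 4541273), (nat_lit 4725393), (nat_lit 4913877)]) (FT.cons (FT.leaf [(nat_lit 4883938), (nat_lit 5072036)]) (FT.cons (FT.leaf [(nat_lit 5229000)]) FT.nil))) (FT.cons (FT.cons (FT.leaf [(nat_lit 5103920)]) (FT.cons (FT.leaf [(nat_lit 5444566)]) FT.nil)) FT.nil)))) (FT.cons
 (FT.cons (FT.cons (FT.leaf [(nat_lit 4372010), (nat_lit 4545611), (nat_lit 4725998), (nat_lit 4911252), (nat_lit 5099943)]) (FT.cons (FT.leaf [(nat_lit 4701855), (nat_lit 4882611), (nat_lit 5067747), (nat_lit 5255929)]) (FT.cons (FT.leaf [(nat_lit 5038388), (nat_lit 5223197)]) (FT.cons (FT.leaf [(nat_lit 5377506)]) FT.nil)))) (FT.cons (FT.cons (FT.leaf [(nat_lit 4921573), (nat_lit 5100831), (nat_lit 5284126)]) (FT.cons (FT.leaf [(nat_lit 5254561), (nat_lit 5437383)]) (FT.cons (FT.leaf [(nat_lit 5589442)]) FT.nil))) (FT.cons (FT.cons (FT.leaf [(nat_lit 5467179)]) (FT.cons (FT.leaf [(nat_lit 5797730)]) FT.nil)) (FT.cons (FT.cons (FT.leaf [(nat_lit 6002414)]) FT.nil)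 FT.nil)))) (FT.cons (FT.cons (FT.cons (FT.leaf [(nat_lit 5287837), (nat_lit 5462354), (nat_lit 5640636)]) (FT.cons (FT.leaf [(nat_lit 5611466), (nat_lit 5789217)]) (FT.cons (FT.leaf [(nat_lit 5936615)]) FT.nil))) (FT.cons (FT.cons (FT.leaf [(nat_lit 5817105)]) (FT.cons (FT.leaf [(nat_lit 6138044)]) FT.nil)) (FT.cons (FT.cons (FT.leaf [(nat_lit 6336046)]) FT.nil) FT.nil))) (FT.cons (FT.cons (FT.cons (FT.leaf [(nat_lit 6154547)]) FT.nil) (FT.cons (FT.cons (FT.leaf [(nat_lit 6658065)]) FT.nil) FT.nil)) (FT.cons (FT.cons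
 (FT.cons (FT.leaf [(nat_lit 6969226)]) FT.nil) FT.nil) FT.nil))))) (FT.cons (FT.cons (FT.cons (FT.cons (FT.leaf [(nat_lit 5437509), (nat_lit 5592833), (nat_lit 5754315), (nat_lit 5920285), (nat_lit 6089504)]) (FT.cons (FT.leaf [(nat_lit 5732138), (nat_lit 5894087), (nat_lit 6060118), (nat_lit 6229070)]) (FT.cons (FT.leaf [(nat_lit 6033272), (nat_lit 6199190)]) (FT.cons (FT.leaf [(nat_lit 6337424)]) FT.nil)))) (FT.cons (FT.cons (FT.leaf [(nat_lit 5927452), (nat_lit 6088341), (nat_lit 6253028)]) (FT.cons (FT.leaf [(nat_lit 6225975), (nat_lit 6390428)]) (FT.cons (FT.leaf [(nat_lit 6526938)]) FT.nil))) (FT.cons (FT.cons (FT.leaf [(nat_lit 6415941)]) (FT.cons (FT.leaf [(nat_lit 6713624)]) FT.nil)) (FT.cons (FT.cons (FT.leaf [(nat_lit 6897505)]) FT.nil) FT.nil)))) (FT.cons (FT.cons (FT.cons (FT.leaf [(nat_lit 6252063), (nat_lit 6409329), (nat_lit 6570166)]) (FT.cons (FT.leaf [(nat_lit 6543400), (nat_lit 6703944)]) (FT.cons (FT.leaf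 [(nat_lit 6836832)]) FT.nil))) (FT.cons (FT.cons (FT.leaf [(nat_lit 6727957)]) (FT.cons (FT.leaf [(nat_lit 7018166)]) FT.nil)) (FT.cons (FT.cons (FT.leaf [(nat_lit 7196806)]) FT.nil) FT.nil))) (FT.cons (FT.cons (FT.cons (FT.leaf [(nat_lit 7030261)]) FT.nil)
 (FT.cons (FT.cons (FT.leaf [(nat_lit 7486962)]) FT.nil) FT.nil)) (FT.cons (FT.cons (FT.cons (FT.leaf [(nat_lit 7768489)]) FT.nil) FT.nil) FT.nil)))) (FT.cons (FT.cons (FT.cons (FT.cons (FT.leaf [(nat_lit 7105225), (nat_lit 7249054), (nat_lit 7396252)]) (FT.cons (FT.leaf [(nat_lit 7371384), (nat_lit 7518430)]) (FT.cons (FT.leaf [(nat_lit 7639909)]) FT.nil))) (FT.cons (FT.cons (FT.leaf [(nat_lit 7539453)]) (FT.cons (FT.leaf [(nat_lit 7805409)]) FT.nil)) (FT.cons (FT.cons (FT.leaf [(nat_lit 7968717)]) FT.nil) FT.nil))) (FT.cons (FT.cons (FT.cons (FT.leaf [(nat_lit 7814197)]) FT.nil) (FT.cons (FT.cons (FT.leaf [(nat_lit 8233561)]) FT.nil) FT.nil)) FT.nil)) (FT.cons (FT.cons (FT.cons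 (FT.cons (FT.leaf [(nat_lit 8525537)]) FT.nil) FT.nil) FT.nil) (FT.cons (FT.cons (FT.cons (FT.cons (FT.leaf [(nat_lit 9762536)]) FT.nil) FT.nil) FT.nil) (FT.cons (FT.cons (FT.cons (FT.cons (FT.leaf [(nat_lit 10858457)]) FT.nil) FT.nil) FT.nil) (FT.cons (FT.cons (FT.cons (FT.cons (FT.leaf [(nat_lit 11842464)]) FT.nil) FT.nil) FT.nil) (FT.cons (FT.cons (FT.cons (FT.cons (FT.leaf [(nat_lit 12735511)]) FT.nil) FT.nil) FT.nil) FT.nil))))))))

def f104_1_986 : FT := (FT.cons (FT.cons (FT.cons (FT.cons (FT.leaf [(nat_lit 4414918), (nat_lit 4558140), (nat_lit 4712232), (nat_lit 4874527), (nat_lit 5043083), (nat_lit 5216409)]) (FT.cons (FT.leaf [(nat_lit 4698167), (nat_lit 4854613), (nat_lit 5018539), (nat_lit 5188128), (nat_lit 5361993)]) (FT.cons (FT.leaf [(nat_lit 4997455), (nat_lit 5162636), (nat_lit 5332953), (nat_lit 5507104)]) (FT.cons (FT.leaf [(nat_lit 5306614), (nat_lit 5477391)]) (FT.cons (FT.leaf [(nat_lit 5621304)]) (FT.cons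 (FT.leaf [(nat_lit 5938381)]) FT.nil)))))) (FT.cons (FT.cons (FT.leaf [(nat_lit 4901472), (nat_lit 5058387), (nat_lit 5222251), (nat_lit 5391319), (nat_lit 5564269)]) (FT.cons (FT.leaf [(nat_lit 5200547), (nat_lit 5365363), (nat_lit 5534906), (nat_lit 5707937)]) (FT.cons (FT.leaf [(nat_lit 5508182), (nat_lit 5677971)]) (FT.cons (FT.leaf [(nat_lit 5820396)]) (FT.cons (FT.leaf [(nat_lit 6134320)]) FT.nil))))) (FT.cons (FT.cons (FT.leaf [(nat_lit 5401586), (nat_lit 5565781), (nat_lit 5734346)]) (FT.cons (FT.leaf [(nat_lit 5707305), (nat_lit 5875932)]) (FT.cons (FT.leaf [(nat_lit 6016789)]) FT.nil))) (FT.cons (FT.cons (FT.leaf [(nat_lit 5903882)]) (FT.cons (FT.leaf [(nat_lit 6210437)]) FT.nil)) FT.nil)))) (FT.cons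
 (FT.cons (FT.cons (FT.leaf [(nat_lit 5249394), (nat_lit 5403884), (nat_lit 5564847), (nat_lit 5730608), (nat_lit 5899912)]) (FT.cons (FT.leaf [(nat_lit 5543039), (nat_lit 5704717), (nat_lit 5870765), (nat_lit 6040002)]) (FT.cons (FT.leaf [(nat_lit 5844177), (nat_lit 6010314)]) (FT.cons (FT.leaf [(nat_lit 6149159)]) FT.nil)))) (FT.cons (FT.cons (FT.leaf [(nat_lit 5738913), (nat_lit 5899802), (nat_lit 6064747)]) (FT.cons (FT.leaf [(nat_lit 6037897), (nat_lit 6202782)]) (FT.cons (FT.leaf [(nat_lit 6340043)]) FT.nil))) (FT.cons (FT.cons (FT.leaf [(nat_lit 6229073)]) (FT.cons (FT.leaf [(nat_lit 6528236)]) FT.nil)) (FT.cons (FT.cons (FT.leaf [(nat_lit 6713732)]) FT.nil) FT.nil)))) (FT.cons (FT.cons (FT.cons (FT.leaf [(nat_lit 6065988), (nat_lit 6223543), (nat_lit 6384888)]) (FT.cons (FT.leaf [(nat_lit 6358264), (nat_lit 6519457)]) (FT.cons (FT.leaf [(nat_lit 6653226)]) FT.nil))) (FT.cons (FT.cons (FT.leaf [(nat_lit 6544211)]) (FT.cons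 (FT.leaf [(nat_lit 6836180)]) FT.nil)) (FT.cons (FT.cons (FT.leaf [(nat_lit 7016520)]) FT.nil) FT.nil))) (FT.cons (FT.cons (FT.cons (FT.leaf [(nat_lit 6849770)]) FT.nil) (FT.cons (FT.cons (FT.leaf [(nat_lit 7310184)]) FT.nil) FT.nil)) (FT.cons (FT.cons
 (FT.cons (FT.leaf [(nat_lit 7595203)]) FT.nil) FT.nil) FT.nil))))) (FT.cons (FT.cons (FT.cons (FT.cons (FT.leaf [(nat_lit 6190856), (nat_lit 6331937), (nat_lit 6478885), (nat_lit 6630205), (nat_lit 6784785)]) (FT.cons (FT.leaf [(nat_lit 6458494), (nat_lit 6606112), (nat_lit 6757737), (nat_lit 6912325)]) (FT.cons (FT.leaf [(nat_lit 6733019), (nat_lit 6884787)]) (FT.cons (FT.leaf [(nat_lit 7011278)]) FT.nil)))) (FT.cons (FT.cons (FT.leaf [(nat_lit 6635993), (nat_lit 6782996), (nat_lit 6933748)]) (FT.cons (FT.leaf [(nat_lit 6908790), (nat_lit 7059566)]) (FT.cons (FT.leaf [(nat_lit 7184767)]) FT.nil))) (FT.cons (FT.cons (FT.leaf [(nat_lit 7082484)]) (FT.cons (FT.leaf [(nat_lit 7356059)])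 FT.nil)) (FT.cons (FT.cons (FT.leaf [(nat_lit 7525148)]) FT.nil) FT.nil)))) (FT.cons (FT.cons (FT.cons (FT.leaf [(nat_lit 6931218), (nat_lit 7075510), (nat_lit 7223335)]) (FT.cons (FT.leaf [(nat_lit 7198553), (nat_lit 7346325)]) (FT.cons (FT.leaf [(nat_lit 7468679)]) FT.nil))) (FT.cons (FT.cons (FT.leaf [(nat_lit 7367989)]) (FT.cons (FT.leaf [(nat_lit 7635697)]) FT.nil)) (FT.cons (FT.cons (FT.leaf [(nat_lit 7800572)]) FT.nil) FT.nil))) (FT.cons (FT.cons (FT.cons (FT.leaf [(nat_lit 7645713)]) FT.nil)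
 (FT.cons (FT.cons (FT.leaf [(nat_lit 8068540)]) FT.nil) FT.nil)) (FT.cons (FT.cons (FT.cons (FT.leaf [(nat_lit 8329400)]) FT.nil) FT.nil) FT.nil)))) (FT.cons (FT.cons (FT.cons (FT.cons (FT.leaf [(nat_lit 7709235), (nat_lit 7842753), (nat_lit 7979576)]) (FT.cons (FT.leaf [(nat_lit 7956312), (nat_lit 8093144)]) (FT.cons (FT.leaf [(nat_lit 8206190)]) FT.nil))) (FT.cons (FT.cons (FT.leaf [(nat_lit 8112339)]) (FT.cons (FT.leaf [(nat_lit 8360215)]) FT.nil)) (FT.cons (FT.cons (FT.leaf [(nat_lit 8512439)]) FT.nil) FT.nil))) (FT.cons (FT.cons (FT.cons (FT.leaf [(nat_lit 8367464)]) FT.nil) (FT.cons (FT.cons (FT.leaf [(nat_lit 8759374)]) FT.nil) FT.nil)) FT.nil)) (FT.cons (FT.cons (FT.cons (FT.cons (FT.leaf [(nat_lit 9028824)]) FT.nil) FT.nil) FT.nil) (FT.cons (FT.cons (FT.cons (FT.cons (FT.leaf [(nat_lit 10193557)]) FT.nil) FT.nil) FT.nil) (FT.cons (FT.cons (FT.cons (FT.cons (FT.leaf [(nat_lit 11235197)]) FT.nil) FT.nil) FT.nil) (FT.cons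 (FT.cons (FT.cons (FT.cons (FT.leaf [(nat_lit 12176978)]) FT.nil) FT.nil) FT.nil) (FT.cons (FT.cons (FT.cons (FT.cons (FT.leaf [(nat_lit 13036261)]) FT.nil) FT.nil) FT.nil) FT.nil))))))))

def f112_1_0 : FT := (FT.cons (FT.cons (FT.cons (FT.cons (FT.leaf [(nat_lit 1363870), (nat_lit 1511285), (nat_lit 1682025), (nat_lit 1870644), (nat_lit 2073131), (nat_lit 2286341)]) (FT.cons (FT.leaf [(nat_lit 1680664), (nat_lit 1858736), (nat_lit 2052895), (nat_lit 2259380), (nat_lit 2475273)]) (FT.cons (FT.leaf [(nat_lit 2038576), (nat_lit 2237121), (nat_lit 2446651), (nat_lit 2664446)]) (FT.cons (FT.leaf [(nat_lit 2422594), (nat_lit 2634364)]) FT.nil)))) (FT.cons (FT.cons (FT.leaf [(nat_lit 1943892), (nat_lit 2125721), (nat_lit 2322261), (nat_lit 2529851), (nat_lit 2745723)]) (FT.cons (FT.leaf [(nat_lit 2306463), (nat_lit 2506381), (nat_lit 2716172), (nat_lit 2933254)]) (FT.cons (FT.leaf [(nat_lit 2691091), (nat_lit 2902414)]) FT.nil))) (FT.cons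 (FT.cons (FT.leaf [(nat_lit 2572581)]) (FT.cons (FT.leaf [(nat_lit 2956294)]) FT.nil)) (FT.cons (FT.cons (FT.leaf [(nat_lit 3217702)]) FT.nil) FT.nil)))) (FT.cons (FT.cons (FT.cons (FT.leaf [(nat_lit 2419121), (nat_lit 2599203), (nat_lit 2792676), (nat_lit 2996012), (nat_lit 3206610), (nat_lit 3422464)]) (FT.cons (FT.leaf [(nat_lit 2776158), (nat_lit 2972166), (nat_lit 3177011), (nat_lit 3388273), (nat_lit 3604095)]) (FT.cons (FT.leaf [(nat_lit 3151727),
 (nat_lit 3357543), (nat_lit 3569035), (nat_lit 3784481)]) (FT.cons (FT.leaf [(nat_lit 3537316), (nat_lit 3748673)]) FT.nil)))) (FT.cons (FT.cons (FT.leaf [(nat_lit 3034159), (nat_lit 3229893), (nat_lit 3433683), (nat_lit 3643227), (nat_lit 3856783)]) (FT.cons (FT.leaf [(nat_lit 3407696), (nat_lit 3612026), (nat_lit 3821459), (nat_lit 4034372)]) (FT.cons (FT.leaf [(nat_lit 3789381), (nat_lit 3998396)]) FT.nil))) (FT.cons (FT.cons (FT.leaf [(nat_lit 3659640)]) (FT.cons (FT.leaf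 [(nat_lit 4036928)]) FT.nil)) (FT.cons (FT.cons (FT.leaf [(nat_lit 4279892)]) FT.nil) FT.nil)))) (FT.cons (FT.cons (FT.cons (FT.leaf [(nat_lit 3477198), (nat_lit 3667946), (nat_lit 3866060)]) (FT.cons (FT.leaf [(nat_lit 3840132), (nat_lit 4038495)]) (FT.cons (FT.leaf [(nat_lit 4209831)]) FT.nil))) (FT.cons (FT.cons (FT.leaf [(nat_lit 4082870)]) (FT.cons (FT.leaf [(nat_lit 4448033)]) FT.nil)) (FT.cons (FT.cons (FT.leaf [(nat_lit 4681813)]) FT.nil) FT.nil))) (FT.cons (FT.cons (FT.cons (FT.leaf [(nat_lit 4488490)]) FT.nil) (FT.cons (FT.cons (FT.leaf [(nat_lit 5067140)]) FT.nil) FT.nil)) (FT.cons (FT.cons (FT.cons (FT.leaf [(nat_lit 5437064)]) FT.nil) FT.nil) (FT.cons (FT.cons (FT.cons (FT.leaf [(nat_lit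
 6321026)]) FT.nil) FT.nil) (FT.cons (FT.cons (FT.cons (FT.leaf [(nat_lit 7143903)]) FT.nil) FT.nil) FT.nil))))))) (FT.cons (FT.cons (FT.cons (FT.cons (FT.leaf [(nat_lit 3756484), (nat_lit 3914324), (nat_lit 4083688), (nat_lit 4261577), (nat_lit 4445818), (nat_lit 4634759)]) (FT.cons (FT.leaf [(nat_lit 4068370), (nat_lit 4239900), (nat_lit 4419148), (nat_lit 4604091), (nat_lit 4793194)]) (FT.cons (FT.leaf [(nat_lit 4396246), (nat_lit 4576447), (nat_lit 4761766), (nat_lit 4950772)]) (FT.cons (FT.leaf [(nat_lit 4733261), (nat_lit 4918680)]) FT.nil)))) (FT.cons (FT.cons (FT.leaf [(nat_lit 4291598), (nat_lit 4463053), (nat_lit 4641642), (nat_lit 4825432), (nat_lit 5012968)]) (FT.cons (FT.leaf [(nat_lit 4618134), (nat_lit 4797365), (nat_lit 4981280), (nat_lit 5168520)]) (FT.cons (FT.leaf [(nat_lit 4952439), (nat_lit 5136241)]) FT.nil))) (FT.cons (FT.cons (FT.leaf [(nat_lit 4837075)]) (FT.cons (FT.leaf [(nat_lit 5168311)]) FT.nil)) (FT.cons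 (FT.cons (FT.leaf [(nat_lit 5380824)]) FT.nil) FT.nil)))) (FT.cons (FT.cons (FT.cons (FT.leaf [(nat_lit 4672529), (nat_lit 4840379), (nat_lit 5014856), (nat_lit 5194117), (nat_lit 5376791)]) (FT.cons (FT.leaf [(nat_lit 4991352), (nat_lit 5166256),
 (nat_lit 5345481), (nat_lit 5527745)]) (FT.cons (FT.leaf [(nat_lit 5316918), (nat_lit 5495907)]) (FT.cons (FT.leaf [(nat_lit 5645304)]) FT.nil)))) (FT.cons (FT.cons (FT.leaf [(nat_lit 5203546), (nat_lit 5377121), (nat_lit 5554691)]) (FT.cons (FT.leaf [(nat_lit 5525916), (nat_lit 5703108)]) (FT.cons (FT.leaf [(nat_lit 5850439)]) FT.nil))) (FT.cons (FT.cons (FT.leaf [(nat_lit 5731641)]) FT.nil) FT.nil))) (FT.cons (FT.cons (FT.cons (FT.leaf [(nat_lit 5557107), (nat_lit 5726331), (nat_lit 5899289)]) (FT.cons (FT.leaf [(nat_lit 5870868), (nat_lit 6043386)]) FT.nil)) (FT.cons (FT.cons (FT.leaf [(nat_lit 6070140)]) FT.nil) FT.nil)) (FT.cons (FT.cons (FT.cons (FT.leaf [(nat_lit 6397060)]) FT.nil)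 FT.nil) (FT.cons (FT.cons (FT.cons (FT.leaf [(nat_lit 7189016)]) FT.nil) FT.nil) (FT.cons (FT.cons (FT.cons (FT.leaf [(nat_lit 7933966)]) FT.nil) FT.nil) FT.nil)))))) (FT.cons (FT.cons (FT.cons (FT.cons (FT.leaf [(nat_lit 5696895), (nat_lit 5847928), (nat_lit 6004983), (nat_lit 6166445), (nat_lit 6331120)]) (FT.cons (FT.leaf [(nat_lit 5983292), (nat_lit 6140842), (nat_lit 6302411), (nat_lit 6466876)]) (FT.cons (FT.leaf [(nat_lit 6276175), (nat_lit 6437682)]) (FT.cons (FT.leaf [(nat_lit 6572183)])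
 FT.nil)))) (FT.cons (FT.cons (FT.leaf [(nat_lit 6172973), (nat_lit 6329565), (nat_lit 6489905)]) (FT.cons (FT.leaf [(nat_lit 6463460), (nat_lit 6623620)]) (FT.cons (FT.leaf [(nat_lit 6756516)]) FT.nil))) (FT.cons (FT.cons (FT.leaf [(nat_lit 6648190)]) FT.nil) FT.nil))) (FT.cons (FT.cons (FT.cons (FT.leaf [(nat_lit 6488044), (nat_lit 6641263), (nat_lit 6798011)]) (FT.cons (FT.leaf [(nat_lit 6771827), (nat_lit 6928336)]) FT.nil)) (FT.cons (FT.cons (FT.leaf [(nat_lit 6951490)]) FT.nil) FT.nil)) (FT.cons (FT.cons (FT.cons (FT.leaf [(nat_lit 7245676)]) FT.nil) FT.nil) (FT.cons (FT.cons (FT.cons (FT.leaf [(nat_lit 7966004)]) FT.nil) FT.nil) FT.nil)))) (FT.cons (FT.cons (FT.cons (FT.cons (FT.leaf [(nat_lit 7315925)]) FT.nil) FT.nil) (FT.cons (FT.cons (FT.cons (FT.leaf [(nat_lit 8008483)]) FT.nil) FT.nil) FT.nil)) (FT.cons (FT.cons (FT.cons (FT.cons (FT.leaf [(nat_lit 8702816)]) FT.nil) FT.nil) FT.nil) (FT.cons (FT.cons (FT.cons (FT.cons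 (FT.leaf [(nat_lit 9915516)]) FT.nil) FT.nil) FT.nil) (FT.cons (FT.cons (FT.cons (FT.cons (FT.leaf [(nat_lit 10992986)]) FT.nil) FT.nil) FT.nil) (FT.cons (FT.cons (FT.cons (FT.cons (FT.leaf [(nat_lit 11962515)]) FT.nil) FT.nil) FT.nil) (FT.cons (FT.cons
 (FT.cons (FT.cons (FT.leaf [(nat_lit 12843900)]) FT.nil) FT.nil) FT.nil) FT.nil)))))))))

def f112_1_400 : FT := (FT.cons (FT.cons (FT.cons (FT.cons (FT.leaf [(nat_lit 2251673), (nat_lit 2433118), (nat_lit 2628330), (nat_lit 2833733), (nat_lit 3046670), (nat_lit 3265084)]) (FT.cons (FT.leaf [(nat_lit 2611917), (nat_lit 2809875), (nat_lit 3016954), (nat_lit 3230682), (nat_lit 3449152)]) (FT.cons (FT.leaf [(nat_lit 2991610), (nat_lit 3199792), (nat_lit 3413846), (nat_lit 3632003)]) (FT.cons (FT.leaf [(nat_lit 3381929), (nat_lit 3595917)]) FT.nil)))) (FT.cons (FT.cons (FT.leaf [(nat_lit 2873267), (nat_lit 3071109), (nat_lit 3277248), (nat_lit 3489329), (nat_lit 3705567)]) (FT.cons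 (FT.leaf [(nat_lit 3251161), (nat_lit 3457935), (nat_lit 3669970), (nat_lit 3885603)]) (FT.cons (FT.leaf [(nat_lit 3637668), (nat_lit 3849329)]) FT.nil))) (FT.cons (FT.cons (FT.leaf [(nat_lit 3506700)]) (FT.cons (FT.leaf [(nat_lit 3888838)]) FT.nil)) (FT.cons (FT.cons (FT.leaf [(nat_lit 4135353)]) FT.nil) FT.nil)))) (FT.cons (FT.cons (FT.cons (FT.leaf [(nat_lit 3323243), (nat_lit 3516132), (nat_lit 3716574), (nat_lit 3922357), (nat_lit 4131822), (nat_lit 4343686)]) (FT.cons (FT.leaf [(nat_lit 3690523), (nat_lit 3891274), (nat_lit 4096774), (nat_lit 4305478), (nat_lit 4516194)]) (FT.cons (FT.leaf [(nat_lit 4064886),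
 (nat_lit 4269837), (nat_lit 4477572), (nat_lit 4686979)]) (FT.cons (FT.leaf [(nat_lit 4441426), (nat_lit 4648016)]) FT.nil)))) (FT.cons (FT.cons (FT.leaf [(nat_lit 3936695), (nat_lit 4135491), (nat_lit 4338603), (nat_lit 4544568), (nat_lit 4752270)]) (FT.cons (FT.leaf [(nat_lit 4306499), (nat_lit 4508878), (nat_lit 4713739), (nat_lit 4920036)]) (FT.cons (FT.leaf [(nat_lit 4677608), (nat_lit 4881217)]) FT.nil))) (FT.cons (FT.cons (FT.leaf [(nat_lit 4543606)]) (FT.cons (FT.leaf [(nat_lit 4909174)]) FT.nil)) (FT.cons (FT.cons (FT.leaf [(nat_lit 5136195)]) FT.nil) FT.nil)))) (FT.cons (FT.cons (FT.cons (FT.leaf [(nat_lit 4348627), (nat_lit 4541388), (nat_lit 4738127)]) (FT.cons (FT.leaf [(nat_lit 4706537), (nat_lit 4902478)]) (FT.cons (FT.leaf [(nat_lit 5065313)]) FT.nil))) (FT.cons (FT.cons (FT.leaf [(nat_lit 4934790)]) (FT.cons (FT.leaf [(nat_lit 5288216)]) FT.nil)) (FT.cons (FT.cons (FT.leaf [(nat_lit 5506830)]) FT.nil) FT.nil)))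 (FT.cons (FT.cons (FT.cons (FT.leaf [(nat_lit 5310130)]) FT.nil) (FT.cons (FT.cons (FT.leaf [(nat_lit 5862888)]) FT.nil) FT.nil)) (FT.cons (FT.cons (FT.cons (FT.leaf [(nat_lit 6205441)]) FT.nil) FT.nil) (FT.cons (FT.cons (FT.cons (FT.leaf [(nat_lit
 7038135)]) FT.nil) FT.nil) (FT.cons (FT.cons (FT.cons (FT.leaf [(nat_lit 7813693)]) FT.nil) FT.nil) FT.nil))))))) (FT.cons (FT.cons (FT.cons (FT.cons (FT.leaf [(nat_lit 4540396), (nat_lit 4709804), (nat_lit 4885979), (nat_lit 5067046), (nat_lit 5251611), (nat_lit 5438596)]) (FT.cons (FT.leaf [(nat_lit 4862390), (nat_lit 5039038), (nat_lit 5220101), (nat_lit 5404274), (nat_lit 5590552)]) (FT.cons (FT.leaf [(nat_lit 5191371), (nat_lit 5372220), (nat_lit 5555834), (nat_lit 5741272)]) (FT.cons (FT.leaf [(nat_lit 5523305), (nat_lit 5706216)]) FT.nil)))) (FT.cons (FT.cons (FT.leaf [(nat_lit 5077100), (nat_lit 5252431), (nat_lit 5431836), (nat_lit 5614071), (nat_lit 5798182)]) (FT.cons (FT.leaf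 [(nat_lit 5402881), (nat_lit 5581922), (nat_lit 5763482), (nat_lit 5946669)]) (FT.cons (FT.leaf [(nat_lit 5730913), (nat_lit 5911676)]) FT.nil))) (FT.cons (FT.cons (FT.leaf [(nat_lit 5611070)]) (FT.cons (FT.leaf [(nat_lit 5935089)]) FT.nil)) (FT.cons (FT.cons (FT.leaf [(nat_lit 6135865)]) FT.nil) FT.nil)))) (FT.cons (FT.cons (FT.cons (FT.leaf [(nat_lit 5435290), (nat_lit 5606207), (nat_lit 5780925), (nat_lit 5958262), (nat_lit 6137320)]) (FT.cons (FT.leaf [(nat_lit 5752324), (nat_lit 5926608),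
 (nat_lit 6103233), (nat_lit 6281355)]) (FT.cons (FT.leaf [(nat_lit 6071200), (nat_lit 6247007)]) (FT.cons (FT.leaf [(nat_lit 6389547)]) FT.nil)))) (FT.cons (FT.cons (FT.leaf [(nat_lit 5953924), (nat_lit 6126328), (nat_lit 6300884)]) (FT.cons (FT.leaf [(nat_lit 6268872), (nat_lit 6442551)]) (FT.cons (FT.leaf [(nat_lit 6582973)]) FT.nil))) (FT.cons (FT.cons (FT.leaf [(nat_lit 6463298)]) FT.nil) FT.nil))) (FT.cons (FT.cons (FT.cons (FT.leaf [(nat_lit 6284925), (nat_lit 6452788), (nat_lit 6622679)]) (FT.cons (FT.leaf [(nat_lit 6591217), (nat_lit 6760236)]) FT.nil)) (FT.cons (FT.cons (FT.leaf [(nat_lit 6779650)]) FT.nil) FT.nil)) (FT.cons (FT.cons (FT.cons (FT.leaf [(nat_lit 7085610)]) FT.nil) FT.nil) (FT.cons (FT.cons (FT.cons (FT.leaf [(nat_lit 7838310)]) FT.nil) FT.nil) (FT.cons (FT.cons (FT.cons (FT.leaf [(nat_lit 8545912)]) FT.nil) FT.nil) FT.nil)))))) (FT.cons (FT.cons (FT.cons (FT.cons (FT.leaf [(nat_lit 6379591), (nat_lit 6534129),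 (nat_lit 6692256), (nat_lit 6852926), (nat_lit 7015349)]) (FT.cons (FT.leaf [(nat_lit 6665932), (nat_lit 6823828), (nat_lit 6984028), (nat_lit 7145786)]) (FT.cons (FT.leaf [(nat_lit 6954570), (nat_lit 7114209)]) (FT.cons (FT.leaf [(nat_lit 7243434)])
 FT.nil)))) (FT.cons (FT.cons (FT.leaf [(nat_lit 6847425), (nat_lit 7003891), (nat_lit 7162498)]) (FT.cons (FT.leaf [(nat_lit 7133027), (nat_lit 7291017)]) (FT.cons (FT.leaf [(nat_lit 7418565)]) FT.nil))) (FT.cons (FT.cons (FT.leaf [(nat_lit 7308911)]) FT.nil) FT.nil))) (FT.cons (FT.cons (FT.cons (FT.leaf [(nat_lit 7144824), (nat_lit 7297710), (nat_lit 7452620)]) (FT.cons (FT.leaf [(nat_lit 7423577), (nat_lit 7577863)]) FT.nil)) (FT.cons (FT.cons (FT.leaf [(nat_lit 7594683)]) FT.nil) FT.nil)) (FT.cons (FT.cons (FT.cons (FT.leaf [(nat_lit 7872140)]) FT.nil) FT.nil) (FT.cons (FT.cons (FT.cons (FT.leaf [(nat_lit 8561262)]) FT.nil) FT.nil) FT.nil)))) (FT.cons (FT.cons (FT.cons (FT.cons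 (FT.leaf [(nat_lit 7916580)]) FT.nil) FT.nil) (FT.cons (FT.cons (FT.cons (FT.leaf [(nat_lit 8584929)]) FT.nil) FT.nil) FT.nil)) (FT.cons (FT.cons (FT.cons (FT.cons (FT.leaf [(nat_lit 9237891)]) FT.nil) FT.nil) FT.nil) (FT.cons (FT.cons (FT.cons (FT.cons (FT.leaf [(nat_lit 10397544)]) FT.nil) FT.nil) FT.nil) (FT.cons (FT.cons (FT.cons (FT.cons (FT.leaf [(nat_lit 11431412)]) FT.nil) FT.nil) FT.nil) (FT.cons (FT.cons (FT.cons (FT.cons (FT.leaf [(nat_lit 12364538)]) FT.nil) FT.nil) FT.nil) (FT.cons (FT.cons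
 (FT.cons (FT.cons (FT.leaf [(nat_lit 13215103)]) FT.nil) FT.nil) FT.nil) FT.nil)))))))))

def f112_1_600 : FT := (FT.cons (FT.cons (FT.cons (FT.cons (FT.leaf [(nat_lit 2963501), (nat_lit 3136127), (nat_lit 3321234), (nat_lit 3515484), (nat_lit 3716447)]) (FT.cons (FT.leaf [(nat_lit 3304919), (nat_lit 3492227), (nat_lit 3687757), (nat_lit 3889251)]) (FT.cons (FT.leaf [(nat_lit 3663172), (nat_lit 3859519)]) (FT.cons (FT.leaf [(nat_lit 4030529)]) FT.nil)))) (FT.cons (FT.cons (FT.leaf [(nat_lit 3549907), (nat_lit 3736809), (nat_lit 3931258)]) (FT.cons (FT.leaf [(nat_lit 3906040), (nat_lit 4100948)]) (FT.cons (FT.leaf [(nat_lit 4269703)]) FT.nil))) (FT.cons (FT.cons (FT.leaf [(nat_lit 4145154)]) (FT.cons (FT.leaf [(nat_lit 4504738)]) FT.nil)) (FT.cons (FT.cons (FT.leaf [(nat_lit 4735596)]) FT.nil) FT.nil)))) (FT.cons (FT.cons (FT.cons (FT.leaf [(nat_lit 3968566), (nat_lit 4150814), (nat_lit 4340022), (nat_lit 4534156), (nat_lit 4731704)])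 (FT.cons (FT.leaf [(nat_lit 4314878), (nat_lit 4504317), (nat_lit 4698166), (nat_lit 4895016)]) (FT.cons (FT.leaf [(nat_lit 4667595), (nat_lit 4860939)]) (FT.cons (FT.leaf [(nat_lit 5022380)]) FT.nil)))) (FT.cons (FT.cons (FT.leaf [(nat_lit 4545622), (nat_lit 4733257), (nat_lit 4924940)]) (FT.cons (FT.leaf [(nat_lit 4894182), (nat_lit 5085212)]) (FT.cons
 (FT.leaf [(nat_lit 5244099)]) FT.nil))) (FT.cons (FT.cons (FT.leaf [(nat_lit 5116749)]) FT.nil) FT.nil))) (FT.cons (FT.cons (FT.cons (FT.leaf [(nat_lit 4930249), (nat_lit 5112499), (nat_lit 5298518)]) (FT.cons (FT.leaf [(nat_lit 5268228), (nat_lit 5453549)]) FT.nil)) (FT.cons (FT.cons (FT.leaf [(nat_lit 5482991)]) FT.nil) FT.nil)) (FT.cons (FT.cons (FT.cons (FT.leaf [(nat_lit 5835351)]) FT.nil) FT.nil) (FT.cons (FT.cons (FT.cons (FT.leaf [(nat_lit 6682053)]) FT.nil) FT.nil) FT.nil))))) (FT.cons (FT.cons (FT.cons (FT.cons (FT.leaf [(nat_lit 5093463), (nat_lit 5255105), (nat_lit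 5423060), (nat_lit 5595577), (nat_lit 5771359)]) (FT.cons (FT.leaf [(nat_lit 5400132), (nat_lit 5568480), (nat_lit 5740963), (nat_lit 5916368)]) (FT.cons (FT.leaf [(nat_lit 5713204), (nat_lit 5885473)]) (FT.cons (FT.leaf [(nat_lit 6029025)]) FT.nil)))) (FT.cons (FT.cons (FT.leaf [(nat_lit 5603531), (nat_lit 5770634), (nat_lit 5941576)]) (FT.cons (FT.leaf [(nat_lit 5913619), (nat_lit 6084221)]) (FT.cons (FT.leaf [(nat_lit 6225861)]) FT.nil))) (FT.cons (FT.cons (FT.leaf [(nat_lit 6111006)]) FT.nil) FT.nil))) (FT.cons (FT.cons (FT.cons (FT.leaf [(nat_lit 5941661), (nat_lit 6104740), (nat_lit 6271422)]) (FT.cons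
 (FT.leaf [(nat_lit 6243797), (nat_lit 6410086)]) FT.nil)) (FT.cons (FT.cons (FT.leaf [(nat_lit 6435249)]) FT.nil) FT.nil)) (FT.cons (FT.cons (FT.cons (FT.leaf [(nat_lit 6748880)]) FT.nil) FT.nil) (FT.cons (FT.cons (FT.cons (FT.leaf [(nat_lit 7511998)]) FT.nil) FT.nil) FT.nil)))) (FT.cons (FT.cons (FT.cons (FT.cons (FT.leaf [(nat_lit 6830048)]) FT.nil) FT.nil) (FT.cons (FT.cons (FT.cons (FT.leaf [(nat_lit 7561896)]) FT.nil) FT.nil) FT.nil)) (FT.cons (FT.cons (FT.cons (FT.cons (FT.leaf [(nat_lit 8296394)]) FT.nil) FT.nil) FT.nil) (FT.cons (FT.cons (FT.cons (FT.cons (FT.leaf [(nat_lit 9566269)]) FT.nil) FT.nil) FT.nil) (FT.cons (FT.cons (FT.cons (FT.cons (FT.leaf [(nat_lit 10686821)]) FT.nil) FT.nil) FT.nil) (FT.cons (FT.cons (FT.cons (FT.cons (FT.leaf [(nat_lit 11689967)]) FT.nil) FT.nil) FT.nil) (FT.cons (FT.cons (FT.cons (FT.cons (FT.leaf [(nat_lit 12598311)]) FT.nil) FT.nil) FT.nil) FT.nil))))))))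

def f112_1_750 : FT := (FT.cons (FT.cons (FT.cons (FT.cons (FT.leaf [(nat_lit 3553208), (nat_lit 3715066), (nat_lit 3888671), (nat_lit 4070936), (nat_lit 4259621), (nat_lit 4453022), (nat_lit 4649804), (nat_lit 4848895)]) (FT.cons (FT.leaf [(nat_lit 3873056), (nat_lit 4048809), (nat_lit 4232389), (nat_lit 4421710), (nat_lit 4615192), (nat_lit 4811601), (nat_lit 5009950)]) (FT.cons (FT.leaf [(nat_lit 4209014), (nat_lit 4393490), (nat_lit 4583114), (nat_lit 4776412), (nat_lit 4972236)]) (FT.cons (FT.leaf [(nat_lit 4554025), (nat_lit 4743665), (nat_lit 4936551), (nat_lit 5131611)]) (FT.cons (FT.leaf [(nat_lit 4903227), (nat_lit 5095503)]) (FT.cons (FT.leaf [(nat_lit 5253179)]) FT.nil)))))) (FT.cons (FT.cons (FT.leaf [(nat_lit 4102012), (nat_lit 4277577), (nat_lit 4460363), (nat_lit 4648380), (nat_lit 4840135), (nat_lit 5034466)]) (FT.cons (FT.leaf [(nat_lit 4436380), (nat_lit 4619743), (nat_lit 4807806), (nat_lit 4999174), (nat_lit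 5192767)]) (FT.cons (FT.leaf [(nat_lit 4778389), (nat_lit 4966255), (nat_lit 5157044), (nat_lit 5349745)]) (FT.cons (FT.leaf [(nat_lit 5123611), (nat_lit 5313656)]) (FT.cons (FT.leaf [(nat_lit 5468941)]) FT.nil))))) (FT.cons (FT.cons (FT.leaf [(nat_lit 4660569), (nat_lit
 4842575), (nat_lit 5028893)]) (FT.cons (FT.leaf [(nat_lit 4999217), (nat_lit 5185164)]) (FT.cons (FT.leaf [(nat_lit 5340268)]) FT.nil))) (FT.cons (FT.cons (FT.leaf [(nat_lit 5216466)]) (FT.cons (FT.leaf [(nat_lit 5553204)]) FT.nil)) (FT.cons (FT.cons (FT.leaf [(nat_lit 5762452)]) FT.nil) (FT.cons (FT.cons (FT.leaf [(nat_lit 6294405)]) FT.nil) FT.nil)))))) (FT.cons (FT.cons (FT.cons (FT.leaf [(nat_lit 4492706), (nat_lit 4664366), (nat_lit 4842723), (nat_lit 5025886), (nat_lit 5212448)]) (FT.cons (FT.leaf [(nat_lit 4818766), (nat_lit 4997487), (nat_lit 5180539), (nat_lit 5366608)]) (FT.cons (FT.leaf [(nat_lit 5151433), (nat_lit 5334170)]) (FT.cons (FT.leaf [(nat_lit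 5486687)]) FT.nil)))) (FT.cons (FT.cons (FT.leaf [(nat_lit 5035772), (nat_lit 5213028), (nat_lit 5394281)]) (FT.cons (FT.leaf [(nat_lit 5364973), (nat_lit 5545770)]) (FT.cons (FT.leaf [(nat_lit 5696090)]) FT.nil))) (FT.cons (FT.cons (FT.leaf [(nat_lit 5575040)]) (FT.cons (FT.leaf [(nat_lit 5901931)]) FT.nil)) (FT.cons (FT.cons (FT.leaf [(nat_lit 6104254)]) FT.nil) (FT.cons (FT.cons (FT.leaf [(nat_lit 6619868)]) FT.nil) FT.nil))))) (FT.cons (FT.cons (FT.cons (FT.leaf [(nat_lit 5397301), (nat_lit 5569928), (nat_lit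
 5746290)]) (FT.cons (FT.leaf [(nat_lit 5717368), (nat_lit 5893215)]) (FT.cons (FT.leaf [(nat_lit 6038987)]) FT.nil))) (FT.cons (FT.cons (FT.leaf [(nat_lit 5920628)]) (FT.cons (FT.leaf [(nat_lit 6238138)]) FT.nil)) (FT.cons (FT.cons (FT.leaf [(nat_lit 6433942)]) FT.nil) FT.nil))) (FT.cons (FT.cons (FT.cons (FT.leaf [(nat_lit 6254048)]) FT.nil) (FT.cons (FT.cons (FT.leaf [(nat_lit 6752302)]) FT.nil) FT.nil)) (FT.cons (FT.cons (FT.cons (FT.leaf [(nat_lit 7060062)]) FT.nil) FT.nil) (FT.cons (FT.cons (FT.cons (FT.leaf [(nat_lit 7816837)]) FT.nil) FT.nil) (FT.cons (FT.cons (FT.cons (FT.leaf [(nat_lit 8527608)]) FT.nil) FT.nil) FT.nil))))))) (FT.cons (FT.cons (FT.cons (FT.cons (FT.leaf [(nat_lit 5542549), (nat_lit 5696405), (nat_lit 5856347), (nat_lit 6020727), (nat_lit 6188323)]) (FT.cons (FT.leaf [(nat_lit 5834313), (nat_lit 5994715), (nat_lit 6159157), (nat_lit 6326492)]) (FT.cons (FT.leaf [(nat_lit 6132506), (nat_lit 6296839)]) (FT.cons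 (FT.leaf [(nat_lit 6433699)]) FT.nil)))) (FT.cons (FT.cons (FT.leaf [(nat_lit 6027571), (nat_lit 6186932), (nat_lit 6350055)]) (FT.cons (FT.leaf [(nat_lit 6323200), (nat_lit 6486097)]) (FT.cons (FT.leaf [(nat_lit 6621267)]) FT.nil))) (FT.cons (FT.cons
 (FT.leaf [(nat_lit 6511212)]) (FT.cons (FT.leaf [(nat_lit 6806064)]) FT.nil)) (FT.cons (FT.cons (FT.leaf [(nat_lit 6988111)]) FT.nil) FT.nil)))) (FT.cons (FT.cons (FT.cons (FT.leaf [(nat_lit 6348590), (nat_lit 6504400), (nat_lit 6663751)]) (FT.cons (FT.leaf [(nat_lit 6637178), (nat_lit 6796245)]) (FT.cons (FT.leaf [(nat_lit 6927867)]) FT.nil))) (FT.cons (FT.cons (FT.leaf [(nat_lit 6819893)]) (FT.cons (FT.leaf [(nat_lit 7107422)]) FT.nil)) (FT.cons (FT.cons (FT.leaf [(nat_lit 7284338)]) FT.nil) FT.nil))) (FT.cons (FT.cons (FT.cons (FT.leaf [(nat_lit 7119072)]) FT.nil) (FT.cons (FT.cons (FT.leaf [(nat_lit 7571613)]) FT.nil) FT.nil)) (FT.cons (FT.cons (FT.cons (FT.leaf [(nat_lit 7850437)])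 FT.nil) FT.nil) (FT.cons (FT.cons (FT.cons (FT.leaf [(nat_lit 8542730)]) FT.nil) FT.nil) (FT.cons (FT.cons (FT.cons (FT.leaf [(nat_lit 9197672)]) FT.nil) FT.nil) FT.nil)))))) (FT.cons (FT.cons (FT.cons (FT.cons (FT.leaf [(nat_lit 7191858), (nat_lit 7334519), (nat_lit 7480523)]) (FT.cons (FT.leaf [(nat_lit 7455811), (nat_lit 7601667)]) (FT.cons (FT.leaf [(nat_lit 7722124)]) FT.nil))) (FT.cons (FT.cons (FT.leaf [(nat_lit 7622399)]) (FT.cons (FT.leaf [(nat_lit 7886187)]) FT.nil)) (FT.cons (FT.cons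
 (FT.leaf [(nat_lit 8048096)]) FT.nil) FT.nil))) (FT.cons (FT.cons (FT.cons (FT.leaf [(nat_lit 7894629)]) FT.nil) (FT.cons (FT.cons (FT.leaf [(nat_lit 8310599)]) FT.nil) FT.nil)) (FT.cons (FT.cons (FT.cons (FT.leaf [(nat_lit 8566157)]) FT.nil) FT.nil) (FT.cons (FT.cons (FT.cons (FT.leaf [(nat_lit 9205782)]) FT.nil) FT.nil) FT.nil)))) (FT.cons (FT.cons (FT.cons (FT.cons (FT.leaf [(nat_lit 8599192)]) FT.nil) FT.nil) (FT.cons (FT.cons (FT.cons (FT.leaf [(nat_lit 9221429)]) FT.nil) FT.nil) FT.nil)) (FT.cons (FT.cons (FT.cons (FT.cons (FT.leaf [(nat_lit 9826585)]) FT.nil) FT.nil) FT.nil) (FT.cons (FT.cons (FT.cons (FT.cons (FT.leaf [(nat_lit 10915114)]) FT.nil) FT.nil) FT.nil) (FT.cons (FT.cons (FT.cons (FT.cons (FT.leaf [(nat_lit 11893262)]) FT.nil) FT.nil) FT.nil) (FT.cons (FT.cons (FT.cons (FT.cons (FT.leaf [(nat_lit 12781552)]) FT.nil) FT.nil) FT.nil) FT.nil))))))))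

def f112_1_975 : FT := (FT.cons (FT.cons (FT.cons (FT.cons (FT.leaf [(nat_lit 4482947), (nat_lit 4625997), (nat_lit 4779811), (nat_lit 4941726), (nat_lit 5109807), (nat_lit 5282576), (nat_lit 5458865), (nat_lit 5637733)]) (FT.cons (FT.leaf [(nat_lit 4765688), (nat_lit 4921782), (nat_lit 5085261), (nat_lit 5254320), (nat_lit 5427579), (nat_lit 5603953), (nat_lit 5782569)]) (FT.cons (FT.leaf [(nat_lit 5064163), (nat_lit 5228841), (nat_lit 5398577), (nat_lit 5572083), (nat_lit 5748343)]) (FT.cons (FT.leaf [(nat_lit 5372265), (nat_lit 5542421), (nat_lit 5715960), (nat_lit 5891934)]) (FT.cons (FT.leaf [(nat_lit 5685715), (nat_lit 5859104)]) (FT.cons (FT.leaf [(nat_lit 6001422)]) FT.nil)))))) (FT.cons (FT.cons (FT.leaf [(nat_lit 4968275), (nat_lit 5124765), (nat_lit 5288120), (nat_lit 5456605), (nat_lit 5628909), (nat_lit 5804005)]) (FT.cons (FT.leaf [(nat_lit 5266416), (nat_lit 5430675), (nat_lit 5599596), (nat_lit 5771947), (nat_lit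 5946770)]) (FT.cons (FT.leaf [(nat_lit 5572911), (nat_lit 5742043), (nat_lit 5914260), (nat_lit 6088660)]) (FT.cons (FT.leaf [(nat_lit 5883833), (nat_lit 6055755)]) (FT.cons (FT.leaf [(nat_lit 6196359)]) FT.nil))))) (FT.cons (FT.cons (FT.leaf [(nat_lit 5466573), (nat_lit
 5630172), (nat_lit 5798081)]) (FT.cons (FT.leaf [(nat_lit 5771088), (nat_lit 5939034)]) (FT.cons (FT.leaf [(nat_lit 6079243)]) FT.nil))) (FT.cons (FT.cons (FT.leaf [(nat_lit 5966708)]) (FT.cons (FT.leaf [(nat_lit 6271908)]) FT.nil)) (FT.cons (FT.cons (FT.leaf [(nat_lit 6461811)]) FT.nil) (FT.cons (FT.cons (FT.leaf [(nat_lit 6947679)]) FT.nil) FT.nil)))))) (FT.cons (FT.cons (FT.cons (FT.leaf [(nat_lit 5314514), (nat_lit 5468519), (nat_lit 5628926), (nat_lit 5794070), (nat_lit 5962704)]) (FT.cons (FT.leaf [(nat_lit 5607131), (nat_lit 5768218), (nat_lit 5933618), (nat_lit 6102163)]) (FT.cons (FT.leaf [(nat_lit 5907079), (nat_lit 6072545)]) (FT.cons (FT.leaf [(nat_lit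 6210755)]) FT.nil)))) (FT.cons (FT.cons (FT.leaf [(nat_lit 5802106), (nat_lit 5962375), (nat_lit 6126651)]) (FT.cons (FT.leaf [(nat_lit 6099858), (nat_lit 6264055)]) (FT.cons (FT.leaf [(nat_lit 6400676)]) FT.nil))) (FT.cons (FT.cons (FT.leaf [(nat_lit 6290089)]) (FT.cons (FT.leaf [(nat_lit 6587910)]) FT.nil)) (FT.cons (FT.cons (FT.leaf [(nat_lit 6772457)]) FT.nil) (FT.cons (FT.cons (FT.leaf [(nat_lit 7245550)]) FT.nil) FT.nil))))) (FT.cons (FT.cons (FT.cons (FT.leaf [(nat_lit 6127419), (nat_lit 6284343), (nat_lit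
 6445017)]) (FT.cons (FT.leaf [(nat_lit 6418455), (nat_lit 6578963)]) (FT.cons (FT.leaf [(nat_lit 6712105)]) FT.nil))) (FT.cons (FT.cons (FT.leaf [(nat_lit 6603479)]) (FT.cons (FT.leaf [(nat_lit 6894131)]) FT.nil)) (FT.cons (FT.cons (FT.leaf [(nat_lit 7073554)]) FT.nil) FT.nil))) (FT.cons (FT.cons (FT.cons (FT.leaf [(nat_lit 6907356)]) FT.nil) (FT.cons (FT.cons (FT.leaf [(nat_lit 7365603)]) FT.nil) FT.nil)) (FT.cons (FT.cons (FT.cons (FT.leaf [(nat_lit 7649082)]) FT.nil) FT.nil) (FT.cons (FT.cons (FT.cons (FT.leaf [(nat_lit 8351766)]) FT.nil) FT.nil) (FT.cons (FT.cons (FT.cons (FT.leaf [(nat_lit 9016704)]) FT.nil) FT.nil) FT.nil))))))) (FT.cons (FT.cons (FT.cons (FT.cons (FT.leaf [(nat_lit 6249889), (nat_lit 6390534), (nat_lit 6536992), (nat_lit 6687776), (nat_lit 6841782)]) (FT.cons (FT.leaf [(nat_lit 6516616), (nat_lit 6663720), (nat_lit 6814789), (nat_lit 6968786)]) (FT.cons (FT.leaf [(nat_lit 6790115), (nat_lit 6941310)]) (FT.cons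 (FT.leaf [(nat_lit 7067265)]) FT.nil)))) (FT.cons (FT.cons (FT.leaf [(nat_lit 6693348), (nat_lit 6839819), (nat_lit 6990001)]) (FT.cons (FT.leaf [(nat_lit 6965094), (nat_lit 7115285)]) (FT.cons (FT.leaf [(nat_lit 7239949)]) FT.nil))) (FT.cons (FT.cons
 (FT.leaf [(nat_lit 7137993)]) (FT.cons (FT.leaf [(nat_lit 7410440)]) FT.nil)) (FT.cons (FT.cons (FT.leaf [(nat_lit 7578736)]) FT.nil) FT.nil)))) (FT.cons (FT.cons (FT.cons (FT.leaf [(nat_lit 6987102), (nat_lit 7130857), (nat_lit 7278114)]) (FT.cons (FT.leaf [(nat_lit 7253387), (nat_lit 7400581)]) (FT.cons (FT.leaf [(nat_lit 7522407)]) FT.nil))) (FT.cons (FT.cons (FT.leaf [(nat_lit 7422048)]) (FT.cons (FT.leaf [(nat_lit 7688650)]) FT.nil)) (FT.cons (FT.cons (FT.leaf [(nat_lit 7852758)]) FT.nil) FT.nil))) (FT.cons (FT.cons (FT.cons (FT.leaf [(nat_lit 7698375)]) FT.nil) (FT.cons (FT.cons (FT.leaf [(nat_lit 8119381)]) FT.nil) FT.nil)) (FT.cons (FT.cons (FT.cons (FT.leaf [(nat_lit 8378955)])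 FT.nil) FT.nil) (FT.cons (FT.cons (FT.cons (FT.leaf [(nat_lit 9027601)]) FT.nil) FT.nil) (FT.cons (FT.cons (FT.cons (FT.leaf [(nat_lit 9644844)]) FT.nil) FT.nil) FT.nil)))))) (FT.cons (FT.cons (FT.cons (FT.cons (FT.leaf [(nat_lit 7760582), (nat_lit 7893638), (nat_lit 8029972)]) (FT.cons (FT.leaf [(nat_lit 8006756), (nat_lit 8143092)]) (FT.cons (FT.leaf [(nat_lit 8255687)]) FT.nil))) (FT.cons (FT.cons (FT.leaf [(nat_lit 8162124)]) (FT.cons (FT.leaf [(nat_lit 8409052)]) FT.nil)) (FT.cons (FT.cons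
 (FT.leaf [(nat_lit 8560623)]) FT.nil) FT.nil))) (FT.cons (FT.cons (FT.cons (FT.leaf [(nat_lit 8416066)]) FT.nil) (FT.cons (FT.cons (FT.leaf [(nat_lit 8806418)]) FT.nil) FT.nil)) (FT.cons (FT.cons (FT.cons (FT.leaf [(nat_lit 9046286)]) FT.nil) FT.nil) (FT.cons (FT.cons (FT.cons (FT.leaf [(nat_lit 9649805)]) FT.nil) FT.nil) FT.nil)))) (FT.cons (FT.cons (FT.cons (FT.cons (FT.leaf [(nat_lit 9074009)]) FT.nil) FT.nil) (FT.cons (FT.cons (FT.cons (FT.leaf [(nat_lit 9661865)]) FT.nil) FT.nil) FT.nil)) (FT.cons (FT.cons (FT.cons (FT.cons (FT.leaf [(nat_lit 10233808)]) FT.nil) FT.nil) FT.nil) (FT.cons (FT.cons (FT.cons (FT.cons (FT.leaf [(nat_lit 11271440)]) FT.nil) FT.nil) FT.nil) (FT.cons (FT.cons (FT.cons (FT.cons (FT.leaf [(nat_lit 12209921)]) FT.nil) FT.nil) FT.nil) (FT.cons (FT.cons (FT.cons (FT.cons (FT.leaf [(nat_lit 13066444)]) FT.nil) FT.nil) FT.nil) FT.nil))))))))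

def f112_1_986 : FT := (FT.cons (FT.cons (FT.cons (FT.cons (FT.leaf [(nat_lit 4529078), (nat_lit 4671184), (nat_lit 4824007), (nat_lit 4984905), (nat_lit 5151959), (nat_lit 5323701)]) (FT.cons (FT.leaf [(nat_lit 4809964), (nat_lit 4965075), (nat_lit 5127552), (nat_lit 5295601), (nat_lit 5467854)]) (FT.cons (FT.leaf [(nat_lit 5106571), (nat_lit 5270262), (nat_lit 5439009), (nat_lit 5611531)]) (FT.cons (FT.leaf [(nat_lit 5412839), (nat_lit 5582026)]) (FT.cons (FT.leaf [(nat_lit 5724515)]) (FT.cons (FT.leaf [(nat_lit 6038526)]) FT.nil)))))) (FT.cons (FT.cons (FT.leaf [(nat_lit 5011248), (nat_lit 5166785), (nat_lit 5329173), (nat_lit 5496685), (nat_lit 5668022)]) (FT.cons (FT.leaf [(nat_lit 5307585), (nat_lit 5470894), (nat_lit 5638862), (nat_lit 5810269)]) (FT.cons (FT.leaf [(nat_lit 5612317), (nat_lit 5780518)]) (FT.cons (FT.leaf [(nat_lit 5921538)]) (FT.cons (FT.leaf [(nat_lit 6232439)]) FT.nil))))) (FT.cons (FT.cons (FT.leaf [(nat_lit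 5506558), (nat_lit 5669241), (nat_lit 5836234)]) (FT.cons (FT.leaf [(nat_lit 5809379), (nat_lit 5976429)]) (FT.cons (FT.leaf [(nat_lit 6115902)]) FT.nil))) (FT.cons (FT.cons (FT.leaf [(nat_lit 6003933)]) (FT.cons (FT.leaf [(nat_lit 6307569)]) FT.nil)) FT.nil)))) (FT.cons
 (FT.cons (FT.cons (FT.leaf [(nat_lit 5355312), (nat_lit 5508434), (nat_lit 5667947), (nat_lit 5832193), (nat_lit 5999935)]) (FT.cons (FT.leaf [(nat_lit 5646263), (nat_lit 5806471), (nat_lit 5970993), (nat_lit 6138666)]) (FT.cons (FT.leaf [(nat_lit 5944584), (nat_lit 6109190)]) (FT.cons (FT.leaf [(nat_lit 6246693)]) FT.nil)))) (FT.cons (FT.cons (FT.leaf [(nat_lit 5840151), (nat_lit 5999574), (nat_lit 6163005)]) (FT.cons (FT.leaf [(nat_lit 6136339), (nat_lit 6299710)]) (FT.cons (FT.leaf [(nat_lit 6435653)]) FT.nil))) (FT.cons (FT.cons (FT.leaf [(nat_lit 6325591)]) (FT.cons (FT.leaf [(nat_lit 6621969)]) FT.nil)) (FT.cons (FT.cons (FT.leaf [(nat_lit 6805638)]) FT.nil)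 FT.nil)))) (FT.cons (FT.cons (FT.cons (FT.leaf [(nat_lit 6163688), (nat_lit 6319829), (nat_lit 6479721)]) (FT.cons (FT.leaf [(nat_lit 6453280), (nat_lit 6613024)]) (FT.cons (FT.leaf [(nat_lit 6745539)]) FT.nil))) (FT.cons (FT.cons (FT.leaf [(nat_lit 6637402)]) (FT.cons (FT.leaf [(nat_lit 6926719)]) FT.nil)) (FT.cons (FT.cons (FT.leaf [(nat_lit 7105332)]) FT.nil) FT.nil))) (FT.cons (FT.cons (FT.cons (FT.leaf [(nat_lit 6939829)]) FT.nil) (FT.cons (FT.cons (FT.leaf [(nat_lit 7396087)]) FT.nil) FT.nil)) (FT.cons (FT.cons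
 (FT.cons (FT.leaf [(nat_lit 7678370)]) FT.nil) FT.nil) FT.nil))))) (FT.cons (FT.cons (FT.cons (FT.cons (FT.leaf [(nat_lit 6285156), (nat_lit 6425131), (nat_lit 6570908), (nat_lit 6721005), (nat_lit 6874326)]) (FT.cons (FT.leaf [(nat_lit 6550619), (nat_lit 6697050), (nat_lit 6847445), (nat_lit 7000771)]) (FT.cons (FT.leaf [(nat_lit 6822874), (nat_lit 6973407)]) (FT.cons (FT.leaf [(nat_lit 7098815)]) FT.nil)))) (FT.cons (FT.cons (FT.leaf [(nat_lit 6726524), (nat_lit 6872344), (nat_lit 7021874)]) (FT.cons (FT.leaf [(nat_lit 6997068), (nat_lit 7146620)]) (FT.cons (FT.leaf [(nat_lit 7270757)]) FT.nil))) (FT.cons (FT.cons (FT.leaf [(nat_lit 7169213)]) (FT.cons (FT.leaf [(nat_lit 7440535)]) FT.nil)) (FT.cons (FT.cons (FT.leaf [(nat_lit 7608145)]) FT.nil) FT.nil)))) (FT.cons (FT.cons (FT.cons (FT.leaf [(nat_lit 7018925), (nat_lit 7162072), (nat_lit 7308720)]) (FT.cons (FT.leaf [(nat_lit 7284088), (nat_lit 7430683)]) (FT.cons (FT.leaf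 [(nat_lit 7552019)]) FT.nil))) (FT.cons (FT.cons (FT.leaf [(nat_lit 7452047)]) (FT.cons (FT.leaf [(nat_lit 7717597)]) FT.nil)) (FT.cons (FT.cons (FT.leaf [(nat_lit 7881066)]) FT.nil) FT.nil))) (FT.cons (FT.cons (FT.cons (FT.leaf [(nat_lit 7727240)]) FT.nil)
 (FT.cons (FT.cons (FT.leaf [(nat_lit 8146665)]) FT.nil) FT.nil)) (FT.cons (FT.cons (FT.cons (FT.leaf [(nat_lit 8405283)]) FT.nil) FT.nil) FT.nil)))) (FT.cons (FT.cons (FT.cons (FT.cons (FT.leaf [(nat_lit 7788981), (nat_lit 7921549), (nat_lit 8057392)]) (FT.cons (FT.leaf [(nat_lit 8034254), (nat_lit 8170107)]) (FT.cons (FT.leaf [(nat_lit 8282305)]) FT.nil))) (FT.cons (FT.cons (FT.leaf [(nat_lit 8189057)]) (FT.cons (FT.leaf [(nat_lit 8435133)]) FT.nil)) (FT.cons (FT.cons (FT.leaf [(nat_lit 8586185)]) FT.nil) FT.nil))) (FT.cons (FT.cons (FT.cons (FT.leaf [(nat_lit 8442086)]) FT.nil) (FT.cons (FT.cons (FT.leaf [(nat_lit 8831147)]) FT.nil) FT.nil)) FT.nil)) (FT.cons (FT.cons (FT.cons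 (FT.cons (FT.leaf [(nat_lit 9097723)]) FT.nil) FT.nil) FT.nil) (FT.cons (FT.cons (FT.cons (FT.cons (FT.leaf [(nat_lit 10254138)]) FT.nil) FT.nil) FT.nil) (FT.cons (FT.cons (FT.cons (FT.cons (FT.leaf [(nat_lit 11289219)]) FT.nil) FT.nil) FT.nil) (FT.cons (FT.cons (FT.cons (FT.cons (FT.leaf [(nat_lit 12225709)]) FT.nil) FT.nil) FT.nil) (FT.cons (FT.cons (FT.cons (FT.cons (FT.leaf [(nat_lit 13080638)]) FT.nil) FT.nil) FT.nil) FT.nil))))))))

def f120_1_0 : FT := (FT.cons (FT.cons (FT.cons (FT.cons (FT.leaf [(nat_lit 1537437), (nat_lit 1683366), (nat_lit 1852165), (nat_lit 2038429), (nat_lit 2238202), (nat_lit 2448399)]) (FT.cons (FT.leaf [(nat_lit 1850656), (nat_lit 2026517), (nat_lit 2218093), (nat_lit 2421682), (nat_lit 2634432)]) (FT.cons (FT.leaf [(nat_lit 2203819), (nat_lit 2399598), (nat_lit 2606097), (nat_lit 2820654)]) (FT.cons (FT.leaf [(nat_lit 2582257), (nat_lit 2790896)]) (FT.cons (FT.leaf [(nat_lit 2975623)]) (FT.cons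 (FT.leaf [(nat_lit 3376477)]) FT.nil)))))) (FT.cons (FT.cons (FT.leaf [(nat_lit 2110027), (nat_lit 2289416), (nat_lit 2483196), (nat_lit 2687771), (nat_lit 2900435)]) (FT.cons (FT.leaf [(nat_lit 2467483), (nat_lit 2664513), (nat_lit 2871200), (nat_lit 3085020)]) (FT.cons (FT.leaf [(nat_lit 2846367), (nat_lit 3054526)]) (FT.cons (FT.leaf [(nat_lit 3237386)]) (FT.cons (FT.leaf [(nat_lit 3633945)]) FT.nil))))) (FT.cons (FT.cons (FT.leaf [(nat_lit 2729317), (nat_lit 2926723), (nat_lit 3132886)]) (FT.cons (FT.leaf [(nat_lit 3107223), (nat_lit 3314322)]) (FT.cons (FT.leaf [(nat_lit 3494984)]) FT.nil))) (FT.cons (FT.cons (FT.leaf [(nat_lit 3364365)]) (FT.cons (FT.leaf [(nat_lit 3748186)]) FT.nil)) (FT.cons (FT.cons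
 (FT.leaf [(nat_lit 3996849)]) FT.nil) (FT.cons (FT.cons (FT.leaf [(nat_lit 4616270)]) FT.nil) FT.nil)))))) (FT.cons (FT.cons (FT.cons (FT.leaf [(nat_lit 2577064), (nat_lit 2754628), (nat_lit 2945330), (nat_lit 3145704), (nat_lit 3353201), (nat_lit 3565864), (nat_lit 3782142), (nat_lit 4000794)]) (FT.cons (FT.leaf [(nat_lit 2928925), (nat_lit 3122088), (nat_lit 3323927), (nat_lit 3532073), (nat_lit 3744710), (nat_lit 3960413), (nat_lit 4178042)]) (FT.cons (FT.leaf [(nat_lit 3298903), (nat_lit 3501690), (nat_lit 3710067), (nat_lit 3922348), (nat_lit 4137214)]) (FT.cons (FT.leaf [(nat_lit 3678715), (nat_lit 3886970), (nat_lit 4098615), (nat_lit 4312423)]) (FT.cons (FT.leaf [(nat_lit 4062606), (nat_lit 4273376)]) (FT.cons (FT.leaf [(nat_lit 4446526)]) FT.nil)))))) (FT.cons (FT.cons (FT.leaf [(nat_lit 3182802), (nat_lit 3375683), (nat_lit 3576489), (nat_lit 3782964), (nat_lit 3993405), (nat_lit 4206481)]) (FT.cons (FT.leaf [(nat_lit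 3550778), (nat_lit 3752121), (nat_lit 3958502), (nat_lit 4168332), (nat_lit 4380379)]) (FT.cons (FT.leaf [(nat_lit 3926797), (nat_lit 4132787), (nat_lit 4341774), (nat_lit 4552610)]) (FT.cons (FT.leaf [(nat_lit 4305680), (nat_lit 4513626)]) (FT.cons
 (FT.leaf [(nat_lit 4683807)]) FT.nil))))) (FT.cons (FT.cons (FT.leaf [(nat_lit 3798739), (nat_lit 3998322), (nat_lit 4202469)]) (FT.cons (FT.leaf [(nat_lit 4170499), (nat_lit 4374041)]) (FT.cons (FT.leaf [(nat_lit 4544130)]) FT.nil))) (FT.cons (FT.cons (FT.leaf [(nat_lit 4409762)]) (FT.cons (FT.leaf [(nat_lit 4777981)]) FT.nil)) (FT.cons (FT.cons (FT.leaf [(nat_lit 5007283)]) FT.nil) (FT.cons (FT.cons (FT.leaf [(nat_lit 5586676)]) FT.nil) FT.nil)))))) (FT.cons (FT.cons (FT.cons (FT.leaf [(nat_lit 3618299), (nat_lit 3806335), (nat_lit 4001634), (nat_lit 4202068), (nat_lit 4406050)]) (FT.cons (FT.leaf [(nat_lit 3975981), (nat_lit 4171541), (nat_lit 4371684), (nat_lit 4574927)]) (FT.cons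 (FT.leaf [(nat_lit 4340387), (nat_lit 4539994)]) (FT.cons (FT.leaf [(nat_lit 4706893)]) FT.nil)))) (FT.cons (FT.cons (FT.leaf [(nat_lit 4215024), (nat_lit 4408690), (nat_lit 4606540)]) (FT.cons (FT.leaf [(nat_lit 4575044), (nat_lit 4772194)]) (FT.cons (FT.leaf [(nat_lit 4936374)]) FT.nil))) (FT.cons (FT.cons (FT.leaf [(nat_lit 4805418)]) (FT.cons (FT.leaf [(nat_lit 5161481)]) FT.nil)) (FT.cons (FT.cons (FT.leaf [(nat_lit 5382284)]) FT.nil) (FT.cons (FT.cons (FT.leaf [(nat_lit 5941758)]) FT.nil)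
 FT.nil))))) (FT.cons (FT.cons (FT.cons (FT.leaf [(nat_lit 4614279), (nat_lit 4802207), (nat_lit 4994011)]) (FT.cons (FT.leaf [(nat_lit 4963009), (nat_lit 5154058)]) (FT.cons (FT.leaf [(nat_lit 5312660)]) FT.nil))) (FT.cons (FT.cons (FT.leaf [(nat_lit 5185018)]) (FT.cons (FT.leaf [(nat_lit 5529590)]) FT.nil)) (FT.cons (FT.cons (FT.leaf [(nat_lit 5742456)]) FT.nil) FT.nil))) (FT.cons (FT.cons (FT.cons (FT.leaf [(nat_lit 5549697)]) FT.nil) (FT.cons (FT.cons (FT.leaf [(nat_lit 6088883)]) FT.nil) FT.nil)) (FT.cons (FT.cons (FT.cons (FT.leaf [(nat_lit 6422549)]) FT.nil) FT.nil) (FT.cons (FT.cons (FT.cons (FT.leaf [(nat_lit 7236057)]) FT.nil) FT.nil) (FT.cons (FT.cons (FT.cons (FT.leaf [(nat_lit 7995211)]) FT.nil) FT.nil) (FT.cons (FT.cons (FT.cons (FT.leaf [(nat_lit 8705296)]) FT.nil) FT.nil) FT.nil))))))))) (FT.cons (FT.cons (FT.cons (FT.cons (FT.leaf [(nat_lit 3888381), (nat_lit 4044398), (nat_lit 4211765), (nat_lit 4387527), (nat_lit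 4569547), (nat_lit 4756198), (nat_lit 4946208), (nat_lit 5138555)]) (FT.cons (FT.leaf [(nat_lit 4196534), (nat_lit 4366020), (nat_lit 4543113), (nat_lit 4725821), (nat_lit 4912636), (nat_lit 5102379), (nat_lit 5294108)]) (FT.cons (FT.leaf [(nat_lit
 4520399), (nat_lit 4698429), (nat_lit 4881512), (nat_lit 5068238), (nat_lit 5257513)]) (FT.cons (FT.leaf [(nat_lit 4853272), (nat_lit 5036459), (nat_lit 5222882), (nat_lit 5411516)]) (FT.cons (FT.leaf [(nat_lit 5190530), (nat_lit 5376462)]) (FT.cons (FT.leaf [(nat_lit 5528895)]) FT.nil)))))) (FT.cons (FT.cons (FT.leaf [(nat_lit 4416818), (nat_lit 4586227), (nat_lit 4762675), (nat_lit 4944257), (nat_lit 5129546), (nat_lit 5317431)]) (FT.cons (FT.leaf [(nat_lit 4739368), (nat_lit 4916451), (nat_lit 5098164), (nat_lit 5283172), (nat_lit 5470439)]) (FT.cons (FT.leaf [(nat_lit 5069595), (nat_lit 5251209), (nat_lit 5435750), (nat_lit 5622253)]) (FT.cons (FT.leaf [(nat_lit 5403280), (nat_lit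 5587198)]) (FT.cons (FT.leaf [(nat_lit 5737445)]) FT.nil))))) (FT.cons (FT.cons (FT.leaf [(nat_lit 4955457), (nat_lit 5131361), (nat_lit 5311527)]) (FT.cons (FT.leaf [(nat_lit 5282696), (nat_lit 5462593)]) (FT.cons (FT.leaf [(nat_lit 5612611)]) FT.nil))) (FT.cons (FT.cons (FT.leaf [(nat_lit 5492522)]) (FT.cons (FT.leaf [(nat_lit 5818525)]) FT.nil)) (FT.cons (FT.cons (FT.leaf [(nat_lit 6021043)]) FT.nil) (FT.cons (FT.cons (FT.leaf [(nat_lit 6536979)]) FT.nil) FT.nil)))))) (FT.cons (FT.cons (FT.cons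
 (FT.leaf [(nat_lit 4792408), (nat_lit 4958298), (nat_lit 5130737), (nat_lit 5307906), (nat_lit 5488459), (nat_lit 5671355)]) (FT.cons (FT.leaf [(nat_lit 5107433), (nat_lit 5280300), (nat_lit 5457446), (nat_lit 5637609), (nat_lit 5819819)]) (FT.cons (FT.leaf [(nat_lit 5429148), (nat_lit 5606074), (nat_lit 5785691), (nat_lit 5967091)]) (FT.cons (FT.leaf [(nat_lit 5753701), (nat_lit 5932639)]) FT.nil)))) (FT.cons (FT.cons (FT.leaf [(nat_lit 5316951), (nat_lit 5488527), (nat_lit 5664064), (nat_lit 5842355), (nat_lit 6022481)]) (FT.cons (FT.leaf [(nat_lit 5635555), (nat_lit 5810735), (nat_lit 5988375), (nat_lit 6167613)]) (FT.cons (FT.leaf [(nat_lit 5956350), (nat_lit 6133225)]) FT.nil))) (FT.cons (FT.cons (FT.leaf [(nat_lit 5838775)]) (FT.cons (FT.leaf [(nat_lit 6155714)]) FT.nil)) (FT.cons (FT.cons (FT.leaf [(nat_lit 6351826)]) FT.nil) (FT.cons (FT.cons (FT.leaf [(nat_lit 6852602)]) FT.nil) FT.nil))))) (FT.cons (FT.cons (FT.cons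 (FT.leaf [(nat_lit 5665888), (nat_lit 5833227), (nat_lit 6004272)]) (FT.cons (FT.leaf [(nat_lit 5976108), (nat_lit 6146733)]) (FT.cons (FT.leaf [(nat_lit 6288146)]) FT.nil))) (FT.cons (FT.cons (FT.leaf [(nat_lit 6173040)]) (FT.cons (FT.leaf [(nat_lit
 6481309)]) FT.nil)) (FT.cons (FT.cons (FT.leaf [(nat_lit 6671367)]) FT.nil) FT.nil))) (FT.cons (FT.cons (FT.cons (FT.leaf [(nat_lit 6496030)]) FT.nil) (FT.cons (FT.cons (FT.leaf [(nat_lit 6980361)]) FT.nil) FT.nil)) (FT.cons (FT.cons (FT.cons (FT.leaf [(nat_lit 7279453)]) FT.nil) FT.nil) (FT.cons (FT.cons (FT.cons (FT.leaf [(nat_lit 8017018)]) FT.nil) FT.nil) (FT.cons (FT.cons (FT.cons (FT.leaf [(nat_lit 8711365)]) FT.nil) FT.nil) (FT.cons (FT.cons (FT.cons (FT.leaf [(nat_lit 9365802)]) FT.nil) FT.nil) FT.nil)))))))) (FT.cons (FT.cons (FT.cons (FT.cons (FT.leaf [(nat_lit 5801659), (nat_lit 5951191), (nat_lit 6106682), (nat_lit 6266536), (nat_lit 6429574), (nat_lit 6594889)]) (FT.cons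 (FT.leaf [(nat_lit 6085148), (nat_lit 6241132), (nat_lit 6401096), (nat_lit 6563935), (nat_lit 6728800)]) (FT.cons (FT.leaf [(nat_lit 6375067), (nat_lit 6534979), (nat_lit 6697488), (nat_lit 6861797)]) (FT.cons (FT.leaf [(nat_lit 6668109), (nat_lit 6830175)]) FT.nil)))) (FT.cons (FT.cons (FT.leaf [(nat_lit 6272778), (nat_lit 6427827), (nat_lit 6586592), (nat_lit 6748012), (nat_lit 6911278)]) (FT.cons (FT.leaf [(nat_lit 6560355), (nat_lit 6718952), (nat_lit 6879953), (nat_lit 7042594)]) (FT.cons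
 (FT.leaf [(nat_lit 6850513), (nat_lit 7010994)]) FT.nil))) (FT.cons (FT.cons (FT.leaf [(nat_lit 6743145)]) (FT.cons (FT.leaf [(nat_lit 7030326)]) FT.nil)) (FT.cons (FT.cons (FT.leaf [(nat_lit 7207566)]) FT.nil) FT.nil)))) (FT.cons (FT.cons (FT.cons (FT.leaf [(nat_lit 6584305), (nat_lit 6736055), (nat_lit 6891307)]) (FT.cons (FT.leaf [(nat_lit 6865325), (nat_lit 7020351)]) (FT.cons (FT.leaf [(nat_lit 7148590)]) FT.nil))) (FT.cons (FT.cons (FT.leaf [(nat_lit 7043159)]) (FT.cons (FT.leaf [(nat_lit 7323489)]) FT.nil)) (FT.cons (FT.cons (FT.leaf [(nat_lit 7495910)]) FT.nil) FT.nil))) (FT.cons (FT.cons (FT.cons (FT.leaf [(nat_lit 7334266)]) FT.nil) (FT.cons (FT.cons (FT.leaf [(nat_lit 7775831)]) FT.nil) FT.nil)) (FT.cons (FT.cons (FT.cons (FT.leaf [(nat_lit 8047782)]) FT.nil) FT.nil) (FT.cons (FT.cons (FT.cons (FT.leaf [(nat_lit 8724565)]) FT.nil) FT.nil) (FT.cons (FT.cons (FT.cons (FT.leaf [(nat_lit 9365996)]) FT.nil) FT.nil) FT.nil))))))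 (FT.cons (FT.cons (FT.cons (FT.cons (FT.leaf [(nat_lit 7402519), (nat_lit 7541941), (nat_lit 7684663)]) (FT.cons (FT.leaf [(nat_lit 7660429), (nat_lit 7803041)]) (FT.cons (FT.leaf [(nat_lit 7920778)]) FT.nil))) (FT.cons (FT.cons (FT.leaf [(nat_lit
 7823113)]) (FT.cons (FT.leaf [(nat_lit 8081093)]) FT.nil)) (FT.cons (FT.cons (FT.leaf [(nat_lit 8239368)]) FT.nil) FT.nil))) (FT.cons (FT.cons (FT.cons (FT.leaf [(nat_lit 8088870)]) FT.nil) (FT.cons (FT.cons (FT.leaf [(nat_lit 8495914)]) FT.nil) FT.nil)) (FT.cons (FT.cons (FT.cons (FT.leaf [(nat_lit 8745861)]) FT.nil) FT.nil) (FT.cons (FT.cons (FT.cons (FT.leaf [(nat_lit 9372643)]) FT.nil) FT.nil) FT.nil)))) (FT.cons (FT.cons (FT.cons (FT.cons (FT.leaf [(nat_lit 8776537)]) FT.nil) FT.nil) (FT.cons (FT.cons (FT.cons (FT.leaf [(nat_lit 9386651)]) FT.nil) FT.nil) FT.nil)) (FT.cons (FT.cons (FT.cons (FT.cons (FT.leaf [(nat_lit 9979672)]) FT.nil) FT.nil) FT.nil) (FT.cons (FT.cons (FT.cons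 (FT.cons (FT.leaf [(nat_lit 11049770)]) FT.nil) FT.nil) FT.nil) (FT.cons (FT.cons (FT.cons (FT.cons (FT.leaf [(nat_lit 12013443)]) FT.nil) FT.nil) FT.nil) (FT.cons (FT.cons (FT.cons (FT.cons (FT.leaf [(nat_lit 12890068)]) FT.nil) FT.nil) FT.nil) FT.nil)))))))))

def f120_1_400 : FT := (FT.cons (FT.cons (FT.cons (FT.cons (FT.leaf [(nat_lit 2412636), (nat_lit 2591555), (nat_lit 2783967), (nat_lit 2986360), (nat_lit 3196136), (nat_lit 3411284)]) (FT.cons (FT.leaf [(nat_lit 2767662), (nat_lit 2962731), (nat_lit 3166747), (nat_lit 3377287), (nat_lit 3592492)]) (FT.cons (FT.leaf [(nat_lit 3141663), (nat_lit 3346748), (nat_lit 3557609), (nat_lit 3772516)]) (FT.cons (FT.leaf [(nat_lit 3526065), (nat_lit 3736869)]) (FT.cons (FT.leaf [(nat_lit 3914874)]) (FT.cons (FT.leaf [(nat_lit 4303859)]) FT.nil)))))) (FT.cons (FT.cons (FT.leaf [(nat_lit 3024797), (nat_lit 3219733), (nat_lit 3422820), (nat_lit 3631755), (nat_lit 3844792)]) (FT.cons (FT.leaf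 [(nat_lit 3397011), (nat_lit 3600724), (nat_lit 3809624), (nat_lit 4022086)]) (FT.cons (FT.leaf [(nat_lit 3777701), (nat_lit 3986252)]) (FT.cons (FT.leaf [(nat_lit 4161486)]) (FT.cons (FT.leaf [(nat_lit 4544595)]) FT.nil))))) (FT.cons (FT.cons (FT.leaf [(nat_lit 3648453), (nat_lit 3850441), (nat_lit 4057115)]) (FT.cons (FT.leaf [(nat_lit 4024908), (nat_lit 4230999)]) (FT.cons (FT.leaf [(nat_lit 4403388)]) FT.nil))) (FT.cons (FT.cons (FT.leaf [(nat_lit 4267604)]) (FT.cons (FT.leaf [(nat_lit 4640594)]) FT.nil)) (FT.cons (FT.cons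
 (FT.leaf [(nat_lit 4873149)]) FT.nil) (FT.cons (FT.cons (FT.leaf [(nat_lit 5460193)]) FT.nil) FT.nil)))))) (FT.cons (FT.cons (FT.cons (FT.leaf [(nat_lit 3467013), (nat_lit 3657125), (nat_lit 3854680), (nat_lit 4057509), (nat_lit 4263988), (nat_lit 4472859), (nat_lit 4683131), (nat_lit 4894011)]) (FT.cons (FT.leaf [(nat_lit 3828907), (nat_lit 4026780), (nat_lit 4229351), (nat_lit 4435106), (nat_lit 4642878), (nat_lit 4851748), (nat_lit 5060984)]) (FT.cons (FT.leaf [(nat_lit 4197828), (nat_lit 4399885), (nat_lit 4604715), (nat_lit 4811231), (nat_lit 5018581)]) (FT.cons (FT.leaf [(nat_lit 4568994), (nat_lit 4772729), (nat_lit 4977860), (nat_lit 5183593)]) (FT.cons (FT.leaf [(nat_lit 4939083), (nat_lit 5142719)]) (FT.cons (FT.leaf [(nat_lit 5305778)]) FT.nil)))))) (FT.cons (FT.cons (FT.leaf [(nat_lit 4071273), (nat_lit 4267258), (nat_lit 4467523), (nat_lit 4670632), (nat_lit 4875489), (nat_lit 5081236)]) (FT.cons (FT.leaf [(nat_lit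 4435786), (nat_lit 4635357), (nat_lit 4837410), (nat_lit 5040919), (nat_lit 5245085)]) (FT.cons (FT.leaf [(nat_lit 4801699), (nat_lit 5002552), (nat_lit 5204606), (nat_lit 5407113)]) (FT.cons (FT.leaf [(nat_lit 5166011), (nat_lit 5366518)]) (FT.cons
 (FT.leaf [(nat_lit 5526633)]) FT.nil))))) (FT.cons (FT.cons (FT.leaf [(nat_lit 4669378), (nat_lit 4866368), (nat_lit 5065587)]) (FT.cons (FT.leaf [(nat_lit 5029932), (nat_lit 5227874)]) (FT.cons (FT.leaf [(nat_lit 5388465)]) FT.nil))) (FT.cons (FT.cons (FT.leaf [(nat_lit 5253761)]) (FT.cons (FT.leaf [(nat_lit 5606546)]) FT.nil)) (FT.cons (FT.cons (FT.leaf [(nat_lit 5820363)]) FT.nil) (FT.cons (FT.cons (FT.leaf [(nat_lit 6367252)]) FT.nil) FT.nil)))))) (FT.cons (FT.cons (FT.cons (FT.leaf [(nat_lit 4476630), (nat_lit 4666773), (nat_lit 4860868), (nat_lit 5057569), (nat_lit 5255852)]) (FT.cons (FT.leaf [(nat_lit 4829626), (nat_lit 5022964), (nat_lit 5218587), (nat_lit 5415537)]) (FT.cons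 (FT.leaf [(nat_lit 5183595), (nat_lit 5378021)]) (FT.cons (FT.leaf [(nat_lit 5535831)]) FT.nil)))) (FT.cons (FT.cons (FT.leaf [(nat_lit 5054645), (nat_lit 5245462), (nat_lit 5438349)]) (FT.cons (FT.leaf [(nat_lit 5403434), (nat_lit 5595067)]) (FT.cons (FT.leaf [(nat_lit 5750161)]) FT.nil))) (FT.cons (FT.cons (FT.leaf [(nat_lit 5619115)]) (FT.cons (FT.leaf [(nat_lit 5960383)]) FT.nil)) (FT.cons (FT.cons (FT.leaf [(nat_lit 6166602)]) FT.nil) (FT.cons (FT.cons (FT.leaf [(nat_lit 6695475)]) FT.nil)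
 FT.nil))))) (FT.cons (FT.cons (FT.cons (FT.leaf [(nat_lit 5424571), (nat_lit 5609542), (nat_lit 5796455)]) (FT.cons (FT.leaf [(nat_lit 5762261), (nat_lit 5947953)]) (FT.cons (FT.leaf [(nat_lit 6097902)]) FT.nil))) (FT.cons (FT.cons (FT.leaf [(nat_lit 5970335)]) (FT.cons (FT.leaf [(nat_lit 6300798)]) FT.nil)) (FT.cons (FT.cons (FT.leaf [(nat_lit 6499937)]) FT.nil) FT.nil))) (FT.cons (FT.cons (FT.cons (FT.leaf [(nat_lit 6308443)]) FT.nil) (FT.cons (FT.cons (FT.leaf [(nat_lit 6821293)]) FT.nil) FT.nil)) (FT.cons (FT.cons (FT.cons (FT.leaf [(nat_lit 7131508)]) FT.nil) FT.nil) (FT.cons (FT.cons (FT.cons (FT.leaf [(nat_lit 7898929)]) FT.nil) FT.nil) (FT.cons (FT.cons (FT.cons (FT.leaf [(nat_lit 8616197)]) FT.nil) FT.nil) (FT.cons (FT.cons (FT.cons (FT.leaf [(nat_lit 9288509)]) FT.nil) FT.nil) FT.nil))))))))) (FT.cons (FT.cons (FT.cons (FT.cons (FT.leaf [(nat_lit 4662163), (nat_lit 4829572), (nat_lit 5003663), (nat_lit 5182593), (nat_lit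 5364987), (nat_lit 5549785), (nat_lit 5736151), (nat_lit 5923411)]) (FT.cons (FT.leaf [(nat_lit 4980278), (nat_lit 5154843), (nat_lit 5333778), (nat_lit 5515800), (nat_lit 5699918), (nat_lit 5885351), (nat_lit 6071475)]) (FT.cons (FT.leaf [(nat_lit
 5305317), (nat_lit 5484054), (nat_lit 5665539), (nat_lit 5848847), (nat_lit 6033248)]) (FT.cons (FT.leaf [(nat_lit 5633325), (nat_lit 5814134), (nat_lit 5996521), (nat_lit 6179803)]) (FT.cons (FT.leaf [(nat_lit 5961525), (nat_lit 6142897)]) (FT.cons (FT.leaf [(nat_lit 6287943)]) FT.nil)))))) (FT.cons (FT.cons (FT.leaf [(nat_lit 5192244), (nat_lit 5365530), (nat_lit 5542854), (nat_lit 5722990), (nat_lit 5905000), (nat_lit 6088148)]) (FT.cons (FT.leaf [(nat_lit 5514170), (nat_lit 5691149), (nat_lit 5870637), (nat_lit 6051753), (nat_lit 6233808)]) (FT.cons (FT.leaf [(nat_lit 5838380), (nat_lit 6017100), (nat_lit 6197228), (nat_lit 6378119)]) (FT.cons (FT.leaf [(nat_lit 6162331), (nat_lit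 6341392)]) (FT.cons (FT.leaf [(nat_lit 6484218)]) FT.nil))))) (FT.cons (FT.cons (FT.leaf [(nat_lit 5719787), (nat_lit 5894920), (nat_lit 6072353)]) (FT.cons (FT.leaf [(nat_lit 6040092), (nat_lit 6216682)]) (FT.cons (FT.leaf [(nat_lit 6359761)]) FT.nil))) (FT.cons (FT.cons (FT.leaf [(nat_lit 6238491)]) (FT.cons (FT.leaf [(nat_lit 6553867)]) FT.nil)) (FT.cons (FT.cons (FT.leaf [(nat_lit 6744714)]) FT.nil) (FT.cons (FT.cons (FT.leaf [(nat_lit 7236466)]) FT.nil) FT.nil)))))) (FT.cons (FT.cons (FT.cons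
 (FT.leaf [(nat_lit 5545682), (nat_lit 5714670), (nat_lit 5887429), (nat_lit 6062795), (nat_lit 6239883), (nat_lit 6418003)]) (FT.cons (FT.leaf [(nat_lit 5859089), (nat_lit 6031436), (nat_lit 6206117), (nat_lit 6382300), (nat_lit 6559336)]) (FT.cons (FT.leaf [(nat_lit 6174381), (nat_lit 6348273), (nat_lit 6523471), (nat_lit 6699364)]) (FT.cons (FT.leaf [(nat_lit 6489228), (nat_lit 6663372)]) FT.nil)))) (FT.cons (FT.cons (FT.leaf [(nat_lit 6058289), (nat_lit 6228807), (nat_lit 6401475), (nat_lit 6575499), (nat_lit 6750262)]) (FT.cons (FT.leaf [(nat_lit 6369758), (nat_lit 6541578), (nat_lit 6714575), (nat_lit 6888169)]) (FT.cons (FT.leaf [(nat_lit 6680467), (nat_lit 6852380)]) FT.nil))) (FT.cons (FT.cons (FT.leaf [(nat_lit 6561969)]) (FT.cons (FT.leaf [(nat_lit 6868549)]) FT.nil)) (FT.cons (FT.cons (FT.leaf [(nat_lit 7053534)]) FT.nil) (FT.cons (FT.cons (FT.leaf [(nat_lit 7531250)]) FT.nil) FT.nil))))) (FT.cons (FT.cons (FT.cons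 (FT.leaf [(nat_lit 6385253), (nat_lit 6551345), (nat_lit 6719463)]) (FT.cons (FT.leaf [(nat_lit 6688282), (nat_lit 6855557)]) (FT.cons (FT.leaf [(nat_lit 6990478)]) FT.nil))) (FT.cons (FT.cons (FT.leaf [(nat_lit 6874648)]) (FT.cons (FT.leaf [(nat_lit
 7172879)]) FT.nil)) (FT.cons (FT.cons (FT.leaf [(nat_lit 7352341)]) FT.nil) FT.nil))) (FT.cons (FT.cons (FT.cons (FT.leaf [(nat_lit 7177192)]) FT.nil) (FT.cons (FT.cons (FT.leaf [(nat_lit 7641751)]) FT.nil) FT.nil)) (FT.cons (FT.cons (FT.cons (FT.leaf [(nat_lit 7922330)]) FT.nil) FT.nil) (FT.cons (FT.cons (FT.cons (FT.leaf [(nat_lit 8623386)]) FT.nil) FT.nil) (FT.cons (FT.cons (FT.cons (FT.leaf [(nat_lit 9283749)]) FT.nil) FT.nil) (FT.cons (FT.cons (FT.cons (FT.leaf [(nat_lit 9906901)]) FT.nil) FT.nil) FT.nil)))))))) (FT.cons (FT.cons (FT.cons (FT.cons (FT.leaf [(nat_lit 6477087), (nat_lit 6630127), (nat_lit 6786728), (nat_lit 6945857), (nat_lit 7106734), (nat_lit 7268746)]) (FT.cons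 (FT.leaf [(nat_lit 6760609), (nat_lit 6916991), (nat_lit 7075667), (nat_lit 7235898), (nat_lit 7397110)]) (FT.cons (FT.leaf [(nat_lit 7046445), (nat_lit 7204576), (nat_lit 7364090), (nat_lit 7524446)]) (FT.cons (FT.leaf [(nat_lit 7332550), (nat_lit 7491287)]) FT.nil)))) (FT.cons (FT.cons (FT.leaf [(nat_lit 6940233), (nat_lit 7095218), (nat_lit 7252337), (nat_lit 7410882), (nat_lit 7570305)]) (FT.cons (FT.leaf [(nat_lit 7223100), (nat_lit 7379620), (nat_lit 7537408), (nat_lit 7695946)]) (FT.cons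
 (FT.leaf [(nat_lit 7505953), (nat_lit 7662931)]) FT.nil))) (FT.cons (FT.cons (FT.leaf [(nat_lit 7397237)]) (FT.cons (FT.leaf [(nat_lit 7676827)]) FT.nil)) (FT.cons (FT.cons (FT.leaf [(nat_lit 7845211)]) FT.nil) FT.nil)))) (FT.cons (FT.cons (FT.cons (FT.leaf [(nat_lit 7234479), (nat_lit 7385961), (nat_lit 7539463)]) (FT.cons (FT.leaf [(nat_lit 7510644), (nat_lit 7663538)]) (FT.cons (FT.leaf [(nat_lit 7786687)]) FT.nil))) (FT.cons (FT.cons (FT.leaf [(nat_lit 7680105)]) (FT.cons (FT.leaf [(nat_lit 7952986)]) FT.nil)) (FT.cons (FT.cons (FT.leaf [(nat_lit 8116904)]) FT.nil) FT.nil))) (FT.cons (FT.cons (FT.cons (FT.leaf [(nat_lit 7954835)]) FT.nil) (FT.cons (FT.cons (FT.leaf [(nat_lit 8380971)]) FT.nil) FT.nil)) (FT.cons (FT.cons (FT.cons (FT.leaf [(nat_lit 8637819)]) FT.nil) FT.nil) (FT.cons (FT.cons (FT.cons (FT.leaf [(nat_lit 9284823)]) FT.nil) FT.nil) (FT.cons (FT.cons (FT.cons (FT.leaf [(nat_lit 9897992)]) FT.nil) FT.nil) FT.nil))))))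 (FT.cons (FT.cons (FT.cons (FT.cons (FT.leaf [(nat_lit 7997832), (nat_lit 8137576), (nat_lit 8279293)]) (FT.cons (FT.leaf [(nat_lit 8252395), (nat_lit 8393661)]) (FT.cons (FT.leaf [(nat_lit 8507274)]) FT.nil))) (FT.cons (FT.cons (FT.leaf [(nat_lit
 8408225)]) (FT.cons (FT.leaf [(nat_lit 8660508)]) FT.nil)) (FT.cons (FT.cons (FT.leaf [(nat_lit 8811760)]) FT.nil) FT.nil))) (FT.cons (FT.cons (FT.cons (FT.leaf [(nat_lit 8660478)]) FT.nil) (FT.cons (FT.cons (FT.leaf [(nat_lit 9055127)]) FT.nil) FT.nil)) (FT.cons (FT.cons (FT.cons (FT.leaf [(nat_lit 9292450)]) FT.nil) FT.nil) (FT.cons (FT.cons (FT.cons (FT.leaf [(nat_lit 9894374)]) FT.nil) FT.nil) FT.nil)))) (FT.cons (FT.cons (FT.cons (FT.cons (FT.leaf [(nat_lit 9307547)]) FT.nil) FT.nil) (FT.cons (FT.cons (FT.cons (FT.leaf [(nat_lit 9896719)]) FT.nil) FT.nil) FT.nil)) (FT.cons (FT.cons (FT.cons (FT.cons (FT.leaf [(nat_lit 10458512)]) FT.nil) FT.nil) FT.nil) (FT.cons (FT.cons (FT.cons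 (FT.cons (FT.leaf [(nat_lit 11485630)]) FT.nil) FT.nil) FT.nil) (FT.cons (FT.cons (FT.cons (FT.cons (FT.leaf [(nat_lit 12413358)]) FT.nil) FT.nil) FT.nil) (FT.cons (FT.cons (FT.cons (FT.cons (FT.leaf [(nat_lit 13259509)]) FT.nil) FT.nil) FT.nil) FT.nil)))))))))

def f120_1_600 : FT := (FT.cons (FT.cons (FT.cons (FT.cons (FT.leaf [(nat_lit 3111050), (nat_lit 3281353), (nat_lit 3463927), (nat_lit 3655490), (nat_lit 3853659), (nat_lit 4056620)]) (FT.cons (FT.leaf [(nat_lit 3447725), (nat_lit 3632450), (nat_lit 3825268), (nat_lit 4023963), (nat_lit 4226854)]) (FT.cons (FT.leaf [(nat_lit 3800925), (nat_lit 3994549), (nat_lit 4193413), (nat_lit 4395951)]) (FT.cons (FT.leaf [(nat_lit 4163101), (nat_lit 4361829)]) (FT.cons (FT.leaf [(nat_lit 4529066)]) (FT.cons (FT.leaf [(nat_lit 4895179)]) FT.nil)))))) (FT.cons (FT.cons (FT.leaf [(nat_lit 3689004), (nat_lit 3873334), (nat_lit 4065101), (nat_lit 4262196), (nat_lit 4463034)]) (FT.cons (FT.leaf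 [(nat_lit 4040138), (nat_lit 4232369), (nat_lit 4429361), (nat_lit 4629635)]) (FT.cons (FT.leaf [(nat_lit 4398732), (nat_lit 4595363)]) (FT.cons (FT.leaf [(nat_lit 4760086)]) (FT.cons (FT.leaf [(nat_lit 5120919)]) FT.nil))))) (FT.cons (FT.cons (FT.leaf [(nat_lit 4275702), (nat_lit 4466287), (nat_lit 4661216)]) (FT.cons (FT.leaf [(nat_lit 4630346), (nat_lit 4824734)]) (FT.cons (FT.leaf [(nat_lit 4986898)]) FT.nil))) (FT.cons (FT.cons (FT.leaf [(nat_lit 4857909)]) (FT.cons (FT.leaf [(nat_lit 5209535)]) FT.nil)) (FT.cons (FT.cons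
 (FT.leaf [(nat_lit 5428045)]) FT.nil) (FT.cons (FT.cons (FT.leaf [(nat_lit 5981945)]) FT.nil) FT.nil)))))) (FT.cons (FT.cons (FT.cons (FT.leaf [(nat_lit 4100967), (nat_lit 4280777), (nat_lit 4467462), (nat_lit 4659020), (nat_lit 4853967), (nat_lit 5051162)]) (FT.cons (FT.leaf [(nat_lit 4442568), (nat_lit 4629495), (nat_lit 4820794), (nat_lit 5015078), (nat_lit 5211284)]) (FT.cons (FT.leaf [(nat_lit 4790548), (nat_lit 4981371), (nat_lit 5174823), (nat_lit 5369910)]) (FT.cons (FT.leaf [(nat_lit 5140661), (nat_lit 5333137)]) FT.nil)))) (FT.cons (FT.cons (FT.leaf [(nat_lit 4670016), (nat_lit 4855202), (nat_lit 5044405), (nat_lit 5236308), (nat_lit 5429907)]) (FT.cons (FT.leaf [(nat_lit 5013972), (nat_lit 5202558), (nat_lit 5393523), (nat_lit 5585929)]) (FT.cons (FT.leaf [(nat_lit 5359368), (nat_lit 5549277)]) FT.nil))) (FT.cons (FT.cons (FT.leaf [(nat_lit 5233497)]) (FT.cons (FT.leaf [(nat_lit 5574106)]) FT.nil)) (FT.cons (FT.cons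 (FT.leaf [(nat_lit 5784932)]) FT.nil) (FT.cons (FT.cons (FT.leaf [(nat_lit 6320772)]) FT.nil) FT.nil))))) (FT.cons (FT.cons (FT.cons (FT.leaf [(nat_lit 5048987), (nat_lit 5228950), (nat_lit 5412659)]) (FT.cons (FT.leaf [(nat_lit 5382679), (nat_lit 5565725)])
 (FT.cons (FT.leaf [(nat_lit 5717477)]) FT.nil))) (FT.cons (FT.cons (FT.leaf [(nat_lit 5594630)]) (FT.cons (FT.leaf [(nat_lit 5924807)]) FT.nil)) (FT.cons (FT.cons (FT.leaf [(nat_lit 6128437)]) FT.nil) FT.nil))) (FT.cons (FT.cons (FT.cons (FT.leaf [(nat_lit 5942290)]) FT.nil) (FT.cons (FT.cons (FT.leaf [(nat_lit 6459490)]) FT.nil) FT.nil)) (FT.cons (FT.cons (FT.cons (FT.leaf [(nat_lit 6778945)]) FT.nil) FT.nil) (FT.cons (FT.cons (FT.cons (FT.leaf [(nat_lit 7561495)]) FT.nil) FT.nil) (FT.cons (FT.cons (FT.cons (FT.leaf [(nat_lit 8294112)]) FT.nil) FT.nil) FT.nil))))))) (FT.cons (FT.cons (FT.cons (FT.cons (FT.leaf [(nat_lit 5207193), (nat_lit 5367032), (nat_lit 5533124), (nat_lit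 5703731), (nat_lit 5877578), (nat_lit 6053682)]) (FT.cons (FT.leaf [(nat_lit 5510382), (nat_lit 5676870), (nat_lit 5847455), (nat_lit 6020942), (nat_lit 6196414)]) (FT.cons (FT.leaf [(nat_lit 5819940), (nat_lit 5990326), (nat_lit 6163313), (nat_lit 6338042)]) (FT.cons (FT.leaf [(nat_lit 6132266), (nat_lit 6304632)]) FT.nil)))) (FT.cons (FT.cons (FT.leaf [(nat_lit 5711348), (nat_lit 5876626), (nat_lit 6045711), (nat_lit 6217461), (nat_lit 6391003)]) (FT.cons (FT.leaf [(nat_lit 6018000), (nat_lit 6186765),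
 (nat_lit 6357921), (nat_lit 6530649)]) (FT.cons (FT.leaf [(nat_lit 6326838), (nat_lit 6497296)]) FT.nil))) (FT.cons (FT.cons (FT.leaf [(nat_lit 6213107)]) (FT.cons (FT.leaf [(nat_lit 6518376)]) FT.nil)) (FT.cons (FT.cons (FT.leaf [(nat_lit 6706909)]) FT.nil) FT.nil)))) (FT.cons (FT.cons (FT.cons (FT.leaf [(nat_lit 6045287), (nat_lit 6206642), (nat_lit 6371574)]) (FT.cons (FT.leaf [(nat_lit 6344185), (nat_lit 6508743)]) (FT.cons (FT.leaf [(nat_lit 6644940)]) FT.nil))) (FT.cons (FT.cons (FT.leaf [(nat_lit 6533503)]) (FT.cons (FT.leaf [(nat_lit 6830770)]) FT.nil)) (FT.cons (FT.cons (FT.leaf [(nat_lit 7013727)]) FT.nil) FT.nil))) (FT.cons (FT.cons (FT.cons (FT.leaf [(nat_lit 6843551)]) FT.nil) (FT.cons (FT.cons (FT.leaf [(nat_lit 7310846)]) FT.nil) FT.nil)) (FT.cons (FT.cons (FT.cons (FT.leaf [(nat_lit 7598838)]) FT.nil) FT.nil) (FT.cons (FT.cons (FT.cons (FT.leaf [(nat_lit 8311740)]) FT.nil) FT.nil) (FT.cons (FT.cons (FT.cons (FT.leaf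 [(nat_lit 8984504)]) FT.nil) FT.nil) FT.nil)))))) (FT.cons (FT.cons (FT.cons (FT.cons (FT.leaf [(nat_lit 6922345), (nat_lit 7069382), (nat_lit 7219806)]) (FT.cons (FT.leaf [(nat_lit 7194439), (nat_lit 7344658)]) (FT.cons (FT.leaf [(nat_lit 7468754)])
 FT.nil))) (FT.cons (FT.cons (FT.leaf [(nat_lit 7366252)]) (FT.cons (FT.leaf [(nat_lit 7637817)]) FT.nil)) (FT.cons (FT.cons (FT.leaf [(nat_lit 7804561)]) FT.nil) FT.nil))) (FT.cons (FT.cons (FT.cons (FT.leaf [(nat_lit 7647103)]) FT.nil) (FT.cons (FT.cons (FT.leaf [(nat_lit 8074966)]) FT.nil) FT.nil)) (FT.cons (FT.cons (FT.cons (FT.leaf [(nat_lit 8337943)]) FT.nil) FT.nil) (FT.cons (FT.cons (FT.cons (FT.leaf [(nat_lit 8994505)]) FT.nil) FT.nil) FT.nil)))) (FT.cons (FT.cons (FT.cons (FT.cons (FT.leaf [(nat_lit 8374040)]) FT.nil) FT.nil) (FT.cons (FT.cons (FT.cons (FT.leaf [(nat_lit 9012265)]) FT.nil) FT.nil) FT.nil)) (FT.cons (FT.cons (FT.cons (FT.cons (FT.leaf [(nat_lit 9633283)])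 FT.nil) FT.nil) FT.nil) (FT.cons (FT.cons (FT.cons (FT.cons (FT.leaf [(nat_lit 10745776)]) FT.nil) FT.nil) FT.nil) (FT.cons (FT.cons (FT.cons (FT.cons (FT.leaf [(nat_lit 11742597)]) FT.nil) FT.nil) FT.nil) (FT.cons (FT.cons (FT.cons (FT.cons (FT.leaf [(nat_lit 12645849)]) FT.nil) FT.nil) FT.nil) FT.nil))))))))

def f120_1_750 : FT := (FT.cons (FT.cons (FT.cons (FT.cons (FT.leaf [(nat_lit 3689111), (nat_lit 3849006), (nat_lit 4020469), (nat_lit 4200456), (nat_lit 4386766), (nat_lit 4577727), (nat_lit 4772027), (nat_lit 4968620)]) (FT.cons (FT.leaf [(nat_lit 4004948), (nat_lit 4178512), (nat_lit 4359788), (nat_lit 4546725), (nat_lit 4737773), (nat_lit 4931718), (nat_lit 5127594)]) (FT.cons (FT.leaf [(nat_lit 4336618), (nat_lit 4518776), (nat_lit 4706018), (nat_lit 4896894), (nat_lit 5090279)]) (FT.cons (FT.leaf [(nat_lit 4677215), (nat_lit 4864481), (nat_lit 5054965), (nat_lit 5247614)]) (FT.cons (FT.leaf [(nat_lit 5021979), (nat_lit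 5211883)]) (FT.cons (FT.leaf [(nat_lit 5367561)]) (FT.cons (FT.leaf [(nat_lit 5711564)]) FT.nil))))))) (FT.cons (FT.cons (FT.leaf [(nat_lit 4230759), (nat_lit 4404137), (nat_lit 4584639), (nat_lit 4770308), (nat_lit 4959675), (nat_lit 5151602)]) (FT.cons (FT.leaf [(nat_lit 4560872), (nat_lit 4741949), (nat_lit 4927674), (nat_lit 5116674), (nat_lit 5307891)]) (FT.cons (FT.leaf [(nat_lit 4898544), (nat_lit 5084090), (nat_lit 5272537), (nat_lit 5462895)]) (FT.cons (FT.leaf [(nat_lit 5239446), (nat_lit 5427180)]) (FT.cons (FT.leaf [(nat_lit 5580533)]) (FT.cons (FT.leaf [(nat_lit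
 5919642)]) FT.nil)))))) (FT.cons (FT.cons (FT.leaf [(nat_lit 4782029), (nat_lit 4961789), (nat_lit 5145819), (nat_lit 5332815), (nat_lit 5521773)]) (FT.cons (FT.leaf [(nat_lit 5116436), (nat_lit 5300118), (nat_lit 5486428), (nat_lit 5674431)]) (FT.cons (FT.leaf [(nat_lit 5453283), (nat_lit 5638773)]) (FT.cons (FT.leaf [(nat_lit 5789793)]) (FT.cons (FT.leaf [(nat_lit 6124003)]) FT.nil))))) (FT.cons (FT.cons (FT.leaf [(nat_lit 5330844), (nat_lit 5512554), (nat_lit 5696657)]) (FT.cons (FT.leaf [(nat_lit 5663501), (nat_lit 5846697)]) (FT.cons (FT.leaf [(nat_lit 5995390)]) FT.nil))) (FT.cons (FT.cons (FT.leaf [(nat_lit 5870130)]) (FT.cons (FT.leaf [(nat_lit 6197384)]) FT.nil)) (FT.cons (FT.cons (FT.leaf [(nat_lit 6395843)]) FT.nil) FT.nil)))))) (FT.cons (FT.cons (FT.cons (FT.leaf [(nat_lit 4615763), (nat_lit 4785337), (nat_lit 4961529), (nat_lit 5142475), (nat_lit 5326792), (nat_lit 5513417)]) (FT.cons (FT.leaf [(nat_lit 4937786),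 (nat_lit 5114347), (nat_lit 5295198), (nat_lit 5479046), (nat_lit 5664898)]) (FT.cons (FT.leaf [(nat_lit 5266373), (nat_lit 5446929), (nat_lit 5630150), (nat_lit 5815105)]) (FT.cons (FT.leaf [(nat_lit 5597579), (nat_lit 5780037)]) (FT.cons (FT.leaf [(nat_lit
 5928654)]) (FT.cons (FT.leaf [(nat_lit 6257654)]) FT.nil)))))) (FT.cons (FT.cons (FT.leaf [(nat_lit 5151957), (nat_lit 5327098), (nat_lit 5506204), (nat_lit 5688040), (nat_lit 5871666)]) (FT.cons (FT.leaf [(nat_lit 5477177), (nat_lit 5655850), (nat_lit 5836955), (nat_lit 6019608)]) (FT.cons (FT.leaf [(nat_lit 5804362), (nat_lit 5984620)]) (FT.cons (FT.leaf [(nat_lit 6130993)]) (FT.cons (FT.leaf [(nat_lit 6455290)]) FT.nil))))) (FT.cons (FT.cons (FT.leaf [(nat_lit 5684601), (nat_lit 5861316), (nat_lit 6040256)]) (FT.cons (FT.leaf [(nat_lit 6007679), (nat_lit 6185706)]) (FT.cons (FT.leaf [(nat_lit 6329849)]) FT.nil))) (FT.cons (FT.cons (FT.leaf [(nat_lit 6207571)]) (FT.cons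 (FT.leaf [(nat_lit 6525286)]) FT.nil)) (FT.cons (FT.cons (FT.leaf [(nat_lit 6717375)]) FT.nil) FT.nil))))) (FT.cons (FT.cons (FT.cons (FT.leaf [(nat_lit 5508601), (nat_lit 5679240), (nat_lit 5853585), (nat_lit 6030467)]) (FT.cons (FT.leaf [(nat_lit 5824934), (nat_lit 5998792), (nat_lit 6174917)]) (FT.cons (FT.leaf [(nat_lit 6142877)]) FT.nil))) (FT.cons (FT.cons (FT.leaf [(nat_lit 6025736), (nat_lit 6197667)]) (FT.cons (FT.leaf [(nat_lit 6339682)]) FT.nil)) (FT.cons (FT.cons (FT.leaf [(nat_lit 6533225)]) FT.nil)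
 FT.nil))) (FT.cons (FT.cons (FT.cons (FT.leaf [(nat_lit 6355032)]) FT.nil) (FT.cons (FT.cons (FT.leaf [(nat_lit 6847845)]) FT.nil) FT.nil)) (FT.cons (FT.cons (FT.cons (FT.leaf [(nat_lit 7152131)]) FT.nil) FT.nil) (FT.cons (FT.cons (FT.cons (FT.leaf [(nat_lit 7901227)]) FT.nil) FT.nil) (FT.cons (FT.cons (FT.cons (FT.leaf [(nat_lit 8605368)]) FT.nil) FT.nil) FT.nil))))))) (FT.cons (FT.cons (FT.cons (FT.cons (FT.leaf [(nat_lit 5649600), (nat_lit 5801878), (nat_lit 5960178), (nat_lit 6122870), (nat_lit 6288751), (nat_lit 6456896)]) (FT.cons (FT.leaf [(nat_lit 5938308), (nat_lit 6097067), (nat_lit 6259828), (nat_lit 6425461), (nat_lit 6593102)]) (FT.cons (FT.leaf [(nat_lit 6233394), (nat_lit 6396057), (nat_lit 6561311), (nat_lit 6728342)]) (FT.cons (FT.leaf [(nat_lit 6531483), (nat_lit 6696242)]) FT.nil)))) (FT.cons (FT.cons (FT.leaf [(nat_lit 6129417), (nat_lit 6287161), (nat_lit 6448636), (nat_lit 6612761), (nat_lit 6778711)]) (FT.cons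 (FT.leaf [(nat_lit 6421999), (nat_lit 6583261), (nat_lit 6746917), (nat_lit 6912189)]) (FT.cons (FT.leaf [(nat_lit 6717036), (nat_lit 6880122)]) FT.nil))) (FT.cons (FT.cons (FT.leaf [(nat_lit 6607983), (nat_lit 6767773)]) (FT.cons (FT.leaf [(nat_lit
 6899880)]) FT.nil)) (FT.cons (FT.cons (FT.leaf [(nat_lit 7080036)]) FT.nil) FT.nil)))) (FT.cons (FT.cons (FT.cons (FT.leaf [(nat_lit 6446726), (nat_lit 6601000), (nat_lit 6758789), (nat_lit 6919059)]) (FT.cons (FT.leaf [(nat_lit 6732427), (nat_lit 6889947), (nat_lit 7049714)]) (FT.cons (FT.leaf [(nat_lit 7020254)]) FT.nil))) (FT.cons (FT.cons (FT.leaf [(nat_lit 6913235), (nat_lit 7069291)]) (FT.cons (FT.leaf [(nat_lit 7197975)]) FT.nil)) (FT.cons (FT.cons (FT.leaf [(nat_lit 7373114)]) FT.nil) FT.nil))) (FT.cons (FT.cons (FT.cons (FT.leaf [(nat_lit 7209206)]) FT.nil) (FT.cons (FT.cons (FT.leaf [(nat_lit 7657441)]) FT.nil) FT.nil)) (FT.cons (FT.cons (FT.cons (FT.leaf [(nat_lit 7933500)])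 FT.nil) FT.nil) (FT.cons (FT.cons (FT.cons (FT.leaf [(nat_lit 8619574)]) FT.nil) FT.nil) (FT.cons (FT.cons (FT.cons (FT.leaf [(nat_lit 9269049)]) FT.nil) FT.nil) FT.nil)))))) (FT.cons (FT.cons (FT.cons (FT.cons (FT.leaf [(nat_lit 7279909), (nat_lit 7421339), (nat_lit 7566085)]) (FT.cons (FT.leaf [(nat_lit 7541545), (nat_lit 7686153)]) (FT.cons (FT.leaf [(nat_lit 7805548)]) FT.nil))) (FT.cons (FT.cons (FT.leaf [(nat_lit 7706600)]) (FT.cons (FT.leaf [(nat_lit 7968128)]) FT.nil)) (FT.cons (FT.cons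
 (FT.leaf [(nat_lit 8128594)]) FT.nil) FT.nil))) (FT.cons (FT.cons (FT.cons (FT.leaf [(nat_lit 7976246)]) FT.nil) (FT.cons (FT.cons (FT.leaf [(nat_lit 8388699)]) FT.nil) FT.nil)) (FT.cons (FT.cons (FT.cons (FT.leaf [(nat_lit 8641993)]) FT.nil) FT.nil) (FT.cons (FT.cons (FT.cons (FT.leaf [(nat_lit 9276453)]) FT.nil) FT.nil) FT.nil)))) (FT.cons (FT.cons (FT.cons (FT.cons (FT.leaf [(nat_lit 8673915)]) FT.nil) FT.nil) (FT.cons (FT.cons (FT.cons (FT.leaf [(nat_lit 9291314)]) FT.nil) FT.nil) FT.nil)) (FT.cons (FT.cons (FT.cons (FT.cons (FT.leaf [(nat_lit 9891471)]) FT.nil) FT.nil) FT.nil) (FT.cons (FT.cons (FT.cons (FT.cons (FT.leaf [(nat_lit 10972452)]) FT.nil) FT.nil) FT.nil) (FT.cons (FT.cons (FT.cons (FT.cons (FT.leaf [(nat_lit 11944624)]) FT.nil) FT.nil) FT.nil) (FT.cons (FT.cons (FT.cons (FT.cons (FT.leaf [(nat_lit 12828070)]) FT.nil) FT.nil) FT.nil) FT.nil))))))))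

def f120_1_960 : FT := (FT.cons (FT.cons (FT.cons (FT.cons (FT.leaf [(nat_lit 4539205), (nat_lit 4682168), (nat_lit 4835813), (nat_lit 4997476), (nat_lit 5165226), (nat_lit 5337593), (nat_lit 5513417), (nat_lit 5691764)]) (FT.cons (FT.leaf [(nat_lit 4821638), (nat_lit 4977500), (nat_lit 5140670), (nat_lit 5309348), (nat_lit 5482162), (nat_lit 5658035), (nat_lit 5836102)]) (FT.cons (FT.leaf [(nat_lit 5119552), (nat_lit 5283871), (nat_lit 5453183), (nat_lit 5626207), (nat_lit 5801936)]) (FT.cons (FT.leaf [(nat_lit 5426884), (nat_lit 5596578), (nat_lit 5769604), (nat_lit 5945021)]) (FT.cons (FT.leaf [(nat_lit 5739401), (nat_lit 5912251)]) (FT.cons (FT.leaf [(nat_lit 6054059)]) (FT.cons (FT.leaf [(nat_lit 6368631)]) FT.nil))))))) (FT.cons (FT.cons (FT.leaf [(nat_lit 5023711), (nat_lit 5179903), (nat_lit 5342893), (nat_lit 5510949), (nat_lit 5682768), (nat_lit 5857332)]) (FT.cons (FT.leaf [(nat_lit 5321181), (nat_lit 5485033), (nat_lit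 5653489), (nat_lit 5825326), (nat_lit 5999592)]) (FT.cons (FT.leaf [(nat_lit 5626828), (nat_lit 5795464), (nat_lit 5967142), (nat_lit 6140965)]) (FT.cons (FT.leaf [(nat_lit 5936766), (nat_lit 6108128)]) (FT.cons (FT.leaf [(nat_lit 6248211)]) (FT.cons (FT.leaf [(nat_lit
 6559137)]) FT.nil)))))) (FT.cons (FT.cons (FT.leaf [(nat_lit 5520673), (nat_lit 5683826), (nat_lit 5851238), (nat_lit 6021742), (nat_lit 6194432)]) (FT.cons (FT.leaf [(nat_lit 5824279), (nat_lit 5991703), (nat_lit 6161910), (nat_lit 6334050)]) (FT.cons (FT.leaf [(nat_lit 6131411), (nat_lit 6301188)]) (FT.cons (FT.leaf [(nat_lit 6439513)]) (FT.cons (FT.leaf [(nat_lit 6746730)]) FT.nil))))) (FT.cons (FT.cons (FT.leaf [(nat_lit 6019155), (nat_lit 6185242), (nat_lit 6353885)]) (FT.cons (FT.leaf [(nat_lit 6323305), (nat_lit 6491421)]) (FT.cons (FT.leaf [(nat_lit 6627968)]) FT.nil))) (FT.cons (FT.cons (FT.leaf [(nat_lit 6512435)]) (FT.cons (FT.leaf [(nat_lit 6813591)])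 FT.nil)) (FT.cons (FT.cons (FT.leaf [(nat_lit 6996411)]) FT.nil) FT.nil)))))) (FT.cons (FT.cons (FT.cons (FT.leaf [(nat_lit 5368677), (nat_lit 5522326), (nat_lit 5682321), (nat_lit 5846999), (nat_lit 6015122), (nat_lit 6185732)]) (FT.cons (FT.leaf [(nat_lit 5660530), (nat_lit 5821172), (nat_lit 5986080), (nat_lit 6154091), (nat_lit 6324309)]) (FT.cons (FT.leaf [(nat_lit 5959574), (nat_lit 6124524), (nat_lit 6292272), (nat_lit 6461973)]) (FT.cons (FT.leaf [(nat_lit 6262240), (nat_lit 6429591)]) (FT.cons (FT.leaf [(nat_lit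
 6565993)]) (FT.cons (FT.leaf [(nat_lit 6868995)]) FT.nil)))))) (FT.cons (FT.cons (FT.leaf [(nat_lit 5854815), (nat_lit 6014611), (nat_lit 6178373), (nat_lit 6344986), (nat_lit 6513597)]) (FT.cons (FT.leaf [(nat_lit 6151620), (nat_lit 6315284), (nat_lit 6481522), (nat_lit 6649531)]) (FT.cons (FT.leaf [(nat_lit 6451404), (nat_lit 6617152)]) (FT.cons (FT.leaf [(nat_lit 6751826)]) (FT.cons (FT.leaf [(nat_lit 7051197)]) FT.nil))))) (FT.cons (FT.cons (FT.leaf [(nat_lit 6341110), (nat_lit 6503391), (nat_lit 6668049)]) (FT.cons (FT.leaf [(nat_lit 6637880), (nat_lit 6801970)]) (FT.cons (FT.leaf [(nat_lit 6934907)]) FT.nil))) (FT.cons (FT.cons (FT.leaf [(nat_lit 6821672)]) (FT.cons (FT.leaf [(nat_lit 7115261)]) FT.nil)) (FT.cons (FT.cons (FT.leaf [(nat_lit 7292921)]) FT.nil) FT.nil))))) (FT.cons (FT.cons (FT.cons (FT.leaf [(nat_lit 6178746), (nat_lit 6335183), (nat_lit 6495333), (nat_lit 6658136)]) (FT.cons (FT.leaf [(nat_lit 6468819),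 (nat_lit 6628790), (nat_lit 6791160)]) (FT.cons (FT.leaf [(nat_lit 6761436)]) FT.nil))) (FT.cons (FT.cons (FT.leaf [(nat_lit 6653112), (nat_lit 6811680)]) (FT.cons (FT.leaf [(nat_lit 6942723)]) FT.nil)) (FT.cons (FT.cons (FT.leaf [(nat_lit 7121414)]) FT.nil)
 FT.nil))) (FT.cons (FT.cons (FT.cons (FT.leaf [(nat_lit 6955646)]) FT.nil) (FT.cons (FT.cons (FT.leaf [(nat_lit 7412162)]) FT.nil) FT.nil)) (FT.cons (FT.cons (FT.cons (FT.leaf [(nat_lit 7694396)]) FT.nil) FT.nil) (FT.cons (FT.cons (FT.cons (FT.leaf [(nat_lit 8394280)]) FT.nil) FT.nil) (FT.cons (FT.cons (FT.cons (FT.leaf [(nat_lit 9056637)]) FT.nil) FT.nil) FT.nil))))))) (FT.cons (FT.cons (FT.cons (FT.cons (FT.leaf [(nat_lit 6299242), (nat_lit 6439553), (nat_lit 6585633), (nat_lit 6736001), (nat_lit 6889558), (nat_lit 7045458)]) (FT.cons (FT.leaf [(nat_lit 6565268), (nat_lit 6711971), (nat_lit 6862606), (nat_lit 7016139), (nat_lit 7171777)]) (FT.cons (FT.leaf [(nat_lit 6837965),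 (nat_lit 6988710), (nat_lit 7142093), (nat_lit 7297366)]) (FT.cons (FT.leaf [(nat_lit 7114240), (nat_lit 7267362)]) FT.nil)))) (FT.cons (FT.cons (FT.leaf [(nat_lit 6741396), (nat_lit 6887450), (nat_lit 7037184), (nat_lit 7189608), (nat_lit 7343961)]) (FT.cons (FT.leaf [(nat_lit 7012315), (nat_lit 7162045), (nat_lit 7314227), (nat_lit 7468143)]) (FT.cons (FT.leaf [(nat_lit 7286281), (nat_lit 7438122)]) FT.nil))) (FT.cons (FT.cons (FT.leaf [(nat_lit 7184583), (nat_lit 7333220)]) (FT.cons (FT.leaf [(nat_lit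
 7456131)]) FT.nil)) (FT.cons (FT.cons (FT.leaf [(nat_lit 7623790)]) FT.nil) FT.nil)))) (FT.cons (FT.cons (FT.cons (FT.leaf [(nat_lit 7033978), (nat_lit 7177310), (nat_lit 7324116), (nat_lit 7473443)]) (FT.cons (FT.leaf [(nat_lit 7299431), (nat_lit 7446164), (nat_lit 7595200)]) (FT.cons (FT.leaf [(nat_lit 7567569)]) FT.nil))) (FT.cons (FT.cons (FT.leaf [(nat_lit 7467472), (nat_lit 7613090)]) (FT.cons (FT.leaf [(nat_lit 7733187)]) FT.nil)) (FT.cons (FT.cons (FT.leaf [(nat_lit 7896676)]) FT.nil) FT.nil))) (FT.cons (FT.cons (FT.cons (FT.leaf [(nat_lit 7742672)]) FT.nil) (FT.cons (FT.cons (FT.leaf [(nat_lit 8162208)]) FT.nil) FT.nil)) (FT.cons (FT.cons (FT.cons (FT.leaf [(nat_lit 8420733)]) FT.nil) FT.nil) (FT.cons (FT.cons (FT.cons (FT.leaf [(nat_lit 9067000)]) FT.nil) FT.nil) (FT.cons (FT.cons (FT.cons (FT.leaf [(nat_lit 9682034)]) FT.nil) FT.nil) FT.nil)))))) (FT.cons (FT.cons (FT.cons (FT.cons (FT.leaf [(nat_lit 7803783), (nat_lit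 7936468), (nat_lit 8072410)]) (FT.cons (FT.leaf [(nat_lit 8049232), (nat_lit 8185168)]) (FT.cons (FT.leaf [(nat_lit 8297399)]) FT.nil))) (FT.cons (FT.cons (FT.leaf [(nat_lit 8204066)]) (FT.cons (FT.leaf [(nat_lit 8450228)]) FT.nil)) (FT.cons (FT.cons
 (FT.leaf [(nat_lit 8601267)]) FT.nil) FT.nil))) (FT.cons (FT.cons (FT.cons (FT.leaf [(nat_lit 8457045)]) FT.nil) (FT.cons (FT.cons (FT.leaf [(nat_lit 8846131)]) FT.nil) FT.nil)) (FT.cons (FT.cons (FT.cons (FT.leaf [(nat_lit 9085101)]) FT.nil) FT.nil) (FT.cons (FT.cons (FT.cons (FT.leaf [(nat_lit 9686566)]) FT.nil) FT.nil) FT.nil)))) (FT.cons (FT.cons (FT.cons (FT.cons (FT.leaf [(nat_lit 9112183)]) FT.nil) FT.nil) (FT.cons (FT.cons (FT.cons (FT.leaf [(nat_lit 9698153)]) FT.nil) FT.nil) FT.nil)) (FT.cons (FT.cons (FT.cons (FT.cons (FT.leaf [(nat_lit 10267910)]) FT.nil) FT.nil) FT.nil) (FT.cons (FT.cons (FT.cons (FT.cons (FT.leaf [(nat_lit 11302216)]) FT.nil) FT.nil) FT.nil) (FT.cons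 (FT.cons (FT.cons (FT.cons (FT.leaf [(nat_lit 12237940)]) FT.nil) FT.nil) FT.nil) (FT.cons (FT.cons (FT.cons (FT.cons (FT.leaf [(nat_lit 13092150)]) FT.nil) FT.nil) FT.nil) FT.nil))))))))

def f120_1_975 : FT := (FT.cons (FT.cons (FT.cons (FT.cons (FT.leaf [(nat_lit 4600877), (nat_lit 4742594), (nat_lit 4894933), (nat_lit 5055253), (nat_lit 5221647), (nat_lit 5392658), (nat_lit 5567136), (nat_lit 5744157)]) (FT.cons (FT.leaf [(nat_lit 4880863), (nat_lit 5035428), (nat_lit 5197275), (nat_lit 5364620), (nat_lit 5536105), (nat_lit 5710664), (nat_lit 5887436)]) (FT.cons (FT.leaf [(nat_lit 5176312), (nat_lit 5339328), (nat_lit 5507333), (nat_lit 5679057), (nat_lit 5853503)]) (FT.cons (FT.leaf [(nat_lit 5481222), (nat_lit 5649636), (nat_lit 5821392), (nat_lit 5995557)]) (FT.cons (FT.leaf [(nat_lit 5791396), (nat_lit 5963006)]) (FT.cons (FT.leaf [(nat_lit 6103810)]) FT.nil)))))) (FT.cons (FT.cons (FT.leaf [(nat_lit 5081216), (nat_lit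 5236152), (nat_lit 5397862), (nat_lit 5564635), (nat_lit 5735175), (nat_lit 5908476)]) (FT.cons (FT.leaf [(nat_lit 5376306), (nat_lit 5538901), (nat_lit 5706100), (nat_lit 5876688), (nat_lit 6049721)]) (FT.cons (FT.leaf [(nat_lit 5679622), (nat_lit 5847028), (nat_lit 6017486), (nat_lit 6190108)]) (FT.cons (FT.leaf [(nat_lit 5987311), (nat_lit 6157483)]) (FT.cons (FT.leaf [(nat_lit 6296607)]) FT.nil))))) (FT.cons (FT.cons (FT.leaf [(nat_lit 5574233), (nat_lit
 5736175), (nat_lit 5902377)]) (FT.cons (FT.leaf [(nat_lit 5875599), (nat_lit 6041840)]) (FT.cons (FT.leaf [(nat_lit 6180573)]) FT.nil))) (FT.cons (FT.cons (FT.leaf [(nat_lit 6069066)]) (FT.cons (FT.leaf [(nat_lit 6371146)]) FT.nil)) (FT.cons (FT.cons (FT.leaf [(nat_lit 6559014)]) FT.nil) (FT.cons (FT.cons (FT.leaf [(nat_lit 7039967)]) FT.nil) FT.nil)))))) (FT.cons (FT.cons (FT.cons (FT.leaf [(nat_lit 5423311), (nat_lit 5575795), (nat_lit 5734606), (nat_lit 5898097), (nat_lit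 6065041)]) (FT.cons (FT.leaf [(nat_lit 5712963), (nat_lit 5872443), (nat_lit 6036188), (nat_lit 6203046)]) (FT.cons (FT.leaf [(nat_lit 6009856), (nat_lit 6173668)]) (FT.cons (FT.leaf [(nat_lit 6310447)]) FT.nil)))) (FT.cons (FT.cons (FT.leaf [(nat_lit 5905811), (nat_lit 6064487), (nat_lit 6227130)]) (FT.cons (FT.leaf [(nat_lit 6200547), (nat_lit 6363117)]) (FT.cons (FT.leaf [(nat_lit 6498338)]) FT.nil))) (FT.cons (FT.cons (FT.leaf [(nat_lit 6388741)]) (FT.cons (FT.leaf [(nat_lit 6683599)]) FT.nil)) (FT.cons (FT.cons (FT.leaf [(nat_lit 6866228)]) FT.nil) (FT.cons (FT.cons (FT.leaf [(nat_lit 7334682)]) FT.nil) FT.nil))))) (FT.cons (FT.cons (FT.cons (FT.leaf [(nat_lit 6227393), (nat_lit 6382792), (nat_lit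
 6541908)]) (FT.cons (FT.leaf [(nat_lit 6515552), (nat_lit 6674511)]) (FT.cons (FT.leaf [(nat_lit 6806327)]) FT.nil))) (FT.cons (FT.cons (FT.leaf [(nat_lit 6698651)]) (FT.cons (FT.leaf [(nat_lit 6986492)]) FT.nil)) (FT.cons (FT.cons (FT.leaf [(nat_lit 7164108)]) FT.nil) FT.nil))) (FT.cons (FT.cons (FT.cons (FT.leaf [(nat_lit 6999261)]) FT.nil) (FT.cons (FT.cons (FT.leaf [(nat_lit 7453138)]) FT.nil) FT.nil)) (FT.cons (FT.cons (FT.cons (FT.leaf [(nat_lit 7733782)]) FT.nil) FT.nil) (FT.cons (FT.cons (FT.cons (FT.leaf [(nat_lit 8430097)]) FT.nil) FT.nil) (FT.cons (FT.cons (FT.cons (FT.leaf [(nat_lit 9089418)]) FT.nil) FT.nil) FT.nil))))))) (FT.cons (FT.cons (FT.cons (FT.cons (FT.leaf [(nat_lit 6346562), (nat_lit 6485986), (nat_lit 6631163), (nat_lit 6780621), (nat_lit 6933269)]) (FT.cons (FT.leaf [(nat_lit 6610912), (nat_lit 6756725), (nat_lit 6906465), (nat_lit 7059107)]) (FT.cons (FT.leaf [(nat_lit 6881960), (nat_lit 7031827)]) (FT.cons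 (FT.leaf [(nat_lit 7156632)]) FT.nil)))) (FT.cons (FT.cons (FT.leaf [(nat_lit 6785945), (nat_lit 6931136), (nat_lit 7080005)]) (FT.cons (FT.leaf [(nat_lit 7055269), (nat_lit 7204151)]) (FT.cons (FT.leaf [(nat_lit 7327687)]) FT.nil))) (FT.cons (FT.cons
 (FT.leaf [(nat_lit 7226536)]) (FT.cons (FT.leaf [(nat_lit 7496590)]) FT.nil)) (FT.cons (FT.cons (FT.leaf [(nat_lit 7663338)]) FT.nil) FT.nil)))) (FT.cons (FT.cons (FT.cons (FT.leaf [(nat_lit 7076732), (nat_lit 7219257), (nat_lit 7365253)]) (FT.cons (FT.leaf [(nat_lit 7340695), (nat_lit 7486634)]) (FT.cons (FT.leaf [(nat_lit 7607386)]) FT.nil))) (FT.cons (FT.cons (FT.leaf [(nat_lit 7507803)]) (FT.cons (FT.leaf [(nat_lit 7772121)]) FT.nil)) (FT.cons (FT.cons (FT.leaf [(nat_lit 7934760)]) FT.nil) FT.nil))) (FT.cons (FT.cons (FT.cons (FT.leaf [(nat_lit 7781496)]) FT.nil) (FT.cons (FT.cons (FT.leaf [(nat_lit 8198929)]) FT.nil) FT.nil)) (FT.cons (FT.cons (FT.cons (FT.leaf [(nat_lit 8456181)])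 FT.nil) FT.nil) (FT.cons (FT.cons (FT.cons (FT.leaf [(nat_lit 9099543)]) FT.nil) FT.nil) (FT.cons (FT.cons (FT.cons (FT.leaf [(nat_lit 9712062)]) FT.nil) FT.nil) FT.nil)))))) (FT.cons (FT.cons (FT.cons (FT.cons (FT.leaf [(nat_lit 7841986), (nat_lit 7974022), (nat_lit 8109311)]) (FT.cons (FT.leaf [(nat_lit 8086236), (nat_lit 8221530)]) (FT.cons (FT.leaf [(nat_lit 8333233)]) FT.nil))) (FT.cons (FT.cons (FT.leaf [(nat_lit 8240319)]) (FT.cons (FT.leaf [(nat_lit 8485346)]) FT.nil)) (FT.cons (FT.cons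
 (FT.leaf [(nat_lit 8635694)]) FT.nil) FT.nil))) (FT.cons (FT.cons (FT.cons (FT.leaf [(nat_lit 8492082)]) FT.nil) (FT.cons (FT.cons (FT.leaf [(nat_lit 8879446)]) FT.nil) FT.nil)) (FT.cons (FT.cons (FT.cons (FT.leaf [(nat_lit 9117371)]) FT.nil) FT.nil) (FT.cons (FT.cons (FT.cons (FT.leaf [(nat_lit 9716417)]) FT.nil) FT.nil) FT.nil)))) (FT.cons (FT.cons (FT.cons (FT.cons (FT.leaf [(nat_lit 9144144)]) FT.nil) FT.nil) (FT.cons (FT.cons (FT.cons (FT.leaf [(nat_lit 9727799)]) FT.nil) FT.nil) FT.nil)) (FT.cons (FT.cons (FT.cons (FT.cons (FT.leaf [(nat_lit 10295350)]) FT.nil) FT.nil) FT.nil) (FT.cons (FT.cons (FT.cons (FT.cons (FT.leaf [(nat_lit 11326238)]) FT.nil) FT.nil) FT.nil) (FT.cons (FT.cons (FT.cons (FT.cons (FT.leaf [(nat_lit 12259292)]) FT.nil) FT.nil) FT.nil) (FT.cons (FT.cons (FT.cons (FT.cons (FT.leaf [(nat_lit 13111360)]) FT.nil) FT.nil) FT.nil) FT.nil))))))))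

def f128_1_0 : FT := (FT.cons (FT.cons (FT.cons (FT.cons (FT.leaf [(nat_lit 1716544), (nat_lit 1860523), (nat_lit 2026916), (nat_lit 2210383), (nat_lit 2407037), (nat_lit 2613859), (nat_lit 2828432), (nat_lit 3048778)]) (FT.cons (FT.leaf [(nat_lit 2025288), (nat_lit 2198518), (nat_lit 2387115), (nat_lit 2587451), (nat_lit 2796734), (nat_lit 3012744), (nat_lit 3233675)]) (FT.cons (FT.leaf [(nat_lit 2372937), (nat_lit 2565598), (nat_lit 2768745), (nat_lit 2979779), (nat_lit 3196649)]) (FT.cons (FT.leaf [(nat_lit 2745176), (nat_lit 2950397), (nat_lit 3162580), (nat_lit 3379824)]) (FT.cons (FT.leaf [(nat_lit 3131976), (nat_lit 3344798)]) (FT.cons (FT.leaf [(nat_lit 3526148)]) (FT.cons (FT.leaf [(nat_lit 3922529)]) FT.nil))))))) (FT.cons (FT.cons (FT.leaf [(nat_lit 2280282), (nat_lit 2456875), (nat_lit 2647562), (nat_lit 2848819), (nat_lit 3058002), (nat_lit 3273038)]) (FT.cons (FT.leaf [(nat_lit 2631981), (nat_lit 2825825), (nat_lit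 3029136), (nat_lit 3239450), (nat_lit 3454849)]) (FT.cons (FT.leaf [(nat_lit 3004599), (nat_lit 3209351), (nat_lit 3420298), (nat_lit 3635659)]) (FT.cons (FT.leaf [(nat_lit 3389118), (nat_lit 3600274)]) (FT.cons (FT.leaf [(nat_lit 3779154)]) (FT.cons (FT.leaf [(nat_lit
 4170155)]) FT.nil)))))) (FT.cons (FT.cons (FT.leaf [(nat_lit 2889193), (nat_lit 3083399), (nat_lit 3286204), (nat_lit 3495263), (nat_lit 3708778)]) (FT.cons (FT.leaf [(nat_lit 3260856), (nat_lit 3464590), (nat_lit 3673868), (nat_lit 3887017)]) (FT.cons (FT.leaf [(nat_lit 3642237), (nat_lit 3851382)]) (FT.cons (FT.leaf [(nat_lit 4027626)]) (FT.cons (FT.leaf [(nat_lit 4412984)]) FT.nil))))) (FT.cons (FT.cons (FT.leaf [(nat_lit 3513517), (nat_lit 3715809), (nat_lit 3923091)]) (FT.cons (FT.leaf [(nat_lit 3891114), (nat_lit 4097989)]) (FT.cons (FT.leaf [(nat_lit 4271489)]) FT.nil))) (FT.cons (FT.cons (FT.leaf [(nat_lit 4135616)]) (FT.cons (FT.leaf [(nat_lit 4510722)])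 FT.nil)) (FT.cons (FT.cons (FT.leaf [(nat_lit 4745345)]) FT.nil) (FT.cons (FT.cons (FT.leaf [(nat_lit 5337165)]) FT.nil) FT.nil))))))) (FT.cons (FT.cons (FT.cons (FT.leaf [(nat_lit 2738514), (nat_lit 2913287), (nat_lit 3100960), (nat_lit 3298134), (nat_lit 3502317), (nat_lit 3711594), (nat_lit 3924456), (nat_lit 4139688)]) (FT.cons (FT.leaf [(nat_lit 3084707), (nat_lit 3274792), (nat_lit 3473411), (nat_lit 3678245), (nat_lit 3887524), (nat_lit 4099853), (nat_lit 4314118)]) (FT.cons (FT.leaf [(nat_lit 3448686), (nat_lit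
 3648251), (nat_lit 3853337), (nat_lit 4062295), (nat_lit 4273838)]) (FT.cons (FT.leaf [(nat_lit 3822388), (nat_lit 4027384), (nat_lit 4235752), (nat_lit 4446295)]) (FT.cons (FT.leaf [(nat_lit 4200217), (nat_lit 4407764)]) (FT.cons (FT.leaf [(nat_lit 4578229)]) (FT.cons (FT.leaf [(nat_lit 4953644)]) FT.nil))))))) (FT.cons (FT.cons (FT.leaf [(nat_lit 3334208), (nat_lit 3524034), (nat_lit 3721670), (nat_lit 3924907), (nat_lit 4132079), (nat_lit 4341886)]) (FT.cons (FT.leaf [(nat_lit 3696271), (nat_lit 3894458), (nat_lit 4097632), (nat_lit 4304240), (nat_lit 4513075)]) (FT.cons (FT.leaf [(nat_lit 4066334), (nat_lit 4269158), (nat_lit 4474976), (nat_lit 4682663)]) (FT.cons (FT.leaf [(nat_lit 4439350), (nat_lit 4644185)]) (FT.cons (FT.leaf [(nat_lit 4811789)]) (FT.cons (FT.leaf [(nat_lit 5181168)]) FT.nil)))))) (FT.cons (FT.cons (FT.leaf [(nat_lit 3940079), (nat_lit 4136585), (nat_lit 4337620), (nat_lit 4541713), (nat_lit 4747733)])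 (FT.cons (FT.leaf [(nat_lit 4306057), (nat_lit 4506534), (nat_lit 4709679), (nat_lit 4914437)]) (FT.cons (FT.leaf [(nat_lit 4674025), (nat_lit 4876062)]) (FT.cons (FT.leaf [(nat_lit 5040801)]) (FT.cons (FT.leaf [(nat_lit 5404162)]) FT.nil))))) (FT.cons
 (FT.cons (FT.leaf [(nat_lit 4541499), (nat_lit 4739501), (nat_lit 4939893)]) (FT.cons (FT.leaf [(nat_lit 4904262), (nat_lit 5103450)]) (FT.cons (FT.leaf [(nat_lit 5265341)]) FT.nil))) (FT.cons (FT.cons (FT.leaf [(nat_lit 5130110)]) (FT.cons (FT.leaf [(nat_lit 5485493)]) FT.nil)) (FT.cons (FT.cons (FT.leaf [(nat_lit 5701360)]) FT.nil) FT.nil)))))) (FT.cons (FT.cons (FT.cons (FT.leaf [(nat_lit 3761869), (nat_lit 3947026), (nat_lit 4139358), (nat_lit 4336776), (nat_lit 4537725), (nat_lit 4741003)]) (FT.cons (FT.leaf [(nat_lit 4114009), (nat_lit 4306627), (nat_lit 4503791), (nat_lit 4704051), (nat_lit 4906288)]) (FT.cons (FT.leaf [(nat_lit 4472882), (nat_lit 4669556), (nat_lit 4868942),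 (nat_lit 5069995)]) (FT.cons (FT.leaf [(nat_lit 4833967), (nat_lit 5032320)]) (FT.cons (FT.leaf [(nat_lit 5194127)]) (FT.cons (FT.leaf [(nat_lit 5551166)]) FT.nil)))))) (FT.cons (FT.cons (FT.leaf [(nat_lit 4349220), (nat_lit 4540027), (nat_lit 4734994), (nat_lit 4932742), (nat_lit 5132220)]) (FT.cons (FT.leaf [(nat_lit 4703882), (nat_lit 4898197), (nat_lit 5094952), (nat_lit 5293161)]) (FT.cons (FT.leaf [(nat_lit 5059987), (nat_lit 5255614)]) (FT.cons (FT.leaf [(nat_lit 5414681)]) (FT.cons (FT.leaf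
 [(nat_lit 5765989)]) FT.nil))))) (FT.cons (FT.cons (FT.leaf [(nat_lit 4930749), (nat_lit 5122620), (nat_lit 5316695)]) (FT.cons (FT.leaf [(nat_lit 5281780), (nat_lit 5474657)]) (FT.cons (FT.leaf [(nat_lit 5631016)]) FT.nil))) (FT.cons (FT.cons (FT.leaf [(nat_lit 5499415)]) (FT.cons (FT.leaf [(nat_lit 5843220)]) FT.nil)) (FT.cons (FT.cons (FT.leaf [(nat_lit 6051394)]) FT.nil) FT.nil))))) (FT.cons (FT.cons (FT.cons (FT.leaf [(nat_lit 4741945), (nat_lit 4927220), (nat_lit 5116354), (nat_lit 5308049)]) (FT.cons (FT.leaf [(nat_lit 5085716), (nat_lit 5274142), (nat_lit 5464826)]) (FT.cons (FT.leaf [(nat_lit 5430541)]) FT.nil))) (FT.cons (FT.cons (FT.leaf [(nat_lit 5304502), (nat_lit 5490543)]) (FT.cons (FT.leaf [(nat_lit 5644428)]) FT.nil)) (FT.cons (FT.cons (FT.leaf [(nat_lit 5854381)]) FT.nil) FT.nil))) (FT.cons (FT.cons (FT.cons (FT.leaf [(nat_lit 5663832)]) FT.nil) (FT.cons (FT.cons (FT.leaf [(nat_lit 6196035)]) FT.nil) FT.nil))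 (FT.cons (FT.cons (FT.cons (FT.leaf [(nat_lit 6525314)]) FT.nil) FT.nil) (FT.cons (FT.cons (FT.cons (FT.leaf [(nat_lit 7329265)]) FT.nil) FT.nil) (FT.cons (FT.cons (FT.cons (FT.leaf [(nat_lit 8080338)]) FT.nil) FT.nil) (FT.cons (FT.cons (FT.cons (FT.leaf
 [(nat_lit 8783535)]) FT.nil) FT.nil) FT.nil))))))))) (FT.cons (FT.cons (FT.cons (FT.cons (FT.leaf [(nat_lit 4023087), (nat_lit 4177097), (nat_lit 4342295), (nat_lit 4515767), (nat_lit 4695413), (nat_lit 4879637), (nat_lit 5067189), (nat_lit 5257067)]) (FT.cons (FT.leaf [(nat_lit 4327177), (nat_lit 4494460), (nat_lit 4669248), (nat_lit 4849582), (nat_lit 5033982), (nat_lit 5221289), (nat_lit 5410579)]) (FT.cons (FT.leaf [(nat_lit 4646753), (nat_lit 4822473), (nat_lit 5003190), (nat_lit 5187520), (nat_lit 5374386)]) (FT.cons (FT.leaf [(nat_lit 4975246), (nat_lit 5156082), (nat_lit 5340131), (nat_lit 5526389)]) (FT.cons (FT.leaf [(nat_lit 5308128), (nat_lit 5491716)]) (FT.cons (FT.leaf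 [(nat_lit 5642190)]) (FT.cons (FT.leaf [(nat_lit 5975130)]) FT.nil))))))) (FT.cons (FT.cons (FT.leaf [(nat_lit 4544350), (nat_lit 4711570), (nat_lit 4885741), (nat_lit 5064992), (nat_lit 5247918), (nat_lit 5433429)]) (FT.cons (FT.leaf [(nat_lit 4862663), (nat_lit 5037474), (nat_lit 5216871), (nat_lit 5399540), (nat_lit 5584464)]) (FT.cons (FT.leaf [(nat_lit 5188599), (nat_lit 5367917), (nat_lit 5550149), (nat_lit 5734343)]) (FT.cons (FT.leaf [(nat_lit 5518024), (nat_lit 5699664)]) (FT.cons (FT.leaf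
 [(nat_lit 5848017)]) (FT.cons (FT.leaf [(nat_lit 6176490)]) FT.nil)))))) (FT.cons (FT.cons (FT.leaf [(nat_lit 5075777), (nat_lit 5249454), (nat_lit 5427358), (nat_lit 5608236), (nat_lit 5791127)]) (FT.cons (FT.leaf [(nat_lit 5398826), (nat_lit 5576485), (nat_lit 5756798), (nat_lit 5938861)]) (FT.cons (FT.leaf [(nat_lit 5724601), (nat_lit 5904216)]) (FT.cons (FT.leaf [(nat_lit 6050433)]) (FT.cons (FT.leaf [(nat_lit 6374421)]) FT.nil))))) (FT.cons (FT.cons (FT.leaf [(nat_lit 5605874), (nat_lit 5781768), (nat_lit 5960087)]) (FT.cons (FT.leaf [(nat_lit 5927861), (nat_lit 6105395)]) (FT.cons (FT.leaf [(nat_lit 6249477)]) FT.nil))) (FT.cons (FT.cons (FT.leaf [(nat_lit 6127821)]) (FT.cons (FT.leaf [(nat_lit 6445194)]) FT.nil)) (FT.cons (FT.cons (FT.leaf [(nat_lit 6637640)]) FT.nil) FT.nil)))))) (FT.cons (FT.cons (FT.cons (FT.leaf [(nat_lit 4914392), (nat_lit 5078200), (nat_lit 5248483), (nat_lit 5423455), (nat_lit 5601787), (nat_lit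 5782457)]) (FT.cons (FT.leaf [(nat_lit 5225406), (nat_lit 5396128), (nat_lit 5571094), (nat_lit 5749062), (nat_lit 5929078)]) (FT.cons (FT.leaf [(nat_lit 5543084), (nat_lit 5717854), (nat_lit 5895307), (nat_lit 6074547)]) (FT.cons (FT.leaf [(nat_lit 5863648),
 (nat_lit 6040453)]) (FT.cons (FT.leaf [(nat_lit 6184447)]) (FT.cons (FT.leaf [(nat_lit 6503596)]) FT.nil)))))) (FT.cons (FT.cons (FT.leaf [(nat_lit 5432142), (nat_lit 5601623), (nat_lit 5775035), (nat_lit 5951193), (nat_lit 6129189)]) (FT.cons (FT.leaf [(nat_lit 5746814), (nat_lit 5919896), (nat_lit 6095435), (nat_lit 6272579)]) (FT.cons (FT.leaf [(nat_lit 6063736), (nat_lit 6238542)]) (FT.cons (FT.leaf [(nat_lit 6380472)]) (FT.cons (FT.leaf [(nat_lit 6695294)]) FT.nil))))) (FT.cons (FT.cons (FT.leaf [(nat_lit 5947447), (nat_lit 6118762), (nat_lit 6292334)]) (FT.cons (FT.leaf [(nat_lit 6260631), (nat_lit 6433402)]) (FT.cons (FT.leaf [(nat_lit 6573276)]) FT.nil))) (FT.cons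 (FT.cons (FT.leaf [(nat_lit 6454365)]) (FT.cons (FT.leaf [(nat_lit 6762912)]) FT.nil)) (FT.cons (FT.cons (FT.leaf [(nat_lit 6949437)]) FT.nil) FT.nil))))) (FT.cons (FT.cons (FT.cons (FT.leaf [(nat_lit 5776326), (nat_lit 5941694), (nat_lit 6110745), (nat_lit 6282349), (nat_lit 6455650)]) (FT.cons (FT.leaf [(nat_lit 6082856), (nat_lit 6251515), (nat_lit 6422467), (nat_lit 6594907)]) (FT.cons (FT.leaf [(nat_lit 6391268), (nat_lit 6561471)]) (FT.cons (FT.leaf [(nat_lit 6699325)]) FT.nil)))) (FT.cons (FT.cons (FT.leaf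
 [(nat_lit 6277379), (nat_lit 6444289), (nat_lit 6613317)]) (FT.cons (FT.leaf [(nat_lit 6582135), (nat_lit 6750357)]) (FT.cons (FT.leaf [(nat_lit 6886237)]) FT.nil))) (FT.cons (FT.cons (FT.leaf [(nat_lit 6769978)]) (FT.cons (FT.leaf [(nat_lit 7070135)]) FT.nil)) FT.nil))) (FT.cons (FT.cons (FT.cons (FT.leaf [(nat_lit 6596350), (nat_lit 6759035), (nat_lit 6923719)]) (FT.cons (FT.leaf [(nat_lit 6893052), (nat_lit 7056935)]) FT.nil)) (FT.cons (FT.cons (FT.leaf [(nat_lit 7075324)]) FT.nil) FT.nil)) (FT.cons (FT.cons (FT.cons (FT.leaf [(nat_lit 7371022)]) FT.nil) FT.nil) (FT.cons (FT.cons (FT.cons (FT.leaf [(nat_lit 8101036)]) FT.nil) FT.nil) (FT.cons (FT.cons (FT.cons (FT.leaf [(nat_lit 8788851)]) FT.nil) FT.nil) (FT.cons (FT.cons (FT.cons (FT.leaf [(nat_lit 9437612)]) FT.nil) FT.nil) FT.nil)))))))) (FT.cons (FT.cons (FT.cons (FT.cons (FT.leaf [(nat_lit 5908237), (nat_lit 6056171), (nat_lit 6210007), (nat_lit 6368169), (nat_lit 6529491),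 (nat_lit 6693080)]) (FT.cons (FT.leaf [(nat_lit 6188649), (nat_lit 6342982), (nat_lit 6501264), (nat_lit 6662403), (nat_lit 6825562)]) (FT.cons (FT.leaf [(nat_lit 6475459), (nat_lit 6633702), (nat_lit 6794529), (nat_lit 6957154)]) (FT.cons (FT.leaf
 [(nat_lit 6765409), (nat_lit 6925813)]) (FT.cons (FT.leaf [(nat_lit 7056207)]) (FT.cons (FT.leaf [(nat_lit 7346208)]) FT.nil)))))) (FT.cons (FT.cons (FT.leaf [(nat_lit 6374148), (nat_lit 6527577), (nat_lit 6684694), (nat_lit 6844453), (nat_lit 7006054)]) (FT.cons (FT.leaf [(nat_lit 6658682), (nat_lit 6815647), (nat_lit 6975006), (nat_lit 7136007)]) (FT.cons (FT.leaf [(nat_lit 6945823), (nat_lit 7104684)]) (FT.cons (FT.leaf [(nat_lit 7233447)]) (FT.cons (FT.leaf [(nat_lit 7520033)]) FT.nil))))) (FT.cons (FT.cons (FT.leaf [(nat_lit 6839467), (nat_lit 6995084), (nat_lit 7152925)]) (FT.cons (FT.leaf [(nat_lit 7123710), (nat_lit 7280990)]) (FT.cons (FT.leaf [(nat_lit 7408122)]) FT.nil)))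 (FT.cons (FT.cons (FT.leaf [(nat_lit 7299083)]) (FT.cons (FT.leaf [(nat_lit 7580262)]) FT.nil)) FT.nil)))) (FT.cons (FT.cons (FT.cons (FT.leaf [(nat_lit 6682026), (nat_lit 6832238), (nat_lit 6985930), (nat_lit 7142098), (nat_lit 7299982)]) (FT.cons (FT.leaf [(nat_lit 6960166), (nat_lit 7113646), (nat_lit 7269377), (nat_lit 7426641)]) (FT.cons (FT.leaf [(nat_lit 7240580), (nat_lit 7395789)]) (FT.cons (FT.leaf [(nat_lit 7521299)]) FT.nil)))) (FT.cons (FT.cons (FT.leaf [(nat_lit 7136114), (nat_lit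
 7288247), (nat_lit 7442478)]) (FT.cons (FT.leaf [(nat_lit 7413668), (nat_lit 7567324)]) (FT.cons (FT.leaf [(nat_lit 7691256)]) FT.nil))) (FT.cons (FT.cons (FT.leaf [(nat_lit 7584334)]) (FT.cons (FT.leaf [(nat_lit 7858781)]) FT.nil)) FT.nil))) (FT.cons (FT.cons (FT.cons (FT.leaf [(nat_lit 7424067), (nat_lit 7572830), (nat_lit 7723583)]) (FT.cons (FT.leaf [(nat_lit 7695177), (nat_lit 7845349)]) FT.nil)) (FT.cons (FT.cons (FT.leaf [(nat_lit 7861356)]) FT.nil) FT.nil)) (FT.cons (FT.cons (FT.cons (FT.leaf [(nat_lit 8130587)]) FT.nil) FT.nil) (FT.cons (FT.cons (FT.cons (FT.leaf [(nat_lit 8801215)]) FT.nil) FT.nil) (FT.cons (FT.cons (FT.cons (FT.leaf [(nat_lit 9437232)]) FT.nil) FT.nil) FT.nil)))))) (FT.cons (FT.cons (FT.cons (FT.cons (FT.leaf [(nat_lit 7490409), (nat_lit 7628588), (nat_lit 7770045), (nat_lit 7913876), (nat_lit 8059397)]) (FT.cons (FT.leaf [(nat_lit 7745990), (nat_lit 7887346), (nat_lit 8030878), (nat_lit 8175938)])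 (FT.cons (FT.leaf [(nat_lit 8004023), (nat_lit 8147179)]) (FT.cons (FT.leaf [(nat_lit 8262751)]) FT.nil)))) (FT.cons (FT.cons (FT.leaf [(nat_lit 7907147), (nat_lit 8047428), (nat_lit 8189750)]) (FT.cons (FT.leaf [(nat_lit 8162864), (nat_lit 8304763)])
 (FT.cons (FT.leaf [(nat_lit 8419033)]) FT.nil))) (FT.cons (FT.cons (FT.leaf [(nat_lit 8319706)]) FT.nil) FT.nil))) (FT.cons (FT.cons (FT.cons (FT.leaf [(nat_lit 8170349), (nat_lit 8307860), (nat_lit 8447313)]) (FT.cons (FT.leaf [(nat_lit 8420756), (nat_lit 8559774)]) FT.nil)) (FT.cons (FT.cons (FT.leaf [(nat_lit 8573881)]) FT.nil) FT.nil)) (FT.cons (FT.cons (FT.cons (FT.leaf [(nat_lit 8821588)]) FT.nil) FT.nil) (FT.cons (FT.cons (FT.cons (FT.leaf [(nat_lit 9443235)]) FT.nil) FT.nil) FT.nil)))) (FT.cons (FT.cons (FT.cons (FT.cons (FT.leaf [(nat_lit 8851242)]) FT.nil) FT.nil) (FT.cons (FT.cons (FT.cons (FT.leaf [(nat_lit 9456523)]) FT.nil) FT.nil) FT.nil)) (FT.cons (FT.cons (FT.cons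 (FT.cons (FT.leaf [(nat_lit 10044607)]) FT.nil) FT.nil) FT.nil) (FT.cons (FT.cons (FT.cons (FT.cons (FT.leaf [(nat_lit 11107187)]) FT.nil) FT.nil) FT.nil) (FT.cons (FT.cons (FT.cons (FT.cons (FT.leaf [(nat_lit 12064899)]) FT.nil) FT.nil) FT.nil) FT.nil))))))))

def f128_1_400 : FT := (FT.cons (FT.cons (FT.cons (FT.cons (FT.leaf [(nat_lit 2577285), (nat_lit 2753379), (nat_lit 2942712), (nat_lit 3141841), (nat_lit 3348223), (nat_lit 3559897), (nat_lit 3775308), (nat_lit 3993201)]) (FT.cons (FT.leaf [(nat_lit 2926556), (nat_lit 3118486), (nat_lit 3319206), (nat_lit 3526351), (nat_lit 3738103), (nat_lit 3953030), (nat_lit 4169981)]) (FT.cons (FT.leaf [(nat_lit 3294424), (nat_lit 3496206), (nat_lit 3703685), (nat_lit 3915174), (nat_lit 4129346)]) (FT.cons (FT.leaf [(nat_lit 3672552), (nat_lit 3880003), (nat_lit 4090938), (nat_lit 4304126)]) (FT.cons (FT.leaf [(nat_lit 4055119), (nat_lit 4265255)]) (FT.cons (FT.leaf [(nat_lit 4438012)])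 (FT.cons (FT.leaf [(nat_lit 4818323)]) FT.nil))))))) (FT.cons (FT.cons (FT.leaf [(nat_lit 3179207), (nat_lit 3371015), (nat_lit 3570850), (nat_lit 3776458), (nat_lit 3986131), (nat_lit 4198535)]) (FT.cons (FT.leaf [(nat_lit 3545358), (nat_lit 3745828), (nat_lit 3951430), (nat_lit 4160573), (nat_lit 4372019)]) (FT.cons (FT.leaf [(nat_lit 3919922), (nat_lit 4125213), (nat_lit 4333584), (nat_lit 4543884)]) (FT.cons (FT.leaf [(nat_lit 4297661), (nat_lit 4505057)]) (FT.cons (FT.leaf [(nat_lit 4674902)]) (FT.cons (FT.leaf [(nat_lit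
 5049063)]) FT.nil)))))) (FT.cons (FT.cons (FT.leaf [(nat_lit 3792520), (nat_lit 3991343), (nat_lit 4194812), (nat_lit 4401425), (nat_lit 4610022)]) (FT.cons (FT.leaf [(nat_lit 4163021), (nat_lit 4365955), (nat_lit 4571625), (nat_lit 4778950)]) (FT.cons (FT.leaf [(nat_lit 4535663), (nat_lit 4740221)]) (FT.cons (FT.leaf [(nat_lit 4907146)]) (FT.cons (FT.leaf [(nat_lit 5275161)]) FT.nil))))) (FT.cons (FT.cons (FT.leaf [(nat_lit 4401772), (nat_lit 4602206), (nat_lit 4805082)]) (FT.cons (FT.leaf [(nat_lit 4769136), (nat_lit 4970795)]) (FT.cons (FT.leaf [(nat_lit 5134812)]) FT.nil))) (FT.cons (FT.cons (FT.leaf [(nat_lit 4998123)]) (FT.cons (FT.leaf [(nat_lit 5357985)]) FT.nil)) (FT.cons (FT.cons (FT.leaf [(nat_lit 5576767)]) FT.nil) (FT.cons (FT.cons (FT.leaf [(nat_lit 6135353)]) FT.nil) FT.nil))))))) (FT.cons (FT.cons (FT.cons (FT.leaf [(nat_lit 3613339), (nat_lit 3800497), (nat_lit 3995002), (nat_lit 4194728), (nat_lit 4398083), (nat_lit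 4603839), (nat_lit 4811022), (nat_lit 5018856)]) (FT.cons (FT.leaf [(nat_lit 3969539), (nat_lit 4164385), (nat_lit 4363891), (nat_lit 4566572), (nat_lit 4771287), (nat_lit 4977133), (nat_lit 5183394)]) (FT.cons (FT.leaf [(nat_lit 4332764), (nat_lit
 4531799), (nat_lit 4733611), (nat_lit 4937133), (nat_lit 5141527)]) (FT.cons (FT.leaf [(nat_lit 4698343), (nat_lit 4899118), (nat_lit 5101319), (nat_lit 5304166)]) (FT.cons (FT.leaf [(nat_lit 5063028), (nat_lit 5263801)]) (FT.cons (FT.leaf [(nat_lit 5424548)]) (FT.cons (FT.leaf [(nat_lit 5781317)]) FT.nil))))))) (FT.cons (FT.cons (FT.leaf [(nat_lit 4207953), (nat_lit 4400995), (nat_lit 4598290), (nat_lit 4798431), (nat_lit 5000342), (nat_lit 5203180)]) (FT.cons (FT.leaf [(nat_lit 4566947), (nat_lit 4763599), (nat_lit 4962741), (nat_lit 5163367), (nat_lit 5364693)]) (FT.cons (FT.leaf [(nat_lit 4927474), (nat_lit 5125477), (nat_lit 5324713), (nat_lit 5524448)]) (FT.cons (FT.leaf [(nat_lit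 5286592), (nat_lit 5484349)]) (FT.cons (FT.leaf [(nat_lit 5642249)]) (FT.cons (FT.leaf [(nat_lit 5993032)]) FT.nil)))))) (FT.cons (FT.cons (FT.leaf [(nat_lit 4796920), (nat_lit 4991092), (nat_lit 5187508), (nat_lit 5385216), (nat_lit 5583478)]) (FT.cons (FT.leaf [(nat_lit 5152289), (nat_lit 5347487), (nat_lit 5543755), (nat_lit 5740398)]) (FT.cons (FT.leaf [(nat_lit 5505831), (nat_lit 5700586)]) (FT.cons (FT.leaf [(nat_lit 5855694)]) (FT.cons (FT.leaf [(nat_lit 6200597)]) FT.nil))))) (FT.cons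
 (FT.cons (FT.leaf [(nat_lit 5372847), (nat_lit 5565230), (nat_lit 5758542)]) (FT.cons (FT.leaf [(nat_lit 5720843), (nat_lit 5912619)]) (FT.cons (FT.leaf [(nat_lit 6064992)]) FT.nil))) (FT.cons (FT.cons (FT.leaf [(nat_lit 5931726)]) (FT.cons (FT.leaf [(nat_lit 6270258)]) FT.nil)) (FT.cons (FT.cons (FT.leaf [(nat_lit 6471608)]) FT.nil) FT.nil)))))) (FT.cons (FT.cons (FT.cons (FT.leaf [(nat_lit 4606559), (nat_lit 4793971), (nat_lit 4985317), (nat_lit 5179274), (nat_lit 5374838), (nat_lit 5571225)]) (FT.cons (FT.leaf [(nat_lit 4954449), (nat_lit 5145086), (nat_lit 5338021), (nat_lit 5532310), (nat_lit 5727223)]) (FT.cons (FT.leaf [(nat_lit 5303444), (nat_lit 5495240), (nat_lit 5688168), (nat_lit 5881544)]) (FT.cons (FT.leaf [(nat_lit 5650894), (nat_lit 5842389)]) (FT.cons (FT.leaf [(nat_lit 5994956)]) (FT.cons (FT.leaf [(nat_lit 6334355)]) FT.nil)))))) (FT.cons (FT.cons (FT.leaf [(nat_lit 5176143), (nat_lit 5364355), (nat_lit 5554654),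 (nat_lit 5746145), (nat_lit 5938138)]) (FT.cons (FT.leaf [(nat_lit 5520147), (nat_lit 5709248), (nat_lit 5899341), (nat_lit 6089779)]) (FT.cons (FT.leaf [(nat_lit 5862274), (nat_lit 6050910)]) (FT.cons (FT.leaf [(nat_lit 6200842)]) (FT.cons (FT.leaf
 [(nat_lit 6534693)]) FT.nil))))) (FT.cons (FT.cons (FT.leaf [(nat_lit 5732826), (nat_lit 5919233), (nat_lit 6106514)]) (FT.cons (FT.leaf [(nat_lit 6069674), (nat_lit 6255484)]) (FT.cons (FT.leaf [(nat_lit 6402838)]) FT.nil))) (FT.cons (FT.cons (FT.leaf [(nat_lit 6273194)]) (FT.cons (FT.leaf [(nat_lit 6601053)]) FT.nil)) (FT.cons (FT.cons (FT.leaf [(nat_lit 6795596)]) FT.nil) FT.nil))))) (FT.cons (FT.cons (FT.cons (FT.leaf [(nat_lit 5540546), (nat_lit 5723106), (nat_lit 5907624), (nat_lit 6093257)]) (FT.cons (FT.leaf [(nat_lit 5873813), (nat_lit 6057162), (nat_lit 6241447)]) (FT.cons (FT.leaf [(nat_lit 6205202)]) FT.nil))) (FT.cons (FT.cons (FT.leaf [(nat_lit 6079123), (nat_lit 6259904)])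 (FT.cons (FT.leaf [(nat_lit 6405499)]) FT.nil)) (FT.cons (FT.cons (FT.leaf [(nat_lit 6602147)]) FT.nil) FT.nil))) (FT.cons (FT.cons (FT.cons (FT.leaf [(nat_lit 6412711)]) FT.nil) (FT.cons (FT.cons (FT.leaf [(nat_lit 6919468)]) FT.nil) FT.nil)) (FT.cons (FT.cons (FT.cons (FT.leaf [(nat_lit 7225955)]) FT.nil) FT.nil) (FT.cons (FT.cons (FT.cons (FT.leaf [(nat_lit 7985088)]) FT.nil) FT.nil) (FT.cons (FT.cons (FT.cons (FT.leaf [(nat_lit 8695306)]) FT.nil) FT.nil) (FT.cons (FT.cons (FT.cons (FT.leaf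
 [(nat_lit 9361569)]) FT.nil) FT.nil) FT.nil))))))))) (FT.cons (FT.cons (FT.cons (FT.cons (FT.leaf [(nat_lit 4786097), (nat_lit 4951377), (nat_lit 5123266), (nat_lit 5299944), (nat_lit 5480062), (nat_lit 5662579), (nat_lit 5846670), (nat_lit 6031675)]) (FT.cons (FT.leaf [(nat_lit 5100108), (nat_lit 5272478), (nat_lit 5449181), (nat_lit 5628954), (nat_lit 5810822), (nat_lit 5994019), (nat_lit 6177927)]) (FT.cons (FT.leaf [(nat_lit 5421013), (nat_lit 5597540), (nat_lit 5776807), (nat_lit 5957900), (nat_lit 6140103)]) (FT.cons (FT.leaf [(nat_lit 5744929), (nat_lit 5923552), (nat_lit 6103762), (nat_lit 6284887)]) (FT.cons (FT.leaf [(nat_lit 6069132), (nat_lit 6248366)]) (FT.cons (FT.leaf [(nat_lit 6391679)]) (FT.cons (FT.leaf [(nat_lit 6711181)]) FT.nil))))))) (FT.cons (FT.cons (FT.leaf [(nat_lit 5309220), (nat_lit 5480359), (nat_lit 5655506), (nat_lit 5833454), (nat_lit 6013282), (nat_lit 6194263)]) (FT.cons (FT.leaf [(nat_lit 5627116),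 (nat_lit 5801945), (nat_lit 5979278), (nat_lit 6158248), (nat_lit 6338176)]) (FT.cons (FT.leaf [(nat_lit 5947355), (nat_lit 6123954), (nat_lit 6301974), (nat_lit 6480778)]) (FT.cons (FT.leaf [(nat_lit 6267436), (nat_lit 6444427)]) (FT.cons (FT.leaf
 [(nat_lit 6585582)]) (FT.cons (FT.leaf [(nat_lit 6900526)]) FT.nil)))))) (FT.cons (FT.cons (FT.leaf [(nat_lit 5830077), (nat_lit 6003122), (nat_lit 6178463), (nat_lit 6355276), (nat_lit 6532916)]) (FT.cons (FT.leaf [(nat_lit 6146532), (nat_lit 6321066), (nat_lit 6496877), (nat_lit 6673358)]) (FT.cons (FT.leaf [(nat_lit 6462456), (nat_lit 6637197)]) (FT.cons (FT.leaf [(nat_lit 6776218)]) (FT.cons (FT.leaf [(nat_lit 7086658)]) FT.nil))))) (FT.cons (FT.cons (FT.leaf [(nat_lit 6342488), (nat_lit 6514932), (nat_lit 6688526)]) (FT.cons (FT.leaf [(nat_lit 6654245), (nat_lit 6826738)]) (FT.cons (FT.leaf [(nat_lit 6963655)]) FT.nil))) (FT.cons (FT.cons (FT.leaf [(nat_lit 6842860)]) (FT.cons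 (FT.leaf [(nat_lit 7147963)]) FT.nil)) (FT.cons (FT.cons (FT.leaf [(nat_lit 7329213)]) FT.nil) FT.nil)))))) (FT.cons (FT.cons (FT.cons (FT.leaf [(nat_lit 5657770), (nat_lit 5824739), (nat_lit 5995456), (nat_lit 6168773), (nat_lit 6343819), (nat_lit 6519911)]) (FT.cons (FT.leaf [(nat_lit 5967397), (nat_lit 6137728), (nat_lit 6310392), (nat_lit 6484567), (nat_lit 6659615)]) (FT.cons (FT.leaf [(nat_lit 6278973), (nat_lit 6450881), (nat_lit 6624107), (nat_lit 6798050)]) (FT.cons (FT.leaf [(nat_lit 6590203),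
 (nat_lit 6762413)]) (FT.cons (FT.leaf [(nat_lit 6899466)]) (FT.cons (FT.leaf [(nat_lit 7205604)]) FT.nil)))))) (FT.cons (FT.cons (FT.leaf [(nat_lit 6164124), (nat_lit 6332685), (nat_lit 6503397), (nat_lit 6675476), (nat_lit 6848315)]) (FT.cons (FT.leaf [(nat_lit 6471991), (nat_lit 6641889), (nat_lit 6812978), (nat_lit 6984685)]) (FT.cons (FT.leaf [(nat_lit 6779202), (nat_lit 6949243)]) (FT.cons (FT.leaf [(nat_lit 7084259)]) (FT.cons (FT.leaf [(nat_lit 7386097)]) FT.nil))))) (FT.cons (FT.cons (FT.leaf [(nat_lit 6661929), (nat_lit 6829802), (nat_lit 6998754)]) (FT.cons (FT.leaf [(nat_lit 6965126), (nat_lit 7133007)]) (FT.cons (FT.leaf [(nat_lit 7266017)]) FT.nil))) (FT.cons (FT.cons (FT.leaf [(nat_lit 7148033)]) (FT.cons (FT.leaf [(nat_lit 7444808)]) FT.nil)) (FT.cons (FT.cons (FT.leaf [(nat_lit 7620703)]) FT.nil) FT.nil))))) (FT.cons (FT.cons (FT.cons (FT.leaf [(nat_lit 6486959), (nat_lit 6651216), (nat_lit 6817501), (nat_lit 6985069),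 (nat_lit 7153342)]) (FT.cons (FT.leaf [(nat_lit 6786616), (nat_lit 6952090), (nat_lit 7118686), (nat_lit 7285860)]) (FT.cons (FT.leaf [(nat_lit 7085538), (nat_lit 7251113)]) (FT.cons (FT.leaf [(nat_lit 7382338)]) FT.nil)))) (FT.cons (FT.cons (FT.leaf
 [(nat_lit 6970864), (nat_lit 7134381), (nat_lit 7298923)]) (FT.cons (FT.leaf [(nat_lit 7265927), (nat_lit 7429429)]) (FT.cons (FT.leaf [(nat_lit 7558743)]) FT.nil))) (FT.cons (FT.cons (FT.leaf [(nat_lit 7443450)]) (FT.cons (FT.leaf [(nat_lit 7732335)]) FT.nil)) FT.nil))) (FT.cons (FT.cons (FT.cons (FT.leaf [(nat_lit 7269926), (nat_lit 7429298), (nat_lit 7589647)]) (FT.cons (FT.leaf [(nat_lit 7557262), (nat_lit 7716605)]) FT.nil)) (FT.cons (FT.cons (FT.leaf [(nat_lit 7729701)]) FT.nil) FT.nil)) (FT.cons (FT.cons (FT.cons (FT.leaf [(nat_lit 8007332)]) FT.nil) FT.nil) (FT.cons (FT.cons (FT.cons (FT.leaf [(nat_lit 8701710)]) FT.nil) FT.nil) (FT.cons (FT.cons (FT.cons (FT.leaf [(nat_lit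 9356278)]) FT.nil) FT.nil) (FT.cons (FT.cons (FT.cons (FT.leaf [(nat_lit 9974374)]) FT.nil) FT.nil) FT.nil)))))))) (FT.cons (FT.cons (FT.cons (FT.cons (FT.leaf [(nat_lit 6576076), (nat_lit 6727547), (nat_lit 6882553), (nat_lit 7040078), (nat_lit 7199348), (nat_lit 7359762)]) (FT.cons (FT.leaf [(nat_lit 6856656), (nat_lit 7011461), (nat_lit 7168551), (nat_lit 7327199), (nat_lit 7486836)]) (FT.cons (FT.leaf [(nat_lit 7139580), (nat_lit 7296147), (nat_lit 7454102), (nat_lit 7612907)]) (FT.cons (FT.leaf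
 [(nat_lit 7422833), (nat_lit 7580033)]) (FT.cons (FT.leaf [(nat_lit 7704972)]) (FT.cons (FT.leaf [(nat_lit 7984955)]) FT.nil)))))) (FT.cons (FT.cons (FT.leaf [(nat_lit 7034351), (nat_lit 7187797), (nat_lit 7343371), (nat_lit 7500375), (nat_lit 7658267)]) (FT.cons (FT.leaf [(nat_lit 7314383), (nat_lit 7469379), (nat_lit 7625650), (nat_lit 7782682)]) (FT.cons (FT.leaf [(nat_lit 7594462), (nat_lit 7749946)]) (FT.cons (FT.leaf [(nat_lit 7873247)]) (FT.cons (FT.leaf [(nat_lit 8149771)]) FT.nil))))) (FT.cons (FT.cons (FT.leaf [(nat_lit 7486725), (nat_lit 7640130), (nat_lit 7794709)]) (FT.cons (FT.leaf [(nat_lit 7763619), (nat_lit 7917385)]) (FT.cons (FT.leaf [(nat_lit 8039067)]) FT.nil))) (FT.cons (FT.cons (FT.leaf [(nat_lit 7930342)]) (FT.cons (FT.leaf [(nat_lit 8202477)]) FT.nil)) FT.nil)))) (FT.cons (FT.cons (FT.cons (FT.leaf [(nat_lit 7325368), (nat_lit 7475394), (nat_lit 7627435), (nat_lit 7780822), (nat_lit 7935039)]) (FT.cons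 (FT.leaf [(nat_lit 7598854), (nat_lit 7750308), (nat_lit 7902966), (nat_lit 8056339)]) (FT.cons (FT.leaf [(nat_lit 7872277), (nat_lit 8024159)]) (FT.cons (FT.leaf [(nat_lit 8144388)]) FT.nil)))) (FT.cons (FT.cons (FT.leaf [(nat_lit 7766626), (nat_lit
 7916529), (nat_lit 8067546)]) (FT.cons (FT.leaf [(nat_lit 8036962), (nat_lit 8187182)]) (FT.cons (FT.leaf [(nat_lit 8305855)]) FT.nil))) (FT.cons (FT.cons (FT.leaf [(nat_lit 8199316)]) (FT.cons (FT.leaf [(nat_lit 8465019)]) FT.nil)) FT.nil))) (FT.cons (FT.cons (FT.cons (FT.leaf [(nat_lit 8038575), (nat_lit 8185118), (nat_lit 8332723)]) (FT.cons (FT.leaf [(nat_lit 8302632), (nat_lit 8449457)]) FT.nil)) (FT.cons (FT.cons (FT.leaf [(nat_lit 8460830)]) FT.nil) FT.nil)) (FT.cons (FT.cons (FT.cons (FT.leaf [(nat_lit 8715275)]) FT.nil) FT.nil) (FT.cons (FT.cons (FT.cons (FT.leaf [(nat_lit 9356756)]) FT.nil) FT.nil) (FT.cons (FT.cons (FT.cons (FT.leaf [(nat_lit 9965058)]) FT.nil) FT.nil)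 FT.nil)))))) (FT.cons (FT.cons (FT.cons (FT.cons (FT.leaf [(nat_lit 8080194), (nat_lit 8218745), (nat_lit 8359263), (nat_lit 8501143), (nat_lit 8643914)]) (FT.cons (FT.leaf [(nat_lit 8332562), (nat_lit 8472644), (nat_lit 8613958), (nat_lit 8756059)]) (FT.cons (FT.leaf [(nat_lit 8585285), (nat_lit 8725991)]) (FT.cons (FT.leaf [(nat_lit 8837229)]) FT.nil)))) (FT.cons (FT.cons (FT.leaf [(nat_lit 8487008), (nat_lit 8625822), (nat_lit 8765788)]) (FT.cons (FT.leaf [(nat_lit 8737188), (nat_lit 8876523)])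
 (FT.cons (FT.leaf [(nat_lit 8986462)]) FT.nil))) (FT.cons (FT.cons (FT.leaf [(nat_lit 8887146)]) FT.nil) FT.nil))) (FT.cons (FT.cons (FT.cons (FT.leaf [(nat_lit 8736974), (nat_lit 8872993), (nat_lit 9010109)]) (FT.cons (FT.leaf [(nat_lit 8981919), (nat_lit 9118414)]) FT.nil)) (FT.cons (FT.cons (FT.leaf [(nat_lit 9128396)]) FT.nil) FT.nil)) (FT.cons (FT.cons (FT.cons (FT.leaf [(nat_lit 9363716)]) FT.nil) FT.nil) (FT.cons (FT.cons (FT.cons (FT.leaf [(nat_lit 9960978)]) FT.nil) FT.nil) FT.nil)))) (FT.cons (FT.cons (FT.cons (FT.cons (FT.leaf [(nat_lit 9378067)]) FT.nil) FT.nil) (FT.cons (FT.cons (FT.cons (FT.leaf [(nat_lit 9962799)]) FT.nil) FT.nil) FT.nil)) (FT.cons (FT.cons (FT.cons (FT.cons (FT.leaf [(nat_lit 10520175)]) FT.nil) FT.nil) FT.nil) (FT.cons (FT.cons (FT.cons (FT.cons (FT.leaf [(nat_lit 11540421)]) FT.nil) FT.nil) FT.nil) (FT.cons (FT.cons (FT.cons (FT.cons (FT.leaf [(nat_lit 12462661)]) FT.nil) FT.nil) FT.nil) FT.nil))))))))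

def f128_1_600 : FT := (FT.cons (FT.cons (FT.cons (FT.cons (FT.leaf [(nat_lit 3261706), (nat_lit 3429466), (nat_lit 3609298), (nat_lit 3797981), (nat_lit 3993177), (nat_lit 4193111), (nat_lit 4396389), (nat_lit 4601898)]) (FT.cons (FT.leaf [(nat_lit 3593242), (nat_lit 3775194), (nat_lit 3965123), (nat_lit 4160856), (nat_lit 4360748), (nat_lit 4563512), (nat_lit 4768125)]) (FT.cons (FT.leaf [(nat_lit 3941055), (nat_lit 4131795), (nat_lit 4327719), (nat_lit 4527293), (nat_lit 4729326)]) (FT.cons (FT.leaf [(nat_lit 4297774), (nat_lit 4493592), (nat_lit 4692615), (nat_lit 4893733)]) (FT.cons (FT.leaf [(nat_lit 4658334), (nat_lit 4856605)]) (FT.cons (FT.leaf [(nat_lit 5019180)]) FT.nil)))))) (FT.cons (FT.cons (FT.leaf [(nat_lit 3830610), (nat_lit 4012199), (nat_lit 4201130), (nat_lit 4395332), (nat_lit 4593252), (nat_lit 4793686)]) (FT.cons (FT.leaf [(nat_lit 4176451), (nat_lit 4365862), (nat_lit 4559992), (nat_lit 4757390), (nat_lit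 4956938)]) (FT.cons (FT.leaf [(nat_lit 4529731), (nat_lit 4723536), (nat_lit 4920216), (nat_lit 5118723)]) (FT.cons (FT.leaf [(nat_lit 4885853), (nat_lit 5081644)]) (FT.cons (FT.leaf [(nat_lit 5241609)]) FT.nil))))) (FT.cons (FT.cons (FT.leaf [(nat_lit 4408325), (nat_lit
 4596161), (nat_lit 4788312), (nat_lit 4983403), (nat_lit 5180380)]) (FT.cons (FT.leaf [(nat_lit 4757809), (nat_lit 4949460), (nat_lit 5143698), (nat_lit 5339538)]) (FT.cons (FT.leaf [(nat_lit 5109307), (nat_lit 5302550)]) FT.nil))) (FT.cons (FT.cons (FT.leaf [(nat_lit 4981973), (nat_lit 5171366)]) (FT.cons (FT.leaf [(nat_lit 5328722)]) FT.nil)) (FT.cons (FT.cons (FT.leaf [(nat_lit 5544148)]) FT.nil) (FT.cons (FT.cons (FT.leaf [(nat_lit 6090741)]) FT.nil) FT.nil)))))) (FT.cons (FT.cons (FT.cons (FT.leaf [(nat_lit 4235635), (nat_lit 4412867), (nat_lit 4596895), (nat_lit 4785756), (nat_lit 4977991), (nat_lit 5172479)]) (FT.cons (FT.leaf [(nat_lit 4572280), (nat_lit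 4756573), (nat_lit 4945208), (nat_lit 5136822), (nat_lit 5330372)]) (FT.cons (FT.leaf [(nat_lit 4915314), (nat_lit 5103512), (nat_lit 5294341), (nat_lit 5486824)]) (FT.cons (FT.leaf [(nat_lit 5260574), (nat_lit 5450480)]) (FT.cons (FT.leaf [(nat_lit 5605185)]) (FT.cons (FT.leaf [(nat_lit 5947120)]) FT.nil)))))) (FT.cons (FT.cons (FT.leaf [(nat_lit 4796314), (nat_lit 4978940), (nat_lit 5165562), (nat_lit 5354884), (nat_lit 5545918)]) (FT.cons (FT.leaf [(nat_lit 5135477), (nat_lit 5321524), (nat_lit 5509956), (nat_lit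
 5699850)]) (FT.cons (FT.leaf [(nat_lit 5476194), (nat_lit 5663618)]) (FT.cons (FT.leaf [(nat_lit 5815829)]) (FT.cons (FT.leaf [(nat_lit 6152544)]) FT.nil))))) (FT.cons (FT.cons (FT.leaf [(nat_lit 5351871), (nat_lit 5535692), (nat_lit 5721687)]) (FT.cons (FT.leaf [(nat_lit 5687966), (nat_lit 5872888)]) (FT.cons (FT.leaf [(nat_lit 6022630)]) FT.nil))) (FT.cons (FT.cons (FT.leaf [(nat_lit 5895951)]) (FT.cons (FT.leaf [(nat_lit 6225670)]) FT.nil)) (FT.cons (FT.cons (FT.leaf [(nat_lit 6425036)]) FT.nil) FT.nil))))) (FT.cons (FT.cons (FT.cons (FT.leaf [(nat_lit 5169484), (nat_lit 5347065), (nat_lit 5528375), (nat_lit 5712189), (nat_lit 5897579)]) (FT.cons (FT.leaf [(nat_lit 5498725), (nat_lit 5679413), (nat_lit 5862323), (nat_lit 6046585)]) (FT.cons (FT.leaf [(nat_lit 5829184), (nat_lit 6011090)]) (FT.cons (FT.leaf [(nat_lit 6158458)]) FT.nil)))) (FT.cons (FT.cons (FT.leaf [(nat_lit 5707787), (nat_lit 5886303), (nat_lit 6066858)]) (FT.cons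 (FT.leaf [(nat_lit 6033779), (nat_lit 6213278)]) (FT.cons (FT.leaf [(nat_lit 6358298)]) FT.nil))) (FT.cons (FT.cons (FT.leaf [(nat_lit 6234786)]) (FT.cons (FT.leaf [(nat_lit 6554590)]) FT.nil)) FT.nil))) (FT.cons (FT.cons (FT.cons (FT.leaf [(nat_lit
 6050653)]) FT.nil) (FT.cons (FT.cons (FT.leaf [(nat_lit 6561539)]) FT.nil) FT.nil)) (FT.cons (FT.cons (FT.cons (FT.leaf [(nat_lit 6877024)]) FT.nil) FT.nil) (FT.cons (FT.cons (FT.cons (FT.leaf [(nat_lit 7650853)]) FT.nil) FT.nil) (FT.cons (FT.cons (FT.cons (FT.leaf [(nat_lit 8376036)]) FT.nil) FT.nil) FT.nil))))))) (FT.cons (FT.cons (FT.cons (FT.cons (FT.leaf [(nat_lit 5322863), (nat_lit 5480803), (nat_lit 5644930), (nat_lit 5813533), (nat_lit 5985355), (nat_lit 6159429)]) (FT.cons (FT.leaf [(nat_lit 5622397), (nat_lit 5786929), (nat_lit 5955528), (nat_lit 6127014), (nat_lit 6300485)]) (FT.cons (FT.leaf [(nat_lit 5928278), (nat_lit 6096698), (nat_lit 6267711), (nat_lit 6440469)]) (FT.cons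 (FT.leaf [(nat_lit 6236966), (nat_lit 6407387)]) (FT.cons (FT.leaf [(nat_lit 6545993)]) (FT.cons (FT.leaf [(nat_lit 6853599)]) FT.nil)))))) (FT.cons (FT.cons (FT.leaf [(nat_lit 5820837), (nat_lit 5984203), (nat_lit 6151351), (nat_lit 6321153), (nat_lit 6492751)]) (FT.cons (FT.leaf [(nat_lit 6123905), (nat_lit 6290755), (nat_lit 6459992), (nat_lit 6630808)]) (FT.cons (FT.leaf [(nat_lit 6429209), (nat_lit 6597778)]) (FT.cons (FT.leaf [(nat_lit 6734473)]) (FT.cons (FT.leaf [(nat_lit 7038075)])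
 FT.nil))))) (FT.cons (FT.cons (FT.leaf [(nat_lit 6316659), (nat_lit 6481870), (nat_lit 6649286)]) (FT.cons (FT.leaf [(nat_lit 6618498), (nat_lit 6785183)]) (FT.cons (FT.leaf [(nat_lit 6919975)]) FT.nil))) (FT.cons (FT.cons (FT.leaf [(nat_lit 6804862)]) (FT.cons (FT.leaf [(nat_lit 7102546)]) FT.nil)) FT.nil)))) (FT.cons (FT.cons (FT.cons (FT.leaf [(nat_lit 6150471), (nat_lit 6310023), (nat_lit 6473133), (nat_lit 6638723), (nat_lit 6805981)]) (FT.cons (FT.leaf [(nat_lit 6445999), (nat_lit 6608757), (nat_lit 6773753), (nat_lit 6940221)]) (FT.cons (FT.leaf [(nat_lit 6743437), (nat_lit 6907750)]) (FT.cons (FT.leaf [(nat_lit 7040681)]) FT.nil)))) (FT.cons (FT.cons (FT.leaf [(nat_lit 6633119), (nat_lit 6794256), (nat_lit 6957471)]) (FT.cons (FT.leaf [(nat_lit 6927167), (nat_lit 7089647)]) (FT.cons (FT.leaf [(nat_lit 7220749)]) FT.nil))) (FT.cons (FT.cons (FT.leaf [(nat_lit 7108098)]) (FT.cons (FT.leaf [(nat_lit 7398023)]) FT.nil)) FT.nil)))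 (FT.cons (FT.cons (FT.cons (FT.leaf [(nat_lit 6939504), (nat_lit 7096730), (nat_lit 7255923)]) (FT.cons (FT.leaf [(nat_lit 7226098), (nat_lit 7384560)]) FT.nil)) (FT.cons (FT.cons (FT.leaf [(nat_lit 7401880)]) FT.nil) FT.nil)) (FT.cons (FT.cons
 (FT.cons (FT.leaf [(nat_lit 7686757)]) FT.nil) FT.nil) (FT.cons (FT.cons (FT.cons (FT.leaf [(nat_lit 8392684)]) FT.nil) FT.nil) (FT.cons (FT.cons (FT.cons (FT.leaf [(nat_lit 9059379)]) FT.nil) FT.nil) FT.nil)))))) (FT.cons (FT.cons (FT.cons (FT.cons (FT.leaf [(nat_lit 7016021), (nat_lit 7161635), (nat_lit 7310613), (nat_lit 7461994), (nat_lit 7615051)]) (FT.cons (FT.leaf [(nat_lit 7285450), (nat_lit 7434237), (nat_lit 7585214), (nat_lit 7737694)]) (FT.cons (FT.leaf [(nat_lit 7557126), (nat_lit 7707619)]) (FT.cons (FT.leaf [(nat_lit 7829180)]) FT.nil)))) (FT.cons (FT.cons (FT.leaf [(nat_lit 7455521), (nat_lit 7603044), (nat_lit 7752615)]) (FT.cons (FT.leaf [(nat_lit 7724513), (nat_lit 7873553)])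 (FT.cons (FT.leaf [(nat_lit 7993633)]) FT.nil))) (FT.cons (FT.cons (FT.leaf [(nat_lit 7889633)]) FT.nil) FT.nil))) (FT.cons (FT.cons (FT.cons (FT.leaf [(nat_lit 7733462), (nat_lit 7877831), (nat_lit 8024148)]) (FT.cons (FT.leaf [(nat_lit 7996426), (nat_lit 8142204)]) FT.nil)) (FT.cons (FT.cons (FT.leaf [(nat_lit 8157356)]) FT.nil) FT.nil)) (FT.cons (FT.cons (FT.cons (FT.leaf [(nat_lit 8417810)]) FT.nil) FT.nil) (FT.cons (FT.cons (FT.cons (FT.leaf [(nat_lit 9068635)]) FT.nil) FT.nil)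
 FT.nil)))) (FT.cons (FT.cons (FT.cons (FT.cons (FT.leaf [(nat_lit 8452724)]) FT.nil) FT.nil) (FT.cons (FT.cons (FT.cons (FT.leaf [(nat_lit 9085567)]) FT.nil) FT.nil) FT.nil)) (FT.cons (FT.cons (FT.cons (FT.cons (FT.leaf [(nat_lit 9701114)]) FT.nil) FT.nil) FT.nil) (FT.cons (FT.cons (FT.cons (FT.cons (FT.leaf [(nat_lit 10805390)]) FT.nil) FT.nil) FT.nil) (FT.cons (FT.cons (FT.cons (FT.cons (FT.leaf [(nat_lit 11795776)]) FT.nil) FT.nil) FT.nil) (FT.cons (FT.cons (FT.cons (FT.cons (FT.leaf [(nat_lit 12693852)]) FT.nil) FT.nil) FT.nil) FT.nil))))))))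

def f128_1_750 : FT := (FT.cons (FT.cons (FT.cons (FT.cons (FT.leaf [(nat_lit 3827879), (nat_lit 3985623), (nat_lit 4154762), (nat_lit 4332303), (nat_lit 4516083), (nat_lit 4704460), (nat_lit 4896149), (nat_lit 5090123), (nat_lit 5285552), (nat_lit 5481755)]) (FT.cons (FT.leaf [(nat_lit 4139363), (nat_lit 4310574), (nat_lit 4489392), (nat_lit 4673802), (nat_lit 4862283), (nat_lit 5053644), (nat_lit 5246938), (nat_lit 5441399), (nat_lit 5636401)]) (FT.cons (FT.leaf [(nat_lit 4466454), (nat_lit 4646155), (nat_lit 4830882), (nat_lit 5019215), (nat_lit 5210049), (nat_lit 5402505), (nat_lit 5595874)]) (FT.cons (FT.leaf [(nat_lit 4802389), (nat_lit 4987164), (nat_lit 5175135), (nat_lit 5365270), (nat_lit 5556754)]) (FT.cons (FT.leaf [(nat_lit 5142517), (nat_lit 5329941), (nat_lit 5519233), (nat_lit 5709629)]) (FT.cons (FT.leaf [(nat_lit 5483551), (nat_lit 5671874)]) (FT.cons (FT.leaf [(nat_lit 5823146)]) FT.nil))))))) (FT.cons (FT.cons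 (FT.leaf [(nat_lit 4361855), (nat_lit 4532899), (nat_lit 4710979), (nat_lit 4894171), (nat_lit 5081032), (nat_lit 5270446), (nat_lit 5461525), (nat_lit 5653557)]) (FT.cons (FT.leaf [(nat_lit 4687455), (nat_lit 4866118), (nat_lit 5049386), (nat_lit 5235910), (nat_lit 5424650),
 (nat_lit 5614782), (nat_lit 5805642)]) (FT.cons (FT.leaf [(nat_lit 5020573), (nat_lit 5203687), (nat_lit 5389692), (nat_lit 5577614), (nat_lit 5766683)]) (FT.cons (FT.leaf [(nat_lit 5356966), (nat_lit 5542295), (nat_lit 5729275), (nat_lit 5917187)]) (FT.cons (FT.leaf [(nat_lit 5693651), (nat_lit 5879584)]) (FT.cons (FT.leaf [(nat_lit 6028505)]) FT.nil)))))) (FT.cons (FT.cons (FT.leaf [(nat_lit 4905454), (nat_lit 5082853), (nat_lit 5264489), (nat_lit 5449078), (nat_lit 5635636), (nat_lit 5823387)]) (FT.cons (FT.leaf [(nat_lit 5235423), (nat_lit 5416739), (nat_lit 5600681), (nat_lit 5786324), (nat_lit 5972945)]) (FT.cons (FT.leaf [(nat_lit 5567897), (nat_lit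 5751056), (nat_lit 5935681), (nat_lit 6121091)]) (FT.cons (FT.leaf [(nat_lit 5900151), (nat_lit 6083668)]) (FT.cons (FT.leaf [(nat_lit 6230256)]) FT.nil))))) (FT.cons (FT.cons (FT.leaf [(nat_lit 5446896), (nat_lit 5626310), (nat_lit 5808116)]) (FT.cons (FT.leaf [(nat_lit 5775317), (nat_lit 5956258)]) (FT.cons (FT.leaf [(nat_lit 6103096)]) FT.nil))) (FT.cons (FT.cons (FT.leaf [(nat_lit 5979256)]) (FT.cons (FT.leaf [(nat_lit 6302542)]) FT.nil)) (FT.cons (FT.cons (FT.leaf [(nat_lit 6498553)]) FT.nil) FT.nil)))))) (FT.cons (FT.cons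
 (FT.cons (FT.leaf [(nat_lit 4740956), (nat_lit 4908320), (nat_lit 5082227), (nat_lit 5260846), (nat_lit 5442817), (nat_lit 5627093), (nat_lit 5812851), (nat_lit 5999430)]) (FT.cons (FT.leaf [(nat_lit 5058724), (nat_lit 5233014), (nat_lit 5411562), (nat_lit 5593094), (nat_lit 5776634), (nat_lit 5961415), (nat_lit 6146823)]) (FT.cons (FT.leaf [(nat_lit 5383041), (nat_lit 5561321), (nat_lit 5742261), (nat_lit 5924944), (nat_lit 6108654)]) (FT.cons (FT.leaf [(nat_lit 5710037), (nat_lit 5890252), (nat_lit 6071974), (nat_lit 6254532)]) (FT.cons (FT.leaf [(nat_lit 6037013), (nat_lit 6217686)]) (FT.cons (FT.leaf [(nat_lit 6362053)]) FT.nil)))))) (FT.cons (FT.cons (FT.leaf [(nat_lit 5269952), (nat_lit 5442879), (nat_lit 5619743), (nat_lit 5799332), (nat_lit 5980718), (nat_lit 6163176)]) (FT.cons (FT.leaf [(nat_lit 5591019), (nat_lit 5767482), (nat_lit 5946375), (nat_lit 6126829), (nat_lit 6308164)]) (FT.cons (FT.leaf [(nat_lit 5914127),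 (nat_lit 6092211), (nat_lit 6271644), (nat_lit 6451788)]) (FT.cons (FT.leaf [(nat_lit 6236794), (nat_lit 6415132)]) (FT.cons (FT.leaf [(nat_lit 6557270)]) FT.nil))))) (FT.cons (FT.cons (FT.leaf [(nat_lit 5795720), (nat_lit 5970290), (nat_lit 6147089)])
 (FT.cons (FT.leaf [(nat_lit 6114850), (nat_lit 6290773)]) (FT.cons (FT.leaf [(nat_lit 6433191)]) FT.nil))) (FT.cons (FT.cons (FT.leaf [(nat_lit 6312247)]) (FT.cons (FT.leaf [(nat_lit 6626265)]) FT.nil)) (FT.cons (FT.cons (FT.leaf [(nat_lit 6816081)]) FT.nil) FT.nil))))) (FT.cons (FT.cons (FT.cons (FT.leaf [(nat_lit 5621579), (nat_lit 5790142), (nat_lit 5962390), (nat_lit 6137172), (nat_lit 6313612)]) (FT.cons (FT.leaf [(nat_lit 5934029), (nat_lit 6105820), (nat_lit 6279879), (nat_lit 6455384)]) (FT.cons (FT.leaf [(nat_lit 6248165), (nat_lit 6421404)]) (FT.cons (FT.leaf [(nat_lit 6561712)]) FT.nil)))) (FT.cons (FT.cons (FT.leaf [(nat_lit 6132301), (nat_lit 6302227), (nat_lit 6474246)])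 (FT.cons (FT.leaf [(nat_lit 6442561), (nat_lit 6613706)]) (FT.cons (FT.leaf [(nat_lit 6751942)]) FT.nil))) (FT.cons (FT.cons (FT.leaf [(nat_lit 6633786)]) (FT.cons (FT.leaf [(nat_lit 6939018)]) FT.nil)) FT.nil))) (FT.cons (FT.cons (FT.cons (FT.leaf [(nat_lit 6457383), (nat_lit 6622870), (nat_lit 6790333)]) (FT.cons (FT.leaf [(nat_lit 6759194), (nat_lit 6925793)]) FT.nil)) (FT.cons (FT.cons (FT.leaf [(nat_lit 6944596)]) FT.nil) FT.nil)) (FT.cons (FT.cons (FT.cons (FT.leaf [(nat_lit 7245344)]) FT.nil)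
 FT.nil) (FT.cons (FT.cons (FT.cons (FT.leaf [(nat_lit 7986594)]) FT.nil) FT.nil) (FT.cons (FT.cons (FT.cons (FT.leaf [(nat_lit 8683976)]) FT.nil) FT.nil) FT.nil))))))) (FT.cons (FT.cons (FT.cons (FT.cons (FT.leaf [(nat_lit 5758497), (nat_lit 5909095), (nat_lit 6065659), (nat_lit 6226578), (nat_lit 6390663), (nat_lit 6557003), (nat_lit 6724881), (nat_lit 6893721)]) (FT.cons (FT.leaf [(nat_lit 6043974), (nat_lit 6201003), (nat_lit 6362002), (nat_lit 6525858), (nat_lit 6691717), (nat_lit 6858907), (nat_lit 7026891)]) (FT.cons (FT.leaf [(nat_lit 6335804), (nat_lit 6496721), (nat_lit 6660217), (nat_lit 6825490), (nat_lit 6991911)]) (FT.cons (FT.leaf [(nat_lit 6630660), (nat_lit 6793684), (nat_lit 6958282), (nat_lit 7123862)]) (FT.cons (FT.leaf [(nat_lit 6926211), (nat_lit 7090057)]) (FT.cons (FT.leaf [(nat_lit 7220786)]) FT.nil)))))) (FT.cons (FT.cons (FT.leaf [(nat_lit 6232850), (nat_lit 6388898), (nat_lit 6548650), (nat_lit 6711041),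 (nat_lit 6875255), (nat_lit 7040656)]) (FT.cons (FT.leaf [(nat_lit 6522250), (nat_lit 6681807), (nat_lit 6843749), (nat_lit 7007310), (nat_lit 7171892)]) (FT.cons (FT.leaf [(nat_lit 6814137), (nat_lit 6975533), (nat_lit 7138363), (nat_lit 7302064)])
 (FT.cons (FT.leaf [(nat_lit 7106353), (nat_lit 7268386)]) (FT.cons (FT.leaf [(nat_lit 7397355)]) FT.nil))))) (FT.cons (FT.cons (FT.leaf [(nat_lit 6706139), (nat_lit 6864267), (nat_lit 7024607)]) (FT.cons (FT.leaf [(nat_lit 6994972), (nat_lit 7154704)]) (FT.cons (FT.leaf [(nat_lit 7283820)]) FT.nil))) (FT.cons (FT.cons (FT.leaf [(nat_lit 7173183)]) (FT.cons (FT.leaf [(nat_lit 7458647)]) FT.nil)) FT.nil)))) (FT.cons (FT.cons (FT.cons (FT.leaf [(nat_lit 6546343), (nat_lit 6699012), (nat_lit 6855172), (nat_lit 7013804), (nat_lit 7174134)]) (FT.cons (FT.leaf [(nat_lit 6829038), (nat_lit 6984947), (nat_lit 7143097), (nat_lit 7302759)]) (FT.cons (FT.leaf [(nat_lit 7113894), (nat_lit 7271476)])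 (FT.cons (FT.leaf [(nat_lit 7398910)]) FT.nil)))) (FT.cons (FT.cons (FT.leaf [(nat_lit 7007880), (nat_lit 7162366), (nat_lit 7318939)]) (FT.cons (FT.leaf [(nat_lit 7289731), (nat_lit 7445684)]) (FT.cons (FT.leaf [(nat_lit 7571472)]) FT.nil))) (FT.cons (FT.cons (FT.leaf [(nat_lit 7463045)]) (FT.cons (FT.leaf [(nat_lit 7741508)]) FT.nil)) FT.nil))) (FT.cons (FT.cons (FT.cons (FT.leaf [(nat_lit 7300568), (nat_lit 7451540), (nat_lit 7604492)]) (FT.cons (FT.leaf [(nat_lit 7575708), (nat_lit 7728036)])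
 FT.nil)) (FT.cons (FT.cons (FT.leaf [(nat_lit 7744363)]) FT.nil) FT.nil)) (FT.cons (FT.cons (FT.cons (FT.leaf [(nat_lit 8017602)]) FT.nil) FT.nil) (FT.cons (FT.cons (FT.cons (FT.leaf [(nat_lit 8697313)]) FT.nil) FT.nil) (FT.cons (FT.cons (FT.cons (FT.leaf [(nat_lit 9341207)]) FT.nil) FT.nil) FT.nil)))))) (FT.cons (FT.cons (FT.cons (FT.cons (FT.leaf [(nat_lit 7369275), (nat_lit 7509414), (nat_lit 7652849), (nat_lit 7798661), (nat_lit 7946155)]) (FT.cons (FT.leaf [(nat_lit 7628494), (nat_lit 7771801), (nat_lit 7917283), (nat_lit 8064282)]) (FT.cons (FT.leaf [(nat_lit 7890097), (nat_lit 8035172)]) (FT.cons (FT.leaf [(nat_lit 8152300)]) FT.nil)))) (FT.cons (FT.cons (FT.leaf [(nat_lit 7791967), (nat_lit 7934145), (nat_lit 8078363)]) (FT.cons (FT.leaf [(nat_lit 8051151), (nat_lit 8194915)]) (FT.cons (FT.leaf [(nat_lit 8310693)]) FT.nil))) (FT.cons (FT.cons (FT.leaf [(nat_lit 8210135)]) FT.nil) FT.nil))) (FT.cons (FT.cons (FT.cons (FT.leaf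 [(nat_lit 8058965), (nat_lit 8198271), (nat_lit 8339517)]) (FT.cons (FT.leaf [(nat_lit 8312649), (nat_lit 8453430)]) FT.nil)) (FT.cons (FT.cons (FT.leaf [(nat_lit 8467791)]) FT.nil) FT.nil)) (FT.cons (FT.cons (FT.cons (FT.leaf [(nat_lit 8718772)])
 FT.nil) FT.nil) (FT.cons (FT.cons (FT.cons (FT.leaf [(nat_lit 9347944)]) FT.nil) FT.nil) FT.nil)))) (FT.cons (FT.cons (FT.cons (FT.cons (FT.leaf [(nat_lit 8749636)]) FT.nil) FT.nil) (FT.cons (FT.cons (FT.cons (FT.leaf [(nat_lit 9362060)]) FT.nil) FT.nil) FT.nil)) (FT.cons (FT.cons (FT.cons (FT.cons (FT.leaf [(nat_lit 9957145)]) FT.nil) FT.nil) FT.nil) (FT.cons (FT.cons (FT.cons (FT.cons (FT.leaf [(nat_lit 11030429)]) FT.nil) FT.nil) FT.nil) (FT.cons (FT.cons (FT.cons (FT.cons (FT.leaf [(nat_lit 11996521)]) FT.nil) FT.nil) FT.nil) (FT.cons (FT.cons (FT.cons (FT.cons (FT.leaf [(nat_lit 12875039)]) FT.nil) FT.nil) FT.nil) FT.nil))))))))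

end CB
end Pool.Agent.Lib.MP_6947cd_al
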