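import Pool.Agent.Lib.MP_6947cd_al.L.CellBQ

/-!
Problem MP_6947cd_al (Chollet).  CASE B, rows `j`: tables of row values (generated).
-/

set_option autoImplicit false
set_option linter.defProp false
set_option maxRecDepth 20000

namespace Pool.Agent.Lib.MP_6947cd_al
namespace CB

open Ent Ent.Pk Fr Fr.WT CA

def f128_1_943 : FT := (FT.cons (FT.cons (FT.cons (FT.cons (FT.leaf [(nat_lit 4592524), (nat_lit 4735318), (nat_lit 4888716), (nat_lit 5050059), (nat_lit 5217422), (nat_lit 5389343), (nat_lit 5564669), (nat_lit 5742473), (nat_lit 5922002), (nat_lit 6102632)]) (FT.cons (FT.leaf [(nat_lit 4874507), (nat_lit 5030070), (nat_lit 5192874), (nat_lit 5361125), (nat_lit 5533460), (nat_lit 5708807), (nat_lit 5886309), (nat_lit 6065264), (nat_lit 6245098)]) (FT.cons (FT.leaf [(nat_lit 5171754), (nat_lit 5335666), (nat_lit 5504517), (nat_lit 5677032), (nat_lit 5852211), (nat_lit 6029256), (nat_lit 6207515)]) (FT.cons (FT.leaf [(nat_lit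 5478245), (nat_lit 5647448), (nat_lit 5819941), (nat_lit 5994789), (nat_lit 6171243)]) (FT.cons (FT.leaf [(nat_lit 5789791), (nat_lit 5962087), (nat_lit 6136460), (nat_lit 6312210)]) (FT.cons (FT.leaf [(nat_lit 6103385), (nat_lit 6277159)]) (FT.cons (FT.leaf [(nat_lit 6416830)]) FT.nil))))))) (FT.cons (FT.cons (FT.leaf [(nat_lit 5076013), (nat_lit 5231855), (nat_lit 5394434), (nat_lit 5562027), (nat_lit 5733336), (nat_lit 5907351), (nat_lit 6083263), (nat_lit 6260420)]) (FT.cons (FT.leaf [(nat_lit 5372730), (nat_lit 5536138), (nat_lit 5704102), (nat_lit 5875406), (nat_lit 6049104),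
 (nat_lit 6224443), (nat_lit 6400812)]) (FT.cons (FT.leaf [(nat_lit 5677477), (nat_lit 5845598), (nat_lit 6016722), (nat_lit 6189963), (nat_lit 6364613)]) (FT.cons (FT.leaf [(nat_lit 5986406), (nat_lit 6157200), (nat_lit 6329860), (nat_lit 6503724)]) (FT.cons (FT.leaf [(nat_lit 6296768), (nat_lit 6468741)]) (FT.cons (FT.leaf [(nat_lit 6606562)]) FT.nil)))))) (FT.cons (FT.cons (FT.leaf [(nat_lit 5571540), (nat_lit 5734219), (nat_lit 5901116), (nat_lit 6071069), (nat_lit 6243178), (nat_lit 6416734)]) (FT.cons (FT.leaf [(nat_lit 5874200), (nat_lit 6041089), (nat_lit 6210730), (nat_lit 6382278), (nat_lit 6555065)]) (FT.cons (FT.leaf [(nat_lit 6180296), (nat_lit 6349495), (nat_lit 6520375), (nat_lit 6692309)]) (FT.cons (FT.leaf [(nat_lit 6487303), (nat_lit 6657424)]) (FT.cons (FT.leaf [(nat_lit 6793388)]) FT.nil))))) (FT.cons (FT.cons (FT.leaf [(nat_lit 6068338), (nat_lit 6233877), (nat_lit 6401945)]) (FT.cons (FT.leaf [(nat_lit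 6371434), (nat_lit 6538966)]) (FT.cons (FT.leaf [(nat_lit 6674996)]) FT.nil))) (FT.cons (FT.cons (FT.leaf [(nat_lit 6559811)]) (FT.cons (FT.leaf [(nat_lit 6859867)]) FT.nil)) (FT.cons (FT.cons (FT.leaf [(nat_lit 7041942)]) FT.nil) FT.nil)))))) (FT.cons (FT.cons
 (FT.cons (FT.leaf [(nat_lit 5419687), (nat_lit 5572942), (nat_lit 5732492), (nat_lit 5896682), (nat_lit 6064279), (nat_lit 6234332), (nat_lit 6406085), (nat_lit 6578928)]) (FT.cons (FT.leaf [(nat_lit 5710719), (nat_lit 5870891), (nat_lit 6035290), (nat_lit 6202758), (nat_lit 6372405), (nat_lit 6543524), (nat_lit 6715544)]) (FT.cons (FT.leaf [(nat_lit 6008827), (nat_lit 6173249), (nat_lit 6340440), (nat_lit 6509561), (nat_lit 6679949)]) (FT.cons (FT.leaf [(nat_lit 6310474), (nat_lit 6477257), (nat_lit 6645748), (nat_lit 6815322)]) (FT.cons (FT.leaf [(nat_lit 6613151), (nat_lit 6780921)]) (FT.cons (FT.leaf [(nat_lit 6915045)]) FT.nil)))))) (FT.cons (FT.cons (FT.leaf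 [(nat_lit 5904309), (nat_lit 6063614), (nat_lit 6226851), (nat_lit 6392910), (nat_lit 6560944), (nat_lit 6730281)]) (FT.cons (FT.leaf [(nat_lit 6200147), (nat_lit 6363272), (nat_lit 6528946), (nat_lit 6696369), (nat_lit 6864912)]) (FT.cons (FT.leaf [(nat_lit 6498896), (nat_lit 6664071), (nat_lit 6830794), (nat_lit 6998471)]) (FT.cons (FT.leaf [(nat_lit 6798240), (nat_lit 6964183)]) (FT.cons (FT.leaf [(nat_lit 7096507)]) FT.nil))))) (FT.cons (FT.cons (FT.leaf [(nat_lit 6388908), (nat_lit 6550643), (nat_lit 6714732)])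
 (FT.cons (FT.leaf [(nat_lit 6684635), (nat_lit 6848150)]) (FT.cons (FT.leaf [(nat_lit 6980584)]) FT.nil))) (FT.cons (FT.cons (FT.leaf [(nat_lit 6867696)]) (FT.cons (FT.leaf [(nat_lit 7160212)]) FT.nil)) (FT.cons (FT.cons (FT.leaf [(nat_lit 7337157)]) FT.nil) FT.nil))))) (FT.cons (FT.cons (FT.cons (FT.leaf [(nat_lit 6226889), (nat_lit 6382828), (nat_lit 6542452), (nat_lit 6704704), (nat_lit 6868777)]) (FT.cons (FT.leaf [(nat_lit 6515991), (nat_lit 6675425), (nat_lit 6837238), (nat_lit 7000669)]) (FT.cons (FT.leaf [(nat_lit 6807586), (nat_lit 6968862)]) (FT.cons (FT.leaf [(nat_lit 7099535)]) FT.nil)))) (FT.cons (FT.cons (FT.leaf [(nat_lit 6699570), (nat_lit 6857599), (nat_lit 7017833)]) (FT.cons (FT.leaf [(nat_lit 6988157), (nat_lit 7147793)]) (FT.cons (FT.leaf [(nat_lit 7276783)]) FT.nil))) (FT.cons (FT.cons (FT.leaf [(nat_lit 7166141)]) (FT.cons (FT.leaf [(nat_lit 7451423)]) FT.nil)) FT.nil))) (FT.cons (FT.cons (FT.cons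 (FT.leaf [(nat_lit 7000815), (nat_lit 7155246), (nat_lit 7311760)]) (FT.cons (FT.leaf [(nat_lit 7282506), (nat_lit 7438406)]) FT.nil)) (FT.cons (FT.cons (FT.leaf [(nat_lit 7455647)]) FT.nil) FT.nil)) (FT.cons (FT.cons (FT.cons (FT.leaf [(nat_lit 7736695)]) FT.nil)
 FT.nil) (FT.cons (FT.cons (FT.cons (FT.leaf [(nat_lit 8433907)]) FT.nil) FT.nil) (FT.cons (FT.cons (FT.cons (FT.leaf [(nat_lit 9093816)]) FT.nil) FT.nil) FT.nil))))))) (FT.cons (FT.cons (FT.cons (FT.cons (FT.leaf [(nat_lit 6345619), (nat_lit 6485572), (nat_lit 6631257), (nat_lit 6781196), (nat_lit 6934297), (nat_lit 7089718), (nat_lit 7246794), (nat_lit 7404988)]) (FT.cons (FT.leaf [(nat_lit 6610911), (nat_lit 6757201), (nat_lit 6907393), (nat_lit 7060459), (nat_lit 7215609), (nat_lit 7372219), (nat_lit 7529787)]) (FT.cons (FT.leaf [(nat_lit 6882792), (nat_lit 7033083), (nat_lit 7185989), (nat_lit 7340768), (nat_lit 7496831)]) (FT.cons (FT.leaf [(nat_lit 7158194),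 (nat_lit 7310832), (nat_lit 7465150), (nat_lit 7620595)]) (FT.cons (FT.leaf [(nat_lit 7434937), (nat_lit 7588718)]) (FT.cons (FT.leaf [(nat_lit 7711441)]) FT.nil)))))) (FT.cons (FT.cons (FT.leaf [(nat_lit 6786440), (nat_lit 6932068), (nat_lit 7081350), (nat_lit 7233300), (nat_lit 7387162), (nat_lit 7542343)]) (FT.cons (FT.leaf [(nat_lit 7056526), (nat_lit 7205794), (nat_lit 7357495), (nat_lit 7510914), (nat_lit 7665493)]) (FT.cons (FT.leaf [(nat_lit 7329609), (nat_lit 7480964), (nat_lit 7633863), (nat_lit 7787777)])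
 (FT.cons (FT.leaf [(nat_lit 7603667), (nat_lit 7755978)]) (FT.cons (FT.leaf [(nat_lit 7877231)]) FT.nil))))) (FT.cons (FT.cons (FT.leaf [(nat_lit 7228176), (nat_lit 7376347), (nat_lit 7526784)]) (FT.cons (FT.leaf [(nat_lit 7498838), (nat_lit 7648865)]) (FT.cons (FT.leaf [(nat_lit 7770155)]) FT.nil))) (FT.cons (FT.cons (FT.leaf [(nat_lit 7665882)]) (FT.cons (FT.leaf [(nat_lit 7934419)]) FT.nil)) FT.nil)))) (FT.cons (FT.cons (FT.cons (FT.leaf [(nat_lit 7077884), (nat_lit 7220789), (nat_lit 7367145), (nat_lit 7516003), (nat_lit 7666644)]) (FT.cons (FT.leaf [(nat_lit 7342508), (nat_lit 7488783), (nat_lit 7637345), (nat_lit 7787513)]) (FT.cons (FT.leaf [(nat_lit 7609776), (nat_lit 7757957)]) (FT.cons (FT.leaf [(nat_lit 7877804)]) FT.nil)))) (FT.cons (FT.cons (FT.leaf [(nat_lit 7509946), (nat_lit 7655104), (nat_lit 7802401)]) (FT.cons (FT.leaf [(nat_lit 7774792), (nat_lit 7921652)]) (FT.cons (FT.leaf [(nat_lit 8040121)]) FT.nil)))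 (FT.cons (FT.cons (FT.leaf [(nat_lit 7937686)]) (FT.cons (FT.leaf [(nat_lit 8200290)]) FT.nil)) FT.nil))) (FT.cons (FT.cons (FT.cons (FT.leaf [(nat_lit 7784066), (nat_lit 7926285), (nat_lit 8070534)]) (FT.cons (FT.leaf [(nat_lit 8043265), (nat_lit 8187060)])
 FT.nil)) (FT.cons (FT.cons (FT.leaf [(nat_lit 8202178)]) FT.nil) FT.nil)) (FT.cons (FT.cons (FT.cons (FT.leaf [(nat_lit 8459707)]) FT.nil) FT.nil) (FT.cons (FT.cons (FT.cons (FT.leaf [(nat_lit 9103706)]) FT.nil) FT.nil) (FT.cons (FT.cons (FT.cons (FT.leaf [(nat_lit 9716645)]) FT.nil) FT.nil) FT.nil)))))) (FT.cons (FT.cons (FT.cons (FT.cons (FT.leaf [(nat_lit 7844202), (nat_lit 7976516), (nat_lit 8112068), (nat_lit 8249997), (nat_lit 8389650)]) (FT.cons (FT.leaf [(nat_lit 8088932), (nat_lit 8224473), (nat_lit 8362200), (nat_lit 8501495)]) (FT.cons (FT.leaf [(nat_lit 8336350), (nat_lit 8473801)]) (FT.cons (FT.leaf [(nat_lit 8584768)]) FT.nil)))) (FT.cons (FT.cons (FT.leaf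 [(nat_lit 8243249), (nat_lit 8377877), (nat_lit 8514562)]) (FT.cons (FT.leaf [(nat_lit 8488663), (nat_lit 8625022)]) (FT.cons (FT.leaf [(nat_lit 8734833)]) FT.nil))) (FT.cons (FT.cons (FT.leaf [(nat_lit 8639193)]) FT.nil) FT.nil))) (FT.cons (FT.cons (FT.cons (FT.leaf [(nat_lit 8495310), (nat_lit 8627479), (nat_lit 8761606)]) (FT.cons (FT.leaf [(nat_lit 8735989), (nat_lit 8869772)]) FT.nil)) (FT.cons (FT.cons (FT.leaf [(nat_lit 8883171)]) FT.nil) FT.nil)) (FT.cons (FT.cons (FT.cons (FT.leaf [(nat_lit 9121289)])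
 FT.nil) FT.nil) (FT.cons (FT.cons (FT.cons (FT.leaf [(nat_lit 9720798)]) FT.nil) FT.nil) FT.nil)))) (FT.cons (FT.cons (FT.cons (FT.cons (FT.leaf [(nat_lit 9147804)]) FT.nil) FT.nil) (FT.cons (FT.cons (FT.cons (FT.leaf [(nat_lit 9731968)]) FT.nil) FT.nil) FT.nil)) (FT.cons (FT.cons (FT.cons (FT.cons (FT.leaf [(nat_lit 10299674)]) FT.nil) FT.nil) FT.nil) (FT.cons (FT.cons (FT.cons (FT.cons (FT.leaf [(nat_lit 11330843)]) FT.nil) FT.nil) FT.nil) (FT.cons (FT.cons (FT.cons (FT.cons (FT.leaf [(nat_lit 12263976)]) FT.nil) FT.nil) FT.nil) (FT.cons (FT.cons (FT.cons (FT.cons (FT.leaf [(nat_lit 13116016)]) FT.nil) FT.nil) FT.nil) FT.nil))))))))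

def f128_1_960 : FT := (FT.cons (FT.cons (FT.cons (FT.cons (FT.leaf [(nat_lit 4660970), (nat_lit 4802403), (nat_lit 4954372), (nat_lit 5114248), (nat_lit 5280128), (nat_lit 5450564), (nat_lit 5624417), (nat_lit 5800767)]) (FT.cons (FT.leaf [(nat_lit 4940278), (nat_lit 5094423), (nat_lit 5255780), (nat_lit 5422572), (nat_lit 5593452), (nat_lit 5767359), (nat_lit 5943441)]) (FT.cons (FT.leaf [(nat_lit 5234829), (nat_lit 5397316), (nat_lit 5564736), (nat_lit 5735827), (nat_lit 5909600)]) (FT.cons (FT.leaf [(nat_lit 5538669), (nat_lit 5706471), (nat_lit 5877572), (nat_lit 6051046)]) (FT.cons (FT.leaf [(nat_lit 5847648), (nat_lit 6018585)]) (FT.cons (FT.leaf [(nat_lit 6158781)]) (FT.cons (FT.leaf [(nat_lit 6469885)]) FT.nil))))))) (FT.cons (FT.cons (FT.leaf [(nat_lit 5139903), (nat_lit 5294370), (nat_lit 5455550), (nat_lit 5621737), (nat_lit 5791646), (nat_lit 5964276)]) (FT.cons (FT.leaf [(nat_lit 5434016), (nat_lit 5596048),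 (nat_lit 5762634), (nat_lit 5932569), (nat_lit 6104916)]) (FT.cons (FT.leaf [(nat_lit 5736210), (nat_lit 5902982), (nat_lit 6072769), (nat_lit 6244691)]) (FT.cons (FT.leaf [(nat_lit 6042674), (nat_lit 6212162)]) (FT.cons (FT.leaf [(nat_lit 6350676)]) (FT.cons (FT.leaf [(nat_lit
 6658225)]) FT.nil)))))) (FT.cons (FT.cons (FT.leaf [(nat_lit 5631111), (nat_lit 5792464), (nat_lit 5958034), (nat_lit 6126671), (nat_lit 6297483)]) (FT.cons (FT.leaf [(nat_lit 5931316), (nat_lit 6096908), (nat_lit 6265264), (nat_lit 6435547)]) (FT.cons (FT.leaf [(nat_lit 6235046), (nat_lit 6402990)]) (FT.cons (FT.leaf [(nat_lit 6539789)]) (FT.cons (FT.leaf [(nat_lit 6843723)]) FT.nil))))) (FT.cons (FT.cons (FT.leaf [(nat_lit 6123909), (nat_lit 6288200), (nat_lit 6455034)]) (FT.cons (FT.leaf [(nat_lit 6424733), (nat_lit 6591061)]) (FT.cons (FT.leaf [(nat_lit 6726124)]) FT.nil))) (FT.cons (FT.cons (FT.leaf [(nat_lit 6611723)]) (FT.cons (FT.leaf [(nat_lit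 6909696)]) FT.nil)) (FT.cons (FT.cons (FT.leaf [(nat_lit 7090530)]) FT.nil) FT.nil)))))) (FT.cons (FT.cons (FT.cons (FT.leaf [(nat_lit 5480433), (nat_lit 5632413), (nat_lit 5790667), (nat_lit 5953555), (nat_lit 6119859), (nat_lit 6288631)]) (FT.cons (FT.leaf [(nat_lit 5769055), (nat_lit 5927953), (nat_lit 6091077), (nat_lit 6257280), (nat_lit 6425678)]) (FT.cons (FT.leaf [(nat_lit 6064804), (nat_lit 6227979), (nat_lit 6393933), (nat_lit 6561835)]) (FT.cons (FT.leaf [(nat_lit 6364174), (nat_lit 6529750)]) (FT.cons (FT.leaf [(nat_lit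
 6664671)]) (FT.cons (FT.leaf [(nat_lit 6964489)]) FT.nil)))))) (FT.cons (FT.cons (FT.leaf [(nat_lit 5961068), (nat_lit 6119145), (nat_lit 6281154), (nat_lit 6445997), (nat_lit 6612830)]) (FT.cons (FT.leaf [(nat_lit 6254637), (nat_lit 6416561), (nat_lit 6581046), (nat_lit 6747298)]) (FT.cons (FT.leaf [(nat_lit 6551198), (nat_lit 6715213)]) (FT.cons (FT.leaf [(nat_lit 6848449)]) (FT.cons (FT.leaf [(nat_lit 7144725)]) FT.nil))))) (FT.cons (FT.cons (FT.leaf [(nat_lit 6441975), (nat_lit 6602555), (nat_lit 6765501)]) (FT.cons (FT.leaf [(nat_lit 6735600), (nat_lit 6898000)]) (FT.cons (FT.leaf [(nat_lit 7029540)]) FT.nil))) (FT.cons (FT.cons (FT.leaf [(nat_lit 6917382)]) (FT.cons (FT.leaf [(nat_lit 7207968)]) FT.nil)) (FT.cons (FT.cons (FT.leaf [(nat_lit 7383765)]) FT.nil) FT.nil))))) (FT.cons (FT.cons (FT.cons (FT.leaf [(nat_lit 6281070), (nat_lit 6435870), (nat_lit 6594357), (nat_lit 6755481)]) (FT.cons (FT.leaf [(nat_lit 6568071),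 (nat_lit 6726392), (nat_lit 6887103)]) (FT.cons (FT.leaf [(nat_lit 6857639)]) FT.nil))) (FT.cons (FT.cons (FT.leaf [(nat_lit 6750337), (nat_lit 6907294)]) (FT.cons (FT.leaf [(nat_lit 7036976)]) FT.nil)) (FT.cons (FT.cons (FT.leaf [(nat_lit 7213777)]) FT.nil)
 FT.nil))) (FT.cons (FT.cons (FT.cons (FT.leaf [(nat_lit 7049463)]) FT.nil) (FT.cons (FT.cons (FT.leaf [(nat_lit 7501390)]) FT.nil) FT.nil)) (FT.cons (FT.cons (FT.cons (FT.leaf [(nat_lit 7780685)]) FT.nil) FT.nil) (FT.cons (FT.cons (FT.cons (FT.leaf [(nat_lit 8473954)]) FT.nil) FT.nil) (FT.cons (FT.cons (FT.cons (FT.leaf [(nat_lit 9130505)]) FT.nil) FT.nil) FT.nil))))))) (FT.cons (FT.cons (FT.cons (FT.cons (FT.leaf [(nat_lit 6398337), (nat_lit 6537317), (nat_lit 6682009), (nat_lit 6830948), (nat_lit 6983050), (nat_lit 7137478)]) (FT.cons (FT.leaf [(nat_lit 6661789), (nat_lit 6807100), (nat_lit 6956309), (nat_lit 7108394), (nat_lit 7262573)]) (FT.cons (FT.leaf [(nat_lit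 6931857), (nat_lit 7081182), (nat_lit 7233126), (nat_lit 7386953)]) (FT.cons (FT.leaf [(nat_lit 7205494), (nat_lit 7357189)]) FT.nil)))) (FT.cons (FT.cons (FT.leaf [(nat_lit 6836113), (nat_lit 6980792), (nat_lit 7129122), (nat_lit 7280124), (nat_lit 7433047)]) (FT.cons (FT.leaf [(nat_lit 7104444), (nat_lit 7252779), (nat_lit 7403550), (nat_lit 7556050)]) (FT.cons (FT.leaf [(nat_lit 7375823), (nat_lit 7526268)]) FT.nil))) (FT.cons (FT.cons (FT.leaf [(nat_lit 7274993), (nat_lit 7422259)]) (FT.cons (FT.leaf [(nat_lit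
 7544008)]) FT.nil)) (FT.cons (FT.cons (FT.leaf [(nat_lit 7710048)]) FT.nil) FT.nil)))) (FT.cons (FT.cons (FT.cons (FT.leaf [(nat_lit 7125582), (nat_lit 7267598), (nat_lit 7413062), (nat_lit 7561033)]) (FT.cons (FT.leaf [(nat_lit 7388564), (nat_lit 7533964), (nat_lit 7681656)]) (FT.cons (FT.leaf [(nat_lit 7654238)]) FT.nil))) (FT.cons (FT.cons (FT.leaf [(nat_lit 7554974), (nat_lit 7699286)]) (FT.cons (FT.leaf [(nat_lit 7818280)]) FT.nil)) (FT.cons (FT.cons (FT.leaf [(nat_lit 7980236)]) FT.nil) FT.nil))) (FT.cons (FT.cons (FT.cons (FT.leaf [(nat_lit 7827432)]) FT.nil) (FT.cons (FT.cons (FT.leaf [(nat_lit 8243223)]) FT.nil) FT.nil)) (FT.cons (FT.cons (FT.cons (FT.leaf [(nat_lit 8499344)]) FT.nil) FT.nil) (FT.cons (FT.cons (FT.cons (FT.leaf [(nat_lit 9140129)]) FT.nil) FT.nil) (FT.cons (FT.cons (FT.cons (FT.leaf [(nat_lit 9750281)]) FT.nil) FT.nil) FT.nil)))))) (FT.cons (FT.cons (FT.cons (FT.cons (FT.leaf [(nat_lit 7886879),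 (nat_lit 8018477), (nat_lit 8153308)]) (FT.cons (FT.leaf [(nat_lit 8130286), (nat_lit 8265118)]) (FT.cons (FT.leaf [(nat_lit 8376411)]) FT.nil))) (FT.cons (FT.cons (FT.leaf [(nat_lit 8283774)]) (FT.cons (FT.leaf [(nat_lit 8527933)]) FT.nil)) (FT.cons (FT.cons
 (FT.leaf [(nat_lit 8677699)]) FT.nil) FT.nil))) (FT.cons (FT.cons (FT.cons (FT.leaf [(nat_lit 8534490)]) FT.nil) (FT.cons (FT.cons (FT.leaf [(nat_lit 8920447)]) FT.nil) FT.nil)) (FT.cons (FT.cons (FT.cons (FT.leaf [(nat_lit 9157408)]) FT.nil) FT.nil) (FT.cons (FT.cons (FT.cons (FT.leaf [(nat_lit 9754237)]) FT.nil) FT.nil) FT.nil)))) (FT.cons (FT.cons (FT.cons (FT.cons (FT.leaf [(nat_lit 9183579)]) FT.nil) FT.nil) (FT.cons (FT.cons (FT.cons (FT.leaf [(nat_lit 9765177)]) FT.nil) FT.nil) FT.nil)) (FT.cons (FT.cons (FT.cons (FT.cons (FT.leaf [(nat_lit 10330433)]) FT.nil) FT.nil) FT.nil) (FT.cons (FT.cons (FT.cons (FT.cons (FT.leaf [(nat_lit 11357802)]) FT.nil) FT.nil)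 FT.nil) (FT.cons (FT.cons (FT.cons (FT.cons (FT.leaf [(nat_lit 12287961)]) FT.nil) FT.nil) FT.nil) (FT.cons (FT.cons (FT.cons (FT.cons (FT.leaf [(nat_lit 13137612)]) FT.nil) FT.nil) FT.nil) FT.nil))))))))

def f136_1_0 : FT := (FT.cons (FT.cons (FT.cons (FT.cons (FT.leaf [(nat_lit 1900409), (nat_lit 2042050), (nat_lit 2205648), (nat_lit 2385949), (nat_lit 2579144), (nat_lit 2782286), (nat_lit 2993021), (nat_lit 3209429), (nat_lit 3429934), (nat_lit 3653229)]) (FT.cons (FT.leaf [(nat_lit 2203927), (nat_lit 2374172), (nat_lit 2559460), (nat_lit 2756239), (nat_lit 2961786), (nat_lit 3173939), (nat_lit 3390943), (nat_lit 3611364), (nat_lit 3834018)]) (FT.cons (FT.leaf [(nat_lit 2545419), (nat_lit 2734666), (nat_lit 2934191), (nat_lit 3141461), (nat_lit 3354478), (nat_lit 3571633), (nat_lit 3791615)]) (FT.cons (FT.leaf [(nat_lit 2910939), (nat_lit 3112503), (nat_lit 3320917), (nat_lit 3534331), (nat_lit 3751260)]) (FT.cons (FT.leaf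 [(nat_lit 3290760), (nat_lit 3499829), (nat_lit 3713241), (nat_lit 3929626)]) (FT.cons (FT.leaf [(nat_lit 3677925), (nat_lit 3890999)]) (FT.cons (FT.leaf [(nat_lit 4067433)]) FT.nil))))))) (FT.cons (FT.cons (FT.leaf [(nat_lit 2454104), (nat_lit 2627607), (nat_lit 2814922), (nat_lit 3012605), (nat_lit 3218076), (nat_lit 3429316), (nat_lit 3644710), (nat_lit 3862946)]) (FT.cons (FT.leaf [(nat_lit 2799511), (nat_lit 2989916), (nat_lit 3189623), (nat_lit 3396225), (nat_lit 3607855),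
 (nat_lit 3823023), (nat_lit 4040527)]) (FT.cons (FT.leaf [(nat_lit 3165423), (nat_lit 3366562), (nat_lit 3573816), (nat_lit 3785447), (nat_lit 4000080)]) (FT.cons (FT.leaf [(nat_lit 3543091), (nat_lit 3750587), (nat_lit 3961890), (nat_lit 4175726)]) (FT.cons (FT.leaf [(nat_lit 3926322), (nat_lit 4137019)]) (FT.cons (FT.leaf [(nat_lit 4310697)]) FT.nil)))))) (FT.cons (FT.cons (FT.leaf [(nat_lit 3051831), (nat_lit 3242616), (nat_lit 3441866), (nat_lit 3647291), (nat_lit 3857137), (nat_lit 4070022)]) (FT.cons (FT.leaf [(nat_lit 3416869), (nat_lit 3617061), (nat_lit 3822740), (nat_lit 4032273), (nat_lit 4244379)]) (FT.cons (FT.leaf [(nat_lit 3791567), (nat_lit 3997159), (nat_lit 4206106), (nat_lit 4417216)]) (FT.cons (FT.leaf [(nat_lit 4170374), (nat_lit 4378503)]) (FT.cons (FT.leaf [(nat_lit 4549359)]) FT.nil))))) (FT.cons (FT.cons (FT.leaf [(nat_lit 3664872), (nat_lit 3863710), (nat_lit 4067500), (nat_lit 4274701), (nat_lit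 4484113)]) (FT.cons (FT.leaf [(nat_lit 4035980), (nat_lit 4239418), (nat_lit 4445828), (nat_lit 4654092)]) (FT.cons (FT.leaf [(nat_lit 4410008), (nat_lit 4615433)]) FT.nil))) (FT.cons (FT.cons (FT.leaf [(nat_lit 4276201), (nat_lit 4477301)]) (FT.cons (FT.leaf
 [(nat_lit 4645199)]) FT.nil)) (FT.cons (FT.cons (FT.leaf [(nat_lit 4875961)]) FT.nil) (FT.cons (FT.cons (FT.leaf [(nat_lit 5458709)]) FT.nil) FT.nil))))))) (FT.cons (FT.cons (FT.cons (FT.leaf [(nat_lit 2903027), (nat_lit 3074779), (nat_lit 3259204), (nat_lit 3452978), (nat_lit 3653664), (nat_lit 3859393), (nat_lit 4068690), (nat_lit 4280373), (nat_lit 4493481), (nat_lit 4707232)]) (FT.cons (FT.leaf [(nat_lit 3243137), (nat_lit 3429946), (nat_lit 3625164), (nat_lit 3826523), (nat_lit 4032293), (nat_lit 4241114), (nat_lit 4451897), (nat_lit 4663762), (nat_lit 4875992)]) (FT.cons (FT.leaf [(nat_lit 3600773), (nat_lit 3796952), (nat_lit 3998596), (nat_lit 4204098), (nat_lit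 4412195), (nat_lit 4621885), (nat_lit 4832357)]) (FT.cons (FT.leaf [(nat_lit 3968084), (nat_lit 4169684), (nat_lit 4374653), (nat_lit 4581819), (nat_lit 4790254)]) (FT.cons (FT.leaf [(nat_lit 4339621), (nat_lit 4543832), (nat_lit 4749893), (nat_lit 4956937)]) (FT.cons (FT.leaf [(nat_lit 4711537), (nat_lit 4916341)]) (FT.cons (FT.leaf [(nat_lit 5081112)]) FT.nil))))))) (FT.cons (FT.cons (FT.leaf [(nat_lit 3488051), (nat_lit 3674650), (nat_lit 3868958), (nat_lit 4068813), (nat_lit 4272585), (nat_lit 4479005),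
 (nat_lit 4687062), (nat_lit 4895945)]) (FT.cons (FT.leaf [(nat_lit 3843902), (nat_lit 4038788), (nat_lit 4238625), (nat_lit 4441891), (nat_lit 4647406), (nat_lit 4854236), (nat_lit 5061633)]) (FT.cons (FT.leaf [(nat_lit 4207762), (nat_lit 4407302), (nat_lit 4609840), (nat_lit 4814278), (nat_lit 5019748)]) (FT.cons (FT.leaf [(nat_lit 4574710), (nat_lit 4776333), (nat_lit 4979548), (nat_lit 5183548)]) (FT.cons (FT.leaf [(nat_lit 4941291), (nat_lit 5143160)]) (FT.cons (FT.leaf [(nat_lit 5305075)]) FT.nil)))))) (FT.cons (FT.cons (FT.leaf [(nat_lit 4083414), (nat_lit 4276717), (nat_lit 4474523), (nat_lit 4675393), (nat_lit 4878218), (nat_lit 5082126)]) (FT.cons (FT.leaf [(nat_lit 4443392), (nat_lit 4640698), (nat_lit 4840686), (nat_lit 5042320), (nat_lit 5244790)]) (FT.cons (FT.leaf [(nat_lit 4805517), (nat_lit 5004466), (nat_lit 5204789), (nat_lit 5405730)]) (FT.cons (FT.leaf [(nat_lit 5166672), (nat_lit 5365583)]) (FT.cons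 (FT.leaf [(nat_lit 5524669)]) FT.nil))))) (FT.cons (FT.cons (FT.leaf [(nat_lit 4674914), (nat_lit 4869860), (nat_lit 5067215), (nat_lit 5266003), (nat_lit 5465459)]) (FT.cons (FT.leaf [(nat_lit 5032060), (nat_lit 5228279), (nat_lit 5425690), (nat_lit 5623577)])
 (FT.cons (FT.leaf [(nat_lit 5387745), (nat_lit 5583696)]) FT.nil))) (FT.cons (FT.cons (FT.leaf [(nat_lit 5254378)]) (FT.cons (FT.leaf [(nat_lit 5604593)]) FT.nil)) (FT.cons (FT.cons (FT.leaf [(nat_lit 5817304)]) FT.nil) (FT.cons (FT.cons (FT.leaf [(nat_lit 6361439)]) FT.nil) FT.nil))))))) (FT.cons (FT.cons (FT.cons (FT.leaf [(nat_lit 3907629), (nat_lit 4089768), (nat_lit 4279000), (nat_lit 4473282), (nat_lit 4671088), (nat_lit 4871241), (nat_lit 5072815), (nat_lit 5275067)]) (FT.cons (FT.leaf [(nat_lit 4253983), (nat_lit 4443538), (nat_lit 4637614), (nat_lit 4834788), (nat_lit 5033967), (nat_lit 5234287), (nat_lit 5435063)]) (FT.cons (FT.leaf [(nat_lit 4607118),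 (nat_lit 4800757), (nat_lit 4997119), (nat_lit 5195180), (nat_lit 5394140)]) (FT.cons (FT.leaf [(nat_lit 4962610), (nat_lit 5158003), (nat_lit 5354829), (nat_lit 5552339)]) (FT.cons (FT.leaf [(nat_lit 5317379), (nat_lit 5512872)]) (FT.cons (FT.leaf [(nat_lit 5669277)]) FT.nil)))))) (FT.cons (FT.cons (FT.leaf [(nat_lit 4485243), (nat_lit 4673084), (nat_lit 4865068), (nat_lit 5059844), (nat_lit 5256379), (nat_lit 5453865)]) (FT.cons (FT.leaf [(nat_lit 4834366), (nat_lit 5025754), (nat_lit 5219599), (nat_lit 5414933),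
 (nat_lit 5611002)]) (FT.cons (FT.leaf [(nat_lit 5185089), (nat_lit 5377871), (nat_lit 5571905), (nat_lit 5766484)]) (FT.cons (FT.leaf [(nat_lit 5534613), (nat_lit 5727264)]) (FT.cons (FT.leaf [(nat_lit 5880989)]) FT.nil))))) (FT.cons (FT.cons (FT.leaf [(nat_lit 5057640), (nat_lit 5246692), (nat_lit 5437969), (nat_lit 5630555), (nat_lit 5823738)]) (FT.cons (FT.leaf [(nat_lit 5403498), (nat_lit 5593641), (nat_lit 5784879), (nat_lit 5976545)]) (FT.cons (FT.leaf [(nat_lit 5747773), (nat_lit 5937594)]) FT.nil))) (FT.cons (FT.cons (FT.leaf [(nat_lit 5617900)]) (FT.cons (FT.leaf [(nat_lit 5956946)]) FT.nil)) (FT.cons (FT.cons (FT.leaf [(nat_lit 6162224)]) FT.nil) (FT.cons (FT.cons (FT.leaf [(nat_lit 6688716)]) FT.nil) FT.nil)))))) (FT.cons (FT.cons (FT.cons (FT.leaf [(nat_lit 4871300), (nat_lit 5053829), (nat_lit 5240207), (nat_lit 5429158), (nat_lit 5619715)]) (FT.cons (FT.leaf [(nat_lit 5209953), (nat_lit 5395677), (nat_lit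 5583676), (nat_lit 5773041)]) (FT.cons (FT.leaf [(nat_lit 5549817), (nat_lit 5736753)]) (FT.cons (FT.leaf [(nat_lit 5888355)]) FT.nil)))) (FT.cons (FT.cons (FT.leaf [(nat_lit 5425444), (nat_lit 5608882), (nat_lit 5794395)]) (FT.cons (FT.leaf [(nat_lit 5760599),
 (nat_lit 5944994)]) (FT.cons (FT.leaf [(nat_lit 6094114)]) FT.nil))) (FT.cons (FT.cons (FT.leaf [(nat_lit 5967583)]) (FT.cons (FT.leaf [(nat_lit 6296114)]) FT.nil)) (FT.cons (FT.cons (FT.leaf [(nat_lit 6494448)]) FT.nil) (FT.cons (FT.cons (FT.leaf [(nat_lit 7004414)]) FT.nil) FT.nil))))) (FT.cons (FT.cons (FT.cons (FT.leaf [(nat_lit 5779334), (nat_lit 5957440), (nat_lit 6137499)]) (FT.cons (FT.leaf [(nat_lit 6104360), (nat_lit 6283325)]) (FT.cons (FT.leaf [(nat_lit 6427737)]) FT.nil))) (FT.cons (FT.cons (FT.leaf [(nat_lit 6304395)]) (FT.cons (FT.leaf [(nat_lit 6623029)]) FT.nil)) (FT.cons (FT.cons (FT.leaf [(nat_lit 6814867)]) FT.nil) FT.nil))) (FT.cons (FT.cons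 (FT.cons (FT.leaf [(nat_lit 6629223)]) FT.nil) (FT.cons (FT.cons (FT.leaf [(nat_lit 7124289)]) FT.nil) FT.nil)) (FT.cons (FT.cons (FT.cons (FT.leaf [(nat_lit 7423450)]) FT.nil) FT.nil) (FT.cons (FT.cons (FT.cons (FT.leaf [(nat_lit 8166312)]) FT.nil) FT.nil) (FT.cons (FT.cons (FT.cons (FT.leaf [(nat_lit 8862518)]) FT.nil) FT.nil) FT.nil))))))))) (FT.cons (FT.cons (FT.cons (FT.cons (FT.leaf [(nat_lit 4160302), (nat_lit 4312151), (nat_lit 4475027), (nat_lit 4646071), (nat_lit 4823213), (nat_lit 5004888), (nat_lit 5189872),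
 (nat_lit 5377180), (nat_lit 5566019), (nat_lit 5755736)]) (FT.cons (FT.leaf [(nat_lit 4460049), (nat_lit 4624991), (nat_lit 4797343), (nat_lit 4975183), (nat_lit 5157056), (nat_lit 5341825), (nat_lit 5528583), (nat_lit 5716596), (nat_lit 5905259)]) (FT.cons (FT.leaf [(nat_lit 4775093), (nat_lit 4948383), (nat_lit 5126623), (nat_lit 5308453), (nat_lit 5492817), (nat_lit 5678871), (nat_lit 5865935)]) (FT.cons (FT.leaf [(nat_lit 5098998), (nat_lit 5277380), (nat_lit 5458962), (nat_lit 5642755), (nat_lit 5827975)]) (FT.cons (FT.leaf [(nat_lit 5427328), (nat_lit 5608484), (nat_lit 5791566), (nat_lit 5975839)]) (FT.cons (FT.leaf [(nat_lit 5756939), (nat_lit 5939187)]) (FT.cons (FT.leaf [(nat_lit 6085569)]) FT.nil))))))) (FT.cons (FT.cons (FT.leaf [(nat_lit 4673965), (nat_lit 4838871), (nat_lit 5010650), (nat_lit 5187461), (nat_lit 5367923), (nat_lit 5550967), (nat_lit 5735743), (nat_lit 5921564)]) (FT.cons (FT.leaf [(nat_lit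 4987823), (nat_lit 5160254), (nat_lit 5337234), (nat_lit 5517471), (nat_lit 5699966), (nat_lit 5883929), (nat_lit 6068722)]) (FT.cons (FT.leaf [(nat_lit 5309283), (nat_lit 5486211), (nat_lit 5666047), (nat_lit 5847853), (nat_lit 6030892)]) (FT.cons (FT.leaf
 [(nat_lit 5634288), (nat_lit 5813569), (nat_lit 5994566), (nat_lit 6176585)]) (FT.cons (FT.leaf [(nat_lit 5959973), (nat_lit 6140056)]) (FT.cons (FT.leaf [(nat_lit 6284285)]) FT.nil)))))) (FT.cons (FT.cons (FT.leaf [(nat_lit 5197855), (nat_lit 5369208), (nat_lit 5544758), (nat_lit 5723275), (nat_lit 5903810), (nat_lit 6085620)]) (FT.cons (FT.leaf [(nat_lit 5516546), (nat_lit 5691883), (nat_lit 5869871), (nat_lit 6049622), (nat_lit 6230437)]) (FT.cons (FT.leaf [(nat_lit 5838037), (nat_lit 6015366), (nat_lit 6194229), (nat_lit 6373969)]) (FT.cons (FT.leaf [(nat_lit 6159705), (nat_lit 6337591)]) (FT.cons (FT.leaf [(nat_lit 6479676)]) FT.nil))))) (FT.cons (FT.cons (FT.leaf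 [(nat_lit 5720737), (nat_lit 5894377), (nat_lit 6070443), (nat_lit 6248091), (nat_lit 6426659)]) (FT.cons (FT.leaf [(nat_lit 6038574), (nat_lit 6213897), (nat_lit 6390594), (nat_lit 6568043)]) (FT.cons (FT.leaf [(nat_lit 6356167), (nat_lit 6531837)]) FT.nil))) (FT.cons (FT.cons (FT.leaf [(nat_lit 6235915)]) (FT.cons (FT.leaf [(nat_lit 6549402)]) FT.nil)) (FT.cons (FT.cons (FT.leaf [(nat_lit 6739462)]) FT.nil) (FT.cons (FT.cons (FT.leaf [(nat_lit 7229182)]) FT.nil) FT.nil))))))) (FT.cons (FT.cons (FT.cons (FT.leaf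
 [(nat_lit 5038279), (nat_lit 5199899), (nat_lit 5367928), (nat_lit 5540607), (nat_lit 5716630), (nat_lit 5894993), (nat_lit 6074903), (nat_lit 6255725)]) (FT.cons (FT.leaf [(nat_lit 5345097), (nat_lit 5513581), (nat_lit 5686281), (nat_lit 5861974), (nat_lit 6039720), (nat_lit 6218780), (nat_lit 6398561)]) (FT.cons (FT.leaf [(nat_lit 5658579), (nat_lit 5831111), (nat_lit 6006323), (nat_lit 6183334), (nat_lit 6361450)]) (FT.cons (FT.leaf [(nat_lit 5975012), (nat_lit 6149614), (nat_lit 6325787), (nat_lit 6502881)]) (FT.cons (FT.leaf [(nat_lit 6291793), (nat_lit 6467041)]) (FT.cons (FT.leaf [(nat_lit 6607065)]) FT.nil)))))) (FT.cons (FT.cons (FT.leaf [(nat_lit 5548960), (nat_lit 5716260), (nat_lit 5887468), (nat_lit 6061418), (nat_lit 6237216), (nat_lit 6414164)]) (FT.cons (FT.leaf [(nat_lit 5859553), (nat_lit 6030463), (nat_lit 6203830), (nat_lit 6378816), (nat_lit 6554765)]) (FT.cons (FT.leaf [(nat_lit 6172474), (nat_lit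 6345147), (nat_lit 6519234), (nat_lit 6694116)]) (FT.cons (FT.leaf [(nat_lit 6485326), (nat_lit 6658438)]) (FT.cons (FT.leaf [(nat_lit 6796405)]) FT.nil))))) (FT.cons (FT.cons (FT.leaf [(nat_lit 6057531), (nat_lit 6226737), (nat_lit 6398206), (nat_lit 6571137),
 (nat_lit 6744907)]) (FT.cons (FT.leaf [(nat_lit 6366842), (nat_lit 6537548), (nat_lit 6709530), (nat_lit 6882200)]) (FT.cons (FT.leaf [(nat_lit 6675734), (nat_lit 6846702)]) FT.nil))) (FT.cons (FT.cons (FT.leaf [(nat_lit 6558142)]) (FT.cons (FT.leaf [(nat_lit 6863063)]) FT.nil)) (FT.cons (FT.cons (FT.leaf [(nat_lit 7047370)]) FT.nil) (FT.cons (FT.cons (FT.leaf [(nat_lit 7523305)]) FT.nil) FT.nil)))))) (FT.cons (FT.cons (FT.cons (FT.leaf [(nat_lit 5888276), (nat_lit 6051599), (nat_lit 6218585), (nat_lit 6388124), (nat_lit 6559370), (nat_lit 6731666)]) (FT.cons (FT.leaf [(nat_lit 6190989), (nat_lit 6357615), (nat_lit 6526536), (nat_lit 6696958), (nat_lit 6868263)])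 (FT.cons (FT.leaf [(nat_lit 6495663), (nat_lit 6663871), (nat_lit 6833394), (nat_lit 7003649)]) (FT.cons (FT.leaf [(nat_lit 6800093), (nat_lit 6968653)]) FT.nil)))) (FT.cons (FT.cons (FT.leaf [(nat_lit 6383041), (nat_lit 6547979), (nat_lit 6715040), (nat_lit 6883464), (nat_lit 7052662)]) (FT.cons (FT.leaf [(nat_lit 6684178), (nat_lit 6850469), (nat_lit 7017955), (nat_lit 7186079)]) (FT.cons (FT.leaf [(nat_lit 6984775), (nat_lit 7151268)]) FT.nil))) (FT.cons (FT.cons (FT.leaf [(nat_lit 6869757)]) (FT.cons (FT.leaf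
 [(nat_lit 7166526)]) FT.nil)) (FT.cons (FT.cons (FT.leaf [(nat_lit 7345400)]) FT.nil) (FT.cons (FT.cons (FT.leaf [(nat_lit 7808289)]) FT.nil) FT.nil))))) (FT.cons (FT.cons (FT.cons (FT.leaf [(nat_lit 6697915), (nat_lit 6858752), (nat_lit 7021595)]) (FT.cons (FT.leaf [(nat_lit 6991231), (nat_lit 7153306)]) (FT.cons (FT.leaf [(nat_lit 7283929)]) FT.nil))) (FT.cons (FT.cons (FT.leaf [(nat_lit 7171392)]) (FT.cons (FT.leaf [(nat_lit 7460407)]) FT.nil)) (FT.cons (FT.cons (FT.leaf [(nat_lit 7634148)]) FT.nil) FT.nil))) (FT.cons (FT.cons (FT.cons (FT.leaf [(nat_lit 7463641)]) FT.nil) (FT.cons (FT.cons (FT.leaf [(nat_lit 7914161)]) FT.nil) FT.nil)) (FT.cons (FT.cons (FT.cons (FT.leaf [(nat_lit 8185955)]) FT.nil) FT.nil) (FT.cons (FT.cons (FT.cons (FT.leaf [(nat_lit 8867122)]) FT.nil) FT.nil) (FT.cons (FT.cons (FT.cons (FT.leaf [(nat_lit 9510113)]) FT.nil) FT.nil) FT.nil)))))))) (FT.cons (FT.cons (FT.cons (FT.cons (FT.leaf [(nat_lit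 6016465), (nat_lit 6162723), (nat_lit 6314827), (nat_lit 6471221), (nat_lit 6630758), (nat_lit 6792556), (nat_lit 6955922), (nat_lit 7120299)]) (FT.cons (FT.leaf [(nat_lit 6293661), (nat_lit 6446270), (nat_lit 6602799), (nat_lit 6762172), (nat_lit 6923563),
 (nat_lit 7086322), (nat_lit 7249928)]) (FT.cons (FT.leaf [(nat_lit 6577236), (nat_lit 6733743), (nat_lit 6892825), (nat_lit 7053707), (nat_lit 7215778)]) (FT.cons (FT.leaf [(nat_lit 6863980), (nat_lit 7022662), (nat_lit 7182948), (nat_lit 7344261)]) (FT.cons (FT.leaf [(nat_lit 7151637), (nat_lit 7311249)]) (FT.cons (FT.leaf [(nat_lit 7438584)]) FT.nil)))))) (FT.cons (FT.cons (FT.leaf [(nat_lit 6476956), (nat_lit 6628696), (nat_lit 6784101), (nat_lit 6942138), (nat_lit 7102019), (nat_lit 7263126)]) (FT.cons (FT.leaf [(nat_lit 6758331), (nat_lit 6913602), (nat_lit 7071262), (nat_lit 7230567), (nat_lit 7390936)]) (FT.cons (FT.leaf [(nat_lit 7042351), (nat_lit 7199536),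 (nat_lit 7358189), (nat_lit 7517759)]) (FT.cons (FT.leaf [(nat_lit 7326923), (nat_lit 7484856)]) (FT.cons (FT.leaf [(nat_lit 7610546)]) FT.nil))))) (FT.cons (FT.cons (FT.leaf [(nat_lit 6937053), (nat_lit 7091020), (nat_lit 7247206), (nat_lit 7404902), (nat_lit 7563551)]) (FT.cons (FT.leaf [(nat_lit 7218259), (nat_lit 7373911), (nat_lit 7530907), (nat_lit 7688724)]) (FT.cons (FT.leaf [(nat_lit 7499708), (nat_lit 7655948)]) FT.nil))) (FT.cons (FT.cons (FT.leaf [(nat_lit 7391720)]) (FT.cons (FT.leaf [(nat_lit 7670022)])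
 FT.nil)) (FT.cons (FT.cons (FT.leaf [(nat_lit 7837897)]) FT.nil) (FT.cons (FT.cons (FT.leaf [(nat_lit 8273772)]) FT.nil) FT.nil)))))) (FT.cons (FT.cons (FT.cons (FT.leaf [(nat_lit 6781094), (nat_lit 6929707), (nat_lit 7081780), (nat_lit 7236321), (nat_lit 7392581), (nat_lit 7549974)]) (FT.cons (FT.leaf [(nat_lit 7056248), (nat_lit 7208129), (nat_lit 7362255), (nat_lit 7517920), (nat_lit 7674569)]) (FT.cons (FT.leaf [(nat_lit 7333719), (nat_lit 7487346), (nat_lit 7642347), (nat_lit 7798201)]) (FT.cons (FT.leaf [(nat_lit 7611561), (nat_lit 7765841)]) FT.nil)))) (FT.cons (FT.cons (FT.leaf [(nat_lit 7230259), (nat_lit 7380833), (nat_lit 7533503), (nat_lit 7687589), (nat_lit 7842562)]) (FT.cons (FT.leaf [(nat_lit 7504949), (nat_lit 7657068), (nat_lit 7810453), (nat_lit 7964604)]) (FT.cons (FT.leaf [(nat_lit 7779744), (nat_lit 7932377)]) FT.nil))) (FT.cons (FT.cons (FT.leaf [(nat_lit 7673819)]) (FT.cons (FT.leaf [(nat_lit 7945554)])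 FT.nil)) (FT.cons (FT.cons (FT.leaf [(nat_lit 8109027)]) FT.nil) (FT.cons (FT.cons (FT.leaf [(nat_lit 8534259)]) FT.nil) FT.nil))))) (FT.cons (FT.cons (FT.cons (FT.leaf [(nat_lit 7514992), (nat_lit 7662281), (nat_lit 7811560)]) (FT.cons (FT.leaf [(nat_lit
 7783399), (nat_lit 7932118)]) (FT.cons (FT.leaf [(nat_lit 8051807)]) FT.nil))) (FT.cons (FT.cons (FT.leaf [(nat_lit 7947888)]) (FT.cons (FT.leaf [(nat_lit 8213329)]) FT.nil)) (FT.cons (FT.cons (FT.leaf [(nat_lit 8372611)]) FT.nil) FT.nil))) (FT.cons (FT.cons (FT.cons (FT.leaf [(nat_lit 8214344)]) FT.nil) (FT.cons (FT.cons (FT.leaf [(nat_lit 8629045)]) FT.nil) FT.nil)) (FT.cons (FT.cons (FT.cons (FT.leaf [(nat_lit 8878694)]) FT.nil) FT.nil) (FT.cons (FT.cons (FT.cons (FT.leaf [(nat_lit 9509193)]) FT.nil) FT.nil) FT.nil)))))) (FT.cons (FT.cons (FT.cons (FT.cons (FT.leaf [(nat_lit 7579500), (nat_lit 7716385), (nat_lit 7856529), (nat_lit 7999038), (nat_lit 8143235)]) (FT.cons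 (FT.leaf [(nat_lit 7832664), (nat_lit 7972720), (nat_lit 8114945), (nat_lit 8258697)]) (FT.cons (FT.leaf [(nat_lit 8088304), (nat_lit 8230168)]) (FT.cons (FT.leaf [(nat_lit 8344680)]) FT.nil)))) (FT.cons (FT.cons (FT.leaf [(nat_lit 7992253), (nat_lit 8131262), (nat_lit 8272306)]) (FT.cons (FT.leaf [(nat_lit 8245632), (nat_lit 8386271)]) (FT.cons (FT.leaf [(nat_lit 8499509)]) FT.nil))) (FT.cons (FT.cons (FT.leaf [(nat_lit 8401006)]) (FT.cons (FT.leaf [(nat_lit 8652365)]) FT.nil)) (FT.cons (FT.cons (FT.leaf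
 [(nat_lit 8803272)]) FT.nil) FT.nil)))) (FT.cons (FT.cons (FT.cons (FT.leaf [(nat_lit 8252844), (nat_lit 8389144), (nat_lit 8527383)]) (FT.cons (FT.leaf [(nat_lit 8501029), (nat_lit 8638848)]) (FT.cons (FT.leaf [(nat_lit 8749600)]) FT.nil))) (FT.cons (FT.cons (FT.leaf [(nat_lit 8652764)]) (FT.cons (FT.leaf [(nat_lit 8898878)]) FT.nil)) (FT.cons (FT.cons (FT.leaf [(nat_lit 9046278)]) FT.nil) FT.nil))) (FT.cons (FT.cons (FT.cons (FT.leaf [(nat_lit 8898188)]) FT.nil) (FT.cons (FT.cons (FT.leaf [(nat_lit 9283292)]) FT.nil) FT.nil)) (FT.cons (FT.cons (FT.cons (FT.leaf [(nat_lit 9514588)]) FT.nil) FT.nil) FT.nil)))) (FT.cons (FT.cons (FT.cons (FT.cons (FT.leaf [(nat_lit 8926868), (nat_lit 9054021), (nat_lit 9183050)]) (FT.cons (FT.leaf [(nat_lit 9158215), (nat_lit 9286924)]) (FT.cons (FT.leaf [(nat_lit 9390197)]) FT.nil))) (FT.cons (FT.cons (FT.leaf [(nat_lit 9299319)]) (FT.cons (FT.leaf [(nat_lit 9529222)]) FT.nil)) (FT.cons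 (FT.cons (FT.leaf [(nat_lit 9666644)]) FT.nil) FT.nil))) (FT.cons (FT.cons (FT.cons (FT.leaf [(nat_lit 9527193)]) FT.nil) (FT.cons (FT.cons (FT.leaf [(nat_lit 9887326)]) FT.nil) FT.nil)) FT.nil)) (FT.cons (FT.cons (FT.cons (FT.cons (FT.leaf [(nat_lit 10110276)])
 FT.nil) FT.nil) FT.nil) (FT.cons (FT.cons (FT.cons (FT.cons (FT.leaf [(nat_lit 11165203)]) FT.nil) FT.nil) FT.nil) (FT.cons (FT.cons (FT.cons (FT.cons (FT.leaf [(nat_lit 12116858)]) FT.nil) FT.nil) FT.nil) FT.nil))))))))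

def f136_1_400 : FT := (FT.cons (FT.cons (FT.cons (FT.cons (FT.leaf [(nat_lit 2745144), (nat_lit 2918164), (nat_lit 3104182), (nat_lit 3299829), (nat_lit 3502622), (nat_lit 3710646), (nat_lit 3922387), (nat_lit 4136620), (nat_lit 4352356), (nat_lit 4568782)]) (FT.cons (FT.leaf [(nat_lit 3088209), (nat_lit 3276786), (nat_lit 3474016), (nat_lit 3677588), (nat_lit 3885730), (nat_lit 4097041), (nat_lit 4310401), (nat_lit 4524899), (nat_lit 4739795)]) (FT.cons (FT.leaf [(nat_lit 3449573), (nat_lit 3647874), (nat_lit 3851813), (nat_lit 4059739), (nat_lit 4270358), (nat_lit 4482636), (nat_lit 4695738)]) (FT.cons (FT.leaf [(nat_lit 3821125), (nat_lit 4025078), (nat_lit 4232508), (nat_lit 4442213), (nat_lit 4653236)]) (FT.cons (FT.leaf [(nat_lit 4197205), (nat_lit 4403901), (nat_lit 4612504), (nat_lit 4822127)]) (FT.cons (FT.leaf [(nat_lit 4573807), (nat_lit 4781149)]) (FT.cons (FT.leaf [(nat_lit 4948090)]) FT.nil))))))) (FT.cons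 (FT.cons (FT.leaf [(nat_lit 3336145), (nat_lit 3524643), (nat_lit 3721056), (nat_lit 3923182), (nat_lit 4129353), (nat_lit 4338264), (nat_lit 4548876), (nat_lit 4760353)]) (FT.cons (FT.leaf [(nat_lit 3695913), (nat_lit 3892987), (nat_lit 4095150), (nat_lit 4300848), (nat_lit 4508869),
 (nat_lit 4718253), (nat_lit 4928230)]) (FT.cons (FT.leaf [(nat_lit 4064088), (nat_lit 4265993), (nat_lit 4470982), (nat_lit 4677930), (nat_lit 4885944)]) (FT.cons (FT.leaf [(nat_lit 4435568), (nat_lit 4639650), (nat_lit 4845368), (nat_lit 5051894)]) (FT.cons (FT.leaf [(nat_lit 4806764), (nat_lit 5011123)]) (FT.cons (FT.leaf [(nat_lit 5175148)]) FT.nil)))))) (FT.cons (FT.cons (FT.leaf [(nat_lit 3938642), (nat_lit 4134165), (nat_lit 4334307), (nat_lit 4537596), (nat_lit 4742897), (nat_lit 4949314)]) (FT.cons (FT.leaf [(nat_lit 4302958), (nat_lit 4502622), (nat_lit 4705036), (nat_lit 4909139), (nat_lit 5114101)]) (FT.cons (FT.leaf [(nat_lit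 4669572), (nat_lit 4870944), (nat_lit 5073722), (nat_lit 5277130)]) (FT.cons (FT.leaf [(nat_lit 5035254), (nat_lit 5236599)]) (FT.cons (FT.leaf [(nat_lit 5397738)]) FT.nil))))) (FT.cons (FT.cons (FT.leaf [(nat_lit 4537659), (nat_lit 4734940), (nat_lit 4934685), (nat_lit 5135893), (nat_lit 5337782)]) (FT.cons (FT.leaf [(nat_lit 4899227), (nat_lit 5097825), (nat_lit 5297635), (nat_lit 5497927)]) (FT.cons (FT.leaf [(nat_lit 5259340), (nat_lit 5457663)]) FT.nil))) (FT.cons (FT.cons (FT.leaf [(nat_lit 5124568), (nat_lit 5320357)]) (FT.cons (FT.leaf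
 [(nat_lit 5479099)]) FT.nil)) (FT.cons (FT.cons (FT.leaf [(nat_lit 5694625)]) FT.nil) (FT.cons (FT.cons (FT.leaf [(nat_lit 6245456)]) FT.nil) FT.nil))))))) (FT.cons (FT.cons (FT.cons (FT.leaf [(nat_lit 3761926), (nat_lit 3945982), (nat_lit 4137298), (nat_lit 4333794), (nat_lit 4533911), (nat_lit 4736444), (nat_lit 4940443), (nat_lit 5145143), (nat_lit 5349931), (nat_lit 5554307)]) (FT.cons (FT.leaf [(nat_lit 4112173), (nat_lit 4303864), (nat_lit 4500188), (nat_lit 4699690), (nat_lit 4901250), (nat_lit 5103985), (nat_lit 5307190), (nat_lit 5510297), (nat_lit 5712845)]) (FT.cons (FT.leaf [(nat_lit 4469485), (nat_lit 4665392), (nat_lit 4864088), (nat_lit 5064524), (nat_lit 5265881), (nat_lit 5467505), (nat_lit 5668869)]) (FT.cons (FT.leaf [(nat_lit 4829296), (nat_lit 5027020), (nat_lit 5226208), (nat_lit 5426092), (nat_lit 5626065)]) (FT.cons (FT.leaf [(nat_lit 5188425), (nat_lit 5386257), (nat_lit 5584590), (nat_lit 5782855)])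 (FT.cons (FT.leaf [(nat_lit 5544636), (nat_lit 5741355)]) (FT.cons (FT.leaf [(nat_lit 5896374)]) FT.nil))))))) (FT.cons (FT.cons (FT.leaf [(nat_lit 4346509), (nat_lit 4536495), (nat_lit 4730716), (nat_lit 4927794), (nat_lit 5126671), (nat_lit 5326521),
 (nat_lit 5526687), (nat_lit 5726640)]) (FT.cons (FT.leaf [(nat_lit 4699793), (nat_lit 4893428), (nat_lit 5089570), (nat_lit 5287233), (nat_lit 5485644), (nat_lit 5684191), (nat_lit 5882386)]) (FT.cons (FT.leaf [(nat_lit 5054771), (nat_lit 5249841), (nat_lit 5446184), (nat_lit 5643078), (nat_lit 5839952)]) (FT.cons (FT.leaf [(nat_lit 5408555), (nat_lit 5603492), (nat_lit 5798804), (nat_lit 5993961)]) (FT.cons (FT.leaf [(nat_lit 5759131), (nat_lit 5952811)]) (FT.cons (FT.leaf [(nat_lit 6105094)]) FT.nil)))))) (FT.cons (FT.cons (FT.leaf [(nat_lit 4926056), (nat_lit 5117322), (nat_lit 5310855), (nat_lit 5505717), (nat_lit 5701183), (nat_lit 5896678)]) (FT.cons (FT.leaf [(nat_lit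 5276091), (nat_lit 5468473), (nat_lit 5661964), (nat_lit 5855883), (nat_lit 6049693)]) (FT.cons (FT.leaf [(nat_lit 5624520), (nat_lit 5816568), (nat_lit 6008888), (nat_lit 6200979)]) (FT.cons (FT.leaf [(nat_lit 5969513), (nat_lit 6160194)]) (FT.cons (FT.leaf [(nat_lit 6309800)]) FT.nil))))) (FT.cons (FT.cons (FT.leaf [(nat_lit 5493313), (nat_lit 5682991), (nat_lit 5873638), (nat_lit 6064610), (nat_lit 6255400)]) (FT.cons (FT.leaf [(nat_lit 5836405), (nat_lit 6025584), (nat_lit 6214950), (nat_lit 6404027)])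
 (FT.cons (FT.leaf [(nat_lit 6175888), (nat_lit 6363615)]) FT.nil))) (FT.cons (FT.cons (FT.leaf [(nat_lit 6044302)]) (FT.cons (FT.leaf [(nat_lit 6378362)]) FT.nil)) (FT.cons (FT.cons (FT.leaf [(nat_lit 6577045)]) FT.nil) (FT.cons (FT.cons (FT.leaf [(nat_lit 7090783)]) FT.nil) FT.nil))))))) (FT.cons (FT.cons (FT.cons (FT.leaf [(nat_lit 4738218), (nat_lit 4922802), (nat_lit 5111310), (nat_lit 5302441), (nat_lit 5495208), (nat_lit 5688842), (nat_lit 5882733), (nat_lit 6076394)]) (FT.cons (FT.leaf [(nat_lit 5080835), (nat_lit 5268690), (nat_lit 5458859), (nat_lit 5650416), (nat_lit 5842643), (nat_lit 6034972), (nat_lit 6226948)]) (FT.cons (FT.leaf [(nat_lit 5424719), (nat_lit 5613811), (nat_lit 5804072), (nat_lit 5994829), (nat_lit 6185550)]) (FT.cons (FT.leaf [(nat_lit 5767259), (nat_lit 5956152), (nat_lit 6145387), (nat_lit 6334464)]) (FT.cons (FT.leaf [(nat_lit 6106639), (nat_lit 6294309)]) (FT.cons (FT.leaf [(nat_lit 6441595)])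 FT.nil)))))) (FT.cons (FT.cons (FT.leaf [(nat_lit 5299129), (nat_lit 5484660), (nat_lit 5672299), (nat_lit 5861165), (nat_lit 6050579), (nat_lit 6240005)]) (FT.cons (FT.leaf [(nat_lit 5638219), (nat_lit 5824720), (nat_lit 6012253), (nat_lit 6200177),
 (nat_lit 6387992)]) (FT.cons (FT.leaf [(nat_lit 5975634), (nat_lit 6161772), (nat_lit 6348165), (nat_lit 6534340)]) (FT.cons (FT.leaf [(nat_lit 6309712), (nat_lit 6494539)]) (FT.cons (FT.leaf [(nat_lit 6639303)]) FT.nil))))) (FT.cons (FT.cons (FT.leaf [(nat_lit 5847836), (nat_lit 6031745), (nat_lit 6216567), (nat_lit 6401693), (nat_lit 6586646)]) (FT.cons (FT.leaf [(nat_lit 6180162), (nat_lit 6363573), (nat_lit 6547165), (nat_lit 6730490)]) (FT.cons (FT.leaf [(nat_lit 6509019), (nat_lit 6691050)]) FT.nil))) (FT.cons (FT.cons (FT.leaf [(nat_lit 6380936)]) (FT.cons (FT.leaf [(nat_lit 6704662)]) FT.nil)) (FT.cons (FT.cons (FT.leaf [(nat_lit 6896745)]) FT.nil) (FT.cons (FT.cons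 (FT.leaf [(nat_lit 7394629)]) FT.nil) FT.nil)))))) (FT.cons (FT.cons (FT.cons (FT.leaf [(nat_lit 5657916), (nat_lit 5837996), (nat_lit 6020056), (nat_lit 6203264), (nat_lit 6386977)]) (FT.cons (FT.leaf [(nat_lit 5986645), (nat_lit 6167592), (nat_lit 6349508), (nat_lit 6531793)]) (FT.cons (FT.leaf [(nat_lit 6313683), (nat_lit 6494259)]) (FT.cons (FT.leaf [(nat_lit 6637507)]) FT.nil)))) (FT.cons (FT.cons (FT.leaf [(nat_lit 6189138), (nat_lit 6367608), (nat_lit 6546945)]) (FT.cons (FT.leaf [(nat_lit 6511334),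
 (nat_lit 6689319)]) (FT.cons (FT.leaf [(nat_lit 6830212)]) FT.nil))) (FT.cons (FT.cons (FT.leaf [(nat_lit 6705450)]) (FT.cons (FT.leaf [(nat_lit 7019473)]) FT.nil)) (FT.cons (FT.cons (FT.leaf [(nat_lit 7205387)]) FT.nil) (FT.cons (FT.cons (FT.leaf [(nat_lit 7688404)]) FT.nil) FT.nil))))) (FT.cons (FT.cons (FT.cons (FT.leaf [(nat_lit 6518142), (nat_lit 6691479), (nat_lit 6865648)]) (FT.cons (FT.leaf [(nat_lit 6830797), (nat_lit 7003675)]) (FT.cons (FT.leaf [(nat_lit 7140295)]) FT.nil))) (FT.cons (FT.cons (FT.leaf [(nat_lit 7018682)]) (FT.cons (FT.leaf [(nat_lit 7323582)]) FT.nil)) (FT.cons (FT.cons (FT.leaf [(nat_lit 7503719)]) FT.nil) FT.nil))) (FT.cons (FT.cons (FT.cons (FT.leaf [(nat_lit 7321392)]) FT.nil) (FT.cons (FT.cons (FT.leaf [(nat_lit 7792420)]) FT.nil) FT.nil)) (FT.cons (FT.cons (FT.cons (FT.leaf [(nat_lit 8072106)]) FT.nil) FT.nil) (FT.cons (FT.cons (FT.cons (FT.leaf [(nat_lit 8775168)]) FT.nil) FT.nil) (FT.cons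 (FT.cons (FT.cons (FT.leaf [(nat_lit 9435298)]) FT.nil) FT.nil) FT.nil))))))))) (FT.cons (FT.cons (FT.cons (FT.cons (FT.leaf [(nat_lit 4911988), (nat_lit 5075030), (nat_lit 5244608), (nat_lit 5418937), (nat_lit 5596691), (nat_lit 5776841), (nat_lit 5958578),
 (nat_lit 6141255), (nat_lit 6324341), (nat_lit 6507405)]) (FT.cons (FT.leaf [(nat_lit 5221701), (nat_lit 5391778), (nat_lit 5566157), (nat_lit 5743595), (nat_lit 5923136), (nat_lit 6104023), (nat_lit 6285651), (nat_lit 6467529), (nat_lit 6649256)]) (FT.cons (FT.leaf [(nat_lit 5538303), (nat_lit 5712536), (nat_lit 5889504), (nat_lit 6068310), (nat_lit 6248247), (nat_lit 6428751), (nat_lit 6609363)]) (FT.cons (FT.leaf [(nat_lit 5857983), (nat_lit 6034345), (nat_lit 6212310), (nat_lit 6391215), (nat_lit 6570530)]) (FT.cons (FT.leaf [(nat_lit 6178062), (nat_lit 6355095), (nat_lit 6532896), (nat_lit 6710969)]) (FT.cons (FT.leaf [(nat_lit 6496631), (nat_lit 6673268)]) (FT.cons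 (FT.leaf [(nat_lit 6812315)]) FT.nil))))))) (FT.cons (FT.cons (FT.leaf [(nat_lit 5427864), (nat_lit 5596766), (nat_lit 5769654), (nat_lit 5945338), (nat_lit 6122910), (nat_lit 6301657), (nat_lit 6481008), (nat_lit 6660503)]) (FT.cons (FT.leaf [(nat_lit 5741576), (nat_lit 5914177), (nat_lit 6089283), (nat_lit 6266039), (nat_lit 6443777), (nat_lit 6621964), (nat_lit 6800169)]) (FT.cons (FT.leaf [(nat_lit 6057710), (nat_lit 6232121), (nat_lit 6407970), (nat_lit 6584628), (nat_lit 6761597)]) (FT.cons (FT.leaf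
 [(nat_lit 6373806), (nat_lit 6548669), (nat_lit 6724189), (nat_lit 6899894)]) (FT.cons (FT.leaf [(nat_lit 6688112), (nat_lit 6862442)]) (FT.cons (FT.leaf [(nat_lit 6999375)]) FT.nil)))))) (FT.cons (FT.cons (FT.leaf [(nat_lit 5941808), (nat_lit 6112692), (nat_lit 6285876), (nat_lit 6460548), (nat_lit 6636072), (nat_lit 6811943)]) (FT.cons (FT.leaf [(nat_lit 6254290), (nat_lit 6426707), (nat_lit 6600419), (nat_lit 6774827), (nat_lit 6949459)]) (FT.cons (FT.leaf [(nat_lit 6566364), (nat_lit 6739050), (nat_lit 6912293), (nat_lit 7085648)]) (FT.cons (FT.leaf [(nat_lit 6876421), (nat_lit 7048457)]) (FT.cons (FT.leaf [(nat_lit 7183312)]) FT.nil))))) (FT.cons (FT.cons (FT.leaf [(nat_lit 6447747), (nat_lit 6618143), (nat_lit 6789708), (nat_lit 6961873), (nat_lit 7134186)]) (FT.cons (FT.leaf [(nat_lit 6755786), (nat_lit 6926293), (nat_lit 7097273), (nat_lit 7268303)]) (FT.cons (FT.leaf [(nat_lit 7061621), (nat_lit 7231383)]) FT.nil)))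 (FT.cons (FT.cons (FT.leaf [(nat_lit 6942125)]) (FT.cons (FT.leaf [(nat_lit 7243778)]) FT.nil)) (FT.cons (FT.cons (FT.leaf [(nat_lit 7422959)]) FT.nil) (FT.cons (FT.cons (FT.leaf [(nat_lit 7889268)]) FT.nil) FT.nil))))))) (FT.cons (FT.cons (FT.cons (FT.leaf
 [(nat_lit 5771406), (nat_lit 5936278), (nat_lit 6104880), (nat_lit 6276079), (nat_lit 6449017), (nat_lit 6623024), (nat_lit 6797566), (nat_lit 6972212)]) (FT.cons (FT.leaf [(nat_lit 6077118), (nat_lit 6245366), (nat_lit 6415947), (nat_lit 6588055), (nat_lit 6761058), (nat_lit 6934457), (nat_lit 7107848)]) (FT.cons (FT.leaf [(nat_lit 6384861), (nat_lit 6554724), (nat_lit 6725922), (nat_lit 6897862), (nat_lit 7070073)]) (FT.cons (FT.leaf [(nat_lit 6692373), (nat_lit 6862595), (nat_lit 7033421), (nat_lit 7204406)]) (FT.cons (FT.leaf [(nat_lit 6998052), (nat_lit 7167720)]) (FT.cons (FT.leaf [(nat_lit 7300755)]) FT.nil)))))) (FT.cons (FT.cons (FT.leaf [(nat_lit 6271309),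 (nat_lit 6437849), (nat_lit 6606544), (nat_lit 6776623), (nat_lit 6947485), (nat_lit 7118656)]) (FT.cons (FT.leaf [(nat_lit 6575465), (nat_lit 6743384), (nat_lit 6912512), (nat_lit 7082284), (nat_lit 7252253)]) (FT.cons (FT.leaf [(nat_lit 6879083), (nat_lit 7047203), (nat_lit 7215842), (nat_lit 7384576)]) (FT.cons (FT.leaf [(nat_lit 7180680), (nat_lit 7348149)]) (FT.cons (FT.leaf [(nat_lit 7479204)]) FT.nil))))) (FT.cons (FT.cons (FT.leaf [(nat_lit 6763080), (nat_lit 6929038), (nat_lit 7096094), (nat_lit 7263710),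
 (nat_lit 7431457)]) (FT.cons (FT.leaf [(nat_lit 7062804), (nat_lit 7228829), (nat_lit 7395298), (nat_lit 7561809)]) (FT.cons (FT.leaf [(nat_lit 7360356), (nat_lit 7525648)]) FT.nil))) (FT.cons (FT.cons (FT.leaf [(nat_lit 7243593)]) (FT.cons (FT.leaf [(nat_lit 7537143)]) FT.nil)) (FT.cons (FT.cons (FT.leaf [(nat_lit 7711108)]) FT.nil) (FT.cons (FT.cons (FT.leaf [(nat_lit 8164771)]) FT.nil) FT.nil)))))) (FT.cons (FT.cons (FT.cons (FT.leaf [(nat_lit 6589933), (nat_lit 6752297), (nat_lit 6916696), (nat_lit 7082392), (nat_lit 7248817), (nat_lit 7415521)]) (FT.cons (FT.leaf [(nat_lit 6886121), (nat_lit 7049743), (nat_lit 7214504), (nat_lit 7379867), (nat_lit 7545407)]) (FT.cons (FT.leaf [(nat_lit 7181684), (nat_lit 7345460), (nat_lit 7509724), (nat_lit 7674075)]) (FT.cons (FT.leaf [(nat_lit 7475249), (nat_lit 7638383)]) FT.nil)))) (FT.cons (FT.cons (FT.leaf [(nat_lit 7068204), (nat_lit 7229929), (nat_lit 7392696), (nat_lit 7555989),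 (nat_lit 7719404)]) (FT.cons (FT.leaf [(nat_lit 7360020), (nat_lit 7521783), (nat_lit 7683968), (nat_lit 7846194)]) (FT.cons (FT.leaf [(nat_lit 7649711), (nat_lit 7810763)]) FT.nil))) (FT.cons (FT.cons (FT.leaf [(nat_lit 7535566)]) (FT.cons (FT.leaf
 [(nat_lit 7821431)]) FT.nil)) (FT.cons (FT.cons (FT.leaf [(nat_lit 7990473)]) FT.nil) (FT.cons (FT.cons (FT.leaf [(nat_lit 8432167)]) FT.nil) FT.nil))))) (FT.cons (FT.cons (FT.cons (FT.leaf [(nat_lit 7363726), (nat_lit 7521417), (nat_lit 7680101)]) (FT.cons (FT.leaf [(nat_lit 7648020), (nat_lit 7805731)]) (FT.cons (FT.leaf [(nat_lit 7930249)]) FT.nil))) (FT.cons (FT.cons (FT.leaf [(nat_lit 7818611)]) (FT.cons (FT.leaf [(nat_lit 8097181)]) FT.nil)) (FT.cons (FT.cons (FT.leaf [(nat_lit 8261570)]) FT.nil) FT.nil))) (FT.cons (FT.cons (FT.cons (FT.leaf [(nat_lit 8093249)]) FT.nil) (FT.cons (FT.cons (FT.leaf [(nat_lit 8524877)]) FT.nil) FT.nil)) (FT.cons (FT.cons (FT.cons (FT.leaf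 [(nat_lit 8780831)]) FT.nil) FT.nil) (FT.cons (FT.cons (FT.cons (FT.leaf [(nat_lit 9429509)]) FT.nil) FT.nil) (FT.cons (FT.cons (FT.cons (FT.leaf [(nat_lit 10042470)]) FT.nil) FT.nil) FT.nil)))))))) (FT.cons (FT.cons (FT.cons (FT.cons (FT.leaf [(nat_lit 6676438), (nat_lit 6826278), (nat_lit 6979631), (nat_lit 7135494), (nat_lit 7293105), (nat_lit 7451869), (nat_lit 7611311), (nat_lit 7771046)]) (FT.cons (FT.leaf [(nat_lit 6953969), (nat_lit 7107140), (nat_lit 7262591), (nat_lit 7419605), (nat_lit 7577620),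
 (nat_lit 7736189), (nat_lit 7894951)]) (FT.cons (FT.leaf [(nat_lit 7233885), (nat_lit 7388837), (nat_lit 7545184), (nat_lit 7702395), (nat_lit 7860049)]) (FT.cons (FT.leaf [(nat_lit 7514198), (nat_lit 7669817), (nat_lit 7826177), (nat_lit 7982880)]) (FT.cons (FT.leaf [(nat_lit 7793484), (nat_lit 7948953)]) (FT.cons (FT.leaf [(nat_lit 8070712)]) FT.nil)))))) (FT.cons (FT.cons (FT.leaf [(nat_lit 7129683), (nat_lit 7281536), (nat_lit 7435515), (nat_lit 7590931), (nat_lit 7747247), (nat_lit 7904037)]) (FT.cons (FT.leaf [(nat_lit 7406788), (nat_lit 7560214), (nat_lit 7714923), (nat_lit 7870406), (nat_lit 8026263)]) (FT.cons (FT.leaf [(nat_lit 7684013), (nat_lit 7837962), (nat_lit 7992572), (nat_lit 8147464)]) (FT.cons (FT.leaf [(nat_lit 7960031), (nat_lit 8113733)]) (FT.cons (FT.leaf [(nat_lit 8233883)]) FT.nil))))) (FT.cons (FT.cons (FT.leaf [(nat_lit 7577293), (nat_lit 7729171), (nat_lit 7882232), (nat_lit 8035990), (nat_lit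 8190057)]) (FT.cons (FT.leaf [(nat_lit 7851416), (nat_lit 8003690), (nat_lit 8156558), (nat_lit 8309652)]) (FT.cons (FT.leaf [(nat_lit 8124179), (nat_lit 8276126)]) FT.nil))) (FT.cons (FT.cons (FT.leaf [(nat_lit 8016442)]) (FT.cons (FT.leaf [(nat_lit 8285973)])
 FT.nil)) (FT.cons (FT.cons (FT.leaf [(nat_lit 8445457)]) FT.nil) (FT.cons (FT.cons (FT.leaf [(nat_lit 8863410)]) FT.nil) FT.nil)))))) (FT.cons (FT.cons (FT.cons (FT.leaf [(nat_lit 7417402), (nat_lit 7565923), (nat_lit 7716458), (nat_lit 7868346), (nat_lit 8021077), (nat_lit 8174243)]) (FT.cons (FT.leaf [(nat_lit 7688127), (nat_lit 7838098), (nat_lit 7989281), (nat_lit 8141192), (nat_lit 8293447)]) (FT.cons (FT.leaf [(nat_lit 7958858), (nat_lit 8109290), (nat_lit 8260346), (nat_lit 8411661)]) (FT.cons (FT.leaf [(nat_lit 8228358), (nat_lit 8378528)]) FT.nil)))) (FT.cons (FT.cons (FT.leaf [(nat_lit 7854172), (nat_lit 8002633), (nat_lit 8152217), (nat_lit 8302457),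 (nat_lit 8452987)]) (FT.cons (FT.leaf [(nat_lit 8121893), (nat_lit 8270704), (nat_lit 8420076), (nat_lit 8569660)]) (FT.cons (FT.leaf [(nat_lit 8388253), (nat_lit 8536730)]) FT.nil))) (FT.cons (FT.cons (FT.leaf [(nat_lit 8282651)]) (FT.cons (FT.leaf [(nat_lit 8545896)]) FT.nil)) (FT.cons (FT.cons (FT.leaf [(nat_lit 8701331)]) FT.nil) (FT.cons (FT.cons (FT.leaf [(nat_lit 9109379)]) FT.nil) FT.nil))))) (FT.cons (FT.cons (FT.cons (FT.leaf [(nat_lit 8123287), (nat_lit 8268466), (nat_lit 8414717)]) (FT.cons (FT.leaf [(nat_lit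
 8384875), (nat_lit 8530367)]) (FT.cons (FT.leaf [(nat_lit 8645111)]) FT.nil))) (FT.cons (FT.cons (FT.leaf [(nat_lit 8541569)]) (FT.cons (FT.leaf [(nat_lit 8798806)]) FT.nil)) (FT.cons (FT.cons (FT.leaf [(nat_lit 8950389)]) FT.nil) FT.nil))) (FT.cons (FT.cons (FT.cons (FT.leaf [(nat_lit 8793572)]) FT.nil) (FT.cons (FT.cons (FT.leaf [(nat_lit 9192979)]) FT.nil) FT.nil)) (FT.cons (FT.cons (FT.cons (FT.leaf [(nat_lit 9429425)]) FT.nil) FT.nil) (FT.cons (FT.cons (FT.cons (FT.leaf [(nat_lit 10032775)]) FT.nil) FT.nil) FT.nil)))))) (FT.cons (FT.cons (FT.cons (FT.cons (FT.leaf [(nat_lit 8163588), (nat_lit 8300906), (nat_lit 8440188), (nat_lit 8580832), (nat_lit 8722374)]) (FT.cons (FT.leaf [(nat_lit 8413693), (nat_lit 8552554), (nat_lit 8692650), (nat_lit 8833541)]) (FT.cons (FT.leaf [(nat_lit 8664198), (nat_lit 8803704)]) (FT.cons (FT.leaf [(nat_lit 8913980)]) FT.nil)))) (FT.cons (FT.cons (FT.leaf [(nat_lit 8566721), (nat_lit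 8704344), (nat_lit 8843121)]) (FT.cons (FT.leaf [(nat_lit 8814739), (nat_lit 8952905)]) (FT.cons (FT.leaf [(nat_lit 9061908)]) FT.nil))) (FT.cons (FT.cons (FT.leaf [(nat_lit 8963375)]) (FT.cons (FT.leaf [(nat_lit 9207944)]) FT.nil)) (FT.cons (FT.cons (FT.leaf
 [(nat_lit 9352118)]) FT.nil) FT.nil)))) (FT.cons (FT.cons (FT.cons (FT.leaf [(nat_lit 8814358), (nat_lit 8949242), (nat_lit 9085229)]) (FT.cons (FT.leaf [(nat_lit 9057248), (nat_lit 9192630)]) (FT.cons (FT.leaf [(nat_lit 9299273)]) FT.nil))) (FT.cons (FT.cons (FT.leaf [(nat_lit 9202472)]) (FT.cons (FT.leaf [(nat_lit 9441978)]) FT.nil)) (FT.cons (FT.cons (FT.leaf [(nat_lit 9582895)]) FT.nil) FT.nil))) (FT.cons (FT.cons (FT.cons (FT.leaf [(nat_lit 9435753)]) FT.nil) (FT.cons (FT.cons (FT.leaf [(nat_lit 9808193)]) FT.nil) FT.nil)) (FT.cons (FT.cons (FT.cons (FT.leaf [(nat_lit 10028262)]) FT.nil) FT.nil) FT.nil)))) (FT.cons (FT.cons (FT.cons (FT.cons (FT.leaf [(nat_lit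 9449397), (nat_lit 9575620), (nat_lit 9702952)]) (FT.cons (FT.leaf [(nat_lit 9676549), (nat_lit 9803388)]) (FT.cons (FT.leaf [(nat_lit 9903179)]) FT.nil))) (FT.cons (FT.cons (FT.leaf [(nat_lit 9812106)]) (FT.cons (FT.leaf [(nat_lit 10036583)]) FT.nil)) (FT.cons (FT.cons (FT.leaf [(nat_lit 10168444)]) FT.nil) FT.nil))) (FT.cons (FT.cons (FT.cons (FT.leaf [(nat_lit 10029590)]) FT.nil) (FT.cons (FT.cons (FT.leaf [(nat_lit 10379046)]) FT.nil) FT.nil)) FT.nil)) (FT.cons (FT.cons (FT.cons (FT.cons (FT.leaf [(nat_lit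
 10582495)]) FT.nil) FT.nil) FT.nil) (FT.cons (FT.cons (FT.cons (FT.cons (FT.leaf [(nat_lit 11595755)]) FT.nil) FT.nil) FT.nil) (FT.cons (FT.cons (FT.cons (FT.cons (FT.leaf [(nat_lit 12512423)]) FT.nil) FT.nil) FT.nil) FT.nil))))))))

def f136_1_600 : FT := (FT.cons (FT.cons (FT.cons (FT.cons (FT.leaf [(nat_lit 3415102), (nat_lit 3580132), (nat_lit 3757045), (nat_lit 3942682), (nat_lit 4134754), (nat_lit 4331522), (nat_lit 4531624), (nat_lit 4733972), (nat_lit 4937686), (nat_lit 5142050)]) (FT.cons (FT.leaf [(nat_lit 3741164), (nat_lit 3920180), (nat_lit 4107068), (nat_lit 4299701), (nat_lit 4496466), (nat_lit 4696105), (nat_lit 4897615), (nat_lit 5100187), (nat_lit 5303163)]) (FT.cons (FT.leaf [(nat_lit 4083306), (nat_lit 4271023), (nat_lit 4463879), (nat_lit 4660373), (nat_lit 4859337), (nat_lit 5059842), (nat_lit 5261143)]) (FT.cons (FT.leaf [(nat_lit 4434329), (nat_lit 4627120), (nat_lit 4823115), (nat_lit 5021222),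 (nat_lit 5220583)]) (FT.cons (FT.leaf [(nat_lit 4789287), (nat_lit 4984585), (nat_lit 5181684), (nat_lit 5379782)]) (FT.cons (FT.leaf [(nat_lit 5144701), (nat_lit 5340659)]) (FT.cons (FT.leaf [(nat_lit 5498099)]) FT.nil))))))) (FT.cons (FT.cons (FT.leaf [(nat_lit 3974448), (nat_lit 4153152), (nat_lit 4339113), (nat_lit 4530299), (nat_lit 4725190), (nat_lit 4922603), (nat_lit 5121607), (nat_lit 5321449)]) (FT.cons (FT.leaf [(nat_lit 4314746), (nat_lit 4501214), (nat_lit 4692367), (nat_lit 4886786), (nat_lit 5083372),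
 (nat_lit 5281259), (nat_lit 5479751)]) (FT.cons (FT.leaf [(nat_lit 4662500), (nat_lit 4853376), (nat_lit 5047131), (nat_lit 5242738), (nat_lit 5439391)]) (FT.cons (FT.leaf [(nat_lit 5013214), (nat_lit 5206138), (nat_lit 5400638), (nat_lit 5595959)]) (FT.cons (FT.leaf [(nat_lit 5363739), (nat_lit 5557025)]) (FT.cons (FT.leaf [(nat_lit 5711861)]) FT.nil)))))) (FT.cons (FT.cons (FT.leaf [(nat_lit 4542807), (nat_lit 4727785), (nat_lit 4917056), (nat_lit 5109270), (nat_lit 5303393), (nat_lit 5498611)]) (FT.cons (FT.leaf [(nat_lit 4886943), (nat_lit 5075763), (nat_lit 5267181), (nat_lit 5460228), (nat_lit 5654145)]) (FT.cons (FT.leaf [(nat_lit 5233226), (nat_lit 5423709), (nat_lit 5615573), (nat_lit 5808108)]) (FT.cons (FT.leaf [(nat_lit 5578799), (nat_lit 5769390)]) (FT.cons (FT.leaf [(nat_lit 5921651)]) FT.nil))))) (FT.cons (FT.cons (FT.leaf [(nat_lit 5107622), (nat_lit 5294282), (nat_lit 5483296)]) (FT.cons (FT.leaf [(nat_lit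 5449350), (nat_lit 5637345)]) (FT.cons (FT.leaf [(nat_lit 5789937)]) FT.nil))) (FT.cons (FT.cons (FT.leaf [(nat_lit 5661624)]) (FT.cons (FT.leaf [(nat_lit 5997225)]) FT.nil)) (FT.cons (FT.cons (FT.leaf [(nat_lit 6200744)]) FT.nil) (FT.cons (FT.cons (FT.leaf
 [(nat_lit 6722877)]) FT.nil) FT.nil))))))) (FT.cons (FT.cons (FT.cons (FT.leaf [(nat_lit 4372332), (nat_lit 4546865), (nat_lit 4728124), (nat_lit 4914181), (nat_lit 5103606), (nat_lit 5295300), (nat_lit 5488396), (nat_lit 5682204)]) (FT.cons (FT.leaf [(nat_lit 4703808), (nat_lit 4885365), (nat_lit 5071239), (nat_lit 5260094), (nat_lit 5450904), (nat_lit 5642865), (nat_lit 5835335)]) (FT.cons (FT.leaf [(nat_lit 5041715), (nat_lit 5227201), (nat_lit 5415324), (nat_lit 5605125), (nat_lit 5795855)]) (FT.cons (FT.leaf [(nat_lit 5381977), (nat_lit 5569230), (nat_lit 5757917), (nat_lit 5947334)]) (FT.cons (FT.leaf [(nat_lit 5721759), (nat_lit 5909242)]) (FT.cons (FT.leaf [(nat_lit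 6059073)]) FT.nil)))))) (FT.cons (FT.cons (FT.leaf [(nat_lit 4924328), (nat_lit 5104300), (nat_lit 5288252), (nat_lit 5474911), (nat_lit 5663306), (nat_lit 5852680)]) (FT.cons (FT.leaf [(nat_lit 5258537), (nat_lit 5441961), (nat_lit 5627784), (nat_lit 5815096), (nat_lit 6003190)]) (FT.cons (FT.leaf [(nat_lit 5594433), (nat_lit 5779304), (nat_lit 5965443), (nat_lit 6152188)]) (FT.cons (FT.leaf [(nat_lit 5929427), (nat_lit 6114318)]) (FT.cons (FT.leaf [(nat_lit 6261701)]) FT.nil))))) (FT.cons (FT.cons (FT.leaf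
 [(nat_lit 5471724), (nat_lit 5653015), (nat_lit 5836495), (nat_lit 6021301), (nat_lit 6206761)]) (FT.cons (FT.leaf [(nat_lit 5803177), (nat_lit 5985640), (nat_lit 6169229), (nat_lit 6353316)]) (FT.cons (FT.leaf [(nat_lit 6133378), (nat_lit 6315688)]) FT.nil))) (FT.cons (FT.cons (FT.leaf [(nat_lit 6008261)]) (FT.cons (FT.leaf [(nat_lit 6333690)]) FT.nil)) (FT.cons (FT.cons (FT.leaf [(nat_lit 6530443)]) FT.nil) (FT.cons (FT.cons (FT.leaf [(nat_lit 7036464)]) FT.nil) FT.nil)))))) (FT.cons (FT.cons (FT.cons (FT.leaf [(nat_lit 5291574), (nat_lit 5466690), (nat_lit 5645524), (nat_lit 5826869), (nat_lit 6009814), (nat_lit 6193648)]) (FT.cons (FT.leaf [(nat_lit 5616223), (nat_lit 5794480), (nat_lit 5974972), (nat_lit 6156842), (nat_lit 6339424)]) (FT.cons (FT.leaf [(nat_lit 5942220), (nat_lit 6121759), (nat_lit 6302478), (nat_lit 6483753)]) (FT.cons (FT.leaf [(nat_lit 6267197), (nat_lit 6446702)]) FT.nil)))) (FT.cons (FT.cons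 (FT.leaf [(nat_lit 5822330), (nat_lit 5998500), (nat_lit 6176723), (nat_lit 6356182), (nat_lit 6536246)]) (FT.cons (FT.leaf [(nat_lit 6144023), (nat_lit 6321242), (nat_lit 6499518), (nat_lit 6678257)]) (FT.cons (FT.leaf [(nat_lit 6464409), (nat_lit 6641447)])
 FT.nil))) (FT.cons (FT.cons (FT.leaf [(nat_lit 6342354)]) (FT.cons (FT.leaf [(nat_lit 6658181)]) FT.nil)) (FT.cons (FT.cons (FT.leaf [(nat_lit 6848593)]) FT.nil) (FT.cons (FT.cons (FT.leaf [(nat_lit 7339475)]) FT.nil) FT.nil))))) (FT.cons (FT.cons (FT.cons (FT.leaf [(nat_lit 6160319), (nat_lit 6331616), (nat_lit 6504853)]) (FT.cons (FT.leaf [(nat_lit 6472757), (nat_lit 6645009)]) (FT.cons (FT.leaf [(nat_lit 6783869)]) FT.nil))) (FT.cons (FT.cons (FT.leaf [(nat_lit 6664742)]) (FT.cons (FT.leaf [(nat_lit 6971505)]) FT.nil)) (FT.cons (FT.cons (FT.leaf [(nat_lit 7155968)]) FT.nil) FT.nil))) (FT.cons (FT.cons (FT.cons (FT.leaf [(nat_lit 6976198)]) FT.nil) (FT.cons (FT.cons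 (FT.leaf [(nat_lit 7453272)]) FT.nil) FT.nil)) (FT.cons (FT.cons (FT.cons (FT.leaf [(nat_lit 7741149)]) FT.nil) FT.nil) (FT.cons (FT.cons (FT.cons (FT.leaf [(nat_lit 8458768)]) FT.nil) FT.nil) (FT.cons (FT.cons (FT.cons (FT.leaf [(nat_lit 9133130)]) FT.nil) FT.nil) (FT.cons (FT.cons (FT.cons (FT.leaf [(nat_lit 9768233)]) FT.nil) FT.nil) FT.nil))))))))) (FT.cons (FT.cons (FT.cons (FT.cons (FT.leaf [(nat_lit 5440308), (nat_lit 5596254), (nat_lit 5758327), (nat_lit 5924843), (nat_lit 6094561), (nat_lit 6266534),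
 (nat_lit 6440011), (nat_lit 6614396)]) (FT.cons (FT.leaf [(nat_lit 5736022), (nat_lit 5898516), (nat_lit 6065049), (nat_lit 6234462), (nat_lit 6405863), (nat_lit 6578555), (nat_lit 6751978)]) (FT.cons (FT.leaf [(nat_lit 6038083), (nat_lit 6204464), (nat_lit 6373433), (nat_lit 6544156), (nat_lit 6715978)]) (FT.cons (FT.leaf [(nat_lit 6343009), (nat_lit 6511419), (nat_lit 6681371), (nat_lit 6852251)]) (FT.cons (FT.leaf [(nat_lit 6648371), (nat_lit 6817473)]) (FT.cons (FT.leaf [(nat_lit 6952434)]) FT.nil)))))) (FT.cons (FT.cons (FT.leaf [(nat_lit 5931856), (nat_lit 6093233), (nat_lit 6258372), (nat_lit 6426160), (nat_lit 6595751), (nat_lit 6766483)]) (FT.cons (FT.leaf [(nat_lit 6231207), (nat_lit 6396075), (nat_lit 6563330), (nat_lit 6732175), (nat_lit 6901987)]) (FT.cons (FT.leaf [(nat_lit 6532864), (nat_lit 6699483), (nat_lit 6867501), (nat_lit 7036332)]) (FT.cons (FT.leaf [(nat_lit 6834580), (nat_lit 7001702)]) (FT.cons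 (FT.leaf [(nat_lit 7134757)]) FT.nil))))) (FT.cons (FT.cons (FT.leaf [(nat_lit 6421546), (nat_lit 6584833), (nat_lit 6750326), (nat_lit 6917265), (nat_lit 7085058)]) (FT.cons (FT.leaf [(nat_lit 6719850), (nat_lit 6884646), (nat_lit 7050714), (nat_lit 7217494)])
 (FT.cons (FT.leaf [(nat_lit 7017893), (nat_lit 7183031)]) FT.nil))) (FT.cons (FT.cons (FT.leaf [(nat_lit 6903993)]) (FT.cons (FT.leaf [(nat_lit 7198357)]) FT.nil)) (FT.cons (FT.cons (FT.leaf [(nat_lit 7376019)]) FT.nil) (FT.cons (FT.cons (FT.leaf [(nat_lit 7835820)]) FT.nil) FT.nil)))))) (FT.cons (FT.cons (FT.cons (FT.leaf [(nat_lit 6257082), (nat_lit 6414765), (nat_lit 6575987), (nat_lit 6739688), (nat_lit 6905065), (nat_lit 7071490)]) (FT.cons (FT.leaf [(nat_lit 6549123), (nat_lit 6710021), (nat_lit 6873158), (nat_lit 7037778), (nat_lit 7203291)]) (FT.cons (FT.leaf [(nat_lit 6843143), (nat_lit 7005628), (nat_lit 7169422), (nat_lit 7333968)]) (FT.cons (FT.leaf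 [(nat_lit 7137065), (nat_lit 7299973)]) FT.nil)))) (FT.cons (FT.cons (FT.leaf [(nat_lit 6733989), (nat_lit 6893321), (nat_lit 7054733), (nat_lit 7217499), (nat_lit 7381057)]) (FT.cons (FT.leaf [(nat_lit 7024725), (nat_lit 7185433), (nat_lit 7347337), (nat_lit 7509906)]) (FT.cons (FT.leaf [(nat_lit 7315090), (nat_lit 7476081)]) FT.nil))) (FT.cons (FT.cons (FT.leaf [(nat_lit 7203583)]) (FT.cons (FT.leaf [(nat_lit 7490396)]) FT.nil)) (FT.cons (FT.cons (FT.leaf [(nat_lit 7663031)]) FT.nil) (FT.cons (FT.cons (FT.leaf [(nat_lit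
 8110729)]) FT.nil) FT.nil))))) (FT.cons (FT.cons (FT.cons (FT.leaf [(nat_lit 7036641), (nat_lit 7192170), (nat_lit 7349670)]) (FT.cons (FT.leaf [(nat_lit 7320126), (nat_lit 7476924)]) (FT.cons (FT.leaf [(nat_lit 7603166)]) FT.nil))) (FT.cons (FT.cons (FT.leaf [(nat_lit 7493970)]) (FT.cons (FT.leaf [(nat_lit 7773586)]) FT.nil)) (FT.cons (FT.cons (FT.leaf [(nat_lit 7941462)]) FT.nil) FT.nil))) (FT.cons (FT.cons (FT.cons (FT.leaf [(nat_lit 7775681)]) FT.nil) (FT.cons (FT.cons (FT.leaf [(nat_lit 8211799)]) FT.nil) FT.nil)) (FT.cons (FT.cons (FT.cons (FT.leaf [(nat_lit 8474493)]) FT.nil) FT.nil) (FT.cons (FT.cons (FT.cons (FT.leaf [(nat_lit 9135011)]) FT.nil) FT.nil) (FT.cons (FT.cons (FT.cons (FT.leaf [(nat_lit 9759803)]) FT.nil) FT.nil) (FT.cons (FT.cons (FT.cons (FT.leaf [(nat_lit 10351615)]) FT.nil) FT.nil) FT.nil)))))))) (FT.cons (FT.cons (FT.cons (FT.cons (FT.leaf [(nat_lit 7110971), (nat_lit 7255106), (nat_lit 7402585),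 (nat_lit 7552460), (nat_lit 7704012), (nat_lit 7856682)]) (FT.cons (FT.leaf [(nat_lit 7377639), (nat_lit 7524944), (nat_lit 7674435), (nat_lit 7825433), (nat_lit 7977410)]) (FT.cons (FT.leaf [(nat_lit 7646589), (nat_lit 7795618), (nat_lit 7945999), (nat_lit
 8097234)]) (FT.cons (FT.leaf [(nat_lit 7915978), (nat_lit 8065688)]) FT.nil)))) (FT.cons (FT.cons (FT.leaf [(nat_lit 7545921), (nat_lit 7691999), (nat_lit 7840123), (nat_lit 7989640), (nat_lit 8140045)]) (FT.cons (FT.leaf [(nat_lit 7812260), (nat_lit 7959873), (nat_lit 8108739), (nat_lit 8258377)]) (FT.cons (FT.leaf [(nat_lit 8078789), (nat_lit 8226955)]) FT.nil))) (FT.cons (FT.cons (FT.leaf [(nat_lit 7975717)]) (FT.cons (FT.leaf [(nat_lit 8239377)]) FT.nil)) (FT.cons (FT.cons (FT.leaf [(nat_lit 8397774)]) FT.nil) FT.nil)))) (FT.cons (FT.cons (FT.cons (FT.leaf [(nat_lit 7820892), (nat_lit 7963892), (nat_lit 8108838)]) (FT.cons (FT.leaf [(nat_lit 8081346), (nat_lit 8225774)])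 (FT.cons (FT.leaf [(nat_lit 8341894)]) FT.nil))) (FT.cons (FT.cons (FT.leaf [(nat_lit 8240709)]) (FT.cons (FT.leaf [(nat_lit 8498471)]) FT.nil)) (FT.cons (FT.cons (FT.leaf [(nat_lit 8652946)]) FT.nil) FT.nil))) (FT.cons (FT.cons (FT.cons (FT.leaf [(nat_lit 8498594)]) FT.nil) (FT.cons (FT.cons (FT.leaf [(nat_lit 8901431)]) FT.nil) FT.nil)) (FT.cons (FT.cons (FT.cons (FT.leaf [(nat_lit 9143561)]) FT.nil) FT.nil) (FT.cons (FT.cons (FT.cons (FT.leaf [(nat_lit 9756756)]) FT.nil) FT.nil) (FT.cons (FT.cons (FT.cons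
 (FT.leaf [(nat_lit 10339835)]) FT.nil) FT.nil) FT.nil)))))) (FT.cons (FT.cons (FT.cons (FT.cons (FT.leaf [(nat_lit 8532378), (nat_lit 8665116), (nat_lit 8799749)]) (FT.cons (FT.leaf [(nat_lit 8773955), (nat_lit 8908195)]) (FT.cons (FT.leaf [(nat_lit 9015966)]) FT.nil))) (FT.cons (FT.cons (FT.leaf [(nat_lit 8921423)]) (FT.cons (FT.leaf [(nat_lit 9161110)]) FT.nil)) (FT.cons (FT.cons (FT.leaf [(nat_lit 9304480)]) FT.nil) FT.nil))) (FT.cons (FT.cons (FT.cons (FT.leaf [(nat_lit 9159708)]) FT.nil) (FT.cons (FT.cons (FT.leaf [(nat_lit 9534820)]) FT.nil) FT.nil)) (FT.cons (FT.cons (FT.cons (FT.leaf [(nat_lit 9759771)]) FT.nil) FT.nil) (FT.cons (FT.cons (FT.cons (FT.leaf [(nat_lit 10332958)]) FT.nil) FT.nil) FT.nil)))) (FT.cons (FT.cons (FT.cons (FT.cons (FT.leaf [(nat_lit 9769712)]) FT.nil) FT.nil) (FT.cons (FT.cons (FT.cons (FT.leaf [(nat_lit 10331621)]) FT.nil) FT.nil) FT.nil)) (FT.cons (FT.cons (FT.cons (FT.cons (FT.leaf [(nat_lit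 10865629)]) FT.nil) FT.nil) FT.nil) (FT.cons (FT.cons (FT.cons (FT.cons (FT.leaf [(nat_lit 11849476)]) FT.nil) FT.nil) FT.nil) (FT.cons (FT.cons (FT.cons (FT.cons (FT.leaf [(nat_lit 12742295)]) FT.nil) FT.nil) FT.nil) FT.nil))))))))

def f136_1_750 : FT := (FT.cons (FT.cons (FT.cons (FT.cons (FT.leaf [(nat_lit 3969199), (nat_lit 4124630), (nat_lit 4291291), (nat_lit 4466241), (nat_lit 4647356), (nat_lit 4833026), (nat_lit 5021990), (nat_lit 5213243), (nat_lit 5405970), (nat_lit 5599503), (nat_lit 5793296)]) (FT.cons (FT.leaf [(nat_lit 4276041), (nat_lit 4444755), (nat_lit 4620980), (nat_lit 4802739), (nat_lit 4988539), (nat_lit 5177213), (nat_lit 5367830), (nat_lit 5559639), (nat_lit 5752024), (nat_lit 5944483)]) (FT.cons (FT.leaf [(nat_lit 4598303), (nat_lit 4775421), (nat_lit 4957519), (nat_lit 5143203), (nat_lit 5331390), (nat_lit 5521217), (nat_lit 5711985), (nat_lit 5903129), (nat_lit 6094184)]) (FT.cons (FT.leaf [(nat_lit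 4929365), (nat_lit 5111540), (nat_lit 5296899), (nat_lit 5484432), (nat_lit 5673335), (nat_lit 5862961), (nat_lit 6052785)]) (FT.cons (FT.leaf [(nat_lit 5264673), (nat_lit 5449528), (nat_lit 5636263), (nat_lit 5824131), (nat_lit 6012528)]) (FT.cons (FT.leaf [(nat_lit 5601007), (nat_lit 5786823), (nat_lit 5973560), (nat_lit 6160654)]) (FT.cons (FT.leaf [(nat_lit 5936063), (nat_lit 6121588)]) (FT.cons (FT.leaf [(nat_lit 6268190)]) (FT.cons (FT.leaf [(nat_lit 6596209)]) FT.nil))))))))) (FT.cons (FT.cons (FT.leaf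
 [(nat_lit 4495062), (nat_lit 4663645), (nat_lit 4839183), (nat_lit 5019786), (nat_lit 5204040), (nat_lit 5390845), (nat_lit 5579334), (nat_lit 5768803), (nat_lit 5958685), (nat_lit 6148511)]) (FT.cons (FT.leaf [(nat_lit 4815927), (nat_lit 4992065), (nat_lit 5172772), (nat_lit 5356725), (nat_lit 5542902), (nat_lit 5730490), (nat_lit 5918841), (nat_lit 6107426), (nat_lit 6295814)]) (FT.cons (FT.leaf [(nat_lit 5144299), (nat_lit 5324886), (nat_lit 5508360), (nat_lit 5693763), (nat_lit 5880341), (nat_lit 6067487), (nat_lit 6254711)]) (FT.cons (FT.leaf [(nat_lit 5476021), (nat_lit 5658862), (nat_lit 5843372), (nat_lit 6028844), (nat_lit 6214713)]) (FT.cons (FT.leaf [(nat_lit 5808166), (nat_lit 5991678), (nat_lit 6175965), (nat_lit 6360495)]) (FT.cons (FT.leaf [(nat_lit 6138644), (nat_lit 6321678)]) (FT.cons (FT.leaf [(nat_lit 6465965)]) (FT.cons (FT.leaf [(nat_lit 6789065)]) FT.nil)))))))) (FT.cons (FT.cons (FT.leaf [(nat_lit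 5030658), (nat_lit 5205596), (nat_lit 5384743), (nat_lit 5566839), (nat_lit 5750917), (nat_lit 5936212)]) (FT.cons (FT.leaf [(nat_lit 5356016), (nat_lit 5534880), (nat_lit 5716372), (nat_lit 5899582), (nat_lit 6083797)]) (FT.cons (FT.leaf [(nat_lit 5683969),
 (nat_lit 5864723), (nat_lit 6046963), (nat_lit 6230018)]) (FT.cons (FT.leaf [(nat_lit 6011841), (nat_lit 6193022)]) (FT.cons (FT.leaf [(nat_lit 6337731)]) (FT.cons (FT.leaf [(nat_lit 6660283)]) FT.nil)))))) (FT.cons (FT.cons (FT.leaf [(nat_lit 5564472), (nat_lit 5741511), (nat_lit 5920948), (nat_lit 6101920), (nat_lit 6283754)]) (FT.cons (FT.leaf [(nat_lit 5888524), (nat_lit 6067140), (nat_lit 6247082), (nat_lit 6427716)]) (FT.cons (FT.leaf [(nat_lit 6212075), (nat_lit 6390912)]) (FT.cons (FT.leaf [(nat_lit 6533387)]) (FT.cons (FT.leaf [(nat_lit 6851224)]) FT.nil))))) (FT.cons (FT.cons (FT.leaf [(nat_lit 6089709), (nat_lit 6266155), (nat_lit 6443787)]) (FT.cons (FT.leaf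 [(nat_lit 6408919), (nat_lit 6585411)]) (FT.cons (FT.leaf [(nat_lit 6725683)]) FT.nil))) (FT.cons (FT.cons (FT.leaf [(nat_lit 6602433)]) (FT.cons (FT.leaf [(nat_lit 6914691)]) FT.nil)) (FT.cons (FT.cons (FT.leaf [(nat_lit 7100488)]) FT.nil) FT.nil))))))) (FT.cons (FT.cons (FT.cons (FT.leaf [(nat_lit 4868078), (nat_lit 5033121), (nat_lit 5204642), (nat_lit 5380839), (nat_lit 5560373), (nat_lit 5742218), (nat_lit 5925563), (nat_lit 6109759)]) (FT.cons (FT.leaf [(nat_lit 5181399), (nat_lit 5353324), (nat_lit 5529479),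
 (nat_lit 5708612), (nat_lit 5889764), (nat_lit 6072177), (nat_lit 6255250)]) (FT.cons (FT.leaf [(nat_lit 5501282), (nat_lit 5677204), (nat_lit 5855784), (nat_lit 6036123), (nat_lit 6217514)]) (FT.cons (FT.leaf [(nat_lit 5823928), (nat_lit 6001824), (nat_lit 6181248), (nat_lit 6361537)]) (FT.cons (FT.leaf [(nat_lit 6146681), (nat_lit 6325103)]) (FT.cons (FT.leaf [(nat_lit 6467656)]) (FT.cons (FT.leaf [(nat_lit 6785507)]) FT.nil))))))) (FT.cons (FT.cons (FT.leaf [(nat_lit 5389592), (nat_lit 5560216), (nat_lit 5734758), (nat_lit 5912022), (nat_lit 6091098), (nat_lit 6271272)]) (FT.cons (FT.leaf [(nat_lit 5706357), (nat_lit 5880534), (nat_lit 6057144), (nat_lit 6235332), (nat_lit 6414429)]) (FT.cons (FT.leaf [(nat_lit 6025256), (nat_lit 6201100), (nat_lit 6378313), (nat_lit 6556268)]) (FT.cons (FT.leaf [(nat_lit 6343848), (nat_lit 6520012)]) (FT.cons (FT.leaf [(nat_lit 6660406)]) (FT.cons (FT.leaf [(nat_lit 6973700)]) FT.nil))))))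 (FT.cons (FT.cons (FT.leaf [(nat_lit 5908263), (nat_lit 6080619), (nat_lit 6255210), (nat_lit 6431221), (nat_lit 6608018)]) (FT.cons (FT.leaf [(nat_lit 6223326), (nat_lit 6397084), (nat_lit 6572073), (nat_lit 6747697)]) (FT.cons (FT.leaf [(nat_lit 6537734),
 (nat_lit 6711639)]) (FT.cons (FT.leaf [(nat_lit 6849901)]) (FT.cons (FT.leaf [(nat_lit 7158697)]) FT.nil))))) (FT.cons (FT.cons (FT.leaf [(nat_lit 6418172), (nat_lit 6589825), (nat_lit 6762588)]) (FT.cons (FT.leaf [(nat_lit 6728397), (nat_lit 6900048)]) (FT.cons (FT.leaf [(nat_lit 7036210)]) FT.nil))) (FT.cons (FT.cons (FT.leaf [(nat_lit 6915896)]) (FT.cons (FT.leaf [(nat_lit 7219408)]) FT.nil)) (FT.cons (FT.cons (FT.leaf [(nat_lit 7399566)]) FT.nil) FT.nil)))))) (FT.cons (FT.cons (FT.cons (FT.leaf [(nat_lit 5736086), (nat_lit 5902496), (nat_lit 6072576), (nat_lit 6245189), (nat_lit 6419476), (nat_lit 6594764)]) (FT.cons (FT.leaf [(nat_lit 6044521), (nat_lit 6214178),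 (nat_lit 6386109), (nat_lit 6559502), (nat_lit 6733728)]) (FT.cons (FT.leaf [(nat_lit 6354736), (nat_lit 6525886), (nat_lit 6698311), (nat_lit 6871418)]) (FT.cons (FT.leaf [(nat_lit 6664487), (nat_lit 6835881)]) FT.nil)))) (FT.cons (FT.cons (FT.leaf [(nat_lit 6240200), (nat_lit 6408060), (nat_lit 6578020), (nat_lit 6749305), (nat_lit 6921314)]) (FT.cons (FT.leaf [(nat_lit 6546670), (nat_lit 6715796), (nat_lit 6886076), (nat_lit 7056944)]) (FT.cons (FT.leaf [(nat_lit 6852387), (nat_lit 7021608)]) FT.nil))) (FT.cons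
 (FT.cons (FT.leaf [(nat_lit 6735528), (nat_lit 6902619)]) (FT.cons (FT.leaf [(nat_lit 7037223)]) FT.nil)) (FT.cons (FT.cons (FT.leaf [(nat_lit 7219056)]) FT.nil) (FT.cons (FT.cons (FT.leaf [(nat_lit 7689140)]) FT.nil) FT.nil))))) (FT.cons (FT.cons (FT.cons (FT.leaf [(nat_lit 6560990), (nat_lit 6724546), (nat_lit 6890086)]) (FT.cons (FT.leaf [(nat_lit 6859263), (nat_lit 7023976)]) (FT.cons (FT.leaf [(nat_lit 7156722)]) FT.nil))) (FT.cons (FT.cons (FT.leaf [(nat_lit 7042463)]) (FT.cons (FT.leaf [(nat_lit 7336062)]) FT.nil)) (FT.cons (FT.cons (FT.leaf [(nat_lit 7512553)]) FT.nil) FT.nil))) (FT.cons (FT.cons (FT.cons (FT.leaf [(nat_lit 7339616)]) FT.nil) (FT.cons (FT.cons (FT.leaf [(nat_lit 7796975)]) FT.nil) FT.nil)) (FT.cons (FT.cons (FT.cons (FT.leaf [(nat_lit 8072870)]) FT.nil) FT.nil) (FT.cons (FT.cons (FT.cons (FT.leaf [(nat_lit 8763375)]) FT.nil) FT.nil) (FT.cons (FT.cons (FT.cons (FT.leaf [(nat_lit 9414394)]) FT.nil)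 FT.nil) (FT.cons (FT.cons (FT.cons (FT.leaf [(nat_lit 10029250)]) FT.nil) FT.nil) FT.nil))))))))) (FT.cons (FT.cons (FT.cons (FT.cons (FT.leaf [(nat_lit 5869067), (nat_lit 6017908), (nat_lit 6172656), (nat_lit 6331724), (nat_lit 6493942), (nat_lit 6658411),
 (nat_lit 6824423), (nat_lit 6991413)]) (FT.cons (FT.leaf [(nat_lit 6151173), (nat_lit 6306396), (nat_lit 6465562), (nat_lit 6627572), (nat_lit 6791585), (nat_lit 6956939), (nat_lit 7123105)]) (FT.cons (FT.leaf [(nat_lit 6439616), (nat_lit 6598719), (nat_lit 6760393), (nat_lit 6923849), (nat_lit 7088464)]) (FT.cons (FT.leaf [(nat_lit 6731123), (nat_lit 6892351), (nat_lit 7055161), (nat_lit 7218966)]) (FT.cons (FT.leaf [(nat_lit 7023399), (nat_lit 7185486)]) (FT.cons (FT.leaf [(nat_lit 7314795)]) FT.nil)))))) (FT.cons (FT.cons (FT.leaf [(nat_lit 6337741), (nat_lit 6492023), (nat_lit 6649986), (nat_lit 6810580), (nat_lit 6972999), (nat_lit 7136617)]) (FT.cons (FT.leaf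 [(nat_lit 6623838), (nat_lit 6781627), (nat_lit 6941797), (nat_lit 7103593), (nat_lit 7266422)]) (FT.cons (FT.leaf [(nat_lit 6912469), (nat_lit 7072119), (nat_lit 7233213), (nat_lit 7395192)]) (FT.cons (FT.leaf [(nat_lit 7201507), (nat_lit 7361832)]) (FT.cons (FT.leaf [(nat_lit 7489427)]) FT.nil))))) (FT.cons (FT.cons (FT.leaf [(nat_lit 6805575), (nat_lit 6961982), (nat_lit 7120599), (nat_lit 7280704), (nat_lit 7441731)]) (FT.cons (FT.leaf [(nat_lit 7091243), (nat_lit 7249280), (nat_lit 7408637), (nat_lit 7568783)])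
 (FT.cons (FT.leaf [(nat_lit 7377008), (nat_lit 7535561)]) FT.nil))) (FT.cons (FT.cons (FT.leaf [(nat_lit 7267464), (nat_lit 7423862)]) (FT.cons (FT.leaf [(nat_lit 7549938)]) FT.nil)) (FT.cons (FT.cons (FT.leaf [(nat_lit 7720334)]) FT.nil) (FT.cons (FT.cons (FT.leaf [(nat_lit 8162385)]) FT.nil) FT.nil)))))) (FT.cons (FT.cons (FT.cons (FT.leaf [(nat_lit 6647325), (nat_lit 6798324), (nat_lit 6952797), (nat_lit 7109735), (nat_lit 7268375), (nat_lit 7428121)]) (FT.cons (FT.leaf [(nat_lit 6926905), (nat_lit 7081147), (nat_lit 7237628), (nat_lit 7395627), (nat_lit 7554582)]) (FT.cons (FT.leaf [(nat_lit 7208696), (nat_lit 7364634), (nat_lit 7521924), (nat_lit 7680037)]) (FT.cons (FT.leaf [(nat_lit 7490721), (nat_lit 7647245)]) FT.nil)))) (FT.cons (FT.cons (FT.leaf [(nat_lit 7103729), (nat_lit 7256593), (nat_lit 7411543), (nat_lit 7567889), (nat_lit 7725093)]) (FT.cons (FT.leaf [(nat_lit 7382601), (nat_lit 7536958), (nat_lit 7692558),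 (nat_lit 7848894)]) (FT.cons (FT.leaf [(nat_lit 7661441), (nat_lit 7816245)]) FT.nil))) (FT.cons (FT.cons (FT.leaf [(nat_lit 7554049), (nat_lit 7706807)]) (FT.cons (FT.leaf [(nat_lit 7829697)]) FT.nil)) (FT.cons (FT.cons (FT.leaf [(nat_lit 7995529)]) FT.nil)
 (FT.cons (FT.cons (FT.leaf [(nat_lit 8426557)]) FT.nil) FT.nil))))) (FT.cons (FT.cons (FT.cons (FT.leaf [(nat_lit 7393068), (nat_lit 7542508), (nat_lit 7693929)]) (FT.cons (FT.leaf [(nat_lit 7665400), (nat_lit 7816221)]) (FT.cons (FT.leaf [(nat_lit 7937606)]) FT.nil))) (FT.cons (FT.cons (FT.leaf [(nat_lit 7832302)]) (FT.cons (FT.leaf [(nat_lit 8101419)]) FT.nil)) (FT.cons (FT.cons (FT.leaf [(nat_lit 8262912)]) FT.nil) FT.nil))) (FT.cons (FT.cons (FT.cons (FT.leaf [(nat_lit 8102672)]) FT.nil) (FT.cons (FT.cons (FT.leaf [(nat_lit 8522903)]) FT.nil) FT.nil)) (FT.cons (FT.cons (FT.cons (FT.leaf [(nat_lit 8775889)]) FT.nil) FT.nil) (FT.cons (FT.cons (FT.cons (FT.leaf [(nat_lit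 9414098)]) FT.nil) FT.nil) (FT.cons (FT.cons (FT.cons (FT.leaf [(nat_lit 10019363)]) FT.nil) FT.nil) (FT.cons (FT.cons (FT.cons (FT.leaf [(nat_lit 10593996)]) FT.nil) FT.nil) FT.nil)))))))) (FT.cons (FT.cons (FT.cons (FT.cons (FT.leaf [(nat_lit 7459858), (nat_lit 7598656), (nat_lit 7740729), (nat_lit 7885171), (nat_lit 8031294), (nat_lit 8178561)]) (FT.cons (FT.leaf [(nat_lit 7716571), (nat_lit 7858531), (nat_lit 8002659), (nat_lit 8148306), (nat_lit 8294964)]) (FT.cons (FT.leaf [(nat_lit 7975695), (nat_lit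
 8119433), (nat_lit 8264543), (nat_lit 8410545)]) (FT.cons (FT.leaf [(nat_lit 8235465), (nat_lit 8379986)]) FT.nil)))) (FT.cons (FT.cons (FT.leaf [(nat_lit 7878419), (nat_lit 8019280), (nat_lit 8162177), (nat_lit 8306483), (nat_lit 8451713)]) (FT.cons (FT.leaf [(nat_lit 8135185), (nat_lit 8277645), (nat_lit 8421380), (nat_lit 8565927)]) (FT.cons (FT.leaf [(nat_lit 8392358), (nat_lit 8535474)]) FT.nil))) (FT.cons (FT.cons (FT.leaf [(nat_lit 8292651)]) (FT.cons (FT.leaf [(nat_lit 8547210)]) FT.nil)) (FT.cons (FT.cons (FT.leaf [(nat_lit 8700050)]) FT.nil) FT.nil)))) (FT.cons (FT.cons (FT.cons (FT.leaf [(nat_lit 8142715), (nat_lit 8280769), (nat_lit 8420760)]) (FT.cons (FT.leaf [(nat_lit 8394102), (nat_lit 8533646)]) (FT.cons (FT.leaf [(nat_lit 8645790)]) FT.nil))) (FT.cons (FT.cons (FT.leaf [(nat_lit 8547810)]) (FT.cons (FT.leaf [(nat_lit 8796952)]) FT.nil)) (FT.cons (FT.cons (FT.leaf [(nat_lit 8946176)]) FT.nil) FT.nil)))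 (FT.cons (FT.cons (FT.cons (FT.leaf [(nat_lit 8796435)]) FT.nil) (FT.cons (FT.cons (FT.leaf [(nat_lit 9186131)]) FT.nil) FT.nil)) (FT.cons (FT.cons (FT.cons (FT.leaf [(nat_lit 9420204)]) FT.nil) FT.nil) (FT.cons (FT.cons (FT.cons (FT.leaf [(nat_lit 10014649)])
 FT.nil) FT.nil) (FT.cons (FT.cons (FT.cons (FT.leaf [(nat_lit 10581098)]) FT.nil) FT.nil) FT.nil)))))) (FT.cons (FT.cons (FT.cons (FT.cons (FT.leaf [(nat_lit 8826288), (nat_lit 8954906), (nat_lit 9085401)]) (FT.cons (FT.leaf [(nat_lit 9060309), (nat_lit 9190464)]) (FT.cons (FT.leaf [(nat_lit 9294905)]) FT.nil))) (FT.cons (FT.cons (FT.leaf [(nat_lit 9203061)]) (FT.cons (FT.leaf [(nat_lit 9435512)]) FT.nil)) (FT.cons (FT.cons (FT.leaf [(nat_lit 9574469)]) FT.nil) FT.nil))) (FT.cons (FT.cons (FT.cons (FT.leaf [(nat_lit 9433614)]) FT.nil) (FT.cons (FT.cons (FT.leaf [(nat_lit 9797631)]) FT.nil) FT.nil)) (FT.cons (FT.cons (FT.cons (FT.leaf [(nat_lit 10015767)]) FT.nil)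 FT.nil) (FT.cons (FT.cons (FT.cons (FT.leaf [(nat_lit 10572924)]) FT.nil) FT.nil) FT.nil)))) (FT.cons (FT.cons (FT.cons (FT.cons (FT.leaf [(nat_lit 10023560)]) FT.nil) FT.nil) (FT.cons (FT.cons (FT.cons (FT.leaf [(nat_lit 10570092)]) FT.nil) FT.nil) FT.nil)) (FT.cons (FT.cons (FT.cons (FT.cons (FT.leaf [(nat_lit 11089012)]) FT.nil) FT.nil) FT.nil) (FT.cons (FT.cons (FT.cons (FT.cons (FT.leaf [(nat_lit 12048922)]) FT.nil) FT.nil) FT.nil) (FT.cons (FT.cons (FT.cons (FT.cons (FT.leaf [(nat_lit 12922438)]) FT.nil) FT.nil)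
 FT.nil) FT.nil))))))))

def f136_1_922 : FT := (FT.cons (FT.cons (FT.cons (FT.cons (FT.leaf [(nat_lit 4635376), (nat_lit 4778060), (nat_lit 4931288), (nat_lit 5092402), (nat_lit 5259484), (nat_lit 5431074), (nat_lit 5606026), (nat_lit 5783420), (nat_lit 5962506), (nat_lit 6142668), (nat_lit 6323394)]) (FT.cons (FT.leaf [(nat_lit 4917050), (nat_lit 5072400), (nat_lit 5234939), (nat_lit 5402874), (nat_lit 5574849), (nat_lit 5749799), (nat_lit 5926870), (nat_lit 6105368), (nat_lit 6284722), (nat_lit 6464458)]) (FT.cons (FT.leaf [(nat_lit 5213813), (nat_lit 5377425), (nat_lit 5545932), (nat_lit 5718063), (nat_lit 5892825), (nat_lit 6069423), (nat_lit 6247212), (nat_lit 6425660), (nat_lit 6604331)]) (FT.cons (FT.leaf [(nat_lit 5519678), (nat_lit 5688512), (nat_lit 5860600), (nat_lit 6035013), (nat_lit 6211008), (nat_lit 6387982), (nat_lit 6565444)]) (FT.cons (FT.leaf [(nat_lit 5830489), (nat_lit 6002362), (nat_lit 6176286),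 (nat_lit 6351565), (nat_lit 6527637)]) (FT.cons (FT.leaf [(nat_lit 6143266), (nat_lit 6316580), (nat_lit 6491047), (nat_lit 6666138)]) (FT.cons (FT.leaf [(nat_lit 6455843), (nat_lit 6629412)]) (FT.cons (FT.leaf [(nat_lit 6766629)]) (FT.cons (FT.leaf [(nat_lit 7074464)]) FT.nil))))))))) (FT.cons (FT.cons (FT.leaf
 [(nat_lit 5118138), (nat_lit 5273724), (nat_lit 5436000), (nat_lit 5603245), (nat_lit 5774168), (nat_lit 5947764), (nat_lit 6123232), (nat_lit 6299919), (nat_lit 6477295), (nat_lit 6654918)]) (FT.cons (FT.leaf [(nat_lit 5414299), (nat_lit 5577375), (nat_lit 5744968), (nat_lit 5915866), (nat_lit 6089130), (nat_lit 6264010), (nat_lit 6439900), (nat_lit 6616306), (nat_lit 6792816)]) (FT.cons (FT.leaf [(nat_lit 5718368), (nat_lit 5886097), (nat_lit 6056799), (nat_lit 6229591), (nat_lit 6403773), (nat_lit 6578777), (nat_lit 6754141)]) (FT.cons (FT.leaf [(nat_lit 6026528), (nat_lit 6196885), (nat_lit 6369085), (nat_lit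 6542472), (nat_lit 6716514)]) (FT.cons (FT.leaf [(nat_lit 6336054), (nat_lit 6507559), (nat_lit 6680068), (nat_lit 6853083)]) (FT.cons (FT.leaf [(nat_lit 6644969), (nat_lit 6816529)]) (FT.cons (FT.leaf [(nat_lit 6951829)]) (FT.cons (FT.leaf [(nat_lit 7255577)]) FT.nil)))))))) (FT.cons (FT.cons (FT.leaf [(nat_lit 5612591), (nat_lit 5774912), (nat_lit 5941417), (nat_lit 6110948), (nat_lit 6282611), (nat_lit 6455698)]) (FT.cons (FT.leaf [(nat_lit 5914532), (nat_lit 6081012), (nat_lit 6250219), (nat_lit 6421309), (nat_lit 6593621)]) (FT.cons (FT.leaf [(nat_lit 6219834),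
 (nat_lit 6388586), (nat_lit 6559000), (nat_lit 6730454)]) (FT.cons (FT.leaf [(nat_lit 6525993), (nat_lit 6695641)]) (FT.cons (FT.leaf [(nat_lit 6831197)]) (FT.cons (FT.leaf [(nat_lit 7134125)]) FT.nil)))))) (FT.cons (FT.cons (FT.leaf [(nat_lit 6108102), (nat_lit 6273219), (nat_lit 6440842), (nat_lit 6610170), (nat_lit 6780572)]) (FT.cons (FT.leaf [(nat_lit 6410385), (nat_lit 6577464), (nat_lit 6746047), (nat_lit 6915539)]) (FT.cons (FT.leaf [(nat_lit 6713092), (nat_lit 6880852)]) (FT.cons (FT.leaf [(nat_lit 7014555)]) (FT.cons (FT.leaf [(nat_lit 7313565)]) FT.nil))))) (FT.cons (FT.cons (FT.leaf [(nat_lit 6598176), (nat_lit 6763531), (nat_lit 6930249)]) (FT.cons (FT.leaf [(nat_lit 6897373), (nat_lit 7063222)]) (FT.cons (FT.leaf [(nat_lit 7195086)]) FT.nil))) (FT.cons (FT.cons (FT.leaf [(nat_lit 7078865)]) (FT.cons (FT.leaf [(nat_lit 7372834)]) FT.nil)) (FT.cons (FT.cons (FT.leaf [(nat_lit 7547848)]) FT.nil) FT.nil)))))))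 (FT.cons (FT.cons (FT.cons (FT.leaf [(nat_lit 5460831), (nat_lit 5613793), (nat_lit 5773008), (nat_lit 5936826), (nat_lit 6104021), (nat_lit 6273645), (nat_lit 6444947), (nat_lit 6617321)]) (FT.cons (FT.leaf [(nat_lit 5751246), (nat_lit 5911061), (nat_lit 6075071),
 (nat_lit 6242123), (nat_lit 6411329), (nat_lit 6581988), (nat_lit 6753533)]) (FT.cons (FT.leaf [(nat_lit 6048640), (nat_lit 6212658), (nat_lit 6379419), (nat_lit 6548090), (nat_lit 6718012)]) (FT.cons (FT.leaf [(nat_lit 6349502), (nat_lit 6515846), (nat_lit 6683879), (nat_lit 6852982)]) (FT.cons (FT.leaf [(nat_lit 6651346), (nat_lit 6818652)]) (FT.cons (FT.leaf [(nat_lit 6952375)]) (FT.cons (FT.leaf [(nat_lit 7251280)]) FT.nil))))))) (FT.cons (FT.cons (FT.leaf [(nat_lit 5944303), (nat_lit 6103233), (nat_lit 6266066), (nat_lit 6431698), (nat_lit 6599283), (nat_lit 6768157)]) (FT.cons (FT.leaf [(nat_lit 6239400), (nat_lit 6402108), (nat_lit 6567345), (nat_lit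 6734313), (nat_lit 6902387)]) (FT.cons (FT.leaf [(nat_lit 6537348), (nat_lit 6702078), (nat_lit 6868340), (nat_lit 7035545)]) (FT.cons (FT.leaf [(nat_lit 6835852), (nat_lit 7001331)]) (FT.cons (FT.leaf [(nat_lit 7133256)]) (FT.cons (FT.leaf [(nat_lit 7428361)]) FT.nil)))))) (FT.cons (FT.cons (FT.leaf [(nat_lit 6427595), (nat_lit 6588906), (nat_lit 6752552), (nat_lit 6917774), (nat_lit 7083975)]) (FT.cons (FT.leaf [(nat_lit 6722512), (nat_lit 6885578), (nat_lit 7050038), (nat_lit 7215328)]) (FT.cons (FT.leaf [(nat_lit 7017619),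
 (nat_lit 7181250)]) (FT.cons (FT.leaf [(nat_lit 7311389)]) (FT.cons (FT.leaf [(nat_lit 7602714)]) FT.nil))))) (FT.cons (FT.cons (FT.leaf [(nat_lit 6905000), (nat_lit 7066366), (nat_lit 7229003)]) (FT.cons (FT.leaf [(nat_lit 7196676), (nat_lit 7358448)]) (FT.cons (FT.leaf [(nat_lit 7486815)]) FT.nil))) (FT.cons (FT.cons (FT.leaf [(nat_lit 7373058)]) (FT.cons (FT.leaf [(nat_lit 7659582)]) FT.nil)) (FT.cons (FT.cons (FT.leaf [(nat_lit 7829739)]) FT.nil) FT.nil)))))) (FT.cons (FT.cons (FT.cons (FT.leaf [(nat_lit 6265835), (nat_lit 6421391), (nat_lit 6580608), (nat_lit 6742432), (nat_lit 6906060), (nat_lit 7070865)]) (FT.cons (FT.leaf [(nat_lit 6554187), (nat_lit 6713205), (nat_lit 6874583), (nat_lit 7037565), (nat_lit 7201561)]) (FT.cons (FT.leaf [(nat_lit 6844986), (nat_lit 7005822), (nat_lit 7168082), (nat_lit 7331207)]) (FT.cons (FT.leaf [(nat_lit 7136111), (nat_lit 7297581)]) FT.nil)))) (FT.cons (FT.cons (FT.leaf [(nat_lit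 6737210), (nat_lit 6894817), (nat_lit 7054615), (nat_lit 7215880), (nat_lit 7378046)]) (FT.cons (FT.leaf [(nat_lit 7024996), (nat_lit 7184192), (nat_lit 7344688), (nat_lit 7505953)]) (FT.cons (FT.leaf [(nat_lit 7312800), (nat_lit 7472471)]) FT.nil))) (FT.cons
 (FT.cons (FT.leaf [(nat_lit 7202425), (nat_lit 7359953)]) (FT.cons (FT.leaf [(nat_lit 7486889)]) FT.nil)) (FT.cons (FT.cons (FT.leaf [(nat_lit 7658414)]) FT.nil) (FT.cons (FT.cons (FT.leaf [(nat_lit 8103384)]) FT.nil) FT.nil))))) (FT.cons (FT.cons (FT.cons (FT.leaf [(nat_lit 7037442), (nat_lit 7191458), (nat_lit 7347544)]) (FT.cons (FT.leaf [(nat_lit 7318348), (nat_lit 7473817)]) (FT.cons (FT.leaf [(nat_lit 7599144)]) FT.nil))) (FT.cons (FT.cons (FT.leaf [(nat_lit 7490952)]) (FT.cons (FT.leaf [(nat_lit 7768508)]) FT.nil)) (FT.cons (FT.cons (FT.leaf [(nat_lit 7935419)]) FT.nil) FT.nil))) (FT.cons (FT.cons (FT.cons (FT.leaf [(nat_lit 7771063)]) FT.nil) (FT.cons (FT.cons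 (FT.leaf [(nat_lit 8204524)]) FT.nil) FT.nil)) (FT.cons (FT.cons (FT.cons (FT.leaf [(nat_lit 8466154)]) FT.nil) FT.nil) (FT.cons (FT.cons (FT.cons (FT.leaf [(nat_lit 9124111)]) FT.nil) FT.nil) FT.nil))))))) (FT.cons (FT.cons (FT.cons (FT.cons (FT.leaf [(nat_lit 6383161), (nat_lit 6522835), (nat_lit 6668215), (nat_lit 6817822), (nat_lit 6970568), (nat_lit 7125616), (nat_lit 7282302), (nat_lit 7440094)]) (FT.cons (FT.leaf [(nat_lit 6647882), (nat_lit 6793853), (nat_lit 6943702), (nat_lit 7096403), (nat_lit 7251172),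
 (nat_lit 7407387), (nat_lit 7564549)]) (FT.cons (FT.leaf [(nat_lit 6919131), (nat_lit 7069068), (nat_lit 7221602), (nat_lit 7375993), (nat_lit 7531656)]) (FT.cons (FT.leaf [(nat_lit 7193851), (nat_lit 7346110), (nat_lit 7500036), (nat_lit 7655078)]) (FT.cons (FT.leaf [(nat_lit 7469879), (nat_lit 7623263)]) (FT.cons (FT.leaf [(nat_lit 7745646)]) FT.nil)))))) (FT.cons (FT.cons (FT.leaf [(nat_lit 6822945), (nat_lit 6968242), (nat_lit 7117172), (nat_lit 7268752), (nat_lit 7422229), (nat_lit 7577012)]) (FT.cons (FT.leaf [(nat_lit 7092382), (nat_lit 7241290), (nat_lit 7392614), (nat_lit 7545643), (nat_lit 7699822)]) (FT.cons (FT.leaf [(nat_lit 7364775), (nat_lit 7515748), (nat_lit 7668254), (nat_lit 7821766)]) (FT.cons (FT.leaf [(nat_lit 7638115), (nat_lit 7790030)]) (FT.cons (FT.leaf [(nat_lit 7910945)]) FT.nil))))) (FT.cons (FT.cons (FT.leaf [(nat_lit 7263549), (nat_lit 7411355), (nat_lit 7561413), (nat_lit 7713041), (nat_lit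 7865708)]) (FT.cons (FT.leaf [(nat_lit 7533516), (nat_lit 7683159), (nat_lit 7834214), (nat_lit 7986177)]) (FT.cons (FT.leaf [(nat_lit 7804115), (nat_lit 7954538)]) FT.nil))) (FT.cons (FT.cons (FT.leaf [(nat_lit 7700074), (nat_lit 7848353)]) (FT.cons (FT.leaf
 [(nat_lit 7967896)]) FT.nil)) (FT.cons (FT.cons (FT.leaf [(nat_lit 8129481)]) FT.nil) (FT.cons (FT.cons (FT.leaf [(nat_lit 8549908)]) FT.nil) FT.nil)))))) (FT.cons (FT.cons (FT.cons (FT.leaf [(nat_lit 7113499), (nat_lit 7256069), (nat_lit 7402073), (nat_lit 7550563), (nat_lit 7700823), (nat_lit 7852291)]) (FT.cons (FT.leaf [(nat_lit 7377472), (nat_lit 7523389), (nat_lit 7671578), (nat_lit 7821362), (nat_lit 7972209)]) (FT.cons (FT.leaf [(nat_lit 7644058), (nat_lit 7791862), (nat_lit 7941102), (nat_lit 8091276)]) (FT.cons (FT.leaf [(nat_lit 7911381), (nat_lit 8060019)]) FT.nil)))) (FT.cons (FT.cons (FT.leaf [(nat_lit 7544436), (nat_lit 7689233), (nat_lit 7836157),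 (nat_lit 7984554), (nat_lit 8133918)]) (FT.cons (FT.leaf [(nat_lit 7808598), (nat_lit 7955082), (nat_lit 8102895), (nat_lit 8251554)]) (FT.cons (FT.leaf [(nat_lit 8073225), (nat_lit 8220401)]) FT.nil))) (FT.cons (FT.cons (FT.leaf [(nat_lit 7971021), (nat_lit 8116159)]) (FT.cons (FT.leaf [(nat_lit 8232929)]) FT.nil)) (FT.cons (FT.cons (FT.leaf [(nat_lit 8390516)]) FT.nil) (FT.cons (FT.cons (FT.leaf [(nat_lit 8801248)]) FT.nil) FT.nil))))) (FT.cons (FT.cons (FT.cons (FT.leaf [(nat_lit 7817703), (nat_lit 7959567), (nat_lit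
 8103449)]) (FT.cons (FT.leaf [(nat_lit 8076232), (nat_lit 8219659)]) (FT.cons (FT.leaf [(nat_lit 8335098)]) FT.nil))) (FT.cons (FT.cons (FT.leaf [(nat_lit 8234689)]) (FT.cons (FT.leaf [(nat_lit 8490899)]) FT.nil)) (FT.cons (FT.cons (FT.leaf [(nat_lit 8644664)]) FT.nil) FT.nil))) (FT.cons (FT.cons (FT.cons (FT.leaf [(nat_lit 8491425)]) FT.nil) (FT.cons (FT.cons (FT.leaf [(nat_lit 8892260)]) FT.nil) FT.nil)) (FT.cons (FT.cons (FT.cons (FT.leaf [(nat_lit 9133617)]) FT.nil) FT.nil) (FT.cons (FT.cons (FT.cons (FT.leaf [(nat_lit 9744880)]) FT.nil) FT.nil) FT.nil)))))) (FT.cons (FT.cons (FT.cons (FT.cons (FT.leaf [(nat_lit 7877054), (nat_lit 8009075), (nat_lit 8144319), (nat_lit 8281929), (nat_lit 8421252), (nat_lit 8561780)]) (FT.cons (FT.leaf [(nat_lit 8121217), (nat_lit 8256445), (nat_lit 8393849), (nat_lit 8532811), (nat_lit 8672852)]) (FT.cons (FT.leaf [(nat_lit 8368042), (nat_lit 8505166), (nat_lit 8643709), (nat_lit 8783213)])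 (FT.cons (FT.leaf [(nat_lit 8615851), (nat_lit 8753922)]) FT.nil)))) (FT.cons (FT.cons (FT.leaf [(nat_lit 8275125), (nat_lit 8409439), (nat_lit 8545800), (nat_lit 8683614), (nat_lit 8822418)]) (FT.cons (FT.leaf [(nat_lit 8519945), (nat_lit 8655979), (nat_lit
 8793335), (nat_lit 8931576)]) (FT.cons (FT.leaf [(nat_lit 8765509), (nat_lit 8902362)]) FT.nil))) (FT.cons (FT.cons (FT.leaf [(nat_lit 8670070)]) (FT.cons (FT.leaf [(nat_lit 8913363)]) FT.nil)) (FT.cons (FT.cons (FT.leaf [(nat_lit 9059431)]) FT.nil) FT.nil)))) (FT.cons (FT.cons (FT.cons (FT.leaf [(nat_lit 8526455), (nat_lit 8658316), (nat_lit 8792125)]) (FT.cons (FT.leaf [(nat_lit 8766554), (nat_lit 8900018)]) (FT.cons (FT.leaf [(nat_lit 9007268)]) FT.nil))) (FT.cons (FT.cons (FT.leaf [(nat_lit 8913342)]) (FT.cons (FT.leaf [(nat_lit 9151829)]) FT.nil)) (FT.cons (FT.cons (FT.leaf [(nat_lit 9294663)]) FT.nil) FT.nil))) (FT.cons (FT.cons (FT.cons (FT.leaf [(nat_lit 9150781)])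 FT.nil) (FT.cons (FT.cons (FT.leaf [(nat_lit 9524348)]) FT.nil) FT.nil)) (FT.cons (FT.cons (FT.cons (FT.leaf [(nat_lit 9748726)]) FT.nil) FT.nil) FT.nil)))) (FT.cons (FT.cons (FT.cons (FT.cons (FT.leaf [(nat_lit 9176837), (nat_lit 9300275), (nat_lit 9425589)]) (FT.cons (FT.leaf [(nat_lit 9401417), (nat_lit 9526465)]) (FT.cons (FT.leaf [(nat_lit 9626794)]) FT.nil))) (FT.cons (FT.cons (FT.leaf [(nat_lit 9538378)]) (FT.cons (FT.leaf [(nat_lit 9761851)]) FT.nil)) (FT.cons (FT.cons (FT.leaf [(nat_lit 9895417)])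
 FT.nil) FT.nil))) (FT.cons (FT.cons (FT.cons (FT.leaf [(nat_lit 9759557)]) FT.nil) (FT.cons (FT.cons (FT.leaf [(nat_lit 10109910)]) FT.nil) FT.nil)) FT.nil)) (FT.cons (FT.cons (FT.cons (FT.cons (FT.leaf [(nat_lit 10325614)]) FT.nil) FT.nil) FT.nil) (FT.cons (FT.cons (FT.cons (FT.cons (FT.leaf [(nat_lit 11354254)]) FT.nil) FT.nil) FT.nil) (FT.cons (FT.cons (FT.cons (FT.cons (FT.leaf [(nat_lit 12285294)]) FT.nil) FT.nil) FT.nil) FT.nil)))))))

def f136_1_943 : FT := (FT.cons (FT.cons (FT.cons (FT.cons (FT.leaf [(nat_lit 4718065), (nat_lit 4859135), (nat_lit 5010667), (nat_lit 5170040), (nat_lit 5335359), (nat_lit 5505184), (nat_lit 5678383), (nat_lit 5854046), (nat_lit 6031430), (nat_lit 6209926)]) (FT.cons (FT.leaf [(nat_lit 4996565), (nat_lit 5150232), (nat_lit 5311050), (nat_lit 5477252), (nat_lit 5647496), (nat_lit 5820731), (nat_lit 5996112), (nat_lit 6172950), (nat_lit 6350681)]) (FT.cons (FT.leaf [(nat_lit 5290126),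 (nat_lit 5452044), (nat_lit 5618849), (nat_lit 5789285), (nat_lit 5962370), (nat_lit 6137318), (nat_lit 6313489)]) (FT.cons (FT.leaf [(nat_lit 5592838), (nat_lit 5760003), (nat_lit 5930434), (nat_lit 6103209), (nat_lit 6277595)]) (FT.cons (FT.leaf [(nat_lit 5900592), (nat_lit 6070845), (nat_lit 6243171), (nat_lit 6416882)]) (FT.cons (FT.leaf [(nat_lit 6210435), (nat_lit 6382191)]) (FT.cons (FT.leaf [(nat_lit 6520215)]) FT.nil))))))) (FT.cons (FT.cons (FT.leaf [(nat_lit 5195419), (nat_lit 5349371), (nat_lit 5509982), (nat_lit 5675554), (nat_lit 5844811), (nat_lit 6016757), (nat_lit 6190600), (nat_lit 6365694)]) (FT.cons (FT.leaf [(nat_lit 5488483), (nat_lit 5649922), (nat_lit 5815874), (nat_lit 5985141), (nat_lit 6156794),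
 (nat_lit 6330089), (nat_lit 6504428)]) (FT.cons (FT.leaf [(nat_lit 5789513), (nat_lit 5955635), (nat_lit 6124743), (nat_lit 6295963), (nat_lit 6468600)]) (FT.cons (FT.leaf [(nat_lit 6094735), (nat_lit 6263534), (nat_lit 6434201), (nat_lit 6606083)]) (FT.cons (FT.leaf [(nat_lit 6401445), (nat_lit 6571455)]) (FT.cons (FT.leaf [(nat_lit 6707679)]) FT.nil)))))) (FT.cons (FT.cons (FT.leaf [(nat_lit 5684733), (nat_lit 5845475), (nat_lit 6010399), (nat_lit 6178361), (nat_lit 6348476), (nat_lit 6520043)]) (FT.cons (FT.leaf [(nat_lit 5983750), (nat_lit 6148684), (nat_lit 6316357), (nat_lit 6485937), (nat_lit 6656766)]) (FT.cons (FT.leaf [(nat_lit 6286229), (nat_lit 6453484), (nat_lit 6622425), (nat_lit 6792434)]) (FT.cons (FT.leaf [(nat_lit 6589685), (nat_lit 6757897)]) (FT.cons (FT.leaf [(nat_lit 6892316)]) FT.nil))))) (FT.cons (FT.cons (FT.leaf [(nat_lit 6175476), (nat_lit 6339104), (nat_lit 6505254)]) (FT.cons (FT.leaf [(nat_lit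 6475047), (nat_lit 6640688)]) (FT.cons (FT.leaf [(nat_lit 6775159)]) FT.nil))) (FT.cons (FT.cons (FT.leaf [(nat_lit 6661180)]) (FT.cons (FT.leaf [(nat_lit 6957886)]) FT.nil)) (FT.cons (FT.cons (FT.leaf [(nat_lit 7137892)]) FT.nil) FT.nil)))))) (FT.cons (FT.cons
 (FT.cons (FT.leaf [(nat_lit 5534369), (nat_lit 5685813), (nat_lit 5843484), (nat_lit 6005753), (nat_lit 6171405), (nat_lit 6339502), (nat_lit 6509301), (nat_lit 6680202)]) (FT.cons (FT.leaf [(nat_lit 5821914), (nat_lit 5980212), (nat_lit 6142702), (nat_lit 6308243), (nat_lit 6475959), (nat_lit 6645152), (nat_lit 6815260)]) (FT.cons (FT.leaf [(nat_lit 6116497), (nat_lit 6279027), (nat_lit 6444313), (nat_lit 6611527), (nat_lit 6780019)]) (FT.cons (FT.leaf [(nat_lit 6414642), (nat_lit 6579543), (nat_lit 6746156), (nat_lit 6913864)]) (FT.cons (FT.leaf [(nat_lit 6713880), (nat_lit 6879801)]) (FT.cons (FT.leaf [(nat_lit 7012427)]) FT.nil)))))) (FT.cons (FT.cons (FT.leaf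 [(nat_lit 6013091), (nat_lit 6170558), (nat_lit 6331926), (nat_lit 6496105), (nat_lit 6662257), (nat_lit 6829721)]) (FT.cons (FT.leaf [(nat_lit 6305481), (nat_lit 6466757), (nat_lit 6630574), (nat_lit 6796142), (nat_lit 6962842)]) (FT.cons (FT.leaf [(nat_lit 6600817), (nat_lit 6764161), (nat_lit 6929057), (nat_lit 7094922)]) (FT.cons (FT.leaf [(nat_lit 6896819), (nat_lit 7060966)]) (FT.cons (FT.leaf [(nat_lit 7191840)]) FT.nil))))) (FT.cons (FT.cons (FT.leaf [(nat_lit 6491977), (nat_lit 6651908), (nat_lit 6814189)])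
 (FT.cons (FT.leaf [(nat_lit 6784382), (nat_lit 6946115)]) (FT.cons (FT.leaf [(nat_lit 7077086)]) FT.nil))) (FT.cons (FT.cons (FT.leaf [(nat_lit 6965340)]) (FT.cons (FT.leaf [(nat_lit 7254706)]) FT.nil)) (FT.cons (FT.cons (FT.leaf [(nat_lit 7429712)]) FT.nil) FT.nil))))) (FT.cons (FT.cons (FT.cons (FT.leaf [(nat_lit 6331545), (nat_lit 6485742), (nat_lit 6643600), (nat_lit 6804076), (nat_lit 6966373)]) (FT.cons (FT.leaf [(nat_lit 6617388), (nat_lit 6775076), (nat_lit 6935136), (nat_lit 7096819)]) (FT.cons (FT.leaf [(nat_lit 6905764), (nat_lit 7065313)]) (FT.cons (FT.leaf [(nat_lit 7194567)]) FT.nil)))) (FT.cons (FT.cons (FT.leaf [(nat_lit 6798840), (nat_lit 6955166), (nat_lit 7113695)]) (FT.cons (FT.leaf [(nat_lit 7084296), (nat_lit 7242252)]) (FT.cons (FT.leaf [(nat_lit 7369868)]) FT.nil))) (FT.cons (FT.cons (FT.leaf [(nat_lit 7260308)]) (FT.cons (FT.leaf [(nat_lit 7542625)]) FT.nil)) FT.nil))) (FT.cons (FT.cons (FT.cons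 (FT.leaf [(nat_lit 7096536), (nat_lit 7249359), (nat_lit 7404263)]) (FT.cons (FT.leaf [(nat_lit 7375274), (nat_lit 7529590)]) FT.nil)) (FT.cons (FT.cons (FT.leaf [(nat_lit 7546565)]) FT.nil) FT.nil)) (FT.cons (FT.cons (FT.cons (FT.leaf [(nat_lit 7824570)]) FT.nil)
 FT.nil) (FT.cons (FT.cons (FT.cons (FT.leaf [(nat_lit 8514924)]) FT.nil) FT.nil) (FT.cons (FT.cons (FT.cons (FT.leaf [(nat_lit 9168836)]) FT.nil) FT.nil) FT.nil))))))) (FT.cons (FT.cons (FT.cons (FT.cons (FT.leaf [(nat_lit 6447111), (nat_lit 6585623), (nat_lit 6729817), (nat_lit 6878229), (nat_lit 7029781), (nat_lit 7183641), (nat_lit 7339154), (nat_lit 7495791)]) (FT.cons (FT.leaf [(nat_lit 6709635), (nat_lit 6854436), (nat_lit 7003109), (nat_lit 7154637), (nat_lit 7308242), (nat_lit 7463309), (nat_lit 7619340)]) (FT.cons (FT.leaf [(nat_lit 6978716), (nat_lit 7127497), (nat_lit 7278880), (nat_lit 7432131), (nat_lit 7586670)]) (FT.cons (FT.leaf [(nat_lit 7251324),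 (nat_lit 7402454), (nat_lit 7555264), (nat_lit 7709206)]) (FT.cons (FT.leaf [(nat_lit 7525311), (nat_lit 7677604)]) (FT.cons (FT.leaf [(nat_lit 7799119)]) FT.nil)))))) (FT.cons (FT.cons (FT.leaf [(nat_lit 6883257), (nat_lit 7027419), (nat_lit 7175210), (nat_lit 7325655), (nat_lit 7478007), (nat_lit 7631680)]) (FT.cons (FT.leaf [(nat_lit 7150595), (nat_lit 7298384), (nat_lit 7448595), (nat_lit 7600523), (nat_lit 7753616)]) (FT.cons (FT.leaf [(nat_lit 7420947), (nat_lit 7570829), (nat_lit 7722257), (nat_lit 7874706)])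
 (FT.cons (FT.leaf [(nat_lit 7692317), (nat_lit 7843176)]) (FT.cons (FT.leaf [(nat_lit 7963257)]) FT.nil))))) (FT.cons (FT.cons (FT.leaf [(nat_lit 7320441), (nat_lit 7467164), (nat_lit 7616146)]) (FT.cons (FT.leaf [(nat_lit 7588435), (nat_lit 7737024)]) (FT.cons (FT.leaf [(nat_lit 7857132)]) FT.nil))) (FT.cons (FT.cons (FT.leaf [(nat_lit 7753789)]) (FT.cons (FT.leaf [(nat_lit 8019774)]) FT.nil)) FT.nil)))) (FT.cons (FT.cons (FT.cons (FT.leaf [(nat_lit 7171443), (nat_lit 7312950), (nat_lit 7457886), (nat_lit 7605313), (nat_lit 7754520)]) (FT.cons (FT.leaf [(nat_lit 7433452), (nat_lit 7578320), (nat_lit 7725467), (nat_lit 7874218)]) (FT.cons (FT.leaf [(nat_lit 7698127), (nat_lit 7844909)]) (FT.cons (FT.leaf [(nat_lit 7963606)]) FT.nil)))) (FT.cons (FT.cons (FT.leaf [(nat_lit 7599183), (nat_lit 7742966), (nat_lit 7888880)]) (FT.cons (FT.leaf [(nat_lit 7861498), (nat_lit 8006993)]) (FT.cons (FT.leaf [(nat_lit 8124343)]) FT.nil)))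 (FT.cons (FT.cons (FT.leaf [(nat_lit 8022795)]) (FT.cons (FT.leaf [(nat_lit 8282980)]) FT.nil)) FT.nil))) (FT.cons (FT.cons (FT.cons (FT.leaf [(nat_lit 7870454), (nat_lit 8011365), (nat_lit 8154300)]) (FT.cons (FT.leaf [(nat_lit 8127250), (nat_lit 8269747)])
 FT.nil)) (FT.cons (FT.cons (FT.leaf [(nat_lit 8284653)]) FT.nil) FT.nil)) (FT.cons (FT.cons (FT.cons (FT.leaf [(nat_lit 8539697)]) FT.nil) FT.nil) (FT.cons (FT.cons (FT.cons (FT.leaf [(nat_lit 9178017)]) FT.nil) FT.nil) (FT.cons (FT.cons (FT.cons (FT.leaf [(nat_lit 9785920)]) FT.nil) FT.nil) FT.nil)))))) (FT.cons (FT.cons (FT.cons (FT.cons (FT.leaf [(nat_lit 7928971), (nat_lit 8060133), (nat_lit 8194512), (nat_lit 8331258), (nat_lit 8469721)]) (FT.cons (FT.leaf [(nat_lit 8171546), (nat_lit 8305923), (nat_lit 8442477), (nat_lit 8580595)]) (FT.cons (FT.leaf [(nat_lit 8416818), (nat_lit 8553108)]) (FT.cons (FT.leaf [(nat_lit 8663120)]) FT.nil)))) (FT.cons (FT.cons (FT.leaf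 [(nat_lit 8324458), (nat_lit 8457944), (nat_lit 8593479)]) (FT.cons (FT.leaf [(nat_lit 8567771), (nat_lit 8702994)]) (FT.cons (FT.leaf [(nat_lit 8811873)]) FT.nil))) (FT.cons (FT.cons (FT.leaf [(nat_lit 8716976)]) FT.nil) FT.nil))) (FT.cons (FT.cons (FT.cons (FT.leaf [(nat_lit 8574170), (nat_lit 8705248), (nat_lit 8838277)]) (FT.cons (FT.leaf [(nat_lit 8812845), (nat_lit 8945542)]) FT.nil)) (FT.cons (FT.cons (FT.leaf [(nat_lit 8958767)]) FT.nil) FT.nil)) (FT.cons (FT.cons (FT.cons (FT.leaf [(nat_lit 9194811)])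
 FT.nil) FT.nil) (FT.cons (FT.cons (FT.cons (FT.leaf [(nat_lit 9789523)]) FT.nil) FT.nil) FT.nil)))) (FT.cons (FT.cons (FT.cons (FT.cons (FT.leaf [(nat_lit 9220447)]) FT.nil) FT.nil) (FT.cons (FT.cons (FT.cons (FT.leaf [(nat_lit 9800073)]) FT.nil) FT.nil) FT.nil)) (FT.cons (FT.cons (FT.cons (FT.cons (FT.leaf [(nat_lit 10363168)]) FT.nil) FT.nil) FT.nil) (FT.cons (FT.cons (FT.cons (FT.cons (FT.leaf [(nat_lit 11387209)]) FT.nil) FT.nil) FT.nil) (FT.cons (FT.cons (FT.cons (FT.cons (FT.leaf [(nat_lit 12314641)]) FT.nil) FT.nil) FT.nil) (FT.cons (FT.cons (FT.cons (FT.cons (FT.leaf [(nat_lit 13162019)]) FT.nil) FT.nil) FT.nil) FT.nil))))))))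

def f144_1_0 : FT := (FT.cons (FT.cons (FT.cons (FT.cons (FT.leaf [(nat_lit 2088321), (nat_lit 2227286), (nat_lit 2387770), (nat_lit 2564600), (nat_lit 2754056), (nat_lit 2953266), (nat_lit 3159939), (nat_lit 3372212), (nat_lit 3588554), (nat_lit 3807697), (nat_lit 4028595)]) (FT.cons (FT.leaf [(nat_lit 2385977), (nat_lit 2552948), (nat_lit 2734654), (nat_lit 2927625), (nat_lit 3129210), (nat_lit 3337307), (nat_lit 3550210), (nat_lit 3766524), (nat_lit 3985100), (nat_lit 4204987)]) (FT.cons (FT.leaf [(nat_lit 2720785), (nat_lit 2906373), (nat_lit 3102053), (nat_lit 3305359), (nat_lit 3514345), (nat_lit 3727448), (nat_lit 3943391), (nat_lit 4161125), (nat_lit 4379787)]) (FT.cons (FT.leaf [(nat_lit 3079156), (nat_lit 3276863), (nat_lit 3481331), (nat_lit 3690756), (nat_lit 3903694), (nat_lit 4118974), (nat_lit 4335637)]) (FT.cons (FT.leaf [(nat_lit 3451656), (nat_lit 3656813), (nat_lit 3866292), (nat_lit 4078758), (nat_lit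 4293130)]) (FT.cons (FT.leaf [(nat_lit 3831545), (nat_lit 4040751), (nat_lit 4252482), (nat_lit 4465740)]) (FT.cons (FT.leaf [(nat_lit 4213966), (nat_lit 4424740)]) (FT.cons (FT.leaf [(nat_lit 4595432)]) (FT.cons (FT.leaf [(nat_lit 4973463)]) FT.nil))))))))) (FT.cons (FT.cons (FT.leaf
 [(nat_lit 2630987), (nat_lit 2801149), (nat_lit 2984860), (nat_lit 3178757), (nat_lit 3380326), (nat_lit 3587600), (nat_lit 3799008), (nat_lit 4013272), (nat_lit 4229347), (nat_lit 4446374)]) (FT.cons (FT.leaf [(nat_lit 2969651), (nat_lit 3156411), (nat_lit 3352323), (nat_lit 3555043), (nat_lit 3762750), (nat_lit 3973994), (nat_lit 4187603), (nat_lit 4402622), (nat_lit 4618265)]) (FT.cons (FT.leaf [(nat_lit 3328494), (nat_lit 3525851), (nat_lit 3729258), (nat_lit 3937022), (nat_lit 4147802), (nat_lit 4360518), (nat_lit 4574292)]) (FT.cons (FT.leaf [(nat_lit 3699020), (nat_lit 3902718), (nat_lit 4110220), (nat_lit 4320280), (nat_lit 4531901)])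 (FT.cons (FT.leaf [(nat_lit 4075213), (nat_lit 4282181), (nat_lit 4491306), (nat_lit 4701664)]) (FT.cons (FT.leaf [(nat_lit 4452774), (nat_lit 4660781)]) (FT.cons (FT.leaf [(nat_lit 4828628)]) (FT.cons (FT.leaf [(nat_lit 5200596)]) FT.nil)))))))) (FT.cons (FT.cons (FT.leaf [(nat_lit 3216853), (nat_lit 3404040), (nat_lit 3599572), (nat_lit 3801216), (nat_lit 4007260), (nat_lit 4216357), (nat_lit 4427425), (nat_lit 4639586)]) (FT.cons (FT.leaf [(nat_lit 3574957), (nat_lit 3771460), (nat_lit 3973407), (nat_lit 4179204), (nat_lit 4387599),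
 (nat_lit 4597593), (nat_lit 4808378)]) (FT.cons (FT.leaf [(nat_lit 3942720), (nat_lit 4144639), (nat_lit 4349921), (nat_lit 4557403), (nat_lit 4766158)]) (FT.cons (FT.leaf [(nat_lit 4314743), (nat_lit 4519284), (nat_lit 4725674), (nat_lit 4933052)]) (FT.cons (FT.leaf [(nat_lit 4687189), (nat_lit 4892335)]) (FT.cons (FT.leaf [(nat_lit 5057329)]) FT.nil)))))) (FT.cons (FT.cons (FT.leaf [(nat_lit 3818154), (nat_lit 4013411), (nat_lit 4213592), (nat_lit 4417192), (nat_lit 4623038), (nat_lit 4830201)]) (FT.cons (FT.leaf [(nat_lit 4182555), (nat_lit 4382450), (nat_lit 4585335), (nat_lit 4790116), (nat_lit 4995930)]) (FT.cons (FT.leaf [(nat_lit 4550057), (nat_lit 4752036), (nat_lit 4955605), (nat_lit 5159957)]) (FT.cons (FT.leaf [(nat_lit 4917216), (nat_lit 5119447)]) (FT.cons (FT.leaf [(nat_lit 5281599)]) FT.nil))))) (FT.cons (FT.cons (FT.leaf [(nat_lit 4418395), (nat_lit 4616084), (nat_lit 4816442)]) (FT.cons (FT.leaf [(nat_lit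 4781126), (nat_lit 4980451)]) (FT.cons (FT.leaf [(nat_lit 5142895)]) FT.nil))) (FT.cons (FT.cons (FT.leaf [(nat_lit 5007957)]) (FT.cons (FT.leaf [(nat_lit 5364283)]) FT.nil)) (FT.cons (FT.cons (FT.leaf [(nat_lit 5581459)]) FT.nil) (FT.cons (FT.cons (FT.leaf
 [(nat_lit 6136129)]) FT.nil) (FT.cons (FT.cons (FT.leaf [(nat_lit 6670791)]) FT.nil) FT.nil))))))))) (FT.cons (FT.cons (FT.cons (FT.leaf [(nat_lit 3070185), (nat_lit 3238725), (nat_lit 3419724), (nat_lit 3609931), (nat_lit 3806968), (nat_lit 4009011), (nat_lit 4214621), (nat_lit 4422643), (nat_lit 4632140), (nat_lit 4842344), (nat_lit 5052629)]) (FT.cons (FT.leaf [(nat_lit 3403868), (nat_lit 3587238), (nat_lit 3778904), (nat_lit 3976651), (nat_lit 4178789), (nat_lit 4383989), (nat_lit 4591189), (nat_lit 4799527), (nat_lit 5008301), (nat_lit 5216938)]) (FT.cons (FT.leaf [(nat_lit 3754876), (nat_lit 3947531), (nat_lit 4145610), (nat_lit 4347541), (nat_lit 4552092), (nat_lit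 4758280), (nat_lit 4965312), (nat_lit 5172544), (nat_lit 5379450)]) (FT.cons (FT.leaf [(nat_lit 4115562), (nat_lit 4313652), (nat_lit 4515118), (nat_lit 4718815), (nat_lit 4923832), (nat_lit 5129435), (nat_lit 5335034)]) (FT.cons (FT.leaf [(nat_lit 4480615), (nat_lit 4681396), (nat_lit 4884066), (nat_lit 5087778), (nat_lit 5291852)]) (FT.cons (FT.leaf [(nat_lit 4846277), (nat_lit 5047773), (nat_lit 5250068), (nat_lit 5452529)]) (FT.cons (FT.leaf [(nat_lit 5209880), (nat_lit 5410662)]) (FT.cons (FT.leaf [(nat_lit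
 5569532)]) (FT.cons (FT.leaf [(nat_lit 5923923)]) FT.nil))))))))) (FT.cons (FT.cons (FT.leaf [(nat_lit 3644021), (nat_lit 3827252), (nat_lit 4018099), (nat_lit 4214452), (nat_lit 4414715), (nat_lit 4617648), (nat_lit 4822262), (nat_lit 5027761), (nat_lit 5233501), (nat_lit 5438955)]) (FT.cons (FT.leaf [(nat_lit 3993413), (nat_lit 4184879), (nat_lit 4381268), (nat_lit 4581091), (nat_lit 4783195), (nat_lit 4986665), (nat_lit 5190764), (nat_lit 5394899), (nat_lit 5598586)]) (FT.cons (FT.leaf [(nat_lit 4350866), (nat_lit 4547018), (nat_lit 4746186), (nat_lit 4947291), (nat_lit 5149484), (nat_lit 5352083), (nat_lit 5554539)]) (FT.cons (FT.leaf [(nat_lit 4711574), (nat_lit 4909900), (nat_lit 5109863), (nat_lit 5310668), (nat_lit 5511685)]) (FT.cons (FT.leaf [(nat_lit 5072157), (nat_lit 5270854), (nat_lit 5470182), (nat_lit 5669548)]) (FT.cons (FT.leaf [(nat_lit 5430221), (nat_lit 5627995)]) (FT.cons (FT.leaf [(nat_lit 5784089)])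 (FT.cons (FT.leaf [(nat_lit 6132587)]) FT.nil)))))))) (FT.cons (FT.cons (FT.leaf [(nat_lit 4228512), (nat_lit 4418504), (nat_lit 4612983), (nat_lit 4810540), (nat_lit 5010088), (nat_lit 5210773), (nat_lit 5411910), (nat_lit 5612946)]) (FT.cons (FT.leaf [(nat_lit
 4582308), (nat_lit 4776351), (nat_lit 4973099), (nat_lit 5171536), (nat_lit 5370864), (nat_lit 5570449), (nat_lit 5769779)]) (FT.cons (FT.leaf [(nat_lit 4938438), (nat_lit 5134221), (nat_lit 5331426), (nat_lit 5529307), (nat_lit 5727274)]) (FT.cons (FT.leaf [(nat_lit 5293844), (nat_lit 5489715), (nat_lit 5686075), (nat_lit 5882368)]) (FT.cons (FT.leaf [(nat_lit 5646371), (nat_lit 5841147)]) (FT.cons (FT.leaf [(nat_lit 5994514)]) FT.nil)))))) (FT.cons (FT.cons (FT.leaf [(nat_lit 4809826), (nat_lit 5001634), (nat_lit 5195878), (nat_lit 5391598), (nat_lit 5588045)]) (FT.cons (FT.leaf [(nat_lit 5161217), (nat_lit 5354399), (nat_lit 5548820), (nat_lit 5743777)]) (FT.cons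 (FT.leaf [(nat_lit 5511394), (nat_lit 5704433)]) (FT.cons (FT.leaf [(nat_lit 5858414)]) (FT.cons (FT.leaf [(nat_lit 6200914)]) FT.nil))))) (FT.cons (FT.cons (FT.leaf [(nat_lit 5379944), (nat_lit 5570493), (nat_lit 5762123)]) (FT.cons (FT.leaf [(nat_lit 5724884), (nat_lit 5915096)]) (FT.cons (FT.leaf [(nat_lit 6066446)]) FT.nil))) (FT.cons (FT.cons (FT.leaf [(nat_lit 5934394)]) (FT.cons (FT.leaf [(nat_lit 6270568)]) FT.nil)) (FT.cons (FT.cons (FT.leaf [(nat_lit 6470882)]) FT.nil) (FT.cons (FT.cons (FT.leaf [(nat_lit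
 6988455)]) FT.nil) FT.nil)))))))) (FT.cons (FT.cons (FT.cons (FT.leaf [(nat_lit 4055318), (nat_lit 4234321), (nat_lit 4420345), (nat_lit 4611389), (nat_lit 4805958), (nat_lit 5002902), (nat_lit 5201309), (nat_lit 5400453), (nat_lit 5599743), (nat_lit 5798702)]) (FT.cons (FT.leaf [(nat_lit 4395682), (nat_lit 4582072), (nat_lit 4772967), (nat_lit 4966970), (nat_lit 5163010), (nat_lit 5360241), (nat_lit 5557988), (nat_lit 5755707), (nat_lit 5952956)]) (FT.cons (FT.leaf [(nat_lit 4742906), (nat_lit 4933423), (nat_lit 5126683), (nat_lit 5321679), (nat_lit 5517627), (nat_lit 5713897), (nat_lit 5909986)]) (FT.cons (FT.leaf [(nat_lit 5092658), (nat_lit 5285019), (nat_lit 5478855), (nat_lit 5673429), (nat_lit 5868156)]) (FT.cons (FT.leaf [(nat_lit 5441917), (nat_lit 5634494), (nat_lit 5827621), (nat_lit 6020752)]) (FT.cons (FT.leaf [(nat_lit 5788565), (nat_lit 5980184)]) (FT.cons (FT.leaf [(nat_lit 6131106)]) FT.nil))))))) (FT.cons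 (FT.cons (FT.leaf [(nat_lit 4622894), (nat_lit 4807677), (nat_lit 4996595), (nat_lit 5188321), (nat_lit 5381842), (nat_lit 5576364), (nat_lit 5771256), (nat_lit 5966010)]) (FT.cons (FT.leaf [(nat_lit 4966321), (nat_lit 5154705), (nat_lit 5345568), (nat_lit
 5537960), (nat_lit 5731141), (nat_lit 5924521), (nat_lit 6117629)]) (FT.cons (FT.leaf [(nat_lit 5311529), (nat_lit 5501401), (nat_lit 5692566), (nat_lit 5884331), (nat_lit 6076145)]) (FT.cons (FT.leaf [(nat_lit 5655772), (nat_lit 5845627), (nat_lit 6035915), (nat_lit 6226121)]) (FT.cons (FT.leaf [(nat_lit 5997120), (nat_lit 6185882)]) (FT.cons (FT.leaf [(nat_lit 6334224)]) FT.nil)))))) (FT.cons (FT.cons (FT.leaf [(nat_lit 5185932), (nat_lit 5372094), (nat_lit 5560507), (nat_lit 5750270), (nat_lit 5940683)]) (FT.cons (FT.leaf [(nat_lit 5526498), (nat_lit 5713845), (nat_lit 5902331), (nat_lit 6091299)]) (FT.cons (FT.leaf [(nat_lit 5865707), (nat_lit 6052847)]) (FT.cons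 (FT.leaf [(nat_lit 6201804)]) (FT.cons (FT.leaf [(nat_lit 6533560)]) FT.nil))))) (FT.cons (FT.cons (FT.leaf [(nat_lit 5737612), (nat_lit 5922419), (nat_lit 6108232)]) (FT.cons (FT.leaf [(nat_lit 6071803), (nat_lit 6256245)]) (FT.cons (FT.leaf [(nat_lit 6402711)]) FT.nil))) (FT.cons (FT.cons (FT.leaf [(nat_lit 6274142)]) (FT.cons (FT.leaf [(nat_lit 6599938)]) FT.nil)) (FT.cons (FT.cons (FT.leaf [(nat_lit 6793586)]) FT.nil) FT.nil)))))) (FT.cons (FT.cons (FT.cons (FT.leaf [(nat_lit 5002168), (nat_lit 5181873), (nat_lit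
 5365421), (nat_lit 5551560), (nat_lit 5739339), (nat_lit 5928018)]) (FT.cons (FT.leaf [(nat_lit 5335570), (nat_lit 5518523), (nat_lit 5703773), (nat_lit 5890427), (nat_lit 6077791)]) (FT.cons (FT.leaf [(nat_lit 5670356), (nat_lit 5854608), (nat_lit 6040053), (nat_lit 6226043)]) (FT.cons (FT.leaf [(nat_lit 6004028), (nat_lit 6188197)]) (FT.cons (FT.leaf [(nat_lit 6334840)]) (FT.cons (FT.leaf [(nat_lit 6661570)]) FT.nil)))))) (FT.cons (FT.cons (FT.leaf [(nat_lit 5547702), (nat_lit 5728473), (nat_lit 5911345), (nat_lit 6095468), (nat_lit 6280184)]) (FT.cons (FT.leaf [(nat_lit 5877980), (nat_lit 6059796), (nat_lit 6242674), (nat_lit 6425994)]) (FT.cons (FT.leaf [(nat_lit 6206827), (nat_lit 6388401)]) (FT.cons (FT.leaf [(nat_lit 6532641)]) (FT.cons (FT.leaf [(nat_lit 6854306)]) FT.nil))))) (FT.cons (FT.cons (FT.leaf [(nat_lit 6081946), (nat_lit 6261323), (nat_lit 6441647)]) (FT.cons (FT.leaf [(nat_lit 6405998), (nat_lit 6585002)])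 (FT.cons (FT.leaf [(nat_lit 6726886)]) FT.nil))) (FT.cons (FT.cons (FT.leaf [(nat_lit 6601627)]) (FT.cons (FT.leaf [(nat_lit 6917667)]) FT.nil)) (FT.cons (FT.cons (FT.leaf [(nat_lit 7105079)]) FT.nil) FT.nil))))) (FT.cons (FT.cons (FT.cons (FT.leaf [(nat_lit
 5896079), (nat_lit 6071719), (nat_lit 6249335), (nat_lit 6428122)]) (FT.cons (FT.leaf [(nat_lit 6216601), (nat_lit 6393181), (nat_lit 6570761)]) (FT.cons (FT.leaf [(nat_lit 6535664)]) FT.nil))) (FT.cons (FT.cons (FT.leaf [(nat_lit 6413857), (nat_lit 6588101)]) (FT.cons (FT.leaf [(nat_lit 6728348)]) FT.nil)) (FT.cons (FT.cons (FT.leaf [(nat_lit 6917689)]) FT.nil) FT.nil))) (FT.cons (FT.cons (FT.cons (FT.leaf [(nat_lit 6734181)]) FT.nil) (FT.cons (FT.cons (FT.leaf [(nat_lit 7223093)]) FT.nil) FT.nil)) (FT.cons (FT.cons (FT.cons (FT.leaf [(nat_lit 7518538)]) FT.nil) FT.nil) (FT.cons (FT.cons (FT.cons (FT.leaf [(nat_lit 8253076)]) FT.nil) FT.nil) (FT.cons (FT.cons (FT.cons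 (FT.leaf [(nat_lit 8942198)]) FT.nil) FT.nil) (FT.cons (FT.cons (FT.cons (FT.leaf [(nat_lit 9590252)]) FT.nil) FT.nil) FT.nil)))))))))) (FT.cons (FT.cons (FT.cons (FT.cons (FT.leaf [(nat_lit 4299748), (nat_lit 4449305), (nat_lit 4609733), (nat_lit 4778224), (nat_lit 4952752), (nat_lit 5131776), (nat_lit 5314094), (nat_lit 5498746), (nat_lit 5684948), (nat_lit 5872062), (nat_lit 6059560)]) (FT.cons (FT.leaf [(nat_lit 4594914), (nat_lit 4757395), (nat_lit 4927200), (nat_lit 5102443), (nat_lit 5281693), (nat_lit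
 5463836), (nat_lit 5647981), (nat_lit 5833406), (nat_lit 6019520), (nat_lit 6205838)]) (FT.cons (FT.leaf [(nat_lit 4905218), (nat_lit 5075974), (nat_lit 5251641), (nat_lit 5430882), (nat_lit 5612661), (nat_lit 5796149), (nat_lit 5980678), (nat_lit 6165697), (nat_lit 6350761)]) (FT.cons (FT.leaf [(nat_lit 5224357), (nat_lit 5400196), (nat_lit 5579227), (nat_lit 5760479), (nat_lit 5943182), (nat_lit 6126711), (nat_lit 6310559)]) (FT.cons (FT.leaf [(nat_lit 5547983), (nat_lit 5726630), (nat_lit 5907216), (nat_lit 6089023), (nat_lit 6271468)]) (FT.cons (FT.leaf [(nat_lit 5873012), (nat_lit 6052814), (nat_lit 6233629), (nat_lit 6414916)]) (FT.cons (FT.leaf [(nat_lit 6197220), (nat_lit 6376965)]) (FT.cons (FT.leaf [(nat_lit 6519000)]) (FT.cons (FT.leaf [(nat_lit 6837194)]) FT.nil))))))))) (FT.cons (FT.cons (FT.leaf [(nat_lit 4805448), (nat_lit 4967934), (nat_lit 5137219), (nat_lit 5311495), (nat_lit 5489409), (nat_lit 5669906),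 (nat_lit 5852153), (nat_lit 6035472), (nat_lit 6219320), (nat_lit 6403241)]) (FT.cons (FT.leaf [(nat_lit 5114666), (nat_lit 5284623), (nat_lit 5459097), (nat_lit 5636821), (nat_lit 5816813), (nat_lit 5998294), (nat_lit 6180638), (nat_lit 6363335), (nat_lit
 6545966)]) (FT.cons (FT.leaf [(nat_lit 5431488), (nat_lit 5605945), (nat_lit 5783308), (nat_lit 5962656), (nat_lit 6143263), (nat_lit 6324543), (nat_lit 6506023)]) (FT.cons (FT.leaf [(nat_lit 5751935), (nat_lit 5928787), (nat_lit 6107373), (nat_lit 6287011), (nat_lit 6467156)]) (FT.cons (FT.leaf [(nat_lit 6073193), (nat_lit 6250915), (nat_lit 6429505), (nat_lit 6608452)]) (FT.cons (FT.leaf [(nat_lit 6393241), (nat_lit 6570715)]) (FT.cons (FT.leaf [(nat_lit 6710621)]) (FT.cons (FT.leaf [(nat_lit 7024284)]) FT.nil)))))))) (FT.cons (FT.cons (FT.leaf [(nat_lit 5321523), (nat_lit 5490466), (nat_lit 5663583), (nat_lit 5839664), (nat_lit 6017778), (nat_lit 6197192), (nat_lit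 6377316), (nat_lit 6557672)]) (FT.cons (FT.leaf [(nat_lit 5635711), (nat_lit 5808652), (nat_lit 5984246), (nat_lit 6161621), (nat_lit 6340089), (nat_lit 6519099), (nat_lit 6698206)]) (FT.cons (FT.leaf [(nat_lit 5952791), (nat_lit 6127771), (nat_lit 6304305), (nat_lit 6481748), (nat_lit 6659583)]) (FT.cons (FT.leaf [(nat_lit 6270185), (nat_lit 6445791), (nat_lit 6622140), (nat_lit 6798749)]) (FT.cons (FT.leaf [(nat_lit 6586046), (nat_lit 6761245)]) (FT.cons (FT.leaf [(nat_lit 6899047)]) FT.nil)))))) (FT.cons (FT.cons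
 (FT.leaf [(nat_lit 5836973), (nat_lit 6008292), (nat_lit 6182044), (nat_lit 6357396), (nat_lit 6533698)]) (FT.cons (FT.leaf [(nat_lit 6150547), (nat_lit 6323599), (nat_lit 6498047), (nat_lit 6673279)]) (FT.cons (FT.leaf [(nat_lit 6464015), (nat_lit 6637485)]) (FT.cons (FT.leaf [(nat_lit 6775685)]) (FT.cons (FT.leaf [(nat_lit 7084343)]) FT.nil))))) (FT.cons (FT.cons (FT.leaf [(nat_lit 6345214), (nat_lit 6516298), (nat_lit 6688641)]) (FT.cons (FT.leaf [(nat_lit 6654722), (nat_lit 6826048)]) (FT.cons (FT.leaf [(nat_lit 6962215)]) FT.nil))) (FT.cons (FT.cons (FT.leaf [(nat_lit 6842354)]) (FT.cons (FT.leaf [(nat_lit 7145696)]) FT.nil)) (FT.cons (FT.cons (FT.leaf [(nat_lit 7326193)]) FT.nil) FT.nil))))))) (FT.cons (FT.cons (FT.cons (FT.leaf [(nat_lit 5163882), (nat_lit 5323224), (nat_lit 5488911), (nat_lit 5659216), (nat_lit 5832856), (nat_lit 6008841), (nat_lit 6186393), (nat_lit 6364886), (nat_lit 6543811), (nat_lit 6722751)])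 (FT.cons (FT.leaf [(nat_lit 5466343), (nat_lit 5632510), (nat_lit 5802867), (nat_lit 5976213), (nat_lit 6151623), (nat_lit 6328371), (nat_lit 6505871), (nat_lit 6683652), (nat_lit 6861326)]) (FT.cons (FT.leaf [(nat_lit 5775490), (nat_lit 5945714), (nat_lit
 6118619), (nat_lit 6293337), (nat_lit 6469188), (nat_lit 6645625), (nat_lit 6822207)]) (FT.cons (FT.leaf [(nat_lit 6087673), (nat_lit 6260009), (nat_lit 6433934), (nat_lit 6608810), (nat_lit 6784123)]) (FT.cons (FT.leaf [(nat_lit 6400331), (nat_lit 6573377), (nat_lit 6747208), (nat_lit 6921346)]) (FT.cons (FT.leaf [(nat_lit 6711632), (nat_lit 6884364)]) (FT.cons (FT.leaf [(nat_lit 7020260)]) FT.nil))))))) (FT.cons (FT.cons (FT.leaf [(nat_lit 5667256), (nat_lit 5832300), (nat_lit 6001235), (nat_lit 6172911), (nat_lit 6346450), (nat_lit 6521164), (nat_lit 6696501), (nat_lit 6872018)]) (FT.cons (FT.leaf [(nat_lit 5973642), (nat_lit 6142314), (nat_lit 6313448), (nat_lit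 6486219), (nat_lit 6659980), (nat_lit 6834216), (nat_lit 7008510)]) (FT.cons (FT.leaf [(nat_lit 6282451), (nat_lit 6452933), (nat_lit 6624849), (nat_lit 6797590), (nat_lit 6970672)]) (FT.cons (FT.leaf [(nat_lit 6591322), (nat_lit 6762308), (nat_lit 6933972), (nat_lit 7105859)]) (FT.cons (FT.leaf [(nat_lit 6898573), (nat_lit 7069111)]) (FT.cons (FT.leaf [(nat_lit 7202997)]) FT.nil)))))) (FT.cons (FT.cons (FT.leaf [(nat_lit 6168902), (nat_lit 6335942), (nat_lit 6505251), (nat_lit 6676041), (nat_lit 6847698)]) (FT.cons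
 (FT.leaf [(nat_lit 6474238), (nat_lit 6642826), (nat_lit 6812711), (nat_lit 6983314)]) (FT.cons (FT.leaf [(nat_lit 6779287), (nat_lit 6948203)]) (FT.cons (FT.leaf [(nat_lit 7082498)]) (FT.cons (FT.leaf [(nat_lit 7382761)]) FT.nil))))) (FT.cons (FT.cons (FT.leaf [(nat_lit 6663057), (nat_lit 6829725), (nat_lit 6997570)]) (FT.cons (FT.leaf [(nat_lit 6964269), (nat_lit 7131115)]) (FT.cons (FT.leaf [(nat_lit 7263465)]) FT.nil))) (FT.cons (FT.cons (FT.leaf [(nat_lit 7146319)]) (FT.cons (FT.leaf [(nat_lit 7441535)]) FT.nil)) (FT.cons (FT.cons (FT.leaf [(nat_lit 7616770)]) FT.nil) FT.nil)))))) (FT.cons (FT.cons (FT.cons (FT.leaf [(nat_lit 6001606), (nat_lit 6162817), (nat_lit 6327678), (nat_lit 6495093), (nat_lit 6664230), (nat_lit 6834440)]) (FT.cons (FT.leaf [(nat_lit 6300389), (nat_lit 6464923), (nat_lit 6631758), (nat_lit 6800112), (nat_lit 6969374)]) (FT.cons (FT.leaf [(nat_lit 6601225), (nat_lit 6767386), (nat_lit 6934882),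 (nat_lit 7103138)]) (FT.cons (FT.leaf [(nat_lit 6901941), (nat_lit 7068515)]) (FT.cons (FT.leaf [(nat_lit 7200992)]) (FT.cons (FT.leaf [(nat_lit 7497271)]) FT.nil)))))) (FT.cons (FT.cons (FT.leaf [(nat_lit 6489916), (nat_lit 6652828), (nat_lit 6817871), (nat_lit
 6984295), (nat_lit 7151520)]) (FT.cons (FT.leaf [(nat_lit 6787342), (nat_lit 6951654), (nat_lit 7117182), (nat_lit 7283374)]) (FT.cons (FT.leaf [(nat_lit 7084353), (nat_lit 7248927)]) (FT.cons (FT.leaf [(nat_lit 7379518)]) (FT.cons (FT.leaf [(nat_lit 7671815)]) FT.nil))))) (FT.cons (FT.cons (FT.leaf [(nat_lit 6970613), (nat_lit 7133061), (nat_lit 7296617)]) (FT.cons (FT.leaf [(nat_lit 7263919), (nat_lit 7426499)]) (FT.cons (FT.leaf [(nat_lit 7555230)]) FT.nil))) (FT.cons (FT.cons (FT.leaf [(nat_lit 7440691)]) (FT.cons (FT.leaf [(nat_lit 7728190)]) FT.nil)) (FT.cons (FT.cons (FT.leaf [(nat_lit 7898456)]) FT.nil) FT.nil))))) (FT.cons (FT.cons (FT.cons (FT.leaf [(nat_lit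 6800625), (nat_lit 6959566), (nat_lit 7120520), (nat_lit 7282773)]) (FT.cons (FT.leaf [(nat_lit 7090472), (nat_lit 7250695), (nat_lit 7412064)]) (FT.cons (FT.leaf [(nat_lit 7379816)]) FT.nil))) (FT.cons (FT.cons (FT.leaf [(nat_lit 7268483), (nat_lit 7426901)]) (FT.cons (FT.leaf [(nat_lit 7554258)]) FT.nil)) (FT.cons (FT.cons (FT.leaf [(nat_lit 7726037)]) FT.nil) FT.nil))) (FT.cons (FT.cons (FT.cons (FT.leaf [(nat_lit 7557231)]) FT.nil) (FT.cons (FT.cons (FT.leaf [(nat_lit 8002881)]) FT.nil) FT.nil)) (FT.cons (FT.cons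
 (FT.cons (FT.leaf [(nat_lit 8271714)]) FT.nil) FT.nil) (FT.cons (FT.cons (FT.cons (FT.leaf [(nat_lit 8946129)]) FT.nil) FT.nil) (FT.cons (FT.cons (FT.cons (FT.leaf [(nat_lit 9583267)]) FT.nil) FT.nil) (FT.cons (FT.cons (FT.cons (FT.leaf [(nat_lit 10186064)]) FT.nil) FT.nil) FT.nil))))))))) (FT.cons (FT.cons (FT.cons (FT.cons (FT.leaf [(nat_lit 6126206), (nat_lit 6270716), (nat_lit 6421018), (nat_lit 6575579), (nat_lit 6733268), (nat_lit 6893217), (nat_lit 7054741), (nat_lit 7217292), (nat_lit 7380422), (nat_lit 7543764)]) (FT.cons (FT.leaf [(nat_lit 6400059), (nat_lit 6550878), (nat_lit 6705592), (nat_lit 6863141), (nat_lit 7022709), (nat_lit 7183656), (nat_lit 7345467), (nat_lit 7507725), (nat_lit 7670086)]) (FT.cons (FT.leaf [(nat_lit 6680284), (nat_lit 6834997), (nat_lit 6992280), (nat_lit 7151368), (nat_lit 7311658), (nat_lit 7472666), (nat_lit 7634003)]) (FT.cons (FT.leaf [(nat_lit 6963723), (nat_lit 7120633), (nat_lit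 7279153), (nat_lit 7438716), (nat_lit 7598868)]) (FT.cons (FT.leaf [(nat_lit 7248151), (nat_lit 7406028), (nat_lit 7564805), (nat_lit 7724053)]) (FT.cons (FT.leaf [(nat_lit 7531965), (nat_lit 7689904)]) (FT.cons (FT.leaf [(nat_lit 7813997)]) FT.nil)))))))
 (FT.cons (FT.cons (FT.leaf [(nat_lit 6581086), (nat_lit 6731077), (nat_lit 6884712), (nat_lit 7040973), (nat_lit 7199082), (nat_lit 7358430), (nat_lit 7518529), (nat_lit 7678984)]) (FT.cons (FT.leaf [(nat_lit 6859196), (nat_lit 7012720), (nat_lit 7168629), (nat_lit 7326191), (nat_lit 7484831), (nat_lit 7644091), (nat_lit 7803599)]) (FT.cons (FT.leaf [(nat_lit 7140003), (nat_lit 7295465), (nat_lit 7452403), (nat_lit 7610275), (nat_lit 7768649)]) (FT.cons (FT.leaf [(nat_lit 7421441), (nat_lit 7577690), (nat_lit 7734742), (nat_lit 7892189)]) (FT.cons (FT.leaf [(nat_lit 7702028), (nat_lit 7858215)]) (FT.cons (FT.leaf [(nat_lit 7980681)]) FT.nil)))))) (FT.cons (FT.cons (FT.leaf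 [(nat_lit 7035805), (nat_lit 7188071), (nat_lit 7342556), (nat_lit 7498558), (nat_lit 7655529)]) (FT.cons (FT.leaf [(nat_lit 7313890), (nat_lit 7467867), (nat_lit 7623199), (nat_lit 7779368)]) (FT.cons (FT.leaf [(nat_lit 7592298), (nat_lit 7746903)]) (FT.cons (FT.leaf [(nat_lit 7869652)]) (FT.cons (FT.leaf [(nat_lit 8144947)]) FT.nil))))) (FT.cons (FT.cons (FT.leaf [(nat_lit 7485396), (nat_lit 7637859), (nat_lit 7791570)]) (FT.cons (FT.leaf [(nat_lit 7760749), (nat_lit 7913702)]) (FT.cons (FT.leaf [(nat_lit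
 8034875)]) FT.nil))) (FT.cons (FT.cons (FT.leaf [(nat_lit 7926825)]) (FT.cons (FT.leaf [(nat_lit 8197738)]) FT.nil)) (FT.cons (FT.cons (FT.leaf [(nat_lit 8358283)]) FT.nil) FT.nil)))))) (FT.cons (FT.cons (FT.cons (FT.leaf [(nat_lit 6881402), (nat_lit 7028363), (nat_lit 7178764), (nat_lit 7331630), (nat_lit 7486220), (nat_lit 7641955)]) (FT.cons (FT.leaf [(nat_lit 7153476), (nat_lit 7303708), (nat_lit 7456185), (nat_lit 7610206), (nat_lit 7765227)]) (FT.cons (FT.leaf [(nat_lit 7427920), (nat_lit 7579923), (nat_lit 7733309), (nat_lit 7887563)]) (FT.cons (FT.leaf [(nat_lit 7702812), (nat_lit 7855505)]) (FT.cons (FT.leaf [(nat_lit 7976775)]) (FT.cons (FT.leaf [(nat_lit 8248809)]) FT.nil)))))) (FT.cons (FT.cons (FT.leaf [(nat_lit 7325505), (nat_lit 7474474), (nat_lit 7625540), (nat_lit 7778030), (nat_lit 7931422)]) (FT.cons (FT.leaf [(nat_lit 7597254), (nat_lit 7747794), (nat_lit 7899611), (nat_lit 8052209)]) (FT.cons (FT.leaf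 [(nat_lit 7869185), (nat_lit 8020277)]) (FT.cons (FT.leaf [(nat_lit 8140014)]) (FT.cons (FT.leaf [(nat_lit 8408811)]) FT.nil))))) (FT.cons (FT.cons (FT.leaf [(nat_lit 7764289), (nat_lit 7913346), (nat_lit 8063584)]) (FT.cons (FT.leaf [(nat_lit 8033246), (nat_lit
 8182734)]) (FT.cons (FT.leaf [(nat_lit 8300955)]) FT.nil))) (FT.cons (FT.cons (FT.leaf [(nat_lit 8195029)]) (FT.cons (FT.leaf [(nat_lit 8459635)]) FT.nil)) (FT.cons (FT.cons (FT.leaf [(nat_lit 8616099)]) FT.nil) FT.nil))))) (FT.cons (FT.cons (FT.cons (FT.leaf [(nat_lit 7606959), (nat_lit 7752733), (nat_lit 7900497), (nat_lit 8049606)]) (FT.cons (FT.leaf [(nat_lit 7872592), (nat_lit 8019821), (nat_lit 8168258)]) (FT.cons (FT.leaf [(nat_lit 8138300)]) FT.nil))) (FT.cons (FT.cons (FT.leaf [(nat_lit 8035357), (nat_lit 8181138)]) (FT.cons (FT.leaf [(nat_lit 8298178)]) FT.nil)) (FT.cons (FT.cons (FT.leaf [(nat_lit 8455869)]) FT.nil) FT.nil))) (FT.cons (FT.cons (FT.cons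 (FT.leaf [(nat_lit 8298998)]) FT.nil) (FT.cons (FT.cons (FT.leaf [(nat_lit 8709725)]) FT.nil) FT.nil)) (FT.cons (FT.cons (FT.cons (FT.leaf [(nat_lit 8956949)]) FT.nil) FT.nil) (FT.cons (FT.cons (FT.cons (FT.leaf [(nat_lit 9581837)]) FT.nil) FT.nil) (FT.cons (FT.cons (FT.cons (FT.leaf [(nat_lit 10175432)]) FT.nil) FT.nil) (FT.cons (FT.cons (FT.cons (FT.leaf [(nat_lit 10739789)]) FT.nil) FT.nil) FT.nil)))))))) (FT.cons (FT.cons (FT.cons (FT.cons (FT.leaf [(nat_lit 7669705), (nat_lit 7805251), (nat_lit 7944039), (nat_lit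
 8085183), (nat_lit 8228017), (nat_lit 8372017)]) (FT.cons (FT.leaf [(nat_lit 7920375), (nat_lit 8059089), (nat_lit 8199966), (nat_lit 8342374), (nat_lit 8485818)]) (FT.cons (FT.leaf [(nat_lit 8173549), (nat_lit 8314085), (nat_lit 8456007), (nat_lit 8598849)]) (FT.cons (FT.leaf [(nat_lit 8427511), (nat_lit 8568896)]) FT.nil)))) (FT.cons (FT.cons (FT.leaf [(nat_lit 8078356), (nat_lit 8216054), (nat_lit 8355785), (nat_lit 8496939), (nat_lit 8639043)]) (FT.cons (FT.leaf [(nat_lit 8329332), (nat_lit 8468675), (nat_lit 8609308), (nat_lit 8750783)]) (FT.cons (FT.leaf [(nat_lit 8580857), (nat_lit 8720924)]) FT.nil))) (FT.cons (FT.cons (FT.leaf [(nat_lit 8483205), (nat_lit 8621333)]) (FT.cons (FT.leaf [(nat_lit 8732275)]) FT.nil)) (FT.cons (FT.cons (FT.leaf [(nat_lit 8881786)]) FT.nil) FT.nil)))) (FT.cons (FT.cons (FT.cons (FT.leaf [(nat_lit 8336285), (nat_lit 8471340), (nat_lit 8608330), (nat_lit 8746669)]) (FT.cons (FT.leaf [(nat_lit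 8582189), (nat_lit 8718777), (nat_lit 8856591)]) (FT.cons (FT.leaf [(nat_lit 8828528)]) FT.nil))) (FT.cons (FT.cons (FT.leaf [(nat_lit 8732504), (nat_lit 8867899)]) (FT.cons (FT.leaf [(nat_lit 8976444)]) FT.nil)) (FT.cons (FT.cons (FT.leaf [(nat_lit
 9122523)]) FT.nil) FT.nil))) (FT.cons (FT.cons (FT.cons (FT.leaf [(nat_lit 8975606)]) FT.nil) (FT.cons (FT.cons (FT.leaf [(nat_lit 9357391)]) FT.nil) FT.nil)) (FT.cons (FT.cons (FT.cons (FT.leaf [(nat_lit 9586658)]) FT.nil) FT.nil) (FT.cons (FT.cons (FT.cons (FT.leaf [(nat_lit 10169854)]) FT.nil) FT.nil) (FT.cons (FT.cons (FT.cons (FT.leaf [(nat_lit 10726325)]) FT.nil) FT.nil) FT.nil)))))) (FT.cons (FT.cons (FT.cons (FT.cons (FT.leaf [(nat_lit 9003355), (nat_lit 9129461), (nat_lit 9257439)]) (FT.cons (FT.leaf [(nat_lit 9232785), (nat_lit 9360454)]) (FT.cons (FT.leaf [(nat_lit 9462882)]) FT.nil))) (FT.cons (FT.cons (FT.leaf [(nat_lit 9372694)]) (FT.cons (FT.leaf [(nat_lit 9600758)])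 FT.nil)) (FT.cons (FT.cons (FT.leaf [(nat_lit 9737061)]) FT.nil) FT.nil))) (FT.cons (FT.cons (FT.cons (FT.leaf [(nat_lit 9598614)]) FT.nil) (FT.cons (FT.cons (FT.leaf [(nat_lit 9955924)]) FT.nil) FT.nil)) (FT.cons (FT.cons (FT.cons (FT.leaf [(nat_lit 10169977)]) FT.nil) FT.nil) (FT.cons (FT.cons (FT.cons (FT.leaf [(nat_lit 10717484)]) FT.nil) FT.nil) FT.nil)))) (FT.cons (FT.cons (FT.cons (FT.cons (FT.leaf [(nat_lit 10176634)]) FT.nil) FT.nil) (FT.cons (FT.cons (FT.cons (FT.leaf [(nat_lit 10713873)])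
 FT.nil) FT.nil) FT.nil)) (FT.cons (FT.cons (FT.cons (FT.cons (FT.leaf [(nat_lit 11223787)]) FT.nil) FT.nil) FT.nil) (FT.cons (FT.cons (FT.cons (FT.cons (FT.leaf [(nat_lit 12169290)]) FT.nil) FT.nil) FT.nil) FT.nil))))))))

def f144_1_400 : FT := (FT.cons (FT.cons (FT.cons (FT.cons (FT.leaf [(nat_lit 2915768), (nat_lit 3085506), (nat_lit 3268014), (nat_lit 3459999), (nat_lit 3659039), (nat_lit 3863268), (nat_lit 4071206), (nat_lit 4281664), (nat_lit 4493671), (nat_lit 4706436), (nat_lit 4919306)]) (FT.cons (FT.leaf [(nat_lit 3252253), (nat_lit 3437300), (nat_lit 3630879), (nat_lit 3830732), (nat_lit 4035129), (nat_lit 4242706), (nat_lit 4452368), (nat_lit 4663226), (nat_lit 4874553), (nat_lit 5085756)]) (FT.cons (FT.leaf [(nat_lit 3606804), (nat_lit 3801479), (nat_lit 4001743), (nat_lit 4205987), (nat_lit 4412946), (nat_lit 4621610), (nat_lit 4831160), (nat_lit 5040930), (nat_lit 5250378)]) (FT.cons (FT.leaf [(nat_lit 3971530),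 (nat_lit 4171864), (nat_lit 4375680), (nat_lit 4581804), (nat_lit 4789299), (nat_lit 4997410), (nat_lit 5205524)]) (FT.cons (FT.leaf [(nat_lit 4340920), (nat_lit 4544075), (nat_lit 4749179), (nat_lit 4955362), (nat_lit 5161925)]) (FT.cons (FT.leaf [(nat_lit 4711064), (nat_lit 4914992), (nat_lit 5119743), (nat_lit 5324669)]) (FT.cons (FT.leaf [(nat_lit 5079182), (nat_lit 5282399)]) (FT.cons (FT.leaf [(nat_lit 5443303)]) (FT.cons (FT.leaf [(nat_lit 5802051)]) FT.nil))))))))) (FT.cons (FT.cons (FT.leaf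
 [(nat_lit 3495286), (nat_lit 3680320), (nat_lit 3873170), (nat_lit 4071687), (nat_lit 4274239), (nat_lit 4479552), (nat_lit 4686611), (nat_lit 4894595), (nat_lit 5102840), (nat_lit 5310803)]) (FT.cons (FT.leaf [(nat_lit 3848404), (nat_lit 4041953), (nat_lit 4240562), (nat_lit 4442708), (nat_lit 4647209), (nat_lit 4853124), (nat_lit 5059698), (nat_lit 5266316), (nat_lit 5472481)]) (FT.cons (FT.leaf [(nat_lit 4209972), (nat_lit 4408383), (nat_lit 4609895), (nat_lit 4813402), (nat_lit 5018033), (nat_lit 5223088), (nat_lit 5428001)]) (FT.cons (FT.leaf [(nat_lit 4575012), (nat_lit 4775691), (nat_lit 4978053), (nat_lit 5181283), (nat_lit 5384731)]) (FT.cons (FT.leaf [(nat_lit 4940015), (nat_lit 5141100), (nat_lit 5342831), (nat_lit 5544600)]) (FT.cons (FT.leaf [(nat_lit 5302499), (nat_lit 5502647)]) (FT.cons (FT.leaf [(nat_lit 5660708)]) (FT.cons (FT.leaf [(nat_lit 6013436)]) FT.nil)))))))) (FT.cons (FT.cons (FT.leaf [(nat_lit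 4086575), (nat_lit 4278684), (nat_lit 4475394), (nat_lit 4675265), (nat_lit 4877185), (nat_lit 5080276), (nat_lit 5283834), (nat_lit 5487295)]) (FT.cons (FT.leaf [(nat_lit 4444513), (nat_lit 4640811), (nat_lit 4839882), (nat_lit 5040685), (nat_lit 5242405),
 (nat_lit 5444388), (nat_lit 5646111)]) (FT.cons (FT.leaf [(nat_lit 4804939), (nat_lit 5003044), (nat_lit 5202605), (nat_lit 5402856), (nat_lit 5603193)]) (FT.cons (FT.leaf [(nat_lit 5164687), (nat_lit 5362896), (nat_lit 5561600), (nat_lit 5760232)]) (FT.cons (FT.leaf [(nat_lit 5521523), (nat_lit 5718615)]) (FT.cons (FT.leaf [(nat_lit 5873888)]) FT.nil)))))) (FT.cons (FT.cons (FT.leaf [(nat_lit 4675075), (nat_lit 4869119), (nat_lit 5065654), (nat_lit 5263697), (nat_lit 5462482), (nat_lit 5661398)]) (FT.cons (FT.leaf [(nat_lit 5030704), (nat_lit 5226169), (nat_lit 5422895), (nat_lit 5620164), (nat_lit 5817409)]) (FT.cons (FT.leaf [(nat_lit 5385132), (nat_lit 5580454),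 (nat_lit 5776144), (nat_lit 5971671)]) (FT.cons (FT.leaf [(nat_lit 5736348), (nat_lit 5930406)]) (FT.cons (FT.leaf [(nat_lit 6082944)]) FT.nil))))) (FT.cons (FT.cons (FT.leaf [(nat_lit 5252335), (nat_lit 5445120), (nat_lit 5639001)]) (FT.cons (FT.leaf [(nat_lit 5601425), (nat_lit 5793862)]) (FT.cons (FT.leaf [(nat_lit 5947067)]) FT.nil))) (FT.cons (FT.cons (FT.leaf [(nat_lit 5813645)]) (FT.cons (FT.leaf [(nat_lit 6153780)]) FT.nil)) (FT.cons (FT.cons (FT.leaf [(nat_lit 6356596)]) FT.nil) (FT.cons (FT.cons (FT.leaf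
 [(nat_lit 6880188)]) FT.nil) (FT.cons (FT.cons (FT.leaf [(nat_lit 7384280)]) FT.nil) FT.nil))))))))) (FT.cons (FT.cons (FT.cons (FT.leaf [(nat_lit 3912501), (nat_lit 4093329), (nat_lit 4281340), (nat_lit 4474498), (nat_lit 4671278), (nat_lit 4870501), (nat_lit 5071234), (nat_lit 5272729), (nat_lit 5474380), (nat_lit 5675696), (nat_lit 5876275)]) (FT.cons (FT.leaf [(nat_lit 4256577), (nat_lit 4445007), (nat_lit 4638051), (nat_lit 4834283), (nat_lit 5032606), (nat_lit 5232154), (nat_lit 5432235), (nat_lit 5632289), (nat_lit 5831863), (nat_lit 6030588)]) (FT.cons (FT.leaf [(nat_lit 4607793), (nat_lit 4800481), (nat_lit 4995977), (nat_lit 5193253), (nat_lit 5391503), (nat_lit 5590085), (nat_lit 5788480), (nat_lit 5986269), (nat_lit 6183112)]) (FT.cons (FT.leaf [(nat_lit 4961683), (nat_lit 5156280), (nat_lit 5352384), (nat_lit 5549242), (nat_lit 5746254), (nat_lit 5942939), (nat_lit 6138911)]) (FT.cons (FT.leaf [(nat_lit 5315125),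 (nat_lit 5509953), (nat_lit 5705339), (nat_lit 5900724), (nat_lit 6095662)]) (FT.cons (FT.leaf [(nat_lit 5665925), (nat_lit 5859775), (nat_lit 6053488), (nat_lit 6246648)]) (FT.cons (FT.leaf [(nat_lit 6012536), (nat_lit 6204541)]) (FT.cons (FT.leaf [(nat_lit
 6353884)]) (FT.cons (FT.leaf [(nat_lit 6689242)]) FT.nil))))))))) (FT.cons (FT.cons (FT.leaf [(nat_lit 4486732), (nat_lit 4673567), (nat_lit 4864626), (nat_lit 5058558), (nat_lit 5254327), (nat_lit 5451121), (nat_lit 5648293), (nat_lit 5845323), (nat_lit 6041790), (nat_lit 6237351)]) (FT.cons (FT.leaf [(nat_lit 4834142), (nat_lit 5024678), (nat_lit 5217747), (nat_lit 5412376), (nat_lit 5607809), (nat_lit 5803442), (nat_lit 5998795), (nat_lit 6193474), (nat_lit 6387165)]) (FT.cons (FT.leaf [(nat_lit 5183432), (nat_lit 5375501), (nat_lit 5568887), (nat_lit 5762880), (nat_lit 5956919), (nat_lit 6150553), (nat_lit 6343421)]) (FT.cons (FT.leaf [(nat_lit 5531769), (nat_lit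 5723824), (nat_lit 5916313), (nat_lit 6108711), (nat_lit 6300598)]) (FT.cons (FT.leaf [(nat_lit 5877162), (nat_lit 6068095), (nat_lit 6258816), (nat_lit 6448934)]) (FT.cons (FT.leaf [(nat_lit 6218219), (nat_lit 6407236)]) (FT.cons (FT.leaf [(nat_lit 6553974)]) (FT.cons (FT.leaf [(nat_lit 6883781)]) FT.nil)))))))) (FT.cons (FT.cons (FT.leaf [(nat_lit 5056621), (nat_lit 5244908), (nat_lit 5435488), (nat_lit 5627441), (nat_lit 5820053), (nat_lit 6012756), (nat_lit 6205100), (nat_lit 6396719)]) (FT.cons (FT.leaf [(nat_lit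
 5401198), (nat_lit 5590698), (nat_lit 5781353), (nat_lit 5972493), (nat_lit 6163588), (nat_lit 6354215), (nat_lit 6544036)]) (FT.cons (FT.leaf [(nat_lit 5744407), (nat_lit 5933692), (nat_lit 6123307), (nat_lit 6312756), (nat_lit 6501644)]) (FT.cons (FT.leaf [(nat_lit 6084438), (nat_lit 6272485), (nat_lit 6460261), (nat_lit 6647395)]) (FT.cons (FT.leaf [(nat_lit 6420028), (nat_lit 6606110)]) (FT.cons (FT.leaf [(nat_lit 6750309)]) FT.nil)))))) (FT.cons (FT.cons (FT.leaf [(nat_lit 5615027), (nat_lit 5801940), (nat_lit 5989868), (nat_lit 6178176), (nat_lit 6366365)]) (FT.cons (FT.leaf [(nat_lit 5953117), (nat_lit 6139648), (nat_lit 6326421), (nat_lit 6512967)]) (FT.cons (FT.leaf [(nat_lit 6287848), (nat_lit 6473052)]) (FT.cons (FT.leaf [(nat_lit 6618071)]) (FT.cons (FT.leaf [(nat_lit 6942999)]) FT.nil))))) (FT.cons (FT.cons (FT.leaf [(nat_lit 6157984), (nat_lit 6341786), (nat_lit 6525756)]) (FT.cons (FT.leaf [(nat_lit 6487492),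 (nat_lit 6669897)]) (FT.cons (FT.leaf [(nat_lit 6812454)]) FT.nil))) (FT.cons (FT.cons (FT.leaf [(nat_lit 6683471)]) (FT.cons (FT.leaf [(nat_lit 7003285)]) FT.nil)) (FT.cons (FT.cons (FT.leaf [(nat_lit 7190668)]) FT.nil) (FT.cons (FT.cons (FT.leaf [(nat_lit
 7679486)]) FT.nil) FT.nil)))))))) (FT.cons (FT.cons (FT.cons (FT.leaf [(nat_lit 4871424), (nat_lit 5053099), (nat_lit 5238690), (nat_lit 5426924), (nat_lit 5616829), (nat_lit 5807649), (nat_lit 5998784), (nat_lit 6189753), (nat_lit 6380166), (nat_lit 6569711)]) (FT.cons (FT.leaf [(nat_lit 5208628), (nat_lit 5393628), (nat_lit 5580965), (nat_lit 5769729), (nat_lit 5959214), (nat_lit 6148858), (nat_lit 6338214), (nat_lit 6526920), (nat_lit 6714683)]) (FT.cons (FT.leaf [(nat_lit 5547279), (nat_lit 5733606), (nat_lit 5921143), (nat_lit 6109228), (nat_lit 6297335), (nat_lit 6485047), (nat_lit 6672025)]) (FT.cons (FT.leaf [(nat_lit 5884807), (nat_lit 6071044), (nat_lit 6257676),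 (nat_lit 6444210), (nat_lit 6630254)]) (FT.cons (FT.leaf [(nat_lit 6219415), (nat_lit 6404551), (nat_lit 6589482), (nat_lit 6773842)]) (FT.cons (FT.leaf [(nat_lit 6549849), (nat_lit 6733156)]) (FT.cons (FT.leaf [(nat_lit 6875239)]) FT.nil))))))) (FT.cons (FT.cons (FT.leaf [(nat_lit 5423456), (nat_lit 5606241), (nat_lit 5791159), (nat_lit 5977345), (nat_lit 6164128), (nat_lit 6350980), (nat_lit 6537477), (nat_lit 6723285)]) (FT.cons (FT.leaf [(nat_lit 5757522), (nat_lit 5941367), (nat_lit 6126286), (nat_lit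
 6311647), (nat_lit 6496955), (nat_lit 6681816), (nat_lit 6865913)]) (FT.cons (FT.leaf [(nat_lit 6090129), (nat_lit 6273720), (nat_lit 6457615), (nat_lit 6641351), (nat_lit 6824557)]) (FT.cons (FT.leaf [(nat_lit 6419634), (nat_lit 6602030), (nat_lit 6784171), (nat_lit 6965709)]) (FT.cons (FT.leaf [(nat_lit 6744891), (nat_lit 6925421)]) (FT.cons (FT.leaf [(nat_lit 7065111)]) FT.nil)))))) (FT.cons (FT.cons (FT.leaf [(nat_lit 5964026), (nat_lit 6145386), (nat_lit 6327698), (nat_lit 6510364), (nat_lit 6692915)]) (FT.cons (FT.leaf [(nat_lit 6291742), (nat_lit 6472708), (nat_lit 6653905), (nat_lit 6834889)]) (FT.cons (FT.leaf [(nat_lit 6616214), (nat_lit 6795913)]) (FT.cons (FT.leaf [(nat_lit 6936394)]) (FT.cons (FT.leaf [(nat_lit 7251561)]) FT.nil))))) (FT.cons (FT.cons (FT.leaf [(nat_lit 6489730), (nat_lit 6668103), (nat_lit 6846641)]) (FT.cons (FT.leaf [(nat_lit 6809251), (nat_lit 6986300)]) (FT.cons (FT.leaf [(nat_lit 7124459)])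 FT.nil))) (FT.cons (FT.cons (FT.leaf [(nat_lit 6998841)]) (FT.cons (FT.leaf [(nat_lit 7309184)]) FT.nil)) (FT.cons (FT.cons (FT.leaf [(nat_lit 7490667)]) FT.nil) FT.nil)))))) (FT.cons (FT.cons (FT.cons (FT.leaf [(nat_lit 5776549), (nat_lit 5954094), (nat_lit
 6133640), (nat_lit 6314370), (nat_lit 6495653), (nat_lit 6676992)]) (FT.cons (FT.leaf [(nat_lit 6100643), (nat_lit 6279136), (nat_lit 6458637), (nat_lit 6638551), (nat_lit 6818413)]) (FT.cons (FT.leaf [(nat_lit 6423243), (nat_lit 6601462), (nat_lit 6779973), (nat_lit 6958334)]) (FT.cons (FT.leaf [(nat_lit 6742841), (nat_lit 6919918)]) (FT.cons (FT.leaf [(nat_lit 7058388)]) (FT.cons (FT.leaf [(nat_lit 7369159)]) FT.nil)))))) (FT.cons (FT.cons (FT.leaf [(nat_lit 6300275), (nat_lit 6476386), (nat_lit 6653401), (nat_lit 6830753), (nat_lit 7007999)]) (FT.cons (FT.leaf [(nat_lit 6618209), (nat_lit 6793931), (nat_lit 6969879), (nat_lit 7145633)]) (FT.cons (FT.leaf [(nat_lit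 6933031), (nat_lit 7107550)]) (FT.cons (FT.leaf [(nat_lit 7243773)]) (FT.cons (FT.leaf [(nat_lit 7549770)]) FT.nil))))) (FT.cons (FT.cons (FT.leaf [(nat_lit 6809757), (nat_lit 6983014), (nat_lit 7156441)]) (FT.cons (FT.leaf [(nat_lit 7119884), (nat_lit 7291892)]) (FT.cons (FT.leaf [(nat_lit 7425922)]) FT.nil))) (FT.cons (FT.cons (FT.leaf [(nat_lit 7303492)]) (FT.cons (FT.leaf [(nat_lit 7604929)]) FT.nil)) (FT.cons (FT.cons (FT.leaf [(nat_lit 7780883)]) FT.nil) FT.nil))))) (FT.cons (FT.cons (FT.cons (FT.leaf [(nat_lit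
 6624638), (nat_lit 6795787), (nat_lit 6967804), (nat_lit 7140146)]) (FT.cons (FT.leaf [(nat_lit 6933345), (nat_lit 7104122), (nat_lit 7275123)]) (FT.cons (FT.leaf [(nat_lit 7239080)]) FT.nil))) (FT.cons (FT.cons (FT.leaf [(nat_lit 7118855), (nat_lit 7287289)]) (FT.cons (FT.leaf [(nat_lit 7420137)]) FT.nil)) (FT.cons (FT.cons (FT.leaf [(nat_lit 7598135)]) FT.nil) FT.nil))) (FT.cons (FT.cons (FT.cons (FT.leaf [(nat_lit 7417745)]) FT.nil) (FT.cons (FT.cons (FT.leaf [(nat_lit 7883416)]) FT.nil) FT.nil)) (FT.cons (FT.cons (FT.cons (FT.leaf [(nat_lit 8159923)]) FT.nil) FT.nil) (FT.cons (FT.cons (FT.cons (FT.leaf [(nat_lit 8855736)]) FT.nil) FT.nil) (FT.cons (FT.cons (FT.cons (FT.leaf [(nat_lit 9509655)]) FT.nil) FT.nil) (FT.cons (FT.cons (FT.cons (FT.leaf [(nat_lit 10125801)]) FT.nil) FT.nil) FT.nil)))))))))) (FT.cons (FT.cons (FT.cons (FT.cons (FT.leaf [(nat_lit 5039641), (nat_lit 5200348), (nat_lit 5367527), (nat_lit 5539422),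 (nat_lit 5714728), (nat_lit 5892438), (nat_lit 6071757), (nat_lit 6252043), (nat_lit 6432777), (nat_lit 6613533), (nat_lit 6793959)]) (FT.cons (FT.leaf [(nat_lit 5344888), (nat_lit 5512587), (nat_lit 5684564), (nat_lit 5859594), (nat_lit 6036738), (nat_lit
 6215252), (nat_lit 6394540), (nat_lit 6574117), (nat_lit 6753589), (nat_lit 6932627)]) (FT.cons (FT.leaf [(nat_lit 5657041), (nat_lit 5828906), (nat_lit 6003506), (nat_lit 6179961), (nat_lit 6357573), (nat_lit 6535787), (nat_lit 6714150), (nat_lit 6892294), (nat_lit 7069915)]) (FT.cons (FT.leaf [(nat_lit 5972359), (nat_lit 6146396), (nat_lit 6322055), (nat_lit 6498683), (nat_lit 6675759), (nat_lit 6852859), (nat_lit 7029640)]) (FT.cons (FT.leaf [(nat_lit 6288206), (nat_lit 6462979), (nat_lit 6638553), (nat_lit 6814437), (nat_lit 6990234)]) (FT.cons (FT.leaf [(nat_lit 6602700), (nat_lit 6777159), (nat_lit 6951805), (nat_lit 7126269)]) (FT.cons (FT.leaf [(nat_lit 6914484),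 (nat_lit 7087857)]) (FT.cons (FT.leaf [(nat_lit 7222585)]) (FT.cons (FT.leaf [(nat_lit 7526309)]) FT.nil))))))))) (FT.cons (FT.cons (FT.leaf [(nat_lit 5548018), (nat_lit 5714608), (nat_lit 5885163), (nat_lit 6058514), (nat_lit 6233768), (nat_lit 6410222), (nat_lit 6587316), (nat_lit 6764592), (nat_lit 6941682), (nat_lit 7118280)]) (FT.cons (FT.leaf [(nat_lit 5857414), (nat_lit 6027719), (nat_lit 6200534), (nat_lit 6375017), (nat_lit 6550510), (nat_lit 6726488), (nat_lit 6902525), (nat_lit 7078274), (nat_lit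
 7253452)]) (FT.cons (FT.leaf [(nat_lit 6169328), (nat_lit 6341491), (nat_lit 6515113), (nat_lit 6689574), (nat_lit 6864383), (nat_lit 7039139), (nat_lit 7213519)]) (FT.cons (FT.leaf [(nat_lit 6481339), (nat_lit 6654021), (nat_lit 6827391), (nat_lit 7000985), (nat_lit 7174429)]) (FT.cons (FT.leaf [(nat_lit 6791716), (nat_lit 6963944), (nat_lit 7136287), (nat_lit 7308391)]) (FT.cons (FT.leaf [(nat_lit 7099222), (nat_lit 7270281)]) (FT.cons (FT.leaf [(nat_lit 7402966)]) (FT.cons (FT.leaf [(nat_lit 7702322)]) FT.nil)))))))) (FT.cons (FT.cons (FT.leaf [(nat_lit 6054854), (nat_lit 6223514), (nat_lit 6394483), (nat_lit 6566959), (nat_lit 6740316), (nat_lit 6914056), (nat_lit 7087779), (nat_lit 7261157)]) (FT.cons (FT.leaf [(nat_lit 6363257), (nat_lit 6533500), (nat_lit 6705062), (nat_lit 6877350), (nat_lit 7049899), (nat_lit 7222330), (nat_lit 7394340)]) (FT.cons (FT.leaf [(nat_lit 6671388), (nat_lit 6841968), (nat_lit 7013138),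 (nat_lit 7184457), (nat_lit 7355571)]) (FT.cons (FT.leaf [(nat_lit 6977658), (nat_lit 7147666), (nat_lit 7317725), (nat_lit 7487500)]) (FT.cons (FT.leaf [(nat_lit 7280927), (nat_lit 7449701)]) (FT.cons (FT.leaf [(nat_lit 7580383)]) FT.nil)))))) (FT.cons (FT.cons
 (FT.leaf [(nat_lit 6554165), (nat_lit 6722461), (nat_lit 6891950), (nat_lit 7062069), (nat_lit 7232372)]) (FT.cons (FT.leaf [(nat_lit 6858399), (nat_lit 7026874), (nat_lit 7195854), (nat_lit 7364920)]) (FT.cons (FT.leaf [(nat_lit 7160583), (nat_lit 7328389)]) (FT.cons (FT.leaf [(nat_lit 7459668)]) (FT.cons (FT.leaf [(nat_lit 7754906)]) FT.nil))))) (FT.cons (FT.cons (FT.leaf [(nat_lit 7042421), (nat_lit 7208797), (nat_lit 7375604)]) (FT.cons (FT.leaf [(nat_lit 7340554), (nat_lit 7506179)]) (FT.cons (FT.leaf [(nat_lit 7635512)]) FT.nil))) (FT.cons (FT.cons (FT.leaf [(nat_lit 7517634)]) (FT.cons (FT.leaf [(nat_lit 7808531)]) FT.nil)) (FT.cons (FT.cons (FT.leaf [(nat_lit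 7978792)]) FT.nil) FT.nil))))))) (FT.cons (FT.cons (FT.cons (FT.leaf [(nat_lit 5886450), (nat_lit 6049158), (nat_lit 6215580), (nat_lit 6384601), (nat_lit 6555376), (nat_lit 6727245), (nat_lit 6899679), (nat_lit 7072256), (nat_lit 7244627), (nat_lit 7416511)]) (FT.cons (FT.leaf [(nat_lit 6188132), (nat_lit 6354234), (nat_lit 6522677), (nat_lit 6692664), (nat_lit 6863573), (nat_lit 7034910), (nat_lit 7206278), (nat_lit 7377353), (nat_lit 7547868)]) (FT.cons (FT.leaf [(nat_lit 6491938), (nat_lit 6659703), (nat_lit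
 6828823), (nat_lit 6998713), (nat_lit 7168908), (nat_lit 7339035), (nat_lit 7508789)]) (FT.cons (FT.leaf [(nat_lit 6795641), (nat_lit 6963828), (nat_lit 7132648), (nat_lit 7301663), (nat_lit 7470521)]) (FT.cons (FT.leaf [(nat_lit 7097658), (nat_lit 7265365), (nat_lit 7433168), (nat_lit 7600735)]) (FT.cons (FT.leaf [(nat_lit 7396855), (nat_lit 7563420)]) (FT.cons (FT.leaf [(nat_lit 7692420)]) FT.nil))))))) (FT.cons (FT.cons (FT.leaf [(nat_lit 6379729), (nat_lit 6544192), (nat_lit 6710819), (nat_lit 6878848), (nat_lit 7047687), (nat_lit 7216869), (nat_lit 7386016), (nat_lit 7554820)]) (FT.cons (FT.leaf [(nat_lit 6680081), (nat_lit 6845970), (nat_lit 7013090), (nat_lit 7180883), (nat_lit 7348907), (nat_lit 7516806), (nat_lit 7684293)]) (FT.cons (FT.leaf [(nat_lit 6980021), (nat_lit 7146175), (nat_lit 7312877), (nat_lit 7479710), (nat_lit 7646339)]) (FT.cons (FT.leaf [(nat_lit 7278085), (nat_lit 7443660), (nat_lit 7609277),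 (nat_lit 7774619)]) (FT.cons (FT.leaf [(nat_lit 7573227), (nat_lit 7737607)]) (FT.cons (FT.leaf [(nat_lit 7864701)]) FT.nil)))))) (FT.cons (FT.cons (FT.leaf [(nat_lit 6865327), (nat_lit 7029323), (nat_lit 7194440), (nat_lit 7360144), (nat_lit 7526015)]) (FT.cons
 (FT.leaf [(nat_lit 7161501), (nat_lit 7325626), (nat_lit 7490226), (nat_lit 7654901)]) (FT.cons (FT.leaf [(nat_lit 7455643), (nat_lit 7619108)]) (FT.cons (FT.leaf [(nat_lit 7746786)]) (FT.cons (FT.leaf [(nat_lit 8034240)]) FT.nil))))) (FT.cons (FT.cons (FT.leaf [(nat_lit 7340133), (nat_lit 7502241), (nat_lit 7664758)]) (FT.cons (FT.leaf [(nat_lit 7630394), (nat_lit 7791772)]) (FT.cons (FT.leaf [(nat_lit 7917598)]) FT.nil))) (FT.cons (FT.cons (FT.leaf [(nat_lit 7802400)]) (FT.cons (FT.leaf [(nat_lit 8085728)]) FT.nil)) (FT.cons (FT.cons (FT.leaf [(nat_lit 8251244)]) FT.nil) FT.nil)))))) (FT.cons (FT.cons (FT.cons (FT.leaf [(nat_lit 6694073), (nat_lit 6854494), (nat_lit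 7016959), (nat_lit 7180738), (nat_lit 7345272), (nat_lit 7510116)]) (FT.cons (FT.leaf [(nat_lit 6986706), (nat_lit 7148430), (nat_lit 7311314), (nat_lit 7474826), (nat_lit 7638546)]) (FT.cons (FT.leaf [(nat_lit 7278833), (nat_lit 7440770), (nat_lit 7603223), (nat_lit 7765794)]) (FT.cons (FT.leaf [(nat_lit 7569096), (nat_lit 7730457)]) (FT.cons (FT.leaf [(nat_lit 7856526)]) (FT.cons (FT.leaf [(nat_lit 8140434)]) FT.nil)))))) (FT.cons (FT.cons (FT.leaf [(nat_lit 7166584), (nat_lit 7326474), (nat_lit 7487426), (nat_lit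
 7648930), (nat_lit 7810587)]) (FT.cons (FT.leaf [(nat_lit 7455081), (nat_lit 7615067), (nat_lit 7775502), (nat_lit 7936007)]) (FT.cons (FT.leaf [(nat_lit 7741583), (nat_lit 7900923)]) (FT.cons (FT.leaf [(nat_lit 8025192)]) (FT.cons (FT.leaf [(nat_lit 8305266)]) FT.nil))))) (FT.cons (FT.cons (FT.leaf [(nat_lit 7628617), (nat_lit 7786665), (nat_lit 7945104)]) (FT.cons (FT.leaf [(nat_lit 7911402), (nat_lit 8068745)]) (FT.cons (FT.leaf [(nat_lit 8191249)]) FT.nil))) (FT.cons (FT.cons (FT.leaf [(nat_lit 8078613)]) (FT.cons (FT.leaf [(nat_lit 8354761)]) FT.nil)) (FT.cons (FT.cons (FT.leaf [(nat_lit 8515790)]) FT.nil) FT.nil))))) (FT.cons (FT.cons (FT.cons (FT.leaf [(nat_lit 7458514), (nat_lit 7614485), (nat_lit 7771468), (nat_lit 7928975)]) (FT.cons (FT.leaf [(nat_lit 7739699), (nat_lit 7895744), (nat_lit 8052218)]) (FT.cons (FT.leaf [(nat_lit 8018940)]) FT.nil))) (FT.cons (FT.cons (FT.leaf [(nat_lit 7908412), (nat_lit 8062597)])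 (FT.cons (FT.leaf [(nat_lit 8184094)]) FT.nil)) (FT.cons (FT.cons (FT.leaf [(nat_lit 8346768)]) FT.nil) FT.nil))) (FT.cons (FT.cons (FT.cons (FT.leaf [(nat_lit 8180018)]) FT.nil) (FT.cons (FT.cons (FT.leaf [(nat_lit 8607323)]) FT.nil) FT.nil)) (FT.cons (FT.cons
 (FT.cons (FT.leaf [(nat_lit 8860697)]) FT.nil) FT.nil) (FT.cons (FT.cons (FT.cons (FT.leaf [(nat_lit 9503400)]) FT.nil) FT.nil) (FT.cons (FT.cons (FT.cons (FT.leaf [(nat_lit 10111155)]) FT.nil) FT.nil) (FT.cons (FT.cons (FT.cons (FT.leaf [(nat_lit 10686906)]) FT.nil) FT.nil) FT.nil))))))))) (FT.cons (FT.cons (FT.cons (FT.cons (FT.leaf [(nat_lit 6778067), (nat_lit 6926218), (nat_lit 7077864), (nat_lit 7232015), (nat_lit 7387919), (nat_lit 7544989), (nat_lit 7702755), (nat_lit 7860839), (nat_lit 8018927), (nat_lit 8176767)]) (FT.cons (FT.leaf [(nat_lit 7052451), (nat_lit 7203937), (nat_lit 7357701), (nat_lit 7513036), (nat_lit 7669386), (nat_lit 7826310), (nat_lit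 7983452), (nat_lit 8140517), (nat_lit 8297267)]) (FT.cons (FT.leaf [(nat_lit 7329272), (nat_lit 7482564), (nat_lit 7637260), (nat_lit 7792836), (nat_lit 7948876), (nat_lit 8105043), (nat_lit 8261061)]) (FT.cons (FT.leaf [(nat_lit 7606569), (nat_lit 7760566), (nat_lit 7915321), (nat_lit 8070441), (nat_lit 8225606)]) (FT.cons (FT.leaf [(nat_lit 7882934), (nat_lit 8036828), (nat_lit 8190996), (nat_lit 8345136)]) (FT.cons (FT.leaf [(nat_lit 8157345), (nat_lit 8310535)]) (FT.cons (FT.leaf [(nat_lit 8429055)]) FT.nil)))))))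
 (FT.cons (FT.cons (FT.leaf [(nat_lit 7226135), (nat_lit 7376348), (nat_lit 7528688), (nat_lit 7682474), (nat_lit 7837175), (nat_lit 7992369), (nat_lit 8147718), (nat_lit 8302945)]) (FT.cons (FT.leaf [(nat_lit 7500234), (nat_lit 7652047), (nat_lit 7805153), (nat_lit 7959051), (nat_lit 8113343), (nat_lit 8267707), (nat_lit 8421882)]) (FT.cons (FT.leaf [(nat_lit 7774533), (nat_lit 7926907), (nat_lit 8079962), (nat_lit 8233318), (nat_lit 8386675)]) (FT.cons (FT.leaf [(nat_lit 8047719), (nat_lit 8199895), (nat_lit 8352290), (nat_lit 8504619)]) (FT.cons (FT.leaf [(nat_lit 8318842), (nat_lit 8470255)]) (FT.cons (FT.leaf [(nat_lit 8587210)]) FT.nil)))))) (FT.cons (FT.cons (FT.leaf [(nat_lit 7668863), (nat_lit 7819174), (nat_lit 7970680), (nat_lit 8122898), (nat_lit 8275449)]) (FT.cons (FT.leaf [(nat_lit 7940147), (nat_lit 8090894), (nat_lit 8242252), (nat_lit 8393858)]) (FT.cons (FT.leaf [(nat_lit 8210165), (nat_lit 8360632)])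 (FT.cons (FT.leaf [(nat_lit 8478032)]) (FT.cons (FT.leaf [(nat_lit 8743102)]) FT.nil))))) (FT.cons (FT.cons (FT.leaf [(nat_lit 8103444), (nat_lit 8252565), (nat_lit 8402235)]) (FT.cons (FT.leaf [(nat_lit 8370314), (nat_lit 8519083)]) (FT.cons (FT.leaf [(nat_lit
 8634960)]) FT.nil))) (FT.cons (FT.cons (FT.leaf [(nat_lit 8528208)]) (FT.cons (FT.leaf [(nat_lit 8789673)]) FT.nil)) (FT.cons (FT.cons (FT.leaf [(nat_lit 8942217)]) FT.nil) FT.nil)))))) (FT.cons (FT.cons (FT.cons (FT.leaf [(nat_lit 7510496), (nat_lit 7657469), (nat_lit 7806458), (nat_lit 7956808), (nat_lit 8108015), (nat_lit 8259678)]) (FT.cons (FT.leaf [(nat_lit 7778387), (nat_lit 7926837), (nat_lit 8076509), (nat_lit 8226923), (nat_lit 8377702)]) (FT.cons (FT.leaf [(nat_lit 8046360), (nat_lit 8195308), (nat_lit 8344895), (nat_lit 8494762)]) (FT.cons (FT.leaf [(nat_lit 8313192), (nat_lit 8461920)]) (FT.cons (FT.leaf [(nat_lit 8577994)]) (FT.cons (FT.leaf [(nat_lit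 8840123)]) FT.nil)))))) (FT.cons (FT.cons (FT.leaf [(nat_lit 7942670), (nat_lit 8089652), (nat_lit 8237768), (nat_lit 8386557), (nat_lit 8535655)]) (FT.cons (FT.leaf [(nat_lit 8207715), (nat_lit 8355084), (nat_lit 8503031), (nat_lit 8651210)]) (FT.cons (FT.leaf [(nat_lit 8471486), (nat_lit 8618565)]) (FT.cons (FT.leaf [(nat_lit 8733154)]) (FT.cons (FT.leaf [(nat_lit 8992116)]) FT.nil))))) (FT.cons (FT.cons (FT.leaf [(nat_lit 8366847), (nat_lit 8512642), (nat_lit 8658960)]) (FT.cons (FT.leaf [(nat_lit 8627581), (nat_lit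
 8773024)]) (FT.cons (FT.leaf [(nat_lit 8886152)]) FT.nil))) (FT.cons (FT.cons (FT.leaf [(nat_lit 8781519)]) (FT.cons (FT.leaf [(nat_lit 9037033)]) FT.nil)) (FT.cons (FT.cons (FT.leaf [(nat_lit 9185843)]) FT.nil) FT.nil))))) (FT.cons (FT.cons (FT.cons (FT.leaf [(nat_lit 8208905), (nat_lit 8352688), (nat_lit 8497551), (nat_lit 8643053)]) (FT.cons (FT.leaf [(nat_lit 8467967), (nat_lit 8612097), (nat_lit 8756778)]) (FT.cons (FT.leaf [(nat_lit 8725758)]) FT.nil))) (FT.cons (FT.cons (FT.leaf [(nat_lit 8623130), (nat_lit 8765739)]) (FT.cons (FT.leaf [(nat_lit 8877994)]) FT.nil)) (FT.cons (FT.cons (FT.leaf [(nat_lit 9028165)]) FT.nil) FT.nil))) (FT.cons (FT.cons (FT.cons (FT.leaf [(nat_lit 8872656)]) FT.nil) (FT.cons (FT.cons (FT.leaf [(nat_lit 9268483)]) FT.nil) FT.nil)) (FT.cons (FT.cons (FT.cons (FT.leaf [(nat_lit 9502786)]) FT.nil) FT.nil) (FT.cons (FT.cons (FT.cons (FT.leaf [(nat_lit 10101107)]) FT.nil) FT.nil) (FT.cons (FT.cons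 (FT.cons (FT.leaf [(nat_lit 10669725)]) FT.nil) FT.nil) (FT.cons (FT.cons (FT.cons (FT.leaf [(nat_lit 11210798)]) FT.nil) FT.nil) FT.nil)))))))) (FT.cons (FT.cons (FT.cons (FT.cons (FT.leaf [(nat_lit 8247945), (nat_lit 8383994), (nat_lit 8522003), (nat_lit
 8661379), (nat_lit 8801660), (nat_lit 8942483)]) (FT.cons (FT.leaf [(nat_lit 8495725), (nat_lit 8633331), (nat_lit 8772177), (nat_lit 8911828), (nat_lit 9051936)]) (FT.cons (FT.leaf [(nat_lit 8743955), (nat_lit 8882231), (nat_lit 9021216), (nat_lit 9160583)]) (FT.cons (FT.leaf [(nat_lit 8991524), (nat_lit 9129816)]) FT.nil)))) (FT.cons (FT.cons (FT.leaf [(nat_lit 8647305), (nat_lit 8783704), (nat_lit 8921264), (nat_lit 9059563), (nat_lit 9198266)]) (FT.cons (FT.leaf [(nat_lit 8893108), (nat_lit 9030074), (nat_lit 9167693), (nat_lit 9305646)]) (FT.cons (FT.leaf [(nat_lit 9138123), (nat_lit 9275036)]) FT.nil))) (FT.cons (FT.cons (FT.leaf [(nat_lit 9040396), (nat_lit 9176052)])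 (FT.cons (FT.leaf [(nat_lit 9282869)]) FT.nil)) (FT.cons (FT.cons (FT.leaf [(nat_lit 9425792)]) FT.nil) FT.nil)))) (FT.cons (FT.cons (FT.cons (FT.leaf [(nat_lit 8892572), (nat_lit 9026294), (nat_lit 9161123), (nat_lit 9296655)]) (FT.cons (FT.leaf [(nat_lit 9133358), (nat_lit 9267600), (nat_lit 9402464)]) (FT.cons (FT.leaf [(nat_lit 9373337)]) FT.nil))) (FT.cons (FT.cons (FT.leaf [(nat_lit 9277305), (nat_lit 9410273)]) (FT.cons (FT.leaf [(nat_lit 9514819)]) FT.nil)) (FT.cons (FT.cons (FT.leaf [(nat_lit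
 9654549)]) FT.nil) FT.nil))) (FT.cons (FT.cons (FT.cons (FT.leaf [(nat_lit 9508516)]) FT.nil) (FT.cons (FT.cons (FT.leaf [(nat_lit 9877933)]) FT.nil) FT.nil)) (FT.cons (FT.cons (FT.cons (FT.leaf [(nat_lit 10096187)]) FT.nil) FT.nil) (FT.cons (FT.cons (FT.cons (FT.leaf [(nat_lit 10656735)]) FT.nil) FT.nil) (FT.cons (FT.cons (FT.cons (FT.leaf [(nat_lit 11191655)]) FT.nil) FT.nil) FT.nil)))))) (FT.cons (FT.cons (FT.cons (FT.cons (FT.leaf [(nat_lit 9521488), (nat_lit 9646724), (nat_lit 9773072)]) (FT.cons (FT.leaf [(nat_lit 9746854), (nat_lit 9872723)]) (FT.cons (FT.leaf [(nat_lit 9971741)]) FT.nil))) (FT.cons (FT.cons (FT.leaf [(nat_lit 9881326)]) (FT.cons (FT.leaf [(nat_lit 10104101)]) FT.nil)) (FT.cons (FT.cons (FT.leaf [(nat_lit 10234948)]) FT.nil) FT.nil))) (FT.cons (FT.cons (FT.cons (FT.leaf [(nat_lit 10097050)]) FT.nil) (FT.cons (FT.cons (FT.leaf [(nat_lit 10443911)]) FT.nil) FT.nil)) (FT.cons (FT.cons (FT.cons (FT.leaf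 [(nat_lit 10648433)]) FT.nil) FT.nil) (FT.cons (FT.cons (FT.cons (FT.leaf [(nat_lit 11176356)]) FT.nil) FT.nil) FT.nil)))) (FT.cons (FT.cons (FT.cons (FT.cons (FT.leaf [(nat_lit 10645433)]) FT.nil) FT.nil) (FT.cons (FT.cons (FT.cons (FT.leaf [(nat_lit
 11165364)]) FT.nil) FT.nil) FT.nil)) (FT.cons (FT.cons (FT.cons (FT.cons (FT.leaf [(nat_lit 11651605)]) FT.nil) FT.nil) FT.nil) (FT.cons (FT.cons (FT.cons (FT.cons (FT.leaf [(nat_lit 12562621)]) FT.nil) FT.nil) FT.nil) FT.nil))))))))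

def f144_1_600 : FT := (FT.cons (FT.cons (FT.cons (FT.cons (FT.leaf [(nat_lit 3570892), (nat_lit 3733037), (nat_lit 3906882), (nat_lit 4089334), (nat_lit 4278154), (nat_lit 4471640), (nat_lit 4668461), (nat_lit 4867550), (nat_lit 5068048), (nat_lit 5269250), (nat_lit 5470582)]) (FT.cons (FT.leaf [(nat_lit 3891199), (nat_lit 4067143), (nat_lit 4250864), (nat_lit 4440279), (nat_lit 4633811), (nat_lit 4830227), (nat_lit 5028546), (nat_lit 5227974), (nat_lit 5427865), (nat_lit 5627692)]) (FT.cons (FT.leaf [(nat_lit 4227432), (nat_lit 4412009), (nat_lit 4601691), (nat_lit 4795006), (nat_lit 4990810), (nat_lit 5188194), (nat_lit 5386425), (nat_lit 5584909), (nat_lit 5783158)]) (FT.cons (FT.leaf [(nat_lit 4572560), (nat_lit 4762225), (nat_lit 4955100), (nat_lit 5150115), (nat_lit 5346426), (nat_lit 5543353), (nat_lit 5740348)]) (FT.cons (FT.leaf [(nat_lit 4921748), (nat_lit 5113988), (nat_lit 5308063), (nat_lit 5503184), (nat_lit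 5698719)]) (FT.cons (FT.leaf [(nat_lit 5271584), (nat_lit 5464593), (nat_lit 5658425), (nat_lit 5852493)]) (FT.cons (FT.leaf [(nat_lit 5619654), (nat_lit 5812114)]) (FT.cons (FT.leaf [(nat_lit 5964229)]) (FT.cons (FT.leaf [(nat_lit 6304098)]) FT.nil))))))))) (FT.cons (FT.cons (FT.leaf
 [(nat_lit 4120257), (nat_lit 4295956), (nat_lit 4478833), (nat_lit 4666899), (nat_lit 4858664), (nat_lit 5052970), (nat_lit 5248902), (nat_lit 5445723), (nat_lit 5642836), (nat_lit 5839753)]) (FT.cons (FT.leaf [(nat_lit 4454802), (nat_lit 4638221), (nat_lit 4826303), (nat_lit 5017654), (nat_lit 5211198), (nat_lit 5406083), (nat_lit 5601628), (nat_lit 5797280), (nat_lit 5992589)]) (FT.cons (FT.leaf [(nat_lit 4796852), (nat_lit 4984709), (nat_lit 5175457), (nat_lit 5368089), (nat_lit 5561812), (nat_lit 5755991), (nat_lit 5950116)]) (FT.cons (FT.leaf [(nat_lit 5142004), (nat_lit 5331988), (nat_lit 5523581), (nat_lit 5716043), (nat_lit 5908785)])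 (FT.cons (FT.leaf [(nat_lit 5487178), (nat_lit 5677625), (nat_lit 5868746), (nat_lit 6059989)]) (FT.cons (FT.leaf [(nat_lit 5830184), (nat_lit 6019895)]) (FT.cons (FT.leaf [(nat_lit 6169474)]) (FT.cons (FT.leaf [(nat_lit 6503961)]) FT.nil)))))))) (FT.cons (FT.cons (FT.leaf [(nat_lit 4678949), (nat_lit 4860975), (nat_lit 5047278), (nat_lit 5236536), (nat_lit 5427731), (nat_lit 5620066)]) (FT.cons (FT.leaf [(nat_lit 5017576), (nat_lit 5203485), (nat_lit 5392009), (nat_lit 5582195), (nat_lit 5773298)]) (FT.cons (FT.leaf [(nat_lit 5358510),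
 (nat_lit 5546162), (nat_lit 5735233), (nat_lit 5925023)]) (FT.cons (FT.leaf [(nat_lit 5698942), (nat_lit 5886806)]) (FT.cons (FT.leaf [(nat_lit 6036888)]) (FT.cons (FT.leaf [(nat_lit 6370948)]) FT.nil)))))) (FT.cons (FT.cons (FT.leaf [(nat_lit 5234695), (nat_lit 5418550), (nat_lit 5604779), (nat_lit 5792481), (nat_lit 5980951)]) (FT.cons (FT.leaf [(nat_lit 5571279), (nat_lit 5756552), (nat_lit 5943079), (nat_lit 6130199)]) (FT.cons (FT.leaf [(nat_lit 5906930), (nat_lit 6092206)]) (FT.cons (FT.leaf [(nat_lit 6239842)]) (FT.cons (FT.leaf [(nat_lit 6568745)]) FT.nil))))) (FT.cons (FT.cons (FT.leaf [(nat_lit 5780345), (nat_lit 5963212), (nat_lit 6147190)]) (FT.cons (FT.leaf [(nat_lit 6111209), (nat_lit 6293903)]) (FT.cons (FT.leaf [(nat_lit 6439133)]) FT.nil))) (FT.cons (FT.cons (FT.leaf [(nat_lit 6311850)]) (FT.cons (FT.leaf [(nat_lit 6634848)]) FT.nil)) (FT.cons (FT.cons (FT.leaf [(nat_lit 6827076)]) FT.nil) FT.nil)))))))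 (FT.cons (FT.cons (FT.cons (FT.leaf [(nat_lit 4510832), (nat_lit 4682564), (nat_lit 4860958), (nat_lit 5044123), (nat_lit 5230656), (nat_lit 5419477), (nat_lit 5609738), (nat_lit 5800758), (nat_lit 5991990), (nat_lit 6182985)]) (FT.cons (FT.leaf [(nat_lit 4836963),
 (nat_lit 5015693), (nat_lit 5198723), (nat_lit 5384742), (nat_lit 5572742), (nat_lit 5761932), (nat_lit 5951682), (nat_lit 6141483), (nat_lit 6330921)]) (FT.cons (FT.leaf [(nat_lit 5169593), (nat_lit 5352286), (nat_lit 5537631), (nat_lit 5724685), (nat_lit 5912709), (nat_lit 6101117), (nat_lit 6289434)]) (FT.cons (FT.leaf [(nat_lit 5504721), (nat_lit 5689256), (nat_lit 5875258), (nat_lit 6062037), (nat_lit 6249042)]) (FT.cons (FT.leaf [(nat_lit 5839564), (nat_lit 6024426), (nat_lit 6209891), (nat_lit 6395444)]) (FT.cons (FT.leaf [(nat_lit 6172159), (nat_lit 6356253)]) (FT.cons (FT.leaf [(nat_lit 6501115)]) FT.nil))))))) (FT.cons (FT.cons (FT.leaf [(nat_lit 5053882),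 (nat_lit 5231119), (nat_lit 5412326), (nat_lit 5596251), (nat_lit 5781942), (nat_lit 5968653), (nat_lit 6155791), (nat_lit 6342880)]) (FT.cons (FT.leaf [(nat_lit 5382998), (nat_lit 5563730), (nat_lit 5746878), (nat_lit 5931548), (nat_lit 6117041), (nat_lit 6302806), (nat_lit 6488394)]) (FT.cons (FT.leaf [(nat_lit 5713955), (nat_lit 5896210), (nat_lit 6079769), (nat_lit 6263978), (nat_lit 6448317)]) (FT.cons (FT.leaf [(nat_lit 6044203), (nat_lit 6226576), (nat_lit 6409444), (nat_lit 6592320)]) (FT.cons (FT.leaf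
 [(nat_lit 6371949), (nat_lit 6553430)]) (FT.cons (FT.leaf [(nat_lit 6695928)]) FT.nil)))))) (FT.cons (FT.cons (FT.leaf [(nat_lit 5592913), (nat_lit 5771609), (nat_lit 5952515), (nat_lit 6134780), (nat_lit 6317741)]) (FT.cons (FT.leaf [(nat_lit 5919615), (nat_lit 6099561), (nat_lit 6280670), (nat_lit 6462320)]) (FT.cons (FT.leaf [(nat_lit 6245258), (nat_lit 6425147)]) (FT.cons (FT.leaf [(nat_lit 6568196)]) (FT.cons (FT.leaf [(nat_lit 6887275)]) FT.nil))))) (FT.cons (FT.cons (FT.leaf [(nat_lit 6121749), (nat_lit 6299372), (nat_lit 6478036)]) (FT.cons (FT.leaf [(nat_lit 6442798), (nat_lit 6620219)]) (FT.cons (FT.leaf [(nat_lit 6760985)]) FT.nil))) (FT.cons (FT.cons (FT.leaf [(nat_lit 6636899)]) (FT.cons (FT.leaf [(nat_lit 6950399)]) FT.nil)) (FT.cons (FT.cons (FT.leaf [(nat_lit 7136527)]) FT.nil) FT.nil)))))) (FT.cons (FT.cons (FT.cons (FT.leaf [(nat_lit 5415101), (nat_lit 5587681), (nat_lit 5763973), (nat_lit 5942787), (nat_lit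 6123228), (nat_lit 6304597)]) (FT.cons (FT.leaf [(nat_lit 5735037), (nat_lit 5910801), (nat_lit 6088816), (nat_lit 6268239), (nat_lit 6448415)]) (FT.cons (FT.leaf [(nat_lit 6056467), (nat_lit 6233583), (nat_lit 6411912), (nat_lit 6590839)]) (FT.cons (FT.leaf
 [(nat_lit 6377054), (nat_lit 6554225)]) (FT.cons (FT.leaf [(nat_lit 6695163)]) (FT.cons (FT.leaf [(nat_lit 7009641)]) FT.nil)))))) (FT.cons (FT.cons (FT.leaf [(nat_lit 5938131), (nat_lit 6111897), (nat_lit 6287736), (nat_lit 6464841), (nat_lit 6642590)]) (FT.cons (FT.leaf [(nat_lit 6255429), (nat_lit 6430315), (nat_lit 6606293), (nat_lit 6782773)]) (FT.cons (FT.leaf [(nat_lit 6571594), (nat_lit 6746389)]) (FT.cons (FT.leaf [(nat_lit 6885119)]) (FT.cons (FT.leaf [(nat_lit 7194945)]) FT.nil))))) (FT.cons (FT.cons (FT.leaf [(nat_lit 6451038), (nat_lit 6623692), (nat_lit 6797328)]) (FT.cons (FT.leaf [(nat_lit 6762808), (nat_lit 6935245)]) (FT.cons (FT.leaf [(nat_lit 7071809)])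 FT.nil))) (FT.cons (FT.cons (FT.leaf [(nat_lit 6950768)]) (FT.cons (FT.leaf [(nat_lit 7255315)]) FT.nil)) (FT.cons (FT.cons (FT.leaf [(nat_lit 7435719)]) FT.nil) FT.nil))))) (FT.cons (FT.cons (FT.cons (FT.leaf [(nat_lit 6271175), (nat_lit 6440240), (nat_lit 6611263), (nat_lit 6783477)]) (FT.cons (FT.leaf [(nat_lit 6579536), (nat_lit 6749623), (nat_lit 6920741)]) (FT.cons (FT.leaf [(nat_lit 6886732)]) FT.nil))) (FT.cons (FT.cons (FT.leaf [(nat_lit 6769005), (nat_lit 6936950)]) (FT.cons (FT.leaf [(nat_lit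
 7072001)]) FT.nil)) (FT.cons (FT.cons (FT.leaf [(nat_lit 7254191)]) FT.nil) FT.nil))) (FT.cons (FT.cons (FT.cons (FT.leaf [(nat_lit 7076381)]) FT.nil) (FT.cons (FT.cons (FT.leaf [(nat_lit 7547836)]) FT.nil) FT.nil)) (FT.cons (FT.cons (FT.cons (FT.leaf [(nat_lit 7832317)]) FT.nil) FT.nil) (FT.cons (FT.cons (FT.cons (FT.leaf [(nat_lit 8542271)]) FT.nil) FT.nil) (FT.cons (FT.cons (FT.cons (FT.leaf [(nat_lit 9210067)]) FT.nil) FT.nil) (FT.cons (FT.cons (FT.cons (FT.leaf [(nat_lit 9839499)]) FT.nil) FT.nil) FT.nil))))))))) (FT.cons (FT.cons (FT.cons (FT.cons (FT.leaf [(nat_lit 5559352), (nat_lit 5713232), (nat_lit 5873173), (nat_lit 6037528), (nat_lit 6205076), (nat_lit 6374882), (nat_lit 6546210), (nat_lit 6718469), (nat_lit 6891180), (nat_lit 7063952)]) (FT.cons (FT.leaf [(nat_lit 5851112), (nat_lit 6011495), (nat_lit 6175895), (nat_lit 6343169), (nat_lit 6512441), (nat_lit 6683023), (nat_lit 6854364), (nat_lit 7026017),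 (nat_lit 7197615)]) (FT.cons (FT.leaf [(nat_lit 6149228), (nat_lit 6313505), (nat_lit 6480372), (nat_lit 6649004), (nat_lit 6818756), (nat_lit 6989114), (nat_lit 7159657)]) (FT.cons (FT.leaf [(nat_lit 6450283), (nat_lit 6616626), (nat_lit 6784526), (nat_lit 6953378),
 (nat_lit 7122696)]) (FT.cons (FT.leaf [(nat_lit 6751885), (nat_lit 6918974), (nat_lit 7086863), (nat_lit 7255095)]) (FT.cons (FT.leaf [(nat_lit 7052319), (nat_lit 7219193)]) (FT.cons (FT.leaf [(nat_lit 7350353)]) FT.nil))))))) (FT.cons (FT.cons (FT.leaf [(nat_lit 6044268), (nat_lit 6203592), (nat_lit 6366657), (nat_lit 6532372), (nat_lit 6699901), (nat_lit 6868591), (nat_lit 7037922), (nat_lit 7207472)]) (FT.cons (FT.leaf [(nat_lit 6339790), (nat_lit 6502617), (nat_lit 6667833), (nat_lit 6834654), (nat_lit 7002465), (nat_lit 7170778), (nat_lit 7339197)]) (FT.cons (FT.leaf [(nat_lit 6637697), (nat_lit 6802314), (nat_lit 6968347), (nat_lit 7135218), (nat_lit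 7302465)]) (FT.cons (FT.leaf [(nat_lit 6935776), (nat_lit 7100954), (nat_lit 7266830), (nat_lit 7432972)]) (FT.cons (FT.leaf [(nat_lit 7232450), (nat_lit 7397288)]) (FT.cons (FT.leaf [(nat_lit 7526580)]) FT.nil)))))) (FT.cons (FT.cons (FT.leaf [(nat_lit 6527658), (nat_lit 6688965), (nat_lit 6852484), (nat_lit 7017465), (nat_lit 7183322)]) (FT.cons (FT.leaf [(nat_lit 6822332), (nat_lit 6985190), (nat_lit 7149338), (nat_lit 7314223)]) (FT.cons (FT.leaf [(nat_lit 7116860), (nat_lit 7280116)]) (FT.cons (FT.leaf [(nat_lit 7409783)])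
 (FT.cons (FT.leaf [(nat_lit 7700049)]) FT.nil))))) (FT.cons (FT.cons (FT.leaf [(nat_lit 7004211), (nat_lit 7165288), (nat_lit 7327542)]) (FT.cons (FT.leaf [(nat_lit 7295177), (nat_lit 7456511)]) (FT.cons (FT.leaf [(nat_lit 7584370)]) FT.nil))) (FT.cons (FT.cons (FT.leaf [(nat_lit 7470772)]) (FT.cons (FT.leaf [(nat_lit 7756267)]) FT.nil)) (FT.cons (FT.cons (FT.leaf [(nat_lit 7925531)]) FT.nil) FT.nil)))))) (FT.cons (FT.cons (FT.cons (FT.leaf [(nat_lit 6364999), (nat_lit 6520754), (nat_lit 6680033), (nat_lit 6841791), (nat_lit 7005236), (nat_lit 7169750)]) (FT.cons (FT.leaf [(nat_lit 6653451), (nat_lit 6812437), (nat_lit 6973665), (nat_lit 7136389), (nat_lit 7300027)]) (FT.cons (FT.leaf [(nat_lit 6943962), (nat_lit 7104572), (nat_lit 7266507), (nat_lit 7429217)]) (FT.cons (FT.leaf [(nat_lit 7234482), (nat_lit 7395567)]) (FT.cons (FT.leaf [(nat_lit 7523552)]) (FT.cons (FT.leaf [(nat_lit 7810127)]) FT.nil)))))) (FT.cons (FT.cons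 (FT.leaf [(nat_lit 6836015), (nat_lit 6993491), (nat_lit 7153053), (nat_lit 7313984), (nat_lit 7475730)]) (FT.cons (FT.leaf [(nat_lit 7123353), (nat_lit 7282245), (nat_lit 7442350), (nat_lit 7603143)]) (FT.cons (FT.leaf [(nat_lit 7410427), (nat_lit 7569655)])
 (FT.cons (FT.leaf [(nat_lit 7695885)]) (FT.cons (FT.leaf [(nat_lit 7978755)]) FT.nil))))) (FT.cons (FT.cons (FT.leaf [(nat_lit 7300099), (nat_lit 7457258), (nat_lit 7615532)]) (FT.cons (FT.leaf [(nat_lit 7583729), (nat_lit 7741103)]) (FT.cons (FT.leaf [(nat_lit 7865603)]) FT.nil))) (FT.cons (FT.cons (FT.leaf [(nat_lit 7754433)]) (FT.cons (FT.leaf [(nat_lit 8032758)]) FT.nil)) (FT.cons (FT.cons (FT.leaf [(nat_lit 8197407)]) FT.nil) FT.nil))))) (FT.cons (FT.cons (FT.cons (FT.leaf [(nat_lit 7134870), (nat_lit 7288657), (nat_lit 7444421), (nat_lit 7601477), (nat_lit 7759297)]) (FT.cons (FT.leaf [(nat_lit 7415169), (nat_lit 7570263), (nat_lit 7726504), (nat_lit 7883393)])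 (FT.cons (FT.leaf [(nat_lit 7695124), (nat_lit 7850505)]) (FT.cons (FT.leaf [(nat_lit 7973470)]) FT.nil)))) (FT.cons (FT.cons (FT.leaf [(nat_lit 7587040), (nat_lit 7740454), (nat_lit 7894926)]) (FT.cons (FT.leaf [(nat_lit 7863671), (nat_lit 8017266)]) (FT.cons (FT.leaf [(nat_lit 8138575)]) FT.nil))) (FT.cons (FT.cons (FT.leaf [(nat_lit 8029738)]) (FT.cons (FT.leaf [(nat_lit 8301238)]) FT.nil)) FT.nil))) (FT.cons (FT.cons (FT.cons (FT.leaf [(nat_lit 7865537)]) FT.nil) (FT.cons (FT.cons (FT.leaf [(nat_lit 8297154)])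
 FT.nil) FT.nil)) (FT.cons (FT.cons (FT.cons (FT.leaf [(nat_lit 8557112)]) FT.nil) FT.nil) (FT.cons (FT.cons (FT.cons (FT.leaf [(nat_lit 9211353)]) FT.nil) FT.nil) (FT.cons (FT.cons (FT.cons (FT.leaf [(nat_lit 9830674)]) FT.nil) FT.nil) (FT.cons (FT.cons (FT.cons (FT.leaf [(nat_lit 10417691)]) FT.nil) FT.nil) FT.nil)))))))) (FT.cons (FT.cons (FT.cons (FT.cons (FT.leaf [(nat_lit 7207098), (nat_lit 7349703), (nat_lit 7495636), (nat_lit 7643961), (nat_lit 7793967), (nat_lit 7945099)]) (FT.cons (FT.leaf [(nat_lit 7470918), (nat_lit 7616697), (nat_lit 7764660), (nat_lit 7914135), (nat_lit 8064601)]) (FT.cons (FT.leaf [(nat_lit 7737067), (nat_lit 7884590), (nat_lit 8033474), (nat_lit 8183223)]) (FT.cons (FT.leaf [(nat_lit 8003722), (nat_lit 8151959)]) (FT.cons (FT.leaf [(nat_lit 8269575)]) (FT.cons (FT.leaf [(nat_lit 8533676)]) FT.nil)))))) (FT.cons (FT.cons (FT.leaf [(nat_lit 7637371), (nat_lit 7781961), (nat_lit 7928598), (nat_lit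 8076634), (nat_lit 8225571)]) (FT.cons (FT.leaf [(nat_lit 7900984), (nat_lit 8047133), (nat_lit 8194543), (nat_lit 8342738)]) (FT.cons (FT.leaf [(nat_lit 8164858), (nat_lit 8311592)]) (FT.cons (FT.leaf [(nat_lit 8427769)]) (FT.cons (FT.leaf [(nat_lit
 8688829)]) FT.nil))))) (FT.cons (FT.cons (FT.leaf [(nat_lit 8062744), (nat_lit 8207501), (nat_lit 8353427)]) (FT.cons (FT.leaf [(nat_lit 8323825), (nat_lit 8469053)]) (FT.cons (FT.leaf [(nat_lit 8583804)]) FT.nil))) (FT.cons (FT.cons (FT.leaf [(nat_lit 8480653)]) (FT.cons (FT.leaf [(nat_lit 8737719)]) FT.nil)) FT.nil)))) (FT.cons (FT.cons (FT.cons (FT.leaf [(nat_lit 7909317), (nat_lit 8050910), (nat_lit 8194449), (nat_lit 8339315), (nat_lit 8485026)]) (FT.cons (FT.leaf [(nat_lit 8167196), (nat_lit 8310238), (nat_lit 8454477), (nat_lit 8599458)]) (FT.cons (FT.leaf [(nat_lit 8425234), (nat_lit 8568804)]) (FT.cons (FT.leaf [(nat_lit 8682282)]) FT.nil)))) (FT.cons (FT.cons (FT.leaf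 [(nat_lit 8324959), (nat_lit 8466641), (nat_lit 8609439)]) (FT.cons (FT.leaf [(nat_lit 8580282), (nat_lit 8722392)]) (FT.cons (FT.leaf [(nat_lit 8834497)]) FT.nil))) (FT.cons (FT.cons (FT.leaf [(nat_lit 8733278)]) (FT.cons (FT.leaf [(nat_lit 8984679)]) FT.nil)) FT.nil))) (FT.cons (FT.cons (FT.cons (FT.leaf [(nat_lit 8580234)]) FT.nil) (FT.cons (FT.cons (FT.leaf [(nat_lit 8979365)]) FT.nil) FT.nil)) (FT.cons (FT.cons (FT.cons (FT.leaf [(nat_lit 9219235)]) FT.nil) FT.nil) (FT.cons (FT.cons (FT.cons (FT.leaf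
 [(nat_lit 9827175)]) FT.nil) FT.nil) (FT.cons (FT.cons (FT.cons (FT.leaf [(nat_lit 10405610)]) FT.nil) FT.nil) FT.nil)))))) (FT.cons (FT.cons (FT.cons (FT.cons (FT.leaf [(nat_lit 8612938), (nat_lit 8744509), (nat_lit 8877972), (nat_lit 9012761)]) (FT.cons (FT.leaf [(nat_lit 8852378), (nat_lit 8985465), (nat_lit 9119760)]) (FT.cons (FT.leaf [(nat_lit 9092298)]) FT.nil))) (FT.cons (FT.cons (FT.leaf [(nat_lit 8998519), (nat_lit 9130476)]) (FT.cons (FT.leaf [(nat_lit 9236167)]) FT.nil)) (FT.cons (FT.cons (FT.leaf [(nat_lit 9378299)]) FT.nil) FT.nil))) (FT.cons (FT.cons (FT.cons (FT.leaf [(nat_lit 9234633)]) FT.nil) (FT.cons (FT.cons (FT.leaf [(nat_lit 9606629)]) FT.nil) FT.nil)) (FT.cons (FT.cons (FT.cons (FT.leaf [(nat_lit 9829674)]) FT.nil) FT.nil) (FT.cons (FT.cons (FT.cons (FT.leaf [(nat_lit 10398384)]) FT.nil) FT.nil) FT.nil)))) (FT.cons (FT.cons (FT.cons (FT.cons (FT.leaf [(nat_lit 9839033)]) FT.nil) FT.nil) (FT.cons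 (FT.cons (FT.cons (FT.leaf [(nat_lit 10396643)]) FT.nil) FT.nil) FT.nil)) (FT.cons (FT.cons (FT.cons (FT.cons (FT.leaf [(nat_lit 10926460)]) FT.nil) FT.nil) FT.nil) (FT.cons (FT.cons (FT.cons (FT.cons (FT.leaf [(nat_lit 11903670)]) FT.nil) FT.nil) FT.nil) (FT.cons
 (FT.cons (FT.cons (FT.cons (FT.leaf [(nat_lit 12791159)]) FT.nil) FT.nil) FT.nil) FT.nil))))))))

def f144_1_750 : FT := (FT.cons (FT.cons (FT.cons (FT.cons (FT.leaf [(nat_lit 4112780), (nat_lit 4265761), (nat_lit 4429813), (nat_lit 4602047), (nat_lit 4780382), (nat_lit 4963239), (nat_lit 5149382), (nat_lit 5337825), (nat_lit 5527768), (nat_lit 5718557), (nat_lit 5909653)]) (FT.cons (FT.leaf [(nat_lit 4414732), (nat_lit 4580828), (nat_lit 4754346), (nat_lit 4933349), (nat_lit 5116369), (nat_lit 5302265), (nat_lit 5490123), (nat_lit 5679203), (nat_lit 5868904), (nat_lit 6058730)]) (FT.cons (FT.leaf [(nat_lit 4731953), (nat_lit 4906382), (nat_lit 5085752), (nat_lit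 5268698), (nat_lit 5454154), (nat_lit 5641274), (nat_lit 5829372), (nat_lit 6017892), (nat_lit 6206375)]) (FT.cons (FT.leaf [(nat_lit 5057960), (nat_lit 5237443), (nat_lit 5420107), (nat_lit 5604959), (nat_lit 5791211), (nat_lit 5978225), (nat_lit 6165485)]) (FT.cons (FT.leaf [(nat_lit 5388293), (nat_lit 5570500), (nat_lit 5754607), (nat_lit 5939879), (nat_lit 6125723)]) (FT.cons (FT.leaf [(nat_lit 5719795), (nat_lit 5903037), (nat_lit 6087235), (nat_lit 6271835)]) (FT.cons (FT.leaf [(nat_lit 6050200), (nat_lit 6233243)]) (FT.cons (FT.leaf [(nat_lit 6377878)]) (FT.cons (FT.leaf [(nat_lit 6701665)]) FT.nil))))))))) (FT.cons (FT.cons (FT.leaf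
 [(nat_lit 4630155), (nat_lit 4796168), (nat_lit 4969061), (nat_lit 5146981), (nat_lit 5328537), (nat_lit 5512654), (nat_lit 5698476), (nat_lit 5885314), (nat_lit 6072609), (nat_lit 6259900)]) (FT.cons (FT.leaf [(nat_lit 4946094), (nat_lit 5119612), (nat_lit 5297671), (nat_lit 5478970), (nat_lit 5662505), (nat_lit 5847482), (nat_lit 6033259), (nat_lit 6219317), (nat_lit 6405227)]) (FT.cons (FT.leaf [(nat_lit 5269557), (nat_lit 5447534), (nat_lit 5628400), (nat_lit 5811215), (nat_lit 5995236), (nat_lit 6179865), (nat_lit 6364620)]) (FT.cons (FT.leaf [(nat_lit 5596468), (nat_lit 5776750), (nat_lit 5958724), (nat_lit 6141693), (nat_lit 6325104)]) (FT.cons (FT.leaf [(nat_lit 5923952), (nat_lit 6104982), (nat_lit 6286823), (nat_lit 6468954)]) (FT.cons (FT.leaf [(nat_lit 6249952), (nat_lit 6430597)]) (FT.cons (FT.leaf [(nat_lit 6572995)]) (FT.cons (FT.leaf [(nat_lit 6892026)]) FT.nil)))))))) (FT.cons (FT.cons (FT.leaf [(nat_lit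 5157463), (nat_lit 5329854), (nat_lit 5506433), (nat_lit 5685962), (nat_lit 5867489), (nat_lit 6050265), (nat_lit 6233687), (nat_lit 6417273)]) (FT.cons (FT.leaf [(nat_lit 5478063), (nat_lit 5654401), (nat_lit 5833371), (nat_lit 6014082), (nat_lit 6195832),
 (nat_lit 6378061), (nat_lit 6560316)]) (FT.cons (FT.leaf [(nat_lit 5801368), (nat_lit 5979651), (nat_lit 6159445), (nat_lit 6340090), (nat_lit 6521064)]) (FT.cons (FT.leaf [(nat_lit 6124748), (nat_lit 6303536), (nat_lit 6483011), (nat_lit 6662679)]) (FT.cons (FT.leaf [(nat_lit 6446327), (nat_lit 6624573)]) (FT.cons (FT.leaf [(nat_lit 6764765)]) FT.nil)))))) (FT.cons (FT.cons (FT.leaf [(nat_lit 5683432), (nat_lit 5858026), (nat_lit 6035029), (nat_lit 6213592), (nat_lit 6393051), (nat_lit 6572875)]) (FT.cons (FT.leaf [(nat_lit 6002998), (nat_lit 6179229), (nat_lit 6356813), (nat_lit 6535125), (nat_lit 6713669)]) (FT.cons (FT.leaf [(nat_lit 6322220), (nat_lit 6498751),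 (nat_lit 6675861), (nat_lit 6853082)]) (FT.cons (FT.leaf [(nat_lit 6639384), (nat_lit 6815243)]) (FT.cons (FT.leaf [(nat_lit 6953264)]) FT.nil))))) (FT.cons (FT.cons (FT.leaf [(nat_lit 6201375), (nat_lit 6375520), (nat_lit 6550879)]) (FT.cons (FT.leaf [(nat_lit 6516416), (nat_lit 6690685)]) (FT.cons (FT.leaf [(nat_lit 6829186)]) FT.nil))) (FT.cons (FT.cons (FT.leaf [(nat_lit 6707388)]) (FT.cons (FT.leaf [(nat_lit 7015803)]) FT.nil)) (FT.cons (FT.cons (FT.leaf [(nat_lit 7199305)]) FT.nil) FT.nil))))))) (FT.cons (FT.cons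
 (FT.cons (FT.leaf [(nat_lit 4996931), (nat_lit 5159561), (nat_lit 5328606), (nat_lit 5502297), (nat_lit 5679318), (nat_lit 5858660), (nat_lit 6039525), (nat_lit 6221277), (nat_lit 6403395), (nat_lit 6585458)]) (FT.cons (FT.leaf [(nat_lit 5305643), (nat_lit 5475120), (nat_lit 5648804), (nat_lit 5825466), (nat_lit 6004162), (nat_lit 6184148), (nat_lit 6364831), (nat_lit 6545727), (nat_lit 6726444)]) (FT.cons (FT.leaf [(nat_lit 5620951), (nat_lit 5794441), (nat_lit 5970595), (nat_lit 6148527), (nat_lit 6327541), (nat_lit 6507083), (nat_lit 6686703)]) (FT.cons (FT.leaf [(nat_lit 5939123), (nat_lit 6114639), (nat_lit 6291706), (nat_lit 6469670), (nat_lit 6648011)]) (FT.cons (FT.leaf [(nat_lit 6257547), (nat_lit 6433662), (nat_lit 6610509), (nat_lit 6787600)]) (FT.cons (FT.leaf [(nat_lit 6574364), (nat_lit 6750037)]) (FT.cons (FT.leaf [(nat_lit 6888242)]) FT.nil))))))) (FT.cons (FT.cons (FT.leaf [(nat_lit 5510720), (nat_lit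 5678967), (nat_lit 5851116), (nat_lit 6025990), (nat_lit 6202695), (nat_lit 6380526), (nat_lit 6558924), (nat_lit 6737436)]) (FT.cons (FT.leaf [(nat_lit 5823055), (nat_lit 5994878), (nat_lit 6169144), (nat_lit 6345009), (nat_lit 6521815), (nat_lit 6699037), (nat_lit
 6876252)]) (FT.cons (FT.leaf [(nat_lit 6137633), (nat_lit 6311178), (nat_lit 6486117), (nat_lit 6661831), (nat_lit 6837826)]) (FT.cons (FT.leaf [(nat_lit 6452051), (nat_lit 6625990), (nat_lit 6800555), (nat_lit 6975282)]) (FT.cons (FT.leaf [(nat_lit 6764604), (nat_lit 6937972)]) (FT.cons (FT.leaf [(nat_lit 7074073)]) FT.nil)))))) (FT.cons (FT.cons (FT.leaf [(nat_lit 6022104), (nat_lit 6192184), (nat_lit 6364510), (nat_lit 6538280), (nat_lit 6712867), (nat_lit 6887775)]) (FT.cons (FT.leaf [(nat_lit 6332995), (nat_lit 6504535), (nat_lit 6677331), (nat_lit 6850794), (nat_lit 7024457)]) (FT.cons (FT.leaf [(nat_lit 6643381), (nat_lit 6815140), (nat_lit 6987432),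 (nat_lit 7159816)]) (FT.cons (FT.leaf [(nat_lit 6951690), (nat_lit 7122770)]) (FT.cons (FT.leaf [(nat_lit 7256804)]) FT.nil))))) (FT.cons (FT.cons (FT.leaf [(nat_lit 6525242), (nat_lit 6694753), (nat_lit 6865401)]) (FT.cons (FT.leaf [(nat_lit 6831589), (nat_lit 7001172)]) (FT.cons (FT.leaf [(nat_lit 7135688)]) FT.nil))) (FT.cons (FT.cons (FT.leaf [(nat_lit 7016733)]) (FT.cons (FT.leaf [(nat_lit 7316665)]) FT.nil)) (FT.cons (FT.cons (FT.leaf [(nat_lit 7494691)]) FT.nil) FT.nil)))))) (FT.cons (FT.cons (FT.cons (FT.leaf [(nat_lit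
 5851984), (nat_lit 6016175), (nat_lit 6184023), (nat_lit 6354410), (nat_lit 6526487), (nat_lit 6699594), (nat_lit 6873204), (nat_lit 7046895)]) (FT.cons (FT.leaf [(nat_lit 6156290), (nat_lit 6323754), (nat_lit 6493500), (nat_lit 6664729), (nat_lit 6836821), (nat_lit 7009281), (nat_lit 7181715)]) (FT.cons (FT.leaf [(nat_lit 6462483), (nat_lit 6631492), (nat_lit 6801798), (nat_lit 6972817), (nat_lit 7144086)]) (FT.cons (FT.leaf [(nat_lit 6768350), (nat_lit 6937670), (nat_lit 7107570), (nat_lit 7277610)]) (FT.cons (FT.leaf [(nat_lit 7072328), (nat_lit 7241066)]) (FT.cons (FT.leaf [(nat_lit 7373302)]) FT.nil)))))) (FT.cons (FT.cons (FT.leaf [(nat_lit 6349321), (nat_lit 6515060), (nat_lit 6682909), (nat_lit 6852105), (nat_lit 7022056), (nat_lit 7192294)]) (FT.cons (FT.leaf [(nat_lit 6651908), (nat_lit 6818965), (nat_lit 6987201), (nat_lit 7156055), (nat_lit 7325089)]) (FT.cons (FT.leaf [(nat_lit 6953879), (nat_lit 7121099),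 (nat_lit 7288817), (nat_lit 7456616)]) (FT.cons (FT.leaf [(nat_lit 7253786), (nat_lit 7420333)]) (FT.cons (FT.leaf [(nat_lit 7550601)]) FT.nil))))) (FT.cons (FT.cons (FT.leaf [(nat_lit 6838354), (nat_lit 7003448), (nat_lit 7169614)]) (FT.cons (FT.leaf [(nat_lit
 7136436), (nat_lit 7301565)]) (FT.cons (FT.leaf [(nat_lit 7432313)]) FT.nil))) (FT.cons (FT.cons (FT.leaf [(nat_lit 7316079)]) (FT.cons (FT.leaf [(nat_lit 7607974)]) FT.nil)) (FT.cons (FT.cons (FT.leaf [(nat_lit 7780837)]) FT.nil) FT.nil))))) (FT.cons (FT.cons (FT.cons (FT.leaf [(nat_lit 6665752), (nat_lit 6827327), (nat_lit 6990896), (nat_lit 7155732), (nat_lit 7321272)]) (FT.cons (FT.leaf [(nat_lit 6960402), (nat_lit 7123184), (nat_lit 7287078), (nat_lit 7451553)]) (FT.cons (FT.leaf [(nat_lit 7254366), (nat_lit 7417271)]) (FT.cons (FT.leaf [(nat_lit 7546300)]) FT.nil)))) (FT.cons (FT.cons (FT.leaf [(nat_lit 7141360), (nat_lit 7302247), (nat_lit 7464151)]) (FT.cons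 (FT.leaf [(nat_lit 7431587), (nat_lit 7592485)]) (FT.cons (FT.leaf [(nat_lit 7719665)]) FT.nil))) (FT.cons (FT.cons (FT.leaf [(nat_lit 7606037)]) (FT.cons (FT.leaf [(nat_lit 7890311)]) FT.nil)) FT.nil))) (FT.cons (FT.cons (FT.cons (FT.leaf [(nat_lit 7434868)]) FT.nil) (FT.cons (FT.cons (FT.leaf [(nat_lit 7887168)]) FT.nil) FT.nil)) (FT.cons (FT.cons (FT.cons (FT.leaf [(nat_lit 8159994)]) FT.nil) FT.nil) (FT.cons (FT.cons (FT.cons (FT.leaf [(nat_lit 8843517)]) FT.nil) FT.nil) (FT.cons (FT.cons (FT.cons (FT.leaf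
 [(nat_lit 9488502)]) FT.nil) FT.nil) (FT.cons (FT.cons (FT.cons (FT.leaf [(nat_lit 10098111)]) FT.nil) FT.nil) FT.nil))))))))) (FT.cons (FT.cons (FT.cons (FT.cons (FT.leaf [(nat_lit 5981170), (nat_lit 6128178), (nat_lit 6281039), (nat_lit 6438190), (nat_lit 6598477), (nat_lit 6761015), (nat_lit 6925108), (nat_lit 7090195), (nat_lit 7255823), (nat_lit 7421617)]) (FT.cons (FT.leaf [(nat_lit 6259773), (nat_lit 6413123), (nat_lit 6570393), (nat_lit 6730498), (nat_lit 6892610), (nat_lit 7056077), (nat_lit 7220374), (nat_lit 7385077), (nat_lit 7549839)]) (FT.cons (FT.leaf [(nat_lit 6544713), (nat_lit 6701943), (nat_lit 6861741), (nat_lit 7023326), (nat_lit 7186086), (nat_lit 7349531), (nat_lit 7513260)]) (FT.cons (FT.leaf [(nat_lit 6832771), (nat_lit 6992151), (nat_lit 7153121), (nat_lit 7315106), (nat_lit 7477643)]) (FT.cons (FT.leaf [(nat_lit 7121682), (nat_lit 7281962), (nat_lit 7443111), (nat_lit 7604694)]) (FT.cons (FT.leaf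 [(nat_lit 7409820), (nat_lit 7570082)]) (FT.cons (FT.leaf [(nat_lit 7696002)]) FT.nil))))))) (FT.cons (FT.cons (FT.leaf [(nat_lit 6443969), (nat_lit 6596423), (nat_lit 6752539), (nat_lit 6911280), (nat_lit 7071854), (nat_lit 7233640), (nat_lit 7396144), (nat_lit
 7558964)]) (FT.cons (FT.leaf [(nat_lit 6726656), (nat_lit 6882622), (nat_lit 7040969), (nat_lit 7200949), (nat_lit 7361979), (nat_lit 7523595), (nat_lit 7685417)]) (FT.cons (FT.leaf [(nat_lit 7011936), (nat_lit 7169792), (nat_lit 7329103), (nat_lit 7489317), (nat_lit 7649997)]) (FT.cons (FT.leaf [(nat_lit 7297712), (nat_lit 7456287), (nat_lit 7615634), (nat_lit 7775337)]) (FT.cons (FT.leaf [(nat_lit 7582478), (nat_lit 7740912)]) (FT.cons (FT.leaf [(nat_lit 7865141)]) FT.nil)))))) (FT.cons (FT.cons (FT.leaf [(nat_lit 6906189), (nat_lit 7060823), (nat_lit 7217670), (nat_lit 7376014), (nat_lit 7535298), (nat_lit 7695079)]) (FT.cons (FT.leaf [(nat_lit 7188606), (nat_lit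 7344901), (nat_lit 7502529), (nat_lit 7660965), (nat_lit 7819789)]) (FT.cons (FT.leaf [(nat_lit 7471210), (nat_lit 7628065), (nat_lit 7785607), (nat_lit 7943440)]) (FT.cons (FT.leaf [(nat_lit 7752603), (nat_lit 7909213)]) (FT.cons (FT.leaf [(nat_lit 8031774)]) FT.nil))))) (FT.cons (FT.cons (FT.leaf [(nat_lit 7362794), (nat_lit 7517501), (nat_lit 7673435)]) (FT.cons (FT.leaf [(nat_lit 7642205), (nat_lit 7797335)]) (FT.cons (FT.leaf [(nat_lit 7920237)]) FT.nil))) (FT.cons (FT.cons (FT.leaf [(nat_lit 7810734)]) (FT.cons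
 (FT.leaf [(nat_lit 8085423)]) FT.nil)) (FT.cons (FT.cons (FT.leaf [(nat_lit 8248209)]) FT.nil) FT.nil)))))) (FT.cons (FT.cons (FT.cons (FT.leaf [(nat_lit 6749561), (nat_lit 6898836), (nat_lit 7051568), (nat_lit 7206763), (nat_lit 7363666), (nat_lit 7521690), (nat_lit 7680365), (nat_lit 7839314)]) (FT.cons (FT.leaf [(nat_lit 7025930), (nat_lit 7178456), (nat_lit 7333221), (nat_lit 7489512), (nat_lit 7646777), (nat_lit 7804573), (nat_lit 7962544)]) (FT.cons (FT.leaf [(nat_lit 7304571), (nat_lit 7458820), (nat_lit 7614434), (nat_lit 7770887), (nat_lit 7927763)]) (FT.cons (FT.leaf [(nat_lit 7583530), (nat_lit 7738407), (nat_lit 7894004), (nat_lit 8049925)]) (FT.cons (FT.leaf [(nat_lit 7861414), (nat_lit 8016115)]) (FT.cons (FT.leaf [(nat_lit 8137213)]) FT.nil)))))) (FT.cons (FT.cons (FT.leaf [(nat_lit 7200691), (nat_lit 7351885), (nat_lit 7505169), (nat_lit 7659858), (nat_lit 7815422), (nat_lit 7971441)]) (FT.cons (FT.leaf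 [(nat_lit 7476505), (nat_lit 7629222), (nat_lit 7783195), (nat_lit 7937922), (nat_lit 8093005)]) (FT.cons (FT.leaf [(nat_lit 7752373), (nat_lit 7905579), (nat_lit 8059430), (nat_lit 8213547)]) (FT.cons (FT.leaf [(nat_lit 8026995), (nat_lit 8179935)]) (FT.cons
 (FT.leaf [(nat_lit 8299432)]) FT.nil))))) (FT.cons (FT.cons (FT.leaf [(nat_lit 7646048), (nat_lit 7797215), (nat_lit 7949541)]) (FT.cons (FT.leaf [(nat_lit 7918816), (nat_lit 8070351)]) (FT.cons (FT.leaf [(nat_lit 8190193)]) FT.nil))) (FT.cons (FT.cons (FT.leaf [(nat_lit 8082896)]) (FT.cons (FT.leaf [(nat_lit 8351053)]) FT.nil)) (FT.cons (FT.cons (FT.leaf [(nat_lit 8509620)]) FT.nil) FT.nil))))) (FT.cons (FT.cons (FT.cons (FT.leaf [(nat_lit 7486620), (nat_lit 7634487), (nat_lit 7784337), (nat_lit 7935514), (nat_lit 8087512)]) (FT.cons (FT.leaf [(nat_lit 7756073), (nat_lit 7905350), (nat_lit 8055816), (nat_lit 8206991)]) (FT.cons (FT.leaf [(nat_lit 8025481), (nat_lit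 8175191)]) (FT.cons (FT.leaf [(nat_lit 8293628)]) FT.nil)))) (FT.cons (FT.cons (FT.leaf [(nat_lit 7921188), (nat_lit 8068955), (nat_lit 8217823)]) (FT.cons (FT.leaf [(nat_lit 8187592), (nat_lit 8335684)]) (FT.cons (FT.leaf [(nat_lit 8452610)]) FT.nil))) (FT.cons (FT.cons (FT.leaf [(nat_lit 8347439)]) (FT.cons (FT.leaf [(nat_lit 8609357)]) FT.nil)) FT.nil))) (FT.cons (FT.cons (FT.cons (FT.leaf [(nat_lit 8188638)]) FT.nil) (FT.cons (FT.cons (FT.leaf [(nat_lit 8604766)]) FT.nil) FT.nil)) (FT.cons (FT.cons (FT.cons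
 (FT.leaf [(nat_lit 8855248)]) FT.nil) FT.nil) (FT.cons (FT.cons (FT.cons (FT.leaf [(nat_lit 9487678)]) FT.nil) FT.nil) (FT.cons (FT.cons (FT.cons (FT.leaf [(nat_lit 10087872)]) FT.nil) FT.nil) (FT.cons (FT.cons (FT.cons (FT.leaf [(nat_lit 10658033)]) FT.nil) FT.nil) FT.nil)))))))) (FT.cons (FT.cons (FT.cons (FT.cons (FT.leaf [(nat_lit 7551569), (nat_lit 7688978), (nat_lit 7829646), (nat_lit 7972676), (nat_lit 8117388), (nat_lit 8263252)]) (FT.cons (FT.leaf [(nat_lit 7805696), (nat_lit 7946267), (nat_lit 8089001), (nat_lit 8233257), (nat_lit 8378534)]) (FT.cons (FT.leaf [(nat_lit 8062269), (nat_lit 8204633), (nat_lit 8348373), (nat_lit 8493016)]) (FT.cons (FT.leaf [(nat_lit 8319542), (nat_lit 8462715)]) (FT.cons (FT.leaf [(nat_lit 8576264)]) (FT.cons (FT.leaf [(nat_lit 8831517)]) FT.nil)))))) (FT.cons (FT.cons (FT.leaf [(nat_lit 7965879), (nat_lit 8105385), (nat_lit 8246923), (nat_lit 8389875), (nat_lit 8533760)]) (FT.cons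 (FT.leaf [(nat_lit 8220160), (nat_lit 8361281), (nat_lit 8503682), (nat_lit 8646906)]) (FT.cons (FT.leaf [(nat_lit 8474903), (nat_lit 8616706)]) (FT.cons (FT.leaf [(nat_lit 8728934)]) (FT.cons (FT.leaf [(nat_lit 8981396)]) FT.nil))))) (FT.cons (FT.cons (FT.leaf
 [(nat_lit 8376075), (nat_lit 8515932), (nat_lit 8656982)]) (FT.cons (FT.leaf [(nat_lit 8628270), (nat_lit 8768699)]) (FT.cons (FT.leaf [(nat_lit 8879616)]) FT.nil))) (FT.cons (FT.cons (FT.leaf [(nat_lit 8779670)]) (FT.cons (FT.leaf [(nat_lit 9028341)]) FT.nil)) FT.nil)))) (FT.cons (FT.cons (FT.cons (FT.leaf [(nat_lit 8227422), (nat_lit 8364189), (nat_lit 8502891), (nat_lit 8642933), (nat_lit 8783854)]) (FT.cons (FT.leaf [(nat_lit 8476452), (nat_lit 8614725), (nat_lit 8754214), (nat_lit 8894480)]) (FT.cons (FT.leaf [(nat_lit 8725837), (nat_lit 8864730)]) (FT.cons (FT.leaf [(nat_lit 8974470)]) FT.nil)))) (FT.cons (FT.cons (FT.leaf [(nat_lit 8628694), (nat_lit 8765728),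 (nat_lit 8903898)]) (FT.cons (FT.leaf [(nat_lit 8875595), (nat_lit 9013149)]) (FT.cons (FT.leaf [(nat_lit 9121623)]) FT.nil))) (FT.cons (FT.cons (FT.leaf [(nat_lit 9023458)]) (FT.cons (FT.leaf [(nat_lit 9266895)]) FT.nil)) FT.nil))) (FT.cons (FT.cons (FT.cons (FT.leaf [(nat_lit 8874925)]) FT.nil) (FT.cons (FT.cons (FT.leaf [(nat_lit 9261203)]) FT.nil) FT.nil)) (FT.cons (FT.cons (FT.cons (FT.leaf [(nat_lit 9493188)]) FT.nil) FT.nil) (FT.cons (FT.cons (FT.cons (FT.leaf [(nat_lit 10082752)]) FT.nil) FT.nil) (FT.cons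
 (FT.cons (FT.cons (FT.leaf [(nat_lit 10644865)]) FT.nil) FT.nil) FT.nil)))))) (FT.cons (FT.cons (FT.cons (FT.cons (FT.leaf [(nat_lit 8903812), (nat_lit 9031352), (nat_lit 9160765)]) (FT.cons (FT.leaf [(nat_lit 9135859), (nat_lit 9264945)]) (FT.cons (FT.leaf [(nat_lit 9368517)]) FT.nil))) (FT.cons (FT.cons (FT.leaf [(nat_lit 9277383)]) (FT.cons (FT.leaf [(nat_lit 9507942)]) FT.nil)) (FT.cons (FT.cons (FT.leaf [(nat_lit 9645750)]) FT.nil) FT.nil))) (FT.cons (FT.cons (FT.cons (FT.leaf [(nat_lit 9505926)]) FT.nil) (FT.cons (FT.cons (FT.leaf [(nat_lit 9867046)]) FT.nil) FT.nil)) (FT.cons (FT.cons (FT.cons (FT.leaf [(nat_lit 10083407)]) FT.nil) FT.nil) (FT.cons (FT.cons (FT.cons (FT.leaf [(nat_lit 10636377)]) FT.nil) FT.nil) FT.nil)))) (FT.cons (FT.cons (FT.cons (FT.cons (FT.leaf [(nat_lit 10090673)]) FT.nil) FT.nil) (FT.cons (FT.cons (FT.cons (FT.leaf [(nat_lit 10633179)]) FT.nil) FT.nil) FT.nil)) (FT.cons (FT.cons (FT.cons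 (FT.cons (FT.leaf [(nat_lit 11148168)]) FT.nil) FT.nil) FT.nil) (FT.cons (FT.cons (FT.cons (FT.cons (FT.leaf [(nat_lit 12101803)]) FT.nil) FT.nil) FT.nil) (FT.cons (FT.cons (FT.cons (FT.cons (FT.leaf [(nat_lit 12970249)]) FT.nil) FT.nil) FT.nil) FT.nil))))))))

def f144_1_896 : FT := (FT.cons (FT.cons (FT.cons (FT.cons (FT.leaf [(nat_lit 4664848), (nat_lit 4807527), (nat_lit 4960709), (nat_lit 5121735), (nat_lit 5288689), (nat_lit 5460113), (nat_lit 5634865), (nat_lit 5812029), (nat_lit 5990859), (nat_lit 6170742), (nat_lit 6351171)]) (FT.cons (FT.leaf [(nat_lit 4946443), (nat_lit 5101714), (nat_lit 5264133), (nat_lit 5431913), (nat_lit 5603698), (nat_lit 5778427), (nat_lit 5955251), (nat_lit 6133478), (nat_lit 6312542), (nat_lit 6491971)]) (FT.cons (FT.leaf [(nat_lit 5242994), (nat_lit 5406460), (nat_lit 5574787), (nat_lit 5746707), (nat_lit 5921230), (nat_lit 6097566), (nat_lit 6275072), (nat_lit 6453221), (nat_lit 6631578)])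 (FT.cons (FT.leaf [(nat_lit 5548535), (nat_lit 5717167), (nat_lit 5889026), (nat_lit 6063185), (nat_lit 6238905), (nat_lit 6415587), (nat_lit 6592740)]) (FT.cons (FT.leaf [(nat_lit 5858932), (nat_lit 6030560), (nat_lit 6204217), (nat_lit 6379210), (nat_lit 6554980)]) (FT.cons (FT.leaf [(nat_lit 6171227), (nat_lit 6344262), (nat_lit 6518434), (nat_lit 6693216)]) (FT.cons (FT.leaf [(nat_lit 6483270), (nat_lit 6656537)]) (FT.cons (FT.leaf [(nat_lit 6793489)]) (FT.cons (FT.leaf [(nat_lit 7100734)]) FT.nil))))))))) (FT.cons (FT.cons (FT.leaf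
 [(nat_lit 5147323), (nat_lit 5302793), (nat_lit 5464918), (nat_lit 5631979), (nat_lit 5802689), (nat_lit 5976045), (nat_lit 6151248), (nat_lit 6327653), (nat_lit 6504729), (nat_lit 6682039)]) (FT.cons (FT.leaf [(nat_lit 5443210), (nat_lit 5606112), (nat_lit 5773500), (nat_lit 5944168), (nat_lit 6117176), (nat_lit 6291780), (nat_lit 6467378), (nat_lit 6643476), (nat_lit 6819668)]) (FT.cons (FT.leaf [(nat_lit 5746908), (nat_lit 5914415), (nat_lit 6084871), (nat_lit 6257395), (nat_lit 6431291), (nat_lit 6605994), (nat_lit 6781046)]) (FT.cons (FT.leaf [(nat_lit 6054621), (nat_lit 6224718), (nat_lit 6396640), (nat_lit 6569733), (nat_lit 6743467)]) (FT.cons (FT.leaf [(nat_lit 6363642), (nat_lit 6534860), (nat_lit 6707068), (nat_lit 6879769)]) (FT.cons (FT.leaf [(nat_lit 6672012), (nat_lit 6843264)]) (FT.cons (FT.leaf [(nat_lit 6978298)]) (FT.cons (FT.leaf [(nat_lit 7281458)]) FT.nil)))))))) (FT.cons (FT.cons (FT.leaf [(nat_lit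 5641205), (nat_lit 5803329), (nat_lit 5969610), (nat_lit 6138893), (nat_lit 6310289), (nat_lit 6483091), (nat_lit 6656733), (nat_lit 6830753)]) (FT.cons (FT.leaf [(nat_lit 5942739), (nat_lit 6108980), (nat_lit 6277926), (nat_lit 6448738), (nat_lit 6620757),
 (nat_lit 6793449), (nat_lit 6966383)]) (FT.cons (FT.leaf [(nat_lit 6247567), (nat_lit 6416048), (nat_lit 6586176), (nat_lit 6757329), (nat_lit 6929007)]) (FT.cons (FT.leaf [(nat_lit 6553205), (nat_lit 6722560), (nat_lit 6892777), (nat_lit 7063387)]) (FT.cons (FT.leaf [(nat_lit 6857854), (nat_lit 7027076)]) (FT.cons (FT.leaf [(nat_lit 7160206)]) FT.nil)))))) (FT.cons (FT.cons (FT.leaf [(nat_lit 6135962), (nat_lit 6300827), (nat_lit 6468180), (nat_lit 6637221), (nat_lit 6807324), (nat_lit 6977986)]) (FT.cons (FT.leaf [(nat_lit 6437752), (nat_lit 6604552), (nat_lit 6772841), (nat_lit 6942029), (nat_lit 7111641)]) (FT.cons (FT.leaf [(nat_lit 6739925), (nat_lit 6907386),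 (nat_lit 7075599), (nat_lit 7244117)]) (FT.cons (FT.leaf [(nat_lit 7040829), (nat_lit 7208015)]) (FT.cons (FT.leaf [(nat_lit 7339263)]) FT.nil))))) (FT.cons (FT.cons (FT.leaf [(nat_lit 6625171), (nat_lit 6790241), (nat_lit 6956662)]) (FT.cons (FT.leaf [(nat_lit 6923827), (nat_lit 7089375)]) (FT.cons (FT.leaf [(nat_lit 7220978)]) FT.nil))) (FT.cons (FT.cons (FT.leaf [(nat_lit 7104942)]) (FT.cons (FT.leaf [(nat_lit 7398348)]) FT.nil)) (FT.cons (FT.cons (FT.leaf [(nat_lit 7572988)]) FT.nil) FT.nil))))))) (FT.cons (FT.cons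
 (FT.cons (FT.leaf [(nat_lit 5489450), (nat_lit 5642260), (nat_lit 5801293), (nat_lit 5964902), (nat_lit 6131863), (nat_lit 6301231), (nat_lit 6472260), (nat_lit 6644345), (nat_lit 6816997), (nat_lit 6989810)]) (FT.cons (FT.leaf [(nat_lit 5779531), (nat_lit 5939147), (nat_lit 6102931), (nat_lit 6269735), (nat_lit 6438675), (nat_lit 6609051), (nat_lit 6780301), (nat_lit 6951966), (nat_lit 7123670)]) (FT.cons (FT.leaf [(nat_lit 6076514), (nat_lit 6240293), (nat_lit 6406796), (nat_lit 6575191), (nat_lit 6744822), (nat_lit 6915163), (nat_lit 7085785)]) (FT.cons (FT.leaf [(nat_lit 6376904), (nat_lit 6542980), (nat_lit 6710729), (nat_lit 6879535), (nat_lit 7048904)]) (FT.cons (FT.leaf [(nat_lit 6678232), (nat_lit 6845248), (nat_lit 7013161), (nat_lit 7181504)]) (FT.cons (FT.leaf [(nat_lit 6978714), (nat_lit 7145674)]) (FT.cons (FT.leaf [(nat_lit 7277055)]) FT.nil))))))) (FT.cons (FT.cons (FT.leaf [(nat_lit 5972270), (nat_lit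 6130984), (nat_lit 6293577), (nat_lit 6458951), (nat_lit 6626261), (nat_lit 6794845), (nat_lit 6964172), (nat_lit 7133810)]) (FT.cons (FT.leaf [(nat_lit 6266929), (nat_lit 6429387), (nat_lit 6594355), (nat_lit 6761041), (nat_lit 6928820), (nat_lit 7097194), (nat_lit
 7265759)]) (FT.cons (FT.leaf [(nat_lit 6564388), (nat_lit 6728842), (nat_lit 6894815), (nat_lit 7061720), (nat_lit 7229088)]) (FT.cons (FT.leaf [(nat_lit 6862365), (nat_lit 7027551), (nat_lit 7193522), (nat_lit 7359837)]) (FT.cons (FT.leaf [(nat_lit 7159219), (nat_lit 7324206)]) (FT.cons (FT.leaf [(nat_lit 7453758)]) FT.nil)))))) (FT.cons (FT.cons (FT.leaf [(nat_lit 6454772), (nat_lit 6615823), (nat_lit 6779195), (nat_lit 6944128), (nat_lit 7110031), (nat_lit 7276429)]) (FT.cons (FT.leaf [(nat_lit 6749186), (nat_lit 6911971), (nat_lit 7076138), (nat_lit 7241127), (nat_lit 7406492)]) (FT.cons (FT.leaf [(nat_lit 7043760), (nat_lit 7207095), (nat_lit 7371120),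 (nat_lit 7535413)]) (FT.cons (FT.leaf [(nat_lit 7336977), (nat_lit 7499994)]) (FT.cons (FT.leaf [(nat_lit 7627739)]) FT.nil))))) (FT.cons (FT.cons (FT.leaf [(nat_lit 6931307), (nat_lit 7092388), (nat_lit 7254730)]) (FT.cons (FT.leaf [(nat_lit 7222446), (nat_lit 7383920)]) (FT.cons (FT.leaf [(nat_lit 7512033)]) FT.nil))) (FT.cons (FT.cons (FT.leaf [(nat_lit 7398460)]) (FT.cons (FT.leaf [(nat_lit 7684434)]) FT.nil)) (FT.cons (FT.cons (FT.leaf [(nat_lit 7854230)]) FT.nil) FT.nil)))))) (FT.cons (FT.cons (FT.cons (FT.leaf [(nat_lit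
 6293147), (nat_lit 6448474), (nat_lit 6607442), (nat_lit 6769002), (nat_lit 6932352), (nat_lit 7096867), (nat_lit 7262048), (nat_lit 7427488)]) (FT.cons (FT.leaf [(nat_lit 6581043), (nat_lit 6739804), (nat_lit 6900911), (nat_lit 7063610), (nat_lit 7227311), (nat_lit 7391545), (nat_lit 7555930)]) (FT.cons (FT.leaf [(nat_lit 6871345), (nat_lit 7031904), (nat_lit 7193877), (nat_lit 7356705), (nat_lit 7519946)]) (FT.cons (FT.leaf [(nat_lit 7161945), (nat_lit 7323125), (nat_lit 7485029), (nat_lit 7647239)]) (FT.cons (FT.leaf [(nat_lit 7451333), (nat_lit 7612269)]) (FT.cons (FT.leaf [(nat_lit 7738415)]) FT.nil)))))) (FT.cons (FT.cons (FT.leaf [(nat_lit 6763713), (nat_lit 6921057), (nat_lit 7080580), (nat_lit 7241558), (nat_lit 7403429), (nat_lit 7565747)]) (FT.cons (FT.leaf [(nat_lit 7050995), (nat_lit 7209910), (nat_lit 7370117), (nat_lit 7531085), (nat_lit 7692390)]) (FT.cons (FT.leaf [(nat_lit 7338270), (nat_lit 7497650),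 (nat_lit 7657669), (nat_lit 7817929)]) (FT.cons (FT.leaf [(nat_lit 7624138), (nat_lit 7783172)]) (FT.cons (FT.leaf [(nat_lit 7907586)]) FT.nil))))) (FT.cons (FT.cons (FT.leaf [(nat_lit 7228063), (nat_lit 7385310), (nat_lit 7543741)]) (FT.cons (FT.leaf [(nat_lit
 7511998), (nat_lit 7669573)]) (FT.cons (FT.leaf [(nat_lit 7794361)]) FT.nil))) (FT.cons (FT.cons (FT.leaf [(nat_lit 7683166)]) (FT.cons (FT.leaf [(nat_lit 7962049)]) FT.nil)) (FT.cons (FT.cons (FT.leaf [(nat_lit 8127252)]) FT.nil) FT.nil))))) (FT.cons (FT.cons (FT.cons (FT.leaf [(nat_lit 7063286), (nat_lit 7217040), (nat_lit 7372851), (nat_lit 7530028), (nat_lit 7688036)]) (FT.cons (FT.leaf [(nat_lit 7343691), (nat_lit 7498883), (nat_lit 7655292), (nat_lit 7812410)]) (FT.cons (FT.leaf [(nat_lit 7623968), (nat_lit 7779558)]) (FT.cons (FT.leaf [(nat_lit 7902813)]) FT.nil)))) (FT.cons (FT.cons (FT.leaf [(nat_lit 7515943), (nat_lit 7669509), (nat_lit 7824195)]) (FT.cons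 (FT.leaf [(nat_lit 7792981), (nat_lit 7946826)]) (FT.cons (FT.leaf [(nat_lit 8068448)]) FT.nil))) (FT.cons (FT.cons (FT.leaf [(nat_lit 7959545)]) (FT.cons (FT.leaf [(nat_lit 8231663)]) FT.nil)) FT.nil))) (FT.cons (FT.cons (FT.cons (FT.leaf [(nat_lit 7795430)]) FT.nil) (FT.cons (FT.cons (FT.leaf [(nat_lit 8228052)]) FT.nil) FT.nil)) (FT.cons (FT.cons (FT.cons (FT.leaf [(nat_lit 8489106)]) FT.nil) FT.nil) (FT.cons (FT.cons (FT.cons (FT.leaf [(nat_lit 9145741)]) FT.nil) FT.nil) (FT.cons (FT.cons (FT.cons (FT.leaf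
 [(nat_lit 9767556)]) FT.nil) FT.nil) (FT.cons (FT.cons (FT.cons (FT.leaf [(nat_lit 10357058)]) FT.nil) FT.nil) FT.nil))))))))) (FT.cons (FT.cons (FT.cons (FT.cons (FT.leaf [(nat_lit 6409471), (nat_lit 6548992), (nat_lit 6694192), (nat_lit 6843601), (nat_lit 6996131), (nat_lit 7150947), (nat_lit 7307389), (nat_lit 7464926), (nat_lit 7623125), (nat_lit 7781629)]) (FT.cons (FT.leaf [(nat_lit 6673864), (nat_lit 6819644), (nat_lit 6969284), (nat_lit 7121760), (nat_lit 7276290), (nat_lit 7432255), (nat_lit 7589157), (nat_lit 7746591), (nat_lit 7904220)]) (FT.cons (FT.leaf [(nat_lit 6944729), (nat_lit 7094447), (nat_lit 7246749), (nat_lit 7400895), (nat_lit 7556304), (nat_lit 7712507), (nat_lit 7869125)]) (FT.cons (FT.leaf [(nat_lit 7219023), (nat_lit 7371043), (nat_lit 7524719), (nat_lit 7679502), (nat_lit 7834952)]) (FT.cons (FT.leaf [(nat_lit 7494595), (nat_lit 7647726), (nat_lit 7801823), (nat_lit 7956471)]) (FT.cons (FT.leaf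 [(nat_lit 7769886), (nat_lit 7923245)]) (FT.cons (FT.leaf [(nat_lit 8043748)]) FT.nil))))))) (FT.cons (FT.cons (FT.leaf [(nat_lit 6848637), (nat_lit 6993733), (nat_lit 7142445), (nat_lit 7293793), (nat_lit 7447026), (nat_lit 7601555), (nat_lit 7756909), (nat_lit
 7912703)]) (FT.cons (FT.leaf [(nat_lit 7117673), (nat_lit 7266356), (nat_lit 7417442), (nat_lit 7570223), (nat_lit 7724144), (nat_lit 7878758), (nat_lit 8033707)]) (FT.cons (FT.leaf [(nat_lit 7389631), (nat_lit 7540361), (nat_lit 7692614), (nat_lit 7845865), (nat_lit 7999694)]) (FT.cons (FT.leaf [(nat_lit 7662509), (nat_lit 7814168), (nat_lit 7966697), (nat_lit 8119698)]) (FT.cons (FT.leaf [(nat_lit 7934862), (nat_lit 8086623)]) (FT.cons (FT.leaf [(nat_lit 8205626)]) FT.nil)))))) (FT.cons (FT.cons (FT.leaf [(nat_lit 7288530), (nat_lit 7436105), (nat_lit 7585921), (nat_lit 7737298), (nat_lit 7889706), (nat_lit 8042720)]) (FT.cons (FT.leaf [(nat_lit 7558054), (nat_lit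 7707451), (nat_lit 7858252), (nat_lit 8009953), (nat_lit 8162155)]) (FT.cons (FT.leaf [(nat_lit 7828189), (nat_lit 7978355), (nat_lit 8129305), (nat_lit 8280658)]) (FT.cons (FT.leaf [(nat_lit 8097587), (nat_lit 8247745)]) (FT.cons (FT.leaf [(nat_lit 8365263)]) FT.nil))))) (FT.cons (FT.cons (FT.leaf [(nat_lit 7724295), (nat_lit 7872326), (nat_lit 8021654)]) (FT.cons (FT.leaf [(nat_lit 7991651), (nat_lit 8140311)]) (FT.cons (FT.leaf [(nat_lit 8258090)]) FT.nil))) (FT.cons (FT.cons (FT.leaf [(nat_lit 8152921)]) (FT.cons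
 (FT.leaf [(nat_lit 8416404)]) FT.nil)) (FT.cons (FT.cons (FT.leaf [(nat_lit 8572564)]) FT.nil) FT.nil)))))) (FT.cons (FT.cons (FT.cons (FT.leaf [(nat_lit 7138616), (nat_lit 7280980), (nat_lit 7426761), (nat_lit 7575018), (nat_lit 7725034), (nat_lit 7876249), (nat_lit 8028216), (nat_lit 8180572)]) (FT.cons (FT.leaf [(nat_lit 7402181), (nat_lit 7547871), (nat_lit 7695822), (nat_lit 7845358), (nat_lit 7995951), (nat_lit 8147177), (nat_lit 8298696)]) (FT.cons (FT.leaf [(nat_lit 7668330), (nat_lit 7815892), (nat_lit 7964882), (nat_lit 8114799), (nat_lit 8265244)]) (FT.cons (FT.leaf [(nat_lit 7935197), (nat_lit 8083582), (nat_lit 8232778), (nat_lit 8382404)]) (FT.cons (FT.leaf [(nat_lit 8201437), (nat_lit 8349870)]) (FT.cons (FT.leaf [(nat_lit 8466067)]) FT.nil)))))) (FT.cons (FT.cons (FT.leaf [(nat_lit 7568838), (nat_lit 7713404), (nat_lit 7860087), (nat_lit 8008235), (nat_lit 8157343), (nat_lit 8307008)]) (FT.cons (FT.leaf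 [(nat_lit 7832559), (nat_lit 7978799), (nat_lit 8126361), (nat_lit 8274764), (nat_lit 8423625)]) (FT.cons (FT.leaf [(nat_lit 8096729), (nat_lit 8243652), (nat_lit 8391308), (nat_lit 8539335)]) (FT.cons (FT.leaf [(nat_lit 8360091), (nat_lit 8506967)]) (FT.cons
 (FT.leaf [(nat_lit 8621730)]) FT.nil))))) (FT.cons (FT.cons (FT.leaf [(nat_lit 7994671), (nat_lit 8139565), (nat_lit 8285684)]) (FT.cons (FT.leaf [(nat_lit 8256121), (nat_lit 8401574)]) (FT.cons (FT.leaf [(nat_lit 8516610)]) FT.nil))) (FT.cons (FT.cons (FT.leaf [(nat_lit 8413402)]) (FT.cons (FT.leaf [(nat_lit 8671025)]) FT.nil)) (FT.cons (FT.cons (FT.leaf [(nat_lit 8823374)]) FT.nil) FT.nil))))) (FT.cons (FT.cons (FT.cons (FT.leaf [(nat_lit 7841541), (nat_lit 7983175), (nat_lit 8126819), (nat_lit 8271846), (nat_lit 8417773)]) (FT.cons (FT.leaf [(nat_lit 8099633), (nat_lit 8242819), (nat_lit 8387255), (nat_lit 8532480)]) (FT.cons (FT.leaf [(nat_lit 8358049), (nat_lit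 8501848)]) (FT.cons (FT.leaf [(nat_lit 8615610)]) FT.nil)))) (FT.cons (FT.cons (FT.leaf [(nat_lit 8257788), (nat_lit 8399652), (nat_lit 8542679)]) (FT.cons (FT.leaf [(nat_lit 8513550), (nat_lit 8655916)]) (FT.cons (FT.leaf [(nat_lit 8768323)]) FT.nil))) (FT.cons (FT.cons (FT.leaf [(nat_lit 8667017)]) (FT.cons (FT.leaf [(nat_lit 8919016)]) FT.nil)) FT.nil))) (FT.cons (FT.cons (FT.cons (FT.leaf [(nat_lit 8513991)]) FT.nil) (FT.cons (FT.cons (FT.leaf [(nat_lit 8914101)]) FT.nil) FT.nil)) (FT.cons (FT.cons (FT.cons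
 (FT.leaf [(nat_lit 9154965)]) FT.nil) FT.nil) (FT.cons (FT.cons (FT.cons (FT.leaf [(nat_lit 9765084)]) FT.nil) FT.nil) (FT.cons (FT.cons (FT.cons (FT.leaf [(nat_lit 10345766)]) FT.nil) FT.nil) (FT.cons (FT.cons (FT.cons (FT.leaf [(nat_lit 10898771)]) FT.nil) FT.nil) FT.nil)))))))) (FT.cons (FT.cons (FT.cons (FT.cons (FT.leaf [(nat_lit 7900325), (nat_lit 8032160), (nat_lit 8167207), (nat_lit 8304609), (nat_lit 8443716), (nat_lit 8584023)]) (FT.cons (FT.leaf [(nat_lit 8144123), (nat_lit 8279150), (nat_lit 8416343), (nat_lit 8555087), (nat_lit 8694904)]) (FT.cons (FT.leaf [(nat_lit 8390562), (nat_lit 8527473), (nat_lit 8665796), (nat_lit 8805075)]) (FT.cons (FT.leaf [(nat_lit 8637971), (nat_lit 8775819)]) (FT.cons (FT.leaf [(nat_lit 8885138)]) (FT.cons (FT.leaf [(nat_lit 9131174)]) FT.nil)))))) (FT.cons (FT.cons (FT.leaf [(nat_lit 8297762), (nat_lit 8431872), (nat_lit 8568020), (nat_lit 8705616), (nat_lit 8844196)]) (FT.cons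 (FT.leaf [(nat_lit 8542194), (nat_lit 8678013), (nat_lit 8815149), (nat_lit 8953165)]) (FT.cons (FT.leaf [(nat_lit 8787357), (nat_lit 8923988)]) (FT.cons (FT.leaf [(nat_lit 9032114)]) (FT.cons (FT.leaf [(nat_lit 9275633)]) FT.nil))))) (FT.cons (FT.cons (FT.leaf
 [(nat_lit 8692048), (nat_lit 8826752), (nat_lit 8962686)]) (FT.cons (FT.leaf [(nat_lit 8934940), (nat_lit 9070344)]) (FT.cons (FT.leaf [(nat_lit 9177285)]) FT.nil))) (FT.cons (FT.cons (FT.leaf [(nat_lit 9080742)]) (FT.cons (FT.leaf [(nat_lit 9320673)]) FT.nil)) FT.nil)))) (FT.cons (FT.cons (FT.cons (FT.leaf [(nat_lit 8548604), (nat_lit 8680262), (nat_lit 8813862), (nat_lit 8948833), (nat_lit 9084732)]) (FT.cons (FT.leaf [(nat_lit 8788318), (nat_lit 8921571), (nat_lit 9056075), (nat_lit 9191409)]) (FT.cons (FT.leaf [(nat_lit 9028639), (nat_lit 9162634)]) (FT.cons (FT.leaf [(nat_lit 9268496)]) FT.nil)))) (FT.cons (FT.cons (FT.leaf [(nat_lit 8934843), (nat_lit 9066995),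 (nat_lit 9200319)]) (FT.cons (FT.leaf [(nat_lit 9172938), (nat_lit 9305731)]) (FT.cons (FT.leaf [(nat_lit 9410443)]) FT.nil))) (FT.cons (FT.cons (FT.leaf [(nat_lit 9315513)]) (FT.cons (FT.leaf [(nat_lit 9550671)]) FT.nil)) FT.nil))) (FT.cons (FT.cons (FT.cons (FT.leaf [(nat_lit 9171820)]) FT.nil) (FT.cons (FT.cons (FT.leaf [(nat_lit 9544753)]) FT.nil) FT.nil)) (FT.cons (FT.cons (FT.cons (FT.leaf [(nat_lit 9768702)]) FT.nil) FT.nil) (FT.cons (FT.cons (FT.cons (FT.leaf [(nat_lit 10339403)]) FT.nil) FT.nil) (FT.cons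
 (FT.cons (FT.cons (FT.leaf [(nat_lit 10884818)]) FT.nil) FT.nil) FT.nil)))))) (FT.cons (FT.cons (FT.cons (FT.cons (FT.leaf [(nat_lit 9197542), (nat_lit 9320799), (nat_lit 9445927)]) (FT.cons (FT.leaf [(nat_lit 9421780), (nat_lit 9546641)]) (FT.cons (FT.leaf [(nat_lit 9646809)]) FT.nil))) (FT.cons (FT.cons (FT.leaf [(nat_lit 9558509)]) (FT.cons (FT.leaf [(nat_lit 9781636)]) FT.nil)) (FT.cons (FT.cons (FT.leaf [(nat_lit 9914974)]) FT.nil) FT.nil))) (FT.cons (FT.cons (FT.cons (FT.leaf [(nat_lit 9779284)]) FT.nil) (FT.cons (FT.cons (FT.leaf [(nat_lit 10129076)]) FT.nil) FT.nil)) (FT.cons (FT.cons (FT.cons (FT.leaf [(nat_lit 10338609)]) FT.nil) FT.nil) (FT.cons (FT.cons (FT.cons (FT.leaf [(nat_lit 10875382)]) FT.nil) FT.nil) FT.nil)))) (FT.cons (FT.cons (FT.cons (FT.cons (FT.leaf [(nat_lit 10344199)]) FT.nil) FT.nil) (FT.cons (FT.cons (FT.cons (FT.leaf [(nat_lit 10871061)]) FT.nil) FT.nil) FT.nil)) (FT.cons (FT.cons (FT.cons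 (FT.cons (FT.leaf [(nat_lit 11371084)]) FT.nil) FT.nil) FT.nil) (FT.cons (FT.cons (FT.cons (FT.cons (FT.leaf [(nat_lit 12300658)]) FT.nil) FT.nil) FT.nil) FT.nil)))))))

def f144_1_922 : FT := (FT.cons (FT.cons (FT.cons (FT.cons (FT.leaf [(nat_lit 4764798), (nat_lit 4905569), (nat_lit 5056745), (nat_lit 5215708), (nat_lit 5380572), (nat_lit 5549901), (nat_lit 5722570), (nat_lit 5897675), (nat_lit 6074479), (nat_lit 6252378), (nat_lit 6430865)]) (FT.cons (FT.leaf [(nat_lit 5042638), (nat_lit 5195915), (nat_lit 5356296), (nat_lit 5522018), (nat_lit 5691747), (nat_lit 5864436), (nat_lit 6039248), (nat_lit 6215499), (nat_lit 6392627), (nat_lit 6570167)]) (FT.cons (FT.leaf [(nat_lit 5335394), (nat_lit 5496850), (nat_lit 5663155), (nat_lit 5833060), (nat_lit 6005588), (nat_lit 6179960), (nat_lit 6355537), (nat_lit 6531801), (nat_lit 6708318)]) (FT.cons (FT.leaf [(nat_lit 5637191), (nat_lit 5803840), (nat_lit 5973727), (nat_lit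 6145936), (nat_lit 6319738), (nat_lit 6494541), (nat_lit 6669858)]) (FT.cons (FT.leaf [(nat_lit 5943952), (nat_lit 6113651), (nat_lit 6285404), (nat_lit 6458527), (nat_lit 6632466)]) (FT.cons (FT.leaf [(nat_lit 6252751), (nat_lit 6423929), (nat_lit 6596277), (nat_lit 6769276)]) (FT.cons (FT.leaf [(nat_lit 6561458), (nat_lit 6732949)]) (FT.cons (FT.leaf [(nat_lit 6868509)]) (FT.cons (FT.leaf [(nat_lit 7172756)]) FT.nil))))))))) (FT.cons (FT.cons (FT.leaf
 [(nat_lit 5240866), (nat_lit 5394400), (nat_lit 5554549), (nat_lit 5719623), (nat_lit 5888350), (nat_lit 6059743), (nat_lit 6233011), (nat_lit 6407516), (nat_lit 6582734), (nat_lit 6758232)]) (FT.cons (FT.leaf [(nat_lit 5533079), (nat_lit 5694037), (nat_lit 5859475), (nat_lit 6028201), (nat_lit 6199290), (nat_lit 6372006), (nat_lit 6545753), (nat_lit 6720040), (nat_lit 6894467)]) (FT.cons (FT.leaf [(nat_lit 5833167), (nat_lit 5998762), (nat_lit 6167319), (nat_lit 6337969),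 (nat_lit 6510022), (nat_lit 6682921), (nat_lit 6856209)]) (FT.cons (FT.leaf [(nat_lit 6137381), (nat_lit 6305623), (nat_lit 6475715), (nat_lit 6647010), (nat_lit 6818987)]) (FT.cons (FT.leaf [(nat_lit 6443045), (nat_lit 6612477), (nat_lit 6782934), (nat_lit 6953923)]) (FT.cons (FT.leaf [(nat_lit 6748213), (nat_lit 6917758)]) (FT.cons (FT.leaf [(nat_lit 7051459)]) (FT.cons (FT.leaf [(nat_lit 7351741)]) FT.nil)))))))) (FT.cons (FT.cons (FT.leaf [(nat_lit 5728647), (nat_lit 5888893), (nat_lit 6053293), (nat_lit 6220707), (nat_lit 6390256), (nat_lit 6561244)]) (FT.cons (FT.leaf [(nat_lit 6026701), (nat_lit 6191100), (nat_lit 6358219), (nat_lit 6527229), (nat_lit 6697477)]) (FT.cons (FT.leaf [(nat_lit 6328165),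
 (nat_lit 6494861), (nat_lit 6663230), (nat_lit 6832657)]) (FT.cons (FT.leaf [(nat_lit 6630577), (nat_lit 6798216)]) (FT.cons (FT.leaf [(nat_lit 6932152)]) (FT.cons (FT.leaf [(nat_lit 7231587)]) FT.nil)))))) (FT.cons (FT.cons (FT.leaf [(nat_lit 6217724), (nat_lit 6380815), (nat_lit 6546410), (nat_lit 6713719), (nat_lit 6882121)]) (FT.cons (FT.leaf [(nat_lit 6516280), (nat_lit 6681363), (nat_lit 6847962), (nat_lit 7015491)]) (FT.cons (FT.leaf [(nat_lit 6815355), (nat_lit 6981167)]) (FT.cons (FT.leaf [(nat_lit 7113307)]) (FT.cons (FT.leaf [(nat_lit 7408939)]) FT.nil))))) (FT.cons (FT.cons (FT.leaf [(nat_lit 6701718), (nat_lit 6865136), (nat_lit 7029932)]) (FT.cons (FT.leaf [(nat_lit 6997397), (nat_lit 7161360)]) (FT.cons (FT.leaf [(nat_lit 7291713)]) FT.nil))) (FT.cons (FT.cons (FT.leaf [(nat_lit 7176731)]) (FT.cons (FT.leaf [(nat_lit 7467413)]) FT.nil)) (FT.cons (FT.cons (FT.leaf [(nat_lit 7640453)]) FT.nil) FT.nil)))))))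 (FT.cons (FT.cons (FT.cons (FT.leaf [(nat_lit 5578542), (nat_lit 5729550), (nat_lit 5886748), (nat_lit 6048513), (nat_lit 6213637), (nat_lit 6381185), (nat_lit 6550420), (nat_lit 6720746)]) (FT.cons (FT.leaf [(nat_lit 5865213), (nat_lit 6023023), (nat_lit 6184999),
 (nat_lit 6350004), (nat_lit 6517165), (nat_lit 6685791), (nat_lit 6855324)]) (FT.cons (FT.leaf [(nat_lit 6158849), (nat_lit 6320856), (nat_lit 6485598), (nat_lit 6652256), (nat_lit 6820179)]) (FT.cons (FT.leaf [(nat_lit 6456000), (nat_lit 6620355), (nat_lit 6786408), (nat_lit 6953548)]) (FT.cons (FT.leaf [(nat_lit 6754218), (nat_lit 6919578)]) (FT.cons (FT.leaf [(nat_lit 7051732)]) (FT.cons (FT.leaf [(nat_lit 7347252)]) FT.nil))))))) (FT.cons (FT.cons (FT.leaf [(nat_lit 6055713), (nat_lit 6212683), (nat_lit 6373532), (nat_lit 6537172), (nat_lit 6702771), (nat_lit 6869671)]) (FT.cons (FT.leaf [(nat_lit 6347146), (nat_lit 6507896), (nat_lit 6671170), (nat_lit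 6836183), (nat_lit 7002320)]) (FT.cons (FT.leaf [(nat_lit 6641488), (nat_lit 6804286), (nat_lit 6968627), (nat_lit 7133930)]) (FT.cons (FT.leaf [(nat_lit 6936476), (nat_lit 7100068)]) (FT.cons (FT.leaf [(nat_lit 7230478)]) (FT.cons (FT.leaf [(nat_lit 7522307)]) FT.nil)))))) (FT.cons (FT.cons (FT.leaf [(nat_lit 6532960), (nat_lit 6692364), (nat_lit 6854104), (nat_lit 7017429), (nat_lit 7181752)]) (FT.cons (FT.leaf [(nat_lit 6824374), (nat_lit 6985565), (nat_lit 7148162), (nat_lit 7311611)]) (FT.cons (FT.leaf [(nat_lit 7116074),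
 (nat_lit 7277877)]) (FT.cons (FT.leaf [(nat_lit 7406551)]) (FT.cons (FT.leaf [(nat_lit 7694708)]) FT.nil))))) (FT.cons (FT.cons (FT.leaf [(nat_lit 7004664), (nat_lit 7164211), (nat_lit 7325042)]) (FT.cons (FT.leaf [(nat_lit 7293039), (nat_lit 7453039)]) (FT.cons (FT.leaf [(nat_lit 7579991)]) FT.nil))) (FT.cons (FT.cons (FT.leaf [(nat_lit 7467403)]) (FT.cons (FT.leaf [(nat_lit 7750842)]) FT.nil)) (FT.cons (FT.cons (FT.leaf [(nat_lit 7919151)]) FT.nil) FT.nil)))))) (FT.cons (FT.cons (FT.cons (FT.leaf [(nat_lit 6372915), (nat_lit 6526621), (nat_lit 6683968), (nat_lit 6843917), (nat_lit 7005677), (nat_lit 7168628)]) (FT.cons (FT.leaf [(nat_lit 6657817), (nat_lit 6814989), (nat_lit 6974521), (nat_lit 7135666), (nat_lit 7297841)]) (FT.cons (FT.leaf [(nat_lit 6945225), (nat_lit 7104244), (nat_lit 7264699), (nat_lit 7426036)]) (FT.cons (FT.leaf [(nat_lit 7233048), (nat_lit 7392745)]) FT.nil)))) (FT.cons (FT.cons (FT.leaf [(nat_lit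 6838610), (nat_lit 6994423), (nat_lit 7152428), (nat_lit 7311909), (nat_lit 7472311)]) (FT.cons (FT.leaf [(nat_lit 7123105), (nat_lit 7280537), (nat_lit 7439282), (nat_lit 7598815)]) (FT.cons (FT.leaf [(nat_lit 7407708), (nat_lit 7565661)]) FT.nil))) (FT.cons
 (FT.cons (FT.leaf [(nat_lit 7298476), (nat_lit 7454293)]) (FT.cons (FT.leaf [(nat_lit 7579838)]) FT.nil)) (FT.cons (FT.cons (FT.leaf [(nat_lit 7749474)]) FT.nil) (FT.cons (FT.cons (FT.leaf [(nat_lit 8189811)]) FT.nil) FT.nil))))) (FT.cons (FT.cons (FT.cons (FT.leaf [(nat_lit 7135145), (nat_lit 7287471), (nat_lit 7441868)]) (FT.cons (FT.leaf [(nat_lit 7412955), (nat_lit 7566764)]) (FT.cons (FT.leaf [(nat_lit 7690742)]) FT.nil))) (FT.cons (FT.cons (FT.leaf [(nat_lit 7583631)]) (FT.cons (FT.leaf [(nat_lit 7858270)]) FT.nil)) (FT.cons (FT.cons (FT.leaf [(nat_lit 8023407)]) FT.nil) FT.nil))) (FT.cons (FT.cons (FT.cons (FT.leaf [(nat_lit 7860590)]) FT.nil) (FT.cons (FT.cons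 (FT.leaf [(nat_lit 8289638)]) FT.nil) FT.nil)) (FT.cons (FT.cons (FT.cons (FT.leaf [(nat_lit 8548570)]) FT.nil) FT.nil) (FT.cons (FT.cons (FT.cons (FT.leaf [(nat_lit 9200333)]) FT.nil) FT.nil) FT.nil))))))) (FT.cons (FT.cons (FT.cons (FT.cons (FT.leaf [(nat_lit 6487109), (nat_lit 6625245), (nat_lit 6769032), (nat_lit 6917014), (nat_lit 7068117), (nat_lit 7221514), (nat_lit 7376553), (nat_lit 7532706)]) (FT.cons (FT.leaf [(nat_lit 6748882), (nat_lit 6893266), (nat_lit 7041502), (nat_lit 7192576), (nat_lit 7345715),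
 (nat_lit 7500305), (nat_lit 7655852)]) (FT.cons (FT.leaf [(nat_lit 7017158), (nat_lit 7165496), (nat_lit 7316421), (nat_lit 7469204), (nat_lit 7623265)]) (FT.cons (FT.leaf [(nat_lit 7288928), (nat_lit 7439598), (nat_lit 7591937), (nat_lit 7745402)]) (FT.cons (FT.leaf [(nat_lit 7562058), (nat_lit 7713880)]) (FT.cons (FT.leaf [(nat_lit 7835001)]) FT.nil)))))) (FT.cons (FT.cons (FT.leaf [(nat_lit 6921932), (nat_lit 7065673), (nat_lit 7213025), (nat_lit 7363015), (nat_lit 7514902), (nat_lit 7668102)]) (FT.cons (FT.leaf [(nat_lit 7188461), (nat_lit 7335807), (nat_lit 7485560), (nat_lit 7637022), (nat_lit 7789641)]) (FT.cons (FT.leaf [(nat_lit 7457977), (nat_lit 7607401), (nat_lit 7758361), (nat_lit 7910338)]) (FT.cons (FT.leaf [(nat_lit 7728496), (nat_lit 7878890)]) (FT.cons (FT.leaf [(nat_lit 7998581)]) FT.nil))))) (FT.cons (FT.cons (FT.leaf [(nat_lit 7357737), (nat_lit 7504016), (nat_lit 7652543), (nat_lit 7802644), (nat_lit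 7953794)]) (FT.cons (FT.leaf [(nat_lit 7624899), (nat_lit 7773032), (nat_lit 7922583), (nat_lit 8073054)]) (FT.cons (FT.leaf [(nat_lit 7892754), (nat_lit 8041696)]) FT.nil))) (FT.cons (FT.cons (FT.leaf [(nat_lit 7789695), (nat_lit 7936503)]) (FT.cons (FT.leaf
 [(nat_lit 8054847)]) FT.nil)) (FT.cons (FT.cons (FT.leaf [(nat_lit 8214797)]) FT.nil) (FT.cons (FT.cons (FT.leaf [(nat_lit 8631194)]) FT.nil) FT.nil)))))) (FT.cons (FT.cons (FT.cons (FT.leaf [(nat_lit 7209078), (nat_lit 7350170), (nat_lit 7494674), (nat_lit 7641658), (nat_lit 7790412), (nat_lit 7940380)]) (FT.cons (FT.leaf [(nat_lit 7470293), (nat_lit 7614727), (nat_lit 7761429), (nat_lit 7909727), (nat_lit 8059099)]) (FT.cons (FT.leaf [(nat_lit 7734153), (nat_lit 7880490), (nat_lit 8028267), (nat_lit 8176988)]) (FT.cons (FT.leaf [(nat_lit 7998807), (nat_lit 8146005)]) FT.nil)))) (FT.cons (FT.cons (FT.leaf [(nat_lit 7635472), (nat_lit 7778823), (nat_lit 7924296),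 (nat_lit 8071246), (nat_lit 8219174)]) (FT.cons (FT.leaf [(nat_lit 7896978), (nat_lit 8042033), (nat_lit 8188421), (nat_lit 8335667)]) (FT.cons (FT.leaf [(nat_lit 8159010), (nat_lit 8304784)]) FT.nil))) (FT.cons (FT.cons (FT.leaf [(nat_lit 8057739), (nat_lit 8201485)]) (FT.cons (FT.leaf [(nat_lit 8317121)]) FT.nil)) (FT.cons (FT.cons (FT.leaf [(nat_lit 8473166)]) FT.nil) (FT.cons (FT.cons (FT.leaf [(nat_lit 8880087)]) FT.nil) FT.nil))))) (FT.cons (FT.cons (FT.cons (FT.leaf [(nat_lit 7905779), (nat_lit 8046269), (nat_lit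
 8188776)]) (FT.cons (FT.leaf [(nat_lit 8161790), (nat_lit 8303861)]) (FT.cons (FT.leaf [(nat_lit 8418197)]) FT.nil))) (FT.cons (FT.cons (FT.leaf [(nat_lit 8318679)]) (FT.cons (FT.leaf [(nat_lit 8572496)]) FT.nil)) (FT.cons (FT.cons (FT.leaf [(nat_lit 8724804)]) FT.nil) FT.nil))) (FT.cons (FT.cons (FT.cons (FT.leaf [(nat_lit 8572845)]) FT.nil) (FT.cons (FT.cons (FT.leaf [(nat_lit 8970033)]) FT.nil) FT.nil)) (FT.cons (FT.cons (FT.cons (FT.leaf [(nat_lit 9209156)]) FT.nil) FT.nil) (FT.cons (FT.cons (FT.cons (FT.leaf [(nat_lit 9815221)]) FT.nil) FT.nil) FT.nil)))))) (FT.cons (FT.cons (FT.cons (FT.cons (FT.leaf [(nat_lit 7963545), (nat_lit 8094350), (nat_lit 8228360), (nat_lit 8364725), (nat_lit 8502801), (nat_lit 8642087)]) (FT.cons (FT.leaf [(nat_lit 8205439), (nat_lit 8339444), (nat_lit 8475617), (nat_lit 8613348), (nat_lit 8752162)]) (FT.cons (FT.leaf [(nat_lit 8450015), (nat_lit 8585923), (nat_lit 8723250), (nat_lit 8861544)])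 (FT.cons (FT.leaf [(nat_lit 8695612), (nat_lit 8832482)]) FT.nil)))) (FT.cons (FT.cons (FT.leaf [(nat_lit 8357881), (nat_lit 8490997), (nat_lit 8626154), (nat_lit 8762765), (nat_lit 8900372)]) (FT.cons (FT.leaf [(nat_lit 8600502), (nat_lit 8735347), (nat_lit
 8871517), (nat_lit 9008577)]) (FT.cons (FT.leaf [(nat_lit 8843908), (nat_lit 8979590)]) FT.nil))) (FT.cons (FT.cons (FT.leaf [(nat_lit 8749251)]) (FT.cons (FT.leaf [(nat_lit 8990437)]) FT.nil)) (FT.cons (FT.cons (FT.leaf [(nat_lit 9135217)]) FT.nil) FT.nil)))) (FT.cons (FT.cons (FT.cons (FT.leaf [(nat_lit 8606776), (nat_lit 8737494), (nat_lit 8870155)]) (FT.cons (FT.leaf [(nat_lit 8844779), (nat_lit 8977110)]) (FT.cons (FT.leaf [(nat_lit 9083437)]) FT.nil))) (FT.cons (FT.cons (FT.leaf [(nat_lit 8990261)]) (FT.cons (FT.leaf [(nat_lit 9226741)]) FT.nil)) (FT.cons (FT.cons (FT.leaf [(nat_lit 9368352)]) FT.nil) FT.nil))) (FT.cons (FT.cons (FT.cons (FT.leaf [(nat_lit 9225557)])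 FT.nil) (FT.cons (FT.cons (FT.leaf [(nat_lit 9596048)]) FT.nil) FT.nil)) (FT.cons (FT.cons (FT.cons (FT.leaf [(nat_lit 9818539)]) FT.nil) FT.nil) FT.nil)))) (FT.cons (FT.cons (FT.cons (FT.cons (FT.leaf [(nat_lit 9250761), (nat_lit 9373229), (nat_lit 9497567)]) (FT.cons (FT.leaf [(nat_lit 9473562), (nat_lit 9597645)]) (FT.cons (FT.leaf [(nat_lit 9697189)]) FT.nil))) (FT.cons (FT.cons (FT.leaf [(nat_lit 9609414)]) (FT.cons (FT.leaf [(nat_lit 9831175)]) FT.nil)) (FT.cons (FT.cons (FT.leaf [(nat_lit 9963698)])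
 FT.nil) FT.nil))) (FT.cons (FT.cons (FT.cons (FT.leaf [(nat_lit 9828774)]) FT.nil) (FT.cons (FT.cons (FT.leaf [(nat_lit 10176492)]) FT.nil) FT.nil)) FT.nil)) (FT.cons (FT.cons (FT.cons (FT.cons (FT.leaf [(nat_lit 10390104)]) FT.nil) FT.nil) FT.nil) (FT.cons (FT.cons (FT.cons (FT.cons (FT.leaf [(nat_lit 11411420)]) FT.nil) FT.nil) FT.nil) (FT.cons (FT.cons (FT.cons (FT.cons (FT.leaf [(nat_lit 12336616)]) FT.nil) FT.nil) FT.nil) FT.nil)))))))

def f152_1_0 : FT := (FT.cons (FT.cons (FT.cons (FT.cons (FT.leaf [(nat_lit 2279549), (nat_lit 2415617), (nat_lit 2572729), (nat_lit 2745844), (nat_lit 2931335), (nat_lit 3126408), (nat_lit 3328839), (nat_lit 3536818), (nat_lit 3748857), (nat_lit 3963726), (nat_lit 4180406), (nat_lit 4398047), (nat_lit 4615948)]) (FT.cons (FT.leaf [(nat_lit 2570883), (nat_lit 2734346), (nat_lit 2912249), (nat_lit 3101212), (nat_lit 3298655), (nat_lit 3502535), (nat_lit 3711194), (nat_lit 3923277),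 (nat_lit 4137665), (nat_lit 4353431), (nat_lit 4569809), (nat_lit 4786165)]) (FT.cons (FT.leaf [(nat_lit 2898583), (nat_lit 3080314), (nat_lit 3271971), (nat_lit 3471150), (nat_lit 3675962), (nat_lit 3884886), (nat_lit 4096678), (nat_lit 4310317), (nat_lit 4524961), (nat_lit 4739913)]) (FT.cons (FT.leaf [(nat_lit 3249459), (nat_lit 3443149), (nat_lit 3643526), (nat_lit 3848834), (nat_lit 4057668), (nat_lit 4268885), (nat_lit 4481552), (nat_lit 4694898), (nat_lit 4908288)]) (FT.cons (FT.leaf [(nat_lit 3614365), (nat_lit 3815480), (nat_lit 4020911), (nat_lit 4229354), (nat_lit 4439757), (nat_lit 4651262), (nat_lit 4863162)]) (FT.cons (FT.leaf [(nat_lit 3986759), (nat_lit 4191993), (nat_lit 4399791), (nat_lit 4609178), (nat_lit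
 4819362)]) (FT.cons (FT.leaf [(nat_lit 4361920), (nat_lit 4568854), (nat_lit 4777053), (nat_lit 4985785)]) (FT.cons (FT.leaf [(nat_lit 4736443), (nat_lit 4943309)]) (FT.cons (FT.leaf [(nat_lit 5107893)]) (FT.cons (FT.leaf [(nat_lit 5474546)]) FT.nil)))))))))) (FT.cons (FT.cons (FT.leaf [(nat_lit 2810444), (nat_lit 2977067), (nat_lit 3156987), (nat_lit 3346927), (nat_lit 3544438), (nat_lit 3747609), (nat_lit 3954909), (nat_lit 4165093), (nat_lit 4377143), (nat_lit 4590219), (nat_lit 4803630)]) (FT.cons (FT.leaf [(nat_lit 3142008), (nat_lit 3324954), (nat_lit 3516919), (nat_lit 3715617), (nat_lit 3919277), (nat_lit 4126487), (nat_lit 4336104), (nat_lit 4547194), (nat_lit 4758990), (nat_lit 4970861)]) (FT.cons (FT.leaf [(nat_lit 3493489), (nat_lit 3686925), (nat_lit 3886361), (nat_lit 4090146), (nat_lit 4296974), (nat_lit 4505789), (nat_lit 4715735), (nat_lit 4926107), (nat_lit 5136331)]) (FT.cons (FT.leaf [(nat_lit 3856637),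 (nat_lit 4056425), (nat_lit 4260024), (nat_lit 4466220), (nat_lit 4674036), (nat_lit 4882682), (nat_lit 5091513)]) (FT.cons (FT.leaf [(nat_lit 4225605), (nat_lit 4428752), (nat_lit 4634103), (nat_lit 4840754), (nat_lit 5047972)]) (FT.cons (FT.leaf [(nat_lit
 4596200), (nat_lit 4800527), (nat_lit 5005871), (nat_lit 5211555)]) (FT.cons (FT.leaf [(nat_lit 4965413), (nat_lit 5169332)]) (FT.cons (FT.leaf [(nat_lit 5331096)]) (FT.cons (FT.leaf [(nat_lit 5691734)]) FT.nil))))))))) (FT.cons (FT.cons (FT.leaf [(nat_lit 3383912), (nat_lit 3567355), (nat_lit 3759037), (nat_lit 3956781), (nat_lit 4158916), (nat_lit 4364130), (nat_lit 4571363), (nat_lit 4779759), (nat_lit 4988615), (nat_lit 5197358)]) (FT.cons (FT.leaf [(nat_lit 3734830), (nat_lit 3927525), (nat_lit 4125632), (nat_lit 4327595), (nat_lit 4532192), (nat_lit 4738445), (nat_lit 4945565), (nat_lit 5152905), (nat_lit 5359938)]) (FT.cons (FT.leaf [(nat_lit 4095456), (nat_lit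 4293603), (nat_lit 4495133), (nat_lit 4698906), (nat_lit 4904016), (nat_lit 5109733), (nat_lit 5315461)]) (FT.cons (FT.leaf [(nat_lit 4460529), (nat_lit 4661402), (nat_lit 4864175), (nat_lit 5068006), (nat_lit 5272214)]) (FT.cons (FT.leaf [(nat_lit 4826301), (nat_lit 5027924), (nat_lit 5230359), (nat_lit 5432973)]) (FT.cons (FT.leaf [(nat_lit 5190094), (nat_lit 5391034)]) (FT.cons (FT.leaf [(nat_lit 5550001)]) (FT.cons (FT.leaf [(nat_lit 5904697)]) FT.nil)))))))) (FT.cons (FT.cons (FT.leaf [(nat_lit 3973105),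
 (nat_lit 4164676), (nat_lit 4361154), (nat_lit 4561066), (nat_lit 4763267), (nat_lit 4966847), (nat_lit 5171073), (nat_lit 5375350)]) (FT.cons (FT.leaf [(nat_lit 4330622), (nat_lit 4526887), (nat_lit 4726167), (nat_lit 4927393), (nat_lit 5129719), (nat_lit 5332465), (nat_lit 5535081)]) (FT.cons (FT.leaf [(nat_lit 4691451), (nat_lit 4889913), (nat_lit 5090018), (nat_lit 5290976), (nat_lit 5492156)]) (FT.cons (FT.leaf [(nat_lit 5052222), (nat_lit 5251080), (nat_lit 5450577), (nat_lit 5650123)]) (FT.cons (FT.leaf [(nat_lit 5410535), (nat_lit 5608493)]) (FT.cons (FT.leaf [(nat_lit 5764702)]) FT.nil)))))) (FT.cons (FT.cons (FT.leaf [(nat_lit 4562002), (nat_lit 4756202), (nat_lit 4953103), (nat_lit 5151697), (nat_lit 5351190)]) (FT.cons (FT.leaf [(nat_lit 4918335), (nat_lit 5114288), (nat_lit 5311667), (nat_lit 5509728)]) (FT.cons (FT.leaf [(nat_lit 5273992), (nat_lit 5470051)]) (FT.cons (FT.leaf [(nat_lit 5626816)]) (FT.cons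 (FT.leaf [(nat_lit 5975293)]) FT.nil))))) (FT.cons (FT.cons (FT.leaf [(nat_lit 5141179), (nat_lit 5334560), (nat_lit 5529180)]) (FT.cons (FT.leaf [(nat_lit 5491660), (nat_lit 5684907)]) (FT.cons (FT.leaf [(nat_lit 5839014)]) FT.nil))) (FT.cons (FT.cons (FT.leaf
 [(nat_lit 5705293)]) (FT.cons (FT.leaf [(nat_lit 6047219)]) FT.nil)) (FT.cons (FT.cons (FT.leaf [(nat_lit 6251529)]) FT.nil) (FT.cons (FT.cons (FT.leaf [(nat_lit 6778631)]) FT.nil) FT.nil))))))))) (FT.cons (FT.cons (FT.cons (FT.leaf [(nat_lit 3239598), (nat_lit 3404771), (nat_lit 3582196), (nat_lit 3768701), (nat_lit 3961966), (nat_lit 4160211), (nat_lit 4362034), (nat_lit 4566306), (nat_lit 4772109), (nat_lit 4978695), (nat_lit 5185447), (nat_lit 5391855), (nat_lit 5597504)]) (FT.cons (FT.leaf [(nat_lit 3566577), (nat_lit 3746374), (nat_lit 3934365), (nat_lit 4128387), (nat_lit 4326791), (nat_lit 4528281), (nat_lit 4731815), (nat_lit 4936552), (nat_lit 5141803),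 (nat_lit 5347004), (nat_lit 5551692), (nat_lit 5755484)]) (FT.cons (FT.leaf [(nat_lit 3910725), (nat_lit 4099744), (nat_lit 4294156), (nat_lit 4492424), (nat_lit 4693344), (nat_lit 4895954), (nat_lit 5099479), (nat_lit 5303283), (nat_lit 5506850), (nat_lit 5709755)]) (FT.cons (FT.leaf [(nat_lit 4264595), (nat_lit 4459081), (nat_lit 4656961), (nat_lit 4857111), (nat_lit 5058640), (nat_lit 5260829), (nat_lit 5463095), (nat_lit 5664960), (nat_lit 5866034)]) (FT.cons (FT.leaf [(nat_lit 4623007), (nat_lit 4820280), (nat_lit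
 5019490), (nat_lit 5219804), (nat_lit 5420557), (nat_lit 5621207), (nat_lit 5821316)]) (FT.cons (FT.leaf [(nat_lit 4982286), (nat_lit 5180408), (nat_lit 5379396), (nat_lit 5578628), (nat_lit 5777601)]) (FT.cons (FT.leaf [(nat_lit 5339806), (nat_lit 5537375), (nat_lit 5735016), (nat_lit 5932263)]) (FT.cons (FT.leaf [(nat_lit 5693709), (nat_lit 5889703)]) (FT.cons (FT.leaf [(nat_lit 6042681)]) FT.nil))))))))) (FT.cons (FT.cons (FT.leaf [(nat_lit 3801830), (nat_lit 3981575), (nat_lit 4168855), (nat_lit 4361606), (nat_lit 4558270), (nat_lit 4757635), (nat_lit 4958732), (nat_lit 5160781), (nat_lit 5363150), (nat_lit 5565319), (nat_lit 5766863)]) (FT.cons (FT.leaf [(nat_lit 4144560), (nat_lit 4332507), (nat_lit 4525357), (nat_lit 4721657), (nat_lit 4920275), (nat_lit 5120315), (nat_lit 5321056), (nat_lit 5521912), (nat_lit 5722408), (nat_lit 5922151)]) (FT.cons (FT.leaf [(nat_lit 4495437), (nat_lit 4688120), (nat_lit 4883841),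 (nat_lit 5081545), (nat_lit 5280397), (nat_lit 5479728), (nat_lit 5678998), (nat_lit 5877766), (nat_lit 6075672)]) (FT.cons (FT.leaf [(nat_lit 4849767), (nat_lit 5044726), (nat_lit 5241373), (nat_lit 5438927), (nat_lit 5636766), (nat_lit 5834388), (nat_lit
 6031386)]) (FT.cons (FT.leaf [(nat_lit 5204235), (nat_lit 5399701), (nat_lit 5595865), (nat_lit 5792143), (nat_lit 5988068)]) (FT.cons (FT.leaf [(nat_lit 5556485), (nat_lit 5751181), (nat_lit 5945842), (nat_lit 6140033)]) (FT.cons (FT.leaf [(nat_lit 5904856), (nat_lit 6097855)]) (FT.cons (FT.leaf [(nat_lit 6248178)]) FT.nil)))))))) (FT.cons (FT.cons (FT.leaf [(nat_lit 4375151), (nat_lit 4561744), (nat_lit 4752816), (nat_lit 4946987), (nat_lit 5143191), (nat_lit 5340590), (nat_lit 5538512), (nat_lit 5736413)]) (FT.cons (FT.leaf [(nat_lit 4722616), (nat_lit 4913323), (nat_lit 5106763), (nat_lit 5301939), (nat_lit 5498068), (nat_lit 5694526), (nat_lit 5890809)]) (FT.cons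 (FT.leaf [(nat_lit 5072626), (nat_lit 5265180), (nat_lit 5459208), (nat_lit 5653977), (nat_lit 5848903)]) (FT.cons (FT.leaf [(nat_lit 5422175), (nat_lit 5614955), (nat_lit 5808287), (nat_lit 6001626)]) (FT.cons (FT.leaf [(nat_lit 5769144), (nat_lit 5960977)]) (FT.cons (FT.leaf [(nat_lit 6112034)]) FT.nil)))))) (FT.cons (FT.cons (FT.leaf [(nat_lit 4946064), (nat_lit 5134666), (nat_lit 5325736), (nat_lit 5518333), (nat_lit 5711717), (nat_lit 5905303)]) (FT.cons (FT.leaf [(nat_lit 5291585), (nat_lit 5481673), (nat_lit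
 5673051), (nat_lit 5865029), (nat_lit 6057059)]) (FT.cons (FT.leaf [(nat_lit 5636160), (nat_lit 5826236), (nat_lit 6016745), (nat_lit 6207173)]) (FT.cons (FT.leaf [(nat_lit 5977862), (nat_lit 6166851)]) (FT.cons (FT.leaf [(nat_lit 6315339)]) FT.nil))))) (FT.cons (FT.cons (FT.leaf [(nat_lit 5506673), (nat_lit 5694256), (nat_lit 5882971), (nat_lit 6072167), (nat_lit 6261326)]) (FT.cons (FT.leaf [(nat_lit 5846250), (nat_lit 6033625), (nat_lit 6221331), (nat_lit 6408884)]) (FT.cons (FT.leaf [(nat_lit 6182726), (nat_lit 6368901)]) FT.nil))) (FT.cons (FT.cons (FT.leaf [(nat_lit 6052518), (nat_lit 6237206)]) (FT.cons (FT.leaf [(nat_lit 6383825)]) FT.nil)) (FT.cons (FT.cons (FT.leaf [(nat_lit 6581256)]) FT.nil) (FT.cons (FT.cons (FT.leaf [(nat_lit 7091861)]) FT.nil) (FT.cons (FT.cons (FT.leaf [(nat_lit 7584116)]) FT.nil) FT.nil))))))))) (FT.cons (FT.cons (FT.cons (FT.leaf [(nat_lit 4204690), (nat_lit 4380460), (nat_lit 4563186),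 (nat_lit 4750908), (nat_lit 4942165), (nat_lit 5135828), (nat_lit 5331005), (nat_lit 5526981), (nat_lit 5723175), (nat_lit 5919118)]) (FT.cons (FT.leaf [(nat_lit 4538896), (nat_lit 4722038), (nat_lit 4909674), (nat_lit 5100436), (nat_lit 5293273), (nat_lit
 5487354), (nat_lit 5682017), (nat_lit 5876724), (nat_lit 6071041)]) (FT.cons (FT.leaf [(nat_lit 4880066), (nat_lit 5067391), (nat_lit 5257482), (nat_lit 5449353), (nat_lit 5642232), (nat_lit 5835501), (nat_lit 6028662)]) (FT.cons (FT.leaf [(nat_lit 5223956), (nat_lit 5413226), (nat_lit 5604015), (nat_lit 5795601), (nat_lit 5987409)]) (FT.cons (FT.leaf [(nat_lit 5567606), (nat_lit 5757214), (nat_lit 5947432), (nat_lit 6137724)]) (FT.cons (FT.leaf [(nat_lit 5908916), (nat_lit 6097705)]) (FT.cons (FT.leaf [(nat_lit 6246405)]) FT.nil))))))) (FT.cons (FT.cons (FT.leaf [(nat_lit 4761981), (nat_lit 4943632), (nat_lit 5129413), (nat_lit 5318024), (nat_lit 5508472), (nat_lit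 5699974), (nat_lit 5891912), (nat_lit 6083783)]) (FT.cons (FT.leaf [(nat_lit 5099583), (nat_lit 5284899), (nat_lit 5472720), (nat_lit 5662115), (nat_lit 5852355), (nat_lit 6042861), (nat_lit 6233166)]) (FT.cons (FT.leaf [(nat_lit 5439170), (nat_lit 5626074), (nat_lit 5814318), (nat_lit 6003220), (nat_lit 6192238)]) (FT.cons (FT.leaf [(nat_lit 5778036), (nat_lit 5965046), (nat_lit 6152548), (nat_lit 6340035)]) (FT.cons (FT.leaf [(nat_lit 6114276), (nat_lit 6300326)]) (FT.cons (FT.leaf [(nat_lit 6446546)]) FT.nil))))))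
 (FT.cons (FT.cons (FT.leaf [(nat_lit 5315473), (nat_lit 5498686), (nat_lit 5684180), (nat_lit 5871069), (nat_lit 6058664), (nat_lit 6246420)]) (FT.cons (FT.leaf [(nat_lit 5650647), (nat_lit 5835146), (nat_lit 6020833), (nat_lit 6207058), (nat_lit 6393311)]) (FT.cons (FT.leaf [(nat_lit 5984706), (nat_lit 6169119), (nat_lit 6353923), (nat_lit 6538637)]) (FT.cons (FT.leaf [(nat_lit 6315911), (nat_lit 6499251)]) (FT.cons (FT.leaf [(nat_lit 6643040)]) FT.nil))))) (FT.cons (FT.cons (FT.leaf [(nat_lit 5858429), (nat_lit 6040504), (nat_lit 6223633), (nat_lit 6407198), (nat_lit 6590719)]) (FT.cons (FT.leaf [(nat_lit 6187685), (nat_lit 6369512), (nat_lit 6551645), (nat_lit 6733627)]) (FT.cons (FT.leaf [(nat_lit 6513908), (nat_lit 6694573)]) FT.nil))) (FT.cons (FT.cons (FT.leaf [(nat_lit 6387049), (nat_lit 6566313)]) (FT.cons (FT.leaf [(nat_lit 6708358)]) FT.nil)) (FT.cons (FT.cons (FT.leaf [(nat_lit 6899351)]) FT.nil) (FT.cons (FT.cons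 (FT.leaf [(nat_lit 7394477)]) FT.nil) (FT.cons (FT.cons (FT.leaf [(nat_lit 7872266)]) FT.nil) FT.nil)))))))) (FT.cons (FT.cons (FT.cons (FT.leaf [(nat_lit 5134383), (nat_lit 5311198), (nat_lit 5491855), (nat_lit 5675125), (nat_lit 5860072), (nat_lit 6045970),
 (nat_lit 6232238), (nat_lit 6418413)]) (FT.cons (FT.leaf [(nat_lit 5462422), (nat_lit 5642546), (nat_lit 5824993), (nat_lit 6008885), (nat_lit 6193540), (nat_lit 6378416), (nat_lit 6563081)]) (FT.cons (FT.leaf [(nat_lit 5792033), (nat_lit 5973549), (nat_lit 6156303), (nat_lit 6339653), (nat_lit 6523092)]) (FT.cons (FT.leaf [(nat_lit 6120755), (nat_lit 6302300), (nat_lit 6484294), (nat_lit 6666261)]) (FT.cons (FT.leaf [(nat_lit 6446859), (nat_lit 6627455)]) (FT.cons (FT.leaf [(nat_lit 6769130)]) FT.nil)))))) (FT.cons (FT.cons (FT.leaf [(nat_lit 5671143), (nat_lit 5849196), (nat_lit 6029376), (nat_lit 6210847), (nat_lit 6392964), (nat_lit 6575214)]) (FT.cons (FT.leaf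 [(nat_lit 5996455), (nat_lit 6175644), (nat_lit 6355938), (nat_lit 6536728), (nat_lit 6717533)]) (FT.cons (FT.leaf [(nat_lit 6320556), (nat_lit 6499613), (nat_lit 6679033), (nat_lit 6858364)]) (FT.cons (FT.leaf [(nat_lit 6641857), (nat_lit 6819873)]) (FT.cons (FT.leaf [(nat_lit 6959248)]) FT.nil))))) (FT.cons (FT.cons (FT.leaf [(nat_lit 6197362), (nat_lit 6374217), (nat_lit 6552062), (nat_lit 6730315), (nat_lit 6908521)]) (FT.cons (FT.leaf [(nat_lit 6516863), (nat_lit 6693451), (nat_lit 6870327), (nat_lit 7047063)])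
 (FT.cons (FT.leaf [(nat_lit 6833423), (nat_lit 7008895)]) FT.nil))) (FT.cons (FT.cons (FT.leaf [(nat_lit 6709752)]) (FT.cons (FT.leaf [(nat_lit 7021643)]) FT.nil)) (FT.cons (FT.cons (FT.leaf [(nat_lit 7206604)]) FT.nil) (FT.cons (FT.cons (FT.leaf [(nat_lit 7687183)]) FT.nil) FT.nil)))))) (FT.cons (FT.cons (FT.cons (FT.leaf [(nat_lit 6013946), (nat_lit 6187073), (nat_lit 6362202), (nat_lit 6538539), (nat_lit 6715474)]) (FT.cons (FT.leaf [(nat_lit 6329884), (nat_lit 6504035), (nat_lit 6679226), (nat_lit 6854881)]) (FT.cons (FT.leaf [(nat_lit 6644562), (nat_lit 6818556)]) (FT.cons (FT.leaf [(nat_lit 6956520)]) FT.nil)))) (FT.cons (FT.cons (FT.leaf [(nat_lit 6524324), (nat_lit 6696234), (nat_lit 6869083)]) (FT.cons (FT.leaf [(nat_lit 6834605), (nat_lit 7006243)]) (FT.cons (FT.leaf [(nat_lit 7142053)]) FT.nil))) (FT.cons (FT.cons (FT.leaf [(nat_lit 7021418)]) (FT.cons (FT.leaf [(nat_lit 7324429)]) FT.nil)) (FT.cons (FT.cons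 (FT.leaf [(nat_lit 7503728)]) FT.nil) (FT.cons (FT.cons (FT.leaf [(nat_lit 7970618)]) FT.nil) FT.nil))))) (FT.cons (FT.cons (FT.cons (FT.leaf [(nat_lit 6840099), (nat_lit 7007324), (nat_lit 7175448)]) (FT.cons (FT.leaf [(nat_lit 7141664), (nat_lit 7308625)])
 (FT.cons (FT.leaf [(nat_lit 7440512)]) FT.nil))) (FT.cons (FT.cons (FT.leaf [(nat_lit 7322767)]) (FT.cons (FT.leaf [(nat_lit 7617398)]) FT.nil)) (FT.cons (FT.cons (FT.leaf [(nat_lit 7791377)]) FT.nil) FT.nil))) (FT.cons (FT.cons (FT.cons (FT.leaf [(nat_lit 7614461)]) FT.nil) (FT.cons (FT.cons (FT.leaf [(nat_lit 8070143)]) FT.nil) FT.nil)) (FT.cons (FT.cons (FT.cons (FT.leaf [(nat_lit 8340575)]) FT.nil) FT.nil) (FT.cons (FT.cons (FT.cons (FT.leaf [(nat_lit 9022531)]) FT.nil) FT.nil) (FT.cons (FT.cons (FT.cons (FT.leaf [(nat_lit 9664437)]) FT.nil) FT.nil) FT.nil)))))))))) (FT.cons (FT.cons (FT.cons (FT.cons (FT.leaf [(nat_lit 4441167), (nat_lit 4588319), (nat_lit 4746192),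 (nat_lit 4912030), (nat_lit 5083844), (nat_lit 5260130), (nat_lit 5439703), (nat_lit 5621621), (nat_lit 5805119), (nat_lit 5989563), (nat_lit 6174442), (nat_lit 6359322), (nat_lit 6543847)]) (FT.cons (FT.leaf [(nat_lit 4731549), (nat_lit 4891471), (nat_lit 5058635), (nat_lit 5231190), (nat_lit 5407735), (nat_lit 5587175), (nat_lit 5768637), (nat_lit 5951411), (nat_lit 6134916), (nat_lit 6318674), (nat_lit 6502286), (nat_lit 6685427)]) (FT.cons (FT.leaf [(nat_lit 5036938), (nat_lit 5205073), (nat_lit 5378082),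
 (nat_lit 5554658), (nat_lit 5733782), (nat_lit 5914638), (nat_lit 6096571), (nat_lit 6279041), (nat_lit 6461606), (nat_lit 6643897)]) (FT.cons (FT.leaf [(nat_lit 5351159), (nat_lit 5524377), (nat_lit 5700786), (nat_lit 5879432), (nat_lit 6059557), (nat_lit 6240547), (nat_lit 6421903), (nat_lit 6603214), (nat_lit 6784139)]) (FT.cons (FT.leaf [(nat_lit 5669951), (nat_lit 5846022), (nat_lit 6024054), (nat_lit 6203337), (nat_lit 6383299), (nat_lit 6563475), (nat_lit 6743480)]) (FT.cons (FT.leaf [(nat_lit 5990287), (nat_lit 6167585), (nat_lit 6345932), (nat_lit 6524793), (nat_lit 6703732)]) (FT.cons (FT.leaf [(nat_lit 6309977), (nat_lit 6487308), (nat_lit 6665005), (nat_lit 6842660)]) (FT.cons (FT.leaf [(nat_lit 6627434), (nat_lit 6803915)]) (FT.cons (FT.leaf [(nat_lit 6941511)]) FT.nil))))))))) (FT.cons (FT.cons (FT.leaf [(nat_lit 4938596), (nat_lit 5098573), (nat_lit 5265280), (nat_lit 5436942), (nat_lit 5612230), (nat_lit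 5790110), (nat_lit 5969763), (nat_lit 6150527), (nat_lit 6331859), (nat_lit 6513315), (nat_lit 6694528)]) (FT.cons (FT.leaf [(nat_lit 5243016), (nat_lit 5410420), (nat_lit 5582316), (nat_lit 5757458), (nat_lit 5934881), (nat_lit 6113822), (nat_lit 6293663),
 (nat_lit 6473901), (nat_lit 6654124), (nat_lit 6833991)]) (FT.cons (FT.leaf [(nat_lit 5555064), (nat_lit 5726981), (nat_lit 5901806), (nat_lit 6078636), (nat_lit 6256756), (nat_lit 6435589), (nat_lit 6614667), (nat_lit 6793606), (nat_lit 6972091)]) (FT.cons (FT.leaf [(nat_lit 5870835), (nat_lit 6045197), (nat_lit 6221316), (nat_lit 6398521), (nat_lit 6576273), (nat_lit 6754136), (nat_lit 6931750)]) (FT.cons (FT.leaf [(nat_lit 6187564), (nat_lit 6362870), (nat_lit 6539081), (nat_lit 6715692), (nat_lit 6892291)]) (FT.cons (FT.leaf [(nat_lit 6503260), (nat_lit 6678408), (nat_lit 6853823), (nat_lit 7029123)]) (FT.cons (FT.leaf [(nat_lit 6816479), (nat_lit 6990657)]) (FT.cons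 (FT.leaf [(nat_lit 7126182)]) FT.nil)))))))) (FT.cons (FT.cons (FT.leaf [(nat_lit 5446621), (nat_lit 5613083), (nat_lit 5783699), (nat_lit 5957281), (nat_lit 6132913), (nat_lit 6309875), (nat_lit 6487585), (nat_lit 6665574)]) (FT.cons (FT.leaf [(nat_lit 5756181), (nat_lit 5926661), (nat_lit 6099803), (nat_lit 6274747), (nat_lit 6450816), (nat_lit 6627467), (nat_lit 6804261)]) (FT.cons (FT.leaf [(nat_lit 6068742), (nat_lit 6241317), (nat_lit 6415471), (nat_lit 6590567), (nat_lit 6766098)]) (FT.cons (FT.leaf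
 [(nat_lit 6381769), (nat_lit 6555045), (nat_lit 6729101), (nat_lit 6903459)]) (FT.cons (FT.leaf [(nat_lit 6693437), (nat_lit 6866395)]) (FT.cons (FT.leaf [(nat_lit 7002433)]) FT.nil)))))) (FT.cons (FT.cons (FT.leaf [(nat_lit 5954456), (nat_lit 6123394), (nat_lit 6294776), (nat_lit 6467782), (nat_lit 6641770), (nat_lit 6816228)]) (FT.cons (FT.leaf [(nat_lit 6263666), (nat_lit 6434395), (nat_lit 6606547), (nat_lit 6779518), (nat_lit 6952825)]) (FT.cons (FT.leaf [(nat_lit 6572923), (nat_lit 6744147), (nat_lit 6916042), (nat_lit 7088154)]) (FT.cons (FT.leaf [(nat_lit 6880555), (nat_lit 7051326)]) (FT.cons (FT.leaf [(nat_lit 7185358)]) FT.nil))))) (FT.cons (FT.cons (FT.leaf [(nat_lit 6455613), (nat_lit 6624455), (nat_lit 6794584), (nat_lit 6965422), (nat_lit 7136513)]) (FT.cons (FT.leaf [(nat_lit 6761062), (nat_lit 6930222), (nat_lit 7099958), (nat_lit 7269840)]) (FT.cons (FT.leaf [(nat_lit 7064665), (nat_lit 7233258)]) FT.nil)))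 (FT.cons (FT.cons (FT.leaf [(nat_lit 6946228), (nat_lit 7113321)]) (FT.cons (FT.leaf [(nat_lit 7245823)]) FT.nil)) (FT.cons (FT.cons (FT.leaf [(nat_lit 7424089)]) FT.nil) (FT.cons (FT.cons (FT.leaf [(nat_lit 7888038)]) FT.nil) (FT.cons (FT.cons (FT.leaf
 [(nat_lit 8337593)]) FT.nil) FT.nil))))))))) (FT.cons (FT.cons (FT.cons (FT.leaf [(nat_lit 5291025), (nat_lit 5448009), (nat_lit 5611281), (nat_lit 5779143), (nat_lit 5950333), (nat_lit 6123880), (nat_lit 6299017), (nat_lit 6475128), (nat_lit 6651712), (nat_lit 6828359)]) (FT.cons (FT.leaf [(nat_lit 5588993), (nat_lit 5752771), (nat_lit 5920720), (nat_lit 6091658), (nat_lit 6264676), (nat_lit 6439059), (nat_lit 6614229), (nat_lit 6789722), (nat_lit 6965155)]) (FT.cons (FT.leaf [(nat_lit 5893684), (nat_lit 6061538), (nat_lit 6232078), (nat_lit 6404451), (nat_lit 6577987), (nat_lit 6752145), (nat_lit 6926492)]) (FT.cons (FT.leaf [(nat_lit 6201512), (nat_lit 6371528), (nat_lit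 6543156), (nat_lit 6715766), (nat_lit 6888852)]) (FT.cons (FT.leaf [(nat_lit 6509955), (nat_lit 6680753), (nat_lit 6852369), (nat_lit 7024330)]) (FT.cons (FT.leaf [(nat_lit 6817208), (nat_lit 6987774)]) (FT.cons (FT.leaf [(nat_lit 7121963)]) FT.nil))))))) (FT.cons (FT.cons (FT.leaf [(nat_lit 5786886), (nat_lit 5949612), (nat_lit 6116213), (nat_lit 6285559), (nat_lit 6456787), (nat_lit 6629217), (nat_lit 6802307), (nat_lit 6975618)]) (FT.cons (FT.leaf [(nat_lit 6088957), (nat_lit 6255334), (nat_lit 6424183),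
 (nat_lit 6594688), (nat_lit 6766215), (nat_lit 6938253), (nat_lit 7110393)]) (FT.cons (FT.leaf [(nat_lit 6393558), (nat_lit 6561798), (nat_lit 6731497), (nat_lit 6902052), (nat_lit 7072988)]) (FT.cons (FT.leaf [(nat_lit 6698364), (nat_lit 6867179), (nat_lit 7036706), (nat_lit 7206496)]) (FT.cons (FT.leaf [(nat_lit 7001712), (nat_lit 7170162)]) (FT.cons (FT.leaf [(nat_lit 7302405)]) FT.nil)))))) (FT.cons (FT.cons (FT.leaf [(nat_lit 6281447), (nat_lit 6446267), (nat_lit 6613367), (nat_lit 6781971), (nat_lit 6951471), (nat_lit 7121388)]) (FT.cons (FT.leaf [(nat_lit 6582719), (nat_lit 6749142), (nat_lit 6916887), (nat_lit 7085382), (nat_lit 7254173)]) (FT.cons (FT.leaf [(nat_lit 6883847), (nat_lit 7050669), (nat_lit 7218108), (nat_lit 7385737)]) (FT.cons (FT.leaf [(nat_lit 7183296), (nat_lit 7349639)]) (FT.cons (FT.leaf [(nat_lit 7479965)]) FT.nil))))) (FT.cons (FT.cons (FT.leaf [(nat_lit 6769014), (nat_lit 6933592), (nat_lit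 7099371), (nat_lit 7265806), (nat_lit 7432465)]) (FT.cons (FT.leaf [(nat_lit 7066445), (nat_lit 7231270), (nat_lit 7396630), (nat_lit 7562118)]) (FT.cons (FT.leaf [(nat_lit 7362015), (nat_lit 7526265)]) FT.nil))) (FT.cons (FT.cons (FT.leaf [(nat_lit 7246204),
 (nat_lit 7409036)]) (FT.cons (FT.leaf [(nat_lit 7537924)]) FT.nil)) (FT.cons (FT.cons (FT.leaf [(nat_lit 7711082)]) FT.nil) (FT.cons (FT.cons (FT.leaf [(nat_lit 8162643)]) FT.nil) (FT.cons (FT.cons (FT.leaf [(nat_lit 8600476)]) FT.nil) FT.nil)))))))) (FT.cons (FT.cons (FT.cons (FT.leaf [(nat_lit 6116189), (nat_lit 6275232), (nat_lit 6437914), (nat_lit 6603154), (nat_lit 6770134), (nat_lit 6938214), (nat_lit 7106883), (nat_lit 7275732)]) (FT.cons (FT.leaf [(nat_lit 6410943), (nat_lit 6573336), (nat_lit 6738038), (nat_lit 6904278), (nat_lit 7071455), (nat_lit 7239089), (nat_lit 7406794)]) (FT.cons (FT.leaf [(nat_lit 6707857), (nat_lit 6871926), (nat_lit 7037353), (nat_lit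 7203568), (nat_lit 7370123)]) (FT.cons (FT.leaf [(nat_lit 7004783), (nat_lit 7169331), (nat_lit 7334537), (nat_lit 7499975)]) (FT.cons (FT.leaf [(nat_lit 7300194), (nat_lit 7464348)]) (FT.cons (FT.leaf [(nat_lit 7592992)]) FT.nil)))))) (FT.cons (FT.cons (FT.leaf [(nat_lit 6597899), (nat_lit 6758738), (nat_lit 6921719), (nat_lit 7086102), (nat_lit 7251314), (nat_lit 7416900)]) (FT.cons (FT.leaf [(nat_lit 6891535), (nat_lit 7053826), (nat_lit 7217354), (nat_lit 7381578), (nat_lit 7546068)]) (FT.cons (FT.leaf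
 [(nat_lit 7184888), (nat_lit 7347506), (nat_lit 7510700), (nat_lit 7674063)]) (FT.cons (FT.leaf [(nat_lit 7476542), (nat_lit 7638670)]) (FT.cons (FT.leaf [(nat_lit 7765483)]) FT.nil))))) (FT.cons (FT.cons (FT.leaf [(nat_lit 7072460), (nat_lit 7232955), (nat_lit 7394581), (nat_lit 7556820), (nat_lit 7719262)]) (FT.cons (FT.leaf [(nat_lit 7362236), (nat_lit 7522927), (nat_lit 7684121), (nat_lit 7845431)]) (FT.cons (FT.leaf [(nat_lit 7650161), (nat_lit 7810280)]) FT.nil))) (FT.cons (FT.cons (FT.leaf [(nat_lit 7536875), (nat_lit 7695648)]) (FT.cons (FT.leaf [(nat_lit 7821106)]) FT.nil)) (FT.cons (FT.cons (FT.leaf [(nat_lit 7989434)]) FT.nil) (FT.cons (FT.cons (FT.leaf [(nat_lit 8429251)]) FT.nil) FT.nil)))))) (FT.cons (FT.cons (FT.cons (FT.leaf [(nat_lit 6904385), (nat_lit 7061387), (nat_lit 7220413), (nat_lit 7380757), (nat_lit 7541874), (nat_lit 7703332)]) (FT.cons (FT.leaf [(nat_lit 7190691), (nat_lit 7349024), (nat_lit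 7508523), (nat_lit 7668674), (nat_lit 7829067)]) (FT.cons (FT.leaf [(nat_lit 7476617), (nat_lit 7635224), (nat_lit 7794372), (nat_lit 7953675)]) (FT.cons (FT.leaf [(nat_lit 7760848), (nat_lit 7918963)]) FT.nil)))) (FT.cons (FT.cons (FT.leaf [(nat_lit 7366518),
 (nat_lit 7523107), (nat_lit 7680770), (nat_lit 7839009), (nat_lit 7997437)]) (FT.cons (FT.leaf [(nat_lit 7648991), (nat_lit 7805740), (nat_lit 7962967), (nat_lit 8120301)]) (FT.cons (FT.leaf [(nat_lit 7929640), (nat_lit 8085827)]) FT.nil))) (FT.cons (FT.cons (FT.leaf [(nat_lit 7818780)]) (FT.cons (FT.leaf [(nat_lit 8095887)]) FT.nil)) (FT.cons (FT.cons (FT.leaf [(nat_lit 8259642)]) FT.nil) (FT.cons (FT.cons (FT.leaf [(nat_lit 8688316)]) FT.nil) FT.nil))))) (FT.cons (FT.cons (FT.cons (FT.leaf [(nat_lit 7651722), (nat_lit 7804574), (nat_lit 7958453)]) (FT.cons (FT.leaf [(nat_lit 7927225), (nat_lit 8080216)]) (FT.cons (FT.leaf [(nat_lit 8200948)]) FT.nil))) (FT.cons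 (FT.cons (FT.leaf [(nat_lit 8092417)]) (FT.cons (FT.leaf [(nat_lit 8362743)]) FT.nil)) (FT.cons (FT.cons (FT.leaf [(nat_lit 8522167)]) FT.nil) FT.nil))) (FT.cons (FT.cons (FT.cons (FT.leaf [(nat_lit 8358247)]) FT.nil) (FT.cons (FT.cons (FT.leaf [(nat_lit 8777431)]) FT.nil) FT.nil)) (FT.cons (FT.cons (FT.cons (FT.leaf [(nat_lit 9025825)]) FT.nil) FT.nil) (FT.cons (FT.cons (FT.cons (FT.leaf [(nat_lit 9657033)]) FT.nil) FT.nil) (FT.cons (FT.cons (FT.cons (FT.leaf [(nat_lit 10254661)]) FT.nil) FT.nil) FT.nil))))))))) (FT.cons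
 (FT.cons (FT.cons (FT.cons (FT.leaf [(nat_lit 6237325), (nat_lit 6380024), (nat_lit 6528463), (nat_lit 6681133), (nat_lit 6836920), (nat_lit 6994968), (nat_lit 7154604), (nat_lit 7315283), (nat_lit 7476566), (nat_lit 7638091)]) (FT.cons (FT.leaf [(nat_lit 6507723), (nat_lit 6656695), (nat_lit 6809541), (nat_lit 6965213), (nat_lit 7122910), (nat_lit 7282000), (nat_lit 7441975), (nat_lit 7602422), (nat_lit 7763000)]) (FT.cons (FT.leaf [(nat_lit 6784501), (nat_lit 6937368), (nat_lit 7092804), (nat_lit 7250051), (nat_lit 7408516), (nat_lit 7567723), (nat_lit 7727283)]) (FT.cons (FT.leaf [(nat_lit 7064546), (nat_lit 7219637), (nat_lit 7376348), (nat_lit 7534120), (nat_lit 7692504)]) (FT.cons (FT.leaf [(nat_lit 7345667), (nat_lit 7501767), (nat_lit 7658787), (nat_lit 7816302)]) (FT.cons (FT.leaf [(nat_lit 7626280), (nat_lit 7782495)]) (FT.cons (FT.leaf [(nat_lit 7905227)]) FT.nil))))))) (FT.cons (FT.cons (FT.leaf [(nat_lit 6686427),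 (nat_lit 6834615), (nat_lit 6986430), (nat_lit 7140867), (nat_lit 7297160), (nat_lit 7454705), (nat_lit 7613024), (nat_lit 7771725)]) (FT.cons (FT.leaf [(nat_lit 6961181), (nat_lit 7112909), (nat_lit 7267023), (nat_lit 7422799), (nat_lit 7579670), (nat_lit
 7737183), (nat_lit 7894971)]) (FT.cons (FT.leaf [(nat_lit 7238692), (nat_lit 7392388), (nat_lit 7547572), (nat_lit 7703708), (nat_lit 7860369)]) (FT.cons (FT.leaf [(nat_lit 7516925), (nat_lit 7671450), (nat_lit 7826799), (nat_lit 7982567)]) (FT.cons (FT.leaf [(nat_lit 7794410), (nat_lit 7948927)]) (FT.cons (FT.leaf [(nat_lit 8070078)]) FT.nil)))))) (FT.cons (FT.cons (FT.leaf [(nat_lit 7135632), (nat_lit 7286152), (nat_lit 7438894), (nat_lit 7593163), (nat_lit 7748418), (nat_lit 7904229)]) (FT.cons (FT.leaf [(nat_lit 7410518), (nat_lit 7562781), (nat_lit 7716411), (nat_lit 7870898), (nat_lit 8025833)]) (FT.cons (FT.leaf [(nat_lit 7685819), (nat_lit 7838753), (nat_lit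 7992425), (nat_lit 8146449)]) (FT.cons (FT.leaf [(nat_lit 7960169), (nat_lit 8112987)]) (FT.cons (FT.leaf [(nat_lit 8232574)]) FT.nil))))) (FT.cons (FT.cons (FT.leaf [(nat_lit 7580033), (nat_lit 7730833), (nat_lit 7882893), (nat_lit 8035724), (nat_lit 8188936)]) (FT.cons (FT.leaf [(nat_lit 7852374), (nat_lit 8003707), (nat_lit 8155702), (nat_lit 8307989)]) (FT.cons (FT.leaf [(nat_lit 8123591), (nat_lit 8274716)]) FT.nil))) (FT.cons (FT.cons (FT.leaf [(nat_lit 8016620), (nat_lit 8166347)]) (FT.cons (FT.leaf [(nat_lit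
 8284715)]) FT.nil)) (FT.cons (FT.cons (FT.leaf [(nat_lit 8443582)]) FT.nil) (FT.cons (FT.cons (FT.leaf [(nat_lit 8859885)]) FT.nil) FT.nil))))))) (FT.cons (FT.cons (FT.cons (FT.leaf [(nat_lit 6982851), (nat_lit 7128110), (nat_lit 7276796), (nat_lit 7427944), (nat_lit 7580822), (nat_lit 7734861), (nat_lit 7889604), (nat_lit 8044682)]) (FT.cons (FT.leaf [(nat_lit 7251763), (nat_lit 7400303), (nat_lit 7551088), (nat_lit 7703427), (nat_lit 7856782), (nat_lit 8010723), (nat_lit 8164904)]) (FT.cons (FT.leaf [(nat_lit 7523105), (nat_lit 7673445), (nat_lit 7825178), (nat_lit 7977797), (nat_lit 8130896)]) (FT.cons (FT.leaf [(nat_lit 7794980), (nat_lit 7946051), (nat_lit 8097888), (nat_lit 8250109)]) (FT.cons (FT.leaf [(nat_lit 8066025), (nat_lit 8217042)]) (FT.cons (FT.leaf [(nat_lit 8335249)]) FT.nil)))))) (FT.cons (FT.cons (FT.leaf [(nat_lit 7421768), (nat_lit 7569093), (nat_lit 7718515), (nat_lit 7869373), (nat_lit 8021150),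 (nat_lit 8173435)]) (FT.cons (FT.leaf [(nat_lit 7690507), (nat_lit 7839432), (nat_lit 7989645), (nat_lit 8140658), (nat_lit 8292083)]) (FT.cons (FT.leaf [(nat_lit 7959513), (nat_lit 8109031), (nat_lit 8259240), (nat_lit 8409773)]) (FT.cons (FT.leaf [(nat_lit
 8227514), (nat_lit 8376887)]) (FT.cons (FT.leaf [(nat_lit 8493589)]) FT.nil))))) (FT.cons (FT.cons (FT.leaf [(nat_lit 7855674), (nat_lit 8003163), (nat_lit 8151845), (nat_lit 8301251), (nat_lit 8451008)]) (FT.cons (FT.leaf [(nat_lit 8121795), (nat_lit 8269756), (nat_lit 8418341), (nat_lit 8567196)]) (FT.cons (FT.leaf [(nat_lit 8386764), (nat_lit 8534498)]) FT.nil))) (FT.cons (FT.cons (FT.leaf [(nat_lit 8281859), (nat_lit 8428263)]) (FT.cons (FT.leaf [(nat_lit 8543810)]) FT.nil)) (FT.cons (FT.cons (FT.leaf [(nat_lit 8698695)]) FT.nil) (FT.cons (FT.cons (FT.leaf [(nat_lit 9105257)]) FT.nil) FT.nil)))))) (FT.cons (FT.cons (FT.cons (FT.leaf [(nat_lit 7699892), (nat_lit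 7844113), (nat_lit 7990328), (nat_lit 8137898), (nat_lit 8286329), (nat_lit 8435232)]) (FT.cons (FT.leaf [(nat_lit 7962687), (nat_lit 8108393), (nat_lit 8255318), (nat_lit 8402995), (nat_lit 8551053)]) (FT.cons (FT.leaf [(nat_lit 8225639), (nat_lit 8371874), (nat_lit 8518762), (nat_lit 8665950)]) (FT.cons (FT.leaf [(nat_lit 8487553), (nat_lit 8633622)]) FT.nil)))) (FT.cons (FT.cons (FT.leaf [(nat_lit 8123698), (nat_lit 8268000), (nat_lit 8413435), (nat_lit 8559553), (nat_lit 8705999)]) (FT.cons (FT.leaf [(nat_lit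
 8383844), (nat_lit 8528568), (nat_lit 8673883), (nat_lit 8819452)]) (FT.cons (FT.leaf [(nat_lit 8642826), (nat_lit 8787312)]) FT.nil))) (FT.cons (FT.cons (FT.leaf [(nat_lit 8539920)]) (FT.cons (FT.leaf [(nat_lit 8795988)]) FT.nil)) (FT.cons (FT.cons (FT.leaf [(nat_lit 8947079)]) FT.nil) (FT.cons (FT.cons (FT.leaf [(nat_lit 9344340)]) FT.nil) FT.nil))))) (FT.cons (FT.cons (FT.cons (FT.leaf [(nat_lit 8384485), (nat_lit 8525719), (nat_lit 8668034)]) (FT.cons (FT.leaf [(nat_lit 8638894), (nat_lit 8780511)]) (FT.cons (FT.leaf [(nat_lit 8892139)]) FT.nil))) (FT.cons (FT.cons (FT.leaf [(nat_lit 8791165)]) (FT.cons (FT.leaf [(nat_lit 9041597)]) FT.nil)) (FT.cons (FT.cons (FT.leaf [(nat_lit 9189072)]) FT.nil) FT.nil))) (FT.cons (FT.cons (FT.cons (FT.leaf [(nat_lit 9035931)]) FT.nil) (FT.cons (FT.cons (FT.leaf [(nat_lit 9424989)]) FT.nil) FT.nil)) (FT.cons (FT.cons (FT.cons (FT.leaf [(nat_lit 9655125)]) FT.nil) FT.nil) (FT.cons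 (FT.cons (FT.cons (FT.leaf [(nat_lit 10243714)]) FT.nil) FT.nil) (FT.cons (FT.cons (FT.cons (FT.leaf [(nat_lit 10803651)]) FT.nil) FT.nil) FT.nil)))))))) (FT.cons (FT.cons (FT.cons (FT.cons (FT.leaf [(nat_lit 7760949), (nat_lit 7895109), (nat_lit 8032501), (nat_lit
 8172246), (nat_lit 8313680), (nat_lit 8456289), (nat_lit 8599661), (nat_lit 8743460)]) (FT.cons (FT.leaf [(nat_lit 8009047), (nat_lit 8146383), (nat_lit 8285878), (nat_lit 8426908), (nat_lit 8568983), (nat_lit 8711715), (nat_lit 8854788)]) (FT.cons (FT.leaf [(nat_lit 8259694), (nat_lit 8398868), (nat_lit 8539433), (nat_lit 8680927), (nat_lit 8822982)]) (FT.cons (FT.leaf [(nat_lit 8511184), (nat_lit 8651233), (nat_lit 8792106), (nat_lit 8933452)]) (FT.cons (FT.leaf [(nat_lit 8762291), (nat_lit 8902506)]) (FT.cons (FT.leaf [(nat_lit 9012115)]) FT.nil)))))) (FT.cons (FT.cons (FT.leaf [(nat_lit 8165387), (nat_lit 8301739), (nat_lit 8440123), (nat_lit 8579935), (nat_lit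 8720707), (nat_lit 8862065)]) (FT.cons (FT.leaf [(nat_lit 8413900), (nat_lit 8551915), (nat_lit 8691227), (nat_lit 8831391), (nat_lit 8972053)]) (FT.cons (FT.leaf [(nat_lit 8663020), (nat_lit 8801786), (nat_lit 8941306), (nat_lit 9081244)]) (FT.cons (FT.leaf [(nat_lit 8911596), (nat_lit 9050440)]) (FT.cons (FT.leaf [(nat_lit 9158785)]) FT.nil))))) (FT.cons (FT.cons (FT.leaf [(nat_lit 8566244), (nat_lit 8703078), (nat_lit 8841123), (nat_lit 8979951), (nat_lit 9119222)]) (FT.cons (FT.leaf [(nat_lit 8812973), (nat_lit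
 8950447), (nat_lit 9088612), (nat_lit 9227146)]) (FT.cons (FT.leaf [(nat_lit 9059018), (nat_lit 9196494)]) FT.nil))) (FT.cons (FT.cons (FT.leaf [(nat_lit 8961064)]) (FT.cons (FT.leaf [(nat_lit 9204584)]) FT.nil)) (FT.cons (FT.cons (FT.leaf [(nat_lit 9348323)]) FT.nil) (FT.cons (FT.cons (FT.leaf [(nat_lit 9727108)]) FT.nil) FT.nil)))))) (FT.cons (FT.cons (FT.cons (FT.leaf [(nat_lit 8420609), (nat_lit 8554386), (nat_lit 8690097), (nat_lit 8827163), (nat_lit 8965133), (nat_lit 9103651)]) (FT.cons (FT.leaf [(nat_lit 8664177), (nat_lit 8799504), (nat_lit 8936064), (nat_lit 9073429), (nat_lit 9211260)]) (FT.cons (FT.leaf [(nat_lit 8908234), (nat_lit 9044247), (nat_lit 9180974), (nat_lit 9318093)]) (FT.cons (FT.leaf [(nat_lit 9151698), (nat_lit 9287759)]) FT.nil)))) (FT.cons (FT.cons (FT.leaf [(nat_lit 8813046), (nat_lit 8947212), (nat_lit 9082533), (nat_lit 9218595), (nat_lit 9355073)]) (FT.cons (FT.leaf [(nat_lit 9054765),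 (nat_lit 9189517), (nat_lit 9324927), (nat_lit 9460684)]) (FT.cons (FT.leaf [(nat_lit 9295769), (nat_lit 9430501)]) FT.nil))) (FT.cons (FT.cons (FT.leaf [(nat_lit 9199499)]) (FT.cons (FT.leaf [(nat_lit 9438052)]) FT.nil)) (FT.cons (FT.cons (FT.leaf [(nat_lit
 9578578)]) FT.nil) (FT.cons (FT.cons (FT.leaf [(nat_lit 9949446)]) FT.nil) FT.nil))))) (FT.cons (FT.cons (FT.cons (FT.leaf [(nat_lit 9053791), (nat_lit 9185377), (nat_lit 9318066)]) (FT.cons (FT.leaf [(nat_lit 9290676), (nat_lit 9422803)]) (FT.cons (FT.leaf [(nat_lit 9526825)]) FT.nil))) (FT.cons (FT.cons (FT.leaf [(nat_lit 9432193)]) (FT.cons (FT.leaf [(nat_lit 9665964)]) FT.nil)) (FT.cons (FT.cons (FT.leaf [(nat_lit 9803411)]) FT.nil) FT.nil))) (FT.cons (FT.cons (FT.cons (FT.leaf [(nat_lit 9659401)]) FT.nil) (FT.cons (FT.cons (FT.leaf [(nat_lit 10023065)]) FT.nil) FT.nil)) (FT.cons (FT.cons (FT.cons (FT.leaf [(nat_lit 10237769)]) FT.nil) FT.nil) (FT.cons (FT.cons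 (FT.cons (FT.leaf [(nat_lit 10789947)]) FT.nil) FT.nil) FT.nil)))))) (FT.cons (FT.cons (FT.cons (FT.cons (FT.leaf [(nat_lit 9080649), (nat_lit 9205681), (nat_lit 9332581), (nat_lit 9460814), (nat_lit 9589968)]) (FT.cons (FT.leaf [(nat_lit 9308114), (nat_lit 9434719), (nat_lit 9562547), (nat_lit 9691206)]) (FT.cons (FT.leaf [(nat_lit 9536285), (nat_lit 9663670)]) (FT.cons (FT.leaf [(nat_lit 9764171)]) FT.nil)))) (FT.cons (FT.cons (FT.leaf [(nat_lit 9446806), (nat_lit 9572430), (nat_lit 9699207)]) (FT.cons (FT.leaf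
 [(nat_lit 9672989), (nat_lit 9799303)]) (FT.cons (FT.leaf [(nat_lit 9898773)]) FT.nil))) (FT.cons (FT.cons (FT.leaf [(nat_lit 9808153)]) FT.nil) FT.nil))) (FT.cons (FT.cons (FT.cons (FT.leaf [(nat_lit 9670741), (nat_lit 9794155), (nat_lit 9918673)]) (FT.cons (FT.leaf [(nat_lit 9892777), (nat_lit 10016834)]) FT.nil)) (FT.cons (FT.cons (FT.leaf [(nat_lit 10025171)]) FT.nil) FT.nil)) (FT.cons (FT.cons (FT.cons (FT.leaf [(nat_lit 10237471)]) FT.nil) FT.nil) (FT.cons (FT.cons (FT.cons (FT.leaf [(nat_lit 10780822)]) FT.nil) FT.nil) FT.nil)))) (FT.cons (FT.cons (FT.cons (FT.cons (FT.leaf [(nat_lit 10243643)]) FT.nil) FT.nil) (FT.cons (FT.cons (FT.cons (FT.leaf [(nat_lit 10776880)]) FT.nil) FT.nil) FT.nil)) (FT.cons (FT.cons (FT.cons (FT.cons (FT.leaf [(nat_lit 11282909)]) FT.nil) FT.nil) FT.nil) (FT.cons (FT.cons (FT.cons (FT.cons (FT.leaf [(nat_lit 12222176)]) FT.nil) FT.nil) FT.nil) FT.nil))))))))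

def f152_1_400 : FT := (FT.cons (FT.cons (FT.cons (FT.cons (FT.leaf [(nat_lit 3088736), (nat_lit 3255025), (nat_lit 3433865), (nat_lit 3622043), (nat_lit 3817198), (nat_lit 4017512), (nat_lit 4221543), (nat_lit 4428129), (nat_lit 4636323), (nat_lit 4845349), (nat_lit 5054569), (nat_lit 5263459), (nat_lit 5471584)]) (FT.cons (FT.leaf [(nat_lit 3418342), (nat_lit 3599716), (nat_lit 3789510), (nat_lit 3985524), (nat_lit 4186070), (nat_lit 4389817), (nat_lit 4595694), (nat_lit 4802832), (nat_lit 5010522), (nat_lit 5218177), (nat_lit 5425320), (nat_lit 5631557)]) (FT.cons (FT.leaf [(nat_lit 3765831), (nat_lit 3956759), (nat_lit 4153241), (nat_lit 4353705), (nat_lit 4556916), (nat_lit 4761885), (nat_lit 4967812), (nat_lit 5174044), (nat_lit 5380045), (nat_lit 5585377)]) (FT.cons (FT.leaf [(nat_lit 4123527), (nat_lit 4320143), (nat_lit 4520257), (nat_lit 4722719), (nat_lit 4926612), (nat_lit 5131197), (nat_lit 5335871), (nat_lit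 5540145), (nat_lit 5743614)]) (FT.cons (FT.leaf [(nat_lit 4486061), (nat_lit 4685595), (nat_lit 4887126), (nat_lit 5089801), (nat_lit 5292934), (nat_lit 5495970), (nat_lit 5698457)]) (FT.cons (FT.leaf [(nat_lit 4849613), (nat_lit 5050057), (nat_lit 5251394), (nat_lit 5452986), (nat_lit
 5654318)]) (FT.cons (FT.leaf [(nat_lit 5211451), (nat_lit 5411349), (nat_lit 5611325), (nat_lit 5810899)]) (FT.cons (FT.leaf [(nat_lit 5569629), (nat_lit 5767930)]) (FT.cons (FT.leaf [(nat_lit 5922791)]) (FT.cons (FT.leaf [(nat_lit 6269992)]) FT.nil)))))))))) (FT.cons (FT.cons (FT.leaf [(nat_lit 3656320), (nat_lit 3837766), (nat_lit 4026940), (nat_lit 4221742), (nat_lit 4420580), (nat_lit 4622209), (nat_lit 4825637), (nat_lit 5030060), (nat_lit 5234825), (nat_lit 5439396), (nat_lit 5643336)]) (FT.cons (FT.leaf [(nat_lit 4002573), (nat_lit 4192494), (nat_lit 4387452), (nat_lit 4585960), (nat_lit 4786862), (nat_lit 4989237), (nat_lit 5192343),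 (nat_lit 5395577), (nat_lit 5598449), (nat_lit 5800556)]) (FT.cons (FT.leaf [(nat_lit 4357356), (nat_lit 4552187), (nat_lit 4750140), (nat_lit 4950136), (nat_lit 5151318), (nat_lit 5353000), (nat_lit 5554625), (nat_lit 5755739), (nat_lit 5955974)]) (FT.cons (FT.leaf [(nat_lit 4715809), (nat_lit 4913014), (nat_lit 5111952), (nat_lit 5311825), (nat_lit 5511994), (nat_lit 5711943), (nat_lit 5911255)]) (FT.cons (FT.leaf [(nat_lit 5074499), (nat_lit 5272249), (nat_lit 5470714), (nat_lit 5669297), (nat_lit 5867519)]) (FT.cons (FT.leaf [(nat_lit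
 5430976), (nat_lit 5627952), (nat_lit 5824890), (nat_lit 6021343)]) (FT.cons (FT.leaf [(nat_lit 5783517), (nat_lit 5978762)]) (FT.cons (FT.leaf [(nat_lit 6130907)]) (FT.cons (FT.leaf [(nat_lit 6472316)]) FT.nil))))))))) (FT.cons (FT.cons (FT.leaf [(nat_lit 4236084), (nat_lit 4424689), (nat_lit 4617883), (nat_lit 4814258), (nat_lit 5012726), (nat_lit 5212425), (nat_lit 5412667), (nat_lit 5612892), (nat_lit 5812647), (nat_lit 6011563)]) (FT.cons (FT.leaf [(nat_lit 4587488), (nat_lit 4780344), (nat_lit 4976000), (nat_lit 5173438), (nat_lit 5371856), (nat_lit 5570613), (nat_lit 5769193), (nat_lit 5967175), (nat_lit 6164218)]) (FT.cons (FT.leaf [(nat_lit 4941596), (nat_lit 5136369), (nat_lit 5332651), (nat_lit 5529690), (nat_lit 5726891), (nat_lit 5923773), (nat_lit 6119948)]) (FT.cons (FT.leaf [(nat_lit 5295297), (nat_lit 5490317), (nat_lit 5685897), (nat_lit 5881483), (nat_lit 6076626)]) (FT.cons (FT.leaf [(nat_lit 5646398),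 (nat_lit 5840454), (nat_lit 6034377), (nat_lit 6227750)]) (FT.cons (FT.leaf [(nat_lit 5993344), (nat_lit 6185567)]) (FT.cons (FT.leaf [(nat_lit 6335055)]) (FT.cons (FT.leaf [(nat_lit 6670795)]) FT.nil)))))))) (FT.cons (FT.cons (FT.leaf [(nat_lit 4813842),
 (nat_lit 5004579), (nat_lit 5197839), (nat_lit 5392658), (nat_lit 5588283), (nat_lit 5784114), (nat_lit 5979669), (nat_lit 6174556)]) (FT.cons (FT.leaf [(nat_lit 5163413), (nat_lit 5355685), (nat_lit 5549272), (nat_lit 5743469), (nat_lit 5937715), (nat_lit 6131561), (nat_lit 6324644)]) (FT.cons (FT.leaf [(nat_lit 5512059), (nat_lit 5704325), (nat_lit 5897027), (nat_lit 6089641), (nat_lit 6281747)]) (FT.cons (FT.leaf [(nat_lit 5857790), (nat_lit 6048943), (nat_lit 6239888), (nat_lit 6430230)]) (FT.cons (FT.leaf [(nat_lit 6199208), (nat_lit 6388454)]) (FT.cons (FT.leaf [(nat_lit 6535345)]) FT.nil)))))) (FT.cons (FT.cons (FT.leaf [(nat_lit 5381283), (nat_lit 5571008), (nat_lit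 5761884), (nat_lit 5953244), (nat_lit 6144560)]) (FT.cons (FT.leaf [(nat_lit 5724840), (nat_lit 5914353), (nat_lit 6104195), (nat_lit 6293872)]) (FT.cons (FT.leaf [(nat_lit 6065238), (nat_lit 6253519)]) (FT.cons (FT.leaf [(nat_lit 6401211)]) (FT.cons (FT.leaf [(nat_lit 6731888)]) FT.nil))))) (FT.cons (FT.cons (FT.leaf [(nat_lit 5933714), (nat_lit 6120486), (nat_lit 6307497)]) (FT.cons (FT.leaf [(nat_lit 6268835), (nat_lit 6454281)]) (FT.cons (FT.leaf [(nat_lit 6599458)]) FT.nil))) (FT.cons (FT.cons (FT.leaf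
 [(nat_lit 6468678)]) (FT.cons (FT.leaf [(nat_lit 6794053)]) FT.nil)) (FT.cons (FT.cons (FT.leaf [(nat_lit 6985099)]) FT.nil) (FT.cons (FT.cons (FT.leaf [(nat_lit 7482750)]) FT.nil) FT.nil))))))))) (FT.cons (FT.cons (FT.cons (FT.leaf [(nat_lit 4064803), (nat_lit 4242300), (nat_lit 4426911), (nat_lit 4616645), (nat_lit 4810008), (nat_lit 5005846), (nat_lit 5203246), (nat_lit 5401473), (nat_lit 5599931), (nat_lit 5798137), (nat_lit 5995692), (nat_lit 6192274), (nat_lit 6387615)]) (FT.cons (FT.leaf [(nat_lit 4402530), (nat_lit 4587612), (nat_lit 4777294), (nat_lit 4970182), (nat_lit 5165201), (nat_lit 5361500), (nat_lit 5558399), (nat_lit 5755349), (nat_lit 5951901), (nat_lit 6147690), (nat_lit 6342416), (nat_lit 6535838)]) (FT.cons (FT.leaf [(nat_lit 4747501), (nat_lit 4936897), (nat_lit 5129124), (nat_lit 5323176), (nat_lit 5518261), (nat_lit 5713747), (nat_lit 5909125), (nat_lit 6103978), (nat_lit 6297969), (nat_lit 6490825)])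 (FT.cons (FT.leaf [(nat_lit 5095343), (nat_lit 5286750), (nat_lit 5479712), (nat_lit 5673488), (nat_lit 5867491), (nat_lit 6061243), (nat_lit 6254362), (nat_lit 6446537), (nat_lit 6637511)]) (FT.cons (FT.leaf [(nat_lit 5442996), (nat_lit 5634763), (nat_lit
 5827151), (nat_lit 6019610), (nat_lit 6211698), (nat_lit 6403057), (nat_lit 6593399)]) (FT.cons (FT.leaf [(nat_lit 5788291), (nat_lit 5979225), (nat_lit 6170094), (nat_lit 6360485), (nat_lit 6550065)]) (FT.cons (FT.leaf [(nat_lit 6129696), (nat_lit 6318937), (nat_lit 6507607), (nat_lit 6695394)]) (FT.cons (FT.leaf [(nat_lit 6466138), (nat_lit 6653069)]) (FT.cons (FT.leaf [(nat_lit 6796883)]) FT.nil))))))))) (FT.cons (FT.cons (FT.leaf [(nat_lit 4628421), (nat_lit 4812026), (nat_lit 4999850), (nat_lit 5190570), (nat_lit 5383169), (nat_lit 5576850), (nat_lit 5770976), (nat_lit 5965035), (nat_lit 6158610), (nat_lit 6351363), (nat_lit 6543018)]) (FT.cons (FT.leaf [(nat_lit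 4969822), (nat_lit 5157194), (nat_lit 5347126), (nat_lit 5538665), (nat_lit 5731066), (nat_lit 5923737), (nat_lit 6116200), (nat_lit 6308072), (nat_lit 6499035), (nat_lit 6688838)]) (FT.cons (FT.leaf [(nat_lit 5313313), (nat_lit 5502321), (nat_lit 5692696), (nat_lit 5883739), (nat_lit 6074896), (nat_lit 6265724), (nat_lit 6455864), (nat_lit 6645024), (nat_lit 6832967)]) (FT.cons (FT.leaf [(nat_lit 5656105), (nat_lit 5845227), (nat_lit 6034846), (nat_lit 6224443), (nat_lit 6413603), (nat_lit 6601992), (nat_lit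
 6789338)]) (FT.cons (FT.leaf [(nat_lit 5996231), (nat_lit 6184372), (nat_lit 6372371), (nat_lit 6559839), (nat_lit 6746463)]) (FT.cons (FT.leaf [(nat_lit 6332308), (nat_lit 6518679), (nat_lit 6704437), (nat_lit 6889291)]) (FT.cons (FT.leaf [(nat_lit 6663371), (nat_lit 6847408)]) (FT.cons (FT.leaf [(nat_lit 6988762)]) FT.nil)))))))) (FT.cons (FT.cons (FT.leaf [(nat_lit 5188457), (nat_lit 5373704), (nat_lit 5561274), (nat_lit 5750265), (nat_lit 5939973), (nat_lit 6129840), (nat_lit 6319419), (nat_lit 6508350)]) (FT.cons (FT.leaf [(nat_lit 5527473), (nat_lit 5714039), (nat_lit 5901809), (nat_lit 6090123), (nat_lit 6278459), (nat_lit 6466400), (nat_lit 6653607)]) (FT.cons (FT.leaf [(nat_lit 5865372), (nat_lit 6051848), (nat_lit 6238714), (nat_lit 6425481), (nat_lit 6611758)]) (FT.cons (FT.leaf [(nat_lit 6200363), (nat_lit 6385737), (nat_lit 6570905), (nat_lit 6755502)]) (FT.cons (FT.leaf [(nat_lit 6531189), (nat_lit 6714736)])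 (FT.cons (FT.leaf [(nat_lit 6856979)]) FT.nil)))))) (FT.cons (FT.cons (FT.leaf [(nat_lit 5737863), (nat_lit 5921961), (nat_lit 6107125), (nat_lit 6292726), (nat_lit 6478271), (nat_lit 6663369)]) (FT.cons (FT.leaf [(nat_lit 6070868), (nat_lit 6254707), (nat_lit
 6438846), (nat_lit 6622823), (nat_lit 6806267)]) (FT.cons (FT.leaf [(nat_lit 6400774), (nat_lit 6583417), (nat_lit 6765801), (nat_lit 6947580)]) (FT.cons (FT.leaf [(nat_lit 6726437), (nat_lit 6907212)]) (FT.cons (FT.leaf [(nat_lit 7047065)]) FT.nil))))) (FT.cons (FT.cons (FT.leaf [(nat_lit 6272668), (nat_lit 6453890), (nat_lit 6635338), (nat_lit 6816569), (nat_lit 6997234)]) (FT.cons (FT.leaf [(nat_lit 6597557), (nat_lit 6777507), (nat_lit 6957157), (nat_lit 7136178)]) (FT.cons (FT.leaf [(nat_lit 6918152), (nat_lit 7096208)]) FT.nil))) (FT.cons (FT.cons (FT.leaf [(nat_lit 6790803), (nat_lit 6968107)]) (FT.cons (FT.leaf [(nat_lit 7106433)]) FT.nil)) (FT.cons (FT.cons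 (FT.leaf [(nat_lit 7291377)]) FT.nil) (FT.cons (FT.cons (FT.leaf [(nat_lit 7774226)]) FT.nil) (FT.cons (FT.cons (FT.leaf [(nat_lit 8239627)]) FT.nil) FT.nil))))))))) (FT.cons (FT.cons (FT.cons (FT.leaf [(nat_lit 5006003), (nat_lit 5184699), (nat_lit 5367311), (nat_lit 5552588), (nat_lit 5739576), (nat_lit 5927531), (nat_lit 6115862), (nat_lit 6304095), (nat_lit 6491845), (nat_lit 6678797)]) (FT.cons (FT.leaf [(nat_lit 5337678), (nat_lit 5519763), (nat_lit 5704212), (nat_lit 5890132), (nat_lit 6076826), (nat_lit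
 6263742), (nat_lit 6450436), (nat_lit 6636550), (nat_lit 6821797)]) (FT.cons (FT.leaf [(nat_lit 5670995), (nat_lit 5854504), (nat_lit 6039269), (nat_lit 6224636), (nat_lit 6410088), (nat_lit 6595211), (nat_lit 6779672)]) (FT.cons (FT.leaf [(nat_lit 6003423), (nat_lit 6186959), (nat_lit 6370945), (nat_lit 6554895), (nat_lit 6738423)]) (FT.cons (FT.leaf [(nat_lit 6333183), (nat_lit 6515744), (nat_lit 6698163), (nat_lit 6880075)]) (FT.cons (FT.leaf [(nat_lit 6659028), (nat_lit 6839891)]) (FT.cons (FT.leaf [(nat_lit 6980085)]) FT.nil))))))) (FT.cons (FT.cons (FT.leaf [(nat_lit 5548986), (nat_lit 5728971), (nat_lit 5911116), (nat_lit 6094573), (nat_lit 6278680), (nat_lit 6462915), (nat_lit 6646864), (nat_lit 6830189)]) (FT.cons (FT.leaf [(nat_lit 5877935), (nat_lit 6059077), (nat_lit 6241336), (nat_lit 6424091), (nat_lit 6606854), (nat_lit 6789235), (nat_lit 6970919)]) (FT.cons (FT.leaf [(nat_lit 6205654), (nat_lit 6386654),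 (nat_lit 6568014), (nat_lit 6749273), (nat_lit 6930066)]) (FT.cons (FT.leaf [(nat_lit 6530515), (nat_lit 6710442), (nat_lit 6890174), (nat_lit 7069366)]) (FT.cons (FT.leaf [(nat_lit 6851376), (nat_lit 7029562)]) (FT.cons (FT.leaf [(nat_lit 7167444)]) FT.nil))))))
 (FT.cons (FT.cons (FT.leaf [(nat_lit 6081286), (nat_lit 6260050), (nat_lit 6439811), (nat_lit 6619979), (nat_lit 6800089), (nat_lit 6979772)]) (FT.cons (FT.leaf [(nat_lit 6404316), (nat_lit 6582797), (nat_lit 6761561), (nat_lit 6940171), (nat_lit 7118280)]) (FT.cons (FT.leaf [(nat_lit 6724337), (nat_lit 6901668), (nat_lit 7078760), (nat_lit 7255284)]) (FT.cons (FT.leaf [(nat_lit 7040303), (nat_lit 7215863)]) (FT.cons (FT.leaf [(nat_lit 7351490)]) FT.nil))))) (FT.cons (FT.cons (FT.leaf [(nat_lit 6599485), (nat_lit 6775472), (nat_lit 6951677), (nat_lit 7127683), (nat_lit 7303160)]) (FT.cons (FT.leaf [(nat_lit 6914738), (nat_lit 7089514), (nat_lit 7264015), (nat_lit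 7437928)]) (FT.cons (FT.leaf [(nat_lit 7225905), (nat_lit 7398890)]) FT.nil))) (FT.cons (FT.cons (FT.leaf [(nat_lit 7101807), (nat_lit 7274073)]) (FT.cons (FT.leaf [(nat_lit 7408272)]) FT.nil)) (FT.cons (FT.cons (FT.leaf [(nat_lit 7587499)]) FT.nil) (FT.cons (FT.cons (FT.leaf [(nat_lit 8056437)]) FT.nil) (FT.cons (FT.cons (FT.leaf [(nat_lit 8508890)]) FT.nil) FT.nil)))))))) (FT.cons (FT.cons (FT.cons (FT.leaf [(nat_lit 5896324), (nat_lit 6071282), (nat_lit 6248268), (nat_lit 6426479), (nat_lit 6605289), (nat_lit 6784211),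
 (nat_lit 6962852), (nat_lit 7140899)]) (FT.cons (FT.leaf [(nat_lit 6215698), (nat_lit 6391693), (nat_lit 6568736), (nat_lit 6746243), (nat_lit 6923750), (nat_lit 7100893), (nat_lit 7277376)]) (FT.cons (FT.leaf [(nat_lit 6533787), (nat_lit 6709611), (nat_lit 6885775), (nat_lit 7061844), (nat_lit 7237472)]) (FT.cons (FT.leaf [(nat_lit 6849093), (nat_lit 7023884), (nat_lit 7198494), (nat_lit 7372598)]) (FT.cons (FT.leaf [(nat_lit 7160572), (nat_lit 7333708)]) (FT.cons (FT.leaf [(nat_lit 7467494)]) FT.nil)))))) (FT.cons (FT.cons (FT.leaf [(nat_lit 6412430), (nat_lit 6586141), (nat_lit 6760797), (nat_lit 6935836), (nat_lit 7110821), (nat_lit 7285404)]) (FT.cons (FT.leaf [(nat_lit 6726035), (nat_lit 6899457), (nat_lit 7073151), (nat_lit 7246704), (nat_lit 7419787)]) (FT.cons (FT.leaf [(nat_lit 7036739), (nat_lit 7209063), (nat_lit 7381168), (nat_lit 7552745)]) (FT.cons (FT.leaf [(nat_lit 7343576), (nat_lit 7514223)]) (FT.cons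 (FT.leaf [(nat_lit 7645879)]) FT.nil))))) (FT.cons (FT.cons (FT.leaf [(nat_lit 6914983), (nat_lit 7086029), (nat_lit 7257292), (nat_lit 7428374), (nat_lit 7598962)]) (FT.cons (FT.leaf [(nat_lit 7221157), (nat_lit 7391056), (nat_lit 7560705), (nat_lit 7729807)])
 (FT.cons (FT.leaf [(nat_lit 7523446), (nat_lit 7691654)]) FT.nil))) (FT.cons (FT.cons (FT.leaf [(nat_lit 7402433)]) (FT.cons (FT.leaf [(nat_lit 7700268)]) FT.nil)) (FT.cons (FT.cons (FT.leaf [(nat_lit 7874127)]) FT.nil) (FT.cons (FT.cons (FT.leaf [(nat_lit 8329972)]) FT.nil) FT.nil)))))) (FT.cons (FT.cons (FT.cons (FT.leaf [(nat_lit 6732108), (nat_lit 6901032), (nat_lit 7070859), (nat_lit 7241056), (nat_lit 7411205)]) (FT.cons (FT.leaf [(nat_lit 7036804), (nat_lit 7205445), (nat_lit 7374354), (nat_lit 7543136)]) (FT.cons (FT.leaf [(nat_lit 7338719), (nat_lit 7506318)]) (FT.cons (FT.leaf [(nat_lit 7636952)]) FT.nil)))) (FT.cons (FT.cons (FT.leaf [(nat_lit 7219909),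 (nat_lit 7386289), (nat_lit 7552885)]) (FT.cons (FT.leaf [(nat_lit 7517520), (nat_lit 7682815)]) (FT.cons (FT.leaf [(nat_lit 7811439)]) FT.nil))) (FT.cons (FT.cons (FT.leaf [(nat_lit 7693354)]) (FT.cons (FT.leaf [(nat_lit 7983051)]) FT.nil)) (FT.cons (FT.cons (FT.leaf [(nat_lit 8151864)]) FT.nil) (FT.cons (FT.cons (FT.leaf [(nat_lit 8595363)]) FT.nil) FT.nil))))) (FT.cons (FT.cons (FT.cons (FT.leaf [(nat_lit 7514945), (nat_lit 7676913), (nat_lit 7839100)]) (FT.cons (FT.leaf [(nat_lit 7804469), (nat_lit 7965415)])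
 (FT.cons (FT.leaf [(nat_lit 8090489)]) FT.nil))) (FT.cons (FT.cons (FT.leaf [(nat_lit 7975184)]) (FT.cons (FT.leaf [(nat_lit 8257196)]) FT.nil)) (FT.cons (FT.cons (FT.leaf [(nat_lit 8421257)]) FT.nil) FT.nil))) (FT.cons (FT.cons (FT.cons (FT.leaf [(nat_lit 8248484)]) FT.nil) (FT.cons (FT.cons (FT.leaf [(nat_lit 8682805)]) FT.nil) FT.nil)) (FT.cons (FT.cons (FT.cons (FT.leaf [(nat_lit 8936965)]) FT.nil) FT.nil) (FT.cons (FT.cons (FT.cons (FT.leaf [(nat_lit 9584603)]) FT.nil) FT.nil) (FT.cons (FT.cons (FT.cons (FT.leaf [(nat_lit 10195321)]) FT.nil) FT.nil) FT.nil)))))))))) (FT.cons (FT.cons (FT.cons (FT.cons (FT.leaf [(nat_lit 5168871), (nat_lit 5327162), (nat_lit 5491864), (nat_lit 5661251), (nat_lit 5834044), (nat_lit 6009251), (nat_lit 6186091), (nat_lit 6363932), (nat_lit 6542264), (nat_lit 6720665), (nat_lit 6898788), (nat_lit 7076346), (nat_lit 7253101)]) (FT.cons (FT.leaf [(nat_lit 5469509), (nat_lit 5634759), (nat_lit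 5804264), (nat_lit 5976823), (nat_lit 6151511), (nat_lit 6327597), (nat_lit 6504492), (nat_lit 6681723), (nat_lit 6858894), (nat_lit 7035686), (nat_lit 7211832), (nat_lit 7387111)]) (FT.cons (FT.leaf [(nat_lit 5777089), (nat_lit 5946522), (nat_lit 6118695),
 (nat_lit 6292742), (nat_lit 6467978), (nat_lit 6643853), (nat_lit 6819922), (nat_lit 6995821), (nat_lit 7171251), (nat_lit 7345962)]) (FT.cons (FT.leaf [(nat_lit 6087935), (nat_lit 6259592), (nat_lit 6432893), (nat_lit 6607196), (nat_lit 6781986), (nat_lit 6956847), (nat_lit 7131438), (nat_lit 7305479), (nat_lit 7478741)]) (FT.cons (FT.leaf [(nat_lit 6399456), (nat_lit 6571921), (nat_lit 6745221), (nat_lit 6918872), (nat_lit 7092484), (nat_lit 7265737), (nat_lit 7438371)]) (FT.cons (FT.leaf [(nat_lit 6709794), (nat_lit 6882030), (nat_lit 7054496), (nat_lit 7226826), (nat_lit 7398718)]) (FT.cons (FT.leaf [(nat_lit 7017605), (nat_lit 7188848), (nat_lit 7359868), (nat_lit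 7530381)]) (FT.cons (FT.leaf [(nat_lit 7321921), (nat_lit 7491609)]) (FT.cons (FT.leaf [(nat_lit 7622052)]) FT.nil))))))))) (FT.cons (FT.cons (FT.leaf [(nat_lit 5669535), (nat_lit 5833747), (nat_lit 6001907), (nat_lit 6172867), (nat_lit 6345749), (nat_lit 6519860), (nat_lit 6694646), (nat_lit 6869661), (nat_lit 7044536), (nat_lit 7218970), (nat_lit 7392716)]) (FT.cons (FT.leaf [(nat_lit 5974502), (nat_lit 6142453), (nat_lit 6312921), (nat_lit 6485080), (nat_lit 6658281), (nat_lit 6832004), (nat_lit 7005831),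
 (nat_lit 7179418), (nat_lit 7352486), (nat_lit 7524801)]) (FT.cons (FT.leaf [(nat_lit 6282097), (nat_lit 6451959), (nat_lit 6623305), (nat_lit 6795525), (nat_lit 6968131), (nat_lit 7140729), (nat_lit 7313000), (nat_lit 7484681), (nat_lit 7655555)]) (FT.cons (FT.leaf [(nat_lit 6589934), (nat_lit 6760390), (nat_lit 6931568), (nat_lit 7103011), (nat_lit 7274348), (nat_lit 7445279), (nat_lit 7615558)]) (FT.cons (FT.leaf [(nat_lit 6896307), (nat_lit 7066393), (nat_lit 7236634), (nat_lit 7406682), (nat_lit 7576255)]) (FT.cons (FT.leaf [(nat_lit 7199987), (nat_lit 7368995), (nat_lit 7537732), (nat_lit 7705932)]) (FT.cons (FT.leaf [(nat_lit 7500089), (nat_lit 7667498)]) (FT.cons (FT.leaf [(nat_lit 7795984)]) FT.nil)))))))) (FT.cons (FT.cons (FT.leaf [(nat_lit 6169095), (nat_lit 6335478), (nat_lit 6504180), (nat_lit 6674412), (nat_lit 6845558), (nat_lit 7017125), (nat_lit 7188717), (nat_lit 7360013)]) (FT.cons (FT.leaf [(nat_lit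 6473327), (nat_lit 6641350), (nat_lit 6810715), (nat_lit 6980842), (nat_lit 7151268), (nat_lit 7321620), (nat_lit 7491596)]) (FT.cons (FT.leaf [(nat_lit 6777434), (nat_lit 6945866), (nat_lit 7114923), (nat_lit 7284169), (nat_lit 7453253)]) (FT.cons (FT.leaf
 [(nat_lit 7079845), (nat_lit 7247789), (nat_lit 7415823), (nat_lit 7583617)]) (FT.cons (FT.leaf [(nat_lit 7379430), (nat_lit 7546226)]) (FT.cons (FT.leaf [(nat_lit 7675378)]) FT.nil)))))) (FT.cons (FT.cons (FT.leaf [(nat_lit 6661643), (nat_lit 6827795), (nat_lit 6995165), (nat_lit 7163199), (nat_lit 7331456), (nat_lit 7499583)]) (FT.cons (FT.leaf [(nat_lit 6961997), (nat_lit 7128400), (nat_lit 7295343), (nat_lit 7462410), (nat_lit 7629268)]) (FT.cons (FT.leaf [(nat_lit 7260463), (nat_lit 7426278), (nat_lit 7592128), (nat_lit 7757699)]) (FT.cons (FT.leaf [(nat_lit 7555998), (nat_lit 7720610)]) (FT.cons (FT.leaf [(nat_lit 7847857)]) FT.nil))))) (FT.cons (FT.cons (FT.leaf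 [(nat_lit 7143668), (nat_lit 7308045), (nat_lit 7472887), (nat_lit 7637797), (nat_lit 7802459)]) (FT.cons (FT.leaf [(nat_lit 7438217), (nat_lit 7601922), (nat_lit 7765615), (nat_lit 7928996)]) (FT.cons (FT.leaf [(nat_lit 7729755), (nat_lit 7892213)]) FT.nil))) (FT.cons (FT.cons (FT.leaf [(nat_lit 7613167), (nat_lit 7774785)]) (FT.cons (FT.leaf [(nat_lit 7900767)]) FT.nil)) (FT.cons (FT.cons (FT.leaf [(nat_lit 8069098)]) FT.nil) (FT.cons (FT.cons (FT.leaf [(nat_lit 8511041)]) FT.nil) (FT.cons (FT.cons (FT.leaf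
 [(nat_lit 8938973)]) FT.nil) FT.nil))))))))) (FT.cons (FT.cons (FT.cons (FT.leaf [(nat_lit 6002773), (nat_lit 6163258), (nat_lit 6327443), (nat_lit 6494235), (nat_lit 6662798), (nat_lit 6832481), (nat_lit 7002767), (nat_lit 7173233), (nat_lit 7343540), (nat_lit 7513404)]) (FT.cons (FT.leaf [(nat_lit 6300322), (nat_lit 6464228), (nat_lit 6630482), (nat_lit 6798302), (nat_lit 6967073), (nat_lit 7136309), (nat_lit 7305616), (nat_lit 7474674), (nat_lit 7643219)]) (FT.cons (FT.leaf [(nat_lit 6600103), (nat_lit 6765723), (nat_lit 6932721), (nat_lit 7100520), (nat_lit 7268661), (nat_lit 7436774), (nat_lit 7604559)]) (FT.cons (FT.leaf [(nat_lit 6899918), (nat_lit 7066029), (nat_lit 7232804), (nat_lit 7399811), (nat_lit 7566703)]) (FT.cons (FT.leaf [(nat_lit 7198203), (nat_lit 7363911), (nat_lit 7529753), (nat_lit 7695400)]) (FT.cons (FT.leaf [(nat_lit 7493832), (nat_lit 7658482)]) (FT.cons (FT.leaf [(nat_lit 7785997)]) FT.nil)))))))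 (FT.cons (FT.cons (FT.leaf [(nat_lit 6489277), (nat_lit 6651615), (nat_lit 6816127), (nat_lit 6982063), (nat_lit 7148840), (nat_lit 7315994), (nat_lit 7483152), (nat_lit 7650013)]) (FT.cons (FT.leaf [(nat_lit 6785741), (nat_lit 6949559), (nat_lit 7114630),
 (nat_lit 7280405), (nat_lit 7446447), (nat_lit 7612404), (nat_lit 7777993)]) (FT.cons (FT.leaf [(nat_lit 7081931), (nat_lit 7246080), (nat_lit 7410810), (nat_lit 7575707), (nat_lit 7740440)]) (FT.cons (FT.leaf [(nat_lit 7376396), (nat_lit 7540043), (nat_lit 7703768), (nat_lit 7867259)]) (FT.cons (FT.leaf [(nat_lit 7668099), (nat_lit 7830631)]) (FT.cons (FT.leaf [(nat_lit 7956296)]) FT.nil)))))) (FT.cons (FT.cons (FT.leaf [(nat_lit 6968580), (nat_lit 7130575), (nat_lit 7293714), (nat_lit 7457471), (nat_lit 7621429), (nat_lit 7785254)]) (FT.cons (FT.leaf [(nat_lit 7261135), (nat_lit 7423326), (nat_lit 7586022), (nat_lit 7748829), (nat_lit 7911432)]) (FT.cons (FT.leaf [(nat_lit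 7551807), (nat_lit 7713411), (nat_lit 7875045), (nat_lit 8036410)]) (FT.cons (FT.leaf [(nat_lit 7839634), (nat_lit 8000077)]) (FT.cons (FT.leaf [(nat_lit 8123928)]) FT.nil))))) (FT.cons (FT.cons (FT.leaf [(nat_lit 7437580), (nat_lit 7597820), (nat_lit 7758499), (nat_lit 7919241), (nat_lit 8079743)]) (FT.cons (FT.leaf [(nat_lit 7724494), (nat_lit 7884075), (nat_lit 8043645), (nat_lit 8202918)]) (FT.cons (FT.leaf [(nat_lit 8008499), (nat_lit 8166883)]) FT.nil))) (FT.cons (FT.cons (FT.leaf [(nat_lit 7894513),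
 (nat_lit 8052097)]) (FT.cons (FT.leaf [(nat_lit 8174756)]) FT.nil)) (FT.cons (FT.cons (FT.leaf [(nat_lit 8338467)]) FT.nil) (FT.cons (FT.cons (FT.leaf [(nat_lit 8769080)]) FT.nil) (FT.cons (FT.cons (FT.leaf [(nat_lit 9186344)]) FT.nil) FT.nil)))))))) (FT.cons (FT.cons (FT.cons (FT.leaf [(nat_lit 6799278), (nat_lit 6957716), (nat_lit 7118204), (nat_lit 7280028), (nat_lit 7442633), (nat_lit 7605581), (nat_lit 7768520), (nat_lit 7931163)]) (FT.cons (FT.leaf [(nat_lit 7088284), (nat_lit 7248072), (nat_lit 7409041), (nat_lit 7570666), (nat_lit 7732533), (nat_lit 7894311), (nat_lit 8055729)]) (FT.cons (FT.leaf [(nat_lit 7376909), (nat_lit 7536972), (nat_lit 7697579), (nat_lit 7858338), (nat_lit 8018936)]) (FT.cons (FT.leaf [(nat_lit 7663809), (nat_lit 7823366), (nat_lit 7982994), (nat_lit 8142396)]) (FT.cons (FT.leaf [(nat_lit 7948023), (nat_lit 8106501)]) (FT.cons (FT.leaf [(nat_lit 8228862)]) FT.nil)))))) (FT.cons (FT.cons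 (FT.leaf [(nat_lit 7265922), (nat_lit 7423940), (nat_lit 7583042), (nat_lit 7742724), (nat_lit 7902591), (nat_lit 8062327)]) (FT.cons (FT.leaf [(nat_lit 7551037), (nat_lit 7709213), (nat_lit 7867865), (nat_lit 8026622), (nat_lit 8185181)]) (FT.cons (FT.leaf
 [(nat_lit 7834294), (nat_lit 7991891), (nat_lit 8149517), (nat_lit 8306887)]) (FT.cons (FT.leaf [(nat_lit 8114799), (nat_lit 8271278)]) (FT.cons (FT.leaf [(nat_lit 8391911)]) FT.nil))))) (FT.cons (FT.cons (FT.leaf [(nat_lit 7722533), (nat_lit 7878832), (nat_lit 8035550), (nat_lit 8192328), (nat_lit 8348879)]) (FT.cons (FT.leaf [(nat_lit 8002186), (nat_lit 8157845), (nat_lit 8313496), (nat_lit 8468867)]) (FT.cons (FT.leaf [(nat_lit 8279036), (nat_lit 8433548)]) FT.nil))) (FT.cons (FT.cons (FT.leaf [(nat_lit 8167541), (nat_lit 8321287)]) (FT.cons (FT.leaf [(nat_lit 8440795)]) FT.nil)) (FT.cons (FT.cons (FT.leaf [(nat_lit 8600135)]) FT.nil) (FT.cons (FT.cons (FT.leaf [(nat_lit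 9019999)]) FT.nil) FT.nil)))))) (FT.cons (FT.cons (FT.cons (FT.leaf [(nat_lit 7554215), (nat_lit 7708432), (nat_lit 7863681), (nat_lit 8019481), (nat_lit 8175453), (nat_lit 8331299)]) (FT.cons (FT.leaf [(nat_lit 7832235), (nat_lit 7986582), (nat_lit 8141384), (nat_lit 8296286), (nat_lit 8450999)]) (FT.cons (FT.leaf [(nat_lit 8108434), (nat_lit 8262217), (nat_lit 8416030), (nat_lit 8569601)]) (FT.cons (FT.leaf [(nat_lit 8381978), (nat_lit 8534689)]) FT.nil)))) (FT.cons (FT.cons (FT.leaf [(nat_lit 7999042),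
 (nat_lit 8151585), (nat_lit 8304532), (nat_lit 8457538), (nat_lit 8610331)]) (FT.cons (FT.leaf [(nat_lit 8271786), (nat_lit 8423712), (nat_lit 8575636), (nat_lit 8727296)]) (FT.cons (FT.leaf [(nat_lit 8541835), (nat_lit 8692664)]) FT.nil))) (FT.cons (FT.cons (FT.leaf [(nat_lit 8432722)]) (FT.cons (FT.leaf [(nat_lit 8699334)]) FT.nil)) (FT.cons (FT.cons (FT.leaf [(nat_lit 8854531)]) FT.nil) (FT.cons (FT.cons (FT.leaf [(nat_lit 9264186)]) FT.nil) FT.nil))))) (FT.cons (FT.cons (FT.cons (FT.leaf [(nat_lit 8267580), (nat_lit 8416542), (nat_lit 8565897)]) (FT.cons (FT.leaf [(nat_lit 8533747), (nat_lit 8682118)]) (FT.cons (FT.leaf [(nat_lit 8797326)]) FT.nil))) (FT.cons (FT.cons (FT.leaf [(nat_lit 8690495)]) (FT.cons (FT.leaf [(nat_lit 8950785)]) FT.nil)) (FT.cons (FT.cons (FT.leaf [(nat_lit 9102053)]) FT.nil) FT.nil))) (FT.cons (FT.cons (FT.cons (FT.leaf [(nat_lit 8941261)]) FT.nil) (FT.cons (FT.cons (FT.leaf [(nat_lit 9343067)])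 FT.nil) FT.nil)) (FT.cons (FT.cons (FT.cons (FT.leaf [(nat_lit 9577911)]) FT.nil) FT.nil) (FT.cons (FT.cons (FT.cons (FT.leaf [(nat_lit 10180395)]) FT.nil) FT.nil) (FT.cons (FT.cons (FT.cons (FT.leaf [(nat_lit 10751528)]) FT.nil) FT.nil) FT.nil)))))))))
 (FT.cons (FT.cons (FT.cons (FT.cons (FT.leaf [(nat_lit 6880857), (nat_lit 7027271), (nat_lit 7177163), (nat_lit 7329557), (nat_lit 7483713), (nat_lit 7639048), (nat_lit 7795101), (nat_lit 7951497), (nat_lit 8107926), (nat_lit 8264137)]) (FT.cons (FT.leaf [(nat_lit 7152010), (nat_lit 7301766), (nat_lit 7453802), (nat_lit 7607417), (nat_lit 7762065), (nat_lit 7917308), (nat_lit 8072795), (nat_lit 8228235), (nat_lit 8383391)]) (FT.cons (FT.leaf [(nat_lit 7425660), (nat_lit 7577251), (nat_lit 7730258), (nat_lit 7884163), (nat_lit 8038556), (nat_lit 8193101), (nat_lit 8347527)]) (FT.cons (FT.leaf [(nat_lit 7699872), (nat_lit 7852211), (nat_lit 8005327), (nat_lit 8158831), (nat_lit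 8312408)]) (FT.cons (FT.leaf [(nat_lit 7973254), (nat_lit 8125541), (nat_lit 8278125), (nat_lit 8430710)]) (FT.cons (FT.leaf [(nat_lit 8244794), (nat_lit 8396433)]) (FT.cons (FT.leaf [(nat_lit 8513748)]) FT.nil))))))) (FT.cons (FT.cons (FT.leaf [(nat_lit 7323623), (nat_lit 7472155), (nat_lit 7622815), (nat_lit 7774933), (nat_lit 7927983), (nat_lit 8081549), (nat_lit 8235294), (nat_lit 8388946)]) (FT.cons (FT.leaf [(nat_lit 7594644), (nat_lit 7744806), (nat_lit 7896274), (nat_lit 8048552), (nat_lit 8201247),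
 (nat_lit 8354040), (nat_lit 8506673)]) (FT.cons (FT.leaf [(nat_lit 7865952), (nat_lit 8016719), (nat_lit 8168184), (nat_lit 8319976), (nat_lit 8471792)]) (FT.cons (FT.leaf [(nat_lit 8136249), (nat_lit 8286867), (nat_lit 8437729), (nat_lit 8588549)]) (FT.cons (FT.leaf [(nat_lit 8404592), (nat_lit 8554501)]) (FT.cons (FT.leaf [(nat_lit 8670291)]) FT.nil)))))) (FT.cons (FT.cons (FT.leaf [(nat_lit 7761362), (nat_lit 7910071), (nat_lit 8059988), (nat_lit 8210637), (nat_lit 8361639), (nat_lit 8512692)]) (FT.cons (FT.leaf [(nat_lit 8029747), (nat_lit 8178935), (nat_lit 8328753), (nat_lit 8478842), (nat_lit 8628914)]) (FT.cons (FT.leaf [(nat_lit 8296967), (nat_lit 8445923), (nat_lit 8595075), (nat_lit 8744150)]) (FT.cons (FT.leaf [(nat_lit 8562141), (nat_lit 8710337)]) (FT.cons (FT.leaf [(nat_lit 8824626)]) FT.nil))))) (FT.cons (FT.cons (FT.leaf [(nat_lit 8191288), (nat_lit 8338896), (nat_lit 8487072), (nat_lit 8635471), (nat_lit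 8783818)]) (FT.cons (FT.leaf [(nat_lit 8455446), (nat_lit 8602750), (nat_lit 8750209), (nat_lit 8897560)]) (FT.cons (FT.leaf [(nat_lit 8717483), (nat_lit 8863985)]) FT.nil))) (FT.cons (FT.cons (FT.leaf [(nat_lit 8611726), (nat_lit 8757391)]) (FT.cons (FT.leaf
 [(nat_lit 8870663)]) FT.nil)) (FT.cons (FT.cons (FT.leaf [(nat_lit 9021725)]) FT.nil) (FT.cons (FT.cons (FT.leaf [(nat_lit 9420813)]) FT.nil) FT.nil))))))) (FT.cons (FT.cons (FT.cons (FT.leaf [(nat_lit 7604572), (nat_lit 7749960), (nat_lit 7897365), (nat_lit 8046143), (nat_lit 8195794), (nat_lit 8345921), (nat_lit 8496206), (nat_lit 8646386)]) (FT.cons (FT.leaf [(nat_lit 7869564), (nat_lit 8016457), (nat_lit 8164585), (nat_lit 8313472), (nat_lit 8462746), (nat_lit 8612102), (nat_lit 8761293)]) (FT.cons (FT.leaf [(nat_lit 8134721), (nat_lit 8282152), (nat_lit 8430240), (nat_lit 8578632), (nat_lit 8727038)]) (FT.cons (FT.leaf [(nat_lit 8398830), (nat_lit 8546089), (nat_lit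 8693575), (nat_lit 8841015)]) (FT.cons (FT.leaf [(nat_lit 8661011), (nat_lit 8807572)]) (FT.cons (FT.leaf [(nat_lit 8920622)]) FT.nil)))))) (FT.cons (FT.cons (FT.leaf [(nat_lit 8032053), (nat_lit 8177524), (nat_lit 8324142), (nat_lit 8471449), (nat_lit 8619086), (nat_lit 8766763)]) (FT.cons (FT.leaf [(nat_lit 8294366), (nat_lit 8440264), (nat_lit 8586758), (nat_lit 8733505), (nat_lit 8880232)]) (FT.cons (FT.leaf [(nat_lit 8555499), (nat_lit 8701152), (nat_lit 8846990), (nat_lit 8992750)]) (FT.cons (FT.leaf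
 [(nat_lit 8814626), (nat_lit 8959538)]) (FT.cons (FT.leaf [(nat_lit 9071149)]) FT.nil))))) (FT.cons (FT.cons (FT.leaf [(nat_lit 8451847), (nat_lit 8596214), (nat_lit 8741122), (nat_lit 8886240), (nat_lit 9031305)]) (FT.cons (FT.leaf [(nat_lit 8710023), (nat_lit 8854083), (nat_lit 8998289), (nat_lit 9142391)]) (FT.cons (FT.leaf [(nat_lit 8966131), (nat_lit 9109412)]) FT.nil))) (FT.cons (FT.cons (FT.leaf [(nat_lit 8862442), (nat_lit 9004922)]) (FT.cons (FT.leaf [(nat_lit 9115568)]) FT.nil)) (FT.cons (FT.cons (FT.leaf [(nat_lit 9262980)]) FT.nil) (FT.cons (FT.cons (FT.leaf [(nat_lit 9653038)]) FT.nil) FT.nil)))))) (FT.cons (FT.cons (FT.cons (FT.leaf [(nat_lit 8295368), (nat_lit 8437725), (nat_lit 8581172), (nat_lit 8725275), (nat_lit 8869687), (nat_lit 9014132)]) (FT.cons (FT.leaf [(nat_lit 8551853), (nat_lit 8694593), (nat_lit 8837901), (nat_lit 8981448), (nat_lit 9124972)]) (FT.cons (FT.leaf [(nat_lit 8807153), (nat_lit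 8949642), (nat_lit 9092307), (nat_lit 9234897)]) (FT.cons (FT.leaf [(nat_lit 9060496), (nat_lit 9202264)]) FT.nil)))) (FT.cons (FT.cons (FT.leaf [(nat_lit 8705460), (nat_lit 8846720), (nat_lit 8988496), (nat_lit 9130473), (nat_lit 9272397)]) (FT.cons (FT.leaf
 [(nat_lit 8957908), (nat_lit 9098860), (nat_lit 9239954), (nat_lit 9380948)]) (FT.cons (FT.leaf [(nat_lit 9208345), (nat_lit 9348544)]) FT.nil))) (FT.cons (FT.cons (FT.leaf [(nat_lit 9106646)]) (FT.cons (FT.leaf [(nat_lit 9354215)]) FT.nil)) (FT.cons (FT.cons (FT.leaf [(nat_lit 9498148)]) FT.nil) (FT.cons (FT.cons (FT.leaf [(nat_lit 9879581)]) FT.nil) FT.nil))))) (FT.cons (FT.cons (FT.cons (FT.leaf [(nat_lit 8952476), (nat_lit 9090754), (nat_lit 9229528)]) (FT.cons (FT.leaf [(nat_lit 9199436), (nat_lit 9337411)]) (FT.cons (FT.leaf [(nat_lit 9444446)]) FT.nil))) (FT.cons (FT.cons (FT.leaf [(nat_lit 9344665)]) (FT.cons (FT.leaf [(nat_lit 9586915)]) FT.nil)) (FT.cons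 (FT.cons (FT.leaf [(nat_lit 9727528)]) FT.nil) FT.nil))) (FT.cons (FT.cons (FT.cons (FT.leaf [(nat_lit 9576798)]) FT.nil) (FT.cons (FT.cons (FT.leaf [(nat_lit 9951399)]) FT.nil) FT.nil)) (FT.cons (FT.cons (FT.cons (FT.leaf [(nat_lit 10170019)]) FT.nil) FT.nil) (FT.cons (FT.cons (FT.cons (FT.leaf [(nat_lit 10734138)]) FT.nil) FT.nil) (FT.cons (FT.cons (FT.cons (FT.leaf [(nat_lit 11271222)]) FT.nil) FT.nil) FT.nil)))))))) (FT.cons (FT.cons (FT.cons (FT.cons (FT.leaf [(nat_lit 8333199), (nat_lit 8467946), (nat_lit 8604651),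
 (nat_lit 8742729), (nat_lit 8881722), (nat_lit 9021269), (nat_lit 9161080), (nat_lit 9300914)]) (FT.cons (FT.leaf [(nat_lit 8578597), (nat_lit 8714919), (nat_lit 8852487), (nat_lit 8990870), (nat_lit 9129724), (nat_lit 9268773), (nat_lit 9407789)]) (FT.cons (FT.leaf [(nat_lit 8824501), (nat_lit 8961519), (nat_lit 9099259), (nat_lit 9237393), (nat_lit 9375660)]) (FT.cons (FT.leaf [(nat_lit 9069811), (nat_lit 9206877), (nat_lit 9344270), (nat_lit 9481737)]) (FT.cons (FT.leaf [(nat_lit 9313719), (nat_lit 9450349)]) (FT.cons (FT.leaf [(nat_lit 9555631)]) FT.nil)))))) (FT.cons (FT.cons (FT.leaf [(nat_lit 8728702), (nat_lit 8863850), (nat_lit 9000165), (nat_lit 9137230), (nat_lit 9274714), (nat_lit 9412352)]) (FT.cons (FT.leaf [(nat_lit 8972241), (nat_lit 9107983), (nat_lit 9244389), (nat_lit 9381143), (nat_lit 9517994)]) (FT.cons (FT.leaf [(nat_lit 9215059), (nat_lit 9350779), (nat_lit 9486785), (nat_lit 9622834)]) (FT.cons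 (FT.leaf [(nat_lit 9456397), (nat_lit 9591635)]) (FT.cons (FT.leaf [(nat_lit 9695694)]) FT.nil))))) (FT.cons (FT.cons (FT.leaf [(nat_lit 9118159), (nat_lit 9252622), (nat_lit 9387697), (nat_lit 9523080), (nat_lit 9658527)]) (FT.cons (FT.leaf [(nat_lit 9358495),
 (nat_lit 9492874), (nat_lit 9627503), (nat_lit 9762147)]) (FT.cons (FT.leaf [(nat_lit 9597282), (nat_lit 9731142)]) FT.nil))) (FT.cons (FT.cons (FT.leaf [(nat_lit 9500146)]) (FT.cons (FT.leaf [(nat_lit 9736408)]) FT.nil)) (FT.cons (FT.cons (FT.leaf [(nat_lit 9873807)]) FT.nil) (FT.cons (FT.cons (FT.leaf [(nat_lit 10238666)]) FT.nil) FT.nil)))))) (FT.cons (FT.cons (FT.cons (FT.leaf [(nat_lit 8971564), (nat_lit 9104096), (nat_lit 9237743), (nat_lit 9372102), (nat_lit 9506858), (nat_lit 9641754)]) (FT.cons (FT.leaf [(nat_lit 9210201), (nat_lit 9343279), (nat_lit 9476990), (nat_lit 9611032), (nat_lit 9745161)]) (FT.cons (FT.leaf [(nat_lit 9448092), (nat_lit 9581132),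 (nat_lit 9714442), (nat_lit 9847791)]) (FT.cons (FT.leaf [(nat_lit 9684522), (nat_lit 9817086)]) FT.nil)))) (FT.cons (FT.cons (FT.leaf [(nat_lit 9352849), (nat_lit 9484684), (nat_lit 9617103), (nat_lit 9749816), (nat_lit 9882586)]) (FT.cons (FT.leaf [(nat_lit 9588333), (nat_lit 9720073), (nat_lit 9852051), (nat_lit 9984042)]) (FT.cons (FT.leaf [(nat_lit 9822297), (nat_lit 9953527)]) FT.nil))) (FT.cons (FT.cons (FT.leaf [(nat_lit 9726857)]) (FT.cons (FT.leaf [(nat_lit 9958379)]) FT.nil)) (FT.cons (FT.cons (FT.leaf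
 [(nat_lit 10092800)]) FT.nil) (FT.cons (FT.cons (FT.leaf [(nat_lit 10450250)]) FT.nil) FT.nil))))) (FT.cons (FT.cons (FT.cons (FT.leaf [(nat_lit 9581962), (nat_lit 9711263), (nat_lit 9841125)]) (FT.cons (FT.leaf [(nat_lit 9812776), (nat_lit 9941975)]) (FT.cons (FT.leaf [(nat_lit 10042102)]) FT.nil))) (FT.cons (FT.cons (FT.leaf [(nat_lit 9948303)]) (FT.cons (FT.leaf [(nat_lit 10175269)]) FT.nil)) (FT.cons (FT.cons (FT.leaf [(nat_lit 10306838)]) FT.nil) FT.nil))) (FT.cons (FT.cons (FT.cons (FT.leaf [(nat_lit 10164717)]) FT.nil) (FT.cons (FT.cons (FT.leaf [(nat_lit 10516136)]) FT.nil) FT.nil)) (FT.cons (FT.cons (FT.cons (FT.leaf [(nat_lit 10720899)]) FT.nil) FT.nil) (FT.cons (FT.cons (FT.cons (FT.leaf [(nat_lit 11251924)]) FT.nil) FT.nil) FT.nil)))))) (FT.cons (FT.cons (FT.cons (FT.cons (FT.leaf [(nat_lit 9594295), (nat_lit 9718521), (nat_lit 9843862), (nat_lit 9969948), (nat_lit 10096484)]) (FT.cons (FT.leaf [(nat_lit 9817836),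 (nat_lit 9942712), (nat_lit 10068258), (nat_lit 10194194)]) (FT.cons (FT.leaf [(nat_lit 10040942), (nat_lit 10165927)]) (FT.cons (FT.leaf [(nat_lit 10262951)]) FT.nil)))) (FT.cons (FT.cons (FT.leaf [(nat_lit 9951204), (nat_lit 10075016), (nat_lit 10199454)])
 (FT.cons (FT.leaf [(nat_lit 10172243), (nat_lit 10296111)]) (FT.cons (FT.leaf [(nat_lit 10392125)]) FT.nil))) (FT.cons (FT.cons (FT.leaf [(nat_lit 10302057)]) FT.nil) FT.nil))) (FT.cons (FT.cons (FT.cons (FT.leaf [(nat_lit 10165143), (nat_lit 10286766), (nat_lit 10408992)]) (FT.cons (FT.leaf [(nat_lit 10382144), (nat_lit 10503810)]) FT.nil)) (FT.cons (FT.cons (FT.leaf [(nat_lit 10509361)]) FT.nil) FT.nil)) (FT.cons (FT.cons (FT.cons (FT.leaf [(nat_lit 10712301)]) FT.nil) FT.nil) (FT.cons (FT.cons (FT.cons (FT.leaf [(nat_lit 11236433)]) FT.nil) FT.nil) FT.nil)))) (FT.cons (FT.cons (FT.cons (FT.cons (FT.leaf [(nat_lit 10708958)]) FT.nil) FT.nil) (FT.cons (FT.cons (FT.cons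 (FT.leaf [(nat_lit 11225211)]) FT.nil) FT.nil) FT.nil)) (FT.cons (FT.cons (FT.cons (FT.cons (FT.leaf [(nat_lit 11707944)]) FT.nil) FT.nil) FT.nil) (FT.cons (FT.cons (FT.cons (FT.cons (FT.leaf [(nat_lit 12613235)]) FT.nil) FT.nil) FT.nil) FT.nil))))))))

def f152_1_600 : FT := (FT.cons (FT.cons (FT.cons (FT.cons (FT.leaf [(nat_lit 3728753), (nat_lit 3887885), (nat_lit 4058540), (nat_lit 4237693), (nat_lit 4423155), (nat_lit 4613263), (nat_lit 4806713), (nat_lit 5002464), (nat_lit 5199672), (nat_lit 5397647), (nat_lit 5595823)]) (FT.cons (FT.leaf [(nat_lit 4043075), (nat_lit 4215834), (nat_lit 4396283), (nat_lit 4582384), (nat_lit 4772593), (nat_lit 4965706), (nat_lit 5160759), (nat_lit 5356976), (nat_lit 5553723), (nat_lit 5750476)]) (FT.cons (FT.leaf [(nat_lit 4373203), (nat_lit 4554544), (nat_lit 4740962), (nat_lit 4931016), (nat_lit 5123587), (nat_lit 5317781), (nat_lit 5512880), (nat_lit 5708299), (nat_lit 5903558)])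 (FT.cons (FT.leaf [(nat_lit 4712271), (nat_lit 4898728), (nat_lit 5088407), (nat_lit 5280260), (nat_lit 5473458), (nat_lit 5667333), (nat_lit 5861344)]) (FT.cons (FT.leaf [(nat_lit 5055546), (nat_lit 5244662), (nat_lit 5435649), (nat_lit 5627733), (nat_lit 5820294)]) (FT.cons (FT.leaf [(nat_lit 5399696), (nat_lit 5589690), (nat_lit 5780562), (nat_lit 5971736)]) (FT.cons (FT.leaf [(nat_lit 5742332), (nat_lit 5931911)]) (FT.cons (FT.leaf [(nat_lit 6081752)]) (FT.cons (FT.leaf [(nat_lit 6416748)]) FT.nil))))))))) (FT.cons (FT.cons (FT.leaf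
 [(nat_lit 4267791), (nat_lit 4440385), (nat_lit 4620085), (nat_lit 4804945), (nat_lit 4993503), (nat_lit 5184629), (nat_lit 5377423), (nat_lit 5571162), (nat_lit 5765258), (nat_lit 5959231)]) (FT.cons (FT.leaf [(nat_lit 4596407), (nat_lit 4776694), (nat_lit 4961625), (nat_lit 5149834), (nat_lit 5340267), (nat_lit 5532089), (nat_lit 5724628), (nat_lit 5917343), (nat_lit 6109788)]) (FT.cons (FT.leaf [(nat_lit 4932605), (nat_lit 5117372), (nat_lit 5305045), (nat_lit 5494638), (nat_lit 5685372), (nat_lit 5876624), (nat_lit 6067891)]) (FT.cons (FT.leaf [(nat_lit 5272076), (nat_lit 5459052), (nat_lit 5647679), (nat_lit 5837229), (nat_lit 6027120)]) (FT.cons (FT.leaf [(nat_lit 5611788), (nat_lit 5799342), (nat_lit 5987625), (nat_lit 6176093)]) (FT.cons (FT.leaf [(nat_lit 5949588), (nat_lit 6136535)]) (FT.cons (FT.leaf [(nat_lit 6283939)]) (FT.cons (FT.leaf [(nat_lit 6613760)]) FT.nil)))))))) (FT.cons (FT.cons (FT.leaf [(nat_lit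 4816559), (nat_lit 4995556), (nat_lit 5178820), (nat_lit 5365053), (nat_lit 5553259), (nat_lit 5742652), (nat_lit 5932605), (nat_lit 6122611)]) (FT.cons (FT.leaf [(nat_lit 5149546), (nat_lit 5332476), (nat_lit 5518043), (nat_lit 5705310), (nat_lit 5893546),
 (nat_lit 6082164), (nat_lit 6270694)]) (FT.cons (FT.leaf [(nat_lit 5485016), (nat_lit 5669779), (nat_lit 5856002), (nat_lit 6042998), (nat_lit 6230222)]) (FT.cons (FT.leaf [(nat_lit 5820209), (nat_lit 6005297), (nat_lit 6190986), (nat_lit 6376762)]) (FT.cons (FT.leaf [(nat_lit 6153164), (nat_lit 6337488)]) (FT.cons (FT.leaf [(nat_lit 6482494)]) FT.nil)))))) (FT.cons (FT.cons (FT.leaf [(nat_lit 5363043), (nat_lit 5544031), (nat_lit 5727418), (nat_lit 5912318), (nat_lit 6098037), (nat_lit 6284024)]) (FT.cons (FT.leaf [(nat_lit 5694378), (nat_lit 5876876), (nat_lit 6060670), (nat_lit 6245110), (nat_lit 6429677)]) (FT.cons (FT.leaf [(nat_lit 6025004), (nat_lit 6207616),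 (nat_lit 6390719), (nat_lit 6573827)]) (FT.cons (FT.leaf [(nat_lit 6353133), (nat_lit 6534852)]) (FT.cons (FT.leaf [(nat_lit 6677503)]) FT.nil))))) (FT.cons (FT.cons (FT.leaf [(nat_lit 5900190), (nat_lit 6080391), (nat_lit 6261745), (nat_lit 6443635), (nat_lit 6625573)]) (FT.cons (FT.leaf [(nat_lit 6226233), (nat_lit 6406370), (nat_lit 6586905), (nat_lit 6767377)]) (FT.cons (FT.leaf [(nat_lit 6549571), (nat_lit 6728712)]) FT.nil))) (FT.cons (FT.cons (FT.leaf [(nat_lit 6423960)]) (FT.cons (FT.leaf [(nat_lit 6742559)])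
 FT.nil)) (FT.cons (FT.cons (FT.leaf [(nat_lit 6932181)]) FT.nil) (FT.cons (FT.cons (FT.leaf [(nat_lit 7423848)]) FT.nil) (FT.cons (FT.cons (FT.leaf [(nat_lit 7898688)]) FT.nil) FT.nil))))))))) (FT.cons (FT.cons (FT.cons (FT.leaf [(nat_lit 4650924), (nat_lit 4819770), (nat_lit 4995219), (nat_lit 5175416), (nat_lit 5358987), (nat_lit 5544873), (nat_lit 5732239), (nat_lit 5920416), (nat_lit 6108866), (nat_lit 6297146)]) (FT.cons (FT.leaf [(nat_lit 4971562), (nat_lit 5147391), (nat_lit 5327508), (nat_lit 5510625), (nat_lit 5695754), (nat_lit 5882119), (nat_lit 6069098), (nat_lit 6256189), (nat_lit 6442981)]) (FT.cons (FT.leaf [(nat_lit 5298786), (nat_lit 5478623), (nat_lit 5661129), (nat_lit 5845379), (nat_lit 6030646), (nat_lit 6216353), (nat_lit 6402030)]) (FT.cons (FT.leaf [(nat_lit 5628672), (nat_lit 5810432), (nat_lit 5993697), (nat_lit 6177788), (nat_lit 6362160)]) (FT.cons (FT.leaf [(nat_lit 5958482), (nat_lit 6140673),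 (nat_lit 6323517), (nat_lit 6506507)]) (FT.cons (FT.leaf [(nat_lit 6286274), (nat_lit 6467816)]) (FT.cons (FT.leaf [(nat_lit 6610672)]) FT.nil))))))) (FT.cons (FT.cons (FT.leaf [(nat_lit 5184808), (nat_lit 5359244), (nat_lit 5537641), (nat_lit 5718775), (nat_lit
 5901706), (nat_lit 6085702), (nat_lit 6270178), (nat_lit 6454666)]) (FT.cons (FT.leaf [(nat_lit 5508716), (nat_lit 5686697), (nat_lit 5867115), (nat_lit 6049090), (nat_lit 6231935), (nat_lit 6415106), (nat_lit 6598164)]) (FT.cons (FT.leaf [(nat_lit 5834634), (nat_lit 6014220), (nat_lit 6195150), (nat_lit 6376777), (nat_lit 6558592)]) (FT.cons (FT.leaf [(nat_lit 6160049), (nat_lit 6339857), (nat_lit 6520209), (nat_lit 6700627)]) (FT.cons (FT.leaf [(nat_lit 6483188), (nat_lit 6662219)]) (FT.cons (FT.leaf [(nat_lit 6802796)]) FT.nil)))))) (FT.cons (FT.cons (FT.leaf [(nat_lit 5715305), (nat_lit 5891352), (nat_lit 6069632), (nat_lit 6249307), (nat_lit 6429727), (nat_lit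 6610376)]) (FT.cons (FT.leaf [(nat_lit 6037165), (nat_lit 6214545), (nat_lit 6393128), (nat_lit 6572300), (nat_lit 6751578)]) (FT.cons (FT.leaf [(nat_lit 6358167), (nat_lit 6535593), (nat_lit 6713470), (nat_lit 6891343)]) (FT.cons (FT.leaf [(nat_lit 6676686), (nat_lit 6853229)]) (FT.cons (FT.leaf [(nat_lit 6991572)]) FT.nil))))) (FT.cons (FT.cons (FT.leaf [(nat_lit 6236305), (nat_lit 6411463), (nat_lit 6587700), (nat_lit 6764431), (nat_lit 6941199)]) (FT.cons (FT.leaf [(nat_lit 6552900), (nat_lit 6727954), (nat_lit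
 6903378), (nat_lit 7078740)]) (FT.cons (FT.leaf [(nat_lit 6866844), (nat_lit 7040929)]) FT.nil))) (FT.cons (FT.cons (FT.leaf [(nat_lit 6744314)]) (FT.cons (FT.leaf [(nat_lit 7053742)]) FT.nil)) (FT.cons (FT.cons (FT.leaf [(nat_lit 7237459)]) FT.nil) (FT.cons (FT.cons (FT.leaf [(nat_lit 7714884)]) FT.nil) (FT.cons (FT.cons (FT.leaf [(nat_lit 8176366)]) FT.nil) FT.nil)))))))) (FT.cons (FT.cons (FT.cons (FT.leaf [(nat_lit 5539919), (nat_lit 5709904), (nat_lit 5883594), (nat_lit 6059826), (nat_lit 6237715), (nat_lit 6416573), (nat_lit 6595853), (nat_lit 6775117)]) (FT.cons (FT.leaf [(nat_lit 5855039), (nat_lit 6028256), (nat_lit 6203745), (nat_lit 6380676), (nat_lit 6558401), (nat_lit 6736411), (nat_lit 6914295)]) (FT.cons (FT.leaf [(nat_lit 6171811), (nat_lit 6346458), (nat_lit 6522354), (nat_lit 6698890), (nat_lit 6875588)]) (FT.cons (FT.leaf [(nat_lit 6487929), (nat_lit 6662726), (nat_lit 6838026), (nat_lit 7013376)]) (FT.cons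 (FT.leaf [(nat_lit 6801776), (nat_lit 6975799)]) (FT.cons (FT.leaf [(nat_lit 7112205)]) FT.nil)))))) (FT.cons (FT.cons (FT.leaf [(nat_lit 6055072), (nat_lit 6226386), (nat_lit 6399793), (nat_lit 6574501), (nat_lit 6749895), (nat_lit 6925491)]) (FT.cons
 (FT.leaf [(nat_lit 6367891), (nat_lit 6540402), (nat_lit 6714039), (nat_lit 6888223), (nat_lit 7062497)]) (FT.cons (FT.leaf [(nat_lit 6679763), (nat_lit 6852274), (nat_lit 7025207), (nat_lit 7198132)]) (FT.cons (FT.leaf [(nat_lit 6989193), (nat_lit 7160843)]) (FT.cons (FT.leaf [(nat_lit 7295129)]) FT.nil))))) (FT.cons (FT.cons (FT.leaf [(nat_lit 6560740), (nat_lit 6731108), (nat_lit 6902494), (nat_lit 7074345), (nat_lit 7246227)]) (FT.cons (FT.leaf [(nat_lit 6868384), (nat_lit 7038625), (nat_lit 7209218), (nat_lit 7379752)]) (FT.cons (FT.leaf [(nat_lit 7173452), (nat_lit 7342759)]) FT.nil))) (FT.cons (FT.cons (FT.leaf [(nat_lit 7053861)]) (FT.cons (FT.leaf [(nat_lit 7354627)])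 FT.nil)) (FT.cons (FT.cons (FT.leaf [(nat_lit 7532795)]) FT.nil) (FT.cons (FT.cons (FT.leaf [(nat_lit 7996798)]) FT.nil) FT.nil)))))) (FT.cons (FT.cons (FT.cons (FT.leaf [(nat_lit 6383112), (nat_lit 6549902), (nat_lit 6718669), (nat_lit 6888657), (nat_lit 7059287)]) (FT.cons (FT.leaf [(nat_lit 6687321), (nat_lit 6855203), (nat_lit 7024148), (nat_lit 7193607)]) (FT.cons (FT.leaf [(nat_lit 6990535), (nat_lit 7158388)]) (FT.cons (FT.leaf [(nat_lit 7291370)]) FT.nil)))) (FT.cons (FT.cons (FT.leaf [(nat_lit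
 6874240), (nat_lit 7040060), (nat_lit 7206848)]) (FT.cons (FT.leaf [(nat_lit 7173404), (nat_lit 7339087)]) (FT.cons (FT.leaf [(nat_lit 7470078)]) FT.nil))) (FT.cons (FT.cons (FT.leaf [(nat_lit 7353293)]) (FT.cons (FT.leaf [(nat_lit 7645870)]) FT.nil)) (FT.cons (FT.cons (FT.leaf [(nat_lit 7818817)]) FT.nil) (FT.cons (FT.cons (FT.leaf [(nat_lit 8270153)]) FT.nil) FT.nil))))) (FT.cons (FT.cons (FT.cons (FT.leaf [(nat_lit 7177492), (nat_lit 7338992), (nat_lit 7501420)]) (FT.cons (FT.leaf [(nat_lit 7468618), (nat_lit 7629981)]) (FT.cons (FT.leaf [(nat_lit 7757351)]) FT.nil))) (FT.cons (FT.cons (FT.leaf [(nat_lit 7643242)]) (FT.cons (FT.leaf [(nat_lit 7928071)]) FT.nil)) (FT.cons (FT.cons (FT.leaf [(nat_lit 8096097)]) FT.nil) FT.nil))) (FT.cons (FT.cons (FT.cons (FT.leaf [(nat_lit 7924294)]) FT.nil) (FT.cons (FT.cons (FT.leaf [(nat_lit 8365161)]) FT.nil) FT.nil)) (FT.cons (FT.cons (FT.cons (FT.leaf [(nat_lit 8626486)]) FT.nil)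 FT.nil) (FT.cons (FT.cons (FT.cons (FT.leaf [(nat_lit 9287638)]) FT.nil) FT.nil) (FT.cons (FT.cons (FT.cons (FT.leaf [(nat_lit 9911334)]) FT.nil) FT.nil) FT.nil))))))))) (FT.cons (FT.cons (FT.cons (FT.cons (FT.leaf [(nat_lit 5679854), (nat_lit 5831589), (nat_lit
 5989334), (nat_lit 6151465), (nat_lit 6316783), (nat_lit 6484368), (nat_lit 6653494), (nat_lit 6823579), (nat_lit 6994152), (nat_lit 7164825)]) (FT.cons (FT.leaf [(nat_lit 5967530), (nat_lit 6125740), (nat_lit 6287948), (nat_lit 6453028), (nat_lit 6620119), (nat_lit 6788543), (nat_lit 6957755), (nat_lit 7127315), (nat_lit 7296862)]) (FT.cons (FT.leaf [(nat_lit 6261594), (nat_lit 6423712), (nat_lit 6588422), (nat_lit 6754915), (nat_lit 6922552), (nat_lit 7090826), (nat_lit 7259323)]) (FT.cons (FT.leaf [(nat_lit 6558683), (nat_lit 6722909), (nat_lit 6888711), (nat_lit 7055491), (nat_lit 7222771)]) (FT.cons (FT.leaf [(nat_lit 6856440), (nat_lit 7021474), (nat_lit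 7187335), (nat_lit 7353573)]) (FT.cons (FT.leaf [(nat_lit 7153173), (nat_lit 7318062)]) (FT.cons (FT.leaf [(nat_lit 7447660)]) FT.nil))))))) (FT.cons (FT.cons (FT.leaf [(nat_lit 6157949), (nat_lit 6315160), (nat_lit 6476099), (nat_lit 6639688), (nat_lit 6805106), (nat_lit 6971710), (nat_lit 7138984), (nat_lit 7306515)]) (FT.cons (FT.leaf [(nat_lit 6449541), (nat_lit 6610275), (nat_lit 6773405), (nat_lit 6938156), (nat_lit 7103923), (nat_lit 7270224), (nat_lit 7436668)]) (FT.cons (FT.leaf [(nat_lit 6743611), (nat_lit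
 6906180), (nat_lit 7070185), (nat_lit 7235054), (nat_lit 7400334)]) (FT.cons (FT.leaf [(nat_lit 7037977), (nat_lit 7201167), (nat_lit 7365084), (nat_lit 7529302)]) (FT.cons (FT.leaf [(nat_lit 7331077), (nat_lit 7493999)]) (FT.cons (FT.leaf [(nat_lit 7621785)]) FT.nil)))))) (FT.cons (FT.cons (FT.leaf [(nat_lit 6634890), (nat_lit 6794170), (nat_lit 6955670), (nat_lit 7118649), (nat_lit 7282532), (nat_lit 7446858)]) (FT.cons (FT.leaf [(nat_lit 6925853), (nat_lit 7086730), (nat_lit 7248918), (nat_lit 7411870), (nat_lit 7575154)]) (FT.cons (FT.leaf [(nat_lit 7216794), (nat_lit 7378130), (nat_lit 7540107), (nat_lit 7702315)]) (FT.cons (FT.leaf [(nat_lit 7506268), (nat_lit 7667229)]) (FT.cons (FT.leaf [(nat_lit 7793232)]) FT.nil))))) (FT.cons (FT.cons (FT.leaf [(nat_lit 7105430), (nat_lit 7264590), (nat_lit 7424949), (nat_lit 7585986), (nat_lit 7747286)]) (FT.cons (FT.leaf [(nat_lit 7392930), (nat_lit 7552409), (nat_lit 7712451),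 (nat_lit 7872667)]) (FT.cons (FT.leaf [(nat_lit 7678794), (nat_lit 7837809)]) FT.nil))) (FT.cons (FT.cons (FT.leaf [(nat_lit 7566426)]) (FT.cons (FT.leaf [(nat_lit 7848706)]) FT.nil)) (FT.cons (FT.cons (FT.leaf [(nat_lit 8016059)]) FT.nil) (FT.cons (FT.cons
 (FT.leaf [(nat_lit 8453354)]) FT.nil) FT.nil))))))) (FT.cons (FT.cons (FT.cons (FT.leaf [(nat_lit 6474109), (nat_lit 6627884), (nat_lit 6785171), (nat_lit 6944940), (nat_lit 7106409), (nat_lit 7268971), (nat_lit 7432140), (nat_lit 7595524)]) (FT.cons (FT.leaf [(nat_lit 6758884), (nat_lit 6915910), (nat_lit 7075184), (nat_lit 7235971), (nat_lit 7397697), (nat_lit 7559906), (nat_lit 7722229)]) (FT.cons (FT.leaf [(nat_lit 7045806), (nat_lit 7204499), (nat_lit 7364535), (nat_lit 7525372), (nat_lit 7686581)]) (FT.cons (FT.leaf [(nat_lit 7332853), (nat_lit 7492078), (nat_lit 7651980), (nat_lit 7812153)]) (FT.cons (FT.leaf [(nat_lit 7618581), (nat_lit 7777509)]) (FT.cons (FT.leaf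 [(nat_lit 7901952)]) FT.nil)))))) (FT.cons (FT.cons (FT.leaf [(nat_lit 6939101), (nat_lit 7094679), (nat_lit 7252349), (nat_lit 7411407), (nat_lit 7571303), (nat_lit 7731604)]) (FT.cons (FT.leaf [(nat_lit 7222967), (nat_lit 7380004), (nat_lit 7538273), (nat_lit 7697255), (nat_lit 7856541)]) (FT.cons (FT.leaf [(nat_lit 7506685), (nat_lit 7664114), (nat_lit 7822143), (nat_lit 7980383)]) (FT.cons (FT.leaf [(nat_lit 7788915), (nat_lit 7945956)]) (FT.cons (FT.leaf [(nat_lit 8068691)]) FT.nil))))) (FT.cons (FT.cons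
 (FT.leaf [(nat_lit 7397566), (nat_lit 7552931), (nat_lit 7709428), (nat_lit 7866561), (nat_lit 8023939)]) (FT.cons (FT.leaf [(nat_lit 7677952), (nat_lit 7833586), (nat_lit 7989752), (nat_lit 8146078)]) (FT.cons (FT.leaf [(nat_lit 7956706), (nat_lit 8111876)]) FT.nil))) (FT.cons (FT.cons (FT.leaf [(nat_lit 7846696)]) (FT.cons (FT.leaf [(nat_lit 8122007)]) FT.nil)) (FT.cons (FT.cons (FT.leaf [(nat_lit 8284867)]) FT.nil) (FT.cons (FT.cons (FT.leaf [(nat_lit 8711213)]) FT.nil) FT.nil)))))) (FT.cons (FT.cons (FT.cons (FT.leaf [(nat_lit 7234105), (nat_lit 7386111), (nat_lit 7540102), (nat_lit 7695400), (nat_lit 7851485), (nat_lit 8007943)]) (FT.cons (FT.leaf [(nat_lit 7511152), (nat_lit 7664505), (nat_lit 7819024), (nat_lit 7974213), (nat_lit 8129683)]) (FT.cons (FT.leaf [(nat_lit 7787960), (nat_lit 7941654), (nat_lit 8095914), (nat_lit 8250371)]) (FT.cons (FT.leaf [(nat_lit 8063279), (nat_lit 8216581)]) FT.nil)))) (FT.cons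 (FT.cons (FT.leaf [(nat_lit 7681016), (nat_lit 7832745), (nat_lit 7985551), (nat_lit 8138958), (nat_lit 8292593)]) (FT.cons (FT.leaf [(nat_lit 7954604), (nat_lit 8106566), (nat_lit 8259034), (nat_lit 8411652)]) (FT.cons (FT.leaf [(nat_lit 8226581), (nat_lit
 8378084)]) FT.nil))) (FT.cons (FT.cons (FT.leaf [(nat_lit 8118837)]) (FT.cons (FT.leaf [(nat_lit 8387506)]) FT.nil)) (FT.cons (FT.cons (FT.leaf [(nat_lit 8546104)]) FT.nil) (FT.cons (FT.cons (FT.leaf [(nat_lit 8962040)]) FT.nil) FT.nil))))) (FT.cons (FT.cons (FT.cons (FT.leaf [(nat_lit 7956258), (nat_lit 8104502), (nat_lit 8253778)]) (FT.cons (FT.leaf [(nat_lit 8223347), (nat_lit 8371800)]) (FT.cons (FT.leaf [(nat_lit 8488859)]) FT.nil))) (FT.cons (FT.cons (FT.leaf [(nat_lit 8383296)]) (FT.cons (FT.leaf [(nat_lit 8645631)]) FT.nil)) (FT.cons (FT.cons (FT.leaf [(nat_lit 8800184)]) FT.nil) FT.nil))) (FT.cons (FT.cons (FT.cons (FT.leaf [(nat_lit 8640486)]) FT.nil) (FT.cons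 (FT.cons (FT.leaf [(nat_lit 9047486)]) FT.nil) FT.nil)) (FT.cons (FT.cons (FT.cons (FT.leaf [(nat_lit 9288361)]) FT.nil) FT.nil) (FT.cons (FT.cons (FT.cons (FT.leaf [(nat_lit 9902140)]) FT.nil) FT.nil) (FT.cons (FT.cons (FT.cons (FT.leaf [(nat_lit 10484301)]) FT.nil) FT.nil) FT.nil)))))))) (FT.cons (FT.cons (FT.cons (FT.cons (FT.leaf [(nat_lit 7304309), (nat_lit 7445342), (nat_lit 7589688), (nat_lit 7736422), (nat_lit 7884842), (nat_lit 8034403), (nat_lit 8184668), (nat_lit 8335284)]) (FT.cons (FT.leaf [(nat_lit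
 7565207), (nat_lit 7709420), (nat_lit 7855816), (nat_lit 8003733), (nat_lit 8152653), (nat_lit 8302167), (nat_lit 8451941)]) (FT.cons (FT.leaf [(nat_lit 7828487), (nat_lit 7974467), (nat_lit 8121818), (nat_lit 8270050), (nat_lit 8418775)]) (FT.cons (FT.leaf [(nat_lit 8092346), (nat_lit 8239077), (nat_lit 8386579), (nat_lit 8534481)]) (FT.cons (FT.leaf [(nat_lit 8355491), (nat_lit 8502225)]) (FT.cons (FT.leaf [(nat_lit 8616980)]) FT.nil)))))) (FT.cons (FT.cons (FT.leaf [(nat_lit 7729792), (nat_lit 7872858), (nat_lit 8017972), (nat_lit 8164494), (nat_lit 8311930), (nat_lit 8459888)]) (FT.cons (FT.leaf [(nat_lit 7990617), (nat_lit 8135267), (nat_lit 8281188), (nat_lit 8427910), (nat_lit 8575061)]) (FT.cons (FT.leaf [(nat_lit 8251777), (nat_lit 8397049), (nat_lit 8543019), (nat_lit 8689336)]) (FT.cons (FT.leaf [(nat_lit 8512061), (nat_lit 8657248)]) (FT.cons (FT.leaf [(nat_lit 8770589)]) FT.nil))))) (FT.cons (FT.cons (FT.leaf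 [(nat_lit 8150648), (nat_lit 8293948), (nat_lit 8438430), (nat_lit 8583640), (nat_lit 8729223)]) (FT.cons (FT.leaf [(nat_lit 8409095), (nat_lit 8552903), (nat_lit 8697346), (nat_lit 8842084)]) (FT.cons (FT.leaf [(nat_lit 8666527), (nat_lit 8810174)]) FT.nil)))
 (FT.cons (FT.cons (FT.leaf [(nat_lit 8564328)]) (FT.cons (FT.leaf [(nat_lit 8818922)]) FT.nil)) (FT.cons (FT.cons (FT.leaf [(nat_lit 8969284)]) FT.nil) (FT.cons (FT.cons (FT.leaf [(nat_lit 9364623)]) FT.nil) FT.nil)))))) (FT.cons (FT.cons (FT.cons (FT.leaf [(nat_lit 7998666), (nat_lit 8138818), (nat_lit 8280917), (nat_lit 8424351), (nat_lit 8568644), (nat_lit 8713423)]) (FT.cons (FT.leaf [(nat_lit 8253911), (nat_lit 8395537), (nat_lit 8538369), (nat_lit 8681957), (nat_lit 8825945)]) (FT.cons (FT.leaf [(nat_lit 8509386), (nat_lit 8651573), (nat_lit 8794423), (nat_lit 8937595)]) (FT.cons (FT.leaf [(nat_lit 8763953), (nat_lit 8906035)]) FT.nil)))) (FT.cons (FT.cons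 (FT.leaf [(nat_lit 8410047), (nat_lit 8550352), (nat_lit 8691782), (nat_lit 8833903), (nat_lit 8976374)]) (FT.cons (FT.leaf [(nat_lit 8662881), (nat_lit 8803647), (nat_lit 8945016), (nat_lit 9086664)]) (FT.cons (FT.leaf [(nat_lit 8914687), (nat_lit 9055279)]) FT.nil))) (FT.cons (FT.cons (FT.leaf [(nat_lit 8814373)]) (FT.cons (FT.leaf [(nat_lit 9063435)]) FT.nil)) (FT.cons (FT.cons (FT.leaf [(nat_lit 9210234)]) FT.nil) (FT.cons (FT.cons (FT.leaf [(nat_lit 9596818)]) FT.nil) FT.nil))))) (FT.cons (FT.cons (FT.cons (FT.leaf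
 [(nat_lit 8662675), (nat_lit 8800094), (nat_lit 8938589)]) (FT.cons (FT.leaf [(nat_lit 8910114), (nat_lit 9047956)]) (FT.cons (FT.leaf [(nat_lit 9156522)]) FT.nil))) (FT.cons (FT.cons (FT.leaf [(nat_lit 9058031)]) (FT.cons (FT.leaf [(nat_lit 9301789)]) FT.nil)) (FT.cons (FT.cons (FT.leaf [(nat_lit 9445184)]) FT.nil) FT.nil))) (FT.cons (FT.cons (FT.cons (FT.leaf [(nat_lit 9295610)]) FT.nil) (FT.cons (FT.cons (FT.leaf [(nat_lit 9674422)]) FT.nil) FT.nil)) (FT.cons (FT.cons (FT.cons (FT.leaf [(nat_lit 9898215)]) FT.nil) FT.nil) (FT.cons (FT.cons (FT.cons (FT.leaf [(nat_lit 10471940)]) FT.nil) FT.nil) FT.nil)))))) (FT.cons (FT.cons (FT.cons (FT.cons (FT.leaf [(nat_lit 8694342), (nat_lit 8824718), (nat_lit 8956983), (nat_lit 9090578), (nat_lit 9225067)]) (FT.cons (FT.leaf [(nat_lit 8931597), (nat_lit 9063502), (nat_lit 9196621), (nat_lit 9330540)]) (FT.cons (FT.leaf [(nat_lit 9169379), (nat_lit 9301982)]) (FT.cons (FT.leaf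 [(nat_lit 9406650)]) FT.nil)))) (FT.cons (FT.cons (FT.leaf [(nat_lit 9076385), (nat_lit 9207190), (nat_lit 9339134)]) (FT.cons (FT.leaf [(nat_lit 9311950), (nat_lit 9443360)]) (FT.cons (FT.leaf [(nat_lit 9546890)]) FT.nil))) (FT.cons (FT.cons (FT.leaf [(nat_lit
 9452822)]) (FT.cons (FT.leaf [(nat_lit 9685438)]) FT.nil)) (FT.cons (FT.cons (FT.leaf [(nat_lit 9822322)]) FT.nil) FT.nil)))) (FT.cons (FT.cons (FT.cons (FT.leaf [(nat_lit 9310297), (nat_lit 9438658), (nat_lit 9568110)]) (FT.cons (FT.leaf [(nat_lit 9541286), (nat_lit 9670208)]) (FT.cons (FT.leaf [(nat_lit 9771629)]) FT.nil))) (FT.cons (FT.cons (FT.leaf [(nat_lit 9679115)]) (FT.cons (FT.leaf [(nat_lit 9907202)]) FT.nil)) (FT.cons (FT.cons (FT.leaf [(nat_lit 10041170)]) FT.nil) FT.nil))) (FT.cons (FT.cons (FT.cons (FT.leaf [(nat_lit 9900228)]) FT.nil) (FT.cons (FT.cons (FT.leaf [(nat_lit 10255122)]) FT.nil) FT.nil)) (FT.cons (FT.cons (FT.cons (FT.leaf [(nat_lit 10464387)])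 FT.nil) FT.nil) FT.nil)))) (FT.cons (FT.cons (FT.cons (FT.cons (FT.leaf [(nat_lit 9909032)]) FT.nil) FT.nil) (FT.cons (FT.cons (FT.cons (FT.leaf [(nat_lit 10462268)]) FT.nil) FT.nil) FT.nil)) (FT.cons (FT.cons (FT.cons (FT.cons (FT.leaf [(nat_lit 10987850)]) FT.nil) FT.nil) FT.nil) (FT.cons (FT.cons (FT.cons (FT.cons (FT.leaf [(nat_lit 11958332)]) FT.nil) FT.nil) FT.nil) (FT.cons (FT.cons (FT.cons (FT.cons (FT.leaf [(nat_lit 12840422)]) FT.nil) FT.nil) FT.nil) FT.nil))))))))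

end CB
end Pool.Agent.Lib.MP_6947cd_al
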