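import Pool.Agent.Lib.MP_6947cd_al.L.CellBQ

/-!
Problem MP_6947cd_al (Chollet).  CASE B, rows `j`: tables of row values (generated).
-/

set_option autoImplicit false
set_option linter.defProp false
set_option maxRecDepth 20000

namespace Pool.Agent.Lib.MP_6947cd_al
namespace CB

open Ent Ent.Pk Fr Fr.WT CA

def f152_1_750 : FT := (FT.cons (FT.cons (FT.cons (FT.cons (FT.leaf [(nat_lit 4258346), (nat_lit 4408764), (nat_lit 4570095), (nat_lit 4739512), (nat_lit 4914969), (nat_lit 5094923), (nat_lit 5278162), (nat_lit 5463719), (nat_lit 5650809), (nat_lit 5838790), (nat_lit 6027133), (nat_lit 6215398), (nat_lit 6403222)]) (FT.cons (FT.leaf [(nat_lit 4555204), (nat_lit 4718578), (nat_lit 4889294), (nat_lit 5065450), (nat_lit 5245609), (nat_lit 5428650), (nat_lit 5613678), (nat_lit 5799966), (nat_lit 5986923), (nat_lit 6174060), (nat_lit 6360971), (nat_lit 6547327)]) (FT.cons (FT.leaf [(nat_lit 4867204), (nat_lit 5038855), (nat_lit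 5215415), (nat_lit 5395544), (nat_lit 5578198), (nat_lit 5762546), (nat_lit 5947915), (nat_lit 6133754), (nat_lit 6319612), (nat_lit 6505120)]) (FT.cons (FT.leaf [(nat_lit 5188003), (nat_lit 5364716), (nat_lit 5544614), (nat_lit 5726720), (nat_lit 5910258), (nat_lit 6094604), (nat_lit 6279247), (nat_lit 6463770), (nat_lit 6647828)]) (FT.cons (FT.leaf [(nat_lit 5513230), (nat_lit 5692721), (nat_lit 5874139), (nat_lit 6056758), (nat_lit 6239995), (nat_lit 6423378), (nat_lit 6606515)]) (FT.cons (FT.leaf [(nat_lit 5839787), (nat_lit 6020397), (nat_lit 6202003), (nat_lit 6384060), (nat_lit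
 6566124)]) (FT.cons (FT.leaf [(nat_lit 6165444), (nat_lit 6345957), (nat_lit 6526771), (nat_lit 6707473)]) (FT.cons (FT.leaf [(nat_lit 6488591), (nat_lit 6668112)]) (FT.cons (FT.leaf [(nat_lit 6808072)]) (FT.cons (FT.leaf [(nat_lit 7123060)]) FT.nil)))))))))) (FT.cons (FT.cons (FT.leaf [(nat_lit 4766922), (nat_lit 4930272), (nat_lit 5100434), (nat_lit 5275590), (nat_lit 5454375), (nat_lit 5635733), (nat_lit 5818824), (nat_lit 6002972), (nat_lit 6187623), (nat_lit 6372329), (nat_lit 6556713)]) (FT.cons (FT.leaf [(nat_lit 5077774), (nat_lit 5248591), (nat_lit 5423926), (nat_lit 5602502), (nat_lit 5783333), (nat_lit 5965635), (nat_lit 6148783), (nat_lit 6332261), (nat_lit 6515653), (nat_lit 6698610)]) (FT.cons (FT.leaf [(nat_lit 5396190), (nat_lit 5571486), (nat_lit 5749680), (nat_lit 5929845), (nat_lit 6111252), (nat_lit 6293313), (nat_lit 6475553), (nat_lit 6657580), (nat_lit 6839075)]) (FT.cons (FT.leaf [(nat_lit 5718170), (nat_lit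 5895831), (nat_lit 6075212), (nat_lit 6255629), (nat_lit 6436532), (nat_lit 6617477), (nat_lit 6798102)]) (FT.cons (FT.leaf [(nat_lit 6040890), (nat_lit 6219385), (nat_lit 6398732), (nat_lit 6578415), (nat_lit 6758021)]) (FT.cons (FT.leaf [(nat_lit
 6362324), (nat_lit 6540533), (nat_lit 6718946), (nat_lit 6897175)]) (FT.cons (FT.leaf [(nat_lit 6681011), (nat_lit 6858112)]) (FT.cons (FT.leaf [(nat_lit 6995905)]) (FT.cons (FT.leaf [(nat_lit 7306264)]) FT.nil))))))))) (FT.cons (FT.cons (FT.leaf [(nat_lit 5285703), (nat_lit 5455473), (nat_lit 5629415), (nat_lit 5806312), (nat_lit 5985230), (nat_lit 6165431), (nat_lit 6346323), (nat_lit 6527428), (nat_lit 6708355), (nat_lit 6888780)]) (FT.cons (FT.leaf [(nat_lit 5601419), (nat_lit 5775165), (nat_lit 5951556), (nat_lit 6129713), (nat_lit 6308947), (nat_lit 6488705), (nat_lit 6668539), (nat_lit 6848084), (nat_lit 7027042)]) (FT.cons (FT.leaf [(nat_lit 5919968), (nat_lit 6095723), (nat_lit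 6273019), (nat_lit 6451206), (nat_lit 6629767), (nat_lit 6808284), (nat_lit 6986418)]) (FT.cons (FT.leaf [(nat_lit 6238760), (nat_lit 6415107), (nat_lit 6592181), (nat_lit 6769495), (nat_lit 6946658)]) (FT.cons (FT.leaf [(nat_lit 6555947), (nat_lit 6731850), (nat_lit 6907874), (nat_lit 7083654)]) (FT.cons (FT.leaf [(nat_lit 6870199), (nat_lit 7044900)]) (FT.cons (FT.leaf [(nat_lit 7180565)]) (FT.cons (FT.leaf [(nat_lit 7486375)]) FT.nil)))))))) (FT.cons (FT.cons (FT.leaf [(nat_lit 5803642),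
 (nat_lit 5975733), (nat_lit 6150247), (nat_lit 6326349), (nat_lit 6503384), (nat_lit 6680830)]) (FT.cons (FT.leaf [(nat_lit 6118621), (nat_lit 6292416), (nat_lit 6467594), (nat_lit 6643539), (nat_lit 6819762)]) (FT.cons (FT.leaf [(nat_lit 6433428), (nat_lit 6607608), (nat_lit 6782406), (nat_lit 6957363)]) (FT.cons (FT.leaf [(nat_lit 6746367), (nat_lit 6919970)]) (FT.cons (FT.leaf [(nat_lit 7056221)]) (FT.cons (FT.leaf [(nat_lit 7362127)]) FT.nil)))))) (FT.cons (FT.cons (FT.leaf [(nat_lit 6314145), (nat_lit 6485941), (nat_lit 6658984), (nat_lit 6832685), (nat_lit 7006581)]) (FT.cons (FT.leaf [(nat_lit 6624935), (nat_lit 6796940), (nat_lit 6969472), (nat_lit 7142090)]) (FT.cons (FT.leaf [(nat_lit 6933642), (nat_lit 7104962)]) (FT.cons (FT.leaf [(nat_lit 7239149)]) (FT.cons (FT.leaf [(nat_lit 7540666)]) FT.nil))))) (FT.cons (FT.cons (FT.leaf [(nat_lit 6813330), (nat_lit 6983163), (nat_lit 7153441)]) (FT.cons (FT.leaf [(nat_lit 7117835),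 (nat_lit 7286892)]) (FT.cons (FT.leaf [(nat_lit 7419054)]) FT.nil))) (FT.cons (FT.cons (FT.leaf [(nat_lit 7299012)]) (FT.cons (FT.leaf [(nat_lit 7596008)]) FT.nil)) (FT.cons (FT.cons (FT.leaf [(nat_lit 7770084)]) FT.nil) (FT.cons (FT.cons (FT.leaf
 [(nat_lit 8226124)]) FT.nil) FT.nil))))))))) (FT.cons (FT.cons (FT.cons (FT.leaf [(nat_lit 5127331), (nat_lit 5287469), (nat_lit 5453964), (nat_lit 5625078), (nat_lit 5799520), (nat_lit 5976298), (nat_lit 6154628), (nat_lit 6333881), (nat_lit 6513549), (nat_lit 6693211), (nat_lit 6872527)]) (FT.cons (FT.leaf [(nat_lit 5431296), (nat_lit 5598255), (nat_lit 5769403), (nat_lit 5943533), (nat_lit 6119715), (nat_lit 6297220), (nat_lit 6475461), (nat_lit 6653963), (nat_lit 6832339), (nat_lit 7010268)]) (FT.cons (FT.leaf [(nat_lit 5741908), (nat_lit 5912905), (nat_lit 6086575), (nat_lit 6262046), (nat_lit 6438633), (nat_lit 6615790), (nat_lit 6793074), (nat_lit 6970121), (nat_lit 7146636)])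 (FT.cons (FT.leaf [(nat_lit 6055501), (nat_lit 6228583), (nat_lit 6403241), (nat_lit 6578833), (nat_lit 6754847), (nat_lit 6930865), (nat_lit 7106553)]) (FT.cons (FT.leaf [(nat_lit 6369505), (nat_lit 6543264), (nat_lit 6717794), (nat_lit 6892612), (nat_lit 7067329)]) (FT.cons (FT.leaf [(nat_lit 6682083), (nat_lit 6855493), (nat_lit 7029074), (nat_lit 7202459)]) (FT.cons (FT.leaf [(nat_lit 6991917), (nat_lit 7164225)]) (FT.cons (FT.leaf [(nat_lit 7298061)]) (FT.cons (FT.leaf [(nat_lit 7599844)])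
 FT.nil))))))))) (FT.cons (FT.cons (FT.leaf [(nat_lit 5633189), (nat_lit 5798995), (nat_lit 5968690), (nat_lit 6141118), (nat_lit 6315398), (nat_lit 6490837), (nat_lit 6666883), (nat_lit 6843092), (nat_lit 7019096), (nat_lit 7194599)]) (FT.cons (FT.leaf [(nat_lit 5940983), (nat_lit 6110396), (nat_lit 6282264), (nat_lit 6455756), (nat_lit 6630223), (nat_lit 6805149), (nat_lit 6980115), (nat_lit 7154782), (nat_lit 7328870)]) (FT.cons (FT.leaf [(nat_lit 6251143), (nat_lit 6422340), (nat_lit 6594958), (nat_lit 6768386), (nat_lit 6942140), (nat_lit 7115827), (nat_lit 7289129)]) (FT.cons (FT.leaf [(nat_lit 6561303), (nat_lit 6732973), (nat_lit 6905305), (nat_lit 7077844), (nat_lit 7250221)]) (FT.cons (FT.leaf [(nat_lit 6869776), (nat_lit 7040965), (nat_lit 7212255), (nat_lit 7383297)]) (FT.cons (FT.leaf [(nat_lit 7175356), (nat_lit 7345366)]) (FT.cons (FT.leaf [(nat_lit 7477177)]) (FT.cons (FT.leaf [(nat_lit 7774630)]) FT.nil))))))))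 (FT.cons (FT.cons (FT.leaf [(nat_lit 6137123), (nat_lit 6304875), (nat_lit 6474888), (nat_lit 6646369), (nat_lit 6818703), (nat_lit 6991399)]) (FT.cons (FT.leaf [(nat_lit 6443754), (nat_lit 6613028), (nat_lit 6783587), (nat_lit 6954848), (nat_lit 7126353)])
 (FT.cons (FT.leaf [(nat_lit 6750038), (nat_lit 6919610), (nat_lit 7089752), (nat_lit 7260029)]) (FT.cons (FT.leaf [(nat_lit 7054421), (nat_lit 7223401)]) (FT.cons (FT.leaf [(nat_lit 7355791)]) (FT.cons (FT.leaf [(nat_lit 7653358)]) FT.nil)))))) (FT.cons (FT.cons (FT.leaf [(nat_lit 6633360), (nat_lit 6800686), (nat_lit 6969178), (nat_lit 7138279), (nat_lit 7307551)]) (FT.cons (FT.leaf [(nat_lit 6935756), (nat_lit 7103231), (nat_lit 7271195), (nat_lit 7439232)]) (FT.cons (FT.leaf [(nat_lit 7236075), (nat_lit 7402867)]) (FT.cons (FT.leaf [(nat_lit 7533291)]) (FT.cons (FT.leaf [(nat_lit 7826677)]) FT.nil))))) (FT.cons (FT.cons (FT.leaf [(nat_lit 7118510), (nat_lit 7283895), (nat_lit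 7449699)]) (FT.cons (FT.leaf [(nat_lit 7414802), (nat_lit 7579429)]) (FT.cons (FT.leaf [(nat_lit 7707925)]) FT.nil))) (FT.cons (FT.cons (FT.leaf [(nat_lit 7590667)]) (FT.cons (FT.leaf [(nat_lit 7879763)]) FT.nil)) (FT.cons (FT.cons (FT.leaf [(nat_lit 8048873)]) FT.nil) (FT.cons (FT.cons (FT.leaf [(nat_lit 8492772)]) FT.nil) FT.nil)))))))) (FT.cons (FT.cons (FT.cons (FT.leaf [(nat_lit 5969140), (nat_lit 6131055), (nat_lit 6296618), (nat_lit 6464727), (nat_lit 6634548), (nat_lit 6805428), (nat_lit 6976851),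
 (nat_lit 7148396)]) (FT.cons (FT.leaf [(nat_lit 6269220), (nat_lit 6434440), (nat_lit 6601953), (nat_lit 6770974), (nat_lit 6940888), (nat_lit 7111211), (nat_lit 7281549)]) (FT.cons (FT.leaf [(nat_lit 6571304), (nat_lit 6738127), (nat_lit 6906272), (nat_lit 7075163), (nat_lit 7244343)]) (FT.cons (FT.leaf [(nat_lit 6873211), (nat_lit 7040417), (nat_lit 7208237), (nat_lit 7376239)]) (FT.cons (FT.leaf [(nat_lit 7173392), (nat_lit 7340100)]) (FT.cons (FT.leaf [(nat_lit 7470742)]) FT.nil)))))) (FT.cons (FT.cons (FT.leaf [(nat_lit 6459557), (nat_lit 6623127), (nat_lit 6788821), (nat_lit 6955886), (nat_lit 7123738), (nat_lit 7291914)]) (FT.cons (FT.leaf [(nat_lit 6758180), (nat_lit 6923127), (nat_lit 7089278), (nat_lit 7256080), (nat_lit 7423101)]) (FT.cons (FT.leaf [(nat_lit 7056332), (nat_lit 7221514), (nat_lit 7387228), (nat_lit 7553062)]) (FT.cons (FT.leaf [(nat_lit 7352582), (nat_lit 7517171)]) (FT.cons (FT.leaf [(nat_lit 7645907)])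 FT.nil))))) (FT.cons (FT.cons (FT.leaf [(nat_lit 6942176), (nat_lit 7105233), (nat_lit 7269389), (nat_lit 7434115), (nat_lit 7598996)]) (FT.cons (FT.leaf [(nat_lit 7236578), (nat_lit 7399741), (nat_lit 7563365), (nat_lit 7727057)]) (FT.cons (FT.leaf
 [(nat_lit 7528931), (nat_lit 7691424)]) FT.nil))) (FT.cons (FT.cons (FT.leaf [(nat_lit 7414001), (nat_lit 7575158)]) (FT.cons (FT.leaf [(nat_lit 7702499)]) FT.nil)) (FT.cons (FT.cons (FT.leaf [(nat_lit 7873349)]) FT.nil) (FT.cons (FT.cons (FT.leaf [(nat_lit 8319379)]) FT.nil) FT.nil)))))) (FT.cons (FT.cons (FT.cons (FT.leaf [(nat_lit 6771569), (nat_lit 6931121), (nat_lit 7092679), (nat_lit 7255526), (nat_lit 7419107), (nat_lit 7582984)]) (FT.cons (FT.leaf [(nat_lit 7062525), (nat_lit 7223337), (nat_lit 7385285), (nat_lit 7547844), (nat_lit 7710603)]) (FT.cons (FT.leaf [(nat_lit 7352928), (nat_lit 7513930), (nat_lit 7675433), (nat_lit 7837046)]) (FT.cons (FT.leaf [(nat_lit 7641449),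 (nat_lit 7801866)]) FT.nil)))) (FT.cons (FT.cons (FT.leaf [(nat_lit 7241207), (nat_lit 7400190), (nat_lit 7560216), (nat_lit 7720781), (nat_lit 7881490)]) (FT.cons (FT.leaf [(nat_lit 7527998), (nat_lit 7687059), (nat_lit 7846559), (nat_lit 8006122)]) (FT.cons (FT.leaf [(nat_lit 7812785), (nat_lit 7971194)]) FT.nil))) (FT.cons (FT.cons (FT.leaf [(nat_lit 7700381)]) (FT.cons (FT.leaf [(nat_lit 7981479)]) FT.nil)) (FT.cons (FT.cons (FT.leaf [(nat_lit 8147590)]) FT.nil) (FT.cons (FT.cons (FT.leaf [(nat_lit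
 8582085)]) FT.nil) FT.nil))))) (FT.cons (FT.cons (FT.cons (FT.leaf [(nat_lit 7531026), (nat_lit 7686120), (nat_lit 7842212)]) (FT.cons (FT.leaf [(nat_lit 7810569), (nat_lit 7965726)]) (FT.cons (FT.leaf [(nat_lit 8088166)]) FT.nil))) (FT.cons (FT.cons (FT.leaf [(nat_lit 7978183)]) (FT.cons (FT.leaf [(nat_lit 8252249)]) FT.nil)) (FT.cons (FT.cons (FT.leaf [(nat_lit 8413878)]) FT.nil) FT.nil))) (FT.cons (FT.cons (FT.cons (FT.leaf [(nat_lit 8247906)]) FT.nil) (FT.cons (FT.cons (FT.leaf [(nat_lit 8672660)]) FT.nil) FT.nil)) (FT.cons (FT.cons (FT.cons (FT.leaf [(nat_lit 8924353)]) FT.nil) FT.nil) (FT.cons (FT.cons (FT.cons (FT.leaf [(nat_lit 9563229)]) FT.nil) FT.nil) (FT.cons (FT.cons (FT.cons (FT.leaf [(nat_lit 10167525)]) FT.nil) FT.nil) FT.nil))))))))) (FT.cons (FT.cons (FT.cons (FT.cons (FT.leaf [(nat_lit 6094666), (nat_lit 6239776), (nat_lit 6390689), (nat_lit 6545863), (nat_lit 6704164), (nat_lit 6864720), (nat_lit 7026843),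 (nat_lit 7189982), (nat_lit 7353690), (nat_lit 7517596), (nat_lit 7681395)]) (FT.cons (FT.leaf [(nat_lit 6369652), (nat_lit 6521072), (nat_lit 6676389), (nat_lit 6834538), (nat_lit 6994699), (nat_lit 7156232), (nat_lit 7318618), (nat_lit 7481439), (nat_lit
 7644351), (nat_lit 7807067)]) (FT.cons (FT.leaf [(nat_lit 6650990), (nat_lit 6806294), (nat_lit 6964165), (nat_lit 7123834), (nat_lit 7284696), (nat_lit 7446266), (nat_lit 7608152), (nat_lit 7770030), (nat_lit 7931635)]) (FT.cons (FT.leaf [(nat_lit 6935508), (nat_lit 7092993), (nat_lit 7252081), (nat_lit 7412203), (nat_lit 7572904), (nat_lit 7733813), (nat_lit 7894627)]) (FT.cons (FT.leaf [(nat_lit 7220975), (nat_lit 7379408), (nat_lit 7538730), (nat_lit 7698514), (nat_lit 7858410)]) (FT.cons (FT.leaf [(nat_lit 7505785), (nat_lit 7664256), (nat_lit 7823083), (nat_lit 7981936)]) (FT.cons (FT.leaf [(nat_lit 7788765), (nat_lit 7946601)]) FT.nil))))))) (FT.cons (FT.cons (FT.leaf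 [(nat_lit 6551419), (nat_lit 6701991), (nat_lit 6856209), (nat_lit 7013049), (nat_lit 7171731), (nat_lit 7331643), (nat_lit 7492297), (nat_lit 7653294), (nat_lit 7814311), (nat_lit 7975079)]) (FT.cons (FT.leaf [(nat_lit 6830603), (nat_lit 6984699), (nat_lit 7141175), (nat_lit 7299297), (nat_lit 7458488), (nat_lit 7618290), (nat_lit 7778327), (nat_lit 7938297), (nat_lit 8097946)]) (FT.cons (FT.leaf [(nat_lit 7112451), (nat_lit 7268469), (nat_lit 7425955), (nat_lit 7584366), (nat_lit 7743268), (nat_lit 7902309),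
 (nat_lit 8061205)]) (FT.cons (FT.leaf [(nat_lit 7394891), (nat_lit 7551676), (nat_lit 7709254), (nat_lit 7867217), (nat_lit 8025233)]) (FT.cons (FT.leaf [(nat_lit 7676436), (nat_lit 7833138), (nat_lit 7990127), (nat_lit 8147091)]) (FT.cons (FT.leaf [(nat_lit 7956003), (nat_lit 8111990)]) FT.nil)))))) (FT.cons (FT.cons (FT.leaf [(nat_lit 7007887), (nat_lit 7160704), (nat_lit 7315736), (nat_lit 7472279), (nat_lit 7629782), (nat_lit 7787808)]) (FT.cons (FT.leaf [(nat_lit 7286975), (nat_lit 7441488), (nat_lit 7597349), (nat_lit 7754038), (nat_lit 7911141)]) (FT.cons (FT.leaf [(nat_lit 7566349), (nat_lit 7721471), (nat_lit 7877301), (nat_lit 8033448)]) (FT.cons (FT.leaf [(nat_lit 7844626), (nat_lit 7999559)]) (FT.cons (FT.leaf [(nat_lit 8120803)]) FT.nil))))) (FT.cons (FT.cons (FT.leaf [(nat_lit 7459093), (nat_lit 7612073), (nat_lit 7766294), (nat_lit 7921257), (nat_lit 8076568)]) (FT.cons (FT.leaf [(nat_lit 7735377), (nat_lit 7888828),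 (nat_lit 8042912), (nat_lit 8197254)]) (FT.cons (FT.leaf [(nat_lit 8010393), (nat_lit 8163564)]) FT.nil))) (FT.cons (FT.cons (FT.leaf [(nat_lit 7902008), (nat_lit 8053786)]) (FT.cons (FT.leaf [(nat_lit 8173779)]) FT.nil)) (FT.cons (FT.cons (FT.leaf
 [(nat_lit 8334828)]) FT.nil) (FT.cons (FT.cons (FT.leaf [(nat_lit 8756541)]) FT.nil) FT.nil))))))) (FT.cons (FT.cons (FT.cons (FT.leaf [(nat_lit 6852947), (nat_lit 7000450), (nat_lit 7151396), (nat_lit 7304803), (nat_lit 7459928), (nat_lit 7616190), (nat_lit 7773126), (nat_lit 7930364)]) (FT.cons (FT.leaf [(nat_lit 7126023), (nat_lit 7276789), (nat_lit 7429795), (nat_lit 7584340), (nat_lit 7739876), (nat_lit 7895967), (nat_lit 8052261)]) (FT.cons (FT.leaf [(nat_lit 7401438), (nat_lit 7553960), (nat_lit 7707858), (nat_lit 7862615), (nat_lit 8017821)]) (FT.cons (FT.leaf [(nat_lit 7677265), (nat_lit 7830459), (nat_lit 7984393), (nat_lit 8138677)]) (FT.cons (FT.leaf [(nat_lit 7952124),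 (nat_lit 8105195)]) (FT.cons (FT.leaf [(nat_lit 8225013)]) FT.nil)))))) (FT.cons (FT.cons (FT.leaf [(nat_lit 7298679), (nat_lit 7448163), (nat_lit 7599741), (nat_lit 7752736), (nat_lit 7906626), (nat_lit 8060994)]) (FT.cons (FT.leaf [(nat_lit 7571365), (nat_lit 7722406), (nat_lit 7874717), (nat_lit 8027801), (nat_lit 8181266)]) (FT.cons (FT.leaf [(nat_lit 7844198), (nat_lit 7995774), (nat_lit 8148014), (nat_lit 8300545)]) (FT.cons (FT.leaf [(nat_lit 8115891), (nat_lit 8267253)]) (FT.cons (FT.leaf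
 [(nat_lit 8385512)]) FT.nil))))) (FT.cons (FT.cons (FT.leaf [(nat_lit 7738970), (nat_lit 7888511), (nat_lit 8039226), (nat_lit 8190638), (nat_lit 8342370)]) (FT.cons (FT.leaf [(nat_lit 8008798), (nat_lit 8158752), (nat_lit 8309303), (nat_lit 8460094)]) (FT.cons (FT.leaf [(nat_lit 8277339), (nat_lit 8427001)]) FT.nil))) (FT.cons (FT.cons (FT.leaf [(nat_lit 8171098), (nat_lit 8319433)]) (FT.cons (FT.leaf [(nat_lit 8436509)]) FT.nil)) (FT.cons (FT.cons (FT.leaf [(nat_lit 8593444)]) FT.nil) (FT.cons (FT.cons (FT.leaf [(nat_lit 9005103)]) FT.nil) FT.nil)))))) (FT.cons (FT.cons (FT.cons (FT.leaf [(nat_lit 7581146), (nat_lit 7727403), (nat_lit 7875646), (nat_lit 8025228), (nat_lit 8175649), (nat_lit 8326513)]) (FT.cons (FT.leaf [(nat_lit 7847656), (nat_lit 7995354), (nat_lit 8144255), (nat_lit 8293882), (nat_lit 8443863)]) (FT.cons (FT.leaf [(nat_lit 8114209), (nat_lit 8262382), (nat_lit 8411182), (nat_lit 8560254)]) (FT.cons (FT.leaf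 [(nat_lit 8379598), (nat_lit 8527542)]) FT.nil)))) (FT.cons (FT.cons (FT.leaf [(nat_lit 8010954), (nat_lit 8157188), (nat_lit 8304538), (nat_lit 8452548), (nat_lit 8600856)]) (FT.cons (FT.leaf [(nat_lit 8274589), (nat_lit 8421192), (nat_lit 8568361),
 (nat_lit 8715755)]) (FT.cons (FT.leaf [(nat_lit 8536936), (nat_lit 8683240)]) FT.nil))) (FT.cons (FT.cons (FT.leaf [(nat_lit 8432766)]) (FT.cons (FT.leaf [(nat_lit 8692094)]) FT.nil)) (FT.cons (FT.cons (FT.leaf [(nat_lit 8845115)]) FT.nil) (FT.cons (FT.cons (FT.leaf [(nat_lit 9247185)]) FT.nil) FT.nil))))) (FT.cons (FT.cons (FT.cons (FT.leaf [(nat_lit 8275448), (nat_lit 8418506), (nat_lit 8562628)]) (FT.cons (FT.leaf [(nat_lit 8533147), (nat_lit 8676537)]) (FT.cons (FT.leaf [(nat_lit 8789567)]) FT.nil))) (FT.cons (FT.cons (FT.leaf [(nat_lit 8687394)]) (FT.cons (FT.leaf [(nat_lit 8940905)]) FT.nil)) (FT.cons (FT.cons (FT.leaf [(nat_lit 9090198)]) FT.nil) FT.nil))) (FT.cons (FT.cons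 (FT.cons (FT.leaf [(nat_lit 8935341)]) FT.nil) (FT.cons (FT.cons (FT.leaf [(nat_lit 9329026)]) FT.nil) FT.nil)) (FT.cons (FT.cons (FT.cons (FT.leaf [(nat_lit 9561907)]) FT.nil) FT.nil) (FT.cons (FT.cons (FT.cons (FT.leaf [(nat_lit 10156959)]) FT.nil) FT.nil) (FT.cons (FT.cons (FT.cons (FT.leaf [(nat_lit 10722590)]) FT.nil) FT.nil) FT.nil)))))))) (FT.cons (FT.cons (FT.cons (FT.cons (FT.leaf [(nat_lit 7644331), (nat_lit 7780303), (nat_lit 7919527), (nat_lit 8061107), (nat_lit 8204373), (nat_lit 8348800),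
 (nat_lit 8493970), (nat_lit 8639545)]) (FT.cons (FT.leaf [(nat_lit 7895794), (nat_lit 8034937), (nat_lit 8176243), (nat_lit 8319074), (nat_lit 8462937), (nat_lit 8607436), (nat_lit 8752253)]) (FT.cons (FT.leaf [(nat_lit 8149751), (nat_lit 8290706), (nat_lit 8433045), (nat_lit 8576297), (nat_lit 8720088)]) (FT.cons (FT.leaf [(nat_lit 8404470), (nat_lit 8546263), (nat_lit 8688862), (nat_lit 8831914)]) (FT.cons (FT.leaf [(nat_lit 8658711), (nat_lit 8800621)]) (FT.cons (FT.leaf [(nat_lit 8911564)]) FT.nil)))))) (FT.cons (FT.cons (FT.leaf [(nat_lit 8054277), (nat_lit 8192392), (nat_lit 8332538), (nat_lit 8474103), (nat_lit 8616613), (nat_lit 8759689)]) (FT.cons (FT.leaf [(nat_lit 8306012), (nat_lit 8445761), (nat_lit 8586798), (nat_lit 8728670), (nat_lit 8871021)]) (FT.cons (FT.leaf [(nat_lit 8558271), (nat_lit 8698732), (nat_lit 8839931), (nat_lit 8981526)]) (FT.cons (FT.leaf [(nat_lit 8809890), (nat_lit 8950384)]) (FT.cons (FT.leaf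 [(nat_lit 9060021)]) FT.nil))))) (FT.cons (FT.cons (FT.leaf [(nat_lit 8460346), (nat_lit 8598869), (nat_lit 8738592), (nat_lit 8879081), (nat_lit 9019991)]) (FT.cons (FT.leaf [(nat_lit 8710126), (nat_lit 8849250), (nat_lit 8989047), (nat_lit 9129192)])
 (FT.cons (FT.leaf [(nat_lit 8959129), (nat_lit 9098208)]) FT.nil))) (FT.cons (FT.cons (FT.leaf [(nat_lit 8860062)]) (FT.cons (FT.leaf [(nat_lit 9106455)]) FT.nil)) (FT.cons (FT.cons (FT.leaf [(nat_lit 9251901)]) FT.nil) (FT.cons (FT.cons (FT.leaf [(nat_lit 9634959)]) FT.nil) FT.nil)))))) (FT.cons (FT.cons (FT.cons (FT.leaf [(nat_lit 8313020), (nat_lit 8448468), (nat_lit 8585850), (nat_lit 8724577), (nat_lit 8864195), (nat_lit 9004341)]) (FT.cons (FT.leaf [(nat_lit 8559639), (nat_lit 8696611), (nat_lit 8834806), (nat_lit 8973791), (nat_lit 9113221)]) (FT.cons (FT.leaf [(nat_lit 8806669), (nat_lit 8944290), (nat_lit 9082610), (nat_lit 9221300)]) (FT.cons (FT.leaf [(nat_lit 9053018),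 (nat_lit 9190643)]) FT.nil)))) (FT.cons (FT.cons (FT.leaf [(nat_lit 8710388), (nat_lit 8846156), (nat_lit 8983067), (nat_lit 9120705), (nat_lit 9258739)]) (FT.cons (FT.leaf [(nat_lit 8954999), (nat_lit 9091315), (nat_lit 9228273), (nat_lit 9365559)]) (FT.cons (FT.leaf [(nat_lit 9198806), (nat_lit 9335059)]) FT.nil))) (FT.cons (FT.cons (FT.leaf [(nat_lit 9101477)]) (FT.cons (FT.leaf [(nat_lit 9342755)]) FT.nil)) (FT.cons (FT.cons (FT.leaf [(nat_lit 9484896)]) FT.nil) (FT.cons (FT.cons (FT.leaf [(nat_lit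
 9859819)]) FT.nil) FT.nil))))) (FT.cons (FT.cons (FT.cons (FT.leaf [(nat_lit 8954188), (nat_lit 9087294), (nat_lit 9221494)]) (FT.cons (FT.leaf [(nat_lit 9193817), (nat_lit 9327429)]) (FT.cons (FT.leaf [(nat_lit 9432626)]) FT.nil))) (FT.cons (FT.cons (FT.leaf [(nat_lit 9336984)]) (FT.cons (FT.leaf [(nat_lit 9573343)]) FT.nil)) (FT.cons (FT.cons (FT.leaf [(nat_lit 9712321)]) FT.nil) FT.nil))) (FT.cons (FT.cons (FT.cons (FT.leaf [(nat_lit 9566851)]) FT.nil) (FT.cons (FT.cons (FT.leaf [(nat_lit 9934429)]) FT.nil) FT.nil)) (FT.cons (FT.cons (FT.cons (FT.leaf [(nat_lit 10151459)]) FT.nil) FT.nil) (FT.cons (FT.cons (FT.cons (FT.leaf [(nat_lit 10709173)]) FT.nil) FT.nil) FT.nil)))))) (FT.cons (FT.cons (FT.cons (FT.cons (FT.leaf [(nat_lit 8982151), (nat_lit 9108585), (nat_lit 9236889), (nat_lit 9366524), (nat_lit 9497071)]) (FT.cons (FT.leaf [(nat_lit 9212176), (nat_lit 9340168), (nat_lit 9469377), (nat_lit 9599406)]) (FT.cons (FT.leaf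 [(nat_lit 9442853), (nat_lit 9571600)]) (FT.cons (FT.leaf [(nat_lit 9673181)]) FT.nil)))) (FT.cons (FT.cons (FT.leaf [(nat_lit 9352448), (nat_lit 9479425), (nat_lit 9607549)]) (FT.cons (FT.leaf [(nat_lit 9581075), (nat_lit 9708716)]) (FT.cons (FT.leaf
 [(nat_lit 9809239)]) FT.nil))) (FT.cons (FT.cons (FT.leaf [(nat_lit 9717713)]) FT.nil) FT.nil))) (FT.cons (FT.cons (FT.cons (FT.leaf [(nat_lit 9578951), (nat_lit 9703655), (nat_lit 9829459)]) (FT.cons (FT.leaf [(nat_lit 9803317), (nat_lit 9928640)]) FT.nil)) (FT.cons (FT.cons (FT.leaf [(nat_lit 9937114)]) FT.nil) FT.nil)) (FT.cons (FT.cons (FT.cons (FT.leaf [(nat_lit 10151677)]) FT.nil) FT.nil) (FT.cons (FT.cons (FT.cons (FT.leaf [(nat_lit 10700391)]) FT.nil) FT.nil) FT.nil)))) (FT.cons (FT.cons (FT.cons (FT.cons (FT.leaf [(nat_lit 10158443)]) FT.nil) FT.nil) (FT.cons (FT.cons (FT.cons (FT.leaf [(nat_lit 10696851)]) FT.nil) FT.nil) FT.nil)) (FT.cons (FT.cons (FT.cons (FT.cons (FT.leaf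 [(nat_lit 11207866)]) FT.nil) FT.nil) FT.nil) (FT.cons (FT.cons (FT.cons (FT.cons (FT.leaf [(nat_lit 12155141)]) FT.nil) FT.nil) FT.nil) (FT.cons (FT.cons (FT.cons (FT.cons (FT.leaf [(nat_lit 13018448)]) FT.nil) FT.nil) FT.nil) FT.nil))))))))

def f152_1_849 : FT := (FT.cons (FT.cons (FT.cons (FT.cons (FT.leaf [(nat_lit 4622595), (nat_lit 4766432), (nat_lit 4920806), (nat_lit 5083033), (nat_lit 5251178), (nat_lit 5423774), (nat_lit 5599669), (nat_lit 5777943), (nat_lit 5957846), (nat_lit 6138763), (nat_lit 6320187)]) (FT.cons (FT.leaf [(nat_lit 4906426), (nat_lit 5062861), (nat_lit 5226448), (nat_lit 5395382), (nat_lit 5568300), (nat_lit 5744132), (nat_lit 5922027), (nat_lit 6101289), (nat_lit 6281349), (nat_lit 6461736)]) (FT.cons (FT.leaf [(nat_lit 5205156), (nat_lit 5369755), (nat_lit 5539200), (nat_lit 5712214), (nat_lit 5887802), (nat_lit 6065170), (nat_lit 6243672), (nat_lit 6422781), (nat_lit 6602061)]) (FT.cons (FT.leaf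 [(nat_lit 5512774), (nat_lit 5682488), (nat_lit 5855404), (nat_lit 6030590), (nat_lit 6207305), (nat_lit 6384947), (nat_lit 6563026)]) (FT.cons (FT.leaf [(nat_lit 5825126), (nat_lit 5997775), (nat_lit 6172423), (nat_lit 6348375), (nat_lit 6525071)]) (FT.cons (FT.leaf [(nat_lit 6139247), (nat_lit 6313239), (nat_lit 6488335), (nat_lit 6664010)]) (FT.cons (FT.leaf [(nat_lit 6452987), (nat_lit 6627146)]) (FT.cons (FT.leaf [(nat_lit 6764779)]) (FT.cons (FT.leaf [(nat_lit 7073480)]) FT.nil))))))))) (FT.cons (FT.cons (FT.leaf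
 [(nat_lit 5108792), (nat_lit 5265370), (nat_lit 5428602), (nat_lit 5596758), (nat_lit 5768540), (nat_lit 5942941), (nat_lit 6119157), (nat_lit 6296541), (nat_lit 6474560), (nat_lit 6652778)]) (FT.cons (FT.leaf [(nat_lit 5406745), (nat_lit 5570722), (nat_lit 5739170), (nat_lit 5910873), (nat_lit 6084890), (nat_lit 6260472), (nat_lit 6437013), (nat_lit 6614020), (nat_lit 6791087)]) (FT.cons (FT.leaf [(nat_lit 5712410), (nat_lit 5880942), (nat_lit 6052399), (nat_lit 6225897), (nat_lit 6400735), (nat_lit 6576348), (nat_lit 6752276)]) (FT.cons (FT.leaf [(nat_lit 6021973), (nat_lit 6193037), (nat_lit 6365899), (nat_lit 6539900), (nat_lit 6714512)]) (FT.cons (FT.leaf [(nat_lit 6332723), (nat_lit 6504847), (nat_lit 6677931), (nat_lit 6851479)]) (FT.cons (FT.leaf [(nat_lit 6642699), (nat_lit 6814798)]) (FT.cons (FT.leaf [(nat_lit 6950477)]) (FT.cons (FT.leaf [(nat_lit 7255017)]) FT.nil)))))))) (FT.cons (FT.cons (FT.leaf [(nat_lit 5606035),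 (nat_lit 5769179), (nat_lit 5936464), (nat_lit 6106729), (nat_lit 6279080), (nat_lit 6452808), (nat_lit 6627345), (nat_lit 6802227)]) (FT.cons (FT.leaf [(nat_lit 5909431), (nat_lit 6076644), (nat_lit 6246539), (nat_lit 6418274), (nat_lit 6591186),
 (nat_lit 6764740), (nat_lit 6938506)]) (FT.cons (FT.leaf [(nat_lit 6216012), (nat_lit 6385410), (nat_lit 6556428), (nat_lit 6728443), (nat_lit 6900953)]) (FT.cons (FT.leaf [(nat_lit 6523286), (nat_lit 6693500), (nat_lit 6864550), (nat_lit 7035963)]) (FT.cons (FT.leaf [(nat_lit 6829458), (nat_lit 6999483)]) (FT.cons (FT.leaf [(nat_lit 7133226)]) FT.nil)))))) (FT.cons (FT.cons (FT.leaf [(nat_lit 6103777), (nat_lit 6269564), (nat_lit 6437817), (nat_lit 6607734), (nat_lit 6778684), (nat_lit 6950164)]) (FT.cons (FT.leaf [(nat_lit 6407227), (nat_lit 6574897), (nat_lit 6744032), (nat_lit 6914037), (nat_lit 7084440)]) (FT.cons (FT.leaf [(nat_lit 6710952), (nat_lit 6879230), (nat_lit 7048232),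 (nat_lit 7217513)]) (FT.cons (FT.leaf [(nat_lit 7013301), (nat_lit 7181250)]) (FT.cons (FT.leaf [(nat_lit 7313078)]) FT.nil))))) (FT.cons (FT.cons (FT.leaf [(nat_lit 6595621), (nat_lit 6761517), (nat_lit 6928741)]) (FT.cons (FT.leaf [(nat_lit 6895749), (nat_lit 7062073)]) (FT.cons (FT.leaf [(nat_lit 7194272)]) FT.nil))) (FT.cons (FT.cons (FT.leaf [(nat_lit 7077712)]) (FT.cons (FT.leaf [(nat_lit 7372421)]) FT.nil)) (FT.cons (FT.cons (FT.leaf [(nat_lit 7547801)]) FT.nil) FT.nil))))))) (FT.cons (FT.cons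
 (FT.cons (FT.leaf [(nat_lit 5453282), (nat_lit 5607094), (nat_lit 5767129), (nat_lit 5931729), (nat_lit 6099662), (nat_lit 6269978), (nat_lit 6441925), (nat_lit 6614900), (nat_lit 6788409), (nat_lit 6962049)]) (FT.cons (FT.leaf [(nat_lit 5745230), (nat_lit 5905818), (nat_lit 6070562), (nat_lit 6238307), (nat_lit 6408162), (nat_lit 6579425), (nat_lit 6751534), (nat_lit 6924027), (nat_lit 7096529)]) (FT.cons (FT.leaf [(nat_lit 6043991), (nat_lit 6208700), (nat_lit 6376111), (nat_lit 6545391), (nat_lit 6715879), (nat_lit 6887049), (nat_lit 7058470)]) (FT.cons (FT.leaf [(nat_lit 6346058), (nat_lit 6513012), (nat_lit 6681616), (nat_lit 6851250), (nat_lit 7021419)]) (FT.cons (FT.leaf [(nat_lit 6648955), (nat_lit 6816797), (nat_lit 6985509), (nat_lit 7154625)]) (FT.cons (FT.leaf [(nat_lit 6950901), (nat_lit 7118632)]) (FT.cons (FT.leaf [(nat_lit 7250602)]) FT.nil))))))) (FT.cons (FT.cons (FT.leaf [(nat_lit 5939134), (nat_lit 6098773),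 (nat_lit 6262278), (nat_lit 6428543), (nat_lit 6596722), (nat_lit 6766149), (nat_lit 6936291), (nat_lit 7106717)]) (FT.cons (FT.leaf [(nat_lit 6235481), (nat_lit 6398822), (nat_lit 6564653), (nat_lit 6732178), (nat_lit 6900771), (nat_lit 7069933), (nat_lit
 7239257)]) (FT.cons (FT.leaf [(nat_lit 6534530), (nat_lit 6699819), (nat_lit 6866604), (nat_lit 7034295), (nat_lit 7202424)]) (FT.cons (FT.leaf [(nat_lit 6833997), (nat_lit 6999967), (nat_lit 7166698), (nat_lit 7333748)]) (FT.cons (FT.leaf [(nat_lit 7132241), (nat_lit 7297962)]) (FT.cons (FT.leaf [(nat_lit 7428073)]) FT.nil)))))) (FT.cons (FT.cons (FT.leaf [(nat_lit 6424339), (nat_lit 6586229), (nat_lit 6750421), (nat_lit 6916152), (nat_lit 7082829), (nat_lit 7249975)]) (FT.cons (FT.leaf [(nat_lit 6720263), (nat_lit 6883841), (nat_lit 7048780), (nat_lit 7214517), (nat_lit 7380606)]) (FT.cons (FT.leaf [(nat_lit 7016252), (nat_lit 7180333), (nat_lit 7345081), (nat_lit 7510073)])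 (FT.cons (FT.leaf [(nat_lit 7310790), (nat_lit 7474506)]) (FT.cons (FT.leaf [(nat_lit 7602783)]) FT.nil))))) (FT.cons (FT.cons (FT.leaf [(nat_lit 6903269), (nat_lit 7065105), (nat_lit 7228182)]) (FT.cons (FT.leaf [(nat_lit 7195753), (nat_lit 7357938)]) (FT.cons (FT.leaf [(nat_lit 7486596)]) FT.nil))) (FT.cons (FT.cons (FT.leaf [(nat_lit 7372541)]) (FT.cons (FT.leaf [(nat_lit 7659711)]) FT.nil)) (FT.cons (FT.cons (FT.leaf [(nat_lit 7830185)]) FT.nil) FT.nil)))))) (FT.cons (FT.cons (FT.cons (FT.leaf [(nat_lit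
 6261841), (nat_lit 6418010), (nat_lit 6577809), (nat_lit 6740182), (nat_lit 6904325), (nat_lit 7069611), (nat_lit 7235536), (nat_lit 7401697)]) (FT.cons (FT.leaf [(nat_lit 6551272), (nat_lit 6710838), (nat_lit 6872733), (nat_lit 7036199), (nat_lit 7200645), (nat_lit 7365600), (nat_lit 7530683)]) (FT.cons (FT.leaf [(nat_lit 6843024), (nat_lit 7004346), (nat_lit 7167060), (nat_lit 7330608), (nat_lit 7494547)]) (FT.cons (FT.leaf [(nat_lit 7134984), (nat_lit 7296882), (nat_lit 7459483), (nat_lit 7622368)]) (FT.cons (FT.leaf [(nat_lit 7425644), (nat_lit 7587255)]) (FT.cons (FT.leaf [(nat_lit 7713913)]) FT.nil)))))) (FT.cons (FT.cons (FT.leaf [(nat_lit 6734865), (nat_lit 6892975), (nat_lit 7053247), (nat_lit 7214956), (nat_lit 7377536), (nat_lit 7540541)]) (FT.cons (FT.leaf [(nat_lit 7023525), (nat_lit 7183166), (nat_lit 7344080), (nat_lit 7505733), (nat_lit 7667703)]) (FT.cons (FT.leaf [(nat_lit 7312095), (nat_lit 7472158), (nat_lit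 7632841), (nat_lit 7793744)]) (FT.cons (FT.leaf [(nat_lit 7599174), (nat_lit 7758850)]) (FT.cons (FT.leaf [(nat_lit 7883753)]) FT.nil))))) (FT.cons (FT.cons (FT.leaf [(nat_lit 7201400), (nat_lit 7359338), (nat_lit 7518444)]) (FT.cons (FT.leaf [(nat_lit
 7486567), (nat_lit 7644795)]) (FT.cons (FT.leaf [(nat_lit 7770085)]) FT.nil))) (FT.cons (FT.cons (FT.leaf [(nat_lit 7658444)]) (FT.cons (FT.leaf [(nat_lit 7938428)]) FT.nil)) (FT.cons (FT.cons (FT.leaf [(nat_lit 8104255)]) FT.nil) FT.nil))))) (FT.cons (FT.cons (FT.cons (FT.leaf [(nat_lit 7035876), (nat_lit 7190331), (nat_lit 7346830), (nat_lit 7504678), (nat_lit 7663338)]) (FT.cons (FT.leaf [(nat_lit 7317543), (nat_lit 7473402), (nat_lit 7630460), (nat_lit 7788210)]) (FT.cons (FT.leaf [(nat_lit 7599008), (nat_lit 7755228)]) (FT.cons (FT.leaf [(nat_lit 7878967)]) FT.nil)))) (FT.cons (FT.cons (FT.leaf [(nat_lit 7490534), (nat_lit 7644736), (nat_lit 7800043)]) (FT.cons (FT.leaf [(nat_lit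 7768705), (nat_lit 7923152)]) (FT.cons (FT.leaf [(nat_lit 8045236)]) FT.nil))) (FT.cons (FT.cons (FT.leaf [(nat_lit 7935920)]) (FT.cons (FT.leaf [(nat_lit 8209055)]) FT.nil)) FT.nil))) (FT.cons (FT.cons (FT.cons (FT.leaf [(nat_lit 7771168)]) FT.nil) (FT.cons (FT.cons (FT.leaf [(nat_lit 8205435)]) FT.nil) FT.nil)) (FT.cons (FT.cons (FT.cons (FT.leaf [(nat_lit 8467420)]) FT.nil) FT.nil) (FT.cons (FT.cons (FT.cons (FT.leaf [(nat_lit 9126187)]) FT.nil) FT.nil) (FT.cons (FT.cons (FT.cons (FT.leaf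
 [(nat_lit 9749788)]) FT.nil) FT.nil) (FT.cons (FT.cons (FT.cons (FT.leaf [(nat_lit 10340802)]) FT.nil) FT.nil) FT.nil))))))))) (FT.cons (FT.cons (FT.cons (FT.cons (FT.leaf [(nat_lit 6378853), (nat_lit 6519117), (nat_lit 6665065), (nat_lit 6815215), (nat_lit 6968476), (nat_lit 7124008), (nat_lit 7281149), (nat_lit 7439365), (nat_lit 7598224), (nat_lit 7757367)]) (FT.cons (FT.leaf [(nat_lit 6644631), (nat_lit 6791139), (nat_lit 6941500), (nat_lit 7094687), (nat_lit 7249912), (nat_lit 7406555), (nat_lit 7564116), (nat_lit 7722190), (nat_lit 7880440)]) (FT.cons (FT.leaf [(nat_lit 6916827), (nat_lit 7067248), (nat_lit 7220239), (nat_lit 7375060), (nat_lit 7531126), (nat_lit 7687969), (nat_lit 7845206)]) (FT.cons (FT.leaf [(nat_lit 7192388), (nat_lit 7345078), (nat_lit 7499409), (nat_lit 7654831), (nat_lit 7810900)]) (FT.cons (FT.leaf [(nat_lit 7469158), (nat_lit 7622924), (nat_lit 7777641), (nat_lit 7932890)]) (FT.cons (FT.leaf [(nat_lit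 7745577), (nat_lit 7899536)]) (FT.cons (FT.leaf [(nat_lit 8020498)]) FT.nil))))))) (FT.cons (FT.cons (FT.leaf [(nat_lit 6820269), (nat_lit 6966061), (nat_lit 7115464), (nat_lit 7267490), (nat_lit 7421388), (nat_lit 7576565), (nat_lit 7732549), (nat_lit
 7888954)]) (FT.cons (FT.leaf [(nat_lit 7090577), (nat_lit 7239931), (nat_lit 7391677), (nat_lit 7545103), (nat_lit 7699652), (nat_lit 7854878), (nat_lit 8010420)]) (FT.cons (FT.leaf [(nat_lit 7363745), (nat_lit 7515115), (nat_lit 7667995), (nat_lit 7821856), (nat_lit 7976278)]) (FT.cons (FT.leaf [(nat_lit 7637768), (nat_lit 7790035), (nat_lit 7943155), (nat_lit 8096732)]) (FT.cons (FT.leaf [(nat_lit 7911198), (nat_lit 8063533)]) (FT.cons (FT.leaf [(nat_lit 8182975)]) FT.nil)))))) (FT.cons (FT.cons (FT.leaf [(nat_lit 7262202), (nat_lit 7410419), (nat_lit 7560865), (nat_lit 7712859), (nat_lit 7865868), (nat_lit 8019467)]) (FT.cons (FT.leaf [(nat_lit 7532881), (nat_lit 7682891), (nat_lit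 7834291), (nat_lit 7986576), (nat_lit 8139346)]) (FT.cons (FT.leaf [(nat_lit 7804110), (nat_lit 7954858), (nat_lit 8106374), (nat_lit 8258278)]) (FT.cons (FT.leaf [(nat_lit 8074539), (nat_lit 8225247)]) (FT.cons (FT.leaf [(nat_lit 8343183)]) FT.nil))))) (FT.cons (FT.cons (FT.leaf [(nat_lit 7699803), (nat_lit 7848420), (nat_lit 7998321)]) (FT.cons (FT.leaf [(nat_lit 7968205), (nat_lit 8117421)]) (FT.cons (FT.leaf [(nat_lit 8235630)]) FT.nil))) (FT.cons (FT.cons (FT.leaf [(nat_lit 8130078)]) (FT.cons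
 (FT.leaf [(nat_lit 8394506)]) FT.nil)) (FT.cons (FT.cons (FT.leaf [(nat_lit 8551203)]) FT.nil) FT.nil)))))) (FT.cons (FT.cons (FT.cons (FT.leaf [(nat_lit 7111613), (nat_lit 7254619), (nat_lit 7401036), (nat_lit 7549920), (nat_lit 7700549), (nat_lit 7852363), (nat_lit 8004912), (nat_lit 8157835)]) (FT.cons (FT.leaf [(nat_lit 7376349), (nat_lit 7522658), (nat_lit 7671218), (nat_lit 7821350), (nat_lit 7972524), (nat_lit 8124317), (nat_lit 8276385)]) (FT.cons (FT.leaf [(nat_lit 7643614), (nat_lit 7791769), (nat_lit 7941337), (nat_lit 8091819), (nat_lit 8242813)]) (FT.cons (FT.leaf [(nat_lit 7911538), (nat_lit 8060485), (nat_lit 8210229), (nat_lit 8360389)]) (FT.cons (FT.leaf [(nat_lit 8178775), (nat_lit 8327741)]) (FT.cons (FT.leaf [(nat_lit 8444343)]) FT.nil)))))) (FT.cons (FT.cons (FT.leaf [(nat_lit 7543711), (nat_lit 7688871), (nat_lit 7836136), (nat_lit 7984856), (nat_lit 8134520), (nat_lit 8284726)]) (FT.cons (FT.leaf [(nat_lit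 7808499), (nat_lit 7955307), (nat_lit 8103423), (nat_lit 8252367), (nat_lit 8401755)]) (FT.cons (FT.leaf [(nat_lit 8073681), (nat_lit 8221143), (nat_lit 8369325), (nat_lit 8517864)]) (FT.cons (FT.leaf [(nat_lit 8337999), (nat_lit 8485384)]) (FT.cons
 (FT.leaf [(nat_lit 8600537)]) FT.nil))))) (FT.cons (FT.cons (FT.leaf [(nat_lit 7971239), (nat_lit 8116676), (nat_lit 8263327)]) (FT.cons (FT.leaf [(nat_lit 8233658), (nat_lit 8379628)]) (FT.cons (FT.leaf [(nat_lit 8495061)]) FT.nil))) (FT.cons (FT.cons (FT.leaf [(nat_lit 8391497)]) (FT.cons (FT.leaf [(nat_lit 8649998)]) FT.nil)) (FT.cons (FT.cons (FT.leaf [(nat_lit 8802845)]) FT.nil) FT.nil))))) (FT.cons (FT.cons (FT.cons (FT.leaf [(nat_lit 7817518), (nat_lit 7959702), (nat_lit 8103886), (nat_lit 8249443), (nat_lit 8395887)]) (FT.cons (FT.leaf [(nat_lit 8076599), (nat_lit 8220311), (nat_lit 8365262), (nat_lit 8510990)]) (FT.cons (FT.leaf [(nat_lit 8335953), (nat_lit 8480252)]) (FT.cons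 (FT.leaf [(nat_lit 8594401)]) FT.nil)))) (FT.cons (FT.cons (FT.leaf [(nat_lit 8235333), (nat_lit 8377702), (nat_lit 8521223)]) (FT.cons (FT.leaf [(nat_lit 8491995), (nat_lit 8634842)]) (FT.cons (FT.leaf [(nat_lit 8747619)]) FT.nil))) (FT.cons (FT.cons (FT.leaf [(nat_lit 8645981)]) (FT.cons (FT.leaf [(nat_lit 8898796)]) FT.nil)) FT.nil))) (FT.cons (FT.cons (FT.cons (FT.leaf [(nat_lit 8492440)]) FT.nil) (FT.cons (FT.cons (FT.leaf [(nat_lit 8893869)]) FT.nil) FT.nil)) (FT.cons (FT.cons (FT.cons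
 (FT.leaf [(nat_lit 9135482)]) FT.nil) FT.nil) (FT.cons (FT.cons (FT.cons (FT.leaf [(nat_lit 9747346)]) FT.nil) FT.nil) (FT.cons (FT.cons (FT.cons (FT.leaf [(nat_lit 10329515)]) FT.nil) FT.nil) (FT.cons (FT.cons (FT.cons (FT.leaf [(nat_lit 10883797)]) FT.nil) FT.nil) FT.nil)))))))) (FT.cons (FT.cons (FT.cons (FT.cons (FT.leaf [(nat_lit 7876584), (nat_lit 8008918), (nat_lit 8144469), (nat_lit 8282370), (nat_lit 8421967), (nat_lit 8562754)]) (FT.cons (FT.leaf [(nat_lit 8121299), (nat_lit 8256819), (nat_lit 8394498), (nat_lit 8533720), (nat_lit 8674005)]) (FT.cons (FT.leaf [(nat_lit 8368626), (nat_lit 8506012), (nat_lit 8644800), (nat_lit 8784535)]) (FT.cons (FT.leaf [(nat_lit 8616882), (nat_lit 8755184)]) (FT.cons (FT.leaf [(nat_lit 8864854)]) (FT.cons (FT.leaf [(nat_lit 9111652)]) FT.nil)))))) (FT.cons (FT.cons (FT.leaf [(nat_lit 8275496), (nat_lit 8410080), (nat_lit 8546697), (nat_lit 8684751), (nat_lit 8823782)]) (FT.cons (FT.leaf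 [(nat_lit 8520781), (nat_lit 8657057), (nat_lit 8794641), (nat_lit 8933096)]) (FT.cons (FT.leaf [(nat_lit 8766759), (nat_lit 8903827)]) (FT.cons (FT.leaf [(nat_lit 9012291)]) (FT.cons (FT.leaf [(nat_lit 9256542)]) FT.nil))))) (FT.cons (FT.cons (FT.leaf
 [(nat_lit 8671138), (nat_lit 8806281), (nat_lit 8942647)]) (FT.cons (FT.leaf [(nat_lit 8914814), (nat_lit 9050638)]) (FT.cons (FT.leaf [(nat_lit 9157903)]) FT.nil))) (FT.cons (FT.cons (FT.leaf [(nat_lit 9061067)]) (FT.cons (FT.leaf [(nat_lit 9301717)]) FT.nil)) FT.nil)))) (FT.cons (FT.cons (FT.cons (FT.leaf [(nat_lit 8527214), (nat_lit 8659315), (nat_lit 8793352), (nat_lit 8928753), (nat_lit 9065074)]) (FT.cons (FT.leaf [(nat_lit 8767725), (nat_lit 8901405), (nat_lit 9036328), (nat_lit 9172073)]) (FT.cons (FT.leaf [(nat_lit 9008807), (nat_lit 9143211)]) (FT.cons (FT.leaf [(nat_lit 9249388)]) FT.nil)))) (FT.cons (FT.cons (FT.leaf [(nat_lit 8914718), (nat_lit 9047281), (nat_lit 9181010)])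 (FT.cons (FT.leaf [(nat_lit 9153546), (nat_lit 9286733)]) (FT.cons (FT.leaf [(nat_lit 9391748)]) FT.nil))) (FT.cons (FT.cons (FT.leaf [(nat_lit 9296543)]) (FT.cons (FT.leaf [(nat_lit 9532374)]) FT.nil)) FT.nil))) (FT.cons (FT.cons (FT.cons (FT.leaf [(nat_lit 9152427)]) FT.nil) (FT.cons (FT.cons (FT.leaf [(nat_lit 9526442)]) FT.nil) FT.nil)) (FT.cons (FT.cons (FT.cons (FT.leaf [(nat_lit 9751009)]) FT.nil) FT.nil) (FT.cons (FT.cons (FT.cons (FT.leaf [(nat_lit 10323167)]) FT.nil) FT.nil) (FT.cons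
 (FT.cons (FT.cons (FT.leaf [(nat_lit 10869839)]) FT.nil) FT.nil) FT.nil)))))) (FT.cons (FT.cons (FT.cons (FT.cons (FT.leaf [(nat_lit 9178258), (nat_lit 9301881), (nat_lit 9427371), (nat_lit 9554200)]) (FT.cons (FT.leaf [(nat_lit 9403154), (nat_lit 9528368), (nat_lit 9654813)]) (FT.cons (FT.leaf [(nat_lit 9628814)]) FT.nil))) (FT.cons (FT.cons (FT.leaf [(nat_lit 9540269), (nat_lit 9664537)]) (FT.cons (FT.leaf [(nat_lit 9764006)]) FT.nil)) (FT.cons (FT.cons (FT.leaf [(nat_lit 9897696)]) FT.nil) FT.nil))) (FT.cons (FT.cons (FT.cons (FT.leaf [(nat_lit 9761649)]) FT.nil) (FT.cons (FT.cons (FT.leaf [(nat_lit 10112348)]) FT.nil) FT.nil)) (FT.cons (FT.cons (FT.cons (FT.leaf [(nat_lit 10322398)]) FT.nil) FT.nil) (FT.cons (FT.cons (FT.cons (FT.leaf [(nat_lit 10860407)]) FT.nil) FT.nil) FT.nil)))) (FT.cons (FT.cons (FT.cons (FT.cons (FT.leaf [(nat_lit 10328025)]) FT.nil) FT.nil) (FT.cons (FT.cons (FT.cons (FT.leaf [(nat_lit 10856099)]) FT.nil)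 FT.nil) FT.nil)) (FT.cons (FT.cons (FT.cons (FT.cons (FT.leaf [(nat_lit 11357189)]) FT.nil) FT.nil) FT.nil) (FT.cons (FT.cons (FT.cons (FT.cons (FT.leaf [(nat_lit 12288499)]) FT.nil) FT.nil) FT.nil) FT.nil)))))))

def f152_1_867 : FT := (FT.cons (FT.cons (FT.cons (FT.cons (FT.leaf [(nat_lit 4689723), (nat_lit 4832320), (nat_lit 4985387), (nat_lit 5146267), (nat_lit 5313045), (nat_lit 5484268), (nat_lit 5658795), (nat_lit 5835714), (nat_lit 6014283), (nat_lit 6193891), (nat_lit 6374032), (nat_lit 6554286), (nat_lit 6734304)]) (FT.cons (FT.leaf [(nat_lit 4971108), (nat_lit 5126242), (nat_lit 5288495), (nat_lit 5456081), (nat_lit 5627649), (nat_lit 5802142), (nat_lit 5978710), (nat_lit 6156668), (nat_lit 6335450), (nat_lit 6514588), (nat_lit 6693695), (nat_lit 6872446)]) (FT.cons (FT.leaf [(nat_lit 5267356), (nat_lit 5430638), (nat_lit 5598757), (nat_lit 5770447), (nat_lit 5944722), (nat_lit 6120794), (nat_lit 6298024), (nat_lit 6475886),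 (nat_lit 6653948), (nat_lit 6831851)]) (FT.cons (FT.leaf [(nat_lit 5572518), (nat_lit 5740928), (nat_lit 5912547), (nat_lit 6086448), (nat_lit 6261898), (nat_lit 6438298), (nat_lit 6615161), (nat_lit 6792085), (nat_lit 6968735)]) (FT.cons (FT.leaf [(nat_lit 5882477), (nat_lit 6053855), (nat_lit 6227247), (nat_lit 6401964), (nat_lit 6577449), (nat_lit 6753245), (nat_lit 6928978)]) (FT.cons (FT.leaf [(nat_lit 6194291), (nat_lit 6367057), (nat_lit 6540947), (nat_lit 6715441), (nat_lit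
 6890112)]) (FT.cons (FT.leaf [(nat_lit 6505826), (nat_lit 6678809), (nat_lit 6852249), (nat_lit 7025746)]) (FT.cons (FT.leaf [(nat_lit 6815519), (nat_lit 6987850)]) (FT.cons (FT.leaf [(nat_lit 7122229)]) (FT.cons (FT.leaf [(nat_lit 7425131)]) FT.nil)))))))))) (FT.cons (FT.cons (FT.leaf [(nat_lit 5171735), (nat_lit 5327045), (nat_lit 5488983), (nat_lit 5655834), (nat_lit 5826314), (nat_lit 5999421), (nat_lit 6174362), (nat_lit 6350491), (nat_lit 6527282), (nat_lit 6704299), (nat_lit 6881183)]) (FT.cons (FT.leaf [(nat_lit 5467280), (nat_lit 5629981), (nat_lit 5797147), (nat_lit 5967573), (nat_lit 6140325), (nat_lit 6314660), (nat_lit 6489977), (nat_lit 6665786), (nat_lit 6841683), (nat_lit 7017334)]) (FT.cons (FT.leaf [(nat_lit 5770572), (nat_lit 5937846), (nat_lit 6108051), (nat_lit 6280312), (nat_lit 6453933), (nat_lit 6628352), (nat_lit 6803112), (nat_lit 6977837), (nat_lit 7152216)]) (FT.cons (FT.leaf [(nat_lit 6077829), (nat_lit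 6247670), (nat_lit 6419322), (nat_lit 6592135), (nat_lit 6765583), (nat_lit 6939237), (nat_lit 7112746)]) (FT.cons (FT.leaf [(nat_lit 6386361), (nat_lit 6557305), (nat_lit 6729230), (nat_lit 6901643), (nat_lit 7074142)]) (FT.cons (FT.leaf [(nat_lit
 6694218), (nat_lit 6865186), (nat_lit 7036510), (nat_lit 7207814)]) (FT.cons (FT.leaf [(nat_lit 6999979), (nat_lit 7170169)]) (FT.cons (FT.leaf [(nat_lit 7302608)]) (FT.cons (FT.leaf [(nat_lit 7601356)]) FT.nil))))))))) (FT.cons (FT.cons (FT.leaf [(nat_lit 5664970), (nat_lit 5826879), (nat_lit 5992927), (nat_lit 6161960), (nat_lit 6333093), (nat_lit 6505621), (nat_lit 6678981), (nat_lit 6852712), (nat_lit 7026436), (nat_lit 7199840)]) (FT.cons (FT.leaf [(nat_lit 5966076), (nat_lit 6132075), (nat_lit 6300765), (nat_lit 6471309), (nat_lit 6643049), (nat_lit 6815456), (nat_lit 6988099), (nat_lit 7160626), (nat_lit 7332744)]) (FT.cons (FT.leaf [(nat_lit 6270436), (nat_lit 6438655), (nat_lit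 6608510), (nat_lit 6779382), (nat_lit 6950774), (nat_lit 7122281), (nat_lit 7293575)]) (FT.cons (FT.leaf [(nat_lit 6575577), (nat_lit 6744657), (nat_lit 6914591), (nat_lit 7084913), (nat_lit 7255244)]) (FT.cons (FT.leaf [(nat_lit 6879713), (nat_lit 7048651), (nat_lit 7217859), (nat_lit 7386979)]) (FT.cons (FT.leaf [(nat_lit 7181543), (nat_lit 7349598)]) (FT.cons (FT.leaf [(nat_lit 7480125)]) (FT.cons (FT.leaf [(nat_lit 7774776)]) FT.nil)))))))) (FT.cons (FT.cons (FT.leaf [(nat_lit 6158967),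
 (nat_lit 6323583), (nat_lit 6490675), (nat_lit 6659446), (nat_lit 6829269), (nat_lit 6999646)]) (FT.cons (FT.leaf [(nat_lit 6460280), (nat_lit 6626814), (nat_lit 6794830), (nat_lit 6963736), (nat_lit 7133063)]) (FT.cons (FT.leaf [(nat_lit 6761954), (nat_lit 6929139), (nat_lit 7097069), (nat_lit 7265300)]) (FT.cons (FT.leaf [(nat_lit 7062345), (nat_lit 7229248)]) (FT.cons (FT.leaf [(nat_lit 7360260)]) (FT.cons (FT.leaf [(nat_lit 7654838)]) FT.nil)))))) (FT.cons (FT.cons (FT.leaf [(nat_lit 6647359), (nat_lit 6812162), (nat_lit 6978308), (nat_lit 7145236), (nat_lit 7312499)]) (FT.cons (FT.leaf [(nat_lit 6945515), (nat_lit 7110787), (nat_lit 7276709), (nat_lit 7442857)]) (FT.cons (FT.leaf [(nat_lit 7242156), (nat_lit 7407028)]) (FT.cons (FT.leaf [(nat_lit 7536184)]) (FT.cons (FT.leaf [(nat_lit 7826809)]) FT.nil))))) (FT.cons (FT.cons (FT.leaf [(nat_lit 7126292), (nat_lit 7289643), (nat_lit 7453560)]) (FT.cons (FT.leaf [(nat_lit 7419192),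 (nat_lit 7582043)]) (FT.cons (FT.leaf [(nat_lit 7709371)]) FT.nil))) (FT.cons (FT.cons (FT.leaf [(nat_lit 7593505)]) (FT.cons (FT.leaf [(nat_lit 7879878)]) FT.nil)) (FT.cons (FT.cons (FT.leaf [(nat_lit 8047764)]) FT.nil) (FT.cons (FT.cons (FT.leaf
 [(nat_lit 8488504)]) FT.nil) FT.nil))))))))) (FT.cons (FT.cons (FT.cons (FT.leaf [(nat_lit 5513286), (nat_lit 5665916), (nat_lit 5824747), (nat_lit 5988134), (nat_lit 6154856), (nat_lit 6323972), (nat_lit 6494735), (nat_lit 6666546), (nat_lit 6838915), (nat_lit 7011441), (nat_lit 7183790)]) (FT.cons (FT.leaf [(nat_lit 5802995), (nat_lit 5962396), (nat_lit 6125949), (nat_lit 6292507), (nat_lit 6461188), (nat_lit 6631294), (nat_lit 6802266), (nat_lit 6973648), (nat_lit 7145063), (nat_lit 7316202)]) (FT.cons (FT.leaf [(nat_lit 6099553), (nat_lit 6263093), (nat_lit 6429342), (nat_lit 6597473), (nat_lit 6766831), (nat_lit 6936892), (nat_lit 7107229), (nat_lit 7277491), (nat_lit 7447389)])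 (FT.cons (FT.leaf [(nat_lit 6399481), (nat_lit 6565298), (nat_lit 6732780), (nat_lit 6901310), (nat_lit 7070398), (nat_lit 7239641), (nat_lit 7408714)]) (FT.cons (FT.leaf [(nat_lit 6700321), (nat_lit 6867066), (nat_lit 7034701), (nat_lit 7202762), (nat_lit 7370872)]) (FT.cons (FT.leaf [(nat_lit 7000299), (nat_lit 7166979), (nat_lit 7333968), (nat_lit 7500912)]) (FT.cons (FT.leaf [(nat_lit 7298127), (nat_lit 7464007)]) (FT.cons (FT.leaf [(nat_lit 7592867)]) (FT.cons (FT.leaf [(nat_lit 7883841)])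
 FT.nil))))))))) (FT.cons (FT.cons (FT.leaf [(nat_lit 5995420), (nat_lit 6153911), (nat_lit 6316266), (nat_lit 6481387), (nat_lit 6648435), (nat_lit 6816747), (nat_lit 6985796), (nat_lit 7155151), (nat_lit 7324460), (nat_lit 7493433)]) (FT.cons (FT.leaf [(nat_lit 6289641), (nat_lit 6451854), (nat_lit 6616565), (nat_lit 6782984), (nat_lit 6950489), (nat_lit 7118584), (nat_lit 7286865), (nat_lit 7455003), (nat_lit 7622727)]) (FT.cons (FT.leaf [(nat_lit 6586630), (nat_lit 6750823), (nat_lit 6916527), (nat_lit 7083157), (nat_lit 7250244), (nat_lit 7417411), (nat_lit 7584349)]) (FT.cons (FT.leaf [(nat_lit 6884117), (nat_lit 7049031), (nat_lit 7214725), (nat_lit 7380761), (nat_lit 7546780)]) (FT.cons (FT.leaf [(nat_lit 7180468), (nat_lit 7345178), (nat_lit 7510123), (nat_lit 7674966)]) (FT.cons (FT.leaf [(nat_lit 7474500), (nat_lit 7638322)]) (FT.cons (FT.leaf [(nat_lit 7765352)]) (FT.cons (FT.leaf [(nat_lit 8052405)]) FT.nil))))))))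 (FT.cons (FT.cons (FT.leaf [(nat_lit 6477155), (nat_lit 6637956), (nat_lit 6801068), (nat_lit 6965735), (nat_lit 7131364), (nat_lit 7297484)]) (FT.cons (FT.leaf [(nat_lit 6771094), (nat_lit 6933617), (nat_lit 7097514), (nat_lit 7262229), (nat_lit 7427316)])
 (FT.cons (FT.leaf [(nat_lit 7065177), (nat_lit 7228242), (nat_lit 7391992), (nat_lit 7556007)]) (FT.cons (FT.leaf [(nat_lit 7357895), (nat_lit 7520637)]) (FT.cons (FT.leaf [(nat_lit 7648155)]) (FT.cons (FT.leaf [(nat_lit 7935168)]) FT.nil)))))) (FT.cons (FT.cons (FT.leaf [(nat_lit 6952883), (nat_lit 7113702), (nat_lit 7275776), (nat_lit 7438571), (nat_lit 7601664)]) (FT.cons (FT.leaf [(nat_lit 7243533), (nat_lit 7404739), (nat_lit 7566546), (nat_lit 7728555)]) (FT.cons (FT.leaf [(nat_lit 7532625), (nat_lit 7693408)]) (FT.cons (FT.leaf [(nat_lit 7819149)]) (FT.cons (FT.leaf [(nat_lit 8102375)]) FT.nil))))) (FT.cons (FT.cons (FT.leaf [(nat_lit 7419222), (nat_lit 7578566), (nat_lit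 7738439)]) (FT.cons (FT.leaf [(nat_lit 7704706), (nat_lit 7863542)]) (FT.cons (FT.leaf [(nat_lit 7987534)]) FT.nil))) (FT.cons (FT.cons (FT.leaf [(nat_lit 7874188)]) (FT.cons (FT.leaf [(nat_lit 8153368)]) FT.nil)) (FT.cons (FT.cons (FT.leaf [(nat_lit 8316707)]) FT.nil) (FT.cons (FT.cons (FT.leaf [(nat_lit 8746294)]) FT.nil) FT.nil)))))))) (FT.cons (FT.cons (FT.cons (FT.leaf [(nat_lit 6315690), (nat_lit 6470790), (nat_lit 6629518), (nat_lit 6790826), (nat_lit 6953916), (nat_lit 7118165), (nat_lit 7283074),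
 (nat_lit 7448238)]) (FT.cons (FT.leaf [(nat_lit 6603144), (nat_lit 6761660), (nat_lit 6922512), (nat_lit 7084948), (nat_lit 7248382), (nat_lit 7412343), (nat_lit 7576454)]) (FT.cons (FT.leaf [(nat_lit 6892980), (nat_lit 7053282), (nat_lit 7214990), (nat_lit 7377549), (nat_lit 7540518)]) (FT.cons (FT.leaf [(nat_lit 7183099), (nat_lit 7344013), (nat_lit 7505648), (nat_lit 7667587)]) (FT.cons (FT.leaf [(nat_lit 7471997), (nat_lit 7632665)]) (FT.cons (FT.leaf [(nat_lit 7758588)]) FT.nil)))))) (FT.cons (FT.cons (FT.leaf [(nat_lit 6785491), (nat_lit 6942588), (nat_lit 7101855), (nat_lit 7262571), (nat_lit 7424176), (nat_lit 7586223)]) (FT.cons (FT.leaf [(nat_lit 7072304), (nat_lit 7230962), (nat_lit 7390907), (nat_lit 7551607), (nat_lit 7712642)]) (FT.cons (FT.leaf [(nat_lit 7359101), (nat_lit 7518217), (nat_lit 7677969), (nat_lit 7837961)]) (FT.cons (FT.leaf [(nat_lit 7644484), (nat_lit 7803252)]) (FT.cons (FT.leaf [(nat_lit 7927447)])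 FT.nil))))) (FT.cons (FT.cons (FT.leaf [(nat_lit 7249051), (nat_lit 7406041), (nat_lit 7564211), (nat_lit 7723054), (nat_lit 7882167)]) (FT.cons (FT.leaf [(nat_lit 7532509), (nat_lit 7689824), (nat_lit 7847701), (nat_lit 8005760)]) (FT.cons (FT.leaf
 [(nat_lit 7814393), (nat_lit 7971274)]) FT.nil))) (FT.cons (FT.cons (FT.leaf [(nat_lit 7703364), (nat_lit 7858880)]) (FT.cons (FT.leaf [(nat_lit 7981774)]) FT.nil)) (FT.cons (FT.cons (FT.leaf [(nat_lit 8146676)]) FT.nil) (FT.cons (FT.cons (FT.leaf [(nat_lit 8578039)]) FT.nil) FT.nil)))))) (FT.cons (FT.cons (FT.cons (FT.leaf [(nat_lit 7084479), (nat_lit 7237989), (nat_lit 7393550), (nat_lit 7550472), (nat_lit 7708220), (nat_lit 7866373)]) (FT.cons (FT.leaf [(nat_lit 7364425), (nat_lit 7519366), (nat_lit 7675519), (nat_lit 7832379), (nat_lit 7989544)]) (FT.cons (FT.leaf [(nat_lit 7644236), (nat_lit 7799570), (nat_lit 7955503), (nat_lit 8111653)]) (FT.cons (FT.leaf [(nat_lit 7922612),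 (nat_lit 8077585)]) FT.nil)))) (FT.cons (FT.cons (FT.leaf [(nat_lit 7536367), (nat_lit 7689683), (nat_lit 7844116), (nat_lit 7999180), (nat_lit 8154494)]) (FT.cons (FT.leaf [(nat_lit 7812942), (nat_lit 7966535), (nat_lit 8120659), (nat_lit 8274952)]) (FT.cons (FT.leaf [(nat_lit 8087947), (nat_lit 8241103)]) FT.nil))) (FT.cons (FT.cons (FT.leaf [(nat_lit 7979206)]) (FT.cons (FT.leaf [(nat_lit 8250868)]) FT.nil)) (FT.cons (FT.cons (FT.leaf [(nat_lit 8411424)]) FT.nil) (FT.cons (FT.cons (FT.leaf [(nat_lit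
 8832175)]) FT.nil) FT.nil))))) (FT.cons (FT.cons (FT.cons (FT.leaf [(nat_lit 7815312), (nat_lit 7965100), (nat_lit 8115955)]) (FT.cons (FT.leaf [(nat_lit 8085298), (nat_lit 8235331)]) (FT.cons (FT.leaf [(nat_lit 8353735)]) FT.nil))) (FT.cons (FT.cons (FT.leaf [(nat_lit 8247198)]) (FT.cons (FT.leaf [(nat_lit 8512421)]) FT.nil)) (FT.cons (FT.cons (FT.leaf [(nat_lit 8668850)]) FT.nil) FT.nil))) (FT.cons (FT.cons (FT.cons (FT.leaf [(nat_lit 8507762)]) FT.nil) (FT.cons (FT.cons (FT.leaf [(nat_lit 8919344)]) FT.nil) FT.nil)) (FT.cons (FT.cons (FT.cons (FT.leaf [(nat_lit 9163268)]) FT.nil) FT.nil) (FT.cons (FT.cons (FT.cons (FT.leaf [(nat_lit 9784054)]) FT.nil) FT.nil) (FT.cons (FT.cons (FT.cons (FT.leaf [(nat_lit 10372621)]) FT.nil) FT.nil) FT.nil))))))))) (FT.cons (FT.cons (FT.cons (FT.cons (FT.leaf [(nat_lit 6431229), (nat_lit 6570584), (nat_lit 6715601), (nat_lit 6864812), (nat_lit 7017131), (nat_lit 7171726), (nat_lit 7327939),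 (nat_lit 7485240), (nat_lit 7643198), (nat_lit 7801456), (nat_lit 7959721)]) (FT.cons (FT.leaf [(nat_lit 6695283), (nat_lit 6840872), (nat_lit 6990307), (nat_lit 7142568), (nat_lit 7296874), (nat_lit 7452607), (nat_lit 7609270), (nat_lit 7766462), (nat_lit
 7923846), (nat_lit 8081148)]) (FT.cons (FT.leaf [(nat_lit 6965772), (nat_lit 7115281), (nat_lit 7267363), (nat_lit 7421282), (nat_lit 7576456), (nat_lit 7732420), (nat_lit 7888793), (nat_lit 8045266), (nat_lit 8201575)]) (FT.cons (FT.leaf [(nat_lit 7239664), (nat_lit 7391461), (nat_lit 7544907), (nat_lit 7699454), (nat_lit 7854664), (nat_lit 8010178), (nat_lit 8165703)]) (FT.cons (FT.leaf [(nat_lit 7514817), (nat_lit 7667716), (nat_lit 7821576), (nat_lit 7975984), (nat_lit 8130601)]) (FT.cons (FT.leaf [(nat_lit 7789677), (nat_lit 7942799), (nat_lit 8096363), (nat_lit 8250051)]) (FT.cons (FT.leaf [(nat_lit 8063104), (nat_lit 8215790)]) FT.nil))))))) (FT.cons (FT.cons (FT.leaf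 [(nat_lit 6869782), (nat_lit 7014681), (nat_lit 7163185), (nat_lit 7314314), (nat_lit 7467321), (nat_lit 7621617), (nat_lit 7776734), (nat_lit 7932285), (nat_lit 8087959), (nat_lit 8243493)]) (FT.cons (FT.leaf [(nat_lit 7138434), (nat_lit 7286904), (nat_lit 7437769), (nat_lit 7590321), (nat_lit 7744007), (nat_lit 7898384), (nat_lit 8053091), (nat_lit 8207833), (nat_lit 8362364)]) (FT.cons (FT.leaf [(nat_lit 7409986), (nat_lit 7560492), (nat_lit 7712514), (nat_lit 7865530), (nat_lit 8019120), (nat_lit 8172945),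
 (nat_lit 8326727)]) (FT.cons (FT.leaf [(nat_lit 7682445), (nat_lit 7833872), (nat_lit 7986165), (nat_lit 8138927), (nat_lit 8291839)]) (FT.cons (FT.leaf [(nat_lit 7954369), (nat_lit 8105894), (nat_lit 8257793), (nat_lit 8409763)]) (FT.cons (FT.leaf [(nat_lit 8224702), (nat_lit 8375708)]) FT.nil)))))) (FT.cons (FT.cons (FT.leaf [(nat_lit 7309010), (nat_lit 7456370), (nat_lit 7605963), (nat_lit 7757111), (nat_lit 7909285), (nat_lit 8062062)]) (FT.cons (FT.leaf [(nat_lit 7578125), (nat_lit 7727297), (nat_lit 7877868), (nat_lit 8029336), (nat_lit 8181301)]) (FT.cons (FT.leaf [(nat_lit 7847841), (nat_lit 7997776), (nat_lit 8148492), (nat_lit 8299609)]) (FT.cons (FT.leaf [(nat_lit 8116814), (nat_lit 8266738)]) (FT.cons (FT.leaf [(nat_lit 8384063)]) FT.nil))))) (FT.cons (FT.cons (FT.leaf [(nat_lit 7744085), (nat_lit 7891892), (nat_lit 8040990), (nat_lit 8190900), (nat_lit 8341239)]) (FT.cons (FT.leaf [(nat_lit 8011023), (nat_lit 8159454),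 (nat_lit 8308588), (nat_lit 8458063)]) (FT.cons (FT.leaf [(nat_lit 8277042), (nat_lit 8425365)]) FT.nil))) (FT.cons (FT.cons (FT.leaf [(nat_lit 8172017), (nat_lit 8318935)]) (FT.cons (FT.leaf [(nat_lit 8435085)]) FT.nil)) (FT.cons (FT.cons (FT.leaf
 [(nat_lit 8590978)]) FT.nil) (FT.cons (FT.cons (FT.leaf [(nat_lit 8999900)]) FT.nil) FT.nil))))))) (FT.cons (FT.cons (FT.cons (FT.leaf [(nat_lit 7159244), (nat_lit 7301409), (nat_lit 7446983), (nat_lit 7595023), (nat_lit 7744816), (nat_lit 7895803), (nat_lit 8047538), (nat_lit 8199658)]) (FT.cons (FT.leaf [(nat_lit 7422426), (nat_lit 7567904), (nat_lit 7715636), (nat_lit 7864948), (nat_lit 8015311), (nat_lit 8166305), (nat_lit 8317589)]) (FT.cons (FT.leaf [(nat_lit 7688174), (nat_lit 7835516), (nat_lit 7984280), (nat_lit 8133967), (nat_lit 8284180)]) (FT.cons (FT.leaf [(nat_lit 7954629), (nat_lit 8102788), (nat_lit 8251754), (nat_lit 8401149)]) (FT.cons (FT.leaf [(nat_lit 8220453),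 (nat_lit 8368656)]) (FT.cons (FT.leaf [(nat_lit 8484664)]) FT.nil)))))) (FT.cons (FT.cons (FT.leaf [(nat_lit 7588807), (nat_lit 7733160), (nat_lit 7879624), (nat_lit 8027549), (nat_lit 8176429), (nat_lit 8325862)]) (FT.cons (FT.leaf [(nat_lit 7852126), (nat_lit 7998147), (nat_lit 8145484), (nat_lit 8293658), (nat_lit 8442290)]) (FT.cons (FT.leaf [(nat_lit 8115887), (nat_lit 8262585), (nat_lit 8410014), (nat_lit 8557812)]) (FT.cons (FT.leaf [(nat_lit 8378837), (nat_lit 8525485)]) (FT.cons (FT.leaf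
 [(nat_lit 8640062)]) FT.nil))))) (FT.cons (FT.cons (FT.leaf [(nat_lit 8013966), (nat_lit 8158640), (nat_lit 8304536), (nat_lit 8451193), (nat_lit 8598247)]) (FT.cons (FT.leaf [(nat_lit 8275009), (nat_lit 8420239), (nat_lit 8566132), (nat_lit 8712340)]) (FT.cons (FT.leaf [(nat_lit 8535089), (nat_lit 8680187)]) FT.nil))) (FT.cons (FT.cons (FT.leaf [(nat_lit 8432024), (nat_lit 8575782)]) (FT.cons (FT.leaf [(nat_lit 8689244)]) FT.nil)) (FT.cons (FT.cons (FT.leaf [(nat_lit 8841337)]) FT.nil) (FT.cons (FT.cons (FT.leaf [(nat_lit 9240945)]) FT.nil) FT.nil)))))) (FT.cons (FT.cons (FT.cons (FT.leaf [(nat_lit 7861016), (nat_lit 8002441), (nat_lit 8145871), (nat_lit 8290680), (nat_lit 8436385), (nat_lit 8582601)]) (FT.cons (FT.leaf [(nat_lit 8118715), (nat_lit 8261687), (nat_lit 8405904), (nat_lit 8550908), (nat_lit 8696336)]) (FT.cons (FT.leaf [(nat_lit 8376733), (nat_lit 8520313), (nat_lit 8664581), (nat_lit 8809193)]) (FT.cons (FT.leaf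 [(nat_lit 8633893), (nat_lit 8777395)]) FT.nil)))) (FT.cons (FT.cons (FT.leaf [(nat_lit 8276606), (nat_lit 8418256), (nat_lit 8561067), (nat_lit 8704596), (nat_lit 8848493)]) (FT.cons (FT.leaf [(nat_lit 8531973), (nat_lit 8674123), (nat_lit 8816901),
 (nat_lit 8959974)]) (FT.cons (FT.leaf [(nat_lit 8786351), (nat_lit 8928350)]) FT.nil))) (FT.cons (FT.cons (FT.leaf [(nat_lit 8685184)]) (FT.cons (FT.leaf [(nat_lit 8936793)]) FT.nil)) (FT.cons (FT.cons (FT.leaf [(nat_lit 9085257)]) FT.nil) (FT.cons (FT.cons (FT.leaf [(nat_lit 9475958)]) FT.nil) FT.nil))))) (FT.cons (FT.cons (FT.cons (FT.leaf [(nat_lit 8532351), (nat_lit 8671085), (nat_lit 8810924)]) (FT.cons (FT.leaf [(nat_lit 8782256), (nat_lit 8921444)]) (FT.cons (FT.leaf [(nat_lit 9031158)]) FT.nil))) (FT.cons (FT.cons (FT.leaf [(nat_lit 8931831)]) (FT.cons (FT.leaf [(nat_lit 9178055)]) FT.nil)) (FT.cons (FT.cons (FT.leaf [(nat_lit 9323053)]) FT.nil) FT.nil))) (FT.cons (FT.cons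 (FT.cons (FT.leaf [(nat_lit 9172277)]) FT.nil) (FT.cons (FT.cons (FT.leaf [(nat_lit 9555019)]) FT.nil) FT.nil)) (FT.cons (FT.cons (FT.cons (FT.leaf [(nat_lit 9781426)]) FT.nil) FT.nil) (FT.cons (FT.cons (FT.cons (FT.leaf [(nat_lit 10361216)]) FT.nil) FT.nil) (FT.cons (FT.cons (FT.cons (FT.leaf [(nat_lit 10913405)]) FT.nil) FT.nil) FT.nil)))))))) (FT.cons (FT.cons (FT.cons (FT.cons (FT.leaf [(nat_lit 7919371), (nat_lit 8051024), (nat_lit 8185888), (nat_lit 8323102), (nat_lit 8462016), (nat_lit 8602124),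
 (nat_lit 8743023), (nat_lit 8884384)]) (FT.cons (FT.leaf [(nat_lit 8162826), (nat_lit 8297668), (nat_lit 8434671), (nat_lit 8573220), (nat_lit 8712838), (nat_lit 8853142), (nat_lit 8993822)]) (FT.cons (FT.leaf [(nat_lit 8408916), (nat_lit 8545636), (nat_lit 8683763), (nat_lit 8822843), (nat_lit 8962514)]) (FT.cons (FT.leaf [(nat_lit 8655968), (nat_lit 8793621), (nat_lit 8932122), (nat_lit 9071128)]) (FT.cons (FT.leaf [(nat_lit 8902775), (nat_lit 9040661)]) (FT.cons (FT.leaf [(nat_lit 9148449)]) FT.nil)))))) (FT.cons (FT.cons (FT.leaf [(nat_lit 8316226), (nat_lit 8450151), (nat_lit 8586109), (nat_lit 8723510), (nat_lit 8861894), (nat_lit 9000893)]) (FT.cons (FT.leaf [(nat_lit 8560309), (nat_lit 8695938), (nat_lit 8832880), (nat_lit 8970698), (nat_lit 9109045)]) (FT.cons (FT.leaf [(nat_lit 8805118), (nat_lit 8941554), (nat_lit 9078770), (nat_lit 9216437)]) (FT.cons (FT.leaf [(nat_lit 9049518), (nat_lit 9186101)]) (FT.cons (FT.leaf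 [(nat_lit 9292679)]) FT.nil))))) (FT.cons (FT.cons (FT.leaf [(nat_lit 8709929), (nat_lit 8844442), (nat_lit 8980184), (nat_lit 9116732), (nat_lit 9253754)]) (FT.cons (FT.leaf [(nat_lit 8952469), (nat_lit 9087679), (nat_lit 9223607), (nat_lit 9359934)])
 (FT.cons (FT.leaf [(nat_lit 9194460), (nat_lit 9329738)]) FT.nil))) (FT.cons (FT.cons (FT.leaf [(nat_lit 9098041)]) (FT.cons (FT.leaf [(nat_lit 9337623)]) FT.nil)) (FT.cons (FT.cons (FT.leaf [(nat_lit 9479036)]) FT.nil) (FT.cons (FT.cons (FT.leaf [(nat_lit 9851982)]) FT.nil) FT.nil)))))) (FT.cons (FT.cons (FT.cons (FT.leaf [(nat_lit 8566645), (nat_lit 8698121), (nat_lit 8831535), (nat_lit 8966316), (nat_lit 9102024), (nat_lit 9238306)]) (FT.cons (FT.leaf [(nat_lit 8806019), (nat_lit 8939085), (nat_lit 9073399), (nat_lit 9208541), (nat_lit 9344177)]) (FT.cons (FT.leaf [(nat_lit 9045994), (nat_lit 9179799), (nat_lit 9314343), (nat_lit 9449308)]) (FT.cons (FT.leaf [(nat_lit 9285503),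 (nat_lit 9419420)]) FT.nil)))) (FT.cons (FT.cons (FT.leaf [(nat_lit 8952315), (nat_lit 9084282), (nat_lit 9217418), (nat_lit 9351320), (nat_lit 9485665)]) (FT.cons (FT.leaf [(nat_lit 9190068), (nat_lit 9322673), (nat_lit 9455961), (nat_lit 9589624)]) (FT.cons (FT.leaf [(nat_lit 9427229), (nat_lit 9559877)]) FT.nil))) (FT.cons (FT.cons (FT.leaf [(nat_lit 9332421)]) (FT.cons (FT.leaf [(nat_lit 9567241)]) FT.nil)) (FT.cons (FT.cons (FT.leaf [(nat_lit 9705564)]) FT.nil) (FT.cons (FT.cons (FT.leaf [(nat_lit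
 10070890)]) FT.nil) FT.nil))))) (FT.cons (FT.cons (FT.cons (FT.leaf [(nat_lit 9188900), (nat_lit 9318398), (nat_lit 9449014)]) (FT.cons (FT.leaf [(nat_lit 9422023), (nat_lit 9552111)]) (FT.cons (FT.leaf [(nat_lit 9654526)]) FT.nil))) (FT.cons (FT.cons (FT.leaf [(nat_lit 9561285)]) (FT.cons (FT.leaf [(nat_lit 9791513)]) FT.nil)) (FT.cons (FT.cons (FT.leaf [(nat_lit 9926873)]) FT.nil) FT.nil))) (FT.cons (FT.cons (FT.cons (FT.leaf [(nat_lit 9784874)]) FT.nil) (FT.cons (FT.cons (FT.leaf [(nat_lit 10143189)]) FT.nil) FT.nil)) (FT.cons (FT.cons (FT.cons (FT.leaf [(nat_lit 10354729)]) FT.nil) FT.nil) (FT.cons (FT.cons (FT.cons (FT.leaf [(nat_lit 10899360)]) FT.nil) FT.nil) FT.nil)))))) (FT.cons (FT.cons (FT.cons (FT.cons (FT.leaf [(nat_lit 9214365), (nat_lit 9337463), (nat_lit 9462428), (nat_lit 9588733), (nat_lit 9715973)]) (FT.cons (FT.leaf [(nat_lit 9438305), (nat_lit 9563001), (nat_lit 9688931), (nat_lit 9815705)]) (FT.cons (FT.leaf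 [(nat_lit 9663030), (nat_lit 9788546)]) (FT.cons (FT.leaf [(nat_lit 9887565)]) FT.nil)))) (FT.cons (FT.cons (FT.leaf [(nat_lit 9574834), (nat_lit 9698596), (nat_lit 9823522)]) (FT.cons (FT.leaf [(nat_lit 9797660), (nat_lit 9922150)]) (FT.cons (FT.leaf
 [(nat_lit 10020179)]) FT.nil))) (FT.cons (FT.cons (FT.leaf [(nat_lit 9930805)]) FT.nil) FT.nil))) (FT.cons (FT.cons (FT.cons (FT.leaf [(nat_lit 9795266), (nat_lit 9916905), (nat_lit 10039657)]) (FT.cons (FT.leaf [(nat_lit 10014103), (nat_lit 10136420)]) FT.nil)) (FT.cons (FT.cons (FT.leaf [(nat_lit 10144579)]) FT.nil) FT.nil)) (FT.cons (FT.cons (FT.cons (FT.leaf [(nat_lit 10353795)]) FT.nil) FT.nil) (FT.cons (FT.cons (FT.cons (FT.leaf [(nat_lit 10889822)]) FT.nil) FT.nil) FT.nil)))) (FT.cons (FT.cons (FT.cons (FT.cons (FT.leaf [(nat_lit 10359230)]) FT.nil) FT.nil) (FT.cons (FT.cons (FT.cons (FT.leaf [(nat_lit 10885387)]) FT.nil) FT.nil) FT.nil)) (FT.cons (FT.cons (FT.cons (FT.cons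 (FT.leaf [(nat_lit 11384651)]) FT.nil) FT.nil) FT.nil) (FT.cons (FT.cons (FT.cons (FT.cons (FT.leaf [(nat_lit 12313011)]) FT.nil) FT.nil) FT.nil) FT.nil)))))))

def f152_1_896 : FT := (FT.cons (FT.cons (FT.cons (FT.cons (FT.leaf [(nat_lit 4798346), (nat_lit 4938925), (nat_lit 5089866), (nat_lit 5248557), (nat_lit 5413115), (nat_lit 5582109), (nat_lit 5754418), (nat_lit 5929141), (nat_lit 6105547), (nat_lit 6283031), (nat_lit 6461096)]) (FT.cons (FT.leaf [(nat_lit 5075754), (nat_lit 5228772), (nat_lit 5388860), (nat_lit 5554258), (nat_lit 5723637), (nat_lit 5895954), (nat_lit 6070375), (nat_lit 6246220), (nat_lit 6422930), (nat_lit 6600045)]) (FT.cons (FT.leaf [(nat_lit 5367972), (nat_lit 5529117), (nat_lit 5695082), (nat_lit 5864624), (nat_lit 6036771), (nat_lit 6210743), (nat_lit 6385910), (nat_lit 6561753), (nat_lit 6737843)]) (FT.cons (FT.leaf [(nat_lit 5669149), (nat_lit 5835446), (nat_lit 6004959), (nat_lit 6176778), (nat_lit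 6350176), (nat_lit 6524565), (nat_lit 6699460)]) (FT.cons (FT.leaf [(nat_lit 5975229), (nat_lit 6144547), (nat_lit 6315903), (nat_lit 6488618), (nat_lit 6662140)]) (FT.cons (FT.leaf [(nat_lit 6283307), (nat_lit 6454084), (nat_lit 6626022), (nat_lit 6798602)]) (FT.cons (FT.leaf [(nat_lit 6591268), (nat_lit 6762347)]) (FT.cons (FT.leaf [(nat_lit 6897562)]) (FT.cons (FT.leaf [(nat_lit 7201051)]) FT.nil))))))))) (FT.cons (FT.cons (FT.leaf
 [(nat_lit 5273561), (nat_lit 5426814), (nat_lit 5586651), (nat_lit 5751385), (nat_lit 5919751), (nat_lit 6090762), (nat_lit 6263634), (nat_lit 6437731), (nat_lit 6612531), (nat_lit 6787604)]) (FT.cons (FT.leaf [(nat_lit 5565199), (nat_lit 5725830), (nat_lit 5890916), (nat_lit 6059271), (nat_lit 6229972), (nat_lit 6402285), (nat_lit 6575620), (nat_lit 6749489), (nat_lit 6923491)]) (FT.cons (FT.leaf [(nat_lit 5864643), (nat_lit 6029876), (nat_lit 6198053), (nat_lit 6368309), (nat_lit 6539957), (nat_lit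 6712442), (nat_lit 6885311)]) (FT.cons (FT.leaf [(nat_lit 6168164), (nat_lit 6336019), (nat_lit 6505713), (nat_lit 6676601), (nat_lit 6848162)]) (FT.cons (FT.leaf [(nat_lit 6473102), (nat_lit 6642133), (nat_lit 6812180), (nat_lit 6982755)]) (FT.cons (FT.leaf [(nat_lit 6777526), (nat_lit 6946662)]) (FT.cons (FT.leaf [(nat_lit 7080023)]) (FT.cons (FT.leaf [(nat_lit 7379557)]) FT.nil)))))))) (FT.cons (FT.cons (FT.leaf [(nat_lit 5760298), (nat_lit 5920205), (nat_lit 6084245), (nat_lit 6251282), (nat_lit 6420439), (nat_lit 6591024), (nat_lit 6762477), (nat_lit 6934343)]) (FT.cons (FT.leaf [(nat_lit 6057691), (nat_lit 6221722), (nat_lit 6388457), (nat_lit 6557072), (nat_lit 6726915),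
 (nat_lit 6897463), (nat_lit 7068288)]) (FT.cons (FT.leaf [(nat_lit 6358454), (nat_lit 6524762), (nat_lit 6692732), (nat_lit 6861753), (nat_lit 7031331)]) (FT.cons (FT.leaf [(nat_lit 6660140), (nat_lit 6827379), (nat_lit 6995508), (nat_lit 7164062)]) (FT.cons (FT.leaf [(nat_lit 6960976), (nat_lit 7128153)]) (FT.cons (FT.leaf [(nat_lit 7259671)]) FT.nil)))))) (FT.cons (FT.cons (FT.leaf [(nat_lit 6248228), (nat_lit 6410947), (nat_lit 6576156), (nat_lit 6743070), (nat_lit 6911068), (nat_lit 7079657)]) (FT.cons (FT.leaf [(nat_lit 6546078), (nat_lit 6710773), (nat_lit 6876975), (nat_lit 7044101), (nat_lit 7211684)]) (FT.cons (FT.leaf [(nat_lit 6844430), (nat_lit 7009845), (nat_lit 7176038), (nat_lit 7342570)]) (FT.cons (FT.leaf [(nat_lit 7141650), (nat_lit 7306860)]) (FT.cons (FT.leaf [(nat_lit 7436553)]) FT.nil))))) (FT.cons (FT.cons (FT.leaf [(nat_lit 6731031), (nat_lit 6894062), (nat_lit 7058464)]) (FT.cons (FT.leaf [(nat_lit 7025991),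 (nat_lit 7189560)]) (FT.cons (FT.leaf [(nat_lit 7319585)]) FT.nil))) (FT.cons (FT.cons (FT.leaf [(nat_lit 7204853)]) (FT.cons (FT.leaf [(nat_lit 7494823)]) FT.nil)) (FT.cons (FT.cons (FT.leaf [(nat_lit 7667409)]) FT.nil) FT.nil))))))) (FT.cons (FT.cons
 (FT.cons (FT.leaf [(nat_lit 5610363), (nat_lit 5761074), (nat_lit 5917949), (nat_lit 6079368), (nat_lit 6244127), (nat_lit 6411296), (nat_lit 6580140), (nat_lit 6750065), (nat_lit 6920587), (nat_lit 7091307)]) (FT.cons (FT.leaf [(nat_lit 5896436), (nat_lit 6053913), (nat_lit 6215533), (nat_lit 6380167), (nat_lit 6546944), (nat_lit 6715175), (nat_lit 6884306), (nat_lit 7053886), (nat_lit 7223541)]) (FT.cons (FT.leaf [(nat_lit 6189422), (nat_lit 6351066), (nat_lit 6515432), (nat_lit 6681702), (nat_lit 6849229), (nat_lit 7017493), (nat_lit 7186073)]) (FT.cons (FT.leaf [(nat_lit 6485884), (nat_lit 6649858), (nat_lit 6815520), (nat_lit 6982263), (nat_lit 7149598)]) (FT.cons (FT.leaf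 [(nat_lit 6783390), (nat_lit 6948359), (nat_lit 7114249), (nat_lit 7280601)]) (FT.cons (FT.leaf [(nat_lit 7080182), (nat_lit 7245160)]) (FT.cons (FT.leaf [(nat_lit 7374978)]) FT.nil))))))) (FT.cons (FT.cons (FT.leaf [(nat_lit 6086468), (nat_lit 6243097), (nat_lit 6403586), (nat_lit 6566852), (nat_lit 6732066), (nat_lit 6898573), (nat_lit 7065850), (nat_lit 7233472)]) (FT.cons (FT.leaf [(nat_lit 6377241), (nat_lit 6537625), (nat_lit 6700521), (nat_lit 6865148), (nat_lit 7030890), (nat_lit 7197257), (nat_lit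
 7363848)]) (FT.cons (FT.leaf [(nat_lit 6670892), (nat_lit 6833309), (nat_lit 6997262), (nat_lit 7162171), (nat_lit 7327572)]) (FT.cons (FT.leaf [(nat_lit 6965170), (nat_lit 7128375), (nat_lit 7292391), (nat_lit 7456781)]) (FT.cons (FT.leaf [(nat_lit 7258458), (nat_lit 7421530)]) (FT.cons (FT.leaf [(nat_lit 7549573)]) FT.nil)))))) (FT.cons (FT.cons (FT.leaf [(nat_lit 6562579), (nat_lit 6721617), (nat_lit 6882979), (nat_lit 7045919), (nat_lit 7209851), (nat_lit 7374308)]) (FT.cons (FT.leaf [(nat_lit 6853303), (nat_lit 7014115), (nat_lit 7176326), (nat_lit 7339385), (nat_lit 7502849)]) (FT.cons (FT.leaf [(nat_lit 7144299), (nat_lit 7305717), (nat_lit 7467851), (nat_lit 7630284)]) (FT.cons (FT.leaf [(nat_lit 7434070), (nat_lit 7595235)]) (FT.cons (FT.leaf [(nat_lit 7721525)]) FT.nil))))) (FT.cons (FT.cons (FT.leaf [(nat_lit 7033123), (nat_lit 7192294), (nat_lit 7352744)]) (FT.cons (FT.leaf [(nat_lit 7320803), (nat_lit 7480422)]) (FT.cons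 (FT.leaf [(nat_lit 7607058)]) FT.nil))) (FT.cons (FT.cons (FT.leaf [(nat_lit 7494713)]) (FT.cons (FT.leaf [(nat_lit 7777468)]) FT.nil)) (FT.cons (FT.cons (FT.leaf [(nat_lit 7945345)]) FT.nil) FT.nil)))))) (FT.cons (FT.cons (FT.cons (FT.leaf [(nat_lit
 6402798), (nat_lit 6556164), (nat_lit 6713156), (nat_lit 6872738), (nat_lit 7034121), (nat_lit 7196689), (nat_lit 7359949), (nat_lit 7523499)]) (FT.cons (FT.leaf [(nat_lit 6687046), (nat_lit 6843860), (nat_lit 7003022), (nat_lit 7163790), (nat_lit 7325582), (nat_lit 7487934), (nat_lit 7650470)]) (FT.cons (FT.leaf [(nat_lit 6973778), (nat_lit 7132427), (nat_lit 7292504), (nat_lit 7453461), (nat_lit 7614859)]) (FT.cons (FT.leaf [(nat_lit 7260913), (nat_lit 7420234), (nat_lit 7580304), (nat_lit 7740710)]) (FT.cons (FT.leaf [(nat_lit 7546959), (nat_lit 7706099)]) (FT.cons (FT.leaf [(nat_lit 7830833)]) FT.nil)))))) (FT.cons (FT.cons (FT.leaf [(nat_lit 6867378), (nat_lit 7022832), (nat_lit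 7180469), (nat_lit 7339577), (nat_lit 7499601), (nat_lit 7660097)]) (FT.cons (FT.leaf [(nat_lit 7151200), (nat_lit 7308263), (nat_lit 7466636), (nat_lit 7625793), (nat_lit 7785315)]) (FT.cons (FT.leaf [(nat_lit 7435122), (nat_lit 7592703), (nat_lit 7750948), (nat_lit 7909463)]) (FT.cons (FT.leaf [(nat_lit 7717759), (nat_lit 7875055)]) (FT.cons (FT.leaf [(nat_lit 7998106)]) FT.nil))))) (FT.cons (FT.cons (FT.leaf [(nat_lit 7326119), (nat_lit 7481573), (nat_lit 7638228)]) (FT.cons (FT.leaf [(nat_lit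
 7606810), (nat_lit 7762644)]) (FT.cons (FT.leaf [(nat_lit 7886049)]) FT.nil))) (FT.cons (FT.cons (FT.leaf [(nat_lit 7776012)]) (FT.cons (FT.leaf [(nat_lit 8051873)]) FT.nil)) (FT.cons (FT.cons (FT.leaf [(nat_lit 8215279)]) FT.nil) FT.nil))))) (FT.cons (FT.cons (FT.cons (FT.leaf [(nat_lit 7163096), (nat_lit 7315073), (nat_lit 7469114), (nat_lit 7624534), (nat_lit 7780807)]) (FT.cons (FT.leaf [(nat_lit 7440253), (nat_lit 7593707), (nat_lit 7748392), (nat_lit 7903809)]) (FT.cons (FT.leaf [(nat_lit 7717383), (nat_lit 7871284)]) (FT.cons (FT.leaf [(nat_lit 7993195)]) FT.nil)))) (FT.cons (FT.cons (FT.leaf [(nat_lit 7610496), (nat_lit 7762377), (nat_lit 7915394)]) (FT.cons (FT.leaf [(nat_lit 7884488), (nat_lit 8036696)]) (FT.cons (FT.leaf [(nat_lit 8157020)]) FT.nil))) (FT.cons (FT.cons (FT.leaf [(nat_lit 8049210)]) (FT.cons (FT.leaf [(nat_lit 8318488)]) FT.nil)) FT.nil))) (FT.cons (FT.cons (FT.cons (FT.leaf [(nat_lit 7886713)]) FT.nil)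 (FT.cons (FT.cons (FT.leaf [(nat_lit 8314742)]) FT.nil) FT.nil)) (FT.cons (FT.cons (FT.cons (FT.leaf [(nat_lit 8573009)]) FT.nil) FT.nil) (FT.cons (FT.cons (FT.cons (FT.leaf [(nat_lit 9223238)]) FT.nil) FT.nil) (FT.cons (FT.cons (FT.cons (FT.leaf
 [(nat_lit 9839469)]) FT.nil) FT.nil) (FT.cons (FT.cons (FT.cons (FT.leaf [(nat_lit 10424075)]) FT.nil) FT.nil) FT.nil))))))))) (FT.cons (FT.cons (FT.cons (FT.cons (FT.leaf [(nat_lit 6516009), (nat_lit 6653885), (nat_lit 6797390), (nat_lit 6945073), (nat_lit 7095864), (nat_lit 7248936), (nat_lit 7403642), (nat_lit 7559457), (nat_lit 7715952), (nat_lit 7872775)]) (FT.cons (FT.leaf [(nat_lit 6777261), (nat_lit 6921356), (nat_lit 7069287), (nat_lit 7220045), (nat_lit 7372856), (nat_lit 7527111), (nat_lit 7682319), (nat_lit 7838079), (nat_lit 7994060)]) (FT.cons (FT.leaf [(nat_lit 7044977), (nat_lit 7193005), (nat_lit 7343610), (nat_lit 7496063), (nat_lit 7649790), (nat_lit 7804328), (nat_lit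 7959301)]) (FT.cons (FT.leaf [(nat_lit 7316160), (nat_lit 7466507), (nat_lit 7618516), (nat_lit 7771645), (nat_lit 7925459)]) (FT.cons (FT.leaf [(nat_lit 7588688), (nat_lit 7740178), (nat_lit 7892650), (nat_lit 8045692)]) (FT.cons (FT.leaf [(nat_lit 7861021), (nat_lit 8012783)]) (FT.cons (FT.leaf [(nat_lit 8132024)]) FT.nil))))))) (FT.cons (FT.cons (FT.leaf [(nat_lit 6949913), (nat_lit 7093360), (nat_lit 7240404), (nat_lit 7390076), (nat_lit 7541636), (nat_lit 7694503), (nat_lit 7848211), (nat_lit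
 8002379)]) (FT.cons (FT.leaf [(nat_lit 7215876), (nat_lit 7362910), (nat_lit 7512344), (nat_lit 7663477), (nat_lit 7815763), (nat_lit 7968761), (nat_lit 8122115)]) (FT.cons (FT.leaf [(nat_lit 7484805), (nat_lit 7633907), (nat_lit 7784539), (nat_lit 7936183), (nat_lit 8088424)]) (FT.cons (FT.leaf [(nat_lit 7754725), (nat_lit 7904790), (nat_lit 8055740), (nat_lit 8207183)]) (FT.cons (FT.leaf [(nat_lit 8024207), (nat_lit 8174417)]) (FT.cons (FT.leaf [(nat_lit 8292198)]) FT.nil)))))) (FT.cons (FT.cons (FT.leaf [(nat_lit 7384751), (nat_lit 7530719), (nat_lit 7678926), (nat_lit 7828702), (nat_lit 7979521), (nat_lit 8130965)]) (FT.cons (FT.leaf [(nat_lit 7651327), (nat_lit 7799140), (nat_lit 7948366), (nat_lit 8098507), (nat_lit 8249167)]) (FT.cons (FT.leaf [(nat_lit 7918588), (nat_lit 8067206), (nat_lit 8216623), (nat_lit 8366463)]) (FT.cons (FT.leaf [(nat_lit 8185201), (nat_lit 8333853)]) (FT.cons (FT.leaf [(nat_lit 8450187)]) FT.nil)))))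 (FT.cons (FT.cons (FT.leaf [(nat_lit 7815730), (nat_lit 7962220), (nat_lit 8110016)]) (FT.cons (FT.leaf [(nat_lit 8080294), (nat_lit 8227449)]) (FT.cons (FT.leaf [(nat_lit 8344029)]) FT.nil))) (FT.cons (FT.cons (FT.leaf [(nat_lit 8239863)]) (FT.cons
 (FT.leaf [(nat_lit 8500724)]) FT.nil)) (FT.cons (FT.cons (FT.leaf [(nat_lit 8655317)]) FT.nil) FT.nil)))))) (FT.cons (FT.cons (FT.cons (FT.leaf [(nat_lit 7236327), (nat_lit 7377128), (nat_lit 7521330), (nat_lit 7668002), (nat_lit 7816436), (nat_lit 7966081), (nat_lit 8116493), (nat_lit 8267314)]) (FT.cons (FT.leaf [(nat_lit 7496985), (nat_lit 7641114), (nat_lit 7787502), (nat_lit 7935482), (nat_lit 8084530), (nat_lit 8234229), (nat_lit 8384241)]) (FT.cons (FT.leaf [(nat_lit 7760272), (nat_lit 7906294), (nat_lit 8053752), (nat_lit 8202151), (nat_lit 8351096)]) (FT.cons (FT.leaf [(nat_lit 8024345), (nat_lit 8171223), (nat_lit 8318927), (nat_lit 8467081)]) (FT.cons (FT.leaf [(nat_lit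 8287874), (nat_lit 8434842)]) (FT.cons (FT.leaf [(nat_lit 8549885)]) FT.nil)))))) (FT.cons (FT.cons (FT.leaf [(nat_lit 7661775), (nat_lit 7804821), (nat_lit 7949983), (nat_lit 8096617), (nat_lit 8244224), (nat_lit 8392405)]) (FT.cons (FT.leaf [(nat_lit 7922711), (nat_lit 8067454), (nat_lit 8213527), (nat_lit 8360454), (nat_lit 8507859)]) (FT.cons (FT.leaf [(nat_lit 8184167), (nat_lit 8329626), (nat_lit 8475834), (nat_lit 8622431)]) (FT.cons (FT.leaf [(nat_lit 8444899), (nat_lit 8590351)]) (FT.cons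
 (FT.leaf [(nat_lit 8703996)]) FT.nil))))) (FT.cons (FT.cons (FT.leaf [(nat_lit 8083092), (nat_lit 8226529), (nat_lit 8371201)]) (FT.cons (FT.leaf [(nat_lit 8341905), (nat_lit 8485936)]) (FT.cons (FT.leaf [(nat_lit 8599840)]) FT.nil))) (FT.cons (FT.cons (FT.leaf [(nat_lit 8497585)]) (FT.cons (FT.leaf [(nat_lit 8752728)]) FT.nil)) (FT.cons (FT.cons (FT.leaf [(nat_lit 8903598)]) FT.nil) FT.nil))))) (FT.cons (FT.cons (FT.cons (FT.leaf [(nat_lit 7931398), (nat_lit 8071592), (nat_lit 8213797), (nat_lit 8357392), (nat_lit 8501898)]) (FT.cons (FT.leaf [(nat_lit 8186857), (nat_lit 8328626), (nat_lit 8471652), (nat_lit 8615482)]) (FT.cons (FT.leaf [(nat_lit 8442707), (nat_lit 8585120)]) (FT.cons (FT.leaf [(nat_lit 8697779)]) FT.nil)))) (FT.cons (FT.cons (FT.leaf [(nat_lit 8343379), (nat_lit 8483864), (nat_lit 8625521)]) (FT.cons (FT.leaf [(nat_lit 8596648), (nat_lit 8737667)]) (FT.cons (FT.leaf [(nat_lit 8849004)]) FT.nil))) (FT.cons (FT.cons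 (FT.leaf [(nat_lit 8748604)]) (FT.cons (FT.leaf [(nat_lit 8998256)]) FT.nil)) FT.nil))) (FT.cons (FT.cons (FT.cons (FT.leaf [(nat_lit 8596921)]) FT.nil) (FT.cons (FT.cons (FT.leaf [(nat_lit 8993243)]) FT.nil) FT.nil)) (FT.cons (FT.cons (FT.cons
 (FT.leaf [(nat_lit 9231801)]) FT.nil) FT.nil) (FT.cons (FT.cons (FT.cons (FT.leaf [(nat_lit 9836551)]) FT.nil) FT.nil) (FT.cons (FT.cons (FT.cons (FT.leaf [(nat_lit 10412489)]) FT.nil) FT.nil) (FT.cons (FT.cons (FT.cons (FT.leaf [(nat_lit 10961286)]) FT.nil) FT.nil) FT.nil)))))))) (FT.cons (FT.cons (FT.cons (FT.cons (FT.leaf [(nat_lit 7988633), (nat_lit 8119177), (nat_lit 8252925), (nat_lit 8389021), (nat_lit 8526823), (nat_lit 8665830)]) (FT.cons (FT.leaf [(nat_lit 8230037), (nat_lit 8363779), (nat_lit 8499682), (nat_lit 8637139), (nat_lit 8775674)]) (FT.cons (FT.leaf [(nat_lit 8474119), (nat_lit 8609757), (nat_lit 8746809), (nat_lit 8884826)]) (FT.cons (FT.leaf [(nat_lit 8719216), (nat_lit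 8855813)]) (FT.cons (FT.leaf [(nat_lit 8964131)]) (FT.cons (FT.leaf [(nat_lit 9207980)]) FT.nil)))))) (FT.cons (FT.cons (FT.leaf [(nat_lit 8382145), (nat_lit 8514999), (nat_lit 8649888), (nat_lit 8786227), (nat_lit 8923559)]) (FT.cons (FT.leaf [(nat_lit 8624277), (nat_lit 8758853), (nat_lit 8894751), (nat_lit 9031537)]) (FT.cons (FT.leaf [(nat_lit 8867187), (nat_lit 9002598)]) (FT.cons (FT.leaf [(nat_lit 9109751)]) (FT.cons (FT.leaf [(nat_lit 9351140)]) FT.nil))))) (FT.cons (FT.cons (FT.leaf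
 [(nat_lit 8772700), (nat_lit 8906190), (nat_lit 9040918)]) (FT.cons (FT.leaf [(nat_lit 9013397), (nat_lit 9147610)]) (FT.cons (FT.leaf [(nat_lit 9253604)]) FT.nil))) (FT.cons (FT.cons (FT.leaf [(nat_lit 9157863)]) (FT.cons (FT.leaf [(nat_lit 9395715)]) FT.nil)) FT.nil)))) (FT.cons (FT.cons (FT.cons (FT.leaf [(nat_lit 8630459), (nat_lit 8760921), (nat_lit 8893322), (nat_lit 9027097), (nat_lit 9161809)]) (FT.cons (FT.leaf [(nat_lit 8867986), (nat_lit 9000056), (nat_lit 9133381), (nat_lit 9267544)]) (FT.cons (FT.leaf [(nat_lit 9106164), (nat_lit 9238998)]) (FT.cons (FT.leaf [(nat_lit 9343934)]) FT.nil)))) (FT.cons (FT.cons (FT.leaf [(nat_lit 9013153), (nat_lit 9144151), (nat_lit 9276326)]) (FT.cons (FT.leaf [(nat_lit 9249160), (nat_lit 9380821)]) (FT.cons (FT.leaf [(nat_lit 9484633)]) FT.nil))) (FT.cons (FT.cons (FT.leaf [(nat_lit 9390469)]) (FT.cons (FT.leaf [(nat_lit 9623647)]) FT.nil)) FT.nil))) (FT.cons (FT.cons (FT.cons (FT.leaf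 [(nat_lit 9247915)]) FT.nil) (FT.cons (FT.cons (FT.leaf [(nat_lit 9617657)]) FT.nil) FT.nil)) (FT.cons (FT.cons (FT.cons (FT.leaf [(nat_lit 9839662)]) FT.nil) FT.nil) (FT.cons (FT.cons (FT.cons (FT.leaf [(nat_lit 10405784)]) FT.nil) FT.nil) (FT.cons
 (FT.cons (FT.cons (FT.leaf [(nat_lit 10947109)]) FT.nil) FT.nil) FT.nil)))))) (FT.cons (FT.cons (FT.cons (FT.cons (FT.leaf [(nat_lit 9272807), (nat_lit 9395051), (nat_lit 9519161)]) (FT.cons (FT.leaf [(nat_lit 9495191), (nat_lit 9619046)]) (FT.cons (FT.leaf [(nat_lit 9718399)]) FT.nil))) (FT.cons (FT.cons (FT.leaf [(nat_lit 9630770)]) (FT.cons (FT.leaf [(nat_lit 9852117)]) FT.nil)) (FT.cons (FT.cons (FT.leaf [(nat_lit 9984376)]) FT.nil) FT.nil))) (FT.cons (FT.cons (FT.cons (FT.leaf [(nat_lit 9849667)]) FT.nil) (FT.cons (FT.cons (FT.leaf [(nat_lit 10196729)]) FT.nil) FT.nil)) (FT.cons (FT.cons (FT.cons (FT.leaf [(nat_lit 10404594)]) FT.nil) FT.nil) (FT.cons (FT.cons (FT.cons (FT.leaf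 [(nat_lit 10937407)]) FT.nil) FT.nil) FT.nil)))) (FT.cons (FT.cons (FT.cons (FT.cons (FT.leaf [(nat_lit 10409729)]) FT.nil) FT.nil) (FT.cons (FT.cons (FT.cons (FT.leaf [(nat_lit 10932774)]) FT.nil) FT.nil) FT.nil)) (FT.cons (FT.cons (FT.cons (FT.cons (FT.leaf [(nat_lit 11429083)]) FT.nil) FT.nil) FT.nil) (FT.cons (FT.cons (FT.cons (FT.cons (FT.leaf [(nat_lit 12352664)]) FT.nil) FT.nil) FT.nil) FT.nil)))))))

def f160_1_0 : FT := (FT.cons (FT.cons (FT.cons (FT.cons (FT.leaf [(nat_lit 2473502), (nat_lit 2606470), (nat_lit 2760011), (nat_lit 2929220), (nat_lit 3110570), (nat_lit 3301349), (nat_lit 3499397), (nat_lit 3702956), (nat_lit 3910584), (nat_lit 4121083), (nat_lit 4333460), (nat_lit 4546888), (nat_lit 4760680), (nat_lit 4974265), (nat_lit 5187171)]) (FT.cons (FT.leaf [(nat_lit 2758127), (nat_lit 2917901), (nat_lit 3091830), (nat_lit 3276627), (nat_lit 3469787), (nat_lit 3669324), (nat_lit 3873629), (nat_lit 4081383), (nat_lit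 4291497), (nat_lit 4503067), (nat_lit 4715345), (nat_lit 4927707), (nat_lit 5139638), (nat_lit 5350711)]) (FT.cons (FT.leaf [(nat_lit 3078391), (nat_lit 3256112), (nat_lit 3443604), (nat_lit 3638531), (nat_lit 3839057), (nat_lit 4043702), (nat_lit 4251255), (nat_lit 4460723), (nat_lit 4671280), (nat_lit 4882246), (nat_lit 5093053), (nat_lit 5303238)]) (FT.cons (FT.leaf [(nat_lit 3421505), (nat_lit 3611052), (nat_lit 3807225), (nat_lit 4008315), (nat_lit 4212955), (nat_lit 4420031), (nat_lit 4628631), (nat_lit 4838001), (nat_lit 5047519), (nat_lit 5256671)]) (FT.cons (FT.leaf [(nat_lit 3778603), (nat_lit 3975574), (nat_lit 4176865), (nat_lit 4381206), (nat_lit 4587569), (nat_lit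
 4795114), (nat_lit 5003151), (nat_lit 5211111), (nat_lit 5418523)]) (FT.cons (FT.leaf [(nat_lit 4143332), (nat_lit 4344512), (nat_lit 4548304), (nat_lit 4753754), (nat_lit 4960088), (nat_lit 5166669), (nat_lit 5372978)]) (FT.cons (FT.leaf [(nat_lit 4511098), (nat_lit 4714125), (nat_lit 4918493), (nat_lit 5123482), (nat_lit 5328509)]) (FT.cons (FT.leaf [(nat_lit 4878569), (nat_lit 5081709), (nat_lit 5285245), (nat_lit 5488633)]) (FT.cons (FT.leaf [(nat_lit 5243348), (nat_lit 5445335)]) (FT.cons (FT.leaf [(nat_lit 5603721)]) (FT.cons (FT.leaf [(nat_lit 5958505)]) (FT.cons (FT.leaf [(nat_lit 6306882)]) FT.nil)))))))))))) (FT.cons (FT.cons (FT.leaf [(nat_lit 2992024), (nat_lit 3154953), (nat_lit 3330937), (nat_lit 3516786), (nat_lit 3710121), (nat_lit 3909079), (nat_lit 4112174), (nat_lit 4318194), (nat_lit 4526144), (nat_lit 4735203), (nat_lit 4944694), (nat_lit 5154054), (nat_lit 5362821)]) (FT.cons (FT.leaf [(nat_lit 3316210),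 (nat_lit 3495211), (nat_lit 3683108), (nat_lit 3877677), (nat_lit 4077194), (nat_lit 4280283), (nat_lit 4485831), (nat_lit 4692923), (nat_lit 4900811), (nat_lit 5108875), (nat_lit 5316603), (nat_lit 5523572)]) (FT.cons (FT.leaf [(nat_lit 3660102), (nat_lit
 3849509), (nat_lit 4044877), (nat_lit 4244596), (nat_lit 4447393), (nat_lit 4652237), (nat_lit 4858291), (nat_lit 5064865), (nat_lit 5271392), (nat_lit 5477404)]) (FT.cons (FT.leaf [(nat_lit 4015689), (nat_lit 4211479), (nat_lit 4411097), (nat_lit 4613355), (nat_lit 4817303), (nat_lit 5022163), (nat_lit 5227304), (nat_lit 5432205), (nat_lit 5636438)]) (FT.cons (FT.leaf [(nat_lit 4377284), (nat_lit 4576538), (nat_lit 4778051), (nat_lit 4980935), (nat_lit 5184474), (nat_lit 5388084), (nat_lit 5591285)]) (FT.cons (FT.leaf [(nat_lit 4740795), (nat_lit 4941381), (nat_lit 5143062), (nat_lit 5345172), (nat_lit 5547169)]) (FT.cons (FT.leaf [(nat_lit 5103268), (nat_lit 5303626), (nat_lit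 5504217), (nat_lit 5704535)]) (FT.cons (FT.leaf [(nat_lit 5462582), (nat_lit 5661580)]) (FT.cons (FT.leaf [(nat_lit 5817241)]) (FT.cons (FT.leaf [(nat_lit 6166196)]) (FT.cons (FT.leaf [(nat_lit 6508740)]) FT.nil))))))))))) (FT.cons (FT.cons (FT.leaf [(nat_lit 3552680), (nat_lit 3732267), (nat_lit 3919995), (nat_lit 4113744), (nat_lit 4311886), (nat_lit 4513139), (nat_lit 4716471), (nat_lit 4921042), (nat_lit 5126163), (nat_lit 5331269), (nat_lit 5535895)]) (FT.cons (FT.leaf [(nat_lit 3896218), (nat_lit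
 4085010), (nat_lit 4279192), (nat_lit 4477244), (nat_lit 4677973), (nat_lit 4880424), (nat_lit 5083822), (nat_lit 5287533), (nat_lit 5491038), (nat_lit 5693911)]) (FT.cons (FT.leaf [(nat_lit 4249547), (nat_lit 4443845), (nat_lit 4641551), (nat_lit 4841552), (nat_lit 5042961), (nat_lit 5245059), (nat_lit 5447264), (nat_lit 5649096), (nat_lit 5850164)]) (FT.cons (FT.leaf [(nat_lit 4607542), (nat_lit 4804682), (nat_lit 5003780), (nat_lit 5204009), (nat_lit 5404703), (nat_lit 5605321), (nat_lit 5805422)]) (FT.cons (FT.leaf [(nat_lit 4966533), (nat_lit 5164578), (nat_lit 5363512), (nat_lit 5562713), (nat_lit 5761680)]) (FT.cons (FT.leaf [(nat_lit 5323885), (nat_lit 5521428), (nat_lit 5719064), (nat_lit 5916328)]) (FT.cons (FT.leaf [(nat_lit 5677722), (nat_lit 5873734)]) (FT.cons (FT.leaf [(nat_lit 6026713)]) (FT.cons (FT.leaf [(nat_lit 6369934)]) FT.nil))))))))) (FT.cons (FT.cons (FT.leaf [(nat_lit 4129481), (nat_lit 4317284), (nat_lit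 4509983), (nat_lit 4706140), (nat_lit 4904635), (nat_lit 5104576), (nat_lit 5305244), (nat_lit 5506055)]) (FT.cons (FT.leaf [(nat_lit 4479974), (nat_lit 4672540), (nat_lit 4868154), (nat_lit 5065769), (nat_lit 5264554), (nat_lit 5463843), (nat_lit
 5663094)]) (FT.cons (FT.leaf [(nat_lit 4834017), (nat_lit 5028902), (nat_lit 5225491), (nat_lit 5423007), (nat_lit 5620830)]) (FT.cons (FT.leaf [(nat_lit 5188304), (nat_lit 5383741), (nat_lit 5579893), (nat_lit 5776178)]) (FT.cons (FT.leaf [(nat_lit 5540471), (nat_lit 5735179)]) (FT.cons (FT.leaf [(nat_lit 5888841)]) (FT.cons (FT.leaf [(nat_lit 6232232)]) (FT.cons (FT.leaf [(nat_lit 6569826)]) FT.nil)))))))) (FT.cons (FT.cons (FT.leaf [(nat_lit 4706834), (nat_lit 4897483), (nat_lit 5090871), (nat_lit 5286009), (nat_lit 5482117), (nat_lit 5678572)]) (FT.cons (FT.leaf [(nat_lit 5056667), (nat_lit 5249196), (nat_lit 5443211), (nat_lit 5637982), (nat_lit 5832928)]) (FT.cons (FT.leaf [(nat_lit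 5406124), (nat_lit 5598913), (nat_lit 5792269), (nat_lit 5985647)]) (FT.cons (FT.leaf [(nat_lit 5753079), (nat_lit 5944955)]) (FT.cons (FT.leaf [(nat_lit 6096023)]) (FT.cons (FT.leaf [(nat_lit 6433899)]) FT.nil)))))) (FT.cons (FT.cons (FT.leaf [(nat_lit 5275479), (nat_lit 5465583), (nat_lit 5656986), (nat_lit 5848999), (nat_lit 6041078)]) (FT.cons (FT.leaf [(nat_lit 5620036), (nat_lit 5810155), (nat_lit 6000718), (nat_lit 6191211)]) (FT.cons (FT.leaf [(nat_lit 5961783), (nat_lit 6150841)])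
 (FT.cons (FT.leaf [(nat_lit 6299361)]) (FT.cons (FT.leaf [(nat_lit 6631819)]) FT.nil))))) (FT.cons (FT.cons (FT.leaf [(nat_lit 5830092), (nat_lit 6017539), (nat_lit 6205324)]) (FT.cons (FT.leaf [(nat_lit 6166663), (nat_lit 6352930)]) (FT.cons (FT.leaf [(nat_lit 6498949)]) FT.nil))) (FT.cons (FT.cons (FT.leaf [(nat_lit 6367804)]) (FT.cons (FT.leaf [(nat_lit 6694886)]) FT.nil)) (FT.cons (FT.cons (FT.leaf [(nat_lit 6887271)]) FT.nil) (FT.cons (FT.cons (FT.leaf [(nat_lit 7388094)]) FT.nil) FT.nil)))))))))) (FT.cons (FT.cons (FT.cons (FT.leaf [(nat_lit 3410899), (nat_lit 3572584), (nat_lit 3746321), (nat_lit 3929017), (nat_lit 4118412), (nat_lit 4312772), (nat_lit 4510727), (nat_lit 4711177), (nat_lit 4913223), (nat_lit 5116132), (nat_lit 5319298), (nat_lit 5522219), (nat_lit 5724485)]) (FT.cons (FT.leaf [(nat_lit 3730956), (nat_lit 3907077), (nat_lit 4091295), (nat_lit 4281504), (nat_lit 4476095), (nat_lit 4673800), (nat_lit 4873603),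 (nat_lit 5074680), (nat_lit 5276354), (nat_lit 5478071), (nat_lit 5679373), (nat_lit 5879884)]) (FT.cons (FT.leaf [(nat_lit 4068063), (nat_lit 4253357), (nat_lit 4444022), (nat_lit 4638553), (nat_lit 4835776), (nat_lit 5034749), (nat_lit 5234710),
 (nat_lit 5435038), (nat_lit 5635221), (nat_lit 5834841)]) (FT.cons (FT.leaf [(nat_lit 4414967), (nat_lit 4605776), (nat_lit 4800001), (nat_lit 4996543), (nat_lit 5194529), (nat_lit 5393253), (nat_lit 5592140), (nat_lit 5790720), (nat_lit 5988608)]) (FT.cons (FT.leaf [(nat_lit 4766615), (nat_lit 4960319), (nat_lit 5156011), (nat_lit 5352877), (nat_lit 5550260), (nat_lit 5747629), (nat_lit 5944550)]) (FT.cons (FT.leaf [(nat_lit 5119403), (nat_lit 5314104), (nat_lit 5509737), (nat_lit 5705695), (nat_lit 5901483)]) (FT.cons (FT.leaf [(nat_lit 5470761), (nat_lit 5665069), (nat_lit 5859530), (nat_lit 6053685)]) (FT.cons (FT.leaf [(nat_lit 5818839), (nat_lit 6011745)]) (FT.cons (FT.leaf [(nat_lit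 6162329)]) (FT.cons (FT.leaf [(nat_lit 6500320)]) FT.nil)))))))))) (FT.cons (FT.cons (FT.leaf [(nat_lit 3961204), (nat_lit 4137372), (nat_lit 4320998), (nat_lit 4510069), (nat_lit 4703063), (nat_lit 4898794), (nat_lit 5096315), (nat_lit 5294862), (nat_lit 5493809), (nat_lit 5692649), (nat_lit 5890960)]) (FT.cons (FT.leaf [(nat_lit 4297113), (nat_lit 4481462), (nat_lit 4670703), (nat_lit 4863412), (nat_lit 5058484), (nat_lit 5255040), (nat_lit 5452372), (nat_lit 5649905), (nat_lit 5847167),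
 (nat_lit 6043774)]) (FT.cons (FT.leaf [(nat_lit 4641282), (nat_lit 4830429), (nat_lit 5022643), (nat_lit 5216890), (nat_lit 5412351), (nat_lit 5608368), (nat_lit 5804408), (nat_lit 6000038), (nat_lit 6194901)]) (FT.cons (FT.leaf [(nat_lit 4989123), (nat_lit 5180659), (nat_lit 5373938), (nat_lit 5568192), (nat_lit 5762810), (nat_lit 5957296), (nat_lit 6151248)]) (FT.cons (FT.leaf [(nat_lit 5337379), (nat_lit 5529570), (nat_lit 5722525), (nat_lit 5915673), (nat_lit 6108555)]) (FT.cons (FT.leaf [(nat_lit 5683739), (nat_lit 5875317), (nat_lit 6066939), (nat_lit 6258174)]) (FT.cons (FT.leaf [(nat_lit 6026546), (nat_lit 6216594)]) (FT.cons (FT.leaf [(nat_lit 6364631)]) (FT.cons (FT.leaf [(nat_lit 6697187)]) FT.nil))))))))) (FT.cons (FT.cons (FT.leaf [(nat_lit 4523123), (nat_lit 4706249), (nat_lit 4893849), (nat_lit 5084573), (nat_lit 5277379), (nat_lit 5471443), (nat_lit 5666104), (nat_lit 5860828), (nat_lit 6055177), (nat_lit 6248797)])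 (FT.cons (FT.leaf [(nat_lit 4864138), (nat_lit 5051450), (nat_lit 5241527), (nat_lit 5433391), (nat_lit 5626276), (nat_lit 5819565), (nat_lit 6012761), (nat_lit 6205460), (nat_lit 6397335)]) (FT.cons (FT.leaf [(nat_lit 5207927), (nat_lit 5397203),
 (nat_lit 5588007), (nat_lit 5779619), (nat_lit 5971466), (nat_lit 6163085), (nat_lit 6354100)]) (FT.cons (FT.leaf [(nat_lit 5551538), (nat_lit 5741180), (nat_lit 5931444), (nat_lit 6121791), (nat_lit 6311791)]) (FT.cons (FT.leaf [(nat_lit 5892875), (nat_lit 6081725), (nat_lit 6270526), (nat_lit 6458876)]) (FT.cons (FT.leaf [(nat_lit 6230448), (nat_lit 6417666)]) (FT.cons (FT.leaf [(nat_lit 6563210)]) (FT.cons (FT.leaf [(nat_lit 6890439)]) FT.nil)))))))) (FT.cons (FT.cons (FT.leaf [(nat_lit 5083464), (nat_lit 5268807), (nat_lit 5456654), (nat_lit 5646079), (nat_lit 5836358), (nat_lit 6026912), (nat_lit 6217279), (nat_lit 6407080)]) (FT.cons (FT.leaf [(nat_lit 5423027), (nat_lit 5609973),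 (nat_lit 5798265), (nat_lit 5987222), (nat_lit 6176306), (nat_lit 6365082), (nat_lit 6553200)]) (FT.cons (FT.leaf [(nat_lit 5761919), (nat_lit 5948993), (nat_lit 6136566), (nat_lit 6324132), (nat_lit 6511285)]) (FT.cons (FT.leaf [(nat_lit 6098237), (nat_lit 6284372), (nat_lit 6470384), (nat_lit 6655890)]) (FT.cons (FT.leaf [(nat_lit 6430632), (nat_lit 6615059)]) (FT.cons (FT.leaf [(nat_lit 6758161)]) FT.nil)))))) (FT.cons (FT.cons (FT.leaf [(nat_lit 5634435), (nat_lit 5819008), (nat_lit 6004769),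
 (nat_lit 6191074), (nat_lit 6377415)]) (FT.cons (FT.leaf [(nat_lit 5968576), (nat_lit 6153077), (nat_lit 6337973), (nat_lit 6522786)]) (FT.cons (FT.leaf [(nat_lit 6299903), (nat_lit 6483347)]) (FT.cons (FT.leaf [(nat_lit 6627191)]) (FT.cons (FT.leaf [(nat_lit 6949586)]) FT.nil))))) (FT.cons (FT.cons (FT.leaf [(nat_lit 6171572), (nat_lit 6353507), (nat_lit 6535751)]) (FT.cons (FT.leaf [(nat_lit 6497953), (nat_lit 6678738)]) (FT.cons (FT.leaf [(nat_lit 6820215)]) FT.nil))) (FT.cons (FT.cons (FT.leaf [(nat_lit 6692475)]) (FT.cons (FT.leaf [(nat_lit 7009801)]) FT.nil)) (FT.cons (FT.cons (FT.leaf [(nat_lit 7196041)]) FT.nil) (FT.cons (FT.cons (FT.leaf [(nat_lit 7681967)]) FT.nil) FT.nil))))))))) (FT.cons (FT.cons (FT.cons (FT.leaf [(nat_lit 4355514), (nat_lit 4527974), (nat_lit 4707328), (nat_lit 4891661), (nat_lit 5079544), (nat_lit 5269869), (nat_lit 5461763), (nat_lit 5654523), (nat_lit 5847578), (nat_lit 6040464), (nat_lit 6232798)])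 (FT.cons (FT.leaf [(nat_lit 4683427), (nat_lit 4863256), (nat_lit 5047570), (nat_lit 5235033), (nat_lit 5424613), (nat_lit 5615496), (nat_lit 5807029), (nat_lit 5998685), (nat_lit 6190032), (nat_lit 6380717)]) (FT.cons (FT.leaf [(nat_lit 5018428),
 (nat_lit 5202505), (nat_lit 5389374), (nat_lit 5578071), (nat_lit 5767835), (nat_lit 5958060), (nat_lit 6148254), (nat_lit 6338018), (nat_lit 6527026)]) (FT.cons (FT.leaf [(nat_lit 5356364), (nat_lit 5542490), (nat_lit 5730186), (nat_lit 5918741), (nat_lit 6107589), (nat_lit 6296272), (nat_lit 6484418)]) (FT.cons (FT.leaf [(nat_lit 5694318), (nat_lit 5880914), (nat_lit 6068183), (nat_lit 6255598), (nat_lit 6442728)]) (FT.cons (FT.leaf [(nat_lit 6030219), (nat_lit 6216140), (nat_lit 6402074), (nat_lit 6587620)]) (FT.cons (FT.leaf [(nat_lit 6362594), (nat_lit 6547010)]) (FT.cons (FT.leaf [(nat_lit 6690406)]) (FT.cons (FT.leaf [(nat_lit 7012933)]) FT.nil))))))))) (FT.cons (FT.cons (FT.leaf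 [(nat_lit 4902325), (nat_lit 5080782), (nat_lit 5263370), (nat_lit 5448814), (nat_lit 5636139), (nat_lit 5824578), (nat_lit 6013519), (nat_lit 6202470), (nat_lit 6391027), (nat_lit 6578864)]) (FT.cons (FT.leaf [(nat_lit 5234000), (nat_lit 5416193), (nat_lit 5600924), (nat_lit 5787276), (nat_lit 5974534), (nat_lit 6162125), (nat_lit 6349591), (nat_lit 6536555), (nat_lit 6722719)]) (FT.cons (FT.leaf [(nat_lit 5567876), (nat_lit 5751765), (nat_lit 5937046), (nat_lit 6123045), (nat_lit 6309231),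
 (nat_lit 6495170), (nat_lit 6680519)]) (FT.cons (FT.leaf [(nat_lit 5901289), (nat_lit 6085413), (nat_lit 6270092), (nat_lit 6454823), (nat_lit 6639206)]) (FT.cons (FT.leaf [(nat_lit 6232352), (nat_lit 6415657), (nat_lit 6598898), (nat_lit 6781700)]) (FT.cons (FT.leaf [(nat_lit 6559731), (nat_lit 6741452)]) (FT.cons (FT.leaf [(nat_lit 6882486)]) (FT.cons (FT.leaf [(nat_lit 7199969)]) FT.nil)))))))) (FT.cons (FT.cons (FT.leaf [(nat_lit 5446122), (nat_lit 5626337), (nat_lit 5808867), (nat_lit 5992840), (nat_lit 6177578), (nat_lit 6362542), (nat_lit 6547302), (nat_lit 6731508)]) (FT.cons (FT.leaf [(nat_lit 5775822), (nat_lit 5957432), (nat_lit 6140278), (nat_lit 6323722), (nat_lit 6507262), (nat_lit 6690492), (nat_lit 6873086)]) (FT.cons (FT.leaf [(nat_lit 6104660), (nat_lit 6286307), (nat_lit 6468407), (nat_lit 6650484), (nat_lit 6832158)]) (FT.cons (FT.leaf [(nat_lit 6430910), (nat_lit 6611620), (nat_lit 6792204), (nat_lit 6972304)])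 (FT.cons (FT.leaf [(nat_lit 6753358), (nat_lit 6932424)]) (FT.cons (FT.leaf [(nat_lit 7071150)]) FT.nil)))))) (FT.cons (FT.cons (FT.leaf [(nat_lit 5980236), (nat_lit 6159540), (nat_lit 6339946), (nat_lit 6520849), (nat_lit 6701770)]) (FT.cons (FT.leaf
 [(nat_lit 6304492), (nat_lit 6483669), (nat_lit 6663211), (nat_lit 6842666)]) (FT.cons (FT.leaf [(nat_lit 6625972), (nat_lit 6804116)]) (FT.cons (FT.leaf [(nat_lit 6943564)]) (FT.cons (FT.leaf [(nat_lit 7256491)]) FT.nil))))) (FT.cons (FT.cons (FT.leaf [(nat_lit 6500852), (nat_lit 6677576), (nat_lit 6854587)]) (FT.cons (FT.leaf [(nat_lit 6817618), (nat_lit 6993231)]) (FT.cons (FT.leaf [(nat_lit 7130438)]) FT.nil))) (FT.cons (FT.cons (FT.leaf [(nat_lit 7005932)]) (FT.cons (FT.leaf [(nat_lit 7314070)]) FT.nil)) (FT.cons (FT.cons (FT.leaf [(nat_lit 7494548)]) FT.nil) (FT.cons (FT.cons (FT.leaf [(nat_lit 7966465)]) FT.nil) FT.nil)))))))) (FT.cons (FT.cons (FT.cons (FT.leaf [(nat_lit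 5267787), (nat_lit 5441658), (nat_lit 5619374), (nat_lit 5799727), (nat_lit 5981799), (nat_lit 6164873), (nat_lit 6348381), (nat_lit 6531862), (nat_lit 6714945), (nat_lit 6897329)]) (FT.cons (FT.leaf [(nat_lit 5590371), (nat_lit 5767620), (nat_lit 5947220), (nat_lit 6128308), (nat_lit 6310214), (nat_lit 6492404), (nat_lit 6674450), (nat_lit 6856004), (nat_lit 7036786)]) (FT.cons (FT.leaf [(nat_lit 5914729), (nat_lit 6093467), (nat_lit 6273489), (nat_lit 6454163), (nat_lit 6634989), (nat_lit 6815566),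
 (nat_lit 6995570)]) (FT.cons (FT.leaf [(nat_lit 6238430), (nat_lit 6417315), (nat_lit 6596704), (nat_lit 6776128), (nat_lit 6955211)]) (FT.cons (FT.leaf [(nat_lit 6559765), (nat_lit 6737825), (nat_lit 6915817), (nat_lit 7093385)]) (FT.cons (FT.leaf [(nat_lit 6877522), (nat_lit 7054056)]) (FT.cons (FT.leaf [(nat_lit 7190850)]) FT.nil))))))) (FT.cons (FT.cons (FT.leaf [(nat_lit 5795641), (nat_lit 5970930), (nat_lit 6148377), (nat_lit 6327160), (nat_lit 6506642), (nat_lit 6686316), (nat_lit 6865780), (nat_lit 7044707)]) (FT.cons (FT.leaf [(nat_lit 6115913), (nat_lit 6292437), (nat_lit 6470111), (nat_lit 6648335), (nat_lit 6826634), (nat_lit 7004629), (nat_lit 7182015)]) (FT.cons (FT.leaf [(nat_lit 6435202), (nat_lit 6611707), (nat_lit 6788629), (nat_lit 6965522), (nat_lit 7142028)]) (FT.cons (FT.leaf [(nat_lit 6751933), (nat_lit 6927518), (nat_lit 7102979), (nat_lit 7277982)]) (FT.cons (FT.leaf [(nat_lit 7064998), (nat_lit 7239009)])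 (FT.cons (FT.leaf [(nat_lit 7373618)]) FT.nil)))))) (FT.cons (FT.cons (FT.leaf [(nat_lit 6313728), (nat_lit 6488025), (nat_lit 6663356), (nat_lit 6839147), (nat_lit 7014949)]) (FT.cons (FT.leaf [(nat_lit 6628616), (nat_lit 6802755), (nat_lit 6977235),
 (nat_lit 7151632)]) (FT.cons (FT.leaf [(nat_lit 6940795), (nat_lit 7113934)]) (FT.cons (FT.leaf [(nat_lit 7249245)]) (FT.cons (FT.leaf [(nat_lit 7553253)]) FT.nil))))) (FT.cons (FT.cons (FT.leaf [(nat_lit 6818740), (nat_lit 6990534), (nat_lit 7162604)]) (FT.cons (FT.leaf [(nat_lit 7126429), (nat_lit 7297159)]) (FT.cons (FT.leaf [(nat_lit 7430348)]) FT.nil))) (FT.cons (FT.cons (FT.leaf [(nat_lit 7308916)]) (FT.cons (FT.leaf [(nat_lit 7608391)]) FT.nil)) (FT.cons (FT.cons (FT.leaf [(nat_lit 7783458)]) FT.nil) FT.nil)))))) (FT.cons (FT.cons (FT.cons (FT.leaf [(nat_lit 6132824), (nat_lit 6303398), (nat_lit 6476001), (nat_lit 6649852), (nat_lit 6824349), (nat_lit 6999017)]) (FT.cons (FT.leaf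 [(nat_lit 6444109), (nat_lit 6615796), (nat_lit 6788564), (nat_lit 6961843), (nat_lit 7135187)]) (FT.cons (FT.leaf [(nat_lit 6754341), (nat_lit 6925974), (nat_lit 7097998), (nat_lit 7269992)]) (FT.cons (FT.leaf [(nat_lit 7062072), (nat_lit 7232810)]) FT.nil)))) (FT.cons (FT.cons (FT.leaf [(nat_lit 6635703), (nat_lit 6805245), (nat_lit 6975766), (nat_lit 7146722), (nat_lit 7317686)]) (FT.cons (FT.leaf [(nat_lit 6941717), (nat_lit 7111087), (nat_lit 7280782), (nat_lit 7450400)]) (FT.cons (FT.leaf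
 [(nat_lit 7245107), (nat_lit 7413517)]) FT.nil))) (FT.cons (FT.cons (FT.leaf [(nat_lit 7125977), (nat_lit 7293107)]) (FT.cons (FT.leaf [(nat_lit 7425091)]) FT.nil)) (FT.cons (FT.cons (FT.leaf [(nat_lit 7602099)]) FT.nil) (FT.cons (FT.cons (FT.leaf [(nat_lit 8063376)]) FT.nil) FT.nil))))) (FT.cons (FT.cons (FT.cons (FT.leaf [(nat_lit 6946893), (nat_lit 7111921), (nat_lit 7277883)]) (FT.cons (FT.leaf [(nat_lit 7244501), (nat_lit 7409353)]) (FT.cons (FT.leaf [(nat_lit 7539581)]) FT.nil))) (FT.cons (FT.cons (FT.leaf [(nat_lit 7423240)]) (FT.cons (FT.leaf [(nat_lit 7714247)]) FT.nil)) (FT.cons (FT.cons (FT.leaf [(nat_lit 7886098)]) FT.nil) FT.nil))) (FT.cons (FT.cons (FT.cons (FT.leaf [(nat_lit 7711154)]) FT.nil) (FT.cons (FT.cons (FT.leaf [(nat_lit 8161476)]) FT.nil) FT.nil)) (FT.cons (FT.cons (FT.cons (FT.leaf [(nat_lit 8428745)]) FT.nil) FT.nil) (FT.cons (FT.cons (FT.cons (FT.leaf [(nat_lit 9103474)]) FT.nil) FT.nil) (FT.cons (FT.cons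 (FT.cons (FT.leaf [(nat_lit 9739172)]) FT.nil) FT.nil) FT.nil)))))))))) (FT.cons (FT.cons (FT.cons (FT.cons (FT.leaf [(nat_lit 4584313), (nat_lit 4728968), (nat_lit 4884197), (nat_lit 5047296), (nat_lit 5216319), (nat_lit 5389789), (nat_lit 5566548),
 (nat_lit 5745670), (nat_lit 5926404), (nat_lit 6108131), (nat_lit 6290341), (nat_lit 6472610), (nat_lit 6654585)]) (FT.cons (FT.leaf [(nat_lit 4869745), (nat_lit 5027024), (nat_lit 5191468), (nat_lit 5361262), (nat_lit 5535033), (nat_lit 5711708), (nat_lit 5890428), (nat_lit 6070496), (nat_lit 6251342), (nat_lit 6432493), (nat_lit 6613559), (nat_lit 6794214)]) (FT.cons (FT.leaf [(nat_lit 5170073), (nat_lit 5335513), (nat_lit 5505798), (nat_lit 5679645), (nat_lit 5856053), (nat_lit 6034223), (nat_lit 6213509), (nat_lit 6393382), (nat_lit 6573402), (nat_lit 6753210)]) (FT.cons (FT.leaf [(nat_lit 5479249), (nat_lit 5649783), (nat_lit 5823511), (nat_lit 5999495), (nat_lit 6176990), (nat_lit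 6355394), (nat_lit 6534213), (nat_lit 6713042), (nat_lit 6891545)]) (FT.cons (FT.leaf [(nat_lit 5793099), (nat_lit 5966538), (nat_lit 6141961), (nat_lit 6318673), (nat_lit 6496107), (nat_lit 6673806), (nat_lit 6851393)]) (FT.cons (FT.leaf [(nat_lit 6108646), (nat_lit 6283392), (nat_lit 6459226), (nat_lit 6635618), (nat_lit 6812141)]) (FT.cons (FT.leaf [(nat_lit 6423736), (nat_lit 6598611), (nat_lit 6773899), (nat_lit 6949197)]) (FT.cons (FT.leaf [(nat_lit 6736800), (nat_lit 6910930)]) (FT.cons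
 (FT.leaf [(nat_lit 7046696)]) (FT.cons (FT.leaf [(nat_lit 7352602)]) FT.nil)))))))))) (FT.cons (FT.cons (FT.leaf [(nat_lit 5073220), (nat_lit 5230612), (nat_lit 5394668), (nat_lit 5563649), (nat_lit 5736250), (nat_lit 5911456), (nat_lit 6088462), (nat_lit 6266617), (nat_lit 6445387), (nat_lit 6624335), (nat_lit 6803097)]) (FT.cons (FT.leaf [(nat_lit 5372709), (nat_lit 5537493), (nat_lit 5706747), (nat_lit 5879249), (nat_lit 6054050), (nat_lit 6230399), (nat_lit 6407690), (nat_lit 6585426), (nat_lit 6763202), (nat_lit 6940678)]) (FT.cons (FT.leaf [(nat_lit 5679867), (nat_lit 5849186), (nat_lit 6021420), (nat_lit 6195680), (nat_lit 6371265), (nat_lit 6547606), (nat_lit 6724242), (nat_lit 6900793), (nat_lit 7076947)]) (FT.cons (FT.leaf [(nat_lit 5990863), (nat_lit 6162684), (nat_lit 6336288), (nat_lit 6511015), (nat_lit 6686333), (nat_lit 6861812), (nat_lit 7037098)]) (FT.cons (FT.leaf [(nat_lit 6302977), (nat_lit 6475822), (nat_lit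 6649611), (nat_lit 6823846), (nat_lit 6998120)]) (FT.cons (FT.leaf [(nat_lit 6614243), (nat_lit 6787027), (nat_lit 6960123), (nat_lit 7133154)]) (FT.cons (FT.leaf [(nat_lit 6923236), (nat_lit 7095151)]) (FT.cons (FT.leaf [(nat_lit 7228920)]) (FT.cons
 (FT.leaf [(nat_lit 7530549)]) FT.nil))))))))) (FT.cons (FT.cons (FT.leaf [(nat_lit 5572998), (nat_lit 5736916), (nat_lit 5904974), (nat_lit 6076004), (nat_lit 6249105), (nat_lit 6423568), (nat_lit 6598821), (nat_lit 6774401), (nat_lit 6949926), (nat_lit 7125082)]) (FT.cons (FT.leaf [(nat_lit 5877824), (nat_lit 6045791), (nat_lit 6216430), (nat_lit 6388895), (nat_lit 6562520), (nat_lit 6736771), (nat_lit 6911214), (nat_lit 7085493), (nat_lit 7259315)]) (FT.cons (FT.leaf [(nat_lit 6185776), (nat_lit 6355898), (nat_lit 6527627), (nat_lit 6700335), (nat_lit 6873522), (nat_lit 7046781), (nat_lit 7219778)]) (FT.cons (FT.leaf [(nat_lit 6494354), (nat_lit 6665259), (nat_lit 6836982), (nat_lit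 7009052), (nat_lit 7181088)]) (FT.cons (FT.leaf [(nat_lit 6801759), (nat_lit 6972440), (nat_lit 7143349), (nat_lit 7314128)]) (FT.cons (FT.leaf [(nat_lit 7106689), (nat_lit 7276400)]) (FT.cons (FT.leaf [(nat_lit 7408201)]) (FT.cons (FT.leaf [(nat_lit 7705617)]) FT.nil)))))))) (FT.cons (FT.cons (FT.leaf [(nat_lit 6073062), (nat_lit 6239571), (nat_lit 6408536), (nat_lit 6579152), (nat_lit 6750786), (nat_lit 6922932), (nat_lit 7095182), (nat_lit 7267200)]) (FT.cons (FT.leaf [(nat_lit 6377824), (nat_lit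
 6546187), (nat_lit 6716001), (nat_lit 6886672), (nat_lit 7057722), (nat_lit 7228768), (nat_lit 7399497)]) (FT.cons (FT.leaf [(nat_lit 6682796), (nat_lit 6851734), (nat_lit 7021383), (nat_lit 7191292), (nat_lit 7361103)]) (FT.cons (FT.leaf [(nat_lit 6986324), (nat_lit 7154901), (nat_lit 7323633), (nat_lit 7492181)]) (FT.cons (FT.leaf [(nat_lit 7287214), (nat_lit 7454738)]) (FT.cons (FT.leaf [(nat_lit 7584603)]) FT.nil)))))) (FT.cons (FT.cons (FT.leaf [(nat_lit 6567012), (nat_lit 6733572), (nat_lit 6901447), (nat_lit 7070068), (nat_lit 7238985)]) (FT.cons (FT.leaf [(nat_lit 6868333), (nat_lit 7035290), (nat_lit 7202862), (nat_lit 7370622)]) (FT.cons (FT.leaf [(nat_lit 7167985), (nat_lit 7334464)]) (FT.cons (FT.leaf [(nat_lit 7464868)]) (FT.cons (FT.leaf [(nat_lit 7758192)]) FT.nil))))) (FT.cons (FT.cons (FT.leaf [(nat_lit 7051001), (nat_lit 7215971), (nat_lit 7381473)]) (FT.cons (FT.leaf [(nat_lit 7346792), (nat_lit 7511187)]) (FT.cons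 (FT.leaf [(nat_lit 7639712)]) FT.nil))) (FT.cons (FT.cons (FT.leaf [(nat_lit 7522801)]) (FT.cons (FT.leaf [(nat_lit 7811807)]) FT.nil)) (FT.cons (FT.cons (FT.leaf [(nat_lit 7981216)]) FT.nil) (FT.cons (FT.cons (FT.leaf [(nat_lit 8425724)]) FT.nil)
 FT.nil))))))))) (FT.cons (FT.cons (FT.cons (FT.leaf [(nat_lit 5419539), (nat_lit 5574101), (nat_lit 5734896), (nat_lit 5900255), (nat_lit 6068941), (nat_lit 6239997), (nat_lit 6412671), (nat_lit 6586356), (nat_lit 6760557), (nat_lit 6934870), (nat_lit 7108960)]) (FT.cons (FT.leaf [(nat_lit 5712900), (nat_lit 5874232), (nat_lit 6039718), (nat_lit 6208196), (nat_lit 6378772), (nat_lit 6550743), (nat_lit 6723541), (nat_lit 6896707), (nat_lit 7069862), (nat_lit 7242695)]) (FT.cons (FT.leaf [(nat_lit 6013034), (nat_lit 6178466), (nat_lit 6346593), (nat_lit 6516575), (nat_lit 6687751), (nat_lit 6859591), (nat_lit 7031666), (nat_lit 7203621), (nat_lit 7375167)]) (FT.cons (FT.leaf [(nat_lit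 6316419), (nat_lit 6484069), (nat_lit 6653357), (nat_lit 6823660), (nat_lit 6994481), (nat_lit 7165417), (nat_lit 7336137)]) (FT.cons (FT.leaf [(nat_lit 6620570), (nat_lit 6789078), (nat_lit 6958440), (nat_lit 7128189), (nat_lit 7297947)]) (FT.cons (FT.leaf [(nat_lit 6923705), (nat_lit 7092068), (nat_lit 7260701), (nat_lit 7429249)]) (FT.cons (FT.leaf [(nat_lit 7224527), (nat_lit 7392008)]) (FT.cons (FT.leaf [(nat_lit 7522102)]) (FT.cons (FT.leaf [(nat_lit 7815754)]) FT.nil))))))))) (FT.cons (FT.cons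
 (FT.leaf [(nat_lit 5907718), (nat_lit 6068071), (nat_lit 6232287), (nat_lit 6399256), (nat_lit 6568126), (nat_lit 6738231), (nat_lit 6909034), (nat_lit 7080102), (nat_lit 7251082), (nat_lit 7421680)]) (FT.cons (FT.leaf [(nat_lit 6205380), (nat_lit 6369415), (nat_lit 6535932), (nat_lit 6704130), (nat_lit 6873382), (nat_lit 7043186), (nat_lit 7213136), (nat_lit 7382901), (nat_lit 7552207)]) (FT.cons (FT.leaf [(nat_lit 6505692), (nat_lit 6671648), (nat_lit 6839088), (nat_lit 7007420), (nat_lit 7176173), (nat_lit 7344965), (nat_lit 7513486)]) (FT.cons (FT.leaf [(nat_lit 6806359), (nat_lit 6972966), (nat_lit 7140321), (nat_lit 7307978), (nat_lit 7475580)]) (FT.cons (FT.leaf [(nat_lit 7105740), (nat_lit 7272068), (nat_lit 7438592), (nat_lit 7604977)]) (FT.cons (FT.leaf [(nat_lit 7402647), (nat_lit 7568008)]) (FT.cons (FT.leaf [(nat_lit 7696222)]) (FT.cons (FT.leaf [(nat_lit 7985848)]) FT.nil)))))))) (FT.cons (FT.cons (FT.leaf [(nat_lit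 6395056), (nat_lit 6557612), (nat_lit 6722460), (nat_lit 6888837), (nat_lit 7056145), (nat_lit 7223907), (nat_lit 7391741), (nat_lit 7559331)]) (FT.cons (FT.leaf [(nat_lit 6692189), (nat_lit 6856407), (nat_lit 7021974), (nat_lit 7188325), (nat_lit
 7355012), (nat_lit 7521674), (nat_lit 7688017)]) (FT.cons (FT.leaf [(nat_lit 6989328), (nat_lit 7154020), (nat_lit 7319365), (nat_lit 7484939), (nat_lit 7650403)]) (FT.cons (FT.leaf [(nat_lit 7284955), (nat_lit 7449252), (nat_lit 7613683), (nat_lit 7777927)]) (FT.cons (FT.leaf [(nat_lit 7577977), (nat_lit 7741239)]) (FT.cons (FT.leaf [(nat_lit 7867605)]) FT.nil)))))) (FT.cons (FT.cons (FT.leaf [(nat_lit 6875925), (nat_lit 7038374), (nat_lit 7202053), (nat_lit 7366421), (nat_lit 7531052)]) (FT.cons (FT.leaf [(nat_lit 7169510), (nat_lit 7332282), (nat_lit 7495622), (nat_lit 7659129)]) (FT.cons (FT.leaf [(nat_lit 7461398), (nat_lit 7623676)]) (FT.cons (FT.leaf [(nat_lit 7750575)]) (FT.cons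 (FT.leaf [(nat_lit 8036315)]) FT.nil))))) (FT.cons (FT.cons (FT.leaf [(nat_lit 7346949), (nat_lit 7507800), (nat_lit 7669147)]) (FT.cons (FT.leaf [(nat_lit 7635120), (nat_lit 7795395)]) (FT.cons (FT.leaf [(nat_lit 7920500)]) FT.nil))) (FT.cons (FT.cons (FT.leaf [(nat_lit 7806177)]) (FT.cons (FT.leaf [(nat_lit 8087810)]) FT.nil)) (FT.cons (FT.cons (FT.leaf [(nat_lit 8252568)]) FT.nil) (FT.cons (FT.cons (FT.leaf [(nat_lit 8685675)]) FT.nil) FT.nil)))))))) (FT.cons (FT.cons (FT.cons (FT.leaf [(nat_lit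
 6231905), (nat_lit 6388732), (nat_lit 6549188), (nat_lit 6712210), (nat_lit 6876993), (nat_lit 7042904), (nat_lit 7209441), (nat_lit 7376197), (nat_lit 7542842), (nat_lit 7709101)]) (FT.cons (FT.leaf [(nat_lit 6522549), (nat_lit 6682756), (nat_lit 6845283), (nat_lit 7009372), (nat_lit 7174427), (nat_lit 7339976), (nat_lit 7505638), (nat_lit 7671102), (nat_lit 7836111)]) (FT.cons (FT.leaf [(nat_lit 6815465), (nat_lit 6977403), (nat_lit 7140724), (nat_lit 7304865), (nat_lit 7469382), (nat_lit 7633917), (nat_lit 7798176)]) (FT.cons (FT.leaf [(nat_lit 7108534), (nat_lit 7271022), (nat_lit 7434200), (nat_lit 7597648), (nat_lit 7761027)]) (FT.cons (FT.leaf [(nat_lit 7400247), (nat_lit 7562419), (nat_lit 7724766), (nat_lit 7886967)]) (FT.cons (FT.leaf [(nat_lit 7689512), (nat_lit 7850730)]) (FT.cons (FT.leaf [(nat_lit 7975542)]) FT.nil))))))) (FT.cons (FT.cons (FT.leaf [(nat_lit 6706893), (nat_lit 6865618), (nat_lit 7026498), (nat_lit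 7188804), (nat_lit 7351969), (nat_lit 7515544), (nat_lit 7679166), (nat_lit 7842542)]) (FT.cons (FT.leaf [(nat_lit 6996669), (nat_lit 7156902), (nat_lit 7318397), (nat_lit 7480620), (nat_lit 7643145), (nat_lit 7805632), (nat_lit 7967802)]) (FT.cons (FT.leaf
 [(nat_lit 7286302), (nat_lit 7446932), (nat_lit 7608170), (nat_lit 7769613), (nat_lit 7930941)]) (FT.cons (FT.leaf [(nat_lit 7574391), (nat_lit 7734607), (nat_lit 7894942), (nat_lit 8055092)]) (FT.cons (FT.leaf [(nat_lit 7859925), (nat_lit 8019130)]) (FT.cons (FT.leaf [(nat_lit 8142178)]) FT.nil)))))) (FT.cons (FT.cons (FT.leaf [(nat_lit 7175217), (nat_lit 7333724), (nat_lit 7493388), (nat_lit 7653695), (nat_lit 7814241)]) (FT.cons (FT.leaf [(nat_lit 7461404), (nat_lit 7620176), (nat_lit 7779482), (nat_lit 7938939)]) (FT.cons (FT.leaf [(nat_lit 7745891), (nat_lit 7904164)]) (FT.cons (FT.leaf [(nat_lit 8027738)]) (FT.cons (FT.leaf [(nat_lit 8306274)]) FT.nil))))) (FT.cons (FT.cons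 (FT.leaf [(nat_lit 7633883), (nat_lit 7790802), (nat_lit 7948192)]) (FT.cons (FT.leaf [(nat_lit 7914797), (nat_lit 8071147)]) (FT.cons (FT.leaf [(nat_lit 8193007)]) FT.nil))) (FT.cons (FT.cons (FT.leaf [(nat_lit 8081164)]) (FT.cons (FT.leaf [(nat_lit 8355789)]) FT.nil)) (FT.cons (FT.cons (FT.leaf [(nat_lit 8516142)]) FT.nil) FT.nil)))))) (FT.cons (FT.cons (FT.cons (FT.leaf [(nat_lit 7009107), (nat_lit 7164133), (nat_lit 7321195), (nat_lit 7479597), (nat_lit 7638800), (nat_lit 7798376)]) (FT.cons (FT.leaf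
 [(nat_lit 7291808), (nat_lit 7448217), (nat_lit 7605815), (nat_lit 7764093), (nat_lit 7922648)]) (FT.cons (FT.leaf [(nat_lit 7574259), (nat_lit 7731006), (nat_lit 7888323), (nat_lit 8045828)]) (FT.cons (FT.leaf [(nat_lit 7855156), (nat_lit 8011481)]) FT.nil)))) (FT.cons (FT.cons (FT.leaf [(nat_lit 7465421), (nat_lit 7620151), (nat_lit 7775977), (nat_lit 7932408), (nat_lit 8089060)]) (FT.cons (FT.leaf [(nat_lit 7744539), (nat_lit 7899491), (nat_lit 8054950), (nat_lit 8210549)]) (FT.cons (FT.leaf [(nat_lit 8021971), (nat_lit 8176429)]) FT.nil))) (FT.cons (FT.cons (FT.leaf [(nat_lit 7912313), (nat_lit 8065480)]) (FT.cons (FT.leaf [(nat_lit 8186313)]) FT.nil)) (FT.cons (FT.cons (FT.leaf [(nat_lit 8348235)]) FT.nil) (FT.cons (FT.cons (FT.leaf [(nat_lit 8772370)]) FT.nil) FT.nil))))) (FT.cons (FT.cons (FT.cons (FT.leaf [(nat_lit 7747043), (nat_lit 7898152), (nat_lit 8050309)]) (FT.cons (FT.leaf [(nat_lit 8019403), (nat_lit 8170708)])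 (FT.cons (FT.leaf [(nat_lit 8290109)]) FT.nil))) (FT.cons (FT.cons (FT.leaf [(nat_lit 8182712)]) (FT.cons (FT.leaf [(nat_lit 8450122)]) FT.nil)) (FT.cons (FT.cons (FT.leaf [(nat_lit 8607828)]) FT.nil) FT.nil))) (FT.cons (FT.cons (FT.cons (FT.leaf [(nat_lit
 8445517)]) FT.nil) (FT.cons (FT.cons (FT.leaf [(nat_lit 8860347)]) FT.nil) FT.nil)) (FT.cons (FT.cons (FT.cons (FT.leaf [(nat_lit 9106167)]) FT.nil) FT.nil) (FT.cons (FT.cons (FT.cons (FT.leaf [(nat_lit 9731377)]) FT.nil) FT.nil) (FT.cons (FT.cons (FT.cons (FT.leaf [(nat_lit 10323777)]) FT.nil) FT.nil) FT.nil))))))))) (FT.cons (FT.cons (FT.cons (FT.cons (FT.leaf [(nat_lit 6349695), (nat_lit 6490527), (nat_lit 6637052), (nat_lit 6787781), (nat_lit 6941619), (nat_lit 7097722), (nat_lit 7255425), (nat_lit 7414194), (nat_lit 7573594), (nat_lit 7733265), (nat_lit 7892911)]) (FT.cons (FT.leaf [(nat_lit 6616543), (nat_lit 6763618), (nat_lit 6914547), (nat_lit 7068299), (nat_lit 7224083),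 (nat_lit 7381275), (nat_lit 7539375), (nat_lit 7697976), (nat_lit 7856741), (nat_lit 8015392)]) (FT.cons (FT.leaf [(nat_lit 6889786), (nat_lit 7040764), (nat_lit 7194309), (nat_lit 7349675), (nat_lit 7506278), (nat_lit 7663647), (nat_lit 7821399), (nat_lit 7979218), (nat_lit 8136846)]) (FT.cons (FT.leaf [(nat_lit 7166362), (nat_lit 7319593), (nat_lit 7474457), (nat_lit 7630402), (nat_lit 7786985), (nat_lit 7943845), (nat_lit 8100687)]) (FT.cons (FT.leaf [(nat_lit 7444107), (nat_lit 7598394), (nat_lit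
 7753621), (nat_lit 7909371), (nat_lit 8065304)]) (FT.cons (FT.leaf [(nat_lit 7721456), (nat_lit 7875915), (nat_lit 8030791), (nat_lit 8185765)]) (FT.cons (FT.leaf [(nat_lit 7997264), (nat_lit 8151233)]) (FT.cons (FT.leaf [(nat_lit 8270687)]) (FT.cons (FT.leaf [(nat_lit 8541103)]) FT.nil))))))))) (FT.cons (FT.cons (FT.leaf [(nat_lit 6792874), (nat_lit 6939214), (nat_lit 7089165), (nat_lit 7241737), (nat_lit 7396172), (nat_lit 7551879), (nat_lit 7708382), (nat_lit 7865295), (nat_lit 8022300), (nat_lit 8179137)]) (FT.cons (FT.leaf [(nat_lit 7064192), (nat_lit 7214084), (nat_lit 7366363), (nat_lit 7520314), (nat_lit 7675380), (nat_lit 7831114), (nat_lit 7987151), (nat_lit 8143194), (nat_lit 8298997)]) (FT.cons (FT.leaf [(nat_lit 7338338), (nat_lit 7490230), (nat_lit 7643622), (nat_lit 7797988), (nat_lit 7952904), (nat_lit 8108029), (nat_lit 8263082)]) (FT.cons (FT.leaf [(nat_lit 7613299), (nat_lit 7766068), (nat_lit 7919681), (nat_lit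 8073740), (nat_lit 8227921)]) (FT.cons (FT.leaf [(nat_lit 7887626), (nat_lit 8040442), (nat_lit 8193608), (nat_lit 8346819)]) (FT.cons (FT.leaf [(nat_lit 8160256), (nat_lit 8312500)]) (FT.cons (FT.leaf [(nat_lit 8430410)]) (FT.cons (FT.leaf [(nat_lit
 8697515)]) FT.nil)))))))) (FT.cons (FT.cons (FT.leaf [(nat_lit 7236447), (nat_lit 7385182), (nat_lit 7536143), (nat_lit 7688643), (nat_lit 7842150), (nat_lit 7996237), (nat_lit 8150559), (nat_lit 8304833)]) (FT.cons (FT.leaf [(nat_lit 7508068), (nat_lit 7658580), (nat_lit 7810475), (nat_lit 7963247), (nat_lit 8116493), (nat_lit 8269886), (nat_lit 8423161)]) (FT.cons (FT.leaf [(nat_lit 7780200), (nat_lit 7931432), (nat_lit 8083423), (nat_lit 8235791), (nat_lit 8388230)]) (FT.cons (FT.leaf [(nat_lit 8051493), (nat_lit 8202663), (nat_lit 8354126), (nat_lit 8505586)]) (FT.cons (FT.leaf [(nat_lit 8320960), (nat_lit 8471489)]) (FT.cons (FT.leaf [(nat_lit 8587877)]) FT.nil)))))) (FT.cons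 (FT.cons (FT.leaf [(nat_lit 7675560), (nat_lit 7824662), (nat_lit 7975040), (nat_lit 8126210), (nat_lit 8277786)]) (FT.cons (FT.leaf [(nat_lit 7944832), (nat_lit 8094515), (nat_lit 8244881), (nat_lit 8395566)]) (FT.cons (FT.leaf [(nat_lit 8213089), (nat_lit 8362619)]) (FT.cons (FT.leaf [(nat_lit 8479413)]) (FT.cons (FT.leaf [(nat_lit 8743131)]) FT.nil))))) (FT.cons (FT.cons (FT.leaf [(nat_lit 8107221), (nat_lit 8255349), (nat_lit 8404094)]) (FT.cons (FT.leaf [(nat_lit 8372451), (nat_lit 8520345)])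
 (FT.cons (FT.leaf [(nat_lit 8635658)]) FT.nil))) (FT.cons (FT.cons (FT.leaf [(nat_lit 8529615)]) (FT.cons (FT.leaf [(nat_lit 8789737)]) FT.nil)) (FT.cons (FT.cons (FT.leaf [(nat_lit 8941693)]) FT.nil) FT.nil))))))) (FT.cons (FT.cons (FT.cons (FT.leaf [(nat_lit 7085344), (nat_lit 7228861), (nat_lit 7375791), (nat_lit 7525183), (nat_lit 7676314), (nat_lit 7828623), (nat_lit 7981657), (nat_lit 8135053), (nat_lit 8288512), (nat_lit 8441788)]) (FT.cons (FT.leaf [(nat_lit 7351023), (nat_lit 7497833), (nat_lit 7646891), (nat_lit 7797514), (nat_lit 7949171), (nat_lit 8101436), (nat_lit 8253968), (nat_lit 8406484), (nat_lit 8558752)]) (FT.cons (FT.leaf [(nat_lit 7619199), (nat_lit 7767840), (nat_lit 7917889), (nat_lit 8068842), (nat_lit 8220298), (nat_lit 8371933), (nat_lit 8523483)]) (FT.cons (FT.leaf [(nat_lit 7887998), (nat_lit 8037415), (nat_lit 8187619), (nat_lit 8338231), (nat_lit 8488943)]) (FT.cons (FT.leaf [(nat_lit 8156073),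 (nat_lit 8305488), (nat_lit 8455225), (nat_lit 8604991)]) (FT.cons (FT.leaf [(nat_lit 8422439), (nat_lit 8571274)]) (FT.cons (FT.leaf [(nat_lit 8686375)]) FT.nil))))))) (FT.cons (FT.cons (FT.leaf [(nat_lit 7518970), (nat_lit 7664613), (nat_lit 7812359),
 (nat_lit 7961552), (nat_lit 8111683), (nat_lit 8262345), (nat_lit 8413213), (nat_lit 8564018)]) (FT.cons (FT.leaf [(nat_lit 7784637), (nat_lit 7931914), (nat_lit 8080493), (nat_lit 8229892), (nat_lit 8379725), (nat_lit 8529684), (nat_lit 8679516)]) (FT.cons (FT.leaf [(nat_lit 8050662), (nat_lit 8198577), (nat_lit 8347203), (nat_lit 8496177), (nat_lit 8645206)]) (FT.cons (FT.leaf [(nat_lit 8315787), (nat_lit 8463607), (nat_lit 8611695), (nat_lit 8759773)]) (FT.cons (FT.leaf [(nat_lit 8579094), (nat_lit 8726274)]) (FT.cons (FT.leaf [(nat_lit 8839913)]) FT.nil)))))) (FT.cons (FT.cons (FT.leaf [(nat_lit 7947907), (nat_lit 8093798), (nat_lit 8240895), (nat_lit 8388735), (nat_lit 8536951)])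 (FT.cons (FT.leaf [(nat_lit 8211140), (nat_lit 8357546), (nat_lit 8504596), (nat_lit 8651941)]) (FT.cons (FT.leaf [(nat_lit 8473321), (nat_lit 8619551)]) (FT.cons (FT.leaf [(nat_lit 8733595)]) (FT.cons (FT.leaf [(nat_lit 8991333)]) FT.nil))))) (FT.cons (FT.cons (FT.leaf [(nat_lit 8369460), (nat_lit 8514357), (nat_lit 8659836)]) (FT.cons (FT.leaf [(nat_lit 8628712), (nat_lit 8773361)]) (FT.cons (FT.leaf [(nat_lit 8885981)]) FT.nil))) (FT.cons (FT.cons (FT.leaf [(nat_lit 8781996)]) (FT.cons (FT.leaf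
 [(nat_lit 9036293)]) FT.nil)) (FT.cons (FT.cons (FT.leaf [(nat_lit 9184574)]) FT.nil) FT.nil)))))) (FT.cons (FT.cons (FT.cons (FT.leaf [(nat_lit 7793717), (nat_lit 7936354), (nat_lit 8080988), (nat_lit 8226988), (nat_lit 8373867), (nat_lit 8521239)]) (FT.cons (FT.leaf [(nat_lit 8053619), (nat_lit 8197771), (nat_lit 8343156), (nat_lit 8489310), (nat_lit 8635868)]) (FT.cons (FT.leaf [(nat_lit 8313763), (nat_lit 8458486), (nat_lit 8603881), (nat_lit 8749599)]) (FT.cons (FT.leaf [(nat_lit 8572967), (nat_lit 8717571)]) FT.nil)))) (FT.cons (FT.cons (FT.leaf [(nat_lit 8212849), (nat_lit 8355643), (nat_lit 8499583), (nat_lit 8644224), (nat_lit 8789216)]) (FT.cons (FT.leaf [(nat_lit 8470273), (nat_lit 8613530), (nat_lit 8757397), (nat_lit 8901540)]) (FT.cons (FT.leaf [(nat_lit 8726626), (nat_lit 8869692)]) FT.nil))) (FT.cons (FT.cons (FT.leaf [(nat_lit 8624709), (nat_lit 8766501)]) (FT.cons (FT.leaf [(nat_lit 8878230)]) FT.nil)) (FT.cons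 (FT.cons (FT.leaf [(nat_lit 9027813)]) FT.nil) (FT.cons (FT.cons (FT.leaf [(nat_lit 9421311)]) FT.nil) FT.nil))))) (FT.cons (FT.cons (FT.cons (FT.leaf [(nat_lit 8470747), (nat_lit 8610556), (nat_lit 8751459)]) (FT.cons (FT.leaf [(nat_lit 8722586), (nat_lit
 8862817)]) (FT.cons (FT.leaf [(nat_lit 8973349)]) FT.nil))) (FT.cons (FT.cons (FT.leaf [(nat_lit 8873313)]) (FT.cons (FT.leaf [(nat_lit 9121338)]) FT.nil)) (FT.cons (FT.cons (FT.leaf [(nat_lit 9267391)]) FT.nil) FT.nil))) (FT.cons (FT.cons (FT.cons (FT.leaf [(nat_lit 9115595)]) FT.nil) (FT.cons (FT.cons (FT.leaf [(nat_lit 9501031)]) FT.nil) FT.nil)) (FT.cons (FT.cons (FT.cons (FT.leaf [(nat_lit 9729017)]) FT.nil) FT.nil) (FT.cons (FT.cons (FT.cons (FT.leaf [(nat_lit 10312538)]) FT.nil) FT.nil) (FT.cons (FT.cons (FT.cons (FT.leaf [(nat_lit 10868001)]) FT.nil) FT.nil) FT.nil)))))))) (FT.cons (FT.cons (FT.cons (FT.cons (FT.leaf [(nat_lit 7853139), (nat_lit 7985885), (nat_lit 8121849),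 (nat_lit 8260160), (nat_lit 8400165), (nat_lit 8541354), (nat_lit 8683319), (nat_lit 8825729)]) (FT.cons (FT.leaf [(nat_lit 8098613), (nat_lit 8234537), (nat_lit 8372619), (nat_lit 8512241), (nat_lit 8652919), (nat_lit 8794268), (nat_lit 8935977)]) (FT.cons (FT.leaf [(nat_lit 8346676), (nat_lit 8484456), (nat_lit 8623636), (nat_lit 8763756), (nat_lit 8904453)]) (FT.cons (FT.leaf [(nat_lit 8595643), (nat_lit 8734328), (nat_lit 8873850), (nat_lit 9013862)]) (FT.cons (FT.leaf [(nat_lit 8844299), (nat_lit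
 8983187)]) (FT.cons (FT.leaf [(nat_lit 9091755)]) FT.nil)))))) (FT.cons (FT.cons (FT.leaf [(nat_lit 8253280), (nat_lit 8388256), (nat_lit 8525263), (nat_lit 8663704), (nat_lit 8803117), (nat_lit 8943131)]) (FT.cons (FT.leaf [(nat_lit 8499278), (nat_lit 8635937), (nat_lit 8773900), (nat_lit 8912727), (nat_lit 9052069)]) (FT.cons (FT.leaf [(nat_lit 8745944), (nat_lit 8883383), (nat_lit 9021590), (nat_lit 9160230)]) (FT.cons (FT.leaf [(nat_lit 8992138), (nat_lit 9129692)]) (FT.cons (FT.leaf [(nat_lit 9237025)]) FT.nil))))) (FT.cons (FT.cons (FT.leaf [(nat_lit 8650066), (nat_lit 8785580), (nat_lit 8922313), (nat_lit 9059841), (nat_lit 9197827)]) (FT.cons (FT.leaf [(nat_lit 8894408), (nat_lit 9030592), (nat_lit 9167480), (nat_lit 9304753)]) (FT.cons (FT.leaf [(nat_lit 9138139), (nat_lit 9274359)]) FT.nil))) (FT.cons (FT.cons (FT.leaf [(nat_lit 9041057), (nat_lit 9175978)]) (FT.cons (FT.leaf [(nat_lit 9282327)]) FT.nil)) (FT.cons (FT.cons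 (FT.leaf [(nat_lit 9424731)]) FT.nil) (FT.cons (FT.cons (FT.leaf [(nat_lit 9800167)]) FT.nil) FT.nil)))))) (FT.cons (FT.cons (FT.cons (FT.leaf [(nat_lit 8505755), (nat_lit 8638226), (nat_lit 8772631), (nat_lit 8908396), (nat_lit 9045077), (nat_lit
 9182319)]) (FT.cons (FT.leaf [(nat_lit 8746938), (nat_lit 8880979), (nat_lit 9016259), (nat_lit 9152356), (nat_lit 9288934)]) (FT.cons (FT.leaf [(nat_lit 8988669), (nat_lit 9123423), (nat_lit 9258903), (nat_lit 9394792)]) (FT.cons (FT.leaf [(nat_lit 9229874), (nat_lit 9364710)]) FT.nil)))) (FT.cons (FT.cons (FT.leaf [(nat_lit 8894336), (nat_lit 9027249), (nat_lit 9161324), (nat_lit 9296153), (nat_lit 9431412)]) (FT.cons (FT.leaf [(nat_lit 9133792), (nat_lit 9267320), (nat_lit 9401517), (nat_lit 9536076)]) (FT.cons (FT.leaf [(nat_lit 9372600), (nat_lit 9506141)]) FT.nil))) (FT.cons (FT.cons (FT.leaf [(nat_lit 9277162), (nat_lit 9409459)]) (FT.cons (FT.leaf [(nat_lit 9513579)]) FT.nil))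 (FT.cons (FT.cons (FT.leaf [(nat_lit 9652840)]) FT.nil) (FT.cons (FT.cons (FT.leaf [(nat_lit 10020528)]) FT.nil) FT.nil))))) (FT.cons (FT.cons (FT.cons (FT.leaf [(nat_lit 9132693), (nat_lit 9263088), (nat_lit 9394594)]) (FT.cons (FT.leaf [(nat_lit 9367430), (nat_lit 9498392)]) (FT.cons (FT.leaf [(nat_lit 9601493)]) FT.nil))) (FT.cons (FT.cons (FT.leaf [(nat_lit 9507653)]) (FT.cons (FT.leaf [(nat_lit 9739396)]) FT.nil)) (FT.cons (FT.cons (FT.leaf [(nat_lit 9875643)]) FT.nil) FT.nil))) (FT.cons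
 (FT.cons (FT.cons (FT.leaf [(nat_lit 9732777)]) FT.nil) (FT.cons (FT.cons (FT.leaf [(nat_lit 10093371)]) FT.nil) FT.nil)) (FT.cons (FT.cons (FT.cons (FT.leaf [(nat_lit 10306249)]) FT.nil) FT.nil) (FT.cons (FT.cons (FT.cons (FT.leaf [(nat_lit 10854076)]) FT.nil) FT.nil) FT.nil)))))) (FT.cons (FT.cons (FT.cons (FT.cons (FT.leaf [(nat_lit 9158699), (nat_lit 9282631), (nat_lit 9408429), (nat_lit 9535563), (nat_lit 9663625)]) (FT.cons (FT.leaf [(nat_lit 9384156), (nat_lit 9509673), (nat_lit 9636418), (nat_lit 9764001)]) (FT.cons (FT.leaf [(nat_lit 9610360), (nat_lit 9736678)]) (FT.cons (FT.leaf [(nat_lit 9836330)]) FT.nil)))) (FT.cons (FT.cons (FT.leaf [(nat_lit 9521610), (nat_lit 9646172), (nat_lit 9771891)]) (FT.cons (FT.leaf [(nat_lit 9745875), (nat_lit 9871147)]) (FT.cons (FT.leaf [(nat_lit 9969791)]) FT.nil))) (FT.cons (FT.cons (FT.leaf [(nat_lit 9879879)]) (FT.cons (FT.leaf [(nat_lit 10101743)]) FT.nil)) (FT.cons (FT.cons (FT.leaf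 [(nat_lit 10232207)]) FT.nil) FT.nil)))) (FT.cons (FT.cons (FT.cons (FT.leaf [(nat_lit 9743531), (nat_lit 9865931), (nat_lit 9989440)]) (FT.cons (FT.leaf [(nat_lit 9963738), (nat_lit 10086799)]) (FT.cons (FT.leaf [(nat_lit 10183561)]) FT.nil))) (FT.cons
 (FT.cons (FT.leaf [(nat_lit 10095030)]) (FT.cons (FT.leaf [(nat_lit 10312853)]) FT.nil)) (FT.cons (FT.cons (FT.leaf [(nat_lit 10440706)]) FT.nil) FT.nil))) (FT.cons (FT.cons (FT.cons (FT.leaf [(nat_lit 10305553)]) FT.nil) (FT.cons (FT.cons (FT.leaf [(nat_lit 10644807)]) FT.nil) FT.nil)) (FT.cons (FT.cons (FT.cons (FT.leaf [(nat_lit 10844687)]) FT.nil) FT.nil) FT.nil)))) (FT.cons (FT.cons (FT.cons (FT.cons (FT.leaf [(nat_lit 10311266)]) FT.nil) FT.nil) (FT.cons (FT.cons (FT.cons (FT.leaf [(nat_lit 10840433)]) FT.nil) FT.nil) FT.nil)) (FT.cons (FT.cons (FT.cons (FT.cons (FT.leaf [(nat_lit 11342540)]) FT.nil) FT.nil) FT.nil) (FT.cons (FT.cons (FT.cons (FT.cons (FT.leaf [(nat_lit 12275493)])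 FT.nil) FT.nil) FT.nil) FT.nil))))))))

def f160_1_400 : FT := (FT.cons (FT.cons (FT.cons (FT.cons (FT.leaf [(nat_lit 3263658), (nat_lit 3426368), (nat_lit 3601415), (nat_lit 3785671), (nat_lit 3976838), (nat_lit 4173143), (nat_lit 4373182), (nat_lit 4575820), (nat_lit 4780134), (nat_lit 4985362), (nat_lit 5190879), (nat_lit 5396167), (nat_lit 5600799), (nat_lit 5804424), (nat_lit 6006751)]) (FT.cons (FT.leaf [(nat_lit 3586149), (nat_lit 3763738), (nat_lit 3949645), (nat_lit 4141726), (nat_lit 4338336), (nat_lit 4538175), (nat_lit 4740199), (nat_lit 4943557), (nat_lit 5147552), (nat_lit 5351609), (nat_lit 5555258), (nat_lit 5758107), (nat_lit 5959837), (nat_lit 6160186)]) (FT.cons (FT.leaf [(nat_lit 3926382), (nat_lit 4113470), (nat_lit 4306084), (nat_lit 4502691), (nat_lit 4702084), (nat_lit 4903296), (nat_lit 5105544), (nat_lit 5308184), (nat_lit 5510692), (nat_lit 5712634), (nat_lit 5913653), (nat_lit 6113458)]) (FT.cons (FT.leaf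 [(nat_lit 4276889), (nat_lit 4469710), (nat_lit 4666050), (nat_lit 4864786), (nat_lit 5065020), (nat_lit 5266027), (nat_lit 5467213), (nat_lit 5668095), (nat_lit 5868276), (nat_lit 6067430)]) (FT.cons (FT.leaf [(nat_lit 4632437), (nat_lit 4828285), (nat_lit 5026184), (nat_lit 5225298), (nat_lit 5424953), (nat_lit
 5624602), (nat_lit 5823799), (nat_lit 6022177), (nat_lit 6219438)]) (FT.cons (FT.leaf [(nat_lit 4989289), (nat_lit 5186195), (nat_lit 5384070), (nat_lit 5582283), (nat_lit 5780327), (nat_lit 5977790), (nat_lit 6174333)]) (FT.cons (FT.leaf [(nat_lit 5344755), (nat_lit 5541290), (nat_lit 5737986), (nat_lit 5934370), (nat_lit 6130060)]) (FT.cons (FT.leaf [(nat_lit 5696923), (nat_lit 5892039), (nat_lit 6086719), (nat_lit 6280608)]) (FT.cons (FT.leaf [(nat_lit 6044429), (nat_lit 6237371)]) (FT.cons (FT.leaf [(nat_lit 6386326)]) (FT.cons (FT.leaf [(nat_lit 6721976)]) (FT.cons (FT.leaf [(nat_lit 7050970)]) FT.nil))))))))))))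 (FT.cons (FT.cons (FT.leaf [(nat_lit 3818959), (nat_lit 3996719), (nat_lit 4182125), (nat_lit 4373130), (nat_lit 4568180), (nat_lit 4766058), (nat_lit 4965793), (nat_lit 5166598), (nat_lit 5367830), (nat_lit 5568965), (nat_lit 5769568), (nat_lit 5969286), (nat_lit 6167825)]) (FT.cons (FT.leaf [(nat_lit 4158178), (nat_lit 4344387), (nat_lit 4535619), (nat_lit 4730421), (nat_lit 4927662), (nat_lit 5126439), (nat_lit 5326026), (nat_lit 5525829), (nat_lit 5725365), (nat_lit 5924236), (nat_lit 6122115), (nat_lit 6318736)]) (FT.cons (FT.leaf [(nat_lit 4506035), (nat_lit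
 4697216), (nat_lit 4891549), (nat_lit 5087975), (nat_lit 5285656), (nat_lit 5483917), (nat_lit 5682209), (nat_lit 5880086), (nat_lit 6077182), (nat_lit 6273196)]) (FT.cons (FT.leaf [(nat_lit 4857787), (nat_lit 5051458), (nat_lit 5246920), (nat_lit 5443387), (nat_lit 5640232), (nat_lit 5836946), (nat_lit 6033116), (nat_lit 6228404), (nat_lit 6422535)]) (FT.cons (FT.leaf [(nat_lit 5210063), (nat_lit 5404431), (nat_lit 5599585), (nat_lit 5794939), (nat_lit 5990022), (nat_lit 6184447), (nat_lit 6377905)]) (FT.cons (FT.leaf [(nat_lit 5560459), (nat_lit 5754218), (nat_lit 5948020), (nat_lit 6141426), (nat_lit 6334079)]) (FT.cons (FT.leaf [(nat_lit 5907258), (nat_lit 6099459), (nat_lit 6291155), (nat_lit 6482015)]) (FT.cons (FT.leaf [(nat_lit 6249249), (nat_lit 6439210)]) (FT.cons (FT.leaf [(nat_lit 6585593)]) (FT.cons (FT.leaf [(nat_lit 6915731)]) (FT.cons (FT.leaf [(nat_lit 7239306)]) FT.nil))))))))))) (FT.cons (FT.cons (FT.leaf [(nat_lit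 4386953), (nat_lit 4571978), (nat_lit 4761589), (nat_lit 4954407), (nat_lit 5149366), (nat_lit 5345623), (nat_lit 5542500), (nat_lit 5739446), (nat_lit 5936015), (nat_lit 6131839), (nat_lit 6326619)]) (FT.cons (FT.leaf [(nat_lit 4731698), (nat_lit
 4921048), (nat_lit 5113233), (nat_lit 5307253), (nat_lit 5502322), (nat_lit 5697809), (nat_lit 5893205), (nat_lit 6088094), (nat_lit 6282139), (nat_lit 6475065)]) (FT.cons (FT.leaf [(nat_lit 5079381), (nat_lit 5270771), (nat_lit 5463725), (nat_lit 5657508), (nat_lit 5851533), (nat_lit 6045324), (nat_lit 6238497), (nat_lit 6430740), (nat_lit 6621796)]) (FT.cons (FT.leaf [(nat_lit 5426953), (nat_lit 5618734), (nat_lit 5811150), (nat_lit 6003650), (nat_lit 6195793), (nat_lit 6387222), (nat_lit 6577646)]) (FT.cons (FT.leaf [(nat_lit 5772241), (nat_lit 5963221), (nat_lit 6154148), (nat_lit 6344609), (nat_lit 6534272)]) (FT.cons (FT.leaf [(nat_lit 6113704), (nat_lit 6303018), (nat_lit 6491772),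 (nat_lit 6679654)]) (FT.cons (FT.leaf [(nat_lit 6450259), (nat_lit 6637287)]) (FT.cons (FT.leaf [(nat_lit 6781161)]) (FT.cons (FT.leaf [(nat_lit 7105914)]) FT.nil))))))))) (FT.cons (FT.cons (FT.leaf [(nat_lit 4953788), (nat_lit 5141162), (nat_lit 5331095), (nat_lit 5522643), (nat_lit 5715065), (nat_lit 5907769), (nat_lit 6100281), (nat_lit 6292213)]) (FT.cons (FT.leaf [(nat_lit 5297208), (nat_lit 5486239), (nat_lit 5676642), (nat_lit 5867724), (nat_lit 6058933), (nat_lit 6249825), (nat_lit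
 6440041)]) (FT.cons (FT.leaf [(nat_lit 5639991), (nat_lit 5829160), (nat_lit 6018836), (nat_lit 6208500), (nat_lit 6397738)]) (FT.cons (FT.leaf [(nat_lit 5980168), (nat_lit 6168380), (nat_lit 6356460), (nat_lit 6544019)]) (FT.cons (FT.leaf [(nat_lit 6316348), (nat_lit 6502813)]) (FT.cons (FT.leaf [(nat_lit 6647559)]) (FT.cons (FT.leaf [(nat_lit 6973134)]) (FT.cons (FT.leaf [(nat_lit 7292635)]) FT.nil)))))))) (FT.cons (FT.cons (FT.leaf [(nat_lit 5511277), (nat_lit 5697898), (nat_lit 5885727), (nat_lit 6074108), (nat_lit 6262520), (nat_lit 6450546)]) (FT.cons (FT.leaf [(nat_lit 5849227), (nat_lit 6035777), (nat_lit 6222724), (nat_lit 6409580), (nat_lit 6595954)]) (FT.cons (FT.leaf [(nat_lit 6184316), (nat_lit 6369784), (nat_lit 6555053), (nat_lit 6739757)]) (FT.cons (FT.leaf [(nat_lit 6515284), (nat_lit 6698941)]) (FT.cons (FT.leaf [(nat_lit 6841251)]) (FT.cons (FT.leaf [(nat_lit 7161619)]) FT.nil)))))) (FT.cons (FT.cons (FT.leaf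 [(nat_lit 6054724), (nat_lit 6238660), (nat_lit 6422901), (nat_lit 6606984), (nat_lit 6790542)]) (FT.cons (FT.leaf [(nat_lit 6384770), (nat_lit 6567523), (nat_lit 6750024), (nat_lit 6931925)]) (FT.cons (FT.leaf [(nat_lit 6710606), (nat_lit 6891505)])
 (FT.cons (FT.leaf [(nat_lit 7031435)]) (FT.cons (FT.leaf [(nat_lit 7346718)]) FT.nil))))) (FT.cons (FT.cons (FT.leaf [(nat_lit 6581615), (nat_lit 6761692), (nat_lit 6941471)]) (FT.cons (FT.leaf [(nat_lit 6902410), (nat_lit 7080602)]) (FT.cons (FT.leaf [(nat_lit 7218212)]) FT.nil))) (FT.cons (FT.cons (FT.leaf [(nat_lit 7090792)]) (FT.cons (FT.leaf [(nat_lit 7401680)]) FT.nil)) (FT.cons (FT.cons (FT.leaf [(nat_lit 7581939)]) FT.nil) (FT.cons (FT.cons (FT.leaf [(nat_lit 8055252)]) FT.nil) FT.nil)))))))))) (FT.cons (FT.cons (FT.cons (FT.leaf [(nat_lit 4218588), (nat_lit 4392673), (nat_lit 4573808), (nat_lit 4760046), (nat_lit 4949927), (nat_lit 5142322), (nat_lit 5336335), (nat_lit 5531244),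 (nat_lit 5726465), (nat_lit 5921518), (nat_lit 6116012), (nat_lit 6309625), (nat_lit 6502091)]) (FT.cons (FT.leaf [(nat_lit 4549825), (nat_lit 4731489), (nat_lit 4917745), (nat_lit 5107229), (nat_lit 5298888), (nat_lit 5491888), (nat_lit 5685560), (nat_lit 5879362), (nat_lit 6072852), (nat_lit 6265668), (nat_lit 6457515), (nat_lit 6648147)]) (FT.cons (FT.leaf [(nat_lit 4888430), (nat_lit 5074475), (nat_lit 5263378), (nat_lit 5454155), (nat_lit 5646029), (nat_lit 5838376), (nat_lit 6030695),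
 (nat_lit 6222575), (nat_lit 6413682), (nat_lit 6603742)]) (FT.cons (FT.leaf [(nat_lit 5230127), (nat_lit 5418292), (nat_lit 5608064), (nat_lit 5798715), (nat_lit 5989666), (nat_lit 6180448), (nat_lit 6370680), (nat_lit 6560054), (nat_lit 6748314)]) (FT.cons (FT.leaf [(nat_lit 5571903), (nat_lit 5760565), (nat_lit 5949914), (nat_lit 6139407), (nat_lit 6328609), (nat_lit 6517166), (nat_lit 6704788)]) (FT.cons (FT.leaf [(nat_lit 5911620), (nat_lit 6099599), (nat_lit 6287587), (nat_lit 6475175), (nat_lit 6662033)]) (FT.cons (FT.leaf [(nat_lit 6247755), (nat_lit 6434197), (nat_lit 6620145), (nat_lit 6805291)]) (FT.cons (FT.leaf [(nat_lit 6579235), (nat_lit 6763522)]) (FT.cons (FT.leaf [(nat_lit 6905315)]) (FT.cons (FT.leaf [(nat_lit 7225499)]) FT.nil)))))))))) (FT.cons (FT.cons (FT.leaf [(nat_lit 4771388), (nat_lit 4951699), (nat_lit 5136230), (nat_lit 5323684), (nat_lit 5513063), (nat_lit 5703584), (nat_lit 5894621), (nat_lit 6085669),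 (nat_lit 6276316), (nat_lit 6466227), (nat_lit 6655125)]) (FT.cons (FT.leaf [(nat_lit 5106674), (nat_lit 5290826), (nat_lit 5477570), (nat_lit 5665971), (nat_lit 5855298), (nat_lit 6044965), (nat_lit 6234504), (nat_lit 6423530), (nat_lit 6611733),
 (nat_lit 6798862)]) (FT.cons (FT.leaf [(nat_lit 5444273), (nat_lit 5630174), (nat_lit 5817493), (nat_lit 6005544), (nat_lit 6193783), (nat_lit 6381769), (nat_lit 6569145), (nat_lit 6755626), (nat_lit 6940975)]) (FT.cons (FT.leaf [(nat_lit 5781441), (nat_lit 5967589), (nat_lit 6154299), (nat_lit 6341059), (nat_lit 6527457), (nat_lit 6713164), (nat_lit 6897911)]) (FT.cons (FT.leaf [(nat_lit 6116232), (nat_lit 6301545), (nat_lit 6486786), (nat_lit 6671572), (nat_lit 6855593)]) (FT.cons (FT.leaf [(nat_lit 6447270), (nat_lit 6630961), (nat_lit 6814115), (nat_lit 6996440)]) (FT.cons (FT.leaf [(nat_lit 6773587), (nat_lit 6955093)]) (FT.cons (FT.leaf [(nat_lit 7094516)]) (FT.cons (FT.leaf [(nat_lit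 7409615)]) FT.nil))))))))) (FT.cons (FT.cons (FT.leaf [(nat_lit 5321417), (nat_lit 5503573), (nat_lit 5688087), (nat_lit 5874072), (nat_lit 6060835), (nat_lit 6247829), (nat_lit 6434608), (nat_lit 6620816), (nat_lit 6806166), (nat_lit 6990419)]) (FT.cons (FT.leaf [(nat_lit 5654788), (nat_lit 5838374), (nat_lit 6023218), (nat_lit 6208668), (nat_lit 6394210), (nat_lit 6579429), (nat_lit 6763996), (nat_lit 6947637), (nat_lit 7130133)]) (FT.cons (FT.leaf [(nat_lit 5987304), (nat_lit 6170932),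
 (nat_lit 6355012), (nat_lit 6539063), (nat_lit 6722699), (nat_lit 6905604), (nat_lit 7087530)]) (FT.cons (FT.leaf [(nat_lit 6317191), (nat_lit 6499857), (nat_lit 6682387), (nat_lit 6864415), (nat_lit 7045652)]) (FT.cons (FT.leaf [(nat_lit 6643197), (nat_lit 6824179), (nat_lit 7004587), (nat_lit 7184148)]) (FT.cons (FT.leaf [(nat_lit 6964445), (nat_lit 7143223)]) (FT.cons (FT.leaf [(nat_lit 7280336)]) (FT.cons (FT.leaf [(nat_lit 7590474)]) FT.nil)))))))) (FT.cons (FT.cons (FT.leaf [(nat_lit 5861701), (nat_lit 6042945), (nat_lit 6225305), (nat_lit 6408163), (nat_lit 6591034), (nat_lit 6773527), (nat_lit 6955329), (nat_lit 7136186)]) (FT.cons (FT.leaf [(nat_lit 6189554), (nat_lit 6370664), (nat_lit 6552137), (nat_lit 6733513), (nat_lit 6914426), (nat_lit 7094585), (nat_lit 7273749)]) (FT.cons (FT.leaf [(nat_lit 6514576), (nat_lit 6694625), (nat_lit 6874481), (nat_lit 7053801), (nat_lit 7232309)]) (FT.cons (FT.leaf [(nat_lit 6835626),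 (nat_lit 7013943), (nat_lit 7191660), (nat_lit 7368515)]) (FT.cons (FT.leaf [(nat_lit 7151906), (nat_lit 7328013)]) (FT.cons (FT.leaf [(nat_lit 7462874)]) FT.nil)))))) (FT.cons (FT.cons (FT.leaf [(nat_lit 6388258), (nat_lit 6566866), (nat_lit 6745758),
 (nat_lit 6924497), (nat_lit 7102738)]) (FT.cons (FT.leaf [(nat_lit 6708471), (nat_lit 6885936), (nat_lit 7063164), (nat_lit 7239827)]) (FT.cons (FT.leaf [(nat_lit 7024649), (nat_lit 7200350)]) (FT.cons (FT.leaf [(nat_lit 7336065)]) (FT.cons (FT.leaf [(nat_lit 7642226)]) FT.nil))))) (FT.cons (FT.cons (FT.leaf [(nat_lit 6898960), (nat_lit 7073881), (nat_lit 7248527)]) (FT.cons (FT.leaf [(nat_lit 7210357), (nat_lit 7383493)]) (FT.cons (FT.leaf [(nat_lit 7517016)]) FT.nil))) (FT.cons (FT.cons (FT.leaf [(nat_lit 7392842)]) (FT.cons (FT.leaf [(nat_lit 7694852)]) FT.nil)) (FT.cons (FT.cons (FT.leaf [(nat_lit 7869662)]) FT.nil) (FT.cons (FT.cons (FT.leaf [(nat_lit 8329623)]) FT.nil) FT.nil)))))))))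 (FT.cons (FT.cons (FT.cons (FT.leaf [(nat_lit 5141789), (nat_lit 5317452), (nat_lit 5497033), (nat_lit 5679304), (nat_lit 5863329), (nat_lit 6048377), (nat_lit 6233866), (nat_lit 6419324), (nat_lit 6604375), (nat_lit 6788708), (nat_lit 6972069)]) (FT.cons (FT.leaf [(nat_lit 5467841), (nat_lit 5646962), (nat_lit 5828478), (nat_lit 6011511), (nat_lit 6195375), (nat_lit 6379523), (nat_lit 6563522), (nat_lit 6747015), (nat_lit 6929715), (nat_lit 7111387)]) (FT.cons (FT.leaf [(nat_lit 5795743),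
 (nat_lit 5976391), (nat_lit 6158343), (nat_lit 6340954), (nat_lit 6523716), (nat_lit 6706219), (nat_lit 6888132), (nat_lit 7069186), (nat_lit 7249164)]) (FT.cons (FT.leaf [(nat_lit 6122998), (nat_lit 6303795), (nat_lit 6485100), (nat_lit 6666435), (nat_lit 6847414), (nat_lit 7027730), (nat_lit 7207132)]) (FT.cons (FT.leaf [(nat_lit 6447848), (nat_lit 6627801), (nat_lit 6807675), (nat_lit 6987111), (nat_lit 7165818)]) (FT.cons (FT.leaf [(nat_lit 6769048), (nat_lit 6947437), (nat_lit 7125314), (nat_lit 7302406)]) (FT.cons (FT.leaf [(nat_lit 7085723), (nat_lit 7262030)]) (FT.cons (FT.leaf [(nat_lit 7397272)]) (FT.cons (FT.leaf [(nat_lit 7703292)]) FT.nil))))))))) (FT.cons (FT.cons (FT.leaf [(nat_lit 5675587), (nat_lit 5852725), (nat_lit 6032056), (nat_lit 6212744), (nat_lit 6394138), (nat_lit 6575724), (nat_lit 6757090), (nat_lit 6937902), (nat_lit 7117892), (nat_lit 7296838)]) (FT.cons (FT.leaf [(nat_lit 5999344), (nat_lit 6177741),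 (nat_lit 6357303), (nat_lit 6537418), (nat_lit 6717603), (nat_lit 6897472), (nat_lit 7076713), (nat_lit 7255074), (nat_lit 7432350)]) (FT.cons (FT.leaf [(nat_lit 6322108), (nat_lit 6500482), (nat_lit 6679272), (nat_lit 6858024), (nat_lit 7036374),
 (nat_lit 7214033), (nat_lit 7390761)]) (FT.cons (FT.leaf [(nat_lit 6642265), (nat_lit 6819693), (nat_lit 6996985), (nat_lit 7173802), (nat_lit 7349869)]) (FT.cons (FT.leaf [(nat_lit 6958677), (nat_lit 7134491), (nat_lit 7309763), (nat_lit 7484237)]) (FT.cons (FT.leaf [(nat_lit 7270546), (nat_lit 7444267)]) (FT.cons (FT.leaf [(nat_lit 7577326)]) (FT.cons (FT.leaf [(nat_lit 7878655)]) FT.nil)))))))) (FT.cons (FT.cons (FT.leaf [(nat_lit 6199507), (nat_lit 6375638), (nat_lit 6552813), (nat_lit 6730449), (nat_lit 6908088), (nat_lit 7085363), (nat_lit 7261980), (nat_lit 7437702)]) (FT.cons (FT.leaf [(nat_lit 6517789), (nat_lit 6693751), (nat_lit 6870051), (nat_lit 7046257), (nat_lit 7222024),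 (nat_lit 7397075), (nat_lit 7571188)]) (FT.cons (FT.leaf [(nat_lit 6833304), (nat_lit 7008237), (nat_lit 7182989), (nat_lit 7357236), (nat_lit 7530717)]) (FT.cons (FT.leaf [(nat_lit 7145006), (nat_lit 7318290), (nat_lit 7491009), (nat_lit 7662920)]) (FT.cons (FT.leaf [(nat_lit 7452167), (nat_lit 7623356)]) (FT.cons (FT.leaf [(nat_lit 7754288)]) FT.nil)))))) (FT.cons (FT.cons (FT.leaf [(nat_lit 6710111), (nat_lit 6883682), (nat_lit 7057523), (nat_lit 7231222), (nat_lit 7404451)]) (FT.cons (FT.leaf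
 [(nat_lit 7021044), (nat_lit 7193520), (nat_lit 7365776), (nat_lit 7537502)]) (FT.cons (FT.leaf [(nat_lit 7328122), (nat_lit 7498923)]) (FT.cons (FT.leaf [(nat_lit 7630676)]) (FT.cons (FT.leaf [(nat_lit 7928248)]) FT.nil))))) (FT.cons (FT.cons (FT.leaf [(nat_lit 7205569), (nat_lit 7375627), (nat_lit 7545432)]) (FT.cons (FT.leaf [(nat_lit 7508112), (nat_lit 7676480)]) (FT.cons (FT.leaf [(nat_lit 7806159)]) FT.nil))) (FT.cons (FT.cons (FT.leaf [(nat_lit 7685061)]) (FT.cons (FT.leaf [(nat_lit 7978706)]) FT.nil)) (FT.cons (FT.cons (FT.leaf [(nat_lit 8148397)]) FT.nil) (FT.cons (FT.cons (FT.leaf [(nat_lit 8595776)]) FT.nil) FT.nil)))))))) (FT.cons (FT.cons (FT.cons (FT.leaf [(nat_lit 6017122), (nat_lit 6189452), (nat_lit 6363841), (nat_lit 6539494), (nat_lit 6715798), (nat_lit 6892269), (nat_lit 7068520), (nat_lit 7244241), (nat_lit 7419176), (nat_lit 7593121)]) (FT.cons (FT.leaf [(nat_lit 6331708), (nat_lit 6505168), (nat_lit 6679719),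 (nat_lit 6854784), (nat_lit 7029907), (nat_lit 7204724), (nat_lit 7378942), (nat_lit 7552326), (nat_lit 7724681)]) (FT.cons (FT.leaf [(nat_lit 6645223), (nat_lit 6818620), (nat_lit 6992406), (nat_lit 7166152), (nat_lit 7339518), (nat_lit 7512226),
 (nat_lit 7684055)]) (FT.cons (FT.leaf [(nat_lit 6956183), (nat_lit 7128659), (nat_lit 7301009), (nat_lit 7472910), (nat_lit 7644103)]) (FT.cons (FT.leaf [(nat_lit 7263543), (nat_lit 7434480), (nat_lit 7604909), (nat_lit 7774586)]) (FT.cons (FT.leaf [(nat_lit 7566573), (nat_lit 7735525)]) (FT.cons (FT.leaf [(nat_lit 7864770)]) FT.nil))))))) (FT.cons (FT.cons (FT.leaf [(nat_lit 6525509), (nat_lit 6696786), (nat_lit 6869049), (nat_lit 7041744), (nat_lit 7214439), (nat_lit 7386790), (nat_lit 7558517), (nat_lit 7729398)]) (FT.cons (FT.leaf [(nat_lit 6834727), (nat_lit 7005816), (nat_lit 7177228), (nat_lit 7348551), (nat_lit 7519461), (nat_lit 7689697), (nat_lit 7859046)]) (FT.cons (FT.leaf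 [(nat_lit 7141261), (nat_lit 7311361), (nat_lit 7481296), (nat_lit 7650757), (nat_lit 7819498)]) (FT.cons (FT.leaf [(nat_lit 7444146), (nat_lit 7612680), (nat_lit 7780686), (nat_lit 7947934)]) (FT.cons (FT.leaf [(nat_lit 7742711), (nat_lit 7909262)]) (FT.cons (FT.leaf [(nat_lit 8036495)]) FT.nil)))))) (FT.cons (FT.cons (FT.leaf [(nat_lit 7021048), (nat_lit 7189855), (nat_lit 7358925), (nat_lit 7527865), (nat_lit 7696366)]) (FT.cons (FT.leaf [(nat_lit 7323220), (nat_lit 7490983), (nat_lit 7658546),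
 (nat_lit 7825615)]) (FT.cons (FT.leaf [(nat_lit 7621715), (nat_lit 7787892)]) (FT.cons (FT.leaf [(nat_lit 7915912)]) (FT.cons (FT.leaf [(nat_lit 8205387)]) FT.nil))))) (FT.cons (FT.cons (FT.leaf [(nat_lit 7502142), (nat_lit 7667606), (nat_lit 7832842)]) (FT.cons (FT.leaf [(nat_lit 7796332), (nat_lit 7960199)]) (FT.cons (FT.leaf [(nat_lit 8086258)]) FT.nil))) (FT.cons (FT.cons (FT.leaf [(nat_lit 7968078)]) (FT.cons (FT.leaf [(nat_lit 8253828)]) FT.nil)) (FT.cons (FT.cons (FT.leaf [(nat_lit 8418702)]) FT.nil) FT.nil)))))) (FT.cons (FT.cons (FT.cons (FT.leaf [(nat_lit 6840464), (nat_lit 7007131), (nat_lit 7174739), (nat_lit 7342760), (nat_lit 7510783), (nat_lit 7678480)]) (FT.cons (FT.leaf [(nat_lit 7141095), (nat_lit 7307573), (nat_lit 7474361), (nat_lit 7641071), (nat_lit 7807393)]) (FT.cons (FT.leaf [(nat_lit 7439141), (nat_lit 7604674), (nat_lit 7770057), (nat_lit 7934998)]) (FT.cons (FT.leaf [(nat_lit 7733703), (nat_lit 7897749)])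 FT.nil)))) (FT.cons (FT.cons (FT.leaf [(nat_lit 7321772), (nat_lit 7486070), (nat_lit 7650628), (nat_lit 7815070), (nat_lit 7979104)]) (FT.cons (FT.leaf [(nat_lit 7615665), (nat_lit 7778972), (nat_lit 7942101), (nat_lit 8104770)]) (FT.cons (FT.leaf
 [(nat_lit 7906055), (nat_lit 8067861)]) FT.nil))) (FT.cons (FT.cons (FT.leaf [(nat_lit 7789315), (nat_lit 7950435)]) (FT.cons (FT.leaf [(nat_lit 8075616)]) FT.nil)) (FT.cons (FT.cons (FT.leaf [(nat_lit 8242462)]) FT.nil) (FT.cons (FT.cons (FT.leaf [(nat_lit 8681084)]) FT.nil) FT.nil))))) (FT.cons (FT.cons (FT.cons (FT.leaf [(nat_lit 7612923), (nat_lit 7772952), (nat_lit 7933238)]) (FT.cons (FT.leaf [(nat_lit 7898985), (nat_lit 8058076)]) (FT.cons (FT.leaf [(nat_lit 8181713)]) FT.nil))) (FT.cons (FT.cons (FT.leaf [(nat_lit 8067668)]) (FT.cons (FT.leaf [(nat_lit 8346510)]) FT.nil)) (FT.cons (FT.cons (FT.leaf [(nat_lit 8508735)]) FT.nil) FT.nil))) (FT.cons (FT.cons (FT.cons (FT.leaf [(nat_lit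 8337735)]) FT.nil) (FT.cons (FT.cons (FT.leaf [(nat_lit 8767373)]) FT.nil) FT.nil)) (FT.cons (FT.cons (FT.cons (FT.leaf [(nat_lit 9018811)]) FT.nil) FT.nil) (FT.cons (FT.cons (FT.cons (FT.leaf [(nat_lit 9660106)]) FT.nil) FT.nil) (FT.cons (FT.cons (FT.cons (FT.leaf [(nat_lit 10265344)]) FT.nil) FT.nil) FT.nil)))))))))) (FT.cons (FT.cons (FT.cons (FT.cons (FT.leaf [(nat_lit 5299504), (nat_lit 5455310), (nat_lit 5617469), (nat_lit 5784289), (nat_lit 5954510), (nat_lit 6127160), (nat_lit 6301471),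
 (nat_lit 6476821), (nat_lit 6652707), (nat_lit 6828713), (nat_lit 7004496), (nat_lit 7179773), (nat_lit 7354305)]) (FT.cons (FT.leaf [(nat_lit 5595413), (nat_lit 5758152), (nat_lit 5925129), (nat_lit 6095162), (nat_lit 6267344), (nat_lit 6440954), (nat_lit 6615415), (nat_lit 6790256), (nat_lit 6965090), (nat_lit 7139599), (nat_lit 7313520), (nat_lit 7486633)]) (FT.cons (FT.leaf [(nat_lit 5898315), (nat_lit 6065261), (nat_lit 6234957), (nat_lit 6406549), (nat_lit 6579363), (nat_lit 6752859), (nat_lit 6926596), (nat_lit 7100215), (nat_lit 7273419), (nat_lit 7445961)]) (FT.cons (FT.leaf [(nat_lit 6204597), (nat_lit 6373826), (nat_lit 6544724), (nat_lit 6716659), (nat_lit 6889125), (nat_lit 7061711), (nat_lit 7234077), (nat_lit 7405948), (nat_lit 7577096)]) (FT.cons (FT.leaf [(nat_lit 6511712), (nat_lit 6681826), (nat_lit 6852813), (nat_lit 7024195), (nat_lit 7195585), (nat_lit 7366669), (nat_lit 7537187)]) (FT.cons (FT.leaf [(nat_lit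 6817821), (nat_lit 6987798), (nat_lit 7158049), (nat_lit 7328211), (nat_lit 7497988)]) (FT.cons (FT.leaf [(nat_lit 7121598), (nat_lit 7290679), (nat_lit 7459584), (nat_lit 7628035)]) (FT.cons (FT.leaf [(nat_lit 7422075), (nat_lit 7589701)]) (FT.cons
 (FT.leaf [(nat_lit 7718562)]) (FT.cons (FT.leaf [(nat_lit 8010568)]) FT.nil)))))))))) (FT.cons (FT.cons (FT.leaf [(nat_lit 5792277), (nat_lit 5954053), (nat_lit 6119766), (nat_lit 6288286), (nat_lit 6458748), (nat_lit 6630472), (nat_lit 6802912), (nat_lit 6975625), (nat_lit 7148249), (nat_lit 7320487), (nat_lit 7492091)]) (FT.cons (FT.leaf [(nat_lit 6092718), (nat_lit 6258265), (nat_lit 6426340), (nat_lit 6596130), (nat_lit 6766997), (nat_lit 6938428), (nat_lit 7110009), (nat_lit 7281400), (nat_lit 7452325), (nat_lit 7622553)]) (FT.cons (FT.leaf [(nat_lit 6395908), (nat_lit 6563426), (nat_lit 6732455), (nat_lit 6902393), (nat_lit 7072760), (nat_lit 7243166), (nat_lit 7413296), (nat_lit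 7582887), (nat_lit 7751726)]) (FT.cons (FT.leaf [(nat_lit 6699498), (nat_lit 6867687), (nat_lit 7036637), (nat_lit 7205894), (nat_lit 7375092), (nat_lit 7543934), (nat_lit 7712175)]) (FT.cons (FT.leaf [(nat_lit 7001800), (nat_lit 7169709), (nat_lit 7337816), (nat_lit 7505777), (nat_lit 7673313)]) (FT.cons (FT.leaf [(nat_lit 7301595), (nat_lit 7468521), (nat_lit 7635222), (nat_lit 7801436)]) (FT.cons (FT.leaf [(nat_lit 7598003), (nat_lit 7763426)]) (FT.cons (FT.leaf [(nat_lit 7890391)]) (FT.cons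
 (FT.leaf [(nat_lit 8178316)]) FT.nil))))))))) (FT.cons (FT.cons (FT.leaf [(nat_lit 6284418), (nat_lit 6448477), (nat_lit 6614870), (nat_lit 6782817), (nat_lit 6951713), (nat_lit 7121070), (nat_lit 7290500), (nat_lit 7459682), (nat_lit 7628353), (nat_lit 7796299)]) (FT.cons (FT.leaf [(nat_lit 6584401), (nat_lit 6750161), (nat_lit 6917292), (nat_lit 7085220), (nat_lit 7253489), (nat_lit 7421729), (nat_lit 7589644), (nat_lit 7756984), (nat_lit 7923551)]) (FT.cons (FT.leaf [(nat_lit 6884415), (nat_lit 7050662), (nat_lit 7217571), (nat_lit 7384711), (nat_lit 7551734), (nat_lit 7718361), (nat_lit 7884360)]) (FT.cons (FT.leaf [(nat_lit 7182905), (nat_lit 7348751), (nat_lit 7514729), (nat_lit 7680514), (nat_lit 7845837)]) (FT.cons (FT.leaf [(nat_lit 7478750), (nat_lit 7643540), (nat_lit 7808066), (nat_lit 7972075)]) (FT.cons (FT.leaf [(nat_lit 7771141), (nat_lit 7934393)]) (FT.cons (FT.leaf [(nat_lit 8059501)]) (FT.cons (FT.leaf [(nat_lit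 8343426)]) FT.nil)))))))) (FT.cons (FT.cons (FT.leaf [(nat_lit 6770088), (nat_lit 6934057), (nat_lit 7099273), (nat_lit 7265187), (nat_lit 7431365), (nat_lit 7597459), (nat_lit 7763183), (nat_lit 7928307)]) (FT.cons (FT.leaf [(nat_lit 7066498), (nat_lit
 7230795), (nat_lit 7395667), (nat_lit 7560705), (nat_lit 7725577), (nat_lit 7890018), (nat_lit 8053809)]) (FT.cons (FT.leaf [(nat_lit 7361187), (nat_lit 7524980), (nat_lit 7688849), (nat_lit 7852483), (nat_lit 8015629)]) (FT.cons (FT.leaf [(nat_lit 7653121), (nat_lit 7815799), (nat_lit 7978179), (nat_lit 8140020)]) (FT.cons (FT.leaf [(nat_lit 7941554), (nat_lit 8102669)]) (FT.cons (FT.leaf [(nat_lit 8225959)]) FT.nil)))))) (FT.cons (FT.cons (FT.leaf [(nat_lit 7245787), (nat_lit 7408132), (nat_lit 7570979), (nat_lit 7733933), (nat_lit 7896681)]) (FT.cons (FT.leaf [(nat_lit 7536698), (nat_lit 7698454), (nat_lit 7860237), (nat_lit 8021750)]) (FT.cons (FT.leaf [(nat_lit 7824767), (nat_lit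 7985361)]) (FT.cons (FT.leaf [(nat_lit 8109307)]) (FT.cons (FT.leaf [(nat_lit 8389830)]) FT.nil))))) (FT.cons (FT.cons (FT.leaf [(nat_lit 7709493), (nat_lit 7869231), (nat_lit 8028955)]) (FT.cons (FT.leaf [(nat_lit 7993749), (nat_lit 8152289)]) (FT.cons (FT.leaf [(nat_lit 8274462)]) FT.nil))) (FT.cons (FT.cons (FT.leaf [(nat_lit 8160129)]) (FT.cons (FT.leaf [(nat_lit 8437084)]) FT.nil)) (FT.cons (FT.cons (FT.leaf [(nat_lit 8597236)]) FT.nil) (FT.cons (FT.cons (FT.leaf [(nat_lit 9020745)]) FT.nil)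
 FT.nil))))))))) (FT.cons (FT.cons (FT.cons (FT.leaf [(nat_lit 6120249), (nat_lit 6278460), (nat_lit 6440364), (nat_lit 6604879), (nat_lit 6771188), (nat_lit 6938648), (nat_lit 7106746), (nat_lit 7275068), (nat_lit 7443276), (nat_lit 7611091), (nat_lit 7778285)]) (FT.cons (FT.leaf [(nat_lit 6413580), (nat_lit 6575244), (nat_lit 6739268), (nat_lit 6904880), (nat_lit 7071476), (nat_lit 7238575), (nat_lit 7405788), (nat_lit 7572797), (nat_lit 7739343), (nat_lit 7905210)]) (FT.cons (FT.leaf [(nat_lit 6709259), (nat_lit 6872694), (nat_lit 7037532), (nat_lit 7203205), (nat_lit 7369258), (nat_lit 7535326), (nat_lit 7701112), (nat_lit 7866371), (nat_lit 8030903)]) (FT.cons (FT.leaf [(nat_lit 7005119), (nat_lit 7169117), (nat_lit 7333813), (nat_lit 7498781), (nat_lit 7663676), (nat_lit 7828219), (nat_lit 7992179)]) (FT.cons (FT.leaf [(nat_lit 7299612), (nat_lit 7463288), (nat_lit 7627138), (nat_lit 7790837), (nat_lit 7954120)]) (FT.cons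 (FT.leaf [(nat_lit 7591619), (nat_lit 7754324), (nat_lit 7916807), (nat_lit 8078818)]) (FT.cons (FT.leaf [(nat_lit 7880336), (nat_lit 8041588)]) (FT.cons (FT.leaf [(nat_lit 8165183)]) (FT.cons (FT.leaf [(nat_lit 8445756)]) FT.nil))))))))) (FT.cons (FT.cons
 (FT.leaf [(nat_lit 6599853), (nat_lit 6760023), (nat_lit 6922381), (nat_lit 7086187), (nat_lit 7250865), (nat_lit 7415959), (nat_lit 7581098), (nat_lit 7745984), (nat_lit 7910371), (nat_lit 8074055)]) (FT.cons (FT.leaf [(nat_lit 6892358), (nat_lit 7054065), (nat_lit 7217053), (nat_lit 7380777), (nat_lit 7544805), (nat_lit 7708792), (nat_lit 7872453), (nat_lit 8035558), (nat_lit 8197918)]) (FT.cons (FT.leaf [(nat_lit 7184733), (nat_lit 7346844), (nat_lit 7509569), (nat_lit 7672500), (nat_lit 7835308), (nat_lit 7997728), (nat_lit 8159544)]) (FT.cons (FT.leaf [(nat_lit 7475544), (nat_lit 7637231), (nat_lit 7799036), (nat_lit 7960648), (nat_lit 8121815)]) (FT.cons (FT.leaf [(nat_lit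 7763757), (nat_lit 7924413), (nat_lit 8084812), (nat_lit 8244718)]) (FT.cons (FT.leaf [(nat_lit 8048630), (nat_lit 8207805)]) (FT.cons (FT.leaf [(nat_lit 8329632)]) (FT.cons (FT.leaf [(nat_lit 8606390)]) FT.nil)))))))) (FT.cons (FT.cons (FT.leaf [(nat_lit 7072755), (nat_lit 7232713), (nat_lit 7393841), (nat_lit 7555619), (nat_lit 7717636), (nat_lit 7879560), (nat_lit 8041124), (nat_lit 8202110)]) (FT.cons (FT.leaf [(nat_lit 7361633), (nat_lit 7521856), (nat_lit 7682619), (nat_lit 7843529), (nat_lit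
 8004275), (nat_lit 8164604), (nat_lit 8324310)]) (FT.cons (FT.leaf [(nat_lit 7648781), (nat_lit 7808495), (nat_lit 7968276), (nat_lit 8127829), (nat_lit 8286914)]) (FT.cons (FT.leaf [(nat_lit 7933244), (nat_lit 8091877), (nat_lit 8250224), (nat_lit 8408058)]) (FT.cons (FT.leaf [(nat_lit 8214334), (nat_lit 8371466)]) (FT.cons (FT.leaf [(nat_lit 8491561)]) FT.nil)))))) (FT.cons (FT.cons (FT.leaf [(nat_lit 7535862), (nat_lit 7694203), (nat_lit 7853017), (nat_lit 8011928), (nat_lit 8170640)]) (FT.cons (FT.leaf [(nat_lit 7819378), (nat_lit 7977136), (nat_lit 8134918), (nat_lit 8292443)]) (FT.cons (FT.leaf [(nat_lit 8100140), (nat_lit 8256777)]) (FT.cons (FT.leaf [(nat_lit 8377509)]) (FT.cons (FT.leaf [(nat_lit 8651034)]) FT.nil))))) (FT.cons (FT.cons (FT.leaf [(nat_lit 7987388), (nat_lit 8143211), (nat_lit 8299022)]) (FT.cons (FT.leaf [(nat_lit 8264502), (nat_lit 8419175)]) (FT.cons (FT.leaf [(nat_lit 8538216)]) FT.nil))) (FT.cons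 (FT.cons (FT.leaf [(nat_lit 8426389)]) (FT.cons (FT.leaf [(nat_lit 8696515)]) FT.nil)) (FT.cons (FT.cons (FT.leaf [(nat_lit 8852467)]) FT.nil) (FT.cons (FT.cons (FT.leaf [(nat_lit 9265574)]) FT.nil) FT.nil)))))))) (FT.cons (FT.cons (FT.cons (FT.leaf [(nat_lit
 6905462), (nat_lit 7061875), (nat_lit 7220352), (nat_lit 7380185), (nat_lit 7540830), (nat_lit 7701852), (nat_lit 7862902), (nat_lit 8023699), (nat_lit 8184010), (nat_lit 8343645)]) (FT.cons (FT.leaf [(nat_lit 7190774), (nat_lit 7348591), (nat_lit 7507612), (nat_lit 7667319), (nat_lit 7827304), (nat_lit 7987238), (nat_lit 8146853), (nat_lit 8305931), (nat_lit 8464296)]) (FT.cons (FT.leaf [(nat_lit 7475838), (nat_lit 7633995), (nat_lit 7792728), (nat_lit 7951647), (nat_lit 8110443), (nat_lit 8268864), (nat_lit 8426703)]) (FT.cons (FT.leaf [(nat_lit 7759323), (nat_lit 7917048), (nat_lit 8074878), (nat_lit 8232520), (nat_lit 8389736)]) (FT.cons (FT.leaf [(nat_lit 8040274), (nat_lit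 8196996), (nat_lit 8353471), (nat_lit 8509475)]) (FT.cons (FT.leaf [(nat_lit 8318001), (nat_lit 8473301)]) (FT.cons (FT.leaf [(nat_lit 8592015)]) FT.nil))))))) (FT.cons (FT.cons (FT.leaf [(nat_lit 7366141), (nat_lit 7522255), (nat_lit 7679475), (nat_lit 7837306), (nat_lit 7995357), (nat_lit 8153312), (nat_lit 8310919), (nat_lit 8467969)]) (FT.cons (FT.leaf [(nat_lit 7647820), (nat_lit 7804155), (nat_lit 7960998), (nat_lit 8117978), (nat_lit 8274798), (nat_lit 8431217), (nat_lit 8587040)]) (FT.cons (FT.leaf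
 [(nat_lit 7927782), (nat_lit 8083609), (nat_lit 8239499), (nat_lit 8395170), (nat_lit 8550395)]) (FT.cons (FT.leaf [(nat_lit 8205138), (nat_lit 8359921), (nat_lit 8514434), (nat_lit 8668458)]) (FT.cons (FT.leaf [(nat_lit 8479248), (nat_lit 8632594)]) (FT.cons (FT.leaf [(nat_lit 8749658)]) FT.nil)))))) (FT.cons (FT.cons (FT.leaf [(nat_lit 7817251), (nat_lit 7971772), (nat_lit 8126742), (nat_lit 8281805), (nat_lit 8436676)]) (FT.cons (FT.leaf [(nat_lit 8093724), (nat_lit 8247674), (nat_lit 8401649), (nat_lit 8555378)]) (FT.cons (FT.leaf [(nat_lit 8367535), (nat_lit 8520408)]) (FT.cons (FT.leaf [(nat_lit 8638089)]) (FT.cons (FT.leaf [(nat_lit 8904964)]) FT.nil))))) (FT.cons (FT.cons (FT.leaf [(nat_lit 8257201), (nat_lit 8409296), (nat_lit 8561383)]) (FT.cons (FT.leaf [(nat_lit 8527521), (nat_lit 8678514)]) (FT.cons (FT.leaf [(nat_lit 8794583)]) FT.nil))) (FT.cons (FT.cons (FT.leaf [(nat_lit 8685152)]) (FT.cons (FT.leaf [(nat_lit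 8948786)]) FT.nil)) (FT.cons (FT.cons (FT.leaf [(nat_lit 9100755)]) FT.nil) FT.nil)))))) (FT.cons (FT.cons (FT.cons (FT.leaf [(nat_lit 7650758), (nat_lit 7803192), (nat_lit 7956678), (nat_lit 8110743), (nat_lit 8265012), (nat_lit 8419187)]) (FT.cons (FT.leaf
 [(nat_lit 7925562), (nat_lit 8078184), (nat_lit 8231289), (nat_lit 8384524), (nat_lit 8537605)]) (FT.cons (FT.leaf [(nat_lit 8198675), (nat_lit 8350797), (nat_lit 8502981), (nat_lit 8654956)]) (FT.cons (FT.leaf [(nat_lit 8469265), (nat_lit 8620384)]) FT.nil)))) (FT.cons (FT.cons (FT.leaf [(nat_lit 8090439), (nat_lit 8241315), (nat_lit 8392621), (nat_lit 8544018), (nat_lit 8695232)]) (FT.cons (FT.leaf [(nat_lit 8360202), (nat_lit 8510523), (nat_lit 8660872), (nat_lit 8810990)]) (FT.cons (FT.leaf [(nat_lit 8627399), (nat_lit 8776688)]) FT.nil))) (FT.cons (FT.cons (FT.leaf [(nat_lit 8519381), (nat_lit 8667923)]) (FT.cons (FT.leaf [(nat_lit 8783235)]) FT.nil)) (FT.cons (FT.cons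 (FT.leaf [(nat_lit 8936829)]) FT.nil) (FT.cons (FT.cons (FT.leaf [(nat_lit 9342474)]) FT.nil) FT.nil))))) (FT.cons (FT.cons (FT.cons (FT.leaf [(nat_lit 8355880), (nat_lit 8503275), (nat_lit 8651087)]) (FT.cons (FT.leaf [(nat_lit 8619247), (nat_lit 8766107)]) (FT.cons (FT.leaf [(nat_lit 8880142)]) FT.nil))) (FT.cons (FT.cons (FT.leaf [(nat_lit 8774345)]) (FT.cons (FT.leaf [(nat_lit 9032041)]) FT.nil)) (FT.cons (FT.cons (FT.leaf [(nat_lit 9181801)]) FT.nil) FT.nil))) (FT.cons (FT.cons (FT.cons (FT.leaf [(nat_lit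
 9022478)]) FT.nil) (FT.cons (FT.cons (FT.leaf [(nat_lit 9420418)]) FT.nil) FT.nil)) (FT.cons (FT.cons (FT.cons (FT.leaf [(nat_lit 9653005)]) FT.nil) FT.nil) (FT.cons (FT.cons (FT.cons (FT.leaf [(nat_lit 10250160)]) FT.nil) FT.nil) (FT.cons (FT.cons (FT.cons (FT.leaf [(nat_lit 10816624)]) FT.nil) FT.nil) FT.nil))))))))) (FT.cons (FT.cons (FT.cons (FT.cons (FT.leaf [(nat_lit 6984713), (nat_lit 7129345), (nat_lit 7277442), (nat_lit 7428041), (nat_lit 7580410), (nat_lit 7733976), (nat_lit 7888283), (nat_lit 8042959), (nat_lit 8197700), (nat_lit 8352255), (nat_lit 8506415)]) (FT.cons (FT.leaf [(nat_lit 7252558), (nat_lit 7400545), (nat_lit 7550815), (nat_lit 7702676), (nat_lit 7855588), (nat_lit 8009119), (nat_lit 8162921), (nat_lit 8316708), (nat_lit 8470243), (nat_lit 8623330)]) (FT.cons (FT.leaf [(nat_lit 7522970), (nat_lit 7672825), (nat_lit 7824110), (nat_lit 7976313), (nat_lit 8129027), (nat_lit 8281922), (nat_lit 8434730), (nat_lit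 8587226), (nat_lit 8739227)]) (FT.cons (FT.leaf [(nat_lit 7794038), (nat_lit 7944686), (nat_lit 8096133), (nat_lit 8247993), (nat_lit 8399953), (nat_lit 8551760), (nat_lit 8703204)]) (FT.cons (FT.leaf [(nat_lit 8064383), (nat_lit 8215034), (nat_lit
 8366007), (nat_lit 8517009), (nat_lit 8667799)]) (FT.cons (FT.leaf [(nat_lit 8333002), (nat_lit 8483064), (nat_lit 8633087), (nat_lit 8782846)]) (FT.cons (FT.leaf [(nat_lit 8599156), (nat_lit 8748185)]) (FT.cons (FT.leaf [(nat_lit 8862305)]) (FT.cons (FT.leaf [(nat_lit 9122054)]) FT.nil))))))))) (FT.cons (FT.cons (FT.leaf [(nat_lit 7422063), (nat_lit 7568878), (nat_lit 7717824), (nat_lit 7868240), (nat_lit 8019608), (nat_lit 8171515), (nat_lit 8323630), (nat_lit 8475680), (nat_lit 8627441), (nat_lit 8778729)]) (FT.cons (FT.leaf [(nat_lit 7689945), (nat_lit 7838423), (nat_lit 7988221), (nat_lit 8138849), (nat_lit 8289918), (nat_lit 8441113), (nat_lit 8592179), (nat_lit 8742902), (nat_lit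 8893108)]) (FT.cons (FT.leaf [(nat_lit 7958206), (nat_lit 8107334), (nat_lit 8257182), (nat_lit 8407381), (nat_lit 8557633), (nat_lit 8707695), (nat_lit 8857368)]) (FT.cons (FT.leaf [(nat_lit 8225563), (nat_lit 8374595), (nat_lit 8523896), (nat_lit 8673185), (nat_lit 8822230)]) (FT.cons (FT.leaf [(nat_lit 8491078), (nat_lit 8639460), (nat_lit 8787767), (nat_lit 8935784)]) (FT.cons (FT.leaf [(nat_lit 8754068), (nat_lit 8901381)]) (FT.cons (FT.leaf [(nat_lit 9014028)]) (FT.cons (FT.leaf [(nat_lit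
 9270597)]) FT.nil)))))))) (FT.cons (FT.cons (FT.leaf [(nat_lit 7854722), (nat_lit 8001797), (nat_lit 8150095), (nat_lit 8299145), (nat_lit 8448573), (nat_lit 8598079), (nat_lit 8747417), (nat_lit 8896388)]) (FT.cons (FT.leaf [(nat_lit 8120155), (nat_lit 8267755), (nat_lit 8416005), (nat_lit 8564551), (nat_lit 8713108), (nat_lit 8861444), (nat_lit 9009369)]) (FT.cons (FT.leaf [(nat_lit 8384528), (nat_lit 8531947), (nat_lit 8679587), (nat_lit 8827179), (nat_lit 8974500)]) (FT.cons (FT.leaf [(nat_lit 8646964), (nat_lit 8793680), (nat_lit 8940291), (nat_lit 9086589)]) (FT.cons (FT.leaf [(nat_lit 8906826), (nat_lit 9052446)]) (FT.cons (FT.leaf [(nat_lit 9163646)]) FT.nil)))))) (FT.cons (FT.cons (FT.leaf [(nat_lit 8279913), (nat_lit 8425982), (nat_lit 8572639), (nat_lit 8719543), (nat_lit 8866421)]) (FT.cons (FT.leaf [(nat_lit 8541313), (nat_lit 8687129), (nat_lit 8833123), (nat_lit 8979036)]) (FT.cons (FT.leaf [(nat_lit 8800700), (nat_lit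 8945767)]) (FT.cons (FT.leaf [(nat_lit 9057476)]) (FT.cons (FT.leaf [(nat_lit 9311207)]) FT.nil))))) (FT.cons (FT.cons (FT.leaf [(nat_lit 8695958), (nat_lit 8840180), (nat_lit 8984544)]) (FT.cons (FT.leaf [(nat_lit 8952328), (nat_lit 9095765)])
 (FT.cons (FT.leaf [(nat_lit 9206061)]) FT.nil))) (FT.cons (FT.cons (FT.leaf [(nat_lit 9101890)]) (FT.cons (FT.leaf [(nat_lit 9352626)]) FT.nil)) (FT.cons (FT.cons (FT.leaf [(nat_lit 9497215)]) FT.nil) FT.nil))))))) (FT.cons (FT.cons (FT.cons (FT.leaf [(nat_lit 7699554), (nat_lit 7843323), (nat_lit 7989114), (nat_lit 8136288), (nat_lit 8284355), (nat_lit 8432919), (nat_lit 8581665), (nat_lit 8730336), (nat_lit 8878720), (nat_lit 9026639)]) (FT.cons (FT.leaf [(nat_lit 7961590), (nat_lit 8106896), (nat_lit 8253450), (nat_lit 8400784), (nat_lit 8548524), (nat_lit 8696373), (nat_lit 8844086), (nat_lit 8991463), (nat_lit 9138338)]) (FT.cons (FT.leaf [(nat_lit 8223879), (nat_lit 8369765), (nat_lit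 8516329), (nat_lit 8663218), (nat_lit 8810149), (nat_lit 8956890), (nat_lit 9103250)]) (FT.cons (FT.leaf [(nat_lit 8485218), (nat_lit 8630982), (nat_lit 8776996), (nat_lit 8922990), (nat_lit 9068746)]) (FT.cons (FT.leaf [(nat_lit 8744735), (nat_lit 8889854), (nat_lit 9034898), (nat_lit 9179659)]) (FT.cons (FT.leaf [(nat_lit 9001790), (nat_lit 9145872)]) (FT.cons (FT.leaf [(nat_lit 9255915)]) FT.nil))))))) (FT.cons (FT.cons (FT.leaf [(nat_lit 8122258), (nat_lit 8266189), (nat_lit 8411280),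
 (nat_lit 8557080), (nat_lit 8703231), (nat_lit 8849449), (nat_lit 8995499), (nat_lit 9141188)]) (FT.cons (FT.leaf [(nat_lit 8381790), (nat_lit 8526191), (nat_lit 8671206), (nat_lit 8816498), (nat_lit 8961793), (nat_lit 9106872), (nat_lit 9251551)]) (FT.cons (FT.leaf [(nat_lit 8640239), (nat_lit 8784443), (nat_lit 8928854), (nat_lit 9073214), (nat_lit 9217311)]) (FT.cons (FT.leaf [(nat_lit 8896786), (nat_lit 9040299), (nat_lit 9183710), (nat_lit 9326818)]) (FT.cons (FT.leaf [(nat_lit 9150832), (nat_lit 9293285)]) (FT.cons (FT.leaf [(nat_lit 9401942)]) FT.nil)))))) (FT.cons (FT.cons (FT.leaf [(nat_lit 8537596), (nat_lit 8680510), (nat_lit 8823985), (nat_lit 8967691), (nat_lit 9111369)]) (FT.cons (FT.leaf [(nat_lit 8793171), (nat_lit 8935825), (nat_lit 9078648), (nat_lit 9221391)]) (FT.cons (FT.leaf [(nat_lit 9046778), (nat_lit 9188703)]) (FT.cons (FT.leaf [(nat_lit 9297857)]) (FT.cons (FT.leaf [(nat_lit 9545999)]) FT.nil))))) (FT.cons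 (FT.cons (FT.leaf [(nat_lit 8944050), (nat_lit 9085167), (nat_lit 9226419)]) (FT.cons (FT.leaf [(nat_lit 9194752), (nat_lit 9335108)]) (FT.cons (FT.leaf [(nat_lit 9442907)]) FT.nil))) (FT.cons (FT.cons (FT.leaf [(nat_lit 9340749)]) (FT.cons (FT.leaf
 [(nat_lit 9586023)]) FT.nil)) (FT.cons (FT.cons (FT.leaf [(nat_lit 9727249)]) FT.nil) FT.nil)))))) (FT.cons (FT.cons (FT.cons (FT.leaf [(nat_lit 8382617), (nat_lit 8523520), (nat_lit 8665526), (nat_lit 8808205), (nat_lit 8951214), (nat_lit 9094280)]) (FT.cons (FT.leaf [(nat_lit 8636478), (nat_lit 8777804), (nat_lit 8919716), (nat_lit 9061887), (nat_lit 9204059)]) (FT.cons (FT.leaf [(nat_lit 8889246), (nat_lit 9030366), (nat_lit 9171682), (nat_lit 9312946)]) (FT.cons (FT.leaf [(nat_lit 9140152), (nat_lit 9280597)]) FT.nil)))) (FT.cons (FT.cons (FT.leaf [(nat_lit 8788510), (nat_lit 8928396), (nat_lit 9068817), (nat_lit 9209459), (nat_lit 9350072)]) (FT.cons (FT.leaf [(nat_lit 9038501),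 (nat_lit 9178124), (nat_lit 9317909), (nat_lit 9457617)]) (FT.cons (FT.leaf [(nat_lit 9286574), (nat_lit 9425490)]) FT.nil))) (FT.cons (FT.cons (FT.leaf [(nat_lit 9185788), (nat_lit 9323928)]) (FT.cons (FT.leaf [(nat_lit 9431064)]) FT.nil)) (FT.cons (FT.cons (FT.leaf [(nat_lit 9573660)]) FT.nil) (FT.cons (FT.cons (FT.leaf [(nat_lit 9951724)]) FT.nil) FT.nil))))) (FT.cons (FT.cons (FT.cons (FT.leaf [(nat_lit 9032987), (nat_lit 9169965), (nat_lit 9307457)]) (FT.cons (FT.leaf [(nat_lit 9277624), (nat_lit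
 9414340)]) (FT.cons (FT.leaf [(nat_lit 9520397)]) FT.nil))) (FT.cons (FT.cons (FT.leaf [(nat_lit 9421481)]) (FT.cons (FT.leaf [(nat_lit 9661560)]) FT.nil)) (FT.cons (FT.cons (FT.leaf [(nat_lit 9800909)]) FT.nil) FT.nil))) (FT.cons (FT.cons (FT.cons (FT.leaf [(nat_lit 9651422)]) FT.nil) (FT.cons (FT.cons (FT.leaf [(nat_lit 10022765)]) FT.nil) FT.nil)) (FT.cons (FT.cons (FT.cons (FT.leaf [(nat_lit 10239479)]) FT.nil) FT.nil) (FT.cons (FT.cons (FT.cons (FT.leaf [(nat_lit 10799044)]) FT.nil) FT.nil) (FT.cons (FT.cons (FT.cons (FT.leaf [(nat_lit 11332095)]) FT.nil) FT.nil) FT.nil)))))))) (FT.cons (FT.cons (FT.cons (FT.cons (FT.leaf [(nat_lit 8419287), (nat_lit 8552703), (nat_lit 8688077), (nat_lit 8824829), (nat_lit 8962508), (nat_lit 9100756), (nat_lit 9239284), (nat_lit 9377857)]) (FT.cons (FT.leaf [(nat_lit 8662254), (nat_lit 8797264), (nat_lit 8933529), (nat_lit 9070619), (nat_lit 9208197), (nat_lit 9345987), (nat_lit 9483763)])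 (FT.cons (FT.leaf [(nat_lit 8905787), (nat_lit 9041522), (nat_lit 9177991), (nat_lit 9314871), (nat_lit 9451901)]) (FT.cons (FT.leaf [(nat_lit 9148795), (nat_lit 9284613), (nat_lit 9420773), (nat_lit 9557027)]) (FT.cons (FT.leaf [(nat_lit 9390478), (nat_lit
 9525898)]) (FT.cons (FT.leaf [(nat_lit 9630244)]) FT.nil)))))) (FT.cons (FT.cons (FT.leaf [(nat_lit 8810858), (nat_lit 8944729), (nat_lit 9079776), (nat_lit 9215583), (nat_lit 9351826), (nat_lit 9488239)]) (FT.cons (FT.leaf [(nat_lit 9052092), (nat_lit 9186585), (nat_lit 9321755), (nat_lit 9457290), (nat_lit 9592939)]) (FT.cons (FT.leaf [(nat_lit 9292672), (nat_lit 9427178), (nat_lit 9561985), (nat_lit 9696854)]) (FT.cons (FT.leaf [(nat_lit 9531847), (nat_lit 9665909)]) (FT.cons (FT.leaf [(nat_lit 9769059)]) FT.nil))))) (FT.cons (FT.cons (FT.leaf [(nat_lit 9196618), (nat_lit 9329866), (nat_lit 9463739), (nat_lit 9597935), (nat_lit 9732213)]) (FT.cons (FT.leaf [(nat_lit 9434778),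 (nat_lit 9567977), (nat_lit 9701439), (nat_lit 9834936)]) (FT.cons (FT.leaf [(nat_lit 9671463), (nat_lit 9804178)]) FT.nil))) (FT.cons (FT.cons (FT.leaf [(nat_lit 9575140), (nat_lit 9707037)]) (FT.cons (FT.leaf [(nat_lit 9809357)]) FT.nil)) (FT.cons (FT.cons (FT.leaf [(nat_lit 9945561)]) FT.nil) (FT.cons (FT.cons (FT.leaf [(nat_lit 10307396)]) FT.nil) FT.nil)))))) (FT.cons (FT.cons (FT.cons (FT.leaf [(nat_lit 9051283), (nat_lit 9182602), (nat_lit 9315044), (nat_lit 9448209), (nat_lit 9581785), (nat_lit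
 9715518)]) (FT.cons (FT.leaf [(nat_lit 9287731), (nat_lit 9419623), (nat_lit 9552161), (nat_lit 9685043), (nat_lit 9818029)]) (FT.cons (FT.leaf [(nat_lit 9523498), (nat_lit 9655384), (nat_lit 9787555), (nat_lit 9919782)]) (FT.cons (FT.leaf [(nat_lit 9757874), (nat_lit 9889319)]) FT.nil)))) (FT.cons (FT.cons (FT.leaf [(nat_lit 9429061), (nat_lit 9559741), (nat_lit 9691018), (nat_lit 9822603), (nat_lit 9954262)]) (FT.cons (FT.leaf [(nat_lit 9662479), (nat_lit 9793096), (nat_lit 9923965), (nat_lit 10054864)]) (FT.cons (FT.leaf [(nat_lit 9894445), (nat_lit 10024585)]) FT.nil))) (FT.cons (FT.cons (FT.leaf [(nat_lit 9799780), (nat_lit 9929136)]) (FT.cons (FT.leaf [(nat_lit 10029359)]) FT.nil)) (FT.cons (FT.cons (FT.leaf [(nat_lit 10162645)]) FT.nil) (FT.cons (FT.cons (FT.leaf [(nat_lit 10517218)]) FT.nil) FT.nil))))) (FT.cons (FT.cons (FT.cons (FT.leaf [(nat_lit 9656050), (nat_lit 9784252), (nat_lit 9913027)]) (FT.cons (FT.leaf [(nat_lit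 9884899), (nat_lit 10013029)]) (FT.cons (FT.leaf [(nat_lit 10112324)]) FT.nil))) (FT.cons (FT.cons (FT.leaf [(nat_lit 10019264)]) (FT.cons (FT.leaf [(nat_lit 10244381)]) FT.nil)) (FT.cons (FT.cons (FT.leaf [(nat_lit 10374871)]) FT.nil) FT.nil)))
 (FT.cons (FT.cons (FT.cons (FT.leaf [(nat_lit 10233820)]) FT.nil) (FT.cons (FT.cons (FT.leaf [(nat_lit 10582449)]) FT.nil) FT.nil)) (FT.cons (FT.cons (FT.cons (FT.leaf [(nat_lit 10785575)]) FT.nil) FT.nil) (FT.cons (FT.cons (FT.cons (FT.leaf [(nat_lit 11312656)]) FT.nil) FT.nil) FT.nil)))))) (FT.cons (FT.cons (FT.cons (FT.cons (FT.leaf [(nat_lit 9667774), (nat_lit 9790969), (nat_lit 9915284), (nat_lit 10040350), (nat_lit 10165877)]) (FT.cons (FT.leaf [(nat_lit 9889454), (nat_lit 10013318), (nat_lit 10137861), (nat_lit 10262803)]) (FT.cons (FT.leaf [(nat_lit 10110748), (nat_lit 10234745)]) (FT.cons (FT.leaf [(nat_lit 10330997)]) FT.nil)))) (FT.cons (FT.cons (FT.leaf [(nat_lit 10021701),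 (nat_lit 10144526), (nat_lit 10267985)]) (FT.cons (FT.leaf [(nat_lit 10240973), (nat_lit 10363876)]) (FT.cons (FT.leaf [(nat_lit 10459139)]) FT.nil))) (FT.cons (FT.cons (FT.leaf [(nat_lit 10369740)]) (FT.cons (FT.leaf [(nat_lit 10585839)]) FT.nil)) (FT.cons (FT.cons (FT.leaf [(nat_lit 10711121)]) FT.nil) FT.nil)))) (FT.cons (FT.cons (FT.cons (FT.leaf [(nat_lit 10233831), (nat_lit 10354512), (nat_lit 10475801)]) (FT.cons (FT.leaf [(nat_lit 10449144), (nat_lit 10569888)]) (FT.cons (FT.leaf [(nat_lit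
 10663363)]) FT.nil))) (FT.cons (FT.cons (FT.leaf [(nat_lit 10575363)]) (FT.cons (FT.leaf [(nat_lit 10787575)]) FT.nil)) (FT.cons (FT.cons (FT.leaf [(nat_lit 10910418)]) FT.nil) FT.nil))) (FT.cons (FT.cons (FT.cons (FT.leaf [(nat_lit 10776703)]) FT.nil) (FT.cons (FT.cons (FT.leaf [(nat_lit 11105654)]) FT.nil) FT.nil)) (FT.cons (FT.cons (FT.cons (FT.leaf [(nat_lit 11296991)]) FT.nil) FT.nil) FT.nil)))) (FT.cons (FT.cons (FT.cons (FT.cons (FT.leaf [(nat_lit 10773036)]) FT.nil) FT.nil) (FT.cons (FT.cons (FT.cons (FT.leaf [(nat_lit 11285556)]) FT.nil) FT.nil) FT.nil)) (FT.cons (FT.cons (FT.cons (FT.cons (FT.leaf [(nat_lit 11764748)]) FT.nil) FT.nil) FT.nil) (FT.cons (FT.cons (FT.cons (FT.cons (FT.leaf [(nat_lit 12664246)]) FT.nil) FT.nil) FT.nil) FT.nil))))))))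

def f160_1_600 : FT := (FT.cons (FT.cons (FT.cons (FT.cons (FT.leaf [(nat_lit 3888381), (nat_lit 4044398), (nat_lit 4211765), (nat_lit 4387527), (nat_lit 4569547), (nat_lit 4756198), (nat_lit 4946208), (nat_lit 5138555), (nat_lit 5332414), (nat_lit 5527107), (nat_lit 5722078), (nat_lit 5916867), (nat_lit 6111095)]) (FT.cons (FT.leaf [(nat_lit 4196534), (nat_lit 4366020), (nat_lit 4543113), (nat_lit 4725821), (nat_lit 4912636), (nat_lit 5102379), (nat_lit 5294108), (nat_lit 5487058), (nat_lit 5680607), (nat_lit 5874243), (nat_lit 6067544), (nat_lit 6260160)]) (FT.cons (FT.leaf [(nat_lit 4520399), (nat_lit 4698429), (nat_lit 4881512), (nat_lit 5068238), (nat_lit 5257513), (nat_lit 5448462), (nat_lit 5640378), (nat_lit 5832686), (nat_lit 6024912), (nat_lit 6216669)]) (FT.cons (FT.leaf [(nat_lit 4853272), (nat_lit 5036459), (nat_lit 5222882), (nat_lit 5411516), (nat_lit 5601547), (nat_lit 5792322), (nat_lit 5983306), (nat_lit 6174061),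 (nat_lit 6364231)]) (FT.cons (FT.leaf [(nat_lit 5190530), (nat_lit 5376462), (nat_lit 5564307), (nat_lit 5753307), (nat_lit 5942849), (nat_lit 6132441), (nat_lit 6321675)]) (FT.cons (FT.leaf [(nat_lit 5528895), (nat_lit 5715825), (nat_lit 5903693), (nat_lit 6091928), (nat_lit
 6280071)]) (FT.cons (FT.leaf [(nat_lit 5866017), (nat_lit 6052670), (nat_lit 6239536), (nat_lit 6426183)]) (FT.cons (FT.leaf [(nat_lit 6200211), (nat_lit 6385653)]) (FT.cons (FT.leaf [(nat_lit 6530272)]) (FT.cons (FT.leaf [(nat_lit 6855355)]) FT.nil)))))))))) (FT.cons (FT.cons (FT.leaf [(nat_lit 4416818), (nat_lit 4586227), (nat_lit 4762675), (nat_lit 4944257), (nat_lit 5129546), (nat_lit 5317431), (nat_lit 5507032), (nat_lit 5697638), (nat_lit 5888671), (nat_lit 6079657), (nat_lit 6270208)]) (FT.cons (FT.leaf [(nat_lit 4739368), (nat_lit 4916451), (nat_lit 5098164), (nat_lit 5283172), (nat_lit 5470439), (nat_lit 5659146), (nat_lit 5848635), (nat_lit 6038367),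 (nat_lit 6227908), (nat_lit 6416895)]) (FT.cons (FT.leaf [(nat_lit 5069595), (nat_lit 5251209), (nat_lit 5435750), (nat_lit 5622253), (nat_lit 5809951), (nat_lit 5998233), (nat_lit 6186598), (nat_lit 6374642), (nat_lit 6562030)]) (FT.cons (FT.leaf [(nat_lit 5403280), (nat_lit 5587198), (nat_lit 5772810), (nat_lit 5959402), (nat_lit 6146401), (nat_lit 6333342), (nat_lit 6519848)]) (FT.cons (FT.leaf [(nat_lit 5737445), (nat_lit 5922060), (nat_lit 6107462), (nat_lit 6293116), (nat_lit 6478587)]) (FT.cons (FT.leaf [(nat_lit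
 6069962), (nat_lit 6254105), (nat_lit 6438361), (nat_lit 6622326)]) (FT.cons (FT.leaf [(nat_lit 6399310), (nat_lit 6582126)]) (FT.cons (FT.leaf [(nat_lit 6724406)]) (FT.cons (FT.leaf [(nat_lit 7044492)]) FT.nil))))))))) (FT.cons (FT.cons (FT.leaf [(nat_lit 4955457), (nat_lit 5131361), (nat_lit 5311527), (nat_lit 5494682), (nat_lit 5679848), (nat_lit 5866253), (nat_lit 6053280), (nat_lit 6240429), (nat_lit 6427291), (nat_lit 6613534)]) (FT.cons (FT.leaf [(nat_lit 5282696), (nat_lit 5462593), (nat_lit 5645150), (nat_lit 5829452), (nat_lit 6014776), (nat_lit 6200546), (nat_lit 6386295), (nat_lit 6571647), (nat_lit 6756290)]) (FT.cons (FT.leaf [(nat_lit 5612611), (nat_lit 5794436), (nat_lit 5977767), (nat_lit 6161928), (nat_lit 6346377), (nat_lit 6530683), (nat_lit 6714492)]) (FT.cons (FT.leaf [(nat_lit 5942483), (nat_lit 6124753), (nat_lit 6307680), (nat_lit 6490759), (nat_lit 6673584)]) (FT.cons (FT.leaf [(nat_lit 6270379), (nat_lit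 6452015), (nat_lit 6633681), (nat_lit 6814994)]) (FT.cons (FT.leaf [(nat_lit 6594917), (nat_lit 6775134)]) (FT.cons (FT.leaf [(nat_lit 6915120)]) (FT.cons (FT.leaf [(nat_lit 7230305)]) FT.nil)))))))) (FT.cons (FT.cons (FT.leaf [(nat_lit 5492522),
 (nat_lit 5670593), (nat_lit 5851091), (nat_lit 6033144), (nat_lit 6216069), (nat_lit 6399326), (nat_lit 6582476), (nat_lit 6765164)]) (FT.cons (FT.leaf [(nat_lit 5818525), (nat_lit 5998203), (nat_lit 6179221), (nat_lit 6360941), (nat_lit 6542853), (nat_lit 6724546), (nat_lit 6905691)]) (FT.cons (FT.leaf [(nat_lit 6144051), (nat_lit 6323959), (nat_lit 6504414), (nat_lit 6684937), (nat_lit 6865146)]) (FT.cons (FT.leaf [(nat_lit 6467331), (nat_lit 6646473), (nat_lit 6825574), (nat_lit 7004274)]) (FT.cons (FT.leaf [(nat_lit 6787110), (nat_lit 6964761)]) (FT.cons (FT.leaf [(nat_lit 7102499)]) FT.nil)))))) (FT.cons (FT.cons (FT.leaf [(nat_lit 6021043), (nat_lit 6198537), (nat_lit 6377229),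 (nat_lit 6556511), (nat_lit 6735901)]) (FT.cons (FT.leaf [(nat_lit 6342197), (nat_lit 6519740), (nat_lit 6697736), (nat_lit 6875729)]) (FT.cons (FT.leaf [(nat_lit 6660889), (nat_lit 6837557)]) (FT.cons (FT.leaf [(nat_lit 6975970)]) (FT.cons (FT.leaf [(nat_lit 7286634)]) FT.nil))))) (FT.cons (FT.cons (FT.leaf [(nat_lit 6536979), (nat_lit 6712165), (nat_lit 6887721)]) (FT.cons (FT.leaf [(nat_lit 6851123), (nat_lit 7025346)]) (FT.cons (FT.leaf [(nat_lit 7161579)]) FT.nil))) (FT.cons (FT.cons (FT.leaf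
 [(nat_lit 7038112)]) (FT.cons (FT.leaf [(nat_lit 7344020)]) FT.nil)) (FT.cons (FT.cons (FT.leaf [(nat_lit 7523377)]) FT.nil) (FT.cons (FT.cons (FT.leaf [(nat_lit 7992429)]) FT.nil) FT.nil))))))))) (FT.cons (FT.cons (FT.cons (FT.leaf [(nat_lit 4792408), (nat_lit 4958298), (nat_lit 5130737), (nat_lit 5307906), (nat_lit 5488459), (nat_lit 5671355), (nat_lit 5855777), (nat_lit 6041067), (nat_lit 6226692), (nat_lit 6412215), (nat_lit 6597283)]) (FT.cons (FT.leaf [(nat_lit 5107433), (nat_lit 5280300), (nat_lit 5457446), (nat_lit 5637609), (nat_lit 5819819), (nat_lit 6003311), (nat_lit 6187474), (nat_lit 6371815), (nat_lit 6555928), (nat_lit 6739484)]) (FT.cons (FT.leaf [(nat_lit 5429148), (nat_lit 5606074), (nat_lit 5785691), (nat_lit 5967091), (nat_lit 6149558), (nat_lit 6332523), (nat_lit 6515524), (nat_lit 6698186), (nat_lit 6880202)]) (FT.cons (FT.leaf [(nat_lit 5753701), (nat_lit 5932639), (nat_lit 6113123), (nat_lit 6294484),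 (nat_lit 6476188), (nat_lit 6657804), (nat_lit 6838983)]) (FT.cons (FT.leaf [(nat_lit 6078398), (nat_lit 6257877), (nat_lit 6438062), (nat_lit 6618454), (nat_lit 6798648)]) (FT.cons (FT.leaf [(nat_lit 6401320), (nat_lit 6580272), (nat_lit 6759309), (nat_lit
 6938051)]) (FT.cons (FT.leaf [(nat_lit 6721100), (nat_lit 6898747)]) (FT.cons (FT.leaf [(nat_lit 7036764)]) (FT.cons (FT.leaf [(nat_lit 7347630)]) FT.nil))))))))) (FT.cons (FT.cons (FT.leaf [(nat_lit 5316951), (nat_lit 5488527), (nat_lit 5664064), (nat_lit 5842355), (nat_lit 6022481), (nat_lit 6203719), (nat_lit 6385496), (nat_lit 6567347), (nat_lit 6748894), (nat_lit 6929829)]) (FT.cons (FT.leaf [(nat_lit 5635555), (nat_lit 5810735), (nat_lit 5988375), (nat_lit 6167613), (nat_lit 6347771), (nat_lit 6528312), (nat_lit 6708802), (nat_lit 6888890), (nat_lit 7068289)]) (FT.cons (FT.leaf [(nat_lit 5956350), (nat_lit 6133225), (nat_lit 6311484), (nat_lit 6490493), (nat_lit 6669747),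 (nat_lit 6848839), (nat_lit 7027443)]) (FT.cons (FT.leaf [(nat_lit 6276859), (nat_lit 6454064), (nat_lit 6631865), (nat_lit 6809789), (nat_lit 6987454)]) (FT.cons (FT.leaf [(nat_lit 6595329), (nat_lit 6771874), (nat_lit 6948432), (nat_lit 7124647)]) (FT.cons (FT.leaf [(nat_lit 6910509), (nat_lit 7085674)]) (FT.cons (FT.leaf [(nat_lit 7221515)]) (FT.cons (FT.leaf [(nat_lit 7527730)]) FT.nil)))))))) (FT.cons (FT.cons (FT.leaf [(nat_lit 5838775), (nat_lit 6012127), (nat_lit 6187738), (nat_lit 6364785),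
 (nat_lit 6542624), (nat_lit 6720748), (nat_lit 6898749), (nat_lit 7076295)]) (FT.cons (FT.leaf [(nat_lit 6155714), (nat_lit 6330490), (nat_lit 6506508), (nat_lit 6683166), (nat_lit 6859986), (nat_lit 7036583), (nat_lit 7212649)]) (FT.cons (FT.leaf [(nat_lit 6472010), (nat_lit 6646936), (nat_lit 6822363), (nat_lit 6997843), (nat_lit 7173013)]) (FT.cons (FT.leaf [(nat_lit 6786049), (nat_lit 6960206), (nat_lit 7134316), (nat_lit 7308041)]) (FT.cons (FT.leaf [(nat_lit 7096687), (nat_lit 7269407)]) (FT.cons (FT.leaf [(nat_lit 7403117)]) FT.nil)))))) (FT.cons (FT.cons (FT.leaf [(nat_lit 6351826), (nat_lit 6524481), (nat_lit 6698255), (nat_lit 6872573), (nat_lit 7046981)]) (FT.cons (FT.leaf [(nat_lit 6663903), (nat_lit 6836557), (nat_lit 7009630), (nat_lit 7182693)]) (FT.cons (FT.leaf [(nat_lit 6973550), (nat_lit 7145344)]) (FT.cons (FT.leaf [(nat_lit 7279714)]) (FT.cons (FT.leaf [(nat_lit 7581654)]) FT.nil))))) (FT.cons (FT.cons (FT.leaf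 [(nat_lit 6852602), (nat_lit 7022996), (nat_lit 7193738)]) (FT.cons (FT.leaf [(nat_lit 7157905), (nat_lit 7327365)]) (FT.cons (FT.leaf [(nat_lit 7459667)]) FT.nil))) (FT.cons (FT.cons (FT.leaf [(nat_lit 7339188)]) (FT.cons (FT.leaf [(nat_lit 7636626)])
 FT.nil)) (FT.cons (FT.cons (FT.leaf [(nat_lit 7810668)]) FT.nil) (FT.cons (FT.cons (FT.leaf [(nat_lit 8266762)]) FT.nil) FT.nil)))))))) (FT.cons (FT.cons (FT.cons (FT.leaf [(nat_lit 5665888), (nat_lit 5833227), (nat_lit 6004272), (nat_lit 6177875), (nat_lit 6353170), (nat_lit 6529478), (nat_lit 6706259), (nat_lit 6883082), (nat_lit 7059594), (nat_lit 7235507)]) (FT.cons (FT.leaf [(nat_lit 5976108), (nat_lit 6146733), (nat_lit 6319654), (nat_lit 6494052), (nat_lit 6669291), (nat_lit 6844866), (nat_lit 7020371), (nat_lit 7195478), (nat_lit 7369918)]) (FT.cons (FT.leaf [(nat_lit 6288146), (nat_lit 6460284), (nat_lit 6633709), (nat_lit 6807821), (nat_lit 6982146), (nat_lit 7156303),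 (nat_lit 7329984)]) (FT.cons (FT.leaf [(nat_lit 6599729), (nat_lit 6772116), (nat_lit 6945052), (nat_lit 7118091), (nat_lit 7290876)]) (FT.cons (FT.leaf [(nat_lit 6909255), (nat_lit 7080974), (nat_lit 7252699), (nat_lit 7424091)]) (FT.cons (FT.leaf [(nat_lit 7215581), (nat_lit 7385968)]) (FT.cons (FT.leaf [(nat_lit 7517901)]) FT.nil))))))) (FT.cons (FT.cons (FT.leaf [(nat_lit 6173040), (nat_lit 6341860), (nat_lit 6512797), (nat_lit 6685070), (nat_lit 6858074), (nat_lit 7031330), (nat_lit 7204455), (nat_lit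
 7377137)]) (FT.cons (FT.leaf [(nat_lit 6481309), (nat_lit 6651408), (nat_lit 6822670), (nat_lit 6994524), (nat_lit 7166518), (nat_lit 7338293), (nat_lit 7509557)]) (FT.cons (FT.leaf [(nat_lit 6788825), (nat_lit 6959020), (nat_lit 7129681), (nat_lit 7300385), (nat_lit 7470791)]) (FT.cons (FT.leaf [(nat_lit 7094107), (nat_lit 7263542), (nat_lit 7432931), (nat_lit 7601953)]) (FT.cons (FT.leaf [(nat_lit 7396103), (nat_lit 7564158)]) (FT.cons (FT.leaf [(nat_lit 7694071)]) FT.nil)))))) (FT.cons (FT.cons (FT.leaf [(nat_lit 6671367), (nat_lit 6839415), (nat_lit 7008517), (nat_lit 7178128), (nat_lit 7347819)]) (FT.cons (FT.leaf [(nat_lit 6974826), (nat_lit 7142840), (nat_lit 7311249), (nat_lit 7479648)]) (FT.cons (FT.leaf [(nat_lit 7275908), (nat_lit 7443087)]) (FT.cons (FT.leaf [(nat_lit 7573641)]) (FT.cons (FT.leaf [(nat_lit 7867343)]) FT.nil))))) (FT.cons (FT.cons (FT.leaf [(nat_lit 7157794), (nat_lit 7323643), (nat_lit 7489827)]) (FT.cons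 (FT.leaf [(nat_lit 7454729), (nat_lit 7619682)]) (FT.cons (FT.leaf [(nat_lit 7748272)]) FT.nil))) (FT.cons (FT.cons (FT.leaf [(nat_lit 7630640)]) (FT.cons (FT.leaf [(nat_lit 7920071)]) FT.nil)) (FT.cons (FT.cons (FT.leaf [(nat_lit 8089111)]) FT.nil)
 FT.nil)))))) (FT.cons (FT.cons (FT.cons (FT.leaf [(nat_lit 6496030), (nat_lit 6660506), (nat_lit 6826981), (nat_lit 6994710), (nat_lit 7163120), (nat_lit 7331759)]) (FT.cons (FT.leaf [(nat_lit 6796023), (nat_lit 6961665), (nat_lit 7128404), (nat_lit 7295698), (nat_lit 7463120)]) (FT.cons (FT.leaf [(nat_lit 7095196), (nat_lit 7260897), (nat_lit 7427039), (nat_lit 7593220)]) (FT.cons (FT.leaf [(nat_lit 7392177), (nat_lit 7557139)]) FT.nil)))) (FT.cons (FT.cons (FT.leaf [(nat_lit 6980361), (nat_lit 7144026), (nat_lit 7308691), (nat_lit 7473838), (nat_lit 7639059)]) (FT.cons (FT.leaf [(nat_lit 7275639), (nat_lit 7439250), (nat_lit 7603239), (nat_lit 7767221)]) (FT.cons (FT.leaf [(nat_lit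 7568608), (nat_lit 7731415)]) FT.nil))) (FT.cons (FT.cons (FT.leaf [(nat_lit 7453202), (nat_lit 7614743)]) (FT.cons (FT.leaf [(nat_lit 7742214)]) FT.nil)) (FT.cons (FT.cons (FT.leaf [(nat_lit 7913062)]) FT.nil) (FT.cons (FT.cons (FT.leaf [(nat_lit 8359238)]) FT.nil) FT.nil))))) (FT.cons (FT.cons (FT.cons (FT.leaf [(nat_lit 7279453), (nat_lit 7438945), (nat_lit 7599396)]) (FT.cons (FT.leaf [(nat_lit 7566963), (nat_lit 7726395)]) (FT.cons (FT.leaf [(nat_lit 7852242)]) FT.nil))) (FT.cons (FT.cons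
 (FT.leaf [(nat_lit 7739425)]) (FT.cons (FT.leaf [(nat_lit 8020928)]) FT.nil)) (FT.cons (FT.cons (FT.leaf [(nat_lit 8186999)]) FT.nil) FT.nil))) (FT.cons (FT.cons (FT.cons (FT.leaf [(nat_lit 8017018)]) FT.nil) (FT.cons (FT.cons (FT.leaf [(nat_lit 8452948)]) FT.nil) FT.nil)) (FT.cons (FT.cons (FT.cons (FT.leaf [(nat_lit 8711365)]) FT.nil) FT.nil) (FT.cons (FT.cons (FT.cons (FT.leaf [(nat_lit 9365802)]) FT.nil) FT.nil) (FT.cons (FT.cons (FT.cons (FT.leaf [(nat_lit 9983703)]) FT.nil) FT.nil) FT.nil))))))))) (FT.cons (FT.cons (FT.cons (FT.cons (FT.leaf [(nat_lit 5801659), (nat_lit 5951191), (nat_lit 6106682), (nat_lit 6266536), (nat_lit 6429574), (nat_lit 6594889), (nat_lit 6761768), (nat_lit 6929638), (nat_lit 7098034), (nat_lit 7266572), (nat_lit 7434937)]) (FT.cons (FT.leaf [(nat_lit 6085148), (nat_lit 6241132), (nat_lit 6401096), (nat_lit 6563935), (nat_lit 6728800), (nat_lit 6895022), (nat_lit 7062067), (nat_lit 7229497), (nat_lit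 7396958), (nat_lit 7564154)]) (FT.cons (FT.leaf [(nat_lit 6375067), (nat_lit 6534979), (nat_lit 6697488), (nat_lit 6861797), (nat_lit 7027280), (nat_lit 7193433), (nat_lit 7359849), (nat_lit 7526194), (nat_lit 7692194)]) (FT.cons (FT.leaf [(nat_lit
 6668109), (nat_lit 6830175), (nat_lit 6993839), (nat_lit 7158510), (nat_lit 7323715), (nat_lit 7489074), (nat_lit 7654271)]) (FT.cons (FT.leaf [(nat_lit 6961949), (nat_lit 7124888), (nat_lit 7288686), (nat_lit 7452896), (nat_lit 7617160)]) (FT.cons (FT.leaf [(nat_lit 7254916), (nat_lit 7417787), (nat_lit 7580962), (nat_lit 7744102)]) (FT.cons (FT.leaf [(nat_lit 7545799), (nat_lit 7707904)]) (FT.cons (FT.leaf [(nat_lit 7833714)]) (FT.cons (FT.leaf [(nat_lit 8118024)]) FT.nil))))))))) (FT.cons (FT.cons (FT.leaf [(nat_lit 6272778), (nat_lit 6427827), (nat_lit 6586592), (nat_lit 6748012), (nat_lit 6911278), (nat_lit 7075755), (nat_lit 7240937), (nat_lit 7406412), (nat_lit 7571845), (nat_lit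 7736959)]) (FT.cons (FT.leaf [(nat_lit 6560355), (nat_lit 6718952), (nat_lit 6879953), (nat_lit 7042594), (nat_lit 7206280), (nat_lit 7370534), (nat_lit 7534970), (nat_lit 7699273), (nat_lit 7863185)]) (FT.cons (FT.leaf [(nat_lit 6850513), (nat_lit 7010994), (nat_lit 7172933), (nat_lit 7335765), (nat_lit 7499043), (nat_lit 7662403), (nat_lit 7825551)]) (FT.cons (FT.leaf [(nat_lit 7141096), (nat_lit 7302263), (nat_lit 7464189), (nat_lit 7626450), (nat_lit 7788704)]) (FT.cons (FT.leaf [(nat_lit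
 7430564), (nat_lit 7591537), (nat_lit 7752747), (nat_lit 7913870)]) (FT.cons (FT.leaf [(nat_lit 7717797), (nat_lit 7877926)]) (FT.cons (FT.leaf [(nat_lit 8001983)]) (FT.cons (FT.leaf [(nat_lit 8282537)]) FT.nil)))))))) (FT.cons (FT.cons (FT.leaf [(nat_lit 6743145), (nat_lit 6900356), (nat_lit 7059797), (nat_lit 7220738), (nat_lit 7382610), (nat_lit 7544960), (nat_lit 7707423), (nat_lit 7869700)]) (FT.cons (FT.leaf [(nat_lit 7030326), (nat_lit 7189185), (nat_lit 7349377), (nat_lit 7510362), (nat_lit 7671715), (nat_lit 7833089), (nat_lit 7994206)]) (FT.cons (FT.leaf [(nat_lit 7317617), (nat_lit 7476998), (nat_lit 7637051), (nat_lit 7797371), (nat_lit 7957632)]) (FT.cons (FT.leaf [(nat_lit 7603584), (nat_lit 7762665), (nat_lit 7921923), (nat_lit 8081051)]) (FT.cons (FT.leaf [(nat_lit 7887196), (nat_lit 8045367)]) (FT.cons (FT.leaf [(nat_lit 8167701)]) FT.nil)))))) (FT.cons (FT.cons (FT.leaf [(nat_lit 7207566), (nat_lit 7364776),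 (nat_lit 7523207), (nat_lit 7682344), (nat_lit 7841780)]) (FT.cons (FT.leaf [(nat_lit 7491542), (nat_lit 7649133), (nat_lit 7807318), (nat_lit 7965710)]) (FT.cons (FT.leaf [(nat_lit 7774023), (nat_lit 7931222)]) (FT.cons (FT.leaf [(nat_lit 8054049)]) (FT.cons
 (FT.leaf [(nat_lit 8330926)]) FT.nil))))) (FT.cons (FT.cons (FT.leaf [(nat_lit 7662911), (nat_lit 7818712), (nat_lit 7975039)]) (FT.cons (FT.leaf [(nat_lit 7941926), (nat_lit 8097257)]) (FT.cons (FT.leaf [(nat_lit 8218409)]) FT.nil))) (FT.cons (FT.cons (FT.leaf [(nat_lit 8107344)]) (FT.cons (FT.leaf [(nat_lit 8380329)]) FT.nil)) (FT.cons (FT.cons (FT.leaf [(nat_lit 8539865)]) FT.nil) FT.nil))))))) (FT.cons (FT.cons (FT.cons (FT.leaf [(nat_lit 6584305), (nat_lit 6736055), (nat_lit 6891307), (nat_lit 7049046), (nat_lit 7208503), (nat_lit 7369075), (nat_lit 7530286), (nat_lit 7691747), (nat_lit 7853145), (nat_lit 8014218)]) (FT.cons (FT.leaf [(nat_lit 6865325), (nat_lit 7020351),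 (nat_lit 7177634), (nat_lit 7336447), (nat_lit 7496226), (nat_lit 7656520), (nat_lit 7816963), (nat_lit 7977262), (nat_lit 8137171)]) (FT.cons (FT.leaf [(nat_lit 7148590), (nat_lit 7305330), (nat_lit 7463432), (nat_lit 7622363), (nat_lit 7781698), (nat_lit 7941094), (nat_lit 8100271)]) (FT.cons (FT.leaf [(nat_lit 7432102), (nat_lit 7589434), (nat_lit 7747471), (nat_lit 7905812), (nat_lit 8064133)]) (FT.cons (FT.leaf [(nat_lit 7714432), (nat_lit 7871536), (nat_lit 8028854), (nat_lit 8186079)]) (FT.cons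
 (FT.leaf [(nat_lit 7994550), (nat_lit 8150820)]) (FT.cons (FT.leaf [(nat_lit 8271707)]) FT.nil))))))) (FT.cons (FT.cons (FT.leaf [(nat_lit 7043159), (nat_lit 7196800), (nat_lit 7352544), (nat_lit 7509693), (nat_lit 7667708), (nat_lit 7826159), (nat_lit 7984700), (nat_lit 8143049)]) (FT.cons (FT.leaf [(nat_lit 7323489), (nat_lit 7478637), (nat_lit 7635037), (nat_lit 7792178), (nat_lit 7949653), (nat_lit 8107137), (nat_lit 8264364)]) (FT.cons (FT.leaf [(nat_lit 7603792), (nat_lit 7759391), (nat_lit 7915618), (nat_lit 8072088), (nat_lit 8228494)]) (FT.cons (FT.leaf [(nat_lit 7882741), (nat_lit 8038020), (nat_lit 8193460), (nat_lit 8348769)]) (FT.cons (FT.leaf [(nat_lit 8159377), (nat_lit 8313766)]) (FT.cons (FT.leaf [(nat_lit 8433006)]) FT.nil)))))) (FT.cons (FT.cons (FT.leaf [(nat_lit 7495910), (nat_lit 7649447), (nat_lit 7804138), (nat_lit 7959492), (nat_lit 8115120)]) (FT.cons (FT.leaf [(nat_lit 7772997), (nat_lit 7926862), (nat_lit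 8081287), (nat_lit 8235902)]) (FT.cons (FT.leaf [(nat_lit 8048583), (nat_lit 8202049)]) (FT.cons (FT.leaf [(nat_lit 8321775)]) (FT.cons (FT.leaf [(nat_lit 8591929)]) FT.nil))))) (FT.cons (FT.cons (FT.leaf [(nat_lit 7939755), (nat_lit 8091891), (nat_lit
 8244525)]) (FT.cons (FT.leaf [(nat_lit 8212005), (nat_lit 8363674)]) (FT.cons (FT.leaf [(nat_lit 8481797)]) FT.nil))) (FT.cons (FT.cons (FT.leaf [(nat_lit 8373054)]) (FT.cons (FT.leaf [(nat_lit 8639494)]) FT.nil)) (FT.cons (FT.cons (FT.leaf [(nat_lit 8794919)]) FT.nil) FT.nil)))))) (FT.cons (FT.cons (FT.cons (FT.leaf [(nat_lit 7334266), (nat_lit 7484456), (nat_lit 7636640), (nat_lit 7790150), (nat_lit 7944470), (nat_lit 8099191)]) (FT.cons (FT.leaf [(nat_lit 7608000), (nat_lit 7759582), (nat_lit 7912348), (nat_lit 8065810), (nat_lit 8219581)]) (FT.cons (FT.leaf [(nat_lit 7881609), (nat_lit 8033586), (nat_lit 8186155), (nat_lit 8338951)]) (FT.cons (FT.leaf [(nat_lit 8153852), (nat_lit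 8305498)]) FT.nil)))) (FT.cons (FT.cons (FT.leaf [(nat_lit 7775831), (nat_lit 7925845), (nat_lit 8076955), (nat_lit 8228692), (nat_lit 8380684)]) (FT.cons (FT.leaf [(nat_lit 8046325), (nat_lit 8196627), (nat_lit 8347458), (nat_lit 8498470)]) (FT.cons (FT.leaf [(nat_lit 8315329), (nat_lit 8465231)]) FT.nil))) (FT.cons (FT.cons (FT.leaf [(nat_lit 8208700), (nat_lit 8357333)]) (FT.cons (FT.leaf [(nat_lit 8474495)]) FT.nil)) (FT.cons (FT.cons (FT.leaf [(nat_lit 8631396)]) FT.nil) (FT.cons (FT.cons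
 (FT.leaf [(nat_lit 9043116)]) FT.nil) FT.nil))))) (FT.cons (FT.cons (FT.cons (FT.leaf [(nat_lit 8047782), (nat_lit 8194414), (nat_lit 8342096)]) (FT.cons (FT.leaf [(nat_lit 8311965), (nat_lit 8458857)]) (FT.cons (FT.leaf [(nat_lit 8574682)]) FT.nil))) (FT.cons (FT.cons (FT.leaf [(nat_lit 8470172)]) (FT.cons (FT.leaf [(nat_lit 8729803)]) FT.nil)) (FT.cons (FT.cons (FT.leaf [(nat_lit 8882762)]) FT.nil) FT.nil))) (FT.cons (FT.cons (FT.cons (FT.leaf [(nat_lit 8724565)]) FT.nil) (FT.cons (FT.cons (FT.leaf [(nat_lit 9127516)]) FT.nil) FT.nil)) (FT.cons (FT.cons (FT.cons (FT.leaf [(nat_lit 9365996)]) FT.nil) FT.nil) (FT.cons (FT.cons (FT.cons (FT.leaf [(nat_lit 9974165)]) FT.nil) FT.nil) (FT.cons (FT.cons (FT.cons (FT.leaf [(nat_lit 10551415)]) FT.nil) FT.nil) FT.nil)))))))) (FT.cons (FT.cons (FT.cons (FT.cons (FT.leaf [(nat_lit 7402519), (nat_lit 7541941), (nat_lit 7684663), (nat_lit 7829770), (nat_lit 7976573), (nat_lit 8124529), (nat_lit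 8273209), (nat_lit 8422263)]) (FT.cons (FT.leaf [(nat_lit 7660429), (nat_lit 7803041), (nat_lit 7947836), (nat_lit 8094162), (nat_lit 8241507), (nat_lit 8389465), (nat_lit 8537708)]) (FT.cons (FT.leaf [(nat_lit 7920778), (nat_lit 8065185), (nat_lit
 8210973), (nat_lit 8357658), (nat_lit 8504857)]) (FT.cons (FT.leaf [(nat_lit 8181787), (nat_lit 8326983), (nat_lit 8472967), (nat_lit 8619373)]) (FT.cons (FT.leaf [(nat_lit 8442175), (nat_lit 8587420)]) (FT.cons (FT.leaf [(nat_lit 8701008)]) FT.nil)))))) (FT.cons (FT.cons (FT.leaf [(nat_lit 7823113), (nat_lit 7964622), (nat_lit 8108180), (nat_lit 8253158), (nat_lit 8399065), (nat_lit 8545514)]) (FT.cons (FT.leaf [(nat_lit 8081093), (nat_lit 8224214), (nat_lit 8368617), (nat_lit 8513839), (nat_lit 8659510)]) (FT.cons (FT.leaf [(nat_lit 8339488), (nat_lit 8483270), (nat_lit 8627768), (nat_lit 8772632)]) (FT.cons (FT.leaf [(nat_lit 8597098), (nat_lit 8740841)]) (FT.cons (FT.leaf [(nat_lit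 8853051)]) FT.nil))))) (FT.cons (FT.cons (FT.leaf [(nat_lit 8239368), (nat_lit 8381183), (nat_lit 8524191), (nat_lit 8667945), (nat_lit 8812092)]) (FT.cons (FT.leaf [(nat_lit 8495132), (nat_lit 8637494), (nat_lit 8780507), (nat_lit 8923837)]) (FT.cons (FT.leaf [(nat_lit 8749971), (nat_lit 8892216)]) FT.nil))) (FT.cons (FT.cons (FT.leaf [(nat_lit 8648747), (nat_lit 8789686)]) (FT.cons (FT.leaf [(nat_lit 8900825)]) FT.nil)) (FT.cons (FT.cons (FT.leaf [(nat_lit 9049698)]) FT.nil) (FT.cons (FT.cons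
 (FT.leaf [(nat_lit 9441316)]) FT.nil) FT.nil)))))) (FT.cons (FT.cons (FT.cons (FT.leaf [(nat_lit 8088870), (nat_lit 8227552), (nat_lit 8368182), (nat_lit 8510156), (nat_lit 8653006), (nat_lit 8796359)]) (FT.cons (FT.leaf [(nat_lit 8341431), (nat_lit 8481612), (nat_lit 8623010), (nat_lit 8765180), (nat_lit 8907769)]) (FT.cons (FT.leaf [(nat_lit 8594295), (nat_lit 8735074), (nat_lit 8876532), (nat_lit 9018332)]) (FT.cons (FT.leaf [(nat_lit 8846337), (nat_lit 8987053)]) FT.nil)))) (FT.cons (FT.cons (FT.leaf [(nat_lit 8495914), (nat_lit 8634815), (nat_lit 8774852), (nat_lit 8915596), (nat_lit 9056710)]) (FT.cons (FT.leaf [(nat_lit 8746214), (nat_lit 8885612), (nat_lit 9025630), (nat_lit 9165945)]) (FT.cons (FT.leaf [(nat_lit 8995570), (nat_lit 9134837)]) FT.nil))) (FT.cons (FT.cons (FT.leaf [(nat_lit 8896181), (nat_lit 9034197)]) (FT.cons (FT.leaf [(nat_lit 9142865)]) FT.nil)) (FT.cons (FT.cons (FT.leaf [(nat_lit 9288257)]) FT.nil)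 (FT.cons (FT.cons (FT.leaf [(nat_lit 9671320)]) FT.nil) FT.nil))))) (FT.cons (FT.cons (FT.cons (FT.leaf [(nat_lit 8745861), (nat_lit 8881952), (nat_lit 9019129)]) (FT.cons (FT.leaf [(nat_lit 8990904), (nat_lit 9127451)]) (FT.cons (FT.leaf [(nat_lit
 9234994)]) FT.nil))) (FT.cons (FT.cons (FT.leaf [(nat_lit 9137381)]) (FT.cons (FT.leaf [(nat_lit 9378887)]) FT.nil)) (FT.cons (FT.cons (FT.leaf [(nat_lit 9520953)]) FT.nil) FT.nil))) (FT.cons (FT.cons (FT.cons (FT.leaf [(nat_lit 9372643)]) FT.nil) (FT.cons (FT.cons (FT.leaf [(nat_lit 9748062)]) FT.nil) FT.nil)) (FT.cons (FT.cons (FT.cons (FT.leaf [(nat_lit 9969841)]) FT.nil) FT.nil) (FT.cons (FT.cons (FT.cons (FT.leaf [(nat_lit 10538796)]) FT.nil) FT.nil) FT.nil)))))) (FT.cons (FT.cons (FT.cons (FT.cons (FT.leaf [(nat_lit 8776537), (nat_lit 8905689), (nat_lit 9036731), (nat_lit 9169107), (nat_lit 9302387), (nat_lit 9436232)]) (FT.cons (FT.leaf [(nat_lit 9011559), (nat_lit 9142258),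 (nat_lit 9274177), (nat_lit 9406907), (nat_lit 9540123)]) (FT.cons (FT.leaf [(nat_lit 9247161), (nat_lit 9378583), (nat_lit 9510731), (nat_lit 9643295)]) (FT.cons (FT.leaf [(nat_lit 9482314), (nat_lit 9613853)]) FT.nil)))) (FT.cons (FT.cons (FT.leaf [(nat_lit 9154972), (nat_lit 9284601), (nat_lit 9415376), (nat_lit 9546902), (nat_lit 9678868)]) (FT.cons (FT.leaf [(nat_lit 9388415), (nat_lit 9518674), (nat_lit 9649604), (nat_lit 9780907)]) (FT.cons (FT.leaf [(nat_lit 9621293), (nat_lit 9751603)])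
 FT.nil))) (FT.cons (FT.cons (FT.leaf [(nat_lit 9528008)]) (FT.cons (FT.leaf [(nat_lit 9758617)]) FT.nil)) (FT.cons (FT.cons (FT.leaf [(nat_lit 9894312)]) FT.nil) FT.nil)))) (FT.cons (FT.cons (FT.cons (FT.leaf [(nat_lit 9386651), (nat_lit 9513893), (nat_lit 9642233)]) (FT.cons (FT.leaf [(nat_lit 9615622), (nat_lit 9743449)]) (FT.cons (FT.leaf [(nat_lit 9844003)]) FT.nil))) (FT.cons (FT.cons (FT.leaf [(nat_lit 9752237)]) (FT.cons (FT.leaf [(nat_lit 9978414)]) FT.nil)) (FT.cons (FT.cons (FT.leaf [(nat_lit 10111252)]) FT.nil) FT.nil))) (FT.cons (FT.cons (FT.cons (FT.leaf [(nat_lit 9971394)]) FT.nil) (FT.cons (FT.cons (FT.leaf [(nat_lit 10323394)]) FT.nil) FT.nil)) (FT.cons (FT.cons (FT.cons (FT.leaf [(nat_lit 10530938)]) FT.nil) FT.nil) FT.nil)))) (FT.cons (FT.cons (FT.cons (FT.cons (FT.leaf [(nat_lit 9979672), (nat_lit 10099355), (nat_lit 10220130)]) (FT.cons (FT.leaf [(nat_lit 10194908), (nat_lit 10315259)]) (FT.cons (FT.leaf [(nat_lit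 10409817)]) FT.nil))) (FT.cons (FT.cons (FT.leaf [(nat_lit 10323087)]) (FT.cons (FT.leaf [(nat_lit 10536088)]) FT.nil)) (FT.cons (FT.cons (FT.leaf [(nat_lit 10660987)]) FT.nil) FT.nil))) (FT.cons (FT.cons (FT.cons (FT.leaf [(nat_lit 10528461)])
 FT.nil) (FT.cons (FT.cons (FT.leaf [(nat_lit 10860241)]) FT.nil) FT.nil)) FT.nil)) (FT.cons (FT.cons (FT.cons (FT.cons (FT.leaf [(nat_lit 11049770)]) FT.nil) FT.nil) FT.nil) (FT.cons (FT.cons (FT.cons (FT.cons (FT.leaf [(nat_lit 12013443)]) FT.nil) FT.nil) FT.nil) (FT.cons (FT.cons (FT.cons (FT.cons (FT.leaf [(nat_lit 12890068)]) FT.nil) FT.nil) FT.nil) FT.nil))))))))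

def f160_1_750 : FT := (FT.cons (FT.cons (FT.cons (FT.cons (FT.leaf [(nat_lit 4405641), (nat_lit 4553403), (nat_lit 4711924), (nat_lit 4878434), (nat_lit 5050934), (nat_lit 5227912), (nat_lit 5408179), (nat_lit 5590787), (nat_lit 5774966), (nat_lit 5960086), (nat_lit 6145622), (nat_lit 6331148), (nat_lit 6516304)]) (FT.cons (FT.leaf [(nat_lit 4697236), (nat_lit 4857806), (nat_lit 5025638), (nat_lit 5198872), (nat_lit 5376102), (nat_lit 5556225), (nat_lit 5738363), (nat_lit 5921806), (nat_lit 6105966), (nat_lit 6290368), (nat_lit 6474612), (nat_lit 6658367)]) (FT.cons (FT.leaf [(nat_lit 5003868), (nat_lit 5172666), (nat_lit 5346347), (nat_lit 5523596), (nat_lit 5703388), (nat_lit 5884908), (nat_lit 6067495), (nat_lit 6250608), (nat_lit 6433802), (nat_lit 6616709)]) (FT.cons (FT.leaf [(nat_lit 5319331), (nat_lit 5493211), (nat_lit 5670282), (nat_lit 5849585), (nat_lit 6030359), (nat_lit 6211989), (nat_lit 6393973), (nat_lit 6575898),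 (nat_lit 6757423)]) (FT.cons (FT.leaf [(nat_lit 5639344), (nat_lit 5816064), (nat_lit 5994739), (nat_lit 6174658), (nat_lit 6355245), (nat_lit 6536034), (nat_lit 6716640)]) (FT.cons (FT.leaf [(nat_lit 5960862), (nat_lit 6138791), (nat_lit 6317760), (nat_lit 6497231), (nat_lit
 6676768)]) (FT.cons (FT.leaf [(nat_lit 6281690), (nat_lit 6459628), (nat_lit 6637922), (nat_lit 6816160)]) (FT.cons (FT.leaf [(nat_lit 6600235), (nat_lit 6777298)]) (FT.cons (FT.leaf [(nat_lit 6915347)]) (FT.cons (FT.leaf [(nat_lit 7226200)]) FT.nil)))))))))) (FT.cons (FT.cons (FT.leaf [(nat_lit 4905164), (nat_lit 5065775), (nat_lit 5233134), (nat_lit 5405456), (nat_lit 5581407), (nat_lit 5759947), (nat_lit 5940254), (nat_lit 6121662), (nat_lit 6303627), (nat_lit 6485704), (nat_lit 6667524)]) (FT.cons (FT.leaf [(nat_lit 5210796), (nat_lit 5378845), (nat_lit 5551392), (nat_lit 5727185), (nat_lit 5905257), (nat_lit 6084837), (nat_lit 6265309), (nat_lit 6446166),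 (nat_lit 6626995), (nat_lit 6807453)]) (FT.cons (FT.leaf [(nat_lit 5524049), (nat_lit 5696607), (nat_lit 5872073), (nat_lit 6049537), (nat_lit 6228283), (nat_lit 6407733), (nat_lit 6587415), (nat_lit 6766946), (nat_lit 6946007)]) (FT.cons (FT.leaf [(nat_lit 5841000), (nat_lit 6015989), (nat_lit 6192730), (nat_lit 6370547), (nat_lit 6548902), (nat_lit 6727355), (nat_lit 6905546)]) (FT.cons (FT.leaf [(nat_lit 6158870), (nat_lit 6334784), (nat_lit 6511594), (nat_lit 6688792), (nat_lit 6865968)]) (FT.cons (FT.leaf [(nat_lit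
 6475661), (nat_lit 6651395), (nat_lit 6827384), (nat_lit 7003245)]) (FT.cons (FT.leaf [(nat_lit 6789927), (nat_lit 6964665)]) (FT.cons (FT.leaf [(nat_lit 7100626)]) (FT.cons (FT.leaf [(nat_lit 7407013)]) FT.nil))))))))) (FT.cons (FT.cons (FT.leaf [(nat_lit 5415221), (nat_lit 5582309), (nat_lit 5753556), (nat_lit 5927768), (nat_lit 6104026), (nat_lit 6281606), (nat_lit 6459924), (nat_lit 6638508), (nat_lit 6816972), (nat_lit 6994997)]) (FT.cons (FT.leaf [(nat_lit 5725948), (nat_lit 5897049), (nat_lit 6070810), (nat_lit 6246366), (nat_lit 6423039), (nat_lit 6600284), (nat_lit 6777660), (nat_lit 6954805), (nat_lit 7131425)]) (FT.cons (FT.leaf [(nat_lit 6039649), (nat_lit 6212830), (nat_lit 6387583), (nat_lit 6563270), (nat_lit 6739380), (nat_lit 6915501), (nat_lit 7091295)]) (FT.cons (FT.leaf [(nat_lit 6353775), (nat_lit 6527638), (nat_lit 6702271), (nat_lit 6877195), (nat_lit 7052023)]) (FT.cons (FT.leaf [(nat_lit 6666498), (nat_lit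 6840021), (nat_lit 7013715), (nat_lit 7187218)]) (FT.cons (FT.leaf [(nat_lit 6976502), (nat_lit 7148931)]) (FT.cons (FT.leaf [(nat_lit 7282838)]) (FT.cons (FT.leaf [(nat_lit 7584832)]) FT.nil)))))))) (FT.cons (FT.cons (FT.leaf [(nat_lit 5924975),
 (nat_lit 6094514), (nat_lit 6266493), (nat_lit 6440090), (nat_lit 6614660), (nat_lit 6789690), (nat_lit 6964764), (nat_lit 7139542)]) (FT.cons (FT.leaf [(nat_lit 6235284), (nat_lit 6406599), (nat_lit 6579329), (nat_lit 6752869), (nat_lit 6926735), (nat_lit 7100536), (nat_lit 7273957)]) (FT.cons (FT.leaf [(nat_lit 6545602), (nat_lit 6717391), (nat_lit 6889842), (nat_lit 7062501), (nat_lit 7234999)]) (FT.cons (FT.leaf [(nat_lit 6854250), (nat_lit 7025564), (nat_lit 7196978), (nat_lit 7368148)]) (FT.cons (FT.leaf [(nat_lit 7160022), (nat_lit 7330163)]) (FT.cons (FT.leaf [(nat_lit 7462053)]) FT.nil)))))) (FT.cons (FT.cons (FT.leaf [(nat_lit 6427915), (nat_lit 6597322), (nat_lit 6768008),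 (nat_lit 6939395), (nat_lit 7111024), (nat_lit 7282526)]) (FT.cons (FT.leaf [(nat_lit 6734386), (nat_lit 6904091), (nat_lit 7074363), (nat_lit 7244771), (nat_lit 7414965)]) (FT.cons (FT.leaf [(nat_lit 7038968), (nat_lit 7208084), (nat_lit 7377240), (nat_lit 7546107)]) (FT.cons (FT.leaf [(nat_lit 7340551), (nat_lit 7508431)]) (FT.cons (FT.leaf [(nat_lit 7638343)]) FT.nil))))) (FT.cons (FT.cons (FT.leaf [(nat_lit 6920172), (nat_lit 7087790), (nat_lit 7255895)]) (FT.cons (FT.leaf [(nat_lit 7220710),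
 (nat_lit 7387646)]) (FT.cons (FT.leaf [(nat_lit 7518154)]) FT.nil))) (FT.cons (FT.cons (FT.leaf [(nat_lit 7399536)]) (FT.cons (FT.leaf [(nat_lit 7692900)]) FT.nil)) (FT.cons (FT.cons (FT.leaf [(nat_lit 7864857)]) FT.nil) (FT.cons (FT.cons (FT.leaf [(nat_lit 8315665)]) FT.nil) FT.nil))))))))) (FT.cons (FT.cons (FT.cons (FT.leaf [(nat_lit 5259104), (nat_lit 5416684), (nat_lit 5580567), (nat_lit 5749045), (nat_lit 5920853), (nat_lit 6095015), (nat_lit 6270761), (nat_lit 6447472), (nat_lit 6624645), (nat_lit 6801869), (nat_lit 6978803)]) (FT.cons (FT.leaf [(nat_lit 5558207), (nat_lit 5722588), (nat_lit 5891145), (nat_lit 6062690), (nat_lit 6236311), (nat_lit 6411289), (nat_lit 6587047), (nat_lit 6763116), (nat_lit 6939113), (nat_lit 7114721)]) (FT.cons (FT.leaf [(nat_lit 5864022), (nat_lit 6032474), (nat_lit 6203610), (nat_lit 6376574), (nat_lit 6550692), (nat_lit 6725425), (nat_lit 6900334), (nat_lit 7075063), (nat_lit 7249316)])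 (FT.cons (FT.leaf [(nat_lit 6172947), (nat_lit 6343549), (nat_lit 6515756), (nat_lit 6688936), (nat_lit 6862582), (nat_lit 7036286), (nat_lit 7209712)]) (FT.cons (FT.leaf [(nat_lit 6482453), (nat_lit 6653816), (nat_lit 6825990), (nat_lit 6998499), (nat_lit
 7170959)]) (FT.cons (FT.leaf [(nat_lit 6790724), (nat_lit 6961835), (nat_lit 7133163), (nat_lit 7304347)]) (FT.cons (FT.leaf [(nat_lit 7096454), (nat_lit 7266565)]) (FT.cons (FT.leaf [(nat_lit 7398699)]) (FT.cons (FT.leaf [(nat_lit 7696786)]) FT.nil))))))))) (FT.cons (FT.cons (FT.leaf [(nat_lit 5756861), (nat_lit 5920171), (nat_lit 6087361), (nat_lit 6257295), (nat_lit 6429105), (nat_lit 6602110), (nat_lit 6775765), (nat_lit 6949632), (nat_lit 7123349), (nat_lit 7296620)]) (FT.cons (FT.leaf [(nat_lit 6060020), (nat_lit 6226976), (nat_lit 6396400), (nat_lit 6567476), (nat_lit 6739565), (nat_lit 6912157), (nat_lit 7084839), (nat_lit 7257274), (nat_lit 7429188)]) (FT.cons (FT.leaf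 [(nat_lit 6365681), (nat_lit 6534486), (nat_lit 6704743), (nat_lit 6875848), (nat_lit 7047324), (nat_lit 7218783), (nat_lit 7389910)]) (FT.cons (FT.leaf [(nat_lit 6671511), (nat_lit 6840872), (nat_lit 7010938), (nat_lit 7181254), (nat_lit 7351459)]) (FT.cons (FT.leaf [(nat_lit 6975840), (nat_lit 7144816), (nat_lit 7313937), (nat_lit 7482861)]) (FT.cons (FT.leaf [(nat_lit 7277472), (nat_lit 7445368)]) (FT.cons (FT.leaf [(nat_lit 7575544)]) (FT.cons (FT.leaf [(nat_lit 7869442)]) FT.nil)))))))) (FT.cons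
 (FT.cons (FT.leaf [(nat_lit 6253207), (nat_lit 6418586), (nat_lit 6586243), (nat_lit 6755397), (nat_lit 6925440), (nat_lit 7095890), (nat_lit 7266355), (nat_lit 7436519)]) (FT.cons (FT.leaf [(nat_lit 6555503), (nat_lit 6722471), (nat_lit 6890754), (nat_lit 7059780), (nat_lit 7229092), (nat_lit 7398323), (nat_lit 7567177)]) (FT.cons (FT.leaf [(nat_lit 6857617), (nat_lit 7024966), (nat_lit 7192925), (nat_lit 7361062), (nat_lit 7529034)]) (FT.cons (FT.leaf [(nat_lit 7158013), (nat_lit 7324863), (nat_lit 7491796), (nat_lit 7658488)]) (FT.cons (FT.leaf [(nat_lit 7455586), (nat_lit 7621291)]) (FT.cons (FT.leaf [(nat_lit 7749545)]) FT.nil)))))) (FT.cons (FT.cons (FT.leaf [(nat_lit 6742432), (nat_lit 6907536), (nat_lit 7073836), (nat_lit 7240783), (nat_lit 7407944), (nat_lit 7574971)]) (FT.cons (FT.leaf [(nat_lit 7040815), (nat_lit 7206148), (nat_lit 7372009), (nat_lit 7537987), (nat_lit 7703754)]) (FT.cons (FT.leaf [(nat_lit 7337296),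 (nat_lit 7502036), (nat_lit 7666806), (nat_lit 7831296)]) (FT.cons (FT.leaf [(nat_lit 7630858), (nat_lit 7794400)]) (FT.cons (FT.leaf [(nat_lit 7920772)]) FT.nil))))) (FT.cons (FT.cons (FT.leaf [(nat_lit 7221149), (nat_lit 7384472), (nat_lit 7548250)])
 (FT.cons (FT.leaf [(nat_lit 7513748), (nat_lit 7676397)]) (FT.cons (FT.leaf [(nat_lit 7803353)]) FT.nil))) (FT.cons (FT.cons (FT.leaf [(nat_lit 7687428)]) (FT.cons (FT.leaf [(nat_lit 7973136)]) FT.nil)) (FT.cons (FT.cons (FT.leaf [(nat_lit 8140271)]) FT.nil) (FT.cons (FT.cons (FT.leaf [(nat_lit 8579278)]) FT.nil) FT.nil)))))))) (FT.cons (FT.cons (FT.cons (FT.leaf [(nat_lit 6087432), (nat_lit 6247023), (nat_lit 6410254), (nat_lit 6576041), (nat_lit 6743565), (nat_lit 6912181), (nat_lit 7081379), (nat_lit 7250745), (nat_lit 7419943), (nat_lit 7588697)]) (FT.cons (FT.leaf [(nat_lit 6383202), (nat_lit 6546134), (nat_lit 6711374), (nat_lit 6878147), (nat_lit 7045848), (nat_lit 7213998),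 (nat_lit 7382209), (nat_lit 7550166), (nat_lit 7717611)]) (FT.cons (FT.leaf [(nat_lit 6681104), (nat_lit 6845700), (nat_lit 7011647), (nat_lit 7178377), (nat_lit 7345435), (nat_lit 7512460), (nat_lit 7679153)]) (FT.cons (FT.leaf [(nat_lit 6978984), (nat_lit 7144042), (nat_lit 7309750), (nat_lit 7475680), (nat_lit 7641491)]) (FT.cons (FT.leaf [(nat_lit 7275311), (nat_lit 7439955), (nat_lit 7604727), (nat_lit 7769303)]) (FT.cons (FT.leaf [(nat_lit 7568984), (nat_lit 7732572)]) (FT.cons (FT.leaf [(nat_lit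
 7859215)]) FT.nil))))))) (FT.cons (FT.cons (FT.leaf [(nat_lit 6570805), (nat_lit 6732166), (nat_lit 6895666), (nat_lit 7060563), (nat_lit 7226282), (nat_lit 7392365), (nat_lit 7558446), (nat_lit 7724226)]) (FT.cons (FT.leaf [(nat_lit 6865395), (nat_lit 7028195), (nat_lit 7192226), (nat_lit 7356946), (nat_lit 7521922), (nat_lit 7686810), (nat_lit 7851328)]) (FT.cons (FT.leaf [(nat_lit 7159668), (nat_lit 7322779), (nat_lit 7486457), (nat_lit 7650295), (nat_lit 7813968)]) (FT.cons (FT.leaf [(nat_lit 7452206), (nat_lit 7614807), (nat_lit 7777482), (nat_lit 7939922)]) (FT.cons (FT.leaf [(nat_lit 7741991), (nat_lit 7903481)]) (FT.cons (FT.leaf [(nat_lit 8028294)]) FT.nil)))))) (FT.cons (FT.cons (FT.leaf [(nat_lit 7046910), (nat_lit 7207897), (nat_lit 7370009), (nat_lit 7532725), (nat_lit 7695637)]) (FT.cons (FT.leaf [(nat_lit 7337574), (nat_lit 7498741), (nat_lit 7660402), (nat_lit 7822170)]) (FT.cons (FT.leaf [(nat_lit 7626351), (nat_lit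 7786927)]) (FT.cons (FT.leaf [(nat_lit 7912297)]) (FT.cons (FT.leaf [(nat_lit 8194739)]) FT.nil))))) (FT.cons (FT.cons (FT.leaf [(nat_lit 7512750), (nat_lit 7671980), (nat_lit 7831644)]) (FT.cons (FT.leaf [(nat_lit 7797802), (nat_lit 7956375)])
 (FT.cons (FT.leaf [(nat_lit 8079965)]) FT.nil))) (FT.cons (FT.cons (FT.leaf [(nat_lit 7966617)]) (FT.cons (FT.leaf [(nat_lit 8245057)]) FT.nil)) (FT.cons (FT.cons (FT.leaf [(nat_lit 8407634)]) FT.nil) FT.nil)))))) (FT.cons (FT.cons (FT.cons (FT.leaf [(nat_lit 6878352), (nat_lit 7035842), (nat_lit 7195354), (nat_lit 7356179), (nat_lit 7517769), (nat_lit 7679692)]) (FT.cons (FT.leaf [(nat_lit 7165549), (nat_lit 7324357), (nat_lit 7484328), (nat_lit 7644942), (nat_lit 7805791)]) (FT.cons (FT.leaf [(nat_lit 7452335), (nat_lit 7611402), (nat_lit 7771004), (nat_lit 7930752)]) (FT.cons (FT.leaf [(nat_lit 7737392), (nat_lit 7895950)]) FT.nil)))) (FT.cons (FT.cons (FT.leaf [(nat_lit 7341925), (nat_lit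 7498975), (nat_lit 7657092), (nat_lit 7815779), (nat_lit 7974646)]) (FT.cons (FT.leaf [(nat_lit 7625228), (nat_lit 7782423), (nat_lit 7940088), (nat_lit 8097852)]) (FT.cons (FT.leaf [(nat_lit 7906675), (nat_lit 8063290)]) FT.nil))) (FT.cons (FT.cons (FT.leaf [(nat_lit 7795518), (nat_lit 7950852)]) (FT.cons (FT.leaf [(nat_lit 8073394)]) FT.nil)) (FT.cons (FT.cons (FT.leaf [(nat_lit 8237605)]) FT.nil) (FT.cons (FT.cons (FT.leaf [(nat_lit 8667405)]) FT.nil) FT.nil))))) (FT.cons (FT.cons (FT.cons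
 (FT.leaf [(nat_lit 7628018), (nat_lit 7781303), (nat_lit 7935608)]) (FT.cons (FT.leaf [(nat_lit 7904300), (nat_lit 8057708)]) (FT.cons (FT.leaf [(nat_lit 8178770)]) FT.nil))) (FT.cons (FT.cons (FT.leaf [(nat_lit 8069960)]) (FT.cons (FT.leaf [(nat_lit 8341008)]) FT.nil)) (FT.cons (FT.cons (FT.leaf [(nat_lit 8500859)]) FT.nil) FT.nil))) (FT.cons (FT.cons (FT.cons (FT.leaf [(nat_lit 8336542)]) FT.nil) (FT.cons (FT.cons (FT.leaf [(nat_lit 8756804)]) FT.nil) FT.nil)) (FT.cons (FT.cons (FT.cons (FT.leaf [(nat_lit 9005839)]) FT.nil) FT.nil) (FT.cons (FT.cons (FT.cons (FT.leaf [(nat_lit 9638536)]) FT.nil) FT.nil) (FT.cons (FT.cons (FT.cons (FT.leaf [(nat_lit 10237462)]) FT.nil) FT.nil) FT.nil))))))))) (FT.cons (FT.cons (FT.cons (FT.cons (FT.leaf [(nat_lit 6209423), (nat_lit 6352580), (nat_lit 6501490), (nat_lit 6654638), (nat_lit 6810905), (nat_lit 6969433), (nat_lit 7129545), (nat_lit 7290696), (nat_lit 7452445), (nat_lit 7614426), (nat_lit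 7776340)]) (FT.cons (FT.leaf [(nat_lit 6480695), (nat_lit 6630133), (nat_lit 6783451), (nat_lit 6939597), (nat_lit 7097766), (nat_lit 7257324), (nat_lit 7417761), (nat_lit 7578664), (nat_lit 7739693), (nat_lit 7900563)]) (FT.cons (FT.leaf [(nat_lit
 6758343), (nat_lit 6911676), (nat_lit 7067577), (nat_lit 7225289), (nat_lit 7384214), (nat_lit 7543874), (nat_lit 7703883), (nat_lit 7863918), (nat_lit 8023718)]) (FT.cons (FT.leaf [(nat_lit 7039244), (nat_lit 7194794), (nat_lit 7351961), (nat_lit 7510184), (nat_lit 7669014), (nat_lit 7828084), (nat_lit 7987096)]) (FT.cons (FT.leaf [(nat_lit 7321198), (nat_lit 7477746), (nat_lit 7635209), (nat_lit 7793160), (nat_lit 7951257)]) (FT.cons (FT.leaf [(nat_lit 7602617), (nat_lit 7759267), (nat_lit 7916300), (nat_lit 8073393)]) (FT.cons (FT.leaf [(nat_lit 7882341), (nat_lit 8038422)]) (FT.cons (FT.leaf [(nat_lit 8159518)]) (FT.cons (FT.leaf [(nat_lit 8433525)]) FT.nil))))))))) (FT.cons (FT.cons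 (FT.leaf [(nat_lit 6659984), (nat_lit 6808627), (nat_lit 6960902), (nat_lit 7115799), (nat_lit 7272549), (nat_lit 7430550), (nat_lit 7589317), (nat_lit 7748459), (nat_lit 7907656), (nat_lit 8066639)]) (FT.cons (FT.leaf [(nat_lit 6935585), (nat_lit 7087767), (nat_lit 7242333), (nat_lit 7398559), (nat_lit 7555875), (nat_lit 7713828), (nat_lit 7872050), (nat_lit 8030238), (nat_lit 8188143)]) (FT.cons (FT.leaf [(nat_lit 7213927), (nat_lit 7368069), (nat_lit 7523694), (nat_lit 7680267), (nat_lit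
 7837360), (nat_lit 7994624), (nat_lit 8151776)]) (FT.cons (FT.leaf [(nat_lit 7492967), (nat_lit 7647927), (nat_lit 7803705), (nat_lit 7959896), (nat_lit 8116172)]) (FT.cons (FT.leaf [(nat_lit 7771234), (nat_lit 7926171), (nat_lit 8081426), (nat_lit 8236688)]) (FT.cons (FT.leaf [(nat_lit 8047653), (nat_lit 8201942)]) (FT.cons (FT.leaf [(nat_lit 8321439)]) (FT.cons (FT.leaf [(nat_lit 8592018)]) FT.nil)))))))) (FT.cons (FT.cons (FT.leaf [(nat_lit 7110579), (nat_lit 7261540), (nat_lit 7414721), (nat_lit 7569427), (nat_lit 7725115), (nat_lit 7881352), (nat_lit 8037788), (nat_lit 8194138)]) (FT.cons (FT.leaf [(nat_lit 7386272), (nat_lit 7538966), (nat_lit 7693026), (nat_lit 7847936), (nat_lit 8003289), (nat_lit 8158754), (nat_lit 8314060)]) (FT.cons (FT.leaf [(nat_lit 7662355), (nat_lit 7815710), (nat_lit 7969798), (nat_lit 8124231), (nat_lit 8278698)]) (FT.cons (FT.leaf [(nat_lit 7937461), (nat_lit 8090687), (nat_lit 8244172), (nat_lit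 8397618)]) (FT.cons (FT.leaf [(nat_lit 8210594), (nat_lit 8363104)]) (FT.cons (FT.leaf [(nat_lit 8481026)]) FT.nil)))))) (FT.cons (FT.cons (FT.leaf [(nat_lit 7556288), (nat_lit 7707506), (nat_lit 7859983), (nat_lit 8013224), (nat_lit 8166841)]) (FT.cons
 (FT.leaf [(nat_lit 7829387), (nat_lit 7981128), (nat_lit 8133526), (nat_lit 8286210)]) (FT.cons (FT.leaf [(nat_lit 8101337), (nat_lit 8252856)]) (FT.cons (FT.leaf [(nat_lit 8371208)]) (FT.cons (FT.leaf [(nat_lit 8638327)]) FT.nil))))) (FT.cons (FT.cons (FT.leaf [(nat_lit 7994094), (nat_lit 8144216), (nat_lit 8294928)]) (FT.cons (FT.leaf [(nat_lit 8262898), (nat_lit 8412720)]) (FT.cons (FT.leaf [(nat_lit 8529540)]) FT.nil))) (FT.cons (FT.cons (FT.leaf [(nat_lit 8422186)]) (FT.cons (FT.leaf [(nat_lit 8685633)]) FT.nil)) (FT.cons (FT.cons (FT.leaf [(nat_lit 8839536)]) FT.nil) FT.nil))))))) (FT.cons (FT.cons (FT.cons (FT.leaf [(nat_lit 6957387), (nat_lit 7103076), (nat_lit 7252194),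 (nat_lit 7403775), (nat_lit 7557086), (nat_lit 7711552), (nat_lit 7866717), (nat_lit 8022211), (nat_lit 8177731), (nat_lit 8333028)]) (FT.cons (FT.leaf [(nat_lit 7227097), (nat_lit 7376064), (nat_lit 7527275), (nat_lit 7680038), (nat_lit 7833813), (nat_lit 7988168), (nat_lit 8142756), (nat_lit 8297291), (nat_lit 8451538)]) (FT.cons (FT.leaf [(nat_lit 7499221), (nat_lit 7649980), (nat_lit 7802129), (nat_lit 7955160), (nat_lit 8108665), (nat_lit 8262314), (nat_lit 8415841)]) (FT.cons (FT.leaf [(nat_lit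
 7771855), (nat_lit 7923335), (nat_lit 8075577), (nat_lit 8228196), (nat_lit 8380881)]) (FT.cons (FT.leaf [(nat_lit 8043635), (nat_lit 8195049), (nat_lit 8346752), (nat_lit 8498451)]) (FT.cons (FT.leaf [(nat_lit 8313566), (nat_lit 8464329)]) (FT.cons (FT.leaf [(nat_lit 8580922)]) FT.nil))))))) (FT.cons (FT.cons (FT.leaf [(nat_lit 7397611), (nat_lit 7545351), (nat_lit 7695187), (nat_lit 7846456), (nat_lit 7998640), (nat_lit 8151327), (nat_lit 8304186), (nat_lit 8456947)]) (FT.cons (FT.leaf [(nat_lit 7667109), (nat_lit 7816440), (nat_lit 7967058), (nat_lit 8118470), (nat_lit 8270288), (nat_lit 8422198), (nat_lit 8573946)]) (FT.cons (FT.leaf [(nat_lit 7936851), (nat_lit 8086766), (nat_lit 8237367), (nat_lit 8388285), (nat_lit 8539225)]) (FT.cons (FT.leaf [(nat_lit 8205565), (nat_lit 8355321), (nat_lit 8505315), (nat_lit 8655265)]) (FT.cons (FT.leaf [(nat_lit 8472324), (nat_lit 8621371)]) (FT.cons (FT.leaf [(nat_lit 8736454)]) FT.nil))))))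 (FT.cons (FT.cons (FT.leaf [(nat_lit 7832746), (nat_lit 7980630), (nat_lit 8129704), (nat_lit 8279496), (nat_lit 8429635)]) (FT.cons (FT.leaf [(nat_lit 8099581), (nat_lit 8247926), (nat_lit 8396891), (nat_lit 8546120)]) (FT.cons (FT.leaf [(nat_lit
 8365239), (nat_lit 8513346)]) (FT.cons (FT.leaf [(nat_lit 8628856)]) (FT.cons (FT.leaf [(nat_lit 8889801)]) FT.nil))))) (FT.cons (FT.cons (FT.leaf [(nat_lit 8260077), (nat_lit 8406853), (nat_lit 8554188)]) (FT.cons (FT.leaf [(nat_lit 8522697), (nat_lit 8669165)]) (FT.cons (FT.leaf [(nat_lit 8783204)]) FT.nil))) (FT.cons (FT.cons (FT.leaf [(nat_lit 8677978)]) (FT.cons (FT.leaf [(nat_lit 8935413)]) FT.nil)) (FT.cons (FT.cons (FT.leaf [(nat_lit 9085527)]) FT.nil) FT.nil)))))) (FT.cons (FT.cons (FT.cons (FT.leaf [(nat_lit 7676572), (nat_lit 7821185), (nat_lit 7967790), (nat_lit 8115748), (nat_lit 8264563), (nat_lit 8413844)]) (FT.cons (FT.leaf [(nat_lit 7940082), (nat_lit 8086172), (nat_lit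 8233478), (nat_lit 8381531), (nat_lit 8529961)]) (FT.cons (FT.leaf [(nat_lit 8203728), (nat_lit 8350337), (nat_lit 8497594), (nat_lit 8645147)]) (FT.cons (FT.leaf [(nat_lit 8466314), (nat_lit 8612744)]) FT.nil)))) (FT.cons (FT.cons (FT.leaf [(nat_lit 8101535), (nat_lit 8246209), (nat_lit 8392013), (nat_lit 8538497), (nat_lit 8685303)]) (FT.cons (FT.leaf [(nat_lit 8362354), (nat_lit 8507441), (nat_lit 8653114), (nat_lit 8799036)]) (FT.cons (FT.leaf [(nat_lit 8621986), (nat_lit 8766823)]) FT.nil)))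
 (FT.cons (FT.cons (FT.leaf [(nat_lit 8518836), (nat_lit 8662403)]) (FT.cons (FT.leaf [(nat_lit 8775534)]) FT.nil)) (FT.cons (FT.cons (FT.leaf [(nat_lit 8927000)]) FT.nil) (FT.cons (FT.cons (FT.leaf [(nat_lit 9325193)]) FT.nil) FT.nil))))) (FT.cons (FT.cons (FT.cons (FT.leaf [(nat_lit 8363039), (nat_lit 8504624), (nat_lit 8647289)]) (FT.cons (FT.leaf [(nat_lit 8618083), (nat_lit 8760043)]) (FT.cons (FT.leaf [(nat_lit 8871942)]) FT.nil))) (FT.cons (FT.cons (FT.leaf [(nat_lit 8770736)]) (FT.cons (FT.leaf [(nat_lit 9021765)]) FT.nil)) (FT.cons (FT.cons (FT.leaf [(nat_lit 9169592)]) FT.nil) FT.nil))) (FT.cons (FT.cons (FT.cons (FT.leaf [(nat_lit 9016120)]) FT.nil) (FT.cons (FT.cons (FT.leaf [(nat_lit 9406075)]) FT.nil) FT.nil)) (FT.cons (FT.cons (FT.cons (FT.leaf [(nat_lit 9636745)]) FT.nil) FT.nil) (FT.cons (FT.cons (FT.cons (FT.leaf [(nat_lit 10226592)]) FT.nil) FT.nil) (FT.cons (FT.cons (FT.cons (FT.leaf [(nat_lit 10787638)]) FT.nil)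 FT.nil) FT.nil)))))))) (FT.cons (FT.cons (FT.cons (FT.cons (FT.leaf [(nat_lit 7738048), (nat_lit 7872555), (nat_lit 8010300), (nat_lit 8150398), (nat_lit 8292185), (nat_lit 8435145), (nat_lit 8578863), (nat_lit 8723006)]) (FT.cons (FT.leaf [(nat_lit
 7986793), (nat_lit 8124476), (nat_lit 8264320), (nat_lit 8405697), (nat_lit 8548117), (nat_lit 8691191), (nat_lit 8834601)]) (FT.cons (FT.leaf [(nat_lit 8238077), (nat_lit 8377594), (nat_lit 8518501), (nat_lit 8660335), (nat_lit 8802726)]) (FT.cons (FT.leaf [(nat_lit 8490190), (nat_lit 8630576), (nat_lit 8771782), (nat_lit 8913458)]) (FT.cons (FT.leaf [(nat_lit 8741902), (nat_lit 8882445)]) (FT.cons (FT.leaf [(nat_lit 8992313)]) FT.nil)))))) (FT.cons (FT.cons (FT.leaf [(nat_lit 8143546), (nat_lit 8280238), (nat_lit 8418961), (nat_lit 8559111), (nat_lit 8700219), (nat_lit 8841909)]) (FT.cons (FT.leaf [(nat_lit 8392680), (nat_lit 8531030), (nat_lit 8670675), (nat_lit 8811169), (nat_lit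 8952157)]) (FT.cons (FT.leaf [(nat_lit 8642406), (nat_lit 8781500), (nat_lit 8921344), (nat_lit 9061603)]) (FT.cons (FT.leaf [(nat_lit 8891570), (nat_lit 9030734)]) (FT.cons (FT.leaf [(nat_lit 9139329)]) FT.nil))))) (FT.cons (FT.cons (FT.leaf [(nat_lit 8545409), (nat_lit 8682569), (nat_lit 8820938), (nat_lit 8960087), (nat_lit 9099675)]) (FT.cons (FT.leaf [(nat_lit 8792727), (nat_lit 8930520), (nat_lit 9069001), (nat_lit 9207848)]) (FT.cons (FT.leaf [(nat_lit 9039344), (nat_lit 9177131)]) FT.nil)))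
 (FT.cons (FT.cons (FT.leaf [(nat_lit 8941175), (nat_lit 9077662)]) (FT.cons (FT.leaf [(nat_lit 9185251)]) FT.nil)) (FT.cons (FT.cons (FT.leaf [(nat_lit 9329322)]) FT.nil) (FT.cons (FT.cons (FT.leaf [(nat_lit 9708937)]) FT.nil) FT.nil)))))) (FT.cons (FT.cons (FT.cons (FT.leaf [(nat_lit 8399449), (nat_lit 8533548), (nat_lit 8669582), (nat_lit 8806968), (nat_lit 8945257), (nat_lit 9084089)]) (FT.cons (FT.leaf [(nat_lit 8643605), (nat_lit 8779251), (nat_lit 8916126), (nat_lit 9053805), (nat_lit 9191945)]) (FT.cons (FT.leaf [(nat_lit 8888237), (nat_lit 9024561), (nat_lit 9161597), (nat_lit 9299020)]) (FT.cons (FT.leaf [(nat_lit 9132259), (nat_lit 9268624)]) FT.nil)))) (FT.cons (FT.cons (FT.leaf [(nat_lit 8792838), (nat_lit 8927314), (nat_lit 9062942), (nat_lit 9199309), (nat_lit 9336089)]) (FT.cons (FT.leaf [(nat_lit 9035116), (nat_lit 9170172), (nat_lit 9305881), (nat_lit 9441935)]) (FT.cons (FT.leaf [(nat_lit 9276663), (nat_lit 9411690)])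 FT.nil))) (FT.cons (FT.cons (FT.leaf [(nat_lit 9180189), (nat_lit 9313973)]) (FT.cons (FT.leaf [(nat_lit 9419270)]) FT.nil)) (FT.cons (FT.cons (FT.leaf [(nat_lit 9560110)]) FT.nil) (FT.cons (FT.cons (FT.leaf [(nat_lit 9931766)]) FT.nil) FT.nil)))))
 (FT.cons (FT.cons (FT.cons (FT.leaf [(nat_lit 9034175), (nat_lit 9166056), (nat_lit 9299038)]) (FT.cons (FT.leaf [(nat_lit 9271592), (nat_lit 9404007)]) (FT.cons (FT.leaf [(nat_lit 9508257)]) FT.nil))) (FT.cons (FT.cons (FT.leaf [(nat_lit 9413429)]) (FT.cons (FT.leaf [(nat_lit 9647703)]) FT.nil)) (FT.cons (FT.cons (FT.leaf [(nat_lit 9785447)]) FT.nil) FT.nil))) (FT.cons (FT.cons (FT.cons (FT.leaf [(nat_lit 9641154)]) FT.nil) (FT.cons (FT.cons (FT.leaf [(nat_lit 10005578)]) FT.nil) FT.nil)) (FT.cons (FT.cons (FT.cons (FT.leaf [(nat_lit 10220736)]) FT.nil) FT.nil) (FT.cons (FT.cons (FT.cons (FT.leaf [(nat_lit 10773993)]) FT.nil) FT.nil) FT.nil)))))) (FT.cons (FT.cons (FT.cons (FT.cons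 (FT.leaf [(nat_lit 9061253), (nat_lit 9186556), (nat_lit 9313727), (nat_lit 9442232), (nat_lit 9571656)]) (FT.cons (FT.leaf [(nat_lit 9289213), (nat_lit 9416086), (nat_lit 9544182), (nat_lit 9673107)]) (FT.cons (FT.leaf [(nat_lit 9517869), (nat_lit 9645519)]) (FT.cons (FT.leaf [(nat_lit 9746229)]) FT.nil)))) (FT.cons (FT.cons (FT.leaf [(nat_lit 9428212), (nat_lit 9554098), (nat_lit 9681136)]) (FT.cons (FT.leaf [(nat_lit 9654869), (nat_lit 9781440)]) (FT.cons (FT.leaf [(nat_lit 9881115)]) FT.nil)))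
 (FT.cons (FT.cons (FT.leaf [(nat_lit 9790319)]) (FT.cons (FT.leaf [(nat_lit 10014452)]) FT.nil)) (FT.cons (FT.cons (FT.leaf [(nat_lit 10146265)]) FT.nil) FT.nil)))) (FT.cons (FT.cons (FT.cons (FT.leaf [(nat_lit 9652646), (nat_lit 9776310), (nat_lit 9901077)]) (FT.cons (FT.leaf [(nat_lit 9875134), (nat_lit 9999436)]) (FT.cons (FT.leaf [(nat_lit 10097179)]) FT.nil))) (FT.cons (FT.cons (FT.leaf [(nat_lit 10007801)]) (FT.cons (FT.leaf [(nat_lit 10227792)]) FT.nil)) (FT.cons (FT.cons (FT.leaf [(nat_lit 10356929)]) FT.nil) FT.nil))) (FT.cons (FT.cons (FT.cons (FT.leaf [(nat_lit 10220541)]) FT.nil) (FT.cons (FT.cons (FT.leaf [(nat_lit 10563093)]) FT.nil) FT.nil)) (FT.cons (FT.cons (FT.cons (FT.leaf [(nat_lit 10764937)]) FT.nil) FT.nil) FT.nil)))) (FT.cons (FT.cons (FT.cons (FT.cons (FT.leaf [(nat_lit 10226832)]) FT.nil) FT.nil) (FT.cons (FT.cons (FT.cons (FT.leaf [(nat_lit 10761075)]) FT.nil) FT.nil) FT.nil)) (FT.cons (FT.cons (FT.cons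 (FT.cons (FT.leaf [(nat_lit 11268079)]) FT.nil) FT.nil) FT.nil) (FT.cons (FT.cons (FT.cons (FT.cons (FT.leaf [(nat_lit 12208914)]) FT.nil) FT.nil) FT.nil) (FT.cons (FT.cons (FT.cons (FT.cons (FT.leaf [(nat_lit 13067019)]) FT.nil) FT.nil) FT.nil)
 FT.nil))))))))

def f160_1_813 : FT := (FT.cons (FT.cons (FT.cons (FT.cons (FT.leaf [(nat_lit 4631169), (nat_lit 4774996), (nat_lit 4929348), (nat_lit 5091543), (nat_lit 5259644), (nat_lit 5432185), (nat_lit 5608017), (nat_lit 5786219), (nat_lit 5966044), (nat_lit 6146876), (nat_lit 6328210), (nat_lit 6509622), (nat_lit 6690760)]) (FT.cons (FT.leaf [(nat_lit 4914962), (nat_lit 5071367), (nat_lit 5234912), (nat_lit 5403795), (nat_lit 5576652), (nat_lit 5752416), (nat_lit 5930234), (nat_lit 6109412), (nat_lit 6289385), (nat_lit 6469680), (nat_lit 6649910), (nat_lit 6829749)]) (FT.cons (FT.leaf [(nat_lit 5213617), (nat_lit 5378168), (nat_lit 5547555), (nat_lit 5720503), (nat_lit 5896018),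 (nat_lit 6073305), (nat_lit 6251721), (nat_lit 6430740), (nat_lit 6609926), (nat_lit 6788918)]) (FT.cons (FT.leaf [(nat_lit 5521131), (nat_lit 5690781), (nat_lit 5863626), (nat_lit 6038734), (nat_lit 6215366), (nat_lit 6392919), (nat_lit 6570906), (nat_lit 6748920), (nat_lit 6926628)]) (FT.cons (FT.leaf [(nat_lit 5833354), (nat_lit 6005927), (nat_lit 6180494), (nat_lit 6356360), (nat_lit 6532965), (nat_lit 6709851), (nat_lit 6886643)]) (FT.cons (FT.leaf [(nat_lit 6147327), (nat_lit 6321235), (nat_lit 6496243), (nat_lit 6671825), (nat_lit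
 6847555)]) (FT.cons (FT.leaf [(nat_lit 6460907), (nat_lit 6634976), (nat_lit 6809473), (nat_lit 6983999)]) (FT.cons (FT.leaf [(nat_lit 6772529), (nat_lit 6945889)]) (FT.cons (FT.leaf [(nat_lit 7081056)]) FT.nil))))))))) (FT.cons (FT.cons (FT.leaf [(nat_lit 5117260), (nat_lit 5273798), (nat_lit 5436980), (nat_lit 5605077), (nat_lit 5776793), (nat_lit 5951119), (nat_lit 6127255), (nat_lit 6304552), (nat_lit 6482481), (nat_lit 6660605), (nat_lit 6838564)]) (FT.cons (FT.leaf [(nat_lit 5415122), (nat_lit 5579043), (nat_lit 5747427), (nat_lit 5919058), (nat_lit 6092997), (nat_lit 6268495), (nat_lit 6444948), (nat_lit 6621863), (nat_lit 6798835), (nat_lit 6975528)]) (FT.cons (FT.leaf [(nat_lit 5720670), (nat_lit 5889133), (nat_lit 6060514), (nat_lit 6233930), (nat_lit 6408682), (nat_lit 6584205), (nat_lit 6760040), (nat_lit 6935808), (nat_lit 7111198)]) (FT.cons (FT.leaf [(nat_lit 6030095), (nat_lit 6201081), (nat_lit 6373858), (nat_lit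 6547771), (nat_lit 6722291), (nat_lit 6896988), (nat_lit 7071510)]) (FT.cons (FT.leaf [(nat_lit 6340693), (nat_lit 6512730), (nat_lit 6685724), (nat_lit 6859178), (nat_lit 7032691)]) (FT.cons (FT.leaf [(nat_lit 6650505), (nat_lit 6822512), (nat_lit
 6994849), (nat_lit 7167136)]) (FT.cons (FT.leaf [(nat_lit 6958112), (nat_lit 7129285)]) (FT.cons (FT.leaf [(nat_lit 7262478)]) FT.nil)))))))) (FT.cons (FT.cons (FT.leaf [(nat_lit 5614321), (nat_lit 5777402), (nat_lit 5944618), (nat_lit 6114808), (nat_lit 6287076), (nat_lit 6460719), (nat_lit 6635165), (nat_lit 6809954), (nat_lit 6984707), (nat_lit 7159108)]) (FT.cons (FT.leaf [(nat_lit 5917590), (nat_lit 6084730), (nat_lit 6254546), (nat_lit 6426197), (nat_lit 6599019), (nat_lit 6772483), (nat_lit 6946154), (nat_lit 7119679), (nat_lit 7292766)]) (FT.cons (FT.leaf [(nat_lit 6224026), (nat_lit 6393342), (nat_lit 6564274), (nat_lit 6736199), (nat_lit 6908617), (nat_lit 7081123), (nat_lit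 7253386)]) (FT.cons (FT.leaf [(nat_lit 6531144), (nat_lit 6701270), (nat_lit 6872228), (nat_lit 7043548), (nat_lit 7214849)]) (FT.cons (FT.leaf [(nat_lit 6837150), (nat_lit 7007083), (nat_lit 7177260), (nat_lit 7347323)]) (FT.cons (FT.leaf [(nat_lit 7140747), (nat_lit 7309744)]) FT.nil)))))) (FT.cons (FT.cons (FT.leaf [(nat_lit 6111832), (nat_lit 6277542), (nat_lit 6445713), (nat_lit 6615543), (nat_lit 6786404), (nat_lit 6957792)]) (FT.cons (FT.leaf [(nat_lit 6415133), (nat_lit 6582718), (nat_lit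
 6751765), (nat_lit 6921680), (nat_lit 7091990)]) (FT.cons (FT.leaf [(nat_lit 6718698), (nat_lit 6886886), (nat_lit 7055797), (nat_lit 7224984)]) (FT.cons (FT.leaf [(nat_lit 7020880), (nat_lit 7188736)]) (FT.cons (FT.leaf [(nat_lit 7320487)]) FT.nil))))) (FT.cons (FT.cons (FT.leaf [(nat_lit 6603416), (nat_lit 6769226), (nat_lit 6936361), (nat_lit 7104256), (nat_lit 7272459)]) (FT.cons (FT.leaf [(nat_lit 6903382), (nat_lit 7069616), (nat_lit 7236478), (nat_lit 7403542)]) (FT.cons (FT.leaf [(nat_lit 7201739), (nat_lit 7367525)]) FT.nil))) (FT.cons (FT.cons (FT.leaf [(nat_lit 7085233), (nat_lit 7249506)]) (FT.cons (FT.leaf [(nat_lit 7379777)]) FT.nil)) (FT.cons (FT.cons (FT.leaf [(nat_lit 7555047)]) FT.nil) (FT.cons (FT.cons (FT.leaf [(nat_lit 8011651)]) FT.nil) (FT.cons (FT.cons (FT.leaf [(nat_lit 8454506)]) FT.nil) FT.nil))))))))) (FT.cons (FT.cons (FT.cons (FT.leaf [(nat_lit 5461576), (nat_lit 5615338), (nat_lit 5775316), (nat_lit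 5939851), (nat_lit 6107711), (nat_lit 6277949), (nat_lit 6449813), (nat_lit 6622701), (nat_lit 6796120), (nat_lit 6969667), (nat_lit 7143009)]) (FT.cons (FT.leaf [(nat_lit 5753418), (nat_lit 5913943), (nat_lit 6078618), (nat_lit 6246287), (nat_lit
 6416061), (nat_lit 6587239), (nat_lit 6759259), (nat_lit 6931661), (nat_lit 7104069), (nat_lit 7276172)]) (FT.cons (FT.leaf [(nat_lit 6052052), (nat_lit 6216687), (nat_lit 6384020), (nat_lit 6553217), (nat_lit 6723618), (nat_lit 6894697), (nat_lit 7066025), (nat_lit 7237252), (nat_lit 7408087)]) (FT.cons (FT.leaf [(nat_lit 6353976), (nat_lit 6520849), (nat_lit 6689367), (nat_lit 6858913), (nat_lit 7028990), (nat_lit 7199198), (nat_lit 7369208)]) (FT.cons (FT.leaf [(nat_lit 6656718), (nat_lit 6824473), (nat_lit 6993095), (nat_lit 7162119), (nat_lit 7331167)]) (FT.cons (FT.leaf [(nat_lit 6958500), (nat_lit 7126141), (nat_lit 7294066), (nat_lit 7461921)]) (FT.cons (FT.leaf [(nat_lit 7258034),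 (nat_lit 7424823)]) FT.nil))))))) (FT.cons (FT.cons (FT.leaf [(nat_lit 5947225), (nat_lit 6106797), (nat_lit 6270229), (nat_lit 6436416), (nat_lit 6604512), (nat_lit 6773852), (nat_lit 6943904), (nat_lit 7114237), (nat_lit 7284497), (nat_lit 7454393)]) (FT.cons (FT.leaf [(nat_lit 6243438), (nat_lit 6406703), (nat_lit 6572453), (nat_lit 6739893), (nat_lit 6908398), (nat_lit 7077469), (nat_lit 7246700), (nat_lit 7415763), (nat_lit 7584384)]) (FT.cons (FT.leaf [(nat_lit 6542340), (nat_lit 6707545),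
 (nat_lit 6874243), (nat_lit 7041846), (nat_lit 7209883), (nat_lit 7377974), (nat_lit 7545810)]) (FT.cons (FT.leaf [(nat_lit 6841649), (nat_lit 7007531), (nat_lit 7174172), (nat_lit 7341130), (nat_lit 7508048)]) (FT.cons (FT.leaf [(nat_lit 7139728), (nat_lit 7305359), (nat_lit 7471201), (nat_lit 7636918)]) (FT.cons (FT.leaf [(nat_lit 7435394), (nat_lit 7600089)]) FT.nil)))))) (FT.cons (FT.cons (FT.leaf [(nat_lit 6432191), (nat_lit 6594002), (nat_lit 6758111), (nat_lit 6923757), (nat_lit 7090344), (nat_lit 7257400)]) (FT.cons (FT.leaf [(nat_lit 6727964), (nat_lit 6891458), (nat_lit 7056309), (nat_lit 7221957), (nat_lit 7387954)]) (FT.cons (FT.leaf [(nat_lit 7023793), (nat_lit 7187786), (nat_lit 7352444), (nat_lit 7517345)]) (FT.cons (FT.leaf [(nat_lit 7318168), (nat_lit 7481793)]) (FT.cons (FT.leaf [(nat_lit 7609994)]) FT.nil))))) (FT.cons (FT.cons (FT.leaf [(nat_lit 6910861), (nat_lit 7072612), (nat_lit 7235601), (nat_lit 7399291),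 (nat_lit 7563257)]) (FT.cons (FT.leaf [(nat_lit 7203185), (nat_lit 7365282), (nat_lit 7527960), (nat_lit 7690818)]) (FT.cons (FT.leaf [(nat_lit 7493865), (nat_lit 7655496)]) FT.nil))) (FT.cons (FT.cons (FT.leaf [(nat_lit 7379864), (nat_lit 7540064)])
 (FT.cons (FT.leaf [(nat_lit 7666872)]) FT.nil)) (FT.cons (FT.cons (FT.leaf [(nat_lit 7837241)]) FT.nil) (FT.cons (FT.cons (FT.leaf [(nat_lit 8281939)]) FT.nil) (FT.cons (FT.cons (FT.leaf [(nat_lit 8713499)]) FT.nil) FT.nil)))))))) (FT.cons (FT.cons (FT.cons (FT.leaf [(nat_lit 6269737), (nat_lit 6425836), (nat_lit 6585559), (nat_lit 6747853), (nat_lit 6911913), (nat_lit 7077112), (nat_lit 7242949), (nat_lit 7409020)]) (FT.cons (FT.leaf [(nat_lit 6559030), (nat_lit 6718518), (nat_lit 6880331), (nat_lit 7043713), (nat_lit 7208071), (nat_lit 7372937), (nat_lit 7537929)]) (FT.cons (FT.leaf [(nat_lit 6850633), (nat_lit 7011871), (nat_lit 7174500), (nat_lit 7337961), (nat_lit 7501810)])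 (FT.cons (FT.leaf [(nat_lit 7142437), (nat_lit 7304248), (nat_lit 7466760), (nat_lit 7629555)]) (FT.cons (FT.leaf [(nat_lit 7432936), (nat_lit 7594458)]) (FT.cons (FT.leaf [(nat_lit 7721042)]) FT.nil)))))) (FT.cons (FT.cons (FT.leaf [(nat_lit 6742517), (nat_lit 6900548), (nat_lit 7060738), (nat_lit 7222362), (nat_lit 7384855), (nat_lit 7547770)]) (FT.cons (FT.leaf [(nat_lit 7031026), (nat_lit 7190584), (nat_lit 7351412), (nat_lit 7512977), (nat_lit 7674858)]) (FT.cons (FT.leaf [(nat_lit 7319439), (nat_lit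
 7479416), (nat_lit 7640012), (nat_lit 7800825)]) (FT.cons (FT.leaf [(nat_lit 7606358), (nat_lit 7765947)]) (FT.cons (FT.leaf [(nat_lit 7890776)]) FT.nil))))) (FT.cons (FT.cons (FT.leaf [(nat_lit 7208795), (nat_lit 7366650), (nat_lit 7525669), (nat_lit 7685343), (nat_lit 7845268)]) (FT.cons (FT.leaf [(nat_lit 7493806), (nat_lit 7651947), (nat_lit 7810634), (nat_lit 7969484)]) (FT.cons (FT.leaf [(nat_lit 7777164), (nat_lit 7934833)]) FT.nil))) (FT.cons (FT.cons (FT.leaf [(nat_lit 7665578), (nat_lit 7821888)]) (FT.cons (FT.leaf [(nat_lit 7945403)]) FT.nil)) (FT.cons (FT.cons (FT.leaf [(nat_lit 8111128)]) FT.nil) (FT.cons (FT.cons (FT.leaf [(nat_lit 8544521)]) FT.nil) FT.nil)))))) (FT.cons (FT.cons (FT.cons (FT.leaf [(nat_lit 7043334), (nat_lit 7197711), (nat_lit 7354128), (nat_lit 7511893), (nat_lit 7670467), (nat_lit 7829427)]) (FT.cons (FT.leaf [(nat_lit 7324852), (nat_lit 7480629), (nat_lit 7637603), (nat_lit 7795267), (nat_lit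 7953219)]) (FT.cons (FT.leaf [(nat_lit 7606163), (nat_lit 7762299), (nat_lit 7919015), (nat_lit 8075932)]) (FT.cons (FT.leaf [(nat_lit 7885966), (nat_lit 8041704)]) FT.nil)))) (FT.cons (FT.cons (FT.leaf [(nat_lit 7497740), (nat_lit 7651859), (nat_lit
 7807082), (nat_lit 7962920), (nat_lit 8118990)]) (FT.cons (FT.leaf [(nat_lit 7775757), (nat_lit 7930120), (nat_lit 8084998), (nat_lit 8240028)]) (FT.cons (FT.leaf [(nat_lit 8052134), (nat_lit 8206025)]) FT.nil))) (FT.cons (FT.cons (FT.leaf [(nat_lit 7942871)]) (FT.cons (FT.leaf [(nat_lit 8215853)]) FT.nil)) (FT.cons (FT.cons (FT.leaf [(nat_lit 8377175)]) FT.nil) (FT.cons (FT.cons (FT.leaf [(nat_lit 8799823)]) FT.nil) FT.nil))))) (FT.cons (FT.cons (FT.cons (FT.leaf [(nat_lit 7778191), (nat_lit 7928727), (nat_lit 8080319)]) (FT.cons (FT.leaf [(nat_lit 8049520), (nat_lit 8200272)]) (FT.cons (FT.leaf [(nat_lit 8319237)]) FT.nil))) (FT.cons (FT.cons (FT.leaf [(nat_lit 8212211)]) (FT.cons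 (FT.leaf [(nat_lit 8478666)]) FT.nil)) (FT.cons (FT.cons (FT.leaf [(nat_lit 8635810)]) FT.nil) FT.nil))) (FT.cons (FT.cons (FT.cons (FT.leaf [(nat_lit 8474028)]) FT.nil) (FT.cons (FT.cons (FT.leaf [(nat_lit 8887432)]) FT.nil) FT.nil)) (FT.cons (FT.cons (FT.cons (FT.leaf [(nat_lit 9132410)]) FT.nil) FT.nil) (FT.cons (FT.cons (FT.cons (FT.leaf [(nat_lit 9755657)]) FT.nil) FT.nil) (FT.cons (FT.cons (FT.cons (FT.leaf [(nat_lit 10346347)]) FT.nil) FT.nil) FT.nil))))))))) (FT.cons (FT.cons (FT.cons (FT.cons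
 (FT.leaf [(nat_lit 6386464), (nat_lit 6526680), (nat_lit 6672572), (nat_lit 6822661), (nat_lit 6975856), (nat_lit 7131319), (nat_lit 7288386), (nat_lit 7446526), (nat_lit 7605307), (nat_lit 7764370), (nat_lit 7923418)]) (FT.cons (FT.leaf [(nat_lit 6652140), (nat_lit 6798589), (nat_lit 6948887), (nat_lit 7102006), (nat_lit 7257160), (nat_lit 7413727), (nat_lit 7571212), (nat_lit 7729205), (nat_lit 7887374), (nat_lit 8045440)]) (FT.cons (FT.leaf [(nat_lit 6924219), (nat_lit 7074574), (nat_lit 7227495), (nat_lit 7382243), (nat_lit 7538233), (nat_lit 7694998), (nat_lit 7852155), (nat_lit 8009391), (nat_lit 8166447)]) (FT.cons (FT.leaf [(nat_lit 7199652), (nat_lit 7352271), (nat_lit 7506527), (nat_lit 7661871), (nat_lit 7817862), (nat_lit 7974140), (nat_lit 8130411)]) (FT.cons (FT.leaf [(nat_lit 7476286), (nat_lit 7629978), (nat_lit 7784616), (nat_lit 7939786), (nat_lit 8095148)]) (FT.cons (FT.leaf [(nat_lit 7752564), (nat_lit 7906445),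 (nat_lit 8060753), (nat_lit 8215168)]) (FT.cons (FT.leaf [(nat_lit 8027341), (nat_lit 8180753)]) FT.nil))))))) (FT.cons (FT.cons (FT.leaf [(nat_lit 6827691), (nat_lit 6973422), (nat_lit 7122759), (nat_lit 7274715), (nat_lit 7428540), (nat_lit 7583642),
 (nat_lit 7739548), (nat_lit 7895873), (nat_lit 8052302), (nat_lit 8208573)]) (FT.cons (FT.leaf [(nat_lit 7097878), (nat_lit 7247164), (nat_lit 7398839), (nat_lit 7552190), (nat_lit 7706663), (nat_lit 7861811), (nat_lit 8017272), (nat_lit 8172752), (nat_lit 8328001)]) (FT.cons (FT.leaf [(nat_lit 7370915), (nat_lit 7522213), (nat_lit 7675017), (nat_lit 7828801), (nat_lit 7983144), (nat_lit 8137706), (nat_lit 8292206)]) (FT.cons (FT.leaf [(nat_lit 7644801), (nat_lit 7796992), (nat_lit 7950035), (nat_lit 8103532), (nat_lit 8257162)]) (FT.cons (FT.leaf [(nat_lit 7918090), (nat_lit 8070347), (nat_lit 8222964), (nat_lit 8375635)]) (FT.cons (FT.leaf [(nat_lit 8189723), (nat_lit 8341429)])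 FT.nil)))))) (FT.cons (FT.cons (FT.leaf [(nat_lit 7269410), (nat_lit 7417558), (nat_lit 7567932), (nat_lit 7719852), (nat_lit 7872784), (nat_lit 8026305)]) (FT.cons (FT.leaf [(nat_lit 7539958), (nat_lit 7689894), (nat_lit 7841219), (nat_lit 7993427), (nat_lit 8146117)]) (FT.cons (FT.leaf [(nat_lit 7811049), (nat_lit 7961720), (nat_lit 8113159), (nat_lit 8264984)]) (FT.cons (FT.leaf [(nat_lit 8081337), (nat_lit 8231967)]) (FT.cons (FT.leaf [(nat_lit 8349839)]) FT.nil))))) (FT.cons (FT.cons (FT.leaf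
 [(nat_lit 7706786), (nat_lit 7855330), (nat_lit 8005156), (nat_lit 8155779), (nat_lit 8306818)]) (FT.cons (FT.leaf [(nat_lit 7975050), (nat_lit 8124190), (nat_lit 8274022), (nat_lit 8424180)]) (FT.cons (FT.leaf [(nat_lit 8242335), (nat_lit 8391340)]) FT.nil))) (FT.cons (FT.cons (FT.leaf [(nat_lit 8136830), (nat_lit 8284433)]) (FT.cons (FT.leaf [(nat_lit 8401119)]) FT.nil)) (FT.cons (FT.cons (FT.leaf [(nat_lit 8557726)]) FT.nil) (FT.cons (FT.cons (FT.leaf [(nat_lit 8968419)]) FT.nil) FT.nil))))))) (FT.cons (FT.cons (FT.cons (FT.leaf [(nat_lit 7118865), (nat_lit 7261808), (nat_lit 7408159), (nat_lit 7556972), (nat_lit 7707529), (nat_lit 7859268), (nat_lit 8011741), (nat_lit 8164585)]) (FT.cons (FT.leaf [(nat_lit 7383479), (nat_lit 7529719), (nat_lit 7678208), (nat_lit 7828267), (nat_lit 7979365), (nat_lit 8131081), (nat_lit 8283071)]) (FT.cons (FT.leaf [(nat_lit 7650613), (nat_lit 7798696), (nat_lit 7948190), (nat_lit 8098596),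 (nat_lit 8249513)]) (FT.cons (FT.leaf [(nat_lit 7918401), (nat_lit 8067275), (nat_lit 8216942), (nat_lit 8367025)]) (FT.cons (FT.leaf [(nat_lit 8185500), (nat_lit 8334390)]) (FT.cons (FT.leaf [(nat_lit 8450928)]) FT.nil)))))) (FT.cons (FT.cons (FT.leaf
 [(nat_lit 7550750), (nat_lit 7695840), (nat_lit 7843034), (nat_lit 7991680), (nat_lit 8141269), (nat_lit 8291399)]) (FT.cons (FT.leaf [(nat_lit 7815407), (nat_lit 7962142), (nat_lit 8110184), (nat_lit 8259052), (nat_lit 8408363)]) (FT.cons (FT.leaf [(nat_lit 8080453), (nat_lit 8227840), (nat_lit 8375947), (nat_lit 8524409)]) (FT.cons (FT.leaf [(nat_lit 8344633), (nat_lit 8491943)]) (FT.cons (FT.leaf [(nat_lit 8607032)]) FT.nil))))) (FT.cons (FT.cons (FT.leaf [(nat_lit 7978055), (nat_lit 8123420), (nat_lit 8269997), (nat_lit 8417323), (nat_lit 8565032)]) (FT.cons (FT.leaf [(nat_lit 8240339), (nat_lit 8386234), (nat_lit 8532781), (nat_lit 8679629)]) (FT.cons (FT.leaf [(nat_lit 8501606),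 (nat_lit 8647341)]) FT.nil))) (FT.cons (FT.cons (FT.leaf [(nat_lit 8398088), (nat_lit 8542489)]) (FT.cons (FT.leaf [(nat_lit 8656453)]) FT.nil)) (FT.cons (FT.cons (FT.leaf [(nat_lit 8809213)]) FT.nil) (FT.cons (FT.cons (FT.leaf [(nat_lit 9210485)]) FT.nil) FT.nil)))))) (FT.cons (FT.cons (FT.cons (FT.leaf [(nat_lit 7824391), (nat_lit 7966506), (nat_lit 8110620), (nat_lit 8256105), (nat_lit 8402474), (nat_lit 8549344)]) (FT.cons (FT.leaf [(nat_lit 8083342), (nat_lit 8226984), (nat_lit 8371862),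
 (nat_lit 8517516), (nat_lit 8663581)]) (FT.cons (FT.leaf [(nat_lit 8342564), (nat_lit 8486790), (nat_lit 8631694), (nat_lit 8776928)]) (FT.cons (FT.leaf [(nat_lit 8600877), (nat_lit 8745000)]) FT.nil)))) (FT.cons (FT.cons (FT.leaf [(nat_lit 8241988), (nat_lit 8384286), (nat_lit 8527735), (nat_lit 8671891), (nat_lit 8816405)]) (FT.cons (FT.leaf [(nat_lit 8498518), (nat_lit 8641293), (nat_lit 8784684), (nat_lit 8928359)]) (FT.cons (FT.leaf [(nat_lit 8754008), (nat_lit 8896608)]) FT.nil))) (FT.cons (FT.cons (FT.leaf [(nat_lit 8652416)]) (FT.cons (FT.leaf [(nat_lit 8905101)]) FT.nil)) (FT.cons (FT.cons (FT.leaf [(nat_lit 9054191)]) FT.nil) (FT.cons (FT.cons (FT.leaf [(nat_lit 9446455)]) FT.nil) FT.nil))))) (FT.cons (FT.cons (FT.cons (FT.leaf [(nat_lit 8498939), (nat_lit 8638281), (nat_lit 8778720)]) (FT.cons (FT.leaf [(nat_lit 8749935), (nat_lit 8889711)]) (FT.cons (FT.leaf [(nat_lit 8999884)]) FT.nil))) (FT.cons (FT.cons (FT.leaf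 [(nat_lit 8900156)]) (FT.cons (FT.leaf [(nat_lit 9147391)]) FT.nil)) (FT.cons (FT.cons (FT.leaf [(nat_lit 9292978)]) FT.nil) FT.nil))) (FT.cons (FT.cons (FT.cons (FT.leaf [(nat_lit 9141625)]) FT.nil) (FT.cons (FT.cons (FT.leaf [(nat_lit 9525873)]) FT.nil)
 FT.nil)) (FT.cons (FT.cons (FT.cons (FT.leaf [(nat_lit 9753156)]) FT.nil) FT.nil) (FT.cons (FT.cons (FT.cons (FT.leaf [(nat_lit 10335017)]) FT.nil) FT.nil) (FT.cons (FT.cons (FT.cons (FT.leaf [(nat_lit 10889015)]) FT.nil) FT.nil) FT.nil)))))))) (FT.cons (FT.cons (FT.cons (FT.cons (FT.leaf [(nat_lit 7883295), (nat_lit 8015574), (nat_lit 8151066), (nat_lit 8288905), (nat_lit 8428439), (nat_lit 8569160), (nat_lit 8710663), (nat_lit 8852617)]) (FT.cons (FT.leaf [(nat_lit 8127903), (nat_lit 8263362), (nat_lit 8400979), (nat_lit 8540136), (nat_lit 8680355), (nat_lit 8821250), (nat_lit 8962510)]) (FT.cons (FT.leaf [(nat_lit 8375115), (nat_lit 8512437), (nat_lit 8651161), (nat_lit 8790829),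 (nat_lit 8931079)]) (FT.cons (FT.leaf [(nat_lit 8623252), (nat_lit 8761489), (nat_lit 8900567), (nat_lit 9040140)]) (FT.cons (FT.leaf [(nat_lit 8871104), (nat_lit 9009554)]) (FT.cons (FT.leaf [(nat_lit 9117780)]) FT.nil)))))) (FT.cons (FT.cons (FT.leaf [(nat_lit 8282020), (nat_lit 8416543), (nat_lit 8553097), (nat_lit 8691087), (nat_lit 8830052), (nat_lit 8969624)]) (FT.cons (FT.leaf [(nat_lit 8527190), (nat_lit 8663403), (nat_lit 8800923), (nat_lit 8939310), (nat_lit 9078218)]) (FT.cons (FT.leaf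
 [(nat_lit 8773049), (nat_lit 8910052), (nat_lit 9047827), (nat_lit 9186042)]) (FT.cons (FT.leaf [(nat_lit 9018461), (nat_lit 9155590)]) (FT.cons (FT.leaf [(nat_lit 9262593)]) FT.nil))))) (FT.cons (FT.cons (FT.leaf [(nat_lit 8677468), (nat_lit 8812547), (nat_lit 8948849), (nat_lit 9085950), (nat_lit 9223514)]) (FT.cons (FT.leaf [(nat_lit 8921026), (nat_lit 9056785), (nat_lit 9193253), (nat_lit 9330112)]) (FT.cons (FT.leaf [(nat_lit 9163996), (nat_lit 9299804)]) FT.nil))) (FT.cons (FT.cons (FT.leaf [(nat_lit 9067201)]) (FT.cons (FT.leaf [(nat_lit 9307732)]) FT.nil)) (FT.cons (FT.cons (FT.leaf [(nat_lit 9449698)]) FT.nil) (FT.cons (FT.cons (FT.leaf [(nat_lit 9824035)]) FT.nil) FT.nil)))))) (FT.cons (FT.cons (FT.cons (FT.leaf [(nat_lit 8533595), (nat_lit 8665636), (nat_lit 8799611), (nat_lit 8934948), (nat_lit 9071205), (nat_lit 9208028)]) (FT.cons (FT.leaf [(nat_lit 8773993), (nat_lit 8907611), (nat_lit 9042470), (nat_lit 9178150),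 (nat_lit 9314316)]) (FT.cons (FT.leaf [(nat_lit 9014959), (nat_lit 9149299), (nat_lit 9284370), (nat_lit 9419853)]) (FT.cons (FT.leaf [(nat_lit 9255423), (nat_lit 9389856)]) FT.nil)))) (FT.cons (FT.cons (FT.leaf [(nat_lit 8920909), (nat_lit 9053410),
 (nat_lit 9187075), (nat_lit 9321498), (nat_lit 9456356)]) (FT.cons (FT.leaf [(nat_lit 9159621), (nat_lit 9292746), (nat_lit 9426544), (nat_lit 9560710)]) (FT.cons (FT.leaf [(nat_lit 9397708), (nat_lit 9530856)]) FT.nil))) (FT.cons (FT.cons (FT.leaf [(nat_lit 9302543)]) (FT.cons (FT.leaf [(nat_lit 9538259)]) FT.nil)) (FT.cons (FT.cons (FT.leaf [(nat_lit 9677105)]) FT.nil) (FT.cons (FT.cons (FT.leaf [(nat_lit 10043746)]) FT.nil) FT.nil))))) (FT.cons (FT.cons (FT.cons (FT.leaf [(nat_lit 9158483), (nat_lit 9288487), (nat_lit 9419604)]) (FT.cons (FT.leaf [(nat_lit 9392514), (nat_lit 9523093)]) (FT.cons (FT.leaf [(nat_lit 9625892)]) FT.nil))) (FT.cons (FT.cons (FT.leaf [(nat_lit 9532313)])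 (FT.cons (FT.leaf [(nat_lit 9763389)]) FT.nil)) (FT.cons (FT.cons (FT.leaf [(nat_lit 9899243)]) FT.nil) FT.nil))) (FT.cons (FT.cons (FT.cons (FT.leaf [(nat_lit 9756755)]) FT.nil) (FT.cons (FT.cons (FT.leaf [(nat_lit 10116342)]) FT.nil) FT.nil)) (FT.cons (FT.cons (FT.cons (FT.leaf [(nat_lit 10328622)]) FT.nil) FT.nil) (FT.cons (FT.cons (FT.cons (FT.leaf [(nat_lit 10875023)]) FT.nil) FT.nil) FT.nil)))))) (FT.cons (FT.cons (FT.cons (FT.cons (FT.leaf [(nat_lit 9184219), (nat_lit 9307789), (nat_lit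
 9433224), (nat_lit 9559997), (nat_lit 9687699)]) (FT.cons (FT.leaf [(nat_lit 9409015), (nat_lit 9534175), (nat_lit 9660563), (nat_lit 9787792)]) (FT.cons (FT.leaf [(nat_lit 9634573), (nat_lit 9760539)]) (FT.cons (FT.leaf [(nat_lit 9859913)]) FT.nil)))) (FT.cons (FT.cons (FT.leaf [(nat_lit 9546063), (nat_lit 9670275), (nat_lit 9795647)]) (FT.cons (FT.leaf [(nat_lit 9769697), (nat_lit 9894626)]) (FT.cons (FT.leaf [(nat_lit 9992999)]) FT.nil))) (FT.cons (FT.cons (FT.leaf [(nat_lit 9903322)]) FT.nil) FT.nil))) (FT.cons (FT.cons (FT.cons (FT.leaf [(nat_lit 9767325), (nat_lit 9889391), (nat_lit 10012568)]) (FT.cons (FT.leaf [(nat_lit 9986930), (nat_lit 10109664)]) FT.nil)) (FT.cons (FT.cons (FT.leaf [(nat_lit 10117860)]) FT.nil) FT.nil)) (FT.cons (FT.cons (FT.cons (FT.leaf [(nat_lit 10327801)]) FT.nil) FT.nil) (FT.cons (FT.cons (FT.cons (FT.leaf [(nat_lit 10865552)]) FT.nil) FT.nil) FT.nil)))) (FT.cons (FT.cons (FT.cons (FT.cons (FT.leaf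 [(nat_lit 10333370)]) FT.nil) FT.nil) (FT.cons (FT.cons (FT.cons (FT.leaf [(nat_lit 10861201)]) FT.nil) FT.nil) FT.nil)) (FT.cons (FT.cons (FT.cons (FT.cons (FT.leaf [(nat_lit 11362026)]) FT.nil) FT.nil) FT.nil) (FT.cons (FT.cons (FT.cons (FT.cons
 (FT.leaf [(nat_lit 12292911)]) FT.nil) FT.nil) FT.nil) FT.nil)))))))

def f160_1_832 : FT := (FT.cons (FT.cons (FT.cons (FT.cons (FT.leaf [(nat_lit 4699920), (nat_lit 4842523), (nat_lit 4995583), (nat_lit 5156442), (nat_lit 5323184), (nat_lit 5494358), (nat_lit 5668824), (nat_lit 5845672), (nat_lit 6024160), (nat_lit 6203678), (nat_lit 6383723), (nat_lit 6563874), (nat_lit 6743785)]) (FT.cons (FT.leaf [(nat_lit 4981294), (nat_lit 5136408), (nat_lit 5298629), (nat_lit 5466170), (nat_lit 5637681), (nat_lit 5812104), (nat_lit 5988595), (nat_lit 6166467), (nat_lit 6345154), (nat_lit 6524193), (nat_lit 6703194), (nat_lit 6881836)]) (FT.cons (FT.leaf [(nat_lit 5277485), (nat_lit 5440725),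 (nat_lit 5608789), (nat_lit 5780414), (nat_lit 5954614), (nat_lit 6130602), (nat_lit 6307740), (nat_lit 6485505), (nat_lit 6663464), (nat_lit 6841259)]) (FT.cons (FT.leaf [(nat_lit 5582550), (nat_lit 5750898), (nat_lit 5922445), (nat_lit 6096265), (nat_lit 6271625), (nat_lit 6447930), (nat_lit 6624693), (nat_lit 6801511), (nat_lit 6978053)]) (FT.cons (FT.leaf [(nat_lit 5892379), (nat_lit 6063680), (nat_lit 6236986), (nat_lit 6411610), (nat_lit 6586995), (nat_lit 6762688), (nat_lit 6938313)]) (FT.cons (FT.leaf [(nat_lit 6204039), (nat_lit 6376714), (nat_lit 6550508), (nat_lit 6724900), (nat_lit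
 6899466)]) (FT.cons (FT.leaf [(nat_lit 6515400), (nat_lit 6688283), (nat_lit 6861619), (nat_lit 7035009)]) (FT.cons (FT.leaf [(nat_lit 6824905), (nat_lit 6997131)]) (FT.cons (FT.leaf [(nat_lit 7131419)]) (FT.cons (FT.leaf [(nat_lit 7434120)]) FT.nil)))))))))) (FT.cons (FT.cons (FT.leaf [(nat_lit 5181860), (nat_lit 5337138), (nat_lit 5499032), (nat_lit 5665828), (nat_lit 5836241), (nat_lit 6009272), (nat_lit 6184128), (nat_lit 6360165), (nat_lit 6536858), (nat_lit 6713773), (nat_lit 6890549)]) (FT.cons (FT.leaf [(nat_lit 5477326), (nat_lit 5639974), (nat_lit 5807077), (nat_lit 5977430), (nat_lit 6150100), (nat_lit 6324346), (nat_lit 6499567), (nat_lit 6675276), (nat_lit 6851067), (nat_lit 7026609)]) (FT.cons (FT.leaf [(nat_lit 5780503), (nat_lit 5947707), (nat_lit 6117834), (nat_lit 6290009), (nat_lit 6463536), (nat_lit 6637856), (nat_lit 6812514), (nat_lit 6987131), (nat_lit 7161399)]) (FT.cons (FT.leaf [(nat_lit 6087619), (nat_lit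 6257375), (nat_lit 6428938), (nat_lit 6601654), (nat_lit 6775000), (nat_lit 6948549), (nat_lit 7121949)]) (FT.cons (FT.leaf [(nat_lit 6395987), (nat_lit 6566836), (nat_lit 6738662), (nat_lit 6910971), (nat_lit 7083363)]) (FT.cons (FT.leaf [(nat_lit
 6703664), (nat_lit 6874531), (nat_lit 7045749), (nat_lit 7216945)]) (FT.cons (FT.leaf [(nat_lit 7009235), (nat_lit 7179318)]) (FT.cons (FT.leaf [(nat_lit 7311667)]) (FT.cons (FT.leaf [(nat_lit 7610214)]) FT.nil))))))))) (FT.cons (FT.cons (FT.leaf [(nat_lit 5674923), (nat_lit 5836771), (nat_lit 6002747), (nat_lit 6171702), (nat_lit 6342747), (nat_lit 6515183), (nat_lit 6688444), (nat_lit 6862072), (nat_lit 7035689), (nat_lit 7208982)]) (FT.cons (FT.leaf [(nat_lit 5975900), (nat_lit 6141823), (nat_lit 6310428), (nat_lit 6480882), (nat_lit 6652526), (nat_lit 6824831), (nat_lit 6997370), (nat_lit 7169788), (nat_lit 7341796)]) (FT.cons (FT.leaf [(nat_lit 6280108), (nat_lit 6448239), (nat_lit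 6618000), (nat_lit 6788773), (nat_lit 6960061), (nat_lit 7131462), (nat_lit 7302646)]) (FT.cons (FT.leaf [(nat_lit 6585079), (nat_lit 6754061), (nat_lit 6923894), (nat_lit 7094111), (nat_lit 7264335)]) (FT.cons (FT.leaf [(nat_lit 6889030), (nat_lit 7057866), (nat_lit 7226967), (nat_lit 7395979)]) (FT.cons (FT.leaf [(nat_lit 7190669), (nat_lit 7358617)]) (FT.cons (FT.leaf [(nat_lit 7489053)]) (FT.cons (FT.leaf [(nat_lit 7783505)]) FT.nil)))))))) (FT.cons (FT.cons (FT.leaf [(nat_lit 6168678),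
 (nat_lit 6333213), (nat_lit 6500217), (nat_lit 6668893), (nat_lit 6838618), (nat_lit 7008892), (nat_lit 7179308), (nat_lit 7349536)]) (FT.cons (FT.leaf [(nat_lit 6469831), (nat_lit 6636274), (nat_lit 6804193), (nat_lit 6972998), (nat_lit 7142220), (nat_lit 7311479), (nat_lit 7480462)]) (FT.cons (FT.leaf [(nat_lit 6771329), (nat_lit 6938415), (nat_lit 7106243), (nat_lit 7274369), (nat_lit 7442435)]) (FT.cons (FT.leaf [(nat_lit 7071534), (nat_lit 7238334), (nat_lit 7405326), (nat_lit 7572173)]) (FT.cons (FT.leaf [(nat_lit 7369257), (nat_lit 7535083)]) (FT.cons (FT.leaf [(nat_lit 7663638)]) FT.nil)))))) (FT.cons (FT.cons (FT.leaf [(nat_lit 6656787), (nat_lit 6821496), (nat_lit 6987544), (nat_lit 7154370), (nat_lit 7321527), (nat_lit 7488654)]) (FT.cons (FT.leaf [(nat_lit 6954764), (nat_lit 7119936), (nat_lit 7285754), (nat_lit 7451797), (nat_lit 7617723)]) (FT.cons (FT.leaf [(nat_lit 7251217), (nat_lit 7415985), (nat_lit 7580882),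 (nat_lit 7745586)]) (FT.cons (FT.leaf [(nat_lit 7545053), (nat_lit 7708777)]) (FT.cons (FT.leaf [(nat_lit 7835482)]) FT.nil))))) (FT.cons (FT.cons (FT.leaf [(nat_lit 7135415), (nat_lit 7298665), (nat_lit 7462478)]) (FT.cons (FT.leaf [(nat_lit 7428126),
 (nat_lit 7590873)]) (FT.cons (FT.leaf [(nat_lit 7718113)]) FT.nil))) (FT.cons (FT.cons (FT.leaf [(nat_lit 7602312)]) (FT.cons (FT.leaf [(nat_lit 7888495)]) FT.nil)) (FT.cons (FT.cons (FT.leaf [(nat_lit 8056257)]) FT.nil) (FT.cons (FT.cons (FT.leaf [(nat_lit 8496689)]) FT.nil) FT.nil))))))))) (FT.cons (FT.cons (FT.cons (FT.leaf [(nat_lit 5523233), (nat_lit 5675818), (nat_lit 5834593), (nat_lit 5997914), (nat_lit 6164562), (nat_lit 6333595), (nat_lit 6504268), (nat_lit 6675984), (nat_lit 6848253), (nat_lit 7020676), (nat_lit 7192918)]) (FT.cons (FT.leaf [(nat_lit 5812839), (nat_lit 5972178), (nat_lit 6135659), (nat_lit 6302138), (nat_lit 6470731), (nat_lit 6640746), (nat_lit 6811620),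 (nat_lit 6982898), (nat_lit 7154209), (nat_lit 7325241)]) (FT.cons (FT.leaf [(nat_lit 6109267), (nat_lit 6272729), (nat_lit 6438896), (nat_lit 6606936), (nat_lit 6776199), (nat_lit 6946159), (nat_lit 7116393), (nat_lit 7286548), (nat_lit 7456338)]) (FT.cons (FT.leaf [(nat_lit 6409042), (nat_lit 6574772), (nat_lit 6742160), (nat_lit 6910593), (nat_lit 7079578), (nat_lit 7248717), (nat_lit 7417682)]) (FT.cons (FT.leaf [(nat_lit 6709713), (nat_lit 6876362), (nat_lit 7043897), (nat_lit 7211855), (nat_lit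
 7379859)]) (FT.cons (FT.leaf [(nat_lit 7009510), (nat_lit 7176089), (nat_lit 7342973), (nat_lit 7509810)]) (FT.cons (FT.leaf [(nat_lit 7307149), (nat_lit 7472923)]) (FT.cons (FT.leaf [(nat_lit 7601695)]) (FT.cons (FT.leaf [(nat_lit 7892473)]) FT.nil))))))))) (FT.cons (FT.cons (FT.leaf [(nat_lit 6005163), (nat_lit 6163584), (nat_lit 6325862), (nat_lit 6490899), (nat_lit 6657856), (nat_lit 6826073), (nat_lit 6995022), (nat_lit 7164274), (nat_lit 7333477), (nat_lit 7502342)]) (FT.cons (FT.leaf [(nat_lit 6299242), (nat_lit 6461374), (nat_lit 6625997), (nat_lit 6792323), (nat_lit 6959731), (nat_lit 7127724), (nat_lit 7295901), (nat_lit 7463932), (nat_lit 7631547)]) (FT.cons (FT.leaf [(nat_lit 6596072), (nat_lit 6760174), (nat_lit 6925782), (nat_lit 7092312), (nat_lit 7259297), (nat_lit 7426359), (nat_lit 7593188)]) (FT.cons (FT.leaf [(nat_lit 6893384), (nat_lit 7058201), (nat_lit 7223795), (nat_lit 7389726), (nat_lit 7555639)]) (FT.cons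 (FT.leaf [(nat_lit 7189552), (nat_lit 7354160), (nat_lit 7519000), (nat_lit 7683736)]) (FT.cons (FT.leaf [(nat_lit 7483394), (nat_lit 7647111)]) (FT.cons (FT.leaf [(nat_lit 7774053)]) (FT.cons (FT.leaf [(nat_lit 8060913)]) FT.nil)))))))) (FT.cons
 (FT.cons (FT.leaf [(nat_lit 6486640), (nat_lit 6647357), (nat_lit 6810379), (nat_lit 6974950), (nat_lit 7140479), (nat_lit 7306496), (nat_lit 7472622), (nat_lit 7638543)]) (FT.cons (FT.leaf [(nat_lit 6780414), (nat_lit 6942844), (nat_lit 7106644), (nat_lit 7271259), (nat_lit 7436242), (nat_lit 7601237), (nat_lit 7765952)]) (FT.cons (FT.leaf [(nat_lit 7074320), (nat_lit 7237286), (nat_lit 7400934), (nat_lit 7564846), (nat_lit 7728683)]) (FT.cons (FT.leaf [(nat_lit 7366853), (nat_lit 7529493), (nat_lit 7692300), (nat_lit 7854957)]) (FT.cons (FT.leaf [(nat_lit 7656924), (nat_lit 7818601)]) (FT.cons (FT.leaf [(nat_lit 7943745)]) FT.nil)))))) (FT.cons (FT.cons (FT.leaf [(nat_lit 6962081),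 (nat_lit 7122805), (nat_lit 7284781), (nat_lit 7447475), (nat_lit 7610464), (nat_lit 7773408)]) (FT.cons (FT.leaf [(nat_lit 7252552), (nat_lit 7413658), (nat_lit 7575363), (nat_lit 7737268), (nat_lit 7899049)]) (FT.cons (FT.leaf [(nat_lit 7541458), (nat_lit 7702138), (nat_lit 7862931), (nat_lit 8023532)]) (FT.cons (FT.leaf [(nat_lit 7827793), (nat_lit 7987452)]) (FT.cons (FT.leaf [(nat_lit 8110830)]) FT.nil))))) (FT.cons (FT.cons (FT.leaf [(nat_lit 7428116), (nat_lit 7587361), (nat_lit 7747132)])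
 (FT.cons (FT.leaf [(nat_lit 7713415), (nat_lit 7872150)]) (FT.cons (FT.leaf [(nat_lit 7996056)]) FT.nil))) (FT.cons (FT.cons (FT.leaf [(nat_lit 7882775)]) (FT.cons (FT.leaf [(nat_lit 8161769)]) FT.nil)) (FT.cons (FT.cons (FT.leaf [(nat_lit 8324989)]) FT.nil) (FT.cons (FT.cons (FT.leaf [(nat_lit 8754278)]) FT.nil) FT.nil)))))))) (FT.cons (FT.cons (FT.cons (FT.leaf [(nat_lit 6325217), (nat_lit 6480242), (nat_lit 6638889), (nat_lit 6800110), (nat_lit 6963109), (nat_lit 7127262), (nat_lit 7292070), (nat_lit 7457132), (nat_lit 7622118), (nat_lit 7786759)]) (FT.cons (FT.leaf [(nat_lit 6612522), (nat_lit 6770953), (nat_lit 6931716), (nat_lit 7094059), (nat_lit 7257394), (nat_lit 7421255), (nat_lit 7585262), (nat_lit 7749108), (nat_lit 7912538)]) (FT.cons (FT.leaf [(nat_lit 6902194), (nat_lit 7062404), (nat_lit 7224016), (nat_lit 7386477), (nat_lit 7549344), (nat_lit 7712263), (nat_lit 7874943)]) (FT.cons (FT.leaf [(nat_lit 7192138),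 (nat_lit 7352956), (nat_lit 7514491), (nat_lit 7676327), (nat_lit 7838128)]) (FT.cons (FT.leaf [(nat_lit 7480855), (nat_lit 7641422), (nat_lit 7802194), (nat_lit 7962856)]) (FT.cons (FT.leaf [(nat_lit 7767260), (nat_lit 7926942)]) (FT.cons (FT.leaf [(nat_lit
 8050567)]) FT.nil))))))) (FT.cons (FT.cons (FT.leaf [(nat_lit 6794752), (nat_lit 6951762), (nat_lit 7110937), (nat_lit 7271558), (nat_lit 7433064), (nat_lit 7595010), (nat_lit 7757037), (nat_lit 7918853)]) (FT.cons (FT.leaf [(nat_lit 7081398), (nat_lit 7239962), (nat_lit 7399810), (nat_lit 7560411), (nat_lit 7721344), (nat_lit 7882273), (nat_lit 8042921)]) (FT.cons (FT.leaf [(nat_lit 7368018), (nat_lit 7527036), (nat_lit 7686688), (nat_lit 7846578), (nat_lit 8006384)]) (FT.cons (FT.leaf [(nat_lit 7653219), (nat_lit 7811886), (nat_lit 7970704), (nat_lit 8129368)]) (FT.cons (FT.leaf [(nat_lit 7935997), (nat_lit 8093719)]) (FT.cons (FT.leaf [(nat_lit 8215625)]) FT.nil)))))) (FT.cons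 (FT.cons (FT.leaf [(nat_lit 7258024), (nat_lit 7414919), (nat_lit 7572993), (nat_lit 7731736), (nat_lit 7890747)]) (FT.cons (FT.leaf [(nat_lit 7541305), (nat_lit 7698521), (nat_lit 7856298), (nat_lit 8014256)]) (FT.cons (FT.leaf [(nat_lit 7823007), (nat_lit 7979787)]) (FT.cons (FT.leaf [(nat_lit 8102197)]) (FT.cons (FT.leaf [(nat_lit 8378202)]) FT.nil))))) (FT.cons (FT.cons (FT.leaf [(nat_lit 7712039), (nat_lit 7867456), (nat_lit 8023370)]) (FT.cons (FT.leaf [(nat_lit 7990268), (nat_lit 8145177)])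
 (FT.cons (FT.leaf [(nat_lit 8265914)]) FT.nil))) (FT.cons (FT.cons (FT.leaf [(nat_lit 8155052)]) (FT.cons (FT.leaf [(nat_lit 8427204)]) FT.nil)) (FT.cons (FT.cons (FT.leaf [(nat_lit 8586119)]) FT.nil) FT.nil)))))) (FT.cons (FT.cons (FT.cons (FT.leaf [(nat_lit 7093519), (nat_lit 7246941), (nat_lit 7402411), (nat_lit 7559238), (nat_lit 7716889), (nat_lit 7874943)]) (FT.cons (FT.leaf [(nat_lit 7373297), (nat_lit 7528146), (nat_lit 7684203), (nat_lit 7840965), (nat_lit 7998031)]) (FT.cons (FT.leaf [(nat_lit 7652934), (nat_lit 7808173), (nat_lit 7964006), (nat_lit 8120057)]) (FT.cons (FT.leaf [(nat_lit 7931131), (nat_lit 8086006)]) FT.nil)))) (FT.cons (FT.cons (FT.leaf [(nat_lit 7545121), (nat_lit 7698344), (nat_lit 7852681), (nat_lit 8007648), (nat_lit 8162862)]) (FT.cons (FT.leaf [(nat_lit 7821522), (nat_lit 7975018), (nat_lit 8129044), (nat_lit 8283238)]) (FT.cons (FT.leaf [(nat_lit 8096349), (nat_lit 8249407)]) FT.nil))) (FT.cons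 (FT.cons (FT.leaf [(nat_lit 7987668), (nat_lit 8139428)]) (FT.cons (FT.leaf [(nat_lit 8259153)]) FT.nil)) (FT.cons (FT.cons (FT.leaf [(nat_lit 8419595)]) FT.nil) (FT.cons (FT.cons (FT.leaf [(nat_lit 8840061)]) FT.nil) FT.nil))))) (FT.cons (FT.cons (FT.cons
 (FT.leaf [(nat_lit 7823855), (nat_lit 7973551), (nat_lit 8124312)]) (FT.cons (FT.leaf [(nat_lit 8093670), (nat_lit 8243609)]) (FT.cons (FT.leaf [(nat_lit 8361933)]) FT.nil))) (FT.cons (FT.cons (FT.leaf [(nat_lit 8255456)]) (FT.cons (FT.leaf [(nat_lit 8520507)]) FT.nil)) (FT.cons (FT.cons (FT.leaf [(nat_lit 8676826)]) FT.nil) FT.nil))) (FT.cons (FT.cons (FT.cons (FT.leaf [(nat_lit 8515823)]) FT.nil) (FT.cons (FT.cons (FT.leaf [(nat_lit 8927133)]) FT.nil) FT.nil)) (FT.cons (FT.cons (FT.cons (FT.leaf [(nat_lit 9170877)]) FT.nil) FT.nil) (FT.cons (FT.cons (FT.cons (FT.leaf [(nat_lit 9791244)]) FT.nil) FT.nil) (FT.cons (FT.cons (FT.cons (FT.leaf [(nat_lit 10379425)]) FT.nil) FT.nil)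 FT.nil))))))))) (FT.cons (FT.cons (FT.cons (FT.cons (FT.leaf [(nat_lit 6440411), (nat_lit 6579716), (nat_lit 6724676), (nat_lit 6873822), (nat_lit 7026070), (nat_lit 7180589), (nat_lit 7336720), (nat_lit 7493936), (nat_lit 7651805), (nat_lit 7809973), (nat_lit 7968143)]) (FT.cons (FT.leaf [(nat_lit 6704359), (nat_lit 6849886), (nat_lit 6999252), (nat_lit 7151439), (nat_lit 7305666), (nat_lit 7461315), (nat_lit 7617892), (nat_lit 7774992), (nat_lit 7932285), (nat_lit 8089492)]) (FT.cons (FT.leaf [(nat_lit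
 6974722), (nat_lit 7124159), (nat_lit 7276164), (nat_lit 7430001), (nat_lit 7585090), (nat_lit 7740966), (nat_lit 7897249), (nat_lit 8053627), (nat_lit 8209842)]) (FT.cons (FT.leaf [(nat_lit 7248473), (nat_lit 7400191), (nat_lit 7553553), (nat_lit 7708014), (nat_lit 7863134), (nat_lit 8018556), (nat_lit 8173987)]) (FT.cons (FT.leaf [(nat_lit 7523474), (nat_lit 7676288), (nat_lit 7830060), (nat_lit 7984377), (nat_lit 8138902)]) (FT.cons (FT.leaf [(nat_lit 7798175), (nat_lit 7951207), (nat_lit 8104680), (nat_lit 8258275)]) (FT.cons (FT.leaf [(nat_lit 8071437), (nat_lit 8224030)]) (FT.cons (FT.leaf [(nat_lit 8342420)]) (FT.cons (FT.leaf [(nat_lit 8610504)]) FT.nil))))))))) (FT.cons (FT.cons (FT.leaf [(nat_lit 6878762), (nat_lit 7023595), (nat_lit 7172027), (nat_lit 7323079), (nat_lit 7476005), (nat_lit 7630216), (nat_lit 7785245), (nat_lit 7940706), (nat_lit 8096286), (nat_lit 8251726)]) (FT.cons (FT.leaf [(nat_lit 7147282), (nat_lit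 7295678), (nat_lit 7446463), (nat_lit 7598932), (nat_lit 7752531), (nat_lit 7906819), (nat_lit 8061435), (nat_lit 8216084), (nat_lit 8370521)]) (FT.cons (FT.leaf [(nat_lit 7418689), (nat_lit 7569114), (nat_lit 7721052), (nat_lit 7873980), (nat_lit
 8027480), (nat_lit 8181213), (nat_lit 8334901)]) (FT.cons (FT.leaf [(nat_lit 7690993), (nat_lit 7842335), (nat_lit 7994539), (nat_lit 8147211), (nat_lit 8300030)]) (FT.cons (FT.leaf [(nat_lit 7962757), (nat_lit 8114192), (nat_lit 8266001), (nat_lit 8417878)]) (FT.cons (FT.leaf [(nat_lit 8232925), (nat_lit 8383839)]) (FT.cons (FT.leaf [(nat_lit 8500720)]) (FT.cons (FT.leaf [(nat_lit 8765570)]) FT.nil)))))))) (FT.cons (FT.cons (FT.leaf [(nat_lit 7317754), (nat_lit 7465037), (nat_lit 7614549), (nat_lit 7765613), (nat_lit 7917700), (nat_lit 8070388), (nat_lit 8223333), (nat_lit 8376258)]) (FT.cons (FT.leaf [(nat_lit 7586722), (nat_lit 7735811), (nat_lit 7886296), (nat_lit 8037676), (nat_lit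 8189551), (nat_lit 8341598), (nat_lit 8493551)]) (FT.cons (FT.leaf [(nat_lit 7856281), (nat_lit 8006130), (nat_lit 8156756), (nat_lit 8307783), (nat_lit 8458903)]) (FT.cons (FT.leaf [(nat_lit 8125093), (nat_lit 8274927), (nat_lit 8425075), (nat_lit 8575246)]) (FT.cons (FT.leaf [(nat_lit 8392177), (nat_lit 8541420)]) (FT.cons (FT.leaf [(nat_lit 8656813)]) FT.nil)))))) (FT.cons (FT.cons (FT.leaf [(nat_lit 7752575), (nat_lit 7900297), (nat_lit 8049310), (nat_lit 8199132), (nat_lit 8349380)]) (FT.cons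
 (FT.leaf [(nat_lit 8019356), (nat_lit 8167699), (nat_lit 8316745), (nat_lit 8466130)]) (FT.cons (FT.leaf [(nat_lit 8285213), (nat_lit 8433447)]) (FT.cons (FT.leaf [(nat_lit 8549231)]) (FT.cons (FT.leaf [(nat_lit 8810742)]) FT.nil))))) (FT.cons (FT.cons (FT.leaf [(nat_lit 8180243), (nat_lit 8327073), (nat_lit 8474538)]) (FT.cons (FT.leaf [(nat_lit 8443149), (nat_lit 8589789)]) (FT.cons (FT.leaf [(nat_lit 8704125)]) FT.nil))) (FT.cons (FT.cons (FT.leaf [(nat_lit 8598937)]) (FT.cons (FT.leaf [(nat_lit 8856900)]) FT.nil)) (FT.cons (FT.cons (FT.leaf [(nat_lit 9007596)]) FT.nil) FT.nil))))))) (FT.cons (FT.cons (FT.cons (FT.leaf [(nat_lit 7168032), (nat_lit 7310129), (nat_lit 7455629), (nat_lit 7603591), (nat_lit 7753302), (nat_lit 7904204), (nat_lit 8055851), (nat_lit 8207882), (nat_lit 8360001), (nat_lit 8511962)]) (FT.cons (FT.leaf [(nat_lit 7431078), (nat_lit 7576480), (nat_lit 7724133), (nat_lit 7873361), (nat_lit 8023639), (nat_lit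 8174545), (nat_lit 8325739), (nat_lit 8476942), (nat_lit 8627924)]) (FT.cons (FT.leaf [(nat_lit 7696680), (nat_lit 7843941), (nat_lit 7992620), (nat_lit 8142221), (nat_lit 8292345), (nat_lit 8442670), (nat_lit 8592934)]) (FT.cons (FT.leaf [(nat_lit
 7962982), (nat_lit 8111056), (nat_lit 8259934), (nat_lit 8409240), (nat_lit 8558669)]) (FT.cons (FT.leaf [(nat_lit 8228646), (nat_lit 8376762), (nat_lit 8525220), (nat_lit 8673730)]) (FT.cons (FT.leaf [(nat_lit 8492695), (nat_lit 8640278)]) (FT.cons (FT.leaf [(nat_lit 8754410)]) FT.nil))))))) (FT.cons (FT.cons (FT.leaf [(nat_lit 7597356), (nat_lit 7741632), (nat_lit 7888015), (nat_lit 8035855), (nat_lit 8184649), (nat_lit 8333995), (nat_lit 8483567), (nat_lit 8633100)]) (FT.cons (FT.leaf [(nat_lit 7860527), (nat_lit 8006465), (nat_lit 8153718), (nat_lit 8301805), (nat_lit 8450348), (nat_lit 8599039), (nat_lit 8747627)]) (FT.cons (FT.leaf [(nat_lit 8124133), (nat_lit 8270746), (nat_lit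 8418088), (nat_lit 8565797), (nat_lit 8713583)]) (FT.cons (FT.leaf [(nat_lit 8386924), (nat_lit 8533485), (nat_lit 8680335), (nat_lit 8827196)]) (FT.cons (FT.leaf [(nat_lit 8647989), (nat_lit 8793956)]) (FT.cons (FT.leaf [(nat_lit 8906657)]) FT.nil)))))) (FT.cons (FT.cons (FT.leaf [(nat_lit 8022261), (nat_lit 8166853), (nat_lit 8312664), (nat_lit 8459235), (nat_lit 8606200)]) (FT.cons (FT.leaf [(nat_lit 8283150), (nat_lit 8428295), (nat_lit 8574100), (nat_lit 8720220)]) (FT.cons (FT.leaf [(nat_lit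
 8543072), (nat_lit 8688082)]) (FT.cons (FT.leaf [(nat_lit 8801174)]) (FT.cons (FT.leaf [(nat_lit 9056831)]) FT.nil))))) (FT.cons (FT.cons (FT.leaf [(nat_lit 8440061), (nat_lit 8583733), (nat_lit 8728006)]) (FT.cons (FT.leaf [(nat_lit 8697123), (nat_lit 8840590)]) (FT.cons (FT.leaf [(nat_lit 8952290)]) FT.nil))) (FT.cons (FT.cons (FT.leaf [(nat_lit 8849114)]) (FT.cons (FT.leaf [(nat_lit 9101373)]) FT.nil)) (FT.cons (FT.cons (FT.leaf [(nat_lit 9248468)]) FT.nil) FT.nil)))))) (FT.cons (FT.cons (FT.cons (FT.leaf [(nat_lit 7869374), (nat_lit 8010722), (nat_lit 8154071), (nat_lit 8298797), (nat_lit 8444417), (nat_lit 8590547)]) (FT.cons (FT.leaf [(nat_lit 8126926), (nat_lit 8269816), (nat_lit 8413950), (nat_lit 8558869), (nat_lit 8704209)]) (FT.cons (FT.leaf [(nat_lit 8384791), (nat_lit 8528287), (nat_lit 8672470), (nat_lit 8816995)]) (FT.cons (FT.leaf [(nat_lit 8641796), (nat_lit 8785212)]) FT.nil)))) (FT.cons (FT.cons (FT.leaf [(nat_lit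 8284714), (nat_lit 8426283), (nat_lit 8569010), (nat_lit 8712454), (nat_lit 8856265)]) (FT.cons (FT.leaf [(nat_lit 8539929), (nat_lit 8681996), (nat_lit 8824688), (nat_lit 8967674)]) (FT.cons (FT.leaf [(nat_lit 8794152), (nat_lit 8936066)]) FT.nil)))
 (FT.cons (FT.cons (FT.leaf [(nat_lit 8693039), (nat_lit 8833676)]) (FT.cons (FT.leaf [(nat_lit 8944494)]) FT.nil)) (FT.cons (FT.cons (FT.leaf [(nat_lit 9092859)]) FT.nil) (FT.cons (FT.cons (FT.leaf [(nat_lit 9483313)]) FT.nil) FT.nil))))) (FT.cons (FT.cons (FT.cons (FT.leaf [(nat_lit 8540277), (nat_lit 8678931), (nat_lit 8818688)]) (FT.cons (FT.leaf [(nat_lit 8790033), (nat_lit 8929139)]) (FT.cons (FT.leaf [(nat_lit 9038784)]) FT.nil))) (FT.cons (FT.cons (FT.leaf [(nat_lit 8939510)]) (FT.cons (FT.leaf [(nat_lit 9185585)]) FT.nil)) (FT.cons (FT.cons (FT.leaf [(nat_lit 9330488)]) FT.nil) FT.nil))) (FT.cons (FT.cons (FT.cons (FT.leaf [(nat_lit 9179787)]) FT.nil) (FT.cons (FT.cons (FT.leaf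 [(nat_lit 9562291)]) FT.nil) FT.nil)) (FT.cons (FT.cons (FT.cons (FT.leaf [(nat_lit 9788542)]) FT.nil) FT.nil) (FT.cons (FT.cons (FT.cons (FT.leaf [(nat_lit 10367966)]) FT.nil) FT.nil) (FT.cons (FT.cons (FT.cons (FT.leaf [(nat_lit 10919815)]) FT.nil) FT.nil) FT.nil)))))))) (FT.cons (FT.cons (FT.cons (FT.cons (FT.leaf [(nat_lit 7927531), (nat_lit 8059122), (nat_lit 8193920), (nat_lit 8331063), (nat_lit 8469905), (nat_lit 8609938), (nat_lit 8750759), (nat_lit 8892041)]) (FT.cons (FT.leaf [(nat_lit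
 8170864), (nat_lit 8305638), (nat_lit 8442570), (nat_lit 8581045), (nat_lit 8720587), (nat_lit 8860813), (nat_lit 9001414)]) (FT.cons (FT.leaf [(nat_lit 8416824), (nat_lit 8553471), (nat_lit 8691523), (nat_lit 8830527), (nat_lit 8970120)]) (FT.cons (FT.leaf [(nat_lit 8663739), (nat_lit 8801317), (nat_lit 8939741), (nat_lit 9078669)]) (FT.cons (FT.leaf [(nat_lit 8910407), (nat_lit 9048215)]) (FT.cons (FT.leaf [(nat_lit 9155938)]) FT.nil)))))) (FT.cons (FT.cons (FT.leaf [(nat_lit 8324173), (nat_lit 8458029), (nat_lit 8593915), (nat_lit 8731242), (nat_lit 8869549), (nat_lit 9008471)]) (FT.cons (FT.leaf [(nat_lit 8568125), (nat_lit 8703680), (nat_lit 8840547), (nat_lit 8978289), (nat_lit 9116558)]) (FT.cons (FT.leaf [(nat_lit 8812796), (nat_lit 8949158), (nat_lit 9086297), (nat_lit 9223885)]) (FT.cons (FT.leaf [(nat_lit 9057058), (nat_lit 9193563)]) (FT.cons (FT.leaf [(nat_lit 9300077)]) FT.nil))))) (FT.cons (FT.cons (FT.leaf [(nat_lit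 8717652), (nat_lit 8852092), (nat_lit 8987758), (nat_lit 9124231), (nat_lit 9261174)]) (FT.cons (FT.leaf [(nat_lit 8960056), (nat_lit 9095190), (nat_lit 9231042), (nat_lit 9367291)]) (FT.cons (FT.leaf [(nat_lit 9201907), (nat_lit 9337109)]) FT.nil)))
 (FT.cons (FT.cons (FT.leaf [(nat_lit 9105536), (nat_lit 9239438)]) (FT.cons (FT.leaf [(nat_lit 9344980)]) FT.nil)) (FT.cons (FT.cons (FT.leaf [(nat_lit 9486303)]) FT.nil) (FT.cons (FT.cons (FT.leaf [(nat_lit 9859026)]) FT.nil) FT.nil)))))) (FT.cons (FT.cons (FT.cons (FT.leaf [(nat_lit 8574425), (nat_lit 8705833), (nat_lit 8839175), (nat_lit 8973883), (nat_lit 9109515), (nat_lit 9245722)]) (FT.cons (FT.leaf [(nat_lit 8813668), (nat_lit 8946663), (nat_lit 9080903), (nat_lit 9215970), (nat_lit 9351530)]) (FT.cons (FT.leaf [(nat_lit 9053509), (nat_lit 9187241), (nat_lit 9321709), (nat_lit 9456597)]) (FT.cons (FT.leaf [(nat_lit 9292882), (nat_lit 9426723)]) FT.nil)))) (FT.cons (FT.cons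 (FT.leaf [(nat_lit 8959875), (nat_lit 9091770), (nat_lit 9224832), (nat_lit 9358659), (nat_lit 9492928)]) (FT.cons (FT.leaf [(nat_lit 9197493), (nat_lit 9330025), (nat_lit 9463238), (nat_lit 9596825)]) (FT.cons (FT.leaf [(nat_lit 9434519), (nat_lit 9567092)]) FT.nil))) (FT.cons (FT.cons (FT.leaf [(nat_lit 9339758), (nat_lit 9471086)]) (FT.cons (FT.leaf [(nat_lit 9574443)]) FT.nil)) (FT.cons (FT.cons (FT.leaf [(nat_lit 9712679)]) FT.nil) (FT.cons (FT.cons (FT.leaf [(nat_lit 10077788)]) FT.nil) FT.nil)))))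
 (FT.cons (FT.cons (FT.cons (FT.leaf [(nat_lit 9196301), (nat_lit 9325729), (nat_lit 9456273)]) (FT.cons (FT.leaf [(nat_lit 9429293), (nat_lit 9559309)]) (FT.cons (FT.leaf [(nat_lit 9661664)]) FT.nil))) (FT.cons (FT.cons (FT.leaf [(nat_lit 9568469)]) (FT.cons (FT.leaf [(nat_lit 9798566)]) FT.nil)) (FT.cons (FT.cons (FT.leaf [(nat_lit 9933842)]) FT.nil) FT.nil))) (FT.cons (FT.cons (FT.cons (FT.leaf [(nat_lit 9791910)]) FT.nil) (FT.cons (FT.cons (FT.leaf [(nat_lit 10150016)]) FT.nil) FT.nil)) (FT.cons (FT.cons (FT.cons (FT.leaf [(nat_lit 10361419)]) FT.nil) FT.nil) (FT.cons (FT.cons (FT.cons (FT.leaf [(nat_lit 10905727)]) FT.nil) FT.nil) FT.nil)))))) (FT.cons (FT.cons (FT.cons (FT.cons (FT.leaf [(nat_lit 9221649), (nat_lit 9344686), (nat_lit 9469586), (nat_lit 9595827), (nat_lit 9723000)]) (FT.cons (FT.leaf [(nat_lit 9445472), (nat_lit 9570105), (nat_lit 9695969), (nat_lit 9822676)]) (FT.cons (FT.leaf [(nat_lit 9670078), (nat_lit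 9795528)]) (FT.cons (FT.leaf [(nat_lit 9894492)]) FT.nil)))) (FT.cons (FT.cons (FT.leaf [(nat_lit 9581922), (nat_lit 9705620), (nat_lit 9830480)]) (FT.cons (FT.leaf [(nat_lit 9804628), (nat_lit 9929053)]) (FT.cons (FT.leaf [(nat_lit 10027027)]) FT.nil)))
 (FT.cons (FT.cons (FT.leaf [(nat_lit 9937695)]) (FT.cons (FT.leaf [(nat_lit 10158080)]) FT.nil)) (FT.cons (FT.cons (FT.leaf [(nat_lit 10287669)]) FT.nil) FT.nil)))) (FT.cons (FT.cons (FT.cons (FT.leaf [(nat_lit 9802215), (nat_lit 9923790), (nat_lit 10046478)]) (FT.cons (FT.leaf [(nat_lit 10020935), (nat_lit 10143187)]) (FT.cons (FT.leaf [(nat_lit 10239310)]) FT.nil))) (FT.cons (FT.cons (FT.leaf [(nat_lit 10151334)]) (FT.cons (FT.leaf [(nat_lit 10367746)]) FT.nil)) (FT.cons (FT.cons (FT.leaf [(nat_lit 10494766)]) FT.nil) FT.nil))) (FT.cons (FT.cons (FT.cons (FT.leaf [(nat_lit 10360420)]) FT.nil) (FT.cons (FT.cons (FT.leaf [(nat_lit 10697532)]) FT.nil) FT.nil)) (FT.cons (FT.cons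 (FT.cons (FT.leaf [(nat_lit 10896140)]) FT.nil) FT.nil) FT.nil)))) (FT.cons (FT.cons (FT.cons (FT.cons (FT.leaf [(nat_lit 10365784)]) FT.nil) FT.nil) (FT.cons (FT.cons (FT.cons (FT.leaf [(nat_lit 10891651)]) FT.nil) FT.nil) FT.nil)) (FT.cons (FT.cons (FT.cons (FT.cons (FT.leaf [(nat_lit 11390595)]) FT.nil) FT.nil) FT.nil) (FT.cons (FT.cons (FT.cons (FT.cons (FT.leaf [(nat_lit 12318444)]) FT.nil) FT.nil) FT.nil) FT.nil)))))))

def f160_1_849 : FT := (FT.cons (FT.cons (FT.cons (FT.cons (FT.leaf [(nat_lit 4761688), (nat_lit 4903185), (nat_lit 5055076), (nat_lit 5214729), (nat_lit 5380245), (nat_lit 5550185), (nat_lit 5723421), (nat_lit 5899049), (nat_lit 6076332), (nat_lit 6254667), (nat_lit 6433552)]) (FT.cons (FT.leaf [(nat_lit 5040876), (nat_lit 5194826), (nat_lit 5355851), (nat_lit 5522182), (nat_lit 5692479), (nat_lit 5865694), (nat_lit 6040990), (nat_lit 6217683), (nat_lit 6395215), (nat_lit 6573122)]) (FT.cons (FT.leaf [(nat_lit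 5334843), (nat_lit 5496901), (nat_lit 5663772), (nat_lit 5834205), (nat_lit 6007221), (nat_lit 6182039), (nat_lit 6358027), (nat_lit 6534663), (nat_lit 6711518)]) (FT.cons (FT.leaf [(nat_lit 5637701), (nat_lit 5804877), (nat_lit 5975253), (nat_lit 6147913), (nat_lit 6322130), (nat_lit 6497311), (nat_lit 6672972)]) (FT.cons (FT.leaf [(nat_lit 5945374), (nat_lit 6115527), (nat_lit 6287699), (nat_lit 6461205), (nat_lit 6635493)]) (FT.cons (FT.leaf [(nat_lit 6254951), (nat_lit 6426517), (nat_lit 6599219), (nat_lit 6772540)]) (FT.cons (FT.leaf [(nat_lit 6564315), (nat_lit 6736133)]) (FT.cons (FT.leaf [(nat_lit 6871916)]) (FT.cons (FT.leaf [(nat_lit 7176622)]) FT.nil))))))))) (FT.cons (FT.cons (FT.leaf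
 [(nat_lit 5239882), (nat_lit 5394024), (nat_lit 5554756), (nat_lit 5720378), (nat_lit 5889617), (nat_lit 6061482), (nat_lit 6235185), (nat_lit 6410089), (nat_lit 6585668), (nat_lit 6761494)]) (FT.cons (FT.leaf [(nat_lit 5533186), (nat_lit 5694687), (nat_lit 5860636), (nat_lit 6029837), (nat_lit 6201365), (nat_lit 6374483), (nat_lit 6548596), (nat_lit 6723219), (nat_lit 6897949)]) (FT.cons (FT.leaf [(nat_lit 5834228), (nat_lit 6000297), (nat_lit 6169295), (nat_lit 6340351), (nat_lit 6512777), (nat_lit 6686016), (nat_lit 6859613)]) (FT.cons (FT.leaf [(nat_lit 6139263), (nat_lit 6307913), (nat_lit 6478382), (nat_lit 6650022), (nat_lit 6822312)]) (FT.cons (FT.leaf [(nat_lit 6445626), (nat_lit 6615406), (nat_lit 6786180), (nat_lit 6957459)]) (FT.cons (FT.leaf [(nat_lit 6751382), (nat_lit 6921222)]) (FT.cons (FT.leaf [(nat_lit 7055121)]) (FT.cons (FT.leaf [(nat_lit 7355814)]) FT.nil)))))))) (FT.cons (FT.cons (FT.leaf [(nat_lit 5729342),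 (nat_lit 5890078), (nat_lit 6054938), (nat_lit 6222780), (nat_lit 6392724), (nat_lit 6564073), (nat_lit 6736268), (nat_lit 6908851)]) (FT.cons (FT.leaf [(nat_lit 6028254), (nat_lit 6193082), (nat_lit 6360597), (nat_lit 6529973), (nat_lit 6700555),
 (nat_lit 6871820), (nat_lit 7043339)]) (FT.cons (FT.leaf [(nat_lit 6330457), (nat_lit 6497521), (nat_lit 6666228), (nat_lit 6835965), (nat_lit 7006236)]) (FT.cons (FT.leaf [(nat_lit 6633496), (nat_lit 6801448), (nat_lit 6970270), (nat_lit 7139495)]) (FT.cons (FT.leaf [(nat_lit 6935600), (nat_lit 7103447)]) (FT.cons (FT.leaf [(nat_lit 7235477)]) FT.nil)))))) (FT.cons (FT.cons (FT.leaf [(nat_lit 6219717), (nat_lit 6383194), (nat_lit 6549146), (nat_lit 6716784), (nat_lit 6885487), (nat_lit 7054758)]) (FT.cons (FT.leaf [(nat_lit 6518936), (nat_lit 6684351), (nat_lit 6851254), (nat_lit 7019062), (nat_lit 7187306)]) (FT.cons (FT.leaf [(nat_lit 6818575), (nat_lit 6984669), (nat_lit 7151523),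 (nat_lit 7318694)]) (FT.cons (FT.leaf [(nat_lit 7117002), (nat_lit 7282850)]) (FT.cons (FT.leaf [(nat_lit 7413031)]) FT.nil))))) (FT.cons (FT.cons (FT.leaf [(nat_lit 6704700), (nat_lit 6868417), (nat_lit 7033487)]) (FT.cons (FT.leaf [(nat_lit 7000886), (nat_lit 7165103)]) (FT.cons (FT.leaf [(nat_lit 7295628)]) FT.nil))) (FT.cons (FT.cons (FT.leaf [(nat_lit 7180459)]) (FT.cons (FT.leaf [(nat_lit 7471524)]) FT.nil)) (FT.cons (FT.cons (FT.leaf [(nat_lit 7644737)]) FT.nil) FT.nil))))))) (FT.cons (FT.cons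
 (FT.cons (FT.leaf [(nat_lit 5578610), (nat_lit 5730132), (nat_lit 5887822), (nat_lit 6050050), (nat_lit 6215604), (nat_lit 6383552), (nat_lit 6553154), (nat_lit 6723815), (nat_lit 6895051), (nat_lit 7066460)]) (FT.cons (FT.leaf [(nat_lit 5866200), (nat_lit 6024469), (nat_lit 6186875), (nat_lit 6352281), (nat_lit 6519813), (nat_lit 6688778), (nat_lit 6858622), (nat_lit 7028891), (nat_lit 7199213)]) (FT.cons (FT.leaf [(nat_lit 6160640), (nat_lit 6323046), (nat_lit 6488161), (nat_lit 6655162), (nat_lit 6823400), (nat_lit 6992354), (nat_lit 7161601)]) (FT.cons (FT.leaf [(nat_lit 6458481), (nat_lit 6623181), (nat_lit 6789552), (nat_lit 6956984), (nat_lit 7124986)]) (FT.cons (FT.leaf [(nat_lit 6757287), (nat_lit 6922942), (nat_lit 7089499), (nat_lit 7256497)]) (FT.cons (FT.leaf [(nat_lit 7055298), (nat_lit 7220922)]) (FT.cons (FT.leaf [(nat_lit 7351234)]) FT.nil))))))) (FT.cons (FT.cons (FT.leaf [(nat_lit 6057189), (nat_lit 6214574),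 (nat_lit 6375812), (nat_lit 6539813), (nat_lit 6705745), (nat_lit 6872952), (nat_lit 7040909), (nat_lit 7209188)]) (FT.cons (FT.leaf [(nat_lit 6349347), (nat_lit 6510458), (nat_lit 6674067), (nat_lit 6839390), (nat_lit 7005810), (nat_lit 7172833), (nat_lit
 7340062)]) (FT.cons (FT.leaf [(nat_lit 6644311), (nat_lit 6807420), (nat_lit 6972048), (nat_lit 7137613), (nat_lit 7303651)]) (FT.cons (FT.leaf [(nat_lit 6939827), (nat_lit 7103685), (nat_lit 7268337), (nat_lit 7433344)]) (FT.cons (FT.leaf [(nat_lit 7234276), (nat_lit 7397963)]) (FT.cons (FT.leaf [(nat_lit 7526478)]) FT.nil)))))) (FT.cons (FT.cons (FT.leaf [(nat_lit 6535527), (nat_lit 6695257), (nat_lit 6857300), (nat_lit 7020904), (nat_lit 7185482), (nat_lit 7350566)]) (FT.cons (FT.leaf [(nat_lit 6827501), (nat_lit 6988973), (nat_lit 7151828), (nat_lit 7315513), (nat_lit 7479584)]) (FT.cons (FT.leaf [(nat_lit 7119677), (nat_lit 7281719), (nat_lit 7444459), (nat_lit 7607481)])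 (FT.cons (FT.leaf [(nat_lit 7410555), (nat_lit 7572308)]) (FT.cons (FT.leaf [(nat_lit 7699047)]) FT.nil))))) (FT.cons (FT.cons (FT.leaf [(nat_lit 7008063), (nat_lit 7167863), (nat_lit 7328927)]) (FT.cons (FT.leaf [(nat_lit 7296866), (nat_lit 7457082)]) (FT.cons (FT.leaf [(nat_lit 7584178)]) FT.nil))) (FT.cons (FT.cons (FT.leaf [(nat_lit 7471429)]) (FT.cons (FT.leaf [(nat_lit 7755192)]) FT.nil)) (FT.cons (FT.cons (FT.leaf [(nat_lit 7923645)]) FT.nil) FT.nil)))))) (FT.cons (FT.cons (FT.cons (FT.leaf [(nat_lit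
 6375036), (nat_lit 6529094), (nat_lit 6686771), (nat_lit 6847027), (nat_lit 7009070), (nat_lit 7172280), (nat_lit 7336164), (nat_lit 7500319)]) (FT.cons (FT.leaf [(nat_lit 6660550), (nat_lit 6818030), (nat_lit 6977847), (nat_lit 7139255), (nat_lit 7301669), (nat_lit 7464626), (nat_lit 7627747)]) (FT.cons (FT.leaf [(nat_lit 6948485), (nat_lit 7107769), (nat_lit 7268467), (nat_lit 7430027), (nat_lit 7592011)]) (FT.cons (FT.leaf [(nat_lit 7236756), (nat_lit 7396679), (nat_lit 7557334), (nat_lit 7718308)]) (FT.cons (FT.leaf [(nat_lit 7523870), (nat_lit 7683577)]) (FT.cons (FT.leaf [(nat_lit 7808745)]) FT.nil)))))) (FT.cons (FT.cons (FT.leaf [(nat_lit 6841650), (nat_lit 6997741), (nat_lit 7156003), (nat_lit 7315722), (nat_lit 7476339), (nat_lit 7637413)]) (FT.cons (FT.leaf [(nat_lit 7126620), (nat_lit 7284290), (nat_lit 7443255), (nat_lit 7602988), (nat_lit 7763070)]) (FT.cons (FT.leaf [(nat_lit 7411626), (nat_lit 7569782), (nat_lit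 7728586), (nat_lit 7887643)]) (FT.cons (FT.leaf [(nat_lit 7695283), (nat_lit 7853121)]) (FT.cons (FT.leaf [(nat_lit 7976586)]) FT.nil))))) (FT.cons (FT.cons (FT.leaf [(nat_lit 7302218), (nat_lit 7458251), (nat_lit 7615473)]) (FT.cons (FT.leaf [(nat_lit
 7583944), (nat_lit 7740327)]) (FT.cons (FT.leaf [(nat_lit 7864156)]) FT.nil))) (FT.cons (FT.cons (FT.leaf [(nat_lit 7753745)]) (FT.cons (FT.leaf [(nat_lit 8030538)]) FT.nil)) (FT.cons (FT.cons (FT.leaf [(nat_lit 8194476)]) FT.nil) FT.nil))))) (FT.cons (FT.cons (FT.cons (FT.leaf [(nat_lit 7138577), (nat_lit 7291140), (nat_lit 7445756), (nat_lit 7601740), (nat_lit 7758561)]) (FT.cons (FT.leaf [(nat_lit 7416790), (nat_lit 7570803), (nat_lit 7726035), (nat_lit 7881985)]) (FT.cons (FT.leaf [(nat_lit 7694919), (nat_lit 7849351)]) (FT.cons (FT.leaf [(nat_lit 7971673)]) FT.nil)))) (FT.cons (FT.cons (FT.leaf [(nat_lit 7587657), (nat_lit 7740073), (nat_lit 7893613)]) (FT.cons (FT.leaf [(nat_lit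 7862604), (nat_lit 8015320)]) (FT.cons (FT.leaf [(nat_lit 8136037)]) FT.nil))) (FT.cons (FT.cons (FT.leaf [(nat_lit 8027880)]) (FT.cons (FT.leaf [(nat_lit 8298020)]) FT.nil)) FT.nil))) (FT.cons (FT.cons (FT.cons (FT.leaf [(nat_lit 7864850)]) FT.nil) (FT.cons (FT.cons (FT.leaf [(nat_lit 8294275)]) FT.nil) FT.nil)) (FT.cons (FT.cons (FT.cons (FT.leaf [(nat_lit 8553340)]) FT.nil) FT.nil) (FT.cons (FT.cons (FT.cons (FT.leaf [(nat_lit 9205404)]) FT.nil) FT.nil) (FT.cons (FT.cons (FT.cons (FT.leaf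
 [(nat_lit 9823183)]) FT.nil) FT.nil) (FT.cons (FT.cons (FT.cons (FT.leaf [(nat_lit 10409110)]) FT.nil) FT.nil) FT.nil))))))))) (FT.cons (FT.cons (FT.cons (FT.cons (FT.leaf [(nat_lit 6488878), (nat_lit 6627362), (nat_lit 6771479), (nat_lit 6919774), (nat_lit 7071169), (nat_lit 7224836), (nat_lit 7380124), (nat_lit 7536506), (nat_lit 7693554), (nat_lit 7850915)]) (FT.cons (FT.leaf [(nat_lit 6751266), (nat_lit 6895961), (nat_lit 7044487), (nat_lit 7195834), (nat_lit 7349225), (nat_lit 7504046), (nat_lit 7659806), (nat_lit 7816103), (nat_lit 7972606)]) (FT.cons (FT.leaf [(nat_lit 7020082), (nat_lit 7168692), (nat_lit 7319871), (nat_lit 7472886), (nat_lit 7627163), (nat_lit 7782238), (nat_lit 7937734)]) (FT.cons (FT.leaf [(nat_lit 7292317), (nat_lit 7443223), (nat_lit 7595780), (nat_lit 7749444), (nat_lit 7903780)]) (FT.cons (FT.leaf [(nat_lit 7565847), (nat_lit 7717870), (nat_lit 7870862), (nat_lit 8024410)]) (FT.cons (FT.leaf [(nat_lit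 7839127), (nat_lit 7991395)]) (FT.cons (FT.leaf [(nat_lit 8111025)]) FT.nil))))))) (FT.cons (FT.cons (FT.leaf [(nat_lit 6924636), (nat_lit 7068659), (nat_lit 7216275), (nat_lit 7366512), (nat_lit 7518626), (nat_lit 7672036), (nat_lit 7826273), (nat_lit
 7980957)]) (FT.cons (FT.leaf [(nat_lit 7191653), (nat_lit 7339246), (nat_lit 7489229), (nat_lit 7640903), (nat_lit 7793716), (nat_lit 7947229), (nat_lit 8101083)]) (FT.cons (FT.leaf [(nat_lit 7461591), (nat_lit 7611228), (nat_lit 7762386), (nat_lit 7914543), (nat_lit 8067284)]) (FT.cons (FT.leaf [(nat_lit 7732471), (nat_lit 7883047), (nat_lit 8034495), (nat_lit 8186425)]) (FT.cons (FT.leaf [(nat_lit 8002861), (nat_lit 8153556)]) (FT.cons (FT.leaf [(nat_lit 8271709)]) FT.nil)))))) (FT.cons (FT.cons (FT.leaf [(nat_lit 7361170), (nat_lit 7507674), (nat_lit 7656409), (nat_lit 7806702), (nat_lit 7958028), (nat_lit 8109965)]) (FT.cons (FT.leaf [(nat_lit 7628714), (nat_lit 7777041), (nat_lit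 7926770), (nat_lit 8077404), (nat_lit 8228544)]) (FT.cons (FT.leaf [(nat_lit 7896895), (nat_lit 8046002), (nat_lit 8195898), (nat_lit 8346205)]) (FT.cons (FT.leaf [(nat_lit 8164378), (nat_lit 8313496)]) (FT.cons (FT.leaf [(nat_lit 8430186)]) FT.nil))))) (FT.cons (FT.cons (FT.leaf [(nat_lit 7793690), (nat_lit 7940674), (nat_lit 8088954)]) (FT.cons (FT.leaf [(nat_lit 8059136), (nat_lit 8206762)]) (FT.cons (FT.leaf [(nat_lit 8323707)]) FT.nil))) (FT.cons (FT.cons (FT.leaf [(nat_lit 8219219)]) (FT.cons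
 (FT.leaf [(nat_lit 8480881)]) FT.nil)) (FT.cons (FT.cons (FT.leaf [(nat_lit 8635934)]) FT.nil) FT.nil)))))) (FT.cons (FT.cons (FT.cons (FT.leaf [(nat_lit 7212194), (nat_lit 7353528), (nat_lit 7498260), (nat_lit 7645455), (nat_lit 7794404), (nat_lit 7944552), (nat_lit 8095455), (nat_lit 8246754)]) (FT.cons (FT.leaf [(nat_lit 7473827), (nat_lit 7618473), (nat_lit 7765372), (nat_lit 7913852), (nat_lit 8063390), (nat_lit 8213567), (nat_lit 8364044)]) (FT.cons (FT.leaf [(nat_lit 7738048), (nat_lit 7884568), (nat_lit 8032514), (nat_lit 8181389), (nat_lit 8330799)]) (FT.cons (FT.leaf [(nat_lit 8003010), (nat_lit 8150364), (nat_lit 8298532), (nat_lit 8447138)]) (FT.cons (FT.leaf [(nat_lit 8267384), (nat_lit 8414803)]) (FT.cons (FT.leaf [(nat_lit 8530192)]) FT.nil)))))) (FT.cons (FT.cons (FT.leaf [(nat_lit 7639211), (nat_lit 7782753), (nat_lit 7928405), (nat_lit 8075520), (nat_lit 8223597), (nat_lit 8372236)]) (FT.cons (FT.leaf [(nat_lit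 7901043), (nat_lit 8046263), (nat_lit 8192804), (nat_lit 8340190), (nat_lit 8488041)]) (FT.cons (FT.leaf [(nat_lit 8163352), (nat_lit 8309267), (nat_lit 8455921), (nat_lit 8602953)]) (FT.cons (FT.leaf [(nat_lit 8424893), (nat_lit 8570780)]) (FT.cons
 (FT.leaf [(nat_lit 8684757)]) FT.nil))))) (FT.cons (FT.cons (FT.leaf [(nat_lit 8061955), (nat_lit 8205851), (nat_lit 8350973)]) (FT.cons (FT.leaf [(nat_lit 8321588), (nat_lit 8466057)]) (FT.cons (FT.leaf [(nat_lit 8580300)]) FT.nil))) (FT.cons (FT.cons (FT.leaf [(nat_lit 8477744)]) (FT.cons (FT.leaf [(nat_lit 8733635)]) FT.nil)) (FT.cons (FT.cons (FT.leaf [(nat_lit 8884933)]) FT.nil) FT.nil))))) (FT.cons (FT.cons (FT.cons (FT.leaf [(nat_lit 7909770), (nat_lit 8050426), (nat_lit 8193086), (nat_lit 8337129), (nat_lit 8482073)]) (FT.cons (FT.leaf [(nat_lit 8166062), (nat_lit 8308275), (nat_lit 8451738), (nat_lit 8595994)]) (FT.cons (FT.leaf [(nat_lit 8422706), (nat_lit 8565544)]) (FT.cons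 (FT.leaf [(nat_lit 8678533)]) FT.nil)))) (FT.cons (FT.cons (FT.leaf [(nat_lit 8323077), (nat_lit 8463990), (nat_lit 8606067)]) (FT.cons (FT.leaf [(nat_lit 8577109), (nat_lit 8718538)]) (FT.cons (FT.leaf [(nat_lit 8830191)]) FT.nil))) (FT.cons (FT.cons (FT.leaf [(nat_lit 8729509)]) (FT.cons (FT.leaf [(nat_lit 8979859)]) FT.nil)) FT.nil))) (FT.cons (FT.cons (FT.cons (FT.leaf [(nat_lit 8577394)]) FT.nil) (FT.cons (FT.cons (FT.leaf [(nat_lit 8974842)]) FT.nil) FT.nil)) (FT.cons (FT.cons (FT.cons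
 (FT.leaf [(nat_lit 9214047)]) FT.nil) FT.nil) (FT.cons (FT.cons (FT.cons (FT.leaf [(nat_lit 9820307)]) FT.nil) FT.nil) (FT.cons (FT.cons (FT.cons (FT.leaf [(nat_lit 10397541)]) FT.nil) FT.nil) (FT.cons (FT.cons (FT.cons (FT.leaf [(nat_lit 10947458)]) FT.nil) FT.nil) FT.nil)))))))) (FT.cons (FT.cons (FT.cons (FT.cons (FT.leaf [(nat_lit 7967269), (nat_lit 8098240), (nat_lit 8232411), (nat_lit 8368927), (nat_lit 8507143), (nat_lit 8646556)]) (FT.cons (FT.leaf [(nat_lit 8209452), (nat_lit 8343608), (nat_lit 8479922), (nat_lit 8617782), (nat_lit 8756714)]) (FT.cons (FT.leaf [(nat_lit 8454283), (nat_lit 8590321), (nat_lit 8727769), (nat_lit 8866173)]) (FT.cons (FT.leaf [(nat_lit 8700097), (nat_lit 8837080)]) (FT.cons (FT.leaf [(nat_lit 8945697)]) (FT.cons (FT.leaf [(nat_lit 9190199)]) FT.nil)))))) (FT.cons (FT.cons (FT.leaf [(nat_lit 8362033), (nat_lit 8495287), (nat_lit 8630572), (nat_lit 8767300), (nat_lit 8905014)]) (FT.cons (FT.leaf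 [(nat_lit 8604886), (nat_lit 8739850), (nat_lit 8876128), (nat_lit 9013288)]) (FT.cons (FT.leaf [(nat_lit 8848488), (nat_lit 8984271)]) (FT.cons (FT.leaf [(nat_lit 9091713)]) (FT.cons (FT.leaf [(nat_lit 9333731)]) FT.nil))))) (FT.cons (FT.cons (FT.leaf
 [(nat_lit 8753738), (nat_lit 8887602), (nat_lit 9022696)]) (FT.cons (FT.leaf [(nat_lit 8995102), (nat_lit 9129674)]) (FT.cons (FT.leaf [(nat_lit 9235947)]) FT.nil))) (FT.cons (FT.cons (FT.leaf [(nat_lit 9139957)]) (FT.cons (FT.leaf [(nat_lit 9378423)]) FT.nil)) FT.nil)))) (FT.cons (FT.cons (FT.cons (FT.leaf [(nat_lit 8611096), (nat_lit 8741933), (nat_lit 8874704), (nat_lit 9008845), (nat_lit 9143915)]) (FT.cons (FT.leaf [(nat_lit 8849298), (nat_lit 8981731), (nat_lit 9115413), (nat_lit 9249928)]) (FT.cons (FT.leaf [(nat_lit 9088125), (nat_lit 9221308)]) (FT.cons (FT.leaf [(nat_lit 9326515)]) FT.nil)))) (FT.cons (FT.cons (FT.leaf [(nat_lit 8994867), (nat_lit 9126214), (nat_lit 9258734)])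 (FT.cons (FT.leaf [(nat_lit 9231499), (nat_lit 9363497)]) (FT.cons (FT.leaf [(nat_lit 9467570)]) FT.nil))) (FT.cons (FT.cons (FT.leaf [(nat_lit 9373172)]) (FT.cons (FT.leaf [(nat_lit 9606928)]) FT.nil)) FT.nil))) (FT.cons (FT.cons (FT.cons (FT.leaf [(nat_lit 9230260)]) FT.nil) (FT.cons (FT.cons (FT.leaf [(nat_lit 9600932)]) FT.nil) FT.nil)) (FT.cons (FT.cons (FT.cons (FT.leaf [(nat_lit 9823472)]) FT.nil) FT.nil) (FT.cons (FT.cons (FT.cons (FT.leaf [(nat_lit 10390862)]) FT.nil) FT.nil) (FT.cons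
 (FT.cons (FT.cons (FT.leaf [(nat_lit 10933287)]) FT.nil) FT.nil) FT.nil)))))) (FT.cons (FT.cons (FT.cons (FT.cons (FT.leaf [(nat_lit 9255267), (nat_lit 9377823), (nat_lit 9502242), (nat_lit 9628002)]) (FT.cons (FT.leaf [(nat_lit 9478213), (nat_lit 9602371), (nat_lit 9727761)]) (FT.cons (FT.leaf [(nat_lit 9701961)]) FT.nil))) (FT.cons (FT.cons (FT.leaf [(nat_lit 9614125), (nat_lit 9737359)]) (FT.cons (FT.leaf [(nat_lit 9835995)]) FT.nil)) (FT.cons (FT.cons (FT.leaf [(nat_lit 9968559)]) FT.nil) FT.nil))) (FT.cons (FT.cons (FT.cons (FT.leaf [(nat_lit 9833546)]) FT.nil) (FT.cons (FT.cons (FT.leaf [(nat_lit 10181390)]) FT.nil) FT.nil)) (FT.cons (FT.cons (FT.cons (FT.leaf [(nat_lit 10389708)]) FT.nil) FT.nil) (FT.cons (FT.cons (FT.cons (FT.leaf [(nat_lit 10923600)]) FT.nil) FT.nil) FT.nil)))) (FT.cons (FT.cons (FT.cons (FT.cons (FT.leaf [(nat_lit 10394891)]) FT.nil) FT.nil) (FT.cons (FT.cons (FT.cons (FT.leaf [(nat_lit 10918991)]) FT.nil)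 FT.nil) FT.nil)) (FT.cons (FT.cons (FT.cons (FT.cons (FT.leaf [(nat_lit 11416246)]) FT.nil) FT.nil) FT.nil) (FT.cons (FT.cons (FT.cons (FT.cons (FT.leaf [(nat_lit 12341365)]) FT.nil) FT.nil) FT.nil) FT.nil)))))))

def f160_1_867 : FT := (FT.cons (FT.cons (FT.cons (FT.cons (FT.leaf [(nat_lit 4827333), (nat_lit 4967647), (nat_lit 5118291), (nat_lit 5276656), (nat_lit 5440865), (nat_lit 5609490), (nat_lit 5781415), (nat_lit 5955742), (nat_lit 6131743), (nat_lit 6308818), (nat_lit 6486470), (nat_lit 6664282), (nat_lit 6841912)]) (FT.cons (FT.leaf [(nat_lit 5104187), (nat_lit 5256894), (nat_lit 5416643), (nat_lit 5581683), (nat_lit 5750687), (nat_lit 5922616), (nat_lit 6096638), (nat_lit 6272078), (nat_lit 6448380), (nat_lit 6625083), (nat_lit 6801804), (nat_lit 6978224)]) (FT.cons (FT.leaf [(nat_lit 5395782), (nat_lit 5556579), (nat_lit 5722179), (nat_lit 5891341), (nat_lit 6063096), (nat_lit 6236669), (nat_lit 6411431), (nat_lit 6586867),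 (nat_lit 6762548), (nat_lit 6938121)]) (FT.cons (FT.leaf [(nat_lit 5696287), (nat_lit 5862212), (nat_lit 6031342), (nat_lit 6202768), (nat_lit 6375767), (nat_lit 6549751), (nat_lit 6724242), (nat_lit 6898839), (nat_lit 7073215)]) (FT.cons (FT.leaf [(nat_lit 6001665), (nat_lit 6170596), (nat_lit 6341560), (nat_lit 6513876), (nat_lit 6686997), (nat_lit 6860473), (nat_lit 7033933)]) (FT.cons (FT.leaf [(nat_lit 6309024), (nat_lit 6479408), (nat_lit 6650948), (nat_lit 6823131), (nat_lit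
 6995535)]) (FT.cons (FT.leaf [(nat_lit 6616263), (nat_lit 6786947), (nat_lit 6958127), (nat_lit 7129409)]) (FT.cons (FT.leaf [(nat_lit 6921839), (nat_lit 7091963)]) (FT.cons (FT.leaf [(nat_lit 7224621)]) (FT.cons (FT.leaf [(nat_lit 7523785)]) FT.nil)))))))))) (FT.cons (FT.cons (FT.leaf [(nat_lit 5301531), (nat_lit 5454461), (nat_lit 5613953), (nat_lit 5778324), (nat_lit 5946313), (nat_lit 6116936), (nat_lit 6289411), (nat_lit 6463107), (nat_lit 6637503), (nat_lit 6812172), (nat_lit 6986756)]) (FT.cons (FT.leaf [(nat_lit 5592531), (nat_lit 5752809), (nat_lit 5917527), (nat_lit 6085501), (nat_lit 6255812), (nat_lit 6427730), (nat_lit 6600665), (nat_lit 6774132), (nat_lit 6947734), (nat_lit 7121138)]) (FT.cons (FT.leaf [(nat_lit 5891297), (nat_lit 6056158), (nat_lit 6223953), (nat_lit 6393819), (nat_lit 6565071), (nat_lit 6737159), (nat_lit 6909630), (nat_lit 7082111), (nat_lit 7254297)]) (FT.cons (FT.leaf [(nat_lit 6194117), (nat_lit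 6361589), (nat_lit 6530894), (nat_lit 6701388), (nat_lit 6872555), (nat_lit 7043971), (nat_lit 7215290)]) (FT.cons (FT.leaf [(nat_lit 6498345), (nat_lit 6666988), (nat_lit 6836644), (nat_lit 7006826), (nat_lit 7177139)]) (FT.cons (FT.leaf [(nat_lit
 6802057), (nat_lit 6970806), (nat_lit 7139950), (nat_lit 7309119)]) (FT.cons (FT.leaf [(nat_lit 7103850), (nat_lit 7271910)]) (FT.cons (FT.leaf [(nat_lit 7402693)]) (FT.cons (FT.leaf [(nat_lit 7697841)]) FT.nil))))))))) (FT.cons (FT.cons (FT.leaf [(nat_lit 5787153), (nat_lit 5946705), (nat_lit 6110375), (nat_lit 6277033), (nat_lit 6445804), (nat_lit 6615997), (nat_lit 6787056), (nat_lit 6958528), (nat_lit 7130037), (nat_lit 7301276)]) (FT.cons (FT.leaf [(nat_lit 6083866), (nat_lit 6247527), (nat_lit 6413882), (nat_lit 6582110), (nat_lit 6751563), (nat_lit 6921720), (nat_lit 7092155), (nat_lit 7262519), (nat_lit 7432524)]) (FT.cons (FT.leaf [(nat_lit 6383933), (nat_lit 6549861), (nat_lit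 6717448), (nat_lit 6886081), (nat_lit 7055271), (nat_lit 7224621), (nat_lit 7393803)]) (FT.cons (FT.leaf [(nat_lit 6684917), (nat_lit 6851774), (nat_lit 7019518), (nat_lit 7187690), (nat_lit 7355912)]) (FT.cons (FT.leaf [(nat_lit 6985055), (nat_lit 7151851), (nat_lit 7318957), (nat_lit 7486019)]) (FT.cons (FT.leaf [(nat_lit 7283060), (nat_lit 7449061)]) (FT.cons (FT.leaf [(nat_lit 7577994)]) (FT.cons (FT.leaf [(nat_lit 7869176)]) FT.nil)))))))) (FT.cons (FT.cons (FT.leaf [(nat_lit 6273931),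
 (nat_lit 6436281), (nat_lit 6601114), (nat_lit 6767646), (nat_lit 6935262), (nat_lit 7103466)]) (FT.cons (FT.leaf [(nat_lit 6571091), (nat_lit 6735411), (nat_lit 6901235), (nat_lit 7067980), (nat_lit 7235184)]) (FT.cons (FT.leaf [(nat_lit 6868752), (nat_lit 7033790), (nat_lit 7199607), (nat_lit 7365764)]) (FT.cons (FT.leaf [(nat_lit 7165287), (nat_lit 7330124)]) (FT.cons (FT.leaf [(nat_lit 7459515)]) (FT.cons (FT.leaf [(nat_lit 7750577)]) FT.nil)))))) (FT.cons (FT.cons (FT.leaf [(nat_lit 6755588), (nat_lit 6918249), (nat_lit 7082279), (nat_lit 7247122), (nat_lit 7412335)]) (FT.cons (FT.leaf [(nat_lit 7049869), (nat_lit 7213069), (nat_lit 7376951), (nat_lit 7541098)]) (FT.cons (FT.leaf [(nat_lit 7342791), (nat_lit 7505669)]) (FT.cons (FT.leaf [(nat_lit 7633264)]) (FT.cons (FT.leaf [(nat_lit 7920500)]) FT.nil))))) (FT.cons (FT.cons (FT.leaf [(nat_lit 7228297), (nat_lit 7389647), (nat_lit 7551595)]) (FT.cons (FT.leaf [(nat_lit 7517610),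 (nat_lit 7678536)]) (FT.cons (FT.leaf [(nat_lit 7804360)]) FT.nil))) (FT.cons (FT.cons (FT.leaf [(nat_lit 7689789)]) (FT.cons (FT.leaf [(nat_lit 7972855)]) FT.nil)) (FT.cons (FT.cons (FT.leaf [(nat_lit 8138805)]) FT.nil) (FT.cons (FT.cons (FT.leaf
 [(nat_lit 8574744)]) FT.nil) FT.nil))))))))) (FT.cons (FT.cons (FT.cons (FT.leaf [(nat_lit 5637449), (nat_lit 5787837), (nat_lit 5944370), (nat_lit 6105432), (nat_lit 6269822), (nat_lit 6436615), (nat_lit 6605076), (nat_lit 6774615), (nat_lit 6944749), (nat_lit 7115081), (nat_lit 7285285)]) (FT.cons (FT.leaf [(nat_lit 5922889), (nat_lit 6080018), (nat_lit 6241278), (nat_lit 6405542), (nat_lit 6571942), (nat_lit 6739792), (nat_lit 6908539), (nat_lit 7077734), (nat_lit 7247006), (nat_lit 7416049)]) (FT.cons (FT.leaf [(nat_lit 6215211), (nat_lit 6376493), (nat_lit 6540489), (nat_lit 6706382), (nat_lit 6873529), (nat_lit 7041413), (nat_lit 7209611), (nat_lit 7377779), (nat_lit 7545630)])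 (FT.cons (FT.leaf [(nat_lit 6510993), (nat_lit 6674598), (nat_lit 6839886), (nat_lit 7006251), (nat_lit 7173208), (nat_lit 7340363), (nat_lit 7507389)]) (FT.cons (FT.leaf [(nat_lit 6807815), (nat_lit 6972412), (nat_lit 7137927), (nat_lit 7303905), (nat_lit 7469974)]) (FT.cons (FT.leaf [(nat_lit 7103927), (nat_lit 7268534), (nat_lit 7433487), (nat_lit 7598435)]) (FT.cons (FT.leaf [(nat_lit 7398050), (nat_lit 7561939)]) (FT.cons (FT.leaf [(nat_lit 7689255)]) (FT.cons (FT.leaf [(nat_lit 7976864)])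
 FT.nil))))))))) (FT.cons (FT.cons (FT.leaf [(nat_lit 6112457), (nat_lit 6268739), (nat_lit 6428869), (nat_lit 6591768), (nat_lit 6756609), (nat_lit 6922740), (nat_lit 7089640), (nat_lit 7256884), (nat_lit 7424125), (nat_lit 7591076)]) (FT.cons (FT.leaf [(nat_lit 6402569), (nat_lit 6562594), (nat_lit 6725123), (nat_lit 6889378), (nat_lit 7054747), (nat_lit 7220739), (nat_lit 7386957), (nat_lit 7553075), (nat_lit 7718824)]) (FT.cons (FT.leaf [(nat_lit 6695548), (nat_lit 6857600), (nat_lit 7021184), (nat_lit 7185722), (nat_lit 7350753), (nat_lit 7515904), (nat_lit 7680867)]) (FT.cons (FT.leaf [(nat_lit 6989153), (nat_lit 7151991), (nat_lit 7315639), (nat_lit 7479664), (nat_lit 7643712)]) (FT.cons (FT.leaf [(nat_lit 7281772), (nat_lit 7444481), (nat_lit 7607460), (nat_lit 7770377)]) (FT.cons (FT.leaf [(nat_lit 7572231), (nat_lit 7734132)]) (FT.cons (FT.leaf [(nat_lit 7859674)]) (FT.cons (FT.leaf [(nat_lit 8143482)]) FT.nil))))))))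 (FT.cons (FT.cons (FT.leaf [(nat_lit 6587454), (nat_lit 6746135), (nat_lit 6907136), (nat_lit 7069711), (nat_lit 7233276), (nat_lit 7397366)]) (FT.cons (FT.leaf [(nat_lit 6877514), (nat_lit 7037966), (nat_lit 7199815), (nat_lit 7362510), (nat_lit 7525612)])
 (FT.cons (FT.leaf [(nat_lit 7167849), (nat_lit 7328908), (nat_lit 7490681), (nat_lit 7652756)]) (FT.cons (FT.leaf [(nat_lit 7456965), (nat_lit 7617774)]) (FT.cons (FT.leaf [(nat_lit 7743779)]) (FT.cons (FT.leaf [(nat_lit 8027502)]) FT.nil)))))) (FT.cons (FT.cons (FT.leaf [(nat_lit 7056900), (nat_lit 7215717), (nat_lit 7375811), (nat_lit 7536655), (nat_lit 7697831)]) (FT.cons (FT.leaf [(nat_lit 7343930), (nat_lit 7503197), (nat_lit 7663096), (nat_lit 7823230)]) (FT.cons (FT.leaf [(nat_lit 7629545), (nat_lit 7788462)]) (FT.cons (FT.leaf [(nat_lit 7912743)]) (FT.cons (FT.leaf [(nat_lit 8192796)]) FT.nil))))) (FT.cons (FT.cons (FT.leaf [(nat_lit 7517429), (nat_lit 7674901), (nat_lit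 7832930)]) (FT.cons (FT.leaf [(nat_lit 7799558), (nat_lit 7956591)]) (FT.cons (FT.leaf [(nat_lit 8079176)]) FT.nil))) (FT.cons (FT.cons (FT.leaf [(nat_lit 7967048)]) (FT.cons (FT.leaf [(nat_lit 8243129)]) FT.nil)) (FT.cons (FT.cons (FT.leaf [(nat_lit 8404657)]) FT.nil) (FT.cons (FT.cons (FT.leaf [(nat_lit 8829738)]) FT.nil) FT.nil)))))))) (FT.cons (FT.cons (FT.cons (FT.leaf [(nat_lit 6427960), (nat_lit 6580988), (nat_lit 6737632), (nat_lit 6896861), (nat_lit 7057886), (nat_lit 7220094), (nat_lit 7382992),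
 (nat_lit 7546182)]) (FT.cons (FT.leaf [(nat_lit 6711568), (nat_lit 6868035), (nat_lit 7026845), (nat_lit 7187257), (nat_lit 7348691), (nat_lit 7510686), (nat_lit 7672865)]) (FT.cons (FT.leaf [(nat_lit 6997653), (nat_lit 7155952), (nat_lit 7315676), (nat_lit 7476278), (nat_lit 7637323)]) (FT.cons (FT.leaf [(nat_lit 7284143), (nat_lit 7443115), (nat_lit 7602834), (nat_lit 7762891)]) (FT.cons (FT.leaf [(nat_lit 7569552), (nat_lit 7728345)]) (FT.cons (FT.leaf [(nat_lit 7852800)]) FT.nil)))))) (FT.cons (FT.cons (FT.leaf [(nat_lit 6891466), (nat_lit 7046578), (nat_lit 7203868), (nat_lit 7362626), (nat_lit 7522298), (nat_lit 7682445)]) (FT.cons (FT.leaf [(nat_lit 7174652), (nat_lit 7331371), (nat_lit 7489397), (nat_lit 7648206), (nat_lit 7807382)]) (FT.cons (FT.leaf [(nat_lit 7457941), (nat_lit 7615178), (nat_lit 7773080), (nat_lit 7931253)]) (FT.cons (FT.leaf [(nat_lit 7739954), (nat_lit 7896911)]) (FT.cons (FT.leaf [(nat_lit 8019690)])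 FT.nil))))) (FT.cons (FT.cons (FT.leaf [(nat_lit 7349158), (nat_lit 7504272), (nat_lit 7660588), (nat_lit 7817602), (nat_lit 7974918)]) (FT.cons (FT.leaf [(nat_lit 7629228), (nat_lit 7784726), (nat_lit 7940814), (nat_lit 8097117)]) (FT.cons (FT.leaf
 [(nat_lit 7907857), (nat_lit 8062987)]) FT.nil))) (FT.cons (FT.cons (FT.leaf [(nat_lit 7798039), (nat_lit 7951799)]) (FT.cons (FT.leaf [(nat_lit 8073304)]) FT.nil)) (FT.cons (FT.cons (FT.leaf [(nat_lit 8236344)]) FT.nil) (FT.cons (FT.cons (FT.leaf [(nat_lit 8663098)]) FT.nil) FT.nil)))))) (FT.cons (FT.cons (FT.cons (FT.leaf [(nat_lit 7186439), (nat_lit 7338087), (nat_lit 7491795), (nat_lit 7646881), (nat_lit 7802818), (nat_lit 7959188)]) (FT.cons (FT.leaf [(nat_lit 7462986), (nat_lit 7616110), (nat_lit 7770464), (nat_lit 7925549), (nat_lit 8080970)]) (FT.cons (FT.leaf [(nat_lit 7739512), (nat_lit 7893085), (nat_lit 8047280), (nat_lit 8201723)]) (FT.cons (FT.leaf [(nat_lit 8014729),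 (nat_lit 8168002)]) FT.nil)))) (FT.cons (FT.cons (FT.leaf [(nat_lit 7632836), (nat_lit 7784392), (nat_lit 7937084), (nat_lit 8090433), (nat_lit 8244060)]) (FT.cons (FT.leaf [(nat_lit 7906235), (nat_lit 8058123), (nat_lit 8210567), (nat_lit 8363209)]) (FT.cons (FT.leaf [(nat_lit 8178186), (nat_lit 8329698)]) FT.nil))) (FT.cons (FT.cons (FT.leaf [(nat_lit 8070587)]) (FT.cons (FT.leaf [(nat_lit 8339296)]) FT.nil)) (FT.cons (FT.cons (FT.leaf [(nat_lit 8498106)]) FT.nil) (FT.cons (FT.cons (FT.leaf [(nat_lit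
 8914527)]) FT.nil) FT.nil))))) (FT.cons (FT.cons (FT.cons (FT.leaf [(nat_lit 7908391), (nat_lit 8056525), (nat_lit 8205744)]) (FT.cons (FT.leaf [(nat_lit 8175394), (nat_lit 8323824)]) (FT.cons (FT.leaf [(nat_lit 8440961)]) FT.nil))) (FT.cons (FT.cons (FT.leaf [(nat_lit 8335502)]) (FT.cons (FT.leaf [(nat_lit 8597949)]) FT.nil)) (FT.cons (FT.cons (FT.leaf [(nat_lit 8752739)]) FT.nil) FT.nil))) (FT.cons (FT.cons (FT.cons (FT.leaf [(nat_lit 8593186)]) FT.nil) (FT.cons (FT.cons (FT.leaf [(nat_lit 9000612)]) FT.nil) FT.nil)) (FT.cons (FT.cons (FT.cons (FT.leaf [(nat_lit 9242072)]) FT.nil) FT.nil) (FT.cons (FT.cons (FT.cons (FT.leaf [(nat_lit 9857101)]) FT.nil) FT.nil) (FT.cons (FT.cons (FT.cons (FT.leaf [(nat_lit 10440631)]) FT.nil) FT.nil) FT.nil))))))))) (FT.cons (FT.cons (FT.cons (FT.cons (FT.leaf [(nat_lit 6540392), (nat_lit 6677997), (nat_lit 6821217), (nat_lit 6968603), (nat_lit 7119087), (nat_lit 7271848), (nat_lit 7426236),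 (nat_lit 7581730), (nat_lit 7737904), (nat_lit 7894406), (nat_lit 8050945)]) (FT.cons (FT.leaf [(nat_lit 6801115), (nat_lit 6944922), (nat_lit 7092552), (nat_lit 7243003), (nat_lit 7395502), (nat_lit 7549442), (nat_lit 7704331), (nat_lit 7859772), (nat_lit
 8015434), (nat_lit 8171045)]) (FT.cons (FT.leaf [(nat_lit 7068280), (nat_lit 7216008), (nat_lit 7366306), (nat_lit 7518447), (nat_lit 7671859), (nat_lit 7826081), (nat_lit 7980738), (nat_lit 8135522), (nat_lit 8290175)]) (FT.cons (FT.leaf [(nat_lit 7338900), (nat_lit 7488940), (nat_lit 7640639), (nat_lit 7793455), (nat_lit 7946955), (nat_lit 8100786), (nat_lit 8254658)]) (FT.cons (FT.leaf [(nat_lit 7610862), (nat_lit 7762043), (nat_lit 7914204), (nat_lit 8066935), (nat_lit 8219902)]) (FT.cons (FT.leaf [(nat_lit 7882630), (nat_lit 8034084), (nat_lit 8186004), (nat_lit 8338076)]) (FT.cons (FT.leaf [(nat_lit 8153076), (nat_lit 8304150)]) FT.nil))))))) (FT.cons (FT.cons (FT.leaf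 [(nat_lit 6973384), (nat_lit 7116543), (nat_lit 7263289), (nat_lit 7412656), (nat_lit 7563907), (nat_lit 7716463), (nat_lit 7869857), (nat_lit 8023713), (nat_lit 8177717), (nat_lit 8331613)]) (FT.cons (FT.leaf [(nat_lit 7238799), (nat_lit 7385535), (nat_lit 7534665), (nat_lit 7685490), (nat_lit 7837466), (nat_lit 7990153), (nat_lit 8143196), (nat_lit 8296303), (nat_lit 8449229)]) (FT.cons (FT.leaf [(nat_lit 7507171), (nat_lit 7655970), (nat_lit 7806296), (nat_lit 7957632), (nat_lit 8109565), (nat_lit 8261759),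
 (nat_lit 8413937)]) (FT.cons (FT.leaf [(nat_lit 7776533), (nat_lit 7926294), (nat_lit 8076939), (nat_lit 8228076), (nat_lit 8379388)]) (FT.cons (FT.leaf [(nat_lit 8045460), (nat_lit 8195368), (nat_lit 8345674), (nat_lit 8496077)]) (FT.cons (FT.leaf [(nat_lit 8312905), (nat_lit 8462349)]) FT.nil)))))) (FT.cons (FT.cons (FT.leaf [(nat_lit 7407300), (nat_lit 7552973), (nat_lit 7700880), (nat_lit 7850352), (nat_lit 8000866), (nat_lit 8152005)]) (FT.cons (FT.leaf [(nat_lit 7673327), (nat_lit 7820841), (nat_lit 7969765), (nat_lit 8119603), (nat_lit 8269961)]) (FT.cons (FT.leaf [(nat_lit 7940039), (nat_lit 8088357), (nat_lit 8237474), (nat_lit 8387015)]) (FT.cons (FT.leaf [(nat_lit 8206107), (nat_lit 8354462)]) (FT.cons (FT.leaf [(nat_lit 8470557)]) FT.nil))))) (FT.cons (FT.cons (FT.leaf [(nat_lit 7837370), (nat_lit 7983566), (nat_lit 8131066), (nat_lit 8279396), (nat_lit 8428176)]) (FT.cons (FT.leaf [(nat_lit 8101394), (nat_lit 8248255),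 (nat_lit 8395839), (nat_lit 8543787)]) (FT.cons (FT.leaf [(nat_lit 8364596), (nat_lit 8511400)]) FT.nil))) (FT.cons (FT.cons (FT.leaf [(nat_lit 8260622), (nat_lit 8406017)]) (FT.cons (FT.leaf [(nat_lit 8520960)]) FT.nil)) (FT.cons (FT.cons (FT.leaf
 [(nat_lit 8675230)]) FT.nil) (FT.cons (FT.cons (FT.leaf [(nat_lit 9080113)]) FT.nil) FT.nil))))))) (FT.cons (FT.cons (FT.cons (FT.leaf [(nat_lit 7259121), (nat_lit 7399642), (nat_lit 7543555), (nat_lit 7689932), (nat_lit 7838069), (nat_lit 7987414), (nat_lit 8137525), (nat_lit 8288045)]) (FT.cons (FT.leaf [(nat_lit 7519248), (nat_lit 7663088), (nat_lit 7809183), (nat_lit 7956866), (nat_lit 8105616), (nat_lit 8255018), (nat_lit 8404732)]) (FT.cons (FT.leaf [(nat_lit 7781998), (nat_lit 7927729), (nat_lit 8074892), (nat_lit 8222995), (nat_lit 8371645)]) (FT.cons (FT.leaf [(nat_lit 8045534), (nat_lit 8192120), (nat_lit 8339531), (nat_lit 8487393)]) (FT.cons (FT.leaf [(nat_lit 8308532),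 (nat_lit 8455209)]) (FT.cons (FT.leaf [(nat_lit 8570019)]) FT.nil)))))) (FT.cons (FT.cons (FT.leaf [(nat_lit 7683680), (nat_lit 7826440), (nat_lit 7971313), (nat_lit 8117656), (nat_lit 8264970), (nat_lit 8412858)]) (FT.cons (FT.leaf [(nat_lit 7944087), (nat_lit 8088542), (nat_lit 8234325), (nat_lit 8380962), (nat_lit 8528077)]) (FT.cons (FT.leaf [(nat_lit 8205014), (nat_lit 8350187), (nat_lit 8496107), (nat_lit 8642418)]) (FT.cons (FT.leaf [(nat_lit 8465225), (nat_lit 8610393)]) (FT.cons (FT.leaf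
 [(nat_lit 8723810)]) FT.nil))))) (FT.cons (FT.cons (FT.leaf [(nat_lit 8104124), (nat_lit 8247278), (nat_lit 8391666), (nat_lit 8536831), (nat_lit 8682412)]) (FT.cons (FT.leaf [(nat_lit 8362419), (nat_lit 8506168), (nat_lit 8650596), (nat_lit 8795361)]) (FT.cons (FT.leaf [(nat_lit 8619842), (nat_lit 8763503)]) FT.nil))) (FT.cons (FT.cons (FT.leaf [(nat_lit 8517773), (nat_lit 8660092)]) (FT.cons (FT.leaf [(nat_lit 8772415)]) FT.nil)) (FT.cons (FT.cons (FT.leaf [(nat_lit 8922978)]) FT.nil) (FT.cons (FT.cons (FT.leaf [(nat_lit 9318772)]) FT.nil) FT.nil)))))) (FT.cons (FT.cons (FT.cons (FT.leaf [(nat_lit 7952688), (nat_lit 8092607), (nat_lit 8234534), (nat_lit 8377848), (nat_lit 8522073), (nat_lit 8666830)]) (FT.cons (FT.leaf [(nat_lit 8207638), (nat_lit 8349130), (nat_lit 8491879), (nat_lit 8635430), (nat_lit 8779425)]) (FT.cons (FT.leaf [(nat_lit 8462981), (nat_lit 8605119), (nat_lit 8747961), (nat_lit 8891167)]) (FT.cons (FT.leaf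 [(nat_lit 8717554), (nat_lit 8859657)]) FT.nil)))) (FT.cons (FT.cons (FT.leaf [(nat_lit 8363832), (nat_lit 8504045), (nat_lit 8645429), (nat_lit 8787548), (nat_lit 8930054)]) (FT.cons (FT.leaf [(nat_lit 8616604), (nat_lit 8757353), (nat_lit 8898746),
 (nat_lit 9040454)]) (FT.cons (FT.leaf [(nat_lit 8868471), (nat_lit 9009111)]) FT.nil))) (FT.cons (FT.cons (FT.leaf [(nat_lit 8768250)]) (FT.cons (FT.leaf [(nat_lit 9017422)]) FT.nil)) (FT.cons (FT.cons (FT.leaf [(nat_lit 9164443)]) FT.nil) (FT.cons (FT.cons (FT.leaf [(nat_lit 9551534)]) FT.nil) FT.nil))))) (FT.cons (FT.cons (FT.cons (FT.leaf [(nat_lit 8616823), (nat_lit 8754196), (nat_lit 8892686)]) (FT.cons (FT.leaf [(nat_lit 8864273), (nat_lit 9002135)]) (FT.cons (FT.leaf [(nat_lit 9110800)]) FT.nil))) (FT.cons (FT.cons (FT.leaf [(nat_lit 9012372)]) (FT.cons (FT.leaf [(nat_lit 9256290)]) FT.nil)) (FT.cons (FT.cons (FT.leaf [(nat_lit 9399924)]) FT.nil) FT.nil))) (FT.cons (FT.cons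 (FT.cons (FT.leaf [(nat_lit 9250438)]) FT.nil) (FT.cons (FT.cons (FT.leaf [(nat_lit 9629703)]) FT.nil) FT.nil)) (FT.cons (FT.cons (FT.cons (FT.leaf [(nat_lit 9854044)]) FT.nil) FT.nil) (FT.cons (FT.cons (FT.cons (FT.leaf [(nat_lit 10428949)]) FT.nil) FT.nil) (FT.cons (FT.cons (FT.cons (FT.leaf [(nat_lit 10976812)]) FT.nil) FT.nil) FT.nil)))))))) (FT.cons (FT.cons (FT.cons (FT.cons (FT.leaf [(nat_lit 8009501), (nat_lit 8139809), (nat_lit 8273313), (nat_lit 8409159), (nat_lit 8546709), (nat_lit 8685461),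
 (nat_lit 8825014), (nat_lit 8965047)]) (FT.cons (FT.leaf [(nat_lit 8250458), (nat_lit 8383955), (nat_lit 8519609), (nat_lit 8656814), (nat_lit 8795096), (nat_lit 8934077), (nat_lit 9073450)]) (FT.cons (FT.leaf [(nat_lit 8494085), (nat_lit 8629474), (nat_lit 8766276), (nat_lit 8904042), (nat_lit 9042413)]) (FT.cons (FT.leaf [(nat_lit 8738726), (nat_lit 8875074), (nat_lit 9012282), (nat_lit 9150010)]) (FT.cons (FT.leaf [(nat_lit 8983188), (nat_lit 9119803)]) (FT.cons (FT.leaf [(nat_lit 9226592)]) FT.nil)))))) (FT.cons (FT.cons (FT.leaf [(nat_lit 8402264), (nat_lit 8534875), (nat_lit 8669519), (nat_lit 8805609), (nat_lit 8942692), (nat_lit 9080404)]) (FT.cons (FT.leaf [(nat_lit 8643946), (nat_lit 8778278), (nat_lit 8913929), (nat_lit 9050468), (nat_lit 9187549)]) (FT.cons (FT.leaf [(nat_lit 8886407), (nat_lit 9021574), (nat_lit 9157532), (nat_lit 9293953)]) (FT.cons (FT.leaf [(nat_lit 9128528), (nat_lit 9263872)]) (FT.cons (FT.leaf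 [(nat_lit 9369480)]) FT.nil))))) (FT.cons (FT.cons (FT.leaf [(nat_lit 8792078), (nat_lit 8925328), (nat_lit 9059813), (nat_lit 9195115), (nat_lit 9330905)]) (FT.cons (FT.leaf [(nat_lit 9032335), (nat_lit 9166308), (nat_lit 9301010), (nat_lit 9436126)])
 (FT.cons (FT.leaf [(nat_lit 9272107), (nat_lit 9406180)]) FT.nil))) (FT.cons (FT.cons (FT.leaf [(nat_lit 9176524)]) (FT.cons (FT.leaf [(nat_lit 9413948)]) FT.nil)) (FT.cons (FT.cons (FT.leaf [(nat_lit 9554077)]) FT.nil) (FT.cons (FT.cons (FT.leaf [(nat_lit 9923801)]) FT.nil) FT.nil)))))) (FT.cons (FT.cons (FT.cons (FT.leaf [(nat_lit 8650061), (nat_lit 8780289), (nat_lit 8912452), (nat_lit 9045988), (nat_lit 9180460), (nat_lit 9315518)]) (FT.cons (FT.leaf [(nat_lit 8887154), (nat_lit 9018988), (nat_lit 9152076), (nat_lit 9286002), (nat_lit 9420435)]) (FT.cons (FT.leaf [(nat_lit 9124900), (nat_lit 9257499), (nat_lit 9390846), (nat_lit 9524628)]) (FT.cons (FT.leaf [(nat_lit 9362244),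 (nat_lit 9494984)]) FT.nil)))) (FT.cons (FT.cons (FT.leaf [(nat_lit 9032043), (nat_lit 9162808), (nat_lit 9294749), (nat_lit 9427467), (nat_lit 9560640)]) (FT.cons (FT.leaf [(nat_lit 9267625), (nat_lit 9399055), (nat_lit 9531177), (nat_lit 9663688)]) (FT.cons (FT.leaf [(nat_lit 9502678), (nat_lit 9634180)]) FT.nil))) (FT.cons (FT.cons (FT.leaf [(nat_lit 9408669)]) (FT.cons (FT.leaf [(nat_lit 9641436)]) FT.nil)) (FT.cons (FT.cons (FT.leaf [(nat_lit 9778542)]) FT.nil) (FT.cons (FT.cons (FT.leaf [(nat_lit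
 10140804)]) FT.nil) FT.nil))))) (FT.cons (FT.cons (FT.cons (FT.leaf [(nat_lit 9266337), (nat_lit 9394693), (nat_lit 9524172)]) (FT.cons (FT.leaf [(nat_lit 9497397), (nat_lit 9626367)]) (FT.cons (FT.leaf [(nat_lit 9727896)]) FT.nil))) (FT.cons (FT.cons (FT.leaf [(nat_lit 9635417)]) (FT.cons (FT.leaf [(nat_lit 9863692)]) FT.nil)) (FT.cons (FT.cons (FT.leaf [(nat_lit 9997894)]) FT.nil) FT.nil))) (FT.cons (FT.cons (FT.cons (FT.leaf [(nat_lit 9857000)]) FT.nil) (FT.cons (FT.cons (FT.leaf [(nat_lit 10212357)]) FT.nil) FT.nil)) (FT.cons (FT.cons (FT.cons (FT.leaf [(nat_lit 10422134)]) FT.nil) FT.nil) (FT.cons (FT.cons (FT.cons (FT.leaf [(nat_lit 10962557)]) FT.nil) FT.nil) FT.nil)))))) (FT.cons (FT.cons (FT.cons (FT.cons (FT.leaf [(nat_lit 9290991), (nat_lit 9413033), (nat_lit 9536938), (nat_lit 9662187), (nat_lit 9788375)]) (FT.cons (FT.leaf [(nat_lit 9513001), (nat_lit 9636652), (nat_lit 9761539), (nat_lit 9887277)]) (FT.cons (FT.leaf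 [(nat_lit 9735835), (nat_lit 9860322)]) (FT.cons (FT.leaf [(nat_lit 9958525)]) FT.nil)))) (FT.cons (FT.cons (FT.leaf [(nat_lit 9648340), (nat_lit 9771080), (nat_lit 9894986)]) (FT.cons (FT.leaf [(nat_lit 9869319), (nat_lit 9992805)]) (FT.cons (FT.leaf
 [(nat_lit 10090037)]) FT.nil))) (FT.cons (FT.cons (FT.leaf [(nat_lit 10001348)]) FT.nil) FT.nil))) (FT.cons (FT.cons (FT.cons (FT.leaf [(nat_lit 9866834), (nat_lit 9987495), (nat_lit 10109274)]) (FT.cons (FT.leaf [(nat_lit 10083907), (nat_lit 10205263)]) FT.nil)) (FT.cons (FT.cons (FT.leaf [(nat_lit 10213320)]) FT.nil) FT.nil)) (FT.cons (FT.cons (FT.cons (FT.leaf [(nat_lit 10420820)]) FT.nil) FT.nil) (FT.cons (FT.cons (FT.cons (FT.leaf [(nat_lit 10952767)]) FT.nil) FT.nil) FT.nil)))) (FT.cons (FT.cons (FT.cons (FT.cons (FT.leaf [(nat_lit 10425816)]) FT.nil) FT.nil) (FT.cons (FT.cons (FT.cons (FT.leaf [(nat_lit 10948034)]) FT.nil) FT.nil) FT.nil)) (FT.cons (FT.cons (FT.cons (FT.cons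 (FT.leaf [(nat_lit 11443495)]) FT.nil) FT.nil) FT.nil) (FT.cons (FT.cons (FT.cons (FT.cons (FT.leaf [(nat_lit 12365711)]) FT.nil) FT.nil) FT.nil) FT.nil)))))))

end CB
end Pool.Agent.Lib.MP_6947cd_al
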