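import Pool.Agent.Lib.MP_6947cd_al.L.BoxDataB
import Pool.Agent.Lib.MP_6947cd_al.L.TeD2
import Pool.Agent.Lib.MP_6947cd_al.L.TeD3
import Pool.Agent.Lib.MP_6947cd_al.L.TeD4

/-!
Problem MP_6947cd_al (Chollet).  CASE B, rows `j`: boxes (generated).
-/

set_option autoImplicit false
set_option linter.defProp false
set_option maxRecDepth 20000

namespace Pool.Agent.Lib.MP_6947cd_al
namespace CB

open Ent Ent.Pk Fr Fr.WT CA

/-! box `yB12_0` -/

def P12_0 : BQ := ⟨(nat_lit 8), (nat_lit 4), (nat_lit 4), (nat_lit 0), (nat_lit 8), (nat_lit 540), (nat_lit 560), (nat_lit 120), [(nat_lit 200), (nat_lit 300), (nat_lit 450), (nat_lit 800)], (nat_lit 5440000), (nat_lit 16000000), (nat_lit 16000000000)⟩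
def q12_0 : PC := ⟨(nat_lit 1000), [(nat_lit 120000), (nat_lit 200000), (nat_lit 300000), (nat_lit 450000), (nat_lit 800000)], (nat_lit 340282367000166625996085689103316680705000000), (nat_lit 15994560000000), (nat_lit 15994560000000), (nat_lit 10000000)⟩
def r12_0 : List PC := [⟨(nat_lit 1417), [(nat_lit 120595), (nat_lit 201086), (nat_lit 301804), (nat_lit 453437), (nat_lit 799811)], (nat_lit 342619086014452715521579149458948172597383506), (nat_lit 16576154367840), (nat_lit 16593372664800), (nat_lit 10076378)⟩]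
def s12_0 : List PB := [⟨(nat_lit 28340), (nat_lit 1929520000000), [(nat_lit 201086), (nat_lit 301804), (nat_lit 453437), (nat_lit 799811)], (nat_lit 342619086014452715521579149458948172597383506), (nat_lit 1142476061210464), (nat_lit 1142493279507424), (nat_lit 66720)⟩]
def n12_0 : List KN := [⟨(nat_lit 800), (nat_lit 450), (nat_lit 14696761), (nat_lit 11615522)⟩, ⟨(nat_lit 450), (nat_lit 300), (nat_lit 20402210), (nat_lit 14696761)⟩, ⟨(nat_lit 300), (nat_lit 200), (nat_lit 23968959), (nat_lit 20402210)⟩, ⟨(nat_lit 200), (nat_lit 120), (nat_lit 30159351), (nat_lit 23968959)⟩]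
def w12_0 : List ℕ := [(nat_lit 66720)]
def par12_0 : parC yB12_0 P12_0 s12_0 r12_0 q12_0 n12_0 w12_0 = true := by decide +kernel

def p12_0_0 : PF := (PF.cons (PF.cons (PF.cons (PF.cons (PF.leaf (nat_lit 0) (nat_lit 67108813) (nat_lit 67108813) (nat_lit 0) [(nat_lit 0), (nat_lit 0), (nat_lit 0), (nat_lit 0)]) (PF.cons (PF.leaf (nat_lit 141332) (nat_lit 297909) (nat_lit 66810903) (nat_lit 0) [(nat_lit 297909), (nat_lit 0), (nat_lit 0), (nat_lit 0)]) (PF.cons PF.nil (PF.cons PF.nil PF.nil)))) (PF.cons (PF.cons (PF.leaf (nat_lit 318034) (nat_lit 784615) (nat_lit 66324197) (nat_lit 0) [(nat_lit 0), (nat_lit 784615), (nat_lit 0), (nat_lit 0)]) (PF.cons PF.nil PF.nil)) (PF.cons PF.nil PF.nil))) (PF.cons (PF.cons (PF.cons (PF.leaf (nat_lit 656778) (nat_lit 1948299) (nat_lit 65160513) (nat_lit 0) [(nat_lit 0), (nat_lit 0), (nat_lit 1948299), (nat_lit 0)]) (PF.cons PF.nil PF.nil)) (PF.cons PF.nil PF.nil)) (PF.cons PF.nil PF.nil))) (PF.cons (PF.cons (PF.cons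 (PF.cons (PF.leaf (nat_lit 1231085) (nat_lit 4506724) (nat_lit 62602088) (nat_lit 0) [(nat_lit 0), (nat_lit 0), (nat_lit 0), (nat_lit 4506724)]) (PF.cons (PF.leaf (nat_lit 1535775) (nat_lit 564508) (nat_lit 61925585) (nat_lit 0) [(nat_lit 564508), (nat_lit 0), (nat_lit 0), (nat_lit 4618718)]) (PF.cons (PF.leaf (nat_lit 1898125) (nat_lit 621255) (nat_lit 61131213) (nat_lit 0)
 [(nat_lit 621255), (nat_lit 0), (nat_lit 0), (nat_lit 4735089)]) (PF.cons PF.nil PF.nil)))) (PF.cons (PF.cons (PF.leaf (nat_lit 1786718) (nat_lit 1201648) (nat_lit 61187083) (nat_lit 0) [(nat_lit 0), (nat_lit 1201648), (nat_lit 0), (nat_lit 4720081)]) (PF.cons PF.nil PF.nil)) (PF.cons PF.nil PF.nil))) (PF.cons (PF.cons (PF.cons (PF.leaf (nat_lit 2193874) (nat_lit 2496140) (nat_lit 59742616) (nat_lit 0) [(nat_lit 0), (nat_lit 0), (nat_lit 2496140), (nat_lit 4870056)]) (PF.cons PF.nil PF.nil)) (PF.cons PF.nil PF.nil)) (PF.cons PF.nil PF.nil))) (PF.cons (PF.cons (PF.cons (PF.cons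 (PF.leaf (nat_lit 2795535) (nat_lit 5030593) (nat_lit 57047626) (nat_lit 0) [(nat_lit 0), (nat_lit 0), (nat_lit 0), (nat_lit 5030593)]) (PF.cons (PF.leaf (nat_lit 3201827) (nat_lit 738679) (nat_lit 56169981) (nat_lit 0) [(nat_lit 738679), (nat_lit 0), (nat_lit 0), (nat_lit 5100076)]) PF.nil)) (PF.cons PF.nil PF.nil)) (PF.cons PF.nil PF.nil)) (PF.cons PF.nil (PF.cons PF.nil (PF.cons PF.nil PF.nil))))))

def p12_0_0_0 : pfC (piC [(nat_lit 30159351), (nat_lit 23968959), (nat_lit 20402210), (nat_lit 14696761)] (nat_lit 0)) p12_0_0 (nat_lit 4) (nat_lit 0) (nat_lit 2) = true := by decide +kernel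
def p12_0_0_1 : pfC (piC [(nat_lit 30159351), (nat_lit 23968959), (nat_lit 20402210), (nat_lit 14696761)] (nat_lit 0)) p12_0_0 (nat_lit 4) (nat_lit 2) (nat_lit 4) = true := by decide +kernel
def p12_0_0_2 : pfC (piC [(nat_lit 30159351), (nat_lit 23968959), (nat_lit 20402210), (nat_lit 14696761)] (nat_lit 0)) p12_0_0 (nat_lit 4) (nat_lit 4) (nat_lit 5) = true := by decide +kernel
def p12_0_0_3 : pfC (piC [(nat_lit 30159351), (nat_lit 23968959), (nat_lit 20402210), (nat_lit 14696761)] (nat_lit 0)) p12_0_0 (nat_lit 4) (nat_lit 5) (nat_lit 6) = true := by decide +kernel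
def p12_0_0_4 : pfC (piC [(nat_lit 30159351), (nat_lit 23968959), (nat_lit 20402210), (nat_lit 14696761)] (nat_lit 0)) p12_0_0 (nat_lit 4) (nat_lit 6) (nat_lit 7) = true := by decide +kernel
def p12_0_0_5 : pfC (piC [(nat_lit 30159351), (nat_lit 23968959), (nat_lit 20402210), (nat_lit 14696761)] (nat_lit 0)) p12_0_0 (nat_lit 4) (nat_lit 7) (nat_lit 8) = true := by decide +kernel
def p12_0_0_6 : pfC (piC [(nat_lit 30159351), (nat_lit 23968959), (nat_lit 20402210), (nat_lit 14696761)] (nat_lit 0)) p12_0_0 (nat_lit 4) (nat_lit 8) (nat_lit 9) = true := by decide +kernel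
def p12_0_0_7 : pfC (piC [(nat_lit 30159351), (nat_lit 23968959), (nat_lit 20402210), (nat_lit 14696761)] (nat_lit 0)) p12_0_0 (nat_lit 4) (nat_lit 9) (nat_lit 10) = true := by decide +kernel
def p12_0_0_8 : pfC (piC [(nat_lit 30159351), (nat_lit 23968959), (nat_lit 20402210), (nat_lit 14696761)] (nat_lit 0)) p12_0_0 (nat_lit 4) (nat_lit 10) (nat_lit 11) = true := by decide +kernel
theorem p12_0_0_T : PfS (PiF n12_0.reverse (nat_lit 0)) p12_0_0 (nat_lit 4) [] 0 :=
  pftab_of (los := [(nat_lit 30159351), (nat_lit 23968959), (nat_lit 20402210), (nat_lit 14696761)]) (by decide +kernel) (hi := (nat_lit 11)) (PfP.trans (PfP.trans (PfP.trans (PfP.trans (PfP.trans (PfP.trans (PfP.trans (PfP.trans (pfC_sound p12_0_0_0) (pfC_sound p12_0_0_1)) (pfC_sound p12_0_0_2)) (pfC_sound p12_0_0_3)) (pfC_sound p12_0_0_4)) (pfC_sound p12_0_0_5)) (pfC_sound p12_0_0_6)) (pfC_sound p12_0_0_7)) (pfC_sound p12_0_0_8)) (by decide +kernel)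

def z12_0_0 : zOK yB12_0 (nat_lit 0) (nat_lit 0) (nat_lit 400) (nat_lit 0) (nat_lit 0) = true := by decide +kernel
def g12_0_0 : gOK yB12_0.x P12_0 (nat_lit 1418) (q12_0 :: r12_0) (nat_lit 0) (nat_lit 0) (nat_lit 1) (nat_lit 400) (nat_lit 0) (nat_lit 11000000) (nat_lit 12712500) (nat_lit 12712500) [(nat_lit 800), (nat_lit 1600)] = true := by decide +kernel
def v12_0_0 : ivC P12_0 s12_0 w12_0 n12_0 (nat_lit 4) (nat_lit 5660) (nat_lit 0) (nat_lit 0) f104_1_0 f112_1_0 (nat_lit 1) (nat_lit 400) f104_1_400 f112_1_400 (nat_lit 0) (nat_lit 0) p12_0_0 = true := by decide +kernel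
def p12_0_1 : PF := (PF.cons (PF.cons (PF.cons (PF.cons (PF.leaf (nat_lit 1856496) (nat_lit 8201179) (nat_lit 58907633) (nat_lit 8201179) [(nat_lit 0), (nat_lit 0), (nat_lit 0), (nat_lit 0)]) (PF.cons PF.nil PF.nil)) (PF.cons PF.nil PF.nil)) (PF.cons PF.nil PF.nil)) (PF.cons (PF.cons (PF.cons (PF.cons (PF.leaf (nat_lit 3388672) (nat_lit 5089055) (nat_lit 53556545) (nat_lit 8463212) [(nat_lit 0), (nat_lit 0), (nat_lit 0), (nat_lit 5089055)]) (PF.cons PF.nil PF.nil)) (PF.cons PF.nil PF.nil)) (PF.cons PF.nil PF.nil)) (PF.cons PF.nil (PF.cons PF.nil PF.nil))))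

def p12_0_1_0 : pfC (piC [(nat_lit 30159351), (nat_lit 23968959), (nat_lit 20402210), (nat_lit 14696761)] (nat_lit 12765436)) p12_0_1 (nat_lit 4) (nat_lit 0) (nat_lit 1) = true := by decide +kernel
def p12_0_1_1 : pfC (piC [(nat_lit 30159351), (nat_lit 23968959), (nat_lit 20402210), (nat_lit 14696761)] (nat_lit 12765436)) p12_0_1 (nat_lit 4) (nat_lit 1) (nat_lit 2) = true := by decide +kernel
theorem p12_0_1_T : PfS (PiF n12_0.reverse (nat_lit 12765436)) p12_0_1 (nat_lit 4) [] 0 :=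
  pftab_of (los := [(nat_lit 30159351), (nat_lit 23968959), (nat_lit 20402210), (nat_lit 14696761)]) (by decide +kernel) (hi := (nat_lit 2)) (PfP.trans (pfC_sound p12_0_1_0) (pfC_sound p12_0_1_1)) (by decide +kernel)

def z12_0_1 : zOK yB12_0 (nat_lit 1) (nat_lit 400) (nat_lit 600) (nat_lit 12765436) (nat_lit 6951493) = true := by decide +kernel
def g12_0_1 : gOK yB12_0.x P12_0 (nat_lit 1418) (q12_0 :: r12_0) (nat_lit 1) (nat_lit 400) (nat_lit 2) (nat_lit 600) (nat_lit 11000000) (nat_lit 17850000) (nat_lit 12712500) (nat_lit 12712500) [(nat_lit 800), (nat_lit 1130)] = true := by decide +kernel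
def v12_0_1 : ivC P12_0 s12_0 w12_0 n12_0 (nat_lit 4) (nat_lit 5260) (nat_lit 1) (nat_lit 400) f104_1_400 f112_1_400 (nat_lit 2) (nat_lit 600) f104_1_600 f112_1_600 (nat_lit 12765436) (nat_lit 6951493) p12_0_1 = true := by decide +kernel
def p12_0_2 : PF := (PF.cons (PF.cons (PF.cons (PF.cons (PF.leaf (nat_lit 2745629) (nat_lit 15992815) (nat_lit 51115997) (nat_lit 15992815) [(nat_lit 0), (nat_lit 0), (nat_lit 0), (nat_lit 0)]) (PF.cons (PF.leaf (nat_lit 3051381) (nat_lit 616166) (nat_lit 50542692) (nat_lit 15949953) [(nat_lit 616166), (nat_lit 0), (nat_lit 0), (nat_lit 0)]) (PF.cons PF.nil (PF.cons PF.nil PF.nil)))) (PF.cons (PF.cons (PF.leaf (nat_lit 3287650) (nat_lit 1280118) (nat_lit 49932338) (nat_lit 15896355) [(nat_lit 0), (nat_lit 1280118), (nat_lit 0), (nat_lit 0)]) (PF.cons PF.nil PF.nil)) (PF.cons PF.nil PF.nil))) (PF.cons (PF.cons (PF.cons (PF.leaf (nat_lit 3651033) (nat_lit 2560305) (nat_lit 48774850) (nat_lit 15773656) [(nat_lit 0),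 (nat_lit 0), (nat_lit 2560305), (nat_lit 0)]) (PF.cons PF.nil PF.nil)) (PF.cons PF.nil PF.nil)) (PF.cons PF.nil PF.nil))) (PF.cons (PF.cons (PF.cons (PF.cons (PF.leaf (nat_lit 4156668) (nat_lit 4912473) (nat_lit 46704026) (nat_lit 15492312) [(nat_lit 0), (nat_lit 0), (nat_lit 0), (nat_lit 4912473)]) (PF.cons (PF.leaf (nat_lit 4536135) (nat_lit 741538) (nat_lit 46020725) (nat_lit 15403927) [(nat_lit 741538), (nat_lit 0), (nat_lit 0), (nat_lit 4942621)]) PF.nil)) (PF.cons PF.nil PF.nil))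
 (PF.cons PF.nil PF.nil)) (PF.cons PF.nil (PF.cons PF.nil PF.nil))))

def p12_0_2_0 : pfC (piC [(nat_lit 30159351), (nat_lit 23968959), (nat_lit 20402210), (nat_lit 14696761)] (nat_lit 6951493)) p12_0_2 (nat_lit 4) (nat_lit 0) (nat_lit 1) = true := by decide +kernel
def p12_0_2_1 : pfC (piC [(nat_lit 30159351), (nat_lit 23968959), (nat_lit 20402210), (nat_lit 14696761)] (nat_lit 6951493)) p12_0_2 (nat_lit 4) (nat_lit 1) (nat_lit 2) = true := by decide +kernel
def p12_0_2_2 : pfC (piC [(nat_lit 30159351), (nat_lit 23968959), (nat_lit 20402210), (nat_lit 14696761)] (nat_lit 6951493)) p12_0_2 (nat_lit 4) (nat_lit 2) (nat_lit 3) = true := by decide +kernel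
def p12_0_2_3 : pfC (piC [(nat_lit 30159351), (nat_lit 23968959), (nat_lit 20402210), (nat_lit 14696761)] (nat_lit 6951493)) p12_0_2 (nat_lit 4) (nat_lit 3) (nat_lit 4) = true := by decide +kernel
def p12_0_2_4 : pfC (piC [(nat_lit 30159351), (nat_lit 23968959), (nat_lit 20402210), (nat_lit 14696761)] (nat_lit 6951493)) p12_0_2 (nat_lit 4) (nat_lit 4) (nat_lit 5) = true := by decide +kernel
def p12_0_2_5 : pfC (piC [(nat_lit 30159351), (nat_lit 23968959), (nat_lit 20402210), (nat_lit 14696761)] (nat_lit 6951493)) p12_0_2 (nat_lit 4) (nat_lit 5) (nat_lit 6) = true := by decide +kernel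
theorem p12_0_2_T : PfS (PiF n12_0.reverse (nat_lit 6951493)) p12_0_2 (nat_lit 4) [] 0 :=
  pftab_of (los := [(nat_lit 30159351), (nat_lit 23968959), (nat_lit 20402210), (nat_lit 14696761)]) (by decide +kernel) (hi := (nat_lit 6)) (PfP.trans (PfP.trans (PfP.trans (PfP.trans (PfP.trans (pfC_sound p12_0_2_0) (pfC_sound p12_0_2_1)) (pfC_sound p12_0_2_2)) (pfC_sound p12_0_2_3)) (pfC_sound p12_0_2_4)) (pfC_sound p12_0_2_5)) (by decide +kernel)

def z12_0_2 : zOK yB12_0 (nat_lit 2) (nat_lit 600) (nat_lit 750) (nat_lit 6951493) (nat_lit 4668089) = true := by decide +kernel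
def g12_0_2 : gOK yB12_0.x P12_0 (nat_lit 1418) (q12_0 :: r12_0) (nat_lit 2) (nat_lit 600) (nat_lit 3) (nat_lit 750) (nat_lit 12712500) (nat_lit 12712500) (nat_lit 12712500) (nat_lit 12712500) [(nat_lit 800), (nat_lit 1600)] = true := by decide +kernel
def v12_0_2 : ivC P12_0 s12_0 w12_0 n12_0 (nat_lit 4) (nat_lit 5060) (nat_lit 2) (nat_lit 600) f104_1_600 f112_1_600 (nat_lit 3) (nat_lit 750) f104_1_750 f112_1_750 (nat_lit 6951493) (nat_lit 4668089) p12_0_2 = true := by decide +kernel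
def p12_0_3 : PF := (PF.cons (PF.cons (PF.cons (PF.cons (PF.leaf (nat_lit 3200054) (nat_lit 22713872) (nat_lit 44394940) (nat_lit 22713872) [(nat_lit 0), (nat_lit 0), (nat_lit 0), (nat_lit 0)]) (PF.cons (PF.leaf (nat_lit 3485866) (nat_lit 582518) (nat_lit 43948442) (nat_lit 22577852) [(nat_lit 582518), (nat_lit 0), (nat_lit 0), (nat_lit 0)]) (PF.cons (PF.leaf (nat_lit 3818021) (nat_lit 628863) (nat_lit 43433410) (nat_lit 22417675) [(nat_lit 628863), (nat_lit 0), (nat_lit 0), (nat_lit 0)]) (PF.cons (PF.leaf (nat_lit 4186217) (nat_lit 668278) (nat_lit 42866532) (nat_lit 22237445) [(nat_lit 668278), (nat_lit 0), (nat_lit 0), (nat_lit 0)]) (PF.cons PF.nil PF.nil))))) (PF.cons (PF.cons (PF.leaf (nat_lit 3704978) (nat_lit 1206779) (nat_lit 43473348) (nat_lit 22428684) [(nat_lit 0), (nat_lit 1206779), (nat_lit 0), (nat_lit 0)]) (PF.cons (PF.leaf (nat_lit 4048000) (nat_lit 652879) (nat_lit 42938811) (nat_lit 22259077) [(nat_lit 652879), (nat_lit 1258044),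 (nat_lit 0), (nat_lit 0)]) (PF.cons (PF.leaf (nat_lit 4424754) (nat_lit 688636) (nat_lit 42357481) (nat_lit 22070583) [(nat_lit 688636), (nat_lit 1303474), (nat_lit 0), (nat_lit 0)]) (PF.cons PF.nil PF.nil)))) (PF.cons (PF.cons (PF.leaf (nat_lit 4280669)
 (nat_lit 1288570) (nat_lit 42436724) (nat_lit 22094947) [(nat_lit 0), (nat_lit 1288570), (nat_lit 0), (nat_lit 0)]) (PF.cons PF.nil PF.nil)) (PF.cons PF.nil (PF.cons PF.nil PF.nil))))) (PF.cons (PF.cons (PF.cons (PF.leaf (nat_lit 4039549) (nat_lit 2402143) (nat_lit 42572735) (nat_lit 22133934) [(nat_lit 0), (nat_lit 0), (nat_lit 2402143), (nat_lit 0)]) (PF.cons (PF.leaf (nat_lit 4390806) (nat_lit 677782) (nat_lit 42027404) (nat_lit 21954867) [(nat_lit 677782), (nat_lit 0), (nat_lit 2448758), (nat_lit 0)]) (PF.cons PF.nil (PF.cons PF.nil PF.nil)))) (PF.cons (PF.cons (PF.leaf (nat_lit 4623989) (nat_lit 1321990) (nat_lit 41523622) (nat_lit 21784729) [(nat_lit 0), (nat_lit 1321990), (nat_lit 2478470),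 (nat_lit 0)]) (PF.cons PF.nil PF.nil)) (PF.cons PF.nil PF.nil))) (PF.cons (PF.cons (PF.cons (PF.leaf (nat_lit 4964214) (nat_lit 2510826) (nat_lit 40619054) (nat_lit 21468104) [(nat_lit 0), (nat_lit 0), (nat_lit 2510826), (nat_lit 0)]) (PF.cons PF.nil PF.nil)) (PF.cons PF.nil PF.nil)) PF.nil))) (PF.cons (PF.cons (PF.cons (PF.cons (PF.leaf (nat_lit 4501742) (nat_lit 4577823) (nat_lit 40960905) (nat_lit 21570083) [(nat_lit 0), (nat_lit 0), (nat_lit 0), (nat_lit 4577823)]) (PF.cons (PF.leaf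
 (nat_lit 4855285) (nat_lit 695904) (nat_lit 40424861) (nat_lit 21384687) [(nat_lit 695904), (nat_lit 0), (nat_lit 0), (nat_lit 4603360)]) (PF.cons (PF.leaf (nat_lit 5238013) (nat_lit 725194) (nat_lit 39850920) (nat_lit 21182581) [(nat_lit 725194), (nat_lit 0), (nat_lit 0), (nat_lit 4624921)]) (PF.cons PF.nil PF.nil)))) (PF.cons (PF.cons (PF.leaf (nat_lit 5085247) (nat_lit 1345427) (nat_lit 39935030) (nat_lit 21210943) [(nat_lit 0), (nat_lit 1345427), (nat_lit 0), (nat_lit 4617410)]) (PF.cons PF.nil PF.nil)) (PF.cons PF.nil PF.nil))) (PF.cons (PF.cons (PF.cons (PF.leaf (nat_lit 5416430) (nat_lit 2527096) (nat_lit 39064361) (nat_lit 20892147) [(nat_lit 0), (nat_lit 0), (nat_lit 2527096), (nat_lit 4625208)]) (PF.cons PF.nil PF.nil)) PF.nil) PF.nil)) (PF.cons PF.nil (PF.cons PF.nil PF.nil))))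

def p12_0_3_0 : pfC (piC [(nat_lit 30159351), (nat_lit 23968959), (nat_lit 20402210), (nat_lit 14696761)] (nat_lit 4668089)) p12_0_3 (nat_lit 4) (nat_lit 0) (nat_lit 1) = true := by decide +kernel
def p12_0_3_1 : pfC (piC [(nat_lit 30159351), (nat_lit 23968959), (nat_lit 20402210), (nat_lit 14696761)] (nat_lit 4668089)) p12_0_3 (nat_lit 4) (nat_lit 1) (nat_lit 2) = true := by decide +kernel
def p12_0_3_2 : pfC (piC [(nat_lit 30159351), (nat_lit 23968959), (nat_lit 20402210), (nat_lit 14696761)] (nat_lit 4668089)) p12_0_3 (nat_lit 4) (nat_lit 2) (nat_lit 3) = true := by decide +kernel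
def p12_0_3_3 : pfC (piC [(nat_lit 30159351), (nat_lit 23968959), (nat_lit 20402210), (nat_lit 14696761)] (nat_lit 4668089)) p12_0_3 (nat_lit 4) (nat_lit 3) (nat_lit 4) = true := by decide +kernel
def p12_0_3_4 : pfC (piC [(nat_lit 30159351), (nat_lit 23968959), (nat_lit 20402210), (nat_lit 14696761)] (nat_lit 4668089)) p12_0_3 (nat_lit 4) (nat_lit 4) (nat_lit 5) = true := by decide +kernel
def p12_0_3_5 : pfC (piC [(nat_lit 30159351), (nat_lit 23968959), (nat_lit 20402210), (nat_lit 14696761)] (nat_lit 4668089)) p12_0_3 (nat_lit 4) (nat_lit 5) (nat_lit 6) = true := by decide +kernel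
def p12_0_3_6 : pfC (piC [(nat_lit 30159351), (nat_lit 23968959), (nat_lit 20402210), (nat_lit 14696761)] (nat_lit 4668089)) p12_0_3 (nat_lit 4) (nat_lit 6) (nat_lit 7) = true := by decide +kernel
def p12_0_3_7 : pfC (piC [(nat_lit 30159351), (nat_lit 23968959), (nat_lit 20402210), (nat_lit 14696761)] (nat_lit 4668089)) p12_0_3 (nat_lit 4) (nat_lit 7) (nat_lit 8) = true := by decide +kernel
def p12_0_3_8 : pfC (piC [(nat_lit 30159351), (nat_lit 23968959), (nat_lit 20402210), (nat_lit 14696761)] (nat_lit 4668089)) p12_0_3 (nat_lit 4) (nat_lit 8) (nat_lit 9) = true := by decide +kernel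
def p12_0_3_9 : pfC (piC [(nat_lit 30159351), (nat_lit 23968959), (nat_lit 20402210), (nat_lit 14696761)] (nat_lit 4668089)) p12_0_3 (nat_lit 4) (nat_lit 9) (nat_lit 10) = true := by decide +kernel
def p12_0_3_10 : pfC (piC [(nat_lit 30159351), (nat_lit 23968959), (nat_lit 20402210), (nat_lit 14696761)] (nat_lit 4668089)) p12_0_3 (nat_lit 4) (nat_lit 10) (nat_lit 11) = true := by decide +kernel
def p12_0_3_11 : pfC (piC [(nat_lit 30159351), (nat_lit 23968959), (nat_lit 20402210), (nat_lit 14696761)] (nat_lit 4668089)) p12_0_3 (nat_lit 4) (nat_lit 11) (nat_lit 12) = true := by decide +kernel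
def p12_0_3_12 : pfC (piC [(nat_lit 30159351), (nat_lit 23968959), (nat_lit 20402210), (nat_lit 14696761)] (nat_lit 4668089)) p12_0_3 (nat_lit 4) (nat_lit 12) (nat_lit 13) = true := by decide +kernel
def p12_0_3_13 : pfC (piC [(nat_lit 30159351), (nat_lit 23968959), (nat_lit 20402210), (nat_lit 14696761)] (nat_lit 4668089)) p12_0_3 (nat_lit 4) (nat_lit 13) (nat_lit 14) = true := by decide +kernel
def p12_0_3_14 : pfC (piC [(nat_lit 30159351), (nat_lit 23968959), (nat_lit 20402210), (nat_lit 14696761)] (nat_lit 4668089)) p12_0_3 (nat_lit 4) (nat_lit 14) (nat_lit 15) = true := by decide +kernel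
def p12_0_3_15 : pfC (piC [(nat_lit 30159351), (nat_lit 23968959), (nat_lit 20402210), (nat_lit 14696761)] (nat_lit 4668089)) p12_0_3 (nat_lit 4) (nat_lit 15) (nat_lit 16) = true := by decide +kernel
def p12_0_3_16 : pfC (piC [(nat_lit 30159351), (nat_lit 23968959), (nat_lit 20402210), (nat_lit 14696761)] (nat_lit 4668089)) p12_0_3 (nat_lit 4) (nat_lit 16) (nat_lit 17) = true := by decide +kernel
theorem p12_0_3_T : PfS (PiF n12_0.reverse (nat_lit 4668089)) p12_0_3 (nat_lit 4) [] 0 :=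
  pftab_of (los := [(nat_lit 30159351), (nat_lit 23968959), (nat_lit 20402210), (nat_lit 14696761)]) (by decide +kernel) (hi := (nat_lit 17)) (PfP.trans (PfP.trans (PfP.trans (PfP.trans (PfP.trans (PfP.trans (PfP.trans (PfP.trans (PfP.trans (PfP.trans (PfP.trans (PfP.trans (PfP.trans (PfP.trans (PfP.trans (PfP.trans (pfC_sound p12_0_3_0) (pfC_sound p12_0_3_1)) (pfC_sound p12_0_3_2)) (pfC_sound p12_0_3_3)) (pfC_sound p12_0_3_4)) (pfC_sound p12_0_3_5)) (pfC_sound p12_0_3_6)) (pfC_sound p12_0_3_7)) (pfC_sound p12_0_3_8)) (pfC_sound p12_0_3_9)) (pfC_sound p12_0_3_10)) (pfC_sound p12_0_3_11)) (pfC_sound p12_0_3_12)) (pfC_sound p12_0_3_13)) (pfC_sound p12_0_3_14)) (pfC_sound p12_0_3_15)) (pfC_sound p12_0_3_16)) (by decide +kernel)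

def z12_0_3 : zOK yB12_0 (nat_lit 3) (nat_lit 750) (nat_lit 986) (nat_lit 4668089) (nat_lit 2033411) = true := by decide +kernel
def g12_0_3 : gOK yB12_0.x P12_0 (nat_lit 1418) (q12_0 :: r12_0) (nat_lit 3) (nat_lit 750) (nat_lit 4) (nat_lit 986) (nat_lit 12712500) (nat_lit 12712500) (nat_lit 12712500) (nat_lit 12712500) [(nat_lit 800)] = true := by decide +kernel
def v12_0_3 : ivC P12_0 s12_0 w12_0 n12_0 (nat_lit 4) (nat_lit 4910) (nat_lit 3) (nat_lit 750) f104_1_750 f112_1_750 (nat_lit 4) (nat_lit 986) f104_1_986 f112_1_986 (nat_lit 4668089) (nat_lit 2033411) p12_0_3 = true := by decide +kernel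
/-! box `yB12_1` -/

def P12_1 : BQ := ⟨(nat_lit 8), (nat_lit 8), (nat_lit 0), (nat_lit 4), (nat_lit 4), (nat_lit 560), (nat_lit 580), (nat_lit 120), [(nat_lit 200), (nat_lit 300), (nat_lit 450), (nat_lit 800)], (nat_lit 6320000), (nat_lit 16000000), (nat_lit 16000000000)⟩
def q12_1 : PC := ⟨(nat_lit 1000), [(nat_lit 120000), (nat_lit 200000), (nat_lit 300000), (nat_lit 450000), (nat_lit 800000)], (nat_lit 340282367000166625996085689103316680705000000), (nat_lit 15993680000000), (nat_lit 15993680000000), (nat_lit 10000000)⟩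
def r12_1 : List PC := [⟨(nat_lit 1477), [(nat_lit 120698), (nat_lit 201272), (nat_lit 302113), (nat_lit 453713), (nat_lit 799144)], (nat_lit 342909687155887971103278478962527155707138635), (nat_lit 16495360328800), (nat_lit 16514805138400), (nat_lit 10082512)⟩]
def s12_1 : List PB := [⟨(nat_lit 29540), (nat_lit 1931168000000), [(nat_lit 201272), (nat_lit 302113), (nat_lit 453713), (nat_lit 799144)], (nat_lit 342909687155887971103278478962527155707138635), (nat_lit 1142395267171424), (nat_lit 1142414711981024), (nat_lit 76320)⟩]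
def n12_1 : List KN := [⟨(nat_lit 800), (nat_lit 450), (nat_lit 14481699), (nat_lit 11363143)⟩, ⟨(nat_lit 450), (nat_lit 300), (nat_lit 20955711), (nat_lit 14481699)⟩, ⟨(nat_lit 300), (nat_lit 200), (nat_lit 24889148), (nat_lit 20955711)⟩, ⟨(nat_lit 200), (nat_lit 120), (nat_lit 31465553), (nat_lit 24889148)⟩]
def w12_1 : List ℕ := [(nat_lit 76320)]
def par12_1 : parC yB12_1 P12_1 s12_1 r12_1 q12_1 n12_1 w12_1 = true := by decide +kernel

def p12_1_0 : PF := (PF.cons (PF.cons (PF.cons (PF.cons (PF.leaf (nat_lit 0) (nat_lit 67108813) (nat_lit 67108813) (nat_lit 0) [(nat_lit 0), (nat_lit 0), (nat_lit 0), (nat_lit 0)]) (PF.cons (PF.leaf (nat_lit 116402) (nat_lit 238659) (nat_lit 66870153) (nat_lit 0) [(nat_lit 238659), (nat_lit 0), (nat_lit 0), (nat_lit 0)]) (PF.cons (PF.leaf (nat_lit 294453) (nat_lit 298633) (nat_lit 66511546) (nat_lit 0) [(nat_lit 298633), (nat_lit 0), (nat_lit 0), (nat_lit 0)]) (PF.cons PF.nil PF.nil)))) (PF.cons (PF.cons (PF.leaf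 (nat_lit 282228) (nat_lit 678190) (nat_lit 66430622) (nat_lit 0) [(nat_lit 0), (nat_lit 678190), (nat_lit 0), (nat_lit 0)]) (PF.cons PF.nil PF.nil)) (PF.cons PF.nil PF.nil))) (PF.cons (PF.cons (PF.cons (PF.leaf (nat_lit 640219) (nat_lit 1885286) (nat_lit 65223526) (nat_lit 0) [(nat_lit 0), (nat_lit 0), (nat_lit 1885286), (nat_lit 0)]) (PF.cons PF.nil PF.nil)) (PF.cons PF.nil PF.nil)) (PF.cons PF.nil PF.nil))) (PF.cons (PF.cons (PF.cons (PF.cons (PF.leaf (nat_lit 1270047) (nat_lit 4707261) (nat_lit 62401551) (nat_lit 0) [(nat_lit 0), (nat_lit 0), (nat_lit 0), (nat_lit 4707261)]) (PF.cons (PF.leaf (nat_lit 1536073) (nat_lit 479019) (nat_lit 61827968) (nat_lit 0) [(nat_lit 479019), (nat_lit 0),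
 (nat_lit 0), (nat_lit 4801824)]) (PF.cons (PF.leaf (nat_lit 1852381) (nat_lit 526357) (nat_lit 61154144) (nat_lit 0) [(nat_lit 526357), (nat_lit 0), (nat_lit 0), (nat_lit 4901954)]) (PF.cons PF.nil PF.nil)))) (PF.cons (PF.cons (PF.leaf (nat_lit 1779506) (nat_lit 1076892) (nat_lit 61133140) (nat_lit 0) [(nat_lit 0), (nat_lit 1076892), (nat_lit 0), (nat_lit 4898780)]) (PF.cons PF.nil PF.nil)) (PF.cons PF.nil PF.nil))) (PF.cons (PF.cons (PF.cons (PF.leaf (nat_lit 2215385) (nat_lit 2438425) (nat_lit 59611555) (nat_lit 0) [(nat_lit 0), (nat_lit 0), (nat_lit 2438425), (nat_lit 5058832)]) (PF.cons PF.nil PF.nil)) (PF.cons PF.nil PF.nil)) (PF.cons PF.nil PF.nil))) (PF.cons (PF.cons (PF.cons (PF.cons (PF.leaf (nat_lit 2872336) (nat_lit 5228236) (nat_lit 56652339) (nat_lit 0) [(nat_lit 0), (nat_lit 0), (nat_lit 0), (nat_lit 5228236)]) (PF.cons (PF.leaf (nat_lit 3232513) (nat_lit 637575) (nat_lit 55898752) (nat_lit 0) [(nat_lit 637575), (nat_lit 0), (nat_lit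 0), (nat_lit 5286242)]) PF.nil)) (PF.cons PF.nil PF.nil)) (PF.cons PF.nil PF.nil)) (PF.cons PF.nil (PF.cons PF.nil (PF.cons PF.nil PF.nil))))))

def p12_1_0_0 : pfC (piC [(nat_lit 31465553), (nat_lit 24889148), (nat_lit 20955711), (nat_lit 14481699)] (nat_lit 0)) p12_1_0 (nat_lit 4) (nat_lit 0) (nat_lit 2) = true := by decide +kernel
def p12_1_0_1 : pfC (piC [(nat_lit 31465553), (nat_lit 24889148), (nat_lit 20955711), (nat_lit 14481699)] (nat_lit 0)) p12_1_0 (nat_lit 4) (nat_lit 2) (nat_lit 3) = true := by decide +kernel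
def p12_1_0_2 : pfC (piC [(nat_lit 31465553), (nat_lit 24889148), (nat_lit 20955711), (nat_lit 14481699)] (nat_lit 0)) p12_1_0 (nat_lit 4) (nat_lit 3) (nat_lit 5) = true := by decide +kernel
def p12_1_0_3 : pfC (piC [(nat_lit 31465553), (nat_lit 24889148), (nat_lit 20955711), (nat_lit 14481699)] (nat_lit 0)) p12_1_0 (nat_lit 4) (nat_lit 5) (nat_lit 6) = true := by decide +kernel
def p12_1_0_4 : pfC (piC [(nat_lit 31465553), (nat_lit 24889148), (nat_lit 20955711), (nat_lit 14481699)] (nat_lit 0)) p12_1_0 (nat_lit 4) (nat_lit 6) (nat_lit 7) = true := by decide +kernel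
def p12_1_0_5 : pfC (piC [(nat_lit 31465553), (nat_lit 24889148), (nat_lit 20955711), (nat_lit 14481699)] (nat_lit 0)) p12_1_0 (nat_lit 4) (nat_lit 7) (nat_lit 8) = true := by decide +kernel
def p12_1_0_6 : pfC (piC [(nat_lit 31465553), (nat_lit 24889148), (nat_lit 20955711), (nat_lit 14481699)] (nat_lit 0)) p12_1_0 (nat_lit 4) (nat_lit 8) (nat_lit 9) = true := by decide +kernel
def p12_1_0_7 : pfC (piC [(nat_lit 31465553), (nat_lit 24889148), (nat_lit 20955711), (nat_lit 14481699)] (nat_lit 0)) p12_1_0 (nat_lit 4) (nat_lit 9) (nat_lit 10) = true := by decide +kernel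
def p12_1_0_8 : pfC (piC [(nat_lit 31465553), (nat_lit 24889148), (nat_lit 20955711), (nat_lit 14481699)] (nat_lit 0)) p12_1_0 (nat_lit 4) (nat_lit 10) (nat_lit 11) = true := by decide +kernel
def p12_1_0_9 : pfC (piC [(nat_lit 31465553), (nat_lit 24889148), (nat_lit 20955711), (nat_lit 14481699)] (nat_lit 0)) p12_1_0 (nat_lit 4) (nat_lit 11) (nat_lit 12) = true := by decide +kernel
theorem p12_1_0_T : PfS (PiF n12_1.reverse (nat_lit 0)) p12_1_0 (nat_lit 4) [] 0 :=
  pftab_of (los := [(nat_lit 31465553), (nat_lit 24889148), (nat_lit 20955711), (nat_lit 14481699)]) (by decide +kernel) (hi := (nat_lit 12)) (PfP.trans (PfP.trans (PfP.trans (PfP.trans (PfP.trans (PfP.trans (PfP.trans (PfP.trans (PfP.trans (pfC_sound p12_1_0_0) (pfC_sound p12_1_0_1)) (pfC_sound p12_1_0_2)) (pfC_sound p12_1_0_3)) (pfC_sound p12_1_0_4)) (pfC_sound p12_1_0_5)) (pfC_sound p12_1_0_6)) (pfC_sound p12_1_0_7)) (pfC_sound p12_1_0_8)) (pfC_sound p12_1_0_9)) (by decide +kernel)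

def z12_1_0 : zOK yB12_1 (nat_lit 0) (nat_lit 0) (nat_lit 400) (nat_lit 0) (nat_lit 0) = true := by decide +kernel
def g12_1_0 : gOK yB12_1.x P12_1 (nat_lit 1400) (q12_1 :: r12_1) (nat_lit 0) (nat_lit 0) (nat_lit 1) (nat_lit 400) (nat_lit 0) (nat_lit 11000000) (nat_lit 12712500) (nat_lit 12712500) [(nat_lit 800), (nat_lit 1600)] = true := by decide +kernel
def v12_1_0 : ivC P12_1 s12_1 w12_1 n12_1 (nat_lit 4) (nat_lit 5640) (nat_lit 0) (nat_lit 0) f112_1_0 f120_1_0 (nat_lit 1) (nat_lit 400) f112_1_400 f120_1_400 (nat_lit 0) (nat_lit 0) p12_1_0 = true := by decide +kernel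
def p12_1_1 : PF := (PF.cons (PF.cons (PF.cons (PF.cons (PF.leaf (nat_lit 1882222) (nat_lit 8377391) (nat_lit 58731421) (nat_lit 8377391) [(nat_lit 0), (nat_lit 0), (nat_lit 0), (nat_lit 0)]) (PF.cons (PF.leaf (nat_lit 2157144) (nat_lit 514189) (nat_lit 58158510) (nat_lit 8436113) [(nat_lit 514189), (nat_lit 0), (nat_lit 0), (nat_lit 0)]) PF.nil)) (PF.cons PF.nil PF.nil)) (PF.cons PF.nil PF.nil)) (PF.cons (PF.cons (PF.cons (PF.cons (PF.leaf (nat_lit 3447850) (nat_lit 5273624) (nat_lit 53212267) (nat_lit 8622921) [(nat_lit 0), (nat_lit 0), (nat_lit 0), (nat_lit 5273624)]) (PF.cons PF.nil PF.nil)) (PF.cons PF.nil PF.nil)) (PF.cons PF.nil PF.nil)) (PF.cons PF.nil (PF.cons PF.nil PF.nil))))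

def p12_1_1_0 : pfC (piC [(nat_lit 31465553), (nat_lit 24889148), (nat_lit 20955711), (nat_lit 14481699)] (nat_lit 12482732)) p12_1_1 (nat_lit 4) (nat_lit 0) (nat_lit 1) = true := by decide +kernel
def p12_1_1_1 : pfC (piC [(nat_lit 31465553), (nat_lit 24889148), (nat_lit 20955711), (nat_lit 14481699)] (nat_lit 12482732)) p12_1_1 (nat_lit 4) (nat_lit 1) (nat_lit 2) = true := by decide +kernel
def p12_1_1_2 : pfC (piC [(nat_lit 31465553), (nat_lit 24889148), (nat_lit 20955711), (nat_lit 14481699)] (nat_lit 12482732)) p12_1_1 (nat_lit 4) (nat_lit 2) (nat_lit 3) = true := by decide +kernel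
theorem p12_1_1_T : PfS (PiF n12_1.reverse (nat_lit 12482732)) p12_1_1 (nat_lit 4) [] 0 :=
  pftab_of (los := [(nat_lit 31465553), (nat_lit 24889148), (nat_lit 20955711), (nat_lit 14481699)]) (by decide +kernel) (hi := (nat_lit 3)) (PfP.trans (PfP.trans (pfC_sound p12_1_1_0) (pfC_sound p12_1_1_1)) (pfC_sound p12_1_1_2)) (by decide +kernel)

def z12_1_1 : zOK yB12_1 (nat_lit 1) (nat_lit 400) (nat_lit 600) (nat_lit 12482732) (nat_lit 6991654) = true := by decide +kernel
def g12_1_1 : gOK yB12_1.x P12_1 (nat_lit 1400) (q12_1 :: r12_1) (nat_lit 1) (nat_lit 400) (nat_lit 2) (nat_lit 600) (nat_lit 11000000) (nat_lit 17850000) (nat_lit 12712500) (nat_lit 12712500) [(nat_lit 800), (nat_lit 1250)] = true := by decide +kernel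
def v12_1_1 : ivC P12_1 s12_1 w12_1 n12_1 (nat_lit 4) (nat_lit 5240) (nat_lit 1) (nat_lit 400) f112_1_400 f120_1_400 (nat_lit 2) (nat_lit 600) f112_1_600 f120_1_600 (nat_lit 12482732) (nat_lit 6991654) p12_1_1 = true := by decide +kernel
def p12_1_2 : PF := (PF.cons (PF.cons (PF.cons (PF.cons (PF.leaf (nat_lit 2734625) (nat_lit 15866277) (nat_lit 51242535) (nat_lit 15866277) [(nat_lit 0), (nat_lit 0), (nat_lit 0), (nat_lit 0)]) (PF.cons (PF.leaf (nat_lit 3002179) (nat_lit 521730) (nat_lit 50755044) (nat_lit 15832038) [(nat_lit 521730), (nat_lit 0), (nat_lit 0), (nat_lit 0)]) (PF.cons PF.nil (PF.cons PF.nil PF.nil)))) (PF.cons (PF.cons (PF.leaf (nat_lit 3233221) (nat_lit 1147084) (nat_lit 50177128) (nat_lit 15784600) [(nat_lit 0), (nat_lit 1147084), (nat_lit 0), (nat_lit 0)]) (PF.cons PF.nil PF.nil)) (PF.cons PF.nil PF.nil))) (PF.cons (PF.cons (PF.cons (PF.leaf (nat_lit 3624975) (nat_lit 2498488) (nat_lit 48949509) (nat_lit 15660814) [(nat_lit 0),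 (nat_lit 0), (nat_lit 2498488), (nat_lit 0)]) (PF.cons PF.nil PF.nil)) (PF.cons PF.nil PF.nil)) (PF.cons PF.nil PF.nil))) (PF.cons (PF.cons (PF.cons (PF.cons (PF.leaf (nat_lit 4179196) (nat_lit 5089479) (nat_lit 46663438) (nat_lit 15355894) [(nat_lit 0), (nat_lit 0), (nat_lit 0), (nat_lit 5089479)]) (PF.cons (PF.leaf (nat_lit 4516782) (nat_lit 639339) (nat_lit 46073650) (nat_lit 15281193) [(nat_lit 639339), (nat_lit 0), (nat_lit 0), (nat_lit 5114630)]) PF.nil)) (PF.cons PF.nil PF.nil))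
 (PF.cons PF.nil PF.nil)) (PF.cons PF.nil (PF.cons PF.nil PF.nil))))

def p12_1_2_0 : pfC (piC [(nat_lit 31465553), (nat_lit 24889148), (nat_lit 20955711), (nat_lit 14481699)] (nat_lit 6991654)) p12_1_2 (nat_lit 4) (nat_lit 0) (nat_lit 1) = true := by decide +kernel
def p12_1_2_1 : pfC (piC [(nat_lit 31465553), (nat_lit 24889148), (nat_lit 20955711), (nat_lit 14481699)] (nat_lit 6991654)) p12_1_2 (nat_lit 4) (nat_lit 1) (nat_lit 2) = true := by decide +kernel
def p12_1_2_2 : pfC (piC [(nat_lit 31465553), (nat_lit 24889148), (nat_lit 20955711), (nat_lit 14481699)] (nat_lit 6991654)) p12_1_2 (nat_lit 4) (nat_lit 2) (nat_lit 3) = true := by decide +kernel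
def p12_1_2_3 : pfC (piC [(nat_lit 31465553), (nat_lit 24889148), (nat_lit 20955711), (nat_lit 14481699)] (nat_lit 6991654)) p12_1_2 (nat_lit 4) (nat_lit 3) (nat_lit 4) = true := by decide +kernel
def p12_1_2_4 : pfC (piC [(nat_lit 31465553), (nat_lit 24889148), (nat_lit 20955711), (nat_lit 14481699)] (nat_lit 6991654)) p12_1_2 (nat_lit 4) (nat_lit 4) (nat_lit 5) = true := by decide +kernel
def p12_1_2_5 : pfC (piC [(nat_lit 31465553), (nat_lit 24889148), (nat_lit 20955711), (nat_lit 14481699)] (nat_lit 6991654)) p12_1_2 (nat_lit 4) (nat_lit 5) (nat_lit 6) = true := by decide +kernel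
theorem p12_1_2_T : PfS (PiF n12_1.reverse (nat_lit 6991654)) p12_1_2 (nat_lit 4) [] 0 :=
  pftab_of (los := [(nat_lit 31465553), (nat_lit 24889148), (nat_lit 20955711), (nat_lit 14481699)]) (by decide +kernel) (hi := (nat_lit 6)) (PfP.trans (PfP.trans (PfP.trans (PfP.trans (PfP.trans (pfC_sound p12_1_2_0) (pfC_sound p12_1_2_1)) (pfC_sound p12_1_2_2)) (pfC_sound p12_1_2_3)) (pfC_sound p12_1_2_4)) (pfC_sound p12_1_2_5)) (by decide +kernel)

def z12_1_2 : zOK yB12_1 (nat_lit 2) (nat_lit 600) (nat_lit 750) (nat_lit 6991654) (nat_lit 4732089) = true := by decide +kernel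
def g12_1_2 : gOK yB12_1.x P12_1 (nat_lit 1400) (q12_1 :: r12_1) (nat_lit 2) (nat_lit 600) (nat_lit 3) (nat_lit 750) (nat_lit 12712500) (nat_lit 12712500) (nat_lit 12712500) (nat_lit 12712500) [(nat_lit 800)] = true := by decide +kernel
def v12_1_2 : ivC P12_1 s12_1 w12_1 n12_1 (nat_lit 4) (nat_lit 5040) (nat_lit 2) (nat_lit 600) f112_1_600 f120_1_600 (nat_lit 3) (nat_lit 750) f112_1_750 f120_1_750 (nat_lit 6991654) (nat_lit 4732089) p12_1_2 = true := by decide +kernel
def p12_1_3 : PF := (PF.cons (PF.cons (PF.cons (PF.cons (PF.leaf (nat_lit 3181062) (nat_lit 22340445) (nat_lit 44768367) (nat_lit 22340445) [(nat_lit 0), (nat_lit 0), (nat_lit 0), (nat_lit 0)]) (PF.cons (PF.leaf (nat_lit 3432165) (nat_lit 495302) (nat_lit 44383976) (nat_lit 22229533) [(nat_lit 495302), (nat_lit 0), (nat_lit 0), (nat_lit 0)]) (PF.cons (PF.leaf (nat_lit 3724943) (nat_lit 535557) (nat_lit 43939021) (nat_lit 22098677) [(nat_lit 535557), (nat_lit 0), (nat_lit 0), (nat_lit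 0)]) (PF.cons (PF.leaf (nat_lit 4050458) (nat_lit 570140) (nat_lit 43447309) (nat_lit 21951080) [(nat_lit 570140), (nat_lit 0), (nat_lit 0), (nat_lit 0)]) (PF.cons PF.nil PF.nil))))) (PF.cons (PF.cons (PF.leaf (nat_lit 3647380) (nat_lit 1086026) (nat_lit 43928568) (nat_lit 22094218) [(nat_lit 0), (nat_lit 1086026), (nat_lit 0), (nat_lit 0)]) (PF.cons (PF.leaf (nat_lit 3951213) (nat_lit 558675) (nat_lit 43463816) (nat_lit 21954691) [(nat_lit 558675), (nat_lit 1131629), (nat_lit 0), (nat_lit 0)]) (PF.cons (PF.leaf (nat_lit 4285825) (nat_lit 590034) (nat_lit 42956697) (nat_lit 21799334) [(nat_lit 590034), (nat_lit 1172711), (nat_lit 0), (nat_lit 0)]) (PF.cons PF.nil PF.nil)))) (PF.cons (PF.cons (PF.leaf (nat_lit 4181023)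
 (nat_lit 1162255) (nat_lit 42979358) (nat_lit 21804942) [(nat_lit 0), (nat_lit 1162255), (nat_lit 0), (nat_lit 0)]) (PF.cons PF.nil PF.nil)) (PF.cons PF.nil (PF.cons PF.nil PF.nil))))) (PF.cons (PF.cons (PF.cons (PF.leaf (nat_lit 4009447) (nat_lit 2353472) (nat_lit 42961808) (nat_lit 21793532) [(nat_lit 0), (nat_lit 0), (nat_lit 2353472), (nat_lit 0)]) (PF.cons (PF.leaf (nat_lit 4322438) (nat_lit 584298) (nat_lit 42484708) (nat_lit 21644556) [(nat_lit 584298), (nat_lit 0), (nat_lit 2395249), (nat_lit 0)]) (PF.cons PF.nil (PF.cons PF.nil PF.nil)))) (PF.cons (PF.cons (PF.leaf (nat_lit 4553615) (nat_lit 1198731) (nat_lit 41996451) (nat_lit 21487864) [(nat_lit 0), (nat_lit 1198731), (nat_lit 2425765), (nat_lit 0)]) (PF.cons PF.nil PF.nil)) (PF.cons PF.nil PF.nil))) (PF.cons (PF.cons (PF.cons (PF.leaf (nat_lit 4923336) (nat_lit 2462637) (nat_lit 41021225) (nat_lit 21162312) [(nat_lit 0), (nat_lit 0), (nat_lit 2462637), (nat_lit 0)]) (PF.cons PF.nil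 PF.nil)) (PF.cons PF.nil PF.nil)) PF.nil))) (PF.cons (PF.cons (PF.cons (PF.cons (PF.leaf (nat_lit 4517479) (nat_lit 4758657) (nat_lit 41161480) (nat_lit 21188674) [(nat_lit 0), (nat_lit 0), (nat_lit 0), (nat_lit 4758657)]) (PF.cons (PF.leaf
 (nat_lit 4833111) (nat_lit 602232) (nat_lit 40693375) (nat_lit 21033348) [(nat_lit 602232), (nat_lit 0), (nat_lit 0), (nat_lit 4779857)]) (PF.cons (PF.leaf (nat_lit 5175447) (nat_lit 628006) (nat_lit 40190765) (nat_lit 20863802) [(nat_lit 628006), (nat_lit 0), (nat_lit 0), (nat_lit 4798231)]) (PF.cons PF.nil PF.nil)))) (PF.cons (PF.cons (PF.leaf (nat_lit 5061261) (nat_lit 1223675) (nat_lit 40219631) (nat_lit 20872287) [(nat_lit 0), (nat_lit 1223675), (nat_lit 0), (nat_lit 4793218)]) (PF.cons PF.nil PF.nil)) (PF.cons PF.nil PF.nil))) (PF.cons (PF.cons (PF.cons (PF.leaf (nat_lit 5420541) (nat_lit 2480600) (nat_lit 39284418) (nat_lit 20543192) [(nat_lit 0), (nat_lit 0), (nat_lit 2480600), (nat_lit 4800601)]) (PF.cons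 PF.nil PF.nil)) PF.nil) PF.nil)) (PF.cons PF.nil (PF.cons PF.nil PF.nil))))

def p12_1_3_0 : pfC (piC [(nat_lit 31465553), (nat_lit 24889148), (nat_lit 20955711), (nat_lit 14481699)] (nat_lit 4732089)) p12_1_3 (nat_lit 4) (nat_lit 0) (nat_lit 1) = true := by decide +kernel
def p12_1_3_1 : pfC (piC [(nat_lit 31465553), (nat_lit 24889148), (nat_lit 20955711), (nat_lit 14481699)] (nat_lit 4732089)) p12_1_3 (nat_lit 4) (nat_lit 1) (nat_lit 2) = true := by decide +kernel
def p12_1_3_2 : pfC (piC [(nat_lit 31465553), (nat_lit 24889148), (nat_lit 20955711), (nat_lit 14481699)] (nat_lit 4732089)) p12_1_3 (nat_lit 4) (nat_lit 2) (nat_lit 3) = true := by decide +kernel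
def p12_1_3_3 : pfC (piC [(nat_lit 31465553), (nat_lit 24889148), (nat_lit 20955711), (nat_lit 14481699)] (nat_lit 4732089)) p12_1_3 (nat_lit 4) (nat_lit 3) (nat_lit 4) = true := by decide +kernel
def p12_1_3_4 : pfC (piC [(nat_lit 31465553), (nat_lit 24889148), (nat_lit 20955711), (nat_lit 14481699)] (nat_lit 4732089)) p12_1_3 (nat_lit 4) (nat_lit 4) (nat_lit 5) = true := by decide +kernel
def p12_1_3_5 : pfC (piC [(nat_lit 31465553), (nat_lit 24889148), (nat_lit 20955711), (nat_lit 14481699)] (nat_lit 4732089)) p12_1_3 (nat_lit 4) (nat_lit 5) (nat_lit 6) = true := by decide +kernel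
def p12_1_3_6 : pfC (piC [(nat_lit 31465553), (nat_lit 24889148), (nat_lit 20955711), (nat_lit 14481699)] (nat_lit 4732089)) p12_1_3 (nat_lit 4) (nat_lit 6) (nat_lit 7) = true := by decide +kernel
def p12_1_3_7 : pfC (piC [(nat_lit 31465553), (nat_lit 24889148), (nat_lit 20955711), (nat_lit 14481699)] (nat_lit 4732089)) p12_1_3 (nat_lit 4) (nat_lit 7) (nat_lit 8) = true := by decide +kernel
def p12_1_3_8 : pfC (piC [(nat_lit 31465553), (nat_lit 24889148), (nat_lit 20955711), (nat_lit 14481699)] (nat_lit 4732089)) p12_1_3 (nat_lit 4) (nat_lit 8) (nat_lit 9) = true := by decide +kernel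
def p12_1_3_9 : pfC (piC [(nat_lit 31465553), (nat_lit 24889148), (nat_lit 20955711), (nat_lit 14481699)] (nat_lit 4732089)) p12_1_3 (nat_lit 4) (nat_lit 9) (nat_lit 10) = true := by decide +kernel
def p12_1_3_10 : pfC (piC [(nat_lit 31465553), (nat_lit 24889148), (nat_lit 20955711), (nat_lit 14481699)] (nat_lit 4732089)) p12_1_3 (nat_lit 4) (nat_lit 10) (nat_lit 11) = true := by decide +kernel
def p12_1_3_11 : pfC (piC [(nat_lit 31465553), (nat_lit 24889148), (nat_lit 20955711), (nat_lit 14481699)] (nat_lit 4732089)) p12_1_3 (nat_lit 4) (nat_lit 11) (nat_lit 12) = true := by decide +kernel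
def p12_1_3_12 : pfC (piC [(nat_lit 31465553), (nat_lit 24889148), (nat_lit 20955711), (nat_lit 14481699)] (nat_lit 4732089)) p12_1_3 (nat_lit 4) (nat_lit 12) (nat_lit 13) = true := by decide +kernel
def p12_1_3_13 : pfC (piC [(nat_lit 31465553), (nat_lit 24889148), (nat_lit 20955711), (nat_lit 14481699)] (nat_lit 4732089)) p12_1_3 (nat_lit 4) (nat_lit 13) (nat_lit 14) = true := by decide +kernel
def p12_1_3_14 : pfC (piC [(nat_lit 31465553), (nat_lit 24889148), (nat_lit 20955711), (nat_lit 14481699)] (nat_lit 4732089)) p12_1_3 (nat_lit 4) (nat_lit 14) (nat_lit 15) = true := by decide +kernel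
def p12_1_3_15 : pfC (piC [(nat_lit 31465553), (nat_lit 24889148), (nat_lit 20955711), (nat_lit 14481699)] (nat_lit 4732089)) p12_1_3 (nat_lit 4) (nat_lit 15) (nat_lit 16) = true := by decide +kernel
def p12_1_3_16 : pfC (piC [(nat_lit 31465553), (nat_lit 24889148), (nat_lit 20955711), (nat_lit 14481699)] (nat_lit 4732089)) p12_1_3 (nat_lit 4) (nat_lit 16) (nat_lit 17) = true := by decide +kernel
theorem p12_1_3_T : PfS (PiF n12_1.reverse (nat_lit 4732089)) p12_1_3 (nat_lit 4) [] 0 :=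
  pftab_of (los := [(nat_lit 31465553), (nat_lit 24889148), (nat_lit 20955711), (nat_lit 14481699)]) (by decide +kernel) (hi := (nat_lit 17)) (PfP.trans (PfP.trans (PfP.trans (PfP.trans (PfP.trans (PfP.trans (PfP.trans (PfP.trans (PfP.trans (PfP.trans (PfP.trans (PfP.trans (PfP.trans (PfP.trans (PfP.trans (PfP.trans (pfC_sound p12_1_3_0) (pfC_sound p12_1_3_1)) (pfC_sound p12_1_3_2)) (pfC_sound p12_1_3_3)) (pfC_sound p12_1_3_4)) (pfC_sound p12_1_3_5)) (pfC_sound p12_1_3_6)) (pfC_sound p12_1_3_7)) (pfC_sound p12_1_3_8)) (pfC_sound p12_1_3_9)) (pfC_sound p12_1_3_10)) (pfC_sound p12_1_3_11)) (pfC_sound p12_1_3_12)) (pfC_sound p12_1_3_13)) (pfC_sound p12_1_3_14)) (pfC_sound p12_1_3_15)) (pfC_sound p12_1_3_16)) (by decide +kernel)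

def z12_1_3 : zOK yB12_1 (nat_lit 3) (nat_lit 750) (nat_lit 975) (nat_lit 4732089) (nat_lit 2218945) = true := by decide +kernel
def g12_1_3 : gOK yB12_1.x P12_1 (nat_lit 1400) (q12_1 :: r12_1) (nat_lit 3) (nat_lit 750) (nat_lit 4) (nat_lit 975) (nat_lit 12712500) (nat_lit 12712500) (nat_lit 12712500) (nat_lit 12712500) [(nat_lit 800)] = true := by decide +kernel
def v12_1_3 : ivC P12_1 s12_1 w12_1 n12_1 (nat_lit 4) (nat_lit 4890) (nat_lit 3) (nat_lit 750) f112_1_750 f120_1_750 (nat_lit 4) (nat_lit 975) f112_1_975 f120_1_975 (nat_lit 4732089) (nat_lit 2218945) p12_1_3 = true := by decide +kernel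
/-! box `yB12_2` -/

def P12_2 : BQ := ⟨(nat_lit 8), (nat_lit 4), (nat_lit 4), (nat_lit 0), (nat_lit 8), (nat_lit 580), (nat_lit 600), (nat_lit 120), [(nat_lit 200), (nat_lit 300), (nat_lit 450), (nat_lit 800)], (nat_lit 17520000), (nat_lit 16000000), (nat_lit 16000000000)⟩
def q12_2 : PC := ⟨(nat_lit 1000), [(nat_lit 120000), (nat_lit 200000), (nat_lit 300000), (nat_lit 450000), (nat_lit 800000)], (nat_lit 340282367000166625996085689103316680705000000), (nat_lit 15982480000000), (nat_lit 15982480000000), (nat_lit 10000000)⟩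
def r12_2 : List PC := [⟨(nat_lit 1435), [(nat_lit 120654), (nat_lit 201192), (nat_lit 301980), (nat_lit 453386), (nat_lit 799017)], (nat_lit 342739886254761543122560766354515959661678955), (nat_lit 16452495252000), (nat_lit 16470004941600), (nat_lit 10075245)⟩]
def s12_2 : List PB := [⟨(nat_lit 28700), (nat_lit 1930464000000), [(nat_lit 201192), (nat_lit 301980), (nat_lit 453386), (nat_lit 799017)], (nat_lit 342739886254761543122560766354515959661678955), (nat_lit 1142352402094624), (nat_lit 1142369911784224), (nat_lit 69600)⟩]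
def n12_2 : List KN := [⟨(nat_lit 800), (nat_lit 450), (nat_lit 14146940), (nat_lit 10671138)⟩, ⟨(nat_lit 450), (nat_lit 300), (nat_lit 21286319), (nat_lit 14146940)⟩, ⟨(nat_lit 300), (nat_lit 200), (nat_lit 26882477), (nat_lit 21286319)⟩, ⟨(nat_lit 200), (nat_lit 120), (nat_lit 33524074), (nat_lit 26882477)⟩]
def w12_2 : List ℕ := [(nat_lit 69600)]
def par12_2 : parC yB12_2 P12_2 s12_2 r12_2 q12_2 n12_2 w12_2 = true := by decide +kernel

def p12_2_0 : PF := (PF.cons (PF.cons (PF.cons (PF.cons (PF.leaf (nat_lit 0) (nat_lit 67108813) (nat_lit 67108813) (nat_lit 0) [(nat_lit 0), (nat_lit 0), (nat_lit 0), (nat_lit 0)]) (PF.cons (PF.leaf (nat_lit 79899) (nat_lit 159339) (nat_lit 66949473) (nat_lit 0) [(nat_lit 159339), (nat_lit 0), (nat_lit 0), (nat_lit 0)]) (PF.cons (PF.leaf (nat_lit 207415) (nat_lit 199835) (nat_lit 66709142) (nat_lit 0) [(nat_lit 199835), (nat_lit 0), (nat_lit 0), (nat_lit 0)]) (PF.cons PF.nil PF.nil)))) (PF.cons (PF.cons (PF.leaf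 (nat_lit 233294) (nat_lit 538685) (nat_lit 66570127) (nat_lit 0) [(nat_lit 0), (nat_lit 538685), (nat_lit 0), (nat_lit 0)]) (PF.cons (PF.leaf (nat_lit 383771) (nat_lit 238919) (nat_lit 66270864) (nat_lit 0) [(nat_lit 238919), (nat_lit 599028), (nat_lit 0), (nat_lit 0)]) PF.nil)) (PF.cons PF.nil PF.nil))) (PF.cons (PF.cons (PF.cons (PF.leaf (nat_lit 640420) (nat_lit 1886046) (nat_lit 65222766) (nat_lit 0) [(nat_lit 0), (nat_lit 0), (nat_lit 1886046), (nat_lit 0)]) (PF.cons (PF.leaf (nat_lit 823835) (nat_lit 299757) (nat_lit 64845964) (nat_lit 0) [(nat_lit 299757), (nat_lit 0), (nat_lit 1963090), (nat_lit 0)]) PF.nil)) (PF.cons PF.nil PF.nil)) (PF.cons PF.nil PF.nil))) (PF.cons (PF.cons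
 (PF.cons (PF.cons (PF.leaf (nat_lit 1358678) (nat_lit 5177003) (nat_lit 61931809) (nat_lit 0) [(nat_lit 0), (nat_lit 0), (nat_lit 0), (nat_lit 5177003)]) (PF.cons (PF.leaf (nat_lit 1566315) (nat_lit 356719) (nat_lit 61506738) (nat_lit 0) [(nat_lit 356719), (nat_lit 0), (nat_lit 0), (nat_lit 5245355)]) (PF.cons (PF.leaf (nat_lit 1813325) (nat_lit 390949) (nat_lit 61007164) (nat_lit 0) [(nat_lit 390949), (nat_lit 0), (nat_lit 0), (nat_lit 5319748)]) (PF.cons PF.nil (PF.cons PF.nil PF.nil))))) (PF.cons (PF.cons (PF.leaf (nat_lit 1803477) (nat_lit 910074) (nat_lit 60863290) (nat_lit 0) [(nat_lit 0), (nat_lit 910074), (nat_lit 0), (nat_lit 5335447)]) (PF.cons (PF.leaf (nat_lit 2066307) (nat_lit 417878) (nat_lit 60327739) (nat_lit 0) [(nat_lit 417878), (nat_lit 955981), (nat_lit 0), (nat_lit 5407213)]) (PF.cons PF.nil (PF.cons PF.nil PF.nil)))) (PF.cons (PF.cons (PF.leaf (nat_lit 2328633) (nat_lit 999395) (nat_lit 59621351) (nat_lit 0) [(nat_lit 0),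 (nat_lit 999395), (nat_lit 0), (nat_lit 5488670)]) (PF.cons PF.nil PF.nil)) PF.nil))) (PF.cons (PF.cons (PF.cons (PF.leaf (nat_lit 2306307) (nat_lit 2457352) (nat_lit 59137228) (nat_lit 0) [(nat_lit 0), (nat_lit 0), (nat_lit 2457352),
 (nat_lit 5514232)]) (PF.cons (PF.leaf (nat_lit 2586897) (nat_lit 456603) (nat_lit 58567003) (nat_lit 0) [(nat_lit 456603), (nat_lit 0), (nat_lit 2511316), (nat_lit 5573888)]) PF.nil)) (PF.cons PF.nil PF.nil)) (PF.cons PF.nil PF.nil))) (PF.cons (PF.cons (PF.cons (PF.cons (PF.leaf (nat_lit 3044218) (nat_lit 5683688) (nat_lit 55741436) (nat_lit 0) [(nat_lit 0), (nat_lit 0), (nat_lit 0), (nat_lit 5683688)]) (PF.cons (PF.leaf (nat_lit 3333047) (nat_lit 489233) (nat_lit 55171977) (nat_lit 0) [(nat_lit 489233), (nat_lit 0), (nat_lit 0), (nat_lit 5723800)]) (PF.cons PF.nil PF.nil))) (PF.cons (PF.cons (PF.leaf (nat_lit 3603152) (nat_lit 1128579) (nat_lit 54450012) (nat_lit 0) [(nat_lit 0), (nat_lit 1128579), (nat_lit 0), (nat_lit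 5765110)]) PF.nil) PF.nil)) (PF.cons PF.nil PF.nil)) (PF.cons PF.nil (PF.cons PF.nil (PF.cons PF.nil PF.nil))))))

def p12_2_0_0 : pfC (piC [(nat_lit 33524074), (nat_lit 26882477), (nat_lit 21286319), (nat_lit 14146940)] (nat_lit 0)) p12_2_0 (nat_lit 4) (nat_lit 0) (nat_lit 2) = true := by decide +kernel
def p12_2_0_1 : pfC (piC [(nat_lit 33524074), (nat_lit 26882477), (nat_lit 21286319), (nat_lit 14146940)] (nat_lit 0)) p12_2_0 (nat_lit 4) (nat_lit 2) (nat_lit 3) = true := by decide +kernel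
def p12_2_0_2 : pfC (piC [(nat_lit 33524074), (nat_lit 26882477), (nat_lit 21286319), (nat_lit 14146940)] (nat_lit 0)) p12_2_0 (nat_lit 4) (nat_lit 3) (nat_lit 4) = true := by decide +kernel
def p12_2_0_3 : pfC (piC [(nat_lit 33524074), (nat_lit 26882477), (nat_lit 21286319), (nat_lit 14146940)] (nat_lit 0)) p12_2_0 (nat_lit 4) (nat_lit 4) (nat_lit 5) = true := by decide +kernel
def p12_2_0_4 : pfC (piC [(nat_lit 33524074), (nat_lit 26882477), (nat_lit 21286319), (nat_lit 14146940)] (nat_lit 0)) p12_2_0 (nat_lit 4) (nat_lit 5) (nat_lit 6) = true := by decide +kernel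
def p12_2_0_5 : pfC (piC [(nat_lit 33524074), (nat_lit 26882477), (nat_lit 21286319), (nat_lit 14146940)] (nat_lit 0)) p12_2_0 (nat_lit 4) (nat_lit 6) (nat_lit 7) = true := by decide +kernel
def p12_2_0_6 : pfC (piC [(nat_lit 33524074), (nat_lit 26882477), (nat_lit 21286319), (nat_lit 14146940)] (nat_lit 0)) p12_2_0 (nat_lit 4) (nat_lit 7) (nat_lit 8) = true := by decide +kernel
def p12_2_0_7 : pfC (piC [(nat_lit 33524074), (nat_lit 26882477), (nat_lit 21286319), (nat_lit 14146940)] (nat_lit 0)) p12_2_0 (nat_lit 4) (nat_lit 8) (nat_lit 9) = true := by decide +kernel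
def p12_2_0_8 : pfC (piC [(nat_lit 33524074), (nat_lit 26882477), (nat_lit 21286319), (nat_lit 14146940)] (nat_lit 0)) p12_2_0 (nat_lit 4) (nat_lit 9) (nat_lit 10) = true := by decide +kernel
def p12_2_0_9 : pfC (piC [(nat_lit 33524074), (nat_lit 26882477), (nat_lit 21286319), (nat_lit 14146940)] (nat_lit 0)) p12_2_0 (nat_lit 4) (nat_lit 10) (nat_lit 11) = true := by decide +kernel
def p12_2_0_10 : pfC (piC [(nat_lit 33524074), (nat_lit 26882477), (nat_lit 21286319), (nat_lit 14146940)] (nat_lit 0)) p12_2_0 (nat_lit 4) (nat_lit 11) (nat_lit 12) = true := by decide +kernel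
def p12_2_0_11 : pfC (piC [(nat_lit 33524074), (nat_lit 26882477), (nat_lit 21286319), (nat_lit 14146940)] (nat_lit 0)) p12_2_0 (nat_lit 4) (nat_lit 12) (nat_lit 13) = true := by decide +kernel
def p12_2_0_12 : pfC (piC [(nat_lit 33524074), (nat_lit 26882477), (nat_lit 21286319), (nat_lit 14146940)] (nat_lit 0)) p12_2_0 (nat_lit 4) (nat_lit 13) (nat_lit 14) = true := by decide +kernel
def p12_2_0_13 : pfC (piC [(nat_lit 33524074), (nat_lit 26882477), (nat_lit 21286319), (nat_lit 14146940)] (nat_lit 0)) p12_2_0 (nat_lit 4) (nat_lit 14) (nat_lit 15) = true := by decide +kernel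
def p12_2_0_14 : pfC (piC [(nat_lit 33524074), (nat_lit 26882477), (nat_lit 21286319), (nat_lit 14146940)] (nat_lit 0)) p12_2_0 (nat_lit 4) (nat_lit 15) (nat_lit 16) = true := by decide +kernel
def p12_2_0_15 : pfC (piC [(nat_lit 33524074), (nat_lit 26882477), (nat_lit 21286319), (nat_lit 14146940)] (nat_lit 0)) p12_2_0 (nat_lit 4) (nat_lit 16) (nat_lit 17) = true := by decide +kernel
def p12_2_0_16 : pfC (piC [(nat_lit 33524074), (nat_lit 26882477), (nat_lit 21286319), (nat_lit 14146940)] (nat_lit 0)) p12_2_0 (nat_lit 4) (nat_lit 17) (nat_lit 18) = true := by decide +kernel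
theorem p12_2_0_T : PfS (PiF n12_2.reverse (nat_lit 0)) p12_2_0 (nat_lit 4) [] 0 :=
  pftab_of (los := [(nat_lit 33524074), (nat_lit 26882477), (nat_lit 21286319), (nat_lit 14146940)]) (by decide +kernel) (hi := (nat_lit 18)) (PfP.trans (PfP.trans (PfP.trans (PfP.trans (PfP.trans (PfP.trans (PfP.trans (PfP.trans (PfP.trans (PfP.trans (PfP.trans (PfP.trans (PfP.trans (PfP.trans (PfP.trans (PfP.trans (pfC_sound p12_2_0_0) (pfC_sound p12_2_0_1)) (pfC_sound p12_2_0_2)) (pfC_sound p12_2_0_3)) (pfC_sound p12_2_0_4)) (pfC_sound p12_2_0_5)) (pfC_sound p12_2_0_6)) (pfC_sound p12_2_0_7)) (pfC_sound p12_2_0_8)) (pfC_sound p12_2_0_9)) (pfC_sound p12_2_0_10)) (pfC_sound p12_2_0_11)) (pfC_sound p12_2_0_12)) (pfC_sound p12_2_0_13)) (pfC_sound p12_2_0_14)) (pfC_sound p12_2_0_15)) (pfC_sound p12_2_0_16)) (by decide +kernel)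

def z12_2_0 : zOK yB12_2 (nat_lit 0) (nat_lit 0) (nat_lit 400) (nat_lit 0) (nat_lit 0) = true := by decide +kernel
def g12_2_0 : gOK yB12_2.x P12_2 (nat_lit 1407) (q12_2 :: r12_2) (nat_lit 0) (nat_lit 0) (nat_lit 1) (nat_lit 400) (nat_lit 0) (nat_lit 11000000) (nat_lit 12712500) (nat_lit 12712500) [(nat_lit 800), (nat_lit 1600)] = true := by decide +kernel
def v12_2_0 : ivC P12_2 s12_2 w12_2 n12_2 (nat_lit 4) (nat_lit 5620) (nat_lit 0) (nat_lit 0) f112_1_0 f120_1_0 (nat_lit 1) (nat_lit 400) f112_1_400 f120_1_400 (nat_lit 0) (nat_lit 0) p12_2_0 = true := by decide +kernel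
def p12_2_1 : PF := (PF.cons (PF.cons (PF.cons (PF.cons (PF.leaf (nat_lit 1905775) (nat_lit 8540644) (nat_lit 58568168) (nat_lit 8540644) [(nat_lit 0), (nat_lit 0), (nat_lit 0), (nat_lit 0)]) (PF.cons (PF.leaf (nat_lit 2119555) (nat_lit 379301) (nat_lit 58145959) (nat_lit 8583551) [(nat_lit 379301), (nat_lit 0), (nat_lit 0), (nat_lit 0)]) (PF.cons PF.nil PF.nil))) (PF.cons (PF.cons (PF.leaf (nat_lit 2357817) (nat_lit 957621) (nat_lit 57512978) (nat_lit 8638213) [(nat_lit 0), (nat_lit 957621), (nat_lit 0), (nat_lit 0)]) PF.nil) PF.nil)) (PF.cons PF.nil PF.nil)) (PF.cons (PF.cons (PF.cons (PF.cons (PF.leaf (nat_lit 3549235) (nat_lit 5701559) (nat_lit 52641284) (nat_lit 8765968) [(nat_lit 0), (nat_lit 0), (nat_lit 0), (nat_lit 5701559)]) (PF.cons (PF.leaf (nat_lit 3835714) (nat_lit 498507) (nat_lit 52101305) (nat_lit 8778858) [(nat_lit 498507), (nat_lit 0), (nat_lit 0), (nat_lit 5730141)]) PF.nil)) (PF.cons PF.nil PF.nil)) (PF.cons PF.nil PF.nil))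 (PF.cons PF.nil (PF.cons PF.nil PF.nil))))

def p12_2_1_0 : pfC (piC [(nat_lit 33524074), (nat_lit 26882477), (nat_lit 21286319), (nat_lit 14146940)] (nat_lit 12241757)) p12_2_1 (nat_lit 4) (nat_lit 0) (nat_lit 1) = true := by decide +kernel
def p12_2_1_1 : pfC (piC [(nat_lit 33524074), (nat_lit 26882477), (nat_lit 21286319), (nat_lit 14146940)] (nat_lit 12241757)) p12_2_1 (nat_lit 4) (nat_lit 1) (nat_lit 2) = true := by decide +kernel
def p12_2_1_2 : pfC (piC [(nat_lit 33524074), (nat_lit 26882477), (nat_lit 21286319), (nat_lit 14146940)] (nat_lit 12241757)) p12_2_1 (nat_lit 4) (nat_lit 2) (nat_lit 3) = true := by decide +kernel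
def p12_2_1_3 : pfC (piC [(nat_lit 33524074), (nat_lit 26882477), (nat_lit 21286319), (nat_lit 14146940)] (nat_lit 12241757)) p12_2_1 (nat_lit 4) (nat_lit 3) (nat_lit 4) = true := by decide +kernel
def p12_2_1_4 : pfC (piC [(nat_lit 33524074), (nat_lit 26882477), (nat_lit 21286319), (nat_lit 14146940)] (nat_lit 12241757)) p12_2_1 (nat_lit 4) (nat_lit 4) (nat_lit 5) = true := by decide +kernel
theorem p12_2_1_T : PfS (PiF n12_2.reverse (nat_lit 12241757)) p12_2_1 (nat_lit 4) [] 0 :=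
  pftab_of (los := [(nat_lit 33524074), (nat_lit 26882477), (nat_lit 21286319), (nat_lit 14146940)]) (by decide +kernel) (hi := (nat_lit 5)) (PfP.trans (PfP.trans (PfP.trans (PfP.trans (pfC_sound p12_2_1_0) (pfC_sound p12_2_1_1)) (pfC_sound p12_2_1_2)) (pfC_sound p12_2_1_3)) (pfC_sound p12_2_1_4)) (by decide +kernel)

def z12_2_1 : zOK yB12_2 (nat_lit 1) (nat_lit 400) (nat_lit 600) (nat_lit 12241757) (nat_lit 7011795) = true := by decide +kernel
def g12_2_1 : gOK yB12_2.x P12_2 (nat_lit 1407) (q12_2 :: r12_2) (nat_lit 1) (nat_lit 400) (nat_lit 2) (nat_lit 600) (nat_lit 11000000) (nat_lit 17850000) (nat_lit 12712500) (nat_lit 12712500) [(nat_lit 800), (nat_lit 1250)] = true := by decide +kernel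
def v12_2_1 : ivC P12_2 s12_2 w12_2 n12_2 (nat_lit 4) (nat_lit 5220) (nat_lit 1) (nat_lit 400) f112_1_400 f120_1_400 (nat_lit 2) (nat_lit 600) f112_1_600 f120_1_600 (nat_lit 12241757) (nat_lit 7011795) p12_2_1 = true := by decide +kernel
def p12_2_2 : PF := (PF.cons (PF.cons (PF.cons (PF.cons (PF.leaf (nat_lit 2725665) (nat_lit 15764068) (nat_lit 51344744) (nat_lit 15764068) [(nat_lit 0), (nat_lit 0), (nat_lit 0), (nat_lit 0)]) (PF.cons (PF.leaf (nat_lit 2934566) (nat_lit 385184) (nat_lit 50983387) (nat_lit 15740240) [(nat_lit 385184), (nat_lit 0), (nat_lit 0), (nat_lit 0)]) (PF.cons (PF.leaf (nat_lit 3179773) (nat_lit 417883) (nat_lit 50562953) (nat_lit 15710092) [(nat_lit 417883), (nat_lit 0), (nat_lit 0), (nat_lit 0)]) (PF.cons PF.nil PF.nil)))) (PF.cons (PF.cons (PF.leaf (nat_lit 3161719) (nat_lit 964229) (nat_lit 50445268) (nat_lit 15699314) [(nat_lit 0), (nat_lit 964229), (nat_lit 0), (nat_lit 0)]) (PF.cons (PF.leaf (nat_lit 3419137) (nat_lit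 441152) (nat_lit 50000295) (nat_lit 15663886) [(nat_lit 441152), (nat_lit 1003478), (nat_lit 0), (nat_lit 0)]) PF.nil)) (PF.cons PF.nil PF.nil))) (PF.cons (PF.cons (PF.cons (PF.leaf (nat_lit 3617129) (nat_lit 2500846) (nat_lit 49043759) (nat_lit 15564207) [(nat_lit 0), (nat_lit 0), (nat_lit 2500846), (nat_lit 0)]) (PF.cons PF.nil PF.nil)) (PF.cons PF.nil PF.nil)) (PF.cons PF.nil PF.nil))) (PF.cons (PF.cons (PF.cons (PF.cons (PF.leaf (nat_lit 4242590) (nat_lit 5492579) (nat_lit 46404823)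
 (nat_lit 15211409) [(nat_lit 0), (nat_lit 0), (nat_lit 0), (nat_lit 5492579)]) (PF.cons (PF.leaf (nat_lit 4514391) (nat_lit 488150) (nat_lit 45956256) (nat_lit 15154877) [(nat_lit 488150), (nat_lit 0), (nat_lit 0), (nat_lit 5509528)]) (PF.cons PF.nil PF.nil))) (PF.cons (PF.cons (PF.leaf (nat_lit 4759783) (nat_lit 1113834) (nat_lit 45392581) (nat_lit 15078772) [(nat_lit 0), (nat_lit 1113834), (nat_lit 0), (nat_lit 5523624)]) PF.nil) PF.nil)) (PF.cons PF.nil PF.nil)) (PF.cons PF.nil (PF.cons PF.nil PF.nil))))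

def p12_2_2_0 : pfC (piC [(nat_lit 33524074), (nat_lit 26882477), (nat_lit 21286319), (nat_lit 14146940)] (nat_lit 7011795)) p12_2_2 (nat_lit 4) (nat_lit 0) (nat_lit 1) = true := by decide +kernel
def p12_2_2_1 : pfC (piC [(nat_lit 33524074), (nat_lit 26882477), (nat_lit 21286319), (nat_lit 14146940)] (nat_lit 7011795)) p12_2_2 (nat_lit 4) (nat_lit 1) (nat_lit 2) = true := by decide +kernel
def p12_2_2_2 : pfC (piC [(nat_lit 33524074), (nat_lit 26882477), (nat_lit 21286319), (nat_lit 14146940)] (nat_lit 7011795)) p12_2_2 (nat_lit 4) (nat_lit 2) (nat_lit 3) = true := by decide +kernel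
def p12_2_2_3 : pfC (piC [(nat_lit 33524074), (nat_lit 26882477), (nat_lit 21286319), (nat_lit 14146940)] (nat_lit 7011795)) p12_2_2 (nat_lit 4) (nat_lit 3) (nat_lit 4) = true := by decide +kernel
def p12_2_2_4 : pfC (piC [(nat_lit 33524074), (nat_lit 26882477), (nat_lit 21286319), (nat_lit 14146940)] (nat_lit 7011795)) p12_2_2 (nat_lit 4) (nat_lit 4) (nat_lit 5) = true := by decide +kernel
def p12_2_2_5 : pfC (piC [(nat_lit 33524074), (nat_lit 26882477), (nat_lit 21286319), (nat_lit 14146940)] (nat_lit 7011795)) p12_2_2 (nat_lit 4) (nat_lit 5) (nat_lit 6) = true := by decide +kernel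
def p12_2_2_6 : pfC (piC [(nat_lit 33524074), (nat_lit 26882477), (nat_lit 21286319), (nat_lit 14146940)] (nat_lit 7011795)) p12_2_2 (nat_lit 4) (nat_lit 6) (nat_lit 7) = true := by decide +kernel
def p12_2_2_7 : pfC (piC [(nat_lit 33524074), (nat_lit 26882477), (nat_lit 21286319), (nat_lit 14146940)] (nat_lit 7011795)) p12_2_2 (nat_lit 4) (nat_lit 7) (nat_lit 8) = true := by decide +kernel
def p12_2_2_8 : pfC (piC [(nat_lit 33524074), (nat_lit 26882477), (nat_lit 21286319), (nat_lit 14146940)] (nat_lit 7011795)) p12_2_2 (nat_lit 4) (nat_lit 8) (nat_lit 9) = true := by decide +kernel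
theorem p12_2_2_T : PfS (PiF n12_2.reverse (nat_lit 7011795)) p12_2_2 (nat_lit 4) [] 0 :=
  pftab_of (los := [(nat_lit 33524074), (nat_lit 26882477), (nat_lit 21286319), (nat_lit 14146940)]) (by decide +kernel) (hi := (nat_lit 9)) (PfP.trans (PfP.trans (PfP.trans (PfP.trans (PfP.trans (PfP.trans (PfP.trans (PfP.trans (pfC_sound p12_2_2_0) (pfC_sound p12_2_2_1)) (pfC_sound p12_2_2_2)) (pfC_sound p12_2_2_3)) (pfC_sound p12_2_2_4)) (pfC_sound p12_2_2_5)) (pfC_sound p12_2_2_6)) (pfC_sound p12_2_2_7)) (pfC_sound p12_2_2_8)) (by decide +kernel)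

def z12_2_2 : zOK yB12_2 (nat_lit 2) (nat_lit 600) (nat_lit 750) (nat_lit 7011795) (nat_lit 4796502) = true := by decide +kernel
def g12_2_2 : gOK yB12_2.x P12_2 (nat_lit 1407) (q12_2 :: r12_2) (nat_lit 2) (nat_lit 600) (nat_lit 3) (nat_lit 750) (nat_lit 12712500) (nat_lit 12712500) (nat_lit 12712500) (nat_lit 12712500) [(nat_lit 800), (nat_lit 1600)] = true := by decide +kernel
def v12_2_2 : ivC P12_2 s12_2 w12_2 n12_2 (nat_lit 4) (nat_lit 5020) (nat_lit 2) (nat_lit 600) f112_1_600 f120_1_600 (nat_lit 3) (nat_lit 750) f112_1_750 f120_1_750 (nat_lit 7011795) (nat_lit 4796502) p12_2_2 = true := by decide +kernel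
def p12_2_3 : PF := (PF.cons (PF.cons (PF.cons (PF.cons (PF.leaf (nat_lit 3161228) (nat_lit 21964327) (nat_lit 45144485) (nat_lit 21964327) [(nat_lit 0), (nat_lit 0), (nat_lit 0), (nat_lit 0)]) (PF.cons (PF.leaf (nat_lit 3358116) (nat_lit 367281) (nat_lit 44855817) (nat_lit 21885713) [(nat_lit 367281), (nat_lit 0), (nat_lit 0), (nat_lit 0)]) (PF.cons (PF.leaf (nat_lit 3589104) (nat_lit 398031) (nat_lit 44519932) (nat_lit 21792818) [(nat_lit 398031), (nat_lit 0), (nat_lit 0), (nat_lit 0)]) (PF.cons (PF.leaf (nat_lit 3847013) (nat_lit 424821) (nat_lit 44146546) (nat_lit 21687801) [(nat_lit 424821), (nat_lit 0), (nat_lit 0), (nat_lit 0)]) (PF.cons (PF.leaf (nat_lit 4127405) (nat_lit 448500) (nat_lit 43742640) (nat_lit 21572170) [(nat_lit 448500), (nat_lit 0), (nat_lit 0), (nat_lit 0)]) (PF.cons PF.nil (PF.cons PF.nil PF.nil))))))) (PF.cons (PF.cons (PF.leaf (nat_lit 3570881) (nat_lit 917072) (nat_lit 44426215) (nat_lit 21765525) [(nat_lit 0), (nat_lit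 917072), (nat_lit 0), (nat_lit 0)]) (PF.cons (PF.leaf (nat_lit 3812962) (nat_lit 419623) (nat_lit 44070655) (nat_lit 21665091) [(nat_lit 419623), (nat_lit 953443), (nat_lit 0), (nat_lit 0)]) (PF.cons (PF.leaf (nat_lit 4080657) (nat_lit 443806) (nat_lit
 43680975) (nat_lit 21553156) [(nat_lit 443806), (nat_lit 987068), (nat_lit 0), (nat_lit 0)]) (PF.cons PF.nil (PF.cons PF.nil PF.nil))))) (PF.cons (PF.cons (PF.leaf (nat_lit 4042099) (nat_lit 984466) (nat_lit 43608822) (nat_lit 21531057) [(nat_lit 0), (nat_lit 984466), (nat_lit 0), (nat_lit 0)]) (PF.cons (PF.leaf (nat_lit 4318011) (nat_lit 460775) (nat_lit 43205634) (nat_lit 21412837) [(nat_lit 460775), (nat_lit 1014782), (nat_lit 0), (nat_lit 0)]) (PF.cons PF.nil (PF.cons PF.nil PF.nil)))) (PF.cons (PF.cons (PF.leaf (nat_lit 4558745) (nat_lit 1039525) (nat_lit 42722801) (nat_lit 21267434) [(nat_lit 0), (nat_lit 1039525), (nat_lit 0), (nat_lit 0)]) (PF.cons PF.nil PF.nil)) (PF.cons PF.nil PF.nil)))))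 (PF.cons (PF.cons (PF.cons (PF.leaf (nat_lit 3993553) (nat_lit 2364737) (nat_lit 43308366) (nat_lit 21435708) [(nat_lit 0), (nat_lit 0), (nat_lit 2364737), (nat_lit 0)]) (PF.cons (PF.leaf (nat_lit 4246007) (nat_lit 445755) (nat_lit 42938910) (nat_lit 21326142) [(nat_lit 445755), (nat_lit 0), (nat_lit 2398003), (nat_lit 0)]) (PF.cons (PF.leaf (nat_lit 4522383) (nat_lit 467499) (nat_lit 42538376) (nat_lit 21205486) [(nat_lit 467499), (nat_lit 0), (nat_lit 2429950), (nat_lit 0)]) (PF.cons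
 PF.nil PF.nil)))) (PF.cons (PF.cons (PF.leaf (nat_lit 4478229) (nat_lit 1026342) (nat_lit 42469434) (nat_lit 21183359) [(nat_lit 0), (nat_lit 1026342), (nat_lit 2429676), (nat_lit 0)]) (PF.cons (PF.leaf (nat_lit 4761400) (nat_lit 481998) (nat_lit 42058655) (nat_lit 21057270) [(nat_lit 481998), (nat_lit 1052325), (nat_lit 2458563), (nat_lit 0)]) PF.nil)) (PF.cons PF.nil PF.nil))) (PF.cons (PF.cons (PF.cons (PF.leaf (nat_lit 4911694) (nat_lit 2474492) (nat_lit 41336981) (nat_lit 20822846) [(nat_lit 0), (nat_lit 0), (nat_lit 2474492), (nat_lit 0)]) (PF.cons PF.nil PF.nil)) (PF.cons PF.nil PF.nil)) (PF.cons PF.nil (PF.cons PF.nil PF.nil))))) (PF.cons (PF.cons (PF.cons (PF.cons (PF.leaf (nat_lit 4568558) (nat_lit 5150921) (nat_lit 41204165) (nat_lit 20753726) [(nat_lit 0), (nat_lit 0), (nat_lit 0), (nat_lit 5150921)]) (PF.cons (PF.leaf (nat_lit 4823699) (nat_lit 461567) (nat_lit 40843593) (nat_lit 20638614) [(nat_lit 461567), (nat_lit 0), (nat_lit 0),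 (nat_lit 5165037)]) (PF.cons (PF.leaf (nat_lit 5101315) (nat_lit 481747) (nat_lit 40454804) (nat_lit 20512839) [(nat_lit 481747), (nat_lit 0), (nat_lit 0), (nat_lit 5177673)]) (PF.cons PF.nil PF.nil)))) (PF.cons (PF.cons (PF.leaf (nat_lit
 5053125) (nat_lit 1051481) (nat_lit 40390336) (nat_lit 20490708) [(nat_lit 0), (nat_lit 1051481), (nat_lit 0), (nat_lit 5176286)]) (PF.cons (PF.leaf (nat_lit 5336360) (nat_lit 494359) (nat_lit 39993700) (nat_lit 20360355) [(nat_lit 494359), (nat_lit 1074040), (nat_lit 0), (nat_lit 5186356)]) PF.nil)) (PF.cons PF.nil PF.nil))) (PF.cons (PF.cons (PF.cons (PF.leaf (nat_lit 5472898) (nat_lit 2491589) (nat_lit 39312625) (nat_lit 20125025) [(nat_lit 0), (nat_lit 0), (nat_lit 2491589), (nat_lit 5179572)]) (PF.cons PF.nil PF.nil)) (PF.cons PF.nil PF.nil)) (PF.cons PF.nil PF.nil))) (PF.cons (PF.cons (PF.cons (PF.cons (PF.leaf (nat_lit 6005332) (nat_lit 5126826) (nat_lit 37418110) (nat_lit 19437049) [(nat_lit 0), (nat_lit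 0), (nat_lit 0), (nat_lit 5126826)]) (PF.cons PF.nil PF.nil)) (PF.cons PF.nil PF.nil)) (PF.cons PF.nil PF.nil)) (PF.cons PF.nil (PF.cons PF.nil (PF.cons PF.nil PF.nil))))))

def p12_2_3_0 : pfC (piC [(nat_lit 33524074), (nat_lit 26882477), (nat_lit 21286319), (nat_lit 14146940)] (nat_lit 4796502)) p12_2_3 (nat_lit 4) (nat_lit 0) (nat_lit 1) = true := by decide +kernel
def p12_2_3_1 : pfC (piC [(nat_lit 33524074), (nat_lit 26882477), (nat_lit 21286319), (nat_lit 14146940)] (nat_lit 4796502)) p12_2_3 (nat_lit 4) (nat_lit 1) (nat_lit 2) = true := by decide +kernel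
def p12_2_3_2 : pfC (piC [(nat_lit 33524074), (nat_lit 26882477), (nat_lit 21286319), (nat_lit 14146940)] (nat_lit 4796502)) p12_2_3 (nat_lit 4) (nat_lit 2) (nat_lit 3) = true := by decide +kernel
def p12_2_3_3 : pfC (piC [(nat_lit 33524074), (nat_lit 26882477), (nat_lit 21286319), (nat_lit 14146940)] (nat_lit 4796502)) p12_2_3 (nat_lit 4) (nat_lit 3) (nat_lit 4) = true := by decide +kernel
def p12_2_3_4 : pfC (piC [(nat_lit 33524074), (nat_lit 26882477), (nat_lit 21286319), (nat_lit 14146940)] (nat_lit 4796502)) p12_2_3 (nat_lit 4) (nat_lit 4) (nat_lit 5) = true := by decide +kernel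
def p12_2_3_5 : pfC (piC [(nat_lit 33524074), (nat_lit 26882477), (nat_lit 21286319), (nat_lit 14146940)] (nat_lit 4796502)) p12_2_3 (nat_lit 4) (nat_lit 5) (nat_lit 6) = true := by decide +kernel
def p12_2_3_6 : pfC (piC [(nat_lit 33524074), (nat_lit 26882477), (nat_lit 21286319), (nat_lit 14146940)] (nat_lit 4796502)) p12_2_3 (nat_lit 4) (nat_lit 6) (nat_lit 7) = true := by decide +kernel
def p12_2_3_7 : pfC (piC [(nat_lit 33524074), (nat_lit 26882477), (nat_lit 21286319), (nat_lit 14146940)] (nat_lit 4796502)) p12_2_3 (nat_lit 4) (nat_lit 7) (nat_lit 8) = true := by decide +kernel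
def p12_2_3_8 : pfC (piC [(nat_lit 33524074), (nat_lit 26882477), (nat_lit 21286319), (nat_lit 14146940)] (nat_lit 4796502)) p12_2_3 (nat_lit 4) (nat_lit 8) (nat_lit 9) = true := by decide +kernel
def p12_2_3_9 : pfC (piC [(nat_lit 33524074), (nat_lit 26882477), (nat_lit 21286319), (nat_lit 14146940)] (nat_lit 4796502)) p12_2_3 (nat_lit 4) (nat_lit 9) (nat_lit 10) = true := by decide +kernel
def p12_2_3_10 : pfC (piC [(nat_lit 33524074), (nat_lit 26882477), (nat_lit 21286319), (nat_lit 14146940)] (nat_lit 4796502)) p12_2_3 (nat_lit 4) (nat_lit 10) (nat_lit 11) = true := by decide +kernel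
def p12_2_3_11 : pfC (piC [(nat_lit 33524074), (nat_lit 26882477), (nat_lit 21286319), (nat_lit 14146940)] (nat_lit 4796502)) p12_2_3 (nat_lit 4) (nat_lit 11) (nat_lit 12) = true := by decide +kernel
def p12_2_3_12 : pfC (piC [(nat_lit 33524074), (nat_lit 26882477), (nat_lit 21286319), (nat_lit 14146940)] (nat_lit 4796502)) p12_2_3 (nat_lit 4) (nat_lit 12) (nat_lit 13) = true := by decide +kernel
def p12_2_3_13 : pfC (piC [(nat_lit 33524074), (nat_lit 26882477), (nat_lit 21286319), (nat_lit 14146940)] (nat_lit 4796502)) p12_2_3 (nat_lit 4) (nat_lit 13) (nat_lit 14) = true := by decide +kernel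
def p12_2_3_14 : pfC (piC [(nat_lit 33524074), (nat_lit 26882477), (nat_lit 21286319), (nat_lit 14146940)] (nat_lit 4796502)) p12_2_3 (nat_lit 4) (nat_lit 14) (nat_lit 15) = true := by decide +kernel
def p12_2_3_15 : pfC (piC [(nat_lit 33524074), (nat_lit 26882477), (nat_lit 21286319), (nat_lit 14146940)] (nat_lit 4796502)) p12_2_3 (nat_lit 4) (nat_lit 15) (nat_lit 16) = true := by decide +kernel
def p12_2_3_16 : pfC (piC [(nat_lit 33524074), (nat_lit 26882477), (nat_lit 21286319), (nat_lit 14146940)] (nat_lit 4796502)) p12_2_3 (nat_lit 4) (nat_lit 16) (nat_lit 17) = true := by decide +kernel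
def p12_2_3_17 : pfC (piC [(nat_lit 33524074), (nat_lit 26882477), (nat_lit 21286319), (nat_lit 14146940)] (nat_lit 4796502)) p12_2_3 (nat_lit 4) (nat_lit 17) (nat_lit 18) = true := by decide +kernel
def p12_2_3_18 : pfC (piC [(nat_lit 33524074), (nat_lit 26882477), (nat_lit 21286319), (nat_lit 14146940)] (nat_lit 4796502)) p12_2_3 (nat_lit 4) (nat_lit 18) (nat_lit 19) = true := by decide +kernel
def p12_2_3_19 : pfC (piC [(nat_lit 33524074), (nat_lit 26882477), (nat_lit 21286319), (nat_lit 14146940)] (nat_lit 4796502)) p12_2_3 (nat_lit 4) (nat_lit 19) (nat_lit 20) = true := by decide +kernel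
def p12_2_3_20 : pfC (piC [(nat_lit 33524074), (nat_lit 26882477), (nat_lit 21286319), (nat_lit 14146940)] (nat_lit 4796502)) p12_2_3 (nat_lit 4) (nat_lit 20) (nat_lit 21) = true := by decide +kernel
def p12_2_3_21 : pfC (piC [(nat_lit 33524074), (nat_lit 26882477), (nat_lit 21286319), (nat_lit 14146940)] (nat_lit 4796502)) p12_2_3 (nat_lit 4) (nat_lit 21) (nat_lit 22) = true := by decide +kernel
def p12_2_3_22 : pfC (piC [(nat_lit 33524074), (nat_lit 26882477), (nat_lit 21286319), (nat_lit 14146940)] (nat_lit 4796502)) p12_2_3 (nat_lit 4) (nat_lit 22) (nat_lit 23) = true := by decide +kernel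
def p12_2_3_23 : pfC (piC [(nat_lit 33524074), (nat_lit 26882477), (nat_lit 21286319), (nat_lit 14146940)] (nat_lit 4796502)) p12_2_3 (nat_lit 4) (nat_lit 23) (nat_lit 24) = true := by decide +kernel
theorem p12_2_3_T : PfS (PiF n12_2.reverse (nat_lit 4796502)) p12_2_3 (nat_lit 4) [] 0 :=
  pftab_of (los := [(nat_lit 33524074), (nat_lit 26882477), (nat_lit 21286319), (nat_lit 14146940)]) (by decide +kernel) (hi := (nat_lit 24)) (PfP.trans (PfP.trans (PfP.trans (PfP.trans (PfP.trans (PfP.trans (PfP.trans (PfP.trans (PfP.trans (PfP.trans (PfP.trans (PfP.trans (PfP.trans (PfP.trans (PfP.trans (PfP.trans (PfP.trans (PfP.trans (PfP.trans (PfP.trans (PfP.trans (PfP.trans (PfP.trans (pfC_sound p12_2_3_0) (pfC_sound p12_2_3_1)) (pfC_sound p12_2_3_2)) (pfC_sound p12_2_3_3)) (pfC_sound p12_2_3_4)) (pfC_sound p12_2_3_5)) (pfC_sound p12_2_3_6)) (pfC_sound p12_2_3_7)) (pfC_sound p12_2_3_8)) (pfC_sound p12_2_3_9)) (pfC_sound p12_2_3_10)) (pfC_sound p12_2_3_11))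 (pfC_sound p12_2_3_12)) (pfC_sound p12_2_3_13)) (pfC_sound p12_2_3_14)) (pfC_sound p12_2_3_15)) (pfC_sound p12_2_3_16)) (pfC_sound p12_2_3_17)) (pfC_sound p12_2_3_18)) (pfC_sound p12_2_3_19)) (pfC_sound p12_2_3_20)) (pfC_sound p12_2_3_21)) (pfC_sound p12_2_3_22)) (pfC_sound p12_2_3_23)) (by decide +kernel)

def z12_2_3 : zOK yB12_2 (nat_lit 3) (nat_lit 750) (nat_lit 975) (nat_lit 4796502) (nat_lit 2407986) = true := by decide +kernel
def g12_2_3 : gOK yB12_2.x P12_2 (nat_lit 1407) (q12_2 :: r12_2) (nat_lit 3) (nat_lit 750) (nat_lit 4) (nat_lit 975) (nat_lit 12712500) (nat_lit 12712500) (nat_lit 12712500) (nat_lit 12712500) [(nat_lit 800)] = true := by decide +kernel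
def v12_2_3 : ivC P12_2 s12_2 w12_2 n12_2 (nat_lit 4) (nat_lit 4870) (nat_lit 3) (nat_lit 750) f112_1_750 f120_1_750 (nat_lit 4) (nat_lit 975) f112_1_975 f120_1_975 (nat_lit 4796502) (nat_lit 2407986) p12_2_3 = true := by decide +kernel
/-! box `yB12_3` -/

def P12_3 : BQ := ⟨(nat_lit 8), (nat_lit 8), (nat_lit 0), (nat_lit 4), (nat_lit 4), (nat_lit 600), (nat_lit 620), (nat_lit 120), [(nat_lit 200), (nat_lit 300), (nat_lit 450), (nat_lit 800)], (nat_lit 28192000), (nat_lit 16000000), (nat_lit 16000000000)⟩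
def q12_3 : PC := ⟨(nat_lit 1000), [(nat_lit 120000), (nat_lit 200000), (nat_lit 300000), (nat_lit 450000), (nat_lit 800000)], (nat_lit 340282367000166625996085689103316680705000000), (nat_lit 15971808000000), (nat_lit 15971808000000), (nat_lit 10000000)⟩
def r12_3 : List PC := [⟨(nat_lit 1316), [(nat_lit 120488), (nat_lit 200889), (nat_lit 301594), (nat_lit 452321), (nat_lit 799537)], (nat_lit 342066127168100341693308921009540763374013715), (nat_lit 16329283589760), (nat_lit 16341845221760), (nat_lit 10053134)⟩]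
def s12_3 : List PB := [⟨(nat_lit 26320), (nat_lit 1927808000000), [(nat_lit 200889), (nat_lit 301594), (nat_lit 452321), (nat_lit 799537)], (nat_lit 342066127168100341693308921009540763374013715), (nat_lit 1142229190432384), (nat_lit 1142241752064384), (nat_lit 50560)⟩]
def n12_3 : List KN := [⟨(nat_lit 800), (nat_lit 450), (nat_lit 14064972), (nat_lit 10300196)⟩, ⟨(nat_lit 450), (nat_lit 300), (nat_lit 21202637), (nat_lit 14064972)⟩, ⟨(nat_lit 300), (nat_lit 200), (nat_lit 28134109), (nat_lit 21202637)⟩, ⟨(nat_lit 200), (nat_lit 120), (nat_lit 35404596), (nat_lit 28134109)⟩]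
def w12_3 : List ℕ := [(nat_lit 50560)]
def par12_3 : parC yB12_3 P12_3 s12_3 r12_3 q12_3 n12_3 w12_3 = true := by decide +kernel

def p12_3_0 : PF := (PF.cons (PF.cons (PF.cons (PF.cons (PF.leaf (nat_lit 0) (nat_lit 67108813) (nat_lit 67108813) (nat_lit 0) [(nat_lit 0), (nat_lit 0), (nat_lit 0), (nat_lit 0)]) (PF.cons (PF.leaf (nat_lit 57184) (nat_lit 116566) (nat_lit 66992246) (nat_lit 0) [(nat_lit 116566), (nat_lit 0), (nat_lit 0), (nat_lit 0)]) (PF.cons (PF.leaf (nat_lit 155852) (nat_lit 146371) (nat_lit 66816069) (nat_lit 0) [(nat_lit 146371), (nat_lit 0), (nat_lit 0), (nat_lit 0)]) (PF.cons (PF.leaf (nat_lit 284783) (nat_lit 174993) (nat_lit 66583832) (nat_lit 0) [(nat_lit 174993), (nat_lit 0), (nat_lit 0), (nat_lit 0)]) (PF.cons PF.nil PF.nil))))) (PF.cons (PF.cons (PF.leaf (nat_lit 211801) (nat_lit 479729) (nat_lit 66629083) (nat_lit 0) [(nat_lit 0), (nat_lit 479729), (nat_lit 0), (nat_lit 0)]) (PF.cons (PF.leaf (nat_lit 330006) (nat_lit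 181460) (nat_lit 66400205) (nat_lit 0) [(nat_lit 181460), (nat_lit 527146), (nat_lit 0), (nat_lit 0)]) (PF.cons PF.nil (PF.cons PF.nil PF.nil)))) (PF.cons (PF.cons (PF.leaf (nat_lit 527784) (nat_lit 596164) (nat_lit 65916483) (nat_lit 0) [(nat_lit 0), (nat_lit 596164), (nat_lit 0), (nat_lit 0)]) (PF.cons PF.nil PF.nil)) PF.nil))) (PF.cons (PF.cons (PF.cons (PF.leaf (nat_lit 648480)
 (nat_lit 1916649) (nat_lit 65192163) (nat_lit 0) [(nat_lit 0), (nat_lit 0), (nat_lit 1916649), (nat_lit 0)]) (PF.cons (PF.leaf (nat_lit 797730) (nat_lit 235839) (nat_lit 64894487) (nat_lit 0) [(nat_lit 235839), (nat_lit 0), (nat_lit 1978485), (nat_lit 0)]) (PF.cons PF.nil (PF.cons PF.nil PF.nil)))) (PF.cons (PF.cons (PF.leaf (nat_lit 1024841) (nat_lit 720354) (nat_lit 64308504) (nat_lit 0) [(nat_lit 0), (nat_lit 720354), (nat_lit 2079954), (nat_lit 0)]) (PF.cons PF.nil PF.nil)) (PF.cons PF.nil PF.nil))) (PF.cons (PF.cons (PF.cons (PF.leaf (nat_lit 1558056) (nat_lit 2288681)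 (nat_lit 62531450) (nat_lit 0) [(nat_lit 0), (nat_lit 0), (nat_lit 2288681), (nat_lit 0)]) (PF.cons PF.nil PF.nil)) (PF.cons PF.nil PF.nil)) (PF.cons PF.nil (PF.cons PF.nil PF.nil))))) (PF.cons (PF.cons (PF.cons (PF.cons (PF.leaf (nat_lit 1399089) (nat_lit 5397573) (nat_lit 61711239) (nat_lit 0) [(nat_lit 0), (nat_lit 0), (nat_lit 0), (nat_lit 5397573)]) (PF.cons (PF.leaf (nat_lit 1569565) (nat_lit 282996) (nat_lit 61374708) (nat_lit 0) [(nat_lit 282996), (nat_lit 0), (nat_lit 0), (nat_lit 5451107)]) (PF.cons (PF.leaf (nat_lit 1772981) (nat_lit 309779) (nat_lit 60978905) (nat_lit 0) [(nat_lit 309779), (nat_lit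
 0), (nat_lit 0), (nat_lit 5510347)]) (PF.cons (PF.leaf (nat_lit 2003305) (nat_lit 334144) (nat_lit 60533793) (nat_lit 0) [(nat_lit 334144), (nat_lit 0), (nat_lit 0), (nat_lit 5572587)]) (PF.cons PF.nil PF.nil))))) (PF.cons (PF.cons (PF.leaf (nat_lit 1814292) (nat_lit 836064) (nat_lit 60731447) (nat_lit 0) [(nat_lit 0), (nat_lit 836064), (nat_lit 0), (nat_lit 5541301)]) (PF.cons (PF.leaf (nat_lit 2032856) (nat_lit 334936) (nat_lit 60301419) (nat_lit 0) [(nat_lit 334936), (nat_lit 873290), (nat_lit 0), (nat_lit 5599166)]) (PF.cons (PF.leaf (nat_lit 2277755) (nat_lit 357374) (nat_lit 59825727) (nat_lit 0) [(nat_lit 357374), (nat_lit 909550), (nat_lit 0), (nat_lit 5658785)]) (PF.cons PF.nil PF.nil)))) (PF.cons (PF.cons (PF.leaf (nat_lit 2304439) (nat_lit 917250) (nat_lit 59591933) (nat_lit 0) [(nat_lit 0), (nat_lit 917250), (nat_lit 0), (nat_lit 5682379)]) (PF.cons PF.nil PF.nil)) PF.nil))) (PF.cons (PF.cons (PF.cons (PF.leaf (nat_lit 2356397) (nat_lit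 2497338) (nat_lit 58881327) (nat_lit 0) [(nat_lit 0), (nat_lit 0), (nat_lit 2497338), (nat_lit 5730146)]) (PF.cons (PF.leaf (nat_lit 2592096) (nat_lit 370322) (nat_lit 58419541) (nat_lit 0) [(nat_lit 370322), (nat_lit 0), (nat_lit
 2541269), (nat_lit 5777679)]) (PF.cons PF.nil PF.nil))) (PF.cons (PF.cons (PF.leaf (nat_lit 2874295) (nat_lit 988188) (nat_lit 57677821) (nat_lit 0) [(nat_lit 0), (nat_lit 988188), (nat_lit 2599563), (nat_lit 5843240)]) PF.nil) PF.nil)) (PF.cons PF.nil PF.nil))) (PF.cons (PF.cons (PF.cons (PF.cons (PF.leaf (nat_lit 3121282) (nat_lit 5894000) (nat_lit 55320811) (nat_lit 0) [(nat_lit 0), (nat_lit 0), (nat_lit 0), (nat_lit 5894000)]) (PF.cons (PF.leaf (nat_lit 3364296) (nat_lit 397569) (nat_lit 54861172) (nat_lit 0) [(nat_lit 397569), (nat_lit 0), (nat_lit 0), (nat_lit 5925035)]) (PF.cons (PF.leaf (nat_lit 3630786) (nat_lit 417261) (nat_lit 54362683) (nat_lit 0) [(nat_lit 417261), (nat_lit 0), (nat_lit 0), (nat_lit 5955802)])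 (PF.cons PF.nil PF.nil)))) (PF.cons (PF.cons (PF.leaf (nat_lit 3646166) (nat_lit 1045009) (nat_lit 54133082) (nat_lit 0) [(nat_lit 0), (nat_lit 1045009), (nat_lit 0), (nat_lit 5965360)]) (PF.cons PF.nil PF.nil)) (PF.cons PF.nil PF.nil))) (PF.cons (PF.cons (PF.cons (PF.leaf (nat_lit 4200062) (nat_lit 2779579) (nat_lit 52276761) (nat_lit 0) [(nat_lit 0), (nat_lit 0), (nat_lit 2779579), (nat_lit 6026236)]) (PF.cons PF.nil PF.nil)) (PF.cons PF.nil PF.nil)) (PF.cons
 PF.nil PF.nil))) (PF.cons (PF.cons (PF.cons (PF.cons (PF.leaf (nat_lit 4901140) (nat_lit 6020776) (nat_lit 49046484) (nat_lit 0) [(nat_lit 0), (nat_lit 0), (nat_lit 0), (nat_lit 6020776)]) (PF.cons PF.nil PF.nil)) (PF.cons PF.nil PF.nil)) (PF.cons PF.nil PF.nil)) (PF.cons PF.nil (PF.cons PF.nil (PF.cons PF.nil (PF.cons PF.nil PF.nil))))))))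

def p12_3_0_0 : pfC (piC [(nat_lit 35404596), (nat_lit 28134109), (nat_lit 21202637), (nat_lit 14064972)] (nat_lit 0)) p12_3_0 (nat_lit 4) (nat_lit 0) (nat_lit 2) = true := by decide +kernel
def p12_3_0_1 : pfC (piC [(nat_lit 35404596), (nat_lit 28134109), (nat_lit 21202637), (nat_lit 14064972)] (nat_lit 0)) p12_3_0 (nat_lit 4) (nat_lit 2) (nat_lit 3) = true := by decide +kernel
def p12_3_0_2 : pfC (piC [(nat_lit 35404596), (nat_lit 28134109), (nat_lit 21202637), (nat_lit 14064972)] (nat_lit 0)) p12_3_0 (nat_lit 4) (nat_lit 3) (nat_lit 4) = true := by decide +kernel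
def p12_3_0_3 : pfC (piC [(nat_lit 35404596), (nat_lit 28134109), (nat_lit 21202637), (nat_lit 14064972)] (nat_lit 0)) p12_3_0 (nat_lit 4) (nat_lit 4) (nat_lit 5) = true := by decide +kernel
def p12_3_0_4 : pfC (piC [(nat_lit 35404596), (nat_lit 28134109), (nat_lit 21202637), (nat_lit 14064972)] (nat_lit 0)) p12_3_0 (nat_lit 4) (nat_lit 5) (nat_lit 6) = true := by decide +kernel
def p12_3_0_5 : pfC (piC [(nat_lit 35404596), (nat_lit 28134109), (nat_lit 21202637), (nat_lit 14064972)] (nat_lit 0)) p12_3_0 (nat_lit 4) (nat_lit 6) (nat_lit 7) = true := by decide +kernel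
def p12_3_0_6 : pfC (piC [(nat_lit 35404596), (nat_lit 28134109), (nat_lit 21202637), (nat_lit 14064972)] (nat_lit 0)) p12_3_0 (nat_lit 4) (nat_lit 7) (nat_lit 8) = true := by decide +kernel
def p12_3_0_7 : pfC (piC [(nat_lit 35404596), (nat_lit 28134109), (nat_lit 21202637), (nat_lit 14064972)] (nat_lit 0)) p12_3_0 (nat_lit 4) (nat_lit 8) (nat_lit 9) = true := by decide +kernel
def p12_3_0_8 : pfC (piC [(nat_lit 35404596), (nat_lit 28134109), (nat_lit 21202637), (nat_lit 14064972)] (nat_lit 0)) p12_3_0 (nat_lit 4) (nat_lit 9) (nat_lit 10) = true := by decide +kernel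
def p12_3_0_9 : pfC (piC [(nat_lit 35404596), (nat_lit 28134109), (nat_lit 21202637), (nat_lit 14064972)] (nat_lit 0)) p12_3_0 (nat_lit 4) (nat_lit 10) (nat_lit 11) = true := by decide +kernel
def p12_3_0_10 : pfC (piC [(nat_lit 35404596), (nat_lit 28134109), (nat_lit 21202637), (nat_lit 14064972)] (nat_lit 0)) p12_3_0 (nat_lit 4) (nat_lit 11) (nat_lit 12) = true := by decide +kernel
def p12_3_0_11 : pfC (piC [(nat_lit 35404596), (nat_lit 28134109), (nat_lit 21202637), (nat_lit 14064972)] (nat_lit 0)) p12_3_0 (nat_lit 4) (nat_lit 12) (nat_lit 13) = true := by decide +kernel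
def p12_3_0_12 : pfC (piC [(nat_lit 35404596), (nat_lit 28134109), (nat_lit 21202637), (nat_lit 14064972)] (nat_lit 0)) p12_3_0 (nat_lit 4) (nat_lit 13) (nat_lit 14) = true := by decide +kernel
def p12_3_0_13 : pfC (piC [(nat_lit 35404596), (nat_lit 28134109), (nat_lit 21202637), (nat_lit 14064972)] (nat_lit 0)) p12_3_0 (nat_lit 4) (nat_lit 14) (nat_lit 15) = true := by decide +kernel
def p12_3_0_14 : pfC (piC [(nat_lit 35404596), (nat_lit 28134109), (nat_lit 21202637), (nat_lit 14064972)] (nat_lit 0)) p12_3_0 (nat_lit 4) (nat_lit 15) (nat_lit 16) = true := by decide +kernel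
def p12_3_0_15 : pfC (piC [(nat_lit 35404596), (nat_lit 28134109), (nat_lit 21202637), (nat_lit 14064972)] (nat_lit 0)) p12_3_0 (nat_lit 4) (nat_lit 16) (nat_lit 17) = true := by decide +kernel
def p12_3_0_16 : pfC (piC [(nat_lit 35404596), (nat_lit 28134109), (nat_lit 21202637), (nat_lit 14064972)] (nat_lit 0)) p12_3_0 (nat_lit 4) (nat_lit 17) (nat_lit 18) = true := by decide +kernel
def p12_3_0_17 : pfC (piC [(nat_lit 35404596), (nat_lit 28134109), (nat_lit 21202637), (nat_lit 14064972)] (nat_lit 0)) p12_3_0 (nat_lit 4) (nat_lit 18) (nat_lit 19) = true := by decide +kernel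
def p12_3_0_18 : pfC (piC [(nat_lit 35404596), (nat_lit 28134109), (nat_lit 21202637), (nat_lit 14064972)] (nat_lit 0)) p12_3_0 (nat_lit 4) (nat_lit 19) (nat_lit 20) = true := by decide +kernel
def p12_3_0_19 : pfC (piC [(nat_lit 35404596), (nat_lit 28134109), (nat_lit 21202637), (nat_lit 14064972)] (nat_lit 0)) p12_3_0 (nat_lit 4) (nat_lit 20) (nat_lit 21) = true := by decide +kernel
def p12_3_0_20 : pfC (piC [(nat_lit 35404596), (nat_lit 28134109), (nat_lit 21202637), (nat_lit 14064972)] (nat_lit 0)) p12_3_0 (nat_lit 4) (nat_lit 21) (nat_lit 22) = true := by decide +kernel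
def p12_3_0_21 : pfC (piC [(nat_lit 35404596), (nat_lit 28134109), (nat_lit 21202637), (nat_lit 14064972)] (nat_lit 0)) p12_3_0 (nat_lit 4) (nat_lit 22) (nat_lit 23) = true := by decide +kernel
def p12_3_0_22 : pfC (piC [(nat_lit 35404596), (nat_lit 28134109), (nat_lit 21202637), (nat_lit 14064972)] (nat_lit 0)) p12_3_0 (nat_lit 4) (nat_lit 23) (nat_lit 24) = true := by decide +kernel
def p12_3_0_23 : pfC (piC [(nat_lit 35404596), (nat_lit 28134109), (nat_lit 21202637), (nat_lit 14064972)] (nat_lit 0)) p12_3_0 (nat_lit 4) (nat_lit 24) (nat_lit 25) = true := by decide +kernel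
def p12_3_0_24 : pfC (piC [(nat_lit 35404596), (nat_lit 28134109), (nat_lit 21202637), (nat_lit 14064972)] (nat_lit 0)) p12_3_0 (nat_lit 4) (nat_lit 25) (nat_lit 26) = true := by decide +kernel
def p12_3_0_25 : pfC (piC [(nat_lit 35404596), (nat_lit 28134109), (nat_lit 21202637), (nat_lit 14064972)] (nat_lit 0)) p12_3_0 (nat_lit 4) (nat_lit 26) (nat_lit 27) = true := by decide +kernel
def p12_3_0_26 : pfC (piC [(nat_lit 35404596), (nat_lit 28134109), (nat_lit 21202637), (nat_lit 14064972)] (nat_lit 0)) p12_3_0 (nat_lit 4) (nat_lit 27) (nat_lit 28) = true := by decide +kernel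
theorem p12_3_0_T : PfS (PiF n12_3.reverse (nat_lit 0)) p12_3_0 (nat_lit 4) [] 0 :=
  pftab_of (los := [(nat_lit 35404596), (nat_lit 28134109), (nat_lit 21202637), (nat_lit 14064972)]) (by decide +kernel) (hi := (nat_lit 28)) (PfP.trans (PfP.trans (PfP.trans (PfP.trans (PfP.trans (PfP.trans (PfP.trans (PfP.trans (PfP.trans (PfP.trans (PfP.trans (PfP.trans (PfP.trans (PfP.trans (PfP.trans (PfP.trans (PfP.trans (PfP.trans (PfP.trans (PfP.trans (PfP.trans (PfP.trans (PfP.trans (PfP.trans (PfP.trans (PfP.trans (pfC_sound p12_3_0_0) (pfC_sound p12_3_0_1)) (pfC_sound p12_3_0_2)) (pfC_sound p12_3_0_3)) (pfC_sound p12_3_0_4)) (pfC_sound p12_3_0_5)) (pfC_sound p12_3_0_6)) (pfC_sound p12_3_0_7)) (pfC_sound p12_3_0_8)) (pfC_sound p12_3_0_9)) (pfC_sound p12_3_0_10)) (pfC_sound p12_3_0_11)) (pfC_sound p12_3_0_12)) (pfC_sound p12_3_0_13)) (pfC_sound p12_3_0_14)) (pfC_sound p12_3_0_15)) (pfC_sound p12_3_0_16)) (pfC_sound p12_3_0_17)) (pfC_sound p12_3_0_18)) (pfC_sound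 p12_3_0_19)) (pfC_sound p12_3_0_20)) (pfC_sound p12_3_0_21)) (pfC_sound p12_3_0_22)) (pfC_sound p12_3_0_23)) (pfC_sound p12_3_0_24)) (pfC_sound p12_3_0_25)) (pfC_sound p12_3_0_26)) (by decide +kernel)

def z12_3_0 : zOK yB12_3 (nat_lit 0) (nat_lit 0) (nat_lit 400) (nat_lit 0) (nat_lit 0) = true := by decide +kernel
def g12_3_0 : gOK yB12_3.x P12_3 (nat_lit 1413) (q12_3 :: r12_3) (nat_lit 0) (nat_lit 0) (nat_lit 1) (nat_lit 400) (nat_lit 0) (nat_lit 11000000) (nat_lit 12712500) (nat_lit 12712500) [(nat_lit 800), (nat_lit 1600)] = true := by decide +kernel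
def v12_3_0 : ivC P12_3 s12_3 w12_3 n12_3 (nat_lit 4) (nat_lit 5600) (nat_lit 0) (nat_lit 0) f120_1_0 f128_1_0 (nat_lit 1) (nat_lit 400) f120_1_400 f128_1_400 (nat_lit 0) (nat_lit 0) p12_3_0 = true := by decide +kernel
def p12_3_1 : PF := (PF.cons (PF.cons (PF.cons (PF.cons (PF.leaf (nat_lit 1930223) (nat_lit 8712090) (nat_lit 58396722) (nat_lit 8712090) [(nat_lit 0), (nat_lit 0), (nat_lit 0), (nat_lit 0)]) (PF.cons (PF.leaf (nat_lit 2105663) (nat_lit 300063) (nat_lit 58063456) (nat_lit 8745292) [(nat_lit 300063), (nat_lit 0), (nat_lit 0), (nat_lit 0)]) (PF.cons (PF.leaf (nat_lit 2313630) (nat_lit 327029) (nat_lit 57673290) (nat_lit 8781462) [(nat_lit 327029), (nat_lit 0), (nat_lit 0), (nat_lit 0)]) (PF.cons PF.nil PF.nil)))) (PF.cons (PF.cons (PF.leaf (nat_lit 2351742) (nat_lit 877650) (nat_lit 57431748) (nat_lit 8799413) [(nat_lit 0), (nat_lit 877650), (nat_lit 0), (nat_lit 0)]) (PF.cons PF.nil PF.nil)) (PF.cons PF.nil PF.nil))) (PF.cons (PF.cons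 (PF.cons (PF.leaf (nat_lit 2881973) (nat_lit 2564801) (nat_lit 55645705) (nat_lit 8898305) [(nat_lit 0), (nat_lit 0), (nat_lit 2564801), (nat_lit 0)]) (PF.cons PF.nil PF.nil)) (PF.cons PF.nil PF.nil)) (PF.cons PF.nil PF.nil))) (PF.cons (PF.cons (PF.cons (PF.cons (PF.leaf (nat_lit 3606961) (nat_lit 5899233) (nat_lit 52292774) (nat_lit 8916805) [(nat_lit 0), (nat_lit 0), (nat_lit 0), (nat_lit 5899233)]) (PF.cons (PF.leaf (nat_lit 3848063) (nat_lit 404388) (nat_lit
 51857449) (nat_lit 8925715) [(nat_lit 404388), (nat_lit 0), (nat_lit 0), (nat_lit 5921259)]) (PF.cons PF.nil PF.nil))) (PF.cons (PF.cons (PF.leaf (nat_lit 4123347) (nat_lit 1057100) (nat_lit 51171013) (nat_lit 8932577) [(nat_lit 0), (nat_lit 1057100), (nat_lit 0), (nat_lit 5948121)]) PF.nil) PF.nil)) (PF.cons PF.nil PF.nil)) (PF.cons (PF.cons (PF.cons (PF.cons (PF.leaf (nat_lit 5314400) (nat_lit 5939384) (nat_lit 46449242) (nat_lit 8780802) [(nat_lit 0), (nat_lit 0), (nat_lit 0), (nat_lit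 5939384)]) (PF.cons PF.nil PF.nil)) (PF.cons PF.nil PF.nil)) (PF.cons PF.nil PF.nil)) (PF.cons PF.nil (PF.cons PF.nil (PF.cons PF.nil PF.nil))))))

def p12_3_1_0 : pfC (piC [(nat_lit 35404596), (nat_lit 28134109), (nat_lit 21202637), (nat_lit 14064972)] (nat_lit 11973284)) p12_3_1 (nat_lit 4) (nat_lit 0) (nat_lit 1) = true := by decide +kernel
def p12_3_1_1 : pfC (piC [(nat_lit 35404596), (nat_lit 28134109), (nat_lit 21202637), (nat_lit 14064972)] (nat_lit 11973284)) p12_3_1 (nat_lit 4) (nat_lit 1) (nat_lit 2) = true := by decide +kernel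
def p12_3_1_2 : pfC (piC [(nat_lit 35404596), (nat_lit 28134109), (nat_lit 21202637), (nat_lit 14064972)] (nat_lit 11973284)) p12_3_1 (nat_lit 4) (nat_lit 2) (nat_lit 3) = true := by decide +kernel
def p12_3_1_3 : pfC (piC [(nat_lit 35404596), (nat_lit 28134109), (nat_lit 21202637), (nat_lit 14064972)] (nat_lit 11973284)) p12_3_1 (nat_lit 4) (nat_lit 3) (nat_lit 4) = true := by decide +kernel
def p12_3_1_4 : pfC (piC [(nat_lit 35404596), (nat_lit 28134109), (nat_lit 21202637), (nat_lit 14064972)] (nat_lit 11973284)) p12_3_1 (nat_lit 4) (nat_lit 4) (nat_lit 5) = true := by decide +kernel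
def p12_3_1_5 : pfC (piC [(nat_lit 35404596), (nat_lit 28134109), (nat_lit 21202637), (nat_lit 14064972)] (nat_lit 11973284)) p12_3_1 (nat_lit 4) (nat_lit 5) (nat_lit 6) = true := by decide +kernel
def p12_3_1_6 : pfC (piC [(nat_lit 35404596), (nat_lit 28134109), (nat_lit 21202637), (nat_lit 14064972)] (nat_lit 11973284)) p12_3_1 (nat_lit 4) (nat_lit 6) (nat_lit 7) = true := by decide +kernel
def p12_3_1_7 : pfC (piC [(nat_lit 35404596), (nat_lit 28134109), (nat_lit 21202637), (nat_lit 14064972)] (nat_lit 11973284)) p12_3_1 (nat_lit 4) (nat_lit 7) (nat_lit 8) = true := by decide +kernel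
def p12_3_1_8 : pfC (piC [(nat_lit 35404596), (nat_lit 28134109), (nat_lit 21202637), (nat_lit 14064972)] (nat_lit 11973284)) p12_3_1 (nat_lit 4) (nat_lit 8) (nat_lit 9) = true := by decide +kernel
theorem p12_3_1_T : PfS (PiF n12_3.reverse (nat_lit 11973284)) p12_3_1 (nat_lit 4) [] 0 :=
  pftab_of (los := [(nat_lit 35404596), (nat_lit 28134109), (nat_lit 21202637), (nat_lit 14064972)]) (by decide +kernel) (hi := (nat_lit 9)) (PfP.trans (PfP.trans (PfP.trans (PfP.trans (PfP.trans (PfP.trans (PfP.trans (PfP.trans (pfC_sound p12_3_1_0) (pfC_sound p12_3_1_1)) (pfC_sound p12_3_1_2)) (pfC_sound p12_3_1_3)) (pfC_sound p12_3_1_4)) (pfC_sound p12_3_1_5)) (pfC_sound p12_3_1_6)) (pfC_sound p12_3_1_7)) (pfC_sound p12_3_1_8)) (by decide +kernel)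

def z12_3_1 : zOK yB12_3 (nat_lit 1) (nat_lit 400) (nat_lit 600) (nat_lit 11973284) (nat_lit 7052199) = true := by decide +kernel
def g12_3_1 : gOK yB12_3.x P12_3 (nat_lit 1413) (q12_3 :: r12_3) (nat_lit 1) (nat_lit 400) (nat_lit 2) (nat_lit 600) (nat_lit 11000000) (nat_lit 17850000) (nat_lit 12712500) (nat_lit 12712500) [(nat_lit 800), (nat_lit 1130)] = true := by decide +kernel
def v12_3_1 : ivC P12_3 s12_3 w12_3 n12_3 (nat_lit 4) (nat_lit 5200) (nat_lit 1) (nat_lit 400) f120_1_400 f128_1_400 (nat_lit 2) (nat_lit 600) f120_1_600 f128_1_600 (nat_lit 11973284) (nat_lit 7052199) p12_3_1 = true := by decide +kernel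
def p12_3_2 : PF := (PF.cons (PF.cons (PF.cons (PF.cons (PF.leaf (nat_lit 2714480) (nat_lit 15637499) (nat_lit 51471313) (nat_lit 15637499) [(nat_lit 0), (nat_lit 0), (nat_lit 0), (nat_lit 0)]) (PF.cons (PF.leaf (nat_lit 2886421) (nat_lit 304694) (nat_lit 51184290) (nat_lit 15619828) [(nat_lit 304694), (nat_lit 0), (nat_lit 0), (nat_lit 0)]) (PF.cons (PF.leaf (nat_lit 3089300) (nat_lit 330937) (nat_lit 50849286) (nat_lit 15597651) [(nat_lit 330937), (nat_lit 0), (nat_lit 0), (nat_lit 0)]) (PF.cons (PF.leaf (nat_lit 3316674) (nat_lit 354075) (nat_lit 50475581) (nat_lit 15571003) [(nat_lit 354075), (nat_lit 0), (nat_lit 0), (nat_lit 0)]) (PF.cons PF.nil PF.nil))))) (PF.cons (PF.cons (PF.leaf (nat_lit 3122115) (nat_lit 883914) (nat_lit 50643437) (nat_lit 15581461) [(nat_lit 0), (nat_lit 883914), (nat_lit 0), (nat_lit 0)]) (PF.cons (PF.leaf (nat_lit 3337248) (nat_lit 353483) (nat_lit 50283962) (nat_lit 15554768) [(nat_lit 353483), (nat_lit 916598),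 (nat_lit 0), (nat_lit 0)]) (PF.cons PF.nil (PF.cons PF.nil PF.nil)))) (PF.cons (PF.cons (PF.leaf (nat_lit 3593105) (nat_lit 952211) (nat_lit 49698708) (nat_lit 15505680) [(nat_lit 0), (nat_lit 952211), (nat_lit 0), (nat_lit 0)]) (PF.cons PF.nil PF.nil))
 PF.nil))) (PF.cons (PF.cons (PF.cons (PF.leaf (nat_lit 3615008) (nat_lit 2533906) (nat_lit 49133244) (nat_lit 15441661) [(nat_lit 0), (nat_lit 0), (nat_lit 2533906), (nat_lit 0)]) (PF.cons (PF.leaf (nat_lit 3841727) (nat_lit 380661) (nat_lit 48757248) (nat_lit 15406256) [(nat_lit 380661), (nat_lit 0), (nat_lit 2564647), (nat_lit 0)]) PF.nil)) (PF.cons PF.nil PF.nil)) (PF.cons PF.nil PF.nil))) (PF.cons (PF.cons (PF.cons (PF.cons (PF.leaf (nat_lit 4265503) (nat_lit 5683859) (nat_lit 46350828) (nat_lit 15074124) [(nat_lit 0), (nat_lit 0), (nat_lit 0), (nat_lit 5683859)]) (PF.cons (PF.leaf (nat_lit 4495009) (nat_lit 396256) (nat_lit 45986550) (nat_lit 15029133) [(nat_lit 396256), (nat_lit 0), (nat_lit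 0), (nat_lit 5696872)]) (PF.cons (PF.leaf (nat_lit 4745422) (nat_lit 414030) (nat_lit 45592963) (nat_lit 14978821) [(nat_lit 414030), (nat_lit 0), (nat_lit 0), (nat_lit 5708968)]) (PF.cons PF.nil PF.nil)))) (PF.cons (PF.cons (PF.leaf (nat_lit 4752755) (nat_lit 1030648) (nat_lit 45413932) (nat_lit 14953640) [(nat_lit 0), (nat_lit 1030648), (nat_lit 0), (nat_lit 5710591)]) (PF.cons PF.nil PF.nil)) (PF.cons PF.nil PF.nil))) (PF.cons (PF.cons (PF.cons (PF.leaf (nat_lit 5240897) (nat_lit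
 2680637) (nat_lit 43974131) (nat_lit 14739083) [(nat_lit 0), (nat_lit 0), (nat_lit 2680637), (nat_lit 5714960)]) (PF.cons PF.nil PF.nil)) PF.nil) PF.nil)) (PF.cons (PF.cons (PF.cons (PF.cons (PF.leaf (nat_lit 5833839) (nat_lit 5647694) (nat_lit 41515714) (nat_lit 14297708) [(nat_lit 0), (nat_lit 0), (nat_lit 0), (nat_lit 5647694)]) (PF.cons PF.nil PF.nil)) (PF.cons PF.nil PF.nil)) (PF.cons PF.nil PF.nil)) (PF.cons PF.nil (PF.cons PF.nil (PF.cons PF.nil PF.nil))))))

def p12_3_2_0 : pfC (piC [(nat_lit 35404596), (nat_lit 28134109), (nat_lit 21202637), (nat_lit 14064972)] (nat_lit 7052199)) p12_3_2 (nat_lit 4) (nat_lit 0) (nat_lit 1) = true := by decide +kernel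
def p12_3_2_1 : pfC (piC [(nat_lit 35404596), (nat_lit 28134109), (nat_lit 21202637), (nat_lit 14064972)] (nat_lit 7052199)) p12_3_2 (nat_lit 4) (nat_lit 1) (nat_lit 2) = true := by decide +kernel
def p12_3_2_2 : pfC (piC [(nat_lit 35404596), (nat_lit 28134109), (nat_lit 21202637), (nat_lit 14064972)] (nat_lit 7052199)) p12_3_2 (nat_lit 4) (nat_lit 2) (nat_lit 3) = true := by decide +kernel
def p12_3_2_3 : pfC (piC [(nat_lit 35404596), (nat_lit 28134109), (nat_lit 21202637), (nat_lit 14064972)] (nat_lit 7052199)) p12_3_2 (nat_lit 4) (nat_lit 3) (nat_lit 4) = true := by decide +kernel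
def p12_3_2_4 : pfC (piC [(nat_lit 35404596), (nat_lit 28134109), (nat_lit 21202637), (nat_lit 14064972)] (nat_lit 7052199)) p12_3_2 (nat_lit 4) (nat_lit 4) (nat_lit 5) = true := by decide +kernel
def p12_3_2_5 : pfC (piC [(nat_lit 35404596), (nat_lit 28134109), (nat_lit 21202637), (nat_lit 14064972)] (nat_lit 7052199)) p12_3_2 (nat_lit 4) (nat_lit 5) (nat_lit 6) = true := by decide +kernel
def p12_3_2_6 : pfC (piC [(nat_lit 35404596), (nat_lit 28134109), (nat_lit 21202637), (nat_lit 14064972)] (nat_lit 7052199)) p12_3_2 (nat_lit 4) (nat_lit 6) (nat_lit 7) = true := by decide +kernel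
def p12_3_2_7 : pfC (piC [(nat_lit 35404596), (nat_lit 28134109), (nat_lit 21202637), (nat_lit 14064972)] (nat_lit 7052199)) p12_3_2 (nat_lit 4) (nat_lit 7) (nat_lit 8) = true := by decide +kernel
def p12_3_2_8 : pfC (piC [(nat_lit 35404596), (nat_lit 28134109), (nat_lit 21202637), (nat_lit 14064972)] (nat_lit 7052199)) p12_3_2 (nat_lit 4) (nat_lit 8) (nat_lit 9) = true := by decide +kernel
def p12_3_2_9 : pfC (piC [(nat_lit 35404596), (nat_lit 28134109), (nat_lit 21202637), (nat_lit 14064972)] (nat_lit 7052199)) p12_3_2 (nat_lit 4) (nat_lit 9) (nat_lit 10) = true := by decide +kernel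
def p12_3_2_10 : pfC (piC [(nat_lit 35404596), (nat_lit 28134109), (nat_lit 21202637), (nat_lit 14064972)] (nat_lit 7052199)) p12_3_2 (nat_lit 4) (nat_lit 10) (nat_lit 11) = true := by decide +kernel
def p12_3_2_11 : pfC (piC [(nat_lit 35404596), (nat_lit 28134109), (nat_lit 21202637), (nat_lit 14064972)] (nat_lit 7052199)) p12_3_2 (nat_lit 4) (nat_lit 11) (nat_lit 12) = true := by decide +kernel
def p12_3_2_12 : pfC (piC [(nat_lit 35404596), (nat_lit 28134109), (nat_lit 21202637), (nat_lit 14064972)] (nat_lit 7052199)) p12_3_2 (nat_lit 4) (nat_lit 12) (nat_lit 13) = true := by decide +kernel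
def p12_3_2_13 : pfC (piC [(nat_lit 35404596), (nat_lit 28134109), (nat_lit 21202637), (nat_lit 14064972)] (nat_lit 7052199)) p12_3_2 (nat_lit 4) (nat_lit 13) (nat_lit 14) = true := by decide +kernel
def p12_3_2_14 : pfC (piC [(nat_lit 35404596), (nat_lit 28134109), (nat_lit 21202637), (nat_lit 14064972)] (nat_lit 7052199)) p12_3_2 (nat_lit 4) (nat_lit 14) (nat_lit 15) = true := by decide +kernel
theorem p12_3_2_T : PfS (PiF n12_3.reverse (nat_lit 7052199)) p12_3_2 (nat_lit 4) [] 0 :=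
  pftab_of (los := [(nat_lit 35404596), (nat_lit 28134109), (nat_lit 21202637), (nat_lit 14064972)]) (by decide +kernel) (hi := (nat_lit 15)) (PfP.trans (PfP.trans (PfP.trans (PfP.trans (PfP.trans (PfP.trans (PfP.trans (PfP.trans (PfP.trans (PfP.trans (PfP.trans (PfP.trans (PfP.trans (PfP.trans (pfC_sound p12_3_2_0) (pfC_sound p12_3_2_1)) (pfC_sound p12_3_2_2)) (pfC_sound p12_3_2_3)) (pfC_sound p12_3_2_4)) (pfC_sound p12_3_2_5)) (pfC_sound p12_3_2_6)) (pfC_sound p12_3_2_7)) (pfC_sound p12_3_2_8)) (pfC_sound p12_3_2_9)) (pfC_sound p12_3_2_10)) (pfC_sound p12_3_2_11)) (pfC_sound p12_3_2_12)) (pfC_sound p12_3_2_13)) (pfC_sound p12_3_2_14)) (by decide +kernel)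

def z12_3_2 : zOK yB12_3 (nat_lit 2) (nat_lit 600) (nat_lit 750) (nat_lit 7052199) (nat_lit 4861332) = true := by decide +kernel
def g12_3_2 : gOK yB12_3.x P12_3 (nat_lit 1413) (q12_3 :: r12_3) (nat_lit 2) (nat_lit 600) (nat_lit 3) (nat_lit 750) (nat_lit 12712500) (nat_lit 12712500) (nat_lit 12712500) (nat_lit 12712500) [(nat_lit 800), (nat_lit 1600)] = true := by decide +kernel
def v12_3_2 : ivC P12_3 s12_3 w12_3 n12_3 (nat_lit 4) (nat_lit 5000) (nat_lit 2) (nat_lit 600) f120_1_600 f128_1_600 (nat_lit 3) (nat_lit 750) f120_1_750 f128_1_750 (nat_lit 7052199) (nat_lit 4861332) p12_3_2 = true := by decide +kernel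
def p12_3_3 : PF := (PF.cons (PF.cons (PF.cons (PF.cons (PF.leaf (nat_lit 3139476) (nat_lit 21566542) (nat_lit 45542270) (nat_lit 21566542) [(nat_lit 0), (nat_lit 0), (nat_lit 0), (nat_lit 0)]) (PF.cons (PF.leaf (nat_lit 3302158) (nat_lit 291737) (nat_lit 45310002) (nat_lit 21507073) [(nat_lit 291737), (nat_lit 0), (nat_lit 0), (nat_lit 0)]) (PF.cons (PF.leaf (nat_lit 3494137) (nat_lit 316585) (nat_lit 45038913) (nat_lit 21436729) [(nat_lit 316585), (nat_lit 0), (nat_lit 0), (nat_lit 0)]) (PF.cons (PF.leaf (nat_lit 3709053) (nat_lit 338406) (nat_lit 44736496) (nat_lit 21357095) [(nat_lit 338406), (nat_lit 0), (nat_lit 0), (nat_lit 0)]) (PF.cons (PF.leaf (nat_lit 3943330) (nat_lit 357867) (nat_lit 44408087) (nat_lit 21269256) [(nat_lit 357867), (nat_lit 0), (nat_lit 0), (nat_lit 0)]) (PF.cons PF.nil (PF.cons PF.nil PF.nil))))))) (PF.cons (PF.cons (PF.leaf (nat_lit 3523958) (nat_lit 844161) (nat_lit 44872621) (nat_lit 21392030) [(nat_lit 0), (nat_lit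 844161), (nat_lit 0), (nat_lit 0)]) (PF.cons (PF.leaf (nat_lit 3727097) (nat_lit 337675) (nat_lit 44581715) (nat_lit 21314775) [(nat_lit 337675), (nat_lit 874647), (nat_lit 0), (nat_lit 0)]) (PF.cons (PF.leaf (nat_lit 3952353) (nat_lit 357209) (nat_lit
 44262320) (nat_lit 21228691) [(nat_lit 357209), (nat_lit 903381), (nat_lit 0), (nat_lit 0)]) (PF.cons (PF.leaf (nat_lit 4195596) (nat_lit 374764) (nat_lit 43919484) (nat_lit 21134840) [(nat_lit 374764), (nat_lit 930196), (nat_lit 0), (nat_lit 0)]) (PF.cons PF.nil PF.nil))))) (PF.cons (PF.cons (PF.leaf (nat_lit 3967251) (nat_lit 907454) (nat_lit 44108310) (nat_lit 21185594) [(nat_lit 0), (nat_lit 907454), (nat_lit 0), (nat_lit 0)]) (PF.cons (PF.leaf (nat_lit 4200974) (nat_lit 373875) (nat_lit 43774865) (nat_lit 21093656) [(nat_lit 373875), (nat_lit 933207), (nat_lit 0), (nat_lit 0)]) (PF.cons PF.nil (PF.cons PF.nil PF.nil)))) (PF.cons (PF.cons (PF.leaf (nat_lit 4454527) (nat_lit 959684) (nat_lit 43277087)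 (nat_lit 20952672) [(nat_lit 0), (nat_lit 959684), (nat_lit 0), (nat_lit 0)]) (PF.cons PF.nil PF.nil)) (PF.cons PF.nil PF.nil))))) (PF.cons (PF.cons (PF.cons (PF.leaf (nat_lit 3983108) (nat_lit 2404936) (nat_lit 43652796) (nat_lit 21051079) [(nat_lit 0), (nat_lit 0), (nat_lit 2404936), (nat_lit 0)]) (PF.cons (PF.leaf (nat_lit 4196751) (nat_lit 362505) (nat_lit 43348231) (nat_lit 20965483) [(nat_lit 362505), (nat_lit 0), (nat_lit 2432592), (nat_lit 0)]) (PF.cons (PF.leaf (nat_lit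
 4431186) (nat_lit 380200) (nat_lit 43017417) (nat_lit 20871226) [(nat_lit 380200), (nat_lit 0), (nat_lit 2459768), (nat_lit 0)]) (PF.cons PF.nil (PF.cons PF.nil PF.nil))))) (PF.cons (PF.cons (PF.leaf (nat_lit 4441361) (nat_lit 952133) (nat_lit 42864367) (nat_lit 20826039) [(nat_lit 0), (nat_lit 952133), (nat_lit 2466272), (nat_lit 0)]) (PF.cons (PF.leaf (nat_lit 4682819) (nat_lit 394422) (nat_lit 42522766) (nat_lit 20726682) [(nat_lit 394422), (nat_lit 974065), (nat_lit 2490875), (nat_lit 0)]) (PF.cons PF.nil (PF.cons PF.nil PF.nil)))) (PF.cons (PF.cons (PF.leaf (nat_lit 4938119) (nat_lit 995798) (nat_lit 42021567) (nat_lit 20577261) [(nat_lit 0), (nat_lit 995798), (nat_lit 2518386), (nat_lit 0)]) (PF.cons PF.nil PF.nil)) PF.nil))) (PF.cons (PF.cons (PF.cons (PF.leaf (nat_lit 4912886) (nat_lit 2515396) (nat_lit 41627412) (nat_lit 20450607) [(nat_lit 0), (nat_lit 0), (nat_lit 2515396), (nat_lit 0)]) (PF.cons (PF.leaf (nat_lit 5159923) (nat_lit 411110)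 (nat_lit 41282372) (nat_lit 20345354) [(nat_lit 411110), (nat_lit 0), (nat_lit 2534988), (nat_lit 0)]) PF.nil)) (PF.cons PF.nil PF.nil)) (PF.cons PF.nil (PF.cons PF.nil PF.nil))))) (PF.cons (PF.cons (PF.cons (PF.cons (PF.leaf (nat_lit
 4582917) (nat_lit 5348881) (nat_lit 41406879) (nat_lit 20353052) [(nat_lit 0), (nat_lit 0), (nat_lit 0), (nat_lit 5348881)]) (PF.cons (PF.leaf (nat_lit 4799112) (nat_lit 376086) (nat_lit 41110490) (nat_lit 20262605) [(nat_lit 376086), (nat_lit 0), (nat_lit 0), (nat_lit 5359629)]) (PF.cons (PF.leaf (nat_lit 5035062) (nat_lit 392774) (nat_lit 40790049) (nat_lit 20163692) [(nat_lit 392774), (nat_lit 0), (nat_lit 0), (nat_lit 5369521)]) (PF.cons (PF.leaf (nat_lit 5286474) (nat_lit 407402) (nat_lit 40450740) (nat_lit 20057696) [(nat_lit 407402), (nat_lit 0), (nat_lit 0), (nat_lit 5378169)]) (PF.cons PF.nil PF.nil))))) (PF.cons (PF.cons (PF.leaf (nat_lit 5041066) (nat_lit 976601) (nat_lit 40644480) (nat_lit 20117297) [(nat_lit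 0), (nat_lit 976601), (nat_lit 0), (nat_lit 5370433)]) (PF.cons (PF.leaf (nat_lit 5282893) (nat_lit 405344) (nat_lit 40315487) (nat_lit 20013998) [(nat_lit 405344), (nat_lit 995803), (nat_lit 0), (nat_lit 5378178)]) (PF.cons PF.nil (PF.cons PF.nil PF.nil)))) (PF.cons (PF.cons (PF.leaf (nat_lit 5533370) (nat_lit 1013817) (nat_lit 39836910) (nat_lit 19860512) [(nat_lit 0), (nat_lit 1013817), (nat_lit 0), (nat_lit 5383756)]) (PF.cons PF.nil PF.nil)) PF.nil)))
 (PF.cons (PF.cons (PF.cons (PF.leaf (nat_lit 5496966) (nat_lit 2530835) (nat_lit 39471844) (nat_lit 19735295) [(nat_lit 0), (nat_lit 0), (nat_lit 2530835), (nat_lit 5370837)]) (PF.cons (PF.leaf (nat_lit 5742754) (nat_lit 418764) (nat_lit 39142607) (nat_lit 19627796) [(nat_lit 418764), (nat_lit 0), (nat_lit 2545658), (nat_lit 5373986)]) PF.nil)) (PF.cons PF.nil PF.nil)) (PF.cons PF.nil PF.nil))) (PF.cons (PF.cons (PF.cons (PF.cons (PF.leaf (nat_lit 6049052) (nat_lit 5306834) (nat_lit 37464795)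 (nat_lit 19030349) [(nat_lit 0), (nat_lit 0), (nat_lit 0), (nat_lit 5306834)]) (PF.cons PF.nil PF.nil)) (PF.cons PF.nil PF.nil)) (PF.cons PF.nil PF.nil)) (PF.cons PF.nil (PF.cons PF.nil (PF.cons PF.nil PF.nil))))))

def p12_3_3_0 : pfC (piC [(nat_lit 35404596), (nat_lit 28134109), (nat_lit 21202637), (nat_lit 14064972)] (nat_lit 4861332)) p12_3_3 (nat_lit 4) (nat_lit 0) (nat_lit 1) = true := by decide +kernel
def p12_3_3_1 : pfC (piC [(nat_lit 35404596), (nat_lit 28134109), (nat_lit 21202637), (nat_lit 14064972)] (nat_lit 4861332)) p12_3_3 (nat_lit 4) (nat_lit 1) (nat_lit 2) = true := by decide +kernel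
def p12_3_3_2 : pfC (piC [(nat_lit 35404596), (nat_lit 28134109), (nat_lit 21202637), (nat_lit 14064972)] (nat_lit 4861332)) p12_3_3 (nat_lit 4) (nat_lit 2) (nat_lit 3) = true := by decide +kernel
def p12_3_3_3 : pfC (piC [(nat_lit 35404596), (nat_lit 28134109), (nat_lit 21202637), (nat_lit 14064972)] (nat_lit 4861332)) p12_3_3 (nat_lit 4) (nat_lit 3) (nat_lit 4) = true := by decide +kernel
def p12_3_3_4 : pfC (piC [(nat_lit 35404596), (nat_lit 28134109), (nat_lit 21202637), (nat_lit 14064972)] (nat_lit 4861332)) p12_3_3 (nat_lit 4) (nat_lit 4) (nat_lit 5) = true := by decide +kernel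
def p12_3_3_5 : pfC (piC [(nat_lit 35404596), (nat_lit 28134109), (nat_lit 21202637), (nat_lit 14064972)] (nat_lit 4861332)) p12_3_3 (nat_lit 4) (nat_lit 5) (nat_lit 6) = true := by decide +kernel
def p12_3_3_6 : pfC (piC [(nat_lit 35404596), (nat_lit 28134109), (nat_lit 21202637), (nat_lit 14064972)] (nat_lit 4861332)) p12_3_3 (nat_lit 4) (nat_lit 6) (nat_lit 7) = true := by decide +kernel
def p12_3_3_7 : pfC (piC [(nat_lit 35404596), (nat_lit 28134109), (nat_lit 21202637), (nat_lit 14064972)] (nat_lit 4861332)) p12_3_3 (nat_lit 4) (nat_lit 7) (nat_lit 8) = true := by decide +kernel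
def p12_3_3_8 : pfC (piC [(nat_lit 35404596), (nat_lit 28134109), (nat_lit 21202637), (nat_lit 14064972)] (nat_lit 4861332)) p12_3_3 (nat_lit 4) (nat_lit 8) (nat_lit 9) = true := by decide +kernel
def p12_3_3_9 : pfC (piC [(nat_lit 35404596), (nat_lit 28134109), (nat_lit 21202637), (nat_lit 14064972)] (nat_lit 4861332)) p12_3_3 (nat_lit 4) (nat_lit 9) (nat_lit 10) = true := by decide +kernel
def p12_3_3_10 : pfC (piC [(nat_lit 35404596), (nat_lit 28134109), (nat_lit 21202637), (nat_lit 14064972)] (nat_lit 4861332)) p12_3_3 (nat_lit 4) (nat_lit 10) (nat_lit 11) = true := by decide +kernel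
def p12_3_3_11 : pfC (piC [(nat_lit 35404596), (nat_lit 28134109), (nat_lit 21202637), (nat_lit 14064972)] (nat_lit 4861332)) p12_3_3 (nat_lit 4) (nat_lit 11) (nat_lit 12) = true := by decide +kernel
def p12_3_3_12 : pfC (piC [(nat_lit 35404596), (nat_lit 28134109), (nat_lit 21202637), (nat_lit 14064972)] (nat_lit 4861332)) p12_3_3 (nat_lit 4) (nat_lit 12) (nat_lit 13) = true := by decide +kernel
def p12_3_3_13 : pfC (piC [(nat_lit 35404596), (nat_lit 28134109), (nat_lit 21202637), (nat_lit 14064972)] (nat_lit 4861332)) p12_3_3 (nat_lit 4) (nat_lit 13) (nat_lit 14) = true := by decide +kernel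
def p12_3_3_14 : pfC (piC [(nat_lit 35404596), (nat_lit 28134109), (nat_lit 21202637), (nat_lit 14064972)] (nat_lit 4861332)) p12_3_3 (nat_lit 4) (nat_lit 14) (nat_lit 15) = true := by decide +kernel
def p12_3_3_15 : pfC (piC [(nat_lit 35404596), (nat_lit 28134109), (nat_lit 21202637), (nat_lit 14064972)] (nat_lit 4861332)) p12_3_3 (nat_lit 4) (nat_lit 15) (nat_lit 16) = true := by decide +kernel
def p12_3_3_16 : pfC (piC [(nat_lit 35404596), (nat_lit 28134109), (nat_lit 21202637), (nat_lit 14064972)] (nat_lit 4861332)) p12_3_3 (nat_lit 4) (nat_lit 16) (nat_lit 17) = true := by decide +kernel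
def p12_3_3_17 : pfC (piC [(nat_lit 35404596), (nat_lit 28134109), (nat_lit 21202637), (nat_lit 14064972)] (nat_lit 4861332)) p12_3_3 (nat_lit 4) (nat_lit 17) (nat_lit 18) = true := by decide +kernel
def p12_3_3_18 : pfC (piC [(nat_lit 35404596), (nat_lit 28134109), (nat_lit 21202637), (nat_lit 14064972)] (nat_lit 4861332)) p12_3_3 (nat_lit 4) (nat_lit 18) (nat_lit 19) = true := by decide +kernel
def p12_3_3_19 : pfC (piC [(nat_lit 35404596), (nat_lit 28134109), (nat_lit 21202637), (nat_lit 14064972)] (nat_lit 4861332)) p12_3_3 (nat_lit 4) (nat_lit 19) (nat_lit 20) = true := by decide +kernel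
def p12_3_3_20 : pfC (piC [(nat_lit 35404596), (nat_lit 28134109), (nat_lit 21202637), (nat_lit 14064972)] (nat_lit 4861332)) p12_3_3 (nat_lit 4) (nat_lit 20) (nat_lit 21) = true := by decide +kernel
def p12_3_3_21 : pfC (piC [(nat_lit 35404596), (nat_lit 28134109), (nat_lit 21202637), (nat_lit 14064972)] (nat_lit 4861332)) p12_3_3 (nat_lit 4) (nat_lit 21) (nat_lit 22) = true := by decide +kernel
def p12_3_3_22 : pfC (piC [(nat_lit 35404596), (nat_lit 28134109), (nat_lit 21202637), (nat_lit 14064972)] (nat_lit 4861332)) p12_3_3 (nat_lit 4) (nat_lit 22) (nat_lit 23) = true := by decide +kernel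
def p12_3_3_23 : pfC (piC [(nat_lit 35404596), (nat_lit 28134109), (nat_lit 21202637), (nat_lit 14064972)] (nat_lit 4861332)) p12_3_3 (nat_lit 4) (nat_lit 23) (nat_lit 24) = true := by decide +kernel
def p12_3_3_24 : pfC (piC [(nat_lit 35404596), (nat_lit 28134109), (nat_lit 21202637), (nat_lit 14064972)] (nat_lit 4861332)) p12_3_3 (nat_lit 4) (nat_lit 24) (nat_lit 25) = true := by decide +kernel
def p12_3_3_25 : pfC (piC [(nat_lit 35404596), (nat_lit 28134109), (nat_lit 21202637), (nat_lit 14064972)] (nat_lit 4861332)) p12_3_3 (nat_lit 4) (nat_lit 25) (nat_lit 26) = true := by decide +kernel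
def p12_3_3_26 : pfC (piC [(nat_lit 35404596), (nat_lit 28134109), (nat_lit 21202637), (nat_lit 14064972)] (nat_lit 4861332)) p12_3_3 (nat_lit 4) (nat_lit 26) (nat_lit 27) = true := by decide +kernel
def p12_3_3_27 : pfC (piC [(nat_lit 35404596), (nat_lit 28134109), (nat_lit 21202637), (nat_lit 14064972)] (nat_lit 4861332)) p12_3_3 (nat_lit 4) (nat_lit 27) (nat_lit 28) = true := by decide +kernel
def p12_3_3_28 : pfC (piC [(nat_lit 35404596), (nat_lit 28134109), (nat_lit 21202637), (nat_lit 14064972)] (nat_lit 4861332)) p12_3_3 (nat_lit 4) (nat_lit 28) (nat_lit 29) = true := by decide +kernel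
def p12_3_3_29 : pfC (piC [(nat_lit 35404596), (nat_lit 28134109), (nat_lit 21202637), (nat_lit 14064972)] (nat_lit 4861332)) p12_3_3 (nat_lit 4) (nat_lit 29) (nat_lit 30) = true := by decide +kernel
theorem p12_3_3_T : PfS (PiF n12_3.reverse (nat_lit 4861332)) p12_3_3 (nat_lit 4) [] 0 :=
  pftab_of (los := [(nat_lit 35404596), (nat_lit 28134109), (nat_lit 21202637), (nat_lit 14064972)]) (by decide +kernel) (hi := (nat_lit 30)) (PfP.trans (PfP.trans (PfP.trans (PfP.trans (PfP.trans (PfP.trans (PfP.trans (PfP.trans (PfP.trans (PfP.trans (PfP.trans (PfP.trans (PfP.trans (PfP.trans (PfP.trans (PfP.trans (PfP.trans (PfP.trans (PfP.trans (PfP.trans (PfP.trans (PfP.trans (PfP.trans (PfP.trans (PfP.trans (PfP.trans (PfP.trans (PfP.trans (PfP.trans (pfC_sound p12_3_3_0) (pfC_sound p12_3_3_1)) (pfC_sound p12_3_3_2)) (pfC_sound p12_3_3_3)) (pfC_sound p12_3_3_4)) (pfC_sound p12_3_3_5)) (pfC_sound p12_3_3_6)) (pfC_sound p12_3_3_7)) (pfC_sound p12_3_3_8)) (pfC_sound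 p12_3_3_9)) (pfC_sound p12_3_3_10)) (pfC_sound p12_3_3_11)) (pfC_sound p12_3_3_12)) (pfC_sound p12_3_3_13)) (pfC_sound p12_3_3_14)) (pfC_sound p12_3_3_15)) (pfC_sound p12_3_3_16)) (pfC_sound p12_3_3_17)) (pfC_sound p12_3_3_18)) (pfC_sound p12_3_3_19)) (pfC_sound p12_3_3_20)) (pfC_sound p12_3_3_21)) (pfC_sound p12_3_3_22)) (pfC_sound p12_3_3_23)) (pfC_sound p12_3_3_24)) (pfC_sound p12_3_3_25)) (pfC_sound p12_3_3_26)) (pfC_sound p12_3_3_27)) (pfC_sound p12_3_3_28)) (pfC_sound p12_3_3_29)) (by decide +kernel)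

def z12_3_3 : zOK yB12_3 (nat_lit 3) (nat_lit 750) (nat_lit 960) (nat_lit 4861332) (nat_lit 2613649) = true := by decide +kernel
def g12_3_3 : gOK yB12_3.x P12_3 (nat_lit 1413) (q12_3 :: r12_3) (nat_lit 3) (nat_lit 750) (nat_lit 4) (nat_lit 960) (nat_lit 12712500) (nat_lit 12712500) (nat_lit 12712500) (nat_lit 12712500) [(nat_lit 800)] = true := by decide +kernel
def v12_3_3 : ivC P12_3 s12_3 w12_3 n12_3 (nat_lit 4) (nat_lit 4850) (nat_lit 3) (nat_lit 750) f120_1_750 f128_1_750 (nat_lit 4) (nat_lit 960) f120_1_960 f128_1_960 (nat_lit 4861332) (nat_lit 2613649) p12_3_3 = true := by decide +kernel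
/-! box `yB12_4` -/

def P12_4 : BQ := ⟨(nat_lit 8), (nat_lit 4), (nat_lit 4), (nat_lit 0), (nat_lit 8), (nat_lit 620), (nat_lit 640), (nat_lit 120), [(nat_lit 200), (nat_lit 300), (nat_lit 450), (nat_lit 800)], (nat_lit 38352000), (nat_lit 16000000), (nat_lit 16000000000)⟩
def q12_4 : PC := ⟨(nat_lit 1000), [(nat_lit 120000), (nat_lit 200000), (nat_lit 300000), (nat_lit 450000), (nat_lit 800000)], (nat_lit 340282367000166625996085689103316680705000000), (nat_lit 15961648000000), (nat_lit 15961648000000), (nat_lit 10000000)⟩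
def r12_4 : List PC := [⟨(nat_lit 1345), [(nat_lit 120545), (nat_lit 200992), (nat_lit 301957), (nat_lit 452364), (nat_lit 799402)], (nat_lit 342237969763424413124845579971719099157794253), (nat_lit 16357478359200), (nat_lit 16371024549600), (nat_lit 10065234)⟩]
def s12_4 : List PB := [⟨(nat_lit 26900), (nat_lit 1928720000000), [(nat_lit 200992), (nat_lit 301957), (nat_lit 452364), (nat_lit 799402)], (nat_lit 342237969763424413124845579971719099157794253), (nat_lit 1142257385201824), (nat_lit 1142270931392224), (nat_lit 55200)⟩]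
def n12_4 : List KN := [⟨(nat_lit 800), (nat_lit 450), (nat_lit 14064972), (nat_lit 9441761)⟩, ⟨(nat_lit 450), (nat_lit 300), (nat_lit 20874739), (nat_lit 14064972)⟩, ⟨(nat_lit 300), (nat_lit 200), (nat_lit 28473124), (nat_lit 20874739)⟩, ⟨(nat_lit 200), (nat_lit 120), (nat_lit 39633164), (nat_lit 28473124)⟩]
def w12_4 : List ℕ := [(nat_lit 55200)]
def par12_4 : parC yB12_4 P12_4 s12_4 r12_4 q12_4 n12_4 w12_4 = true := by decide +kernel

def p12_4_0 : PF := (PF.cons (PF.cons (PF.cons (PF.cons (PF.leaf (nat_lit 0) (nat_lit 67108813) (nat_lit 67108813) (nat_lit 0) [(nat_lit 0), (nat_lit 0), (nat_lit 0), (nat_lit 0)]) (PF.cons (PF.leaf (nat_lit 0) (nat_lit 67108813) (nat_lit 67108813) (nat_lit 0) [(nat_lit 0), (nat_lit 0), (nat_lit 0), (nat_lit 0)]) (PF.cons (PF.leaf (nat_lit 97481) (nat_lit 92875) (nat_lit 66923062) (nat_lit 0) [(nat_lit 92875), (nat_lit 0), (nat_lit 0), (nat_lit 0)]) (PF.cons (PF.leaf (nat_lit 186525) (nat_lit 111218) (nat_lit 66775156)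 (nat_lit 0) [(nat_lit 111218), (nat_lit 0), (nat_lit 0), (nat_lit 0)]) (PF.cons PF.nil PF.nil))))) (PF.cons (PF.cons (PF.leaf (nat_lit 211607) (nat_lit 479200) (nat_lit 66629612) (nat_lit 0) [(nat_lit 0), (nat_lit 479200), (nat_lit 0), (nat_lit 0)]) (PF.cons (PF.leaf (nat_lit 294759) (nat_lit 125671) (nat_lit 66469254) (nat_lit 0) [(nat_lit 125671), (nat_lit 513887), (nat_lit 0), (nat_lit 0)]) (PF.cons (PF.leaf (nat_lit 405641) (nat_lit 142754) (nat_lit 66272328) (nat_lit 0) [(nat_lit 142754), (nat_lit 550976), (nat_lit 0), (nat_lit 0)]) (PF.cons PF.nil PF.nil)))) (PF.cons (PF.cons (PF.leaf (nat_lit 527308) (nat_lit 595516) (nat_lit 65917780) (nat_lit 0) [(nat_lit 0), (nat_lit 595516),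
 (nat_lit 0), (nat_lit 0)]) (PF.cons PF.nil PF.nil)) (PF.cons PF.nil (PF.cons PF.nil PF.nil))))) (PF.cons (PF.cons (PF.cons (PF.leaf (nat_lit 664699) (nat_lit 1978654) (nat_lit 65130158) (nat_lit 0) [(nat_lit 0), (nat_lit 0), (nat_lit 1978654), (nat_lit 0)]) (PF.cons (PF.leaf (nat_lit 774148) (nat_lit 166996) (nat_lit 64918494) (nat_lit 0) [(nat_lit 166996), (nat_lit 0), (nat_lit 2023322), (nat_lit 0)]) (PF.cons (PF.leaf (nat_lit 909954) (nat_lit 184600) (nat_lit 64666362) (nat_lit 0) [(nat_lit 184600), (nat_lit 0), (nat_lit 2073249), (nat_lit 0)]) (PF.cons PF.nil PF.nil)))) (PF.cons (PF.cons (PF.leaf (nat_lit 1042216) (nat_lit 723184) (nat_lit 64243235) (nat_lit 0) [(nat_lit 0), (nat_lit 723184), (nat_lit 2142392), (nat_lit 0)]) (PF.cons PF.nil PF.nil)) (PF.cons PF.nil PF.nil))) (PF.cons (PF.cons (PF.cons (PF.leaf (nat_lit 1594711) (nat_lit 2358756) (nat_lit 62391300) (nat_lit 0) [(nat_lit 0), (nat_lit 0), (nat_lit 2358756), (nat_lit 0)]) (PF.cons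 PF.nil PF.nil)) (PF.cons PF.nil PF.nil)) (PF.cons PF.nil (PF.cons PF.nil PF.nil))))) (PF.cons (PF.cons (PF.cons (PF.cons (PF.leaf (nat_lit 1477848) (nat_lit 5839291) (nat_lit 61269521) (nat_lit 0) [(nat_lit 0), (nat_lit 0), (nat_lit 0),
 (nat_lit 5839291)]) (PF.cons (PF.leaf (nat_lit 1604851) (nat_lit 202659) (nat_lit 61030066) (nat_lit 0) [(nat_lit 202659), (nat_lit 0), (nat_lit 0), (nat_lit 5876087)]) (PF.cons (PF.leaf (nat_lit 1758307) (nat_lit 221510) (nat_lit 60748237) (nat_lit 0) [(nat_lit 221510), (nat_lit 0), (nat_lit 0), (nat_lit 5917553)]) (PF.cons (PF.leaf (nat_lit 1931718) (nat_lit 238629) (nat_lit 60430909) (nat_lit 0) [(nat_lit 238629), (nat_lit 0), (nat_lit 0), (nat_lit 5962016)]) (PF.cons PF.nil PF.nil))))) (PF.cons (PF.cons (PF.leaf (nat_lit 1894568) (nat_lit 843329) (nat_lit 60288927) (nat_lit 0) [(nat_lit 0), (nat_lit 843329), (nat_lit 0), (nat_lit 5976555)]) (PF.cons (PF.leaf (nat_lit 2062795) (nat_lit 246382) (nat_lit 59973332)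 (nat_lit 0) [(nat_lit 246382), (nat_lit 871492), (nat_lit 0), (nat_lit 6017605)]) (PF.cons (PF.leaf (nat_lit 2251501) (nat_lit 261841) (nat_lit 59625004) (nat_lit 0) [(nat_lit 261841), (nat_lit 899535), (nat_lit 0), (nat_lit 6060590)]) (PF.cons PF.nil PF.nil)))) (PF.cons (PF.cons (PF.leaf (nat_lit 2385470) (nat_lit 923553) (nat_lit 59150874) (nat_lit 0) [(nat_lit 0), (nat_lit 923553), (nat_lit 0), (nat_lit 6110831)]) (PF.cons (PF.leaf (nat_lit 2586608) (nat_lit 282626)
 (nat_lit 58776650) (nat_lit 0) [(nat_lit 282626), (nat_lit 949118), (nat_lit 0), (nat_lit 6151298)]) PF.nil)) (PF.cons PF.nil (PF.cons PF.nil PF.nil))))) (PF.cons (PF.cons (PF.cons (PF.leaf (nat_lit 2453923) (nat_lit 2576574) (nat_lit 58371353) (nat_lit 0) [(nat_lit 0), (nat_lit 0), (nat_lit 2576574), (nat_lit 6160884)]) (PF.cons (PF.leaf (nat_lit 2636255) (nat_lit 273956) (nat_lit 58031936) (nat_lit 0) [(nat_lit 273956), (nat_lit 0), (nat_lit 2608763), (nat_lit 6194157)]) (PF.cons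 (PF.leaf (nat_lit 2838397) (nat_lit 288669) (nat_lit 57661116) (nat_lit 0) [(nat_lit 288669), (nat_lit 0), (nat_lit 2641880), (nat_lit 6228477)]) (PF.cons PF.nil PF.nil)))) (PF.cons (PF.cons (PF.leaf (nat_lit 2972120) (nat_lit 994652) (nat_lit 57171768) (nat_lit 0) [(nat_lit 0), (nat_lit 994652), (nat_lit 2676083), (nat_lit 6266308)]) (PF.cons PF.nil PF.nil)) (PF.cons PF.nil PF.nil))) (PF.cons (PF.cons (PF.cons (PF.leaf (nat_lit 3561214) (nat_lit 2778058) (nat_lit 55176878) (nat_lit 0) [(nat_lit 0), (nat_lit 0), (nat_lit 2778058), (nat_lit 6375818)]) (PF.cons PF.nil PF.nil)) (PF.cons PF.nil PF.nil)) (PF.cons PF.nil (PF.cons PF.nil PF.nil))))) (PF.cons (PF.cons (PF.cons (PF.cons (PF.leaf (nat_lit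
 3269126) (nat_lit 6308568) (nat_lit 54491676) (nat_lit 0) [(nat_lit 0), (nat_lit 0), (nat_lit 0), (nat_lit 6308568)]) (PF.cons (PF.leaf (nat_lit 3457335) (nat_lit 294538) (nat_lit 54156598) (nat_lit 0) [(nat_lit 294538), (nat_lit 0), (nat_lit 0), (nat_lit 6328837)]) (PF.cons (PF.leaf (nat_lit 3664497) (nat_lit 308822) (nat_lit 53792507) (nat_lit 0) [(nat_lit 308822), (nat_lit 0), (nat_lit 0), (nat_lit 6349330)]) (PF.cons PF.nil PF.nil)))) (PF.cons (PF.cons (PF.leaf (nat_lit 3792268) (nat_lit 1050263) (nat_lit 53319296) (nat_lit 0) [(nat_lit 0), (nat_lit 1050263), (nat_lit 0), (nat_lit 6369626)]) (PF.cons (PF.leaf (nat_lit 4008073) (nat_lit 325217) (nat_lit 52939203) (nat_lit 0) [(nat_lit 325217), (nat_lit 1069496), (nat_lit 0), (nat_lit 6387447)]) PF.nil)) (PF.cons PF.nil PF.nil))) (PF.cons (PF.cons (PF.cons (PF.leaf (nat_lit 4357745) (nat_lit 2849537) (nat_lit 51425114) (nat_lit 0) [(nat_lit 0), (nat_lit 0), (nat_lit 2849537), (nat_lit 6417080)])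 (PF.cons PF.nil PF.nil)) (PF.cons PF.nil PF.nil)) (PF.cons PF.nil PF.nil))) (PF.cons (PF.cons (PF.cons (PF.cons (PF.leaf (nat_lit 5093143) (nat_lit 6379685) (nat_lit 47969755) (nat_lit 0) [(nat_lit 0), (nat_lit 0), (nat_lit 0), (nat_lit
 6379685)]) (PF.cons PF.nil PF.nil)) (PF.cons PF.nil PF.nil)) (PF.cons PF.nil PF.nil)) (PF.cons PF.nil (PF.cons PF.nil (PF.cons PF.nil (PF.cons PF.nil PF.nil))))))))

def p12_4_0_0 : pfC (piC [(nat_lit 39633164), (nat_lit 28473124), (nat_lit 20874739), (nat_lit 14064972)] (nat_lit 0)) p12_4_0 (nat_lit 4) (nat_lit 0) (nat_lit 2) = true := by decide +kernel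
def p12_4_0_1 : pfC (piC [(nat_lit 39633164), (nat_lit 28473124), (nat_lit 20874739), (nat_lit 14064972)] (nat_lit 0)) p12_4_0 (nat_lit 4) (nat_lit 2) (nat_lit 3) = true := by decide +kernel
def p12_4_0_2 : pfC (piC [(nat_lit 39633164), (nat_lit 28473124), (nat_lit 20874739), (nat_lit 14064972)] (nat_lit 0)) p12_4_0 (nat_lit 4) (nat_lit 3) (nat_lit 4) = true := by decide +kernel
def p12_4_0_3 : pfC (piC [(nat_lit 39633164), (nat_lit 28473124), (nat_lit 20874739), (nat_lit 14064972)] (nat_lit 0)) p12_4_0 (nat_lit 4) (nat_lit 4) (nat_lit 5) = true := by decide +kernel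
def p12_4_0_4 : pfC (piC [(nat_lit 39633164), (nat_lit 28473124), (nat_lit 20874739), (nat_lit 14064972)] (nat_lit 0)) p12_4_0 (nat_lit 4) (nat_lit 5) (nat_lit 6) = true := by decide +kernel
def p12_4_0_5 : pfC (piC [(nat_lit 39633164), (nat_lit 28473124), (nat_lit 20874739), (nat_lit 14064972)] (nat_lit 0)) p12_4_0 (nat_lit 4) (nat_lit 6) (nat_lit 7) = true := by decide +kernel
def p12_4_0_6 : pfC (piC [(nat_lit 39633164), (nat_lit 28473124), (nat_lit 20874739), (nat_lit 14064972)] (nat_lit 0)) p12_4_0 (nat_lit 4) (nat_lit 7) (nat_lit 8) = true := by decide +kernel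
def p12_4_0_7 : pfC (piC [(nat_lit 39633164), (nat_lit 28473124), (nat_lit 20874739), (nat_lit 14064972)] (nat_lit 0)) p12_4_0 (nat_lit 4) (nat_lit 8) (nat_lit 9) = true := by decide +kernel
def p12_4_0_8 : pfC (piC [(nat_lit 39633164), (nat_lit 28473124), (nat_lit 20874739), (nat_lit 14064972)] (nat_lit 0)) p12_4_0 (nat_lit 4) (nat_lit 9) (nat_lit 10) = true := by decide +kernel
def p12_4_0_9 : pfC (piC [(nat_lit 39633164), (nat_lit 28473124), (nat_lit 20874739), (nat_lit 14064972)] (nat_lit 0)) p12_4_0 (nat_lit 4) (nat_lit 10) (nat_lit 11) = true := by decide +kernel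
def p12_4_0_10 : pfC (piC [(nat_lit 39633164), (nat_lit 28473124), (nat_lit 20874739), (nat_lit 14064972)] (nat_lit 0)) p12_4_0 (nat_lit 4) (nat_lit 11) (nat_lit 12) = true := by decide +kernel
def p12_4_0_11 : pfC (piC [(nat_lit 39633164), (nat_lit 28473124), (nat_lit 20874739), (nat_lit 14064972)] (nat_lit 0)) p12_4_0 (nat_lit 4) (nat_lit 12) (nat_lit 13) = true := by decide +kernel
def p12_4_0_12 : pfC (piC [(nat_lit 39633164), (nat_lit 28473124), (nat_lit 20874739), (nat_lit 14064972)] (nat_lit 0)) p12_4_0 (nat_lit 4) (nat_lit 13) (nat_lit 14) = true := by decide +kernel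
def p12_4_0_13 : pfC (piC [(nat_lit 39633164), (nat_lit 28473124), (nat_lit 20874739), (nat_lit 14064972)] (nat_lit 0)) p12_4_0 (nat_lit 4) (nat_lit 14) (nat_lit 15) = true := by decide +kernel
def p12_4_0_14 : pfC (piC [(nat_lit 39633164), (nat_lit 28473124), (nat_lit 20874739), (nat_lit 14064972)] (nat_lit 0)) p12_4_0 (nat_lit 4) (nat_lit 15) (nat_lit 16) = true := by decide +kernel
def p12_4_0_15 : pfC (piC [(nat_lit 39633164), (nat_lit 28473124), (nat_lit 20874739), (nat_lit 14064972)] (nat_lit 0)) p12_4_0 (nat_lit 4) (nat_lit 16) (nat_lit 17) = true := by decide +kernel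
def p12_4_0_16 : pfC (piC [(nat_lit 39633164), (nat_lit 28473124), (nat_lit 20874739), (nat_lit 14064972)] (nat_lit 0)) p12_4_0 (nat_lit 4) (nat_lit 17) (nat_lit 18) = true := by decide +kernel
def p12_4_0_17 : pfC (piC [(nat_lit 39633164), (nat_lit 28473124), (nat_lit 20874739), (nat_lit 14064972)] (nat_lit 0)) p12_4_0 (nat_lit 4) (nat_lit 18) (nat_lit 19) = true := by decide +kernel
def p12_4_0_18 : pfC (piC [(nat_lit 39633164), (nat_lit 28473124), (nat_lit 20874739), (nat_lit 14064972)] (nat_lit 0)) p12_4_0 (nat_lit 4) (nat_lit 19) (nat_lit 20) = true := by decide +kernel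
def p12_4_0_19 : pfC (piC [(nat_lit 39633164), (nat_lit 28473124), (nat_lit 20874739), (nat_lit 14064972)] (nat_lit 0)) p12_4_0 (nat_lit 4) (nat_lit 20) (nat_lit 21) = true := by decide +kernel
def p12_4_0_20 : pfC (piC [(nat_lit 39633164), (nat_lit 28473124), (nat_lit 20874739), (nat_lit 14064972)] (nat_lit 0)) p12_4_0 (nat_lit 4) (nat_lit 21) (nat_lit 22) = true := by decide +kernel
def p12_4_0_21 : pfC (piC [(nat_lit 39633164), (nat_lit 28473124), (nat_lit 20874739), (nat_lit 14064972)] (nat_lit 0)) p12_4_0 (nat_lit 4) (nat_lit 22) (nat_lit 23) = true := by decide +kernel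
def p12_4_0_22 : pfC (piC [(nat_lit 39633164), (nat_lit 28473124), (nat_lit 20874739), (nat_lit 14064972)] (nat_lit 0)) p12_4_0 (nat_lit 4) (nat_lit 23) (nat_lit 24) = true := by decide +kernel
def p12_4_0_23 : pfC (piC [(nat_lit 39633164), (nat_lit 28473124), (nat_lit 20874739), (nat_lit 14064972)] (nat_lit 0)) p12_4_0 (nat_lit 4) (nat_lit 24) (nat_lit 25) = true := by decide +kernel
def p12_4_0_24 : pfC (piC [(nat_lit 39633164), (nat_lit 28473124), (nat_lit 20874739), (nat_lit 14064972)] (nat_lit 0)) p12_4_0 (nat_lit 4) (nat_lit 25) (nat_lit 26) = true := by decide +kernel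
def p12_4_0_25 : pfC (piC [(nat_lit 39633164), (nat_lit 28473124), (nat_lit 20874739), (nat_lit 14064972)] (nat_lit 0)) p12_4_0 (nat_lit 4) (nat_lit 26) (nat_lit 27) = true := by decide +kernel
def p12_4_0_26 : pfC (piC [(nat_lit 39633164), (nat_lit 28473124), (nat_lit 20874739), (nat_lit 14064972)] (nat_lit 0)) p12_4_0 (nat_lit 4) (nat_lit 27) (nat_lit 28) = true := by decide +kernel
def p12_4_0_27 : pfC (piC [(nat_lit 39633164), (nat_lit 28473124), (nat_lit 20874739), (nat_lit 14064972)] (nat_lit 0)) p12_4_0 (nat_lit 4) (nat_lit 28) (nat_lit 29) = true := by decide +kernel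
def p12_4_0_28 : pfC (piC [(nat_lit 39633164), (nat_lit 28473124), (nat_lit 20874739), (nat_lit 14064972)] (nat_lit 0)) p12_4_0 (nat_lit 4) (nat_lit 29) (nat_lit 30) = true := by decide +kernel
def p12_4_0_29 : pfC (piC [(nat_lit 39633164), (nat_lit 28473124), (nat_lit 20874739), (nat_lit 14064972)] (nat_lit 0)) p12_4_0 (nat_lit 4) (nat_lit 30) (nat_lit 31) = true := by decide +kernel
def p12_4_0_30 : pfC (piC [(nat_lit 39633164), (nat_lit 28473124), (nat_lit 20874739), (nat_lit 14064972)] (nat_lit 0)) p12_4_0 (nat_lit 4) (nat_lit 31) (nat_lit 32) = true := by decide +kernel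
def p12_4_0_31 : pfC (piC [(nat_lit 39633164), (nat_lit 28473124), (nat_lit 20874739), (nat_lit 14064972)] (nat_lit 0)) p12_4_0 (nat_lit 4) (nat_lit 32) (nat_lit 33) = true := by decide +kernel
def p12_4_0_32 : pfC (piC [(nat_lit 39633164), (nat_lit 28473124), (nat_lit 20874739), (nat_lit 14064972)] (nat_lit 0)) p12_4_0 (nat_lit 4) (nat_lit 33) (nat_lit 34) = true := by decide +kernel
theorem p12_4_0_T : PfS (PiF n12_4.reverse (nat_lit 0)) p12_4_0 (nat_lit 4) [] 0 :=
  pftab_of (los := [(nat_lit 39633164), (nat_lit 28473124), (nat_lit 20874739), (nat_lit 14064972)]) (by decide +kernel) (hi := (nat_lit 34)) (PfP.trans (PfP.trans (PfP.trans (PfP.trans (PfP.trans (PfP.trans (PfP.trans (PfP.trans (PfP.trans (PfP.trans (PfP.trans (PfP.trans (PfP.trans (PfP.trans (PfP.trans (PfP.trans (PfP.trans (PfP.trans (PfP.trans (PfP.trans (PfP.trans (PfP.trans (PfP.trans (PfP.trans (PfP.trans (PfP.trans (PfP.trans (PfP.trans (PfP.trans (PfP.trans (PfP.trans (PfP.trans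 (pfC_sound p12_4_0_0) (pfC_sound p12_4_0_1)) (pfC_sound p12_4_0_2)) (pfC_sound p12_4_0_3)) (pfC_sound p12_4_0_4)) (pfC_sound p12_4_0_5)) (pfC_sound p12_4_0_6)) (pfC_sound p12_4_0_7)) (pfC_sound p12_4_0_8)) (pfC_sound p12_4_0_9)) (pfC_sound p12_4_0_10)) (pfC_sound p12_4_0_11)) (pfC_sound p12_4_0_12)) (pfC_sound p12_4_0_13)) (pfC_sound p12_4_0_14)) (pfC_sound p12_4_0_15)) (pfC_sound p12_4_0_16)) (pfC_sound p12_4_0_17)) (pfC_sound p12_4_0_18)) (pfC_sound p12_4_0_19)) (pfC_sound p12_4_0_20)) (pfC_sound p12_4_0_21)) (pfC_sound p12_4_0_22)) (pfC_sound p12_4_0_23)) (pfC_sound p12_4_0_24)) (pfC_sound p12_4_0_25)) (pfC_sound p12_4_0_26)) (pfC_sound p12_4_0_27)) (pfC_sound p12_4_0_28)) (pfC_sound p12_4_0_29)) (pfC_sound p12_4_0_30)) (pfC_sound p12_4_0_31)) (pfC_sound p12_4_0_32)) (by decide +kernel)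

def z12_4_0 : zOK yB12_4 (nat_lit 0) (nat_lit 0) (nat_lit 400) (nat_lit 0) (nat_lit 0) = true := by decide +kernel
def g12_4_0 : gOK yB12_4.x P12_4 (nat_lit 1418) (q12_4 :: r12_4) (nat_lit 0) (nat_lit 0) (nat_lit 1) (nat_lit 400) (nat_lit 0) (nat_lit 11000000) (nat_lit 12712500) (nat_lit 12712500) [(nat_lit 800), (nat_lit 1600)] = true := by decide +kernel
def v12_4_0 : ivC P12_4 s12_4 w12_4 n12_4 (nat_lit 4) (nat_lit 5580) (nat_lit 0) (nat_lit 0) f120_1_0 f128_1_0 (nat_lit 1) (nat_lit 400) f120_1_400 f128_1_400 (nat_lit 0) (nat_lit 0) p12_4_0 = true := by decide +kernel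
def p12_4_1 : PF := (PF.cons (PF.cons (PF.cons (PF.cons (PF.leaf (nat_lit 1952719) (nat_lit 8871671) (nat_lit 58237141) (nat_lit 8871671) [(nat_lit 0), (nat_lit 0), (nat_lit 0), (nat_lit 0)]) (PF.cons (PF.leaf (nat_lit 2083224) (nat_lit 213096) (nat_lit 58000908) (nat_lit 8894808) [(nat_lit 213096), (nat_lit 0), (nat_lit 0), (nat_lit 0)]) (PF.cons (PF.leaf (nat_lit 2239670) (nat_lit 232284) (nat_lit 57723652) (nat_lit 8920590) [(nat_lit 232284), (nat_lit 0), (nat_lit 0), (nat_lit 0)]) (PF.cons PF.nil PF.nil)))) (PF.cons (PF.cons (PF.leaf (nat_lit 2373942) (nat_lit 878047) (nat_lit 57274911) (nat_lit 8955853) [(nat_lit 0), (nat_lit 878047), (nat_lit 0), (nat_lit 0)]) (PF.cons (PF.leaf (nat_lit 2544464) (nat_lit 256623) (nat_lit 56966715) (nat_lit 8980374) [(nat_lit 256623), (nat_lit 905099), (nat_lit 0), (nat_lit 0)]) PF.nil)) (PF.cons PF.nil PF.nil))) (PF.cons (PF.cons (PF.cons (PF.leaf (nat_lit 2921056) (nat_lit 2631419) (nat_lit 55425449) (nat_lit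 9051943) [(nat_lit 0), (nat_lit 0), (nat_lit 2631419), (nat_lit 0)]) (PF.cons (PF.leaf (nat_lit 3103809) (nat_lit 281722) (nat_lit 55098553) (nat_lit 9069018) [(nat_lit 281722), (nat_lit 0), (nat_lit 2659517), (nat_lit 0)]) PF.nil)) (PF.cons PF.nil
 PF.nil)) (PF.cons PF.nil PF.nil))) (PF.cons (PF.cons (PF.cons (PF.cons (PF.leaf (nat_lit 3695964) (nat_lit 6292930) (nat_lit 51765689) (nat_lit 9050192) [(nat_lit 0), (nat_lit 0), (nat_lit 0), (nat_lit 6292930)]) (PF.cons (PF.leaf (nat_lit 3882787) (nat_lit 298377) (nat_lit 51447823) (nat_lit 9055243) [(nat_lit 298377), (nat_lit 0), (nat_lit 0), (nat_lit 6307367)]) (PF.cons (PF.leaf (nat_lit 4087967) (nat_lit 312374) (nat_lit 51102943) (nat_lit 9059410) [(nat_lit 312374), (nat_lit 0), (nat_lit 0), (nat_lit 6321710)]) (PF.cons PF.nil PF.nil)))) (PF.cons (PF.cons (PF.leaf (nat_lit 4210551) (nat_lit 1058212) (nat_lit 50656523) (nat_lit 9059651) [(nat_lit 0), (nat_lit 1058212), (nat_lit 0), (nat_lit 6334425)])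 (PF.cons PF.nil PF.nil)) (PF.cons PF.nil PF.nil))) (PF.cons (PF.cons (PF.cons (PF.leaf (nat_lit 4754876) (nat_lit 2842850) (nat_lit 48879420) (nat_lit 9030861) [(nat_lit 0), (nat_lit 0), (nat_lit 2842850), (nat_lit 6355680)]) (PF.cons PF.nil PF.nil)) (PF.cons PF.nil PF.nil)) (PF.cons PF.nil PF.nil))) (PF.cons (PF.cons (PF.cons (PF.cons (PF.leaf (nat_lit 5450315) (nat_lit 6287223) (nat_lit 45669403) (nat_lit 8864961) [(nat_lit 0), (nat_lit 0), (nat_lit 0), (nat_lit 6287223)])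
 (PF.cons PF.nil PF.nil)) (PF.cons PF.nil PF.nil)) (PF.cons PF.nil PF.nil)) (PF.cons PF.nil (PF.cons PF.nil (PF.cons PF.nil PF.nil))))))

def p12_4_1_0 : pfC (piC [(nat_lit 39633164), (nat_lit 28473124), (nat_lit 20874739), (nat_lit 14064972)] (nat_lit 11744142)) p12_4_1 (nat_lit 4) (nat_lit 0) (nat_lit 1) = true := by decide +kernel
def p12_4_1_1 : pfC (piC [(nat_lit 39633164), (nat_lit 28473124), (nat_lit 20874739), (nat_lit 14064972)] (nat_lit 11744142)) p12_4_1 (nat_lit 4) (nat_lit 1) (nat_lit 2) = true := by decide +kernel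
def p12_4_1_2 : pfC (piC [(nat_lit 39633164), (nat_lit 28473124), (nat_lit 20874739), (nat_lit 14064972)] (nat_lit 11744142)) p12_4_1 (nat_lit 4) (nat_lit 2) (nat_lit 3) = true := by decide +kernel
def p12_4_1_3 : pfC (piC [(nat_lit 39633164), (nat_lit 28473124), (nat_lit 20874739), (nat_lit 14064972)] (nat_lit 11744142)) p12_4_1 (nat_lit 4) (nat_lit 3) (nat_lit 4) = true := by decide +kernel
def p12_4_1_4 : pfC (piC [(nat_lit 39633164), (nat_lit 28473124), (nat_lit 20874739), (nat_lit 14064972)] (nat_lit 11744142)) p12_4_1 (nat_lit 4) (nat_lit 4) (nat_lit 5) = true := by decide +kernel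
def p12_4_1_5 : pfC (piC [(nat_lit 39633164), (nat_lit 28473124), (nat_lit 20874739), (nat_lit 14064972)] (nat_lit 11744142)) p12_4_1 (nat_lit 4) (nat_lit 5) (nat_lit 6) = true := by decide +kernel
def p12_4_1_6 : pfC (piC [(nat_lit 39633164), (nat_lit 28473124), (nat_lit 20874739), (nat_lit 14064972)] (nat_lit 11744142)) p12_4_1 (nat_lit 4) (nat_lit 6) (nat_lit 7) = true := by decide +kernel
def p12_4_1_7 : pfC (piC [(nat_lit 39633164), (nat_lit 28473124), (nat_lit 20874739), (nat_lit 14064972)] (nat_lit 11744142)) p12_4_1 (nat_lit 4) (nat_lit 7) (nat_lit 8) = true := by decide +kernel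
def p12_4_1_8 : pfC (piC [(nat_lit 39633164), (nat_lit 28473124), (nat_lit 20874739), (nat_lit 14064972)] (nat_lit 11744142)) p12_4_1 (nat_lit 4) (nat_lit 8) (nat_lit 9) = true := by decide +kernel
def p12_4_1_9 : pfC (piC [(nat_lit 39633164), (nat_lit 28473124), (nat_lit 20874739), (nat_lit 14064972)] (nat_lit 11744142)) p12_4_1 (nat_lit 4) (nat_lit 9) (nat_lit 10) = true := by decide +kernel
def p12_4_1_10 : pfC (piC [(nat_lit 39633164), (nat_lit 28473124), (nat_lit 20874739), (nat_lit 14064972)] (nat_lit 11744142)) p12_4_1 (nat_lit 4) (nat_lit 10) (nat_lit 11) = true := by decide +kernel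
def p12_4_1_11 : pfC (piC [(nat_lit 39633164), (nat_lit 28473124), (nat_lit 20874739), (nat_lit 14064972)] (nat_lit 11744142)) p12_4_1 (nat_lit 4) (nat_lit 11) (nat_lit 12) = true := by decide +kernel
def p12_4_1_12 : pfC (piC [(nat_lit 39633164), (nat_lit 28473124), (nat_lit 20874739), (nat_lit 14064972)] (nat_lit 11744142)) p12_4_1 (nat_lit 4) (nat_lit 12) (nat_lit 13) = true := by decide +kernel
theorem p12_4_1_T : PfS (PiF n12_4.reverse (nat_lit 11744142)) p12_4_1 (nat_lit 4) [] 0 :=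
  pftab_of (los := [(nat_lit 39633164), (nat_lit 28473124), (nat_lit 20874739), (nat_lit 14064972)]) (by decide +kernel) (hi := (nat_lit 13)) (PfP.trans (PfP.trans (PfP.trans (PfP.trans (PfP.trans (PfP.trans (PfP.trans (PfP.trans (PfP.trans (PfP.trans (PfP.trans (PfP.trans (pfC_sound p12_4_1_0) (pfC_sound p12_4_1_1)) (pfC_sound p12_4_1_2)) (pfC_sound p12_4_1_3)) (pfC_sound p12_4_1_4)) (pfC_sound p12_4_1_5)) (pfC_sound p12_4_1_6)) (pfC_sound p12_4_1_7)) (pfC_sound p12_4_1_8)) (pfC_sound p12_4_1_9)) (pfC_sound p12_4_1_10)) (pfC_sound p12_4_1_11)) (pfC_sound p12_4_1_12)) (by decide +kernel)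

def z12_4_1 : zOK yB12_4 (nat_lit 1) (nat_lit 400) (nat_lit 600) (nat_lit 11744142) (nat_lit 7072463) = true := by decide +kernel
def g12_4_1 : gOK yB12_4.x P12_4 (nat_lit 1418) (q12_4 :: r12_4) (nat_lit 1) (nat_lit 400) (nat_lit 2) (nat_lit 600) (nat_lit 11000000) (nat_lit 17850000) (nat_lit 12712500) (nat_lit 12712500) [(nat_lit 800), (nat_lit 1130)] = true := by decide +kernel
def v12_4_1 : ivC P12_4 s12_4 w12_4 n12_4 (nat_lit 4) (nat_lit 5180) (nat_lit 1) (nat_lit 400) f120_1_400 f128_1_400 (nat_lit 2) (nat_lit 600) f120_1_600 f128_1_600 (nat_lit 11744142) (nat_lit 7072463) p12_4_1 = true := by decide +kernel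
def p12_4_2 : PF := (PF.cons (PF.cons (PF.cons (PF.cons (PF.leaf (nat_lit 2707109) (nat_lit 15554700) (nat_lit 51554112) (nat_lit 15554700) [(nat_lit 0), (nat_lit 0), (nat_lit 0), (nat_lit 0)]) (PF.cons (PF.leaf (nat_lit 2835333) (nat_lit 216377) (nat_lit 51349658) (nat_lit 15542776) [(nat_lit 216377), (nat_lit 0), (nat_lit 0), (nat_lit 0)]) (PF.cons (PF.leaf (nat_lit 2988602) (nat_lit 235297) (nat_lit 51110205) (nat_lit 15528012) [(nat_lit 235297), (nat_lit 0), (nat_lit 0), (nat_lit 0)]) (PF.cons (PF.leaf (nat_lit 3160782) (nat_lit 252103) (nat_lit 50842022) (nat_lit 15510479) [(nat_lit 252103), (nat_lit 0), (nat_lit 0), (nat_lit 0)]) (PF.cons PF.nil PF.nil))))) (PF.cons (PF.cons (PF.leaf (nat_lit 3114751) (nat_lit 883500) (nat_lit 50724863) (nat_lit 15500448) [(nat_lit 0), (nat_lit 883500), (nat_lit 0), (nat_lit 0)]) (PF.cons (PF.leaf (nat_lit 3280575) (nat_lit 258365) (nat_lit 50460170) (nat_lit 15481646) [(nat_lit 258365), (nat_lit 908630),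 (nat_lit 0), (nat_lit 0)]) (PF.cons (PF.leaf (nat_lit 3465388) (nat_lit 273145) (nat_lit 50169503) (nat_lit 15459880) [(nat_lit 273145), (nat_lit 933138), (nat_lit 0), (nat_lit 0)]) (PF.cons PF.nil PF.nil)))) (PF.cons (PF.cons (PF.leaf (nat_lit 3585785)
 (nat_lit 951825) (nat_lit 49778513) (nat_lit 15426647) [(nat_lit 0), (nat_lit 951825), (nat_lit 0), (nat_lit 0)]) (PF.cons PF.nil PF.nil)) (PF.cons PF.nil (PF.cons PF.nil PF.nil))))) (PF.cons (PF.cons (PF.cons (PF.leaf (nat_lit 3624273) (nat_lit 2597974) (nat_lit 49153333) (nat_lit 15357504) [(nat_lit 0), (nat_lit 0), (nat_lit 2597974), (nat_lit 0)]) (PF.cons (PF.leaf (nat_lit 3800172) (nat_lit 280221) (nat_lit 48875506) (nat_lit 15332016) [(nat_lit 280221), (nat_lit 0), (nat_lit 2621069), (nat_lit 0)]) (PF.cons PF.nil (PF.cons PF.nil PF.nil)))) (PF.cons (PF.cons (PF.leaf (nat_lit 4112287) (nat_lit 1002781) (nat_lit 48178157) (nat_lit 15261635) [(nat_lit 0), (nat_lit 1002781), (nat_lit 2666238),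 (nat_lit 0)]) (PF.cons PF.nil PF.nil)) (PF.cons PF.nil PF.nil))) (PF.cons (PF.cons (PF.cons (PF.leaf (nat_lit 4635319) (nat_lit 2724208) (nat_lit 46591765) (nat_lit 15068629) [(nat_lit 0), (nat_lit 0), (nat_lit 2724208), (nat_lit 0)]) (PF.cons PF.nil PF.nil)) (PF.cons PF.nil PF.nil)) PF.nil))) (PF.cons (PF.cons (PF.cons (PF.cons (PF.leaf (nat_lit 4320992) (nat_lit 6056440) (nat_lit 46101186) (nat_lit 14951186) [(nat_lit 0), (nat_lit 0), (nat_lit 0), (nat_lit 6056440)]) (PF.cons (PF.leaf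
 (nat_lit 4499314) (nat_lit 292372) (nat_lit 45833711) (nat_lit 14918176) [(nat_lit 292372), (nat_lit 0), (nat_lit 0), (nat_lit 6064552)]) (PF.cons (PF.leaf (nat_lit 4694961) (nat_lit 305643) (nat_lit 45543769) (nat_lit 14881474) [(nat_lit 305643), (nat_lit 0), (nat_lit 0), (nat_lit 6072281)]) (PF.cons PF.nil PF.nil)))) (PF.cons (PF.cons (PF.leaf (nat_lit 4807375) (nat_lit 1031228) (nat_lit 45169760) (nat_lit 14830742) [(nat_lit 0), (nat_lit 1031228), (nat_lit 0), (nat_lit 6077081)]) (PF.cons (PF.leaf (nat_lit 5009872) (nat_lit 319815) (nat_lit 44868608) (nat_lit 14790369) [(nat_lit 319815), (nat_lit 1047320), (nat_lit 0), (nat_lit 6082697)]) PF.nil)) (PF.cons PF.nil PF.nil))) (PF.cons (PF.cons (PF.cons (PF.leaf (nat_lit 5308837) (nat_lit 2741278) (nat_lit 43686877) (nat_lit 14608341) [(nat_lit 0), (nat_lit 0), (nat_lit 2741278), (nat_lit 6072316)]) (PF.cons PF.nil PF.nil)) (PF.cons PF.nil PF.nil)) (PF.cons PF.nil PF.nil))) (PF.cons (PF.cons (PF.cons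 (PF.cons (PF.leaf (nat_lit 5936500) (nat_lit 5978929) (nat_lit 41026969) (nat_lit 14123984) [(nat_lit 0), (nat_lit 0), (nat_lit 0), (nat_lit 5978929)]) (PF.cons PF.nil PF.nil)) (PF.cons PF.nil PF.nil)) (PF.cons PF.nil PF.nil)) (PF.cons
 PF.nil (PF.cons PF.nil (PF.cons PF.nil PF.nil))))))

def p12_4_2_0 : pfC (piC [(nat_lit 39633164), (nat_lit 28473124), (nat_lit 20874739), (nat_lit 14064972)] (nat_lit 7072463)) p12_4_2 (nat_lit 4) (nat_lit 0) (nat_lit 1) = true := by decide +kernel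
def p12_4_2_1 : pfC (piC [(nat_lit 39633164), (nat_lit 28473124), (nat_lit 20874739), (nat_lit 14064972)] (nat_lit 7072463)) p12_4_2 (nat_lit 4) (nat_lit 1) (nat_lit 2) = true := by decide +kernel
def p12_4_2_2 : pfC (piC [(nat_lit 39633164), (nat_lit 28473124), (nat_lit 20874739), (nat_lit 14064972)] (nat_lit 7072463)) p12_4_2 (nat_lit 4) (nat_lit 2) (nat_lit 3) = true := by decide +kernel
def p12_4_2_3 : pfC (piC [(nat_lit 39633164), (nat_lit 28473124), (nat_lit 20874739), (nat_lit 14064972)] (nat_lit 7072463)) p12_4_2 (nat_lit 4) (nat_lit 3) (nat_lit 4) = true := by decide +kernel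
def p12_4_2_4 : pfC (piC [(nat_lit 39633164), (nat_lit 28473124), (nat_lit 20874739), (nat_lit 14064972)] (nat_lit 7072463)) p12_4_2 (nat_lit 4) (nat_lit 4) (nat_lit 5) = true := by decide +kernel
def p12_4_2_5 : pfC (piC [(nat_lit 39633164), (nat_lit 28473124), (nat_lit 20874739), (nat_lit 14064972)] (nat_lit 7072463)) p12_4_2 (nat_lit 4) (nat_lit 5) (nat_lit 6) = true := by decide +kernel
def p12_4_2_6 : pfC (piC [(nat_lit 39633164), (nat_lit 28473124), (nat_lit 20874739), (nat_lit 14064972)] (nat_lit 7072463)) p12_4_2 (nat_lit 4) (nat_lit 6) (nat_lit 7) = true := by decide +kernel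
def p12_4_2_7 : pfC (piC [(nat_lit 39633164), (nat_lit 28473124), (nat_lit 20874739), (nat_lit 14064972)] (nat_lit 7072463)) p12_4_2 (nat_lit 4) (nat_lit 7) (nat_lit 8) = true := by decide +kernel
def p12_4_2_8 : pfC (piC [(nat_lit 39633164), (nat_lit 28473124), (nat_lit 20874739), (nat_lit 14064972)] (nat_lit 7072463)) p12_4_2 (nat_lit 4) (nat_lit 8) (nat_lit 9) = true := by decide +kernel
def p12_4_2_9 : pfC (piC [(nat_lit 39633164), (nat_lit 28473124), (nat_lit 20874739), (nat_lit 14064972)] (nat_lit 7072463)) p12_4_2 (nat_lit 4) (nat_lit 9) (nat_lit 10) = true := by decide +kernel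
def p12_4_2_10 : pfC (piC [(nat_lit 39633164), (nat_lit 28473124), (nat_lit 20874739), (nat_lit 14064972)] (nat_lit 7072463)) p12_4_2 (nat_lit 4) (nat_lit 10) (nat_lit 11) = true := by decide +kernel
def p12_4_2_11 : pfC (piC [(nat_lit 39633164), (nat_lit 28473124), (nat_lit 20874739), (nat_lit 14064972)] (nat_lit 7072463)) p12_4_2 (nat_lit 4) (nat_lit 11) (nat_lit 12) = true := by decide +kernel
def p12_4_2_12 : pfC (piC [(nat_lit 39633164), (nat_lit 28473124), (nat_lit 20874739), (nat_lit 14064972)] (nat_lit 7072463)) p12_4_2 (nat_lit 4) (nat_lit 12) (nat_lit 13) = true := by decide +kernel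
def p12_4_2_13 : pfC (piC [(nat_lit 39633164), (nat_lit 28473124), (nat_lit 20874739), (nat_lit 14064972)] (nat_lit 7072463)) p12_4_2 (nat_lit 4) (nat_lit 13) (nat_lit 14) = true := by decide +kernel
def p12_4_2_14 : pfC (piC [(nat_lit 39633164), (nat_lit 28473124), (nat_lit 20874739), (nat_lit 14064972)] (nat_lit 7072463)) p12_4_2 (nat_lit 4) (nat_lit 14) (nat_lit 15) = true := by decide +kernel
def p12_4_2_15 : pfC (piC [(nat_lit 39633164), (nat_lit 28473124), (nat_lit 20874739), (nat_lit 14064972)] (nat_lit 7072463)) p12_4_2 (nat_lit 4) (nat_lit 15) (nat_lit 16) = true := by decide +kernel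
def p12_4_2_16 : pfC (piC [(nat_lit 39633164), (nat_lit 28473124), (nat_lit 20874739), (nat_lit 14064972)] (nat_lit 7072463)) p12_4_2 (nat_lit 4) (nat_lit 16) (nat_lit 17) = true := by decide +kernel
def p12_4_2_17 : pfC (piC [(nat_lit 39633164), (nat_lit 28473124), (nat_lit 20874739), (nat_lit 14064972)] (nat_lit 7072463)) p12_4_2 (nat_lit 4) (nat_lit 17) (nat_lit 18) = true := by decide +kernel
def p12_4_2_18 : pfC (piC [(nat_lit 39633164), (nat_lit 28473124), (nat_lit 20874739), (nat_lit 14064972)] (nat_lit 7072463)) p12_4_2 (nat_lit 4) (nat_lit 18) (nat_lit 19) = true := by decide +kernel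
theorem p12_4_2_T : PfS (PiF n12_4.reverse (nat_lit 7072463)) p12_4_2 (nat_lit 4) [] 0 :=
  pftab_of (los := [(nat_lit 39633164), (nat_lit 28473124), (nat_lit 20874739), (nat_lit 14064972)]) (by decide +kernel) (hi := (nat_lit 19)) (PfP.trans (PfP.trans (PfP.trans (PfP.trans (PfP.trans (PfP.trans (PfP.trans (PfP.trans (PfP.trans (PfP.trans (PfP.trans (PfP.trans (PfP.trans (PfP.trans (PfP.trans (PfP.trans (PfP.trans (PfP.trans (pfC_sound p12_4_2_0) (pfC_sound p12_4_2_1)) (pfC_sound p12_4_2_2)) (pfC_sound p12_4_2_3)) (pfC_sound p12_4_2_4)) (pfC_sound p12_4_2_5)) (pfC_sound p12_4_2_6)) (pfC_sound p12_4_2_7)) (pfC_sound p12_4_2_8)) (pfC_sound p12_4_2_9)) (pfC_sound p12_4_2_10)) (pfC_sound p12_4_2_11)) (pfC_sound p12_4_2_12)) (pfC_sound p12_4_2_13)) (pfC_sound p12_4_2_14)) (pfC_sound p12_4_2_15)) (pfC_sound p12_4_2_16)) (pfC_sound p12_4_2_17)) (pfC_sound p12_4_2_18)) (by decide +kernel)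

def z12_4_2 : zOK yB12_4 (nat_lit 2) (nat_lit 600) (nat_lit 750) (nat_lit 7072463) (nat_lit 4910231) = true := by decide +kernel
def g12_4_2 : gOK yB12_4.x P12_4 (nat_lit 1418) (q12_4 :: r12_4) (nat_lit 2) (nat_lit 600) (nat_lit 3) (nat_lit 750) (nat_lit 12712500) (nat_lit 12712500) (nat_lit 12712500) (nat_lit 12712500) [(nat_lit 800), (nat_lit 1600)] = true := by decide +kernel
def v12_4_2 : ivC P12_4 s12_4 w12_4 n12_4 (nat_lit 4) (nat_lit 4980) (nat_lit 2) (nat_lit 600) f120_1_600 f128_1_600 (nat_lit 3) (nat_lit 750) f120_1_750 f128_1_750 (nat_lit 7072463) (nat_lit 4910231) p12_4_2 = true := by decide +kernel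
def p12_4_3 : PF := (PF.cons (PF.cons (PF.cons (PF.cons (PF.leaf (nat_lit 3120320) (nat_lit 21227841) (nat_lit 45880971) (nat_lit 21227841) [(nat_lit 0), (nat_lit 0), (nat_lit 0), (nat_lit 0)]) (PF.cons (PF.leaf (nat_lit 3242000) (nat_lit 207923) (nat_lit 45713599) (nat_lit 21187290) [(nat_lit 207923), (nat_lit 0), (nat_lit 0), (nat_lit 0)]) (PF.cons (PF.leaf (nat_lit 3387685) (nat_lit 225958) (nat_lit 45517588) (nat_lit 21139307) [(nat_lit 225958), (nat_lit 0), (nat_lit 0), (nat_lit 0)]) (PF.cons (PF.leaf (nat_lit 3551192) (nat_lit 241931) (nat_lit 45298066) (nat_lit 21084951) [(nat_lit 241931), (nat_lit 0), (nat_lit 0), (nat_lit 0)]) (PF.cons (PF.leaf (nat_lit 3729985) (nat_lit 256309) (nat_lit 45058639) (nat_lit 21024933) [(nat_lit 256309), (nat_lit 0), (nat_lit 0), (nat_lit 0)]) (PF.cons (PF.leaf (nat_lit 3922067) (nat_lit 269394) (nat_lit 44802061) (nat_lit 20959779) [(nat_lit 269394), (nat_lit 0), (nat_lit 0), (nat_lit 0)]) (PF.cons PF.nil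 PF.nil))))))) (PF.cons (PF.cons (PF.leaf (nat_lit 3506028) (nat_lit 846496) (nat_lit 45202496) (nat_lit 21059819) [(nat_lit 0), (nat_lit 846496), (nat_lit 0), (nat_lit 0)]) (PF.cons (PF.leaf (nat_lit 3663155) (nat_lit 247699) (nat_lit 44985839) (nat_lit
 21005232) [(nat_lit 247699), (nat_lit 870041), (nat_lit 0), (nat_lit 0)]) (PF.cons (PF.leaf (nat_lit 3838246) (nat_lit 261694) (nat_lit 44747911) (nat_lit 20944580) [(nat_lit 261694), (nat_lit 892930), (nat_lit 0), (nat_lit 0)]) (PF.cons (PF.leaf (nat_lit 4027493) (nat_lit 274394) (nat_lit 44492177) (nat_lit 20878577) [(nat_lit 274394), (nat_lit 914873), (nat_lit 0), (nat_lit 0)]) (PF.cons PF.nil PF.nil))))) (PF.cons (PF.cons (PF.leaf (nat_lit 3950761) (nat_lit 910025) (nat_lit 44428176) (nat_lit 20860585) [(nat_lit 0), (nat_lit 910025), (nat_lit 0), (nat_lit 0)]) (PF.cons (PF.leaf (nat_lit 4134731) (nat_lit 278763) (nat_lit 44175435) (nat_lit 20794302) [(nat_lit 278763), (nat_lit 930155), (nat_lit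 0), (nat_lit 0)]) (PF.cons (PF.leaf (nat_lit 4332851) (nat_lit 290135) (nat_lit 43906621) (nat_lit 20722927) [(nat_lit 290135), (nat_lit 949495), (nat_lit 0), (nat_lit 0)]) (PF.cons PF.nil PF.nil)))) (PF.cons (PF.cons (PF.leaf (nat_lit 4439640) (nat_lit 962461) (nat_lit 43586155) (nat_lit 20635271) [(nat_lit 0), (nat_lit 962461), (nat_lit 0), (nat_lit 0)]) (PF.cons PF.nil PF.nil)) (PF.cons PF.nil PF.nil))))) (PF.cons (PF.cons (PF.cons (PF.leaf (nat_lit 3982106) (nat_lit 2473424)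
 (nat_lit 43918754) (nat_lit 20716634) [(nat_lit 0), (nat_lit 0), (nat_lit 2473424), (nat_lit 0)]) (PF.cons (PF.leaf (nat_lit 4148359) (nat_lit 267777) (nat_lit 43691181) (nat_lit 20655585) [(nat_lit 267777), (nat_lit 0), (nat_lit 2494268), (nat_lit 0)]) (PF.cons (PF.leaf (nat_lit 4331859) (nat_lit 280800) (nat_lit 43443484) (nat_lit 20588417) [(nat_lit 280800), (nat_lit 0), (nat_lit 2515309), (nat_lit 0)]) (PF.cons (PF.leaf (nat_lit 4528487) (nat_lit 292466) (nat_lit 43179368) (nat_lit 20515977) [(nat_lit 292466), (nat_lit 0), (nat_lit 2536068), (nat_lit 0)]) (PF.cons PF.nil PF.nil))))) (PF.cons (PF.cons (PF.leaf (nat_lit 4442079) (nat_lit 955971) (nat_lit 43120092) (nat_lit 20498245) [(nat_lit 0), (nat_lit 955971), (nat_lit 2534503), (nat_lit 0)]) (PF.cons (PF.leaf (nat_lit 4632955) (nat_lit 295568) (nat_lit 42860684) (nat_lit 20426079) [(nat_lit 295568), (nat_lit 973122), (nat_lit 2553358), (nat_lit 0)]) (PF.cons (PF.leaf (nat_lit 4837068) (nat_lit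 306014) (nat_lit 42586498) (nat_lit 20348937) [(nat_lit 306014), (nat_lit 989533), (nat_lit 2571814), (nat_lit 0)]) (PF.cons PF.nil PF.nil)))) (PF.cons (PF.cons (PF.leaf (nat_lit 4940551) (nat_lit 999596) (nat_lit 42266763) (nat_lit
 20256479) [(nat_lit 0), (nat_lit 999596), (nat_lit 2586377), (nat_lit 0)]) (PF.cons PF.nil PF.nil)) PF.nil))) (PF.cons (PF.cons (PF.cons (PF.leaf (nat_lit 4930252) (nat_lit 2584478) (nat_lit 41821137) (nat_lit 20118717) [(nat_lit 0), (nat_lit 0), (nat_lit 2584478), (nat_lit 0)]) (PF.cons (PF.leaf (nat_lit 5126123) (nat_lit 309230) (nat_lit 41558910) (nat_lit 20041862) [(nat_lit 309230), (nat_lit 0), (nat_lit 2599404), (nat_lit 0)]) (PF.cons PF.nil PF.nil))) (PF.cons (PF.cons (PF.leaf (nat_lit 5434470) (nat_lit 1028348) (nat_lit 40967414) (nat_lit 19864298) [(nat_lit 0), (nat_lit 1028348), (nat_lit 2624375), (nat_lit 0)]) PF.nil) PF.nil)) (PF.cons PF.nil (PF.cons PF.nil PF.nil))))) (PF.cons (PF.cons (PF.cons (PF.cons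 (PF.leaf (nat_lit 4626282) (nat_lit 5714786) (nat_lit 41427781) (nat_lit 19966244) [(nat_lit 0), (nat_lit 0), (nat_lit 0), (nat_lit 5714786)]) (PF.cons (PF.leaf (nat_lit 4794767) (nat_lit 278379) (nat_lit 41207695) (nat_lit 19901386) [(nat_lit 278379), (nat_lit 0), (nat_lit 0), (nat_lit 5721350)]) (PF.cons (PF.leaf (nat_lit 4979823) (nat_lit 290917) (nat_lit 40969020) (nat_lit 19830425) [(nat_lit 290917), (nat_lit 0), (nat_lit 0), (nat_lit 5727531)]) (PF.cons (PF.leaf
 (nat_lit 5177288) (nat_lit 301991) (nat_lit 40715427) (nat_lit 19754326) [(nat_lit 301991), (nat_lit 0), (nat_lit 0), (nat_lit 5733084)]) (PF.cons PF.nil PF.nil))))) (PF.cons (PF.cons (PF.leaf (nat_lit 5085067) (nat_lit 980080) (nat_lit 40661275) (nat_lit 19736696) [(nat_lit 0), (nat_lit 980080), (nat_lit 0), (nat_lit 5730760)]) (PF.cons (PF.leaf (nat_lit 5276366) (nat_lit 304184) (nat_lit 40413092) (nat_lit 19661365) [(nat_lit 304184), (nat_lit 995085), (nat_lit 0), (nat_lit 5735085)])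 (PF.cons (PF.leaf (nat_lit 5480141) (nat_lit 314016) (nat_lit 40151576) (nat_lit 19581251) [(nat_lit 314016), (nat_lit 1009291), (nat_lit 0), (nat_lit 5738660)]) (PF.cons PF.nil PF.nil)))) (PF.cons (PF.cons (PF.leaf (nat_lit 5577770) (nat_lit 1016959) (nat_lit 39849879) (nat_lit 19486603) [(nat_lit 0), (nat_lit 1016959), (nat_lit 0), (nat_lit 5738412)]) (PF.cons PF.nil PF.nil)) PF.nil))) (PF.cons (PF.cons (PF.cons (PF.leaf (nat_lit 5554941) (nat_lit 2595923) (nat_lit 39440016) (nat_lit 19350223) [(nat_lit 0), (nat_lit 0), (nat_lit 2595923), (nat_lit 5722649)]) (PF.cons (PF.leaf (nat_lit 5749815) (nat_lit 315151) (nat_lit 39191612) (nat_lit 19271603) [(nat_lit 315151), (nat_lit 0), (nat_lit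
 2607016), (nat_lit 5723429)]) (PF.cons PF.nil PF.nil))) (PF.cons (PF.cons (PF.leaf (nat_lit 6050462) (nat_lit 1038035) (nat_lit 38635363) (nat_lit 19091913) [(nat_lit 0), (nat_lit 1038035), (nat_lit 2624125), (nat_lit 5719375)]) PF.nil) PF.nil)) (PF.cons PF.nil PF.nil))) (PF.cons (PF.cons (PF.cons (PF.cons (PF.leaf (nat_lit 6141336) (nat_lit 5634559) (nat_lit 37244123) (nat_lit 18595569) [(nat_lit 0), (nat_lit 0), (nat_lit 0), (nat_lit 5634559)]) (PF.cons (PF.leaf (nat_lit 6334145) (nat_lit 318274) (nat_lit 37010570) (nat_lit 18516926) [(nat_lit 318274), (nat_lit 0), (nat_lit 0), (nat_lit 5631520)]) PF.nil)) (PF.cons PF.nil PF.nil)) (PF.cons PF.nil PF.nil)) (PF.cons PF.nil (PF.cons PF.nil (PF.cons PF.nil PF.nil))))))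

def p12_4_3_0 : pfC (piC [(nat_lit 39633164), (nat_lit 28473124), (nat_lit 20874739), (nat_lit 14064972)] (nat_lit 4910231)) p12_4_3 (nat_lit 4) (nat_lit 0) (nat_lit 1) = true := by decide +kernel
def p12_4_3_1 : pfC (piC [(nat_lit 39633164), (nat_lit 28473124), (nat_lit 20874739), (nat_lit 14064972)] (nat_lit 4910231)) p12_4_3 (nat_lit 4) (nat_lit 1) (nat_lit 2) = true := by decide +kernel
def p12_4_3_2 : pfC (piC [(nat_lit 39633164), (nat_lit 28473124), (nat_lit 20874739), (nat_lit 14064972)] (nat_lit 4910231)) p12_4_3 (nat_lit 4) (nat_lit 2) (nat_lit 3) = true := by decide +kernel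
def p12_4_3_3 : pfC (piC [(nat_lit 39633164), (nat_lit 28473124), (nat_lit 20874739), (nat_lit 14064972)] (nat_lit 4910231)) p12_4_3 (nat_lit 4) (nat_lit 3) (nat_lit 4) = true := by decide +kernel
def p12_4_3_4 : pfC (piC [(nat_lit 39633164), (nat_lit 28473124), (nat_lit 20874739), (nat_lit 14064972)] (nat_lit 4910231)) p12_4_3 (nat_lit 4) (nat_lit 4) (nat_lit 5) = true := by decide +kernel
def p12_4_3_5 : pfC (piC [(nat_lit 39633164), (nat_lit 28473124), (nat_lit 20874739), (nat_lit 14064972)] (nat_lit 4910231)) p12_4_3 (nat_lit 4) (nat_lit 5) (nat_lit 6) = true := by decide +kernel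
def p12_4_3_6 : pfC (piC [(nat_lit 39633164), (nat_lit 28473124), (nat_lit 20874739), (nat_lit 14064972)] (nat_lit 4910231)) p12_4_3 (nat_lit 4) (nat_lit 6) (nat_lit 7) = true := by decide +kernel
def p12_4_3_7 : pfC (piC [(nat_lit 39633164), (nat_lit 28473124), (nat_lit 20874739), (nat_lit 14064972)] (nat_lit 4910231)) p12_4_3 (nat_lit 4) (nat_lit 7) (nat_lit 8) = true := by decide +kernel
def p12_4_3_8 : pfC (piC [(nat_lit 39633164), (nat_lit 28473124), (nat_lit 20874739), (nat_lit 14064972)] (nat_lit 4910231)) p12_4_3 (nat_lit 4) (nat_lit 8) (nat_lit 9) = true := by decide +kernel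
def p12_4_3_9 : pfC (piC [(nat_lit 39633164), (nat_lit 28473124), (nat_lit 20874739), (nat_lit 14064972)] (nat_lit 4910231)) p12_4_3 (nat_lit 4) (nat_lit 9) (nat_lit 10) = true := by decide +kernel
def p12_4_3_10 : pfC (piC [(nat_lit 39633164), (nat_lit 28473124), (nat_lit 20874739), (nat_lit 14064972)] (nat_lit 4910231)) p12_4_3 (nat_lit 4) (nat_lit 10) (nat_lit 11) = true := by decide +kernel
def p12_4_3_11 : pfC (piC [(nat_lit 39633164), (nat_lit 28473124), (nat_lit 20874739), (nat_lit 14064972)] (nat_lit 4910231)) p12_4_3 (nat_lit 4) (nat_lit 11) (nat_lit 12) = true := by decide +kernel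
def p12_4_3_12 : pfC (piC [(nat_lit 39633164), (nat_lit 28473124), (nat_lit 20874739), (nat_lit 14064972)] (nat_lit 4910231)) p12_4_3 (nat_lit 4) (nat_lit 12) (nat_lit 13) = true := by decide +kernel
def p12_4_3_13 : pfC (piC [(nat_lit 39633164), (nat_lit 28473124), (nat_lit 20874739), (nat_lit 14064972)] (nat_lit 4910231)) p12_4_3 (nat_lit 4) (nat_lit 13) (nat_lit 14) = true := by decide +kernel
def p12_4_3_14 : pfC (piC [(nat_lit 39633164), (nat_lit 28473124), (nat_lit 20874739), (nat_lit 14064972)] (nat_lit 4910231)) p12_4_3 (nat_lit 4) (nat_lit 14) (nat_lit 15) = true := by decide +kernel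
def p12_4_3_15 : pfC (piC [(nat_lit 39633164), (nat_lit 28473124), (nat_lit 20874739), (nat_lit 14064972)] (nat_lit 4910231)) p12_4_3 (nat_lit 4) (nat_lit 15) (nat_lit 16) = true := by decide +kernel
def p12_4_3_16 : pfC (piC [(nat_lit 39633164), (nat_lit 28473124), (nat_lit 20874739), (nat_lit 14064972)] (nat_lit 4910231)) p12_4_3 (nat_lit 4) (nat_lit 16) (nat_lit 17) = true := by decide +kernel
def p12_4_3_17 : pfC (piC [(nat_lit 39633164), (nat_lit 28473124), (nat_lit 20874739), (nat_lit 14064972)] (nat_lit 4910231)) p12_4_3 (nat_lit 4) (nat_lit 17) (nat_lit 18) = true := by decide +kernel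
def p12_4_3_18 : pfC (piC [(nat_lit 39633164), (nat_lit 28473124), (nat_lit 20874739), (nat_lit 14064972)] (nat_lit 4910231)) p12_4_3 (nat_lit 4) (nat_lit 18) (nat_lit 19) = true := by decide +kernel
def p12_4_3_19 : pfC (piC [(nat_lit 39633164), (nat_lit 28473124), (nat_lit 20874739), (nat_lit 14064972)] (nat_lit 4910231)) p12_4_3 (nat_lit 4) (nat_lit 19) (nat_lit 20) = true := by decide +kernel
def p12_4_3_20 : pfC (piC [(nat_lit 39633164), (nat_lit 28473124), (nat_lit 20874739), (nat_lit 14064972)] (nat_lit 4910231)) p12_4_3 (nat_lit 4) (nat_lit 20) (nat_lit 21) = true := by decide +kernel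
def p12_4_3_21 : pfC (piC [(nat_lit 39633164), (nat_lit 28473124), (nat_lit 20874739), (nat_lit 14064972)] (nat_lit 4910231)) p12_4_3 (nat_lit 4) (nat_lit 21) (nat_lit 22) = true := by decide +kernel
def p12_4_3_22 : pfC (piC [(nat_lit 39633164), (nat_lit 28473124), (nat_lit 20874739), (nat_lit 14064972)] (nat_lit 4910231)) p12_4_3 (nat_lit 4) (nat_lit 22) (nat_lit 23) = true := by decide +kernel
def p12_4_3_23 : pfC (piC [(nat_lit 39633164), (nat_lit 28473124), (nat_lit 20874739), (nat_lit 14064972)] (nat_lit 4910231)) p12_4_3 (nat_lit 4) (nat_lit 23) (nat_lit 24) = true := by decide +kernel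
def p12_4_3_24 : pfC (piC [(nat_lit 39633164), (nat_lit 28473124), (nat_lit 20874739), (nat_lit 14064972)] (nat_lit 4910231)) p12_4_3 (nat_lit 4) (nat_lit 24) (nat_lit 25) = true := by decide +kernel
def p12_4_3_25 : pfC (piC [(nat_lit 39633164), (nat_lit 28473124), (nat_lit 20874739), (nat_lit 14064972)] (nat_lit 4910231)) p12_4_3 (nat_lit 4) (nat_lit 25) (nat_lit 26) = true := by decide +kernel
def p12_4_3_26 : pfC (piC [(nat_lit 39633164), (nat_lit 28473124), (nat_lit 20874739), (nat_lit 14064972)] (nat_lit 4910231)) p12_4_3 (nat_lit 4) (nat_lit 26) (nat_lit 27) = true := by decide +kernel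
def p12_4_3_27 : pfC (piC [(nat_lit 39633164), (nat_lit 28473124), (nat_lit 20874739), (nat_lit 14064972)] (nat_lit 4910231)) p12_4_3 (nat_lit 4) (nat_lit 27) (nat_lit 28) = true := by decide +kernel
def p12_4_3_28 : pfC (piC [(nat_lit 39633164), (nat_lit 28473124), (nat_lit 20874739), (nat_lit 14064972)] (nat_lit 4910231)) p12_4_3 (nat_lit 4) (nat_lit 28) (nat_lit 29) = true := by decide +kernel
def p12_4_3_29 : pfC (piC [(nat_lit 39633164), (nat_lit 28473124), (nat_lit 20874739), (nat_lit 14064972)] (nat_lit 4910231)) p12_4_3 (nat_lit 4) (nat_lit 29) (nat_lit 30) = true := by decide +kernel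
def p12_4_3_30 : pfC (piC [(nat_lit 39633164), (nat_lit 28473124), (nat_lit 20874739), (nat_lit 14064972)] (nat_lit 4910231)) p12_4_3 (nat_lit 4) (nat_lit 30) (nat_lit 31) = true := by decide +kernel
def p12_4_3_31 : pfC (piC [(nat_lit 39633164), (nat_lit 28473124), (nat_lit 20874739), (nat_lit 14064972)] (nat_lit 4910231)) p12_4_3 (nat_lit 4) (nat_lit 31) (nat_lit 32) = true := by decide +kernel
def p12_4_3_32 : pfC (piC [(nat_lit 39633164), (nat_lit 28473124), (nat_lit 20874739), (nat_lit 14064972)] (nat_lit 4910231)) p12_4_3 (nat_lit 4) (nat_lit 32) (nat_lit 33) = true := by decide +kernel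
def p12_4_3_33 : pfC (piC [(nat_lit 39633164), (nat_lit 28473124), (nat_lit 20874739), (nat_lit 14064972)] (nat_lit 4910231)) p12_4_3 (nat_lit 4) (nat_lit 33) (nat_lit 34) = true := by decide +kernel
def p12_4_3_34 : pfC (piC [(nat_lit 39633164), (nat_lit 28473124), (nat_lit 20874739), (nat_lit 14064972)] (nat_lit 4910231)) p12_4_3 (nat_lit 4) (nat_lit 34) (nat_lit 35) = true := by decide +kernel
def p12_4_3_35 : pfC (piC [(nat_lit 39633164), (nat_lit 28473124), (nat_lit 20874739), (nat_lit 14064972)] (nat_lit 4910231)) p12_4_3 (nat_lit 4) (nat_lit 35) (nat_lit 36) = true := by decide +kernel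
def p12_4_3_36 : pfC (piC [(nat_lit 39633164), (nat_lit 28473124), (nat_lit 20874739), (nat_lit 14064972)] (nat_lit 4910231)) p12_4_3 (nat_lit 4) (nat_lit 36) (nat_lit 37) = true := by decide +kernel
def p12_4_3_37 : pfC (piC [(nat_lit 39633164), (nat_lit 28473124), (nat_lit 20874739), (nat_lit 14064972)] (nat_lit 4910231)) p12_4_3 (nat_lit 4) (nat_lit 37) (nat_lit 38) = true := by decide +kernel
theorem p12_4_3_T : PfS (PiF n12_4.reverse (nat_lit 4910231)) p12_4_3 (nat_lit 4) [] 0 :=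
  pftab_of (los := [(nat_lit 39633164), (nat_lit 28473124), (nat_lit 20874739), (nat_lit 14064972)]) (by decide +kernel) (hi := (nat_lit 38)) (PfP.trans (PfP.trans (PfP.trans (PfP.trans (PfP.trans (PfP.trans (PfP.trans (PfP.trans (PfP.trans (PfP.trans (PfP.trans (PfP.trans (PfP.trans (PfP.trans (PfP.trans (PfP.trans (PfP.trans (PfP.trans (PfP.trans (PfP.trans (PfP.trans (PfP.trans (PfP.trans (PfP.trans (PfP.trans (PfP.trans (PfP.trans (PfP.trans (PfP.trans (PfP.trans (PfP.trans (PfP.trans (PfP.trans (PfP.trans (PfP.trans (PfP.trans (PfP.trans (pfC_sound p12_4_3_0) (pfC_sound p12_4_3_1)) (pfC_sound p12_4_3_2)) (pfC_sound p12_4_3_3)) (pfC_sound p12_4_3_4)) (pfC_sound p12_4_3_5)) (pfC_sound p12_4_3_6)) (pfC_sound p12_4_3_7)) (pfC_sound p12_4_3_8)) (pfC_sound p12_4_3_9)) (pfC_sound p12_4_3_10)) (pfC_sound p12_4_3_11)) (pfC_sound p12_4_3_12)) (pfC_sound p12_4_3_13)) (pfC_sound p12_4_3_14)) (pfC_sound p12_4_3_15)) (pfC_sound p12_4_3_16)) (pfC_sound p12_4_3_17))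 (pfC_sound p12_4_3_18)) (pfC_sound p12_4_3_19)) (pfC_sound p12_4_3_20)) (pfC_sound p12_4_3_21)) (pfC_sound p12_4_3_22)) (pfC_sound p12_4_3_23)) (pfC_sound p12_4_3_24)) (pfC_sound p12_4_3_25)) (pfC_sound p12_4_3_26)) (pfC_sound p12_4_3_27)) (pfC_sound p12_4_3_28)) (pfC_sound p12_4_3_29)) (pfC_sound p12_4_3_30)) (pfC_sound p12_4_3_31)) (pfC_sound p12_4_3_32)) (pfC_sound
 p12_4_3_33)) (pfC_sound p12_4_3_34)) (pfC_sound p12_4_3_35)) (pfC_sound p12_4_3_36)) (pfC_sound p12_4_3_37)) (by decide +kernel)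

def z12_4_3 : zOK yB12_4 (nat_lit 3) (nat_lit 750) (nat_lit 960) (nat_lit 4910231) (nat_lit 2797141) = true := by decide +kernel
def g12_4_3 : gOK yB12_4.x P12_4 (nat_lit 1418) (q12_4 :: r12_4) (nat_lit 3) (nat_lit 750) (nat_lit 4) (nat_lit 960) (nat_lit 12712500) (nat_lit 12712500) (nat_lit 12712500) (nat_lit 12712500) [(nat_lit 800)] = true := by decide +kernel
def v12_4_3 : ivC P12_4 s12_4 w12_4 n12_4 (nat_lit 4) (nat_lit 4830) (nat_lit 3) (nat_lit 750) f120_1_750 f128_1_750 (nat_lit 4) (nat_lit 960) f120_1_960 f128_1_960 (nat_lit 4910231) (nat_lit 2797141) p12_4_3 = true := by decide +kernel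
/-! box `yB12_5` -/

def P12_5 : BQ := ⟨(nat_lit 8), (nat_lit 8), (nat_lit 0), (nat_lit 4), (nat_lit 4), (nat_lit 640), (nat_lit 660), (nat_lit 120), [(nat_lit 200), (nat_lit 300), (nat_lit 450), (nat_lit 800)], (nat_lit 48016000), (nat_lit 16000000), (nat_lit 16000000000)⟩
def q12_5 : PC := ⟨(nat_lit 1000), [(nat_lit 120000), (nat_lit 200000), (nat_lit 300000), (nat_lit 450000), (nat_lit 800000)], (nat_lit 340282367000166625996085689103316680705000000), (nat_lit 15951984000000), (nat_lit 15951984000000), (nat_lit 10000000)⟩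
def r12_5 : List PC := [⟨(nat_lit 1339), [(nat_lit 120549), (nat_lit 200999), (nat_lit 301888), (nat_lit 452261), (nat_lit 799558)], (nat_lit 342227761292403236955150651173863899618299243), (nat_lit 16354198383520), (nat_lit 16367347678240), (nat_lit 10062934)⟩]
def s12_5 : List PB := [⟨(nat_lit 26780), (nat_lit 1928784000000), [(nat_lit 200999), (nat_lit 301888), (nat_lit 452261), (nat_lit 799558)], (nat_lit 342227761292403236955150651173863899618299243), (nat_lit 1142254105226144), (nat_lit 1142267254520864), (nat_lit 54240)⟩]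
def n12_5 : List KN := [⟨(nat_lit 800), (nat_lit 450), (nat_lit 13943267), (nat_lit 9063406)⟩, ⟨(nat_lit 450), (nat_lit 300), (nat_lit 20794417), (nat_lit 13943267)⟩, ⟨(nat_lit 300), (nat_lit 200), (nat_lit 28134109), (nat_lit 20794417)⟩, ⟨(nat_lit 200), (nat_lit 120), (nat_lit 41351667), (nat_lit 28134109)⟩]
def w12_5 : List ℕ := [(nat_lit 54240)]
def par12_5 : parC yB12_5 P12_5 s12_5 r12_5 q12_5 n12_5 w12_5 = true := by decide +kernel

def p12_5_0 : PF := (PF.cons (PF.cons (PF.cons (PF.cons (PF.leaf (nat_lit 0) (nat_lit 67108813) (nat_lit 67108813) (nat_lit 0) [(nat_lit 0), (nat_lit 0), (nat_lit 0), (nat_lit 0)]) (PF.cons (PF.leaf (nat_lit 0) (nat_lit 67108813) (nat_lit 67108813) (nat_lit 0) [(nat_lit 0), (nat_lit 0), (nat_lit 0), (nat_lit 0)]) (PF.cons (PF.leaf (nat_lit 0) (nat_lit 67108813) (nat_lit 67108813) (nat_lit 0) [(nat_lit 0), (nat_lit 0), (nat_lit 0), (nat_lit 0)]) (PF.cons (PF.leaf (nat_lit 161679) (nat_lit 96963) (nat_lit 66817922)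 (nat_lit 0) [(nat_lit 96963), (nat_lit 0), (nat_lit 0), (nat_lit 0)]) (PF.cons (PF.leaf (nat_lit 259025) (nat_lit 112547) (nat_lit 66658624) (nat_lit 0) [(nat_lit 112547), (nat_lit 0), (nat_lit 0), (nat_lit 0)]) (PF.cons PF.nil (PF.cons PF.nil PF.nil))))))) (PF.cons (PF.cons (PF.leaf (nat_lit 219090) (nat_lit 499569) (nat_lit 66609243) (nat_lit 0) [(nat_lit 0), (nat_lit 499569), (nat_lit 0), (nat_lit 0)]) (PF.cons (PF.leaf (nat_lit 293093) (nat_lit 113543) (nat_lit 66463856) (nat_lit 0) [(nat_lit 113543), (nat_lit 531413), (nat_lit 0), (nat_lit 0)]) (PF.cons (PF.leaf (nat_lit 395178) (nat_lit 128489) (nat_lit 66286046) (nat_lit 0) [(nat_lit 128489), (nat_lit 565787), (nat_lit 0), (nat_lit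
 0)]) (PF.cons PF.nil (PF.cons PF.nil PF.nil))))) (PF.cons (PF.cons (PF.leaf (nat_lit 545600) (nat_lit 620470) (nat_lit 65867872) (nat_lit 0) [(nat_lit 0), (nat_lit 620470), (nat_lit 0), (nat_lit 0)]) (PF.cons (PF.leaf (nat_lit 663736) (nat_lit 156924) (nat_lit 65646661) (nat_lit 0) [(nat_lit 156924), (nat_lit 652613), (nat_lit 0), (nat_lit 0)]) (PF.cons PF.nil (PF.cons PF.nil PF.nil)))) (PF.cons (PF.cons (PF.leaf (nat_lit 966273) (nat_lit 731201) (nat_lit 64915207) (nat_lit 0) [(nat_lit 0), (nat_lit 731201), (nat_lit 0), (nat_lit 0)]) (PF.cons PF.nil PF.nil)) (PF.cons PF.nil PF.nil))))) (PF.cons (PF.cons (PF.cons (PF.leaf (nat_lit 674866) (nat_lit 2017820) (nat_lit 65090992) (nat_lit 0) [(nat_lit 0), (nat_lit 0), (nat_lit 2017820), (nat_lit 0)]) (PF.cons (PF.leaf (nat_lit 774190) (nat_lit 150852) (nat_lit 64899668) (nat_lit 0) [(nat_lit 150852), (nat_lit 0), (nat_lit 2058292), (nat_lit 0)]) (PF.cons (PF.leaf (nat_lit 898782) (nat_lit 166526) (nat_lit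 64671985) (nat_lit 0) [(nat_lit 166526), (nat_lit 0), (nat_lit 2103775), (nat_lit 0)]) (PF.cons PF.nil PF.nil)))) (PF.cons (PF.cons (PF.leaf (nat_lit 1063507) (nat_lit 750113) (nat_lit 64172308) (nat_lit 0) [(nat_lit 0), (nat_lit
 750113), (nat_lit 2186391), (nat_lit 0)]) (PF.cons (PF.leaf (nat_lit 1204012) (nat_lit 192713) (nat_lit 63906068) (nat_lit 0) [(nat_lit 192713), (nat_lit 778788), (nat_lit 2231241), (nat_lit 0)]) PF.nil)) (PF.cons PF.nil PF.nil))) (PF.cons (PF.cons (PF.cons (PF.leaf (nat_lit 1617629) (nat_lit 2402900) (nat_lit 62303012) (nat_lit 0) [(nat_lit 0), (nat_lit 0), (nat_lit 2402900), (nat_lit 0)]) (PF.cons (PF.leaf (nat_lit 1775853) (nat_lit 223353) (nat_lit 62003177) (nat_lit 0) [(nat_lit 223353), (nat_lit 0), (nat_lit 2441140), (nat_lit 0)]) PF.nil)) (PF.cons PF.nil PF.nil)) (PF.cons PF.nil (PF.cons PF.nil PF.nil))))) (PF.cons (PF.cons (PF.cons (PF.cons (PF.leaf (nat_lit 1525002) (nat_lit 6111447) (nat_lit 60997365) (nat_lit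 0) [(nat_lit 0), (nat_lit 0), (nat_lit 0), (nat_lit 6111447)]) (PF.cons (PF.leaf (nat_lit 1641135) (nat_lit 183816) (nat_lit 60781250) (nat_lit 0) [(nat_lit 183816), (nat_lit 0), (nat_lit 0), (nat_lit 6143746)]) (PF.cons (PF.leaf (nat_lit 1782145) (nat_lit 200817) (nat_lit 60526879) (nat_lit 0) [(nat_lit 200817), (nat_lit 0), (nat_lit 0), (nat_lit 6180299)]) (PF.cons (PF.leaf (nat_lit 1941551) (nat_lit 216235) (nat_lit 60240428) (nat_lit 0) [(nat_lit 216235),
 (nat_lit 0), (nat_lit 0), (nat_lit 6219678)]) (PF.cons (PF.leaf (nat_lit 2117205) (nat_lit 230451) (nat_lit 59926182) (nat_lit 0) [(nat_lit 230451), (nat_lit 0), (nat_lit 0), (nat_lit 6260825)]) (PF.cons PF.nil (PF.cons PF.nil PF.nil))))))) (PF.cons (PF.cons (PF.leaf (nat_lit 1953432) (nat_lit 875482) (nat_lit 59985038) (nat_lit 0) [(nat_lit 0), (nat_lit 875482), (nat_lit 0), (nat_lit 6248292)]) (PF.cons (PF.leaf (nat_lit 2109182) (nat_lit 225920) (nat_lit 59696892) (nat_lit 0) [(nat_lit 225920),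 (nat_lit 901455), (nat_lit 0), (nat_lit 6284543)]) (PF.cons (PF.leaf (nat_lit 2284289) (nat_lit 239737) (nat_lit 59379215) (nat_lit 0) [(nat_lit 239737), (nat_lit 927500), (nat_lit 0), (nat_lit 6322621)]) (PF.cons (PF.leaf (nat_lit 2474480) (nat_lit 252568) (nat_lit 59036283) (nat_lit 0) [(nat_lit 252568), (nat_lit 953210), (nat_lit 0), (nat_lit 6361613)]) (PF.cons PF.nil PF.nil))))) (PF.cons (PF.cons (PF.leaf (nat_lit 2457301) (nat_lit 957718) (nat_lit 58812387) (nat_lit 0) [(nat_lit 0), (nat_lit 957718), (nat_lit 0), (nat_lit 6380989)]) (PF.cons (PF.leaf (nat_lit 2644615) (nat_lit 260578) (nat_lit 58468985) (nat_lit 0) [(nat_lit 260578), (nat_lit 981309), (nat_lit 0), (nat_lit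
 6416630)]) (PF.cons PF.nil (PF.cons PF.nil PF.nil)))) (PF.cons (PF.cons (PF.leaf (nat_lit 3020745) (nat_lit 1029290) (nat_lit 57520451) (nat_lit 0) [(nat_lit 0), (nat_lit 1029290), (nat_lit 0), (nat_lit 6500490)]) (PF.cons PF.nil PF.nil)) (PF.cons PF.nil PF.nil))))) (PF.cons (PF.cons (PF.cons (PF.leaf (nat_lit 2512398) (nat_lit 2625381) (nat_lit 58058179) (nat_lit 0) [(nat_lit 0), (nat_lit 0), (nat_lit 2625381), (nat_lit 6425252)]) (PF.cons (PF.leaf (nat_lit 2681093) (nat_lit 250843) (nat_lit 57749152) (nat_lit 0) [(nat_lit 250843), (nat_lit 0), (nat_lit 2654436), (nat_lit 6454380)]) (PF.cons (PF.leaf (nat_lit 2868433) (nat_lit 264113) (nat_lit 57411575) (nat_lit 0) [(nat_lit 264113), (nat_lit 0), (nat_lit 2684473), (nat_lit 6484536)]) (PF.cons PF.nil PF.nil)))) (PF.cons (PF.cons (PF.leaf (nat_lit 3042704) (nat_lit 1028407) (nat_lit 56826651) (nat_lit 0) [(nat_lit 0), (nat_lit 1028407), (nat_lit 2725587), (nat_lit 6528166)]) (PF.cons (PF.leaf (nat_lit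 3240505) (nat_lit 282658) (nat_lit 56468379) (nat_lit 0) [(nat_lit 282658), (nat_lit 1048977), (nat_lit 2753314), (nat_lit 6555482)]) PF.nil)) (PF.cons PF.nil PF.nil))) (PF.cons (PF.cons (PF.cons (PF.leaf (nat_lit 3629299) (nat_lit
 2824566) (nat_lit 54830260) (nat_lit 0) [(nat_lit 0), (nat_lit 0), (nat_lit 2824566), (nat_lit 6629419)]) (PF.cons (PF.leaf (nat_lit 3834770) (nat_lit 301085) (nat_lit 54464237) (nat_lit 0) [(nat_lit 301085), (nat_lit 0), (nat_lit 2847187), (nat_lit 6649114)]) PF.nil)) (PF.cons PF.nil PF.nil)) (PF.cons PF.nil (PF.cons PF.nil PF.nil))))) (PF.cons (PF.cons (PF.cons (PF.cons (PF.leaf (nat_lit 3356157) (nat_lit 6559714) (nat_lit 53989383) (nat_lit 0) [(nat_lit 0), (nat_lit 0), (nat_lit 0), (nat_lit 6559714)]) (PF.cons (PF.leaf (nat_lit 3530171) (nat_lit 269566) (nat_lit 53686094) (nat_lit 0) [(nat_lit 269566), (nat_lit 0), (nat_lit 0), (nat_lit 6576576)]) (PF.cons (PF.leaf (nat_lit 3722036) (nat_lit 282530) (nat_lit 53356432)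 (nat_lit 0) [(nat_lit 282530), (nat_lit 0), (nat_lit 0), (nat_lit 6593659)]) (PF.cons (PF.leaf (nat_lit 3927513) (nat_lit 294166) (nat_lit 53005347) (nat_lit 0) [(nat_lit 294166), (nat_lit 0), (nat_lit 0), (nat_lit 6610482)]) (PF.cons PF.nil PF.nil))))) (PF.cons (PF.cons (PF.leaf (nat_lit 3889829) (nat_lit 1083902) (nat_lit 52793704) (nat_lit 0) [(nat_lit 0), (nat_lit 1083902), (nat_lit 0), (nat_lit 6615603)]) (PF.cons (PF.leaf (nat_lit 4090329) (nat_lit 299079)
 (nat_lit 52448045) (nat_lit 0) [(nat_lit 299079), (nat_lit 1101520), (nat_lit 0), (nat_lit 6630083)]) (PF.cons PF.nil (PF.cons PF.nil PF.nil)))) (PF.cons (PF.cons (PF.leaf (nat_lit 4466913) (nat_lit 1133809) (nat_lit 51524074) (nat_lit 0) [(nat_lit 0), (nat_lit 1133809), (nat_lit 0), (nat_lit 6658560)]) (PF.cons PF.nil PF.nil)) PF.nil))) (PF.cons (PF.cons (PF.cons (PF.leaf (nat_lit 4450484) (nat_lit 2891799) (nat_lit 50910931) (nat_lit 0) [(nat_lit 0), (nat_lit 0), (nat_lit 2891799), (nat_lit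 6653041)]) (PF.cons (PF.leaf (nat_lit 4656073) (nat_lit 313380) (nat_lit 50563982) (nat_lit 0) [(nat_lit 313380), (nat_lit 0), (nat_lit 2908011), (nat_lit 6661719)]) (PF.cons PF.nil PF.nil))) (PF.cons (PF.cons (PF.leaf (nat_lit 5032630) (nat_lit 1167612) (nat_lit 49650019) (nat_lit 0) [(nat_lit 0), (nat_lit 1167612), (nat_lit 2940379), (nat_lit 6675400)]) PF.nil) PF.nil)) (PF.cons PF.nil PF.nil))) (PF.cons (PF.cons (PF.cons (PF.cons (PF.leaf (nat_lit 5204440) (nat_lit 6593795) (nat_lit 47327426) (nat_lit 0) [(nat_lit 0), (nat_lit 0), (nat_lit 0), (nat_lit 6593795)]) (PF.cons (PF.leaf (nat_lit 5407914) (nat_lit 320332) (nat_lit 47004148) (nat_lit 0) [(nat_lit 320332), (nat_lit 0), (nat_lit 0),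
 (nat_lit 6594777)]) PF.nil)) (PF.cons PF.nil PF.nil)) (PF.cons PF.nil PF.nil)) (PF.cons PF.nil (PF.cons PF.nil (PF.cons PF.nil (PF.cons PF.nil PF.nil))))))))

def p12_5_0_0 : pfC (piC [(nat_lit 41351667), (nat_lit 28134109), (nat_lit 20794417), (nat_lit 13943267)] (nat_lit 0)) p12_5_0 (nat_lit 4) (nat_lit 0) (nat_lit 3) = true := by decide +kernel
def p12_5_0_1 : pfC (piC [(nat_lit 41351667), (nat_lit 28134109), (nat_lit 20794417), (nat_lit 13943267)] (nat_lit 0)) p12_5_0 (nat_lit 4) (nat_lit 3) (nat_lit 4) = true := by decide +kernel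
def p12_5_0_2 : pfC (piC [(nat_lit 41351667), (nat_lit 28134109), (nat_lit 20794417), (nat_lit 13943267)] (nat_lit 0)) p12_5_0 (nat_lit 4) (nat_lit 4) (nat_lit 5) = true := by decide +kernel
def p12_5_0_3 : pfC (piC [(nat_lit 41351667), (nat_lit 28134109), (nat_lit 20794417), (nat_lit 13943267)] (nat_lit 0)) p12_5_0 (nat_lit 4) (nat_lit 5) (nat_lit 6) = true := by decide +kernel
def p12_5_0_4 : pfC (piC [(nat_lit 41351667), (nat_lit 28134109), (nat_lit 20794417), (nat_lit 13943267)] (nat_lit 0)) p12_5_0 (nat_lit 4) (nat_lit 6) (nat_lit 7) = true := by decide +kernel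
def p12_5_0_5 : pfC (piC [(nat_lit 41351667), (nat_lit 28134109), (nat_lit 20794417), (nat_lit 13943267)] (nat_lit 0)) p12_5_0 (nat_lit 4) (nat_lit 7) (nat_lit 8) = true := by decide +kernel
def p12_5_0_6 : pfC (piC [(nat_lit 41351667), (nat_lit 28134109), (nat_lit 20794417), (nat_lit 13943267)] (nat_lit 0)) p12_5_0 (nat_lit 4) (nat_lit 8) (nat_lit 9) = true := by decide +kernel
def p12_5_0_7 : pfC (piC [(nat_lit 41351667), (nat_lit 28134109), (nat_lit 20794417), (nat_lit 13943267)] (nat_lit 0)) p12_5_0 (nat_lit 4) (nat_lit 9) (nat_lit 10) = true := by decide +kernel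
def p12_5_0_8 : pfC (piC [(nat_lit 41351667), (nat_lit 28134109), (nat_lit 20794417), (nat_lit 13943267)] (nat_lit 0)) p12_5_0 (nat_lit 4) (nat_lit 10) (nat_lit 11) = true := by decide +kernel
def p12_5_0_9 : pfC (piC [(nat_lit 41351667), (nat_lit 28134109), (nat_lit 20794417), (nat_lit 13943267)] (nat_lit 0)) p12_5_0 (nat_lit 4) (nat_lit 11) (nat_lit 12) = true := by decide +kernel
def p12_5_0_10 : pfC (piC [(nat_lit 41351667), (nat_lit 28134109), (nat_lit 20794417), (nat_lit 13943267)] (nat_lit 0)) p12_5_0 (nat_lit 4) (nat_lit 12) (nat_lit 13) = true := by decide +kernel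
def p12_5_0_11 : pfC (piC [(nat_lit 41351667), (nat_lit 28134109), (nat_lit 20794417), (nat_lit 13943267)] (nat_lit 0)) p12_5_0 (nat_lit 4) (nat_lit 13) (nat_lit 14) = true := by decide +kernel
def p12_5_0_12 : pfC (piC [(nat_lit 41351667), (nat_lit 28134109), (nat_lit 20794417), (nat_lit 13943267)] (nat_lit 0)) p12_5_0 (nat_lit 4) (nat_lit 14) (nat_lit 15) = true := by decide +kernel
def p12_5_0_13 : pfC (piC [(nat_lit 41351667), (nat_lit 28134109), (nat_lit 20794417), (nat_lit 13943267)] (nat_lit 0)) p12_5_0 (nat_lit 4) (nat_lit 15) (nat_lit 16) = true := by decide +kernel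
def p12_5_0_14 : pfC (piC [(nat_lit 41351667), (nat_lit 28134109), (nat_lit 20794417), (nat_lit 13943267)] (nat_lit 0)) p12_5_0 (nat_lit 4) (nat_lit 16) (nat_lit 17) = true := by decide +kernel
def p12_5_0_15 : pfC (piC [(nat_lit 41351667), (nat_lit 28134109), (nat_lit 20794417), (nat_lit 13943267)] (nat_lit 0)) p12_5_0 (nat_lit 4) (nat_lit 17) (nat_lit 18) = true := by decide +kernel
def p12_5_0_16 : pfC (piC [(nat_lit 41351667), (nat_lit 28134109), (nat_lit 20794417), (nat_lit 13943267)] (nat_lit 0)) p12_5_0 (nat_lit 4) (nat_lit 18) (nat_lit 19) = true := by decide +kernel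
def p12_5_0_17 : pfC (piC [(nat_lit 41351667), (nat_lit 28134109), (nat_lit 20794417), (nat_lit 13943267)] (nat_lit 0)) p12_5_0 (nat_lit 4) (nat_lit 19) (nat_lit 20) = true := by decide +kernel
def p12_5_0_18 : pfC (piC [(nat_lit 41351667), (nat_lit 28134109), (nat_lit 20794417), (nat_lit 13943267)] (nat_lit 0)) p12_5_0 (nat_lit 4) (nat_lit 20) (nat_lit 21) = true := by decide +kernel
def p12_5_0_19 : pfC (piC [(nat_lit 41351667), (nat_lit 28134109), (nat_lit 20794417), (nat_lit 13943267)] (nat_lit 0)) p12_5_0 (nat_lit 4) (nat_lit 21) (nat_lit 22) = true := by decide +kernel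
def p12_5_0_20 : pfC (piC [(nat_lit 41351667), (nat_lit 28134109), (nat_lit 20794417), (nat_lit 13943267)] (nat_lit 0)) p12_5_0 (nat_lit 4) (nat_lit 22) (nat_lit 23) = true := by decide +kernel
def p12_5_0_21 : pfC (piC [(nat_lit 41351667), (nat_lit 28134109), (nat_lit 20794417), (nat_lit 13943267)] (nat_lit 0)) p12_5_0 (nat_lit 4) (nat_lit 23) (nat_lit 24) = true := by decide +kernel
def p12_5_0_22 : pfC (piC [(nat_lit 41351667), (nat_lit 28134109), (nat_lit 20794417), (nat_lit 13943267)] (nat_lit 0)) p12_5_0 (nat_lit 4) (nat_lit 24) (nat_lit 25) = true := by decide +kernel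
def p12_5_0_23 : pfC (piC [(nat_lit 41351667), (nat_lit 28134109), (nat_lit 20794417), (nat_lit 13943267)] (nat_lit 0)) p12_5_0 (nat_lit 4) (nat_lit 25) (nat_lit 26) = true := by decide +kernel
def p12_5_0_24 : pfC (piC [(nat_lit 41351667), (nat_lit 28134109), (nat_lit 20794417), (nat_lit 13943267)] (nat_lit 0)) p12_5_0 (nat_lit 4) (nat_lit 26) (nat_lit 27) = true := by decide +kernel
def p12_5_0_25 : pfC (piC [(nat_lit 41351667), (nat_lit 28134109), (nat_lit 20794417), (nat_lit 13943267)] (nat_lit 0)) p12_5_0 (nat_lit 4) (nat_lit 27) (nat_lit 28) = true := by decide +kernel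
def p12_5_0_26 : pfC (piC [(nat_lit 41351667), (nat_lit 28134109), (nat_lit 20794417), (nat_lit 13943267)] (nat_lit 0)) p12_5_0 (nat_lit 4) (nat_lit 28) (nat_lit 29) = true := by decide +kernel
def p12_5_0_27 : pfC (piC [(nat_lit 41351667), (nat_lit 28134109), (nat_lit 20794417), (nat_lit 13943267)] (nat_lit 0)) p12_5_0 (nat_lit 4) (nat_lit 29) (nat_lit 30) = true := by decide +kernel
def p12_5_0_28 : pfC (piC [(nat_lit 41351667), (nat_lit 28134109), (nat_lit 20794417), (nat_lit 13943267)] (nat_lit 0)) p12_5_0 (nat_lit 4) (nat_lit 30) (nat_lit 31) = true := by decide +kernel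
def p12_5_0_29 : pfC (piC [(nat_lit 41351667), (nat_lit 28134109), (nat_lit 20794417), (nat_lit 13943267)] (nat_lit 0)) p12_5_0 (nat_lit 4) (nat_lit 31) (nat_lit 32) = true := by decide +kernel
def p12_5_0_30 : pfC (piC [(nat_lit 41351667), (nat_lit 28134109), (nat_lit 20794417), (nat_lit 13943267)] (nat_lit 0)) p12_5_0 (nat_lit 4) (nat_lit 32) (nat_lit 33) = true := by decide +kernel
def p12_5_0_31 : pfC (piC [(nat_lit 41351667), (nat_lit 28134109), (nat_lit 20794417), (nat_lit 13943267)] (nat_lit 0)) p12_5_0 (nat_lit 4) (nat_lit 33) (nat_lit 34) = true := by decide +kernel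
def p12_5_0_32 : pfC (piC [(nat_lit 41351667), (nat_lit 28134109), (nat_lit 20794417), (nat_lit 13943267)] (nat_lit 0)) p12_5_0 (nat_lit 4) (nat_lit 34) (nat_lit 35) = true := by decide +kernel
def p12_5_0_33 : pfC (piC [(nat_lit 41351667), (nat_lit 28134109), (nat_lit 20794417), (nat_lit 13943267)] (nat_lit 0)) p12_5_0 (nat_lit 4) (nat_lit 35) (nat_lit 36) = true := by decide +kernel
def p12_5_0_34 : pfC (piC [(nat_lit 41351667), (nat_lit 28134109), (nat_lit 20794417), (nat_lit 13943267)] (nat_lit 0)) p12_5_0 (nat_lit 4) (nat_lit 36) (nat_lit 37) = true := by decide +kernel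
def p12_5_0_35 : pfC (piC [(nat_lit 41351667), (nat_lit 28134109), (nat_lit 20794417), (nat_lit 13943267)] (nat_lit 0)) p12_5_0 (nat_lit 4) (nat_lit 37) (nat_lit 38) = true := by decide +kernel
def p12_5_0_36 : pfC (piC [(nat_lit 41351667), (nat_lit 28134109), (nat_lit 20794417), (nat_lit 13943267)] (nat_lit 0)) p12_5_0 (nat_lit 4) (nat_lit 38) (nat_lit 39) = true := by decide +kernel
def p12_5_0_37 : pfC (piC [(nat_lit 41351667), (nat_lit 28134109), (nat_lit 20794417), (nat_lit 13943267)] (nat_lit 0)) p12_5_0 (nat_lit 4) (nat_lit 39) (nat_lit 40) = true := by decide +kernel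
def p12_5_0_38 : pfC (piC [(nat_lit 41351667), (nat_lit 28134109), (nat_lit 20794417), (nat_lit 13943267)] (nat_lit 0)) p12_5_0 (nat_lit 4) (nat_lit 40) (nat_lit 41) = true := by decide +kernel
def p12_5_0_39 : pfC (piC [(nat_lit 41351667), (nat_lit 28134109), (nat_lit 20794417), (nat_lit 13943267)] (nat_lit 0)) p12_5_0 (nat_lit 4) (nat_lit 41) (nat_lit 42) = true := by decide +kernel
def p12_5_0_40 : pfC (piC [(nat_lit 41351667), (nat_lit 28134109), (nat_lit 20794417), (nat_lit 13943267)] (nat_lit 0)) p12_5_0 (nat_lit 4) (nat_lit 42) (nat_lit 43) = true := by decide +kernel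
def p12_5_0_41 : pfC (piC [(nat_lit 41351667), (nat_lit 28134109), (nat_lit 20794417), (nat_lit 13943267)] (nat_lit 0)) p12_5_0 (nat_lit 4) (nat_lit 43) (nat_lit 44) = true := by decide +kernel
def p12_5_0_42 : pfC (piC [(nat_lit 41351667), (nat_lit 28134109), (nat_lit 20794417), (nat_lit 13943267)] (nat_lit 0)) p12_5_0 (nat_lit 4) (nat_lit 44) (nat_lit 45) = true := by decide +kernel
def p12_5_0_43 : pfC (piC [(nat_lit 41351667), (nat_lit 28134109), (nat_lit 20794417), (nat_lit 13943267)] (nat_lit 0)) p12_5_0 (nat_lit 4) (nat_lit 45) (nat_lit 46) = true := by decide +kernel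
def p12_5_0_44 : pfC (piC [(nat_lit 41351667), (nat_lit 28134109), (nat_lit 20794417), (nat_lit 13943267)] (nat_lit 0)) p12_5_0 (nat_lit 4) (nat_lit 46) (nat_lit 47) = true := by decide +kernel
def p12_5_0_45 : pfC (piC [(nat_lit 41351667), (nat_lit 28134109), (nat_lit 20794417), (nat_lit 13943267)] (nat_lit 0)) p12_5_0 (nat_lit 4) (nat_lit 47) (nat_lit 48) = true := by decide +kernel
def p12_5_0_46 : pfC (piC [(nat_lit 41351667), (nat_lit 28134109), (nat_lit 20794417), (nat_lit 13943267)] (nat_lit 0)) p12_5_0 (nat_lit 4) (nat_lit 48) (nat_lit 49) = true := by decide +kernel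
theorem p12_5_0_T : PfS (PiF n12_5.reverse (nat_lit 0)) p12_5_0 (nat_lit 4) [] 0 :=
  pftab_of (los := [(nat_lit 41351667), (nat_lit 28134109), (nat_lit 20794417), (nat_lit 13943267)]) (by decide +kernel) (hi := (nat_lit 49)) (PfP.trans (PfP.trans (PfP.trans (PfP.trans (PfP.trans (PfP.trans (PfP.trans (PfP.trans (PfP.trans (PfP.trans (PfP.trans (PfP.trans (PfP.trans (PfP.trans (PfP.trans (PfP.trans (PfP.trans (PfP.trans (PfP.trans (PfP.trans (PfP.trans (PfP.trans (PfP.trans (PfP.trans (PfP.trans (PfP.trans (PfP.trans (PfP.trans (PfP.trans (PfP.trans (PfP.trans (PfP.trans (PfP.trans (PfP.trans (PfP.trans (PfP.trans (PfP.trans (PfP.trans (PfP.trans (PfP.trans (PfP.trans (PfP.trans (PfP.trans (PfP.trans (PfP.trans (PfP.trans (pfC_sound p12_5_0_0) (pfC_sound p12_5_0_1)) (pfC_sound p12_5_0_2)) (pfC_sound p12_5_0_3)) (pfC_sound p12_5_0_4)) (pfC_sound p12_5_0_5)) (pfC_sound p12_5_0_6)) (pfC_sound p12_5_0_7)) (pfC_sound p12_5_0_8)) (pfC_sound p12_5_0_9))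 (pfC_sound p12_5_0_10)) (pfC_sound p12_5_0_11)) (pfC_sound p12_5_0_12)) (pfC_sound p12_5_0_13)) (pfC_sound p12_5_0_14)) (pfC_sound p12_5_0_15)) (pfC_sound p12_5_0_16)) (pfC_sound p12_5_0_17)) (pfC_sound p12_5_0_18)) (pfC_sound p12_5_0_19)) (pfC_sound p12_5_0_20)) (pfC_sound p12_5_0_21)) (pfC_sound p12_5_0_22)) (pfC_sound p12_5_0_23)) (pfC_sound p12_5_0_24)) (pfC_sound p12_5_0_25)) (pfC_sound p12_5_0_26)) (pfC_sound p12_5_0_27)) (pfC_sound p12_5_0_28))
 (pfC_sound p12_5_0_29)) (pfC_sound p12_5_0_30)) (pfC_sound p12_5_0_31)) (pfC_sound p12_5_0_32)) (pfC_sound p12_5_0_33)) (pfC_sound p12_5_0_34)) (pfC_sound p12_5_0_35)) (pfC_sound p12_5_0_36)) (pfC_sound p12_5_0_37)) (pfC_sound p12_5_0_38)) (pfC_sound p12_5_0_39)) (pfC_sound p12_5_0_40)) (pfC_sound p12_5_0_41)) (pfC_sound p12_5_0_42)) (pfC_sound p12_5_0_43)) (pfC_sound p12_5_0_44)) (pfC_sound p12_5_0_45)) (pfC_sound p12_5_0_46)) (by decide +kernel)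

def z12_5_0 : zOK yB12_5 (nat_lit 0) (nat_lit 0) (nat_lit 400) (nat_lit 0) (nat_lit 0) = true := by decide +kernel
def g12_5_0 : gOK yB12_5.x P12_5 (nat_lit 1421) (q12_5 :: r12_5) (nat_lit 0) (nat_lit 0) (nat_lit 1) (nat_lit 400) (nat_lit 0) (nat_lit 11000000) (nat_lit 12712500) (nat_lit 12712500) [(nat_lit 800), (nat_lit 1600)] = true := by decide +kernel
def v12_5_0 : ivC P12_5 s12_5 w12_5 n12_5 (nat_lit 4) (nat_lit 5560) (nat_lit 0) (nat_lit 0) f128_1_0 f136_1_0 (nat_lit 1) (nat_lit 400) f128_1_400 f136_1_400 (nat_lit 0) (nat_lit 0) p12_5_0 = true := by decide +kernel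
def p12_5_1 : PF := (PF.cons (PF.cons (PF.cons (PF.cons (PF.leaf (nat_lit 1975970) (nat_lit 9038474) (nat_lit 58070338) (nat_lit 9038474) [(nat_lit 0), (nat_lit 0), (nat_lit 0), (nat_lit 0)]) (PF.cons (PF.leaf (nat_lit 2094923) (nat_lit 192410) (nat_lit 57857736) (nat_lit 9058665) [(nat_lit 192410), (nat_lit 0), (nat_lit 0), (nat_lit 0)]) (PF.cons (PF.leaf (nat_lit 2238520) (nat_lit 209730) (nat_lit 57608081) (nat_lit 9081271) [(nat_lit 209730), (nat_lit 0), (nat_lit 0), (nat_lit 0)]) (PF.cons (PF.leaf (nat_lit 2400366) (nat_lit 225288) (nat_lit 57327649) (nat_lit 9105298) [(nat_lit 225288), (nat_lit 0), (nat_lit 0), (nat_lit 0)]) (PF.cons PF.nil PF.nil))))) (PF.cons (PF.cons (PF.leaf (nat_lit 2407855) (nat_lit 907563) (nat_lit 57079674) (nat_lit 9121575) [(nat_lit 0), (nat_lit 907563), (nat_lit 0), (nat_lit 0)]) (PF.cons (PF.leaf (nat_lit 2565461) (nat_lit 234376) (nat_lit 56798906) (nat_lit 9142992) [(nat_lit 234376), (nat_lit 932537), (nat_lit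 0), (nat_lit 0)]) (PF.cons PF.nil (PF.cons PF.nil PF.nil)))) (PF.cons (PF.cons (PF.leaf (nat_lit 2911023) (nat_lit 984938) (nat_lit 55942346) (nat_lit 9196589) [(nat_lit 0), (nat_lit 984938), (nat_lit 0), (nat_lit 0)]) (PF.cons PF.nil PF.nil)) PF.nil)))
 (PF.cons (PF.cons (PF.cons (PF.leaf (nat_lit 2954238) (nat_lit 2673725) (nat_lit 55223881) (nat_lit 9211206) [(nat_lit 0), (nat_lit 0), (nat_lit 2673725), (nat_lit 0)]) (PF.cons (PF.leaf (nat_lit 3123167) (nat_lit 257182) (nat_lit 54926565) (nat_lit 9225810) [(nat_lit 257182), (nat_lit 0), (nat_lit 2699254), (nat_lit 0)]) (PF.cons PF.nil PF.nil))) (PF.cons (PF.cons (PF.leaf (nat_lit 3479154) (nat_lit 1046881) (nat_lit 54043437) (nat_lit 9258351) [(nat_lit 0), (nat_lit 1046881), (nat_lit 2760142), (nat_lit 0)]) PF.nil) PF.nil)) (PF.cons PF.nil PF.nil))) (PF.cons (PF.cons (PF.cons (PF.cons (PF.leaf (nat_lit 3757009) (nat_lit 6531675) (nat_lit 51385767) (nat_lit 9191369) [(nat_lit 0), (nat_lit 0),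 (nat_lit 0), (nat_lit 6531675)]) (PF.cons (PF.leaf (nat_lit 3929661) (nat_lit 272438) (nat_lit 51098097) (nat_lit 9194701) [(nat_lit 272438), (nat_lit 0), (nat_lit 0), (nat_lit 6543575)]) (PF.cons (PF.leaf (nat_lit 4119569) (nat_lit 285181) (nat_lit 50785787) (nat_lit 9197247) [(nat_lit 285181), (nat_lit 0), (nat_lit 0), (nat_lit 6555414)]) (PF.cons PF.nil PF.nil)))) (PF.cons (PF.cons (PF.leaf (nat_lit 4281655) (nat_lit 1089674) (nat_lit 50254605) (nat_lit 9195638) [(nat_lit 0), (nat_lit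
 1089674), (nat_lit 0), (nat_lit 6568894)]) (PF.cons (PF.leaf (nat_lit 4479549) (nat_lit 300929) (nat_lit 49928136) (nat_lit 9195274) [(nat_lit 300929), (nat_lit 1106153), (nat_lit 0), (nat_lit 6578318)]) PF.nil)) (PF.cons PF.nil PF.nil))) (PF.cons (PF.cons (PF.cons (PF.leaf (nat_lit 4821865) (nat_lit 2881139) (nat_lit 48486895) (nat_lit 9158637) [(nat_lit 0), (nat_lit 0), (nat_lit 2881139), (nat_lit 6582140)]) (PF.cons PF.nil PF.nil)) (PF.cons PF.nil PF.nil)) (PF.cons PF.nil PF.nil))) (PF.cons (PF.cons (PF.cons (PF.cons (PF.leaf (nat_lit 5536370) (nat_lit 6493845) (nat_lit 45152474) (nat_lit 8968647) [(nat_lit 0), (nat_lit 0), (nat_lit 0), (nat_lit 6493845)]) (PF.cons (PF.leaf (nat_lit 5735924) (nat_lit 318665) (nat_lit 44849806) (nat_lit 8956168) [(nat_lit 318665), (nat_lit 0), (nat_lit 0), (nat_lit 6492086)]) PF.nil)) (PF.cons PF.nil PF.nil)) (PF.cons PF.nil PF.nil)) (PF.cons PF.nil (PF.cons PF.nil (PF.cons PF.nil PF.nil))))))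

def p12_5_1_0 : pfC (piC [(nat_lit 41351667), (nat_lit 28134109), (nat_lit 20794417), (nat_lit 13943267)] (nat_lit 11488537)) p12_5_1 (nat_lit 4) (nat_lit 0) (nat_lit 1) = true := by decide +kernel
def p12_5_1_1 : pfC (piC [(nat_lit 41351667), (nat_lit 28134109), (nat_lit 20794417), (nat_lit 13943267)] (nat_lit 11488537)) p12_5_1 (nat_lit 4) (nat_lit 1) (nat_lit 2) = true := by decide +kernel
def p12_5_1_2 : pfC (piC [(nat_lit 41351667), (nat_lit 28134109), (nat_lit 20794417), (nat_lit 13943267)] (nat_lit 11488537)) p12_5_1 (nat_lit 4) (nat_lit 2) (nat_lit 3) = true := by decide +kernel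
def p12_5_1_3 : pfC (piC [(nat_lit 41351667), (nat_lit 28134109), (nat_lit 20794417), (nat_lit 13943267)] (nat_lit 11488537)) p12_5_1 (nat_lit 4) (nat_lit 3) (nat_lit 4) = true := by decide +kernel
def p12_5_1_4 : pfC (piC [(nat_lit 41351667), (nat_lit 28134109), (nat_lit 20794417), (nat_lit 13943267)] (nat_lit 11488537)) p12_5_1 (nat_lit 4) (nat_lit 4) (nat_lit 5) = true := by decide +kernel
def p12_5_1_5 : pfC (piC [(nat_lit 41351667), (nat_lit 28134109), (nat_lit 20794417), (nat_lit 13943267)] (nat_lit 11488537)) p12_5_1 (nat_lit 4) (nat_lit 5) (nat_lit 6) = true := by decide +kernel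
def p12_5_1_6 : pfC (piC [(nat_lit 41351667), (nat_lit 28134109), (nat_lit 20794417), (nat_lit 13943267)] (nat_lit 11488537)) p12_5_1 (nat_lit 4) (nat_lit 6) (nat_lit 7) = true := by decide +kernel
def p12_5_1_7 : pfC (piC [(nat_lit 41351667), (nat_lit 28134109), (nat_lit 20794417), (nat_lit 13943267)] (nat_lit 11488537)) p12_5_1 (nat_lit 4) (nat_lit 7) (nat_lit 8) = true := by decide +kernel
def p12_5_1_8 : pfC (piC [(nat_lit 41351667), (nat_lit 28134109), (nat_lit 20794417), (nat_lit 13943267)] (nat_lit 11488537)) p12_5_1 (nat_lit 4) (nat_lit 8) (nat_lit 9) = true := by decide +kernel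
def p12_5_1_9 : pfC (piC [(nat_lit 41351667), (nat_lit 28134109), (nat_lit 20794417), (nat_lit 13943267)] (nat_lit 11488537)) p12_5_1 (nat_lit 4) (nat_lit 9) (nat_lit 10) = true := by decide +kernel
def p12_5_1_10 : pfC (piC [(nat_lit 41351667), (nat_lit 28134109), (nat_lit 20794417), (nat_lit 13943267)] (nat_lit 11488537)) p12_5_1 (nat_lit 4) (nat_lit 10) (nat_lit 11) = true := by decide +kernel
def p12_5_1_11 : pfC (piC [(nat_lit 41351667), (nat_lit 28134109), (nat_lit 20794417), (nat_lit 13943267)] (nat_lit 11488537)) p12_5_1 (nat_lit 4) (nat_lit 11) (nat_lit 12) = true := by decide +kernel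
def p12_5_1_12 : pfC (piC [(nat_lit 41351667), (nat_lit 28134109), (nat_lit 20794417), (nat_lit 13943267)] (nat_lit 11488537)) p12_5_1 (nat_lit 4) (nat_lit 12) (nat_lit 13) = true := by decide +kernel
def p12_5_1_13 : pfC (piC [(nat_lit 41351667), (nat_lit 28134109), (nat_lit 20794417), (nat_lit 13943267)] (nat_lit 11488537)) p12_5_1 (nat_lit 4) (nat_lit 13) (nat_lit 14) = true := by decide +kernel
def p12_5_1_14 : pfC (piC [(nat_lit 41351667), (nat_lit 28134109), (nat_lit 20794417), (nat_lit 13943267)] (nat_lit 11488537)) p12_5_1 (nat_lit 4) (nat_lit 14) (nat_lit 15) = true := by decide +kernel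
def p12_5_1_15 : pfC (piC [(nat_lit 41351667), (nat_lit 28134109), (nat_lit 20794417), (nat_lit 13943267)] (nat_lit 11488537)) p12_5_1 (nat_lit 4) (nat_lit 15) (nat_lit 16) = true := by decide +kernel
def p12_5_1_16 : pfC (piC [(nat_lit 41351667), (nat_lit 28134109), (nat_lit 20794417), (nat_lit 13943267)] (nat_lit 11488537)) p12_5_1 (nat_lit 4) (nat_lit 16) (nat_lit 17) = true := by decide +kernel
def p12_5_1_17 : pfC (piC [(nat_lit 41351667), (nat_lit 28134109), (nat_lit 20794417), (nat_lit 13943267)] (nat_lit 11488537)) p12_5_1 (nat_lit 4) (nat_lit 17) (nat_lit 18) = true := by decide +kernel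
theorem p12_5_1_T : PfS (PiF n12_5.reverse (nat_lit 11488537)) p12_5_1 (nat_lit 4) [] 0 :=
  pftab_of (los := [(nat_lit 41351667), (nat_lit 28134109), (nat_lit 20794417), (nat_lit 13943267)]) (by decide +kernel) (hi := (nat_lit 18)) (PfP.trans (PfP.trans (PfP.trans (PfP.trans (PfP.trans (PfP.trans (PfP.trans (PfP.trans (PfP.trans (PfP.trans (PfP.trans (PfP.trans (PfP.trans (PfP.trans (PfP.trans (PfP.trans (PfP.trans (pfC_sound p12_5_1_0) (pfC_sound p12_5_1_1)) (pfC_sound p12_5_1_2)) (pfC_sound p12_5_1_3)) (pfC_sound p12_5_1_4)) (pfC_sound p12_5_1_5)) (pfC_sound p12_5_1_6)) (pfC_sound p12_5_1_7)) (pfC_sound p12_5_1_8)) (pfC_sound p12_5_1_9)) (pfC_sound p12_5_1_10)) (pfC_sound p12_5_1_11)) (pfC_sound p12_5_1_12)) (pfC_sound p12_5_1_13)) (pfC_sound p12_5_1_14)) (pfC_sound p12_5_1_15)) (pfC_sound p12_5_1_16)) (pfC_sound p12_5_1_17)) (by decide +kernel)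

def z12_5_1 : zOK yB12_5 (nat_lit 1) (nat_lit 400) (nat_lit 600) (nat_lit 11488537) (nat_lit 7113113) = true := by decide +kernel
def g12_5_1 : gOK yB12_5.x P12_5 (nat_lit 1421) (q12_5 :: r12_5) (nat_lit 1) (nat_lit 400) (nat_lit 2) (nat_lit 600) (nat_lit 11000000) (nat_lit 17850000) (nat_lit 12712500) (nat_lit 12712500) [(nat_lit 800), (nat_lit 1130)] = true := by decide +kernel
def v12_5_1 : ivC P12_5 s12_5 w12_5 n12_5 (nat_lit 4) (nat_lit 5160) (nat_lit 1) (nat_lit 400) f128_1_400 f136_1_400 (nat_lit 2) (nat_lit 600) f128_1_600 f136_1_600 (nat_lit 11488537) (nat_lit 7113113) p12_5_1 = true := by decide +kernel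
def p12_5_2 : PF := (PF.cons (PF.cons (PF.cons (PF.cons (PF.leaf (nat_lit 2695759) (nat_lit 15428130) (nat_lit 51680682) (nat_lit 15428130) [(nat_lit 0), (nat_lit 0), (nat_lit 0), (nat_lit 0)]) (PF.cons (PF.leaf (nat_lit 2812745) (nat_lit 195194) (nat_lit 51495594) (nat_lit 15418023) [(nat_lit 195194), (nat_lit 0), (nat_lit 0), (nat_lit 0)]) (PF.cons (PF.leaf (nat_lit 2953637) (nat_lit 212326) (nat_lit 51278642) (nat_lit 15405516) [(nat_lit 212326), (nat_lit 0), (nat_lit 0), (nat_lit 0)]) (PF.cons (PF.leaf (nat_lit 3111975) (nat_lit 227572) (nat_lit 51035423) (nat_lit 15390672) [(nat_lit 227572), (nat_lit 0), (nat_lit 0), (nat_lit 0)]) (PF.cons (PF.leaf (nat_lit 3285378) (nat_lit 241365) (nat_lit 50769860) (nat_lit 15373490) [(nat_lit 241365), (nat_lit 0), (nat_lit 0), (nat_lit 0)]) PF.nil))))) (PF.cons (PF.cons (PF.leaf (nat_lit 3113992) (nat_lit 912216) (nat_lit 50821950) (nat_lit 15374646) [(nat_lit 0), (nat_lit 912216), (nat_lit 0), (nat_lit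 0)]) (PF.cons (PF.leaf (nat_lit 3267451) (nat_lit 235802) (nat_lit 50579340) (nat_lit 15358203) [(nat_lit 235802), (nat_lit 935465), (nat_lit 0), (nat_lit 0)]) (PF.cons (PF.leaf (nat_lit 3438910) (nat_lit 249112) (nat_lit 50313009) (nat_lit 15339214)
 [(nat_lit 249112), (nat_lit 958363), (nat_lit 0), (nat_lit 0)]) (PF.cons PF.nil PF.nil)))) (PF.cons (PF.cons (PF.leaf (nat_lit 3596932) (nat_lit 982436) (nat_lit 49842986) (nat_lit 15300952) [(nat_lit 0), (nat_lit 982436), (nat_lit 0), (nat_lit 0)]) (PF.cons (PF.leaf (nat_lit 3778137) (nat_lit 267615) (nat_lit 49558372) (nat_lit 15277766) [(nat_lit 267615), (nat_lit 1002529), (nat_lit 0), (nat_lit 0)]) PF.nil)) (PF.cons PF.nil (PF.cons PF.nil PF.nil))))) (PF.cons (PF.cons (PF.cons (PF.leaf (nat_lit 3624006) (nat_lit 2639433) (nat_lit 49234864) (nat_lit 15234514) [(nat_lit 0), (nat_lit 0), (nat_lit 2639433), (nat_lit 0)]) (PF.cons (PF.leaf (nat_lit 3786902) (nat_lit 255784) (nat_lit 48980485) (nat_lit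 15211966) [(nat_lit 255784), (nat_lit 0), (nat_lit 2660577), (nat_lit 0)]) (PF.cons (PF.leaf (nat_lit 3966871) (nat_lit 268332) (nat_lit 48703534) (nat_lit 15186486) [(nat_lit 268332), (nat_lit 0), (nat_lit 2682126), (nat_lit 0)]) (PF.cons PF.nil PF.nil)))) (PF.cons (PF.cons (PF.leaf (nat_lit 4123610) (nat_lit 1033577) (nat_lit 48228029) (nat_lit 15138134) [(nat_lit 0), (nat_lit 1033577), (nat_lit 2709072), (nat_lit 0)]) (PF.cons (PF.leaf (nat_lit 4311888) (nat_lit 284484) (nat_lit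
 47936635) (nat_lit 15108580) [(nat_lit 284484), (nat_lit 1050752), (nat_lit 2728359), (nat_lit 0)]) PF.nil)) (PF.cons PF.nil PF.nil))) (PF.cons (PF.cons (PF.cons (PF.leaf (nat_lit 4646258) (nat_lit 2766259) (nat_lit 46629125) (nat_lit 14947168) [(nat_lit 0), (nat_lit 0), (nat_lit 2766259), (nat_lit 0)]) (PF.cons PF.nil PF.nil)) (PF.cons PF.nil PF.nil)) (PF.cons PF.nil (PF.cons PF.nil PF.nil))))) (PF.cons (PF.cons (PF.cons (PF.cons (PF.leaf (nat_lit 4348449) (nat_lit 6288310) (nat_lit 46011147) (nat_lit 14809355) [(nat_lit 0), (nat_lit 0), (nat_lit 0), (nat_lit 6288310)]) (PF.cons (PF.leaf (nat_lit 4513568) (nat_lit 267003) (nat_lit 45767347) (nat_lit 14779683) [(nat_lit 267003), (nat_lit 0), (nat_lit 0), (nat_lit 6294778)]) (PF.cons (PF.leaf (nat_lit 4695150) (nat_lit 279147) (nat_lit 45502866) (nat_lit 14746731) [(nat_lit 279147), (nat_lit 0), (nat_lit 0), (nat_lit 6300919)]) (PF.cons (PF.leaf (nat_lit 4889041) (nat_lit 289906) (nat_lit 45221753)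 (nat_lit 14710849) [(nat_lit 289906), (nat_lit 0), (nat_lit 0), (nat_lit 6306489)]) (PF.cons PF.nil PF.nil))))) (PF.cons (PF.cons (PF.leaf (nat_lit 4845335) (nat_lit 1062054) (nat_lit 45054432) (nat_lit 14686860) [(nat_lit 0), (nat_lit
 1062054), (nat_lit 0), (nat_lit 6305465)]) (PF.cons (PF.leaf (nat_lit 5033814) (nat_lit 293634) (nat_lit 44778468) (nat_lit 14650271) [(nat_lit 293634), (nat_lit 1076915), (nat_lit 0), (nat_lit 6309523)]) (PF.cons PF.nil (PF.cons PF.nil PF.nil)))) (PF.cons (PF.cons (PF.leaf (nat_lit 5378547) (nat_lit 1102374) (nat_lit 44044768) (nat_lit 14546801) [(nat_lit 0), (nat_lit 1102374), (nat_lit 0), (nat_lit 6312495)]) (PF.cons PF.nil PF.nil)) PF.nil))) (PF.cons (PF.cons (PF.cons (PF.leaf (nat_lit 5344740) (nat_lit 2780563) (nat_lit 43568124) (nat_lit 14465549) [(nat_lit 0), (nat_lit 0), (nat_lit 2780563), (nat_lit 6294574)]) (PF.cons (PF.leaf (nat_lit 5536736) (nat_lit 304476) (nat_lit 43293026) (nat_lit 14424906) [(nat_lit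 304476), (nat_lit 0), (nat_lit 2791580), (nat_lit 6294823)]) PF.nil)) (PF.cons PF.nil PF.nil)) (PF.cons PF.nil PF.nil))) (PF.cons (PF.cons (PF.cons (PF.cons (PF.leaf (nat_lit 5992630) (nat_lit 6183552) (nat_lit 40782542) (nat_lit 13959166) [(nat_lit 0), (nat_lit 0), (nat_lit 0), (nat_lit 6183552)]) (PF.cons (PF.leaf (nat_lit 6182002) (nat_lit 307450) (nat_lit 40527074) (nat_lit 13915414) [(nat_lit 307450), (nat_lit 0), (nat_lit 0), (nat_lit 6179436)]) PF.nil))
 (PF.cons PF.nil PF.nil)) (PF.cons PF.nil PF.nil)) (PF.cons PF.nil (PF.cons PF.nil (PF.cons PF.nil PF.nil))))))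

def p12_5_2_0 : pfC (piC [(nat_lit 41351667), (nat_lit 28134109), (nat_lit 20794417), (nat_lit 13943267)] (nat_lit 7113113)) p12_5_2 (nat_lit 4) (nat_lit 0) (nat_lit 1) = true := by decide +kernel
def p12_5_2_1 : pfC (piC [(nat_lit 41351667), (nat_lit 28134109), (nat_lit 20794417), (nat_lit 13943267)] (nat_lit 7113113)) p12_5_2 (nat_lit 4) (nat_lit 1) (nat_lit 2) = true := by decide +kernel
def p12_5_2_2 : pfC (piC [(nat_lit 41351667), (nat_lit 28134109), (nat_lit 20794417), (nat_lit 13943267)] (nat_lit 7113113)) p12_5_2 (nat_lit 4) (nat_lit 2) (nat_lit 3) = true := by decide +kernel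
def p12_5_2_3 : pfC (piC [(nat_lit 41351667), (nat_lit 28134109), (nat_lit 20794417), (nat_lit 13943267)] (nat_lit 7113113)) p12_5_2 (nat_lit 4) (nat_lit 3) (nat_lit 4) = true := by decide +kernel
def p12_5_2_4 : pfC (piC [(nat_lit 41351667), (nat_lit 28134109), (nat_lit 20794417), (nat_lit 13943267)] (nat_lit 7113113)) p12_5_2 (nat_lit 4) (nat_lit 4) (nat_lit 5) = true := by decide +kernel
def p12_5_2_5 : pfC (piC [(nat_lit 41351667), (nat_lit 28134109), (nat_lit 20794417), (nat_lit 13943267)] (nat_lit 7113113)) p12_5_2 (nat_lit 4) (nat_lit 5) (nat_lit 6) = true := by decide +kernel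
def p12_5_2_6 : pfC (piC [(nat_lit 41351667), (nat_lit 28134109), (nat_lit 20794417), (nat_lit 13943267)] (nat_lit 7113113)) p12_5_2 (nat_lit 4) (nat_lit 6) (nat_lit 7) = true := by decide +kernel
def p12_5_2_7 : pfC (piC [(nat_lit 41351667), (nat_lit 28134109), (nat_lit 20794417), (nat_lit 13943267)] (nat_lit 7113113)) p12_5_2 (nat_lit 4) (nat_lit 7) (nat_lit 8) = true := by decide +kernel
def p12_5_2_8 : pfC (piC [(nat_lit 41351667), (nat_lit 28134109), (nat_lit 20794417), (nat_lit 13943267)] (nat_lit 7113113)) p12_5_2 (nat_lit 4) (nat_lit 8) (nat_lit 9) = true := by decide +kernel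
def p12_5_2_9 : pfC (piC [(nat_lit 41351667), (nat_lit 28134109), (nat_lit 20794417), (nat_lit 13943267)] (nat_lit 7113113)) p12_5_2 (nat_lit 4) (nat_lit 9) (nat_lit 10) = true := by decide +kernel
def p12_5_2_10 : pfC (piC [(nat_lit 41351667), (nat_lit 28134109), (nat_lit 20794417), (nat_lit 13943267)] (nat_lit 7113113)) p12_5_2 (nat_lit 4) (nat_lit 10) (nat_lit 11) = true := by decide +kernel
def p12_5_2_11 : pfC (piC [(nat_lit 41351667), (nat_lit 28134109), (nat_lit 20794417), (nat_lit 13943267)] (nat_lit 7113113)) p12_5_2 (nat_lit 4) (nat_lit 11) (nat_lit 12) = true := by decide +kernel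
def p12_5_2_12 : pfC (piC [(nat_lit 41351667), (nat_lit 28134109), (nat_lit 20794417), (nat_lit 13943267)] (nat_lit 7113113)) p12_5_2 (nat_lit 4) (nat_lit 12) (nat_lit 13) = true := by decide +kernel
def p12_5_2_13 : pfC (piC [(nat_lit 41351667), (nat_lit 28134109), (nat_lit 20794417), (nat_lit 13943267)] (nat_lit 7113113)) p12_5_2 (nat_lit 4) (nat_lit 13) (nat_lit 14) = true := by decide +kernel
def p12_5_2_14 : pfC (piC [(nat_lit 41351667), (nat_lit 28134109), (nat_lit 20794417), (nat_lit 13943267)] (nat_lit 7113113)) p12_5_2 (nat_lit 4) (nat_lit 14) (nat_lit 15) = true := by decide +kernel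
def p12_5_2_15 : pfC (piC [(nat_lit 41351667), (nat_lit 28134109), (nat_lit 20794417), (nat_lit 13943267)] (nat_lit 7113113)) p12_5_2 (nat_lit 4) (nat_lit 15) (nat_lit 16) = true := by decide +kernel
def p12_5_2_16 : pfC (piC [(nat_lit 41351667), (nat_lit 28134109), (nat_lit 20794417), (nat_lit 13943267)] (nat_lit 7113113)) p12_5_2 (nat_lit 4) (nat_lit 16) (nat_lit 17) = true := by decide +kernel
def p12_5_2_17 : pfC (piC [(nat_lit 41351667), (nat_lit 28134109), (nat_lit 20794417), (nat_lit 13943267)] (nat_lit 7113113)) p12_5_2 (nat_lit 4) (nat_lit 17) (nat_lit 18) = true := by decide +kernel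
def p12_5_2_18 : pfC (piC [(nat_lit 41351667), (nat_lit 28134109), (nat_lit 20794417), (nat_lit 13943267)] (nat_lit 7113113)) p12_5_2 (nat_lit 4) (nat_lit 18) (nat_lit 19) = true := by decide +kernel
def p12_5_2_19 : pfC (piC [(nat_lit 41351667), (nat_lit 28134109), (nat_lit 20794417), (nat_lit 13943267)] (nat_lit 7113113)) p12_5_2 (nat_lit 4) (nat_lit 19) (nat_lit 20) = true := by decide +kernel
def p12_5_2_20 : pfC (piC [(nat_lit 41351667), (nat_lit 28134109), (nat_lit 20794417), (nat_lit 13943267)] (nat_lit 7113113)) p12_5_2 (nat_lit 4) (nat_lit 20) (nat_lit 21) = true := by decide +kernel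
def p12_5_2_21 : pfC (piC [(nat_lit 41351667), (nat_lit 28134109), (nat_lit 20794417), (nat_lit 13943267)] (nat_lit 7113113)) p12_5_2 (nat_lit 4) (nat_lit 21) (nat_lit 22) = true := by decide +kernel
def p12_5_2_22 : pfC (piC [(nat_lit 41351667), (nat_lit 28134109), (nat_lit 20794417), (nat_lit 13943267)] (nat_lit 7113113)) p12_5_2 (nat_lit 4) (nat_lit 22) (nat_lit 23) = true := by decide +kernel
def p12_5_2_23 : pfC (piC [(nat_lit 41351667), (nat_lit 28134109), (nat_lit 20794417), (nat_lit 13943267)] (nat_lit 7113113)) p12_5_2 (nat_lit 4) (nat_lit 23) (nat_lit 24) = true := by decide +kernel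
def p12_5_2_24 : pfC (piC [(nat_lit 41351667), (nat_lit 28134109), (nat_lit 20794417), (nat_lit 13943267)] (nat_lit 7113113)) p12_5_2 (nat_lit 4) (nat_lit 24) (nat_lit 25) = true := by decide +kernel
def p12_5_2_25 : pfC (piC [(nat_lit 41351667), (nat_lit 28134109), (nat_lit 20794417), (nat_lit 13943267)] (nat_lit 7113113)) p12_5_2 (nat_lit 4) (nat_lit 25) (nat_lit 26) = true := by decide +kernel
def p12_5_2_26 : pfC (piC [(nat_lit 41351667), (nat_lit 28134109), (nat_lit 20794417), (nat_lit 13943267)] (nat_lit 7113113)) p12_5_2 (nat_lit 4) (nat_lit 26) (nat_lit 27) = true := by decide +kernel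
theorem p12_5_2_T : PfS (PiF n12_5.reverse (nat_lit 7113113)) p12_5_2 (nat_lit 4) [] 0 :=
  pftab_of (los := [(nat_lit 41351667), (nat_lit 28134109), (nat_lit 20794417), (nat_lit 13943267)]) (by decide +kernel) (hi := (nat_lit 27)) (PfP.trans (PfP.trans (PfP.trans (PfP.trans (PfP.trans (PfP.trans (PfP.trans (PfP.trans (PfP.trans (PfP.trans (PfP.trans (PfP.trans (PfP.trans (PfP.trans (PfP.trans (PfP.trans (PfP.trans (PfP.trans (PfP.trans (PfP.trans (PfP.trans (PfP.trans (PfP.trans (PfP.trans (PfP.trans (PfP.trans (pfC_sound p12_5_2_0) (pfC_sound p12_5_2_1)) (pfC_sound p12_5_2_2)) (pfC_sound p12_5_2_3)) (pfC_sound p12_5_2_4)) (pfC_sound p12_5_2_5)) (pfC_sound p12_5_2_6)) (pfC_sound p12_5_2_7)) (pfC_sound p12_5_2_8)) (pfC_sound p12_5_2_9)) (pfC_sound p12_5_2_10)) (pfC_sound p12_5_2_11)) (pfC_sound p12_5_2_12)) (pfC_sound p12_5_2_13)) (pfC_sound p12_5_2_14)) (pfC_sound p12_5_2_15)) (pfC_sound p12_5_2_16)) (pfC_sound p12_5_2_17)) (pfC_sound p12_5_2_18))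 (pfC_sound p12_5_2_19)) (pfC_sound p12_5_2_20)) (pfC_sound p12_5_2_21)) (pfC_sound p12_5_2_22)) (pfC_sound p12_5_2_23)) (pfC_sound p12_5_2_24)) (pfC_sound p12_5_2_25)) (pfC_sound p12_5_2_26)) (by decide +kernel)

def z12_5_2 : zOK yB12_5 (nat_lit 2) (nat_lit 600) (nat_lit 750) (nat_lit 7113113) (nat_lit 4975805) = true := by decide +kernel
def g12_5_2 : gOK yB12_5.x P12_5 (nat_lit 1421) (q12_5 :: r12_5) (nat_lit 2) (nat_lit 600) (nat_lit 3) (nat_lit 750) (nat_lit 12712500) (nat_lit 12712500) (nat_lit 12712500) (nat_lit 12712500) [(nat_lit 800), (nat_lit 1600)] = true := by decide +kernel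
def v12_5_2 : ivC P12_5 s12_5 w12_5 n12_5 (nat_lit 4) (nat_lit 4960) (nat_lit 2) (nat_lit 600) f128_1_600 f136_1_600 (nat_lit 3) (nat_lit 750) f128_1_750 f136_1_750 (nat_lit 7113113) (nat_lit 4975805) p12_5_2 = true := by decide +kernel
def p12_5_3 : PF := (PF.cons (PF.cons (PF.cons (PF.cons (PF.leaf (nat_lit 3095572) (nat_lit 20804902) (nat_lit 46303910) (nat_lit 20804902) [(nat_lit 0), (nat_lit 0), (nat_lit 0), (nat_lit 0)]) (PF.cons (PF.leaf (nat_lit 3206912) (nat_lit 188290) (nat_lit 46150352) (nat_lit 20770170) [(nat_lit 188290), (nat_lit 0), (nat_lit 0), (nat_lit 0)]) (PF.cons (PF.leaf (nat_lit 3341395) (nat_lit 204697) (nat_lit 45970375) (nat_lit 20729043) [(nat_lit 204697), (nat_lit 0), (nat_lit 0), (nat_lit 0)]) (PF.cons (PF.leaf (nat_lit 3492388) (nat_lit 219258) (nat_lit 45768623) (nat_lit 20682415) [(nat_lit 219258), (nat_lit 0), (nat_lit 0), (nat_lit 0)]) (PF.cons (PF.leaf (nat_lit 3657592) (nat_lit 232395) (nat_lit 45548351) (nat_lit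 20630881) [(nat_lit 232395), (nat_lit 0), (nat_lit 0), (nat_lit 0)]) (PF.cons (PF.leaf (nat_lit 3835162) (nat_lit 244379) (nat_lit 45312038) (nat_lit 20574878) [(nat_lit 244379), (nat_lit 0), (nat_lit 0), (nat_lit 0)]) (PF.cons PF.nil PF.nil))))))) (PF.cons (PF.cons (PF.leaf (nat_lit 3492703) (nat_lit 877227) (nat_lit 45591921) (nat_lit 20639663) [(nat_lit 0), (nat_lit 877227), (nat_lit 0), (nat_lit 0)]) (PF.cons (PF.leaf (nat_lit 3638619) (nat_lit 226924) (nat_lit 45390700) (nat_lit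
 20592102) [(nat_lit 226924), (nat_lit 899085), (nat_lit 0), (nat_lit 0)]) (PF.cons (PF.leaf (nat_lit 3801788) (nat_lit 239587) (nat_lit 45169808) (nat_lit 20539281) [(nat_lit 239587), (nat_lit 920548), (nat_lit 0), (nat_lit 0)]) (PF.cons (PF.leaf (nat_lit 3977875) (nat_lit 251099) (nat_lit 44932403) (nat_lit 20481808) [(nat_lit 251099), (nat_lit 941301), (nat_lit 0), (nat_lit 0)]) (PF.cons (PF.leaf (nat_lit 4165353) (nat_lit 261665) (nat_lit 44680835) (nat_lit 20420120) [(nat_lit 261665), (nat_lit 961195), (nat_lit 0), (nat_lit 0)]) PF.nil))))) (PF.cons (PF.cons (PF.leaf (nat_lit 3950263) (nat_lit 942701) (nat_lit 44780339) (nat_lit 20443069) [(nat_lit 0), (nat_lit 942701), (nat_lit 0), (nat_lit 0)]) (PF.cons (PF.leaf (nat_lit 4122262) (nat_lit 256961) (nat_lit 44544261) (nat_lit 20384717) [(nat_lit 256961), (nat_lit 961436), (nat_lit 0), (nat_lit 0)]) (PF.cons (PF.leaf (nat_lit 4307701) (nat_lit 267210) (nat_lit 44293312) (nat_lit 20321922) [(nat_lit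 267210), (nat_lit 979578), (nat_lit 0), (nat_lit 0)]) (PF.cons PF.nil PF.nil)))) (PF.cons (PF.cons (PF.leaf (nat_lit 4452815) (nat_lit 996571) (nat_lit 43899020) (nat_lit 20220079) [(nat_lit 0), (nat_lit 996571), (nat_lit 0),
 (nat_lit 0)]) (PF.cons (PF.leaf (nat_lit 4645046) (nat_lit 281271) (nat_lit 43637393) (nat_lit 20152494) [(nat_lit 281271), (nat_lit 1012551), (nat_lit 0), (nat_lit 0)]) PF.nil)) (PF.cons PF.nil (PF.cons PF.nil PF.nil)))))) (PF.cons (PF.cons (PF.cons (PF.leaf (nat_lit 3970899) (nat_lit 2522355) (nat_lit 44278409) (nat_lit 20308048) [(nat_lit 0), (nat_lit 0), (nat_lit 2522355), (nat_lit 0)]) (PF.cons (PF.leaf (nat_lit 4125373) (nat_lit 245347) (nat_lit 44067335) (nat_lit 20254633) [(nat_lit 245347), (nat_lit 0), (nat_lit 2541496), (nat_lit 0)]) (PF.cons (PF.leaf (nat_lit 4296369) (nat_lit 257256) (nat_lit 43837499) (nat_lit 20195848) [(nat_lit 257256), (nat_lit 0), (nat_lit 2560952), (nat_lit 0)]) (PF.cons (PF.leaf (nat_lit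 4479588) (nat_lit 267935) (nat_lit 43592297) (nat_lit 20132424) [(nat_lit 267935), (nat_lit 0), (nat_lit 2580284), (nat_lit 0)]) (PF.cons PF.nil PF.nil))))) (PF.cons (PF.cons (PF.leaf (nat_lit 4443427) (nat_lit 988912) (nat_lit 43443160) (nat_lit 20091934) [(nat_lit 0), (nat_lit 988912), (nat_lit 2584805), (nat_lit 0)]) (PF.cons (PF.leaf (nat_lit 4621887) (nat_lit 272386) (nat_lit 43201212) (nat_lit 20028192) [(nat_lit 272386), (nat_lit 1004890), (nat_lit
 2602131), (nat_lit 0)]) (PF.cons (PF.leaf (nat_lit 4812963) (nat_lit 281885) (nat_lit 42945480) (nat_lit 19960065) [(nat_lit 281885), (nat_lit 1020299), (nat_lit 2619197), (nat_lit 0)]) (PF.cons PF.nil PF.nil)))) (PF.cons (PF.cons (PF.leaf (nat_lit 4955125) (nat_lit 1033690) (nat_lit 42551839) (nat_lit 19852110) [(nat_lit 0), (nat_lit 1033690), (nat_lit 2637481), (nat_lit 0)]) (PF.cons PF.nil PF.nil)) (PF.cons PF.nil (PF.cons PF.nil PF.nil))))) (PF.cons (PF.cons (PF.cons (PF.leaf (nat_lit 4932885)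 (nat_lit 2634123) (nat_lit 42117307) (nat_lit 19723258) [(nat_lit 0), (nat_lit 0), (nat_lit 2634123), (nat_lit 0)]) (PF.cons (PF.leaf (nat_lit 5116007) (nat_lit 284945) (nat_lit 41873020) (nat_lit 19655193) [(nat_lit 284945), (nat_lit 0), (nat_lit 2647826), (nat_lit 0)]) (PF.cons (PF.leaf (nat_lit 5311146) (nat_lit 293783) (nat_lit 41615951) (nat_lit 19582838) [(nat_lit 293783), (nat_lit 0), (nat_lit 2661228), (nat_lit 0)]) (PF.cons PF.nil PF.nil)))) (PF.cons (PF.cons (PF.leaf (nat_lit 5449882) (nat_lit 1062330) (nat_lit 41227088) (nat_lit 19470425) [(nat_lit 0), (nat_lit 1062330), (nat_lit 2674484), (nat_lit 0)]) (PF.cons PF.nil PF.nil)) (PF.cons PF.nil PF.nil))) (PF.cons (PF.cons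
 (PF.cons (PF.leaf (nat_lit 5935448) (nat_lit 2698476) (nat_lit 39933668) (nat_lit 19079714) [(nat_lit 0), (nat_lit 0), (nat_lit 2698476), (nat_lit 0)]) (PF.cons PF.nil PF.nil)) (PF.cons PF.nil PF.nil)) (PF.cons PF.nil PF.nil))))) (PF.cons (PF.cons (PF.cons (PF.cons (PF.leaf (nat_lit 4642950) (nat_lit 5954824) (nat_lit 41613673) (nat_lit 19540314) [(nat_lit 0), (nat_lit 0), (nat_lit 0), (nat_lit 5954824)]) (PF.cons (PF.leaf (nat_lit 4799566) (nat_lit 255144) (nat_lit 41410521) (nat_lit 19483206) [(nat_lit 255144), (nat_lit 0), (nat_lit 0), (nat_lit 5959940)]) (PF.cons (PF.leaf (nat_lit 4971872) (nat_lit 266667) (nat_lit 41190059) (nat_lit 19420699) [(nat_lit 266667), (nat_lit 0), (nat_lit 0), (nat_lit 5964719)]) (PF.cons (PF.leaf (nat_lit 5155874) (nat_lit 276859) (nat_lit 40955640) (nat_lit 19353635) [(nat_lit 276859), (nat_lit 0), (nat_lit 0), (nat_lit 5968958)]) (PF.cons PF.nil PF.nil))))) (PF.cons (PF.cons (PF.leaf (nat_lit 5113265) (nat_lit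 1012944) (nat_lit 40816391) (nat_lit 19312038) [(nat_lit 0), (nat_lit 1012944), (nat_lit 0), (nat_lit 5967438)]) (PF.cons (PF.leaf (nat_lit 5291982) (nat_lit 280287) (nat_lit 40586108) (nat_lit 19245193) [(nat_lit 280287), (nat_lit
 1026848), (nat_lit 0), (nat_lit 5970375)]) (PF.cons (PF.leaf (nat_lit 5482608) (nat_lit 289266) (nat_lit 40343401) (nat_lit 19174109) [(nat_lit 289266), (nat_lit 1040117), (nat_lit 0), (nat_lit 5972652)]) (PF.cons PF.nil PF.nil)))) (PF.cons (PF.cons (PF.leaf (nat_lit 5617838) (nat_lit 1050444) (nat_lit 39973666) (nat_lit 19063110) [(nat_lit 0), (nat_lit 1050444), (nat_lit 0), (nat_lit 5971145)]) (PF.cons (PF.leaf (nat_lit 5812993) (nat_lit 299979) (nat_lit 39724800) (nat_lit 18988552) [(nat_lit 299979), (nat_lit 1062000), (nat_lit 0), (nat_lit 5971480)]) PF.nil)) (PF.cons PF.nil (PF.cons PF.nil PF.nil))))) (PF.cons (PF.cons (PF.cons (PF.leaf (nat_lit 5582817) (nat_lit 2642700) (nat_lit 39577024) (nat_lit 18935610) [(nat_lit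 0), (nat_lit 0), (nat_lit 2642700), (nat_lit 5953476)]) (PF.cons (PF.leaf (nat_lit 5764837) (nat_lit 290295) (nat_lit 39346830) (nat_lit 18865776) [(nat_lit 290295), (nat_lit 0), (nat_lit 2652744), (nat_lit 5953166)]) (PF.cons (PF.leaf (nat_lit 5958210) (nat_lit 298645) (nat_lit 39105125) (nat_lit 18791843) [(nat_lit 298645), (nat_lit 0), (nat_lit 2662432), (nat_lit 5952120)]) (PF.cons PF.nil PF.nil)))) (PF.cons (PF.cons (PF.leaf (nat_lit 6089689) (nat_lit
 1071022) (nat_lit 38742725) (nat_lit 18678405) [(nat_lit 0), (nat_lit 1071022), (nat_lit 2670617), (nat_lit 5946041)]) (PF.cons PF.nil PF.nil)) (PF.cons PF.nil PF.nil))) (PF.cons (PF.cons (PF.cons (PF.leaf (nat_lit 6551658) (nat_lit 2681047) (nat_lit 37547611) (nat_lit 18290454) [(nat_lit 0), (nat_lit 0), (nat_lit 2681047), (nat_lit 5908651)]) (PF.cons PF.nil PF.nil)) (PF.cons PF.nil PF.nil)) PF.nil))) (PF.cons (PF.cons (PF.cons (PF.cons (PF.leaf (nat_lit 6190135) (nat_lit 5848472) (nat_lit 37249168)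 (nat_lit 18162698) [(nat_lit 0), (nat_lit 0), (nat_lit 0), (nat_lit 5848472)]) (PF.cons (PF.leaf (nat_lit 6369997) (nat_lit 292910) (nat_lit 37033905) (nat_lit 18092832) [(nat_lit 292910), (nat_lit 0), (nat_lit 0), (nat_lit 5844582)]) (PF.cons PF.nil PF.nil))) (PF.cons (PF.cons (PF.leaf (nat_lit 6685307) (nat_lit 1071183) (nat_lit 36472509) (nat_lit 17907098) [(nat_lit 0), (nat_lit 1071183), (nat_lit 0), (nat_lit 5829011)]) PF.nil) PF.nil)) (PF.cons PF.nil PF.nil)) (PF.cons PF.nil (PF.cons PF.nil (PF.cons PF.nil PF.nil))))))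

def p12_5_3_0 : pfC (piC [(nat_lit 41351667), (nat_lit 28134109), (nat_lit 20794417), (nat_lit 13943267)] (nat_lit 4975805)) p12_5_3 (nat_lit 4) (nat_lit 0) (nat_lit 1) = true := by decide +kernel
def p12_5_3_1 : pfC (piC [(nat_lit 41351667), (nat_lit 28134109), (nat_lit 20794417), (nat_lit 13943267)] (nat_lit 4975805)) p12_5_3 (nat_lit 4) (nat_lit 1) (nat_lit 2) = true := by decide +kernel
def p12_5_3_2 : pfC (piC [(nat_lit 41351667), (nat_lit 28134109), (nat_lit 20794417), (nat_lit 13943267)] (nat_lit 4975805)) p12_5_3 (nat_lit 4) (nat_lit 2) (nat_lit 3) = true := by decide +kernel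
def p12_5_3_3 : pfC (piC [(nat_lit 41351667), (nat_lit 28134109), (nat_lit 20794417), (nat_lit 13943267)] (nat_lit 4975805)) p12_5_3 (nat_lit 4) (nat_lit 3) (nat_lit 4) = true := by decide +kernel
def p12_5_3_4 : pfC (piC [(nat_lit 41351667), (nat_lit 28134109), (nat_lit 20794417), (nat_lit 13943267)] (nat_lit 4975805)) p12_5_3 (nat_lit 4) (nat_lit 4) (nat_lit 5) = true := by decide +kernel
def p12_5_3_5 : pfC (piC [(nat_lit 41351667), (nat_lit 28134109), (nat_lit 20794417), (nat_lit 13943267)] (nat_lit 4975805)) p12_5_3 (nat_lit 4) (nat_lit 5) (nat_lit 6) = true := by decide +kernel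
def p12_5_3_6 : pfC (piC [(nat_lit 41351667), (nat_lit 28134109), (nat_lit 20794417), (nat_lit 13943267)] (nat_lit 4975805)) p12_5_3 (nat_lit 4) (nat_lit 6) (nat_lit 7) = true := by decide +kernel
def p12_5_3_7 : pfC (piC [(nat_lit 41351667), (nat_lit 28134109), (nat_lit 20794417), (nat_lit 13943267)] (nat_lit 4975805)) p12_5_3 (nat_lit 4) (nat_lit 7) (nat_lit 8) = true := by decide +kernel
def p12_5_3_8 : pfC (piC [(nat_lit 41351667), (nat_lit 28134109), (nat_lit 20794417), (nat_lit 13943267)] (nat_lit 4975805)) p12_5_3 (nat_lit 4) (nat_lit 8) (nat_lit 9) = true := by decide +kernel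
def p12_5_3_9 : pfC (piC [(nat_lit 41351667), (nat_lit 28134109), (nat_lit 20794417), (nat_lit 13943267)] (nat_lit 4975805)) p12_5_3 (nat_lit 4) (nat_lit 9) (nat_lit 10) = true := by decide +kernel
def p12_5_3_10 : pfC (piC [(nat_lit 41351667), (nat_lit 28134109), (nat_lit 20794417), (nat_lit 13943267)] (nat_lit 4975805)) p12_5_3 (nat_lit 4) (nat_lit 10) (nat_lit 11) = true := by decide +kernel
def p12_5_3_11 : pfC (piC [(nat_lit 41351667), (nat_lit 28134109), (nat_lit 20794417), (nat_lit 13943267)] (nat_lit 4975805)) p12_5_3 (nat_lit 4) (nat_lit 11) (nat_lit 12) = true := by decide +kernel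
def p12_5_3_12 : pfC (piC [(nat_lit 41351667), (nat_lit 28134109), (nat_lit 20794417), (nat_lit 13943267)] (nat_lit 4975805)) p12_5_3 (nat_lit 4) (nat_lit 12) (nat_lit 13) = true := by decide +kernel
def p12_5_3_13 : pfC (piC [(nat_lit 41351667), (nat_lit 28134109), (nat_lit 20794417), (nat_lit 13943267)] (nat_lit 4975805)) p12_5_3 (nat_lit 4) (nat_lit 13) (nat_lit 14) = true := by decide +kernel
def p12_5_3_14 : pfC (piC [(nat_lit 41351667), (nat_lit 28134109), (nat_lit 20794417), (nat_lit 13943267)] (nat_lit 4975805)) p12_5_3 (nat_lit 4) (nat_lit 14) (nat_lit 15) = true := by decide +kernel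
def p12_5_3_15 : pfC (piC [(nat_lit 41351667), (nat_lit 28134109), (nat_lit 20794417), (nat_lit 13943267)] (nat_lit 4975805)) p12_5_3 (nat_lit 4) (nat_lit 15) (nat_lit 16) = true := by decide +kernel
def p12_5_3_16 : pfC (piC [(nat_lit 41351667), (nat_lit 28134109), (nat_lit 20794417), (nat_lit 13943267)] (nat_lit 4975805)) p12_5_3 (nat_lit 4) (nat_lit 16) (nat_lit 17) = true := by decide +kernel
def p12_5_3_17 : pfC (piC [(nat_lit 41351667), (nat_lit 28134109), (nat_lit 20794417), (nat_lit 13943267)] (nat_lit 4975805)) p12_5_3 (nat_lit 4) (nat_lit 17) (nat_lit 18) = true := by decide +kernel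
def p12_5_3_18 : pfC (piC [(nat_lit 41351667), (nat_lit 28134109), (nat_lit 20794417), (nat_lit 13943267)] (nat_lit 4975805)) p12_5_3 (nat_lit 4) (nat_lit 18) (nat_lit 19) = true := by decide +kernel
def p12_5_3_19 : pfC (piC [(nat_lit 41351667), (nat_lit 28134109), (nat_lit 20794417), (nat_lit 13943267)] (nat_lit 4975805)) p12_5_3 (nat_lit 4) (nat_lit 19) (nat_lit 20) = true := by decide +kernel
def p12_5_3_20 : pfC (piC [(nat_lit 41351667), (nat_lit 28134109), (nat_lit 20794417), (nat_lit 13943267)] (nat_lit 4975805)) p12_5_3 (nat_lit 4) (nat_lit 20) (nat_lit 21) = true := by decide +kernel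
def p12_5_3_21 : pfC (piC [(nat_lit 41351667), (nat_lit 28134109), (nat_lit 20794417), (nat_lit 13943267)] (nat_lit 4975805)) p12_5_3 (nat_lit 4) (nat_lit 21) (nat_lit 22) = true := by decide +kernel
def p12_5_3_22 : pfC (piC [(nat_lit 41351667), (nat_lit 28134109), (nat_lit 20794417), (nat_lit 13943267)] (nat_lit 4975805)) p12_5_3 (nat_lit 4) (nat_lit 22) (nat_lit 23) = true := by decide +kernel
def p12_5_3_23 : pfC (piC [(nat_lit 41351667), (nat_lit 28134109), (nat_lit 20794417), (nat_lit 13943267)] (nat_lit 4975805)) p12_5_3 (nat_lit 4) (nat_lit 23) (nat_lit 24) = true := by decide +kernel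
def p12_5_3_24 : pfC (piC [(nat_lit 41351667), (nat_lit 28134109), (nat_lit 20794417), (nat_lit 13943267)] (nat_lit 4975805)) p12_5_3 (nat_lit 4) (nat_lit 24) (nat_lit 25) = true := by decide +kernel
def p12_5_3_25 : pfC (piC [(nat_lit 41351667), (nat_lit 28134109), (nat_lit 20794417), (nat_lit 13943267)] (nat_lit 4975805)) p12_5_3 (nat_lit 4) (nat_lit 25) (nat_lit 26) = true := by decide +kernel
def p12_5_3_26 : pfC (piC [(nat_lit 41351667), (nat_lit 28134109), (nat_lit 20794417), (nat_lit 13943267)] (nat_lit 4975805)) p12_5_3 (nat_lit 4) (nat_lit 26) (nat_lit 27) = true := by decide +kernel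
def p12_5_3_27 : pfC (piC [(nat_lit 41351667), (nat_lit 28134109), (nat_lit 20794417), (nat_lit 13943267)] (nat_lit 4975805)) p12_5_3 (nat_lit 4) (nat_lit 27) (nat_lit 28) = true := by decide +kernel
def p12_5_3_28 : pfC (piC [(nat_lit 41351667), (nat_lit 28134109), (nat_lit 20794417), (nat_lit 13943267)] (nat_lit 4975805)) p12_5_3 (nat_lit 4) (nat_lit 28) (nat_lit 29) = true := by decide +kernel
def p12_5_3_29 : pfC (piC [(nat_lit 41351667), (nat_lit 28134109), (nat_lit 20794417), (nat_lit 13943267)] (nat_lit 4975805)) p12_5_3 (nat_lit 4) (nat_lit 29) (nat_lit 30) = true := by decide +kernel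
def p12_5_3_30 : pfC (piC [(nat_lit 41351667), (nat_lit 28134109), (nat_lit 20794417), (nat_lit 13943267)] (nat_lit 4975805)) p12_5_3 (nat_lit 4) (nat_lit 30) (nat_lit 31) = true := by decide +kernel
def p12_5_3_31 : pfC (piC [(nat_lit 41351667), (nat_lit 28134109), (nat_lit 20794417), (nat_lit 13943267)] (nat_lit 4975805)) p12_5_3 (nat_lit 4) (nat_lit 31) (nat_lit 32) = true := by decide +kernel
def p12_5_3_32 : pfC (piC [(nat_lit 41351667), (nat_lit 28134109), (nat_lit 20794417), (nat_lit 13943267)] (nat_lit 4975805)) p12_5_3 (nat_lit 4) (nat_lit 32) (nat_lit 33) = true := by decide +kernel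
def p12_5_3_33 : pfC (piC [(nat_lit 41351667), (nat_lit 28134109), (nat_lit 20794417), (nat_lit 13943267)] (nat_lit 4975805)) p12_5_3 (nat_lit 4) (nat_lit 33) (nat_lit 34) = true := by decide +kernel
def p12_5_3_34 : pfC (piC [(nat_lit 41351667), (nat_lit 28134109), (nat_lit 20794417), (nat_lit 13943267)] (nat_lit 4975805)) p12_5_3 (nat_lit 4) (nat_lit 34) (nat_lit 35) = true := by decide +kernel
def p12_5_3_35 : pfC (piC [(nat_lit 41351667), (nat_lit 28134109), (nat_lit 20794417), (nat_lit 13943267)] (nat_lit 4975805)) p12_5_3 (nat_lit 4) (nat_lit 35) (nat_lit 36) = true := by decide +kernel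
def p12_5_3_36 : pfC (piC [(nat_lit 41351667), (nat_lit 28134109), (nat_lit 20794417), (nat_lit 13943267)] (nat_lit 4975805)) p12_5_3 (nat_lit 4) (nat_lit 36) (nat_lit 37) = true := by decide +kernel
def p12_5_3_37 : pfC (piC [(nat_lit 41351667), (nat_lit 28134109), (nat_lit 20794417), (nat_lit 13943267)] (nat_lit 4975805)) p12_5_3 (nat_lit 4) (nat_lit 37) (nat_lit 38) = true := by decide +kernel
def p12_5_3_38 : pfC (piC [(nat_lit 41351667), (nat_lit 28134109), (nat_lit 20794417), (nat_lit 13943267)] (nat_lit 4975805)) p12_5_3 (nat_lit 4) (nat_lit 38) (nat_lit 39) = true := by decide +kernel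
def p12_5_3_39 : pfC (piC [(nat_lit 41351667), (nat_lit 28134109), (nat_lit 20794417), (nat_lit 13943267)] (nat_lit 4975805)) p12_5_3 (nat_lit 4) (nat_lit 39) (nat_lit 40) = true := by decide +kernel
def p12_5_3_40 : pfC (piC [(nat_lit 41351667), (nat_lit 28134109), (nat_lit 20794417), (nat_lit 13943267)] (nat_lit 4975805)) p12_5_3 (nat_lit 4) (nat_lit 40) (nat_lit 41) = true := by decide +kernel
def p12_5_3_41 : pfC (piC [(nat_lit 41351667), (nat_lit 28134109), (nat_lit 20794417), (nat_lit 13943267)] (nat_lit 4975805)) p12_5_3 (nat_lit 4) (nat_lit 41) (nat_lit 42) = true := by decide +kernel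
def p12_5_3_42 : pfC (piC [(nat_lit 41351667), (nat_lit 28134109), (nat_lit 20794417), (nat_lit 13943267)] (nat_lit 4975805)) p12_5_3 (nat_lit 4) (nat_lit 42) (nat_lit 43) = true := by decide +kernel
def p12_5_3_43 : pfC (piC [(nat_lit 41351667), (nat_lit 28134109), (nat_lit 20794417), (nat_lit 13943267)] (nat_lit 4975805)) p12_5_3 (nat_lit 4) (nat_lit 43) (nat_lit 44) = true := by decide +kernel
def p12_5_3_44 : pfC (piC [(nat_lit 41351667), (nat_lit 28134109), (nat_lit 20794417), (nat_lit 13943267)] (nat_lit 4975805)) p12_5_3 (nat_lit 4) (nat_lit 44) (nat_lit 45) = true := by decide +kernel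
def p12_5_3_45 : pfC (piC [(nat_lit 41351667), (nat_lit 28134109), (nat_lit 20794417), (nat_lit 13943267)] (nat_lit 4975805)) p12_5_3 (nat_lit 4) (nat_lit 45) (nat_lit 46) = true := by decide +kernel
theorem p12_5_3_T : PfS (PiF n12_5.reverse (nat_lit 4975805)) p12_5_3 (nat_lit 4) [] 0 :=
  pftab_of (los := [(nat_lit 41351667), (nat_lit 28134109), (nat_lit 20794417), (nat_lit 13943267)]) (by decide +kernel) (hi := (nat_lit 46)) (PfP.trans (PfP.trans (PfP.trans (PfP.trans (PfP.trans (PfP.trans (PfP.trans (PfP.trans (PfP.trans (PfP.trans (PfP.trans (PfP.trans (PfP.trans (PfP.trans (PfP.trans (PfP.trans (PfP.trans (PfP.trans (PfP.trans (PfP.trans (PfP.trans (PfP.trans (PfP.trans (PfP.trans (PfP.trans (PfP.trans (PfP.trans (PfP.trans (PfP.trans (PfP.trans (PfP.trans (PfP.trans (PfP.trans (PfP.trans (PfP.trans (PfP.trans (PfP.trans (PfP.trans (PfP.trans (PfP.trans (PfP.trans (PfP.trans (PfP.trans (PfP.trans (PfP.trans (pfC_sound p12_5_3_0) (pfC_sound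 p12_5_3_1)) (pfC_sound p12_5_3_2)) (pfC_sound p12_5_3_3)) (pfC_sound p12_5_3_4)) (pfC_sound p12_5_3_5)) (pfC_sound p12_5_3_6)) (pfC_sound p12_5_3_7)) (pfC_sound p12_5_3_8)) (pfC_sound p12_5_3_9)) (pfC_sound p12_5_3_10)) (pfC_sound p12_5_3_11)) (pfC_sound p12_5_3_12)) (pfC_sound p12_5_3_13)) (pfC_sound p12_5_3_14)) (pfC_sound p12_5_3_15)) (pfC_sound p12_5_3_16)) (pfC_sound p12_5_3_17)) (pfC_sound p12_5_3_18)) (pfC_sound p12_5_3_19)) (pfC_sound p12_5_3_20)) (pfC_sound p12_5_3_21)) (pfC_sound p12_5_3_22)) (pfC_sound p12_5_3_23)) (pfC_sound p12_5_3_24)) (pfC_sound p12_5_3_25)) (pfC_sound p12_5_3_26)) (pfC_sound p12_5_3_27)) (pfC_sound p12_5_3_28)) (pfC_sound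
 p12_5_3_29)) (pfC_sound p12_5_3_30)) (pfC_sound p12_5_3_31)) (pfC_sound p12_5_3_32)) (pfC_sound p12_5_3_33)) (pfC_sound p12_5_3_34)) (pfC_sound p12_5_3_35)) (pfC_sound p12_5_3_36)) (pfC_sound p12_5_3_37)) (pfC_sound p12_5_3_38)) (pfC_sound p12_5_3_39)) (pfC_sound p12_5_3_40)) (pfC_sound p12_5_3_41)) (pfC_sound p12_5_3_42)) (pfC_sound p12_5_3_43)) (pfC_sound p12_5_3_44)) (pfC_sound p12_5_3_45)) (by decide +kernel)

def z12_5_3 : zOK yB12_5 (nat_lit 3) (nat_lit 750) (nat_lit 943) (nat_lit 4975805) (nat_lit 3024575) = true := by decide +kernel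
def g12_5_3 : gOK yB12_5.x P12_5 (nat_lit 1421) (q12_5 :: r12_5) (nat_lit 3) (nat_lit 750) (nat_lit 4) (nat_lit 943) (nat_lit 12712500) (nat_lit 12712500) (nat_lit 12712500) (nat_lit 12712500) [(nat_lit 800)] = true := by decide +kernel
def v12_5_3 : ivC P12_5 s12_5 w12_5 n12_5 (nat_lit 4) (nat_lit 4810) (nat_lit 3) (nat_lit 750) f128_1_750 f136_1_750 (nat_lit 4) (nat_lit 943) f128_1_943 f136_1_943 (nat_lit 4975805) (nat_lit 3024575) p12_5_3 = true := by decide +kernel
/-! box `yB12_6` -/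

def P12_6 : BQ := ⟨(nat_lit 8), (nat_lit 4), (nat_lit 4), (nat_lit 0), (nat_lit 8), (nat_lit 660), (nat_lit 680), (nat_lit 120), [(nat_lit 200), (nat_lit 300), (nat_lit 450), (nat_lit 800)], (nat_lit 57216000), (nat_lit 16000000), (nat_lit 16000000000)⟩
def q12_6 : PC := ⟨(nat_lit 1000), [(nat_lit 120000), (nat_lit 200000), (nat_lit 300000), (nat_lit 450000), (nat_lit 800000)], (nat_lit 340282367000166625996085689103316680705000000), (nat_lit 15942784000000), (nat_lit 15942784000000), (nat_lit 10000000)⟩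
def r12_6 : List PC := [⟨(nat_lit 1330), [(nat_lit 120547), (nat_lit 200995), (nat_lit 301826), (nat_lit 452100), (nat_lit 799539)], (nat_lit 342161406230832103894569568551181387396238568), (nat_lit 16344463332800), (nat_lit 16357110147200), (nat_lit 10060867)⟩]
def s12_6 : List PB := [⟨(nat_lit 26600), (nat_lit 1928752000000), [(nat_lit 200995), (nat_lit 301826), (nat_lit 452100), (nat_lit 799539)], (nat_lit 342161406230832103894569568551181387396238568), (nat_lit 1142244370175424), (nat_lit 1142257016989824), (nat_lit 52800)⟩]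
def n12_6 : List KN := [⟨(nat_lit 800), (nat_lit 450), (nat_lit 13862945), (nat_lit 8416473)⟩, ⟨(nat_lit 450), (nat_lit 300), (nat_lit 20557252), (nat_lit 13862945)⟩, ⟨(nat_lit 300), (nat_lit 200), (nat_lit 27968816), (nat_lit 20557252)⟩, ⟨(nat_lit 200), (nat_lit 120), (nat_lit 43428061), (nat_lit 27968816)⟩]
def w12_6 : List ℕ := [(nat_lit 52800)]
def par12_6 : parC yB12_6 P12_6 s12_6 r12_6 q12_6 n12_6 w12_6 = true := by decide +kernel

def p12_6_0 : PF := (PF.cons (PF.cons (PF.cons (PF.cons (PF.leaf (nat_lit 233484) (nat_lit 539213) (nat_lit 66569599) (nat_lit 539213) [(nat_lit 0), (nat_lit 0), (nat_lit 0), (nat_lit 0)]) (PF.cons (PF.leaf (nat_lit 297341) (nat_lit 99163) (nat_lit 66442074) (nat_lit 567574) [(nat_lit 99163), (nat_lit 0), (nat_lit 0), (nat_lit 0)]) (PF.cons (PF.leaf (nat_lit 387482) (nat_lit 111626) (nat_lit 66286977) (nat_lit 598582) [(nat_lit 111626), (nat_lit 0), (nat_lit 0), (nat_lit 0)]) (PF.cons (PF.leaf (nat_lit 493373) (nat_lit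 123737) (nat_lit 66106535) (nat_lit 631065) [(nat_lit 123737), (nat_lit 0), (nat_lit 0), (nat_lit 0)]) (PF.cons (PF.leaf (nat_lit 612546) (nat_lit 135567) (nat_lit 65902234) (nat_lit 664308) [(nat_lit 135567), (nat_lit 0), (nat_lit 0), (nat_lit 0)]) (PF.cons PF.nil (PF.cons PF.nil PF.nil))))))) (PF.cons (PF.cons (PF.leaf (nat_lit 572189) (nat_lit 648076) (nat_lit 65794520) (nat_lit 666215) [(nat_lit 0), (nat_lit 648076), (nat_lit 0), (nat_lit 0)]) (PF.cons (PF.leaf (nat_lit 677145) (nat_lit 139148) (nat_lit 65597593) (nat_lit 695308) [(nat_lit 139148), (nat_lit 676762), (nat_lit 0), (nat_lit 0)]) (PF.cons (PF.leaf (nat_lit 803178) (nat_lit 150675) (nat_lit 65375404) (nat_lit 725524)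
 [(nat_lit 150675), (nat_lit 706533), (nat_lit 0), (nat_lit 0)]) (PF.cons (PF.leaf (nat_lit 942593) (nat_lit 161896) (nat_lit 65129995) (nat_lit 756293) [(nat_lit 161896), (nat_lit 736835), (nat_lit 0), (nat_lit 0)]) (PF.cons PF.nil PF.nil))))) (PF.cons (PF.cons (PF.leaf (nat_lit 1007419) (nat_lit 762340) (nat_lit 64801711) (nat_lit 782420) [(nat_lit 0), (nat_lit 762340), (nat_lit 0), (nat_lit 0)]) (PF.cons (PF.leaf (nat_lit 1148357) (nat_lit 175455) (nat_lit 64542440) (nat_lit 810639) [(nat_lit 175455), (nat_lit 790138), (nat_lit 0), (nat_lit 0)]) (PF.cons (PF.leaf (nat_lit 1306037) (nat_lit 186114) (nat_lit 64260779) (nat_lit 839226) [(nat_lit 186114), (nat_lit 818289), (nat_lit 0), (nat_lit 0)]) (PF.cons PF.nil PF.nil)))) (PF.cons (PF.cons (PF.leaf (nat_lit 1526224) (nat_lit 865995) (nat_lit 63622968) (nat_lit 887859) [(nat_lit 0), (nat_lit 865995), (nat_lit 0), (nat_lit 0)]) (PF.cons PF.nil PF.nil)) (PF.cons PF.nil PF.nil))))) (PF.cons (PF.cons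 (PF.cons (PF.leaf (nat_lit 1100707) (nat_lit 801524) (nat_lit 64048748) (nat_lit 801524) [(nat_lit 0), (nat_lit 0), (nat_lit 2258540), (nat_lit 0)]) (PF.cons (PF.leaf (nat_lit 1226535) (nat_lit 170831) (nat_lit 63812479) (nat_lit 827417)
 [(nat_lit 170831), (nat_lit 0), (nat_lit 2298084), (nat_lit 0)]) (PF.cons (PF.leaf (nat_lit 1371496) (nat_lit 182415) (nat_lit 63550033) (nat_lit 854111) [(nat_lit 182415), (nat_lit 0), (nat_lit 2339838), (nat_lit 0)]) (PF.cons (PF.leaf (nat_lit 1529982) (nat_lit 193436) (nat_lit 63264440) (nat_lit 881128) [(nat_lit 193436), (nat_lit 0), (nat_lit 2382935), (nat_lit 0)]) (PF.cons PF.nil PF.nil))))) (PF.cons (PF.cons (PF.leaf (nat_lit 1588913) (nat_lit 878985) (nat_lit 62902494) (nat_lit 901515) [(nat_lit 0), (nat_lit 878985), (nat_lit 2425816), (nat_lit 0)]) (PF.cons (PF.leaf (nat_lit 1747659) (nat_lit 204914) (nat_lit 62608634) (nat_lit 926322) [(nat_lit 204914), (nat_lit 903466), (nat_lit 2465475), (nat_lit 0)])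 (PF.cons PF.nil (PF.cons PF.nil PF.nil)))) (PF.cons (PF.cons (PF.leaf (nat_lit 2149558) (nat_lit 967813) (nat_lit 61601431) (nat_lit 991751) [(nat_lit 0), (nat_lit 967813), (nat_lit 2580003), (nat_lit 0)]) (PF.cons PF.nil PF.nil)) (PF.cons PF.nil (PF.cons PF.nil PF.nil))))) (PF.cons (PF.cons (PF.cons (PF.leaf (nat_lit 2192168) (nat_lit 998990) (nat_lit 60878073) (nat_lit 998990) [(nat_lit 0), (nat_lit 0), (nat_lit 2615874), (nat_lit 0)]) (PF.cons (PF.leaf (nat_lit
 2364575) (nat_lit 229863) (nat_lit 60560129) (nat_lit 1020816) [(nat_lit 229863), (nat_lit 0), (nat_lit 2649001), (nat_lit 0)]) (PF.cons PF.nil (PF.cons PF.nil PF.nil)))) (PF.cons (PF.cons (PF.leaf (nat_lit 2782681) (nat_lit 1050703) (nat_lit 59497860) (nat_lit 1076261) [(nat_lit 0), (nat_lit 1050703), (nat_lit 2741993), (nat_lit 0)]) (PF.cons PF.nil PF.nil)) (PF.cons PF.nil PF.nil))) (PF.cons (PF.cons (PF.cons (PF.leaf (nat_lit 3416269) (nat_lit 1144547) (nat_lit 57361882) (nat_lit 1144547)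 [(nat_lit 0), (nat_lit 0), (nat_lit 2867460), (nat_lit 0)]) (PF.cons PF.nil PF.nil)) (PF.cons PF.nil PF.nil)) (PF.cons PF.nil (PF.cons PF.nil PF.nil)))))) (PF.cons (PF.cons (PF.cons (PF.cons (PF.leaf (nat_lit 2045277) (nat_lit 935352) (nat_lit 59509134) (nat_lit 935352) [(nat_lit 0), (nat_lit 0), (nat_lit 0), (nat_lit 6664325)]) (PF.cons (PF.leaf (nat_lit 2185291) (nat_lit 200734) (nat_lit 59255002) (nat_lit 958569) [(nat_lit 200734), (nat_lit 0), (nat_lit 0), (nat_lit 6694505)]) (PF.cons (PF.leaf (nat_lit 2343076) (nat_lit 212586) (nat_lit 58975248) (nat_lit 982078) [(nat_lit 212586), (nat_lit 0), (nat_lit 0), (nat_lit 6726313)]) (PF.cons (PF.leaf (nat_lit 2514429) (nat_lit 223572) (nat_lit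
 58673598) (nat_lit 1005478) [(nat_lit 223572), (nat_lit 0), (nat_lit 0), (nat_lit 6759019)]) (PF.cons (PF.leaf (nat_lit 2697620) (nat_lit 233856) (nat_lit 58352793) (nat_lit 1028529) [(nat_lit 233856), (nat_lit 0), (nat_lit 0), (nat_lit 6792063)]) (PF.cons (PF.leaf (nat_lit 2891694) (nat_lit 243546) (nat_lit 58014995) (nat_lit 1051083) [(nat_lit 243546), (nat_lit 0), (nat_lit 0), (nat_lit 6825003)]) (PF.cons PF.nil PF.nil))))))) (PF.cons (PF.cons (PF.leaf (nat_lit 2562587) (nat_lit 994829) (nat_lit 58302202) (nat_lit 1019935) [(nat_lit 0), (nat_lit 994829), (nat_lit 0), (nat_lit 6791845)]) (PF.cons (PF.leaf (nat_lit 2732231) (nat_lit 232993) (nat_lit 57997581) (nat_lit 1041091) [(nat_lit 232993), (nat_lit 1015774), (nat_lit 0), (nat_lit 6821372)]) (PF.cons (PF.leaf (nat_lit 2916187) (nat_lit 242962) (nat_lit 57672982) (nat_lit 1062113) [(nat_lit 242962), (nat_lit 1036573), (nat_lit 0), (nat_lit 6851216)]) (PF.cons (PF.leaf (nat_lit 3111271) (nat_lit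 252313) (nat_lit 57331132) (nat_lit 1082800) [(nat_lit 252313), (nat_lit 1057028), (nat_lit 0), (nat_lit 6880911)]) (PF.cons PF.nil PF.nil))))) (PF.cons (PF.cons (PF.leaf (nat_lit 3139515) (nat_lit 1067126) (nat_lit 56976653) (nat_lit
 1093175) [(nat_lit 0), (nat_lit 1067126), (nat_lit 0), (nat_lit 6904731)]) (PF.cons (PF.leaf (nat_lit 3333015) (nat_lit 260240) (nat_lit 56633638) (nat_lit 1112112) [(nat_lit 260240), (nat_lit 1085858), (nat_lit 0), (nat_lit 6931104)]) (PF.cons (PF.leaf (nat_lit 3538276) (nat_lit 268785) (nat_lit 56275078) (nat_lit 1130706) [(nat_lit 268785), (nat_lit 1104243), (nat_lit 0), (nat_lit 6956967)]) (PF.cons PF.nil PF.nil)))) (PF.cons (PF.cons (PF.leaf (nat_lit 3762842) (nat_lit 1129419) (nat_lit 55566026) (nat_lit 1156299) [(nat_lit 0), (nat_lit 1129419), (nat_lit 0), (nat_lit 6998228)]) (PF.cons PF.nil PF.nil)) (PF.cons PF.nil PF.nil))))) (PF.cons (PF.cons (PF.cons (PF.leaf (nat_lit 3152910) (nat_lit 1091298) (nat_lit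 56286571) (nat_lit 1091298) [(nat_lit 0), (nat_lit 0), (nat_lit 2803807), (nat_lit 6927135)]) (PF.cons (PF.leaf (nat_lit 3331799) (nat_lit 252330) (nat_lit 55969867) (nat_lit 1109673) [(nat_lit 252330), (nat_lit 0), (nat_lit 2827743), (nat_lit 6949197)]) (PF.cons (PF.leaf (nat_lit 3524230) (nat_lit 261791) (nat_lit 55634396) (nat_lit 1127835) [(nat_lit 261791), (nat_lit 0), (nat_lit 2851835), (nat_lit 6971161)]) (PF.cons (PF.leaf (nat_lit 3727214) (nat_lit 270561)
 (nat_lit 55283080) (nat_lit 1145620) [(nat_lit 270561), (nat_lit 0), (nat_lit 2875765), (nat_lit 6992662)]) (PF.cons PF.nil PF.nil))))) (PF.cons (PF.cons (PF.leaf (nat_lit 3746858) (nat_lit 1126124) (nat_lit 54929927) (nat_lit 1153212) [(nat_lit 0), (nat_lit 1126124), (nat_lit 2891643), (nat_lit 7007905)]) (PF.cons (PF.leaf (nat_lit 3947198) (nat_lit 277037) (nat_lit 54580397) (nat_lit 1169476) [(nat_lit 277037), (nat_lit 1142237), (nat_lit 2913253), (nat_lit 7026410)]) (PF.cons PF.nil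 (PF.cons PF.nil PF.nil)))) (PF.cons (PF.cons (PF.leaf (nat_lit 4379488) (nat_lit 1178320) (nat_lit 53509598) (nat_lit 1206033) [(nat_lit 0), (nat_lit 1178320), (nat_lit 2966548), (nat_lit 7069991)]) (PF.cons PF.nil PF.nil)) PF.nil))) (PF.cons (PF.cons (PF.cons (PF.leaf (nat_lit 4346730) (nat_lit 1200679) (nat_lit 52903319) (nat_lit 1200679) [(nat_lit 0), (nat_lit 0), (nat_lit 2968366), (nat_lit 7068080)]) (PF.cons (PF.leaf (nat_lit 4551769) (nat_lit 290812) (nat_lit 52552766) (nat_lit 1214594) [(nat_lit 290812), (nat_lit 0), (nat_lit 2985494), (nat_lit 7079651)]) (PF.cons PF.nil PF.nil))) (PF.cons (PF.cons (PF.leaf (nat_lit 4982908) (nat_lit 1216281) (nat_lit 51492933) (nat_lit 1244592) [(nat_lit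
 0), (nat_lit 1216281), (nat_lit 3025976), (nat_lit 7103052)]) PF.nil) PF.nil)) (PF.cons PF.nil (PF.cons PF.nil PF.nil))))) (PF.cons (PF.cons (PF.cons (PF.cons (PF.leaf (nat_lit 4037092) (nat_lit 1146238) (nat_lit 51992062) (nat_lit 1146238) [(nat_lit 0), (nat_lit 0), (nat_lit 0), (nat_lit 6985255)]) (PF.cons (PF.leaf (nat_lit 4218009) (nat_lit 266430) (nat_lit 51689550) (nat_lit 1161796) [(nat_lit 266430), (nat_lit 0), (nat_lit 0), (nat_lit 6995517)]) (PF.cons (PF.leaf (nat_lit 4411547) (nat_lit 275423) (nat_lit 51370351) (nat_lit 1176985) [(nat_lit 275423), (nat_lit 0), (nat_lit 0), (nat_lit 7005314)]) (PF.cons (PF.leaf (nat_lit 4614736) (nat_lit 283632) (nat_lit 51037359) (nat_lit 1191685) [(nat_lit 283632), (nat_lit 0), (nat_lit 0), (nat_lit 7014434)]) (PF.cons PF.nil PF.nil))))) (PF.cons (PF.cons (PF.leaf (nat_lit 4623234) (nat_lit 1168301) (nat_lit 50708453) (nat_lit 1196138) [(nat_lit 0), (nat_lit 1168301), (nat_lit 0), (nat_lit 7017960)])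 (PF.cons (PF.leaf (nat_lit 4822974) (nat_lit 288600) (nat_lit 50379389) (nat_lit 1209473) [(nat_lit 288600), (nat_lit 1181555), (nat_lit 0), (nat_lit 7024897)]) (PF.cons (PF.leaf (nat_lit 5032681) (nat_lit 295955) (nat_lit 50038154)
 (nat_lit 1222360) [(nat_lit 295955), (nat_lit 1194357), (nat_lit 0), (nat_lit 7031014)]) (PF.cons PF.nil PF.nil)))) (PF.cons (PF.cons (PF.leaf (nat_lit 5240186) (nat_lit 1209192) (nat_lit 49381838) (nat_lit 1237393) [(nat_lit 0), (nat_lit 1209192), (nat_lit 0), (nat_lit 7035597)]) (PF.cons PF.nil PF.nil)) (PF.cons PF.nil (PF.cons PF.nil PF.nil))))) (PF.cons (PF.cons (PF.cons (PF.leaf (nat_lit 5187114) (nat_lit 1228575) (nat_lit 48837502) (nat_lit 1228575) [(nat_lit 0), (nat_lit 0), (nat_lit 3003909), (nat_lit 7019412)]) (PF.cons (PF.leaf (nat_lit 5389455) (nat_lit 298788) (nat_lit 48512122) (nat_lit 1239906) [(nat_lit 298788), (nat_lit 0), (nat_lit 3015355), (nat_lit 7021320)]) (PF.cons PF.nil (PF.cons PF.nil PF.nil))))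 (PF.cons (PF.cons (PF.leaf (nat_lit 5802782) (nat_lit 1233980) (nat_lit 47536852) (nat_lit 1262490) [(nat_lit 0), (nat_lit 1233980), (nat_lit 3039904), (nat_lit 7017792)]) (PF.cons PF.nil PF.nil)) (PF.cons PF.nil PF.nil))) (PF.cons (PF.cons (PF.cons (PF.leaf (nat_lit 6348431) (nat_lit 1280409) (nat_lit 45759691) (nat_lit 1280409) [(nat_lit 0), (nat_lit 0), (nat_lit 3055859), (nat_lit 6978496)]) (PF.cons PF.nil PF.nil)) (PF.cons PF.nil PF.nil)) PF.nil))) (PF.cons
 (PF.cons (PF.cons (PF.cons (PF.leaf (nat_lit 5947309) (nat_lit 1237387) (nat_lit 45181977) (nat_lit 1237387) [(nat_lit 0), (nat_lit 0), (nat_lit 0), (nat_lit 6896482)]) (PF.cons (PF.leaf (nat_lit 6145400) (nat_lit 302166) (nat_lit 44883992) (nat_lit 1246709) [(nat_lit 302166), (nat_lit 0), (nat_lit 0), (nat_lit 6891981)]) (PF.cons PF.nil PF.nil))) (PF.cons (PF.cons (PF.leaf (nat_lit 6540535) (nat_lit 1235384) (nat_lit 43996754) (nat_lit 1263737) [(nat_lit 0), (nat_lit 1235384), (nat_lit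 0), (nat_lit 6870978)]) PF.nil) PF.nil)) (PF.cons PF.nil PF.nil)) (PF.cons PF.nil (PF.cons PF.nil (PF.cons PF.nil (PF.cons PF.nil PF.nil))))))))

def p12_6_0_0 : pfC (piC [(nat_lit 43428061), (nat_lit 27968816), (nat_lit 20557252), (nat_lit 13862945)] (nat_lit 36888796)) p12_6_0 (nat_lit 4) (nat_lit 0) (nat_lit 1) = true := by decide +kernel
def p12_6_0_1 : pfC (piC [(nat_lit 43428061), (nat_lit 27968816), (nat_lit 20557252), (nat_lit 13862945)] (nat_lit 36888796)) p12_6_0 (nat_lit 4) (nat_lit 1) (nat_lit 2) = true := by decide +kernel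
def p12_6_0_2 : pfC (piC [(nat_lit 43428061), (nat_lit 27968816), (nat_lit 20557252), (nat_lit 13862945)] (nat_lit 36888796)) p12_6_0 (nat_lit 4) (nat_lit 2) (nat_lit 3) = true := by decide +kernel
def p12_6_0_3 : pfC (piC [(nat_lit 43428061), (nat_lit 27968816), (nat_lit 20557252), (nat_lit 13862945)] (nat_lit 36888796)) p12_6_0 (nat_lit 4) (nat_lit 3) (nat_lit 4) = true := by decide +kernel
def p12_6_0_4 : pfC (piC [(nat_lit 43428061), (nat_lit 27968816), (nat_lit 20557252), (nat_lit 13862945)] (nat_lit 36888796)) p12_6_0 (nat_lit 4) (nat_lit 4) (nat_lit 5) = true := by decide +kernel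
def p12_6_0_5 : pfC (piC [(nat_lit 43428061), (nat_lit 27968816), (nat_lit 20557252), (nat_lit 13862945)] (nat_lit 36888796)) p12_6_0 (nat_lit 4) (nat_lit 5) (nat_lit 6) = true := by decide +kernel
def p12_6_0_6 : pfC (piC [(nat_lit 43428061), (nat_lit 27968816), (nat_lit 20557252), (nat_lit 13862945)] (nat_lit 36888796)) p12_6_0 (nat_lit 4) (nat_lit 6) (nat_lit 7) = true := by decide +kernel
def p12_6_0_7 : pfC (piC [(nat_lit 43428061), (nat_lit 27968816), (nat_lit 20557252), (nat_lit 13862945)] (nat_lit 36888796)) p12_6_0 (nat_lit 4) (nat_lit 7) (nat_lit 8) = true := by decide +kernel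
def p12_6_0_8 : pfC (piC [(nat_lit 43428061), (nat_lit 27968816), (nat_lit 20557252), (nat_lit 13862945)] (nat_lit 36888796)) p12_6_0 (nat_lit 4) (nat_lit 8) (nat_lit 9) = true := by decide +kernel
def p12_6_0_9 : pfC (piC [(nat_lit 43428061), (nat_lit 27968816), (nat_lit 20557252), (nat_lit 13862945)] (nat_lit 36888796)) p12_6_0 (nat_lit 4) (nat_lit 9) (nat_lit 10) = true := by decide +kernel
def p12_6_0_10 : pfC (piC [(nat_lit 43428061), (nat_lit 27968816), (nat_lit 20557252), (nat_lit 13862945)] (nat_lit 36888796)) p12_6_0 (nat_lit 4) (nat_lit 10) (nat_lit 11) = true := by decide +kernel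
def p12_6_0_11 : pfC (piC [(nat_lit 43428061), (nat_lit 27968816), (nat_lit 20557252), (nat_lit 13862945)] (nat_lit 36888796)) p12_6_0 (nat_lit 4) (nat_lit 11) (nat_lit 12) = true := by decide +kernel
def p12_6_0_12 : pfC (piC [(nat_lit 43428061), (nat_lit 27968816), (nat_lit 20557252), (nat_lit 13862945)] (nat_lit 36888796)) p12_6_0 (nat_lit 4) (nat_lit 12) (nat_lit 13) = true := by decide +kernel
def p12_6_0_13 : pfC (piC [(nat_lit 43428061), (nat_lit 27968816), (nat_lit 20557252), (nat_lit 13862945)] (nat_lit 36888796)) p12_6_0 (nat_lit 4) (nat_lit 13) (nat_lit 14) = true := by decide +kernel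
def p12_6_0_14 : pfC (piC [(nat_lit 43428061), (nat_lit 27968816), (nat_lit 20557252), (nat_lit 13862945)] (nat_lit 36888796)) p12_6_0 (nat_lit 4) (nat_lit 14) (nat_lit 15) = true := by decide +kernel
def p12_6_0_15 : pfC (piC [(nat_lit 43428061), (nat_lit 27968816), (nat_lit 20557252), (nat_lit 13862945)] (nat_lit 36888796)) p12_6_0 (nat_lit 4) (nat_lit 15) (nat_lit 16) = true := by decide +kernel
def p12_6_0_16 : pfC (piC [(nat_lit 43428061), (nat_lit 27968816), (nat_lit 20557252), (nat_lit 13862945)] (nat_lit 36888796)) p12_6_0 (nat_lit 4) (nat_lit 16) (nat_lit 17) = true := by decide +kernel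
def p12_6_0_17 : pfC (piC [(nat_lit 43428061), (nat_lit 27968816), (nat_lit 20557252), (nat_lit 13862945)] (nat_lit 36888796)) p12_6_0 (nat_lit 4) (nat_lit 17) (nat_lit 18) = true := by decide +kernel
def p12_6_0_18 : pfC (piC [(nat_lit 43428061), (nat_lit 27968816), (nat_lit 20557252), (nat_lit 13862945)] (nat_lit 36888796)) p12_6_0 (nat_lit 4) (nat_lit 18) (nat_lit 19) = true := by decide +kernel
def p12_6_0_19 : pfC (piC [(nat_lit 43428061), (nat_lit 27968816), (nat_lit 20557252), (nat_lit 13862945)] (nat_lit 36888796)) p12_6_0 (nat_lit 4) (nat_lit 19) (nat_lit 20) = true := by decide +kernel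
def p12_6_0_20 : pfC (piC [(nat_lit 43428061), (nat_lit 27968816), (nat_lit 20557252), (nat_lit 13862945)] (nat_lit 36888796)) p12_6_0 (nat_lit 4) (nat_lit 20) (nat_lit 21) = true := by decide +kernel
def p12_6_0_21 : pfC (piC [(nat_lit 43428061), (nat_lit 27968816), (nat_lit 20557252), (nat_lit 13862945)] (nat_lit 36888796)) p12_6_0 (nat_lit 4) (nat_lit 21) (nat_lit 22) = true := by decide +kernel
def p12_6_0_22 : pfC (piC [(nat_lit 43428061), (nat_lit 27968816), (nat_lit 20557252), (nat_lit 13862945)] (nat_lit 36888796)) p12_6_0 (nat_lit 4) (nat_lit 22) (nat_lit 23) = true := by decide +kernel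
def p12_6_0_23 : pfC (piC [(nat_lit 43428061), (nat_lit 27968816), (nat_lit 20557252), (nat_lit 13862945)] (nat_lit 36888796)) p12_6_0 (nat_lit 4) (nat_lit 23) (nat_lit 24) = true := by decide +kernel
def p12_6_0_24 : pfC (piC [(nat_lit 43428061), (nat_lit 27968816), (nat_lit 20557252), (nat_lit 13862945)] (nat_lit 36888796)) p12_6_0 (nat_lit 4) (nat_lit 24) (nat_lit 25) = true := by decide +kernel
def p12_6_0_25 : pfC (piC [(nat_lit 43428061), (nat_lit 27968816), (nat_lit 20557252), (nat_lit 13862945)] (nat_lit 36888796)) p12_6_0 (nat_lit 4) (nat_lit 25) (nat_lit 26) = true := by decide +kernel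
def p12_6_0_26 : pfC (piC [(nat_lit 43428061), (nat_lit 27968816), (nat_lit 20557252), (nat_lit 13862945)] (nat_lit 36888796)) p12_6_0 (nat_lit 4) (nat_lit 26) (nat_lit 27) = true := by decide +kernel
def p12_6_0_27 : pfC (piC [(nat_lit 43428061), (nat_lit 27968816), (nat_lit 20557252), (nat_lit 13862945)] (nat_lit 36888796)) p12_6_0 (nat_lit 4) (nat_lit 27) (nat_lit 28) = true := by decide +kernel
def p12_6_0_28 : pfC (piC [(nat_lit 43428061), (nat_lit 27968816), (nat_lit 20557252), (nat_lit 13862945)] (nat_lit 36888796)) p12_6_0 (nat_lit 4) (nat_lit 28) (nat_lit 29) = true := by decide +kernel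
def p12_6_0_29 : pfC (piC [(nat_lit 43428061), (nat_lit 27968816), (nat_lit 20557252), (nat_lit 13862945)] (nat_lit 36888796)) p12_6_0 (nat_lit 4) (nat_lit 29) (nat_lit 30) = true := by decide +kernel
def p12_6_0_30 : pfC (piC [(nat_lit 43428061), (nat_lit 27968816), (nat_lit 20557252), (nat_lit 13862945)] (nat_lit 36888796)) p12_6_0 (nat_lit 4) (nat_lit 30) (nat_lit 31) = true := by decide +kernel
def p12_6_0_31 : pfC (piC [(nat_lit 43428061), (nat_lit 27968816), (nat_lit 20557252), (nat_lit 13862945)] (nat_lit 36888796)) p12_6_0 (nat_lit 4) (nat_lit 31) (nat_lit 32) = true := by decide +kernel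
def p12_6_0_32 : pfC (piC [(nat_lit 43428061), (nat_lit 27968816), (nat_lit 20557252), (nat_lit 13862945)] (nat_lit 36888796)) p12_6_0 (nat_lit 4) (nat_lit 32) (nat_lit 33) = true := by decide +kernel
def p12_6_0_33 : pfC (piC [(nat_lit 43428061), (nat_lit 27968816), (nat_lit 20557252), (nat_lit 13862945)] (nat_lit 36888796)) p12_6_0 (nat_lit 4) (nat_lit 33) (nat_lit 34) = true := by decide +kernel
def p12_6_0_34 : pfC (piC [(nat_lit 43428061), (nat_lit 27968816), (nat_lit 20557252), (nat_lit 13862945)] (nat_lit 36888796)) p12_6_0 (nat_lit 4) (nat_lit 34) (nat_lit 35) = true := by decide +kernel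
def p12_6_0_35 : pfC (piC [(nat_lit 43428061), (nat_lit 27968816), (nat_lit 20557252), (nat_lit 13862945)] (nat_lit 36888796)) p12_6_0 (nat_lit 4) (nat_lit 35) (nat_lit 36) = true := by decide +kernel
def p12_6_0_36 : pfC (piC [(nat_lit 43428061), (nat_lit 27968816), (nat_lit 20557252), (nat_lit 13862945)] (nat_lit 36888796)) p12_6_0 (nat_lit 4) (nat_lit 36) (nat_lit 37) = true := by decide +kernel
def p12_6_0_37 : pfC (piC [(nat_lit 43428061), (nat_lit 27968816), (nat_lit 20557252), (nat_lit 13862945)] (nat_lit 36888796)) p12_6_0 (nat_lit 4) (nat_lit 37) (nat_lit 38) = true := by decide +kernel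
def p12_6_0_38 : pfC (piC [(nat_lit 43428061), (nat_lit 27968816), (nat_lit 20557252), (nat_lit 13862945)] (nat_lit 36888796)) p12_6_0 (nat_lit 4) (nat_lit 38) (nat_lit 39) = true := by decide +kernel
def p12_6_0_39 : pfC (piC [(nat_lit 43428061), (nat_lit 27968816), (nat_lit 20557252), (nat_lit 13862945)] (nat_lit 36888796)) p12_6_0 (nat_lit 4) (nat_lit 39) (nat_lit 40) = true := by decide +kernel
def p12_6_0_40 : pfC (piC [(nat_lit 43428061), (nat_lit 27968816), (nat_lit 20557252), (nat_lit 13862945)] (nat_lit 36888796)) p12_6_0 (nat_lit 4) (nat_lit 40) (nat_lit 41) = true := by decide +kernel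
def p12_6_0_41 : pfC (piC [(nat_lit 43428061), (nat_lit 27968816), (nat_lit 20557252), (nat_lit 13862945)] (nat_lit 36888796)) p12_6_0 (nat_lit 4) (nat_lit 41) (nat_lit 42) = true := by decide +kernel
def p12_6_0_42 : pfC (piC [(nat_lit 43428061), (nat_lit 27968816), (nat_lit 20557252), (nat_lit 13862945)] (nat_lit 36888796)) p12_6_0 (nat_lit 4) (nat_lit 42) (nat_lit 43) = true := by decide +kernel
def p12_6_0_43 : pfC (piC [(nat_lit 43428061), (nat_lit 27968816), (nat_lit 20557252), (nat_lit 13862945)] (nat_lit 36888796)) p12_6_0 (nat_lit 4) (nat_lit 43) (nat_lit 44) = true := by decide +kernel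
def p12_6_0_44 : pfC (piC [(nat_lit 43428061), (nat_lit 27968816), (nat_lit 20557252), (nat_lit 13862945)] (nat_lit 36888796)) p12_6_0 (nat_lit 4) (nat_lit 44) (nat_lit 45) = true := by decide +kernel
def p12_6_0_45 : pfC (piC [(nat_lit 43428061), (nat_lit 27968816), (nat_lit 20557252), (nat_lit 13862945)] (nat_lit 36888796)) p12_6_0 (nat_lit 4) (nat_lit 45) (nat_lit 46) = true := by decide +kernel
def p12_6_0_46 : pfC (piC [(nat_lit 43428061), (nat_lit 27968816), (nat_lit 20557252), (nat_lit 13862945)] (nat_lit 36888796)) p12_6_0 (nat_lit 4) (nat_lit 46) (nat_lit 47) = true := by decide +kernel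
def p12_6_0_47 : pfC (piC [(nat_lit 43428061), (nat_lit 27968816), (nat_lit 20557252), (nat_lit 13862945)] (nat_lit 36888796)) p12_6_0 (nat_lit 4) (nat_lit 47) (nat_lit 48) = true := by decide +kernel
def p12_6_0_48 : pfC (piC [(nat_lit 43428061), (nat_lit 27968816), (nat_lit 20557252), (nat_lit 13862945)] (nat_lit 36888796)) p12_6_0 (nat_lit 4) (nat_lit 48) (nat_lit 49) = true := by decide +kernel
def p12_6_0_49 : pfC (piC [(nat_lit 43428061), (nat_lit 27968816), (nat_lit 20557252), (nat_lit 13862945)] (nat_lit 36888796)) p12_6_0 (nat_lit 4) (nat_lit 49) (nat_lit 50) = true := by decide +kernel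
def p12_6_0_50 : pfC (piC [(nat_lit 43428061), (nat_lit 27968816), (nat_lit 20557252), (nat_lit 13862945)] (nat_lit 36888796)) p12_6_0 (nat_lit 4) (nat_lit 50) (nat_lit 51) = true := by decide +kernel
def p12_6_0_51 : pfC (piC [(nat_lit 43428061), (nat_lit 27968816), (nat_lit 20557252), (nat_lit 13862945)] (nat_lit 36888796)) p12_6_0 (nat_lit 4) (nat_lit 51) (nat_lit 52) = true := by decide +kernel
def p12_6_0_52 : pfC (piC [(nat_lit 43428061), (nat_lit 27968816), (nat_lit 20557252), (nat_lit 13862945)] (nat_lit 36888796)) p12_6_0 (nat_lit 4) (nat_lit 52) (nat_lit 53) = true := by decide +kernel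
def p12_6_0_53 : pfC (piC [(nat_lit 43428061), (nat_lit 27968816), (nat_lit 20557252), (nat_lit 13862945)] (nat_lit 36888796)) p12_6_0 (nat_lit 4) (nat_lit 53) (nat_lit 54) = true := by decide +kernel
def p12_6_0_54 : pfC (piC [(nat_lit 43428061), (nat_lit 27968816), (nat_lit 20557252), (nat_lit 13862945)] (nat_lit 36888796)) p12_6_0 (nat_lit 4) (nat_lit 54) (nat_lit 55) = true := by decide +kernel
def p12_6_0_55 : pfC (piC [(nat_lit 43428061), (nat_lit 27968816), (nat_lit 20557252), (nat_lit 13862945)] (nat_lit 36888796)) p12_6_0 (nat_lit 4) (nat_lit 55) (nat_lit 56) = true := by decide +kernel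
def p12_6_0_56 : pfC (piC [(nat_lit 43428061), (nat_lit 27968816), (nat_lit 20557252), (nat_lit 13862945)] (nat_lit 36888796)) p12_6_0 (nat_lit 4) (nat_lit 56) (nat_lit 57) = true := by decide +kernel
def p12_6_0_57 : pfC (piC [(nat_lit 43428061), (nat_lit 27968816), (nat_lit 20557252), (nat_lit 13862945)] (nat_lit 36888796)) p12_6_0 (nat_lit 4) (nat_lit 57) (nat_lit 58) = true := by decide +kernel
def p12_6_0_58 : pfC (piC [(nat_lit 43428061), (nat_lit 27968816), (nat_lit 20557252), (nat_lit 13862945)] (nat_lit 36888796)) p12_6_0 (nat_lit 4) (nat_lit 58) (nat_lit 59) = true := by decide +kernel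
def p12_6_0_59 : pfC (piC [(nat_lit 43428061), (nat_lit 27968816), (nat_lit 20557252), (nat_lit 13862945)] (nat_lit 36888796)) p12_6_0 (nat_lit 4) (nat_lit 59) (nat_lit 60) = true := by decide +kernel
def p12_6_0_60 : pfC (piC [(nat_lit 43428061), (nat_lit 27968816), (nat_lit 20557252), (nat_lit 13862945)] (nat_lit 36888796)) p12_6_0 (nat_lit 4) (nat_lit 60) (nat_lit 61) = true := by decide +kernel
def p12_6_0_61 : pfC (piC [(nat_lit 43428061), (nat_lit 27968816), (nat_lit 20557252), (nat_lit 13862945)] (nat_lit 36888796)) p12_6_0 (nat_lit 4) (nat_lit 61) (nat_lit 62) = true := by decide +kernel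
def p12_6_0_62 : pfC (piC [(nat_lit 43428061), (nat_lit 27968816), (nat_lit 20557252), (nat_lit 13862945)] (nat_lit 36888796)) p12_6_0 (nat_lit 4) (nat_lit 62) (nat_lit 63) = true := by decide +kernel
theorem p12_6_0_T : PfS (PiF n12_6.reverse (nat_lit 36888796)) p12_6_0 (nat_lit 4) [] 0 :=
  pftab_of (los := [(nat_lit 43428061), (nat_lit 27968816), (nat_lit 20557252), (nat_lit 13862945)]) (by decide +kernel) (hi := (nat_lit 63)) (PfP.trans (PfP.trans (PfP.trans (PfP.trans (PfP.trans (PfP.trans (PfP.trans (PfP.trans (PfP.trans (PfP.trans (PfP.trans (PfP.trans (PfP.trans (PfP.trans (PfP.trans (PfP.trans (PfP.trans (PfP.trans (PfP.trans (PfP.trans (PfP.trans (PfP.trans (PfP.trans (PfP.trans (PfP.trans (PfP.trans (PfP.trans (PfP.trans (PfP.trans (PfP.trans (PfP.trans (PfP.trans (PfP.trans (PfP.trans (PfP.trans (PfP.trans (PfP.trans (PfP.trans (PfP.trans (PfP.trans (PfP.trans (PfP.trans (PfP.trans (PfP.trans (PfP.trans (PfP.trans (PfP.trans (PfP.trans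 (PfP.trans (PfP.trans (PfP.trans (PfP.trans (PfP.trans (PfP.trans (PfP.trans (PfP.trans (PfP.trans (PfP.trans (PfP.trans (PfP.trans (PfP.trans (PfP.trans (pfC_sound p12_6_0_0) (pfC_sound p12_6_0_1)) (pfC_sound p12_6_0_2)) (pfC_sound p12_6_0_3)) (pfC_sound p12_6_0_4)) (pfC_sound p12_6_0_5)) (pfC_sound p12_6_0_6)) (pfC_sound p12_6_0_7)) (pfC_sound p12_6_0_8)) (pfC_sound p12_6_0_9)) (pfC_sound p12_6_0_10)) (pfC_sound p12_6_0_11)) (pfC_sound p12_6_0_12)) (pfC_sound p12_6_0_13)) (pfC_sound p12_6_0_14)) (pfC_sound p12_6_0_15)) (pfC_sound p12_6_0_16)) (pfC_sound p12_6_0_17)) (pfC_sound p12_6_0_18)) (pfC_sound p12_6_0_19)) (pfC_sound p12_6_0_20)) (pfC_sound p12_6_0_21))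
 (pfC_sound p12_6_0_22)) (pfC_sound p12_6_0_23)) (pfC_sound p12_6_0_24)) (pfC_sound p12_6_0_25)) (pfC_sound p12_6_0_26)) (pfC_sound p12_6_0_27)) (pfC_sound p12_6_0_28)) (pfC_sound p12_6_0_29)) (pfC_sound p12_6_0_30)) (pfC_sound p12_6_0_31)) (pfC_sound p12_6_0_32)) (pfC_sound p12_6_0_33)) (pfC_sound p12_6_0_34)) (pfC_sound p12_6_0_35)) (pfC_sound p12_6_0_36)) (pfC_sound p12_6_0_37)) (pfC_sound p12_6_0_38)) (pfC_sound p12_6_0_39)) (pfC_sound p12_6_0_40)) (pfC_sound p12_6_0_41)) (pfC_sound p12_6_0_42)) (pfC_sound p12_6_0_43)) (pfC_sound p12_6_0_44)) (pfC_sound p12_6_0_45)) (pfC_sound p12_6_0_46)) (pfC_sound p12_6_0_47)) (pfC_sound p12_6_0_48)) (pfC_sound p12_6_0_49)) (pfC_sound p12_6_0_50)) (pfC_sound p12_6_0_51)) (pfC_sound p12_6_0_52)) (pfC_sound p12_6_0_53)) (pfC_sound p12_6_0_54)) (pfC_sound p12_6_0_55)) (pfC_sound p12_6_0_56)) (pfC_sound p12_6_0_57)) (pfC_sound p12_6_0_58)) (pfC_sound p12_6_0_59)) (pfC_sound p12_6_0_60)) (pfC_sound p12_6_0_61))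 (pfC_sound p12_6_0_62)) (by decide +kernel)

def z12_6_0 : zOK yB12_6 (nat_lit 0) (nat_lit 0) (nat_lit 400) (nat_lit 36888796) (nat_lit 11270119) = true := by decide +kernel
def g12_6_0 : gOK yB12_6.x P12_6 (nat_lit 1424) (q12_6 :: r12_6) (nat_lit 0) (nat_lit 0) (nat_lit 1) (nat_lit 400) (nat_lit 0) (nat_lit 11000000) (nat_lit 12712500) (nat_lit 12712500) [(nat_lit 800), (nat_lit 1600)] = true := by decide +kernel
def v12_6_0 : ivC P12_6 s12_6 w12_6 n12_6 (nat_lit 4) (nat_lit 5540) (nat_lit 0) (nat_lit 0) f128_1_0 f136_1_0 (nat_lit 1) (nat_lit 400) f128_1_400 f136_1_400 (nat_lit 36888796) (nat_lit 11270119) p12_6_0 = true := by decide +kernel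
def p12_6_1 : PF := (PF.cons (PF.cons (PF.cons (PF.cons (PF.leaf (nat_lit 1997476) (nat_lit 9194479) (nat_lit 57914333) (nat_lit 9194479) [(nat_lit 0), (nat_lit 0), (nat_lit 0), (nat_lit 0)]) (PF.cons (PF.leaf (nat_lit 2101802) (nat_lit 166904) (nat_lit 57730464) (nat_lit 9211444) [(nat_lit 166904), (nat_lit 0), (nat_lit 0), (nat_lit 0)]) (PF.cons (PF.leaf (nat_lit 2229308) (nat_lit 181928) (nat_lit 57514398) (nat_lit 9230556) [(nat_lit 181928), (nat_lit 0), (nat_lit 0), (nat_lit 0)]) (PF.cons (PF.leaf (nat_lit 2372769) (nat_lit 195434) (nat_lit 57271490) (nat_lit 9251019) [(nat_lit 195434), (nat_lit 0), (nat_lit 0), (nat_lit 0)]) (PF.cons PF.nil PF.nil))))) (PF.cons (PF.cons (PF.leaf (nat_lit 2439796) (nat_lit 936710) (nat_lit 56895643) (nat_lit 9276459) [(nat_lit 0), (nat_lit 936710), (nat_lit 0), (nat_lit 0)]) (PF.cons (PF.leaf (nat_lit 2580868) (nat_lit 206435) (nat_lit 56648835) (nat_lit 9294539) [(nat_lit 206435), (nat_lit 959003), (nat_lit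 0), (nat_lit 0)]) (PF.cons (PF.leaf (nat_lit 2739313) (nat_lit 218292) (nat_lit 56377560) (nat_lit 9313262) [(nat_lit 218292), (nat_lit 981404), (nat_lit 0), (nat_lit 0)]) (PF.cons PF.nil PF.nil)))) (PF.cons (PF.cons (PF.leaf (nat_lit 2954622) (nat_lit
 1016006) (nat_lit 55727612) (nat_lit 9349187) [(nat_lit 0), (nat_lit 1016006), (nat_lit 0), (nat_lit 0)]) (PF.cons (PF.leaf (nat_lit 3124182) (nat_lit 238043) (nat_lit 55433796) (nat_lit 9365223) [(nat_lit 238043), (nat_lit 1035875), (nat_lit 0), (nat_lit 0)]) PF.nil)) (PF.cons PF.nil (PF.cons PF.nil PF.nil))))) (PF.cons (PF.cons (PF.cons (PF.leaf (nat_lit 2992018) (nat_lit 2740463) (nat_lit 55007812) (nat_lit 9360536) [(nat_lit 0), (nat_lit 0), (nat_lit 2740463), (nat_lit 0)]) (PF.cons (PF.leaf (nat_lit 3143329) (nat_lit 226682) (nat_lit 54746761) (nat_lit 9372524) [(nat_lit 226682), (nat_lit 0), (nat_lit 2762845), (nat_lit 0)]) (PF.cons (PF.leaf (nat_lit 3311562) (nat_lit 238114) (nat_lit 54462038)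 (nat_lit 9384531) [(nat_lit 238114), (nat_lit 0), (nat_lit 2786014), (nat_lit 0)]) (PF.cons PF.nil PF.nil)))) (PF.cons (PF.cons (PF.leaf (nat_lit 3528156) (nat_lit 1078418) (nat_lit 53798329) (nat_lit 9404244) [(nat_lit 0), (nat_lit 1078418), (nat_lit 2827819), (nat_lit 0)]) (PF.cons PF.nil PF.nil)) (PF.cons PF.nil PF.nil))) (PF.cons (PF.cons (PF.cons (PF.leaf (nat_lit 4098779) (nat_lit 2906228) (nat_lit 51879706) (nat_lit 9416650) [(nat_lit 0), (nat_lit 0), (nat_lit 2906228),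
 (nat_lit 0)]) (PF.cons PF.nil PF.nil)) (PF.cons PF.nil PF.nil)) (PF.cons PF.nil (PF.cons PF.nil PF.nil))))) (PF.cons (PF.cons (PF.cons (PF.cons (PF.leaf (nat_lit 3835521) (nat_lit 6895093) (nat_lit 50897520) (nat_lit 9316199) [(nat_lit 0), (nat_lit 0), (nat_lit 0), (nat_lit 6895093)]) (PF.cons (PF.leaf (nat_lit 3990119) (nat_lit 240143) (nat_lit 50646867) (nat_lit 9317869) [(nat_lit 240143), (nat_lit 0), (nat_lit 0), (nat_lit 6903932)]) (PF.cons (PF.leaf (nat_lit 4160771) (nat_lit 251345) (nat_lit 50374527) (nat_lit 9318875) [(nat_lit 251345), (nat_lit 0), (nat_lit 0), (nat_lit 6912718)]) (PF.cons (PF.leaf (nat_lit 4343356) (nat_lit 261341) (nat_lit 50084579) (nat_lit 9319041) [(nat_lit 261341), (nat_lit 0), (nat_lit 0), (nat_lit 6921167)]) (PF.cons PF.nil PF.nil))))) (PF.cons (PF.cons (PF.leaf (nat_lit 4369454) (nat_lit 1120794) (nat_lit 49748296) (nat_lit 9314338) [(nat_lit 0), (nat_lit 1120794), (nat_lit 0), (nat_lit 6925384)]) (PF.cons (PF.leaf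 (nat_lit 4547950) (nat_lit 267073) (nat_lit 49461847) (nat_lit 9312588) [(nat_lit 267073), (nat_lit 1135431), (nat_lit 0), (nat_lit 6931871)]) (PF.cons PF.nil (PF.cons PF.nil PF.nil)))) (PF.cons (PF.cons (PF.leaf (nat_lit 4943649)
 (nat_lit 1166742) (nat_lit 48534829) (nat_lit 9297495) [(nat_lit 0), (nat_lit 1166742), (nat_lit 0), (nat_lit 6943003)]) (PF.cons PF.nil PF.nil)) PF.nil))) (PF.cons (PF.cons (PF.cons (PF.leaf (nat_lit 4910779) (nat_lit 2942225) (nat_lit 47972119) (nat_lit 9267444) [(nat_lit 0), (nat_lit 0), (nat_lit 2942225), (nat_lit 6927023)]) (PF.cons (PF.leaf (nat_lit 5093058) (nat_lit 278268) (nat_lit 47686413) (nat_lit 9260977) [(nat_lit 278268), (nat_lit 0), (nat_lit 2954020), (nat_lit 6929132)]) (PF.cons PF.nil PF.nil))) (PF.cons (PF.cons (PF.leaf (nat_lit 5487457) (nat_lit 1194369) (nat_lit 46774753) (nat_lit 9231734) [(nat_lit 0), (nat_lit 1194369), (nat_lit 2980974), (nat_lit 6926980)]) PF.nil) PF.nil)) (PF.cons PF.nil PF.nil)))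 (PF.cons (PF.cons (PF.cons (PF.cons (PF.leaf (nat_lit 5652243) (nat_lit 6806450) (nat_lit 44451776) (nat_lit 9044134) [(nat_lit 0), (nat_lit 0), (nat_lit 0), (nat_lit 6806450)]) (PF.cons (PF.leaf (nat_lit 5831842) (nat_lit 282144) (nat_lit 44188934) (nat_lit 9031797) [(nat_lit 282144), (nat_lit 0), (nat_lit 0), (nat_lit 6802968)]) (PF.cons PF.nil PF.nil))) (PF.cons (PF.cons (PF.leaf (nat_lit 6211230) (nat_lit 1197837) (nat_lit 43356295) (nat_lit 8985621)
 [(nat_lit 0), (nat_lit 1197837), (nat_lit 0), (nat_lit 6784529)]) PF.nil) PF.nil)) (PF.cons PF.nil PF.nil)) (PF.cons PF.nil (PF.cons PF.nil (PF.cons PF.nil PF.nil))))))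

def p12_6_1_0 : pfC (piC [(nat_lit 43428061), (nat_lit 27968816), (nat_lit 20557252), (nat_lit 13862945)] (nat_lit 11270119)) p12_6_1 (nat_lit 4) (nat_lit 0) (nat_lit 1) = true := by decide +kernel
def p12_6_1_1 : pfC (piC [(nat_lit 43428061), (nat_lit 27968816), (nat_lit 20557252), (nat_lit 13862945)] (nat_lit 11270119)) p12_6_1 (nat_lit 4) (nat_lit 1) (nat_lit 2) = true := by decide +kernel
def p12_6_1_2 : pfC (piC [(nat_lit 43428061), (nat_lit 27968816), (nat_lit 20557252), (nat_lit 13862945)] (nat_lit 11270119)) p12_6_1 (nat_lit 4) (nat_lit 2) (nat_lit 3) = true := by decide +kernel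
def p12_6_1_3 : pfC (piC [(nat_lit 43428061), (nat_lit 27968816), (nat_lit 20557252), (nat_lit 13862945)] (nat_lit 11270119)) p12_6_1 (nat_lit 4) (nat_lit 3) (nat_lit 4) = true := by decide +kernel
def p12_6_1_4 : pfC (piC [(nat_lit 43428061), (nat_lit 27968816), (nat_lit 20557252), (nat_lit 13862945)] (nat_lit 11270119)) p12_6_1 (nat_lit 4) (nat_lit 4) (nat_lit 5) = true := by decide +kernel
def p12_6_1_5 : pfC (piC [(nat_lit 43428061), (nat_lit 27968816), (nat_lit 20557252), (nat_lit 13862945)] (nat_lit 11270119)) p12_6_1 (nat_lit 4) (nat_lit 5) (nat_lit 6) = true := by decide +kernel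
def p12_6_1_6 : pfC (piC [(nat_lit 43428061), (nat_lit 27968816), (nat_lit 20557252), (nat_lit 13862945)] (nat_lit 11270119)) p12_6_1 (nat_lit 4) (nat_lit 6) (nat_lit 7) = true := by decide +kernel
def p12_6_1_7 : pfC (piC [(nat_lit 43428061), (nat_lit 27968816), (nat_lit 20557252), (nat_lit 13862945)] (nat_lit 11270119)) p12_6_1 (nat_lit 4) (nat_lit 7) (nat_lit 8) = true := by decide +kernel
def p12_6_1_8 : pfC (piC [(nat_lit 43428061), (nat_lit 27968816), (nat_lit 20557252), (nat_lit 13862945)] (nat_lit 11270119)) p12_6_1 (nat_lit 4) (nat_lit 8) (nat_lit 9) = true := by decide +kernel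
def p12_6_1_9 : pfC (piC [(nat_lit 43428061), (nat_lit 27968816), (nat_lit 20557252), (nat_lit 13862945)] (nat_lit 11270119)) p12_6_1 (nat_lit 4) (nat_lit 9) (nat_lit 10) = true := by decide +kernel
def p12_6_1_10 : pfC (piC [(nat_lit 43428061), (nat_lit 27968816), (nat_lit 20557252), (nat_lit 13862945)] (nat_lit 11270119)) p12_6_1 (nat_lit 4) (nat_lit 10) (nat_lit 11) = true := by decide +kernel
def p12_6_1_11 : pfC (piC [(nat_lit 43428061), (nat_lit 27968816), (nat_lit 20557252), (nat_lit 13862945)] (nat_lit 11270119)) p12_6_1 (nat_lit 4) (nat_lit 11) (nat_lit 12) = true := by decide +kernel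
def p12_6_1_12 : pfC (piC [(nat_lit 43428061), (nat_lit 27968816), (nat_lit 20557252), (nat_lit 13862945)] (nat_lit 11270119)) p12_6_1 (nat_lit 4) (nat_lit 12) (nat_lit 13) = true := by decide +kernel
def p12_6_1_13 : pfC (piC [(nat_lit 43428061), (nat_lit 27968816), (nat_lit 20557252), (nat_lit 13862945)] (nat_lit 11270119)) p12_6_1 (nat_lit 4) (nat_lit 13) (nat_lit 14) = true := by decide +kernel
def p12_6_1_14 : pfC (piC [(nat_lit 43428061), (nat_lit 27968816), (nat_lit 20557252), (nat_lit 13862945)] (nat_lit 11270119)) p12_6_1 (nat_lit 4) (nat_lit 14) (nat_lit 15) = true := by decide +kernel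
def p12_6_1_15 : pfC (piC [(nat_lit 43428061), (nat_lit 27968816), (nat_lit 20557252), (nat_lit 13862945)] (nat_lit 11270119)) p12_6_1 (nat_lit 4) (nat_lit 15) (nat_lit 16) = true := by decide +kernel
def p12_6_1_16 : pfC (piC [(nat_lit 43428061), (nat_lit 27968816), (nat_lit 20557252), (nat_lit 13862945)] (nat_lit 11270119)) p12_6_1 (nat_lit 4) (nat_lit 16) (nat_lit 17) = true := by decide +kernel
def p12_6_1_17 : pfC (piC [(nat_lit 43428061), (nat_lit 27968816), (nat_lit 20557252), (nat_lit 13862945)] (nat_lit 11270119)) p12_6_1 (nat_lit 4) (nat_lit 17) (nat_lit 18) = true := by decide +kernel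
def p12_6_1_18 : pfC (piC [(nat_lit 43428061), (nat_lit 27968816), (nat_lit 20557252), (nat_lit 13862945)] (nat_lit 11270119)) p12_6_1 (nat_lit 4) (nat_lit 18) (nat_lit 19) = true := by decide +kernel
def p12_6_1_19 : pfC (piC [(nat_lit 43428061), (nat_lit 27968816), (nat_lit 20557252), (nat_lit 13862945)] (nat_lit 11270119)) p12_6_1 (nat_lit 4) (nat_lit 19) (nat_lit 20) = true := by decide +kernel
def p12_6_1_20 : pfC (piC [(nat_lit 43428061), (nat_lit 27968816), (nat_lit 20557252), (nat_lit 13862945)] (nat_lit 11270119)) p12_6_1 (nat_lit 4) (nat_lit 20) (nat_lit 21) = true := by decide +kernel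
def p12_6_1_21 : pfC (piC [(nat_lit 43428061), (nat_lit 27968816), (nat_lit 20557252), (nat_lit 13862945)] (nat_lit 11270119)) p12_6_1 (nat_lit 4) (nat_lit 21) (nat_lit 22) = true := by decide +kernel
def p12_6_1_22 : pfC (piC [(nat_lit 43428061), (nat_lit 27968816), (nat_lit 20557252), (nat_lit 13862945)] (nat_lit 11270119)) p12_6_1 (nat_lit 4) (nat_lit 22) (nat_lit 23) = true := by decide +kernel
def p12_6_1_23 : pfC (piC [(nat_lit 43428061), (nat_lit 27968816), (nat_lit 20557252), (nat_lit 13862945)] (nat_lit 11270119)) p12_6_1 (nat_lit 4) (nat_lit 23) (nat_lit 24) = true := by decide +kernel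
def p12_6_1_24 : pfC (piC [(nat_lit 43428061), (nat_lit 27968816), (nat_lit 20557252), (nat_lit 13862945)] (nat_lit 11270119)) p12_6_1 (nat_lit 4) (nat_lit 24) (nat_lit 25) = true := by decide +kernel
def p12_6_1_25 : pfC (piC [(nat_lit 43428061), (nat_lit 27968816), (nat_lit 20557252), (nat_lit 13862945)] (nat_lit 11270119)) p12_6_1 (nat_lit 4) (nat_lit 25) (nat_lit 26) = true := by decide +kernel
def p12_6_1_26 : pfC (piC [(nat_lit 43428061), (nat_lit 27968816), (nat_lit 20557252), (nat_lit 13862945)] (nat_lit 11270119)) p12_6_1 (nat_lit 4) (nat_lit 26) (nat_lit 27) = true := by decide +kernel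
theorem p12_6_1_T : PfS (PiF n12_6.reverse (nat_lit 11270119)) p12_6_1 (nat_lit 4) [] 0 :=
  pftab_of (los := [(nat_lit 43428061), (nat_lit 27968816), (nat_lit 20557252), (nat_lit 13862945)]) (by decide +kernel) (hi := (nat_lit 27)) (PfP.trans (PfP.trans (PfP.trans (PfP.trans (PfP.trans (PfP.trans (PfP.trans (PfP.trans (PfP.trans (PfP.trans (PfP.trans (PfP.trans (PfP.trans (PfP.trans (PfP.trans (PfP.trans (PfP.trans (PfP.trans (PfP.trans (PfP.trans (PfP.trans (PfP.trans (PfP.trans (PfP.trans (PfP.trans (PfP.trans (pfC_sound p12_6_1_0) (pfC_sound p12_6_1_1)) (pfC_sound p12_6_1_2)) (pfC_sound p12_6_1_3)) (pfC_sound p12_6_1_4)) (pfC_sound p12_6_1_5)) (pfC_sound p12_6_1_6)) (pfC_sound p12_6_1_7)) (pfC_sound p12_6_1_8)) (pfC_sound p12_6_1_9)) (pfC_sound p12_6_1_10)) (pfC_sound p12_6_1_11)) (pfC_sound p12_6_1_12)) (pfC_sound p12_6_1_13)) (pfC_sound p12_6_1_14)) (pfC_sound p12_6_1_15)) (pfC_sound p12_6_1_16)) (pfC_sound p12_6_1_17)) (pfC_sound p12_6_1_18))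 (pfC_sound p12_6_1_19)) (pfC_sound p12_6_1_20)) (pfC_sound p12_6_1_21)) (pfC_sound p12_6_1_22)) (pfC_sound p12_6_1_23)) (pfC_sound p12_6_1_24)) (pfC_sound p12_6_1_25)) (pfC_sound p12_6_1_26)) (by decide +kernel)

def z12_6_1 : zOK yB12_6 (nat_lit 1) (nat_lit 400) (nat_lit 600) (nat_lit 11270119) (nat_lit 7133500) = true := by decide +kernel
def g12_6_1 : gOK yB12_6.x P12_6 (nat_lit 1424) (q12_6 :: r12_6) (nat_lit 1) (nat_lit 400) (nat_lit 2) (nat_lit 600) (nat_lit 11000000) (nat_lit 17850000) (nat_lit 12712500) (nat_lit 12712500) [(nat_lit 800), (nat_lit 1040)] = true := by decide +kernel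
def v12_6_1 : ivC P12_6 s12_6 w12_6 n12_6 (nat_lit 4) (nat_lit 5140) (nat_lit 1) (nat_lit 400) f128_1_400 f136_1_400 (nat_lit 2) (nat_lit 600) f128_1_600 f136_1_600 (nat_lit 11270119) (nat_lit 7133500) p12_6_1 = true := by decide +kernel
def p12_6_2 : PF := (PF.cons (PF.cons (PF.cons (PF.cons (PF.leaf (nat_lit 2688277) (nat_lit 15345294) (nat_lit 51763518) (nat_lit 15345294) [(nat_lit 0), (nat_lit 0), (nat_lit 0), (nat_lit 0)]) (PF.cons (PF.leaf (nat_lit 2790968) (nat_lit 169173) (nat_lit 51602715) (nat_lit 15336924) [(nat_lit 169173), (nat_lit 0), (nat_lit 0), (nat_lit 0)]) (PF.cons (PF.leaf (nat_lit 2916267) (nat_lit 184086) (nat_lit 51414037) (nat_lit 15326602) [(nat_lit 184086), (nat_lit 0), (nat_lit 0), (nat_lit 0)]) (PF.cons (PF.leaf (nat_lit 3057082) (nat_lit 197385) (nat_lit 51202266) (nat_lit 15314388) [(nat_lit 197385), (nat_lit 0), (nat_lit 0), (nat_lit 0)]) (PF.cons (PF.leaf (nat_lit 3211232) (nat_lit 209446) (nat_lit 50970735) (nat_lit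 15300290) [(nat_lit 209446), (nat_lit 0), (nat_lit 0), (nat_lit 0)]) (PF.cons PF.nil (PF.cons PF.nil PF.nil))))))) (PF.cons (PF.cons (PF.leaf (nat_lit 3116777) (nat_lit 940491) (nat_lit 50876548) (nat_lit 15291773) [(nat_lit 0), (nat_lit 940491), (nat_lit 0), (nat_lit 0)]) (PF.cons (PF.leaf (nat_lit 3254300) (nat_lit 207550) (nat_lit 50662269) (nat_lit 15277709) [(nat_lit 207550), (nat_lit 961283), (nat_lit 0), (nat_lit 0)]) (PF.cons (PF.leaf (nat_lit 3408464) (nat_lit 219074) (nat_lit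
 50427118) (nat_lit 15261541) [(nat_lit 219074), (nat_lit 982005), (nat_lit 0), (nat_lit 0)]) (PF.cons (PF.leaf (nat_lit 3575128) (nat_lit 229596) (nat_lit 50174388) (nat_lit 15243323) [(nat_lit 229596), (nat_lit 1002311), (nat_lit 0), (nat_lit 0)]) (PF.cons PF.nil PF.nil))))) (PF.cons (PF.cons (PF.leaf (nat_lit 3611233) (nat_lit 1012531) (nat_lit 49866458) (nat_lit 15217291) [(nat_lit 0), (nat_lit 1012531), (nat_lit 0), (nat_lit 0)]) (PF.cons (PF.leaf (nat_lit 3775006) (nat_lit 237488) (nat_lit 49613071) (nat_lit 15197090) [(nat_lit 237488), (nat_lit 1030581), (nat_lit 0), (nat_lit 0)]) (PF.cons PF.nil (PF.cons PF.nil PF.nil)))) (PF.cons (PF.cons (PF.leaf (nat_lit 4154866) (nat_lit 1072103) (nat_lit 48771198) (nat_lit 15121304) [(nat_lit 0), (nat_lit 1072103), (nat_lit 0), (nat_lit 0)]) (PF.cons PF.nil PF.nil)) (PF.cons PF.nil PF.nil))))) (PF.cons (PF.cons (PF.cons (PF.leaf (nat_lit 3633075) (nat_lit 2704043) (nat_lit 49254135) (nat_lit 15150634)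 [(nat_lit 0), (nat_lit 0), (nat_lit 2704043), (nat_lit 0)]) (PF.cons (PF.leaf (nat_lit 3779205) (nat_lit 225381) (nat_lit 49029632) (nat_lit 15131125) [(nat_lit 225381), (nat_lit 0), (nat_lit 2722673), (nat_lit 0)]) (PF.cons (PF.leaf
 (nat_lit 3941341) (nat_lit 236388) (nat_lit 48785065) (nat_lit 15109148) [(nat_lit 236388), (nat_lit 0), (nat_lit 2741821), (nat_lit 0)]) (PF.cons (PF.leaf (nat_lit 4115393) (nat_lit 246293) (nat_lit 48524003) (nat_lit 15084867) [(nat_lit 246293), (nat_lit 0), (nat_lit 2761060), (nat_lit 0)]) (PF.cons PF.nil PF.nil))))) (PF.cons (PF.cons (PF.leaf (nat_lit 4143925) (nat_lit 1064220) (nat_lit 48217263) (nat_lit 15052613) [(nat_lit 0), (nat_lit 1064220), (nat_lit 2774715), (nat_lit 0)]) (PF.cons (PF.leaf (nat_lit 4314245) (nat_lit 252580) (nat_lit 47958126) (nat_lit 15026697) [(nat_lit 252580), (nat_lit 1079646), (nat_lit 2791761), (nat_lit 0)]) (PF.cons PF.nil (PF.cons PF.nil PF.nil)))) (PF.cons (PF.cons (PF.leaf (nat_lit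 4697260) (nat_lit 1113705) (nat_lit 47113040) (nat_lit 14933986) [(nat_lit 0), (nat_lit 1113705), (nat_lit 2834375), (nat_lit 0)]) (PF.cons PF.nil PF.nil)) PF.nil))) (PF.cons (PF.cons (PF.cons (PF.leaf (nat_lit 4671793) (nat_lit 2831256) (nat_lit 46587208) (nat_lit 14859092) [(nat_lit 0), (nat_lit 0), (nat_lit 2831256), (nat_lit 0)]) (PF.cons (PF.leaf (nat_lit 4846849) (nat_lit 264883) (nat_lit 46326327) (nat_lit 14828208) [(nat_lit 264883), (nat_lit 0), (nat_lit
 2844696), (nat_lit 0)]) PF.nil)) (PF.cons PF.nil PF.nil)) (PF.cons PF.nil (PF.cons PF.nil PF.nil))))) (PF.cons (PF.cons (PF.cons (PF.cons (PF.leaf (nat_lit 4396191) (nat_lit 6635205) (nat_lit 45783503) (nat_lit 14690104) [(nat_lit 0), (nat_lit 0), (nat_lit 0), (nat_lit 6635205)]) (PF.cons (PF.leaf (nat_lit 4544247) (nat_lit 235297) (nat_lit 45569884) (nat_lit 14664066) [(nat_lit 235297), (nat_lit 0), (nat_lit 0), (nat_lit 6639564)]) (PF.cons (PF.leaf (nat_lit 4707794) (nat_lit 246024)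 (nat_lit 45337922) (nat_lit 14635209) [(nat_lit 246024), (nat_lit 0), (nat_lit 0), (nat_lit 6643633)]) (PF.cons (PF.leaf (nat_lit 4882457) (nat_lit 255543) (nat_lit 45091108) (nat_lit 14603844) [(nat_lit 255543), (nat_lit 0), (nat_lit 0), (nat_lit 6647230)]) (PF.cons PF.nil PF.nil))))) (PF.cons (PF.cons (PF.leaf (nat_lit 4902679) (nat_lit 1092094) (nat_lit 44806032) (nat_lit 14564335) [(nat_lit 0), (nat_lit 1092094), (nat_lit 0), (nat_lit 6646350)]) (PF.cons (PF.leaf (nat_lit 5072981) (nat_lit 260597) (nat_lit 44562477) (nat_lit 14531961) [(nat_lit 260597), (nat_lit 1105354), (nat_lit 0), (nat_lit 6648421)]) (PF.cons (PF.leaf (nat_lit 5254979) (nat_lit 268921) (nat_lit 44305785) (nat_lit 14497150)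
 [(nat_lit 268921), (nat_lit 1118153), (nat_lit 0), (nat_lit 6649879)]) (PF.cons PF.nil PF.nil)))) (PF.cons (PF.cons (PF.leaf (nat_lit 5445574) (nat_lit 1132729) (nat_lit 43775977) (nat_lit 14420657) [(nat_lit 0), (nat_lit 1132729), (nat_lit 0), (nat_lit 6646718)]) (PF.cons PF.nil PF.nil)) PF.nil))) (PF.cons (PF.cons (PF.cons (PF.leaf (nat_lit 5404586) (nat_lit 2840364) (nat_lit 43303521) (nat_lit 14339283) [(nat_lit 0), (nat_lit 0), (nat_lit 2840364), (nat_lit 6625643)]) (PF.cons (PF.leaf (nat_lit 5578034) (nat_lit 270196) (nat_lit 43061052) (nat_lit 14303373) [(nat_lit 270196), (nat_lit 0), (nat_lit 2849853), (nat_lit 6624336)]) (PF.cons PF.nil PF.nil))) (PF.cons (PF.cons (PF.leaf (nat_lit 5948928) (nat_lit 1154704) (nat_lit 42288616) (nat_lit 14182647) [(nat_lit 0), (nat_lit 1154704), (nat_lit 2870224), (nat_lit 6612620)]) PF.nil) PF.nil)) (PF.cons PF.nil PF.nil))) (PF.cons (PF.cons (PF.cons (PF.cons (PF.leaf (nat_lit 6079617) (nat_lit 6485333)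 (nat_lit 40343112) (nat_lit 13795032) [(nat_lit 0), (nat_lit 0), (nat_lit 0), (nat_lit 6485333)]) (PF.cons (PF.leaf (nat_lit 6250434) (nat_lit 272395) (nat_lit 40119735) (nat_lit 13756476) [(nat_lit 272395), (nat_lit 0), (nat_lit 0),
 (nat_lit 6480103)]) (PF.cons PF.nil PF.nil))) (PF.cons (PF.cons (PF.leaf (nat_lit 6608108) (nat_lit 1152570) (nat_lit 39412779) (nat_lit 13629161) [(nat_lit 0), (nat_lit 1152570), (nat_lit 0), (nat_lit 6457150)]) PF.nil) PF.nil)) (PF.cons PF.nil PF.nil)) (PF.cons PF.nil (PF.cons PF.nil (PF.cons PF.nil PF.nil))))))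

def p12_6_2_0 : pfC (piC [(nat_lit 43428061), (nat_lit 27968816), (nat_lit 20557252), (nat_lit 13862945)] (nat_lit 7133500)) p12_6_2 (nat_lit 4) (nat_lit 0) (nat_lit 1) = true := by decide +kernel
def p12_6_2_1 : pfC (piC [(nat_lit 43428061), (nat_lit 27968816), (nat_lit 20557252), (nat_lit 13862945)] (nat_lit 7133500)) p12_6_2 (nat_lit 4) (nat_lit 1) (nat_lit 2) = true := by decide +kernel
def p12_6_2_2 : pfC (piC [(nat_lit 43428061), (nat_lit 27968816), (nat_lit 20557252), (nat_lit 13862945)] (nat_lit 7133500)) p12_6_2 (nat_lit 4) (nat_lit 2) (nat_lit 3) = true := by decide +kernel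
def p12_6_2_3 : pfC (piC [(nat_lit 43428061), (nat_lit 27968816), (nat_lit 20557252), (nat_lit 13862945)] (nat_lit 7133500)) p12_6_2 (nat_lit 4) (nat_lit 3) (nat_lit 4) = true := by decide +kernel
def p12_6_2_4 : pfC (piC [(nat_lit 43428061), (nat_lit 27968816), (nat_lit 20557252), (nat_lit 13862945)] (nat_lit 7133500)) p12_6_2 (nat_lit 4) (nat_lit 4) (nat_lit 5) = true := by decide +kernel
def p12_6_2_5 : pfC (piC [(nat_lit 43428061), (nat_lit 27968816), (nat_lit 20557252), (nat_lit 13862945)] (nat_lit 7133500)) p12_6_2 (nat_lit 4) (nat_lit 5) (nat_lit 6) = true := by decide +kernel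
def p12_6_2_6 : pfC (piC [(nat_lit 43428061), (nat_lit 27968816), (nat_lit 20557252), (nat_lit 13862945)] (nat_lit 7133500)) p12_6_2 (nat_lit 4) (nat_lit 6) (nat_lit 7) = true := by decide +kernel
def p12_6_2_7 : pfC (piC [(nat_lit 43428061), (nat_lit 27968816), (nat_lit 20557252), (nat_lit 13862945)] (nat_lit 7133500)) p12_6_2 (nat_lit 4) (nat_lit 7) (nat_lit 8) = true := by decide +kernel
def p12_6_2_8 : pfC (piC [(nat_lit 43428061), (nat_lit 27968816), (nat_lit 20557252), (nat_lit 13862945)] (nat_lit 7133500)) p12_6_2 (nat_lit 4) (nat_lit 8) (nat_lit 9) = true := by decide +kernel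
def p12_6_2_9 : pfC (piC [(nat_lit 43428061), (nat_lit 27968816), (nat_lit 20557252), (nat_lit 13862945)] (nat_lit 7133500)) p12_6_2 (nat_lit 4) (nat_lit 9) (nat_lit 10) = true := by decide +kernel
def p12_6_2_10 : pfC (piC [(nat_lit 43428061), (nat_lit 27968816), (nat_lit 20557252), (nat_lit 13862945)] (nat_lit 7133500)) p12_6_2 (nat_lit 4) (nat_lit 10) (nat_lit 11) = true := by decide +kernel
def p12_6_2_11 : pfC (piC [(nat_lit 43428061), (nat_lit 27968816), (nat_lit 20557252), (nat_lit 13862945)] (nat_lit 7133500)) p12_6_2 (nat_lit 4) (nat_lit 11) (nat_lit 12) = true := by decide +kernel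
def p12_6_2_12 : pfC (piC [(nat_lit 43428061), (nat_lit 27968816), (nat_lit 20557252), (nat_lit 13862945)] (nat_lit 7133500)) p12_6_2 (nat_lit 4) (nat_lit 12) (nat_lit 13) = true := by decide +kernel
def p12_6_2_13 : pfC (piC [(nat_lit 43428061), (nat_lit 27968816), (nat_lit 20557252), (nat_lit 13862945)] (nat_lit 7133500)) p12_6_2 (nat_lit 4) (nat_lit 13) (nat_lit 14) = true := by decide +kernel
def p12_6_2_14 : pfC (piC [(nat_lit 43428061), (nat_lit 27968816), (nat_lit 20557252), (nat_lit 13862945)] (nat_lit 7133500)) p12_6_2 (nat_lit 4) (nat_lit 14) (nat_lit 15) = true := by decide +kernel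
def p12_6_2_15 : pfC (piC [(nat_lit 43428061), (nat_lit 27968816), (nat_lit 20557252), (nat_lit 13862945)] (nat_lit 7133500)) p12_6_2 (nat_lit 4) (nat_lit 15) (nat_lit 16) = true := by decide +kernel
def p12_6_2_16 : pfC (piC [(nat_lit 43428061), (nat_lit 27968816), (nat_lit 20557252), (nat_lit 13862945)] (nat_lit 7133500)) p12_6_2 (nat_lit 4) (nat_lit 16) (nat_lit 17) = true := by decide +kernel
def p12_6_2_17 : pfC (piC [(nat_lit 43428061), (nat_lit 27968816), (nat_lit 20557252), (nat_lit 13862945)] (nat_lit 7133500)) p12_6_2 (nat_lit 4) (nat_lit 17) (nat_lit 18) = true := by decide +kernel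
def p12_6_2_18 : pfC (piC [(nat_lit 43428061), (nat_lit 27968816), (nat_lit 20557252), (nat_lit 13862945)] (nat_lit 7133500)) p12_6_2 (nat_lit 4) (nat_lit 18) (nat_lit 19) = true := by decide +kernel
def p12_6_2_19 : pfC (piC [(nat_lit 43428061), (nat_lit 27968816), (nat_lit 20557252), (nat_lit 13862945)] (nat_lit 7133500)) p12_6_2 (nat_lit 4) (nat_lit 19) (nat_lit 20) = true := by decide +kernel
def p12_6_2_20 : pfC (piC [(nat_lit 43428061), (nat_lit 27968816), (nat_lit 20557252), (nat_lit 13862945)] (nat_lit 7133500)) p12_6_2 (nat_lit 4) (nat_lit 20) (nat_lit 21) = true := by decide +kernel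
def p12_6_2_21 : pfC (piC [(nat_lit 43428061), (nat_lit 27968816), (nat_lit 20557252), (nat_lit 13862945)] (nat_lit 7133500)) p12_6_2 (nat_lit 4) (nat_lit 21) (nat_lit 22) = true := by decide +kernel
def p12_6_2_22 : pfC (piC [(nat_lit 43428061), (nat_lit 27968816), (nat_lit 20557252), (nat_lit 13862945)] (nat_lit 7133500)) p12_6_2 (nat_lit 4) (nat_lit 22) (nat_lit 23) = true := by decide +kernel
def p12_6_2_23 : pfC (piC [(nat_lit 43428061), (nat_lit 27968816), (nat_lit 20557252), (nat_lit 13862945)] (nat_lit 7133500)) p12_6_2 (nat_lit 4) (nat_lit 23) (nat_lit 24) = true := by decide +kernel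
def p12_6_2_24 : pfC (piC [(nat_lit 43428061), (nat_lit 27968816), (nat_lit 20557252), (nat_lit 13862945)] (nat_lit 7133500)) p12_6_2 (nat_lit 4) (nat_lit 24) (nat_lit 25) = true := by decide +kernel
def p12_6_2_25 : pfC (piC [(nat_lit 43428061), (nat_lit 27968816), (nat_lit 20557252), (nat_lit 13862945)] (nat_lit 7133500)) p12_6_2 (nat_lit 4) (nat_lit 25) (nat_lit 26) = true := by decide +kernel
def p12_6_2_26 : pfC (piC [(nat_lit 43428061), (nat_lit 27968816), (nat_lit 20557252), (nat_lit 13862945)] (nat_lit 7133500)) p12_6_2 (nat_lit 4) (nat_lit 26) (nat_lit 27) = true := by decide +kernel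
def p12_6_2_27 : pfC (piC [(nat_lit 43428061), (nat_lit 27968816), (nat_lit 20557252), (nat_lit 13862945)] (nat_lit 7133500)) p12_6_2 (nat_lit 4) (nat_lit 27) (nat_lit 28) = true := by decide +kernel
def p12_6_2_28 : pfC (piC [(nat_lit 43428061), (nat_lit 27968816), (nat_lit 20557252), (nat_lit 13862945)] (nat_lit 7133500)) p12_6_2 (nat_lit 4) (nat_lit 28) (nat_lit 29) = true := by decide +kernel
def p12_6_2_29 : pfC (piC [(nat_lit 43428061), (nat_lit 27968816), (nat_lit 20557252), (nat_lit 13862945)] (nat_lit 7133500)) p12_6_2 (nat_lit 4) (nat_lit 29) (nat_lit 30) = true := by decide +kernel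
def p12_6_2_30 : pfC (piC [(nat_lit 43428061), (nat_lit 27968816), (nat_lit 20557252), (nat_lit 13862945)] (nat_lit 7133500)) p12_6_2 (nat_lit 4) (nat_lit 30) (nat_lit 31) = true := by decide +kernel
def p12_6_2_31 : pfC (piC [(nat_lit 43428061), (nat_lit 27968816), (nat_lit 20557252), (nat_lit 13862945)] (nat_lit 7133500)) p12_6_2 (nat_lit 4) (nat_lit 31) (nat_lit 32) = true := by decide +kernel
def p12_6_2_32 : pfC (piC [(nat_lit 43428061), (nat_lit 27968816), (nat_lit 20557252), (nat_lit 13862945)] (nat_lit 7133500)) p12_6_2 (nat_lit 4) (nat_lit 32) (nat_lit 33) = true := by decide +kernel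
def p12_6_2_33 : pfC (piC [(nat_lit 43428061), (nat_lit 27968816), (nat_lit 20557252), (nat_lit 13862945)] (nat_lit 7133500)) p12_6_2 (nat_lit 4) (nat_lit 33) (nat_lit 34) = true := by decide +kernel
def p12_6_2_34 : pfC (piC [(nat_lit 43428061), (nat_lit 27968816), (nat_lit 20557252), (nat_lit 13862945)] (nat_lit 7133500)) p12_6_2 (nat_lit 4) (nat_lit 34) (nat_lit 35) = true := by decide +kernel
theorem p12_6_2_T : PfS (PiF n12_6.reverse (nat_lit 7133500)) p12_6_2 (nat_lit 4) [] 0 :=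
  pftab_of (los := [(nat_lit 43428061), (nat_lit 27968816), (nat_lit 20557252), (nat_lit 13862945)]) (by decide +kernel) (hi := (nat_lit 35)) (PfP.trans (PfP.trans (PfP.trans (PfP.trans (PfP.trans (PfP.trans (PfP.trans (PfP.trans (PfP.trans (PfP.trans (PfP.trans (PfP.trans (PfP.trans (PfP.trans (PfP.trans (PfP.trans (PfP.trans (PfP.trans (PfP.trans (PfP.trans (PfP.trans (PfP.trans (PfP.trans (PfP.trans (PfP.trans (PfP.trans (PfP.trans (PfP.trans (PfP.trans (PfP.trans (PfP.trans (PfP.trans (PfP.trans (PfP.trans (pfC_sound p12_6_2_0) (pfC_sound p12_6_2_1)) (pfC_sound p12_6_2_2)) (pfC_sound p12_6_2_3)) (pfC_sound p12_6_2_4)) (pfC_sound p12_6_2_5)) (pfC_sound p12_6_2_6)) (pfC_sound p12_6_2_7)) (pfC_sound p12_6_2_8)) (pfC_sound p12_6_2_9)) (pfC_sound p12_6_2_10)) (pfC_sound p12_6_2_11)) (pfC_sound p12_6_2_12)) (pfC_sound p12_6_2_13)) (pfC_sound p12_6_2_14)) (pfC_sound p12_6_2_15)) (pfC_sound p12_6_2_16)) (pfC_sound p12_6_2_17)) (pfC_sound p12_6_2_18))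 (pfC_sound p12_6_2_19)) (pfC_sound p12_6_2_20)) (pfC_sound p12_6_2_21)) (pfC_sound p12_6_2_22)) (pfC_sound p12_6_2_23)) (pfC_sound p12_6_2_24)) (pfC_sound p12_6_2_25)) (pfC_sound p12_6_2_26)) (pfC_sound p12_6_2_27)) (pfC_sound p12_6_2_28)) (pfC_sound p12_6_2_29)) (pfC_sound p12_6_2_30)) (pfC_sound p12_6_2_31)) (pfC_sound p12_6_2_32)) (pfC_sound p12_6_2_33)) (pfC_sound
 p12_6_2_34)) (by decide +kernel)

def z12_6_2 : zOK yB12_6 (nat_lit 2) (nat_lit 600) (nat_lit 750) (nat_lit 7133500) (nat_lit 5025270) = true := by decide +kernel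
def g12_6_2 : gOK yB12_6.x P12_6 (nat_lit 1424) (q12_6 :: r12_6) (nat_lit 2) (nat_lit 600) (nat_lit 3) (nat_lit 750) (nat_lit 12712500) (nat_lit 12712500) (nat_lit 12712500) (nat_lit 12712500) [(nat_lit 800), (nat_lit 1600)] = true := by decide +kernel
def v12_6_2 : ivC P12_6 s12_6 w12_6 n12_6 (nat_lit 4) (nat_lit 4940) (nat_lit 2) (nat_lit 600) f128_1_600 f136_1_600 (nat_lit 3) (nat_lit 750) f128_1_750 f136_1_750 (nat_lit 7133500) (nat_lit 5025270) p12_6_2 = true := by decide +kernel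
def p12_6_3 : PF := (PF.cons (PF.cons (PF.cons (PF.cons (PF.leaf (nat_lit 3074760) (nat_lit 20460928) (nat_lit 46647884) (nat_lit 20460928) [(nat_lit 0), (nat_lit 0), (nat_lit 0), (nat_lit 0)]) (PF.cons (PF.leaf (nat_lit 3172636) (nat_lit 163698) (nat_lit 46512966) (nat_lit 20432148) [(nat_lit 163698), (nat_lit 0), (nat_lit 0), (nat_lit 0)]) (PF.cons (PF.leaf (nat_lit 3292703) (nat_lit 178039) (nat_lit 46354677) (nat_lit 20398057) [(nat_lit 178039), (nat_lit 0), (nat_lit 0), (nat_lit 0)]) (PF.cons (PF.leaf (nat_lit 3427503) (nat_lit 190797) (nat_lit 46177032) (nat_lit 20359387) [(nat_lit 190797), (nat_lit 0), (nat_lit 0), (nat_lit 0)]) (PF.cons (PF.leaf (nat_lit 3574886) (nat_lit 202339) (nat_lit 45982829) (nat_lit 20316623) [(nat_lit 202339), (nat_lit 0), (nat_lit 0), (nat_lit 0)]) (PF.cons (PF.leaf (nat_lit 3733581) (nat_lit 212900) (nat_lit 45774192) (nat_lit 20270117) [(nat_lit 212900), (nat_lit 0), (nat_lit 0), (nat_lit 0)]) (PF.cons (PF.leaf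 (nat_lit 3902570) (nat_lit 222640) (nat_lit 45552824) (nat_lit 20220145) [(nat_lit 222640), (nat_lit 0), (nat_lit 0), (nat_lit 0)]) (PF.cons PF.nil (PF.cons PF.nil PF.nil))))))))) (PF.cons (PF.cons (PF.leaf (nat_lit 3482847) (nat_lit 907084) (nat_lit
 45904232) (nat_lit 20297496) [(nat_lit 0), (nat_lit 907084), (nat_lit 0), (nat_lit 0)]) (PF.cons (PF.leaf (nat_lit 3613954) (nat_lit 200349) (nat_lit 45724524) (nat_lit 20257249) [(nat_lit 200349), (nat_lit 926689), (nat_lit 0), (nat_lit 0)]) (PF.cons (PF.leaf (nat_lit 3761159) (nat_lit 211361) (nat_lit 45527318) (nat_lit 20212595) [(nat_lit 211361), (nat_lit 946176), (nat_lit 0), (nat_lit 0)]) (PF.cons (PF.leaf (nat_lit 3920211) (nat_lit 221390) (nat_lit 45315375) (nat_lit 20164042) [(nat_lit 221390), (nat_lit 965221), (nat_lit 0), (nat_lit 0)]) (PF.cons (PF.leaf (nat_lit 4089395) (nat_lit 230620) (nat_lit 45090728) (nat_lit 20111949) [(nat_lit 230620), (nat_lit 983654), (nat_lit 0), (nat_lit 0)])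 (PF.cons PF.nil (PF.cons PF.nil PF.nil))))))) (PF.cons (PF.cons (PF.leaf (nat_lit 3952685) (nat_lit 974414) (nat_lit 45057552) (nat_lit 20102432) [(nat_lit 0), (nat_lit 974414), (nat_lit 0), (nat_lit 0)]) (PF.cons (PF.leaf (nat_lit 4108576) (nat_lit 228727) (nat_lit 44845054) (nat_lit 20052444) [(nat_lit 228727), (nat_lit 991293), (nat_lit 0), (nat_lit 0)]) (PF.cons (PF.leaf (nat_lit 4277272) (nat_lit 237604) (nat_lit 44619294) (nat_lit 19998717) [(nat_lit 237604), (nat_lit 1007795),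
 (nat_lit 0), (nat_lit 0)]) (PF.cons (PF.leaf (nat_lit 4455241) (nat_lit 245795) (nat_lit 44382246) (nat_lit 19941621) [(nat_lit 245795), (nat_lit 1023780), (nat_lit 0), (nat_lit 0)]) (PF.cons PF.nil PF.nil))))) (PF.cons (PF.cons (PF.leaf (nat_lit 4468288) (nat_lit 1029633) (nat_lit 44139347) (nat_lit 19880565) [(nat_lit 0), (nat_lit 1029633), (nat_lit 0), (nat_lit 0)]) (PF.cons (PF.leaf (nat_lit 4643479) (nat_lit 251620) (nat_lit 43902852) (nat_lit 19822189) [(nat_lit 251620), (nat_lit 1044050), (nat_lit 0), (nat_lit 0)]) (PF.cons PF.nil (PF.cons PF.nil PF.nil)))) (PF.cons (PF.cons (PF.leaf (nat_lit 5018015) (nat_lit 1075108) (nat_lit 43172557) (nat_lit 19635821) [(nat_lit 0), (nat_lit 1075108), (nat_lit 0), (nat_lit 0)]) (PF.cons PF.nil PF.nil)) (PF.cons PF.nil PF.nil)))))) (PF.cons (PF.cons (PF.cons (PF.leaf (nat_lit 3968365) (nat_lit 2591815) (nat_lit 44546618) (nat_lit 19970379) [(nat_lit 0), (nat_lit 0), (nat_lit 2591815), (nat_lit 0)]) (PF.cons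 (PF.leaf (nat_lit 4107408) (nat_lit 216844) (nat_lit 44358290) (nat_lit 19924955) [(nat_lit 216844), (nat_lit 0), (nat_lit 2608722), (nat_lit 0)]) (PF.cons (PF.leaf (nat_lit 4261887) (nat_lit 227336) (nat_lit 44153111) (nat_lit
 19874969) [(nat_lit 227336), (nat_lit 0), (nat_lit 2626059), (nat_lit 0)]) (PF.cons (PF.leaf (nat_lit 4427533) (nat_lit 236755) (nat_lit 43934068) (nat_lit 19821039) [(nat_lit 236755), (nat_lit 0), (nat_lit 2643438), (nat_lit 0)]) (PF.cons (PF.leaf (nat_lit 4602832) (nat_lit 245325) (nat_lit 43703316) (nat_lit 19763599) [(nat_lit 245325), (nat_lit 0), (nat_lit 2660594), (nat_lit 0)]) (PF.cons PF.nil (PF.cons PF.nil PF.nil))))))) (PF.cons (PF.cons (PF.leaf (nat_lit 4452948) (nat_lit 1021204) (nat_lit 43677061) (nat_lit 19755244) [(nat_lit 0), (nat_lit 1021204), (nat_lit 2655302), (nat_lit 0)]) (PF.cons (PF.leaf (nat_lit 4614851) (nat_lit 242571) (nat_lit 43459560) (nat_lit 19700432) [(nat_lit 242571), (nat_lit 1035598), (nat_lit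 2670649), (nat_lit 0)]) (PF.cons (PF.leaf (nat_lit 4788675) (nat_lit 250887) (nat_lit 43229650) (nat_lit 19641885) [(nat_lit 250887), (nat_lit 1049613), (nat_lit 2685887), (nat_lit 0)]) (PF.cons PF.nil (PF.cons PF.nil PF.nil))))) (PF.cons (PF.cons (PF.leaf (nat_lit 4977258) (nat_lit 1066981) (nat_lit 42750349) (nat_lit 19516030) [(nat_lit 0), (nat_lit 1066981), (nat_lit 2708470), (nat_lit 0)]) (PF.cons (PF.leaf (nat_lit 5156593) (nat_lit 263101) (nat_lit
 42512206) (nat_lit 19453394) [(nat_lit 263101), (nat_lit 1079216), (nat_lit 2721677), (nat_lit 0)]) (PF.cons PF.nil (PF.cons PF.nil PF.nil)))) (PF.cons (PF.cons (PF.leaf (nat_lit 5530528) (nat_lit 1104522) (nat_lit 41786938) (nat_lit 19256840) [(nat_lit 0), (nat_lit 1104522), (nat_lit 2751465), (nat_lit 0)]) (PF.cons PF.nil PF.nil)) (PF.cons PF.nil PF.nil))))) (PF.cons (PF.cons (PF.cons (PF.leaf (nat_lit 4948747) (nat_lit 2704049) (nat_lit 42310796) (nat_lit 19389916) [(nat_lit 0), (nat_lit 0),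 (nat_lit 2704049), (nat_lit 0)]) (PF.cons (PF.leaf (nat_lit 5114947) (nat_lit 253837) (nat_lit 42091476) (nat_lit 19331229) [(nat_lit 253837), (nat_lit 0), (nat_lit 2716134), (nat_lit 0)]) (PF.cons (PF.leaf (nat_lit 5292558) (nat_lit 261653) (nat_lit 41860552) (nat_lit 19268851) [(nat_lit 261653), (nat_lit 0), (nat_lit 2728051), (nat_lit 0)]) (PF.cons PF.nil PF.nil)))) (PF.cons (PF.cons (PF.leaf (nat_lit 5477855) (nat_lit 1095593) (nat_lit 41387024) (nat_lit 19137308) [(nat_lit 0), (nat_lit 1095593), (nat_lit 2744443), (nat_lit 0)]) (PF.cons (PF.leaf (nat_lit 5659977) (nat_lit 272349) (nat_lit 41149863) (nat_lit 19071374) [(nat_lit 272349), (nat_lit 1106011), (nat_lit 2754607), (nat_lit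
 0)]) PF.nil)) (PF.cons PF.nil PF.nil))) (PF.cons (PF.cons (PF.cons (PF.leaf (nat_lit 5968477) (nat_lit 2767078) (nat_lit 40058321) (nat_lit 18749254) [(nat_lit 0), (nat_lit 0), (nat_lit 2767078), (nat_lit 0)]) (PF.cons PF.nil PF.nil)) (PF.cons PF.nil PF.nil)) (PF.cons PF.nil PF.nil))))) (PF.cons (PF.cons (PF.cons (PF.cons (PF.leaf (nat_lit 4678351) (nat_lit 6300515) (nat_lit 41646636) (nat_lit 19161660) [(nat_lit 0), (nat_lit 0), (nat_lit 0), (nat_lit 6300515)]) (PF.cons (PF.leaf (nat_lit 4819165) (nat_lit 225502) (nat_lit 41466684) (nat_lit 19112835) [(nat_lit 225502), (nat_lit 0), (nat_lit 0), (nat_lit 6303789)]) (PF.cons (PF.leaf (nat_lit 4974830) (nat_lit 235721) (nat_lit 41271224) (nat_lit 19059385) [(nat_lit 235721), (nat_lit 0), (nat_lit 0), (nat_lit 6306760)]) (PF.cons (PF.leaf (nat_lit 5141136) (nat_lit 244775) (nat_lit 41063184) (nat_lit 19002023) [(nat_lit 244775), (nat_lit 0), (nat_lit 0), (nat_lit 6309276)]) (PF.cons (PF.leaf (nat_lit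 5316511) (nat_lit 252914) (nat_lit 40844672) (nat_lit 18941254) [(nat_lit 252914), (nat_lit 0), (nat_lit 0), (nat_lit 6311229)]) (PF.cons PF.nil (PF.cons PF.nil PF.nil))))))) (PF.cons (PF.cons (PF.leaf (nat_lit 5159216) (nat_lit 1044566)
 (nat_lit 40823156) (nat_lit 18933581) [(nat_lit 0), (nat_lit 1044566), (nat_lit 0), (nat_lit 6307508)]) (PF.cons (PF.leaf (nat_lit 5321165) (nat_lit 249481) (nat_lit 40617709) (nat_lit 18875904) [(nat_lit 249481), (nat_lit 1057013), (nat_lit 0), (nat_lit 6308704)]) (PF.cons (PF.leaf (nat_lit 5494386) (nat_lit 257389) (nat_lit 40401098) (nat_lit 18814591) [(nat_lit 257389), (nat_lit 1069012), (nat_lit 0), (nat_lit 6309331)]) (PF.cons PF.nil (PF.cons PF.nil PF.nil))))) (PF.cons (PF.cons (PF.leaf (nat_lit 5674523) (nat_lit 1082473) (nat_lit 39954082) (nat_lit 18684785) [(nat_lit 0), (nat_lit 1082473), (nat_lit 0), (nat_lit 6304998)]) (PF.cons (PF.leaf (nat_lit 5852138) (nat_lit 268148) (nat_lit 39731211) (nat_lit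 18620087) [(nat_lit 268148), (nat_lit 1092807), (nat_lit 0), (nat_lit 6303750)]) (PF.cons PF.nil (PF.cons PF.nil PF.nil)))) (PF.cons (PF.cons (PF.leaf (nat_lit 6214178) (nat_lit 1112816) (nat_lit 39057764) (nat_lit 18419727) [(nat_lit 0), (nat_lit 1112816), (nat_lit 0), (nat_lit 6292870)]) (PF.cons PF.nil PF.nil)) (PF.cons PF.nil PF.nil))))) (PF.cons (PF.cons (PF.cons (PF.leaf (nat_lit 5632625) (nat_lit 2707527) (nat_lit 39556694) (nat_lit 18560198) [(nat_lit 0), (nat_lit
 0), (nat_lit 2707527), (nat_lit 6284392)]) (PF.cons (PF.leaf (nat_lit 5797586) (nat_lit 258374) (nat_lit 39351627) (nat_lit 18499903) [(nat_lit 258374), (nat_lit 0), (nat_lit 2716205), (nat_lit 6282701)]) (PF.cons (PF.leaf (nat_lit 5973336) (nat_lit 265798) (nat_lit 39136139) (nat_lit 18436064) [(nat_lit 265798), (nat_lit 0), (nat_lit 2724647), (nat_lit 6280364)]) (PF.cons PF.nil PF.nil)))) (PF.cons (PF.cons (PF.leaf (nat_lit 6149631) (nat_lit 1102491) (nat_lit 38698048) (nat_lit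 18303162) [(nat_lit 0), (nat_lit 1102491), (nat_lit 2734596), (nat_lit 6270512)]) (PF.cons (PF.leaf (nat_lit 6328961) (nat_lit 275227) (nat_lit 38477859) (nat_lit 18236421) [(nat_lit 275227), (nat_lit 1111282), (nat_lit 2741540), (nat_lit 6266480)]) PF.nil)) (PF.cons PF.nil PF.nil))) (PF.cons (PF.cons (PF.cons (PF.leaf (nat_lit 6614190) (nat_lit 2742932) (nat_lit 37480747) (nat_lit 17918444) [(nat_lit 0), (nat_lit 0), (nat_lit 2742932), (nat_lit 6223755)]) (PF.cons PF.nil PF.nil)) (PF.cons PF.nil PF.nil)) PF.nil))) (PF.cons (PF.cons (PF.cons (PF.cons (PF.leaf (nat_lit 6267502) (nat_lit 6152045) (nat_lit 37056053) (nat_lit 17748669) [(nat_lit 0), (nat_lit 0), (nat_lit 0), (nat_lit 6152045)]) (PF.cons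
 (PF.leaf (nat_lit 6430186) (nat_lit 260293) (nat_lit 36865791) (nat_lit 17688469) [(nat_lit 260293), (nat_lit 0), (nat_lit 0), (nat_lit 6147129)]) (PF.cons (PF.leaf (nat_lit 6603197) (nat_lit 267355) (nat_lit 36666155) (nat_lit 17624909) [(nat_lit 267355), (nat_lit 0), (nat_lit 0), (nat_lit 6141518)]) (PF.cons PF.nil PF.nil)))) (PF.cons (PF.cons (PF.leaf (nat_lit 6770920) (nat_lit 1100075) (nat_lit 36263263) (nat_lit 17493946) [(nat_lit 0), (nat_lit 1100075), (nat_lit 0), (nat_lit 6125763)]) (PF.cons PF.nil PF.nil)) (PF.cons PF.nil PF.nil))) (PF.cons (PF.cons (PF.cons (PF.leaf (nat_lit 7211205) (nat_lit 2703603) (nat_lit 35152243) (nat_lit 17120105) [(nat_lit 0), (nat_lit 0), (nat_lit 2703603), (nat_lit 6066430)]) (PF.cons PF.nil PF.nil)) PF.nil) PF.nil)) (PF.cons PF.nil (PF.cons PF.nil (PF.cons PF.nil PF.nil))))))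

def p12_6_3_0 : pfC (piC [(nat_lit 43428061), (nat_lit 27968816), (nat_lit 20557252), (nat_lit 13862945)] (nat_lit 5025270)) p12_6_3 (nat_lit 4) (nat_lit 0) (nat_lit 1) = true := by decide +kernel
def p12_6_3_1 : pfC (piC [(nat_lit 43428061), (nat_lit 27968816), (nat_lit 20557252), (nat_lit 13862945)] (nat_lit 5025270)) p12_6_3 (nat_lit 4) (nat_lit 1) (nat_lit 2) = true := by decide +kernel
def p12_6_3_2 : pfC (piC [(nat_lit 43428061), (nat_lit 27968816), (nat_lit 20557252), (nat_lit 13862945)] (nat_lit 5025270)) p12_6_3 (nat_lit 4) (nat_lit 2) (nat_lit 3) = true := by decide +kernel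
def p12_6_3_3 : pfC (piC [(nat_lit 43428061), (nat_lit 27968816), (nat_lit 20557252), (nat_lit 13862945)] (nat_lit 5025270)) p12_6_3 (nat_lit 4) (nat_lit 3) (nat_lit 4) = true := by decide +kernel
def p12_6_3_4 : pfC (piC [(nat_lit 43428061), (nat_lit 27968816), (nat_lit 20557252), (nat_lit 13862945)] (nat_lit 5025270)) p12_6_3 (nat_lit 4) (nat_lit 4) (nat_lit 5) = true := by decide +kernel
def p12_6_3_5 : pfC (piC [(nat_lit 43428061), (nat_lit 27968816), (nat_lit 20557252), (nat_lit 13862945)] (nat_lit 5025270)) p12_6_3 (nat_lit 4) (nat_lit 5) (nat_lit 6) = true := by decide +kernel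
def p12_6_3_6 : pfC (piC [(nat_lit 43428061), (nat_lit 27968816), (nat_lit 20557252), (nat_lit 13862945)] (nat_lit 5025270)) p12_6_3 (nat_lit 4) (nat_lit 6) (nat_lit 7) = true := by decide +kernel
def p12_6_3_7 : pfC (piC [(nat_lit 43428061), (nat_lit 27968816), (nat_lit 20557252), (nat_lit 13862945)] (nat_lit 5025270)) p12_6_3 (nat_lit 4) (nat_lit 7) (nat_lit 8) = true := by decide +kernel
def p12_6_3_8 : pfC (piC [(nat_lit 43428061), (nat_lit 27968816), (nat_lit 20557252), (nat_lit 13862945)] (nat_lit 5025270)) p12_6_3 (nat_lit 4) (nat_lit 8) (nat_lit 9) = true := by decide +kernel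
def p12_6_3_9 : pfC (piC [(nat_lit 43428061), (nat_lit 27968816), (nat_lit 20557252), (nat_lit 13862945)] (nat_lit 5025270)) p12_6_3 (nat_lit 4) (nat_lit 9) (nat_lit 10) = true := by decide +kernel
def p12_6_3_10 : pfC (piC [(nat_lit 43428061), (nat_lit 27968816), (nat_lit 20557252), (nat_lit 13862945)] (nat_lit 5025270)) p12_6_3 (nat_lit 4) (nat_lit 10) (nat_lit 11) = true := by decide +kernel
def p12_6_3_11 : pfC (piC [(nat_lit 43428061), (nat_lit 27968816), (nat_lit 20557252), (nat_lit 13862945)] (nat_lit 5025270)) p12_6_3 (nat_lit 4) (nat_lit 11) (nat_lit 12) = true := by decide +kernel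
def p12_6_3_12 : pfC (piC [(nat_lit 43428061), (nat_lit 27968816), (nat_lit 20557252), (nat_lit 13862945)] (nat_lit 5025270)) p12_6_3 (nat_lit 4) (nat_lit 12) (nat_lit 13) = true := by decide +kernel
def p12_6_3_13 : pfC (piC [(nat_lit 43428061), (nat_lit 27968816), (nat_lit 20557252), (nat_lit 13862945)] (nat_lit 5025270)) p12_6_3 (nat_lit 4) (nat_lit 13) (nat_lit 14) = true := by decide +kernel
def p12_6_3_14 : pfC (piC [(nat_lit 43428061), (nat_lit 27968816), (nat_lit 20557252), (nat_lit 13862945)] (nat_lit 5025270)) p12_6_3 (nat_lit 4) (nat_lit 14) (nat_lit 15) = true := by decide +kernel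
def p12_6_3_15 : pfC (piC [(nat_lit 43428061), (nat_lit 27968816), (nat_lit 20557252), (nat_lit 13862945)] (nat_lit 5025270)) p12_6_3 (nat_lit 4) (nat_lit 15) (nat_lit 16) = true := by decide +kernel
def p12_6_3_16 : pfC (piC [(nat_lit 43428061), (nat_lit 27968816), (nat_lit 20557252), (nat_lit 13862945)] (nat_lit 5025270)) p12_6_3 (nat_lit 4) (nat_lit 16) (nat_lit 17) = true := by decide +kernel
def p12_6_3_17 : pfC (piC [(nat_lit 43428061), (nat_lit 27968816), (nat_lit 20557252), (nat_lit 13862945)] (nat_lit 5025270)) p12_6_3 (nat_lit 4) (nat_lit 17) (nat_lit 18) = true := by decide +kernel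
def p12_6_3_18 : pfC (piC [(nat_lit 43428061), (nat_lit 27968816), (nat_lit 20557252), (nat_lit 13862945)] (nat_lit 5025270)) p12_6_3 (nat_lit 4) (nat_lit 18) (nat_lit 19) = true := by decide +kernel
def p12_6_3_19 : pfC (piC [(nat_lit 43428061), (nat_lit 27968816), (nat_lit 20557252), (nat_lit 13862945)] (nat_lit 5025270)) p12_6_3 (nat_lit 4) (nat_lit 19) (nat_lit 20) = true := by decide +kernel
def p12_6_3_20 : pfC (piC [(nat_lit 43428061), (nat_lit 27968816), (nat_lit 20557252), (nat_lit 13862945)] (nat_lit 5025270)) p12_6_3 (nat_lit 4) (nat_lit 20) (nat_lit 21) = true := by decide +kernel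
def p12_6_3_21 : pfC (piC [(nat_lit 43428061), (nat_lit 27968816), (nat_lit 20557252), (nat_lit 13862945)] (nat_lit 5025270)) p12_6_3 (nat_lit 4) (nat_lit 21) (nat_lit 22) = true := by decide +kernel
def p12_6_3_22 : pfC (piC [(nat_lit 43428061), (nat_lit 27968816), (nat_lit 20557252), (nat_lit 13862945)] (nat_lit 5025270)) p12_6_3 (nat_lit 4) (nat_lit 22) (nat_lit 23) = true := by decide +kernel
def p12_6_3_23 : pfC (piC [(nat_lit 43428061), (nat_lit 27968816), (nat_lit 20557252), (nat_lit 13862945)] (nat_lit 5025270)) p12_6_3 (nat_lit 4) (nat_lit 23) (nat_lit 24) = true := by decide +kernel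
def p12_6_3_24 : pfC (piC [(nat_lit 43428061), (nat_lit 27968816), (nat_lit 20557252), (nat_lit 13862945)] (nat_lit 5025270)) p12_6_3 (nat_lit 4) (nat_lit 24) (nat_lit 25) = true := by decide +kernel
def p12_6_3_25 : pfC (piC [(nat_lit 43428061), (nat_lit 27968816), (nat_lit 20557252), (nat_lit 13862945)] (nat_lit 5025270)) p12_6_3 (nat_lit 4) (nat_lit 25) (nat_lit 26) = true := by decide +kernel
def p12_6_3_26 : pfC (piC [(nat_lit 43428061), (nat_lit 27968816), (nat_lit 20557252), (nat_lit 13862945)] (nat_lit 5025270)) p12_6_3 (nat_lit 4) (nat_lit 26) (nat_lit 27) = true := by decide +kernel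
def p12_6_3_27 : pfC (piC [(nat_lit 43428061), (nat_lit 27968816), (nat_lit 20557252), (nat_lit 13862945)] (nat_lit 5025270)) p12_6_3 (nat_lit 4) (nat_lit 27) (nat_lit 28) = true := by decide +kernel
def p12_6_3_28 : pfC (piC [(nat_lit 43428061), (nat_lit 27968816), (nat_lit 20557252), (nat_lit 13862945)] (nat_lit 5025270)) p12_6_3 (nat_lit 4) (nat_lit 28) (nat_lit 29) = true := by decide +kernel
def p12_6_3_29 : pfC (piC [(nat_lit 43428061), (nat_lit 27968816), (nat_lit 20557252), (nat_lit 13862945)] (nat_lit 5025270)) p12_6_3 (nat_lit 4) (nat_lit 29) (nat_lit 30) = true := by decide +kernel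
def p12_6_3_30 : pfC (piC [(nat_lit 43428061), (nat_lit 27968816), (nat_lit 20557252), (nat_lit 13862945)] (nat_lit 5025270)) p12_6_3 (nat_lit 4) (nat_lit 30) (nat_lit 31) = true := by decide +kernel
def p12_6_3_31 : pfC (piC [(nat_lit 43428061), (nat_lit 27968816), (nat_lit 20557252), (nat_lit 13862945)] (nat_lit 5025270)) p12_6_3 (nat_lit 4) (nat_lit 31) (nat_lit 32) = true := by decide +kernel
def p12_6_3_32 : pfC (piC [(nat_lit 43428061), (nat_lit 27968816), (nat_lit 20557252), (nat_lit 13862945)] (nat_lit 5025270)) p12_6_3 (nat_lit 4) (nat_lit 32) (nat_lit 33) = true := by decide +kernel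
def p12_6_3_33 : pfC (piC [(nat_lit 43428061), (nat_lit 27968816), (nat_lit 20557252), (nat_lit 13862945)] (nat_lit 5025270)) p12_6_3 (nat_lit 4) (nat_lit 33) (nat_lit 34) = true := by decide +kernel
def p12_6_3_34 : pfC (piC [(nat_lit 43428061), (nat_lit 27968816), (nat_lit 20557252), (nat_lit 13862945)] (nat_lit 5025270)) p12_6_3 (nat_lit 4) (nat_lit 34) (nat_lit 35) = true := by decide +kernel
def p12_6_3_35 : pfC (piC [(nat_lit 43428061), (nat_lit 27968816), (nat_lit 20557252), (nat_lit 13862945)] (nat_lit 5025270)) p12_6_3 (nat_lit 4) (nat_lit 35) (nat_lit 36) = true := by decide +kernel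
def p12_6_3_36 : pfC (piC [(nat_lit 43428061), (nat_lit 27968816), (nat_lit 20557252), (nat_lit 13862945)] (nat_lit 5025270)) p12_6_3 (nat_lit 4) (nat_lit 36) (nat_lit 37) = true := by decide +kernel
def p12_6_3_37 : pfC (piC [(nat_lit 43428061), (nat_lit 27968816), (nat_lit 20557252), (nat_lit 13862945)] (nat_lit 5025270)) p12_6_3 (nat_lit 4) (nat_lit 37) (nat_lit 38) = true := by decide +kernel
def p12_6_3_38 : pfC (piC [(nat_lit 43428061), (nat_lit 27968816), (nat_lit 20557252), (nat_lit 13862945)] (nat_lit 5025270)) p12_6_3 (nat_lit 4) (nat_lit 38) (nat_lit 39) = true := by decide +kernel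
def p12_6_3_39 : pfC (piC [(nat_lit 43428061), (nat_lit 27968816), (nat_lit 20557252), (nat_lit 13862945)] (nat_lit 5025270)) p12_6_3 (nat_lit 4) (nat_lit 39) (nat_lit 40) = true := by decide +kernel
def p12_6_3_40 : pfC (piC [(nat_lit 43428061), (nat_lit 27968816), (nat_lit 20557252), (nat_lit 13862945)] (nat_lit 5025270)) p12_6_3 (nat_lit 4) (nat_lit 40) (nat_lit 41) = true := by decide +kernel
def p12_6_3_41 : pfC (piC [(nat_lit 43428061), (nat_lit 27968816), (nat_lit 20557252), (nat_lit 13862945)] (nat_lit 5025270)) p12_6_3 (nat_lit 4) (nat_lit 41) (nat_lit 42) = true := by decide +kernel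
def p12_6_3_42 : pfC (piC [(nat_lit 43428061), (nat_lit 27968816), (nat_lit 20557252), (nat_lit 13862945)] (nat_lit 5025270)) p12_6_3 (nat_lit 4) (nat_lit 42) (nat_lit 43) = true := by decide +kernel
def p12_6_3_43 : pfC (piC [(nat_lit 43428061), (nat_lit 27968816), (nat_lit 20557252), (nat_lit 13862945)] (nat_lit 5025270)) p12_6_3 (nat_lit 4) (nat_lit 43) (nat_lit 44) = true := by decide +kernel
def p12_6_3_44 : pfC (piC [(nat_lit 43428061), (nat_lit 27968816), (nat_lit 20557252), (nat_lit 13862945)] (nat_lit 5025270)) p12_6_3 (nat_lit 4) (nat_lit 44) (nat_lit 45) = true := by decide +kernel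
def p12_6_3_45 : pfC (piC [(nat_lit 43428061), (nat_lit 27968816), (nat_lit 20557252), (nat_lit 13862945)] (nat_lit 5025270)) p12_6_3 (nat_lit 4) (nat_lit 45) (nat_lit 46) = true := by decide +kernel
def p12_6_3_46 : pfC (piC [(nat_lit 43428061), (nat_lit 27968816), (nat_lit 20557252), (nat_lit 13862945)] (nat_lit 5025270)) p12_6_3 (nat_lit 4) (nat_lit 46) (nat_lit 47) = true := by decide +kernel
def p12_6_3_47 : pfC (piC [(nat_lit 43428061), (nat_lit 27968816), (nat_lit 20557252), (nat_lit 13862945)] (nat_lit 5025270)) p12_6_3 (nat_lit 4) (nat_lit 47) (nat_lit 48) = true := by decide +kernel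
def p12_6_3_48 : pfC (piC [(nat_lit 43428061), (nat_lit 27968816), (nat_lit 20557252), (nat_lit 13862945)] (nat_lit 5025270)) p12_6_3 (nat_lit 4) (nat_lit 48) (nat_lit 49) = true := by decide +kernel
def p12_6_3_49 : pfC (piC [(nat_lit 43428061), (nat_lit 27968816), (nat_lit 20557252), (nat_lit 13862945)] (nat_lit 5025270)) p12_6_3 (nat_lit 4) (nat_lit 49) (nat_lit 50) = true := by decide +kernel
def p12_6_3_50 : pfC (piC [(nat_lit 43428061), (nat_lit 27968816), (nat_lit 20557252), (nat_lit 13862945)] (nat_lit 5025270)) p12_6_3 (nat_lit 4) (nat_lit 50) (nat_lit 51) = true := by decide +kernel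
def p12_6_3_51 : pfC (piC [(nat_lit 43428061), (nat_lit 27968816), (nat_lit 20557252), (nat_lit 13862945)] (nat_lit 5025270)) p12_6_3 (nat_lit 4) (nat_lit 51) (nat_lit 52) = true := by decide +kernel
def p12_6_3_52 : pfC (piC [(nat_lit 43428061), (nat_lit 27968816), (nat_lit 20557252), (nat_lit 13862945)] (nat_lit 5025270)) p12_6_3 (nat_lit 4) (nat_lit 52) (nat_lit 53) = true := by decide +kernel
def p12_6_3_53 : pfC (piC [(nat_lit 43428061), (nat_lit 27968816), (nat_lit 20557252), (nat_lit 13862945)] (nat_lit 5025270)) p12_6_3 (nat_lit 4) (nat_lit 53) (nat_lit 54) = true := by decide +kernel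
def p12_6_3_54 : pfC (piC [(nat_lit 43428061), (nat_lit 27968816), (nat_lit 20557252), (nat_lit 13862945)] (nat_lit 5025270)) p12_6_3 (nat_lit 4) (nat_lit 54) (nat_lit 55) = true := by decide +kernel
def p12_6_3_55 : pfC (piC [(nat_lit 43428061), (nat_lit 27968816), (nat_lit 20557252), (nat_lit 13862945)] (nat_lit 5025270)) p12_6_3 (nat_lit 4) (nat_lit 55) (nat_lit 56) = true := by decide +kernel
def p12_6_3_56 : pfC (piC [(nat_lit 43428061), (nat_lit 27968816), (nat_lit 20557252), (nat_lit 13862945)] (nat_lit 5025270)) p12_6_3 (nat_lit 4) (nat_lit 56) (nat_lit 57) = true := by decide +kernel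
def p12_6_3_57 : pfC (piC [(nat_lit 43428061), (nat_lit 27968816), (nat_lit 20557252), (nat_lit 13862945)] (nat_lit 5025270)) p12_6_3 (nat_lit 4) (nat_lit 57) (nat_lit 58) = true := by decide +kernel
theorem p12_6_3_T : PfS (PiF n12_6.reverse (nat_lit 5025270)) p12_6_3 (nat_lit 4) [] 0 :=
  pftab_of (los := [(nat_lit 43428061), (nat_lit 27968816), (nat_lit 20557252), (nat_lit 13862945)]) (by decide +kernel) (hi := (nat_lit 58)) (PfP.trans (PfP.trans (PfP.trans (PfP.trans (PfP.trans (PfP.trans (PfP.trans (PfP.trans (PfP.trans (PfP.trans (PfP.trans (PfP.trans (PfP.trans (PfP.trans (PfP.trans (PfP.trans (PfP.trans (PfP.trans (PfP.trans (PfP.trans (PfP.trans (PfP.trans (PfP.trans (PfP.trans (PfP.trans (PfP.trans (PfP.trans (PfP.trans (PfP.trans (PfP.trans (PfP.trans (PfP.trans (PfP.trans (PfP.trans (PfP.trans (PfP.trans (PfP.trans (PfP.trans (PfP.trans (PfP.trans (PfP.trans (PfP.trans (PfP.trans (PfP.trans (PfP.trans (PfP.trans (PfP.trans (PfP.trans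 (PfP.trans (PfP.trans (PfP.trans (PfP.trans (PfP.trans (PfP.trans (PfP.trans (PfP.trans (PfP.trans (pfC_sound p12_6_3_0) (pfC_sound p12_6_3_1)) (pfC_sound p12_6_3_2)) (pfC_sound p12_6_3_3)) (pfC_sound p12_6_3_4)) (pfC_sound p12_6_3_5)) (pfC_sound p12_6_3_6)) (pfC_sound p12_6_3_7)) (pfC_sound p12_6_3_8)) (pfC_sound p12_6_3_9)) (pfC_sound p12_6_3_10)) (pfC_sound p12_6_3_11)) (pfC_sound p12_6_3_12)) (pfC_sound p12_6_3_13)) (pfC_sound p12_6_3_14)) (pfC_sound p12_6_3_15)) (pfC_sound p12_6_3_16)) (pfC_sound p12_6_3_17)) (pfC_sound p12_6_3_18)) (pfC_sound p12_6_3_19)) (pfC_sound p12_6_3_20)) (pfC_sound p12_6_3_21)) (pfC_sound p12_6_3_22)) (pfC_sound p12_6_3_23))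
 (pfC_sound p12_6_3_24)) (pfC_sound p12_6_3_25)) (pfC_sound p12_6_3_26)) (pfC_sound p12_6_3_27)) (pfC_sound p12_6_3_28)) (pfC_sound p12_6_3_29)) (pfC_sound p12_6_3_30)) (pfC_sound p12_6_3_31)) (pfC_sound p12_6_3_32)) (pfC_sound p12_6_3_33)) (pfC_sound p12_6_3_34)) (pfC_sound p12_6_3_35)) (pfC_sound p12_6_3_36)) (pfC_sound p12_6_3_37)) (pfC_sound p12_6_3_38)) (pfC_sound p12_6_3_39)) (pfC_sound p12_6_3_40)) (pfC_sound p12_6_3_41)) (pfC_sound p12_6_3_42)) (pfC_sound p12_6_3_43)) (pfC_sound p12_6_3_44)) (pfC_sound p12_6_3_45)) (pfC_sound p12_6_3_46)) (pfC_sound p12_6_3_47)) (pfC_sound p12_6_3_48)) (pfC_sound p12_6_3_49)) (pfC_sound p12_6_3_50)) (pfC_sound p12_6_3_51)) (pfC_sound p12_6_3_52)) (pfC_sound p12_6_3_53)) (pfC_sound p12_6_3_54)) (pfC_sound p12_6_3_55)) (pfC_sound p12_6_3_56)) (pfC_sound p12_6_3_57)) (by decide +kernel)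

def z12_6_3 : zOK yB12_6 (nat_lit 3) (nat_lit 750) (nat_lit 943) (nat_lit 5025270) (nat_lit 3215838) = true := by decide +kernel
def g12_6_3 : gOK yB12_6.x P12_6 (nat_lit 1424) (q12_6 :: r12_6) (nat_lit 3) (nat_lit 750) (nat_lit 4) (nat_lit 943) (nat_lit 12712500) (nat_lit 12712500) (nat_lit 12712500) (nat_lit 12712500) [(nat_lit 800)] = true := by decide +kernel
def v12_6_3 : ivC P12_6 s12_6 w12_6 n12_6 (nat_lit 4) (nat_lit 4790) (nat_lit 3) (nat_lit 750) f128_1_750 f136_1_750 (nat_lit 4) (nat_lit 943) f128_1_943 f136_1_943 (nat_lit 5025270) (nat_lit 3215838) p12_6_3 = true := by decide +kernel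
/-! box `yB12_7` -/

def P12_7 : BQ := ⟨(nat_lit 8), (nat_lit 8), (nat_lit 0), (nat_lit 4), (nat_lit 4), (nat_lit 680), (nat_lit 700), (nat_lit 120), [(nat_lit 200), (nat_lit 300), (nat_lit 450), (nat_lit 800)], (nat_lit 65952000), (nat_lit 16000000), (nat_lit 16000000000)⟩
def q12_7 : PC := ⟨(nat_lit 1000), [(nat_lit 120000), (nat_lit 200000), (nat_lit 300000), (nat_lit 450000), (nat_lit 800000)], (nat_lit 340282367000166625996085689103316680705000000), (nat_lit 15934048000000), (nat_lit 15934048000000), (nat_lit 10000000)⟩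
def r12_7 : List PC := [⟨(nat_lit 1317), [(nat_lit 120537), (nat_lit 200976), (nat_lit 301696), (nat_lit 451941), (nat_lit 799259)], (nat_lit 342074634227242624627840561107550140195884052), (nat_lit 16326552329280), (nat_lit 16338557246080), (nat_lit 10056534)⟩]
def s12_7 : List PB := [⟨(nat_lit 26340), (nat_lit 1928592000000), [(nat_lit 200976), (nat_lit 301696), (nat_lit 451941), (nat_lit 799259)], (nat_lit 342074634227242624627840561107550140195884052), (nat_lit 1142226459171904), (nat_lit 1142238464088704), (nat_lit 50720)⟩]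
def n12_7 : List KN := [⟨(nat_lit 800), (nat_lit 450), (nat_lit 13743659), (nat_lit 7874580)⟩, ⟨(nat_lit 450), (nat_lit 300), (nat_lit 20402210), (nat_lit 13743659)⟩, ⟨(nat_lit 300), (nat_lit 200), (nat_lit 27646207), (nat_lit 20402210)⟩, ⟨(nat_lit 200), (nat_lit 120), (nat_lit 44228488), (nat_lit 27646207)⟩]
def w12_7 : List ℕ := [(nat_lit 50720)]
def par12_7 : parC yB12_7 P12_7 s12_7 r12_7 q12_7 n12_7 w12_7 = true := by decide +kernel

def p12_7_0 : PF := (PF.cons (PF.cons (PF.cons (PF.cons (PF.leaf (nat_lit 291524) (nat_lit 705469) (nat_lit 66403343) (nat_lit 705469) [(nat_lit 0), (nat_lit 0), (nat_lit 0), (nat_lit 0)]) (PF.cons (PF.leaf (nat_lit 356478) (nat_lit 100970) (nat_lit 66273244) (nat_lit 734598) [(nat_lit 100970), (nat_lit 0), (nat_lit 0), (nat_lit 0)]) (PF.cons (PF.leaf (nat_lit 447502) (nat_lit 112970) (nat_lit 66116060) (nat_lit 766811) [(nat_lit 112970), (nat_lit 0), (nat_lit 0), (nat_lit 0)]) (PF.cons (PF.leaf (nat_lit 553827)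 (nat_lit 124552) (nat_lit 65934277) (nat_lit 800878) [(nat_lit 124552), (nat_lit 0), (nat_lit 0), (nat_lit 0)]) (PF.cons (PF.leaf (nat_lit 672878) (nat_lit 135816) (nat_lit 65729537) (nat_lit 836010) [(nat_lit 135816), (nat_lit 0), (nat_lit 0), (nat_lit 0)]) (PF.cons (PF.leaf (nat_lit 805040) (nat_lit 146811) (nat_lit 65503082) (nat_lit 871674) [(nat_lit 146811), (nat_lit 0), (nat_lit 0), (nat_lit 0)]) (PF.cons PF.nil PF.nil))))))) (PF.cons (PF.cons (PF.leaf (nat_lit 653095) (nat_lit 697093) (nat_lit 65563924) (nat_lit 847794) [(nat_lit 0), (nat_lit 697093), (nat_lit 0), (nat_lit 0)]) (PF.cons (PF.leaf (nat_lit 759457) (nat_lit 140489) (nat_lit 65365213) (nat_lit 878320) [(nat_lit 140489),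
 (nat_lit 724788), (nat_lit 0), (nat_lit 0)]) (PF.cons (PF.leaf (nat_lit 885299) (nat_lit 151492) (nat_lit 65142039) (nat_lit 910204) [(nat_lit 151492), (nat_lit 753583), (nat_lit 0), (nat_lit 0)]) (PF.cons (PF.leaf (nat_lit 1024571) (nat_lit 162160) (nat_lit 64896564) (nat_lit 942826) [(nat_lit 162160), (nat_lit 782939), (nat_lit 0), (nat_lit 0)]) (PF.cons PF.nil PF.nil))))) (PF.cons (PF.cons (PF.leaf (nat_lit 1112827) (nat_lit 813720) (nat_lit 64502518) (nat_lit 978852) [(nat_lit 0), (nat_lit 813720), (nat_lit 0), (nat_lit 0)]) (PF.cons (PF.leaf (nat_lit 1254014) (nat_lit 176223) (nat_lit 64242825) (nat_lit 1008638) [(nat_lit 176223), (nat_lit 840562), (nat_lit 0), (nat_lit 0)]) (PF.cons (PF.leaf (nat_lit 1411429) (nat_lit 186334) (nat_lit 63961688) (nat_lit 1038910) [(nat_lit 186334), (nat_lit 867772), (nat_lit 0), (nat_lit 0)]) (PF.cons PF.nil PF.nil)))) (PF.cons (PF.cons (PF.leaf (nat_lit 1656696) (nat_lit 919182) (nat_lit 63253676) (nat_lit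 1097588) [(nat_lit 0), (nat_lit 919182), (nat_lit 0), (nat_lit 0)]) (PF.cons (PF.leaf (nat_lit 1828005) (nat_lit 208568) (nat_lit 62941665) (nat_lit 1125569) [(nat_lit 208568), (nat_lit 944336), (nat_lit 0), (nat_lit 0)]) PF.nil)) (PF.cons
 PF.nil (PF.cons PF.nil PF.nil)))))) (PF.cons (PF.cons (PF.cons (PF.leaf (nat_lit 1193172) (nat_lit 1001005) (nat_lit 63759504) (nat_lit 1001005) [(nat_lit 0), (nat_lit 0), (nat_lit 2348302), (nat_lit 0)]) (PF.cons (PF.leaf (nat_lit 1318580) (nat_lit 170417) (nat_lit 63524560) (nat_lit 1027819) [(nat_lit 170417), (nat_lit 0), (nat_lit 2386015), (nat_lit 0)]) (PF.cons (PF.leaf (nat_lit 1462692) (nat_lit 181506) (nat_lit 63264309) (nat_lit 1055655) [(nat_lit 181506), (nat_lit 0), (nat_lit 2425835), (nat_lit 0)]) (PF.cons (PF.leaf (nat_lit 1619832) (nat_lit 192018) (nat_lit 62981824) (nat_lit 1083988) [(nat_lit 192018), (nat_lit 0), (nat_lit 2466944), (nat_lit 0)]) (PF.cons PF.nil PF.nil))))) (PF.cons (PF.cons (PF.leaf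 (nat_lit 1703876) (nat_lit 929458) (nat_lit 62549856) (nat_lit 1112594) [(nat_lit 0), (nat_lit 929458), (nat_lit 2516903), (nat_lit 0)]) (PF.cons (PF.leaf (nat_lit 1861476) (nat_lit 203988) (nat_lit 62258754) (nat_lit 1138466) [(nat_lit 203988), (nat_lit 953056), (nat_lit 2554547), (nat_lit 0)]) (PF.cons (PF.leaf (nat_lit 2034382) (nat_lit 213786) (nat_lit 61946792) (nat_lit 1164634) [(nat_lit 213786), (nat_lit 976843), (nat_lit 2592970), (nat_lit 0)]) (PF.cons PF.nil
 PF.nil)))) (PF.cons (PF.cons (PF.leaf (nat_lit 2287219) (nat_lit 1019606) (nat_lit 61185379) (nat_lit 1213137) [(nat_lit 0), (nat_lit 1019606), (nat_lit 2671083), (nat_lit 0)]) (PF.cons (PF.leaf (nat_lit 2471839) (nat_lit 233626) (nat_lit 60848656) (nat_lit 1237177) [(nat_lit 233626), (nat_lit 1041446), (nat_lit 2706460), (nat_lit 0)]) PF.nil)) (PF.cons PF.nil (PF.cons PF.nil PF.nil))))) (PF.cons (PF.cons (PF.cons (PF.leaf (nat_lit 2313411) (nat_lit 1221115) (nat_lit 60484342) (nat_lit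 1221115) [(nat_lit 0), (nat_lit 0), (nat_lit 2701677), (nat_lit 0)]) (PF.cons (PF.leaf (nat_lit 2483667) (nat_lit 227450) (nat_lit 60171806) (nat_lit 1243591) [(nat_lit 227450), (nat_lit 0), (nat_lit 2732982), (nat_lit 0)]) (PF.cons (PF.leaf (nat_lit 2668152) (nat_lit 236884) (nat_lit 59839296) (nat_lit 1266200) [(nat_lit 236884), (nat_lit 0), (nat_lit 2764773), (nat_lit 0)]) (PF.cons PF.nil PF.nil)))) (PF.cons (PF.cons (PF.leaf (nat_lit 2924363) (nat_lit 1100989) (nat_lit 59047410) (nat_lit 1306205) [(nat_lit 0), (nat_lit 1100989), (nat_lit 2827103), (nat_lit 0)]) (PF.cons PF.nil PF.nil)) (PF.cons PF.nil PF.nil))) (PF.cons (PF.cons (PF.cons (PF.leaf (nat_lit 3559373) (nat_lit 1380516) (nat_lit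
 56887595) (nat_lit 1380516) [(nat_lit 0), (nat_lit 0), (nat_lit 2946900), (nat_lit 0)]) (PF.cons PF.nil PF.nil)) (PF.cons PF.nil PF.nil)) (PF.cons PF.nil (PF.cons PF.nil PF.nil)))))) (PF.cons (PF.cons (PF.cons (PF.cons (PF.leaf (nat_lit 2191155) (nat_lit 1158181) (nat_lit 58869099) (nat_lit 1158181) [(nat_lit 0), (nat_lit 0), (nat_lit 0), (nat_lit 7081531)]) (PF.cons (PF.leaf (nat_lit 2329829) (nat_lit 199337) (nat_lit 58619670) (nat_lit 1181309) [(nat_lit 199337), (nat_lit 0), (nat_lit 0), (nat_lit 7108495)]) (PF.cons (PF.leaf (nat_lit 2485792) (nat_lit 210666) (nat_lit 58345707) (nat_lit 1204938) [(nat_lit 210666), (nat_lit 0), (nat_lit 0), (nat_lit 7136833)]) (PF.cons (PF.leaf (nat_lit 2654631) (nat_lit 221132) (nat_lit 58050899) (nat_lit 1228627) [(nat_lit 221132), (nat_lit 0), (nat_lit 0), (nat_lit 7165889)]) (PF.cons (PF.leaf (nat_lit 2835101) (nat_lit 230902) (nat_lit 57737937) (nat_lit 1252099) [(nat_lit 230902), (nat_lit 0), (nat_lit 0),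 (nat_lit 7195165)]) (PF.cons (PF.leaf (nat_lit 3025818) (nat_lit 240089) (nat_lit 57408931) (nat_lit 1275172) [(nat_lit 240089), (nat_lit 0), (nat_lit 0), (nat_lit 7224263)]) (PF.cons PF.nil PF.nil))))))) (PF.cons (PF.cons (PF.leaf
 (nat_lit 2727880) (nat_lit 1046500) (nat_lit 57612341) (nat_lit 1248994) [(nat_lit 0), (nat_lit 1046500), (nat_lit 0), (nat_lit 7200976)]) (PF.cons (PF.leaf (nat_lit 2895450) (nat_lit 230900) (nat_lit 57314458) (nat_lit 1270254) [(nat_lit 230900), (nat_lit 1066392), (nat_lit 0), (nat_lit 7226807)]) (PF.cons (PF.leaf (nat_lit 3076822) (nat_lit 240356) (nat_lit 56997626) (nat_lit 1291489) [(nat_lit 240356), (nat_lit 1086168), (nat_lit 0), (nat_lit 7252815)]) (PF.cons (PF.leaf (nat_lit 3268815) (nat_lit 249200) (nat_lit 56664514) (nat_lit 1312472) [(nat_lit 249200), (nat_lit 1105636), (nat_lit 0), (nat_lit 7278586)]) (PF.cons (PF.leaf (nat_lit 3470351) (nat_lit 257525) (nat_lit 56317184) (nat_lit 1333052) [(nat_lit 257525),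 (nat_lit 1124674), (nat_lit 0), (nat_lit 7303799)]) PF.nil))))) (PF.cons (PF.cons (PF.leaf (nat_lit 3323403) (nat_lit 1118511) (nat_lit 56240441) (nat_lit 1327573) [(nat_lit 0), (nat_lit 1118511), (nat_lit 0), (nat_lit 7303774)]) (PF.cons (PF.leaf (nat_lit 3514010) (nat_lit 257379) (nat_lit 55906237) (nat_lit 1346605) [(nat_lit 257379), (nat_lit 1136212), (nat_lit 0), (nat_lit 7326165)]) (PF.cons (PF.leaf (nat_lit 3715889) (nat_lit 265428) (nat_lit 55557425)
 (nat_lit 1365349) [(nat_lit 265428), (nat_lit 1153596), (nat_lit 0), (nat_lit 7347989)]) (PF.cons PF.nil PF.nil)))) (PF.cons (PF.cons (PF.leaf (nat_lit 3963985) (nat_lit 1180079) (nat_lit 54788100) (nat_lit 1394881) [(nat_lit 0), (nat_lit 1180079), (nat_lit 0), (nat_lit 7385593)]) (PF.cons (PF.leaf (nat_lit 4172961) (nat_lit 279854) (nat_lit 54427411) (nat_lit 1411567) [(nat_lit 279854), (nat_lit 1195571), (nat_lit 0), (nat_lit 7403266)]) PF.nil)) (PF.cons PF.nil (PF.cons PF.nil PF.nil))))))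 (PF.cons (PF.cons (PF.cons (PF.leaf (nat_lit 3318871) (nat_lit 1325379) (nat_lit 55581441) (nat_lit 1325379) [(nat_lit 0), (nat_lit 0), (nat_lit 2883930), (nat_lit 7318061)]) (PF.cons (PF.leaf (nat_lit 3494726) (nat_lit 248742) (nat_lit 55273810) (nat_lit 1343608) [(nat_lit 248742), (nat_lit 0), (nat_lit 2905992), (nat_lit 7336659)]) (PF.cons (PF.leaf (nat_lit 3683670) (nat_lit 257737) (nat_lit 54948362) (nat_lit 1361726) [(nat_lit 257737), (nat_lit 0), (nat_lit 2928193), (nat_lit 7355055)]) (PF.cons (PF.leaf (nat_lit 3882625) (nat_lit 266052) (nat_lit 54607937) (nat_lit 1379545) [(nat_lit 266052), (nat_lit 0), (nat_lit 2950239), (nat_lit 7372933)]) (PF.cons PF.nil PF.nil))))) (PF.cons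
 (PF.cons (PF.leaf (nat_lit 3929072) (nat_lit 1174814) (nat_lit 54186175) (nat_lit 1390956) [(nat_lit 0), (nat_lit 1174814), (nat_lit 2968727), (nat_lit 7388139)]) (PF.cons (PF.leaf (nat_lit 4125656) (nat_lit 272759) (nat_lit 53847553) (nat_lit 1407081) [(nat_lit 272759), (nat_lit 1189990), (nat_lit 2988438), (nat_lit 7402988)]) (PF.cons (PF.leaf (nat_lit 4332730) (nat_lit 280278) (nat_lit 53495608) (nat_lit 1422886) [(nat_lit 280278), (nat_lit 1204820), (nat_lit 3007854), (nat_lit 7417086)]) (PF.cons PF.nil PF.nil)))) (PF.cons (PF.cons (PF.leaf (nat_lit 4576667) (nat_lit 1226144) (nat_lit 52731723) (nat_lit 1446481) [(nat_lit 0), (nat_lit 1226144), (nat_lit 3040002), (nat_lit 7438315)]) (PF.cons (PF.leaf (nat_lit 4789329) (nat_lit 292841) (nat_lit 52371585) (nat_lit 1460434) [(nat_lit 292841), (nat_lit 1239259), (nat_lit 3056847), (nat_lit 7448586)]) PF.nil)) (PF.cons PF.nil (PF.cons PF.nil PF.nil))))) (PF.cons (PF.cons (PF.cons (PF.leaf (nat_lit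 4525306) (nat_lit 1440226) (nat_lit 52161060) (nat_lit 1440226) [(nat_lit 0), (nat_lit 0), (nat_lit 3038522), (nat_lit 7430481)]) (PF.cons (PF.leaf (nat_lit 4725818) (nat_lit 285304) (nat_lit 51822965) (nat_lit 1453818) [(nat_lit 285304),
 (nat_lit 0), (nat_lit 3053994), (nat_lit 7438736)]) (PF.cons (PF.leaf (nat_lit 4936195) (nat_lit 292323) (nat_lit 51472743) (nat_lit 1467066) [(nat_lit 292323), (nat_lit 0), (nat_lit 3069115), (nat_lit 7446125)]) (PF.cons PF.nil PF.nil)))) (PF.cons (PF.cons (PF.leaf (nat_lit 5174492) (nat_lit 1261471) (nat_lit 50722979) (nat_lit 1485634) [(nat_lit 0), (nat_lit 1261471), (nat_lit 3092585), (nat_lit 7453557)]) (PF.cons PF.nil PF.nil)) (PF.cons PF.nil PF.nil))) (PF.cons (PF.cons (PF.cons (PF.leaf (nat_lit 5754953) (nat_lit 1514344) (nat_lit 48777115) (nat_lit 1514344) [(nat_lit 0), (nat_lit 0), (nat_lit 3126437), (nat_lit 7438040)]) (PF.cons PF.nil PF.nil)) (PF.cons PF.nil PF.nil)) (PF.cons PF.nil PF.nil))))) (PF.cons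 (PF.cons (PF.cons (PF.cons (PF.leaf (nat_lit 4234147) (nat_lit 1382533) (nat_lit 51054291) (nat_lit 1382533) [(nat_lit 0), (nat_lit 0), (nat_lit 0), (nat_lit 7335993)]) (PF.cons (PF.leaf (nat_lit 4410980) (nat_lit 261417) (nat_lit 50763994) (nat_lit 1397439) [(nat_lit 261417), (nat_lit 0), (nat_lit 0), (nat_lit 7342981)]) (PF.cons (PF.leaf (nat_lit 4600068) (nat_lit 269952) (nat_lit 50457986) (nat_lit 1412079) [(nat_lit 269952), (nat_lit 0), (nat_lit 0), (nat_lit
 7349421)]) (PF.cons (PF.leaf (nat_lit 4798367) (nat_lit 277722) (nat_lit 50139037) (nat_lit 1426314) [(nat_lit 277722), (nat_lit 0), (nat_lit 0), (nat_lit 7355146)]) (PF.cons (PF.leaf (nat_lit 5004681) (nat_lit 284862) (nat_lit 49809242) (nat_lit 1440058) [(nat_lit 284862), (nat_lit 0), (nat_lit 0), (nat_lit 7360030)]) PF.nil))))) (PF.cons (PF.cons (PF.leaf (nat_lit 4832522) (nat_lit 1212731) (nat_lit 49750188) (nat_lit 1433396) [(nat_lit 0), (nat_lit 1212731), (nat_lit 0), (nat_lit 7356248)])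 (PF.cons (PF.leaf (nat_lit 5027478) (nat_lit 282847) (nat_lit 49435138) (nat_lit 1446144) [(nat_lit 282847), (nat_lit 1225042), (nat_lit 0), (nat_lit 7359819)]) (PF.cons (PF.leaf (nat_lit 5232051) (nat_lit 289776) (nat_lit 49108709) (nat_lit 1458504) [(nat_lit 289776), (nat_lit 1236938), (nat_lit 0), (nat_lit 7362553)]) (PF.cons PF.nil PF.nil)))) (PF.cons (PF.cons (PF.leaf (nat_lit 5460286) (nat_lit 1252175) (nat_lit 48407720) (nat_lit 1475009) [(nat_lit 0), (nat_lit 1252175), (nat_lit 0), (nat_lit 7360865)]) (PF.cons (PF.leaf (nat_lit 5668877) (nat_lit 300237) (nat_lit 48076553) (nat_lit 1485700) [(nat_lit 300237), (nat_lit 1262498), (nat_lit 0), (nat_lit 7360662)]) PF.nil)) (PF.cons PF.nil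
 (PF.cons PF.nil PF.nil))))) (PF.cons (PF.cons (PF.cons (PF.leaf (nat_lit 5389098) (nat_lit 1465161) (nat_lit 47902189) (nat_lit 1465161) [(nat_lit 0), (nat_lit 0), (nat_lit 3061303), (nat_lit 7340079)]) (PF.cons (PF.leaf (nat_lit 5586103) (nat_lit 291924) (nat_lit 47591807) (nat_lit 1475811) [(nat_lit 291924), (nat_lit 0), (nat_lit 3071265), (nat_lit 7339002)]) (PF.cons (PF.leaf (nat_lit 5792167) (nat_lit 298382) (nat_lit 47271068) (nat_lit 1486074) [(nat_lit 298382), (nat_lit 0), (nat_lit 3080834), (nat_lit 7337035)]) (PF.cons PF.nil PF.nil)))) (PF.cons (PF.cons (PF.leaf (nat_lit 6013998) (nat_lit 1274199) (nat_lit 46590574) (nat_lit 1498673) [(nat_lit 0), (nat_lit 1274199), (nat_lit 3093315), (nat_lit 7326025)]) (PF.cons (PF.leaf (nat_lit 6223112) (nat_lit 307447) (nat_lit 46267168) (nat_lit 1507453) [(nat_lit 307447), (nat_lit 1282828), (nat_lit 3101016), (nat_lit 7321449)]) PF.nil)) (PF.cons PF.nil PF.nil))) (PF.cons (PF.cons (PF.cons (PF.leaf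 (nat_lit 6550173) (nat_lit 1514601) (nat_lit 44844547) (nat_lit 1514601) [(nat_lit 0), (nat_lit 0), (nat_lit 3103589), (nat_lit 7271242)]) (PF.cons PF.nil PF.nil)) (PF.cons PF.nil PF.nil)) PF.nil))) (PF.cons (PF.cons (PF.cons (PF.cons
 (PF.leaf (nat_lit 6164263) (nat_lit 1467468) (nat_lit 44115552) (nat_lit 1467468) [(nat_lit 0), (nat_lit 0), (nat_lit 0), (nat_lit 7175264)]) (PF.cons (PF.leaf (nat_lit 6356381) (nat_lit 294015) (nat_lit 43834155) (nat_lit 1475906) [(nat_lit 294015), (nat_lit 0), (nat_lit 0), (nat_lit 7168245)]) (PF.cons (PF.leaf (nat_lit 6556952) (nat_lit 299994) (nat_lit 43543831) (nat_lit 1483938) [(nat_lit 299994), (nat_lit 0), (nat_lit 0), (nat_lit 7160351)]) (PF.cons PF.nil PF.nil)))) (PF.cons (PF.cons (PF.leaf (nat_lit 6763696) (nat_lit 1270203) (nat_lit 42932317) (nat_lit 1492263) [(nat_lit 0), (nat_lit 1270203), (nat_lit 0), (nat_lit 7138009)]) (PF.cons PF.nil PF.nil)) (PF.cons PF.nil PF.nil))) (PF.cons (PF.cons (PF.cons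 (PF.leaf (nat_lit 7260633) (nat_lit 1499421) (nat_lit 41376058) (nat_lit 1499421) [(nat_lit 0), (nat_lit 0), (nat_lit 3052509), (nat_lit 7060274)]) (PF.cons PF.nil PF.nil)) PF.nil) PF.nil)) (PF.cons PF.nil (PF.cons PF.nil (PF.cons PF.nil (PF.cons PF.nil PF.nil))))))))

def p12_7_0_0 : pfC (piC [(nat_lit 44228488), (nat_lit 27646207), (nat_lit 20402210), (nat_lit 13743659)] (nat_lit 34420195)) p12_7_0 (nat_lit 4) (nat_lit 0) (nat_lit 1) = true := by decide +kernel
def p12_7_0_1 : pfC (piC [(nat_lit 44228488), (nat_lit 27646207), (nat_lit 20402210), (nat_lit 13743659)] (nat_lit 34420195)) p12_7_0 (nat_lit 4) (nat_lit 1) (nat_lit 2) = true := by decide +kernel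
def p12_7_0_2 : pfC (piC [(nat_lit 44228488), (nat_lit 27646207), (nat_lit 20402210), (nat_lit 13743659)] (nat_lit 34420195)) p12_7_0 (nat_lit 4) (nat_lit 2) (nat_lit 3) = true := by decide +kernel
def p12_7_0_3 : pfC (piC [(nat_lit 44228488), (nat_lit 27646207), (nat_lit 20402210), (nat_lit 13743659)] (nat_lit 34420195)) p12_7_0 (nat_lit 4) (nat_lit 3) (nat_lit 4) = true := by decide +kernel
def p12_7_0_4 : pfC (piC [(nat_lit 44228488), (nat_lit 27646207), (nat_lit 20402210), (nat_lit 13743659)] (nat_lit 34420195)) p12_7_0 (nat_lit 4) (nat_lit 4) (nat_lit 5) = true := by decide +kernel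
def p12_7_0_5 : pfC (piC [(nat_lit 44228488), (nat_lit 27646207), (nat_lit 20402210), (nat_lit 13743659)] (nat_lit 34420195)) p12_7_0 (nat_lit 4) (nat_lit 5) (nat_lit 6) = true := by decide +kernel
def p12_7_0_6 : pfC (piC [(nat_lit 44228488), (nat_lit 27646207), (nat_lit 20402210), (nat_lit 13743659)] (nat_lit 34420195)) p12_7_0 (nat_lit 4) (nat_lit 6) (nat_lit 7) = true := by decide +kernel
def p12_7_0_7 : pfC (piC [(nat_lit 44228488), (nat_lit 27646207), (nat_lit 20402210), (nat_lit 13743659)] (nat_lit 34420195)) p12_7_0 (nat_lit 4) (nat_lit 7) (nat_lit 8) = true := by decide +kernel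
def p12_7_0_8 : pfC (piC [(nat_lit 44228488), (nat_lit 27646207), (nat_lit 20402210), (nat_lit 13743659)] (nat_lit 34420195)) p12_7_0 (nat_lit 4) (nat_lit 8) (nat_lit 9) = true := by decide +kernel
def p12_7_0_9 : pfC (piC [(nat_lit 44228488), (nat_lit 27646207), (nat_lit 20402210), (nat_lit 13743659)] (nat_lit 34420195)) p12_7_0 (nat_lit 4) (nat_lit 9) (nat_lit 10) = true := by decide +kernel
def p12_7_0_10 : pfC (piC [(nat_lit 44228488), (nat_lit 27646207), (nat_lit 20402210), (nat_lit 13743659)] (nat_lit 34420195)) p12_7_0 (nat_lit 4) (nat_lit 10) (nat_lit 11) = true := by decide +kernel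
def p12_7_0_11 : pfC (piC [(nat_lit 44228488), (nat_lit 27646207), (nat_lit 20402210), (nat_lit 13743659)] (nat_lit 34420195)) p12_7_0 (nat_lit 4) (nat_lit 11) (nat_lit 12) = true := by decide +kernel
def p12_7_0_12 : pfC (piC [(nat_lit 44228488), (nat_lit 27646207), (nat_lit 20402210), (nat_lit 13743659)] (nat_lit 34420195)) p12_7_0 (nat_lit 4) (nat_lit 12) (nat_lit 13) = true := by decide +kernel
def p12_7_0_13 : pfC (piC [(nat_lit 44228488), (nat_lit 27646207), (nat_lit 20402210), (nat_lit 13743659)] (nat_lit 34420195)) p12_7_0 (nat_lit 4) (nat_lit 13) (nat_lit 14) = true := by decide +kernel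
def p12_7_0_14 : pfC (piC [(nat_lit 44228488), (nat_lit 27646207), (nat_lit 20402210), (nat_lit 13743659)] (nat_lit 34420195)) p12_7_0 (nat_lit 4) (nat_lit 14) (nat_lit 15) = true := by decide +kernel
def p12_7_0_15 : pfC (piC [(nat_lit 44228488), (nat_lit 27646207), (nat_lit 20402210), (nat_lit 13743659)] (nat_lit 34420195)) p12_7_0 (nat_lit 4) (nat_lit 15) (nat_lit 16) = true := by decide +kernel
def p12_7_0_16 : pfC (piC [(nat_lit 44228488), (nat_lit 27646207), (nat_lit 20402210), (nat_lit 13743659)] (nat_lit 34420195)) p12_7_0 (nat_lit 4) (nat_lit 16) (nat_lit 17) = true := by decide +kernel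
def p12_7_0_17 : pfC (piC [(nat_lit 44228488), (nat_lit 27646207), (nat_lit 20402210), (nat_lit 13743659)] (nat_lit 34420195)) p12_7_0 (nat_lit 4) (nat_lit 17) (nat_lit 18) = true := by decide +kernel
def p12_7_0_18 : pfC (piC [(nat_lit 44228488), (nat_lit 27646207), (nat_lit 20402210), (nat_lit 13743659)] (nat_lit 34420195)) p12_7_0 (nat_lit 4) (nat_lit 18) (nat_lit 19) = true := by decide +kernel
def p12_7_0_19 : pfC (piC [(nat_lit 44228488), (nat_lit 27646207), (nat_lit 20402210), (nat_lit 13743659)] (nat_lit 34420195)) p12_7_0 (nat_lit 4) (nat_lit 19) (nat_lit 20) = true := by decide +kernel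
def p12_7_0_20 : pfC (piC [(nat_lit 44228488), (nat_lit 27646207), (nat_lit 20402210), (nat_lit 13743659)] (nat_lit 34420195)) p12_7_0 (nat_lit 4) (nat_lit 20) (nat_lit 21) = true := by decide +kernel
def p12_7_0_21 : pfC (piC [(nat_lit 44228488), (nat_lit 27646207), (nat_lit 20402210), (nat_lit 13743659)] (nat_lit 34420195)) p12_7_0 (nat_lit 4) (nat_lit 21) (nat_lit 22) = true := by decide +kernel
def p12_7_0_22 : pfC (piC [(nat_lit 44228488), (nat_lit 27646207), (nat_lit 20402210), (nat_lit 13743659)] (nat_lit 34420195)) p12_7_0 (nat_lit 4) (nat_lit 22) (nat_lit 23) = true := by decide +kernel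
def p12_7_0_23 : pfC (piC [(nat_lit 44228488), (nat_lit 27646207), (nat_lit 20402210), (nat_lit 13743659)] (nat_lit 34420195)) p12_7_0 (nat_lit 4) (nat_lit 23) (nat_lit 24) = true := by decide +kernel
def p12_7_0_24 : pfC (piC [(nat_lit 44228488), (nat_lit 27646207), (nat_lit 20402210), (nat_lit 13743659)] (nat_lit 34420195)) p12_7_0 (nat_lit 4) (nat_lit 24) (nat_lit 25) = true := by decide +kernel
def p12_7_0_25 : pfC (piC [(nat_lit 44228488), (nat_lit 27646207), (nat_lit 20402210), (nat_lit 13743659)] (nat_lit 34420195)) p12_7_0 (nat_lit 4) (nat_lit 25) (nat_lit 26) = true := by decide +kernel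
def p12_7_0_26 : pfC (piC [(nat_lit 44228488), (nat_lit 27646207), (nat_lit 20402210), (nat_lit 13743659)] (nat_lit 34420195)) p12_7_0 (nat_lit 4) (nat_lit 26) (nat_lit 27) = true := by decide +kernel
def p12_7_0_27 : pfC (piC [(nat_lit 44228488), (nat_lit 27646207), (nat_lit 20402210), (nat_lit 13743659)] (nat_lit 34420195)) p12_7_0 (nat_lit 4) (nat_lit 27) (nat_lit 28) = true := by decide +kernel
def p12_7_0_28 : pfC (piC [(nat_lit 44228488), (nat_lit 27646207), (nat_lit 20402210), (nat_lit 13743659)] (nat_lit 34420195)) p12_7_0 (nat_lit 4) (nat_lit 28) (nat_lit 29) = true := by decide +kernel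
def p12_7_0_29 : pfC (piC [(nat_lit 44228488), (nat_lit 27646207), (nat_lit 20402210), (nat_lit 13743659)] (nat_lit 34420195)) p12_7_0 (nat_lit 4) (nat_lit 29) (nat_lit 30) = true := by decide +kernel
def p12_7_0_30 : pfC (piC [(nat_lit 44228488), (nat_lit 27646207), (nat_lit 20402210), (nat_lit 13743659)] (nat_lit 34420195)) p12_7_0 (nat_lit 4) (nat_lit 30) (nat_lit 31) = true := by decide +kernel
def p12_7_0_31 : pfC (piC [(nat_lit 44228488), (nat_lit 27646207), (nat_lit 20402210), (nat_lit 13743659)] (nat_lit 34420195)) p12_7_0 (nat_lit 4) (nat_lit 31) (nat_lit 32) = true := by decide +kernel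
def p12_7_0_32 : pfC (piC [(nat_lit 44228488), (nat_lit 27646207), (nat_lit 20402210), (nat_lit 13743659)] (nat_lit 34420195)) p12_7_0 (nat_lit 4) (nat_lit 32) (nat_lit 33) = true := by decide +kernel
def p12_7_0_33 : pfC (piC [(nat_lit 44228488), (nat_lit 27646207), (nat_lit 20402210), (nat_lit 13743659)] (nat_lit 34420195)) p12_7_0 (nat_lit 4) (nat_lit 33) (nat_lit 34) = true := by decide +kernel
def p12_7_0_34 : pfC (piC [(nat_lit 44228488), (nat_lit 27646207), (nat_lit 20402210), (nat_lit 13743659)] (nat_lit 34420195)) p12_7_0 (nat_lit 4) (nat_lit 34) (nat_lit 35) = true := by decide +kernel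
def p12_7_0_35 : pfC (piC [(nat_lit 44228488), (nat_lit 27646207), (nat_lit 20402210), (nat_lit 13743659)] (nat_lit 34420195)) p12_7_0 (nat_lit 4) (nat_lit 35) (nat_lit 36) = true := by decide +kernel
def p12_7_0_36 : pfC (piC [(nat_lit 44228488), (nat_lit 27646207), (nat_lit 20402210), (nat_lit 13743659)] (nat_lit 34420195)) p12_7_0 (nat_lit 4) (nat_lit 36) (nat_lit 37) = true := by decide +kernel
def p12_7_0_37 : pfC (piC [(nat_lit 44228488), (nat_lit 27646207), (nat_lit 20402210), (nat_lit 13743659)] (nat_lit 34420195)) p12_7_0 (nat_lit 4) (nat_lit 37) (nat_lit 38) = true := by decide +kernel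
def p12_7_0_38 : pfC (piC [(nat_lit 44228488), (nat_lit 27646207), (nat_lit 20402210), (nat_lit 13743659)] (nat_lit 34420195)) p12_7_0 (nat_lit 4) (nat_lit 38) (nat_lit 39) = true := by decide +kernel
def p12_7_0_39 : pfC (piC [(nat_lit 44228488), (nat_lit 27646207), (nat_lit 20402210), (nat_lit 13743659)] (nat_lit 34420195)) p12_7_0 (nat_lit 4) (nat_lit 39) (nat_lit 40) = true := by decide +kernel
def p12_7_0_40 : pfC (piC [(nat_lit 44228488), (nat_lit 27646207), (nat_lit 20402210), (nat_lit 13743659)] (nat_lit 34420195)) p12_7_0 (nat_lit 4) (nat_lit 40) (nat_lit 41) = true := by decide +kernel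
def p12_7_0_41 : pfC (piC [(nat_lit 44228488), (nat_lit 27646207), (nat_lit 20402210), (nat_lit 13743659)] (nat_lit 34420195)) p12_7_0 (nat_lit 4) (nat_lit 41) (nat_lit 42) = true := by decide +kernel
def p12_7_0_42 : pfC (piC [(nat_lit 44228488), (nat_lit 27646207), (nat_lit 20402210), (nat_lit 13743659)] (nat_lit 34420195)) p12_7_0 (nat_lit 4) (nat_lit 42) (nat_lit 43) = true := by decide +kernel
def p12_7_0_43 : pfC (piC [(nat_lit 44228488), (nat_lit 27646207), (nat_lit 20402210), (nat_lit 13743659)] (nat_lit 34420195)) p12_7_0 (nat_lit 4) (nat_lit 43) (nat_lit 44) = true := by decide +kernel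
def p12_7_0_44 : pfC (piC [(nat_lit 44228488), (nat_lit 27646207), (nat_lit 20402210), (nat_lit 13743659)] (nat_lit 34420195)) p12_7_0 (nat_lit 4) (nat_lit 44) (nat_lit 45) = true := by decide +kernel
def p12_7_0_45 : pfC (piC [(nat_lit 44228488), (nat_lit 27646207), (nat_lit 20402210), (nat_lit 13743659)] (nat_lit 34420195)) p12_7_0 (nat_lit 4) (nat_lit 45) (nat_lit 46) = true := by decide +kernel
def p12_7_0_46 : pfC (piC [(nat_lit 44228488), (nat_lit 27646207), (nat_lit 20402210), (nat_lit 13743659)] (nat_lit 34420195)) p12_7_0 (nat_lit 4) (nat_lit 46) (nat_lit 47) = true := by decide +kernel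
def p12_7_0_47 : pfC (piC [(nat_lit 44228488), (nat_lit 27646207), (nat_lit 20402210), (nat_lit 13743659)] (nat_lit 34420195)) p12_7_0 (nat_lit 4) (nat_lit 47) (nat_lit 48) = true := by decide +kernel
def p12_7_0_48 : pfC (piC [(nat_lit 44228488), (nat_lit 27646207), (nat_lit 20402210), (nat_lit 13743659)] (nat_lit 34420195)) p12_7_0 (nat_lit 4) (nat_lit 48) (nat_lit 49) = true := by decide +kernel
def p12_7_0_49 : pfC (piC [(nat_lit 44228488), (nat_lit 27646207), (nat_lit 20402210), (nat_lit 13743659)] (nat_lit 34420195)) p12_7_0 (nat_lit 4) (nat_lit 49) (nat_lit 50) = true := by decide +kernel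
def p12_7_0_50 : pfC (piC [(nat_lit 44228488), (nat_lit 27646207), (nat_lit 20402210), (nat_lit 13743659)] (nat_lit 34420195)) p12_7_0 (nat_lit 4) (nat_lit 50) (nat_lit 51) = true := by decide +kernel
def p12_7_0_51 : pfC (piC [(nat_lit 44228488), (nat_lit 27646207), (nat_lit 20402210), (nat_lit 13743659)] (nat_lit 34420195)) p12_7_0 (nat_lit 4) (nat_lit 51) (nat_lit 52) = true := by decide +kernel
def p12_7_0_52 : pfC (piC [(nat_lit 44228488), (nat_lit 27646207), (nat_lit 20402210), (nat_lit 13743659)] (nat_lit 34420195)) p12_7_0 (nat_lit 4) (nat_lit 52) (nat_lit 53) = true := by decide +kernel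
def p12_7_0_53 : pfC (piC [(nat_lit 44228488), (nat_lit 27646207), (nat_lit 20402210), (nat_lit 13743659)] (nat_lit 34420195)) p12_7_0 (nat_lit 4) (nat_lit 53) (nat_lit 54) = true := by decide +kernel
def p12_7_0_54 : pfC (piC [(nat_lit 44228488), (nat_lit 27646207), (nat_lit 20402210), (nat_lit 13743659)] (nat_lit 34420195)) p12_7_0 (nat_lit 4) (nat_lit 54) (nat_lit 55) = true := by decide +kernel
def p12_7_0_55 : pfC (piC [(nat_lit 44228488), (nat_lit 27646207), (nat_lit 20402210), (nat_lit 13743659)] (nat_lit 34420195)) p12_7_0 (nat_lit 4) (nat_lit 55) (nat_lit 56) = true := by decide +kernel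
def p12_7_0_56 : pfC (piC [(nat_lit 44228488), (nat_lit 27646207), (nat_lit 20402210), (nat_lit 13743659)] (nat_lit 34420195)) p12_7_0 (nat_lit 4) (nat_lit 56) (nat_lit 57) = true := by decide +kernel
def p12_7_0_57 : pfC (piC [(nat_lit 44228488), (nat_lit 27646207), (nat_lit 20402210), (nat_lit 13743659)] (nat_lit 34420195)) p12_7_0 (nat_lit 4) (nat_lit 57) (nat_lit 58) = true := by decide +kernel
def p12_7_0_58 : pfC (piC [(nat_lit 44228488), (nat_lit 27646207), (nat_lit 20402210), (nat_lit 13743659)] (nat_lit 34420195)) p12_7_0 (nat_lit 4) (nat_lit 58) (nat_lit 59) = true := by decide +kernel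
def p12_7_0_59 : pfC (piC [(nat_lit 44228488), (nat_lit 27646207), (nat_lit 20402210), (nat_lit 13743659)] (nat_lit 34420195)) p12_7_0 (nat_lit 4) (nat_lit 59) (nat_lit 60) = true := by decide +kernel
def p12_7_0_60 : pfC (piC [(nat_lit 44228488), (nat_lit 27646207), (nat_lit 20402210), (nat_lit 13743659)] (nat_lit 34420195)) p12_7_0 (nat_lit 4) (nat_lit 60) (nat_lit 61) = true := by decide +kernel
def p12_7_0_61 : pfC (piC [(nat_lit 44228488), (nat_lit 27646207), (nat_lit 20402210), (nat_lit 13743659)] (nat_lit 34420195)) p12_7_0 (nat_lit 4) (nat_lit 61) (nat_lit 62) = true := by decide +kernel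
def p12_7_0_62 : pfC (piC [(nat_lit 44228488), (nat_lit 27646207), (nat_lit 20402210), (nat_lit 13743659)] (nat_lit 34420195)) p12_7_0 (nat_lit 4) (nat_lit 62) (nat_lit 63) = true := by decide +kernel
def p12_7_0_63 : pfC (piC [(nat_lit 44228488), (nat_lit 27646207), (nat_lit 20402210), (nat_lit 13743659)] (nat_lit 34420195)) p12_7_0 (nat_lit 4) (nat_lit 63) (nat_lit 64) = true := by decide +kernel
def p12_7_0_64 : pfC (piC [(nat_lit 44228488), (nat_lit 27646207), (nat_lit 20402210), (nat_lit 13743659)] (nat_lit 34420195)) p12_7_0 (nat_lit 4) (nat_lit 64) (nat_lit 65) = true := by decide +kernel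
def p12_7_0_65 : pfC (piC [(nat_lit 44228488), (nat_lit 27646207), (nat_lit 20402210), (nat_lit 13743659)] (nat_lit 34420195)) p12_7_0 (nat_lit 4) (nat_lit 65) (nat_lit 66) = true := by decide +kernel
def p12_7_0_66 : pfC (piC [(nat_lit 44228488), (nat_lit 27646207), (nat_lit 20402210), (nat_lit 13743659)] (nat_lit 34420195)) p12_7_0 (nat_lit 4) (nat_lit 66) (nat_lit 67) = true := by decide +kernel
def p12_7_0_67 : pfC (piC [(nat_lit 44228488), (nat_lit 27646207), (nat_lit 20402210), (nat_lit 13743659)] (nat_lit 34420195)) p12_7_0 (nat_lit 4) (nat_lit 67) (nat_lit 68) = true := by decide +kernel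
def p12_7_0_68 : pfC (piC [(nat_lit 44228488), (nat_lit 27646207), (nat_lit 20402210), (nat_lit 13743659)] (nat_lit 34420195)) p12_7_0 (nat_lit 4) (nat_lit 68) (nat_lit 69) = true := by decide +kernel
def p12_7_0_69 : pfC (piC [(nat_lit 44228488), (nat_lit 27646207), (nat_lit 20402210), (nat_lit 13743659)] (nat_lit 34420195)) p12_7_0 (nat_lit 4) (nat_lit 69) (nat_lit 70) = true := by decide +kernel
def p12_7_0_70 : pfC (piC [(nat_lit 44228488), (nat_lit 27646207), (nat_lit 20402210), (nat_lit 13743659)] (nat_lit 34420195)) p12_7_0 (nat_lit 4) (nat_lit 70) (nat_lit 71) = true := by decide +kernel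
def p12_7_0_71 : pfC (piC [(nat_lit 44228488), (nat_lit 27646207), (nat_lit 20402210), (nat_lit 13743659)] (nat_lit 34420195)) p12_7_0 (nat_lit 4) (nat_lit 71) (nat_lit 72) = true := by decide +kernel
def p12_7_0_72 : pfC (piC [(nat_lit 44228488), (nat_lit 27646207), (nat_lit 20402210), (nat_lit 13743659)] (nat_lit 34420195)) p12_7_0 (nat_lit 4) (nat_lit 72) (nat_lit 73) = true := by decide +kernel
def p12_7_0_73 : pfC (piC [(nat_lit 44228488), (nat_lit 27646207), (nat_lit 20402210), (nat_lit 13743659)] (nat_lit 34420195)) p12_7_0 (nat_lit 4) (nat_lit 73) (nat_lit 74) = true := by decide +kernel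
def p12_7_0_74 : pfC (piC [(nat_lit 44228488), (nat_lit 27646207), (nat_lit 20402210), (nat_lit 13743659)] (nat_lit 34420195)) p12_7_0 (nat_lit 4) (nat_lit 74) (nat_lit 75) = true := by decide +kernel
def p12_7_0_75 : pfC (piC [(nat_lit 44228488), (nat_lit 27646207), (nat_lit 20402210), (nat_lit 13743659)] (nat_lit 34420195)) p12_7_0 (nat_lit 4) (nat_lit 75) (nat_lit 76) = true := by decide +kernel
def p12_7_0_76 : pfC (piC [(nat_lit 44228488), (nat_lit 27646207), (nat_lit 20402210), (nat_lit 13743659)] (nat_lit 34420195)) p12_7_0 (nat_lit 4) (nat_lit 76) (nat_lit 77) = true := by decide +kernel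
def p12_7_0_77 : pfC (piC [(nat_lit 44228488), (nat_lit 27646207), (nat_lit 20402210), (nat_lit 13743659)] (nat_lit 34420195)) p12_7_0 (nat_lit 4) (nat_lit 77) (nat_lit 78) = true := by decide +kernel
def p12_7_0_78 : pfC (piC [(nat_lit 44228488), (nat_lit 27646207), (nat_lit 20402210), (nat_lit 13743659)] (nat_lit 34420195)) p12_7_0 (nat_lit 4) (nat_lit 78) (nat_lit 79) = true := by decide +kernel
def p12_7_0_79 : pfC (piC [(nat_lit 44228488), (nat_lit 27646207), (nat_lit 20402210), (nat_lit 13743659)] (nat_lit 34420195)) p12_7_0 (nat_lit 4) (nat_lit 79) (nat_lit 80) = true := by decide +kernel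
theorem p12_7_0_T : PfS (PiF n12_7.reverse (nat_lit 34420195)) p12_7_0 (nat_lit 4) [] 0 :=
  pftab_of (los := [(nat_lit 44228488), (nat_lit 27646207), (nat_lit 20402210), (nat_lit 13743659)]) (by decide +kernel) (hi := (nat_lit 80)) (PfP.trans (PfP.trans (PfP.trans (PfP.trans (PfP.trans (PfP.trans (PfP.trans (PfP.trans (PfP.trans (PfP.trans (PfP.trans (PfP.trans (PfP.trans (PfP.trans (PfP.trans (PfP.trans (PfP.trans (PfP.trans (PfP.trans (PfP.trans (PfP.trans (PfP.trans (PfP.trans (PfP.trans (PfP.trans (PfP.trans (PfP.trans (PfP.trans (PfP.trans (PfP.trans (PfP.trans (PfP.trans (PfP.trans (PfP.trans (PfP.trans (PfP.trans (PfP.trans (PfP.trans (PfP.trans (PfP.trans (PfP.trans (PfP.trans (PfP.trans (PfP.trans (PfP.trans (PfP.trans (PfP.trans (PfP.trans (PfP.trans (PfP.trans (PfP.trans (PfP.trans (PfP.trans (PfP.trans (PfP.trans (PfP.trans (PfP.trans (PfP.trans (PfP.trans (PfP.trans (PfP.trans (PfP.trans (PfP.trans (PfP.trans (PfP.trans (PfP.trans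 (PfP.trans (PfP.trans (PfP.trans (PfP.trans (PfP.trans (PfP.trans (PfP.trans (PfP.trans (PfP.trans (PfP.trans (PfP.trans (PfP.trans (PfP.trans (pfC_sound p12_7_0_0) (pfC_sound p12_7_0_1)) (pfC_sound p12_7_0_2)) (pfC_sound p12_7_0_3)) (pfC_sound p12_7_0_4)) (pfC_sound p12_7_0_5)) (pfC_sound p12_7_0_6)) (pfC_sound p12_7_0_7)) (pfC_sound p12_7_0_8)) (pfC_sound p12_7_0_9)) (pfC_sound p12_7_0_10)) (pfC_sound p12_7_0_11)) (pfC_sound p12_7_0_12)) (pfC_sound p12_7_0_13))
 (pfC_sound p12_7_0_14)) (pfC_sound p12_7_0_15)) (pfC_sound p12_7_0_16)) (pfC_sound p12_7_0_17)) (pfC_sound p12_7_0_18)) (pfC_sound p12_7_0_19)) (pfC_sound p12_7_0_20)) (pfC_sound p12_7_0_21)) (pfC_sound p12_7_0_22)) (pfC_sound p12_7_0_23)) (pfC_sound p12_7_0_24)) (pfC_sound p12_7_0_25)) (pfC_sound p12_7_0_26)) (pfC_sound p12_7_0_27)) (pfC_sound p12_7_0_28)) (pfC_sound p12_7_0_29)) (pfC_sound p12_7_0_30)) (pfC_sound p12_7_0_31)) (pfC_sound p12_7_0_32)) (pfC_sound p12_7_0_33)) (pfC_sound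 p12_7_0_34)) (pfC_sound p12_7_0_35)) (pfC_sound p12_7_0_36)) (pfC_sound p12_7_0_37)) (pfC_sound p12_7_0_38)) (pfC_sound p12_7_0_39)) (pfC_sound p12_7_0_40)) (pfC_sound p12_7_0_41)) (pfC_sound p12_7_0_42)) (pfC_sound p12_7_0_43)) (pfC_sound p12_7_0_44)) (pfC_sound p12_7_0_45)) (pfC_sound p12_7_0_46)) (pfC_sound p12_7_0_47)) (pfC_sound p12_7_0_48)) (pfC_sound p12_7_0_49)) (pfC_sound p12_7_0_50)) (pfC_sound p12_7_0_51)) (pfC_sound p12_7_0_52)) (pfC_sound p12_7_0_53)) (pfC_sound p12_7_0_54)) (pfC_sound p12_7_0_55)) (pfC_sound p12_7_0_56)) (pfC_sound p12_7_0_57)) (pfC_sound p12_7_0_58)) (pfC_sound p12_7_0_59)) (pfC_sound p12_7_0_60)) (pfC_sound p12_7_0_61)) (pfC_sound p12_7_0_62)) (pfC_sound p12_7_0_63))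
 (pfC_sound p12_7_0_64)) (pfC_sound p12_7_0_65)) (pfC_sound p12_7_0_66)) (pfC_sound p12_7_0_67)) (pfC_sound p12_7_0_68)) (pfC_sound p12_7_0_69)) (pfC_sound p12_7_0_70)) (pfC_sound p12_7_0_71)) (pfC_sound p12_7_0_72)) (pfC_sound p12_7_0_73)) (pfC_sound p12_7_0_74)) (pfC_sound p12_7_0_75)) (pfC_sound p12_7_0_76)) (pfC_sound p12_7_0_77)) (pfC_sound p12_7_0_78)) (pfC_sound p12_7_0_79)) (by decide +kernel)

def z12_7_0 : zOK yB12_7 (nat_lit 0) (nat_lit 0) (nat_lit 400) (nat_lit 34420195) (nat_lit 11026205) = true := by decide +kernel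
def g12_7_0 : gOK yB12_7.x P12_7 (nat_lit 1425) (q12_7 :: r12_7) (nat_lit 0) (nat_lit 0) (nat_lit 1) (nat_lit 400) (nat_lit 0) (nat_lit 11000000) (nat_lit 12712500) (nat_lit 12712500) [(nat_lit 800), (nat_lit 1400), (nat_lit 1580)] = true := by decide +kernel
def v12_7_0 : ivC P12_7 s12_7 w12_7 n12_7 (nat_lit 4) (nat_lit 5520) (nat_lit 0) (nat_lit 0) f136_1_0 f144_1_0 (nat_lit 1) (nat_lit 400) f136_1_400 f144_1_400 (nat_lit 34420195) (nat_lit 11026205) p12_7_0 = true := by decide +kernel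
def p12_7_1 : PF := (PF.cons (PF.cons (PF.cons (PF.cons (PF.leaf (nat_lit 2021840) (nat_lit 9373252) (nat_lit 57735560) (nat_lit 9373252) [(nat_lit 0), (nat_lit 0), (nat_lit 0), (nat_lit 0)]) (PF.cons (PF.leaf (nat_lit 2122638) (nat_lit 161276) (nat_lit 57558576) (nat_lit 9388959) [(nat_lit 161276), (nat_lit 0), (nat_lit 0), (nat_lit 0)]) (PF.cons (PF.leaf (nat_lit 2246489) (nat_lit 175784) (nat_lit 57350581) (nat_lit 9406662) [(nat_lit 175784), (nat_lit 0), (nat_lit 0), (nat_lit 0)]) (PF.cons (PF.leaf (nat_lit 2385975) (nat_lit 188823) (nat_lit 57116716) (nat_lit 9425626) [(nat_lit 188823), (nat_lit 0), (nat_lit 0), (nat_lit 0)]) (PF.cons (PF.leaf (nat_lit 2539029) (nat_lit 200743) (nat_lit 56860546) (nat_lit 9445292) [(nat_lit 200743), (nat_lit 0), (nat_lit 0), (nat_lit 0)]) (PF.cons PF.nil (PF.cons PF.nil PF.nil))))))) (PF.cons (PF.cons (PF.leaf (nat_lit 2476805) (nat_lit 972375) (nat_lit 56682617) (nat_lit 9453820) [(nat_lit 0), (nat_lit 972375),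 (nat_lit 0), (nat_lit 0)]) (PF.cons (PF.leaf (nat_lit 2614207) (nat_lit 200690) (nat_lit 56443655) (nat_lit 9470391) [(nat_lit 200690), (nat_lit 994075), (nat_lit 0), (nat_lit 0)]) (PF.cons (PF.leaf (nat_lit 2768715) (nat_lit 212097) (nat_lit 56181130)
 (nat_lit 9487532) [(nat_lit 212097), (nat_lit 1015955), (nat_lit 0), (nat_lit 0)]) (PF.cons (PF.leaf (nat_lit 2936086) (nat_lit 222594) (nat_lit 55898626) (nat_lit 9504767) [(nat_lit 222594), (nat_lit 1037637), (nat_lit 0), (nat_lit 0)]) (PF.cons PF.nil PF.nil))))) (PF.cons (PF.cons (PF.leaf (nat_lit 3005738) (nat_lit 1053986) (nat_lit 55477154) (nat_lit 9523685) [(nat_lit 0), (nat_lit 1053986), (nat_lit 0), (nat_lit 0)]) (PF.cons (PF.leaf (nat_lit 3171372) (nat_lit 232086) (nat_lit 55192079) (nat_lit 9538030) [(nat_lit 232086), (nat_lit 1073307), (nat_lit 0), (nat_lit 0)]) (PF.cons PF.nil (PF.cons PF.nil PF.nil)))) (PF.cons (PF.cons (PF.leaf (nat_lit 3590928) (nat_lit 1122928) (nat_lit 54164215)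 (nat_lit 9575812) [(nat_lit 0), (nat_lit 1122928), (nat_lit 0), (nat_lit 0)]) (PF.cons PF.nil PF.nil)) (PF.cons PF.nil PF.nil))))) (PF.cons (PF.cons (PF.cons (PF.leaf (nat_lit 3030291) (nat_lit 2799516) (nat_lit 54778605) (nat_lit 9530691) [(nat_lit 0), (nat_lit 0), (nat_lit 2799516), (nat_lit 0)]) (PF.cons (PF.leaf (nat_lit 3177487) (nat_lit 220032) (nat_lit 54526491) (nat_lit 9541305) [(nat_lit 220032), (nat_lit 0), (nat_lit 2820983), (nat_lit 0)]) (PF.cons (PF.leaf (nat_lit 3341361)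
 (nat_lit 231074) (nat_lit 54251528) (nat_lit 9551894) [(nat_lit 231074), (nat_lit 0), (nat_lit 2843241), (nat_lit 0)]) (PF.cons PF.nil PF.nil)))) (PF.cons (PF.cons (PF.leaf (nat_lit 3579881) (nat_lit 1116434) (nat_lit 53533845) (nat_lit 9570465) [(nat_lit 0), (nat_lit 1116434), (nat_lit 2888067), (nat_lit 0)]) (PF.cons (PF.leaf (nat_lit 3753132) (nat_lit 248853) (nat_lit 53240754) (nat_lit 9577954) [(nat_lit 248853), (nat_lit 1133095), (nat_lit 2908155), (nat_lit 0)]) PF.nil)) (PF.cons PF.nil PF.nil))) (PF.cons (PF.cons (PF.cons (PF.leaf (nat_lit 4150074) (nat_lit 2964520) (nat_lit 51605243) (nat_lit 9574527) [(nat_lit 0), (nat_lit 0), (nat_lit 2964520), (nat_lit 0)]) (PF.cons (PF.leaf (nat_lit 4328840) (nat_lit 262663) (nat_lit 51309218) (nat_lit 9575812) [(nat_lit 262663), (nat_lit 0), (nat_lit 2980559), (nat_lit 0)]) PF.nil)) (PF.cons PF.nil PF.nil)) (PF.cons PF.nil (PF.cons PF.nil PF.nil))))) (PF.cons (PF.cons (PF.cons (PF.cons (PF.leaf (nat_lit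 3911312) (nat_lit 7239981) (nat_lit 50410302) (nat_lit 9458528) [(nat_lit 0), (nat_lit 0), (nat_lit 0), (nat_lit 7239981)]) (PF.cons (PF.leaf (nat_lit 4061432) (nat_lit 232901) (nat_lit 50170171) (nat_lit 9458839) [(nat_lit 232901),
 (nat_lit 0), (nat_lit 0), (nat_lit 7246901)]) (PF.cons (PF.leaf (nat_lit 4227304) (nat_lit 243725) (nat_lit 49909246) (nat_lit 9458440) [(nat_lit 243725), (nat_lit 0), (nat_lit 0), (nat_lit 7253674)]) (PF.cons (PF.leaf (nat_lit 4404751) (nat_lit 253378) (nat_lit 49631427) (nat_lit 9457190) [(nat_lit 253378), (nat_lit 0), (nat_lit 0), (nat_lit 7260058)]) (PF.cons PF.nil PF.nil))))) (PF.cons (PF.cons (PF.leaf (nat_lit 4456587) (nat_lit 1158102) (nat_lit 49237644) (nat_lit 9450011) [(nat_lit 0), (nat_lit 1158102), (nat_lit 0), (nat_lit 7263054)]) (PF.cons (PF.leaf (nat_lit 4630270) (nat_lit 259616) (nat_lit 48962741) (nat_lit 9446819) [(nat_lit 259616), (nat_lit 1172174), (nat_lit 0), (nat_lit 7267461)]) (PF.cons (PF.leaf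 (nat_lit 4815989) (nat_lit 268072) (nat_lit 48672914) (nat_lit 9442607) [(nat_lit 268072), (nat_lit 1185868), (nat_lit 0), (nat_lit 7271277)]) (PF.cons PF.nil PF.nil)))) (PF.cons (PF.cons (PF.leaf (nat_lit 5042092) (nat_lit 1204375) (nat_lit 48001787) (nat_lit 9425739) [(nat_lit 0), (nat_lit 1204375), (nat_lit 0), (nat_lit 7272534)]) (PF.cons PF.nil PF.nil)) (PF.cons PF.nil (PF.cons PF.nil PF.nil))))) (PF.cons (PF.cons (PF.cons (PF.leaf (nat_lit 4994549) (nat_lit
 2994437) (nat_lit 47468215) (nat_lit 9393265) [(nat_lit 0), (nat_lit 0), (nat_lit 2994437), (nat_lit 7252893)]) (PF.cons (PF.leaf (nat_lit 5171706) (nat_lit 270099) (nat_lit 47194577) (nat_lit 9385624) [(nat_lit 270099), (nat_lit 0), (nat_lit 3005395), (nat_lit 7253116)]) (PF.cons (PF.leaf (nat_lit 5360371) (nat_lit 278073) (nat_lit 46907071) (nat_lit 9376826) [(nat_lit 278073), (nat_lit 0), (nat_lit 3016158), (nat_lit 7252608)]) (PF.cons PF.nil PF.nil)))) (PF.cons (PF.cons (PF.leaf (nat_lit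 5581657) (nat_lit 1230824) (nat_lit 46251319) (nat_lit 9350235) [(nat_lit 0), (nat_lit 1230824), (nat_lit 3031868), (nat_lit 7244566)]) (PF.cons PF.nil PF.nil)) (PF.cons PF.nil PF.nil))) (PF.cons (PF.cons (PF.cons (PF.leaf (nat_lit 6107021) (nat_lit 3047856) (nat_lit 44562411) (nat_lit 9254043) [(nat_lit 0), (nat_lit 0), (nat_lit 3047856), (nat_lit 7196645)]) (PF.cons PF.nil PF.nil)) (PF.cons PF.nil PF.nil)) PF.nil))) (PF.cons (PF.cons (PF.cons (PF.cons (PF.leaf (nat_lit 5760022) (nat_lit 7098079) (nat_lit 43777507) (nat_lit 9135147) [(nat_lit 0), (nat_lit 0), (nat_lit 0), (nat_lit 7098079)]) (PF.cons (PF.leaf (nat_lit 5934102) (nat_lit 273217) (nat_lit 43527910) (nat_lit 9121926) [(nat_lit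
 273217), (nat_lit 0), (nat_lit 0), (nat_lit 7092879)]) (PF.cons (PF.leaf (nat_lit 6118999) (nat_lit 280761) (nat_lit 43266122) (nat_lit 9107468) [(nat_lit 280761), (nat_lit 0), (nat_lit 0), (nat_lit 7086849)]) (PF.cons PF.nil PF.nil)))) (PF.cons (PF.cons (PF.leaf (nat_lit 6327030) (nat_lit 1230865) (nat_lit 42673853) (nat_lit 9069306) [(nat_lit 0), (nat_lit 1230865), (nat_lit 0), (nat_lit 7067394)]) (PF.cons PF.nil PF.nil)) (PF.cons PF.nil PF.nil))) (PF.cons (PF.cons (PF.cons (PF.leaf (nat_lit 6817128) (nat_lit 3003674) (nat_lit 41162625) (nat_lit 8950139) [(nat_lit 0), (nat_lit 0), (nat_lit 3003674), (nat_lit 6996187)]) (PF.cons PF.nil PF.nil)) PF.nil) PF.nil)) (PF.cons PF.nil (PF.cons PF.nil (PF.cons PF.nil PF.nil))))))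

def p12_7_1_0 : pfC (piC [(nat_lit 44228488), (nat_lit 27646207), (nat_lit 20402210), (nat_lit 13743659)] (nat_lit 11026205)) p12_7_1 (nat_lit 4) (nat_lit 0) (nat_lit 1) = true := by decide +kernel
def p12_7_1_1 : pfC (piC [(nat_lit 44228488), (nat_lit 27646207), (nat_lit 20402210), (nat_lit 13743659)] (nat_lit 11026205)) p12_7_1 (nat_lit 4) (nat_lit 1) (nat_lit 2) = true := by decide +kernel
def p12_7_1_2 : pfC (piC [(nat_lit 44228488), (nat_lit 27646207), (nat_lit 20402210), (nat_lit 13743659)] (nat_lit 11026205)) p12_7_1 (nat_lit 4) (nat_lit 2) (nat_lit 3) = true := by decide +kernel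
def p12_7_1_3 : pfC (piC [(nat_lit 44228488), (nat_lit 27646207), (nat_lit 20402210), (nat_lit 13743659)] (nat_lit 11026205)) p12_7_1 (nat_lit 4) (nat_lit 3) (nat_lit 4) = true := by decide +kernel
def p12_7_1_4 : pfC (piC [(nat_lit 44228488), (nat_lit 27646207), (nat_lit 20402210), (nat_lit 13743659)] (nat_lit 11026205)) p12_7_1 (nat_lit 4) (nat_lit 4) (nat_lit 5) = true := by decide +kernel
def p12_7_1_5 : pfC (piC [(nat_lit 44228488), (nat_lit 27646207), (nat_lit 20402210), (nat_lit 13743659)] (nat_lit 11026205)) p12_7_1 (nat_lit 4) (nat_lit 5) (nat_lit 6) = true := by decide +kernel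
def p12_7_1_6 : pfC (piC [(nat_lit 44228488), (nat_lit 27646207), (nat_lit 20402210), (nat_lit 13743659)] (nat_lit 11026205)) p12_7_1 (nat_lit 4) (nat_lit 6) (nat_lit 7) = true := by decide +kernel
def p12_7_1_7 : pfC (piC [(nat_lit 44228488), (nat_lit 27646207), (nat_lit 20402210), (nat_lit 13743659)] (nat_lit 11026205)) p12_7_1 (nat_lit 4) (nat_lit 7) (nat_lit 8) = true := by decide +kernel
def p12_7_1_8 : pfC (piC [(nat_lit 44228488), (nat_lit 27646207), (nat_lit 20402210), (nat_lit 13743659)] (nat_lit 11026205)) p12_7_1 (nat_lit 4) (nat_lit 8) (nat_lit 9) = true := by decide +kernel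
def p12_7_1_9 : pfC (piC [(nat_lit 44228488), (nat_lit 27646207), (nat_lit 20402210), (nat_lit 13743659)] (nat_lit 11026205)) p12_7_1 (nat_lit 4) (nat_lit 9) (nat_lit 10) = true := by decide +kernel
def p12_7_1_10 : pfC (piC [(nat_lit 44228488), (nat_lit 27646207), (nat_lit 20402210), (nat_lit 13743659)] (nat_lit 11026205)) p12_7_1 (nat_lit 4) (nat_lit 10) (nat_lit 11) = true := by decide +kernel
def p12_7_1_11 : pfC (piC [(nat_lit 44228488), (nat_lit 27646207), (nat_lit 20402210), (nat_lit 13743659)] (nat_lit 11026205)) p12_7_1 (nat_lit 4) (nat_lit 11) (nat_lit 12) = true := by decide +kernel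
def p12_7_1_12 : pfC (piC [(nat_lit 44228488), (nat_lit 27646207), (nat_lit 20402210), (nat_lit 13743659)] (nat_lit 11026205)) p12_7_1 (nat_lit 4) (nat_lit 12) (nat_lit 13) = true := by decide +kernel
def p12_7_1_13 : pfC (piC [(nat_lit 44228488), (nat_lit 27646207), (nat_lit 20402210), (nat_lit 13743659)] (nat_lit 11026205)) p12_7_1 (nat_lit 4) (nat_lit 13) (nat_lit 14) = true := by decide +kernel
def p12_7_1_14 : pfC (piC [(nat_lit 44228488), (nat_lit 27646207), (nat_lit 20402210), (nat_lit 13743659)] (nat_lit 11026205)) p12_7_1 (nat_lit 4) (nat_lit 14) (nat_lit 15) = true := by decide +kernel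
def p12_7_1_15 : pfC (piC [(nat_lit 44228488), (nat_lit 27646207), (nat_lit 20402210), (nat_lit 13743659)] (nat_lit 11026205)) p12_7_1 (nat_lit 4) (nat_lit 15) (nat_lit 16) = true := by decide +kernel
def p12_7_1_16 : pfC (piC [(nat_lit 44228488), (nat_lit 27646207), (nat_lit 20402210), (nat_lit 13743659)] (nat_lit 11026205)) p12_7_1 (nat_lit 4) (nat_lit 16) (nat_lit 17) = true := by decide +kernel
def p12_7_1_17 : pfC (piC [(nat_lit 44228488), (nat_lit 27646207), (nat_lit 20402210), (nat_lit 13743659)] (nat_lit 11026205)) p12_7_1 (nat_lit 4) (nat_lit 17) (nat_lit 18) = true := by decide +kernel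
def p12_7_1_18 : pfC (piC [(nat_lit 44228488), (nat_lit 27646207), (nat_lit 20402210), (nat_lit 13743659)] (nat_lit 11026205)) p12_7_1 (nat_lit 4) (nat_lit 18) (nat_lit 19) = true := by decide +kernel
def p12_7_1_19 : pfC (piC [(nat_lit 44228488), (nat_lit 27646207), (nat_lit 20402210), (nat_lit 13743659)] (nat_lit 11026205)) p12_7_1 (nat_lit 4) (nat_lit 19) (nat_lit 20) = true := by decide +kernel
def p12_7_1_20 : pfC (piC [(nat_lit 44228488), (nat_lit 27646207), (nat_lit 20402210), (nat_lit 13743659)] (nat_lit 11026205)) p12_7_1 (nat_lit 4) (nat_lit 20) (nat_lit 21) = true := by decide +kernel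
def p12_7_1_21 : pfC (piC [(nat_lit 44228488), (nat_lit 27646207), (nat_lit 20402210), (nat_lit 13743659)] (nat_lit 11026205)) p12_7_1 (nat_lit 4) (nat_lit 21) (nat_lit 22) = true := by decide +kernel
def p12_7_1_22 : pfC (piC [(nat_lit 44228488), (nat_lit 27646207), (nat_lit 20402210), (nat_lit 13743659)] (nat_lit 11026205)) p12_7_1 (nat_lit 4) (nat_lit 22) (nat_lit 23) = true := by decide +kernel
def p12_7_1_23 : pfC (piC [(nat_lit 44228488), (nat_lit 27646207), (nat_lit 20402210), (nat_lit 13743659)] (nat_lit 11026205)) p12_7_1 (nat_lit 4) (nat_lit 23) (nat_lit 24) = true := by decide +kernel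
def p12_7_1_24 : pfC (piC [(nat_lit 44228488), (nat_lit 27646207), (nat_lit 20402210), (nat_lit 13743659)] (nat_lit 11026205)) p12_7_1 (nat_lit 4) (nat_lit 24) (nat_lit 25) = true := by decide +kernel
def p12_7_1_25 : pfC (piC [(nat_lit 44228488), (nat_lit 27646207), (nat_lit 20402210), (nat_lit 13743659)] (nat_lit 11026205)) p12_7_1 (nat_lit 4) (nat_lit 25) (nat_lit 26) = true := by decide +kernel
def p12_7_1_26 : pfC (piC [(nat_lit 44228488), (nat_lit 27646207), (nat_lit 20402210), (nat_lit 13743659)] (nat_lit 11026205)) p12_7_1 (nat_lit 4) (nat_lit 26) (nat_lit 27) = true := by decide +kernel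
def p12_7_1_27 : pfC (piC [(nat_lit 44228488), (nat_lit 27646207), (nat_lit 20402210), (nat_lit 13743659)] (nat_lit 11026205)) p12_7_1 (nat_lit 4) (nat_lit 27) (nat_lit 28) = true := by decide +kernel
def p12_7_1_28 : pfC (piC [(nat_lit 44228488), (nat_lit 27646207), (nat_lit 20402210), (nat_lit 13743659)] (nat_lit 11026205)) p12_7_1 (nat_lit 4) (nat_lit 28) (nat_lit 29) = true := by decide +kernel
def p12_7_1_29 : pfC (piC [(nat_lit 44228488), (nat_lit 27646207), (nat_lit 20402210), (nat_lit 13743659)] (nat_lit 11026205)) p12_7_1 (nat_lit 4) (nat_lit 29) (nat_lit 30) = true := by decide +kernel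
def p12_7_1_30 : pfC (piC [(nat_lit 44228488), (nat_lit 27646207), (nat_lit 20402210), (nat_lit 13743659)] (nat_lit 11026205)) p12_7_1 (nat_lit 4) (nat_lit 30) (nat_lit 31) = true := by decide +kernel
def p12_7_1_31 : pfC (piC [(nat_lit 44228488), (nat_lit 27646207), (nat_lit 20402210), (nat_lit 13743659)] (nat_lit 11026205)) p12_7_1 (nat_lit 4) (nat_lit 31) (nat_lit 32) = true := by decide +kernel
def p12_7_1_32 : pfC (piC [(nat_lit 44228488), (nat_lit 27646207), (nat_lit 20402210), (nat_lit 13743659)] (nat_lit 11026205)) p12_7_1 (nat_lit 4) (nat_lit 32) (nat_lit 33) = true := by decide +kernel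
def p12_7_1_33 : pfC (piC [(nat_lit 44228488), (nat_lit 27646207), (nat_lit 20402210), (nat_lit 13743659)] (nat_lit 11026205)) p12_7_1 (nat_lit 4) (nat_lit 33) (nat_lit 34) = true := by decide +kernel
def p12_7_1_34 : pfC (piC [(nat_lit 44228488), (nat_lit 27646207), (nat_lit 20402210), (nat_lit 13743659)] (nat_lit 11026205)) p12_7_1 (nat_lit 4) (nat_lit 34) (nat_lit 35) = true := by decide +kernel
def p12_7_1_35 : pfC (piC [(nat_lit 44228488), (nat_lit 27646207), (nat_lit 20402210), (nat_lit 13743659)] (nat_lit 11026205)) p12_7_1 (nat_lit 4) (nat_lit 35) (nat_lit 36) = true := by decide +kernel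
def p12_7_1_36 : pfC (piC [(nat_lit 44228488), (nat_lit 27646207), (nat_lit 20402210), (nat_lit 13743659)] (nat_lit 11026205)) p12_7_1 (nat_lit 4) (nat_lit 36) (nat_lit 37) = true := by decide +kernel
theorem p12_7_1_T : PfS (PiF n12_7.reverse (nat_lit 11026205)) p12_7_1 (nat_lit 4) [] 0 :=
  pftab_of (los := [(nat_lit 44228488), (nat_lit 27646207), (nat_lit 20402210), (nat_lit 13743659)]) (by decide +kernel) (hi := (nat_lit 37)) (PfP.trans (PfP.trans (PfP.trans (PfP.trans (PfP.trans (PfP.trans (PfP.trans (PfP.trans (PfP.trans (PfP.trans (PfP.trans (PfP.trans (PfP.trans (PfP.trans (PfP.trans (PfP.trans (PfP.trans (PfP.trans (PfP.trans (PfP.trans (PfP.trans (PfP.trans (PfP.trans (PfP.trans (PfP.trans (PfP.trans (PfP.trans (PfP.trans (PfP.trans (PfP.trans (PfP.trans (PfP.trans (PfP.trans (PfP.trans (PfP.trans (PfP.trans (pfC_sound p12_7_1_0) (pfC_sound p12_7_1_1)) (pfC_sound p12_7_1_2)) (pfC_sound p12_7_1_3)) (pfC_sound p12_7_1_4)) (pfC_sound p12_7_1_5))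 (pfC_sound p12_7_1_6)) (pfC_sound p12_7_1_7)) (pfC_sound p12_7_1_8)) (pfC_sound p12_7_1_9)) (pfC_sound p12_7_1_10)) (pfC_sound p12_7_1_11)) (pfC_sound p12_7_1_12)) (pfC_sound p12_7_1_13)) (pfC_sound p12_7_1_14)) (pfC_sound p12_7_1_15)) (pfC_sound p12_7_1_16)) (pfC_sound p12_7_1_17)) (pfC_sound p12_7_1_18)) (pfC_sound p12_7_1_19)) (pfC_sound p12_7_1_20)) (pfC_sound p12_7_1_21)) (pfC_sound p12_7_1_22)) (pfC_sound p12_7_1_23)) (pfC_sound p12_7_1_24)) (pfC_sound p12_7_1_25)) (pfC_sound p12_7_1_26)) (pfC_sound p12_7_1_27)) (pfC_sound p12_7_1_28)) (pfC_sound p12_7_1_29)) (pfC_sound p12_7_1_30)) (pfC_sound p12_7_1_31)) (pfC_sound p12_7_1_32)) (pfC_sound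
 p12_7_1_33)) (pfC_sound p12_7_1_34)) (pfC_sound p12_7_1_35)) (pfC_sound p12_7_1_36)) (by decide +kernel)

def z12_7_1 : zOK yB12_7 (nat_lit 1) (nat_lit 400) (nat_lit 600) (nat_lit 11026205) (nat_lit 7153929) = true := by decide +kernel
def g12_7_1 : gOK yB12_7.x P12_7 (nat_lit 1425) (q12_7 :: r12_7) (nat_lit 1) (nat_lit 400) (nat_lit 2) (nat_lit 600) (nat_lit 11000000) (nat_lit 17850000) (nat_lit 12712500) (nat_lit 12712500) [(nat_lit 800), (nat_lit 1040)] = true := by decide +kernel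
def v12_7_1 : ivC P12_7 s12_7 w12_7 n12_7 (nat_lit 4) (nat_lit 5120) (nat_lit 1) (nat_lit 400) f136_1_400 f144_1_400 (nat_lit 2) (nat_lit 600) f136_1_600 f144_1_600 (nat_lit 11026205) (nat_lit 7153929) p12_7_1 = true := by decide +kernel
def p12_7_2 : PF := (PF.cons (PF.cons (PF.cons (PF.cons (PF.leaf (nat_lit 2678962) (nat_lit 15242839) (nat_lit 51865973) (nat_lit 15242839) [(nat_lit 0), (nat_lit 0), (nat_lit 0), (nat_lit 0)]) (PF.cons (PF.leaf (nat_lit 2778213) (nat_lit 163270) (nat_lit 51710359) (nat_lit 15235182) [(nat_lit 163270), (nat_lit 0), (nat_lit 0), (nat_lit 0)]) (PF.cons (PF.leaf (nat_lit 2899991) (nat_lit 177679) (nat_lit 51527725) (nat_lit 15225727) [(nat_lit 177679), (nat_lit 0), (nat_lit 0), (nat_lit 0)]) (PF.cons (PF.leaf (nat_lit 3036838) (nat_lit 190536) (nat_lit 51322682) (nat_lit 15214520) [(nat_lit 190536), (nat_lit 0), (nat_lit 0), (nat_lit 0)]) (PF.cons (PF.leaf (nat_lit 3186611) (nat_lit 202203) (nat_lit 51098436) (nat_lit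 15201563) [(nat_lit 202203), (nat_lit 0), (nat_lit 0), (nat_lit 0)]) (PF.cons (PF.leaf (nat_lit 3348031) (nat_lit 212910) (nat_lit 50857424) (nat_lit 15186835) [(nat_lit 212910), (nat_lit 0), (nat_lit 0), (nat_lit 0)]) (PF.cons PF.nil PF.nil))))))) (PF.cons (PF.cons (PF.leaf (nat_lit 3119966) (nat_lit 975199) (nat_lit 50944194) (nat_lit 15189418) [(nat_lit 0), (nat_lit 975199), (nat_lit 0), (nat_lit 0)]) (PF.cons (PF.leaf (nat_lit 3253999) (nat_lit 201573) (nat_lit 50735565) (nat_lit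
 15176211) [(nat_lit 201573), (nat_lit 995463), (nat_lit 0), (nat_lit 0)]) (PF.cons (PF.leaf (nat_lit 3404468) (nat_lit 212677) (nat_lit 50506688) (nat_lit 15161028) [(nat_lit 212677), (nat_lit 1015740), (nat_lit 0), (nat_lit 0)]) (PF.cons (PF.leaf (nat_lit 3567122) (nat_lit 222818) (nat_lit 50260758) (nat_lit 15143916) [(nat_lit 222818), (nat_lit 1035683), (nat_lit 0), (nat_lit 0)]) (PF.cons PF.nil PF.nil))))) (PF.cons (PF.cons (PF.leaf (nat_lit 3628419) (nat_lit 1049447) (nat_lit 49895819) (nat_lit 15114098) [(nat_lit 0), (nat_lit 1049447), (nat_lit 0), (nat_lit 0)]) (PF.cons (PF.leaf (nat_lit 3788679) (nat_lit 231370) (nat_lit 49648529) (nat_lit 15094838) [(nat_lit 231370), (nat_lit 1067037), (nat_lit 0), (nat_lit 0)]) (PF.cons (PF.leaf (nat_lit 3961798) (nat_lit 240351) (nat_lit 49385934) (nat_lit 15073518) [(nat_lit 240351), (nat_lit 1084328), (nat_lit 0), (nat_lit 0)]) (PF.cons PF.nil PF.nil)))) (PF.cons (PF.cons (PF.leaf (nat_lit 4186881)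 (nat_lit 1110609) (nat_lit 48760739) (nat_lit 15016246) [(nat_lit 0), (nat_lit 1110609), (nat_lit 0), (nat_lit 0)]) (PF.cons (PF.leaf (nat_lit 4367451) (nat_lit 255497) (nat_lit 48485422) (nat_lit 14990771) [(nat_lit 255497), (nat_lit
 1125707), (nat_lit 0), (nat_lit 0)]) PF.nil)) (PF.cons PF.nil (PF.cons PF.nil PF.nil)))))) (PF.cons (PF.cons (PF.cons (PF.leaf (nat_lit 3638560) (nat_lit 2761631) (nat_lit 49298013) (nat_lit 15049167) [(nat_lit 0), (nat_lit 0), (nat_lit 2761631), (nat_lit 0)]) (PF.cons (PF.leaf (nat_lit 3780894) (nat_lit 218677) (nat_lit 49079856) (nat_lit 15030667) [(nat_lit 218677), (nat_lit 0), (nat_lit 2779610), (nat_lit 0)]) (PF.cons (PF.leaf (nat_lit 3939031) (nat_lit 229333) (nat_lit 48842186) (nat_lit 15009829) [(nat_lit 229333), (nat_lit 0), (nat_lit 2798129), (nat_lit 0)]) (PF.cons (PF.leaf (nat_lit 4108808) (nat_lit 238923) (nat_lit 48588458) (nat_lit 14986808) [(nat_lit 238923), (nat_lit 0), (nat_lit 2816775), (nat_lit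 0)]) (PF.cons PF.nil PF.nil))))) (PF.cons (PF.cons (PF.leaf (nat_lit 4162994) (nat_lit 1101387) (nat_lit 48224236) (nat_lit 14949484) [(nat_lit 0), (nat_lit 1101387), (nat_lit 2833704), (nat_lit 0)]) (PF.cons (PF.leaf (nat_lit 4329484) (nat_lit 245815) (nat_lit 47971821) (nat_lit 14924664) [(nat_lit 245815), (nat_lit 1116412), (nat_lit 2850100), (nat_lit 0)]) (PF.cons (PF.leaf (nat_lit 4508094) (nat_lit 254273) (nat_lit 47705098) (nat_lit 14897613) [(nat_lit 254273),
 (nat_lit 1131114), (nat_lit 2866438), (nat_lit 0)]) (PF.cons PF.nil PF.nil)))) (PF.cons (PF.cons (PF.leaf (nat_lit 4730525) (nat_lit 1152099) (nat_lit 47082268) (nat_lit 14828297) [(nat_lit 0), (nat_lit 1152099), (nat_lit 2894047), (nat_lit 0)]) (PF.cons PF.nil PF.nil)) (PF.cons PF.nil (PF.cons PF.nil PF.nil))))) (PF.cons (PF.cons (PF.cons (PF.leaf (nat_lit 4691999) (nat_lit 2889204) (nat_lit 46574673) (nat_lit 14755730) [(nat_lit 0), (nat_lit 0), (nat_lit 2889204), (nat_lit 0)]) (PF.cons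 (PF.leaf (nat_lit 4862900) (nat_lit 257577) (nat_lit 46320964) (nat_lit 14726094) [(nat_lit 257577), (nat_lit 0), (nat_lit 2902088), (nat_lit 0)]) (PF.cons PF.nil (PF.cons PF.nil PF.nil)))) (PF.cons (PF.cons (PF.leaf (nat_lit 5264039) (nat_lit 1183770) (nat_lit 45440402) (nat_lit 14614928) [(nat_lit 0), (nat_lit 1183770), (nat_lit 2934855), (nat_lit 0)]) (PF.cons PF.nil PF.nil)) (PF.cons PF.nil PF.nil))) (PF.cons (PF.cons (PF.cons (PF.leaf (nat_lit 5785452) (nat_lit 2960263) (nat_lit 43846313) (nat_lit 14381708) [(nat_lit 0), (nat_lit 0), (nat_lit 2960263), (nat_lit 0)]) (PF.cons PF.nil PF.nil)) (PF.cons PF.nil PF.nil)) (PF.cons PF.nil PF.nil))))) (PF.cons (PF.cons (PF.cons (PF.cons (PF.leaf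
 (nat_lit 4438408) (nat_lit 6967996) (nat_lit 45584897) (nat_lit 14555919) [(nat_lit 0), (nat_lit 0), (nat_lit 0), (nat_lit 6967996)]) (PF.cons (PF.leaf (nat_lit 4582388) (nat_lit 228179) (nat_lit 45378855) (nat_lit 14530864) [(nat_lit 228179), (nat_lit 0), (nat_lit 0), (nat_lit 6970913)]) (PF.cons (PF.leaf (nat_lit 4741659) (nat_lit 238570) (nat_lit 45155086) (nat_lit 14503112) [(nat_lit 238570), (nat_lit 0), (nat_lit 0), (nat_lit 6973472)]) (PF.cons (PF.leaf (nat_lit 4911731) (nat_lit 247790) (nat_lit 44916950) (nat_lit 14472968) [(nat_lit 247790), (nat_lit 0), (nat_lit 0), (nat_lit 6975523)]) (PF.cons (PF.leaf (nat_lit 5091114) (nat_lit 256088) (nat_lit 44666865) (nat_lit 14440641) [(nat_lit 256088), (nat_lit 0), (nat_lit 0), (nat_lit 6976953)]) PF.nil))))) (PF.cons (PF.cons (PF.leaf (nat_lit 4956683) (nat_lit 1128526) (nat_lit 44580625) (nat_lit 14426685) [(nat_lit 0), (nat_lit 1128526), (nat_lit 0), (nat_lit 6972975)]) (PF.cons (PF.leaf (nat_lit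 5122699) (nat_lit 253358) (nat_lit 44345242) (nat_lit 14395411) [(nat_lit 253358), (nat_lit 1141325), (nat_lit 0), (nat_lit 6973474)]) (PF.cons (PF.leaf (nat_lit 5300226) (nat_lit 261386) (nat_lit 44097181) (nat_lit 14361812) [(nat_lit
 261386), (nat_lit 1153715), (nat_lit 0), (nat_lit 6973331)]) (PF.cons PF.nil PF.nil)))) (PF.cons (PF.cons (PF.leaf (nat_lit 5511528) (nat_lit 1169629) (nat_lit 43524080) (nat_lit 14279079) [(nat_lit 0), (nat_lit 1169629), (nat_lit 0), (nat_lit 6966394)]) (PF.cons (PF.leaf (nat_lit 5693892) (nat_lit 272921) (nat_lit 43269025) (nat_lit 14242325) [(nat_lit 272921), (nat_lit 1180238), (nat_lit 0), (nat_lit 6964063)]) PF.nil)) (PF.cons PF.nil (PF.cons PF.nil PF.nil))))) (PF.cons (PF.cons (PF.cons (PF.leaf (nat_lit 5457216) (nat_lit 2892900) (nat_lit 43072818) (nat_lit 14200474) [(nat_lit 0), (nat_lit 0), (nat_lit 2892900), (nat_lit 6942619)]) (PF.cons (PF.leaf (nat_lit 5626239) (nat_lit 262411) (nat_lit 42838873) (nat_lit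 14165861) [(nat_lit 262411), (nat_lit 0), (nat_lit 2901794), (nat_lit 6939871)]) (PF.cons (PF.leaf (nat_lit 5806102) (nat_lit 269970) (nat_lit 42593122) (nat_lit 14128900) [(nat_lit 269970), (nat_lit 0), (nat_lit 2910460), (nat_lit 6936388)]) (PF.cons PF.nil PF.nil)))) (PF.cons (PF.cons (PF.leaf (nat_lit 6012817) (nat_lit 1190789) (nat_lit 42033648) (nat_lit 14039973) [(nat_lit 0), (nat_lit 1190789), (nat_lit 2921944), (nat_lit 6922457)]) (PF.cons PF.nil PF.nil))
 (PF.cons PF.nil PF.nil))) (PF.cons (PF.cons (PF.cons (PF.leaf (nat_lit 6501447) (nat_lit 2929657) (nat_lit 40595590) (nat_lit 13789854) [(nat_lit 0), (nat_lit 0), (nat_lit 2929657), (nat_lit 6864052)]) (PF.cons PF.nil PF.nil)) (PF.cons PF.nil PF.nil)) PF.nil))) (PF.cons (PF.cons (PF.cons (PF.cons (PF.leaf (nat_lit 6157408) (nat_lit 6771483) (nat_lit 39944489) (nat_lit 13621357) [(nat_lit 0), (nat_lit 0), (nat_lit 0), (nat_lit 6771483)]) (PF.cons (PF.leaf (nat_lit 6323380) (nat_lit 264031)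 (nat_lit 39730671) (nat_lit 13584291) [(nat_lit 264031), (nat_lit 0), (nat_lit 0), (nat_lit 6764909)]) (PF.cons (PF.leaf (nat_lit 6499743) (nat_lit 271199) (nat_lit 39506394) (nat_lit 13544937) [(nat_lit 271199), (nat_lit 0), (nat_lit 0), (nat_lit 6757541)]) (PF.cons PF.nil PF.nil)))) (PF.cons (PF.cons (PF.leaf (nat_lit 6695025) (nat_lit 1185662) (nat_lit 38999645) (nat_lit 13451987) [(nat_lit 0), (nat_lit 1185662), (nat_lit 0), (nat_lit 6735758)]) (PF.cons PF.nil PF.nil)) (PF.cons PF.nil PF.nil))) (PF.cons (PF.cons (PF.cons (PF.leaf (nat_lit 7153744) (nat_lit 2879307) (nat_lit 37707727) (nat_lit 13197782) [(nat_lit 0), (nat_lit 0), (nat_lit 2879307), (nat_lit 6661998)]) (PF.cons PF.nil PF.nil))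
 PF.nil) PF.nil)) (PF.cons PF.nil (PF.cons PF.nil (PF.cons PF.nil PF.nil))))))

def p12_7_2_0 : pfC (piC [(nat_lit 44228488), (nat_lit 27646207), (nat_lit 20402210), (nat_lit 13743659)] (nat_lit 7153929)) p12_7_2 (nat_lit 4) (nat_lit 0) (nat_lit 1) = true := by decide +kernel
def p12_7_2_1 : pfC (piC [(nat_lit 44228488), (nat_lit 27646207), (nat_lit 20402210), (nat_lit 13743659)] (nat_lit 7153929)) p12_7_2 (nat_lit 4) (nat_lit 1) (nat_lit 2) = true := by decide +kernel
def p12_7_2_2 : pfC (piC [(nat_lit 44228488), (nat_lit 27646207), (nat_lit 20402210), (nat_lit 13743659)] (nat_lit 7153929)) p12_7_2 (nat_lit 4) (nat_lit 2) (nat_lit 3) = true := by decide +kernel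
def p12_7_2_3 : pfC (piC [(nat_lit 44228488), (nat_lit 27646207), (nat_lit 20402210), (nat_lit 13743659)] (nat_lit 7153929)) p12_7_2 (nat_lit 4) (nat_lit 3) (nat_lit 4) = true := by decide +kernel
def p12_7_2_4 : pfC (piC [(nat_lit 44228488), (nat_lit 27646207), (nat_lit 20402210), (nat_lit 13743659)] (nat_lit 7153929)) p12_7_2 (nat_lit 4) (nat_lit 4) (nat_lit 5) = true := by decide +kernel
def p12_7_2_5 : pfC (piC [(nat_lit 44228488), (nat_lit 27646207), (nat_lit 20402210), (nat_lit 13743659)] (nat_lit 7153929)) p12_7_2 (nat_lit 4) (nat_lit 5) (nat_lit 6) = true := by decide +kernel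
def p12_7_2_6 : pfC (piC [(nat_lit 44228488), (nat_lit 27646207), (nat_lit 20402210), (nat_lit 13743659)] (nat_lit 7153929)) p12_7_2 (nat_lit 4) (nat_lit 6) (nat_lit 7) = true := by decide +kernel
def p12_7_2_7 : pfC (piC [(nat_lit 44228488), (nat_lit 27646207), (nat_lit 20402210), (nat_lit 13743659)] (nat_lit 7153929)) p12_7_2 (nat_lit 4) (nat_lit 7) (nat_lit 8) = true := by decide +kernel
def p12_7_2_8 : pfC (piC [(nat_lit 44228488), (nat_lit 27646207), (nat_lit 20402210), (nat_lit 13743659)] (nat_lit 7153929)) p12_7_2 (nat_lit 4) (nat_lit 8) (nat_lit 9) = true := by decide +kernel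
def p12_7_2_9 : pfC (piC [(nat_lit 44228488), (nat_lit 27646207), (nat_lit 20402210), (nat_lit 13743659)] (nat_lit 7153929)) p12_7_2 (nat_lit 4) (nat_lit 9) (nat_lit 10) = true := by decide +kernel
def p12_7_2_10 : pfC (piC [(nat_lit 44228488), (nat_lit 27646207), (nat_lit 20402210), (nat_lit 13743659)] (nat_lit 7153929)) p12_7_2 (nat_lit 4) (nat_lit 10) (nat_lit 11) = true := by decide +kernel
def p12_7_2_11 : pfC (piC [(nat_lit 44228488), (nat_lit 27646207), (nat_lit 20402210), (nat_lit 13743659)] (nat_lit 7153929)) p12_7_2 (nat_lit 4) (nat_lit 11) (nat_lit 12) = true := by decide +kernel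
def p12_7_2_12 : pfC (piC [(nat_lit 44228488), (nat_lit 27646207), (nat_lit 20402210), (nat_lit 13743659)] (nat_lit 7153929)) p12_7_2 (nat_lit 4) (nat_lit 12) (nat_lit 13) = true := by decide +kernel
def p12_7_2_13 : pfC (piC [(nat_lit 44228488), (nat_lit 27646207), (nat_lit 20402210), (nat_lit 13743659)] (nat_lit 7153929)) p12_7_2 (nat_lit 4) (nat_lit 13) (nat_lit 14) = true := by decide +kernel
def p12_7_2_14 : pfC (piC [(nat_lit 44228488), (nat_lit 27646207), (nat_lit 20402210), (nat_lit 13743659)] (nat_lit 7153929)) p12_7_2 (nat_lit 4) (nat_lit 14) (nat_lit 15) = true := by decide +kernel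
def p12_7_2_15 : pfC (piC [(nat_lit 44228488), (nat_lit 27646207), (nat_lit 20402210), (nat_lit 13743659)] (nat_lit 7153929)) p12_7_2 (nat_lit 4) (nat_lit 15) (nat_lit 16) = true := by decide +kernel
def p12_7_2_16 : pfC (piC [(nat_lit 44228488), (nat_lit 27646207), (nat_lit 20402210), (nat_lit 13743659)] (nat_lit 7153929)) p12_7_2 (nat_lit 4) (nat_lit 16) (nat_lit 17) = true := by decide +kernel
def p12_7_2_17 : pfC (piC [(nat_lit 44228488), (nat_lit 27646207), (nat_lit 20402210), (nat_lit 13743659)] (nat_lit 7153929)) p12_7_2 (nat_lit 4) (nat_lit 17) (nat_lit 18) = true := by decide +kernel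
def p12_7_2_18 : pfC (piC [(nat_lit 44228488), (nat_lit 27646207), (nat_lit 20402210), (nat_lit 13743659)] (nat_lit 7153929)) p12_7_2 (nat_lit 4) (nat_lit 18) (nat_lit 19) = true := by decide +kernel
def p12_7_2_19 : pfC (piC [(nat_lit 44228488), (nat_lit 27646207), (nat_lit 20402210), (nat_lit 13743659)] (nat_lit 7153929)) p12_7_2 (nat_lit 4) (nat_lit 19) (nat_lit 20) = true := by decide +kernel
def p12_7_2_20 : pfC (piC [(nat_lit 44228488), (nat_lit 27646207), (nat_lit 20402210), (nat_lit 13743659)] (nat_lit 7153929)) p12_7_2 (nat_lit 4) (nat_lit 20) (nat_lit 21) = true := by decide +kernel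
def p12_7_2_21 : pfC (piC [(nat_lit 44228488), (nat_lit 27646207), (nat_lit 20402210), (nat_lit 13743659)] (nat_lit 7153929)) p12_7_2 (nat_lit 4) (nat_lit 21) (nat_lit 22) = true := by decide +kernel
def p12_7_2_22 : pfC (piC [(nat_lit 44228488), (nat_lit 27646207), (nat_lit 20402210), (nat_lit 13743659)] (nat_lit 7153929)) p12_7_2 (nat_lit 4) (nat_lit 22) (nat_lit 23) = true := by decide +kernel
def p12_7_2_23 : pfC (piC [(nat_lit 44228488), (nat_lit 27646207), (nat_lit 20402210), (nat_lit 13743659)] (nat_lit 7153929)) p12_7_2 (nat_lit 4) (nat_lit 23) (nat_lit 24) = true := by decide +kernel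
def p12_7_2_24 : pfC (piC [(nat_lit 44228488), (nat_lit 27646207), (nat_lit 20402210), (nat_lit 13743659)] (nat_lit 7153929)) p12_7_2 (nat_lit 4) (nat_lit 24) (nat_lit 25) = true := by decide +kernel
def p12_7_2_25 : pfC (piC [(nat_lit 44228488), (nat_lit 27646207), (nat_lit 20402210), (nat_lit 13743659)] (nat_lit 7153929)) p12_7_2 (nat_lit 4) (nat_lit 25) (nat_lit 26) = true := by decide +kernel
def p12_7_2_26 : pfC (piC [(nat_lit 44228488), (nat_lit 27646207), (nat_lit 20402210), (nat_lit 13743659)] (nat_lit 7153929)) p12_7_2 (nat_lit 4) (nat_lit 26) (nat_lit 27) = true := by decide +kernel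
def p12_7_2_27 : pfC (piC [(nat_lit 44228488), (nat_lit 27646207), (nat_lit 20402210), (nat_lit 13743659)] (nat_lit 7153929)) p12_7_2 (nat_lit 4) (nat_lit 27) (nat_lit 28) = true := by decide +kernel
def p12_7_2_28 : pfC (piC [(nat_lit 44228488), (nat_lit 27646207), (nat_lit 20402210), (nat_lit 13743659)] (nat_lit 7153929)) p12_7_2 (nat_lit 4) (nat_lit 28) (nat_lit 29) = true := by decide +kernel
def p12_7_2_29 : pfC (piC [(nat_lit 44228488), (nat_lit 27646207), (nat_lit 20402210), (nat_lit 13743659)] (nat_lit 7153929)) p12_7_2 (nat_lit 4) (nat_lit 29) (nat_lit 30) = true := by decide +kernel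
def p12_7_2_30 : pfC (piC [(nat_lit 44228488), (nat_lit 27646207), (nat_lit 20402210), (nat_lit 13743659)] (nat_lit 7153929)) p12_7_2 (nat_lit 4) (nat_lit 30) (nat_lit 31) = true := by decide +kernel
def p12_7_2_31 : pfC (piC [(nat_lit 44228488), (nat_lit 27646207), (nat_lit 20402210), (nat_lit 13743659)] (nat_lit 7153929)) p12_7_2 (nat_lit 4) (nat_lit 31) (nat_lit 32) = true := by decide +kernel
def p12_7_2_32 : pfC (piC [(nat_lit 44228488), (nat_lit 27646207), (nat_lit 20402210), (nat_lit 13743659)] (nat_lit 7153929)) p12_7_2 (nat_lit 4) (nat_lit 32) (nat_lit 33) = true := by decide +kernel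
def p12_7_2_33 : pfC (piC [(nat_lit 44228488), (nat_lit 27646207), (nat_lit 20402210), (nat_lit 13743659)] (nat_lit 7153929)) p12_7_2 (nat_lit 4) (nat_lit 33) (nat_lit 34) = true := by decide +kernel
def p12_7_2_34 : pfC (piC [(nat_lit 44228488), (nat_lit 27646207), (nat_lit 20402210), (nat_lit 13743659)] (nat_lit 7153929)) p12_7_2 (nat_lit 4) (nat_lit 34) (nat_lit 35) = true := by decide +kernel
def p12_7_2_35 : pfC (piC [(nat_lit 44228488), (nat_lit 27646207), (nat_lit 20402210), (nat_lit 13743659)] (nat_lit 7153929)) p12_7_2 (nat_lit 4) (nat_lit 35) (nat_lit 36) = true := by decide +kernel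
def p12_7_2_36 : pfC (piC [(nat_lit 44228488), (nat_lit 27646207), (nat_lit 20402210), (nat_lit 13743659)] (nat_lit 7153929)) p12_7_2 (nat_lit 4) (nat_lit 36) (nat_lit 37) = true := by decide +kernel
def p12_7_2_37 : pfC (piC [(nat_lit 44228488), (nat_lit 27646207), (nat_lit 20402210), (nat_lit 13743659)] (nat_lit 7153929)) p12_7_2 (nat_lit 4) (nat_lit 37) (nat_lit 38) = true := by decide +kernel
def p12_7_2_38 : pfC (piC [(nat_lit 44228488), (nat_lit 27646207), (nat_lit 20402210), (nat_lit 13743659)] (nat_lit 7153929)) p12_7_2 (nat_lit 4) (nat_lit 38) (nat_lit 39) = true := by decide +kernel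
def p12_7_2_39 : pfC (piC [(nat_lit 44228488), (nat_lit 27646207), (nat_lit 20402210), (nat_lit 13743659)] (nat_lit 7153929)) p12_7_2 (nat_lit 4) (nat_lit 39) (nat_lit 40) = true := by decide +kernel
def p12_7_2_40 : pfC (piC [(nat_lit 44228488), (nat_lit 27646207), (nat_lit 20402210), (nat_lit 13743659)] (nat_lit 7153929)) p12_7_2 (nat_lit 4) (nat_lit 40) (nat_lit 41) = true := by decide +kernel
def p12_7_2_41 : pfC (piC [(nat_lit 44228488), (nat_lit 27646207), (nat_lit 20402210), (nat_lit 13743659)] (nat_lit 7153929)) p12_7_2 (nat_lit 4) (nat_lit 41) (nat_lit 42) = true := by decide +kernel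
def p12_7_2_42 : pfC (piC [(nat_lit 44228488), (nat_lit 27646207), (nat_lit 20402210), (nat_lit 13743659)] (nat_lit 7153929)) p12_7_2 (nat_lit 4) (nat_lit 42) (nat_lit 43) = true := by decide +kernel
def p12_7_2_43 : pfC (piC [(nat_lit 44228488), (nat_lit 27646207), (nat_lit 20402210), (nat_lit 13743659)] (nat_lit 7153929)) p12_7_2 (nat_lit 4) (nat_lit 43) (nat_lit 44) = true := by decide +kernel
def p12_7_2_44 : pfC (piC [(nat_lit 44228488), (nat_lit 27646207), (nat_lit 20402210), (nat_lit 13743659)] (nat_lit 7153929)) p12_7_2 (nat_lit 4) (nat_lit 44) (nat_lit 45) = true := by decide +kernel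
def p12_7_2_45 : pfC (piC [(nat_lit 44228488), (nat_lit 27646207), (nat_lit 20402210), (nat_lit 13743659)] (nat_lit 7153929)) p12_7_2 (nat_lit 4) (nat_lit 45) (nat_lit 46) = true := by decide +kernel
def p12_7_2_46 : pfC (piC [(nat_lit 44228488), (nat_lit 27646207), (nat_lit 20402210), (nat_lit 13743659)] (nat_lit 7153929)) p12_7_2 (nat_lit 4) (nat_lit 46) (nat_lit 47) = true := by decide +kernel
theorem p12_7_2_T : PfS (PiF n12_7.reverse (nat_lit 7153929)) p12_7_2 (nat_lit 4) [] 0 :=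
  pftab_of (los := [(nat_lit 44228488), (nat_lit 27646207), (nat_lit 20402210), (nat_lit 13743659)]) (by decide +kernel) (hi := (nat_lit 47)) (PfP.trans (PfP.trans (PfP.trans (PfP.trans (PfP.trans (PfP.trans (PfP.trans (PfP.trans (PfP.trans (PfP.trans (PfP.trans (PfP.trans (PfP.trans (PfP.trans (PfP.trans (PfP.trans (PfP.trans (PfP.trans (PfP.trans (PfP.trans (PfP.trans (PfP.trans (PfP.trans (PfP.trans (PfP.trans (PfP.trans (PfP.trans (PfP.trans (PfP.trans (PfP.trans (PfP.trans (PfP.trans (PfP.trans (PfP.trans (PfP.trans (PfP.trans (PfP.trans (PfP.trans (PfP.trans (PfP.trans (PfP.trans (PfP.trans (PfP.trans (PfP.trans (PfP.trans (PfP.trans (pfC_sound p12_7_2_0) (pfC_sound p12_7_2_1)) (pfC_sound p12_7_2_2)) (pfC_sound p12_7_2_3)) (pfC_sound p12_7_2_4)) (pfC_sound p12_7_2_5)) (pfC_sound p12_7_2_6)) (pfC_sound p12_7_2_7)) (pfC_sound p12_7_2_8)) (pfC_sound p12_7_2_9)) (pfC_sound p12_7_2_10)) (pfC_sound p12_7_2_11)) (pfC_sound p12_7_2_12)) (pfC_sound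 p12_7_2_13)) (pfC_sound p12_7_2_14)) (pfC_sound p12_7_2_15)) (pfC_sound p12_7_2_16)) (pfC_sound p12_7_2_17)) (pfC_sound p12_7_2_18)) (pfC_sound p12_7_2_19)) (pfC_sound p12_7_2_20)) (pfC_sound p12_7_2_21)) (pfC_sound p12_7_2_22)) (pfC_sound p12_7_2_23)) (pfC_sound p12_7_2_24)) (pfC_sound p12_7_2_25)) (pfC_sound p12_7_2_26)) (pfC_sound p12_7_2_27)) (pfC_sound p12_7_2_28))
 (pfC_sound p12_7_2_29)) (pfC_sound p12_7_2_30)) (pfC_sound p12_7_2_31)) (pfC_sound p12_7_2_32)) (pfC_sound p12_7_2_33)) (pfC_sound p12_7_2_34)) (pfC_sound p12_7_2_35)) (pfC_sound p12_7_2_36)) (pfC_sound p12_7_2_37)) (pfC_sound p12_7_2_38)) (pfC_sound p12_7_2_39)) (pfC_sound p12_7_2_40)) (pfC_sound p12_7_2_41)) (pfC_sound p12_7_2_42)) (pfC_sound p12_7_2_43)) (pfC_sound p12_7_2_44)) (pfC_sound p12_7_2_45)) (pfC_sound p12_7_2_46)) (by decide +kernel)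

def z12_7_2 : zOK yB12_7 (nat_lit 2) (nat_lit 600) (nat_lit 750) (nat_lit 7153929) (nat_lit 5091605) = true := by decide +kernel
def g12_7_2 : gOK yB12_7.x P12_7 (nat_lit 1425) (q12_7 :: r12_7) (nat_lit 2) (nat_lit 600) (nat_lit 3) (nat_lit 750) (nat_lit 12712500) (nat_lit 12712500) (nat_lit 12712500) (nat_lit 12712500) [(nat_lit 800), (nat_lit 1600)] = true := by decide +kernel
def v12_7_2 : ivC P12_7 s12_7 w12_7 n12_7 (nat_lit 4) (nat_lit 4920) (nat_lit 2) (nat_lit 600) f136_1_600 f144_1_600 (nat_lit 3) (nat_lit 750) f136_1_750 f144_1_750 (nat_lit 7153929) (nat_lit 5091605) p12_7_2 = true := by decide +kernel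
def p12_7_3 : PF := (PF.cons (PF.cons (PF.cons (PF.cons (PF.leaf (nat_lit 3046655) (nat_lit 20011835) (nat_lit 47096977) (nat_lit 20011835) [(nat_lit 0), (nat_lit 0), (nat_lit 0), (nat_lit 0)]) (PF.cons (PF.leaf (nat_lit 3141973) (nat_lit 158584) (nat_lit 46964507) (nat_lit 19985720) [(nat_lit 158584), (nat_lit 0), (nat_lit 0), (nat_lit 0)]) (PF.cons (PF.leaf (nat_lit 3259040) (nat_lit 172498) (nat_lit 46809056) (nat_lit 19954760) [(nat_lit 172498), (nat_lit 0), (nat_lit 0), (nat_lit 0)]) (PF.cons (PF.leaf (nat_lit 3390284) (nat_lit 184884) (nat_lit 46634553) (nat_lit 19919606) [(nat_lit 184884), (nat_lit 0), (nat_lit 0), (nat_lit 0)]) (PF.cons (PF.leaf (nat_lit 3534062) (nat_lit 196097) (nat_lit 46443732) (nat_lit 19880689) [(nat_lit 196097), (nat_lit 0), (nat_lit 0), (nat_lit 0)]) (PF.cons (PF.leaf (nat_lit 3689133) (nat_lit 206365) (nat_lit 46238666) (nat_lit 19838320) [(nat_lit 206365), (nat_lit 0), (nat_lit 0), (nat_lit 0)]) (PF.cons (PF.leaf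 (nat_lit 3853919) (nat_lit 215842) (nat_lit 46021016) (nat_lit 19792739) [(nat_lit 215842), (nat_lit 0), (nat_lit 0), (nat_lit 0)]) (PF.cons PF.nil (PF.cons PF.nil PF.nil))))))))) (PF.cons (PF.cons (PF.leaf (nat_lit 3468271) (nat_lit 944067) (nat_lit
 46312919) (nat_lit 19851826) [(nat_lit 0), (nat_lit 944067), (nat_lit 0), (nat_lit 0)]) (PF.cons (PF.leaf (nat_lit 3596522) (nat_lit 195310) (nat_lit 46135423) (nat_lit 19814837) [(nat_lit 195310), (nat_lit 963241), (nat_lit 0), (nat_lit 0)]) (PF.cons (PF.leaf (nat_lit 3740961) (nat_lit 205966) (nat_lit 45940714) (nat_lit 19773785) [(nat_lit 205966), (nat_lit 982380), (nat_lit 0), (nat_lit 0)]) (PF.cons (PF.leaf (nat_lit 3896635) (nat_lit 215673) (nat_lit 45731508) (nat_lit 19729126) [(nat_lit 215673), (nat_lit 1001156), (nat_lit 0), (nat_lit 0)]) (PF.cons (PF.leaf (nat_lit 4062342) (nat_lit 224610) (nat_lit 45509800) (nat_lit 19681183) [(nat_lit 224610), (nat_lit 1019385), (nat_lit 0), (nat_lit 0)])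 (PF.cons (PF.leaf (nat_lit 4236985) (nat_lit 232897) (nat_lit 45277154) (nat_lit 19630200) [(nat_lit 232897), (nat_lit 1036969), (nat_lit 0), (nat_lit 0)]) (PF.cons PF.nil PF.nil))))))) (PF.cons (PF.cons (PF.leaf (nat_lit 3953259) (nat_lit 1013688) (nat_lit 45421519) (nat_lit 19659917) [(nat_lit 0), (nat_lit 1013688), (nat_lit 0), (nat_lit 0)]) (PF.cons (PF.leaf (nat_lit 4106405) (nat_lit 223667) (nat_lit 45211172) (nat_lit 19613583) [(nat_lit 223667), (nat_lit 1030195), (nat_lit 0),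
 (nat_lit 0)]) (PF.cons (PF.leaf (nat_lit 4271978) (nat_lit 232235) (nat_lit 44987803) (nat_lit 19563773) [(nat_lit 232235), (nat_lit 1046382), (nat_lit 0), (nat_lit 0)]) (PF.cons (PF.leaf (nat_lit 4446711) (nat_lit 240140) (nat_lit 44753352) (nat_lit 19510825) [(nat_lit 240140), (nat_lit 1062106), (nat_lit 0), (nat_lit 0)]) (PF.cons PF.nil PF.nil))))) (PF.cons (PF.cons (PF.leaf (nat_lit 4484943) (nat_lit 1070563) (nat_lit 44456398) (nat_lit 19440722) [(nat_lit 0), (nat_lit 1070563), (nat_lit 0), (nat_lit 0)]) (PF.cons (PF.leaf (nat_lit 4657253) (nat_lit 246477) (nat_lit 44222159) (nat_lit 19386273) [(nat_lit 246477), (nat_lit 1084634), (nat_lit 0), (nat_lit 0)]) (PF.cons (PF.leaf (nat_lit 4839404) (nat_lit 253536) (nat_lit 43978049) (nat_lit 19328826) [(nat_lit 253536), (nat_lit 1098288), (nat_lit 0), (nat_lit 0)]) (PF.cons PF.nil PF.nil)))) (PF.cons (PF.cons (PF.leaf (nat_lit 5051159) (nat_lit 1117172) (nat_lit 43442028) (nat_lit 19198096) [(nat_lit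 0), (nat_lit 1117172), (nat_lit 0), (nat_lit 0)]) (PF.cons PF.nil PF.nil)) (PF.cons PF.nil PF.nil)))))) (PF.cons (PF.cons (PF.cons (PF.leaf (nat_lit 3957902) (nat_lit 2657308) (nat_lit 44915631) (nat_lit 19535872) [(nat_lit 0),
 (nat_lit 0), (nat_lit 2657308), (nat_lit 0)]) (PF.cons (PF.leaf (nat_lit 4093848) (nat_lit 211194) (nat_lit 44730028) (nat_lit 19493903) [(nat_lit 211194), (nat_lit 0), (nat_lit 2673686), (nat_lit 0)]) (PF.cons (PF.leaf (nat_lit 4245262) (nat_lit 221394) (nat_lit 44527813) (nat_lit 19447693) [(nat_lit 221394), (nat_lit 0), (nat_lit 2690516), (nat_lit 0)]) (PF.cons (PF.leaf (nat_lit 4407461) (nat_lit 230553) (nat_lit 44311919) (nat_lit 19397808) [(nat_lit 230553), (nat_lit 0), (nat_lit 2707424), (nat_lit 0)]) (PF.cons (PF.leaf (nat_lit 4579108) (nat_lit 238887) (nat_lit 44084466) (nat_lit 19344642) [(nat_lit 238887), (nat_lit 0), (nat_lit 2724152), (nat_lit 0)]) (PF.cons PF.nil (PF.cons PF.nil PF.nil))))))) (PF.cons (PF.cons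 (PF.leaf (nat_lit 4457290) (nat_lit 1060848) (nat_lit 44002396) (nat_lit 19323301) [(nat_lit 0), (nat_lit 1060848), (nat_lit 2722266), (nat_lit 0)]) (PF.cons (PF.leaf (nat_lit 4616060) (nat_lit 236966) (nat_lit 43787563) (nat_lit 19272285) [(nat_lit 236966), (nat_lit 1074917), (nat_lit 2737079), (nat_lit 0)]) (PF.cons (PF.leaf (nat_lit 4786651) (nat_lit 245024) (nat_lit 43560517) (nat_lit 19217777) [(nat_lit 245024), (nat_lit 1088657), (nat_lit 2751811),
 (nat_lit 0)]) (PF.cons (PF.leaf (nat_lit 4965871) (nat_lit 252382) (nat_lit 43323273) (nat_lit 19160175) [(nat_lit 252382), (nat_lit 1101954), (nat_lit 2766262), (nat_lit 0)]) (PF.cons PF.nil PF.nil))))) (PF.cons (PF.cons (PF.leaf (nat_lit 4997114) (nat_lit 1107913) (nat_lit 43030606) (nat_lit 19086180) [(nat_lit 0), (nat_lit 1107913), (nat_lit 2776198), (nat_lit 0)]) (PF.cons (PF.leaf (nat_lit 5173242) (nat_lit 257459) (nat_lit 42795229) (nat_lit 19027577) [(nat_lit 257459), (nat_lit 1119841),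 (nat_lit 2788863), (nat_lit 0)]) (PF.cons PF.nil (PF.cons PF.nil PF.nil)))) (PF.cons (PF.cons (PF.leaf (nat_lit 5566143) (nat_lit 1146288) (nat_lit 42022022) (nat_lit 18828602) [(nat_lit 0), (nat_lit 1146288), (nat_lit 2819323), (nat_lit 0)]) (PF.cons PF.nil PF.nil)) (PF.cons PF.nil PF.nil))))) (PF.cons (PF.cons (PF.cons (PF.leaf (nat_lit 4956129) (nat_lit 2770188) (nat_lit 42600464) (nat_lit 18967972) [(nat_lit 0), (nat_lit 0), (nat_lit 2770188), (nat_lit 0)]) (PF.cons (PF.leaf (nat_lit 5119104) (nat_lit 247777) (nat_lit 42384232) (nat_lit 18913182) [(nat_lit 247777), (nat_lit 0), (nat_lit 2781809), (nat_lit 0)]) (PF.cons (PF.leaf (nat_lit 5293282) (nat_lit 255376) (nat_lit 42156560)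
 (nat_lit 18854925) [(nat_lit 255376), (nat_lit 0), (nat_lit 2793286), (nat_lit 0)]) (PF.cons PF.nil (PF.cons PF.nil PF.nil))))) (PF.cons (PF.cons (PF.leaf (nat_lit 5500166) (nat_lit 1136359) (nat_lit 41633703) (nat_lit 18716967) [(nat_lit 0), (nat_lit 1136359), (nat_lit 2810891), (nat_lit 0)]) (PF.cons (PF.leaf (nat_lit 5678884) (nat_lit 266286) (nat_lit 41399726) (nat_lit 18655137) [(nat_lit 266286), (nat_lit 1146499), (nat_lit 2820581), (nat_lit 0)]) (PF.cons PF.nil (PF.cons PF.nil PF.nil)))) (PF.cons (PF.cons (PF.leaf (nat_lit 6069003) (nat_lit 1167934) (nat_lit 40639951) (nat_lit 18448297) [(nat_lit 0), (nat_lit 1167934), (nat_lit 2842347), (nat_lit 0)]) (PF.cons PF.nil PF.nil)) PF.nil))) (PF.cons (PF.cons (PF.cons (PF.leaf (nat_lit 5992566) (nat_lit 2832100) (nat_lit 40274501) (nat_lit 18338009) [(nat_lit 0), (nat_lit 0), (nat_lit 2832100), (nat_lit 0)]) (PF.cons (PF.leaf (nat_lit 6172817) (nat_lit 273325) (nat_lit 40043794) (nat_lit 18273778)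 [(nat_lit 273325), (nat_lit 0), (nat_lit 2839304), (nat_lit 0)]) PF.nil)) (PF.cons PF.nil PF.nil)) (PF.cons PF.nil (PF.cons PF.nil PF.nil)))))) (PF.cons (PF.cons (PF.cons (PF.cons (PF.leaf (nat_lit 4705104) (nat_lit 6641649) (nat_lit
 41769326) (nat_lit 18697837) [(nat_lit 0), (nat_lit 0), (nat_lit 0), (nat_lit 6641649)]) (PF.cons (PF.leaf (nat_lit 4842562) (nat_lit 219494) (nat_lit 41593333) (nat_lit 18652369) [(nat_lit 219494), (nat_lit 0), (nat_lit 0), (nat_lit 6643615)]) (PF.cons (PF.leaf (nat_lit 4994865) (nat_lit 229433) (nat_lit 41402153) (nat_lit 18602579) [(nat_lit 229433), (nat_lit 0), (nat_lit 0), (nat_lit 6645211)]) (PF.cons (PF.leaf (nat_lit 5157439) (nat_lit 238241) (nat_lit 41198643) (nat_lit 18549128) [(nat_lit 238241), (nat_lit 0), (nat_lit 0), (nat_lit 6646317)]) (PF.cons (PF.leaf (nat_lit 5328873) (nat_lit 246157) (nat_lit 40984859) (nat_lit 18492482) [(nat_lit 246157), (nat_lit 0), (nat_lit 0), (nat_lit 6646840)]) (PF.cons PF.nil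 (PF.cons PF.nil PF.nil))))))) (PF.cons (PF.cons (PF.leaf (nat_lit 5199088) (nat_lit 1083434) (nat_lit 40911488) (nat_lit 18471070) [(nat_lit 0), (nat_lit 1083434), (nat_lit 0), (nat_lit 6642819)]) (PF.cons (PF.leaf (nat_lit 5357569) (nat_lit 243456) (nat_lit 40710187) (nat_lit 18417098) [(nat_lit 243456), (nat_lit 1095496), (nat_lit 0), (nat_lit 6642574)]) (PF.cons (PF.leaf (nat_lit 5527200) (nat_lit 251114) (nat_lit 40497974) (nat_lit 18359721) [(nat_lit 251114),
 (nat_lit 1107157), (nat_lit 0), (nat_lit 6641730)]) (PF.cons (PF.leaf (nat_lit 5704883) (nat_lit 258029) (nat_lit 40276770) (nat_lit 18299394) [(nat_lit 258029), (nat_lit 1118333), (nat_lit 0), (nat_lit 6640226)]) (PF.cons PF.nil PF.nil))))) (PF.cons (PF.cons (PF.leaf (nat_lit 5727795) (nat_lit 1121921) (nat_lit 40007762) (nat_lit 18223465) [(nat_lit 0), (nat_lit 1121921), (nat_lit 0), (nat_lit 6633740)]) (PF.cons (PF.leaf (nat_lit 5901784) (nat_lit 262020) (nat_lit 39789301) (nat_lit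 18162734) [(nat_lit 262020), (nat_lit 1131893), (nat_lit 0), (nat_lit 6630969)]) (PF.cons PF.nil (PF.cons PF.nil PF.nil)))) (PF.cons (PF.cons (PF.leaf (nat_lit 6280774) (nat_lit 1152483) (nat_lit 39077425) (nat_lit 17959503) [(nat_lit 0), (nat_lit 1152483), (nat_lit 0), (nat_lit 6614432)]) (PF.cons PF.nil PF.nil)) (PF.cons PF.nil PF.nil))))) (PF.cons (PF.cons (PF.cons (PF.leaf (nat_lit 5673123) (nat_lit 2768330) (nat_lit 39623037) (nat_lit 18106849) [(nat_lit 0), (nat_lit 0), (nat_lit 2768330), (nat_lit 6610595)]) (PF.cons (PF.leaf (nat_lit 5834411) (nat_lit 251879) (nat_lit 39422489) (nat_lit 18050389) [(nat_lit 251879), (nat_lit 0), (nat_lit 2776493), (nat_lit 6607561)]) (PF.cons (PF.leaf (nat_lit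
 6006379) (nat_lit 259092) (nat_lit 39211737) (nat_lit 17990600) [(nat_lit 259092), (nat_lit 0), (nat_lit 2784438), (nat_lit 6603851)]) (PF.cons PF.nil PF.nil)))) (PF.cons (PF.cons (PF.leaf (nat_lit 6202868) (nat_lit 1141250) (nat_lit 38731944) (nat_lit 17850963) [(nat_lit 0), (nat_lit 1141250), (nat_lit 2794726), (nat_lit 6589927)]) (PF.cons (PF.leaf (nat_lit 6378387) (nat_lit 268667) (nat_lit 38516502) (nat_lit 17788291) [(nat_lit 268667), (nat_lit 1149718), (nat_lit 2801155), (nat_lit 6584477)]) PF.nil)) (PF.cons PF.nil PF.nil))) (PF.cons (PF.cons (PF.cons (PF.leaf (nat_lit 6666861) (nat_lit 2801002) (nat_lit 37497416) (nat_lit 17475361) [(nat_lit 0), (nat_lit 0), (nat_lit 2801002), (nat_lit 6534028)]) (PF.cons (PF.leaf (nat_lit 6843101) (nat_lit 273883) (nat_lit 37286218) (nat_lit 17411383) [(nat_lit 273883), (nat_lit 0), (nat_lit 2805499), (nat_lit 6526329)]) PF.nil)) (PF.cons PF.nil PF.nil)) (PF.cons PF.nil (PF.cons PF.nil PF.nil))))) (PF.cons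 (PF.cons (PF.cons (PF.cons (PF.leaf (nat_lit 6334405) (nat_lit 6448901) (nat_lit 36944580) (nat_lit 17266429) [(nat_lit 0), (nat_lit 0), (nat_lit 0), (nat_lit 6448901)]) (PF.cons (PF.leaf (nat_lit 6493065) (nat_lit 253261) (nat_lit
 36760011) (nat_lit 17210123) [(nat_lit 253261), (nat_lit 0), (nat_lit 0), (nat_lit 6442708)]) (PF.cons (PF.leaf (nat_lit 6661943) (nat_lit 260118) (nat_lit 36566323) (nat_lit 17150665) [(nat_lit 260118), (nat_lit 0), (nat_lit 0), (nat_lit 6435793)]) (PF.cons PF.nil PF.nil)))) (PF.cons (PF.cons (PF.leaf (nat_lit 6848503) (nat_lit 1135990) (nat_lit 36128622) (nat_lit 17013299) [(nat_lit 0), (nat_lit 1135990), (nat_lit 0), (nat_lit 6415450)]) (PF.cons (PF.leaf (nat_lit 7020174) (nat_lit 268607) (nat_lit 35931357) (nat_lit 16951501) [(nat_lit 268607), (nat_lit 1143144), (nat_lit 0), (nat_lit 6407101)]) PF.nil)) (PF.cons PF.nil PF.nil))) (PF.cons (PF.cons (PF.cons (PF.leaf (nat_lit 7286385) (nat_lit 2753784) (nat_lit 35011255)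 (nat_lit 16649377) [(nat_lit 0), (nat_lit 0), (nat_lit 2753784), (nat_lit 6347197)]) (PF.cons PF.nil PF.nil)) (PF.cons PF.nil PF.nil)) (PF.cons PF.nil PF.nil))) (PF.cons (PF.cons (PF.cons (PF.cons (PF.leaf (nat_lit 7858404) (nat_lit 6151581) (nat_lit 32785325) (nat_lit 15868742) [(nat_lit 0), (nat_lit 0), (nat_lit 0), (nat_lit 6151581)]) (PF.cons PF.nil PF.nil)) (PF.cons PF.nil PF.nil)) (PF.cons PF.nil PF.nil)) (PF.cons PF.nil (PF.cons PF.nil PF.nil))))))

def p12_7_3_0 : pfC (piC [(nat_lit 44228488), (nat_lit 27646207), (nat_lit 20402210), (nat_lit 13743659)] (nat_lit 5091605)) p12_7_3 (nat_lit 4) (nat_lit 0) (nat_lit 1) = true := by decide +kernel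
def p12_7_3_1 : pfC (piC [(nat_lit 44228488), (nat_lit 27646207), (nat_lit 20402210), (nat_lit 13743659)] (nat_lit 5091605)) p12_7_3 (nat_lit 4) (nat_lit 1) (nat_lit 2) = true := by decide +kernel
def p12_7_3_2 : pfC (piC [(nat_lit 44228488), (nat_lit 27646207), (nat_lit 20402210), (nat_lit 13743659)] (nat_lit 5091605)) p12_7_3 (nat_lit 4) (nat_lit 2) (nat_lit 3) = true := by decide +kernel
def p12_7_3_3 : pfC (piC [(nat_lit 44228488), (nat_lit 27646207), (nat_lit 20402210), (nat_lit 13743659)] (nat_lit 5091605)) p12_7_3 (nat_lit 4) (nat_lit 3) (nat_lit 4) = true := by decide +kernel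
def p12_7_3_4 : pfC (piC [(nat_lit 44228488), (nat_lit 27646207), (nat_lit 20402210), (nat_lit 13743659)] (nat_lit 5091605)) p12_7_3 (nat_lit 4) (nat_lit 4) (nat_lit 5) = true := by decide +kernel
def p12_7_3_5 : pfC (piC [(nat_lit 44228488), (nat_lit 27646207), (nat_lit 20402210), (nat_lit 13743659)] (nat_lit 5091605)) p12_7_3 (nat_lit 4) (nat_lit 5) (nat_lit 6) = true := by decide +kernel
def p12_7_3_6 : pfC (piC [(nat_lit 44228488), (nat_lit 27646207), (nat_lit 20402210), (nat_lit 13743659)] (nat_lit 5091605)) p12_7_3 (nat_lit 4) (nat_lit 6) (nat_lit 7) = true := by decide +kernel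
def p12_7_3_7 : pfC (piC [(nat_lit 44228488), (nat_lit 27646207), (nat_lit 20402210), (nat_lit 13743659)] (nat_lit 5091605)) p12_7_3 (nat_lit 4) (nat_lit 7) (nat_lit 8) = true := by decide +kernel
def p12_7_3_8 : pfC (piC [(nat_lit 44228488), (nat_lit 27646207), (nat_lit 20402210), (nat_lit 13743659)] (nat_lit 5091605)) p12_7_3 (nat_lit 4) (nat_lit 8) (nat_lit 9) = true := by decide +kernel
def p12_7_3_9 : pfC (piC [(nat_lit 44228488), (nat_lit 27646207), (nat_lit 20402210), (nat_lit 13743659)] (nat_lit 5091605)) p12_7_3 (nat_lit 4) (nat_lit 9) (nat_lit 10) = true := by decide +kernel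
def p12_7_3_10 : pfC (piC [(nat_lit 44228488), (nat_lit 27646207), (nat_lit 20402210), (nat_lit 13743659)] (nat_lit 5091605)) p12_7_3 (nat_lit 4) (nat_lit 10) (nat_lit 11) = true := by decide +kernel
def p12_7_3_11 : pfC (piC [(nat_lit 44228488), (nat_lit 27646207), (nat_lit 20402210), (nat_lit 13743659)] (nat_lit 5091605)) p12_7_3 (nat_lit 4) (nat_lit 11) (nat_lit 12) = true := by decide +kernel
def p12_7_3_12 : pfC (piC [(nat_lit 44228488), (nat_lit 27646207), (nat_lit 20402210), (nat_lit 13743659)] (nat_lit 5091605)) p12_7_3 (nat_lit 4) (nat_lit 12) (nat_lit 13) = true := by decide +kernel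
def p12_7_3_13 : pfC (piC [(nat_lit 44228488), (nat_lit 27646207), (nat_lit 20402210), (nat_lit 13743659)] (nat_lit 5091605)) p12_7_3 (nat_lit 4) (nat_lit 13) (nat_lit 14) = true := by decide +kernel
def p12_7_3_14 : pfC (piC [(nat_lit 44228488), (nat_lit 27646207), (nat_lit 20402210), (nat_lit 13743659)] (nat_lit 5091605)) p12_7_3 (nat_lit 4) (nat_lit 14) (nat_lit 15) = true := by decide +kernel
def p12_7_3_15 : pfC (piC [(nat_lit 44228488), (nat_lit 27646207), (nat_lit 20402210), (nat_lit 13743659)] (nat_lit 5091605)) p12_7_3 (nat_lit 4) (nat_lit 15) (nat_lit 16) = true := by decide +kernel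
def p12_7_3_16 : pfC (piC [(nat_lit 44228488), (nat_lit 27646207), (nat_lit 20402210), (nat_lit 13743659)] (nat_lit 5091605)) p12_7_3 (nat_lit 4) (nat_lit 16) (nat_lit 17) = true := by decide +kernel
def p12_7_3_17 : pfC (piC [(nat_lit 44228488), (nat_lit 27646207), (nat_lit 20402210), (nat_lit 13743659)] (nat_lit 5091605)) p12_7_3 (nat_lit 4) (nat_lit 17) (nat_lit 18) = true := by decide +kernel
def p12_7_3_18 : pfC (piC [(nat_lit 44228488), (nat_lit 27646207), (nat_lit 20402210), (nat_lit 13743659)] (nat_lit 5091605)) p12_7_3 (nat_lit 4) (nat_lit 18) (nat_lit 19) = true := by decide +kernel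
def p12_7_3_19 : pfC (piC [(nat_lit 44228488), (nat_lit 27646207), (nat_lit 20402210), (nat_lit 13743659)] (nat_lit 5091605)) p12_7_3 (nat_lit 4) (nat_lit 19) (nat_lit 20) = true := by decide +kernel
def p12_7_3_20 : pfC (piC [(nat_lit 44228488), (nat_lit 27646207), (nat_lit 20402210), (nat_lit 13743659)] (nat_lit 5091605)) p12_7_3 (nat_lit 4) (nat_lit 20) (nat_lit 21) = true := by decide +kernel
def p12_7_3_21 : pfC (piC [(nat_lit 44228488), (nat_lit 27646207), (nat_lit 20402210), (nat_lit 13743659)] (nat_lit 5091605)) p12_7_3 (nat_lit 4) (nat_lit 21) (nat_lit 22) = true := by decide +kernel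
def p12_7_3_22 : pfC (piC [(nat_lit 44228488), (nat_lit 27646207), (nat_lit 20402210), (nat_lit 13743659)] (nat_lit 5091605)) p12_7_3 (nat_lit 4) (nat_lit 22) (nat_lit 23) = true := by decide +kernel
def p12_7_3_23 : pfC (piC [(nat_lit 44228488), (nat_lit 27646207), (nat_lit 20402210), (nat_lit 13743659)] (nat_lit 5091605)) p12_7_3 (nat_lit 4) (nat_lit 23) (nat_lit 24) = true := by decide +kernel
def p12_7_3_24 : pfC (piC [(nat_lit 44228488), (nat_lit 27646207), (nat_lit 20402210), (nat_lit 13743659)] (nat_lit 5091605)) p12_7_3 (nat_lit 4) (nat_lit 24) (nat_lit 25) = true := by decide +kernel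
def p12_7_3_25 : pfC (piC [(nat_lit 44228488), (nat_lit 27646207), (nat_lit 20402210), (nat_lit 13743659)] (nat_lit 5091605)) p12_7_3 (nat_lit 4) (nat_lit 25) (nat_lit 26) = true := by decide +kernel
def p12_7_3_26 : pfC (piC [(nat_lit 44228488), (nat_lit 27646207), (nat_lit 20402210), (nat_lit 13743659)] (nat_lit 5091605)) p12_7_3 (nat_lit 4) (nat_lit 26) (nat_lit 27) = true := by decide +kernel
def p12_7_3_27 : pfC (piC [(nat_lit 44228488), (nat_lit 27646207), (nat_lit 20402210), (nat_lit 13743659)] (nat_lit 5091605)) p12_7_3 (nat_lit 4) (nat_lit 27) (nat_lit 28) = true := by decide +kernel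
def p12_7_3_28 : pfC (piC [(nat_lit 44228488), (nat_lit 27646207), (nat_lit 20402210), (nat_lit 13743659)] (nat_lit 5091605)) p12_7_3 (nat_lit 4) (nat_lit 28) (nat_lit 29) = true := by decide +kernel
def p12_7_3_29 : pfC (piC [(nat_lit 44228488), (nat_lit 27646207), (nat_lit 20402210), (nat_lit 13743659)] (nat_lit 5091605)) p12_7_3 (nat_lit 4) (nat_lit 29) (nat_lit 30) = true := by decide +kernel
def p12_7_3_30 : pfC (piC [(nat_lit 44228488), (nat_lit 27646207), (nat_lit 20402210), (nat_lit 13743659)] (nat_lit 5091605)) p12_7_3 (nat_lit 4) (nat_lit 30) (nat_lit 31) = true := by decide +kernel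
def p12_7_3_31 : pfC (piC [(nat_lit 44228488), (nat_lit 27646207), (nat_lit 20402210), (nat_lit 13743659)] (nat_lit 5091605)) p12_7_3 (nat_lit 4) (nat_lit 31) (nat_lit 32) = true := by decide +kernel
def p12_7_3_32 : pfC (piC [(nat_lit 44228488), (nat_lit 27646207), (nat_lit 20402210), (nat_lit 13743659)] (nat_lit 5091605)) p12_7_3 (nat_lit 4) (nat_lit 32) (nat_lit 33) = true := by decide +kernel
def p12_7_3_33 : pfC (piC [(nat_lit 44228488), (nat_lit 27646207), (nat_lit 20402210), (nat_lit 13743659)] (nat_lit 5091605)) p12_7_3 (nat_lit 4) (nat_lit 33) (nat_lit 34) = true := by decide +kernel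
def p12_7_3_34 : pfC (piC [(nat_lit 44228488), (nat_lit 27646207), (nat_lit 20402210), (nat_lit 13743659)] (nat_lit 5091605)) p12_7_3 (nat_lit 4) (nat_lit 34) (nat_lit 35) = true := by decide +kernel
def p12_7_3_35 : pfC (piC [(nat_lit 44228488), (nat_lit 27646207), (nat_lit 20402210), (nat_lit 13743659)] (nat_lit 5091605)) p12_7_3 (nat_lit 4) (nat_lit 35) (nat_lit 36) = true := by decide +kernel
def p12_7_3_36 : pfC (piC [(nat_lit 44228488), (nat_lit 27646207), (nat_lit 20402210), (nat_lit 13743659)] (nat_lit 5091605)) p12_7_3 (nat_lit 4) (nat_lit 36) (nat_lit 37) = true := by decide +kernel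
def p12_7_3_37 : pfC (piC [(nat_lit 44228488), (nat_lit 27646207), (nat_lit 20402210), (nat_lit 13743659)] (nat_lit 5091605)) p12_7_3 (nat_lit 4) (nat_lit 37) (nat_lit 38) = true := by decide +kernel
def p12_7_3_38 : pfC (piC [(nat_lit 44228488), (nat_lit 27646207), (nat_lit 20402210), (nat_lit 13743659)] (nat_lit 5091605)) p12_7_3 (nat_lit 4) (nat_lit 38) (nat_lit 39) = true := by decide +kernel
def p12_7_3_39 : pfC (piC [(nat_lit 44228488), (nat_lit 27646207), (nat_lit 20402210), (nat_lit 13743659)] (nat_lit 5091605)) p12_7_3 (nat_lit 4) (nat_lit 39) (nat_lit 40) = true := by decide +kernel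
def p12_7_3_40 : pfC (piC [(nat_lit 44228488), (nat_lit 27646207), (nat_lit 20402210), (nat_lit 13743659)] (nat_lit 5091605)) p12_7_3 (nat_lit 4) (nat_lit 40) (nat_lit 41) = true := by decide +kernel
def p12_7_3_41 : pfC (piC [(nat_lit 44228488), (nat_lit 27646207), (nat_lit 20402210), (nat_lit 13743659)] (nat_lit 5091605)) p12_7_3 (nat_lit 4) (nat_lit 41) (nat_lit 42) = true := by decide +kernel
def p12_7_3_42 : pfC (piC [(nat_lit 44228488), (nat_lit 27646207), (nat_lit 20402210), (nat_lit 13743659)] (nat_lit 5091605)) p12_7_3 (nat_lit 4) (nat_lit 42) (nat_lit 43) = true := by decide +kernel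
def p12_7_3_43 : pfC (piC [(nat_lit 44228488), (nat_lit 27646207), (nat_lit 20402210), (nat_lit 13743659)] (nat_lit 5091605)) p12_7_3 (nat_lit 4) (nat_lit 43) (nat_lit 44) = true := by decide +kernel
def p12_7_3_44 : pfC (piC [(nat_lit 44228488), (nat_lit 27646207), (nat_lit 20402210), (nat_lit 13743659)] (nat_lit 5091605)) p12_7_3 (nat_lit 4) (nat_lit 44) (nat_lit 45) = true := by decide +kernel
def p12_7_3_45 : pfC (piC [(nat_lit 44228488), (nat_lit 27646207), (nat_lit 20402210), (nat_lit 13743659)] (nat_lit 5091605)) p12_7_3 (nat_lit 4) (nat_lit 45) (nat_lit 46) = true := by decide +kernel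
def p12_7_3_46 : pfC (piC [(nat_lit 44228488), (nat_lit 27646207), (nat_lit 20402210), (nat_lit 13743659)] (nat_lit 5091605)) p12_7_3 (nat_lit 4) (nat_lit 46) (nat_lit 47) = true := by decide +kernel
def p12_7_3_47 : pfC (piC [(nat_lit 44228488), (nat_lit 27646207), (nat_lit 20402210), (nat_lit 13743659)] (nat_lit 5091605)) p12_7_3 (nat_lit 4) (nat_lit 47) (nat_lit 48) = true := by decide +kernel
def p12_7_3_48 : pfC (piC [(nat_lit 44228488), (nat_lit 27646207), (nat_lit 20402210), (nat_lit 13743659)] (nat_lit 5091605)) p12_7_3 (nat_lit 4) (nat_lit 48) (nat_lit 49) = true := by decide +kernel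
def p12_7_3_49 : pfC (piC [(nat_lit 44228488), (nat_lit 27646207), (nat_lit 20402210), (nat_lit 13743659)] (nat_lit 5091605)) p12_7_3 (nat_lit 4) (nat_lit 49) (nat_lit 50) = true := by decide +kernel
def p12_7_3_50 : pfC (piC [(nat_lit 44228488), (nat_lit 27646207), (nat_lit 20402210), (nat_lit 13743659)] (nat_lit 5091605)) p12_7_3 (nat_lit 4) (nat_lit 50) (nat_lit 51) = true := by decide +kernel
def p12_7_3_51 : pfC (piC [(nat_lit 44228488), (nat_lit 27646207), (nat_lit 20402210), (nat_lit 13743659)] (nat_lit 5091605)) p12_7_3 (nat_lit 4) (nat_lit 51) (nat_lit 52) = true := by decide +kernel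
def p12_7_3_52 : pfC (piC [(nat_lit 44228488), (nat_lit 27646207), (nat_lit 20402210), (nat_lit 13743659)] (nat_lit 5091605)) p12_7_3 (nat_lit 4) (nat_lit 52) (nat_lit 53) = true := by decide +kernel
def p12_7_3_53 : pfC (piC [(nat_lit 44228488), (nat_lit 27646207), (nat_lit 20402210), (nat_lit 13743659)] (nat_lit 5091605)) p12_7_3 (nat_lit 4) (nat_lit 53) (nat_lit 54) = true := by decide +kernel
def p12_7_3_54 : pfC (piC [(nat_lit 44228488), (nat_lit 27646207), (nat_lit 20402210), (nat_lit 13743659)] (nat_lit 5091605)) p12_7_3 (nat_lit 4) (nat_lit 54) (nat_lit 55) = true := by decide +kernel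
def p12_7_3_55 : pfC (piC [(nat_lit 44228488), (nat_lit 27646207), (nat_lit 20402210), (nat_lit 13743659)] (nat_lit 5091605)) p12_7_3 (nat_lit 4) (nat_lit 55) (nat_lit 56) = true := by decide +kernel
def p12_7_3_56 : pfC (piC [(nat_lit 44228488), (nat_lit 27646207), (nat_lit 20402210), (nat_lit 13743659)] (nat_lit 5091605)) p12_7_3 (nat_lit 4) (nat_lit 56) (nat_lit 57) = true := by decide +kernel
def p12_7_3_57 : pfC (piC [(nat_lit 44228488), (nat_lit 27646207), (nat_lit 20402210), (nat_lit 13743659)] (nat_lit 5091605)) p12_7_3 (nat_lit 4) (nat_lit 57) (nat_lit 58) = true := by decide +kernel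
def p12_7_3_58 : pfC (piC [(nat_lit 44228488), (nat_lit 27646207), (nat_lit 20402210), (nat_lit 13743659)] (nat_lit 5091605)) p12_7_3 (nat_lit 4) (nat_lit 58) (nat_lit 59) = true := by decide +kernel
def p12_7_3_59 : pfC (piC [(nat_lit 44228488), (nat_lit 27646207), (nat_lit 20402210), (nat_lit 13743659)] (nat_lit 5091605)) p12_7_3 (nat_lit 4) (nat_lit 59) (nat_lit 60) = true := by decide +kernel
def p12_7_3_60 : pfC (piC [(nat_lit 44228488), (nat_lit 27646207), (nat_lit 20402210), (nat_lit 13743659)] (nat_lit 5091605)) p12_7_3 (nat_lit 4) (nat_lit 60) (nat_lit 61) = true := by decide +kernel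
def p12_7_3_61 : pfC (piC [(nat_lit 44228488), (nat_lit 27646207), (nat_lit 20402210), (nat_lit 13743659)] (nat_lit 5091605)) p12_7_3 (nat_lit 4) (nat_lit 61) (nat_lit 62) = true := by decide +kernel
def p12_7_3_62 : pfC (piC [(nat_lit 44228488), (nat_lit 27646207), (nat_lit 20402210), (nat_lit 13743659)] (nat_lit 5091605)) p12_7_3 (nat_lit 4) (nat_lit 62) (nat_lit 63) = true := by decide +kernel
def p12_7_3_63 : pfC (piC [(nat_lit 44228488), (nat_lit 27646207), (nat_lit 20402210), (nat_lit 13743659)] (nat_lit 5091605)) p12_7_3 (nat_lit 4) (nat_lit 63) (nat_lit 64) = true := by decide +kernel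
def p12_7_3_64 : pfC (piC [(nat_lit 44228488), (nat_lit 27646207), (nat_lit 20402210), (nat_lit 13743659)] (nat_lit 5091605)) p12_7_3 (nat_lit 4) (nat_lit 64) (nat_lit 65) = true := by decide +kernel
def p12_7_3_65 : pfC (piC [(nat_lit 44228488), (nat_lit 27646207), (nat_lit 20402210), (nat_lit 13743659)] (nat_lit 5091605)) p12_7_3 (nat_lit 4) (nat_lit 65) (nat_lit 66) = true := by decide +kernel
def p12_7_3_66 : pfC (piC [(nat_lit 44228488), (nat_lit 27646207), (nat_lit 20402210), (nat_lit 13743659)] (nat_lit 5091605)) p12_7_3 (nat_lit 4) (nat_lit 66) (nat_lit 67) = true := by decide +kernel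
theorem p12_7_3_T : PfS (PiF n12_7.reverse (nat_lit 5091605)) p12_7_3 (nat_lit 4) [] 0 :=
  pftab_of (los := [(nat_lit 44228488), (nat_lit 27646207), (nat_lit 20402210), (nat_lit 13743659)]) (by decide +kernel) (hi := (nat_lit 67)) (PfP.trans (PfP.trans (PfP.trans (PfP.trans (PfP.trans (PfP.trans (PfP.trans (PfP.trans (PfP.trans (PfP.trans (PfP.trans (PfP.trans (PfP.trans (PfP.trans (PfP.trans (PfP.trans (PfP.trans (PfP.trans (PfP.trans (PfP.trans (PfP.trans (PfP.trans (PfP.trans (PfP.trans (PfP.trans (PfP.trans (PfP.trans (PfP.trans (PfP.trans (PfP.trans (PfP.trans (PfP.trans (PfP.trans (PfP.trans (PfP.trans (PfP.trans (PfP.trans (PfP.trans (PfP.trans (PfP.trans (PfP.trans (PfP.trans (PfP.trans (PfP.trans (PfP.trans (PfP.trans (PfP.trans (PfP.trans (PfP.trans (PfP.trans (PfP.trans (PfP.trans (PfP.trans (PfP.trans (PfP.trans (PfP.trans (PfP.trans (PfP.trans (PfP.trans (PfP.trans (PfP.trans (PfP.trans (PfP.trans (PfP.trans (PfP.trans (PfP.trans (pfC_sound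 p12_7_3_0) (pfC_sound p12_7_3_1)) (pfC_sound p12_7_3_2)) (pfC_sound p12_7_3_3)) (pfC_sound p12_7_3_4)) (pfC_sound p12_7_3_5)) (pfC_sound p12_7_3_6)) (pfC_sound p12_7_3_7)) (pfC_sound p12_7_3_8)) (pfC_sound p12_7_3_9)) (pfC_sound p12_7_3_10)) (pfC_sound p12_7_3_11)) (pfC_sound p12_7_3_12)) (pfC_sound p12_7_3_13)) (pfC_sound p12_7_3_14)) (pfC_sound p12_7_3_15)) (pfC_sound p12_7_3_16)) (pfC_sound p12_7_3_17)) (pfC_sound p12_7_3_18)) (pfC_sound p12_7_3_19))
 (pfC_sound p12_7_3_20)) (pfC_sound p12_7_3_21)) (pfC_sound p12_7_3_22)) (pfC_sound p12_7_3_23)) (pfC_sound p12_7_3_24)) (pfC_sound p12_7_3_25)) (pfC_sound p12_7_3_26)) (pfC_sound p12_7_3_27)) (pfC_sound p12_7_3_28)) (pfC_sound p12_7_3_29)) (pfC_sound p12_7_3_30)) (pfC_sound p12_7_3_31)) (pfC_sound p12_7_3_32)) (pfC_sound p12_7_3_33)) (pfC_sound p12_7_3_34)) (pfC_sound p12_7_3_35)) (pfC_sound p12_7_3_36)) (pfC_sound p12_7_3_37)) (pfC_sound p12_7_3_38)) (pfC_sound p12_7_3_39)) (pfC_sound p12_7_3_40))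 (pfC_sound p12_7_3_41)) (pfC_sound p12_7_3_42)) (pfC_sound p12_7_3_43)) (pfC_sound p12_7_3_44)) (pfC_sound p12_7_3_45)) (pfC_sound p12_7_3_46)) (pfC_sound p12_7_3_47)) (pfC_sound p12_7_3_48)) (pfC_sound p12_7_3_49)) (pfC_sound p12_7_3_50)) (pfC_sound p12_7_3_51)) (pfC_sound p12_7_3_52)) (pfC_sound p12_7_3_53)) (pfC_sound p12_7_3_54)) (pfC_sound p12_7_3_55)) (pfC_sound p12_7_3_56)) (pfC_sound p12_7_3_57)) (pfC_sound p12_7_3_58)) (pfC_sound p12_7_3_59)) (pfC_sound p12_7_3_60)) (pfC_sound p12_7_3_61)) (pfC_sound p12_7_3_62)) (pfC_sound p12_7_3_63)) (pfC_sound p12_7_3_64)) (pfC_sound p12_7_3_65)) (pfC_sound p12_7_3_66)) (by decide +kernel)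

def z12_7_3 : zOK yB12_7 (nat_lit 3) (nat_lit 750) (nat_lit 922) (nat_lit 5091605) (nat_lit 3467248) = true := by decide +kernel
def g12_7_3 : gOK yB12_7.x P12_7 (nat_lit 1425) (q12_7 :: r12_7) (nat_lit 3) (nat_lit 750) (nat_lit 4) (nat_lit 922) (nat_lit 12712500) (nat_lit 12712500) (nat_lit 12712500) (nat_lit 12712500) [(nat_lit 800)] = true := by decide +kernel
def v12_7_3 : ivC P12_7 s12_7 w12_7 n12_7 (nat_lit 4) (nat_lit 4770) (nat_lit 3) (nat_lit 750) f136_1_750 f144_1_750 (nat_lit 4) (nat_lit 922) f136_1_922 f144_1_922 (nat_lit 5091605) (nat_lit 3467248) p12_7_3 = true := by decide +kernel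
/-! box `yB12_8` -/

def P12_8 : BQ := ⟨(nat_lit 8), (nat_lit 4), (nat_lit 4), (nat_lit 0), (nat_lit 8), (nat_lit 700), (nat_lit 720), (nat_lit 120), [(nat_lit 200), (nat_lit 300), (nat_lit 450), (nat_lit 800)], (nat_lit 74272000), (nat_lit 16000000), (nat_lit 16000000000)⟩
def q12_8 : PC := ⟨(nat_lit 1000), [(nat_lit 120000), (nat_lit 200000), (nat_lit 300000), (nat_lit 450000), (nat_lit 800000)], (nat_lit 340282367000166625996085689103316680705000000), (nat_lit 15925728000000), (nat_lit 15925728000000), (nat_lit 10000000)⟩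
def r12_8 : List PC := [⟨(nat_lit 1337), [(nat_lit 120586), (nat_lit 201342), (nat_lit 301726), (nat_lit 452030), (nat_lit 799737)], (nat_lit 342169232725269067090680652993363034734808212), (nat_lit 16351285450880), (nat_lit 16363898417280), (nat_lit 10067100)⟩]
def s12_8 : List PB := [⟨(nat_lit 26740), (nat_lit 1929376000000), [(nat_lit 201342), (nat_lit 301726), (nat_lit 452030), (nat_lit 799737)], (nat_lit 342169232725269067090680652993363034734808212), (nat_lit 1142251192293504), (nat_lit 1142263805259904), (nat_lit 53920)⟩]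
def n12_8 : List KN := [⟨(nat_lit 800), (nat_lit 450), (nat_lit 13586793), (nat_lit 7298113)⟩, ⟨(nat_lit 450), (nat_lit 300), (nat_lit 20249535), (nat_lit 13586793)⟩, ⟨(nat_lit 300), (nat_lit 200), (nat_lit 27333682), (nat_lit 20249535)⟩, ⟨(nat_lit 200), (nat_lit 120), (nat_lit 43428061), (nat_lit 27333682)⟩]
def w12_8 : List ℕ := [(nat_lit 53920)]
def par12_8 : parC yB12_8 P12_8 s12_8 r12_8 q12_8 n12_8 w12_8 = true := by decide +kernel

def p12_8_0 : PF := (PF.cons (PF.cons (PF.cons (PF.cons (PF.leaf (nat_lit 347782) (nat_lit 875668) (nat_lit 66233144) (nat_lit 875668) [(nat_lit 0), (nat_lit 0), (nat_lit 0), (nat_lit 0)]) (PF.cons (PF.leaf (nat_lit 423783) (nat_lit 115156) (nat_lit 66085021) (nat_lit 908634) [(nat_lit 115156), (nat_lit 0), (nat_lit 0), (nat_lit 0)]) (PF.cons (PF.leaf (nat_lit 524809) (nat_lit 128550) (nat_lit 65906553) (nat_lit 945159) [(nat_lit 128550), (nat_lit 0), (nat_lit 0), (nat_lit 0)]) (PF.cons (PF.leaf (nat_lit 642383)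 (nat_lit 141420) (nat_lit 65700722) (nat_lit 983830) [(nat_lit 141420), (nat_lit 0), (nat_lit 0), (nat_lit 0)]) (PF.cons (PF.leaf (nat_lit 774320) (nat_lit 153892) (nat_lit 65469518) (nat_lit 1023725) [(nat_lit 153892), (nat_lit 0), (nat_lit 0), (nat_lit 0)]) (PF.cons (PF.leaf (nat_lit 920924) (nat_lit 166027) (nat_lit 65214460) (nat_lit 1064214) [(nat_lit 166027), (nat_lit 0), (nat_lit 0), (nat_lit 0)]) (PF.cons PF.nil (PF.cons PF.nil (PF.cons PF.nil PF.nil))))))))) (PF.cons (PF.cons (PF.leaf (nat_lit 730819) (nat_lit 744987) (nat_lit 65332367) (nat_lit 1031457) [(nat_lit 0), (nat_lit 744987), (nat_lit 0), (nat_lit 0)]) (PF.cons (PF.leaf (nat_lit 849196) (nat_lit 157543) (nat_lit 65110461)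
 (nat_lit 1066186) [(nat_lit 157543), (nat_lit 774622), (nat_lit 0), (nat_lit 0)]) (PF.cons (PF.leaf (nat_lit 987331) (nat_lit 169710) (nat_lit 64861612) (nat_lit 1102448) [(nat_lit 169710), (nat_lit 805331), (nat_lit 0), (nat_lit 0)]) (PF.cons (PF.leaf (nat_lit 1140313) (nat_lit 181473) (nat_lit 64588334) (nat_lit 1139518) [(nat_lit 181473), (nat_lit 836539), (nat_lit 0), (nat_lit 0)]) (PF.cons (PF.leaf (nat_lit 1306684) (nat_lit 192890) (nat_lit 64292490) (nat_lit 1176896) [(nat_lit 192890), (nat_lit 867862), (nat_lit 0), (nat_lit 0)]) (PF.cons PF.nil (PF.cons PF.nil PF.nil))))))) (PF.cons (PF.cons (PF.leaf (nat_lit 1213675) (nat_lit 864121) (nat_lit 64205102) (nat_lit 1175467) [(nat_lit 0), (nat_lit 864121), (nat_lit 0), (nat_lit 0)]) (PF.cons (PF.leaf (nat_lit 1368188) (nat_lit 195620) (nat_lit 63918575) (nat_lit 1209293) [(nat_lit 195620), (nat_lit 892662), (nat_lit 0), (nat_lit 0)]) (PF.cons (PF.leaf (nat_lit 1539587) (nat_lit 206723) (nat_lit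 63608743) (nat_lit 1243617) [(nat_lit 206723), (nat_lit 921501), (nat_lit 0), (nat_lit 0)]) (PF.cons (PF.leaf (nat_lit 1723770) (nat_lit 217464) (nat_lit 63277749) (nat_lit 1278027) [(nat_lit 217464), (nat_lit 950321), (nat_lit 0),
 (nat_lit 0)]) (PF.cons PF.nil PF.nil))))) (PF.cons (PF.cons (PF.leaf (nat_lit 1781243) (nat_lit 971430) (nat_lit 62888896) (nat_lit 1305625) [(nat_lit 0), (nat_lit 971430), (nat_lit 0), (nat_lit 0)]) (PF.cons (PF.leaf (nat_lit 1966998) (nat_lit 229874) (nat_lit 62547705) (nat_lit 1337235) [(nat_lit 229874), (nat_lit 997999), (nat_lit 0), (nat_lit 0)]) (PF.cons PF.nil (PF.cons PF.nil PF.nil)))) (PF.cons (PF.cons (PF.leaf (nat_lit 2418803) (nat_lit 1066761) (nat_lit 61420575) (nat_lit 1421190) [(nat_lit 0), (nat_lit 1066761), (nat_lit 0), (nat_lit 0)]) (PF.cons PF.nil PF.nil)) (PF.cons PF.nil PF.nil)))))) (PF.cons (PF.cons (PF.cons (PF.leaf (nat_lit 1283171) (nat_lit 1199894) (nat_lit 63464675) (nat_lit 1199894) [(nat_lit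 0), (nat_lit 0), (nat_lit 2444243), (nat_lit 0)]) (PF.cons (PF.leaf (nat_lit 1420823) (nat_lit 188902) (nat_lit 63205735) (nat_lit 1230060) [(nat_lit 188902), (nat_lit 0), (nat_lit 2484113), (nat_lit 0)]) (PF.cons (PF.leaf (nat_lit 1577215) (nat_lit 201053) (nat_lit 62919268) (nat_lit 1261379) [(nat_lit 201053), (nat_lit 0), (nat_lit 2526058), (nat_lit 0)]) (PF.cons (PF.leaf (nat_lit 1747915) (nat_lit 212547) (nat_lit 62608739) (nat_lit 1293237) [(nat_lit 212547),
 (nat_lit 0), (nat_lit 2569194), (nat_lit 0)]) (PF.cons (PF.leaf (nat_lit 1931864) (nat_lit 223507) (nat_lit 62276681) (nat_lit 1325217) [(nat_lit 223507), (nat_lit 0), (nat_lit 2612882), (nat_lit 0)]) (PF.cons PF.nil (PF.cons PF.nil PF.nil))))))) (PF.cons (PF.cons (PF.leaf (nat_lit 1815253) (nat_lit 979407) (nat_lit 62193888) (nat_lit 1321436) [(nat_lit 0), (nat_lit 979407), (nat_lit 2614080), (nat_lit 0)]) (PF.cons (PF.leaf (nat_lit 1986212) (nat_lit 224482) (nat_lit 61875957) (nat_lit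 1350494) [(nat_lit 224482), (nat_lit 1004413), (nat_lit 2653464), (nat_lit 0)]) (PF.cons (PF.leaf (nat_lit 2172670) (nat_lit 235162) (nat_lit 61535598) (nat_lit 1379842) [(nat_lit 235162), (nat_lit 1029531), (nat_lit 2693514), (nat_lit 0)]) (PF.cons (PF.leaf (nat_lit 2371404) (nat_lit 245339) (nat_lit 61175460) (nat_lit 1409135) [(nat_lit 245339), (nat_lit 1054495), (nat_lit 2733702), (nat_lit 0)]) (PF.cons PF.nil PF.nil))))) (PF.cons (PF.cons (PF.leaf (nat_lit 2420128) (nat_lit 1070832) (nat_lit 60768357) (nat_lit 1430597) [(nat_lit 0), (nat_lit 1070832), (nat_lit 2768194), (nat_lit 0)]) (PF.cons (PF.leaf (nat_lit 2618845) (nat_lit 255712) (nat_lit 60403203) (nat_lit 1457449) [(nat_lit 255712),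
 (nat_lit 1093804), (nat_lit 2804839), (nat_lit 0)]) (PF.cons PF.nil (PF.cons PF.nil PF.nil)))) (PF.cons (PF.cons (PF.leaf (nat_lit 3083145) (nat_lit 1151231) (nat_lit 59224992) (nat_lit 1526636) [(nat_lit 0), (nat_lit 1151231), (nat_lit 2903489), (nat_lit 0)]) (PF.cons PF.nil PF.nil)) (PF.cons PF.nil PF.nil))))) (PF.cons (PF.cons (PF.cons (PF.leaf (nat_lit 2432323) (nat_lit 1438823) (nat_lit 60081040) (nat_lit 1438823) [(nat_lit 0), (nat_lit 0), (nat_lit 2794474), (nat_lit 0)]) (PF.cons (PF.leaf (nat_lit 2615677) (nat_lit 248755) (nat_lit 59742236) (nat_lit 1463766) [(nat_lit 248755), (nat_lit 0), (nat_lit 2827027), (nat_lit 0)]) (PF.cons (PF.leaf (nat_lit 2813660) (nat_lit 258968) (nat_lit 59382156) (nat_lit 1488819) [(nat_lit 258968), (nat_lit 0), (nat_lit 2859949), (nat_lit 0)]) (PF.cons PF.nil (PF.cons PF.nil PF.nil))))) (PF.cons (PF.cons (PF.leaf (nat_lit 3062687) (nat_lit 1150925) (nat_lit 58589638) (nat_lit 1530198) [(nat_lit 0), (nat_lit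 1150925), (nat_lit 2919025), (nat_lit 0)]) (PF.cons (PF.leaf (nat_lit 3270793) (nat_lit 277159) (nat_lit 58210455) (nat_lit 1552916) [(nat_lit 277159), (nat_lit 1170720), (nat_lit 2948780), (nat_lit 0)]) (PF.cons PF.nil (PF.cons PF.nil
 PF.nil)))) (PF.cons (PF.cons (PF.leaf (nat_lit 3741028) (nat_lit 1218410) (nat_lit 57009477) (nat_lit 1609548) [(nat_lit 0), (nat_lit 1218410), (nat_lit 3026483), (nat_lit 0)]) (PF.cons PF.nil PF.nil)) PF.nil))) (PF.cons (PF.cons (PF.cons (PF.leaf (nat_lit 3700611) (nat_lit 1608707) (nat_lit 56399317) (nat_lit 1608707) [(nat_lit 0), (nat_lit 0), (nat_lit 3033595), (nat_lit 0)]) (PF.cons (PF.leaf (nat_lit 3915239) (nat_lit 294817) (nat_lit 56014009) (nat_lit 1627789) [(nat_lit 294817), (nat_lit 0), (nat_lit 3057398), (nat_lit 0)]) PF.nil)) (PF.cons PF.nil PF.nil)) (PF.cons PF.nil (PF.cons PF.nil PF.nil)))))) (PF.cons (PF.cons (PF.cons (PF.cons (PF.leaf (nat_lit 2339291) (nat_lit 1377263) (nat_lit 58171415) (nat_lit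 1377263) [(nat_lit 0), (nat_lit 0), (nat_lit 0), (nat_lit 7560133)]) (PF.cons (PF.leaf (nat_lit 2489624) (nat_lit 219750) (nat_lit 57900532) (nat_lit 1402300) [(nat_lit 219750), (nat_lit 0), (nat_lit 0), (nat_lit 7586229)]) (PF.cons (PF.leaf (nat_lit 2657976) (nat_lit 232006) (nat_lit 57603489) (nat_lit 1427882) [(nat_lit 232006), (nat_lit 0), (nat_lit 0), (nat_lit 7613429)]) (PF.cons (PF.leaf (nat_lit 2839836) (nat_lit 243288) (nat_lit 57284375) (nat_lit 1453510)
 [(nat_lit 243288), (nat_lit 0), (nat_lit 0), (nat_lit 7641061)]) (PF.cons (PF.leaf (nat_lit 3033791) (nat_lit 253787) (nat_lit 56946182) (nat_lit 1478868) [(nat_lit 253787), (nat_lit 0), (nat_lit 0), (nat_lit 7668614)]) (PF.cons (PF.leaf (nat_lit 3238737) (nat_lit 263624) (nat_lit 56591257) (nat_lit 1503745) [(nat_lit 263624), (nat_lit 0), (nat_lit 0), (nat_lit 7695685)]) (PF.cons (PF.leaf (nat_lit 3453474) (nat_lit 272888) (nat_lit 56221533) (nat_lit 1527999) [(nat_lit 272888), (nat_lit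 0), (nat_lit 0), (nat_lit 7721948)]) (PF.cons PF.nil (PF.cons PF.nil PF.nil))))))))) (PF.cons (PF.cons (PF.leaf (nat_lit 2893844) (nat_lit 1097146) (nat_lit 56870117) (nat_lit 1472513) [(nat_lit 0), (nat_lit 1097146), (nat_lit 0), (nat_lit 7669036)]) (PF.cons (PF.leaf (nat_lit 3073833) (nat_lit 252736) (nat_lit 56549499) (nat_lit 1495503) [(nat_lit 252736), (nat_lit 1117862), (nat_lit 0), (nat_lit 7693210)]) (PF.cons (PF.leaf (nat_lit 3268130) (nat_lit 262904) (nat_lit 56208939) (nat_lit 1518425) [(nat_lit 262904), (nat_lit 1138362), (nat_lit 0), (nat_lit 7717275)]) (PF.cons (PF.leaf (nat_lit 3473493) (nat_lit 272382) (nat_lit 55851377) (nat_lit 1541021) [(nat_lit 272382), (nat_lit 1158452),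
 (nat_lit 0), (nat_lit 7740814)]) (PF.cons (PF.leaf (nat_lit 3688814) (nat_lit 281273) (nat_lit 55479087) (nat_lit 1563119) [(nat_lit 281273), (nat_lit 1178007), (nat_lit 0), (nat_lit 7763505)]) (PF.cons PF.nil (PF.cons PF.nil PF.nil))))))) (PF.cons (PF.cons (PF.leaf (nat_lit 3506314) (nat_lit 1168744) (nat_lit 55457319) (nat_lit 1554630) [(nat_lit 0), (nat_lit 1168744), (nat_lit 0), (nat_lit 7759373)]) (PF.cons (PF.leaf (nat_lit 3709780) (nat_lit 280219) (nat_lit 55100106) (nat_lit 1575083) [(nat_lit 280219), (nat_lit 1187011), (nat_lit 0), (nat_lit 7779381)]) (PF.cons (PF.leaf (nat_lit 3924714) (nat_lit 288817) (nat_lit 54727734) (nat_lit 1595163) [(nat_lit 288817), (nat_lit 1204867), (nat_lit 0), (nat_lit 7798545)]) (PF.cons (PF.leaf (nat_lit 4148755) (nat_lit 296880) (nat_lit 54342415) (nat_lit 1614728) [(nat_lit 296880), (nat_lit 1222207), (nat_lit 0), (nat_lit 7816611)]) (PF.cons PF.nil PF.nil))))) (PF.cons (PF.cons (PF.leaf (nat_lit 4162459)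 (nat_lit 1229436) (nat_lit 53968861) (nat_lit 1624386) [(nat_lit 0), (nat_lit 1229436), (nat_lit 0), (nat_lit 7827256)]) (PF.cons (PF.leaf (nat_lit 4384344) (nat_lit 303369) (nat_lit 53585582) (nat_lit 1642143) [(nat_lit 303369),
 (nat_lit 1245268), (nat_lit 0), (nat_lit 7841911)]) (PF.cons PF.nil (PF.cons PF.nil PF.nil)))) (PF.cons (PF.cons (PF.leaf (nat_lit 4850411) (nat_lit 1280281) (nat_lit 52433642) (nat_lit 1682645) [(nat_lit 0), (nat_lit 1280281), (nat_lit 0), (nat_lit 7871400)]) (PF.cons PF.nil PF.nil)) (PF.cons PF.nil PF.nil)))))) (PF.cons (PF.cons (PF.cons (PF.leaf (nat_lit 3486254) (nat_lit 1551676) (nat_lit 54821492) (nat_lit 1551676) [(nat_lit 0), (nat_lit 0), (nat_lit 2969749), (nat_lit 7765894)]) (PF.cons (PF.leaf (nat_lit 3674166) (nat_lit 270758) (nat_lit 54492560) (nat_lit 1571136) [(nat_lit 270758), (nat_lit 0), (nat_lit 2992020), (nat_lit 7782337)]) (PF.cons (PF.leaf (nat_lit 3875469) (nat_lit 280372) (nat_lit 54145022) (nat_lit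 1590438) [(nat_lit 280372), (nat_lit 0), (nat_lit 3014305), (nat_lit 7798301)]) (PF.cons (PF.leaf (nat_lit 4087227) (nat_lit 289230) (nat_lit 53781967) (nat_lit 1609373) [(nat_lit 289230), (nat_lit 0), (nat_lit 3036303), (nat_lit 7813476)]) (PF.cons (PF.leaf (nat_lit 4308178) (nat_lit 297457) (nat_lit 53405756) (nat_lit 1627800) [(nat_lit 297457), (nat_lit 0), (nat_lit 3057798), (nat_lit 7827627)]) (PF.cons PF.nil (PF.cons PF.nil PF.nil))))))) (PF.cons (PF.cons
 (PF.leaf (nat_lit 4111171) (nat_lit 1222408) (nat_lit 53392942) (nat_lit 1619336) [(nat_lit 0), (nat_lit 1222408), (nat_lit 3051132), (nat_lit 7822992)]) (PF.cons (PF.leaf (nat_lit 4320057) (nat_lit 295568) (nat_lit 53033043) (nat_lit 1636425) [(nat_lit 295568), (nat_lit 1237993), (nat_lit 3070725), (nat_lit 7835057)]) (PF.cons (PF.leaf (nat_lit 4539598) (nat_lit 303557) (nat_lit 52659422) (nat_lit 1653114) [(nat_lit 303557), (nat_lit 1253145), (nat_lit 3089901), (nat_lit 7846115)]) (PF.cons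 (PF.leaf (nat_lit 4767468) (nat_lit 310977) (nat_lit 52274329) (nat_lit 1669290) [(nat_lit 310977), (nat_lit 1267781), (nat_lit 3108487), (nat_lit 7855992)]) (PF.cons PF.nil PF.nil))))) (PF.cons (PF.cons (PF.leaf (nat_lit 4772151) (nat_lit 1272712) (nat_lit 51909808) (nat_lit 1676045) [(nat_lit 0), (nat_lit 1272712), (nat_lit 3118453), (nat_lit 7859080)]) (PF.cons (PF.leaf (nat_lit 4997108) (nat_lit 316157) (nat_lit 51528979) (nat_lit 1690662) [(nat_lit 316157), (nat_lit 1286039), (nat_lit 3134899), (nat_lit 7866035)]) (PF.cons PF.nil (PF.cons PF.nil PF.nil)))) (PF.cons (PF.cons (PF.leaf (nat_lit 5458300) (nat_lit 1314231) (nat_lit 50397690) (nat_lit 1722600) [(nat_lit 0), (nat_lit 1314231),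
 (nat_lit 3171919), (nat_lit 7873907)]) (PF.cons PF.nil PF.nil)) (PF.cons PF.nil PF.nil))))) (PF.cons (PF.cons (PF.cons (PF.leaf (nat_lit 4704730) (nat_lit 1668652) (nat_lit 51366535) (nat_lit 1668652) [(nat_lit 0), (nat_lit 0), (nat_lit 3114089), (nat_lit 7845446)]) (PF.cons (PF.leaf (nat_lit 4917021) (nat_lit 307981) (nat_lit 51008837) (nat_lit 1682830) [(nat_lit 307981), (nat_lit 0), (nat_lit 3129268), (nat_lit 7850627)]) (PF.cons (PF.leaf (nat_lit 5139301) (nat_lit 315400) (nat_lit 50638730) (nat_lit 1696592) [(nat_lit 315400), (nat_lit 0), (nat_lit 3143987), (nat_lit 7854713)]) (PF.cons PF.nil PF.nil)))) (PF.cons (PF.cons (PF.leaf (nat_lit 5365441) (nat_lit 1305406) (nat_lit 49906092) (nat_lit 1714230) [(nat_lit 0), (nat_lit 1305406), (nat_lit 3164274), (nat_lit 7854535)]) (PF.cons (PF.leaf (nat_lit 5591845) (nat_lit 326282) (nat_lit 49531717) (nat_lit 1726141) [(nat_lit 326282), (nat_lit 1316555), (nat_lit 3176576), (nat_lit 7854963)]) PF.nil))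 (PF.cons PF.nil PF.nil))) (PF.cons (PF.cons (PF.cons (PF.leaf (nat_lit 5940238) (nat_lit 1741182) (nat_lit 47971192) (nat_lit 1741182) [(nat_lit 0), (nat_lit 0), (nat_lit 3192009), (nat_lit 7820409)]) (PF.cons PF.nil PF.nil)) (PF.cons
 PF.nil PF.nil)) (PF.cons PF.nil (PF.cons PF.nil PF.nil)))))) (PF.cons (PF.cons (PF.cons (PF.cons (PF.leaf (nat_lit 4434052) (nat_lit 1607141) (nat_lit 50035673) (nat_lit 1607141) [(nat_lit 0), (nat_lit 0), (nat_lit 0), (nat_lit 7732999)]) (PF.cons (PF.leaf (nat_lit 4621723) (nat_lit 282954) (nat_lit 49729552) (nat_lit 1622480) [(nat_lit 282954), (nat_lit 0), (nat_lit 0), (nat_lit 7736912)]) (PF.cons (PF.leaf (nat_lit 4821834) (nat_lit 291980) (nat_lit 49407291) (nat_lit 1637504) [(nat_lit 291980), (nat_lit 0), (nat_lit 0), (nat_lit 7740027)]) (PF.cons (PF.leaf (nat_lit 5031465) (nat_lit 300166) (nat_lit 49071854) (nat_lit 1652059) [(nat_lit 300166), (nat_lit 0), (nat_lit 0), (nat_lit 7742200)]) (PF.cons (PF.leaf (nat_lit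 5249324) (nat_lit 307657) (nat_lit 48725484) (nat_lit 1666050) [(nat_lit 307657), (nat_lit 0), (nat_lit 0), (nat_lit 7743324)]) (PF.cons PF.nil (PF.cons PF.nil PF.nil))))))) (PF.cons (PF.cons (PF.leaf (nat_lit 5042789) (nat_lit 1255073) (nat_lit 48718546) (nat_lit 1657571) [(nat_lit 0), (nat_lit 1255073), (nat_lit 0), (nat_lit 7738810)]) (PF.cons (PF.leaf (nat_lit 5248615) (nat_lit 304833) (nat_lit 48388171) (nat_lit 1670559) [(nat_lit 304833), (nat_lit 1267511),
 (nat_lit 0), (nat_lit 7738868)]) (PF.cons (PF.leaf (nat_lit 5464127) (nat_lit 312115) (nat_lit 48046268) (nat_lit 1683091) [(nat_lit 312115), (nat_lit 1279456), (nat_lit 0), (nat_lit 7737882)]) (PF.cons (PF.leaf (nat_lit 5687051) (nat_lit 318786) (nat_lit 47694938) (nat_lit 1695090) [(nat_lit 318786), (nat_lit 1290856), (nat_lit 0), (nat_lit 7735783)]) (PF.cons PF.nil PF.nil))))) (PF.cons (PF.cons (PF.leaf (nat_lit 5679494) (nat_lit 1292945) (nat_lit 47367577) (nat_lit 1698223) [(nat_lit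 0), (nat_lit 1292945), (nat_lit 0), (nat_lit 7728560)]) (PF.cons (PF.leaf (nat_lit 5898810) (nat_lit 322439) (nat_lit 47021902) (nat_lit 1708944) [(nat_lit 322439), (nat_lit 1303244), (nat_lit 0), (nat_lit 7724518)]) (PF.cons PF.nil (PF.cons PF.nil PF.nil)))) (PF.cons (PF.cons (PF.leaf (nat_lit 6334654) (nat_lit 1323080) (nat_lit 46003856) (nat_lit 1730207) [(nat_lit 0), (nat_lit 1323080), (nat_lit 0), (nat_lit 7702753)]) (PF.cons PF.nil PF.nil)) (PF.cons PF.nil PF.nil))))) (PF.cons (PF.cons (PF.cons (PF.leaf (nat_lit 5592770) (nat_lit 1687194) (nat_lit 46893341) (nat_lit 1687194) [(nat_lit 0), (nat_lit 0), (nat_lit 3121921), (nat_lit 7703177)]) (PF.cons (PF.leaf (nat_lit 5800139) (nat_lit 313559)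
 (nat_lit 46569075) (nat_lit 1697844) [(nat_lit 313559), (nat_lit 0), (nat_lit 3131243), (nat_lit 7698544)]) (PF.cons (PF.leaf (nat_lit 6016614) (nat_lit 320318) (nat_lit 46234367) (nat_lit 1708045) [(nat_lit 320318), (nat_lit 0), (nat_lit 3140085), (nat_lit 7692838)]) (PF.cons PF.nil (PF.cons PF.nil PF.nil))))) (PF.cons (PF.cons (PF.leaf (nat_lit 6225153) (nat_lit 1312218) (nat_lit 45577766) (nat_lit 1719185) [(nat_lit 0), (nat_lit 1312218), (nat_lit 3149696), (nat_lit 7674972)]) (PF.cons (PF.leaf (nat_lit 6444477) (nat_lit 329215) (nat_lit 45241273) (nat_lit 1727789) [(nat_lit 329215), (nat_lit 1320771), (nat_lit 3156605), (nat_lit 7666579)]) (PF.cons PF.nil (PF.cons PF.nil PF.nil)))) (PF.cons (PF.cons (PF.leaf (nat_lit 6872031) (nat_lit 1336142) (nat_lit 44258553) (nat_lit 1743586) [(nat_lit 0), (nat_lit 1336142), (nat_lit 3167921), (nat_lit 7633232)]) (PF.cons PF.nil PF.nil)) PF.nil))) (PF.cons (PF.cons (PF.cons (PF.leaf (nat_lit 6752734) (nat_lit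 1732061) (nat_lit 43862196) (nat_lit 1732061) [(nat_lit 0), (nat_lit 0), (nat_lit 3154270), (nat_lit 7603006)]) (PF.cons (PF.leaf (nat_lit 6971149) (nat_lit 334273) (nat_lit 43536425) (nat_lit 1738854) [(nat_lit 334273), (nat_lit 0),
 (nat_lit 3158605), (nat_lit 7591024)]) PF.nil)) (PF.cons PF.nil PF.nil)) (PF.cons PF.nil (PF.cons PF.nil PF.nil))))) (PF.cons (PF.cons (PF.cons (PF.cons (PF.leaf (nat_lit 6382841) (nat_lit 1679981) (nat_lit 42965925) (nat_lit 1679981) [(nat_lit 0), (nat_lit 0), (nat_lit 0), (nat_lit 7487635)]) (PF.cons (PF.leaf (nat_lit 6584081) (nat_lit 314274) (nat_lit 42675270) (nat_lit 1688066) [(nat_lit 314274), (nat_lit 0), (nat_lit 0), (nat_lit 7477067)]) (PF.cons (PF.leaf (nat_lit 6793754) (nat_lit 320482) (nat_lit 42375718) (nat_lit 1695696) [(nat_lit 320482), (nat_lit 0), (nat_lit 0), (nat_lit 7465477)]) (PF.cons PF.nil PF.nil)))) (PF.cons (PF.cons (PF.leaf (nat_lit 6986618) (nat_lit 1302006) (nat_lit 41792331) (nat_lit 1702347)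 [(nat_lit 0), (nat_lit 1302006), (nat_lit 0), (nat_lit 7437375)]) (PF.cons (PF.leaf (nat_lit 7198239) (nat_lit 327885) (nat_lit 41492308) (nat_lit 1708594) [(nat_lit 327885), (nat_lit 1308666), (nat_lit 0), (nat_lit 7423785)]) PF.nil)) (PF.cons PF.nil PF.nil))) (PF.cons (PF.cons (PF.cons (PF.leaf (nat_lit 7473231) (nat_lit 1705920) (nat_lit 40279482) (nat_lit 1705920) [(nat_lit 0), (nat_lit 0), (nat_lit 3088871), (nat_lit 7344845)]) (PF.cons PF.nil PF.nil))
 (PF.cons PF.nil PF.nil)) (PF.cons PF.nil PF.nil))) (PF.cons (PF.cons (PF.cons (PF.cons (PF.leaf (nat_lit 8118912) (nat_lit 1669851) (nat_lit 37155815) (nat_lit 1669851) [(nat_lit 0), (nat_lit 0), (nat_lit 0), (nat_lit 7070786)]) (PF.cons PF.nil PF.nil)) (PF.cons PF.nil PF.nil)) (PF.cons PF.nil PF.nil)) (PF.cons PF.nil (PF.cons PF.nil (PF.cons PF.nil PF.nil))))))))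

def p12_8_0_0 : pfC (piC [(nat_lit 43428061), (nat_lit 27333682), (nat_lit 20249535), (nat_lit 13586793)] (nat_lit 32441938)) p12_8_0 (nat_lit 4) (nat_lit 0) (nat_lit 1) = true := by decide +kernel
def p12_8_0_1 : pfC (piC [(nat_lit 43428061), (nat_lit 27333682), (nat_lit 20249535), (nat_lit 13586793)] (nat_lit 32441938)) p12_8_0 (nat_lit 4) (nat_lit 1) (nat_lit 2) = true := by decide +kernel
def p12_8_0_2 : pfC (piC [(nat_lit 43428061), (nat_lit 27333682), (nat_lit 20249535), (nat_lit 13586793)] (nat_lit 32441938)) p12_8_0 (nat_lit 4) (nat_lit 2) (nat_lit 3) = true := by decide +kernel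
def p12_8_0_3 : pfC (piC [(nat_lit 43428061), (nat_lit 27333682), (nat_lit 20249535), (nat_lit 13586793)] (nat_lit 32441938)) p12_8_0 (nat_lit 4) (nat_lit 3) (nat_lit 4) = true := by decide +kernel
def p12_8_0_4 : pfC (piC [(nat_lit 43428061), (nat_lit 27333682), (nat_lit 20249535), (nat_lit 13586793)] (nat_lit 32441938)) p12_8_0 (nat_lit 4) (nat_lit 4) (nat_lit 5) = true := by decide +kernel
def p12_8_0_5 : pfC (piC [(nat_lit 43428061), (nat_lit 27333682), (nat_lit 20249535), (nat_lit 13586793)] (nat_lit 32441938)) p12_8_0 (nat_lit 4) (nat_lit 5) (nat_lit 6) = true := by decide +kernel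
def p12_8_0_6 : pfC (piC [(nat_lit 43428061), (nat_lit 27333682), (nat_lit 20249535), (nat_lit 13586793)] (nat_lit 32441938)) p12_8_0 (nat_lit 4) (nat_lit 6) (nat_lit 7) = true := by decide +kernel
def p12_8_0_7 : pfC (piC [(nat_lit 43428061), (nat_lit 27333682), (nat_lit 20249535), (nat_lit 13586793)] (nat_lit 32441938)) p12_8_0 (nat_lit 4) (nat_lit 7) (nat_lit 8) = true := by decide +kernel
def p12_8_0_8 : pfC (piC [(nat_lit 43428061), (nat_lit 27333682), (nat_lit 20249535), (nat_lit 13586793)] (nat_lit 32441938)) p12_8_0 (nat_lit 4) (nat_lit 8) (nat_lit 9) = true := by decide +kernel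
def p12_8_0_9 : pfC (piC [(nat_lit 43428061), (nat_lit 27333682), (nat_lit 20249535), (nat_lit 13586793)] (nat_lit 32441938)) p12_8_0 (nat_lit 4) (nat_lit 9) (nat_lit 10) = true := by decide +kernel
def p12_8_0_10 : pfC (piC [(nat_lit 43428061), (nat_lit 27333682), (nat_lit 20249535), (nat_lit 13586793)] (nat_lit 32441938)) p12_8_0 (nat_lit 4) (nat_lit 10) (nat_lit 11) = true := by decide +kernel
def p12_8_0_11 : pfC (piC [(nat_lit 43428061), (nat_lit 27333682), (nat_lit 20249535), (nat_lit 13586793)] (nat_lit 32441938)) p12_8_0 (nat_lit 4) (nat_lit 11) (nat_lit 12) = true := by decide +kernel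
def p12_8_0_12 : pfC (piC [(nat_lit 43428061), (nat_lit 27333682), (nat_lit 20249535), (nat_lit 13586793)] (nat_lit 32441938)) p12_8_0 (nat_lit 4) (nat_lit 12) (nat_lit 13) = true := by decide +kernel
def p12_8_0_13 : pfC (piC [(nat_lit 43428061), (nat_lit 27333682), (nat_lit 20249535), (nat_lit 13586793)] (nat_lit 32441938)) p12_8_0 (nat_lit 4) (nat_lit 13) (nat_lit 14) = true := by decide +kernel
def p12_8_0_14 : pfC (piC [(nat_lit 43428061), (nat_lit 27333682), (nat_lit 20249535), (nat_lit 13586793)] (nat_lit 32441938)) p12_8_0 (nat_lit 4) (nat_lit 14) (nat_lit 15) = true := by decide +kernel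
def p12_8_0_15 : pfC (piC [(nat_lit 43428061), (nat_lit 27333682), (nat_lit 20249535), (nat_lit 13586793)] (nat_lit 32441938)) p12_8_0 (nat_lit 4) (nat_lit 15) (nat_lit 16) = true := by decide +kernel
def p12_8_0_16 : pfC (piC [(nat_lit 43428061), (nat_lit 27333682), (nat_lit 20249535), (nat_lit 13586793)] (nat_lit 32441938)) p12_8_0 (nat_lit 4) (nat_lit 16) (nat_lit 17) = true := by decide +kernel
def p12_8_0_17 : pfC (piC [(nat_lit 43428061), (nat_lit 27333682), (nat_lit 20249535), (nat_lit 13586793)] (nat_lit 32441938)) p12_8_0 (nat_lit 4) (nat_lit 17) (nat_lit 18) = true := by decide +kernel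
def p12_8_0_18 : pfC (piC [(nat_lit 43428061), (nat_lit 27333682), (nat_lit 20249535), (nat_lit 13586793)] (nat_lit 32441938)) p12_8_0 (nat_lit 4) (nat_lit 18) (nat_lit 19) = true := by decide +kernel
def p12_8_0_19 : pfC (piC [(nat_lit 43428061), (nat_lit 27333682), (nat_lit 20249535), (nat_lit 13586793)] (nat_lit 32441938)) p12_8_0 (nat_lit 4) (nat_lit 19) (nat_lit 20) = true := by decide +kernel
def p12_8_0_20 : pfC (piC [(nat_lit 43428061), (nat_lit 27333682), (nat_lit 20249535), (nat_lit 13586793)] (nat_lit 32441938)) p12_8_0 (nat_lit 4) (nat_lit 20) (nat_lit 21) = true := by decide +kernel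
def p12_8_0_21 : pfC (piC [(nat_lit 43428061), (nat_lit 27333682), (nat_lit 20249535), (nat_lit 13586793)] (nat_lit 32441938)) p12_8_0 (nat_lit 4) (nat_lit 21) (nat_lit 22) = true := by decide +kernel
def p12_8_0_22 : pfC (piC [(nat_lit 43428061), (nat_lit 27333682), (nat_lit 20249535), (nat_lit 13586793)] (nat_lit 32441938)) p12_8_0 (nat_lit 4) (nat_lit 22) (nat_lit 23) = true := by decide +kernel
def p12_8_0_23 : pfC (piC [(nat_lit 43428061), (nat_lit 27333682), (nat_lit 20249535), (nat_lit 13586793)] (nat_lit 32441938)) p12_8_0 (nat_lit 4) (nat_lit 23) (nat_lit 24) = true := by decide +kernel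
def p12_8_0_24 : pfC (piC [(nat_lit 43428061), (nat_lit 27333682), (nat_lit 20249535), (nat_lit 13586793)] (nat_lit 32441938)) p12_8_0 (nat_lit 4) (nat_lit 24) (nat_lit 25) = true := by decide +kernel
def p12_8_0_25 : pfC (piC [(nat_lit 43428061), (nat_lit 27333682), (nat_lit 20249535), (nat_lit 13586793)] (nat_lit 32441938)) p12_8_0 (nat_lit 4) (nat_lit 25) (nat_lit 26) = true := by decide +kernel
def p12_8_0_26 : pfC (piC [(nat_lit 43428061), (nat_lit 27333682), (nat_lit 20249535), (nat_lit 13586793)] (nat_lit 32441938)) p12_8_0 (nat_lit 4) (nat_lit 26) (nat_lit 27) = true := by decide +kernel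
def p12_8_0_27 : pfC (piC [(nat_lit 43428061), (nat_lit 27333682), (nat_lit 20249535), (nat_lit 13586793)] (nat_lit 32441938)) p12_8_0 (nat_lit 4) (nat_lit 27) (nat_lit 28) = true := by decide +kernel
def p12_8_0_28 : pfC (piC [(nat_lit 43428061), (nat_lit 27333682), (nat_lit 20249535), (nat_lit 13586793)] (nat_lit 32441938)) p12_8_0 (nat_lit 4) (nat_lit 28) (nat_lit 29) = true := by decide +kernel
def p12_8_0_29 : pfC (piC [(nat_lit 43428061), (nat_lit 27333682), (nat_lit 20249535), (nat_lit 13586793)] (nat_lit 32441938)) p12_8_0 (nat_lit 4) (nat_lit 29) (nat_lit 30) = true := by decide +kernel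
def p12_8_0_30 : pfC (piC [(nat_lit 43428061), (nat_lit 27333682), (nat_lit 20249535), (nat_lit 13586793)] (nat_lit 32441938)) p12_8_0 (nat_lit 4) (nat_lit 30) (nat_lit 31) = true := by decide +kernel
def p12_8_0_31 : pfC (piC [(nat_lit 43428061), (nat_lit 27333682), (nat_lit 20249535), (nat_lit 13586793)] (nat_lit 32441938)) p12_8_0 (nat_lit 4) (nat_lit 31) (nat_lit 32) = true := by decide +kernel
def p12_8_0_32 : pfC (piC [(nat_lit 43428061), (nat_lit 27333682), (nat_lit 20249535), (nat_lit 13586793)] (nat_lit 32441938)) p12_8_0 (nat_lit 4) (nat_lit 32) (nat_lit 33) = true := by decide +kernel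
def p12_8_0_33 : pfC (piC [(nat_lit 43428061), (nat_lit 27333682), (nat_lit 20249535), (nat_lit 13586793)] (nat_lit 32441938)) p12_8_0 (nat_lit 4) (nat_lit 33) (nat_lit 34) = true := by decide +kernel
def p12_8_0_34 : pfC (piC [(nat_lit 43428061), (nat_lit 27333682), (nat_lit 20249535), (nat_lit 13586793)] (nat_lit 32441938)) p12_8_0 (nat_lit 4) (nat_lit 34) (nat_lit 35) = true := by decide +kernel
def p12_8_0_35 : pfC (piC [(nat_lit 43428061), (nat_lit 27333682), (nat_lit 20249535), (nat_lit 13586793)] (nat_lit 32441938)) p12_8_0 (nat_lit 4) (nat_lit 35) (nat_lit 36) = true := by decide +kernel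
def p12_8_0_36 : pfC (piC [(nat_lit 43428061), (nat_lit 27333682), (nat_lit 20249535), (nat_lit 13586793)] (nat_lit 32441938)) p12_8_0 (nat_lit 4) (nat_lit 36) (nat_lit 37) = true := by decide +kernel
def p12_8_0_37 : pfC (piC [(nat_lit 43428061), (nat_lit 27333682), (nat_lit 20249535), (nat_lit 13586793)] (nat_lit 32441938)) p12_8_0 (nat_lit 4) (nat_lit 37) (nat_lit 38) = true := by decide +kernel
def p12_8_0_38 : pfC (piC [(nat_lit 43428061), (nat_lit 27333682), (nat_lit 20249535), (nat_lit 13586793)] (nat_lit 32441938)) p12_8_0 (nat_lit 4) (nat_lit 38) (nat_lit 39) = true := by decide +kernel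
def p12_8_0_39 : pfC (piC [(nat_lit 43428061), (nat_lit 27333682), (nat_lit 20249535), (nat_lit 13586793)] (nat_lit 32441938)) p12_8_0 (nat_lit 4) (nat_lit 39) (nat_lit 40) = true := by decide +kernel
def p12_8_0_40 : pfC (piC [(nat_lit 43428061), (nat_lit 27333682), (nat_lit 20249535), (nat_lit 13586793)] (nat_lit 32441938)) p12_8_0 (nat_lit 4) (nat_lit 40) (nat_lit 41) = true := by decide +kernel
def p12_8_0_41 : pfC (piC [(nat_lit 43428061), (nat_lit 27333682), (nat_lit 20249535), (nat_lit 13586793)] (nat_lit 32441938)) p12_8_0 (nat_lit 4) (nat_lit 41) (nat_lit 42) = true := by decide +kernel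
def p12_8_0_42 : pfC (piC [(nat_lit 43428061), (nat_lit 27333682), (nat_lit 20249535), (nat_lit 13586793)] (nat_lit 32441938)) p12_8_0 (nat_lit 4) (nat_lit 42) (nat_lit 43) = true := by decide +kernel
def p12_8_0_43 : pfC (piC [(nat_lit 43428061), (nat_lit 27333682), (nat_lit 20249535), (nat_lit 13586793)] (nat_lit 32441938)) p12_8_0 (nat_lit 4) (nat_lit 43) (nat_lit 44) = true := by decide +kernel
def p12_8_0_44 : pfC (piC [(nat_lit 43428061), (nat_lit 27333682), (nat_lit 20249535), (nat_lit 13586793)] (nat_lit 32441938)) p12_8_0 (nat_lit 4) (nat_lit 44) (nat_lit 45) = true := by decide +kernel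
def p12_8_0_45 : pfC (piC [(nat_lit 43428061), (nat_lit 27333682), (nat_lit 20249535), (nat_lit 13586793)] (nat_lit 32441938)) p12_8_0 (nat_lit 4) (nat_lit 45) (nat_lit 46) = true := by decide +kernel
def p12_8_0_46 : pfC (piC [(nat_lit 43428061), (nat_lit 27333682), (nat_lit 20249535), (nat_lit 13586793)] (nat_lit 32441938)) p12_8_0 (nat_lit 4) (nat_lit 46) (nat_lit 47) = true := by decide +kernel
def p12_8_0_47 : pfC (piC [(nat_lit 43428061), (nat_lit 27333682), (nat_lit 20249535), (nat_lit 13586793)] (nat_lit 32441938)) p12_8_0 (nat_lit 4) (nat_lit 47) (nat_lit 48) = true := by decide +kernel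
def p12_8_0_48 : pfC (piC [(nat_lit 43428061), (nat_lit 27333682), (nat_lit 20249535), (nat_lit 13586793)] (nat_lit 32441938)) p12_8_0 (nat_lit 4) (nat_lit 48) (nat_lit 49) = true := by decide +kernel
def p12_8_0_49 : pfC (piC [(nat_lit 43428061), (nat_lit 27333682), (nat_lit 20249535), (nat_lit 13586793)] (nat_lit 32441938)) p12_8_0 (nat_lit 4) (nat_lit 49) (nat_lit 50) = true := by decide +kernel
def p12_8_0_50 : pfC (piC [(nat_lit 43428061), (nat_lit 27333682), (nat_lit 20249535), (nat_lit 13586793)] (nat_lit 32441938)) p12_8_0 (nat_lit 4) (nat_lit 50) (nat_lit 51) = true := by decide +kernel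
def p12_8_0_51 : pfC (piC [(nat_lit 43428061), (nat_lit 27333682), (nat_lit 20249535), (nat_lit 13586793)] (nat_lit 32441938)) p12_8_0 (nat_lit 4) (nat_lit 51) (nat_lit 52) = true := by decide +kernel
def p12_8_0_52 : pfC (piC [(nat_lit 43428061), (nat_lit 27333682), (nat_lit 20249535), (nat_lit 13586793)] (nat_lit 32441938)) p12_8_0 (nat_lit 4) (nat_lit 52) (nat_lit 53) = true := by decide +kernel
def p12_8_0_53 : pfC (piC [(nat_lit 43428061), (nat_lit 27333682), (nat_lit 20249535), (nat_lit 13586793)] (nat_lit 32441938)) p12_8_0 (nat_lit 4) (nat_lit 53) (nat_lit 54) = true := by decide +kernel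
def p12_8_0_54 : pfC (piC [(nat_lit 43428061), (nat_lit 27333682), (nat_lit 20249535), (nat_lit 13586793)] (nat_lit 32441938)) p12_8_0 (nat_lit 4) (nat_lit 54) (nat_lit 55) = true := by decide +kernel
def p12_8_0_55 : pfC (piC [(nat_lit 43428061), (nat_lit 27333682), (nat_lit 20249535), (nat_lit 13586793)] (nat_lit 32441938)) p12_8_0 (nat_lit 4) (nat_lit 55) (nat_lit 56) = true := by decide +kernel
def p12_8_0_56 : pfC (piC [(nat_lit 43428061), (nat_lit 27333682), (nat_lit 20249535), (nat_lit 13586793)] (nat_lit 32441938)) p12_8_0 (nat_lit 4) (nat_lit 56) (nat_lit 57) = true := by decide +kernel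
def p12_8_0_57 : pfC (piC [(nat_lit 43428061), (nat_lit 27333682), (nat_lit 20249535), (nat_lit 13586793)] (nat_lit 32441938)) p12_8_0 (nat_lit 4) (nat_lit 57) (nat_lit 58) = true := by decide +kernel
def p12_8_0_58 : pfC (piC [(nat_lit 43428061), (nat_lit 27333682), (nat_lit 20249535), (nat_lit 13586793)] (nat_lit 32441938)) p12_8_0 (nat_lit 4) (nat_lit 58) (nat_lit 59) = true := by decide +kernel
def p12_8_0_59 : pfC (piC [(nat_lit 43428061), (nat_lit 27333682), (nat_lit 20249535), (nat_lit 13586793)] (nat_lit 32441938)) p12_8_0 (nat_lit 4) (nat_lit 59) (nat_lit 60) = true := by decide +kernel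
def p12_8_0_60 : pfC (piC [(nat_lit 43428061), (nat_lit 27333682), (nat_lit 20249535), (nat_lit 13586793)] (nat_lit 32441938)) p12_8_0 (nat_lit 4) (nat_lit 60) (nat_lit 61) = true := by decide +kernel
def p12_8_0_61 : pfC (piC [(nat_lit 43428061), (nat_lit 27333682), (nat_lit 20249535), (nat_lit 13586793)] (nat_lit 32441938)) p12_8_0 (nat_lit 4) (nat_lit 61) (nat_lit 62) = true := by decide +kernel
def p12_8_0_62 : pfC (piC [(nat_lit 43428061), (nat_lit 27333682), (nat_lit 20249535), (nat_lit 13586793)] (nat_lit 32441938)) p12_8_0 (nat_lit 4) (nat_lit 62) (nat_lit 63) = true := by decide +kernel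
def p12_8_0_63 : pfC (piC [(nat_lit 43428061), (nat_lit 27333682), (nat_lit 20249535), (nat_lit 13586793)] (nat_lit 32441938)) p12_8_0 (nat_lit 4) (nat_lit 63) (nat_lit 64) = true := by decide +kernel
def p12_8_0_64 : pfC (piC [(nat_lit 43428061), (nat_lit 27333682), (nat_lit 20249535), (nat_lit 13586793)] (nat_lit 32441938)) p12_8_0 (nat_lit 4) (nat_lit 64) (nat_lit 65) = true := by decide +kernel
def p12_8_0_65 : pfC (piC [(nat_lit 43428061), (nat_lit 27333682), (nat_lit 20249535), (nat_lit 13586793)] (nat_lit 32441938)) p12_8_0 (nat_lit 4) (nat_lit 65) (nat_lit 66) = true := by decide +kernel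
def p12_8_0_66 : pfC (piC [(nat_lit 43428061), (nat_lit 27333682), (nat_lit 20249535), (nat_lit 13586793)] (nat_lit 32441938)) p12_8_0 (nat_lit 4) (nat_lit 66) (nat_lit 67) = true := by decide +kernel
def p12_8_0_67 : pfC (piC [(nat_lit 43428061), (nat_lit 27333682), (nat_lit 20249535), (nat_lit 13586793)] (nat_lit 32441938)) p12_8_0 (nat_lit 4) (nat_lit 67) (nat_lit 68) = true := by decide +kernel
def p12_8_0_68 : pfC (piC [(nat_lit 43428061), (nat_lit 27333682), (nat_lit 20249535), (nat_lit 13586793)] (nat_lit 32441938)) p12_8_0 (nat_lit 4) (nat_lit 68) (nat_lit 69) = true := by decide +kernel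
def p12_8_0_69 : pfC (piC [(nat_lit 43428061), (nat_lit 27333682), (nat_lit 20249535), (nat_lit 13586793)] (nat_lit 32441938)) p12_8_0 (nat_lit 4) (nat_lit 69) (nat_lit 70) = true := by decide +kernel
def p12_8_0_70 : pfC (piC [(nat_lit 43428061), (nat_lit 27333682), (nat_lit 20249535), (nat_lit 13586793)] (nat_lit 32441938)) p12_8_0 (nat_lit 4) (nat_lit 70) (nat_lit 71) = true := by decide +kernel
def p12_8_0_71 : pfC (piC [(nat_lit 43428061), (nat_lit 27333682), (nat_lit 20249535), (nat_lit 13586793)] (nat_lit 32441938)) p12_8_0 (nat_lit 4) (nat_lit 71) (nat_lit 72) = true := by decide +kernel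
def p12_8_0_72 : pfC (piC [(nat_lit 43428061), (nat_lit 27333682), (nat_lit 20249535), (nat_lit 13586793)] (nat_lit 32441938)) p12_8_0 (nat_lit 4) (nat_lit 72) (nat_lit 73) = true := by decide +kernel
def p12_8_0_73 : pfC (piC [(nat_lit 43428061), (nat_lit 27333682), (nat_lit 20249535), (nat_lit 13586793)] (nat_lit 32441938)) p12_8_0 (nat_lit 4) (nat_lit 73) (nat_lit 74) = true := by decide +kernel
def p12_8_0_74 : pfC (piC [(nat_lit 43428061), (nat_lit 27333682), (nat_lit 20249535), (nat_lit 13586793)] (nat_lit 32441938)) p12_8_0 (nat_lit 4) (nat_lit 74) (nat_lit 75) = true := by decide +kernel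
def p12_8_0_75 : pfC (piC [(nat_lit 43428061), (nat_lit 27333682), (nat_lit 20249535), (nat_lit 13586793)] (nat_lit 32441938)) p12_8_0 (nat_lit 4) (nat_lit 75) (nat_lit 76) = true := by decide +kernel
def p12_8_0_76 : pfC (piC [(nat_lit 43428061), (nat_lit 27333682), (nat_lit 20249535), (nat_lit 13586793)] (nat_lit 32441938)) p12_8_0 (nat_lit 4) (nat_lit 76) (nat_lit 77) = true := by decide +kernel
def p12_8_0_77 : pfC (piC [(nat_lit 43428061), (nat_lit 27333682), (nat_lit 20249535), (nat_lit 13586793)] (nat_lit 32441938)) p12_8_0 (nat_lit 4) (nat_lit 77) (nat_lit 78) = true := by decide +kernel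
def p12_8_0_78 : pfC (piC [(nat_lit 43428061), (nat_lit 27333682), (nat_lit 20249535), (nat_lit 13586793)] (nat_lit 32441938)) p12_8_0 (nat_lit 4) (nat_lit 78) (nat_lit 79) = true := by decide +kernel
def p12_8_0_79 : pfC (piC [(nat_lit 43428061), (nat_lit 27333682), (nat_lit 20249535), (nat_lit 13586793)] (nat_lit 32441938)) p12_8_0 (nat_lit 4) (nat_lit 79) (nat_lit 80) = true := by decide +kernel
def p12_8_0_80 : pfC (piC [(nat_lit 43428061), (nat_lit 27333682), (nat_lit 20249535), (nat_lit 13586793)] (nat_lit 32441938)) p12_8_0 (nat_lit 4) (nat_lit 80) (nat_lit 81) = true := by decide +kernel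
def p12_8_0_81 : pfC (piC [(nat_lit 43428061), (nat_lit 27333682), (nat_lit 20249535), (nat_lit 13586793)] (nat_lit 32441938)) p12_8_0 (nat_lit 4) (nat_lit 81) (nat_lit 82) = true := by decide +kernel
def p12_8_0_82 : pfC (piC [(nat_lit 43428061), (nat_lit 27333682), (nat_lit 20249535), (nat_lit 13586793)] (nat_lit 32441938)) p12_8_0 (nat_lit 4) (nat_lit 82) (nat_lit 83) = true := by decide +kernel
def p12_8_0_83 : pfC (piC [(nat_lit 43428061), (nat_lit 27333682), (nat_lit 20249535), (nat_lit 13586793)] (nat_lit 32441938)) p12_8_0 (nat_lit 4) (nat_lit 83) (nat_lit 84) = true := by decide +kernel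
def p12_8_0_84 : pfC (piC [(nat_lit 43428061), (nat_lit 27333682), (nat_lit 20249535), (nat_lit 13586793)] (nat_lit 32441938)) p12_8_0 (nat_lit 4) (nat_lit 84) (nat_lit 85) = true := by decide +kernel
def p12_8_0_85 : pfC (piC [(nat_lit 43428061), (nat_lit 27333682), (nat_lit 20249535), (nat_lit 13586793)] (nat_lit 32441938)) p12_8_0 (nat_lit 4) (nat_lit 85) (nat_lit 86) = true := by decide +kernel
def p12_8_0_86 : pfC (piC [(nat_lit 43428061), (nat_lit 27333682), (nat_lit 20249535), (nat_lit 13586793)] (nat_lit 32441938)) p12_8_0 (nat_lit 4) (nat_lit 86) (nat_lit 87) = true := by decide +kernel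
def p12_8_0_87 : pfC (piC [(nat_lit 43428061), (nat_lit 27333682), (nat_lit 20249535), (nat_lit 13586793)] (nat_lit 32441938)) p12_8_0 (nat_lit 4) (nat_lit 87) (nat_lit 88) = true := by decide +kernel
def p12_8_0_88 : pfC (piC [(nat_lit 43428061), (nat_lit 27333682), (nat_lit 20249535), (nat_lit 13586793)] (nat_lit 32441938)) p12_8_0 (nat_lit 4) (nat_lit 88) (nat_lit 89) = true := by decide +kernel
def p12_8_0_89 : pfC (piC [(nat_lit 43428061), (nat_lit 27333682), (nat_lit 20249535), (nat_lit 13586793)] (nat_lit 32441938)) p12_8_0 (nat_lit 4) (nat_lit 89) (nat_lit 90) = true := by decide +kernel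
def p12_8_0_90 : pfC (piC [(nat_lit 43428061), (nat_lit 27333682), (nat_lit 20249535), (nat_lit 13586793)] (nat_lit 32441938)) p12_8_0 (nat_lit 4) (nat_lit 90) (nat_lit 91) = true := by decide +kernel
def p12_8_0_91 : pfC (piC [(nat_lit 43428061), (nat_lit 27333682), (nat_lit 20249535), (nat_lit 13586793)] (nat_lit 32441938)) p12_8_0 (nat_lit 4) (nat_lit 91) (nat_lit 92) = true := by decide +kernel
def p12_8_0_92 : pfC (piC [(nat_lit 43428061), (nat_lit 27333682), (nat_lit 20249535), (nat_lit 13586793)] (nat_lit 32441938)) p12_8_0 (nat_lit 4) (nat_lit 92) (nat_lit 93) = true := by decide +kernel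
def p12_8_0_93 : pfC (piC [(nat_lit 43428061), (nat_lit 27333682), (nat_lit 20249535), (nat_lit 13586793)] (nat_lit 32441938)) p12_8_0 (nat_lit 4) (nat_lit 93) (nat_lit 94) = true := by decide +kernel
def p12_8_0_94 : pfC (piC [(nat_lit 43428061), (nat_lit 27333682), (nat_lit 20249535), (nat_lit 13586793)] (nat_lit 32441938)) p12_8_0 (nat_lit 4) (nat_lit 94) (nat_lit 95) = true := by decide +kernel
def p12_8_0_95 : pfC (piC [(nat_lit 43428061), (nat_lit 27333682), (nat_lit 20249535), (nat_lit 13586793)] (nat_lit 32441938)) p12_8_0 (nat_lit 4) (nat_lit 95) (nat_lit 96) = true := by decide +kernel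
def p12_8_0_96 : pfC (piC [(nat_lit 43428061), (nat_lit 27333682), (nat_lit 20249535), (nat_lit 13586793)] (nat_lit 32441938)) p12_8_0 (nat_lit 4) (nat_lit 96) (nat_lit 97) = true := by decide +kernel
def p12_8_0_97 : pfC (piC [(nat_lit 43428061), (nat_lit 27333682), (nat_lit 20249535), (nat_lit 13586793)] (nat_lit 32441938)) p12_8_0 (nat_lit 4) (nat_lit 97) (nat_lit 98) = true := by decide +kernel
def p12_8_0_98 : pfC (piC [(nat_lit 43428061), (nat_lit 27333682), (nat_lit 20249535), (nat_lit 13586793)] (nat_lit 32441938)) p12_8_0 (nat_lit 4) (nat_lit 98) (nat_lit 99) = true := by decide +kernel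
def p12_8_0_99 : pfC (piC [(nat_lit 43428061), (nat_lit 27333682), (nat_lit 20249535), (nat_lit 13586793)] (nat_lit 32441938)) p12_8_0 (nat_lit 4) (nat_lit 99) (nat_lit 100) = true := by decide +kernel
def p12_8_0_100 : pfC (piC [(nat_lit 43428061), (nat_lit 27333682), (nat_lit 20249535), (nat_lit 13586793)] (nat_lit 32441938)) p12_8_0 (nat_lit 4) (nat_lit 100) (nat_lit 101) = true := by decide +kernel
def p12_8_0_101 : pfC (piC [(nat_lit 43428061), (nat_lit 27333682), (nat_lit 20249535), (nat_lit 13586793)] (nat_lit 32441938)) p12_8_0 (nat_lit 4) (nat_lit 101) (nat_lit 102) = true := by decide +kernel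
theorem p12_8_0_T : PfS (PiF n12_8.reverse (nat_lit 32441938)) p12_8_0 (nat_lit 4) [] 0 :=
  pftab_of (los := [(nat_lit 43428061), (nat_lit 27333682), (nat_lit 20249535), (nat_lit 13586793)]) (by decide +kernel) (hi := (nat_lit 102)) (PfP.trans (PfP.trans (PfP.trans (PfP.trans (PfP.trans (PfP.trans (PfP.trans (PfP.trans (PfP.trans (PfP.trans (PfP.trans (PfP.trans (PfP.trans (PfP.trans (PfP.trans (PfP.trans (PfP.trans (PfP.trans (PfP.trans (PfP.trans (PfP.trans (PfP.trans (PfP.trans (PfP.trans (PfP.trans (PfP.trans (PfP.trans (PfP.trans (PfP.trans (PfP.trans (PfP.trans (PfP.trans (PfP.trans (PfP.trans (PfP.trans (PfP.trans (PfP.trans (PfP.trans (PfP.trans (PfP.trans (PfP.trans (PfP.trans (PfP.trans (PfP.trans (PfP.trans (PfP.trans (PfP.trans (PfP.trans (PfP.trans (PfP.trans (PfP.trans (PfP.trans (PfP.trans (PfP.trans (PfP.trans (PfP.trans (PfP.trans (PfP.trans (PfP.trans (PfP.trans (PfP.trans (PfP.trans (PfP.trans (PfP.trans (PfP.trans (PfP.trans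 (PfP.trans (PfP.trans (PfP.trans (PfP.trans (PfP.trans (PfP.trans (PfP.trans (PfP.trans (PfP.trans (PfP.trans (PfP.trans (PfP.trans (PfP.trans (PfP.trans (PfP.trans (PfP.trans (PfP.trans (PfP.trans (PfP.trans (PfP.trans (PfP.trans (PfP.trans (PfP.trans (PfP.trans (PfP.trans (PfP.trans (PfP.trans (PfP.trans (PfP.trans (PfP.trans (PfP.trans (PfP.trans (PfP.trans (PfP.trans (PfP.trans (pfC_sound p12_8_0_0) (pfC_sound p12_8_0_1)) (pfC_sound p12_8_0_2)) (pfC_sound
 p12_8_0_3)) (pfC_sound p12_8_0_4)) (pfC_sound p12_8_0_5)) (pfC_sound p12_8_0_6)) (pfC_sound p12_8_0_7)) (pfC_sound p12_8_0_8)) (pfC_sound p12_8_0_9)) (pfC_sound p12_8_0_10)) (pfC_sound p12_8_0_11)) (pfC_sound p12_8_0_12)) (pfC_sound p12_8_0_13)) (pfC_sound p12_8_0_14)) (pfC_sound p12_8_0_15)) (pfC_sound p12_8_0_16)) (pfC_sound p12_8_0_17)) (pfC_sound p12_8_0_18)) (pfC_sound p12_8_0_19)) (pfC_sound p12_8_0_20)) (pfC_sound p12_8_0_21)) (pfC_sound p12_8_0_22)) (pfC_sound p12_8_0_23)) (pfC_sound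 p12_8_0_24)) (pfC_sound p12_8_0_25)) (pfC_sound p12_8_0_26)) (pfC_sound p12_8_0_27)) (pfC_sound p12_8_0_28)) (pfC_sound p12_8_0_29)) (pfC_sound p12_8_0_30)) (pfC_sound p12_8_0_31)) (pfC_sound p12_8_0_32)) (pfC_sound p12_8_0_33)) (pfC_sound p12_8_0_34)) (pfC_sound p12_8_0_35)) (pfC_sound p12_8_0_36)) (pfC_sound p12_8_0_37)) (pfC_sound p12_8_0_38)) (pfC_sound p12_8_0_39)) (pfC_sound p12_8_0_40)) (pfC_sound p12_8_0_41)) (pfC_sound p12_8_0_42)) (pfC_sound p12_8_0_43)) (pfC_sound p12_8_0_44)) (pfC_sound p12_8_0_45)) (pfC_sound p12_8_0_46)) (pfC_sound p12_8_0_47)) (pfC_sound p12_8_0_48)) (pfC_sound p12_8_0_49)) (pfC_sound p12_8_0_50)) (pfC_sound p12_8_0_51)) (pfC_sound p12_8_0_52)) (pfC_sound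
 p12_8_0_53)) (pfC_sound p12_8_0_54)) (pfC_sound p12_8_0_55)) (pfC_sound p12_8_0_56)) (pfC_sound p12_8_0_57)) (pfC_sound p12_8_0_58)) (pfC_sound p12_8_0_59)) (pfC_sound p12_8_0_60)) (pfC_sound p12_8_0_61)) (pfC_sound p12_8_0_62)) (pfC_sound p12_8_0_63)) (pfC_sound p12_8_0_64)) (pfC_sound p12_8_0_65)) (pfC_sound p12_8_0_66)) (pfC_sound p12_8_0_67)) (pfC_sound p12_8_0_68)) (pfC_sound p12_8_0_69)) (pfC_sound p12_8_0_70)) (pfC_sound p12_8_0_71)) (pfC_sound p12_8_0_72)) (pfC_sound p12_8_0_73)) (pfC_sound p12_8_0_74)) (pfC_sound p12_8_0_75)) (pfC_sound p12_8_0_76)) (pfC_sound p12_8_0_77)) (pfC_sound p12_8_0_78)) (pfC_sound p12_8_0_79)) (pfC_sound p12_8_0_80)) (pfC_sound p12_8_0_81)) (pfC_sound p12_8_0_82)) (pfC_sound p12_8_0_83)) (pfC_sound p12_8_0_84)) (pfC_sound p12_8_0_85)) (pfC_sound p12_8_0_86)) (pfC_sound p12_8_0_87)) (pfC_sound p12_8_0_88)) (pfC_sound p12_8_0_89)) (pfC_sound p12_8_0_90)) (pfC_sound p12_8_0_91)) (pfC_sound p12_8_0_92)) (pfC_sound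 p12_8_0_93)) (pfC_sound p12_8_0_94)) (pfC_sound p12_8_0_95)) (pfC_sound p12_8_0_96)) (pfC_sound p12_8_0_97)) (pfC_sound p12_8_0_98)) (pfC_sound p12_8_0_99)) (pfC_sound p12_8_0_100)) (pfC_sound p12_8_0_101)) (by decide +kernel)

def z12_8_0 : zOK yB12_8 (nat_lit 0) (nat_lit 0) (nat_lit 400) (nat_lit 32441938) (nat_lit 10817553) = true := by decide +kernel
def g12_8_0 : gOK yB12_8.x P12_8 (nat_lit 1426) (q12_8 :: r12_8) (nat_lit 0) (nat_lit 0) (nat_lit 1) (nat_lit 400) (nat_lit 0) (nat_lit 11000000) (nat_lit 12712500) (nat_lit 12712500) [(nat_lit 800), (nat_lit 1400), (nat_lit 1530)] = true := by decide +kernel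
def v12_8_0 : ivC P12_8 s12_8 w12_8 n12_8 (nat_lit 4) (nat_lit 5500) (nat_lit 0) (nat_lit 0) f136_1_0 f144_1_0 (nat_lit 1) (nat_lit 400) f136_1_400 f144_1_400 (nat_lit 32441938) (nat_lit 10817553) p12_8_0 = true := by decide +kernel
def p12_8_1 : PF := (PF.cons (PF.cons (PF.cons (PF.cons (PF.leaf (nat_lit 2040180) (nat_lit 9509279) (nat_lit 57599533) (nat_lit 9509279) [(nat_lit 0), (nat_lit 0), (nat_lit 0), (nat_lit 0)]) (PF.cons (PF.leaf (nat_lit 2149322) (nat_lit 175552) (nat_lit 57407513) (nat_lit 9525746) [(nat_lit 175552), (nat_lit 0), (nat_lit 0), (nat_lit 0)]) (PF.cons (PF.leaf (nat_lit 2282039) (nat_lit 191322) (nat_lit 57181959) (nat_lit 9544208) [(nat_lit 191322), (nat_lit 0), (nat_lit 0), (nat_lit 0)]) (PF.cons (PF.leaf (nat_lit 2431554) (nat_lit 205483) (nat_lit 56928500) (nat_lit 9563862) [(nat_lit 205483), (nat_lit 0), (nat_lit 0), (nat_lit 0)]) (PF.cons (PF.leaf (nat_lit 2595640) (nat_lit 218416) (nat_lit 56651052) (nat_lit 9584095)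 [(nat_lit 218416), (nat_lit 0), (nat_lit 0), (nat_lit 0)]) (PF.cons (PF.leaf (nat_lit 2772991) (nat_lit 230361) (nat_lit 56352592) (nat_lit 9604414) [(nat_lit 230361), (nat_lit 0), (nat_lit 0), (nat_lit 0)]) (PF.cons PF.nil PF.nil))))))) (PF.cons (PF.cons (PF.leaf (nat_lit 2507775) (nat_lit 1008090) (nat_lit 56511624) (nat_lit 9589098) [(nat_lit 0), (nat_lit 1008090), (nat_lit 0), (nat_lit 0)]) (PF.cons (PF.leaf (nat_lit 2654991) (nat_lit 217372) (nat_lit 56253988) (nat_lit 9606080)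
 [(nat_lit 217372), (nat_lit 1031370), (nat_lit 0), (nat_lit 0)]) (PF.cons (PF.leaf (nat_lit 2820072) (nat_lit 229762) (nat_lit 55971024) (nat_lit 9623509) [(nat_lit 229762), (nat_lit 1054754), (nat_lit 0), (nat_lit 0)]) (PF.cons (PF.leaf (nat_lit 2998587) (nat_lit 241151) (nat_lit 55666645) (nat_lit 9640870) [(nat_lit 241151), (nat_lit 1077841), (nat_lit 0), (nat_lit 0)]) (PF.cons PF.nil PF.nil))))) (PF.cons (PF.cons (PF.leaf (nat_lit 3050804) (nat_lit 1092044) (nat_lit 55267946) (nat_lit 9656777) [(nat_lit 0), (nat_lit 1092044), (nat_lit 0), (nat_lit 0)]) (PF.cons (PF.leaf (nat_lit 3227398) (nat_lit 250613) (nat_lit 54961881) (nat_lit 9671014) [(nat_lit 250613), (nat_lit 1112651), (nat_lit 0), (nat_lit 0)]) (PF.cons (PF.leaf (nat_lit 3418084) (nat_lit 260808) (nat_lit 54636544) (nat_lit 9684703) [(nat_lit 260808), (nat_lit 1132974), (nat_lit 0), (nat_lit 0)]) (PF.cons PF.nil PF.nil)))) (PF.cons (PF.cons (PF.leaf (nat_lit 3650818) (nat_lit 1162636)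 (nat_lit 53915679) (nat_lit 9705223) [(nat_lit 0), (nat_lit 1162636), (nat_lit 0), (nat_lit 0)]) (PF.cons PF.nil PF.nil)) (PF.cons PF.nil PF.nil))))) (PF.cons (PF.cons (PF.cons (PF.leaf (nat_lit 3064858) (nat_lit 2867053) (nat_lit
 54581549) (nat_lit 9660209) [(nat_lit 0), (nat_lit 0), (nat_lit 2867053), (nat_lit 0)]) (PF.cons (PF.leaf (nat_lit 3222158) (nat_lit 237730) (nat_lit 54310560) (nat_lit 9670677) [(nat_lit 237730), (nat_lit 0), (nat_lit 2889844), (nat_lit 0)]) (PF.cons (PF.leaf (nat_lit 3396495) (nat_lit 249658) (nat_lit 54015156) (nat_lit 9680959) [(nat_lit 249658), (nat_lit 0), (nat_lit 2913379), (nat_lit 0)]) (PF.cons (PF.leaf (nat_lit 3583797) (nat_lit 260456) (nat_lit 53699627) (nat_lit 9690675) [(nat_lit 260456), (nat_lit 0), (nat_lit 2937139), (nat_lit 0)]) (PF.cons PF.nil PF.nil))))) (PF.cons (PF.cons (PF.leaf (nat_lit 3627947) (nat_lit 1154752) (nat_lit 53300674) (nat_lit 9696574) [(nat_lit 0), (nat_lit 1154752), (nat_lit 2956811),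 (nat_lit 0)]) (PF.cons (PF.leaf (nat_lit 3812159) (nat_lit 268123) (nat_lit 52986894) (nat_lit 9703403) [(nat_lit 268123), (nat_lit 1172467), (nat_lit 2977923), (nat_lit 0)]) (PF.cons PF.nil (PF.cons PF.nil PF.nil)))) (PF.cons (PF.cons (PF.leaf (nat_lit 4239817) (nat_lit 1213693) (nat_lit 51934797) (nat_lit 9713259) [(nat_lit 0), (nat_lit 1213693), (nat_lit 3033367), (nat_lit 0)]) (PF.cons PF.nil PF.nil)) PF.nil))) (PF.cons (PF.cons (PF.cons (PF.leaf (nat_lit
 4200061) (nat_lit 3031619) (nat_lit 51352369) (nat_lit 9693203) [(nat_lit 0), (nat_lit 0), (nat_lit 3031619), (nat_lit 0)]) (PF.cons (PF.leaf (nat_lit 4389715) (nat_lit 282473) (nat_lit 51036224) (nat_lit 9693383) [(nat_lit 282473), (nat_lit 0), (nat_lit 3048366), (nat_lit 0)]) (PF.cons PF.nil PF.nil))) (PF.cons (PF.cons (PF.leaf (nat_lit 4817859) (nat_lit 1253089) (nat_lit 49992915) (nat_lit 9682208) [(nat_lit 0), (nat_lit 1253089), (nat_lit 3090299), (nat_lit 0)]) PF.nil) PF.nil)) (PF.cons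 PF.nil (PF.cons PF.nil PF.nil))))) (PF.cons (PF.cons (PF.cons (PF.cons (PF.leaf (nat_lit 3988352) (nat_lit 7642349) (nat_lit 49909004) (nat_lit 9557458) [(nat_lit 0), (nat_lit 0), (nat_lit 0), (nat_lit 7642349)]) (PF.cons (PF.leaf (nat_lit 4147988) (nat_lit 251191) (nat_lit 49653433) (nat_lit 9556469) [(nat_lit 251191), (nat_lit 0), (nat_lit 0), (nat_lit 7647718)]) (PF.cons (PF.leaf (nat_lit 4323984) (nat_lit 262794) (nat_lit 49375941) (nat_lit 9554569) [(nat_lit 262794), (nat_lit 0), (nat_lit 0), (nat_lit 7652714)]) (PF.cons (PF.leaf (nat_lit 4512077) (nat_lit 273120) (nat_lit 49080723) (nat_lit 9551624) [(nat_lit 273120), (nat_lit 0), (nat_lit 0), (nat_lit 7657104)]) (PF.cons (PF.leaf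
 (nat_lit 4710568) (nat_lit 282439) (nat_lit 48770809) (nat_lit 9547530) [(nat_lit 282439), (nat_lit 0), (nat_lit 0), (nat_lit 7660714)]) (PF.cons PF.nil (PF.cons PF.nil PF.nil))))))) (PF.cons (PF.cons (PF.leaf (nat_lit 4544605) (nat_lit 1195240) (nat_lit 48714399) (nat_lit 9542573) [(nat_lit 0), (nat_lit 1195240), (nat_lit 0), (nat_lit 7656600)]) (PF.cons (PF.leaf (nat_lit 4728562) (nat_lit 279099) (nat_lit 48423094) (nat_lit 9537651) [(nat_lit 279099), (nat_lit 1210011), (nat_lit 0), (nat_lit 7658956)]) (PF.cons (PF.leaf (nat_lit 4924834) (nat_lit 288138) (nat_lit 48116184) (nat_lit 9531525) [(nat_lit 288138), (nat_lit 1224313), (nat_lit 0), (nat_lit 7660511)]) (PF.cons PF.nil (PF.cons PF.nil PF.nil))))) (PF.cons (PF.cons (PF.leaf (nat_lit 5140997) (nat_lit 1241730) (nat_lit 47457814) (nat_lit 9511237) [(nat_lit 0), (nat_lit 1241730), (nat_lit 0), (nat_lit 7656299)]) (PF.cons (PF.leaf (nat_lit 5342900) (nat_lit 300966) (nat_lit 47142795) (nat_lit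 9501953) [(nat_lit 300966), (nat_lit 1254049), (nat_lit 0), (nat_lit 7654997)]) (PF.cons PF.nil (PF.cons PF.nil PF.nil)))) (PF.cons (PF.cons (PF.leaf (nat_lit 5765182) (nat_lit 1278984) (nat_lit 46167399) (nat_lit 9463443) [(nat_lit 0),
 (nat_lit 1278984), (nat_lit 0), (nat_lit 7641016)]) (PF.cons PF.nil PF.nil)) (PF.cons PF.nil PF.nil))))) (PF.cons (PF.cons (PF.cons (PF.leaf (nat_lit 5080973) (nat_lit 3053940) (nat_lit 46945655) (nat_lit 9476502) [(nat_lit 0), (nat_lit 0), (nat_lit 3053940), (nat_lit 7632715)]) (PF.cons (PF.leaf (nat_lit 5268216) (nat_lit 289767) (nat_lit 46656402) (nat_lit 9466949) [(nat_lit 289767), (nat_lit 0), (nat_lit 3065043), (nat_lit 7630648)]) (PF.cons (PF.leaf (nat_lit 5467201) (nat_lit 298254) (nat_lit 46352717) (nat_lit 9456069) [(nat_lit 298254), (nat_lit 0), (nat_lit 3075864), (nat_lit 7627651)]) (PF.cons PF.nil PF.nil)))) (PF.cons (PF.cons (PF.leaf (nat_lit 5678064) (nat_lit 1266987) (nat_lit 45711026) (nat_lit 9426529)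 [(nat_lit 0), (nat_lit 1266987), (nat_lit 3089811), (nat_lit 7614457)]) (PF.cons (PF.leaf (nat_lit 5881570) (nat_lit 309450) (nat_lit 45401671) (nat_lit 9412786) [(nat_lit 309450), (nat_lit 1277385), (nat_lit 3098653), (nat_lit 7608865)]) PF.nil)) (PF.cons PF.nil PF.nil))) (PF.cons (PF.cons (PF.cons (PF.leaf (nat_lit 6200327) (nat_lit 3102556) (nat_lit 44028580) (nat_lit 9321965) [(nat_lit 0), (nat_lit 0), (nat_lit 3102556), (nat_lit 7553153)]) (PF.cons PF.nil
 PF.nil)) (PF.cons PF.nil PF.nil)) (PF.cons PF.nil (PF.cons PF.nil PF.nil))))) (PF.cons (PF.cons (PF.cons (PF.cons (PF.leaf (nat_lit 5872684) (nat_lit 7434659) (nat_lit 43059216) (nat_lit 9180277) [(nat_lit 0), (nat_lit 0), (nat_lit 0), (nat_lit 7434659)]) (PF.cons (PF.leaf (nat_lit 6055854) (nat_lit 292174) (nat_lit 42798050) (nat_lit 9164918) [(nat_lit 292174), (nat_lit 0), (nat_lit 0), (nat_lit 7426834)]) (PF.cons (PF.leaf (nat_lit 6250072) (nat_lit 300145) (nat_lit 42524345) (nat_lit 9148174)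 [(nat_lit 300145), (nat_lit 0), (nat_lit 0), (nat_lit 7418001)]) (PF.cons PF.nil PF.nil)))) (PF.cons (PF.cons (PF.leaf (nat_lit 6446935) (nat_lit 1262834) (nat_lit 41950805) (nat_lit 9107666) [(nat_lit 0), (nat_lit 1262834), (nat_lit 0), (nat_lit 7393753)]) (PF.cons (PF.leaf (nat_lit 6644602) (nat_lit 309790) (nat_lit 41673269) (nat_lit 9088695) [(nat_lit 309790), (nat_lit 1271292), (nat_lit 0), (nat_lit 7382882)]) PF.nil)) (PF.cons PF.nil PF.nil))) (PF.cons (PF.cons (PF.cons (PF.leaf (nat_lit 6931677) (nat_lit 3047140) (nat_lit 40460543) (nat_lit 8981374) [(nat_lit 0), (nat_lit 0), (nat_lit 3047140), (nat_lit 7309876)]) (PF.cons PF.nil PF.nil)) (PF.cons PF.nil PF.nil)) (PF.cons PF.nil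
 PF.nil))) (PF.cons (PF.cons (PF.cons (PF.cons (PF.leaf (nat_lit 7590909) (nat_lit 7047113) (nat_lit 37341401) (nat_lit 8626072) [(nat_lit 0), (nat_lit 0), (nat_lit 0), (nat_lit 7047113)]) (PF.cons PF.nil PF.nil)) (PF.cons PF.nil PF.nil)) (PF.cons PF.nil PF.nil)) (PF.cons PF.nil (PF.cons PF.nil (PF.cons PF.nil (PF.cons PF.nil PF.nil))))))))

def p12_8_1_0 : pfC (piC [(nat_lit 43428061), (nat_lit 27333682), (nat_lit 20249535), (nat_lit 13586793)] (nat_lit 10817553)) p12_8_1 (nat_lit 4) (nat_lit 0) (nat_lit 1) = true := by decide +kernel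
def p12_8_1_1 : pfC (piC [(nat_lit 43428061), (nat_lit 27333682), (nat_lit 20249535), (nat_lit 13586793)] (nat_lit 10817553)) p12_8_1 (nat_lit 4) (nat_lit 1) (nat_lit 2) = true := by decide +kernel
def p12_8_1_2 : pfC (piC [(nat_lit 43428061), (nat_lit 27333682), (nat_lit 20249535), (nat_lit 13586793)] (nat_lit 10817553)) p12_8_1 (nat_lit 4) (nat_lit 2) (nat_lit 3) = true := by decide +kernel
def p12_8_1_3 : pfC (piC [(nat_lit 43428061), (nat_lit 27333682), (nat_lit 20249535), (nat_lit 13586793)] (nat_lit 10817553)) p12_8_1 (nat_lit 4) (nat_lit 3) (nat_lit 4) = true := by decide +kernel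
def p12_8_1_4 : pfC (piC [(nat_lit 43428061), (nat_lit 27333682), (nat_lit 20249535), (nat_lit 13586793)] (nat_lit 10817553)) p12_8_1 (nat_lit 4) (nat_lit 4) (nat_lit 5) = true := by decide +kernel
def p12_8_1_5 : pfC (piC [(nat_lit 43428061), (nat_lit 27333682), (nat_lit 20249535), (nat_lit 13586793)] (nat_lit 10817553)) p12_8_1 (nat_lit 4) (nat_lit 5) (nat_lit 6) = true := by decide +kernel
def p12_8_1_6 : pfC (piC [(nat_lit 43428061), (nat_lit 27333682), (nat_lit 20249535), (nat_lit 13586793)] (nat_lit 10817553)) p12_8_1 (nat_lit 4) (nat_lit 6) (nat_lit 7) = true := by decide +kernel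
def p12_8_1_7 : pfC (piC [(nat_lit 43428061), (nat_lit 27333682), (nat_lit 20249535), (nat_lit 13586793)] (nat_lit 10817553)) p12_8_1 (nat_lit 4) (nat_lit 7) (nat_lit 8) = true := by decide +kernel
def p12_8_1_8 : pfC (piC [(nat_lit 43428061), (nat_lit 27333682), (nat_lit 20249535), (nat_lit 13586793)] (nat_lit 10817553)) p12_8_1 (nat_lit 4) (nat_lit 8) (nat_lit 9) = true := by decide +kernel
def p12_8_1_9 : pfC (piC [(nat_lit 43428061), (nat_lit 27333682), (nat_lit 20249535), (nat_lit 13586793)] (nat_lit 10817553)) p12_8_1 (nat_lit 4) (nat_lit 9) (nat_lit 10) = true := by decide +kernel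
def p12_8_1_10 : pfC (piC [(nat_lit 43428061), (nat_lit 27333682), (nat_lit 20249535), (nat_lit 13586793)] (nat_lit 10817553)) p12_8_1 (nat_lit 4) (nat_lit 10) (nat_lit 11) = true := by decide +kernel
def p12_8_1_11 : pfC (piC [(nat_lit 43428061), (nat_lit 27333682), (nat_lit 20249535), (nat_lit 13586793)] (nat_lit 10817553)) p12_8_1 (nat_lit 4) (nat_lit 11) (nat_lit 12) = true := by decide +kernel
def p12_8_1_12 : pfC (piC [(nat_lit 43428061), (nat_lit 27333682), (nat_lit 20249535), (nat_lit 13586793)] (nat_lit 10817553)) p12_8_1 (nat_lit 4) (nat_lit 12) (nat_lit 13) = true := by decide +kernel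
def p12_8_1_13 : pfC (piC [(nat_lit 43428061), (nat_lit 27333682), (nat_lit 20249535), (nat_lit 13586793)] (nat_lit 10817553)) p12_8_1 (nat_lit 4) (nat_lit 13) (nat_lit 14) = true := by decide +kernel
def p12_8_1_14 : pfC (piC [(nat_lit 43428061), (nat_lit 27333682), (nat_lit 20249535), (nat_lit 13586793)] (nat_lit 10817553)) p12_8_1 (nat_lit 4) (nat_lit 14) (nat_lit 15) = true := by decide +kernel
def p12_8_1_15 : pfC (piC [(nat_lit 43428061), (nat_lit 27333682), (nat_lit 20249535), (nat_lit 13586793)] (nat_lit 10817553)) p12_8_1 (nat_lit 4) (nat_lit 15) (nat_lit 16) = true := by decide +kernel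
def p12_8_1_16 : pfC (piC [(nat_lit 43428061), (nat_lit 27333682), (nat_lit 20249535), (nat_lit 13586793)] (nat_lit 10817553)) p12_8_1 (nat_lit 4) (nat_lit 16) (nat_lit 17) = true := by decide +kernel
def p12_8_1_17 : pfC (piC [(nat_lit 43428061), (nat_lit 27333682), (nat_lit 20249535), (nat_lit 13586793)] (nat_lit 10817553)) p12_8_1 (nat_lit 4) (nat_lit 17) (nat_lit 18) = true := by decide +kernel
def p12_8_1_18 : pfC (piC [(nat_lit 43428061), (nat_lit 27333682), (nat_lit 20249535), (nat_lit 13586793)] (nat_lit 10817553)) p12_8_1 (nat_lit 4) (nat_lit 18) (nat_lit 19) = true := by decide +kernel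
def p12_8_1_19 : pfC (piC [(nat_lit 43428061), (nat_lit 27333682), (nat_lit 20249535), (nat_lit 13586793)] (nat_lit 10817553)) p12_8_1 (nat_lit 4) (nat_lit 19) (nat_lit 20) = true := by decide +kernel
def p12_8_1_20 : pfC (piC [(nat_lit 43428061), (nat_lit 27333682), (nat_lit 20249535), (nat_lit 13586793)] (nat_lit 10817553)) p12_8_1 (nat_lit 4) (nat_lit 20) (nat_lit 21) = true := by decide +kernel
def p12_8_1_21 : pfC (piC [(nat_lit 43428061), (nat_lit 27333682), (nat_lit 20249535), (nat_lit 13586793)] (nat_lit 10817553)) p12_8_1 (nat_lit 4) (nat_lit 21) (nat_lit 22) = true := by decide +kernel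
def p12_8_1_22 : pfC (piC [(nat_lit 43428061), (nat_lit 27333682), (nat_lit 20249535), (nat_lit 13586793)] (nat_lit 10817553)) p12_8_1 (nat_lit 4) (nat_lit 22) (nat_lit 23) = true := by decide +kernel
def p12_8_1_23 : pfC (piC [(nat_lit 43428061), (nat_lit 27333682), (nat_lit 20249535), (nat_lit 13586793)] (nat_lit 10817553)) p12_8_1 (nat_lit 4) (nat_lit 23) (nat_lit 24) = true := by decide +kernel
def p12_8_1_24 : pfC (piC [(nat_lit 43428061), (nat_lit 27333682), (nat_lit 20249535), (nat_lit 13586793)] (nat_lit 10817553)) p12_8_1 (nat_lit 4) (nat_lit 24) (nat_lit 25) = true := by decide +kernel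
def p12_8_1_25 : pfC (piC [(nat_lit 43428061), (nat_lit 27333682), (nat_lit 20249535), (nat_lit 13586793)] (nat_lit 10817553)) p12_8_1 (nat_lit 4) (nat_lit 25) (nat_lit 26) = true := by decide +kernel
def p12_8_1_26 : pfC (piC [(nat_lit 43428061), (nat_lit 27333682), (nat_lit 20249535), (nat_lit 13586793)] (nat_lit 10817553)) p12_8_1 (nat_lit 4) (nat_lit 26) (nat_lit 27) = true := by decide +kernel
def p12_8_1_27 : pfC (piC [(nat_lit 43428061), (nat_lit 27333682), (nat_lit 20249535), (nat_lit 13586793)] (nat_lit 10817553)) p12_8_1 (nat_lit 4) (nat_lit 27) (nat_lit 28) = true := by decide +kernel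
def p12_8_1_28 : pfC (piC [(nat_lit 43428061), (nat_lit 27333682), (nat_lit 20249535), (nat_lit 13586793)] (nat_lit 10817553)) p12_8_1 (nat_lit 4) (nat_lit 28) (nat_lit 29) = true := by decide +kernel
def p12_8_1_29 : pfC (piC [(nat_lit 43428061), (nat_lit 27333682), (nat_lit 20249535), (nat_lit 13586793)] (nat_lit 10817553)) p12_8_1 (nat_lit 4) (nat_lit 29) (nat_lit 30) = true := by decide +kernel
def p12_8_1_30 : pfC (piC [(nat_lit 43428061), (nat_lit 27333682), (nat_lit 20249535), (nat_lit 13586793)] (nat_lit 10817553)) p12_8_1 (nat_lit 4) (nat_lit 30) (nat_lit 31) = true := by decide +kernel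
def p12_8_1_31 : pfC (piC [(nat_lit 43428061), (nat_lit 27333682), (nat_lit 20249535), (nat_lit 13586793)] (nat_lit 10817553)) p12_8_1 (nat_lit 4) (nat_lit 31) (nat_lit 32) = true := by decide +kernel
def p12_8_1_32 : pfC (piC [(nat_lit 43428061), (nat_lit 27333682), (nat_lit 20249535), (nat_lit 13586793)] (nat_lit 10817553)) p12_8_1 (nat_lit 4) (nat_lit 32) (nat_lit 33) = true := by decide +kernel
def p12_8_1_33 : pfC (piC [(nat_lit 43428061), (nat_lit 27333682), (nat_lit 20249535), (nat_lit 13586793)] (nat_lit 10817553)) p12_8_1 (nat_lit 4) (nat_lit 33) (nat_lit 34) = true := by decide +kernel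
def p12_8_1_34 : pfC (piC [(nat_lit 43428061), (nat_lit 27333682), (nat_lit 20249535), (nat_lit 13586793)] (nat_lit 10817553)) p12_8_1 (nat_lit 4) (nat_lit 34) (nat_lit 35) = true := by decide +kernel
def p12_8_1_35 : pfC (piC [(nat_lit 43428061), (nat_lit 27333682), (nat_lit 20249535), (nat_lit 13586793)] (nat_lit 10817553)) p12_8_1 (nat_lit 4) (nat_lit 35) (nat_lit 36) = true := by decide +kernel
def p12_8_1_36 : pfC (piC [(nat_lit 43428061), (nat_lit 27333682), (nat_lit 20249535), (nat_lit 13586793)] (nat_lit 10817553)) p12_8_1 (nat_lit 4) (nat_lit 36) (nat_lit 37) = true := by decide +kernel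
def p12_8_1_37 : pfC (piC [(nat_lit 43428061), (nat_lit 27333682), (nat_lit 20249535), (nat_lit 13586793)] (nat_lit 10817553)) p12_8_1 (nat_lit 4) (nat_lit 37) (nat_lit 38) = true := by decide +kernel
def p12_8_1_38 : pfC (piC [(nat_lit 43428061), (nat_lit 27333682), (nat_lit 20249535), (nat_lit 13586793)] (nat_lit 10817553)) p12_8_1 (nat_lit 4) (nat_lit 38) (nat_lit 39) = true := by decide +kernel
def p12_8_1_39 : pfC (piC [(nat_lit 43428061), (nat_lit 27333682), (nat_lit 20249535), (nat_lit 13586793)] (nat_lit 10817553)) p12_8_1 (nat_lit 4) (nat_lit 39) (nat_lit 40) = true := by decide +kernel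
def p12_8_1_40 : pfC (piC [(nat_lit 43428061), (nat_lit 27333682), (nat_lit 20249535), (nat_lit 13586793)] (nat_lit 10817553)) p12_8_1 (nat_lit 4) (nat_lit 40) (nat_lit 41) = true := by decide +kernel
def p12_8_1_41 : pfC (piC [(nat_lit 43428061), (nat_lit 27333682), (nat_lit 20249535), (nat_lit 13586793)] (nat_lit 10817553)) p12_8_1 (nat_lit 4) (nat_lit 41) (nat_lit 42) = true := by decide +kernel
def p12_8_1_42 : pfC (piC [(nat_lit 43428061), (nat_lit 27333682), (nat_lit 20249535), (nat_lit 13586793)] (nat_lit 10817553)) p12_8_1 (nat_lit 4) (nat_lit 42) (nat_lit 43) = true := by decide +kernel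
def p12_8_1_43 : pfC (piC [(nat_lit 43428061), (nat_lit 27333682), (nat_lit 20249535), (nat_lit 13586793)] (nat_lit 10817553)) p12_8_1 (nat_lit 4) (nat_lit 43) (nat_lit 44) = true := by decide +kernel
def p12_8_1_44 : pfC (piC [(nat_lit 43428061), (nat_lit 27333682), (nat_lit 20249535), (nat_lit 13586793)] (nat_lit 10817553)) p12_8_1 (nat_lit 4) (nat_lit 44) (nat_lit 45) = true := by decide +kernel
def p12_8_1_45 : pfC (piC [(nat_lit 43428061), (nat_lit 27333682), (nat_lit 20249535), (nat_lit 13586793)] (nat_lit 10817553)) p12_8_1 (nat_lit 4) (nat_lit 45) (nat_lit 46) = true := by decide +kernel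
def p12_8_1_46 : pfC (piC [(nat_lit 43428061), (nat_lit 27333682), (nat_lit 20249535), (nat_lit 13586793)] (nat_lit 10817553)) p12_8_1 (nat_lit 4) (nat_lit 46) (nat_lit 47) = true := by decide +kernel
def p12_8_1_47 : pfC (piC [(nat_lit 43428061), (nat_lit 27333682), (nat_lit 20249535), (nat_lit 13586793)] (nat_lit 10817553)) p12_8_1 (nat_lit 4) (nat_lit 47) (nat_lit 48) = true := by decide +kernel
theorem p12_8_1_T : PfS (PiF n12_8.reverse (nat_lit 10817553)) p12_8_1 (nat_lit 4) [] 0 :=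
  pftab_of (los := [(nat_lit 43428061), (nat_lit 27333682), (nat_lit 20249535), (nat_lit 13586793)]) (by decide +kernel) (hi := (nat_lit 48)) (PfP.trans (PfP.trans (PfP.trans (PfP.trans (PfP.trans (PfP.trans (PfP.trans (PfP.trans (PfP.trans (PfP.trans (PfP.trans (PfP.trans (PfP.trans (PfP.trans (PfP.trans (PfP.trans (PfP.trans (PfP.trans (PfP.trans (PfP.trans (PfP.trans (PfP.trans (PfP.trans (PfP.trans (PfP.trans (PfP.trans (PfP.trans (PfP.trans (PfP.trans (PfP.trans (PfP.trans (PfP.trans (PfP.trans (PfP.trans (PfP.trans (PfP.trans (PfP.trans (PfP.trans (PfP.trans (PfP.trans (PfP.trans (PfP.trans (PfP.trans (PfP.trans (PfP.trans (PfP.trans (PfP.trans (pfC_sound p12_8_1_0) (pfC_sound p12_8_1_1)) (pfC_sound p12_8_1_2)) (pfC_sound p12_8_1_3)) (pfC_sound p12_8_1_4)) (pfC_sound p12_8_1_5)) (pfC_sound p12_8_1_6)) (pfC_sound p12_8_1_7)) (pfC_sound p12_8_1_8)) (pfC_sound p12_8_1_9)) (pfC_sound p12_8_1_10)) (pfC_sound p12_8_1_11)) (pfC_sound p12_8_1_12))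 (pfC_sound p12_8_1_13)) (pfC_sound p12_8_1_14)) (pfC_sound p12_8_1_15)) (pfC_sound p12_8_1_16)) (pfC_sound p12_8_1_17)) (pfC_sound p12_8_1_18)) (pfC_sound p12_8_1_19)) (pfC_sound p12_8_1_20)) (pfC_sound p12_8_1_21)) (pfC_sound p12_8_1_22)) (pfC_sound p12_8_1_23)) (pfC_sound p12_8_1_24)) (pfC_sound p12_8_1_25)) (pfC_sound p12_8_1_26)) (pfC_sound p12_8_1_27)) (pfC_sound
 p12_8_1_28)) (pfC_sound p12_8_1_29)) (pfC_sound p12_8_1_30)) (pfC_sound p12_8_1_31)) (pfC_sound p12_8_1_32)) (pfC_sound p12_8_1_33)) (pfC_sound p12_8_1_34)) (pfC_sound p12_8_1_35)) (pfC_sound p12_8_1_36)) (pfC_sound p12_8_1_37)) (pfC_sound p12_8_1_38)) (pfC_sound p12_8_1_39)) (pfC_sound p12_8_1_40)) (pfC_sound p12_8_1_41)) (pfC_sound p12_8_1_42)) (pfC_sound p12_8_1_43)) (pfC_sound p12_8_1_44)) (pfC_sound p12_8_1_45)) (pfC_sound p12_8_1_46)) (pfC_sound p12_8_1_47)) (by decide +kernel)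

def z12_8_1 : zOK yB12_8 (nat_lit 1) (nat_lit 400) (nat_lit 600) (nat_lit 10817553) (nat_lit 7194913) = true := by decide +kernel
def g12_8_1 : gOK yB12_8.x P12_8 (nat_lit 1426) (q12_8 :: r12_8) (nat_lit 1) (nat_lit 400) (nat_lit 2) (nat_lit 600) (nat_lit 11000000) (nat_lit 17850000) (nat_lit 12712500) (nat_lit 12712500) [(nat_lit 800), (nat_lit 1040)] = true := by decide +kernel
def v12_8_1 : ivC P12_8 s12_8 w12_8 n12_8 (nat_lit 4) (nat_lit 5100) (nat_lit 1) (nat_lit 400) f136_1_400 f144_1_400 (nat_lit 2) (nat_lit 600) f136_1_600 f144_1_600 (nat_lit 10817553) (nat_lit 7194913) p12_8_1 = true := by decide +kernel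
def p12_8_2 : PF := (PF.cons (PF.cons (PF.cons (PF.cons (PF.leaf (nat_lit 2667363) (nat_lit 15116262) (nat_lit 51992550) (nat_lit 15116262) [(nat_lit 0), (nat_lit 0), (nat_lit 0), (nat_lit 0)]) (PF.cons (PF.leaf (nat_lit 2774849) (nat_lit 177553) (nat_lit 51822794) (nat_lit 15108464) [(nat_lit 177553), (nat_lit 0), (nat_lit 0), (nat_lit 0)]) (PF.cons (PF.leaf (nat_lit 2905337) (nat_lit 193192) (nat_lit 51623670) (nat_lit 15098758) [(nat_lit 193192), (nat_lit 0), (nat_lit 0), (nat_lit 0)]) (PF.cons (PF.leaf (nat_lit 3052004) (nat_lit 207131) (nat_lit 51400250) (nat_lit 15087166) [(nat_lit 207131), (nat_lit 0), (nat_lit 0), (nat_lit 0)]) (PF.cons (PF.leaf (nat_lit 3212550) (nat_lit 219766) (nat_lit 51156079) (nat_lit 15073666) [(nat_lit 219766), (nat_lit 0), (nat_lit 0), (nat_lit 0)]) (PF.cons (PF.leaf (nat_lit 3385675) (nat_lit 231348) (nat_lit 50893852) (nat_lit 15058220) [(nat_lit 231348), (nat_lit 0), (nat_lit 0), (nat_lit 0)]) (PF.cons PF.nil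 (PF.cons PF.nil (PF.cons PF.nil PF.nil))))))))) (PF.cons (PF.cons (PF.leaf (nat_lit 3120964) (nat_lit 1010334) (nat_lit 51034838) (nat_lit 15063639) [(nat_lit 0), (nat_lit 1010334), (nat_lit 0), (nat_lit 0)]) (PF.cons (PF.leaf (nat_lit 3264622) (nat_lit
 218155) (nat_lit 50808641) (nat_lit 15049933) [(nat_lit 218155), (nat_lit 1032082), (nat_lit 0), (nat_lit 0)]) (PF.cons (PF.leaf (nat_lit 3425435) (nat_lit 230201) (nat_lit 50560565) (nat_lit 15034086) [(nat_lit 230201), (nat_lit 1053758), (nat_lit 0), (nat_lit 0)]) (PF.cons (PF.leaf (nat_lit 3598948) (nat_lit 241189) (nat_lit 50294114) (nat_lit 15016131) [(nat_lit 241189), (nat_lit 1074997), (nat_lit 0), (nat_lit 0)]) (PF.cons (PF.leaf (nat_lit 3783721) (nat_lit 251316) (nat_lit 50011875) (nat_lit 14996073) [(nat_lit 251316), (nat_lit 1095597), (nat_lit 0), (nat_lit 0)]) (PF.cons PF.nil (PF.cons PF.nil PF.nil))))))) (PF.cons (PF.cons (PF.leaf (nat_lit 3643507) (nat_lit 1086808) (nat_lit 49946999)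 (nat_lit 14988195) [(nat_lit 0), (nat_lit 1086808), (nat_lit 0), (nat_lit 0)]) (PF.cons (PF.leaf (nat_lit 3814477) (nat_lit 249691) (nat_lit 49679956) (nat_lit 14967983) [(nat_lit 249691), (nat_lit 1105590), (nat_lit 0), (nat_lit 0)]) (PF.cons (PF.leaf (nat_lit 3998785) (nat_lit 259420) (nat_lit 49396481) (nat_lit 14945520) [(nat_lit 259420), (nat_lit 1123984), (nat_lit 0), (nat_lit 0)]) (PF.cons (PF.leaf (nat_lit 4193371) (nat_lit 268406) (nat_lit 49099083) (nat_lit 14920855) [(nat_lit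
 268406), (nat_lit 1141827), (nat_lit 0), (nat_lit 0)]) (PF.cons PF.nil PF.nil))))) (PF.cons (PF.cons (PF.leaf (nat_lit 4216871) (nat_lit 1149560) (nat_lit 48770947) (nat_lit 14889184) [(nat_lit 0), (nat_lit 1149560), (nat_lit 0), (nat_lit 0)]) (PF.cons (PF.leaf (nat_lit 4408919) (nat_lit 275160) (nat_lit 48474589) (nat_lit 14862277) [(nat_lit 275160), (nat_lit 1165595), (nat_lit 0), (nat_lit 0)]) (PF.cons PF.nil (PF.cons PF.nil PF.nil)))) (PF.cons (PF.cons (PF.leaf (nat_lit 4827593) (nat_lit 1201076) (nat_lit 47537429) (nat_lit 14767076) [(nat_lit 0), (nat_lit 1201076), (nat_lit 0), (nat_lit 0)]) (PF.cons PF.nil PF.nil)) (PF.cons PF.nil PF.nil)))))) (PF.cons (PF.cons (PF.cons (PF.leaf (nat_lit 3644006) (nat_lit 2828246) (nat_lit 49356079) (nat_lit 14924486) [(nat_lit 0), (nat_lit 0), (nat_lit 2828246), (nat_lit 0)]) (PF.cons (PF.leaf (nat_lit 3796127) (nat_lit 236190) (nat_lit 49120168) (nat_lit 14905042) [(nat_lit 236190), (nat_lit 0), (nat_lit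 2847411), (nat_lit 0)]) (PF.cons (PF.leaf (nat_lit 3964737) (nat_lit 247693) (nat_lit 48863285) (nat_lit 14883072) [(nat_lit 247693), (nat_lit 0), (nat_lit 2867067), (nat_lit 0)]) (PF.cons (PF.leaf (nat_lit 4145464) (nat_lit 258034)
 (nat_lit 48589205) (nat_lit 14858730) [(nat_lit 258034), (nat_lit 0), (nat_lit 2886772), (nat_lit 0)]) (PF.cons (PF.leaf (nat_lit 4336749) (nat_lit 267453) (nat_lit 48300665) (nat_lit 14832111) [(nat_lit 267453), (nat_lit 0), (nat_lit 2906220), (nat_lit 0)]) PF.nil))))) (PF.cons (PF.cons (PF.leaf (nat_lit 4182128) (nat_lit 1139140) (nat_lit 48244312) (nat_lit 14823722) [(nat_lit 0), (nat_lit 1139140), (nat_lit 2901637), (nat_lit 0)]) (PF.cons (PF.leaf (nat_lit 4359343) (nat_lit 264813) (nat_lit 47972394) (nat_lit 14797514) [(nat_lit 264813), (nat_lit 1155145), (nat_lit 2918945), (nat_lit 0)]) (PF.cons (PF.leaf (nat_lit 4549126) (nat_lit 273935) (nat_lit 47685197) (nat_lit 14768883) [(nat_lit 273935), (nat_lit 1170746),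 (nat_lit 2936113), (nat_lit 0)]) (PF.cons PF.nil PF.nil)))) (PF.cons (PF.cons (PF.leaf (nat_lit 4763919) (nat_lit 1191039) (nat_lit 47063618) (nat_lit 14700557) [(nat_lit 0), (nat_lit 1191039), (nat_lit 2962557), (nat_lit 0)]) (PF.cons (PF.leaf (nat_lit 4960075) (nat_lit 287635) (nat_lit 46766842) (nat_lit 14667833) [(nat_lit 287635), (nat_lit 1204600), (nat_lit 2977299), (nat_lit 0)]) PF.nil)) (PF.cons PF.nil (PF.cons PF.nil PF.nil))))) (PF.cons (PF.cons (PF.cons
 (PF.leaf (nat_lit 4714348) (nat_lit 2956159) (nat_lit 46566955) (nat_lit 14629538) [(nat_lit 0), (nat_lit 0), (nat_lit 2956159), (nat_lit 0)]) (PF.cons (PF.leaf (nat_lit 4895932) (nat_lit 277074) (nat_lit 46294219) (nat_lit 14598164) [(nat_lit 277074), (nat_lit 0), (nat_lit 2969677), (nat_lit 0)]) (PF.cons (PF.leaf (nat_lit 5089510) (nat_lit 285644) (nat_lit 46007295) (nat_lit 14564272) [(nat_lit 285644), (nat_lit 0), (nat_lit 2982977), (nat_lit 0)]) (PF.cons PF.nil PF.nil)))) (PF.cons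 (PF.cons (PF.leaf (nat_lit 5299980) (nat_lit 1222476) (nat_lit 45396408) (nat_lit 14486174) [(nat_lit 0), (nat_lit 1222476), (nat_lit 3001876), (nat_lit 0)]) (PF.cons PF.nil PF.nil)) (PF.cons PF.nil PF.nil))) (PF.cons (PF.cons (PF.cons (PF.leaf (nat_lit 5823171) (nat_lit 3025577) (nat_lit 43780273) (nat_lit 14251807) [(nat_lit 0), (nat_lit 0), (nat_lit 3025577), (nat_lit 0)]) (PF.cons PF.nil PF.nil)) (PF.cons PF.nil PF.nil)) (PF.cons PF.nil PF.nil))))) (PF.cons (PF.cons (PF.cons (PF.cons (PF.leaf (nat_lit 4485042) (nat_lit 7356520) (nat_lit 45358693) (nat_lit 14393599) [(nat_lit 0), (nat_lit 0), (nat_lit 0), (nat_lit 7356520)]) (PF.cons (PF.leaf (nat_lit 4638489) (nat_lit 246086) (nat_lit 45137951)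
 (nat_lit 14366839) [(nat_lit 246086), (nat_lit 0), (nat_lit 0), (nat_lit 7357935)]) (PF.cons (PF.leaf (nat_lit 4807481) (nat_lit 257225) (nat_lit 44898391) (nat_lit 14337180) [(nat_lit 257225), (nat_lit 0), (nat_lit 0), (nat_lit 7358789)]) (PF.cons (PF.leaf (nat_lit 4987981) (nat_lit 267090) (nat_lit 44643649) (nat_lit 14304948) [(nat_lit 267090), (nat_lit 0), (nat_lit 0), (nat_lit 7358944)]) (PF.cons (PF.leaf (nat_lit 5178260) (nat_lit 275950) (nat_lit 44376349) (nat_lit 14270366) [(nat_lit 275950), (nat_lit 0), (nat_lit 0), (nat_lit 7358294)]) (PF.cons PF.nil (PF.cons PF.nil PF.nil))))))) (PF.cons (PF.cons (PF.leaf (nat_lit 5014815) (nat_lit 1165003) (nat_lit 44328708) (nat_lit 14261338) [(nat_lit 0), (nat_lit 1165003), (nat_lit 0), (nat_lit 7353762)]) (PF.cons (PF.leaf (nat_lit 5190960) (nat_lit 272419) (nat_lit 44077574) (nat_lit 14228013) [(nat_lit 272419), (nat_lit 1178479), (nat_lit 0), (nat_lit 7352326)]) (PF.cons (PF.leaf (nat_lit 5378861)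 (nat_lit 281007) (nat_lit 43813083) (nat_lit 14192191) [(nat_lit 281007), (nat_lit 1191458), (nat_lit 0), (nat_lit 7350064)]) (PF.cons (PF.leaf (nat_lit 5575622) (nat_lit 288751) (nat_lit 43537682) (nat_lit 14154110) [(nat_lit 288751),
 (nat_lit 1203852), (nat_lit 0), (nat_lit 7346911)]) (PF.cons PF.nil PF.nil))))) (PF.cons (PF.cons (PF.leaf (nat_lit 5581244) (nat_lit 1206468) (nat_lit 43246947) (nat_lit 14110305) [(nat_lit 0), (nat_lit 1206468), (nat_lit 0), (nat_lit 7338622)]) (PF.cons (PF.leaf (nat_lit 5774060) (nat_lit 292799) (nat_lit 42975712) (nat_lit 14071217) [(nat_lit 292799), (nat_lit 1217550), (nat_lit 0), (nat_lit 7333981)]) (PF.cons PF.nil (PF.cons PF.nil PF.nil)))) (PF.cons (PF.cons (PF.leaf (nat_lit 6172857) (nat_lit 1239187) (nat_lit 42137126) (nat_lit 13942958) [(nat_lit 0), (nat_lit 1239187), (nat_lit 0), (nat_lit 7311163)]) (PF.cons PF.nil PF.nil)) (PF.cons PF.nil PF.nil))))) (PF.cons (PF.cons (PF.cons (PF.leaf (nat_lit 5515523)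 (nat_lit 2952771) (nat_lit 42810704) (nat_lit 14033610) [(nat_lit 0), (nat_lit 0), (nat_lit 2952771), (nat_lit 7311726)]) (PF.cons (PF.leaf (nat_lit 5694439) (nat_lit 281675) (nat_lit 42561640) (nat_lit 13996815) [(nat_lit 281675), (nat_lit 0), (nat_lit 2961836), (nat_lit 7306845)]) (PF.cons (PF.leaf (nat_lit 5884575) (nat_lit 289728) (nat_lit 42300193) (nat_lit 13957515) [(nat_lit 289728), (nat_lit 0), (nat_lit 2970594), (nat_lit 7301052)]) (PF.cons PF.nil PF.nil))))
 (PF.cons (PF.cons (PF.leaf (nat_lit 6081978) (nat_lit 1226763) (nat_lit 41748733) (nat_lit 13869755) [(nat_lit 0), (nat_lit 1226763), (nat_lit 2980730), (nat_lit 7282829)]) (PF.cons (PF.leaf (nat_lit 6276081) (nat_lit 300019) (nat_lit 41482483) (nat_lit 13827584) [(nat_lit 300019), (nat_lit 1236112), (nat_lit 2987717), (nat_lit 7274895)]) PF.nil)) (PF.cons PF.nil PF.nil))) (PF.cons (PF.cons (PF.cons (PF.leaf (nat_lit 6569504) (nat_lit 2985971) (nat_lit 40305355) (nat_lit 13618658)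 [(nat_lit 0), (nat_lit 0), (nat_lit 2985971), (nat_lit 7212856)]) (PF.cons PF.nil PF.nil)) (PF.cons PF.nil PF.nil)) (PF.cons PF.nil (PF.cons PF.nil PF.nil))))) (PF.cons (PF.cons (PF.cons (PF.cons (PF.leaf (nat_lit 6242924) (nat_lit 7101236) (nat_lit 39491202) (nat_lit 13415137) [(nat_lit 0), (nat_lit 0), (nat_lit 0), (nat_lit 7101236)]) (PF.cons (PF.leaf (nat_lit 6417970) (nat_lit 282620) (nat_lit 39265729) (nat_lit 13375890) [(nat_lit 282620), (nat_lit 0), (nat_lit 0), (nat_lit 7092286)]) (PF.cons (PF.leaf (nat_lit 6603632) (nat_lit 290206) (nat_lit 39029406) (nat_lit 13334229) [(nat_lit 290206), (nat_lit 0), (nat_lit 0), (nat_lit 7082382)]) (PF.cons PF.nil PF.nil)))) (PF.cons (PF.cons (PF.leaf (nat_lit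
 6788939) (nat_lit 1217897) (nat_lit 38534808) (nat_lit 13242977) [(nat_lit 0), (nat_lit 1217897), (nat_lit 0), (nat_lit 7056564)]) (PF.cons (PF.leaf (nat_lit 6977678) (nat_lit 299172) (nat_lit 38295058) (nat_lit 13199058) [(nat_lit 299172), (nat_lit 1225623), (nat_lit 0), (nat_lit 7044949)]) PF.nil)) (PF.cons PF.nil PF.nil))) (PF.cons (PF.cons (PF.cons (PF.leaf (nat_lit 7244438) (nat_lit 2925575) (nat_lit 37250488) (nat_lit 12989163) [(nat_lit 0), (nat_lit 0), (nat_lit 2925575), (nat_lit 6971792)]) (PF.cons PF.nil PF.nil)) (PF.cons PF.nil PF.nil)) (PF.cons PF.nil PF.nil))) (PF.cons (PF.cons (PF.cons (PF.cons (PF.leaf (nat_lit 7859291) (nat_lit 6721385) (nat_lit 34562877) (nat_lit 12381779) [(nat_lit 0), (nat_lit 0), (nat_lit 0), (nat_lit 6721385)]) (PF.cons PF.nil PF.nil)) (PF.cons PF.nil PF.nil)) (PF.cons PF.nil PF.nil)) (PF.cons PF.nil (PF.cons PF.nil PF.nil))))))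

def p12_8_2_0 : pfC (piC [(nat_lit 43428061), (nat_lit 27333682), (nat_lit 20249535), (nat_lit 13586793)] (nat_lit 7194913)) p12_8_2 (nat_lit 4) (nat_lit 0) (nat_lit 1) = true := by decide +kernel
def p12_8_2_1 : pfC (piC [(nat_lit 43428061), (nat_lit 27333682), (nat_lit 20249535), (nat_lit 13586793)] (nat_lit 7194913)) p12_8_2 (nat_lit 4) (nat_lit 1) (nat_lit 2) = true := by decide +kernel
def p12_8_2_2 : pfC (piC [(nat_lit 43428061), (nat_lit 27333682), (nat_lit 20249535), (nat_lit 13586793)] (nat_lit 7194913)) p12_8_2 (nat_lit 4) (nat_lit 2) (nat_lit 3) = true := by decide +kernel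
def p12_8_2_3 : pfC (piC [(nat_lit 43428061), (nat_lit 27333682), (nat_lit 20249535), (nat_lit 13586793)] (nat_lit 7194913)) p12_8_2 (nat_lit 4) (nat_lit 3) (nat_lit 4) = true := by decide +kernel
def p12_8_2_4 : pfC (piC [(nat_lit 43428061), (nat_lit 27333682), (nat_lit 20249535), (nat_lit 13586793)] (nat_lit 7194913)) p12_8_2 (nat_lit 4) (nat_lit 4) (nat_lit 5) = true := by decide +kernel
def p12_8_2_5 : pfC (piC [(nat_lit 43428061), (nat_lit 27333682), (nat_lit 20249535), (nat_lit 13586793)] (nat_lit 7194913)) p12_8_2 (nat_lit 4) (nat_lit 5) (nat_lit 6) = true := by decide +kernel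
def p12_8_2_6 : pfC (piC [(nat_lit 43428061), (nat_lit 27333682), (nat_lit 20249535), (nat_lit 13586793)] (nat_lit 7194913)) p12_8_2 (nat_lit 4) (nat_lit 6) (nat_lit 7) = true := by decide +kernel
def p12_8_2_7 : pfC (piC [(nat_lit 43428061), (nat_lit 27333682), (nat_lit 20249535), (nat_lit 13586793)] (nat_lit 7194913)) p12_8_2 (nat_lit 4) (nat_lit 7) (nat_lit 8) = true := by decide +kernel
def p12_8_2_8 : pfC (piC [(nat_lit 43428061), (nat_lit 27333682), (nat_lit 20249535), (nat_lit 13586793)] (nat_lit 7194913)) p12_8_2 (nat_lit 4) (nat_lit 8) (nat_lit 9) = true := by decide +kernel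
def p12_8_2_9 : pfC (piC [(nat_lit 43428061), (nat_lit 27333682), (nat_lit 20249535), (nat_lit 13586793)] (nat_lit 7194913)) p12_8_2 (nat_lit 4) (nat_lit 9) (nat_lit 10) = true := by decide +kernel
def p12_8_2_10 : pfC (piC [(nat_lit 43428061), (nat_lit 27333682), (nat_lit 20249535), (nat_lit 13586793)] (nat_lit 7194913)) p12_8_2 (nat_lit 4) (nat_lit 10) (nat_lit 11) = true := by decide +kernel
def p12_8_2_11 : pfC (piC [(nat_lit 43428061), (nat_lit 27333682), (nat_lit 20249535), (nat_lit 13586793)] (nat_lit 7194913)) p12_8_2 (nat_lit 4) (nat_lit 11) (nat_lit 12) = true := by decide +kernel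
def p12_8_2_12 : pfC (piC [(nat_lit 43428061), (nat_lit 27333682), (nat_lit 20249535), (nat_lit 13586793)] (nat_lit 7194913)) p12_8_2 (nat_lit 4) (nat_lit 12) (nat_lit 13) = true := by decide +kernel
def p12_8_2_13 : pfC (piC [(nat_lit 43428061), (nat_lit 27333682), (nat_lit 20249535), (nat_lit 13586793)] (nat_lit 7194913)) p12_8_2 (nat_lit 4) (nat_lit 13) (nat_lit 14) = true := by decide +kernel
def p12_8_2_14 : pfC (piC [(nat_lit 43428061), (nat_lit 27333682), (nat_lit 20249535), (nat_lit 13586793)] (nat_lit 7194913)) p12_8_2 (nat_lit 4) (nat_lit 14) (nat_lit 15) = true := by decide +kernel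
def p12_8_2_15 : pfC (piC [(nat_lit 43428061), (nat_lit 27333682), (nat_lit 20249535), (nat_lit 13586793)] (nat_lit 7194913)) p12_8_2 (nat_lit 4) (nat_lit 15) (nat_lit 16) = true := by decide +kernel
def p12_8_2_16 : pfC (piC [(nat_lit 43428061), (nat_lit 27333682), (nat_lit 20249535), (nat_lit 13586793)] (nat_lit 7194913)) p12_8_2 (nat_lit 4) (nat_lit 16) (nat_lit 17) = true := by decide +kernel
def p12_8_2_17 : pfC (piC [(nat_lit 43428061), (nat_lit 27333682), (nat_lit 20249535), (nat_lit 13586793)] (nat_lit 7194913)) p12_8_2 (nat_lit 4) (nat_lit 17) (nat_lit 18) = true := by decide +kernel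
def p12_8_2_18 : pfC (piC [(nat_lit 43428061), (nat_lit 27333682), (nat_lit 20249535), (nat_lit 13586793)] (nat_lit 7194913)) p12_8_2 (nat_lit 4) (nat_lit 18) (nat_lit 19) = true := by decide +kernel
def p12_8_2_19 : pfC (piC [(nat_lit 43428061), (nat_lit 27333682), (nat_lit 20249535), (nat_lit 13586793)] (nat_lit 7194913)) p12_8_2 (nat_lit 4) (nat_lit 19) (nat_lit 20) = true := by decide +kernel
def p12_8_2_20 : pfC (piC [(nat_lit 43428061), (nat_lit 27333682), (nat_lit 20249535), (nat_lit 13586793)] (nat_lit 7194913)) p12_8_2 (nat_lit 4) (nat_lit 20) (nat_lit 21) = true := by decide +kernel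
def p12_8_2_21 : pfC (piC [(nat_lit 43428061), (nat_lit 27333682), (nat_lit 20249535), (nat_lit 13586793)] (nat_lit 7194913)) p12_8_2 (nat_lit 4) (nat_lit 21) (nat_lit 22) = true := by decide +kernel
def p12_8_2_22 : pfC (piC [(nat_lit 43428061), (nat_lit 27333682), (nat_lit 20249535), (nat_lit 13586793)] (nat_lit 7194913)) p12_8_2 (nat_lit 4) (nat_lit 22) (nat_lit 23) = true := by decide +kernel
def p12_8_2_23 : pfC (piC [(nat_lit 43428061), (nat_lit 27333682), (nat_lit 20249535), (nat_lit 13586793)] (nat_lit 7194913)) p12_8_2 (nat_lit 4) (nat_lit 23) (nat_lit 24) = true := by decide +kernel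
def p12_8_2_24 : pfC (piC [(nat_lit 43428061), (nat_lit 27333682), (nat_lit 20249535), (nat_lit 13586793)] (nat_lit 7194913)) p12_8_2 (nat_lit 4) (nat_lit 24) (nat_lit 25) = true := by decide +kernel
def p12_8_2_25 : pfC (piC [(nat_lit 43428061), (nat_lit 27333682), (nat_lit 20249535), (nat_lit 13586793)] (nat_lit 7194913)) p12_8_2 (nat_lit 4) (nat_lit 25) (nat_lit 26) = true := by decide +kernel
def p12_8_2_26 : pfC (piC [(nat_lit 43428061), (nat_lit 27333682), (nat_lit 20249535), (nat_lit 13586793)] (nat_lit 7194913)) p12_8_2 (nat_lit 4) (nat_lit 26) (nat_lit 27) = true := by decide +kernel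
def p12_8_2_27 : pfC (piC [(nat_lit 43428061), (nat_lit 27333682), (nat_lit 20249535), (nat_lit 13586793)] (nat_lit 7194913)) p12_8_2 (nat_lit 4) (nat_lit 27) (nat_lit 28) = true := by decide +kernel
def p12_8_2_28 : pfC (piC [(nat_lit 43428061), (nat_lit 27333682), (nat_lit 20249535), (nat_lit 13586793)] (nat_lit 7194913)) p12_8_2 (nat_lit 4) (nat_lit 28) (nat_lit 29) = true := by decide +kernel
def p12_8_2_29 : pfC (piC [(nat_lit 43428061), (nat_lit 27333682), (nat_lit 20249535), (nat_lit 13586793)] (nat_lit 7194913)) p12_8_2 (nat_lit 4) (nat_lit 29) (nat_lit 30) = true := by decide +kernel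
def p12_8_2_30 : pfC (piC [(nat_lit 43428061), (nat_lit 27333682), (nat_lit 20249535), (nat_lit 13586793)] (nat_lit 7194913)) p12_8_2 (nat_lit 4) (nat_lit 30) (nat_lit 31) = true := by decide +kernel
def p12_8_2_31 : pfC (piC [(nat_lit 43428061), (nat_lit 27333682), (nat_lit 20249535), (nat_lit 13586793)] (nat_lit 7194913)) p12_8_2 (nat_lit 4) (nat_lit 31) (nat_lit 32) = true := by decide +kernel
def p12_8_2_32 : pfC (piC [(nat_lit 43428061), (nat_lit 27333682), (nat_lit 20249535), (nat_lit 13586793)] (nat_lit 7194913)) p12_8_2 (nat_lit 4) (nat_lit 32) (nat_lit 33) = true := by decide +kernel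
def p12_8_2_33 : pfC (piC [(nat_lit 43428061), (nat_lit 27333682), (nat_lit 20249535), (nat_lit 13586793)] (nat_lit 7194913)) p12_8_2 (nat_lit 4) (nat_lit 33) (nat_lit 34) = true := by decide +kernel
def p12_8_2_34 : pfC (piC [(nat_lit 43428061), (nat_lit 27333682), (nat_lit 20249535), (nat_lit 13586793)] (nat_lit 7194913)) p12_8_2 (nat_lit 4) (nat_lit 34) (nat_lit 35) = true := by decide +kernel
def p12_8_2_35 : pfC (piC [(nat_lit 43428061), (nat_lit 27333682), (nat_lit 20249535), (nat_lit 13586793)] (nat_lit 7194913)) p12_8_2 (nat_lit 4) (nat_lit 35) (nat_lit 36) = true := by decide +kernel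
def p12_8_2_36 : pfC (piC [(nat_lit 43428061), (nat_lit 27333682), (nat_lit 20249535), (nat_lit 13586793)] (nat_lit 7194913)) p12_8_2 (nat_lit 4) (nat_lit 36) (nat_lit 37) = true := by decide +kernel
def p12_8_2_37 : pfC (piC [(nat_lit 43428061), (nat_lit 27333682), (nat_lit 20249535), (nat_lit 13586793)] (nat_lit 7194913)) p12_8_2 (nat_lit 4) (nat_lit 37) (nat_lit 38) = true := by decide +kernel
def p12_8_2_38 : pfC (piC [(nat_lit 43428061), (nat_lit 27333682), (nat_lit 20249535), (nat_lit 13586793)] (nat_lit 7194913)) p12_8_2 (nat_lit 4) (nat_lit 38) (nat_lit 39) = true := by decide +kernel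
def p12_8_2_39 : pfC (piC [(nat_lit 43428061), (nat_lit 27333682), (nat_lit 20249535), (nat_lit 13586793)] (nat_lit 7194913)) p12_8_2 (nat_lit 4) (nat_lit 39) (nat_lit 40) = true := by decide +kernel
def p12_8_2_40 : pfC (piC [(nat_lit 43428061), (nat_lit 27333682), (nat_lit 20249535), (nat_lit 13586793)] (nat_lit 7194913)) p12_8_2 (nat_lit 4) (nat_lit 40) (nat_lit 41) = true := by decide +kernel
def p12_8_2_41 : pfC (piC [(nat_lit 43428061), (nat_lit 27333682), (nat_lit 20249535), (nat_lit 13586793)] (nat_lit 7194913)) p12_8_2 (nat_lit 4) (nat_lit 41) (nat_lit 42) = true := by decide +kernel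
def p12_8_2_42 : pfC (piC [(nat_lit 43428061), (nat_lit 27333682), (nat_lit 20249535), (nat_lit 13586793)] (nat_lit 7194913)) p12_8_2 (nat_lit 4) (nat_lit 42) (nat_lit 43) = true := by decide +kernel
def p12_8_2_43 : pfC (piC [(nat_lit 43428061), (nat_lit 27333682), (nat_lit 20249535), (nat_lit 13586793)] (nat_lit 7194913)) p12_8_2 (nat_lit 4) (nat_lit 43) (nat_lit 44) = true := by decide +kernel
def p12_8_2_44 : pfC (piC [(nat_lit 43428061), (nat_lit 27333682), (nat_lit 20249535), (nat_lit 13586793)] (nat_lit 7194913)) p12_8_2 (nat_lit 4) (nat_lit 44) (nat_lit 45) = true := by decide +kernel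
def p12_8_2_45 : pfC (piC [(nat_lit 43428061), (nat_lit 27333682), (nat_lit 20249535), (nat_lit 13586793)] (nat_lit 7194913)) p12_8_2 (nat_lit 4) (nat_lit 45) (nat_lit 46) = true := by decide +kernel
def p12_8_2_46 : pfC (piC [(nat_lit 43428061), (nat_lit 27333682), (nat_lit 20249535), (nat_lit 13586793)] (nat_lit 7194913)) p12_8_2 (nat_lit 4) (nat_lit 46) (nat_lit 47) = true := by decide +kernel
def p12_8_2_47 : pfC (piC [(nat_lit 43428061), (nat_lit 27333682), (nat_lit 20249535), (nat_lit 13586793)] (nat_lit 7194913)) p12_8_2 (nat_lit 4) (nat_lit 47) (nat_lit 48) = true := by decide +kernel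
def p12_8_2_48 : pfC (piC [(nat_lit 43428061), (nat_lit 27333682), (nat_lit 20249535), (nat_lit 13586793)] (nat_lit 7194913)) p12_8_2 (nat_lit 4) (nat_lit 48) (nat_lit 49) = true := by decide +kernel
def p12_8_2_49 : pfC (piC [(nat_lit 43428061), (nat_lit 27333682), (nat_lit 20249535), (nat_lit 13586793)] (nat_lit 7194913)) p12_8_2 (nat_lit 4) (nat_lit 49) (nat_lit 50) = true := by decide +kernel
def p12_8_2_50 : pfC (piC [(nat_lit 43428061), (nat_lit 27333682), (nat_lit 20249535), (nat_lit 13586793)] (nat_lit 7194913)) p12_8_2 (nat_lit 4) (nat_lit 50) (nat_lit 51) = true := by decide +kernel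
def p12_8_2_51 : pfC (piC [(nat_lit 43428061), (nat_lit 27333682), (nat_lit 20249535), (nat_lit 13586793)] (nat_lit 7194913)) p12_8_2 (nat_lit 4) (nat_lit 51) (nat_lit 52) = true := by decide +kernel
def p12_8_2_52 : pfC (piC [(nat_lit 43428061), (nat_lit 27333682), (nat_lit 20249535), (nat_lit 13586793)] (nat_lit 7194913)) p12_8_2 (nat_lit 4) (nat_lit 52) (nat_lit 53) = true := by decide +kernel
def p12_8_2_53 : pfC (piC [(nat_lit 43428061), (nat_lit 27333682), (nat_lit 20249535), (nat_lit 13586793)] (nat_lit 7194913)) p12_8_2 (nat_lit 4) (nat_lit 53) (nat_lit 54) = true := by decide +kernel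
def p12_8_2_54 : pfC (piC [(nat_lit 43428061), (nat_lit 27333682), (nat_lit 20249535), (nat_lit 13586793)] (nat_lit 7194913)) p12_8_2 (nat_lit 4) (nat_lit 54) (nat_lit 55) = true := by decide +kernel
def p12_8_2_55 : pfC (piC [(nat_lit 43428061), (nat_lit 27333682), (nat_lit 20249535), (nat_lit 13586793)] (nat_lit 7194913)) p12_8_2 (nat_lit 4) (nat_lit 55) (nat_lit 56) = true := by decide +kernel
def p12_8_2_56 : pfC (piC [(nat_lit 43428061), (nat_lit 27333682), (nat_lit 20249535), (nat_lit 13586793)] (nat_lit 7194913)) p12_8_2 (nat_lit 4) (nat_lit 56) (nat_lit 57) = true := by decide +kernel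
def p12_8_2_57 : pfC (piC [(nat_lit 43428061), (nat_lit 27333682), (nat_lit 20249535), (nat_lit 13586793)] (nat_lit 7194913)) p12_8_2 (nat_lit 4) (nat_lit 57) (nat_lit 58) = true := by decide +kernel
theorem p12_8_2_T : PfS (PiF n12_8.reverse (nat_lit 7194913)) p12_8_2 (nat_lit 4) [] 0 :=
  pftab_of (los := [(nat_lit 43428061), (nat_lit 27333682), (nat_lit 20249535), (nat_lit 13586793)]) (by decide +kernel) (hi := (nat_lit 58)) (PfP.trans (PfP.trans (PfP.trans (PfP.trans (PfP.trans (PfP.trans (PfP.trans (PfP.trans (PfP.trans (PfP.trans (PfP.trans (PfP.trans (PfP.trans (PfP.trans (PfP.trans (PfP.trans (PfP.trans (PfP.trans (PfP.trans (PfP.trans (PfP.trans (PfP.trans (PfP.trans (PfP.trans (PfP.trans (PfP.trans (PfP.trans (PfP.trans (PfP.trans (PfP.trans (PfP.trans (PfP.trans (PfP.trans (PfP.trans (PfP.trans (PfP.trans (PfP.trans (PfP.trans (PfP.trans (PfP.trans (PfP.trans (PfP.trans (PfP.trans (PfP.trans (PfP.trans (PfP.trans (PfP.trans (PfP.trans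 (PfP.trans (PfP.trans (PfP.trans (PfP.trans (PfP.trans (PfP.trans (PfP.trans (PfP.trans (PfP.trans (pfC_sound p12_8_2_0) (pfC_sound p12_8_2_1)) (pfC_sound p12_8_2_2)) (pfC_sound p12_8_2_3)) (pfC_sound p12_8_2_4)) (pfC_sound p12_8_2_5)) (pfC_sound p12_8_2_6)) (pfC_sound p12_8_2_7)) (pfC_sound p12_8_2_8)) (pfC_sound p12_8_2_9)) (pfC_sound p12_8_2_10)) (pfC_sound p12_8_2_11)) (pfC_sound p12_8_2_12)) (pfC_sound p12_8_2_13)) (pfC_sound p12_8_2_14)) (pfC_sound p12_8_2_15)) (pfC_sound p12_8_2_16)) (pfC_sound p12_8_2_17)) (pfC_sound p12_8_2_18)) (pfC_sound p12_8_2_19)) (pfC_sound p12_8_2_20)) (pfC_sound p12_8_2_21)) (pfC_sound p12_8_2_22)) (pfC_sound p12_8_2_23))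
 (pfC_sound p12_8_2_24)) (pfC_sound p12_8_2_25)) (pfC_sound p12_8_2_26)) (pfC_sound p12_8_2_27)) (pfC_sound p12_8_2_28)) (pfC_sound p12_8_2_29)) (pfC_sound p12_8_2_30)) (pfC_sound p12_8_2_31)) (pfC_sound p12_8_2_32)) (pfC_sound p12_8_2_33)) (pfC_sound p12_8_2_34)) (pfC_sound p12_8_2_35)) (pfC_sound p12_8_2_36)) (pfC_sound p12_8_2_37)) (pfC_sound p12_8_2_38)) (pfC_sound p12_8_2_39)) (pfC_sound p12_8_2_40)) (pfC_sound p12_8_2_41)) (pfC_sound p12_8_2_42)) (pfC_sound p12_8_2_43)) (pfC_sound p12_8_2_44)) (pfC_sound p12_8_2_45)) (pfC_sound p12_8_2_46)) (pfC_sound p12_8_2_47)) (pfC_sound p12_8_2_48)) (pfC_sound p12_8_2_49)) (pfC_sound p12_8_2_50)) (pfC_sound p12_8_2_51)) (pfC_sound p12_8_2_52)) (pfC_sound p12_8_2_53)) (pfC_sound p12_8_2_54)) (pfC_sound p12_8_2_55)) (pfC_sound p12_8_2_56)) (pfC_sound p12_8_2_57)) (by decide +kernel)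

def z12_8_2 : zOK yB12_8 (nat_lit 2) (nat_lit 600) (nat_lit 750) (nat_lit 7194913) (nat_lit 5158383) = true := by decide +kernel
def g12_8_2 : gOK yB12_8.x P12_8 (nat_lit 1426) (q12_8 :: r12_8) (nat_lit 2) (nat_lit 600) (nat_lit 3) (nat_lit 750) (nat_lit 12712500) (nat_lit 12712500) (nat_lit 12712500) (nat_lit 12712500) [(nat_lit 800), (nat_lit 1600)] = true := by decide +kernel
def v12_8_2 : ivC P12_8 s12_8 w12_8 n12_8 (nat_lit 4) (nat_lit 4900) (nat_lit 2) (nat_lit 600) f136_1_600 f144_1_600 (nat_lit 3) (nat_lit 750) f136_1_750 f144_1_750 (nat_lit 7194913) (nat_lit 5158383) p12_8_2 = true := by decide +kernel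
def p12_8_3 : PF := (PF.cons (PF.cons (PF.cons (PF.cons (PF.leaf (nat_lit 3021202) (nat_lit 19619128) (nat_lit 47489684) (nat_lit 19619128) [(nat_lit 0), (nat_lit 0), (nat_lit 0), (nat_lit 0)]) (PF.cons (PF.leaf (nat_lit 3124770) (nat_lit 172967) (nat_lit 47343536) (nat_lit 19592308) [(nat_lit 172967), (nat_lit 0), (nat_lit 0), (nat_lit 0)]) (PF.cons (PF.leaf (nat_lit 3250332) (nat_lit 188105) (nat_lit 47172132) (nat_lit 19560468) [(nat_lit 188105), (nat_lit 0), (nat_lit 0), (nat_lit 0)]) (PF.cons (PF.leaf (nat_lit 3391685) (nat_lit 201566) (nat_lit 46979847) (nat_lit 19524264) [(nat_lit 201566), (nat_lit 0), (nat_lit 0), (nat_lit 0)]) (PF.cons (PF.leaf (nat_lit 3546395) (nat_lit 213737) (nat_lit 46769736) (nat_lit 19484125) [(nat_lit 213737), (nat_lit 0), (nat_lit 0), (nat_lit 0)]) (PF.cons (PF.leaf (nat_lit 3712801) (nat_lit 224866) (nat_lit 46544120) (nat_lit 19440362) [(nat_lit 224866), (nat_lit 0), (nat_lit 0), (nat_lit 0)]) (PF.cons (PF.leaf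 (nat_lit 3889755) (nat_lit 235122) (nat_lit 46304865) (nat_lit 19393212) [(nat_lit 235122), (nat_lit 0), (nat_lit 0), (nat_lit 0)]) (PF.cons (PF.leaf (nat_lit 4076208) (nat_lit 244630) (nat_lit 46053528) (nat_lit 19342870) [(nat_lit 244630), (nat_lit 0),
 (nat_lit 0), (nat_lit 0)]) (PF.cons PF.nil PF.nil))))))))) (PF.cons (PF.cons (PF.leaf (nat_lit 3456156) (nat_lit 980967) (nat_lit 46665865) (nat_lit 19461979) [(nat_lit 0), (nat_lit 980967), (nat_lit 0), (nat_lit 0)]) (PF.cons (PF.leaf (nat_lit 3594098) (nat_lit 211992) (nat_lit 46471267) (nat_lit 19423960) [(nat_lit 211992), (nat_lit 1001593), (nat_lit 0), (nat_lit 0)]) (PF.cons (PF.leaf (nat_lit 3748717) (nat_lit 223577) (nat_lit 46257867) (nat_lit 19381694) [(nat_lit 223577), (nat_lit 1022096), (nat_lit 0), (nat_lit 0)]) (PF.cons (PF.leaf (nat_lit 3915403) (nat_lit 234119) (nat_lit 46028681) (nat_lit 19335640) [(nat_lit 234119), (nat_lit 1042132), (nat_lit 0), (nat_lit 0)]) (PF.cons (PF.leaf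 (nat_lit 4092788) (nat_lit 243810) (nat_lit 45785933) (nat_lit 19286123) [(nat_lit 243810), (nat_lit 1061513), (nat_lit 0), (nat_lit 0)]) (PF.cons (PF.leaf (nat_lit 4279679) (nat_lit 252782) (nat_lit 45531370) (nat_lit 19233388) [(nat_lit 252782), (nat_lit 1080140), (nat_lit 0), (nat_lit 0)]) (PF.cons PF.nil PF.nil))))))) (PF.cons (PF.cons (PF.leaf (nat_lit 3956052) (nat_lit 1052836) (nat_lit 45730594) (nat_lit 19272545) [(nat_lit 0), (nat_lit 1052836), (nat_lit 0), (nat_lit 0)]) (PF.cons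
 (PF.leaf (nat_lit 4119946) (nat_lit 242070) (nat_lit 45500933) (nat_lit 19224811) [(nat_lit 242070), (nat_lit 1070499), (nat_lit 0), (nat_lit 0)]) (PF.cons (PF.leaf (nat_lit 4296709) (nat_lit 251371) (nat_lit 45257141) (nat_lit 19173416) [(nat_lit 251371), (nat_lit 1087755), (nat_lit 0), (nat_lit 0)]) (PF.cons (PF.leaf (nat_lit 4483227) (nat_lit 259941) (nat_lit 45001374) (nat_lit 19118703) [(nat_lit 259941), (nat_lit 1104454), (nat_lit 0), (nat_lit 0)]) (PF.cons (PF.leaf (nat_lit 4678359) (nat_lit 267889) (nat_lit 44735297) (nat_lit 19060930) [(nat_lit 267889), (nat_lit 1120512), (nat_lit 0), (nat_lit 0)]) PF.nil))))) (PF.cons (PF.cons (PF.leaf (nat_lit 4503516) (nat_lit 1111312) (nat_lit 44719620) (nat_lit 19055253) [(nat_lit 0), (nat_lit 1111312), (nat_lit 0), (nat_lit 0)]) (PF.cons (PF.leaf (nat_lit 4687333) (nat_lit 266201) (nat_lit 44464721) (nat_lit 18999027) [(nat_lit 266201), (nat_lit 1126287), (nat_lit 0), (nat_lit 0)]) (PF.cons (PF.leaf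 (nat_lit 4881423) (nat_lit 273846) (nat_lit 44199198) (nat_lit 18939629) [(nat_lit 273846), (nat_lit 1140764), (nat_lit 0), (nat_lit 0)]) (PF.cons PF.nil PF.nil)))) (PF.cons (PF.cons (PF.leaf (nat_lit 5085854) (nat_lit 1158989) (nat_lit
 43658938) (nat_lit 18813914) [(nat_lit 0), (nat_lit 1158989), (nat_lit 0), (nat_lit 0)]) (PF.cons (PF.leaf (nat_lit 5285003) (nat_lit 285908) (nat_lit 43386331) (nat_lit 18750316) [(nat_lit 285908), (nat_lit 1171564), (nat_lit 0), (nat_lit 0)]) PF.nil)) (PF.cons PF.nil PF.nil)))))) (PF.cons (PF.cons (PF.cons (PF.leaf (nat_lit 3951475) (nat_lit 2729628) (nat_lit 45225066) (nat_lit 19154118) [(nat_lit 0), (nat_lit 0), (nat_lit 2729628), (nat_lit 0)]) (PF.cons (PF.leaf (nat_lit 4097254) (nat_lit 228773) (nat_lit 45022150) (nat_lit 19110769) [(nat_lit 228773), (nat_lit 0), (nat_lit 2747119), (nat_lit 0)]) (PF.cons (PF.leaf (nat_lit 4259013) (nat_lit 239809) (nat_lit 44801189) (nat_lit 19062989) [(nat_lit 239809), (nat_lit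 0), (nat_lit 2765016), (nat_lit 0)]) (PF.cons (PF.leaf (nat_lit 4432289) (nat_lit 249708) (nat_lit 44565425) (nat_lit 19011351) [(nat_lit 249708), (nat_lit 0), (nat_lit 2782911), (nat_lit 0)]) (PF.cons (PF.leaf (nat_lit 4615601) (nat_lit 258704) (nat_lit 44317202) (nat_lit 18956260) [(nat_lit 258704), (nat_lit 0), (nat_lit 2800530), (nat_lit 0)]) (PF.cons (PF.leaf (nat_lit 4807716) (nat_lit 266955) (nat_lit 44058331) (nat_lit 18898021) [(nat_lit 266955), (nat_lit 0),
 (nat_lit 2817681), (nat_lit 0)]) (PF.cons PF.nil PF.nil))))))) (PF.cons (PF.cons (PF.leaf (nat_lit 4465413) (nat_lit 1100428) (nat_lit 44269163) (nat_lit 18943334) [(nat_lit 0), (nat_lit 1100428), (nat_lit 2795886), (nat_lit 0)]) (PF.cons (PF.leaf (nat_lit 4635058) (nat_lit 256018) (nat_lit 44035213) (nat_lit 18890583) [(nat_lit 256018), (nat_lit 1115449), (nat_lit 2811549), (nat_lit 0)]) (PF.cons (PF.leaf (nat_lit 4816817) (nat_lit 264727) (nat_lit 43788087) (nat_lit 18834159) [(nat_lit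 264727), (nat_lit 1130059), (nat_lit 2827050), (nat_lit 0)]) (PF.cons (PF.leaf (nat_lit 5007724) (nat_lit 272669) (nat_lit 43530008) (nat_lit 18774474) [(nat_lit 272669), (nat_lit 1144143), (nat_lit 2842178), (nat_lit 0)]) (PF.cons PF.nil PF.nil))))) (PF.cons (PF.cons (PF.leaf (nat_lit 5020426) (nat_lit 1148699) (nat_lit 43253537) (nat_lit 18707475) [(nat_lit 0), (nat_lit 1148699), (nat_lit 2850401), (nat_lit 0)]) (PF.cons (PF.leaf (nat_lit 5207956) (nat_lit 277625) (nat_lit 42998028) (nat_lit 18646798) [(nat_lit 277625), (nat_lit 1161357), (nat_lit 2863644), (nat_lit 0)]) (PF.cons (PF.leaf (nat_lit 5405124) (nat_lit 284696) (nat_lit 42732839) (nat_lit 18583039) [(nat_lit 284696), (nat_lit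
 1173542), (nat_lit 2876454), (nat_lit 0)]) (PF.cons PF.nil PF.nil)))) (PF.cons (PF.cons (PF.leaf (nat_lit 5604813) (nat_lit 1187818) (nat_lit 42201242) (nat_lit 18450645) [(nat_lit 0), (nat_lit 1187818), (nat_lit 2893468), (nat_lit 0)]) (PF.cons PF.nil PF.nil)) (PF.cons PF.nil PF.nil))))) (PF.cons (PF.cons (PF.cons (PF.leaf (nat_lit 4968783) (nat_lit 2842926) (nat_lit 42828198) (nat_lit 18594760) [(nat_lit 0), (nat_lit 0), (nat_lit 2842926), (nat_lit 0)]) (PF.cons (PF.leaf (nat_lit 5142482) (nat_lit 267307) (nat_lit 42593267) (nat_lit 18537965) [(nat_lit 267307), (nat_lit 0), (nat_lit 2855136), (nat_lit 0)]) (PF.cons (PF.leaf (nat_lit 5327759) (nat_lit 275487) (nat_lit 42346055) (nat_lit 18477532) [(nat_lit 275487), (nat_lit 0), (nat_lit 2867125), (nat_lit 0)]) (PF.cons (PF.leaf (nat_lit 5521635) (nat_lit 282873) (nat_lit 42088810) (nat_lit 18413924) [(nat_lit 282873), (nat_lit 0), (nat_lit 2878728), (nat_lit 0)]) (PF.cons PF.nil PF.nil))))) (PF.cons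 (PF.cons (PF.leaf (nat_lit 5527381) (nat_lit 1176959) (nat_lit 41819906) (nat_lit 18344514) [(nat_lit 0), (nat_lit 1176959), (nat_lit 2883716), (nat_lit 0)]) (PF.cons (PF.leaf (nat_lit 5717417) (nat_lit 286756) (nat_lit 41566476)
 (nat_lit 18280385) [(nat_lit 286756), (nat_lit 1187684), (nat_lit 2893755), (nat_lit 0)]) (PF.cons (PF.leaf (nat_lit 5916382) (nat_lit 293317) (nat_lit 41304203) (nat_lit 18213285) [(nat_lit 293317), (nat_lit 1197954), (nat_lit 2903367), (nat_lit 0)]) (PF.cons PF.nil PF.nil)))) (PF.cons (PF.cons (PF.leaf (nat_lit 6110811) (nat_lit 1209009) (nat_lit 40785165) (nat_lit 18076198) [(nat_lit 0), (nat_lit 1209009), (nat_lit 2914714), (nat_lit 0)]) (PF.cons PF.nil PF.nil)) PF.nil))) (PF.cons (PF.cons (PF.cons (PF.leaf (nat_lit 6022911) (nat_lit 2903312) (nat_lit 40427440) (nat_lit 17971434) [(nat_lit 0), (nat_lit 0), (nat_lit 2903312), (nat_lit 0)]) (PF.cons (PF.leaf (nat_lit 6214236) (nat_lit 293984) (nat_lit 40178053) (nat_lit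 17904741) [(nat_lit 293984), (nat_lit 0), (nat_lit 2910678), (nat_lit 0)]) (PF.cons PF.nil PF.nil))) (PF.cons (PF.cons (PF.leaf (nat_lit 6602962) (nat_lit 1223957) (nat_lit 39416730) (nat_lit 17695118) [(nat_lit 0), (nat_lit 1223957), (nat_lit 2924335), (nat_lit 0)]) PF.nil) PF.nil)) (PF.cons PF.nil (PF.cons PF.nil PF.nil)))))) (PF.cons (PF.cons (PF.cons (PF.cons (PF.leaf (nat_lit 4739514) (nat_lit 7031669) (nat_lit 41801055) (nat_lit 18276088) [(nat_lit 0),
 (nat_lit 0), (nat_lit 0), (nat_lit 7031669)]) (PF.cons (PF.leaf (nat_lit 4886399) (nat_lit 237387) (nat_lit 41610448) (nat_lit 18228798) [(nat_lit 237387), (nat_lit 0), (nat_lit 0), (nat_lit 7032178)]) (PF.cons (PF.leaf (nat_lit 5048565) (nat_lit 248070) (nat_lit 41403545) (nat_lit 18177002) [(nat_lit 248070), (nat_lit 0), (nat_lit 0), (nat_lit 7032125)]) (PF.cons (PF.leaf (nat_lit 5221613) (nat_lit 257518) (nat_lit 41183472) (nat_lit 18121383) [(nat_lit 257518), (nat_lit 0), (nat_lit 0), (nat_lit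 7031402)]) (PF.cons (PF.leaf (nat_lit 5403996) (nat_lit 265992) (nat_lit 40952483) (nat_lit 18062429) [(nat_lit 265992), (nat_lit 0), (nat_lit 0), (nat_lit 7029929)]) (PF.cons (PF.leaf (nat_lit 5594448) (nat_lit 273670) (nat_lit 40712304) (nat_lit 18000509) [(nat_lit 273670), (nat_lit 0), (nat_lit 0), (nat_lit 7027643)]) (PF.cons PF.nil PF.nil))))))) (PF.cons (PF.cons (PF.leaf (nat_lit 5246002) (nat_lit 1121664) (nat_lit 40911680) (nat_lit 18049960) [(nat_lit 0), (nat_lit 1121664), (nat_lit 0), (nat_lit 7025507)]) (PF.cons (PF.leaf (nat_lit 5414699) (nat_lit 262515) (nat_lit 40694582) (nat_lit 17993912) [(nat_lit 262515), (nat_lit 1134400), (nat_lit 0), (nat_lit 7023402)]) (PF.cons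
 (PF.leaf (nat_lit 5594762) (nat_lit 270729) (nat_lit 40465864) (nat_lit 17934310) [(nat_lit 270729), (nat_lit 1146650), (nat_lit 0), (nat_lit 7020527)]) (PF.cons (PF.leaf (nat_lit 5783222) (nat_lit 278128) (nat_lit 40227628) (nat_lit 17871629) [(nat_lit 278128), (nat_lit 1158334), (nat_lit 0), (nat_lit 7016834)]) (PF.cons PF.nil PF.nil))))) (PF.cons (PF.cons (PF.leaf (nat_lit 5787404) (nat_lit 1160602) (nat_lit 39976396) (nat_lit 17802883) [(nat_lit 0), (nat_lit 1160602), (nat_lit 0), (nat_lit 7008329)]) (PF.cons (PF.leaf (nat_lit 5972033) (nat_lit 281908) (nat_lit 39741580) (nat_lit 17739875) [(nat_lit 281908), (nat_lit 1171048), (nat_lit 0), (nat_lit 7003352)]) (PF.cons (PF.leaf (nat_lit 6165569) (nat_lit 288436) (nat_lit 39498401) (nat_lit 17674011) [(nat_lit 288436), (nat_lit 1181002), (nat_lit 0), (nat_lit 6997520)]) (PF.cons PF.nil PF.nil)))) (PF.cons (PF.cons (PF.leaf (nat_lit 6352914) (nat_lit 1191257) (nat_lit 39015339) (nat_lit 17539380)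 [(nat_lit 0), (nat_lit 1191257), (nat_lit 0), (nat_lit 6980319)]) (PF.cons PF.nil PF.nil)) (PF.cons PF.nil PF.nil))))) (PF.cons (PF.cons (PF.cons (PF.leaf (nat_lit 5721722) (nat_lit 2834077) (nat_lit 39600526) (nat_lit 17691954)
 [(nat_lit 0), (nat_lit 0), (nat_lit 2834077), (nat_lit 6982255)]) (PF.cons (PF.leaf (nat_lit 5893085) (nat_lit 271148) (nat_lit 39384740) (nat_lit 17633325) [(nat_lit 271148), (nat_lit 0), (nat_lit 2842415), (nat_lit 6977182)]) (PF.cons (PF.leaf (nat_lit 6075317) (nat_lit 278855) (nat_lit 39158137) (nat_lit 17571233) [(nat_lit 278855), (nat_lit 0), (nat_lit 2850461), (nat_lit 6971270)]) (PF.cons (PF.leaf (nat_lit 6265460) (nat_lit 285737) (nat_lit 38922805) (nat_lit 17506184) [(nat_lit 285737), (nat_lit 0), (nat_lit 2858101), (nat_lit 6964510)]) (PF.cons PF.nil PF.nil))))) (PF.cons (PF.cons (PF.leaf (nat_lit 6263463) (nat_lit 1179172) (nat_lit 38680203) (nat_lit 17436609) [(nat_lit 0), (nat_lit 1179172), (nat_lit 2859521),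 (nat_lit 6953304)]) (PF.cons (PF.leaf (nat_lit 6449404) (nat_lit 288628) (nat_lit 38449128) (nat_lit 17371606) [(nat_lit 288628), (nat_lit 1188010), (nat_lit 2865933), (nat_lit 6945505)]) (PF.cons PF.nil (PF.cons PF.nil PF.nil)))) (PF.cons (PF.cons (PF.leaf (nat_lit 6825739) (nat_lit 1204120) (nat_lit 37741604) (nat_lit 17167320) [(nat_lit 0), (nat_lit 1204120), (nat_lit 2876906), (nat_lit 6914739)]) (PF.cons PF.nil PF.nil)) PF.nil))) (PF.cons (PF.cons (PF.cons
 (PF.leaf (nat_lit 6727853) (nat_lit 2863487) (nat_lit 37428083) (nat_lit 17067349) [(nat_lit 0), (nat_lit 0), (nat_lit 2863487), (nat_lit 6886405)]) (PF.cons (PF.leaf (nat_lit 6914226) (nat_lit 293848) (nat_lit 37201992) (nat_lit 17001014) [(nat_lit 293848), (nat_lit 0), (nat_lit 2867853), (nat_lit 6876250)]) (PF.cons PF.nil PF.nil))) (PF.cons (PF.cons (PF.leaf (nat_lit 7285222) (nat_lit 1212288) (nat_lit 36515760) (nat_lit 16794789) [(nat_lit 0), (nat_lit 1212288), (nat_lit 2873392), (nat_lit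 6839188)]) PF.nil) PF.nil)) (PF.cons PF.nil (PF.cons PF.nil PF.nil))))) (PF.cons (PF.cons (PF.cons (PF.cons (PF.leaf (nat_lit 6410986) (nat_lit 6783349) (nat_lit 36728019) (nat_lit 16814094) [(nat_lit 0), (nat_lit 0), (nat_lit 0), (nat_lit 6783349)]) (PF.cons (PF.leaf (nat_lit 6578964) (nat_lit 271890) (nat_lit 36531307) (nat_lit 16755785) [(nat_lit 271890), (nat_lit 0), (nat_lit 0), (nat_lit 6774914)]) (PF.cons (PF.leaf (nat_lit 6757267) (nat_lit 279168) (nat_lit 36325035) (nat_lit 16694225) [(nat_lit 279168), (nat_lit 0), (nat_lit 0), (nat_lit 6765607)]) (PF.cons PF.nil (PF.cons PF.nil PF.nil))))) (PF.cons (PF.cons (PF.leaf (nat_lit 6934740) (nat_lit 1170365) (nat_lit 35893287) (nat_lit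
 16562288) [(nat_lit 0), (nat_lit 1170365), (nat_lit 0), (nat_lit 6741435)]) (PF.cons (PF.leaf (nat_lit 7115951) (nat_lit 287746) (nat_lit 35683702) (nat_lit 16498414) [(nat_lit 287746), (nat_lit 1177746), (nat_lit 0), (nat_lit 6730601)]) (PF.cons PF.nil (PF.cons PF.nil PF.nil)))) (PF.cons (PF.cons (PF.leaf (nat_lit 7475855) (nat_lit 1189985) (nat_lit 35045512) (nat_lit 16299599) [(nat_lit 0), (nat_lit 1189985), (nat_lit 0), (nat_lit 6691864)]) (PF.cons PF.nil PF.nil)) PF.nil))) (PF.cons (PF.cons (PF.cons (PF.leaf (nat_lit 7370931) (nat_lit 2806663) (nat_lit 34770796) (nat_lit 16206019) [(nat_lit 0), (nat_lit 0), (nat_lit 2806663), (nat_lit 6662666)]) (PF.cons (PF.leaf (nat_lit 7552017) (nat_lit 291498) (nat_lit 34566434) (nat_lit 16141619) [(nat_lit 291498), (nat_lit 0), (nat_lit 2808914), (nat_lit 6650172)]) PF.nil)) (PF.cons PF.nil PF.nil)) (PF.cons PF.nil PF.nil))) (PF.cons (PF.cons (PF.cons (PF.cons (PF.leaf (nat_lit 7961227) (nat_lit 6432440)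 (nat_lit 32414529) (nat_lit 15396963) [(nat_lit 0), (nat_lit 0), (nat_lit 0), (nat_lit 6432440)]) (PF.cons PF.nil PF.nil)) (PF.cons PF.nil PF.nil)) (PF.cons PF.nil PF.nil)) (PF.cons PF.nil (PF.cons PF.nil PF.nil))))))

def p12_8_3_0 : pfC (piC [(nat_lit 43428061), (nat_lit 27333682), (nat_lit 20249535), (nat_lit 13586793)] (nat_lit 5158383)) p12_8_3 (nat_lit 4) (nat_lit 0) (nat_lit 1) = true := by decide +kernel
def p12_8_3_1 : pfC (piC [(nat_lit 43428061), (nat_lit 27333682), (nat_lit 20249535), (nat_lit 13586793)] (nat_lit 5158383)) p12_8_3 (nat_lit 4) (nat_lit 1) (nat_lit 2) = true := by decide +kernel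
def p12_8_3_2 : pfC (piC [(nat_lit 43428061), (nat_lit 27333682), (nat_lit 20249535), (nat_lit 13586793)] (nat_lit 5158383)) p12_8_3 (nat_lit 4) (nat_lit 2) (nat_lit 3) = true := by decide +kernel
def p12_8_3_3 : pfC (piC [(nat_lit 43428061), (nat_lit 27333682), (nat_lit 20249535), (nat_lit 13586793)] (nat_lit 5158383)) p12_8_3 (nat_lit 4) (nat_lit 3) (nat_lit 4) = true := by decide +kernel
def p12_8_3_4 : pfC (piC [(nat_lit 43428061), (nat_lit 27333682), (nat_lit 20249535), (nat_lit 13586793)] (nat_lit 5158383)) p12_8_3 (nat_lit 4) (nat_lit 4) (nat_lit 5) = true := by decide +kernel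
def p12_8_3_5 : pfC (piC [(nat_lit 43428061), (nat_lit 27333682), (nat_lit 20249535), (nat_lit 13586793)] (nat_lit 5158383)) p12_8_3 (nat_lit 4) (nat_lit 5) (nat_lit 6) = true := by decide +kernel
def p12_8_3_6 : pfC (piC [(nat_lit 43428061), (nat_lit 27333682), (nat_lit 20249535), (nat_lit 13586793)] (nat_lit 5158383)) p12_8_3 (nat_lit 4) (nat_lit 6) (nat_lit 7) = true := by decide +kernel
def p12_8_3_7 : pfC (piC [(nat_lit 43428061), (nat_lit 27333682), (nat_lit 20249535), (nat_lit 13586793)] (nat_lit 5158383)) p12_8_3 (nat_lit 4) (nat_lit 7) (nat_lit 8) = true := by decide +kernel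
def p12_8_3_8 : pfC (piC [(nat_lit 43428061), (nat_lit 27333682), (nat_lit 20249535), (nat_lit 13586793)] (nat_lit 5158383)) p12_8_3 (nat_lit 4) (nat_lit 8) (nat_lit 9) = true := by decide +kernel
def p12_8_3_9 : pfC (piC [(nat_lit 43428061), (nat_lit 27333682), (nat_lit 20249535), (nat_lit 13586793)] (nat_lit 5158383)) p12_8_3 (nat_lit 4) (nat_lit 9) (nat_lit 10) = true := by decide +kernel
def p12_8_3_10 : pfC (piC [(nat_lit 43428061), (nat_lit 27333682), (nat_lit 20249535), (nat_lit 13586793)] (nat_lit 5158383)) p12_8_3 (nat_lit 4) (nat_lit 10) (nat_lit 11) = true := by decide +kernel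
def p12_8_3_11 : pfC (piC [(nat_lit 43428061), (nat_lit 27333682), (nat_lit 20249535), (nat_lit 13586793)] (nat_lit 5158383)) p12_8_3 (nat_lit 4) (nat_lit 11) (nat_lit 12) = true := by decide +kernel
def p12_8_3_12 : pfC (piC [(nat_lit 43428061), (nat_lit 27333682), (nat_lit 20249535), (nat_lit 13586793)] (nat_lit 5158383)) p12_8_3 (nat_lit 4) (nat_lit 12) (nat_lit 13) = true := by decide +kernel
def p12_8_3_13 : pfC (piC [(nat_lit 43428061), (nat_lit 27333682), (nat_lit 20249535), (nat_lit 13586793)] (nat_lit 5158383)) p12_8_3 (nat_lit 4) (nat_lit 13) (nat_lit 14) = true := by decide +kernel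
def p12_8_3_14 : pfC (piC [(nat_lit 43428061), (nat_lit 27333682), (nat_lit 20249535), (nat_lit 13586793)] (nat_lit 5158383)) p12_8_3 (nat_lit 4) (nat_lit 14) (nat_lit 15) = true := by decide +kernel
def p12_8_3_15 : pfC (piC [(nat_lit 43428061), (nat_lit 27333682), (nat_lit 20249535), (nat_lit 13586793)] (nat_lit 5158383)) p12_8_3 (nat_lit 4) (nat_lit 15) (nat_lit 16) = true := by decide +kernel
def p12_8_3_16 : pfC (piC [(nat_lit 43428061), (nat_lit 27333682), (nat_lit 20249535), (nat_lit 13586793)] (nat_lit 5158383)) p12_8_3 (nat_lit 4) (nat_lit 16) (nat_lit 17) = true := by decide +kernel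
def p12_8_3_17 : pfC (piC [(nat_lit 43428061), (nat_lit 27333682), (nat_lit 20249535), (nat_lit 13586793)] (nat_lit 5158383)) p12_8_3 (nat_lit 4) (nat_lit 17) (nat_lit 18) = true := by decide +kernel
def p12_8_3_18 : pfC (piC [(nat_lit 43428061), (nat_lit 27333682), (nat_lit 20249535), (nat_lit 13586793)] (nat_lit 5158383)) p12_8_3 (nat_lit 4) (nat_lit 18) (nat_lit 19) = true := by decide +kernel
def p12_8_3_19 : pfC (piC [(nat_lit 43428061), (nat_lit 27333682), (nat_lit 20249535), (nat_lit 13586793)] (nat_lit 5158383)) p12_8_3 (nat_lit 4) (nat_lit 19) (nat_lit 20) = true := by decide +kernel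
def p12_8_3_20 : pfC (piC [(nat_lit 43428061), (nat_lit 27333682), (nat_lit 20249535), (nat_lit 13586793)] (nat_lit 5158383)) p12_8_3 (nat_lit 4) (nat_lit 20) (nat_lit 21) = true := by decide +kernel
def p12_8_3_21 : pfC (piC [(nat_lit 43428061), (nat_lit 27333682), (nat_lit 20249535), (nat_lit 13586793)] (nat_lit 5158383)) p12_8_3 (nat_lit 4) (nat_lit 21) (nat_lit 22) = true := by decide +kernel
def p12_8_3_22 : pfC (piC [(nat_lit 43428061), (nat_lit 27333682), (nat_lit 20249535), (nat_lit 13586793)] (nat_lit 5158383)) p12_8_3 (nat_lit 4) (nat_lit 22) (nat_lit 23) = true := by decide +kernel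
def p12_8_3_23 : pfC (piC [(nat_lit 43428061), (nat_lit 27333682), (nat_lit 20249535), (nat_lit 13586793)] (nat_lit 5158383)) p12_8_3 (nat_lit 4) (nat_lit 23) (nat_lit 24) = true := by decide +kernel
def p12_8_3_24 : pfC (piC [(nat_lit 43428061), (nat_lit 27333682), (nat_lit 20249535), (nat_lit 13586793)] (nat_lit 5158383)) p12_8_3 (nat_lit 4) (nat_lit 24) (nat_lit 25) = true := by decide +kernel
def p12_8_3_25 : pfC (piC [(nat_lit 43428061), (nat_lit 27333682), (nat_lit 20249535), (nat_lit 13586793)] (nat_lit 5158383)) p12_8_3 (nat_lit 4) (nat_lit 25) (nat_lit 26) = true := by decide +kernel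
def p12_8_3_26 : pfC (piC [(nat_lit 43428061), (nat_lit 27333682), (nat_lit 20249535), (nat_lit 13586793)] (nat_lit 5158383)) p12_8_3 (nat_lit 4) (nat_lit 26) (nat_lit 27) = true := by decide +kernel
def p12_8_3_27 : pfC (piC [(nat_lit 43428061), (nat_lit 27333682), (nat_lit 20249535), (nat_lit 13586793)] (nat_lit 5158383)) p12_8_3 (nat_lit 4) (nat_lit 27) (nat_lit 28) = true := by decide +kernel
def p12_8_3_28 : pfC (piC [(nat_lit 43428061), (nat_lit 27333682), (nat_lit 20249535), (nat_lit 13586793)] (nat_lit 5158383)) p12_8_3 (nat_lit 4) (nat_lit 28) (nat_lit 29) = true := by decide +kernel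
def p12_8_3_29 : pfC (piC [(nat_lit 43428061), (nat_lit 27333682), (nat_lit 20249535), (nat_lit 13586793)] (nat_lit 5158383)) p12_8_3 (nat_lit 4) (nat_lit 29) (nat_lit 30) = true := by decide +kernel
def p12_8_3_30 : pfC (piC [(nat_lit 43428061), (nat_lit 27333682), (nat_lit 20249535), (nat_lit 13586793)] (nat_lit 5158383)) p12_8_3 (nat_lit 4) (nat_lit 30) (nat_lit 31) = true := by decide +kernel
def p12_8_3_31 : pfC (piC [(nat_lit 43428061), (nat_lit 27333682), (nat_lit 20249535), (nat_lit 13586793)] (nat_lit 5158383)) p12_8_3 (nat_lit 4) (nat_lit 31) (nat_lit 32) = true := by decide +kernel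
def p12_8_3_32 : pfC (piC [(nat_lit 43428061), (nat_lit 27333682), (nat_lit 20249535), (nat_lit 13586793)] (nat_lit 5158383)) p12_8_3 (nat_lit 4) (nat_lit 32) (nat_lit 33) = true := by decide +kernel
def p12_8_3_33 : pfC (piC [(nat_lit 43428061), (nat_lit 27333682), (nat_lit 20249535), (nat_lit 13586793)] (nat_lit 5158383)) p12_8_3 (nat_lit 4) (nat_lit 33) (nat_lit 34) = true := by decide +kernel
def p12_8_3_34 : pfC (piC [(nat_lit 43428061), (nat_lit 27333682), (nat_lit 20249535), (nat_lit 13586793)] (nat_lit 5158383)) p12_8_3 (nat_lit 4) (nat_lit 34) (nat_lit 35) = true := by decide +kernel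
def p12_8_3_35 : pfC (piC [(nat_lit 43428061), (nat_lit 27333682), (nat_lit 20249535), (nat_lit 13586793)] (nat_lit 5158383)) p12_8_3 (nat_lit 4) (nat_lit 35) (nat_lit 36) = true := by decide +kernel
def p12_8_3_36 : pfC (piC [(nat_lit 43428061), (nat_lit 27333682), (nat_lit 20249535), (nat_lit 13586793)] (nat_lit 5158383)) p12_8_3 (nat_lit 4) (nat_lit 36) (nat_lit 37) = true := by decide +kernel
def p12_8_3_37 : pfC (piC [(nat_lit 43428061), (nat_lit 27333682), (nat_lit 20249535), (nat_lit 13586793)] (nat_lit 5158383)) p12_8_3 (nat_lit 4) (nat_lit 37) (nat_lit 38) = true := by decide +kernel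
def p12_8_3_38 : pfC (piC [(nat_lit 43428061), (nat_lit 27333682), (nat_lit 20249535), (nat_lit 13586793)] (nat_lit 5158383)) p12_8_3 (nat_lit 4) (nat_lit 38) (nat_lit 39) = true := by decide +kernel
def p12_8_3_39 : pfC (piC [(nat_lit 43428061), (nat_lit 27333682), (nat_lit 20249535), (nat_lit 13586793)] (nat_lit 5158383)) p12_8_3 (nat_lit 4) (nat_lit 39) (nat_lit 40) = true := by decide +kernel
def p12_8_3_40 : pfC (piC [(nat_lit 43428061), (nat_lit 27333682), (nat_lit 20249535), (nat_lit 13586793)] (nat_lit 5158383)) p12_8_3 (nat_lit 4) (nat_lit 40) (nat_lit 41) = true := by decide +kernel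
def p12_8_3_41 : pfC (piC [(nat_lit 43428061), (nat_lit 27333682), (nat_lit 20249535), (nat_lit 13586793)] (nat_lit 5158383)) p12_8_3 (nat_lit 4) (nat_lit 41) (nat_lit 42) = true := by decide +kernel
def p12_8_3_42 : pfC (piC [(nat_lit 43428061), (nat_lit 27333682), (nat_lit 20249535), (nat_lit 13586793)] (nat_lit 5158383)) p12_8_3 (nat_lit 4) (nat_lit 42) (nat_lit 43) = true := by decide +kernel
def p12_8_3_43 : pfC (piC [(nat_lit 43428061), (nat_lit 27333682), (nat_lit 20249535), (nat_lit 13586793)] (nat_lit 5158383)) p12_8_3 (nat_lit 4) (nat_lit 43) (nat_lit 44) = true := by decide +kernel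
def p12_8_3_44 : pfC (piC [(nat_lit 43428061), (nat_lit 27333682), (nat_lit 20249535), (nat_lit 13586793)] (nat_lit 5158383)) p12_8_3 (nat_lit 4) (nat_lit 44) (nat_lit 45) = true := by decide +kernel
def p12_8_3_45 : pfC (piC [(nat_lit 43428061), (nat_lit 27333682), (nat_lit 20249535), (nat_lit 13586793)] (nat_lit 5158383)) p12_8_3 (nat_lit 4) (nat_lit 45) (nat_lit 46) = true := by decide +kernel
def p12_8_3_46 : pfC (piC [(nat_lit 43428061), (nat_lit 27333682), (nat_lit 20249535), (nat_lit 13586793)] (nat_lit 5158383)) p12_8_3 (nat_lit 4) (nat_lit 46) (nat_lit 47) = true := by decide +kernel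
def p12_8_3_47 : pfC (piC [(nat_lit 43428061), (nat_lit 27333682), (nat_lit 20249535), (nat_lit 13586793)] (nat_lit 5158383)) p12_8_3 (nat_lit 4) (nat_lit 47) (nat_lit 48) = true := by decide +kernel
def p12_8_3_48 : pfC (piC [(nat_lit 43428061), (nat_lit 27333682), (nat_lit 20249535), (nat_lit 13586793)] (nat_lit 5158383)) p12_8_3 (nat_lit 4) (nat_lit 48) (nat_lit 49) = true := by decide +kernel
def p12_8_3_49 : pfC (piC [(nat_lit 43428061), (nat_lit 27333682), (nat_lit 20249535), (nat_lit 13586793)] (nat_lit 5158383)) p12_8_3 (nat_lit 4) (nat_lit 49) (nat_lit 50) = true := by decide +kernel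
def p12_8_3_50 : pfC (piC [(nat_lit 43428061), (nat_lit 27333682), (nat_lit 20249535), (nat_lit 13586793)] (nat_lit 5158383)) p12_8_3 (nat_lit 4) (nat_lit 50) (nat_lit 51) = true := by decide +kernel
def p12_8_3_51 : pfC (piC [(nat_lit 43428061), (nat_lit 27333682), (nat_lit 20249535), (nat_lit 13586793)] (nat_lit 5158383)) p12_8_3 (nat_lit 4) (nat_lit 51) (nat_lit 52) = true := by decide +kernel
def p12_8_3_52 : pfC (piC [(nat_lit 43428061), (nat_lit 27333682), (nat_lit 20249535), (nat_lit 13586793)] (nat_lit 5158383)) p12_8_3 (nat_lit 4) (nat_lit 52) (nat_lit 53) = true := by decide +kernel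
def p12_8_3_53 : pfC (piC [(nat_lit 43428061), (nat_lit 27333682), (nat_lit 20249535), (nat_lit 13586793)] (nat_lit 5158383)) p12_8_3 (nat_lit 4) (nat_lit 53) (nat_lit 54) = true := by decide +kernel
def p12_8_3_54 : pfC (piC [(nat_lit 43428061), (nat_lit 27333682), (nat_lit 20249535), (nat_lit 13586793)] (nat_lit 5158383)) p12_8_3 (nat_lit 4) (nat_lit 54) (nat_lit 55) = true := by decide +kernel
def p12_8_3_55 : pfC (piC [(nat_lit 43428061), (nat_lit 27333682), (nat_lit 20249535), (nat_lit 13586793)] (nat_lit 5158383)) p12_8_3 (nat_lit 4) (nat_lit 55) (nat_lit 56) = true := by decide +kernel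
def p12_8_3_56 : pfC (piC [(nat_lit 43428061), (nat_lit 27333682), (nat_lit 20249535), (nat_lit 13586793)] (nat_lit 5158383)) p12_8_3 (nat_lit 4) (nat_lit 56) (nat_lit 57) = true := by decide +kernel
def p12_8_3_57 : pfC (piC [(nat_lit 43428061), (nat_lit 27333682), (nat_lit 20249535), (nat_lit 13586793)] (nat_lit 5158383)) p12_8_3 (nat_lit 4) (nat_lit 57) (nat_lit 58) = true := by decide +kernel
def p12_8_3_58 : pfC (piC [(nat_lit 43428061), (nat_lit 27333682), (nat_lit 20249535), (nat_lit 13586793)] (nat_lit 5158383)) p12_8_3 (nat_lit 4) (nat_lit 58) (nat_lit 59) = true := by decide +kernel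
def p12_8_3_59 : pfC (piC [(nat_lit 43428061), (nat_lit 27333682), (nat_lit 20249535), (nat_lit 13586793)] (nat_lit 5158383)) p12_8_3 (nat_lit 4) (nat_lit 59) (nat_lit 60) = true := by decide +kernel
def p12_8_3_60 : pfC (piC [(nat_lit 43428061), (nat_lit 27333682), (nat_lit 20249535), (nat_lit 13586793)] (nat_lit 5158383)) p12_8_3 (nat_lit 4) (nat_lit 60) (nat_lit 61) = true := by decide +kernel
def p12_8_3_61 : pfC (piC [(nat_lit 43428061), (nat_lit 27333682), (nat_lit 20249535), (nat_lit 13586793)] (nat_lit 5158383)) p12_8_3 (nat_lit 4) (nat_lit 61) (nat_lit 62) = true := by decide +kernel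
def p12_8_3_62 : pfC (piC [(nat_lit 43428061), (nat_lit 27333682), (nat_lit 20249535), (nat_lit 13586793)] (nat_lit 5158383)) p12_8_3 (nat_lit 4) (nat_lit 62) (nat_lit 63) = true := by decide +kernel
def p12_8_3_63 : pfC (piC [(nat_lit 43428061), (nat_lit 27333682), (nat_lit 20249535), (nat_lit 13586793)] (nat_lit 5158383)) p12_8_3 (nat_lit 4) (nat_lit 63) (nat_lit 64) = true := by decide +kernel
def p12_8_3_64 : pfC (piC [(nat_lit 43428061), (nat_lit 27333682), (nat_lit 20249535), (nat_lit 13586793)] (nat_lit 5158383)) p12_8_3 (nat_lit 4) (nat_lit 64) (nat_lit 65) = true := by decide +kernel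
def p12_8_3_65 : pfC (piC [(nat_lit 43428061), (nat_lit 27333682), (nat_lit 20249535), (nat_lit 13586793)] (nat_lit 5158383)) p12_8_3 (nat_lit 4) (nat_lit 65) (nat_lit 66) = true := by decide +kernel
def p12_8_3_66 : pfC (piC [(nat_lit 43428061), (nat_lit 27333682), (nat_lit 20249535), (nat_lit 13586793)] (nat_lit 5158383)) p12_8_3 (nat_lit 4) (nat_lit 66) (nat_lit 67) = true := by decide +kernel
def p12_8_3_67 : pfC (piC [(nat_lit 43428061), (nat_lit 27333682), (nat_lit 20249535), (nat_lit 13586793)] (nat_lit 5158383)) p12_8_3 (nat_lit 4) (nat_lit 67) (nat_lit 68) = true := by decide +kernel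
def p12_8_3_68 : pfC (piC [(nat_lit 43428061), (nat_lit 27333682), (nat_lit 20249535), (nat_lit 13586793)] (nat_lit 5158383)) p12_8_3 (nat_lit 4) (nat_lit 68) (nat_lit 69) = true := by decide +kernel
def p12_8_3_69 : pfC (piC [(nat_lit 43428061), (nat_lit 27333682), (nat_lit 20249535), (nat_lit 13586793)] (nat_lit 5158383)) p12_8_3 (nat_lit 4) (nat_lit 69) (nat_lit 70) = true := by decide +kernel
def p12_8_3_70 : pfC (piC [(nat_lit 43428061), (nat_lit 27333682), (nat_lit 20249535), (nat_lit 13586793)] (nat_lit 5158383)) p12_8_3 (nat_lit 4) (nat_lit 70) (nat_lit 71) = true := by decide +kernel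
def p12_8_3_71 : pfC (piC [(nat_lit 43428061), (nat_lit 27333682), (nat_lit 20249535), (nat_lit 13586793)] (nat_lit 5158383)) p12_8_3 (nat_lit 4) (nat_lit 71) (nat_lit 72) = true := by decide +kernel
def p12_8_3_72 : pfC (piC [(nat_lit 43428061), (nat_lit 27333682), (nat_lit 20249535), (nat_lit 13586793)] (nat_lit 5158383)) p12_8_3 (nat_lit 4) (nat_lit 72) (nat_lit 73) = true := by decide +kernel
def p12_8_3_73 : pfC (piC [(nat_lit 43428061), (nat_lit 27333682), (nat_lit 20249535), (nat_lit 13586793)] (nat_lit 5158383)) p12_8_3 (nat_lit 4) (nat_lit 73) (nat_lit 74) = true := by decide +kernel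
def p12_8_3_74 : pfC (piC [(nat_lit 43428061), (nat_lit 27333682), (nat_lit 20249535), (nat_lit 13586793)] (nat_lit 5158383)) p12_8_3 (nat_lit 4) (nat_lit 74) (nat_lit 75) = true := by decide +kernel
def p12_8_3_75 : pfC (piC [(nat_lit 43428061), (nat_lit 27333682), (nat_lit 20249535), (nat_lit 13586793)] (nat_lit 5158383)) p12_8_3 (nat_lit 4) (nat_lit 75) (nat_lit 76) = true := by decide +kernel
def p12_8_3_76 : pfC (piC [(nat_lit 43428061), (nat_lit 27333682), (nat_lit 20249535), (nat_lit 13586793)] (nat_lit 5158383)) p12_8_3 (nat_lit 4) (nat_lit 76) (nat_lit 77) = true := by decide +kernel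
def p12_8_3_77 : pfC (piC [(nat_lit 43428061), (nat_lit 27333682), (nat_lit 20249535), (nat_lit 13586793)] (nat_lit 5158383)) p12_8_3 (nat_lit 4) (nat_lit 77) (nat_lit 78) = true := by decide +kernel
def p12_8_3_78 : pfC (piC [(nat_lit 43428061), (nat_lit 27333682), (nat_lit 20249535), (nat_lit 13586793)] (nat_lit 5158383)) p12_8_3 (nat_lit 4) (nat_lit 78) (nat_lit 79) = true := by decide +kernel
def p12_8_3_79 : pfC (piC [(nat_lit 43428061), (nat_lit 27333682), (nat_lit 20249535), (nat_lit 13586793)] (nat_lit 5158383)) p12_8_3 (nat_lit 4) (nat_lit 79) (nat_lit 80) = true := by decide +kernel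
def p12_8_3_80 : pfC (piC [(nat_lit 43428061), (nat_lit 27333682), (nat_lit 20249535), (nat_lit 13586793)] (nat_lit 5158383)) p12_8_3 (nat_lit 4) (nat_lit 80) (nat_lit 81) = true := by decide +kernel
def p12_8_3_81 : pfC (piC [(nat_lit 43428061), (nat_lit 27333682), (nat_lit 20249535), (nat_lit 13586793)] (nat_lit 5158383)) p12_8_3 (nat_lit 4) (nat_lit 81) (nat_lit 82) = true := by decide +kernel
theorem p12_8_3_T : PfS (PiF n12_8.reverse (nat_lit 5158383)) p12_8_3 (nat_lit 4) [] 0 :=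
  pftab_of (los := [(nat_lit 43428061), (nat_lit 27333682), (nat_lit 20249535), (nat_lit 13586793)]) (by decide +kernel) (hi := (nat_lit 82)) (PfP.trans (PfP.trans (PfP.trans (PfP.trans (PfP.trans (PfP.trans (PfP.trans (PfP.trans (PfP.trans (PfP.trans (PfP.trans (PfP.trans (PfP.trans (PfP.trans (PfP.trans (PfP.trans (PfP.trans (PfP.trans (PfP.trans (PfP.trans (PfP.trans (PfP.trans (PfP.trans (PfP.trans (PfP.trans (PfP.trans (PfP.trans (PfP.trans (PfP.trans (PfP.trans (PfP.trans (PfP.trans (PfP.trans (PfP.trans (PfP.trans (PfP.trans (PfP.trans (PfP.trans (PfP.trans (PfP.trans (PfP.trans (PfP.trans (PfP.trans (PfP.trans (PfP.trans (PfP.trans (PfP.trans (PfP.trans (PfP.trans (PfP.trans (PfP.trans (PfP.trans (PfP.trans (PfP.trans (PfP.trans (PfP.trans (PfP.trans (PfP.trans (PfP.trans (PfP.trans (PfP.trans (PfP.trans (PfP.trans (PfP.trans (PfP.trans (PfP.trans (PfP.trans (PfP.trans (PfP.trans (PfP.trans (PfP.trans (PfP.trans (PfP.trans (PfP.trans (PfP.trans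 (PfP.trans (PfP.trans (PfP.trans (PfP.trans (PfP.trans (PfP.trans (pfC_sound p12_8_3_0) (pfC_sound p12_8_3_1)) (pfC_sound p12_8_3_2)) (pfC_sound p12_8_3_3)) (pfC_sound p12_8_3_4)) (pfC_sound p12_8_3_5)) (pfC_sound p12_8_3_6)) (pfC_sound p12_8_3_7)) (pfC_sound p12_8_3_8)) (pfC_sound p12_8_3_9)) (pfC_sound p12_8_3_10)) (pfC_sound p12_8_3_11)) (pfC_sound p12_8_3_12))
 (pfC_sound p12_8_3_13)) (pfC_sound p12_8_3_14)) (pfC_sound p12_8_3_15)) (pfC_sound p12_8_3_16)) (pfC_sound p12_8_3_17)) (pfC_sound p12_8_3_18)) (pfC_sound p12_8_3_19)) (pfC_sound p12_8_3_20)) (pfC_sound p12_8_3_21)) (pfC_sound p12_8_3_22)) (pfC_sound p12_8_3_23)) (pfC_sound p12_8_3_24)) (pfC_sound p12_8_3_25)) (pfC_sound p12_8_3_26)) (pfC_sound p12_8_3_27)) (pfC_sound p12_8_3_28)) (pfC_sound p12_8_3_29)) (pfC_sound p12_8_3_30)) (pfC_sound p12_8_3_31)) (pfC_sound p12_8_3_32)) (pfC_sound p12_8_3_33)) (pfC_sound p12_8_3_34)) (pfC_sound p12_8_3_35)) (pfC_sound p12_8_3_36)) (pfC_sound p12_8_3_37))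 (pfC_sound p12_8_3_38)) (pfC_sound p12_8_3_39)) (pfC_sound p12_8_3_40)) (pfC_sound p12_8_3_41)) (pfC_sound p12_8_3_42)) (pfC_sound p12_8_3_43)) (pfC_sound p12_8_3_44)) (pfC_sound p12_8_3_45)) (pfC_sound p12_8_3_46)) (pfC_sound p12_8_3_47)) (pfC_sound p12_8_3_48)) (pfC_sound p12_8_3_49)) (pfC_sound p12_8_3_50)) (pfC_sound p12_8_3_51)) (pfC_sound p12_8_3_52)) (pfC_sound p12_8_3_53)) (pfC_sound p12_8_3_54)) (pfC_sound p12_8_3_55)) (pfC_sound p12_8_3_56)) (pfC_sound p12_8_3_57)) (pfC_sound p12_8_3_58)) (pfC_sound p12_8_3_59)) (pfC_sound p12_8_3_60)) (pfC_sound p12_8_3_61)) (pfC_sound p12_8_3_62))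
 (pfC_sound p12_8_3_63)) (pfC_sound p12_8_3_64)) (pfC_sound p12_8_3_65)) (pfC_sound p12_8_3_66)) (pfC_sound p12_8_3_67)) (pfC_sound p12_8_3_68)) (pfC_sound p12_8_3_69)) (pfC_sound p12_8_3_70)) (pfC_sound p12_8_3_71)) (pfC_sound p12_8_3_72)) (pfC_sound p12_8_3_73)) (pfC_sound p12_8_3_74)) (pfC_sound p12_8_3_75)) (pfC_sound p12_8_3_76)) (pfC_sound p12_8_3_77)) (pfC_sound p12_8_3_78)) (pfC_sound p12_8_3_79)) (pfC_sound p12_8_3_80)) (pfC_sound p12_8_3_81)) (by decide +kernel)

def z12_8_3 : zOK yB12_8 (nat_lit 3) (nat_lit 750) (nat_lit 922) (nat_lit 5158383) (nat_lit 3681695) = true := by decide +kernel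
def g12_8_3 : gOK yB12_8.x P12_8 (nat_lit 1426) (q12_8 :: r12_8) (nat_lit 3) (nat_lit 750) (nat_lit 4) (nat_lit 922) (nat_lit 12712500) (nat_lit 12712500) (nat_lit 12712500) (nat_lit 12712500) [(nat_lit 800)] = true := by decide +kernel
def v12_8_3 : ivC P12_8 s12_8 w12_8 n12_8 (nat_lit 4) (nat_lit 4750) (nat_lit 3) (nat_lit 750) f136_1_750 f144_1_750 (nat_lit 4) (nat_lit 922) f136_1_922 f144_1_922 (nat_lit 5158383) (nat_lit 3681695) p12_8_3 = true := by decide +kernel
/-! box `yB12_9` -/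

def P12_9 : BQ := ⟨(nat_lit 8), (nat_lit 8), (nat_lit 0), (nat_lit 4), (nat_lit 4), (nat_lit 720), (nat_lit 740), (nat_lit 120), [(nat_lit 200), (nat_lit 300), (nat_lit 450), (nat_lit 800)], (nat_lit 82208000), (nat_lit 16000000), (nat_lit 16000000000)⟩
def q12_9 : PC := ⟨(nat_lit 1000), [(nat_lit 120000), (nat_lit 200000), (nat_lit 300000), (nat_lit 450000), (nat_lit 800000)], (nat_lit 340282367000166625996085689103316680705000000), (nat_lit 15917792000000), (nat_lit 15917792000000), (nat_lit 10000000)⟩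
def r12_9 : List PC := [⟨(nat_lit 1334), [(nat_lit 120599), (nat_lit 201171), (nat_lit 301662), (nat_lit 451952), (nat_lit 800520)], (nat_lit 342168211878153171696249577212458302163602495), (nat_lit 16347092104960), (nat_lit 16359448341440), (nat_lit 10058550)⟩]
def s12_9 : List PB := [⟨(nat_lit 26680), (nat_lit 1929584000000), [(nat_lit 201171), (nat_lit 301662), (nat_lit 451952), (nat_lit 800520)], (nat_lit 342168211878153171696249577212458302163602495), (nat_lit 1142246998947584), (nat_lit 1142259355184064), (nat_lit 53440)⟩]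
def n12_9 : List KN := [⟨(nat_lit 800), (nat_lit 450), (nat_lit 13470738), (nat_lit 6348784)⟩, ⟨(nat_lit 450), (nat_lit 300), (nat_lit 20024807), (nat_lit 13470738)⟩, ⟨(nat_lit 300), (nat_lit 200), (nat_lit 27030628), (nat_lit 20024807)⟩, ⟨(nat_lit 200), (nat_lit 120), (nat_lit 42686981), (nat_lit 27030628)⟩]
def w12_9 : List ℕ := [(nat_lit 53440)]
def par12_9 : parC yB12_9 P12_9 s12_9 r12_9 q12_9 n12_9 w12_9 = true := by decide +kernel

def p12_9_0 : PF := (PF.cons (PF.cons (PF.cons (PF.cons (PF.leaf (nat_lit 396719) (nat_lit 1030426) (nat_lit 66078386) (nat_lit 1030426) [(nat_lit 0), (nat_lit 0), (nat_lit 0), (nat_lit 0)]) (PF.cons (PF.leaf (nat_lit 482000) (nat_lit 129147) (nat_lit 65912622) (nat_lit 1067043) [(nat_lit 129147), (nat_lit 0), (nat_lit 0), (nat_lit 0)]) (PF.cons (PF.leaf (nat_lit 593538) (nat_lit 143961) (nat_lit 65713267) (nat_lit 1107623) [(nat_lit 143961), (nat_lit 0), (nat_lit 0), (nat_lit 0)]) (PF.cons (PF.leaf (nat_lit 722233)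 (nat_lit 158150) (nat_lit 65483785) (nat_lit 1150575) [(nat_lit 158150), (nat_lit 0), (nat_lit 0), (nat_lit 0)]) (PF.cons (PF.leaf (nat_lit 866755) (nat_lit 171860) (nat_lit 65226514) (nat_lit 1194856) [(nat_lit 171860), (nat_lit 0), (nat_lit 0), (nat_lit 0)]) (PF.cons (PF.leaf (nat_lit 1027031) (nat_lit 185163) (nat_lit 64943254) (nat_lit 1239740) [(nat_lit 185163), (nat_lit 0), (nat_lit 0), (nat_lit 0)]) (PF.cons (PF.leaf (nat_lit 1201870) (nat_lit 198095) (nat_lit 64635532) (nat_lit 1284710) [(nat_lit 198095), (nat_lit 0), (nat_lit 0), (nat_lit 0)]) (PF.cons PF.nil (PF.cons PF.nil PF.nil))))))))) (PF.cons (PF.cons (PF.leaf (nat_lit 801283) (nat_lit 795234) (nat_lit 65115270) (nat_lit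
 1198308) [(nat_lit 0), (nat_lit 795234), (nat_lit 0), (nat_lit 0)]) (PF.cons (PF.leaf (nat_lit 931173) (nat_lit 174604) (nat_lit 64870360) (nat_lit 1236898) [(nat_lit 174604), (nat_lit 826949), (nat_lit 0), (nat_lit 0)]) (PF.cons (PF.leaf (nat_lit 1081367) (nat_lit 187959) (nat_lit 64596035) (nat_lit 1277147) [(nat_lit 187959), (nat_lit 859710), (nat_lit 0), (nat_lit 0)]) (PF.cons (PF.leaf (nat_lit 1247500) (nat_lit 200839) (nat_lit 64295165) (nat_lit 1318228) [(nat_lit 200839), (nat_lit 892899), (nat_lit 0), (nat_lit 0)]) (PF.cons (PF.leaf (nat_lit 1428209) (nat_lit 213308) (nat_lit 63969898) (nat_lit 1359570) [(nat_lit 213308), (nat_lit 926109), (nat_lit 0), (nat_lit 0)]) (PF.cons (PF.leaf (nat_lit 1622565) (nat_lit 225399) (nat_lit 63622002) (nat_lit 1400761) [(nat_lit 225399), (nat_lit 959053), (nat_lit 0), (nat_lit 0)]) (PF.cons PF.nil PF.nil))))))) (PF.cons (PF.cons (PF.leaf (nat_lit 1307975) (nat_lit 918035) (nat_lit 63919202) (nat_lit 1353539)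 [(nat_lit 0), (nat_lit 918035), (nat_lit 0), (nat_lit 0)]) (PF.cons (PF.leaf (nat_lit 1475661) (nat_lit 215177) (nat_lit 63605918) (nat_lit 1390976) [(nat_lit 215177), (nat_lit 948370), (nat_lit 0), (nat_lit 0)]) (PF.cons (PF.leaf
 (nat_lit 1660450) (nat_lit 227287) (nat_lit 63267495) (nat_lit 1428885) [(nat_lit 227287), (nat_lit 978928), (nat_lit 0), (nat_lit 0)]) (PF.cons (PF.leaf (nat_lit 1859200) (nat_lit 238970) (nat_lit 62906365) (nat_lit 1466797) [(nat_lit 238970), (nat_lit 1009368), (nat_lit 0), (nat_lit 0)]) (PF.cons PF.nil PF.nil))))) (PF.cons (PF.cons (PF.leaf (nat_lit 1900461) (nat_lit 1028079) (nat_lit 62531325) (nat_lit 1493250) [(nat_lit 0), (nat_lit 1028079), (nat_lit 0), (nat_lit 0)]) (PF.cons (PF.leaf (nat_lit 2100259) (nat_lit 251446) (nat_lit 62161015) (nat_lit 1528004) [(nat_lit 251446), (nat_lit 1056115), (nat_lit 0), (nat_lit 0)]) (PF.cons (PF.leaf (nat_lit 2314672) (nat_lit 262364) (nat_lit 61769769) (nat_lit 1562562) [(nat_lit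 262364), (nat_lit 1083917), (nat_lit 0), (nat_lit 0)]) (PF.cons PF.nil PF.nil)))) (PF.cons (PF.cons (PF.leaf (nat_lit 2562936) (nat_lit 1125209) (nat_lit 60991538) (nat_lit 1616437) [(nat_lit 0), (nat_lit 1125209), (nat_lit 0), (nat_lit 0)]) (PF.cons (PF.leaf (nat_lit 2789538) (nat_lit 283629) (nat_lit 60575563) (nat_lit 1647727) [(nat_lit 283629), (nat_lit 1150473), (nat_lit 0), (nat_lit 0)]) PF.nil)) (PF.cons PF.nil (PF.cons PF.nil (PF.cons PF.nil
 PF.nil)))))))) (PF.cons (PF.cons (PF.cons (PF.leaf (nat_lit 1364468) (nat_lit 1378087) (nat_lit 63186931) (nat_lit 1378087) [(nat_lit 0), (nat_lit 0), (nat_lit 2543793), (nat_lit 0)]) (PF.cons (PF.leaf (nat_lit 1513661) (nat_lit 207352) (nat_lit 62904304) (nat_lit 1411332) [(nat_lit 207352), (nat_lit 0), (nat_lit 2585823), (nat_lit 0)]) (PF.cons (PF.leaf (nat_lit 1682313) (nat_lit 220584) (nat_lit 62591952) (nat_lit 1445807) [(nat_lit 220584), (nat_lit 0), (nat_lit 2629884), (nat_lit 0)]) (PF.cons (PF.leaf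 (nat_lit 1866408) (nat_lit 233074) (nat_lit 62253739) (nat_lit 1480818) [(nat_lit 233074), (nat_lit 0), (nat_lit 2675030), (nat_lit 0)]) (PF.cons (PF.leaf (nat_lit 2064270) (nat_lit 244959) (nat_lit 61892504) (nat_lit 1515891) [(nat_lit 244959), (nat_lit 0), (nat_lit 2720578), (nat_lit 0)]) (PF.cons (PF.leaf (nat_lit 2275070) (nat_lit 256320) (nat_lit 61510509) (nat_lit 1550685) [(nat_lit 256320), (nat_lit 0), (nat_lit 2766014), (nat_lit 0)]) (PF.cons PF.nil PF.nil))))))) (PF.cons (PF.cons (PF.leaf (nat_lit 1918868) (nat_lit 1033442) (nat_lit 61851280) (nat_lit 1508165) [(nat_lit 0), (nat_lit 1033442), (nat_lit 2715924), (nat_lit 0)]) (PF.cons (PF.leaf (nat_lit 2102666) (nat_lit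
 245067) (nat_lit 61506768) (nat_lit 1540042) [(nat_lit 245067), (nat_lit 1059918), (nat_lit 2757015), (nat_lit 0)]) (PF.cons (PF.leaf (nat_lit 2302664) (nat_lit 256637) (nat_lit 61138301) (nat_lit 1572166) [(nat_lit 256637), (nat_lit 1086423), (nat_lit 2798645), (nat_lit 0)]) (PF.cons (PF.leaf (nat_lit 2515565) (nat_lit 267636) (nat_lit 60748827) (nat_lit 1604145) [(nat_lit 267636), (nat_lit 1112674), (nat_lit 2840255), (nat_lit 0)]) (PF.cons PF.nil PF.nil))))) (PF.cons (PF.cons (PF.leaf (nat_lit 2546595) (nat_lit 1126834) (nat_lit 60359978) (nat_lit 1624371) [(nat_lit 0), (nat_lit 1126834), (nat_lit 2870792), (nat_lit 0)]) (PF.cons (PF.leaf (nat_lit 2758985) (nat_lit 277969) (nat_lit 59966669) (nat_lit 1653614) [(nat_lit 277969), (nat_lit 1150967), (nat_lit 2908626), (nat_lit 0)]) (PF.cons (PF.leaf (nat_lit 2984805) (nat_lit 288139) (nat_lit 59554305) (nat_lit 1682558) [(nat_lit 288139), (nat_lit 1174765), (nat_lit 2946138), (nat_lit 0)]) (PF.cons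 PF.nil PF.nil)))) (PF.cons (PF.cons (PF.leaf (nat_lit 3232071) (nat_lit 1208357) (nat_lit 58752547) (nat_lit 1725786) [(nat_lit 0), (nat_lit 1208357), (nat_lit 3005406), (nat_lit 0)]) (PF.cons PF.nil PF.nil)) (PF.cons PF.nil (PF.cons
 PF.nil PF.nil)))))) (PF.cons (PF.cons (PF.cons (PF.leaf (nat_lit 2542354) (nat_lit 1631467) (nat_lit 59692479) (nat_lit 1631467) [(nat_lit 0), (nat_lit 0), (nat_lit 2892432), (nat_lit 0)]) (PF.cons (PF.leaf (nat_lit 2738311) (nat_lit 270076) (nat_lit 59327817) (nat_lit 1658560) [(nat_lit 270076), (nat_lit 0), (nat_lit 2926179), (nat_lit 0)]) (PF.cons (PF.leaf (nat_lit 2949526) (nat_lit 281073) (nat_lit 58940624) (nat_lit 1685707) [(nat_lit 281073), (nat_lit 0), (nat_lit 2960167), (nat_lit 0)]) (PF.cons (PF.leaf (nat_lit 3172828) (nat_lit 291385) (nat_lit 58534197) (nat_lit 1712586) [(nat_lit 291385), (nat_lit 0), (nat_lit 2993936), (nat_lit 0)]) (PF.cons PF.nil PF.nil))))) (PF.cons (PF.cons (PF.leaf (nat_lit 3193528)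 (nat_lit 1205898) (nat_lit 58141685) (nat_lit 1727806) [(nat_lit 0), (nat_lit 1205898), (nat_lit 3016710), (nat_lit 0)]) (PF.cons (PF.leaf (nat_lit 3414940) (nat_lit 299850) (nat_lit 57735693) (nat_lit 1752283) [(nat_lit 299850), (nat_lit 1226589), (nat_lit 3047197), (nat_lit 0)]) (PF.cons (PF.leaf (nat_lit 3648645) (nat_lit 309297) (nat_lit 57312485) (nat_lit 1776379) [(nat_lit 309297), (nat_lit 1246872), (nat_lit 3077240), (nat_lit 0)]) (PF.cons PF.nil PF.nil))))
 (PF.cons (PF.cons (PF.leaf (nat_lit 3892025) (nat_lit 1273947) (nat_lit 56504839) (nat_lit 1810688) [(nat_lit 0), (nat_lit 1273947), (nat_lit 3122695), (nat_lit 0)]) (PF.cons PF.nil PF.nil)) (PF.cons PF.nil (PF.cons PF.nil PF.nil))))) (PF.cons (PF.cons (PF.cons (PF.leaf (nat_lit 3833404) (nat_lit 1808299) (nat_lit 55921817) (nat_lit 1808299) [(nat_lit 0), (nat_lit 0), (nat_lit 3126232), (nat_lit 0)]) (PF.cons (PF.leaf (nat_lit 4060852) (nat_lit 317738) (nat_lit 55511267) (nat_lit 1828615)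 [(nat_lit 317738), (nat_lit 0), (nat_lit 3150397), (nat_lit 0)]) (PF.cons PF.nil (PF.cons PF.nil PF.nil)))) (PF.cons (PF.cons (PF.leaf (nat_lit 4537066) (nat_lit 1324817) (nat_lit 54284879) (nat_lit 1875273) [(nat_lit 0), (nat_lit 1324817), (nat_lit 3207947), (nat_lit 0)]) (PF.cons PF.nil PF.nil)) (PF.cons PF.nil PF.nil))) (PF.cons (PF.cons (PF.cons (PF.leaf (nat_lit 5163313) (nat_lit 1922916) (nat_lit 52118732) (nat_lit 1922916) [(nat_lit 0), (nat_lit 0), (nat_lit 3266791), (nat_lit 0)]) (PF.cons PF.nil PF.nil)) (PF.cons PF.nil PF.nil)) (PF.cons PF.nil PF.nil)))))) (PF.cons (PF.cons (PF.cons (PF.cons (PF.leaf (nat_lit 2511113) (nat_lit 1573360) (nat_lit 57250745) (nat_lit 1573360) [(nat_lit 0),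
 (nat_lit 0), (nat_lit 0), (nat_lit 8284707)]) (PF.cons (PF.leaf (nat_lit 2672715) (nat_lit 240438) (nat_lit 56960337) (nat_lit 1599873) [(nat_lit 240438), (nat_lit 0), (nat_lit 0), (nat_lit 8308163)]) (PF.cons (PF.leaf (nat_lit 2852675) (nat_lit 253609) (nat_lit 56642369) (nat_lit 1626907) [(nat_lit 253609), (nat_lit 0), (nat_lit 0), (nat_lit 8332316)]) (PF.cons (PF.leaf (nat_lit 3047080) (nat_lit 265688) (nat_lit 56301317) (nat_lit 1653920) [(nat_lit 265688), (nat_lit 0), (nat_lit 0), (nat_lit 8356510)]) (PF.cons (PF.leaf (nat_lit 3254024) (nat_lit 276883) (nat_lit 55940468) (nat_lit 1680565) [(nat_lit 276883), (nat_lit 0), (nat_lit 0), (nat_lit 8380244)]) (PF.cons (PF.leaf (nat_lit 3472341) (nat_lit 287334) (nat_lit 55562400) (nat_lit 1706612) [(nat_lit 287334), (nat_lit 0), (nat_lit 0), (nat_lit 8403126)]) (PF.cons (PF.leaf (nat_lit 3700803) (nat_lit 297137) (nat_lit 55169242) (nat_lit 1731904) [(nat_lit 297137), (nat_lit 0), (nat_lit 0), (nat_lit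 8424842)]) (PF.cons PF.nil (PF.cons PF.nil PF.nil))))))))) (PF.cons (PF.cons (PF.leaf (nat_lit 3083676) (nat_lit 1153261) (nat_lit 55907698) (nat_lit 1671076) [(nat_lit 0), (nat_lit 1153261), (nat_lit 0), (nat_lit 8376776)]) (PF.cons
 (PF.leaf (nat_lit 3275556) (nat_lit 274827) (nat_lit 55566700) (nat_lit 1695253) [(nat_lit 274827), (nat_lit 1174685), (nat_lit 0), (nat_lit 8397345)]) (PF.cons (PF.leaf (nat_lit 3481968) (nat_lit 285671) (nat_lit 55204982) (nat_lit 1719279) [(nat_lit 285671), (nat_lit 1195779), (nat_lit 0), (nat_lit 8417428)]) (PF.cons (PF.leaf (nat_lit 3700042) (nat_lit 295740) (nat_lit 54825746) (nat_lit 1742873) [(nat_lit 295740), (nat_lit 1216346), (nat_lit 0), (nat_lit 8436624)]) (PF.cons (PF.leaf (nat_lit 3928349) (nat_lit 305148) (nat_lit 54431474) (nat_lit 1765849) [(nat_lit 305148), (nat_lit 1236265), (nat_lit 0), (nat_lit 8454629)]) (PF.cons (PF.leaf (nat_lit 4165875) (nat_lit 313975) (nat_lit 54024191) (nat_lit 1788081)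 [(nat_lit 313975), (nat_lit 1255460), (nat_lit 0), (nat_lit 8471203)]) (PF.cons PF.nil PF.nil))))))) (PF.cons (PF.cons (PF.leaf (nat_lit 3713156) (nat_lit 1224375) (nat_lit 54457342) (nat_lit 1754606) [(nat_lit 0), (nat_lit 1224375), (nat_lit 0), (nat_lit 8448112)]) (PF.cons (PF.leaf (nat_lit 3928716) (nat_lit 303223) (nat_lit 54079901) (nat_lit 1775893) [(nat_lit 303223), (nat_lit 1243055), (nat_lit 0), (nat_lit 8463682)]) (PF.cons (PF.leaf (nat_lit 4155923) (nat_lit
 312321) (nat_lit 53686954) (nat_lit 1796699) [(nat_lit 312321), (nat_lit 1261222), (nat_lit 0), (nat_lit 8478071)]) (PF.cons (PF.leaf (nat_lit 4392501) (nat_lit 320817) (nat_lit 53280894) (nat_lit 1816874) [(nat_lit 320817), (nat_lit 1278772), (nat_lit 0), (nat_lit 8491045)]) (PF.cons PF.nil PF.nil))))) (PF.cons (PF.cons (PF.leaf (nat_lit 4384754) (nat_lit 1283985) (nat_lit 52936778) (nat_lit 1824705) [(nat_lit 0), (nat_lit 1283985), (nat_lit 0), (nat_lit 8495372)]) (PF.cons (PF.leaf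 (nat_lit 4618613) (nat_lit 326921) (nat_lit 52534089) (nat_lit 1842939) [(nat_lit 326921), (nat_lit 1299987), (nat_lit 0), (nat_lit 8504900)]) (PF.cons (PF.leaf (nat_lit 4861889) (nat_lit 334602) (nat_lit 52120002) (nat_lit 1860535) [(nat_lit 334602), (nat_lit 1315396), (nat_lit 0), (nat_lit 8512879)]) (PF.cons PF.nil PF.nil)))) (PF.cons (PF.cons (PF.leaf (nat_lit 5086279) (nat_lit 1333297) (nat_lit 51375523) (nat_lit 1882330) [(nat_lit 0), (nat_lit 1333297), (nat_lit 0), (nat_lit 8517769)]) (PF.cons (PF.leaf (nat_lit 5334083) (nat_lit 346701) (nat_lit 50956625) (nat_lit 1897547) [(nat_lit 346701), (nat_lit 1346755), (nat_lit 0), (nat_lit 8520915)]) PF.nil)) (PF.cons PF.nil PF.nil)))))) (PF.cons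
 (PF.cons (PF.cons (PF.leaf (nat_lit 3674551) (nat_lit 1749665) (nat_lit 53853620) (nat_lit 1749665) [(nat_lit 0), (nat_lit 0), (nat_lit 3060509), (nat_lit 8445017)]) (PF.cons (PF.leaf (nat_lit 3873707) (nat_lit 292772) (nat_lit 53506088) (nat_lit 1769893) [(nat_lit 292772), (nat_lit 0), (nat_lit 3082613), (nat_lit 8457445)]) (PF.cons (PF.leaf (nat_lit 4086600) (nat_lit 302967) (nat_lit 53139364) (nat_lit 1789883) [(nat_lit 302967), (nat_lit 0), (nat_lit 3104592), (nat_lit 8469036)]) (PF.cons (PF.leaf (nat_lit 4310372) (nat_lit 312326) (nat_lit 52756774) (nat_lit 1809410) [(nat_lit 312326), (nat_lit 0), (nat_lit 3126144), (nat_lit 8479504)]) (PF.cons (PF.leaf (nat_lit 4543546) (nat_lit 320984) (nat_lit 52360859) (nat_lit 1828322) [(nat_lit 320984), (nat_lit 0), (nat_lit 3147053), (nat_lit 8488639)]) (PF.cons PF.nil (PF.cons PF.nil PF.nil))))))) (PF.cons (PF.cons (PF.leaf (nat_lit 4314095) (nat_lit 1274892) (nat_lit 52395755) (nat_lit 1817639) [(nat_lit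 0), (nat_lit 1274892), (nat_lit 3137705), (nat_lit 8482820)]) (PF.cons (PF.leaf (nat_lit 4534371) (nat_lit 318286) (nat_lit 52017643) (nat_lit 1835194) [(nat_lit 318286), (nat_lit 1290742), (nat_lit 3156796), (nat_lit 8490149)])
 (PF.cons (PF.leaf (nat_lit 4765491) (nat_lit 326697) (nat_lit 51625590) (nat_lit 1852253) [(nat_lit 326697), (nat_lit 1306067), (nat_lit 3175341), (nat_lit 8496166)]) (PF.cons (PF.leaf (nat_lit 5005199) (nat_lit 334477) (nat_lit 51222006) (nat_lit 1868696) [(nat_lit 334477), (nat_lit 1320787), (nat_lit 3193171), (nat_lit 8500718)]) (PF.cons PF.nil PF.nil))))) (PF.cons (PF.cons (PF.leaf (nat_lit 4988233) (nat_lit 1323964) (nat_lit 50888429) (nat_lit 1873794) [(nat_lit 0), (nat_lit 1323964), (nat_lit 3200270), (nat_lit 8498388)]) (PF.cons (PF.leaf (nat_lit 5224507) (nat_lit 339265) (nat_lit 50490293) (nat_lit 1888578) [(nat_lit 339265), (nat_lit 1337350), (nat_lit 3215938), (nat_lit 8500035)]) (PF.cons (PF.leaf (nat_lit 5469378)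 (nat_lit 346266) (nat_lit 50082202) (nat_lit 1902750) [(nat_lit 346266), (nat_lit 1350161), (nat_lit 3230852), (nat_lit 8500150)]) (PF.cons PF.nil PF.nil)))) (PF.cons (PF.cons (PF.leaf (nat_lit 5685841) (nat_lit 1363898) (nat_lit 49357574) (nat_lit 1919013) [(nat_lit 0), (nat_lit 1363898), (nat_lit 3248614), (nat_lit 8491914)]) (PF.cons PF.nil PF.nil)) (PF.cons PF.nil PF.nil))))) (PF.cons (PF.cons (PF.cons (PF.leaf (nat_lit 4901976) (nat_lit 1864592)
 (nat_lit 50381008) (nat_lit 1864592) [(nat_lit 0), (nat_lit 0), (nat_lit 3192749), (nat_lit 8477712)]) (PF.cons (PF.leaf (nat_lit 5125105) (nat_lit 330348) (nat_lit 50006934) (nat_lit 1878943) [(nat_lit 330348), (nat_lit 0), (nat_lit 3207306), (nat_lit 8477972)]) (PF.cons (PF.leaf (nat_lit 5358323) (nat_lit 338124) (nat_lit 49620327) (nat_lit 1892790) [(nat_lit 338124), (nat_lit 0), (nat_lit 3221292), (nat_lit 8476859)]) (PF.cons (PF.leaf (nat_lit 5599424) (nat_lit 345252) (nat_lit 49223571) (nat_lit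 1906041) [(nat_lit 345252), (nat_lit 0), (nat_lit 3234577), (nat_lit 8474287)]) (PF.cons PF.nil PF.nil))))) (PF.cons (PF.cons (PF.leaf (nat_lit 5573937) (nat_lit 1353599) (nat_lit 48902911) (nat_lit 1908931) [(nat_lit 0), (nat_lit 1353599), (nat_lit 3238369), (nat_lit 8466631)]) (PF.cons (PF.leaf (nat_lit 5811031) (nat_lit 348915) (nat_lit 48513091) (nat_lit 1920763) [(nat_lit 348915), (nat_lit 1364723), (nat_lit 3249826), (nat_lit 8461667)]) (PF.cons PF.nil (PF.cons PF.nil PF.nil)))) (PF.cons (PF.cons (PF.leaf (nat_lit 6264094) (nat_lit 1385535) (nat_lit 47414552) (nat_lit 1943661) [(nat_lit 0), (nat_lit 1385535), (nat_lit 3271596), (nat_lit 8436336)]) (PF.cons PF.nil PF.nil))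
 PF.nil))) (PF.cons (PF.cons (PF.cons (PF.leaf (nat_lit 6140218) (nat_lit 1932510) (nat_lit 46991680) (nat_lit 1932510) [(nat_lit 0), (nat_lit 0), (nat_lit 3259236), (nat_lit 8406912)]) (PF.cons (PF.leaf (nat_lit 6376895) (nat_lit 356279) (nat_lit 46612829) (nat_lit 1941817) [(nat_lit 356279), (nat_lit 0), (nat_lit 3267135), (nat_lit 8396479)]) PF.nil)) (PF.cons PF.nil PF.nil)) (PF.cons PF.nil (PF.cons PF.nil PF.nil)))))) (PF.cons (PF.cons (PF.cons (PF.cons (PF.leaf (nat_lit 4674689) (nat_lit 1797653) (nat_lit 48655170) (nat_lit 1797653) [(nat_lit 0), (nat_lit 0), (nat_lit 0), (nat_lit 8327994)]) (PF.cons (PF.leaf (nat_lit 4871972) (nat_lit 303901) (nat_lit 48338119) (nat_lit 1812966) [(nat_lit 303901), (nat_lit 0), (nat_lit 0), (nat_lit 8326913)]) (PF.cons (PF.leaf (nat_lit 5081835) (nat_lit 313354) (nat_lit 48004785) (nat_lit 1827885) [(nat_lit 313354), (nat_lit 0), (nat_lit 0), (nat_lit 8324716)]) (PF.cons (PF.leaf (nat_lit 5301432) (nat_lit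 321887) (nat_lit 47658286) (nat_lit 1842250) [(nat_lit 321887), (nat_lit 0), (nat_lit 0), (nat_lit 8321306)]) (PF.cons (PF.leaf (nat_lit 5529384) (nat_lit 329660) (nat_lit 47300979) (nat_lit 1855966) [(nat_lit 329660), (nat_lit 0), (nat_lit
 0), (nat_lit 8316612)]) (PF.cons (PF.leaf (nat_lit 5764587) (nat_lit 336786) (nat_lit 46934737) (nat_lit 1868975) [(nat_lit 336786), (nat_lit 0), (nat_lit 0), (nat_lit 8310583)]) (PF.cons PF.nil PF.nil))))))) (PF.cons (PF.cons (PF.leaf (nat_lit 5292228) (nat_lit 1300079) (nat_lit 47337362) (nat_lit 1845987) [(nat_lit 0), (nat_lit 1300079), (nat_lit 0), (nat_lit 8312692)]) (PF.cons (PF.leaf (nat_lit 5507507) (nat_lit 326068) (nat_lit 46996978) (nat_lit 1858738) [(nat_lit 326068), (nat_lit 1312450), (nat_lit 0), (nat_lit 8307288)]) (PF.cons (PF.leaf (nat_lit 5732545) (nat_lit 333634) (nat_lit 46645138) (nat_lit 1870953) [(nat_lit 333634), (nat_lit 1324247), (nat_lit 0), (nat_lit 8300602)]) (PF.cons (PF.leaf (nat_lit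 5965136) (nat_lit 340531) (nat_lit 46284041) (nat_lit 1882554) [(nat_lit 340531), (nat_lit 1335423), (nat_lit 0), (nat_lit 8292599)]) (PF.cons PF.nil PF.nil))))) (PF.cons (PF.cons (PF.leaf (nat_lit 5936111) (nat_lit 1335972) (nat_lit 45990703) (nat_lit 1884092) [(nat_lit 0), (nat_lit 1335972), (nat_lit 0), (nat_lit 8281035)]) (PF.cons (PF.leaf (nat_lit 6164607) (nat_lit 343718) (nat_lit 45636140) (nat_lit 1894381) [(nat_lit 343718), (nat_lit 1346055), (nat_lit 0),
 (nat_lit 8271230)]) (PF.cons (PF.leaf (nat_lit 6400752) (nat_lit 349858) (nat_lit 45273644) (nat_lit 1904089) [(nat_lit 349858), (nat_lit 1355572), (nat_lit 0), (nat_lit 8260107)]) (PF.cons PF.nil PF.nil)))) (PF.cons (PF.cons (PF.leaf (nat_lit 6596795) (nat_lit 1363974) (nat_lit 44635933) (nat_lit 1913146) [(nat_lit 0), (nat_lit 1363974), (nat_lit 0), (nat_lit 8233905)]) (PF.cons PF.nil PF.nil)) (PF.cons PF.nil PF.nil))))) (PF.cons (PF.cons (PF.cons (PF.leaf (nat_lit 5831339) (nat_lit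 1871461) (nat_lit 45557465) (nat_lit 1871461) [(nat_lit 0), (nat_lit 0), (nat_lit 3179590), (nat_lit 8250147)]) (PF.cons (PF.leaf (nat_lit 6047611) (nat_lit 334211) (nat_lit 45224607) (nat_lit 1881723) [(nat_lit 334211), (nat_lit 0), (nat_lit 3187923), (nat_lit 8240173)]) (PF.cons (PF.leaf (nat_lit 6273041) (nat_lit 341207) (nat_lit 44881414) (nat_lit 1891465) [(nat_lit 341207), (nat_lit 0), (nat_lit 3195688), (nat_lit 8228914)]) (PF.cons (PF.leaf (nat_lit 6505448) (nat_lit 347533) (nat_lit 44530020) (nat_lit 1900631) [(nat_lit 347533), (nat_lit 0), (nat_lit 3202808), (nat_lit 8216376)]) (PF.cons PF.nil PF.nil))))) (PF.cons (PF.cons (PF.leaf (nat_lit 6469464) (nat_lit 1351989) (nat_lit 44250383)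
 (nat_lit 1900679) [(nat_lit 0), (nat_lit 1351989), (nat_lit 3202279), (nat_lit 8201740)]) (PF.cons (PF.leaf (nat_lit 6697434) (nat_lit 349849) (nat_lit 43906317) (nat_lit 1908735) [(nat_lit 349849), (nat_lit 1360301), (nat_lit 3208071), (nat_lit 8187768)]) (PF.cons PF.nil (PF.cons PF.nil PF.nil)))) (PF.cons (PF.cons (PF.leaf (nat_lit 7120672) (nat_lit 1373934) (nat_lit 42943478) (nat_lit 1922018) [(nat_lit 0), (nat_lit 1373934), (nat_lit 3215462), (nat_lit 8139992)]) (PF.cons PF.nil PF.nil)) PF.nil))) (PF.cons (PF.cons (PF.cons (PF.leaf (nat_lit 6984502) (nat_lit 1909260) (nat_lit 42586200) (nat_lit 1909260) [(nat_lit 0), (nat_lit 0), (nat_lit 3200421), (nat_lit 8106255)]) (PF.cons (PF.leaf (nat_lit 7211140) (nat_lit 354299) (nat_lit 42253928) (nat_lit 1915417) [(nat_lit 354299), (nat_lit 0), (nat_lit 3203691), (nat_lit 8088892)]) (PF.cons PF.nil PF.nil))) (PF.cons (PF.cons (PF.leaf (nat_lit 7624763) (nat_lit 1378703) (nat_lit 41330607) (nat_lit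 1924114) [(nat_lit 0), (nat_lit 1378703), (nat_lit 3204859), (nat_lit 8032833)]) PF.nil) PF.nil)) (PF.cons PF.nil (PF.cons PF.nil PF.nil))))) (PF.cons (PF.cons (PF.cons (PF.cons (PF.leaf (nat_lit 6647699) (nat_lit 1849685) (nat_lit
 41403263) (nat_lit 1849685) [(nat_lit 0), (nat_lit 0), (nat_lit 0), (nat_lit 7951954)]) (PF.cons (PF.leaf (nat_lit 6856211) (nat_lit 332803) (nat_lit 41109920) (nat_lit 1857105) [(nat_lit 332803), (nat_lit 0), (nat_lit 0), (nat_lit 7936328)]) (PF.cons (PF.leaf (nat_lit 7073141) (nat_lit 339168) (nat_lit 40807906) (nat_lit 1864014) [(nat_lit 339168), (nat_lit 0), (nat_lit 0), (nat_lit 7919518)]) (PF.cons (PF.leaf (nat_lit 7296346) (nat_lit 344858) (nat_lit 40499102) (nat_lit 1870379) [(nat_lit 344858), (nat_lit 0), (nat_lit 0), (nat_lit 7901585)]) (PF.cons PF.nil PF.nil))))) (PF.cons (PF.cons (PF.leaf (nat_lit 7253031) (nat_lit 1332858) (nat_lit 40256637) (nat_lit 1868676) [(nat_lit 0), (nat_lit 1332858), (nat_lit 0),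 (nat_lit 7883546)]) (PF.cons (PF.leaf (nat_lit 7471633) (nat_lit 346246) (nat_lit 39954846) (nat_lit 1874161) [(nat_lit 346246), (nat_lit 1339194), (nat_lit 0), (nat_lit 7864787)]) (PF.cons PF.nil (PF.cons PF.nil PF.nil)))) (PF.cons (PF.cons (PF.leaf (nat_lit 7868211) (nat_lit 1347986) (nat_lit 39114663) (nat_lit 1881127) [(nat_lit 0), (nat_lit 1347986), (nat_lit 0), (nat_lit 7805683)]) (PF.cons PF.nil PF.nil)) PF.nil))) (PF.cons (PF.cons (PF.cons (PF.leaf (nat_lit
 7724832) (nat_lit 1867880) (nat_lit 38812750) (nat_lit 1867880) [(nat_lit 0), (nat_lit 0), (nat_lit 3114680), (nat_lit 7771167)]) (PF.cons (PF.leaf (nat_lit 7941615) (nat_lit 348768) (nat_lit 38522169) (nat_lit 1871911) [(nat_lit 348768), (nat_lit 0), (nat_lit 3115015), (nat_lit 7750315)]) PF.nil)) (PF.cons PF.nil PF.nil)) (PF.cons PF.nil PF.nil))) (PF.cons (PF.cons (PF.cons (PF.cons (PF.leaf (nat_lit 8383018) (nat_lit 1817028) (nat_lit 35573814) (nat_lit 1817028) [(nat_lit 0), (nat_lit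 0), (nat_lit 0), (nat_lit 7429492)]) (PF.cons PF.nil PF.nil)) (PF.cons PF.nil PF.nil)) (PF.cons PF.nil PF.nil)) (PF.cons PF.nil (PF.cons PF.nil (PF.cons PF.nil (PF.cons PF.nil PF.nil)))))))))

def p12_9_0_0 : pfC (piC [(nat_lit 42686981), (nat_lit 27030628), (nat_lit 20024807), (nat_lit 13470738)] (nat_lit 30791140)) p12_9_0 (nat_lit 4) (nat_lit 0) (nat_lit 1) = true := by decide +kernel
def p12_9_0_1 : pfC (piC [(nat_lit 42686981), (nat_lit 27030628), (nat_lit 20024807), (nat_lit 13470738)] (nat_lit 30791140)) p12_9_0 (nat_lit 4) (nat_lit 1) (nat_lit 2) = true := by decide +kernel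
def p12_9_0_2 : pfC (piC [(nat_lit 42686981), (nat_lit 27030628), (nat_lit 20024807), (nat_lit 13470738)] (nat_lit 30791140)) p12_9_0 (nat_lit 4) (nat_lit 2) (nat_lit 3) = true := by decide +kernel
def p12_9_0_3 : pfC (piC [(nat_lit 42686981), (nat_lit 27030628), (nat_lit 20024807), (nat_lit 13470738)] (nat_lit 30791140)) p12_9_0 (nat_lit 4) (nat_lit 3) (nat_lit 4) = true := by decide +kernel
def p12_9_0_4 : pfC (piC [(nat_lit 42686981), (nat_lit 27030628), (nat_lit 20024807), (nat_lit 13470738)] (nat_lit 30791140)) p12_9_0 (nat_lit 4) (nat_lit 4) (nat_lit 5) = true := by decide +kernel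
def p12_9_0_5 : pfC (piC [(nat_lit 42686981), (nat_lit 27030628), (nat_lit 20024807), (nat_lit 13470738)] (nat_lit 30791140)) p12_9_0 (nat_lit 4) (nat_lit 5) (nat_lit 6) = true := by decide +kernel
def p12_9_0_6 : pfC (piC [(nat_lit 42686981), (nat_lit 27030628), (nat_lit 20024807), (nat_lit 13470738)] (nat_lit 30791140)) p12_9_0 (nat_lit 4) (nat_lit 6) (nat_lit 7) = true := by decide +kernel
def p12_9_0_7 : pfC (piC [(nat_lit 42686981), (nat_lit 27030628), (nat_lit 20024807), (nat_lit 13470738)] (nat_lit 30791140)) p12_9_0 (nat_lit 4) (nat_lit 7) (nat_lit 8) = true := by decide +kernel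
def p12_9_0_8 : pfC (piC [(nat_lit 42686981), (nat_lit 27030628), (nat_lit 20024807), (nat_lit 13470738)] (nat_lit 30791140)) p12_9_0 (nat_lit 4) (nat_lit 8) (nat_lit 9) = true := by decide +kernel
def p12_9_0_9 : pfC (piC [(nat_lit 42686981), (nat_lit 27030628), (nat_lit 20024807), (nat_lit 13470738)] (nat_lit 30791140)) p12_9_0 (nat_lit 4) (nat_lit 9) (nat_lit 10) = true := by decide +kernel
def p12_9_0_10 : pfC (piC [(nat_lit 42686981), (nat_lit 27030628), (nat_lit 20024807), (nat_lit 13470738)] (nat_lit 30791140)) p12_9_0 (nat_lit 4) (nat_lit 10) (nat_lit 11) = true := by decide +kernel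
def p12_9_0_11 : pfC (piC [(nat_lit 42686981), (nat_lit 27030628), (nat_lit 20024807), (nat_lit 13470738)] (nat_lit 30791140)) p12_9_0 (nat_lit 4) (nat_lit 11) (nat_lit 12) = true := by decide +kernel
def p12_9_0_12 : pfC (piC [(nat_lit 42686981), (nat_lit 27030628), (nat_lit 20024807), (nat_lit 13470738)] (nat_lit 30791140)) p12_9_0 (nat_lit 4) (nat_lit 12) (nat_lit 13) = true := by decide +kernel
def p12_9_0_13 : pfC (piC [(nat_lit 42686981), (nat_lit 27030628), (nat_lit 20024807), (nat_lit 13470738)] (nat_lit 30791140)) p12_9_0 (nat_lit 4) (nat_lit 13) (nat_lit 14) = true := by decide +kernel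
def p12_9_0_14 : pfC (piC [(nat_lit 42686981), (nat_lit 27030628), (nat_lit 20024807), (nat_lit 13470738)] (nat_lit 30791140)) p12_9_0 (nat_lit 4) (nat_lit 14) (nat_lit 15) = true := by decide +kernel
def p12_9_0_15 : pfC (piC [(nat_lit 42686981), (nat_lit 27030628), (nat_lit 20024807), (nat_lit 13470738)] (nat_lit 30791140)) p12_9_0 (nat_lit 4) (nat_lit 15) (nat_lit 16) = true := by decide +kernel
def p12_9_0_16 : pfC (piC [(nat_lit 42686981), (nat_lit 27030628), (nat_lit 20024807), (nat_lit 13470738)] (nat_lit 30791140)) p12_9_0 (nat_lit 4) (nat_lit 16) (nat_lit 17) = true := by decide +kernel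
def p12_9_0_17 : pfC (piC [(nat_lit 42686981), (nat_lit 27030628), (nat_lit 20024807), (nat_lit 13470738)] (nat_lit 30791140)) p12_9_0 (nat_lit 4) (nat_lit 17) (nat_lit 18) = true := by decide +kernel
def p12_9_0_18 : pfC (piC [(nat_lit 42686981), (nat_lit 27030628), (nat_lit 20024807), (nat_lit 13470738)] (nat_lit 30791140)) p12_9_0 (nat_lit 4) (nat_lit 18) (nat_lit 19) = true := by decide +kernel
def p12_9_0_19 : pfC (piC [(nat_lit 42686981), (nat_lit 27030628), (nat_lit 20024807), (nat_lit 13470738)] (nat_lit 30791140)) p12_9_0 (nat_lit 4) (nat_lit 19) (nat_lit 20) = true := by decide +kernel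
def p12_9_0_20 : pfC (piC [(nat_lit 42686981), (nat_lit 27030628), (nat_lit 20024807), (nat_lit 13470738)] (nat_lit 30791140)) p12_9_0 (nat_lit 4) (nat_lit 20) (nat_lit 21) = true := by decide +kernel
def p12_9_0_21 : pfC (piC [(nat_lit 42686981), (nat_lit 27030628), (nat_lit 20024807), (nat_lit 13470738)] (nat_lit 30791140)) p12_9_0 (nat_lit 4) (nat_lit 21) (nat_lit 22) = true := by decide +kernel
def p12_9_0_22 : pfC (piC [(nat_lit 42686981), (nat_lit 27030628), (nat_lit 20024807), (nat_lit 13470738)] (nat_lit 30791140)) p12_9_0 (nat_lit 4) (nat_lit 22) (nat_lit 23) = true := by decide +kernel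
def p12_9_0_23 : pfC (piC [(nat_lit 42686981), (nat_lit 27030628), (nat_lit 20024807), (nat_lit 13470738)] (nat_lit 30791140)) p12_9_0 (nat_lit 4) (nat_lit 23) (nat_lit 24) = true := by decide +kernel
def p12_9_0_24 : pfC (piC [(nat_lit 42686981), (nat_lit 27030628), (nat_lit 20024807), (nat_lit 13470738)] (nat_lit 30791140)) p12_9_0 (nat_lit 4) (nat_lit 24) (nat_lit 25) = true := by decide +kernel
def p12_9_0_25 : pfC (piC [(nat_lit 42686981), (nat_lit 27030628), (nat_lit 20024807), (nat_lit 13470738)] (nat_lit 30791140)) p12_9_0 (nat_lit 4) (nat_lit 25) (nat_lit 26) = true := by decide +kernel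
def p12_9_0_26 : pfC (piC [(nat_lit 42686981), (nat_lit 27030628), (nat_lit 20024807), (nat_lit 13470738)] (nat_lit 30791140)) p12_9_0 (nat_lit 4) (nat_lit 26) (nat_lit 27) = true := by decide +kernel
def p12_9_0_27 : pfC (piC [(nat_lit 42686981), (nat_lit 27030628), (nat_lit 20024807), (nat_lit 13470738)] (nat_lit 30791140)) p12_9_0 (nat_lit 4) (nat_lit 27) (nat_lit 28) = true := by decide +kernel
def p12_9_0_28 : pfC (piC [(nat_lit 42686981), (nat_lit 27030628), (nat_lit 20024807), (nat_lit 13470738)] (nat_lit 30791140)) p12_9_0 (nat_lit 4) (nat_lit 28) (nat_lit 29) = true := by decide +kernel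
def p12_9_0_29 : pfC (piC [(nat_lit 42686981), (nat_lit 27030628), (nat_lit 20024807), (nat_lit 13470738)] (nat_lit 30791140)) p12_9_0 (nat_lit 4) (nat_lit 29) (nat_lit 30) = true := by decide +kernel
def p12_9_0_30 : pfC (piC [(nat_lit 42686981), (nat_lit 27030628), (nat_lit 20024807), (nat_lit 13470738)] (nat_lit 30791140)) p12_9_0 (nat_lit 4) (nat_lit 30) (nat_lit 31) = true := by decide +kernel
def p12_9_0_31 : pfC (piC [(nat_lit 42686981), (nat_lit 27030628), (nat_lit 20024807), (nat_lit 13470738)] (nat_lit 30791140)) p12_9_0 (nat_lit 4) (nat_lit 31) (nat_lit 32) = true := by decide +kernel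
def p12_9_0_32 : pfC (piC [(nat_lit 42686981), (nat_lit 27030628), (nat_lit 20024807), (nat_lit 13470738)] (nat_lit 30791140)) p12_9_0 (nat_lit 4) (nat_lit 32) (nat_lit 33) = true := by decide +kernel
def p12_9_0_33 : pfC (piC [(nat_lit 42686981), (nat_lit 27030628), (nat_lit 20024807), (nat_lit 13470738)] (nat_lit 30791140)) p12_9_0 (nat_lit 4) (nat_lit 33) (nat_lit 34) = true := by decide +kernel
def p12_9_0_34 : pfC (piC [(nat_lit 42686981), (nat_lit 27030628), (nat_lit 20024807), (nat_lit 13470738)] (nat_lit 30791140)) p12_9_0 (nat_lit 4) (nat_lit 34) (nat_lit 35) = true := by decide +kernel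
def p12_9_0_35 : pfC (piC [(nat_lit 42686981), (nat_lit 27030628), (nat_lit 20024807), (nat_lit 13470738)] (nat_lit 30791140)) p12_9_0 (nat_lit 4) (nat_lit 35) (nat_lit 36) = true := by decide +kernel
def p12_9_0_36 : pfC (piC [(nat_lit 42686981), (nat_lit 27030628), (nat_lit 20024807), (nat_lit 13470738)] (nat_lit 30791140)) p12_9_0 (nat_lit 4) (nat_lit 36) (nat_lit 37) = true := by decide +kernel
def p12_9_0_37 : pfC (piC [(nat_lit 42686981), (nat_lit 27030628), (nat_lit 20024807), (nat_lit 13470738)] (nat_lit 30791140)) p12_9_0 (nat_lit 4) (nat_lit 37) (nat_lit 38) = true := by decide +kernel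
def p12_9_0_38 : pfC (piC [(nat_lit 42686981), (nat_lit 27030628), (nat_lit 20024807), (nat_lit 13470738)] (nat_lit 30791140)) p12_9_0 (nat_lit 4) (nat_lit 38) (nat_lit 39) = true := by decide +kernel
def p12_9_0_39 : pfC (piC [(nat_lit 42686981), (nat_lit 27030628), (nat_lit 20024807), (nat_lit 13470738)] (nat_lit 30791140)) p12_9_0 (nat_lit 4) (nat_lit 39) (nat_lit 40) = true := by decide +kernel
def p12_9_0_40 : pfC (piC [(nat_lit 42686981), (nat_lit 27030628), (nat_lit 20024807), (nat_lit 13470738)] (nat_lit 30791140)) p12_9_0 (nat_lit 4) (nat_lit 40) (nat_lit 41) = true := by decide +kernel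
def p12_9_0_41 : pfC (piC [(nat_lit 42686981), (nat_lit 27030628), (nat_lit 20024807), (nat_lit 13470738)] (nat_lit 30791140)) p12_9_0 (nat_lit 4) (nat_lit 41) (nat_lit 42) = true := by decide +kernel
def p12_9_0_42 : pfC (piC [(nat_lit 42686981), (nat_lit 27030628), (nat_lit 20024807), (nat_lit 13470738)] (nat_lit 30791140)) p12_9_0 (nat_lit 4) (nat_lit 42) (nat_lit 43) = true := by decide +kernel
def p12_9_0_43 : pfC (piC [(nat_lit 42686981), (nat_lit 27030628), (nat_lit 20024807), (nat_lit 13470738)] (nat_lit 30791140)) p12_9_0 (nat_lit 4) (nat_lit 43) (nat_lit 44) = true := by decide +kernel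
def p12_9_0_44 : pfC (piC [(nat_lit 42686981), (nat_lit 27030628), (nat_lit 20024807), (nat_lit 13470738)] (nat_lit 30791140)) p12_9_0 (nat_lit 4) (nat_lit 44) (nat_lit 45) = true := by decide +kernel
def p12_9_0_45 : pfC (piC [(nat_lit 42686981), (nat_lit 27030628), (nat_lit 20024807), (nat_lit 13470738)] (nat_lit 30791140)) p12_9_0 (nat_lit 4) (nat_lit 45) (nat_lit 46) = true := by decide +kernel
def p12_9_0_46 : pfC (piC [(nat_lit 42686981), (nat_lit 27030628), (nat_lit 20024807), (nat_lit 13470738)] (nat_lit 30791140)) p12_9_0 (nat_lit 4) (nat_lit 46) (nat_lit 47) = true := by decide +kernel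
def p12_9_0_47 : pfC (piC [(nat_lit 42686981), (nat_lit 27030628), (nat_lit 20024807), (nat_lit 13470738)] (nat_lit 30791140)) p12_9_0 (nat_lit 4) (nat_lit 47) (nat_lit 48) = true := by decide +kernel
def p12_9_0_48 : pfC (piC [(nat_lit 42686981), (nat_lit 27030628), (nat_lit 20024807), (nat_lit 13470738)] (nat_lit 30791140)) p12_9_0 (nat_lit 4) (nat_lit 48) (nat_lit 49) = true := by decide +kernel
def p12_9_0_49 : pfC (piC [(nat_lit 42686981), (nat_lit 27030628), (nat_lit 20024807), (nat_lit 13470738)] (nat_lit 30791140)) p12_9_0 (nat_lit 4) (nat_lit 49) (nat_lit 50) = true := by decide +kernel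
def p12_9_0_50 : pfC (piC [(nat_lit 42686981), (nat_lit 27030628), (nat_lit 20024807), (nat_lit 13470738)] (nat_lit 30791140)) p12_9_0 (nat_lit 4) (nat_lit 50) (nat_lit 51) = true := by decide +kernel
def p12_9_0_51 : pfC (piC [(nat_lit 42686981), (nat_lit 27030628), (nat_lit 20024807), (nat_lit 13470738)] (nat_lit 30791140)) p12_9_0 (nat_lit 4) (nat_lit 51) (nat_lit 52) = true := by decide +kernel
def p12_9_0_52 : pfC (piC [(nat_lit 42686981), (nat_lit 27030628), (nat_lit 20024807), (nat_lit 13470738)] (nat_lit 30791140)) p12_9_0 (nat_lit 4) (nat_lit 52) (nat_lit 53) = true := by decide +kernel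
def p12_9_0_53 : pfC (piC [(nat_lit 42686981), (nat_lit 27030628), (nat_lit 20024807), (nat_lit 13470738)] (nat_lit 30791140)) p12_9_0 (nat_lit 4) (nat_lit 53) (nat_lit 54) = true := by decide +kernel
def p12_9_0_54 : pfC (piC [(nat_lit 42686981), (nat_lit 27030628), (nat_lit 20024807), (nat_lit 13470738)] (nat_lit 30791140)) p12_9_0 (nat_lit 4) (nat_lit 54) (nat_lit 55) = true := by decide +kernel
def p12_9_0_55 : pfC (piC [(nat_lit 42686981), (nat_lit 27030628), (nat_lit 20024807), (nat_lit 13470738)] (nat_lit 30791140)) p12_9_0 (nat_lit 4) (nat_lit 55) (nat_lit 56) = true := by decide +kernel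
def p12_9_0_56 : pfC (piC [(nat_lit 42686981), (nat_lit 27030628), (nat_lit 20024807), (nat_lit 13470738)] (nat_lit 30791140)) p12_9_0 (nat_lit 4) (nat_lit 56) (nat_lit 57) = true := by decide +kernel
def p12_9_0_57 : pfC (piC [(nat_lit 42686981), (nat_lit 27030628), (nat_lit 20024807), (nat_lit 13470738)] (nat_lit 30791140)) p12_9_0 (nat_lit 4) (nat_lit 57) (nat_lit 58) = true := by decide +kernel
def p12_9_0_58 : pfC (piC [(nat_lit 42686981), (nat_lit 27030628), (nat_lit 20024807), (nat_lit 13470738)] (nat_lit 30791140)) p12_9_0 (nat_lit 4) (nat_lit 58) (nat_lit 59) = true := by decide +kernel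
def p12_9_0_59 : pfC (piC [(nat_lit 42686981), (nat_lit 27030628), (nat_lit 20024807), (nat_lit 13470738)] (nat_lit 30791140)) p12_9_0 (nat_lit 4) (nat_lit 59) (nat_lit 60) = true := by decide +kernel
def p12_9_0_60 : pfC (piC [(nat_lit 42686981), (nat_lit 27030628), (nat_lit 20024807), (nat_lit 13470738)] (nat_lit 30791140)) p12_9_0 (nat_lit 4) (nat_lit 60) (nat_lit 61) = true := by decide +kernel
def p12_9_0_61 : pfC (piC [(nat_lit 42686981), (nat_lit 27030628), (nat_lit 20024807), (nat_lit 13470738)] (nat_lit 30791140)) p12_9_0 (nat_lit 4) (nat_lit 61) (nat_lit 62) = true := by decide +kernel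
def p12_9_0_62 : pfC (piC [(nat_lit 42686981), (nat_lit 27030628), (nat_lit 20024807), (nat_lit 13470738)] (nat_lit 30791140)) p12_9_0 (nat_lit 4) (nat_lit 62) (nat_lit 63) = true := by decide +kernel
def p12_9_0_63 : pfC (piC [(nat_lit 42686981), (nat_lit 27030628), (nat_lit 20024807), (nat_lit 13470738)] (nat_lit 30791140)) p12_9_0 (nat_lit 4) (nat_lit 63) (nat_lit 64) = true := by decide +kernel
def p12_9_0_64 : pfC (piC [(nat_lit 42686981), (nat_lit 27030628), (nat_lit 20024807), (nat_lit 13470738)] (nat_lit 30791140)) p12_9_0 (nat_lit 4) (nat_lit 64) (nat_lit 65) = true := by decide +kernel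
def p12_9_0_65 : pfC (piC [(nat_lit 42686981), (nat_lit 27030628), (nat_lit 20024807), (nat_lit 13470738)] (nat_lit 30791140)) p12_9_0 (nat_lit 4) (nat_lit 65) (nat_lit 66) = true := by decide +kernel
def p12_9_0_66 : pfC (piC [(nat_lit 42686981), (nat_lit 27030628), (nat_lit 20024807), (nat_lit 13470738)] (nat_lit 30791140)) p12_9_0 (nat_lit 4) (nat_lit 66) (nat_lit 67) = true := by decide +kernel
def p12_9_0_67 : pfC (piC [(nat_lit 42686981), (nat_lit 27030628), (nat_lit 20024807), (nat_lit 13470738)] (nat_lit 30791140)) p12_9_0 (nat_lit 4) (nat_lit 67) (nat_lit 68) = true := by decide +kernel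
def p12_9_0_68 : pfC (piC [(nat_lit 42686981), (nat_lit 27030628), (nat_lit 20024807), (nat_lit 13470738)] (nat_lit 30791140)) p12_9_0 (nat_lit 4) (nat_lit 68) (nat_lit 69) = true := by decide +kernel
def p12_9_0_69 : pfC (piC [(nat_lit 42686981), (nat_lit 27030628), (nat_lit 20024807), (nat_lit 13470738)] (nat_lit 30791140)) p12_9_0 (nat_lit 4) (nat_lit 69) (nat_lit 70) = true := by decide +kernel
def p12_9_0_70 : pfC (piC [(nat_lit 42686981), (nat_lit 27030628), (nat_lit 20024807), (nat_lit 13470738)] (nat_lit 30791140)) p12_9_0 (nat_lit 4) (nat_lit 70) (nat_lit 71) = true := by decide +kernel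
def p12_9_0_71 : pfC (piC [(nat_lit 42686981), (nat_lit 27030628), (nat_lit 20024807), (nat_lit 13470738)] (nat_lit 30791140)) p12_9_0 (nat_lit 4) (nat_lit 71) (nat_lit 72) = true := by decide +kernel
def p12_9_0_72 : pfC (piC [(nat_lit 42686981), (nat_lit 27030628), (nat_lit 20024807), (nat_lit 13470738)] (nat_lit 30791140)) p12_9_0 (nat_lit 4) (nat_lit 72) (nat_lit 73) = true := by decide +kernel
def p12_9_0_73 : pfC (piC [(nat_lit 42686981), (nat_lit 27030628), (nat_lit 20024807), (nat_lit 13470738)] (nat_lit 30791140)) p12_9_0 (nat_lit 4) (nat_lit 73) (nat_lit 74) = true := by decide +kernel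
def p12_9_0_74 : pfC (piC [(nat_lit 42686981), (nat_lit 27030628), (nat_lit 20024807), (nat_lit 13470738)] (nat_lit 30791140)) p12_9_0 (nat_lit 4) (nat_lit 74) (nat_lit 75) = true := by decide +kernel
def p12_9_0_75 : pfC (piC [(nat_lit 42686981), (nat_lit 27030628), (nat_lit 20024807), (nat_lit 13470738)] (nat_lit 30791140)) p12_9_0 (nat_lit 4) (nat_lit 75) (nat_lit 76) = true := by decide +kernel
def p12_9_0_76 : pfC (piC [(nat_lit 42686981), (nat_lit 27030628), (nat_lit 20024807), (nat_lit 13470738)] (nat_lit 30791140)) p12_9_0 (nat_lit 4) (nat_lit 76) (nat_lit 77) = true := by decide +kernel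
def p12_9_0_77 : pfC (piC [(nat_lit 42686981), (nat_lit 27030628), (nat_lit 20024807), (nat_lit 13470738)] (nat_lit 30791140)) p12_9_0 (nat_lit 4) (nat_lit 77) (nat_lit 78) = true := by decide +kernel
def p12_9_0_78 : pfC (piC [(nat_lit 42686981), (nat_lit 27030628), (nat_lit 20024807), (nat_lit 13470738)] (nat_lit 30791140)) p12_9_0 (nat_lit 4) (nat_lit 78) (nat_lit 79) = true := by decide +kernel
def p12_9_0_79 : pfC (piC [(nat_lit 42686981), (nat_lit 27030628), (nat_lit 20024807), (nat_lit 13470738)] (nat_lit 30791140)) p12_9_0 (nat_lit 4) (nat_lit 79) (nat_lit 80) = true := by decide +kernel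
def p12_9_0_80 : pfC (piC [(nat_lit 42686981), (nat_lit 27030628), (nat_lit 20024807), (nat_lit 13470738)] (nat_lit 30791140)) p12_9_0 (nat_lit 4) (nat_lit 80) (nat_lit 81) = true := by decide +kernel
def p12_9_0_81 : pfC (piC [(nat_lit 42686981), (nat_lit 27030628), (nat_lit 20024807), (nat_lit 13470738)] (nat_lit 30791140)) p12_9_0 (nat_lit 4) (nat_lit 81) (nat_lit 82) = true := by decide +kernel
def p12_9_0_82 : pfC (piC [(nat_lit 42686981), (nat_lit 27030628), (nat_lit 20024807), (nat_lit 13470738)] (nat_lit 30791140)) p12_9_0 (nat_lit 4) (nat_lit 82) (nat_lit 83) = true := by decide +kernel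
def p12_9_0_83 : pfC (piC [(nat_lit 42686981), (nat_lit 27030628), (nat_lit 20024807), (nat_lit 13470738)] (nat_lit 30791140)) p12_9_0 (nat_lit 4) (nat_lit 83) (nat_lit 84) = true := by decide +kernel
def p12_9_0_84 : pfC (piC [(nat_lit 42686981), (nat_lit 27030628), (nat_lit 20024807), (nat_lit 13470738)] (nat_lit 30791140)) p12_9_0 (nat_lit 4) (nat_lit 84) (nat_lit 85) = true := by decide +kernel
def p12_9_0_85 : pfC (piC [(nat_lit 42686981), (nat_lit 27030628), (nat_lit 20024807), (nat_lit 13470738)] (nat_lit 30791140)) p12_9_0 (nat_lit 4) (nat_lit 85) (nat_lit 86) = true := by decide +kernel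
def p12_9_0_86 : pfC (piC [(nat_lit 42686981), (nat_lit 27030628), (nat_lit 20024807), (nat_lit 13470738)] (nat_lit 30791140)) p12_9_0 (nat_lit 4) (nat_lit 86) (nat_lit 87) = true := by decide +kernel
def p12_9_0_87 : pfC (piC [(nat_lit 42686981), (nat_lit 27030628), (nat_lit 20024807), (nat_lit 13470738)] (nat_lit 30791140)) p12_9_0 (nat_lit 4) (nat_lit 87) (nat_lit 88) = true := by decide +kernel
def p12_9_0_88 : pfC (piC [(nat_lit 42686981), (nat_lit 27030628), (nat_lit 20024807), (nat_lit 13470738)] (nat_lit 30791140)) p12_9_0 (nat_lit 4) (nat_lit 88) (nat_lit 89) = true := by decide +kernel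
def p12_9_0_89 : pfC (piC [(nat_lit 42686981), (nat_lit 27030628), (nat_lit 20024807), (nat_lit 13470738)] (nat_lit 30791140)) p12_9_0 (nat_lit 4) (nat_lit 89) (nat_lit 90) = true := by decide +kernel
def p12_9_0_90 : pfC (piC [(nat_lit 42686981), (nat_lit 27030628), (nat_lit 20024807), (nat_lit 13470738)] (nat_lit 30791140)) p12_9_0 (nat_lit 4) (nat_lit 90) (nat_lit 91) = true := by decide +kernel
def p12_9_0_91 : pfC (piC [(nat_lit 42686981), (nat_lit 27030628), (nat_lit 20024807), (nat_lit 13470738)] (nat_lit 30791140)) p12_9_0 (nat_lit 4) (nat_lit 91) (nat_lit 92) = true := by decide +kernel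
def p12_9_0_92 : pfC (piC [(nat_lit 42686981), (nat_lit 27030628), (nat_lit 20024807), (nat_lit 13470738)] (nat_lit 30791140)) p12_9_0 (nat_lit 4) (nat_lit 92) (nat_lit 93) = true := by decide +kernel
def p12_9_0_93 : pfC (piC [(nat_lit 42686981), (nat_lit 27030628), (nat_lit 20024807), (nat_lit 13470738)] (nat_lit 30791140)) p12_9_0 (nat_lit 4) (nat_lit 93) (nat_lit 94) = true := by decide +kernel
def p12_9_0_94 : pfC (piC [(nat_lit 42686981), (nat_lit 27030628), (nat_lit 20024807), (nat_lit 13470738)] (nat_lit 30791140)) p12_9_0 (nat_lit 4) (nat_lit 94) (nat_lit 95) = true := by decide +kernel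
def p12_9_0_95 : pfC (piC [(nat_lit 42686981), (nat_lit 27030628), (nat_lit 20024807), (nat_lit 13470738)] (nat_lit 30791140)) p12_9_0 (nat_lit 4) (nat_lit 95) (nat_lit 96) = true := by decide +kernel
def p12_9_0_96 : pfC (piC [(nat_lit 42686981), (nat_lit 27030628), (nat_lit 20024807), (nat_lit 13470738)] (nat_lit 30791140)) p12_9_0 (nat_lit 4) (nat_lit 96) (nat_lit 97) = true := by decide +kernel
def p12_9_0_97 : pfC (piC [(nat_lit 42686981), (nat_lit 27030628), (nat_lit 20024807), (nat_lit 13470738)] (nat_lit 30791140)) p12_9_0 (nat_lit 4) (nat_lit 97) (nat_lit 98) = true := by decide +kernel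
def p12_9_0_98 : pfC (piC [(nat_lit 42686981), (nat_lit 27030628), (nat_lit 20024807), (nat_lit 13470738)] (nat_lit 30791140)) p12_9_0 (nat_lit 4) (nat_lit 98) (nat_lit 99) = true := by decide +kernel
def p12_9_0_99 : pfC (piC [(nat_lit 42686981), (nat_lit 27030628), (nat_lit 20024807), (nat_lit 13470738)] (nat_lit 30791140)) p12_9_0 (nat_lit 4) (nat_lit 99) (nat_lit 100) = true := by decide +kernel
def p12_9_0_100 : pfC (piC [(nat_lit 42686981), (nat_lit 27030628), (nat_lit 20024807), (nat_lit 13470738)] (nat_lit 30791140)) p12_9_0 (nat_lit 4) (nat_lit 100) (nat_lit 101) = true := by decide +kernel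
def p12_9_0_101 : pfC (piC [(nat_lit 42686981), (nat_lit 27030628), (nat_lit 20024807), (nat_lit 13470738)] (nat_lit 30791140)) p12_9_0 (nat_lit 4) (nat_lit 101) (nat_lit 102) = true := by decide +kernel
def p12_9_0_102 : pfC (piC [(nat_lit 42686981), (nat_lit 27030628), (nat_lit 20024807), (nat_lit 13470738)] (nat_lit 30791140)) p12_9_0 (nat_lit 4) (nat_lit 102) (nat_lit 103) = true := by decide +kernel
def p12_9_0_103 : pfC (piC [(nat_lit 42686981), (nat_lit 27030628), (nat_lit 20024807), (nat_lit 13470738)] (nat_lit 30791140)) p12_9_0 (nat_lit 4) (nat_lit 103) (nat_lit 104) = true := by decide +kernel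
def p12_9_0_104 : pfC (piC [(nat_lit 42686981), (nat_lit 27030628), (nat_lit 20024807), (nat_lit 13470738)] (nat_lit 30791140)) p12_9_0 (nat_lit 4) (nat_lit 104) (nat_lit 105) = true := by decide +kernel
def p12_9_0_105 : pfC (piC [(nat_lit 42686981), (nat_lit 27030628), (nat_lit 20024807), (nat_lit 13470738)] (nat_lit 30791140)) p12_9_0 (nat_lit 4) (nat_lit 105) (nat_lit 106) = true := by decide +kernel
def p12_9_0_106 : pfC (piC [(nat_lit 42686981), (nat_lit 27030628), (nat_lit 20024807), (nat_lit 13470738)] (nat_lit 30791140)) p12_9_0 (nat_lit 4) (nat_lit 106) (nat_lit 107) = true := by decide +kernel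
def p12_9_0_107 : pfC (piC [(nat_lit 42686981), (nat_lit 27030628), (nat_lit 20024807), (nat_lit 13470738)] (nat_lit 30791140)) p12_9_0 (nat_lit 4) (nat_lit 107) (nat_lit 108) = true := by decide +kernel
def p12_9_0_108 : pfC (piC [(nat_lit 42686981), (nat_lit 27030628), (nat_lit 20024807), (nat_lit 13470738)] (nat_lit 30791140)) p12_9_0 (nat_lit 4) (nat_lit 108) (nat_lit 109) = true := by decide +kernel
def p12_9_0_109 : pfC (piC [(nat_lit 42686981), (nat_lit 27030628), (nat_lit 20024807), (nat_lit 13470738)] (nat_lit 30791140)) p12_9_0 (nat_lit 4) (nat_lit 109) (nat_lit 110) = true := by decide +kernel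
def p12_9_0_110 : pfC (piC [(nat_lit 42686981), (nat_lit 27030628), (nat_lit 20024807), (nat_lit 13470738)] (nat_lit 30791140)) p12_9_0 (nat_lit 4) (nat_lit 110) (nat_lit 111) = true := by decide +kernel
def p12_9_0_111 : pfC (piC [(nat_lit 42686981), (nat_lit 27030628), (nat_lit 20024807), (nat_lit 13470738)] (nat_lit 30791140)) p12_9_0 (nat_lit 4) (nat_lit 111) (nat_lit 112) = true := by decide +kernel
def p12_9_0_112 : pfC (piC [(nat_lit 42686981), (nat_lit 27030628), (nat_lit 20024807), (nat_lit 13470738)] (nat_lit 30791140)) p12_9_0 (nat_lit 4) (nat_lit 112) (nat_lit 113) = true := by decide +kernel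
def p12_9_0_113 : pfC (piC [(nat_lit 42686981), (nat_lit 27030628), (nat_lit 20024807), (nat_lit 13470738)] (nat_lit 30791140)) p12_9_0 (nat_lit 4) (nat_lit 113) (nat_lit 114) = true := by decide +kernel
def p12_9_0_114 : pfC (piC [(nat_lit 42686981), (nat_lit 27030628), (nat_lit 20024807), (nat_lit 13470738)] (nat_lit 30791140)) p12_9_0 (nat_lit 4) (nat_lit 114) (nat_lit 115) = true := by decide +kernel
def p12_9_0_115 : pfC (piC [(nat_lit 42686981), (nat_lit 27030628), (nat_lit 20024807), (nat_lit 13470738)] (nat_lit 30791140)) p12_9_0 (nat_lit 4) (nat_lit 115) (nat_lit 116) = true := by decide +kernel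
def p12_9_0_116 : pfC (piC [(nat_lit 42686981), (nat_lit 27030628), (nat_lit 20024807), (nat_lit 13470738)] (nat_lit 30791140)) p12_9_0 (nat_lit 4) (nat_lit 116) (nat_lit 117) = true := by decide +kernel
def p12_9_0_117 : pfC (piC [(nat_lit 42686981), (nat_lit 27030628), (nat_lit 20024807), (nat_lit 13470738)] (nat_lit 30791140)) p12_9_0 (nat_lit 4) (nat_lit 117) (nat_lit 118) = true := by decide +kernel
def p12_9_0_118 : pfC (piC [(nat_lit 42686981), (nat_lit 27030628), (nat_lit 20024807), (nat_lit 13470738)] (nat_lit 30791140)) p12_9_0 (nat_lit 4) (nat_lit 118) (nat_lit 119) = true := by decide +kernel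
def p12_9_0_119 : pfC (piC [(nat_lit 42686981), (nat_lit 27030628), (nat_lit 20024807), (nat_lit 13470738)] (nat_lit 30791140)) p12_9_0 (nat_lit 4) (nat_lit 119) (nat_lit 120) = true := by decide +kernel
def p12_9_0_120 : pfC (piC [(nat_lit 42686981), (nat_lit 27030628), (nat_lit 20024807), (nat_lit 13470738)] (nat_lit 30791140)) p12_9_0 (nat_lit 4) (nat_lit 120) (nat_lit 121) = true := by decide +kernel
def p12_9_0_121 : pfC (piC [(nat_lit 42686981), (nat_lit 27030628), (nat_lit 20024807), (nat_lit 13470738)] (nat_lit 30791140)) p12_9_0 (nat_lit 4) (nat_lit 121) (nat_lit 122) = true := by decide +kernel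
def p12_9_0_122 : pfC (piC [(nat_lit 42686981), (nat_lit 27030628), (nat_lit 20024807), (nat_lit 13470738)] (nat_lit 30791140)) p12_9_0 (nat_lit 4) (nat_lit 122) (nat_lit 123) = true := by decide +kernel
def p12_9_0_123 : pfC (piC [(nat_lit 42686981), (nat_lit 27030628), (nat_lit 20024807), (nat_lit 13470738)] (nat_lit 30791140)) p12_9_0 (nat_lit 4) (nat_lit 123) (nat_lit 124) = true := by decide +kernel
def p12_9_0_124 : pfC (piC [(nat_lit 42686981), (nat_lit 27030628), (nat_lit 20024807), (nat_lit 13470738)] (nat_lit 30791140)) p12_9_0 (nat_lit 4) (nat_lit 124) (nat_lit 125) = true := by decide +kernel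
def p12_9_0_125 : pfC (piC [(nat_lit 42686981), (nat_lit 27030628), (nat_lit 20024807), (nat_lit 13470738)] (nat_lit 30791140)) p12_9_0 (nat_lit 4) (nat_lit 125) (nat_lit 126) = true := by decide +kernel
theorem p12_9_0_T : PfS (PiF n12_9.reverse (nat_lit 30791140)) p12_9_0 (nat_lit 4) [] 0 :=
  pftab_of (los := [(nat_lit 42686981), (nat_lit 27030628), (nat_lit 20024807), (nat_lit 13470738)]) (by decide +kernel) (hi := (nat_lit 126)) (PfP.trans (PfP.trans (PfP.trans (PfP.trans (PfP.trans (PfP.trans (PfP.trans (PfP.trans (PfP.trans (PfP.trans (PfP.trans (PfP.trans (PfP.trans (PfP.trans (PfP.trans (PfP.trans (PfP.trans (PfP.trans (PfP.trans (PfP.trans (PfP.trans (PfP.trans (PfP.trans (PfP.trans (PfP.trans (PfP.trans (PfP.trans (PfP.trans (PfP.trans (PfP.trans (PfP.trans (PfP.trans (PfP.trans (PfP.trans (PfP.trans (PfP.trans (PfP.trans (PfP.trans (PfP.trans (PfP.trans (PfP.trans (PfP.trans (PfP.trans (PfP.trans (PfP.trans (PfP.trans (PfP.trans (PfP.trans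 (PfP.trans (PfP.trans (PfP.trans (PfP.trans (PfP.trans (PfP.trans (PfP.trans (PfP.trans (PfP.trans (PfP.trans (PfP.trans (PfP.trans (PfP.trans (PfP.trans (PfP.trans (PfP.trans (PfP.trans (PfP.trans (PfP.trans (PfP.trans (PfP.trans (PfP.trans (PfP.trans (PfP.trans (PfP.trans (PfP.trans (PfP.trans (PfP.trans (PfP.trans (PfP.trans (PfP.trans (PfP.trans (PfP.trans (PfP.trans (PfP.trans (PfP.trans (PfP.trans (PfP.trans (PfP.trans (PfP.trans (PfP.trans (PfP.trans (PfP.trans (PfP.trans (PfP.trans (PfP.trans (PfP.trans (PfP.trans (PfP.trans (PfP.trans (PfP.trans (PfP.trans (PfP.trans (PfP.trans (PfP.trans (PfP.trans (PfP.trans (PfP.trans (PfP.trans (PfP.trans (PfP.trans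
 (PfP.trans (PfP.trans (PfP.trans (PfP.trans (PfP.trans (PfP.trans (PfP.trans (PfP.trans (PfP.trans (PfP.trans (PfP.trans (PfP.trans (PfP.trans (PfP.trans (PfP.trans (PfP.trans (pfC_sound p12_9_0_0) (pfC_sound p12_9_0_1)) (pfC_sound p12_9_0_2)) (pfC_sound p12_9_0_3)) (pfC_sound p12_9_0_4)) (pfC_sound p12_9_0_5)) (pfC_sound p12_9_0_6)) (pfC_sound p12_9_0_7)) (pfC_sound p12_9_0_8)) (pfC_sound p12_9_0_9)) (pfC_sound p12_9_0_10)) (pfC_sound p12_9_0_11)) (pfC_sound p12_9_0_12)) (pfC_sound p12_9_0_13)) (pfC_sound p12_9_0_14)) (pfC_sound p12_9_0_15)) (pfC_sound p12_9_0_16)) (pfC_sound p12_9_0_17)) (pfC_sound p12_9_0_18)) (pfC_sound p12_9_0_19)) (pfC_sound p12_9_0_20)) (pfC_sound p12_9_0_21)) (pfC_sound p12_9_0_22)) (pfC_sound p12_9_0_23)) (pfC_sound p12_9_0_24)) (pfC_sound p12_9_0_25)) (pfC_sound p12_9_0_26)) (pfC_sound p12_9_0_27)) (pfC_sound p12_9_0_28)) (pfC_sound p12_9_0_29)) (pfC_sound p12_9_0_30)) (pfC_sound p12_9_0_31)) (pfC_sound p12_9_0_32)) (pfC_sound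 p12_9_0_33)) (pfC_sound p12_9_0_34)) (pfC_sound p12_9_0_35)) (pfC_sound p12_9_0_36)) (pfC_sound p12_9_0_37)) (pfC_sound p12_9_0_38)) (pfC_sound p12_9_0_39)) (pfC_sound p12_9_0_40)) (pfC_sound p12_9_0_41)) (pfC_sound p12_9_0_42))
 (pfC_sound p12_9_0_43)) (pfC_sound p12_9_0_44)) (pfC_sound p12_9_0_45)) (pfC_sound p12_9_0_46)) (pfC_sound p12_9_0_47)) (pfC_sound p12_9_0_48)) (pfC_sound p12_9_0_49)) (pfC_sound p12_9_0_50)) (pfC_sound p12_9_0_51)) (pfC_sound p12_9_0_52)) (pfC_sound p12_9_0_53)) (pfC_sound p12_9_0_54)) (pfC_sound p12_9_0_55)) (pfC_sound p12_9_0_56)) (pfC_sound p12_9_0_57)) (pfC_sound p12_9_0_58)) (pfC_sound p12_9_0_59)) (pfC_sound p12_9_0_60)) (pfC_sound p12_9_0_61)) (pfC_sound p12_9_0_62)) (pfC_sound p12_9_0_63)) (pfC_sound p12_9_0_64)) (pfC_sound p12_9_0_65)) (pfC_sound p12_9_0_66)) (pfC_sound p12_9_0_67)) (pfC_sound p12_9_0_68)) (pfC_sound p12_9_0_69)) (pfC_sound p12_9_0_70)) (pfC_sound p12_9_0_71)) (pfC_sound p12_9_0_72)) (pfC_sound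 p12_9_0_73)) (pfC_sound p12_9_0_74)) (pfC_sound p12_9_0_75)) (pfC_sound p12_9_0_76)) (pfC_sound p12_9_0_77)) (pfC_sound p12_9_0_78)) (pfC_sound p12_9_0_79)) (pfC_sound p12_9_0_80)) (pfC_sound p12_9_0_81)) (pfC_sound p12_9_0_82)) (pfC_sound p12_9_0_83)) (pfC_sound p12_9_0_84)) (pfC_sound p12_9_0_85)) (pfC_sound p12_9_0_86)) (pfC_sound p12_9_0_87)) (pfC_sound p12_9_0_88)) (pfC_sound p12_9_0_89)) (pfC_sound p12_9_0_90)) (pfC_sound p12_9_0_91)) (pfC_sound p12_9_0_92))
 (pfC_sound p12_9_0_93)) (pfC_sound p12_9_0_94)) (pfC_sound p12_9_0_95)) (pfC_sound p12_9_0_96)) (pfC_sound p12_9_0_97)) (pfC_sound p12_9_0_98)) (pfC_sound p12_9_0_99)) (pfC_sound p12_9_0_100)) (pfC_sound p12_9_0_101)) (pfC_sound p12_9_0_102)) (pfC_sound p12_9_0_103)) (pfC_sound p12_9_0_104)) (pfC_sound p12_9_0_105)) (pfC_sound p12_9_0_106)) (pfC_sound p12_9_0_107)) (pfC_sound p12_9_0_108)) (pfC_sound p12_9_0_109)) (pfC_sound p12_9_0_110)) (pfC_sound p12_9_0_111)) (pfC_sound p12_9_0_112))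 (pfC_sound p12_9_0_113)) (pfC_sound p12_9_0_114)) (pfC_sound p12_9_0_115)) (pfC_sound p12_9_0_116)) (pfC_sound p12_9_0_117)) (pfC_sound p12_9_0_118)) (pfC_sound p12_9_0_119)) (pfC_sound p12_9_0_120)) (pfC_sound p12_9_0_121)) (pfC_sound p12_9_0_122)) (pfC_sound p12_9_0_123)) (pfC_sound p12_9_0_124)) (pfC_sound p12_9_0_125)) (by decide +kernel)

def z12_9_0 : zOK yB12_9 (nat_lit 0) (nat_lit 0) (nat_lit 400) (nat_lit 30791140) (nat_lit 10817553) = true := by decide +kernel
def g12_9_0 : gOK yB12_9.x P12_9 (nat_lit 1425) (q12_9 :: r12_9) (nat_lit 0) (nat_lit 0) (nat_lit 1) (nat_lit 400) (nat_lit 0) (nat_lit 11000000) (nat_lit 12712500) (nat_lit 12712500) [(nat_lit 800), (nat_lit 1400), (nat_lit 1530)] = true := by decide +kernel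
def v12_9_0 : ivC P12_9 s12_9 w12_9 n12_9 (nat_lit 4) (nat_lit 5480) (nat_lit 0) (nat_lit 0) f144_1_0 f152_1_0 (nat_lit 1) (nat_lit 400) f144_1_400 f152_1_400 (nat_lit 30791140) (nat_lit 10817553) p12_9_0 = true := by decide +kernel
def p12_9_1 : PF := (PF.cons (PF.cons (PF.cons (PF.cons (PF.leaf (nat_lit 2035674) (nat_lit 9475741) (nat_lit 57633071) (nat_lit 9475741) [(nat_lit 0), (nat_lit 0), (nat_lit 0), (nat_lit 0)]) (PF.cons (PF.leaf (nat_lit 2152978) (nat_lit 189834) (nat_lit 57425326) (nat_lit 9493651) [(nat_lit 189834), (nat_lit 0), (nat_lit 0), (nat_lit 0)]) (PF.cons (PF.leaf (nat_lit 2294595) (nat_lit 206877) (nat_lit 57181405) (nat_lit 9513651) [(nat_lit 206877), (nat_lit 0), (nat_lit 0), (nat_lit 0)]) (PF.cons (PF.leaf (nat_lit 2454162) (nat_lit 222174) (nat_lit 56907448) (nat_lit 9534841) [(nat_lit 222174), (nat_lit 0), (nat_lit 0), (nat_lit 0)]) (PF.cons (PF.leaf (nat_lit 2629287) (nat_lit 236133) (nat_lit 56607741) (nat_lit 9556535)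 [(nat_lit 236133), (nat_lit 0), (nat_lit 0), (nat_lit 0)]) (PF.cons (PF.leaf (nat_lit 2818507) (nat_lit 249016) (nat_lit 56285549) (nat_lit 9578183) [(nat_lit 249016), (nat_lit 0), (nat_lit 0), (nat_lit 0)]) (PF.cons PF.nil (PF.cons PF.nil (PF.cons PF.nil PF.nil))))))))) (PF.cons (PF.cons (PF.leaf (nat_lit 2518154) (nat_lit 1049022) (nat_lit 56500893) (nat_lit 9558896) [(nat_lit 0), (nat_lit 1049022), (nat_lit 0), (nat_lit 0)]) (PF.cons (PF.leaf (nat_lit 2675179) (nat_lit 234187)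
 (nat_lit 56223575) (nat_lit 9577094) [(nat_lit 234187), (nat_lit 1073955), (nat_lit 0), (nat_lit 0)]) (PF.cons (PF.leaf (nat_lit 2850766) (nat_lit 247574) (nat_lit 55919079) (nat_lit 9595666) [(nat_lit 247574), (nat_lit 1098918), (nat_lit 0), (nat_lit 0)]) (PF.cons (PF.leaf (nat_lit 3040656) (nat_lit 259869) (nat_lit 55591670) (nat_lit 9614042) [(nat_lit 259869), (nat_lit 1123489), (nat_lit 0), (nat_lit 0)]) (PF.cons (PF.leaf (nat_lit 3243358) (nat_lit 271273) (nat_lit 55244509) (nat_lit 9631778) [(nat_lit 271273), (nat_lit 1147429), (nat_lit 0), (nat_lit 0)]) (PF.cons PF.nil (PF.cons PF.nil PF.nil))))))) (PF.cons (PF.cons (PF.leaf (nat_lit 3078005) (nat_lit 1136005) (nat_lit 55208316) (nat_lit 9628485) [(nat_lit 0), (nat_lit 1136005), (nat_lit 0), (nat_lit 0)]) (PF.cons (PF.leaf (nat_lit 3265646) (nat_lit 269385) (nat_lit 54880044) (nat_lit 9643455) [(nat_lit 269385), (nat_lit 1157963), (nat_lit 0), (nat_lit 0)]) (PF.cons (PF.leaf (nat_lit 3468021)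 (nat_lit 280383) (nat_lit 54531228) (nat_lit 9657715) [(nat_lit 280383), (nat_lit 1179551), (nat_lit 0), (nat_lit 0)]) (PF.cons PF.nil (PF.cons PF.nil PF.nil))))) (PF.cons (PF.cons (PF.leaf (nat_lit 3695903) (nat_lit 1208821) (nat_lit
 53805174) (nat_lit 9677173) [(nat_lit 0), (nat_lit 1208821), (nat_lit 0), (nat_lit 0)]) (PF.cons (PF.leaf (nat_lit 3907540) (nat_lit 298309) (nat_lit 53440042) (nat_lit 9686890) [(nat_lit 298309), (nat_lit 1227856), (nat_lit 0), (nat_lit 0)]) (PF.cons PF.nil (PF.cons PF.nil PF.nil)))) (PF.cons (PF.cons (PF.leaf (nat_lit 4356873) (nat_lit 1269523) (nat_lit 52329145) (nat_lit 9701572) [(nat_lit 0), (nat_lit 1269523), (nat_lit 0), (nat_lit 0)]) (PF.cons PF.nil PF.nil)) (PF.cons PF.nil PF.nil)))))) (PF.cons (PF.cons (PF.cons (PF.leaf (nat_lit 3079667) (nat_lit 2942349) (nat_lit 54536606) (nat_lit 9629857) [(nat_lit 0), (nat_lit 0), (nat_lit 2942349), (nat_lit 0)]) (PF.cons (PF.leaf (nat_lit 3246937) (nat_lit 255561) (nat_lit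 54245745) (nat_lit 9640937) [(nat_lit 255561), (nat_lit 0), (nat_lit 2966568), (nat_lit 0)]) (PF.cons (PF.leaf (nat_lit 3431938) (nat_lit 268389) (nat_lit 53928830) (nat_lit 9651719) [(nat_lit 268389), (nat_lit 0), (nat_lit 2991484), (nat_lit 0)]) (PF.cons (PF.leaf (nat_lit 3630739) (nat_lit 279995) (nat_lit 53590508) (nat_lit 9661783) [(nat_lit 279995), (nat_lit 0), (nat_lit 3016535), (nat_lit 0)]) (PF.cons PF.nil PF.nil))))) (PF.cons (PF.cons (PF.leaf (nat_lit
 3659065) (nat_lit 1199374) (nat_lit 53208675) (nat_lit 9666551) [(nat_lit 0), (nat_lit 1199374), (nat_lit 3034212), (nat_lit 0)]) (PF.cons (PF.leaf (nat_lit 3854378) (nat_lit 287631) (nat_lit 52873043) (nat_lit 9673515) [(nat_lit 287631), (nat_lit 1218196), (nat_lit 3056425), (nat_lit 0)]) (PF.cons (PF.leaf (nat_lit 4063439) (nat_lit 297952) (nat_lit 52518385) (nat_lit 9679403) [(nat_lit 297952), (nat_lit 1236598), (nat_lit 3078520), (nat_lit 0)]) (PF.cons PF.nil PF.nil)))) (PF.cons (PF.cons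 (PF.leaf (nat_lit 4287955) (nat_lit 1259973) (nat_lit 51794879) (nat_lit 9682147) [(nat_lit 0), (nat_lit 1259973), (nat_lit 3111838), (nat_lit 0)]) (PF.cons (PF.leaf (nat_lit 4504628) (nat_lit 313573) (nat_lit 51428295) (nat_lit 9683696) [(nat_lit 313573), (nat_lit 1276110), (nat_lit 3131025), (nat_lit 0)]) PF.nil)) (PF.cons PF.nil (PF.cons PF.nil PF.nil))))) (PF.cons (PF.cons (PF.cons (PF.leaf (nat_lit 4233981) (nat_lit 3107948) (nat_lit 51232246) (nat_lit 9660670) [(nat_lit 0), (nat_lit 0), (nat_lit 3107948), (nat_lit 0)]) (PF.cons (PF.leaf (nat_lit 4434578) (nat_lit 302513) (nat_lit 50894889) (nat_lit 9660506) [(nat_lit 302513), (nat_lit 0), (nat_lit 3125451), (nat_lit 0)]) (PF.cons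
 (PF.leaf (nat_lit 4648299) (nat_lit 312199) (nat_lit 50539963) (nat_lit 9659022) [(nat_lit 312199), (nat_lit 0), (nat_lit 3142714), (nat_lit 0)]) (PF.cons PF.nil PF.nil)))) (PF.cons (PF.cons (PF.leaf (nat_lit 4867903) (nat_lit 1299136) (nat_lit 49828144) (nat_lit 9647635) [(nat_lit 0), (nat_lit 1299136), (nat_lit 3166947), (nat_lit 0)]) (PF.cons PF.nil PF.nil)) (PF.cons PF.nil PF.nil))) (PF.cons (PF.cons (PF.cons (PF.leaf (nat_lit 5432969) (nat_lit 3202304) (nat_lit 47921031) (nat_lit 9580869) [(nat_lit 0), (nat_lit 0), (nat_lit 3202304), (nat_lit 0)]) (PF.cons PF.nil PF.nil)) (PF.cons PF.nil PF.nil)) (PF.cons PF.nil PF.nil))))) (PF.cons (PF.cons (PF.cons (PF.cons (PF.leaf (nat_lit 4075354) (nat_lit 8272671) (nat_lit 49342295) (nat_lit 9493845) [(nat_lit 0), (nat_lit 0), (nat_lit 0), (nat_lit 8272671)]) (PF.cons (PF.leaf (nat_lit 4244259) (nat_lit 269631) (nat_lit 49072077) (nat_lit 9491887) [(nat_lit 269631), (nat_lit 0), (nat_lit 0), (nat_lit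 8275216)]) (PF.cons (PF.leaf (nat_lit 4430047) (nat_lit 281995) (nat_lit 48778915) (nat_lit 9488849) [(nat_lit 281995), (nat_lit 0), (nat_lit 0), (nat_lit 8277057)]) (PF.cons (PF.leaf (nat_lit 4628495) (nat_lit 292974) (nat_lit 48467294)
 (nat_lit 9484601) [(nat_lit 292974), (nat_lit 0), (nat_lit 0), (nat_lit 8277994)]) (PF.cons (PF.leaf (nat_lit 4837773) (nat_lit 302857) (nat_lit 48140461) (nat_lit 9479042) [(nat_lit 302857), (nat_lit 0), (nat_lit 0), (nat_lit 8277878)]) (PF.cons PF.nil (PF.cons PF.nil PF.nil))))))) (PF.cons (PF.cons (PF.leaf (nat_lit 4644146) (nat_lit 1238435) (nat_lit 48122790) (nat_lit 9474406) [(nat_lit 0), (nat_lit 1238435), (nat_lit 0), (nat_lit 8273180)]) (PF.cons (PF.leaf (nat_lit 4838001) (nat_lit 298710) (nat_lit 47816069) (nat_lit 9468150) [(nat_lit 298710), (nat_lit 1253829), (nat_lit 0), (nat_lit 8272053)]) (PF.cons (PF.leaf (nat_lit 5044525) (nat_lit 308307) (nat_lit 47493160) (nat_lit 9460533) [(nat_lit 308307),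 (nat_lit 1268658), (nat_lit 0), (nat_lit 8269846)]) (PF.cons (PF.leaf (nat_lit 5260863) (nat_lit 316979) (nat_lit 47157089) (nat_lit 9451503) [(nat_lit 316979), (nat_lit 1282819), (nat_lit 0), (nat_lit 8266461)]) (PF.cons PF.nil PF.nil))))) (PF.cons (PF.cons (PF.leaf (nat_lit 5252913) (nat_lit 1285089) (nat_lit 46842846) (nat_lit 9437918) [(nat_lit 0), (nat_lit 1285089), (nat_lit 0), (nat_lit 8257868)]) (PF.cons (PF.leaf (nat_lit 5465091) (nat_lit 321363) (nat_lit 46512307)
 (nat_lit 9426993) [(nat_lit 321363), (nat_lit 1297802), (nat_lit 0), (nat_lit 8252543)]) (PF.cons PF.nil (PF.cons PF.nil PF.nil)))) (PF.cons (PF.cons (PF.leaf (nat_lit 5888929) (nat_lit 1322061) (nat_lit 45531399) (nat_lit 9384591) [(nat_lit 0), (nat_lit 1322061), (nat_lit 0), (nat_lit 8226637)]) (PF.cons PF.nil PF.nil)) (PF.cons PF.nil PF.nil))))) (PF.cons (PF.cons (PF.cons (PF.leaf (nat_lit 5177896) (nat_lit 3119763) (nat_lit 46357831) (nat_lit 9402097) [(nat_lit 0), (nat_lit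 0), (nat_lit 3119763), (nat_lit 8229121)]) (PF.cons (PF.leaf (nat_lit 5374784) (nat_lit 309430) (nat_lit 46054080) (nat_lit 9391091) [(nat_lit 309430), (nat_lit 0), (nat_lit 3130851), (nat_lit 8223359)]) (PF.cons (PF.leaf (nat_lit 5583716) (nat_lit 318406) (nat_lit 45735421) (nat_lit 9378615) [(nat_lit 318406), (nat_lit 0), (nat_lit 3141562), (nat_lit 8216400)]) (PF.cons (PF.leaf (nat_lit 5801824) (nat_lit 326440) (nat_lit 45404855) (nat_lit 9364682) [(nat_lit 326440), (nat_lit 0), (nat_lit 3151739), (nat_lit 8208212)]) (PF.cons PF.nil PF.nil))))) (PF.cons (PF.cons (PF.leaf (nat_lit 5786337) (nat_lit 1308896) (nat_lit 45103231) (nat_lit 9347209) [(nat_lit 0), (nat_lit 1308896), (nat_lit 3153738), (nat_lit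
 8195737)]) (PF.cons (PF.leaf (nat_lit 5999784) (nat_lit 329751) (nat_lit 44779413) (nat_lit 9331762) [(nat_lit 329751), (nat_lit 1319578), (nat_lit 3162334), (nat_lit 8185973)]) (PF.cons PF.nil (PF.cons PF.nil PF.nil)))) (PF.cons (PF.cons (PF.leaf (nat_lit 6417381) (nat_lit 1338725) (nat_lit 43828406) (nat_lit 9277379) [(nat_lit 0), (nat_lit 1338725), (nat_lit 3177370), (nat_lit 8148205)]) (PF.cons PF.nil PF.nil)) PF.nil))) (PF.cons (PF.cons (PF.cons (PF.leaf (nat_lit 6304350) (nat_lit 3162766) (nat_lit 43430797) (nat_lit 9237648) [(nat_lit 0), (nat_lit 0), (nat_lit 3162766), (nat_lit 8114833)]) (PF.cons (PF.leaf (nat_lit 6518006) (nat_lit 336190) (nat_lit 43115629) (nat_lit 9218468) [(nat_lit 336190), (nat_lit 0), (nat_lit 3168573), (nat_lit 8101377)]) PF.nil)) (PF.cons PF.nil PF.nil)) (PF.cons PF.nil (PF.cons PF.nil PF.nil))))) (PF.cons (PF.cons (PF.cons (PF.cons (PF.leaf (nat_lit 6014536) (nat_lit 7956592) (nat_lit 42137425) (nat_lit 9058202)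 [(nat_lit 0), (nat_lit 0), (nat_lit 0), (nat_lit 7956592)]) (PF.cons (PF.leaf (nat_lit 6206017) (nat_lit 310597) (nat_lit 41867549) (nat_lit 9041167) [(nat_lit 310597), (nat_lit 0), (nat_lit 0), (nat_lit 7944749)]) (PF.cons (PF.leaf
 (nat_lit 6408733) (nat_lit 318947) (nat_lit 41584949) (nat_lit 9022638) [(nat_lit 318947), (nat_lit 0), (nat_lit 0), (nat_lit 7931665)]) (PF.cons (PF.leaf (nat_lit 6619834) (nat_lit 326331) (nat_lit 41292310) (nat_lit 9002718) [(nat_lit 326331), (nat_lit 0), (nat_lit 0), (nat_lit 7917394)]) (PF.cons PF.nil PF.nil))))) (PF.cons (PF.cons (PF.leaf (nat_lit 6595989) (nat_lit 1298325) (nat_lit 41029132) (nat_lit 8980765) [(nat_lit 0), (nat_lit 1298325), (nat_lit 0), (nat_lit 7900295)]) (PF.cons (PF.leaf (nat_lit 6802090) (nat_lit 328571) (nat_lit 40743228) (nat_lit 8959995) [(nat_lit 328571), (nat_lit 1306853), (nat_lit 0), (nat_lit 7885081)]) (PF.cons PF.nil (PF.cons PF.nil PF.nil)))) (PF.cons (PF.cons (PF.leaf (nat_lit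 7195621) (nat_lit 1320409) (nat_lit 39908858) (nat_lit 8892254) [(nat_lit 0), (nat_lit 1320409), (nat_lit 0), (nat_lit 7833440)]) (PF.cons PF.nil PF.nil)) PF.nil))) (PF.cons (PF.cons (PF.cons (PF.leaf (nat_lit 7072996) (nat_lit 3090396) (nat_lit 39571561) (nat_lit 8850851) [(nat_lit 0), (nat_lit 0), (nat_lit 3090396), (nat_lit 7798002)]) (PF.cons (PF.leaf (nat_lit 7278510) (nat_lit 332813) (nat_lit 39294509) (nat_lit 8827745) [(nat_lit 332813), (nat_lit 0), (nat_lit
 3092916), (nat_lit 7780413)]) PF.nil)) (PF.cons PF.nil PF.nil)) (PF.cons PF.nil PF.nil))) (PF.cons (PF.cons (PF.cons (PF.cons (PF.leaf (nat_lit 7758943) (nat_lit 7467172) (nat_lit 36252634) (nat_lit 8454662) [(nat_lit 0), (nat_lit 0), (nat_lit 0), (nat_lit 7467172)]) (PF.cons PF.nil PF.nil)) (PF.cons PF.nil PF.nil)) (PF.cons PF.nil PF.nil)) (PF.cons PF.nil (PF.cons PF.nil (PF.cons PF.nil (PF.cons PF.nil PF.nil))))))))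

def p12_9_1_0 : pfC (piC [(nat_lit 42686981), (nat_lit 27030628), (nat_lit 20024807), (nat_lit 13470738)] (nat_lit 10817553)) p12_9_1 (nat_lit 4) (nat_lit 0) (nat_lit 1) = true := by decide +kernel
def p12_9_1_1 : pfC (piC [(nat_lit 42686981), (nat_lit 27030628), (nat_lit 20024807), (nat_lit 13470738)] (nat_lit 10817553)) p12_9_1 (nat_lit 4) (nat_lit 1) (nat_lit 2) = true := by decide +kernel
def p12_9_1_2 : pfC (piC [(nat_lit 42686981), (nat_lit 27030628), (nat_lit 20024807), (nat_lit 13470738)] (nat_lit 10817553)) p12_9_1 (nat_lit 4) (nat_lit 2) (nat_lit 3) = true := by decide +kernel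
def p12_9_1_3 : pfC (piC [(nat_lit 42686981), (nat_lit 27030628), (nat_lit 20024807), (nat_lit 13470738)] (nat_lit 10817553)) p12_9_1 (nat_lit 4) (nat_lit 3) (nat_lit 4) = true := by decide +kernel
def p12_9_1_4 : pfC (piC [(nat_lit 42686981), (nat_lit 27030628), (nat_lit 20024807), (nat_lit 13470738)] (nat_lit 10817553)) p12_9_1 (nat_lit 4) (nat_lit 4) (nat_lit 5) = true := by decide +kernel
def p12_9_1_5 : pfC (piC [(nat_lit 42686981), (nat_lit 27030628), (nat_lit 20024807), (nat_lit 13470738)] (nat_lit 10817553)) p12_9_1 (nat_lit 4) (nat_lit 5) (nat_lit 6) = true := by decide +kernel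
def p12_9_1_6 : pfC (piC [(nat_lit 42686981), (nat_lit 27030628), (nat_lit 20024807), (nat_lit 13470738)] (nat_lit 10817553)) p12_9_1 (nat_lit 4) (nat_lit 6) (nat_lit 7) = true := by decide +kernel
def p12_9_1_7 : pfC (piC [(nat_lit 42686981), (nat_lit 27030628), (nat_lit 20024807), (nat_lit 13470738)] (nat_lit 10817553)) p12_9_1 (nat_lit 4) (nat_lit 7) (nat_lit 8) = true := by decide +kernel
def p12_9_1_8 : pfC (piC [(nat_lit 42686981), (nat_lit 27030628), (nat_lit 20024807), (nat_lit 13470738)] (nat_lit 10817553)) p12_9_1 (nat_lit 4) (nat_lit 8) (nat_lit 9) = true := by decide +kernel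
def p12_9_1_9 : pfC (piC [(nat_lit 42686981), (nat_lit 27030628), (nat_lit 20024807), (nat_lit 13470738)] (nat_lit 10817553)) p12_9_1 (nat_lit 4) (nat_lit 9) (nat_lit 10) = true := by decide +kernel
def p12_9_1_10 : pfC (piC [(nat_lit 42686981), (nat_lit 27030628), (nat_lit 20024807), (nat_lit 13470738)] (nat_lit 10817553)) p12_9_1 (nat_lit 4) (nat_lit 10) (nat_lit 11) = true := by decide +kernel
def p12_9_1_11 : pfC (piC [(nat_lit 42686981), (nat_lit 27030628), (nat_lit 20024807), (nat_lit 13470738)] (nat_lit 10817553)) p12_9_1 (nat_lit 4) (nat_lit 11) (nat_lit 12) = true := by decide +kernel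
def p12_9_1_12 : pfC (piC [(nat_lit 42686981), (nat_lit 27030628), (nat_lit 20024807), (nat_lit 13470738)] (nat_lit 10817553)) p12_9_1 (nat_lit 4) (nat_lit 12) (nat_lit 13) = true := by decide +kernel
def p12_9_1_13 : pfC (piC [(nat_lit 42686981), (nat_lit 27030628), (nat_lit 20024807), (nat_lit 13470738)] (nat_lit 10817553)) p12_9_1 (nat_lit 4) (nat_lit 13) (nat_lit 14) = true := by decide +kernel
def p12_9_1_14 : pfC (piC [(nat_lit 42686981), (nat_lit 27030628), (nat_lit 20024807), (nat_lit 13470738)] (nat_lit 10817553)) p12_9_1 (nat_lit 4) (nat_lit 14) (nat_lit 15) = true := by decide +kernel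
def p12_9_1_15 : pfC (piC [(nat_lit 42686981), (nat_lit 27030628), (nat_lit 20024807), (nat_lit 13470738)] (nat_lit 10817553)) p12_9_1 (nat_lit 4) (nat_lit 15) (nat_lit 16) = true := by decide +kernel
def p12_9_1_16 : pfC (piC [(nat_lit 42686981), (nat_lit 27030628), (nat_lit 20024807), (nat_lit 13470738)] (nat_lit 10817553)) p12_9_1 (nat_lit 4) (nat_lit 16) (nat_lit 17) = true := by decide +kernel
def p12_9_1_17 : pfC (piC [(nat_lit 42686981), (nat_lit 27030628), (nat_lit 20024807), (nat_lit 13470738)] (nat_lit 10817553)) p12_9_1 (nat_lit 4) (nat_lit 17) (nat_lit 18) = true := by decide +kernel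
def p12_9_1_18 : pfC (piC [(nat_lit 42686981), (nat_lit 27030628), (nat_lit 20024807), (nat_lit 13470738)] (nat_lit 10817553)) p12_9_1 (nat_lit 4) (nat_lit 18) (nat_lit 19) = true := by decide +kernel
def p12_9_1_19 : pfC (piC [(nat_lit 42686981), (nat_lit 27030628), (nat_lit 20024807), (nat_lit 13470738)] (nat_lit 10817553)) p12_9_1 (nat_lit 4) (nat_lit 19) (nat_lit 20) = true := by decide +kernel
def p12_9_1_20 : pfC (piC [(nat_lit 42686981), (nat_lit 27030628), (nat_lit 20024807), (nat_lit 13470738)] (nat_lit 10817553)) p12_9_1 (nat_lit 4) (nat_lit 20) (nat_lit 21) = true := by decide +kernel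
def p12_9_1_21 : pfC (piC [(nat_lit 42686981), (nat_lit 27030628), (nat_lit 20024807), (nat_lit 13470738)] (nat_lit 10817553)) p12_9_1 (nat_lit 4) (nat_lit 21) (nat_lit 22) = true := by decide +kernel
def p12_9_1_22 : pfC (piC [(nat_lit 42686981), (nat_lit 27030628), (nat_lit 20024807), (nat_lit 13470738)] (nat_lit 10817553)) p12_9_1 (nat_lit 4) (nat_lit 22) (nat_lit 23) = true := by decide +kernel
def p12_9_1_23 : pfC (piC [(nat_lit 42686981), (nat_lit 27030628), (nat_lit 20024807), (nat_lit 13470738)] (nat_lit 10817553)) p12_9_1 (nat_lit 4) (nat_lit 23) (nat_lit 24) = true := by decide +kernel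
def p12_9_1_24 : pfC (piC [(nat_lit 42686981), (nat_lit 27030628), (nat_lit 20024807), (nat_lit 13470738)] (nat_lit 10817553)) p12_9_1 (nat_lit 4) (nat_lit 24) (nat_lit 25) = true := by decide +kernel
def p12_9_1_25 : pfC (piC [(nat_lit 42686981), (nat_lit 27030628), (nat_lit 20024807), (nat_lit 13470738)] (nat_lit 10817553)) p12_9_1 (nat_lit 4) (nat_lit 25) (nat_lit 26) = true := by decide +kernel
def p12_9_1_26 : pfC (piC [(nat_lit 42686981), (nat_lit 27030628), (nat_lit 20024807), (nat_lit 13470738)] (nat_lit 10817553)) p12_9_1 (nat_lit 4) (nat_lit 26) (nat_lit 27) = true := by decide +kernel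
def p12_9_1_27 : pfC (piC [(nat_lit 42686981), (nat_lit 27030628), (nat_lit 20024807), (nat_lit 13470738)] (nat_lit 10817553)) p12_9_1 (nat_lit 4) (nat_lit 27) (nat_lit 28) = true := by decide +kernel
def p12_9_1_28 : pfC (piC [(nat_lit 42686981), (nat_lit 27030628), (nat_lit 20024807), (nat_lit 13470738)] (nat_lit 10817553)) p12_9_1 (nat_lit 4) (nat_lit 28) (nat_lit 29) = true := by decide +kernel
def p12_9_1_29 : pfC (piC [(nat_lit 42686981), (nat_lit 27030628), (nat_lit 20024807), (nat_lit 13470738)] (nat_lit 10817553)) p12_9_1 (nat_lit 4) (nat_lit 29) (nat_lit 30) = true := by decide +kernel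
def p12_9_1_30 : pfC (piC [(nat_lit 42686981), (nat_lit 27030628), (nat_lit 20024807), (nat_lit 13470738)] (nat_lit 10817553)) p12_9_1 (nat_lit 4) (nat_lit 30) (nat_lit 31) = true := by decide +kernel
def p12_9_1_31 : pfC (piC [(nat_lit 42686981), (nat_lit 27030628), (nat_lit 20024807), (nat_lit 13470738)] (nat_lit 10817553)) p12_9_1 (nat_lit 4) (nat_lit 31) (nat_lit 32) = true := by decide +kernel
def p12_9_1_32 : pfC (piC [(nat_lit 42686981), (nat_lit 27030628), (nat_lit 20024807), (nat_lit 13470738)] (nat_lit 10817553)) p12_9_1 (nat_lit 4) (nat_lit 32) (nat_lit 33) = true := by decide +kernel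
def p12_9_1_33 : pfC (piC [(nat_lit 42686981), (nat_lit 27030628), (nat_lit 20024807), (nat_lit 13470738)] (nat_lit 10817553)) p12_9_1 (nat_lit 4) (nat_lit 33) (nat_lit 34) = true := by decide +kernel
def p12_9_1_34 : pfC (piC [(nat_lit 42686981), (nat_lit 27030628), (nat_lit 20024807), (nat_lit 13470738)] (nat_lit 10817553)) p12_9_1 (nat_lit 4) (nat_lit 34) (nat_lit 35) = true := by decide +kernel
def p12_9_1_35 : pfC (piC [(nat_lit 42686981), (nat_lit 27030628), (nat_lit 20024807), (nat_lit 13470738)] (nat_lit 10817553)) p12_9_1 (nat_lit 4) (nat_lit 35) (nat_lit 36) = true := by decide +kernel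
def p12_9_1_36 : pfC (piC [(nat_lit 42686981), (nat_lit 27030628), (nat_lit 20024807), (nat_lit 13470738)] (nat_lit 10817553)) p12_9_1 (nat_lit 4) (nat_lit 36) (nat_lit 37) = true := by decide +kernel
def p12_9_1_37 : pfC (piC [(nat_lit 42686981), (nat_lit 27030628), (nat_lit 20024807), (nat_lit 13470738)] (nat_lit 10817553)) p12_9_1 (nat_lit 4) (nat_lit 37) (nat_lit 38) = true := by decide +kernel
def p12_9_1_38 : pfC (piC [(nat_lit 42686981), (nat_lit 27030628), (nat_lit 20024807), (nat_lit 13470738)] (nat_lit 10817553)) p12_9_1 (nat_lit 4) (nat_lit 38) (nat_lit 39) = true := by decide +kernel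
def p12_9_1_39 : pfC (piC [(nat_lit 42686981), (nat_lit 27030628), (nat_lit 20024807), (nat_lit 13470738)] (nat_lit 10817553)) p12_9_1 (nat_lit 4) (nat_lit 39) (nat_lit 40) = true := by decide +kernel
def p12_9_1_40 : pfC (piC [(nat_lit 42686981), (nat_lit 27030628), (nat_lit 20024807), (nat_lit 13470738)] (nat_lit 10817553)) p12_9_1 (nat_lit 4) (nat_lit 40) (nat_lit 41) = true := by decide +kernel
def p12_9_1_41 : pfC (piC [(nat_lit 42686981), (nat_lit 27030628), (nat_lit 20024807), (nat_lit 13470738)] (nat_lit 10817553)) p12_9_1 (nat_lit 4) (nat_lit 41) (nat_lit 42) = true := by decide +kernel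
def p12_9_1_42 : pfC (piC [(nat_lit 42686981), (nat_lit 27030628), (nat_lit 20024807), (nat_lit 13470738)] (nat_lit 10817553)) p12_9_1 (nat_lit 4) (nat_lit 42) (nat_lit 43) = true := by decide +kernel
def p12_9_1_43 : pfC (piC [(nat_lit 42686981), (nat_lit 27030628), (nat_lit 20024807), (nat_lit 13470738)] (nat_lit 10817553)) p12_9_1 (nat_lit 4) (nat_lit 43) (nat_lit 44) = true := by decide +kernel
def p12_9_1_44 : pfC (piC [(nat_lit 42686981), (nat_lit 27030628), (nat_lit 20024807), (nat_lit 13470738)] (nat_lit 10817553)) p12_9_1 (nat_lit 4) (nat_lit 44) (nat_lit 45) = true := by decide +kernel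
def p12_9_1_45 : pfC (piC [(nat_lit 42686981), (nat_lit 27030628), (nat_lit 20024807), (nat_lit 13470738)] (nat_lit 10817553)) p12_9_1 (nat_lit 4) (nat_lit 45) (nat_lit 46) = true := by decide +kernel
def p12_9_1_46 : pfC (piC [(nat_lit 42686981), (nat_lit 27030628), (nat_lit 20024807), (nat_lit 13470738)] (nat_lit 10817553)) p12_9_1 (nat_lit 4) (nat_lit 46) (nat_lit 47) = true := by decide +kernel
def p12_9_1_47 : pfC (piC [(nat_lit 42686981), (nat_lit 27030628), (nat_lit 20024807), (nat_lit 13470738)] (nat_lit 10817553)) p12_9_1 (nat_lit 4) (nat_lit 47) (nat_lit 48) = true := by decide +kernel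
def p12_9_1_48 : pfC (piC [(nat_lit 42686981), (nat_lit 27030628), (nat_lit 20024807), (nat_lit 13470738)] (nat_lit 10817553)) p12_9_1 (nat_lit 4) (nat_lit 48) (nat_lit 49) = true := by decide +kernel
def p12_9_1_49 : pfC (piC [(nat_lit 42686981), (nat_lit 27030628), (nat_lit 20024807), (nat_lit 13470738)] (nat_lit 10817553)) p12_9_1 (nat_lit 4) (nat_lit 49) (nat_lit 50) = true := by decide +kernel
def p12_9_1_50 : pfC (piC [(nat_lit 42686981), (nat_lit 27030628), (nat_lit 20024807), (nat_lit 13470738)] (nat_lit 10817553)) p12_9_1 (nat_lit 4) (nat_lit 50) (nat_lit 51) = true := by decide +kernel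
def p12_9_1_51 : pfC (piC [(nat_lit 42686981), (nat_lit 27030628), (nat_lit 20024807), (nat_lit 13470738)] (nat_lit 10817553)) p12_9_1 (nat_lit 4) (nat_lit 51) (nat_lit 52) = true := by decide +kernel
def p12_9_1_52 : pfC (piC [(nat_lit 42686981), (nat_lit 27030628), (nat_lit 20024807), (nat_lit 13470738)] (nat_lit 10817553)) p12_9_1 (nat_lit 4) (nat_lit 52) (nat_lit 53) = true := by decide +kernel
def p12_9_1_53 : pfC (piC [(nat_lit 42686981), (nat_lit 27030628), (nat_lit 20024807), (nat_lit 13470738)] (nat_lit 10817553)) p12_9_1 (nat_lit 4) (nat_lit 53) (nat_lit 54) = true := by decide +kernel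
def p12_9_1_54 : pfC (piC [(nat_lit 42686981), (nat_lit 27030628), (nat_lit 20024807), (nat_lit 13470738)] (nat_lit 10817553)) p12_9_1 (nat_lit 4) (nat_lit 54) (nat_lit 55) = true := by decide +kernel
def p12_9_1_55 : pfC (piC [(nat_lit 42686981), (nat_lit 27030628), (nat_lit 20024807), (nat_lit 13470738)] (nat_lit 10817553)) p12_9_1 (nat_lit 4) (nat_lit 55) (nat_lit 56) = true := by decide +kernel
def p12_9_1_56 : pfC (piC [(nat_lit 42686981), (nat_lit 27030628), (nat_lit 20024807), (nat_lit 13470738)] (nat_lit 10817553)) p12_9_1 (nat_lit 4) (nat_lit 56) (nat_lit 57) = true := by decide +kernel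
def p12_9_1_57 : pfC (piC [(nat_lit 42686981), (nat_lit 27030628), (nat_lit 20024807), (nat_lit 13470738)] (nat_lit 10817553)) p12_9_1 (nat_lit 4) (nat_lit 57) (nat_lit 58) = true := by decide +kernel
def p12_9_1_58 : pfC (piC [(nat_lit 42686981), (nat_lit 27030628), (nat_lit 20024807), (nat_lit 13470738)] (nat_lit 10817553)) p12_9_1 (nat_lit 4) (nat_lit 58) (nat_lit 59) = true := by decide +kernel
def p12_9_1_59 : pfC (piC [(nat_lit 42686981), (nat_lit 27030628), (nat_lit 20024807), (nat_lit 13470738)] (nat_lit 10817553)) p12_9_1 (nat_lit 4) (nat_lit 59) (nat_lit 60) = true := by decide +kernel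
def p12_9_1_60 : pfC (piC [(nat_lit 42686981), (nat_lit 27030628), (nat_lit 20024807), (nat_lit 13470738)] (nat_lit 10817553)) p12_9_1 (nat_lit 4) (nat_lit 60) (nat_lit 61) = true := by decide +kernel
def p12_9_1_61 : pfC (piC [(nat_lit 42686981), (nat_lit 27030628), (nat_lit 20024807), (nat_lit 13470738)] (nat_lit 10817553)) p12_9_1 (nat_lit 4) (nat_lit 61) (nat_lit 62) = true := by decide +kernel
theorem p12_9_1_T : PfS (PiF n12_9.reverse (nat_lit 10817553)) p12_9_1 (nat_lit 4) [] 0 :=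
  pftab_of (los := [(nat_lit 42686981), (nat_lit 27030628), (nat_lit 20024807), (nat_lit 13470738)]) (by decide +kernel) (hi := (nat_lit 62)) (PfP.trans (PfP.trans (PfP.trans (PfP.trans (PfP.trans (PfP.trans (PfP.trans (PfP.trans (PfP.trans (PfP.trans (PfP.trans (PfP.trans (PfP.trans (PfP.trans (PfP.trans (PfP.trans (PfP.trans (PfP.trans (PfP.trans (PfP.trans (PfP.trans (PfP.trans (PfP.trans (PfP.trans (PfP.trans (PfP.trans (PfP.trans (PfP.trans (PfP.trans (PfP.trans (PfP.trans (PfP.trans (PfP.trans (PfP.trans (PfP.trans (PfP.trans (PfP.trans (PfP.trans (PfP.trans (PfP.trans (PfP.trans (PfP.trans (PfP.trans (PfP.trans (PfP.trans (PfP.trans (PfP.trans (PfP.trans (PfP.trans (PfP.trans (PfP.trans (PfP.trans (PfP.trans (PfP.trans (PfP.trans (PfP.trans (PfP.trans (PfP.trans (PfP.trans (PfP.trans (PfP.trans (pfC_sound p12_9_1_0) (pfC_sound p12_9_1_1)) (pfC_sound p12_9_1_2)) (pfC_sound p12_9_1_3)) (pfC_sound p12_9_1_4)) (pfC_sound p12_9_1_5)) (pfC_sound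 p12_9_1_6)) (pfC_sound p12_9_1_7)) (pfC_sound p12_9_1_8)) (pfC_sound p12_9_1_9)) (pfC_sound p12_9_1_10)) (pfC_sound p12_9_1_11)) (pfC_sound p12_9_1_12)) (pfC_sound p12_9_1_13)) (pfC_sound p12_9_1_14)) (pfC_sound p12_9_1_15)) (pfC_sound p12_9_1_16)) (pfC_sound p12_9_1_17)) (pfC_sound p12_9_1_18)) (pfC_sound p12_9_1_19)) (pfC_sound p12_9_1_20)) (pfC_sound p12_9_1_21)) (pfC_sound
 p12_9_1_22)) (pfC_sound p12_9_1_23)) (pfC_sound p12_9_1_24)) (pfC_sound p12_9_1_25)) (pfC_sound p12_9_1_26)) (pfC_sound p12_9_1_27)) (pfC_sound p12_9_1_28)) (pfC_sound p12_9_1_29)) (pfC_sound p12_9_1_30)) (pfC_sound p12_9_1_31)) (pfC_sound p12_9_1_32)) (pfC_sound p12_9_1_33)) (pfC_sound p12_9_1_34)) (pfC_sound p12_9_1_35)) (pfC_sound p12_9_1_36)) (pfC_sound p12_9_1_37)) (pfC_sound p12_9_1_38)) (pfC_sound p12_9_1_39)) (pfC_sound p12_9_1_40)) (pfC_sound p12_9_1_41)) (pfC_sound p12_9_1_42)) (pfC_sound p12_9_1_43)) (pfC_sound p12_9_1_44)) (pfC_sound p12_9_1_45)) (pfC_sound p12_9_1_46))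 (pfC_sound p12_9_1_47)) (pfC_sound p12_9_1_48)) (pfC_sound p12_9_1_49)) (pfC_sound p12_9_1_50)) (pfC_sound p12_9_1_51)) (pfC_sound p12_9_1_52)) (pfC_sound p12_9_1_53)) (pfC_sound p12_9_1_54)) (pfC_sound p12_9_1_55)) (pfC_sound p12_9_1_56)) (pfC_sound p12_9_1_57)) (pfC_sound p12_9_1_58)) (pfC_sound p12_9_1_59)) (pfC_sound p12_9_1_60)) (pfC_sound p12_9_1_61)) (by decide +kernel)

def z12_9_1 : zOK yB12_9 (nat_lit 1) (nat_lit 400) (nat_lit 600) (nat_lit 10817553) (nat_lit 7236065) = true := by decide +kernel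
def g12_9_1 : gOK yB12_9.x P12_9 (nat_lit 1425) (q12_9 :: r12_9) (nat_lit 1) (nat_lit 400) (nat_lit 2) (nat_lit 600) (nat_lit 11000000) (nat_lit 17850000) (nat_lit 12712500) (nat_lit 12712500) [(nat_lit 800), (nat_lit 1040)] = true := by decide +kernel
def v12_9_1 : ivC P12_9 s12_9 w12_9 n12_9 (nat_lit 4) (nat_lit 5080) (nat_lit 1) (nat_lit 400) f144_1_400 f152_1_400 (nat_lit 2) (nat_lit 600) f144_1_600 f152_1_600 (nat_lit 10817553) (nat_lit 7236065) p12_9_1 = true := by decide +kernel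
def p12_9_2 : PF := (PF.cons (PF.cons (PF.cons (PF.cons (PF.leaf (nat_lit 2657485) (nat_lit 15009337) (nat_lit 52099475) (nat_lit 15009337) [(nat_lit 0), (nat_lit 0), (nat_lit 0), (nat_lit 0)]) (PF.cons (PF.leaf (nat_lit 2773053) (nat_lit 192078) (nat_lit 51915354) (nat_lit 15001379) [(nat_lit 192078), (nat_lit 0), (nat_lit 0), (nat_lit 0)]) (PF.cons (PF.leaf (nat_lit 2912306) (nat_lit 208961) (nat_lit 51699498) (nat_lit 14991391) [(nat_lit 208961), (nat_lit 0), (nat_lit 0), (nat_lit 0)]) (PF.cons (PF.leaf (nat_lit 3068823) (nat_lit 223995) (nat_lit 51457458) (nat_lit 14979368) [(nat_lit 223995), (nat_lit 0), (nat_lit 0), (nat_lit 0)]) (PF.cons (PF.leaf (nat_lit 3240254) (nat_lit 237605) (nat_lit 51193125) (nat_lit 14965265) [(nat_lit 237605), (nat_lit 0), (nat_lit 0), (nat_lit 0)]) (PF.cons (PF.leaf (nat_lit 3424782) (nat_lit 250064) (nat_lit 50909465) (nat_lit 14949024) [(nat_lit 250064), (nat_lit 0), (nat_lit 0), (nat_lit 0)]) (PF.cons (PF.leaf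 (nat_lit 3621046) (nat_lit 261559) (nat_lit 50608870) (nat_lit 14930585) [(nat_lit 261559), (nat_lit 0), (nat_lit 0), (nat_lit 0)]) (PF.cons PF.nil (PF.cons PF.nil PF.nil))))))))) (PF.cons (PF.cons (PF.leaf (nat_lit 3125641) (nat_lit 1051568) (nat_lit
 51100404) (nat_lit 14956839) [(nat_lit 0), (nat_lit 1051568), (nat_lit 0), (nat_lit 0)]) (PF.cons (PF.leaf (nat_lit 3278887) (nat_lit 235070) (nat_lit 50856377) (nat_lit 14942561) [(nat_lit 235070), (nat_lit 1074804), (nat_lit 0), (nat_lit 0)]) (PF.cons (PF.leaf (nat_lit 3449916) (nat_lit 248061) (nat_lit 50588847) (nat_lit 14925961) [(nat_lit 248061), (nat_lit 1097881), (nat_lit 0), (nat_lit 0)]) (PF.cons (PF.leaf (nat_lit 3634450) (nat_lit 259898) (nat_lit 50301643) (nat_lit 14907059) [(nat_lit 259898), (nat_lit 1120414), (nat_lit 0), (nat_lit 0)]) (PF.cons (PF.leaf (nat_lit 3830981) (nat_lit 270792) (nat_lit 49997600) (nat_lit 14885847) [(nat_lit 270792), (nat_lit 1142195), (nat_lit 0), (nat_lit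 0)]) (PF.cons (PF.leaf (nat_lit 4038031) (nat_lit 280884) (nat_lit 49678962) (nat_lit 14862313) [(nat_lit 280884), (nat_lit 1163113), (nat_lit 0), (nat_lit 0)]) (PF.cons PF.nil PF.nil))))))) (PF.cons (PF.cons (PF.leaf (nat_lit 3664413) (nat_lit 1130584) (nat_lit 49967324) (nat_lit 14880320) [(nat_lit 0), (nat_lit 1130584), (nat_lit 0), (nat_lit 0)]) (PF.cons (PF.leaf (nat_lit 3846072) (nat_lit 268390) (nat_lit 49680309) (nat_lit 14859029) [(nat_lit 268390), (nat_lit 1150541), (nat_lit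
 0), (nat_lit 0)]) (PF.cons (PF.leaf (nat_lit 4041639) (nat_lit 278863) (nat_lit 49375764) (nat_lit 14835280) [(nat_lit 278863), (nat_lit 1170020), (nat_lit 0), (nat_lit 0)]) (PF.cons (PF.leaf (nat_lit 4247994) (nat_lit 288520) (nat_lit 49056433) (nat_lit 14809118) [(nat_lit 288520), (nat_lit 1188849), (nat_lit 0), (nat_lit 0)]) (PF.cons PF.nil PF.nil))))) (PF.cons (PF.cons (PF.leaf (nat_lit 4254867) (nat_lit 1195111) (nat_lit 48744530) (nat_lit 14778948) [(nat_lit 0), (nat_lit 1195111), (nat_lit 0), (nat_lit 0)]) (PF.cons (PF.leaf (nat_lit 4458405) (nat_lit 295213) (nat_lit 48427012) (nat_lit 14750438) [(nat_lit 295213), (nat_lit 1212049), (nat_lit 0), (nat_lit 0)]) (PF.cons (PF.leaf (nat_lit 4672917) (nat_lit 303840) (nat_lit 48096467) (nat_lit 14719469) [(nat_lit 303840), (nat_lit 1228398), (nat_lit 0), (nat_lit 0)]) (PF.cons PF.nil PF.nil)))) (PF.cons (PF.cons (PF.leaf (nat_lit 4882923) (nat_lit 1247763) (nat_lit 47464476) (nat_lit 14653282)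 [(nat_lit 0), (nat_lit 1247763), (nat_lit 0), (nat_lit 0)]) (PF.cons PF.nil PF.nil)) (PF.cons PF.nil PF.nil)))))) (PF.cons (PF.cons (PF.cons (PF.leaf (nat_lit 3652866) (nat_lit 2902882) (nat_lit 49388186) (nat_lit 14817744) [(nat_lit 0),
 (nat_lit 0), (nat_lit 2902882), (nat_lit 0)]) (PF.cons (PF.leaf (nat_lit 3814683) (nat_lit 253942) (nat_lit 49134415) (nat_lit 14797275) [(nat_lit 253942), (nat_lit 0), (nat_lit 2923179), (nat_lit 0)]) (PF.cons (PF.leaf (nat_lit 3993593) (nat_lit 266294) (nat_lit 48858231) (nat_lit 14774081) [(nat_lit 266294), (nat_lit 0), (nat_lit 2943910), (nat_lit 0)]) (PF.cons (PF.leaf (nat_lit 4185325) (nat_lit 277388) (nat_lit 48563739) (nat_lit 14748311) [(nat_lit 277388), (nat_lit 0), (nat_lit 2964597), (nat_lit 0)]) (PF.cons (PF.leaf (nat_lit 4388260) (nat_lit 287478) (nat_lit 48253918) (nat_lit 14720062) [(nat_lit 287478), (nat_lit 0), (nat_lit 2984919), (nat_lit 0)]) (PF.cons PF.nil (PF.cons PF.nil PF.nil))))))) (PF.cons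 (PF.cons (PF.leaf (nat_lit 4206690) (nat_lit 1183221) (nat_lit 48233072) (nat_lit 14714834) [(nat_lit 0), (nat_lit 1183221), (nat_lit 2977684), (nat_lit 0)]) (PF.cons (PF.leaf (nat_lit 4394543) (nat_lit 284089) (nat_lit 47941599) (nat_lit 14687117) [(nat_lit 284089), (nat_lit 1200186), (nat_lit 2995820), (nat_lit 0)]) (PF.cons (PF.leaf (nat_lit 4595419) (nat_lit 293869) (nat_lit 47633915) (nat_lit 14656772) [(nat_lit 293869), (nat_lit 1216661), (nat_lit 3013723),
 (nat_lit 0)]) (PF.cons (PF.leaf (nat_lit 4806423) (nat_lit 302792) (nat_lit 47312840) (nat_lit 14623934) [(nat_lit 302792), (nat_lit 1232514), (nat_lit 3031145), (nat_lit 0)]) (PF.cons PF.nil PF.nil))))) (PF.cons (PF.cons (PF.leaf (nat_lit 4804778) (nat_lit 1236435) (nat_lit 47008383) (nat_lit 14588429) [(nat_lit 0), (nat_lit 1236435), (nat_lit 3039129), (nat_lit 0)]) (PF.cons (PF.leaf (nat_lit 5012185) (nat_lit 308047) (nat_lit 46691219) (nat_lit 14553731) [(nat_lit 308047), (nat_lit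 1250714), (nat_lit 3054385), (nat_lit 0)]) (PF.cons PF.nil (PF.cons PF.nil PF.nil)))) (PF.cons (PF.cons (PF.leaf (nat_lit 5434137) (nat_lit 1279474) (nat_lit 45742878) (nat_lit 14440116) [(nat_lit 0), (nat_lit 1279474), (nat_lit 3087393), (nat_lit 0)]) (PF.cons PF.nil PF.nil)) (PF.cons PF.nil PF.nil))))) (PF.cons (PF.cons (PF.cons (PF.leaf (nat_lit 4741631) (nat_lit 3030874) (nat_lit 46527919) (nat_lit 14519144) [(nat_lit 0), (nat_lit 0), (nat_lit 3030874), (nat_lit 0)]) (PF.cons (PF.leaf (nat_lit 4933818) (nat_lit 296759) (nat_lit 46236247) (nat_lit 14485924) [(nat_lit 296759), (nat_lit 0), (nat_lit 3044940), (nat_lit 0)]) (PF.cons (PF.leaf (nat_lit 5138337) (nat_lit 305913) (nat_lit 45929593)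
 (nat_lit 14449990) [(nat_lit 305913), (nat_lit 0), (nat_lit 3058700), (nat_lit 0)]) (PF.cons PF.nil (PF.cons PF.nil PF.nil))))) (PF.cons (PF.cons (PF.leaf (nat_lit 5342759) (nat_lit 1267489) (nat_lit 45316291) (nat_lit 14371935) [(nat_lit 0), (nat_lit 1267489), (nat_lit 3076548), (nat_lit 0)]) (PF.cons (PF.leaf (nat_lit 5552532) (nat_lit 318240) (nat_lit 45002918) (nat_lit 14332116) [(nat_lit 318240), (nat_lit 1279527), (nat_lit 3088004), (nat_lit 0)]) (PF.cons PF.nil (PF.cons PF.nil PF.nil)))) (PF.cons (PF.cons (PF.leaf (nat_lit 5969915) (nat_lit 1302519) (nat_lit 44076678) (nat_lit 14205385) [(nat_lit 0), (nat_lit 1302519), (nat_lit 3110855), (nat_lit 0)]) (PF.cons PF.nil PF.nil)) PF.nil))) (PF.cons (PF.cons (PF.cons (PF.leaf (nat_lit 5867039) (nat_lit 3098160) (nat_lit 43678887) (nat_lit 14135443) [(nat_lit 0), (nat_lit 0), (nat_lit 3098160), (nat_lit 0)]) (PF.cons (PF.leaf (nat_lit 6077936) (nat_lit 326228) (nat_lit 43371787) (nat_lit 14091502)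 [(nat_lit 326228), (nat_lit 0), (nat_lit 3106431), (nat_lit 0)]) PF.nil)) (PF.cons PF.nil PF.nil)) (PF.cons PF.nil (PF.cons PF.nil PF.nil)))))) (PF.cons (PF.cons (PF.cons (PF.cons (PF.leaf (nat_lit 4559203) (nat_lit 7952328) (nat_lit
 44937761) (nat_lit 14218722) [(nat_lit 0), (nat_lit 0), (nat_lit 0), (nat_lit 7952328)]) (PF.cons (PF.leaf (nat_lit 4721611) (nat_lit 264016) (nat_lit 44703829) (nat_lit 14190042) [(nat_lit 264016), (nat_lit 0), (nat_lit 0), (nat_lit 7950924)]) (PF.cons (PF.leaf (nat_lit 4900051) (nat_lit 275876) (nat_lit 44450151) (nat_lit 14158255) [(nat_lit 275876), (nat_lit 0), (nat_lit 0), (nat_lit 7948654)]) (PF.cons (PF.leaf (nat_lit 5090524) (nat_lit 286354) (nat_lit 44180623) (nat_lit 14123709) [(nat_lit 286354), (nat_lit 0), (nat_lit 0), (nat_lit 7945415)]) (PF.cons (PF.leaf (nat_lit 5291259) (nat_lit 295742) (nat_lit 43898060) (nat_lit 14086651) [(nat_lit 295742), (nat_lit 0), (nat_lit 0), (nat_lit 7941132)]) (PF.cons (PF.leaf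 (nat_lit 5500705) (nat_lit 304235) (nat_lit 43604623) (nat_lit 14047264) [(nat_lit 304235), (nat_lit 0), (nat_lit 0), (nat_lit 7935746)]) (PF.cons PF.nil PF.nil))))))) (PF.cons (PF.cons (PF.leaf (nat_lit 5101246) (nat_lit 1206589) (nat_lit 43883817) (nat_lit 14081826) [(nat_lit 0), (nat_lit 1206589), (nat_lit 0), (nat_lit 7936579)]) (PF.cons (PF.leaf (nat_lit 5286955) (nat_lit 291439) (nat_lit 43618741) (nat_lit 14046244) [(nat_lit 291439), (nat_lit 1220631),
 (nat_lit 0), (nat_lit 7931756)]) (PF.cons (PF.leaf (nat_lit 5484737) (nat_lit 300550) (nat_lit 43339769) (nat_lit 14007996) [(nat_lit 300550), (nat_lit 1234086), (nat_lit 0), (nat_lit 7925858)]) (PF.cons (PF.leaf (nat_lit 5691740) (nat_lit 308746) (nat_lit 43049517) (nat_lit 13967341) [(nat_lit 308746), (nat_lit 1246867), (nat_lit 0), (nat_lit 7918848)]) (PF.cons PF.nil PF.nil))))) (PF.cons (PF.cons (PF.leaf (nat_lit 5679856) (nat_lit 1248198) (nat_lit 42779165) (nat_lit 13925808) [(nat_lit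 0), (nat_lit 1248198), (nat_lit 0), (nat_lit 7907442)]) (PF.cons (PF.leaf (nat_lit 5882605) (nat_lit 312547) (nat_lit 42493819) (nat_lit 13884209) [(nat_lit 312547), (nat_lit 1259635), (nat_lit 0), (nat_lit 7898965)]) (PF.cons (PF.leaf (nat_lit 6094678) (nat_lit 319771) (nat_lit 42198646) (nat_lit 13840311) [(nat_lit 319771), (nat_lit 1270484), (nat_lit 0), (nat_lit 7889342)]) (PF.cons PF.nil PF.nil)))) (PF.cons (PF.cons (PF.leaf (nat_lit 6283211) (nat_lit 1280666) (nat_lit 41648222) (nat_lit 13753314) [(nat_lit 0), (nat_lit 1280666), (nat_lit 0), (nat_lit 7865275)]) (PF.cons PF.nil PF.nil)) (PF.cons PF.nil PF.nil))))) (PF.cons (PF.cons (PF.cons (PF.leaf (nat_lit 5600116) (nat_lit 3015947)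
 (nat_lit 42365175) (nat_lit 13851456) [(nat_lit 0), (nat_lit 0), (nat_lit 3015947), (nat_lit 7876234)]) (PF.cons (PF.leaf (nat_lit 5788376) (nat_lit 300734) (nat_lit 42102915) (nat_lit 13812355) [(nat_lit 300734), (nat_lit 0), (nat_lit 3024980), (nat_lit 7867826)]) (PF.cons (PF.leaf (nat_lit 5988131) (nat_lit 309249) (nat_lit 41827824) (nat_lit 13770598) [(nat_lit 309249), (nat_lit 0), (nat_lit 3033621), (nat_lit 7858270)]) (PF.cons (PF.leaf (nat_lit 6196525) (nat_lit 316839) (nat_lit 41542484) (nat_lit 13726490) [(nat_lit 316839), (nat_lit 0), (nat_lit 3041742), (nat_lit 7847578)]) (PF.cons PF.nil PF.nil))))) (PF.cons (PF.cons (PF.leaf (nat_lit 6177875) (nat_lit 1267224) (nat_lit 41283037) (nat_lit 13682938) [(nat_lit 0), (nat_lit 1267224), (nat_lit 3042248), (nat_lit 7833362)]) (PF.cons (PF.leaf (nat_lit 6381618) (nat_lit 319675) (nat_lit 41003542) (nat_lit 13638258) [(nat_lit 319675), (nat_lit 1276833), (nat_lit 3048999), (nat_lit 7821502)])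 (PF.cons PF.nil (PF.cons PF.nil PF.nil)))) (PF.cons (PF.cons (PF.leaf (nat_lit 6776424) (nat_lit 1293379) (nat_lit 40183523) (nat_lit 13500156) [(nat_lit 0), (nat_lit 1293379), (nat_lit 3059401), (nat_lit 7778972)]) (PF.cons PF.nil PF.nil))
 PF.nil))) (PF.cons (PF.cons (PF.cons (PF.leaf (nat_lit 6662172) (nat_lit 3044337) (nat_lit 39844039) (nat_lit 13430341) [(nat_lit 0), (nat_lit 0), (nat_lit 3044337), (nat_lit 7745757)]) (PF.cons (PF.leaf (nat_lit 6865981) (nat_lit 325113) (nat_lit 39571830) (nat_lit 13383302) [(nat_lit 325113), (nat_lit 0), (nat_lit 3048732), (nat_lit 7731100)]) PF.nil)) (PF.cons PF.nil PF.nil)) (PF.cons PF.nil (PF.cons PF.nil PF.nil))))) (PF.cons (PF.cons (PF.cons (PF.cons (PF.leaf (nat_lit 6370077) (nat_lit 7596730) (nat_lit 38750078) (nat_lit 13165272) [(nat_lit 0), (nat_lit 0), (nat_lit 0), (nat_lit 7596730)]) (PF.cons (PF.leaf (nat_lit 6553273) (nat_lit 300451) (nat_lit 38516226) (nat_lit 13123907) [(nat_lit 300451), (nat_lit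 0), (nat_lit 0), (nat_lit 7584113)]) (PF.cons (PF.leaf (nat_lit 6747258) (nat_lit 308402) (nat_lit 38271314) (nat_lit 13080021) [(nat_lit 308402), (nat_lit 0), (nat_lit 0), (nat_lit 7570336)]) (PF.cons PF.nil (PF.cons PF.nil PF.nil))))) (PF.cons (PF.cons (PF.leaf (nat_lit 6923739) (nat_lit 1252312) (nat_lit 37790207) (nat_lit 12989741) [(nat_lit 0), (nat_lit 1252312), (nat_lit 0), (nat_lit 7538275)]) (PF.cons (PF.leaf (nat_lit 7120729) (nat_lit 317362) (nat_lit 37542284)
 (nat_lit 12943625) [(nat_lit 317362), (nat_lit 1260121), (nat_lit 0), (nat_lit 7522709)]) (PF.cons PF.nil (PF.cons PF.nil PF.nil)))) (PF.cons (PF.cons (PF.leaf (nat_lit 7494536) (nat_lit 1272099) (nat_lit 36819061) (nat_lit 12803518) [(nat_lit 0), (nat_lit 1272099), (nat_lit 0), (nat_lit 7471016)]) (PF.cons PF.nil PF.nil)) PF.nil))) (PF.cons (PF.cons (PF.cons (PF.leaf (nat_lit 7372974) (nat_lit 2968289) (nat_lit 36529158) (nat_lit 12736884) [(nat_lit 0), (nat_lit 0), (nat_lit 2968289),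 (nat_lit 7437240)]) (PF.cons (PF.leaf (nat_lit 7569475) (nat_lit 321027) (nat_lit 36288492) (nat_lit 12689517) [(nat_lit 321027), (nat_lit 0), (nat_lit 2970104), (nat_lit 7419835)]) PF.nil)) (PF.cons PF.nil PF.nil)) (PF.cons PF.nil PF.nil))) (PF.cons (PF.cons (PF.cons (PF.cons (PF.leaf (nat_lit 8014686) (nat_lit 7125088) (nat_lit 33657321) (nat_lit 12076227) [(nat_lit 0), (nat_lit 0), (nat_lit 0), (nat_lit 7125088)]) (PF.cons PF.nil PF.nil)) (PF.cons PF.nil PF.nil)) (PF.cons PF.nil PF.nil)) (PF.cons PF.nil (PF.cons PF.nil (PF.cons PF.nil (PF.cons PF.nil PF.nil))))))))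

def p12_9_2_0 : pfC (piC [(nat_lit 42686981), (nat_lit 27030628), (nat_lit 20024807), (nat_lit 13470738)] (nat_lit 7236065)) p12_9_2 (nat_lit 4) (nat_lit 0) (nat_lit 1) = true := by decide +kernel
def p12_9_2_1 : pfC (piC [(nat_lit 42686981), (nat_lit 27030628), (nat_lit 20024807), (nat_lit 13470738)] (nat_lit 7236065)) p12_9_2 (nat_lit 4) (nat_lit 1) (nat_lit 2) = true := by decide +kernel
def p12_9_2_2 : pfC (piC [(nat_lit 42686981), (nat_lit 27030628), (nat_lit 20024807), (nat_lit 13470738)] (nat_lit 7236065)) p12_9_2 (nat_lit 4) (nat_lit 2) (nat_lit 3) = true := by decide +kernel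
def p12_9_2_3 : pfC (piC [(nat_lit 42686981), (nat_lit 27030628), (nat_lit 20024807), (nat_lit 13470738)] (nat_lit 7236065)) p12_9_2 (nat_lit 4) (nat_lit 3) (nat_lit 4) = true := by decide +kernel
def p12_9_2_4 : pfC (piC [(nat_lit 42686981), (nat_lit 27030628), (nat_lit 20024807), (nat_lit 13470738)] (nat_lit 7236065)) p12_9_2 (nat_lit 4) (nat_lit 4) (nat_lit 5) = true := by decide +kernel
def p12_9_2_5 : pfC (piC [(nat_lit 42686981), (nat_lit 27030628), (nat_lit 20024807), (nat_lit 13470738)] (nat_lit 7236065)) p12_9_2 (nat_lit 4) (nat_lit 5) (nat_lit 6) = true := by decide +kernel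
def p12_9_2_6 : pfC (piC [(nat_lit 42686981), (nat_lit 27030628), (nat_lit 20024807), (nat_lit 13470738)] (nat_lit 7236065)) p12_9_2 (nat_lit 4) (nat_lit 6) (nat_lit 7) = true := by decide +kernel
def p12_9_2_7 : pfC (piC [(nat_lit 42686981), (nat_lit 27030628), (nat_lit 20024807), (nat_lit 13470738)] (nat_lit 7236065)) p12_9_2 (nat_lit 4) (nat_lit 7) (nat_lit 8) = true := by decide +kernel
def p12_9_2_8 : pfC (piC [(nat_lit 42686981), (nat_lit 27030628), (nat_lit 20024807), (nat_lit 13470738)] (nat_lit 7236065)) p12_9_2 (nat_lit 4) (nat_lit 8) (nat_lit 9) = true := by decide +kernel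
def p12_9_2_9 : pfC (piC [(nat_lit 42686981), (nat_lit 27030628), (nat_lit 20024807), (nat_lit 13470738)] (nat_lit 7236065)) p12_9_2 (nat_lit 4) (nat_lit 9) (nat_lit 10) = true := by decide +kernel
def p12_9_2_10 : pfC (piC [(nat_lit 42686981), (nat_lit 27030628), (nat_lit 20024807), (nat_lit 13470738)] (nat_lit 7236065)) p12_9_2 (nat_lit 4) (nat_lit 10) (nat_lit 11) = true := by decide +kernel
def p12_9_2_11 : pfC (piC [(nat_lit 42686981), (nat_lit 27030628), (nat_lit 20024807), (nat_lit 13470738)] (nat_lit 7236065)) p12_9_2 (nat_lit 4) (nat_lit 11) (nat_lit 12) = true := by decide +kernel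
def p12_9_2_12 : pfC (piC [(nat_lit 42686981), (nat_lit 27030628), (nat_lit 20024807), (nat_lit 13470738)] (nat_lit 7236065)) p12_9_2 (nat_lit 4) (nat_lit 12) (nat_lit 13) = true := by decide +kernel
def p12_9_2_13 : pfC (piC [(nat_lit 42686981), (nat_lit 27030628), (nat_lit 20024807), (nat_lit 13470738)] (nat_lit 7236065)) p12_9_2 (nat_lit 4) (nat_lit 13) (nat_lit 14) = true := by decide +kernel
def p12_9_2_14 : pfC (piC [(nat_lit 42686981), (nat_lit 27030628), (nat_lit 20024807), (nat_lit 13470738)] (nat_lit 7236065)) p12_9_2 (nat_lit 4) (nat_lit 14) (nat_lit 15) = true := by decide +kernel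
def p12_9_2_15 : pfC (piC [(nat_lit 42686981), (nat_lit 27030628), (nat_lit 20024807), (nat_lit 13470738)] (nat_lit 7236065)) p12_9_2 (nat_lit 4) (nat_lit 15) (nat_lit 16) = true := by decide +kernel
def p12_9_2_16 : pfC (piC [(nat_lit 42686981), (nat_lit 27030628), (nat_lit 20024807), (nat_lit 13470738)] (nat_lit 7236065)) p12_9_2 (nat_lit 4) (nat_lit 16) (nat_lit 17) = true := by decide +kernel
def p12_9_2_17 : pfC (piC [(nat_lit 42686981), (nat_lit 27030628), (nat_lit 20024807), (nat_lit 13470738)] (nat_lit 7236065)) p12_9_2 (nat_lit 4) (nat_lit 17) (nat_lit 18) = true := by decide +kernel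
def p12_9_2_18 : pfC (piC [(nat_lit 42686981), (nat_lit 27030628), (nat_lit 20024807), (nat_lit 13470738)] (nat_lit 7236065)) p12_9_2 (nat_lit 4) (nat_lit 18) (nat_lit 19) = true := by decide +kernel
def p12_9_2_19 : pfC (piC [(nat_lit 42686981), (nat_lit 27030628), (nat_lit 20024807), (nat_lit 13470738)] (nat_lit 7236065)) p12_9_2 (nat_lit 4) (nat_lit 19) (nat_lit 20) = true := by decide +kernel
def p12_9_2_20 : pfC (piC [(nat_lit 42686981), (nat_lit 27030628), (nat_lit 20024807), (nat_lit 13470738)] (nat_lit 7236065)) p12_9_2 (nat_lit 4) (nat_lit 20) (nat_lit 21) = true := by decide +kernel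
def p12_9_2_21 : pfC (piC [(nat_lit 42686981), (nat_lit 27030628), (nat_lit 20024807), (nat_lit 13470738)] (nat_lit 7236065)) p12_9_2 (nat_lit 4) (nat_lit 21) (nat_lit 22) = true := by decide +kernel
def p12_9_2_22 : pfC (piC [(nat_lit 42686981), (nat_lit 27030628), (nat_lit 20024807), (nat_lit 13470738)] (nat_lit 7236065)) p12_9_2 (nat_lit 4) (nat_lit 22) (nat_lit 23) = true := by decide +kernel
def p12_9_2_23 : pfC (piC [(nat_lit 42686981), (nat_lit 27030628), (nat_lit 20024807), (nat_lit 13470738)] (nat_lit 7236065)) p12_9_2 (nat_lit 4) (nat_lit 23) (nat_lit 24) = true := by decide +kernel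
def p12_9_2_24 : pfC (piC [(nat_lit 42686981), (nat_lit 27030628), (nat_lit 20024807), (nat_lit 13470738)] (nat_lit 7236065)) p12_9_2 (nat_lit 4) (nat_lit 24) (nat_lit 25) = true := by decide +kernel
def p12_9_2_25 : pfC (piC [(nat_lit 42686981), (nat_lit 27030628), (nat_lit 20024807), (nat_lit 13470738)] (nat_lit 7236065)) p12_9_2 (nat_lit 4) (nat_lit 25) (nat_lit 26) = true := by decide +kernel
def p12_9_2_26 : pfC (piC [(nat_lit 42686981), (nat_lit 27030628), (nat_lit 20024807), (nat_lit 13470738)] (nat_lit 7236065)) p12_9_2 (nat_lit 4) (nat_lit 26) (nat_lit 27) = true := by decide +kernel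
def p12_9_2_27 : pfC (piC [(nat_lit 42686981), (nat_lit 27030628), (nat_lit 20024807), (nat_lit 13470738)] (nat_lit 7236065)) p12_9_2 (nat_lit 4) (nat_lit 27) (nat_lit 28) = true := by decide +kernel
def p12_9_2_28 : pfC (piC [(nat_lit 42686981), (nat_lit 27030628), (nat_lit 20024807), (nat_lit 13470738)] (nat_lit 7236065)) p12_9_2 (nat_lit 4) (nat_lit 28) (nat_lit 29) = true := by decide +kernel
def p12_9_2_29 : pfC (piC [(nat_lit 42686981), (nat_lit 27030628), (nat_lit 20024807), (nat_lit 13470738)] (nat_lit 7236065)) p12_9_2 (nat_lit 4) (nat_lit 29) (nat_lit 30) = true := by decide +kernel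
def p12_9_2_30 : pfC (piC [(nat_lit 42686981), (nat_lit 27030628), (nat_lit 20024807), (nat_lit 13470738)] (nat_lit 7236065)) p12_9_2 (nat_lit 4) (nat_lit 30) (nat_lit 31) = true := by decide +kernel
def p12_9_2_31 : pfC (piC [(nat_lit 42686981), (nat_lit 27030628), (nat_lit 20024807), (nat_lit 13470738)] (nat_lit 7236065)) p12_9_2 (nat_lit 4) (nat_lit 31) (nat_lit 32) = true := by decide +kernel
def p12_9_2_32 : pfC (piC [(nat_lit 42686981), (nat_lit 27030628), (nat_lit 20024807), (nat_lit 13470738)] (nat_lit 7236065)) p12_9_2 (nat_lit 4) (nat_lit 32) (nat_lit 33) = true := by decide +kernel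
def p12_9_2_33 : pfC (piC [(nat_lit 42686981), (nat_lit 27030628), (nat_lit 20024807), (nat_lit 13470738)] (nat_lit 7236065)) p12_9_2 (nat_lit 4) (nat_lit 33) (nat_lit 34) = true := by decide +kernel
def p12_9_2_34 : pfC (piC [(nat_lit 42686981), (nat_lit 27030628), (nat_lit 20024807), (nat_lit 13470738)] (nat_lit 7236065)) p12_9_2 (nat_lit 4) (nat_lit 34) (nat_lit 35) = true := by decide +kernel
def p12_9_2_35 : pfC (piC [(nat_lit 42686981), (nat_lit 27030628), (nat_lit 20024807), (nat_lit 13470738)] (nat_lit 7236065)) p12_9_2 (nat_lit 4) (nat_lit 35) (nat_lit 36) = true := by decide +kernel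
def p12_9_2_36 : pfC (piC [(nat_lit 42686981), (nat_lit 27030628), (nat_lit 20024807), (nat_lit 13470738)] (nat_lit 7236065)) p12_9_2 (nat_lit 4) (nat_lit 36) (nat_lit 37) = true := by decide +kernel
def p12_9_2_37 : pfC (piC [(nat_lit 42686981), (nat_lit 27030628), (nat_lit 20024807), (nat_lit 13470738)] (nat_lit 7236065)) p12_9_2 (nat_lit 4) (nat_lit 37) (nat_lit 38) = true := by decide +kernel
def p12_9_2_38 : pfC (piC [(nat_lit 42686981), (nat_lit 27030628), (nat_lit 20024807), (nat_lit 13470738)] (nat_lit 7236065)) p12_9_2 (nat_lit 4) (nat_lit 38) (nat_lit 39) = true := by decide +kernel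
def p12_9_2_39 : pfC (piC [(nat_lit 42686981), (nat_lit 27030628), (nat_lit 20024807), (nat_lit 13470738)] (nat_lit 7236065)) p12_9_2 (nat_lit 4) (nat_lit 39) (nat_lit 40) = true := by decide +kernel
def p12_9_2_40 : pfC (piC [(nat_lit 42686981), (nat_lit 27030628), (nat_lit 20024807), (nat_lit 13470738)] (nat_lit 7236065)) p12_9_2 (nat_lit 4) (nat_lit 40) (nat_lit 41) = true := by decide +kernel
def p12_9_2_41 : pfC (piC [(nat_lit 42686981), (nat_lit 27030628), (nat_lit 20024807), (nat_lit 13470738)] (nat_lit 7236065)) p12_9_2 (nat_lit 4) (nat_lit 41) (nat_lit 42) = true := by decide +kernel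
def p12_9_2_42 : pfC (piC [(nat_lit 42686981), (nat_lit 27030628), (nat_lit 20024807), (nat_lit 13470738)] (nat_lit 7236065)) p12_9_2 (nat_lit 4) (nat_lit 42) (nat_lit 43) = true := by decide +kernel
def p12_9_2_43 : pfC (piC [(nat_lit 42686981), (nat_lit 27030628), (nat_lit 20024807), (nat_lit 13470738)] (nat_lit 7236065)) p12_9_2 (nat_lit 4) (nat_lit 43) (nat_lit 44) = true := by decide +kernel
def p12_9_2_44 : pfC (piC [(nat_lit 42686981), (nat_lit 27030628), (nat_lit 20024807), (nat_lit 13470738)] (nat_lit 7236065)) p12_9_2 (nat_lit 4) (nat_lit 44) (nat_lit 45) = true := by decide +kernel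
def p12_9_2_45 : pfC (piC [(nat_lit 42686981), (nat_lit 27030628), (nat_lit 20024807), (nat_lit 13470738)] (nat_lit 7236065)) p12_9_2 (nat_lit 4) (nat_lit 45) (nat_lit 46) = true := by decide +kernel
def p12_9_2_46 : pfC (piC [(nat_lit 42686981), (nat_lit 27030628), (nat_lit 20024807), (nat_lit 13470738)] (nat_lit 7236065)) p12_9_2 (nat_lit 4) (nat_lit 46) (nat_lit 47) = true := by decide +kernel
def p12_9_2_47 : pfC (piC [(nat_lit 42686981), (nat_lit 27030628), (nat_lit 20024807), (nat_lit 13470738)] (nat_lit 7236065)) p12_9_2 (nat_lit 4) (nat_lit 47) (nat_lit 48) = true := by decide +kernel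
def p12_9_2_48 : pfC (piC [(nat_lit 42686981), (nat_lit 27030628), (nat_lit 20024807), (nat_lit 13470738)] (nat_lit 7236065)) p12_9_2 (nat_lit 4) (nat_lit 48) (nat_lit 49) = true := by decide +kernel
def p12_9_2_49 : pfC (piC [(nat_lit 42686981), (nat_lit 27030628), (nat_lit 20024807), (nat_lit 13470738)] (nat_lit 7236065)) p12_9_2 (nat_lit 4) (nat_lit 49) (nat_lit 50) = true := by decide +kernel
def p12_9_2_50 : pfC (piC [(nat_lit 42686981), (nat_lit 27030628), (nat_lit 20024807), (nat_lit 13470738)] (nat_lit 7236065)) p12_9_2 (nat_lit 4) (nat_lit 50) (nat_lit 51) = true := by decide +kernel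
def p12_9_2_51 : pfC (piC [(nat_lit 42686981), (nat_lit 27030628), (nat_lit 20024807), (nat_lit 13470738)] (nat_lit 7236065)) p12_9_2 (nat_lit 4) (nat_lit 51) (nat_lit 52) = true := by decide +kernel
def p12_9_2_52 : pfC (piC [(nat_lit 42686981), (nat_lit 27030628), (nat_lit 20024807), (nat_lit 13470738)] (nat_lit 7236065)) p12_9_2 (nat_lit 4) (nat_lit 52) (nat_lit 53) = true := by decide +kernel
def p12_9_2_53 : pfC (piC [(nat_lit 42686981), (nat_lit 27030628), (nat_lit 20024807), (nat_lit 13470738)] (nat_lit 7236065)) p12_9_2 (nat_lit 4) (nat_lit 53) (nat_lit 54) = true := by decide +kernel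
def p12_9_2_54 : pfC (piC [(nat_lit 42686981), (nat_lit 27030628), (nat_lit 20024807), (nat_lit 13470738)] (nat_lit 7236065)) p12_9_2 (nat_lit 4) (nat_lit 54) (nat_lit 55) = true := by decide +kernel
def p12_9_2_55 : pfC (piC [(nat_lit 42686981), (nat_lit 27030628), (nat_lit 20024807), (nat_lit 13470738)] (nat_lit 7236065)) p12_9_2 (nat_lit 4) (nat_lit 55) (nat_lit 56) = true := by decide +kernel
def p12_9_2_56 : pfC (piC [(nat_lit 42686981), (nat_lit 27030628), (nat_lit 20024807), (nat_lit 13470738)] (nat_lit 7236065)) p12_9_2 (nat_lit 4) (nat_lit 56) (nat_lit 57) = true := by decide +kernel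
def p12_9_2_57 : pfC (piC [(nat_lit 42686981), (nat_lit 27030628), (nat_lit 20024807), (nat_lit 13470738)] (nat_lit 7236065)) p12_9_2 (nat_lit 4) (nat_lit 57) (nat_lit 58) = true := by decide +kernel
def p12_9_2_58 : pfC (piC [(nat_lit 42686981), (nat_lit 27030628), (nat_lit 20024807), (nat_lit 13470738)] (nat_lit 7236065)) p12_9_2 (nat_lit 4) (nat_lit 58) (nat_lit 59) = true := by decide +kernel
def p12_9_2_59 : pfC (piC [(nat_lit 42686981), (nat_lit 27030628), (nat_lit 20024807), (nat_lit 13470738)] (nat_lit 7236065)) p12_9_2 (nat_lit 4) (nat_lit 59) (nat_lit 60) = true := by decide +kernel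
def p12_9_2_60 : pfC (piC [(nat_lit 42686981), (nat_lit 27030628), (nat_lit 20024807), (nat_lit 13470738)] (nat_lit 7236065)) p12_9_2 (nat_lit 4) (nat_lit 60) (nat_lit 61) = true := by decide +kernel
def p12_9_2_61 : pfC (piC [(nat_lit 42686981), (nat_lit 27030628), (nat_lit 20024807), (nat_lit 13470738)] (nat_lit 7236065)) p12_9_2 (nat_lit 4) (nat_lit 61) (nat_lit 62) = true := by decide +kernel
def p12_9_2_62 : pfC (piC [(nat_lit 42686981), (nat_lit 27030628), (nat_lit 20024807), (nat_lit 13470738)] (nat_lit 7236065)) p12_9_2 (nat_lit 4) (nat_lit 62) (nat_lit 63) = true := by decide +kernel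
def p12_9_2_63 : pfC (piC [(nat_lit 42686981), (nat_lit 27030628), (nat_lit 20024807), (nat_lit 13470738)] (nat_lit 7236065)) p12_9_2 (nat_lit 4) (nat_lit 63) (nat_lit 64) = true := by decide +kernel
def p12_9_2_64 : pfC (piC [(nat_lit 42686981), (nat_lit 27030628), (nat_lit 20024807), (nat_lit 13470738)] (nat_lit 7236065)) p12_9_2 (nat_lit 4) (nat_lit 64) (nat_lit 65) = true := by decide +kernel
def p12_9_2_65 : pfC (piC [(nat_lit 42686981), (nat_lit 27030628), (nat_lit 20024807), (nat_lit 13470738)] (nat_lit 7236065)) p12_9_2 (nat_lit 4) (nat_lit 65) (nat_lit 66) = true := by decide +kernel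
def p12_9_2_66 : pfC (piC [(nat_lit 42686981), (nat_lit 27030628), (nat_lit 20024807), (nat_lit 13470738)] (nat_lit 7236065)) p12_9_2 (nat_lit 4) (nat_lit 66) (nat_lit 67) = true := by decide +kernel
def p12_9_2_67 : pfC (piC [(nat_lit 42686981), (nat_lit 27030628), (nat_lit 20024807), (nat_lit 13470738)] (nat_lit 7236065)) p12_9_2 (nat_lit 4) (nat_lit 67) (nat_lit 68) = true := by decide +kernel
def p12_9_2_68 : pfC (piC [(nat_lit 42686981), (nat_lit 27030628), (nat_lit 20024807), (nat_lit 13470738)] (nat_lit 7236065)) p12_9_2 (nat_lit 4) (nat_lit 68) (nat_lit 69) = true := by decide +kernel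
def p12_9_2_69 : pfC (piC [(nat_lit 42686981), (nat_lit 27030628), (nat_lit 20024807), (nat_lit 13470738)] (nat_lit 7236065)) p12_9_2 (nat_lit 4) (nat_lit 69) (nat_lit 70) = true := by decide +kernel
def p12_9_2_70 : pfC (piC [(nat_lit 42686981), (nat_lit 27030628), (nat_lit 20024807), (nat_lit 13470738)] (nat_lit 7236065)) p12_9_2 (nat_lit 4) (nat_lit 70) (nat_lit 71) = true := by decide +kernel
def p12_9_2_71 : pfC (piC [(nat_lit 42686981), (nat_lit 27030628), (nat_lit 20024807), (nat_lit 13470738)] (nat_lit 7236065)) p12_9_2 (nat_lit 4) (nat_lit 71) (nat_lit 72) = true := by decide +kernel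
def p12_9_2_72 : pfC (piC [(nat_lit 42686981), (nat_lit 27030628), (nat_lit 20024807), (nat_lit 13470738)] (nat_lit 7236065)) p12_9_2 (nat_lit 4) (nat_lit 72) (nat_lit 73) = true := by decide +kernel
theorem p12_9_2_T : PfS (PiF n12_9.reverse (nat_lit 7236065)) p12_9_2 (nat_lit 4) [] 0 :=
  pftab_of (los := [(nat_lit 42686981), (nat_lit 27030628), (nat_lit 20024807), (nat_lit 13470738)]) (by decide +kernel) (hi := (nat_lit 73)) (PfP.trans (PfP.trans (PfP.trans (PfP.trans (PfP.trans (PfP.trans (PfP.trans (PfP.trans (PfP.trans (PfP.trans (PfP.trans (PfP.trans (PfP.trans (PfP.trans (PfP.trans (PfP.trans (PfP.trans (PfP.trans (PfP.trans (PfP.trans (PfP.trans (PfP.trans (PfP.trans (PfP.trans (PfP.trans (PfP.trans (PfP.trans (PfP.trans (PfP.trans (PfP.trans (PfP.trans (PfP.trans (PfP.trans (PfP.trans (PfP.trans (PfP.trans (PfP.trans (PfP.trans (PfP.trans (PfP.trans (PfP.trans (PfP.trans (PfP.trans (PfP.trans (PfP.trans (PfP.trans (PfP.trans (PfP.trans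 (PfP.trans (PfP.trans (PfP.trans (PfP.trans (PfP.trans (PfP.trans (PfP.trans (PfP.trans (PfP.trans (PfP.trans (PfP.trans (PfP.trans (PfP.trans (PfP.trans (PfP.trans (PfP.trans (PfP.trans (PfP.trans (PfP.trans (PfP.trans (PfP.trans (PfP.trans (PfP.trans (PfP.trans (pfC_sound p12_9_2_0) (pfC_sound p12_9_2_1)) (pfC_sound p12_9_2_2)) (pfC_sound p12_9_2_3)) (pfC_sound p12_9_2_4)) (pfC_sound p12_9_2_5)) (pfC_sound p12_9_2_6)) (pfC_sound p12_9_2_7)) (pfC_sound p12_9_2_8)) (pfC_sound p12_9_2_9)) (pfC_sound p12_9_2_10)) (pfC_sound p12_9_2_11)) (pfC_sound p12_9_2_12)) (pfC_sound p12_9_2_13)) (pfC_sound p12_9_2_14)) (pfC_sound p12_9_2_15)) (pfC_sound p12_9_2_16)) (pfC_sound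
 p12_9_2_17)) (pfC_sound p12_9_2_18)) (pfC_sound p12_9_2_19)) (pfC_sound p12_9_2_20)) (pfC_sound p12_9_2_21)) (pfC_sound p12_9_2_22)) (pfC_sound p12_9_2_23)) (pfC_sound p12_9_2_24)) (pfC_sound p12_9_2_25)) (pfC_sound p12_9_2_26)) (pfC_sound p12_9_2_27)) (pfC_sound p12_9_2_28)) (pfC_sound p12_9_2_29)) (pfC_sound p12_9_2_30)) (pfC_sound p12_9_2_31)) (pfC_sound p12_9_2_32)) (pfC_sound p12_9_2_33)) (pfC_sound p12_9_2_34)) (pfC_sound p12_9_2_35)) (pfC_sound p12_9_2_36)) (pfC_sound p12_9_2_37)) (pfC_sound p12_9_2_38)) (pfC_sound p12_9_2_39)) (pfC_sound p12_9_2_40)) (pfC_sound p12_9_2_41)) (pfC_sound p12_9_2_42)) (pfC_sound p12_9_2_43)) (pfC_sound p12_9_2_44)) (pfC_sound p12_9_2_45)) (pfC_sound p12_9_2_46)) (pfC_sound p12_9_2_47)) (pfC_sound p12_9_2_48)) (pfC_sound p12_9_2_49)) (pfC_sound p12_9_2_50)) (pfC_sound p12_9_2_51)) (pfC_sound p12_9_2_52)) (pfC_sound p12_9_2_53)) (pfC_sound p12_9_2_54)) (pfC_sound p12_9_2_55)) (pfC_sound p12_9_2_56)) (pfC_sound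 p12_9_2_57)) (pfC_sound p12_9_2_58)) (pfC_sound p12_9_2_59)) (pfC_sound p12_9_2_60)) (pfC_sound p12_9_2_61)) (pfC_sound p12_9_2_62)) (pfC_sound p12_9_2_63)) (pfC_sound p12_9_2_64)) (pfC_sound p12_9_2_65)) (pfC_sound p12_9_2_66)) (pfC_sound
 p12_9_2_67)) (pfC_sound p12_9_2_68)) (pfC_sound p12_9_2_69)) (pfC_sound p12_9_2_70)) (pfC_sound p12_9_2_71)) (pfC_sound p12_9_2_72)) (by decide +kernel)

def z12_9_2 : zOK yB12_9 (nat_lit 2) (nat_lit 600) (nat_lit 750) (nat_lit 7236065) (nat_lit 5208761) = true := by decide +kernel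
def g12_9_2 : gOK yB12_9.x P12_9 (nat_lit 1425) (q12_9 :: r12_9) (nat_lit 2) (nat_lit 600) (nat_lit 3) (nat_lit 750) (nat_lit 12712500) (nat_lit 12712500) (nat_lit 12712500) (nat_lit 12712500) [(nat_lit 800), (nat_lit 1600)] = true := by decide +kernel
def v12_9_2 : ivC P12_9 s12_9 w12_9 n12_9 (nat_lit 4) (nat_lit 4880) (nat_lit 2) (nat_lit 600) f144_1_600 f152_1_600 (nat_lit 3) (nat_lit 750) f144_1_750 f152_1_750 (nat_lit 7236065) (nat_lit 5208761) p12_9_2 = true := by decide +kernel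
def p12_9_3 : PF := (PF.cons (PF.cons (PF.cons (PF.cons (PF.leaf (nat_lit 2993563) (nat_lit 19206451) (nat_lit 47902361) (nat_lit 19206451) [(nat_lit 0), (nat_lit 0), (nat_lit 0), (nat_lit 0)]) (PF.cons (PF.leaf (nat_lit 3105069) (nat_lit 187683) (nat_lit 47741883) (nat_lit 19179245) [(nat_lit 187683), (nat_lit 0), (nat_lit 0), (nat_lit 0)]) (PF.cons (PF.leaf (nat_lit 3239778) (nat_lit 204070) (nat_lit 47553781) (nat_lit 19146890) [(nat_lit 204070), (nat_lit 0), (nat_lit 0), (nat_lit 0)]) (PF.cons (PF.leaf (nat_lit 3391060) (nat_lit 218625) (nat_lit 47342905) (nat_lit 19110031) [(nat_lit 218625), (nat_lit 0), (nat_lit 0), (nat_lit 0)]) (PF.cons (PF.leaf (nat_lit 3556620) (nat_lit 231768) (nat_lit 47112650) (nat_lit 19069089) [(nat_lit 231768), (nat_lit 0), (nat_lit 0), (nat_lit 0)]) (PF.cons (PF.leaf (nat_lit 3734632) (nat_lit 243768) (nat_lit 46865606) (nat_lit 19024365) [(nat_lit 243768), (nat_lit 0), (nat_lit 0), (nat_lit 0)]) (PF.cons (PF.leaf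 (nat_lit 3923935) (nat_lit 254810) (nat_lit 46603855) (nat_lit 18976092) [(nat_lit 254810), (nat_lit 0), (nat_lit 0), (nat_lit 0)]) (PF.cons (PF.leaf (nat_lit 4123208) (nat_lit 265030) (nat_lit 46329141) (nat_lit 18924460) [(nat_lit 265030), (nat_lit 0),
 (nat_lit 0), (nat_lit 0)]) (PF.cons PF.nil (PF.cons PF.nil PF.nil)))))))))) (PF.cons (PF.cons (PF.leaf (nat_lit 3443941) (nat_lit 1024117) (nat_lit 47032361) (nat_lit 19052334) [(nat_lit 0), (nat_lit 1024117), (nat_lit 0), (nat_lit 0)]) (PF.cons (PF.leaf (nat_lit 3591608) (nat_lit 229114) (nat_lit 46819849) (nat_lit 19013637) [(nat_lit 229114), (nat_lit 1046212), (nat_lit 0), (nat_lit 0)]) (PF.cons (PF.leaf (nat_lit 3756546) (nat_lit 241640) (nat_lit 46586902) (nat_lit 18970534) [(nat_lit 241640), (nat_lit 1068094), (nat_lit 0), (nat_lit 0)]) (PF.cons (PF.leaf (nat_lit 3934354) (nat_lit 253025) (nat_lit 46336853) (nat_lit 18923479) [(nat_lit 253025), (nat_lit 1089402), (nat_lit 0), (nat_lit 0)])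 (PF.cons (PF.leaf (nat_lit 4123622) (nat_lit 263475) (nat_lit 46072173) (nat_lit 18872793) [(nat_lit 263475), (nat_lit 1109943), (nat_lit 0), (nat_lit 0)]) (PF.cons (PF.leaf (nat_lit 4322863) (nat_lit 273133) (nat_lit 45794807) (nat_lit 18818720) [(nat_lit 273133), (nat_lit 1129617), (nat_lit 0), (nat_lit 0)]) (PF.cons (PF.leaf (nat_lit 4531090) (nat_lit 282101) (nat_lit 45506364) (nat_lit 18761460) [(nat_lit 282101), (nat_lit 1148376), (nat_lit 0), (nat_lit 0)]) (PF.cons PF.nil (PF.cons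
 PF.nil PF.nil))))))))) (PF.cons (PF.cons (PF.leaf (nat_lit 3961034) (nat_lit 1098569) (nat_lit 46046294) (nat_lit 18865378) [(nat_lit 0), (nat_lit 1098569), (nat_lit 0), (nat_lit 0)]) (PF.cons (PF.leaf (nat_lit 4135756) (nat_lit 260976) (nat_lit 45796460) (nat_lit 18816599) [(nat_lit 260976), (nat_lit 1117387), (nat_lit 0), (nat_lit 0)]) (PF.cons (PF.leaf (nat_lit 4323911) (nat_lit 271014) (nat_lit 45531379) (nat_lit 18763989) [(nat_lit 271014), (nat_lit 1135707), (nat_lit 0), (nat_lit 0)]) (PF.cons (PF.leaf (nat_lit 4522317) (nat_lit 280247) (nat_lit 45253433) (nat_lit 18707890) [(nat_lit 280247), (nat_lit 1153373), (nat_lit 0), (nat_lit 0)]) (PF.cons (PF.leaf (nat_lit 4729817) (nat_lit 288794) (nat_lit 44964470) (nat_lit 18648563) [(nat_lit 288794), (nat_lit 1170300), (nat_lit 0), (nat_lit 0)]) (PF.cons PF.nil (PF.cons PF.nil PF.nil))))))) (PF.cons (PF.cons (PF.leaf (nat_lit 4526655) (nat_lit 1158859) (nat_lit 44982425) (nat_lit 18649809) [(nat_lit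 0), (nat_lit 1158859), (nat_lit 0), (nat_lit 0)]) (PF.cons (PF.leaf (nat_lit 4722050) (nat_lit 286455) (nat_lit 44706045) (nat_lit 18592155) [(nat_lit 286455), (nat_lit 1174718), (nat_lit 0), (nat_lit 0)]) (PF.cons (PF.leaf (nat_lit
 4928068) (nat_lit 294681) (nat_lit 44418307) (nat_lit 18531160) [(nat_lit 294681), (nat_lit 1189993), (nat_lit 0), (nat_lit 0)]) (PF.cons (PF.leaf (nat_lit 5142338) (nat_lit 302298) (nat_lit 44120975) (nat_lit 18467101) [(nat_lit 302298), (nat_lit 1204613), (nat_lit 0), (nat_lit 0)]) (PF.cons PF.nil PF.nil))))) (PF.cons (PF.cons (PF.leaf (nat_lit 5127477) (nat_lit 1207713) (nat_lit 43868544) (nat_lit 18409414) [(nat_lit 0), (nat_lit 1207713), (nat_lit 0), (nat_lit 0)]) (PF.cons (PF.leaf (nat_lit 5338733) (nat_lit 307175) (nat_lit 43573855) (nat_lit 18344025) [(nat_lit 307175), (nat_lit 1220939), (nat_lit 0), (nat_lit 0)]) (PF.cons PF.nil (PF.cons PF.nil PF.nil)))) (PF.cons (PF.cons (PF.leaf (nat_lit 5753112) (nat_lit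 1247038) (nat_lit 42725776) (nat_lit 18147841) [(nat_lit 0), (nat_lit 1247038), (nat_lit 0), (nat_lit 0)]) (PF.cons PF.nil PF.nil)) (PF.cons PF.nil (PF.cons PF.nil PF.nil)))))))) (PF.cons (PF.cons (PF.cons (PF.leaf (nat_lit 3944946) (nat_lit 2810620) (nat_lit 45544889) (nat_lit 18753302) [(nat_lit 0), (nat_lit 0), (nat_lit 2810620), (nat_lit 0)]) (PF.cons (PF.leaf (nat_lit 4100667) (nat_lit 246719) (nat_lit 45323974) (nat_lit 18708921) [(nat_lit 246719), (nat_lit 0),
 (nat_lit 2829197), (nat_lit 0)]) (PF.cons (PF.leaf (nat_lit 4272732) (nat_lit 258602) (nat_lit 45083548) (nat_lit 18659938) [(nat_lit 258602), (nat_lit 0), (nat_lit 2848121), (nat_lit 0)]) (PF.cons (PF.leaf (nat_lit 4457132) (nat_lit 269248) (nat_lit 44827177) (nat_lit 18606932) [(nat_lit 269248), (nat_lit 0), (nat_lit 2866956), (nat_lit 0)]) (PF.cons (PF.leaf (nat_lit 4652219) (nat_lit 278910) (nat_lit 44557449) (nat_lit 18550310) [(nat_lit 278910), (nat_lit 0), (nat_lit 2885409),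 (nat_lit 0)]) (PF.cons (PF.leaf (nat_lit 4856517) (nat_lit 287757) (nat_lit 44276365) (nat_lit 18490381) [(nat_lit 287757), (nat_lit 0), (nat_lit 2903277), (nat_lit 0)]) (PF.cons PF.nil PF.nil))))))) (PF.cons (PF.cons (PF.leaf (nat_lit 4475625) (nat_lit 1146554) (nat_lit 44539757) (nat_lit 18544171) [(nat_lit 0), (nat_lit 1146554), (nat_lit 2878329), (nat_lit 0)]) (PF.cons (PF.leaf (nat_lit 4656058) (nat_lit 275492) (nat_lit 44285984) (nat_lit 18490034) [(nat_lit 275492), (nat_lit 1162519), (nat_lit 2894782), (nat_lit 0)]) (PF.cons (PF.leaf (nat_lit 4849051) (nat_lit 284855) (nat_lit 44018069) (nat_lit 18432058) [(nat_lit 284855), (nat_lit 1177989), (nat_lit 2910985), (nat_lit 0)]) (PF.cons (PF.leaf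
 (nat_lit 5051699) (nat_lit 293379) (nat_lit 43738458) (nat_lit 18370659) [(nat_lit 293379), (nat_lit 1192844), (nat_lit 2926714), (nat_lit 0)]) (PF.cons (PF.leaf (nat_lit 5262737) (nat_lit 301201) (nat_lit 43449019) (nat_lit 18306152) [(nat_lit 301201), (nat_lit 1207020), (nat_lit 2941813), (nat_lit 0)]) PF.nil))))) (PF.cons (PF.cons (PF.leaf (nat_lit 5048068) (nat_lit 1196182) (nat_lit 43473728) (nat_lit 18309286) [(nat_lit 0), (nat_lit 1196182), (nat_lit 2933434), (nat_lit 0)]) (PF.cons (PF.leaf (nat_lit 5247085) (nat_lit 298237) (nat_lit 43197432) (nat_lit 18246881) [(nat_lit 298237), (nat_lit 1209546), (nat_lit 2947167), (nat_lit 0)]) (PF.cons (PF.leaf (nat_lit 5455970) (nat_lit 305817) (nat_lit 42910845) (nat_lit 18181241) [(nat_lit 305817), (nat_lit 1222359), (nat_lit 2960372), (nat_lit 0)]) (PF.cons PF.nil PF.nil)))) (PF.cons (PF.cons (PF.leaf (nat_lit 5650030) (nat_lit 1236109) (nat_lit 42371370) (nat_lit 18052788) [(nat_lit 0), (nat_lit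 1236109), (nat_lit 2976325), (nat_lit 0)]) (PF.cons (PF.leaf (nat_lit 5863023) (nat_lit 316554) (nat_lit 42080183) (nat_lit 17983409) [(nat_lit 316554), (nat_lit 1247154), (nat_lit 2987202), (nat_lit 0)]) PF.nil)) (PF.cons PF.nil (PF.cons
 PF.nil PF.nil)))))) (PF.cons (PF.cons (PF.cons (PF.leaf (nat_lit 4983325) (nat_lit 2924230) (nat_lit 43057449) (nat_lit 18202902) [(nat_lit 0), (nat_lit 0), (nat_lit 2924230), (nat_lit 0)]) (PF.cons (PF.leaf (nat_lit 5167792) (nat_lit 287188) (nat_lit 42803248) (nat_lit 18144446) [(nat_lit 287188), (nat_lit 0), (nat_lit 2936964), (nat_lit 0)]) (PF.cons (PF.leaf (nat_lit 5364160) (nat_lit 295948) (nat_lit 42535930) (nat_lit 18082196) [(nat_lit 295948), (nat_lit 0), (nat_lit 2949394), (nat_lit 0)]) (PF.cons (PF.leaf (nat_lit 5569569) (nat_lit 303846) (nat_lit 42257958) (nat_lit 18016625) [(nat_lit 303846), (nat_lit 0), (nat_lit 2961344), (nat_lit 0)]) (PF.cons PF.nil PF.nil))))) (PF.cons (PF.cons (PF.leaf (nat_lit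 5558604) (nat_lit 1224145) (nat_lit 42001521) (nat_lit 17953049) [(nat_lit 0), (nat_lit 1224145), (nat_lit 2965048), (nat_lit 0)]) (PF.cons (PF.leaf (nat_lit 5759855) (nat_lit 307593) (nat_lit 41728127) (nat_lit 17886966) [(nat_lit 307593), (nat_lit 1235426), (nat_lit 2975349), (nat_lit 0)]) (PF.cons (PF.leaf (nat_lit 5970357) (nat_lit 314601) (nat_lit 41445385) (nat_lit 17817775) [(nat_lit 314601), (nat_lit 1246180), (nat_lit 2985134), (nat_lit 0)]) (PF.cons PF.nil
 PF.nil)))) (PF.cons (PF.cons (PF.leaf (nat_lit 6158703) (nat_lit 1256695) (nat_lit 40919943) (nat_lit 17684627) [(nat_lit 0), (nat_lit 1256695), (nat_lit 2995426), (nat_lit 0)]) (PF.cons PF.nil PF.nil)) (PF.cons PF.nil (PF.cons PF.nil PF.nil))))) (PF.cons (PF.cons (PF.cons (PF.leaf (nat_lit 6056869) (nat_lit 2982717) (nat_lit 40574344) (nat_lit 17586315) [(nat_lit 0), (nat_lit 0), (nat_lit 2982717), (nat_lit 0)]) (PF.cons (PF.leaf (nat_lit 6259241) (nat_lit 314939) (nat_lit 40305895)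 (nat_lit 17517506) [(nat_lit 314939), (nat_lit 0), (nat_lit 2990157), (nat_lit 0)]) (PF.cons PF.nil (PF.cons PF.nil PF.nil)))) (PF.cons (PF.cons (PF.leaf (nat_lit 6652716) (nat_lit 1270903) (nat_lit 39520008) (nat_lit 17309597) [(nat_lit 0), (nat_lit 1270903), (nat_lit 3002767), (nat_lit 0)]) (PF.cons PF.nil PF.nil)) (PF.cons PF.nil PF.nil))) (PF.cons (PF.cons (PF.cons (PF.leaf (nat_lit 7131704) (nat_lit 3000587) (nat_lit 38174893) (nat_lit 16931571) [(nat_lit 0), (nat_lit 0), (nat_lit 3000587), (nat_lit 0)]) (PF.cons PF.nil PF.nil)) (PF.cons PF.nil PF.nil)) (PF.cons PF.nil PF.nil)))))) (PF.cons (PF.cons (PF.cons (PF.cons (PF.leaf (nat_lit 4797199) (nat_lit 7623182) (nat_lit 41687028) (nat_lit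
 17798602) [(nat_lit 0), (nat_lit 0), (nat_lit 0), (nat_lit 7623182)]) (PF.cons (PF.leaf (nat_lit 4953340) (nat_lit 255441) (nat_lit 41482565) (nat_lit 17749786) [(nat_lit 255441), (nat_lit 0), (nat_lit 0), (nat_lit 7621019)]) (PF.cons (PF.leaf (nat_lit 5125018) (nat_lit 266849) (nat_lit 41260795) (nat_lit 17696307) [(nat_lit 266849), (nat_lit 0), (nat_lit 0), (nat_lit 7618010)]) (PF.cons (PF.leaf (nat_lit 5308234) (nat_lit 276915) (nat_lit 41025109) (nat_lit 17638875) [(nat_lit 276915), (nat_lit 0), (nat_lit 0), (nat_lit 7614082)]) (PF.cons (PF.leaf (nat_lit 5501212) (nat_lit 285921) (nat_lit 40777955) (nat_lit 17577992) [(nat_lit 285921), (nat_lit 0), (nat_lit 0), (nat_lit 7609179)]) (PF.cons (PF.leaf (nat_lit 5702598) (nat_lit 294060) (nat_lit 40521209) (nat_lit 17514041) [(nat_lit 294060), (nat_lit 0), (nat_lit 0), (nat_lit 7603260)]) (PF.cons PF.nil PF.nil))))))) (PF.cons (PF.cons (PF.leaf (nat_lit 5317242) (nat_lit 1165259) (nat_lit 40765871)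 (nat_lit 17572840) [(nat_lit 0), (nat_lit 1165259), (nat_lit 0), (nat_lit 7604840)]) (PF.cons (PF.leaf (nat_lit 5495725) (nat_lit 281693) (nat_lit 40533939) (nat_lit 17515064) [(nat_lit 281693), (nat_lit 1178577), (nat_lit 0), (nat_lit
 7599538)]) (PF.cons (PF.leaf (nat_lit 5685899) (nat_lit 290435) (nat_lit 40289772) (nat_lit 17453613) [(nat_lit 290435), (nat_lit 1191323), (nat_lit 0), (nat_lit 7593232)]) (PF.cons (PF.leaf (nat_lit 5884911) (nat_lit 298290) (nat_lit 40035645) (nat_lit 17388977) [(nat_lit 298290), (nat_lit 1203415), (nat_lit 0), (nat_lit 7585902)]) (PF.cons (PF.leaf (nat_lit 6091493) (nat_lit 305411) (nat_lit 39773283) (nat_lit 17321528) [(nat_lit 305411), (nat_lit 1214822), (nat_lit 0), (nat_lit 7577533)]) PF.nil))))) (PF.cons (PF.cons (PF.leaf (nat_lit 5872244) (nat_lit 1204480) (nat_lit 39799224) (nat_lit 17326089) [(nat_lit 0), (nat_lit 1204480), (nat_lit 0), (nat_lit 7574538)]) (PF.cons (PF.leaf (nat_lit 6067019) (nat_lit 301847)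 (nat_lit 39549212) (nat_lit 17261206) [(nat_lit 301847), (nat_lit 1215301), (nat_lit 0), (nat_lit 7565944)]) (PF.cons (PF.leaf (nat_lit 6270894) (nat_lit 308766) (nat_lit 39290487) (nat_lit 17193373) [(nat_lit 308766), (nat_lit 1225556), (nat_lit 0), (nat_lit 7556305)]) (PF.cons PF.nil PF.nil)))) (PF.cons (PF.cons (PF.leaf (nat_lit 6451031) (nat_lit 1235019) (nat_lit 38808091) (nat_lit 17062938) [(nat_lit 0), (nat_lit 1235019), (nat_lit 0), (nat_lit 7532722)])
 (PF.cons (PF.leaf (nat_lit 6657834) (nat_lit 317687) (nat_lit 38546664) (nat_lit 16992397) [(nat_lit 317687), (nat_lit 1243715), (nat_lit 0), (nat_lit 7520918)]) PF.nil)) (PF.cons PF.nil PF.nil))))) (PF.cons (PF.cons (PF.cons (PF.leaf (nat_lit 5793041) (nat_lit 2904137) (nat_lit 39438260) (nat_lit 17221953) [(nat_lit 0), (nat_lit 0), (nat_lit 2904137), (nat_lit 7544461)]) (PF.cons (PF.leaf (nat_lit 5973994) (nat_lit 290397) (nat_lit 39208319) (nat_lit 17161559) [(nat_lit 290397), (nat_lit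 0), (nat_lit 2912478), (nat_lit 7536058)]) (PF.cons (PF.leaf (nat_lit 6166096) (nat_lit 298570) (nat_lit 38967035) (nat_lit 17097594) [(nat_lit 298570), (nat_lit 0), (nat_lit 2920446), (nat_lit 7526594)]) (PF.cons (PF.leaf (nat_lit 6366496) (nat_lit 305850) (nat_lit 38716660) (nat_lit 17030583) [(nat_lit 305850), (nat_lit 0), (nat_lit 2927924), (nat_lit 7516090)]) (PF.cons PF.nil PF.nil))))) (PF.cons (PF.cons (PF.leaf (nat_lit 6347547) (nat_lit 1221946) (nat_lit 38489251) (nat_lit 16967105) [(nat_lit 0), (nat_lit 1221946), (nat_lit 2928145), (nat_lit 7502363)]) (PF.cons (PF.leaf (nat_lit 6543365) (nat_lit 308507) (nat_lit 38243798) (nat_lit 16900222) [(nat_lit 308507), (nat_lit 1231063), (nat_lit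
 2934362), (nat_lit 7490858)]) (PF.cons (PF.leaf (nat_lit 6747739) (nat_lit 314915) (nat_lit 37990398) (nat_lit 16830535) [(nat_lit 314915), (nat_lit 1239650), (nat_lit 2940080), (nat_lit 7478317)]) (PF.cons PF.nil PF.nil)))) (PF.cons (PF.cons (PF.leaf (nat_lit 6922232) (nat_lit 1246642) (nat_lit 37523331) (nat_lit 16698388) [(nat_lit 0), (nat_lit 1246642), (nat_lit 2943714), (nat_lit 7450093)]) (PF.cons PF.nil PF.nil)) PF.nil))) (PF.cons (PF.cons (PF.cons (PF.leaf (nat_lit 6810596) (nat_lit 2929208) (nat_lit 37226134) (nat_lit 16605432) [(nat_lit 0), (nat_lit 0), (nat_lit 2929208), (nat_lit 7418828)]) (PF.cons (PF.leaf (nat_lit 7006644) (nat_lit 313616) (nat_lit 36986465) (nat_lit 16537237) [(nat_lit 313616), (nat_lit 0), (nat_lit 2933288), (nat_lit 7404916)]) (PF.cons PF.nil PF.nil))) (PF.cons (PF.cons (PF.leaf (nat_lit 7379593) (nat_lit 1253593) (nat_lit 36289001) (nat_lit 16333662) [(nat_lit 0), (nat_lit 1253593), (nat_lit 2937236), (nat_lit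 7358083)]) PF.nil) PF.nil)) (PF.cons PF.nil (PF.cons PF.nil PF.nil))))) (PF.cons (PF.cons (PF.cons (PF.cons (PF.leaf (nat_lit 6525696) (nat_lit 7280676) (nat_lit 36272057) (nat_lit 16275402) [(nat_lit 0), (nat_lit 0), (nat_lit 0), (nat_lit
 7280676)]) (PF.cons (PF.leaf (nat_lit 6702143) (nat_lit 289984) (nat_lit 36065538) (nat_lit 16215696) [(nat_lit 289984), (nat_lit 0), (nat_lit 0), (nat_lit 7268796)]) (PF.cons (PF.leaf (nat_lit 6889100) (nat_lit 297639) (nat_lit 35849156) (nat_lit 16152681) [(nat_lit 297639), (nat_lit 0), (nat_lit 0), (nat_lit 7255848)]) (PF.cons (PF.leaf (nat_lit 7083728) (nat_lit 304389) (nat_lit 35624941) (nat_lit 16086894) [(nat_lit 304389), (nat_lit 0), (nat_lit 0), (nat_lit 7241903)]) (PF.cons PF.nil PF.nil))))) (PF.cons (PF.cons (PF.leaf (nat_lit 7058736) (nat_lit 1207438) (nat_lit 35424071) (nat_lit 16025720) [(nat_lit 0), (nat_lit 1207438), (nat_lit 0), (nat_lit 7225791)]) (PF.cons (PF.leaf (nat_lit 7248557) (nat_lit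 306244) (nat_lit 35204712) (nat_lit 15960453) [(nat_lit 306244), (nat_lit 1214932), (nat_lit 0), (nat_lit 7211234)]) (PF.cons PF.nil (PF.cons PF.nil PF.nil)))) (PF.cons (PF.cons (PF.leaf (nat_lit 7608631) (nat_lit 1226422) (nat_lit 34564446) (nat_lit 15765507) [(nat_lit 0), (nat_lit 1226422), (nat_lit 0), (nat_lit 7163007)]) (PF.cons PF.nil PF.nil)) PF.nil))) (PF.cons (PF.cons (PF.cons (PF.leaf (nat_lit 7490601) (nat_lit 2857512) (nat_lit 34308606) (nat_lit 15679524)
 [(nat_lit 0), (nat_lit 0), (nat_lit 2857512), (nat_lit 7131584)]) (PF.cons (PF.leaf (nat_lit 7680050) (nat_lit 309774) (nat_lit 34095082) (nat_lit 15613816) [(nat_lit 309774), (nat_lit 0), (nat_lit 2859315), (nat_lit 7115411)]) PF.nil)) (PF.cons PF.nil PF.nil)) (PF.cons PF.nil PF.nil))) (PF.cons (PF.cons (PF.cons (PF.cons (PF.leaf (nat_lit 8109280) (nat_lit 6843046) (nat_lit 31760607) (nat_lit 14819065) [(nat_lit 0), (nat_lit 0), (nat_lit 0), (nat_lit 6843046)]) (PF.cons PF.nil PF.nil))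 (PF.cons PF.nil PF.nil)) (PF.cons PF.nil PF.nil)) (PF.cons PF.nil (PF.cons PF.nil (PF.cons PF.nil (PF.cons PF.nil PF.nil))))))))

def p12_9_3_0 : pfC (piC [(nat_lit 42686981), (nat_lit 27030628), (nat_lit 20024807), (nat_lit 13470738)] (nat_lit 5208761)) p12_9_3 (nat_lit 4) (nat_lit 0) (nat_lit 1) = true := by decide +kernel
def p12_9_3_1 : pfC (piC [(nat_lit 42686981), (nat_lit 27030628), (nat_lit 20024807), (nat_lit 13470738)] (nat_lit 5208761)) p12_9_3 (nat_lit 4) (nat_lit 1) (nat_lit 2) = true := by decide +kernel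
def p12_9_3_2 : pfC (piC [(nat_lit 42686981), (nat_lit 27030628), (nat_lit 20024807), (nat_lit 13470738)] (nat_lit 5208761)) p12_9_3 (nat_lit 4) (nat_lit 2) (nat_lit 3) = true := by decide +kernel
def p12_9_3_3 : pfC (piC [(nat_lit 42686981), (nat_lit 27030628), (nat_lit 20024807), (nat_lit 13470738)] (nat_lit 5208761)) p12_9_3 (nat_lit 4) (nat_lit 3) (nat_lit 4) = true := by decide +kernel
def p12_9_3_4 : pfC (piC [(nat_lit 42686981), (nat_lit 27030628), (nat_lit 20024807), (nat_lit 13470738)] (nat_lit 5208761)) p12_9_3 (nat_lit 4) (nat_lit 4) (nat_lit 5) = true := by decide +kernel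
def p12_9_3_5 : pfC (piC [(nat_lit 42686981), (nat_lit 27030628), (nat_lit 20024807), (nat_lit 13470738)] (nat_lit 5208761)) p12_9_3 (nat_lit 4) (nat_lit 5) (nat_lit 6) = true := by decide +kernel
def p12_9_3_6 : pfC (piC [(nat_lit 42686981), (nat_lit 27030628), (nat_lit 20024807), (nat_lit 13470738)] (nat_lit 5208761)) p12_9_3 (nat_lit 4) (nat_lit 6) (nat_lit 7) = true := by decide +kernel
def p12_9_3_7 : pfC (piC [(nat_lit 42686981), (nat_lit 27030628), (nat_lit 20024807), (nat_lit 13470738)] (nat_lit 5208761)) p12_9_3 (nat_lit 4) (nat_lit 7) (nat_lit 8) = true := by decide +kernel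
def p12_9_3_8 : pfC (piC [(nat_lit 42686981), (nat_lit 27030628), (nat_lit 20024807), (nat_lit 13470738)] (nat_lit 5208761)) p12_9_3 (nat_lit 4) (nat_lit 8) (nat_lit 9) = true := by decide +kernel
def p12_9_3_9 : pfC (piC [(nat_lit 42686981), (nat_lit 27030628), (nat_lit 20024807), (nat_lit 13470738)] (nat_lit 5208761)) p12_9_3 (nat_lit 4) (nat_lit 9) (nat_lit 10) = true := by decide +kernel
def p12_9_3_10 : pfC (piC [(nat_lit 42686981), (nat_lit 27030628), (nat_lit 20024807), (nat_lit 13470738)] (nat_lit 5208761)) p12_9_3 (nat_lit 4) (nat_lit 10) (nat_lit 11) = true := by decide +kernel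
def p12_9_3_11 : pfC (piC [(nat_lit 42686981), (nat_lit 27030628), (nat_lit 20024807), (nat_lit 13470738)] (nat_lit 5208761)) p12_9_3 (nat_lit 4) (nat_lit 11) (nat_lit 12) = true := by decide +kernel
def p12_9_3_12 : pfC (piC [(nat_lit 42686981), (nat_lit 27030628), (nat_lit 20024807), (nat_lit 13470738)] (nat_lit 5208761)) p12_9_3 (nat_lit 4) (nat_lit 12) (nat_lit 13) = true := by decide +kernel
def p12_9_3_13 : pfC (piC [(nat_lit 42686981), (nat_lit 27030628), (nat_lit 20024807), (nat_lit 13470738)] (nat_lit 5208761)) p12_9_3 (nat_lit 4) (nat_lit 13) (nat_lit 14) = true := by decide +kernel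
def p12_9_3_14 : pfC (piC [(nat_lit 42686981), (nat_lit 27030628), (nat_lit 20024807), (nat_lit 13470738)] (nat_lit 5208761)) p12_9_3 (nat_lit 4) (nat_lit 14) (nat_lit 15) = true := by decide +kernel
def p12_9_3_15 : pfC (piC [(nat_lit 42686981), (nat_lit 27030628), (nat_lit 20024807), (nat_lit 13470738)] (nat_lit 5208761)) p12_9_3 (nat_lit 4) (nat_lit 15) (nat_lit 16) = true := by decide +kernel
def p12_9_3_16 : pfC (piC [(nat_lit 42686981), (nat_lit 27030628), (nat_lit 20024807), (nat_lit 13470738)] (nat_lit 5208761)) p12_9_3 (nat_lit 4) (nat_lit 16) (nat_lit 17) = true := by decide +kernel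
def p12_9_3_17 : pfC (piC [(nat_lit 42686981), (nat_lit 27030628), (nat_lit 20024807), (nat_lit 13470738)] (nat_lit 5208761)) p12_9_3 (nat_lit 4) (nat_lit 17) (nat_lit 18) = true := by decide +kernel
def p12_9_3_18 : pfC (piC [(nat_lit 42686981), (nat_lit 27030628), (nat_lit 20024807), (nat_lit 13470738)] (nat_lit 5208761)) p12_9_3 (nat_lit 4) (nat_lit 18) (nat_lit 19) = true := by decide +kernel
def p12_9_3_19 : pfC (piC [(nat_lit 42686981), (nat_lit 27030628), (nat_lit 20024807), (nat_lit 13470738)] (nat_lit 5208761)) p12_9_3 (nat_lit 4) (nat_lit 19) (nat_lit 20) = true := by decide +kernel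
def p12_9_3_20 : pfC (piC [(nat_lit 42686981), (nat_lit 27030628), (nat_lit 20024807), (nat_lit 13470738)] (nat_lit 5208761)) p12_9_3 (nat_lit 4) (nat_lit 20) (nat_lit 21) = true := by decide +kernel
def p12_9_3_21 : pfC (piC [(nat_lit 42686981), (nat_lit 27030628), (nat_lit 20024807), (nat_lit 13470738)] (nat_lit 5208761)) p12_9_3 (nat_lit 4) (nat_lit 21) (nat_lit 22) = true := by decide +kernel
def p12_9_3_22 : pfC (piC [(nat_lit 42686981), (nat_lit 27030628), (nat_lit 20024807), (nat_lit 13470738)] (nat_lit 5208761)) p12_9_3 (nat_lit 4) (nat_lit 22) (nat_lit 23) = true := by decide +kernel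
def p12_9_3_23 : pfC (piC [(nat_lit 42686981), (nat_lit 27030628), (nat_lit 20024807), (nat_lit 13470738)] (nat_lit 5208761)) p12_9_3 (nat_lit 4) (nat_lit 23) (nat_lit 24) = true := by decide +kernel
def p12_9_3_24 : pfC (piC [(nat_lit 42686981), (nat_lit 27030628), (nat_lit 20024807), (nat_lit 13470738)] (nat_lit 5208761)) p12_9_3 (nat_lit 4) (nat_lit 24) (nat_lit 25) = true := by decide +kernel
def p12_9_3_25 : pfC (piC [(nat_lit 42686981), (nat_lit 27030628), (nat_lit 20024807), (nat_lit 13470738)] (nat_lit 5208761)) p12_9_3 (nat_lit 4) (nat_lit 25) (nat_lit 26) = true := by decide +kernel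
def p12_9_3_26 : pfC (piC [(nat_lit 42686981), (nat_lit 27030628), (nat_lit 20024807), (nat_lit 13470738)] (nat_lit 5208761)) p12_9_3 (nat_lit 4) (nat_lit 26) (nat_lit 27) = true := by decide +kernel
def p12_9_3_27 : pfC (piC [(nat_lit 42686981), (nat_lit 27030628), (nat_lit 20024807), (nat_lit 13470738)] (nat_lit 5208761)) p12_9_3 (nat_lit 4) (nat_lit 27) (nat_lit 28) = true := by decide +kernel
def p12_9_3_28 : pfC (piC [(nat_lit 42686981), (nat_lit 27030628), (nat_lit 20024807), (nat_lit 13470738)] (nat_lit 5208761)) p12_9_3 (nat_lit 4) (nat_lit 28) (nat_lit 29) = true := by decide +kernel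
def p12_9_3_29 : pfC (piC [(nat_lit 42686981), (nat_lit 27030628), (nat_lit 20024807), (nat_lit 13470738)] (nat_lit 5208761)) p12_9_3 (nat_lit 4) (nat_lit 29) (nat_lit 30) = true := by decide +kernel
def p12_9_3_30 : pfC (piC [(nat_lit 42686981), (nat_lit 27030628), (nat_lit 20024807), (nat_lit 13470738)] (nat_lit 5208761)) p12_9_3 (nat_lit 4) (nat_lit 30) (nat_lit 31) = true := by decide +kernel
def p12_9_3_31 : pfC (piC [(nat_lit 42686981), (nat_lit 27030628), (nat_lit 20024807), (nat_lit 13470738)] (nat_lit 5208761)) p12_9_3 (nat_lit 4) (nat_lit 31) (nat_lit 32) = true := by decide +kernel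
def p12_9_3_32 : pfC (piC [(nat_lit 42686981), (nat_lit 27030628), (nat_lit 20024807), (nat_lit 13470738)] (nat_lit 5208761)) p12_9_3 (nat_lit 4) (nat_lit 32) (nat_lit 33) = true := by decide +kernel
def p12_9_3_33 : pfC (piC [(nat_lit 42686981), (nat_lit 27030628), (nat_lit 20024807), (nat_lit 13470738)] (nat_lit 5208761)) p12_9_3 (nat_lit 4) (nat_lit 33) (nat_lit 34) = true := by decide +kernel
def p12_9_3_34 : pfC (piC [(nat_lit 42686981), (nat_lit 27030628), (nat_lit 20024807), (nat_lit 13470738)] (nat_lit 5208761)) p12_9_3 (nat_lit 4) (nat_lit 34) (nat_lit 35) = true := by decide +kernel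
def p12_9_3_35 : pfC (piC [(nat_lit 42686981), (nat_lit 27030628), (nat_lit 20024807), (nat_lit 13470738)] (nat_lit 5208761)) p12_9_3 (nat_lit 4) (nat_lit 35) (nat_lit 36) = true := by decide +kernel
def p12_9_3_36 : pfC (piC [(nat_lit 42686981), (nat_lit 27030628), (nat_lit 20024807), (nat_lit 13470738)] (nat_lit 5208761)) p12_9_3 (nat_lit 4) (nat_lit 36) (nat_lit 37) = true := by decide +kernel
def p12_9_3_37 : pfC (piC [(nat_lit 42686981), (nat_lit 27030628), (nat_lit 20024807), (nat_lit 13470738)] (nat_lit 5208761)) p12_9_3 (nat_lit 4) (nat_lit 37) (nat_lit 38) = true := by decide +kernel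
def p12_9_3_38 : pfC (piC [(nat_lit 42686981), (nat_lit 27030628), (nat_lit 20024807), (nat_lit 13470738)] (nat_lit 5208761)) p12_9_3 (nat_lit 4) (nat_lit 38) (nat_lit 39) = true := by decide +kernel
def p12_9_3_39 : pfC (piC [(nat_lit 42686981), (nat_lit 27030628), (nat_lit 20024807), (nat_lit 13470738)] (nat_lit 5208761)) p12_9_3 (nat_lit 4) (nat_lit 39) (nat_lit 40) = true := by decide +kernel
def p12_9_3_40 : pfC (piC [(nat_lit 42686981), (nat_lit 27030628), (nat_lit 20024807), (nat_lit 13470738)] (nat_lit 5208761)) p12_9_3 (nat_lit 4) (nat_lit 40) (nat_lit 41) = true := by decide +kernel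
def p12_9_3_41 : pfC (piC [(nat_lit 42686981), (nat_lit 27030628), (nat_lit 20024807), (nat_lit 13470738)] (nat_lit 5208761)) p12_9_3 (nat_lit 4) (nat_lit 41) (nat_lit 42) = true := by decide +kernel
def p12_9_3_42 : pfC (piC [(nat_lit 42686981), (nat_lit 27030628), (nat_lit 20024807), (nat_lit 13470738)] (nat_lit 5208761)) p12_9_3 (nat_lit 4) (nat_lit 42) (nat_lit 43) = true := by decide +kernel
def p12_9_3_43 : pfC (piC [(nat_lit 42686981), (nat_lit 27030628), (nat_lit 20024807), (nat_lit 13470738)] (nat_lit 5208761)) p12_9_3 (nat_lit 4) (nat_lit 43) (nat_lit 44) = true := by decide +kernel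
def p12_9_3_44 : pfC (piC [(nat_lit 42686981), (nat_lit 27030628), (nat_lit 20024807), (nat_lit 13470738)] (nat_lit 5208761)) p12_9_3 (nat_lit 4) (nat_lit 44) (nat_lit 45) = true := by decide +kernel
def p12_9_3_45 : pfC (piC [(nat_lit 42686981), (nat_lit 27030628), (nat_lit 20024807), (nat_lit 13470738)] (nat_lit 5208761)) p12_9_3 (nat_lit 4) (nat_lit 45) (nat_lit 46) = true := by decide +kernel
def p12_9_3_46 : pfC (piC [(nat_lit 42686981), (nat_lit 27030628), (nat_lit 20024807), (nat_lit 13470738)] (nat_lit 5208761)) p12_9_3 (nat_lit 4) (nat_lit 46) (nat_lit 47) = true := by decide +kernel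
def p12_9_3_47 : pfC (piC [(nat_lit 42686981), (nat_lit 27030628), (nat_lit 20024807), (nat_lit 13470738)] (nat_lit 5208761)) p12_9_3 (nat_lit 4) (nat_lit 47) (nat_lit 48) = true := by decide +kernel
def p12_9_3_48 : pfC (piC [(nat_lit 42686981), (nat_lit 27030628), (nat_lit 20024807), (nat_lit 13470738)] (nat_lit 5208761)) p12_9_3 (nat_lit 4) (nat_lit 48) (nat_lit 49) = true := by decide +kernel
def p12_9_3_49 : pfC (piC [(nat_lit 42686981), (nat_lit 27030628), (nat_lit 20024807), (nat_lit 13470738)] (nat_lit 5208761)) p12_9_3 (nat_lit 4) (nat_lit 49) (nat_lit 50) = true := by decide +kernel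
def p12_9_3_50 : pfC (piC [(nat_lit 42686981), (nat_lit 27030628), (nat_lit 20024807), (nat_lit 13470738)] (nat_lit 5208761)) p12_9_3 (nat_lit 4) (nat_lit 50) (nat_lit 51) = true := by decide +kernel
def p12_9_3_51 : pfC (piC [(nat_lit 42686981), (nat_lit 27030628), (nat_lit 20024807), (nat_lit 13470738)] (nat_lit 5208761)) p12_9_3 (nat_lit 4) (nat_lit 51) (nat_lit 52) = true := by decide +kernel
def p12_9_3_52 : pfC (piC [(nat_lit 42686981), (nat_lit 27030628), (nat_lit 20024807), (nat_lit 13470738)] (nat_lit 5208761)) p12_9_3 (nat_lit 4) (nat_lit 52) (nat_lit 53) = true := by decide +kernel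
def p12_9_3_53 : pfC (piC [(nat_lit 42686981), (nat_lit 27030628), (nat_lit 20024807), (nat_lit 13470738)] (nat_lit 5208761)) p12_9_3 (nat_lit 4) (nat_lit 53) (nat_lit 54) = true := by decide +kernel
def p12_9_3_54 : pfC (piC [(nat_lit 42686981), (nat_lit 27030628), (nat_lit 20024807), (nat_lit 13470738)] (nat_lit 5208761)) p12_9_3 (nat_lit 4) (nat_lit 54) (nat_lit 55) = true := by decide +kernel
def p12_9_3_55 : pfC (piC [(nat_lit 42686981), (nat_lit 27030628), (nat_lit 20024807), (nat_lit 13470738)] (nat_lit 5208761)) p12_9_3 (nat_lit 4) (nat_lit 55) (nat_lit 56) = true := by decide +kernel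
def p12_9_3_56 : pfC (piC [(nat_lit 42686981), (nat_lit 27030628), (nat_lit 20024807), (nat_lit 13470738)] (nat_lit 5208761)) p12_9_3 (nat_lit 4) (nat_lit 56) (nat_lit 57) = true := by decide +kernel
def p12_9_3_57 : pfC (piC [(nat_lit 42686981), (nat_lit 27030628), (nat_lit 20024807), (nat_lit 13470738)] (nat_lit 5208761)) p12_9_3 (nat_lit 4) (nat_lit 57) (nat_lit 58) = true := by decide +kernel
def p12_9_3_58 : pfC (piC [(nat_lit 42686981), (nat_lit 27030628), (nat_lit 20024807), (nat_lit 13470738)] (nat_lit 5208761)) p12_9_3 (nat_lit 4) (nat_lit 58) (nat_lit 59) = true := by decide +kernel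
def p12_9_3_59 : pfC (piC [(nat_lit 42686981), (nat_lit 27030628), (nat_lit 20024807), (nat_lit 13470738)] (nat_lit 5208761)) p12_9_3 (nat_lit 4) (nat_lit 59) (nat_lit 60) = true := by decide +kernel
def p12_9_3_60 : pfC (piC [(nat_lit 42686981), (nat_lit 27030628), (nat_lit 20024807), (nat_lit 13470738)] (nat_lit 5208761)) p12_9_3 (nat_lit 4) (nat_lit 60) (nat_lit 61) = true := by decide +kernel
def p12_9_3_61 : pfC (piC [(nat_lit 42686981), (nat_lit 27030628), (nat_lit 20024807), (nat_lit 13470738)] (nat_lit 5208761)) p12_9_3 (nat_lit 4) (nat_lit 61) (nat_lit 62) = true := by decide +kernel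
def p12_9_3_62 : pfC (piC [(nat_lit 42686981), (nat_lit 27030628), (nat_lit 20024807), (nat_lit 13470738)] (nat_lit 5208761)) p12_9_3 (nat_lit 4) (nat_lit 62) (nat_lit 63) = true := by decide +kernel
def p12_9_3_63 : pfC (piC [(nat_lit 42686981), (nat_lit 27030628), (nat_lit 20024807), (nat_lit 13470738)] (nat_lit 5208761)) p12_9_3 (nat_lit 4) (nat_lit 63) (nat_lit 64) = true := by decide +kernel
def p12_9_3_64 : pfC (piC [(nat_lit 42686981), (nat_lit 27030628), (nat_lit 20024807), (nat_lit 13470738)] (nat_lit 5208761)) p12_9_3 (nat_lit 4) (nat_lit 64) (nat_lit 65) = true := by decide +kernel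
def p12_9_3_65 : pfC (piC [(nat_lit 42686981), (nat_lit 27030628), (nat_lit 20024807), (nat_lit 13470738)] (nat_lit 5208761)) p12_9_3 (nat_lit 4) (nat_lit 65) (nat_lit 66) = true := by decide +kernel
def p12_9_3_66 : pfC (piC [(nat_lit 42686981), (nat_lit 27030628), (nat_lit 20024807), (nat_lit 13470738)] (nat_lit 5208761)) p12_9_3 (nat_lit 4) (nat_lit 66) (nat_lit 67) = true := by decide +kernel
def p12_9_3_67 : pfC (piC [(nat_lit 42686981), (nat_lit 27030628), (nat_lit 20024807), (nat_lit 13470738)] (nat_lit 5208761)) p12_9_3 (nat_lit 4) (nat_lit 67) (nat_lit 68) = true := by decide +kernel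
def p12_9_3_68 : pfC (piC [(nat_lit 42686981), (nat_lit 27030628), (nat_lit 20024807), (nat_lit 13470738)] (nat_lit 5208761)) p12_9_3 (nat_lit 4) (nat_lit 68) (nat_lit 69) = true := by decide +kernel
def p12_9_3_69 : pfC (piC [(nat_lit 42686981), (nat_lit 27030628), (nat_lit 20024807), (nat_lit 13470738)] (nat_lit 5208761)) p12_9_3 (nat_lit 4) (nat_lit 69) (nat_lit 70) = true := by decide +kernel
def p12_9_3_70 : pfC (piC [(nat_lit 42686981), (nat_lit 27030628), (nat_lit 20024807), (nat_lit 13470738)] (nat_lit 5208761)) p12_9_3 (nat_lit 4) (nat_lit 70) (nat_lit 71) = true := by decide +kernel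
def p12_9_3_71 : pfC (piC [(nat_lit 42686981), (nat_lit 27030628), (nat_lit 20024807), (nat_lit 13470738)] (nat_lit 5208761)) p12_9_3 (nat_lit 4) (nat_lit 71) (nat_lit 72) = true := by decide +kernel
def p12_9_3_72 : pfC (piC [(nat_lit 42686981), (nat_lit 27030628), (nat_lit 20024807), (nat_lit 13470738)] (nat_lit 5208761)) p12_9_3 (nat_lit 4) (nat_lit 72) (nat_lit 73) = true := by decide +kernel
def p12_9_3_73 : pfC (piC [(nat_lit 42686981), (nat_lit 27030628), (nat_lit 20024807), (nat_lit 13470738)] (nat_lit 5208761)) p12_9_3 (nat_lit 4) (nat_lit 73) (nat_lit 74) = true := by decide +kernel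
def p12_9_3_74 : pfC (piC [(nat_lit 42686981), (nat_lit 27030628), (nat_lit 20024807), (nat_lit 13470738)] (nat_lit 5208761)) p12_9_3 (nat_lit 4) (nat_lit 74) (nat_lit 75) = true := by decide +kernel
def p12_9_3_75 : pfC (piC [(nat_lit 42686981), (nat_lit 27030628), (nat_lit 20024807), (nat_lit 13470738)] (nat_lit 5208761)) p12_9_3 (nat_lit 4) (nat_lit 75) (nat_lit 76) = true := by decide +kernel
def p12_9_3_76 : pfC (piC [(nat_lit 42686981), (nat_lit 27030628), (nat_lit 20024807), (nat_lit 13470738)] (nat_lit 5208761)) p12_9_3 (nat_lit 4) (nat_lit 76) (nat_lit 77) = true := by decide +kernel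
def p12_9_3_77 : pfC (piC [(nat_lit 42686981), (nat_lit 27030628), (nat_lit 20024807), (nat_lit 13470738)] (nat_lit 5208761)) p12_9_3 (nat_lit 4) (nat_lit 77) (nat_lit 78) = true := by decide +kernel
def p12_9_3_78 : pfC (piC [(nat_lit 42686981), (nat_lit 27030628), (nat_lit 20024807), (nat_lit 13470738)] (nat_lit 5208761)) p12_9_3 (nat_lit 4) (nat_lit 78) (nat_lit 79) = true := by decide +kernel
def p12_9_3_79 : pfC (piC [(nat_lit 42686981), (nat_lit 27030628), (nat_lit 20024807), (nat_lit 13470738)] (nat_lit 5208761)) p12_9_3 (nat_lit 4) (nat_lit 79) (nat_lit 80) = true := by decide +kernel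
def p12_9_3_80 : pfC (piC [(nat_lit 42686981), (nat_lit 27030628), (nat_lit 20024807), (nat_lit 13470738)] (nat_lit 5208761)) p12_9_3 (nat_lit 4) (nat_lit 80) (nat_lit 81) = true := by decide +kernel
def p12_9_3_81 : pfC (piC [(nat_lit 42686981), (nat_lit 27030628), (nat_lit 20024807), (nat_lit 13470738)] (nat_lit 5208761)) p12_9_3 (nat_lit 4) (nat_lit 81) (nat_lit 82) = true := by decide +kernel
def p12_9_3_82 : pfC (piC [(nat_lit 42686981), (nat_lit 27030628), (nat_lit 20024807), (nat_lit 13470738)] (nat_lit 5208761)) p12_9_3 (nat_lit 4) (nat_lit 82) (nat_lit 83) = true := by decide +kernel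
def p12_9_3_83 : pfC (piC [(nat_lit 42686981), (nat_lit 27030628), (nat_lit 20024807), (nat_lit 13470738)] (nat_lit 5208761)) p12_9_3 (nat_lit 4) (nat_lit 83) (nat_lit 84) = true := by decide +kernel
def p12_9_3_84 : pfC (piC [(nat_lit 42686981), (nat_lit 27030628), (nat_lit 20024807), (nat_lit 13470738)] (nat_lit 5208761)) p12_9_3 (nat_lit 4) (nat_lit 84) (nat_lit 85) = true := by decide +kernel
def p12_9_3_85 : pfC (piC [(nat_lit 42686981), (nat_lit 27030628), (nat_lit 20024807), (nat_lit 13470738)] (nat_lit 5208761)) p12_9_3 (nat_lit 4) (nat_lit 85) (nat_lit 86) = true := by decide +kernel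
def p12_9_3_86 : pfC (piC [(nat_lit 42686981), (nat_lit 27030628), (nat_lit 20024807), (nat_lit 13470738)] (nat_lit 5208761)) p12_9_3 (nat_lit 4) (nat_lit 86) (nat_lit 87) = true := by decide +kernel
def p12_9_3_87 : pfC (piC [(nat_lit 42686981), (nat_lit 27030628), (nat_lit 20024807), (nat_lit 13470738)] (nat_lit 5208761)) p12_9_3 (nat_lit 4) (nat_lit 87) (nat_lit 88) = true := by decide +kernel
def p12_9_3_88 : pfC (piC [(nat_lit 42686981), (nat_lit 27030628), (nat_lit 20024807), (nat_lit 13470738)] (nat_lit 5208761)) p12_9_3 (nat_lit 4) (nat_lit 88) (nat_lit 89) = true := by decide +kernel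
def p12_9_3_89 : pfC (piC [(nat_lit 42686981), (nat_lit 27030628), (nat_lit 20024807), (nat_lit 13470738)] (nat_lit 5208761)) p12_9_3 (nat_lit 4) (nat_lit 89) (nat_lit 90) = true := by decide +kernel
def p12_9_3_90 : pfC (piC [(nat_lit 42686981), (nat_lit 27030628), (nat_lit 20024807), (nat_lit 13470738)] (nat_lit 5208761)) p12_9_3 (nat_lit 4) (nat_lit 90) (nat_lit 91) = true := by decide +kernel
def p12_9_3_91 : pfC (piC [(nat_lit 42686981), (nat_lit 27030628), (nat_lit 20024807), (nat_lit 13470738)] (nat_lit 5208761)) p12_9_3 (nat_lit 4) (nat_lit 91) (nat_lit 92) = true := by decide +kernel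
theorem p12_9_3_T : PfS (PiF n12_9.reverse (nat_lit 5208761)) p12_9_3 (nat_lit 4) [] 0 :=
  pftab_of (los := [(nat_lit 42686981), (nat_lit 27030628), (nat_lit 20024807), (nat_lit 13470738)]) (by decide +kernel) (hi := (nat_lit 92)) (PfP.trans (PfP.trans (PfP.trans (PfP.trans (PfP.trans (PfP.trans (PfP.trans (PfP.trans (PfP.trans (PfP.trans (PfP.trans (PfP.trans (PfP.trans (PfP.trans (PfP.trans (PfP.trans (PfP.trans (PfP.trans (PfP.trans (PfP.trans (PfP.trans (PfP.trans (PfP.trans (PfP.trans (PfP.trans (PfP.trans (PfP.trans (PfP.trans (PfP.trans (PfP.trans (PfP.trans (PfP.trans (PfP.trans (PfP.trans (PfP.trans (PfP.trans (PfP.trans (PfP.trans (PfP.trans (PfP.trans (PfP.trans (PfP.trans (PfP.trans (PfP.trans (PfP.trans (PfP.trans (PfP.trans (PfP.trans (PfP.trans (PfP.trans (PfP.trans (PfP.trans (PfP.trans (PfP.trans (PfP.trans (PfP.trans (PfP.trans (PfP.trans (PfP.trans (PfP.trans (PfP.trans (PfP.trans (PfP.trans (PfP.trans (PfP.trans (PfP.trans (PfP.trans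 (PfP.trans (PfP.trans (PfP.trans (PfP.trans (PfP.trans (PfP.trans (PfP.trans (PfP.trans (PfP.trans (PfP.trans (PfP.trans (PfP.trans (PfP.trans (PfP.trans (PfP.trans (PfP.trans (PfP.trans (PfP.trans (PfP.trans (PfP.trans (PfP.trans (PfP.trans (PfP.trans (PfP.trans (pfC_sound p12_9_3_0) (pfC_sound p12_9_3_1)) (pfC_sound p12_9_3_2)) (pfC_sound p12_9_3_3)) (pfC_sound p12_9_3_4)) (pfC_sound p12_9_3_5)) (pfC_sound p12_9_3_6)) (pfC_sound p12_9_3_7)) (pfC_sound
 p12_9_3_8)) (pfC_sound p12_9_3_9)) (pfC_sound p12_9_3_10)) (pfC_sound p12_9_3_11)) (pfC_sound p12_9_3_12)) (pfC_sound p12_9_3_13)) (pfC_sound p12_9_3_14)) (pfC_sound p12_9_3_15)) (pfC_sound p12_9_3_16)) (pfC_sound p12_9_3_17)) (pfC_sound p12_9_3_18)) (pfC_sound p12_9_3_19)) (pfC_sound p12_9_3_20)) (pfC_sound p12_9_3_21)) (pfC_sound p12_9_3_22)) (pfC_sound p12_9_3_23)) (pfC_sound p12_9_3_24)) (pfC_sound p12_9_3_25)) (pfC_sound p12_9_3_26)) (pfC_sound p12_9_3_27)) (pfC_sound p12_9_3_28)) (pfC_sound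 p12_9_3_29)) (pfC_sound p12_9_3_30)) (pfC_sound p12_9_3_31)) (pfC_sound p12_9_3_32)) (pfC_sound p12_9_3_33)) (pfC_sound p12_9_3_34)) (pfC_sound p12_9_3_35)) (pfC_sound p12_9_3_36)) (pfC_sound p12_9_3_37)) (pfC_sound p12_9_3_38)) (pfC_sound p12_9_3_39)) (pfC_sound p12_9_3_40)) (pfC_sound p12_9_3_41)) (pfC_sound p12_9_3_42)) (pfC_sound p12_9_3_43)) (pfC_sound p12_9_3_44)) (pfC_sound p12_9_3_45)) (pfC_sound p12_9_3_46)) (pfC_sound p12_9_3_47)) (pfC_sound p12_9_3_48)) (pfC_sound p12_9_3_49)) (pfC_sound p12_9_3_50)) (pfC_sound p12_9_3_51)) (pfC_sound p12_9_3_52)) (pfC_sound p12_9_3_53)) (pfC_sound p12_9_3_54)) (pfC_sound p12_9_3_55)) (pfC_sound p12_9_3_56)) (pfC_sound p12_9_3_57)) (pfC_sound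
 p12_9_3_58)) (pfC_sound p12_9_3_59)) (pfC_sound p12_9_3_60)) (pfC_sound p12_9_3_61)) (pfC_sound p12_9_3_62)) (pfC_sound p12_9_3_63)) (pfC_sound p12_9_3_64)) (pfC_sound p12_9_3_65)) (pfC_sound p12_9_3_66)) (pfC_sound p12_9_3_67)) (pfC_sound p12_9_3_68)) (pfC_sound p12_9_3_69)) (pfC_sound p12_9_3_70)) (pfC_sound p12_9_3_71)) (pfC_sound p12_9_3_72)) (pfC_sound p12_9_3_73)) (pfC_sound p12_9_3_74)) (pfC_sound p12_9_3_75)) (pfC_sound p12_9_3_76)) (pfC_sound p12_9_3_77)) (pfC_sound p12_9_3_78)) (pfC_sound p12_9_3_79)) (pfC_sound p12_9_3_80)) (pfC_sound p12_9_3_81)) (pfC_sound p12_9_3_82)) (pfC_sound p12_9_3_83)) (pfC_sound p12_9_3_84)) (pfC_sound p12_9_3_85)) (pfC_sound p12_9_3_86)) (pfC_sound p12_9_3_87)) (pfC_sound p12_9_3_88)) (pfC_sound p12_9_3_89)) (pfC_sound p12_9_3_90)) (pfC_sound p12_9_3_91)) (by decide +kernel)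

def z12_9_3 : zOK yB12_9 (nat_lit 3) (nat_lit 750) (nat_lit 896) (nat_lit 5208761) (nat_lit 3930427) = true := by decide +kernel
def g12_9_3 : gOK yB12_9.x P12_9 (nat_lit 1425) (q12_9 :: r12_9) (nat_lit 3) (nat_lit 750) (nat_lit 4) (nat_lit 896) (nat_lit 12712500) (nat_lit 12712500) (nat_lit 12712500) (nat_lit 12712500) [(nat_lit 800)] = true := by decide +kernel
def v12_9_3 : ivC P12_9 s12_9 w12_9 n12_9 (nat_lit 4) (nat_lit 4730) (nat_lit 3) (nat_lit 750) f144_1_750 f152_1_750 (nat_lit 4) (nat_lit 896) f144_1_896 f152_1_896 (nat_lit 5208761) (nat_lit 3930427) p12_9_3 = true := by decide +kernel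
end CB
end Pool.Agent.Lib.MP_6947cd_al
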