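import Pool.Agent.Lib.MP_6947cd_al.L.CellBQ

/-!
Problem MP_6947cd_al (Chollet).  CASE B, rows `j`: tables of row values (generated).
-/

set_option autoImplicit false
set_option linter.defProp false
set_option maxRecDepth 20000

namespace Pool.Agent.Lib.MP_6947cd_al
namespace CB

open Ent Ent.Pk Fr Fr.WT CA

def f176_0_0 : FT := (FT.cons (FT.cons (FT.cons (FT.leaf [(nat_lit 2867331), (nat_lit 2949537), (nat_lit 3045246), (nat_lit 3151720), (nat_lit 3267003), (nat_lit 3389590), (nat_lit 3518267), (nat_lit 3652030), (nat_lit 3790027), (nat_lit 3931528), (nat_lit 4075903), (nat_lit 4222607), (nat_lit 4371161), (nat_lit 4521149), (nat_lit 4672205), (nat_lit 4824008), (nat_lit 4976278), (nat_lit 5128769), (nat_lit 5281264), (nat_lit 5433575), (nat_lit 5585535)]) (FT.cons (FT.leaf [(nat_lit 3098569), (nat_lit 3200698), (nat_lit 3312545), (nat_lit 3432281), (nat_lit 3558513), (nat_lit 3690126), (nat_lit 3826202), (nat_lit 3965963), (nat_lit 4108748), (nat_lit 4253988),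 (nat_lit 4401185), (nat_lit 4549909), (nat_lit 4699785), (nat_lit 4850482), (nat_lit 5001713), (nat_lit 5153224), (nat_lit 5304795), (nat_lit 5456233), (nat_lit 5607369), (nat_lit 5758055)]) (FT.cons (FT.leaf [(nat_lit 3360914), (nat_lit 3477131), (nat_lit 3600461), (nat_lit 3729600), (nat_lit 3863513), (nat_lit 4001350), (nat_lit 4142402), (nat_lit 4286062), (nat_lit 4431809), (nat_lit 4579193), (nat_lit 4727826), (nat_lit 4877364), (nat_lit 5027509), (nat_lit 5178003), (nat_lit 5328619), (nat_lit 5479156), (nat_lit 5629440), (nat_lit 5779323)])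
 (FT.cons (FT.leaf [(nat_lit 3644526), (nat_lit 3770742), (nat_lit 3902172), (nat_lit 4037849), (nat_lit 4176986), (nat_lit 4318925), (nat_lit 4463110), (nat_lit 4609065), (nat_lit 4756378), (nat_lit 4904695), (nat_lit 5053705), (nat_lit 5203138), (nat_lit 5352759), (nat_lit 5502363), (nat_lit 5651770), (nat_lit 5800824)]) (FT.cons (FT.leaf [(nat_lit 3942465), (nat_lit 4075667), (nat_lit 4212656), (nat_lit 4352698), (nat_lit 4495183), (nat_lit 4639598), (nat_lit 4785505), (nat_lit 4932527), (nat_lit 5080341), (nat_lit 5228663), (nat_lit 5377248), (nat_lit 5525882), (nat_lit 5674379), (nat_lit 5822579)]) (FT.cons (FT.leaf [(nat_lit 4249618), (nat_lit 4387535), (nat_lit 4528146), (nat_lit 4670886), (nat_lit 4815279), (nat_lit 4960921), (nat_lit 5107467), (nat_lit 5254618), (nat_lit 5402118), (nat_lit 5549740), (nat_lit 5697293), (nat_lit 5844606)]) (FT.cons (FT.leaf [(nat_lit 4562150), (nat_lit 4703045), (nat_lit 4845792), (nat_lit 4989949), (nat_lit 5135143),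 (nat_lit 5281054), (nat_lit 5427410), (nat_lit 5573974), (nat_lit 5720540), (nat_lit 5866934)]) (FT.cons (FT.leaf [(nat_lit 4877157), (nat_lit 5019699), (nat_lit 5163438), (nat_lit 5308027), (nat_lit 5453171), (nat_lit
 5598619), (nat_lit 5744153), (nat_lit 5889586)]) (FT.cons (FT.leaf [(nat_lit 5192441), (nat_lit 5335607), (nat_lit 5479459), (nat_lit 5623725), (nat_lit 5768171), (nat_lit 5912598)]) (FT.cons (FT.leaf [(nat_lit 5506341), (nat_lit 5649345), (nat_lit 5792639), (nat_lit 5936006)]) (FT.cons (FT.leaf [(nat_lit 5817611), (nat_lit 5959855)]) (FT.cons (FT.leaf [(nat_lit 6125326)]) (FT.cons (FT.leaf [(nat_lit 6428810)]) (FT.cons (FT.leaf [(nat_lit 6727578)]) FT.nil)))))))))))))) (FT.cons (FT.cons (FT.leaf [(nat_lit 3433969), (nat_lit 3539716), (nat_lit 3654444), (nat_lit 3776307), (nat_lit 3903941), (nat_lit 4036284), (nat_lit 4172476), (nat_lit 4311803), (nat_lit 4453665), (nat_lit 4597547), (nat_lit 4743010), (nat_lit 4889669), (nat_lit 5037195),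 (nat_lit 5185300), (nat_lit 5333731), (nat_lit 5482269), (nat_lit 5630722), (nat_lit 5778923), (nat_lit 5926726)]) (FT.cons (FT.leaf [(nat_lit 3702132), (nat_lit 3820292), (nat_lit 3944905), (nat_lit 4074697), (nat_lit 4208679), (nat_lit 4346058), (nat_lit 4486177), (nat_lit 4628484), (nat_lit 4772508), (nat_lit 4917846), (nat_lit 5064153), (nat_lit 5211125), (nat_lit 5358501), (nat_lit 5506053), (nat_lit 5653581), (nat_lit 5800912), (nat_lit
 5947897), (nat_lit 6094402)]) (FT.cons (FT.leaf [(nat_lit 3987968), (nat_lit 4114758), (nat_lit 4246213), (nat_lit 4381408), (nat_lit 4519605), (nat_lit 4660196), (nat_lit 4802671), (nat_lit 4946600), (nat_lit 5091613), (nat_lit 5237392), (nat_lit 5383662), (nat_lit 5530184), (nat_lit 5676751), (nat_lit 5823182), (nat_lit 5969322), (nat_lit 6115031)]) (FT.cons (FT.leaf [(nat_lit 4285359), (nat_lit 4418058), (nat_lit 4554103), (nat_lit 4692803), (nat_lit 4833594), (nat_lit 4976004), (nat_lit 5119636), (nat_lit 5264150),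 (nat_lit 5409255), (nat_lit 5554699), (nat_lit 5700262), (nat_lit 5845758), (nat_lit 5991020), (nat_lit 6135908)]) (FT.cons (FT.leaf [(nat_lit 4589871), (nat_lit 4726455), (nat_lit 4865390), (nat_lit 5006150), (nat_lit 5148295), (nat_lit 5291459), (nat_lit 5435329), (nat_lit 5579635), (nat_lit 5724148), (nat_lit 5868666), (nat_lit 6013018), (nat_lit 6157054)]) (FT.cons (FT.leaf [(nat_lit 4898209), (nat_lit 5037149), (nat_lit 5177679), (nat_lit 5319391), (nat_lit 5461942), (nat_lit 5605044), (nat_lit 5748447), (nat_lit 5891941), (nat_lit 6035343), (nat_lit 6178493)]) (FT.cons (FT.leaf [(nat_lit 5207898), (nat_lit 5348030), (nat_lit 5489162), (nat_lit 5630978),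
 (nat_lit 5773207), (nat_lit 5915622), (nat_lit 6058026), (nat_lit 6200251)]) (FT.cons (FT.leaf [(nat_lit 5517076), (nat_lit 5657507), (nat_lit 5798483), (nat_lit 5939753), (nat_lit 6081107), (nat_lit 6222361)]) (FT.cons (FT.leaf [(nat_lit 5824339), (nat_lit 5964388), (nat_lit 6104627), (nat_lit 6244860)]) (FT.cons (FT.leaf [(nat_lit 6128642), (nat_lit 6267790)]) (FT.cons (FT.leaf [(nat_lit 6429209)]) (FT.cons (FT.leaf [(nat_lit 6725479)]) (FT.cons (FT.leaf [(nat_lit 7017052)]) FT.nil))))))))))))) (FT.cons (FT.cons (FT.leaf [(nat_lit 4040760), (nat_lit 4159824), (nat_lit 4284787), (nat_lit 4414411), (nat_lit 4547753), (nat_lit 4684065), (nat_lit 4822737), (nat_lit 4963264), (nat_lit 5105215), (nat_lit 5248229), (nat_lit 5391992), (nat_lit 5536235), (nat_lit 5680724), (nat_lit 5825260), (nat_lit 5969663), (nat_lit 6113784), (nat_lit 6257487)]) (FT.cons (FT.leaf [(nat_lit 4326696), (nat_lit 4453292), (nat_lit 4584098), (nat_lit 4718231), (nat_lit 4854998),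 (nat_lit 4993830), (nat_lit 5134260), (nat_lit 5275893), (nat_lit 5418394), (nat_lit 5561477), (nat_lit 5704894), (nat_lit 5848434), (nat_lit 5991911), (nat_lit 6135164), (nat_lit 6278056), (nat_lit 6420465)]) (FT.cons (FT.leaf
 [(nat_lit 4622032), (nat_lit 4753678), (nat_lit 4888309), (nat_lit 5025275), (nat_lit 5164048), (nat_lit 5304195), (nat_lit 5445349), (nat_lit 5587202), (nat_lit 5729489), (nat_lit 5871984), (nat_lit 6014492), (nat_lit 6156844), (nat_lit 6298893), (nat_lit 6440514)]) (FT.cons (FT.leaf [(nat_lit 4922870), (nat_lit 5057747), (nat_lit 5194696), (nat_lit 5333224), (nat_lit 5472927), (nat_lit 5613465), (nat_lit 5754554), (nat_lit 5895949), (nat_lit 6037441), (nat_lit 6178851), (nat_lit 6320023), (nat_lit 6460825)]) (FT.cons (FT.leaf [(nat_lit 5226346), (nat_lit 5363091), (nat_lit 5501215), (nat_lit 5640339), (nat_lit 5780147), (nat_lit 5920375), (nat_lit 6060796), (nat_lit 6201218), (nat_lit 6341474), (nat_lit 6481424)]) (FT.cons (FT.leaf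 [(nat_lit 5530323), (nat_lit 5667908), (nat_lit 5806336), (nat_lit 5945317), (nat_lit 6084602), (nat_lit 6223982), (nat_lit 6363277), (nat_lit 6502337)]) (FT.cons (FT.leaf [(nat_lit 5833205), (nat_lit 5970842), (nat_lit 6108913), (nat_lit 6247186), (nat_lit 6385469), (nat_lit 6523593)]) (FT.cons (FT.leaf [(nat_lit 6133792), (nat_lit 6270885), (nat_lit 6408091), (nat_lit 6545231)]) (FT.cons (FT.leaf [(nat_lit 6431197), (nat_lit 6567291)]) (FT.cons
 (FT.leaf [(nat_lit 6724765)]) (FT.cons (FT.leaf [(nat_lit 7014024)]) FT.nil))))))))))) (FT.cons (FT.cons (FT.leaf [(nat_lit 4659566), (nat_lit 4785412), (nat_lit 4915088), (nat_lit 5047752), (nat_lit 5182745), (nat_lit 5319540), (nat_lit 5457702), (nat_lit 5596867), (nat_lit 5736731), (nat_lit 5877031), (nat_lit 6017545), (nat_lit 6158081), (nat_lit 6298473)]) (FT.cons (FT.leaf [(nat_lit 4951787), (nat_lit 5081991), (nat_lit 5214883), (nat_lit 5349846), (nat_lit 5486389), (nat_lit 5624105), (nat_lit 5762658), (nat_lit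 5901766), (nat_lit 6041187), (nat_lit 6180715), (nat_lit 6320174), (nat_lit 6459411)]) (FT.cons (FT.leaf [(nat_lit 5248247), (nat_lit 5381160), (nat_lit 5515917), (nat_lit 5652055), (nat_lit 5789197), (nat_lit 5927030), (nat_lit 6065290), (nat_lit 6203755), (nat_lit 6342234), (nat_lit 6480565)]) (FT.cons (FT.leaf [(nat_lit 5546429), (nat_lit 5680827), (nat_lit 5816432), (nat_lit 5952890), (nat_lit 6089911), (nat_lit 6227247), (nat_lit 6364692), (nat_lit 6502070)]) (FT.cons (FT.leaf [(nat_lit 5844470), (nat_lit 5979432), (nat_lit 6115115), (nat_lit 6251244), (nat_lit 6387592), (nat_lit 6523965)]) (FT.cons (FT.leaf [(nat_lit 6140984), (nat_lit 6275812), (nat_lit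
 6410986), (nat_lit 6546292)]) (FT.cons (FT.leaf [(nat_lit 6434938), (nat_lit 6569103)]) (FT.cons (FT.leaf [(nat_lit 6725569)]) (FT.cons (FT.leaf [(nat_lit 7012319)]) (FT.cons (FT.leaf [(nat_lit 7294786)]) FT.nil)))))))))) (FT.cons (FT.cons (FT.leaf [(nat_lit 5274227), (nat_lit 5402717), (nat_lit 5533647), (nat_lit 5666431), (nat_lit 5800607), (nat_lit 5935795), (nat_lit 6071684), (nat_lit 6208013), (nat_lit 6344560), (nat_lit 6481136), (nat_lit 6617582)]) (FT.cons (FT.leaf [(nat_lit 5565841), (nat_lit 5696621), (nat_lit 5829056), (nat_lit 5962710), (nat_lit 6097229), (nat_lit 6232323), (nat_lit 6367748), (nat_lit 6503299), (nat_lit 6638801), (nat_lit 6774104)]) (FT.cons (FT.leaf [(nat_lit 5858469), (nat_lit 5990429), (nat_lit 6123456), (nat_lit 6257218), (nat_lit 6391444), (nat_lit 6525905), (nat_lit 6660409), (nat_lit 6794796)]) (FT.cons (FT.leaf [(nat_lit 6150469), (nat_lit 6282780), (nat_lit 6415711), (nat_lit 6549005), (nat_lit 6682450), (nat_lit 6815868)])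 (FT.cons (FT.leaf [(nat_lit 6440628), (nat_lit 6572664), (nat_lit 6704975), (nat_lit 6837364)]) (FT.cons (FT.leaf [(nat_lit 6728046), (nat_lit 6859333)]) (FT.cons (FT.leaf [(nat_lit 7012063)]) (FT.cons (FT.leaf [(nat_lit
 7292195)]) FT.nil)))))))) (FT.cons (FT.cons (FT.leaf [(nat_lit 5875633), (nat_lit 6004174), (nat_lit 6134212), (nat_lit 6265335), (nat_lit 6397212), (nat_lit 6529570), (nat_lit 6662181)]) (FT.cons (FT.leaf [(nat_lit 6162570), (nat_lit 6292048), (nat_lit 6422478), (nat_lit 6553546), (nat_lit 6684999), (nat_lit 6816623)]) (FT.cons (FT.leaf [(nat_lit 6448513), (nat_lit 6578175), (nat_lit 6708375), (nat_lit 6838873)]) (FT.cons (FT.leaf [(nat_lit 6732389), (nat_lit 6861669)]) (FT.cons (FT.leaf [(nat_lit 7013408)]) (FT.cons (FT.leaf [(nat_lit 7290990)]) FT.nil)))))) (FT.cons (FT.cons (FT.leaf [(nat_lit 6458902), (nat_lit 6585887), (nat_lit 6713728), (nat_lit 6842129), (nat_lit 6970850)]) (FT.cons (FT.leaf [(nat_lit 6738832), (nat_lit 6865872),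 (nat_lit 6993382), (nat_lit 7121137)]) (FT.cons (FT.leaf [(nat_lit 7016538), (nat_lit 7143117)]) (FT.cons (FT.leaf [(nat_lit 7291318)]) FT.nil)))) (FT.cons (FT.cons (FT.leaf [(nat_lit 7021681), (nat_lit 7146139), (nat_lit 7271014)]) (FT.cons (FT.leaf [(nat_lit 7293356), (nat_lit 7417296)]) FT.nil)) (FT.cons (FT.cons (FT.leaf [(nat_lit 7563128)]) FT.nil) (FT.cons (FT.cons (FT.leaf [(nat_lit 8083296)]) FT.nil) (FT.cons (FT.cons (FT.leaf [(nat_lit
 8582745)]) FT.nil) (FT.cons (FT.cons (FT.leaf [(nat_lit 9062320)]) FT.nil) (FT.cons (FT.cons (FT.leaf [(nat_lit 9523000)]) FT.nil) FT.nil))))))))))))) (FT.cons (FT.cons (FT.cons (FT.leaf [(nat_lit 4372475), (nat_lit 4472895), (nat_lit 4581370), (nat_lit 4696145), (nat_lit 4815951), (nat_lit 4939816), (nat_lit 5066969), (nat_lit 5196781), (nat_lit 5328728), (nat_lit 5462372), (nat_lit 5597335), (nat_lit 5733296), (nat_lit 5869977), (nat_lit 6007137), (nat_lit 6144567), (nat_lit 6282085), (nat_lit 6419530), (nat_lit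 6556764), (nat_lit 6693666)]) (FT.cons (FT.leaf [(nat_lit 4625313), (nat_lit 4736513), (nat_lit 4853418), (nat_lit 4974850), (nat_lit 5099912), (nat_lit 5227893), (nat_lit 5358215), (nat_lit 5490397), (nat_lit 5624036), (nat_lit 5758788), (nat_lit 5894359), (nat_lit 6030492), (nat_lit 6166968), (nat_lit 6303598), (nat_lit 6440214), (nat_lit 6576671), (nat_lit 6712842), (nat_lit 6848616)]) (FT.cons (FT.leaf [(nat_lit 4892845), (nat_lit 5011425), (nat_lit 5134098), (nat_lit 5260030), (nat_lit 5388559), (nat_lit 5519151), (nat_lit 5651363), (nat_lit 5784822), (nat_lit 5919212), (nat_lit 6054262), (nat_lit 6189739), (nat_lit 6325441), (nat_lit 6461193), (nat_lit 6596842),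
 (nat_lit 6732259), (nat_lit 6867323)]) (FT.cons (FT.leaf [(nat_lit 5169791), (nat_lit 5293382), (nat_lit 5419904), (nat_lit 5548743), (nat_lit 5679402), (nat_lit 5811467), (nat_lit 5944596), (nat_lit 6078496), (nat_lit 6212917), (nat_lit 6347645), (nat_lit 6482494), (nat_lit 6617305), (nat_lit 6751936), (nat_lit 6886265)]) (FT.cons (FT.leaf [(nat_lit 5452437), (nat_lit 5579314), (nat_lit 5708259), (nat_lit 5838807), (nat_lit 5970577), (nat_lit 6103248), (nat_lit 6236549), (nat_lit 6370249), (nat_lit 6504150), (nat_lit 6638082), (nat_lit 6771896), (nat_lit 6905463)]) (FT.cons (FT.leaf [(nat_lit 5738073), (nat_lit 5866949), (nat_lit 5997239), (nat_lit 6128584), (nat_lit 6260687), (nat_lit 6393296), (nat_lit 6526196), (nat_lit 6659206), (nat_lit 6792165), (nat_lit 6924939)]) (FT.cons (FT.leaf [(nat_lit 6024683), (nat_lit 6154585), (nat_lit 6285396), (nat_lit 6416839), (nat_lit 6548677), (nat_lit 6680713), (nat_lit 6812774), (nat_lit 6944717)]) (FT.cons (FT.leaf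 [(nat_lit 6310756), (nat_lit 6440940), (nat_lit 6571642), (nat_lit 6702643), (nat_lit 6833757), (nat_lit 6964827)]) (FT.cons (FT.leaf [(nat_lit 6595154), (nat_lit 6725048), (nat_lit 6855156), (nat_lit 6985304)]) (FT.cons
 (FT.leaf [(nat_lit 6877020), (nat_lit 7006188)]) (FT.cons (FT.leaf [(nat_lit 7155715)]) (FT.cons (FT.leaf [(nat_lit 7430768)]) FT.nil)))))))))))) (FT.cons (FT.cons (FT.leaf [(nat_lit 4938309), (nat_lit 5049831), (nat_lit 5166620), (nat_lit 5287533), (nat_lit 5411716), (nat_lit 5538497), (nat_lit 5667336), (nat_lit 5797788), (nat_lit 5929481), (nat_lit 6062102), (nat_lit 6195381), (nat_lit 6329087), (nat_lit 6463023), (nat_lit 6597015), (nat_lit 6730915), (nat_lit 6864593), (nat_lit 6997933)]) (FT.cons (FT.leaf [(nat_lit 5204928), (nat_lit 5322998), (nat_lit 5444810), (nat_lit 5569565), (nat_lit 5696640), (nat_lit 5825533), (nat_lit 5955831), (nat_lit 6087191), (nat_lit 6219323), (nat_lit 6351978), (nat_lit 6484946), (nat_lit 6618042), (nat_lit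 6751109), (nat_lit 6884010), (nat_lit 7016623), (nat_lit 7148847)]) (FT.cons (FT.leaf [(nat_lit 5479389), (nat_lit 5601830), (nat_lit 5726929), (nat_lit 5854101), (nat_lit 5982879), (nat_lit 6112880), (nat_lit 6243785), (nat_lit 6375324), (nat_lit 6507269), (nat_lit 6639424), (nat_lit 6771619), (nat_lit 6903709), (nat_lit 7035568), (nat_lit 7167086)]) (FT.cons (FT.leaf [(nat_lit 5758386), (nat_lit 5883631), (nat_lit 6010732), (nat_lit
 6139252), (nat_lit 6268833), (nat_lit 6399178), (nat_lit 6530037), (nat_lit 6661197), (nat_lit 6792477), (nat_lit 6923719), (nat_lit 7054791), (nat_lit 7185575)]) (FT.cons (FT.leaf [(nat_lit 6039524), (nat_lit 6166410), (nat_lit 6294548), (nat_lit 6423605), (nat_lit 6553302), (nat_lit 6683405), (nat_lit 6813717), (nat_lit 6944069), (nat_lit 7074318), (nat_lit 7204336)]) (FT.cons (FT.leaf [(nat_lit 6321032), (nat_lit 6448684), (nat_lit 6577126), (nat_lit 6706098), (nat_lit 6835382), (nat_lit 6964795), (nat_lit 7094176), (nat_lit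 7223395)]) (FT.cons (FT.leaf [(nat_lit 6601589), (nat_lit 6729340), (nat_lit 6857523), (nat_lit 6985935), (nat_lit 7114402), (nat_lit 7242778)]) (FT.cons (FT.leaf [(nat_lit 6880200), (nat_lit 7007541), (nat_lit 7135035), (nat_lit 7262521)]) (FT.cons (FT.leaf [(nat_lit 7156124), (nat_lit 7282664)]) (FT.cons (FT.leaf [(nat_lit 7428806)]) (FT.cons (FT.leaf [(nat_lit 7697841)]) FT.nil))))))))))) (FT.cons (FT.cons (FT.leaf [(nat_lit 5511322), (nat_lit 5628520), (nat_lit 5749161), (nat_lit 5872481), (nat_lit 5997888), (nat_lit 6124909), (nat_lit 6253160), (nat_lit 6382323), (nat_lit 6512127), (nat_lit 6642345), (nat_lit 6772784), (nat_lit 6903276), (nat_lit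
 7033677)]) (FT.cons (FT.leaf [(nat_lit 5782632), (nat_lit 5903676), (nat_lit 6027145), (nat_lit 6152485), (nat_lit 6279254), (nat_lit 6407093), (nat_lit 6535706), (nat_lit 6664843), (nat_lit 6794294), (nat_lit 6923876), (nat_lit 7053437), (nat_lit 7182842)]) (FT.cons (FT.leaf [(nat_lit 6057550), (nat_lit 6181004), (nat_lit 6306136), (nat_lit 6432534), (nat_lit 6559861), (nat_lit 6687840), (nat_lit 6816238), (nat_lit 6944859), (nat_lit 7073536), (nat_lit 7202124)]) (FT.cons (FT.leaf [(nat_lit 6333940), (nat_lit 6458745), (nat_lit 6584670), (nat_lit 6711398), (nat_lit 6838670), (nat_lit 6966269), (nat_lit 7094011), (nat_lit 7221740)]) (FT.cons (FT.leaf [(nat_lit 6610231), (nat_lit 6735595), (nat_lit 6861651), (nat_lit 6988155), (nat_lit 7114902), (nat_lit 7241723)]) (FT.cons (FT.leaf [(nat_lit 6885257), (nat_lit 7010577), (nat_lit 7136260), (nat_lit 7262114)]) (FT.cons (FT.leaf [(nat_lit 7158142), (nat_lit 7282961)]) (FT.cons (FT.leaf [(nat_lit 7428238)])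 (FT.cons (FT.leaf [(nat_lit 7695060)]) (FT.cons (FT.leaf [(nat_lit 7958259)]) FT.nil)))))))))) (FT.cons (FT.cons (FT.leaf [(nat_lit 6079345), (nat_lit 6198816), (nat_lit 6320513), (nat_lit 6443910), (nat_lit 6568589), (nat_lit
 6694213), (nat_lit 6820502), (nat_lit 6947226), (nat_lit 7074188), (nat_lit 7201221), (nat_lit 7328183)]) (FT.cons (FT.leaf [(nat_lit 6349899), (nat_lit 6471455), (nat_lit 6594540), (nat_lit 6718761), (nat_lit 6843803), (nat_lit 6969405), (nat_lit 7095351), (nat_lit 7221455), (nat_lit 7347564), (nat_lit 7473546)]) (FT.cons (FT.leaf [(nat_lit 6621394), (nat_lit 6744066), (nat_lit 6867746), (nat_lit 6992135), (nat_lit 7116990), (nat_lit 7242106), (nat_lit 7367313), (nat_lit 7492466)]) (FT.cons (FT.leaf [(nat_lit 6892426), (nat_lit 7015491), (nat_lit 7139167), (nat_lit 7263224), (nat_lit 7387470), (nat_lit 7511746)]) (FT.cons (FT.leaf [(nat_lit 7161957), (nat_lit 7284867), (nat_lit 7408084), (nat_lit 7531425)]) (FT.cons (FT.leaf [(nat_lit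 7429211), (nat_lit 7551551)]) (FT.cons (FT.leaf [(nat_lit 7693615)]) (FT.cons (FT.leaf [(nat_lit 7954743)]) FT.nil)))))))) (FT.cons (FT.cons (FT.leaf [(nat_lit 6635479), (nat_lit 6755072), (nat_lit 6876066), (nat_lit 6998088), (nat_lit 7120840), (nat_lit 7244076), (nat_lit 7367592)]) (FT.cons (FT.leaf [(nat_lit 6902009), (nat_lit 7022526), (nat_lit 7143956), (nat_lit 7266017), (nat_lit 7388478), (nat_lit 7511149)]) (FT.cons (FT.leaf [(nat_lit
 7167795), (nat_lit 7288572), (nat_lit 7409892), (nat_lit 7531537)]) (FT.cons (FT.leaf [(nat_lit 7431905), (nat_lit 7552440)]) (FT.cons (FT.leaf [(nat_lit 7693646)]) (FT.cons (FT.leaf [(nat_lit 7952508)]) FT.nil)))))) (FT.cons (FT.cons (FT.leaf [(nat_lit 7175948), (nat_lit 7294308), (nat_lit 7413501), (nat_lit 7533259), (nat_lit 7653364)]) (FT.cons (FT.leaf [(nat_lit 7436539), (nat_lit 7555052), (nat_lit 7674051), (nat_lit 7793331)]) (FT.cons (FT.leaf [(nat_lit 7695326), (nat_lit 7813531)]) (FT.cons (FT.leaf [(nat_lit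 7951689)]) FT.nil)))) (FT.cons (FT.cons (FT.leaf [(nat_lit 7698869), (nat_lit 7815154), (nat_lit 7931878)]) (FT.cons (FT.leaf [(nat_lit 7952452), (nat_lit 8068379)]) FT.nil)) (FT.cons (FT.cons (FT.leaf [(nat_lit 8203511)]) FT.nil) (FT.cons (FT.cons (FT.leaf [(nat_lit 8689840)]) FT.nil) (FT.cons (FT.cons (FT.leaf [(nat_lit 9158242)]) FT.nil) (FT.cons (FT.cons (FT.leaf [(nat_lit 9609339)]) FT.nil) (FT.cons (FT.cons (FT.leaf [(nat_lit 10043882)]) FT.nil) FT.nil)))))))))))) (FT.cons (FT.cons (FT.cons (FT.leaf [(nat_lit 5752925), (nat_lit 5857655), (nat_lit 5967170), (nat_lit 6080406), (nat_lit 6196579), (nat_lit 6315082), (nat_lit 6435425), (nat_lit 6557212), (nat_lit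
 6680114), (nat_lit 6803852), (nat_lit 6928191), (nat_lit 7052927), (nat_lit 7177887), (nat_lit 7302922), (nat_lit 7427898)]) (FT.cons (FT.leaf [(nat_lit 6002383), (nat_lit 6112955), (nat_lit 6226915), (nat_lit 6343533), (nat_lit 6462242), (nat_lit 6582590), (nat_lit 6704208), (nat_lit 6826790), (nat_lit 6950079), (nat_lit 7073858), (nat_lit 7197937), (nat_lit 7322156), (nat_lit 7446379), (nat_lit 7570482)]) (FT.cons (FT.leaf [(nat_lit 6258646), (nat_lit 6373110), (nat_lit 6489985), (nat_lit 6608743), (nat_lit 6728961), (nat_lit 6850294), (nat_lit 6972460), (nat_lit 7095217), (nat_lit 7218365), (nat_lit 7341729), (nat_lit 7465159), (nat_lit 7588529)]) (FT.cons (FT.leaf [(nat_lit 6518827), (nat_lit 6635800), (nat_lit 6754470), (nat_lit 6874442), (nat_lit 6995393), (nat_lit 7117058), (nat_lit 7239214), (nat_lit 7361671), (nat_lit 7484269), (nat_lit 7606868)]) (FT.cons (FT.leaf [(nat_lit 6780864), (nat_lit 6899330), (nat_lit 7018956), (nat_lit 7139439), (nat_lit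 7260532), (nat_lit 7382025), (nat_lit 7503742), (nat_lit 7625532)]) (FT.cons (FT.leaf [(nat_lit 7043242), (nat_lit 7162435), (nat_lit 7282379), (nat_lit 7402838), (nat_lit 7523616), (nat_lit 7644549)]) (FT.cons (FT.leaf
 [(nat_lit 7304828), (nat_lit 7424168), (nat_lit 7543941), (nat_lit 7663961)]) (FT.cons (FT.leaf [(nat_lit 7564771), (nat_lit 7683813)]) (FT.cons (FT.leaf [(nat_lit 7822433)]) (FT.cons (FT.leaf [(nat_lit 8077330)]) (FT.cons (FT.leaf [(nat_lit 8329107)]) FT.nil))))))))))) (FT.cons (FT.cons (FT.leaf [(nat_lit 6286075), (nat_lit 6395765), (nat_lit 6508600), (nat_lit 6623877), (nat_lit 6741058), (nat_lit 6859715), (nat_lit 6979502), (nat_lit 7100132), (nat_lit 7221366), (nat_lit 7343002), (nat_lit 7464866), (nat_lit 7586811), (nat_lit 7708707)]) (FT.cons (FT.leaf [(nat_lit 6539344), (nat_lit 6652508), (nat_lit 6767895), (nat_lit 6884999), (nat_lit 7003421), (nat_lit 7122838), (nat_lit 7242981), (nat_lit 7363628), (nat_lit 7484591), (nat_lit 7605707),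 (nat_lit 7726840), (nat_lit 7847870)]) (FT.cons (FT.leaf [(nat_lit 6795811), (nat_lit 6911171), (nat_lit 7028085), (nat_lit 7146175), (nat_lit 7265139), (nat_lit 7384726), (nat_lit 7504727), (nat_lit 7624967), (nat_lit 7745295), (nat_lit 7865582)]) (FT.cons (FT.leaf [(nat_lit 7053616), (nat_lit 7170239), (nat_lit 7287914), (nat_lit 7406354), (nat_lit 7525325), (nat_lit 7644631), (nat_lit 7764107), (nat_lit 7883612)]) (FT.cons (FT.leaf
 [(nat_lit 7311399), (nat_lit 7428585), (nat_lit 7546441), (nat_lit 7664744), (nat_lit 7783312), (nat_lit 7901988)]) (FT.cons (FT.leaf [(nat_lit 7568147), (nat_lit 7685366), (nat_lit 7802958), (nat_lit 7920751)]) (FT.cons (FT.leaf [(nat_lit 7823101), (nat_lit 7939946)]) (FT.cons (FT.leaf [(nat_lit 8075692)]) (FT.cons (FT.leaf [(nat_lit 8325494)]) (FT.cons (FT.leaf [(nat_lit 8572190)]) FT.nil)))))))))) (FT.cons (FT.cons (FT.leaf [(nat_lit 6814254), (nat_lit 6925996), (nat_lit 7039797), (nat_lit 7155175), (nat_lit 7271750), (nat_lit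 7389216), (nat_lit 7507321), (nat_lit 7625857), (nat_lit 7744645), (nat_lit 7863538), (nat_lit 7982406)]) (FT.cons (FT.leaf [(nat_lit 7066819), (nat_lit 7180496), (nat_lit 7295601), (nat_lit 7411778), (nat_lit 7528738), (nat_lit 7646246), (nat_lit 7764105), (nat_lit 7882149), (nat_lit 8000240), (nat_lit 8118257)]) (FT.cons (FT.leaf [(nat_lit 7320304), (nat_lit 7435053), (nat_lit 7550760), (nat_lit 7667155), (nat_lit 7784015), (nat_lit 7901156), (nat_lit 8018422), (nat_lit 8135684)]) (FT.cons (FT.leaf [(nat_lit 7573479), (nat_lit 7688656), (nat_lit 7804434), (nat_lit 7920604), (nat_lit 8036992), (nat_lit 8153451)]) (FT.cons (FT.leaf [(nat_lit 7825432),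
 (nat_lit 7940549), (nat_lit 8055993), (nat_lit 8171598)]) (FT.cons (FT.leaf [(nat_lit 8075481), (nat_lit 8190168)]) (FT.cons (FT.leaf [(nat_lit 8323116)]) (FT.cons (FT.leaf [(nat_lit 8567958)]) FT.nil)))))))) (FT.cons (FT.cons (FT.leaf [(nat_lit 7331922), (nat_lit 7443871), (nat_lit 7557141), (nat_lit 7671391), (nat_lit 7786349), (nat_lit 7901791), (nat_lit 8017530)]) (FT.cons (FT.leaf [(nat_lit 7581050), (nat_lit 7693912), (nat_lit 7807653), (nat_lit 7922015), (nat_lit 8036787), (nat_lit 8151796)]) (FT.cons (FT.leaf [(nat_lit 7829640), (nat_lit 7942820), (nat_lit 8056543), (nat_lit 8170610)]) (FT.cons (FT.leaf [(nat_lit 8076865), (nat_lit 8189913)]) (FT.cons (FT.leaf [(nat_lit 8322110)]) (FT.cons (FT.leaf [(nat_lit 8564914)]) FT.nil)))))) (FT.cons (FT.cons (FT.leaf [(nat_lit 7835998), (nat_lit 7946975), (nat_lit 8058764), (nat_lit 8171116), (nat_lit 8283832)]) (FT.cons (FT.leaf [(nat_lit 8080053), (nat_lit 8191257), (nat_lit 8302955), (nat_lit 8414959)])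 (FT.cons (FT.leaf [(nat_lit 8322635), (nat_lit 8433649)]) (FT.cons (FT.leaf [(nat_lit 8563186)]) FT.nil)))) (FT.cons (FT.cons (FT.leaf [(nat_lit 8324893)]) (FT.cons (FT.leaf [(nat_lit 8562930)]) FT.nil)) (FT.cons (FT.cons
 (FT.leaf [(nat_lit 8797940)]) FT.nil) (FT.cons (FT.cons (FT.leaf [(nat_lit 9255042)]) FT.nil) (FT.cons (FT.cons (FT.leaf [(nat_lit 9696455)]) FT.nil) (FT.cons (FT.cons (FT.leaf [(nat_lit 10122640)]) FT.nil) FT.nil)))))))))) (FT.cons (FT.cons (FT.cons (FT.leaf [(nat_lit 6996723), (nat_lit 7099877), (nat_lit 7205931), (nat_lit 7314239), (nat_lit 7424303), (nat_lit 7535735), (nat_lit 7648216), (nat_lit 7761490), (nat_lit 7875336), (nat_lit 7989575), (nat_lit 8104049), (nat_lit 8218624), (nat_lit 8333187)]) (FT.cons (FT.leaf [(nat_lit 7234349), (nat_lit 7340686), (nat_lit 7449082), (nat_lit 7559073), (nat_lit 7670291), (nat_lit 7782443), (nat_lit 7895284), (nat_lit 8008613), (nat_lit 8122258), (nat_lit 8236075), (nat_lit 8349937), (nat_lit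 8463739)]) (FT.cons (FT.leaf [(nat_lit 7474880), (nat_lit 7583250), (nat_lit 7693070), (nat_lit 7803994), (nat_lit 7915746), (nat_lit 8028098), (nat_lit 8140859), (nat_lit 8253870), (nat_lit 8366995), (nat_lit 8480115)]) (FT.cons (FT.leaf [(nat_lit 7716669), (nat_lit 7826234), (nat_lit 7936793), (nat_lit 8048086), (nat_lit 8159897), (nat_lit 8272049), (nat_lit 8384389), (nat_lit 8496793)]) (FT.cons (FT.leaf [(nat_lit 7958512), (nat_lit 8068646),
 (nat_lit 8179427), (nat_lit 8290654), (nat_lit 8402160), (nat_lit 8513801)]) (FT.cons (FT.leaf [(nat_lit 8199515), (nat_lit 8309741), (nat_lit 8420348), (nat_lit 8531176)]) (FT.cons (FT.leaf [(nat_lit 8439007), (nat_lit 8548960)]) (FT.cons (FT.leaf [(nat_lit 8676479)]) (FT.cons (FT.leaf [(nat_lit 8911550)]) FT.nil))))))))) (FT.cons (FT.cons (FT.leaf [(nat_lit 7490595), (nat_lit 7595650), (nat_lit 7702626), (nat_lit 7811078), (nat_lit 7920656), (nat_lit 8031080), (nat_lit 8142120), (nat_lit 8253585), (nat_lit 8365316),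 (nat_lit 8477173), (nat_lit 8589043)]) (FT.cons (FT.leaf [(nat_lit 7727635), (nat_lit 7834506), (nat_lit 7942721), (nat_lit 8051951), (nat_lit 8161933), (nat_lit 8272450), (nat_lit 8383323), (nat_lit 8494401), (nat_lit 8605556), (nat_lit 8716680)]) (FT.cons (FT.leaf [(nat_lit 7965591), (nat_lit 8073498), (nat_lit 8182320), (nat_lit 8291808), (nat_lit 8401760), (nat_lit 8512005), (nat_lit 8622402), (nat_lit 8732830)]) (FT.cons (FT.leaf [(nat_lit 8203366), (nat_lit 8311727), (nat_lit 8420679), (nat_lit 8530028), (nat_lit 8639614), (nat_lit 8749305)]) (FT.cons (FT.leaf [(nat_lit 8440146), (nat_lit 8548522), (nat_lit 8657238), (nat_lit 8766140)]) (FT.cons (FT.leaf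
 [(nat_lit 8675322), (nat_lit 8783376)]) (FT.cons (FT.leaf [(nat_lit 8908435)]) (FT.cons (FT.leaf [(nat_lit 9139140)]) FT.nil)))))))) (FT.cons (FT.cons (FT.leaf [(nat_lit 7975200), (nat_lit 8080539), (nat_lit 8187131), (nat_lit 8294661), (nat_lit 8402876), (nat_lit 8511572), (nat_lit 8620578)]) (FT.cons (FT.leaf [(nat_lit 8209303), (nat_lit 8315544), (nat_lit 8422632), (nat_lit 8530329), (nat_lit 8638441), (nat_lit 8746807)]) (FT.cons (FT.leaf [(nat_lit 8443035), (nat_lit 8549636), (nat_lit 8656777), (nat_lit 8764275)]) (FT.cons (FT.leaf [(nat_lit 8675651), (nat_lit 8782204)]) (FT.cons (FT.leaf [(nat_lit 8906597)]) (FT.cons (FT.leaf [(nat_lit 9135454)]) FT.nil)))))) (FT.cons (FT.cons (FT.leaf [(nat_lit 8447930), (nat_lit 8552509), (nat_lit 8657875), (nat_lit 8763801), (nat_lit 8870100)]) (FT.cons (FT.leaf [(nat_lit 8677663), (nat_lit 8782524), (nat_lit 8887881), (nat_lit 8993558)]) (FT.cons (FT.leaf [(nat_lit 8906189), (nat_lit 9010949)]) (FT.cons (FT.leaf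 [(nat_lit 9132996)]) FT.nil)))) (FT.cons (FT.cons (FT.leaf [(nat_lit 8907400)]) (FT.cons (FT.leaf [(nat_lit 9131915)]) FT.nil)) (FT.cons (FT.cons (FT.leaf [(nat_lit 9352988)]) FT.nil) (FT.cons (FT.cons (FT.leaf [(nat_lit
 9784552)]) FT.nil) (FT.cons (FT.cons (FT.leaf [(nat_lit 10202251)]) FT.nil) FT.nil)))))))) (FT.cons (FT.cons (FT.cons (FT.leaf [(nat_lit 8117368), (nat_lit 8216582), (nat_lit 8317600), (nat_lit 8420006), (nat_lit 8523478), (nat_lit 8627756), (nat_lit 8732629), (nat_lit 8837921), (nat_lit 8943485)]) (FT.cons (FT.leaf [(nat_lit 8340874), (nat_lit 8441803), (nat_lit 8544003), (nat_lit 8647170), (nat_lit 8751060), (nat_lit 8855472), (nat_lit 8960241), (nat_lit 9065229)]) (FT.cons (FT.leaf [(nat_lit 8565294), (nat_lit 8667226), (nat_lit 8770036), (nat_lit 8873492), (nat_lit 8977405), (nat_lit 9081621)]) (FT.cons (FT.leaf [(nat_lit 8789638), (nat_lit 8892045), (nat_lit 8995028), (nat_lit 9098411)]) (FT.cons (FT.leaf [(nat_lit 9013173), (nat_lit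 9115651)]) (FT.cons (FT.leaf [(nat_lit 9235346)]) (FT.cons (FT.leaf [(nat_lit 9455741)]) FT.nil))))))) (FT.cons (FT.cons (FT.leaf [(nat_lit 8573242), (nat_lit 8672805), (nat_lit 8773559), (nat_lit 8875213), (nat_lit 8977531), (nat_lit 9080323), (nat_lit 9183433)]) (FT.cons (FT.leaf [(nat_lit 8794230), (nat_lit 8894680), (nat_lit 8995947), (nat_lit 9097811), (nat_lit 9200089), (nat_lit 9302636)]) (FT.cons (FT.leaf [(nat_lit 9014980), (nat_lit
 9115821), (nat_lit 9217196), (nat_lit 9318934)]) (FT.cons (FT.leaf [(nat_lit 9234815), (nat_lit 9335673)]) (FT.cons (FT.leaf [(nat_lit 9453229)]) (FT.cons (FT.leaf [(nat_lit 9669840)]) FT.nil)))))) (FT.cons (FT.cons (FT.leaf [(nat_lit 9018666), (nat_lit 9117638), (nat_lit 9217374)]) (FT.cons (FT.leaf [(nat_lit 9235861), (nat_lit 9335154)]) (FT.cons (FT.leaf [(nat_lit 9452059)]) (FT.cons (FT.leaf [(nat_lit 9666792)]) FT.nil)))) (FT.cons (FT.cons (FT.leaf [(nat_lit 9452407)]) (FT.cons (FT.leaf [(nat_lit 9665035)]) FT.nil))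 (FT.cons (FT.cons (FT.leaf [(nat_lit 9873878)]) FT.nil) (FT.cons (FT.cons (FT.leaf [(nat_lit 10282904)]) FT.nil) FT.nil)))))) (FT.cons (FT.cons (FT.cons (FT.leaf [(nat_lit 9132308), (nat_lit 9226774), (nat_lit 9322376), (nat_lit 9418841), (nat_lit 9515950)]) (FT.cons (FT.leaf [(nat_lit 9341735), (nat_lit 9437072), (nat_lit 9533197), (nat_lit 9629905)]) (FT.cons (FT.leaf [(nat_lit 9551031), (nat_lit 9646781)]) FT.nil))) (FT.cons (FT.cons (FT.leaf [(nat_lit 9553709), (nat_lit 9647721), (nat_lit 9742474)]) (FT.cons (FT.leaf [(nat_lit 9759819), (nat_lit 9854182)]) FT.nil)) (FT.cons (FT.cons (FT.leaf [(nat_lit 9964735)]) FT.nil) (FT.cons (FT.cons (FT.leaf [(nat_lit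
 10364828)]) FT.nil) FT.nil)))) (FT.cons (FT.cons (FT.cons (FT.leaf [(nat_lit 10057504)]) FT.nil) (FT.cons (FT.cons (FT.leaf [(nat_lit 10448307)]) FT.nil) FT.nil)) (FT.cons (FT.cons (FT.cons (FT.leaf [(nat_lit 10906365)]) FT.nil) FT.nil) (FT.cons (FT.cons (FT.cons (FT.leaf [(nat_lit 11689878)]) FT.nil) FT.nil) (FT.cons (FT.cons (FT.cons (FT.leaf [(nat_lit 12416997)]) FT.nil) FT.nil) FT.nil))))))))))

def f176_0_400 : FT := (FT.cons (FT.cons (FT.cons (FT.leaf [(nat_lit 3617934), (nat_lit 3723619), (nat_lit 3838058), (nat_lit 3959405), (nat_lit 4086306), (nat_lit 4217717), (nat_lit 4352794), (nat_lit 4490845), (nat_lit 4631287), (nat_lit 4773627), (nat_lit 4917442), (nat_lit 5062364), (nat_lit 5208080), (nat_lit 5354313), (nat_lit 5500825), (nat_lit 5647406), (nat_lit 5793874), (nat_lit 5940072), (nat_lit 6085859), (nat_lit 6231117), (nat_lit 6375741)]) (FT.cons (FT.leaf [(nat_lit 3885192), (nat_lit 4002811), (nat_lit 4126677), (nat_lit 4255530), (nat_lit 4388399),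 (nat_lit 4524508), (nat_lit 4663217), (nat_lit 4803993), (nat_lit 4946384), (nat_lit 5090001), (nat_lit 5234514), (nat_lit 5379631), (nat_lit 5525104), (nat_lit 5670716), (nat_lit 5816277), (nat_lit 5961623), (nat_lit 6106609), (nat_lit 6251111), (nat_lit 6395021), (nat_lit 6538244)]) (FT.cons (FT.leaf [(nat_lit 4169127), (nat_lit 4294977), (nat_lit 4425322), (nat_lit 4559254), (nat_lit 4696053), (nat_lit 4835127), (nat_lit 4975984), (nat_lit 5118208), (nat_lit 5261444), (nat_lit 5405386), (nat_lit 5549771), (nat_lit 5694371), (nat_lit 5838988), (nat_lit 5983450), (nat_lit 6127609), (nat_lit 6271332), (nat_lit 6414507), (nat_lit 6557038)])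
 (FT.cons (FT.leaf [(nat_lit 4463841), (nat_lit 4595287), (nat_lit 4729947), (nat_lit 4867147), (nat_lit 5006336), (nat_lit 5147059), (nat_lit 5288932), (nat_lit 5431627), (nat_lit 5574866), (nat_lit 5718405), (nat_lit 5862037), (nat_lit 6005582), (nat_lit 6148880), (nat_lit 6291798), (nat_lit 6434217), (nat_lit 6576033)]) (FT.cons (FT.leaf [(nat_lit 4765099), (nat_lit 4900200), (nat_lit 5037552), (nat_lit 5176642), (nat_lit 5317049), (nat_lit 5458414), (nat_lit 5600436), (nat_lit 5742858), (nat_lit 5885458), (nat_lit 6028042), (nat_lit 6170447), (nat_lit 6312531), (nat_lit 6454167), (nat_lit 6595249)]) (FT.cons (FT.leaf [(nat_lit 5069779), (nat_lit 5207072), (nat_lit 5345882), (nat_lit 5485815), (nat_lit 5626540), (nat_lit 5767776), (nat_lit 5909287), (nat_lit 6050866), (nat_lit 6192339), (nat_lit 6333554), (nat_lit 6474378), (nat_lit 6614700)]) (FT.cons (FT.leaf [(nat_lit 5375543), (nat_lit 5513918), (nat_lit 5653245), (nat_lit 5793216), (nat_lit 5933571),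 (nat_lit 6074091), (nat_lit 6214585), (nat_lit 6354893), (nat_lit 6494873), (nat_lit 6634407)]) (FT.cons (FT.leaf [(nat_lit 5680635), (nat_lit 5819244), (nat_lit 5958366), (nat_lit 6097761), (nat_lit 6237224), (nat_lit
 6376580), (nat_lit 6515679), (nat_lit 6654392)]) (FT.cons (FT.leaf [(nat_lit 5983737), (nat_lit 6121931), (nat_lit 6260300), (nat_lit 6398652), (nat_lit 6536825), (nat_lit 6674681)]) (FT.cons (FT.leaf [(nat_lit 6283864), (nat_lit 6421151), (nat_lit 6558348), (nat_lit 6695304)]) (FT.cons (FT.leaf [(nat_lit 6580289), (nat_lit 6716295)]) (FT.cons (FT.leaf [(nat_lit 6872484)]) (FT.cons (FT.leaf [(nat_lit 7160074)]) (FT.cons (FT.leaf [(nat_lit 7442805)]) FT.nil)))))))))))))) (FT.cons (FT.cons (FT.leaf [(nat_lit 4220183), (nat_lit 4338427), (nat_lit 4462399), (nat_lit 4590874), (nat_lit 4722927), (nat_lit 4857826), (nat_lit 4994978), (nat_lit 5133891), (nat_lit 5274150), (nat_lit 5415406), (nat_lit 5557359), (nat_lit 5699749), (nat_lit 5842353),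 (nat_lit 5984976), (nat_lit 6127453), (nat_lit 6269637), (nat_lit 6411402), (nat_lit 6552635), (nat_lit 6693243)]) (FT.cons (FT.leaf [(nat_lit 4503665), (nat_lit 4629125), (nat_lit 4758657), (nat_lit 4891395), (nat_lit 5026657), (nat_lit 5163895), (nat_lit 5302652), (nat_lit 5442546), (nat_lit 5583256), (nat_lit 5724504), (nat_lit 5866054), (nat_lit 6007701), (nat_lit 6149269), (nat_lit 6290603), (nat_lit 6431569), (nat_lit 6572057), (nat_lit
 6711961), (nat_lit 6851198)]) (FT.cons (FT.leaf [(nat_lit 4795960), (nat_lit 4926229), (nat_lit 5059377), (nat_lit 5194768), (nat_lit 5331889), (nat_lit 5470317), (nat_lit 5609699), (nat_lit 5749736), (nat_lit 5890175), (nat_lit 6030797), (nat_lit 6171414), (nat_lit 6311864), (nat_lit 6452006), (nat_lit 6591718), (nat_lit 6730899), (nat_lit 6869452)]) (FT.cons (FT.leaf [(nat_lit 5093333), (nat_lit 5226657), (nat_lit 5361975), (nat_lit 5498806), (nat_lit 5636759), (nat_lit 5775503), (nat_lit 5914763), (nat_lit 6054304),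 (nat_lit 6193923), (nat_lit 6333449), (nat_lit 6472731), (nat_lit 6611642), (nat_lit 6750071), (nat_lit 6887920)]) (FT.cons (FT.leaf [(nat_lit 5393053), (nat_lit 5528126), (nat_lit 5664521), (nat_lit 5801872), (nat_lit 5939873), (nat_lit 6078266), (nat_lit 6216834), (nat_lit 6355390), (nat_lit 6493774), (nat_lit 6631850), (nat_lit 6769499), (nat_lit 6906620)]) (FT.cons (FT.leaf [(nat_lit 5693095), (nat_lit 5828929), (nat_lit 5965572), (nat_lit 6102739), (nat_lit 6240191), (nat_lit 6377723), (nat_lit 6515165), (nat_lit 6652369), (nat_lit 6789207), (nat_lit 6925570)]) (FT.cons (FT.leaf [(nat_lit 5991943), (nat_lit 6127789), (nat_lit 6264047), (nat_lit 6400494),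
 (nat_lit 6536941), (nat_lit 6673228), (nat_lit 6809218), (nat_lit 6944794)]) (FT.cons (FT.leaf [(nat_lit 6288467), (nat_lit 6423754), (nat_lit 6559145), (nat_lit 6694465), (nat_lit 6829564), (nat_lit 6964315)]) (FT.cons (FT.leaf [(nat_lit 6581826), (nat_lit 6716118), (nat_lit 6850277), (nat_lit 6984163)]) (FT.cons (FT.leaf [(nat_lit 6871401), (nat_lit 7004372)]) (FT.cons (FT.leaf [(nat_lit 7156746)]) (FT.cons (FT.leaf [(nat_lit 7437548)]) (FT.cons (FT.leaf [(nat_lit 7713598)]) FT.nil))))))))))))) (FT.cons (FT.cons (FT.leaf [(nat_lit 4832118), (nat_lit 4956702), (nat_lit 5085001), (nat_lit 5216189), (nat_lit 5349621), (nat_lit 5484783), (nat_lit 5621251), (nat_lit 5758675), (nat_lit 5896757), (nat_lit 6035246), (nat_lit 6173927), (nat_lit 6312614), (nat_lit 6451149), (nat_lit 6589392), (nat_lit 6727225), (nat_lit 6864544), (nat_lit 7001262)]) (FT.cons (FT.leaf [(nat_lit 5121077), (nat_lit 5249830), (nat_lit 5381185), (nat_lit 5514538), (nat_lit 5649410),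 (nat_lit 5785406), (nat_lit 5922199), (nat_lit 6059515), (nat_lit 6197121), (nat_lit 6334819), (nat_lit 6472438), (nat_lit 6609830), (nat_lit 6746871), (nat_lit 6883449), (nat_lit 7019471), (nat_lit 7154855)]) (FT.cons (FT.leaf
 [(nat_lit 5413962), (nat_lit 5545290), (nat_lit 5678400), (nat_lit 5812841), (nat_lit 5948245), (nat_lit 6084307), (nat_lit 6220773), (nat_lit 6357427), (nat_lit 6494084), (nat_lit 6630587), (nat_lit 6766801), (nat_lit 6902609), (nat_lit 7037911), (nat_lit 7172619)]) (FT.cons (FT.leaf [(nat_lit 5708364), (nat_lit 5841090), (nat_lit 5974979), (nat_lit 6109690), (nat_lit 6244936), (nat_lit 6380481), (nat_lit 6516123), (nat_lit 6651692), (nat_lit 6787042), (nat_lit 6922048), (nat_lit 7056601), (nat_lit 7190612)]) (FT.cons (FT.leaf [(nat_lit 6002508), (nat_lit 6135745), (nat_lit 6269677), (nat_lit 6404035), (nat_lit 6538600), (nat_lit 6673182), (nat_lit 6807625), (nat_lit 6941791), (nat_lit 7075565), (nat_lit 7208849)]) (FT.cons (FT.leaf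 [(nat_lit 6295075), (nat_lit 6428154), (nat_lit 6561565), (nat_lit 6695100), (nat_lit 6828583), (nat_lit 6961868), (nat_lit 7094827), (nat_lit 7227354)]) (FT.cons (FT.leaf [(nat_lit 6585082), (nat_lit 6717496), (nat_lit 6849961), (nat_lit 6982314), (nat_lit 7114416), (nat_lit 7246150)]) (FT.cons (FT.leaf [(nat_lit 6871806), (nat_lit 7003169), (nat_lit 7134365), (nat_lit 7265267)]) (FT.cons (FT.leaf [(nat_lit 7154716), (nat_lit 7284737)]) (FT.cons
 (FT.leaf [(nat_lit 7433431)]) (FT.cons (FT.leaf [(nat_lit 7707688)]) FT.nil))))))))))) (FT.cons (FT.cons (FT.leaf [(nat_lit 5438885), (nat_lit 5565886), (nat_lit 5695257), (nat_lit 5826424), (nat_lit 5958935), (nat_lit 6092420), (nat_lit 6226577), (nat_lit 6361151), (nat_lit 6495929), (nat_lit 6630727), (nat_lit 6765388), (nat_lit 6899782), (nat_lit 7033791)]) (FT.cons (FT.leaf [(nat_lit 5726886), (nat_lit 5856076), (nat_lit 5986871), (nat_lit 6118846), (nat_lit 6251655), (nat_lit 6385015), (nat_lit 6518691), (nat_lit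 6652482), (nat_lit 6786218), (nat_lit 6919755), (nat_lit 7052970), (nat_lit 7185755)]) (FT.cons (FT.leaf [(nat_lit 6015760), (nat_lit 6146067), (nat_lit 6277407), (nat_lit 6409458), (nat_lit 6541954), (nat_lit 6674675), (nat_lit 6807432), (nat_lit 6940070), (nat_lit 7072454), (nat_lit 7204469)]) (FT.cons (FT.leaf [(nat_lit 6303937), (nat_lit 6434560), (nat_lit 6565783), (nat_lit 6697357), (nat_lit 6829074), (nat_lit 6960762), (nat_lit 7092272), (nat_lit 7223479)]) (FT.cons (FT.leaf [(nat_lit 6590255), (nat_lit 6720592), (nat_lit 6851196), (nat_lit 6981872), (nat_lit 7112459), (nat_lit 7242818)]) (FT.cons (FT.leaf [(nat_lit 6873856), (nat_lit 7003451), (nat_lit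
 7133055), (nat_lit 7262517)]) (FT.cons (FT.leaf [(nat_lit 7154110), (nat_lit 7282617)]) (FT.cons (FT.leaf [(nat_lit 7430555)]) (FT.cons (FT.leaf [(nat_lit 7702867)]) (FT.cons (FT.leaf [(nat_lit 7970819)]) FT.nil)))))))))) (FT.cons (FT.cons (FT.leaf [(nat_lit 6032127), (nat_lit 6159091), (nat_lit 6287511), (nat_lit 6416986), (nat_lit 6547191), (nat_lit 6677861), (nat_lit 6808774), (nat_lit 6939745), (nat_lit 7070618), (nat_lit 7201261), (nat_lit 7331556)]) (FT.cons (FT.leaf [(nat_lit 6315371), (nat_lit 6443226), (nat_lit 6572007), (nat_lit 6701410), (nat_lit 6831184), (nat_lit 6961122), (nat_lit 7091053), (nat_lit 7220829), (nat_lit 7350325), (nat_lit 7479436)]) (FT.cons (FT.leaf [(nat_lit 6597585), (nat_lit 6725604), (nat_lit 6854146), (nat_lit 6982978), (nat_lit 7111906), (nat_lit 7240765), (nat_lit 7369421), (nat_lit 7497756)]) (FT.cons (FT.leaf [(nat_lit 6877739), (nat_lit 7005375), (nat_lit 7133227), (nat_lit 7261112), (nat_lit 7388878), (nat_lit 7516396)])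 (FT.cons (FT.leaf [(nat_lit 7155077), (nat_lit 7281917), (nat_lit 7408736), (nat_lit 7535389)]) (FT.cons (FT.leaf [(nat_lit 7429042), (nat_lit 7554776)]) (FT.cons (FT.leaf [(nat_lit 7699235)]) (FT.cons (FT.leaf [(nat_lit
 7965370)]) FT.nil)))))))) (FT.cons (FT.cons (FT.leaf [(nat_lit 6607378), (nat_lit 6732779), (nat_lit 6859016), (nat_lit 6985801), (nat_lit 7112897), (nat_lit 7240113), (nat_lit 7367283)]) (FT.cons (FT.leaf [(nat_lit 6883688), (nat_lit 7009133), (nat_lit 7135040), (nat_lit 7261186), (nat_lit 7387389), (nat_lit 7513497)]) (FT.cons (FT.leaf [(nat_lit 7157798), (nat_lit 7282788), (nat_lit 7407953), (nat_lit 7533121)]) (FT.cons (FT.leaf [(nat_lit 7429035), (nat_lit 7553194)]) (FT.cons (FT.leaf [(nat_lit 7696907)]) (FT.cons (FT.leaf [(nat_lit 7961059)]) FT.nil)))))) (FT.cons (FT.cons (FT.leaf [(nat_lit 7162500), (nat_lit 7285416), (nat_lit 7408743), (nat_lit 7532268), (nat_lit 7655820)]) (FT.cons (FT.leaf [(nat_lit 7430710), (nat_lit 7553118),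 (nat_lit 7675669), (nat_lit 7798198)]) (FT.cons (FT.leaf [(nat_lit 7696023), (nat_lit 7817579)]) (FT.cons (FT.leaf [(nat_lit 7958000)]) FT.nil)))) (FT.cons (FT.cons (FT.leaf [(nat_lit 7696752), (nat_lit 7816648), (nat_lit 7936660)]) (FT.cons (FT.leaf [(nat_lit 7956326), (nat_lit 8075358)]) FT.nil)) (FT.cons (FT.cons (FT.leaf [(nat_lit 8210220)]) FT.nil) (FT.cons (FT.cons (FT.leaf [(nat_lit 8703462)]) FT.nil) (FT.cons (FT.cons (FT.leaf [(nat_lit
 9177300)]) FT.nil) (FT.cons (FT.cons (FT.leaf [(nat_lit 9632683)]) FT.nil) (FT.cons (FT.cons (FT.leaf [(nat_lit 10070608)]) FT.nil) FT.nil))))))))))))) (FT.cons (FT.cons (FT.cons (FT.leaf [(nat_lit 5102402), (nat_lit 5213072), (nat_lit 5328877), (nat_lit 5448691), (nat_lit 5571671), (nat_lit 5697159), (nat_lit 5824629), (nat_lit 5953645), (nat_lit 6083848), (nat_lit 6214932), (nat_lit 6346637), (nat_lit 6478741), (nat_lit 6611052), (nat_lit 6743404), (nat_lit 6875652), (nat_lit 7007673), (nat_lit 7139355), (nat_lit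 7270604), (nat_lit 7401338)]) (FT.cons (FT.leaf [(nat_lit 5366607), (nat_lit 5483597), (nat_lit 5604226), (nat_lit 5727709), (nat_lit 5853433), (nat_lit 5980909), (nat_lit 6109735), (nat_lit 6239576), (nat_lit 6370152), (nat_lit 6501223), (nat_lit 6632581), (nat_lit 6764052), (nat_lit 6895483), (nat_lit 7026740), (nat_lit 7157709), (nat_lit 7288290), (nat_lit 7418396), (nat_lit 7547951)]) (FT.cons (FT.leaf [(nat_lit 5638253), (nat_lit 5759443), (nat_lit 5883212), (nat_lit 6008988), (nat_lit 6136314), (nat_lit 6264815), (nat_lit 6394182), (nat_lit 6524154), (nat_lit 6654507), (nat_lit 6785052), (nat_lit 6915626), (nat_lit 7046089), (nat_lit 7176316), (nat_lit 7306204),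
 (nat_lit 7435660), (nat_lit 7564606)]) (FT.cons (FT.leaf [(nat_lit 5914148), (nat_lit 6038019), (nat_lit 6163689), (nat_lit 6290729), (nat_lit 6418792), (nat_lit 6547587), (nat_lit 6676872), (nat_lit 6806439), (nat_lit 6936113), (nat_lit 7065743), (nat_lit 7195198), (nat_lit 7324367), (nat_lit 7453150), (nat_lit 7581464)]) (FT.cons (FT.leaf [(nat_lit 6191993), (nat_lit 6317422), (nat_lit 6444063), (nat_lit 6571588), (nat_lit 6699729), (nat_lit 6828256), (nat_lit 6956980), (nat_lit 7085735), (nat_lit 7214381), (nat_lit 7342799), (nat_lit 7470882), (nat_lit 7598543)]) (FT.cons (FT.leaf [(nat_lit 6470093), (nat_lit 6596235), (nat_lit 6723140), (nat_lit 6850555), (nat_lit 6978267), (nat_lit 7106098), (nat_lit 7233894), (nat_lit 7361525), (nat_lit 7488879), (nat_lit 7615859)]) (FT.cons (FT.leaf [(nat_lit 6747183), (nat_lit 6873396), (nat_lit 7000026), (nat_lit 7126873), (nat_lit 7253769), (nat_lit 7380574), (nat_lit 7507163), (nat_lit 7633434)]) (FT.cons (FT.leaf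 [(nat_lit 7022315), (nat_lit 7148108), (nat_lit 7274048), (nat_lit 7399978), (nat_lit 7525763), (nat_lit 7651290)]) (FT.cons (FT.leaf [(nat_lit 7294778), (nat_lit 7419778), (nat_lit 7544712), (nat_lit 7669458)]) (FT.cons
 (FT.leaf [(nat_lit 7564048), (nat_lit 7687966)]) (FT.cons (FT.leaf [(nat_lit 7829736)]) (FT.cons (FT.leaf [(nat_lit 8091564)]) FT.nil)))))))))))) (FT.cons (FT.cons (FT.leaf [(nat_lit 5669059), (nat_lit 5785106), (nat_lit 5904510), (nat_lit 6026518), (nat_lit 6150549), (nat_lit 6276141), (nat_lit 6402919), (nat_lit 6530572), (nat_lit 6658840), (nat_lit 6787500), (nat_lit 6916364), (nat_lit 7045271), (nat_lit 7174081), (nat_lit 7302672), (nat_lit 7430941), (nat_lit 7558797), (nat_lit 7686162)]) (FT.cons (FT.leaf [(nat_lit 5937443), (nat_lit 6057199), (nat_lit 6179315), (nat_lit 6303248), (nat_lit 6428564), (nat_lit 6554914), (nat_lit 6682009), (nat_lit 6809605), (nat_lit 6937496), (nat_lit 7065510), (nat_lit 7193493), (nat_lit 7321320), (nat_lit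 7448875), (nat_lit 7576065), (nat_lit 7702805), (nat_lit 7829023)]) (FT.cons (FT.leaf [(nat_lit 6209218), (nat_lit 6331288), (nat_lit 6454990), (nat_lit 6579919), (nat_lit 6705747), (nat_lit 6832203), (nat_lit 6959060), (nat_lit 7086128), (nat_lit 7213243), (nat_lit 7340268), (nat_lit 7467079), (nat_lit 7593577), (nat_lit 7719669), (nat_lit 7845281)]) (FT.cons (FT.leaf [(nat_lit 6482328), (nat_lit 6605687), (nat_lit 6730132), (nat_lit
 6855356), (nat_lit 6981106), (nat_lit 7107168), (nat_lit 7233365), (nat_lit 7359545), (nat_lit 7485577), (nat_lit 7611352), (nat_lit 7736772), (nat_lit 7861753)]) (FT.cons (FT.leaf [(nat_lit 6755263), (nat_lit 6879143), (nat_lit 7003695), (nat_lit 7128680), (nat_lit 7253899), (nat_lit 7379186), (nat_lit 7504398), (nat_lit 7629415), (nat_lit 7754133), (nat_lit 7878461)]) (FT.cons (FT.leaf [(nat_lit 7026902), (nat_lit 7150723), (nat_lit 7274895), (nat_lit 7399231), (nat_lit 7523575), (nat_lit 7647795), (nat_lit 7771776), (nat_lit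 7895421)]) (FT.cons (FT.leaf [(nat_lit 7296410), (nat_lit 7419728), (nat_lit 7543148), (nat_lit 7666523), (nat_lit 7789729), (nat_lit 7912658)]) (FT.cons (FT.leaf [(nat_lit 7563161), (nat_lit 7685638), (nat_lit 7808023), (nat_lit 7930198)]) (FT.cons (FT.leaf [(nat_lit 7826695), (nat_lit 7948073)]) (FT.cons (FT.leaf [(nat_lit 8086675)]) (FT.cons (FT.leaf [(nat_lit 8342860)]) FT.nil))))))))))) (FT.cons (FT.cons (FT.leaf [(nat_lit 6230154), (nat_lit 6348322), (nat_lit 6468662), (nat_lit 6590657), (nat_lit 6713897), (nat_lit 6838052), (nat_lit 6962852), (nat_lit 7088069), (nat_lit 7213513), (nat_lit 7339020), (nat_lit 7464454), (nat_lit 7589695), (nat_lit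
 7714640)]) (FT.cons (FT.leaf [(nat_lit 6497566), (nat_lit 6617744), (nat_lit 6739412), (nat_lit 6862187), (nat_lit 6985758), (nat_lit 7109871), (nat_lit 7234314), (nat_lit 7358910), (nat_lit 7483506), (nat_lit 7607973), (nat_lit 7732201), (nat_lit 7856095)]) (FT.cons (FT.leaf [(nat_lit 6765822), (nat_lit 6887069), (nat_lit 7009298), (nat_lit 7132218), (nat_lit 7255588), (nat_lit 7379211), (nat_lit 7502921), (nat_lit 7626574), (nat_lit 7750051), (nat_lit 7873248)]) (FT.cons (FT.leaf [(nat_lit 7033569), (nat_lit 7155184), (nat_lit 7277395), (nat_lit 7399976), (nat_lit 7522740), (nat_lit 7645531), (nat_lit 7768216), (nat_lit 7890684)]) (FT.cons (FT.leaf [(nat_lit 7299807), (nat_lit 7421260), (nat_lit 7543011), (nat_lit 7664884), (nat_lit 7786732), (nat_lit 7908430)]) (FT.cons (FT.leaf [(nat_lit 7563791), (nat_lit 7684679), (nat_lit 7805634), (nat_lit 7926517)]) (FT.cons (FT.leaf [(nat_lit 7824968), (nat_lit 7944983)]) (FT.cons (FT.leaf [(nat_lit 8082931)])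 (FT.cons (FT.leaf [(nat_lit 8337385)]) (FT.cons (FT.leaf [(nat_lit 8588119)]) FT.nil)))))))))) (FT.cons (FT.cons (FT.leaf [(nat_lit 6779259), (nat_lit 6897490), (nat_lit 7017090), (nat_lit 7137695), (nat_lit 7259010), (nat_lit
 7380796), (nat_lit 7502853), (nat_lit 7625016), (nat_lit 7747142), (nat_lit 7869111), (nat_lit 7990821)]) (FT.cons (FT.leaf [(nat_lit 7042611), (nat_lit 7161732), (nat_lit 7281745), (nat_lit 7402374), (nat_lit 7523394), (nat_lit 7644617), (nat_lit 7765887), (nat_lit 7887071), (nat_lit 8008056), (nat_lit 8128748)]) (FT.cons (FT.leaf [(nat_lit 7305196), (nat_lit 7424560), (nat_lit 7544457), (nat_lit 7664671), (nat_lit 7785028), (nat_lit 7905380), (nat_lit 8025602), (nat_lit 8145590)]) (FT.cons (FT.leaf [(nat_lit 7566112), (nat_lit 7685234), (nat_lit 7804612), (nat_lit 7924076), (nat_lit 8043490), (nat_lit 8162736)]) (FT.cons (FT.leaf [(nat_lit 7824694), (nat_lit 7943205), (nat_lit 8061756), (nat_lit 8180215)]) (FT.cons (FT.leaf [(nat_lit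 8080446), (nat_lit 8198066)]) (FT.cons (FT.leaf [(nat_lit 8333009)]) (FT.cons (FT.leaf [(nat_lit 8582119)]) FT.nil)))))))) (FT.cons (FT.cons (FT.leaf [(nat_lit 7312862), (nat_lit 7429860), (nat_lit 7547674), (nat_lit 7666042), (nat_lit 7784750), (nat_lit 7903621), (nat_lit 8022507)]) (FT.cons (FT.leaf [(nat_lit 7570344), (nat_lit 7687485), (nat_lit 7805105), (nat_lit 7923001), (nat_lit 8041005), (nat_lit 8158979)]) (FT.cons (FT.leaf [(nat_lit
 7826042), (nat_lit 7942879), (nat_lit 8059935), (nat_lit 8177052)]) (FT.cons (FT.leaf [(nat_lit 8079355), (nat_lit 8195549)]) (FT.cons (FT.leaf [(nat_lit 8329840)]) (FT.cons (FT.leaf [(nat_lit 8577174)]) FT.nil)))))) (FT.cons (FT.cons (FT.leaf [(nat_lit 7829223), (nat_lit 7944180), (nat_lit 8059569), (nat_lit 8175198), (nat_lit 8290909)]) (FT.cons (FT.leaf [(nat_lit 8079822), (nat_lit 8194427), (nat_lit 8309220), (nat_lit 8424052)]) (FT.cons (FT.leaf [(nat_lit 8328011), (nat_lit 8441950)]) (FT.cons (FT.leaf [(nat_lit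 8573389)]) FT.nil)))) (FT.cons (FT.cons (FT.leaf [(nat_lit 8327677), (nat_lit 8440106), (nat_lit 8552697)]) (FT.cons (FT.leaf [(nat_lit 8570890), (nat_lit 8682639)]) FT.nil)) (FT.cons (FT.cons (FT.leaf [(nat_lit 8808216)]) FT.nil) (FT.cons (FT.cons (FT.leaf [(nat_lit 9271221)]) FT.nil) (FT.cons (FT.cons (FT.leaf [(nat_lit 9717300)]) FT.nil) (FT.cons (FT.cons (FT.leaf [(nat_lit 10147182)]) FT.nil) (FT.cons (FT.cons (FT.leaf [(nat_lit 10561653)]) FT.nil) FT.nil)))))))))))) (FT.cons (FT.cons (FT.cons (FT.leaf [(nat_lit 6431335), (nat_lit 6539990), (nat_lit 6651722), (nat_lit 6765837), (nat_lit 6881806), (nat_lit 6999210), (nat_lit 7117709), (nat_lit 7237024), (nat_lit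
 7356920), (nat_lit 7477203), (nat_lit 7597701), (nat_lit 7718270), (nat_lit 7838788), (nat_lit 7959145), (nat_lit 8079249)]) (FT.cons (FT.leaf [(nat_lit 6681999), (nat_lit 6794024), (nat_lit 6908220), (nat_lit 7024091), (nat_lit 7141244), (nat_lit 7259362), (nat_lit 7378184), (nat_lit 7497493), (nat_lit 7617103), (nat_lit 7736858), (nat_lit 7856625), (nat_lit 7976286), (nat_lit 8095743), (nat_lit 8214909)]) (FT.cons (FT.leaf [(nat_lit 6935704), (nat_lit 7049852), (nat_lit 7165516), (nat_lit 7282327), (nat_lit 7399986), (nat_lit 7518250), (nat_lit 7636914), (nat_lit 7755807), (nat_lit 7874782), (nat_lit 7993713), (nat_lit 8112494), (nat_lit 8231029)]) (FT.cons (FT.leaf [(nat_lit 7190647), (nat_lit 7306010), (nat_lit 7422399), (nat_lit 7539532), (nat_lit 7657181), (nat_lit 7775154), (nat_lit 7893291), (nat_lit 8011453), (nat_lit 8129523), (nat_lit 8247401)]) (FT.cons (FT.leaf [(nat_lit 7445514), (nat_lit 7561412), (nat_lit 7677962), (nat_lit 7794948), (nat_lit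 7912190), (nat_lit 8029537), (nat_lit 8146860), (nat_lit 8264048)]) (FT.cons (FT.leaf [(nat_lit 7699327), (nat_lit 7815244), (nat_lit 7931527), (nat_lit 8048004), (nat_lit 8164533), (nat_lit 8280994)]) (FT.cons (FT.leaf
 [(nat_lit 7951354), (nat_lit 8066898), (nat_lit 8182582), (nat_lit 8298271)]) (FT.cons (FT.leaf [(nat_lit 8201048), (nat_lit 8315914)]) (FT.cons (FT.leaf [(nat_lit 8447997)]) (FT.cons (FT.leaf [(nat_lit 8691897)]) (FT.cons (FT.leaf [(nat_lit 8932528)]) FT.nil))))))))))) (FT.cons (FT.cons (FT.leaf [(nat_lit 6953439), (nat_lit 7064036), (nat_lit 7176649), (nat_lit 7290803), (nat_lit 7406124), (nat_lit 7522313), (nat_lit 7639123), (nat_lit 7756351), (nat_lit 7873821), (nat_lit 7991390), (nat_lit 8108932), (nat_lit 8226340), (nat_lit 8343521)]) (FT.cons (FT.leaf [(nat_lit 7203257), (nat_lit 7315731), (nat_lit 7429603), (nat_lit 7544520), (nat_lit 7660202), (nat_lit 7776416), (nat_lit 7892972), (nat_lit 8009706), (nat_lit 8126484), (nat_lit 8243187),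 (nat_lit 8359714), (nat_lit 8475980)]) (FT.cons (FT.leaf [(nat_lit 7453924), (nat_lit 7567433), (nat_lit 7681879), (nat_lit 7796998), (nat_lit 7912569), (nat_lit 8028413), (nat_lit 8144379), (nat_lit 8260339), (nat_lit 8376181), (nat_lit 8491813)]) (FT.cons (FT.leaf [(nat_lit 7704247), (nat_lit 7818165), (nat_lit 7932670), (nat_lit 8047559), (nat_lit 8162659), (nat_lit 8277830), (nat_lit 8392949), (nat_lit 8507914)]) (FT.cons (FT.leaf
 [(nat_lit 7953344), (nat_lit 8067196), (nat_lit 8181367), (nat_lit 8295696), (nat_lit 8410048), (nat_lit 8524311)]) (FT.cons (FT.leaf [(nat_lit 8200556), (nat_lit 8313980), (nat_lit 8427514), (nat_lit 8541031)]) (FT.cons (FT.leaf [(nat_lit 8445390), (nat_lit 8558109)]) (FT.cons (FT.leaf [(nat_lit 8687480)]) (FT.cons (FT.leaf [(nat_lit 8926554)]) (FT.cons (FT.leaf [(nat_lit 9162416)]) FT.nil)))))))))) (FT.cons (FT.cons (FT.leaf [(nat_lit 7465006), (nat_lit 7575768), (nat_lit 7687826), (nat_lit 7800843), (nat_lit 7914552), (nat_lit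 8028733), (nat_lit 8143205), (nat_lit 8257817), (nat_lit 8372439), (nat_lit 8486961), (nat_lit 8601291)]) (FT.cons (FT.leaf [(nat_lit 7711372), (nat_lit 7823019), (nat_lit 7935529), (nat_lit 8048646), (nat_lit 8162166), (nat_lit 8275916), (nat_lit 8389753), (nat_lit 8503556), (nat_lit 8617224), (nat_lit 8730667)]) (FT.cons (FT.leaf [(nat_lit 7957182), (nat_lit 8069134), (nat_lit 8181619), (nat_lit 8294442), (nat_lit 8407442), (nat_lit 8520483), (nat_lit 8633452), (nat_lit 8746251)]) (FT.cons (FT.leaf [(nat_lit 8201634), (nat_lit 8313452), (nat_lit 8425551), (nat_lit 8537778), (nat_lit 8650005), (nat_lit 8762124)]) (FT.cons (FT.leaf [(nat_lit 8444132),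
 (nat_lit 8555483), (nat_lit 8666917), (nat_lit 8778315)]) (FT.cons (FT.leaf [(nat_lit 8684231), (nat_lit 8794857)]) (FT.cons (FT.leaf [(nat_lit 8921600)]) (FT.cons (FT.leaf [(nat_lit 9155997)]) FT.nil)))))))) (FT.cons (FT.cons (FT.leaf [(nat_lit 7963137), (nat_lit 8072929), (nat_lit 8183517), (nat_lit 8294659), (nat_lit 8406159), (nat_lit 8517854), (nat_lit 8629608)]) (FT.cons (FT.leaf [(nat_lit 8204489), (nat_lit 8314499), (nat_lit 8424996), (nat_lit 8535793), (nat_lit 8646737), (nat_lit 8757699)]) (FT.cons (FT.leaf [(nat_lit 8444384), (nat_lit 8554206), (nat_lit 8664276), (nat_lit 8774450)]) (FT.cons (FT.leaf [(nat_lit 8682279), (nat_lit 8791604)]) (FT.cons (FT.leaf [(nat_lit 8917771)]) (FT.cons (FT.leaf [(nat_lit 9150559)]) FT.nil)))))) (FT.cons (FT.cons (FT.leaf [(nat_lit 8446342), (nat_lit 8554442), (nat_lit 8662988), (nat_lit 8771803), (nat_lit 8880738)]) (FT.cons (FT.leaf [(nat_lit 8681778), (nat_lit 8789647), (nat_lit 8897737), (nat_lit 9005908)])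 (FT.cons (FT.leaf [(nat_lit 8915188), (nat_lit 9022537)]) (FT.cons (FT.leaf [(nat_lit 9146203)]) FT.nil)))) (FT.cons (FT.cons (FT.leaf [(nat_lit 8914002)]) (FT.cons (FT.leaf [(nat_lit 9143047)]) FT.nil)) (FT.cons (FT.cons
 (FT.leaf [(nat_lit 9366039)]) FT.nil) (FT.cons (FT.cons (FT.leaf [(nat_lit 9802708)]) FT.nil) (FT.cons (FT.cons (FT.leaf [(nat_lit 10224460)]) FT.nil) (FT.cons (FT.cons (FT.leaf [(nat_lit 10631863)]) FT.nil) FT.nil)))))))))) (FT.cons (FT.cons (FT.cons (FT.leaf [(nat_lit 7619896), (nat_lit 7723941), (nat_lit 7829870), (nat_lit 7937244), (nat_lit 8045720), (nat_lit 8155023), (nat_lit 8264927), (nat_lit 8375244), (nat_lit 8485818), (nat_lit 8596515), (nat_lit 8707222), (nat_lit 8817838), (nat_lit 8928283)]) (FT.cons (FT.leaf [(nat_lit 7854519), (nat_lit 7960331), (nat_lit 8067461), (nat_lit 8175586), (nat_lit 8284446), (nat_lit 8393828), (nat_lit 8503558), (nat_lit 8613487), (nat_lit 8723489), (nat_lit 8833460), (nat_lit 8943304), (nat_lit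 9052946)]) (FT.cons (FT.leaf [(nat_lit 8090001), (nat_lit 8196818), (nat_lit 8304534), (nat_lit 8412902), (nat_lit 8521723), (nat_lit 8630831), (nat_lit 8740086), (nat_lit 8849372), (nat_lit 8958587), (nat_lit 9067645)]) (FT.cons (FT.leaf [(nat_lit 8325275), (nat_lit 8432531), (nat_lit 8540365), (nat_lit 8648590), (nat_lit 8757047), (nat_lit 8865606), (nat_lit 8974155), (nat_lit 9082601)]) (FT.cons (FT.leaf [(nat_lit 8559552), (nat_lit 8666817),
 (nat_lit 8774415), (nat_lit 8882197), (nat_lit 8990039), (nat_lit 9097836)]) (FT.cons (FT.leaf [(nat_lit 8792240), (nat_lit 8899186), (nat_lit 9006272), (nat_lit 9113380)]) (FT.cons (FT.leaf [(nat_lit 9022894), (nat_lit 9129267)]) (FT.cons (FT.leaf [(nat_lit 9251180)]) (FT.cons (FT.leaf [(nat_lit 9476848)]) FT.nil))))))))) (FT.cons (FT.cons (FT.leaf [(nat_lit 8099160), (nat_lit 8203456), (nat_lit 8308983), (nat_lit 8415429), (nat_lit 8522547), (nat_lit 8630137), (nat_lit 8738029), (nat_lit 8846086), (nat_lit 8954189),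 (nat_lit 9062236), (nat_lit 9170142)]) (FT.cons (FT.leaf [(nat_lit 8330839), (nat_lit 8436013), (nat_lit 8542019), (nat_lit 8648623), (nat_lit 8755634), (nat_lit 8862895), (nat_lit 8970274), (nat_lit 9077659), (nat_lit 9184955), (nat_lit 9292081)]) (FT.cons (FT.leaf [(nat_lit 8562132), (nat_lit 8667654), (nat_lit 8773708), (nat_lit 8880112), (nat_lit 8986716), (nat_lit 9093397), (nat_lit 9200049), (nat_lit 9306581)]) (FT.cons (FT.leaf [(nat_lit 8792314), (nat_lit 8897787), (nat_lit 9003557), (nat_lit 9109485), (nat_lit 9215452), (nat_lit 9321357)]) (FT.cons (FT.leaf [(nat_lit 9020848), (nat_lit 9125964), (nat_lit 9231197), (nat_lit 9336436)]) (FT.cons (FT.leaf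
 [(nat_lit 9247325), (nat_lit 9351850)]) (FT.cons (FT.leaf [(nat_lit 9471442)]) (FT.cons (FT.leaf [(nat_lit 9692973)]) FT.nil)))))))) (FT.cons (FT.cons (FT.leaf [(nat_lit 8566688), (nat_lit 8670225), (nat_lit 8774536), (nat_lit 8879397), (nat_lit 8984627), (nat_lit 9090074), (nat_lit 9195613)]) (FT.cons (FT.leaf [(nat_lit 8794048), (nat_lit 8897858), (nat_lit 9002157), (nat_lit 9106773), (nat_lit 9211562), (nat_lit 9316406)]) (FT.cons (FT.leaf [(nat_lit 9020211), (nat_lit 9123921), (nat_lit 9227901), (nat_lit 9332015)]) (FT.cons (FT.leaf [(nat_lit 9244681), (nat_lit 9348007)]) (FT.cons (FT.leaf [(nat_lit 9467087)]) (FT.cons (FT.leaf [(nat_lit 9687151)]) FT.nil)))))) (FT.cons (FT.cons (FT.leaf [(nat_lit 9021170), (nat_lit 9123293), (nat_lit 9225869), (nat_lit 9328732), (nat_lit 9431745)]) (FT.cons (FT.leaf [(nat_lit 9243394), (nat_lit 9345378), (nat_lit 9447606), (nat_lit 9549949)]) (FT.cons (FT.leaf [(nat_lit 9463899), (nat_lit 9565476)]) (FT.cons (FT.leaf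 [(nat_lit 9682342)]) FT.nil)))) (FT.cons (FT.cons (FT.leaf [(nat_lit 9462019)]) (FT.cons (FT.leaf [(nat_lit 9678657)]) FT.nil)) (FT.cons (FT.cons (FT.leaf [(nat_lit 9889108)]) FT.nil) (FT.cons (FT.cons (FT.leaf [(nat_lit
 10302599)]) FT.nil) (FT.cons (FT.cons (FT.leaf [(nat_lit 10702827)]) FT.nil) FT.nil)))))))) (FT.cons (FT.cons (FT.cons (FT.leaf [(nat_lit 8689324), (nat_lit 8787962), (nat_lit 8887772), (nat_lit 8988464), (nat_lit 9089810), (nat_lit 9191622), (nat_lit 9293745), (nat_lit 9396050), (nat_lit 9498427)]) (FT.cons (FT.leaf [(nat_lit 8908165), (nat_lit 9007669), (nat_lit 9107977), (nat_lit 9208871), (nat_lit 9310175), (nat_lit 9411740), (nat_lit 9513445), (nat_lit 9615188)]) (FT.cons (FT.leaf [(nat_lit 9126755), (nat_lit 9226640), (nat_lit 9327051), (nat_lit 9427818), (nat_lit 9528804), (nat_lit 9629892)]) (FT.cons (FT.leaf [(nat_lit 9344434), (nat_lit 9444334), (nat_lit 9544543), (nat_lit 9644931)]) (FT.cons (FT.leaf [(nat_lit 9560710), (nat_lit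 9660342)]) (FT.cons (FT.leaf [(nat_lit 9775209)]) (FT.cons (FT.leaf [(nat_lit 9987649)]) FT.nil))))))) (FT.cons (FT.cons (FT.leaf [(nat_lit 9130155), (nat_lit 9228201), (nat_lit 9327001), (nat_lit 9426344), (nat_lit 9526060), (nat_lit 9626011), (nat_lit 9726078)]) (FT.cons (FT.leaf [(nat_lit 9345244), (nat_lit 9443605), (nat_lit 9542454), (nat_lit 9641629), (nat_lit 9740998), (nat_lit 9840449)]) (FT.cons (FT.leaf [(nat_lit 9559345), (nat_lit
 9657676), (nat_lit 9756290), (nat_lit 9855062)]) (FT.cons (FT.leaf [(nat_lit 9772003), (nat_lit 9870039)]) (FT.cons (FT.leaf [(nat_lit 9982873)]) (FT.cons (FT.leaf [(nat_lit 10191696)]) FT.nil)))))) (FT.cons (FT.cons (FT.leaf [(nat_lit 9559480), (nat_lit 9656338), (nat_lit 9753651)]) (FT.cons (FT.leaf [(nat_lit 9770072), (nat_lit 9866863)]) (FT.cons (FT.leaf [(nat_lit 9979193)]) (FT.cons (FT.leaf [(nat_lit 10186524)]) FT.nil)))) (FT.cons (FT.cons (FT.leaf [(nat_lit 9976744)]) (FT.cons (FT.leaf [(nat_lit 10182410)]) FT.nil))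 (FT.cons (FT.cons (FT.leaf [(nat_lit 10381783)]) FT.nil) (FT.cons (FT.cons (FT.leaf [(nat_lit 10774690)]) FT.nil) FT.nil)))))) (FT.cons (FT.cons (FT.cons (FT.leaf [(nat_lit 9658825), (nat_lit 9752009), (nat_lit 9845924), (nat_lit 9940373), (nat_lit 10035198)]) (FT.cons (FT.leaf [(nat_lit 9863053), (nat_lit 9956581), (nat_lit 10050593), (nat_lit 10144936)]) (FT.cons (FT.leaf [(nat_lit 10066463), (nat_lit 10160015)]) FT.nil))) (FT.cons (FT.cons (FT.leaf [(nat_lit 10065911), (nat_lit 10158089), (nat_lit 10250721)]) (FT.cons (FT.leaf [(nat_lit 10266169), (nat_lit 10358337)]) FT.nil)) (FT.cons (FT.cons (FT.leaf [(nat_lit 10462240)]) FT.nil) (FT.cons (FT.cons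
 (FT.leaf [(nat_lit 10847627)]) FT.nil) FT.nil)))) (FT.cons (FT.cons (FT.cons (FT.leaf [(nat_lit 10544246)]) FT.nil) (FT.cons (FT.cons (FT.leaf [(nat_lit 10921849)]) FT.nil) FT.nil)) (FT.cons (FT.cons (FT.cons (FT.leaf [(nat_lit 11358356)]) FT.nil) FT.nil) (FT.cons (FT.cons (FT.cons (FT.leaf [(nat_lit 12111422)]) FT.nil) FT.nil) (FT.cons (FT.cons (FT.cons (FT.leaf [(nat_lit 12811748)]) FT.nil) FT.nil) FT.nil))))))))))

def f176_0_600 : FT := (FT.cons (FT.cons (FT.cons (FT.leaf [(nat_lit 4211831), (nat_lit 4313757), (nat_lit 4423876), (nat_lit 4540404), (nat_lit 4662049), (nat_lit 4787822), (nat_lit 4916936), (nat_lit 5048750), (nat_lit 5182728), (nat_lit 5318421), (nat_lit 5455444), (nat_lit 5593469), (nat_lit 5732210), (nat_lit 5871422), (nat_lit 6010889), (nat_lit 6150426), (nat_lit 6289869), (nat_lit 6429075), (nat_lit 6567923)]) (FT.cons (FT.leaf [(nat_lit 4468581), (nat_lit 4581480), (nat_lit 4700179), (nat_lit 4823480), (nat_lit 4950469), (nat_lit 5080420),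 (nat_lit 5212743), (nat_lit 5346948), (nat_lit 5482622), (nat_lit 5619414), (nat_lit 5757022), (nat_lit 5895185), (nat_lit 6033680), (nat_lit 6172311), (nat_lit 6310907), (nat_lit 6449321), (nat_lit 6587422), (nat_lit 6725100)]) (FT.cons (FT.leaf [(nat_lit 4740299), (nat_lit 4860702), (nat_lit 4985262), (nat_lit 5113128), (nat_lit 5243627), (nat_lit 5376213), (nat_lit 5510434), (nat_lit 5645908), (nat_lit 5782312), (nat_lit 5919371), (nat_lit 6056844), (nat_lit 6194528), (nat_lit 6332243), (nat_lit 6469833), (nat_lit 6607164), (nat_lit 6744118)]) (FT.cons (FT.leaf [(nat_lit 5021583), (nat_lit 5147068), (nat_lit 5275526), (nat_lit 5406327), (nat_lit 5538965),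
 (nat_lit 5673020), (nat_lit 5808139), (nat_lit 5944025), (nat_lit 6080423), (nat_lit 6217113), (nat_lit 6353906), (nat_lit 6490639), (nat_lit 6627169), (nat_lit 6763372)]) (FT.cons (FT.leaf [(nat_lit 5308629), (nat_lit 5437433), (nat_lit 5568326), (nat_lit 5700836), (nat_lit 5834570), (nat_lit 5969203), (nat_lit 6104458), (nat_lit 6240100), (nat_lit 6375927), (nat_lit 6511763), (nat_lit 6647458), (nat_lit 6782884)]) (FT.cons (FT.leaf [(nat_lit 5598656), (nat_lit 5729463), (nat_lit 5861690), (nat_lit 5994972), (nat_lit 6129007), (nat_lit 6263536), (nat_lit 6398342), (nat_lit 6533238), (nat_lit 6668062), (nat_lit 6802677)]) (FT.cons (FT.leaf [(nat_lit 5889602), (nat_lit 6021415), (nat_lit 6154133), (nat_lit 6287473), (nat_lit 6421196), (nat_lit 6555098), (nat_lit 6689008), (nat_lit 6822775)]) (FT.cons (FT.leaf [(nat_lit 6179918), (nat_lit 6311975), (nat_lit 6444540), (nat_lit 6577389), (nat_lit 6710332), (nat_lit 6843209)]) (FT.cons (FT.leaf [(nat_lit 6468438),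 (nat_lit 6600159), (nat_lit 6732076), (nat_lit 6864014)]) (FT.cons (FT.leaf [(nat_lit 6754291), (nat_lit 6885230)]) (FT.cons (FT.leaf [(nat_lit 7036827)]) (FT.cons (FT.leaf [(nat_lit 7315570)]) FT.nil)))))))))))) (FT.cons
 (FT.cons (FT.leaf [(nat_lit 4786853), (nat_lit 4900072), (nat_lit 5018639), (nat_lit 5141393), (nat_lit 5267461), (nat_lit 5396161), (nat_lit 5526941), (nat_lit 5659348), (nat_lit 5793001), (nat_lit 5927580), (nat_lit 6062811), (nat_lit 6198458), (nat_lit 6334320), (nat_lit 6470218), (nat_lit 6606003), (nat_lit 6741541), (nat_lit 6876716)]) (FT.cons (FT.leaf [(nat_lit 5057609), (nat_lit 5177472), (nat_lit 5301131), (nat_lit 5427770), (nat_lit 5556754), (nat_lit 5687573), (nat_lit 5819805), (nat_lit 5953099), (nat_lit 6087161), (nat_lit 6221737), (nat_lit 6356611), (nat_lit 6491595), (nat_lit 6626529), (nat_lit 6761275), (nat_lit 6895708), (nat_lit 7029725)]) (FT.cons (FT.leaf [(nat_lit 5336306), (nat_lit 5460591), (nat_lit 5587565), (nat_lit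 5716632), (nat_lit 5847316), (nat_lit 5979226), (nat_lit 6112038), (nat_lit 6245476), (nat_lit 6379307), (nat_lit 6513330), (nat_lit 6647376), (nat_lit 6781295), (nat_lit 6914958), (nat_lit 7048254)]) (FT.cons (FT.leaf [(nat_lit 5619558), (nat_lit 5746664), (nat_lit 5875642), (nat_lit 6006044), (nat_lit 6137507), (nat_lit 6269728), (nat_lit 6402452), (nat_lit 6535462), (nat_lit 6668574), (nat_lit 6801628), (nat_lit 6934489), (nat_lit
 7067036)]) (FT.cons (FT.leaf [(nat_lit 5904918), (nat_lit 6033658), (nat_lit 6163652), (nat_lit 6294560), (nat_lit 6426100), (nat_lit 6558033), (nat_lit 6690159), (nat_lit 6822306), (nat_lit 6954326), (nat_lit 7086093)]) (FT.cons (FT.leaf [(nat_lit 6190574), (nat_lit 6320052), (nat_lit 6450314), (nat_lit 6581095), (nat_lit 6712174), (nat_lit 6843361), (nat_lit 6974499), (nat_lit 7105451)]) (FT.cons (FT.leaf [(nat_lit 6475174), (nat_lit 6604712), (nat_lit 6734669), (nat_lit 6864838), (nat_lit 6995043), (nat_lit 7125137)]) (FT.cons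 (FT.leaf [(nat_lit 6757707), (nat_lit 6886785), (nat_lit 7015999), (nat_lit 7145186)]) (FT.cons (FT.leaf [(nat_lit 7037415), (nat_lit 7165638)]) (FT.cons (FT.leaf [(nat_lit 7313741)]) (FT.cons (FT.leaf [(nat_lit 7586274)]) FT.nil))))))))))) (FT.cons (FT.cons (FT.leaf [(nat_lit 5369035), (nat_lit 5487982), (nat_lit 5610417), (nat_lit 5735559), (nat_lit 5862808), (nat_lit 5991681), (nat_lit 6121788), (nat_lit 6252802), (nat_lit 6384451), (nat_lit 6516501), (nat_lit 6648757), (nat_lit 6781046), (nat_lit 6913224)]) (FT.cons (FT.leaf [(nat_lit 5644451), (nat_lit 5767279), (nat_lit 5892556), (nat_lit 6019717), (nat_lit 6148315), (nat_lit 6277983), (nat_lit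
 6408418), (nat_lit 6539366), (nat_lit 6670614), (nat_lit 6801976), (nat_lit 6933296), (nat_lit 7064439)]) (FT.cons (FT.leaf [(nat_lit 5923466), (nat_lit 6048709), (nat_lit 6175641), (nat_lit 6303841), (nat_lit 6432966), (nat_lit 6562736), (nat_lit 6692912), (nat_lit 6823294), (nat_lit 6953714), (nat_lit 7084024)]) (FT.cons (FT.leaf [(nat_lit 6203900), (nat_lit 6330479), (nat_lit 6458177), (nat_lit 6586672), (nat_lit 6715702), (nat_lit 6845043), (nat_lit 6974510), (nat_lit 7103945)]) (FT.cons (FT.leaf [(nat_lit 6484150), (nat_lit 6611256), (nat_lit 6739047), (nat_lit 6867273), (nat_lit 6995728), (nat_lit 7124238)]) (FT.cons (FT.leaf [(nat_lit 6763024), (nat_lit 6890046), (nat_lit 7017416), (nat_lit 7144942)]) (FT.cons (FT.leaf [(nat_lit 7039636), (nat_lit 7166107)]) (FT.cons (FT.leaf [(nat_lit 7313325)]) (FT.cons (FT.leaf [(nat_lit 7583604)]) (FT.cons (FT.leaf [(nat_lit 7850120)]) FT.nil)))))))))) (FT.cons (FT.cons (FT.leaf [(nat_lit 5945835), (nat_lit 6067024),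 (nat_lit 6190460), (nat_lit 6315604), (nat_lit 6442033), (nat_lit 6569404), (nat_lit 6697432), (nat_lit 6825882), (nat_lit 6954556), (nat_lit 7083282), (nat_lit 7211918)]) (FT.cons (FT.leaf [(nat_lit 6220319), (nat_lit
 6343591), (nat_lit 6468399), (nat_lit 6594343), (nat_lit 6721101), (nat_lit 6848410), (nat_lit 6976048), (nat_lit 7103828), (nat_lit 7231595), (nat_lit 7359212)]) (FT.cons (FT.leaf [(nat_lit 6495679), (nat_lit 6620047), (nat_lit 6745419), (nat_lit 6871494), (nat_lit 6998021), (nat_lit 7124796), (nat_lit 7251644), (nat_lit 7378418)]) (FT.cons (FT.leaf [(nat_lit 6770484), (nat_lit 6895211), (nat_lit 7020540), (nat_lit 7146236), (nat_lit 7272106), (nat_lit 7397987)]) (FT.cons (FT.leaf [(nat_lit 7043677), (nat_lit 7168208), (nat_lit 7293029), (nat_lit 7417960)]) (FT.cons (FT.leaf [(nat_lit 7314473), (nat_lit 7438383)]) (FT.cons (FT.leaf [(nat_lit 7582288)]) (FT.cons (FT.leaf [(nat_lit 7846697)]) FT.nil)))))))) (FT.cons (FT.cons (FT.leaf [(nat_lit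 6510173), (nat_lit 6631408), (nat_lit 6754048), (nat_lit 6877714), (nat_lit 7002103), (nat_lit 7126964), (nat_lit 7252091), (nat_lit 7377311), (nat_lit 7502478)]) (FT.cons (FT.leaf [(nat_lit 6780392), (nat_lit 6902527), (nat_lit 7025571), (nat_lit 7149237), (nat_lit 7273291), (nat_lit 7397539), (nat_lit 7521819), (nat_lit 7645992)]) (FT.cons (FT.leaf [(nat_lit 7049771), (nat_lit 7172130), (nat_lit 7295023), (nat_lit 7418229), (nat_lit
 7541564), (nat_lit 7664876)]) (FT.cons (FT.leaf [(nat_lit 7317362), (nat_lit 7439440), (nat_lit 7561761), (nat_lit 7684155)]) (FT.cons (FT.leaf [(nat_lit 7582468), (nat_lit 7703877)]) (FT.cons (FT.leaf [(nat_lit 7844570)]) FT.nil)))))) (FT.cons (FT.cons (FT.leaf [(nat_lit 7058208), (nat_lit 7178112), (nat_lit 7298843), (nat_lit 7420130), (nat_lit 7541752)]) (FT.cons (FT.leaf [(nat_lit 7322219), (nat_lit 7442240), (nat_lit 7562738), (nat_lit 7683502)]) (FT.cons (FT.leaf [(nat_lit 7584318), (nat_lit 7703991)]) (FT.cons (FT.leaf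 [(nat_lit 7843877)]) FT.nil)))) (FT.cons (FT.cons (FT.leaf [(nat_lit 7588055), (nat_lit 7705777), (nat_lit 7823928)]) (FT.cons (FT.leaf [(nat_lit 7844787), (nat_lit 7962111)]) FT.nil)) (FT.cons (FT.cons (FT.leaf [(nat_lit 8099013)]) FT.nil) (FT.cons (FT.cons (FT.leaf [(nat_lit 8591097)]) FT.nil) (FT.cons (FT.cons (FT.leaf [(nat_lit 9064739)]) FT.nil) (FT.cons (FT.cons (FT.leaf [(nat_lit 9520616)]) FT.nil) FT.nil))))))))))) (FT.cons (FT.cons (FT.cons (FT.leaf [(nat_lit 5616250), (nat_lit 5722439), (nat_lit 5833470), (nat_lit 5948271), (nat_lit 6066044), (nat_lit 6186170), (nat_lit 6308154), (nat_lit 6431591), (nat_lit 6556146), (nat_lit 6681536), (nat_lit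
 6807520), (nat_lit 6933892), (nat_lit 7060477), (nat_lit 7187120), (nat_lit 7313688)]) (FT.cons (FT.leaf [(nat_lit 5869236), (nat_lit 5981332), (nat_lit 6096857), (nat_lit 6215070), (nat_lit 6335392), (nat_lit 6457366), (nat_lit 6580616), (nat_lit 6704830), (nat_lit 6829747), (nat_lit 6955144), (nat_lit 7080831), (nat_lit 7206646), (nat_lit 7332446), (nat_lit 7458108)]) (FT.cons (FT.leaf [(nat_lit 6129083), (nat_lit 6245108), (nat_lit 6363568), (nat_lit 6483925), (nat_lit 6605751), (nat_lit 6728696), (nat_lit 6852470), (nat_lit 6976830), (nat_lit 7101569), (nat_lit 7226512), (nat_lit 7351506), (nat_lit 7476423)]) (FT.cons (FT.leaf [(nat_lit 6392856), (nat_lit 6511400), (nat_lit 6631654), (nat_lit 6753213), (nat_lit 6875753), (nat_lit 6999001), (nat_lit 7122731), (nat_lit 7246752), (nat_lit 7370899), (nat_lit 7495033)]) (FT.cons (FT.leaf [(nat_lit 6658450), (nat_lit 6778479), (nat_lit 6899671), (nat_lit 7021718), (nat_lit 7144368), (nat_lit 7267407), (nat_lit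 7390659), (nat_lit 7513968)]) (FT.cons (FT.leaf [(nat_lit 6924321), (nat_lit 7045058), (nat_lit 7166539), (nat_lit 7288527), (nat_lit 7410824), (nat_lit 7533261)]) (FT.cons (FT.leaf [(nat_lit 7189318), (nat_lit 7310170),
 (nat_lit 7431444), (nat_lit 7552953)]) (FT.cons (FT.leaf [(nat_lit 7452575), (nat_lit 7573089)]) (FT.cons (FT.leaf [(nat_lit 7713443)]) (FT.cons (FT.leaf [(nat_lit 7971436)]) (FT.cons (FT.leaf [(nat_lit 8226193)]) FT.nil))))))))))) (FT.cons (FT.cons (FT.leaf [(nat_lit 6157143), (nat_lit 6268316), (nat_lit 6382668), (nat_lit 6499487), (nat_lit 6618224), (nat_lit 6738446), (nat_lit 6859800), (nat_lit 6981995), (nat_lit 7104788), (nat_lit 7227973), (nat_lit 7351374), (nat_lit 7474841), (nat_lit 7598243)]) (FT.cons (FT.leaf [(nat_lit 6413880), (nat_lit 6528553), (nat_lit 6645468), (nat_lit 6764112), (nat_lit 6884080), (nat_lit 7005041), (nat_lit 7126725), (nat_lit 7248905), (nat_lit 7371389), (nat_lit 7494013), (nat_lit 7616638), (nat_lit 7739142)])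 (FT.cons (FT.leaf [(nat_lit 6673804), (nat_lit 6790678), (nat_lit 6909112), (nat_lit 7028726), (nat_lit 7149210), (nat_lit 7270313), (nat_lit 7391819), (nat_lit 7513552), (nat_lit 7635358), (nat_lit 7757108)]) (FT.cons (FT.leaf [(nat_lit 6935022), (nat_lit 7053145), (nat_lit 7172320), (nat_lit 7292256), (nat_lit 7412715), (nat_lit 7533498), (nat_lit 7654439), (nat_lit 7775393)]) (FT.cons (FT.leaf [(nat_lit 7196147), (nat_lit 7314810),
 (nat_lit 7434135), (nat_lit 7553900), (nat_lit 7673917), (nat_lit 7794029)]) (FT.cons (FT.leaf [(nat_lit 7456152), (nat_lit 7574814), (nat_lit 7693840), (nat_lit 7813054)]) (FT.cons (FT.leaf [(nat_lit 7714266), (nat_lit 7832516)]) (FT.cons (FT.leaf [(nat_lit 7969912)]) (FT.cons (FT.leaf [(nat_lit 8222661)]) (FT.cons (FT.leaf [(nat_lit 8472196)]) FT.nil)))))))))) (FT.cons (FT.cons (FT.leaf [(nat_lit 6692701), (nat_lit 6805897), (nat_lit 6921169), (nat_lit 7038026), (nat_lit 7156083), (nat_lit 7275029), (nat_lit 7394608), (nat_lit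 7514608), (nat_lit 7634851), (nat_lit 7755184), (nat_lit 7875476)]) (FT.cons (FT.leaf [(nat_lit 6948587), (nat_lit 7063717), (nat_lit 7180281), (nat_lit 7297917), (nat_lit 7416333), (nat_lit 7535289), (nat_lit 7654586), (nat_lit 7774057), (nat_lit 7893558), (nat_lit 8012970)]) (FT.cons (FT.leaf [(nat_lit 7205340), (nat_lit 7321527), (nat_lit 7438670), (nat_lit 7556495), (nat_lit 7674777), (nat_lit 7793329), (nat_lit 7911993), (nat_lit 8030637)]) (FT.cons (FT.leaf [(nat_lit 7461711), (nat_lit 7578299), (nat_lit 7695482), (nat_lit 7813047), (nat_lit 7930819), (nat_lit 8048648)]) (FT.cons (FT.leaf [(nat_lit 7716772), (nat_lit 7833268), (nat_lit 7950080),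
 (nat_lit 8067041)]) (FT.cons (FT.leaf [(nat_lit 7969833), (nat_lit 8085861)]) (FT.cons (FT.leaf [(nat_lit 8220381)]) (FT.cons (FT.leaf [(nat_lit 8468031)]) FT.nil)))))))) (FT.cons (FT.cons (FT.leaf [(nat_lit 7217281), (nat_lit 7330623), (nat_lit 7445291), (nat_lit 7560939), (nat_lit 7677289), (nat_lit 7794115), (nat_lit 7911228), (nat_lit 8028472), (nat_lit 8145714)]) (FT.cons (FT.leaf [(nat_lit 7469536), (nat_lit 7583774), (nat_lit 7698889), (nat_lit 7814618), (nat_lit 7930749), (nat_lit 8047105), (nat_lit 8163537), (nat_lit 8279919)]) (FT.cons (FT.leaf [(nat_lit 7721179), (nat_lit 7835708), (nat_lit 7950773), (nat_lit 8066173), (nat_lit 8181741), (nat_lit 8297337)]) (FT.cons (FT.leaf [(nat_lit 7971370), (nat_lit 8085734), (nat_lit 8200373), (nat_lit 8315130)]) (FT.cons (FT.leaf [(nat_lit 8219488), (nat_lit 8333340)]) (FT.cons (FT.leaf [(nat_lit 8465068)]) FT.nil)))))) (FT.cons (FT.cons (FT.leaf [(nat_lit 7727761), (nat_lit 7840056), (nat_lit 7953158),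 (nat_lit 8066817), (nat_lit 8180831)]) (FT.cons (FT.leaf [(nat_lit 7974731), (nat_lit 8087226), (nat_lit 8200207), (nat_lit 8313483)]) (FT.cons (FT.leaf [(nat_lit 8220145), (nat_lit 8332417)]) (FT.cons (FT.leaf [(nat_lit 8463436)])
 FT.nil)))) (FT.cons (FT.cons (FT.leaf [(nat_lit 8222555), (nat_lit 8333048), (nat_lit 8443985)]) (FT.cons (FT.leaf [(nat_lit 8463295), (nat_lit 8573520)]) FT.nil)) (FT.cons (FT.cons (FT.leaf [(nat_lit 8701019)]) FT.nil) (FT.cons (FT.cons (FT.leaf [(nat_lit 9163089)]) FT.nil) (FT.cons (FT.cons (FT.leaf [(nat_lit 9609058)]) FT.nil) (FT.cons (FT.cons (FT.leaf [(nat_lit 10039426)]) FT.nil) FT.nil)))))))))) (FT.cons (FT.cons (FT.cons (FT.leaf [(nat_lit 6878820), (nat_lit 6983243), (nat_lit 7090598), (nat_lit 7200225), (nat_lit 7311622), (nat_lit 7424392), (nat_lit 7538216), (nat_lit 7652829), (nat_lit 7768012), (nat_lit 7883579), (nat_lit 7999372), (nat_lit 8115255), (nat_lit 8231111)]) (FT.cons (FT.leaf [(nat_lit 7119410), (nat_lit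 7227039), (nat_lit 7336744), (nat_lit 7448053), (nat_lit 7560595), (nat_lit 7674070), (nat_lit 7788232), (nat_lit 7902875), (nat_lit 8017826), (nat_lit 8132938), (nat_lit 8248084), (nat_lit 8363156)]) (FT.cons (FT.leaf [(nat_lit 7362896), (nat_lit 7472562), (nat_lit 7583684), (nat_lit 7695914), (nat_lit 7808971), (nat_lit 7922622), (nat_lit 8036675), (nat_lit 8150970), (nat_lit 8265366), (nat_lit 8379746)]) (FT.cons (FT.leaf [(nat_lit 7607603), (nat_lit
 7718454), (nat_lit 7830300), (nat_lit 7942877), (nat_lit 8055967), (nat_lit 8169388), (nat_lit 8282989), (nat_lit 8396640)]) (FT.cons (FT.leaf [(nat_lit 7852309), (nat_lit 7963709), (nat_lit 8075754), (nat_lit 8188238), (nat_lit 8300991), (nat_lit 8413869)]) (FT.cons (FT.leaf [(nat_lit 8096106), (nat_lit 8207573), (nat_lit 8319414), (nat_lit 8431467)]) (FT.cons (FT.leaf [(nat_lit 8338314), (nat_lit 8449479)]) (FT.cons (FT.leaf [(nat_lit 8578419)]) (FT.cons (FT.leaf [(nat_lit 8816037)]) FT.nil))))))))) (FT.cons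 (FT.cons (FT.leaf [(nat_lit 7378975), (nat_lit 7485278), (nat_lit 7593515), (nat_lit 7703236), (nat_lit 7814087), (nat_lit 7925782), (nat_lit 8038089), (nat_lit 8150814), (nat_lit 8263795), (nat_lit 8376894), (nat_lit 8489992)]) (FT.cons (FT.leaf [(nat_lit 7618859), (nat_lit 7726977), (nat_lit 7836445), (nat_lit 7946929), (nat_lit 8058162), (nat_lit 8169926), (nat_lit 8282038), (nat_lit 8394345), (nat_lit 8506717), (nat_lit 8619046)]) (FT.cons (FT.leaf [(nat_lit 7859617), (nat_lit 7968758), (nat_lit 8078816), (nat_lit 8189536), (nat_lit 8300712), (nat_lit 8412174), (nat_lit 8523777), (nat_lit 8635400)]) (FT.cons (FT.leaf [(nat_lit 8100135), (nat_lit 8209712), (nat_lit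
 8319874), (nat_lit 8430427), (nat_lit 8541208), (nat_lit 8652083)]) (FT.cons (FT.leaf [(nat_lit 8339590), (nat_lit 8449156), (nat_lit 8559053), (nat_lit 8669128)]) (FT.cons (FT.leaf [(nat_lit 8577364), (nat_lit 8686578)]) (FT.cons (FT.leaf [(nat_lit 8812995)]) (FT.cons (FT.leaf [(nat_lit 9046135)]) FT.nil)))))))) (FT.cons (FT.cons (FT.leaf [(nat_lit 7869484), (nat_lit 7976023), (nat_lit 8083818), (nat_lit 8192552), (nat_lit 8301967), (nat_lit 8411858), (nat_lit 8522051)]) (FT.cons (FT.leaf [(nat_lit 8106275), (nat_lit 8213702), (nat_lit 8321975), (nat_lit 8430852), (nat_lit 8540139), (nat_lit 8649671)]) (FT.cons (FT.leaf [(nat_lit 8342636), (nat_lit 8450402), (nat_lit 8558704), (nat_lit 8667354)]) (FT.cons (FT.leaf [(nat_lit 8577813), (nat_lit 8685506)]) (FT.cons (FT.leaf [(nat_lit 8811245)]) (FT.cons (FT.leaf [(nat_lit 9042510)]) FT.nil)))))) (FT.cons (FT.cons (FT.leaf [(nat_lit 8347710), (nat_lit 8453428), (nat_lit 8559931), (nat_lit 8666988), (nat_lit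 8774413)]) (FT.cons (FT.leaf [(nat_lit 8579963), (nat_lit 8685941), (nat_lit 8792410), (nat_lit 8899192)]) (FT.cons (FT.leaf [(nat_lit 8810940), (nat_lit 8916792)]) (FT.cons (FT.leaf [(nat_lit 9040126)]) FT.nil)))) (FT.cons
 (FT.cons (FT.leaf [(nat_lit 8812272)]) (FT.cons (FT.leaf [(nat_lit 9039135)]) FT.nil)) (FT.cons (FT.cons (FT.leaf [(nat_lit 9262563)]) FT.nil) (FT.cons (FT.cons (FT.leaf [(nat_lit 9698465)]) FT.nil) (FT.cons (FT.cons (FT.leaf [(nat_lit 10120167)]) FT.nil) FT.nil)))))))) (FT.cons (FT.cons (FT.cons (FT.leaf [(nat_lit 8014130), (nat_lit 8114427), (nat_lit 8216539), (nat_lit 8320047), (nat_lit 8424623), (nat_lit 8530006), (nat_lit 8635982), (nat_lit 8742370), (nat_lit 8849025)]) (FT.cons (FT.leaf [(nat_lit 8240100), (nat_lit 8342112), (nat_lit 8445401), (nat_lit 8549658), (nat_lit 8654636), (nat_lit 8760134), (nat_lit 8865982), (nat_lit 8972041)]) (FT.cons (FT.leaf [(nat_lit 8466950), (nat_lit 8569957), (nat_lit 8673841), (nat_lit 8778369),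 (nat_lit 8883351), (nat_lit 8988627)]) (FT.cons (FT.leaf [(nat_lit 8693678), (nat_lit 8797143), (nat_lit 8901183), (nat_lit 9005617)]) (FT.cons (FT.leaf [(nat_lit 8919542), (nat_lit 9023059)]) (FT.cons (FT.leaf [(nat_lit 9143982)]) (FT.cons (FT.leaf [(nat_lit 9366578)]) FT.nil))))))) (FT.cons (FT.cons (FT.leaf [(nat_lit 8475109), (nat_lit 8575716), (nat_lit 8677519), (nat_lit 8780221), (nat_lit 8883586), (nat_lit 8987422), (nat_lit 9091569)])
 (FT.cons (FT.leaf [(nat_lit 8698434), (nat_lit 8799918), (nat_lit 8902220), (nat_lit 9005114), (nat_lit 9108419), (nat_lit 9211984)]) (FT.cons (FT.leaf [(nat_lit 8921474), (nat_lit 9023334), (nat_lit 9125723), (nat_lit 9228470)]) (FT.cons (FT.leaf [(nat_lit 9143545), (nat_lit 9245401)]) (FT.cons (FT.leaf [(nat_lit 9364135)]) (FT.cons (FT.leaf [(nat_lit 9582858)]) FT.nil)))))) (FT.cons (FT.cons (FT.leaf [(nat_lit 8925307), (nat_lit 9025274), (nat_lit 9126004), (nat_lit 9227283), (nat_lit 9328936)]) (FT.cons (FT.leaf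 [(nat_lit 9144702), (nat_lit 9244974), (nat_lit 9345737), (nat_lit 9446826)]) (FT.cons (FT.leaf [(nat_lit 9363045), (nat_lit 9463268)]) (FT.cons (FT.leaf [(nat_lit 9579867)]) FT.nil)))) (FT.cons (FT.cons (FT.leaf [(nat_lit 9363491)]) (FT.cons (FT.leaf [(nat_lit 9578181)]) FT.nil)) (FT.cons (FT.cons (FT.leaf [(nat_lit 9789088)]) FT.nil) (FT.cons (FT.cons (FT.leaf [(nat_lit 10201941)]) FT.nil) FT.nil)))))) (FT.cons (FT.cons (FT.cons (FT.leaf [(nat_lit 9040699), (nat_lit 9136083), (nat_lit 9232608), (nat_lit 9329996), (nat_lit 9428028)]) (FT.cons (FT.leaf [(nat_lit 9252181), (nat_lit 9348428), (nat_lit 9445464), (nat_lit 9543080)]) (FT.cons (FT.leaf [(nat_lit 9463492),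
 (nat_lit 9560140)]) (FT.cons (FT.leaf [(nat_lit 9674008)]) (FT.cons (FT.leaf [(nat_lit 9883257)]) FT.nil))))) (FT.cons (FT.cons (FT.leaf [(nat_lit 9466289), (nat_lit 9561179), (nat_lit 9656810)]) (FT.cons (FT.leaf [(nat_lit 9674340), (nat_lit 9769568)]) (FT.cons (FT.leaf [(nat_lit 9881521)]) (FT.cons (FT.leaf [(nat_lit 10087398)]) FT.nil)))) (FT.cons (FT.cons (FT.leaf [(nat_lit 9881231)]) (FT.cons (FT.leaf [(nat_lit 10085139)]) FT.nil)) (FT.cons (FT.cons (FT.leaf [(nat_lit 10284977)]) FT.nil) FT.nil)))) (FT.cons (FT.cons (FT.cons (FT.leaf [(nat_lit 9975280)]) FT.nil) (FT.cons (FT.cons (FT.leaf [(nat_lit 10369563)]) FT.nil) FT.nil)) (FT.cons (FT.cons (FT.cons (FT.leaf [(nat_lit 10831844)]) FT.nil) FT.nil) (FT.cons (FT.cons (FT.cons (FT.leaf [(nat_lit 11621772)]) FT.nil) FT.nil) (FT.cons (FT.cons (FT.cons (FT.leaf [(nat_lit 12354321)]) FT.nil) FT.nil) FT.nil)))))))))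

def f176_0_743 : FT := (FT.cons (FT.cons (FT.cons (FT.leaf [(nat_lit 4680829), (nat_lit 4778052), (nat_lit 4883074), (nat_lit 4994200), (nat_lit 5110209), (nat_lit 5230166), (nat_lit 5353328), (nat_lit 5479093), (nat_lit 5606957), (nat_lit 5736500), (nat_lit 5867360), (nat_lit 5999229), (nat_lit 6131840), (nat_lit 6264961), (nat_lit 6398392), (nat_lit 6531956), (nat_lit 6665499), (nat_lit 6798889), (nat_lit 6932004)]) (FT.cons (FT.leaf [(nat_lit 4925484), (nat_lit 5033156), (nat_lit 5146364), (nat_lit 5263973), (nat_lit 5385119), (nat_lit 5509121), (nat_lit 5635421), (nat_lit 5763559), (nat_lit 5893147), (nat_lit 6023855), (nat_lit 6155399), (nat_lit 6287536), (nat_lit 6420052), (nat_lit 6552765), (nat_lit 6685513), (nat_lit 6818156), (nat_lit 6950573), (nat_lit 7082652)]) (FT.cons (FT.leaf [(nat_lit 5184421), (nat_lit 5299277), (nat_lit 5418120), (nat_lit 5540146), (nat_lit 5664720), (nat_lit 5791328), (nat_lit 5919544), (nat_lit 6049010), (nat_lit 6179420),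 (nat_lit 6310516), (nat_lit 6442073), (nat_lit 6573896), (nat_lit 6705817), (nat_lit 6837686), (nat_lit 6969377), (nat_lit 7100776)]) (FT.cons (FT.leaf [(nat_lit 5452585), (nat_lit 5572354), (nat_lit 5694994), (nat_lit 5819914), (nat_lit 5946634),
 (nat_lit 6074760), (nat_lit 6203959), (nat_lit 6333951), (nat_lit 6464494), (nat_lit 6595381), (nat_lit 6726434), (nat_lit 6857498), (nat_lit 6988436), (nat_lit 7119132)]) (FT.cons (FT.leaf [(nat_lit 5726424), (nat_lit 5849452), (nat_lit 5974523), (nat_lit 6101189), (nat_lit 6229081), (nat_lit 6357890), (nat_lit 6487357), (nat_lit 6617258), (nat_lit 6747400), (nat_lit 6877620), (nat_lit 7007774), (nat_lit 7137737)]) (FT.cons (FT.leaf [(nat_lit 6003344), (nat_lit 6128398), (nat_lit 6254866), (nat_lit 6382400), (nat_lit 6510715), (nat_lit 6639566), (nat_lit 6768748), (nat_lit 6898081), (nat_lit 7027414), (nat_lit 7156614)]) (FT.cons (FT.leaf [(nat_lit 6281414), (nat_lit 6407559), (nat_lit 6534631), (nat_lit 6662360),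 (nat_lit 6790519), (nat_lit 6918917), (nat_lit 7047387), (nat_lit 7175788)]) (FT.cons (FT.leaf [(nat_lit 6559182), (nat_lit 6685699), (nat_lit 6812765), (nat_lit 6940167), (nat_lit 7067725), (nat_lit 7195287)]) (FT.cons (FT.leaf [(nat_lit 6835545), (nat_lit 6961882), (nat_lit 7088472), (nat_lit 7215145)]) (FT.cons (FT.leaf [(nat_lit 7109671), (nat_lit 7235402)]) (FT.cons (FT.leaf [(nat_lit 7380936)]) (FT.cons (FT.leaf [(nat_lit 7648870)]) FT.nil)))))))))))) (FT.cons
 (FT.cons (FT.leaf [(nat_lit 5227873), (nat_lit 5335923), (nat_lit 5449095), (nat_lit 5566288), (nat_lit 5686676), (nat_lit 5809616), (nat_lit 5934586), (nat_lit 6061158), (nat_lit 6188974), (nat_lit 6317733), (nat_lit 6447173), (nat_lit 6577075), (nat_lit 6707247), (nat_lit 6837521), (nat_lit 6967752), (nat_lit 7097814), (nat_lit 7227597)]) (FT.cons (FT.leaf [(nat_lit 5486104), (nat_lit 5600552), (nat_lit 5718654), (nat_lit 5839640), (nat_lit 5962911), (nat_lit 6087981), (nat_lit 6214455), (nat_lit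 6342001), (nat_lit 6470340), (nat_lit 6599232), (nat_lit 6728472), (nat_lit 6857885), (nat_lit 6987316), (nat_lit 7116632), (nat_lit 7245717), (nat_lit 7374470)]) (FT.cons (FT.leaf [(nat_lit 5752076), (nat_lit 5870830), (nat_lit 5992194), (nat_lit 6115607), (nat_lit 6240617), (nat_lit 6366855), (nat_lit 6494014), (nat_lit 6621832), (nat_lit 6750089), (nat_lit 6878597), (nat_lit 7007191), (nat_lit 7135728), (nat_lit 7264087), (nat_lit 7392162)]) (FT.cons (FT.leaf [(nat_lit 6022616), (nat_lit 6144170), (nat_lit 6267564), (nat_lit 6392375), (nat_lit 6518259), (nat_lit 6644929), (nat_lit 6772141), (nat_lit 6899692), (nat_lit 7027404), (nat_lit 7155128), (nat_lit 7282731), (nat_lit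
 7410099)]) (FT.cons (FT.leaf [(nat_lit 6295426), (nat_lit 6418662), (nat_lit 6543157), (nat_lit 6668585), (nat_lit 6794678), (nat_lit 6921211), (nat_lit 7047993), (nat_lit 7174860), (nat_lit 7301670), (nat_lit 7428304)]) (FT.cons (FT.leaf [(nat_lit 6568804), (nat_lit 6692878), (nat_lit 6817762), (nat_lit 6943207), (nat_lit 7068999), (nat_lit 7194959), (nat_lit 7320936), (nat_lit 7446799)]) (FT.cons (FT.leaf [(nat_lit 6841470), (nat_lit 6965738), (nat_lit 7090469), (nat_lit 7215466), (nat_lit 7340562), (nat_lit 7465613)]) (FT.cons (FT.leaf [(nat_lit 7112463), (nat_lit 7236428), (nat_lit 7360586), (nat_lit 7484779)]) (FT.cons (FT.leaf [(nat_lit 7381055), (nat_lit 7504336)]) (FT.cons (FT.leaf [(nat_lit 7646702)]) (FT.cons (FT.leaf [(nat_lit 7908998)]) FT.nil))))))))))) (FT.cons (FT.cons (FT.leaf [(nat_lit 5782564), (nat_lit 5896259), (nat_lit 6013325), (nat_lit 6133023), (nat_lit 6254783), (nat_lit 6378148), (nat_lit 6502748), (nat_lit 6628275), (nat_lit 6754468),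 (nat_lit 6881109), (nat_lit 7008008), (nat_lit 7135003), (nat_lit 7261955)]) (FT.cons (FT.leaf [(nat_lit 6045708), (nat_lit 6163209), (nat_lit 6283099), (nat_lit 6404842), (nat_lit 6528014), (nat_lit 6652267), (nat_lit
 6777313), (nat_lit 6902911), (nat_lit 7028859), (nat_lit 7154979), (nat_lit 7281123), (nat_lit 7407159)]) (FT.cons (FT.leaf [(nat_lit 6312534), (nat_lit 6432457), (nat_lit 6554049), (nat_lit 6676911), (nat_lit 6800719), (nat_lit 6925201), (nat_lit 7050135), (nat_lit 7175330), (nat_lit 7300622), (nat_lit 7425872)]) (FT.cons (FT.leaf [(nat_lit 6580984), (nat_lit 6702309), (nat_lit 6824763), (nat_lit 6948040), (nat_lit 7071889), (nat_lit 7196098), (nat_lit 7320489), (nat_lit 7444913)]) (FT.cons (FT.leaf [(nat_lit 6849543), (nat_lit 6971504), (nat_lit 7094179), (nat_lit 7217332), (nat_lit 7340765), (nat_lit 7464312)]) (FT.cons (FT.leaf [(nat_lit 7117079), (nat_lit 7239091), (nat_lit 7361497), (nat_lit 7484111)]) (FT.cons (FT.leaf [(nat_lit 7382742),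 (nat_lit 7504356)]) (FT.cons (FT.leaf [(nat_lit 7645891)]) (FT.cons (FT.leaf [(nat_lit 7906049)]) (FT.cons (FT.leaf [(nat_lit 8162864)]) FT.nil)))))))))) (FT.cons (FT.cons (FT.leaf [(nat_lit 6333304), (nat_lit 6449380), (nat_lit 6567655), (nat_lit 6687619), (nat_lit 6808868), (nat_lit 6931076), (nat_lit 7053973), (nat_lit 7177334), (nat_lit 7300969), (nat_lit 7424716), (nat_lit 7548436)]) (FT.cons (FT.leaf [(nat_lit 6596131), (nat_lit
 6714317), (nat_lit 6834027), (nat_lit 6954882), (nat_lit 7076575), (nat_lit 7198854), (nat_lit 7321508), (nat_lit 7444360), (nat_lit 7567258), (nat_lit 7690072)]) (FT.cons (FT.leaf [(nat_lit 6860068), (nat_lit 6979425), (nat_lit 7099803), (nat_lit 7220912), (nat_lit 7342514), (nat_lit 7464412), (nat_lit 7586440), (nat_lit 7708455)]) (FT.cons (FT.leaf [(nat_lit 7123753), (nat_lit 7243582), (nat_lit 7364046), (nat_lit 7484921), (nat_lit 7606021), (nat_lit 7727190)]) (FT.cons (FT.leaf [(nat_lit 7386177), (nat_lit 7505945), (nat_lit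 7626050), (nat_lit 7746317)]) (FT.cons (FT.leaf [(nat_lit 7646582), (nat_lit 7765881)]) (FT.cons (FT.leaf [(nat_lit 7904401)]) (FT.cons (FT.leaf [(nat_lit 8159213)]) FT.nil)))))))) (FT.cons (FT.cons (FT.leaf [(nat_lit 6873437), (nat_lit 6989815), (nat_lit 7107594), (nat_lit 7226412), (nat_lit 7345979), (nat_lit 7466057), (nat_lit 7586448), (nat_lit 7706985), (nat_lit 7827526)]) (FT.cons (FT.leaf [(nat_lit 7132777), (nat_lit 7250139), (nat_lit 7368428), (nat_lit 7487370), (nat_lit 7606742), (nat_lit 7726356), (nat_lit 7846057), (nat_lit 7965712)]) (FT.cons (FT.leaf [(nat_lit 7391584), (nat_lit 7509284), (nat_lit 7627552), (nat_lit 7746175), (nat_lit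
 7864979), (nat_lit 7983816)]) (FT.cons (FT.leaf [(nat_lit 7648949), (nat_lit 7766499), (nat_lit 7884340), (nat_lit 8002304)]) (FT.cons (FT.leaf [(nat_lit 7904193), (nat_lit 8021220)]) (FT.cons (FT.leaf [(nat_lit 8156810)]) FT.nil)))))) (FT.cons (FT.cons (FT.leaf [(nat_lit 7399246), (nat_lit 7514604), (nat_lit 7630810), (nat_lit 7747604), (nat_lit 7864772)]) (FT.cons (FT.leaf [(nat_lit 7653208), (nat_lit 7768797), (nat_lit 7884895), (nat_lit 8001304)]) (FT.cons (FT.leaf [(nat_lit 7905593), (nat_lit 8020961)]) (FT.cons (FT.leaf [(nat_lit 8155789)]) FT.nil)))) (FT.cons (FT.cons (FT.leaf [(nat_lit 7908810), (nat_lit 8022314), (nat_lit 8136280)]) (FT.cons (FT.leaf [(nat_lit 8156313), (nat_lit 8269542)]) FT.nil)) (FT.cons (FT.cons (FT.leaf [(nat_lit 8401312)]) FT.nil) (FT.cons (FT.cons (FT.leaf [(nat_lit 8876614)]) FT.nil) (FT.cons (FT.cons (FT.leaf [(nat_lit 9334989)]) FT.nil) (FT.cons (FT.cons (FT.leaf [(nat_lit 9776956)]) FT.nil) FT.nil))))))))))) (FT.cons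 (FT.cons (FT.cons (FT.leaf [(nat_lit 6013840), (nat_lit 6115632), (nat_lit 6222090), (nat_lit 6332188), (nat_lit 6445165), (nat_lit 6560433), (nat_lit 6677523), (nat_lit 6796049), (nat_lit 6915691), (nat_lit 7036182), (nat_lit
 7157292), (nat_lit 7278827), (nat_lit 7400616), (nat_lit 7522515), (nat_lit 7644396)]) (FT.cons (FT.leaf [(nat_lit 6256226), (nat_lit 6363742), (nat_lit 6474577), (nat_lit 6588023), (nat_lit 6703531), (nat_lit 6820665), (nat_lit 6939068), (nat_lit 7058441), (nat_lit 7178540), (nat_lit 7299149), (nat_lit 7420088), (nat_lit 7541201), (nat_lit 7662353), (nat_lit 7783427)]) (FT.cons (FT.leaf [(nat_lit 6505350), (nat_lit 6616710), (nat_lit 6730444), (nat_lit 6846039), (nat_lit 6963087), (nat_lit 7081255), (nat_lit 7200268), (nat_lit 7319892), (nat_lit 7439931), (nat_lit 7560217), (nat_lit 7680606), (nat_lit 7800971)]) (FT.cons (FT.leaf [(nat_lit 6758429), (nat_lit 6872298), (nat_lit 6987848), (nat_lit 7104698), (nat_lit 7222537), (nat_lit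 7341104), (nat_lit 7460186), (nat_lit 7579598), (nat_lit 7699182), (nat_lit 7818804)]) (FT.cons (FT.leaf [(nat_lit 7013473), (nat_lit 7128865), (nat_lit 7245421), (nat_lit 7362847), (nat_lit 7480901), (nat_lit 7599379), (nat_lit 7718112), (nat_lit 7836952)]) (FT.cons (FT.leaf [(nat_lit 7269014), (nat_lit 7385191), (nat_lit 7502133), (nat_lit 7619612), (nat_lit 7737437), (nat_lit 7855449)]) (FT.cons (FT.leaf [(nat_lit 7523954), (nat_lit 7640350),
 (nat_lit 7757203), (nat_lit 7874332)]) (FT.cons (FT.leaf [(nat_lit 7777464), (nat_lit 7893646)]) (FT.cons (FT.leaf [(nat_lit 8028917)]) (FT.cons (FT.leaf [(nat_lit 8277837)]) (FT.cons (FT.leaf [(nat_lit 8523871)]) FT.nil))))))))))) (FT.cons (FT.cons (FT.leaf [(nat_lit 6531642), (nat_lit 6638379), (nat_lit 6748200), (nat_lit 6860426), (nat_lit 6974535), (nat_lit 7090112), (nat_lit 7206822), (nat_lit 7324386), (nat_lit 7442573), (nat_lit 7561187), (nat_lit 7680059), (nat_lit 7799043), (nat_lit 7918018)]) (FT.cons (FT.leaf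 [(nat_lit 6778042), (nat_lit 6888220), (nat_lit 7000592), (nat_lit 7114665), (nat_lit 7230055), (nat_lit 7346445), (nat_lit 7463577), (nat_lit 7581235), (nat_lit 7699234), (nat_lit 7817419), (nat_lit 7935655), (nat_lit 8053826)]) (FT.cons (FT.leaf [(nat_lit 7027702), (nat_lit 7140087), (nat_lit 7254015), (nat_lit 7369122), (nat_lit 7485113), (nat_lit 7601745), (nat_lit 7718816), (nat_lit 7836152), (nat_lit 7953610), (nat_lit 8071063)]) (FT.cons (FT.leaf [(nat_lit 7278824), (nat_lit 7392510), (nat_lit 7507252), (nat_lit 7622774), (nat_lit 7738847), (nat_lit 7855281), (nat_lit 7971914), (nat_lit 8088610)]) (FT.cons (FT.leaf [(nat_lit 7530086), (nat_lit 7644394),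
 (nat_lit 7759387), (nat_lit 7874850), (nat_lit 7990604), (nat_lit 8106498)]) (FT.cons (FT.leaf [(nat_lit 7780504), (nat_lit 7894916), (nat_lit 8009727), (nat_lit 8124766)]) (FT.cons (FT.leaf [(nat_lit 8029335), (nat_lit 8143456)]) (FT.cons (FT.leaf [(nat_lit 8276020)]) (FT.cons (FT.leaf [(nat_lit 8520137)]) (FT.cons (FT.leaf [(nat_lit 8761371)]) FT.nil)))))))))) (FT.cons (FT.cons (FT.leaf [(nat_lit 7045340), (nat_lit 7154215), (nat_lit 7265126), (nat_lit 7377603), (nat_lit 7491278), (nat_lit 7605854), (nat_lit 7721085), (nat_lit 7836770), (nat_lit 7952735), (nat_lit 8068835), (nat_lit 8184944)]) (FT.cons (FT.leaf [(nat_lit 7291392), (nat_lit 7402220), (nat_lit 7514470), (nat_lit 7627796), (nat_lit 7741919), (nat_lit 7856608), (nat_lit 7971673), (nat_lit 8086952), (nat_lit 8202309), (nat_lit 8317626)]) (FT.cons (FT.leaf [(nat_lit 7538495), (nat_lit 7650437), (nat_lit 7763345), (nat_lit 7876956), (nat_lit 7991053), (nat_lit 8105457), (nat_lit 8220016), (nat_lit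 8334601)]) (FT.cons (FT.leaf [(nat_lit 7785453), (nat_lit 7897883), (nat_lit 8010932), (nat_lit 8124394), (nat_lit 8238101), (nat_lit 8351911)]) (FT.cons (FT.leaf [(nat_lit 8031377), (nat_lit 8143819), (nat_lit 8256611),
 (nat_lit 8369592)]) (FT.cons (FT.leaf [(nat_lit 8275597), (nat_lit 8387688)]) (FT.cons (FT.leaf [(nat_lit 8517613)]) (FT.cons (FT.leaf [(nat_lit 8757045)]) FT.nil)))))))) (FT.cons (FT.cons (FT.leaf [(nat_lit 7549550), (nat_lit 7658773), (nat_lit 7769315), (nat_lit 7880844), (nat_lit 7993093), (nat_lit 8105846), (nat_lit 8218922), (nat_lit 8332169), (nat_lit 8445459)]) (FT.cons (FT.leaf [(nat_lit 7792587), (nat_lit 7902768), (nat_lit 8013838), (nat_lit 8125544), (nat_lit 8237681), (nat_lit 8350080), (nat_lit 8462597), (nat_lit 8575112)]) (FT.cons (FT.leaf [(nat_lit 8035251), (nat_lit 8145809), (nat_lit 8256929), (nat_lit 8368415), (nat_lit 8480107), (nat_lit 8591871)]) (FT.cons (FT.leaf [(nat_lit 8276732), (nat_lit 8387228), (nat_lit 8498033),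 (nat_lit 8608994)]) (FT.cons (FT.leaf [(nat_lit 8516427), (nat_lit 8626524)]) (FT.cons (FT.leaf [(nat_lit 8753880)]) FT.nil)))))) (FT.cons (FT.cons (FT.leaf [(nat_lit 8041224), (nat_lit 8149641), (nat_lit 8258879), (nat_lit 8368697), (nat_lit 8478900)]) (FT.cons (FT.leaf [(nat_lit 8279628), (nat_lit 8388331), (nat_lit 8497546), (nat_lit 8607088)]) (FT.cons (FT.leaf [(nat_lit 8516738), (nat_lit 8625318)]) (FT.cons (FT.leaf [(nat_lit 8752001)])
 FT.nil)))) (FT.cons (FT.cons (FT.leaf [(nat_lit 8518742), (nat_lit 8625614), (nat_lit 8732954)]) (FT.cons (FT.leaf [(nat_lit 8751563), (nat_lit 8858263)]) FT.nil)) (FT.cons (FT.cons (FT.leaf [(nat_lit 8981376)]) FT.nil) (FT.cons (FT.cons (FT.leaf [(nat_lit 9428952)]) FT.nil) (FT.cons (FT.cons (FT.leaf [(nat_lit 9861643)]) FT.nil) (FT.cons (FT.cons (FT.leaf [(nat_lit 10279836)]) FT.nil) FT.nil)))))))))) (FT.cons (FT.cons (FT.cons (FT.leaf [(nat_lit 7221114), (nat_lit 7321745), (nat_lit 7425227), (nat_lit 7530929), (nat_lit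 7638371), (nat_lit 7747171), (nat_lit 7857023), (nat_lit 7967674), (nat_lit 8078913), (nat_lit 8190563), (nat_lit 8302471), (nat_lit 8414507), (nat_lit 8526558)]) (FT.cons (FT.leaf [(nat_lit 7452886), (nat_lit 7556673), (nat_lit 7662493), (nat_lit 7769894), (nat_lit 7878520), (nat_lit 7988083), (nat_lit 8098346), (nat_lit 8209114), (nat_lit 8320217), (nat_lit 8431516), (nat_lit 8542889), (nat_lit 8654230)]) (FT.cons (FT.leaf [(nat_lit 7687614), (nat_lit 7793440), (nat_lit 7900706), (nat_lit 8009077), (nat_lit 8118283), (nat_lit 8228102), (nat_lit 8338348), (nat_lit 8448865), (nat_lit 8559522), (nat_lit 8670203)]) (FT.cons (FT.leaf [(nat_lit 7923696), (nat_lit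
 8030746), (nat_lit 8138793), (nat_lit 8247583), (nat_lit 8356907), (nat_lit 8466591), (nat_lit 8576487), (nat_lit 8686472)]) (FT.cons (FT.leaf [(nat_lit 8159962), (nat_lit 8267626), (nat_lit 8375949), (nat_lit 8484735), (nat_lit 8593820), (nat_lit 8703065)]) (FT.cons (FT.leaf [(nat_lit 8395539), (nat_lit 8503352), (nat_lit 8611563), (nat_lit 8720018)]) (FT.cons (FT.leaf [(nat_lit 8629768), (nat_lit 8737373)]) (FT.cons (FT.leaf [(nat_lit 8862151)]) (FT.cons (FT.leaf [(nat_lit 9092310)]) FT.nil))))))))) (FT.cons (FT.cons (FT.leaf [(nat_lit 7702683), (nat_lit 7805285), (nat_lit 7909786), (nat_lit 8015753), (nat_lit 8122845), (nat_lit 8230789), (nat_lit 8339361), (nat_lit 8448376), (nat_lit 8557676), (nat_lit 8667128), (nat_lit 8776618)]) (FT.cons (FT.leaf [(nat_lit 7934156), (nat_lit 8038585), (nat_lit 8144352), (nat_lit 8251136), (nat_lit 8358680), (nat_lit 8466773), (nat_lit 8575241), (nat_lit 8683936), (nat_lit 8792732), (nat_lit 8901524)]) (FT.cons (FT.leaf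 [(nat_lit 8166648), (nat_lit 8272144), (nat_lit 8378561), (nat_lit 8485655), (nat_lit 8593227), (nat_lit 8701112), (nat_lit 8809172), (nat_lit 8917289)]) (FT.cons (FT.leaf [(nat_lit 8399089), (nat_lit 8505086), (nat_lit
 8611686), (nat_lit 8718700), (nat_lit 8825972), (nat_lit 8933373)]) (FT.cons (FT.leaf [(nat_lit 8630684), (nat_lit 8736752), (nat_lit 8843177), (nat_lit 8949810)]) (FT.cons (FT.leaf [(nat_lit 8860834), (nat_lit 8966642)]) (FT.cons (FT.leaf [(nat_lit 9089087)]) (FT.cons (FT.leaf [(nat_lit 9315101)]) FT.nil)))))))) (FT.cons (FT.cons (FT.leaf [(nat_lit 8175806), (nat_lit 8278803), (nat_lit 8383048), (nat_lit 8488234), (nat_lit 8594116), (nat_lit 8700492), (nat_lit 8807197)]) (FT.cons (FT.leaf [(nat_lit 8404679), (nat_lit 8508611), (nat_lit 8613396), (nat_lit 8718801), (nat_lit 8824637), (nat_lit 8930746)]) (FT.cons (FT.leaf [(nat_lit 8633310), (nat_lit 8737648), (nat_lit 8842539), (nat_lit 8947803)]) (FT.cons (FT.leaf [(nat_lit 8860970), (nat_lit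 8965315)]) (FT.cons (FT.leaf [(nat_lit 9087113)]) (FT.cons (FT.leaf [(nat_lit 9311327)]) FT.nil)))))) (FT.cons (FT.cons (FT.leaf [(nat_lit 8637899), (nat_lit 8740266), (nat_lit 8843426), (nat_lit 8947157), (nat_lit 9051279)]) (FT.cons (FT.leaf [(nat_lit 8862753), (nat_lit 8965448), (nat_lit 9068651), (nat_lit 9172191)]) (FT.cons (FT.leaf [(nat_lit 9086540), (nat_lit 9189187)]) (FT.cons (FT.leaf [(nat_lit 9308757)]) FT.nil)))) (FT.cons
 (FT.cons (FT.leaf [(nat_lit 9087552)]) (FT.cons (FT.leaf [(nat_lit 9307536)]) FT.nil)) (FT.cons (FT.cons (FT.leaf [(nat_lit 9524099)]) FT.nil) (FT.cons (FT.cons (FT.leaf [(nat_lit 9947340)]) FT.nil) (FT.cons (FT.cons (FT.leaf [(nat_lit 10357376)]) FT.nil) FT.nil)))))))) (FT.cons (FT.cons (FT.cons (FT.leaf [(nat_lit 8313429), (nat_lit 8410519), (nat_lit 8509391), (nat_lit 8609642), (nat_lit 8710956), (nat_lit 8813081), (nat_lit 8915810), (nat_lit 9018970), (nat_lit 9122418)]) (FT.cons (FT.leaf [(nat_lit 8532118), (nat_lit 8630929),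 (nat_lit 8731004), (nat_lit 8832046), (nat_lit 8933816), (nat_lit 9036119), (nat_lit 9138794), (nat_lit 9241704)]) (FT.cons (FT.leaf [(nat_lit 8751802), (nat_lit 8851640), (nat_lit 8952358), (nat_lit 9053729), (nat_lit 9155571), (nat_lit 9257728)]) (FT.cons (FT.leaf [(nat_lit 8971516), (nat_lit 9071863), (nat_lit 9172798), (nat_lit 9274144)]) (FT.cons (FT.leaf [(nat_lit 9190538), (nat_lit 9291002)]) (FT.cons (FT.leaf [(nat_lit 9408328)]) (FT.cons (FT.leaf [(nat_lit 9624473)]) FT.nil))))))) (FT.cons (FT.cons (FT.leaf [(nat_lit 8759386), (nat_lit 8856912), (nat_lit 8955623), (nat_lit 9055235), (nat_lit 9155519), (nat_lit 9256287), (nat_lit 9357387)])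
 (FT.cons (FT.leaf [(nat_lit 8975828), (nat_lit 9074267), (nat_lit 9173525), (nat_lit 9273388), (nat_lit 9373678), (nat_lit 9474250)]) (FT.cons (FT.leaf [(nat_lit 9192136), (nat_lit 9291002), (nat_lit 9390410), (nat_lit 9490194)]) (FT.cons (FT.leaf [(nat_lit 9407646), (nat_lit 9506572)]) (FT.cons (FT.leaf [(nat_lit 9621860)]) (FT.cons (FT.leaf [(nat_lit 9834399)]) FT.nil)))))) (FT.cons (FT.cons (FT.leaf [(nat_lit 9195577), (nat_lit 9292616), (nat_lit 9390423)]) (FT.cons (FT.leaf [(nat_lit 9408510), (nat_lit 9505907)]) (FT.cons (FT.leaf [(nat_lit 9620561)]) (FT.cons (FT.leaf [(nat_lit 9831267)]) FT.nil)))) (FT.cons (FT.cons (FT.leaf [(nat_lit 9620751)]) (FT.cons (FT.leaf [(nat_lit 9829401)]) FT.nil)) (FT.cons (FT.cons (FT.leaf [(nat_lit 10034290)]) FT.nil) (FT.cons (FT.cons (FT.leaf [(nat_lit 10435975)]) FT.nil) FT.nil)))))) (FT.cons (FT.cons (FT.cons (FT.leaf [(nat_lit 9306006), (nat_lit 9398682), (nat_lit 9492488), (nat_lit 9587157), (nat_lit 9682475)])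 (FT.cons (FT.leaf [(nat_lit 9511443), (nat_lit 9605009), (nat_lit 9699365), (nat_lit 9794308)]) (FT.cons (FT.leaf [(nat_lit 9716832), (nat_lit 9810840)]) FT.nil))) (FT.cons (FT.cons (FT.leaf [(nat_lit 9719309), (nat_lit 9811616),
 (nat_lit 9904665)]) (FT.cons (FT.leaf [(nat_lit 9921663), (nat_lit 10014348)]) FT.nil)) (FT.cons (FT.cons (FT.leaf [(nat_lit 10122788)]) FT.nil) (FT.cons (FT.cons (FT.leaf [(nat_lit 10515860)]) FT.nil) FT.nil)))) (FT.cons (FT.cons (FT.cons (FT.leaf [(nat_lit 10213209)]) FT.nil) (FT.cons (FT.cons (FT.leaf [(nat_lit 10597306)]) FT.nil) FT.nil)) (FT.cons (FT.cons (FT.cons (FT.leaf [(nat_lit 11047334)]) FT.nil) FT.nil) (FT.cons (FT.cons (FT.cons (FT.leaf [(nat_lit 11818586)]) FT.nil) FT.nil) (FT.cons (FT.cons (FT.cons (FT.leaf [(nat_lit 12535356)]) FT.nil) FT.nil) FT.nil)))))))))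

def f184_0_0 : FT := (FT.cons (FT.cons (FT.cons (FT.leaf [(nat_lit 3066209), (nat_lit 3146186), (nat_lit 3239328), (nat_lit 3342980), (nat_lit 3455250), (nat_lit 3574682), (nat_lit 3700103), (nat_lit 3830539), (nat_lit 3965167), (nat_lit 4103280), (nat_lit 4244268), (nat_lit 4387599), (nat_lit 4532811), (nat_lit 4679495), (nat_lit 4827295), (nat_lit 4975898), (nat_lit 5125030), (nat_lit 5274447), (nat_lit 5423938), (nat_lit 5573313), (nat_lit 5722412), (nat_lit 5871091), (nat_lit 6019224)]) (FT.cons (FT.leaf [(nat_lit 3291184), (nat_lit 3390623), (nat_lit 3499564), (nat_lit 3616236), (nat_lit 3739291), (nat_lit 3867649), (nat_lit 4000420), (nat_lit 4136852), (nat_lit 4276303), (nat_lit 4418221), (nat_lit 4562120), (nat_lit 4707584), (nat_lit 4854244), (nat_lit 5001778), (nat_lit 5149905), (nat_lit 5298375), (nat_lit 5446972), (nat_lit 5595503), (nat_lit 5743803), (nat_lit 5891723), (nat_lit 6039139), (nat_lit 6185935)]) (FT.cons (FT.leaf [(nat_lit 3546640),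 (nat_lit 3659902), (nat_lit 3780145), (nat_lit 3906108), (nat_lit 4036787), (nat_lit 4171358), (nat_lit 4309133), (nat_lit 4449522), (nat_lit 4592021), (nat_lit 4736189), (nat_lit 4881647), (nat_lit 5028060), (nat_lit 5175137), (nat_lit 5322623),
 (nat_lit 5470293), (nat_lit 5617953), (nat_lit 5765429), (nat_lit 5912571), (nat_lit 6059248), (nat_lit 6205345)]) (FT.cons (FT.leaf [(nat_lit 3823071), (nat_lit 3946201), (nat_lit 4074475), (nat_lit 4206955), (nat_lit 4342876), (nat_lit 4481601), (nat_lit 4622588), (nat_lit 4765372), (nat_lit 4909554), (nat_lit 5054785), (nat_lit 5200763), (nat_lit 5347222), (nat_lit 5493930), (nat_lit 5640685), (nat_lit 5787309), (nat_lit 5933649), (nat_lit 6079568), (nat_lit 6224946)]) (FT.cons (FT.leaf [(nat_lit 4113765), (nat_lit 4243846), (nat_lit 4377686), (nat_lit 4514573), (nat_lit 4653913), (nat_lit 4795207), (nat_lit 4938027), (nat_lit 5082005), (nat_lit 5226823), (nat_lit 5372205), (nat_lit 5517908), (nat_lit 5663724),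 (nat_lit 5809467), (nat_lit 5954977), (nat_lit 6100114), (nat_lit 6244755)]) (FT.cons (FT.leaf [(nat_lit 4413764), (nat_lit 4548590), (nat_lit 4686114), (nat_lit 4825784), (nat_lit 4967137), (nat_lit 5109777), (nat_lit 5253367), (nat_lit 5397614), (nat_lit 5542264), (nat_lit 5687099), (nat_lit 5831925), (nat_lit 5976576), (nat_lit 6120904), (nat_lit 6264786)]) (FT.cons (FT.leaf [(nat_lit 4719337), (nat_lit 4857218), (nat_lit 4996973), (nat_lit 5138173), (nat_lit
 5280451), (nat_lit 5423496), (nat_lit 5567037), (nat_lit 5710843), (nat_lit 5854712), (nat_lit 5998469), (nat_lit 6141962), (nat_lit 6285056)]) (FT.cons (FT.leaf [(nat_lit 5027648), (nat_lit 5167280), (nat_lit 5308146), (nat_lit 5449906), (nat_lit 5592272), (nat_lit 5734995), (nat_lit 5877861), (nat_lit 6020685), (nat_lit 6163306), (nat_lit 6305586)]) (FT.cons (FT.leaf [(nat_lit 5336537), (nat_lit 5476915), (nat_lit 5618026), (nat_lit 5759600), (nat_lit 5901408), (nat_lit 6043254), (nat_lit 6184968),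 (nat_lit 6326400)]) (FT.cons (FT.leaf [(nat_lit 5644365), (nat_lit 5784712), (nat_lit 5925401), (nat_lit 6066216), (nat_lit 6206976), (nat_lit 6347523)]) (FT.cons (FT.leaf [(nat_lit 5949890), (nat_lit 6089612), (nat_lit 6229367), (nat_lit 6368987)]) (FT.cons (FT.leaf [(nat_lit 6252185), (nat_lit 6390826)]) (FT.cons (FT.leaf [(nat_lit 6550564)]) (FT.cons (FT.leaf [(nat_lit 6844529)]) (FT.cons (FT.leaf [(nat_lit 7133733)]) (FT.cons (FT.leaf [(nat_lit 7417938)]) FT.nil)))))))))))))))) (FT.cons (FT.cons (FT.leaf [(nat_lit 3617566), (nat_lit 3720654), (nat_lit 3832541), (nat_lit 3951434), (nat_lit 4076012), (nat_lit 4205243), (nat_lit 4338292), (nat_lit 4474468), (nat_lit 4613186),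
 (nat_lit 4753945), (nat_lit 4896315), (nat_lit 5039924), (nat_lit 5184447), (nat_lit 5329601), (nat_lit 5475140), (nat_lit 5620848), (nat_lit 5766532), (nat_lit 5912031), (nat_lit 6057197), (nat_lit 6201904), (nat_lit 6346041)]) (FT.cons (FT.leaf [(nat_lit 3879013), (nat_lit 3994312), (nat_lit 4115959), (nat_lit 4242716), (nat_lit 4373625), (nat_lit 4507913), (nat_lit 4644942), (nat_lit 4784174), (nat_lit 4925152), (nat_lit 5067481), (nat_lit 5210822), (nat_lit 5354880), (nat_lit 5499395), (nat_lit 5644145), (nat_lit 5788934), (nat_lit 5933590), (nat_lit 6077961), (nat_lit 6221918), (nat_lit 6365349), (nat_lit 6508150)]) (FT.cons (FT.leaf [(nat_lit 4157962), (nat_lit 4281807), (nat_lit 4410262), (nat_lit 4542433), (nat_lit 4677598), (nat_lit 4815167), (nat_lit 4954643), (nat_lit 5095605), (nat_lit 5237692), (nat_lit 5380593), (nat_lit 5524036), (nat_lit 5667788), (nat_lit 5811644), (nat_lit 5955425), (nat_lit 6098975), (nat_lit 6242160), (nat_lit 6384861),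 (nat_lit 6526975)]) (FT.cons (FT.leaf [(nat_lit 4448482), (nat_lit 4578228), (nat_lit 4711305), (nat_lit 4847039), (nat_lit 4984881), (nat_lit 5124370), (nat_lit 5265117), (nat_lit 5406791), (nat_lit 5549103), (nat_lit 5691808),
 (nat_lit 5834689), (nat_lit 5977561), (nat_lit 6120261), (nat_lit 6262647), (nat_lit 6404597), (nat_lit 6546001)]) (FT.cons (FT.leaf [(nat_lit 4746260), (nat_lit 4879940), (nat_lit 5015979), (nat_lit 5153865), (nat_lit 5293169), (nat_lit 5433531), (nat_lit 5574644), (nat_lit 5716245), (nat_lit 5858104), (nat_lit 6000027), (nat_lit 6141842), (nat_lit 6283400), (nat_lit 6424572), (nat_lit 6565246)]) (FT.cons (FT.leaf [(nat_lit 5048082), (nat_lit 5184200), (nat_lit 5321934), (nat_lit 5460884), (nat_lit 5600717), (nat_lit 5741146), (nat_lit 5881929), (nat_lit 6022856), (nat_lit 6163746), (nat_lit 6304442), (nat_lit 6444808), (nat_lit 6584727)]) (FT.cons (FT.leaf [(nat_lit 5351521), (nat_lit 5488935), (nat_lit 5627388), (nat_lit 5766567),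 (nat_lit 5906208), (nat_lit 6046085), (nat_lit 6186004), (nat_lit 6325800), (nat_lit 6465328), (nat_lit 6604463)]) (FT.cons (FT.leaf [(nat_lit 5654742), (nat_lit 5792573), (nat_lit 5930994), (nat_lit 6069757), (nat_lit 6208655), (nat_lit 6347506), (nat_lit 6486158), (nat_lit 6624477)]) (FT.cons (FT.leaf [(nat_lit 5956355), (nat_lit 6093928), (nat_lit 6231740), (nat_lit 6369595), (nat_lit 6507328), (nat_lit 6644795)]) (FT.cons (FT.leaf [(nat_lit
 6255312), (nat_lit 6392110), (nat_lit 6528873), (nat_lit 6665446)]) (FT.cons (FT.leaf [(nat_lit 6550836), (nat_lit 6686465)]) (FT.cons (FT.leaf [(nat_lit 6842352)]) (FT.cons (FT.leaf [(nat_lit 7129450)]) (FT.cons (FT.leaf [(nat_lit 7411842)]) (FT.cons (FT.leaf [(nat_lit 7689342)]) FT.nil))))))))))))))) (FT.cons (FT.cons (FT.leaf [(nat_lit 4209293), (nat_lit 4325616), (nat_lit 4447752), (nat_lit 4574497), (nat_lit 4704934), (nat_lit 4838334), (nat_lit 4974103), (nat_lit 5111747), (nat_lit 5250848), (nat_lit 5391049),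 (nat_lit 5532044), (nat_lit 5673568), (nat_lit 5815393), (nat_lit 5957319), (nat_lit 6099171), (nat_lit 6240799), (nat_lit 6382071)]) (FT.cons (FT.leaf [(nat_lit 4488680), (nat_lit 4612482), (nat_lit 4740454), (nat_lit 4871738), (nat_lit 5005656), (nat_lit 5141654), (nat_lit 5279277), (nat_lit 5418137), (nat_lit 5557907), (nat_lit 5698304), (nat_lit 5839087), (nat_lit 5980047), (nat_lit 6120998), (nat_lit 6261783), (nat_lit 6402265), (nat_lit 6542322)]) (FT.cons (FT.leaf [(nat_lit 4777535), (nat_lit 4906399), (nat_lit 5038241), (nat_lit 5172426), (nat_lit 5308439), (nat_lit 5445854), (nat_lit 5584314), (nat_lit 5723517), (nat_lit 5863201), (nat_lit 6003144), (nat_lit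
 6143154), (nat_lit 6283061), (nat_lit 6422723), (nat_lit 6562013)]) (FT.cons (FT.leaf [(nat_lit 5072056), (nat_lit 5204208), (nat_lit 5338446), (nat_lit 5474287), (nat_lit 5611337), (nat_lit 5749261), (nat_lit 5887779), (nat_lit 6026651), (nat_lit 6165672), (nat_lit 6304664), (nat_lit 6443472), (nat_lit 6581964)]) (FT.cons (FT.leaf [(nat_lit 5369439), (nat_lit 5503546), (nat_lit 5639058), (nat_lit 5775605), (nat_lit 5912877), (nat_lit 6050614), (nat_lit 6188592), (nat_lit 6326621), (nat_lit 6464538), (nat_lit 6602200)]) (FT.cons (FT.leaf [(nat_lit 5667587), (nat_lit 5802634), (nat_lit 5938563), (nat_lit 6075085), (nat_lit 6211956), (nat_lit 6348970), (nat_lit 6485950), (nat_lit 6622745)]) (FT.cons (FT.leaf [(nat_lit 5964918), (nat_lit 6100131), (nat_lit 6235818), (nat_lit 6371755), (nat_lit 6507748), (nat_lit 6643631)]) (FT.cons (FT.leaf [(nat_lit 6260243), (nat_lit 6395027), (nat_lit 6529970), (nat_lit 6664892)]) (FT.cons (FT.leaf [(nat_lit 6552670), (nat_lit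 6686572)]) (FT.cons (FT.leaf [(nat_lit 6841538)]) (FT.cons (FT.leaf [(nat_lit 7126364)]) (FT.cons (FT.leaf [(nat_lit 7406803)]) (FT.cons (FT.leaf [(nat_lit 7682621)]) FT.nil))))))))))))) (FT.cons (FT.cons (FT.leaf [(nat_lit
 4814076), (nat_lit 4937282), (nat_lit 5064290), (nat_lit 5194276), (nat_lit 5326598), (nat_lit 5460739), (nat_lit 5596276), (nat_lit 5732850), (nat_lit 5870164), (nat_lit 6007959), (nat_lit 6146016), (nat_lit 6284146), (nat_lit 6422183), (nat_lit 6559988), (nat_lit 6697434)]) (FT.cons (FT.leaf [(nat_lit 5100203), (nat_lit 5227794), (nat_lit 5358069), (nat_lit 5490428), (nat_lit 5624388), (nat_lit 5759552), (nat_lit 5895591), (nat_lit 6032225), (nat_lit 6169217), (nat_lit 6306366), (nat_lit 6443494), (nat_lit 6580453), (nat_lit 6717111), (nat_lit 6853354)]) (FT.cons (FT.leaf [(nat_lit 5390748), (nat_lit 5521109), (nat_lit 5653329), (nat_lit 5786956), (nat_lit 5921619), (nat_lit 6057012), (nat_lit 6192873), (nat_lit 6328986), (nat_lit 6465160),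 (nat_lit 6601234), (nat_lit 6737070), (nat_lit 6872548)]) (FT.cons (FT.leaf [(nat_lit 5683239), (nat_lit 5815170), (nat_lit 5948335), (nat_lit 6082387), (nat_lit 6217041), (nat_lit 6352052), (nat_lit 6487219), (nat_lit 6622365), (nat_lit 6757341), (nat_lit 6892020)]) (FT.cons (FT.leaf [(nat_lit 5975841), (nat_lit 6108434), (nat_lit 6241783), (nat_lit 6375618), (nat_lit 6509713), (nat_lit 6643879), (nat_lit 6777953), (nat_lit 6911796)])
 (FT.cons (FT.leaf [(nat_lit 6267181), (nat_lit 6399745), (nat_lit 6532695), (nat_lit 6665820), (nat_lit 6798940), (nat_lit 6931906)]) (FT.cons (FT.leaf [(nat_lit 6556229), (nat_lit 6688239), (nat_lit 6820346), (nat_lit 6952383)]) (FT.cons (FT.leaf [(nat_lit 6842218), (nat_lit 6973270)]) (FT.cons (FT.leaf [(nat_lit 7124581)]) (FT.cons (FT.leaf [(nat_lit 7402908)]) (FT.cons (FT.leaf [(nat_lit 7676908)]) FT.nil))))))))))) (FT.cons (FT.cons (FT.leaf [(nat_lit 5416059), (nat_lit 5542097), (nat_lit 5670575), (nat_lit 5800921), (nat_lit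 5932681), (nat_lit 6065485), (nat_lit 6199024), (nat_lit 6333043), (nat_lit 6467322), (nat_lit 6601677), (nat_lit 6735947)]) (FT.cons (FT.leaf [(nat_lit 5702139), (nat_lit 5830530), (nat_lit 5960591), (nat_lit 6091898), (nat_lit 6224101), (nat_lit 6356916), (nat_lit 6490101), (nat_lit 6623455), (nat_lit 6756803), (nat_lit 6890000)]) (FT.cons (FT.leaf [(nat_lit 5989451), (nat_lit 6119104), (nat_lit 6249851), (nat_lit 6381365), (nat_lit 6513380), (nat_lit 6645669), (nat_lit 6778045), (nat_lit 6910347)]) (FT.cons (FT.leaf [(nat_lit 6276375), (nat_lit 6406472), (nat_lit 6537222), (nat_lit 6668372), (nat_lit 6799714), (nat_lit 6931069)]) (FT.cons (FT.leaf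
 [(nat_lit 6561707), (nat_lit 6691626), (nat_lit 6821860), (nat_lit 6952210)]) (FT.cons (FT.leaf [(nat_lit 6844546), (nat_lit 6973817)]) (FT.cons (FT.leaf [(nat_lit 7124226)]) (FT.cons (FT.leaf [(nat_lit 7400259)]) (FT.cons (FT.leaf [(nat_lit 7672291)]) (FT.cons (FT.leaf [(nat_lit 7940076)]) FT.nil)))))))))) (FT.cons (FT.cons (FT.leaf [(nat_lit 6006173), (nat_lit 6132476), (nat_lit 6260294), (nat_lit 6389221), (nat_lit 6518932), (nat_lit 6649158), (nat_lit 6779676), (nat_lit 6910298), (nat_lit 7040863)]) (FT.cons (FT.leaf [(nat_lit 6288143), (nat_lit 6415462), (nat_lit 6543758), (nat_lit 6672724), (nat_lit 6802109), (nat_lit 6931703), (nat_lit 7061329), (nat_lit 7190840)]) (FT.cons (FT.leaf [(nat_lit 6569344), (nat_lit 6696935), (nat_lit 6825095), (nat_lit 6953587), (nat_lit 7082215), (nat_lit 7210813)]) (FT.cons (FT.leaf [(nat_lit 6848710), (nat_lit 6976011), (nat_lit 7103568), (nat_lit 7231195)]) (FT.cons (FT.leaf [(nat_lit 7125449), (nat_lit 7252035)])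 (FT.cons (FT.leaf [(nat_lit 7398976)]) (FT.cons (FT.leaf [(nat_lit 7668867)]) (FT.cons (FT.leaf [(nat_lit 7934814)]) FT.nil)))))))) (FT.cons (FT.cons (FT.leaf [(nat_lit 6579446), (nat_lit 6704410), (nat_lit 6830253), (nat_lit
 6956686), (nat_lit 7083471), (nat_lit 7210411), (nat_lit 7337344)]) (FT.cons (FT.leaf [(nat_lit 6854943), (nat_lit 6980043), (nat_lit 7105643), (nat_lit 7231519), (nat_lit 7357487), (nat_lit 7483392)]) (FT.cons (FT.leaf [(nat_lit 7128430), (nat_lit 7253154), (nat_lit 7378087), (nat_lit 7503055)]) (FT.cons (FT.leaf [(nat_lit 7399205), (nat_lit 7523167)]) (FT.cons (FT.leaf [(nat_lit 7666751)]) (FT.cons (FT.leaf [(nat_lit 7930694)]) FT.nil)))))) (FT.cons (FT.cons (FT.leaf [(nat_lit 7133395), (nat_lit 7256035), (nat_lit 7379118)]) (FT.cons (FT.leaf [(nat_lit 7401119), (nat_lit 7523320)]) (FT.cons (FT.leaf [(nat_lit 7666085)]) (FT.cons (FT.leaf [(nat_lit 7927830)]) FT.nil)))) (FT.cons (FT.cons (FT.leaf [(nat_lit 7667035)]) (FT.cons (FT.leaf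 [(nat_lit 7926355)]) FT.nil)) (FT.cons (FT.cons (FT.leaf [(nat_lit 8180282)]) FT.nil) (FT.cons (FT.cons (FT.leaf [(nat_lit 8673577)]) FT.nil) (FT.cons (FT.cons (FT.leaf [(nat_lit 9147658)]) FT.nil) (FT.cons (FT.cons (FT.leaf [(nat_lit 9603414)]) FT.nil) FT.nil))))))))))))) (FT.cons (FT.cons (FT.cons (FT.leaf [(nat_lit 4531744), (nat_lit 4630020), (nat_lit 4736213), (nat_lit 4848610), (nat_lit 4965973), (nat_lit 5087356), (nat_lit 5212006), (nat_lit
 5339308), (nat_lit 5468753), (nat_lit 5599908), (nat_lit 5732407), (nat_lit 5865933), (nat_lit 6000215), (nat_lit 6135014), (nat_lit 6270125), (nat_lit 6405368), (nat_lit 6540584), (nat_lit 6675637), (nat_lit 6810404)]) (FT.cons (FT.leaf [(nat_lit 4779201), (nat_lit 4888111), (nat_lit 5002646), (nat_lit 5121657), (nat_lit 5244270), (nat_lit 5369789), (nat_lit 5497650), (nat_lit 5627383), (nat_lit 5758592), (nat_lit 5890941), (nat_lit 6024139), (nat_lit 6157939), (nat_lit 6292120), (nat_lit 6426499), (nat_lit 6560906),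 (nat_lit 6695201), (nat_lit 6829256), (nat_lit 6962964)]) (FT.cons (FT.leaf [(nat_lit 5041244), (nat_lit 5157474), (nat_lit 5277757), (nat_lit 5401278), (nat_lit 5527392), (nat_lit 5655575), (nat_lit 5785393), (nat_lit 5916482), (nat_lit 6048531), (nat_lit 6181274), (nat_lit 6314481), (nat_lit 6447954), (nat_lit 6581520), (nat_lit 6715029), (nat_lit 6848347), (nat_lit 6981362)]) (FT.cons (FT.leaf [(nat_lit 5312726), (nat_lit 5433963), (nat_lit 5558119), (nat_lit 5684592), (nat_lit 5812895), (nat_lit 5942626), (nat_lit 6073445), (nat_lit 6205067), (nat_lit 6337245), (nat_lit 6469769), (nat_lit 6602454), (nat_lit 6735142), (nat_lit 6867695), (nat_lit 6999993)])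
 (FT.cons (FT.leaf [(nat_lit 5590015), (nat_lit 5714573), (nat_lit 5841205), (nat_lit 5969455), (nat_lit 6098949), (nat_lit 6229371), (nat_lit 6360456), (nat_lit 6491977), (nat_lit 6623737), (nat_lit 6755567), (nat_lit 6887323), (nat_lit 7018876)]) (FT.cons (FT.leaf [(nat_lit 5870456), (nat_lit 5997074), (nat_lit 6125123), (nat_lit 6254251), (nat_lit 6384167), (nat_lit 6514622), (nat_lit 6645406), (nat_lit 6776336), (nat_lit 6907257), (nat_lit 7038034)]) (FT.cons (FT.leaf [(nat_lit 6152069), (nat_lit 6279787), (nat_lit 6408442), (nat_lit 6537757), (nat_lit 6667503), (nat_lit 6797482), (nat_lit 6927527), (nat_lit 7057492)]) (FT.cons (FT.leaf [(nat_lit 6433359), (nat_lit 6561444), (nat_lit 6690080), (nat_lit 6819048), (nat_lit 6948166), (nat_lit 7077278)]) (FT.cons (FT.leaf [(nat_lit 6713195), (nat_lit 6841082), (nat_lit 6969216), (nat_lit 7097426)]) (FT.cons (FT.leaf [(nat_lit 6990725), (nat_lit 7117977)]) (FT.cons (FT.leaf [(nat_lit 7265306)]) (FT.cons (FT.leaf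 [(nat_lit 7536461)]) (FT.cons (FT.leaf [(nat_lit 7803838)]) (FT.cons (FT.leaf [(nat_lit 8067192)]) FT.nil)))))))))))))) (FT.cons (FT.cons (FT.leaf [(nat_lit 5085621), (nat_lit 5194951), (nat_lit 5309481), (nat_lit 5428095),
 (nat_lit 5549957), (nat_lit 5674412), (nat_lit 5800930), (nat_lit 5929075), (nat_lit 6058483), (nat_lit 6188846), (nat_lit 6319899), (nat_lit 6451416), (nat_lit 6583200), (nat_lit 6715081), (nat_lit 6846911), (nat_lit 6978563), (nat_lit 7109922)]) (FT.cons (FT.leaf [(nat_lit 5347020), (nat_lit 5462857), (nat_lit 5582405), (nat_lit 5704882), (nat_lit 5829678), (nat_lit 5956302), (nat_lit 6084348), (nat_lit 6213481), (nat_lit 6343416), (nat_lit 6473906), (nat_lit 6604745), (nat_lit 6735752), (nat_lit 6866769), (nat_lit 6997662), (nat_lit 7128311), (nat_lit 7258612)]) (FT.cons (FT.leaf [(nat_lit 5616314), (nat_lit 5736531), (nat_lit 5859396), (nat_lit 5984340), (nat_lit 6110902), (nat_lit 6238709), (nat_lit 6367445), (nat_lit 6496846), (nat_lit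 6626687), (nat_lit 6756773), (nat_lit 6886939), (nat_lit 7017042), (nat_lit 7146952), (nat_lit 7276564)]) (FT.cons (FT.leaf [(nat_lit 5890265), (nat_lit 6013326), (nat_lit 6138250), (nat_lit 6264609), (nat_lit 6392053), (nat_lit 6520287), (nat_lit 6649067), (nat_lit 6778182), (nat_lit 6907453), (nat_lit 7036727), (nat_lit 7165869), (nat_lit 7294764)]) (FT.cons (FT.leaf [(nat_lit 6166523), (nat_lit 6291285), (nat_lit 6417319), (nat_lit
 6544294), (nat_lit 6671937), (nat_lit 6800020), (nat_lit 6928346), (nat_lit 7056749), (nat_lit 7185085), (nat_lit 7313232)]) (FT.cons (FT.leaf [(nat_lit 6443342), (nat_lit 6568944), (nat_lit 6695361), (nat_lit 6822337), (nat_lit 6949658), (nat_lit 7077141), (nat_lit 7204631), (nat_lit 7331993)]) (FT.cons (FT.leaf [(nat_lit 6719414), (nat_lit 6845196), (nat_lit 6971440), (nat_lit 7097944), (nat_lit 7224538), (nat_lit 7351078)]) (FT.cons (FT.leaf [(nat_lit 6993751), (nat_lit 7119207), (nat_lit 7244849), (nat_lit 7370517)]) (FT.cons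 (FT.leaf [(nat_lit 7265610), (nat_lit 7390351)]) (FT.cons (FT.leaf [(nat_lit 7534433)]) (FT.cons (FT.leaf [(nat_lit 7799809)]) (FT.cons (FT.leaf [(nat_lit 8061438)]) (FT.cons (FT.leaf [(nat_lit 8319110)]) FT.nil))))))))))))) (FT.cons (FT.cons (FT.leaf [(nat_lit 5647507), (nat_lit 5762589), (nat_lit 5881090), (nat_lit 6002260), (nat_lit 6125519), (nat_lit 6250404), (nat_lit 6376539), (nat_lit 6503608), (nat_lit 6631348), (nat_lit 6759535), (nat_lit 6887976), (nat_lit 7016507), (nat_lit 7144985), (nat_lit 7273286), (nat_lit 7401304)]) (FT.cons (FT.leaf [(nat_lit 5913941), (nat_lit 6032885), (nat_lit 6154250), (nat_lit 6277491), (nat_lit 6402176), (nat_lit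
 6527953), (nat_lit 6654529), (nat_lit 6781658), (nat_lit 6909133), (nat_lit 7036774), (nat_lit 7164431), (nat_lit 7291970), (nat_lit 7419275), (nat_lit 7546250)]) (FT.cons (FT.leaf [(nat_lit 6184112), (nat_lit 6305508), (nat_lit 6428592), (nat_lit 6552959), (nat_lit 6678277), (nat_lit 6804274), (nat_lit 6930720), (nat_lit 7057421), (nat_lit 7184213), (nat_lit 7310953), (nat_lit 7437517), (nat_lit 7563801)]) (FT.cons (FT.leaf [(nat_lit 6455917), (nat_lit 6578725), (nat_lit 6702671), (nat_lit 6827443), (nat_lit 6952788), (nat_lit 7078489), (nat_lit 7204366), (nat_lit 7330265), (nat_lit 7456053), (nat_lit 7581616)]) (FT.cons (FT.leaf [(nat_lit 6727807), (nat_lit 6851244), (nat_lit 6975398), (nat_lit 7100027), (nat_lit 7224931), (nat_lit 7349940), (nat_lit 7474910), (nat_lit 7599718)]) (FT.cons (FT.leaf [(nat_lit 6998625), (nat_lit 7122096), (nat_lit 7245956), (nat_lit 7370019), (nat_lit 7494124), (nat_lit 7618136)]) (FT.cons (FT.leaf [(nat_lit 7267501), (nat_lit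 7390548), (nat_lit 7513732), (nat_lit 7636903)]) (FT.cons (FT.leaf [(nat_lit 7533781), (nat_lit 7656055)]) (FT.cons (FT.leaf [(nat_lit 7796980)]) (FT.cons (FT.leaf [(nat_lit 8056738)]) (FT.cons (FT.leaf [(nat_lit 8312799)])
 FT.nil))))))))))) (FT.cons (FT.cons (FT.leaf [(nat_lit 6205407), (nat_lit 6322897), (nat_lit 6442611), (nat_lit 6564033), (nat_lit 6686752), (nat_lit 6810435), (nat_lit 6934810), (nat_lit 7059648), (nat_lit 7184754), (nat_lit 7309964), (nat_lit 7435137)]) (FT.cons (FT.leaf [(nat_lit 6471494), (nat_lit 6591113), (nat_lit 6712271), (nat_lit 6834582), (nat_lit 6957736), (nat_lit 7081475), (nat_lit 7205585), (nat_lit 7329886), (nat_lit 7454224), (nat_lit 7578468)]) (FT.cons (FT.leaf [(nat_lit 6738682), (nat_lit 6859475), (nat_lit 6981294), (nat_lit 7103846), (nat_lit 7226888), (nat_lit 7350221), (nat_lit 7473675), (nat_lit 7597107)]) (FT.cons (FT.leaf [(nat_lit 7005582), (nat_lit 7126835), (nat_lit 7248722), (nat_lit 7371017), (nat_lit 7493530),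 (nat_lit 7616102)]) (FT.cons (FT.leaf [(nat_lit 7271161), (nat_lit 7392333), (nat_lit 7513835), (nat_lit 7635493)]) (FT.cons (FT.leaf [(nat_lit 7534649), (nat_lit 7655324)]) (FT.cons (FT.leaf [(nat_lit 7795468)]) (FT.cons (FT.leaf [(nat_lit 8053189)]) (FT.cons (FT.leaf [(nat_lit 8307498)]) (FT.cons (FT.leaf [(nat_lit 8558171)]) FT.nil)))))))))) (FT.cons (FT.cons (FT.leaf [(nat_lit 6752435), (nat_lit 6870203), (nat_lit 6989383), (nat_lit
 7109608), (nat_lit 7230583), (nat_lit 7352066), (nat_lit 7473856), (nat_lit 7595785), (nat_lit 7717709)]) (FT.cons (FT.leaf [(nat_lit 7014916), (nat_lit 7133665), (nat_lit 7253343), (nat_lit 7373675), (nat_lit 7494431), (nat_lit 7615423), (nat_lit 7736493), (nat_lit 7857506)]) (FT.cons (FT.leaf [(nat_lit 7276818), (nat_lit 7395890), (nat_lit 7515526), (nat_lit 7635513), (nat_lit 7755673), (nat_lit 7875856)]) (FT.cons (FT.leaf [(nat_lit 7537214), (nat_lit 7656112), (nat_lit 7775294), (nat_lit 7894591)]) (FT.cons (FT.leaf [(nat_lit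 7795414), (nat_lit 7913760)]) (FT.cons (FT.leaf [(nat_lit 8050903)]) (FT.cons (FT.leaf [(nat_lit 8303301)]) (FT.cons (FT.leaf [(nat_lit 8552331)]) FT.nil)))))))) (FT.cons (FT.cons (FT.leaf [(nat_lit 7284757), (nat_lit 7401450), (nat_lit 7518994), (nat_lit 7637123), (nat_lit 7755622), (nat_lit 7874313), (nat_lit 7993045)]) (FT.cons (FT.leaf [(nat_lit 7541694), (nat_lit 7658600), (nat_lit 7776014), (nat_lit 7893731), (nat_lit 8011584), (nat_lit 8129430)]) (FT.cons (FT.leaf [(nat_lit 7796987), (nat_lit 7913649), (nat_lit 8030555), (nat_lit 8147545)]) (FT.cons (FT.leaf [(nat_lit 8050015), (nat_lit 8166085)]) (FT.cons (FT.leaf [(nat_lit 8300316)]) (FT.cons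
 (FT.leaf [(nat_lit 8547551)]) FT.nil)))))) (FT.cons (FT.cons (FT.leaf [(nat_lit 7800398), (nat_lit 7915169), (nat_lit 8030398)]) (FT.cons (FT.leaf [(nat_lit 8050690), (nat_lit 8165160)]) (FT.cons (FT.leaf [(nat_lit 8298674)]) (FT.cons (FT.leaf [(nat_lit 8543934)]) FT.nil)))) (FT.cons (FT.cons (FT.leaf [(nat_lit 8298533)]) (FT.cons (FT.leaf [(nat_lit 8541609)]) FT.nil)) (FT.cons (FT.cons (FT.leaf [(nat_lit 8779035)]) FT.nil) (FT.cons (FT.cons (FT.leaf [(nat_lit 9242203)]) FT.nil) (FT.cons (FT.cons (FT.leaf [(nat_lit 9688585)]) FT.nil) (FT.cons (FT.cons (FT.leaf [(nat_lit 10118868)]) FT.nil) FT.nil)))))))))))) (FT.cons (FT.cons (FT.cons (FT.leaf [(nat_lit 5883702), (nat_lit 5986643), (nat_lit 6094316), (nat_lit 6205677), (nat_lit 6319957), (nat_lit 6436559), (nat_lit 6555005), (nat_lit 6674906), (nat_lit 6795935), (nat_lit 6917820), (nat_lit 7040328), (nat_lit 7163261), (nat_lit 7286447), (nat_lit 7409736), (nat_lit 7532998), (nat_lit 7656123), (nat_lit 7779010)])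 (FT.cons (FT.leaf [(nat_lit 6128913), (nat_lit 6237662), (nat_lit 6349774), (nat_lit 6464531), (nat_lit 6581376), (nat_lit 6699866), (nat_lit 6819638), (nat_lit 6940392), (nat_lit 7061873), (nat_lit 7183867), (nat_lit
 7306190), (nat_lit 7428682), (nat_lit 7551206), (nat_lit 7673641), (nat_lit 7795885), (nat_lit 7917844)]) (FT.cons (FT.leaf [(nat_lit 6380967), (nat_lit 6493612), (nat_lit 6608660), (nat_lit 6725592), (nat_lit 6843992), (nat_lit 6963522), (nat_lit 7083903), (nat_lit 7204899), (nat_lit 7326308), (nat_lit 7447960), (nat_lit 7569708), (nat_lit 7691424), (nat_lit 7812998), (nat_lit 7934333)]) (FT.cons (FT.leaf [(nat_lit 6637028), (nat_lit 6752211), (nat_lit 6869094), (nat_lit 6987289), (nat_lit 7106480), (nat_lit 7226404), (nat_lit 7346841), (nat_lit 7467605), (nat_lit 7588538), (nat_lit 7709501), (nat_lit 7830374), (nat_lit 7951058)]) (FT.cons (FT.leaf [(nat_lit 6895068), (nat_lit 7011787), (nat_lit 7129677), (nat_lit 7248444), (nat_lit 7367839),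 (nat_lit 7487658), (nat_lit 7607726), (nat_lit 7727894), (nat_lit 7848035), (nat_lit 7968038)]) (FT.cons (FT.leaf [(nat_lit 7153590), (nat_lit 7271091), (nat_lit 7389359), (nat_lit 7508164), (nat_lit 7627312), (nat_lit 7746640), (nat_lit 7866008), (nat_lit 7985298)]) (FT.cons (FT.leaf [(nat_lit 7411474), (nat_lit 7529181), (nat_lit 7647342), (nat_lit 7765775), (nat_lit 7884325), (nat_lit 8002863)]) (FT.cons (FT.leaf [(nat_lit 7667873),
 (nat_lit 7785345), (nat_lit 7903023), (nat_lit 8020766)]) (FT.cons (FT.leaf [(nat_lit 7922148), (nat_lit 8039042)]) (FT.cons (FT.leaf [(nat_lit 8173816)]) (FT.cons (FT.leaf [(nat_lit 8422516)]) (FT.cons (FT.leaf [(nat_lit 8667982)]) FT.nil)))))))))))) (FT.cons (FT.cons (FT.leaf [(nat_lit 6407830), (nat_lit 6515787), (nat_lit 6626867), (nat_lit 6740380), (nat_lit 6855796), (nat_lit 6972696), (nat_lit 7090738), (nat_lit 7209641), (nat_lit 7329169), (nat_lit 7449122), (nat_lit 7569327), (nat_lit 7689642), (nat_lit 7809936), (nat_lit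 7930101), (nat_lit 8050041)]) (FT.cons (FT.leaf [(nat_lit 6657110), (nat_lit 6768550), (nat_lit 6882206), (nat_lit 6997583), (nat_lit 7114288), (nat_lit 7232000), (nat_lit 7350459), (nat_lit 7469442), (nat_lit 7588764), (nat_lit 7708265), (nat_lit 7827811), (nat_lit 7947282), (nat_lit 8066576), (nat_lit 8185605)]) (FT.cons (FT.leaf [(nat_lit 6909682), (nat_lit 7023348), (nat_lit 7138572), (nat_lit 7254984), (nat_lit 7372285), (nat_lit 7490228), (nat_lit 7608608), (nat_lit 7727250), (nat_lit 7846005), (nat_lit 7964747), (nat_lit 8083367), (nat_lit 8201767)]) (FT.cons (FT.leaf [(nat_lit 7163714), (nat_lit 7278685), (nat_lit 7394721), (nat_lit 7511539),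
 (nat_lit 7628907), (nat_lit 7746633), (nat_lit 7864552), (nat_lit 7982526), (nat_lit 8100437), (nat_lit 8218181)]) (FT.cons (FT.leaf [(nat_lit 7417859), (nat_lit 7533446), (nat_lit 7649719), (nat_lit 7766461), (nat_lit 7883489), (nat_lit 8000650), (nat_lit 8117813), (nat_lit 8234868)]) (FT.cons (FT.leaf [(nat_lit 7671114), (nat_lit 7786791), (nat_lit 7902862), (nat_lit 8019155), (nat_lit 8135527), (nat_lit 8251856)]) (FT.cons (FT.leaf [(nat_lit 7922725), (nat_lit 8038087), (nat_lit 8153616), (nat_lit 8269173)]) (FT.cons (FT.leaf [(nat_lit 8172121), (nat_lit 8286858)]) (FT.cons (FT.leaf [(nat_lit 8418874)]) (FT.cons (FT.leaf [(nat_lit 8662664)]) (FT.cons (FT.leaf [(nat_lit 8903257)]) FT.nil))))))))))) (FT.cons (FT.cons (FT.leaf [(nat_lit 6927743), (nat_lit 7037851), (nat_lit 7150013), (nat_lit 7263757), (nat_lit 7378707), (nat_lit 7494563), (nat_lit 7611076), (nat_lit 7728039), (nat_lit 7845280), (nat_lit 7962648), (nat_lit 8080016)]) (FT.cons (FT.leaf [(nat_lit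 7176626), (nat_lit 7288699), (nat_lit 7402206), (nat_lit 7516796), (nat_lit 7632185), (nat_lit 7748139), (nat_lit 7864466), (nat_lit 7981001), (nat_lit 8097607), (nat_lit 8214164)]) (FT.cons (FT.leaf [(nat_lit 7426547),
 (nat_lit 7539734), (nat_lit 7653892), (nat_lit 7768754), (nat_lit 7884099), (nat_lit 7999747), (nat_lit 8115543), (nat_lit 8231357)]) (FT.cons (FT.leaf [(nat_lit 7676288), (nat_lit 7789953), (nat_lit 7904235), (nat_lit 8018929), (nat_lit 8133862), (nat_lit 8248889)]) (FT.cons (FT.leaf [(nat_lit 7924944), (nat_lit 8038604), (nat_lit 8152608), (nat_lit 8266796)]) (FT.cons (FT.leaf [(nat_lit 8171836), (nat_lit 8285121)]) (FT.cons (FT.leaf [(nat_lit 8416454)]) (FT.cons (FT.leaf [(nat_lit 8658414)]) (FT.cons (FT.leaf [(nat_lit 8897433)]) (FT.cons (FT.leaf [(nat_lit 9133303)]) FT.nil)))))))))) (FT.cons (FT.cons (FT.leaf [(nat_lit 7437911), (nat_lit 7548341), (nat_lit 7660099), (nat_lit 7772848), (nat_lit 7886320), (nat_lit 8000293), (nat_lit 8114584),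 (nat_lit 8229040), (nat_lit 8343530)]) (FT.cons (FT.leaf [(nat_lit 7683670), (nat_lit 7795055), (nat_lit 7907330), (nat_lit 8020242), (nat_lit 8133582), (nat_lit 8247178), (nat_lit 8360886), (nat_lit 8474581)]) (FT.cons (FT.leaf [(nat_lit 7929016), (nat_lit 8040765), (nat_lit 8153074), (nat_lit 8265745), (nat_lit 8378616), (nat_lit 8491550)]) (FT.cons (FT.leaf [(nat_lit 8173127), (nat_lit 8284794), (nat_lit 8396766), (nat_lit 8508886)])
 (FT.cons (FT.leaf [(nat_lit 8415388), (nat_lit 8526632)]) (FT.cons (FT.leaf [(nat_lit 8655338)]) (FT.cons (FT.leaf [(nat_lit 8892634)]) (FT.cons (FT.leaf [(nat_lit 9127022)]) FT.nil)))))))) (FT.cons (FT.cons (FT.leaf [(nat_lit 7935211), (nat_lit 8044789), (nat_lit 8155190), (nat_lit 8266170), (nat_lit 8377530)]) (FT.cons (FT.leaf [(nat_lit 8176198), (nat_lit 8286048), (nat_lit 8396407), (nat_lit 8507089)]) (FT.cons (FT.leaf [(nat_lit 8415835), (nat_lit 8525542)]) (FT.cons (FT.leaf [(nat_lit 8653563)]) (FT.cons (FT.leaf [(nat_lit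 8888964)]) (FT.cons (FT.leaf [(nat_lit 9121728)]) FT.nil)))))) (FT.cons (FT.cons (FT.leaf [(nat_lit 8417994), (nat_lit 8525970), (nat_lit 8634412)]) (FT.cons (FT.leaf [(nat_lit 8653243), (nat_lit 8761027)]) (FT.cons (FT.leaf [(nat_lit 8886545)]) (FT.cons (FT.leaf [(nat_lit 9117519)]) FT.nil)))) (FT.cons (FT.cons (FT.leaf [(nat_lit 8885527)]) (FT.cons (FT.leaf [(nat_lit 9114515)]) FT.nil)) (FT.cons (FT.cons (FT.leaf [(nat_lit 9337648)]) FT.nil) (FT.cons (FT.cons (FT.leaf [(nat_lit 9774549)]) FT.nil) (FT.cons (FT.cons (FT.leaf [(nat_lit 10196641)]) FT.nil) FT.nil)))))))))) (FT.cons (FT.cons (FT.cons (FT.leaf [(nat_lit 7106838), (nat_lit 7208545), (nat_lit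
 7313134), (nat_lit 7419967), (nat_lit 7528555), (nat_lit 7638513), (nat_lit 7749531), (nat_lit 7861353), (nat_lit 7973764), (nat_lit 8086583), (nat_lit 8199658), (nat_lit 8312854), (nat_lit 8426059)]) (FT.cons (FT.leaf [(nat_lit 7341140), (nat_lit 7446034), (nat_lit 7552981), (nat_lit 7661524), (nat_lit 7771300), (nat_lit 7882019), (nat_lit 7993442), (nat_lit 8105367), (nat_lit 8217627), (nat_lit 8330077), (nat_lit 8442595), (nat_lit 8555072)]) (FT.cons (FT.leaf [(nat_lit 7578416), (nat_lit 7685364), (nat_lit 7793765), (nat_lit 7903277), (nat_lit 8013629), (nat_lit 8124594), (nat_lit 8235984), (nat_lit 8347643), (nat_lit 8459433), (nat_lit 8571242)]) (FT.cons (FT.leaf [(nat_lit 7817041), (nat_lit 7925216), (nat_lit 8034394), (nat_lit 8144317), (nat_lit 8254774), (nat_lit 8365586), (nat_lit 8476608), (nat_lit 8587710)]) (FT.cons (FT.leaf [(nat_lit 8055824), (nat_lit 8164606), (nat_lit 8274049), (nat_lit 8383953), (nat_lit 8494153), (nat_lit 8604505)]) (FT.cons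 (FT.leaf [(nat_lit 8293879), (nat_lit 8402797), (nat_lit 8512111), (nat_lit 8621664)]) (FT.cons (FT.leaf [(nat_lit 8530536), (nat_lit 8639228)]) (FT.cons (FT.leaf [(nat_lit 8765290)]) (FT.cons (FT.leaf [(nat_lit 8997757)])
 FT.nil))))))))) (FT.cons (FT.cons (FT.leaf [(nat_lit 7593831), (nat_lit 7697514), (nat_lit 7803112), (nat_lit 7910188), (nat_lit 8018396), (nat_lit 8127460), (nat_lit 8237153), (nat_lit 8347287), (nat_lit 8457703), (nat_lit 8568265), (nat_lit 8678858)]) (FT.cons (FT.leaf [(nat_lit 7827781), (nat_lit 7933301), (nat_lit 8040168), (nat_lit 8148057), (nat_lit 8256709), (nat_lit 8365910), (nat_lit 8475483), (nat_lit 8585277), (nat_lit 8695167), (nat_lit 8805044)]) (FT.cons (FT.leaf [(nat_lit 8062736), (nat_lit 8169322), (nat_lit 8276833), (nat_lit 8385021), (nat_lit 8493687), (nat_lit 8602661), (nat_lit 8711805), (nat_lit 8820999)]) (FT.cons (FT.leaf [(nat_lit 8297608), (nat_lit 8404687), (nat_lit 8512368), (nat_lit 8620460), (nat_lit 8728807),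 (nat_lit 8837275)]) (FT.cons (FT.leaf [(nat_lit 8531592), (nat_lit 8638727), (nat_lit 8746215), (nat_lit 8853907)]) (FT.cons (FT.leaf [(nat_lit 8764081), (nat_lit 8870936)]) (FT.cons (FT.leaf [(nat_lit 8994615)]) (FT.cons (FT.leaf [(nat_lit 9222849)]) FT.nil)))))))) (FT.cons (FT.cons (FT.leaf [(nat_lit 8072146), (nat_lit 8176200), (nat_lit 8281511), (nat_lit 8387767), (nat_lit 8494719), (nat_lit 8602164), (nat_lit 8709936), (nat_lit 8817891),
 (nat_lit 8925910)]) (FT.cons (FT.leaf [(nat_lit 8303400), (nat_lit 8408386), (nat_lit 8514228), (nat_lit 8620690), (nat_lit 8727581), (nat_lit 8834741), (nat_lit 8942037), (nat_lit 9049358)]) (FT.cons (FT.leaf [(nat_lit 8534378), (nat_lit 8639761), (nat_lit 8745695), (nat_lit 8851998), (nat_lit 8958521), (nat_lit 9065138)]) (FT.cons (FT.leaf [(nat_lit 8764341), (nat_lit 8869714), (nat_lit 8975404), (nat_lit 9081268)]) (FT.cons (FT.leaf [(nat_lit 8992736), (nat_lit 9097788)]) (FT.cons (FT.leaf [(nat_lit 9219143)]) FT.nil))))))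 (FT.cons (FT.cons (FT.leaf [(nat_lit 8539147), (nat_lit 8642533), (nat_lit 8746714), (nat_lit 8851466), (nat_lit 8956604)]) (FT.cons (FT.leaf [(nat_lit 8766265), (nat_lit 8869967), (nat_lit 8974176), (nat_lit 9078719)]) (FT.cons (FT.leaf [(nat_lit 8992271), (nat_lit 9095909)]) (FT.cons (FT.leaf [(nat_lit 9216654)]) FT.nil)))) (FT.cons (FT.cons (FT.leaf [(nat_lit 8993408), (nat_lit 9095449), (nat_lit 9197960)]) (FT.cons (FT.leaf [(nat_lit 9215527), (nat_lit 9317462)]) FT.nil)) (FT.cons (FT.cons (FT.leaf [(nat_lit 9434259)]) FT.nil) (FT.cons (FT.cons (FT.leaf [(nat_lit 9861510)]) FT.nil) (FT.cons (FT.cons (FT.leaf [(nat_lit 10275278)]) FT.nil) FT.nil))))))))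
 (FT.cons (FT.cons (FT.cons (FT.leaf [(nat_lit 8212085), (nat_lit 8310129), (nat_lit 8409970), (nat_lit 8511200), (nat_lit 8613500), (nat_lit 8716613), (nat_lit 8820331), (nat_lit 8924479), (nat_lit 9028912)]) (FT.cons (FT.leaf [(nat_lit 8432957), (nat_lit 8532731), (nat_lit 8633777), (nat_lit 8735795), (nat_lit 8838543), (nat_lit 8941824), (nat_lit 9045474), (nat_lit 9149355)]) (FT.cons (FT.leaf [(nat_lit 8654812), (nat_lit 8755612), (nat_lit 8857296), (nat_lit 8959634), (nat_lit 9062440), (nat_lit 9165561)]) (FT.cons (FT.leaf [(nat_lit 8876669), (nat_lit 8977972), (nat_lit 9079861), (nat_lit 9182162)]) (FT.cons (FT.leaf [(nat_lit 9097800), (nat_lit 9199207)]) (FT.cons (FT.leaf [(nat_lit 9317655)]) (FT.cons (FT.leaf [(nat_lit 9535818)]) FT.nil))))))) (FT.cons (FT.cons (FT.leaf [(nat_lit 8662603), (nat_lit 8761063), (nat_lit 8860717), (nat_lit 8961274), (nat_lit 9062504), (nat_lit 9164218), (nat_lit 9266261)]) (FT.cons (FT.leaf [(nat_lit 8881147), (nat_lit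 8980517), (nat_lit 9080711), (nat_lit 9181508), (nat_lit 9282731), (nat_lit 9384234)]) (FT.cons (FT.leaf [(nat_lit 9099528), (nat_lit 9199317), (nat_lit 9299649), (nat_lit 9400353)]) (FT.cons (FT.leaf [(nat_lit 9317073), (nat_lit
 9416909)]) (FT.cons (FT.leaf [(nat_lit 9533278)]) (FT.cons (FT.leaf [(nat_lit 9747763)]) FT.nil)))))) (FT.cons (FT.cons (FT.leaf [(nat_lit 9103116), (nat_lit 9201057), (nat_lit 9299768), (nat_lit 9399039), (nat_lit 9498699)]) (FT.cons (FT.leaf [(nat_lit 9318052), (nat_lit 9416341), (nat_lit 9515133), (nat_lit 9614267)]) (FT.cons (FT.leaf [(nat_lit 9532066), (nat_lit 9630354)]) (FT.cons (FT.leaf [(nat_lit 9744694)]) FT.nil)))) (FT.cons (FT.cons (FT.leaf [(nat_lit 9532358)]) (FT.cons (FT.leaf [(nat_lit 9742904)]) FT.nil)) (FT.cons (FT.cons (FT.leaf [(nat_lit 9949711)]) FT.nil) (FT.cons (FT.cons (FT.leaf [(nat_lit 10354965)]) FT.nil) FT.nil)))))) (FT.cons (FT.cons (FT.cons (FT.leaf [(nat_lit 9215213), (nat_lit 9308722), (nat_lit 9403367),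 (nat_lit 9498878), (nat_lit 9595039)]) (FT.cons (FT.leaf [(nat_lit 9422519), (nat_lit 9516916), (nat_lit 9612105), (nat_lit 9707882)]) (FT.cons (FT.leaf [(nat_lit 9629753), (nat_lit 9724585)]) (FT.cons (FT.leaf [(nat_lit 9836300)]) (FT.cons (FT.leaf [(nat_lit 10041695)]) FT.nil))))) (FT.cons (FT.cons (FT.leaf [(nat_lit 9632353), (nat_lit 9725464), (nat_lit 9819321)]) (FT.cons (FT.leaf [(nat_lit 9836491), (nat_lit 9929975)]) (FT.cons (FT.leaf
 [(nat_lit 10039865)]) (FT.cons (FT.leaf [(nat_lit 10242044)]) FT.nil)))) (FT.cons (FT.cons (FT.leaf [(nat_lit 10039453)]) (FT.cons (FT.leaf [(nat_lit 10239706)]) FT.nil)) (FT.cons (FT.cons (FT.leaf [(nat_lit 10435931)]) FT.nil) FT.nil)))) (FT.cons (FT.cons (FT.cons (FT.leaf [(nat_lit 10131112)]) FT.nil) (FT.cons (FT.cons (FT.leaf [(nat_lit 10518455)]) FT.nil) FT.nil)) (FT.cons (FT.cons (FT.cons (FT.leaf [(nat_lit 10972488)]) FT.nil) FT.nil) (FT.cons (FT.cons (FT.cons (FT.leaf [(nat_lit 11749858)]) FT.nil) FT.nil) (FT.cons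 (FT.cons (FT.cons (FT.leaf [(nat_lit 12471851)]) FT.nil) FT.nil) FT.nil))))))))))

def f184_0_400 : FT := (FT.cons (FT.cons (FT.cons (FT.leaf [(nat_lit 3796642), (nat_lit 3899743), (nat_lit 4011428), (nat_lit 4129901), (nat_lit 4253849), (nat_lit 4382258), (nat_lit 4514308), (nat_lit 4649325), (nat_lit 4786743), (nat_lit 4926081), (nat_lit 5066925), (nat_lit 5208917), (nat_lit 5351748), (nat_lit 5495149), (nat_lit 5638883), (nat_lit 5782745), (nat_lit 5926556), (nat_lit 6070157), (nat_lit 6213411), (nat_lit 6356200), (nat_lit 6498416), (nat_lit 6639970), (nat_lit 6780783)]) (FT.cons (FT.leaf [(nat_lit 4057394), (nat_lit 4172245), (nat_lit 4293246), (nat_lit 4419173), (nat_lit 4549080), (nat_lit 4682214), (nat_lit 4817951), (nat_lit 4955773), (nat_lit 5095235), (nat_lit 5235962), (nat_lit 5377625), (nat_lit 5519944), (nat_lit 5662671), (nat_lit 5805593), (nat_lit 5948522), (nat_lit 6091297), (nat_lit 6233772), (nat_lit 6375826), (nat_lit 6517348), (nat_lit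 6658245), (nat_lit 6798437), (nat_lit 6937848)]) (FT.cons (FT.leaf [(nat_lit 4334681), (nat_lit 4457690), (nat_lit 4585146), (nat_lit 4716167), (nat_lit 4850050), (nat_lit 4986219), (nat_lit 5124195), (nat_lit 5263569), (nat_lit 5403993), (nat_lit 5545171), (nat_lit 5686841), (nat_lit 5828781), (nat_lit 5970793), (nat_lit 6112709),
 (nat_lit 6254380), (nat_lit 6395675), (nat_lit 6536485), (nat_lit 6676708), (nat_lit 6816260), (nat_lit 6955070)]) (FT.cons (FT.leaf [(nat_lit 4622779), (nat_lit 4751384), (nat_lit 4883189), (nat_lit 5017537), (nat_lit 5153892), (nat_lit 5291809), (nat_lit 5430910), (nat_lit 5570877), (nat_lit 5711434), (nat_lit 5852343), (nat_lit 5993398), (nat_lit 6134421), (nat_lit 6275258), (nat_lit 6415770), (nat_lit 6555842), (nat_lit 6695371), (nat_lit 6834270), (nat_lit 6972459)]) (FT.cons (FT.leaf [(nat_lit 4917564), (nat_lit 5049872), (nat_lit 5184441), (nat_lit 5320771), (nat_lit 5458447), (nat_lit 5597121), (nat_lit 5736496), (nat_lit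 5876318), (nat_lit 6016368), (nat_lit 6156459), (nat_lit 6296426), (nat_lit 6436127), (nat_lit 6575437), (nat_lit 6714251), (nat_lit 6852475), (nat_lit 6990027)]) (FT.cons (FT.leaf [(nat_lit 5215985), (nat_lit 5350566), (nat_lit 5486690), (nat_lit 5623971), (nat_lit 5762083), (nat_lit 5900753), (nat_lit 6039744), (nat_lit 6178857), (nat_lit 6317915), (nat_lit 6456770), (nat_lit 6595291), (nat_lit 6733365), (nat_lit 6870893), (nat_lit 7007790)]) (FT.cons (FT.leaf [(nat_lit 5515747), (nat_lit 5651511), (nat_lit 5788263), (nat_lit 5925701), (nat_lit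
 6063569), (nat_lit 6201650), (nat_lit 6339755), (nat_lit 6477727), (nat_lit 6615426), (nat_lit 6752730), (nat_lit 6889540), (nat_lit 7025761)]) (FT.cons (FT.leaf [(nat_lit 5815119), (nat_lit 5951230), (nat_lit 6087897), (nat_lit 6224882), (nat_lit 6361984), (nat_lit 6499028), (nat_lit 6635866), (nat_lit 6772372), (nat_lit 6908433), (nat_lit 7043955)]) (FT.cons (FT.leaf [(nat_lit 6112792), (nat_lit 6248607), (nat_lit 6384642), (nat_lit 6520708), (nat_lit 6656644), (nat_lit 6792314), (nat_lit 6927598), (nat_lit 7062394)]) (FT.cons (FT.leaf [(nat_lit 6407782), (nat_lit 6542809), (nat_lit 6677794), (nat_lit 6812586), (nat_lit 6947056), (nat_lit 7081096)]) (FT.cons (FT.leaf [(nat_lit 6699357), (nat_lit 6833221), (nat_lit 6966838), (nat_lit 7100088)]) (FT.cons (FT.leaf [(nat_lit 6986977), (nat_lit 7119395)]) (FT.cons (FT.leaf [(nat_lit 7270256)]) (FT.cons (FT.leaf [(nat_lit 7548925)]) (FT.cons (FT.leaf [(nat_lit 7822809)]) (FT.cons (FT.leaf [(nat_lit 8091801)])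 FT.nil)))))))))))))))) (FT.cons (FT.cons (FT.leaf [(nat_lit 4384361), (nat_lit 4499959), (nat_lit 4621206), (nat_lit 4746909), (nat_lit 4876165), (nat_lit 5008263), (nat_lit 5142624), (nat_lit 5278766), (nat_lit 5416286),
 (nat_lit 5554840), (nat_lit 5694133), (nat_lit 5833910), (nat_lit 5973953), (nat_lit 6114070), (nat_lit 6254094), (nat_lit 6393882), (nat_lit 6533307), (nat_lit 6672258), (nat_lit 6810641), (nat_lit 6948373), (nat_lit 7085382)]) (FT.cons (FT.leaf [(nat_lit 4661533), (nat_lit 4784302), (nat_lit 4911107), (nat_lit 5041103), (nat_lit 5173627), (nat_lit 5308141), (nat_lit 5444199), (nat_lit 5581430), (nat_lit 5719514), (nat_lit 5858182), (nat_lit 5997201), (nat_lit 6136366), (nat_lit 6275506), (nat_lit 6414466), (nat_lit 6553117), (nat_lit 6691339), (nat_lit 6829038), (nat_lit 6966124), (nat_lit 7102522), (nat_lit 7238166)]) (FT.cons (FT.leaf [(nat_lit 4947594), (nat_lit 5075187), (nat_lit 5205653), (nat_lit 5338371), (nat_lit 5472838), (nat_lit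 5608642), (nat_lit 5745434), (nat_lit 5882925), (nat_lit 6020862), (nat_lit 6159030), (nat_lit 6297244), (nat_lit 6435344), (nat_lit 6573190), (nat_lit 6710661), (nat_lit 6847651), (nat_lit 6984072), (nat_lit 7119842), (nat_lit 7254894)]) (FT.cons (FT.leaf [(nat_lit 5238895), (nat_lit 5369600), (nat_lit 5502312), (nat_lit 5636562), (nat_lit 5771963), (nat_lit 5908195), (nat_lit 6044984), (nat_lit 6182099), (nat_lit 6319342), (nat_lit 6456542),
 (nat_lit 6593551), (nat_lit 6730240), (nat_lit 6866499), (nat_lit 7002232), (nat_lit 7137356), (nat_lit 7271799)]) (FT.cons (FT.leaf [(nat_lit 5532763), (nat_lit 5665299), (nat_lit 5799185), (nat_lit 5934058), (nat_lit 6069621), (nat_lit 6205619), (nat_lit 6341837), (nat_lit 6478092), (nat_lit 6614224), (nat_lit 6750100), (nat_lit 6885599), (nat_lit 7020622), (nat_lit 7155079), (nat_lit 7288893)]) (FT.cons (FT.leaf [(nat_lit 5827204), (nat_lit 5960599), (nat_lit 6094839), (nat_lit 6229642), (nat_lit 6364772), (nat_lit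 6500029), (nat_lit 6635243), (nat_lit 6770267), (nat_lit 6904975), (nat_lit 7039259), (nat_lit 7173024), (nat_lit 7306191)]) (FT.cons (FT.leaf [(nat_lit 6120719), (nat_lit 6254233), (nat_lit 6388199), (nat_lit 6522397), (nat_lit 6656641), (nat_lit 6790771), (nat_lit 6924651), (nat_lit 7058166), (nat_lit 7191214), (nat_lit 7323709)]) (FT.cons (FT.leaf [(nat_lit 6412183), (nat_lit 6545248), (nat_lit 6678460), (nat_lit 6811646), (nat_lit 6944657), (nat_lit 7077367), (nat_lit 7209668), (nat_lit 7341465)]) (FT.cons (FT.leaf [(nat_lit 6700752), (nat_lit 6832935), (nat_lit 6965027), (nat_lit 7096891), (nat_lit 7228410), (nat_lit 7359480)]) (FT.cons (FT.leaf [(nat_lit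
 6985803), (nat_lit 7116773), (nat_lit 7247469), (nat_lit 7377778)]) (FT.cons (FT.leaf [(nat_lit 7266878), (nat_lit 7396387)]) (FT.cons (FT.leaf [(nat_lit 7543651)]) (FT.cons (FT.leaf [(nat_lit 7815901)]) (FT.cons (FT.leaf [(nat_lit 8083485)]) (FT.cons (FT.leaf [(nat_lit 8346321)]) FT.nil))))))))))))))) (FT.cons (FT.cons (FT.leaf [(nat_lit 4982819), (nat_lit 5104862), (nat_lit 5230593), (nat_lit 5359205), (nat_lit 5490068), (nat_lit 5622679), (nat_lit 5756624), (nat_lit 5891557), (nat_lit 6027187), (nat_lit 6163268), (nat_lit 6299585), (nat_lit 6435956), (nat_lit 6572225), (nat_lit 6708254), (nat_lit 6843924), (nat_lit 6979131), (nat_lit 7113789)]) (FT.cons (FT.leaf [(nat_lit 5265917), (nat_lit 5392157), (nat_lit 5520995), (nat_lit 5651845), (nat_lit 5784233), (nat_lit 5917775), (nat_lit 6052150), (nat_lit 6187087), (nat_lit 6322357), (nat_lit 6457766), (nat_lit 6593142), (nat_lit 6728341), (nat_lit 6863237), (nat_lit 6997721), (nat_lit 7131700), (nat_lit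 7265090)]) (FT.cons (FT.leaf [(nat_lit 5553116), (nat_lit 5681991), (nat_lit 5812662), (nat_lit 5944688), (nat_lit 6077708), (nat_lit 6211422), (nat_lit 6345581), (nat_lit 6479971), (nat_lit 6614409), (nat_lit 6748741), (nat_lit
 6882831), (nat_lit 7016565), (nat_lit 7149840), (nat_lit 7282571)]) (FT.cons (FT.leaf [(nat_lit 5842050), (nat_lit 5972402), (nat_lit 6103945), (nat_lit 6236341), (nat_lit 6369310), (nat_lit 6502618), (nat_lit 6636067), (nat_lit 6769486), (nat_lit 6902733), (nat_lit 7035684), (nat_lit 7168228), (nat_lit 7300277)]) (FT.cons (FT.leaf [(nat_lit 6130965), (nat_lit 6261923), (nat_lit 6393608), (nat_lit 6525759), (nat_lit 6658154), (nat_lit 6790612), (nat_lit 6922973), (nat_lit 7055103), (nat_lit 7186887), (nat_lit 7318226)]) (FT.cons (FT.leaf [(nat_lit 6418555), (nat_lit 6549456), (nat_lit 6680726), (nat_lit 6812160), (nat_lit 6943584), (nat_lit 7074852), (nat_lit 7205839), (nat_lit 7336439)]) (FT.cons (FT.leaf [(nat_lit 6703842), (nat_lit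 6834180), (nat_lit 6964609), (nat_lit 7094967), (nat_lit 7225116), (nat_lit 7354940)]) (FT.cons (FT.leaf [(nat_lit 6986095), (nat_lit 7115485), (nat_lit 7244749), (nat_lit 7373759)]) (FT.cons (FT.leaf [(nat_lit 7264778), (nat_lit 7392927)]) (FT.cons (FT.leaf [(nat_lit 7539500)]) (FT.cons (FT.leaf [(nat_lit 7809985)]) (FT.cons (FT.leaf [(nat_lit 8076047)]) (FT.cons (FT.leaf [(nat_lit 8337571)]) FT.nil))))))))))))) (FT.cons (FT.cons (FT.leaf [(nat_lit
 5577412), (nat_lit 5702054), (nat_lit 5829066), (nat_lit 5957887), (nat_lit 6088074), (nat_lit 6219264), (nat_lit 6351160), (nat_lit 6483511), (nat_lit 6616105), (nat_lit 6748764), (nat_lit 6881331), (nat_lit 7013673), (nat_lit 7145678), (nat_lit 7277245), (nat_lit 7408290)]) (FT.cons (FT.leaf [(nat_lit 5860091), (nat_lit 5986982), (nat_lit 6115494), (nat_lit 6245209), (nat_lit 6375790), (nat_lit 6506956), (nat_lit 6638475), (nat_lit 6770149), (nat_lit 6901811), (nat_lit 7033319), (nat_lit 7164548), (nat_lit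 7295394), (nat_lit 7425763), (nat_lit 7555578)]) (FT.cons (FT.leaf [(nat_lit 6143854), (nat_lit 6271939), (nat_lit 6401085), (nat_lit 6530971), (nat_lit 6661339), (nat_lit 6791967), (nat_lit 6922674), (nat_lit 7053302), (nat_lit 7183720), (nat_lit 7313811), (nat_lit 7443479), (nat_lit 7572639)]) (FT.cons (FT.leaf [(nat_lit 6427147), (nat_lit 6555638), (nat_lit 6684760), (nat_lit 6814269), (nat_lit 6943959), (nat_lit 7073658), (nat_lit 7203221), (nat_lit 7332523), (nat_lit 7461460), (nat_lit 7589938)]) (FT.cons (FT.leaf [(nat_lit 6708817), (nat_lit 6837116), (nat_lit 6965716), (nat_lit 7094428), (nat_lit 7223088), (nat_lit 7351560), (nat_lit 7479729), (nat_lit 7607495)])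
 (FT.cons (FT.leaf [(nat_lit 6988008), (nat_lit 7115660), (nat_lit 7243358), (nat_lit 7370952), (nat_lit 7498315), (nat_lit 7625335)]) (FT.cons (FT.leaf [(nat_lit 7264082), (nat_lit 7390742), (nat_lit 7517249), (nat_lit 7643486)]) (FT.cons (FT.leaf [(nat_lit 7536573), (nat_lit 7661979)]) (FT.cons (FT.leaf [(nat_lit 7805144)]) (FT.cons (FT.leaf [(nat_lit 8069560)]) (FT.cons (FT.leaf [(nat_lit 8329665)]) FT.nil))))))))))) (FT.cons (FT.cons (FT.leaf [(nat_lit 6159805), (nat_lit 6284614), (nat_lit 6410896), (nat_lit 6538256), (nat_lit 6666375), (nat_lit 6794991), (nat_lit 6923886), (nat_lit 7052878), (nat_lit 7181810), (nat_lit 7310551), (nat_lit 7438987)]) (FT.cons (FT.leaf [(nat_lit 6438268), (nat_lit 6564044), (nat_lit 6690770), (nat_lit 6818147), (nat_lit 6945928), (nat_lit 7073909), (nat_lit 7201919), (nat_lit 7329814), (nat_lit 7457467), (nat_lit 7584777)]) (FT.cons (FT.leaf [(nat_lit 6715917), (nat_lit 6841939), (nat_lit 6968516), (nat_lit 7095414), (nat_lit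 7222442), (nat_lit 7349440), (nat_lit 7476271), (nat_lit 7602820)]) (FT.cons (FT.leaf [(nat_lit 6991725), (nat_lit 7117453), (nat_lit 7243428), (nat_lit 7369472), (nat_lit 7495432), (nat_lit 7621182)]) (FT.cons (FT.leaf
 [(nat_lit 7264936), (nat_lit 7389956), (nat_lit 7514989), (nat_lit 7639892)]) (FT.cons (FT.leaf [(nat_lit 7534990), (nat_lit 7658990)]) (FT.cons (FT.leaf [(nat_lit 7801476)]) (FT.cons (FT.leaf [(nat_lit 8064103)]) (FT.cons (FT.leaf [(nat_lit 8322668)]) (FT.cons (FT.leaf [(nat_lit 8577038)]) FT.nil)))))))))) (FT.cons (FT.cons (FT.leaf [(nat_lit 6725441), (nat_lit 6848893), (nat_lit 6973205), (nat_lit 7098091), (nat_lit 7223320), (nat_lit 7348700), (nat_lit 7474071), (nat_lit 7599296), (nat_lit 7724262)]) (FT.cons (FT.leaf [(nat_lit 6997478), (nat_lit 7121053), (nat_lit 7245116), (nat_lit 7369449), (nat_lit 7493871), (nat_lit 7618232), (nat_lit 7742405), (nat_lit 7866282)]) (FT.cons (FT.leaf [(nat_lit 7267521), (nat_lit 7390721), (nat_lit 7514126),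 (nat_lit 7637566), (nat_lit 7760899), (nat_lit 7884003)]) (FT.cons (FT.leaf [(nat_lit 7534891), (nat_lit 7657343), (nat_lit 7779780), (nat_lit 7902068)]) (FT.cons (FT.leaf [(nat_lit 7799095), (nat_lit 7920513)]) (FT.cons (FT.leaf [(nat_lit 8059769)]) (FT.cons (FT.leaf [(nat_lit 8316659)]) (FT.cons (FT.leaf [(nat_lit 8569587)]) FT.nil)))))))) (FT.cons (FT.cons (FT.leaf [(nat_lit 7272056), (nat_lit 7393216), (nat_lit 7514812), (nat_lit
 7636636), (nat_lit 7758517), (nat_lit 7880311), (nat_lit 8001902)]) (FT.cons (FT.leaf [(nat_lit 7536452), (nat_lit 7657180), (nat_lit 7778077), (nat_lit 7898983), (nat_lit 8019764), (nat_lit 8140306)]) (FT.cons (FT.leaf [(nat_lit 7798138), (nat_lit 7918089), (nat_lit 8038004), (nat_lit 8157759)]) (FT.cons (FT.leaf [(nat_lit 8056671), (nat_lit 8175584)]) (FT.cons (FT.leaf [(nat_lit 8311728)]) (FT.cons (FT.leaf [(nat_lit 8563084)]) FT.nil)))))) (FT.cons (FT.cons (FT.leaf [(nat_lit 7798773), (nat_lit 7917088), (nat_lit 8035545)])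 (FT.cons (FT.leaf [(nat_lit 8054939), (nat_lit 8172461)]) (FT.cons (FT.leaf [(nat_lit 8307983)]) (FT.cons (FT.leaf [(nat_lit 8557616)]) FT.nil)))) (FT.cons (FT.cons (FT.leaf [(nat_lit 8305550)]) (FT.cons (FT.leaf [(nat_lit 8553287)]) FT.nil)) (FT.cons (FT.cons (FT.leaf [(nat_lit 8792833)]) FT.nil) (FT.cons (FT.cons (FT.leaf [(nat_lit 9261342)]) FT.nil) (FT.cons (FT.cons (FT.leaf [(nat_lit 9711941)]) FT.nil) (FT.cons (FT.cons (FT.leaf [(nat_lit 10145556)]) FT.nil) FT.nil))))))))))))) (FT.cons (FT.cons (FT.cons (FT.leaf [(nat_lit 5246310), (nat_lit 5354860), (nat_lit 5468483), (nat_lit 5586077), (nat_lit 5706817), (nat_lit 5830061), (nat_lit 5955292), (nat_lit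
 6082084), (nat_lit 6210082), (nat_lit 6338990), (nat_lit 6468549), (nat_lit 6598540), (nat_lit 6728776), (nat_lit 6859091), (nat_lit 6989343), (nat_lit 7119408), (nat_lit 7249177), (nat_lit 7378554), (nat_lit 7507460)]) (FT.cons (FT.leaf [(nat_lit 5505475), (nat_lit 5620309), (nat_lit 5738753), (nat_lit 5860037), (nat_lit 5983563), (nat_lit 6108851), (nat_lit 6235505), (nat_lit 6363199), (nat_lit 6491655), (nat_lit 6620637), (nat_lit 6749943), (nat_lit 6879397), (nat_lit 7008850), (nat_lit 7138170), (nat_lit 7267242), (nat_lit 7395966), (nat_lit 7524258), (nat_lit 7652038)]) (FT.cons (FT.leaf [(nat_lit 5772136), (nat_lit 5891180), (nat_lit 6012795), (nat_lit 6136421), (nat_lit 6261610), (nat_lit 6387995), (nat_lit 6515270), (nat_lit 6643178), (nat_lit 6771501), (nat_lit 6900052), (nat_lit 7028668), (nat_lit 7157210), (nat_lit 7285558), (nat_lit 7413604), (nat_lit 7541260), (nat_lit 7668444)]) (FT.cons (FT.leaf [(nat_lit 6043167), (nat_lit 6164930), (nat_lit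 6288500), (nat_lit 6413457), (nat_lit 6539457), (nat_lit 6666216), (nat_lit 6793494), (nat_lit 6921089), (nat_lit 7048825), (nat_lit 7176554), (nat_lit 7304145), (nat_lit 7431488), (nat_lit 7558485), (nat_lit 7685053)])
 (FT.cons (FT.leaf [(nat_lit 6316307), (nat_lit 6439687), (nat_lit 6564296), (nat_lit 6689814), (nat_lit 6815974), (nat_lit 6942551), (nat_lit 7069357), (nat_lit 7196230), (nat_lit 7323031), (nat_lit 7449639), (nat_lit 7575951), (nat_lit 7701878)]) (FT.cons (FT.leaf [(nat_lit 6589886), (nat_lit 6714049), (nat_lit 6839000), (nat_lit 6964489), (nat_lit 7090306), (nat_lit 7216273), (nat_lit 7342241), (nat_lit 7468080), (nat_lit 7593678), (nat_lit 7718939)]) (FT.cons (FT.leaf [(nat_lit 6862649), (nat_lit 6986961), (nat_lit 7111719), (nat_lit 7236724), (nat_lit 7361812), (nat_lit 7486842), (nat_lit 7611690), (nat_lit 7736257)]) (FT.cons (FT.leaf [(nat_lit 7133656), (nat_lit 7257630), (nat_lit 7381781), (nat_lit 7505953), (nat_lit 7630015), (nat_lit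 7753853)]) (FT.cons (FT.leaf [(nat_lit 7402196), (nat_lit 7525457), (nat_lit 7648685), (nat_lit 7771756)]) (FT.cons (FT.leaf [(nat_lit 7667737), (nat_lit 7789997)]) (FT.cons (FT.leaf [(nat_lit 7929886)]) (FT.cons (FT.leaf [(nat_lit 8188359)]) (FT.cons (FT.leaf [(nat_lit 8442953)]) (FT.cons (FT.leaf [(nat_lit 8693535)]) FT.nil)))))))))))))) (FT.cons (FT.cons (FT.leaf [(nat_lit 5802244), (nat_lit 5916249), (nat_lit 6033586), (nat_lit 6153519),
 (nat_lit 6275477), (nat_lit 6399009), (nat_lit 6523745), (nat_lit 6649378), (nat_lit 6775653), (nat_lit 6902353), (nat_lit 7029289), (nat_lit 7156302), (nat_lit 7283254), (nat_lit 7410026), (nat_lit 7536513), (nat_lit 7662627), (nat_lit 7788285)]) (FT.cons (FT.leaf [(nat_lit 6065924), (nat_lit 6183654), (nat_lit 6303739), (nat_lit 6425646), (nat_lit 6548952), (nat_lit 6673311), (nat_lit 6798440), (nat_lit 6924098), (nat_lit 7050082), (nat_lit 7176222), (nat_lit 7302366), (nat_lit 7428389), (nat_lit 7554178), (nat_lit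 7679638), (nat_lit 7804686), (nat_lit 7929249)]) (FT.cons (FT.leaf [(nat_lit 6333120), (nat_lit 6453204), (nat_lit 6574930), (nat_lit 6697898), (nat_lit 6821787), (nat_lit 6946329), (nat_lit 7071302), (nat_lit 7196516), (nat_lit 7321810), (nat_lit 7447048), (nat_lit 7572109), (nat_lit 7696892), (nat_lit 7821305), (nat_lit 7945274)]) (FT.cons (FT.leaf [(nat_lit 6601808), (nat_lit 6723238), (nat_lit 6845773), (nat_lit 6969110), (nat_lit 7092998), (nat_lit 7217228), (nat_lit 7341623), (nat_lit 7466034), (nat_lit 7590332), (nat_lit 7714405), (nat_lit 7838160), (nat_lit 7961514)]) (FT.cons (FT.leaf [(nat_lit 6870496), (nat_lit 6992516), (nat_lit 7115231), (nat_lit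
 7238405), (nat_lit 7361843), (nat_lit 7485379), (nat_lit 7608874), (nat_lit 7732206), (nat_lit 7855272), (nat_lit 7977983)]) (FT.cons (FT.leaf [(nat_lit 7138074), (nat_lit 7260107), (nat_lit 7382519), (nat_lit 7505124), (nat_lit 7627767), (nat_lit 7750318), (nat_lit 7872662), (nat_lit 7994705)]) (FT.cons (FT.leaf [(nat_lit 7403708), (nat_lit 7525315), (nat_lit 7647052), (nat_lit 7768775), (nat_lit 7890359), (nat_lit 8011700)]) (FT.cons (FT.leaf [(nat_lit 7666774), (nat_lit 7787614), (nat_lit 7908394), (nat_lit 8028994)]) (FT.cons (FT.leaf [(nat_lit 7926804), (nat_lit 8046621)]) (FT.cons (FT.leaf [(nat_lit 8183455)]) (FT.cons (FT.leaf [(nat_lit 8436479)]) (FT.cons (FT.leaf [(nat_lit 8685706)]) (FT.cons (FT.leaf [(nat_lit 8931020)]) FT.nil))))))))))))) (FT.cons (FT.cons (FT.leaf [(nat_lit 6353585), (nat_lit 6469840), (nat_lit 6588266), (nat_lit 6708353), (nat_lit 6829701), (nat_lit 6951983), (nat_lit 7074933), (nat_lit 7198327), (nat_lit 7321979), (nat_lit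 7445725), (nat_lit 7569429), (nat_lit 7692974), (nat_lit 7816256), (nat_lit 7939190), (nat_lit 8061696)]) (FT.cons (FT.leaf [(nat_lit 6616687), (nat_lit 6734994), (nat_lit 6854801), (nat_lit 6975731), (nat_lit 7097478), (nat_lit
 7219791), (nat_lit 7342462), (nat_lit 7465314), (nat_lit 7588198), (nat_lit 7710984), (nat_lit 7833565), (nat_lit 7955845), (nat_lit 8077742), (nat_lit 8199183)]) (FT.cons (FT.leaf [(nat_lit 6880785), (nat_lit 7000217), (nat_lit 7120649), (nat_lit 7241792), (nat_lit 7363412), (nat_lit 7485311), (nat_lit 7607325), (nat_lit 7729315), (nat_lit 7851159), (nat_lit 7972757), (nat_lit 8094018), (nat_lit 8214868)]) (FT.cons (FT.leaf [(nat_lit 7144542), (nat_lit 7264406), (nat_lit 7384888), (nat_lit 7505765), (nat_lit 7626854), (nat_lit 7747997), (nat_lit 7869066), (nat_lit 7989948), (nat_lit 8110545), (nat_lit 8230777)]) (FT.cons (FT.leaf [(nat_lit 7406963), (nat_lit 7526734), (nat_lit 7646828), (nat_lit 7767072), (nat_lit 7887318), (nat_lit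 8007445), (nat_lit 8127347), (nat_lit 8246933)]) (FT.cons (FT.leaf [(nat_lit 7667306), (nat_lit 7786583), (nat_lit 7905954), (nat_lit 8025281), (nat_lit 8144449), (nat_lit 8263359)]) (FT.cons (FT.leaf [(nat_lit 7925016), (nat_lit 8043491), (nat_lit 8161881), (nat_lit 8280077)]) (FT.cons (FT.leaf [(nat_lit 8179682), (nat_lit 8297120)]) (FT.cons (FT.leaf [(nat_lit 8431000)]) (FT.cons (FT.leaf [(nat_lit 8678755)]) (FT.cons (FT.leaf [(nat_lit 8922799)])
 FT.nil))))))))))) (FT.cons (FT.cons (FT.leaf [(nat_lit 6893909), (nat_lit 7010377), (nat_lit 7128225), (nat_lit 7247092), (nat_lit 7366689), (nat_lit 7486780), (nat_lit 7607169), (nat_lit 7727691), (nat_lit 7848205), (nat_lit 7968592), (nat_lit 8088750)]) (FT.cons (FT.leaf [(nat_lit 7153350), (nat_lit 7270762), (nat_lit 7389082), (nat_lit 7508039), (nat_lit 7627409), (nat_lit 7747009), (nat_lit 7866683), (nat_lit 7986300), (nat_lit 8105748), (nat_lit 8224931)]) (FT.cons (FT.leaf [(nat_lit 7412182), (nat_lit 7529897),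 (nat_lit 7648165), (nat_lit 7766776), (nat_lit 7885554), (nat_lit 8004354), (nat_lit 8123053), (nat_lit 8241545)]) (FT.cons (FT.leaf [(nat_lit 7669508), (nat_lit 7787046), (nat_lit 7904862), (nat_lit 8022791), (nat_lit 8140696), (nat_lit 8258460)]) (FT.cons (FT.leaf [(nat_lit 7924664), (nat_lit 8041657), (nat_lit 8158714), (nat_lit 8275706)]) (FT.cons (FT.leaf [(nat_lit 8177151), (nat_lit 8293319)]) (FT.cons (FT.leaf [(nat_lit 8426605)]) (FT.cons (FT.leaf [(nat_lit 8672759)]) (FT.cons (FT.leaf [(nat_lit 8915422)]) (FT.cons (FT.leaf [(nat_lit 9154463)]) FT.nil)))))))))) (FT.cons (FT.cons (FT.leaf [(nat_lit 7419647), (nat_lit 7535033), (nat_lit 7651252), (nat_lit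
 7768043), (nat_lit 7885197), (nat_lit 8002537), (nat_lit 8119919), (nat_lit 8237218), (nat_lit 8354331)]) (FT.cons (FT.leaf [(nat_lit 7673595), (nat_lit 7789182), (nat_lit 7905267), (nat_lit 8021649), (nat_lit 8138164), (nat_lit 8254675), (nat_lit 8371064), (nat_lit 8487233)]) (FT.cons (FT.leaf [(nat_lit 7925912), (nat_lit 8041256), (nat_lit 8156839), (nat_lit 8272507), (nat_lit 8388129), (nat_lit 8503594)]) (FT.cons (FT.leaf [(nat_lit 8175997), (nat_lit 8290759), (nat_lit 8405561), (nat_lit 8520281)]) (FT.cons (FT.leaf [(nat_lit 8423405), (nat_lit 8537326)]) (FT.cons (FT.leaf [(nat_lit 8667805)]) (FT.cons (FT.leaf [(nat_lit 8908960)]) (FT.cons (FT.leaf [(nat_lit 9146703)]) FT.nil)))))))) (FT.cons (FT.cons (FT.leaf [(nat_lit 7928971), (nat_lit 8042460), (nat_lit 8156401), (nat_lit 8270601), (nat_lit 8384906), (nat_lit 8499184), (nat_lit 8613326)]) (FT.cons (FT.leaf [(nat_lit 8176382), (nat_lit 8289576), (nat_lit 8402979), (nat_lit 8516442), (nat_lit 8629843),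 (nat_lit 8743076)]) (FT.cons (FT.leaf [(nat_lit 8421525), (nat_lit 8534111), (nat_lit 8646719), (nat_lit 8759230)]) (FT.cons (FT.leaf [(nat_lit 8663997), (nat_lit 8775737)]) (FT.cons (FT.leaf [(nat_lit 8903502)]) (FT.cons
 (FT.leaf [(nat_lit 9139825)]) FT.nil)))))) (FT.cons (FT.cons (FT.leaf [(nat_lit 8421126), (nat_lit 8532219), (nat_lit 8643496)]) (FT.cons (FT.leaf [(nat_lit 8661461), (nat_lit 8771929)]) (FT.cons (FT.leaf [(nat_lit 8899146)]) (FT.cons (FT.leaf [(nat_lit 9133911)]) FT.nil)))) (FT.cons (FT.cons (FT.leaf [(nat_lit 8896013)]) (FT.cons (FT.leaf [(nat_lit 9129058)]) FT.nil)) (FT.cons (FT.cons (FT.leaf [(nat_lit 9353936)]) FT.nil) (FT.cons (FT.cons (FT.leaf [(nat_lit 9795431)]) FT.nil) (FT.cons (FT.cons (FT.leaf [(nat_lit 10221167)]) FT.nil) (FT.cons (FT.cons (FT.leaf [(nat_lit 10631873)]) FT.nil) FT.nil)))))))))))) (FT.cons (FT.cons (FT.cons (FT.leaf [(nat_lit 6550671), (nat_lit 6657648), (nat_lit 6767681), (nat_lit 6880088), (nat_lit 6994349),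 (nat_lit 7110052), (nat_lit 7226862), (nat_lit 7344506), (nat_lit 7462750), (nat_lit 7581403), (nat_lit 7700295), (nat_lit 7819285), (nat_lit 7938250), (nat_lit 8057085), (nat_lit 8175692), (nat_lit 8293997), (nat_lit 8411923)]) (FT.cons (FT.leaf [(nat_lit 6797475), (nat_lit 6907831), (nat_lit 7020353), (nat_lit 7134551), (nat_lit 7250041), (nat_lit 7366510), (nat_lit 7483701), (nat_lit 7601398), (nat_lit 7719420), (nat_lit 7837611), (nat_lit
 7955839), (nat_lit 8073990), (nat_lit 8191964), (nat_lit 8309673), (nat_lit 8427046), (nat_lit 8544016)]) (FT.cons (FT.leaf [(nat_lit 7047412), (nat_lit 7159920), (nat_lit 7273948), (nat_lit 7389133), (nat_lit 7505183), (nat_lit 7621855), (nat_lit 7738948), (nat_lit 7856293), (nat_lit 7973744), (nat_lit 8091178), (nat_lit 8208487), (nat_lit 8325581), (nat_lit 8442377), (nat_lit 8558805)]) (FT.cons (FT.leaf [(nat_lit 7298704), (nat_lit 7412467), (nat_lit 7527269), (nat_lit 7642831), (nat_lit 7758928), (nat_lit 7875370),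 (nat_lit 7991998), (nat_lit 8108676), (nat_lit 8225289), (nat_lit 8341736), (nat_lit 8457931), (nat_lit 8573800)]) (FT.cons (FT.leaf [(nat_lit 7550049), (nat_lit 7664398), (nat_lit 7779416), (nat_lit 7894889), (nat_lit 8010639), (nat_lit 8126517), (nat_lit 8242394), (nat_lit 8358163), (nat_lit 8473730), (nat_lit 8589014)]) (FT.cons (FT.leaf [(nat_lit 7800481), (nat_lit 7914904), (nat_lit 8029711), (nat_lit 8144735), (nat_lit 8259833), (nat_lit 8374888), (nat_lit 8489795), (nat_lit 8604468)]) (FT.cons (FT.leaf [(nat_lit 8049270), (nat_lit 8163375), (nat_lit 8277643), (nat_lit 8391939), (nat_lit 8506150), (nat_lit 8620181)]) (FT.cons (FT.leaf [(nat_lit 8295867),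
 (nat_lit 8409353), (nat_lit 8522827), (nat_lit 8636180)]) (FT.cons (FT.leaf [(nat_lit 8539858), (nat_lit 8652493)]) (FT.cons (FT.leaf [(nat_lit 8780939)]) (FT.cons (FT.leaf [(nat_lit 9018881)]) (FT.cons (FT.leaf [(nat_lit 9253523)]) FT.nil)))))))))))) (FT.cons (FT.cons (FT.leaf [(nat_lit 7064785), (nat_lit 7173799), (nat_lit 7284826), (nat_lit 7397397), (nat_lit 7511145), (nat_lit 7625773), (nat_lit 7741042), (nat_lit 7856745), (nat_lit 7972715), (nat_lit 8088806), (nat_lit 8204895), (nat_lit 8320874), (nat_lit 8436652), (nat_lit 8552150), (nat_lit 8667296)]) (FT.cons (FT.leaf [(nat_lit 7311039), (nat_lit 7421960), (nat_lit 7534283), (nat_lit 7647663), (nat_lit 7761822), (nat_lit 7876532), (nat_lit 7991602), (nat_lit 8106874), (nat_lit 8222211), (nat_lit 8337498), (nat_lit 8452634), (nat_lit 8567536), (nat_lit 8682127), (nat_lit 8796342)]) (FT.cons (FT.leaf [(nat_lit 7558255), (nat_lit 7670251), (nat_lit 7783196), (nat_lit 7896828), (nat_lit 8010932), (nat_lit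 8125329), (nat_lit 8239869), (nat_lit 8354426), (nat_lit 8468889), (nat_lit 8583167), (nat_lit 8697178), (nat_lit 8810853)]) (FT.cons (FT.leaf [(nat_lit 7805252), (nat_lit 7917704), (nat_lit 8030760), (nat_lit 8144217),
 (nat_lit 8257907), (nat_lit 8371688), (nat_lit 8485441), (nat_lit 8599064), (nat_lit 8712468), (nat_lit 8825579)]) (FT.cons (FT.leaf [(nat_lit 8051154), (nat_lit 8163593), (nat_lit 8276368), (nat_lit 8389322), (nat_lit 8502321), (nat_lit 8615252), (nat_lit 8728020), (nat_lit 8840540)]) (FT.cons (FT.leaf [(nat_lit 8295306), (nat_lit 8407370), (nat_lit 8519564), (nat_lit 8631762), (nat_lit 8743856), (nat_lit 8855756)]) (FT.cons (FT.leaf [(nat_lit 8537213), (nat_lit 8648627), (nat_lit 8760007), (nat_lit 8871252)]) (FT.cons (FT.leaf [(nat_lit 8776506), (nat_lit 8887056)]) (FT.cons (FT.leaf [(nat_lit 9012911)]) (FT.cons (FT.leaf [(nat_lit 9246227)]) (FT.cons (FT.leaf [(nat_lit 9476311)]) FT.nil))))))))))) (FT.cons (FT.cons (FT.leaf [(nat_lit 7569097),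 (nat_lit 7678387), (nat_lit 7788979), (nat_lit 7900541), (nat_lit 8012809), (nat_lit 8125567), (nat_lit 8238634), (nat_lit 8351861), (nat_lit 8465120), (nat_lit 8578303), (nat_lit 8691316)]) (FT.cons (FT.leaf [(nat_lit 7812199), (nat_lit 7922414), (nat_lit 8033503), (nat_lit 8145214), (nat_lit 8257344), (nat_lit 8369724), (nat_lit 8482212), (nat_lit 8594688), (nat_lit 8707050), (nat_lit 8819211)]) (FT.cons (FT.leaf [(nat_lit 8054865),
 (nat_lit 8165429), (nat_lit 8276543), (nat_lit 8388011), (nat_lit 8499676), (nat_lit 8611402), (nat_lit 8723076), (nat_lit 8834603)]) (FT.cons (FT.leaf [(nat_lit 8296297), (nat_lit 8406777), (nat_lit 8517554), (nat_lit 8628479), (nat_lit 8739424), (nat_lit 8850283)]) (FT.cons (FT.leaf [(nat_lit 8535901), (nat_lit 8645963), (nat_lit 8756128), (nat_lit 8866277)]) (FT.cons (FT.leaf [(nat_lit 8773230), (nat_lit 8882619)]) (FT.cons (FT.leaf [(nat_lit 9007952)]) (FT.cons (FT.leaf [(nat_lit 9239818)]) (FT.cons (FT.leaf [(nat_lit 9468652)])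 (FT.cons (FT.leaf [(nat_lit 9694327)]) FT.nil)))))))))) (FT.cons (FT.cons (FT.leaf [(nat_lit 8060666), (nat_lit 8169101), (nat_lit 8278343), (nat_lit 8388153), (nat_lit 8498337), (nat_lit 8608734), (nat_lit 8719211), (nat_lit 8829652), (nat_lit 8939964)]) (FT.cons (FT.leaf [(nat_lit 8299043), (nat_lit 8407739), (nat_lit 8516936), (nat_lit 8626450), (nat_lit 8736128), (nat_lit 8845844), (nat_lit 8955490), (nat_lit 9064976)]) (FT.cons (FT.leaf [(nat_lit 8536080), (nat_lit 8644634), (nat_lit 8753452), (nat_lit 8862392), (nat_lit 8971331), (nat_lit 9080170)]) (FT.cons (FT.leaf [(nat_lit 8771235), (nat_lit 8879338), (nat_lit 8987522), (nat_lit 9095673)])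
 (FT.cons (FT.leaf [(nat_lit 9004103), (nat_lit 9111519)]) (FT.cons (FT.leaf [(nat_lit 9234382)]) (FT.cons (FT.leaf [(nat_lit 9461848)]) (FT.cons (FT.leaf [(nat_lit 9686343)]) FT.nil)))))))) (FT.cons (FT.cons (FT.leaf [(nat_lit 8537946), (nat_lit 8644800), (nat_lit 8752113), (nat_lit 8859710), (nat_lit 8967446)]) (FT.cons (FT.leaf [(nat_lit 8770675), (nat_lit 8877340), (nat_lit 8984242), (nat_lit 9091243)]) (FT.cons (FT.leaf [(nat_lit 9001488), (nat_lit 9107678)]) (FT.cons (FT.leaf [(nat_lit 9230015)]) (FT.cons (FT.leaf [(nat_lit 9455980)]) (FT.cons (FT.leaf [(nat_lit 9679183)]) FT.nil)))))) (FT.cons (FT.cons (FT.leaf [(nat_lit 9000254), (nat_lit 9105071), (nat_lit 9210101)]) (FT.cons (FT.leaf [(nat_lit 9226835), (nat_lit 9331159)]) (FT.cons (FT.leaf [(nat_lit 9451143)]) (FT.cons (FT.leaf [(nat_lit 9672924)]) FT.nil)))) (FT.cons (FT.cons (FT.leaf [(nat_lit 9447449)]) (FT.cons (FT.leaf [(nat_lit 9667658)]) FT.nil)) (FT.cons (FT.cons (FT.leaf [(nat_lit 9879729)])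 FT.nil) (FT.cons (FT.cons (FT.leaf [(nat_lit 10297492)]) FT.nil) (FT.cons (FT.cons (FT.leaf [(nat_lit 10701261)]) FT.nil) FT.nil)))))))))) (FT.cons (FT.cons (FT.cons (FT.leaf [(nat_lit 7721353), (nat_lit 7824065), (nat_lit
 7928656), (nat_lit 8034694), (nat_lit 8141840), (nat_lit 8249822), (nat_lit 8358417), (nat_lit 8467441), (nat_lit 8576738), (nat_lit 8686175), (nat_lit 8795642), (nat_lit 8905038), (nat_lit 9014282)]) (FT.cons (FT.leaf [(nat_lit 7952977), (nat_lit 8057476), (nat_lit 8163297), (nat_lit 8270120), (nat_lit 8377688), (nat_lit 8485792), (nat_lit 8594258), (nat_lit 8702939), (nat_lit 8811712), (nat_lit 8920472), (nat_lit 9029125), (nat_lit 9137594)]) (FT.cons (FT.leaf [(nat_lit 8185544), (nat_lit 8291080), (nat_lit 8397521), (nat_lit 8504626), (nat_lit 8612197), (nat_lit 8720070), (nat_lit 8828109), (nat_lit 8936194), (nat_lit 9044228), (nat_lit 9152123)]) (FT.cons (FT.leaf [(nat_lit 8418000), (nat_lit 8524010), (nat_lit 8630611), (nat_lit 8737614),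 (nat_lit 8844866), (nat_lit 8952235), (nat_lit 9059613), (nat_lit 9166904)]) (FT.cons (FT.leaf [(nat_lit 8649561), (nat_lit 8755620), (nat_lit 8862025), (nat_lit 8968630), (nat_lit 9075311), (nat_lit 9181965)]) (FT.cons (FT.leaf [(nat_lit 8879638), (nat_lit 8985418), (nat_lit 9091355), (nat_lit 9197330)]) (FT.cons (FT.leaf [(nat_lit 9107785), (nat_lit 9213035)]) (FT.cons (FT.leaf [(nat_lit 9333667)]) (FT.cons (FT.leaf [(nat_lit 9557032)])
 FT.nil))))))))) (FT.cons (FT.cons (FT.leaf [(nat_lit 8194516), (nat_lit 8297564), (nat_lit 8401845), (nat_lit 8507053), (nat_lit 8612945), (nat_lit 8719318), (nat_lit 8826010), (nat_lit 8932881), (nat_lit 9039816), (nat_lit 9146713), (nat_lit 9253485)]) (FT.cons (FT.leaf [(nat_lit 8423427), (nat_lit 8527382), (nat_lit 8632177), (nat_lit 8737581), (nat_lit 8843404), (nat_lit 8949492), (nat_lit 9055712), (nat_lit 9161957), (nat_lit 9268130), (nat_lit 9374151)]) (FT.cons (FT.leaf [(nat_lit 8652044), (nat_lit 8756382), (nat_lit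 8861262), (nat_lit 8966505), (nat_lit 9071964), (nat_lit 9177514), (nat_lit 9283052), (nat_lit 9388488)]) (FT.cons (FT.leaf [(nat_lit 8879648), (nat_lit 8983973), (nat_lit 9088610), (nat_lit 9193418), (nat_lit 9298281), (nat_lit 9403099)]) (FT.cons (FT.leaf [(nat_lit 9105701), (nat_lit 9209709), (nat_lit 9313849), (nat_lit 9418009)]) (FT.cons (FT.leaf [(nat_lit 9329796), (nat_lit 9433252)]) (FT.cons (FT.leaf [(nat_lit 9551628)]) (FT.cons (FT.leaf [(nat_lit 9770968)]) FT.nil)))))))) (FT.cons (FT.cons (FT.leaf [(nat_lit 8656482), (nat_lit 8758858), (nat_lit 8862017), (nat_lit 8965737), (nat_lit 9069836), (nat_lit 9174168), (nat_lit 9278607), (nat_lit 9383048),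
 (nat_lit 9487403)]) (FT.cons (FT.leaf [(nat_lit 8881299), (nat_lit 8983982), (nat_lit 9087165), (nat_lit 9190676), (nat_lit 9294375), (nat_lit 9398144), (nat_lit 9501883), (nat_lit 9605508)]) (FT.cons (FT.leaf [(nat_lit 9105011), (nat_lit 9207630), (nat_lit 9310531), (nat_lit 9413579), (nat_lit 9516664), (nat_lit 9619690)]) (FT.cons (FT.leaf [(nat_lit 9327123), (nat_lit 9429395), (nat_lit 9531778), (nat_lit 9634167)]) (FT.cons (FT.leaf [(nat_lit 9547264), (nat_lit 9648969)]) (FT.cons (FT.leaf [(nat_lit 9765153)]) FT.nil)))))) (FT.cons (FT.cons (FT.leaf [(nat_lit 9105901), (nat_lit 9206951), (nat_lit 9308464), (nat_lit 9410275), (nat_lit 9512250)]) (FT.cons (FT.leaf [(nat_lit 9325794), (nat_lit 9426738), (nat_lit 9527939), (nat_lit 9629266)]) (FT.cons (FT.leaf [(nat_lit 9544055), (nat_lit 9644628)]) (FT.cons (FT.leaf [(nat_lit 9760341)]) FT.nil)))) (FT.cons (FT.cons (FT.leaf [(nat_lit 9542142), (nat_lit 9641444), (nat_lit 9740981)]) (FT.cons (FT.leaf [(nat_lit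 9756643), (nat_lit 9855557)]) FT.nil)) (FT.cons (FT.cons (FT.leaf [(nat_lit 9965032)]) FT.nil) (FT.cons (FT.cons (FT.leaf [(nat_lit 10374688)]) FT.nil) (FT.cons (FT.cons (FT.leaf [(nat_lit 10771410)]) FT.nil) FT.nil))))))))
 (FT.cons (FT.cons (FT.cons (FT.leaf [(nat_lit 8777333), (nat_lit 8874897), (nat_lit 8973635), (nat_lit 9073260), (nat_lit 9173546), (nat_lit 9274307), (nat_lit 9375391), (nat_lit 9476669), (nat_lit 9578032)]) (FT.cons (FT.leaf [(nat_lit 8993795), (nat_lit 9092247), (nat_lit 9191509), (nat_lit 9291366), (nat_lit 9391640), (nat_lit 9492188), (nat_lit 9592889), (nat_lit 9693639)]) (FT.cons (FT.leaf [(nat_lit 9210077), (nat_lit 9308938), (nat_lit 9408332), (nat_lit 9508093), (nat_lit 9608083), (nat_lit 9708188)]) (FT.cons (FT.leaf [(nat_lit 9425527), (nat_lit 9524430), (nat_lit 9623654), (nat_lit 9723068)]) (FT.cons (FT.leaf [(nat_lit 9639650), (nat_lit 9738317)]) (FT.cons (FT.leaf [(nat_lit 9852076)]) (FT.cons (FT.leaf [(nat_lit 10062521)])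 FT.nil))))))) (FT.cons (FT.cons (FT.leaf [(nat_lit 9213384), (nat_lit 9310427), (nat_lit 9408227), (nat_lit 9506579), (nat_lit 9605314), (nat_lit 9704294), (nat_lit 9803401)]) (FT.cons (FT.leaf [(nat_lit 9426273), (nat_lit 9523656), (nat_lit 9621534), (nat_lit 9719748), (nat_lit 9818166), (nat_lit 9916679)]) (FT.cons (FT.leaf [(nat_lit 9638247), (nat_lit 9735627), (nat_lit 9833301), (nat_lit 9931142)]) (FT.cons (FT.leaf [(nat_lit 9848852),
 (nat_lit 9945967)]) (FT.cons (FT.leaf [(nat_lit 10057743)]) (FT.cons (FT.leaf [(nat_lit 10264661)]) FT.nil)))))) (FT.cons (FT.cons (FT.leaf [(nat_lit 9638329), (nat_lit 9734253), (nat_lit 9830638), (nat_lit 9927332), (nat_lit 10024209)]) (FT.cons (FT.leaf [(nat_lit 9846891), (nat_lit 9942774), (nat_lit 10038925), (nat_lit 10135227)]) (FT.cons (FT.leaf [(nat_lit 10054051), (nat_lit 10149646)]) (FT.cons (FT.leaf [(nat_lit 10259493)]) FT.nil)))) (FT.cons (FT.cons (FT.leaf [(nat_lit 10051579)]) (FT.cons (FT.leaf [(nat_lit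 10255373)]) FT.nil)) (FT.cons (FT.cons (FT.leaf [(nat_lit 10452938)]) FT.nil) (FT.cons (FT.cons (FT.leaf [(nat_lit 10842465)]) FT.nil) FT.nil)))))) (FT.cons (FT.cons (FT.cons (FT.leaf [(nat_lit 9736411), (nat_lit 9828717), (nat_lit 9921757), (nat_lit 10015337), (nat_lit 10109300)]) (FT.cons (FT.leaf [(nat_lit 9938715), (nat_lit 10031384), (nat_lit 10124543), (nat_lit 10218042)]) (FT.cons (FT.leaf [(nat_lit 10140260), (nat_lit 10232975)]) (FT.cons (FT.leaf [(nat_lit 10340623)]) (FT.cons (FT.leaf [(nat_lit 10539488)]) FT.nil))))) (FT.cons (FT.cons (FT.leaf [(nat_lit 10139667), (nat_lit 10231022), (nat_lit 10322838)]) (FT.cons (FT.leaf [(nat_lit 10338139), (nat_lit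
 10429506)]) (FT.cons (FT.leaf [(nat_lit 10535401)]) (FT.cons (FT.leaf [(nat_lit 10731156)]) FT.nil)))) (FT.cons (FT.cons (FT.leaf [(nat_lit 10532466)]) (FT.cons (FT.leaf [(nat_lit 10726691)]) FT.nil)) (FT.cons (FT.cons (FT.leaf [(nat_lit 10914599)]) FT.nil) FT.nil)))) (FT.cons (FT.cons (FT.cons (FT.leaf [(nat_lit 10613547)]) FT.nil) (FT.cons (FT.cons (FT.leaf [(nat_lit 10988019)]) FT.nil) FT.nil)) (FT.cons (FT.cons (FT.cons (FT.leaf [(nat_lit 11420928)]) FT.nil) FT.nil) (FT.cons (FT.cons (FT.cons (FT.leaf [(nat_lit 12168429)]) FT.nil) FT.nil) (FT.cons (FT.cons (FT.cons (FT.leaf [(nat_lit 12864079)]) FT.nil) FT.nil) FT.nil))))))))))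

def f184_0_600 : FT := (FT.cons (FT.cons (FT.cons (FT.leaf [(nat_lit 4375143), (nat_lit 4474823), (nat_lit 4582552), (nat_lit 4696591), (nat_lit 4815680), (nat_lit 4938856), (nat_lit 5065354), (nat_lit 5194545), (nat_lit 5325908), (nat_lit 5459004), (nat_lit 5593457), (nat_lit 5728942), (nat_lit 5865182), (nat_lit 6001934), (nat_lit 6138987), (nat_lit 6276156), (nat_lit 6413281), (nat_lit 6550222), (nat_lit 6686854)]) (FT.cons (FT.leaf [(nat_lit 4626257), (nat_lit 4736758), (nat_lit 4852978), (nat_lit 4973748), (nat_lit 5098176), (nat_lit 5225554), (nat_lit 5355307), (nat_lit 5486955), (nat_lit 5620094), (nat_lit 5754380), (nat_lit 5889516), (nat_lit 6025249), (nat_lit 6161355), (nat_lit 6297643), (nat_lit 6433943), (nat_lit 6570111), (nat_lit 6706017), (nat_lit 6841549)]) (FT.cons (FT.leaf [(nat_lit 4892229), (nat_lit 5010174), (nat_lit 5132236), (nat_lit 5257584), (nat_lit 5385561), (nat_lit 5515633), (nat_lit 5647356), (nat_lit 5780360), (nat_lit 5914325),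 (nat_lit 6048981), (nat_lit 6184094), (nat_lit 6319458), (nat_lit 6454900), (nat_lit 6590265), (nat_lit 6725420), (nat_lit 6860245)]) (FT.cons (FT.leaf [(nat_lit 5167800), (nat_lit 5290827), (nat_lit 5416813), (nat_lit 5545146), (nat_lit 5675328),
 (nat_lit 5806948), (nat_lit 5939662), (nat_lit 6073175), (nat_lit 6207239), (nat_lit 6341635), (nat_lit 6476180), (nat_lit 6610708), (nat_lit 6745081), (nat_lit 6879175)]) (FT.cons (FT.leaf [(nat_lit 5449250), (nat_lit 5575636), (nat_lit 5704117), (nat_lit 5834231), (nat_lit 5965594), (nat_lit 6097887), (nat_lit 6230836), (nat_lit 6364211), (nat_lit 6497812), (nat_lit 6631467), (nat_lit 6765026), (nat_lit 6898361)]) (FT.cons (FT.leaf [(nat_lit 5733860), (nat_lit 5862313), (nat_lit 5992205), (nat_lit 6123181), (nat_lit 6254939), (nat_lit 6387229), (nat_lit 6519835), (nat_lit 6652572), (nat_lit 6785281), (nat_lit 6917824)]) (FT.cons (FT.leaf [(nat_lit 6019599), (nat_lit 6149139), (nat_lit 6279613), (nat_lit 6410742),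 (nat_lit 6542291), (nat_lit 6674058), (nat_lit 6805874), (nat_lit 6937590)]) (FT.cons (FT.leaf [(nat_lit 6304936), (nat_lit 6434813), (nat_lit 6565231), (nat_lit 6695969), (nat_lit 6826841), (nat_lit 6957688)]) (FT.cons (FT.leaf [(nat_lit 6588717), (nat_lit 6718353), (nat_lit 6848223), (nat_lit 6978151)]) (FT.cons (FT.leaf [(nat_lit 6870069), (nat_lit 6999021)]) (FT.cons (FT.leaf [(nat_lit 7148340)]) (FT.cons (FT.leaf [(nat_lit 7423046)]) (FT.cons (FT.leaf [(nat_lit
 7693834)]) (FT.cons (FT.leaf [(nat_lit 7960457)]) FT.nil)))))))))))))) (FT.cons (FT.cons (FT.leaf [(nat_lit 4937639), (nat_lit 5048567), (nat_lit 5164774), (nat_lit 5285126), (nat_lit 5408773), (nat_lit 5535045), (nat_lit 5663404), (nat_lit 5793406), (nat_lit 5924679), (nat_lit 6056907), (nat_lit 6189822), (nat_lit 6323192), (nat_lit 6456816), (nat_lit 6590523), (nat_lit 6724160), (nat_lit 6857595), (nat_lit 6990716)]) (FT.cons (FT.leaf [(nat_lit 5202940), (nat_lit 5320471), (nat_lit 5441766),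 (nat_lit 5566029), (nat_lit 5692637), (nat_lit 5821090), (nat_lit 5950978), (nat_lit 6081954), (nat_lit 6213729), (nat_lit 6346054), (nat_lit 6478715), (nat_lit 6611529), (nat_lit 6744337), (nat_lit 6876999), (nat_lit 7009394), (nat_lit 7141420)]) (FT.cons (FT.leaf [(nat_lit 5476241), (nat_lit 5598206), (nat_lit 5722852), (nat_lit 5849597), (nat_lit 5977973), (nat_lit 6107600), (nat_lit 6238155), (nat_lit 6369369), (nat_lit 6501014), (nat_lit 6632891), (nat_lit 6764831), (nat_lit 6896687), (nat_lit 7028329), (nat_lit 7159651)]) (FT.cons (FT.leaf [(nat_lit 5754232), (nat_lit 5879062), (nat_lit 6005772), (nat_lit 6133926), (nat_lit 6263165), (nat_lit 6393192), (nat_lit 6523756), (nat_lit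
 6654643), (nat_lit 6785671), (nat_lit 6916683), (nat_lit 7047543), (nat_lit 7178133)]) (FT.cons (FT.leaf [(nat_lit 6034508), (nat_lit 6161037), (nat_lit 6288842), (nat_lit 6417587), (nat_lit 6546994), (nat_lit 6676829), (nat_lit 6806894), (nat_lit 6937019), (nat_lit 7067058), (nat_lit 7196886)]) (FT.cons (FT.leaf [(nat_lit 6315285), (nat_lit 6442633), (nat_lit 6570791), (nat_lit 6699501), (nat_lit 6828542), (nat_lit 6957729), (nat_lit 7086906), (nat_lit 7215935)]) (FT.cons (FT.leaf [(nat_lit 6595225), (nat_lit 6722719), (nat_lit 6850664), (nat_lit 6978856), (nat_lit 7107120), (nat_lit 7235310)]) (FT.cons (FT.leaf [(nat_lit 6873322), (nat_lit 7000446), (nat_lit 7127742), (nat_lit 7255045)]) (FT.cons (FT.leaf [(nat_lit 7148818), (nat_lit 7275178)]) (FT.cons (FT.leaf [(nat_lit 7421148)]) (FT.cons (FT.leaf [(nat_lit 7689897)]) (FT.cons (FT.leaf [(nat_lit 7954764)]) (FT.cons (FT.leaf [(nat_lit 8215539)]) FT.nil))))))))))))) (FT.cons (FT.cons (FT.leaf [(nat_lit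 5508194), (nat_lit 5624935), (nat_lit 5745137), (nat_lit 5868040), (nat_lit 5993053), (nat_lit 6119704), (nat_lit 6247609), (nat_lit 6376447), (nat_lit 6505952), (nat_lit 6635892), (nat_lit 6766075), (nat_lit 6896331), (nat_lit
 7026515), (nat_lit 7156500), (nat_lit 7286180)]) (FT.cons (FT.leaf [(nat_lit 5778525), (nat_lit 5899166), (nat_lit 6022252), (nat_lit 6147230), (nat_lit 6273661), (nat_lit 6401184), (nat_lit 6529504), (nat_lit 6658368), (nat_lit 6787566), (nat_lit 6916915), (nat_lit 7046262), (nat_lit 7175472), (nat_lit 7304426), (nat_lit 7433026)]) (FT.cons (FT.leaf [(nat_lit 6052596), (nat_lit 6175699), (nat_lit 6300501), (nat_lit 6426590), (nat_lit 6553629), (nat_lit 6681341), (nat_lit 6809492), (nat_lit 6937884), (nat_lit 7066349), (nat_lit 7194745), (nat_lit 7322944), (nat_lit 7450841)]) (FT.cons (FT.leaf [(nat_lit 6328261), (nat_lit 6452765), (nat_lit 6578408), (nat_lit 6704874), (nat_lit 6831904), (nat_lit 6959277), (nat_lit 7086812), (nat_lit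 7214351), (nat_lit 7341759), (nat_lit 7468922)]) (FT.cons (FT.leaf [(nat_lit 6603939), (nat_lit 6729046), (nat_lit 6854863), (nat_lit 6981146), (nat_lit 7107691), (nat_lit 7234325), (nat_lit 7360900), (nat_lit 7487293)]) (FT.cons (FT.leaf [(nat_lit 6878448), (nat_lit 7003552), (nat_lit 7129036), (nat_lit 7254705), (nat_lit 7380400), (nat_lit 7505984)]) (FT.cons (FT.leaf [(nat_lit 7150904), (nat_lit 7275541), (nat_lit 7400299), (nat_lit 7525026)])
 (FT.cons (FT.leaf [(nat_lit 7420644), (nat_lit 7544459)]) (FT.cons (FT.leaf [(nat_lit 7687176)]) (FT.cons (FT.leaf [(nat_lit 7950139)]) (FT.cons (FT.leaf [(nat_lit 8209275)]) FT.nil))))))))))) (FT.cons (FT.cons (FT.leaf [(nat_lit 6074442), (nat_lit 6193571), (nat_lit 6314945), (nat_lit 6438037), (nat_lit 6562430), (nat_lit 6687787), (nat_lit 6813829), (nat_lit 6940323), (nat_lit 7067073), (nat_lit 7193913), (nat_lit 7320696)]) (FT.cons (FT.leaf [(nat_lit 6344282), (nat_lit 6465541), (nat_lit 6588347), (nat_lit 6712309),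 (nat_lit 6837109), (nat_lit 6962486), (nat_lit 7088222), (nat_lit 7214135), (nat_lit 7340068), (nat_lit 7465890)]) (FT.cons (FT.leaf [(nat_lit 6615167), (nat_lit 6737585), (nat_lit 6861028), (nat_lit 6985197), (nat_lit 7109847), (nat_lit 7234775), (nat_lit 7359809), (nat_lit 7484803)]) (FT.cons (FT.leaf [(nat_lit 6885685), (nat_lit 7008534), (nat_lit 7132010), (nat_lit 7255881), (nat_lit 7379958), (nat_lit 7504077)]) (FT.cons (FT.leaf [(nat_lit 7154784), (nat_lit 7277513), (nat_lit 7400562), (nat_lit 7523750)]) (FT.cons (FT.leaf [(nat_lit 7421680), (nat_lit 7543869)]) (FT.cons (FT.leaf [(nat_lit 7685789)]) (FT.cons (FT.leaf [(nat_lit 7946679)]) (FT.cons (FT.leaf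
 [(nat_lit 8204034)]) (FT.cons (FT.leaf [(nat_lit 8457630)]) FT.nil)))))))))) (FT.cons (FT.cons (FT.leaf [(nat_lit 6629314), (nat_lit 6748656), (nat_lit 6869415), (nat_lit 6991217), (nat_lit 7113765), (nat_lit 7236812), (nat_lit 7360154), (nat_lit 7483619), (nat_lit 7607062)]) (FT.cons (FT.leaf [(nat_lit 6895332), (nat_lit 7015634), (nat_lit 7136864), (nat_lit 7258740), (nat_lit 7381030), (nat_lit 7503543), (nat_lit 7626117), (nat_lit 7748618)]) (FT.cons (FT.leaf [(nat_lit 7160686), (nat_lit 7281281), (nat_lit 7402433), (nat_lit 7523924), (nat_lit 7645572), (nat_lit 7767228)]) (FT.cons (FT.leaf [(nat_lit 7424435), (nat_lit 7544819), (nat_lit 7665474), (nat_lit 7786230)]) (FT.cons (FT.leaf [(nat_lit 7685879), (nat_lit 7805668)]) (FT.cons (FT.leaf [(nat_lit 7944498)]) (FT.cons (FT.leaf [(nat_lit 8199910)]) (FT.cons (FT.leaf [(nat_lit 8451836)]) FT.nil)))))))) (FT.cons (FT.cons (FT.leaf [(nat_lit 7168900), (nat_lit 7287079), (nat_lit 7406104), (nat_lit 7525708),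 (nat_lit 7645669), (nat_lit 7765808), (nat_lit 7885975)]) (FT.cons (FT.leaf [(nat_lit 7429130), (nat_lit 7547490), (nat_lit 7666350), (nat_lit 7785500), (nat_lit 7904772), (nat_lit 8024022)]) (FT.cons (FT.leaf [(nat_lit
 7687617), (nat_lit 7805696), (nat_lit 7924006), (nat_lit 8042386)]) (FT.cons (FT.leaf [(nat_lit 7943733), (nat_lit 8061178)]) (FT.cons (FT.leaf [(nat_lit 8197013)]) (FT.cons (FT.leaf [(nat_lit 8447115)]) FT.nil)))))) (FT.cons (FT.cons (FT.leaf [(nat_lit 7691216), (nat_lit 7807374), (nat_lit 7923982)]) (FT.cons (FT.leaf [(nat_lit 7944551), (nat_lit 8060372)]) (FT.cons (FT.leaf [(nat_lit 8195476)]) (FT.cons (FT.leaf [(nat_lit 8443572)]) FT.nil)))) (FT.cons (FT.cons (FT.leaf [(nat_lit 8195458)]) (FT.cons (FT.leaf [(nat_lit 8441336)]) FT.nil)) (FT.cons (FT.cons (FT.leaf [(nat_lit 8681538)]) FT.nil) (FT.cons (FT.cons (FT.leaf [(nat_lit 9149799)]) FT.nil) (FT.cons (FT.cons (FT.leaf [(nat_lit 9600837)]) FT.nil) FT.nil))))))))))) (FT.cons (FT.cons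 (FT.cons (FT.leaf [(nat_lit 5749733), (nat_lit 5854062), (nat_lit 5963178), (nat_lit 6076029), (nat_lit 6191835), (nat_lit 6309988), (nat_lit 6430002), (nat_lit 6551481), (nat_lit 6674094), (nat_lit 6797563), (nat_lit 6921652), (nat_lit 7046157), (nat_lit 7170904), (nat_lit 7295741), (nat_lit 7420539), (nat_lit 7545179), (nat_lit 7669564)]) (FT.cons (FT.leaf [(nat_lit 5998302), (nat_lit 6108504), (nat_lit 6222109), (nat_lit 6338388), (nat_lit
 6456777), (nat_lit 6576822), (nat_lit 6698159), (nat_lit 6820477), (nat_lit 6943521), (nat_lit 7067072), (nat_lit 7190941), (nat_lit 7314968), (nat_lit 7439011), (nat_lit 7562951), (nat_lit 7686681), (nat_lit 7810109)]) (FT.cons (FT.leaf [(nat_lit 6253775), (nat_lit 6367911), (nat_lit 6484475), (nat_lit 6602939), (nat_lit 6722880), (nat_lit 6843956), (nat_lit 6965881), (nat_lit 7088416), (nat_lit 7211356), (nat_lit 7334529), (nat_lit 7457784), (nat_lit 7580992), (nat_lit 7704041), (nat_lit 7826832)]) (FT.cons (FT.leaf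 [(nat_lit 6513270), (nat_lit 6629958), (nat_lit 6748358), (nat_lit 6868077), (nat_lit 6988793), (nat_lit 7110239), (nat_lit 7232192), (nat_lit 7354462), (nat_lit 7476887), (nat_lit 7599328), (nat_lit 7721665), (nat_lit 7843793)]) (FT.cons (FT.leaf [(nat_lit 6774720), (nat_lit 6892939), (nat_lit 7012334), (nat_lit 7132602), (nat_lit 7253496), (nat_lit 7374805), (nat_lit 7496352), (nat_lit 7617985), (nat_lit 7739577), (nat_lit 7861014)]) (FT.cons (FT.leaf [(nat_lit 7036597), (nat_lit 7155580), (nat_lit 7275329), (nat_lit 7395607), (nat_lit 7516218), (nat_lit 7636997), (nat_lit 7757803), (nat_lit 7878514)]) (FT.cons (FT.leaf [(nat_lit 7297762), (nat_lit 7416925),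
 (nat_lit 7536534), (nat_lit 7656403), (nat_lit 7776377), (nat_lit 7896324)]) (FT.cons (FT.leaf [(nat_lit 7557355), (nat_lit 7676248), (nat_lit 7795336), (nat_lit 7914474)]) (FT.cons (FT.leaf [(nat_lit 7814726), (nat_lit 7933002)]) (FT.cons (FT.leaf [(nat_lit 8069387)]) (FT.cons (FT.leaf [(nat_lit 8320973)]) (FT.cons (FT.leaf [(nat_lit 8569217)]) FT.nil)))))))))))) (FT.cons (FT.cons (FT.leaf [(nat_lit 6281243), (nat_lit 6390617), (nat_lit 6503149), (nat_lit 6618138), (nat_lit 6735046), (nat_lit 6853447), (nat_lit 6972994), (nat_lit 7093401), (nat_lit 7214428), (nat_lit 7335872), (nat_lit 7457559), (nat_lit 7579341), (nat_lit 7701088), (nat_lit 7822691), (nat_lit 7944050)]) (FT.cons (FT.leaf [(nat_lit 6533841), (nat_lit 6646725), (nat_lit 6761848), (nat_lit 6878702), (nat_lit 6996890), (nat_lit 7116088), (nat_lit 7236028), (nat_lit 7356487), (nat_lit 7477275), (nat_lit 7598232), (nat_lit 7719217), (nat_lit 7840113), (nat_lit 7960815), (nat_lit 8081234)]) (FT.cons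 (FT.leaf [(nat_lit 6789727), (nat_lit 6904845), (nat_lit 7021529), (nat_lit 7139406), (nat_lit 7258170), (nat_lit 7377572), (nat_lit 7497403), (nat_lit 7617485), (nat_lit 7737668), (nat_lit 7857823), (nat_lit 7977839),
 (nat_lit 8097619)]) (FT.cons (FT.leaf [(nat_lit 7047035), (nat_lit 7163449), (nat_lit 7280929), (nat_lit 7399188), (nat_lit 7517991), (nat_lit 7637142), (nat_lit 7756475), (nat_lit 7875849), (nat_lit 7995144), (nat_lit 8114257)]) (FT.cons (FT.leaf [(nat_lit 7304397), (nat_lit 7421405), (nat_lit 7539096), (nat_lit 7657248), (nat_lit 7775675), (nat_lit 7894223), (nat_lit 8012759), (nat_lit 8131171)]) (FT.cons (FT.leaf [(nat_lit 7560791), (nat_lit 7677861), (nat_lit 7795316), (nat_lit 7912983), (nat_lit 8030715), (nat_lit 8148388)]) (FT.cons (FT.leaf [(nat_lit 7815453), (nat_lit 7932173), (nat_lit 8049048), (nat_lit 8165939)]) (FT.cons (FT.leaf [(nat_lit 8067803), (nat_lit 8183860)]) (FT.cons (FT.leaf [(nat_lit 8317410)]) (FT.cons (FT.leaf [(nat_lit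 8563952)]) (FT.cons (FT.leaf [(nat_lit 8807195)]) FT.nil))))))))))) (FT.cons (FT.cons (FT.leaf [(nat_lit 6808225), (nat_lit 6919728), (nat_lit 7033304), (nat_lit 7148469), (nat_lit 7264846), (nat_lit 7382127), (nat_lit 7500061), (nat_lit 7618438), (nat_lit 7737080), (nat_lit 7855839), (nat_lit 7974584)]) (FT.cons (FT.leaf [(nat_lit 7060297), (nat_lit 7173768), (nat_lit 7288679), (nat_lit 7404675), (nat_lit 7521467), (nat_lit 7638819),
 (nat_lit 7756533), (nat_lit 7874446), (nat_lit 7992416), (nat_lit 8110323)]) (FT.cons (FT.leaf [(nat_lit 7313363), (nat_lit 7427935), (nat_lit 7543477), (nat_lit 7659719), (nat_lit 7776438), (nat_lit 7893449), (nat_lit 8010597), (nat_lit 8127749)]) (FT.cons (FT.leaf [(nat_lit 7566184), (nat_lit 7681211), (nat_lit 7796850), (nat_lit 7912893), (nat_lit 8029164), (nat_lit 8145516)]) (FT.cons (FT.leaf [(nat_lit 7817841), (nat_lit 7932833), (nat_lit 8048162), (nat_lit 8163661)]) (FT.cons (FT.leaf [(nat_lit 8067647), (nat_lit 8182229)])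 (FT.cons (FT.leaf [(nat_lit 8315084)]) (FT.cons (FT.leaf [(nat_lit 8559767)]) (FT.cons (FT.leaf [(nat_lit 8801411)]) (FT.cons (FT.leaf [(nat_lit 9039809)]) FT.nil)))))))))) (FT.cons (FT.cons (FT.leaf [(nat_lit 7325038), (nat_lit 7436812), (nat_lit 7549918), (nat_lit 7664015), (nat_lit 7778831), (nat_lit 7894141), (nat_lit 8009761), (nat_lit 8125534), (nat_lit 8241328)]) (FT.cons (FT.leaf [(nat_lit 7573813), (nat_lit 7686525), (nat_lit 7800128), (nat_lit 7914361), (nat_lit 8029015), (nat_lit 8143914), (nat_lit 8258913), (nat_lit 8373887)]) (FT.cons (FT.leaf [(nat_lit 7822106), (nat_lit 7935160), (nat_lit 8048767), (nat_lit 8162727), (nat_lit 8276877),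
 (nat_lit 8391078)]) (FT.cons (FT.leaf [(nat_lit 8069085), (nat_lit 8182027), (nat_lit 8295264), (nat_lit 8408639)]) (FT.cons (FT.leaf [(nat_lit 8314128), (nat_lit 8426614)]) (FT.cons (FT.leaf [(nat_lit 8556770)]) (FT.cons (FT.leaf [(nat_lit 8796666)]) (FT.cons (FT.leaf [(nat_lit 9033559)]) FT.nil)))))))) (FT.cons (FT.cons (FT.leaf [(nat_lit 7828519), (nat_lit 7939370), (nat_lit 8051042), (nat_lit 8163286), (nat_lit 8275903), (nat_lit 8388729), (nat_lit 8501621)]) (FT.cons (FT.leaf [(nat_lit 8072325), (nat_lit 8183424), (nat_lit 8295026), (nat_lit 8406940), (nat_lit 8519011), (nat_lit 8631107)]) (FT.cons (FT.leaf [(nat_lit 8314703), (nat_lit 8425631), (nat_lit 8536817), (nat_lit 8648113)]) (FT.cons (FT.leaf [(nat_lit 8555089), (nat_lit 8665525)]) (FT.cons (FT.leaf [(nat_lit 8793061)]) (FT.cons (FT.leaf [(nat_lit 9028307)]) FT.nil)))))) (FT.cons (FT.cons (FT.leaf [(nat_lit 8317011), (nat_lit 8426182), (nat_lit 8535813)]) (FT.cons (FT.leaf [(nat_lit 8554880),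 (nat_lit 8663832)]) (FT.cons (FT.leaf [(nat_lit 8790722)]) (FT.cons (FT.leaf [(nat_lit 9024152)]) FT.nil)))) (FT.cons (FT.cons (FT.leaf [(nat_lit 8789800)]) (FT.cons (FT.leaf [(nat_lit 9021214)]) FT.nil)) (FT.cons (FT.cons
 (FT.leaf [(nat_lit 9246752)]) FT.nil) (FT.cons (FT.cons (FT.leaf [(nat_lit 9688094)]) FT.nil) (FT.cons (FT.cons (FT.leaf [(nat_lit 10114268)]) FT.nil) FT.nil)))))))))) (FT.cons (FT.cons (FT.cons (FT.leaf [(nat_lit 6990829), (nat_lit 7093758), (nat_lit 7199597), (nat_lit 7307700), (nat_lit 7417572), (nat_lit 7528822), (nat_lit 7641135), (nat_lit 7754250), (nat_lit 7867952), (nat_lit 7982056), (nat_lit 8096406), (nat_lit 8210869), (nat_lit 8325328)]) (FT.cons (FT.leaf [(nat_lit 7227983), (nat_lit 7334121), (nat_lit 7442330), (nat_lit 7552144), (nat_lit 7663197), (nat_lit 7775194), (nat_lit 7887893), (nat_lit 8001090), (nat_lit 8114613), (nat_lit 8228318), (nat_lit 8342079), (nat_lit 8455787)]) (FT.cons (FT.leaf [(nat_lit 7468106), (nat_lit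 7576304), (nat_lit 7685962), (nat_lit 7796736), (nat_lit 7908348), (nat_lit 8020570), (nat_lit 8133211), (nat_lit 8246112), (nat_lit 8359135), (nat_lit 8472165)]) (FT.cons (FT.leaf [(nat_lit 7709547), (nat_lit 7818964), (nat_lit 7929387), (nat_lit 8040552), (nat_lit 8152245), (nat_lit 8264289), (nat_lit 8376531), (nat_lit 8488844)]) (FT.cons (FT.leaf [(nat_lit 7951097), (nat_lit 8061105), (nat_lit 8171771), (nat_lit 8282892), (nat_lit 8394300),
 (nat_lit 8505853)]) (FT.cons (FT.leaf [(nat_lit 8191855), (nat_lit 8301977), (nat_lit 8412487), (nat_lit 8523228)]) (FT.cons (FT.leaf [(nat_lit 8431146), (nat_lit 8541013)]) (FT.cons (FT.leaf [(nat_lit 8668455)]) (FT.cons (FT.leaf [(nat_lit 8903397)]) FT.nil))))))))) (FT.cons (FT.cons (FT.leaf [(nat_lit 7483874), (nat_lit 7588760), (nat_lit 7695576), (nat_lit 7803877), (nat_lit 7913315), (nat_lit 8023608), (nat_lit 8134528), (nat_lit 8245882), (nat_lit 8357511), (nat_lit 8469275), (nat_lit 8581061)]) (FT.cons (FT.leaf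 [(nat_lit 7720569), (nat_lit 7827293), (nat_lit 7935370), (nat_lit 8044473), (nat_lit 8154336), (nat_lit 8264744), (nat_lit 8375517), (nat_lit 8486503), (nat_lit 8597576), (nat_lit 8708623)]) (FT.cons (FT.leaf [(nat_lit 7958231), (nat_lit 8066012), (nat_lit 8174718), (nat_lit 8284100), (nat_lit 8393953), (nat_lit 8504107), (nat_lit 8614422), (nat_lit 8724776)]) (FT.cons (FT.leaf [(nat_lit 8195759), (nat_lit 8304015), (nat_lit 8412870), (nat_lit 8522130), (nat_lit 8631636), (nat_lit 8741253)]) (FT.cons (FT.leaf [(nat_lit 8432335), (nat_lit 8540624), (nat_lit 8649259), (nat_lit 8758090)]) (FT.cons (FT.leaf [(nat_lit 8667345), (nat_lit 8775328)]) (FT.cons (FT.leaf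
 [(nat_lit 8900325)]) (FT.cons (FT.leaf [(nat_lit 9130927)]) FT.nil)))))))) (FT.cons (FT.cons (FT.leaf [(nat_lit 7967892), (nat_lit 8073107), (nat_lit 8179583), (nat_lit 8287005), (nat_lit 8395120), (nat_lit 8503725), (nat_lit 8612648), (nat_lit 8721745), (nat_lit 8830898)]) (FT.cons (FT.leaf [(nat_lit 8201748), (nat_lit 8307883), (nat_lit 8414874), (nat_lit 8522481), (nat_lit 8630511), (nat_lit 8738803), (nat_lit 8847222), (nat_lit 8955654)]) (FT.cons (FT.leaf [(nat_lit 8435274), (nat_lit 8541787), (nat_lit 8648847), (nat_lit 8756271), (nat_lit 8863905), (nat_lit 8971624)]) (FT.cons (FT.leaf [(nat_lit 8667722), (nat_lit 8774202), (nat_lit 8880992), (nat_lit 8987948)]) (FT.cons (FT.leaf [(nat_lit 8898531), (nat_lit 9004665)]) (FT.cons (FT.leaf [(nat_lit 9127281)]) FT.nil)))))) (FT.cons (FT.cons (FT.leaf [(nat_lit 8440218), (nat_lit 8544708), (nat_lit 8649992), (nat_lit 8755843), (nat_lit 8862075)]) (FT.cons (FT.leaf [(nat_lit 8669781), (nat_lit 8774568),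 (nat_lit 8879857), (nat_lit 8985474)]) (FT.cons (FT.leaf [(nat_lit 8898167), (nat_lit 9002868)]) (FT.cons (FT.leaf [(nat_lit 9124865)]) FT.nil)))) (FT.cons (FT.cons (FT.leaf [(nat_lit 8899422), (nat_lit 9002506), (nat_lit
 9106055)]) (FT.cons (FT.leaf [(nat_lit 9123826), (nat_lit 9226780)]) FT.nil)) (FT.cons (FT.cons (FT.leaf [(nat_lit 9344850)]) FT.nil) (FT.cons (FT.cons (FT.leaf [(nat_lit 9776332)]) FT.nil) (FT.cons (FT.cons (FT.leaf [(nat_lit 10194009)]) FT.nil) FT.nil)))))))) (FT.cons (FT.cons (FT.cons (FT.leaf [(nat_lit 8110231), (nat_lit 8209323), (nat_lit 8310225), (nat_lit 8412523), (nat_lit 8515894), (nat_lit 8620079), (nat_lit 8724868), (nat_lit 8830081), (nat_lit 8935574), (nat_lit 9041220), (nat_lit 9146911)]) (FT.cons (FT.leaf [(nat_lit 8333490), (nat_lit 8434314), (nat_lit 8536416), (nat_lit 8639492), (nat_lit 8743297), (nat_lit 8847633), (nat_lit 8952332), (nat_lit 9057257), (nat_lit 9162288), (nat_lit 9267326)]) (FT.cons (FT.leaf [(nat_lit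 8557703), (nat_lit 8659546), (nat_lit 8762273), (nat_lit 8865653), (nat_lit 8969498), (nat_lit 9073651), (nat_lit 9177981), (nat_lit 9282376)]) (FT.cons (FT.leaf [(nat_lit 8781875), (nat_lit 8884207), (nat_lit 8987123), (nat_lit 9090445), (nat_lit 9194024), (nat_lit 9297737)]) (FT.cons (FT.leaf [(nat_lit 9005269), (nat_lit 9107687), (nat_lit 9210458), (nat_lit 9313440)]) (FT.cons (FT.leaf [(nat_lit 9227330), (nat_lit 9329525)]) (FT.cons (FT.leaf
 [(nat_lit 9447638)]) FT.nil))))))) (FT.cons (FT.cons (FT.leaf [(nat_lit 8565698), (nat_lit 8665172), (nat_lit 8765844), (nat_lit 8867420), (nat_lit 8969669), (nat_lit 9072397), (nat_lit 9175450), (nat_lit 9278693), (nat_lit 9382016)]) (FT.cons (FT.leaf [(nat_lit 8786512), (nat_lit 8886888), (nat_lit 8988087), (nat_lit 9089887), (nat_lit 9192109), (nat_lit 9294604), (nat_lit 9397246), (nat_lit 9499931)]) (FT.cons (FT.leaf [(nat_lit 9007119), (nat_lit 9107900), (nat_lit 9209219), (nat_lit 9310906), (nat_lit 9412820),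 (nat_lit 9514843)]) (FT.cons (FT.leaf [(nat_lit 9226840), (nat_lit 9327649), (nat_lit 9428776), (nat_lit 9530090)]) (FT.cons (FT.leaf [(nat_lit 9445165), (nat_lit 9545713)]) (FT.cons (FT.leaf [(nat_lit 9661709)]) FT.nil)))))) (FT.cons (FT.cons (FT.leaf [(nat_lit 9010850), (nat_lit 9109759), (nat_lit 9209438), (nat_lit 9309675), (nat_lit 9410295)]) (FT.cons (FT.leaf [(nat_lit 9227927), (nat_lit 9327170), (nat_lit 9426912), (nat_lit 9526991)]) (FT.cons (FT.leaf [(nat_lit 9444032), (nat_lit 9543256)]) (FT.cons (FT.leaf [(nat_lit 9658696)]) FT.nil)))) (FT.cons (FT.cons (FT.leaf [(nat_lit 9444420), (nat_lit 9542145), (nat_lit 9640335)]) (FT.cons (FT.leaf [(nat_lit 9656975),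
 (nat_lit 9754641)]) FT.nil)) (FT.cons (FT.cons (FT.leaf [(nat_lit 9865797)]) FT.nil) (FT.cons (FT.cons (FT.leaf [(nat_lit 10274790)]) FT.nil) FT.nil)))))) (FT.cons (FT.cons (FT.cons (FT.leaf [(nat_lit 9124652), (nat_lit 9219054), (nat_lit 9314597), (nat_lit 9411008), (nat_lit 9508068), (nat_lit 9605601), (nat_lit 9703459)]) (FT.cons (FT.leaf [(nat_lit 9333958), (nat_lit 9429242), (nat_lit 9525319), (nat_lit 9621983), (nat_lit 9719065), (nat_lit 9816426)]) (FT.cons (FT.leaf [(nat_lit 9543156), (nat_lit 9638864), (nat_lit 9735101), (nat_lit 9831707)]) (FT.cons (FT.leaf [(nat_lit 9751625), (nat_lit 9847409)]) (FT.cons (FT.leaf [(nat_lit 9958897)]) FT.nil))))) (FT.cons (FT.cons (FT.leaf [(nat_lit 9545873), (nat_lit 9639841), (nat_lit 9734555), (nat_lit 9829815), (nat_lit 9925460)]) (FT.cons (FT.leaf [(nat_lit 9751904), (nat_lit 9846232), (nat_lit 9941054), (nat_lit 10036217)]) (FT.cons (FT.leaf [(nat_lit 9957129), (nat_lit 10051491)]) (FT.cons (FT.leaf [(nat_lit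 10161115)]) FT.nil)))) (FT.cons (FT.cons (FT.leaf [(nat_lit 9956794)]) (FT.cons (FT.leaf [(nat_lit 10158832)]) FT.nil)) (FT.cons (FT.cons (FT.leaf [(nat_lit 10356843)]) FT.nil) FT.nil)))) (FT.cons (FT.cons (FT.cons (FT.leaf
 [(nat_lit 10049704)]) FT.nil) (FT.cons (FT.cons (FT.leaf [(nat_lit 10440451)]) FT.nil) FT.nil)) (FT.cons (FT.cons (FT.cons (FT.leaf [(nat_lit 10898618)]) FT.nil) FT.nil) (FT.cons (FT.cons (FT.cons (FT.leaf [(nat_lit 11682283)]) FT.nil) FT.nil) (FT.cons (FT.cons (FT.cons (FT.leaf [(nat_lit 12409616)]) FT.nil) FT.nil) FT.nil)))))))))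

def f184_0_682 : FT := (FT.cons (FT.cons (FT.cons (FT.leaf [(nat_lit 4633942), (nat_lit 4731236), (nat_lit 4836363), (nat_lit 4947629), (nat_lit 5063810), (nat_lit 5183970), (nat_lit 5307366), (nat_lit 5433393), (nat_lit 5561545), (nat_lit 5691399), (nat_lit 5822592), (nat_lit 5954812), (nat_lit 6087789), (nat_lit 6221293), (nat_lit 6355116), (nat_lit 6489085), (nat_lit 6623039), (nat_lit 6756848), (nat_lit 6890388)]) (FT.cons (FT.leaf [(nat_lit 4878870), (nat_lit 4986683), (nat_lit 5100066), (nat_lit 5217880), (nat_lit 5339262), (nat_lit 5463525), (nat_lit 5590113), (nat_lit 5718561), (nat_lit 5848480), (nat_lit 5979537), (nat_lit 6111447), (nat_lit 6243962), (nat_lit 6376870), (nat_lit 6509984), (nat_lit 6643143), (nat_lit 6776202), (nat_lit 6909040), (nat_lit 7041547)]) (FT.cons (FT.leaf [(nat_lit 5138229), (nat_lit 5253291), (nat_lit 5372370), (nat_lit 5494657), (nat_lit 5619518), (nat_lit 5746435), (nat_lit 5874980), (nat_lit 6004793), (nat_lit 6135567),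 (nat_lit 6267041), (nat_lit 6398986), (nat_lit 6531208), (nat_lit 6663535), (nat_lit 6795819), (nat_lit 6927929), (nat_lit 7059753)]) (FT.cons (FT.leaf [(nat_lit 5406945), (nat_lit 5526975), (nat_lit 5649900), (nat_lit 5775128), (nat_lit 5902175),
 (nat_lit 6030646), (nat_lit 6160207), (nat_lit 6290572), (nat_lit 6421502), (nat_lit 6552787), (nat_lit 6684245), (nat_lit 6815719), (nat_lit 6947074), (nat_lit 7078191)]) (FT.cons (FT.leaf [(nat_lit 5681441), (nat_lit 5804775), (nat_lit 5930171), (nat_lit 6057180), (nat_lit 6185430), (nat_lit 6314612), (nat_lit 6444462), (nat_lit 6574756), (nat_lit 6705301), (nat_lit 6835930), (nat_lit 6966498), (nat_lit 7096879)]) (FT.cons (FT.leaf [(nat_lit 5959102), (nat_lit 6084497), (nat_lit 6211320), (nat_lit 6339223), (nat_lit 6467918), (nat_lit 6597161), (nat_lit 6726741), (nat_lit 6856481), (nat_lit 6986225), (nat_lit 7115840)]) (FT.cons (FT.leaf [(nat_lit 6237974), (nat_lit 6364485), (nat_lit 6491934), (nat_lit 6620051),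 (nat_lit 6748606), (nat_lit 6877407), (nat_lit 7006285), (nat_lit 7135099)]) (FT.cons (FT.leaf [(nat_lit 6516587), (nat_lit 6643488), (nat_lit 6770947), (nat_lit 6898748), (nat_lit 7026713), (nat_lit 7154684)]) (FT.cons (FT.leaf [(nat_lit 6793824), (nat_lit 6920556), (nat_lit 7047548), (nat_lit 7174629)]) (FT.cons (FT.leaf [(nat_lit 7068840), (nat_lit 7194973)]) (FT.cons (FT.leaf [(nat_lit 7340999)]) (FT.cons (FT.leaf [(nat_lit 7609827)]) (FT.cons (FT.leaf [(nat_lit
 7874974)]) (FT.cons (FT.leaf [(nat_lit 8136193)]) FT.nil)))))))))))))) (FT.cons (FT.cons (FT.leaf [(nat_lit 5181947), (nat_lit 5290189), (nat_lit 5403581), (nat_lit 5521021), (nat_lit 5641682), (nat_lit 5764917), (nat_lit 5890202), (nat_lit 6017108), (nat_lit 6145275), (nat_lit 6274398), (nat_lit 6404216), (nat_lit 6534507), (nat_lit 6665075), (nat_lit 6795752), (nat_lit 6926393), (nat_lit 7056870), (nat_lit 7187071)]) (FT.cons (FT.leaf [(nat_lit 5440705), (nat_lit 5555398), (nat_lit 5673771),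 (nat_lit 5795050), (nat_lit 5918634), (nat_lit 6044036), (nat_lit 6170858), (nat_lit 6298766), (nat_lit 6427479), (nat_lit 6556756), (nat_lit 6686392), (nat_lit 6816206), (nat_lit 6946044), (nat_lit 7075771), (nat_lit 7205273), (nat_lit 7334443)]) (FT.cons (FT.leaf [(nat_lit 5707307), (nat_lit 5826352), (nat_lit 5948027), (nat_lit 6071768), (nat_lit 6197124), (nat_lit 6323721), (nat_lit 6451251), (nat_lit 6579453), (nat_lit 6708101), (nat_lit 6837008), (nat_lit 6966005), (nat_lit 7094953), (nat_lit 7223725), (nat_lit 7352214)]) (FT.cons (FT.leaf [(nat_lit 5978561), (nat_lit 6100441), (nat_lit 6224177), (nat_lit 6349345), (nat_lit 6475597), (nat_lit 6602646), (nat_lit 6730247), (nat_lit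
 6858193), (nat_lit 6986308), (nat_lit 7114437), (nat_lit 7242450), (nat_lit 7370231)]) (FT.cons (FT.leaf [(nat_lit 6252148), (nat_lit 6375737), (nat_lit 6500596), (nat_lit 6626401), (nat_lit 6752880), (nat_lit 6879805), (nat_lit 7006986), (nat_lit 7134256), (nat_lit 7261473), (nat_lit 7388515)]) (FT.cons (FT.leaf [(nat_lit 6526347), (nat_lit 6650794), (nat_lit 6776060), (nat_lit 6901894), (nat_lit 7028081), (nat_lit 7154442), (nat_lit 7280823), (nat_lit 7407092)]) (FT.cons (FT.leaf [(nat_lit 6799866), (nat_lit 6924519), (nat_lit 7049643), (nat_lit 7175036), (nat_lit 7300533), (nat_lit 7425988)]) (FT.cons (FT.leaf [(nat_lit 7071730), (nat_lit 7196088), (nat_lit 7320643), (nat_lit 7445238)]) (FT.cons (FT.leaf [(nat_lit 7341200), (nat_lit 7464878)]) (FT.cons (FT.leaf [(nat_lit 7607725)]) (FT.cons (FT.leaf [(nat_lit 7870894)]) (FT.cons (FT.leaf [(nat_lit 8130407)]) (FT.cons (FT.leaf [(nat_lit 8386053)]) FT.nil))))))))))))) (FT.cons (FT.cons (FT.leaf [(nat_lit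 5738021), (nat_lit 5851990), (nat_lit 5969351), (nat_lit 6089364), (nat_lit 6211455), (nat_lit 6335166), (nat_lit 6460126), (nat_lit 6586023), (nat_lit 6712597), (nat_lit 6839625), (nat_lit 6966919), (nat_lit 7094315), (nat_lit
 7221671), (nat_lit 7348866), (nat_lit 7475792)]) (FT.cons (FT.leaf [(nat_lit 6001851), (nat_lit 6119662), (nat_lit 6239880), (nat_lit 6361966), (nat_lit 6485493), (nat_lit 6610114), (nat_lit 6735537), (nat_lit 6861521), (nat_lit 6987860), (nat_lit 7114377), (nat_lit 7240922), (nat_lit 7367362), (nat_lit 7493586), (nat_lit 7619495)]) (FT.cons (FT.leaf [(nat_lit 6269427), (nat_lit 6389688), (nat_lit 6511633), (nat_lit 6634859), (nat_lit 6759040), (nat_lit 6883905), (nat_lit 7009227), (nat_lit 7134816), (nat_lit 7260506), (nat_lit 7386158), (nat_lit 7511649), (nat_lit 7636876)]) (FT.cons (FT.leaf [(nat_lit 6538675), (nat_lit 6660359), (nat_lit 6783183), (nat_lit 6906838), (nat_lit 7031072), (nat_lit 7155672), (nat_lit 7280459), (nat_lit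 7405280), (nat_lit 7530004), (nat_lit 7654519)]) (FT.cons (FT.leaf [(nat_lit 6808064), (nat_lit 6930399), (nat_lit 7053456), (nat_lit 7176996), (nat_lit 7300821), (nat_lit 7424763), (nat_lit 7548680), (nat_lit 7672447)]) (FT.cons (FT.leaf [(nat_lit 7076451), (nat_lit 7198846), (nat_lit 7321641), (nat_lit 7444647), (nat_lit 7567708), (nat_lit 7690689)]) (FT.cons (FT.leaf [(nat_lit 7342975), (nat_lit 7464978), (nat_lit 7587128), (nat_lit 7709278)])
 (FT.cons (FT.leaf [(nat_lit 7606987), (nat_lit 7728250)]) (FT.cons (FT.leaf [(nat_lit 7868003)]) (FT.cons (FT.leaf [(nat_lit 8125667)]) (FT.cons (FT.leaf [(nat_lit 8379719)]) FT.nil))))))))))) (FT.cons (FT.cons (FT.leaf [(nat_lit 6290379), (nat_lit 6406778), (nat_lit 6525391), (nat_lit 6645706), (nat_lit 6767317), (nat_lit 6889895), (nat_lit 7013170), (nat_lit 7136915), (nat_lit 7260939), (nat_lit 7385079), (nat_lit 7509195)]) (FT.cons (FT.leaf [(nat_lit 6553978), (nat_lit 6672510), (nat_lit 6792577), (nat_lit 6913798),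 (nat_lit 7035866), (nat_lit 7158525), (nat_lit 7281565), (nat_lit 7404806), (nat_lit 7528098), (nat_lit 7651307)]) (FT.cons (FT.leaf [(nat_lit 6818722), (nat_lit 6938442), (nat_lit 7059190), (nat_lit 7180676), (nat_lit 7302659), (nat_lit 7424944), (nat_lit 7547361), (nat_lit 7669768)]) (FT.cons (FT.leaf [(nat_lit 7083238), (nat_lit 7203440), (nat_lit 7324282), (nat_lit 7445539), (nat_lit 7567026), (nat_lit 7688583)]) (FT.cons (FT.leaf [(nat_lit 7346504), (nat_lit 7466650), (nat_lit 7587138), (nat_lit 7707790)]) (FT.cons (FT.leaf [(nat_lit 7607756), (nat_lit 7727436)]) (FT.cons (FT.leaf [(nat_lit 7866420)]) (FT.cons (FT.leaf [(nat_lit 8122067)]) (FT.cons (FT.leaf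
 [(nat_lit 8374387)]) (FT.cons (FT.leaf [(nat_lit 8623152)]) FT.nil)))))))))) (FT.cons (FT.cons (FT.leaf [(nat_lit 6832233), (nat_lit 6948960), (nat_lit 7067097), (nat_lit 7186282), (nat_lit 7306221), (nat_lit 7426675), (nat_lit 7547447), (nat_lit 7668367), (nat_lit 7789293)]) (FT.cons (FT.leaf [(nat_lit 7092381), (nat_lit 7210105), (nat_lit 7328762), (nat_lit 7448077), (nat_lit 7567826), (nat_lit 7687820), (nat_lit 7807903), (nat_lit 7927941)]) (FT.cons (FT.leaf [(nat_lit 7352012), (nat_lit 7470081), (nat_lit 7588722), (nat_lit 7707722), (nat_lit 7826904), (nat_lit 7946121)]) (FT.cons (FT.leaf [(nat_lit 7610207), (nat_lit 7728129), (nat_lit 7846345), (nat_lit 7964686)]) (FT.cons (FT.leaf [(nat_lit 7866280), (nat_lit 7983681)]) (FT.cons (FT.leaf [(nat_lit 8119721)]) (FT.cons (FT.leaf [(nat_lit 8370149)]) (FT.cons (FT.leaf [(nat_lit 8617289)]) FT.nil)))))))) (FT.cons (FT.cons (FT.leaf [(nat_lit 7359782), (nat_lit 7475498), (nat_lit 7592068), (nat_lit 7709229),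 (nat_lit 7826767), (nat_lit 7944507), (nat_lit 8062301)]) (FT.cons (FT.leaf [(nat_lit 7614556), (nat_lit 7730508), (nat_lit 7846973), (nat_lit 7963750), (nat_lit 8080672), (nat_lit 8197600)]) (FT.cons (FT.leaf [(nat_lit
 7867755), (nat_lit 7983489), (nat_lit 8099474), (nat_lit 8215555)]) (FT.cons (FT.leaf [(nat_lit 8118761), (nat_lit 8233931)]) (FT.cons (FT.leaf [(nat_lit 8367114)]) (FT.cons (FT.leaf [(nat_lit 8612477)]) FT.nil)))))) (FT.cons (FT.cons (FT.leaf [(nat_lit 7871053), (nat_lit 7984913), (nat_lit 8099238)]) (FT.cons (FT.leaf [(nat_lit 8119351), (nat_lit 8232937)]) (FT.cons (FT.leaf [(nat_lit 8365412)]) (FT.cons (FT.leaf [(nat_lit 8608819)]) FT.nil)))) (FT.cons (FT.cons (FT.leaf [(nat_lit 8365198)]) (FT.cons (FT.leaf [(nat_lit 8606443)]) FT.nil)) (FT.cons (FT.cons (FT.leaf [(nat_lit 8842063)]) FT.nil) (FT.cons (FT.cons (FT.leaf [(nat_lit 9301913)]) FT.nil) (FT.cons (FT.cons (FT.leaf [(nat_lit 9745267)]) FT.nil) FT.nil))))))))))) (FT.cons (FT.cons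 (FT.cons (FT.leaf [(nat_lit 5970812), (nat_lit 6072822), (nat_lit 6179522), (nat_lit 6289881), (nat_lit 6403140), (nat_lit 6518705), (nat_lit 6636105), (nat_lit 6754955), (nat_lit 6874933), (nat_lit 6995767), (nat_lit 7117231), (nat_lit 7239125), (nat_lit 7361280), (nat_lit 7483548), (nat_lit 7605801), (nat_lit 7727929), (nat_lit 7849832)]) (FT.cons (FT.leaf [(nat_lit 6213771), (nat_lit 6321545), (nat_lit 6432657), (nat_lit 6546396), (nat_lit
 6662212), (nat_lit 6779667), (nat_lit 6898401), (nat_lit 7018118), (nat_lit 7138565), (nat_lit 7259531), (nat_lit 7380832), (nat_lit 7502313), (nat_lit 7623835), (nat_lit 7745282), (nat_lit 7866549), (nat_lit 7987547)]) (FT.cons (FT.leaf [(nat_lit 6463538), (nat_lit 6575187), (nat_lit 6689226), (nat_lit 6805139), (nat_lit 6922515), (nat_lit 7041021), (nat_lit 7160381), (nat_lit 7280358), (nat_lit 7400757), (nat_lit 7521408), (nat_lit 7642165), (nat_lit 7762900), (nat_lit 7883504), (nat_lit 8003884)]) (FT.cons (FT.leaf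 [(nat_lit 6717314), (nat_lit 6831496), (nat_lit 6947372), (nat_lit 7064557), (nat_lit 7182739), (nat_lit 7301657), (nat_lit 7421095), (nat_lit 7540868), (nat_lit 7660817), (nat_lit 7780807), (nat_lit 7900721), (nat_lit 8020455)]) (FT.cons (FT.leaf [(nat_lit 6973095), (nat_lit 7088818), (nat_lit 7205714), (nat_lit 7323487), (nat_lit 7441894), (nat_lit 7560731), (nat_lit 7679827), (nat_lit 7799031), (nat_lit 7918219), (nat_lit 8037282)]) (FT.cons (FT.leaf [(nat_lit 7229399), (nat_lit 7345920), (nat_lit 7463212), (nat_lit 7581046), (nat_lit 7699230), (nat_lit 7817604), (nat_lit 7936028), (nat_lit 8054386)]) (FT.cons (FT.leaf [(nat_lit 7485120), (nat_lit 7601868),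
 (nat_lit 7719076), (nat_lit 7836564), (nat_lit 7954179), (nat_lit 8071793)]) (FT.cons (FT.leaf [(nat_lit 7739419), (nat_lit 7855957), (nat_lit 7972710), (nat_lit 8089535)]) (FT.cons (FT.leaf [(nat_lit 7991663), (nat_lit 8107650)]) (FT.cons (FT.leaf [(nat_lit 8241370)]) (FT.cons (FT.leaf [(nat_lit 8488182)]) (FT.cons (FT.leaf [(nat_lit 8731831)]) FT.nil)))))))))))) (FT.cons (FT.cons (FT.leaf [(nat_lit 6490021), (nat_lit 6597032), (nat_lit 6707143), (nat_lit 6819673), (nat_lit 6934098), (nat_lit 7050002), (nat_lit 7167047), (nat_lit 7284956), (nat_lit 7403493), (nat_lit 7522462), (nat_lit 7641693), (nat_lit 7761040), (nat_lit 7880379), (nat_lit 7999601), (nat_lit 8118610)]) (FT.cons (FT.leaf [(nat_lit 6737092), (nat_lit 6847570), (nat_lit 6960253), (nat_lit 7074650), (nat_lit 7190372), (nat_lit 7307102), (nat_lit 7424582), (nat_lit 7542592), (nat_lit 7660948), (nat_lit 7779493), (nat_lit 7898091), (nat_lit 8016626), (nat_lit 8134996), (nat_lit 8253114)]) (FT.cons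 (FT.leaf [(nat_lit 6987466), (nat_lit 7100169), (nat_lit 7214425), (nat_lit 7329869), (nat_lit 7446203), (nat_lit 7563185), (nat_lit 7680609), (nat_lit 7798303), (nat_lit 7916120), (nat_lit 8033935), (nat_lit 8151637),
 (nat_lit 8269134)]) (FT.cons (FT.leaf [(nat_lit 7239330), (nat_lit 7353348), (nat_lit 7468430), (nat_lit 7584298), (nat_lit 7700721), (nat_lit 7817509), (nat_lit 7934499), (nat_lit 8051554), (nat_lit 8168556), (nat_lit 8285403)]) (FT.cons (FT.leaf [(nat_lit 7491354), (nat_lit 7606003), (nat_lit 7721343), (nat_lit 7837157), (nat_lit 7953265), (nat_lit 8069515), (nat_lit 8185778), (nat_lit 8301943)]) (FT.cons (FT.leaf [(nat_lit 7742544), (nat_lit 7857304), (nat_lit 7972465), (nat_lit 8087857), (nat_lit 8203336), (nat_lit 8318783)]) (FT.cons (FT.leaf [(nat_lit 7992152), (nat_lit 8106621), (nat_lit 8221266), (nat_lit 8335950)]) (FT.cons (FT.leaf [(nat_lit 8239611), (nat_lit 8353482)]) (FT.cons (FT.leaf [(nat_lit 8484495)]) (FT.cons (FT.leaf [(nat_lit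 8726486)]) (FT.cons (FT.leaf [(nat_lit 8965350)]) FT.nil))))))))))) (FT.cons (FT.cons (FT.leaf [(nat_lit 7005255), (nat_lit 7114435), (nat_lit 7225661), (nat_lit 7338464), (nat_lit 7452472), (nat_lit 7567387), (nat_lit 7682964), (nat_lit 7798997), (nat_lit 7915313), (nat_lit 8031767), (nat_lit 8148233)]) (FT.cons (FT.leaf [(nat_lit 7252026), (nat_lit 7363175), (nat_lit 7475754), (nat_lit 7589416), (nat_lit 7703880), (nat_lit 7818914),
 (nat_lit 7934328), (nat_lit 8049959), (nat_lit 8165668), (nat_lit 8281340)]) (FT.cons (FT.leaf [(nat_lit 7499872), (nat_lit 7612145), (nat_lit 7725390), (nat_lit 7839343), (nat_lit 7953786), (nat_lit 8068538), (nat_lit 8183447), (nat_lit 8298383)]) (FT.cons (FT.leaf [(nat_lit 7747585), (nat_lit 7860353), (nat_lit 7973743), (nat_lit 8087551), (nat_lit 8201605), (nat_lit 8315764)]) (FT.cons (FT.leaf [(nat_lit 7994269), (nat_lit 8107053), (nat_lit 8220189), (nat_lit 8333515)]) (FT.cons (FT.leaf [(nat_lit 8239251), (nat_lit 8351683)])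 (FT.cons (FT.leaf [(nat_lit 8482021)]) (FT.cons (FT.leaf [(nat_lit 8722200)]) (FT.cons (FT.leaf [(nat_lit 8959505)]) (FT.cons (FT.leaf [(nat_lit 9193726)]) FT.nil)))))))))) (FT.cons (FT.cons (FT.leaf [(nat_lit 7511043), (nat_lit 7620587), (nat_lit 7731455), (nat_lit 7843317), (nat_lit 7955903), (nat_lit 8068997), (nat_lit 8182415), (nat_lit 8296006), (nat_lit 8409642)]) (FT.cons (FT.leaf [(nat_lit 7754817), (nat_lit 7865327), (nat_lit 7976729), (nat_lit 8088772), (nat_lit 8201249), (nat_lit 8313989), (nat_lit 8426849), (nat_lit 8539707)]) (FT.cons (FT.leaf [(nat_lit 7998225), (nat_lit 8109117), (nat_lit 8220572), (nat_lit 8332397), (nat_lit 8444429),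
 (nat_lit 8556533)]) (FT.cons (FT.leaf [(nat_lit 8240454), (nat_lit 8351285), (nat_lit 8462425), (nat_lit 8573724)]) (FT.cons (FT.leaf [(nat_lit 8480891), (nat_lit 8591323)]) (FT.cons (FT.leaf [(nat_lit 8719080)]) (FT.cons (FT.leaf [(nat_lit 8954678)]) (FT.cons (FT.leaf [(nat_lit 9187431)]) FT.nil)))))))) (FT.cons (FT.cons (FT.leaf [(nat_lit 8004287), (nat_lit 8113028), (nat_lit 8222593), (nat_lit 8332742), (nat_lit 8443278), (nat_lit 8554038), (nat_lit 8664887)]) (FT.cons (FT.leaf [(nat_lit 8243423), (nat_lit 8352453), (nat_lit 8461997), (nat_lit 8571869), (nat_lit 8681916), (nat_lit 8792009)]) (FT.cons (FT.leaf [(nat_lit 8481262), (nat_lit 8590170), (nat_lit 8699353), (nat_lit 8808666)]) (FT.cons (FT.leaf [(nat_lit 8717250), (nat_lit 8825722)]) (FT.cons (FT.leaf [(nat_lit 8950971)]) (FT.cons (FT.leaf [(nat_lit 9182114)]) FT.nil)))))) (FT.cons (FT.cons (FT.leaf [(nat_lit 8483333), (nat_lit 8590525), (nat_lit 8698187)]) (FT.cons (FT.leaf [(nat_lit 8716866),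 (nat_lit 8823886)]) (FT.cons (FT.leaf [(nat_lit 8948506)]) (FT.cons (FT.leaf [(nat_lit 9177876)]) FT.nil)))) (FT.cons (FT.cons (FT.leaf [(nat_lit 8947433)]) (FT.cons (FT.leaf [(nat_lit 9174833)]) FT.nil)) (FT.cons (FT.cons
 (FT.leaf [(nat_lit 9396403)]) FT.nil) (FT.cons (FT.cons (FT.leaf [(nat_lit 9830413)]) FT.nil) (FT.cons (FT.cons (FT.leaf [(nat_lit 10249847)]) FT.nil) FT.nil)))))))))) (FT.cons (FT.cons (FT.cons (FT.leaf [(nat_lit 7182120), (nat_lit 7283013), (nat_lit 7386770), (nat_lit 7492758), (nat_lit 7600495), (nat_lit 7709598), (nat_lit 7819760), (nat_lit 7930726), (nat_lit 8042286), (nat_lit 8154259), (nat_lit 8266494), (nat_lit 8378857), (nat_lit 8491238)]) (FT.cons (FT.leaf [(nat_lit 7414527), (nat_lit 7518595), (nat_lit 7624706), (nat_lit 7732406), (nat_lit 7841338), (nat_lit 7951213), (nat_lit 8061793), (nat_lit 8172881), (nat_lit 8284310), (nat_lit 8395935), (nat_lit 8507634), (nat_lit 8619304)]) (FT.cons (FT.leaf [(nat_lit 7649917), (nat_lit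 7756039), (nat_lit 7863607), (nat_lit 7972287), (nat_lit 8081807), (nat_lit 8191943), (nat_lit 8302511), (nat_lit 8413352), (nat_lit 8524332), (nat_lit 8635340)]) (FT.cons (FT.leaf [(nat_lit 7886682), (nat_lit 7994037), (nat_lit 8102394), (nat_lit 8211500), (nat_lit 8321141), (nat_lit 8431145), (nat_lit 8541364), (nat_lit 8651672)]) (FT.cons (FT.leaf [(nat_lit 8123643), (nat_lit 8231617), (nat_lit 8340256), (nat_lit 8449359), (nat_lit 8558763),
 (nat_lit 8668329)]) (FT.cons (FT.leaf [(nat_lit 8359920), (nat_lit 8468047), (nat_lit 8576575), (nat_lit 8685348)]) (FT.cons (FT.leaf [(nat_lit 8594850), (nat_lit 8702769)]) (FT.cons (FT.leaf [(nat_lit 8827929)]) (FT.cons (FT.leaf [(nat_lit 9058777)]) FT.nil))))))))) (FT.cons (FT.cons (FT.leaf [(nat_lit 7665114), (nat_lit 7767999), (nat_lit 7872791), (nat_lit 7979057), (nat_lit 8086453), (nat_lit 8194707), (nat_lit 8303592), (nat_lit 8412923), (nat_lit 8522541), (nat_lit 8632314), (nat_lit 8742124)]) (FT.cons (FT.leaf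 [(nat_lit 7897250), (nat_lit 8001973), (nat_lit 8108040), (nat_lit 8215130), (nat_lit 8322985), (nat_lit 8431391), (nat_lit 8540174), (nat_lit 8649186), (nat_lit 8758301), (nat_lit 8867411)]) (FT.cons (FT.leaf [(nat_lit 8130419), (nat_lit 8236218), (nat_lit 8342941), (nat_lit 8450344), (nat_lit 8558229), (nat_lit 8666429), (nat_lit 8774804), (nat_lit 8883237)]) (FT.cons (FT.leaf [(nat_lit 8363545), (nat_lit 8469849), (nat_lit 8576758), (nat_lit 8684084), (nat_lit 8791669), (nat_lit 8899383)]) (FT.cons (FT.leaf [(nat_lit 8595827), (nat_lit 8702203), (nat_lit 8808938), (nat_lit 8915883)]) (FT.cons (FT.leaf [(nat_lit 8826662), (nat_lit 8932778)]) (FT.cons (FT.leaf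
 [(nat_lit 9055594)]) (FT.cons (FT.leaf [(nat_lit 9282279)]) FT.nil)))))))) (FT.cons (FT.cons (FT.leaf [(nat_lit 8139675), (nat_lit 8242964), (nat_lit 8347506), (nat_lit 8452994), (nat_lit 8559181), (nat_lit 8665865), (nat_lit 8772880), (nat_lit 8880086), (nat_lit 8987362)]) (FT.cons (FT.leaf [(nat_lit 8369216), (nat_lit 8473446), (nat_lit 8578533), (nat_lit 8684242), (nat_lit 8790384), (nat_lit 8896802), (nat_lit 9003362), (nat_lit 9109954)]) (FT.cons (FT.leaf [(nat_lit 8598521), (nat_lit 8703160), (nat_lit 8808354), (nat_lit 8913923), (nat_lit 9019717), (nat_lit 9125612)]) (FT.cons (FT.leaf [(nat_lit 8826854), (nat_lit 8931501), (nat_lit 9036468), (nat_lit 9141617)]) (FT.cons (FT.leaf [(nat_lit 9053665), (nat_lit 9158010)]) (FT.cons (FT.leaf [(nat_lit 9278541)]) FT.nil)))))) (FT.cons (FT.cons (FT.leaf [(nat_lit 8603183), (nat_lit 8705843), (nat_lit 8809300), (nat_lit 8913329), (nat_lit 9017751)]) (FT.cons (FT.leaf [(nat_lit 8828698), (nat_lit 8931686),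 (nat_lit 9035187), (nat_lit 9139025)]) (FT.cons (FT.leaf [(nat_lit 9053142), (nat_lit 9156084)]) (FT.cons (FT.leaf [(nat_lit 9276010)]) FT.nil)))) (FT.cons (FT.cons (FT.leaf [(nat_lit 9054209), (nat_lit 9155567), (nat_lit
 9257398)]) (FT.cons (FT.leaf [(nat_lit 9274833), (nat_lit 9376100)]) FT.nil)) (FT.cons (FT.cons (FT.leaf [(nat_lit 9492070)]) FT.nil) (FT.cons (FT.cons (FT.leaf [(nat_lit 9916563)]) FT.nil) (FT.cons (FT.cons (FT.leaf [(nat_lit 10327784)]) FT.nil) FT.nil)))))))) (FT.cons (FT.cons (FT.cons (FT.leaf [(nat_lit 8278091), (nat_lit 8375441), (nat_lit 8474581), (nat_lit 8575105), (nat_lit 8676698), (nat_lit 8779104), (nat_lit 8882118), (nat_lit 8985566), (nat_lit 9089303)]) (FT.cons (FT.leaf [(nat_lit 8497387), (nat_lit 8596467), (nat_lit 8696817), (nat_lit 8798138), (nat_lit 8900190), (nat_lit 9002777), (nat_lit 9105738), (nat_lit 9208935)]) (FT.cons (FT.leaf [(nat_lit 8717689), (nat_lit 8817802), (nat_lit 8918798), (nat_lit 9020451), (nat_lit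 9122575), (nat_lit 9225018)]) (FT.cons (FT.leaf [(nat_lit 8938024), (nat_lit 9038650), (nat_lit 9139865), (nat_lit 9241494)]) (FT.cons (FT.leaf [(nat_lit 9157669), (nat_lit 9258412)]) (FT.cons (FT.leaf [(nat_lit 9376077)]) (FT.cons (FT.leaf [(nat_lit 9592836)]) FT.nil))))))) (FT.cons (FT.cons (FT.leaf [(nat_lit 8725354), (nat_lit 8823146), (nat_lit 8922129), (nat_lit 9022015), (nat_lit 9122576), (nat_lit 9223623), (nat_lit 9325004)]) (FT.cons
 (FT.leaf [(nat_lit 8942405), (nat_lit 9041114), (nat_lit 9140646), (nat_lit 9240785), (nat_lit 9341353), (nat_lit 9442204)]) (FT.cons (FT.leaf [(nat_lit 9159323), (nat_lit 9258462), (nat_lit 9358145), (nat_lit 9458205)]) (FT.cons (FT.leaf [(nat_lit 9375442), (nat_lit 9474641)]) (FT.cons (FT.leaf [(nat_lit 9590260)]) (FT.cons (FT.leaf [(nat_lit 9803396)]) FT.nil)))))) (FT.cons (FT.cons (FT.leaf [(nat_lit 9162825), (nat_lit 9260130), (nat_lit 9358205), (nat_lit 9456843), (nat_lit 9555873)]) (FT.cons (FT.leaf [(nat_lit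 9376356), (nat_lit 9474020), (nat_lit 9572189), (nat_lit 9670703)]) (FT.cons (FT.leaf [(nat_lit 9589001), (nat_lit 9686677)]) (FT.cons (FT.leaf [(nat_lit 9800296)]) FT.nil)))) (FT.cons (FT.cons (FT.leaf [(nat_lit 9589237)]) (FT.cons (FT.leaf [(nat_lit 9798467)]) FT.nil)) (FT.cons (FT.cons (FT.leaf [(nat_lit 10003962)]) FT.nil) (FT.cons (FT.cons (FT.leaf [(nat_lit 10406777)]) FT.nil) FT.nil)))))) (FT.cons (FT.cons (FT.cons (FT.leaf [(nat_lit 9273842), (nat_lit 9366761), (nat_lit 9460814), (nat_lit 9555733), (nat_lit 9651304)]) (FT.cons (FT.leaf [(nat_lit 9479833), (nat_lit 9573645), (nat_lit 9668251), (nat_lit 9763446)]) (FT.cons (FT.leaf [(nat_lit 9685777), (nat_lit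
 9780033)]) (FT.cons (FT.leaf [(nat_lit 9891063)]) (FT.cons (FT.leaf [(nat_lit 10095230)]) FT.nil))))) (FT.cons (FT.cons (FT.leaf [(nat_lit 9688306), (nat_lit 9780855), (nat_lit 9874149)]) (FT.cons (FT.leaf [(nat_lit 9891202), (nat_lit 9984131)]) (FT.cons (FT.leaf [(nat_lit 10093363)]) (FT.cons (FT.leaf [(nat_lit 10294360)]) FT.nil)))) (FT.cons (FT.cons (FT.leaf [(nat_lit 10092906)]) (FT.cons (FT.leaf [(nat_lit 10291992)]) FT.nil)) (FT.cons (FT.cons (FT.leaf [(nat_lit 10487053)]) FT.nil) FT.nil)))) (FT.cons (FT.cons (FT.cons (FT.leaf [(nat_lit 10183772)]) FT.nil) (FT.cons (FT.cons (FT.leaf [(nat_lit 10568889)]) FT.nil) FT.nil)) (FT.cons (FT.cons (FT.cons (FT.leaf [(nat_lit 11020240)]) FT.nil) FT.nil) (FT.cons (FT.cons (FT.cons (FT.leaf [(nat_lit 11793513)]) FT.nil) FT.nil) (FT.cons (FT.cons (FT.cons (FT.leaf [(nat_lit 12512039)]) FT.nil) FT.nil) FT.nil)))))))))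

def f184_0_743 : FT := (FT.cons (FT.cons (FT.cons (FT.leaf [(nat_lit 4832505), (nat_lit 4927781), (nat_lit 5030728), (nat_lit 5139690), (nat_lit 5253474), (nat_lit 5371166), (nat_lit 5492043), (nat_lit 5615512), (nat_lit 5741085), (nat_lit 5868346), (nat_lit 5996943), (nat_lit 6126574), (nat_lit 6256976), (nat_lit 6387921), (nat_lit 6519210), (nat_lit 6650671), (nat_lit 6782151), (nat_lit 6913517), (nat_lit 7044653)]) (FT.cons (FT.leaf [(nat_lit 5072271), (nat_lit 5177857), (nat_lit 5288905), (nat_lit 5404306), (nat_lit 5523215), (nat_lit 5644964), (nat_lit 5769010), (nat_lit 5894901), (nat_lit 6022257), (nat_lit 6150754), (nat_lit 6280115), (nat_lit 6410098), (nat_lit 6540497), (nat_lit 6671127), (nat_lit 6801831), (nat_lit 6932469), (nat_lit 7062921), (nat_lit 7193080)]) (FT.cons (FT.leaf [(nat_lit 5326208), (nat_lit 5438918), (nat_lit 5555577), (nat_lit 5675397), (nat_lit 5797758), (nat_lit 5922156), (nat_lit 6048172), (nat_lit 6175457), (nat_lit 6303712),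 (nat_lit 6432679), (nat_lit 6562140), (nat_lit 6691902), (nat_lit 6821797), (nat_lit 6951680), (nat_lit 7081424), (nat_lit 7210918)]) (FT.cons (FT.leaf [(nat_lit 5589381), (nat_lit 5706995), (nat_lit 5827466), (nat_lit 5950214), (nat_lit 6074771),
 (nat_lit 6200747), (nat_lit 6327818), (nat_lit 6455708), (nat_lit 6584178), (nat_lit 6713026), (nat_lit 6842075), (nat_lit 6971170), (nat_lit 7100178), (nat_lit 7228983)]) (FT.cons (FT.leaf [(nat_lit 5858313), (nat_lit 5979212), (nat_lit 6102157), (nat_lit 6226707), (nat_lit 6352500), (nat_lit 6479235), (nat_lit 6606653), (nat_lit 6734536), (nat_lit 6862695), (nat_lit 6990967), (nat_lit 7119208), (nat_lit 7247297)]) (FT.cons (FT.leaf [(nat_lit 6130461), (nat_lit 6253436), (nat_lit 6377836), (nat_lit 6503325), (nat_lit 6629617), (nat_lit 6756475), (nat_lit 6883694), (nat_lit 7011098), (nat_lit 7138537), (nat_lit 7265879)]) (FT.cons (FT.leaf [(nat_lit 6403927), (nat_lit 6528055), (nat_lit 6653132), (nat_lit 6778892),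 (nat_lit 6905111), (nat_lit 7031599), (nat_lit 7158195), (nat_lit 7284756)]) (FT.cons (FT.leaf [(nat_lit 6677273), (nat_lit 6801848), (nat_lit 6926996), (nat_lit 7052512), (nat_lit 7178214), (nat_lit 7303954)]) (FT.cons (FT.leaf [(nat_lit 6949410), (nat_lit 7073882), (nat_lit 7198637), (nat_lit 7323507)]) (FT.cons (FT.leaf [(nat_lit 7219508), (nat_lit 7343454)]) (FT.cons (FT.leaf [(nat_lit 7486938)]) (FT.cons (FT.leaf [(nat_lit 7751230)]) FT.nil)))))))))))) (FT.cons
 (FT.cons (FT.leaf [(nat_lit 5368675), (nat_lit 5474722), (nat_lit 5585828), (nat_lit 5700916), (nat_lit 5819178), (nat_lit 5939982), (nat_lit 6062818), (nat_lit 6187268), (nat_lit 6312978), (nat_lit 6439653), (nat_lit 6567038), (nat_lit 6694913), (nat_lit 6823092), (nat_lit 6951407), (nat_lit 7079716), (nat_lit 7207895), (nat_lit 7335832)]) (FT.cons (FT.leaf [(nat_lit 5622135), (nat_lit 5734537), (nat_lit 5850563), (nat_lit 5969458), (nat_lit 6090633), (nat_lit 6213614), (nat_lit 6338013), (nat_lit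 6463503), (nat_lit 6589811), (nat_lit 6716700), (nat_lit 6843969), (nat_lit 6971442), (nat_lit 7098970), (nat_lit 7226418), (nat_lit 7353672), (nat_lit 7480634)]) (FT.cons (FT.leaf [(nat_lit 5883371), (nat_lit 6000081), (nat_lit 6119392), (nat_lit 6240753), (nat_lit 6363720), (nat_lit 6487932), (nat_lit 6613085), (nat_lit 6738925), (nat_lit 6865232), (nat_lit 6991820), (nat_lit 7118528), (nat_lit 7245216), (nat_lit 7371760), (nat_lit 7498058)]) (FT.cons (FT.leaf [(nat_lit 6149274), (nat_lit 6268815), (nat_lit 6390201), (nat_lit 6513018), (nat_lit 6636924), (nat_lit 6761640), (nat_lit 6886925), (nat_lit 7012577), (nat_lit 7138424), (nat_lit 7264314), (nat_lit 7390119), (nat_lit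
 7515725)]) (FT.cons (FT.leaf [(nat_lit 6417586), (nat_lit 6538860), (nat_lit 6661406), (nat_lit 6784907), (nat_lit 6909097), (nat_lit 7033755), (nat_lit 7158690), (nat_lit 7283741), (nat_lit 7408771), (nat_lit 7533656)]) (FT.cons (FT.leaf [(nat_lit 6686629), (nat_lit 6808803), (nat_lit 6931810), (nat_lit 7055401), (nat_lit 7179367), (nat_lit 7303532), (nat_lit 7427745), (nat_lit 7551875)]) (FT.cons (FT.leaf [(nat_lit 6955139), (nat_lit 7077576), (nat_lit 7200504), (nat_lit 7323725), (nat_lit 7447074), (nat_lit 7570411)]) (FT.cons (FT.leaf [(nat_lit 7222159), (nat_lit 7344368), (nat_lit 7466798), (nat_lit 7589294)]) (FT.cons (FT.leaf [(nat_lit 7486963), (nat_lit 7608564)]) (FT.cons (FT.leaf [(nat_lit 7749004)]) (FT.cons (FT.leaf [(nat_lit 8007874)]) FT.nil))))))))))) (FT.cons (FT.cons (FT.leaf [(nat_lit 5913186), (nat_lit 6024937), (nat_lit 6140033), (nat_lit 6257750), (nat_lit 6377529), (nat_lit 6498922), (nat_lit 6621564), (nat_lit 6745153), (nat_lit 6869433),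 (nat_lit 6994188), (nat_lit 7119230), (nat_lit 7244401), (nat_lit 7369562)]) (FT.cons (FT.leaf [(nat_lit 6171846), (nat_lit 6287412), (nat_lit 6405360), (nat_lit 6525165), (nat_lit 6646408), (nat_lit 6768751), (nat_lit
 6891908), (nat_lit 7015642), (nat_lit 7139753), (nat_lit 7264067), (nat_lit 7388436), (nat_lit 7512732)]) (FT.cons (FT.leaf [(nat_lit 6434294), (nat_lit 6552316), (nat_lit 6672013), (nat_lit 6792994), (nat_lit 6914937), (nat_lit 7037579), (nat_lit 7160698), (nat_lit 7284106), (nat_lit 7407641), (nat_lit 7531167)]) (FT.cons (FT.leaf [(nat_lit 6698505), (nat_lit 6817979), (nat_lit 6938597), (nat_lit 7060058), (nat_lit 7182114), (nat_lit 7304556), (nat_lit 7427209), (nat_lit 7549924)]) (FT.cons (FT.leaf [(nat_lit 6962984), (nat_lit 7083154), (nat_lit 7204059), (nat_lit 7325467), (nat_lit 7447181), (nat_lit 7569037)]) (FT.cons (FT.leaf [(nat_lit 7226609), (nat_lit 7346896), (nat_lit 7467603), (nat_lit 7588545)]) (FT.cons (FT.leaf [(nat_lit 7488533),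 (nat_lit 7608494)]) (FT.cons (FT.leaf [(nat_lit 7748117)]) (FT.cons (FT.leaf [(nat_lit 8004881)]) (FT.cons (FT.leaf [(nat_lit 8258468)]) FT.nil)))))))))) (FT.cons (FT.cons (FT.leaf [(nat_lit 6454608), (nat_lit 6568852), (nat_lit 6685292), (nat_lit 6803425), (nat_lit 6922856), (nat_lit 7043262), (nat_lit 7164378), (nat_lit 7285982), (nat_lit 7407888), (nat_lit 7529933), (nat_lit 7651982)]) (FT.cons (FT.leaf [(nat_lit 6713303), (nat_lit
 6829693), (nat_lit 6947615), (nat_lit 7066694), (nat_lit 7186631), (nat_lit 7307175), (nat_lit 7428119), (nat_lit 7549287), (nat_lit 7670530), (nat_lit 7791719)]) (FT.cons (FT.leaf [(nat_lit 6973245), (nat_lit 7090856), (nat_lit 7209503), (nat_lit 7328899), (nat_lit 7448811), (nat_lit 7569044), (nat_lit 7689433), (nat_lit 7809839)]) (FT.cons (FT.leaf [(nat_lit 7233087), (nat_lit 7351228), (nat_lit 7470023), (nat_lit 7589253), (nat_lit 7708733), (nat_lit 7828308)]) (FT.cons (FT.leaf [(nat_lit 7491828), (nat_lit 7609971), (nat_lit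 7728474), (nat_lit 7847164)]) (FT.cons (FT.leaf [(nat_lit 7748713), (nat_lit 7866452)]) (FT.cons (FT.leaf [(nat_lit 8003174)]) (FT.cons (FT.leaf [(nat_lit 8254787)]) FT.nil)))))))) (FT.cons (FT.cons (FT.leaf [(nat_lit 6986309), (nat_lit 7100991), (nat_lit 7217081), (nat_lit 7334224), (nat_lit 7452134), (nat_lit 7570575), (nat_lit 7689353), (nat_lit 7808302), (nat_lit 7927283)]) (FT.cons (FT.leaf [(nat_lit 7241883), (nat_lit 7357596), (nat_lit 7474252), (nat_lit 7591579), (nat_lit 7709356), (nat_lit 7827399), (nat_lit 7945555), (nat_lit 8063690)]) (FT.cons (FT.leaf [(nat_lit 7497068), (nat_lit 7613176), (nat_lit 7729869), (nat_lit 7846940), (nat_lit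
 7964214), (nat_lit 8081547)]) (FT.cons (FT.leaf [(nat_lit 7750963), (nat_lit 7866979), (nat_lit 7983307), (nat_lit 8099784)]) (FT.cons (FT.leaf [(nat_lit 8002888), (nat_lit 8118444)]) (FT.cons (FT.leaf [(nat_lit 8252338)]) FT.nil)))))) (FT.cons (FT.cons (FT.leaf [(nat_lit 7504533), (nat_lit 7618334), (nat_lit 7732997), (nat_lit 7848265), (nat_lit 7963928)]) (FT.cons (FT.leaf [(nat_lit 7755079), (nat_lit 7869163), (nat_lit 7983775), (nat_lit 8098717)]) (FT.cons (FT.leaf [(nat_lit 8004191), (nat_lit 8118110)]) (FT.cons (FT.leaf [(nat_lit 8251255)]) FT.nil)))) (FT.cons (FT.cons (FT.leaf [(nat_lit 8007286), (nat_lit 8119367), (nat_lit 8231928)]) (FT.cons (FT.leaf [(nat_lit 8251697), (nat_lit 8363556)]) FT.nil)) (FT.cons (FT.cons (FT.leaf [(nat_lit 8493672)]) FT.nil) (FT.cons (FT.cons (FT.leaf [(nat_lit 8963472)]) FT.nil) (FT.cons (FT.cons (FT.leaf [(nat_lit 9416890)]) FT.nil) (FT.cons (FT.cons (FT.leaf [(nat_lit 9854376)]) FT.nil) FT.nil))))))))))) (FT.cons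 (FT.cons (FT.cons (FT.leaf [(nat_lit 6139536), (nat_lit 6239676), (nat_lit 6344432), (nat_lit 6452794), (nat_lit 6564019), (nat_lit 6677526), (nat_lit 6792855), (nat_lit 6909627), (nat_lit 7027528), (nat_lit 7146293), (nat_lit
 7265699), (nat_lit 7385551), (nat_lit 7505683), (nat_lit 7625949), (nat_lit 7746225)]) (FT.cons (FT.leaf [(nat_lit 6377999), (nat_lit 6483828), (nat_lit 6592951), (nat_lit 6704671), (nat_lit 6818449), (nat_lit 6933856), (nat_lit 7050542), (nat_lit 7168213), (nat_lit 7286626), (nat_lit 7405570), (nat_lit 7524868), (nat_lit 7644365), (nat_lit 7763927), (nat_lit 7883438)]) (FT.cons (FT.leaf [(nat_lit 6623226), (nat_lit 6732899), (nat_lit 6844936), (nat_lit 6958835), (nat_lit 7074191), (nat_lit 7190679), (nat_lit 7308027), (nat_lit 7426006), (nat_lit 7544421), (nat_lit 7663108), (nat_lit 7781920), (nat_lit 7900736)]) (FT.cons (FT.leaf [(nat_lit 6872482), (nat_lit 6984685), (nat_lit 7098573), (nat_lit 7213768), (nat_lit 7329964), (nat_lit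 7446906), (nat_lit 7564382), (nat_lit 7682209), (nat_lit 7800233), (nat_lit 7918321)]) (FT.cons (FT.leaf [(nat_lit 7123807), (nat_lit 7237572), (nat_lit 7352509), (nat_lit 7468331), (nat_lit 7584797), (nat_lit 7701710), (nat_lit 7818898), (nat_lit 7936217)]) (FT.cons (FT.leaf [(nat_lit 7375754), (nat_lit 7490349), (nat_lit 7605724), (nat_lit 7721655), (nat_lit 7837953), (nat_lit 7954459)]) (FT.cons (FT.leaf [(nat_lit 7627233), (nat_lit 7742101),
 (nat_lit 7857443), (nat_lit 7973082)]) (FT.cons (FT.leaf [(nat_lit 7877424), (nat_lit 7992131)]) (FT.cons (FT.leaf [(nat_lit 8125698)]) (FT.cons (FT.leaf [(nat_lit 8371580)]) (FT.cons (FT.leaf [(nat_lit 8614714)]) FT.nil))))))))))) (FT.cons (FT.cons (FT.leaf [(nat_lit 6648997), (nat_lit 6754126), (nat_lit 6862317), (nat_lit 6972903), (nat_lit 7085370), (nat_lit 7199309), (nat_lit 7314391), (nat_lit 7430343), (nat_lit 7546935), (nat_lit 7663973), (nat_lit 7781293), (nat_lit 7898748), (nat_lit 8016219)]) (FT.cons (FT.leaf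 [(nat_lit 6891695), (nat_lit 7000269), (nat_lit 7111029), (nat_lit 7223494), (nat_lit 7337280), (nat_lit 7452079), (nat_lit 7567636), (nat_lit 7683736), (nat_lit 7800199), (nat_lit 7916870), (nat_lit 8033616), (nat_lit 8150321)]) (FT.cons (FT.leaf [(nat_lit 7137731), (nat_lit 7248536), (nat_lit 7360887), (nat_lit 7474426), (nat_lit 7588862), (nat_lit 7703955), (nat_lit 7819506), (nat_lit 7935344), (nat_lit 8051326), (nat_lit 8167327)]) (FT.cons (FT.leaf [(nat_lit 7385333), (nat_lit 7497475), (nat_lit 7610685), (nat_lit 7724688), (nat_lit 7839259), (nat_lit 7954210), (nat_lit 8069382), (nat_lit 8184640)]) (FT.cons (FT.leaf [(nat_lit 7633195), (nat_lit 7746004),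
 (nat_lit 7859514), (nat_lit 7973512), (nat_lit 8087820), (nat_lit 8202290)]) (FT.cons (FT.leaf [(nat_lit 7880341), (nat_lit 7993305), (nat_lit 8106686), (nat_lit 8220315)]) (FT.cons (FT.leaf [(nat_lit 8126033), (nat_lit 8238759)]) (FT.cons (FT.leaf [(nat_lit 8369712)]) (FT.cons (FT.leaf [(nat_lit 8610955)]) (FT.cons (FT.leaf [(nat_lit 8849444)]) FT.nil)))))))))) (FT.cons (FT.cons (FT.leaf [(nat_lit 7155016), (nat_lit 7262367), (nat_lit 7371748), (nat_lit 7482698), (nat_lit 7594854), (nat_lit 7707922), (nat_lit 7821662), (nat_lit 7935871), (nat_lit 8050382), (nat_lit 8165048), (nat_lit 8279747)]) (FT.cons (FT.leaf [(nat_lit 7397632), (nat_lit 7506961), (nat_lit 7617717), (nat_lit 7729557), (nat_lit 7842207), (nat_lit 7955439), (nat_lit 8069064), (nat_lit 8182924), (nat_lit 8296884), (nat_lit 8410827)]) (FT.cons (FT.leaf [(nat_lit 7641402), (nat_lit 7751882), (nat_lit 7863338), (nat_lit 7975509), (nat_lit 8088184), (nat_lit 8201184), (nat_lit 8314359), (nat_lit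 8427583)]) (FT.cons (FT.leaf [(nat_lit 7885143), (nat_lit 7996154), (nat_lit 8107797), (nat_lit 8219872), (nat_lit 8332210), (nat_lit 8444670)]) (FT.cons (FT.leaf [(nat_lit 8127971), (nat_lit 8239042), (nat_lit 8350479),
 (nat_lit 8462125)]) (FT.cons (FT.leaf [(nat_lit 8369221), (nat_lit 8479990)]) (FT.cons (FT.leaf [(nat_lit 8608392)]) (FT.cons (FT.leaf [(nat_lit 8845103)]) FT.nil)))))))) (FT.cons (FT.cons (FT.leaf [(nat_lit 7652222), (nat_lit 7760023), (nat_lit 7869147), (nat_lit 7979267), (nat_lit 8090120), (nat_lit 8201492), (nat_lit 8313205), (nat_lit 8425107), (nat_lit 8537073)]) (FT.cons (FT.leaf [(nat_lit 7892102), (nat_lit 8000897), (nat_lit 8110589), (nat_lit 8220931), (nat_lit 8331720), (nat_lit 8442789), (nat_lit 8553995), (nat_lit 8665218)]) (FT.cons (FT.leaf [(nat_lit 8131720), (nat_lit 8240933), (nat_lit 8350721), (nat_lit 8460891), (nat_lit 8571285), (nat_lit 8681769)]) (FT.cons (FT.leaf [(nat_lit 8370270), (nat_lit 8479466), (nat_lit 8588986),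 (nat_lit 8698681)]) (FT.cons (FT.leaf [(nat_lit 8607151), (nat_lit 8715996)]) (FT.cons (FT.leaf [(nat_lit 8841909)]) FT.nil)))))) (FT.cons (FT.cons (FT.leaf [(nat_lit 8137541), (nat_lit 8244643), (nat_lit 8352574), (nat_lit 8461098), (nat_lit 8570023)]) (FT.cons (FT.leaf [(nat_lit 8373059), (nat_lit 8480486), (nat_lit 8588437), (nat_lit 8696730)]) (FT.cons (FT.leaf [(nat_lit 8607391), (nat_lit 8714737)]) (FT.cons (FT.leaf [(nat_lit 8839987)])
 FT.nil)))) (FT.cons (FT.cons (FT.leaf [(nat_lit 8609304), (nat_lit 8714963), (nat_lit 8821104)]) (FT.cons (FT.leaf [(nat_lit 8839490), (nat_lit 8945018)]) FT.nil)) (FT.cons (FT.cons (FT.leaf [(nat_lit 9066725)]) FT.nil) (FT.cons (FT.cons (FT.leaf [(nat_lit 9509575)]) FT.nil) (FT.cons (FT.cons (FT.leaf [(nat_lit 9937974)]) FT.nil) (FT.cons (FT.cons (FT.leaf [(nat_lit 10352259)]) FT.nil) FT.nil)))))))))) (FT.cons (FT.cons (FT.cons (FT.leaf [(nat_lit 7327667), (nat_lit 7426946), (nat_lit 7529056), (nat_lit 7633377), (nat_lit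 7739434), (nat_lit 7846852), (nat_lit 7955328), (nat_lit 8064615), (nat_lit 8174503), (nat_lit 8284816), (nat_lit 8395405), (nat_lit 8506139), (nat_lit 8616909)]) (FT.cons (FT.leaf [(nat_lit 7556329), (nat_lit 7658765), (nat_lit 7763226), (nat_lit 7869267), (nat_lit 7976538), (nat_lit 8084754), (nat_lit 8193682), (nat_lit 8303127), (nat_lit 8412925), (nat_lit 8522936), (nat_lit 8633037), (nat_lit 8743128)]) (FT.cons (FT.leaf [(nat_lit 7788006), (nat_lit 7892497), (nat_lit 7998430), (nat_lit 8105473), (nat_lit 8213361), (nat_lit 8321873), (nat_lit 8430826), (nat_lit 8540068), (nat_lit 8649465), (nat_lit 8758906)]) (FT.cons (FT.leaf [(nat_lit 8021116), (nat_lit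
 8126859), (nat_lit 8233606), (nat_lit 8341106), (nat_lit 8449152), (nat_lit 8557572), (nat_lit 8666221), (nat_lit 8774976)]) (FT.cons (FT.leaf [(nat_lit 8254503), (nat_lit 8360893), (nat_lit 8467954), (nat_lit 8575492), (nat_lit 8683342), (nat_lit 8791368)]) (FT.cons (FT.leaf [(nat_lit 8487300), (nat_lit 8593879), (nat_lit 8700869), (nat_lit 8808117)]) (FT.cons (FT.leaf [(nat_lit 8718853), (nat_lit 8825265)]) (FT.cons (FT.leaf [(nat_lit 8948665)]) (FT.cons (FT.leaf [(nat_lit 9176356)]) FT.nil))))))))) (FT.cons (FT.cons (FT.leaf [(nat_lit 7802797), (nat_lit 7904110), (nat_lit 8007316), (nat_lit 8111988), (nat_lit 8217791), (nat_lit 8324453), (nat_lit 8431756), (nat_lit 8539513), (nat_lit 8647571), (nat_lit 8755798), (nat_lit 8864081)]) (FT.cons (FT.leaf [(nat_lit 8031367), (nat_lit 8134524), (nat_lit 8239021), (nat_lit 8344542), (nat_lit 8450831), (nat_lit 8557683), (nat_lit 8664922), (nat_lit 8772402), (nat_lit 8880002), (nat_lit 8987615)]) (FT.cons (FT.leaf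 [(nat_lit 8261033), (nat_lit 8365286), (nat_lit 8470465), (nat_lit 8576331), (nat_lit 8682688), (nat_lit 8789373), (nat_lit 8896247), (nat_lit 9003194)]) (FT.cons (FT.leaf [(nat_lit 8490738), (nat_lit 8595524), (nat_lit
 8700924), (nat_lit 8806750), (nat_lit 8912848), (nat_lit 9019090)]) (FT.cons (FT.leaf [(nat_lit 8719692), (nat_lit 8824586), (nat_lit 8929850), (nat_lit 9035335)]) (FT.cons (FT.leaf [(nat_lit 8947299), (nat_lit 9051972)]) (FT.cons (FT.leaf [(nat_lit 9173108)]) (FT.cons (FT.leaf [(nat_lit 9396776)]) FT.nil)))))))) (FT.cons (FT.cons (FT.leaf [(nat_lit 8270007), (nat_lit 8371793), (nat_lit 8474829), (nat_lit 8578812), (nat_lit 8683500), (nat_lit 8788694), (nat_lit 8894230)]) (FT.cons (FT.leaf [(nat_lit 8496193), (nat_lit 8598940), (nat_lit 8702547), (nat_lit 8806784), (nat_lit 8911464), (nat_lit 9016430)]) (FT.cons (FT.leaf [(nat_lit 8722223), (nat_lit 8825408), (nat_lit 8929156), (nat_lit 9033289)]) (FT.cons (FT.leaf [(nat_lit 8947372), (nat_lit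 9050599)]) (FT.cons (FT.leaf [(nat_lit 9171097)]) (FT.cons (FT.leaf [(nat_lit 9392986)]) FT.nil)))))) (FT.cons (FT.cons (FT.leaf [(nat_lit 8726694), (nat_lit 8827932), (nat_lit 8929970), (nat_lit 9032589), (nat_lit 9135609)]) (FT.cons (FT.leaf [(nat_lit 8949073), (nat_lit 9050669), (nat_lit 9152784), (nat_lit 9255248)]) (FT.cons (FT.leaf [(nat_lit 9170471), (nat_lit 9272053)]) (FT.cons (FT.leaf [(nat_lit 9390387)]) FT.nil)))) (FT.cons
 (FT.cons (FT.leaf [(nat_lit 9171415)]) (FT.cons (FT.leaf [(nat_lit 9389123)]) FT.nil)) (FT.cons (FT.cons (FT.leaf [(nat_lit 9603461)]) FT.nil) (FT.cons (FT.cons (FT.leaf [(nat_lit 10022594)]) FT.nil) (FT.cons (FT.cons (FT.leaf [(nat_lit 10428873)]) FT.nil) FT.nil)))))))) (FT.cons (FT.cons (FT.cons (FT.leaf [(nat_lit 8405543), (nat_lit 8501527), (nat_lit 8599287), (nat_lit 8698426), (nat_lit 8798631), (nat_lit 8899652), (nat_lit 9001286), (nat_lit 9103361), (nat_lit 9205735)]) (FT.cons (FT.leaf [(nat_lit 8621744), (nat_lit 8719461),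 (nat_lit 8818444), (nat_lit 8918397), (nat_lit 9019085), (nat_lit 9120315), (nat_lit 9221927), (nat_lit 9323787)]) (FT.cons (FT.leaf [(nat_lit 8839001), (nat_lit 8937766), (nat_lit 9037416), (nat_lit 9137727), (nat_lit 9238516), (nat_lit 9339633)]) (FT.cons (FT.leaf [(nat_lit 9056356), (nat_lit 9155657), (nat_lit 9255553), (nat_lit 9355870)]) (FT.cons (FT.leaf [(nat_lit 9273097), (nat_lit 9372543)]) (FT.cons (FT.leaf [(nat_lit 9488683)]) (FT.cons (FT.leaf [(nat_lit 9702704)]) FT.nil))))))) (FT.cons (FT.cons (FT.leaf [(nat_lit 8846437), (nat_lit 8942918), (nat_lit 9040585), (nat_lit 9139157), (nat_lit 9238407), (nat_lit 9338152), (nat_lit 9438237)])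
 (FT.cons (FT.leaf [(nat_lit 9060563), (nat_lit 9157976), (nat_lit 9256215), (nat_lit 9355064), (nat_lit 9454350), (nat_lit 9553929)]) (FT.cons (FT.leaf [(nat_lit 9274621), (nat_lit 9372487), (nat_lit 9470903), (nat_lit 9569703)]) (FT.cons (FT.leaf [(nat_lit 9487954), (nat_lit 9585907)]) (FT.cons (FT.leaf [(nat_lit 9700065)]) (FT.cons (FT.leaf [(nat_lit 9910577)]) FT.nil)))))) (FT.cons (FT.cons (FT.leaf [(nat_lit 9277969), (nat_lit 9374029), (nat_lit 9470861)]) (FT.cons (FT.leaf [(nat_lit 9488756), (nat_lit 9585196)]) (FT.cons (FT.leaf [(nat_lit 9698727)]) (FT.cons (FT.leaf [(nat_lit 9907426)]) FT.nil)))) (FT.cons (FT.cons (FT.leaf [(nat_lit 9698866)]) (FT.cons (FT.leaf [(nat_lit 9905530)]) FT.nil)) (FT.cons (FT.cons (FT.leaf [(nat_lit 10108476)]) FT.nil) (FT.cons (FT.cons (FT.leaf [(nat_lit 10506555)]) FT.nil) FT.nil)))))) (FT.cons (FT.cons (FT.cons (FT.leaf [(nat_lit 9386941), (nat_lit 9478705), (nat_lit 9571600), (nat_lit 9665360), (nat_lit 9759773)])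 (FT.cons (FT.leaf [(nat_lit 9590358), (nat_lit 9683028), (nat_lit 9776491), (nat_lit 9870547)]) (FT.cons (FT.leaf [(nat_lit 9793781), (nat_lit 9886912)]) FT.nil))) (FT.cons (FT.cons (FT.leaf [(nat_lit 9796186), (nat_lit 9887633),
 (nat_lit 9979826)]) (FT.cons (FT.leaf [(nat_lit 9996656), (nat_lit 10088502)]) FT.nil)) (FT.cons (FT.cons (FT.leaf [(nat_lit 10195915)]) FT.nil) (FT.cons (FT.cons (FT.leaf [(nat_lit 10585526)]) FT.nil) FT.nil)))) (FT.cons (FT.cons (FT.cons (FT.leaf [(nat_lit 10285281)]) FT.nil) (FT.cons (FT.cons (FT.leaf [(nat_lit 10666063)]) FT.nil) FT.nil)) (FT.cons (FT.cons (FT.cons (FT.leaf [(nat_lit 11112230)]) FT.nil) FT.nil) (FT.cons (FT.cons (FT.cons (FT.leaf [(nat_lit 11877564)]) FT.nil) FT.nil) (FT.cons (FT.cons (FT.cons (FT.leaf [(nat_lit 12589380)]) FT.nil) FT.nil) FT.nil)))))))))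

def f192_0_0 : FT := (FT.cons (FT.cons (FT.cons (FT.leaf [(nat_lit 3265811), (nat_lit 3343536), (nat_lit 3434084), (nat_lit 3534889), (nat_lit 3644124), (nat_lit 3760380), (nat_lit 3882525), (nat_lit 4009618), (nat_lit 4140863), (nat_lit 4275576), (nat_lit 4413166), (nat_lit 4553116), (nat_lit 4694976), (nat_lit 4838351), (nat_lit 4982890), (nat_lit 5128290), (nat_lit 5274278), (nat_lit 5420618), (nat_lit 5567098), (nat_lit 5713538), (nat_lit 5859771), (nat_lit 6005657), (nat_lit 6151073)]) (FT.cons (FT.leaf [(nat_lit 3484468), (nat_lit 3581194), (nat_lit 3687209), (nat_lit 3800797), (nat_lit 3920656), (nat_lit 4045744), (nat_lit 4175196), (nat_lit 4308288), (nat_lit 4444396), (nat_lit 4582981), (nat_lit 4723577), (nat_lit 4865773), (nat_lit 5009211), (nat_lit 5153579), (nat_lit 5298596), (nat_lit 5444021), (nat_lit 5589638), (nat_lit 5735260), (nat_lit 5880720), (nat_lit 6025874), (nat_lit 6170591), (nat_lit 6314763)]) (FT.cons (FT.leaf [(nat_lit 3732990),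 (nat_lit 3843278), (nat_lit 3960419), (nat_lit 4083190), (nat_lit 4210622), (nat_lit 4341916), (nat_lit 4476404), (nat_lit 4613515), (nat_lit 4752757), (nat_lit 4893703), (nat_lit 5035981), (nat_lit 5179264), (nat_lit 5323268), (nat_lit 5467741),
 (nat_lit 5612463), (nat_lit 5757241), (nat_lit 5901904), (nat_lit 6046303), (nat_lit 6190306), (nat_lit 6333799)]) (FT.cons (FT.leaf [(nat_lit 4002207), (nat_lit 4122237), (nat_lit 4247342), (nat_lit 4376614), (nat_lit 4509310), (nat_lit 4644812), (nat_lit 4782593), (nat_lit 4922201), (nat_lit 5063246), (nat_lit 5205387), (nat_lit 5348327), (nat_lit 5491807), (nat_lit 5635598), (nat_lit 5779500), (nat_lit 5923338), (nat_lit 6066960), (nat_lit 6210227), (nat_lit 6353025)]) (FT.cons (FT.leaf [(nat_lit 4285630), (nat_lit 4412580), (nat_lit 4543263), (nat_lit 4676987), (nat_lit 4813175), (nat_lit 4951341), (nat_lit 5091067), (nat_lit 5231996), (nat_lit 5373815), (nat_lit 5516252), (nat_lit 5659070), (nat_lit 5802062),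 (nat_lit 5945046), (nat_lit 6087864), (nat_lit 6230375), (nat_lit 6372457)]) (FT.cons (FT.leaf [(nat_lit 4578459), (nat_lit 4710187), (nat_lit 4844617), (nat_lit 4981210), (nat_lit 5119517), (nat_lit 5259150), (nat_lit 5399779), (nat_lit 5541117), (nat_lit 5682915), (nat_lit 5824957), (nat_lit 5967053), (nat_lit 6109035), (nat_lit 6250762), (nat_lit 6392105)]) (FT.cons (FT.leaf [(nat_lit 4877062), (nat_lit 5011921), (nat_lit 5148680), (nat_lit 5286917), (nat_lit
 5426275), (nat_lit 5566447), (nat_lit 5707170), (nat_lit 5848214), (nat_lit 5989382), (nat_lit 6130499), (nat_lit 6271413), (nat_lit 6411993)]) (FT.cons (FT.leaf [(nat_lit 5178668), (nat_lit 5315385), (nat_lit 5453372), (nat_lit 5592300), (nat_lit 5731882), (nat_lit 5871875), (nat_lit 6012069), (nat_lit 6152279), (nat_lit 6292349), (nat_lit 6432137)]) (FT.cons (FT.leaf [(nat_lit 5481155), (nat_lit 5618740), (nat_lit 5757105), (nat_lit 5895982), (nat_lit 6035150), (nat_lit 6174410), (nat_lit 6313596),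 (nat_lit 6452561)]) (FT.cons (FT.leaf [(nat_lit 5782903), (nat_lit 5920590), (nat_lit 6058669), (nat_lit 6196927), (nat_lit 6335187), (nat_lit 6473291)]) (FT.cons (FT.leaf [(nat_lit 6082677), (nat_lit 6219873), (nat_lit 6357156), (nat_lit 6494358)]) (FT.cons (FT.leaf [(nat_lit 6379545), (nat_lit 6515794)]) (FT.cons (FT.leaf [(nat_lit 6672811)]) (FT.cons (FT.leaf [(nat_lit 6961967)]) (FT.cons (FT.leaf [(nat_lit 7246646)]) (FT.cons (FT.leaf [(nat_lit 7526597)]) FT.nil)))))))))))))))) (FT.cons (FT.cons (FT.leaf [(nat_lit 3801811), (nat_lit 3902224), (nat_lit 4011252), (nat_lit 4127161), (nat_lit 4248668), (nat_lit 4374775), (nat_lit 4504673), (nat_lit 4637689), (nat_lit 4773254),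
 (nat_lit 4910881), (nat_lit 5050154), (nat_lit 5190705), (nat_lit 5332219), (nat_lit 5474418), (nat_lit 5617060), (nat_lit 5759931), (nat_lit 5902844), (nat_lit 6045635), (nat_lit 6188160), (nat_lit 6330291), (nat_lit 6471922)]) (FT.cons (FT.leaf [(nat_lit 4056509), (nat_lit 4168934), (nat_lit 4287601), (nat_lit 4411313), (nat_lit 4539138), (nat_lit 4670325), (nat_lit 4804257), (nat_lit 4940407), (nat_lit 5078332), (nat_lit 5217645), (nat_lit 5358015), (nat_lit 5499152), (nat_lit 5640803), (nat_lit 5782748), (nat_lit 5924792), (nat_lit 6066765), (nat_lit 6208519), (nat_lit 6349925), (nat_lit 6490866), (nat_lit 6631247)]) (FT.cons (FT.leaf [(nat_lit 4328547), (nat_lit 4449434), (nat_lit 4574882), (nat_lit 4704018), (nat_lit 4836144), (nat_lit 4970683), (nat_lit 5107154), (nat_lit 5245144), (nat_lit 5384299), (nat_lit 5524315), (nat_lit 5664926), (nat_lit 5805903), (nat_lit 5947042), (nat_lit 6088167), (nat_lit 6229126), (nat_lit 6369782), (nat_lit 6510015),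 (nat_lit 6649727)]) (FT.cons (FT.leaf [(nat_lit 4612177), (nat_lit 4738962), (nat_lit 4869063), (nat_lit 5001824), (nat_lit 5136710), (nat_lit 5273272), (nat_lit 5411129), (nat_lit 5549955), (nat_lit 5689471), (nat_lit 5829431),
 (nat_lit 5969625), (nat_lit 6109870), (nat_lit 6250001), (nat_lit 6389881), (nat_lit 6529385), (nat_lit 6668407)]) (FT.cons (FT.leaf [(nat_lit 4903208), (nat_lit 5033975), (nat_lit 5167112), (nat_lit 5302118), (nat_lit 5438575), (nat_lit 5576130), (nat_lit 5714482), (nat_lit 5853371), (nat_lit 5992574), (nat_lit 6131896), (nat_lit 6271168), (nat_lit 6410243), (nat_lit 6548992), (nat_lit 6687303)]) (FT.cons (FT.leaf [(nat_lit 5198502), (nat_lit 5331792), (nat_lit 5466724), (nat_lit 5602909), (nat_lit 5740016), (nat_lit 5877768), (nat_lit 6015925), (nat_lit 6154280), (nat_lit 6292654), (nat_lit 6430891), (nat_lit 6568856), (nat_lit 6706433)]) (FT.cons (FT.leaf [(nat_lit 5495682), (nat_lit 5630373), (nat_lit 5766140), (nat_lit 5902677),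 (nat_lit 6039724), (nat_lit 6177059), (nat_lit 6314489), (nat_lit 6451851), (nat_lit 6589002), (nat_lit 6725815)]) (FT.cons (FT.leaf [(nat_lit 5792937), (nat_lit 5928164), (nat_lit 6064024), (nat_lit 6200275), (nat_lit 6336711), (nat_lit 6473154), (nat_lit 6609452), (nat_lit 6745472)]) (FT.cons (FT.leaf [(nat_lit 6088890), (nat_lit 6223983), (nat_lit 6359362), (nat_lit 6494836), (nat_lit 6630239), (nat_lit 6765428)]) (FT.cons (FT.leaf [(nat_lit
 6382494), (nat_lit 6516938), (nat_lit 6651395), (nat_lit 6785715)]) (FT.cons (FT.leaf [(nat_lit 6672965), (nat_lit 6806364)]) (FT.cons (FT.leaf [(nat_lit 6959719)]) (FT.cons (FT.leaf [(nat_lit 7242331)]) (FT.cons (FT.leaf [(nat_lit 7520501)]) (FT.cons (FT.leaf [(nat_lit 7794026)]) FT.nil))))))))))))))) (FT.cons (FT.cons (FT.leaf [(nat_lit 4378440), (nat_lit 4492010), (nat_lit 4611309), (nat_lit 4735165), (nat_lit 4862688), (nat_lit 4993168), (nat_lit 5126026), (nat_lit 5260781), (nat_lit 5397024), (nat_lit 5534406),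 (nat_lit 5672627), (nat_lit 5811429), (nat_lit 5950582), (nat_lit 6089893), (nat_lit 6229189), (nat_lit 6368320), (nat_lit 6507154), (nat_lit 6645577), (nat_lit 6783490)]) (FT.cons (FT.leaf [(nat_lit 4651258), (nat_lit 4772256), (nat_lit 4897386), (nat_lit 5025812), (nat_lit 5156874), (nat_lit 5290032), (nat_lit 5424840), (nat_lit 5560922), (nat_lit 5697954), (nat_lit 5835661), (nat_lit 5973804), (nat_lit 6112175), (nat_lit 6250596), (nat_lit 6388908), (nat_lit 6526975), (nat_lit 6664675), (nat_lit 6801906), (nat_lit 6938577)]) (FT.cons (FT.leaf [(nat_lit 4933615), (nat_lit 5059691), (nat_lit 5188736), (nat_lit 5320133), (nat_lit 5453378), (nat_lit 5588056), (nat_lit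
 5723817), (nat_lit 5860363), (nat_lit 5997438), (nat_lit 6134823), (nat_lit 6272328), (nat_lit 6409787), (nat_lit 6547057), (nat_lit 6684010), (nat_lit 6820539), (nat_lit 6956549)]) (FT.cons (FT.leaf [(nat_lit 5221806), (nat_lit 5351227), (nat_lit 5482747), (nat_lit 5615896), (nat_lit 5750285), (nat_lit 5885588), (nat_lit 6021530), (nat_lit 6157875), (nat_lit 6294419), (nat_lit 6430987), (nat_lit 6567426), (nat_lit 6703603), (nat_lit 6839406), (nat_lit 6974733)]) (FT.cons (FT.leaf [(nat_lit 5513087), (nat_lit 5644548), (nat_lit 5777442), (nat_lit 5911406), (nat_lit 6046137), (nat_lit 6181375), (nat_lit 6316905), (nat_lit 6452536), (nat_lit 6588107), (nat_lit 6723477), (nat_lit 6858525), (nat_lit 6993146)]) (FT.cons (FT.leaf [(nat_lit 5805394), (nat_lit 5937898), (nat_lit 6071321), (nat_lit 6205378), (nat_lit 6339830), (nat_lit 6474473), (nat_lit 6609132), (nat_lit 6743658), (nat_lit 6877919), (nat_lit 7011805)]) (FT.cons (FT.leaf [(nat_lit 6097165), (nat_lit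 6229947), (nat_lit 6363246), (nat_lit 6496839), (nat_lit 6630536), (nat_lit 6764173), (nat_lit 6897613), (nat_lit 7030734)]) (FT.cons (FT.leaf [(nat_lit 6387217), (nat_lit 6519687), (nat_lit 6652361), (nat_lit 6785061),
 (nat_lit 6917636), (nat_lit 7049957)]) (FT.cons (FT.leaf [(nat_lit 6674656), (nat_lit 6806360), (nat_lit 6938023), (nat_lit 7069503)]) (FT.cons (FT.leaf [(nat_lit 6958814), (nat_lit 7089406)]) (FT.cons (FT.leaf [(nat_lit 7239196)]) (FT.cons (FT.leaf [(nat_lit 7515446)]) (FT.cons (FT.leaf [(nat_lit 7787315)]) FT.nil))))))))))))) (FT.cons (FT.cons (FT.leaf [(nat_lit 4969183), (nat_lit 5089741), (nat_lit 5214072), (nat_lit 5341372), (nat_lit 5471015), (nat_lit 5602497), (nat_lit 5735401), (nat_lit 5869379), (nat_lit 6004136), (nat_lit 6139420), (nat_lit 6275013), (nat_lit 6410730), (nat_lit 6546408), (nat_lit 6681905), (nat_lit 6817098)]) (FT.cons (FT.leaf [(nat_lit 5249202), (nat_lit 5374171), (nat_lit 5501823), (nat_lit 5631571), (nat_lit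 5762941), (nat_lit 5895547), (nat_lit 6029063), (nat_lit 6163217), (nat_lit 6297776), (nat_lit 6432537), (nat_lit 6567329), (nat_lit 6702004), (nat_lit 6836429), (nat_lit 6970493)]) (FT.cons (FT.leaf [(nat_lit 5533818), (nat_lit 5661620), (nat_lit 5791297), (nat_lit 5922406), (nat_lit 6054584), (nat_lit 6187530), (nat_lit 6320987), (nat_lit 6454740), (nat_lit 6588603), (nat_lit 6722415), (nat_lit 6856041), (nat_lit 6989358)]) (FT.cons (FT.leaf
 [(nat_lit 5820606), (nat_lit 5950062), (nat_lit 6080781), (nat_lit 6212422), (nat_lit 6344701), (nat_lit 6477383), (nat_lit 6610263), (nat_lit 6743171), (nat_lit 6875959), (nat_lit 7008498)]) (FT.cons (FT.leaf [(nat_lit 6107758), (nat_lit 6237976), (nat_lit 6368984), (nat_lit 6500518), (nat_lit 6632355), (nat_lit 6764307), (nat_lit 6896213), (nat_lit 7027938)]) (FT.cons (FT.leaf [(nat_lit 6393913), (nat_lit 6524208), (nat_lit 6654927), (nat_lit 6785863), (nat_lit 6916839), (nat_lit 7047707)]) (FT.cons (FT.leaf [(nat_lit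 6678043), (nat_lit 6807891), (nat_lit 6937878), (nat_lit 7067840)]) (FT.cons (FT.leaf [(nat_lit 6959378), (nat_lit 7088377)]) (FT.cons (FT.leaf [(nat_lit 7237343)]) (FT.cons (FT.leaf [(nat_lit 7511518)]) (FT.cons (FT.leaf [(nat_lit 7781600)]) FT.nil))))))))))) (FT.cons (FT.cons (FT.leaf [(nat_lit 5558476), (nat_lit 5682054), (nat_lit 5808072), (nat_lit 5935973), (nat_lit 6065311), (nat_lit 6195722), (nat_lit 6326905), (nat_lit 6458607), (nat_lit 6590613), (nat_lit 6722739), (nat_lit 6854826), (nat_lit 6986740), (nat_lit 7118363)]) (FT.cons (FT.leaf [(nat_lit 5839007), (nat_lit 5965001), (nat_lit 6092683), (nat_lit 6221635), (nat_lit 6351516), (nat_lit 6482044),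
 (nat_lit 6612982), (nat_lit 6744133), (nat_lit 6875322), (nat_lit 7006405), (nat_lit 7137256), (nat_lit 7267765)]) (FT.cons (FT.leaf [(nat_lit 6120991), (nat_lit 6248330), (nat_lit 6376789), (nat_lit 6506049), (nat_lit 6635846), (nat_lit 6765957), (nat_lit 6896198), (nat_lit 7026407), (nat_lit 7156450), (nat_lit 7286209)]) (FT.cons (FT.leaf [(nat_lit 6402827), (nat_lit 6530703), (nat_lit 6659265), (nat_lit 6788264), (nat_lit 6917495), (nat_lit 7046781), (nat_lit 7175974), (nat_lit 7304948)]) (FT.cons (FT.leaf [(nat_lit 6683318), (nat_lit 6811116), (nat_lit 6939264), (nat_lit 7067567), (nat_lit 7195862), (nat_lit 7324010)]) (FT.cons (FT.leaf [(nat_lit 6961565), (nat_lit 7088815), (nat_lit 7216154), (nat_lit 7343427)]) (FT.cons (FT.leaf [(nat_lit 7236897), (nat_lit 7363240)]) (FT.cons (FT.leaf [(nat_lit 7508819)]) (FT.cons (FT.leaf [(nat_lit 7776964)]) (FT.cons (FT.leaf [(nat_lit 8041077)]) FT.nil)))))))))) (FT.cons (FT.cons (FT.leaf [(nat_lit 6137282), (nat_lit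 6261340), (nat_lit 6386930), (nat_lit 6513654), (nat_lit 6641192), (nat_lit 6769280), (nat_lit 6897696), (nat_lit 7026257), (nat_lit 7154803), (nat_lit 7283199), (nat_lit 7411329)]) (FT.cons (FT.leaf [(nat_lit 6414271),
 (nat_lit 6539424), (nat_lit 6665580), (nat_lit 6792437), (nat_lit 6919748), (nat_lit 7047303), (nat_lit 7174932), (nat_lit 7302485), (nat_lit 7429837), (nat_lit 7556879)]) (FT.cons (FT.leaf [(nat_lit 6690717), (nat_lit 6816230), (nat_lit 6942343), (nat_lit 7068823), (nat_lit 7195475), (nat_lit 7322136), (nat_lit 7448668), (nat_lit 7574953)]) (FT.cons (FT.leaf [(nat_lit 6965560), (nat_lit 7090875), (nat_lit 7216479), (nat_lit 7342191), (nat_lit 7467856), (nat_lit 7593344)]) (FT.cons (FT.leaf [(nat_lit 7238006), (nat_lit 7362698), (nat_lit 7487439), (nat_lit 7612084)]) (FT.cons (FT.leaf [(nat_lit 7507465), (nat_lit 7631212)]) (FT.cons (FT.leaf [(nat_lit 7773504)]) (FT.cons (FT.leaf [(nat_lit 8035808)]) FT.nil)))))))) (FT.cons (FT.cons (FT.leaf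 [(nat_lit 6700543), (nat_lit 6823477), (nat_lit 6947316), (nat_lit 7071773), (nat_lit 7196614), (nat_lit 7321647), (nat_lit 7446706)]) (FT.cons (FT.leaf [(nat_lit 6971592), (nat_lit 7094744), (nat_lit 7218426), (nat_lit 7342417), (nat_lit 7466533), (nat_lit 7590622)]) (FT.cons (FT.leaf [(nat_lit 7240846), (nat_lit 7363709), (nat_lit 7486812), (nat_lit 7609983)]) (FT.cons (FT.leaf [(nat_lit 7507601), (nat_lit 7629787)]) (FT.cons (FT.leaf
 [(nat_lit 7771336)]) (FT.cons (FT.leaf [(nat_lit 8031667)]) FT.nil)))))) (FT.cons (FT.cons (FT.leaf [(nat_lit 7245640), (nat_lit 7366454), (nat_lit 7487738), (nat_lit 7609283), (nat_lit 7730916)]) (FT.cons (FT.leaf [(nat_lit 7509399), (nat_lit 7629852), (nat_lit 7750506), (nat_lit 7871197)]) (FT.cons (FT.leaf [(nat_lit 7770596), (nat_lit 7890334)]) (FT.cons (FT.leaf [(nat_lit 8028764)]) FT.nil)))) (FT.cons (FT.cons (FT.leaf [(nat_lit 7771450)]) (FT.cons (FT.leaf [(nat_lit 8027232)]) FT.nil)) (FT.cons (FT.cons (FT.leaf [(nat_lit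 8277754)]) FT.nil) (FT.cons (FT.cons (FT.leaf [(nat_lit 8764871)]) FT.nil) (FT.cons (FT.cons (FT.leaf [(nat_lit 9233434)]) FT.nil) (FT.cons (FT.cons (FT.leaf [(nat_lit 9684243)]) FT.nil) FT.nil))))))))))))) (FT.cons (FT.cons (FT.cons (FT.leaf [(nat_lit 4691797), (nat_lit 4787911), (nat_lit 4891803), (nat_lit 5001804), (nat_lit 5116709), (nat_lit 5235594), (nat_lit 5357725), (nat_lit 5482504), (nat_lit 5609431), (nat_lit 5738085), (nat_lit 5868107), (nat_lit 5999186), (nat_lit 6131056), (nat_lit 6263484), (nat_lit 6396264), (nat_lit 6529221), (nat_lit 6662199), (nat_lit 6795061), (nat_lit 6927685), (nat_lit 7059970), (nat_lit 7191818)]) (FT.cons (FT.leaf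
 [(nat_lit 4933835), (nat_lit 5040437), (nat_lit 5152587), (nat_lit 5269162), (nat_lit 5389310), (nat_lit 5512353), (nat_lit 5637739), (nat_lit 5765009), (nat_lit 5893776), (nat_lit 6023709), (nat_lit 6154525), (nat_lit 6285979), (nat_lit 6417856), (nat_lit 6549971), (nat_lit 6682161), (nat_lit 6814285), (nat_lit 6946215), (nat_lit 7077846), (nat_lit 7209078), (nat_lit 7339830)]) (FT.cons (FT.leaf [(nat_lit 5190356), (nat_lit 5304219), (nat_lit 5422098), (nat_lit 5543194), (nat_lit 5666879), (nat_lit 5792639), (nat_lit 5920052), (nat_lit 6048759), (nat_lit 6178456), (nat_lit 6308880), (nat_lit 6439808), (nat_lit 6571042), (nat_lit 6702412), (nat_lit 6833769), (nat_lit 6964981), (nat_lit 7095936), (nat_lit 7226532), (nat_lit 7356684)]) (FT.cons (FT.leaf [(nat_lit 5456342), (nat_lit 5575212), (nat_lit 5696988), (nat_lit 5821083), (nat_lit 5947019), (nat_lit 6074402), (nat_lit 6202901), (nat_lit 6332234), (nat_lit 6462159), (nat_lit 6592466), (nat_lit 6722978),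 (nat_lit 6853535), (nat_lit 6984001), (nat_lit 7114256), (nat_lit 7244196), (nat_lit 7373730)]) (FT.cons (FT.leaf [(nat_lit 5728248), (nat_lit 5850475), (nat_lit 5974781), (nat_lit 6100722), (nat_lit 6227928), (nat_lit
 6356091), (nat_lit 6484949), (nat_lit 6614280), (nat_lit 6743889), (nat_lit 6873610), (nat_lit 7003298), (nat_lit 7132827), (nat_lit 7262087), (nat_lit 7390980)]) (FT.cons (FT.leaf [(nat_lit 6003471), (nat_lit 6127819), (nat_lit 6253615), (nat_lit 6380516), (nat_lit 6508234), (nat_lit 6636525), (nat_lit 6765181), (nat_lit 6894024), (nat_lit 7022897), (nat_lit 7151669), (nat_lit 7280222), (nat_lit 7408453)]) (FT.cons (FT.leaf [(nat_lit 6280063), (nat_lit 6405588), (nat_lit 6532075), (nat_lit 6659254), (nat_lit 6786897), (nat_lit 6914810), (nat_lit 7042828), (nat_lit 7170807), (nat_lit 7298622), (nat_lit 7426166)]) (FT.cons (FT.leaf [(nat_lit 6556549), (nat_lit 6682527), (nat_lit 6809085), (nat_lit 6936011), (nat_lit 7063124), (nat_lit 7190270),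 (nat_lit 7317313), (nat_lit 7444139)]) (FT.cons (FT.leaf [(nat_lit 6831807), (nat_lit 6957675), (nat_lit 7083827), (nat_lit 7210090), (nat_lit 7336322), (nat_lit 7462397)]) (FT.cons (FT.leaf [(nat_lit 7104982), (nat_lit 7230309), (nat_lit 7355681), (nat_lit 7480966)]) (FT.cons (FT.leaf [(nat_lit 7375431), (nat_lit 7499879)]) (FT.cons (FT.leaf [(nat_lit 7642669)]) (FT.cons (FT.leaf [(nat_lit 7906340)]) (FT.cons (FT.leaf [(nat_lit 8166184)])
 FT.nil)))))))))))))) (FT.cons (FT.cons (FT.leaf [(nat_lit 5233658), (nat_lit 5340781), (nat_lit 5453037), (nat_lit 5569338), (nat_lit 5688866), (nat_lit 5810981), (nat_lit 5935164), (nat_lit 6060991), (nat_lit 6188103), (nat_lit 6316196), (nat_lit 6445012), (nat_lit 6574328), (nat_lit 6703951), (nat_lit 6833711), (nat_lit 6963464), (nat_lit 7093078), (nat_lit 7222446), (nat_lit 7351467), (nat_lit 7480056)]) (FT.cons (FT.leaf [(nat_lit 5489807), (nat_lit 5603398), (nat_lit 5720668), (nat_lit 5840854), (nat_lit 5963358),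 (nat_lit 6087701), (nat_lit 6213485), (nat_lit 6340379), (nat_lit 6468103), (nat_lit 6596420), (nat_lit 6725120), (nat_lit 6854027), (nat_lit 6982986), (nat_lit 7111860), (nat_lit 7240535), (nat_lit 7368906), (nat_lit 7496883), (nat_lit 7624389)]) (FT.cons (FT.leaf [(nat_lit 5753906), (nat_lit 5871886), (nat_lit 5992507), (nat_lit 6115209), (nat_lit 6239545), (nat_lit 6365145), (nat_lit 6491702), (nat_lit 6618953), (nat_lit 6746680), (nat_lit 6874690), (nat_lit 7002817), (nat_lit 7130920), (nat_lit 7258874), (nat_lit 7386571), (nat_lit 7513915), (nat_lit 7640825)]) (FT.cons (FT.leaf [(nat_lit 6022787), (nat_lit 6143651), (nat_lit 6266388), (nat_lit 6390575),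
 (nat_lit 6515869), (nat_lit 6641983), (nat_lit 6768673), (nat_lit 6895734), (nat_lit 7022988), (nat_lit 7150282), (nat_lit 7277484), (nat_lit 7404481), (nat_lit 7531170), (nat_lit 7657465)]) (FT.cons (FT.leaf [(nat_lit 6294142), (nat_lit 6416769), (nat_lit 6540686), (nat_lit 6665570), (nat_lit 6791150), (nat_lit 6917202), (nat_lit 7043532), (nat_lit 7169976), (nat_lit 7296391), (nat_lit 7422657), (nat_lit 7548664), (nat_lit 7674321)]) (FT.cons (FT.leaf [(nat_lit 6566251), (nat_lit 6689792), (nat_lit 6814174), (nat_lit 6939144), (nat_lit 7064492), (nat_lit 7190036), (nat_lit 7315624), (nat_lit 7441123), (nat_lit 7566419), (nat_lit 7691413)]) (FT.cons (FT.leaf [(nat_lit 6837818), (nat_lit 6961621), (nat_lit 7085916), (nat_lit 7210503), (nat_lit 7335215), (nat_lit 7459908), (nat_lit 7584459), (nat_lit 7708761)]) (FT.cons (FT.leaf [(nat_lit 7107862), (nat_lit 7231423), (nat_lit 7355204), (nat_lit 7479045), (nat_lit 7602811), (nat_lit 7726387)]) (FT.cons (FT.leaf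 [(nat_lit 7375638), (nat_lit 7498570), (nat_lit 7621507), (nat_lit 7744320)]) (FT.cons (FT.leaf [(nat_lit 7640584), (nat_lit 7762589)]) (FT.cons (FT.leaf [(nat_lit 7902284)]) (FT.cons (FT.leaf [(nat_lit 8160429)]) (FT.cons
 (FT.leaf [(nat_lit 8414800)]) FT.nil))))))))))))) (FT.cons (FT.cons (FT.leaf [(nat_lit 5784372), (nat_lit 5897325), (nat_lit 6013673), (nat_lit 6132680), (nat_lit 6253780), (nat_lit 6376518), (nat_lit 6500524), (nat_lit 6625490), (nat_lit 6751155), (nat_lit 6877299), (nat_lit 7003734), (nat_lit 7130294), (nat_lit 7256840), (nat_lit 7383248), (nat_lit 7509412)]) (FT.cons (FT.leaf [(nat_lit 6045904), (nat_lit 6162736), (nat_lit 6281984), (nat_lit 6403116), (nat_lit 6525706), (nat_lit 6649409), (nat_lit 6773937), (nat_lit 6899049), (nat_lit 7024538), (nat_lit 7150230), (nat_lit 7275972), (nat_lit 7401635), (nat_lit 7527104), (nat_lit 7652280)]) (FT.cons (FT.leaf [(nat_lit 6311303), (nat_lit 6430630), (nat_lit 6551656), (nat_lit 6673980),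 (nat_lit 6797279), (nat_lit 6921283), (nat_lit 7045768), (nat_lit 7170540), (nat_lit 7295437), (nat_lit 7420319), (nat_lit 7545062), (nat_lit 7669563)]) (FT.cons (FT.leaf [(nat_lit 6578502), (nat_lit 6699302), (nat_lit 6821258), (nat_lit 6944065), (nat_lit 7067472), (nat_lit 7191266), (nat_lit 7315269), (nat_lit 7439328), (nat_lit 7563312), (nat_lit 7687107)]) (FT.cons (FT.leaf [(nat_lit 6845970), (nat_lit 6967471), (nat_lit 7089712), (nat_lit
 7212457), (nat_lit 7335508), (nat_lit 7458696), (nat_lit 7581880), (nat_lit 7704936)]) (FT.cons (FT.leaf [(nat_lit 7112561), (nat_lit 7234172), (nat_lit 7356201), (nat_lit 7478463), (nat_lit 7600800), (nat_lit 7723077)]) (FT.cons (FT.leaf [(nat_lit 7377408), (nat_lit 7498675), (nat_lit 7620110), (nat_lit 7741563)]) (FT.cons (FT.leaf [(nat_lit 7639856), (nat_lit 7760431)]) (FT.cons (FT.leaf [(nat_lit 7899414)]) (FT.cons (FT.leaf [(nat_lit 8155716)]) (FT.cons (FT.leaf [(nat_lit 8408498)]) FT.nil))))))))))) (FT.cons (FT.cons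 (FT.leaf [(nat_lit 6332110), (nat_lit 6447607), (nat_lit 6565327), (nat_lit 6684762), (nat_lit 6805510), (nat_lit 6927244), (nat_lit 7049693), (nat_lit 7172635), (nat_lit 7295875), (nat_lit 7419252), (nat_lit 7542628), (nat_lit 7665879), (nat_lit 7788903)]) (FT.cons (FT.leaf [(nat_lit 6593708), (nat_lit 6711378), (nat_lit 6830598), (nat_lit 6950989), (nat_lit 7072244), (nat_lit 7194109), (nat_lit 7316376), (nat_lit 7438863), (nat_lit 7561421), (nat_lit 7683919), (nat_lit 7806242), (nat_lit 7928296)]) (FT.cons (FT.leaf [(nat_lit 6856566), (nat_lit 6975470), (nat_lit 7095418), (nat_lit 7216122), (nat_lit 7337342), (nat_lit 7458883), (nat_lit 7580575), (nat_lit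
 7702277), (nat_lit 7823867), (nat_lit 7945241)]) (FT.cons (FT.leaf [(nat_lit 7119313), (nat_lit 7238744), (nat_lit 7358834), (nat_lit 7479357), (nat_lit 7600127), (nat_lit 7720987), (nat_lit 7841804), (nat_lit 7962465)]) (FT.cons (FT.leaf [(nat_lit 7380923), (nat_lit 7500344), (nat_lit 7620125), (nat_lit 7740088), (nat_lit 7860086), (nat_lit 7979994)]) (FT.cons (FT.leaf [(nat_lit 7640626), (nat_lit 7759625), (nat_lit 7878751), (nat_lit 7997861)]) (FT.cons (FT.leaf [(nat_lit 7897842), (nat_lit 8016103)]) (FT.cons (FT.leaf [(nat_lit 8152138)]) (FT.cons (FT.leaf [(nat_lit 8403195)]) (FT.cons (FT.leaf [(nat_lit 8650778)]) FT.nil)))))))))) (FT.cons (FT.cons (FT.leaf [(nat_lit 6869996), (nat_lit 6985929), (nat_lit 7103285), (nat_lit 7221701), (nat_lit 7340889), (nat_lit 7460610), (nat_lit 7580665), (nat_lit 7700888), (nat_lit 7821137), (nat_lit 7941290), (nat_lit 8061243)]) (FT.cons (FT.leaf [(nat_lit 7128407), (nat_lit 7245377), (nat_lit 7363294), (nat_lit 7481886),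 (nat_lit 7600928), (nat_lit 7720234), (nat_lit 7839645), (nat_lit 7959029), (nat_lit 8078274), (nat_lit 8197281)]) (FT.cons (FT.leaf [(nat_lit 7386405), (nat_lit 7503762), (nat_lit 7621706), (nat_lit 7740025), (nat_lit
 7858544), (nat_lit 7977115), (nat_lit 8095612), (nat_lit 8213929)]) (FT.cons (FT.leaf [(nat_lit 7643069), (nat_lit 7760320), (nat_lit 7877880), (nat_lit 7995582), (nat_lit 8113287), (nat_lit 8230878)]) (FT.cons (FT.leaf [(nat_lit 7897709), (nat_lit 8014478), (nat_lit 8131338), (nat_lit 8248158)]) (FT.cons (FT.leaf [(nat_lit 8149807), (nat_lit 8265805)]) (FT.cons (FT.leaf [(nat_lit 8398980)]) (FT.cons (FT.leaf [(nat_lit 8644944)]) FT.nil)))))))) (FT.cons (FT.cons (FT.leaf [(nat_lit 7394136), (nat_lit 7509154), (nat_lit 7625039), (nat_lit 7741529), (nat_lit 7858413), (nat_lit 7975514), (nat_lit 8092684)]) (FT.cons (FT.leaf [(nat_lit 7647400), (nat_lit 7762691), (nat_lit 7878510), (nat_lit 7994656), (nat_lit 8110961), (nat_lit 8227288)]) (FT.cons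 (FT.leaf [(nat_lit 7899181), (nat_lit 8014291), (nat_lit 8129667), (nat_lit 8245154)]) (FT.cons (FT.leaf [(nat_lit 8148856), (nat_lit 8263439)]) (FT.cons (FT.leaf [(nat_lit 8395963)]) (FT.cons (FT.leaf [(nat_lit 8640156)]) FT.nil)))))) (FT.cons (FT.cons (FT.leaf [(nat_lit 7902467), (nat_lit 8015713), (nat_lit 8129436), (nat_lit 8243446), (nat_lit 8357585)]) (FT.cons (FT.leaf [(nat_lit 8149448), (nat_lit 8262454), (nat_lit 8375692), (nat_lit
 8489013)]) (FT.cons (FT.leaf [(nat_lit 8394271), (nat_lit 8506717)]) (FT.cons (FT.leaf [(nat_lit 8636518)]) FT.nil)))) (FT.cons (FT.cons (FT.leaf [(nat_lit 8394063)]) (FT.cons (FT.leaf [(nat_lit 8634155)]) FT.nil)) (FT.cons (FT.cons (FT.leaf [(nat_lit 8868708)]) FT.nil) (FT.cons (FT.cons (FT.leaf [(nat_lit 9326615)]) FT.nil) (FT.cons (FT.cons (FT.leaf [(nat_lit 9768257)]) FT.nil) (FT.cons (FT.cons (FT.leaf [(nat_lit 10194256)]) FT.nil) FT.nil)))))))))))) (FT.cons (FT.cons (FT.cons (FT.leaf [(nat_lit 6015236), (nat_lit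 6116372), (nat_lit 6222187), (nat_lit 6331657), (nat_lit 6444028), (nat_lit 6558716), (nat_lit 6675250), (nat_lit 6793248), (nat_lit 6912391), (nat_lit 7032410), (nat_lit 7153077), (nat_lit 7274194), (nat_lit 7395593), (nat_lit 7517124), (nat_lit 7638662), (nat_lit 7760093), (nat_lit 7881321)]) (FT.cons (FT.leaf [(nat_lit 6256165), (nat_lit 6363077), (nat_lit 6473325), (nat_lit 6586206), (nat_lit 6701173), (nat_lit 6817791), (nat_lit 6935704), (nat_lit 7054615), (nat_lit 7174277), (nat_lit 7294475), (nat_lit 7415029), (nat_lit 7535781), (nat_lit 7656595), (nat_lit 7777351), (nat_lit 7897949), (nat_lit 8018296)]) (FT.cons (FT.leaf [(nat_lit 6503978), (nat_lit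
 6614790), (nat_lit 6727998), (nat_lit 6843089), (nat_lit 6959659), (nat_lit 7077373), (nat_lit 7195956), (nat_lit 7315176), (nat_lit 7434836), (nat_lit 7554767), (nat_lit 7674821), (nat_lit 7794874), (nat_lit 7914815), (nat_lit 8034549)]) (FT.cons (FT.leaf [(nat_lit 6755891), (nat_lit 6869269), (nat_lit 6984352), (nat_lit 7100758), (nat_lit 7218175), (nat_lit 7336347), (nat_lit 7455054), (nat_lit 7574114), (nat_lit 7693370), (nat_lit 7812684), (nat_lit 7931940), (nat_lit 8051036)]) (FT.cons (FT.leaf [(nat_lit 7009906), (nat_lit 7124865), (nat_lit 7241008), (nat_lit 7358044), (nat_lit 7475731), (nat_lit 7593865), (nat_lit 7712273), (nat_lit 7830809), (nat_lit 7949346), (nat_lit 8067776)]) (FT.cons (FT.leaf [(nat_lit 7264547), (nat_lit 7380343), (nat_lit 7496924), (nat_lit 7614063), (nat_lit 7731570), (nat_lit 7849282), (nat_lit 7967062), (nat_lit 8084792)]) (FT.cons (FT.leaf [(nat_lit 7518705), (nat_lit 7634768), (nat_lit 7751306), (nat_lit 7868140), (nat_lit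 7985118), (nat_lit 8102110)]) (FT.cons (FT.leaf [(nat_lit 7771537), (nat_lit 7887428), (nat_lit 8003551), (nat_lit 8119762)]) (FT.cons (FT.leaf [(nat_lit 8022406), (nat_lit 8137784)]) (FT.cons (FT.leaf [(nat_lit 8270825)])
 (FT.cons (FT.leaf [(nat_lit 8516429)]) (FT.cons (FT.leaf [(nat_lit 8758947)]) FT.nil)))))))))))) (FT.cons (FT.cons (FT.leaf [(nat_lit 6530283), (nat_lit 6636494), (nat_lit 6745805), (nat_lit 6857540), (nat_lit 6971178), (nat_lit 7086307), (nat_lit 7202592), (nat_lit 7319755), (nat_lit 7437564), (nat_lit 7555822), (nat_lit 7674359), (nat_lit 7793031), (nat_lit 7911713), (nat_lit 8030295), (nat_lit 8148682)]) (FT.cons (FT.leaf [(nat_lit 6775546), (nat_lit 6885248), (nat_lit 6997161), (nat_lit 7110798), (nat_lit 7225771), (nat_lit 7341768), (nat_lit 7458529), (nat_lit 7575836), (nat_lit 7693507), (nat_lit 7811383), (nat_lit 7929331), (nat_lit 8047232), (nat_lit 8164985), (nat_lit 8282503)]) (FT.cons (FT.leaf [(nat_lit 7024196), (nat_lit 7136155),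 (nat_lit 7249676), (nat_lit 7364398), (nat_lit 7480024), (nat_lit 7596311), (nat_lit 7713059), (nat_lit 7830091), (nat_lit 7947264), (nat_lit 8064451), (nat_lit 8181542), (nat_lit 8298444)]) (FT.cons (FT.leaf [(nat_lit 7274427), (nat_lit 7387736), (nat_lit 7502121), (nat_lit 7617305), (nat_lit 7733059), (nat_lit 7849194), (nat_lit 7965546), (nat_lit 8081979), (nat_lit 8198376), (nat_lit 8314633)]) (FT.cons (FT.leaf [(nat_lit 7524911),
 (nat_lit 7638887), (nat_lit 7753567), (nat_lit 7868736), (nat_lit 7984214), (nat_lit 8099849), (nat_lit 8215512), (nat_lit 8331094)]) (FT.cons (FT.leaf [(nat_lit 7774652), (nat_lit 7888775), (nat_lit 8003313), (nat_lit 8118097), (nat_lit 8232983), (nat_lit 8347852)]) (FT.cons (FT.leaf [(nat_lit 8022898), (nat_lit 8136767), (nat_lit 8250824), (nat_lit 8364936)]) (FT.cons (FT.leaf [(nat_lit 8269079), (nat_lit 8382383)]) (FT.cons (FT.leaf [(nat_lit 8512764)]) (FT.cons (FT.leaf [(nat_lit 8753628)]) (FT.cons (FT.leaf [(nat_lit 8991435)])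 FT.nil))))))))))) (FT.cons (FT.cons (FT.leaf [(nat_lit 7041882), (nat_lit 7150342), (nat_lit 7260854), (nat_lit 7372951), (nat_lit 7486265), (nat_lit 7600499), (nat_lit 7715408), (nat_lit 7830788), (nat_lit 7946468), (nat_lit 8062300), (nat_lit 8178160), (nat_lit 8293938), (nat_lit 8409542)]) (FT.cons (FT.leaf [(nat_lit 7287056), (nat_lit 7397513), (nat_lit 7509411), (nat_lit 7622402), (nat_lit 7736208), (nat_lit 7850599), (nat_lit 7965382), (nat_lit 8080397), (nat_lit 8195508), (nat_lit 8310596), (nat_lit 8425558), (nat_lit 8540308)]) (FT.cons (FT.leaf [(nat_lit 7533388), (nat_lit 7645002), (nat_lit 7757600), (nat_lit 7870917), (nat_lit 7984738),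
 (nat_lit 8098882), (nat_lit 8213197), (nat_lit 8327556), (nat_lit 8441847), (nat_lit 8555975)]) (FT.cons (FT.leaf [(nat_lit 7779672), (nat_lit 7891814), (nat_lit 8004591), (nat_lit 8117798), (nat_lit 8231266), (nat_lit 8344851), (nat_lit 8458433), (nat_lit 8571908)]) (FT.cons (FT.leaf [(nat_lit 8025010), (nat_lit 8137201), (nat_lit 8249757), (nat_lit 8362517), (nat_lit 8475346), (nat_lit 8588131)]) (FT.cons (FT.leaf [(nat_lit 8268725), (nat_lit 8380597), (nat_lit 8492623), (nat_lit 8604674)]) (FT.cons (FT.leaf [(nat_lit 8510305), (nat_lit 8621574)]) (FT.cons (FT.leaf [(nat_lit 8749365)]) (FT.cons (FT.leaf [(nat_lit 8985618)]) (FT.cons (FT.leaf [(nat_lit 9218850)]) FT.nil)))))))))) (FT.cons (FT.cons (FT.leaf [(nat_lit 7544504), (nat_lit 7653405), (nat_lit 7763639), (nat_lit 7874877), (nat_lit 7986851), (nat_lit 8099345), (nat_lit 8212177), (nat_lit 8325195), (nat_lit 8438272)]) (FT.cons (FT.leaf [(nat_lit 7786872), (nat_lit 7896768), (nat_lit 8007567), (nat_lit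 8119019), (nat_lit 8230917), (nat_lit 8343090), (nat_lit 8455397), (nat_lit 8567715)]) (FT.cons (FT.leaf [(nat_lit 8028952), (nat_lit 8139260), (nat_lit 8250144), (nat_lit 8361409), (nat_lit 8472893), (nat_lit 8584464)])
 (FT.cons (FT.leaf [(nat_lit 8269927), (nat_lit 8380205), (nat_lit 8490805), (nat_lit 8601575)]) (FT.cons (FT.leaf [(nat_lit 8509184), (nat_lit 8619093)]) (FT.cons (FT.leaf [(nat_lit 8746262)]) (FT.cons (FT.leaf [(nat_lit 8980815)]) (FT.cons (FT.leaf [(nat_lit 9212583)]) FT.nil)))))))) (FT.cons (FT.cons (FT.leaf [(nat_lit 8034989), (nat_lit 8143158), (nat_lit 8252161), (nat_lit 8361758), (nat_lit 8471753), (nat_lit 8581984), (nat_lit 8692317)]) (FT.cons (FT.leaf [(nat_lit 8272887), (nat_lit 8381373), (nat_lit 8490384), (nat_lit 8599733), (nat_lit 8709269), (nat_lit 8818862)]) (FT.cons (FT.leaf [(nat_lit 8509559), (nat_lit 8617950), (nat_lit 8726627), (nat_lit 8835445)]) (FT.cons (FT.leaf [(nat_lit 8744445), (nat_lit 8852427)]) (FT.cons (FT.leaf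 [(nat_lit 8977126)]) (FT.cons (FT.leaf [(nat_lit 9207290)]) FT.nil)))))) (FT.cons (FT.cons (FT.leaf [(nat_lit 8511624), (nat_lit 8618307), (nat_lit 8725471), (nat_lit 8832938), (nat_lit 8940562)]) (FT.cons (FT.leaf [(nat_lit 8744065), (nat_lit 8850602), (nat_lit 8957394), (nat_lit 9064302)]) (FT.cons (FT.leaf [(nat_lit 8974675), (nat_lit 9080773)]) (FT.cons (FT.leaf [(nat_lit 9203072)]) FT.nil)))) (FT.cons (FT.cons (FT.leaf [(nat_lit
 8973610)]) (FT.cons (FT.leaf [(nat_lit 9200045)]) FT.nil)) (FT.cons (FT.cons (FT.leaf [(nat_lit 9420718)]) FT.nil) (FT.cons (FT.cons (FT.leaf [(nat_lit 9853081)]) FT.nil) (FT.cons (FT.cons (FT.leaf [(nat_lit 10271053)]) FT.nil) FT.nil)))))))))) (FT.cons (FT.cons (FT.cons (FT.leaf [(nat_lit 7217640), (nat_lit 7317887), (nat_lit 7420996), (nat_lit 7526340), (nat_lit 7633437), (nat_lit 7741910), (nat_lit 7851451), (nat_lit 7961809), (nat_lit 8072771), (nat_lit 8184160), (nat_lit 8295824), (nat_lit 8407630), (nat_lit 8519467), (nat_lit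 8631236), (nat_lit 8742851)]) (FT.cons (FT.leaf [(nat_lit 7448587), (nat_lit 7552026), (nat_lit 7657511), (nat_lit 7764592), (nat_lit 7872913), (nat_lit 7982188), (nat_lit 8092179), (nat_lit 8202690), (nat_lit 8313552), (nat_lit 8424625), (nat_lit 8535786), (nat_lit 8646930), (nat_lit 8757963), (nat_lit 8868809)]) (FT.cons (FT.leaf [(nat_lit 7682581), (nat_lit 7788095), (nat_lit 7895063), (nat_lit 8003152), (nat_lit 8112091), (nat_lit 8221657), (nat_lit 8331665), (nat_lit 8441960), (nat_lit 8552407), (nat_lit 8662893), (nat_lit 8773318), (nat_lit 8883597)]) (FT.cons (FT.leaf [(nat_lit 7918015), (nat_lit 8024788), (nat_lit 8132573), (nat_lit 8241115),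
 (nat_lit 8350206), (nat_lit 8459669), (nat_lit 8569359), (nat_lit 8679151), (nat_lit 8788936), (nat_lit 8898623)]) (FT.cons (FT.leaf [(nat_lit 8153713), (nat_lit 8261134), (nat_lit 8369228), (nat_lit 8477797), (nat_lit 8586679), (nat_lit 8695733), (nat_lit 8804843), (nat_lit 8913907)]) (FT.cons (FT.leaf [(nat_lit 8388797), (nat_lit 8496397), (nat_lit 8604408), (nat_lit 8712675), (nat_lit 8821068), (nat_lit 8929473)]) (FT.cons (FT.leaf [(nat_lit 8622599), (nat_lit 8730019), (nat_lit 8837644), (nat_lit 8945352)]) (FT.cons (FT.leaf [(nat_lit 8854614), (nat_lit 8961575)]) (FT.cons (FT.leaf [(nat_lit 9084458)]) (FT.cons (FT.leaf [(nat_lit 9311840)]) (FT.cons (FT.leaf [(nat_lit 9536540)]) FT.nil))))))))))) (FT.cons (FT.cons (FT.leaf [(nat_lit 7697702), (nat_lit 7799999), (nat_lit 7904208), (nat_lit 8009895), (nat_lit 8116721), (nat_lit 8224413), (nat_lit 8332748), (nat_lit 8441540), (nat_lit 8550629), (nat_lit 8659885), (nat_lit 8769191), (nat_lit 8878450), (nat_lit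 8987577)]) (FT.cons (FT.leaf [(nat_lit 7928535), (nat_lit 8032691), (nat_lit 8138198), (nat_lit 8244736), (nat_lit 8352046), (nat_lit 8459920), (nat_lit 8568180), (nat_lit 8676682), (nat_lit 8785297), (nat_lit 8893919),
 (nat_lit 9002456), (nat_lit 9110827)]) (FT.cons (FT.leaf [(nat_lit 8160463), (nat_lit 8265718), (nat_lit 8371906), (nat_lit 8478783), (nat_lit 8586152), (nat_lit 8693847), (nat_lit 8801727), (nat_lit 8909677), (nat_lit 9017594), (nat_lit 9125392)]) (FT.cons (FT.leaf [(nat_lit 8392411), (nat_lit 8498196), (nat_lit 8604596), (nat_lit 8711422), (nat_lit 8818518), (nat_lit 8925753), (nat_lit 9033015), (nat_lit 9140210)]) (FT.cons (FT.leaf [(nat_lit 8623577), (nat_lit 8729460), (nat_lit 8835711), (nat_lit 8942182), (nat_lit 9048749), (nat_lit 9155305)]) (FT.cons (FT.leaf [(nat_lit 8853357), (nat_lit 8959005), (nat_lit 9064828), (nat_lit 9170707)]) (FT.cons (FT.leaf [(nat_lit 9081293), (nat_lit 9186447)]) (FT.cons (FT.leaf [(nat_lit 9307036)])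 (FT.cons (FT.leaf [(nat_lit 9530325)]) (FT.cons (FT.leaf [(nat_lit 9750964)]) FT.nil)))))))))) (FT.cons (FT.cons (FT.leaf [(nat_lit 8169680), (nat_lit 8272439), (nat_lit 8376456), (nat_lit 8481427), (nat_lit 8587106), (nat_lit 8693291), (nat_lit 8799816), (nat_lit 8906543), (nat_lit 9013352)]) (FT.cons (FT.leaf [(nat_lit 8398062), (nat_lit 8501783), (nat_lit 8606368), (nat_lit 8711584), (nat_lit 8817244), (nat_lit 8923187), (nat_lit 9029284),
 (nat_lit 9135422)]) (FT.cons (FT.leaf [(nat_lit 8626264), (nat_lit 8730418), (nat_lit 8835134), (nat_lit 8940235), (nat_lit 9045570), (nat_lit 9151015)]) (FT.cons (FT.leaf [(nat_lit 8853553), (nat_lit 8957737), (nat_lit 9062251), (nat_lit 9166955)]) (FT.cons (FT.leaf [(nat_lit 9079376), (nat_lit 9183281)]) (FT.cons (FT.leaf [(nat_lit 9303316)]) (FT.cons (FT.leaf [(nat_lit 9525057)]) (FT.cons (FT.leaf [(nat_lit 9744362)]) FT.nil)))))))) (FT.cons (FT.cons (FT.leaf [(nat_lit 8630911), (nat_lit 8733094), (nat_lit 8836080),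 (nat_lit 8939648), (nat_lit 9043615), (nat_lit 9147833), (nat_lit 9252176)]) (FT.cons (FT.leaf [(nat_lit 8855393), (nat_lit 8957927), (nat_lit 9060978), (nat_lit 9164377), (nat_lit 9267980), (nat_lit 9371669)]) (FT.cons (FT.leaf [(nat_lit 9078859), (nat_lit 9181366), (nat_lit 9284172), (nat_lit 9387141)]) (FT.cons (FT.leaf [(nat_lit 9300800), (nat_lit 9402993)]) (FT.cons (FT.leaf [(nat_lit 9520835)]) (FT.cons (FT.leaf [(nat_lit 9738675)]) FT.nil)))))) (FT.cons (FT.cons (FT.leaf [(nat_lit 9079925), (nat_lit 9180855), (nat_lit 9282265)]) (FT.cons (FT.leaf [(nat_lit 9299631), (nat_lit 9400489)]) (FT.cons (FT.leaf [(nat_lit 9517770)]) (FT.cons (FT.leaf [(nat_lit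
 9733993)]) FT.nil)))) (FT.cons (FT.cons (FT.leaf [(nat_lit 9516006)]) (FT.cons (FT.leaf [(nat_lit 9730429)]) FT.nil)) (FT.cons (FT.cons (FT.leaf [(nat_lit 9938915)]) FT.nil) (FT.cons (FT.cons (FT.leaf [(nat_lit 10348723)]) FT.nil) FT.nil)))))))) (FT.cons (FT.cons (FT.cons (FT.leaf [(nat_lit 8307410), (nat_lit 8404271), (nat_lit 8502925), (nat_lit 8602967), (nat_lit 8704083), (nat_lit 8806020), (nat_lit 8908571), (nat_lit 9011565), (nat_lit 9114856), (nat_lit 9218324), (nat_lit 9321861)]) (FT.cons (FT.leaf [(nat_lit 8525624), (nat_lit 8624230), (nat_lit 8724112), (nat_lit 8824969), (nat_lit 8926565), (nat_lit 9028704), (nat_lit 9131224), (nat_lit 9233991), (nat_lit 9336885), (nat_lit 9439813)]) (FT.cons (FT.leaf [(nat_lit 8744890), (nat_lit 8844547), (nat_lit 8945093), (nat_lit 9046303), (nat_lit 9147993), (nat_lit 9250008), (nat_lit 9352222), (nat_lit 9454523)]) (FT.cons (FT.leaf [(nat_lit 8964237), (nat_lit 9064426), (nat_lit 9165212), (nat_lit 9266418),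 (nat_lit 9367901), (nat_lit 9469539)]) (FT.cons (FT.leaf [(nat_lit 9182942), (nat_lit 9283269), (nat_lit 9383964), (nat_lit 9484891)]) (FT.cons (FT.leaf [(nat_lit 9400459), (nat_lit 9500618)]) (FT.cons (FT.leaf [(nat_lit
 9616372)]) FT.nil))))))) (FT.cons (FT.cons (FT.leaf [(nat_lit 8752527), (nat_lit 8849874), (nat_lit 8948416), (nat_lit 9047867), (nat_lit 9147999), (nat_lit 9248624), (nat_lit 9349591), (nat_lit 9450768), (nat_lit 9552047)]) (FT.cons (FT.leaf [(nat_lit 8968605), (nat_lit 9066885), (nat_lit 9165995), (nat_lit 9265716), (nat_lit 9365875), (nat_lit 9466323), (nat_lit 9566940), (nat_lit 9667622)]) (FT.cons (FT.leaf [(nat_lit 9184595), (nat_lit 9283323), (nat_lit 9382601), (nat_lit 9482263), (nat_lit 9582170), (nat_lit 9682206)]) (FT.cons (FT.leaf [(nat_lit 9399830), (nat_lit 9498636), (nat_lit 9597777), (nat_lit 9697123)]) (FT.cons (FT.leaf [(nat_lit 9613808), (nat_lit 9712407)]) (FT.cons (FT.leaf [(nat_lit 9826147)]) FT.nil)))))) (FT.cons (FT.cons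 (FT.leaf [(nat_lit 9188088), (nat_lit 9284989), (nat_lit 9382666), (nat_lit 9480910), (nat_lit 9579554)]) (FT.cons (FT.leaf [(nat_lit 9400745), (nat_lit 9498021), (nat_lit 9595809), (nat_lit 9693948)]) (FT.cons (FT.leaf [(nat_lit 9612558), (nat_lit 9709862)]) (FT.cons (FT.leaf [(nat_lit 9823061)]) FT.nil)))) (FT.cons (FT.cons (FT.leaf [(nat_lit 9612797), (nat_lit 9708637), (nat_lit 9804953)]) (FT.cons (FT.leaf [(nat_lit 9821242), (nat_lit
 9917069)]) FT.nil)) (FT.cons (FT.cons (FT.leaf [(nat_lit 10026000)]) FT.nil) (FT.cons (FT.cons (FT.leaf [(nat_lit 10427452)]) FT.nil) FT.nil)))))) (FT.cons (FT.cons (FT.cons (FT.leaf [(nat_lit 9298655), (nat_lit 9391195), (nat_lit 9484873), (nat_lit 9579420), (nat_lit 9674623), (nat_lit 9770309), (nat_lit 9866333)]) (FT.cons (FT.leaf [(nat_lit 9503818), (nat_lit 9597265), (nat_lit 9691508), (nat_lit 9786346), (nat_lit 9881613), (nat_lit 9977174)]) (FT.cons (FT.leaf [(nat_lit 9708969), (nat_lit 9802873), (nat_lit 9897315),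 (nat_lit 9992139)]) (FT.cons (FT.leaf [(nat_lit 9913498), (nat_lit 10007518)]) (FT.cons (FT.leaf [(nat_lit 10116943)]) FT.nil))))) (FT.cons (FT.cons (FT.leaf [(nat_lit 9711494), (nat_lit 9803696), (nat_lit 9896648), (nat_lit 9990153), (nat_lit 10084055)]) (FT.cons (FT.leaf [(nat_lit 9913641), (nat_lit 10006237), (nat_lit 10099335), (nat_lit 10192784)]) (FT.cons (FT.leaf [(nat_lit 10115086), (nat_lit 10207753)]) (FT.cons (FT.leaf [(nat_lit 10315399)]) FT.nil)))) (FT.cons (FT.cons (FT.leaf [(nat_lit 10114634)]) (FT.cons (FT.leaf [(nat_lit 10313041)]) FT.nil)) (FT.cons (FT.cons (FT.leaf [(nat_lit 10507466)]) FT.nil) FT.nil)))) (FT.cons (FT.cons (FT.cons (FT.leaf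
 [(nat_lit 10205191)]) FT.nil) (FT.cons (FT.cons (FT.leaf [(nat_lit 10589043)]) FT.nil) FT.nil)) (FT.cons (FT.cons (FT.cons (FT.leaf [(nat_lit 11039026)]) FT.nil) FT.nil) (FT.cons (FT.cons (FT.cons (FT.leaf [(nat_lit 11810207)]) FT.nil) FT.nil) (FT.cons (FT.cons (FT.cons (FT.leaf [(nat_lit 12527035)]) FT.nil) FT.nil) FT.nil))))))))))

def f192_0_400 : FT := (FT.cons (FT.cons (FT.cons (FT.leaf [(nat_lit 3976006), (nat_lit 4076509), (nat_lit 4185424), (nat_lit 4301010), (nat_lit 4421993), (nat_lit 4547388), (nat_lit 4676400), (nat_lit 4808374), (nat_lit 4942760), (nat_lit 5079087), (nat_lit 5216953), (nat_lit 5356009), (nat_lit 5495949), (nat_lit 5636511), (nat_lit 5777463), (nat_lit 5918602), (nat_lit 6059747), (nat_lit 6200748), (nat_lit 6341464), (nat_lit 6481778), (nat_lit 6621582), (nat_lit 6760787), (nat_lit 6899313)]) (FT.cons (FT.leaf [(nat_lit 4230222), (nat_lit 4342294), (nat_lit 4460418), (nat_lit 4583407), (nat_lit 4710343), (nat_lit 4840492), (nat_lit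 4973249), (nat_lit 5108107), (nat_lit 5244635), (nat_lit 5382464), (nat_lit 5521273), (nat_lit 5660786), (nat_lit 5800762), (nat_lit 5940987), (nat_lit 6081280), (nat_lit 6221477), (nat_lit 6361437), (nat_lit 6501037), (nat_lit 6640168), (nat_lit 6778735), (nat_lit 6916657), (nat_lit 7053860)]) (FT.cons (FT.leaf [(nat_lit 4500840), (nat_lit 4620997), (nat_lit 4745554), (nat_lit 4873654), (nat_lit 5004613), (nat_lit 5137870), (nat_lit 5272956), (nat_lit 5409473), (nat_lit 5547082), (nat_lit 5685488), (nat_lit 5824438), (nat_lit 5963710), (nat_lit 6103113), (nat_lit 6242477),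
 (nat_lit 6381656), (nat_lit 6520520), (nat_lit 6658957), (nat_lit 6796869), (nat_lit 6934170), (nat_lit 7070784)]) (FT.cons (FT.leaf [(nat_lit 4782303), (nat_lit 4908058), (nat_lit 5037000), (nat_lit 5168489), (nat_lit 5302003), (nat_lit 5437106), (nat_lit 5573430), (nat_lit 5710662), (nat_lit 5848531), (nat_lit 5986803), (nat_lit 6125277), (nat_lit 6263773), (nat_lit 6402141), (nat_lit 6540243), (nat_lit 6677964), (nat_lit 6815201), (nat_lit 6951863), (nat_lit 7087877)]) (FT.cons (FT.leaf [(nat_lit 5070600), (nat_lit 5200108), (nat_lit 5331887), (nat_lit 5465449), (nat_lit 5600390), (nat_lit 5736366), (nat_lit 5873087), (nat_lit 6010303), (nat_lit 6147800), (nat_lit 6285391), (nat_lit 6422913), (nat_lit 6560226), (nat_lit 6697206), (nat_lit 6833746), (nat_lit 6969754), (nat_lit 7105147)]) (FT.cons (FT.leaf [(nat_lit 5362749), (nat_lit 5494612), (nat_lit 5628044), (nat_lit 5762666), (nat_lit 5898160), (nat_lit 6034256), (nat_lit 6170724), (nat_lit 6307363),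 (nat_lit 6444002), (nat_lit 6580492), (nat_lit 6716704), (nat_lit 6852523), (nat_lit 6987853), (nat_lit 7122609)]) (FT.cons (FT.leaf [(nat_lit 5656499), (nat_lit 5789647), (nat_lit 5923818), (nat_lit 6058716), (nat_lit
 6194090), (nat_lit 6329726), (nat_lit 6465438), (nat_lit 6601069), (nat_lit 6736479), (nat_lit 6871550), (nat_lit 7006180), (nat_lit 7140276)]) (FT.cons (FT.leaf [(nat_lit 5950141), (nat_lit 6083747), (nat_lit 6217953), (nat_lit 6352522), (nat_lit 6487257), (nat_lit 6621983), (nat_lit 6756557), (nat_lit 6890849), (nat_lit 7024750), (nat_lit 7158166)]) (FT.cons (FT.leaf [(nat_lit 6242375), (nat_lit 6375804), (nat_lit 6509500), (nat_lit 6643274), (nat_lit 6776968), (nat_lit 6910445), (nat_lit 7043589), (nat_lit 7176295)]) (FT.cons (FT.leaf [(nat_lit 6532218), (nat_lit 6664980), (nat_lit 6797746), (nat_lit 6930367), (nat_lit 7062718), (nat_lit 7194686)]) (FT.cons (FT.leaf [(nat_lit 6818932), (nat_lit 6950649), (nat_lit 7082166), (nat_lit 7213363)])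 (FT.cons (FT.leaf [(nat_lit 7101966), (nat_lit 7232353)]) (FT.cons (FT.leaf [(nat_lit 7380923)]) (FT.cons (FT.leaf [(nat_lit 7655520)]) (FT.cons (FT.leaf [(nat_lit 7925566)]) (FT.cons (FT.leaf [(nat_lit 8190943)]) FT.nil)))))))))))))))) (FT.cons (FT.cons (FT.leaf [(nat_lit 4549163), (nat_lit 4662106), (nat_lit 4780617), (nat_lit 4903538), (nat_lit 5029989), (nat_lit 5159278), (nat_lit 5290839), (nat_lit 5424203), (nat_lit 5558975),
 (nat_lit 5694821), (nat_lit 5831448), (nat_lit 5968606), (nat_lit 6106083), (nat_lit 6243685), (nat_lit 6381252), (nat_lit 6518638), (nat_lit 6655716), (nat_lit 6792380), (nat_lit 6928532), (nat_lit 7064090), (nat_lit 7198982)]) (FT.cons (FT.leaf [(nat_lit 4820008), (nat_lit 4940076), (nat_lit 5064145), (nat_lit 5191391), (nat_lit 5321168), (nat_lit 5452950), (nat_lit 5586304), (nat_lit 5720862), (nat_lit 5856316), (nat_lit 5992398), (nat_lit 6128877), (nat_lit 6265556), (nat_lit 6402262), (nat_lit 6538843), (nat_lit 6675169),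 (nat_lit 6811125), (nat_lit 6946610), (nat_lit 7081539), (nat_lit 7215835), (nat_lit 7349433)]) (FT.cons (FT.leaf [(nat_lit 5099817), (nat_lit 5224727), (nat_lit 5352503), (nat_lit 5482540), (nat_lit 5614346), (nat_lit 5747518), (nat_lit 5881716), (nat_lit 6016652), (nat_lit 6152081), (nat_lit 6287790), (nat_lit 6423595), (nat_lit 6559338), (nat_lit 6694883), (nat_lit 6830105), (nat_lit 6964902), (nat_lit 7099182), (nat_lit 7232867), (nat_lit 7365886)]) (FT.cons (FT.leaf [(nat_lit 5385033), (nat_lit 5513111), (nat_lit 5643210), (nat_lit 5774871), (nat_lit 5907715), (nat_lit 6041427), (nat_lit 6175739), (nat_lit 6310423), (nat_lit 6445284), (nat_lit 6580151),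
 (nat_lit 6714880), (nat_lit 6849340), (nat_lit 6983424), (nat_lit 7117036), (nat_lit 7250090), (nat_lit 7382516)]) (FT.cons (FT.leaf [(nat_lit 5673036), (nat_lit 5803028), (nat_lit 5934396), (nat_lit 6066787), (nat_lit 6199905), (nat_lit 6333501), (nat_lit 6467363), (nat_lit 6601311), (nat_lit 6735186), (nat_lit 6868853), (nat_lit 7002198), (nat_lit 7135116), (nat_lit 7267519), (nat_lit 7399332)]) (FT.cons (FT.leaf [(nat_lit 5961864), (nat_lit 6092814), (nat_lit 6224643), (nat_lit 6357075), (nat_lit 6489877), (nat_lit 6622853), (nat_lit 6755832), (nat_lit 6888671), (nat_lit 7021243), (nat_lit 7153441), (nat_lit 7285171), (nat_lit 7416351)]) (FT.cons (FT.leaf [(nat_lit 6250034), (nat_lit 6381210), (nat_lit 6512878), (nat_lit 6644821), (nat_lit 6776854), (nat_lit 6908820), (nat_lit 7040585), (nat_lit 7172033), (nat_lit 7303062), (nat_lit 7433587)]) (FT.cons (FT.leaf [(nat_lit 6536427), (nat_lit 6667264), (nat_lit 6798292), (nat_lit 6929338), (nat_lit 7060254),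 (nat_lit 7190915), (nat_lit 7321215), (nat_lit 7451059)]) (FT.cons (FT.leaf [(nat_lit 6820196), (nat_lit 6950262), (nat_lit 7080282), (nat_lit 7210118), (nat_lit 7339653), (nat_lit 7468788)]) (FT.cons (FT.leaf [(nat_lit
 7100710), (nat_lit 7229673), (nat_lit 7358406), (nat_lit 7486796)]) (FT.cons (FT.leaf [(nat_lit 7377502), (nat_lit 7505111)]) (FT.cons (FT.leaf [(nat_lit 7650235)]) (FT.cons (FT.leaf [(nat_lit 7918673)]) (FT.cons (FT.leaf [(nat_lit 8182661)]) (FT.cons (FT.leaf [(nat_lit 8442104)]) FT.nil))))))))))))))) (FT.cons (FT.cons (FT.leaf [(nat_lit 5134126), (nat_lit 5253620), (nat_lit 5376774), (nat_lit 5502803), (nat_lit 5631089), (nat_lit 5761142), (nat_lit 5892554), (nat_lit 6024990), (nat_lit 6158162), (nat_lit 6291826), (nat_lit 6425773), (nat_lit 6559823), (nat_lit 6693820), (nat_lit 6827628), (nat_lit 6961127), (nat_lit 7094217), (nat_lit 7226807), (nat_lit 7358820), (nat_lit 7490188)]) (FT.cons (FT.leaf [(nat_lit 5411349), (nat_lit 5535067),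 (nat_lit 5661382), (nat_lit 5789719), (nat_lit 5919617), (nat_lit 6050697), (nat_lit 6182646), (nat_lit 6315198), (nat_lit 6448125), (nat_lit 6581237), (nat_lit 6714364), (nat_lit 6847363), (nat_lit 6980110), (nat_lit 7112494), (nat_lit 7244423), (nat_lit 7375813), (nat_lit 7506594), (nat_lit 7636705)]) (FT.cons (FT.leaf [(nat_lit 5692848), (nat_lit 5819261), (nat_lit 5947486), (nat_lit 6077090), (nat_lit 6207718), (nat_lit 6339079), (nat_lit
 6470924), (nat_lit 6603043), (nat_lit 6735256), (nat_lit 6867409), (nat_lit 6999370), (nat_lit 7131021), (nat_lit 7262265), (nat_lit 7393011), (nat_lit 7523188), (nat_lit 7652728)]) (FT.cons (FT.leaf [(nat_lit 5976298), (nat_lit 6104271), (nat_lit 6233460), (nat_lit 6363535), (nat_lit 6494220), (nat_lit 6625284), (nat_lit 6756532), (nat_lit 6887796), (nat_lit 7018934), (nat_lit 7149821), (nat_lit 7280351), (nat_lit 7410431), (nat_lit 7539983), (nat_lit 7668937)]) (FT.cons (FT.leaf [(nat_lit 6259973), (nat_lit 6388645),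 (nat_lit 6518078), (nat_lit 6648012), (nat_lit 6778234), (nat_lit 6908558), (nat_lit 7038831), (nat_lit 7168918), (nat_lit 7298705), (nat_lit 7428093), (nat_lit 7556997), (nat_lit 7685342)]) (FT.cons (FT.leaf [(nat_lit 6542575), (nat_lit 6671290), (nat_lit 6800412), (nat_lit 6929737), (nat_lit 7059096), (nat_lit 7188342), (nat_lit 7317350), (nat_lit 7446016), (nat_lit 7574245), (nat_lit 7701960)]) (FT.cons (FT.leaf [(nat_lit 6823127), (nat_lit 6951383), (nat_lit 7079769), (nat_lit 7208125), (nat_lit 7336315), (nat_lit 7464223), (nat_lit 7591750), (nat_lit 7718811)]) (FT.cons (FT.leaf [(nat_lit 7100898), (nat_lit 7228308), (nat_lit 7355632), (nat_lit 7482744),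
 (nat_lit 7609535), (nat_lit 7735912)]) (FT.cons (FT.leaf [(nat_lit 7375342), (nat_lit 7501611), (nat_lit 7627627), (nat_lit 7753287)]) (FT.cons (FT.leaf [(nat_lit 7646057), (nat_lit 7770963)]) (FT.cons (FT.leaf [(nat_lit 7912758)]) (FT.cons (FT.leaf [(nat_lit 8175247)]) (FT.cons (FT.leaf [(nat_lit 8433396)]) FT.nil))))))))))))) (FT.cons (FT.cons (FT.leaf [(nat_lit 5716530), (nat_lit 5838804), (nat_lit 5963449), (nat_lit 6089917), (nat_lit 6217773), (nat_lit 6346660), (nat_lit 6476288), (nat_lit 6606408), (nat_lit 6736813), (nat_lit 6867324), (nat_lit 6997789), (nat_lit 7128075), (nat_lit 7258069), (nat_lit 7387671), (nat_lit 7516797)]) (FT.cons (FT.leaf [(nat_lit 5993873), (nat_lit 6118457), (nat_lit 6244678), (nat_lit 6372127), (nat_lit 6500471), (nat_lit 6629435), (nat_lit 6758790), (nat_lit 6888342), (nat_lit 7017924), (nat_lit 7147394), (nat_lit 7276631), (nat_lit 7405528), (nat_lit 7533994), (nat_lit 7661953)]) (FT.cons (FT.leaf [(nat_lit 6272509),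 (nat_lit 6398367), (nat_lit 6525310), (nat_lit 6653025), (nat_lit 6781256), (nat_lit 6909786), (nat_lit 7038435), (nat_lit 7167047), (nat_lit 7295490), (nat_lit 7423651), (nat_lit 7551433), (nat_lit 7678750)]) (FT.cons (FT.leaf
 [(nat_lit 6550905), (nat_lit 6677257), (nat_lit 6804272), (nat_lit 6931708), (nat_lit 7059363), (nat_lit 7187068), (nat_lit 7314676), (nat_lit 7442067), (nat_lit 7569132), (nat_lit 7695782)]) (FT.cons (FT.leaf [(nat_lit 6827915), (nat_lit 6954168), (nat_lit 7080759), (nat_lit 7207497), (nat_lit 7334223), (nat_lit 7460801), (nat_lit 7587117), (nat_lit 7713071)]) (FT.cons (FT.leaf [(nat_lit 7102681), (nat_lit 7228383), (nat_lit 7354169), (nat_lit 7479889), (nat_lit 7605415), (nat_lit 7730640)]) (FT.cons (FT.leaf [(nat_lit 7374563), (nat_lit 7499368), (nat_lit 7624058), (nat_lit 7748516)]) (FT.cons (FT.leaf [(nat_lit 7643086), (nat_lit 7766730)]) (FT.cons (FT.leaf [(nat_lit 7907904)]) (FT.cons (FT.leaf [(nat_lit 8168770)]) (FT.cons (FT.leaf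 [(nat_lit 8425519)]) FT.nil))))))))))) (FT.cons (FT.cons (FT.leaf [(nat_lit 6288056), (nat_lit 6410703), (nat_lit 6534839), (nat_lit 6660077), (nat_lit 6786102), (nat_lit 6912657), (nat_lit 7039526), (nat_lit 7166530), (nat_lit 7293514), (nat_lit 7420348), (nat_lit 7546917), (nat_lit 7673126), (nat_lit 7798891)]) (FT.cons (FT.leaf [(nat_lit 6561724), (nat_lit 6685413), (nat_lit 6810077), (nat_lit 6935420), (nat_lit 7061201), (nat_lit 7187217),
 (nat_lit 7313300), (nat_lit 7439304), (nat_lit 7565110), (nat_lit 7690609), (nat_lit 7815715), (nat_lit 7940346)]) (FT.cons (FT.leaf [(nat_lit 6834792), (nat_lit 6958812), (nat_lit 7083414), (nat_lit 7208371), (nat_lit 7333493), (nat_lit 7458622), (nat_lit 7583622), (nat_lit 7708379), (nat_lit 7832795), (nat_lit 7956784)]) (FT.cons (FT.leaf [(nat_lit 7106241), (nat_lit 7230053), (nat_lit 7354145), (nat_lit 7478339), (nat_lit 7602487), (nat_lit 7726461), (nat_lit 7850154), (nat_lit 7973474)]) (FT.cons (FT.leaf [(nat_lit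 7375312), (nat_lit 7498505), (nat_lit 7621744), (nat_lit 7744888), (nat_lit 7867820), (nat_lit 7990437)]) (FT.cons (FT.leaf [(nat_lit 7641439), (nat_lit 7763700), (nat_lit 7885825), (nat_lit 8007701)]) (FT.cons (FT.leaf [(nat_lit 7904206), (nat_lit 8025298)]) (FT.cons (FT.leaf [(nat_lit 8163311)]) (FT.cons (FT.leaf [(nat_lit 8418542)]) (FT.cons (FT.leaf [(nat_lit 8669756)]) FT.nil)))))))))) (FT.cons (FT.cons (FT.leaf [(nat_lit 6844057), (nat_lit 6965553), (nat_lit 7087931), (nat_lit 7210911), (nat_lit 7334265), (nat_lit 7457802), (nat_lit 7581365), (nat_lit 7704819), (nat_lit 7828049), (nat_lit 7950959), (nat_lit 8073463)]) (FT.cons (FT.leaf [(nat_lit 7111807),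
 (nat_lit 7233503), (nat_lit 7355715), (nat_lit 7478228), (nat_lit 7600862), (nat_lit 7723469), (nat_lit 7845923), (nat_lit 7968116), (nat_lit 8089957), (nat_lit 8211368)]) (FT.cons (FT.leaf [(nat_lit 7377766), (nat_lit 7499169), (nat_lit 7620807), (nat_lit 7742511), (nat_lit 7864142), (nat_lit 7985580), (nat_lit 8106724), (nat_lit 8227490)]) (FT.cons (FT.leaf [(nat_lit 7641257), (nat_lit 7761992), (nat_lit 7882745), (nat_lit 8003383), (nat_lit 8123793), (nat_lit 8243881)]) (FT.cons (FT.leaf [(nat_lit 7901777), (nat_lit 8021561), (nat_lit 8141192), (nat_lit 8260565)]) (FT.cons (FT.leaf [(nat_lit 8158960), (nat_lit 8277575)]) (FT.cons (FT.leaf [(nat_lit 8412539)]) (FT.cons (FT.leaf [(nat_lit 8662331)]) FT.nil)))))))) (FT.cons (FT.cons (FT.leaf [(nat_lit 7382142), (nat_lit 7501539), (nat_lit 7621397), (nat_lit 7741511), (nat_lit 7861712), (nat_lit 7981859), (nat_lit 8101835)]) (FT.cons (FT.leaf [(nat_lit 7642710), (nat_lit 7761748), (nat_lit 7880986), (nat_lit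 8000261), (nat_lit 8119441), (nat_lit 8238415)]) (FT.cons (FT.leaf [(nat_lit 7900754), (nat_lit 8019092), (nat_lit 8137424), (nat_lit 8255625)]) (FT.cons (FT.leaf [(nat_lit 8155827), (nat_lit 8273203)]) (FT.cons (FT.leaf
 [(nat_lit 8407602)]) (FT.cons (FT.leaf [(nat_lit 8655842)]) FT.nil)))))) (FT.cons (FT.cons (FT.leaf [(nat_lit 7901301), (nat_lit 8018029), (nat_lit 8134924), (nat_lit 8251834), (nat_lit 8368634)]) (FT.cons (FT.leaf [(nat_lit 8154045), (nat_lit 8270048), (nat_lit 8386028), (nat_lit 8501865)]) (FT.cons (FT.leaf [(nat_lit 8403834), (nat_lit 8518873)]) (FT.cons (FT.leaf [(nat_lit 8650376)]) FT.nil)))) (FT.cons (FT.cons (FT.leaf [(nat_lit 8401364)]) (FT.cons (FT.leaf [(nat_lit 8646035)]) FT.nil)) (FT.cons (FT.cons (FT.leaf [(nat_lit 8882662)]) FT.nil) (FT.cons (FT.cons (FT.leaf [(nat_lit 9345818)]) FT.nil) (FT.cons (FT.cons (FT.leaf [(nat_lit 9791611)]) FT.nil) (FT.cons (FT.cons (FT.leaf [(nat_lit 10220894)]) FT.nil) FT.nil))))))))))))) (FT.cons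 (FT.cons (FT.cons (FT.leaf [(nat_lit 5390942), (nat_lit 5497358), (nat_lit 5608785), (nat_lit 5724145), (nat_lit 5842631), (nat_lit 5963617), (nat_lit 6086596), (nat_lit 6211151), (nat_lit 6336934), (nat_lit 6463653), (nat_lit 6591054), (nat_lit 6718923), (nat_lit 6847074), (nat_lit 6975341), (nat_lit 7103587), (nat_lit 7231687), (nat_lit 7359533), (nat_lit 7487030), (nat_lit 7614098), (nat_lit 7740663), (nat_lit 7866663)]) (FT.cons (FT.leaf
 [(nat_lit 5645037), (nat_lit 5757702), (nat_lit 5873947), (nat_lit 5993020), (nat_lit 6114335), (nat_lit 6237421), (nat_lit 6361894), (nat_lit 6487428), (nat_lit 6613753), (nat_lit 6740636), (nat_lit 6867878), (nat_lit 6995308), (nat_lit 7122773), (nat_lit 7250144), (nat_lit 7377310), (nat_lit 7504169), (nat_lit 7630636), (nat_lit 7756636), (nat_lit 7882099), (nat_lit 8006972)]) (FT.cons (FT.leaf [(nat_lit 5906687), (nat_lit 6023571), (nat_lit 6143020), (nat_lit 6264485), (nat_lit 6387525), (nat_lit 6511781), (nat_lit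 6636953), (nat_lit 6762788), (nat_lit 6889072), (nat_lit 7015617), (nat_lit 7142265), (nat_lit 7268878), (nat_lit 7395334), (nat_lit 7521533), (nat_lit 7647378), (nat_lit 7772793), (nat_lit 7897708), (nat_lit 8022060)]) (FT.cons (FT.leaf [(nat_lit 6172828), (nat_lit 6292472), (nat_lit 6413931), (nat_lit 6536792), (nat_lit 6660719), (nat_lit 6785431), (nat_lit 6910693), (nat_lit 7036304), (nat_lit 7162092), (nat_lit 7287910), (nat_lit 7413629), (nat_lit 7539138), (nat_lit 7664340), (nat_lit 7789151), (nat_lit 7913498), (nat_lit 8037316)]) (FT.cons (FT.leaf [(nat_lit 6441240), (nat_lit 6562559), (nat_lit 6685127), (nat_lit 6808626), (nat_lit 6932794), (nat_lit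
 7057411), (nat_lit 7182291), (nat_lit 7307272), (nat_lit 7432217), (nat_lit 7557007), (nat_lit 7681540), (nat_lit 7805724), (nat_lit 7929484), (nat_lit 8052750)]) (FT.cons (FT.leaf [(nat_lit 6710275), (nat_lit 6832449), (nat_lit 6955436), (nat_lit 7078988), (nat_lit 7202900), (nat_lit 7326996), (nat_lit 7451127), (nat_lit 7575165), (nat_lit 7698998), (nat_lit 7822531), (nat_lit 7945682), (nat_lit 8068377)]) (FT.cons (FT.leaf [(nat_lit 6978693), (nat_lit 7101094), (nat_lit 7223969), (nat_lit 7347123), (nat_lit 7470393), (nat_lit 7593638), (nat_lit 7716739), (nat_lit 7839592), (nat_lit 7962109), (nat_lit 8084211)]) (FT.cons (FT.leaf [(nat_lit 7245555), (nat_lit 7367699), (nat_lit 7490052), (nat_lit 7612458), (nat_lit 7734789), (nat_lit 7856929), (nat_lit 7978783), (nat_lit 8100270)]) (FT.cons (FT.leaf [(nat_lit 7510151), (nat_lit 7631665), (nat_lit 7753178), (nat_lit 7874568), (nat_lit 7995729), (nat_lit 8116571)]) (FT.cons (FT.leaf [(nat_lit 7771947), (nat_lit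 7892542), (nat_lit 8012972), (nat_lit 8133138)]) (FT.cons (FT.leaf [(nat_lit 8030541), (nat_lit 8149996)]) (FT.cons (FT.leaf [(nat_lit 8285642)]) (FT.cons (FT.leaf [(nat_lit 8537040)]) (FT.cons (FT.leaf [(nat_lit 8784590)])
 FT.nil)))))))))))))) (FT.cons (FT.cons (FT.leaf [(nat_lit 5936108), (nat_lit 6048057), (nat_lit 6163316), (nat_lit 6281161), (nat_lit 6401035), (nat_lit 6522494), (nat_lit 6645175), (nat_lit 6768779), (nat_lit 6893052), (nat_lit 7017778), (nat_lit 7142777), (nat_lit 7267887), (nat_lit 7392972), (nat_lit 7517916), (nat_lit 7642612), (nat_lit 7766971), (nat_lit 7890915), (nat_lit 8014377), (nat_lit 8137294)]) (FT.cons (FT.leaf [(nat_lit 6195057), (nat_lit 6310748), (nat_lit 6428791), (nat_lit 6548662), (nat_lit 6669945), (nat_lit 6792303), (nat_lit 6915455), (nat_lit 7039164), (nat_lit 7163232), (nat_lit 7287486), (nat_lit 7411783), (nat_lit 7535993), (nat_lit 7660007), (nat_lit 7783728), (nat_lit 7907075), (nat_lit 8029974), (nat_lit 8152362),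 (nat_lit 8274186)]) (FT.cons (FT.leaf [(nat_lit 6457650), (nat_lit 6575738), (nat_lit 6695476), (nat_lit 6816473), (nat_lit 6938412), (nat_lit 7061030), (nat_lit 7184108), (nat_lit 7307459), (nat_lit 7430923), (nat_lit 7554364), (nat_lit 7677665), (nat_lit 7800724), (nat_lit 7923451), (nat_lit 8045767), (nat_lit 8167610), (nat_lit 8288918)]) (FT.cons (FT.leaf [(nat_lit 6721894), (nat_lit 6841386), (nat_lit 6962000), (nat_lit 7083439),
 (nat_lit 7205455), (nat_lit 7327842), (nat_lit 7450427), (nat_lit 7573059), (nat_lit 7695613), (nat_lit 7817978), (nat_lit 7940058), (nat_lit 8061773), (nat_lit 8183050), (nat_lit 8303827)]) (FT.cons (FT.leaf [(nat_lit 6986315), (nat_lit 7106464), (nat_lit 7227331), (nat_lit 7348686), (nat_lit 7470333), (nat_lit 7592109), (nat_lit 7713876), (nat_lit 7835514), (nat_lit 7956920), (nat_lit 8078007), (nat_lit 8198698), (nat_lit 8318924)]) (FT.cons (FT.leaf [(nat_lit 7249812), (nat_lit 7370048), (nat_lit 7490690), (nat_lit 7611554),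 (nat_lit 7732487), (nat_lit 7853360), (nat_lit 7974059), (nat_lit 8094489), (nat_lit 8214569), (nat_lit 8334225)]) (FT.cons (FT.leaf [(nat_lit 7511554), (nat_lit 7631439), (nat_lit 7751485), (nat_lit 7871546), (nat_lit 7991500), (nat_lit 8111243), (nat_lit 8230683), (nat_lit 8349746)]) (FT.cons (FT.leaf [(nat_lit 7770914), (nat_lit 7890111), (nat_lit 8009276), (nat_lit 8128293), (nat_lit 8247064), (nat_lit 8365506)]) (FT.cons (FT.leaf [(nat_lit 8027422), (nat_lit 8145671), (nat_lit 8263737), (nat_lit 8381525)]) (FT.cons (FT.leaf [(nat_lit 8280729), (nat_lit 8397830)]) (FT.cons (FT.leaf [(nat_lit 8530578)]) (FT.cons (FT.leaf [(nat_lit 8776791)]) (FT.cons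
 (FT.leaf [(nat_lit 9019245)]) FT.nil))))))))))))) (FT.cons (FT.cons (FT.leaf [(nat_lit 6477654), (nat_lit 6591985), (nat_lit 6708485), (nat_lit 6826654), (nat_lit 6946097), (nat_lit 7066496), (nat_lit 7187587), (nat_lit 7309149), (nat_lit 7430996), (nat_lit 7552971), (nat_lit 7674937), (nat_lit 7796777), (nat_lit 7918390), (nat_lit 8039686), (nat_lit 8160591)]) (FT.cons (FT.leaf [(nat_lit 6736423), (nat_lit 6852848), (nat_lit 6970784), (nat_lit 7089858), (nat_lit 7209770), (nat_lit 7330274), (nat_lit 7451162), (nat_lit 7572261), (nat_lit 7693423), (nat_lit 7814520), (nat_lit 7935445), (nat_lit 8056102), (nat_lit 8176411), (nat_lit 8296298)]) (FT.cons (FT.leaf [(nat_lit 6996342), (nat_lit 7113949), (nat_lit 7232573), (nat_lit 7351930), (nat_lit 7471788), (nat_lit 7591954), (nat_lit 7712264), (nat_lit 7832581), (nat_lit 7952784), (nat_lit 8072772), (nat_lit 8192458), (nat_lit 8311764)]) (FT.cons (FT.leaf [(nat_lit 7256088), (nat_lit 7374191), (nat_lit 7492935),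 (nat_lit 7612099), (nat_lit 7731502), (nat_lit 7850990), (nat_lit 7970432), (nat_lit 8089718), (nat_lit 8208753), (nat_lit 8327455)]) (FT.cons (FT.leaf [(nat_lit 7514673), (nat_lit 7632752), (nat_lit 7751180), (nat_lit
 7869785), (nat_lit 7988422), (nat_lit 8106968), (nat_lit 8225321), (nat_lit 8343389)]) (FT.cons (FT.leaf [(nat_lit 7771357), (nat_lit 7889013), (nat_lit 8006790), (nat_lit 8124553), (nat_lit 8242185), (nat_lit 8359589)]) (FT.cons (FT.leaf [(nat_lit 8025582), (nat_lit 8142508), (nat_lit 8259376), (nat_lit 8376080)]) (FT.cons (FT.leaf [(nat_lit 8276932), (nat_lit 8392892)]) (FT.cons (FT.leaf [(nat_lit 8525099)]) (FT.cons (FT.leaf [(nat_lit 8769860)]) (FT.cons (FT.leaf [(nat_lit 9011059)]) FT.nil))))))))))) (FT.cons (FT.cons (FT.leaf [(nat_lit 7009161), (nat_lit 7123856), (nat_lit 7239939), (nat_lit 7357059), (nat_lit 7474928), (nat_lit 7593316), (nat_lit 7712026), (nat_lit 7830897), (nat_lit 7949789), (nat_lit 8068586), (nat_lit 8187184), (nat_lit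 8305496), (nat_lit 8423447)]) (FT.cons (FT.leaf [(nat_lit 7264670), (nat_lit 7380362), (nat_lit 7496979), (nat_lit 7614254), (nat_lit 7731966), (nat_lit 7849934), (nat_lit 7968002), (nat_lit 8086043), (nat_lit 8203944), (nat_lit 8321611), (nat_lit 8438961), (nat_lit 8555926)]) (FT.cons (FT.leaf [(nat_lit 7519729), (nat_lit 7635786), (nat_lit 7752416), (nat_lit 7869413), (nat_lit 7986602), (nat_lit 8103842), (nat_lit 8221008), (nat_lit
 8337998), (nat_lit 8454720), (nat_lit 8571101)]) (FT.cons (FT.leaf [(nat_lit 7773446), (nat_lit 7889390), (nat_lit 8005636), (nat_lit 8122020), (nat_lit 8238407), (nat_lit 8354681), (nat_lit 8470745), (nat_lit 8586515)]) (FT.cons (FT.leaf [(nat_lit 8025156), (nat_lit 8140622), (nat_lit 8256177), (nat_lit 8371693), (nat_lit 8487061), (nat_lit 8602189)]) (FT.cons (FT.leaf [(nat_lit 8274362), (nat_lit 8389068), (nat_lit 8503698), (nat_lit 8618149)]) (FT.cons (FT.leaf [(nat_lit 8520691), (nat_lit 8634424)]) (FT.cons (FT.leaf [(nat_lit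 8763872)]) (FT.cons (FT.leaf [(nat_lit 9003707)]) (FT.cons (FT.leaf [(nat_lit 9240060)]) FT.nil)))))))))) (FT.cons (FT.cons (FT.leaf [(nat_lit 7526999), (nat_lit 7640763), (nat_lit 7755376), (nat_lit 7870582), (nat_lit 7986172), (nat_lit 8101973), (nat_lit 8217841), (nat_lit 8333654), (nat_lit 8449306), (nat_lit 8564712), (nat_lit 8679791)]) (FT.cons (FT.leaf [(nat_lit 7777394), (nat_lit 7891417), (nat_lit 8005958), (nat_lit 8120818), (nat_lit 8235835), (nat_lit 8350873), (nat_lit 8465816), (nat_lit 8580566), (nat_lit 8695040), (nat_lit 8809166)]) (FT.cons (FT.leaf [(nat_lit 8026312), (nat_lit 8140152), (nat_lit 8254255), (nat_lit 8368464), (nat_lit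
 8482653), (nat_lit 8596713), (nat_lit 8710550), (nat_lit 8824085)]) (FT.cons (FT.leaf [(nat_lit 8273151), (nat_lit 8386471), (nat_lit 8499855), (nat_lit 8613180), (nat_lit 8726345), (nat_lit 8839261)]) (FT.cons (FT.leaf [(nat_lit 8517462), (nat_lit 8630004), (nat_lit 8742455), (nat_lit 8854716)]) (FT.cons (FT.leaf [(nat_lit 8758914), (nat_lit 8870480)]) (FT.cons (FT.leaf [(nat_lit 8997261)]) (FT.cons (FT.leaf [(nat_lit 9232331)]) FT.nil)))))))) (FT.cons (FT.cons (FT.leaf [(nat_lit 8029253), (nat_lit 8141266), (nat_lit 8253749), (nat_lit 8366512), (nat_lit 8479402), (nat_lit 8592290), (nat_lit 8705066)]) (FT.cons (FT.leaf [(nat_lit 8273459), (nat_lit 8385233), (nat_lit 8497237), (nat_lit 8609323), (nat_lit 8721369), (nat_lit 8833273)]) (FT.cons (FT.leaf [(nat_lit 8515539), (nat_lit 8626763), (nat_lit 8738030), (nat_lit 8849223)]) (FT.cons (FT.leaf [(nat_lit 8755089), (nat_lit 8865523)]) (FT.cons (FT.leaf [(nat_lit 8991806)]) (FT.cons (FT.leaf [(nat_lit 9225473)])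 FT.nil)))))) (FT.cons (FT.cons (FT.leaf [(nat_lit 8515077), (nat_lit 8624828), (nat_lit 8734782), (nat_lit 8844798), (nat_lit 8954759)]) (FT.cons (FT.leaf [(nat_lit 8752519), (nat_lit 8861699), (nat_lit 8970904), (nat_lit
 9080025)]) (FT.cons (FT.leaf [(nat_lit 8987441), (nat_lit 9095827)]) (FT.cons (FT.leaf [(nat_lit 9219569)]) FT.nil)))) (FT.cons (FT.cons (FT.leaf [(nat_lit 8984285)]) (FT.cons (FT.leaf [(nat_lit 9214715)]) FT.nil)) (FT.cons (FT.cons (FT.leaf [(nat_lit 9437099)]) FT.nil) (FT.cons (FT.cons (FT.leaf [(nat_lit 9873985)]) FT.nil) (FT.cons (FT.cons (FT.leaf [(nat_lit 10295549)]) FT.nil) (FT.cons (FT.cons (FT.leaf [(nat_lit 10702469)]) FT.nil) FT.nil)))))))))))) (FT.cons (FT.cons (FT.cons (FT.leaf [(nat_lit 6670695), (nat_lit 6775983), (nat_lit 6884304), (nat_lit 6994989), (nat_lit 7107530), (nat_lit 7221519), (nat_lit 7336627), (nat_lit 7452587), (nat_lit 7569167), (nat_lit 7686178), (nat_lit 7803454), (nat_lit 7920854), (nat_lit 8038257), (nat_lit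 8155556), (nat_lit 8272660), (nat_lit 8389487), (nat_lit 8505968)]) (FT.cons (FT.leaf [(nat_lit 6913615), (nat_lit 7022288), (nat_lit 7133122), (nat_lit 7245636), (nat_lit 7359450), (nat_lit 7474257), (nat_lit 7589804), (nat_lit 7705879), (nat_lit 7822301), (nat_lit 7938917), (nat_lit 8055597), (nat_lit 8172226), (nat_lit 8288707), (nat_lit 8404952), (nat_lit 8520888), (nat_lit 8636450)]) (FT.cons (FT.leaf [(nat_lit 7159756), (nat_lit
 7270611), (nat_lit 7382991), (nat_lit 7496539), (nat_lit 7610967), (nat_lit 7726035), (nat_lit 7841547), (nat_lit 7957333), (nat_lit 8073251), (nat_lit 8189177), (nat_lit 8305006), (nat_lit 8420645), (nat_lit 8536016), (nat_lit 8651047)]) (FT.cons (FT.leaf [(nat_lit 7407370), (nat_lit 7519523), (nat_lit 7632726), (nat_lit 7746706), (nat_lit 7861239), (nat_lit 7976140), (nat_lit 8091249), (nat_lit 8206434), (nat_lit 8321579), (nat_lit 8436585), (nat_lit 8551365), (nat_lit 8665847)]) (FT.cons (FT.leaf [(nat_lit 7655172), (nat_lit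 7767959), (nat_lit 7881434), (nat_lit 7995382), (nat_lit 8109630), (nat_lit 8224029), (nat_lit 8338453), (nat_lit 8452792), (nat_lit 8566956), (nat_lit 8680863)]) (FT.cons (FT.leaf [(nat_lit 7902199), (nat_lit 8015117), (nat_lit 8128439), (nat_lit 8241998), (nat_lit 8355657), (nat_lit 8469294), (nat_lit 8582810), (nat_lit 8696117)]) (FT.cons (FT.leaf [(nat_lit 8147727), (nat_lit 8260386), (nat_lit 8373227), (nat_lit 8486120), (nat_lit 8598953), (nat_lit 8711629)]) (FT.cons (FT.leaf [(nat_lit 8391208), (nat_lit 8503306), (nat_lit 8615413), (nat_lit 8727423)]) (FT.cons (FT.leaf [(nat_lit 8632225), (nat_lit 8743528)]) (FT.cons (FT.leaf [(nat_lit 8870467)])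
 (FT.cons (FT.leaf [(nat_lit 9105703)]) (FT.cons (FT.leaf [(nat_lit 9337766)]) FT.nil)))))))))))) (FT.cons (FT.cons (FT.leaf [(nat_lit 7176773), (nat_lit 7284193), (nat_lit 7393621), (nat_lit 7504596), (nat_lit 7616759), (nat_lit 7729817), (nat_lit 7843530), (nat_lit 7957700), (nat_lit 8072158), (nat_lit 8186761), (nat_lit 8301385), (nat_lit 8415926), (nat_lit 8530293), (nat_lit 8644404), (nat_lit 8758193)]) (FT.cons (FT.leaf [(nat_lit 7419438), (nat_lit 7528793), (nat_lit 7639557), (nat_lit 7751388), (nat_lit 7864013), (nat_lit 7977208), (nat_lit 8090782), (nat_lit 8204580), (nat_lit 8318467), (nat_lit 8432328), (nat_lit 8546066), (nat_lit 8659592), (nat_lit 8772834), (nat_lit 8885728)]) (FT.cons (FT.leaf [(nat_lit 7663178), (nat_lit 7773650), (nat_lit 7885083), (nat_lit 7997218), (nat_lit 8109844), (nat_lit 8222783), (nat_lit 8335888), (nat_lit 8449031), (nat_lit 8562107), (nat_lit 8675021), (nat_lit 8787694), (nat_lit 8900055)]) (FT.cons (FT.leaf [(nat_lit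 7906826), (nat_lit 8017802), (nat_lit 8129398), (nat_lit 8241414), (nat_lit 8353683), (nat_lit 8466066), (nat_lit 8578443), (nat_lit 8690713), (nat_lit 8802790), (nat_lit 8914597)]) (FT.cons (FT.leaf [(nat_lit 8149513),
 (nat_lit 8260528), (nat_lit 8371898), (nat_lit 8483467), (nat_lit 8595103), (nat_lit 8706694), (nat_lit 8818144), (nat_lit 8929371)]) (FT.cons (FT.leaf [(nat_lit 8390584), (nat_lit 8501279), (nat_lit 8612123), (nat_lit 8722993), (nat_lit 8833781), (nat_lit 8944399)]) (FT.cons (FT.leaf [(nat_lit 8629545), (nat_lit 8739644), (nat_lit 8849730), (nat_lit 8959703)]) (FT.cons (FT.leaf [(nat_lit 8866024), (nat_lit 8975313)]) (FT.cons (FT.leaf [(nat_lit 9099742)]) (FT.cons (FT.leaf [(nat_lit 9330493)]) (FT.cons (FT.leaf [(nat_lit 9558133)]) FT.nil))))))))))) (FT.cons (FT.cons (FT.leaf [(nat_lit 7673786), (nat_lit 7781594), (nat_lit 7890709), (nat_lit 8000805), (nat_lit 8111621), (nat_lit 8222944), (nat_lit 8334597), (nat_lit 8446429), (nat_lit 8558317),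 (nat_lit 8670149), (nat_lit 8781837), (nat_lit 8893298), (nat_lit 9004464)]) (FT.cons (FT.leaf [(nat_lit 7913602), (nat_lit 8022374), (nat_lit 8132031), (nat_lit 8242326), (nat_lit 8353057), (nat_lit 8464057), (nat_lit 8575186), (nat_lit 8686324), (nat_lit 8797372), (nat_lit 8908241), (nat_lit 9018858), (nat_lit 9129155)]) (FT.cons (FT.leaf [(nat_lit 8153102), (nat_lit 8262269), (nat_lit 8372000), (nat_lit 8482104), (nat_lit 8592423),
 (nat_lit 8702825), (nat_lit 8813196), (nat_lit 8923443), (nat_lit 9033483), (nat_lit 9143245)]) (FT.cons (FT.leaf [(nat_lit 8391493), (nat_lit 8500625), (nat_lit 8610072), (nat_lit 8719685), (nat_lit 8829339), (nat_lit 8938928), (nat_lit 9048362), (nat_lit 9157563)]) (FT.cons (FT.leaf [(nat_lit 8628183), (nat_lit 8736948), (nat_lit 8845834), (nat_lit 8954725), (nat_lit 9063518), (nat_lit 9172129)]) (FT.cons (FT.leaf [(nat_lit 8862724), (nat_lit 8970867), (nat_lit 9078979), (nat_lit 9186966)]) (FT.cons (FT.leaf [(nat_lit 9094780),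 (nat_lit 9202104)]) (FT.cons (FT.leaf [(nat_lit 9324101)]) (FT.cons (FT.leaf [(nat_lit 9550504)]) (FT.cons (FT.leaf [(nat_lit 9773858)]) FT.nil)))))))))) (FT.cons (FT.cons (FT.leaf [(nat_lit 8158755), (nat_lit 8265822), (nat_lit 8373708), (nat_lit 8482176), (nat_lit 8591035), (nat_lit 8700125), (nat_lit 8809313), (nat_lit 8918488), (nat_lit 9027553)]) (FT.cons (FT.leaf [(nat_lit 8394136), (nat_lit 8501507), (nat_lit 8609395), (nat_lit 8717616), (nat_lit 8826019), (nat_lit 8934479), (nat_lit 9042890), (nat_lit 9151162)]) (FT.cons (FT.leaf [(nat_lit 8628295), (nat_lit 8735570), (nat_lit 8843128), (nat_lit 8950824), (nat_lit 9058540), (nat_lit 9166174)])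
 (FT.cons (FT.leaf [(nat_lit 8860691), (nat_lit 8967564), (nat_lit 9074535), (nat_lit 9181493)]) (FT.cons (FT.leaf [(nat_lit 9090917), (nat_lit 9197150)]) (FT.cons (FT.leaf [(nat_lit 9318669)]) (FT.cons (FT.leaf [(nat_lit 9543720)]) (FT.cons (FT.leaf [(nat_lit 9765906)]) FT.nil)))))))) (FT.cons (FT.cons (FT.leaf [(nat_lit 8630074), (nat_lit 8735672), (nat_lit 8841743), (nat_lit 8948114), (nat_lit 9054640), (nat_lit 9161201), (nat_lit 9267699)]) (FT.cons (FT.leaf [(nat_lit 8860076), (nat_lit 8965529), (nat_lit 9071234), (nat_lit 9177055), (nat_lit 9282878), (nat_lit 9388607)]) (FT.cons (FT.leaf [(nat_lit 9088274), (nat_lit 9193295), (nat_lit 9298397), (nat_lit 9403471)]) (FT.cons (FT.leaf [(nat_lit 9314295), (nat_lit 9418665)]) (FT.cons (FT.leaf [(nat_lit 9537863)]) (FT.cons (FT.leaf [(nat_lit 9758770)]) FT.nil)))))) (FT.cons (FT.cons (FT.leaf [(nat_lit 9086996), (nat_lit 9190662), (nat_lit 9294555), (nat_lit 9398545), (nat_lit 9502523)]) (FT.cons (FT.leaf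 [(nat_lit 9311096), (nat_lit 9414310), (nat_lit 9517588), (nat_lit 9620826)]) (FT.cons (FT.leaf [(nat_lit 9533024), (nat_lit 9635581)]) (FT.cons (FT.leaf [(nat_lit 9752527)]) FT.nil)))) (FT.cons (FT.cons (FT.leaf [(nat_lit
 9529319)]) (FT.cons (FT.leaf [(nat_lit 9747267)]) FT.nil)) (FT.cons (FT.cons (FT.leaf [(nat_lit 9957181)]) FT.nil) (FT.cons (FT.cons (FT.leaf [(nat_lit 10370930)]) FT.nil) (FT.cons (FT.cons (FT.leaf [(nat_lit 10771041)]) FT.nil) FT.nil)))))))))) (FT.cons (FT.cons (FT.cons (FT.leaf [(nat_lit 7823436), (nat_lit 7924803), (nat_lit 8028044), (nat_lit 8132734), (nat_lit 8238537), (nat_lit 8345187), (nat_lit 8452463), (nat_lit 8560182), (nat_lit 8668192), (nat_lit 8776360), (nat_lit 8884575), (nat_lit 8992740), (nat_lit 9100774), (nat_lit 9208601), (nat_lit 9316160)]) (FT.cons (FT.leaf [(nat_lit 8052034), (nat_lit 8155210), (nat_lit 8259710), (nat_lit 8365219), (nat_lit 8471484), (nat_lit 8578298), (nat_lit 8685490), (nat_lit 8792914), (nat_lit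 8900447), (nat_lit 9007986), (nat_lit 9115439), (nat_lit 9222727), (nat_lit 9329784), (nat_lit 9436549)]) (FT.cons (FT.leaf [(nat_lit 8281664), (nat_lit 8385906), (nat_lit 8491062), (nat_lit 8596893), (nat_lit 8703204), (nat_lit 8809833), (nat_lit 8916643), (nat_lit 9023519), (nat_lit 9130361), (nat_lit 9237085), (nat_lit 9343616), (nat_lit 9449893)]) (FT.cons (FT.leaf [(nat_lit 8511279), (nat_lit 8616032), (nat_lit 8721388), (nat_lit 8827159),
 (nat_lit 8933196), (nat_lit 9039367), (nat_lit 9145563), (nat_lit 9251693), (nat_lit 9357675), (nat_lit 9463440)]) (FT.cons (FT.leaf [(nat_lit 8740103), (nat_lit 8844945), (nat_lit 8950147), (nat_lit 9055565), (nat_lit 9161076), (nat_lit 9266577), (nat_lit 9371980), (nat_lit 9477210)]) (FT.cons (FT.leaf [(nat_lit 8967547), (nat_lit 9072153), (nat_lit 9176930), (nat_lit 9281764), (nat_lit 9386554), (nat_lit 9491220)]) (FT.cons (FT.leaf [(nat_lit 9193168), (nat_lit 9297286), (nat_lit 9401426), (nat_lit 9505495)]) (FT.cons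 (FT.leaf [(nat_lit 9416627), (nat_lit 9520062)]) (FT.cons (FT.leaf [(nat_lit 9637671)]) (FT.cons (FT.leaf [(nat_lit 9856111)]) (FT.cons (FT.leaf [(nat_lit 10071804)]) FT.nil))))))))))) (FT.cons (FT.cons (FT.leaf [(nat_lit 8290452), (nat_lit 8392241), (nat_lit 8495266), (nat_lit 8599225), (nat_lit 8703878), (nat_lit 8809027), (nat_lit 8914507), (nat_lit 9020185), (nat_lit 9125940), (nat_lit 9231677), (nat_lit 9337309), (nat_lit 9442762), (nat_lit 9547973)]) (FT.cons (FT.leaf [(nat_lit 8516573), (nat_lit 8619298), (nat_lit 8722872), (nat_lit 8827064), (nat_lit 8931690), (nat_lit 9036595), (nat_lit 9141649), (nat_lit 9246743), (nat_lit 9351784), (nat_lit 9456690),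
 (nat_lit 9561394), (nat_lit 9665835)]) (FT.cons (FT.leaf [(nat_lit 8742493), (nat_lit 8845636), (nat_lit 8949333), (nat_lit 9053405), (nat_lit 9157708), (nat_lit 9262119), (nat_lit 9366534), (nat_lit 9470865), (nat_lit 9575037), (nat_lit 9678982)]) (FT.cons (FT.leaf [(nat_lit 8967498), (nat_lit 9070666), (nat_lit 9174159), (nat_lit 9277838), (nat_lit 9381588), (nat_lit 9485310), (nat_lit 9588920), (nat_lit 9692347)]) (FT.cons (FT.leaf [(nat_lit 9191050), (nat_lit 9293941), (nat_lit 9396978), (nat_lit 9500052), (nat_lit 9603069), (nat_lit 9705950)]) (FT.cons (FT.leaf [(nat_lit 9412744), (nat_lit 9515124), (nat_lit 9617510), (nat_lit 9719812)]) (FT.cons (FT.leaf [(nat_lit 9632273), (nat_lit 9733960)]) (FT.cons (FT.leaf [(nat_lit 9849406)]) (FT.cons (FT.leaf [(nat_lit 10063971)]) (FT.cons (FT.leaf [(nat_lit 10275843)]) FT.nil)))))))))) (FT.cons (FT.cons (FT.leaf [(nat_lit 8746816), (nat_lit 8848023), (nat_lit 8950019), (nat_lit 9052587), (nat_lit 9155547),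 (nat_lit 9258754), (nat_lit 9362082), (nat_lit 9465429), (nat_lit 9568706)]) (FT.cons (FT.leaf [(nat_lit 8969070), (nat_lit 9070616), (nat_lit 9172673), (nat_lit 9275071), (nat_lit 9377670), (nat_lit 9480354), (nat_lit 9583025),
 (nat_lit 9685598)]) (FT.cons (FT.leaf [(nat_lit 9190312), (nat_lit 9291830), (nat_lit 9393642), (nat_lit 9495617), (nat_lit 9597642), (nat_lit 9699625)]) (FT.cons (FT.leaf [(nat_lit 9410047), (nat_lit 9511255), (nat_lit 9612588), (nat_lit 9713943)]) (FT.cons (FT.leaf [(nat_lit 9627904), (nat_lit 9728584)]) (FT.cons (FT.leaf [(nat_lit 9843602)]) (FT.cons (FT.leaf [(nat_lit 10056930)]) (FT.cons (FT.leaf [(nat_lit 10267733)]) FT.nil)))))))) (FT.cons (FT.cons (FT.leaf [(nat_lit 9191136), (nat_lit 9291103), (nat_lit 9391544), (nat_lit 9492295), (nat_lit 9593223), (nat_lit 9694218), (nat_lit 9795183)]) (FT.cons (FT.leaf [(nat_lit 9408679), (nat_lit 9508575), (nat_lit 9608739), (nat_lit 9709043), (nat_lit 9809382), (nat_lit 9909667)]) (FT.cons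 (FT.leaf [(nat_lit 9624679), (nat_lit 9724238), (nat_lit 9823906), (nat_lit 9923580)]) (FT.cons (FT.leaf [(nat_lit 9838791), (nat_lit 9937810)]) (FT.cons (FT.leaf [(nat_lit 10050758)]) (FT.cons (FT.leaf [(nat_lit 10260388)]) FT.nil)))))) (FT.cons (FT.cons (FT.leaf [(nat_lit 9622735), (nat_lit 9721038), (nat_lit 9819587)]) (FT.cons (FT.leaf [(nat_lit 9835082), (nat_lit 9933030)]) (FT.cons (FT.leaf [(nat_lit 10045544)]) (FT.cons (FT.leaf [(nat_lit
 10253881)]) FT.nil)))) (FT.cons (FT.cons (FT.leaf [(nat_lit 10041395)]) (FT.cons (FT.leaf [(nat_lit 10248300)]) FT.nil)) (FT.cons (FT.cons (FT.leaf [(nat_lit 10447191)]) FT.nil) (FT.cons (FT.cons (FT.leaf [(nat_lit 10840383)]) FT.nil) FT.nil)))))))) (FT.cons (FT.cons (FT.cons (FT.leaf [(nat_lit 8865897), (nat_lit 8962377), (nat_lit 9060032), (nat_lit 9158580), (nat_lit 9257795), (nat_lit 9357497), (nat_lit 9457531), (nat_lit 9557772), (nat_lit 9658113), (nat_lit 9758460), (nat_lit 9858736)]) (FT.cons (FT.leaf [(nat_lit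 9079958), (nat_lit 9177349), (nat_lit 9275555), (nat_lit 9374363), (nat_lit 9473599), (nat_lit 9573121), (nat_lit 9672807), (nat_lit 9772557), (nat_lit 9872283), (nat_lit 9971911)]) (FT.cons (FT.leaf [(nat_lit 9293913), (nat_lit 9391739), (nat_lit 9490106), (nat_lit 9588851), (nat_lit 9687837), (nat_lit 9786950), (nat_lit 9886094), (nat_lit 9985187)]) (FT.cons (FT.leaf [(nat_lit 9507112), (nat_lit 9605011), (nat_lit 9703241), (nat_lit 9801671), (nat_lit 9900195), (nat_lit 9998721)]) (FT.cons (FT.leaf [(nat_lit 9719064), (nat_lit 9816759), (nat_lit 9914618), (nat_lit 10012539)]) (FT.cons (FT.leaf [(nat_lit 9929399), (nat_lit 10026672)]) (FT.cons (FT.leaf [(nat_lit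
 10137833)]) FT.nil))))))) (FT.cons (FT.cons (FT.leaf [(nat_lit 9297130), (nat_lit 9393159), (nat_lit 9489951), (nat_lit 9587303), (nat_lit 9685047), (nat_lit 9783047), (nat_lit 9881187), (nat_lit 9979371), (nat_lit 10077516)]) (FT.cons (FT.leaf [(nat_lit 9507799), (nat_lit 9604194), (nat_lit 9701092), (nat_lit 9798336), (nat_lit 9895796), (nat_lit 9993362), (nat_lit 10090941), (nat_lit 10188458)]) (FT.cons (FT.leaf [(nat_lit 9717627), (nat_lit 9814048), (nat_lit 9910772), (nat_lit 10007674), (nat_lit 10104652), (nat_lit 10201618)]) (FT.cons (FT.leaf [(nat_lit 9926161), (nat_lit 10022347), (nat_lit 10118678), (nat_lit 10215057)]) (FT.cons (FT.leaf [(nat_lit 10133056), (nat_lit 10228804)]) (FT.cons (FT.leaf [(nat_lit 10338054)]) FT.nil)))))) (FT.cons (FT.cons (FT.leaf [(nat_lit 9717660), (nat_lit 9812639), (nat_lit 9908089), (nat_lit 10003857), (nat_lit 10099817)]) (FT.cons (FT.leaf [(nat_lit 9924173), (nat_lit 10019139), (nat_lit 10114384), (nat_lit 10209788)])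 (FT.cons (FT.leaf [(nat_lit 10129356), (nat_lit 10224063)]) (FT.cons (FT.leaf [(nat_lit 10332892)]) FT.nil)))) (FT.cons (FT.cons (FT.leaf [(nat_lit 10126864), (nat_lit 10220400), (nat_lit 10314195)]) (FT.cons (FT.leaf
 [(nat_lit 10328768), (nat_lit 10422027)]) FT.nil)) (FT.cons (FT.cons (FT.leaf [(nat_lit 10524513)]) FT.nil) (FT.cons (FT.cons (FT.leaf [(nat_lit 10910635)]) FT.nil) FT.nil)))))) (FT.cons (FT.cons (FT.cons (FT.leaf [(nat_lit 9814488), (nat_lit 9905906), (nat_lit 9998062), (nat_lit 10090764), (nat_lit 10183858), (nat_lit 10277212), (nat_lit 10370721)]) (FT.cons (FT.leaf [(nat_lit 10014849), (nat_lit 10106651), (nat_lit 10198950), (nat_lit 10291595), (nat_lit 10384465), (nat_lit 10477458)]) (FT.cons (FT.leaf [(nat_lit 10214510), (nat_lit 10306381), (nat_lit 10398561), (nat_lit 10490931)]) (FT.cons (FT.leaf [(nat_lit 10413052), (nat_lit 10504749)]) (FT.cons (FT.leaf [(nat_lit 10610157)]) FT.nil))))) (FT.cons (FT.cons (FT.leaf [(nat_lit 10213880),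 (nat_lit 10304405), (nat_lit 10395395), (nat_lit 10486707), (nat_lit 10578224)]) (FT.cons (FT.leaf [(nat_lit 10410550), (nat_lit 10501108), (nat_lit 10591951), (nat_lit 10682968)]) (FT.cons (FT.leaf [(nat_lit 10606067), (nat_lit 10696428)]) (FT.cons (FT.leaf [(nat_lit 10800136)]) FT.nil)))) (FT.cons (FT.cons (FT.leaf [(nat_lit 10603119)]) (FT.cons (FT.leaf [(nat_lit 10795673)]) FT.nil)) (FT.cons (FT.cons (FT.leaf [(nat_lit 10981970)]) FT.nil)
 FT.nil)))) (FT.cons (FT.cons (FT.cons (FT.leaf [(nat_lit 10683282)]) FT.nil) (FT.cons (FT.cons (FT.leaf [(nat_lit 11054595)]) FT.nil) FT.nil)) (FT.cons (FT.cons (FT.cons (FT.leaf [(nat_lit 11483884)]) FT.nil) FT.nil) (FT.cons (FT.cons (FT.cons (FT.leaf [(nat_lit 12225778)]) FT.nil) FT.nil) (FT.cons (FT.cons (FT.cons (FT.leaf [(nat_lit 12916717)]) FT.nil) FT.nil) FT.nil))))))))))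

end CB
end Pool.Agent.Lib.MP_6947cd_al
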