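import Pool.Agent.Lib.MP_6947cd_al.L.BoxDataB
import Pool.Agent.Lib.MP_6947cd_al.L.TeD1
import Pool.Agent.Lib.MP_6947cd_al.L.TeD2

/-!
Problem MP_6947cd_al (Chollet).  CASE B, rows `j`: boxes (generated).
-/

set_option autoImplicit false
set_option linter.defProp false
set_option maxRecDepth 20000

namespace Pool.Agent.Lib.MP_6947cd_al
namespace CB

open Ent Ent.Pk Fr Fr.WT CA

/-! box `yB12_20` -/

def P12_20 : BQ := ⟨(nat_lit 8), (nat_lit 4), (nat_lit 4), (nat_lit 0), (nat_lit 8), (nat_lit 940), (nat_lit 960), (nat_lit 90), [(nat_lit 180), (nat_lit 330), (nat_lit 650)], (nat_lit 146912000), (nat_lit 16000000), (nat_lit 16000000000)⟩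
def q12_20 : PC := ⟨(nat_lit 1000), [(nat_lit 90000), (nat_lit 180000), (nat_lit 330000), (nat_lit 650000)], (nat_lit 79228162532711081671548469249000000), (nat_lit 15853088000000), (nat_lit 15853088000000), (nat_lit 10000000)⟩
def r12_20 : List PC := [⟨(nat_lit 1356), [(nat_lit 90560), (nat_lit 180622), (nat_lit 331333), (nat_lit 651159)], (nat_lit 55459713778524751983633530660800847), (nat_lit 16375654055680), (nat_lit 16387338260480), (nat_lit 10062223)⟩]
def s12_20 : List PB := [⟨(nat_lit 27120), (nat_lit 1448960000000), [(nat_lit 180622), (nat_lit 331333), (nat_lit 651159)], (nat_lit 55459713778524751983633530660800847), (nat_lit 1142275560898304), (nat_lit 1142287245103104), (nat_lit 56960)⟩]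
def n12_20 : List KN := [⟨(nat_lit 650), (nat_lit 330), (nat_lit 14696761), (nat_lit 8416473)⟩, ⟨(nat_lit 330), (nat_lit 180), (nat_lit 22827826), (nat_lit 14696761)⟩, ⟨(nat_lit 180), (nat_lit 90), (nat_lit 35404596), (nat_lit 22827826)⟩]
def w12_20 : List ℕ := [(nat_lit 56960)]
def par12_20 : parC yB12_20 P12_20 s12_20 r12_20 q12_20 n12_20 w12_20 = true := by decide +kernel

def p12_20_0 : PF := (PF.cons (PF.cons (PF.cons (PF.leaf (nat_lit 840956) (nat_lit 2689629) (nat_lit 64419183) (nat_lit 2689629) [(nat_lit 0), (nat_lit 0), (nat_lit 0)]) (PF.cons (PF.leaf (nat_lit 1062951) (nat_lit 378348) (nat_lit 63949909) (nat_lit 2780555) [(nat_lit 378348), (nat_lit 0), (nat_lit 0)]) (PF.cons (PF.leaf (nat_lit 1330504) (nat_lit 419687) (nat_lit 63391790) (nat_lit 2877647) [(nat_lit 419687), (nat_lit 0), (nat_lit 0)]) (PF.cons (PF.leaf (nat_lit 1637183) (nat_lit 458188) (nat_lit 62758057) (nat_lit 2976190) [(nat_lit 458188), (nat_lit 0), (nat_lit 0)]) (PF.cons (PF.leaf (nat_lit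 1978667) (nat_lit 494204) (nat_lit 62058845) (nat_lit 3073150) [(nat_lit 494204), (nat_lit 0), (nat_lit 0)]) (PF.cons (PF.leaf (nat_lit 2351114) (nat_lit 527901) (nat_lit 61302778) (nat_lit 3166527) [(nat_lit 527901), (nat_lit 0), (nat_lit 0)]) (PF.cons (PF.leaf (nat_lit 2751035) (nat_lit 559368) (nat_lit 60497612) (nat_lit 3254990) [(nat_lit 559368), (nat_lit 0), (nat_lit 0)]) (PF.cons (PF.leaf (nat_lit 3175124) (nat_lit 588662) (nat_lit 59650504) (nat_lit 3337670) [(nat_lit 588662), (nat_lit 0), (nat_lit 0)]) (PF.cons (PF.leaf (nat_lit 3620270) (nat_lit 615831) (nat_lit 58768133) (nat_lit 3414030)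
 [(nat_lit 615831), (nat_lit 0), (nat_lit 0)]) (PF.cons (PF.leaf (nat_lit 4083472) (nat_lit 640922) (nat_lit 57856735) (nat_lit 3483770) [(nat_lit 640922), (nat_lit 0), (nat_lit 0)]) (PF.cons (PF.leaf (nat_lit 4561918) (nat_lit 663991) (nat_lit 56922123) (nat_lit 3546770) [(nat_lit 663991), (nat_lit 0), (nat_lit 0)]) (PF.cons (PF.leaf (nat_lit 5052993) (nat_lit 685099) (nat_lit 55969678) (nat_lit 3603045) [(nat_lit 685099), (nat_lit 0), (nat_lit 0)]) (PF.cons (PF.leaf (nat_lit 5554181) (nat_lit 704312) (nat_lit 55004355) (nat_lit 3652708) [(nat_lit 704312), (nat_lit 0), (nat_lit 0)]) (PF.cons (PF.leaf (nat_lit 6063259) (nat_lit 721706) (nat_lit 54030678) (nat_lit 3695951) [(nat_lit 721706), (nat_lit 0), (nat_lit 0)]) (PF.cons (PF.leaf (nat_lit 6578089) (nat_lit 737360) (nat_lit 53052745) (nat_lit 3733016) [(nat_lit 737360), (nat_lit 0), (nat_lit 0)]) (PF.cons (PF.leaf (nat_lit 7096799) (nat_lit 751358) (nat_lit 52074241) (nat_lit 3764189) [(nat_lit 751358), (nat_lit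 0), (nat_lit 0)]) (PF.cons (PF.leaf (nat_lit 7617626) (nat_lit 763786) (nat_lit 51098446) (nat_lit 3789779) [(nat_lit 763786), (nat_lit 0), (nat_lit 0)]) (PF.cons PF.nil (PF.cons PF.nil (PF.cons PF.nil
 PF.nil)))))))))))))))))))) (PF.cons (PF.cons (PF.leaf (nat_lit 1653551) (nat_lit 1958905) (nat_lit 62118970) (nat_lit 3030936) [(nat_lit 0), (nat_lit 1958905), (nat_lit 0)]) (PF.cons (PF.leaf (nat_lit 1957649) (nat_lit 488038) (nat_lit 61476653) (nat_lit 3114012) [(nat_lit 488038), (nat_lit 2030109), (nat_lit 0)]) (PF.cons (PF.leaf (nat_lit 2297606) (nat_lit 521976) (nat_lit 60767874) (nat_lit 3196610) [(nat_lit 521976), (nat_lit 2100375), (nat_lit 0)]) (PF.cons (PF.leaf (nat_lit 2668189) (nat_lit 553481) (nat_lit 60003716) (nat_lit 3276541) [(nat_lit 553481), (nat_lit 2168109), (nat_lit 0)]) (PF.cons (PF.leaf (nat_lit 3065406) (nat_lit 582729) (nat_lit 59193177) (nat_lit 3352388) [(nat_lit 582729), (nat_lit 2232329), (nat_lit 0)]) (PF.cons (PF.leaf (nat_lit 3485729)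 (nat_lit 609825) (nat_lit 58344019) (nat_lit 3423235) [(nat_lit 609825), (nat_lit 2292431), (nat_lit 0)]) (PF.cons (PF.leaf (nat_lit 3925940) (nat_lit 634848) (nat_lit 57463150) (nat_lit 3488513) [(nat_lit 634848), (nat_lit 2348056), (nat_lit 0)]) (PF.cons (PF.leaf (nat_lit 4383072) (nat_lit 657868) (nat_lit 56556816) (nat_lit 3547902) [(nat_lit 657868), (nat_lit 2399018), (nat_lit 0)]) (PF.cons (PF.leaf (nat_lit
 4854360) (nat_lit 678951) (nat_lit 55630689) (nat_lit 3601260) [(nat_lit 678951), (nat_lit 2445251), (nat_lit 0)]) (PF.cons (PF.leaf (nat_lit 5337281) (nat_lit 698169) (nat_lit 54689928) (nat_lit 3648580) [(nat_lit 698169), (nat_lit 2486782), (nat_lit 0)]) (PF.cons (PF.leaf (nat_lit 5829458) (nat_lit 715594) (nat_lit 53739206) (nat_lit 3689954) [(nat_lit 715594), (nat_lit 2523702), (nat_lit 0)]) (PF.cons (PF.leaf (nat_lit 6328737) (nat_lit 731306) (nat_lit 52782739) (nat_lit 3725548) [(nat_lit 731306), (nat_lit 2556151), (nat_lit 0)]) (PF.cons (PF.leaf (nat_lit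 6833134) (nat_lit 745385) (nat_lit 51824304) (nat_lit 3755579) [(nat_lit 745385), (nat_lit 2584302), (nat_lit 0)]) (PF.cons (PF.leaf (nat_lit 7340910) (nat_lit 757914) (nat_lit 50867267) (nat_lit 3780304) [(nat_lit 757914), (nat_lit 2608354), (nat_lit 0)]) (PF.cons (PF.leaf (nat_lit 7850381) (nat_lit 768977) (nat_lit 49914598) (nat_lit 3800004) [(nat_lit 768977), (nat_lit 2628523), (nat_lit 0)]) (PF.cons PF.nil (PF.cons PF.nil (PF.cons PF.nil PF.nil)))))))))))))))))) (PF.cons (PF.cons (PF.leaf (nat_lit 2617600) (nat_lit 2184004) (nat_lit 59438153) (nat_lit 3302650) [(nat_lit 0), (nat_lit 2184004), (nat_lit 0)]) (PF.cons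
 (PF.leaf (nat_lit 2982228) (nat_lit 575078) (nat_lit 58678597) (nat_lit 3370346) [(nat_lit 575078), (nat_lit 2242395), (nat_lit 0)]) (PF.cons (PF.leaf (nat_lit 3373909) (nat_lit 602493) (nat_lit 57873029) (nat_lit 3434793) [(nat_lit 602493), (nat_lit 2298001), (nat_lit 0)]) (PF.cons (PF.leaf (nat_lit 3788300) (nat_lit 627716) (nat_lit 57030456) (nat_lit 3494989) [(nat_lit 627716), (nat_lit 2350108), (nat_lit 0)]) (PF.cons (PF.leaf (nat_lit 4221939) (nat_lit 650879) (nat_lit 56158387) (nat_lit 3550317) [(nat_lit 650879), (nat_lit 2398295), (nat_lit 0)]) (PF.cons (PF.leaf (nat_lit 4671743) (nat_lit 672081) (nat_lit 55263305) (nat_lit 3600427) [(nat_lit 672081), (nat_lit 2442336), (nat_lit 0)]) (PF.cons (PF.leaf (nat_lit 5134962) (nat_lit 691411) (nat_lit 54350910) (nat_lit 3645154) [(nat_lit 691411), (nat_lit 2482138), (nat_lit 0)]) (PF.cons (PF.leaf (nat_lit 5609076) (nat_lit 708954) (nat_lit 53426255) (nat_lit 3684470) [(nat_lit 708954), (nat_lit 2517703), (nat_lit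 0)]) (PF.cons (PF.leaf (nat_lit 6091795) (nat_lit 724790) (nat_lit 52493833) (nat_lit 3718444) [(nat_lit 724790), (nat_lit 2549103), (nat_lit 0)]) (PF.cons (PF.leaf (nat_lit 6581051) (nat_lit 739004) (nat_lit 51557635)
 (nat_lit 3747219) [(nat_lit 739004), (nat_lit 2576458), (nat_lit 0)]) (PF.cons (PF.leaf (nat_lit 7074967) (nat_lit 751679) (nat_lit 50621190) (nat_lit 3770988) [(nat_lit 751679), (nat_lit 2599921), (nat_lit 0)]) (PF.cons (PF.leaf (nat_lit 7571841) (nat_lit 762897) (nat_lit 49687610) (nat_lit 3789982) [(nat_lit 762897), (nat_lit 2619672), (nat_lit 0)]) (PF.cons (PF.leaf (nat_lit 8070175) (nat_lit 772744) (nat_lit 48759616) (nat_lit 3804454) [(nat_lit 772744), (nat_lit 2635906), (nat_lit 0)]) (PF.cons (PF.leaf (nat_lit 8568591) (nat_lit 781301) (nat_lit 47839573) (nat_lit 3814672) [(nat_lit 781301), (nat_lit 2648826), (nat_lit 0)]) (PF.cons PF.nil (PF.cons PF.nil PF.nil)))))))))))))))) (PF.cons (PF.cons (PF.leaf (nat_lit 3678213) (nat_lit 2354007) (nat_lit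 56542876) (nat_lit 3503914) [(nat_lit 0), (nat_lit 2354007), (nat_lit 0)]) (PF.cons (PF.leaf (nat_lit 4084081) (nat_lit 642578) (nat_lit 55715213) (nat_lit 3554475) [(nat_lit 642578), (nat_lit 2398848), (nat_lit 0)]) (PF.cons (PF.leaf (nat_lit 4509404) (nat_lit 664161) (nat_lit 54858721) (nat_lit 3600845) [(nat_lit 664161), (nat_lit 2440308), (nat_lit 0)]) (PF.cons (PF.leaf (nat_lit 4950612) (nat_lit 683792) (nat_lit 53980482)
 (nat_lit 3642626) [(nat_lit 683792), (nat_lit 2478108), (nat_lit 0)]) (PF.cons (PF.leaf (nat_lit 5404821) (nat_lit 701592) (nat_lit 53086447) (nat_lit 3679625) [(nat_lit 701592), (nat_lit 2512123), (nat_lit 0)]) (PF.cons (PF.leaf (nat_lit 5869488) (nat_lit 717661) (nat_lit 52181722) (nat_lit 3711787) [(nat_lit 717661), (nat_lit 2542332), (nat_lit 0)]) (PF.cons (PF.leaf (nat_lit 6342344) (nat_lit 732094) (nat_lit 51270737) (nat_lit 3739160) [(nat_lit 732094), (nat_lit 2568783), (nat_lit 0)]) (PF.cons (PF.leaf (nat_lit 6821346) (nat_lit 744981)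 (nat_lit 50357348) (nat_lit 3761863) [(nat_lit 744981), (nat_lit 2591577), (nat_lit 0)]) (PF.cons (PF.leaf (nat_lit 7304710) (nat_lit 756410) (nat_lit 49444917) (nat_lit 3780065) [(nat_lit 756410), (nat_lit 2610849), (nat_lit 0)]) (PF.cons (PF.leaf (nat_lit 7790779) (nat_lit 766465) (nat_lit 48536368) (nat_lit 3793971) [(nat_lit 766465), (nat_lit 2626761), (nat_lit 0)]) (PF.cons (PF.leaf (nat_lit 8278113) (nat_lit 775230) (nat_lit 47634230) (nat_lit 3803810) [(nat_lit 775230), (nat_lit 2639488), (nat_lit 0)]) (PF.cons (PF.leaf (nat_lit 8765432) (nat_lit 782787) (nat_lit 46740679) (nat_lit 3809824) [(nat_lit 782787), (nat_lit 2649214),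
 (nat_lit 0)]) (PF.cons PF.nil (PF.cons PF.nil PF.nil)))))))))))))) (PF.cons (PF.cons (PF.leaf (nat_lit 4789880) (nat_lit 2474976) (nat_lit 53567589) (nat_lit 3641316) [(nat_lit 0), (nat_lit 2474976), (nat_lit 0)]) (PF.cons (PF.leaf (nat_lit 5220895) (nat_lit 693189) (nat_lit 52711439) (nat_lit 3675621) [(nat_lit 693189), (nat_lit 2507140), (nat_lit 0)]) (PF.cons (PF.leaf (nat_lit 5665116) (nat_lit 709676) (nat_lit 51839965) (nat_lit 3705704) [(nat_lit 709676), (nat_lit 2535947), (nat_lit 0)]) (PF.cons (PF.leaf (nat_lit 6119668) (nat_lit 724467) (nat_lit 50958545) (nat_lit 3731481) [(nat_lit 724467), (nat_lit 2561346), (nat_lit 0)]) (PF.cons (PF.leaf (nat_lit 6582224) (nat_lit 737673) (nat_lit 50071692) (nat_lit 3752973) [(nat_lit 737673), (nat_lit 2583363), (nat_lit 0)]) (PF.cons (PF.leaf (nat_lit 7050762) (nat_lit 749395) (nat_lit 49183243) (nat_lit 3770277) [(nat_lit 749395), (nat_lit 2602078), (nat_lit 0)]) (PF.cons (PF.leaf (nat_lit 7523476) (nat_lit 759726) (nat_lit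 48296474) (nat_lit 3783537) [(nat_lit 759726), (nat_lit 2617610), (nat_lit 0)]) (PF.cons (PF.leaf (nat_lit 7998784) (nat_lit 768755) (nat_lit 47414192) (nat_lit 3792937) [(nat_lit 768755), (nat_lit 2630099),
 (nat_lit 0)]) (PF.cons (PF.leaf (nat_lit 8475286) (nat_lit 776564) (nat_lit 46538794) (nat_lit 3798679) [(nat_lit 776564), (nat_lit 2639704), (nat_lit 0)]) (PF.cons (PF.leaf (nat_lit 8951748) (nat_lit 783237) (nat_lit 45672317) (nat_lit 3800983) [(nat_lit 783237), (nat_lit 2646593), (nat_lit 0)]) (PF.cons PF.nil (PF.cons PF.nil PF.nil)))))))))))) (PF.cons (PF.cons (PF.leaf (nat_lit 5917295) (nat_lit 2554263) (nat_lit 50613193) (nat_lit 3724302) [(nat_lit 0), (nat_lit 2554263), (nat_lit 0)]) (PF.cons (PF.leaf (nat_lit 6360805) (nat_lit 729521) (nat_lit 49758166) (nat_lit 3744389) [(nat_lit 729521), (nat_lit 2575347), (nat_lit 0)]) (PF.cons (PF.leaf (nat_lit 6812591) (nat_lit 741672) (nat_lit 48897831) (nat_lit 3760654) [(nat_lit 741672), (nat_lit 2593396), (nat_lit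 0)]) (PF.cons (PF.leaf (nat_lit 7270377) (nat_lit 752384) (nat_lit 48036142) (nat_lit 3773168) [(nat_lit 752384), (nat_lit 2608469), (nat_lit 0)]) (PF.cons (PF.leaf (nat_lit 7732347) (nat_lit 761758) (nat_lit 47176394) (nat_lit 3782053) [(nat_lit 761758), (nat_lit 2620666), (nat_lit 0)]) (PF.cons (PF.leaf (nat_lit 8196924) (nat_lit 769888) (nat_lit 46321352) (nat_lit 3787469) [(nat_lit 769888), (nat_lit 2630110),
 (nat_lit 0)]) (PF.cons (PF.leaf (nat_lit 8662722) (nat_lit 776859) (nat_lit 45473343) (nat_lit 3789597) [(nat_lit 776859), (nat_lit 2636942), (nat_lit 0)]) (PF.cons (PF.leaf (nat_lit 9128534) (nat_lit 782754) (nat_lit 44634320) (nat_lit 3788634) [(nat_lit 782754), (nat_lit 2641315), (nat_lit 0)]) (PF.cons (PF.leaf (nat_lit 9593287) (nat_lit 787650) (nat_lit 43805913) (nat_lit 3784782) [(nat_lit 787650), (nat_lit 2643383), (nat_lit 0)]) (PF.cons PF.nil PF.nil)))))))))) (PF.cons (PF.cons (PF.leaf (nat_lit 7034775) (nat_lit 2599373) (nat_lit 47749690) (nat_lit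 3762884) [(nat_lit 0), (nat_lit 2599373), (nat_lit 0)]) (PF.cons (PF.leaf (nat_lit 7481322) (nat_lit 754066) (nat_lit 46916382) (nat_lit 3771160) [(nat_lit 754066), (nat_lit 2611200), (nat_lit 0)]) (PF.cons (PF.leaf (nat_lit 7932396) (nat_lit 762618) (nat_lit 46084809) (nat_lit 3776183) [(nat_lit 762618), (nat_lit 2620430), (nat_lit 0)]) (PF.cons (PF.leaf (nat_lit 8386215) (nat_lit 769969) (nat_lit 45257788) (nat_lit 3778089) [(nat_lit 769969), (nat_lit 2627170), (nat_lit 0)]) (PF.cons (PF.leaf (nat_lit 8841396) (nat_lit 776212) (nat_lit 44437644) (nat_lit 3777039) [(nat_lit 776212), (nat_lit 2631546), (nat_lit 0)]) (PF.cons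
 (PF.leaf (nat_lit 9296724) (nat_lit 781430) (nat_lit 43626297) (nat_lit 3773209) [(nat_lit 781430), (nat_lit 2633692), (nat_lit 0)]) (PF.cons (PF.leaf (nat_lit 9751144) (nat_lit 785700) (nat_lit 42825330) (nat_lit 3766782) [(nat_lit 785700), (nat_lit 2633749), (nat_lit 0)]) (PF.cons PF.nil PF.nil)))))))) (PF.cons (PF.cons (PF.leaf (nat_lit 8124811) (nat_lit 2617269) (nat_lit 45021490) (nat_lit 3766433) [(nat_lit 0), (nat_lit 2617269), (nat_lit 0)]) (PF.cons (PF.leaf (nat_lit 8567647) (nat_lit 769091) (nat_lit 44223148) (nat_lit 3765259) [(nat_lit 769091), (nat_lit 2621616), (nat_lit 0)]) (PF.cons (PF.leaf (nat_lit 9012245) (nat_lit 774710) (nat_lit 43431226) (nat_lit 3761426) [(nat_lit 774710), (nat_lit 2623819), (nat_lit 0)]) (PF.cons (PF.leaf (nat_lit 9457214) (nat_lit 779344) (nat_lit 42647672) (nat_lit 3755091) [(nat_lit 779344), (nat_lit 2624002), (nat_lit 0)]) (PF.cons (PF.leaf (nat_lit 9901501) (nat_lit 783073) (nat_lit 41874069) (nat_lit 3746419) [(nat_lit 783073),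 (nat_lit 2622289), (nat_lit 0)]) (PF.cons PF.nil PF.nil)))))) (PF.cons (PF.cons (PF.leaf (nat_lit 9176333) (nat_lit 2614033) (nat_lit 42453414) (nat_lit 3743127) [(nat_lit 0), (nat_lit 2614033), (nat_lit 0)])
 (PF.cons (PF.leaf (nat_lit 9610867) (nat_lit 776565) (nat_lit 41697708) (nat_lit 3734614) [(nat_lit 776565), (nat_lit 2612490), (nat_lit 0)]) (PF.cons (PF.leaf (nat_lit 10045164) (nat_lit 779834) (nat_lit 40951334) (nat_lit 3723996) [(nat_lit 779834), (nat_lit 2609226), (nat_lit 0)]) (PF.cons (PF.leaf (nat_lit 10478142) (nat_lit 782303) (nat_lit 40215597) (nat_lit 3711424) [(nat_lit 782303), (nat_lit 2604359), (nat_lit 0)]) PF.nil)))) (PF.cons (PF.cons (PF.leaf (nat_lit 10183058) (nat_lit 2594756) (nat_lit 40056220) (nat_lit 3699782) [(nat_lit 0), (nat_lit 2594756), (nat_lit 0)]) (PF.cons (PF.leaf (nat_lit 10606315) (nat_lit 778148) (nat_lit 39346813) (nat_lit 3685724) [(nat_lit 778148), (nat_lit 2588680), (nat_lit 0)]) PF.nil)) (PF.cons PF.nil (PF.cons PF.nil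 (PF.cons PF.nil (PF.cons PF.nil (PF.cons PF.nil PF.nil))))))))))))))) (PF.cons (PF.cons (PF.cons (PF.leaf (nat_lit 2680236) (nat_lit 3311868) (nat_lit 57382914) (nat_lit 3311868) [(nat_lit 0), (nat_lit 0), (nat_lit 6414030)]) (PF.cons (PF.leaf (nat_lit 3001992) (nat_lit 549954) (nat_lit 56721826) (nat_lit 3368837) [(nat_lit 549954), (nat_lit 0), (nat_lit 6468194)]) (PF.cons (PF.leaf (nat_lit 3355605) (nat_lit 579902)
 (nat_lit 56004371) (nat_lit 3424353) [(nat_lit 579902), (nat_lit 0), (nat_lit 6520282)]) (PF.cons (PF.leaf (nat_lit 3735312) (nat_lit 606838) (nat_lit 55242792) (nat_lit 3476978) [(nat_lit 606838), (nat_lit 0), (nat_lit 6568525)]) (PF.cons (PF.leaf (nat_lit 4136855) (nat_lit 631183) (nat_lit 54446481) (nat_lit 3525835) [(nat_lit 631183), (nat_lit 0), (nat_lit 6611762)]) (PF.cons (PF.leaf (nat_lit 4556706) (nat_lit 653217) (nat_lit 53623072) (nat_lit 3570398) [(nat_lit 653217), (nat_lit 0), (nat_lit 6649256)]) (PF.cons (PF.leaf (nat_lit 4991813) (nat_lit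 673145) (nat_lit 52778989) (nat_lit 3610376) [(nat_lit 673145), (nat_lit 0), (nat_lit 6680572)]) (PF.cons (PF.leaf (nat_lit 5439484) (nat_lit 691130) (nat_lit 51919751) (nat_lit 3645645) [(nat_lit 691130), (nat_lit 0), (nat_lit 6705499)]) (PF.cons (PF.leaf (nat_lit 5897310) (nat_lit 707308) (nat_lit 51050150) (nat_lit 3676197) [(nat_lit 707308), (nat_lit 0), (nat_lit 6723997)]) (PF.cons (PF.leaf (nat_lit 6363127) (nat_lit 721798) (nat_lit 50174369) (nat_lit 3702105) [(nat_lit 721798), (nat_lit 0), (nat_lit 6736151)]) (PF.cons (PF.leaf (nat_lit 6835010) (nat_lit 734709) (nat_lit 49296070) (nat_lit 3723505) [(nat_lit 734709),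
 (nat_lit 0), (nat_lit 6742139)]) (PF.cons (PF.leaf (nat_lit 7311195) (nat_lit 746143) (nat_lit 48418448) (nat_lit 3740573) [(nat_lit 746143), (nat_lit 0), (nat_lit 6742207)]) (PF.cons (PF.leaf (nat_lit 7790148) (nat_lit 756196) (nat_lit 47544288) (nat_lit 3753517) [(nat_lit 756196), (nat_lit 0), (nat_lit 6736650)]) (PF.cons (PF.leaf (nat_lit 8270446) (nat_lit 764958) (nat_lit 46676001) (nat_lit 3762560) [(nat_lit 764958), (nat_lit 0), (nat_lit 6725793)]) (PF.cons (PF.leaf (nat_lit 8750852) (nat_lit 772516) (nat_lit 45815666) (nat_lit 3767939) [(nat_lit 772516), (nat_lit 0), (nat_lit 6709980)]) (PF.cons PF.nil (PF.cons PF.nil (PF.cons PF.nil PF.nil)))))))))))))))))) (PF.cons (PF.cons (PF.leaf (nat_lit 3651385) (nat_lit 2331613) (nat_lit 54713696) (nat_lit 3485511) [(nat_lit 0), (nat_lit 2331613), (nat_lit 6577991)]) (PF.cons (PF.leaf (nat_lit 4021012) (nat_lit 619989) (nat_lit 53971607) (nat_lit 3529334) [(nat_lit 619989), (nat_lit 2372908), (nat_lit 6614973)]) (PF.cons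 (PF.leaf (nat_lit 4413534) (nat_lit 643018) (nat_lit 53193745) (nat_lit 3570056) [(nat_lit 643018), (nat_lit 2411420), (nat_lit 6647553)]) (PF.cons (PF.leaf (nat_lit 4824596) (nat_lit 663693) (nat_lit 52388916)
 (nat_lit 3607077) [(nat_lit 663693), (nat_lit 2446740), (nat_lit 6674996)]) (PF.cons (PF.leaf (nat_lit 5250867) (nat_lit 682270) (nat_lit 51564124) (nat_lit 3640062) [(nat_lit 682270), (nat_lit 2478664), (nat_lit 6696880)]) (PF.cons (PF.leaf (nat_lit 5689500) (nat_lit 698937) (nat_lit 50725142) (nat_lit 3668857) [(nat_lit 698937), (nat_lit 2507117), (nat_lit 6713006)]) (PF.cons (PF.leaf (nat_lit 6138036) (nat_lit 713849) (nat_lit 49876837) (nat_lit 3693427) [(nat_lit 713849), (nat_lit 2532113), (nat_lit 6723338)]) (PF.cons (PF.leaf (nat_lit 6594312) (nat_lit 727135) (nat_lit 49023362) (nat_lit 3713825) [(nat_lit 727135), (nat_lit 2553721), (nat_lit 6727956)]) (PF.cons (PF.leaf (nat_lit 7056406) (nat_lit 738910) (nat_lit 48168287) (nat_lit 3730164) [(nat_lit 738910),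 (nat_lit 2572052), (nat_lit 6727028)]) (PF.cons (PF.leaf (nat_lit 7522615) (nat_lit 749278) (nat_lit 47314681) (nat_lit 3742600) [(nat_lit 749278), (nat_lit 2587241), (nat_lit 6720784)]) (PF.cons (PF.leaf (nat_lit 7991414) (nat_lit 758336) (nat_lit 46465187) (nat_lit 3751316) [(nat_lit 758336), (nat_lit 2599445), (nat_lit 6709494)]) (PF.cons (PF.leaf (nat_lit 8461471) (nat_lit 766176) (nat_lit 45622072) (nat_lit
 3756515) [(nat_lit 766176), (nat_lit 2608826), (nat_lit 6693459)]) (PF.cons (PF.leaf (nat_lit 8931583) (nat_lit 772881) (nat_lit 44787269) (nat_lit 3758410) [(nat_lit 772881), (nat_lit 2615558), (nat_lit 6672995)]) (PF.cons (PF.leaf (nat_lit 9400693) (nat_lit 778533) (nat_lit 43962419) (nat_lit 3757219) [(nat_lit 778533), (nat_lit 2619811), (nat_lit 6648427)]) (PF.cons PF.nil (PF.cons PF.nil PF.nil)))))))))))))))) (PF.cons (PF.cons (PF.leaf (nat_lit 4686131) (nat_lit 2442866) (nat_lit 51947858) (nat_lit 3605183) [(nat_lit 0), (nat_lit 2442866), (nat_lit 6670038)])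 (PF.cons (PF.leaf (nat_lit 5086405) (nat_lit 671886) (nat_lit 51167159) (nat_lit 3635416) [(nat_lit 671886), (nat_lit 2472902), (nat_lit 6688545)]) (PF.cons (PF.leaf (nat_lit 5502578) (nat_lit 689357) (nat_lit 50365933) (nat_lit 3662133) [(nat_lit 689357), (nat_lit 2499976), (nat_lit 6702078)]) (PF.cons (PF.leaf (nat_lit 5931304) (nat_lit 704915) (nat_lit 49550550) (nat_lit 3685140) [(nat_lit 704915), (nat_lit 2523968), (nat_lit 6710437)]) (PF.cons (PF.leaf (nat_lit 6369967) (nat_lit 718743) (nat_lit 48726162) (nat_lit 3704375) [(nat_lit 718743), (nat_lit 2544860), (nat_lit 6713581)]) (PF.cons (PF.leaf (nat_lit 6816323)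
 (nat_lit 730986) (nat_lit 47897035) (nat_lit 3719868) [(nat_lit 730986), (nat_lit 2562695), (nat_lit 6711585)]) (PF.cons (PF.leaf (nat_lit 7268429) (nat_lit 741769) (nat_lit 47066747) (nat_lit 3731710) [(nat_lit 741769), (nat_lit 2577565), (nat_lit 6704603)]) (PF.cons (PF.leaf (nat_lit 7724582) (nat_lit 751204) (nat_lit 46238323) (nat_lit 3740036) [(nat_lit 751204), (nat_lit 2589588), (nat_lit 6692847)]) (PF.cons (PF.leaf (nat_lit 8183287) (nat_lit 759388) (nat_lit 45414326) (nat_lit 3745008) [(nat_lit 759388), (nat_lit 2598899), (nat_lit 6676568)]) (PF.cons (PF.leaf (nat_lit 8643236) (nat_lit 766415) (nat_lit 44596927) (nat_lit 3746808) [(nat_lit 766415), (nat_lit 2605648), (nat_lit 6656040)]) (PF.cons (PF.leaf (nat_lit 9103259) (nat_lit 772368) (nat_lit 43787961) (nat_lit 3745630) [(nat_lit 772368), (nat_lit 2609990), (nat_lit 6631554)]) (PF.cons (PF.leaf (nat_lit 9562338) (nat_lit 777327) (nat_lit 42988968) (nat_lit 3741670) [(nat_lit 777327), (nat_lit 2612080),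 (nat_lit 6603407)]) (PF.cons PF.nil (PF.cons PF.nil PF.nil)))))))))))))) (PF.cons (PF.cons (PF.leaf (nat_lit 5748513) (nat_lit 2516218) (nat_lit 49185421) (nat_lit 3677396) [(nat_lit 0), (nat_lit 2516218), (nat_lit
 6697339)]) (PF.cons (PF.leaf (nat_lit 6166112) (nat_lit 709184) (nat_lit 48396888) (nat_lit 3695239) [(nat_lit 709184), (nat_lit 2536201), (nat_lit 6698895)]) (PF.cons (PF.leaf (nat_lit 6594206) (nat_lit 722110) (nat_lit 47598861) (nat_lit 3709727) [(nat_lit 722110), (nat_lit 2553414), (nat_lit 6695758)]) (PF.cons (PF.leaf (nat_lit 7030204) (nat_lit 733469) (nat_lit 46795913) (nat_lit 3720864) [(nat_lit 733469), (nat_lit 2567877), (nat_lit 6687995)]) (PF.cons (PF.leaf (nat_lit 7472071) (nat_lit 743402) (nat_lit 45991762) (nat_lit 3728719) [(nat_lit 743402), (nat_lit 2579658), (nat_lit 6675747)]) (PF.cons (PF.leaf (nat_lit 7918068) (nat_lit 752027) (nat_lit 45189481) (nat_lit 3733408) [(nat_lit 752027), (nat_lit 2588858), (nat_lit 6659208)]) (PF.cons (PF.leaf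 (nat_lit 8366696) (nat_lit 759452) (nat_lit 44391624) (nat_lit 3735073) [(nat_lit 759452), (nat_lit 2595596), (nat_lit 6638612)]) (PF.cons (PF.leaf (nat_lit 8816637) (nat_lit 765768) (nat_lit 43600322) (nat_lit 3733878) [(nat_lit 765768), (nat_lit 2600007), (nat_lit 6614210)]) (PF.cons (PF.leaf (nat_lit 9266743) (nat_lit 771063) (nat_lit 42817353) (nat_lit 3729996) [(nat_lit 771063), (nat_lit 2602229), (nat_lit 6586269)])
 (PF.cons (PF.leaf (nat_lit 9716030) (nat_lit 775414) (nat_lit 42044195) (nat_lit 3723605) [(nat_lit 775414), (nat_lit 2602405), (nat_lit 6555062)]) (PF.cons PF.nil (PF.cons PF.nil PF.nil)))))))))))) (PF.cons (PF.cons (PF.leaf (nat_lit 6812119) (nat_lit 2558219) (nat_lit 46495074) (nat_lit 3710086) [(nat_lit 0), (nat_lit 2558219), (nat_lit 6670774)]) (PF.cons (PF.leaf (nat_lit 7237037) (nat_lit 734681) (nat_lit 45720050) (nat_lit 3717367) [(nat_lit 734681), (nat_lit 2569671), (nat_lit 6658026)]) (PF.cons (PF.leaf (nat_lit 7668340) (nat_lit 743901) (nat_lit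 44943265) (nat_lit 3721701) [(nat_lit 743901), (nat_lit 2578701), (nat_lit 6641234)]) (PF.cons (PF.leaf (nat_lit 8104027) (nat_lit 751841) (nat_lit 44167957) (nat_lit 3723183) [(nat_lit 751841), (nat_lit 2585392), (nat_lit 6620580)]) (PF.cons (PF.leaf (nat_lit 8542536) (nat_lit 758613) (nat_lit 43396754) (nat_lit 3721938) [(nat_lit 758613), (nat_lit 2589847), (nat_lit 6596278)]) (PF.cons (PF.leaf (nat_lit 8982529) (nat_lit 764316) (nat_lit 42631811) (nat_lit 3718112) [(nat_lit 764316), (nat_lit 2592185), (nat_lit 6568562)]) (PF.cons (PF.leaf (nat_lit 9422855) (nat_lit 769040) (nat_lit 41874896) (nat_lit 3711860) [(nat_lit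
 769040), (nat_lit 2592533), (nat_lit 6537679)]) (PF.cons (PF.leaf (nat_lit 9862535) (nat_lit 772863) (nat_lit 41127462) (nat_lit 3703344) [(nat_lit 772863), (nat_lit 2591020), (nat_lit 6503877)]) (PF.cons PF.nil (PF.cons PF.nil PF.nil)))))))))) (PF.cons (PF.cons (PF.leaf (nat_lit 7858434) (nat_lit 2575025) (nat_lit 43920833) (nat_lit 3711106) [(nat_lit 0), (nat_lit 2575025), (nat_lit 6601746)]) (PF.cons (PF.leaf (nat_lit 8283398) (nat_lit 750719) (nat_lit 43173273) (nat_lit 3709773) [(nat_lit 750719), (nat_lit 2579491), (nat_lit 6577588)]) (PF.cons (PF.leaf (nat_lit 8711688) (nat_lit 756944) (nat_lit 42429170) (nat_lit 3705979) [(nat_lit 756944), (nat_lit 2581926), (nat_lit 6550138)]) (PF.cons (PF.leaf (nat_lit 9141744) (nat_lit 762129) (nat_lit 41690775) (nat_lit 3699852) [(nat_lit 762129), (nat_lit 2582435), (nat_lit 6519618)]) (PF.cons (PF.leaf (nat_lit 9572387) (nat_lit 766365) (nat_lit 40959904) (nat_lit 3691533) [(nat_lit 766365), (nat_lit 2581131), (nat_lit 6486255)])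 (PF.cons (PF.leaf (nat_lit 10002596) (nat_lit 769734) (nat_lit 40238024) (nat_lit 3681169) [(nat_lit 769734), (nat_lit 2578132), (nat_lit 6450279)]) (PF.cons (PF.leaf (nat_lit 10431526) (nat_lit 772312)
 (nat_lit 39526322) (nat_lit 3668909) [(nat_lit 772312), (nat_lit 2573556), (nat_lit 6411922)]) (PF.cons PF.nil PF.nil)))))))) (PF.cons (PF.cons (PF.leaf (nat_lit 8875195) (nat_lit 2572079) (nat_lit 41488117) (nat_lit 3687527) [(nat_lit 0), (nat_lit 2572079), (nat_lit 6500691)]) (PF.cons (PF.leaf (nat_lit 9295102) (nat_lit 759263) (nat_lit 40776438) (nat_lit 3679402) [(nat_lit 759263), (nat_lit 2570979), (nat_lit 6467831)]) (PF.cons (PF.leaf (nat_lit 9716090) (nat_lit 763092) (nat_lit 40071570) (nat_lit 3669291) [(nat_lit 763092), (nat_lit 2568225), (nat_lit 6432409)]) (PF.cons (PF.leaf (nat_lit 10136951) (nat_lit 766080) (nat_lit 39375046) (nat_lit 3657329) [(nat_lit 766080), (nat_lit 2563925), (nat_lit 6394641)]) (PF.cons (PF.leaf (nat_lit 10556794) (nat_lit 768303)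 (nat_lit 38688086) (nat_lit 3643652) [(nat_lit 768303), (nat_lit 2558186), (nat_lit 6354741)]) (PF.cons PF.nil PF.nil)))))) (PF.cons (PF.cons (PF.leaf (nat_lit 9854869) (nat_lit 2553994) (nat_lit 39208978) (nat_lit 3645374) [(nat_lit 0), (nat_lit 2553994), (nat_lit 6376501)]) (PF.cons (PF.leaf (nat_lit 10266271) (nat_lit 761944) (nat_lit 38537612) (nat_lit 3632042) [(nat_lit 761944), (nat_lit 2548560), (nat_lit
 6337287)]) (PF.cons (PF.leaf (nat_lit 10677145) (nat_lit 763874) (nat_lit 37875070) (nat_lit 3617155) [(nat_lit 763874), (nat_lit 2541811), (nat_lit 6296156)]) (PF.cons PF.nil PF.nil)))) (PF.cons (PF.cons (PF.leaf (nat_lit 10793346) (nat_lit 2524562) (nat_lit 37086304) (nat_lit 3589591) [(nat_lit 0), (nat_lit 2524562), (nat_lit 6236418)]) (PF.cons (PF.leaf (nat_lit 11194033) (nat_lit 760092) (nat_lit 36456928) (nat_lit 3572381) [(nat_lit 760092), (nat_lit 2515827), (nat_lit 6192790)]) PF.nil)) (PF.cons PF.nil (PF.cons PF.nil (PF.cons PF.nil (PF.cons PF.nil PF.nil)))))))))))))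 (PF.cons (PF.cons (PF.cons (PF.leaf (nat_lit 4599457) (nat_lit 3562775) (nat_lit 50338797) (nat_lit 3562775) [(nat_lit 0), (nat_lit 0), (nat_lit 6603620)]) (PF.cons (PF.leaf (nat_lit 4966211) (nat_lit 645598) (nat_lit 49640747) (nat_lit 3589791) [(nat_lit 645598), (nat_lit 0), (nat_lit 6616337)]) (PF.cons (PF.leaf (nat_lit 5352655) (nat_lit 665083) (nat_lit 48914520) (nat_lit 3613953) [(nat_lit 665083), (nat_lit 0), (nat_lit 6625085)]) (PF.cons (PF.leaf (nat_lit 5754547) (nat_lit 682183) (nat_lit 48168274) (nat_lit 3634929) [(nat_lit 682183), (nat_lit 0), (nat_lit 6629529)]) (PF.cons (PF.leaf (nat_lit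
 6168732) (nat_lit 697228) (nat_lit 47408287) (nat_lit 3652566) [(nat_lit 697228), (nat_lit 0), (nat_lit 6629521)]) (PF.cons (PF.leaf (nat_lit 6592620) (nat_lit 710462) (nat_lit 46639579) (nat_lit 3666830) [(nat_lit 710462), (nat_lit 0), (nat_lit 6625046)]) (PF.cons (PF.leaf (nat_lit 7024013) (nat_lit 722073) (nat_lit 45866250) (nat_lit 3677760) [(nat_lit 722073), (nat_lit 0), (nat_lit 6616179)]) (PF.cons (PF.leaf (nat_lit 7461036) (nat_lit 732218) (nat_lit 45091706) (nat_lit 3685451) [(nat_lit 732218), (nat_lit 0), (nat_lit 6603062)]) (PF.cons (PF.leaf (nat_lit 7902046) (nat_lit 741026) (nat_lit 44318796) (nat_lit 3690032) [(nat_lit 741026), (nat_lit 0), (nat_lit 6585885)]) (PF.cons (PF.leaf (nat_lit 8345621) (nat_lit 748612) (nat_lit 43549912) (nat_lit 3691656) [(nat_lit 748612), (nat_lit 0), (nat_lit 6564866)]) (PF.cons (PF.leaf (nat_lit 8790504) (nat_lit 755076) (nat_lit 42787068) (nat_lit 3690487) [(nat_lit 755076), (nat_lit 0), (nat_lit 6540246)]) (PF.cons (PF.leaf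 (nat_lit 9235607) (nat_lit 760509) (nat_lit 42031952) (nat_lit 3686701) [(nat_lit 760509), (nat_lit 0), (nat_lit 6512274)]) (PF.cons (PF.leaf (nat_lit 9679987) (nat_lit 764995) (nat_lit 41285975) (nat_lit 3680476)
 [(nat_lit 764995), (nat_lit 0), (nat_lit 6481209)]) (PF.cons PF.nil (PF.cons PF.nil (PF.cons PF.nil PF.nil)))))))))))))))) (PF.cons (PF.cons (PF.leaf (nat_lit 5595540) (nat_lit 2474282) (nat_lit 47777794) (nat_lit 3626677) [(nat_lit 0), (nat_lit 2474282), (nat_lit 6615029)]) (PF.cons (PF.leaf (nat_lit 5985628) (nat_lit 685735) (nat_lit 47059178) (nat_lit 3642886) [(nat_lit 685735), (nat_lit 2493770), (nat_lit 6613621)]) (PF.cons (PF.leaf (nat_lit 6389027) (nat_lit 700040) (nat_lit 46325549) (nat_lit 3656150) [(nat_lit 700040), (nat_lit 2510688), (nat_lit 6608172)]) (PF.cons (PF.leaf (nat_lit 6802607) (nat_lit 712515) (nat_lit 45582514) (nat_lit 3666402) [(nat_lit 712515), (nat_lit 2525013), (nat_lit 6598668)]) (PF.cons (PF.leaf (nat_lit 7224009) (nat_lit 723377)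 (nat_lit 44834486) (nat_lit 3673659) [(nat_lit 723377), (nat_lit 2536789), (nat_lit 6585183)]) (PF.cons (PF.leaf (nat_lit 7651232) (nat_lit 732797) (nat_lit 44085023) (nat_lit 3677997) [(nat_lit 732797), (nat_lit 2546098), (nat_lit 6567853)]) (PF.cons (PF.leaf (nat_lit 8082593) (nat_lit 740915) (nat_lit 43337038) (nat_lit 3679524) [(nat_lit 740915), (nat_lit 2553047), (nat_lit 6546855)]) (PF.cons (PF.leaf (nat_lit 8516638)
 (nat_lit 747850) (nat_lit 42592934) (nat_lit 3678377) [(nat_lit 747850), (nat_lit 2557755), (nat_lit 6522395)]) (PF.cons (PF.leaf (nat_lit 8952110) (nat_lit 753707) (nat_lit 41854707) (nat_lit 3674703) [(nat_lit 753707), (nat_lit 2560354), (nat_lit 6494694)]) (PF.cons (PF.leaf (nat_lit 9387939) (nat_lit 758577) (nat_lit 41124009) (nat_lit 3668660) [(nat_lit 758577), (nat_lit 2560975), (nat_lit 6463986)]) (PF.cons (PF.leaf (nat_lit 9823143) (nat_lit 762542) (nat_lit 40402208) (nat_lit 3660410) [(nat_lit 762542), (nat_lit 2559753), (nat_lit 6430506)])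 (PF.cons PF.nil (PF.cons PF.nil (PF.cons PF.nil PF.nil)))))))))))))) (PF.cons (PF.cons (PF.leaf (nat_lit 6604883) (nat_lit 2514720) (nat_lit 45263614) (nat_lit 3655104) [(nat_lit 0), (nat_lit 2514720), (nat_lit 6580326)]) (PF.cons (PF.leaf (nat_lit 7007159) (nat_lit 713290) (nat_lit 44548301) (nat_lit 3661807) [(nat_lit 713290), (nat_lit 2526201), (nat_lit 6566504)]) (PF.cons (PF.leaf (nat_lit 7418026) (nat_lit 723555) (nat_lit 43826992) (nat_lit 3665822) [(nat_lit 723555), (nat_lit 2535386), (nat_lit 6549056)]) (PF.cons (PF.leaf (nat_lit 7835132) (nat_lit 732380) (nat_lit 43103569) (nat_lit 3667203) [(nat_lit 732380), (nat_lit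
 2542334), (nat_lit 6528115)]) (PF.cons (PF.leaf (nat_lit 8256677) (nat_lit 739920) (nat_lit 42381119) (nat_lit 3666043) [(nat_lit 739920), (nat_lit 2547134), (nat_lit 6503849)]) (PF.cons (PF.leaf (nat_lit 8681147) (nat_lit 746304) (nat_lit 41662136) (nat_lit 3662460) [(nat_lit 746304), (nat_lit 2549893), (nat_lit 6476453)]) (PF.cons (PF.leaf (nat_lit 9107258) (nat_lit 751641) (nat_lit 40948651) (nat_lit 3656589) [(nat_lit 751641), (nat_lit 2550726), (nat_lit 6446135)]) (PF.cons (PF.leaf (nat_lit 9533898) (nat_lit 756025) (nat_lit 40242324) (nat_lit 3648571) [(nat_lit 756025), (nat_lit 2549754), (nat_lit 6413113)]) (PF.cons (PF.leaf (nat_lit 9960112) (nat_lit 759541) (nat_lit 39544514) (nat_lit 3638555) [(nat_lit 759541), (nat_lit 2547099), (nat_lit 6377605)]) (PF.cons PF.nil (PF.cons PF.nil (PF.cons PF.nil PF.nil)))))))))))) (PF.cons (PF.cons (PF.leaf (nat_lit 7607315) (nat_lit 2531424) (nat_lit 42843126) (nat_lit 3654651) [(nat_lit 0), (nat_lit 2531424), (nat_lit 6508381)])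 (PF.cons (PF.leaf (nat_lit 8013691) (nat_lit 731028) (nat_lit 42146729) (nat_lit 3653440) [(nat_lit 731028), (nat_lit 2536278), (nat_lit 6484388)]) (PF.cons (PF.leaf (nat_lit 8425166) (nat_lit 738103) (nat_lit
 41450412) (nat_lit 3649926) [(nat_lit 738103), (nat_lit 2539178), (nat_lit 6457365)]) (PF.cons (PF.leaf (nat_lit 8839944) (nat_lit 744032) (nat_lit 40756856) (nat_lit 3644215) [(nat_lit 744032), (nat_lit 2540214), (nat_lit 6427499)]) (PF.cons (PF.leaf (nat_lit 9256673) (nat_lit 748934) (nat_lit 40068199) (nat_lit 3636427) [(nat_lit 748934), (nat_lit 2539490), (nat_lit 6394988)]) (PF.cons (PF.leaf (nat_lit 9674187) (nat_lit 752908) (nat_lit 39386159) (nat_lit 3626692) [(nat_lit 752908), (nat_lit 2537114), (nat_lit 6360036)]) (PF.cons (PF.leaf (nat_lit 10091531) (nat_lit 756042) (nat_lit 38712121) (nat_lit 3615142) [(nat_lit 756042), (nat_lit 2533199), (nat_lit 6322847)]) (PF.cons (PF.leaf (nat_lit 10507849) (nat_lit 758411) (nat_lit 38047204) (nat_lit 3601914)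 [(nat_lit 758411), (nat_lit 2527855), (nat_lit 6283624)]) (PF.cons PF.nil (PF.cons PF.nil PF.nil)))))))))) (PF.cons (PF.cons (PF.leaf (nat_lit 8589121) (nat_lit 2529399) (nat_lit 40544067) (nat_lit 3631472) [(nat_lit 0), (nat_lit 2529399), (nat_lit 6407838)]) (PF.cons (PF.leaf (nat_lit 8993840) (nat_lit 741083) (nat_lit 39876269) (nat_lit 3623915) [(nat_lit 741083), (nat_lit 2528919), (nat_lit 6375932)]) (PF.cons (PF.leaf
 (nat_lit 9401095) (nat_lit 745634) (nat_lit 39212529) (nat_lit 3614467) [(nat_lit 745634), (nat_lit 2526828), (nat_lit 6341616)]) (PF.cons (PF.leaf (nat_lit 9809501) (nat_lit 749271) (nat_lit 38554684) (nat_lit 3603247) [(nat_lit 749271), (nat_lit 2523224), (nat_lit 6305084)]) (PF.cons (PF.leaf (nat_lit 10218029) (nat_lit 752086) (nat_lit 37904190) (nat_lit 3590377) [(nat_lit 752086), (nat_lit 2518207), (nat_lit 6266532)]) (PF.cons (PF.leaf (nat_lit 10625817) (nat_lit 754158) (nat_lit 37262207) (nat_lit 3575981) [(nat_lit 754158), (nat_lit 2511882),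 (nat_lit 6226150)]) (PF.cons PF.nil (PF.cons PF.nil PF.nil)))))))) (PF.cons (PF.cons (PF.leaf (nat_lit 9541428) (nat_lit 2512904) (nat_lit 38380699) (nat_lit 3590925) [(nat_lit 0), (nat_lit 2512904), (nat_lit 6286331)]) (PF.cons (PF.leaf (nat_lit 9940494) (nat_lit 745150) (nat_lit 37746984) (nat_lit 3578434) [(nat_lit 745150), (nat_lit 2508230), (nat_lit 6248546)]) (PF.cons (PF.leaf (nat_lit 10340238) (nat_lit 747710) (nat_lit 37119821) (nat_lit 3564439) [(nat_lit 747710), (nat_lit 2502257), (nat_lit 6208921)]) (PF.cons (PF.leaf (nat_lit 10739572) (nat_lit 749541) (nat_lit 36500450) (nat_lit 3549052) [(nat_lit 749541), (nat_lit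
 2495081), (nat_lit 6167639)]) (PF.cons PF.nil (PF.cons PF.nil PF.nil)))))) (PF.cons (PF.cons (PF.leaf (nat_lit 10458919) (nat_lit 2485467) (nat_lit 36358056) (nat_lit 3537484) [(nat_lit 0), (nat_lit 2485467), (nat_lit 6150234)]) (PF.cons (PF.leaf (nat_lit 10849659) (nat_lit 744584) (nat_lit 35761004) (nat_lit 3521268) [(nat_lit 744584), (nat_lit 2477561), (nat_lit 6108292)]) (PF.cons (PF.leaf (nat_lit 11239735) (nat_lit 745581) (nat_lit 35171961) (nat_lit 3503884) [(nat_lit 745581), (nat_lit 2468632), (nat_lit 6065006)]) (PF.cons PF.nil PF.nil)))) (PF.cons (PF.cons (PF.leaf (nat_lit 11338814) (nat_lit 2449943) (nat_lit 34475085) (nat_lit 3474781) [(nat_lit 0), (nat_lit 2449943), (nat_lit 6004668)]) (PF.cons PF.nil PF.nil)) (PF.cons PF.nil (PF.cons PF.nil (PF.cons PF.nil PF.nil))))))))))) (PF.cons (PF.cons (PF.cons (PF.leaf (nat_lit 6416628) (nat_lit 3597826) (nat_lit 44048604) (nat_lit 3597826) [(nat_lit 0), (nat_lit 0), (nat_lit 6487460)]) (PF.cons (PF.leaf (nat_lit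 6794382) (nat_lit 689206) (nat_lit 43395695) (nat_lit 3604366) [(nat_lit 689206), (nat_lit 0), (nat_lit 6473181)]) (PF.cons (PF.leaf (nat_lit 7183532) (nat_lit 701065) (nat_lit 42731444) (nat_lit 3608434) [(nat_lit
 701065), (nat_lit 0), (nat_lit 6455600)]) (PF.cons (PF.leaf (nat_lit 7581162) (nat_lit 711193) (nat_lit 42060745) (nat_lit 3610040) [(nat_lit 711193), (nat_lit 0), (nat_lit 6434815)]) (PF.cons (PF.leaf (nat_lit 7985107) (nat_lit 719826) (nat_lit 41387375) (nat_lit 3609249) [(nat_lit 719826), (nat_lit 0), (nat_lit 6410960)]) (PF.cons (PF.leaf (nat_lit 8393595) (nat_lit 727147) (nat_lit 40714318) (nat_lit 3606156) [(nat_lit 727147), (nat_lit 0), (nat_lit 6384199)]) (PF.cons (PF.leaf (nat_lit 8805142) (nat_lit 733304) (nat_lit 40043973) (nat_lit 3600876) [(nat_lit 733304), (nat_lit 0), (nat_lit 6354711)]) (PF.cons (PF.leaf (nat_lit 9218478) (nat_lit 738417) (nat_lit 39378286) (nat_lit 3593536) [(nat_lit 738417), (nat_lit 0), (nat_lit 6322688)]) (PF.cons (PF.leaf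 (nat_lit 9632546) (nat_lit 742591) (nat_lit 38718842) (nat_lit 3584270) [(nat_lit 742591), (nat_lit 0), (nat_lit 6288323)]) (PF.cons (PF.leaf (nat_lit 10046402) (nat_lit 745914) (nat_lit 38066934) (nat_lit 3573213) [(nat_lit 745914), (nat_lit 0), (nat_lit 6251812)]) (PF.cons PF.nil (PF.cons PF.nil PF.nil)))))))))))) (PF.cons (PF.cons (PF.leaf (nat_lit 7373732) (nat_lit 2486219) (nat_lit 41783628) (nat_lit 3596947) [(nat_lit
 0), (nat_lit 2486219), (nat_lit 6414005)]) (PF.cons (PF.leaf (nat_lit 7760266) (nat_lit 709599) (nat_lit 41139555) (nat_lit 3596140) [(nat_lit 709599), (nat_lit 2491762), (nat_lit 6390585)]) (PF.cons (PF.leaf (nat_lit 8154030) (nat_lit 717861) (nat_lit 40491567) (nat_lit 3593155) [(nat_lit 717861), (nat_lit 2495386), (nat_lit 6364326)]) (PF.cons (PF.leaf (nat_lit 8552869) (nat_lit 724799) (nat_lit 39842977) (nat_lit 3588074) [(nat_lit 724799), (nat_lit 2497173), (nat_lit 6335396)]) (PF.cons (PF.leaf (nat_lit 8955169) (nat_lit 730576) (nat_lit 39196374)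 (nat_lit 3581001) [(nat_lit 730576), (nat_lit 2497219), (nat_lit 6303970)]) (PF.cons (PF.leaf (nat_lit 9359597) (nat_lit 735323) (nat_lit 38553813) (nat_lit 3572050) [(nat_lit 735323), (nat_lit 2495630), (nat_lit 6270233)]) (PF.cons (PF.leaf (nat_lit 9765031) (nat_lit 739149) (nat_lit 37916944) (nat_lit 3561344) [(nat_lit 739149), (nat_lit 2492514), (nat_lit 6234371)]) (PF.cons (PF.leaf (nat_lit 10170513) (nat_lit 742146) (nat_lit 37287093) (nat_lit 3549006) [(nat_lit 742146), (nat_lit 2487978), (nat_lit 6196568)]) (PF.cons (PF.leaf (nat_lit 10575223) (nat_lit 744396) (nat_lit 36665332) (nat_lit 3535161) [(nat_lit 744396), (nat_lit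
 2482128), (nat_lit 6157006)]) (PF.cons PF.nil PF.nil)))))))))) (PF.cons (PF.cons (PF.leaf (nat_lit 8319575) (nat_lit 2485808) (nat_lit 39617800) (nat_lit 3574840) [(nat_lit 0), (nat_lit 2485808), (nat_lit 6314851)]) (PF.cons (PF.leaf (nat_lit 8708201) (nat_lit 721752) (nat_lit 38994245) (nat_lit 3568041) [(nat_lit 721752), (nat_lit 2486148), (nat_lit 6284159)]) (PF.cons (PF.leaf (nat_lit 9101032) (nat_lit 727242) (nat_lit 38371647) (nat_lit 3559418) [(nat_lit 727242), (nat_lit 2484890), (nat_lit 6251160)]) (PF.cons (PF.leaf (nat_lit 9496445) (nat_lit 731701) (nat_lit 37752258) (nat_lit 3549078) [(nat_lit 731701), (nat_lit 2482127), (nat_lit 6216039)]) (PF.cons (PF.leaf (nat_lit 9893226) (nat_lit 735247) (nat_lit 37137847) (nat_lit 3537132) [(nat_lit 735247), (nat_lit 2477957), (nat_lit 6178975)]) (PF.cons (PF.leaf (nat_lit 10290371) (nat_lit 737978) (nat_lit 36529818) (nat_lit 3523696) [(nat_lit 737978), (nat_lit 2472481), (nat_lit 6140147)]) (PF.cons (PF.leaf (nat_lit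 10687037) (nat_lit 739979) (nat_lit 35929287) (nat_lit 3508884) [(nat_lit 739979), (nat_lit 2465794), (nat_lit 6099725)]) (PF.cons PF.nil PF.nil)))))))) (PF.cons (PF.cons (PF.leaf (nat_lit 9243675) (nat_lit 2471344)
 (nat_lit 37568796) (nat_lit 3536323) [(nat_lit 0), (nat_lit 2471344), (nat_lit 6196553)]) (PF.cons (PF.leaf (nat_lit 9629703) (nat_lit 727580) (nat_lit 36972688) (nat_lit 3524798) [(nat_lit 727580), (nat_lit 2467559), (nat_lit 6160355)]) (PF.cons (PF.leaf (nat_lit 10017750) (nat_lit 730914) (nat_lit 36380661) (nat_lit 3511798) [(nat_lit 730914), (nat_lit 2462476), (nat_lit 6122365)]) (PF.cons (PF.leaf (nat_lit 10406550) (nat_lit 733438) (nat_lit 35794243) (nat_lit 3497430) [(nat_lit 733438), (nat_lit 2456184), (nat_lit 6082756)]) (PF.cons (PF.leaf (nat_lit 10795202) (nat_lit 735240) (nat_lit 35214633) (nat_lit 3481802) [(nat_lit 735240), (nat_lit 2448776), (nat_lit 6041695)]) (PF.cons PF.nil PF.nil)))))) (PF.cons (PF.cons (PF.leaf (nat_lit 10139390) (nat_lit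 2446178) (nat_lit 35644418) (nat_lit 3485483) [(nat_lit 0), (nat_lit 2446178), (nat_lit 6064733)]) (PF.cons (PF.leaf (nat_lit 10519600) (nat_lit 728546) (nat_lit 35079453) (nat_lit 3470339) [(nat_lit 728546), (nat_lit 2439188), (nat_lit 6024573)]) (PF.cons (PF.leaf (nat_lit 10900241) (nat_lit 730200) (nat_lit 34520494) (nat_lit 3454034) [(nat_lit 730200), (nat_lit 2431163), (nat_lit 5983076)]) (PF.cons (PF.leaf (nat_lit
 11280322) (nat_lit 731213) (nat_lit 33968568) (nat_lit 3436668) [(nat_lit 731213), (nat_lit 2422185), (nat_lit 5940396)]) PF.nil)))) (PF.cons (PF.cons (PF.leaf (nat_lit 11002823) (nat_lit 2413032) (nat_lit 33845958) (nat_lit 3425681) [(nat_lit 0), (nat_lit 2413032), (nat_lit 5924003)]) (PF.cons (PF.leaf (nat_lit 11375068) (nat_lit 725791) (nat_lit 33313662) (nat_lit 3407848) [(nat_lit 725791), (nat_lit 2403601), (nat_lit 5881166)]) PF.nil)) (PF.cons PF.nil (PF.cons PF.nil (PF.cons PF.nil (PF.cons PF.nil PF.nil)))))))))) (PF.cons (PF.cons (PF.cons (PF.leaf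 (nat_lit 8068456) (nat_lit 3517446) (nat_lit 38705195) (nat_lit 3517446) [(nat_lit 0), (nat_lit 0), (nat_lit 6221542)]) (PF.cons (PF.leaf (nat_lit 8439594) (nat_lit 700860) (nat_lit 38126957) (nat_lit 3511612) [(nat_lit 700860), (nat_lit 0), (nat_lit 6192345)]) (PF.cons (PF.leaf (nat_lit 8816974) (nat_lit 707599) (nat_lit 37546042) (nat_lit 3503994) [(nat_lit 707599), (nat_lit 0), (nat_lit 6160894)]) (PF.cons (PF.leaf (nat_lit 9198589) (nat_lit 713119) (nat_lit 36965293) (nat_lit 3494686) [(nat_lit 713119), (nat_lit 0), (nat_lit 6127368)]) (PF.cons (PF.leaf (nat_lit 9582992) (nat_lit 717585) (nat_lit 36386904) (nat_lit 3483793)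
 [(nat_lit 717585), (nat_lit 0), (nat_lit 6091943)]) (PF.cons (PF.leaf (nat_lit 9968975) (nat_lit 721125) (nat_lit 35812598) (nat_lit 3471426) [(nat_lit 721125), (nat_lit 0), (nat_lit 6054789)]) (PF.cons (PF.leaf (nat_lit 10355564) (nat_lit 723849) (nat_lit 35243739) (nat_lit 3457692) [(nat_lit 723849), (nat_lit 0), (nat_lit 6016071)]) (PF.cons (PF.leaf (nat_lit 10741905) (nat_lit 725844) (nat_lit 34681413) (nat_lit 3442700) [(nat_lit 725844), (nat_lit 0), (nat_lit 5975947)]) (PF.cons PF.nil (PF.cons PF.nil PF.nil)))))))))) (PF.cons (PF.cons (PF.leaf (nat_lit 8962826) (nat_lit 2429112) (nat_lit 36770315) (nat_lit 3481415) [(nat_lit 0), (nat_lit 2429112), (nat_lit 6106992)]) (PF.cons (PF.leaf (nat_lit 9334804) (nat_lit 708968) (nat_lit 36212225) (nat_lit 3470994) [(nat_lit 708968), (nat_lit 2426376), (nat_lit 6072561)]) (PF.cons (PF.leaf (nat_lit 9710359) (nat_lit 713276) (nat_lit 35655442) (nat_lit 3459107) [(nat_lit 713276), (nat_lit 2422315), (nat_lit 6036348)]) (PF.cons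 (PF.leaf (nat_lit 10087989) (nat_lit 716649) (nat_lit 35101880) (nat_lit 3445857) [(nat_lit 716649), (nat_lit 2417022), (nat_lit 5998525)]) (PF.cons (PF.leaf (nat_lit 10466609) (nat_lit 719204) (nat_lit 34553029)
 (nat_lit 3431348) [(nat_lit 719204), (nat_lit 2410588), (nat_lit 5959257)]) (PF.cons (PF.leaf (nat_lit 10845326) (nat_lit 721036) (nat_lit 34010057) (nat_lit 3415681) [(nat_lit 721036), (nat_lit 2403103), (nat_lit 5918697)]) (PF.cons PF.nil (PF.cons PF.nil PF.nil)))))))) (PF.cons (PF.cons (PF.leaf (nat_lit 9835541) (nat_lit 2406545) (nat_lit 34943216) (nat_lit 3433460) [(nat_lit 0), (nat_lit 2406545), (nat_lit 5979761)]) (PF.cons (PF.leaf (nat_lit 10204439) (nat_lit 711799) (nat_lit 34410405) (nat_lit 3419480) [(nat_lit 711799), (nat_lit 2400576), (nat_lit 5941493)]) (PF.cons (PF.leaf (nat_lit 10575004) (nat_lit 714242) (nat_lit 33881421) (nat_lit 3404331) [(nat_lit 714242), (nat_lit 2393544), (nat_lit 5901871)]) (PF.cons (PF.leaf (nat_lit 10946072) (nat_lit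 715958) (nat_lit 33357558) (nat_lit 3388109) [(nat_lit 715958), (nat_lit 2385533), (nat_lit 5861050)]) (PF.cons (PF.leaf (nat_lit 11316833) (nat_lit 717032) (nat_lit 32839821) (nat_lit 3370910) [(nat_lit 717032), (nat_lit 2376624), (nat_lit 5819175)]) (PF.cons PF.nil PF.nil)))))) (PF.cons (PF.cons (PF.leaf (nat_lit 10681449) (nat_lit 2375983) (nat_lit 33228002) (nat_lit 3376731) [(nat_lit 0), (nat_lit 2375983), (nat_lit
 5844032)]) (PF.cons (PF.leaf (nat_lit 11044598) (nat_lit 710621) (nat_lit 32723064) (nat_lit 3360069) [(nat_lit 710621), (nat_lit 2367532), (nat_lit 5803114)]) (PF.cons (PF.leaf (nat_lit 11408027) (nat_lit 711624) (nat_lit 32223491) (nat_lit 3342497) [(nat_lit 711624), (nat_lit 2358241), (nat_lit 5761212)]) (PF.cons PF.nil PF.nil)))) (PF.cons (PF.cons (PF.leaf (nat_lit 11497592) (nat_lit 2339557) (nat_lit 31624067) (nat_lit 3313781) [(nat_lit 0), (nat_lit 2339557), (nat_lit 5703183)]) (PF.cons PF.nil PF.nil)) (PF.cons PF.nil (PF.cons PF.nil (PF.cons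 PF.nil PF.nil)))))))) (PF.cons (PF.cons (PF.cons (PF.leaf (nat_lit 9548445) (nat_lit 3381254) (nat_lit 34251940) (nat_lit 3381254) [(nat_lit 0), (nat_lit 0), (nat_lit 5895123)]) (PF.cons (PF.leaf (nat_lit 9904958) (nat_lit 694088) (nat_lit 33751756) (nat_lit 3368547) [(nat_lit 694088), (nat_lit 0), (nat_lit 5858884)]) (PF.cons (PF.leaf (nat_lit 10264601) (nat_lit 697504) (nat_lit 33252947) (nat_lit 3354644) [(nat_lit 697504), (nat_lit 0), (nat_lit 5821242)]) (PF.cons (PF.leaf (nat_lit 10625964) (nat_lit 700068) (nat_lit 32757159) (nat_lit 3339644) [(nat_lit 700068), (nat_lit 0), (nat_lit 5782360)]) (PF.cons (PF.leaf (nat_lit 10988062)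
 (nat_lit 701891) (nat_lit 32265665) (nat_lit 3323640) [(nat_lit 701891), (nat_lit 0), (nat_lit 5742388)]) (PF.cons (PF.leaf (nat_lit 11350091) (nat_lit 703067) (nat_lit 31779453) (nat_lit 3306723) [(nat_lit 703067), (nat_lit 0), (nat_lit 5701460)]) PF.nil)))))) (PF.cons (PF.cons (PF.leaf (nat_lit 10375386) (nat_lit 2338650) (nat_lit 32619384) (nat_lit 3327802) [(nat_lit 0), (nat_lit 2338650), (nat_lit 5764594)]) (PF.cons (PF.leaf (nat_lit 10728618) (nat_lit 694788) (nat_lit 32141968) (nat_lit 3312384) [(nat_lit 694788), (nat_lit 2331268), (nat_lit 5725680)]) (PF.cons (PF.leaf (nat_lit 11083274) (nat_lit 696571) (nat_lit 31668008) (nat_lit 3296024) [(nat_lit 696571), (nat_lit 2323001), (nat_lit 5685726)]) (PF.cons (PF.leaf (nat_lit 11438272) (nat_lit 697697) (nat_lit 31198617) (nat_lit 3278811) [(nat_lit 697697), (nat_lit 2313929), (nat_lit 5644872)]) PF.nil)))) (PF.cons (PF.cons (PF.leaf (nat_lit 11177262) (nat_lit 2304904) (nat_lit 31086064) (nat_lit 3268091) [(nat_lit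 0), (nat_lit 2304904), (nat_lit 5628969)]) (PF.cons (PF.leaf (nat_lit 11524938) (nat_lit 692134) (nat_lit 30633318) (nat_lit 3250666) [(nat_lit 692134), (nat_lit 2295572), (nat_lit 5588309)]) PF.nil)) (PF.cons
 PF.nil (PF.cons PF.nil (PF.cons PF.nil PF.nil)))))) (PF.cons (PF.cons (PF.cons (PF.leaf (nat_lit 10871679) (nat_lit 3222422) (nat_lit 30555001) (nat_lit 3222422) [(nat_lit 0), (nat_lit 0), (nat_lit 5555231)]) (PF.cons (PF.leaf (nat_lit 11210567) (nat_lit 677235) (nat_lit 30125882) (nat_lit 3206251) [(nat_lit 677235), (nat_lit 0), (nat_lit 5516573)]) (PF.cons (PF.leaf (nat_lit 11550719) (nat_lit 678527) (nat_lit 29699820) (nat_lit 3189309) [(nat_lit 678527), (nat_lit 0), (nat_lit 5477104)]) (PF.cons PF.nil PF.nil)))) (PF.cons (PF.cons (PF.leaf (nat_lit 11634402) (nat_lit 2234556) (nat_lit 29179521) (nat_lit 3161645) [(nat_lit 0), (nat_lit 2234556), (nat_lit 5422181)]) (PF.cons PF.nil PF.nil)) (PF.cons PF.nil (PF.cons PF.nil PF.nil)))) (PF.cons (PF.cons (PF.cons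 (PF.leaf (nat_lit 12058871) (nat_lit 3058615) (nat_lit 27475185) (nat_lit 3058615) [(nat_lit 0), (nat_lit 0), (nat_lit 5225001)]) (PF.cons PF.nil PF.nil)) (PF.cons PF.nil PF.nil)) (PF.cons PF.nil (PF.cons PF.nil (PF.cons PF.nil (PF.cons PF.nil PF.nil))))))))))))

def p12_20_0_0 : pfC (piC [(nat_lit 35404596), (nat_lit 22827826), (nat_lit 14696761)] (nat_lit 19951005)) p12_20_0 (nat_lit 3) (nat_lit 0) (nat_lit 1) = true := by decide +kernel
def p12_20_0_1 : pfC (piC [(nat_lit 35404596), (nat_lit 22827826), (nat_lit 14696761)] (nat_lit 19951005)) p12_20_0 (nat_lit 3) (nat_lit 1) (nat_lit 2) = true := by decide +kernel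
def p12_20_0_2 : pfC (piC [(nat_lit 35404596), (nat_lit 22827826), (nat_lit 14696761)] (nat_lit 19951005)) p12_20_0 (nat_lit 3) (nat_lit 2) (nat_lit 3) = true := by decide +kernel
def p12_20_0_3 : pfC (piC [(nat_lit 35404596), (nat_lit 22827826), (nat_lit 14696761)] (nat_lit 19951005)) p12_20_0 (nat_lit 3) (nat_lit 3) (nat_lit 4) = true := by decide +kernel
def p12_20_0_4 : pfC (piC [(nat_lit 35404596), (nat_lit 22827826), (nat_lit 14696761)] (nat_lit 19951005)) p12_20_0 (nat_lit 3) (nat_lit 4) (nat_lit 5) = true := by decide +kernel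
def p12_20_0_5 : pfC (piC [(nat_lit 35404596), (nat_lit 22827826), (nat_lit 14696761)] (nat_lit 19951005)) p12_20_0 (nat_lit 3) (nat_lit 5) (nat_lit 6) = true := by decide +kernel
def p12_20_0_6 : pfC (piC [(nat_lit 35404596), (nat_lit 22827826), (nat_lit 14696761)] (nat_lit 19951005)) p12_20_0 (nat_lit 3) (nat_lit 6) (nat_lit 7) = true := by decide +kernel
def p12_20_0_7 : pfC (piC [(nat_lit 35404596), (nat_lit 22827826), (nat_lit 14696761)] (nat_lit 19951005)) p12_20_0 (nat_lit 3) (nat_lit 7) (nat_lit 8) = true := by decide +kernel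
def p12_20_0_8 : pfC (piC [(nat_lit 35404596), (nat_lit 22827826), (nat_lit 14696761)] (nat_lit 19951005)) p12_20_0 (nat_lit 3) (nat_lit 8) (nat_lit 9) = true := by decide +kernel
def p12_20_0_9 : pfC (piC [(nat_lit 35404596), (nat_lit 22827826), (nat_lit 14696761)] (nat_lit 19951005)) p12_20_0 (nat_lit 3) (nat_lit 9) (nat_lit 10) = true := by decide +kernel
def p12_20_0_10 : pfC (piC [(nat_lit 35404596), (nat_lit 22827826), (nat_lit 14696761)] (nat_lit 19951005)) p12_20_0 (nat_lit 3) (nat_lit 10) (nat_lit 11) = true := by decide +kernel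
def p12_20_0_11 : pfC (piC [(nat_lit 35404596), (nat_lit 22827826), (nat_lit 14696761)] (nat_lit 19951005)) p12_20_0 (nat_lit 3) (nat_lit 11) (nat_lit 12) = true := by decide +kernel
def p12_20_0_12 : pfC (piC [(nat_lit 35404596), (nat_lit 22827826), (nat_lit 14696761)] (nat_lit 19951005)) p12_20_0 (nat_lit 3) (nat_lit 12) (nat_lit 13) = true := by decide +kernel
def p12_20_0_13 : pfC (piC [(nat_lit 35404596), (nat_lit 22827826), (nat_lit 14696761)] (nat_lit 19951005)) p12_20_0 (nat_lit 3) (nat_lit 13) (nat_lit 14) = true := by decide +kernel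
def p12_20_0_14 : pfC (piC [(nat_lit 35404596), (nat_lit 22827826), (nat_lit 14696761)] (nat_lit 19951005)) p12_20_0 (nat_lit 3) (nat_lit 14) (nat_lit 15) = true := by decide +kernel
def p12_20_0_15 : pfC (piC [(nat_lit 35404596), (nat_lit 22827826), (nat_lit 14696761)] (nat_lit 19951005)) p12_20_0 (nat_lit 3) (nat_lit 15) (nat_lit 16) = true := by decide +kernel
def p12_20_0_16 : pfC (piC [(nat_lit 35404596), (nat_lit 22827826), (nat_lit 14696761)] (nat_lit 19951005)) p12_20_0 (nat_lit 3) (nat_lit 16) (nat_lit 17) = true := by decide +kernel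
def p12_20_0_17 : pfC (piC [(nat_lit 35404596), (nat_lit 22827826), (nat_lit 14696761)] (nat_lit 19951005)) p12_20_0 (nat_lit 3) (nat_lit 17) (nat_lit 18) = true := by decide +kernel
def p12_20_0_18 : pfC (piC [(nat_lit 35404596), (nat_lit 22827826), (nat_lit 14696761)] (nat_lit 19951005)) p12_20_0 (nat_lit 3) (nat_lit 18) (nat_lit 19) = true := by decide +kernel
def p12_20_0_19 : pfC (piC [(nat_lit 35404596), (nat_lit 22827826), (nat_lit 14696761)] (nat_lit 19951005)) p12_20_0 (nat_lit 3) (nat_lit 19) (nat_lit 20) = true := by decide +kernel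
def p12_20_0_20 : pfC (piC [(nat_lit 35404596), (nat_lit 22827826), (nat_lit 14696761)] (nat_lit 19951005)) p12_20_0 (nat_lit 3) (nat_lit 20) (nat_lit 21) = true := by decide +kernel
def p12_20_0_21 : pfC (piC [(nat_lit 35404596), (nat_lit 22827826), (nat_lit 14696761)] (nat_lit 19951005)) p12_20_0 (nat_lit 3) (nat_lit 21) (nat_lit 22) = true := by decide +kernel
def p12_20_0_22 : pfC (piC [(nat_lit 35404596), (nat_lit 22827826), (nat_lit 14696761)] (nat_lit 19951005)) p12_20_0 (nat_lit 3) (nat_lit 22) (nat_lit 23) = true := by decide +kernel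
def p12_20_0_23 : pfC (piC [(nat_lit 35404596), (nat_lit 22827826), (nat_lit 14696761)] (nat_lit 19951005)) p12_20_0 (nat_lit 3) (nat_lit 23) (nat_lit 24) = true := by decide +kernel
def p12_20_0_24 : pfC (piC [(nat_lit 35404596), (nat_lit 22827826), (nat_lit 14696761)] (nat_lit 19951005)) p12_20_0 (nat_lit 3) (nat_lit 24) (nat_lit 25) = true := by decide +kernel
def p12_20_0_25 : pfC (piC [(nat_lit 35404596), (nat_lit 22827826), (nat_lit 14696761)] (nat_lit 19951005)) p12_20_0 (nat_lit 3) (nat_lit 25) (nat_lit 26) = true := by decide +kernel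
def p12_20_0_26 : pfC (piC [(nat_lit 35404596), (nat_lit 22827826), (nat_lit 14696761)] (nat_lit 19951005)) p12_20_0 (nat_lit 3) (nat_lit 26) (nat_lit 27) = true := by decide +kernel
def p12_20_0_27 : pfC (piC [(nat_lit 35404596), (nat_lit 22827826), (nat_lit 14696761)] (nat_lit 19951005)) p12_20_0 (nat_lit 3) (nat_lit 27) (nat_lit 28) = true := by decide +kernel
def p12_20_0_28 : pfC (piC [(nat_lit 35404596), (nat_lit 22827826), (nat_lit 14696761)] (nat_lit 19951005)) p12_20_0 (nat_lit 3) (nat_lit 28) (nat_lit 29) = true := by decide +kernel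
def p12_20_0_29 : pfC (piC [(nat_lit 35404596), (nat_lit 22827826), (nat_lit 14696761)] (nat_lit 19951005)) p12_20_0 (nat_lit 3) (nat_lit 29) (nat_lit 30) = true := by decide +kernel
def p12_20_0_30 : pfC (piC [(nat_lit 35404596), (nat_lit 22827826), (nat_lit 14696761)] (nat_lit 19951005)) p12_20_0 (nat_lit 3) (nat_lit 30) (nat_lit 31) = true := by decide +kernel
def p12_20_0_31 : pfC (piC [(nat_lit 35404596), (nat_lit 22827826), (nat_lit 14696761)] (nat_lit 19951005)) p12_20_0 (nat_lit 3) (nat_lit 31) (nat_lit 32) = true := by decide +kernel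
def p12_20_0_32 : pfC (piC [(nat_lit 35404596), (nat_lit 22827826), (nat_lit 14696761)] (nat_lit 19951005)) p12_20_0 (nat_lit 3) (nat_lit 32) (nat_lit 33) = true := by decide +kernel
def p12_20_0_33 : pfC (piC [(nat_lit 35404596), (nat_lit 22827826), (nat_lit 14696761)] (nat_lit 19951005)) p12_20_0 (nat_lit 3) (nat_lit 33) (nat_lit 34) = true := by decide +kernel
def p12_20_0_34 : pfC (piC [(nat_lit 35404596), (nat_lit 22827826), (nat_lit 14696761)] (nat_lit 19951005)) p12_20_0 (nat_lit 3) (nat_lit 34) (nat_lit 35) = true := by decide +kernel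
def p12_20_0_35 : pfC (piC [(nat_lit 35404596), (nat_lit 22827826), (nat_lit 14696761)] (nat_lit 19951005)) p12_20_0 (nat_lit 3) (nat_lit 35) (nat_lit 36) = true := by decide +kernel
def p12_20_0_36 : pfC (piC [(nat_lit 35404596), (nat_lit 22827826), (nat_lit 14696761)] (nat_lit 19951005)) p12_20_0 (nat_lit 3) (nat_lit 36) (nat_lit 37) = true := by decide +kernel
def p12_20_0_37 : pfC (piC [(nat_lit 35404596), (nat_lit 22827826), (nat_lit 14696761)] (nat_lit 19951005)) p12_20_0 (nat_lit 3) (nat_lit 37) (nat_lit 38) = true := by decide +kernel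
def p12_20_0_38 : pfC (piC [(nat_lit 35404596), (nat_lit 22827826), (nat_lit 14696761)] (nat_lit 19951005)) p12_20_0 (nat_lit 3) (nat_lit 38) (nat_lit 39) = true := by decide +kernel
def p12_20_0_39 : pfC (piC [(nat_lit 35404596), (nat_lit 22827826), (nat_lit 14696761)] (nat_lit 19951005)) p12_20_0 (nat_lit 3) (nat_lit 39) (nat_lit 40) = true := by decide +kernel
def p12_20_0_40 : pfC (piC [(nat_lit 35404596), (nat_lit 22827826), (nat_lit 14696761)] (nat_lit 19951005)) p12_20_0 (nat_lit 3) (nat_lit 40) (nat_lit 41) = true := by decide +kernel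
def p12_20_0_41 : pfC (piC [(nat_lit 35404596), (nat_lit 22827826), (nat_lit 14696761)] (nat_lit 19951005)) p12_20_0 (nat_lit 3) (nat_lit 41) (nat_lit 42) = true := by decide +kernel
def p12_20_0_42 : pfC (piC [(nat_lit 35404596), (nat_lit 22827826), (nat_lit 14696761)] (nat_lit 19951005)) p12_20_0 (nat_lit 3) (nat_lit 42) (nat_lit 43) = true := by decide +kernel
def p12_20_0_43 : pfC (piC [(nat_lit 35404596), (nat_lit 22827826), (nat_lit 14696761)] (nat_lit 19951005)) p12_20_0 (nat_lit 3) (nat_lit 43) (nat_lit 44) = true := by decide +kernel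
def p12_20_0_44 : pfC (piC [(nat_lit 35404596), (nat_lit 22827826), (nat_lit 14696761)] (nat_lit 19951005)) p12_20_0 (nat_lit 3) (nat_lit 44) (nat_lit 45) = true := by decide +kernel
def p12_20_0_45 : pfC (piC [(nat_lit 35404596), (nat_lit 22827826), (nat_lit 14696761)] (nat_lit 19951005)) p12_20_0 (nat_lit 3) (nat_lit 45) (nat_lit 46) = true := by decide +kernel
def p12_20_0_46 : pfC (piC [(nat_lit 35404596), (nat_lit 22827826), (nat_lit 14696761)] (nat_lit 19951005)) p12_20_0 (nat_lit 3) (nat_lit 46) (nat_lit 47) = true := by decide +kernel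
def p12_20_0_47 : pfC (piC [(nat_lit 35404596), (nat_lit 22827826), (nat_lit 14696761)] (nat_lit 19951005)) p12_20_0 (nat_lit 3) (nat_lit 47) (nat_lit 48) = true := by decide +kernel
def p12_20_0_48 : pfC (piC [(nat_lit 35404596), (nat_lit 22827826), (nat_lit 14696761)] (nat_lit 19951005)) p12_20_0 (nat_lit 3) (nat_lit 48) (nat_lit 49) = true := by decide +kernel
def p12_20_0_49 : pfC (piC [(nat_lit 35404596), (nat_lit 22827826), (nat_lit 14696761)] (nat_lit 19951005)) p12_20_0 (nat_lit 3) (nat_lit 49) (nat_lit 50) = true := by decide +kernel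
def p12_20_0_50 : pfC (piC [(nat_lit 35404596), (nat_lit 22827826), (nat_lit 14696761)] (nat_lit 19951005)) p12_20_0 (nat_lit 3) (nat_lit 50) (nat_lit 51) = true := by decide +kernel
def p12_20_0_51 : pfC (piC [(nat_lit 35404596), (nat_lit 22827826), (nat_lit 14696761)] (nat_lit 19951005)) p12_20_0 (nat_lit 3) (nat_lit 51) (nat_lit 52) = true := by decide +kernel
def p12_20_0_52 : pfC (piC [(nat_lit 35404596), (nat_lit 22827826), (nat_lit 14696761)] (nat_lit 19951005)) p12_20_0 (nat_lit 3) (nat_lit 52) (nat_lit 53) = true := by decide +kernel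
def p12_20_0_53 : pfC (piC [(nat_lit 35404596), (nat_lit 22827826), (nat_lit 14696761)] (nat_lit 19951005)) p12_20_0 (nat_lit 3) (nat_lit 53) (nat_lit 54) = true := by decide +kernel
def p12_20_0_54 : pfC (piC [(nat_lit 35404596), (nat_lit 22827826), (nat_lit 14696761)] (nat_lit 19951005)) p12_20_0 (nat_lit 3) (nat_lit 54) (nat_lit 55) = true := by decide +kernel
def p12_20_0_55 : pfC (piC [(nat_lit 35404596), (nat_lit 22827826), (nat_lit 14696761)] (nat_lit 19951005)) p12_20_0 (nat_lit 3) (nat_lit 55) (nat_lit 56) = true := by decide +kernel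
def p12_20_0_56 : pfC (piC [(nat_lit 35404596), (nat_lit 22827826), (nat_lit 14696761)] (nat_lit 19951005)) p12_20_0 (nat_lit 3) (nat_lit 56) (nat_lit 57) = true := by decide +kernel
def p12_20_0_57 : pfC (piC [(nat_lit 35404596), (nat_lit 22827826), (nat_lit 14696761)] (nat_lit 19951005)) p12_20_0 (nat_lit 3) (nat_lit 57) (nat_lit 58) = true := by decide +kernel
def p12_20_0_58 : pfC (piC [(nat_lit 35404596), (nat_lit 22827826), (nat_lit 14696761)] (nat_lit 19951005)) p12_20_0 (nat_lit 3) (nat_lit 58) (nat_lit 59) = true := by decide +kernel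
def p12_20_0_59 : pfC (piC [(nat_lit 35404596), (nat_lit 22827826), (nat_lit 14696761)] (nat_lit 19951005)) p12_20_0 (nat_lit 3) (nat_lit 59) (nat_lit 60) = true := by decide +kernel
def p12_20_0_60 : pfC (piC [(nat_lit 35404596), (nat_lit 22827826), (nat_lit 14696761)] (nat_lit 19951005)) p12_20_0 (nat_lit 3) (nat_lit 60) (nat_lit 61) = true := by decide +kernel
def p12_20_0_61 : pfC (piC [(nat_lit 35404596), (nat_lit 22827826), (nat_lit 14696761)] (nat_lit 19951005)) p12_20_0 (nat_lit 3) (nat_lit 61) (nat_lit 62) = true := by decide +kernel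
def p12_20_0_62 : pfC (piC [(nat_lit 35404596), (nat_lit 22827826), (nat_lit 14696761)] (nat_lit 19951005)) p12_20_0 (nat_lit 3) (nat_lit 62) (nat_lit 63) = true := by decide +kernel
def p12_20_0_63 : pfC (piC [(nat_lit 35404596), (nat_lit 22827826), (nat_lit 14696761)] (nat_lit 19951005)) p12_20_0 (nat_lit 3) (nat_lit 63) (nat_lit 64) = true := by decide +kernel
def p12_20_0_64 : pfC (piC [(nat_lit 35404596), (nat_lit 22827826), (nat_lit 14696761)] (nat_lit 19951005)) p12_20_0 (nat_lit 3) (nat_lit 64) (nat_lit 65) = true := by decide +kernel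
def p12_20_0_65 : pfC (piC [(nat_lit 35404596), (nat_lit 22827826), (nat_lit 14696761)] (nat_lit 19951005)) p12_20_0 (nat_lit 3) (nat_lit 65) (nat_lit 66) = true := by decide +kernel
def p12_20_0_66 : pfC (piC [(nat_lit 35404596), (nat_lit 22827826), (nat_lit 14696761)] (nat_lit 19951005)) p12_20_0 (nat_lit 3) (nat_lit 66) (nat_lit 67) = true := by decide +kernel
def p12_20_0_67 : pfC (piC [(nat_lit 35404596), (nat_lit 22827826), (nat_lit 14696761)] (nat_lit 19951005)) p12_20_0 (nat_lit 3) (nat_lit 67) (nat_lit 68) = true := by decide +kernel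
def p12_20_0_68 : pfC (piC [(nat_lit 35404596), (nat_lit 22827826), (nat_lit 14696761)] (nat_lit 19951005)) p12_20_0 (nat_lit 3) (nat_lit 68) (nat_lit 69) = true := by decide +kernel
def p12_20_0_69 : pfC (piC [(nat_lit 35404596), (nat_lit 22827826), (nat_lit 14696761)] (nat_lit 19951005)) p12_20_0 (nat_lit 3) (nat_lit 69) (nat_lit 70) = true := by decide +kernel
def p12_20_0_70 : pfC (piC [(nat_lit 35404596), (nat_lit 22827826), (nat_lit 14696761)] (nat_lit 19951005)) p12_20_0 (nat_lit 3) (nat_lit 70) (nat_lit 71) = true := by decide +kernel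
def p12_20_0_71 : pfC (piC [(nat_lit 35404596), (nat_lit 22827826), (nat_lit 14696761)] (nat_lit 19951005)) p12_20_0 (nat_lit 3) (nat_lit 71) (nat_lit 72) = true := by decide +kernel
def p12_20_0_72 : pfC (piC [(nat_lit 35404596), (nat_lit 22827826), (nat_lit 14696761)] (nat_lit 19951005)) p12_20_0 (nat_lit 3) (nat_lit 72) (nat_lit 73) = true := by decide +kernel
def p12_20_0_73 : pfC (piC [(nat_lit 35404596), (nat_lit 22827826), (nat_lit 14696761)] (nat_lit 19951005)) p12_20_0 (nat_lit 3) (nat_lit 73) (nat_lit 74) = true := by decide +kernel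
def p12_20_0_74 : pfC (piC [(nat_lit 35404596), (nat_lit 22827826), (nat_lit 14696761)] (nat_lit 19951005)) p12_20_0 (nat_lit 3) (nat_lit 74) (nat_lit 75) = true := by decide +kernel
def p12_20_0_75 : pfC (piC [(nat_lit 35404596), (nat_lit 22827826), (nat_lit 14696761)] (nat_lit 19951005)) p12_20_0 (nat_lit 3) (nat_lit 75) (nat_lit 76) = true := by decide +kernel
def p12_20_0_76 : pfC (piC [(nat_lit 35404596), (nat_lit 22827826), (nat_lit 14696761)] (nat_lit 19951005)) p12_20_0 (nat_lit 3) (nat_lit 76) (nat_lit 77) = true := by decide +kernel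
def p12_20_0_77 : pfC (piC [(nat_lit 35404596), (nat_lit 22827826), (nat_lit 14696761)] (nat_lit 19951005)) p12_20_0 (nat_lit 3) (nat_lit 77) (nat_lit 78) = true := by decide +kernel
def p12_20_0_78 : pfC (piC [(nat_lit 35404596), (nat_lit 22827826), (nat_lit 14696761)] (nat_lit 19951005)) p12_20_0 (nat_lit 3) (nat_lit 78) (nat_lit 79) = true := by decide +kernel
def p12_20_0_79 : pfC (piC [(nat_lit 35404596), (nat_lit 22827826), (nat_lit 14696761)] (nat_lit 19951005)) p12_20_0 (nat_lit 3) (nat_lit 79) (nat_lit 80) = true := by decide +kernel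
def p12_20_0_80 : pfC (piC [(nat_lit 35404596), (nat_lit 22827826), (nat_lit 14696761)] (nat_lit 19951005)) p12_20_0 (nat_lit 3) (nat_lit 80) (nat_lit 81) = true := by decide +kernel
def p12_20_0_81 : pfC (piC [(nat_lit 35404596), (nat_lit 22827826), (nat_lit 14696761)] (nat_lit 19951005)) p12_20_0 (nat_lit 3) (nat_lit 81) (nat_lit 82) = true := by decide +kernel
def p12_20_0_82 : pfC (piC [(nat_lit 35404596), (nat_lit 22827826), (nat_lit 14696761)] (nat_lit 19951005)) p12_20_0 (nat_lit 3) (nat_lit 82) (nat_lit 83) = true := by decide +kernel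
def p12_20_0_83 : pfC (piC [(nat_lit 35404596), (nat_lit 22827826), (nat_lit 14696761)] (nat_lit 19951005)) p12_20_0 (nat_lit 3) (nat_lit 83) (nat_lit 84) = true := by decide +kernel
def p12_20_0_84 : pfC (piC [(nat_lit 35404596), (nat_lit 22827826), (nat_lit 14696761)] (nat_lit 19951005)) p12_20_0 (nat_lit 3) (nat_lit 84) (nat_lit 85) = true := by decide +kernel
def p12_20_0_85 : pfC (piC [(nat_lit 35404596), (nat_lit 22827826), (nat_lit 14696761)] (nat_lit 19951005)) p12_20_0 (nat_lit 3) (nat_lit 85) (nat_lit 86) = true := by decide +kernel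
def p12_20_0_86 : pfC (piC [(nat_lit 35404596), (nat_lit 22827826), (nat_lit 14696761)] (nat_lit 19951005)) p12_20_0 (nat_lit 3) (nat_lit 86) (nat_lit 87) = true := by decide +kernel
def p12_20_0_87 : pfC (piC [(nat_lit 35404596), (nat_lit 22827826), (nat_lit 14696761)] (nat_lit 19951005)) p12_20_0 (nat_lit 3) (nat_lit 87) (nat_lit 88) = true := by decide +kernel
def p12_20_0_88 : pfC (piC [(nat_lit 35404596), (nat_lit 22827826), (nat_lit 14696761)] (nat_lit 19951005)) p12_20_0 (nat_lit 3) (nat_lit 88) (nat_lit 89) = true := by decide +kernel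
def p12_20_0_89 : pfC (piC [(nat_lit 35404596), (nat_lit 22827826), (nat_lit 14696761)] (nat_lit 19951005)) p12_20_0 (nat_lit 3) (nat_lit 89) (nat_lit 90) = true := by decide +kernel
def p12_20_0_90 : pfC (piC [(nat_lit 35404596), (nat_lit 22827826), (nat_lit 14696761)] (nat_lit 19951005)) p12_20_0 (nat_lit 3) (nat_lit 90) (nat_lit 91) = true := by decide +kernel
def p12_20_0_91 : pfC (piC [(nat_lit 35404596), (nat_lit 22827826), (nat_lit 14696761)] (nat_lit 19951005)) p12_20_0 (nat_lit 3) (nat_lit 91) (nat_lit 92) = true := by decide +kernel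
def p12_20_0_92 : pfC (piC [(nat_lit 35404596), (nat_lit 22827826), (nat_lit 14696761)] (nat_lit 19951005)) p12_20_0 (nat_lit 3) (nat_lit 92) (nat_lit 93) = true := by decide +kernel
def p12_20_0_93 : pfC (piC [(nat_lit 35404596), (nat_lit 22827826), (nat_lit 14696761)] (nat_lit 19951005)) p12_20_0 (nat_lit 3) (nat_lit 93) (nat_lit 94) = true := by decide +kernel
def p12_20_0_94 : pfC (piC [(nat_lit 35404596), (nat_lit 22827826), (nat_lit 14696761)] (nat_lit 19951005)) p12_20_0 (nat_lit 3) (nat_lit 94) (nat_lit 95) = true := by decide +kernel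
def p12_20_0_95 : pfC (piC [(nat_lit 35404596), (nat_lit 22827826), (nat_lit 14696761)] (nat_lit 19951005)) p12_20_0 (nat_lit 3) (nat_lit 95) (nat_lit 96) = true := by decide +kernel
def p12_20_0_96 : pfC (piC [(nat_lit 35404596), (nat_lit 22827826), (nat_lit 14696761)] (nat_lit 19951005)) p12_20_0 (nat_lit 3) (nat_lit 96) (nat_lit 97) = true := by decide +kernel
def p12_20_0_97 : pfC (piC [(nat_lit 35404596), (nat_lit 22827826), (nat_lit 14696761)] (nat_lit 19951005)) p12_20_0 (nat_lit 3) (nat_lit 97) (nat_lit 98) = true := by decide +kernel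
def p12_20_0_98 : pfC (piC [(nat_lit 35404596), (nat_lit 22827826), (nat_lit 14696761)] (nat_lit 19951005)) p12_20_0 (nat_lit 3) (nat_lit 98) (nat_lit 99) = true := by decide +kernel
def p12_20_0_99 : pfC (piC [(nat_lit 35404596), (nat_lit 22827826), (nat_lit 14696761)] (nat_lit 19951005)) p12_20_0 (nat_lit 3) (nat_lit 99) (nat_lit 100) = true := by decide +kernel
def p12_20_0_100 : pfC (piC [(nat_lit 35404596), (nat_lit 22827826), (nat_lit 14696761)] (nat_lit 19951005)) p12_20_0 (nat_lit 3) (nat_lit 100) (nat_lit 101) = true := by decide +kernel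
def p12_20_0_101 : pfC (piC [(nat_lit 35404596), (nat_lit 22827826), (nat_lit 14696761)] (nat_lit 19951005)) p12_20_0 (nat_lit 3) (nat_lit 101) (nat_lit 102) = true := by decide +kernel
def p12_20_0_102 : pfC (piC [(nat_lit 35404596), (nat_lit 22827826), (nat_lit 14696761)] (nat_lit 19951005)) p12_20_0 (nat_lit 3) (nat_lit 102) (nat_lit 103) = true := by decide +kernel
def p12_20_0_103 : pfC (piC [(nat_lit 35404596), (nat_lit 22827826), (nat_lit 14696761)] (nat_lit 19951005)) p12_20_0 (nat_lit 3) (nat_lit 103) (nat_lit 104) = true := by decide +kernel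
def p12_20_0_104 : pfC (piC [(nat_lit 35404596), (nat_lit 22827826), (nat_lit 14696761)] (nat_lit 19951005)) p12_20_0 (nat_lit 3) (nat_lit 104) (nat_lit 105) = true := by decide +kernel
def p12_20_0_105 : pfC (piC [(nat_lit 35404596), (nat_lit 22827826), (nat_lit 14696761)] (nat_lit 19951005)) p12_20_0 (nat_lit 3) (nat_lit 105) (nat_lit 106) = true := by decide +kernel
def p12_20_0_106 : pfC (piC [(nat_lit 35404596), (nat_lit 22827826), (nat_lit 14696761)] (nat_lit 19951005)) p12_20_0 (nat_lit 3) (nat_lit 106) (nat_lit 107) = true := by decide +kernel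
def p12_20_0_107 : pfC (piC [(nat_lit 35404596), (nat_lit 22827826), (nat_lit 14696761)] (nat_lit 19951005)) p12_20_0 (nat_lit 3) (nat_lit 107) (nat_lit 108) = true := by decide +kernel
def p12_20_0_108 : pfC (piC [(nat_lit 35404596), (nat_lit 22827826), (nat_lit 14696761)] (nat_lit 19951005)) p12_20_0 (nat_lit 3) (nat_lit 108) (nat_lit 109) = true := by decide +kernel
def p12_20_0_109 : pfC (piC [(nat_lit 35404596), (nat_lit 22827826), (nat_lit 14696761)] (nat_lit 19951005)) p12_20_0 (nat_lit 3) (nat_lit 109) (nat_lit 110) = true := by decide +kernel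
def p12_20_0_110 : pfC (piC [(nat_lit 35404596), (nat_lit 22827826), (nat_lit 14696761)] (nat_lit 19951005)) p12_20_0 (nat_lit 3) (nat_lit 110) (nat_lit 111) = true := by decide +kernel
def p12_20_0_111 : pfC (piC [(nat_lit 35404596), (nat_lit 22827826), (nat_lit 14696761)] (nat_lit 19951005)) p12_20_0 (nat_lit 3) (nat_lit 111) (nat_lit 112) = true := by decide +kernel
def p12_20_0_112 : pfC (piC [(nat_lit 35404596), (nat_lit 22827826), (nat_lit 14696761)] (nat_lit 19951005)) p12_20_0 (nat_lit 3) (nat_lit 112) (nat_lit 113) = true := by decide +kernel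
def p12_20_0_113 : pfC (piC [(nat_lit 35404596), (nat_lit 22827826), (nat_lit 14696761)] (nat_lit 19951005)) p12_20_0 (nat_lit 3) (nat_lit 113) (nat_lit 114) = true := by decide +kernel
def p12_20_0_114 : pfC (piC [(nat_lit 35404596), (nat_lit 22827826), (nat_lit 14696761)] (nat_lit 19951005)) p12_20_0 (nat_lit 3) (nat_lit 114) (nat_lit 115) = true := by decide +kernel
def p12_20_0_115 : pfC (piC [(nat_lit 35404596), (nat_lit 22827826), (nat_lit 14696761)] (nat_lit 19951005)) p12_20_0 (nat_lit 3) (nat_lit 115) (nat_lit 116) = true := by decide +kernel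
def p12_20_0_116 : pfC (piC [(nat_lit 35404596), (nat_lit 22827826), (nat_lit 14696761)] (nat_lit 19951005)) p12_20_0 (nat_lit 3) (nat_lit 116) (nat_lit 117) = true := by decide +kernel
def p12_20_0_117 : pfC (piC [(nat_lit 35404596), (nat_lit 22827826), (nat_lit 14696761)] (nat_lit 19951005)) p12_20_0 (nat_lit 3) (nat_lit 117) (nat_lit 118) = true := by decide +kernel
def p12_20_0_118 : pfC (piC [(nat_lit 35404596), (nat_lit 22827826), (nat_lit 14696761)] (nat_lit 19951005)) p12_20_0 (nat_lit 3) (nat_lit 118) (nat_lit 119) = true := by decide +kernel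
def p12_20_0_119 : pfC (piC [(nat_lit 35404596), (nat_lit 22827826), (nat_lit 14696761)] (nat_lit 19951005)) p12_20_0 (nat_lit 3) (nat_lit 119) (nat_lit 120) = true := by decide +kernel
def p12_20_0_120 : pfC (piC [(nat_lit 35404596), (nat_lit 22827826), (nat_lit 14696761)] (nat_lit 19951005)) p12_20_0 (nat_lit 3) (nat_lit 120) (nat_lit 121) = true := by decide +kernel
def p12_20_0_121 : pfC (piC [(nat_lit 35404596), (nat_lit 22827826), (nat_lit 14696761)] (nat_lit 19951005)) p12_20_0 (nat_lit 3) (nat_lit 121) (nat_lit 122) = true := by decide +kernel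
def p12_20_0_122 : pfC (piC [(nat_lit 35404596), (nat_lit 22827826), (nat_lit 14696761)] (nat_lit 19951005)) p12_20_0 (nat_lit 3) (nat_lit 122) (nat_lit 123) = true := by decide +kernel
def p12_20_0_123 : pfC (piC [(nat_lit 35404596), (nat_lit 22827826), (nat_lit 14696761)] (nat_lit 19951005)) p12_20_0 (nat_lit 3) (nat_lit 123) (nat_lit 124) = true := by decide +kernel
def p12_20_0_124 : pfC (piC [(nat_lit 35404596), (nat_lit 22827826), (nat_lit 14696761)] (nat_lit 19951005)) p12_20_0 (nat_lit 3) (nat_lit 124) (nat_lit 125) = true := by decide +kernel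
def p12_20_0_125 : pfC (piC [(nat_lit 35404596), (nat_lit 22827826), (nat_lit 14696761)] (nat_lit 19951005)) p12_20_0 (nat_lit 3) (nat_lit 125) (nat_lit 126) = true := by decide +kernel
def p12_20_0_126 : pfC (piC [(nat_lit 35404596), (nat_lit 22827826), (nat_lit 14696761)] (nat_lit 19951005)) p12_20_0 (nat_lit 3) (nat_lit 126) (nat_lit 127) = true := by decide +kernel
def p12_20_0_127 : pfC (piC [(nat_lit 35404596), (nat_lit 22827826), (nat_lit 14696761)] (nat_lit 19951005)) p12_20_0 (nat_lit 3) (nat_lit 127) (nat_lit 128) = true := by decide +kernel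
def p12_20_0_128 : pfC (piC [(nat_lit 35404596), (nat_lit 22827826), (nat_lit 14696761)] (nat_lit 19951005)) p12_20_0 (nat_lit 3) (nat_lit 128) (nat_lit 129) = true := by decide +kernel
def p12_20_0_129 : pfC (piC [(nat_lit 35404596), (nat_lit 22827826), (nat_lit 14696761)] (nat_lit 19951005)) p12_20_0 (nat_lit 3) (nat_lit 129) (nat_lit 130) = true := by decide +kernel
def p12_20_0_130 : pfC (piC [(nat_lit 35404596), (nat_lit 22827826), (nat_lit 14696761)] (nat_lit 19951005)) p12_20_0 (nat_lit 3) (nat_lit 130) (nat_lit 131) = true := by decide +kernel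
def p12_20_0_131 : pfC (piC [(nat_lit 35404596), (nat_lit 22827826), (nat_lit 14696761)] (nat_lit 19951005)) p12_20_0 (nat_lit 3) (nat_lit 131) (nat_lit 132) = true := by decide +kernel
def p12_20_0_132 : pfC (piC [(nat_lit 35404596), (nat_lit 22827826), (nat_lit 14696761)] (nat_lit 19951005)) p12_20_0 (nat_lit 3) (nat_lit 132) (nat_lit 133) = true := by decide +kernel
def p12_20_0_133 : pfC (piC [(nat_lit 35404596), (nat_lit 22827826), (nat_lit 14696761)] (nat_lit 19951005)) p12_20_0 (nat_lit 3) (nat_lit 133) (nat_lit 134) = true := by decide +kernel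
def p12_20_0_134 : pfC (piC [(nat_lit 35404596), (nat_lit 22827826), (nat_lit 14696761)] (nat_lit 19951005)) p12_20_0 (nat_lit 3) (nat_lit 134) (nat_lit 135) = true := by decide +kernel
def p12_20_0_135 : pfC (piC [(nat_lit 35404596), (nat_lit 22827826), (nat_lit 14696761)] (nat_lit 19951005)) p12_20_0 (nat_lit 3) (nat_lit 135) (nat_lit 136) = true := by decide +kernel
def p12_20_0_136 : pfC (piC [(nat_lit 35404596), (nat_lit 22827826), (nat_lit 14696761)] (nat_lit 19951005)) p12_20_0 (nat_lit 3) (nat_lit 136) (nat_lit 137) = true := by decide +kernel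
def p12_20_0_137 : pfC (piC [(nat_lit 35404596), (nat_lit 22827826), (nat_lit 14696761)] (nat_lit 19951005)) p12_20_0 (nat_lit 3) (nat_lit 137) (nat_lit 138) = true := by decide +kernel
def p12_20_0_138 : pfC (piC [(nat_lit 35404596), (nat_lit 22827826), (nat_lit 14696761)] (nat_lit 19951005)) p12_20_0 (nat_lit 3) (nat_lit 138) (nat_lit 139) = true := by decide +kernel
def p12_20_0_139 : pfC (piC [(nat_lit 35404596), (nat_lit 22827826), (nat_lit 14696761)] (nat_lit 19951005)) p12_20_0 (nat_lit 3) (nat_lit 139) (nat_lit 140) = true := by decide +kernel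
def p12_20_0_140 : pfC (piC [(nat_lit 35404596), (nat_lit 22827826), (nat_lit 14696761)] (nat_lit 19951005)) p12_20_0 (nat_lit 3) (nat_lit 140) (nat_lit 141) = true := by decide +kernel
def p12_20_0_141 : pfC (piC [(nat_lit 35404596), (nat_lit 22827826), (nat_lit 14696761)] (nat_lit 19951005)) p12_20_0 (nat_lit 3) (nat_lit 141) (nat_lit 142) = true := by decide +kernel
def p12_20_0_142 : pfC (piC [(nat_lit 35404596), (nat_lit 22827826), (nat_lit 14696761)] (nat_lit 19951005)) p12_20_0 (nat_lit 3) (nat_lit 142) (nat_lit 143) = true := by decide +kernel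
def p12_20_0_143 : pfC (piC [(nat_lit 35404596), (nat_lit 22827826), (nat_lit 14696761)] (nat_lit 19951005)) p12_20_0 (nat_lit 3) (nat_lit 143) (nat_lit 144) = true := by decide +kernel
def p12_20_0_144 : pfC (piC [(nat_lit 35404596), (nat_lit 22827826), (nat_lit 14696761)] (nat_lit 19951005)) p12_20_0 (nat_lit 3) (nat_lit 144) (nat_lit 145) = true := by decide +kernel
def p12_20_0_145 : pfC (piC [(nat_lit 35404596), (nat_lit 22827826), (nat_lit 14696761)] (nat_lit 19951005)) p12_20_0 (nat_lit 3) (nat_lit 145) (nat_lit 146) = true := by decide +kernel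
def p12_20_0_146 : pfC (piC [(nat_lit 35404596), (nat_lit 22827826), (nat_lit 14696761)] (nat_lit 19951005)) p12_20_0 (nat_lit 3) (nat_lit 146) (nat_lit 147) = true := by decide +kernel
def p12_20_0_147 : pfC (piC [(nat_lit 35404596), (nat_lit 22827826), (nat_lit 14696761)] (nat_lit 19951005)) p12_20_0 (nat_lit 3) (nat_lit 147) (nat_lit 148) = true := by decide +kernel
def p12_20_0_148 : pfC (piC [(nat_lit 35404596), (nat_lit 22827826), (nat_lit 14696761)] (nat_lit 19951005)) p12_20_0 (nat_lit 3) (nat_lit 148) (nat_lit 149) = true := by decide +kernel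
def p12_20_0_149 : pfC (piC [(nat_lit 35404596), (nat_lit 22827826), (nat_lit 14696761)] (nat_lit 19951005)) p12_20_0 (nat_lit 3) (nat_lit 149) (nat_lit 150) = true := by decide +kernel
def p12_20_0_150 : pfC (piC [(nat_lit 35404596), (nat_lit 22827826), (nat_lit 14696761)] (nat_lit 19951005)) p12_20_0 (nat_lit 3) (nat_lit 150) (nat_lit 151) = true := by decide +kernel
def p12_20_0_151 : pfC (piC [(nat_lit 35404596), (nat_lit 22827826), (nat_lit 14696761)] (nat_lit 19951005)) p12_20_0 (nat_lit 3) (nat_lit 151) (nat_lit 152) = true := by decide +kernel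
def p12_20_0_152 : pfC (piC [(nat_lit 35404596), (nat_lit 22827826), (nat_lit 14696761)] (nat_lit 19951005)) p12_20_0 (nat_lit 3) (nat_lit 152) (nat_lit 153) = true := by decide +kernel
def p12_20_0_153 : pfC (piC [(nat_lit 35404596), (nat_lit 22827826), (nat_lit 14696761)] (nat_lit 19951005)) p12_20_0 (nat_lit 3) (nat_lit 153) (nat_lit 154) = true := by decide +kernel
def p12_20_0_154 : pfC (piC [(nat_lit 35404596), (nat_lit 22827826), (nat_lit 14696761)] (nat_lit 19951005)) p12_20_0 (nat_lit 3) (nat_lit 154) (nat_lit 155) = true := by decide +kernel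
def p12_20_0_155 : pfC (piC [(nat_lit 35404596), (nat_lit 22827826), (nat_lit 14696761)] (nat_lit 19951005)) p12_20_0 (nat_lit 3) (nat_lit 155) (nat_lit 156) = true := by decide +kernel
def p12_20_0_156 : pfC (piC [(nat_lit 35404596), (nat_lit 22827826), (nat_lit 14696761)] (nat_lit 19951005)) p12_20_0 (nat_lit 3) (nat_lit 156) (nat_lit 157) = true := by decide +kernel
def p12_20_0_157 : pfC (piC [(nat_lit 35404596), (nat_lit 22827826), (nat_lit 14696761)] (nat_lit 19951005)) p12_20_0 (nat_lit 3) (nat_lit 157) (nat_lit 158) = true := by decide +kernel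
def p12_20_0_158 : pfC (piC [(nat_lit 35404596), (nat_lit 22827826), (nat_lit 14696761)] (nat_lit 19951005)) p12_20_0 (nat_lit 3) (nat_lit 158) (nat_lit 159) = true := by decide +kernel
def p12_20_0_159 : pfC (piC [(nat_lit 35404596), (nat_lit 22827826), (nat_lit 14696761)] (nat_lit 19951005)) p12_20_0 (nat_lit 3) (nat_lit 159) (nat_lit 160) = true := by decide +kernel
def p12_20_0_160 : pfC (piC [(nat_lit 35404596), (nat_lit 22827826), (nat_lit 14696761)] (nat_lit 19951005)) p12_20_0 (nat_lit 3) (nat_lit 160) (nat_lit 161) = true := by decide +kernel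
def p12_20_0_161 : pfC (piC [(nat_lit 35404596), (nat_lit 22827826), (nat_lit 14696761)] (nat_lit 19951005)) p12_20_0 (nat_lit 3) (nat_lit 161) (nat_lit 162) = true := by decide +kernel
def p12_20_0_162 : pfC (piC [(nat_lit 35404596), (nat_lit 22827826), (nat_lit 14696761)] (nat_lit 19951005)) p12_20_0 (nat_lit 3) (nat_lit 162) (nat_lit 163) = true := by decide +kernel
def p12_20_0_163 : pfC (piC [(nat_lit 35404596), (nat_lit 22827826), (nat_lit 14696761)] (nat_lit 19951005)) p12_20_0 (nat_lit 3) (nat_lit 163) (nat_lit 164) = true := by decide +kernel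
def p12_20_0_164 : pfC (piC [(nat_lit 35404596), (nat_lit 22827826), (nat_lit 14696761)] (nat_lit 19951005)) p12_20_0 (nat_lit 3) (nat_lit 164) (nat_lit 165) = true := by decide +kernel
def p12_20_0_165 : pfC (piC [(nat_lit 35404596), (nat_lit 22827826), (nat_lit 14696761)] (nat_lit 19951005)) p12_20_0 (nat_lit 3) (nat_lit 165) (nat_lit 166) = true := by decide +kernel
def p12_20_0_166 : pfC (piC [(nat_lit 35404596), (nat_lit 22827826), (nat_lit 14696761)] (nat_lit 19951005)) p12_20_0 (nat_lit 3) (nat_lit 166) (nat_lit 167) = true := by decide +kernel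
def p12_20_0_167 : pfC (piC [(nat_lit 35404596), (nat_lit 22827826), (nat_lit 14696761)] (nat_lit 19951005)) p12_20_0 (nat_lit 3) (nat_lit 167) (nat_lit 168) = true := by decide +kernel
def p12_20_0_168 : pfC (piC [(nat_lit 35404596), (nat_lit 22827826), (nat_lit 14696761)] (nat_lit 19951005)) p12_20_0 (nat_lit 3) (nat_lit 168) (nat_lit 169) = true := by decide +kernel
def p12_20_0_169 : pfC (piC [(nat_lit 35404596), (nat_lit 22827826), (nat_lit 14696761)] (nat_lit 19951005)) p12_20_0 (nat_lit 3) (nat_lit 169) (nat_lit 170) = true := by decide +kernel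
def p12_20_0_170 : pfC (piC [(nat_lit 35404596), (nat_lit 22827826), (nat_lit 14696761)] (nat_lit 19951005)) p12_20_0 (nat_lit 3) (nat_lit 170) (nat_lit 171) = true := by decide +kernel
def p12_20_0_171 : pfC (piC [(nat_lit 35404596), (nat_lit 22827826), (nat_lit 14696761)] (nat_lit 19951005)) p12_20_0 (nat_lit 3) (nat_lit 171) (nat_lit 172) = true := by decide +kernel
def p12_20_0_172 : pfC (piC [(nat_lit 35404596), (nat_lit 22827826), (nat_lit 14696761)] (nat_lit 19951005)) p12_20_0 (nat_lit 3) (nat_lit 172) (nat_lit 173) = true := by decide +kernel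
def p12_20_0_173 : pfC (piC [(nat_lit 35404596), (nat_lit 22827826), (nat_lit 14696761)] (nat_lit 19951005)) p12_20_0 (nat_lit 3) (nat_lit 173) (nat_lit 174) = true := by decide +kernel
def p12_20_0_174 : pfC (piC [(nat_lit 35404596), (nat_lit 22827826), (nat_lit 14696761)] (nat_lit 19951005)) p12_20_0 (nat_lit 3) (nat_lit 174) (nat_lit 175) = true := by decide +kernel
def p12_20_0_175 : pfC (piC [(nat_lit 35404596), (nat_lit 22827826), (nat_lit 14696761)] (nat_lit 19951005)) p12_20_0 (nat_lit 3) (nat_lit 175) (nat_lit 176) = true := by decide +kernel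
def p12_20_0_176 : pfC (piC [(nat_lit 35404596), (nat_lit 22827826), (nat_lit 14696761)] (nat_lit 19951005)) p12_20_0 (nat_lit 3) (nat_lit 176) (nat_lit 177) = true := by decide +kernel
def p12_20_0_177 : pfC (piC [(nat_lit 35404596), (nat_lit 22827826), (nat_lit 14696761)] (nat_lit 19951005)) p12_20_0 (nat_lit 3) (nat_lit 177) (nat_lit 178) = true := by decide +kernel
def p12_20_0_178 : pfC (piC [(nat_lit 35404596), (nat_lit 22827826), (nat_lit 14696761)] (nat_lit 19951005)) p12_20_0 (nat_lit 3) (nat_lit 178) (nat_lit 179) = true := by decide +kernel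
def p12_20_0_179 : pfC (piC [(nat_lit 35404596), (nat_lit 22827826), (nat_lit 14696761)] (nat_lit 19951005)) p12_20_0 (nat_lit 3) (nat_lit 179) (nat_lit 180) = true := by decide +kernel
def p12_20_0_180 : pfC (piC [(nat_lit 35404596), (nat_lit 22827826), (nat_lit 14696761)] (nat_lit 19951005)) p12_20_0 (nat_lit 3) (nat_lit 180) (nat_lit 181) = true := by decide +kernel
def p12_20_0_181 : pfC (piC [(nat_lit 35404596), (nat_lit 22827826), (nat_lit 14696761)] (nat_lit 19951005)) p12_20_0 (nat_lit 3) (nat_lit 181) (nat_lit 182) = true := by decide +kernel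
def p12_20_0_182 : pfC (piC [(nat_lit 35404596), (nat_lit 22827826), (nat_lit 14696761)] (nat_lit 19951005)) p12_20_0 (nat_lit 3) (nat_lit 182) (nat_lit 183) = true := by decide +kernel
def p12_20_0_183 : pfC (piC [(nat_lit 35404596), (nat_lit 22827826), (nat_lit 14696761)] (nat_lit 19951005)) p12_20_0 (nat_lit 3) (nat_lit 183) (nat_lit 184) = true := by decide +kernel
def p12_20_0_184 : pfC (piC [(nat_lit 35404596), (nat_lit 22827826), (nat_lit 14696761)] (nat_lit 19951005)) p12_20_0 (nat_lit 3) (nat_lit 184) (nat_lit 185) = true := by decide +kernel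
def p12_20_0_185 : pfC (piC [(nat_lit 35404596), (nat_lit 22827826), (nat_lit 14696761)] (nat_lit 19951005)) p12_20_0 (nat_lit 3) (nat_lit 185) (nat_lit 186) = true := by decide +kernel
def p12_20_0_186 : pfC (piC [(nat_lit 35404596), (nat_lit 22827826), (nat_lit 14696761)] (nat_lit 19951005)) p12_20_0 (nat_lit 3) (nat_lit 186) (nat_lit 187) = true := by decide +kernel
def p12_20_0_187 : pfC (piC [(nat_lit 35404596), (nat_lit 22827826), (nat_lit 14696761)] (nat_lit 19951005)) p12_20_0 (nat_lit 3) (nat_lit 187) (nat_lit 188) = true := by decide +kernel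
def p12_20_0_188 : pfC (piC [(nat_lit 35404596), (nat_lit 22827826), (nat_lit 14696761)] (nat_lit 19951005)) p12_20_0 (nat_lit 3) (nat_lit 188) (nat_lit 189) = true := by decide +kernel
def p12_20_0_189 : pfC (piC [(nat_lit 35404596), (nat_lit 22827826), (nat_lit 14696761)] (nat_lit 19951005)) p12_20_0 (nat_lit 3) (nat_lit 189) (nat_lit 190) = true := by decide +kernel
def p12_20_0_190 : pfC (piC [(nat_lit 35404596), (nat_lit 22827826), (nat_lit 14696761)] (nat_lit 19951005)) p12_20_0 (nat_lit 3) (nat_lit 190) (nat_lit 191) = true := by decide +kernel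
def p12_20_0_191 : pfC (piC [(nat_lit 35404596), (nat_lit 22827826), (nat_lit 14696761)] (nat_lit 19951005)) p12_20_0 (nat_lit 3) (nat_lit 191) (nat_lit 192) = true := by decide +kernel
def p12_20_0_192 : pfC (piC [(nat_lit 35404596), (nat_lit 22827826), (nat_lit 14696761)] (nat_lit 19951005)) p12_20_0 (nat_lit 3) (nat_lit 192) (nat_lit 193) = true := by decide +kernel
def p12_20_0_193 : pfC (piC [(nat_lit 35404596), (nat_lit 22827826), (nat_lit 14696761)] (nat_lit 19951005)) p12_20_0 (nat_lit 3) (nat_lit 193) (nat_lit 194) = true := by decide +kernel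
def p12_20_0_194 : pfC (piC [(nat_lit 35404596), (nat_lit 22827826), (nat_lit 14696761)] (nat_lit 19951005)) p12_20_0 (nat_lit 3) (nat_lit 194) (nat_lit 195) = true := by decide +kernel
def p12_20_0_195 : pfC (piC [(nat_lit 35404596), (nat_lit 22827826), (nat_lit 14696761)] (nat_lit 19951005)) p12_20_0 (nat_lit 3) (nat_lit 195) (nat_lit 196) = true := by decide +kernel
def p12_20_0_196 : pfC (piC [(nat_lit 35404596), (nat_lit 22827826), (nat_lit 14696761)] (nat_lit 19951005)) p12_20_0 (nat_lit 3) (nat_lit 196) (nat_lit 197) = true := by decide +kernel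
def p12_20_0_197 : pfC (piC [(nat_lit 35404596), (nat_lit 22827826), (nat_lit 14696761)] (nat_lit 19951005)) p12_20_0 (nat_lit 3) (nat_lit 197) (nat_lit 198) = true := by decide +kernel
def p12_20_0_198 : pfC (piC [(nat_lit 35404596), (nat_lit 22827826), (nat_lit 14696761)] (nat_lit 19951005)) p12_20_0 (nat_lit 3) (nat_lit 198) (nat_lit 199) = true := by decide +kernel
def p12_20_0_199 : pfC (piC [(nat_lit 35404596), (nat_lit 22827826), (nat_lit 14696761)] (nat_lit 19951005)) p12_20_0 (nat_lit 3) (nat_lit 199) (nat_lit 200) = true := by decide +kernel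
def p12_20_0_200 : pfC (piC [(nat_lit 35404596), (nat_lit 22827826), (nat_lit 14696761)] (nat_lit 19951005)) p12_20_0 (nat_lit 3) (nat_lit 200) (nat_lit 201) = true := by decide +kernel
def p12_20_0_201 : pfC (piC [(nat_lit 35404596), (nat_lit 22827826), (nat_lit 14696761)] (nat_lit 19951005)) p12_20_0 (nat_lit 3) (nat_lit 201) (nat_lit 202) = true := by decide +kernel
def p12_20_0_202 : pfC (piC [(nat_lit 35404596), (nat_lit 22827826), (nat_lit 14696761)] (nat_lit 19951005)) p12_20_0 (nat_lit 3) (nat_lit 202) (nat_lit 203) = true := by decide +kernel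
def p12_20_0_203 : pfC (piC [(nat_lit 35404596), (nat_lit 22827826), (nat_lit 14696761)] (nat_lit 19951005)) p12_20_0 (nat_lit 3) (nat_lit 203) (nat_lit 204) = true := by decide +kernel
def p12_20_0_204 : pfC (piC [(nat_lit 35404596), (nat_lit 22827826), (nat_lit 14696761)] (nat_lit 19951005)) p12_20_0 (nat_lit 3) (nat_lit 204) (nat_lit 205) = true := by decide +kernel
def p12_20_0_205 : pfC (piC [(nat_lit 35404596), (nat_lit 22827826), (nat_lit 14696761)] (nat_lit 19951005)) p12_20_0 (nat_lit 3) (nat_lit 205) (nat_lit 206) = true := by decide +kernel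
def p12_20_0_206 : pfC (piC [(nat_lit 35404596), (nat_lit 22827826), (nat_lit 14696761)] (nat_lit 19951005)) p12_20_0 (nat_lit 3) (nat_lit 206) (nat_lit 207) = true := by decide +kernel
def p12_20_0_207 : pfC (piC [(nat_lit 35404596), (nat_lit 22827826), (nat_lit 14696761)] (nat_lit 19951005)) p12_20_0 (nat_lit 3) (nat_lit 207) (nat_lit 208) = true := by decide +kernel
def p12_20_0_208 : pfC (piC [(nat_lit 35404596), (nat_lit 22827826), (nat_lit 14696761)] (nat_lit 19951005)) p12_20_0 (nat_lit 3) (nat_lit 208) (nat_lit 209) = true := by decide +kernel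
def p12_20_0_209 : pfC (piC [(nat_lit 35404596), (nat_lit 22827826), (nat_lit 14696761)] (nat_lit 19951005)) p12_20_0 (nat_lit 3) (nat_lit 209) (nat_lit 210) = true := by decide +kernel
def p12_20_0_210 : pfC (piC [(nat_lit 35404596), (nat_lit 22827826), (nat_lit 14696761)] (nat_lit 19951005)) p12_20_0 (nat_lit 3) (nat_lit 210) (nat_lit 211) = true := by decide +kernel
def p12_20_0_211 : pfC (piC [(nat_lit 35404596), (nat_lit 22827826), (nat_lit 14696761)] (nat_lit 19951005)) p12_20_0 (nat_lit 3) (nat_lit 211) (nat_lit 212) = true := by decide +kernel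
def p12_20_0_212 : pfC (piC [(nat_lit 35404596), (nat_lit 22827826), (nat_lit 14696761)] (nat_lit 19951005)) p12_20_0 (nat_lit 3) (nat_lit 212) (nat_lit 213) = true := by decide +kernel
def p12_20_0_213 : pfC (piC [(nat_lit 35404596), (nat_lit 22827826), (nat_lit 14696761)] (nat_lit 19951005)) p12_20_0 (nat_lit 3) (nat_lit 213) (nat_lit 214) = true := by decide +kernel
def p12_20_0_214 : pfC (piC [(nat_lit 35404596), (nat_lit 22827826), (nat_lit 14696761)] (nat_lit 19951005)) p12_20_0 (nat_lit 3) (nat_lit 214) (nat_lit 215) = true := by decide +kernel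
def p12_20_0_215 : pfC (piC [(nat_lit 35404596), (nat_lit 22827826), (nat_lit 14696761)] (nat_lit 19951005)) p12_20_0 (nat_lit 3) (nat_lit 215) (nat_lit 216) = true := by decide +kernel
def p12_20_0_216 : pfC (piC [(nat_lit 35404596), (nat_lit 22827826), (nat_lit 14696761)] (nat_lit 19951005)) p12_20_0 (nat_lit 3) (nat_lit 216) (nat_lit 217) = true := by decide +kernel
def p12_20_0_217 : pfC (piC [(nat_lit 35404596), (nat_lit 22827826), (nat_lit 14696761)] (nat_lit 19951005)) p12_20_0 (nat_lit 3) (nat_lit 217) (nat_lit 218) = true := by decide +kernel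
def p12_20_0_218 : pfC (piC [(nat_lit 35404596), (nat_lit 22827826), (nat_lit 14696761)] (nat_lit 19951005)) p12_20_0 (nat_lit 3) (nat_lit 218) (nat_lit 219) = true := by decide +kernel
def p12_20_0_219 : pfC (piC [(nat_lit 35404596), (nat_lit 22827826), (nat_lit 14696761)] (nat_lit 19951005)) p12_20_0 (nat_lit 3) (nat_lit 219) (nat_lit 220) = true := by decide +kernel
def p12_20_0_220 : pfC (piC [(nat_lit 35404596), (nat_lit 22827826), (nat_lit 14696761)] (nat_lit 19951005)) p12_20_0 (nat_lit 3) (nat_lit 220) (nat_lit 221) = true := by decide +kernel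
def p12_20_0_221 : pfC (piC [(nat_lit 35404596), (nat_lit 22827826), (nat_lit 14696761)] (nat_lit 19951005)) p12_20_0 (nat_lit 3) (nat_lit 221) (nat_lit 222) = true := by decide +kernel
def p12_20_0_222 : pfC (piC [(nat_lit 35404596), (nat_lit 22827826), (nat_lit 14696761)] (nat_lit 19951005)) p12_20_0 (nat_lit 3) (nat_lit 222) (nat_lit 223) = true := by decide +kernel
def p12_20_0_223 : pfC (piC [(nat_lit 35404596), (nat_lit 22827826), (nat_lit 14696761)] (nat_lit 19951005)) p12_20_0 (nat_lit 3) (nat_lit 223) (nat_lit 224) = true := by decide +kernel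
def p12_20_0_224 : pfC (piC [(nat_lit 35404596), (nat_lit 22827826), (nat_lit 14696761)] (nat_lit 19951005)) p12_20_0 (nat_lit 3) (nat_lit 224) (nat_lit 225) = true := by decide +kernel
def p12_20_0_225 : pfC (piC [(nat_lit 35404596), (nat_lit 22827826), (nat_lit 14696761)] (nat_lit 19951005)) p12_20_0 (nat_lit 3) (nat_lit 225) (nat_lit 226) = true := by decide +kernel
def p12_20_0_226 : pfC (piC [(nat_lit 35404596), (nat_lit 22827826), (nat_lit 14696761)] (nat_lit 19951005)) p12_20_0 (nat_lit 3) (nat_lit 226) (nat_lit 227) = true := by decide +kernel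
def p12_20_0_227 : pfC (piC [(nat_lit 35404596), (nat_lit 22827826), (nat_lit 14696761)] (nat_lit 19951005)) p12_20_0 (nat_lit 3) (nat_lit 227) (nat_lit 228) = true := by decide +kernel
def p12_20_0_228 : pfC (piC [(nat_lit 35404596), (nat_lit 22827826), (nat_lit 14696761)] (nat_lit 19951005)) p12_20_0 (nat_lit 3) (nat_lit 228) (nat_lit 229) = true := by decide +kernel
def p12_20_0_229 : pfC (piC [(nat_lit 35404596), (nat_lit 22827826), (nat_lit 14696761)] (nat_lit 19951005)) p12_20_0 (nat_lit 3) (nat_lit 229) (nat_lit 230) = true := by decide +kernel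
def p12_20_0_230 : pfC (piC [(nat_lit 35404596), (nat_lit 22827826), (nat_lit 14696761)] (nat_lit 19951005)) p12_20_0 (nat_lit 3) (nat_lit 230) (nat_lit 231) = true := by decide +kernel
def p12_20_0_231 : pfC (piC [(nat_lit 35404596), (nat_lit 22827826), (nat_lit 14696761)] (nat_lit 19951005)) p12_20_0 (nat_lit 3) (nat_lit 231) (nat_lit 232) = true := by decide +kernel
def p12_20_0_232 : pfC (piC [(nat_lit 35404596), (nat_lit 22827826), (nat_lit 14696761)] (nat_lit 19951005)) p12_20_0 (nat_lit 3) (nat_lit 232) (nat_lit 233) = true := by decide +kernel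
def p12_20_0_233 : pfC (piC [(nat_lit 35404596), (nat_lit 22827826), (nat_lit 14696761)] (nat_lit 19951005)) p12_20_0 (nat_lit 3) (nat_lit 233) (nat_lit 234) = true := by decide +kernel
def p12_20_0_234 : pfC (piC [(nat_lit 35404596), (nat_lit 22827826), (nat_lit 14696761)] (nat_lit 19951005)) p12_20_0 (nat_lit 3) (nat_lit 234) (nat_lit 235) = true := by decide +kernel
def p12_20_0_235 : pfC (piC [(nat_lit 35404596), (nat_lit 22827826), (nat_lit 14696761)] (nat_lit 19951005)) p12_20_0 (nat_lit 3) (nat_lit 235) (nat_lit 236) = true := by decide +kernel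
def p12_20_0_236 : pfC (piC [(nat_lit 35404596), (nat_lit 22827826), (nat_lit 14696761)] (nat_lit 19951005)) p12_20_0 (nat_lit 3) (nat_lit 236) (nat_lit 237) = true := by decide +kernel
def p12_20_0_237 : pfC (piC [(nat_lit 35404596), (nat_lit 22827826), (nat_lit 14696761)] (nat_lit 19951005)) p12_20_0 (nat_lit 3) (nat_lit 237) (nat_lit 238) = true := by decide +kernel
def p12_20_0_238 : pfC (piC [(nat_lit 35404596), (nat_lit 22827826), (nat_lit 14696761)] (nat_lit 19951005)) p12_20_0 (nat_lit 3) (nat_lit 238) (nat_lit 239) = true := by decide +kernel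
def p12_20_0_239 : pfC (piC [(nat_lit 35404596), (nat_lit 22827826), (nat_lit 14696761)] (nat_lit 19951005)) p12_20_0 (nat_lit 3) (nat_lit 239) (nat_lit 240) = true := by decide +kernel
def p12_20_0_240 : pfC (piC [(nat_lit 35404596), (nat_lit 22827826), (nat_lit 14696761)] (nat_lit 19951005)) p12_20_0 (nat_lit 3) (nat_lit 240) (nat_lit 241) = true := by decide +kernel
def p12_20_0_241 : pfC (piC [(nat_lit 35404596), (nat_lit 22827826), (nat_lit 14696761)] (nat_lit 19951005)) p12_20_0 (nat_lit 3) (nat_lit 241) (nat_lit 242) = true := by decide +kernel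
def p12_20_0_242 : pfC (piC [(nat_lit 35404596), (nat_lit 22827826), (nat_lit 14696761)] (nat_lit 19951005)) p12_20_0 (nat_lit 3) (nat_lit 242) (nat_lit 243) = true := by decide +kernel
def p12_20_0_243 : pfC (piC [(nat_lit 35404596), (nat_lit 22827826), (nat_lit 14696761)] (nat_lit 19951005)) p12_20_0 (nat_lit 3) (nat_lit 243) (nat_lit 244) = true := by decide +kernel
def p12_20_0_244 : pfC (piC [(nat_lit 35404596), (nat_lit 22827826), (nat_lit 14696761)] (nat_lit 19951005)) p12_20_0 (nat_lit 3) (nat_lit 244) (nat_lit 245) = true := by decide +kernel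
def p12_20_0_245 : pfC (piC [(nat_lit 35404596), (nat_lit 22827826), (nat_lit 14696761)] (nat_lit 19951005)) p12_20_0 (nat_lit 3) (nat_lit 245) (nat_lit 246) = true := by decide +kernel
def p12_20_0_246 : pfC (piC [(nat_lit 35404596), (nat_lit 22827826), (nat_lit 14696761)] (nat_lit 19951005)) p12_20_0 (nat_lit 3) (nat_lit 246) (nat_lit 247) = true := by decide +kernel
def p12_20_0_247 : pfC (piC [(nat_lit 35404596), (nat_lit 22827826), (nat_lit 14696761)] (nat_lit 19951005)) p12_20_0 (nat_lit 3) (nat_lit 247) (nat_lit 248) = true := by decide +kernel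
def p12_20_0_248 : pfC (piC [(nat_lit 35404596), (nat_lit 22827826), (nat_lit 14696761)] (nat_lit 19951005)) p12_20_0 (nat_lit 3) (nat_lit 248) (nat_lit 249) = true := by decide +kernel
def p12_20_0_249 : pfC (piC [(nat_lit 35404596), (nat_lit 22827826), (nat_lit 14696761)] (nat_lit 19951005)) p12_20_0 (nat_lit 3) (nat_lit 249) (nat_lit 250) = true := by decide +kernel
def p12_20_0_250 : pfC (piC [(nat_lit 35404596), (nat_lit 22827826), (nat_lit 14696761)] (nat_lit 19951005)) p12_20_0 (nat_lit 3) (nat_lit 250) (nat_lit 251) = true := by decide +kernel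
def p12_20_0_251 : pfC (piC [(nat_lit 35404596), (nat_lit 22827826), (nat_lit 14696761)] (nat_lit 19951005)) p12_20_0 (nat_lit 3) (nat_lit 251) (nat_lit 252) = true := by decide +kernel
def p12_20_0_252 : pfC (piC [(nat_lit 35404596), (nat_lit 22827826), (nat_lit 14696761)] (nat_lit 19951005)) p12_20_0 (nat_lit 3) (nat_lit 252) (nat_lit 253) = true := by decide +kernel
def p12_20_0_253 : pfC (piC [(nat_lit 35404596), (nat_lit 22827826), (nat_lit 14696761)] (nat_lit 19951005)) p12_20_0 (nat_lit 3) (nat_lit 253) (nat_lit 254) = true := by decide +kernel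
def p12_20_0_254 : pfC (piC [(nat_lit 35404596), (nat_lit 22827826), (nat_lit 14696761)] (nat_lit 19951005)) p12_20_0 (nat_lit 3) (nat_lit 254) (nat_lit 255) = true := by decide +kernel
def p12_20_0_255 : pfC (piC [(nat_lit 35404596), (nat_lit 22827826), (nat_lit 14696761)] (nat_lit 19951005)) p12_20_0 (nat_lit 3) (nat_lit 255) (nat_lit 256) = true := by decide +kernel
def p12_20_0_256 : pfC (piC [(nat_lit 35404596), (nat_lit 22827826), (nat_lit 14696761)] (nat_lit 19951005)) p12_20_0 (nat_lit 3) (nat_lit 256) (nat_lit 257) = true := by decide +kernel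
def p12_20_0_257 : pfC (piC [(nat_lit 35404596), (nat_lit 22827826), (nat_lit 14696761)] (nat_lit 19951005)) p12_20_0 (nat_lit 3) (nat_lit 257) (nat_lit 258) = true := by decide +kernel
def p12_20_0_258 : pfC (piC [(nat_lit 35404596), (nat_lit 22827826), (nat_lit 14696761)] (nat_lit 19951005)) p12_20_0 (nat_lit 3) (nat_lit 258) (nat_lit 259) = true := by decide +kernel
def p12_20_0_259 : pfC (piC [(nat_lit 35404596), (nat_lit 22827826), (nat_lit 14696761)] (nat_lit 19951005)) p12_20_0 (nat_lit 3) (nat_lit 259) (nat_lit 260) = true := by decide +kernel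
def p12_20_0_260 : pfC (piC [(nat_lit 35404596), (nat_lit 22827826), (nat_lit 14696761)] (nat_lit 19951005)) p12_20_0 (nat_lit 3) (nat_lit 260) (nat_lit 261) = true := by decide +kernel
def p12_20_0_261 : pfC (piC [(nat_lit 35404596), (nat_lit 22827826), (nat_lit 14696761)] (nat_lit 19951005)) p12_20_0 (nat_lit 3) (nat_lit 261) (nat_lit 262) = true := by decide +kernel
def p12_20_0_262 : pfC (piC [(nat_lit 35404596), (nat_lit 22827826), (nat_lit 14696761)] (nat_lit 19951005)) p12_20_0 (nat_lit 3) (nat_lit 262) (nat_lit 263) = true := by decide +kernel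
def p12_20_0_263 : pfC (piC [(nat_lit 35404596), (nat_lit 22827826), (nat_lit 14696761)] (nat_lit 19951005)) p12_20_0 (nat_lit 3) (nat_lit 263) (nat_lit 264) = true := by decide +kernel
def p12_20_0_264 : pfC (piC [(nat_lit 35404596), (nat_lit 22827826), (nat_lit 14696761)] (nat_lit 19951005)) p12_20_0 (nat_lit 3) (nat_lit 264) (nat_lit 265) = true := by decide +kernel
def p12_20_0_265 : pfC (piC [(nat_lit 35404596), (nat_lit 22827826), (nat_lit 14696761)] (nat_lit 19951005)) p12_20_0 (nat_lit 3) (nat_lit 265) (nat_lit 266) = true := by decide +kernel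
def p12_20_0_266 : pfC (piC [(nat_lit 35404596), (nat_lit 22827826), (nat_lit 14696761)] (nat_lit 19951005)) p12_20_0 (nat_lit 3) (nat_lit 266) (nat_lit 267) = true := by decide +kernel
def p12_20_0_267 : pfC (piC [(nat_lit 35404596), (nat_lit 22827826), (nat_lit 14696761)] (nat_lit 19951005)) p12_20_0 (nat_lit 3) (nat_lit 267) (nat_lit 268) = true := by decide +kernel
def p12_20_0_268 : pfC (piC [(nat_lit 35404596), (nat_lit 22827826), (nat_lit 14696761)] (nat_lit 19951005)) p12_20_0 (nat_lit 3) (nat_lit 268) (nat_lit 269) = true := by decide +kernel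
def p12_20_0_269 : pfC (piC [(nat_lit 35404596), (nat_lit 22827826), (nat_lit 14696761)] (nat_lit 19951005)) p12_20_0 (nat_lit 3) (nat_lit 269) (nat_lit 270) = true := by decide +kernel
def p12_20_0_270 : pfC (piC [(nat_lit 35404596), (nat_lit 22827826), (nat_lit 14696761)] (nat_lit 19951005)) p12_20_0 (nat_lit 3) (nat_lit 270) (nat_lit 271) = true := by decide +kernel
def p12_20_0_271 : pfC (piC [(nat_lit 35404596), (nat_lit 22827826), (nat_lit 14696761)] (nat_lit 19951005)) p12_20_0 (nat_lit 3) (nat_lit 271) (nat_lit 272) = true := by decide +kernel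
def p12_20_0_272 : pfC (piC [(nat_lit 35404596), (nat_lit 22827826), (nat_lit 14696761)] (nat_lit 19951005)) p12_20_0 (nat_lit 3) (nat_lit 272) (nat_lit 273) = true := by decide +kernel
def p12_20_0_273 : pfC (piC [(nat_lit 35404596), (nat_lit 22827826), (nat_lit 14696761)] (nat_lit 19951005)) p12_20_0 (nat_lit 3) (nat_lit 273) (nat_lit 274) = true := by decide +kernel
def p12_20_0_274 : pfC (piC [(nat_lit 35404596), (nat_lit 22827826), (nat_lit 14696761)] (nat_lit 19951005)) p12_20_0 (nat_lit 3) (nat_lit 274) (nat_lit 275) = true := by decide +kernel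
def p12_20_0_275 : pfC (piC [(nat_lit 35404596), (nat_lit 22827826), (nat_lit 14696761)] (nat_lit 19951005)) p12_20_0 (nat_lit 3) (nat_lit 275) (nat_lit 276) = true := by decide +kernel
def p12_20_0_276 : pfC (piC [(nat_lit 35404596), (nat_lit 22827826), (nat_lit 14696761)] (nat_lit 19951005)) p12_20_0 (nat_lit 3) (nat_lit 276) (nat_lit 277) = true := by decide +kernel
def p12_20_0_277 : pfC (piC [(nat_lit 35404596), (nat_lit 22827826), (nat_lit 14696761)] (nat_lit 19951005)) p12_20_0 (nat_lit 3) (nat_lit 277) (nat_lit 278) = true := by decide +kernel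
def p12_20_0_278 : pfC (piC [(nat_lit 35404596), (nat_lit 22827826), (nat_lit 14696761)] (nat_lit 19951005)) p12_20_0 (nat_lit 3) (nat_lit 278) (nat_lit 279) = true := by decide +kernel
def p12_20_0_279 : pfC (piC [(nat_lit 35404596), (nat_lit 22827826), (nat_lit 14696761)] (nat_lit 19951005)) p12_20_0 (nat_lit 3) (nat_lit 279) (nat_lit 280) = true := by decide +kernel
def p12_20_0_280 : pfC (piC [(nat_lit 35404596), (nat_lit 22827826), (nat_lit 14696761)] (nat_lit 19951005)) p12_20_0 (nat_lit 3) (nat_lit 280) (nat_lit 281) = true := by decide +kernel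
def p12_20_0_281 : pfC (piC [(nat_lit 35404596), (nat_lit 22827826), (nat_lit 14696761)] (nat_lit 19951005)) p12_20_0 (nat_lit 3) (nat_lit 281) (nat_lit 282) = true := by decide +kernel
def p12_20_0_282 : pfC (piC [(nat_lit 35404596), (nat_lit 22827826), (nat_lit 14696761)] (nat_lit 19951005)) p12_20_0 (nat_lit 3) (nat_lit 282) (nat_lit 283) = true := by decide +kernel
def p12_20_0_283 : pfC (piC [(nat_lit 35404596), (nat_lit 22827826), (nat_lit 14696761)] (nat_lit 19951005)) p12_20_0 (nat_lit 3) (nat_lit 283) (nat_lit 284) = true := by decide +kernel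
def p12_20_0_284 : pfC (piC [(nat_lit 35404596), (nat_lit 22827826), (nat_lit 14696761)] (nat_lit 19951005)) p12_20_0 (nat_lit 3) (nat_lit 284) (nat_lit 285) = true := by decide +kernel
def p12_20_0_285 : pfC (piC [(nat_lit 35404596), (nat_lit 22827826), (nat_lit 14696761)] (nat_lit 19951005)) p12_20_0 (nat_lit 3) (nat_lit 285) (nat_lit 286) = true := by decide +kernel
def p12_20_0_286 : pfC (piC [(nat_lit 35404596), (nat_lit 22827826), (nat_lit 14696761)] (nat_lit 19951005)) p12_20_0 (nat_lit 3) (nat_lit 286) (nat_lit 287) = true := by decide +kernel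
def p12_20_0_287 : pfC (piC [(nat_lit 35404596), (nat_lit 22827826), (nat_lit 14696761)] (nat_lit 19951005)) p12_20_0 (nat_lit 3) (nat_lit 287) (nat_lit 288) = true := by decide +kernel
def p12_20_0_288 : pfC (piC [(nat_lit 35404596), (nat_lit 22827826), (nat_lit 14696761)] (nat_lit 19951005)) p12_20_0 (nat_lit 3) (nat_lit 288) (nat_lit 289) = true := by decide +kernel
def p12_20_0_289 : pfC (piC [(nat_lit 35404596), (nat_lit 22827826), (nat_lit 14696761)] (nat_lit 19951005)) p12_20_0 (nat_lit 3) (nat_lit 289) (nat_lit 290) = true := by decide +kernel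
def p12_20_0_290 : pfC (piC [(nat_lit 35404596), (nat_lit 22827826), (nat_lit 14696761)] (nat_lit 19951005)) p12_20_0 (nat_lit 3) (nat_lit 290) (nat_lit 291) = true := by decide +kernel
def p12_20_0_291 : pfC (piC [(nat_lit 35404596), (nat_lit 22827826), (nat_lit 14696761)] (nat_lit 19951005)) p12_20_0 (nat_lit 3) (nat_lit 291) (nat_lit 292) = true := by decide +kernel
def p12_20_0_292 : pfC (piC [(nat_lit 35404596), (nat_lit 22827826), (nat_lit 14696761)] (nat_lit 19951005)) p12_20_0 (nat_lit 3) (nat_lit 292) (nat_lit 293) = true := by decide +kernel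
def p12_20_0_293 : pfC (piC [(nat_lit 35404596), (nat_lit 22827826), (nat_lit 14696761)] (nat_lit 19951005)) p12_20_0 (nat_lit 3) (nat_lit 293) (nat_lit 294) = true := by decide +kernel
def p12_20_0_294 : pfC (piC [(nat_lit 35404596), (nat_lit 22827826), (nat_lit 14696761)] (nat_lit 19951005)) p12_20_0 (nat_lit 3) (nat_lit 294) (nat_lit 295) = true := by decide +kernel
def p12_20_0_295 : pfC (piC [(nat_lit 35404596), (nat_lit 22827826), (nat_lit 14696761)] (nat_lit 19951005)) p12_20_0 (nat_lit 3) (nat_lit 295) (nat_lit 296) = true := by decide +kernel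
def p12_20_0_296 : pfC (piC [(nat_lit 35404596), (nat_lit 22827826), (nat_lit 14696761)] (nat_lit 19951005)) p12_20_0 (nat_lit 3) (nat_lit 296) (nat_lit 297) = true := by decide +kernel
def p12_20_0_297 : pfC (piC [(nat_lit 35404596), (nat_lit 22827826), (nat_lit 14696761)] (nat_lit 19951005)) p12_20_0 (nat_lit 3) (nat_lit 297) (nat_lit 298) = true := by decide +kernel
def p12_20_0_298 : pfC (piC [(nat_lit 35404596), (nat_lit 22827826), (nat_lit 14696761)] (nat_lit 19951005)) p12_20_0 (nat_lit 3) (nat_lit 298) (nat_lit 299) = true := by decide +kernel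
def p12_20_0_299 : pfC (piC [(nat_lit 35404596), (nat_lit 22827826), (nat_lit 14696761)] (nat_lit 19951005)) p12_20_0 (nat_lit 3) (nat_lit 299) (nat_lit 300) = true := by decide +kernel
def p12_20_0_300 : pfC (piC [(nat_lit 35404596), (nat_lit 22827826), (nat_lit 14696761)] (nat_lit 19951005)) p12_20_0 (nat_lit 3) (nat_lit 300) (nat_lit 301) = true := by decide +kernel
def p12_20_0_301 : pfC (piC [(nat_lit 35404596), (nat_lit 22827826), (nat_lit 14696761)] (nat_lit 19951005)) p12_20_0 (nat_lit 3) (nat_lit 301) (nat_lit 302) = true := by decide +kernel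
def p12_20_0_302 : pfC (piC [(nat_lit 35404596), (nat_lit 22827826), (nat_lit 14696761)] (nat_lit 19951005)) p12_20_0 (nat_lit 3) (nat_lit 302) (nat_lit 303) = true := by decide +kernel
theorem p12_20_0_T : PfS (PiF n12_20.reverse (nat_lit 19951005)) p12_20_0 (nat_lit 3) [] 0 :=
  pftab_of (los := [(nat_lit 35404596), (nat_lit 22827826), (nat_lit 14696761)]) (by decide +kernel) (hi := (nat_lit 303)) (PfP.trans (PfP.trans (PfP.trans (PfP.trans (PfP.trans (PfP.trans (PfP.trans (PfP.trans (PfP.trans (PfP.trans (PfP.trans (PfP.trans (PfP.trans (PfP.trans (PfP.trans (PfP.trans (PfP.trans (PfP.trans (PfP.trans (PfP.trans (PfP.trans (PfP.trans (PfP.trans (PfP.trans (PfP.trans (PfP.trans (PfP.trans (PfP.trans (PfP.trans (PfP.trans (PfP.trans (PfP.trans (PfP.trans (PfP.trans (PfP.trans (PfP.trans (PfP.trans (PfP.trans (PfP.trans (PfP.trans (PfP.trans (PfP.trans (PfP.trans (PfP.trans (PfP.trans (PfP.trans (PfP.trans (PfP.trans (PfP.trans (PfP.trans (PfP.trans (PfP.trans (PfP.trans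 (PfP.trans (PfP.trans (PfP.trans (PfP.trans (PfP.trans (PfP.trans (PfP.trans (PfP.trans (PfP.trans (PfP.trans (PfP.trans (PfP.trans (PfP.trans (PfP.trans (PfP.trans (PfP.trans (PfP.trans (PfP.trans (PfP.trans (PfP.trans (PfP.trans (PfP.trans (PfP.trans (PfP.trans (PfP.trans (PfP.trans (PfP.trans (PfP.trans (PfP.trans (PfP.trans (PfP.trans (PfP.trans (PfP.trans (PfP.trans (PfP.trans (PfP.trans (PfP.trans (PfP.trans (PfP.trans (PfP.trans (PfP.trans (PfP.trans (PfP.trans (PfP.trans (PfP.trans (PfP.trans (PfP.trans (PfP.trans (PfP.trans (PfP.trans (PfP.trans (PfP.trans (PfP.trans (PfP.trans (PfP.trans (PfP.trans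
 (PfP.trans (PfP.trans (PfP.trans (PfP.trans (PfP.trans (PfP.trans (PfP.trans (PfP.trans (PfP.trans (PfP.trans (PfP.trans (PfP.trans (PfP.trans (PfP.trans (PfP.trans (PfP.trans (PfP.trans (PfP.trans (PfP.trans (PfP.trans (PfP.trans (PfP.trans (PfP.trans (PfP.trans (PfP.trans (PfP.trans (PfP.trans (PfP.trans (PfP.trans (PfP.trans (PfP.trans (PfP.trans (PfP.trans (PfP.trans (PfP.trans (PfP.trans (PfP.trans (PfP.trans (PfP.trans (PfP.trans (PfP.trans (PfP.trans (PfP.trans (PfP.trans (PfP.trans (PfP.trans (PfP.trans (PfP.trans (PfP.trans (PfP.trans (PfP.trans (PfP.trans (PfP.trans (PfP.trans (PfP.trans (PfP.trans (PfP.trans (PfP.trans (PfP.trans (PfP.trans (PfP.trans (PfP.trans (PfP.trans (PfP.trans (PfP.trans (PfP.trans (PfP.trans (PfP.trans (PfP.trans (PfP.trans (PfP.trans (PfP.trans (PfP.trans (PfP.trans (PfP.trans (PfP.trans (PfP.trans (PfP.trans (PfP.trans (PfP.trans (PfP.trans (PfP.trans (PfP.trans (PfP.trans (PfP.trans (PfP.trans (PfP.trans (PfP.trans (PfP.trans (PfP.trans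 (PfP.trans (PfP.trans (PfP.trans (PfP.trans (PfP.trans (PfP.trans (PfP.trans (PfP.trans (PfP.trans (PfP.trans (PfP.trans (PfP.trans (PfP.trans (PfP.trans (PfP.trans (PfP.trans (PfP.trans (PfP.trans (PfP.trans
 (PfP.trans (PfP.trans (PfP.trans (PfP.trans (PfP.trans (PfP.trans (PfP.trans (PfP.trans (PfP.trans (PfP.trans (PfP.trans (PfP.trans (PfP.trans (PfP.trans (PfP.trans (PfP.trans (PfP.trans (PfP.trans (PfP.trans (PfP.trans (PfP.trans (PfP.trans (PfP.trans (PfP.trans (PfP.trans (PfP.trans (PfP.trans (PfP.trans (PfP.trans (PfP.trans (PfP.trans (PfP.trans (PfP.trans (PfP.trans (PfP.trans (PfP.trans (PfP.trans (PfP.trans (PfP.trans (PfP.trans (PfP.trans (PfP.trans (PfP.trans (PfP.trans (PfP.trans (PfP.trans (PfP.trans (PfP.trans (PfP.trans (PfP.trans (PfP.trans (PfP.trans (PfP.trans (PfP.trans (PfP.trans (PfP.trans (PfP.trans (PfP.trans (PfP.trans (PfP.trans (PfP.trans (PfP.trans (PfP.trans (PfP.trans (PfP.trans (PfP.trans (PfP.trans (PfP.trans (PfP.trans (PfP.trans (PfP.trans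 (PfP.trans (PfP.trans (PfP.trans (PfP.trans (PfP.trans (PfP.trans (PfP.trans (PfP.trans (PfP.trans (PfP.trans (PfP.trans (PfP.trans (PfP.trans (pfC_sound p12_20_0_0) (pfC_sound p12_20_0_1)) (pfC_sound p12_20_0_2)) (pfC_sound p12_20_0_3)) (pfC_sound p12_20_0_4)) (pfC_sound p12_20_0_5)) (pfC_sound p12_20_0_6)) (pfC_sound p12_20_0_7)) (pfC_sound p12_20_0_8)) (pfC_sound p12_20_0_9)) (pfC_sound p12_20_0_10)) (pfC_sound
 p12_20_0_11)) (pfC_sound p12_20_0_12)) (pfC_sound p12_20_0_13)) (pfC_sound p12_20_0_14)) (pfC_sound p12_20_0_15)) (pfC_sound p12_20_0_16)) (pfC_sound p12_20_0_17)) (pfC_sound p12_20_0_18)) (pfC_sound p12_20_0_19)) (pfC_sound p12_20_0_20)) (pfC_sound p12_20_0_21)) (pfC_sound p12_20_0_22)) (pfC_sound p12_20_0_23)) (pfC_sound p12_20_0_24)) (pfC_sound p12_20_0_25)) (pfC_sound p12_20_0_26)) (pfC_sound p12_20_0_27)) (pfC_sound p12_20_0_28)) (pfC_sound p12_20_0_29)) (pfC_sound p12_20_0_30)) (pfC_sound p12_20_0_31)) (pfC_sound p12_20_0_32)) (pfC_sound p12_20_0_33))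 (pfC_sound p12_20_0_34)) (pfC_sound p12_20_0_35)) (pfC_sound p12_20_0_36)) (pfC_sound p12_20_0_37)) (pfC_sound p12_20_0_38)) (pfC_sound p12_20_0_39)) (pfC_sound p12_20_0_40)) (pfC_sound p12_20_0_41)) (pfC_sound p12_20_0_42)) (pfC_sound p12_20_0_43)) (pfC_sound p12_20_0_44)) (pfC_sound p12_20_0_45)) (pfC_sound p12_20_0_46)) (pfC_sound p12_20_0_47)) (pfC_sound p12_20_0_48)) (pfC_sound p12_20_0_49)) (pfC_sound p12_20_0_50)) (pfC_sound p12_20_0_51)) (pfC_sound p12_20_0_52)) (pfC_sound p12_20_0_53)) (pfC_sound p12_20_0_54)) (pfC_sound p12_20_0_55)) (pfC_sound p12_20_0_56)) (pfC_sound p12_20_0_57)) (pfC_sound p12_20_0_58)) (pfC_sound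
 p12_20_0_59)) (pfC_sound p12_20_0_60)) (pfC_sound p12_20_0_61)) (pfC_sound p12_20_0_62)) (pfC_sound p12_20_0_63)) (pfC_sound p12_20_0_64)) (pfC_sound p12_20_0_65)) (pfC_sound p12_20_0_66)) (pfC_sound p12_20_0_67)) (pfC_sound p12_20_0_68)) (pfC_sound p12_20_0_69)) (pfC_sound p12_20_0_70)) (pfC_sound p12_20_0_71)) (pfC_sound p12_20_0_72)) (pfC_sound p12_20_0_73)) (pfC_sound p12_20_0_74)) (pfC_sound p12_20_0_75)) (pfC_sound p12_20_0_76)) (pfC_sound p12_20_0_77)) (pfC_sound p12_20_0_78)) (pfC_sound p12_20_0_79)) (pfC_sound p12_20_0_80)) (pfC_sound p12_20_0_81)) (pfC_sound p12_20_0_82)) (pfC_sound p12_20_0_83)) (pfC_sound p12_20_0_84)) (pfC_sound p12_20_0_85)) (pfC_sound p12_20_0_86)) (pfC_sound p12_20_0_87)) (pfC_sound p12_20_0_88)) (pfC_sound p12_20_0_89)) (pfC_sound p12_20_0_90)) (pfC_sound p12_20_0_91)) (pfC_sound p12_20_0_92)) (pfC_sound p12_20_0_93)) (pfC_sound p12_20_0_94)) (pfC_sound p12_20_0_95)) (pfC_sound p12_20_0_96)) (pfC_sound p12_20_0_97)) (pfC_sound p12_20_0_98))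 (pfC_sound p12_20_0_99)) (pfC_sound p12_20_0_100)) (pfC_sound p12_20_0_101)) (pfC_sound p12_20_0_102)) (pfC_sound p12_20_0_103)) (pfC_sound p12_20_0_104)) (pfC_sound p12_20_0_105)) (pfC_sound p12_20_0_106))
 (pfC_sound p12_20_0_107)) (pfC_sound p12_20_0_108)) (pfC_sound p12_20_0_109)) (pfC_sound p12_20_0_110)) (pfC_sound p12_20_0_111)) (pfC_sound p12_20_0_112)) (pfC_sound p12_20_0_113)) (pfC_sound p12_20_0_114)) (pfC_sound p12_20_0_115)) (pfC_sound p12_20_0_116)) (pfC_sound p12_20_0_117)) (pfC_sound p12_20_0_118)) (pfC_sound p12_20_0_119)) (pfC_sound p12_20_0_120)) (pfC_sound p12_20_0_121)) (pfC_sound p12_20_0_122)) (pfC_sound p12_20_0_123)) (pfC_sound p12_20_0_124)) (pfC_sound p12_20_0_125)) (pfC_sound p12_20_0_126)) (pfC_sound p12_20_0_127)) (pfC_sound p12_20_0_128)) (pfC_sound p12_20_0_129)) (pfC_sound p12_20_0_130)) (pfC_sound p12_20_0_131)) (pfC_sound p12_20_0_132)) (pfC_sound p12_20_0_133)) (pfC_sound p12_20_0_134)) (pfC_sound p12_20_0_135)) (pfC_sound p12_20_0_136))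 (pfC_sound p12_20_0_137)) (pfC_sound p12_20_0_138)) (pfC_sound p12_20_0_139)) (pfC_sound p12_20_0_140)) (pfC_sound p12_20_0_141)) (pfC_sound p12_20_0_142)) (pfC_sound p12_20_0_143)) (pfC_sound p12_20_0_144)) (pfC_sound p12_20_0_145)) (pfC_sound p12_20_0_146)) (pfC_sound p12_20_0_147)) (pfC_sound p12_20_0_148)) (pfC_sound p12_20_0_149)) (pfC_sound p12_20_0_150)) (pfC_sound p12_20_0_151)) (pfC_sound p12_20_0_152))
 (pfC_sound p12_20_0_153)) (pfC_sound p12_20_0_154)) (pfC_sound p12_20_0_155)) (pfC_sound p12_20_0_156)) (pfC_sound p12_20_0_157)) (pfC_sound p12_20_0_158)) (pfC_sound p12_20_0_159)) (pfC_sound p12_20_0_160)) (pfC_sound p12_20_0_161)) (pfC_sound p12_20_0_162)) (pfC_sound p12_20_0_163)) (pfC_sound p12_20_0_164)) (pfC_sound p12_20_0_165)) (pfC_sound p12_20_0_166)) (pfC_sound p12_20_0_167)) (pfC_sound p12_20_0_168)) (pfC_sound p12_20_0_169)) (pfC_sound p12_20_0_170)) (pfC_sound p12_20_0_171)) (pfC_sound p12_20_0_172)) (pfC_sound p12_20_0_173)) (pfC_sound p12_20_0_174))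 (pfC_sound p12_20_0_175)) (pfC_sound p12_20_0_176)) (pfC_sound p12_20_0_177)) (pfC_sound p12_20_0_178)) (pfC_sound p12_20_0_179)) (pfC_sound p12_20_0_180)) (pfC_sound p12_20_0_181)) (pfC_sound p12_20_0_182)) (pfC_sound p12_20_0_183)) (pfC_sound p12_20_0_184)) (pfC_sound p12_20_0_185)) (pfC_sound p12_20_0_186)) (pfC_sound p12_20_0_187)) (pfC_sound p12_20_0_188)) (pfC_sound p12_20_0_189)) (pfC_sound p12_20_0_190)) (pfC_sound p12_20_0_191)) (pfC_sound p12_20_0_192)) (pfC_sound p12_20_0_193)) (pfC_sound p12_20_0_194)) (pfC_sound p12_20_0_195)) (pfC_sound p12_20_0_196)) (pfC_sound p12_20_0_197)) (pfC_sound p12_20_0_198))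
 (pfC_sound p12_20_0_199)) (pfC_sound p12_20_0_200)) (pfC_sound p12_20_0_201)) (pfC_sound p12_20_0_202)) (pfC_sound p12_20_0_203)) (pfC_sound p12_20_0_204)) (pfC_sound p12_20_0_205)) (pfC_sound p12_20_0_206)) (pfC_sound p12_20_0_207)) (pfC_sound p12_20_0_208)) (pfC_sound p12_20_0_209)) (pfC_sound p12_20_0_210)) (pfC_sound p12_20_0_211)) (pfC_sound p12_20_0_212)) (pfC_sound p12_20_0_213)) (pfC_sound p12_20_0_214)) (pfC_sound p12_20_0_215)) (pfC_sound p12_20_0_216)) (pfC_sound p12_20_0_217)) (pfC_sound p12_20_0_218)) (pfC_sound p12_20_0_219)) (pfC_sound p12_20_0_220)) (pfC_sound p12_20_0_221)) (pfC_sound p12_20_0_222)) (pfC_sound p12_20_0_223)) (pfC_sound p12_20_0_224)) (pfC_sound p12_20_0_225)) (pfC_sound p12_20_0_226)) (pfC_sound p12_20_0_227)) (pfC_sound p12_20_0_228)) (pfC_sound p12_20_0_229)) (pfC_sound p12_20_0_230)) (pfC_sound p12_20_0_231)) (pfC_sound p12_20_0_232)) (pfC_sound p12_20_0_233)) (pfC_sound p12_20_0_234)) (pfC_sound p12_20_0_235)) (pfC_sound p12_20_0_236))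 (pfC_sound p12_20_0_237)) (pfC_sound p12_20_0_238)) (pfC_sound p12_20_0_239)) (pfC_sound p12_20_0_240)) (pfC_sound p12_20_0_241)) (pfC_sound p12_20_0_242)) (pfC_sound p12_20_0_243)) (pfC_sound p12_20_0_244))
 (pfC_sound p12_20_0_245)) (pfC_sound p12_20_0_246)) (pfC_sound p12_20_0_247)) (pfC_sound p12_20_0_248)) (pfC_sound p12_20_0_249)) (pfC_sound p12_20_0_250)) (pfC_sound p12_20_0_251)) (pfC_sound p12_20_0_252)) (pfC_sound p12_20_0_253)) (pfC_sound p12_20_0_254)) (pfC_sound p12_20_0_255)) (pfC_sound p12_20_0_256)) (pfC_sound p12_20_0_257)) (pfC_sound p12_20_0_258)) (pfC_sound p12_20_0_259)) (pfC_sound p12_20_0_260)) (pfC_sound p12_20_0_261)) (pfC_sound p12_20_0_262)) (pfC_sound p12_20_0_263)) (pfC_sound p12_20_0_264)) (pfC_sound p12_20_0_265)) (pfC_sound p12_20_0_266)) (pfC_sound p12_20_0_267)) (pfC_sound p12_20_0_268)) (pfC_sound p12_20_0_269)) (pfC_sound p12_20_0_270)) (pfC_sound p12_20_0_271)) (pfC_sound p12_20_0_272)) (pfC_sound p12_20_0_273)) (pfC_sound p12_20_0_274))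 (pfC_sound p12_20_0_275)) (pfC_sound p12_20_0_276)) (pfC_sound p12_20_0_277)) (pfC_sound p12_20_0_278)) (pfC_sound p12_20_0_279)) (pfC_sound p12_20_0_280)) (pfC_sound p12_20_0_281)) (pfC_sound p12_20_0_282)) (pfC_sound p12_20_0_283)) (pfC_sound p12_20_0_284)) (pfC_sound p12_20_0_285)) (pfC_sound p12_20_0_286)) (pfC_sound p12_20_0_287)) (pfC_sound p12_20_0_288)) (pfC_sound p12_20_0_289)) (pfC_sound p12_20_0_290))
 (pfC_sound p12_20_0_291)) (pfC_sound p12_20_0_292)) (pfC_sound p12_20_0_293)) (pfC_sound p12_20_0_294)) (pfC_sound p12_20_0_295)) (pfC_sound p12_20_0_296)) (pfC_sound p12_20_0_297)) (pfC_sound p12_20_0_298)) (pfC_sound p12_20_0_299)) (pfC_sound p12_20_0_300)) (pfC_sound p12_20_0_301)) (pfC_sound p12_20_0_302)) (by decide +kernel)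

def z12_20_0 : zOK yB12_20 (nat_lit 0) (nat_lit 0) (nat_lit 400) (nat_lit 19951005) (nat_lit 11809077) = true := by decide +kernel
def g12_20_0 : gOK yB12_20.x P12_20 (nat_lit 1367) (q12_20 :: r12_20) (nat_lit 0) (nat_lit 0) (nat_lit 1) (nat_lit 400) (nat_lit 0) (nat_lit 11000000) (nat_lit 12712500) (nat_lit 12712500) [(nat_lit 800), (nat_lit 1600)] = true := by decide +kernel
def v12_20_0 : ivC P12_20 s12_20 w12_20 n12_20 (nat_lit 3) (nat_lit 5260) (nat_lit 0) (nat_lit 0) f184_0_0 f192_0_0 (nat_lit 1) (nat_lit 400) f184_0_400 f192_0_400 (nat_lit 19951005) (nat_lit 11809077) p12_20_0 = true := by decide +kernel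
def p12_20_1 : PF := (PF.cons (PF.cons (PF.cons (PF.leaf (nat_lit 1869290) (nat_lit 8288540) (nat_lit 58820272) (nat_lit 8288540) [(nat_lit 0), (nat_lit 0), (nat_lit 0)]) (PF.cons (PF.leaf (nat_lit 2113973) (nat_lit 445725) (nat_lit 58322085) (nat_lit 8341002) [(nat_lit 445725), (nat_lit 0), (nat_lit 0)]) (PF.cons (PF.leaf (nat_lit 2402309) (nat_lit 485754) (nat_lit 57741106) (nat_lit 8396198) [(nat_lit 485754), (nat_lit 0), (nat_lit 0)]) (PF.cons (PF.leaf (nat_lit 2726232) (nat_lit 521349) (nat_lit 57094069) (nat_lit 8450693) [(nat_lit 521349), (nat_lit 0), (nat_lit 0)]) (PF.cons (PF.leaf (nat_lit 3080295) (nat_lit 553379) (nat_lit 56393237) (nat_lit 8502058) [(nat_lit 553379), (nat_lit 0), (nat_lit 0)]) (PF.cons (PF.leaf (nat_lit 3460102) (nat_lit 582375) (nat_lit 55648370) (nat_lit 8548564) [(nat_lit 582375), (nat_lit 0), (nat_lit 0)]) (PF.cons (PF.leaf (nat_lit 3861943) (nat_lit 608696) (nat_lit 54867631) (nat_lit 8589002) [(nat_lit 608696), (nat_lit 0), (nat_lit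 0)]) (PF.cons (PF.leaf (nat_lit 4282538) (nat_lit 632600) (nat_lit 54058044) (nat_lit 8622566) [(nat_lit 632600), (nat_lit 0), (nat_lit 0)]) (PF.cons (PF.leaf (nat_lit 4718961) (nat_lit 654286) (nat_lit 53225757) (nat_lit 8648765)
 [(nat_lit 654286), (nat_lit 0), (nat_lit 0)]) (PF.cons (PF.leaf (nat_lit 5168586) (nat_lit 673917) (nat_lit 52376200) (nat_lit 8667354) [(nat_lit 673917), (nat_lit 0), (nat_lit 0)]) (PF.cons (PF.leaf (nat_lit 5628995) (nat_lit 691634) (nat_lit 51514191) (nat_lit 8678280) [(nat_lit 691634), (nat_lit 0), (nat_lit 0)]) (PF.cons (PF.leaf (nat_lit 6097998) (nat_lit 707560) (nat_lit 50644001) (nat_lit 8681641) [(nat_lit 707560), (nat_lit 0), (nat_lit 0)]) (PF.cons (PF.leaf (nat_lit 6573617) (nat_lit 721812) (nat_lit 49769419) (nat_lit 8677647) [(nat_lit 721812), (nat_lit 0), (nat_lit 0)]) (PF.cons (PF.leaf (nat_lit 7054071) (nat_lit 734494) (nat_lit 48893787) (nat_lit 8666591) [(nat_lit 734494), (nat_lit 0), (nat_lit 0)]) (PF.cons (PF.leaf (nat_lit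 7537717) (nat_lit 745710) (nat_lit 48020045) (nat_lit 8648827) [(nat_lit 745710), (nat_lit 0), (nat_lit 0)]) (PF.cons PF.nil (PF.cons PF.nil (PF.cons PF.nil PF.nil)))))))))))))))))) (PF.cons (PF.cons (PF.leaf (nat_lit 2709741) (nat_lit 2153324) (nat_lit 56479396) (nat_lit 8476092) [(nat_lit 0), (nat_lit 2153324), (nat_lit 0)]) (PF.cons (PF.leaf (nat_lit 3024837) (nat_lit 541292) (nat_lit 55843175) (nat_lit 8517575) [(nat_lit 541292), (nat_lit
 2206769), (nat_lit 0)]) (PF.cons (PF.leaf (nat_lit 3371820) (nat_lit 571577) (nat_lit 55151237) (nat_lit 8556168) [(nat_lit 571577), (nat_lit 2258252), (nat_lit 0)]) (PF.cons (PF.leaf (nat_lit 3744974) (nat_lit 598788) (nat_lit 54415466) (nat_lit 8590218) [(nat_lit 598788), (nat_lit 2306760), (nat_lit 0)]) (PF.cons (PF.leaf (nat_lit 4140063) (nat_lit 623350) (nat_lit 53645038) (nat_lit 8618621) [(nat_lit 623350), (nat_lit 2351751), (nat_lit 0)]) (PF.cons (PF.leaf (nat_lit 4553567) (nat_lit 645551) (nat_lit 52847439) (nat_lit 8640666)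 [(nat_lit 645551), (nat_lit 2392947), (nat_lit 0)]) (PF.cons (PF.leaf (nat_lit 4982457) (nat_lit 665608) (nat_lit 52028987) (nat_lit 8655942) [(nat_lit 665608), (nat_lit 2430234), (nat_lit 0)]) (PF.cons (PF.leaf (nat_lit 5424036) (nat_lit 683691) (nat_lit 51195110) (nat_lit 8664258) [(nat_lit 683691), (nat_lit 2463605), (nat_lit 0)]) (PF.cons (PF.leaf (nat_lit 5875918) (nat_lit 699946) (nat_lit 50350523) (nat_lit 8665601) [(nat_lit 699946), (nat_lit 2493120), (nat_lit 0)]) (PF.cons (PF.leaf (nat_lit 6335953) (nat_lit 714499) (nat_lit 49499347) (nat_lit 8660084) [(nat_lit 714499), (nat_lit 2518889), (nat_lit 0)]) (PF.cons (PF.leaf (nat_lit 6802220)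
 (nat_lit 727465) (nat_lit 48645183) (nat_lit 8647924) [(nat_lit 727465), (nat_lit 2541054), (nat_lit 0)]) (PF.cons (PF.leaf (nat_lit 7272990) (nat_lit 738949) (nat_lit 47791176) (nat_lit 8629406) [(nat_lit 738949), (nat_lit 2559780), (nat_lit 0)]) (PF.cons (PF.leaf (nat_lit 7746716) (nat_lit 749052) (nat_lit 46940069) (nat_lit 8604867) [(nat_lit 749052), (nat_lit 2575243), (nat_lit 0)]) (PF.cons PF.nil (PF.cons PF.nil (PF.cons PF.nil PF.nil)))))))))))))))) (PF.cons (PF.cons (PF.leaf (nat_lit 3662746) (nat_lit 2309661) (nat_lit 53897380) (nat_lit 8592108) [(nat_lit 0), (nat_lit 2309661), (nat_lit 0)]) (PF.cons (PF.leaf (nat_lit 4026099) (nat_lit 612069) (nat_lit 53179707) (nat_lit 8614882) [(nat_lit 612069), (nat_lit 2351076), (nat_lit 0)]) (PF.cons (PF.leaf (nat_lit 4412417) (nat_lit 635255) (nat_lit 52426518) (nat_lit 8632485) [(nat_lit 635255), (nat_lit 2389649), (nat_lit 0)]) (PF.cons (PF.leaf (nat_lit 4817374) (nat_lit 656060) (nat_lit 51646398) (nat_lit 8644261)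 [(nat_lit 656060), (nat_lit 2424986), (nat_lit 0)]) (PF.cons (PF.leaf (nat_lit 5237656) (nat_lit 674741) (nat_lit 50846194) (nat_lit 8649848) [(nat_lit 674741), (nat_lit 2456901), (nat_lit 0)]) (PF.cons (PF.leaf
 (nat_lit 5670441) (nat_lit 691495) (nat_lit 50031564) (nat_lit 8649093) [(nat_lit 691495), (nat_lit 2485337), (nat_lit 0)]) (PF.cons (PF.leaf (nat_lit 6113283) (nat_lit 706481) (nat_lit 49207283) (nat_lit 8642005) [(nat_lit 706481), (nat_lit 2510318), (nat_lit 0)]) (PF.cons (PF.leaf (nat_lit 6564023) (nat_lit 719832) (nat_lit 48377428) (nat_lit 8628709) [(nat_lit 719832), (nat_lit 2531924), (nat_lit 0)]) (PF.cons (PF.leaf (nat_lit 7020774) (nat_lit 731667) (nat_lit 47545504) (nat_lit 8609419) [(nat_lit 731667), (nat_lit 2550273), (nat_lit 0)]) (PF.cons (PF.leaf (nat_lit 7481825) (nat_lit 742095) (nat_lit 46714533) (nat_lit 8584410) [(nat_lit 742095), (nat_lit 2565506), (nat_lit 0)]) (PF.cons (PF.leaf (nat_lit 7945668) (nat_lit 751213) (nat_lit 45887113) (nat_lit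 8554002) [(nat_lit 751213), (nat_lit 2577779), (nat_lit 0)]) (PF.cons (PF.leaf (nat_lit 8410977) (nat_lit 759115) (nat_lit 45065479) (nat_lit 8518541) [(nat_lit 759115), (nat_lit 2587261), (nat_lit 0)]) (PF.cons PF.nil (PF.cons PF.nil PF.nil)))))))))))))) (PF.cons (PF.cons (PF.leaf (nat_lit 4680885) (nat_lit 2420832) (nat_lit 51214237) (nat_lit 8632077) [(nat_lit 0), (nat_lit 2420832), (nat_lit 0)]) (PF.cons (PF.leaf
 (nat_lit 5075327) (nat_lit 664288) (nat_lit 50457041) (nat_lit 8634806) [(nat_lit 664288), (nat_lit 2450891), (nat_lit 0)]) (PF.cons (PF.leaf (nat_lit 5485782) (nat_lit 681849) (nat_lit 49679280) (nat_lit 8631886) [(nat_lit 681849), (nat_lit 2477982), (nat_lit 0)]) (PF.cons (PF.leaf (nat_lit 5908921) (nat_lit 697487) (nat_lit 48887173) (nat_lit 8623193) [(nat_lit 697487), (nat_lit 2501993), (nat_lit 0)]) (PF.cons (PF.leaf (nat_lit 6342146) (nat_lit 711388) (nat_lit 48085762) (nat_lit 8608751) [(nat_lit 711388), (nat_lit 2522915), (nat_lit 0)]) (PF.cons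 (PF.leaf (nat_lit 6783241) (nat_lit 723700) (nat_lit 47279227) (nat_lit 8588690) [(nat_lit 723700), (nat_lit 2540798), (nat_lit 0)]) (PF.cons (PF.leaf (nat_lit 7230259) (nat_lit 734550) (nat_lit 46471078) (nat_lit 8563221) [(nat_lit 734550), (nat_lit 2555736), (nat_lit 0)]) (PF.cons (PF.leaf (nat_lit 7681514) (nat_lit 744051) (nat_lit 45664286) (nat_lit 8532607) [(nat_lit 744051), (nat_lit 2567851), (nat_lit 0)]) (PF.cons (PF.leaf (nat_lit 8135527) (nat_lit 752305) (nat_lit 44861373) (nat_lit 8497150) [(nat_lit 752305), (nat_lit 2577281), (nat_lit 0)]) (PF.cons (PF.leaf (nat_lit 8590985) (nat_lit 759403) (nat_lit 44064478) (nat_lit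
 8457176) [(nat_lit 759403), (nat_lit 2584175), (nat_lit 0)]) (PF.cons PF.nil (PF.cons PF.nil PF.nil)))))))))))) (PF.cons (PF.cons (PF.leaf (nat_lit 5728395) (nat_lit 2494076) (nat_lit 48529208) (nat_lit 8603297) [(nat_lit 0), (nat_lit 2494076), (nat_lit 0)]) (PF.cons (PF.leaf (nat_lit 6140681) (nat_lit 701789) (nat_lit 47762809) (nat_lit 8587741) [(nat_lit 701789), (nat_lit 2514117), (nat_lit 0)]) (PF.cons (PF.leaf (nat_lit 6563613) (nat_lit 714788) (nat_lit 46986665) (nat_lit 8566952) [(nat_lit 714788), (nat_lit 2531404), (nat_lit 0)]) (PF.cons (PF.leaf (nat_lit 6994610) (nat_lit 726220) (nat_lit 46205247) (nat_lit 8541067) [(nat_lit 726220), (nat_lit 2545959), (nat_lit 0)]) (PF.cons (PF.leaf (nat_lit 7431651) (nat_lit 736225) (nat_lit 45422200) (nat_lit 8510294) [(nat_lit 736225), (nat_lit 2557854), (nat_lit 0)]) (PF.cons (PF.leaf (nat_lit 7873012) (nat_lit 744925) (nat_lit 44640537) (nat_lit 8474885) [(nat_lit 744925), (nat_lit 2567191), (nat_lit 0)]) (PF.cons (PF.leaf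 (nat_lit 8317193) (nat_lit 752425) (nat_lit 43862771) (nat_lit 8435127) [(nat_lit 752425), (nat_lit 2574090), (nat_lit 0)]) (PF.cons (PF.leaf (nat_lit 8762892) (nat_lit 758821) (nat_lit 43091001) (nat_lit
 8391325) [(nat_lit 758821), (nat_lit 2578684), (nat_lit 0)]) (PF.cons PF.nil (PF.cons PF.nil PF.nil)))))))))) (PF.cons (PF.cons (PF.leaf (nat_lit 6779021) (nat_lit 2536221) (nat_lit 45910119) (nat_lit 8517584) [(nat_lit 0), (nat_lit 2536221), (nat_lit 0)]) (PF.cons (PF.leaf (nat_lit 7199199) (nat_lit 727487) (nat_lit 45155535) (nat_lit 8486754) [(nat_lit 727487), (nat_lit 2547807), (nat_lit 0)]) (PF.cons (PF.leaf (nat_lit 7625935) (nat_lit 736784) (nat_lit 44398803) (nat_lit 8451484) [(nat_lit 736784), (nat_lit 2556990), (nat_lit 0)]) (PF.cons (PF.leaf (nat_lit 8057230) (nat_lit 744803) (nat_lit 43643096) (nat_lit 8412024) [(nat_lit 744803), (nat_lit 2563856), (nat_lit 0)]) (PF.cons (PF.leaf (nat_lit 8491539) (nat_lit 751658) (nat_lit 42890994) (nat_lit 8368646) [(nat_lit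 751658), (nat_lit 2568507), (nat_lit 0)]) (PF.cons (PF.leaf (nat_lit 8927524) (nat_lit 757447) (nat_lit 42144620) (nat_lit 8321639) [(nat_lit 757447), (nat_lit 2571063), (nat_lit 0)]) (PF.cons (PF.leaf (nat_lit 9364032) (nat_lit 762259) (nat_lit 41405718) (nat_lit 8271297) [(nat_lit 762259), (nat_lit 2571648), (nat_lit 0)]) (PF.cons PF.nil PF.nil)))))))) (PF.cons (PF.cons (PF.leaf (nat_lit 7814289) (nat_lit
 2553467) (nat_lit 43400479) (nat_lit 8387530) [(nat_lit 0), (nat_lit 2553467), (nat_lit 0)]) (PF.cons (PF.leaf (nat_lit 8235102) (nat_lit 743762) (nat_lit 42671500) (nat_lit 8344705) [(nat_lit 743762), (nat_lit 2558140), (nat_lit 0)]) (PF.cons (PF.leaf (nat_lit 8659422) (nat_lit 750075) (nat_lit 41945517) (nat_lit 8298332) [(nat_lit 750075), (nat_lit 2560802), (nat_lit 0)]) (PF.cons (PF.leaf (nat_lit 9085689) (nat_lit 755349) (nat_lit 41224743) (nat_lit 8248687) [(nat_lit 755349), (nat_lit 2561555), (nat_lit 0)]) (PF.cons (PF.leaf (nat_lit 9512726) (nat_lit 759678)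 (nat_lit 40510968) (nat_lit 8196051) [(nat_lit 759678), (nat_lit 2560512), (nat_lit 0)]) (PF.cons PF.nil PF.nil)))))) (PF.cons (PF.cons (PF.leaf (nat_lit 8821859) (nat_lit 2551210) (nat_lit 41025613) (nat_lit 8224724) [(nat_lit 0), (nat_lit 2551210), (nat_lit 0)]) (PF.cons (PF.leaf (nat_lit 9238184) (nat_lit 752584) (nat_lit 40330624) (nat_lit 8172964) [(nat_lit 752584), (nat_lit 2550377), (nat_lit 0)]) (PF.cons (PF.leaf (nat_lit 9655769) (nat_lit 756510) (nat_lit 39641958) (nat_lit 8118503) [(nat_lit 756510), (nat_lit 2547904), (nat_lit 0)]) (PF.cons PF.nil PF.nil)))) (PF.cons (PF.cons (PF.leaf (nat_lit 9794046)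
 (nat_lit 2533995) (nat_lit 38797808) (nat_lit 8039038) [(nat_lit 0), (nat_lit 2533995), (nat_lit 0)]) (PF.cons (PF.leaf (nat_lit 10202402) (nat_lit 755574) (nat_lit 38141304) (nat_lit 7980981) [(nat_lit 755574), (nat_lit 2528869), (nat_lit 0)]) PF.nil)) (PF.cons PF.nil (PF.cons PF.nil PF.nil))))))))))) (PF.cons (PF.cons (PF.cons (PF.leaf (nat_lit 3655476) (nat_lit 6492642) (nat_lit 52091388) (nat_lit 8524781) [(nat_lit 0), (nat_lit 0), (nat_lit 6492642)]) (PF.cons (PF.leaf (nat_lit 3977606) (nat_lit 579986) (nat_lit 51472408) (nat_lit 8537867) [(nat_lit 579986), (nat_lit 0), (nat_lit 6518550)]) (PF.cons (PF.leaf (nat_lit 4328248) (nat_lit 606698) (nat_lit 50806487) (nat_lit 8547194) [(nat_lit 606698), (nat_lit 0), (nat_lit 6541734)]) (PF.cons (PF.leaf (nat_lit 4701455) (nat_lit 630069) (nat_lit 50105429) (nat_lit 8551949) [(nat_lit 630069), (nat_lit 0), (nat_lit 6561224)]) (PF.cons (PF.leaf (nat_lit 5093018) (nat_lit 650681) (nat_lit 49378018) (nat_lit 8551642) [(nat_lit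 650681), (nat_lit 0), (nat_lit 6576427)]) (PF.cons (PF.leaf (nat_lit 5499521) (nat_lit 668928) (nat_lit 48631152) (nat_lit 8546010) [(nat_lit 668928), (nat_lit 0), (nat_lit 6587009)]) (PF.cons (PF.leaf (nat_lit
 5918151) (nat_lit 685099) (nat_lit 47870440) (nat_lit 8534961) [(nat_lit 685099), (nat_lit 0), (nat_lit 6592815)]) (PF.cons (PF.leaf (nat_lit 6346492) (nat_lit 699416) (nat_lit 47100542) (nat_lit 8518530) [(nat_lit 699416), (nat_lit 0), (nat_lit 6593825)]) (PF.cons (PF.leaf (nat_lit 6782437) (nat_lit 712059) (nat_lit 46325383) (nat_lit 8496842) [(nat_lit 712059), (nat_lit 0), (nat_lit 6590112)]) (PF.cons (PF.leaf (nat_lit 7224183) (nat_lit 723178) (nat_lit 45548291) (nat_lit 8470095) [(nat_lit 723178), (nat_lit 0), (nat_lit 6581820)]) (PF.cons (PF.leaf (nat_lit 7670084) (nat_lit 732902) (nat_lit 44772105) (nat_lit 8438535) [(nat_lit 732902), (nat_lit 0), (nat_lit 6569143)]) (PF.cons (PF.leaf (nat_lit 8118721) (nat_lit 741346) (nat_lit 43999244) (nat_lit 8402442)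 [(nat_lit 741346), (nat_lit 0), (nat_lit 6552309)]) (PF.cons (PF.leaf (nat_lit 8568837) (nat_lit 748613) (nat_lit 43231768) (nat_lit 8362118) [(nat_lit 748613), (nat_lit 0), (nat_lit 6531567)]) (PF.cons PF.nil (PF.cons PF.nil (PF.cons PF.nil PF.nil)))))))))))))))) (PF.cons (PF.cons (PF.leaf (nat_lit 4593989) (nat_lit 2380663) (nat_lit 49637336) (nat_lit 8536743) [(nat_lit 0), (nat_lit 2380663), (nat_lit 6554069)]) (PF.cons
 (PF.leaf (nat_lit 4955189) (nat_lit 637395) (nat_lit 48961374) (nat_lit 8534057) [(nat_lit 637395), (nat_lit 2409795), (nat_lit 6566190)]) (PF.cons (PF.leaf (nat_lit 5336188) (nat_lit 657072) (nat_lit 48257302) (nat_lit 8526660) [(nat_lit 657072), (nat_lit 2436247), (nat_lit 6574457)]) (PF.cons (PF.leaf (nat_lit 5732773) (nat_lit 674342) (nat_lit 47533079) (nat_lit 8514341) [(nat_lit 674342), (nat_lit 2459820), (nat_lit 6578542)]) (PF.cons (PF.leaf (nat_lit 6141810) (nat_lit 689539) (nat_lit 46794850) (nat_lit 8497042) [(nat_lit 689539), (nat_lit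 2480460), (nat_lit 6578299)]) (PF.cons (PF.leaf (nat_lit 6560714) (nat_lit 702910) (nat_lit 46047537) (nat_lit 8474818) [(nat_lit 702910), (nat_lit 2498193), (nat_lit 6573710)]) (PF.cons (PF.leaf (nat_lit 6987307) (nat_lit 714648) (nat_lit 45295174) (nat_lit 8447806) [(nat_lit 714648), (nat_lit 2513097), (nat_lit 6564845)]) (PF.cons (PF.leaf (nat_lit 7419704) (nat_lit 724910) (nat_lit 44541112) (nat_lit 8416203) [(nat_lit 724910), (nat_lit 2525282), (nat_lit 6551841)]) (PF.cons (PF.leaf (nat_lit 7856277) (nat_lit 733830) (nat_lit 43788162) (nat_lit 8380250) [(nat_lit 733830), (nat_lit 2534878), (nat_lit 6534879)]) (PF.cons (PF.leaf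
 (nat_lit 8295605) (nat_lit 741524) (nat_lit 43038687) (nat_lit 8340213) [(nat_lit 741524), (nat_lit 2542023), (nat_lit 6514170)]) (PF.cons (PF.leaf (nat_lit 8736440) (nat_lit 748094) (nat_lit 42294678) (nat_lit 8296376) [(nat_lit 748094), (nat_lit 2546865), (nat_lit 6489946)]) (PF.cons PF.nil (PF.cons PF.nil (PF.cons PF.nil PF.nil)))))))))))))) (PF.cons (PF.cons (PF.leaf (nat_lit 5576203) (nat_lit 2451244) (nat_lit 47150299) (nat_lit 8492167) [(nat_lit 0), (nat_lit 2451244), (nat_lit 6563858)]) (PF.cons (PF.leaf (nat_lit 5961246) (nat_lit 678016) (nat_lit 46452426) (nat_lit 8474130) [(nat_lit 678016), (nat_lit 2470979), (nat_lit 6562280)]) (PF.cons (PF.leaf (nat_lit 6359744) (nat_lit 692458) (nat_lit 45739369) (nat_lit 8451482) [(nat_lit 692458), (nat_lit 2488136), (nat_lit 6556770)]) (PF.cons (PF.leaf (nat_lit 6768583) (nat_lit 705061) (nat_lit 45016613) (nat_lit 8424304) [(nat_lit 705061), (nat_lit 2502698), (nat_lit 6547311)]) (PF.cons (PF.leaf (nat_lit 7185404)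 (nat_lit 716044) (nat_lit 44288485) (nat_lit 8392747) [(nat_lit 716044), (nat_lit 2514713), (nat_lit 6533973)]) (PF.cons (PF.leaf (nat_lit 7608227) (nat_lit 725580) (nat_lit 43558479) (nat_lit 8357011) [(nat_lit
 725580), (nat_lit 2524266), (nat_lit 6516886)]) (PF.cons (PF.leaf (nat_lit 8035367) (nat_lit 733810) (nat_lit 42829463) (nat_lit 8317330) [(nat_lit 733810), (nat_lit 2531467), (nat_lit 6496219)]) (PF.cons (PF.leaf (nat_lit 8465384) (nat_lit 740856) (nat_lit 42103810) (nat_lit 8273962) [(nat_lit 740856), (nat_lit 2536437), (nat_lit 6472171)]) (PF.cons (PF.leaf (nat_lit 8897012) (nat_lit 746821) (nat_lit 41383490) (nat_lit 8227177) [(nat_lit 746821), (nat_lit 2539307), (nat_lit 6444957)]) (PF.cons PF.nil (PF.cons PF.nil (PF.cons PF.nil PF.nil)))))))))))) (PF.cons (PF.cons (PF.leaf (nat_lit 6573439) (nat_lit 2492344) (nat_lit 44703727) (nat_lit 8399088) [(nat_lit 0), (nat_lit 2492344), (nat_lit 6528964)]) (PF.cons (PF.leaf (nat_lit 6971209) (nat_lit 705944) (nat_lit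 44007557) (nat_lit 8367759) [(nat_lit 705944), (nat_lit 2504076), (nat_lit 6515322)]) (PF.cons (PF.leaf (nat_lit 7377729) (nat_lit 716326) (nat_lit 43305075) (nat_lit 8332390) [(nat_lit 716326), (nat_lit 2513517), (nat_lit 6498142)]) (PF.cons (PF.leaf (nat_lit 7790656) (nat_lit 725265) (nat_lit 42600087) (nat_lit 8293191) [(nat_lit 725265), (nat_lit 2520728), (nat_lit 6477551)]) (PF.cons (PF.leaf (nat_lit 8208197)
 (nat_lit 732917) (nat_lit 41895627) (nat_lit 8250399) [(nat_lit 732917), (nat_lit 2525800), (nat_lit 6453713)]) (PF.cons (PF.leaf (nat_lit 8628841) (nat_lit 739412) (nat_lit 41194151) (nat_lit 8204262) [(nat_lit 739412), (nat_lit 2528839), (nat_lit 6426815)]) (PF.cons (PF.leaf (nat_lit 9051295) (nat_lit 744859) (nat_lit 40497663) (nat_lit 8155041) [(nat_lit 744859), (nat_lit 2529963), (nat_lit 6397058)]) (PF.cons (PF.leaf (nat_lit 9474477) (nat_lit 749354) (nat_lit 39807809) (nat_lit 8102997) [(nat_lit 749354), (nat_lit 2529290), (nat_lit 6364652)]) (PF.cons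 PF.nil (PF.cons PF.nil PF.nil)))))))))) (PF.cons (PF.cons (PF.leaf (nat_lit 7565517) (nat_lit 2509803) (nat_lit 42344332) (nat_lit 8267355) [(nat_lit 0), (nat_lit 2509803), (nat_lit 6457910)]) (PF.cons (PF.leaf (nat_lit 7967927) (nat_lit 724025) (nat_lit 41665352) (nat_lit 8225327) [(nat_lit 724025), (nat_lit 2514937), (nat_lit 6434358)]) (PF.cons (PF.leaf (nat_lit 8375607) (nat_lit 731211) (nat_lit 40986055) (nat_lit 8179994) [(nat_lit 731211), (nat_lit 2518124), (nat_lit 6407842)]) (PF.cons (PF.leaf (nat_lit 8786753) (nat_lit 737252) (nat_lit 40309080) (nat_lit 8131608) [(nat_lit 737252), (nat_lit 2519456), (nat_lit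
 6378541)]) (PF.cons (PF.leaf (nat_lit 9200025) (nat_lit 742265) (nat_lit 39636533) (nat_lit 8080420) [(nat_lit 742265), (nat_lit 2519036), (nat_lit 6346650)]) (PF.cons (PF.leaf (nat_lit 9614257) (nat_lit 746350) (nat_lit 38970112) (nat_lit 8026684) [(nat_lit 746350), (nat_lit 2516974), (nat_lit 6312363)]) (PF.cons PF.nil (PF.cons PF.nil PF.nil)))))))) (PF.cons (PF.cons (PF.leaf (nat_lit 8538643) (nat_lit 2508655) (nat_lit 40099934) (nat_lit 8106580) [(nat_lit 0), (nat_lit 2508655), (nat_lit 6359019)]) (PF.cons (PF.leaf (nat_lit 8939920) (nat_lit 734420) (nat_lit 39447808) (nat_lit 8056426) [(nat_lit 734420), (nat_lit 2508484), (nat_lit 6327733)]) (PF.cons (PF.leaf (nat_lit 9343898) (nat_lit 739083) (nat_lit 38799312) (nat_lit 8003707) [(nat_lit 739083), (nat_lit 2506708), (nat_lit 6294082)]) (PF.cons (PF.leaf (nat_lit 9749192) (nat_lit 742832) (nat_lit 38156258) (nat_lit 7948668) [(nat_lit 742832), (nat_lit 2503426), (nat_lit 6258256)]) (PF.cons PF.nil (PF.cons PF.nil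 PF.nil)))))) (PF.cons (PF.cons (PF.leaf (nat_lit 9483816) (nat_lit 2493137) (nat_lit 37985096) (nat_lit 7925234) [(nat_lit 0), (nat_lit 2493137), (nat_lit 6239657)]) (PF.cons (PF.leaf (nat_lit 9879932) (nat_lit
 738833) (nat_lit 37365370) (nat_lit 7869254) [(nat_lit 738833), (nat_lit 2488791), (nat_lit 6202603)]) (PF.cons PF.nil (PF.cons PF.nil PF.nil)))) (PF.cons (PF.cons (PF.leaf (nat_lit 10395554) (nat_lit 2466737) (nat_lit 36005302) (nat_lit 7730359) [(nat_lit 0), (nat_lit 2466737), (nat_lit 6105987)]) (PF.cons PF.nil PF.nil)) (PF.cons PF.nil (PF.cons PF.nil PF.nil)))))))))) (PF.cons (PF.cons (PF.cons (PF.leaf (nat_lit 5445997) (nat_lit 6476325) (nat_lit 45780466) (nat_lit 8375695) [(nat_lit 0), (nat_lit 0), (nat_lit 6476325)]) (PF.cons (PF.leaf (nat_lit 5800674) (nat_lit 649859) (nat_lit 45156690) (nat_lit 8356370) [(nat_lit 649859), (nat_lit 0), (nat_lit 6472945)]) (PF.cons (PF.leaf (nat_lit 6172685) (nat_lit 666701) (nat_lit 44510278) (nat_lit 8332862) [(nat_lit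 666701), (nat_lit 0), (nat_lit 6466134)]) (PF.cons (PF.leaf (nat_lit 6557980) (nat_lit 681180) (nat_lit 43848420) (nat_lit 8305230) [(nat_lit 681180), (nat_lit 0), (nat_lit 6455809)]) (PF.cons (PF.leaf (nat_lit 6953621) (nat_lit 693675) (nat_lit 43176540) (nat_lit 8273595) [(nat_lit 693675), (nat_lit 0), (nat_lit 6441987)]) (PF.cons (PF.leaf (nat_lit 7357234) (nat_lit 704460) (nat_lit 42498884) (nat_lit 8238124) [(nat_lit
 704460), (nat_lit 0), (nat_lit 6424750)]) (PF.cons (PF.leaf (nat_lit 7766881) (nat_lit 713746) (nat_lit 41818856) (nat_lit 8199018) [(nat_lit 713746), (nat_lit 0), (nat_lit 6404228)]) (PF.cons (PF.leaf (nat_lit 8180890) (nat_lit 721702) (nat_lit 41139229) (nat_lit 8156500) [(nat_lit 721702), (nat_lit 0), (nat_lit 6380582)]) (PF.cons (PF.leaf (nat_lit 8597855) (nat_lit 728467) (nat_lit 40462280) (nat_lit 8110808) [(nat_lit 728467), (nat_lit 0), (nat_lit 6353994)]) (PF.cons (PF.leaf (nat_lit 9016574) (nat_lit 734157) (nat_lit 39789892) (nat_lit 8062186)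 [(nat_lit 734157), (nat_lit 0), (nat_lit 6324658)]) (PF.cons PF.nil (PF.cons PF.nil PF.nil)))))))))))) (PF.cons (PF.cons (PF.leaf (nat_lit 6387137) (nat_lit 2445751) (nat_lit 43512734) (nat_lit 8277918) [(nat_lit 0), (nat_lit 2445751), (nat_lit 6436204)]) (PF.cons (PF.leaf (nat_lit 6760572) (nat_lit 681680) (nat_lit 42877658) (nat_lit 8246873) [(nat_lit 681680), (nat_lit 2458083), (nat_lit 6422258)]) (PF.cons (PF.leaf (nat_lit 7145547) (nat_lit 693699) (nat_lit 42231023) (nat_lit 8212053) [(nat_lit 693699), (nat_lit 2468179), (nat_lit 6405079)]) (PF.cons (PF.leaf (nat_lit 7539158) (nat_lit 703978) (nat_lit 41577623) (nat_lit 8173655)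
 [(nat_lit 703978), (nat_lit 2476081), (nat_lit 6384757)]) (PF.cons (PF.leaf (nat_lit 7939256) (nat_lit 712756) (nat_lit 40921170) (nat_lit 8131894) [(nat_lit 712756), (nat_lit 2481870), (nat_lit 6361425)]) (PF.cons (PF.leaf (nat_lit 8344058) (nat_lit 720216) (nat_lit 40264602) (nat_lit 8086997) [(nat_lit 720216), (nat_lit 2485646), (nat_lit 6335240)]) (PF.cons (PF.leaf (nat_lit 8752096) (nat_lit 726507) (nat_lit 39610287) (nat_lit 8039202) [(nat_lit 726507), (nat_lit 2487523), (nat_lit 6306377)]) (PF.cons (PF.leaf (nat_lit 9162096) (nat_lit 731750) (nat_lit 38960151) (nat_lit 7988744) [(nat_lit 731750), (nat_lit 2487618), (nat_lit 6275020)]) (PF.cons (PF.leaf (nat_lit 9572985) (nat_lit 736051) (nat_lit 38315767) (nat_lit 7935863) [(nat_lit 736051), (nat_lit 2486051), (nat_lit 6241359)]) (PF.cons PF.nil PF.nil)))))))))) (PF.cons (PF.cons (PF.leaf (nat_lit 7334438) (nat_lit 2464519) (nat_lit 41305436) (nat_lit 8146190) [(nat_lit 0), (nat_lit 2464519), (nat_lit 6364073)])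 (PF.cons (PF.leaf (nat_lit 7717154) (nat_lit 702530) (nat_lit 40677633) (nat_lit 8105464) [(nat_lit 702530), (nat_lit 2470412), (nat_lit 6341180)]) (PF.cons (PF.leaf (nat_lit 8107257) (nat_lit 710929) (nat_lit
 40045599) (nat_lit 8061583) [(nat_lit 710929), (nat_lit 2474384), (nat_lit 6315500)]) (PF.cons (PF.leaf (nat_lit 8502594) (nat_lit 718001) (nat_lit 39412588) (nat_lit 8014791) [(nat_lit 718001), (nat_lit 2476518), (nat_lit 6287194)]) (PF.cons (PF.leaf (nat_lit 8901556) (nat_lit 723909) (nat_lit 38781151) (nat_lit 7965327) [(nat_lit 723909), (nat_lit 2476912), (nat_lit 6256435)]) (PF.cons (PF.leaf (nat_lit 9302797) (nat_lit 728783) (nat_lit 38153317) (nat_lit 7913427) [(nat_lit 728783), (nat_lit 2475672), (nat_lit 6223401)]) (PF.cons (PF.leaf (nat_lit 9705223) (nat_lit 732735) (nat_lit 37530720) (nat_lit 7859322) [(nat_lit 732735), (nat_lit 2472906), (nat_lit 6188273)]) (PF.cons PF.nil PF.nil)))))))) (PF.cons (PF.cons (PF.leaf (nat_lit 8272010) (nat_lit 2465171)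 (nat_lit 39191205) (nat_lit 7988474) [(nat_lit 0), (nat_lit 2465171), (nat_lit 6266809)]) (PF.cons (PF.leaf (nat_lit 8657305) (nat_lit 715091) (nat_lit 38582335) (nat_lit 7940245) [(nat_lit 715091), (nat_lit 2465860), (nat_lit 6236778)]) (PF.cons (PF.leaf (nat_lit 9046959) (nat_lit 720708) (nat_lit 37974059) (nat_lit 7889521) [(nat_lit 720708), (nat_lit 2464952), (nat_lit 6204477)]) (PF.cons (PF.leaf (nat_lit 9439353)
 (nat_lit 725292) (nat_lit 37368597) (nat_lit 7836544) [(nat_lit 725292), (nat_lit 2462540), (nat_lit 6170085)]) (PF.cons (PF.leaf (nat_lit 9833259) (nat_lit 728962) (nat_lit 36767697) (nat_lit 7781544) [(nat_lit 728962), (nat_lit 2458722), (nat_lit 6133776)]) (PF.cons PF.nil PF.nil)))))) (PF.cons (PF.cons (PF.leaf (nat_lit 9189257) (nat_lit 2451788) (nat_lit 37188059) (nat_lit 7812069) [(nat_lit 0), (nat_lit 2451788), (nat_lit 6150764)]) (PF.cons (PF.leaf (nat_lit 9572412) (nat_lit 721305) (nat_lit 36605100) (nat_lit 7758359) [(nat_lit 721305), (nat_lit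 2448355), (nat_lit 6115312)]) (PF.cons (PF.leaf (nat_lit 9957728) (nat_lit 724760) (nat_lit 36025846) (nat_lit 7702769) [(nat_lit 724760), (nat_lit 2443623), (nat_lit 6078090)]) (PF.cons PF.nil PF.nil)))) (PF.cons (PF.cons (PF.leaf (nat_lit 10079390) (nat_lit 2427714) (nat_lit 35304239) (nat_lit 7623197) [(nat_lit 0), (nat_lit 2427714), (nat_lit 6021402)]) (PF.cons (PF.leaf (nat_lit 10457144) (nat_lit 722642) (nat_lit 34750982) (nat_lit 7565750) [(nat_lit 722642), (nat_lit 2421074), (nat_lit 5982031)]) PF.nil)) (PF.cons PF.nil (PF.cons PF.nil PF.nil)))))))) (PF.cons (PF.cons (PF.cons (PF.leaf (nat_lit 7124013) (nat_lit 6269068)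
 (nat_lit 40277894) (nat_lit 8023711) [(nat_lit 0), (nat_lit 0), (nat_lit 6269068)]) (PF.cons (PF.leaf (nat_lit 7484965) (nat_lit 678593) (nat_lit 39703614) (nat_lit 7984852) [(nat_lit 678593), (nat_lit 0), (nat_lit 6247251)]) (PF.cons (PF.leaf (nat_lit 7856025) (nat_lit 688717) (nat_lit 39120246) (nat_lit 7942875) [(nat_lit 688717), (nat_lit 0), (nat_lit 6222752)]) (PF.cons (PF.leaf (nat_lit 8234454) (nat_lit 697204) (nat_lit 38531979) (nat_lit 7898040) [(nat_lit 697204), (nat_lit 0), (nat_lit 6195726)]) (PF.cons (PF.leaf (nat_lit 8618272) (nat_lit 704302) (nat_lit 37942003) (nat_lit 7850593) [(nat_lit 704302), (nat_lit 0), (nat_lit 6166335)]) (PF.cons (PF.leaf (nat_lit 9005896) (nat_lit 710198) (nat_lit 37352811) (nat_lit 7800766) [(nat_lit 710198), (nat_lit 0), (nat_lit 6134746)]) (PF.cons (PF.leaf (nat_lit 9395989) (nat_lit 715041) (nat_lit 36766384) (nat_lit 7748786) [(nat_lit 715041), (nat_lit 0), (nat_lit 6101131)]) (PF.cons (PF.leaf (nat_lit 9787437) (nat_lit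 718951) (nat_lit 36184310) (nat_lit 7694869) [(nat_lit 718951), (nat_lit 0), (nat_lit 6065656)]) (PF.cons PF.nil (PF.cons PF.nil PF.nil)))))))))) (PF.cons (PF.cons (PF.leaf (nat_lit 8023842) (nat_lit 2420467) (nat_lit
 38295367) (nat_lit 7870131) [(nat_lit 0), (nat_lit 2420467), (nat_lit 6174282)]) (PF.cons (PF.leaf (nat_lit 8391745) (nat_lit 694180) (nat_lit 37730850) (nat_lit 7824186) [(nat_lit 694180), (nat_lit 2422257), (nat_lit 6145779)]) (PF.cons (PF.leaf (nat_lit 8766028) (nat_lit 701064) (nat_lit 37163367) (nat_lit 7775741) [(nat_lit 701064), (nat_lit 2422422), (nat_lit 6115050)]) (PF.cons (PF.leaf (nat_lit 9144696) (nat_lit 706725) (nat_lit 36595714) (nat_lit 7725051) [(nat_lit 706725), (nat_lit 2421055), (nat_lit 6082272)]) (PF.cons (PF.leaf (nat_lit 9526285) (nat_lit 711326) (nat_lit 36030059) (nat_lit 7672347) [(nat_lit 711326), (nat_lit 2418255), (nat_lit 6047614)]) (PF.cons (PF.leaf (nat_lit 9909618) (nat_lit 715000) (nat_lit 35468106) (nat_lit 7617850)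 [(nat_lit 715000), (nat_lit 2414123), (nat_lit 6011243)]) (PF.cons PF.nil (PF.cons PF.nil PF.nil)))))))) (PF.cons (PF.cons (PF.leaf (nat_lit 8911584) (nat_lit 2409742) (nat_lit 36403791) (nat_lit 7699306) [(nat_lit 0), (nat_lit 2409742), (nat_lit 6062076)]) (PF.cons (PF.leaf (nat_lit 9280746) (nat_lit 702719) (nat_lit 35858039) (nat_lit 7648092) [(nat_lit 702719), (nat_lit 2407380), (nat_lit 6028400)]) (PF.cons (PF.leaf (nat_lit
 9653630) (nat_lit 707159) (nat_lit 35313275) (nat_lit 7594962) [(nat_lit 707159), (nat_lit 2403690), (nat_lit 5992958)]) (PF.cons (PF.leaf (nat_lit 10028718) (nat_lit 710660) (nat_lit 34771392) (nat_lit 7540146) [(nat_lit 710660), (nat_lit 2398764), (nat_lit 5955920)]) (PF.cons PF.nil (PF.cons PF.nil PF.nil)))))) (PF.cons (PF.cons (PF.leaf (nat_lit 9778848) (nat_lit 2388323) (nat_lit 34615070) (nat_lit 7516796) [(nat_lit 0), (nat_lit 2388323), (nat_lit 5937324)]) (PF.cons (PF.leaf (nat_lit 10145325) (nat_lit 705946) (nat_lit 34093286) (nat_lit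 7461913) [(nat_lit 705946), (nat_lit 2382716), (nat_lit 5899838)]) (PF.cons (PF.leaf (nat_lit 10513594) (nat_lit 708511) (nat_lit 33575010) (nat_lit 7405629) [(nat_lit 708511), (nat_lit 2376042), (nat_lit 5861007)]) (PF.cons PF.nil PF.nil)))) (PF.cons (PF.cons (PF.leaf (nat_lit 10620351) (nat_lit 2358873) (nat_lit 32933768) (nat_lit 7327209) [(nat_lit 0), (nat_lit 2358873), (nat_lit 5804113)]) (PF.cons PF.nil PF.nil)) (PF.cons PF.nil PF.nil)))))) (PF.cons (PF.cons (PF.cons (PF.leaf (nat_lit 8652456) (nat_lit 5973348) (nat_lit 35628799) (nat_lit 7586620) [(nat_lit 0), (nat_lit 0), (nat_lit 5973348)]) (PF.cons (PF.leaf (nat_lit 9006152)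
 (nat_lit 682679) (nat_lit 35121327) (nat_lit 7538177) [(nat_lit 682679), (nat_lit 0), (nat_lit 5941657)]) (PF.cons (PF.leaf (nat_lit 9365477) (nat_lit 688392) (nat_lit 34611657) (nat_lit 7487722) [(nat_lit 688392), (nat_lit 0), (nat_lit 5908161)]) (PF.cons (PF.leaf (nat_lit 9728561) (nat_lit 692975) (nat_lit 34102215) (nat_lit 7435506) [(nat_lit 692975), (nat_lit 0), (nat_lit 5873040)]) (PF.cons (PF.leaf (nat_lit 10094074) (nat_lit 696591) (nat_lit 33594858) (nat_lit 7381753) [(nat_lit 696591), (nat_lit 0), (nat_lit 5836459)]) (PF.cons PF.nil PF.nil)))))) (PF.cons (PF.cons (PF.leaf (nat_lit 9494995) (nat_lit 2348363) (nat_lit 33935325) (nat_lit 7410901) [(nat_lit 0), (nat_lit 2348363), (nat_lit 5853555)]) (PF.cons (PF.leaf (nat_lit 9849122) (nat_lit 688271) (nat_lit 33445509) (nat_lit 7358752) [(nat_lit 688271), (nat_lit 2343921), (nat_lit 5818089)]) (PF.cons (PF.leaf (nat_lit 10206493) (nat_lit 691817) (nat_lit 32956797) (nat_lit 7305109) [(nat_lit 691817), (nat_lit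 2338362), (nat_lit 5781227)]) (PF.cons (PF.leaf (nat_lit 10565701) (nat_lit 694506) (nat_lit 32470818) (nat_lit 7250185) [(nat_lit 694506), (nat_lit 2331773), (nat_lit 5743129)]) PF.nil)))) (PF.cons (PF.cons (PF.leaf
 (nat_lit 10317573) (nat_lit 2321785) (nat_lit 32334924) (nat_lit 7228232) [(nat_lit 0), (nat_lit 2321785), (nat_lit 5725521)]) (PF.cons (PF.leaf (nat_lit 10668748) (nat_lit 689358) (nat_lit 31866775) (nat_lit 7173661) [(nat_lit 689358), (nat_lit 2314755), (nat_lit 5687376)]) PF.nil)) (PF.cons PF.nil PF.nil)))) (PF.cons (PF.cons (PF.cons (PF.leaf (nat_lit 10031011) (nat_lit 5647236) (nat_lit 31742893) (nat_lit 7129734) [(nat_lit 0), (nat_lit 0), (nat_lit 5647236)]) (PF.cons (PF.leaf (nat_lit 10371177) (nat_lit 672658) (nat_lit 31302255) (nat_lit 7077947) [(nat_lit 672658), (nat_lit 0), (nat_lit 5611190)]) (PF.cons (PF.leaf (nat_lit 10714248) (nat_lit 675519) (nat_lit 30862691) (nat_lit 7024972) [(nat_lit 675519), (nat_lit 0), (nat_lit 5574021)]) (PF.cons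 PF.nil PF.nil)))) (PF.cons (PF.cons (PF.leaf (nat_lit 10813538) (nat_lit 2254437) (nat_lit 30306955) (nat_lit 6950549) [(nat_lit 0), (nat_lit 2254437), (nat_lit 5519374)]) (PF.cons PF.nil PF.nil)) PF.nil)) (PF.cons PF.nil (PF.cons PF.nil (PF.cons PF.nil (PF.cons PF.nil PF.nil))))))))))

def p12_20_1_0 : pfC (piC [(nat_lit 35404596), (nat_lit 22827826), (nat_lit 14696761)] (nat_lit 11809077)) p12_20_1 (nat_lit 3) (nat_lit 0) (nat_lit 1) = true := by decide +kernel
def p12_20_1_1 : pfC (piC [(nat_lit 35404596), (nat_lit 22827826), (nat_lit 14696761)] (nat_lit 11809077)) p12_20_1 (nat_lit 3) (nat_lit 1) (nat_lit 2) = true := by decide +kernel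
def p12_20_1_2 : pfC (piC [(nat_lit 35404596), (nat_lit 22827826), (nat_lit 14696761)] (nat_lit 11809077)) p12_20_1 (nat_lit 3) (nat_lit 2) (nat_lit 3) = true := by decide +kernel
def p12_20_1_3 : pfC (piC [(nat_lit 35404596), (nat_lit 22827826), (nat_lit 14696761)] (nat_lit 11809077)) p12_20_1 (nat_lit 3) (nat_lit 3) (nat_lit 4) = true := by decide +kernel
def p12_20_1_4 : pfC (piC [(nat_lit 35404596), (nat_lit 22827826), (nat_lit 14696761)] (nat_lit 11809077)) p12_20_1 (nat_lit 3) (nat_lit 4) (nat_lit 5) = true := by decide +kernel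
def p12_20_1_5 : pfC (piC [(nat_lit 35404596), (nat_lit 22827826), (nat_lit 14696761)] (nat_lit 11809077)) p12_20_1 (nat_lit 3) (nat_lit 5) (nat_lit 6) = true := by decide +kernel
def p12_20_1_6 : pfC (piC [(nat_lit 35404596), (nat_lit 22827826), (nat_lit 14696761)] (nat_lit 11809077)) p12_20_1 (nat_lit 3) (nat_lit 6) (nat_lit 7) = true := by decide +kernel
def p12_20_1_7 : pfC (piC [(nat_lit 35404596), (nat_lit 22827826), (nat_lit 14696761)] (nat_lit 11809077)) p12_20_1 (nat_lit 3) (nat_lit 7) (nat_lit 8) = true := by decide +kernel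
def p12_20_1_8 : pfC (piC [(nat_lit 35404596), (nat_lit 22827826), (nat_lit 14696761)] (nat_lit 11809077)) p12_20_1 (nat_lit 3) (nat_lit 8) (nat_lit 9) = true := by decide +kernel
def p12_20_1_9 : pfC (piC [(nat_lit 35404596), (nat_lit 22827826), (nat_lit 14696761)] (nat_lit 11809077)) p12_20_1 (nat_lit 3) (nat_lit 9) (nat_lit 10) = true := by decide +kernel
def p12_20_1_10 : pfC (piC [(nat_lit 35404596), (nat_lit 22827826), (nat_lit 14696761)] (nat_lit 11809077)) p12_20_1 (nat_lit 3) (nat_lit 10) (nat_lit 11) = true := by decide +kernel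
def p12_20_1_11 : pfC (piC [(nat_lit 35404596), (nat_lit 22827826), (nat_lit 14696761)] (nat_lit 11809077)) p12_20_1 (nat_lit 3) (nat_lit 11) (nat_lit 12) = true := by decide +kernel
def p12_20_1_12 : pfC (piC [(nat_lit 35404596), (nat_lit 22827826), (nat_lit 14696761)] (nat_lit 11809077)) p12_20_1 (nat_lit 3) (nat_lit 12) (nat_lit 13) = true := by decide +kernel
def p12_20_1_13 : pfC (piC [(nat_lit 35404596), (nat_lit 22827826), (nat_lit 14696761)] (nat_lit 11809077)) p12_20_1 (nat_lit 3) (nat_lit 13) (nat_lit 14) = true := by decide +kernel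
def p12_20_1_14 : pfC (piC [(nat_lit 35404596), (nat_lit 22827826), (nat_lit 14696761)] (nat_lit 11809077)) p12_20_1 (nat_lit 3) (nat_lit 14) (nat_lit 15) = true := by decide +kernel
def p12_20_1_15 : pfC (piC [(nat_lit 35404596), (nat_lit 22827826), (nat_lit 14696761)] (nat_lit 11809077)) p12_20_1 (nat_lit 3) (nat_lit 15) (nat_lit 16) = true := by decide +kernel
def p12_20_1_16 : pfC (piC [(nat_lit 35404596), (nat_lit 22827826), (nat_lit 14696761)] (nat_lit 11809077)) p12_20_1 (nat_lit 3) (nat_lit 16) (nat_lit 17) = true := by decide +kernel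
def p12_20_1_17 : pfC (piC [(nat_lit 35404596), (nat_lit 22827826), (nat_lit 14696761)] (nat_lit 11809077)) p12_20_1 (nat_lit 3) (nat_lit 17) (nat_lit 18) = true := by decide +kernel
def p12_20_1_18 : pfC (piC [(nat_lit 35404596), (nat_lit 22827826), (nat_lit 14696761)] (nat_lit 11809077)) p12_20_1 (nat_lit 3) (nat_lit 18) (nat_lit 19) = true := by decide +kernel
def p12_20_1_19 : pfC (piC [(nat_lit 35404596), (nat_lit 22827826), (nat_lit 14696761)] (nat_lit 11809077)) p12_20_1 (nat_lit 3) (nat_lit 19) (nat_lit 20) = true := by decide +kernel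
def p12_20_1_20 : pfC (piC [(nat_lit 35404596), (nat_lit 22827826), (nat_lit 14696761)] (nat_lit 11809077)) p12_20_1 (nat_lit 3) (nat_lit 20) (nat_lit 21) = true := by decide +kernel
def p12_20_1_21 : pfC (piC [(nat_lit 35404596), (nat_lit 22827826), (nat_lit 14696761)] (nat_lit 11809077)) p12_20_1 (nat_lit 3) (nat_lit 21) (nat_lit 22) = true := by decide +kernel
def p12_20_1_22 : pfC (piC [(nat_lit 35404596), (nat_lit 22827826), (nat_lit 14696761)] (nat_lit 11809077)) p12_20_1 (nat_lit 3) (nat_lit 22) (nat_lit 23) = true := by decide +kernel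
def p12_20_1_23 : pfC (piC [(nat_lit 35404596), (nat_lit 22827826), (nat_lit 14696761)] (nat_lit 11809077)) p12_20_1 (nat_lit 3) (nat_lit 23) (nat_lit 24) = true := by decide +kernel
def p12_20_1_24 : pfC (piC [(nat_lit 35404596), (nat_lit 22827826), (nat_lit 14696761)] (nat_lit 11809077)) p12_20_1 (nat_lit 3) (nat_lit 24) (nat_lit 25) = true := by decide +kernel
def p12_20_1_25 : pfC (piC [(nat_lit 35404596), (nat_lit 22827826), (nat_lit 14696761)] (nat_lit 11809077)) p12_20_1 (nat_lit 3) (nat_lit 25) (nat_lit 26) = true := by decide +kernel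
def p12_20_1_26 : pfC (piC [(nat_lit 35404596), (nat_lit 22827826), (nat_lit 14696761)] (nat_lit 11809077)) p12_20_1 (nat_lit 3) (nat_lit 26) (nat_lit 27) = true := by decide +kernel
def p12_20_1_27 : pfC (piC [(nat_lit 35404596), (nat_lit 22827826), (nat_lit 14696761)] (nat_lit 11809077)) p12_20_1 (nat_lit 3) (nat_lit 27) (nat_lit 28) = true := by decide +kernel
def p12_20_1_28 : pfC (piC [(nat_lit 35404596), (nat_lit 22827826), (nat_lit 14696761)] (nat_lit 11809077)) p12_20_1 (nat_lit 3) (nat_lit 28) (nat_lit 29) = true := by decide +kernel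
def p12_20_1_29 : pfC (piC [(nat_lit 35404596), (nat_lit 22827826), (nat_lit 14696761)] (nat_lit 11809077)) p12_20_1 (nat_lit 3) (nat_lit 29) (nat_lit 30) = true := by decide +kernel
def p12_20_1_30 : pfC (piC [(nat_lit 35404596), (nat_lit 22827826), (nat_lit 14696761)] (nat_lit 11809077)) p12_20_1 (nat_lit 3) (nat_lit 30) (nat_lit 31) = true := by decide +kernel
def p12_20_1_31 : pfC (piC [(nat_lit 35404596), (nat_lit 22827826), (nat_lit 14696761)] (nat_lit 11809077)) p12_20_1 (nat_lit 3) (nat_lit 31) (nat_lit 32) = true := by decide +kernel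
def p12_20_1_32 : pfC (piC [(nat_lit 35404596), (nat_lit 22827826), (nat_lit 14696761)] (nat_lit 11809077)) p12_20_1 (nat_lit 3) (nat_lit 32) (nat_lit 33) = true := by decide +kernel
def p12_20_1_33 : pfC (piC [(nat_lit 35404596), (nat_lit 22827826), (nat_lit 14696761)] (nat_lit 11809077)) p12_20_1 (nat_lit 3) (nat_lit 33) (nat_lit 34) = true := by decide +kernel
def p12_20_1_34 : pfC (piC [(nat_lit 35404596), (nat_lit 22827826), (nat_lit 14696761)] (nat_lit 11809077)) p12_20_1 (nat_lit 3) (nat_lit 34) (nat_lit 35) = true := by decide +kernel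
def p12_20_1_35 : pfC (piC [(nat_lit 35404596), (nat_lit 22827826), (nat_lit 14696761)] (nat_lit 11809077)) p12_20_1 (nat_lit 3) (nat_lit 35) (nat_lit 36) = true := by decide +kernel
def p12_20_1_36 : pfC (piC [(nat_lit 35404596), (nat_lit 22827826), (nat_lit 14696761)] (nat_lit 11809077)) p12_20_1 (nat_lit 3) (nat_lit 36) (nat_lit 37) = true := by decide +kernel
def p12_20_1_37 : pfC (piC [(nat_lit 35404596), (nat_lit 22827826), (nat_lit 14696761)] (nat_lit 11809077)) p12_20_1 (nat_lit 3) (nat_lit 37) (nat_lit 38) = true := by decide +kernel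
def p12_20_1_38 : pfC (piC [(nat_lit 35404596), (nat_lit 22827826), (nat_lit 14696761)] (nat_lit 11809077)) p12_20_1 (nat_lit 3) (nat_lit 38) (nat_lit 39) = true := by decide +kernel
def p12_20_1_39 : pfC (piC [(nat_lit 35404596), (nat_lit 22827826), (nat_lit 14696761)] (nat_lit 11809077)) p12_20_1 (nat_lit 3) (nat_lit 39) (nat_lit 40) = true := by decide +kernel
def p12_20_1_40 : pfC (piC [(nat_lit 35404596), (nat_lit 22827826), (nat_lit 14696761)] (nat_lit 11809077)) p12_20_1 (nat_lit 3) (nat_lit 40) (nat_lit 41) = true := by decide +kernel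
def p12_20_1_41 : pfC (piC [(nat_lit 35404596), (nat_lit 22827826), (nat_lit 14696761)] (nat_lit 11809077)) p12_20_1 (nat_lit 3) (nat_lit 41) (nat_lit 42) = true := by decide +kernel
def p12_20_1_42 : pfC (piC [(nat_lit 35404596), (nat_lit 22827826), (nat_lit 14696761)] (nat_lit 11809077)) p12_20_1 (nat_lit 3) (nat_lit 42) (nat_lit 43) = true := by decide +kernel
def p12_20_1_43 : pfC (piC [(nat_lit 35404596), (nat_lit 22827826), (nat_lit 14696761)] (nat_lit 11809077)) p12_20_1 (nat_lit 3) (nat_lit 43) (nat_lit 44) = true := by decide +kernel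
def p12_20_1_44 : pfC (piC [(nat_lit 35404596), (nat_lit 22827826), (nat_lit 14696761)] (nat_lit 11809077)) p12_20_1 (nat_lit 3) (nat_lit 44) (nat_lit 45) = true := by decide +kernel
def p12_20_1_45 : pfC (piC [(nat_lit 35404596), (nat_lit 22827826), (nat_lit 14696761)] (nat_lit 11809077)) p12_20_1 (nat_lit 3) (nat_lit 45) (nat_lit 46) = true := by decide +kernel
def p12_20_1_46 : pfC (piC [(nat_lit 35404596), (nat_lit 22827826), (nat_lit 14696761)] (nat_lit 11809077)) p12_20_1 (nat_lit 3) (nat_lit 46) (nat_lit 47) = true := by decide +kernel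
def p12_20_1_47 : pfC (piC [(nat_lit 35404596), (nat_lit 22827826), (nat_lit 14696761)] (nat_lit 11809077)) p12_20_1 (nat_lit 3) (nat_lit 47) (nat_lit 48) = true := by decide +kernel
def p12_20_1_48 : pfC (piC [(nat_lit 35404596), (nat_lit 22827826), (nat_lit 14696761)] (nat_lit 11809077)) p12_20_1 (nat_lit 3) (nat_lit 48) (nat_lit 49) = true := by decide +kernel
def p12_20_1_49 : pfC (piC [(nat_lit 35404596), (nat_lit 22827826), (nat_lit 14696761)] (nat_lit 11809077)) p12_20_1 (nat_lit 3) (nat_lit 49) (nat_lit 50) = true := by decide +kernel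
def p12_20_1_50 : pfC (piC [(nat_lit 35404596), (nat_lit 22827826), (nat_lit 14696761)] (nat_lit 11809077)) p12_20_1 (nat_lit 3) (nat_lit 50) (nat_lit 51) = true := by decide +kernel
def p12_20_1_51 : pfC (piC [(nat_lit 35404596), (nat_lit 22827826), (nat_lit 14696761)] (nat_lit 11809077)) p12_20_1 (nat_lit 3) (nat_lit 51) (nat_lit 52) = true := by decide +kernel
def p12_20_1_52 : pfC (piC [(nat_lit 35404596), (nat_lit 22827826), (nat_lit 14696761)] (nat_lit 11809077)) p12_20_1 (nat_lit 3) (nat_lit 52) (nat_lit 53) = true := by decide +kernel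
def p12_20_1_53 : pfC (piC [(nat_lit 35404596), (nat_lit 22827826), (nat_lit 14696761)] (nat_lit 11809077)) p12_20_1 (nat_lit 3) (nat_lit 53) (nat_lit 54) = true := by decide +kernel
def p12_20_1_54 : pfC (piC [(nat_lit 35404596), (nat_lit 22827826), (nat_lit 14696761)] (nat_lit 11809077)) p12_20_1 (nat_lit 3) (nat_lit 54) (nat_lit 55) = true := by decide +kernel
def p12_20_1_55 : pfC (piC [(nat_lit 35404596), (nat_lit 22827826), (nat_lit 14696761)] (nat_lit 11809077)) p12_20_1 (nat_lit 3) (nat_lit 55) (nat_lit 56) = true := by decide +kernel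
def p12_20_1_56 : pfC (piC [(nat_lit 35404596), (nat_lit 22827826), (nat_lit 14696761)] (nat_lit 11809077)) p12_20_1 (nat_lit 3) (nat_lit 56) (nat_lit 57) = true := by decide +kernel
def p12_20_1_57 : pfC (piC [(nat_lit 35404596), (nat_lit 22827826), (nat_lit 14696761)] (nat_lit 11809077)) p12_20_1 (nat_lit 3) (nat_lit 57) (nat_lit 58) = true := by decide +kernel
def p12_20_1_58 : pfC (piC [(nat_lit 35404596), (nat_lit 22827826), (nat_lit 14696761)] (nat_lit 11809077)) p12_20_1 (nat_lit 3) (nat_lit 58) (nat_lit 59) = true := by decide +kernel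
def p12_20_1_59 : pfC (piC [(nat_lit 35404596), (nat_lit 22827826), (nat_lit 14696761)] (nat_lit 11809077)) p12_20_1 (nat_lit 3) (nat_lit 59) (nat_lit 60) = true := by decide +kernel
def p12_20_1_60 : pfC (piC [(nat_lit 35404596), (nat_lit 22827826), (nat_lit 14696761)] (nat_lit 11809077)) p12_20_1 (nat_lit 3) (nat_lit 60) (nat_lit 61) = true := by decide +kernel
def p12_20_1_61 : pfC (piC [(nat_lit 35404596), (nat_lit 22827826), (nat_lit 14696761)] (nat_lit 11809077)) p12_20_1 (nat_lit 3) (nat_lit 61) (nat_lit 62) = true := by decide +kernel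
def p12_20_1_62 : pfC (piC [(nat_lit 35404596), (nat_lit 22827826), (nat_lit 14696761)] (nat_lit 11809077)) p12_20_1 (nat_lit 3) (nat_lit 62) (nat_lit 63) = true := by decide +kernel
def p12_20_1_63 : pfC (piC [(nat_lit 35404596), (nat_lit 22827826), (nat_lit 14696761)] (nat_lit 11809077)) p12_20_1 (nat_lit 3) (nat_lit 63) (nat_lit 64) = true := by decide +kernel
def p12_20_1_64 : pfC (piC [(nat_lit 35404596), (nat_lit 22827826), (nat_lit 14696761)] (nat_lit 11809077)) p12_20_1 (nat_lit 3) (nat_lit 64) (nat_lit 65) = true := by decide +kernel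
def p12_20_1_65 : pfC (piC [(nat_lit 35404596), (nat_lit 22827826), (nat_lit 14696761)] (nat_lit 11809077)) p12_20_1 (nat_lit 3) (nat_lit 65) (nat_lit 66) = true := by decide +kernel
def p12_20_1_66 : pfC (piC [(nat_lit 35404596), (nat_lit 22827826), (nat_lit 14696761)] (nat_lit 11809077)) p12_20_1 (nat_lit 3) (nat_lit 66) (nat_lit 67) = true := by decide +kernel
def p12_20_1_67 : pfC (piC [(nat_lit 35404596), (nat_lit 22827826), (nat_lit 14696761)] (nat_lit 11809077)) p12_20_1 (nat_lit 3) (nat_lit 67) (nat_lit 68) = true := by decide +kernel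
def p12_20_1_68 : pfC (piC [(nat_lit 35404596), (nat_lit 22827826), (nat_lit 14696761)] (nat_lit 11809077)) p12_20_1 (nat_lit 3) (nat_lit 68) (nat_lit 69) = true := by decide +kernel
def p12_20_1_69 : pfC (piC [(nat_lit 35404596), (nat_lit 22827826), (nat_lit 14696761)] (nat_lit 11809077)) p12_20_1 (nat_lit 3) (nat_lit 69) (nat_lit 70) = true := by decide +kernel
def p12_20_1_70 : pfC (piC [(nat_lit 35404596), (nat_lit 22827826), (nat_lit 14696761)] (nat_lit 11809077)) p12_20_1 (nat_lit 3) (nat_lit 70) (nat_lit 71) = true := by decide +kernel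
def p12_20_1_71 : pfC (piC [(nat_lit 35404596), (nat_lit 22827826), (nat_lit 14696761)] (nat_lit 11809077)) p12_20_1 (nat_lit 3) (nat_lit 71) (nat_lit 72) = true := by decide +kernel
def p12_20_1_72 : pfC (piC [(nat_lit 35404596), (nat_lit 22827826), (nat_lit 14696761)] (nat_lit 11809077)) p12_20_1 (nat_lit 3) (nat_lit 72) (nat_lit 73) = true := by decide +kernel
def p12_20_1_73 : pfC (piC [(nat_lit 35404596), (nat_lit 22827826), (nat_lit 14696761)] (nat_lit 11809077)) p12_20_1 (nat_lit 3) (nat_lit 73) (nat_lit 74) = true := by decide +kernel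
def p12_20_1_74 : pfC (piC [(nat_lit 35404596), (nat_lit 22827826), (nat_lit 14696761)] (nat_lit 11809077)) p12_20_1 (nat_lit 3) (nat_lit 74) (nat_lit 75) = true := by decide +kernel
def p12_20_1_75 : pfC (piC [(nat_lit 35404596), (nat_lit 22827826), (nat_lit 14696761)] (nat_lit 11809077)) p12_20_1 (nat_lit 3) (nat_lit 75) (nat_lit 76) = true := by decide +kernel
def p12_20_1_76 : pfC (piC [(nat_lit 35404596), (nat_lit 22827826), (nat_lit 14696761)] (nat_lit 11809077)) p12_20_1 (nat_lit 3) (nat_lit 76) (nat_lit 77) = true := by decide +kernel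
def p12_20_1_77 : pfC (piC [(nat_lit 35404596), (nat_lit 22827826), (nat_lit 14696761)] (nat_lit 11809077)) p12_20_1 (nat_lit 3) (nat_lit 77) (nat_lit 78) = true := by decide +kernel
def p12_20_1_78 : pfC (piC [(nat_lit 35404596), (nat_lit 22827826), (nat_lit 14696761)] (nat_lit 11809077)) p12_20_1 (nat_lit 3) (nat_lit 78) (nat_lit 79) = true := by decide +kernel
def p12_20_1_79 : pfC (piC [(nat_lit 35404596), (nat_lit 22827826), (nat_lit 14696761)] (nat_lit 11809077)) p12_20_1 (nat_lit 3) (nat_lit 79) (nat_lit 80) = true := by decide +kernel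
def p12_20_1_80 : pfC (piC [(nat_lit 35404596), (nat_lit 22827826), (nat_lit 14696761)] (nat_lit 11809077)) p12_20_1 (nat_lit 3) (nat_lit 80) (nat_lit 81) = true := by decide +kernel
def p12_20_1_81 : pfC (piC [(nat_lit 35404596), (nat_lit 22827826), (nat_lit 14696761)] (nat_lit 11809077)) p12_20_1 (nat_lit 3) (nat_lit 81) (nat_lit 82) = true := by decide +kernel
def p12_20_1_82 : pfC (piC [(nat_lit 35404596), (nat_lit 22827826), (nat_lit 14696761)] (nat_lit 11809077)) p12_20_1 (nat_lit 3) (nat_lit 82) (nat_lit 83) = true := by decide +kernel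
def p12_20_1_83 : pfC (piC [(nat_lit 35404596), (nat_lit 22827826), (nat_lit 14696761)] (nat_lit 11809077)) p12_20_1 (nat_lit 3) (nat_lit 83) (nat_lit 84) = true := by decide +kernel
def p12_20_1_84 : pfC (piC [(nat_lit 35404596), (nat_lit 22827826), (nat_lit 14696761)] (nat_lit 11809077)) p12_20_1 (nat_lit 3) (nat_lit 84) (nat_lit 85) = true := by decide +kernel
def p12_20_1_85 : pfC (piC [(nat_lit 35404596), (nat_lit 22827826), (nat_lit 14696761)] (nat_lit 11809077)) p12_20_1 (nat_lit 3) (nat_lit 85) (nat_lit 86) = true := by decide +kernel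
def p12_20_1_86 : pfC (piC [(nat_lit 35404596), (nat_lit 22827826), (nat_lit 14696761)] (nat_lit 11809077)) p12_20_1 (nat_lit 3) (nat_lit 86) (nat_lit 87) = true := by decide +kernel
def p12_20_1_87 : pfC (piC [(nat_lit 35404596), (nat_lit 22827826), (nat_lit 14696761)] (nat_lit 11809077)) p12_20_1 (nat_lit 3) (nat_lit 87) (nat_lit 88) = true := by decide +kernel
def p12_20_1_88 : pfC (piC [(nat_lit 35404596), (nat_lit 22827826), (nat_lit 14696761)] (nat_lit 11809077)) p12_20_1 (nat_lit 3) (nat_lit 88) (nat_lit 89) = true := by decide +kernel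
def p12_20_1_89 : pfC (piC [(nat_lit 35404596), (nat_lit 22827826), (nat_lit 14696761)] (nat_lit 11809077)) p12_20_1 (nat_lit 3) (nat_lit 89) (nat_lit 90) = true := by decide +kernel
def p12_20_1_90 : pfC (piC [(nat_lit 35404596), (nat_lit 22827826), (nat_lit 14696761)] (nat_lit 11809077)) p12_20_1 (nat_lit 3) (nat_lit 90) (nat_lit 91) = true := by decide +kernel
def p12_20_1_91 : pfC (piC [(nat_lit 35404596), (nat_lit 22827826), (nat_lit 14696761)] (nat_lit 11809077)) p12_20_1 (nat_lit 3) (nat_lit 91) (nat_lit 92) = true := by decide +kernel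
def p12_20_1_92 : pfC (piC [(nat_lit 35404596), (nat_lit 22827826), (nat_lit 14696761)] (nat_lit 11809077)) p12_20_1 (nat_lit 3) (nat_lit 92) (nat_lit 93) = true := by decide +kernel
def p12_20_1_93 : pfC (piC [(nat_lit 35404596), (nat_lit 22827826), (nat_lit 14696761)] (nat_lit 11809077)) p12_20_1 (nat_lit 3) (nat_lit 93) (nat_lit 94) = true := by decide +kernel
def p12_20_1_94 : pfC (piC [(nat_lit 35404596), (nat_lit 22827826), (nat_lit 14696761)] (nat_lit 11809077)) p12_20_1 (nat_lit 3) (nat_lit 94) (nat_lit 95) = true := by decide +kernel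
def p12_20_1_95 : pfC (piC [(nat_lit 35404596), (nat_lit 22827826), (nat_lit 14696761)] (nat_lit 11809077)) p12_20_1 (nat_lit 3) (nat_lit 95) (nat_lit 96) = true := by decide +kernel
def p12_20_1_96 : pfC (piC [(nat_lit 35404596), (nat_lit 22827826), (nat_lit 14696761)] (nat_lit 11809077)) p12_20_1 (nat_lit 3) (nat_lit 96) (nat_lit 97) = true := by decide +kernel
def p12_20_1_97 : pfC (piC [(nat_lit 35404596), (nat_lit 22827826), (nat_lit 14696761)] (nat_lit 11809077)) p12_20_1 (nat_lit 3) (nat_lit 97) (nat_lit 98) = true := by decide +kernel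
def p12_20_1_98 : pfC (piC [(nat_lit 35404596), (nat_lit 22827826), (nat_lit 14696761)] (nat_lit 11809077)) p12_20_1 (nat_lit 3) (nat_lit 98) (nat_lit 99) = true := by decide +kernel
def p12_20_1_99 : pfC (piC [(nat_lit 35404596), (nat_lit 22827826), (nat_lit 14696761)] (nat_lit 11809077)) p12_20_1 (nat_lit 3) (nat_lit 99) (nat_lit 100) = true := by decide +kernel
def p12_20_1_100 : pfC (piC [(nat_lit 35404596), (nat_lit 22827826), (nat_lit 14696761)] (nat_lit 11809077)) p12_20_1 (nat_lit 3) (nat_lit 100) (nat_lit 101) = true := by decide +kernel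
def p12_20_1_101 : pfC (piC [(nat_lit 35404596), (nat_lit 22827826), (nat_lit 14696761)] (nat_lit 11809077)) p12_20_1 (nat_lit 3) (nat_lit 101) (nat_lit 102) = true := by decide +kernel
def p12_20_1_102 : pfC (piC [(nat_lit 35404596), (nat_lit 22827826), (nat_lit 14696761)] (nat_lit 11809077)) p12_20_1 (nat_lit 3) (nat_lit 102) (nat_lit 103) = true := by decide +kernel
def p12_20_1_103 : pfC (piC [(nat_lit 35404596), (nat_lit 22827826), (nat_lit 14696761)] (nat_lit 11809077)) p12_20_1 (nat_lit 3) (nat_lit 103) (nat_lit 104) = true := by decide +kernel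
def p12_20_1_104 : pfC (piC [(nat_lit 35404596), (nat_lit 22827826), (nat_lit 14696761)] (nat_lit 11809077)) p12_20_1 (nat_lit 3) (nat_lit 104) (nat_lit 105) = true := by decide +kernel
def p12_20_1_105 : pfC (piC [(nat_lit 35404596), (nat_lit 22827826), (nat_lit 14696761)] (nat_lit 11809077)) p12_20_1 (nat_lit 3) (nat_lit 105) (nat_lit 106) = true := by decide +kernel
def p12_20_1_106 : pfC (piC [(nat_lit 35404596), (nat_lit 22827826), (nat_lit 14696761)] (nat_lit 11809077)) p12_20_1 (nat_lit 3) (nat_lit 106) (nat_lit 107) = true := by decide +kernel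
def p12_20_1_107 : pfC (piC [(nat_lit 35404596), (nat_lit 22827826), (nat_lit 14696761)] (nat_lit 11809077)) p12_20_1 (nat_lit 3) (nat_lit 107) (nat_lit 108) = true := by decide +kernel
def p12_20_1_108 : pfC (piC [(nat_lit 35404596), (nat_lit 22827826), (nat_lit 14696761)] (nat_lit 11809077)) p12_20_1 (nat_lit 3) (nat_lit 108) (nat_lit 109) = true := by decide +kernel
def p12_20_1_109 : pfC (piC [(nat_lit 35404596), (nat_lit 22827826), (nat_lit 14696761)] (nat_lit 11809077)) p12_20_1 (nat_lit 3) (nat_lit 109) (nat_lit 110) = true := by decide +kernel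
def p12_20_1_110 : pfC (piC [(nat_lit 35404596), (nat_lit 22827826), (nat_lit 14696761)] (nat_lit 11809077)) p12_20_1 (nat_lit 3) (nat_lit 110) (nat_lit 111) = true := by decide +kernel
def p12_20_1_111 : pfC (piC [(nat_lit 35404596), (nat_lit 22827826), (nat_lit 14696761)] (nat_lit 11809077)) p12_20_1 (nat_lit 3) (nat_lit 111) (nat_lit 112) = true := by decide +kernel
def p12_20_1_112 : pfC (piC [(nat_lit 35404596), (nat_lit 22827826), (nat_lit 14696761)] (nat_lit 11809077)) p12_20_1 (nat_lit 3) (nat_lit 112) (nat_lit 113) = true := by decide +kernel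
def p12_20_1_113 : pfC (piC [(nat_lit 35404596), (nat_lit 22827826), (nat_lit 14696761)] (nat_lit 11809077)) p12_20_1 (nat_lit 3) (nat_lit 113) (nat_lit 114) = true := by decide +kernel
def p12_20_1_114 : pfC (piC [(nat_lit 35404596), (nat_lit 22827826), (nat_lit 14696761)] (nat_lit 11809077)) p12_20_1 (nat_lit 3) (nat_lit 114) (nat_lit 115) = true := by decide +kernel
def p12_20_1_115 : pfC (piC [(nat_lit 35404596), (nat_lit 22827826), (nat_lit 14696761)] (nat_lit 11809077)) p12_20_1 (nat_lit 3) (nat_lit 115) (nat_lit 116) = true := by decide +kernel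
def p12_20_1_116 : pfC (piC [(nat_lit 35404596), (nat_lit 22827826), (nat_lit 14696761)] (nat_lit 11809077)) p12_20_1 (nat_lit 3) (nat_lit 116) (nat_lit 117) = true := by decide +kernel
def p12_20_1_117 : pfC (piC [(nat_lit 35404596), (nat_lit 22827826), (nat_lit 14696761)] (nat_lit 11809077)) p12_20_1 (nat_lit 3) (nat_lit 117) (nat_lit 118) = true := by decide +kernel
def p12_20_1_118 : pfC (piC [(nat_lit 35404596), (nat_lit 22827826), (nat_lit 14696761)] (nat_lit 11809077)) p12_20_1 (nat_lit 3) (nat_lit 118) (nat_lit 119) = true := by decide +kernel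
def p12_20_1_119 : pfC (piC [(nat_lit 35404596), (nat_lit 22827826), (nat_lit 14696761)] (nat_lit 11809077)) p12_20_1 (nat_lit 3) (nat_lit 119) (nat_lit 120) = true := by decide +kernel
def p12_20_1_120 : pfC (piC [(nat_lit 35404596), (nat_lit 22827826), (nat_lit 14696761)] (nat_lit 11809077)) p12_20_1 (nat_lit 3) (nat_lit 120) (nat_lit 121) = true := by decide +kernel
def p12_20_1_121 : pfC (piC [(nat_lit 35404596), (nat_lit 22827826), (nat_lit 14696761)] (nat_lit 11809077)) p12_20_1 (nat_lit 3) (nat_lit 121) (nat_lit 122) = true := by decide +kernel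
def p12_20_1_122 : pfC (piC [(nat_lit 35404596), (nat_lit 22827826), (nat_lit 14696761)] (nat_lit 11809077)) p12_20_1 (nat_lit 3) (nat_lit 122) (nat_lit 123) = true := by decide +kernel
def p12_20_1_123 : pfC (piC [(nat_lit 35404596), (nat_lit 22827826), (nat_lit 14696761)] (nat_lit 11809077)) p12_20_1 (nat_lit 3) (nat_lit 123) (nat_lit 124) = true := by decide +kernel
def p12_20_1_124 : pfC (piC [(nat_lit 35404596), (nat_lit 22827826), (nat_lit 14696761)] (nat_lit 11809077)) p12_20_1 (nat_lit 3) (nat_lit 124) (nat_lit 125) = true := by decide +kernel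
def p12_20_1_125 : pfC (piC [(nat_lit 35404596), (nat_lit 22827826), (nat_lit 14696761)] (nat_lit 11809077)) p12_20_1 (nat_lit 3) (nat_lit 125) (nat_lit 126) = true := by decide +kernel
def p12_20_1_126 : pfC (piC [(nat_lit 35404596), (nat_lit 22827826), (nat_lit 14696761)] (nat_lit 11809077)) p12_20_1 (nat_lit 3) (nat_lit 126) (nat_lit 127) = true := by decide +kernel
def p12_20_1_127 : pfC (piC [(nat_lit 35404596), (nat_lit 22827826), (nat_lit 14696761)] (nat_lit 11809077)) p12_20_1 (nat_lit 3) (nat_lit 127) (nat_lit 128) = true := by decide +kernel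
def p12_20_1_128 : pfC (piC [(nat_lit 35404596), (nat_lit 22827826), (nat_lit 14696761)] (nat_lit 11809077)) p12_20_1 (nat_lit 3) (nat_lit 128) (nat_lit 129) = true := by decide +kernel
def p12_20_1_129 : pfC (piC [(nat_lit 35404596), (nat_lit 22827826), (nat_lit 14696761)] (nat_lit 11809077)) p12_20_1 (nat_lit 3) (nat_lit 129) (nat_lit 130) = true := by decide +kernel
def p12_20_1_130 : pfC (piC [(nat_lit 35404596), (nat_lit 22827826), (nat_lit 14696761)] (nat_lit 11809077)) p12_20_1 (nat_lit 3) (nat_lit 130) (nat_lit 131) = true := by decide +kernel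
def p12_20_1_131 : pfC (piC [(nat_lit 35404596), (nat_lit 22827826), (nat_lit 14696761)] (nat_lit 11809077)) p12_20_1 (nat_lit 3) (nat_lit 131) (nat_lit 132) = true := by decide +kernel
def p12_20_1_132 : pfC (piC [(nat_lit 35404596), (nat_lit 22827826), (nat_lit 14696761)] (nat_lit 11809077)) p12_20_1 (nat_lit 3) (nat_lit 132) (nat_lit 133) = true := by decide +kernel
def p12_20_1_133 : pfC (piC [(nat_lit 35404596), (nat_lit 22827826), (nat_lit 14696761)] (nat_lit 11809077)) p12_20_1 (nat_lit 3) (nat_lit 133) (nat_lit 134) = true := by decide +kernel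
def p12_20_1_134 : pfC (piC [(nat_lit 35404596), (nat_lit 22827826), (nat_lit 14696761)] (nat_lit 11809077)) p12_20_1 (nat_lit 3) (nat_lit 134) (nat_lit 135) = true := by decide +kernel
def p12_20_1_135 : pfC (piC [(nat_lit 35404596), (nat_lit 22827826), (nat_lit 14696761)] (nat_lit 11809077)) p12_20_1 (nat_lit 3) (nat_lit 135) (nat_lit 136) = true := by decide +kernel
def p12_20_1_136 : pfC (piC [(nat_lit 35404596), (nat_lit 22827826), (nat_lit 14696761)] (nat_lit 11809077)) p12_20_1 (nat_lit 3) (nat_lit 136) (nat_lit 137) = true := by decide +kernel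
def p12_20_1_137 : pfC (piC [(nat_lit 35404596), (nat_lit 22827826), (nat_lit 14696761)] (nat_lit 11809077)) p12_20_1 (nat_lit 3) (nat_lit 137) (nat_lit 138) = true := by decide +kernel
def p12_20_1_138 : pfC (piC [(nat_lit 35404596), (nat_lit 22827826), (nat_lit 14696761)] (nat_lit 11809077)) p12_20_1 (nat_lit 3) (nat_lit 138) (nat_lit 139) = true := by decide +kernel
def p12_20_1_139 : pfC (piC [(nat_lit 35404596), (nat_lit 22827826), (nat_lit 14696761)] (nat_lit 11809077)) p12_20_1 (nat_lit 3) (nat_lit 139) (nat_lit 140) = true := by decide +kernel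
def p12_20_1_140 : pfC (piC [(nat_lit 35404596), (nat_lit 22827826), (nat_lit 14696761)] (nat_lit 11809077)) p12_20_1 (nat_lit 3) (nat_lit 140) (nat_lit 141) = true := by decide +kernel
def p12_20_1_141 : pfC (piC [(nat_lit 35404596), (nat_lit 22827826), (nat_lit 14696761)] (nat_lit 11809077)) p12_20_1 (nat_lit 3) (nat_lit 141) (nat_lit 142) = true := by decide +kernel
def p12_20_1_142 : pfC (piC [(nat_lit 35404596), (nat_lit 22827826), (nat_lit 14696761)] (nat_lit 11809077)) p12_20_1 (nat_lit 3) (nat_lit 142) (nat_lit 143) = true := by decide +kernel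
def p12_20_1_143 : pfC (piC [(nat_lit 35404596), (nat_lit 22827826), (nat_lit 14696761)] (nat_lit 11809077)) p12_20_1 (nat_lit 3) (nat_lit 143) (nat_lit 144) = true := by decide +kernel
def p12_20_1_144 : pfC (piC [(nat_lit 35404596), (nat_lit 22827826), (nat_lit 14696761)] (nat_lit 11809077)) p12_20_1 (nat_lit 3) (nat_lit 144) (nat_lit 145) = true := by decide +kernel
def p12_20_1_145 : pfC (piC [(nat_lit 35404596), (nat_lit 22827826), (nat_lit 14696761)] (nat_lit 11809077)) p12_20_1 (nat_lit 3) (nat_lit 145) (nat_lit 146) = true := by decide +kernel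
def p12_20_1_146 : pfC (piC [(nat_lit 35404596), (nat_lit 22827826), (nat_lit 14696761)] (nat_lit 11809077)) p12_20_1 (nat_lit 3) (nat_lit 146) (nat_lit 147) = true := by decide +kernel
def p12_20_1_147 : pfC (piC [(nat_lit 35404596), (nat_lit 22827826), (nat_lit 14696761)] (nat_lit 11809077)) p12_20_1 (nat_lit 3) (nat_lit 147) (nat_lit 148) = true := by decide +kernel
def p12_20_1_148 : pfC (piC [(nat_lit 35404596), (nat_lit 22827826), (nat_lit 14696761)] (nat_lit 11809077)) p12_20_1 (nat_lit 3) (nat_lit 148) (nat_lit 149) = true := by decide +kernel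
def p12_20_1_149 : pfC (piC [(nat_lit 35404596), (nat_lit 22827826), (nat_lit 14696761)] (nat_lit 11809077)) p12_20_1 (nat_lit 3) (nat_lit 149) (nat_lit 150) = true := by decide +kernel
def p12_20_1_150 : pfC (piC [(nat_lit 35404596), (nat_lit 22827826), (nat_lit 14696761)] (nat_lit 11809077)) p12_20_1 (nat_lit 3) (nat_lit 150) (nat_lit 151) = true := by decide +kernel
def p12_20_1_151 : pfC (piC [(nat_lit 35404596), (nat_lit 22827826), (nat_lit 14696761)] (nat_lit 11809077)) p12_20_1 (nat_lit 3) (nat_lit 151) (nat_lit 152) = true := by decide +kernel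
def p12_20_1_152 : pfC (piC [(nat_lit 35404596), (nat_lit 22827826), (nat_lit 14696761)] (nat_lit 11809077)) p12_20_1 (nat_lit 3) (nat_lit 152) (nat_lit 153) = true := by decide +kernel
def p12_20_1_153 : pfC (piC [(nat_lit 35404596), (nat_lit 22827826), (nat_lit 14696761)] (nat_lit 11809077)) p12_20_1 (nat_lit 3) (nat_lit 153) (nat_lit 154) = true := by decide +kernel
def p12_20_1_154 : pfC (piC [(nat_lit 35404596), (nat_lit 22827826), (nat_lit 14696761)] (nat_lit 11809077)) p12_20_1 (nat_lit 3) (nat_lit 154) (nat_lit 155) = true := by decide +kernel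
def p12_20_1_155 : pfC (piC [(nat_lit 35404596), (nat_lit 22827826), (nat_lit 14696761)] (nat_lit 11809077)) p12_20_1 (nat_lit 3) (nat_lit 155) (nat_lit 156) = true := by decide +kernel
def p12_20_1_156 : pfC (piC [(nat_lit 35404596), (nat_lit 22827826), (nat_lit 14696761)] (nat_lit 11809077)) p12_20_1 (nat_lit 3) (nat_lit 156) (nat_lit 157) = true := by decide +kernel
def p12_20_1_157 : pfC (piC [(nat_lit 35404596), (nat_lit 22827826), (nat_lit 14696761)] (nat_lit 11809077)) p12_20_1 (nat_lit 3) (nat_lit 157) (nat_lit 158) = true := by decide +kernel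
def p12_20_1_158 : pfC (piC [(nat_lit 35404596), (nat_lit 22827826), (nat_lit 14696761)] (nat_lit 11809077)) p12_20_1 (nat_lit 3) (nat_lit 158) (nat_lit 159) = true := by decide +kernel
def p12_20_1_159 : pfC (piC [(nat_lit 35404596), (nat_lit 22827826), (nat_lit 14696761)] (nat_lit 11809077)) p12_20_1 (nat_lit 3) (nat_lit 159) (nat_lit 160) = true := by decide +kernel
def p12_20_1_160 : pfC (piC [(nat_lit 35404596), (nat_lit 22827826), (nat_lit 14696761)] (nat_lit 11809077)) p12_20_1 (nat_lit 3) (nat_lit 160) (nat_lit 161) = true := by decide +kernel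
def p12_20_1_161 : pfC (piC [(nat_lit 35404596), (nat_lit 22827826), (nat_lit 14696761)] (nat_lit 11809077)) p12_20_1 (nat_lit 3) (nat_lit 161) (nat_lit 162) = true := by decide +kernel
def p12_20_1_162 : pfC (piC [(nat_lit 35404596), (nat_lit 22827826), (nat_lit 14696761)] (nat_lit 11809077)) p12_20_1 (nat_lit 3) (nat_lit 162) (nat_lit 163) = true := by decide +kernel
def p12_20_1_163 : pfC (piC [(nat_lit 35404596), (nat_lit 22827826), (nat_lit 14696761)] (nat_lit 11809077)) p12_20_1 (nat_lit 3) (nat_lit 163) (nat_lit 164) = true := by decide +kernel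
def p12_20_1_164 : pfC (piC [(nat_lit 35404596), (nat_lit 22827826), (nat_lit 14696761)] (nat_lit 11809077)) p12_20_1 (nat_lit 3) (nat_lit 164) (nat_lit 165) = true := by decide +kernel
def p12_20_1_165 : pfC (piC [(nat_lit 35404596), (nat_lit 22827826), (nat_lit 14696761)] (nat_lit 11809077)) p12_20_1 (nat_lit 3) (nat_lit 165) (nat_lit 166) = true := by decide +kernel
def p12_20_1_166 : pfC (piC [(nat_lit 35404596), (nat_lit 22827826), (nat_lit 14696761)] (nat_lit 11809077)) p12_20_1 (nat_lit 3) (nat_lit 166) (nat_lit 167) = true := by decide +kernel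
def p12_20_1_167 : pfC (piC [(nat_lit 35404596), (nat_lit 22827826), (nat_lit 14696761)] (nat_lit 11809077)) p12_20_1 (nat_lit 3) (nat_lit 167) (nat_lit 168) = true := by decide +kernel
def p12_20_1_168 : pfC (piC [(nat_lit 35404596), (nat_lit 22827826), (nat_lit 14696761)] (nat_lit 11809077)) p12_20_1 (nat_lit 3) (nat_lit 168) (nat_lit 169) = true := by decide +kernel
def p12_20_1_169 : pfC (piC [(nat_lit 35404596), (nat_lit 22827826), (nat_lit 14696761)] (nat_lit 11809077)) p12_20_1 (nat_lit 3) (nat_lit 169) (nat_lit 170) = true := by decide +kernel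
def p12_20_1_170 : pfC (piC [(nat_lit 35404596), (nat_lit 22827826), (nat_lit 14696761)] (nat_lit 11809077)) p12_20_1 (nat_lit 3) (nat_lit 170) (nat_lit 171) = true := by decide +kernel
def p12_20_1_171 : pfC (piC [(nat_lit 35404596), (nat_lit 22827826), (nat_lit 14696761)] (nat_lit 11809077)) p12_20_1 (nat_lit 3) (nat_lit 171) (nat_lit 172) = true := by decide +kernel
def p12_20_1_172 : pfC (piC [(nat_lit 35404596), (nat_lit 22827826), (nat_lit 14696761)] (nat_lit 11809077)) p12_20_1 (nat_lit 3) (nat_lit 172) (nat_lit 173) = true := by decide +kernel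
def p12_20_1_173 : pfC (piC [(nat_lit 35404596), (nat_lit 22827826), (nat_lit 14696761)] (nat_lit 11809077)) p12_20_1 (nat_lit 3) (nat_lit 173) (nat_lit 174) = true := by decide +kernel
def p12_20_1_174 : pfC (piC [(nat_lit 35404596), (nat_lit 22827826), (nat_lit 14696761)] (nat_lit 11809077)) p12_20_1 (nat_lit 3) (nat_lit 174) (nat_lit 175) = true := by decide +kernel
def p12_20_1_175 : pfC (piC [(nat_lit 35404596), (nat_lit 22827826), (nat_lit 14696761)] (nat_lit 11809077)) p12_20_1 (nat_lit 3) (nat_lit 175) (nat_lit 176) = true := by decide +kernel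
def p12_20_1_176 : pfC (piC [(nat_lit 35404596), (nat_lit 22827826), (nat_lit 14696761)] (nat_lit 11809077)) p12_20_1 (nat_lit 3) (nat_lit 176) (nat_lit 177) = true := by decide +kernel
def p12_20_1_177 : pfC (piC [(nat_lit 35404596), (nat_lit 22827826), (nat_lit 14696761)] (nat_lit 11809077)) p12_20_1 (nat_lit 3) (nat_lit 177) (nat_lit 178) = true := by decide +kernel
def p12_20_1_178 : pfC (piC [(nat_lit 35404596), (nat_lit 22827826), (nat_lit 14696761)] (nat_lit 11809077)) p12_20_1 (nat_lit 3) (nat_lit 178) (nat_lit 179) = true := by decide +kernel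
def p12_20_1_179 : pfC (piC [(nat_lit 35404596), (nat_lit 22827826), (nat_lit 14696761)] (nat_lit 11809077)) p12_20_1 (nat_lit 3) (nat_lit 179) (nat_lit 180) = true := by decide +kernel
def p12_20_1_180 : pfC (piC [(nat_lit 35404596), (nat_lit 22827826), (nat_lit 14696761)] (nat_lit 11809077)) p12_20_1 (nat_lit 3) (nat_lit 180) (nat_lit 181) = true := by decide +kernel
def p12_20_1_181 : pfC (piC [(nat_lit 35404596), (nat_lit 22827826), (nat_lit 14696761)] (nat_lit 11809077)) p12_20_1 (nat_lit 3) (nat_lit 181) (nat_lit 182) = true := by decide +kernel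
def p12_20_1_182 : pfC (piC [(nat_lit 35404596), (nat_lit 22827826), (nat_lit 14696761)] (nat_lit 11809077)) p12_20_1 (nat_lit 3) (nat_lit 182) (nat_lit 183) = true := by decide +kernel
def p12_20_1_183 : pfC (piC [(nat_lit 35404596), (nat_lit 22827826), (nat_lit 14696761)] (nat_lit 11809077)) p12_20_1 (nat_lit 3) (nat_lit 183) (nat_lit 184) = true := by decide +kernel
def p12_20_1_184 : pfC (piC [(nat_lit 35404596), (nat_lit 22827826), (nat_lit 14696761)] (nat_lit 11809077)) p12_20_1 (nat_lit 3) (nat_lit 184) (nat_lit 185) = true := by decide +kernel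
def p12_20_1_185 : pfC (piC [(nat_lit 35404596), (nat_lit 22827826), (nat_lit 14696761)] (nat_lit 11809077)) p12_20_1 (nat_lit 3) (nat_lit 185) (nat_lit 186) = true := by decide +kernel
def p12_20_1_186 : pfC (piC [(nat_lit 35404596), (nat_lit 22827826), (nat_lit 14696761)] (nat_lit 11809077)) p12_20_1 (nat_lit 3) (nat_lit 186) (nat_lit 187) = true := by decide +kernel
def p12_20_1_187 : pfC (piC [(nat_lit 35404596), (nat_lit 22827826), (nat_lit 14696761)] (nat_lit 11809077)) p12_20_1 (nat_lit 3) (nat_lit 187) (nat_lit 188) = true := by decide +kernel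
def p12_20_1_188 : pfC (piC [(nat_lit 35404596), (nat_lit 22827826), (nat_lit 14696761)] (nat_lit 11809077)) p12_20_1 (nat_lit 3) (nat_lit 188) (nat_lit 189) = true := by decide +kernel
def p12_20_1_189 : pfC (piC [(nat_lit 35404596), (nat_lit 22827826), (nat_lit 14696761)] (nat_lit 11809077)) p12_20_1 (nat_lit 3) (nat_lit 189) (nat_lit 190) = true := by decide +kernel
def p12_20_1_190 : pfC (piC [(nat_lit 35404596), (nat_lit 22827826), (nat_lit 14696761)] (nat_lit 11809077)) p12_20_1 (nat_lit 3) (nat_lit 190) (nat_lit 191) = true := by decide +kernel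
def p12_20_1_191 : pfC (piC [(nat_lit 35404596), (nat_lit 22827826), (nat_lit 14696761)] (nat_lit 11809077)) p12_20_1 (nat_lit 3) (nat_lit 191) (nat_lit 192) = true := by decide +kernel
def p12_20_1_192 : pfC (piC [(nat_lit 35404596), (nat_lit 22827826), (nat_lit 14696761)] (nat_lit 11809077)) p12_20_1 (nat_lit 3) (nat_lit 192) (nat_lit 193) = true := by decide +kernel
def p12_20_1_193 : pfC (piC [(nat_lit 35404596), (nat_lit 22827826), (nat_lit 14696761)] (nat_lit 11809077)) p12_20_1 (nat_lit 3) (nat_lit 193) (nat_lit 194) = true := by decide +kernel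
def p12_20_1_194 : pfC (piC [(nat_lit 35404596), (nat_lit 22827826), (nat_lit 14696761)] (nat_lit 11809077)) p12_20_1 (nat_lit 3) (nat_lit 194) (nat_lit 195) = true := by decide +kernel
def p12_20_1_195 : pfC (piC [(nat_lit 35404596), (nat_lit 22827826), (nat_lit 14696761)] (nat_lit 11809077)) p12_20_1 (nat_lit 3) (nat_lit 195) (nat_lit 196) = true := by decide +kernel
def p12_20_1_196 : pfC (piC [(nat_lit 35404596), (nat_lit 22827826), (nat_lit 14696761)] (nat_lit 11809077)) p12_20_1 (nat_lit 3) (nat_lit 196) (nat_lit 197) = true := by decide +kernel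
def p12_20_1_197 : pfC (piC [(nat_lit 35404596), (nat_lit 22827826), (nat_lit 14696761)] (nat_lit 11809077)) p12_20_1 (nat_lit 3) (nat_lit 197) (nat_lit 198) = true := by decide +kernel
def p12_20_1_198 : pfC (piC [(nat_lit 35404596), (nat_lit 22827826), (nat_lit 14696761)] (nat_lit 11809077)) p12_20_1 (nat_lit 3) (nat_lit 198) (nat_lit 199) = true := by decide +kernel
def p12_20_1_199 : pfC (piC [(nat_lit 35404596), (nat_lit 22827826), (nat_lit 14696761)] (nat_lit 11809077)) p12_20_1 (nat_lit 3) (nat_lit 199) (nat_lit 200) = true := by decide +kernel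
def p12_20_1_200 : pfC (piC [(nat_lit 35404596), (nat_lit 22827826), (nat_lit 14696761)] (nat_lit 11809077)) p12_20_1 (nat_lit 3) (nat_lit 200) (nat_lit 201) = true := by decide +kernel
def p12_20_1_201 : pfC (piC [(nat_lit 35404596), (nat_lit 22827826), (nat_lit 14696761)] (nat_lit 11809077)) p12_20_1 (nat_lit 3) (nat_lit 201) (nat_lit 202) = true := by decide +kernel
theorem p12_20_1_T : PfS (PiF n12_20.reverse (nat_lit 11809077)) p12_20_1 (nat_lit 3) [] 0 :=
  pftab_of (los := [(nat_lit 35404596), (nat_lit 22827826), (nat_lit 14696761)]) (by decide +kernel) (hi := (nat_lit 202)) (PfP.trans (PfP.trans (PfP.trans (PfP.trans (PfP.trans (PfP.trans (PfP.trans (PfP.trans (PfP.trans (PfP.trans (PfP.trans (PfP.trans (PfP.trans (PfP.trans (PfP.trans (PfP.trans (PfP.trans (PfP.trans (PfP.trans (PfP.trans (PfP.trans (PfP.trans (PfP.trans (PfP.trans (PfP.trans (PfP.trans (PfP.trans (PfP.trans (PfP.trans (PfP.trans (PfP.trans (PfP.trans (PfP.trans (PfP.trans (PfP.trans (PfP.trans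 (PfP.trans (PfP.trans (PfP.trans (PfP.trans (PfP.trans (PfP.trans (PfP.trans (PfP.trans (PfP.trans (PfP.trans (PfP.trans (PfP.trans (PfP.trans (PfP.trans (PfP.trans (PfP.trans (PfP.trans (PfP.trans (PfP.trans (PfP.trans (PfP.trans (PfP.trans (PfP.trans (PfP.trans (PfP.trans (PfP.trans (PfP.trans (PfP.trans (PfP.trans (PfP.trans (PfP.trans (PfP.trans (PfP.trans (PfP.trans (PfP.trans (PfP.trans (PfP.trans (PfP.trans (PfP.trans (PfP.trans (PfP.trans (PfP.trans (PfP.trans (PfP.trans (PfP.trans (PfP.trans (PfP.trans (PfP.trans (PfP.trans (PfP.trans (PfP.trans (PfP.trans (PfP.trans (PfP.trans (PfP.trans (PfP.trans (PfP.trans (PfP.trans (PfP.trans (PfP.trans (PfP.trans (PfP.trans (PfP.trans (PfP.trans (PfP.trans (PfP.trans (PfP.trans (PfP.trans (PfP.trans (PfP.trans (PfP.trans (PfP.trans (PfP.trans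
 (PfP.trans (PfP.trans (PfP.trans (PfP.trans (PfP.trans (PfP.trans (PfP.trans (PfP.trans (PfP.trans (PfP.trans (PfP.trans (PfP.trans (PfP.trans (PfP.trans (PfP.trans (PfP.trans (PfP.trans (PfP.trans (PfP.trans (PfP.trans (PfP.trans (PfP.trans (PfP.trans (PfP.trans (PfP.trans (PfP.trans (PfP.trans (PfP.trans (PfP.trans (PfP.trans (PfP.trans (PfP.trans (PfP.trans (PfP.trans (PfP.trans (PfP.trans (PfP.trans (PfP.trans (PfP.trans (PfP.trans (PfP.trans (PfP.trans (PfP.trans (PfP.trans (PfP.trans (PfP.trans (PfP.trans (PfP.trans (PfP.trans (PfP.trans (PfP.trans (PfP.trans (PfP.trans (PfP.trans (PfP.trans (PfP.trans (PfP.trans (PfP.trans (PfP.trans (PfP.trans (PfP.trans (PfP.trans (PfP.trans (PfP.trans (PfP.trans (PfP.trans (PfP.trans (PfP.trans (PfP.trans (PfP.trans (PfP.trans (PfP.trans (PfP.trans (PfP.trans (PfP.trans (PfP.trans (PfP.trans (PfP.trans (PfP.trans (PfP.trans (PfP.trans (PfP.trans (PfP.trans (PfP.trans (PfP.trans (PfP.trans (PfP.trans (PfP.trans (PfP.trans (PfP.trans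 (PfP.trans (PfP.trans (pfC_sound p12_20_1_0) (pfC_sound p12_20_1_1)) (pfC_sound p12_20_1_2)) (pfC_sound p12_20_1_3)) (pfC_sound p12_20_1_4)) (pfC_sound p12_20_1_5)) (pfC_sound p12_20_1_6)) (pfC_sound
 p12_20_1_7)) (pfC_sound p12_20_1_8)) (pfC_sound p12_20_1_9)) (pfC_sound p12_20_1_10)) (pfC_sound p12_20_1_11)) (pfC_sound p12_20_1_12)) (pfC_sound p12_20_1_13)) (pfC_sound p12_20_1_14)) (pfC_sound p12_20_1_15)) (pfC_sound p12_20_1_16)) (pfC_sound p12_20_1_17)) (pfC_sound p12_20_1_18)) (pfC_sound p12_20_1_19)) (pfC_sound p12_20_1_20)) (pfC_sound p12_20_1_21)) (pfC_sound p12_20_1_22)) (pfC_sound p12_20_1_23)) (pfC_sound p12_20_1_24)) (pfC_sound p12_20_1_25)) (pfC_sound p12_20_1_26)) (pfC_sound p12_20_1_27)) (pfC_sound p12_20_1_28)) (pfC_sound p12_20_1_29)) (pfC_sound p12_20_1_30)) (pfC_sound p12_20_1_31)) (pfC_sound p12_20_1_32)) (pfC_sound p12_20_1_33)) (pfC_sound p12_20_1_34)) (pfC_sound p12_20_1_35)) (pfC_sound p12_20_1_36)) (pfC_sound p12_20_1_37)) (pfC_sound p12_20_1_38))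 (pfC_sound p12_20_1_39)) (pfC_sound p12_20_1_40)) (pfC_sound p12_20_1_41)) (pfC_sound p12_20_1_42)) (pfC_sound p12_20_1_43)) (pfC_sound p12_20_1_44)) (pfC_sound p12_20_1_45)) (pfC_sound p12_20_1_46)) (pfC_sound p12_20_1_47)) (pfC_sound p12_20_1_48)) (pfC_sound p12_20_1_49)) (pfC_sound p12_20_1_50)) (pfC_sound p12_20_1_51)) (pfC_sound p12_20_1_52)) (pfC_sound p12_20_1_53)) (pfC_sound p12_20_1_54)) (pfC_sound
 p12_20_1_55)) (pfC_sound p12_20_1_56)) (pfC_sound p12_20_1_57)) (pfC_sound p12_20_1_58)) (pfC_sound p12_20_1_59)) (pfC_sound p12_20_1_60)) (pfC_sound p12_20_1_61)) (pfC_sound p12_20_1_62)) (pfC_sound p12_20_1_63)) (pfC_sound p12_20_1_64)) (pfC_sound p12_20_1_65)) (pfC_sound p12_20_1_66)) (pfC_sound p12_20_1_67)) (pfC_sound p12_20_1_68)) (pfC_sound p12_20_1_69)) (pfC_sound p12_20_1_70)) (pfC_sound p12_20_1_71)) (pfC_sound p12_20_1_72)) (pfC_sound p12_20_1_73)) (pfC_sound p12_20_1_74)) (pfC_sound p12_20_1_75)) (pfC_sound p12_20_1_76)) (pfC_sound p12_20_1_77)) (pfC_sound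 p12_20_1_78)) (pfC_sound p12_20_1_79)) (pfC_sound p12_20_1_80)) (pfC_sound p12_20_1_81)) (pfC_sound p12_20_1_82)) (pfC_sound p12_20_1_83)) (pfC_sound p12_20_1_84)) (pfC_sound p12_20_1_85)) (pfC_sound p12_20_1_86)) (pfC_sound p12_20_1_87)) (pfC_sound p12_20_1_88)) (pfC_sound p12_20_1_89)) (pfC_sound p12_20_1_90)) (pfC_sound p12_20_1_91)) (pfC_sound p12_20_1_92)) (pfC_sound p12_20_1_93)) (pfC_sound p12_20_1_94)) (pfC_sound p12_20_1_95)) (pfC_sound p12_20_1_96)) (pfC_sound p12_20_1_97)) (pfC_sound p12_20_1_98)) (pfC_sound p12_20_1_99)) (pfC_sound p12_20_1_100)) (pfC_sound p12_20_1_101)) (pfC_sound p12_20_1_102))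
 (pfC_sound p12_20_1_103)) (pfC_sound p12_20_1_104)) (pfC_sound p12_20_1_105)) (pfC_sound p12_20_1_106)) (pfC_sound p12_20_1_107)) (pfC_sound p12_20_1_108)) (pfC_sound p12_20_1_109)) (pfC_sound p12_20_1_110)) (pfC_sound p12_20_1_111)) (pfC_sound p12_20_1_112)) (pfC_sound p12_20_1_113)) (pfC_sound p12_20_1_114)) (pfC_sound p12_20_1_115)) (pfC_sound p12_20_1_116)) (pfC_sound p12_20_1_117)) (pfC_sound p12_20_1_118)) (pfC_sound p12_20_1_119)) (pfC_sound p12_20_1_120)) (pfC_sound p12_20_1_121)) (pfC_sound p12_20_1_122)) (pfC_sound p12_20_1_123)) (pfC_sound p12_20_1_124)) (pfC_sound p12_20_1_125)) (pfC_sound p12_20_1_126)) (pfC_sound p12_20_1_127)) (pfC_sound p12_20_1_128)) (pfC_sound p12_20_1_129)) (pfC_sound p12_20_1_130)) (pfC_sound p12_20_1_131)) (pfC_sound p12_20_1_132)) (pfC_sound p12_20_1_133)) (pfC_sound p12_20_1_134)) (pfC_sound p12_20_1_135)) (pfC_sound p12_20_1_136)) (pfC_sound p12_20_1_137)) (pfC_sound p12_20_1_138)) (pfC_sound p12_20_1_139)) (pfC_sound p12_20_1_140))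 (pfC_sound p12_20_1_141)) (pfC_sound p12_20_1_142)) (pfC_sound p12_20_1_143)) (pfC_sound p12_20_1_144)) (pfC_sound p12_20_1_145)) (pfC_sound p12_20_1_146)) (pfC_sound p12_20_1_147)) (pfC_sound p12_20_1_148))
 (pfC_sound p12_20_1_149)) (pfC_sound p12_20_1_150)) (pfC_sound p12_20_1_151)) (pfC_sound p12_20_1_152)) (pfC_sound p12_20_1_153)) (pfC_sound p12_20_1_154)) (pfC_sound p12_20_1_155)) (pfC_sound p12_20_1_156)) (pfC_sound p12_20_1_157)) (pfC_sound p12_20_1_158)) (pfC_sound p12_20_1_159)) (pfC_sound p12_20_1_160)) (pfC_sound p12_20_1_161)) (pfC_sound p12_20_1_162)) (pfC_sound p12_20_1_163)) (pfC_sound p12_20_1_164)) (pfC_sound p12_20_1_165)) (pfC_sound p12_20_1_166)) (pfC_sound p12_20_1_167)) (pfC_sound p12_20_1_168)) (pfC_sound p12_20_1_169)) (pfC_sound p12_20_1_170)) (pfC_sound p12_20_1_171)) (pfC_sound p12_20_1_172)) (pfC_sound p12_20_1_173)) (pfC_sound p12_20_1_174)) (pfC_sound p12_20_1_175)) (pfC_sound p12_20_1_176)) (pfC_sound p12_20_1_177)) (pfC_sound p12_20_1_178))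 (pfC_sound p12_20_1_179)) (pfC_sound p12_20_1_180)) (pfC_sound p12_20_1_181)) (pfC_sound p12_20_1_182)) (pfC_sound p12_20_1_183)) (pfC_sound p12_20_1_184)) (pfC_sound p12_20_1_185)) (pfC_sound p12_20_1_186)) (pfC_sound p12_20_1_187)) (pfC_sound p12_20_1_188)) (pfC_sound p12_20_1_189)) (pfC_sound p12_20_1_190)) (pfC_sound p12_20_1_191)) (pfC_sound p12_20_1_192)) (pfC_sound p12_20_1_193)) (pfC_sound p12_20_1_194))
 (pfC_sound p12_20_1_195)) (pfC_sound p12_20_1_196)) (pfC_sound p12_20_1_197)) (pfC_sound p12_20_1_198)) (pfC_sound p12_20_1_199)) (pfC_sound p12_20_1_200)) (pfC_sound p12_20_1_201)) (by decide +kernel)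

def z12_20_1 : zOK yB12_20 (nat_lit 1) (nat_lit 400) (nat_lit 600) (nat_lit 11809077) (nat_lit 7787052) = true := by decide +kernel
def g12_20_1 : gOK yB12_20.x P12_20 (nat_lit 1367) (q12_20 :: r12_20) (nat_lit 1) (nat_lit 400) (nat_lit 2) (nat_lit 600) (nat_lit 11000000) (nat_lit 17850000) (nat_lit 12712500) (nat_lit 12712500) [(nat_lit 800), (nat_lit 1600)] = true := by decide +kernel
def v12_20_1 : ivC P12_20 s12_20 w12_20 n12_20 (nat_lit 3) (nat_lit 4860) (nat_lit 1) (nat_lit 400) f184_0_400 f192_0_400 (nat_lit 2) (nat_lit 600) f184_0_600 f192_0_600 (nat_lit 11809077) (nat_lit 7787052) p12_20_1 = true := by decide +kernel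
def p12_20_2 : PF := (PF.cons (PF.cons (PF.cons (PF.leaf (nat_lit 2311005) (nat_lit 11678180) (nat_lit 55430632) (nat_lit 11678180) [(nat_lit 0), (nat_lit 0), (nat_lit 0)]) (PF.cons (PF.leaf (nat_lit 2555288) (nat_lit 455485) (nat_lit 54958438) (nat_lit 11694888) [(nat_lit 455485), (nat_lit 0), (nat_lit 0)]) (PF.cons (PF.leaf (nat_lit 2841923) (nat_lit 494722) (nat_lit 54409606) (nat_lit 11709761) [(nat_lit 494722), (nat_lit 0), (nat_lit 0)]) (PF.cons (PF.leaf (nat_lit 3162586) (nat_lit 529160) (nat_lit 53800467) (nat_lit 11720863) [(nat_lit 529160), (nat_lit 0), (nat_lit 0)]) (PF.cons (PF.leaf (nat_lit 3511670) (nat_lit 559774) (nat_lit 53142915) (nat_lit 11726799) [(nat_lit 559774), (nat_lit 0), (nat_lit 0)]) (PF.cons (PF.leaf (nat_lit 3884728) (nat_lit 587182) (nat_lit 52446318) (nat_lit 11726581) [(nat_lit 587182), (nat_lit 0), (nat_lit 0)]) (PF.cons (PF.leaf (nat_lit 4278067) (nat_lit 611809) (nat_lit 51718403) (nat_lit 11719549) [(nat_lit 611809), (nat_lit 0),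 (nat_lit 0)]) (PF.cons (PF.leaf (nat_lit 4688504) (nat_lit 633969) (nat_lit 50965720) (nat_lit 11705307) [(nat_lit 633969), (nat_lit 0), (nat_lit 0)]) (PF.cons (PF.leaf (nat_lit 5113215) (nat_lit 653902) (nat_lit 50193917) (nat_lit
 11683673) [(nat_lit 653902), (nat_lit 0), (nat_lit 0)]) (PF.cons (PF.leaf (nat_lit 5549727) (nat_lit 671807) (nat_lit 49407911) (nat_lit 11654638) [(nat_lit 671807), (nat_lit 0), (nat_lit 0)]) (PF.cons (PF.leaf (nat_lit 5995794) (nat_lit 687847) (nat_lit 48612004) (nat_lit 11618329) [(nat_lit 687847), (nat_lit 0), (nat_lit 0)]) (PF.cons (PF.leaf (nat_lit 6449435) (nat_lit 702169) (nat_lit 47809970) (nat_lit 11574980) [(nat_lit 702169), (nat_lit 0), (nat_lit 0)]) (PF.cons (PF.leaf (nat_lit 6908807) (nat_lit 714899) (nat_lit 47005112) (nat_lit 11524902) [(nat_lit 714899), (nat_lit 0), (nat_lit 0)]) (PF.cons (PF.leaf (nat_lit 7372308) (nat_lit 726155) (nat_lit 46200323) (nat_lit 11468467) [(nat_lit 726155), (nat_lit 0), (nat_lit 0)]) (PF.cons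 (PF.leaf (nat_lit 7838469) (nat_lit 736043) (nat_lit 45398120) (nat_lit 11406085) [(nat_lit 736043), (nat_lit 0), (nat_lit 0)]) (PF.cons PF.nil (PF.cons PF.nil (PF.cons PF.nil PF.nil)))))))))))))))))) (PF.cons (PF.cons (PF.leaf (nat_lit 3135846) (nat_lit 2169517) (nat_lit 53228412) (nat_lit 11710883) [(nat_lit 0), (nat_lit 2169517), (nat_lit 0)]) (PF.cons (PF.leaf (nat_lit 3446373) (nat_lit 546314) (nat_lit 52632910) (nat_lit 11711987) [(nat_lit
 546314), (nat_lit 2217601), (nat_lit 0)]) (PF.cons (PF.leaf (nat_lit 3787226) (nat_lit 575241) (nat_lit 51987030) (nat_lit 11707881) [(nat_lit 575241), (nat_lit 2263417), (nat_lit 0)]) (PF.cons (PF.leaf (nat_lit 4152656) (nat_lit 600958) (nat_lit 51302050) (nat_lit 11697755) [(nat_lit 600958), (nat_lit 2306131), (nat_lit 0)]) (PF.cons (PF.leaf (nat_lit 4538477) (nat_lit 623946) (nat_lit 50586589) (nat_lit 11681098) [(nat_lit 623946), (nat_lit 2345338), (nat_lit 0)]) (PF.cons (PF.leaf (nat_lit 4941256) (nat_lit 644542) (nat_lit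 49847597) (nat_lit 11657634) [(nat_lit 644542), (nat_lit 2380866), (nat_lit 0)]) (PF.cons (PF.leaf (nat_lit 5358065) (nat_lit 662999) (nat_lit 49090861) (nat_lit 11627271) [(nat_lit 662999), (nat_lit 2412685), (nat_lit 0)]) (PF.cons (PF.leaf (nat_lit 5786371) (nat_lit 679515) (nat_lit 48321294) (nat_lit 11590065) [(nat_lit 679515), (nat_lit 2440844), (nat_lit 0)]) (PF.cons (PF.leaf (nat_lit 6223945) (nat_lit 694258) (nat_lit 47543113) (nat_lit 11546186) [(nat_lit 694258), (nat_lit 2465448), (nat_lit 0)]) (PF.cons (PF.leaf (nat_lit 6668783) (nat_lit 707369) (nat_lit 46759961) (nat_lit 11495888) [(nat_lit 707369), (nat_lit 2486636), (nat_lit 0)]) (PF.cons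
 (PF.leaf (nat_lit 7119115) (nat_lit 718975) (nat_lit 45974994) (nat_lit 11439493) [(nat_lit 718975), (nat_lit 2504566), (nat_lit 0)]) (PF.cons (PF.leaf (nat_lit 7573373) (nat_lit 729190) (nat_lit 45190943) (nat_lit 11377367) [(nat_lit 729190), (nat_lit 2519409), (nat_lit 0)]) (PF.cons (PF.leaf (nat_lit 8030160) (nat_lit 738115) (nat_lit 44410169) (nat_lit 11309908) [(nat_lit 738115), (nat_lit 2531344), (nat_lit 0)]) (PF.cons (PF.leaf (nat_lit 8488216) (nat_lit 745848) (nat_lit 43634704) (nat_lit 11237530) [(nat_lit 745848), (nat_lit 2540549), (nat_lit 0)]) (PF.cons PF.nil (PF.cons PF.nil PF.nil)))))))))))))))) (PF.cons (PF.cons (PF.leaf (nat_lit 4061978) (nat_lit 2305484) (nat_lit 50824845) (nat_lit 11672997) [(nat_lit 0), (nat_lit 2305484), (nat_lit 0)]) (PF.cons (PF.leaf (nat_lit 4416961) (nat_lit 611845) (nat_lit 50159197) (nat_lit 11654248) [(nat_lit 611845), (nat_lit 2341760), (nat_lit 0)]) (PF.cons (PF.leaf (nat_lit 4793516) (nat_lit 633586) (nat_lit 49462004)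 (nat_lit 11629223) [(nat_lit 633586), (nat_lit 2375206), (nat_lit 0)]) (PF.cons (PF.leaf (nat_lit 5187412) (nat_lit 652925) (nat_lit 48741215) (nat_lit 11597759) [(nat_lit 652925), (nat_lit 2405530), (nat_lit 0)])
 (PF.cons (PF.leaf (nat_lit 5595454) (nat_lit 670155) (nat_lit 48003101) (nat_lit 11559848) [(nat_lit 670155), (nat_lit 2432620), (nat_lit 0)]) (PF.cons (PF.leaf (nat_lit 6014962) (nat_lit 685495) (nat_lit 47252788) (nat_lit 11515602) [(nat_lit 685495), (nat_lit 2456471), (nat_lit 0)]) (PF.cons (PF.leaf (nat_lit 6443627) (nat_lit 699122) (nat_lit 46494558) (nat_lit 11465227) [(nat_lit 699122), (nat_lit 2477147), (nat_lit 0)]) (PF.cons (PF.leaf (nat_lit 6879434) (nat_lit 711183) (nat_lit 45732031) (nat_lit 11408997) [(nat_lit 711183), (nat_lit 2494751), (nat_lit 0)]) (PF.cons (PF.leaf (nat_lit 7320630) (nat_lit 721806) (nat_lit 44968293) (nat_lit 11347238) [(nat_lit 721806), (nat_lit 2509412), (nat_lit 0)]) (PF.cons (PF.leaf (nat_lit 7765664) (nat_lit 731106)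 (nat_lit 44205981) (nat_lit 11280311) [(nat_lit 731106), (nat_lit 2521279), (nat_lit 0)]) (PF.cons (PF.leaf (nat_lit 8213149) (nat_lit 739184) (nat_lit 43447349) (nat_lit 11208600) [(nat_lit 739184), (nat_lit 2530507), (nat_lit 0)]) (PF.cons (PF.leaf (nat_lit 8661871) (nat_lit 746134) (nat_lit 42694322) (nat_lit 11132500) [(nat_lit 746134), (nat_lit 2537257), (nat_lit 0)]) (PF.cons PF.nil (PF.cons PF.nil PF.nil))))))))))))))
 (PF.cons (PF.cons (PF.leaf (nat_lit 5045126) (nat_lit 2399256) (nat_lit 48345926) (nat_lit 11565116) [(nat_lit 0), (nat_lit 2399256), (nat_lit 0)]) (PF.cons (PF.leaf (nat_lit 5428379) (nat_lit 659268) (nat_lit 47647870) (nat_lit 11526891) [(nat_lit 659268), (nat_lit 2424927), (nat_lit 0)]) (PF.cons (PF.leaf (nat_lit 5826594) (nat_lit 675518) (nat_lit 46931793) (nat_lit 11482592) [(nat_lit 675518), (nat_lit 2447796), (nat_lit 0)]) (PF.cons (PF.leaf (nat_lit 6236576) (nat_lit 689885) (nat_lit 46203345) (nat_lit 11432394) [(nat_lit 689885), (nat_lit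 2467805), (nat_lit 0)]) (PF.cons (PF.leaf (nat_lit 6655858) (nat_lit 702569) (nat_lit 45467064) (nat_lit 11376541) [(nat_lit 702569), (nat_lit 2484976), (nat_lit 0)]) (PF.cons (PF.leaf (nat_lit 7082355) (nat_lit 713730) (nat_lit 44726680) (nat_lit 11315327) [(nat_lit 713730), (nat_lit 2499383), (nat_lit 0)]) (PF.cons (PF.leaf (nat_lit 7514269) (nat_lit 723504) (nat_lit 43985302) (nat_lit 11249086) [(nat_lit 723504), (nat_lit 2511132), (nat_lit 0)]) (PF.cons (PF.leaf (nat_lit 7950027) (nat_lit 732007) (nat_lit 43245540) (nat_lit 11178174) [(nat_lit 732007), (nat_lit 2520348), (nat_lit 0)]) (PF.cons (PF.leaf (nat_lit 8388263) (nat_lit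
 739343) (nat_lit 42509597) (nat_lit 11102964) [(nat_lit 739343), (nat_lit 2527167), (nat_lit 0)]) (PF.cons (PF.leaf (nat_lit 8827769) (nat_lit 745605) (nat_lit 41779331) (nat_lit 11023831) [(nat_lit 745605), (nat_lit 2531732), (nat_lit 0)]) (PF.cons PF.nil (PF.cons PF.nil PF.nil)))))))))))) (PF.cons (PF.cons (PF.leaf (nat_lit 6053027) (nat_lit 2458738) (nat_lit 45877322) (nat_lit 11396534) [(nat_lit 0), (nat_lit 2458738), (nat_lit 0)]) (PF.cons (PF.leaf (nat_lit 6452385) (nat_lit 692789) (nat_lit 45173326) (nat_lit 11341442) [(nat_lit 692789), (nat_lit 2475313), (nat_lit 0)]) (PF.cons (PF.leaf (nat_lit 6861691) (nat_lit 704702) (nat_lit 44460894) (nat_lit 11281081) [(nat_lit 704702), (nat_lit 2489357), (nat_lit 0)]) (PF.cons (PF.leaf (nat_lit 7278499) (nat_lit 715110) (nat_lit 43744040) (nat_lit 11215776) [(nat_lit 715110), (nat_lit 2500915), (nat_lit 0)]) (PF.cons (PF.leaf (nat_lit 7700911) (nat_lit 724161) (nat_lit 43026011) (nat_lit 11145872) [(nat_lit 724161), (nat_lit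 2510070), (nat_lit 0)]) (PF.cons (PF.leaf (nat_lit 8127311) (nat_lit 731980) (nat_lit 42309477) (nat_lit 11071726) [(nat_lit 731980), (nat_lit 2516926), (nat_lit 0)]) (PF.cons (PF.leaf (nat_lit 8556307) (nat_lit
 738674) (nat_lit 41596646) (nat_lit 10993703) [(nat_lit 738674), (nat_lit 2521603), (nat_lit 0)]) (PF.cons (PF.leaf (nat_lit 8986693) (nat_lit 744338) (nat_lit 40889359) (nat_lit 10912165) [(nat_lit 744338), (nat_lit 2524229), (nat_lit 0)]) (PF.cons (PF.leaf (nat_lit 9417436) (nat_lit 749058) (nat_lit 40189145) (nat_lit 10827469) [(nat_lit 749058), (nat_lit 2524933), (nat_lit 0)]) (PF.cons PF.nil PF.nil)))))))))) (PF.cons (PF.cons (PF.leaf (nat_lit 7062413) (nat_lit 2490659) (nat_lit 43475846) (nat_lit 11179667) [(nat_lit 0), (nat_lit 2490659), (nat_lit 0)]) (PF.cons (PF.leaf (nat_lit 7468853) (nat_lit 715403) (nat_lit 42783883) (nat_lit 11111119) [(nat_lit 715403), (nat_lit 2499681), (nat_lit 0)]) (PF.cons (PF.leaf (nat_lit 7881463) (nat_lit 723856) (nat_lit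 42090134) (nat_lit 11038319) [(nat_lit 723856), (nat_lit 2506528), (nat_lit 0)]) (PF.cons (PF.leaf (nat_lit 8298354) (nat_lit 731099) (nat_lit 41397428) (nat_lit 10961636) [(nat_lit 731099), (nat_lit 2511289), (nat_lit 0)]) (PF.cons (PF.leaf (nat_lit 8718063) (nat_lit 737247) (nat_lit 40708056) (nat_lit 10881431) [(nat_lit 737247), (nat_lit 2514067), (nat_lit 0)]) (PF.cons (PF.leaf (nat_lit 9139376) (nat_lit 742398) (nat_lit
 40023891) (nat_lit 10798059) [(nat_lit 742398), (nat_lit 2514974), (nat_lit 0)]) (PF.cons (PF.leaf (nat_lit 9561204) (nat_lit 746639) (nat_lit 39346470) (nat_lit 10711864) [(nat_lit 746639), (nat_lit 2514128), (nat_lit 0)]) (PF.cons PF.nil PF.nil)))))))) (PF.cons (PF.cons (PF.leaf (nat_lit 8057028) (nat_lit 2500775) (nat_lit 41177112) (nat_lit 10927047) [(nat_lit 0), (nat_lit 2500775), (nat_lit 0)]) (PF.cons (PF.leaf (nat_lit 8463997) (nat_lit 729424) (nat_lit 40508823) (nat_lit 10848478) [(nat_lit 729424), (nat_lit 2503680), (nat_lit 0)]) (PF.cons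 (PF.leaf (nat_lit 8874319) (nat_lit 735119) (nat_lit 39843226) (nat_lit 10766677) [(nat_lit 735119), (nat_lit 2504778), (nat_lit 0)]) (PF.cons (PF.leaf (nat_lit 9286528) (nat_lit 739838) (nat_lit 39182292) (nat_lit 10681996) [(nat_lit 739838), (nat_lit 2504168), (nat_lit 0)]) (PF.cons (PF.leaf (nat_lit 9699511) (nat_lit 743674) (nat_lit 38527609) (nat_lit 10594773) [(nat_lit 743674), (nat_lit 2501955), (nat_lit 0)]) (PF.cons PF.nil PF.nil)))))) (PF.cons (PF.cons (PF.leaf (nat_lit 9025999) (nat_lit 2493931) (nat_lit 39001400) (nat_lit 10649888) [(nat_lit 0), (nat_lit 2493931), (nat_lit 0)]) (PF.cons (PF.leaf (nat_lit 9428859) (nat_lit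
 736705) (nat_lit 38363807) (nat_lit 10564386) [(nat_lit 736705), (nat_lit 2491987), (nat_lit 0)]) (PF.cons (PF.leaf (nat_lit 9833005) (nat_lit 740206) (nat_lit 37731804) (nat_lit 10476567) [(nat_lit 740206), (nat_lit 2488575), (nat_lit 0)]) (PF.cons PF.nil PF.nil)))) (PF.cons (PF.cons (PF.leaf (nat_lit 9962495) (nat_lit 2474130) (nat_lit 36958213) (nat_lit 10357558) [(nat_lit 0), (nat_lit 2474130), (nat_lit 0)]) (PF.cons (PF.leaf (nat_lit 10358077) (nat_lit 738731) (nat_lit 36355059) (nat_lit 10267715) [(nat_lit 738731), (nat_lit 2468413), (nat_lit 0)]) PF.nil)) (PF.cons PF.nil (PF.cons PF.nil PF.nil))))))))))) (PF.cons (PF.cons (PF.cons (PF.leaf (nat_lit 4031522) (nat_lit 6405040) (nat_lit 49178408) (nat_lit 11525363) [(nat_lit 0), (nat_lit 0), (nat_lit 6405040)]) (PF.cons (PF.leaf (nat_lit 4346753) (nat_lit 578111) (nat_lit 48605372) (nat_lit 11502709) [(nat_lit 578111), (nat_lit 0), (nat_lit 6422620)]) (PF.cons (PF.leaf (nat_lit 4689194) (nat_lit 603633) (nat_lit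 47989798) (nat_lit 11474329) [(nat_lit 603633), (nat_lit 0), (nat_lit 6437417)]) (PF.cons (PF.leaf (nat_lit 5052997) (nat_lit 625774) (nat_lit 47342654) (nat_lit 11440129) [(nat_lit 625774), (nat_lit 0), (nat_lit
 6448705)]) (PF.cons (PF.leaf (nat_lit 5434017) (nat_lit 645147) (nat_lit 46672044) (nat_lit 11400117) [(nat_lit 645147), (nat_lit 0), (nat_lit 6456060)]) (PF.cons (PF.leaf (nat_lit 5828984) (nat_lit 662174) (nat_lit 45984287) (nat_lit 11354390) [(nat_lit 662174), (nat_lit 0), (nat_lit 6459263)]) (PF.cons (PF.leaf (nat_lit 6235195) (nat_lit 677161) (nat_lit 45284479) (nat_lit 11303125) [(nat_lit 677161), (nat_lit 0), (nat_lit 6458237)]) (PF.cons (PF.leaf (nat_lit 6650354) (nat_lit 690346) (nat_lit 44576821) (nat_lit 11246556) [(nat_lit 690346), (nat_lit 0), (nat_lit 6453009)]) (PF.cons (PF.leaf (nat_lit 7072495) (nat_lit 701918) (nat_lit 43864823) (nat_lit 11184963) [(nat_lit 701918), (nat_lit 0), (nat_lit 6443679)]) (PF.cons (PF.leaf (nat_lit 7499898) (nat_lit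 712034) (nat_lit 43151444) (nat_lit 11118661) [(nat_lit 712034), (nat_lit 0), (nat_lit 6430399)]) (PF.cons (PF.leaf (nat_lit 7931078) (nat_lit 720828) (nat_lit 42439188) (nat_lit 11047984) [(nat_lit 720828), (nat_lit 0), (nat_lit 6413356)]) (PF.cons (PF.leaf (nat_lit 8364725) (nat_lit 728417) (nat_lit 41730180) (nat_lit 10973280) [(nat_lit 728417), (nat_lit 0), (nat_lit 6392764)]) (PF.cons (PF.leaf (nat_lit 8799676) (nat_lit
 734903) (nat_lit 41026220) (nat_lit 10894903) [(nat_lit 734903), (nat_lit 0), (nat_lit 6368849)]) (PF.cons PF.nil (PF.cons PF.nil (PF.cons PF.nil PF.nil)))))))))))))))) (PF.cons (PF.cons (PF.leaf (nat_lit 4940212) (nat_lit 2354660) (nat_lit 46914264) (nat_lit 11402586) [(nat_lit 0), (nat_lit 2354660), (nat_lit 6437302)]) (PF.cons (PF.leaf (nat_lit 5291888) (nat_lit 631498) (nat_lit 46291389) (nat_lit 11363181) [(nat_lit 631498), (nat_lit 2380228), (nat_lit 6442514)]) (PF.cons (PF.leaf (nat_lit 5662327) (nat_lit 650047) (nat_lit 45643254) (nat_lit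 11318111) [(nat_lit 650047), (nat_lit 2403186), (nat_lit 6444166)]) (PF.cons (PF.leaf (nat_lit 6047444) (nat_lit 666211) (nat_lit 44977151) (nat_lit 11267580) [(nat_lit 666211), (nat_lit 2423401), (nat_lit 6442046)]) (PF.cons (PF.leaf (nat_lit 6444219) (nat_lit 680340) (nat_lit 44298674) (nat_lit 11211832) [(nat_lit 680340), (nat_lit 2440859), (nat_lit 6436083)]) (PF.cons (PF.leaf (nat_lit 6850199) (nat_lit 692694) (nat_lit 43612274) (nat_lit 11151144) [(nat_lit 692694), (nat_lit 2455617), (nat_lit 6426303)]) (PF.cons (PF.leaf (nat_lit 7263301) (nat_lit 703474) (nat_lit 42921573) (nat_lit 11085819) [(nat_lit 703474), (nat_lit 2467772),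
 (nat_lit 6412800)]) (PF.cons (PF.leaf (nat_lit 7681779) (nat_lit 712843) (nat_lit 42229563) (nat_lit 11016180) [(nat_lit 712843), (nat_lit 2477442), (nat_lit 6395719)]) (PF.cons (PF.leaf (nat_lit 8104108) (nat_lit 720939) (nat_lit 41538739) (nat_lit 10942562) [(nat_lit 720939), (nat_lit 2484762), (nat_lit 6375234)]) (PF.cons (PF.leaf (nat_lit 8528967) (nat_lit 727878) (nat_lit 40851189) (nat_lit 10865307) [(nat_lit 727878), (nat_lit 2489869), (nat_lit 6351543)]) (PF.cons (PF.leaf (nat_lit 8955208) (nat_lit 733763) (nat_lit 40168665) (nat_lit 10784753) [(nat_lit 733763), (nat_lit 2492904), (nat_lit 6324856)]) (PF.cons PF.nil (PF.cons PF.nil (PF.cons PF.nil PF.nil)))))))))))))) (PF.cons (PF.cons (PF.leaf (nat_lit 5888044) (nat_lit 2413726) (nat_lit 44628040) (nat_lit 11228124) [(nat_lit 0), (nat_lit 2413726), (nat_lit 6425195)]) (PF.cons (PF.leaf (nat_lit 6261803) (nat_lit 668685) (nat_lit 43986732) (nat_lit 11173793) [(nat_lit 668685), (nat_lit 2430560), (nat_lit 6418481)])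 (PF.cons (PF.leaf (nat_lit 6648295) (nat_lit 682166) (nat_lit 43331822) (nat_lit 11114463) [(nat_lit 682166), (nat_lit 2444970), (nat_lit 6408253)]) (PF.cons (PF.leaf (nat_lit 7044523) (nat_lit 693857) (nat_lit
 42668283) (nat_lit 11050474) [(nat_lit 693857), (nat_lit 2456969), (nat_lit 6394541)]) (PF.cons (PF.leaf (nat_lit 7448242) (nat_lit 703986) (nat_lit 42000020) (nat_lit 10982162) [(nat_lit 703986), (nat_lit 2466623), (nat_lit 6377439)]) (PF.cons (PF.leaf (nat_lit 7857586) (nat_lit 712728) (nat_lit 41330167) (nat_lit 10909868) [(nat_lit 712728), (nat_lit 2474025), (nat_lit 6357082)]) (PF.cons (PF.leaf (nat_lit 8270969) (nat_lit 720229) (nat_lit 40661286) (nat_lit 10833931) [(nat_lit 720229), (nat_lit 2479288), (nat_lit 6333638)]) (PF.cons (PF.leaf (nat_lit 8687047) (nat_lit 726610) (nat_lit 39995485) (nat_lit 10754690) [(nat_lit 726610), (nat_lit 2482535), (nat_lit 6307291)]) (PF.cons (PF.leaf (nat_lit 9104644) (nat_lit 731976) (nat_lit 39334511) (nat_lit 10672474)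 [(nat_lit 731976), (nat_lit 2483890), (nat_lit 6278237)]) (PF.cons (PF.leaf (nat_lit 9522734) (nat_lit 736417) (nat_lit 38679809) (nat_lit 10587606) [(nat_lit 736417), (nat_lit 2483481), (nat_lit 6246677)]) (PF.cons PF.nil (PF.cons PF.nil PF.nil)))))))))))) (PF.cons (PF.cons (PF.leaf (nat_lit 6848860) (nat_lit 2446127) (nat_lit 42383415) (nat_lit 11011674) [(nat_lit 0), (nat_lit 2446127), (nat_lit 6375339)]) (PF.cons
 (PF.leaf (nat_lit 7234393) (nat_lit 693897) (nat_lit 41744433) (nat_lit 10945185) [(nat_lit 693897), (nat_lit 2455671), (nat_lit 6358281)]) (PF.cons (PF.leaf (nat_lit 7628239) (nat_lit 703518) (nat_lit 41099758) (nat_lit 10874601) [(nat_lit 703518), (nat_lit 2463101), (nat_lit 6338111)]) (PF.cons (PF.leaf (nat_lit 8028151) (nat_lit 711753) (nat_lit 40452824) (nat_lit 10800294) [(nat_lit 711753), (nat_lit 2468489), (nat_lit 6314967)]) (PF.cons (PF.leaf (nat_lit 8432436) (nat_lit 718761) (nat_lit 39806354) (nat_lit 10722618) [(nat_lit 718761), (nat_lit 2471928),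 (nat_lit 6289008)]) (PF.cons (PF.leaf (nat_lit 8839670) (nat_lit 724672) (nat_lit 39162545) (nat_lit 10641913) [(nat_lit 724672), (nat_lit 2473526), (nat_lit 6260410)]) (PF.cons (PF.leaf (nat_lit 9248640) (nat_lit 729595) (nat_lit 38523187) (nat_lit 10558507) [(nat_lit 729595), (nat_lit 2473394), (nat_lit 6229358)]) (PF.cons (PF.leaf (nat_lit 9658330) (nat_lit 733625) (nat_lit 37889742) (nat_lit 10472714) [(nat_lit 733625), (nat_lit 2471646), (nat_lit 6196041)]) (PF.cons PF.nil (PF.cons PF.nil PF.nil)))))))))) (PF.cons (PF.cons (PF.leaf (nat_lit 7804464) (nat_lit 2457457) (nat_lit 40220078) (nat_lit 10763642) [(nat_lit 0),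
 (nat_lit 2457457), (nat_lit 6295263)]) (PF.cons (PF.leaf (nat_lit 8194342) (nat_lit 709964) (nat_lit 39596875) (nat_lit 10687940) [(nat_lit 709964), (nat_lit 2461061), (nat_lit 6269786)]) (PF.cons (PF.leaf (nat_lit 8589273) (nat_lit 716582) (nat_lit 38973297) (nat_lit 10609071) [(nat_lit 716582), (nat_lit 2462888), (nat_lit 6241724)]) (PF.cons (PF.leaf (nat_lit 8987541) (nat_lit 722111) (nat_lit 38351717) (nat_lit 10527391) [(nat_lit 722111), (nat_lit 2463029), (nat_lit 6211249)]) (PF.cons (PF.leaf (nat_lit 9387865) (nat_lit 726668) (nat_lit 37734027) (nat_lit 10443231) [(nat_lit 726668), (nat_lit 2461585), (nat_lit 6178538)]) (PF.cons (PF.leaf (nat_lit 9789163) (nat_lit 730351) (nat_lit 37121747) (nat_lit 10356902) [(nat_lit 730351), (nat_lit 2458658), (nat_lit 6143770)]) (PF.cons PF.nil (PF.cons PF.nil PF.nil)))))))) (PF.cons (PF.cons (PF.leaf (nat_lit 8742464) (nat_lit 2452347) (nat_lit 38161297) (nat_lit 10493663) [(nat_lit 0), (nat_lit 2452347), (nat_lit 6192115)])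 (PF.cons (PF.leaf (nat_lit 9131377) (nat_lit 718964) (nat_lit 37562222) (nat_lit 10411471) [(nat_lit 718964), (nat_lit 2451208), (nat_lit 6160110)]) (PF.cons (PF.leaf (nat_lit 9522950) (nat_lit 723230) (nat_lit
 36966270) (nat_lit 10326965) [(nat_lit 723230), (nat_lit 2448612), (nat_lit 6126053)]) (PF.cons (PF.leaf (nat_lit 9915848) (nat_lit 726632) (nat_lit 36375073) (nat_lit 10240460) [(nat_lit 726632), (nat_lit 2444653), (nat_lit 6090116)]) (PF.cons PF.nil (PF.cons PF.nil PF.nil)))))) (PF.cons (PF.cons (PF.leaf (nat_lit 9654729) (nat_lit 2434607) (nat_lit 36219060) (nat_lit 10209970) [(nat_lit 0), (nat_lit 2434607), (nat_lit 6072139)]) (PF.cons (PF.leaf (nat_lit 10038971) (nat_lit 722495) (nat_lit 35648901) (nat_lit 10123628) [(nat_lit 722495), (nat_lit 2429748), (nat_lit 6035295)]) (PF.cons (PF.leaf (nat_lit 10424111) (nat_lit 724912) (nat_lit 35084085) (nat_lit 10035703) [(nat_lit 724912), (nat_lit 2423719), (nat_lit 5996882)]) (PF.cons PF.nil PF.nil)))) (PF.cons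 (PF.cons (PF.leaf (nat_lit 10536255) (nat_lit 2407330) (nat_lit 34397722) (nat_lit 9919245) [(nat_lit 0), (nat_lit 2407330), (nat_lit 5940530)]) (PF.cons PF.nil PF.nil)) (PF.cons PF.nil (PF.cons PF.nil PF.nil)))))))))) (PF.cons (PF.cons (PF.cons (PF.leaf (nat_lit 5746392) (nat_lit 6334386) (nat_lit 43385387) (nat_lit 11054652) [(nat_lit 0), (nat_lit 0), (nat_lit 6334386)]) (PF.cons (PF.leaf (nat_lit 6091326) (nat_lit 640409)
 (nat_lit 42811803) (nat_lit 11002510) [(nat_lit 640409), (nat_lit 0), (nat_lit 6327044)]) (PF.cons (PF.leaf (nat_lit 6452823) (nat_lit 656379) (nat_lit 42217635) (nat_lit 10945350) [(nat_lit 656379), (nat_lit 0), (nat_lit 6316533)]) (PF.cons (PF.leaf (nat_lit 6826956) (nat_lit 670030) (nat_lit 41609449) (nat_lit 10883592) [(nat_lit 670030), (nat_lit 0), (nat_lit 6302839)]) (PF.cons (PF.leaf (nat_lit 7210904) (nat_lit 681745) (nat_lit 40992180) (nat_lit 10817618) [(nat_lit 681745), (nat_lit 0), (nat_lit 6286015)]) (PF.cons (PF.leaf (nat_lit 7602400)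 (nat_lit 691804) (nat_lit 40369675) (nat_lit 10747783) [(nat_lit 691804), (nat_lit 0), (nat_lit 6266165)]) (PF.cons (PF.leaf (nat_lit 7999582) (nat_lit 700420) (nat_lit 39745006) (nat_lit 10674429) [(nat_lit 700420), (nat_lit 0), (nat_lit 6243426)]) (PF.cons (PF.leaf (nat_lit 8400891) (nat_lit 707763) (nat_lit 39120665) (nat_lit 10597887) [(nat_lit 707763), (nat_lit 0), (nat_lit 6217956)]) (PF.cons (PF.leaf (nat_lit 8804995) (nat_lit 713973) (nat_lit 38498693) (nat_lit 10518477) [(nat_lit 713973), (nat_lit 0), (nat_lit 6189927)]) (PF.cons (PF.leaf (nat_lit 9210758) (nat_lit 719165) (nat_lit 37880774) (nat_lit 10436507) [(nat_lit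
 719165), (nat_lit 0), (nat_lit 6159520)]) (PF.cons PF.nil (PF.cons PF.nil PF.nil)))))))))))) (PF.cons (PF.cons (PF.leaf (nat_lit 6655429) (nat_lit 2399218) (nat_lit 41303221) (nat_lit 10841441) [(nat_lit 0), (nat_lit 2399218), (nat_lit 6282465)]) (PF.cons (PF.leaf (nat_lit 7018033) (nat_lit 669802) (nat_lit 40719702) (nat_lit 10777916) [(nat_lit 669802), (nat_lit 2409685), (nat_lit 6265853)]) (PF.cons (PF.leaf (nat_lit 7391680) (nat_lit 681118) (nat_lit 40125606) (nat_lit 10710265) [(nat_lit 681118), (nat_lit 2418048), (nat_lit 6246326)]) (PF.cons (PF.leaf (nat_lit 7773564) (nat_lit 690747) (nat_lit 39525293) (nat_lit 10638908) [(nat_lit 690747), (nat_lit 2424367), (nat_lit 6224000)]) (PF.cons (PF.leaf (nat_lit 8161627) (nat_lit 698928) (nat_lit 38922123) (nat_lit 10564221) [(nat_lit 698928), (nat_lit 2428728), (nat_lit 6199012)]) (PF.cons (PF.leaf (nat_lit 8554181) (nat_lit 705846) (nat_lit 38318750) (nat_lit 10486555) [(nat_lit 705846), (nat_lit 2431238), (nat_lit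 6171518)]) (PF.cons (PF.leaf (nat_lit 8949821) (nat_lit 711648) (nat_lit 37717309) (nat_lit 10406235) [(nat_lit 711648), (nat_lit 2432007), (nat_lit 6141685)]) (PF.cons (PF.leaf (nat_lit 9347375) (nat_lit 716455)
 (nat_lit 37119529) (nat_lit 10323569) [(nat_lit 716455), (nat_lit 2431152), (nat_lit 6109685)]) (PF.cons (PF.leaf (nat_lit 9745800) (nat_lit 720371) (nat_lit 36526823) (nat_lit 10238849) [(nat_lit 720371), (nat_lit 2428784), (nat_lit 6075689)]) (PF.cons PF.nil PF.nil)))))))))) (PF.cons (PF.cons (PF.leaf (nat_lit 7570027) (nat_lit 2412711) (nat_lit 39277057) (nat_lit 10599718) [(nat_lit 0), (nat_lit 2412711), (nat_lit 6203307)]) (PF.cons (PF.leaf (nat_lit 7941437) (nat_lit 688825) (nat_lit 38700092) (nat_lit 10527448) [(nat_lit 688825), (nat_lit 2417279), (nat_lit 6178943)]) (PF.cons (PF.leaf (nat_lit 8319951) (nat_lit 696693) (nat_lit 38119138) (nat_lit 10451958) [(nat_lit 696693), (nat_lit 2420064), (nat_lit 6152100)]) (PF.cons (PF.leaf (nat_lit 8703494) (nat_lit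 703284) (nat_lit 37537146) (nat_lit 10373631) [(nat_lit 703284), (nat_lit 2421154), (nat_lit 6122936)]) (PF.cons (PF.leaf (nat_lit 9090545) (nat_lit 708761) (nat_lit 36956422) (nat_lit 10292812) [(nat_lit 708761), (nat_lit 2420646), (nat_lit 6091619)]) (PF.cons (PF.leaf (nat_lit 9479822) (nat_lit 713255) (nat_lit 36378802) (nat_lit 10209817) [(nat_lit 713255), (nat_lit 2418643), (nat_lit 6058313)]) (PF.cons (PF.leaf
 (nat_lit 9870280) (nat_lit 716874) (nat_lit 35805758) (nat_lit 10124936) [(nat_lit 716874), (nat_lit 2415248), (nat_lit 6023186)]) (PF.cons PF.nil PF.nil)))))))) (PF.cons (PF.cons (PF.leaf (nat_lit 8475626) (nat_lit 2409934) (nat_lit 37335130) (nat_lit 10337934) [(nat_lit 0), (nat_lit 2409934), (nat_lit 6102972)]) (PF.cons (PF.leaf (nat_lit 8849594) (nat_lit 700104) (nat_lit 36775022) (nat_lit 10259402) [(nat_lit 700104), (nat_lit 2409777), (nat_lit 6072476)]) (PF.cons (PF.leaf (nat_lit 9227814) (nat_lit 705343) (nat_lit 36215255) (nat_lit 10178479) [(nat_lit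 705343), (nat_lit 2408148), (nat_lit 6039973)]) (PF.cons (PF.leaf (nat_lit 9608713) (nat_lit 709595) (nat_lit 35657844) (nat_lit 10095498) [(nat_lit 709595), (nat_lit 2405140), (nat_lit 6005631)]) (PF.cons (PF.leaf (nat_lit 9991141) (nat_lit 712977) (nat_lit 35104375) (nat_lit 10010760) [(nat_lit 712977), (nat_lit 2400846), (nat_lit 5969613)]) (PF.cons PF.nil PF.nil)))))) (PF.cons (PF.cons (PF.leaf (nat_lit 9362520) (nat_lit 2394636) (nat_lit 35492913) (nat_lit 10063445) [(nat_lit 0), (nat_lit 2394636), (nat_lit 5986953)]) (PF.cons (PF.leaf (nat_lit 9734650) (nat_lit 705494) (nat_lit 34955828) (nat_lit 9980813) [(nat_lit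
 705494), (nat_lit 2390754), (nat_lit 5951828)]) (PF.cons (PF.leaf (nat_lit 10108953) (nat_lit 708702) (nat_lit 34421887) (nat_lit 9896506) [(nat_lit 708702), (nat_lit 2385681), (nat_lit 5915144)]) (PF.cons (PF.leaf (nat_lit 10484211) (nat_lit 711138) (nat_lit 33892467) (nat_lit 9810804) [(nat_lit 711138), (nat_lit 2379502), (nat_lit 5877058)]) PF.nil)))) (PF.cons (PF.cons (PF.leaf (nat_lit 10224447) (nat_lit 2369838) (nat_lit 33757445) (nat_lit 9782316) [(nat_lit 0), (nat_lit 2369838), (nat_lit 5859928)]) (PF.cons (PF.leaf (nat_lit 10591689) (nat_lit 706381) (nat_lit 33246761) (nat_lit 9697376) [(nat_lit 706381), (nat_lit 2363066), (nat_lit 5821479)]) PF.nil)) (PF.cons PF.nil (PF.cons PF.nil PF.nil)))))))) (PF.cons (PF.cons (PF.cons (PF.leaf (nat_lit 7356476) (nat_lit 6110503) (nat_lit 38342652) (nat_lit 10434649) [(nat_lit 0), (nat_lit 0), (nat_lit 6110503)]) (PF.cons (PF.leaf (nat_lit 7707295) (nat_lit 665332) (nat_lit 37814167) (nat_lit 10366506) [(nat_lit 665332),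 (nat_lit 0), (nat_lit 6087602)]) (PF.cons (PF.leaf (nat_lit 8067862) (nat_lit 674942) (nat_lit 37277213) (nat_lit 10294928) [(nat_lit 674942), (nat_lit 0), (nat_lit 6062262)]) (PF.cons (PF.leaf (nat_lit 8435535)
 (nat_lit 682966) (nat_lit 36735611) (nat_lit 10220368) [(nat_lit 682966), (nat_lit 0), (nat_lit 6034644)]) (PF.cons (PF.leaf (nat_lit 8808414) (nat_lit 689649) (nat_lit 36192264) (nat_lit 10143214) [(nat_lit 689649), (nat_lit 0), (nat_lit 6004912)]) (PF.cons (PF.leaf (nat_lit 9184968) (nat_lit 695177) (nat_lit 35649440) (nat_lit 10063805) [(nat_lit 695177), (nat_lit 0), (nat_lit 5973226)]) (PF.cons (PF.leaf (nat_lit 9563951) (nat_lit 699697) (nat_lit 35108936) (nat_lit 9982447) [(nat_lit 699697), (nat_lit 0), (nat_lit 5939747)]) (PF.cons (PF.leaf (nat_lit 9944285) (nat_lit 703329) (nat_lit 34572195) (nat_lit 9899418) [(nat_lit 703329), (nat_lit 0), (nat_lit 5904631)]) (PF.cons PF.nil (PF.cons PF.nil PF.nil)))))))))) (PF.cons (PF.cons (PF.leaf (nat_lit 8227248)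 (nat_lit 2366395) (nat_lit 36519215) (nat_lit 10182228) [(nat_lit 0), (nat_lit 2366395), (nat_lit 6013657)]) (PF.cons (PF.leaf (nat_lit 8584810) (nat_lit 679712) (nat_lit 35999176) (nat_lit 10107787) [(nat_lit 679712), (nat_lit 2367439), (nat_lit 5984899)]) (PF.cons (PF.leaf (nat_lit 8948577) (nat_lit 686226) (nat_lit 35476212) (nat_lit 10030776) [(nat_lit 686226), (nat_lit 2366965), (nat_lit 5954135)]) (PF.cons (PF.leaf
 (nat_lit 9316615) (nat_lit 691561) (nat_lit 34952876) (nat_lit 9951573) [(nat_lit 691561), (nat_lit 2365067), (nat_lit 5921537)]) (PF.cons (PF.leaf (nat_lit 9687518) (nat_lit 695880) (nat_lit 34431141) (nat_lit 9870503) [(nat_lit 695880), (nat_lit 2361842), (nat_lit 5887267)]) (PF.cons (PF.leaf (nat_lit 10060173) (nat_lit 699312) (nat_lit 33912560) (nat_lit 9787856) [(nat_lit 699312), (nat_lit 2357389), (nat_lit 5851481)]) (PF.cons PF.nil (PF.cons PF.nil PF.nil)))))))) (PF.cons (PF.cons (PF.leaf (nat_lit 9087012) (nat_lit 2354009) (nat_lit 34777153)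 (nat_lit 9917615) [(nat_lit 0), (nat_lit 2354009), (nat_lit 5902008)]) (PF.cons (PF.leaf (nat_lit 9445964) (nat_lit 687465) (nat_lit 34273636) (nat_lit 9838958) [(nat_lit 687465), (nat_lit 2351249), (nat_lit 5868750)]) (PF.cons (PF.leaf (nat_lit 9808592) (nat_lit 691657) (nat_lit 33770784) (nat_lit 9758466) [(nat_lit 691657), (nat_lit 2347255), (nat_lit 5833911)]) (PF.cons (PF.leaf (nat_lit 10173419) (nat_lit 694949) (nat_lit 33270326) (nat_lit 9676449) [(nat_lit 694949), (nat_lit 2342117), (nat_lit 5797650)]) (PF.cons (PF.leaf (nat_lit 10539425) (nat_lit 697457) (nat_lit 32773610) (nat_lit 9593177) [(nat_lit 697457), (nat_lit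
 2335923), (nat_lit 5760116)]) (PF.cons PF.nil PF.nil)))))) (PF.cons (PF.cons (PF.leaf (nat_lit 9927953) (nat_lit 2331988) (nat_lit 33126987) (nat_lit 9646443) [(nat_lit 0), (nat_lit 2331988), (nat_lit 5779805)]) (PF.cons (PF.leaf (nat_lit 10284577) (nat_lit 690250) (nat_lit 32644691) (nat_lit 9565300) [(nat_lit 690250), (nat_lit 2326265), (nat_lit 5743257)]) (PF.cons (PF.leaf (nat_lit 10643038) (nat_lit 692668) (nat_lit 32165358) (nat_lit 9482929) [(nat_lit 692668), (nat_lit 2319554), (nat_lit 5705508)]) (PF.cons PF.nil PF.nil)))) (PF.cons (PF.cons (PF.leaf (nat_lit 10745109) (nat_lit 2302751) (nat_lit 31572820) (nat_lit 9373214) [(nat_lit 0), (nat_lit 2302751), (nat_lit 5650590)]) (PF.cons PF.nil PF.nil)) (PF.cons PF.nil PF.nil)))))) (PF.cons (PF.cons (PF.cons (PF.leaf (nat_lit 8829790) (nat_lit 5817054) (nat_lit 34068604) (nat_lit 9771989) [(nat_lit 0), (nat_lit 0), (nat_lit 5817054)]) (PF.cons (PF.leaf (nat_lit 9174076) (nat_lit 668016) (nat_lit 33599737) (nat_lit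 9697659) [(nat_lit 668016), (nat_lit 0), (nat_lit 5785849)]) (PF.cons (PF.leaf (nat_lit 9523882) (nat_lit 673473) (nat_lit 33128618) (nat_lit 9621245) [(nat_lit 673473), (nat_lit 0), (nat_lit 5753000)]) (PF.cons
 (PF.leaf (nat_lit 9877381) (nat_lit 677839) (nat_lit 32657469) (nat_lit 9543109) [(nat_lit 677839), (nat_lit 0), (nat_lit 5718678)]) (PF.cons (PF.leaf (nat_lit 10233304) (nat_lit 681274) (nat_lit 32187995) (nat_lit 9463556) [(nat_lit 681274), (nat_lit 0), (nat_lit 5683041)]) (PF.cons PF.nil PF.nil)))))) (PF.cons (PF.cons (PF.leaf (nat_lit 9647796) (nat_lit 2293576) (nat_lit 32504110) (nat_lit 9511256) [(nat_lit 0), (nat_lit 2293576), (nat_lit 5699967)]) (PF.cons (PF.leaf (nat_lit 9992721) (nat_lit 673159) (nat_lit 32050740) (nat_lit 9434128) [(nat_lit 673159), (nat_lit 2289029), (nat_lit 5665438)]) (PF.cons (PF.leaf (nat_lit 10340874) (nat_lit 676547) (nat_lit 31598139) (nat_lit 9355567) [(nat_lit 676547), (nat_lit 2283434), (nat_lit 5629644)]) (PF.cons (PF.leaf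 (nat_lit 10690890) (nat_lit 679111) (nat_lit 31147808) (nat_lit 9275858) [(nat_lit 679111), (nat_lit 2276878), (nat_lit 5592733)]) PF.nil)))) (PF.cons (PF.cons (PF.leaf (nat_lit 10447420) (nat_lit 2267226) (nat_lit 31022727) (nat_lit 9248018) [(nat_lit 0), (nat_lit 2267226), (nat_lit 5575903)]) (PF.cons (PF.leaf (nat_lit 10789757) (nat_lit 674058) (nat_lit 30588541) (nat_lit 9169492) [(nat_lit 674058), (nat_lit 2260292),
 (nat_lit 5539033)]) PF.nil)) (PF.cons PF.nil PF.nil)))) (PF.cons (PF.cons (PF.cons (PF.leaf (nat_lit 10165515) (nat_lit 5501472) (nat_lit 30478040) (nat_lit 9123409) [(nat_lit 0), (nat_lit 0), (nat_lit 5501472)]) (PF.cons (PF.leaf (nat_lit 10497363) (nat_lit 657936) (nat_lit 30068835) (nat_lit 9048782) [(nat_lit 657936), (nat_lit 0), (nat_lit 5466651)]) (PF.cons (PF.leaf (nat_lit 10832124) (nat_lit 660701) (nat_lit 29660389) (nat_lit 8973017) [(nat_lit 660701), (nat_lit 0), (nat_lit 5430800)]) (PF.cons PF.nil PF.nil)))) (PF.cons (PF.cons (PF.leaf (nat_lit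 10927894) (nat_lit 2202178) (nat_lit 29144387) (nat_lit 8870679) [(nat_lit 0), (nat_lit 2202178), (nat_lit 5378313)]) (PF.cons PF.nil PF.nil)) PF.nil)) (PF.cons PF.nil (PF.cons PF.nil (PF.cons PF.nil (PF.cons PF.nil PF.nil))))))))))

def p12_20_2_0 : pfC (piC [(nat_lit 35404596), (nat_lit 22827826), (nat_lit 14696761)] (nat_lit 7787052)) p12_20_2 (nat_lit 3) (nat_lit 0) (nat_lit 1) = true := by decide +kernel
def p12_20_2_1 : pfC (piC [(nat_lit 35404596), (nat_lit 22827826), (nat_lit 14696761)] (nat_lit 7787052)) p12_20_2 (nat_lit 3) (nat_lit 1) (nat_lit 2) = true := by decide +kernel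
def p12_20_2_2 : pfC (piC [(nat_lit 35404596), (nat_lit 22827826), (nat_lit 14696761)] (nat_lit 7787052)) p12_20_2 (nat_lit 3) (nat_lit 2) (nat_lit 3) = true := by decide +kernel
def p12_20_2_3 : pfC (piC [(nat_lit 35404596), (nat_lit 22827826), (nat_lit 14696761)] (nat_lit 7787052)) p12_20_2 (nat_lit 3) (nat_lit 3) (nat_lit 4) = true := by decide +kernel
def p12_20_2_4 : pfC (piC [(nat_lit 35404596), (nat_lit 22827826), (nat_lit 14696761)] (nat_lit 7787052)) p12_20_2 (nat_lit 3) (nat_lit 4) (nat_lit 5) = true := by decide +kernel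
def p12_20_2_5 : pfC (piC [(nat_lit 35404596), (nat_lit 22827826), (nat_lit 14696761)] (nat_lit 7787052)) p12_20_2 (nat_lit 3) (nat_lit 5) (nat_lit 6) = true := by decide +kernel
def p12_20_2_6 : pfC (piC [(nat_lit 35404596), (nat_lit 22827826), (nat_lit 14696761)] (nat_lit 7787052)) p12_20_2 (nat_lit 3) (nat_lit 6) (nat_lit 7) = true := by decide +kernel
def p12_20_2_7 : pfC (piC [(nat_lit 35404596), (nat_lit 22827826), (nat_lit 14696761)] (nat_lit 7787052)) p12_20_2 (nat_lit 3) (nat_lit 7) (nat_lit 8) = true := by decide +kernel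
def p12_20_2_8 : pfC (piC [(nat_lit 35404596), (nat_lit 22827826), (nat_lit 14696761)] (nat_lit 7787052)) p12_20_2 (nat_lit 3) (nat_lit 8) (nat_lit 9) = true := by decide +kernel
def p12_20_2_9 : pfC (piC [(nat_lit 35404596), (nat_lit 22827826), (nat_lit 14696761)] (nat_lit 7787052)) p12_20_2 (nat_lit 3) (nat_lit 9) (nat_lit 10) = true := by decide +kernel
def p12_20_2_10 : pfC (piC [(nat_lit 35404596), (nat_lit 22827826), (nat_lit 14696761)] (nat_lit 7787052)) p12_20_2 (nat_lit 3) (nat_lit 10) (nat_lit 11) = true := by decide +kernel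
def p12_20_2_11 : pfC (piC [(nat_lit 35404596), (nat_lit 22827826), (nat_lit 14696761)] (nat_lit 7787052)) p12_20_2 (nat_lit 3) (nat_lit 11) (nat_lit 12) = true := by decide +kernel
def p12_20_2_12 : pfC (piC [(nat_lit 35404596), (nat_lit 22827826), (nat_lit 14696761)] (nat_lit 7787052)) p12_20_2 (nat_lit 3) (nat_lit 12) (nat_lit 13) = true := by decide +kernel
def p12_20_2_13 : pfC (piC [(nat_lit 35404596), (nat_lit 22827826), (nat_lit 14696761)] (nat_lit 7787052)) p12_20_2 (nat_lit 3) (nat_lit 13) (nat_lit 14) = true := by decide +kernel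
def p12_20_2_14 : pfC (piC [(nat_lit 35404596), (nat_lit 22827826), (nat_lit 14696761)] (nat_lit 7787052)) p12_20_2 (nat_lit 3) (nat_lit 14) (nat_lit 15) = true := by decide +kernel
def p12_20_2_15 : pfC (piC [(nat_lit 35404596), (nat_lit 22827826), (nat_lit 14696761)] (nat_lit 7787052)) p12_20_2 (nat_lit 3) (nat_lit 15) (nat_lit 16) = true := by decide +kernel
def p12_20_2_16 : pfC (piC [(nat_lit 35404596), (nat_lit 22827826), (nat_lit 14696761)] (nat_lit 7787052)) p12_20_2 (nat_lit 3) (nat_lit 16) (nat_lit 17) = true := by decide +kernel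
def p12_20_2_17 : pfC (piC [(nat_lit 35404596), (nat_lit 22827826), (nat_lit 14696761)] (nat_lit 7787052)) p12_20_2 (nat_lit 3) (nat_lit 17) (nat_lit 18) = true := by decide +kernel
def p12_20_2_18 : pfC (piC [(nat_lit 35404596), (nat_lit 22827826), (nat_lit 14696761)] (nat_lit 7787052)) p12_20_2 (nat_lit 3) (nat_lit 18) (nat_lit 19) = true := by decide +kernel
def p12_20_2_19 : pfC (piC [(nat_lit 35404596), (nat_lit 22827826), (nat_lit 14696761)] (nat_lit 7787052)) p12_20_2 (nat_lit 3) (nat_lit 19) (nat_lit 20) = true := by decide +kernel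
def p12_20_2_20 : pfC (piC [(nat_lit 35404596), (nat_lit 22827826), (nat_lit 14696761)] (nat_lit 7787052)) p12_20_2 (nat_lit 3) (nat_lit 20) (nat_lit 21) = true := by decide +kernel
def p12_20_2_21 : pfC (piC [(nat_lit 35404596), (nat_lit 22827826), (nat_lit 14696761)] (nat_lit 7787052)) p12_20_2 (nat_lit 3) (nat_lit 21) (nat_lit 22) = true := by decide +kernel
def p12_20_2_22 : pfC (piC [(nat_lit 35404596), (nat_lit 22827826), (nat_lit 14696761)] (nat_lit 7787052)) p12_20_2 (nat_lit 3) (nat_lit 22) (nat_lit 23) = true := by decide +kernel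
def p12_20_2_23 : pfC (piC [(nat_lit 35404596), (nat_lit 22827826), (nat_lit 14696761)] (nat_lit 7787052)) p12_20_2 (nat_lit 3) (nat_lit 23) (nat_lit 24) = true := by decide +kernel
def p12_20_2_24 : pfC (piC [(nat_lit 35404596), (nat_lit 22827826), (nat_lit 14696761)] (nat_lit 7787052)) p12_20_2 (nat_lit 3) (nat_lit 24) (nat_lit 25) = true := by decide +kernel
def p12_20_2_25 : pfC (piC [(nat_lit 35404596), (nat_lit 22827826), (nat_lit 14696761)] (nat_lit 7787052)) p12_20_2 (nat_lit 3) (nat_lit 25) (nat_lit 26) = true := by decide +kernel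
def p12_20_2_26 : pfC (piC [(nat_lit 35404596), (nat_lit 22827826), (nat_lit 14696761)] (nat_lit 7787052)) p12_20_2 (nat_lit 3) (nat_lit 26) (nat_lit 27) = true := by decide +kernel
def p12_20_2_27 : pfC (piC [(nat_lit 35404596), (nat_lit 22827826), (nat_lit 14696761)] (nat_lit 7787052)) p12_20_2 (nat_lit 3) (nat_lit 27) (nat_lit 28) = true := by decide +kernel
def p12_20_2_28 : pfC (piC [(nat_lit 35404596), (nat_lit 22827826), (nat_lit 14696761)] (nat_lit 7787052)) p12_20_2 (nat_lit 3) (nat_lit 28) (nat_lit 29) = true := by decide +kernel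
def p12_20_2_29 : pfC (piC [(nat_lit 35404596), (nat_lit 22827826), (nat_lit 14696761)] (nat_lit 7787052)) p12_20_2 (nat_lit 3) (nat_lit 29) (nat_lit 30) = true := by decide +kernel
def p12_20_2_30 : pfC (piC [(nat_lit 35404596), (nat_lit 22827826), (nat_lit 14696761)] (nat_lit 7787052)) p12_20_2 (nat_lit 3) (nat_lit 30) (nat_lit 31) = true := by decide +kernel
def p12_20_2_31 : pfC (piC [(nat_lit 35404596), (nat_lit 22827826), (nat_lit 14696761)] (nat_lit 7787052)) p12_20_2 (nat_lit 3) (nat_lit 31) (nat_lit 32) = true := by decide +kernel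
def p12_20_2_32 : pfC (piC [(nat_lit 35404596), (nat_lit 22827826), (nat_lit 14696761)] (nat_lit 7787052)) p12_20_2 (nat_lit 3) (nat_lit 32) (nat_lit 33) = true := by decide +kernel
def p12_20_2_33 : pfC (piC [(nat_lit 35404596), (nat_lit 22827826), (nat_lit 14696761)] (nat_lit 7787052)) p12_20_2 (nat_lit 3) (nat_lit 33) (nat_lit 34) = true := by decide +kernel
def p12_20_2_34 : pfC (piC [(nat_lit 35404596), (nat_lit 22827826), (nat_lit 14696761)] (nat_lit 7787052)) p12_20_2 (nat_lit 3) (nat_lit 34) (nat_lit 35) = true := by decide +kernel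
def p12_20_2_35 : pfC (piC [(nat_lit 35404596), (nat_lit 22827826), (nat_lit 14696761)] (nat_lit 7787052)) p12_20_2 (nat_lit 3) (nat_lit 35) (nat_lit 36) = true := by decide +kernel
def p12_20_2_36 : pfC (piC [(nat_lit 35404596), (nat_lit 22827826), (nat_lit 14696761)] (nat_lit 7787052)) p12_20_2 (nat_lit 3) (nat_lit 36) (nat_lit 37) = true := by decide +kernel
def p12_20_2_37 : pfC (piC [(nat_lit 35404596), (nat_lit 22827826), (nat_lit 14696761)] (nat_lit 7787052)) p12_20_2 (nat_lit 3) (nat_lit 37) (nat_lit 38) = true := by decide +kernel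
def p12_20_2_38 : pfC (piC [(nat_lit 35404596), (nat_lit 22827826), (nat_lit 14696761)] (nat_lit 7787052)) p12_20_2 (nat_lit 3) (nat_lit 38) (nat_lit 39) = true := by decide +kernel
def p12_20_2_39 : pfC (piC [(nat_lit 35404596), (nat_lit 22827826), (nat_lit 14696761)] (nat_lit 7787052)) p12_20_2 (nat_lit 3) (nat_lit 39) (nat_lit 40) = true := by decide +kernel
def p12_20_2_40 : pfC (piC [(nat_lit 35404596), (nat_lit 22827826), (nat_lit 14696761)] (nat_lit 7787052)) p12_20_2 (nat_lit 3) (nat_lit 40) (nat_lit 41) = true := by decide +kernel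
def p12_20_2_41 : pfC (piC [(nat_lit 35404596), (nat_lit 22827826), (nat_lit 14696761)] (nat_lit 7787052)) p12_20_2 (nat_lit 3) (nat_lit 41) (nat_lit 42) = true := by decide +kernel
def p12_20_2_42 : pfC (piC [(nat_lit 35404596), (nat_lit 22827826), (nat_lit 14696761)] (nat_lit 7787052)) p12_20_2 (nat_lit 3) (nat_lit 42) (nat_lit 43) = true := by decide +kernel
def p12_20_2_43 : pfC (piC [(nat_lit 35404596), (nat_lit 22827826), (nat_lit 14696761)] (nat_lit 7787052)) p12_20_2 (nat_lit 3) (nat_lit 43) (nat_lit 44) = true := by decide +kernel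
def p12_20_2_44 : pfC (piC [(nat_lit 35404596), (nat_lit 22827826), (nat_lit 14696761)] (nat_lit 7787052)) p12_20_2 (nat_lit 3) (nat_lit 44) (nat_lit 45) = true := by decide +kernel
def p12_20_2_45 : pfC (piC [(nat_lit 35404596), (nat_lit 22827826), (nat_lit 14696761)] (nat_lit 7787052)) p12_20_2 (nat_lit 3) (nat_lit 45) (nat_lit 46) = true := by decide +kernel
def p12_20_2_46 : pfC (piC [(nat_lit 35404596), (nat_lit 22827826), (nat_lit 14696761)] (nat_lit 7787052)) p12_20_2 (nat_lit 3) (nat_lit 46) (nat_lit 47) = true := by decide +kernel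
def p12_20_2_47 : pfC (piC [(nat_lit 35404596), (nat_lit 22827826), (nat_lit 14696761)] (nat_lit 7787052)) p12_20_2 (nat_lit 3) (nat_lit 47) (nat_lit 48) = true := by decide +kernel
def p12_20_2_48 : pfC (piC [(nat_lit 35404596), (nat_lit 22827826), (nat_lit 14696761)] (nat_lit 7787052)) p12_20_2 (nat_lit 3) (nat_lit 48) (nat_lit 49) = true := by decide +kernel
def p12_20_2_49 : pfC (piC [(nat_lit 35404596), (nat_lit 22827826), (nat_lit 14696761)] (nat_lit 7787052)) p12_20_2 (nat_lit 3) (nat_lit 49) (nat_lit 50) = true := by decide +kernel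
def p12_20_2_50 : pfC (piC [(nat_lit 35404596), (nat_lit 22827826), (nat_lit 14696761)] (nat_lit 7787052)) p12_20_2 (nat_lit 3) (nat_lit 50) (nat_lit 51) = true := by decide +kernel
def p12_20_2_51 : pfC (piC [(nat_lit 35404596), (nat_lit 22827826), (nat_lit 14696761)] (nat_lit 7787052)) p12_20_2 (nat_lit 3) (nat_lit 51) (nat_lit 52) = true := by decide +kernel
def p12_20_2_52 : pfC (piC [(nat_lit 35404596), (nat_lit 22827826), (nat_lit 14696761)] (nat_lit 7787052)) p12_20_2 (nat_lit 3) (nat_lit 52) (nat_lit 53) = true := by decide +kernel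
def p12_20_2_53 : pfC (piC [(nat_lit 35404596), (nat_lit 22827826), (nat_lit 14696761)] (nat_lit 7787052)) p12_20_2 (nat_lit 3) (nat_lit 53) (nat_lit 54) = true := by decide +kernel
def p12_20_2_54 : pfC (piC [(nat_lit 35404596), (nat_lit 22827826), (nat_lit 14696761)] (nat_lit 7787052)) p12_20_2 (nat_lit 3) (nat_lit 54) (nat_lit 55) = true := by decide +kernel
def p12_20_2_55 : pfC (piC [(nat_lit 35404596), (nat_lit 22827826), (nat_lit 14696761)] (nat_lit 7787052)) p12_20_2 (nat_lit 3) (nat_lit 55) (nat_lit 56) = true := by decide +kernel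
def p12_20_2_56 : pfC (piC [(nat_lit 35404596), (nat_lit 22827826), (nat_lit 14696761)] (nat_lit 7787052)) p12_20_2 (nat_lit 3) (nat_lit 56) (nat_lit 57) = true := by decide +kernel
def p12_20_2_57 : pfC (piC [(nat_lit 35404596), (nat_lit 22827826), (nat_lit 14696761)] (nat_lit 7787052)) p12_20_2 (nat_lit 3) (nat_lit 57) (nat_lit 58) = true := by decide +kernel
def p12_20_2_58 : pfC (piC [(nat_lit 35404596), (nat_lit 22827826), (nat_lit 14696761)] (nat_lit 7787052)) p12_20_2 (nat_lit 3) (nat_lit 58) (nat_lit 59) = true := by decide +kernel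
def p12_20_2_59 : pfC (piC [(nat_lit 35404596), (nat_lit 22827826), (nat_lit 14696761)] (nat_lit 7787052)) p12_20_2 (nat_lit 3) (nat_lit 59) (nat_lit 60) = true := by decide +kernel
def p12_20_2_60 : pfC (piC [(nat_lit 35404596), (nat_lit 22827826), (nat_lit 14696761)] (nat_lit 7787052)) p12_20_2 (nat_lit 3) (nat_lit 60) (nat_lit 61) = true := by decide +kernel
def p12_20_2_61 : pfC (piC [(nat_lit 35404596), (nat_lit 22827826), (nat_lit 14696761)] (nat_lit 7787052)) p12_20_2 (nat_lit 3) (nat_lit 61) (nat_lit 62) = true := by decide +kernel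
def p12_20_2_62 : pfC (piC [(nat_lit 35404596), (nat_lit 22827826), (nat_lit 14696761)] (nat_lit 7787052)) p12_20_2 (nat_lit 3) (nat_lit 62) (nat_lit 63) = true := by decide +kernel
def p12_20_2_63 : pfC (piC [(nat_lit 35404596), (nat_lit 22827826), (nat_lit 14696761)] (nat_lit 7787052)) p12_20_2 (nat_lit 3) (nat_lit 63) (nat_lit 64) = true := by decide +kernel
def p12_20_2_64 : pfC (piC [(nat_lit 35404596), (nat_lit 22827826), (nat_lit 14696761)] (nat_lit 7787052)) p12_20_2 (nat_lit 3) (nat_lit 64) (nat_lit 65) = true := by decide +kernel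
def p12_20_2_65 : pfC (piC [(nat_lit 35404596), (nat_lit 22827826), (nat_lit 14696761)] (nat_lit 7787052)) p12_20_2 (nat_lit 3) (nat_lit 65) (nat_lit 66) = true := by decide +kernel
def p12_20_2_66 : pfC (piC [(nat_lit 35404596), (nat_lit 22827826), (nat_lit 14696761)] (nat_lit 7787052)) p12_20_2 (nat_lit 3) (nat_lit 66) (nat_lit 67) = true := by decide +kernel
def p12_20_2_67 : pfC (piC [(nat_lit 35404596), (nat_lit 22827826), (nat_lit 14696761)] (nat_lit 7787052)) p12_20_2 (nat_lit 3) (nat_lit 67) (nat_lit 68) = true := by decide +kernel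
def p12_20_2_68 : pfC (piC [(nat_lit 35404596), (nat_lit 22827826), (nat_lit 14696761)] (nat_lit 7787052)) p12_20_2 (nat_lit 3) (nat_lit 68) (nat_lit 69) = true := by decide +kernel
def p12_20_2_69 : pfC (piC [(nat_lit 35404596), (nat_lit 22827826), (nat_lit 14696761)] (nat_lit 7787052)) p12_20_2 (nat_lit 3) (nat_lit 69) (nat_lit 70) = true := by decide +kernel
def p12_20_2_70 : pfC (piC [(nat_lit 35404596), (nat_lit 22827826), (nat_lit 14696761)] (nat_lit 7787052)) p12_20_2 (nat_lit 3) (nat_lit 70) (nat_lit 71) = true := by decide +kernel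
def p12_20_2_71 : pfC (piC [(nat_lit 35404596), (nat_lit 22827826), (nat_lit 14696761)] (nat_lit 7787052)) p12_20_2 (nat_lit 3) (nat_lit 71) (nat_lit 72) = true := by decide +kernel
def p12_20_2_72 : pfC (piC [(nat_lit 35404596), (nat_lit 22827826), (nat_lit 14696761)] (nat_lit 7787052)) p12_20_2 (nat_lit 3) (nat_lit 72) (nat_lit 73) = true := by decide +kernel
def p12_20_2_73 : pfC (piC [(nat_lit 35404596), (nat_lit 22827826), (nat_lit 14696761)] (nat_lit 7787052)) p12_20_2 (nat_lit 3) (nat_lit 73) (nat_lit 74) = true := by decide +kernel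
def p12_20_2_74 : pfC (piC [(nat_lit 35404596), (nat_lit 22827826), (nat_lit 14696761)] (nat_lit 7787052)) p12_20_2 (nat_lit 3) (nat_lit 74) (nat_lit 75) = true := by decide +kernel
def p12_20_2_75 : pfC (piC [(nat_lit 35404596), (nat_lit 22827826), (nat_lit 14696761)] (nat_lit 7787052)) p12_20_2 (nat_lit 3) (nat_lit 75) (nat_lit 76) = true := by decide +kernel
def p12_20_2_76 : pfC (piC [(nat_lit 35404596), (nat_lit 22827826), (nat_lit 14696761)] (nat_lit 7787052)) p12_20_2 (nat_lit 3) (nat_lit 76) (nat_lit 77) = true := by decide +kernel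
def p12_20_2_77 : pfC (piC [(nat_lit 35404596), (nat_lit 22827826), (nat_lit 14696761)] (nat_lit 7787052)) p12_20_2 (nat_lit 3) (nat_lit 77) (nat_lit 78) = true := by decide +kernel
def p12_20_2_78 : pfC (piC [(nat_lit 35404596), (nat_lit 22827826), (nat_lit 14696761)] (nat_lit 7787052)) p12_20_2 (nat_lit 3) (nat_lit 78) (nat_lit 79) = true := by decide +kernel
def p12_20_2_79 : pfC (piC [(nat_lit 35404596), (nat_lit 22827826), (nat_lit 14696761)] (nat_lit 7787052)) p12_20_2 (nat_lit 3) (nat_lit 79) (nat_lit 80) = true := by decide +kernel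
def p12_20_2_80 : pfC (piC [(nat_lit 35404596), (nat_lit 22827826), (nat_lit 14696761)] (nat_lit 7787052)) p12_20_2 (nat_lit 3) (nat_lit 80) (nat_lit 81) = true := by decide +kernel
def p12_20_2_81 : pfC (piC [(nat_lit 35404596), (nat_lit 22827826), (nat_lit 14696761)] (nat_lit 7787052)) p12_20_2 (nat_lit 3) (nat_lit 81) (nat_lit 82) = true := by decide +kernel
def p12_20_2_82 : pfC (piC [(nat_lit 35404596), (nat_lit 22827826), (nat_lit 14696761)] (nat_lit 7787052)) p12_20_2 (nat_lit 3) (nat_lit 82) (nat_lit 83) = true := by decide +kernel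
def p12_20_2_83 : pfC (piC [(nat_lit 35404596), (nat_lit 22827826), (nat_lit 14696761)] (nat_lit 7787052)) p12_20_2 (nat_lit 3) (nat_lit 83) (nat_lit 84) = true := by decide +kernel
def p12_20_2_84 : pfC (piC [(nat_lit 35404596), (nat_lit 22827826), (nat_lit 14696761)] (nat_lit 7787052)) p12_20_2 (nat_lit 3) (nat_lit 84) (nat_lit 85) = true := by decide +kernel
def p12_20_2_85 : pfC (piC [(nat_lit 35404596), (nat_lit 22827826), (nat_lit 14696761)] (nat_lit 7787052)) p12_20_2 (nat_lit 3) (nat_lit 85) (nat_lit 86) = true := by decide +kernel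
def p12_20_2_86 : pfC (piC [(nat_lit 35404596), (nat_lit 22827826), (nat_lit 14696761)] (nat_lit 7787052)) p12_20_2 (nat_lit 3) (nat_lit 86) (nat_lit 87) = true := by decide +kernel
def p12_20_2_87 : pfC (piC [(nat_lit 35404596), (nat_lit 22827826), (nat_lit 14696761)] (nat_lit 7787052)) p12_20_2 (nat_lit 3) (nat_lit 87) (nat_lit 88) = true := by decide +kernel
def p12_20_2_88 : pfC (piC [(nat_lit 35404596), (nat_lit 22827826), (nat_lit 14696761)] (nat_lit 7787052)) p12_20_2 (nat_lit 3) (nat_lit 88) (nat_lit 89) = true := by decide +kernel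
def p12_20_2_89 : pfC (piC [(nat_lit 35404596), (nat_lit 22827826), (nat_lit 14696761)] (nat_lit 7787052)) p12_20_2 (nat_lit 3) (nat_lit 89) (nat_lit 90) = true := by decide +kernel
def p12_20_2_90 : pfC (piC [(nat_lit 35404596), (nat_lit 22827826), (nat_lit 14696761)] (nat_lit 7787052)) p12_20_2 (nat_lit 3) (nat_lit 90) (nat_lit 91) = true := by decide +kernel
def p12_20_2_91 : pfC (piC [(nat_lit 35404596), (nat_lit 22827826), (nat_lit 14696761)] (nat_lit 7787052)) p12_20_2 (nat_lit 3) (nat_lit 91) (nat_lit 92) = true := by decide +kernel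
def p12_20_2_92 : pfC (piC [(nat_lit 35404596), (nat_lit 22827826), (nat_lit 14696761)] (nat_lit 7787052)) p12_20_2 (nat_lit 3) (nat_lit 92) (nat_lit 93) = true := by decide +kernel
def p12_20_2_93 : pfC (piC [(nat_lit 35404596), (nat_lit 22827826), (nat_lit 14696761)] (nat_lit 7787052)) p12_20_2 (nat_lit 3) (nat_lit 93) (nat_lit 94) = true := by decide +kernel
def p12_20_2_94 : pfC (piC [(nat_lit 35404596), (nat_lit 22827826), (nat_lit 14696761)] (nat_lit 7787052)) p12_20_2 (nat_lit 3) (nat_lit 94) (nat_lit 95) = true := by decide +kernel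
def p12_20_2_95 : pfC (piC [(nat_lit 35404596), (nat_lit 22827826), (nat_lit 14696761)] (nat_lit 7787052)) p12_20_2 (nat_lit 3) (nat_lit 95) (nat_lit 96) = true := by decide +kernel
def p12_20_2_96 : pfC (piC [(nat_lit 35404596), (nat_lit 22827826), (nat_lit 14696761)] (nat_lit 7787052)) p12_20_2 (nat_lit 3) (nat_lit 96) (nat_lit 97) = true := by decide +kernel
def p12_20_2_97 : pfC (piC [(nat_lit 35404596), (nat_lit 22827826), (nat_lit 14696761)] (nat_lit 7787052)) p12_20_2 (nat_lit 3) (nat_lit 97) (nat_lit 98) = true := by decide +kernel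
def p12_20_2_98 : pfC (piC [(nat_lit 35404596), (nat_lit 22827826), (nat_lit 14696761)] (nat_lit 7787052)) p12_20_2 (nat_lit 3) (nat_lit 98) (nat_lit 99) = true := by decide +kernel
def p12_20_2_99 : pfC (piC [(nat_lit 35404596), (nat_lit 22827826), (nat_lit 14696761)] (nat_lit 7787052)) p12_20_2 (nat_lit 3) (nat_lit 99) (nat_lit 100) = true := by decide +kernel
def p12_20_2_100 : pfC (piC [(nat_lit 35404596), (nat_lit 22827826), (nat_lit 14696761)] (nat_lit 7787052)) p12_20_2 (nat_lit 3) (nat_lit 100) (nat_lit 101) = true := by decide +kernel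
def p12_20_2_101 : pfC (piC [(nat_lit 35404596), (nat_lit 22827826), (nat_lit 14696761)] (nat_lit 7787052)) p12_20_2 (nat_lit 3) (nat_lit 101) (nat_lit 102) = true := by decide +kernel
def p12_20_2_102 : pfC (piC [(nat_lit 35404596), (nat_lit 22827826), (nat_lit 14696761)] (nat_lit 7787052)) p12_20_2 (nat_lit 3) (nat_lit 102) (nat_lit 103) = true := by decide +kernel
def p12_20_2_103 : pfC (piC [(nat_lit 35404596), (nat_lit 22827826), (nat_lit 14696761)] (nat_lit 7787052)) p12_20_2 (nat_lit 3) (nat_lit 103) (nat_lit 104) = true := by decide +kernel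
def p12_20_2_104 : pfC (piC [(nat_lit 35404596), (nat_lit 22827826), (nat_lit 14696761)] (nat_lit 7787052)) p12_20_2 (nat_lit 3) (nat_lit 104) (nat_lit 105) = true := by decide +kernel
def p12_20_2_105 : pfC (piC [(nat_lit 35404596), (nat_lit 22827826), (nat_lit 14696761)] (nat_lit 7787052)) p12_20_2 (nat_lit 3) (nat_lit 105) (nat_lit 106) = true := by decide +kernel
def p12_20_2_106 : pfC (piC [(nat_lit 35404596), (nat_lit 22827826), (nat_lit 14696761)] (nat_lit 7787052)) p12_20_2 (nat_lit 3) (nat_lit 106) (nat_lit 107) = true := by decide +kernel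
def p12_20_2_107 : pfC (piC [(nat_lit 35404596), (nat_lit 22827826), (nat_lit 14696761)] (nat_lit 7787052)) p12_20_2 (nat_lit 3) (nat_lit 107) (nat_lit 108) = true := by decide +kernel
def p12_20_2_108 : pfC (piC [(nat_lit 35404596), (nat_lit 22827826), (nat_lit 14696761)] (nat_lit 7787052)) p12_20_2 (nat_lit 3) (nat_lit 108) (nat_lit 109) = true := by decide +kernel
def p12_20_2_109 : pfC (piC [(nat_lit 35404596), (nat_lit 22827826), (nat_lit 14696761)] (nat_lit 7787052)) p12_20_2 (nat_lit 3) (nat_lit 109) (nat_lit 110) = true := by decide +kernel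
def p12_20_2_110 : pfC (piC [(nat_lit 35404596), (nat_lit 22827826), (nat_lit 14696761)] (nat_lit 7787052)) p12_20_2 (nat_lit 3) (nat_lit 110) (nat_lit 111) = true := by decide +kernel
def p12_20_2_111 : pfC (piC [(nat_lit 35404596), (nat_lit 22827826), (nat_lit 14696761)] (nat_lit 7787052)) p12_20_2 (nat_lit 3) (nat_lit 111) (nat_lit 112) = true := by decide +kernel
def p12_20_2_112 : pfC (piC [(nat_lit 35404596), (nat_lit 22827826), (nat_lit 14696761)] (nat_lit 7787052)) p12_20_2 (nat_lit 3) (nat_lit 112) (nat_lit 113) = true := by decide +kernel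
def p12_20_2_113 : pfC (piC [(nat_lit 35404596), (nat_lit 22827826), (nat_lit 14696761)] (nat_lit 7787052)) p12_20_2 (nat_lit 3) (nat_lit 113) (nat_lit 114) = true := by decide +kernel
def p12_20_2_114 : pfC (piC [(nat_lit 35404596), (nat_lit 22827826), (nat_lit 14696761)] (nat_lit 7787052)) p12_20_2 (nat_lit 3) (nat_lit 114) (nat_lit 115) = true := by decide +kernel
def p12_20_2_115 : pfC (piC [(nat_lit 35404596), (nat_lit 22827826), (nat_lit 14696761)] (nat_lit 7787052)) p12_20_2 (nat_lit 3) (nat_lit 115) (nat_lit 116) = true := by decide +kernel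
def p12_20_2_116 : pfC (piC [(nat_lit 35404596), (nat_lit 22827826), (nat_lit 14696761)] (nat_lit 7787052)) p12_20_2 (nat_lit 3) (nat_lit 116) (nat_lit 117) = true := by decide +kernel
def p12_20_2_117 : pfC (piC [(nat_lit 35404596), (nat_lit 22827826), (nat_lit 14696761)] (nat_lit 7787052)) p12_20_2 (nat_lit 3) (nat_lit 117) (nat_lit 118) = true := by decide +kernel
def p12_20_2_118 : pfC (piC [(nat_lit 35404596), (nat_lit 22827826), (nat_lit 14696761)] (nat_lit 7787052)) p12_20_2 (nat_lit 3) (nat_lit 118) (nat_lit 119) = true := by decide +kernel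
def p12_20_2_119 : pfC (piC [(nat_lit 35404596), (nat_lit 22827826), (nat_lit 14696761)] (nat_lit 7787052)) p12_20_2 (nat_lit 3) (nat_lit 119) (nat_lit 120) = true := by decide +kernel
def p12_20_2_120 : pfC (piC [(nat_lit 35404596), (nat_lit 22827826), (nat_lit 14696761)] (nat_lit 7787052)) p12_20_2 (nat_lit 3) (nat_lit 120) (nat_lit 121) = true := by decide +kernel
def p12_20_2_121 : pfC (piC [(nat_lit 35404596), (nat_lit 22827826), (nat_lit 14696761)] (nat_lit 7787052)) p12_20_2 (nat_lit 3) (nat_lit 121) (nat_lit 122) = true := by decide +kernel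
def p12_20_2_122 : pfC (piC [(nat_lit 35404596), (nat_lit 22827826), (nat_lit 14696761)] (nat_lit 7787052)) p12_20_2 (nat_lit 3) (nat_lit 122) (nat_lit 123) = true := by decide +kernel
def p12_20_2_123 : pfC (piC [(nat_lit 35404596), (nat_lit 22827826), (nat_lit 14696761)] (nat_lit 7787052)) p12_20_2 (nat_lit 3) (nat_lit 123) (nat_lit 124) = true := by decide +kernel
def p12_20_2_124 : pfC (piC [(nat_lit 35404596), (nat_lit 22827826), (nat_lit 14696761)] (nat_lit 7787052)) p12_20_2 (nat_lit 3) (nat_lit 124) (nat_lit 125) = true := by decide +kernel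
def p12_20_2_125 : pfC (piC [(nat_lit 35404596), (nat_lit 22827826), (nat_lit 14696761)] (nat_lit 7787052)) p12_20_2 (nat_lit 3) (nat_lit 125) (nat_lit 126) = true := by decide +kernel
def p12_20_2_126 : pfC (piC [(nat_lit 35404596), (nat_lit 22827826), (nat_lit 14696761)] (nat_lit 7787052)) p12_20_2 (nat_lit 3) (nat_lit 126) (nat_lit 127) = true := by decide +kernel
def p12_20_2_127 : pfC (piC [(nat_lit 35404596), (nat_lit 22827826), (nat_lit 14696761)] (nat_lit 7787052)) p12_20_2 (nat_lit 3) (nat_lit 127) (nat_lit 128) = true := by decide +kernel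
def p12_20_2_128 : pfC (piC [(nat_lit 35404596), (nat_lit 22827826), (nat_lit 14696761)] (nat_lit 7787052)) p12_20_2 (nat_lit 3) (nat_lit 128) (nat_lit 129) = true := by decide +kernel
def p12_20_2_129 : pfC (piC [(nat_lit 35404596), (nat_lit 22827826), (nat_lit 14696761)] (nat_lit 7787052)) p12_20_2 (nat_lit 3) (nat_lit 129) (nat_lit 130) = true := by decide +kernel
def p12_20_2_130 : pfC (piC [(nat_lit 35404596), (nat_lit 22827826), (nat_lit 14696761)] (nat_lit 7787052)) p12_20_2 (nat_lit 3) (nat_lit 130) (nat_lit 131) = true := by decide +kernel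
def p12_20_2_131 : pfC (piC [(nat_lit 35404596), (nat_lit 22827826), (nat_lit 14696761)] (nat_lit 7787052)) p12_20_2 (nat_lit 3) (nat_lit 131) (nat_lit 132) = true := by decide +kernel
def p12_20_2_132 : pfC (piC [(nat_lit 35404596), (nat_lit 22827826), (nat_lit 14696761)] (nat_lit 7787052)) p12_20_2 (nat_lit 3) (nat_lit 132) (nat_lit 133) = true := by decide +kernel
def p12_20_2_133 : pfC (piC [(nat_lit 35404596), (nat_lit 22827826), (nat_lit 14696761)] (nat_lit 7787052)) p12_20_2 (nat_lit 3) (nat_lit 133) (nat_lit 134) = true := by decide +kernel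
def p12_20_2_134 : pfC (piC [(nat_lit 35404596), (nat_lit 22827826), (nat_lit 14696761)] (nat_lit 7787052)) p12_20_2 (nat_lit 3) (nat_lit 134) (nat_lit 135) = true := by decide +kernel
def p12_20_2_135 : pfC (piC [(nat_lit 35404596), (nat_lit 22827826), (nat_lit 14696761)] (nat_lit 7787052)) p12_20_2 (nat_lit 3) (nat_lit 135) (nat_lit 136) = true := by decide +kernel
def p12_20_2_136 : pfC (piC [(nat_lit 35404596), (nat_lit 22827826), (nat_lit 14696761)] (nat_lit 7787052)) p12_20_2 (nat_lit 3) (nat_lit 136) (nat_lit 137) = true := by decide +kernel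
def p12_20_2_137 : pfC (piC [(nat_lit 35404596), (nat_lit 22827826), (nat_lit 14696761)] (nat_lit 7787052)) p12_20_2 (nat_lit 3) (nat_lit 137) (nat_lit 138) = true := by decide +kernel
def p12_20_2_138 : pfC (piC [(nat_lit 35404596), (nat_lit 22827826), (nat_lit 14696761)] (nat_lit 7787052)) p12_20_2 (nat_lit 3) (nat_lit 138) (nat_lit 139) = true := by decide +kernel
def p12_20_2_139 : pfC (piC [(nat_lit 35404596), (nat_lit 22827826), (nat_lit 14696761)] (nat_lit 7787052)) p12_20_2 (nat_lit 3) (nat_lit 139) (nat_lit 140) = true := by decide +kernel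
def p12_20_2_140 : pfC (piC [(nat_lit 35404596), (nat_lit 22827826), (nat_lit 14696761)] (nat_lit 7787052)) p12_20_2 (nat_lit 3) (nat_lit 140) (nat_lit 141) = true := by decide +kernel
def p12_20_2_141 : pfC (piC [(nat_lit 35404596), (nat_lit 22827826), (nat_lit 14696761)] (nat_lit 7787052)) p12_20_2 (nat_lit 3) (nat_lit 141) (nat_lit 142) = true := by decide +kernel
def p12_20_2_142 : pfC (piC [(nat_lit 35404596), (nat_lit 22827826), (nat_lit 14696761)] (nat_lit 7787052)) p12_20_2 (nat_lit 3) (nat_lit 142) (nat_lit 143) = true := by decide +kernel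
def p12_20_2_143 : pfC (piC [(nat_lit 35404596), (nat_lit 22827826), (nat_lit 14696761)] (nat_lit 7787052)) p12_20_2 (nat_lit 3) (nat_lit 143) (nat_lit 144) = true := by decide +kernel
def p12_20_2_144 : pfC (piC [(nat_lit 35404596), (nat_lit 22827826), (nat_lit 14696761)] (nat_lit 7787052)) p12_20_2 (nat_lit 3) (nat_lit 144) (nat_lit 145) = true := by decide +kernel
def p12_20_2_145 : pfC (piC [(nat_lit 35404596), (nat_lit 22827826), (nat_lit 14696761)] (nat_lit 7787052)) p12_20_2 (nat_lit 3) (nat_lit 145) (nat_lit 146) = true := by decide +kernel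
def p12_20_2_146 : pfC (piC [(nat_lit 35404596), (nat_lit 22827826), (nat_lit 14696761)] (nat_lit 7787052)) p12_20_2 (nat_lit 3) (nat_lit 146) (nat_lit 147) = true := by decide +kernel
def p12_20_2_147 : pfC (piC [(nat_lit 35404596), (nat_lit 22827826), (nat_lit 14696761)] (nat_lit 7787052)) p12_20_2 (nat_lit 3) (nat_lit 147) (nat_lit 148) = true := by decide +kernel
def p12_20_2_148 : pfC (piC [(nat_lit 35404596), (nat_lit 22827826), (nat_lit 14696761)] (nat_lit 7787052)) p12_20_2 (nat_lit 3) (nat_lit 148) (nat_lit 149) = true := by decide +kernel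
def p12_20_2_149 : pfC (piC [(nat_lit 35404596), (nat_lit 22827826), (nat_lit 14696761)] (nat_lit 7787052)) p12_20_2 (nat_lit 3) (nat_lit 149) (nat_lit 150) = true := by decide +kernel
def p12_20_2_150 : pfC (piC [(nat_lit 35404596), (nat_lit 22827826), (nat_lit 14696761)] (nat_lit 7787052)) p12_20_2 (nat_lit 3) (nat_lit 150) (nat_lit 151) = true := by decide +kernel
def p12_20_2_151 : pfC (piC [(nat_lit 35404596), (nat_lit 22827826), (nat_lit 14696761)] (nat_lit 7787052)) p12_20_2 (nat_lit 3) (nat_lit 151) (nat_lit 152) = true := by decide +kernel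
def p12_20_2_152 : pfC (piC [(nat_lit 35404596), (nat_lit 22827826), (nat_lit 14696761)] (nat_lit 7787052)) p12_20_2 (nat_lit 3) (nat_lit 152) (nat_lit 153) = true := by decide +kernel
def p12_20_2_153 : pfC (piC [(nat_lit 35404596), (nat_lit 22827826), (nat_lit 14696761)] (nat_lit 7787052)) p12_20_2 (nat_lit 3) (nat_lit 153) (nat_lit 154) = true := by decide +kernel
def p12_20_2_154 : pfC (piC [(nat_lit 35404596), (nat_lit 22827826), (nat_lit 14696761)] (nat_lit 7787052)) p12_20_2 (nat_lit 3) (nat_lit 154) (nat_lit 155) = true := by decide +kernel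
def p12_20_2_155 : pfC (piC [(nat_lit 35404596), (nat_lit 22827826), (nat_lit 14696761)] (nat_lit 7787052)) p12_20_2 (nat_lit 3) (nat_lit 155) (nat_lit 156) = true := by decide +kernel
def p12_20_2_156 : pfC (piC [(nat_lit 35404596), (nat_lit 22827826), (nat_lit 14696761)] (nat_lit 7787052)) p12_20_2 (nat_lit 3) (nat_lit 156) (nat_lit 157) = true := by decide +kernel
def p12_20_2_157 : pfC (piC [(nat_lit 35404596), (nat_lit 22827826), (nat_lit 14696761)] (nat_lit 7787052)) p12_20_2 (nat_lit 3) (nat_lit 157) (nat_lit 158) = true := by decide +kernel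
def p12_20_2_158 : pfC (piC [(nat_lit 35404596), (nat_lit 22827826), (nat_lit 14696761)] (nat_lit 7787052)) p12_20_2 (nat_lit 3) (nat_lit 158) (nat_lit 159) = true := by decide +kernel
def p12_20_2_159 : pfC (piC [(nat_lit 35404596), (nat_lit 22827826), (nat_lit 14696761)] (nat_lit 7787052)) p12_20_2 (nat_lit 3) (nat_lit 159) (nat_lit 160) = true := by decide +kernel
def p12_20_2_160 : pfC (piC [(nat_lit 35404596), (nat_lit 22827826), (nat_lit 14696761)] (nat_lit 7787052)) p12_20_2 (nat_lit 3) (nat_lit 160) (nat_lit 161) = true := by decide +kernel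
def p12_20_2_161 : pfC (piC [(nat_lit 35404596), (nat_lit 22827826), (nat_lit 14696761)] (nat_lit 7787052)) p12_20_2 (nat_lit 3) (nat_lit 161) (nat_lit 162) = true := by decide +kernel
def p12_20_2_162 : pfC (piC [(nat_lit 35404596), (nat_lit 22827826), (nat_lit 14696761)] (nat_lit 7787052)) p12_20_2 (nat_lit 3) (nat_lit 162) (nat_lit 163) = true := by decide +kernel
def p12_20_2_163 : pfC (piC [(nat_lit 35404596), (nat_lit 22827826), (nat_lit 14696761)] (nat_lit 7787052)) p12_20_2 (nat_lit 3) (nat_lit 163) (nat_lit 164) = true := by decide +kernel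
def p12_20_2_164 : pfC (piC [(nat_lit 35404596), (nat_lit 22827826), (nat_lit 14696761)] (nat_lit 7787052)) p12_20_2 (nat_lit 3) (nat_lit 164) (nat_lit 165) = true := by decide +kernel
def p12_20_2_165 : pfC (piC [(nat_lit 35404596), (nat_lit 22827826), (nat_lit 14696761)] (nat_lit 7787052)) p12_20_2 (nat_lit 3) (nat_lit 165) (nat_lit 166) = true := by decide +kernel
def p12_20_2_166 : pfC (piC [(nat_lit 35404596), (nat_lit 22827826), (nat_lit 14696761)] (nat_lit 7787052)) p12_20_2 (nat_lit 3) (nat_lit 166) (nat_lit 167) = true := by decide +kernel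
def p12_20_2_167 : pfC (piC [(nat_lit 35404596), (nat_lit 22827826), (nat_lit 14696761)] (nat_lit 7787052)) p12_20_2 (nat_lit 3) (nat_lit 167) (nat_lit 168) = true := by decide +kernel
def p12_20_2_168 : pfC (piC [(nat_lit 35404596), (nat_lit 22827826), (nat_lit 14696761)] (nat_lit 7787052)) p12_20_2 (nat_lit 3) (nat_lit 168) (nat_lit 169) = true := by decide +kernel
def p12_20_2_169 : pfC (piC [(nat_lit 35404596), (nat_lit 22827826), (nat_lit 14696761)] (nat_lit 7787052)) p12_20_2 (nat_lit 3) (nat_lit 169) (nat_lit 170) = true := by decide +kernel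
def p12_20_2_170 : pfC (piC [(nat_lit 35404596), (nat_lit 22827826), (nat_lit 14696761)] (nat_lit 7787052)) p12_20_2 (nat_lit 3) (nat_lit 170) (nat_lit 171) = true := by decide +kernel
def p12_20_2_171 : pfC (piC [(nat_lit 35404596), (nat_lit 22827826), (nat_lit 14696761)] (nat_lit 7787052)) p12_20_2 (nat_lit 3) (nat_lit 171) (nat_lit 172) = true := by decide +kernel
def p12_20_2_172 : pfC (piC [(nat_lit 35404596), (nat_lit 22827826), (nat_lit 14696761)] (nat_lit 7787052)) p12_20_2 (nat_lit 3) (nat_lit 172) (nat_lit 173) = true := by decide +kernel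
def p12_20_2_173 : pfC (piC [(nat_lit 35404596), (nat_lit 22827826), (nat_lit 14696761)] (nat_lit 7787052)) p12_20_2 (nat_lit 3) (nat_lit 173) (nat_lit 174) = true := by decide +kernel
def p12_20_2_174 : pfC (piC [(nat_lit 35404596), (nat_lit 22827826), (nat_lit 14696761)] (nat_lit 7787052)) p12_20_2 (nat_lit 3) (nat_lit 174) (nat_lit 175) = true := by decide +kernel
def p12_20_2_175 : pfC (piC [(nat_lit 35404596), (nat_lit 22827826), (nat_lit 14696761)] (nat_lit 7787052)) p12_20_2 (nat_lit 3) (nat_lit 175) (nat_lit 176) = true := by decide +kernel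
def p12_20_2_176 : pfC (piC [(nat_lit 35404596), (nat_lit 22827826), (nat_lit 14696761)] (nat_lit 7787052)) p12_20_2 (nat_lit 3) (nat_lit 176) (nat_lit 177) = true := by decide +kernel
def p12_20_2_177 : pfC (piC [(nat_lit 35404596), (nat_lit 22827826), (nat_lit 14696761)] (nat_lit 7787052)) p12_20_2 (nat_lit 3) (nat_lit 177) (nat_lit 178) = true := by decide +kernel
def p12_20_2_178 : pfC (piC [(nat_lit 35404596), (nat_lit 22827826), (nat_lit 14696761)] (nat_lit 7787052)) p12_20_2 (nat_lit 3) (nat_lit 178) (nat_lit 179) = true := by decide +kernel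
def p12_20_2_179 : pfC (piC [(nat_lit 35404596), (nat_lit 22827826), (nat_lit 14696761)] (nat_lit 7787052)) p12_20_2 (nat_lit 3) (nat_lit 179) (nat_lit 180) = true := by decide +kernel
def p12_20_2_180 : pfC (piC [(nat_lit 35404596), (nat_lit 22827826), (nat_lit 14696761)] (nat_lit 7787052)) p12_20_2 (nat_lit 3) (nat_lit 180) (nat_lit 181) = true := by decide +kernel
def p12_20_2_181 : pfC (piC [(nat_lit 35404596), (nat_lit 22827826), (nat_lit 14696761)] (nat_lit 7787052)) p12_20_2 (nat_lit 3) (nat_lit 181) (nat_lit 182) = true := by decide +kernel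
def p12_20_2_182 : pfC (piC [(nat_lit 35404596), (nat_lit 22827826), (nat_lit 14696761)] (nat_lit 7787052)) p12_20_2 (nat_lit 3) (nat_lit 182) (nat_lit 183) = true := by decide +kernel
def p12_20_2_183 : pfC (piC [(nat_lit 35404596), (nat_lit 22827826), (nat_lit 14696761)] (nat_lit 7787052)) p12_20_2 (nat_lit 3) (nat_lit 183) (nat_lit 184) = true := by decide +kernel
def p12_20_2_184 : pfC (piC [(nat_lit 35404596), (nat_lit 22827826), (nat_lit 14696761)] (nat_lit 7787052)) p12_20_2 (nat_lit 3) (nat_lit 184) (nat_lit 185) = true := by decide +kernel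
def p12_20_2_185 : pfC (piC [(nat_lit 35404596), (nat_lit 22827826), (nat_lit 14696761)] (nat_lit 7787052)) p12_20_2 (nat_lit 3) (nat_lit 185) (nat_lit 186) = true := by decide +kernel
def p12_20_2_186 : pfC (piC [(nat_lit 35404596), (nat_lit 22827826), (nat_lit 14696761)] (nat_lit 7787052)) p12_20_2 (nat_lit 3) (nat_lit 186) (nat_lit 187) = true := by decide +kernel
def p12_20_2_187 : pfC (piC [(nat_lit 35404596), (nat_lit 22827826), (nat_lit 14696761)] (nat_lit 7787052)) p12_20_2 (nat_lit 3) (nat_lit 187) (nat_lit 188) = true := by decide +kernel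
def p12_20_2_188 : pfC (piC [(nat_lit 35404596), (nat_lit 22827826), (nat_lit 14696761)] (nat_lit 7787052)) p12_20_2 (nat_lit 3) (nat_lit 188) (nat_lit 189) = true := by decide +kernel
def p12_20_2_189 : pfC (piC [(nat_lit 35404596), (nat_lit 22827826), (nat_lit 14696761)] (nat_lit 7787052)) p12_20_2 (nat_lit 3) (nat_lit 189) (nat_lit 190) = true := by decide +kernel
def p12_20_2_190 : pfC (piC [(nat_lit 35404596), (nat_lit 22827826), (nat_lit 14696761)] (nat_lit 7787052)) p12_20_2 (nat_lit 3) (nat_lit 190) (nat_lit 191) = true := by decide +kernel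
def p12_20_2_191 : pfC (piC [(nat_lit 35404596), (nat_lit 22827826), (nat_lit 14696761)] (nat_lit 7787052)) p12_20_2 (nat_lit 3) (nat_lit 191) (nat_lit 192) = true := by decide +kernel
def p12_20_2_192 : pfC (piC [(nat_lit 35404596), (nat_lit 22827826), (nat_lit 14696761)] (nat_lit 7787052)) p12_20_2 (nat_lit 3) (nat_lit 192) (nat_lit 193) = true := by decide +kernel
def p12_20_2_193 : pfC (piC [(nat_lit 35404596), (nat_lit 22827826), (nat_lit 14696761)] (nat_lit 7787052)) p12_20_2 (nat_lit 3) (nat_lit 193) (nat_lit 194) = true := by decide +kernel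
def p12_20_2_194 : pfC (piC [(nat_lit 35404596), (nat_lit 22827826), (nat_lit 14696761)] (nat_lit 7787052)) p12_20_2 (nat_lit 3) (nat_lit 194) (nat_lit 195) = true := by decide +kernel
def p12_20_2_195 : pfC (piC [(nat_lit 35404596), (nat_lit 22827826), (nat_lit 14696761)] (nat_lit 7787052)) p12_20_2 (nat_lit 3) (nat_lit 195) (nat_lit 196) = true := by decide +kernel
def p12_20_2_196 : pfC (piC [(nat_lit 35404596), (nat_lit 22827826), (nat_lit 14696761)] (nat_lit 7787052)) p12_20_2 (nat_lit 3) (nat_lit 196) (nat_lit 197) = true := by decide +kernel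
def p12_20_2_197 : pfC (piC [(nat_lit 35404596), (nat_lit 22827826), (nat_lit 14696761)] (nat_lit 7787052)) p12_20_2 (nat_lit 3) (nat_lit 197) (nat_lit 198) = true := by decide +kernel
def p12_20_2_198 : pfC (piC [(nat_lit 35404596), (nat_lit 22827826), (nat_lit 14696761)] (nat_lit 7787052)) p12_20_2 (nat_lit 3) (nat_lit 198) (nat_lit 199) = true := by decide +kernel
def p12_20_2_199 : pfC (piC [(nat_lit 35404596), (nat_lit 22827826), (nat_lit 14696761)] (nat_lit 7787052)) p12_20_2 (nat_lit 3) (nat_lit 199) (nat_lit 200) = true := by decide +kernel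
def p12_20_2_200 : pfC (piC [(nat_lit 35404596), (nat_lit 22827826), (nat_lit 14696761)] (nat_lit 7787052)) p12_20_2 (nat_lit 3) (nat_lit 200) (nat_lit 201) = true := by decide +kernel
def p12_20_2_201 : pfC (piC [(nat_lit 35404596), (nat_lit 22827826), (nat_lit 14696761)] (nat_lit 7787052)) p12_20_2 (nat_lit 3) (nat_lit 201) (nat_lit 202) = true := by decide +kernel
def p12_20_2_202 : pfC (piC [(nat_lit 35404596), (nat_lit 22827826), (nat_lit 14696761)] (nat_lit 7787052)) p12_20_2 (nat_lit 3) (nat_lit 202) (nat_lit 203) = true := by decide +kernel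
def p12_20_2_203 : pfC (piC [(nat_lit 35404596), (nat_lit 22827826), (nat_lit 14696761)] (nat_lit 7787052)) p12_20_2 (nat_lit 3) (nat_lit 203) (nat_lit 204) = true := by decide +kernel
def p12_20_2_204 : pfC (piC [(nat_lit 35404596), (nat_lit 22827826), (nat_lit 14696761)] (nat_lit 7787052)) p12_20_2 (nat_lit 3) (nat_lit 204) (nat_lit 205) = true := by decide +kernel
def p12_20_2_205 : pfC (piC [(nat_lit 35404596), (nat_lit 22827826), (nat_lit 14696761)] (nat_lit 7787052)) p12_20_2 (nat_lit 3) (nat_lit 205) (nat_lit 206) = true := by decide +kernel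
def p12_20_2_206 : pfC (piC [(nat_lit 35404596), (nat_lit 22827826), (nat_lit 14696761)] (nat_lit 7787052)) p12_20_2 (nat_lit 3) (nat_lit 206) (nat_lit 207) = true := by decide +kernel
def p12_20_2_207 : pfC (piC [(nat_lit 35404596), (nat_lit 22827826), (nat_lit 14696761)] (nat_lit 7787052)) p12_20_2 (nat_lit 3) (nat_lit 207) (nat_lit 208) = true := by decide +kernel
theorem p12_20_2_T : PfS (PiF n12_20.reverse (nat_lit 7787052)) p12_20_2 (nat_lit 3) [] 0 :=
  pftab_of (los := [(nat_lit 35404596), (nat_lit 22827826), (nat_lit 14696761)]) (by decide +kernel) (hi := (nat_lit 208)) (PfP.trans (PfP.trans (PfP.trans (PfP.trans (PfP.trans (PfP.trans (PfP.trans (PfP.trans (PfP.trans (PfP.trans (PfP.trans (PfP.trans (PfP.trans (PfP.trans (PfP.trans (PfP.trans (PfP.trans (PfP.trans (PfP.trans (PfP.trans (PfP.trans (PfP.trans (PfP.trans (PfP.trans (PfP.trans (PfP.trans (PfP.trans (PfP.trans (PfP.trans (PfP.trans (PfP.trans (PfP.trans (PfP.trans (PfP.trans (PfP.trans (PfP.trans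 (PfP.trans (PfP.trans (PfP.trans (PfP.trans (PfP.trans (PfP.trans (PfP.trans (PfP.trans (PfP.trans (PfP.trans (PfP.trans (PfP.trans (PfP.trans (PfP.trans (PfP.trans (PfP.trans (PfP.trans (PfP.trans (PfP.trans (PfP.trans (PfP.trans (PfP.trans (PfP.trans (PfP.trans (PfP.trans (PfP.trans (PfP.trans (PfP.trans (PfP.trans (PfP.trans (PfP.trans (PfP.trans (PfP.trans (PfP.trans (PfP.trans (PfP.trans (PfP.trans (PfP.trans (PfP.trans (PfP.trans (PfP.trans (PfP.trans (PfP.trans (PfP.trans (PfP.trans (PfP.trans (PfP.trans (PfP.trans (PfP.trans (PfP.trans (PfP.trans (PfP.trans (PfP.trans (PfP.trans (PfP.trans (PfP.trans (PfP.trans (PfP.trans (PfP.trans (PfP.trans (PfP.trans (PfP.trans (PfP.trans (PfP.trans (PfP.trans (PfP.trans (PfP.trans (PfP.trans (PfP.trans (PfP.trans (PfP.trans (PfP.trans (PfP.trans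
 (PfP.trans (PfP.trans (PfP.trans (PfP.trans (PfP.trans (PfP.trans (PfP.trans (PfP.trans (PfP.trans (PfP.trans (PfP.trans (PfP.trans (PfP.trans (PfP.trans (PfP.trans (PfP.trans (PfP.trans (PfP.trans (PfP.trans (PfP.trans (PfP.trans (PfP.trans (PfP.trans (PfP.trans (PfP.trans (PfP.trans (PfP.trans (PfP.trans (PfP.trans (PfP.trans (PfP.trans (PfP.trans (PfP.trans (PfP.trans (PfP.trans (PfP.trans (PfP.trans (PfP.trans (PfP.trans (PfP.trans (PfP.trans (PfP.trans (PfP.trans (PfP.trans (PfP.trans (PfP.trans (PfP.trans (PfP.trans (PfP.trans (PfP.trans (PfP.trans (PfP.trans (PfP.trans (PfP.trans (PfP.trans (PfP.trans (PfP.trans (PfP.trans (PfP.trans (PfP.trans (PfP.trans (PfP.trans (PfP.trans (PfP.trans (PfP.trans (PfP.trans (PfP.trans (PfP.trans (PfP.trans (PfP.trans (PfP.trans (PfP.trans (PfP.trans (PfP.trans (PfP.trans (PfP.trans (PfP.trans (PfP.trans (PfP.trans (PfP.trans (PfP.trans (PfP.trans (PfP.trans (PfP.trans (PfP.trans (PfP.trans (PfP.trans (PfP.trans (PfP.trans (PfP.trans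 (PfP.trans (PfP.trans (PfP.trans (PfP.trans (PfP.trans (PfP.trans (PfP.trans (PfP.trans (pfC_sound p12_20_2_0) (pfC_sound p12_20_2_1)) (pfC_sound p12_20_2_2)) (pfC_sound p12_20_2_3)) (pfC_sound p12_20_2_4))
 (pfC_sound p12_20_2_5)) (pfC_sound p12_20_2_6)) (pfC_sound p12_20_2_7)) (pfC_sound p12_20_2_8)) (pfC_sound p12_20_2_9)) (pfC_sound p12_20_2_10)) (pfC_sound p12_20_2_11)) (pfC_sound p12_20_2_12)) (pfC_sound p12_20_2_13)) (pfC_sound p12_20_2_14)) (pfC_sound p12_20_2_15)) (pfC_sound p12_20_2_16)) (pfC_sound p12_20_2_17)) (pfC_sound p12_20_2_18)) (pfC_sound p12_20_2_19)) (pfC_sound p12_20_2_20)) (pfC_sound p12_20_2_21)) (pfC_sound p12_20_2_22)) (pfC_sound p12_20_2_23)) (pfC_sound p12_20_2_24)) (pfC_sound p12_20_2_25)) (pfC_sound p12_20_2_26)) (pfC_sound p12_20_2_27)) (pfC_sound p12_20_2_28)) (pfC_sound p12_20_2_29)) (pfC_sound p12_20_2_30)) (pfC_sound p12_20_2_31)) (pfC_sound p12_20_2_32)) (pfC_sound p12_20_2_33)) (pfC_sound p12_20_2_34)) (pfC_sound p12_20_2_35)) (pfC_sound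 p12_20_2_36)) (pfC_sound p12_20_2_37)) (pfC_sound p12_20_2_38)) (pfC_sound p12_20_2_39)) (pfC_sound p12_20_2_40)) (pfC_sound p12_20_2_41)) (pfC_sound p12_20_2_42)) (pfC_sound p12_20_2_43)) (pfC_sound p12_20_2_44)) (pfC_sound p12_20_2_45)) (pfC_sound p12_20_2_46)) (pfC_sound p12_20_2_47)) (pfC_sound p12_20_2_48)) (pfC_sound p12_20_2_49)) (pfC_sound p12_20_2_50)) (pfC_sound p12_20_2_51)) (pfC_sound p12_20_2_52))
 (pfC_sound p12_20_2_53)) (pfC_sound p12_20_2_54)) (pfC_sound p12_20_2_55)) (pfC_sound p12_20_2_56)) (pfC_sound p12_20_2_57)) (pfC_sound p12_20_2_58)) (pfC_sound p12_20_2_59)) (pfC_sound p12_20_2_60)) (pfC_sound p12_20_2_61)) (pfC_sound p12_20_2_62)) (pfC_sound p12_20_2_63)) (pfC_sound p12_20_2_64)) (pfC_sound p12_20_2_65)) (pfC_sound p12_20_2_66)) (pfC_sound p12_20_2_67)) (pfC_sound p12_20_2_68)) (pfC_sound p12_20_2_69)) (pfC_sound p12_20_2_70)) (pfC_sound p12_20_2_71)) (pfC_sound p12_20_2_72)) (pfC_sound p12_20_2_73)) (pfC_sound p12_20_2_74)) (pfC_sound p12_20_2_75))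 (pfC_sound p12_20_2_76)) (pfC_sound p12_20_2_77)) (pfC_sound p12_20_2_78)) (pfC_sound p12_20_2_79)) (pfC_sound p12_20_2_80)) (pfC_sound p12_20_2_81)) (pfC_sound p12_20_2_82)) (pfC_sound p12_20_2_83)) (pfC_sound p12_20_2_84)) (pfC_sound p12_20_2_85)) (pfC_sound p12_20_2_86)) (pfC_sound p12_20_2_87)) (pfC_sound p12_20_2_88)) (pfC_sound p12_20_2_89)) (pfC_sound p12_20_2_90)) (pfC_sound p12_20_2_91)) (pfC_sound p12_20_2_92)) (pfC_sound p12_20_2_93)) (pfC_sound p12_20_2_94)) (pfC_sound p12_20_2_95)) (pfC_sound p12_20_2_96)) (pfC_sound p12_20_2_97)) (pfC_sound p12_20_2_98)) (pfC_sound p12_20_2_99)) (pfC_sound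
 p12_20_2_100)) (pfC_sound p12_20_2_101)) (pfC_sound p12_20_2_102)) (pfC_sound p12_20_2_103)) (pfC_sound p12_20_2_104)) (pfC_sound p12_20_2_105)) (pfC_sound p12_20_2_106)) (pfC_sound p12_20_2_107)) (pfC_sound p12_20_2_108)) (pfC_sound p12_20_2_109)) (pfC_sound p12_20_2_110)) (pfC_sound p12_20_2_111)) (pfC_sound p12_20_2_112)) (pfC_sound p12_20_2_113)) (pfC_sound p12_20_2_114)) (pfC_sound p12_20_2_115)) (pfC_sound p12_20_2_116)) (pfC_sound p12_20_2_117)) (pfC_sound p12_20_2_118)) (pfC_sound p12_20_2_119)) (pfC_sound p12_20_2_120)) (pfC_sound p12_20_2_121)) (pfC_sound p12_20_2_122)) (pfC_sound p12_20_2_123)) (pfC_sound p12_20_2_124)) (pfC_sound p12_20_2_125)) (pfC_sound p12_20_2_126)) (pfC_sound p12_20_2_127)) (pfC_sound p12_20_2_128)) (pfC_sound p12_20_2_129)) (pfC_sound p12_20_2_130)) (pfC_sound p12_20_2_131)) (pfC_sound p12_20_2_132)) (pfC_sound p12_20_2_133)) (pfC_sound p12_20_2_134)) (pfC_sound p12_20_2_135)) (pfC_sound p12_20_2_136)) (pfC_sound p12_20_2_137)) (pfC_sound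 p12_20_2_138)) (pfC_sound p12_20_2_139)) (pfC_sound p12_20_2_140)) (pfC_sound p12_20_2_141)) (pfC_sound p12_20_2_142)) (pfC_sound p12_20_2_143)) (pfC_sound p12_20_2_144)) (pfC_sound p12_20_2_145)) (pfC_sound
 p12_20_2_146)) (pfC_sound p12_20_2_147)) (pfC_sound p12_20_2_148)) (pfC_sound p12_20_2_149)) (pfC_sound p12_20_2_150)) (pfC_sound p12_20_2_151)) (pfC_sound p12_20_2_152)) (pfC_sound p12_20_2_153)) (pfC_sound p12_20_2_154)) (pfC_sound p12_20_2_155)) (pfC_sound p12_20_2_156)) (pfC_sound p12_20_2_157)) (pfC_sound p12_20_2_158)) (pfC_sound p12_20_2_159)) (pfC_sound p12_20_2_160)) (pfC_sound p12_20_2_161)) (pfC_sound p12_20_2_162)) (pfC_sound p12_20_2_163)) (pfC_sound p12_20_2_164)) (pfC_sound p12_20_2_165)) (pfC_sound p12_20_2_166)) (pfC_sound p12_20_2_167)) (pfC_sound p12_20_2_168)) (pfC_sound p12_20_2_169)) (pfC_sound p12_20_2_170)) (pfC_sound p12_20_2_171)) (pfC_sound p12_20_2_172)) (pfC_sound p12_20_2_173)) (pfC_sound p12_20_2_174)) (pfC_sound p12_20_2_175)) (pfC_sound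 p12_20_2_176)) (pfC_sound p12_20_2_177)) (pfC_sound p12_20_2_178)) (pfC_sound p12_20_2_179)) (pfC_sound p12_20_2_180)) (pfC_sound p12_20_2_181)) (pfC_sound p12_20_2_182)) (pfC_sound p12_20_2_183)) (pfC_sound p12_20_2_184)) (pfC_sound p12_20_2_185)) (pfC_sound p12_20_2_186)) (pfC_sound p12_20_2_187)) (pfC_sound p12_20_2_188)) (pfC_sound p12_20_2_189)) (pfC_sound p12_20_2_190)) (pfC_sound p12_20_2_191)) (pfC_sound
 p12_20_2_192)) (pfC_sound p12_20_2_193)) (pfC_sound p12_20_2_194)) (pfC_sound p12_20_2_195)) (pfC_sound p12_20_2_196)) (pfC_sound p12_20_2_197)) (pfC_sound p12_20_2_198)) (pfC_sound p12_20_2_199)) (pfC_sound p12_20_2_200)) (pfC_sound p12_20_2_201)) (pfC_sound p12_20_2_202)) (pfC_sound p12_20_2_203)) (pfC_sound p12_20_2_204)) (pfC_sound p12_20_2_205)) (pfC_sound p12_20_2_206)) (pfC_sound p12_20_2_207)) (by decide +kernel)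

def z12_20_2 : zOK yB12_20 (nat_lit 2) (nat_lit 600) (nat_lit 682) (nat_lit 7787052) (nat_lit 7787052) = true := by decide +kernel
def g12_20_2 : gOK yB12_20.x P12_20 (nat_lit 1367) (q12_20 :: r12_20) (nat_lit 2) (nat_lit 600) (nat_lit 3) (nat_lit 682) (nat_lit 12712500) (nat_lit 12712500) (nat_lit 12712500) (nat_lit 12712500) [(nat_lit 800)] = true := by decide +kernel
def v12_20_2 : ivC P12_20 s12_20 w12_20 n12_20 (nat_lit 3) (nat_lit 4660) (nat_lit 2) (nat_lit 600) f184_0_600 f192_0_600 (nat_lit 3) (nat_lit 682) f184_0_682 f192_0_682 (nat_lit 7787052) (nat_lit 7787052) p12_20_2 = true := by decide +kernel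
end CB
end Pool.Agent.Lib.MP_6947cd_al
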