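import Pool.Agent.Lib.MP_6947cd_al.L.BoxDataB
import Pool.Agent.Lib.MP_6947cd_al.L.TeD1
import Pool.Agent.Lib.MP_6947cd_al.L.TeD2

/-!
Problem MP_6947cd_al (Chollet).  CASE B, rows `j`: boxes (generated).
-/

set_option autoImplicit false
set_option linter.defProp false
set_option maxRecDepth 20000

namespace Pool.Agent.Lib.MP_6947cd_al
namespace CB

open Ent Ent.Pk Fr Fr.WT CA

/-! box `yB12_21` -/

def P12_21 : BQ := ⟨(nat_lit 8), (nat_lit 8), (nat_lit 0), (nat_lit 4), (nat_lit 4), (nat_lit 960), (nat_lit 980), (nat_lit 90), [(nat_lit 180), (nat_lit 330), (nat_lit 650)], (nat_lit 150576000), (nat_lit 16000000), (nat_lit 16000000000)⟩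
def q12_21 : PC := ⟨(nat_lit 1000), [(nat_lit 90000), (nat_lit 180000), (nat_lit 330000), (nat_lit 650000)], (nat_lit 18446744078004518913000000), (nat_lit 15849424000000), (nat_lit 15849424000000), (nat_lit 10000000)⟩
def r12_21 : List PC := [⟨(nat_lit 1313), [(nat_lit 90503), (nat_lit 180438), (nat_lit 331286), (nat_lit 650619)], (nat_lit 18522301941746977450444495), (nat_lit 16322021111040), (nat_lit 16332189704800), (nat_lit 10055889)⟩, ⟨(nat_lit 2069), [(nat_lit 92014), (nat_lit 181904), (nat_lit 333308), (nat_lit 657447)], (nat_lit 18686090582423967644995058), (nat_lit 17230440203520), (nat_lit 17265169362400), (nat_lit 10223778)⟩]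
def s12_21 : List PB := [⟨(nat_lit 26260), (nat_lit 1448048000000), [(nat_lit 180438), (nat_lit 331286), (nat_lit 650619)], (nat_lit 18522301941746977450444495), (nat_lit 1142221927953664), (nat_lit 1142232096547424), (nat_lit 50080)⟩, ⟨(nat_lit 41380), (nat_lit 1472224000000), [(nat_lit 181904), (nat_lit 333308), (nat_lit 657447)], (nat_lit 18686090582423967644995058), (nat_lit 1143130347046144), (nat_lit 1143165076205024), (nat_lit 171040)⟩]
def n12_21 : List KN := [⟨(nat_lit 650), (nat_lit 330), (nat_lit 14024239), (nat_lit 9088189)⟩, ⟨(nat_lit 330), (nat_lit 180), (nat_lit 21715570), (nat_lit 14024239)⟩, ⟨(nat_lit 180), (nat_lit 90), (nat_lit 33242365), (nat_lit 21715570)⟩]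
def w12_21 : List ℕ := [(nat_lit 50080), (nat_lit 171040)]
def par12_21 : parC yB12_21 P12_21 s12_21 r12_21 q12_21 n12_21 w12_21 = true := by decide +kernel

def p12_21_0 : PF := (PF.cons (PF.cons (PF.cons (PF.leaf (nat_lit 902652) (nat_lit 2954498) (nat_lit 64154314) (nat_lit 2954498) [(nat_lit 0), (nat_lit 0), (nat_lit 0)]) (PF.cons (PF.leaf (nat_lit 1179574) (nat_lit 495535) (nat_lit 63545041) (nat_lit 3068235) [(nat_lit 495535), (nat_lit 0), (nat_lit 0)]) (PF.cons (PF.leaf (nat_lit 1512548) (nat_lit 550052) (nat_lit 62821838) (nat_lit 3186869) [(nat_lit 550052), (nat_lit 0), (nat_lit 0)]) (PF.cons (PF.leaf (nat_lit 1893390) (nat_lit 600337) (nat_lit 62003520) (nat_lit 3304280) [(nat_lit 600337), (nat_lit 0), (nat_lit 0)]) (PF.cons (PF.leaf (nat_lit 2315820) (nat_lit 646751) (nat_lit 61105077) (nat_lit 3416730) [(nat_lit 646751), (nat_lit 0), (nat_lit 0)]) (PF.cons (PF.leaf (nat_lit 2774250) (nat_lit 689468) (nat_lit 60139558) (nat_lit 3521912) [(nat_lit 689468), (nat_lit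 0), (nat_lit 0)]) (PF.cons (PF.leaf (nat_lit 3263460) (nat_lit 728600) (nat_lit 59118768) (nat_lit 3618441) [(nat_lit 728600), (nat_lit 0), (nat_lit 0)]) (PF.cons (PF.leaf (nat_lit 3778609) (nat_lit 764246) (nat_lit 58053536) (nat_lit 3705549) [(nat_lit 764246), (nat_lit 0), (nat_lit 0)]) (PF.cons (PF.leaf (nat_lit 4315131) (nat_lit 796513) (nat_lit 56953794) (nat_lit 3782906)
 [(nat_lit 796513), (nat_lit 0), (nat_lit 0)]) (PF.cons (PF.leaf (nat_lit 4868816) (nat_lit 825524) (nat_lit 55828611) (nat_lit 3850482) [(nat_lit 825524), (nat_lit 0), (nat_lit 0)]) (PF.cons (PF.leaf (nat_lit 5435776) (nat_lit 851415) (nat_lit 54686190) (nat_lit 3908469) [(nat_lit 851415), (nat_lit 0), (nat_lit 0)]) (PF.cons (PF.leaf (nat_lit 6012498) (nat_lit 874338) (nat_lit 53533881) (nat_lit 3957208) [(nat_lit 874338), (nat_lit 0), (nat_lit 0)]) (PF.cons (PF.leaf (nat_lit 6595774) (nat_lit 894455) (nat_lit 52378198) (nat_lit 3997149) [(nat_lit 894455), (nat_lit 0), (nat_lit 0)]) (PF.cons (PF.leaf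 (nat_lit 7182778) (nat_lit 911935) (nat_lit 51224847) (nat_lit 4028810) [(nat_lit 911935), (nat_lit 0), (nat_lit 0)]) (PF.cons (PF.leaf (nat_lit 7770978) (nat_lit 926949) (nat_lit 50078769) (nat_lit 4052748) [(nat_lit 926949), (nat_lit 0), (nat_lit 0)]) (PF.cons (PF.leaf (nat_lit 8358212) (nat_lit 939672) (nat_lit 48944186) (nat_lit 4069541) [(nat_lit 939672), (nat_lit 0), (nat_lit 0)]) (PF.cons (PF.leaf (nat_lit 8942541) (nat_lit 950273) (nat_lit 47824659) (nat_lit 4079771) [(nat_lit 950273), (nat_lit 0), (nat_lit 0)]) (PF.cons (PF.leaf (nat_lit 9522390) (nat_lit 958921) (nat_lit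
 46723145) (nat_lit 4084009) [(nat_lit 958921), (nat_lit 0), (nat_lit 0)]) (PF.cons PF.nil (PF.cons PF.nil (PF.cons PF.nil (PF.cons PF.nil PF.nil)))))))))))))))))))))) (PF.cons (PF.cons (PF.leaf (nat_lit 1812554) (nat_lit 2286309) (nat_lit 61492374) (nat_lit 3330129) [(nat_lit 0), (nat_lit 2286309), (nat_lit 0)]) (PF.cons (PF.leaf (nat_lit 2184223) (nat_lit 629561) (nat_lit 60677669) (nat_lit 3428319) [(nat_lit 629561), (nat_lit 2373261), (nat_lit 0)]) (PF.cons (PF.leaf (nat_lit 2598446) (nat_lit 673069) (nat_lit 59782158) (nat_lit 3523427) [(nat_lit 673069), (nat_lit 2457088), (nat_lit 0)]) (PF.cons (PF.leaf (nat_lit 3048302) (nat_lit 712835) (nat_lit 58821637) (nat_lit 3612829) [(nat_lit 712835), (nat_lit 2535839), (nat_lit 0)]) (PF.cons (PF.leaf (nat_lit 3528152) (nat_lit 749071) (nat_lit 57809155) (nat_lit 3694961) [(nat_lit 749071), (nat_lit 2608408), (nat_lit 0)]) (PF.cons (PF.leaf (nat_lit 4032970) (nat_lit 781933) (nat_lit 56755999) (nat_lit 3768941) [(nat_lit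 781933), (nat_lit 2674205), (nat_lit 0)]) (PF.cons (PF.leaf (nat_lit 4558203) (nat_lit 811558) (nat_lit 55672132) (nat_lit 3834349) [(nat_lit 811558), (nat_lit 2732978), (nat_lit 0)]) (PF.cons (PF.leaf (nat_lit
 5099737) (nat_lit 838089) (nat_lit 54566403) (nat_lit 3891082) [(nat_lit 838089), (nat_lit 2784703), (nat_lit 0)]) (PF.cons (PF.leaf (nat_lit 5653804) (nat_lit 861671) (nat_lit 53446661) (nat_lit 3939262) [(nat_lit 861671), (nat_lit 2829514), (nat_lit 0)]) (PF.cons (PF.leaf (nat_lit 6217038) (nat_lit 882462) (nat_lit 52319829) (nat_lit 3979168) [(nat_lit 882462), (nat_lit 2867657), (nat_lit 0)]) (PF.cons (PF.leaf (nat_lit 6786395) (nat_lit 900621) (nat_lit 51191968) (nat_lit 4011185) [(nat_lit 900621), (nat_lit 2899448), (nat_lit 0)]) (PF.cons (PF.leaf (nat_lit 7359206) (nat_lit 916313) (nat_lit 50068336) (nat_lit 4035768) [(nat_lit 916313), (nat_lit 2925254), (nat_lit 0)]) (PF.cons (PF.leaf (nat_lit 7933108) (nat_lit 929707) (nat_lit 48953443) (nat_lit 4053411)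 [(nat_lit 929707), (nat_lit 2945470), (nat_lit 0)]) (PF.cons (PF.leaf (nat_lit 8506005) (nat_lit 940966) (nat_lit 47851114) (nat_lit 4064633) [(nat_lit 940966), (nat_lit 2960502), (nat_lit 0)]) (PF.cons (PF.leaf (nat_lit 9076135) (nat_lit 950253) (nat_lit 46764551) (nat_lit 4069955) [(nat_lit 950253), (nat_lit 2970759), (nat_lit 0)]) (PF.cons (PF.leaf (nat_lit 9641983) (nat_lit 957725) (nat_lit 45696390) (nat_lit 4069892)
 [(nat_lit 957725), (nat_lit 2976646), (nat_lit 0)]) (PF.cons PF.nil (PF.cons PF.nil (PF.cons PF.nil (PF.cons PF.nil PF.nil)))))))))))))))))))) (PF.cons (PF.cons (PF.leaf (nat_lit 2879725) (nat_lit 2531471) (nat_lit 58431758) (nat_lit 3614110) [(nat_lit 0), (nat_lit 2531471), (nat_lit 0)]) (PF.cons (PF.leaf (nat_lit 3317302) (nat_lit 732049) (nat_lit 57489490) (nat_lit 3689240) [(nat_lit 732049), (nat_lit 2599016), (nat_lit 0)]) (PF.cons (PF.leaf (nat_lit 3785373) (nat_lit 765895) (nat_lit 56495599) (nat_lit 3758432) [(nat_lit 765895), (nat_lit 2661495),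 (nat_lit 0)]) (PF.cons (PF.leaf (nat_lit 4278219) (nat_lit 796393) (nat_lit 55462665) (nat_lit 3820652) [(nat_lit 796393), (nat_lit 2718157), (nat_lit 0)]) (PF.cons (PF.leaf (nat_lit 4791087) (nat_lit 823741) (nat_lit 54401169) (nat_lit 3875380) [(nat_lit 823741), (nat_lit 2768648), (nat_lit 0)]) (PF.cons (PF.leaf (nat_lit 5319795) (nat_lit 848113) (nat_lit 53320066) (nat_lit 3922439) [(nat_lit 848113), (nat_lit 2812870), (nat_lit 0)]) (PF.cons (PF.leaf (nat_lit 5860626) (nat_lit 869674) (nat_lit 52227080) (nat_lit 3961884) [(nat_lit 869674), (nat_lit 2850901), (nat_lit 0)]) (PF.cons (PF.leaf (nat_lit 6410290) (nat_lit 888588)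
 (nat_lit 51128890) (nat_lit 3993933) [(nat_lit 888588), (nat_lit 2882934), (nat_lit 0)]) (PF.cons (PF.leaf (nat_lit 6965856) (nat_lit 905021) (nat_lit 50031249) (nat_lit 4018912) [(nat_lit 905021), (nat_lit 2909239), (nat_lit 0)]) (PF.cons (PF.leaf (nat_lit 7524747) (nat_lit 919137) (nat_lit 48939086) (nat_lit 4037218) [(nat_lit 919137), (nat_lit 2930137), (nat_lit 0)]) (PF.cons (PF.leaf (nat_lit 8084706) (nat_lit 931097) (nat_lit 47856585) (nat_lit 4049289) [(nat_lit 931097), (nat_lit 2945979), (nat_lit 0)]) (PF.cons (PF.leaf (nat_lit 8643763) (nat_lit 941063) (nat_lit 46787264) (nat_lit 4055589) [(nat_lit 941063), (nat_lit 2957131), (nat_lit 0)]) (PF.cons (PF.leaf (nat_lit 9200232) (nat_lit 949188) (nat_lit 45734041) (nat_lit 4056584) [(nat_lit 949188), (nat_lit 2963962), (nat_lit 0)]) (PF.cons (PF.leaf (nat_lit 9752670) (nat_lit 955623) (nat_lit 44699302) (nat_lit 4052738) [(nat_lit 955623), (nat_lit 2966836), (nat_lit 0)]) (PF.cons PF.nil (PF.cons PF.nil (PF.cons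 PF.nil (PF.cons PF.nil PF.nil)))))))))))))))))) (PF.cons (PF.cons (PF.leaf (nat_lit 4037538) (nat_lit 2705829) (nat_lit 55180980) (nat_lit 3810344) [(nat_lit 0), (nat_lit 2705829), (nat_lit 0)]) (PF.cons (PF.leaf
 (nat_lit 4516279) (nat_lit 807846) (nat_lit 54176279) (nat_lit 3861991) [(nat_lit 807846), (nat_lit 2754231), (nat_lit 0)]) (PF.cons (PF.leaf (nat_lit 5015481) (nat_lit 833277) (nat_lit 53143290) (nat_lit 3907159) [(nat_lit 833277), (nat_lit 2797269), (nat_lit 0)]) (PF.cons (PF.leaf (nat_lit 5530565) (nat_lit 855801) (nat_lit 52091539) (nat_lit 3945582) [(nat_lit 855801), (nat_lit 2834762), (nat_lit 0)]) (PF.cons (PF.leaf (nat_lit 6057720) (nat_lit 875613) (nat_lit 51028935) (nat_lit 3977248) [(nat_lit 875613), (nat_lit 2866725), (nat_lit 0)]) (PF.cons (PF.leaf (nat_lit 6593645) (nat_lit 892894) (nat_lit 49962122) (nat_lit 4002314) [(nat_lit 892894), (nat_lit 2893300), (nat_lit 0)]) (PF.cons (PF.leaf (nat_lit 7135460) (nat_lit 907818) (nat_lit 48896711) (nat_lit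 4021051) [(nat_lit 907818), (nat_lit 2914713), (nat_lit 0)]) (PF.cons (PF.leaf (nat_lit 7680640) (nat_lit 920551) (nat_lit 47837428) (nat_lit 4033799) [(nat_lit 920551), (nat_lit 2931242), (nat_lit 0)]) (PF.cons (PF.leaf (nat_lit 8226988) (nat_lit 931253) (nat_lit 46788238) (nat_lit 4040948) [(nat_lit 931253), (nat_lit 2943199), (nat_lit 0)]) (PF.cons (PF.leaf (nat_lit 8772613) (nat_lit 940081) (nat_lit 45752437) (nat_lit
 4042908) [(nat_lit 940081), (nat_lit 2950910), (nat_lit 0)]) (PF.cons (PF.leaf (nat_lit 9315891) (nat_lit 947185) (nat_lit 44732734) (nat_lit 4040097) [(nat_lit 947185), (nat_lit 2954707), (nat_lit 0)]) (PF.cons (PF.leaf (nat_lit 9855422) (nat_lit 952708) (nat_lit 43731325) (nat_lit 4032933) [(nat_lit 952708), (nat_lit 2954921), (nat_lit 0)]) (PF.cons (PF.leaf (nat_lit 10390023) (nat_lit 956784) (nat_lit 42749957) (nat_lit 4021821) [(nat_lit 956784), (nat_lit 2951872), (nat_lit 0)]) (PF.cons PF.nil (PF.cons PF.nil (PF.cons PF.nil PF.nil))))))))))))))))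 (PF.cons (PF.cons (PF.leaf (nat_lit 5233390) (nat_lit 2819602) (nat_lit 51899711) (nat_lit 3930691) [(nat_lit 0), (nat_lit 2819602), (nat_lit 0)]) (PF.cons (PF.leaf (nat_lit 5733697) (nat_lit 861314) (nat_lit 50881874) (nat_lit 3961410) [(nat_lit 861314), (nat_lit 2851053), (nat_lit 0)]) (PF.cons (PF.leaf (nat_lit 6246590) (nat_lit 879646) (nat_lit 49853014) (nat_lit 3986157) [(nat_lit 879646), (nat_lit 2877586), (nat_lit 0)]) (PF.cons (PF.leaf (nat_lit 6768505) (nat_lit 895529) (nat_lit 48820030) (nat_lit 4005028) [(nat_lit 895529), (nat_lit 2899291), (nat_lit 0)]) (PF.cons (PF.leaf (nat_lit 7296505) (nat_lit 909149) (nat_lit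
 47788582) (nat_lit 4018238) [(nat_lit 909149), (nat_lit 2916348), (nat_lit 0)]) (PF.cons (PF.leaf (nat_lit 7828094) (nat_lit 920682) (nat_lit 46763343) (nat_lit 4026078) [(nat_lit 920682), (nat_lit 2928995), (nat_lit 0)]) (PF.cons (PF.leaf (nat_lit 8361080) (nat_lit 930289) (nat_lit 45748167) (nat_lit 4028887) [(nat_lit 930289), (nat_lit 2937505), (nat_lit 0)]) (PF.cons (PF.leaf (nat_lit 8893611) (nat_lit 938125) (nat_lit 44746216) (nat_lit 4027031) [(nat_lit 938125), (nat_lit 2942171), (nat_lit 0)]) (PF.cons (PF.leaf (nat_lit 9424094) (nat_lit 944337) (nat_lit 43760065) (nat_lit 4020883) [(nat_lit 944337), (nat_lit 2943290), (nat_lit 0)]) (PF.cons (PF.leaf (nat_lit 9951171) (nat_lit 949063) (nat_lit 42791778) (nat_lit 4010818) [(nat_lit 949063), (nat_lit 2941160), (nat_lit 0)]) (PF.cons (PF.leaf (nat_lit 10473709) (nat_lit 952433) (nat_lit 41842986) (nat_lit 3997201) [(nat_lit 952433), (nat_lit 2936072), (nat_lit 0)]) (PF.cons PF.nil (PF.cons PF.nil (PF.cons PF.nil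 PF.nil)))))))))))))) (PF.cons (PF.cons (PF.leaf (nat_lit 6428898) (nat_lit 2884016) (nat_lit 48699417) (nat_lit 3989314) [(nat_lit 0), (nat_lit 2884016), (nat_lit 0)]) (PF.cons (PF.leaf (nat_lit 6936243) (nat_lit
 896611) (nat_lit 47702594) (nat_lit 4002702) [(nat_lit 896611), (nat_lit 2901380), (nat_lit 0)]) (PF.cons (PF.leaf (nat_lit 7450266) (nat_lit 909129) (nat_lit 46706691) (nat_lit 4011033) [(nat_lit 909129), (nat_lit 2914565), (nat_lit 0)]) (PF.cons (PF.leaf (nat_lit 7968272) (nat_lit 919637) (nat_lit 45716501) (nat_lit 4014549) [(nat_lit 919637), (nat_lit 2923769), (nat_lit 0)]) (PF.cons (PF.leaf (nat_lit 8488057) (nat_lit 928303) (nat_lit 44735896) (nat_lit 4013546) [(nat_lit 928303), (nat_lit 2929231), (nat_lit 0)]) (PF.cons (PF.leaf (nat_lit 9007753) (nat_lit 935284) (nat_lit 43768003) (nat_lit 4008346) [(nat_lit 935284), (nat_lit 2931208), (nat_lit 0)]) (PF.cons (PF.leaf (nat_lit 9525779) (nat_lit 940725) (nat_lit 42815333) (nat_lit 3999282) [(nat_lit 940725),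 (nat_lit 2929968), (nat_lit 0)]) (PF.cons (PF.leaf (nat_lit 10040799) (nat_lit 944762) (nat_lit 41879880) (nat_lit 3986691) [(nat_lit 944762), (nat_lit 2925781), (nat_lit 0)]) (PF.cons (PF.leaf (nat_lit 10551672) (nat_lit 947520) (nat_lit 40963205) (nat_lit 3970904) [(nat_lit 947520), (nat_lit 2918908), (nat_lit 0)]) (PF.cons PF.nil (PF.cons PF.nil (PF.cons PF.nil PF.nil)))))))))))) (PF.cons (PF.cons (PF.leaf (nat_lit
 7598128) (nat_lit 2909736) (nat_lit 45650469) (nat_lit 3999925) [(nat_lit 0), (nat_lit 2909736), (nat_lit 0)]) (PF.cons (PF.leaf (nat_lit 8102334) (nat_lit 917503) (nat_lit 44696277) (nat_lit 3999650) [(nat_lit 917503), (nat_lit 2915896), (nat_lit 0)]) (PF.cons (PF.leaf (nat_lit 8608969) (nat_lit 925378) (nat_lit 43750732) (nat_lit 3995311) [(nat_lit 925378), (nat_lit 2918668), (nat_lit 0)]) (PF.cons (PF.leaf (nat_lit 9116005) (nat_lit 931633) (nat_lit 42817034) (nat_lit 3987194) [(nat_lit 931633), (nat_lit 2918280), (nat_lit 0)]) (PF.cons (PF.leaf (nat_lit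 9621831) (nat_lit 936418) (nat_lit 41897715) (nat_lit 3975595) [(nat_lit 936418), (nat_lit 2914971), (nat_lit 0)]) (PF.cons (PF.leaf (nat_lit 10125091) (nat_lit 939865) (nat_lit 40994761) (nat_lit 3960818) [(nat_lit 939865), (nat_lit 2908984), (nat_lit 0)]) (PF.cons (PF.leaf (nat_lit 10624650) (nat_lit 942100) (nat_lit 40109712) (nat_lit 3943159) [(nat_lit 942100), (nat_lit 2900556), (nat_lit 0)]) (PF.cons (PF.leaf (nat_lit 11119572) (nat_lit 943236) (nat_lit 39243733) (nat_lit 3922907) [(nat_lit 943236), (nat_lit 2889919), (nat_lit 0)]) (PF.cons PF.nil (PF.cons PF.nil PF.nil)))))))))) (PF.cons (PF.cons (PF.leaf (nat_lit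
 8724967) (nat_lit 2906075) (nat_lit 42791763) (nat_lit 3974520) [(nat_lit 0), (nat_lit 2906075), (nat_lit 0)]) (PF.cons (PF.leaf (nat_lit 9219305) (nat_lit 927235) (nat_lit 41892390) (nat_lit 3963874) [(nat_lit 927235), (nat_lit 2903616), (nat_lit 0)]) (PF.cons (PF.leaf (nat_lit 9713091) (nat_lit 931472) (nat_lit 41006278) (nat_lit 3950086) [(nat_lit 931472), (nat_lit 2898500), (nat_lit 0)]) (PF.cons (PF.leaf (nat_lit 10204831) (nat_lit 934426) (nat_lit 40135476) (nat_lit 3933427) [(nat_lit 934426), (nat_lit 2890946), (nat_lit 0)]) (PF.cons (PF.leaf (nat_lit 10693370) (nat_lit 936221) (nat_lit 39281552) (nat_lit 3914168) [(nat_lit 936221), (nat_lit 2881172), (nat_lit 0)]) (PF.cons (PF.leaf (nat_lit 11177734) (nat_lit 936969) (nat_lit 38445690) (nat_lit 3892569) [(nat_lit 936969), (nat_lit 2869386), (nat_lit 0)]) (PF.cons PF.nil (PF.cons PF.nil PF.nil)))))))) (PF.cons (PF.cons (PF.leaf (nat_lit 9800494) (nat_lit 2880730) (nat_lit 40139984) (nat_lit 3922982) [(nat_lit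 0), (nat_lit 2880730), (nat_lit 0)]) (PF.cons (PF.leaf (nat_lit 10280768) (nat_lit 928488) (nat_lit 39301007) (nat_lit 3904722) [(nat_lit 928488), (nat_lit 2871824), (nat_lit 0)]) (PF.cons (PF.leaf (nat_lit 10758482)
 (nat_lit 929923) (nat_lit 38477729) (nat_lit 3884108) [(nat_lit 929923), (nat_lit 2860890), (nat_lit 0)]) (PF.cons (PF.leaf (nat_lit 11232539) (nat_lit 930353) (nat_lit 37671391) (nat_lit 3861379) [(nat_lit 930353), (nat_lit 2848122), (nat_lit 0)]) (PF.cons PF.nil (PF.cons PF.nil PF.nil)))))) (PF.cons (PF.cons (PF.leaf (nat_lit 10820749) (nat_lit 2839831) (nat_lit 37697199) (nat_lit 3853132) [(nat_lit 0), (nat_lit 2839831), (nat_lit 0)]) (PF.cons (PF.leaf (nat_lit 11284574) (nat_lit 923416) (nat_lit 36919830) (nat_lit 3829469) [(nat_lit 923416), (nat_lit 2826232), (nat_lit 0)]) (PF.cons (PF.leaf (nat_lit 11744540) (nat_lit 922724) (nat_lit 36159141) (nat_lit 3804098) [(nat_lit 922724), (nat_lit 2811124), (nat_lit 0)]) (PF.cons PF.nil PF.nil)))) (PF.cons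 (PF.cons (PF.leaf (nat_lit 11785025) (nat_lit 2788131) (nat_lit 35456509) (nat_lit 3770986) [(nat_lit 0), (nat_lit 2788131), (nat_lit 0)]) (PF.cons PF.nil PF.nil)) (PF.cons PF.nil (PF.cons PF.nil (PF.cons PF.nil (PF.cons PF.nil PF.nil))))))))))))))) (PF.cons (PF.cons (PF.cons (PF.leaf (nat_lit 2744358) (nat_lit 3576133) (nat_lit 57103752) (nat_lit 3576133) [(nat_lit 0), (nat_lit 0), (nat_lit 6428927)]) (PF.cons (PF.leaf (nat_lit
 3130382) (nat_lit 692347) (nat_lit 56279891) (nat_lit 3644163) [(nat_lit 692347), (nat_lit 0), (nat_lit 6492411)]) (PF.cons (PF.leaf (nat_lit 3553638) (nat_lit 729957) (nat_lit 55389167) (nat_lit 3708553) [(nat_lit 729957), (nat_lit 0), (nat_lit 6551176)]) (PF.cons (PF.leaf (nat_lit 4006815) (nat_lit 763341) (nat_lit 54448092) (nat_lit 3767601) [(nat_lit 763341), (nat_lit 0), (nat_lit 6603095)]) (PF.cons (PF.leaf (nat_lit 4484260) (nat_lit 793011) (nat_lit 53469486) (nat_lit 3820371) [(nat_lit 793011), (nat_lit 0), (nat_lit 6646911)]) (PF.cons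 (PF.leaf (nat_lit 4981222) (nat_lit 819329) (nat_lit 52463806) (nat_lit 3866399) [(nat_lit 819329), (nat_lit 0), (nat_lit 6681961)]) (PF.cons (PF.leaf (nat_lit 5493594) (nat_lit 842577) (nat_lit 51439810) (nat_lit 3905538) [(nat_lit 842577), (nat_lit 0), (nat_lit 6708000)]) (PF.cons (PF.leaf (nat_lit 6017781) (nat_lit 862994) (nat_lit 50404928) (nat_lit 3937848) [(nat_lit 862994), (nat_lit 0), (nat_lit 6725074)]) (PF.cons (PF.leaf (nat_lit 6550608) (nat_lit 880793) (nat_lit 49365494) (nat_lit 3963533) [(nat_lit 880793), (nat_lit 0), (nat_lit 6733438)]) (PF.cons (PF.leaf (nat_lit 7089286) (nat_lit 896169) (nat_lit 48326902) (nat_lit 3982891)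
 [(nat_lit 896169), (nat_lit 0), (nat_lit 6733490)]) (PF.cons (PF.leaf (nat_lit 7631359) (nat_lit 909307) (nat_lit 47293731) (nat_lit 3996282) [(nat_lit 909307), (nat_lit 0), (nat_lit 6725722)]) (PF.cons (PF.leaf (nat_lit 8174724) (nat_lit 920380) (nat_lit 46269840) (nat_lit 4004103) [(nat_lit 920380), (nat_lit 0), (nat_lit 6710686)]) (PF.cons (PF.leaf (nat_lit 8717480) (nat_lit 929552) (nat_lit 45258451) (nat_lit 4006765) [(nat_lit 929552), (nat_lit 0), (nat_lit 6688960)]) (PF.cons (PF.leaf (nat_lit 9258040) (nat_lit 936981) (nat_lit 44262227) (nat_lit 4004690) [(nat_lit 936981), (nat_lit 0), (nat_lit 6661137)]) (PF.cons (PF.leaf (nat_lit 9795015) (nat_lit 942813) (nat_lit 43283335) (nat_lit 3998290) [(nat_lit 942813), (nat_lit 0), (nat_lit 6627801)]) (PF.cons (PF.leaf (nat_lit 10327269) (nat_lit 947187) (nat_lit 42323511) (nat_lit 3987967) [(nat_lit 947187), (nat_lit 0), (nat_lit 6589521)]) (PF.cons PF.nil (PF.cons PF.nil PF.nil)))))))))))))))))) (PF.cons (PF.cons (PF.leaf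 (nat_lit 3806897) (nat_lit 2656450) (nat_lit 54096960) (nat_lit 3759320) [(nat_lit 0), (nat_lit 2656450), (nat_lit 6596081)]) (PF.cons (PF.leaf (nat_lit 4244731) (nat_lit 774031) (nat_lit 53187508) (nat_lit
 3808138) [(nat_lit 774031), (nat_lit 2704079), (nat_lit 6635054)]) (PF.cons (PF.leaf (nat_lit 4708117) (nat_lit 802061) (nat_lit 52238927) (nat_lit 3851703) [(nat_lit 802061), (nat_lit 2747057), (nat_lit 6667001)]) (PF.cons (PF.leaf (nat_lit 5191544) (nat_lit 826731) (nat_lit 51262989) (nat_lit 3889426) [(nat_lit 826731), (nat_lit 2784987), (nat_lit 6691216)]) (PF.cons (PF.leaf (nat_lit 5690616) (nat_lit 848380) (nat_lit 50269050) (nat_lit 3921077) [(nat_lit 848380), (nat_lit 2817748), (nat_lit 6707416)]) (PF.cons (PF.leaf (nat_lit 6201592) (nat_lit 867278) (nat_lit 49264762) (nat_lit 3946651) [(nat_lit 867278), (nat_lit 2845388), (nat_lit 6715616)]) (PF.cons (PF.leaf (nat_lit 6721278) (nat_lit 883656) (nat_lit 48256482) (nat_lit 3966296) [(nat_lit 883656), (nat_lit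 2868065), (nat_lit 6716028)]) (PF.cons (PF.leaf (nat_lit 7246894) (nat_lit 897717) (nat_lit 47249517) (nat_lit 3980261) [(nat_lit 897717), (nat_lit 2886005), (nat_lit 6709002)]) (PF.cons (PF.leaf (nat_lit 7776011) (nat_lit 909649) (nat_lit 46248302) (nat_lit 3988855) [(nat_lit 909649), (nat_lit 2899476), (nat_lit 6694980)]) (PF.cons (PF.leaf (nat_lit 8306559) (nat_lit 919624) (nat_lit 45256531) (nat_lit 3992430)
 [(nat_lit 919624), (nat_lit 2908773), (nat_lit 6674457)]) (PF.cons (PF.leaf (nat_lit 8836709) (nat_lit 927804) (nat_lit 44277256) (nat_lit 3991355) [(nat_lit 927804), (nat_lit 2914199), (nat_lit 6647955)]) (PF.cons (PF.leaf (nat_lit 9364904) (nat_lit 934341) (nat_lit 43312979) (nat_lit 3986006) [(nat_lit 934341), (nat_lit 2916062), (nat_lit 6616010)]) (PF.cons (PF.leaf (nat_lit 9889834) (nat_lit 939376) (nat_lit 42365721) (nat_lit 3976755) [(nat_lit 939376), (nat_lit 2914664), (nat_lit 6579149)]) (PF.cons (PF.leaf (nat_lit 10410342) (nat_lit 943043) (nat_lit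 41437084) (nat_lit 3963968) [(nat_lit 943043), (nat_lit 2910299), (nat_lit 6537889)]) (PF.cons PF.nil (PF.cons PF.nil PF.nil)))))))))))))))) (PF.cons (PF.cons (PF.leaf (nat_lit 4928303) (nat_lit 2769704) (nat_lit 51018640) (nat_lit 3875078) [(nat_lit 0), (nat_lit 2769704), (nat_lit 6675685)]) (PF.cons (PF.leaf (nat_lit 5396460) (nat_lit 831868) (nat_lit 50077832) (nat_lit 3905364) [(nat_lit 831868), (nat_lit 2801690), (nat_lit 6690366)]) (PF.cons (PF.leaf (nat_lit 5881226) (nat_lit 852221) (nat_lit 49117830) (nat_lit 3930337) [(nat_lit 852221), (nat_lit 2829130), (nat_lit 6697941)]) (PF.cons (PF.leaf (nat_lit 6378420) (nat_lit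
 869854) (nat_lit 48146940) (nat_lit 3949921) [(nat_lit 869854), (nat_lit 2852003), (nat_lit 6698382)]) (PF.cons (PF.leaf (nat_lit 6884673) (nat_lit 885028) (nat_lit 47171805) (nat_lit 3964208) [(nat_lit 885028), (nat_lit 2870412), (nat_lit 6691860)]) (PF.cons (PF.leaf (nat_lit 7397140) (nat_lit 897963) (nat_lit 46197830) (nat_lit 3973398) [(nat_lit 897963), (nat_lit 2884541), (nat_lit 6678681)]) (PF.cons (PF.leaf (nat_lit 7913376) (nat_lit 908855) (nat_lit 45229440) (nat_lit 3977756) [(nat_lit 908855), (nat_lit 2894622), (nat_lit 6659238)]) (PF.cons (PF.leaf (nat_lit 8431305) (nat_lit 917879) (nat_lit 44270263) (nat_lit 3977590) [(nat_lit 917879), (nat_lit 2900912), (nat_lit 6633977)]) (PF.cons (PF.leaf (nat_lit 8949127) (nat_lit 925197) (nat_lit 43323263) (nat_lit 3973229) [(nat_lit 925197), (nat_lit 2903684), (nat_lit 6603369)]) (PF.cons (PF.leaf (nat_lit 9465323) (nat_lit 930958) (nat_lit 42390843) (nat_lit 3965010) [(nat_lit 930958), (nat_lit 2903217), (nat_lit 6567898)])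 (PF.cons (PF.leaf (nat_lit 9978565) (nat_lit 935300) (nat_lit 41474927) (nat_lit 3953270) [(nat_lit 935300), (nat_lit 2899783), (nat_lit 6528042)]) (PF.cons (PF.leaf (nat_lit 10487770) (nat_lit 938352)
 (nat_lit 40577032) (nat_lit 3938338) [(nat_lit 938352), (nat_lit 2893649), (nat_lit 6484269)]) (PF.cons PF.nil (PF.cons PF.nil PF.nil)))))))))))))) (PF.cons (PF.cons (PF.leaf (nat_lit 6067254) (nat_lit 2836164) (nat_lit 47985825) (nat_lit 3933979) [(nat_lit 0), (nat_lit 2836164), (nat_lit 6680513)]) (PF.cons (PF.leaf (nat_lit 6549709) (nat_lit 870817) (nat_lit 47051189) (nat_lit 3948250) [(nat_lit 870817), (nat_lit 2854776), (nat_lit 6674226)]) (PF.cons (PF.leaf (nat_lit 7042067) (nat_lit 885006) (nat_lit 46111144) (nat_lit 3957799) [(nat_lit 885006), (nat_lit 2869383), (nat_lit 6661705)]) (PF.cons (PF.leaf (nat_lit 7541182) (nat_lit 897001) (nat_lit 45171433) (nat_lit 3962776) [(nat_lit 897001), (nat_lit 2880126), (nat_lit 6643217)]) (PF.cons (PF.leaf (nat_lit 8044518)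 (nat_lit 907014) (nat_lit 44236636) (nat_lit 3963406) [(nat_lit 907014), (nat_lit 2887199), (nat_lit 6619113)]) (PF.cons (PF.leaf (nat_lit 8549943) (nat_lit 915227) (nat_lit 43310434) (nat_lit 3959955) [(nat_lit 915227), (nat_lit 2890830), (nat_lit 6589792)]) (PF.cons (PF.leaf (nat_lit 9055649) (nat_lit 921806) (nat_lit 42395787) (nat_lit 3952716) [(nat_lit 921806), (nat_lit 2891261), (nat_lit 6555683)]) (PF.cons
 (PF.leaf (nat_lit 9560095) (nat_lit 926900) (nat_lit 41495064) (nat_lit 3941993) [(nat_lit 926900), (nat_lit 2888741), (nat_lit 6517224)]) (PF.cons (PF.leaf (nat_lit 10061989) (nat_lit 930645) (nat_lit 40610148) (nat_lit 3928088) [(nat_lit 930645), (nat_lit 2883520), (nat_lit 6474850)]) (PF.cons (PF.leaf (nat_lit 10560216) (nat_lit 933166) (nat_lit 39742508) (nat_lit 3911300) [(nat_lit 933166), (nat_lit 2875839), (nat_lit 6428984)]) (PF.cons (PF.leaf (nat_lit 11053874) (nat_lit 934579) (nat_lit 38893269) (nat_lit 3891914) [(nat_lit 934579), (nat_lit 2865931),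 (nat_lit 6380033)]) (PF.cons PF.nil PF.nil)))))))))))) (PF.cons (PF.cons (PF.leaf (nat_lit 7194931) (nat_lit 2865331) (nat_lit 45073726) (nat_lit 3947531) [(nat_lit 0), (nat_lit 2865331), (nat_lit 6626227)]) (PF.cons (PF.leaf (nat_lit 7680202) (nat_lit 894904) (nat_lit 44169589) (nat_lit 3948809) [(nat_lit 894904), (nat_lit 2873074), (nat_lit 6603209)]) (PF.cons (PF.leaf (nat_lit 8170483) (nat_lit 904197) (nat_lit 43269142) (nat_lit 3946171) [(nat_lit 904197), (nat_lit 2877491), (nat_lit 6575138)]) (PF.cons (PF.leaf (nat_lit 8663413) (nat_lit 911737) (nat_lit 42376262) (nat_lit 3939851) [(nat_lit 911737), (nat_lit 2878777),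
 (nat_lit 6542377)]) (PF.cons (PF.leaf (nat_lit 9157115) (nat_lit 917695) (nat_lit 41494008) (nat_lit 3930106) [(nat_lit 917695), (nat_lit 2877149), (nat_lit 6505318)]) (PF.cons (PF.leaf (nat_lit 9650028) (nat_lit 922225) (nat_lit 40624792) (nat_lit 3917209) [(nat_lit 922225), (nat_lit 2872830), (nat_lit 6464358)]) (PF.cons (PF.leaf (nat_lit 10140814) (nat_lit 925464) (nat_lit 39770507) (nat_lit 3901434) [(nat_lit 925464), (nat_lit 2866047), (nat_lit 6419895)]) (PF.cons (PF.leaf (nat_lit 10628387) (nat_lit 927535) (nat_lit 38932622) (nat_lit 3883049) [(nat_lit 927535), (nat_lit 2857019), (nat_lit 6372315)]) (PF.cons (PF.leaf (nat_lit 11111800) (nat_lit 928550) (nat_lit 38112253) (nat_lit 3862317) [(nat_lit 928550), (nat_lit 2845961), (nat_lit 6321989)]) (PF.cons PF.nil PF.nil)))))))))) (PF.cons (PF.cons (PF.leaf (nat_lit 8292462) (nat_lit 2865742) (nat_lit 42325955) (nat_lit 3926373) [(nat_lit 0), (nat_lit 2865742), (nat_lit 6527772)]) (PF.cons (PF.leaf (nat_lit 8772668)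 (nat_lit 907460) (nat_lit 41466786) (nat_lit 3917563) [(nat_lit 907460), (nat_lit 2864972), (nat_lit 6492142)]) (PF.cons (PF.leaf (nat_lit 9254394) (nat_lit 912915) (nat_lit 40616982) (nat_lit 3905651) [(nat_lit
 912915), (nat_lit 2861542), (nat_lit 6452635)]) (PF.cons (PF.leaf (nat_lit 9735877) (nat_lit 916981) (nat_lit 39779088) (nat_lit 3890882) [(nat_lit 916981), (nat_lit 2855655), (nat_lit 6409618)]) (PF.cons (PF.leaf (nat_lit 10215759) (nat_lit 919800) (nat_lit 38955073) (nat_lit 3873502) [(nat_lit 919800), (nat_lit 2847515), (nat_lit 6363457)]) (PF.cons (PF.leaf (nat_lit 10692888) (nat_lit 921496) (nat_lit 38146448) (nat_lit 3853759) [(nat_lit 921496), (nat_lit 2837323), (nat_lit 6314505)]) (PF.cons (PF.leaf (nat_lit 11166316) (nat_lit 922181) (nat_lit 37354357) (nat_lit 3831888) [(nat_lit 922181), (nat_lit 2825275), (nat_lit 6263103)]) (PF.cons PF.nil PF.nil)))))))) (PF.cons (PF.cons (PF.leaf (nat_lit 9348435) (nat_lit 2844610) (nat_lit 39763635) (nat_lit 3879570)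 [(nat_lit 0), (nat_lit 2844610), (nat_lit 6397943)]) (PF.cons (PF.leaf (nat_lit 9818413) (nat_lit 911205) (nat_lit 38956927) (nat_lit 3863204) [(nat_lit 911205), (nat_lit 2837366), (nat_lit 6353278)]) (PF.cons (PF.leaf (nat_lit 10287478) (nat_lit 913689) (nat_lit 38162853) (nat_lit 3844465) [(nat_lit 913689), (nat_lit 2828056), (nat_lit 6305775)]) (PF.cons (PF.leaf (nat_lit 10754329) (nat_lit 915083) (nat_lit 37383022)
 (nat_lit 3823576) [(nat_lit 915083), (nat_lit 2816866), (nat_lit 6255763)]) (PF.cons (PF.leaf (nat_lit 11217975) (nat_lit 915500) (nat_lit 36618644) (nat_lit 3800757) [(nat_lit 915500), (nat_lit 2803974), (nat_lit 6203557)]) (PF.cons (PF.leaf (nat_lit 11677600) (nat_lit 915043) (nat_lit 35870607) (nat_lit 3776216) [(nat_lit 915043), (nat_lit 2789553), (nat_lit 6149453)]) PF.nil)))))) (PF.cons (PF.cons (PF.leaf (nat_lit 10356758) (nat_lit 2807785) (nat_lit 37392795) (nat_lit 3814467) [(nat_lit 0), (nat_lit 2807785), (nat_lit 6247051)]) (PF.cons (PF.leaf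 (nat_lit 10813314) (nat_lit 908322) (nat_lit 36641345) (nat_lit 3792632) [(nat_lit 908322), (nat_lit 2795749), (nat_lit 6196266)]) (PF.cons (PF.leaf (nat_lit 11267316) (nat_lit 908533) (nat_lit 35904160) (nat_lit 3769037) [(nat_lit 908533), (nat_lit 2782149), (nat_lit 6143504)]) (PF.cons (PF.leaf (nat_lit 11717792) (nat_lit 907895) (nat_lit 35182209) (nat_lit 3743876) [(nat_lit 907895), (nat_lit 2767142), (nat_lit 6089042)]) PF.nil)))) (PF.cons (PF.cons (PF.leaf (nat_lit 11314963) (nat_lit 2759873) (nat_lit 35209926) (nat_lit 3736825) [(nat_lit 0), (nat_lit 2759873), (nat_lit 6083073)]) (PF.cons (PF.leaf (nat_lit 11756300) (nat_lit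
 900530) (nat_lit 34513520) (nat_lit 3711181) [(nat_lit 900530), (nat_lit 2744391), (nat_lit 6028451)]) PF.nil)) (PF.cons PF.nil (PF.cons PF.nil (PF.cons PF.nil (PF.cons PF.nil PF.nil))))))))))))) (PF.cons (PF.cons (PF.cons (PF.leaf (nat_lit 4658423) (nat_lit 3816907) (nat_lit 50086008) (nat_lit 3816907) [(nat_lit 0), (nat_lit 0), (nat_lit 6602948)]) (PF.cons (PF.leaf (nat_lit 5090086) (nat_lit 797603) (nat_lit 49232370) (nat_lit 3846908) [(nat_lit 797603), (nat_lit 0), (nat_lit 6615965)]) (PF.cons (PF.leaf (nat_lit 5543538) (nat_lit 821005) (nat_lit 48348570) (nat_lit 3872303) [(nat_lit 821005), (nat_lit 0), (nat_lit 6622964)]) (PF.cons (PF.leaf (nat_lit 6013538) (nat_lit 841134) (nat_lit 47445277) (nat_lit 3892803) [(nat_lit 841134), (nat_lit 0), (nat_lit 6623664)]) (PF.cons (PF.leaf (nat_lit 6496038) (nat_lit 858416) (nat_lit 46530691) (nat_lit 3908360) [(nat_lit 858416), (nat_lit 0), (nat_lit 6618047)]) (PF.cons (PF.leaf (nat_lit 6987711) (nat_lit 873177) (nat_lit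 45611311) (nat_lit 3919070) [(nat_lit 873177), (nat_lit 0), (nat_lit 6606271)]) (PF.cons (PF.leaf (nat_lit 7485751) (nat_lit 885682) (nat_lit 44692374) (nat_lit 3925127) [(nat_lit 885682), (nat_lit 0), (nat_lit
 6588608)]) (PF.cons (PF.leaf (nat_lit 7987795) (nat_lit 896153) (nat_lit 43778141) (nat_lit 3926782) [(nat_lit 896153), (nat_lit 0), (nat_lit 6565408)]) (PF.cons (PF.leaf (nat_lit 8491800) (nat_lit 904784) (nat_lit 42872085) (nat_lit 3924321) [(nat_lit 904784), (nat_lit 0), (nat_lit 6537065)]) (PF.cons (PF.leaf (nat_lit 8996036) (nat_lit 911748) (nat_lit 41977029) (nat_lit 3918046) [(nat_lit 911748), (nat_lit 0), (nat_lit 6504000)]) (PF.cons (PF.leaf (nat_lit 9499009) (nat_lit 917200) (nat_lit 41095257) (nat_lit 3908267) [(nat_lit 917200), (nat_lit 0), (nat_lit 6466639)]) (PF.cons (PF.leaf (nat_lit 9999490) (nat_lit 921282) (nat_lit 40228595) (nat_lit 3895293) [(nat_lit 921282), (nat_lit 0), (nat_lit 6425409)]) (PF.cons (PF.leaf (nat_lit 10496360) (nat_lit 924122)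 (nat_lit 39378481) (nat_lit 3879421) [(nat_lit 924122), (nat_lit 0), (nat_lit 6380722)]) (PF.cons PF.nil (PF.cons PF.nil (PF.cons PF.nil PF.nil)))))))))))))))) (PF.cons (PF.cons (PF.leaf (nat_lit 5735325) (nat_lit 2785587) (nat_lit 47236090) (nat_lit 3876632) [(nat_lit 0), (nat_lit 2785587), (nat_lit 6605250)]) (PF.cons (PF.leaf (nat_lit 6189795) (nat_lit 841875) (nat_lit 46369882) (nat_lit 3891930) [(nat_lit 841875),
 (nat_lit 2805749), (nat_lit 6599687)]) (PF.cons (PF.leaf (nat_lit 6658066) (nat_lit 858326) (nat_lit 45490374) (nat_lit 3902847) [(nat_lit 858326), (nat_lit 2822053), (nat_lit 6588441)]) (PF.cons (PF.leaf (nat_lit 7136317) (nat_lit 872255) (nat_lit 44604754) (nat_lit 3909428) [(nat_lit 872255), (nat_lit 2834576), (nat_lit 6571644)]) (PF.cons (PF.leaf (nat_lit 7621534) (nat_lit 883955) (nat_lit 43718621) (nat_lit 3911819) [(nat_lit 883955), (nat_lit 2843468), (nat_lit 6549539)]) (PF.cons (PF.leaf (nat_lit 8111243) (nat_lit 893669) (nat_lit 42836409) (nat_lit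 3910235) [(nat_lit 893669), (nat_lit 2848930), (nat_lit 6522444)]) (PF.cons (PF.leaf (nat_lit 8603347) (nat_lit 901600) (nat_lit 41961667) (nat_lit 3904925) [(nat_lit 901600), (nat_lit 2851182), (nat_lit 6490718)]) (PF.cons (PF.leaf (nat_lit 9096080) (nat_lit 907923) (nat_lit 41097239) (nat_lit 3896160) [(nat_lit 907923), (nat_lit 2850460), (nat_lit 6454745)]) (PF.cons (PF.leaf (nat_lit 9587948) (nat_lit 912795) (nat_lit 40245398) (nat_lit 3884218) [(nat_lit 912795), (nat_lit 2847001), (nat_lit 6414914)]) (PF.cons (PF.leaf (nat_lit 10077668) (nat_lit 916357) (nat_lit 39407947) (nat_lit 3869378) [(nat_lit 916357), (nat_lit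
 2841038), (nat_lit 6371615)]) (PF.cons (PF.leaf (nat_lit 10564187) (nat_lit 918735) (nat_lit 38586295) (nat_lit 3851912) [(nat_lit 918735), (nat_lit 2832800), (nat_lit 6325224)]) (PF.cons (PF.leaf (nat_lit 11046596) (nat_lit 920044) (nat_lit 37781526) (nat_lit 3832082) [(nat_lit 920044), (nat_lit 2822503), (nat_lit 6276104)]) (PF.cons PF.nil (PF.cons PF.nil PF.nil)))))))))))))) (PF.cons (PF.cons (PF.leaf (nat_lit 6817167) (nat_lit 2818887) (nat_lit 44470400) (nat_lit 3893496) [(nat_lit 0), (nat_lit 2818887), (nat_lit 6553570)]) (PF.cons (PF.leaf (nat_lit 7281142) (nat_lit 870116) (nat_lit 43620383) (nat_lit 3896446) [(nat_lit 870116), (nat_lit 2828423), (nat_lit 6532509)]) (PF.cons (PF.leaf (nat_lit 7753136) (nat_lit 881194) (nat_lit 42768178) (nat_lit 3895624) [(nat_lit 881194), (nat_lit 2834670), (nat_lit 6506639)]) (PF.cons (PF.leaf (nat_lit 8230327) (nat_lit 890302) (nat_lit 41918608) (nat_lit 3891207) [(nat_lit 890302), (nat_lit 2837793), (nat_lit 6476252)]) (PF.cons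 (PF.leaf (nat_lit 8710497) (nat_lit 897658) (nat_lit 41075434) (nat_lit 3883412) [(nat_lit 897658), (nat_lit 2837986), (nat_lit 6441679)]) (PF.cons (PF.leaf (nat_lit 9191803) (nat_lit 903450) (nat_lit 40241614)
 (nat_lit 3872481) [(nat_lit 903450), (nat_lit 2835459), (nat_lit 6403272)]) (PF.cons (PF.leaf (nat_lit 9672701) (nat_lit 907838) (nat_lit 39419480) (nat_lit 3858666) [(nat_lit 907838), (nat_lit 2830426), (nat_lit 6361392)]) (PF.cons (PF.leaf (nat_lit 10151899) (nat_lit 910963) (nat_lit 38610860) (nat_lit 3842218) [(nat_lit 910963), (nat_lit 2823100), (nat_lit 6316395)]) (PF.cons (PF.leaf (nat_lit 10628308) (nat_lit 912952) (nat_lit 37817177) (nat_lit 3823385) [(nat_lit 912952), (nat_lit 2813689), (nat_lit 6268627)]) (PF.cons (PF.leaf (nat_lit 11101008) (nat_lit 913918) (nat_lit 37039515) (nat_lit 3802407) [(nat_lit 913918), (nat_lit 2802392), (nat_lit 6218421)]) (PF.cons PF.nil (PF.cons PF.nil PF.nil)))))))))))) (PF.cons (PF.cons (PF.leaf (nat_lit 7881842) (nat_lit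 2823809) (nat_lit 41839881) (nat_lit 3876845) [(nat_lit 0), (nat_lit 2823809), (nat_lit 6460327)]) (PF.cons (PF.leaf (nat_lit 8346045) (nat_lit 886090) (nat_lit 41023692) (nat_lit 3869969) [(nat_lit 886090), (nat_lit 2824879), (nat_lit 6427210)]) (PF.cons (PF.leaf (nat_lit 8814119) (nat_lit 893002) (nat_lit 40212402) (nat_lit 3860024) [(nat_lit 893002), (nat_lit 2823269), (nat_lit 6390286)]) (PF.cons (PF.leaf (nat_lit
 9283977) (nat_lit 898371) (nat_lit 39409205) (nat_lit 3847226) [(nat_lit 898371), (nat_lit 2819165), (nat_lit 6349884)]) (PF.cons (PF.leaf (nat_lit 9753985) (nat_lit 902367) (nat_lit 38616575) (nat_lit 3831801) [(nat_lit 902367), (nat_lit 2812761), (nat_lit 6306340)]) (PF.cons (PF.leaf (nat_lit 10222795) (nat_lit 905135) (nat_lit 37836426) (nat_lit 3813979) [(nat_lit 905135), (nat_lit 2804253), (nat_lit 6259983)]) (PF.cons (PF.leaf (nat_lit 10689274) (nat_lit 906804) (nat_lit 37070233) (nat_lit 3793987) [(nat_lit 906804), (nat_lit 2793830), (nat_lit 6211134)])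 (PF.cons (PF.leaf (nat_lit 11152491) (nat_lit 907488) (nat_lit 36319115) (nat_lit 3772045) [(nat_lit 907488), (nat_lit 2781677), (nat_lit 6160101)]) (PF.cons PF.nil (PF.cons PF.nil PF.nil)))))))))) (PF.cons (PF.cons (PF.leaf (nat_lit 8915247) (nat_lit 2807192) (nat_lit 39371420) (nat_lit 3834970) [(nat_lit 0), (nat_lit 2807192), (nat_lit 6336826)]) (PF.cons (PF.leaf (nat_lit 9373397) (nat_lit 892716) (nat_lit 38598953) (nat_lit 3820579) [(nat_lit 892716), (nat_lit 2801722), (nat_lit 6294837)]) (PF.cons (PF.leaf (nat_lit 9832495) (nat_lit 896413) (nat_lit 37835685) (nat_lit 3803787) [(nat_lit 896413), (nat_lit 2794136),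
 (nat_lit 6249984)]) (PF.cons (PF.leaf (nat_lit 10290976) (nat_lit 898904) (nat_lit 37083688) (nat_lit 3784807) [(nat_lit 898904), (nat_lit 2784611), (nat_lit 6202578)]) (PF.cons (PF.leaf (nat_lit 10747655) (nat_lit 900320) (nat_lit 36344543) (nat_lit 3763846) [(nat_lit 900320), (nat_lit 2773324), (nat_lit 6152921)]) (PF.cons (PF.leaf (nat_lit 11201545) (nat_lit 900779) (nat_lit 35619438) (nat_lit 3741105) [(nat_lit 900779), (nat_lit 2760443), (nat_lit 6101297)]) (PF.cons (PF.leaf (nat_lit 11651840) (nat_lit 900382) (nat_lit 34909257) (nat_lit 3716778) [(nat_lit 900382), (nat_lit 2746131), (nat_lit 6047976)]) (PF.cons PF.nil PF.nil)))))))) (PF.cons (PF.cons (PF.leaf (nat_lit 9909051) (nat_lit 2774659) (nat_lit 37075721) (nat_lit 3774766) [(nat_lit 0), (nat_lit 2774659), (nat_lit 6192514)]) (PF.cons (PF.leaf (nat_lit 10357070) (nat_lit 892288) (nat_lit 36351636) (nat_lit 3754826) [(nat_lit 892288), (nat_lit 2764272), (nat_lit 6144349)]) (PF.cons (PF.leaf (nat_lit 10803997)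 (nat_lit 893520) (nat_lit 35639153) (nat_lit 3733069) [(nat_lit 893520), (nat_lit 2752256), (nat_lit 6094133)]) (PF.cons (PF.leaf (nat_lit 11248672) (nat_lit 893812) (nat_lit 34939578) (nat_lit 3709684) [(nat_lit
 893812), (nat_lit 2738768), (nat_lit 6042136)]) (PF.cons (PF.leaf (nat_lit 11690226) (nat_lit 893268) (nat_lit 34253877) (nat_lit 3684848) [(nat_lit 893268), (nat_lit 2723958), (nat_lit 5988611)]) (PF.cons PF.nil PF.nil)))))) (PF.cons (PF.cons (PF.leaf (nat_lit 10858960) (nat_lit 2730699) (nat_lit 34953074) (nat_lit 3701752) [(nat_lit 0), (nat_lit 2730699), (nat_lit 6034893)]) (PF.cons (PF.leaf (nat_lit 11294337) (nat_lit 886599) (nat_lit 34278612) (nat_lit 3677863) [(nat_lit 886599), (nat_lit 2716714), (nat_lit 5982724)]) (PF.cons (PF.leaf (nat_lit 11727236) (nat_lit 885957) (nat_lit 33616894) (nat_lit 3652642) [(nat_lit 885957), (nat_lit 2701504), (nat_lit 5929168)]) (PF.cons PF.nil PF.nil)))) (PF.cons (PF.cons (PF.leaf (nat_lit 11763405) (nat_lit 2678818)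 (nat_lit 32997425) (nat_lit 3620219) [(nat_lit 0), (nat_lit 2678818), (nat_lit 5869721)]) (PF.cons PF.nil PF.nil)) (PF.cons PF.nil (PF.cons PF.nil (PF.cons PF.nil PF.nil))))))))))) (PF.cons (PF.cons (PF.cons (PF.leaf (nat_lit 6468139) (nat_lit 3837409) (nat_lit 43833978) (nat_lit 3837409) [(nat_lit 0), (nat_lit 0), (nat_lit 6479141)]) (PF.cons (PF.leaf (nat_lit 6907624) (nat_lit 842308) (nat_lit 43043771) (nat_lit 3842199)
 [(nat_lit 842308), (nat_lit 0), (nat_lit 6460177)]) (PF.cons (PF.leaf (nat_lit 7358842) (nat_lit 855746) (nat_lit 42244076) (nat_lit 3843354) [(nat_lit 855746), (nat_lit 0), (nat_lit 6436629)]) (PF.cons (PF.leaf (nat_lit 7818262) (nat_lit 866850) (nat_lit 41441115) (nat_lit 3840988) [(nat_lit 866850), (nat_lit 0), (nat_lit 6408719)]) (PF.cons (PF.leaf (nat_lit 8283190) (nat_lit 875932) (nat_lit 40639634) (nat_lit 3835277) [(nat_lit 875932), (nat_lit 0), (nat_lit 6376723)]) (PF.cons (PF.leaf (nat_lit 8751428) (nat_lit 883242) (nat_lit 39843319) (nat_lit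 3826430) [(nat_lit 883242), (nat_lit 0), (nat_lit 6340950)]) (PF.cons (PF.leaf (nat_lit 9221153) (nat_lit 888982) (nat_lit 39055066) (nat_lit 3814679) [(nat_lit 888982), (nat_lit 0), (nat_lit 6301723)]) (PF.cons (PF.leaf (nat_lit 9690831) (nat_lit 893326) (nat_lit 38277155) (nat_lit 3800260) [(nat_lit 893326), (nat_lit 0), (nat_lit 6259371)]) (PF.cons (PF.leaf (nat_lit 10159205) (nat_lit 896421) (nat_lit 37511375) (nat_lit 3783408) [(nat_lit 896421), (nat_lit 0), (nat_lit 6214218)]) (PF.cons (PF.leaf (nat_lit 10625183) (nat_lit 898399) (nat_lit 36759119) (nat_lit 3764356) [(nat_lit 898399), (nat_lit 0), (nat_lit 6166579)]) (PF.cons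
 (PF.leaf (nat_lit 11087870) (nat_lit 899376) (nat_lit 36021456) (nat_lit 3743324) [(nat_lit 899376), (nat_lit 0), (nat_lit 6116755)]) (PF.cons PF.nil (PF.cons PF.nil (PF.cons PF.nil PF.nil)))))))))))))) (PF.cons (PF.cons (PF.leaf (nat_lit 7495389) (nat_lit 2779883) (nat_lit 41329412) (nat_lit 3825641) [(nat_lit 0), (nat_lit 2779883), (nat_lit 6391292)]) (PF.cons (PF.leaf (nat_lit 7941205) (nat_lit 862617) (nat_lit 40559926) (nat_lit 3820834) [(nat_lit 862617), (nat_lit 2783004), (nat_lit 6360810)]) (PF.cons (PF.leaf (nat_lit 8393688) (nat_lit 871342) (nat_lit 39790032) (nat_lit 3812981) [(nat_lit 871342), (nat_lit 2783397), (nat_lit 6326572)]) (PF.cons (PF.leaf (nat_lit 8850279) (nat_lit 878287) (nat_lit 39023822) (nat_lit 3802265) [(nat_lit 878287), (nat_lit 2781236), (nat_lit 6288875)]) (PF.cons (PF.leaf (nat_lit 9309008) (nat_lit 883675) (nat_lit 38264432) (nat_lit 3788895) [(nat_lit 883675), (nat_lit 2776707), (nat_lit 6248025)]) (PF.cons (PF.leaf (nat_lit 9768267)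 (nat_lit 887688) (nat_lit 37514288) (nat_lit 3773085) [(nat_lit 887688), (nat_lit 2770002), (nat_lit 6204331)]) (PF.cons (PF.leaf (nat_lit 10226702) (nat_lit 890480) (nat_lit 36775272) (nat_lit 3755051) [(nat_lit
 890480), (nat_lit 2761309), (nat_lit 6158098)]) (PF.cons (PF.leaf (nat_lit 10683203) (nat_lit 892186) (nat_lit 36048837) (nat_lit 3735006) [(nat_lit 892186), (nat_lit 2750811), (nat_lit 6109618)]) (PF.cons (PF.leaf (nat_lit 11136838) (nat_lit 892920) (nat_lit 35336090) (nat_lit 3713154) [(nat_lit 892920), (nat_lit 2738683), (nat_lit 6059171)]) (PF.cons PF.nil (PF.cons PF.nil (PF.cons PF.nil PF.nil)))))))))))) (PF.cons (PF.cons (PF.leaf (nat_lit 8502583) (nat_lit 2768204) (nat_lit 38960607) (nat_lit 3788965) [(nat_lit 0), (nat_lit 2768204), (nat_lit 6274276)]) (PF.cons (PF.leaf (nat_lit 8947056) (nat_lit 872693) (nat_lit 38224932) (nat_lit 3776658) [(nat_lit 872693), (nat_lit 2764661), (nat_lit 6235068)]) (PF.cons (PF.leaf (nat_lit 9394618) (nat_lit 877835) (nat_lit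 37494498) (nat_lit 3761914) [(nat_lit 877835), (nat_lit 2758932), (nat_lit 6192954)]) (PF.cons (PF.leaf (nat_lit 9843388) (nat_lit 881606) (nat_lit 36771985) (nat_lit 3744929) [(nat_lit 881606), (nat_lit 2751189), (nat_lit 6148233)]) (PF.cons (PF.leaf (nat_lit 10291920) (nat_lit 884170) (nat_lit 36059434) (nat_lit 3725904) [(nat_lit 884170), (nat_lit 2741608), (nat_lit 6101192)]) (PF.cons (PF.leaf (nat_lit 10739042)
 (nat_lit 885666) (nat_lit 35358405) (nat_lit 3705034) [(nat_lit 885666), (nat_lit 2730357), (nat_lit 6052109)]) (PF.cons (PF.leaf (nat_lit 11183765) (nat_lit 886213) (nat_lit 34670081) (nat_lit 3682510) [(nat_lit 886213), (nat_lit 2717599), (nat_lit 6001246)]) (PF.cons PF.nil (PF.cons PF.nil (PF.cons PF.nil PF.nil)))))))))) (PF.cons (PF.cons (PF.leaf (nat_lit 9478875) (nat_lit 2740260) (nat_lit 36744108) (nat_lit 3733869) [(nat_lit 0), (nat_lit 2740260), (nat_lit 6136684)]) (PF.cons (PF.leaf (nat_lit 9916871) (nat_lit 875094) (nat_lit 36049201) (nat_lit 3715912)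 [(nat_lit 875094), (nat_lit 2731636), (nat_lit 6091231)]) (PF.cons (PF.leaf (nat_lit 10355445) (nat_lit 877505) (nat_lit 35362895) (nat_lit 3696073) [(nat_lit 877505), (nat_lit 2721305), (nat_lit 6043638)]) (PF.cons (PF.leaf (nat_lit 10793196) (nat_lit 878855) (nat_lit 34686920) (nat_lit 3674534) [(nat_lit 878855), (nat_lit 2709422), (nat_lit 5994173)]) (PF.cons (PF.leaf (nat_lit 11229073) (nat_lit 879270) (nat_lit 34022573) (nat_lit 3651473) [(nat_lit 879270), (nat_lit 2696142), (nat_lit 5943086)]) (PF.cons (PF.leaf (nat_lit 11662210) (nat_lit 878855) (nat_lit 33370822) (nat_lit 3627058) [(nat_lit 878855), (nat_lit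
 2681606), (nat_lit 5890611)]) (PF.cons PF.nil (PF.cons PF.nil PF.nil)))))))) (PF.cons (PF.cons (PF.leaf (nat_lit 10417985) (nat_lit 2700471) (nat_lit 34684632) (nat_lit 3665646) [(nat_lit 0), (nat_lit 2700471), (nat_lit 5985549)]) (PF.cons (PF.leaf (nat_lit 10846185) (nat_lit 871764) (nat_lit 34033444) (nat_lit 3643584) [(nat_lit 871764), (nat_lit 2688071), (nat_lit 5935911)]) (PF.cons (PF.leaf (nat_lit 11273218) (nat_lit 872100) (nat_lit 33392696) (nat_lit 3620113) [(nat_lit 872100), (nat_lit 2674367), (nat_lit 5884777)]) (PF.cons (PF.leaf (nat_lit 11698031) (nat_lit 871613) (nat_lit 32763477) (nat_lit 3595392) [(nat_lit 871613), (nat_lit 2659494), (nat_lit 5832375)]) (PF.cons PF.nil (PF.cons PF.nil PF.nil)))))) (PF.cons (PF.cons (PF.leaf (nat_lit 11316779) (nat_lit 2652320) (nat_lit 32779552) (nat_lit 3588487) [(nat_lit 0), (nat_lit 2652320), (nat_lit 5826389)]) (PF.cons (PF.leaf (nat_lit 11733143) (nat_lit 864197) (nat_lit 32172480) (nat_lit 3563563) [(nat_lit 864197),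 (nat_lit 2637191), (nat_lit 5774204)]) (PF.cons PF.nil (PF.cons PF.nil PF.nil)))) (PF.cons (PF.cons (PF.leaf (nat_lit 12174240) (nat_lit 2598508) (nat_lit 31021919) (nat_lit 3505629) [(nat_lit 0), (nat_lit
 2598508), (nat_lit 5663403)]) (PF.cons PF.nil PF.nil)) (PF.cons PF.nil (PF.cons PF.nil (PF.cons PF.nil PF.nil)))))))))) (PF.cons (PF.cons (PF.cons (PF.leaf (nat_lit 8112650) (nat_lit 3741270) (nat_lit 38527499) (nat_lit 3741270) [(nat_lit 0), (nat_lit 0), (nat_lit 6210010)]) (PF.cons (PF.leaf (nat_lit 8541090) (nat_lit 850654) (nat_lit 37832019) (nat_lit 3731197) [(nat_lit 850654), (nat_lit 0), (nat_lit 6173735)]) (PF.cons (PF.leaf (nat_lit 8975214) (nat_lit 857584) (nat_lit 37137058) (nat_lit 3718632) [(nat_lit 857584), (nat_lit 0), (nat_lit 6134488)]) (PF.cons (PF.leaf (nat_lit 9412677) (nat_lit 862899) (nat_lit 36446122) (nat_lit 3703761) [(nat_lit 862899), (nat_lit 0), (nat_lit 6092557)]) (PF.cons (PF.leaf (nat_lit 9851701) (nat_lit 866816) (nat_lit 35761865) (nat_lit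 3686776) [(nat_lit 866816), (nat_lit 0), (nat_lit 6048226)]) (PF.cons (PF.leaf (nat_lit 10290857) (nat_lit 869514) (nat_lit 35086312) (nat_lit 3667870) [(nat_lit 869514), (nat_lit 0), (nat_lit 6001764)]) (PF.cons (PF.leaf (nat_lit 10728959) (nat_lit 871139) (nat_lit 34421018) (nat_lit 3647229) [(nat_lit 871139), (nat_lit 0), (nat_lit 5953431)]) (PF.cons (PF.leaf (nat_lit 11165030) (nat_lit 871818) (nat_lit
 33767166) (nat_lit 3625033) [(nat_lit 871818), (nat_lit 0), (nat_lit 5903471)]) (PF.cons PF.nil (PF.cons PF.nil PF.nil)))))))))) (PF.cons (PF.cons (PF.leaf (nat_lit 9067828) (nat_lit 2704334) (nat_lit 36395503) (nat_lit 3691567) [(nat_lit 0), (nat_lit 2704334), (nat_lit 6079351)]) (PF.cons (PF.leaf (nat_lit 9493998) (nat_lit 856428) (nat_lit 35732109) (nat_lit 3675712) [(nat_lit 856428), (nat_lit 2697627), (nat_lit 6036733)]) (PF.cons (PF.leaf (nat_lit 9922709) (nat_lit 860244) (nat_lit 35073840) (nat_lit 3657894) [(nat_lit 860244), (nat_lit 2689112), (nat_lit 5991869)])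 (PF.cons (PF.leaf (nat_lit 10352245) (nat_lit 862829) (nat_lit 34422974) (nat_lit 3638295) [(nat_lit 862829), (nat_lit 2678950), (nat_lit 5945025)]) (PF.cons (PF.leaf (nat_lit 10781315) (nat_lit 864343) (nat_lit 33781230) (nat_lit 3617090) [(nat_lit 864343), (nat_lit 2667299), (nat_lit 5896454)]) (PF.cons (PF.leaf (nat_lit 11208866) (nat_lit 864917) (nat_lit 33149908) (nat_lit 3594447) [(nat_lit 864917), (nat_lit 2654305), (nat_lit 5846390)]) (PF.cons (PF.leaf (nat_lit 11634036) (nat_lit 864663) (nat_lit 32529983) (nat_lit 3570528) [(nat_lit 864663), (nat_lit 2640110), (nat_lit 5795052)]) (PF.cons PF.nil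
 PF.nil)))))))) (PF.cons (PF.cons (PF.leaf (nat_lit 9993243) (nat_lit 2669006) (nat_lit 34402918) (nat_lit 3628356) [(nat_lit 0), (nat_lit 2669006), (nat_lit 5934881)]) (PF.cons (PF.leaf (nat_lit 10412841) (nat_lit 855817) (nat_lit 33776665) (nat_lit 3608215) [(nat_lit 855817), (nat_lit 2658306), (nat_lit 5887875)]) (PF.cons (PF.leaf (nat_lit 10832783) (nat_lit 857283) (nat_lit 33158240) (nat_lit 3586576) [(nat_lit 857283), (nat_lit 2646207), (nat_lit 5839253)]) (PF.cons (PF.leaf (nat_lit 11251796) (nat_lit 857805) (nat_lit 32549109) (nat_lit 3563601) [(nat_lit 857805), (nat_lit 2632852), (nat_lit 5789244)]) (PF.cons (PF.leaf (nat_lit 11668935) (nat_lit 857502) (nat_lit 31950365) (nat_lit 3539442) [(nat_lit 857502), (nat_lit 2618371), (nat_lit 5738063)]) (PF.cons PF.nil PF.nil)))))) (PF.cons (PF.cons (PF.leaf (nat_lit 10884007) (nat_lit 2624802) (nat_lit 32551112) (nat_lit 3555742) [(nat_lit 0), (nat_lit 2624802), (nat_lit 5781887)]) (PF.cons (PF.leaf (nat_lit 11294260)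 (nat_lit 850485) (nat_lit 31963920) (nat_lit 3532543) [(nat_lit 850485), (nat_lit 2611169), (nat_lit 5732088)]) (PF.cons (PF.leaf (nat_lit 11703335) (nat_lit 850178) (nat_lit 31386016) (nat_lit 3508236) [(nat_lit
 850178), (nat_lit 2596478), (nat_lit 5681192)]) (PF.cons PF.nil PF.nil)))) (PF.cons (PF.cons (PF.leaf (nat_lit 11737755) (nat_lit 2574458) (nat_lit 30836135) (nat_lit 3476946) [(nat_lit 0), (nat_lit 2574458), (nat_lit 5624474)]) (PF.cons (PF.leaf (nat_lit 12136962) (nat_lit 841689) (nat_lit 30287964) (nat_lit 3451668) [(nat_lit 841689), (nat_lit 2558736), (nat_lit 5573136)]) PF.nil)) (PF.cons PF.nil (PF.cons PF.nil (PF.cons PF.nil PF.nil)))))))) (PF.cons (PF.cons (PF.cons (PF.leaf (nat_lit 9586284) (nat_lit 3589681) (nat_lit 34105723) (nat_lit 3589681) [(nat_lit 0), (nat_lit 0), (nat_lit 5882681)]) (PF.cons (PF.leaf (nat_lit 9995542) (nat_lit 838461) (nat_lit 33506537) (nat_lit 3571584) [(nat_lit 838461), (nat_lit 0), (nat_lit 5838445)]) (PF.cons (PF.leaf (nat_lit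 10406954) (nat_lit 841275) (nat_lit 32912130) (nat_lit 3551885) [(nat_lit 841275), (nat_lit 0), (nat_lit 5792449)]) (PF.cons (PF.leaf (nat_lit 10818932) (nat_lit 842976) (nat_lit 32324467) (nat_lit 3530751) [(nat_lit 842976), (nat_lit 0), (nat_lit 5744932)]) (PF.cons (PF.leaf (nat_lit 11230311) (nat_lit 843717) (nat_lit 31745018) (nat_lit 3508337) [(nat_lit 843717), (nat_lit 0), (nat_lit 5696117)]) (PF.cons (PF.leaf
 (nat_lit 11640144) (nat_lit 843623) (nat_lit 31174886) (nat_lit 3484789) [(nat_lit 843623), (nat_lit 0), (nat_lit 5646204)]) (PF.cons PF.nil (PF.cons PF.nil PF.nil)))))))) (PF.cons (PF.cons (PF.leaf (nat_lit 10466254) (nat_lit 2596094) (nat_lit 32310582) (nat_lit 3521838) [(nat_lit 0), (nat_lit 2596094), (nat_lit 5736059)]) (PF.cons (PF.leaf (nat_lit 10869040) (nat_lit 835708) (nat_lit 31744789) (nat_lit 3500461) [(nat_lit 835708), (nat_lit 2584070), (nat_lit 5688756)]) (PF.cons (PF.leaf (nat_lit 11272028) (nat_lit 836476) (nat_lit 31186006) (nat_lit 3477876)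 [(nat_lit 836476), (nat_lit 2570887), (nat_lit 5640217)]) (PF.cons (PF.leaf (nat_lit 11674040) (nat_lit 836397) (nat_lit 30635498) (nat_lit 3454227) [(nat_lit 836397), (nat_lit 2556670), (nat_lit 5590644)]) (PF.cons PF.nil (PF.cons PF.nil PF.nil)))))) (PF.cons (PF.cons (PF.leaf (nat_lit 11314049) (nat_lit 2549427) (nat_lit 30640728) (nat_lit 3447278) [(nat_lit 0), (nat_lit 2549427), (nat_lit 5584390)]) (PF.cons (PF.leaf (nat_lit 11707990) (nat_lit 829012) (nat_lit 30109626) (nat_lit 3423610) [(nat_lit 829012), (nat_lit 2535101), (nat_lit 5535271)]) (PF.cons (PF.leaf (nat_lit 12100782) (nat_lit 828247) (nat_lit 29586732)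
 (nat_lit 3399059) [(nat_lit 828247), (nat_lit 2519904), (nat_lit 5485343)]) (PF.cons PF.nil PF.nil)))) (PF.cons (PF.cons (PF.leaf (nat_lit 12127807) (nat_lit 2498243) (nat_lit 29091774) (nat_lit 3368505) [(nat_lit 0), (nat_lit 2498243), (nat_lit 5430760)]) (PF.cons PF.nil PF.nil)) (PF.cons PF.nil (PF.cons PF.nil PF.nil)))))) (PF.cons (PF.cons (PF.cons (PF.leaf (nat_lit 10904249) (nat_lit 3416488) (nat_lit 30434322) (nat_lit 3416488) [(nat_lit 0), (nat_lit 0), (nat_lit 5543000)]) (PF.cons (PF.leaf (nat_lit 11291628) (nat_lit 815319) (nat_lit 29921672) (nat_lit 3394525) [(nat_lit 815319), (nat_lit 0), (nat_lit 5496215)]) (PF.cons (PF.leaf (nat_lit 11679135) (nat_lit 815571) (nat_lit 29415242) (nat_lit 3371577) [(nat_lit 815571), (nat_lit 0), (nat_lit 5448475)]) (PF.cons (PF.leaf (nat_lit 12065661) (nat_lit 815055) (nat_lit 28916137) (nat_lit 3347769) [(nat_lit 815055), (nat_lit 0), (nat_lit 5399956)]) PF.nil)))) (PF.cons (PF.cons (PF.leaf (nat_lit 11713618) (nat_lit 2475468)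 (nat_lit 28923780) (nat_lit 3341622) [(nat_lit 0), (nat_lit 2475468), (nat_lit 5394656)]) (PF.cons (PF.leaf (nat_lit 12092670) (nat_lit 807718) (nat_lit 28441854) (nat_lit 3317935) [(nat_lit 807718), (nat_lit
 2460824), (nat_lit 5346746)]) PF.nil)) (PF.cons PF.nil (PF.cons PF.nil PF.nil)))) (PF.cons (PF.cons (PF.cons (PF.leaf (nat_lit 12087141) (nat_lit 3239580) (nat_lit 27374858) (nat_lit 3239580) [(nat_lit 0), (nat_lit 0), (nat_lit 5213482)]) (PF.cons PF.nil PF.nil)) (PF.cons PF.nil PF.nil)) (PF.cons PF.nil (PF.cons PF.nil (PF.cons PF.nil (PF.cons PF.nil PF.nil))))))))))))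

def p12_21_0_0 : pfC (piC [(nat_lit 33242365), (nat_lit 21715570), (nat_lit 14024239)] (nat_lit 18773175)) p12_21_0 (nat_lit 3) (nat_lit 0) (nat_lit 1) = true := by decide +kernel
def p12_21_0_1 : pfC (piC [(nat_lit 33242365), (nat_lit 21715570), (nat_lit 14024239)] (nat_lit 18773175)) p12_21_0 (nat_lit 3) (nat_lit 1) (nat_lit 2) = true := by decide +kernel
def p12_21_0_2 : pfC (piC [(nat_lit 33242365), (nat_lit 21715570), (nat_lit 14024239)] (nat_lit 18773175)) p12_21_0 (nat_lit 3) (nat_lit 2) (nat_lit 3) = true := by decide +kernel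
def p12_21_0_3 : pfC (piC [(nat_lit 33242365), (nat_lit 21715570), (nat_lit 14024239)] (nat_lit 18773175)) p12_21_0 (nat_lit 3) (nat_lit 3) (nat_lit 4) = true := by decide +kernel
def p12_21_0_4 : pfC (piC [(nat_lit 33242365), (nat_lit 21715570), (nat_lit 14024239)] (nat_lit 18773175)) p12_21_0 (nat_lit 3) (nat_lit 4) (nat_lit 5) = true := by decide +kernel
def p12_21_0_5 : pfC (piC [(nat_lit 33242365), (nat_lit 21715570), (nat_lit 14024239)] (nat_lit 18773175)) p12_21_0 (nat_lit 3) (nat_lit 5) (nat_lit 6) = true := by decide +kernel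
def p12_21_0_6 : pfC (piC [(nat_lit 33242365), (nat_lit 21715570), (nat_lit 14024239)] (nat_lit 18773175)) p12_21_0 (nat_lit 3) (nat_lit 6) (nat_lit 7) = true := by decide +kernel
def p12_21_0_7 : pfC (piC [(nat_lit 33242365), (nat_lit 21715570), (nat_lit 14024239)] (nat_lit 18773175)) p12_21_0 (nat_lit 3) (nat_lit 7) (nat_lit 8) = true := by decide +kernel
def p12_21_0_8 : pfC (piC [(nat_lit 33242365), (nat_lit 21715570), (nat_lit 14024239)] (nat_lit 18773175)) p12_21_0 (nat_lit 3) (nat_lit 8) (nat_lit 9) = true := by decide +kernel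
def p12_21_0_9 : pfC (piC [(nat_lit 33242365), (nat_lit 21715570), (nat_lit 14024239)] (nat_lit 18773175)) p12_21_0 (nat_lit 3) (nat_lit 9) (nat_lit 10) = true := by decide +kernel
def p12_21_0_10 : pfC (piC [(nat_lit 33242365), (nat_lit 21715570), (nat_lit 14024239)] (nat_lit 18773175)) p12_21_0 (nat_lit 3) (nat_lit 10) (nat_lit 11) = true := by decide +kernel
def p12_21_0_11 : pfC (piC [(nat_lit 33242365), (nat_lit 21715570), (nat_lit 14024239)] (nat_lit 18773175)) p12_21_0 (nat_lit 3) (nat_lit 11) (nat_lit 12) = true := by decide +kernel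
def p12_21_0_12 : pfC (piC [(nat_lit 33242365), (nat_lit 21715570), (nat_lit 14024239)] (nat_lit 18773175)) p12_21_0 (nat_lit 3) (nat_lit 12) (nat_lit 13) = true := by decide +kernel
def p12_21_0_13 : pfC (piC [(nat_lit 33242365), (nat_lit 21715570), (nat_lit 14024239)] (nat_lit 18773175)) p12_21_0 (nat_lit 3) (nat_lit 13) (nat_lit 14) = true := by decide +kernel
def p12_21_0_14 : pfC (piC [(nat_lit 33242365), (nat_lit 21715570), (nat_lit 14024239)] (nat_lit 18773175)) p12_21_0 (nat_lit 3) (nat_lit 14) (nat_lit 15) = true := by decide +kernel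
def p12_21_0_15 : pfC (piC [(nat_lit 33242365), (nat_lit 21715570), (nat_lit 14024239)] (nat_lit 18773175)) p12_21_0 (nat_lit 3) (nat_lit 15) (nat_lit 16) = true := by decide +kernel
def p12_21_0_16 : pfC (piC [(nat_lit 33242365), (nat_lit 21715570), (nat_lit 14024239)] (nat_lit 18773175)) p12_21_0 (nat_lit 3) (nat_lit 16) (nat_lit 17) = true := by decide +kernel
def p12_21_0_17 : pfC (piC [(nat_lit 33242365), (nat_lit 21715570), (nat_lit 14024239)] (nat_lit 18773175)) p12_21_0 (nat_lit 3) (nat_lit 17) (nat_lit 18) = true := by decide +kernel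
def p12_21_0_18 : pfC (piC [(nat_lit 33242365), (nat_lit 21715570), (nat_lit 14024239)] (nat_lit 18773175)) p12_21_0 (nat_lit 3) (nat_lit 18) (nat_lit 19) = true := by decide +kernel
def p12_21_0_19 : pfC (piC [(nat_lit 33242365), (nat_lit 21715570), (nat_lit 14024239)] (nat_lit 18773175)) p12_21_0 (nat_lit 3) (nat_lit 19) (nat_lit 20) = true := by decide +kernel
def p12_21_0_20 : pfC (piC [(nat_lit 33242365), (nat_lit 21715570), (nat_lit 14024239)] (nat_lit 18773175)) p12_21_0 (nat_lit 3) (nat_lit 20) (nat_lit 21) = true := by decide +kernel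
def p12_21_0_21 : pfC (piC [(nat_lit 33242365), (nat_lit 21715570), (nat_lit 14024239)] (nat_lit 18773175)) p12_21_0 (nat_lit 3) (nat_lit 21) (nat_lit 22) = true := by decide +kernel
def p12_21_0_22 : pfC (piC [(nat_lit 33242365), (nat_lit 21715570), (nat_lit 14024239)] (nat_lit 18773175)) p12_21_0 (nat_lit 3) (nat_lit 22) (nat_lit 23) = true := by decide +kernel
def p12_21_0_23 : pfC (piC [(nat_lit 33242365), (nat_lit 21715570), (nat_lit 14024239)] (nat_lit 18773175)) p12_21_0 (nat_lit 3) (nat_lit 23) (nat_lit 24) = true := by decide +kernel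
def p12_21_0_24 : pfC (piC [(nat_lit 33242365), (nat_lit 21715570), (nat_lit 14024239)] (nat_lit 18773175)) p12_21_0 (nat_lit 3) (nat_lit 24) (nat_lit 25) = true := by decide +kernel
def p12_21_0_25 : pfC (piC [(nat_lit 33242365), (nat_lit 21715570), (nat_lit 14024239)] (nat_lit 18773175)) p12_21_0 (nat_lit 3) (nat_lit 25) (nat_lit 26) = true := by decide +kernel
def p12_21_0_26 : pfC (piC [(nat_lit 33242365), (nat_lit 21715570), (nat_lit 14024239)] (nat_lit 18773175)) p12_21_0 (nat_lit 3) (nat_lit 26) (nat_lit 27) = true := by decide +kernel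
def p12_21_0_27 : pfC (piC [(nat_lit 33242365), (nat_lit 21715570), (nat_lit 14024239)] (nat_lit 18773175)) p12_21_0 (nat_lit 3) (nat_lit 27) (nat_lit 28) = true := by decide +kernel
def p12_21_0_28 : pfC (piC [(nat_lit 33242365), (nat_lit 21715570), (nat_lit 14024239)] (nat_lit 18773175)) p12_21_0 (nat_lit 3) (nat_lit 28) (nat_lit 29) = true := by decide +kernel
def p12_21_0_29 : pfC (piC [(nat_lit 33242365), (nat_lit 21715570), (nat_lit 14024239)] (nat_lit 18773175)) p12_21_0 (nat_lit 3) (nat_lit 29) (nat_lit 30) = true := by decide +kernel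
def p12_21_0_30 : pfC (piC [(nat_lit 33242365), (nat_lit 21715570), (nat_lit 14024239)] (nat_lit 18773175)) p12_21_0 (nat_lit 3) (nat_lit 30) (nat_lit 31) = true := by decide +kernel
def p12_21_0_31 : pfC (piC [(nat_lit 33242365), (nat_lit 21715570), (nat_lit 14024239)] (nat_lit 18773175)) p12_21_0 (nat_lit 3) (nat_lit 31) (nat_lit 32) = true := by decide +kernel
def p12_21_0_32 : pfC (piC [(nat_lit 33242365), (nat_lit 21715570), (nat_lit 14024239)] (nat_lit 18773175)) p12_21_0 (nat_lit 3) (nat_lit 32) (nat_lit 33) = true := by decide +kernel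
def p12_21_0_33 : pfC (piC [(nat_lit 33242365), (nat_lit 21715570), (nat_lit 14024239)] (nat_lit 18773175)) p12_21_0 (nat_lit 3) (nat_lit 33) (nat_lit 34) = true := by decide +kernel
def p12_21_0_34 : pfC (piC [(nat_lit 33242365), (nat_lit 21715570), (nat_lit 14024239)] (nat_lit 18773175)) p12_21_0 (nat_lit 3) (nat_lit 34) (nat_lit 35) = true := by decide +kernel
def p12_21_0_35 : pfC (piC [(nat_lit 33242365), (nat_lit 21715570), (nat_lit 14024239)] (nat_lit 18773175)) p12_21_0 (nat_lit 3) (nat_lit 35) (nat_lit 36) = true := by decide +kernel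
def p12_21_0_36 : pfC (piC [(nat_lit 33242365), (nat_lit 21715570), (nat_lit 14024239)] (nat_lit 18773175)) p12_21_0 (nat_lit 3) (nat_lit 36) (nat_lit 37) = true := by decide +kernel
def p12_21_0_37 : pfC (piC [(nat_lit 33242365), (nat_lit 21715570), (nat_lit 14024239)] (nat_lit 18773175)) p12_21_0 (nat_lit 3) (nat_lit 37) (nat_lit 38) = true := by decide +kernel
def p12_21_0_38 : pfC (piC [(nat_lit 33242365), (nat_lit 21715570), (nat_lit 14024239)] (nat_lit 18773175)) p12_21_0 (nat_lit 3) (nat_lit 38) (nat_lit 39) = true := by decide +kernel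
def p12_21_0_39 : pfC (piC [(nat_lit 33242365), (nat_lit 21715570), (nat_lit 14024239)] (nat_lit 18773175)) p12_21_0 (nat_lit 3) (nat_lit 39) (nat_lit 40) = true := by decide +kernel
def p12_21_0_40 : pfC (piC [(nat_lit 33242365), (nat_lit 21715570), (nat_lit 14024239)] (nat_lit 18773175)) p12_21_0 (nat_lit 3) (nat_lit 40) (nat_lit 41) = true := by decide +kernel
def p12_21_0_41 : pfC (piC [(nat_lit 33242365), (nat_lit 21715570), (nat_lit 14024239)] (nat_lit 18773175)) p12_21_0 (nat_lit 3) (nat_lit 41) (nat_lit 42) = true := by decide +kernel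
def p12_21_0_42 : pfC (piC [(nat_lit 33242365), (nat_lit 21715570), (nat_lit 14024239)] (nat_lit 18773175)) p12_21_0 (nat_lit 3) (nat_lit 42) (nat_lit 43) = true := by decide +kernel
def p12_21_0_43 : pfC (piC [(nat_lit 33242365), (nat_lit 21715570), (nat_lit 14024239)] (nat_lit 18773175)) p12_21_0 (nat_lit 3) (nat_lit 43) (nat_lit 44) = true := by decide +kernel
def p12_21_0_44 : pfC (piC [(nat_lit 33242365), (nat_lit 21715570), (nat_lit 14024239)] (nat_lit 18773175)) p12_21_0 (nat_lit 3) (nat_lit 44) (nat_lit 45) = true := by decide +kernel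
def p12_21_0_45 : pfC (piC [(nat_lit 33242365), (nat_lit 21715570), (nat_lit 14024239)] (nat_lit 18773175)) p12_21_0 (nat_lit 3) (nat_lit 45) (nat_lit 46) = true := by decide +kernel
def p12_21_0_46 : pfC (piC [(nat_lit 33242365), (nat_lit 21715570), (nat_lit 14024239)] (nat_lit 18773175)) p12_21_0 (nat_lit 3) (nat_lit 46) (nat_lit 47) = true := by decide +kernel
def p12_21_0_47 : pfC (piC [(nat_lit 33242365), (nat_lit 21715570), (nat_lit 14024239)] (nat_lit 18773175)) p12_21_0 (nat_lit 3) (nat_lit 47) (nat_lit 48) = true := by decide +kernel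
def p12_21_0_48 : pfC (piC [(nat_lit 33242365), (nat_lit 21715570), (nat_lit 14024239)] (nat_lit 18773175)) p12_21_0 (nat_lit 3) (nat_lit 48) (nat_lit 49) = true := by decide +kernel
def p12_21_0_49 : pfC (piC [(nat_lit 33242365), (nat_lit 21715570), (nat_lit 14024239)] (nat_lit 18773175)) p12_21_0 (nat_lit 3) (nat_lit 49) (nat_lit 50) = true := by decide +kernel
def p12_21_0_50 : pfC (piC [(nat_lit 33242365), (nat_lit 21715570), (nat_lit 14024239)] (nat_lit 18773175)) p12_21_0 (nat_lit 3) (nat_lit 50) (nat_lit 51) = true := by decide +kernel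
def p12_21_0_51 : pfC (piC [(nat_lit 33242365), (nat_lit 21715570), (nat_lit 14024239)] (nat_lit 18773175)) p12_21_0 (nat_lit 3) (nat_lit 51) (nat_lit 52) = true := by decide +kernel
def p12_21_0_52 : pfC (piC [(nat_lit 33242365), (nat_lit 21715570), (nat_lit 14024239)] (nat_lit 18773175)) p12_21_0 (nat_lit 3) (nat_lit 52) (nat_lit 53) = true := by decide +kernel
def p12_21_0_53 : pfC (piC [(nat_lit 33242365), (nat_lit 21715570), (nat_lit 14024239)] (nat_lit 18773175)) p12_21_0 (nat_lit 3) (nat_lit 53) (nat_lit 54) = true := by decide +kernel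
def p12_21_0_54 : pfC (piC [(nat_lit 33242365), (nat_lit 21715570), (nat_lit 14024239)] (nat_lit 18773175)) p12_21_0 (nat_lit 3) (nat_lit 54) (nat_lit 55) = true := by decide +kernel
def p12_21_0_55 : pfC (piC [(nat_lit 33242365), (nat_lit 21715570), (nat_lit 14024239)] (nat_lit 18773175)) p12_21_0 (nat_lit 3) (nat_lit 55) (nat_lit 56) = true := by decide +kernel
def p12_21_0_56 : pfC (piC [(nat_lit 33242365), (nat_lit 21715570), (nat_lit 14024239)] (nat_lit 18773175)) p12_21_0 (nat_lit 3) (nat_lit 56) (nat_lit 57) = true := by decide +kernel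
def p12_21_0_57 : pfC (piC [(nat_lit 33242365), (nat_lit 21715570), (nat_lit 14024239)] (nat_lit 18773175)) p12_21_0 (nat_lit 3) (nat_lit 57) (nat_lit 58) = true := by decide +kernel
def p12_21_0_58 : pfC (piC [(nat_lit 33242365), (nat_lit 21715570), (nat_lit 14024239)] (nat_lit 18773175)) p12_21_0 (nat_lit 3) (nat_lit 58) (nat_lit 59) = true := by decide +kernel
def p12_21_0_59 : pfC (piC [(nat_lit 33242365), (nat_lit 21715570), (nat_lit 14024239)] (nat_lit 18773175)) p12_21_0 (nat_lit 3) (nat_lit 59) (nat_lit 60) = true := by decide +kernel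
def p12_21_0_60 : pfC (piC [(nat_lit 33242365), (nat_lit 21715570), (nat_lit 14024239)] (nat_lit 18773175)) p12_21_0 (nat_lit 3) (nat_lit 60) (nat_lit 61) = true := by decide +kernel
def p12_21_0_61 : pfC (piC [(nat_lit 33242365), (nat_lit 21715570), (nat_lit 14024239)] (nat_lit 18773175)) p12_21_0 (nat_lit 3) (nat_lit 61) (nat_lit 62) = true := by decide +kernel
def p12_21_0_62 : pfC (piC [(nat_lit 33242365), (nat_lit 21715570), (nat_lit 14024239)] (nat_lit 18773175)) p12_21_0 (nat_lit 3) (nat_lit 62) (nat_lit 63) = true := by decide +kernel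
def p12_21_0_63 : pfC (piC [(nat_lit 33242365), (nat_lit 21715570), (nat_lit 14024239)] (nat_lit 18773175)) p12_21_0 (nat_lit 3) (nat_lit 63) (nat_lit 64) = true := by decide +kernel
def p12_21_0_64 : pfC (piC [(nat_lit 33242365), (nat_lit 21715570), (nat_lit 14024239)] (nat_lit 18773175)) p12_21_0 (nat_lit 3) (nat_lit 64) (nat_lit 65) = true := by decide +kernel
def p12_21_0_65 : pfC (piC [(nat_lit 33242365), (nat_lit 21715570), (nat_lit 14024239)] (nat_lit 18773175)) p12_21_0 (nat_lit 3) (nat_lit 65) (nat_lit 66) = true := by decide +kernel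
def p12_21_0_66 : pfC (piC [(nat_lit 33242365), (nat_lit 21715570), (nat_lit 14024239)] (nat_lit 18773175)) p12_21_0 (nat_lit 3) (nat_lit 66) (nat_lit 67) = true := by decide +kernel
def p12_21_0_67 : pfC (piC [(nat_lit 33242365), (nat_lit 21715570), (nat_lit 14024239)] (nat_lit 18773175)) p12_21_0 (nat_lit 3) (nat_lit 67) (nat_lit 68) = true := by decide +kernel
def p12_21_0_68 : pfC (piC [(nat_lit 33242365), (nat_lit 21715570), (nat_lit 14024239)] (nat_lit 18773175)) p12_21_0 (nat_lit 3) (nat_lit 68) (nat_lit 69) = true := by decide +kernel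
def p12_21_0_69 : pfC (piC [(nat_lit 33242365), (nat_lit 21715570), (nat_lit 14024239)] (nat_lit 18773175)) p12_21_0 (nat_lit 3) (nat_lit 69) (nat_lit 70) = true := by decide +kernel
def p12_21_0_70 : pfC (piC [(nat_lit 33242365), (nat_lit 21715570), (nat_lit 14024239)] (nat_lit 18773175)) p12_21_0 (nat_lit 3) (nat_lit 70) (nat_lit 71) = true := by decide +kernel
def p12_21_0_71 : pfC (piC [(nat_lit 33242365), (nat_lit 21715570), (nat_lit 14024239)] (nat_lit 18773175)) p12_21_0 (nat_lit 3) (nat_lit 71) (nat_lit 72) = true := by decide +kernel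
def p12_21_0_72 : pfC (piC [(nat_lit 33242365), (nat_lit 21715570), (nat_lit 14024239)] (nat_lit 18773175)) p12_21_0 (nat_lit 3) (nat_lit 72) (nat_lit 73) = true := by decide +kernel
def p12_21_0_73 : pfC (piC [(nat_lit 33242365), (nat_lit 21715570), (nat_lit 14024239)] (nat_lit 18773175)) p12_21_0 (nat_lit 3) (nat_lit 73) (nat_lit 74) = true := by decide +kernel
def p12_21_0_74 : pfC (piC [(nat_lit 33242365), (nat_lit 21715570), (nat_lit 14024239)] (nat_lit 18773175)) p12_21_0 (nat_lit 3) (nat_lit 74) (nat_lit 75) = true := by decide +kernel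
def p12_21_0_75 : pfC (piC [(nat_lit 33242365), (nat_lit 21715570), (nat_lit 14024239)] (nat_lit 18773175)) p12_21_0 (nat_lit 3) (nat_lit 75) (nat_lit 76) = true := by decide +kernel
def p12_21_0_76 : pfC (piC [(nat_lit 33242365), (nat_lit 21715570), (nat_lit 14024239)] (nat_lit 18773175)) p12_21_0 (nat_lit 3) (nat_lit 76) (nat_lit 77) = true := by decide +kernel
def p12_21_0_77 : pfC (piC [(nat_lit 33242365), (nat_lit 21715570), (nat_lit 14024239)] (nat_lit 18773175)) p12_21_0 (nat_lit 3) (nat_lit 77) (nat_lit 78) = true := by decide +kernel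
def p12_21_0_78 : pfC (piC [(nat_lit 33242365), (nat_lit 21715570), (nat_lit 14024239)] (nat_lit 18773175)) p12_21_0 (nat_lit 3) (nat_lit 78) (nat_lit 79) = true := by decide +kernel
def p12_21_0_79 : pfC (piC [(nat_lit 33242365), (nat_lit 21715570), (nat_lit 14024239)] (nat_lit 18773175)) p12_21_0 (nat_lit 3) (nat_lit 79) (nat_lit 80) = true := by decide +kernel
def p12_21_0_80 : pfC (piC [(nat_lit 33242365), (nat_lit 21715570), (nat_lit 14024239)] (nat_lit 18773175)) p12_21_0 (nat_lit 3) (nat_lit 80) (nat_lit 81) = true := by decide +kernel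
def p12_21_0_81 : pfC (piC [(nat_lit 33242365), (nat_lit 21715570), (nat_lit 14024239)] (nat_lit 18773175)) p12_21_0 (nat_lit 3) (nat_lit 81) (nat_lit 82) = true := by decide +kernel
def p12_21_0_82 : pfC (piC [(nat_lit 33242365), (nat_lit 21715570), (nat_lit 14024239)] (nat_lit 18773175)) p12_21_0 (nat_lit 3) (nat_lit 82) (nat_lit 83) = true := by decide +kernel
def p12_21_0_83 : pfC (piC [(nat_lit 33242365), (nat_lit 21715570), (nat_lit 14024239)] (nat_lit 18773175)) p12_21_0 (nat_lit 3) (nat_lit 83) (nat_lit 84) = true := by decide +kernel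
def p12_21_0_84 : pfC (piC [(nat_lit 33242365), (nat_lit 21715570), (nat_lit 14024239)] (nat_lit 18773175)) p12_21_0 (nat_lit 3) (nat_lit 84) (nat_lit 85) = true := by decide +kernel
def p12_21_0_85 : pfC (piC [(nat_lit 33242365), (nat_lit 21715570), (nat_lit 14024239)] (nat_lit 18773175)) p12_21_0 (nat_lit 3) (nat_lit 85) (nat_lit 86) = true := by decide +kernel
def p12_21_0_86 : pfC (piC [(nat_lit 33242365), (nat_lit 21715570), (nat_lit 14024239)] (nat_lit 18773175)) p12_21_0 (nat_lit 3) (nat_lit 86) (nat_lit 87) = true := by decide +kernel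
def p12_21_0_87 : pfC (piC [(nat_lit 33242365), (nat_lit 21715570), (nat_lit 14024239)] (nat_lit 18773175)) p12_21_0 (nat_lit 3) (nat_lit 87) (nat_lit 88) = true := by decide +kernel
def p12_21_0_88 : pfC (piC [(nat_lit 33242365), (nat_lit 21715570), (nat_lit 14024239)] (nat_lit 18773175)) p12_21_0 (nat_lit 3) (nat_lit 88) (nat_lit 89) = true := by decide +kernel
def p12_21_0_89 : pfC (piC [(nat_lit 33242365), (nat_lit 21715570), (nat_lit 14024239)] (nat_lit 18773175)) p12_21_0 (nat_lit 3) (nat_lit 89) (nat_lit 90) = true := by decide +kernel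
def p12_21_0_90 : pfC (piC [(nat_lit 33242365), (nat_lit 21715570), (nat_lit 14024239)] (nat_lit 18773175)) p12_21_0 (nat_lit 3) (nat_lit 90) (nat_lit 91) = true := by decide +kernel
def p12_21_0_91 : pfC (piC [(nat_lit 33242365), (nat_lit 21715570), (nat_lit 14024239)] (nat_lit 18773175)) p12_21_0 (nat_lit 3) (nat_lit 91) (nat_lit 92) = true := by decide +kernel
def p12_21_0_92 : pfC (piC [(nat_lit 33242365), (nat_lit 21715570), (nat_lit 14024239)] (nat_lit 18773175)) p12_21_0 (nat_lit 3) (nat_lit 92) (nat_lit 93) = true := by decide +kernel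
def p12_21_0_93 : pfC (piC [(nat_lit 33242365), (nat_lit 21715570), (nat_lit 14024239)] (nat_lit 18773175)) p12_21_0 (nat_lit 3) (nat_lit 93) (nat_lit 94) = true := by decide +kernel
def p12_21_0_94 : pfC (piC [(nat_lit 33242365), (nat_lit 21715570), (nat_lit 14024239)] (nat_lit 18773175)) p12_21_0 (nat_lit 3) (nat_lit 94) (nat_lit 95) = true := by decide +kernel
def p12_21_0_95 : pfC (piC [(nat_lit 33242365), (nat_lit 21715570), (nat_lit 14024239)] (nat_lit 18773175)) p12_21_0 (nat_lit 3) (nat_lit 95) (nat_lit 96) = true := by decide +kernel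
def p12_21_0_96 : pfC (piC [(nat_lit 33242365), (nat_lit 21715570), (nat_lit 14024239)] (nat_lit 18773175)) p12_21_0 (nat_lit 3) (nat_lit 96) (nat_lit 97) = true := by decide +kernel
def p12_21_0_97 : pfC (piC [(nat_lit 33242365), (nat_lit 21715570), (nat_lit 14024239)] (nat_lit 18773175)) p12_21_0 (nat_lit 3) (nat_lit 97) (nat_lit 98) = true := by decide +kernel
def p12_21_0_98 : pfC (piC [(nat_lit 33242365), (nat_lit 21715570), (nat_lit 14024239)] (nat_lit 18773175)) p12_21_0 (nat_lit 3) (nat_lit 98) (nat_lit 99) = true := by decide +kernel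
def p12_21_0_99 : pfC (piC [(nat_lit 33242365), (nat_lit 21715570), (nat_lit 14024239)] (nat_lit 18773175)) p12_21_0 (nat_lit 3) (nat_lit 99) (nat_lit 100) = true := by decide +kernel
def p12_21_0_100 : pfC (piC [(nat_lit 33242365), (nat_lit 21715570), (nat_lit 14024239)] (nat_lit 18773175)) p12_21_0 (nat_lit 3) (nat_lit 100) (nat_lit 101) = true := by decide +kernel
def p12_21_0_101 : pfC (piC [(nat_lit 33242365), (nat_lit 21715570), (nat_lit 14024239)] (nat_lit 18773175)) p12_21_0 (nat_lit 3) (nat_lit 101) (nat_lit 102) = true := by decide +kernel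
def p12_21_0_102 : pfC (piC [(nat_lit 33242365), (nat_lit 21715570), (nat_lit 14024239)] (nat_lit 18773175)) p12_21_0 (nat_lit 3) (nat_lit 102) (nat_lit 103) = true := by decide +kernel
def p12_21_0_103 : pfC (piC [(nat_lit 33242365), (nat_lit 21715570), (nat_lit 14024239)] (nat_lit 18773175)) p12_21_0 (nat_lit 3) (nat_lit 103) (nat_lit 104) = true := by decide +kernel
def p12_21_0_104 : pfC (piC [(nat_lit 33242365), (nat_lit 21715570), (nat_lit 14024239)] (nat_lit 18773175)) p12_21_0 (nat_lit 3) (nat_lit 104) (nat_lit 105) = true := by decide +kernel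
def p12_21_0_105 : pfC (piC [(nat_lit 33242365), (nat_lit 21715570), (nat_lit 14024239)] (nat_lit 18773175)) p12_21_0 (nat_lit 3) (nat_lit 105) (nat_lit 106) = true := by decide +kernel
def p12_21_0_106 : pfC (piC [(nat_lit 33242365), (nat_lit 21715570), (nat_lit 14024239)] (nat_lit 18773175)) p12_21_0 (nat_lit 3) (nat_lit 106) (nat_lit 107) = true := by decide +kernel
def p12_21_0_107 : pfC (piC [(nat_lit 33242365), (nat_lit 21715570), (nat_lit 14024239)] (nat_lit 18773175)) p12_21_0 (nat_lit 3) (nat_lit 107) (nat_lit 108) = true := by decide +kernel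
def p12_21_0_108 : pfC (piC [(nat_lit 33242365), (nat_lit 21715570), (nat_lit 14024239)] (nat_lit 18773175)) p12_21_0 (nat_lit 3) (nat_lit 108) (nat_lit 109) = true := by decide +kernel
def p12_21_0_109 : pfC (piC [(nat_lit 33242365), (nat_lit 21715570), (nat_lit 14024239)] (nat_lit 18773175)) p12_21_0 (nat_lit 3) (nat_lit 109) (nat_lit 110) = true := by decide +kernel
def p12_21_0_110 : pfC (piC [(nat_lit 33242365), (nat_lit 21715570), (nat_lit 14024239)] (nat_lit 18773175)) p12_21_0 (nat_lit 3) (nat_lit 110) (nat_lit 111) = true := by decide +kernel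
def p12_21_0_111 : pfC (piC [(nat_lit 33242365), (nat_lit 21715570), (nat_lit 14024239)] (nat_lit 18773175)) p12_21_0 (nat_lit 3) (nat_lit 111) (nat_lit 112) = true := by decide +kernel
def p12_21_0_112 : pfC (piC [(nat_lit 33242365), (nat_lit 21715570), (nat_lit 14024239)] (nat_lit 18773175)) p12_21_0 (nat_lit 3) (nat_lit 112) (nat_lit 113) = true := by decide +kernel
def p12_21_0_113 : pfC (piC [(nat_lit 33242365), (nat_lit 21715570), (nat_lit 14024239)] (nat_lit 18773175)) p12_21_0 (nat_lit 3) (nat_lit 113) (nat_lit 114) = true := by decide +kernel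
def p12_21_0_114 : pfC (piC [(nat_lit 33242365), (nat_lit 21715570), (nat_lit 14024239)] (nat_lit 18773175)) p12_21_0 (nat_lit 3) (nat_lit 114) (nat_lit 115) = true := by decide +kernel
def p12_21_0_115 : pfC (piC [(nat_lit 33242365), (nat_lit 21715570), (nat_lit 14024239)] (nat_lit 18773175)) p12_21_0 (nat_lit 3) (nat_lit 115) (nat_lit 116) = true := by decide +kernel
def p12_21_0_116 : pfC (piC [(nat_lit 33242365), (nat_lit 21715570), (nat_lit 14024239)] (nat_lit 18773175)) p12_21_0 (nat_lit 3) (nat_lit 116) (nat_lit 117) = true := by decide +kernel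
def p12_21_0_117 : pfC (piC [(nat_lit 33242365), (nat_lit 21715570), (nat_lit 14024239)] (nat_lit 18773175)) p12_21_0 (nat_lit 3) (nat_lit 117) (nat_lit 118) = true := by decide +kernel
def p12_21_0_118 : pfC (piC [(nat_lit 33242365), (nat_lit 21715570), (nat_lit 14024239)] (nat_lit 18773175)) p12_21_0 (nat_lit 3) (nat_lit 118) (nat_lit 119) = true := by decide +kernel
def p12_21_0_119 : pfC (piC [(nat_lit 33242365), (nat_lit 21715570), (nat_lit 14024239)] (nat_lit 18773175)) p12_21_0 (nat_lit 3) (nat_lit 119) (nat_lit 120) = true := by decide +kernel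
def p12_21_0_120 : pfC (piC [(nat_lit 33242365), (nat_lit 21715570), (nat_lit 14024239)] (nat_lit 18773175)) p12_21_0 (nat_lit 3) (nat_lit 120) (nat_lit 121) = true := by decide +kernel
def p12_21_0_121 : pfC (piC [(nat_lit 33242365), (nat_lit 21715570), (nat_lit 14024239)] (nat_lit 18773175)) p12_21_0 (nat_lit 3) (nat_lit 121) (nat_lit 122) = true := by decide +kernel
def p12_21_0_122 : pfC (piC [(nat_lit 33242365), (nat_lit 21715570), (nat_lit 14024239)] (nat_lit 18773175)) p12_21_0 (nat_lit 3) (nat_lit 122) (nat_lit 123) = true := by decide +kernel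
def p12_21_0_123 : pfC (piC [(nat_lit 33242365), (nat_lit 21715570), (nat_lit 14024239)] (nat_lit 18773175)) p12_21_0 (nat_lit 3) (nat_lit 123) (nat_lit 124) = true := by decide +kernel
def p12_21_0_124 : pfC (piC [(nat_lit 33242365), (nat_lit 21715570), (nat_lit 14024239)] (nat_lit 18773175)) p12_21_0 (nat_lit 3) (nat_lit 124) (nat_lit 125) = true := by decide +kernel
def p12_21_0_125 : pfC (piC [(nat_lit 33242365), (nat_lit 21715570), (nat_lit 14024239)] (nat_lit 18773175)) p12_21_0 (nat_lit 3) (nat_lit 125) (nat_lit 126) = true := by decide +kernel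
def p12_21_0_126 : pfC (piC [(nat_lit 33242365), (nat_lit 21715570), (nat_lit 14024239)] (nat_lit 18773175)) p12_21_0 (nat_lit 3) (nat_lit 126) (nat_lit 127) = true := by decide +kernel
def p12_21_0_127 : pfC (piC [(nat_lit 33242365), (nat_lit 21715570), (nat_lit 14024239)] (nat_lit 18773175)) p12_21_0 (nat_lit 3) (nat_lit 127) (nat_lit 128) = true := by decide +kernel
def p12_21_0_128 : pfC (piC [(nat_lit 33242365), (nat_lit 21715570), (nat_lit 14024239)] (nat_lit 18773175)) p12_21_0 (nat_lit 3) (nat_lit 128) (nat_lit 129) = true := by decide +kernel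
def p12_21_0_129 : pfC (piC [(nat_lit 33242365), (nat_lit 21715570), (nat_lit 14024239)] (nat_lit 18773175)) p12_21_0 (nat_lit 3) (nat_lit 129) (nat_lit 130) = true := by decide +kernel
def p12_21_0_130 : pfC (piC [(nat_lit 33242365), (nat_lit 21715570), (nat_lit 14024239)] (nat_lit 18773175)) p12_21_0 (nat_lit 3) (nat_lit 130) (nat_lit 131) = true := by decide +kernel
def p12_21_0_131 : pfC (piC [(nat_lit 33242365), (nat_lit 21715570), (nat_lit 14024239)] (nat_lit 18773175)) p12_21_0 (nat_lit 3) (nat_lit 131) (nat_lit 132) = true := by decide +kernel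
def p12_21_0_132 : pfC (piC [(nat_lit 33242365), (nat_lit 21715570), (nat_lit 14024239)] (nat_lit 18773175)) p12_21_0 (nat_lit 3) (nat_lit 132) (nat_lit 133) = true := by decide +kernel
def p12_21_0_133 : pfC (piC [(nat_lit 33242365), (nat_lit 21715570), (nat_lit 14024239)] (nat_lit 18773175)) p12_21_0 (nat_lit 3) (nat_lit 133) (nat_lit 134) = true := by decide +kernel
def p12_21_0_134 : pfC (piC [(nat_lit 33242365), (nat_lit 21715570), (nat_lit 14024239)] (nat_lit 18773175)) p12_21_0 (nat_lit 3) (nat_lit 134) (nat_lit 135) = true := by decide +kernel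
def p12_21_0_135 : pfC (piC [(nat_lit 33242365), (nat_lit 21715570), (nat_lit 14024239)] (nat_lit 18773175)) p12_21_0 (nat_lit 3) (nat_lit 135) (nat_lit 136) = true := by decide +kernel
def p12_21_0_136 : pfC (piC [(nat_lit 33242365), (nat_lit 21715570), (nat_lit 14024239)] (nat_lit 18773175)) p12_21_0 (nat_lit 3) (nat_lit 136) (nat_lit 137) = true := by decide +kernel
def p12_21_0_137 : pfC (piC [(nat_lit 33242365), (nat_lit 21715570), (nat_lit 14024239)] (nat_lit 18773175)) p12_21_0 (nat_lit 3) (nat_lit 137) (nat_lit 138) = true := by decide +kernel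
def p12_21_0_138 : pfC (piC [(nat_lit 33242365), (nat_lit 21715570), (nat_lit 14024239)] (nat_lit 18773175)) p12_21_0 (nat_lit 3) (nat_lit 138) (nat_lit 139) = true := by decide +kernel
def p12_21_0_139 : pfC (piC [(nat_lit 33242365), (nat_lit 21715570), (nat_lit 14024239)] (nat_lit 18773175)) p12_21_0 (nat_lit 3) (nat_lit 139) (nat_lit 140) = true := by decide +kernel
def p12_21_0_140 : pfC (piC [(nat_lit 33242365), (nat_lit 21715570), (nat_lit 14024239)] (nat_lit 18773175)) p12_21_0 (nat_lit 3) (nat_lit 140) (nat_lit 141) = true := by decide +kernel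
def p12_21_0_141 : pfC (piC [(nat_lit 33242365), (nat_lit 21715570), (nat_lit 14024239)] (nat_lit 18773175)) p12_21_0 (nat_lit 3) (nat_lit 141) (nat_lit 142) = true := by decide +kernel
def p12_21_0_142 : pfC (piC [(nat_lit 33242365), (nat_lit 21715570), (nat_lit 14024239)] (nat_lit 18773175)) p12_21_0 (nat_lit 3) (nat_lit 142) (nat_lit 143) = true := by decide +kernel
def p12_21_0_143 : pfC (piC [(nat_lit 33242365), (nat_lit 21715570), (nat_lit 14024239)] (nat_lit 18773175)) p12_21_0 (nat_lit 3) (nat_lit 143) (nat_lit 144) = true := by decide +kernel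
def p12_21_0_144 : pfC (piC [(nat_lit 33242365), (nat_lit 21715570), (nat_lit 14024239)] (nat_lit 18773175)) p12_21_0 (nat_lit 3) (nat_lit 144) (nat_lit 145) = true := by decide +kernel
def p12_21_0_145 : pfC (piC [(nat_lit 33242365), (nat_lit 21715570), (nat_lit 14024239)] (nat_lit 18773175)) p12_21_0 (nat_lit 3) (nat_lit 145) (nat_lit 146) = true := by decide +kernel
def p12_21_0_146 : pfC (piC [(nat_lit 33242365), (nat_lit 21715570), (nat_lit 14024239)] (nat_lit 18773175)) p12_21_0 (nat_lit 3) (nat_lit 146) (nat_lit 147) = true := by decide +kernel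
def p12_21_0_147 : pfC (piC [(nat_lit 33242365), (nat_lit 21715570), (nat_lit 14024239)] (nat_lit 18773175)) p12_21_0 (nat_lit 3) (nat_lit 147) (nat_lit 148) = true := by decide +kernel
def p12_21_0_148 : pfC (piC [(nat_lit 33242365), (nat_lit 21715570), (nat_lit 14024239)] (nat_lit 18773175)) p12_21_0 (nat_lit 3) (nat_lit 148) (nat_lit 149) = true := by decide +kernel
def p12_21_0_149 : pfC (piC [(nat_lit 33242365), (nat_lit 21715570), (nat_lit 14024239)] (nat_lit 18773175)) p12_21_0 (nat_lit 3) (nat_lit 149) (nat_lit 150) = true := by decide +kernel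
def p12_21_0_150 : pfC (piC [(nat_lit 33242365), (nat_lit 21715570), (nat_lit 14024239)] (nat_lit 18773175)) p12_21_0 (nat_lit 3) (nat_lit 150) (nat_lit 151) = true := by decide +kernel
def p12_21_0_151 : pfC (piC [(nat_lit 33242365), (nat_lit 21715570), (nat_lit 14024239)] (nat_lit 18773175)) p12_21_0 (nat_lit 3) (nat_lit 151) (nat_lit 152) = true := by decide +kernel
def p12_21_0_152 : pfC (piC [(nat_lit 33242365), (nat_lit 21715570), (nat_lit 14024239)] (nat_lit 18773175)) p12_21_0 (nat_lit 3) (nat_lit 152) (nat_lit 153) = true := by decide +kernel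
def p12_21_0_153 : pfC (piC [(nat_lit 33242365), (nat_lit 21715570), (nat_lit 14024239)] (nat_lit 18773175)) p12_21_0 (nat_lit 3) (nat_lit 153) (nat_lit 154) = true := by decide +kernel
def p12_21_0_154 : pfC (piC [(nat_lit 33242365), (nat_lit 21715570), (nat_lit 14024239)] (nat_lit 18773175)) p12_21_0 (nat_lit 3) (nat_lit 154) (nat_lit 155) = true := by decide +kernel
def p12_21_0_155 : pfC (piC [(nat_lit 33242365), (nat_lit 21715570), (nat_lit 14024239)] (nat_lit 18773175)) p12_21_0 (nat_lit 3) (nat_lit 155) (nat_lit 156) = true := by decide +kernel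
def p12_21_0_156 : pfC (piC [(nat_lit 33242365), (nat_lit 21715570), (nat_lit 14024239)] (nat_lit 18773175)) p12_21_0 (nat_lit 3) (nat_lit 156) (nat_lit 157) = true := by decide +kernel
def p12_21_0_157 : pfC (piC [(nat_lit 33242365), (nat_lit 21715570), (nat_lit 14024239)] (nat_lit 18773175)) p12_21_0 (nat_lit 3) (nat_lit 157) (nat_lit 158) = true := by decide +kernel
def p12_21_0_158 : pfC (piC [(nat_lit 33242365), (nat_lit 21715570), (nat_lit 14024239)] (nat_lit 18773175)) p12_21_0 (nat_lit 3) (nat_lit 158) (nat_lit 159) = true := by decide +kernel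
def p12_21_0_159 : pfC (piC [(nat_lit 33242365), (nat_lit 21715570), (nat_lit 14024239)] (nat_lit 18773175)) p12_21_0 (nat_lit 3) (nat_lit 159) (nat_lit 160) = true := by decide +kernel
def p12_21_0_160 : pfC (piC [(nat_lit 33242365), (nat_lit 21715570), (nat_lit 14024239)] (nat_lit 18773175)) p12_21_0 (nat_lit 3) (nat_lit 160) (nat_lit 161) = true := by decide +kernel
def p12_21_0_161 : pfC (piC [(nat_lit 33242365), (nat_lit 21715570), (nat_lit 14024239)] (nat_lit 18773175)) p12_21_0 (nat_lit 3) (nat_lit 161) (nat_lit 162) = true := by decide +kernel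
def p12_21_0_162 : pfC (piC [(nat_lit 33242365), (nat_lit 21715570), (nat_lit 14024239)] (nat_lit 18773175)) p12_21_0 (nat_lit 3) (nat_lit 162) (nat_lit 163) = true := by decide +kernel
def p12_21_0_163 : pfC (piC [(nat_lit 33242365), (nat_lit 21715570), (nat_lit 14024239)] (nat_lit 18773175)) p12_21_0 (nat_lit 3) (nat_lit 163) (nat_lit 164) = true := by decide +kernel
def p12_21_0_164 : pfC (piC [(nat_lit 33242365), (nat_lit 21715570), (nat_lit 14024239)] (nat_lit 18773175)) p12_21_0 (nat_lit 3) (nat_lit 164) (nat_lit 165) = true := by decide +kernel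
def p12_21_0_165 : pfC (piC [(nat_lit 33242365), (nat_lit 21715570), (nat_lit 14024239)] (nat_lit 18773175)) p12_21_0 (nat_lit 3) (nat_lit 165) (nat_lit 166) = true := by decide +kernel
def p12_21_0_166 : pfC (piC [(nat_lit 33242365), (nat_lit 21715570), (nat_lit 14024239)] (nat_lit 18773175)) p12_21_0 (nat_lit 3) (nat_lit 166) (nat_lit 167) = true := by decide +kernel
def p12_21_0_167 : pfC (piC [(nat_lit 33242365), (nat_lit 21715570), (nat_lit 14024239)] (nat_lit 18773175)) p12_21_0 (nat_lit 3) (nat_lit 167) (nat_lit 168) = true := by decide +kernel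
def p12_21_0_168 : pfC (piC [(nat_lit 33242365), (nat_lit 21715570), (nat_lit 14024239)] (nat_lit 18773175)) p12_21_0 (nat_lit 3) (nat_lit 168) (nat_lit 169) = true := by decide +kernel
def p12_21_0_169 : pfC (piC [(nat_lit 33242365), (nat_lit 21715570), (nat_lit 14024239)] (nat_lit 18773175)) p12_21_0 (nat_lit 3) (nat_lit 169) (nat_lit 170) = true := by decide +kernel
def p12_21_0_170 : pfC (piC [(nat_lit 33242365), (nat_lit 21715570), (nat_lit 14024239)] (nat_lit 18773175)) p12_21_0 (nat_lit 3) (nat_lit 170) (nat_lit 171) = true := by decide +kernel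
def p12_21_0_171 : pfC (piC [(nat_lit 33242365), (nat_lit 21715570), (nat_lit 14024239)] (nat_lit 18773175)) p12_21_0 (nat_lit 3) (nat_lit 171) (nat_lit 172) = true := by decide +kernel
def p12_21_0_172 : pfC (piC [(nat_lit 33242365), (nat_lit 21715570), (nat_lit 14024239)] (nat_lit 18773175)) p12_21_0 (nat_lit 3) (nat_lit 172) (nat_lit 173) = true := by decide +kernel
def p12_21_0_173 : pfC (piC [(nat_lit 33242365), (nat_lit 21715570), (nat_lit 14024239)] (nat_lit 18773175)) p12_21_0 (nat_lit 3) (nat_lit 173) (nat_lit 174) = true := by decide +kernel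
def p12_21_0_174 : pfC (piC [(nat_lit 33242365), (nat_lit 21715570), (nat_lit 14024239)] (nat_lit 18773175)) p12_21_0 (nat_lit 3) (nat_lit 174) (nat_lit 175) = true := by decide +kernel
def p12_21_0_175 : pfC (piC [(nat_lit 33242365), (nat_lit 21715570), (nat_lit 14024239)] (nat_lit 18773175)) p12_21_0 (nat_lit 3) (nat_lit 175) (nat_lit 176) = true := by decide +kernel
def p12_21_0_176 : pfC (piC [(nat_lit 33242365), (nat_lit 21715570), (nat_lit 14024239)] (nat_lit 18773175)) p12_21_0 (nat_lit 3) (nat_lit 176) (nat_lit 177) = true := by decide +kernel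
def p12_21_0_177 : pfC (piC [(nat_lit 33242365), (nat_lit 21715570), (nat_lit 14024239)] (nat_lit 18773175)) p12_21_0 (nat_lit 3) (nat_lit 177) (nat_lit 178) = true := by decide +kernel
def p12_21_0_178 : pfC (piC [(nat_lit 33242365), (nat_lit 21715570), (nat_lit 14024239)] (nat_lit 18773175)) p12_21_0 (nat_lit 3) (nat_lit 178) (nat_lit 179) = true := by decide +kernel
def p12_21_0_179 : pfC (piC [(nat_lit 33242365), (nat_lit 21715570), (nat_lit 14024239)] (nat_lit 18773175)) p12_21_0 (nat_lit 3) (nat_lit 179) (nat_lit 180) = true := by decide +kernel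
def p12_21_0_180 : pfC (piC [(nat_lit 33242365), (nat_lit 21715570), (nat_lit 14024239)] (nat_lit 18773175)) p12_21_0 (nat_lit 3) (nat_lit 180) (nat_lit 181) = true := by decide +kernel
def p12_21_0_181 : pfC (piC [(nat_lit 33242365), (nat_lit 21715570), (nat_lit 14024239)] (nat_lit 18773175)) p12_21_0 (nat_lit 3) (nat_lit 181) (nat_lit 182) = true := by decide +kernel
def p12_21_0_182 : pfC (piC [(nat_lit 33242365), (nat_lit 21715570), (nat_lit 14024239)] (nat_lit 18773175)) p12_21_0 (nat_lit 3) (nat_lit 182) (nat_lit 183) = true := by decide +kernel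
def p12_21_0_183 : pfC (piC [(nat_lit 33242365), (nat_lit 21715570), (nat_lit 14024239)] (nat_lit 18773175)) p12_21_0 (nat_lit 3) (nat_lit 183) (nat_lit 184) = true := by decide +kernel
def p12_21_0_184 : pfC (piC [(nat_lit 33242365), (nat_lit 21715570), (nat_lit 14024239)] (nat_lit 18773175)) p12_21_0 (nat_lit 3) (nat_lit 184) (nat_lit 185) = true := by decide +kernel
def p12_21_0_185 : pfC (piC [(nat_lit 33242365), (nat_lit 21715570), (nat_lit 14024239)] (nat_lit 18773175)) p12_21_0 (nat_lit 3) (nat_lit 185) (nat_lit 186) = true := by decide +kernel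
def p12_21_0_186 : pfC (piC [(nat_lit 33242365), (nat_lit 21715570), (nat_lit 14024239)] (nat_lit 18773175)) p12_21_0 (nat_lit 3) (nat_lit 186) (nat_lit 187) = true := by decide +kernel
def p12_21_0_187 : pfC (piC [(nat_lit 33242365), (nat_lit 21715570), (nat_lit 14024239)] (nat_lit 18773175)) p12_21_0 (nat_lit 3) (nat_lit 187) (nat_lit 188) = true := by decide +kernel
def p12_21_0_188 : pfC (piC [(nat_lit 33242365), (nat_lit 21715570), (nat_lit 14024239)] (nat_lit 18773175)) p12_21_0 (nat_lit 3) (nat_lit 188) (nat_lit 189) = true := by decide +kernel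
def p12_21_0_189 : pfC (piC [(nat_lit 33242365), (nat_lit 21715570), (nat_lit 14024239)] (nat_lit 18773175)) p12_21_0 (nat_lit 3) (nat_lit 189) (nat_lit 190) = true := by decide +kernel
def p12_21_0_190 : pfC (piC [(nat_lit 33242365), (nat_lit 21715570), (nat_lit 14024239)] (nat_lit 18773175)) p12_21_0 (nat_lit 3) (nat_lit 190) (nat_lit 191) = true := by decide +kernel
def p12_21_0_191 : pfC (piC [(nat_lit 33242365), (nat_lit 21715570), (nat_lit 14024239)] (nat_lit 18773175)) p12_21_0 (nat_lit 3) (nat_lit 191) (nat_lit 192) = true := by decide +kernel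
def p12_21_0_192 : pfC (piC [(nat_lit 33242365), (nat_lit 21715570), (nat_lit 14024239)] (nat_lit 18773175)) p12_21_0 (nat_lit 3) (nat_lit 192) (nat_lit 193) = true := by decide +kernel
def p12_21_0_193 : pfC (piC [(nat_lit 33242365), (nat_lit 21715570), (nat_lit 14024239)] (nat_lit 18773175)) p12_21_0 (nat_lit 3) (nat_lit 193) (nat_lit 194) = true := by decide +kernel
def p12_21_0_194 : pfC (piC [(nat_lit 33242365), (nat_lit 21715570), (nat_lit 14024239)] (nat_lit 18773175)) p12_21_0 (nat_lit 3) (nat_lit 194) (nat_lit 195) = true := by decide +kernel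
def p12_21_0_195 : pfC (piC [(nat_lit 33242365), (nat_lit 21715570), (nat_lit 14024239)] (nat_lit 18773175)) p12_21_0 (nat_lit 3) (nat_lit 195) (nat_lit 196) = true := by decide +kernel
def p12_21_0_196 : pfC (piC [(nat_lit 33242365), (nat_lit 21715570), (nat_lit 14024239)] (nat_lit 18773175)) p12_21_0 (nat_lit 3) (nat_lit 196) (nat_lit 197) = true := by decide +kernel
def p12_21_0_197 : pfC (piC [(nat_lit 33242365), (nat_lit 21715570), (nat_lit 14024239)] (nat_lit 18773175)) p12_21_0 (nat_lit 3) (nat_lit 197) (nat_lit 198) = true := by decide +kernel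
def p12_21_0_198 : pfC (piC [(nat_lit 33242365), (nat_lit 21715570), (nat_lit 14024239)] (nat_lit 18773175)) p12_21_0 (nat_lit 3) (nat_lit 198) (nat_lit 199) = true := by decide +kernel
def p12_21_0_199 : pfC (piC [(nat_lit 33242365), (nat_lit 21715570), (nat_lit 14024239)] (nat_lit 18773175)) p12_21_0 (nat_lit 3) (nat_lit 199) (nat_lit 200) = true := by decide +kernel
def p12_21_0_200 : pfC (piC [(nat_lit 33242365), (nat_lit 21715570), (nat_lit 14024239)] (nat_lit 18773175)) p12_21_0 (nat_lit 3) (nat_lit 200) (nat_lit 201) = true := by decide +kernel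
def p12_21_0_201 : pfC (piC [(nat_lit 33242365), (nat_lit 21715570), (nat_lit 14024239)] (nat_lit 18773175)) p12_21_0 (nat_lit 3) (nat_lit 201) (nat_lit 202) = true := by decide +kernel
def p12_21_0_202 : pfC (piC [(nat_lit 33242365), (nat_lit 21715570), (nat_lit 14024239)] (nat_lit 18773175)) p12_21_0 (nat_lit 3) (nat_lit 202) (nat_lit 203) = true := by decide +kernel
def p12_21_0_203 : pfC (piC [(nat_lit 33242365), (nat_lit 21715570), (nat_lit 14024239)] (nat_lit 18773175)) p12_21_0 (nat_lit 3) (nat_lit 203) (nat_lit 204) = true := by decide +kernel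
def p12_21_0_204 : pfC (piC [(nat_lit 33242365), (nat_lit 21715570), (nat_lit 14024239)] (nat_lit 18773175)) p12_21_0 (nat_lit 3) (nat_lit 204) (nat_lit 205) = true := by decide +kernel
def p12_21_0_205 : pfC (piC [(nat_lit 33242365), (nat_lit 21715570), (nat_lit 14024239)] (nat_lit 18773175)) p12_21_0 (nat_lit 3) (nat_lit 205) (nat_lit 206) = true := by decide +kernel
def p12_21_0_206 : pfC (piC [(nat_lit 33242365), (nat_lit 21715570), (nat_lit 14024239)] (nat_lit 18773175)) p12_21_0 (nat_lit 3) (nat_lit 206) (nat_lit 207) = true := by decide +kernel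
def p12_21_0_207 : pfC (piC [(nat_lit 33242365), (nat_lit 21715570), (nat_lit 14024239)] (nat_lit 18773175)) p12_21_0 (nat_lit 3) (nat_lit 207) (nat_lit 208) = true := by decide +kernel
def p12_21_0_208 : pfC (piC [(nat_lit 33242365), (nat_lit 21715570), (nat_lit 14024239)] (nat_lit 18773175)) p12_21_0 (nat_lit 3) (nat_lit 208) (nat_lit 209) = true := by decide +kernel
def p12_21_0_209 : pfC (piC [(nat_lit 33242365), (nat_lit 21715570), (nat_lit 14024239)] (nat_lit 18773175)) p12_21_0 (nat_lit 3) (nat_lit 209) (nat_lit 210) = true := by decide +kernel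
def p12_21_0_210 : pfC (piC [(nat_lit 33242365), (nat_lit 21715570), (nat_lit 14024239)] (nat_lit 18773175)) p12_21_0 (nat_lit 3) (nat_lit 210) (nat_lit 211) = true := by decide +kernel
def p12_21_0_211 : pfC (piC [(nat_lit 33242365), (nat_lit 21715570), (nat_lit 14024239)] (nat_lit 18773175)) p12_21_0 (nat_lit 3) (nat_lit 211) (nat_lit 212) = true := by decide +kernel
def p12_21_0_212 : pfC (piC [(nat_lit 33242365), (nat_lit 21715570), (nat_lit 14024239)] (nat_lit 18773175)) p12_21_0 (nat_lit 3) (nat_lit 212) (nat_lit 213) = true := by decide +kernel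
def p12_21_0_213 : pfC (piC [(nat_lit 33242365), (nat_lit 21715570), (nat_lit 14024239)] (nat_lit 18773175)) p12_21_0 (nat_lit 3) (nat_lit 213) (nat_lit 214) = true := by decide +kernel
def p12_21_0_214 : pfC (piC [(nat_lit 33242365), (nat_lit 21715570), (nat_lit 14024239)] (nat_lit 18773175)) p12_21_0 (nat_lit 3) (nat_lit 214) (nat_lit 215) = true := by decide +kernel
def p12_21_0_215 : pfC (piC [(nat_lit 33242365), (nat_lit 21715570), (nat_lit 14024239)] (nat_lit 18773175)) p12_21_0 (nat_lit 3) (nat_lit 215) (nat_lit 216) = true := by decide +kernel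
def p12_21_0_216 : pfC (piC [(nat_lit 33242365), (nat_lit 21715570), (nat_lit 14024239)] (nat_lit 18773175)) p12_21_0 (nat_lit 3) (nat_lit 216) (nat_lit 217) = true := by decide +kernel
def p12_21_0_217 : pfC (piC [(nat_lit 33242365), (nat_lit 21715570), (nat_lit 14024239)] (nat_lit 18773175)) p12_21_0 (nat_lit 3) (nat_lit 217) (nat_lit 218) = true := by decide +kernel
def p12_21_0_218 : pfC (piC [(nat_lit 33242365), (nat_lit 21715570), (nat_lit 14024239)] (nat_lit 18773175)) p12_21_0 (nat_lit 3) (nat_lit 218) (nat_lit 219) = true := by decide +kernel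
def p12_21_0_219 : pfC (piC [(nat_lit 33242365), (nat_lit 21715570), (nat_lit 14024239)] (nat_lit 18773175)) p12_21_0 (nat_lit 3) (nat_lit 219) (nat_lit 220) = true := by decide +kernel
def p12_21_0_220 : pfC (piC [(nat_lit 33242365), (nat_lit 21715570), (nat_lit 14024239)] (nat_lit 18773175)) p12_21_0 (nat_lit 3) (nat_lit 220) (nat_lit 221) = true := by decide +kernel
def p12_21_0_221 : pfC (piC [(nat_lit 33242365), (nat_lit 21715570), (nat_lit 14024239)] (nat_lit 18773175)) p12_21_0 (nat_lit 3) (nat_lit 221) (nat_lit 222) = true := by decide +kernel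
def p12_21_0_222 : pfC (piC [(nat_lit 33242365), (nat_lit 21715570), (nat_lit 14024239)] (nat_lit 18773175)) p12_21_0 (nat_lit 3) (nat_lit 222) (nat_lit 223) = true := by decide +kernel
def p12_21_0_223 : pfC (piC [(nat_lit 33242365), (nat_lit 21715570), (nat_lit 14024239)] (nat_lit 18773175)) p12_21_0 (nat_lit 3) (nat_lit 223) (nat_lit 224) = true := by decide +kernel
def p12_21_0_224 : pfC (piC [(nat_lit 33242365), (nat_lit 21715570), (nat_lit 14024239)] (nat_lit 18773175)) p12_21_0 (nat_lit 3) (nat_lit 224) (nat_lit 225) = true := by decide +kernel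
def p12_21_0_225 : pfC (piC [(nat_lit 33242365), (nat_lit 21715570), (nat_lit 14024239)] (nat_lit 18773175)) p12_21_0 (nat_lit 3) (nat_lit 225) (nat_lit 226) = true := by decide +kernel
def p12_21_0_226 : pfC (piC [(nat_lit 33242365), (nat_lit 21715570), (nat_lit 14024239)] (nat_lit 18773175)) p12_21_0 (nat_lit 3) (nat_lit 226) (nat_lit 227) = true := by decide +kernel
def p12_21_0_227 : pfC (piC [(nat_lit 33242365), (nat_lit 21715570), (nat_lit 14024239)] (nat_lit 18773175)) p12_21_0 (nat_lit 3) (nat_lit 227) (nat_lit 228) = true := by decide +kernel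
def p12_21_0_228 : pfC (piC [(nat_lit 33242365), (nat_lit 21715570), (nat_lit 14024239)] (nat_lit 18773175)) p12_21_0 (nat_lit 3) (nat_lit 228) (nat_lit 229) = true := by decide +kernel
def p12_21_0_229 : pfC (piC [(nat_lit 33242365), (nat_lit 21715570), (nat_lit 14024239)] (nat_lit 18773175)) p12_21_0 (nat_lit 3) (nat_lit 229) (nat_lit 230) = true := by decide +kernel
def p12_21_0_230 : pfC (piC [(nat_lit 33242365), (nat_lit 21715570), (nat_lit 14024239)] (nat_lit 18773175)) p12_21_0 (nat_lit 3) (nat_lit 230) (nat_lit 231) = true := by decide +kernel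
def p12_21_0_231 : pfC (piC [(nat_lit 33242365), (nat_lit 21715570), (nat_lit 14024239)] (nat_lit 18773175)) p12_21_0 (nat_lit 3) (nat_lit 231) (nat_lit 232) = true := by decide +kernel
def p12_21_0_232 : pfC (piC [(nat_lit 33242365), (nat_lit 21715570), (nat_lit 14024239)] (nat_lit 18773175)) p12_21_0 (nat_lit 3) (nat_lit 232) (nat_lit 233) = true := by decide +kernel
def p12_21_0_233 : pfC (piC [(nat_lit 33242365), (nat_lit 21715570), (nat_lit 14024239)] (nat_lit 18773175)) p12_21_0 (nat_lit 3) (nat_lit 233) (nat_lit 234) = true := by decide +kernel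
def p12_21_0_234 : pfC (piC [(nat_lit 33242365), (nat_lit 21715570), (nat_lit 14024239)] (nat_lit 18773175)) p12_21_0 (nat_lit 3) (nat_lit 234) (nat_lit 235) = true := by decide +kernel
def p12_21_0_235 : pfC (piC [(nat_lit 33242365), (nat_lit 21715570), (nat_lit 14024239)] (nat_lit 18773175)) p12_21_0 (nat_lit 3) (nat_lit 235) (nat_lit 236) = true := by decide +kernel
def p12_21_0_236 : pfC (piC [(nat_lit 33242365), (nat_lit 21715570), (nat_lit 14024239)] (nat_lit 18773175)) p12_21_0 (nat_lit 3) (nat_lit 236) (nat_lit 237) = true := by decide +kernel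
def p12_21_0_237 : pfC (piC [(nat_lit 33242365), (nat_lit 21715570), (nat_lit 14024239)] (nat_lit 18773175)) p12_21_0 (nat_lit 3) (nat_lit 237) (nat_lit 238) = true := by decide +kernel
def p12_21_0_238 : pfC (piC [(nat_lit 33242365), (nat_lit 21715570), (nat_lit 14024239)] (nat_lit 18773175)) p12_21_0 (nat_lit 3) (nat_lit 238) (nat_lit 239) = true := by decide +kernel
def p12_21_0_239 : pfC (piC [(nat_lit 33242365), (nat_lit 21715570), (nat_lit 14024239)] (nat_lit 18773175)) p12_21_0 (nat_lit 3) (nat_lit 239) (nat_lit 240) = true := by decide +kernel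
def p12_21_0_240 : pfC (piC [(nat_lit 33242365), (nat_lit 21715570), (nat_lit 14024239)] (nat_lit 18773175)) p12_21_0 (nat_lit 3) (nat_lit 240) (nat_lit 241) = true := by decide +kernel
def p12_21_0_241 : pfC (piC [(nat_lit 33242365), (nat_lit 21715570), (nat_lit 14024239)] (nat_lit 18773175)) p12_21_0 (nat_lit 3) (nat_lit 241) (nat_lit 242) = true := by decide +kernel
def p12_21_0_242 : pfC (piC [(nat_lit 33242365), (nat_lit 21715570), (nat_lit 14024239)] (nat_lit 18773175)) p12_21_0 (nat_lit 3) (nat_lit 242) (nat_lit 243) = true := by decide +kernel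
def p12_21_0_243 : pfC (piC [(nat_lit 33242365), (nat_lit 21715570), (nat_lit 14024239)] (nat_lit 18773175)) p12_21_0 (nat_lit 3) (nat_lit 243) (nat_lit 244) = true := by decide +kernel
def p12_21_0_244 : pfC (piC [(nat_lit 33242365), (nat_lit 21715570), (nat_lit 14024239)] (nat_lit 18773175)) p12_21_0 (nat_lit 3) (nat_lit 244) (nat_lit 245) = true := by decide +kernel
def p12_21_0_245 : pfC (piC [(nat_lit 33242365), (nat_lit 21715570), (nat_lit 14024239)] (nat_lit 18773175)) p12_21_0 (nat_lit 3) (nat_lit 245) (nat_lit 246) = true := by decide +kernel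
def p12_21_0_246 : pfC (piC [(nat_lit 33242365), (nat_lit 21715570), (nat_lit 14024239)] (nat_lit 18773175)) p12_21_0 (nat_lit 3) (nat_lit 246) (nat_lit 247) = true := by decide +kernel
def p12_21_0_247 : pfC (piC [(nat_lit 33242365), (nat_lit 21715570), (nat_lit 14024239)] (nat_lit 18773175)) p12_21_0 (nat_lit 3) (nat_lit 247) (nat_lit 248) = true := by decide +kernel
def p12_21_0_248 : pfC (piC [(nat_lit 33242365), (nat_lit 21715570), (nat_lit 14024239)] (nat_lit 18773175)) p12_21_0 (nat_lit 3) (nat_lit 248) (nat_lit 249) = true := by decide +kernel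
def p12_21_0_249 : pfC (piC [(nat_lit 33242365), (nat_lit 21715570), (nat_lit 14024239)] (nat_lit 18773175)) p12_21_0 (nat_lit 3) (nat_lit 249) (nat_lit 250) = true := by decide +kernel
def p12_21_0_250 : pfC (piC [(nat_lit 33242365), (nat_lit 21715570), (nat_lit 14024239)] (nat_lit 18773175)) p12_21_0 (nat_lit 3) (nat_lit 250) (nat_lit 251) = true := by decide +kernel
def p12_21_0_251 : pfC (piC [(nat_lit 33242365), (nat_lit 21715570), (nat_lit 14024239)] (nat_lit 18773175)) p12_21_0 (nat_lit 3) (nat_lit 251) (nat_lit 252) = true := by decide +kernel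
def p12_21_0_252 : pfC (piC [(nat_lit 33242365), (nat_lit 21715570), (nat_lit 14024239)] (nat_lit 18773175)) p12_21_0 (nat_lit 3) (nat_lit 252) (nat_lit 253) = true := by decide +kernel
def p12_21_0_253 : pfC (piC [(nat_lit 33242365), (nat_lit 21715570), (nat_lit 14024239)] (nat_lit 18773175)) p12_21_0 (nat_lit 3) (nat_lit 253) (nat_lit 254) = true := by decide +kernel
def p12_21_0_254 : pfC (piC [(nat_lit 33242365), (nat_lit 21715570), (nat_lit 14024239)] (nat_lit 18773175)) p12_21_0 (nat_lit 3) (nat_lit 254) (nat_lit 255) = true := by decide +kernel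
def p12_21_0_255 : pfC (piC [(nat_lit 33242365), (nat_lit 21715570), (nat_lit 14024239)] (nat_lit 18773175)) p12_21_0 (nat_lit 3) (nat_lit 255) (nat_lit 256) = true := by decide +kernel
def p12_21_0_256 : pfC (piC [(nat_lit 33242365), (nat_lit 21715570), (nat_lit 14024239)] (nat_lit 18773175)) p12_21_0 (nat_lit 3) (nat_lit 256) (nat_lit 257) = true := by decide +kernel
def p12_21_0_257 : pfC (piC [(nat_lit 33242365), (nat_lit 21715570), (nat_lit 14024239)] (nat_lit 18773175)) p12_21_0 (nat_lit 3) (nat_lit 257) (nat_lit 258) = true := by decide +kernel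
def p12_21_0_258 : pfC (piC [(nat_lit 33242365), (nat_lit 21715570), (nat_lit 14024239)] (nat_lit 18773175)) p12_21_0 (nat_lit 3) (nat_lit 258) (nat_lit 259) = true := by decide +kernel
def p12_21_0_259 : pfC (piC [(nat_lit 33242365), (nat_lit 21715570), (nat_lit 14024239)] (nat_lit 18773175)) p12_21_0 (nat_lit 3) (nat_lit 259) (nat_lit 260) = true := by decide +kernel
def p12_21_0_260 : pfC (piC [(nat_lit 33242365), (nat_lit 21715570), (nat_lit 14024239)] (nat_lit 18773175)) p12_21_0 (nat_lit 3) (nat_lit 260) (nat_lit 261) = true := by decide +kernel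
def p12_21_0_261 : pfC (piC [(nat_lit 33242365), (nat_lit 21715570), (nat_lit 14024239)] (nat_lit 18773175)) p12_21_0 (nat_lit 3) (nat_lit 261) (nat_lit 262) = true := by decide +kernel
def p12_21_0_262 : pfC (piC [(nat_lit 33242365), (nat_lit 21715570), (nat_lit 14024239)] (nat_lit 18773175)) p12_21_0 (nat_lit 3) (nat_lit 262) (nat_lit 263) = true := by decide +kernel
def p12_21_0_263 : pfC (piC [(nat_lit 33242365), (nat_lit 21715570), (nat_lit 14024239)] (nat_lit 18773175)) p12_21_0 (nat_lit 3) (nat_lit 263) (nat_lit 264) = true := by decide +kernel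
def p12_21_0_264 : pfC (piC [(nat_lit 33242365), (nat_lit 21715570), (nat_lit 14024239)] (nat_lit 18773175)) p12_21_0 (nat_lit 3) (nat_lit 264) (nat_lit 265) = true := by decide +kernel
def p12_21_0_265 : pfC (piC [(nat_lit 33242365), (nat_lit 21715570), (nat_lit 14024239)] (nat_lit 18773175)) p12_21_0 (nat_lit 3) (nat_lit 265) (nat_lit 266) = true := by decide +kernel
def p12_21_0_266 : pfC (piC [(nat_lit 33242365), (nat_lit 21715570), (nat_lit 14024239)] (nat_lit 18773175)) p12_21_0 (nat_lit 3) (nat_lit 266) (nat_lit 267) = true := by decide +kernel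
def p12_21_0_267 : pfC (piC [(nat_lit 33242365), (nat_lit 21715570), (nat_lit 14024239)] (nat_lit 18773175)) p12_21_0 (nat_lit 3) (nat_lit 267) (nat_lit 268) = true := by decide +kernel
def p12_21_0_268 : pfC (piC [(nat_lit 33242365), (nat_lit 21715570), (nat_lit 14024239)] (nat_lit 18773175)) p12_21_0 (nat_lit 3) (nat_lit 268) (nat_lit 269) = true := by decide +kernel
def p12_21_0_269 : pfC (piC [(nat_lit 33242365), (nat_lit 21715570), (nat_lit 14024239)] (nat_lit 18773175)) p12_21_0 (nat_lit 3) (nat_lit 269) (nat_lit 270) = true := by decide +kernel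
def p12_21_0_270 : pfC (piC [(nat_lit 33242365), (nat_lit 21715570), (nat_lit 14024239)] (nat_lit 18773175)) p12_21_0 (nat_lit 3) (nat_lit 270) (nat_lit 271) = true := by decide +kernel
def p12_21_0_271 : pfC (piC [(nat_lit 33242365), (nat_lit 21715570), (nat_lit 14024239)] (nat_lit 18773175)) p12_21_0 (nat_lit 3) (nat_lit 271) (nat_lit 272) = true := by decide +kernel
def p12_21_0_272 : pfC (piC [(nat_lit 33242365), (nat_lit 21715570), (nat_lit 14024239)] (nat_lit 18773175)) p12_21_0 (nat_lit 3) (nat_lit 272) (nat_lit 273) = true := by decide +kernel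
def p12_21_0_273 : pfC (piC [(nat_lit 33242365), (nat_lit 21715570), (nat_lit 14024239)] (nat_lit 18773175)) p12_21_0 (nat_lit 3) (nat_lit 273) (nat_lit 274) = true := by decide +kernel
def p12_21_0_274 : pfC (piC [(nat_lit 33242365), (nat_lit 21715570), (nat_lit 14024239)] (nat_lit 18773175)) p12_21_0 (nat_lit 3) (nat_lit 274) (nat_lit 275) = true := by decide +kernel
def p12_21_0_275 : pfC (piC [(nat_lit 33242365), (nat_lit 21715570), (nat_lit 14024239)] (nat_lit 18773175)) p12_21_0 (nat_lit 3) (nat_lit 275) (nat_lit 276) = true := by decide +kernel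
def p12_21_0_276 : pfC (piC [(nat_lit 33242365), (nat_lit 21715570), (nat_lit 14024239)] (nat_lit 18773175)) p12_21_0 (nat_lit 3) (nat_lit 276) (nat_lit 277) = true := by decide +kernel
def p12_21_0_277 : pfC (piC [(nat_lit 33242365), (nat_lit 21715570), (nat_lit 14024239)] (nat_lit 18773175)) p12_21_0 (nat_lit 3) (nat_lit 277) (nat_lit 278) = true := by decide +kernel
def p12_21_0_278 : pfC (piC [(nat_lit 33242365), (nat_lit 21715570), (nat_lit 14024239)] (nat_lit 18773175)) p12_21_0 (nat_lit 3) (nat_lit 278) (nat_lit 279) = true := by decide +kernel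
def p12_21_0_279 : pfC (piC [(nat_lit 33242365), (nat_lit 21715570), (nat_lit 14024239)] (nat_lit 18773175)) p12_21_0 (nat_lit 3) (nat_lit 279) (nat_lit 280) = true := by decide +kernel
def p12_21_0_280 : pfC (piC [(nat_lit 33242365), (nat_lit 21715570), (nat_lit 14024239)] (nat_lit 18773175)) p12_21_0 (nat_lit 3) (nat_lit 280) (nat_lit 281) = true := by decide +kernel
def p12_21_0_281 : pfC (piC [(nat_lit 33242365), (nat_lit 21715570), (nat_lit 14024239)] (nat_lit 18773175)) p12_21_0 (nat_lit 3) (nat_lit 281) (nat_lit 282) = true := by decide +kernel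
def p12_21_0_282 : pfC (piC [(nat_lit 33242365), (nat_lit 21715570), (nat_lit 14024239)] (nat_lit 18773175)) p12_21_0 (nat_lit 3) (nat_lit 282) (nat_lit 283) = true := by decide +kernel
def p12_21_0_283 : pfC (piC [(nat_lit 33242365), (nat_lit 21715570), (nat_lit 14024239)] (nat_lit 18773175)) p12_21_0 (nat_lit 3) (nat_lit 283) (nat_lit 284) = true := by decide +kernel
def p12_21_0_284 : pfC (piC [(nat_lit 33242365), (nat_lit 21715570), (nat_lit 14024239)] (nat_lit 18773175)) p12_21_0 (nat_lit 3) (nat_lit 284) (nat_lit 285) = true := by decide +kernel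
def p12_21_0_285 : pfC (piC [(nat_lit 33242365), (nat_lit 21715570), (nat_lit 14024239)] (nat_lit 18773175)) p12_21_0 (nat_lit 3) (nat_lit 285) (nat_lit 286) = true := by decide +kernel
def p12_21_0_286 : pfC (piC [(nat_lit 33242365), (nat_lit 21715570), (nat_lit 14024239)] (nat_lit 18773175)) p12_21_0 (nat_lit 3) (nat_lit 286) (nat_lit 287) = true := by decide +kernel
def p12_21_0_287 : pfC (piC [(nat_lit 33242365), (nat_lit 21715570), (nat_lit 14024239)] (nat_lit 18773175)) p12_21_0 (nat_lit 3) (nat_lit 287) (nat_lit 288) = true := by decide +kernel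
def p12_21_0_288 : pfC (piC [(nat_lit 33242365), (nat_lit 21715570), (nat_lit 14024239)] (nat_lit 18773175)) p12_21_0 (nat_lit 3) (nat_lit 288) (nat_lit 289) = true := by decide +kernel
def p12_21_0_289 : pfC (piC [(nat_lit 33242365), (nat_lit 21715570), (nat_lit 14024239)] (nat_lit 18773175)) p12_21_0 (nat_lit 3) (nat_lit 289) (nat_lit 290) = true := by decide +kernel
def p12_21_0_290 : pfC (piC [(nat_lit 33242365), (nat_lit 21715570), (nat_lit 14024239)] (nat_lit 18773175)) p12_21_0 (nat_lit 3) (nat_lit 290) (nat_lit 291) = true := by decide +kernel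
def p12_21_0_291 : pfC (piC [(nat_lit 33242365), (nat_lit 21715570), (nat_lit 14024239)] (nat_lit 18773175)) p12_21_0 (nat_lit 3) (nat_lit 291) (nat_lit 292) = true := by decide +kernel
def p12_21_0_292 : pfC (piC [(nat_lit 33242365), (nat_lit 21715570), (nat_lit 14024239)] (nat_lit 18773175)) p12_21_0 (nat_lit 3) (nat_lit 292) (nat_lit 293) = true := by decide +kernel
def p12_21_0_293 : pfC (piC [(nat_lit 33242365), (nat_lit 21715570), (nat_lit 14024239)] (nat_lit 18773175)) p12_21_0 (nat_lit 3) (nat_lit 293) (nat_lit 294) = true := by decide +kernel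
def p12_21_0_294 : pfC (piC [(nat_lit 33242365), (nat_lit 21715570), (nat_lit 14024239)] (nat_lit 18773175)) p12_21_0 (nat_lit 3) (nat_lit 294) (nat_lit 295) = true := by decide +kernel
def p12_21_0_295 : pfC (piC [(nat_lit 33242365), (nat_lit 21715570), (nat_lit 14024239)] (nat_lit 18773175)) p12_21_0 (nat_lit 3) (nat_lit 295) (nat_lit 296) = true := by decide +kernel
def p12_21_0_296 : pfC (piC [(nat_lit 33242365), (nat_lit 21715570), (nat_lit 14024239)] (nat_lit 18773175)) p12_21_0 (nat_lit 3) (nat_lit 296) (nat_lit 297) = true := by decide +kernel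
def p12_21_0_297 : pfC (piC [(nat_lit 33242365), (nat_lit 21715570), (nat_lit 14024239)] (nat_lit 18773175)) p12_21_0 (nat_lit 3) (nat_lit 297) (nat_lit 298) = true := by decide +kernel
def p12_21_0_298 : pfC (piC [(nat_lit 33242365), (nat_lit 21715570), (nat_lit 14024239)] (nat_lit 18773175)) p12_21_0 (nat_lit 3) (nat_lit 298) (nat_lit 299) = true := by decide +kernel
def p12_21_0_299 : pfC (piC [(nat_lit 33242365), (nat_lit 21715570), (nat_lit 14024239)] (nat_lit 18773175)) p12_21_0 (nat_lit 3) (nat_lit 299) (nat_lit 300) = true := by decide +kernel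
def p12_21_0_300 : pfC (piC [(nat_lit 33242365), (nat_lit 21715570), (nat_lit 14024239)] (nat_lit 18773175)) p12_21_0 (nat_lit 3) (nat_lit 300) (nat_lit 301) = true := by decide +kernel
def p12_21_0_301 : pfC (piC [(nat_lit 33242365), (nat_lit 21715570), (nat_lit 14024239)] (nat_lit 18773175)) p12_21_0 (nat_lit 3) (nat_lit 301) (nat_lit 302) = true := by decide +kernel
def p12_21_0_302 : pfC (piC [(nat_lit 33242365), (nat_lit 21715570), (nat_lit 14024239)] (nat_lit 18773175)) p12_21_0 (nat_lit 3) (nat_lit 302) (nat_lit 303) = true := by decide +kernel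
def p12_21_0_303 : pfC (piC [(nat_lit 33242365), (nat_lit 21715570), (nat_lit 14024239)] (nat_lit 18773175)) p12_21_0 (nat_lit 3) (nat_lit 303) (nat_lit 304) = true := by decide +kernel
def p12_21_0_304 : pfC (piC [(nat_lit 33242365), (nat_lit 21715570), (nat_lit 14024239)] (nat_lit 18773175)) p12_21_0 (nat_lit 3) (nat_lit 304) (nat_lit 305) = true := by decide +kernel
def p12_21_0_305 : pfC (piC [(nat_lit 33242365), (nat_lit 21715570), (nat_lit 14024239)] (nat_lit 18773175)) p12_21_0 (nat_lit 3) (nat_lit 305) (nat_lit 306) = true := by decide +kernel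
def p12_21_0_306 : pfC (piC [(nat_lit 33242365), (nat_lit 21715570), (nat_lit 14024239)] (nat_lit 18773175)) p12_21_0 (nat_lit 3) (nat_lit 306) (nat_lit 307) = true := by decide +kernel
def p12_21_0_307 : pfC (piC [(nat_lit 33242365), (nat_lit 21715570), (nat_lit 14024239)] (nat_lit 18773175)) p12_21_0 (nat_lit 3) (nat_lit 307) (nat_lit 308) = true := by decide +kernel
def p12_21_0_308 : pfC (piC [(nat_lit 33242365), (nat_lit 21715570), (nat_lit 14024239)] (nat_lit 18773175)) p12_21_0 (nat_lit 3) (nat_lit 308) (nat_lit 309) = true := by decide +kernel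
def p12_21_0_309 : pfC (piC [(nat_lit 33242365), (nat_lit 21715570), (nat_lit 14024239)] (nat_lit 18773175)) p12_21_0 (nat_lit 3) (nat_lit 309) (nat_lit 310) = true := by decide +kernel
def p12_21_0_310 : pfC (piC [(nat_lit 33242365), (nat_lit 21715570), (nat_lit 14024239)] (nat_lit 18773175)) p12_21_0 (nat_lit 3) (nat_lit 310) (nat_lit 311) = true := by decide +kernel
def p12_21_0_311 : pfC (piC [(nat_lit 33242365), (nat_lit 21715570), (nat_lit 14024239)] (nat_lit 18773175)) p12_21_0 (nat_lit 3) (nat_lit 311) (nat_lit 312) = true := by decide +kernel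
def p12_21_0_312 : pfC (piC [(nat_lit 33242365), (nat_lit 21715570), (nat_lit 14024239)] (nat_lit 18773175)) p12_21_0 (nat_lit 3) (nat_lit 312) (nat_lit 313) = true := by decide +kernel
def p12_21_0_313 : pfC (piC [(nat_lit 33242365), (nat_lit 21715570), (nat_lit 14024239)] (nat_lit 18773175)) p12_21_0 (nat_lit 3) (nat_lit 313) (nat_lit 314) = true := by decide +kernel
def p12_21_0_314 : pfC (piC [(nat_lit 33242365), (nat_lit 21715570), (nat_lit 14024239)] (nat_lit 18773175)) p12_21_0 (nat_lit 3) (nat_lit 314) (nat_lit 315) = true := by decide +kernel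
def p12_21_0_315 : pfC (piC [(nat_lit 33242365), (nat_lit 21715570), (nat_lit 14024239)] (nat_lit 18773175)) p12_21_0 (nat_lit 3) (nat_lit 315) (nat_lit 316) = true := by decide +kernel
def p12_21_0_316 : pfC (piC [(nat_lit 33242365), (nat_lit 21715570), (nat_lit 14024239)] (nat_lit 18773175)) p12_21_0 (nat_lit 3) (nat_lit 316) (nat_lit 317) = true := by decide +kernel
def p12_21_0_317 : pfC (piC [(nat_lit 33242365), (nat_lit 21715570), (nat_lit 14024239)] (nat_lit 18773175)) p12_21_0 (nat_lit 3) (nat_lit 317) (nat_lit 318) = true := by decide +kernel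
def p12_21_0_318 : pfC (piC [(nat_lit 33242365), (nat_lit 21715570), (nat_lit 14024239)] (nat_lit 18773175)) p12_21_0 (nat_lit 3) (nat_lit 318) (nat_lit 319) = true := by decide +kernel
def p12_21_0_319 : pfC (piC [(nat_lit 33242365), (nat_lit 21715570), (nat_lit 14024239)] (nat_lit 18773175)) p12_21_0 (nat_lit 3) (nat_lit 319) (nat_lit 320) = true := by decide +kernel
def p12_21_0_320 : pfC (piC [(nat_lit 33242365), (nat_lit 21715570), (nat_lit 14024239)] (nat_lit 18773175)) p12_21_0 (nat_lit 3) (nat_lit 320) (nat_lit 321) = true := by decide +kernel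
def p12_21_0_321 : pfC (piC [(nat_lit 33242365), (nat_lit 21715570), (nat_lit 14024239)] (nat_lit 18773175)) p12_21_0 (nat_lit 3) (nat_lit 321) (nat_lit 322) = true := by decide +kernel
def p12_21_0_322 : pfC (piC [(nat_lit 33242365), (nat_lit 21715570), (nat_lit 14024239)] (nat_lit 18773175)) p12_21_0 (nat_lit 3) (nat_lit 322) (nat_lit 323) = true := by decide +kernel
def p12_21_0_323 : pfC (piC [(nat_lit 33242365), (nat_lit 21715570), (nat_lit 14024239)] (nat_lit 18773175)) p12_21_0 (nat_lit 3) (nat_lit 323) (nat_lit 324) = true := by decide +kernel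
def p12_21_0_324 : pfC (piC [(nat_lit 33242365), (nat_lit 21715570), (nat_lit 14024239)] (nat_lit 18773175)) p12_21_0 (nat_lit 3) (nat_lit 324) (nat_lit 325) = true := by decide +kernel
def p12_21_0_325 : pfC (piC [(nat_lit 33242365), (nat_lit 21715570), (nat_lit 14024239)] (nat_lit 18773175)) p12_21_0 (nat_lit 3) (nat_lit 325) (nat_lit 326) = true := by decide +kernel
def p12_21_0_326 : pfC (piC [(nat_lit 33242365), (nat_lit 21715570), (nat_lit 14024239)] (nat_lit 18773175)) p12_21_0 (nat_lit 3) (nat_lit 326) (nat_lit 327) = true := by decide +kernel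
def p12_21_0_327 : pfC (piC [(nat_lit 33242365), (nat_lit 21715570), (nat_lit 14024239)] (nat_lit 18773175)) p12_21_0 (nat_lit 3) (nat_lit 327) (nat_lit 328) = true := by decide +kernel
def p12_21_0_328 : pfC (piC [(nat_lit 33242365), (nat_lit 21715570), (nat_lit 14024239)] (nat_lit 18773175)) p12_21_0 (nat_lit 3) (nat_lit 328) (nat_lit 329) = true := by decide +kernel
theorem p12_21_0_T : PfS (PiF n12_21.reverse (nat_lit 18773175)) p12_21_0 (nat_lit 3) [] 0 :=
  pftab_of (los := [(nat_lit 33242365), (nat_lit 21715570), (nat_lit 14024239)]) (by decide +kernel) (hi := (nat_lit 329)) (PfP.trans (PfP.trans (PfP.trans (PfP.trans (PfP.trans (PfP.trans (PfP.trans (PfP.trans (PfP.trans (PfP.trans (PfP.trans (PfP.trans (PfP.trans (PfP.trans (PfP.trans (PfP.trans (PfP.trans (PfP.trans (PfP.trans (PfP.trans (PfP.trans (PfP.trans (PfP.trans (PfP.trans (PfP.trans (PfP.trans (PfP.trans (PfP.trans (PfP.trans (PfP.trans (PfP.trans (PfP.trans (PfP.trans (PfP.trans (PfP.trans (PfP.trans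 (PfP.trans (PfP.trans (PfP.trans (PfP.trans (PfP.trans (PfP.trans (PfP.trans (PfP.trans (PfP.trans (PfP.trans (PfP.trans (PfP.trans (PfP.trans (PfP.trans (PfP.trans (PfP.trans (PfP.trans (PfP.trans (PfP.trans (PfP.trans (PfP.trans (PfP.trans (PfP.trans (PfP.trans (PfP.trans (PfP.trans (PfP.trans (PfP.trans (PfP.trans (PfP.trans (PfP.trans (PfP.trans (PfP.trans (PfP.trans (PfP.trans (PfP.trans (PfP.trans (PfP.trans (PfP.trans (PfP.trans (PfP.trans (PfP.trans (PfP.trans (PfP.trans (PfP.trans (PfP.trans (PfP.trans (PfP.trans (PfP.trans (PfP.trans (PfP.trans (PfP.trans (PfP.trans (PfP.trans (PfP.trans (PfP.trans (PfP.trans (PfP.trans (PfP.trans (PfP.trans (PfP.trans (PfP.trans (PfP.trans (PfP.trans (PfP.trans (PfP.trans (PfP.trans (PfP.trans (PfP.trans (PfP.trans (PfP.trans (PfP.trans (PfP.trans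
 (PfP.trans (PfP.trans (PfP.trans (PfP.trans (PfP.trans (PfP.trans (PfP.trans (PfP.trans (PfP.trans (PfP.trans (PfP.trans (PfP.trans (PfP.trans (PfP.trans (PfP.trans (PfP.trans (PfP.trans (PfP.trans (PfP.trans (PfP.trans (PfP.trans (PfP.trans (PfP.trans (PfP.trans (PfP.trans (PfP.trans (PfP.trans (PfP.trans (PfP.trans (PfP.trans (PfP.trans (PfP.trans (PfP.trans (PfP.trans (PfP.trans (PfP.trans (PfP.trans (PfP.trans (PfP.trans (PfP.trans (PfP.trans (PfP.trans (PfP.trans (PfP.trans (PfP.trans (PfP.trans (PfP.trans (PfP.trans (PfP.trans (PfP.trans (PfP.trans (PfP.trans (PfP.trans (PfP.trans (PfP.trans (PfP.trans (PfP.trans (PfP.trans (PfP.trans (PfP.trans (PfP.trans (PfP.trans (PfP.trans (PfP.trans (PfP.trans (PfP.trans (PfP.trans (PfP.trans (PfP.trans (PfP.trans (PfP.trans (PfP.trans (PfP.trans (PfP.trans (PfP.trans (PfP.trans (PfP.trans (PfP.trans (PfP.trans (PfP.trans (PfP.trans (PfP.trans (PfP.trans (PfP.trans (PfP.trans (PfP.trans (PfP.trans (PfP.trans (PfP.trans (PfP.trans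 (PfP.trans (PfP.trans (PfP.trans (PfP.trans (PfP.trans (PfP.trans (PfP.trans (PfP.trans (PfP.trans (PfP.trans (PfP.trans (PfP.trans (PfP.trans (PfP.trans (PfP.trans (PfP.trans (PfP.trans (PfP.trans (PfP.trans
 (PfP.trans (PfP.trans (PfP.trans (PfP.trans (PfP.trans (PfP.trans (PfP.trans (PfP.trans (PfP.trans (PfP.trans (PfP.trans (PfP.trans (PfP.trans (PfP.trans (PfP.trans (PfP.trans (PfP.trans (PfP.trans (PfP.trans (PfP.trans (PfP.trans (PfP.trans (PfP.trans (PfP.trans (PfP.trans (PfP.trans (PfP.trans (PfP.trans (PfP.trans (PfP.trans (PfP.trans (PfP.trans (PfP.trans (PfP.trans (PfP.trans (PfP.trans (PfP.trans (PfP.trans (PfP.trans (PfP.trans (PfP.trans (PfP.trans (PfP.trans (PfP.trans (PfP.trans (PfP.trans (PfP.trans (PfP.trans (PfP.trans (PfP.trans (PfP.trans (PfP.trans (PfP.trans (PfP.trans (PfP.trans (PfP.trans (PfP.trans (PfP.trans (PfP.trans (PfP.trans (PfP.trans (PfP.trans (PfP.trans (PfP.trans (PfP.trans (PfP.trans (PfP.trans (PfP.trans (PfP.trans (PfP.trans (PfP.trans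 (PfP.trans (PfP.trans (PfP.trans (PfP.trans (PfP.trans (PfP.trans (PfP.trans (PfP.trans (PfP.trans (PfP.trans (PfP.trans (PfP.trans (PfP.trans (PfP.trans (PfP.trans (PfP.trans (PfP.trans (PfP.trans (PfP.trans (PfP.trans (PfP.trans (PfP.trans (PfP.trans (PfP.trans (PfP.trans (PfP.trans (PfP.trans (PfP.trans (PfP.trans (PfP.trans (PfP.trans (PfP.trans (PfP.trans (PfP.trans (PfP.trans (PfP.trans (PfP.trans (PfP.trans
 (PfP.trans (pfC_sound p12_21_0_0) (pfC_sound p12_21_0_1)) (pfC_sound p12_21_0_2)) (pfC_sound p12_21_0_3)) (pfC_sound p12_21_0_4)) (pfC_sound p12_21_0_5)) (pfC_sound p12_21_0_6)) (pfC_sound p12_21_0_7)) (pfC_sound p12_21_0_8)) (pfC_sound p12_21_0_9)) (pfC_sound p12_21_0_10)) (pfC_sound p12_21_0_11)) (pfC_sound p12_21_0_12)) (pfC_sound p12_21_0_13)) (pfC_sound p12_21_0_14)) (pfC_sound p12_21_0_15)) (pfC_sound p12_21_0_16)) (pfC_sound p12_21_0_17)) (pfC_sound p12_21_0_18)) (pfC_sound p12_21_0_19)) (pfC_sound p12_21_0_20)) (pfC_sound p12_21_0_21)) (pfC_sound p12_21_0_22))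 (pfC_sound p12_21_0_23)) (pfC_sound p12_21_0_24)) (pfC_sound p12_21_0_25)) (pfC_sound p12_21_0_26)) (pfC_sound p12_21_0_27)) (pfC_sound p12_21_0_28)) (pfC_sound p12_21_0_29)) (pfC_sound p12_21_0_30)) (pfC_sound p12_21_0_31)) (pfC_sound p12_21_0_32)) (pfC_sound p12_21_0_33)) (pfC_sound p12_21_0_34)) (pfC_sound p12_21_0_35)) (pfC_sound p12_21_0_36)) (pfC_sound p12_21_0_37)) (pfC_sound p12_21_0_38)) (pfC_sound p12_21_0_39)) (pfC_sound p12_21_0_40)) (pfC_sound p12_21_0_41)) (pfC_sound p12_21_0_42)) (pfC_sound p12_21_0_43)) (pfC_sound p12_21_0_44)) (pfC_sound p12_21_0_45)) (pfC_sound p12_21_0_46)) (pfC_sound p12_21_0_47))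
 (pfC_sound p12_21_0_48)) (pfC_sound p12_21_0_49)) (pfC_sound p12_21_0_50)) (pfC_sound p12_21_0_51)) (pfC_sound p12_21_0_52)) (pfC_sound p12_21_0_53)) (pfC_sound p12_21_0_54)) (pfC_sound p12_21_0_55)) (pfC_sound p12_21_0_56)) (pfC_sound p12_21_0_57)) (pfC_sound p12_21_0_58)) (pfC_sound p12_21_0_59)) (pfC_sound p12_21_0_60)) (pfC_sound p12_21_0_61)) (pfC_sound p12_21_0_62)) (pfC_sound p12_21_0_63)) (pfC_sound p12_21_0_64)) (pfC_sound p12_21_0_65)) (pfC_sound p12_21_0_66)) (pfC_sound p12_21_0_67)) (pfC_sound p12_21_0_68)) (pfC_sound p12_21_0_69)) (pfC_sound p12_21_0_70)) (pfC_sound p12_21_0_71)) (pfC_sound p12_21_0_72)) (pfC_sound p12_21_0_73)) (pfC_sound p12_21_0_74)) (pfC_sound p12_21_0_75)) (pfC_sound p12_21_0_76)) (pfC_sound p12_21_0_77)) (pfC_sound p12_21_0_78)) (pfC_sound p12_21_0_79)) (pfC_sound p12_21_0_80)) (pfC_sound p12_21_0_81)) (pfC_sound p12_21_0_82)) (pfC_sound p12_21_0_83)) (pfC_sound p12_21_0_84)) (pfC_sound p12_21_0_85)) (pfC_sound p12_21_0_86)) (pfC_sound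 p12_21_0_87)) (pfC_sound p12_21_0_88)) (pfC_sound p12_21_0_89)) (pfC_sound p12_21_0_90)) (pfC_sound p12_21_0_91)) (pfC_sound p12_21_0_92)) (pfC_sound p12_21_0_93)) (pfC_sound p12_21_0_94)) (pfC_sound p12_21_0_95))
 (pfC_sound p12_21_0_96)) (pfC_sound p12_21_0_97)) (pfC_sound p12_21_0_98)) (pfC_sound p12_21_0_99)) (pfC_sound p12_21_0_100)) (pfC_sound p12_21_0_101)) (pfC_sound p12_21_0_102)) (pfC_sound p12_21_0_103)) (pfC_sound p12_21_0_104)) (pfC_sound p12_21_0_105)) (pfC_sound p12_21_0_106)) (pfC_sound p12_21_0_107)) (pfC_sound p12_21_0_108)) (pfC_sound p12_21_0_109)) (pfC_sound p12_21_0_110)) (pfC_sound p12_21_0_111)) (pfC_sound p12_21_0_112)) (pfC_sound p12_21_0_113)) (pfC_sound p12_21_0_114)) (pfC_sound p12_21_0_115)) (pfC_sound p12_21_0_116)) (pfC_sound p12_21_0_117)) (pfC_sound p12_21_0_118)) (pfC_sound p12_21_0_119)) (pfC_sound p12_21_0_120)) (pfC_sound p12_21_0_121)) (pfC_sound p12_21_0_122)) (pfC_sound p12_21_0_123)) (pfC_sound p12_21_0_124)) (pfC_sound p12_21_0_125))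 (pfC_sound p12_21_0_126)) (pfC_sound p12_21_0_127)) (pfC_sound p12_21_0_128)) (pfC_sound p12_21_0_129)) (pfC_sound p12_21_0_130)) (pfC_sound p12_21_0_131)) (pfC_sound p12_21_0_132)) (pfC_sound p12_21_0_133)) (pfC_sound p12_21_0_134)) (pfC_sound p12_21_0_135)) (pfC_sound p12_21_0_136)) (pfC_sound p12_21_0_137)) (pfC_sound p12_21_0_138)) (pfC_sound p12_21_0_139)) (pfC_sound p12_21_0_140)) (pfC_sound p12_21_0_141))
 (pfC_sound p12_21_0_142)) (pfC_sound p12_21_0_143)) (pfC_sound p12_21_0_144)) (pfC_sound p12_21_0_145)) (pfC_sound p12_21_0_146)) (pfC_sound p12_21_0_147)) (pfC_sound p12_21_0_148)) (pfC_sound p12_21_0_149)) (pfC_sound p12_21_0_150)) (pfC_sound p12_21_0_151)) (pfC_sound p12_21_0_152)) (pfC_sound p12_21_0_153)) (pfC_sound p12_21_0_154)) (pfC_sound p12_21_0_155)) (pfC_sound p12_21_0_156)) (pfC_sound p12_21_0_157)) (pfC_sound p12_21_0_158)) (pfC_sound p12_21_0_159)) (pfC_sound p12_21_0_160)) (pfC_sound p12_21_0_161)) (pfC_sound p12_21_0_162)) (pfC_sound p12_21_0_163))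 (pfC_sound p12_21_0_164)) (pfC_sound p12_21_0_165)) (pfC_sound p12_21_0_166)) (pfC_sound p12_21_0_167)) (pfC_sound p12_21_0_168)) (pfC_sound p12_21_0_169)) (pfC_sound p12_21_0_170)) (pfC_sound p12_21_0_171)) (pfC_sound p12_21_0_172)) (pfC_sound p12_21_0_173)) (pfC_sound p12_21_0_174)) (pfC_sound p12_21_0_175)) (pfC_sound p12_21_0_176)) (pfC_sound p12_21_0_177)) (pfC_sound p12_21_0_178)) (pfC_sound p12_21_0_179)) (pfC_sound p12_21_0_180)) (pfC_sound p12_21_0_181)) (pfC_sound p12_21_0_182)) (pfC_sound p12_21_0_183)) (pfC_sound p12_21_0_184)) (pfC_sound p12_21_0_185)) (pfC_sound p12_21_0_186)) (pfC_sound p12_21_0_187))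
 (pfC_sound p12_21_0_188)) (pfC_sound p12_21_0_189)) (pfC_sound p12_21_0_190)) (pfC_sound p12_21_0_191)) (pfC_sound p12_21_0_192)) (pfC_sound p12_21_0_193)) (pfC_sound p12_21_0_194)) (pfC_sound p12_21_0_195)) (pfC_sound p12_21_0_196)) (pfC_sound p12_21_0_197)) (pfC_sound p12_21_0_198)) (pfC_sound p12_21_0_199)) (pfC_sound p12_21_0_200)) (pfC_sound p12_21_0_201)) (pfC_sound p12_21_0_202)) (pfC_sound p12_21_0_203)) (pfC_sound p12_21_0_204)) (pfC_sound p12_21_0_205)) (pfC_sound p12_21_0_206)) (pfC_sound p12_21_0_207)) (pfC_sound p12_21_0_208)) (pfC_sound p12_21_0_209)) (pfC_sound p12_21_0_210)) (pfC_sound p12_21_0_211)) (pfC_sound p12_21_0_212)) (pfC_sound p12_21_0_213)) (pfC_sound p12_21_0_214)) (pfC_sound p12_21_0_215)) (pfC_sound p12_21_0_216)) (pfC_sound p12_21_0_217)) (pfC_sound p12_21_0_218)) (pfC_sound p12_21_0_219)) (pfC_sound p12_21_0_220)) (pfC_sound p12_21_0_221)) (pfC_sound p12_21_0_222)) (pfC_sound p12_21_0_223)) (pfC_sound p12_21_0_224)) (pfC_sound p12_21_0_225))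 (pfC_sound p12_21_0_226)) (pfC_sound p12_21_0_227)) (pfC_sound p12_21_0_228)) (pfC_sound p12_21_0_229)) (pfC_sound p12_21_0_230)) (pfC_sound p12_21_0_231)) (pfC_sound p12_21_0_232)) (pfC_sound p12_21_0_233))
 (pfC_sound p12_21_0_234)) (pfC_sound p12_21_0_235)) (pfC_sound p12_21_0_236)) (pfC_sound p12_21_0_237)) (pfC_sound p12_21_0_238)) (pfC_sound p12_21_0_239)) (pfC_sound p12_21_0_240)) (pfC_sound p12_21_0_241)) (pfC_sound p12_21_0_242)) (pfC_sound p12_21_0_243)) (pfC_sound p12_21_0_244)) (pfC_sound p12_21_0_245)) (pfC_sound p12_21_0_246)) (pfC_sound p12_21_0_247)) (pfC_sound p12_21_0_248)) (pfC_sound p12_21_0_249)) (pfC_sound p12_21_0_250)) (pfC_sound p12_21_0_251)) (pfC_sound p12_21_0_252)) (pfC_sound p12_21_0_253)) (pfC_sound p12_21_0_254)) (pfC_sound p12_21_0_255)) (pfC_sound p12_21_0_256)) (pfC_sound p12_21_0_257)) (pfC_sound p12_21_0_258)) (pfC_sound p12_21_0_259)) (pfC_sound p12_21_0_260)) (pfC_sound p12_21_0_261)) (pfC_sound p12_21_0_262)) (pfC_sound p12_21_0_263))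 (pfC_sound p12_21_0_264)) (pfC_sound p12_21_0_265)) (pfC_sound p12_21_0_266)) (pfC_sound p12_21_0_267)) (pfC_sound p12_21_0_268)) (pfC_sound p12_21_0_269)) (pfC_sound p12_21_0_270)) (pfC_sound p12_21_0_271)) (pfC_sound p12_21_0_272)) (pfC_sound p12_21_0_273)) (pfC_sound p12_21_0_274)) (pfC_sound p12_21_0_275)) (pfC_sound p12_21_0_276)) (pfC_sound p12_21_0_277)) (pfC_sound p12_21_0_278)) (pfC_sound p12_21_0_279))
 (pfC_sound p12_21_0_280)) (pfC_sound p12_21_0_281)) (pfC_sound p12_21_0_282)) (pfC_sound p12_21_0_283)) (pfC_sound p12_21_0_284)) (pfC_sound p12_21_0_285)) (pfC_sound p12_21_0_286)) (pfC_sound p12_21_0_287)) (pfC_sound p12_21_0_288)) (pfC_sound p12_21_0_289)) (pfC_sound p12_21_0_290)) (pfC_sound p12_21_0_291)) (pfC_sound p12_21_0_292)) (pfC_sound p12_21_0_293)) (pfC_sound p12_21_0_294)) (pfC_sound p12_21_0_295)) (pfC_sound p12_21_0_296)) (pfC_sound p12_21_0_297)) (pfC_sound p12_21_0_298)) (pfC_sound p12_21_0_299)) (pfC_sound p12_21_0_300)) (pfC_sound p12_21_0_301))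 (pfC_sound p12_21_0_302)) (pfC_sound p12_21_0_303)) (pfC_sound p12_21_0_304)) (pfC_sound p12_21_0_305)) (pfC_sound p12_21_0_306)) (pfC_sound p12_21_0_307)) (pfC_sound p12_21_0_308)) (pfC_sound p12_21_0_309)) (pfC_sound p12_21_0_310)) (pfC_sound p12_21_0_311)) (pfC_sound p12_21_0_312)) (pfC_sound p12_21_0_313)) (pfC_sound p12_21_0_314)) (pfC_sound p12_21_0_315)) (pfC_sound p12_21_0_316)) (pfC_sound p12_21_0_317)) (pfC_sound p12_21_0_318)) (pfC_sound p12_21_0_319)) (pfC_sound p12_21_0_320)) (pfC_sound p12_21_0_321)) (pfC_sound p12_21_0_322)) (pfC_sound p12_21_0_323)) (pfC_sound p12_21_0_324)) (pfC_sound p12_21_0_325))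
 (pfC_sound p12_21_0_326)) (pfC_sound p12_21_0_327)) (pfC_sound p12_21_0_328)) (by decide +kernel)

def z12_21_0 : zOK yB12_21 (nat_lit 0) (nat_lit 0) (nat_lit 400) (nat_lit 18773175) (nat_lit 12006452) = true := by decide +kernel
def g12_21_0 : gOK yB12_21.x P12_21 (nat_lit 1356) (q12_21 :: r12_21) (nat_lit 0) (nat_lit 0) (nat_lit 1) (nat_lit 400) (nat_lit 0) (nat_lit 11000000) (nat_lit 12712500) (nat_lit 12712500) [(nat_lit 800), (nat_lit 1600)] = true := by decide +kernel
def v12_21_0 : ivC P12_21 s12_21 w12_21 n12_21 (nat_lit 3) (nat_lit 5240) (nat_lit 0) (nat_lit 0) f192_0_0 f200_0_0 (nat_lit 1) (nat_lit 400) f192_0_400 f200_0_400 (nat_lit 18773175) (nat_lit 12006452) p12_21_0 = true := by decide +kernel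
def p12_21_1 : PF := (PF.cons (PF.cons (PF.cons (PF.leaf (nat_lit 1780103) (nat_lit 7690510) (nat_lit 59418302) (nat_lit 7690510) [(nat_lit 0), (nat_lit 0), (nat_lit 0)]) (PF.cons (PF.leaf (nat_lit 2079094) (nat_lit 566913) (nat_lit 58778266) (nat_lit 7763633) [(nat_lit 566913), (nat_lit 0), (nat_lit 0)]) (PF.cons (PF.leaf (nat_lit 2430844) (nat_lit 618143) (nat_lit 58033812) (nat_lit 7838714) [(nat_lit 618143), (nat_lit 0), (nat_lit 0)]) (PF.cons (PF.leaf (nat_lit 2825417) (nat_lit 663468) (nat_lit 57207640) (nat_lit 7910766) [(nat_lit 663468), (nat_lit 0), (nat_lit 0)]) (PF.cons (PF.leaf (nat_lit 3255627) (nat_lit 703906) (nat_lit 56316721) (nat_lit 7976466) [(nat_lit 703906), (nat_lit 0), (nat_lit 0)]) (PF.cons (PF.leaf (nat_lit 3715545) (nat_lit 740082) (nat_lit 55374762) (nat_lit 8033636) [(nat_lit 740082), (nat_lit 0), (nat_lit 0)]) (PF.cons (PF.leaf (nat_lit 4200050) (nat_lit 772427) (nat_lit 54393313) (nat_lit 8080931) [(nat_lit 772427), (nat_lit 0), (nat_lit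 0)]) (PF.cons (PF.leaf (nat_lit 4704631) (nat_lit 801268) (nat_lit 53382311) (nat_lit 8117623) [(nat_lit 801268), (nat_lit 0), (nat_lit 0)]) (PF.cons (PF.leaf (nat_lit 5225253) (nat_lit 826872) (nat_lit 52350393) (nat_lit 8143439)
 [(nat_lit 826872), (nat_lit 0), (nat_lit 0)]) (PF.cons (PF.leaf (nat_lit 5758320) (nat_lit 849475) (nat_lit 51305083) (nat_lit 8158447) [(nat_lit 849475), (nat_lit 0), (nat_lit 0)]) (PF.cons (PF.leaf (nat_lit 6300584) (nat_lit 869293) (nat_lit 50252924) (nat_lit 8162957) [(nat_lit 869293), (nat_lit 0), (nat_lit 0)]) (PF.cons (PF.leaf (nat_lit 6849182) (nat_lit 886525) (nat_lit 49199581) (nat_lit 8157454) [(nat_lit 886525), (nat_lit 0), (nat_lit 0)]) (PF.cons (PF.leaf (nat_lit 7401551) (nat_lit 901362) (nat_lit 48149923) (nat_lit 8142536) [(nat_lit 901362), (nat_lit 0), (nat_lit 0)]) (PF.cons (PF.leaf (nat_lit 7955491) (nat_lit 913987) (nat_lit 47108101) (nat_lit 8118877) [(nat_lit 913987), (nat_lit 0), (nat_lit 0)]) (PF.cons (PF.leaf (nat_lit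 8508997) (nat_lit 924571) (nat_lit 46077621) (nat_lit 8087188) [(nat_lit 924571), (nat_lit 0), (nat_lit 0)]) (PF.cons (PF.leaf (nat_lit 9060406) (nat_lit 933280) (nat_lit 45061406) (nat_lit 8048194) [(nat_lit 933280), (nat_lit 0), (nat_lit 0)]) (PF.cons PF.nil (PF.cons PF.nil PF.nil)))))))))))))))))) (PF.cons (PF.cons (PF.leaf (nat_lit 2711017) (nat_lit 2460948) (nat_lit 56725935) (nat_lit 7921928) [(nat_lit 0), (nat_lit 2460948), (nat_lit
 0)]) (PF.cons (PF.leaf (nat_lit 3091032) (nat_lit 682244) (nat_lit 55922675) (nat_lit 7976996) [(nat_lit 682244), (nat_lit 2526896), (nat_lit 0)]) (PF.cons (PF.leaf (nat_lit 3508625) (nat_lit 720483) (nat_lit 55052168) (nat_lit 8026667) [(nat_lit 720483), (nat_lit 2589010), (nat_lit 0)]) (PF.cons (PF.leaf (nat_lit 3956546) (nat_lit 754437) (nat_lit 54130645) (nat_lit 8068793) [(nat_lit 754437), (nat_lit 2646061), (nat_lit 0)]) (PF.cons (PF.leaf (nat_lit 4429139) (nat_lit 784620) (nat_lit 53170792) (nat_lit 8102085) [(nat_lit 784620),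 (nat_lit 2697454), (nat_lit 0)]) (PF.cons (PF.leaf (nat_lit 4921647) (nat_lit 811399) (nat_lit 52183004) (nat_lit 8125860) [(nat_lit 811399), (nat_lit 2742951), (nat_lit 0)]) (PF.cons (PF.leaf (nat_lit 5429952) (nat_lit 835064) (nat_lit 51176015) (nat_lit 8139867) [(nat_lit 835064), (nat_lit 2782540), (nat_lit 0)]) (PF.cons (PF.leaf (nat_lit 5950454) (nat_lit 855862) (nat_lit 50157254) (nat_lit 8144171) [(nat_lit 855862), (nat_lit 2816347), (nat_lit 0)]) (PF.cons (PF.leaf (nat_lit 6479949) (nat_lit 874011) (nat_lit 49133064) (nat_lit 8139059) [(nat_lit 874011), (nat_lit 2844593), (nat_lit 0)]) (PF.cons (PF.leaf (nat_lit 7015648) (nat_lit 889713)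
 (nat_lit 48108858) (nat_lit 8124976) [(nat_lit 889713), (nat_lit 2867557), (nat_lit 0)]) (PF.cons (PF.leaf (nat_lit 7555075) (nat_lit 903154) (nat_lit 47089239) (nat_lit 8102470) [(nat_lit 903154), (nat_lit 2885553), (nat_lit 0)]) (PF.cons (PF.leaf (nat_lit 8096083) (nat_lit 914512) (nat_lit 46078094) (nat_lit 8072156) [(nat_lit 914512), (nat_lit 2898918), (nat_lit 0)]) (PF.cons (PF.leaf (nat_lit 8636783) (nat_lit 923954) (nat_lit 45078678) (nat_lit 8034681) [(nat_lit 923954), (nat_lit 2907993), (nat_lit 0)]) (PF.cons (PF.leaf (nat_lit 9175568) (nat_lit 931638) (nat_lit 44093686) (nat_lit 7990703) [(nat_lit 931638), (nat_lit 2913122), (nat_lit 0)]) (PF.cons PF.nil (PF.cons PF.nil PF.nil)))))))))))))))) (PF.cons (PF.cons (PF.leaf (nat_lit 3760571) (nat_lit 2634477) (nat_lit 53780105) (nat_lit 8059753) [(nat_lit 0), (nat_lit 2634477), (nat_lit 0)]) (PF.cons (PF.leaf (nat_lit 4193494) (nat_lit 765562) (nat_lit 52888553) (nat_lit 8088473) [(nat_lit 765562), (nat_lit 2683111),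 (nat_lit 0)]) (PF.cons (PF.leaf (nat_lit 4652322) (nat_lit 794036) (nat_lit 51957300) (nat_lit 8109374) [(nat_lit 794036), (nat_lit 2727032), (nat_lit 0)]) (PF.cons (PF.leaf (nat_lit 5131557) (nat_lit 819118)
 (nat_lit 50997990) (nat_lit 8121774) [(nat_lit 819118), (nat_lit 2765847), (nat_lit 0)]) (PF.cons (PF.leaf (nat_lit 5626800) (nat_lit 841148) (nat_lit 50019916) (nat_lit 8125422) [(nat_lit 841148), (nat_lit 2799440), (nat_lit 0)]) (PF.cons (PF.leaf (nat_lit 6134303) (nat_lit 860400) (nat_lit 49030706) (nat_lit 8120368) [(nat_lit 860400), (nat_lit 2827868), (nat_lit 0)]) (PF.cons (PF.leaf (nat_lit 6650856) (nat_lit 877107) (nat_lit 48036707) (nat_lit 8106872) [(nat_lit 877107), (nat_lit 2851294), (nat_lit 0)]) (PF.cons (PF.leaf (nat_lit 7173665) (nat_lit 891477) (nat_lit 47043234) (nat_lit 8085340) [(nat_lit 891477), (nat_lit 2869948), (nat_lit 0)]) (PF.cons (PF.leaf (nat_lit 7700298) (nat_lit 903698) (nat_lit 46054740) (nat_lit 8056272) [(nat_lit 903698), (nat_lit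 2884104), (nat_lit 0)]) (PF.cons (PF.leaf (nat_lit 8228645) (nat_lit 913947) (nat_lit 45074941) (nat_lit 8020227) [(nat_lit 913947), (nat_lit 2894057), (nat_lit 0)]) (PF.cons (PF.leaf (nat_lit 8756877) (nat_lit 922387) (nat_lit 44106917) (nat_lit 7977794) [(nat_lit 922387), (nat_lit 2900114), (nat_lit 0)]) (PF.cons (PF.leaf (nat_lit 9283422) (nat_lit 929170) (nat_lit 43153199) (nat_lit 7929573) [(nat_lit 929170),
 (nat_lit 2902584), (nat_lit 0)]) (PF.cons PF.nil (PF.cons PF.nil PF.nil)))))))))))))) (PF.cons (PF.cons (PF.leaf (nat_lit 4871919) (nat_lit 2750452) (nat_lit 50753284) (nat_lit 8104172) [(nat_lit 0), (nat_lit 2750452), (nat_lit 0)]) (PF.cons (PF.leaf (nat_lit 5336149) (nat_lit 824555) (nat_lit 49827865) (nat_lit 8106649) [(nat_lit 824555), (nat_lit 2783247), (nat_lit 0)]) (PF.cons (PF.leaf (nat_lit 5817322) (nat_lit 845257) (nat_lit 48882618) (nat_lit 8101287) [(nat_lit 845257), (nat_lit 2811464), (nat_lit 0)]) (PF.cons (PF.leaf (nat_lit 6311252) (nat_lit 863220)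 (nat_lit 47925792) (nat_lit 8088117) [(nat_lit 863220), (nat_lit 2835080), (nat_lit 0)]) (PF.cons (PF.leaf (nat_lit 6814564) (nat_lit 878704) (nat_lit 46964010) (nat_lit 8067373) [(nat_lit 878704), (nat_lit 2854203), (nat_lit 0)]) (PF.cons (PF.leaf (nat_lit 7324393) (nat_lit 891932) (nat_lit 46002670) (nat_lit 8039422) [(nat_lit 891932), (nat_lit 2869018), (nat_lit 0)]) (PF.cons (PF.leaf (nat_lit 7838299) (nat_lit 903101) (nat_lit 45046206) (nat_lit 8004722) [(nat_lit 903101), (nat_lit 2879757), (nat_lit 0)]) (PF.cons (PF.leaf (nat_lit 8354170) (nat_lit 912388) (nat_lit 44098263) (nat_lit 7963782) [(nat_lit 912388),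
 (nat_lit 2886682), (nat_lit 0)]) (PF.cons (PF.leaf (nat_lit 8870196) (nat_lit 919955) (nat_lit 43161827) (nat_lit 7917139) [(nat_lit 919955), (nat_lit 2890065), (nat_lit 0)]) (PF.cons (PF.leaf (nat_lit 9384829) (nat_lit 925954) (nat_lit 42239327) (nat_lit 7865339) [(nat_lit 925954), (nat_lit 2890185), (nat_lit 0)]) (PF.cons (PF.leaf (nat_lit 9896765) (nat_lit 930522) (nat_lit 41332715) (nat_lit 7808922) [(nat_lit 930522), (nat_lit 2887317), (nat_lit 0)]) (PF.cons PF.nil PF.nil)))))))))))) (PF.cons (PF.cons (PF.leaf (nat_lit 6003345) (nat_lit 2819123) (nat_lit 47763840) (nat_lit 8068477) [(nat_lit 0), (nat_lit 2819123), (nat_lit 0)]) (PF.cons (PF.leaf (nat_lit 6482740) (nat_lit 864420) (nat_lit 46842286) (nat_lit 8048352) [(nat_lit 864420), (nat_lit 2838438), (nat_lit 0)]) (PF.cons (PF.leaf (nat_lit 6972340) (nat_lit 878901) (nat_lit 45914695) (nat_lit 8021409) [(nat_lit 878901), (nat_lit 2853726), (nat_lit 0)]) (PF.cons (PF.leaf (nat_lit 7468980) (nat_lit 891174) (nat_lit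 44986795) (nat_lit 7987986) [(nat_lit 891174), (nat_lit 2865126), (nat_lit 0)]) (PF.cons (PF.leaf (nat_lit 7970123) (nat_lit 901452) (nat_lit 44063163) (nat_lit 7948503) [(nat_lit 901452), (nat_lit 2872834),
 (nat_lit 0)]) (PF.cons (PF.leaf (nat_lit 8473617) (nat_lit 909917) (nat_lit 43147490) (nat_lit 7903427) [(nat_lit 909917), (nat_lit 2877076), (nat_lit 0)]) (PF.cons (PF.leaf (nat_lit 8977639) (nat_lit 916736) (nat_lit 42242753) (nat_lit 7853250) [(nat_lit 916736), (nat_lit 2878097), (nat_lit 0)]) (PF.cons (PF.leaf (nat_lit 9480644) (nat_lit 922059) (nat_lit 41351343) (nat_lit 7798472) [(nat_lit 922059), (nat_lit 2876145), (nat_lit 0)]) (PF.cons (PF.leaf (nat_lit 9981297) (nat_lit 926022) (nat_lit 40475168) (nat_lit 7739585) [(nat_lit 926022), (nat_lit 2871470), (nat_lit 0)]) (PF.cons PF.nil PF.nil)))))))))) (PF.cons (PF.cons (PF.leaf (nat_lit 7125645) (nat_lit 2850215) (nat_lit 44888027) (nat_lit 7969705) [(nat_lit 0), (nat_lit 2850215), (nat_lit 0)]) (PF.cons (PF.leaf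 (nat_lit 7608598) (nat_lit 889277) (nat_lit 43994906) (nat_lit 7931688) [(nat_lit 889277), (nat_lit 2858588), (nat_lit 0)]) (PF.cons (PF.leaf (nat_lit 8096822) (nat_lit 898822) (nat_lit 43104894) (nat_lit 7888203) [(nat_lit 898822), (nat_lit 2863614), (nat_lit 0)]) (PF.cons (PF.leaf (nat_lit 8587941) (nat_lit 906603) (nat_lit 42221870) (nat_lit 7839686) [(nat_lit 906603), (nat_lit 2865489), (nat_lit 0)]) (PF.cons
 (PF.leaf (nat_lit 9080072) (nat_lit 912792) (nat_lit 41348905) (nat_lit 7786591) [(nat_lit 912792), (nat_lit 2864429), (nat_lit 0)]) (PF.cons (PF.leaf (nat_lit 9571618) (nat_lit 917542) (nat_lit 40488427) (nat_lit 7729378) [(nat_lit 917542), (nat_lit 2860658), (nat_lit 0)]) (PF.cons (PF.leaf (nat_lit 10061263) (nat_lit 920990) (nat_lit 39642351) (nat_lit 7668500) [(nat_lit 920990), (nat_lit 2854402), (nat_lit 0)]) (PF.cons PF.nil PF.nil)))))))) (PF.cons (PF.cons (PF.leaf (nat_lit 8219571) (nat_lit 2852342) (nat_lit 42170431) (nat_lit 7824324) [(nat_lit 0), (nat_lit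 2852342), (nat_lit 0)]) (PF.cons (PF.leaf (nat_lit 8698078) (nat_lit 902498) (nat_lit 41320475) (nat_lit 7773007) [(nat_lit 902498), (nat_lit 2852138), (nat_lit 0)]) (PF.cons (PF.leaf (nat_lit 9178322) (nat_lit 908174) (nat_lit 40479368) (nat_lit 7717559) [(nat_lit 908174), (nat_lit 2849256), (nat_lit 0)]) (PF.cons (PF.leaf (nat_lit 9658537) (nat_lit 912452) (nat_lit 39649666) (nat_lit 7658407) [(nat_lit 912452), (nat_lit 2843896), (nat_lit 0)]) (PF.cons (PF.leaf (nat_lit 10137335) (nat_lit 915473) (nat_lit 38833356) (nat_lit 7595973) [(nat_lit 915473), (nat_lit 2836265), (nat_lit 0)]) (PF.cons PF.nil PF.nil))))))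
 (PF.cons (PF.cons (PF.leaf (nat_lit 9273358) (nat_lit 2832746) (nat_lit 39633097) (nat_lit 7646490) [(nat_lit 0), (nat_lit 2832746), (nat_lit 0)]) (PF.cons (PF.leaf (nat_lit 9742136) (nat_lit 906825) (nat_lit 38834063) (nat_lit 7585857) [(nat_lit 906825), (nat_lit 2826009), (nat_lit 0)]) (PF.cons (PF.leaf (nat_lit 10210190) (nat_lit 909503) (nat_lit 38047215) (nat_lit 7522266) [(nat_lit 909503), (nat_lit 2817189), (nat_lit 0)]) (PF.cons (PF.leaf (nat_lit 10676199) (nat_lit 911083) (nat_lit 37274181) (nat_lit 7456095) [(nat_lit 911083), (nat_lit 2806469), (nat_lit 0)]) PF.nil)))) (PF.cons (PF.cons (PF.leaf (nat_lit 10280606) (nat_lit 2797289) (nat_lit 37282901) (nat_lit 7447596) [(nat_lit 0), (nat_lit 2797289), (nat_lit 0)]) (PF.cons (PF.leaf (nat_lit 10736366) (nat_lit 904451) (nat_lit 36537830) (nat_lit 7380884) [(nat_lit 904451), (nat_lit 2785705), (nat_lit 0)]) PF.nil)) (PF.cons PF.nil (PF.cons PF.nil (PF.cons PF.nil (PF.cons PF.nil PF.nil))))))))))))) (PF.cons (PF.cons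 (PF.cons (PF.leaf (nat_lit 3576972) (nat_lit 6500632) (nat_lit 52619012) (nat_lit 7989168) [(nat_lit 0), (nat_lit 0), (nat_lit 6500632)]) (PF.cons (PF.leaf (nat_lit 3962114) (nat_lit 722892) (nat_lit 51840110)
 (nat_lit 8011690) [(nat_lit 722892), (nat_lit 0), (nat_lit 6534119)]) (PF.cons (PF.leaf (nat_lit 4380440) (nat_lit 756076) (nat_lit 51005447) (nat_lit 8028453) [(nat_lit 756076), (nat_lit 0), (nat_lit 6562759)]) (PF.cons (PF.leaf (nat_lit 4824602) (nat_lit 784782) (nat_lit 50130805) (nat_lit 8038334) [(nat_lit 784782), (nat_lit 0), (nat_lit 6585324)]) (PF.cons (PF.leaf (nat_lit 5289129) (nat_lit 809721) (nat_lit 49228012) (nat_lit 8040752) [(nat_lit 809721), (nat_lit 0), (nat_lit 6601162)]) (PF.cons (PF.leaf (nat_lit 5769586) (nat_lit 831386) (nat_lit 48306375) (nat_lit 8035497) [(nat_lit 831386), (nat_lit 0), (nat_lit 6610006)]) (PF.cons (PF.leaf (nat_lit 6262252) (nat_lit 850152) (nat_lit 47373428) (nat_lit 8022618) [(nat_lit 850152), (nat_lit 0), (nat_lit 6611848)])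 (PF.cons (PF.leaf (nat_lit 6763974) (nat_lit 866318) (nat_lit 46435366) (nat_lit 8002349) [(nat_lit 866318), (nat_lit 0), (nat_lit 6606865)]) (PF.cons (PF.leaf (nat_lit 7272029) (nat_lit 880136) (nat_lit 45497324) (nat_lit 7975046) [(nat_lit 880136), (nat_lit 0), (nat_lit 6595352)]) (PF.cons (PF.leaf (nat_lit 7784048) (nat_lit 891822) (nat_lit 44563565) (nat_lit 7941152) [(nat_lit 891822), (nat_lit 0), (nat_lit
 6577690)]) (PF.cons (PF.leaf (nat_lit 8298015) (nat_lit 901572) (nat_lit 43637624) (nat_lit 7901157) [(nat_lit 901572), (nat_lit 0), (nat_lit 6554305)]) (PF.cons (PF.leaf (nat_lit 8812167) (nat_lit 909560) (nat_lit 42722416) (nat_lit 7855581) [(nat_lit 909560), (nat_lit 0), (nat_lit 6525654)]) (PF.cons (PF.leaf (nat_lit 9324991) (nat_lit 915944) (nat_lit 41820327) (nat_lit 7804950) [(nat_lit 915944), (nat_lit 0), (nat_lit 6492200)]) (PF.cons PF.nil (PF.cons PF.nil (PF.cons PF.nil PF.nil)))))))))))))))) (PF.cons (PF.cons (PF.leaf (nat_lit 4605763) (nat_lit 2695703)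 (nat_lit 49822157) (nat_lit 8020509) [(nat_lit 0), (nat_lit 2695703), (nat_lit 6570442)]) (PF.cons (PF.leaf (nat_lit 5033387) (nat_lit 789804) (nat_lit 48983656) (nat_lit 8021473) [(nat_lit 789804), (nat_lit 2729643), (nat_lit 6584234)]) (PF.cons (PF.leaf (nat_lit 5483129) (nat_lit 813632) (nat_lit 48114434) (nat_lit 8015701) [(nat_lit 813632), (nat_lit 2759332), (nat_lit 6592079)]) (PF.cons (PF.leaf (nat_lit 5949750) (nat_lit 834155) (nat_lit 47225067) (nat_lit 8002992) [(nat_lit 834155), (nat_lit 2784610), (nat_lit 6593675)]) (PF.cons (PF.leaf (nat_lit 6429198) (nat_lit 851802) (nat_lit 46323713) (nat_lit 7983392)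
 [(nat_lit 851802), (nat_lit 2805505), (nat_lit 6588992)]) (PF.cons (PF.leaf (nat_lit 6918133) (nat_lit 866901) (nat_lit 45416857) (nat_lit 7957119) [(nat_lit 866901), (nat_lit 2822155), (nat_lit 6578172)]) (PF.cons (PF.leaf (nat_lit 7413738) (nat_lit 879720) (nat_lit 44509745) (nat_lit 7924506) [(nat_lit 879720), (nat_lit 2834759), (nat_lit 6561479)]) (PF.cons (PF.leaf (nat_lit 7913616) (nat_lit 890484) (nat_lit 43606652) (nat_lit 7885961) [(nat_lit 890484), (nat_lit 2843554), (nat_lit 6539255)]) (PF.cons (PF.leaf (nat_lit 8415724) (nat_lit 899390) (nat_lit 42711071) (nat_lit 7841936) [(nat_lit 899390), (nat_lit 2848797), (nat_lit 6511885)]) (PF.cons (PF.leaf (nat_lit 8918313) (nat_lit 906612) (nat_lit 41825855) (nat_lit 7792909) [(nat_lit 906612), (nat_lit 2850752), (nat_lit 6479785)]) (PF.cons (PF.leaf (nat_lit 9419878) (nat_lit 912307) (nat_lit 40953313) (nat_lit 7739361) [(nat_lit 912307), (nat_lit 2849684), (nat_lit 6443377)]) (PF.cons (PF.leaf (nat_lit 9919129)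 (nat_lit 916618) (nat_lit 40095301) (nat_lit 7681771) [(nat_lit 916618), (nat_lit 2845851), (nat_lit 6403080)]) (PF.cons PF.nil (PF.cons PF.nil PF.nil)))))))))))))) (PF.cons (PF.cons (PF.leaf (nat_lit 5674924)
 (nat_lit 2767967) (nat_lit 47015383) (nat_lit 7982217) [(nat_lit 0), (nat_lit 2767967), (nat_lit 6575278)]) (PF.cons (PF.leaf (nat_lit 6126217) (nat_lit 835176) (nat_lit 46162032) (nat_lit 7963164) [(nat_lit 835176), (nat_lit 2788917), (nat_lit 6570604)]) (PF.cons (PF.leaf (nat_lit 6591613) (nat_lit 851964) (nat_lit 45294803) (nat_lit 7937846) [(nat_lit 851964), (nat_lit 2805976), (nat_lit 6560281)]) (PF.cons (PF.leaf (nat_lit 7067279) (nat_lit 866208) (nat_lit 44420849) (nat_lit 7906475) [(nat_lit 866208), (nat_lit 2819217), (nat_lit 6544427)]) (PF.cons (PF.leaf (nat_lit 7550199) (nat_lit 878205) (nat_lit 43545755) (nat_lit 7869366) [(nat_lit 878205), (nat_lit 2828796), (nat_lit 6523277)]) (PF.cons (PF.leaf (nat_lit 8037868) (nat_lit 888197) (nat_lit 42673964)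 (nat_lit 7826899) [(nat_lit 888197), (nat_lit 2834912), (nat_lit 6497139)]) (PF.cons (PF.leaf (nat_lit 8528181) (nat_lit 896388) (nat_lit 41809035) (nat_lit 7779496) [(nat_lit 896388), (nat_lit 2837790), (nat_lit 6466366)]) (PF.cons (PF.leaf (nat_lit 9019356) (nat_lit 902958) (nat_lit 40953835) (nat_lit 7727597) [(nat_lit 902958), (nat_lit 2837665), (nat_lit 6431335)]) (PF.cons (PF.leaf (nat_lit 9509880) (nat_lit 908064)
 (nat_lit 40110660) (nat_lit 7671648) [(nat_lit 908064), (nat_lit 2834777), (nat_lit 6392431)]) (PF.cons (PF.leaf (nat_lit 9998479) (nat_lit 911847) (nat_lit 39281337) (nat_lit 7612087) [(nat_lit 911847), (nat_lit 2829361), (nat_lit 6350040)]) (PF.cons PF.nil (PF.cons PF.nil PF.nil)))))))))))) (PF.cons (PF.cons (PF.leaf (nat_lit 6751144) (nat_lit 2803410) (nat_lit 44285645) (nat_lit 7886625) [(nat_lit 0), (nat_lit 2803410), (nat_lit 6526312)]) (PF.cons (PF.leaf (nat_lit 7212684) (nat_lit 864291) (nat_lit 43446462) (nat_lit 7851012) [(nat_lit 864291),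 (nat_lit 2813623), (nat_lit 6506175)]) (PF.cons (PF.leaf (nat_lit 7682502) (nat_lit 875648) (nat_lit 42604544) (nat_lit 7810166) [(nat_lit 875648), (nat_lit 2820521), (nat_lit 6481239)]) (PF.cons (PF.leaf (nat_lit 8157769) (nat_lit 885019) (nat_lit 41764707) (nat_lit 7764453) [(nat_lit 885019), (nat_lit 2824269), (nat_lit 6451786)]) (PF.cons (PF.leaf (nat_lit 8636247) (nat_lit 892625) (nat_lit 40930717) (nat_lit 7714270) [(nat_lit 892625), (nat_lit 2825060), (nat_lit 6418141)]) (PF.cons (PF.leaf (nat_lit 9116090) (nat_lit 898653) (nat_lit 40105545) (nat_lit 7660030) [(nat_lit 898653), (nat_lit 2823106), (nat_lit 6380651)]) (PF.cons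
 (PF.leaf (nat_lit 9595728) (nat_lit 903264) (nat_lit 39291541) (nat_lit 7602148) [(nat_lit 903264), (nat_lit 2818621), (nat_lit 6339672)]) (PF.cons (PF.leaf (nat_lit 10073858) (nat_lit 906601) (nat_lit 38490558) (nat_lit 7541028) [(nat_lit 906601), (nat_lit 2811820), (nat_lit 6295555)]) (PF.cons PF.nil (PF.cons PF.nil PF.nil)))))))))) (PF.cons (PF.cons (PF.leaf (nat_lit 7811945) (nat_lit 2810171) (nat_lit 41684984) (nat_lit 7747360) [(nat_lit 0), (nat_lit 2810171), (nat_lit 6435782)]) (PF.cons (PF.leaf (nat_lit 8274331) (nat_lit 880991) (nat_lit 40877870) (nat_lit 7699036) [(nat_lit 880991), (nat_lit 2811835), (nat_lit 6403573)]) (PF.cons (PF.leaf (nat_lit 8740812) (nat_lit 888141) (nat_lit 40075163) (nat_lit 7646631) [(nat_lit 888141), (nat_lit 2810796), (nat_lit 6367550)]) (PF.cons (PF.leaf (nat_lit 9209284) (nat_lit 893736) (nat_lit 39280064) (nat_lit 7590539) [(nat_lit 893736), (nat_lit 2807241), (nat_lit 6328036)]) (PF.cons (PF.leaf (nat_lit 9678101) (nat_lit 897945)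 (nat_lit 38495058) (nat_lit 7531152) [(nat_lit 897945), (nat_lit 2801363), (nat_lit 6285364)]) (PF.cons (PF.leaf (nat_lit 10145897) (nat_lit 900917) (nat_lit 37722078) (nat_lit 7468850) [(nat_lit 900917),
 (nat_lit 2793359), (nat_lit 6239859)]) (PF.cons PF.nil (PF.cons PF.nil PF.nil)))))))) (PF.cons (PF.cons (PF.leaf (nat_lit 8842887) (nat_lit 2795159) (nat_lit 39241252) (nat_lit 7576884) [(nat_lit 0), (nat_lit 2795159), (nat_lit 6314876)]) (PF.cons (PF.leaf (nat_lit 9299730) (nat_lit 888237) (nat_lit 38476358) (nat_lit 7519399) [(nat_lit 888237), (nat_lit 2790214), (nat_lit 6273745)]) (PF.cons (PF.leaf (nat_lit 9757699) (nat_lit 892139) (nat_lit 37720233) (nat_lit 7458905) [(nat_lit 892139), (nat_lit 2783132), (nat_lit 6229734)]) (PF.cons (PF.leaf (nat_lit 10215231) (nat_lit 894824) (nat_lit 36974964) (nat_lit 7395767) [(nat_lit 894824), (nat_lit 2774091), (nat_lit 6183151)]) (PF.cons (PF.leaf (nat_lit 10671120) (nat_lit 896426) (nat_lit 36242144) (nat_lit 7330331) [(nat_lit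 896426), (nat_lit 2763267), (nat_lit 6134294)]) (PF.cons PF.nil PF.nil)))))) (PF.cons (PF.cons (PF.leaf (nat_lit 9835343) (nat_lit 2764037) (nat_lit 36966005) (nat_lit 7385610) [(nat_lit 0), (nat_lit 2764037), (nat_lit 6172972)]) (PF.cons (PF.leaf (nat_lit 10282460) (nat_lit 888343) (nat_lit 36248228) (nat_lit 7321960) [(nat_lit 888343), (nat_lit 2754113), (nat_lit 6125600)]) (PF.cons (PF.leaf (nat_lit
 10728637) (nat_lit 889752) (nat_lit 35541686) (nat_lit 7256216) [(nat_lit 889752), (nat_lit 2742541), (nat_lit 6076154)]) (PF.cons PF.nil PF.nil)))) (PF.cons (PF.cons (PF.leaf (nat_lit 10784763) (nat_lit 2721316) (nat_lit 34860271) (nat_lit 7181781) [(nat_lit 0), (nat_lit 2721316), (nat_lit 6017542)]) (PF.cons PF.nil PF.nil)) (PF.cons PF.nil (PF.cons PF.nil (PF.cons PF.nil PF.nil))))))))))) (PF.cons (PF.cons (PF.cons (PF.leaf (nat_lit 5381477) (nat_lit 6497791) (nat_lit 46219719) (nat_lit 7893509) [(nat_lit 0), (nat_lit 0), (nat_lit 6497791)]) (PF.cons (PF.leaf (nat_lit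 5800089) (nat_lit 801216) (nat_lit 45443775) (nat_lit 7875802) [(nat_lit 801216), (nat_lit 0), (nat_lit 6494008)]) (PF.cons (PF.leaf (nat_lit 6237904) (nat_lit 821330) (nat_lit 44643575) (nat_lit 7852331) [(nat_lit 821330), (nat_lit 0), (nat_lit 6485122)]) (PF.cons (PF.leaf (nat_lit 6689957) (nat_lit 838276) (nat_lit 43828573) (nat_lit 7823192) [(nat_lit 838276), (nat_lit 0), (nat_lit 6471108)]) (PF.cons (PF.leaf (nat_lit 7152518) (nat_lit 852536) (nat_lit 43005881) (nat_lit 7788603) [(nat_lit 852536), (nat_lit 0), (nat_lit 6452090)]) (PF.cons (PF.leaf (nat_lit 7622584) (nat_lit 864467) (nat_lit 42181020) (nat_lit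
 7748867) [(nat_lit 864467), (nat_lit 0), (nat_lit 6428293)]) (PF.cons (PF.leaf (nat_lit 8097663) (nat_lit 874352) (nat_lit 41358353) (nat_lit 7704339) [(nat_lit 874352), (nat_lit 0), (nat_lit 6400003)]) (PF.cons (PF.leaf (nat_lit 8575681) (nat_lit 882421) (nat_lit 40541364) (nat_lit 7655406) [(nat_lit 882421), (nat_lit 0), (nat_lit 6367544)]) (PF.cons (PF.leaf (nat_lit 9054891) (nat_lit 888871) (nat_lit 39732848) (nat_lit 7602469) [(nat_lit 888871), (nat_lit 0), (nat_lit 6331261)]) (PF.cons (PF.leaf (nat_lit 9533794) (nat_lit 893870) (nat_lit 38935040) (nat_lit 7545931) [(nat_lit 893870), (nat_lit 0), (nat_lit 6291502)]) (PF.cons (PF.leaf (nat_lit 10011155) (nat_lit 897567) (nat_lit 38149718) (nat_lit 7486187) [(nat_lit 897567), (nat_lit 0), (nat_lit 6248618)]) (PF.cons PF.nil (PF.cons PF.nil (PF.cons PF.nil PF.nil)))))))))))))) (PF.cons (PF.cons (PF.leaf (nat_lit 6405483) (nat_lit 2753867) (nat_lit 43650024) (nat_lit 7801434) [(nat_lit 0), (nat_lit 2753867), (nat_lit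 6451743)]) (PF.cons (PF.leaf (nat_lit 6842402) (nat_lit 836226) (nat_lit 42870471) (nat_lit 7768443) [(nat_lit 836226), (nat_lit 2766239), (nat_lit 6433716)]) (PF.cons (PF.leaf (nat_lit 7291309) (nat_lit 849979)
 (nat_lit 42080927) (nat_lit 7730408) [(nat_lit 849979), (nat_lit 2775291), (nat_lit 6411113)]) (PF.cons (PF.leaf (nat_lit 7748678) (nat_lit 861377) (nat_lit 41287590) (nat_lit 7687639) [(nat_lit 861377), (nat_lit 2781153), (nat_lit 6384148)]) (PF.cons (PF.leaf (nat_lit 8211796) (nat_lit 870734) (nat_lit 40495201) (nat_lit 7640484) [(nat_lit 870734), (nat_lit 2784004), (nat_lit 6353091)]) (PF.cons (PF.leaf (nat_lit 8678446) (nat_lit 878302) (nat_lit 39707458) (nat_lit 7589315) [(nat_lit 878302), (nat_lit 2784043), (nat_lit 6318242)]) (PF.cons (PF.leaf (nat_lit 9146787) (nat_lit 884284) (nat_lit 38927270) (nat_lit 7534510) [(nat_lit 884284), (nat_lit 2781481), (nat_lit 6279922)]) (PF.cons (PF.leaf (nat_lit 9615297) (nat_lit 888854) (nat_lit 38156937) (nat_lit 7476449)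 [(nat_lit 888854), (nat_lit 2776528), (nat_lit 6238456)]) (PF.cons (PF.leaf (nat_lit 10082662) (nat_lit 892164) (nat_lit 37398271) (nat_lit 7415502) [(nat_lit 892164), (nat_lit 2769394), (nat_lit 6194165)]) (PF.cons PF.nil (PF.cons PF.nil (PF.cons PF.nil PF.nil)))))))))))) (PF.cons (PF.cons (PF.leaf (nat_lit 7428559) (nat_lit 2765945) (nat_lit 41175052) (nat_lit 7668541) [(nat_lit 0), (nat_lit 2765945), (nat_lit
 6366663)]) (PF.cons (PF.leaf (nat_lit 7872428) (nat_lit 857345) (nat_lit 40414506) (nat_lit 7623380) [(nat_lit 857345), (nat_lit 2769697), (nat_lit 6337092)]) (PF.cons (PF.leaf (nat_lit 8323191) (nat_lit 866330) (nat_lit 39653088) (nat_lit 7574157) [(nat_lit 866330), (nat_lit 2770694), (nat_lit 6303759)]) (PF.cons (PF.leaf (nat_lit 8778275) (nat_lit 873519) (nat_lit 38894889) (nat_lit 7521238) [(nat_lit 873519), (nat_lit 2769108), (nat_lit 6266954)]) (PF.cons (PF.leaf (nat_lit 9235702) (nat_lit 879137) (nat_lit 38143051) (nat_lit 7464993) [(nat_lit 879137), (nat_lit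 2765129), (nat_lit 6226979)]) (PF.cons (PF.leaf (nat_lit 9693832) (nat_lit 883366) (nat_lit 37400016) (nat_lit 7405783) [(nat_lit 883366), (nat_lit 2758948), (nat_lit 6184141)]) (PF.cons (PF.leaf (nat_lit 10151324) (nat_lit 886363) (nat_lit 36667681) (nat_lit 7343959) [(nat_lit 886363), (nat_lit 2750754), (nat_lit 6138739)]) (PF.cons PF.nil (PF.cons PF.nil (PF.cons PF.nil PF.nil)))))))))) (PF.cons (PF.cons (PF.leaf (nat_lit 8432995) (nat_lit 2755965) (nat_lit 38830752) (nat_lit 7505628) [(nat_lit 0), (nat_lit 2755965), (nat_lit 6252267)]) (PF.cons (PF.leaf (nat_lit 8876031) (nat_lit 868091) (nat_lit 38102551) (nat_lit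
 7451427) [(nat_lit 868091), (nat_lit 2752969), (nat_lit 6213916)]) (PF.cons (PF.leaf (nat_lit 9322355) (nat_lit 873452) (nat_lit 37379182) (nat_lit 7394144) [(nat_lit 873452), (nat_lit 2747763), (nat_lit 6172645)]) (PF.cons (PF.leaf (nat_lit 9770057) (nat_lit 877430) (nat_lit 36663331) (nat_lit 7334135) [(nat_lit 877430), (nat_lit 2740520), (nat_lit 6128746)]) (PF.cons (PF.leaf (nat_lit 10217695) (nat_lit 880189) (nat_lit 35957053) (nat_lit 7271737) [(nat_lit 880189), (nat_lit 2731417), (nat_lit 6082506)]) (PF.cons (PF.leaf (nat_lit 10664063) (nat_lit 881870) (nat_lit 35261923) (nat_lit 7207270) [(nat_lit 881870), (nat_lit 2720622), (nat_lit 6034199)]) (PF.cons PF.nil (PF.cons PF.nil PF.nil)))))))) (PF.cons (PF.cons (PF.leaf (nat_lit 9407651) (nat_lit 2729487) (nat_lit 36634531) (nat_lit 7322146) [(nat_lit 0), (nat_lit 2729487), (nat_lit 6117092)]) (PF.cons (PF.leaf (nat_lit 9844632) (nat_lit 871058) (nat_lit 35945862) (nat_lit 7261669) [(nat_lit 871058), (nat_lit 2721340),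 (nat_lit 6072429)]) (PF.cons (PF.leaf (nat_lit 10282346) (nat_lit 873656) (nat_lit 35265442) (nat_lit 7198982) [(nat_lit 873656), (nat_lit 2711465), (nat_lit 6025606)]) (PF.cons (PF.leaf (nat_lit 10719383)
 (nat_lit 875184) (nat_lit 34595010) (nat_lit 7134396) [(nat_lit 875184), (nat_lit 2700019), (nat_lit 5976887)]) (PF.cons PF.nil (PF.cons PF.nil PF.nil)))))) (PF.cons (PF.cons (PF.leaf (nat_lit 10346006) (nat_lit 2690971) (nat_lit 34591844) (nat_lit 7125809) [(nat_lit 0), (nat_lit 2690971), (nat_lit 5968150)]) (PF.cons (PF.leaf (nat_lit 10773521) (nat_lit 868212) (nat_lit 33945862) (nat_lit 7061337) [(nat_lit 868212), (nat_lit 2678989), (nat_lit 5919227)]) (PF.cons PF.nil (PF.cons PF.nil PF.nil)))) (PF.cons (PF.cons (PF.leaf (nat_lit 11244723) (nat_lit 2643930) (nat_lit 32700683) (nat_lit 6922639) [(nat_lit 0), (nat_lit 2643930), (nat_lit 5810954)]) (PF.cons PF.nil PF.nil)) (PF.cons PF.nil (PF.cons PF.nil (PF.cons PF.nil PF.nil)))))))))) (PF.cons (PF.cons (PF.cons (PF.leaf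 (nat_lit 7072618) (nat_lit 6295545) (nat_lit 40634787) (nat_lit 7587389) [(nat_lit 0), (nat_lit 0), (nat_lit 6295545)]) (PF.cons (PF.leaf (nat_lit 7494765) (nat_lit 830754) (nat_lit 39926000) (nat_lit 7545656) [(nat_lit 830754), (nat_lit 0), (nat_lit 6268800)]) (PF.cons (PF.leaf (nat_lit 7927311) (nat_lit 842138) (nat_lit 39209774) (nat_lit 7499821) [(nat_lit 842138), (nat_lit 0), (nat_lit 6238313)]) (PF.cons
 (PF.leaf (nat_lit 8366983) (nat_lit 851342) (nat_lit 38491496) (nat_lit 7450244) [(nat_lit 851342), (nat_lit 0), (nat_lit 6204348)]) (PF.cons (PF.leaf (nat_lit 8811323) (nat_lit 858688) (nat_lit 37775224) (nat_lit 7397279) [(nat_lit 858688), (nat_lit 0), (nat_lit 6167184)]) (PF.cons (PF.leaf (nat_lit 9258349) (nat_lit 864426) (nat_lit 37064072) (nat_lit 7341276) [(nat_lit 864426), (nat_lit 0), (nat_lit 6127110)]) (PF.cons (PF.leaf (nat_lit 9706424) (nat_lit 868756) (nat_lit 36360458) (nat_lit 7282577) [(nat_lit 868756), (nat_lit 0), (nat_lit 6084412)]) (PF.cons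 (PF.leaf (nat_lit 10154221) (nat_lit 871847) (nat_lit 35666267) (nat_lit 7221505) [(nat_lit 871847), (nat_lit 0), (nat_lit 6039369)]) (PF.cons PF.nil (PF.cons PF.nil PF.nil)))))))))) (PF.cons (PF.cons (PF.leaf (nat_lit 8045896) (nat_lit 2714780) (nat_lit 38397883) (nat_lit 7432377) [(nat_lit 0), (nat_lit 2714780), (nat_lit 6187923)]) (PF.cons (PF.leaf (nat_lit 8472777) (nat_lit 845897) (nat_lit 37709781) (nat_lit 7381662) [(nat_lit 845897), (nat_lit 2713952), (nat_lit 6152506)]) (PF.cons (PF.leaf (nat_lit 8905530) (nat_lit 853065) (nat_lit 37021811) (nat_lit 7327752) [(nat_lit 853065), (nat_lit 2710810), (nat_lit 6114102)])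
 (PF.cons (PF.leaf (nat_lit 9341804) (nat_lit 858603) (nat_lit 36337480) (nat_lit 7271004) [(nat_lit 858603), (nat_lit 2705529), (nat_lit 6072996)]) (PF.cons (PF.leaf (nat_lit 9779816) (nat_lit 862730) (nat_lit 35659450) (nat_lit 7211755) [(nat_lit 862730), (nat_lit 2698285), (nat_lit 6029466)]) (PF.cons (PF.leaf (nat_lit 10218113) (nat_lit 865625) (nat_lit 34989759) (nat_lit 7150324) [(nat_lit 865625), (nat_lit 2689253), (nat_lit 5983783)]) (PF.cons (PF.leaf (nat_lit 10655497) (nat_lit 867436) (nat_lit 34329976) (nat_lit 7087009) [(nat_lit 867436), (nat_lit 2678600), (nat_lit 5936202)]) (PF.cons PF.nil PF.nil)))))))) (PF.cons (PF.cons (PF.leaf (nat_lit 8999142) (nat_lit 2693377) (nat_lit 36286017) (nat_lit 7256950) [(nat_lit 0), (nat_lit 2693377), (nat_lit 6059696)]) (PF.cons (PF.leaf (nat_lit 9424176) (nat_lit 852280) (nat_lit 35628794) (nat_lit 7199806) [(nat_lit 852280), (nat_lit 2687165), (nat_lit 6017866)]) (PF.cons (PF.leaf (nat_lit 9851914) (nat_lit 856295) (nat_lit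 34976358) (nat_lit 7140304) [(nat_lit 856295), (nat_lit 2679123), (nat_lit 5973770)]) (PF.cons (PF.leaf (nat_lit 10280624) (nat_lit 859068) (nat_lit 34330995) (nat_lit 7078766) [(nat_lit 859068), (nat_lit
 2669412), (nat_lit 5927673)]) (PF.cons (PF.leaf (nat_lit 10709012) (nat_lit 860760) (nat_lit 33694434) (nat_lit 7015485) [(nat_lit 860760), (nat_lit 2658189), (nat_lit 5879824)]) (PF.cons PF.nil PF.nil)))))) (PF.cons (PF.cons (PF.leaf (nat_lit 9923524) (nat_lit 2659368) (nat_lit 34310112) (nat_lit 7068322) [(nat_lit 0), (nat_lit 2659368), (nat_lit 5917423)]) (PF.cons (PF.leaf (nat_lit 10342332) (nat_lit 852180) (nat_lit 33689019) (nat_lit 7006923) [(nat_lit 852180), (nat_lit 2649097), (nat_lit 5871132)]) (PF.cons (PF.leaf (nat_lit 10761618) (nat_lit 853816) (nat_lit 33075465) (nat_lit 6943883) [(nat_lit 853816), (nat_lit 2637408), (nat_lit 5823201)]) (PF.cons PF.nil PF.nil)))) (PF.cons (PF.cons (PF.leaf (nat_lit 10813957) (nat_lit 2616303) (nat_lit 32472150) (nat_lit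 6872261) [(nat_lit 0), (nat_lit 2616303), (nat_lit 5766395)]) (PF.cons (PF.leaf (nat_lit 11223696) (nat_lit 847283) (nat_lit 31889277) (nat_lit 6808365) [(nat_lit 847283), (nat_lit 2603043), (nat_lit 5717236)]) PF.nil)) (PF.cons PF.nil (PF.cons PF.nil (PF.cons PF.nil PF.nil)))))))) (PF.cons (PF.cons (PF.cons (PF.leaf (nat_lit 8611959) (nat_lit 6000499) (nat_lit 35917129) (nat_lit 7189684) [(nat_lit 0), (nat_lit 0),
 (nat_lit 6000499)]) (PF.cons (PF.leaf (nat_lit 9022752) (nat_lit 831545) (nat_lit 35294459) (nat_lit 7136095) [(nat_lit 831545), (nat_lit 0), (nat_lit 5961677)]) (PF.cons (PF.leaf (nat_lit 9438665) (nat_lit 837312) (nat_lit 34672418) (nat_lit 7079958) [(nat_lit 837312), (nat_lit 0), (nat_lit 5920453)]) (PF.cons (PF.leaf (nat_lit 9857511) (nat_lit 841588) (nat_lit 34054039) (nat_lit 7021613) [(nat_lit 841588), (nat_lit 0), (nat_lit 5877098)]) (PF.cons (PF.leaf (nat_lit 10277675) (nat_lit 844590) (nat_lit 33441604) (nat_lit 6961369) [(nat_lit 844590), (nat_lit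 0), (nat_lit 5831869)]) (PF.cons (PF.leaf (nat_lit 10697852) (nat_lit 846488) (nat_lit 32836846) (nat_lit 6899505) [(nat_lit 846488), (nat_lit 0), (nat_lit 5785004)]) (PF.cons PF.nil (PF.cons PF.nil PF.nil)))))))) (PF.cons (PF.cons (PF.leaf (nat_lit 9518871) (nat_lit 2626263) (nat_lit 34012857) (nat_lit 7009073) [(nat_lit 0), (nat_lit 2626263), (nat_lit 5865154)]) (PF.cons (PF.leaf (nat_lit 9927228) (nat_lit 834722) (nat_lit 33418788) (nat_lit 6950917) [(nat_lit 834722), (nat_lit 2617858), (nat_lit 5821631)]) (PF.cons (PF.leaf (nat_lit 10337877) (nat_lit 837716) (nat_lit 32829220) (nat_lit 6890935) [(nat_lit 837716), (nat_lit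
 2607919), (nat_lit 5776326)]) (PF.cons (PF.leaf (nat_lit 10749221) (nat_lit 839587) (nat_lit 32246123) (nat_lit 6829415) [(nat_lit 839587), (nat_lit 2596596), (nat_lit 5729478)]) (PF.cons PF.nil (PF.cons PF.nil PF.nil)))))) (PF.cons (PF.cons (PF.leaf (nat_lit 10398254) (nat_lit 2587466) (nat_lit 32231499) (nat_lit 6820367) [(nat_lit 0), (nat_lit 2587466), (nat_lit 5720503)]) (PF.cons (PF.leaf (nat_lit 10800421) (nat_lit 832428) (nat_lit 31669996) (nat_lit 6759376) [(nat_lit 832428), (nat_lit 2575826), (nat_lit 5673839)]) (PF.cons PF.nil (PF.cons PF.nil PF.nil)))) (PF.cons (PF.cons (PF.leaf (nat_lit 11246017) (nat_lit 2541812) (nat_lit 30573122) (nat_lit 6627925) [(nat_lit 0), (nat_lit 2541812), (nat_lit 5570581)]) (PF.cons PF.nil PF.nil)) (PF.cons PF.nil (PF.cons PF.nil PF.nil)))))) (PF.cons (PF.cons (PF.cons (PF.leaf (nat_lit 9999116) (nat_lit 5673073) (nat_lit 31976729) (nat_lit 6766716) [(nat_lit 0), (nat_lit 0), (nat_lit 5673073)]) (PF.cons (PF.leaf (nat_lit 10392042)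 (nat_lit 816211) (nat_lit 31438540) (nat_lit 6708810) [(nat_lit 816211), (nat_lit 0), (nat_lit 5629050)]) (PF.cons (PF.leaf (nat_lit 10786966) (nat_lit 818426) (nat_lit 30904459) (nat_lit 6649469) [(nat_lit
 818426), (nat_lit 0), (nat_lit 5583606)]) (PF.cons PF.nil PF.nil)))) (PF.cons (PF.cons (PF.leaf (nat_lit 10838068) (nat_lit 2515522) (nat_lit 30366529) (nat_lit 6581148) [(nat_lit 0), (nat_lit 2515522), (nat_lit 5529122)]) (PF.cons (PF.leaf (nat_lit 11224973) (nat_lit 812356) (nat_lit 29857465) (nat_lit 6521408) [(nat_lit 812356), (nat_lit 2503047), (nat_lit 5482907)]) PF.nil)) (PF.cons PF.nil (PF.cons PF.nil PF.nil)))) (PF.cons (PF.cons (PF.cons (PF.leaf (nat_lit 11248011) (nat_lit 5344880) (nat_lit 28687328) (nat_lit 6352199) [(nat_lit 0), (nat_lit 0), (nat_lit 5344880)]) (PF.cons PF.nil PF.nil)) (PF.cons PF.nil PF.nil)) (PF.cons PF.nil (PF.cons PF.nil (PF.cons PF.nil PF.nil))))))))))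

def p12_21_1_0 : pfC (piC [(nat_lit 33242365), (nat_lit 21715570), (nat_lit 14024239)] (nat_lit 12006452)) p12_21_1 (nat_lit 3) (nat_lit 0) (nat_lit 1) = true := by decide +kernel
def p12_21_1_1 : pfC (piC [(nat_lit 33242365), (nat_lit 21715570), (nat_lit 14024239)] (nat_lit 12006452)) p12_21_1 (nat_lit 3) (nat_lit 1) (nat_lit 2) = true := by decide +kernel
def p12_21_1_2 : pfC (piC [(nat_lit 33242365), (nat_lit 21715570), (nat_lit 14024239)] (nat_lit 12006452)) p12_21_1 (nat_lit 3) (nat_lit 2) (nat_lit 3) = true := by decide +kernel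
def p12_21_1_3 : pfC (piC [(nat_lit 33242365), (nat_lit 21715570), (nat_lit 14024239)] (nat_lit 12006452)) p12_21_1 (nat_lit 3) (nat_lit 3) (nat_lit 4) = true := by decide +kernel
def p12_21_1_4 : pfC (piC [(nat_lit 33242365), (nat_lit 21715570), (nat_lit 14024239)] (nat_lit 12006452)) p12_21_1 (nat_lit 3) (nat_lit 4) (nat_lit 5) = true := by decide +kernel
def p12_21_1_5 : pfC (piC [(nat_lit 33242365), (nat_lit 21715570), (nat_lit 14024239)] (nat_lit 12006452)) p12_21_1 (nat_lit 3) (nat_lit 5) (nat_lit 6) = true := by decide +kernel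
def p12_21_1_6 : pfC (piC [(nat_lit 33242365), (nat_lit 21715570), (nat_lit 14024239)] (nat_lit 12006452)) p12_21_1 (nat_lit 3) (nat_lit 6) (nat_lit 7) = true := by decide +kernel
def p12_21_1_7 : pfC (piC [(nat_lit 33242365), (nat_lit 21715570), (nat_lit 14024239)] (nat_lit 12006452)) p12_21_1 (nat_lit 3) (nat_lit 7) (nat_lit 8) = true := by decide +kernel
def p12_21_1_8 : pfC (piC [(nat_lit 33242365), (nat_lit 21715570), (nat_lit 14024239)] (nat_lit 12006452)) p12_21_1 (nat_lit 3) (nat_lit 8) (nat_lit 9) = true := by decide +kernel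
def p12_21_1_9 : pfC (piC [(nat_lit 33242365), (nat_lit 21715570), (nat_lit 14024239)] (nat_lit 12006452)) p12_21_1 (nat_lit 3) (nat_lit 9) (nat_lit 10) = true := by decide +kernel
def p12_21_1_10 : pfC (piC [(nat_lit 33242365), (nat_lit 21715570), (nat_lit 14024239)] (nat_lit 12006452)) p12_21_1 (nat_lit 3) (nat_lit 10) (nat_lit 11) = true := by decide +kernel
def p12_21_1_11 : pfC (piC [(nat_lit 33242365), (nat_lit 21715570), (nat_lit 14024239)] (nat_lit 12006452)) p12_21_1 (nat_lit 3) (nat_lit 11) (nat_lit 12) = true := by decide +kernel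
def p12_21_1_12 : pfC (piC [(nat_lit 33242365), (nat_lit 21715570), (nat_lit 14024239)] (nat_lit 12006452)) p12_21_1 (nat_lit 3) (nat_lit 12) (nat_lit 13) = true := by decide +kernel
def p12_21_1_13 : pfC (piC [(nat_lit 33242365), (nat_lit 21715570), (nat_lit 14024239)] (nat_lit 12006452)) p12_21_1 (nat_lit 3) (nat_lit 13) (nat_lit 14) = true := by decide +kernel
def p12_21_1_14 : pfC (piC [(nat_lit 33242365), (nat_lit 21715570), (nat_lit 14024239)] (nat_lit 12006452)) p12_21_1 (nat_lit 3) (nat_lit 14) (nat_lit 15) = true := by decide +kernel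
def p12_21_1_15 : pfC (piC [(nat_lit 33242365), (nat_lit 21715570), (nat_lit 14024239)] (nat_lit 12006452)) p12_21_1 (nat_lit 3) (nat_lit 15) (nat_lit 16) = true := by decide +kernel
def p12_21_1_16 : pfC (piC [(nat_lit 33242365), (nat_lit 21715570), (nat_lit 14024239)] (nat_lit 12006452)) p12_21_1 (nat_lit 3) (nat_lit 16) (nat_lit 17) = true := by decide +kernel
def p12_21_1_17 : pfC (piC [(nat_lit 33242365), (nat_lit 21715570), (nat_lit 14024239)] (nat_lit 12006452)) p12_21_1 (nat_lit 3) (nat_lit 17) (nat_lit 18) = true := by decide +kernel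
def p12_21_1_18 : pfC (piC [(nat_lit 33242365), (nat_lit 21715570), (nat_lit 14024239)] (nat_lit 12006452)) p12_21_1 (nat_lit 3) (nat_lit 18) (nat_lit 19) = true := by decide +kernel
def p12_21_1_19 : pfC (piC [(nat_lit 33242365), (nat_lit 21715570), (nat_lit 14024239)] (nat_lit 12006452)) p12_21_1 (nat_lit 3) (nat_lit 19) (nat_lit 20) = true := by decide +kernel
def p12_21_1_20 : pfC (piC [(nat_lit 33242365), (nat_lit 21715570), (nat_lit 14024239)] (nat_lit 12006452)) p12_21_1 (nat_lit 3) (nat_lit 20) (nat_lit 21) = true := by decide +kernel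
def p12_21_1_21 : pfC (piC [(nat_lit 33242365), (nat_lit 21715570), (nat_lit 14024239)] (nat_lit 12006452)) p12_21_1 (nat_lit 3) (nat_lit 21) (nat_lit 22) = true := by decide +kernel
def p12_21_1_22 : pfC (piC [(nat_lit 33242365), (nat_lit 21715570), (nat_lit 14024239)] (nat_lit 12006452)) p12_21_1 (nat_lit 3) (nat_lit 22) (nat_lit 23) = true := by decide +kernel
def p12_21_1_23 : pfC (piC [(nat_lit 33242365), (nat_lit 21715570), (nat_lit 14024239)] (nat_lit 12006452)) p12_21_1 (nat_lit 3) (nat_lit 23) (nat_lit 24) = true := by decide +kernel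
def p12_21_1_24 : pfC (piC [(nat_lit 33242365), (nat_lit 21715570), (nat_lit 14024239)] (nat_lit 12006452)) p12_21_1 (nat_lit 3) (nat_lit 24) (nat_lit 25) = true := by decide +kernel
def p12_21_1_25 : pfC (piC [(nat_lit 33242365), (nat_lit 21715570), (nat_lit 14024239)] (nat_lit 12006452)) p12_21_1 (nat_lit 3) (nat_lit 25) (nat_lit 26) = true := by decide +kernel
def p12_21_1_26 : pfC (piC [(nat_lit 33242365), (nat_lit 21715570), (nat_lit 14024239)] (nat_lit 12006452)) p12_21_1 (nat_lit 3) (nat_lit 26) (nat_lit 27) = true := by decide +kernel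
def p12_21_1_27 : pfC (piC [(nat_lit 33242365), (nat_lit 21715570), (nat_lit 14024239)] (nat_lit 12006452)) p12_21_1 (nat_lit 3) (nat_lit 27) (nat_lit 28) = true := by decide +kernel
def p12_21_1_28 : pfC (piC [(nat_lit 33242365), (nat_lit 21715570), (nat_lit 14024239)] (nat_lit 12006452)) p12_21_1 (nat_lit 3) (nat_lit 28) (nat_lit 29) = true := by decide +kernel
def p12_21_1_29 : pfC (piC [(nat_lit 33242365), (nat_lit 21715570), (nat_lit 14024239)] (nat_lit 12006452)) p12_21_1 (nat_lit 3) (nat_lit 29) (nat_lit 30) = true := by decide +kernel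
def p12_21_1_30 : pfC (piC [(nat_lit 33242365), (nat_lit 21715570), (nat_lit 14024239)] (nat_lit 12006452)) p12_21_1 (nat_lit 3) (nat_lit 30) (nat_lit 31) = true := by decide +kernel
def p12_21_1_31 : pfC (piC [(nat_lit 33242365), (nat_lit 21715570), (nat_lit 14024239)] (nat_lit 12006452)) p12_21_1 (nat_lit 3) (nat_lit 31) (nat_lit 32) = true := by decide +kernel
def p12_21_1_32 : pfC (piC [(nat_lit 33242365), (nat_lit 21715570), (nat_lit 14024239)] (nat_lit 12006452)) p12_21_1 (nat_lit 3) (nat_lit 32) (nat_lit 33) = true := by decide +kernel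
def p12_21_1_33 : pfC (piC [(nat_lit 33242365), (nat_lit 21715570), (nat_lit 14024239)] (nat_lit 12006452)) p12_21_1 (nat_lit 3) (nat_lit 33) (nat_lit 34) = true := by decide +kernel
def p12_21_1_34 : pfC (piC [(nat_lit 33242365), (nat_lit 21715570), (nat_lit 14024239)] (nat_lit 12006452)) p12_21_1 (nat_lit 3) (nat_lit 34) (nat_lit 35) = true := by decide +kernel
def p12_21_1_35 : pfC (piC [(nat_lit 33242365), (nat_lit 21715570), (nat_lit 14024239)] (nat_lit 12006452)) p12_21_1 (nat_lit 3) (nat_lit 35) (nat_lit 36) = true := by decide +kernel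
def p12_21_1_36 : pfC (piC [(nat_lit 33242365), (nat_lit 21715570), (nat_lit 14024239)] (nat_lit 12006452)) p12_21_1 (nat_lit 3) (nat_lit 36) (nat_lit 37) = true := by decide +kernel
def p12_21_1_37 : pfC (piC [(nat_lit 33242365), (nat_lit 21715570), (nat_lit 14024239)] (nat_lit 12006452)) p12_21_1 (nat_lit 3) (nat_lit 37) (nat_lit 38) = true := by decide +kernel
def p12_21_1_38 : pfC (piC [(nat_lit 33242365), (nat_lit 21715570), (nat_lit 14024239)] (nat_lit 12006452)) p12_21_1 (nat_lit 3) (nat_lit 38) (nat_lit 39) = true := by decide +kernel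
def p12_21_1_39 : pfC (piC [(nat_lit 33242365), (nat_lit 21715570), (nat_lit 14024239)] (nat_lit 12006452)) p12_21_1 (nat_lit 3) (nat_lit 39) (nat_lit 40) = true := by decide +kernel
def p12_21_1_40 : pfC (piC [(nat_lit 33242365), (nat_lit 21715570), (nat_lit 14024239)] (nat_lit 12006452)) p12_21_1 (nat_lit 3) (nat_lit 40) (nat_lit 41) = true := by decide +kernel
def p12_21_1_41 : pfC (piC [(nat_lit 33242365), (nat_lit 21715570), (nat_lit 14024239)] (nat_lit 12006452)) p12_21_1 (nat_lit 3) (nat_lit 41) (nat_lit 42) = true := by decide +kernel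
def p12_21_1_42 : pfC (piC [(nat_lit 33242365), (nat_lit 21715570), (nat_lit 14024239)] (nat_lit 12006452)) p12_21_1 (nat_lit 3) (nat_lit 42) (nat_lit 43) = true := by decide +kernel
def p12_21_1_43 : pfC (piC [(nat_lit 33242365), (nat_lit 21715570), (nat_lit 14024239)] (nat_lit 12006452)) p12_21_1 (nat_lit 3) (nat_lit 43) (nat_lit 44) = true := by decide +kernel
def p12_21_1_44 : pfC (piC [(nat_lit 33242365), (nat_lit 21715570), (nat_lit 14024239)] (nat_lit 12006452)) p12_21_1 (nat_lit 3) (nat_lit 44) (nat_lit 45) = true := by decide +kernel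
def p12_21_1_45 : pfC (piC [(nat_lit 33242365), (nat_lit 21715570), (nat_lit 14024239)] (nat_lit 12006452)) p12_21_1 (nat_lit 3) (nat_lit 45) (nat_lit 46) = true := by decide +kernel
def p12_21_1_46 : pfC (piC [(nat_lit 33242365), (nat_lit 21715570), (nat_lit 14024239)] (nat_lit 12006452)) p12_21_1 (nat_lit 3) (nat_lit 46) (nat_lit 47) = true := by decide +kernel
def p12_21_1_47 : pfC (piC [(nat_lit 33242365), (nat_lit 21715570), (nat_lit 14024239)] (nat_lit 12006452)) p12_21_1 (nat_lit 3) (nat_lit 47) (nat_lit 48) = true := by decide +kernel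
def p12_21_1_48 : pfC (piC [(nat_lit 33242365), (nat_lit 21715570), (nat_lit 14024239)] (nat_lit 12006452)) p12_21_1 (nat_lit 3) (nat_lit 48) (nat_lit 49) = true := by decide +kernel
def p12_21_1_49 : pfC (piC [(nat_lit 33242365), (nat_lit 21715570), (nat_lit 14024239)] (nat_lit 12006452)) p12_21_1 (nat_lit 3) (nat_lit 49) (nat_lit 50) = true := by decide +kernel
def p12_21_1_50 : pfC (piC [(nat_lit 33242365), (nat_lit 21715570), (nat_lit 14024239)] (nat_lit 12006452)) p12_21_1 (nat_lit 3) (nat_lit 50) (nat_lit 51) = true := by decide +kernel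
def p12_21_1_51 : pfC (piC [(nat_lit 33242365), (nat_lit 21715570), (nat_lit 14024239)] (nat_lit 12006452)) p12_21_1 (nat_lit 3) (nat_lit 51) (nat_lit 52) = true := by decide +kernel
def p12_21_1_52 : pfC (piC [(nat_lit 33242365), (nat_lit 21715570), (nat_lit 14024239)] (nat_lit 12006452)) p12_21_1 (nat_lit 3) (nat_lit 52) (nat_lit 53) = true := by decide +kernel
def p12_21_1_53 : pfC (piC [(nat_lit 33242365), (nat_lit 21715570), (nat_lit 14024239)] (nat_lit 12006452)) p12_21_1 (nat_lit 3) (nat_lit 53) (nat_lit 54) = true := by decide +kernel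
def p12_21_1_54 : pfC (piC [(nat_lit 33242365), (nat_lit 21715570), (nat_lit 14024239)] (nat_lit 12006452)) p12_21_1 (nat_lit 3) (nat_lit 54) (nat_lit 55) = true := by decide +kernel
def p12_21_1_55 : pfC (piC [(nat_lit 33242365), (nat_lit 21715570), (nat_lit 14024239)] (nat_lit 12006452)) p12_21_1 (nat_lit 3) (nat_lit 55) (nat_lit 56) = true := by decide +kernel
def p12_21_1_56 : pfC (piC [(nat_lit 33242365), (nat_lit 21715570), (nat_lit 14024239)] (nat_lit 12006452)) p12_21_1 (nat_lit 3) (nat_lit 56) (nat_lit 57) = true := by decide +kernel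
def p12_21_1_57 : pfC (piC [(nat_lit 33242365), (nat_lit 21715570), (nat_lit 14024239)] (nat_lit 12006452)) p12_21_1 (nat_lit 3) (nat_lit 57) (nat_lit 58) = true := by decide +kernel
def p12_21_1_58 : pfC (piC [(nat_lit 33242365), (nat_lit 21715570), (nat_lit 14024239)] (nat_lit 12006452)) p12_21_1 (nat_lit 3) (nat_lit 58) (nat_lit 59) = true := by decide +kernel
def p12_21_1_59 : pfC (piC [(nat_lit 33242365), (nat_lit 21715570), (nat_lit 14024239)] (nat_lit 12006452)) p12_21_1 (nat_lit 3) (nat_lit 59) (nat_lit 60) = true := by decide +kernel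
def p12_21_1_60 : pfC (piC [(nat_lit 33242365), (nat_lit 21715570), (nat_lit 14024239)] (nat_lit 12006452)) p12_21_1 (nat_lit 3) (nat_lit 60) (nat_lit 61) = true := by decide +kernel
def p12_21_1_61 : pfC (piC [(nat_lit 33242365), (nat_lit 21715570), (nat_lit 14024239)] (nat_lit 12006452)) p12_21_1 (nat_lit 3) (nat_lit 61) (nat_lit 62) = true := by decide +kernel
def p12_21_1_62 : pfC (piC [(nat_lit 33242365), (nat_lit 21715570), (nat_lit 14024239)] (nat_lit 12006452)) p12_21_1 (nat_lit 3) (nat_lit 62) (nat_lit 63) = true := by decide +kernel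
def p12_21_1_63 : pfC (piC [(nat_lit 33242365), (nat_lit 21715570), (nat_lit 14024239)] (nat_lit 12006452)) p12_21_1 (nat_lit 3) (nat_lit 63) (nat_lit 64) = true := by decide +kernel
def p12_21_1_64 : pfC (piC [(nat_lit 33242365), (nat_lit 21715570), (nat_lit 14024239)] (nat_lit 12006452)) p12_21_1 (nat_lit 3) (nat_lit 64) (nat_lit 65) = true := by decide +kernel
def p12_21_1_65 : pfC (piC [(nat_lit 33242365), (nat_lit 21715570), (nat_lit 14024239)] (nat_lit 12006452)) p12_21_1 (nat_lit 3) (nat_lit 65) (nat_lit 66) = true := by decide +kernel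
def p12_21_1_66 : pfC (piC [(nat_lit 33242365), (nat_lit 21715570), (nat_lit 14024239)] (nat_lit 12006452)) p12_21_1 (nat_lit 3) (nat_lit 66) (nat_lit 67) = true := by decide +kernel
def p12_21_1_67 : pfC (piC [(nat_lit 33242365), (nat_lit 21715570), (nat_lit 14024239)] (nat_lit 12006452)) p12_21_1 (nat_lit 3) (nat_lit 67) (nat_lit 68) = true := by decide +kernel
def p12_21_1_68 : pfC (piC [(nat_lit 33242365), (nat_lit 21715570), (nat_lit 14024239)] (nat_lit 12006452)) p12_21_1 (nat_lit 3) (nat_lit 68) (nat_lit 69) = true := by decide +kernel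
def p12_21_1_69 : pfC (piC [(nat_lit 33242365), (nat_lit 21715570), (nat_lit 14024239)] (nat_lit 12006452)) p12_21_1 (nat_lit 3) (nat_lit 69) (nat_lit 70) = true := by decide +kernel
def p12_21_1_70 : pfC (piC [(nat_lit 33242365), (nat_lit 21715570), (nat_lit 14024239)] (nat_lit 12006452)) p12_21_1 (nat_lit 3) (nat_lit 70) (nat_lit 71) = true := by decide +kernel
def p12_21_1_71 : pfC (piC [(nat_lit 33242365), (nat_lit 21715570), (nat_lit 14024239)] (nat_lit 12006452)) p12_21_1 (nat_lit 3) (nat_lit 71) (nat_lit 72) = true := by decide +kernel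
def p12_21_1_72 : pfC (piC [(nat_lit 33242365), (nat_lit 21715570), (nat_lit 14024239)] (nat_lit 12006452)) p12_21_1 (nat_lit 3) (nat_lit 72) (nat_lit 73) = true := by decide +kernel
def p12_21_1_73 : pfC (piC [(nat_lit 33242365), (nat_lit 21715570), (nat_lit 14024239)] (nat_lit 12006452)) p12_21_1 (nat_lit 3) (nat_lit 73) (nat_lit 74) = true := by decide +kernel
def p12_21_1_74 : pfC (piC [(nat_lit 33242365), (nat_lit 21715570), (nat_lit 14024239)] (nat_lit 12006452)) p12_21_1 (nat_lit 3) (nat_lit 74) (nat_lit 75) = true := by decide +kernel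
def p12_21_1_75 : pfC (piC [(nat_lit 33242365), (nat_lit 21715570), (nat_lit 14024239)] (nat_lit 12006452)) p12_21_1 (nat_lit 3) (nat_lit 75) (nat_lit 76) = true := by decide +kernel
def p12_21_1_76 : pfC (piC [(nat_lit 33242365), (nat_lit 21715570), (nat_lit 14024239)] (nat_lit 12006452)) p12_21_1 (nat_lit 3) (nat_lit 76) (nat_lit 77) = true := by decide +kernel
def p12_21_1_77 : pfC (piC [(nat_lit 33242365), (nat_lit 21715570), (nat_lit 14024239)] (nat_lit 12006452)) p12_21_1 (nat_lit 3) (nat_lit 77) (nat_lit 78) = true := by decide +kernel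
def p12_21_1_78 : pfC (piC [(nat_lit 33242365), (nat_lit 21715570), (nat_lit 14024239)] (nat_lit 12006452)) p12_21_1 (nat_lit 3) (nat_lit 78) (nat_lit 79) = true := by decide +kernel
def p12_21_1_79 : pfC (piC [(nat_lit 33242365), (nat_lit 21715570), (nat_lit 14024239)] (nat_lit 12006452)) p12_21_1 (nat_lit 3) (nat_lit 79) (nat_lit 80) = true := by decide +kernel
def p12_21_1_80 : pfC (piC [(nat_lit 33242365), (nat_lit 21715570), (nat_lit 14024239)] (nat_lit 12006452)) p12_21_1 (nat_lit 3) (nat_lit 80) (nat_lit 81) = true := by decide +kernel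
def p12_21_1_81 : pfC (piC [(nat_lit 33242365), (nat_lit 21715570), (nat_lit 14024239)] (nat_lit 12006452)) p12_21_1 (nat_lit 3) (nat_lit 81) (nat_lit 82) = true := by decide +kernel
def p12_21_1_82 : pfC (piC [(nat_lit 33242365), (nat_lit 21715570), (nat_lit 14024239)] (nat_lit 12006452)) p12_21_1 (nat_lit 3) (nat_lit 82) (nat_lit 83) = true := by decide +kernel
def p12_21_1_83 : pfC (piC [(nat_lit 33242365), (nat_lit 21715570), (nat_lit 14024239)] (nat_lit 12006452)) p12_21_1 (nat_lit 3) (nat_lit 83) (nat_lit 84) = true := by decide +kernel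
def p12_21_1_84 : pfC (piC [(nat_lit 33242365), (nat_lit 21715570), (nat_lit 14024239)] (nat_lit 12006452)) p12_21_1 (nat_lit 3) (nat_lit 84) (nat_lit 85) = true := by decide +kernel
def p12_21_1_85 : pfC (piC [(nat_lit 33242365), (nat_lit 21715570), (nat_lit 14024239)] (nat_lit 12006452)) p12_21_1 (nat_lit 3) (nat_lit 85) (nat_lit 86) = true := by decide +kernel
def p12_21_1_86 : pfC (piC [(nat_lit 33242365), (nat_lit 21715570), (nat_lit 14024239)] (nat_lit 12006452)) p12_21_1 (nat_lit 3) (nat_lit 86) (nat_lit 87) = true := by decide +kernel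
def p12_21_1_87 : pfC (piC [(nat_lit 33242365), (nat_lit 21715570), (nat_lit 14024239)] (nat_lit 12006452)) p12_21_1 (nat_lit 3) (nat_lit 87) (nat_lit 88) = true := by decide +kernel
def p12_21_1_88 : pfC (piC [(nat_lit 33242365), (nat_lit 21715570), (nat_lit 14024239)] (nat_lit 12006452)) p12_21_1 (nat_lit 3) (nat_lit 88) (nat_lit 89) = true := by decide +kernel
def p12_21_1_89 : pfC (piC [(nat_lit 33242365), (nat_lit 21715570), (nat_lit 14024239)] (nat_lit 12006452)) p12_21_1 (nat_lit 3) (nat_lit 89) (nat_lit 90) = true := by decide +kernel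
def p12_21_1_90 : pfC (piC [(nat_lit 33242365), (nat_lit 21715570), (nat_lit 14024239)] (nat_lit 12006452)) p12_21_1 (nat_lit 3) (nat_lit 90) (nat_lit 91) = true := by decide +kernel
def p12_21_1_91 : pfC (piC [(nat_lit 33242365), (nat_lit 21715570), (nat_lit 14024239)] (nat_lit 12006452)) p12_21_1 (nat_lit 3) (nat_lit 91) (nat_lit 92) = true := by decide +kernel
def p12_21_1_92 : pfC (piC [(nat_lit 33242365), (nat_lit 21715570), (nat_lit 14024239)] (nat_lit 12006452)) p12_21_1 (nat_lit 3) (nat_lit 92) (nat_lit 93) = true := by decide +kernel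
def p12_21_1_93 : pfC (piC [(nat_lit 33242365), (nat_lit 21715570), (nat_lit 14024239)] (nat_lit 12006452)) p12_21_1 (nat_lit 3) (nat_lit 93) (nat_lit 94) = true := by decide +kernel
def p12_21_1_94 : pfC (piC [(nat_lit 33242365), (nat_lit 21715570), (nat_lit 14024239)] (nat_lit 12006452)) p12_21_1 (nat_lit 3) (nat_lit 94) (nat_lit 95) = true := by decide +kernel
def p12_21_1_95 : pfC (piC [(nat_lit 33242365), (nat_lit 21715570), (nat_lit 14024239)] (nat_lit 12006452)) p12_21_1 (nat_lit 3) (nat_lit 95) (nat_lit 96) = true := by decide +kernel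
def p12_21_1_96 : pfC (piC [(nat_lit 33242365), (nat_lit 21715570), (nat_lit 14024239)] (nat_lit 12006452)) p12_21_1 (nat_lit 3) (nat_lit 96) (nat_lit 97) = true := by decide +kernel
def p12_21_1_97 : pfC (piC [(nat_lit 33242365), (nat_lit 21715570), (nat_lit 14024239)] (nat_lit 12006452)) p12_21_1 (nat_lit 3) (nat_lit 97) (nat_lit 98) = true := by decide +kernel
def p12_21_1_98 : pfC (piC [(nat_lit 33242365), (nat_lit 21715570), (nat_lit 14024239)] (nat_lit 12006452)) p12_21_1 (nat_lit 3) (nat_lit 98) (nat_lit 99) = true := by decide +kernel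
def p12_21_1_99 : pfC (piC [(nat_lit 33242365), (nat_lit 21715570), (nat_lit 14024239)] (nat_lit 12006452)) p12_21_1 (nat_lit 3) (nat_lit 99) (nat_lit 100) = true := by decide +kernel
def p12_21_1_100 : pfC (piC [(nat_lit 33242365), (nat_lit 21715570), (nat_lit 14024239)] (nat_lit 12006452)) p12_21_1 (nat_lit 3) (nat_lit 100) (nat_lit 101) = true := by decide +kernel
def p12_21_1_101 : pfC (piC [(nat_lit 33242365), (nat_lit 21715570), (nat_lit 14024239)] (nat_lit 12006452)) p12_21_1 (nat_lit 3) (nat_lit 101) (nat_lit 102) = true := by decide +kernel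
def p12_21_1_102 : pfC (piC [(nat_lit 33242365), (nat_lit 21715570), (nat_lit 14024239)] (nat_lit 12006452)) p12_21_1 (nat_lit 3) (nat_lit 102) (nat_lit 103) = true := by decide +kernel
def p12_21_1_103 : pfC (piC [(nat_lit 33242365), (nat_lit 21715570), (nat_lit 14024239)] (nat_lit 12006452)) p12_21_1 (nat_lit 3) (nat_lit 103) (nat_lit 104) = true := by decide +kernel
def p12_21_1_104 : pfC (piC [(nat_lit 33242365), (nat_lit 21715570), (nat_lit 14024239)] (nat_lit 12006452)) p12_21_1 (nat_lit 3) (nat_lit 104) (nat_lit 105) = true := by decide +kernel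
def p12_21_1_105 : pfC (piC [(nat_lit 33242365), (nat_lit 21715570), (nat_lit 14024239)] (nat_lit 12006452)) p12_21_1 (nat_lit 3) (nat_lit 105) (nat_lit 106) = true := by decide +kernel
def p12_21_1_106 : pfC (piC [(nat_lit 33242365), (nat_lit 21715570), (nat_lit 14024239)] (nat_lit 12006452)) p12_21_1 (nat_lit 3) (nat_lit 106) (nat_lit 107) = true := by decide +kernel
def p12_21_1_107 : pfC (piC [(nat_lit 33242365), (nat_lit 21715570), (nat_lit 14024239)] (nat_lit 12006452)) p12_21_1 (nat_lit 3) (nat_lit 107) (nat_lit 108) = true := by decide +kernel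
def p12_21_1_108 : pfC (piC [(nat_lit 33242365), (nat_lit 21715570), (nat_lit 14024239)] (nat_lit 12006452)) p12_21_1 (nat_lit 3) (nat_lit 108) (nat_lit 109) = true := by decide +kernel
def p12_21_1_109 : pfC (piC [(nat_lit 33242365), (nat_lit 21715570), (nat_lit 14024239)] (nat_lit 12006452)) p12_21_1 (nat_lit 3) (nat_lit 109) (nat_lit 110) = true := by decide +kernel
def p12_21_1_110 : pfC (piC [(nat_lit 33242365), (nat_lit 21715570), (nat_lit 14024239)] (nat_lit 12006452)) p12_21_1 (nat_lit 3) (nat_lit 110) (nat_lit 111) = true := by decide +kernel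
def p12_21_1_111 : pfC (piC [(nat_lit 33242365), (nat_lit 21715570), (nat_lit 14024239)] (nat_lit 12006452)) p12_21_1 (nat_lit 3) (nat_lit 111) (nat_lit 112) = true := by decide +kernel
def p12_21_1_112 : pfC (piC [(nat_lit 33242365), (nat_lit 21715570), (nat_lit 14024239)] (nat_lit 12006452)) p12_21_1 (nat_lit 3) (nat_lit 112) (nat_lit 113) = true := by decide +kernel
def p12_21_1_113 : pfC (piC [(nat_lit 33242365), (nat_lit 21715570), (nat_lit 14024239)] (nat_lit 12006452)) p12_21_1 (nat_lit 3) (nat_lit 113) (nat_lit 114) = true := by decide +kernel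
def p12_21_1_114 : pfC (piC [(nat_lit 33242365), (nat_lit 21715570), (nat_lit 14024239)] (nat_lit 12006452)) p12_21_1 (nat_lit 3) (nat_lit 114) (nat_lit 115) = true := by decide +kernel
def p12_21_1_115 : pfC (piC [(nat_lit 33242365), (nat_lit 21715570), (nat_lit 14024239)] (nat_lit 12006452)) p12_21_1 (nat_lit 3) (nat_lit 115) (nat_lit 116) = true := by decide +kernel
def p12_21_1_116 : pfC (piC [(nat_lit 33242365), (nat_lit 21715570), (nat_lit 14024239)] (nat_lit 12006452)) p12_21_1 (nat_lit 3) (nat_lit 116) (nat_lit 117) = true := by decide +kernel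
def p12_21_1_117 : pfC (piC [(nat_lit 33242365), (nat_lit 21715570), (nat_lit 14024239)] (nat_lit 12006452)) p12_21_1 (nat_lit 3) (nat_lit 117) (nat_lit 118) = true := by decide +kernel
def p12_21_1_118 : pfC (piC [(nat_lit 33242365), (nat_lit 21715570), (nat_lit 14024239)] (nat_lit 12006452)) p12_21_1 (nat_lit 3) (nat_lit 118) (nat_lit 119) = true := by decide +kernel
def p12_21_1_119 : pfC (piC [(nat_lit 33242365), (nat_lit 21715570), (nat_lit 14024239)] (nat_lit 12006452)) p12_21_1 (nat_lit 3) (nat_lit 119) (nat_lit 120) = true := by decide +kernel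
def p12_21_1_120 : pfC (piC [(nat_lit 33242365), (nat_lit 21715570), (nat_lit 14024239)] (nat_lit 12006452)) p12_21_1 (nat_lit 3) (nat_lit 120) (nat_lit 121) = true := by decide +kernel
def p12_21_1_121 : pfC (piC [(nat_lit 33242365), (nat_lit 21715570), (nat_lit 14024239)] (nat_lit 12006452)) p12_21_1 (nat_lit 3) (nat_lit 121) (nat_lit 122) = true := by decide +kernel
def p12_21_1_122 : pfC (piC [(nat_lit 33242365), (nat_lit 21715570), (nat_lit 14024239)] (nat_lit 12006452)) p12_21_1 (nat_lit 3) (nat_lit 122) (nat_lit 123) = true := by decide +kernel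
def p12_21_1_123 : pfC (piC [(nat_lit 33242365), (nat_lit 21715570), (nat_lit 14024239)] (nat_lit 12006452)) p12_21_1 (nat_lit 3) (nat_lit 123) (nat_lit 124) = true := by decide +kernel
def p12_21_1_124 : pfC (piC [(nat_lit 33242365), (nat_lit 21715570), (nat_lit 14024239)] (nat_lit 12006452)) p12_21_1 (nat_lit 3) (nat_lit 124) (nat_lit 125) = true := by decide +kernel
def p12_21_1_125 : pfC (piC [(nat_lit 33242365), (nat_lit 21715570), (nat_lit 14024239)] (nat_lit 12006452)) p12_21_1 (nat_lit 3) (nat_lit 125) (nat_lit 126) = true := by decide +kernel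
def p12_21_1_126 : pfC (piC [(nat_lit 33242365), (nat_lit 21715570), (nat_lit 14024239)] (nat_lit 12006452)) p12_21_1 (nat_lit 3) (nat_lit 126) (nat_lit 127) = true := by decide +kernel
def p12_21_1_127 : pfC (piC [(nat_lit 33242365), (nat_lit 21715570), (nat_lit 14024239)] (nat_lit 12006452)) p12_21_1 (nat_lit 3) (nat_lit 127) (nat_lit 128) = true := by decide +kernel
def p12_21_1_128 : pfC (piC [(nat_lit 33242365), (nat_lit 21715570), (nat_lit 14024239)] (nat_lit 12006452)) p12_21_1 (nat_lit 3) (nat_lit 128) (nat_lit 129) = true := by decide +kernel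
def p12_21_1_129 : pfC (piC [(nat_lit 33242365), (nat_lit 21715570), (nat_lit 14024239)] (nat_lit 12006452)) p12_21_1 (nat_lit 3) (nat_lit 129) (nat_lit 130) = true := by decide +kernel
def p12_21_1_130 : pfC (piC [(nat_lit 33242365), (nat_lit 21715570), (nat_lit 14024239)] (nat_lit 12006452)) p12_21_1 (nat_lit 3) (nat_lit 130) (nat_lit 131) = true := by decide +kernel
def p12_21_1_131 : pfC (piC [(nat_lit 33242365), (nat_lit 21715570), (nat_lit 14024239)] (nat_lit 12006452)) p12_21_1 (nat_lit 3) (nat_lit 131) (nat_lit 132) = true := by decide +kernel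
def p12_21_1_132 : pfC (piC [(nat_lit 33242365), (nat_lit 21715570), (nat_lit 14024239)] (nat_lit 12006452)) p12_21_1 (nat_lit 3) (nat_lit 132) (nat_lit 133) = true := by decide +kernel
def p12_21_1_133 : pfC (piC [(nat_lit 33242365), (nat_lit 21715570), (nat_lit 14024239)] (nat_lit 12006452)) p12_21_1 (nat_lit 3) (nat_lit 133) (nat_lit 134) = true := by decide +kernel
def p12_21_1_134 : pfC (piC [(nat_lit 33242365), (nat_lit 21715570), (nat_lit 14024239)] (nat_lit 12006452)) p12_21_1 (nat_lit 3) (nat_lit 134) (nat_lit 135) = true := by decide +kernel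
def p12_21_1_135 : pfC (piC [(nat_lit 33242365), (nat_lit 21715570), (nat_lit 14024239)] (nat_lit 12006452)) p12_21_1 (nat_lit 3) (nat_lit 135) (nat_lit 136) = true := by decide +kernel
def p12_21_1_136 : pfC (piC [(nat_lit 33242365), (nat_lit 21715570), (nat_lit 14024239)] (nat_lit 12006452)) p12_21_1 (nat_lit 3) (nat_lit 136) (nat_lit 137) = true := by decide +kernel
def p12_21_1_137 : pfC (piC [(nat_lit 33242365), (nat_lit 21715570), (nat_lit 14024239)] (nat_lit 12006452)) p12_21_1 (nat_lit 3) (nat_lit 137) (nat_lit 138) = true := by decide +kernel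
def p12_21_1_138 : pfC (piC [(nat_lit 33242365), (nat_lit 21715570), (nat_lit 14024239)] (nat_lit 12006452)) p12_21_1 (nat_lit 3) (nat_lit 138) (nat_lit 139) = true := by decide +kernel
def p12_21_1_139 : pfC (piC [(nat_lit 33242365), (nat_lit 21715570), (nat_lit 14024239)] (nat_lit 12006452)) p12_21_1 (nat_lit 3) (nat_lit 139) (nat_lit 140) = true := by decide +kernel
def p12_21_1_140 : pfC (piC [(nat_lit 33242365), (nat_lit 21715570), (nat_lit 14024239)] (nat_lit 12006452)) p12_21_1 (nat_lit 3) (nat_lit 140) (nat_lit 141) = true := by decide +kernel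
def p12_21_1_141 : pfC (piC [(nat_lit 33242365), (nat_lit 21715570), (nat_lit 14024239)] (nat_lit 12006452)) p12_21_1 (nat_lit 3) (nat_lit 141) (nat_lit 142) = true := by decide +kernel
def p12_21_1_142 : pfC (piC [(nat_lit 33242365), (nat_lit 21715570), (nat_lit 14024239)] (nat_lit 12006452)) p12_21_1 (nat_lit 3) (nat_lit 142) (nat_lit 143) = true := by decide +kernel
def p12_21_1_143 : pfC (piC [(nat_lit 33242365), (nat_lit 21715570), (nat_lit 14024239)] (nat_lit 12006452)) p12_21_1 (nat_lit 3) (nat_lit 143) (nat_lit 144) = true := by decide +kernel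
def p12_21_1_144 : pfC (piC [(nat_lit 33242365), (nat_lit 21715570), (nat_lit 14024239)] (nat_lit 12006452)) p12_21_1 (nat_lit 3) (nat_lit 144) (nat_lit 145) = true := by decide +kernel
def p12_21_1_145 : pfC (piC [(nat_lit 33242365), (nat_lit 21715570), (nat_lit 14024239)] (nat_lit 12006452)) p12_21_1 (nat_lit 3) (nat_lit 145) (nat_lit 146) = true := by decide +kernel
def p12_21_1_146 : pfC (piC [(nat_lit 33242365), (nat_lit 21715570), (nat_lit 14024239)] (nat_lit 12006452)) p12_21_1 (nat_lit 3) (nat_lit 146) (nat_lit 147) = true := by decide +kernel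
def p12_21_1_147 : pfC (piC [(nat_lit 33242365), (nat_lit 21715570), (nat_lit 14024239)] (nat_lit 12006452)) p12_21_1 (nat_lit 3) (nat_lit 147) (nat_lit 148) = true := by decide +kernel
def p12_21_1_148 : pfC (piC [(nat_lit 33242365), (nat_lit 21715570), (nat_lit 14024239)] (nat_lit 12006452)) p12_21_1 (nat_lit 3) (nat_lit 148) (nat_lit 149) = true := by decide +kernel
def p12_21_1_149 : pfC (piC [(nat_lit 33242365), (nat_lit 21715570), (nat_lit 14024239)] (nat_lit 12006452)) p12_21_1 (nat_lit 3) (nat_lit 149) (nat_lit 150) = true := by decide +kernel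
def p12_21_1_150 : pfC (piC [(nat_lit 33242365), (nat_lit 21715570), (nat_lit 14024239)] (nat_lit 12006452)) p12_21_1 (nat_lit 3) (nat_lit 150) (nat_lit 151) = true := by decide +kernel
def p12_21_1_151 : pfC (piC [(nat_lit 33242365), (nat_lit 21715570), (nat_lit 14024239)] (nat_lit 12006452)) p12_21_1 (nat_lit 3) (nat_lit 151) (nat_lit 152) = true := by decide +kernel
def p12_21_1_152 : pfC (piC [(nat_lit 33242365), (nat_lit 21715570), (nat_lit 14024239)] (nat_lit 12006452)) p12_21_1 (nat_lit 3) (nat_lit 152) (nat_lit 153) = true := by decide +kernel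
def p12_21_1_153 : pfC (piC [(nat_lit 33242365), (nat_lit 21715570), (nat_lit 14024239)] (nat_lit 12006452)) p12_21_1 (nat_lit 3) (nat_lit 153) (nat_lit 154) = true := by decide +kernel
def p12_21_1_154 : pfC (piC [(nat_lit 33242365), (nat_lit 21715570), (nat_lit 14024239)] (nat_lit 12006452)) p12_21_1 (nat_lit 3) (nat_lit 154) (nat_lit 155) = true := by decide +kernel
def p12_21_1_155 : pfC (piC [(nat_lit 33242365), (nat_lit 21715570), (nat_lit 14024239)] (nat_lit 12006452)) p12_21_1 (nat_lit 3) (nat_lit 155) (nat_lit 156) = true := by decide +kernel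
def p12_21_1_156 : pfC (piC [(nat_lit 33242365), (nat_lit 21715570), (nat_lit 14024239)] (nat_lit 12006452)) p12_21_1 (nat_lit 3) (nat_lit 156) (nat_lit 157) = true := by decide +kernel
def p12_21_1_157 : pfC (piC [(nat_lit 33242365), (nat_lit 21715570), (nat_lit 14024239)] (nat_lit 12006452)) p12_21_1 (nat_lit 3) (nat_lit 157) (nat_lit 158) = true := by decide +kernel
def p12_21_1_158 : pfC (piC [(nat_lit 33242365), (nat_lit 21715570), (nat_lit 14024239)] (nat_lit 12006452)) p12_21_1 (nat_lit 3) (nat_lit 158) (nat_lit 159) = true := by decide +kernel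
def p12_21_1_159 : pfC (piC [(nat_lit 33242365), (nat_lit 21715570), (nat_lit 14024239)] (nat_lit 12006452)) p12_21_1 (nat_lit 3) (nat_lit 159) (nat_lit 160) = true := by decide +kernel
def p12_21_1_160 : pfC (piC [(nat_lit 33242365), (nat_lit 21715570), (nat_lit 14024239)] (nat_lit 12006452)) p12_21_1 (nat_lit 3) (nat_lit 160) (nat_lit 161) = true := by decide +kernel
def p12_21_1_161 : pfC (piC [(nat_lit 33242365), (nat_lit 21715570), (nat_lit 14024239)] (nat_lit 12006452)) p12_21_1 (nat_lit 3) (nat_lit 161) (nat_lit 162) = true := by decide +kernel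
def p12_21_1_162 : pfC (piC [(nat_lit 33242365), (nat_lit 21715570), (nat_lit 14024239)] (nat_lit 12006452)) p12_21_1 (nat_lit 3) (nat_lit 162) (nat_lit 163) = true := by decide +kernel
def p12_21_1_163 : pfC (piC [(nat_lit 33242365), (nat_lit 21715570), (nat_lit 14024239)] (nat_lit 12006452)) p12_21_1 (nat_lit 3) (nat_lit 163) (nat_lit 164) = true := by decide +kernel
def p12_21_1_164 : pfC (piC [(nat_lit 33242365), (nat_lit 21715570), (nat_lit 14024239)] (nat_lit 12006452)) p12_21_1 (nat_lit 3) (nat_lit 164) (nat_lit 165) = true := by decide +kernel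
def p12_21_1_165 : pfC (piC [(nat_lit 33242365), (nat_lit 21715570), (nat_lit 14024239)] (nat_lit 12006452)) p12_21_1 (nat_lit 3) (nat_lit 165) (nat_lit 166) = true := by decide +kernel
def p12_21_1_166 : pfC (piC [(nat_lit 33242365), (nat_lit 21715570), (nat_lit 14024239)] (nat_lit 12006452)) p12_21_1 (nat_lit 3) (nat_lit 166) (nat_lit 167) = true := by decide +kernel
def p12_21_1_167 : pfC (piC [(nat_lit 33242365), (nat_lit 21715570), (nat_lit 14024239)] (nat_lit 12006452)) p12_21_1 (nat_lit 3) (nat_lit 167) (nat_lit 168) = true := by decide +kernel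
def p12_21_1_168 : pfC (piC [(nat_lit 33242365), (nat_lit 21715570), (nat_lit 14024239)] (nat_lit 12006452)) p12_21_1 (nat_lit 3) (nat_lit 168) (nat_lit 169) = true := by decide +kernel
def p12_21_1_169 : pfC (piC [(nat_lit 33242365), (nat_lit 21715570), (nat_lit 14024239)] (nat_lit 12006452)) p12_21_1 (nat_lit 3) (nat_lit 169) (nat_lit 170) = true := by decide +kernel
def p12_21_1_170 : pfC (piC [(nat_lit 33242365), (nat_lit 21715570), (nat_lit 14024239)] (nat_lit 12006452)) p12_21_1 (nat_lit 3) (nat_lit 170) (nat_lit 171) = true := by decide +kernel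
def p12_21_1_171 : pfC (piC [(nat_lit 33242365), (nat_lit 21715570), (nat_lit 14024239)] (nat_lit 12006452)) p12_21_1 (nat_lit 3) (nat_lit 171) (nat_lit 172) = true := by decide +kernel
def p12_21_1_172 : pfC (piC [(nat_lit 33242365), (nat_lit 21715570), (nat_lit 14024239)] (nat_lit 12006452)) p12_21_1 (nat_lit 3) (nat_lit 172) (nat_lit 173) = true := by decide +kernel
def p12_21_1_173 : pfC (piC [(nat_lit 33242365), (nat_lit 21715570), (nat_lit 14024239)] (nat_lit 12006452)) p12_21_1 (nat_lit 3) (nat_lit 173) (nat_lit 174) = true := by decide +kernel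
def p12_21_1_174 : pfC (piC [(nat_lit 33242365), (nat_lit 21715570), (nat_lit 14024239)] (nat_lit 12006452)) p12_21_1 (nat_lit 3) (nat_lit 174) (nat_lit 175) = true := by decide +kernel
def p12_21_1_175 : pfC (piC [(nat_lit 33242365), (nat_lit 21715570), (nat_lit 14024239)] (nat_lit 12006452)) p12_21_1 (nat_lit 3) (nat_lit 175) (nat_lit 176) = true := by decide +kernel
def p12_21_1_176 : pfC (piC [(nat_lit 33242365), (nat_lit 21715570), (nat_lit 14024239)] (nat_lit 12006452)) p12_21_1 (nat_lit 3) (nat_lit 176) (nat_lit 177) = true := by decide +kernel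
def p12_21_1_177 : pfC (piC [(nat_lit 33242365), (nat_lit 21715570), (nat_lit 14024239)] (nat_lit 12006452)) p12_21_1 (nat_lit 3) (nat_lit 177) (nat_lit 178) = true := by decide +kernel
def p12_21_1_178 : pfC (piC [(nat_lit 33242365), (nat_lit 21715570), (nat_lit 14024239)] (nat_lit 12006452)) p12_21_1 (nat_lit 3) (nat_lit 178) (nat_lit 179) = true := by decide +kernel
def p12_21_1_179 : pfC (piC [(nat_lit 33242365), (nat_lit 21715570), (nat_lit 14024239)] (nat_lit 12006452)) p12_21_1 (nat_lit 3) (nat_lit 179) (nat_lit 180) = true := by decide +kernel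
def p12_21_1_180 : pfC (piC [(nat_lit 33242365), (nat_lit 21715570), (nat_lit 14024239)] (nat_lit 12006452)) p12_21_1 (nat_lit 3) (nat_lit 180) (nat_lit 181) = true := by decide +kernel
def p12_21_1_181 : pfC (piC [(nat_lit 33242365), (nat_lit 21715570), (nat_lit 14024239)] (nat_lit 12006452)) p12_21_1 (nat_lit 3) (nat_lit 181) (nat_lit 182) = true := by decide +kernel
def p12_21_1_182 : pfC (piC [(nat_lit 33242365), (nat_lit 21715570), (nat_lit 14024239)] (nat_lit 12006452)) p12_21_1 (nat_lit 3) (nat_lit 182) (nat_lit 183) = true := by decide +kernel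
def p12_21_1_183 : pfC (piC [(nat_lit 33242365), (nat_lit 21715570), (nat_lit 14024239)] (nat_lit 12006452)) p12_21_1 (nat_lit 3) (nat_lit 183) (nat_lit 184) = true := by decide +kernel
def p12_21_1_184 : pfC (piC [(nat_lit 33242365), (nat_lit 21715570), (nat_lit 14024239)] (nat_lit 12006452)) p12_21_1 (nat_lit 3) (nat_lit 184) (nat_lit 185) = true := by decide +kernel
def p12_21_1_185 : pfC (piC [(nat_lit 33242365), (nat_lit 21715570), (nat_lit 14024239)] (nat_lit 12006452)) p12_21_1 (nat_lit 3) (nat_lit 185) (nat_lit 186) = true := by decide +kernel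
def p12_21_1_186 : pfC (piC [(nat_lit 33242365), (nat_lit 21715570), (nat_lit 14024239)] (nat_lit 12006452)) p12_21_1 (nat_lit 3) (nat_lit 186) (nat_lit 187) = true := by decide +kernel
def p12_21_1_187 : pfC (piC [(nat_lit 33242365), (nat_lit 21715570), (nat_lit 14024239)] (nat_lit 12006452)) p12_21_1 (nat_lit 3) (nat_lit 187) (nat_lit 188) = true := by decide +kernel
def p12_21_1_188 : pfC (piC [(nat_lit 33242365), (nat_lit 21715570), (nat_lit 14024239)] (nat_lit 12006452)) p12_21_1 (nat_lit 3) (nat_lit 188) (nat_lit 189) = true := by decide +kernel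
def p12_21_1_189 : pfC (piC [(nat_lit 33242365), (nat_lit 21715570), (nat_lit 14024239)] (nat_lit 12006452)) p12_21_1 (nat_lit 3) (nat_lit 189) (nat_lit 190) = true := by decide +kernel
def p12_21_1_190 : pfC (piC [(nat_lit 33242365), (nat_lit 21715570), (nat_lit 14024239)] (nat_lit 12006452)) p12_21_1 (nat_lit 3) (nat_lit 190) (nat_lit 191) = true := by decide +kernel
def p12_21_1_191 : pfC (piC [(nat_lit 33242365), (nat_lit 21715570), (nat_lit 14024239)] (nat_lit 12006452)) p12_21_1 (nat_lit 3) (nat_lit 191) (nat_lit 192) = true := by decide +kernel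
def p12_21_1_192 : pfC (piC [(nat_lit 33242365), (nat_lit 21715570), (nat_lit 14024239)] (nat_lit 12006452)) p12_21_1 (nat_lit 3) (nat_lit 192) (nat_lit 193) = true := by decide +kernel
def p12_21_1_193 : pfC (piC [(nat_lit 33242365), (nat_lit 21715570), (nat_lit 14024239)] (nat_lit 12006452)) p12_21_1 (nat_lit 3) (nat_lit 193) (nat_lit 194) = true := by decide +kernel
def p12_21_1_194 : pfC (piC [(nat_lit 33242365), (nat_lit 21715570), (nat_lit 14024239)] (nat_lit 12006452)) p12_21_1 (nat_lit 3) (nat_lit 194) (nat_lit 195) = true := by decide +kernel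
def p12_21_1_195 : pfC (piC [(nat_lit 33242365), (nat_lit 21715570), (nat_lit 14024239)] (nat_lit 12006452)) p12_21_1 (nat_lit 3) (nat_lit 195) (nat_lit 196) = true := by decide +kernel
def p12_21_1_196 : pfC (piC [(nat_lit 33242365), (nat_lit 21715570), (nat_lit 14024239)] (nat_lit 12006452)) p12_21_1 (nat_lit 3) (nat_lit 196) (nat_lit 197) = true := by decide +kernel
def p12_21_1_197 : pfC (piC [(nat_lit 33242365), (nat_lit 21715570), (nat_lit 14024239)] (nat_lit 12006452)) p12_21_1 (nat_lit 3) (nat_lit 197) (nat_lit 198) = true := by decide +kernel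
def p12_21_1_198 : pfC (piC [(nat_lit 33242365), (nat_lit 21715570), (nat_lit 14024239)] (nat_lit 12006452)) p12_21_1 (nat_lit 3) (nat_lit 198) (nat_lit 199) = true := by decide +kernel
def p12_21_1_199 : pfC (piC [(nat_lit 33242365), (nat_lit 21715570), (nat_lit 14024239)] (nat_lit 12006452)) p12_21_1 (nat_lit 3) (nat_lit 199) (nat_lit 200) = true := by decide +kernel
def p12_21_1_200 : pfC (piC [(nat_lit 33242365), (nat_lit 21715570), (nat_lit 14024239)] (nat_lit 12006452)) p12_21_1 (nat_lit 3) (nat_lit 200) (nat_lit 201) = true := by decide +kernel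
def p12_21_1_201 : pfC (piC [(nat_lit 33242365), (nat_lit 21715570), (nat_lit 14024239)] (nat_lit 12006452)) p12_21_1 (nat_lit 3) (nat_lit 201) (nat_lit 202) = true := by decide +kernel
def p12_21_1_202 : pfC (piC [(nat_lit 33242365), (nat_lit 21715570), (nat_lit 14024239)] (nat_lit 12006452)) p12_21_1 (nat_lit 3) (nat_lit 202) (nat_lit 203) = true := by decide +kernel
def p12_21_1_203 : pfC (piC [(nat_lit 33242365), (nat_lit 21715570), (nat_lit 14024239)] (nat_lit 12006452)) p12_21_1 (nat_lit 3) (nat_lit 203) (nat_lit 204) = true := by decide +kernel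
def p12_21_1_204 : pfC (piC [(nat_lit 33242365), (nat_lit 21715570), (nat_lit 14024239)] (nat_lit 12006452)) p12_21_1 (nat_lit 3) (nat_lit 204) (nat_lit 205) = true := by decide +kernel
def p12_21_1_205 : pfC (piC [(nat_lit 33242365), (nat_lit 21715570), (nat_lit 14024239)] (nat_lit 12006452)) p12_21_1 (nat_lit 3) (nat_lit 205) (nat_lit 206) = true := by decide +kernel
def p12_21_1_206 : pfC (piC [(nat_lit 33242365), (nat_lit 21715570), (nat_lit 14024239)] (nat_lit 12006452)) p12_21_1 (nat_lit 3) (nat_lit 206) (nat_lit 207) = true := by decide +kernel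
def p12_21_1_207 : pfC (piC [(nat_lit 33242365), (nat_lit 21715570), (nat_lit 14024239)] (nat_lit 12006452)) p12_21_1 (nat_lit 3) (nat_lit 207) (nat_lit 208) = true := by decide +kernel
def p12_21_1_208 : pfC (piC [(nat_lit 33242365), (nat_lit 21715570), (nat_lit 14024239)] (nat_lit 12006452)) p12_21_1 (nat_lit 3) (nat_lit 208) (nat_lit 209) = true := by decide +kernel
def p12_21_1_209 : pfC (piC [(nat_lit 33242365), (nat_lit 21715570), (nat_lit 14024239)] (nat_lit 12006452)) p12_21_1 (nat_lit 3) (nat_lit 209) (nat_lit 210) = true := by decide +kernel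
def p12_21_1_210 : pfC (piC [(nat_lit 33242365), (nat_lit 21715570), (nat_lit 14024239)] (nat_lit 12006452)) p12_21_1 (nat_lit 3) (nat_lit 210) (nat_lit 211) = true := by decide +kernel
def p12_21_1_211 : pfC (piC [(nat_lit 33242365), (nat_lit 21715570), (nat_lit 14024239)] (nat_lit 12006452)) p12_21_1 (nat_lit 3) (nat_lit 211) (nat_lit 212) = true := by decide +kernel
def p12_21_1_212 : pfC (piC [(nat_lit 33242365), (nat_lit 21715570), (nat_lit 14024239)] (nat_lit 12006452)) p12_21_1 (nat_lit 3) (nat_lit 212) (nat_lit 213) = true := by decide +kernel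
def p12_21_1_213 : pfC (piC [(nat_lit 33242365), (nat_lit 21715570), (nat_lit 14024239)] (nat_lit 12006452)) p12_21_1 (nat_lit 3) (nat_lit 213) (nat_lit 214) = true := by decide +kernel
def p12_21_1_214 : pfC (piC [(nat_lit 33242365), (nat_lit 21715570), (nat_lit 14024239)] (nat_lit 12006452)) p12_21_1 (nat_lit 3) (nat_lit 214) (nat_lit 215) = true := by decide +kernel
def p12_21_1_215 : pfC (piC [(nat_lit 33242365), (nat_lit 21715570), (nat_lit 14024239)] (nat_lit 12006452)) p12_21_1 (nat_lit 3) (nat_lit 215) (nat_lit 216) = true := by decide +kernel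
def p12_21_1_216 : pfC (piC [(nat_lit 33242365), (nat_lit 21715570), (nat_lit 14024239)] (nat_lit 12006452)) p12_21_1 (nat_lit 3) (nat_lit 216) (nat_lit 217) = true := by decide +kernel
def p12_21_1_217 : pfC (piC [(nat_lit 33242365), (nat_lit 21715570), (nat_lit 14024239)] (nat_lit 12006452)) p12_21_1 (nat_lit 3) (nat_lit 217) (nat_lit 218) = true := by decide +kernel
def p12_21_1_218 : pfC (piC [(nat_lit 33242365), (nat_lit 21715570), (nat_lit 14024239)] (nat_lit 12006452)) p12_21_1 (nat_lit 3) (nat_lit 218) (nat_lit 219) = true := by decide +kernel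
def p12_21_1_219 : pfC (piC [(nat_lit 33242365), (nat_lit 21715570), (nat_lit 14024239)] (nat_lit 12006452)) p12_21_1 (nat_lit 3) (nat_lit 219) (nat_lit 220) = true := by decide +kernel
def p12_21_1_220 : pfC (piC [(nat_lit 33242365), (nat_lit 21715570), (nat_lit 14024239)] (nat_lit 12006452)) p12_21_1 (nat_lit 3) (nat_lit 220) (nat_lit 221) = true := by decide +kernel
def p12_21_1_221 : pfC (piC [(nat_lit 33242365), (nat_lit 21715570), (nat_lit 14024239)] (nat_lit 12006452)) p12_21_1 (nat_lit 3) (nat_lit 221) (nat_lit 222) = true := by decide +kernel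
theorem p12_21_1_T : PfS (PiF n12_21.reverse (nat_lit 12006452)) p12_21_1 (nat_lit 3) [] 0 :=
  pftab_of (los := [(nat_lit 33242365), (nat_lit 21715570), (nat_lit 14024239)]) (by decide +kernel) (hi := (nat_lit 222)) (PfP.trans (PfP.trans (PfP.trans (PfP.trans (PfP.trans (PfP.trans (PfP.trans (PfP.trans (PfP.trans (PfP.trans (PfP.trans (PfP.trans (PfP.trans (PfP.trans (PfP.trans (PfP.trans (PfP.trans (PfP.trans (PfP.trans (PfP.trans (PfP.trans (PfP.trans (PfP.trans (PfP.trans (PfP.trans (PfP.trans (PfP.trans (PfP.trans (PfP.trans (PfP.trans (PfP.trans (PfP.trans (PfP.trans (PfP.trans (PfP.trans (PfP.trans (PfP.trans (PfP.trans (PfP.trans (PfP.trans (PfP.trans (PfP.trans (PfP.trans (PfP.trans (PfP.trans (PfP.trans (PfP.trans (PfP.trans (PfP.trans (PfP.trans (PfP.trans (PfP.trans (PfP.trans (PfP.trans (PfP.trans (PfP.trans (PfP.trans (PfP.trans (PfP.trans (PfP.trans (PfP.trans (PfP.trans (PfP.trans (PfP.trans (PfP.trans (PfP.trans (PfP.trans (PfP.trans (PfP.trans (PfP.trans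 (PfP.trans (PfP.trans (PfP.trans (PfP.trans (PfP.trans (PfP.trans (PfP.trans (PfP.trans (PfP.trans (PfP.trans (PfP.trans (PfP.trans (PfP.trans (PfP.trans (PfP.trans (PfP.trans (PfP.trans (PfP.trans (PfP.trans (PfP.trans (PfP.trans (PfP.trans (PfP.trans (PfP.trans (PfP.trans (PfP.trans (PfP.trans (PfP.trans (PfP.trans (PfP.trans (PfP.trans (PfP.trans (PfP.trans (PfP.trans (PfP.trans (PfP.trans (PfP.trans (PfP.trans (PfP.trans
 (PfP.trans (PfP.trans (PfP.trans (PfP.trans (PfP.trans (PfP.trans (PfP.trans (PfP.trans (PfP.trans (PfP.trans (PfP.trans (PfP.trans (PfP.trans (PfP.trans (PfP.trans (PfP.trans (PfP.trans (PfP.trans (PfP.trans (PfP.trans (PfP.trans (PfP.trans (PfP.trans (PfP.trans (PfP.trans (PfP.trans (PfP.trans (PfP.trans (PfP.trans (PfP.trans (PfP.trans (PfP.trans (PfP.trans (PfP.trans (PfP.trans (PfP.trans (PfP.trans (PfP.trans (PfP.trans (PfP.trans (PfP.trans (PfP.trans (PfP.trans (PfP.trans (PfP.trans (PfP.trans (PfP.trans (PfP.trans (PfP.trans (PfP.trans (PfP.trans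 (PfP.trans (PfP.trans (PfP.trans (PfP.trans (PfP.trans (PfP.trans (PfP.trans (PfP.trans (PfP.trans (PfP.trans (PfP.trans (PfP.trans (PfP.trans (PfP.trans (PfP.trans (PfP.trans (PfP.trans (PfP.trans (PfP.trans (PfP.trans (PfP.trans (PfP.trans (PfP.trans (PfP.trans (PfP.trans (PfP.trans (PfP.trans (PfP.trans (PfP.trans (PfP.trans (PfP.trans (PfP.trans (PfP.trans (PfP.trans (PfP.trans (PfP.trans (PfP.trans (PfP.trans (PfP.trans (PfP.trans (PfP.trans (PfP.trans (PfP.trans (PfP.trans (PfP.trans (PfP.trans (PfP.trans (PfP.trans (PfP.trans (PfP.trans (PfP.trans (PfP.trans (PfP.trans (PfP.trans (PfP.trans (PfP.trans (PfP.trans (PfP.trans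
 (PfP.trans (PfP.trans (PfP.trans (pfC_sound p12_21_1_0) (pfC_sound p12_21_1_1)) (pfC_sound p12_21_1_2)) (pfC_sound p12_21_1_3)) (pfC_sound p12_21_1_4)) (pfC_sound p12_21_1_5)) (pfC_sound p12_21_1_6)) (pfC_sound p12_21_1_7)) (pfC_sound p12_21_1_8)) (pfC_sound p12_21_1_9)) (pfC_sound p12_21_1_10)) (pfC_sound p12_21_1_11)) (pfC_sound p12_21_1_12)) (pfC_sound p12_21_1_13)) (pfC_sound p12_21_1_14)) (pfC_sound p12_21_1_15)) (pfC_sound p12_21_1_16)) (pfC_sound p12_21_1_17)) (pfC_sound p12_21_1_18)) (pfC_sound p12_21_1_19)) (pfC_sound p12_21_1_20)) (pfC_sound p12_21_1_21)) (pfC_sound p12_21_1_22)) (pfC_sound p12_21_1_23)) (pfC_sound p12_21_1_24)) (pfC_sound p12_21_1_25)) (pfC_sound p12_21_1_26)) (pfC_sound p12_21_1_27)) (pfC_sound p12_21_1_28)) (pfC_sound p12_21_1_29)) (pfC_sound p12_21_1_30)) (pfC_sound p12_21_1_31)) (pfC_sound p12_21_1_32)) (pfC_sound p12_21_1_33)) (pfC_sound p12_21_1_34)) (pfC_sound p12_21_1_35)) (pfC_sound p12_21_1_36)) (pfC_sound p12_21_1_37)) (pfC_sound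 p12_21_1_38)) (pfC_sound p12_21_1_39)) (pfC_sound p12_21_1_40)) (pfC_sound p12_21_1_41)) (pfC_sound p12_21_1_42)) (pfC_sound p12_21_1_43)) (pfC_sound p12_21_1_44)) (pfC_sound p12_21_1_45)) (pfC_sound p12_21_1_46))
 (pfC_sound p12_21_1_47)) (pfC_sound p12_21_1_48)) (pfC_sound p12_21_1_49)) (pfC_sound p12_21_1_50)) (pfC_sound p12_21_1_51)) (pfC_sound p12_21_1_52)) (pfC_sound p12_21_1_53)) (pfC_sound p12_21_1_54)) (pfC_sound p12_21_1_55)) (pfC_sound p12_21_1_56)) (pfC_sound p12_21_1_57)) (pfC_sound p12_21_1_58)) (pfC_sound p12_21_1_59)) (pfC_sound p12_21_1_60)) (pfC_sound p12_21_1_61)) (pfC_sound p12_21_1_62)) (pfC_sound p12_21_1_63)) (pfC_sound p12_21_1_64)) (pfC_sound p12_21_1_65)) (pfC_sound p12_21_1_66)) (pfC_sound p12_21_1_67)) (pfC_sound p12_21_1_68)) (pfC_sound p12_21_1_69)) (pfC_sound p12_21_1_70)) (pfC_sound p12_21_1_71)) (pfC_sound p12_21_1_72)) (pfC_sound p12_21_1_73)) (pfC_sound p12_21_1_74)) (pfC_sound p12_21_1_75)) (pfC_sound p12_21_1_76)) (pfC_sound p12_21_1_77))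 (pfC_sound p12_21_1_78)) (pfC_sound p12_21_1_79)) (pfC_sound p12_21_1_80)) (pfC_sound p12_21_1_81)) (pfC_sound p12_21_1_82)) (pfC_sound p12_21_1_83)) (pfC_sound p12_21_1_84)) (pfC_sound p12_21_1_85)) (pfC_sound p12_21_1_86)) (pfC_sound p12_21_1_87)) (pfC_sound p12_21_1_88)) (pfC_sound p12_21_1_89)) (pfC_sound p12_21_1_90)) (pfC_sound p12_21_1_91)) (pfC_sound p12_21_1_92)) (pfC_sound p12_21_1_93)) (pfC_sound p12_21_1_94))
 (pfC_sound p12_21_1_95)) (pfC_sound p12_21_1_96)) (pfC_sound p12_21_1_97)) (pfC_sound p12_21_1_98)) (pfC_sound p12_21_1_99)) (pfC_sound p12_21_1_100)) (pfC_sound p12_21_1_101)) (pfC_sound p12_21_1_102)) (pfC_sound p12_21_1_103)) (pfC_sound p12_21_1_104)) (pfC_sound p12_21_1_105)) (pfC_sound p12_21_1_106)) (pfC_sound p12_21_1_107)) (pfC_sound p12_21_1_108)) (pfC_sound p12_21_1_109)) (pfC_sound p12_21_1_110)) (pfC_sound p12_21_1_111)) (pfC_sound p12_21_1_112)) (pfC_sound p12_21_1_113)) (pfC_sound p12_21_1_114)) (pfC_sound p12_21_1_115)) (pfC_sound p12_21_1_116))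 (pfC_sound p12_21_1_117)) (pfC_sound p12_21_1_118)) (pfC_sound p12_21_1_119)) (pfC_sound p12_21_1_120)) (pfC_sound p12_21_1_121)) (pfC_sound p12_21_1_122)) (pfC_sound p12_21_1_123)) (pfC_sound p12_21_1_124)) (pfC_sound p12_21_1_125)) (pfC_sound p12_21_1_126)) (pfC_sound p12_21_1_127)) (pfC_sound p12_21_1_128)) (pfC_sound p12_21_1_129)) (pfC_sound p12_21_1_130)) (pfC_sound p12_21_1_131)) (pfC_sound p12_21_1_132)) (pfC_sound p12_21_1_133)) (pfC_sound p12_21_1_134)) (pfC_sound p12_21_1_135)) (pfC_sound p12_21_1_136)) (pfC_sound p12_21_1_137)) (pfC_sound p12_21_1_138)) (pfC_sound p12_21_1_139)) (pfC_sound p12_21_1_140))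
 (pfC_sound p12_21_1_141)) (pfC_sound p12_21_1_142)) (pfC_sound p12_21_1_143)) (pfC_sound p12_21_1_144)) (pfC_sound p12_21_1_145)) (pfC_sound p12_21_1_146)) (pfC_sound p12_21_1_147)) (pfC_sound p12_21_1_148)) (pfC_sound p12_21_1_149)) (pfC_sound p12_21_1_150)) (pfC_sound p12_21_1_151)) (pfC_sound p12_21_1_152)) (pfC_sound p12_21_1_153)) (pfC_sound p12_21_1_154)) (pfC_sound p12_21_1_155)) (pfC_sound p12_21_1_156)) (pfC_sound p12_21_1_157)) (pfC_sound p12_21_1_158)) (pfC_sound p12_21_1_159)) (pfC_sound p12_21_1_160)) (pfC_sound p12_21_1_161)) (pfC_sound p12_21_1_162)) (pfC_sound p12_21_1_163)) (pfC_sound p12_21_1_164)) (pfC_sound p12_21_1_165)) (pfC_sound p12_21_1_166)) (pfC_sound p12_21_1_167)) (pfC_sound p12_21_1_168)) (pfC_sound p12_21_1_169)) (pfC_sound p12_21_1_170)) (pfC_sound p12_21_1_171)) (pfC_sound p12_21_1_172)) (pfC_sound p12_21_1_173)) (pfC_sound p12_21_1_174)) (pfC_sound p12_21_1_175)) (pfC_sound p12_21_1_176)) (pfC_sound p12_21_1_177)) (pfC_sound p12_21_1_178))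 (pfC_sound p12_21_1_179)) (pfC_sound p12_21_1_180)) (pfC_sound p12_21_1_181)) (pfC_sound p12_21_1_182)) (pfC_sound p12_21_1_183)) (pfC_sound p12_21_1_184)) (pfC_sound p12_21_1_185)) (pfC_sound p12_21_1_186))
 (pfC_sound p12_21_1_187)) (pfC_sound p12_21_1_188)) (pfC_sound p12_21_1_189)) (pfC_sound p12_21_1_190)) (pfC_sound p12_21_1_191)) (pfC_sound p12_21_1_192)) (pfC_sound p12_21_1_193)) (pfC_sound p12_21_1_194)) (pfC_sound p12_21_1_195)) (pfC_sound p12_21_1_196)) (pfC_sound p12_21_1_197)) (pfC_sound p12_21_1_198)) (pfC_sound p12_21_1_199)) (pfC_sound p12_21_1_200)) (pfC_sound p12_21_1_201)) (pfC_sound p12_21_1_202)) (pfC_sound p12_21_1_203)) (pfC_sound p12_21_1_204)) (pfC_sound p12_21_1_205)) (pfC_sound p12_21_1_206)) (pfC_sound p12_21_1_207)) (pfC_sound p12_21_1_208)) (pfC_sound p12_21_1_209)) (pfC_sound p12_21_1_210)) (pfC_sound p12_21_1_211)) (pfC_sound p12_21_1_212)) (pfC_sound p12_21_1_213)) (pfC_sound p12_21_1_214)) (pfC_sound p12_21_1_215)) (pfC_sound p12_21_1_216))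 (pfC_sound p12_21_1_217)) (pfC_sound p12_21_1_218)) (pfC_sound p12_21_1_219)) (pfC_sound p12_21_1_220)) (pfC_sound p12_21_1_221)) (by decide +kernel)

def z12_21_1 : zOK yB12_21 (nat_lit 1) (nat_lit 400) (nat_lit 601) (nat_lit 12006452) (nat_lit 8439702) = true := by decide +kernel
def g12_21_1 : gOK yB12_21.x P12_21 (nat_lit 1356) (q12_21 :: r12_21) (nat_lit 1) (nat_lit 400) (nat_lit 2) (nat_lit 601) (nat_lit 11000000) (nat_lit 17884250) (nat_lit 12712500) (nat_lit 12712500) [(nat_lit 800), (nat_lit 1600)] = true := by decide +kernel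
def v12_21_1 : ivC P12_21 s12_21 w12_21 n12_21 (nat_lit 3) (nat_lit 4840) (nat_lit 1) (nat_lit 400) f192_0_400 f200_0_400 (nat_lit 2) (nat_lit 601) f192_0_601 f200_0_601 (nat_lit 12006452) (nat_lit 8439702) p12_21_1 = true := by decide +kernel
end CB
end Pool.Agent.Lib.MP_6947cd_al
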