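import Pool.Agent.Lib.MP_6947cd_al.L.BoxDataB
import Pool.Agent.Lib.MP_6947cd_al.L.TeD2
import Pool.Agent.Lib.MP_6947cd_al.L.TeD3
import Pool.Agent.Lib.MP_6947cd_al.L.TeD4

/-!
Problem MP_6947cd_al (Chollet).  CASE B, rows `j`: boxes (generated).
-/

set_option autoImplicit false
set_option linter.defProp false
set_option maxRecDepth 20000

namespace Pool.Agent.Lib.MP_6947cd_al
namespace CB

open Ent Ent.Pk Fr Fr.WT CA

/-! box `yB13_4` -/

def P13_4 : BQ := ⟨(nat_lit 8), (nat_lit 4), (nat_lit 4), (nat_lit 0), (nat_lit 8), (nat_lit 620), (nat_lit 640), (nat_lit 120), [(nat_lit 200), (nat_lit 300), (nat_lit 450), (nat_lit 800)], (nat_lit 38768000), (nat_lit 16000000), (nat_lit 16000000000)⟩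
def q13_4 : PC := ⟨(nat_lit 1000), [(nat_lit 120000), (nat_lit 200000), (nat_lit 300000), (nat_lit 450000), (nat_lit 800000)], (nat_lit 340282367000166625996085689103316680705000000), (nat_lit 15961232000000), (nat_lit 15961232000000), (nat_lit 10000000)⟩
def r13_4 : List PC := [⟨(nat_lit 1360), [(nat_lit 120571), (nat_lit 201040), (nat_lit 301910), (nat_lit 452555), (nat_lit 800074)], (nat_lit 342439076642302179929151395790516658574937902), (nat_lit 16376842809600), (nat_lit 16390977964800), (nat_lit 10063667)⟩]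
def s13_4 : List PB := [⟨(nat_lit 27200), (nat_lit 1929136000000), [(nat_lit 201040), (nat_lit 301910), (nat_lit 452555), (nat_lit 800074)], (nat_lit 342439076642302179929151395790516658574937902), (nat_lit 1142276749652224), (nat_lit 1142290884807424), (nat_lit 57600)⟩]
def n13_4 : List KN := [⟨(nat_lit 800), (nat_lit 450), (nat_lit 14064972), (nat_lit 9702192)⟩, ⟨(nat_lit 450), (nat_lit 300), (nat_lit 20874739), (nat_lit 14064972)⟩, ⟨(nat_lit 300), (nat_lit 200), (nat_lit 28473124), (nat_lit 20874739)⟩, ⟨(nat_lit 200), (nat_lit 120), (nat_lit 38632330), (nat_lit 28473124)⟩]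
def w13_4 : List ℕ := [(nat_lit 57600)]
def par13_4 : parC yB13_4 P13_4 s13_4 r13_4 q13_4 n13_4 w13_4 = true := by decide +kernel

def p13_4_0 : PF := (PF.cons (PF.cons (PF.cons (PF.cons (PF.leaf (nat_lit 203616) (nat_lit 457693) (nat_lit 66651119) (nat_lit 457693) [(nat_lit 0), (nat_lit 0), (nat_lit 0), (nat_lit 0)]) (PF.cons (PF.leaf (nat_lit 292931) (nat_lit 134950) (nat_lit 66479441) (nat_lit 494421) [(nat_lit 134950), (nat_lit 0), (nat_lit 0), (nat_lit 0)]) (PF.cons (PF.leaf (nat_lit 410744) (nat_lit 153798) (nat_lit 66267838) (nat_lit 533377) [(nat_lit 153798), (nat_lit 0), (nat_lit 0), (nat_lit 0)]) (PF.cons (PF.leaf (nat_lit 549921) (nat_lit 172181) (nat_lit 66019079) (nat_lit 573189) [(nat_lit 172181), (nat_lit 0), (nat_lit 0), (nat_lit 0)]) (PF.cons PF.nil PF.nil))))) (PF.cons (PF.cons (PF.leaf (nat_lit 517521) (nat_lit 572176) (nat_lit 65944222) (nat_lit 572176) [(nat_lit 0), (nat_lit 592413), (nat_lit 0), (nat_lit 0)]) (PF.cons (PF.leaf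 (nat_lit 653278) (nat_lit 183068) (nat_lit 65687720) (nat_lit 608553) [(nat_lit 183068), (nat_lit 629471), (nat_lit 0), (nat_lit 0)]) (PF.cons (PF.leaf (nat_lit 812839) (nat_lit 200504) (nat_lit 65394867) (nat_lit 645643) [(nat_lit 200504), (nat_lit 667292), (nat_lit 0), (nat_lit 0)]) (PF.cons PF.nil PF.nil)))) (PF.cons (PF.cons (PF.leaf (nat_lit 923201) (nat_lit 677087) (nat_lit
 65032528) (nat_lit 677087) [(nat_lit 0), (nat_lit 699598), (nat_lit 0), (nat_lit 0)]) (PF.cons PF.nil PF.nil)) (PF.cons PF.nil (PF.cons PF.nil PF.nil))))) (PF.cons (PF.cons (PF.cons (PF.leaf (nat_lit 1031230) (nat_lit 696896) (nat_lit 64274371) (nat_lit 696896) [(nat_lit 0), (nat_lit 0), (nat_lit 2137544), (nat_lit 0)]) (PF.cons (PF.leaf (nat_lit 1192285) (nat_lit 225067) (nat_lit 63964335) (nat_lit 729379) [(nat_lit 225067), (nat_lit 0), (nat_lit 2190029), (nat_lit 0)]) (PF.cons (PF.leaf (nat_lit 1375954) (nat_lit 241980) (nat_lit 63617838) (nat_lit 762214) [(nat_lit 241980),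 (nat_lit 0), (nat_lit 2244799), (nat_lit 0)]) (PF.cons PF.nil PF.nil)))) (PF.cons (PF.cons (PF.leaf (nat_lit 1490396) (nat_lit 787876) (nat_lit 63209887) (nat_lit 787876) [(nat_lit 0), (nat_lit 813356), (nat_lit 2297692), (nat_lit 0)]) (PF.cons PF.nil PF.nil)) (PF.cons PF.nil PF.nil))) (PF.cons (PF.cons (PF.cons (PF.leaf (nat_lit 2082663) (nat_lit 879280) (nat_lit 61252474) (nat_lit 879280) [(nat_lit 0), (nat_lit 0), (nat_lit 2488529), (nat_lit 0)]) (PF.cons PF.nil PF.nil)) (PF.cons PF.nil PF.nil)) (PF.cons PF.nil (PF.cons PF.nil PF.nil))))) (PF.cons (PF.cons (PF.cons (PF.cons (PF.leaf (nat_lit 1858276)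
 (nat_lit 811622) (nat_lit 60460166) (nat_lit 811622) [(nat_lit 0), (nat_lit 0), (nat_lit 0), (nat_lit 5837024)]) (PF.cons (PF.leaf (nat_lit 2035976) (nat_lit 262426) (nat_lit 60123408) (nat_lit 841356) [(nat_lit 262426), (nat_lit 0), (nat_lit 0), (nat_lit 5881621)]) (PF.cons (PF.leaf (nat_lit 2235316) (nat_lit 279225) (nat_lit 59751373) (nat_lit 870780) [(nat_lit 279225), (nat_lit 0), (nat_lit 0), (nat_lit 5928207)]) (PF.cons (PF.leaf (nat_lit 2452374) (nat_lit 294843) (nat_lit 59349179) (nat_lit 899507) [(nat_lit 294843), (nat_lit 0), (nat_lit 0), (nat_lit 5975596)]) (PF.cons (PF.leaf (nat_lit 2685411) (nat_lit 309470) (nat_lit 58920706) (nat_lit 927333) [(nat_lit 309470), (nat_lit 0), (nat_lit 0), (nat_lit 6022892)]) PF.nil))))) (PF.cons (PF.cons (PF.leaf (nat_lit 2347929) (nat_lit 891170) (nat_lit 59324139) (nat_lit 891170) [(nat_lit 0), (nat_lit 919584), (nat_lit 0), (nat_lit 5973918)]) (PF.cons (PF.leaf (nat_lit 2559835) (nat_lit 300330) (nat_lit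 58925756) (nat_lit 918053) [(nat_lit 300330), (nat_lit 946845), (nat_lit 0), (nat_lit 6017826)]) (PF.cons (PF.leaf (nat_lit 2789510) (nat_lit 314717) (nat_lit 58499725) (nat_lit 944313) [(nat_lit 314717), (nat_lit 973501), (nat_lit
 0), (nat_lit 6061836)]) (PF.cons PF.nil PF.nil)))) (PF.cons (PF.cons (PF.leaf (nat_lit 2897061) (nat_lit 960734) (nat_lit 58068339) (nat_lit 960734) [(nat_lit 0), (nat_lit 990345), (nat_lit 0), (nat_lit 6099048)]) (PF.cons (PF.leaf (nat_lit 3136925) (nat_lit 332796) (nat_lit 57622470) (nat_lit 984803) [(nat_lit 332796), (nat_lit 1014779), (nat_lit 0), (nat_lit 6139184)]) PF.nil)) (PF.cons PF.nil (PF.cons PF.nil PF.nil))))) (PF.cons (PF.cons (PF.cons (PF.leaf (nat_lit 2934924) (nat_lit 961444) (nat_lit 57343673) (nat_lit 961444) [(nat_lit 0), (nat_lit 0), (nat_lit 2670183), (nat_lit 6133510)]) (PF.cons (PF.leaf (nat_lit 3158927) (nat_lit 326425) (nat_lit 56926527) (nat_lit 984938) [(nat_lit 326425), (nat_lit 0), (nat_lit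 2703180), (nat_lit 6167741)]) (PF.cons (PF.leaf (nat_lit 3399516) (nat_lit 339779) (nat_lit 56484012) (nat_lit 1007742) [(nat_lit 339779), (nat_lit 0), (nat_lit 2735968), (nat_lit 6201530)]) (PF.cons PF.nil PF.nil)))) (PF.cons (PF.cons (PF.leaf (nat_lit 3503969) (nat_lit 1020885) (nat_lit 56047168) (nat_lit 1020885) [(nat_lit 0), (nat_lit 1051883), (nat_lit 2760583), (nat_lit 6228291)]) (PF.cons PF.nil PF.nil)) (PF.cons PF.nil PF.nil))) (PF.cons (PF.cons (PF.cons
 (PF.leaf (nat_lit 4106463) (nat_lit 1069208) (nat_lit 54032463) (nat_lit 1069208) [(nat_lit 0), (nat_lit 0), (nat_lit 2846260), (nat_lit 6314620)]) (PF.cons PF.nil PF.nil)) (PF.cons PF.nil PF.nil)) (PF.cons PF.nil (PF.cons PF.nil PF.nil))))) (PF.cons (PF.cons (PF.cons (PF.cons (PF.leaf (nat_lit 3735049) (nat_lit 1015846) (nat_lit 53606398) (nat_lit 1015846) [(nat_lit 0), (nat_lit 0), (nat_lit 0), (nat_lit 6243283)]) (PF.cons (PF.leaf (nat_lit 3962497) (nat_lit 345636) (nat_lit 53200166) (nat_lit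 1036228) [(nat_lit 345636), (nat_lit 0), (nat_lit 0), (nat_lit 6263391)]) (PF.cons (PF.leaf (nat_lit 4205248) (nat_lit 358120) (nat_lit 52771420) (nat_lit 1055736) [(nat_lit 358120), (nat_lit 0), (nat_lit 0), (nat_lit 6282707)]) (PF.cons PF.nil PF.nil)))) (PF.cons (PF.cons (PF.leaf (nat_lit 4302150) (nat_lit 1065524) (nat_lit 52353929) (nat_lit 1065524) [(nat_lit 0), (nat_lit 1097596), (nat_lit 0), (nat_lit 6295880)]) (PF.cons (PF.leaf (nat_lit 4551491) (nat_lit 371731) (nat_lit 51914765) (nat_lit 1083075) [(nat_lit 371731), (nat_lit 1115320), (nat_lit 0), (nat_lit 6311959)]) PF.nil)) (PF.cons PF.nil PF.nil))) (PF.cons (PF.cons (PF.cons (PF.leaf (nat_lit 4875934) (nat_lit 1100788) (nat_lit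
 50454387) (nat_lit 1100788) [(nat_lit 0), (nat_lit 0), (nat_lit 2898097), (nat_lit 6327769)]) (PF.cons PF.nil PF.nil)) (PF.cons PF.nil PF.nil)) (PF.cons PF.nil PF.nil))) (PF.cons (PF.cons (PF.cons (PF.cons (PF.leaf (nat_lit 5583897) (nat_lit 1116846) (nat_lit 47164998) (nat_lit 1116846) [(nat_lit 0), (nat_lit 0), (nat_lit 0), (nat_lit 6275655)]) (PF.cons PF.nil PF.nil)) (PF.cons PF.nil PF.nil)) (PF.cons PF.nil PF.nil)) (PF.cons PF.nil (PF.cons PF.nil (PF.cons PF.nil (PF.cons PF.nil PF.nil))))))))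

def p13_4_0_0 : pfC (piC [(nat_lit 38632330), (nat_lit 28473124), (nat_lit 20874739), (nat_lit 14064972)] (nat_lit 38632330)) p13_4_0 (nat_lit 4) (nat_lit 0) (nat_lit 1) = true := by decide +kernel
def p13_4_0_1 : pfC (piC [(nat_lit 38632330), (nat_lit 28473124), (nat_lit 20874739), (nat_lit 14064972)] (nat_lit 38632330)) p13_4_0 (nat_lit 4) (nat_lit 1) (nat_lit 2) = true := by decide +kernel
def p13_4_0_2 : pfC (piC [(nat_lit 38632330), (nat_lit 28473124), (nat_lit 20874739), (nat_lit 14064972)] (nat_lit 38632330)) p13_4_0 (nat_lit 4) (nat_lit 2) (nat_lit 3) = true := by decide +kernel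
def p13_4_0_3 : pfC (piC [(nat_lit 38632330), (nat_lit 28473124), (nat_lit 20874739), (nat_lit 14064972)] (nat_lit 38632330)) p13_4_0 (nat_lit 4) (nat_lit 3) (nat_lit 4) = true := by decide +kernel
def p13_4_0_4 : pfC (piC [(nat_lit 38632330), (nat_lit 28473124), (nat_lit 20874739), (nat_lit 14064972)] (nat_lit 38632330)) p13_4_0 (nat_lit 4) (nat_lit 4) (nat_lit 5) = true := by decide +kernel
def p13_4_0_5 : pfC (piC [(nat_lit 38632330), (nat_lit 28473124), (nat_lit 20874739), (nat_lit 14064972)] (nat_lit 38632330)) p13_4_0 (nat_lit 4) (nat_lit 5) (nat_lit 6) = true := by decide +kernel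
def p13_4_0_6 : pfC (piC [(nat_lit 38632330), (nat_lit 28473124), (nat_lit 20874739), (nat_lit 14064972)] (nat_lit 38632330)) p13_4_0 (nat_lit 4) (nat_lit 6) (nat_lit 7) = true := by decide +kernel
def p13_4_0_7 : pfC (piC [(nat_lit 38632330), (nat_lit 28473124), (nat_lit 20874739), (nat_lit 14064972)] (nat_lit 38632330)) p13_4_0 (nat_lit 4) (nat_lit 7) (nat_lit 8) = true := by decide +kernel
def p13_4_0_8 : pfC (piC [(nat_lit 38632330), (nat_lit 28473124), (nat_lit 20874739), (nat_lit 14064972)] (nat_lit 38632330)) p13_4_0 (nat_lit 4) (nat_lit 8) (nat_lit 9) = true := by decide +kernel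
def p13_4_0_9 : pfC (piC [(nat_lit 38632330), (nat_lit 28473124), (nat_lit 20874739), (nat_lit 14064972)] (nat_lit 38632330)) p13_4_0 (nat_lit 4) (nat_lit 9) (nat_lit 10) = true := by decide +kernel
def p13_4_0_10 : pfC (piC [(nat_lit 38632330), (nat_lit 28473124), (nat_lit 20874739), (nat_lit 14064972)] (nat_lit 38632330)) p13_4_0 (nat_lit 4) (nat_lit 10) (nat_lit 11) = true := by decide +kernel
def p13_4_0_11 : pfC (piC [(nat_lit 38632330), (nat_lit 28473124), (nat_lit 20874739), (nat_lit 14064972)] (nat_lit 38632330)) p13_4_0 (nat_lit 4) (nat_lit 11) (nat_lit 12) = true := by decide +kernel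
def p13_4_0_12 : pfC (piC [(nat_lit 38632330), (nat_lit 28473124), (nat_lit 20874739), (nat_lit 14064972)] (nat_lit 38632330)) p13_4_0 (nat_lit 4) (nat_lit 12) (nat_lit 13) = true := by decide +kernel
def p13_4_0_13 : pfC (piC [(nat_lit 38632330), (nat_lit 28473124), (nat_lit 20874739), (nat_lit 14064972)] (nat_lit 38632330)) p13_4_0 (nat_lit 4) (nat_lit 13) (nat_lit 14) = true := by decide +kernel
def p13_4_0_14 : pfC (piC [(nat_lit 38632330), (nat_lit 28473124), (nat_lit 20874739), (nat_lit 14064972)] (nat_lit 38632330)) p13_4_0 (nat_lit 4) (nat_lit 14) (nat_lit 15) = true := by decide +kernel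
def p13_4_0_15 : pfC (piC [(nat_lit 38632330), (nat_lit 28473124), (nat_lit 20874739), (nat_lit 14064972)] (nat_lit 38632330)) p13_4_0 (nat_lit 4) (nat_lit 15) (nat_lit 16) = true := by decide +kernel
def p13_4_0_16 : pfC (piC [(nat_lit 38632330), (nat_lit 28473124), (nat_lit 20874739), (nat_lit 14064972)] (nat_lit 38632330)) p13_4_0 (nat_lit 4) (nat_lit 16) (nat_lit 17) = true := by decide +kernel
def p13_4_0_17 : pfC (piC [(nat_lit 38632330), (nat_lit 28473124), (nat_lit 20874739), (nat_lit 14064972)] (nat_lit 38632330)) p13_4_0 (nat_lit 4) (nat_lit 17) (nat_lit 18) = true := by decide +kernel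
def p13_4_0_18 : pfC (piC [(nat_lit 38632330), (nat_lit 28473124), (nat_lit 20874739), (nat_lit 14064972)] (nat_lit 38632330)) p13_4_0 (nat_lit 4) (nat_lit 18) (nat_lit 19) = true := by decide +kernel
def p13_4_0_19 : pfC (piC [(nat_lit 38632330), (nat_lit 28473124), (nat_lit 20874739), (nat_lit 14064972)] (nat_lit 38632330)) p13_4_0 (nat_lit 4) (nat_lit 19) (nat_lit 20) = true := by decide +kernel
def p13_4_0_20 : pfC (piC [(nat_lit 38632330), (nat_lit 28473124), (nat_lit 20874739), (nat_lit 14064972)] (nat_lit 38632330)) p13_4_0 (nat_lit 4) (nat_lit 20) (nat_lit 21) = true := by decide +kernel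
def p13_4_0_21 : pfC (piC [(nat_lit 38632330), (nat_lit 28473124), (nat_lit 20874739), (nat_lit 14064972)] (nat_lit 38632330)) p13_4_0 (nat_lit 4) (nat_lit 21) (nat_lit 22) = true := by decide +kernel
def p13_4_0_22 : pfC (piC [(nat_lit 38632330), (nat_lit 28473124), (nat_lit 20874739), (nat_lit 14064972)] (nat_lit 38632330)) p13_4_0 (nat_lit 4) (nat_lit 22) (nat_lit 23) = true := by decide +kernel
def p13_4_0_23 : pfC (piC [(nat_lit 38632330), (nat_lit 28473124), (nat_lit 20874739), (nat_lit 14064972)] (nat_lit 38632330)) p13_4_0 (nat_lit 4) (nat_lit 23) (nat_lit 24) = true := by decide +kernel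
def p13_4_0_24 : pfC (piC [(nat_lit 38632330), (nat_lit 28473124), (nat_lit 20874739), (nat_lit 14064972)] (nat_lit 38632330)) p13_4_0 (nat_lit 4) (nat_lit 24) (nat_lit 25) = true := by decide +kernel
def p13_4_0_25 : pfC (piC [(nat_lit 38632330), (nat_lit 28473124), (nat_lit 20874739), (nat_lit 14064972)] (nat_lit 38632330)) p13_4_0 (nat_lit 4) (nat_lit 25) (nat_lit 26) = true := by decide +kernel
def p13_4_0_26 : pfC (piC [(nat_lit 38632330), (nat_lit 28473124), (nat_lit 20874739), (nat_lit 14064972)] (nat_lit 38632330)) p13_4_0 (nat_lit 4) (nat_lit 26) (nat_lit 27) = true := by decide +kernel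
def p13_4_0_27 : pfC (piC [(nat_lit 38632330), (nat_lit 28473124), (nat_lit 20874739), (nat_lit 14064972)] (nat_lit 38632330)) p13_4_0 (nat_lit 4) (nat_lit 27) (nat_lit 28) = true := by decide +kernel
def p13_4_0_28 : pfC (piC [(nat_lit 38632330), (nat_lit 28473124), (nat_lit 20874739), (nat_lit 14064972)] (nat_lit 38632330)) p13_4_0 (nat_lit 4) (nat_lit 28) (nat_lit 29) = true := by decide +kernel
def p13_4_0_29 : pfC (piC [(nat_lit 38632330), (nat_lit 28473124), (nat_lit 20874739), (nat_lit 14064972)] (nat_lit 38632330)) p13_4_0 (nat_lit 4) (nat_lit 29) (nat_lit 30) = true := by decide +kernel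
def p13_4_0_30 : pfC (piC [(nat_lit 38632330), (nat_lit 28473124), (nat_lit 20874739), (nat_lit 14064972)] (nat_lit 38632330)) p13_4_0 (nat_lit 4) (nat_lit 30) (nat_lit 31) = true := by decide +kernel
def p13_4_0_31 : pfC (piC [(nat_lit 38632330), (nat_lit 28473124), (nat_lit 20874739), (nat_lit 14064972)] (nat_lit 38632330)) p13_4_0 (nat_lit 4) (nat_lit 31) (nat_lit 32) = true := by decide +kernel
def p13_4_0_32 : pfC (piC [(nat_lit 38632330), (nat_lit 28473124), (nat_lit 20874739), (nat_lit 14064972)] (nat_lit 38632330)) p13_4_0 (nat_lit 4) (nat_lit 32) (nat_lit 33) = true := by decide +kernel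
def p13_4_0_33 : pfC (piC [(nat_lit 38632330), (nat_lit 28473124), (nat_lit 20874739), (nat_lit 14064972)] (nat_lit 38632330)) p13_4_0 (nat_lit 4) (nat_lit 33) (nat_lit 34) = true := by decide +kernel
def p13_4_0_34 : pfC (piC [(nat_lit 38632330), (nat_lit 28473124), (nat_lit 20874739), (nat_lit 14064972)] (nat_lit 38632330)) p13_4_0 (nat_lit 4) (nat_lit 34) (nat_lit 35) = true := by decide +kernel
theorem p13_4_0_T : PfS (PiF n13_4.reverse (nat_lit 38632330)) p13_4_0 (nat_lit 4) [] 0 :=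
  pftab_of (los := [(nat_lit 38632330), (nat_lit 28473124), (nat_lit 20874739), (nat_lit 14064972)]) (by decide +kernel) (hi := (nat_lit 35)) (PfP.trans (PfP.trans (PfP.trans (PfP.trans (PfP.trans (PfP.trans (PfP.trans (PfP.trans (PfP.trans (PfP.trans (PfP.trans (PfP.trans (PfP.trans (PfP.trans (PfP.trans (PfP.trans (PfP.trans (PfP.trans (PfP.trans (PfP.trans (PfP.trans (PfP.trans (PfP.trans (PfP.trans (PfP.trans (PfP.trans (PfP.trans (PfP.trans (PfP.trans (PfP.trans (PfP.trans (PfP.trans (PfP.trans (PfP.trans (pfC_sound p13_4_0_0) (pfC_sound p13_4_0_1)) (pfC_sound p13_4_0_2)) (pfC_sound p13_4_0_3)) (pfC_sound p13_4_0_4)) (pfC_sound p13_4_0_5)) (pfC_sound p13_4_0_6)) (pfC_sound p13_4_0_7)) (pfC_sound p13_4_0_8)) (pfC_sound p13_4_0_9)) (pfC_sound p13_4_0_10)) (pfC_sound p13_4_0_11)) (pfC_sound p13_4_0_12)) (pfC_sound p13_4_0_13)) (pfC_sound p13_4_0_14)) (pfC_sound p13_4_0_15)) (pfC_sound p13_4_0_16)) (pfC_sound p13_4_0_17)) (pfC_sound p13_4_0_18)) (pfC_sound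 p13_4_0_19)) (pfC_sound p13_4_0_20)) (pfC_sound p13_4_0_21)) (pfC_sound p13_4_0_22)) (pfC_sound p13_4_0_23)) (pfC_sound p13_4_0_24)) (pfC_sound p13_4_0_25)) (pfC_sound p13_4_0_26)) (pfC_sound p13_4_0_27)) (pfC_sound p13_4_0_28)) (pfC_sound p13_4_0_29)) (pfC_sound p13_4_0_30)) (pfC_sound p13_4_0_31)) (pfC_sound p13_4_0_32)) (pfC_sound p13_4_0_33)) (pfC_sound
 p13_4_0_34)) (by decide +kernel)

def z13_4_0 : zOK yB13_4 (nat_lit 0) (nat_lit 0) (nat_lit 400) (nat_lit 38632330) (nat_lit 11177953) = true := by decide +kernel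
def g13_4_0 : gOK yB13_4.x P13_4 (nat_lit 1419) (q13_4 :: r13_4) (nat_lit 0) (nat_lit 0) (nat_lit 1) (nat_lit 400) (nat_lit 0) (nat_lit 11000000) (nat_lit 12712500) (nat_lit 12712500) [(nat_lit 800), (nat_lit 1600)] = true := by decide +kernel
def v13_4_0 : ivC P13_4 s13_4 w13_4 n13_4 (nat_lit 4) (nat_lit 5580) (nat_lit 0) (nat_lit 0) f120_1_0 f128_1_0 (nat_lit 1) (nat_lit 400) f120_1_400 f128_1_400 (nat_lit 38632330) (nat_lit 11177953) p13_4_0 = true := by decide +kernel
def p13_4_1 : PF := (PF.cons (PF.cons (PF.cons (PF.cons (PF.leaf (nat_lit 2038288) (nat_lit 9495186) (nat_lit 57613626) (nat_lit 9495186) [(nat_lit 0), (nat_lit 0), (nat_lit 0), (nat_lit 0)]) (PF.cons (PF.leaf (nat_lit 2177900) (nat_lit 231077) (nat_lit 57361035) (nat_lit 9516699) [(nat_lit 231077), (nat_lit 0), (nat_lit 0), (nat_lit 0)]) (PF.cons (PF.leaf (nat_lit 2344584) (nat_lit 251773) (nat_lit 57064845) (nat_lit 9540420) [(nat_lit 251773), (nat_lit 0), (nat_lit 0), (nat_lit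 0)]) (PF.cons PF.nil PF.nil)))) (PF.cons (PF.cons (PF.leaf (nat_lit 2459251) (nat_lit 881906) (nat_lit 56659768) (nat_lit 9567137) [(nat_lit 0), (nat_lit 881906), (nat_lit 0), (nat_lit 0)]) (PF.cons (PF.leaf (nat_lit 2639949) (nat_lit 276117) (nat_lit 56333088) (nat_lit 9589205) [(nat_lit 276117), (nat_lit 910401), (nat_lit 0), (nat_lit 0)]) PF.nil)) (PF.cons PF.nil PF.nil))) (PF.cons (PF.cons (PF.cons (PF.leaf (nat_lit 3003219) (nat_lit 2635742) (nat_lit 54830628) (nat_lit 9642442) [(nat_lit 0), (nat_lit 0), (nat_lit 2635742), (nat_lit 0)]) (PF.cons (PF.leaf (nat_lit 3196325) (nat_lit 302238) (nat_lit 54484988) (nat_lit 9656621) [(nat_lit 302238), (nat_lit 0), (nat_lit 2664964), (nat_lit 0)]) PF.nil)) (PF.cons PF.nil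
 PF.nil)) (PF.cons PF.nil PF.nil))) (PF.cons (PF.cons (PF.cons (PF.cons (PF.leaf (nat_lit 3749220) (nat_lit 6159084) (nat_lit 51339710) (nat_lit 9610017) [(nat_lit 0), (nat_lit 0), (nat_lit 0), (nat_lit 6159084)]) (PF.cons (PF.leaf (nat_lit 3946228) (nat_lit 319005) (nat_lit 51003646) (nat_lit 9612033) [(nat_lit 319005), (nat_lit 0), (nat_lit 0), (nat_lit 6174127)]) (PF.cons (PF.leaf (nat_lit 4162306) (nat_lit 333901) (nat_lit 50639293) (nat_lit 9612757) [(nat_lit 333901), (nat_lit 0), (nat_lit 0), (nat_lit 6188958)]) (PF.cons PF.nil PF.nil)))) (PF.cons (PF.cons (PF.leaf (nat_lit 4261870) (nat_lit 1057353) (nat_lit 50242943) (nat_lit 9608900) [(nat_lit 0), (nat_lit 1057353), (nat_lit 0), (nat_lit 6199614)]) (PF.cons PF.nil PF.nil)) (PF.cons PF.nil PF.nil))) (PF.cons (PF.cons (PF.cons (PF.leaf (nat_lit 4802841) (nat_lit 2837782) (nat_lit 48486908) (nat_lit 9564243) [(nat_lit 0), (nat_lit 0), (nat_lit 2837782), (nat_lit 6219878)]) (PF.cons PF.nil PF.nil))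 (PF.cons PF.nil PF.nil)) (PF.cons PF.nil PF.nil))) (PF.cons (PF.cons (PF.cons (PF.cons (PF.leaf (nat_lit 5474641) (nat_lit 6155859) (nat_lit 45417724) (nat_lit 9379369) [(nat_lit 0), (nat_lit 0), (nat_lit 0), (nat_lit 6155859)])
 (PF.cons PF.nil PF.nil)) (PF.cons PF.nil PF.nil)) (PF.cons PF.nil PF.nil)) (PF.cons PF.nil (PF.cons PF.nil (PF.cons PF.nil PF.nil))))))

def p13_4_1_0 : pfC (piC [(nat_lit 38632330), (nat_lit 28473124), (nat_lit 20874739), (nat_lit 14064972)] (nat_lit 11177953)) p13_4_1 (nat_lit 4) (nat_lit 0) (nat_lit 1) = true := by decide +kernel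
def p13_4_1_1 : pfC (piC [(nat_lit 38632330), (nat_lit 28473124), (nat_lit 20874739), (nat_lit 14064972)] (nat_lit 11177953)) p13_4_1 (nat_lit 4) (nat_lit 1) (nat_lit 2) = true := by decide +kernel
def p13_4_1_2 : pfC (piC [(nat_lit 38632330), (nat_lit 28473124), (nat_lit 20874739), (nat_lit 14064972)] (nat_lit 11177953)) p13_4_1 (nat_lit 4) (nat_lit 2) (nat_lit 3) = true := by decide +kernel
def p13_4_1_3 : pfC (piC [(nat_lit 38632330), (nat_lit 28473124), (nat_lit 20874739), (nat_lit 14064972)] (nat_lit 11177953)) p13_4_1 (nat_lit 4) (nat_lit 3) (nat_lit 4) = true := by decide +kernel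
def p13_4_1_4 : pfC (piC [(nat_lit 38632330), (nat_lit 28473124), (nat_lit 20874739), (nat_lit 14064972)] (nat_lit 11177953)) p13_4_1 (nat_lit 4) (nat_lit 4) (nat_lit 5) = true := by decide +kernel
def p13_4_1_5 : pfC (piC [(nat_lit 38632330), (nat_lit 28473124), (nat_lit 20874739), (nat_lit 14064972)] (nat_lit 11177953)) p13_4_1 (nat_lit 4) (nat_lit 5) (nat_lit 6) = true := by decide +kernel
def p13_4_1_6 : pfC (piC [(nat_lit 38632330), (nat_lit 28473124), (nat_lit 20874739), (nat_lit 14064972)] (nat_lit 11177953)) p13_4_1 (nat_lit 4) (nat_lit 6) (nat_lit 7) = true := by decide +kernel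
def p13_4_1_7 : pfC (piC [(nat_lit 38632330), (nat_lit 28473124), (nat_lit 20874739), (nat_lit 14064972)] (nat_lit 11177953)) p13_4_1 (nat_lit 4) (nat_lit 7) (nat_lit 8) = true := by decide +kernel
def p13_4_1_8 : pfC (piC [(nat_lit 38632330), (nat_lit 28473124), (nat_lit 20874739), (nat_lit 14064972)] (nat_lit 11177953)) p13_4_1 (nat_lit 4) (nat_lit 8) (nat_lit 9) = true := by decide +kernel
def p13_4_1_9 : pfC (piC [(nat_lit 38632330), (nat_lit 28473124), (nat_lit 20874739), (nat_lit 14064972)] (nat_lit 11177953)) p13_4_1 (nat_lit 4) (nat_lit 9) (nat_lit 10) = true := by decide +kernel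
def p13_4_1_10 : pfC (piC [(nat_lit 38632330), (nat_lit 28473124), (nat_lit 20874739), (nat_lit 14064972)] (nat_lit 11177953)) p13_4_1 (nat_lit 4) (nat_lit 10) (nat_lit 11) = true := by decide +kernel
def p13_4_1_11 : pfC (piC [(nat_lit 38632330), (nat_lit 28473124), (nat_lit 20874739), (nat_lit 14064972)] (nat_lit 11177953)) p13_4_1 (nat_lit 4) (nat_lit 11) (nat_lit 12) = true := by decide +kernel
def p13_4_1_12 : pfC (piC [(nat_lit 38632330), (nat_lit 28473124), (nat_lit 20874739), (nat_lit 14064972)] (nat_lit 11177953)) p13_4_1 (nat_lit 4) (nat_lit 12) (nat_lit 13) = true := by decide +kernel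
theorem p13_4_1_T : PfS (PiF n13_4.reverse (nat_lit 11177953)) p13_4_1 (nat_lit 4) [] 0 :=
  pftab_of (los := [(nat_lit 38632330), (nat_lit 28473124), (nat_lit 20874739), (nat_lit 14064972)]) (by decide +kernel) (hi := (nat_lit 13)) (PfP.trans (PfP.trans (PfP.trans (PfP.trans (PfP.trans (PfP.trans (PfP.trans (PfP.trans (PfP.trans (PfP.trans (PfP.trans (PfP.trans (pfC_sound p13_4_1_0) (pfC_sound p13_4_1_1)) (pfC_sound p13_4_1_2)) (pfC_sound p13_4_1_3)) (pfC_sound p13_4_1_4)) (pfC_sound p13_4_1_5)) (pfC_sound p13_4_1_6)) (pfC_sound p13_4_1_7)) (pfC_sound p13_4_1_8)) (pfC_sound p13_4_1_9)) (pfC_sound p13_4_1_10)) (pfC_sound p13_4_1_11)) (pfC_sound p13_4_1_12)) (by decide +kernel)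

def z13_4_1 : zOK yB13_4 (nat_lit 1) (nat_lit 400) (nat_lit 600) (nat_lit 11177953) (nat_lit 6851792) = true := by decide +kernel
def g13_4_1 : gOK yB13_4.x P13_4 (nat_lit 1419) (q13_4 :: r13_4) (nat_lit 1) (nat_lit 400) (nat_lit 2) (nat_lit 600) (nat_lit 11000000) (nat_lit 17850000) (nat_lit 12712500) (nat_lit 12712500) [(nat_lit 800), (nat_lit 1130)] = true := by decide +kernel
def v13_4_1 : ivC P13_4 s13_4 w13_4 n13_4 (nat_lit 4) (nat_lit 5180) (nat_lit 1) (nat_lit 400) f120_1_400 f128_1_400 (nat_lit 2) (nat_lit 600) f120_1_600 f128_1_600 (nat_lit 11177953) (nat_lit 6851792) p13_4_1 = true := by decide +kernel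
def p13_4_2 : PF := (PF.cons (PF.cons (PF.cons (PF.cons (PF.leaf (nat_lit 2747699) (nat_lit 16016748) (nat_lit 51092064) (nat_lit 16016748) [(nat_lit 0), (nat_lit 0), (nat_lit 0), (nat_lit 0)]) (PF.cons (PF.leaf (nat_lit 2884162) (nat_lit 232823) (nat_lit 50874755) (nat_lit 16001233) [(nat_lit 232823), (nat_lit 0), (nat_lit 0), (nat_lit 0)]) (PF.cons (PF.leaf (nat_lit 3046651) (nat_lit 253101) (nat_lit 50620426) (nat_lit 15982182) [(nat_lit 253101), (nat_lit 0), (nat_lit 0), (nat_lit 0)]) (PF.cons (PF.leaf (nat_lit 3229182) (nat_lit 271082) (nat_lit 50335812) (nat_lit 15959752) [(nat_lit 271082), (nat_lit 0), (nat_lit 0), (nat_lit 0)]) (PF.cons PF.nil PF.nil))))) (PF.cons (PF.cons (PF.leaf (nat_lit 3153796) (nat_lit 881605) (nat_lit 50274370) (nat_lit 15952836) [(nat_lit 0), (nat_lit 881605), (nat_lit 0), (nat_lit 0)]) (PF.cons (PF.leaf (nat_lit 3328829) (nat_lit 276121) (nat_lit 49995147) (nat_lit 15929425) [(nat_lit 276121), (nat_lit 908117), (nat_lit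 0), (nat_lit 0)]) (PF.cons (PF.leaf (nat_lit 3523635) (nat_lit 291990) (nat_lit 49688542) (nat_lit 15902483) [(nat_lit 291990), (nat_lit 933805), (nat_lit 0), (nat_lit 0)]) (PF.cons PF.nil PF.nil)))) (PF.cons (PF.cons (PF.leaf (nat_lit 3622896)
 (nat_lit 949519) (nat_lit 49341344) (nat_lit 15868428) [(nat_lit 0), (nat_lit 949519), (nat_lit 0), (nat_lit 0)]) (PF.cons PF.nil PF.nil)) (PF.cons PF.nil (PF.cons PF.nil PF.nil))))) (PF.cons (PF.cons (PF.cons (PF.leaf (nat_lit 3660581) (nat_lit 2590489) (nat_lit 48725324) (nat_lit 15792999) [(nat_lit 0), (nat_lit 0), (nat_lit 2590489), (nat_lit 0)]) (PF.cons (PF.leaf (nat_lit 3845957) (nat_lit 299023) (nat_lit 48432483) (nat_lit 15762493) [(nat_lit 299023), (nat_lit 0), (nat_lit 2614812), (nat_lit 0)]) (PF.cons PF.nil (PF.cons PF.nil PF.nil)))) (PF.cons (PF.cons (PF.leaf (nat_lit 4146457) (nat_lit 999965) (nat_lit 47764026) (nat_lit 15686826) [(nat_lit 0), (nat_lit 999965), (nat_lit 2657994), (nat_lit 0)])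 (PF.cons PF.nil PF.nil)) (PF.cons PF.nil PF.nil))) (PF.cons (PF.cons (PF.cons (PF.leaf (nat_lit 4666515) (nat_lit 2715018) (nat_lit 46200565) (nat_lit 15478210) [(nat_lit 0), (nat_lit 0), (nat_lit 2715018), (nat_lit 0)]) (PF.cons PF.nil PF.nil)) (PF.cons PF.nil PF.nil)) PF.nil))) (PF.cons (PF.cons (PF.cons (PF.cons (PF.leaf (nat_lit 4333973) (nat_lit 5919124) (nat_lit 45815454) (nat_lit 15374234) [(nat_lit 0), (nat_lit 0), (nat_lit 0), (nat_lit 5919124)]) (PF.cons (PF.leaf
 (nat_lit 4521833) (nat_lit 311550) (nat_lit 45532940) (nat_lit 15336213) [(nat_lit 311550), (nat_lit 0), (nat_lit 0), (nat_lit 5928107)]) (PF.cons (PF.leaf (nat_lit 4727563) (nat_lit 325650) (nat_lit 45226885) (nat_lit 15293995) [(nat_lit 325650), (nat_lit 0), (nat_lit 0), (nat_lit 5936631)]) (PF.cons PF.nil PF.nil)))) (PF.cons (PF.cons (PF.leaf (nat_lit 4818504) (nat_lit 1027675) (nat_lit 44895013) (nat_lit 15245144) [(nat_lit 0), (nat_lit 1027675), (nat_lit 0), (nat_lit 5940980)])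 (PF.cons (PF.leaf (nat_lit 5031051) (nat_lit 339709) (nat_lit 44578031) (nat_lit 15199134) [(nat_lit 339709), (nat_lit 1044605), (nat_lit 0), (nat_lit 5947331)]) PF.nil)) (PF.cons PF.nil PF.nil))) (PF.cons (PF.cons (PF.cons (PF.leaf (nat_lit 5318002) (nat_lit 2731824) (nat_lit 43429226) (nat_lit 15009579) [(nat_lit 0), (nat_lit 0), (nat_lit 2731824), (nat_lit 5938182)]) (PF.cons PF.nil PF.nil)) (PF.cons PF.nil PF.nil)) (PF.cons PF.nil PF.nil))) (PF.cons (PF.cons (PF.cons (PF.cons (PF.leaf (nat_lit 5927043) (nat_lit 5853196) (nat_lit 40881978) (nat_lit 14520440) [(nat_lit 0), (nat_lit 0), (nat_lit 0), (nat_lit 5853196)]) (PF.cons PF.nil PF.nil)) (PF.cons PF.nil PF.nil)) (PF.cons PF.nil PF.nil)) (PF.cons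
 PF.nil (PF.cons PF.nil (PF.cons PF.nil PF.nil))))))

def p13_4_2_0 : pfC (piC [(nat_lit 38632330), (nat_lit 28473124), (nat_lit 20874739), (nat_lit 14064972)] (nat_lit 6851792)) p13_4_2 (nat_lit 4) (nat_lit 0) (nat_lit 1) = true := by decide +kernel
def p13_4_2_1 : pfC (piC [(nat_lit 38632330), (nat_lit 28473124), (nat_lit 20874739), (nat_lit 14064972)] (nat_lit 6851792)) p13_4_2 (nat_lit 4) (nat_lit 1) (nat_lit 2) = true := by decide +kernel
def p13_4_2_2 : pfC (piC [(nat_lit 38632330), (nat_lit 28473124), (nat_lit 20874739), (nat_lit 14064972)] (nat_lit 6851792)) p13_4_2 (nat_lit 4) (nat_lit 2) (nat_lit 3) = true := by decide +kernel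
def p13_4_2_3 : pfC (piC [(nat_lit 38632330), (nat_lit 28473124), (nat_lit 20874739), (nat_lit 14064972)] (nat_lit 6851792)) p13_4_2 (nat_lit 4) (nat_lit 3) (nat_lit 4) = true := by decide +kernel
def p13_4_2_4 : pfC (piC [(nat_lit 38632330), (nat_lit 28473124), (nat_lit 20874739), (nat_lit 14064972)] (nat_lit 6851792)) p13_4_2 (nat_lit 4) (nat_lit 4) (nat_lit 5) = true := by decide +kernel
def p13_4_2_5 : pfC (piC [(nat_lit 38632330), (nat_lit 28473124), (nat_lit 20874739), (nat_lit 14064972)] (nat_lit 6851792)) p13_4_2 (nat_lit 4) (nat_lit 5) (nat_lit 6) = true := by decide +kernel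
def p13_4_2_6 : pfC (piC [(nat_lit 38632330), (nat_lit 28473124), (nat_lit 20874739), (nat_lit 14064972)] (nat_lit 6851792)) p13_4_2 (nat_lit 4) (nat_lit 6) (nat_lit 7) = true := by decide +kernel
def p13_4_2_7 : pfC (piC [(nat_lit 38632330), (nat_lit 28473124), (nat_lit 20874739), (nat_lit 14064972)] (nat_lit 6851792)) p13_4_2 (nat_lit 4) (nat_lit 7) (nat_lit 8) = true := by decide +kernel
def p13_4_2_8 : pfC (piC [(nat_lit 38632330), (nat_lit 28473124), (nat_lit 20874739), (nat_lit 14064972)] (nat_lit 6851792)) p13_4_2 (nat_lit 4) (nat_lit 8) (nat_lit 9) = true := by decide +kernel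
def p13_4_2_9 : pfC (piC [(nat_lit 38632330), (nat_lit 28473124), (nat_lit 20874739), (nat_lit 14064972)] (nat_lit 6851792)) p13_4_2 (nat_lit 4) (nat_lit 9) (nat_lit 10) = true := by decide +kernel
def p13_4_2_10 : pfC (piC [(nat_lit 38632330), (nat_lit 28473124), (nat_lit 20874739), (nat_lit 14064972)] (nat_lit 6851792)) p13_4_2 (nat_lit 4) (nat_lit 10) (nat_lit 11) = true := by decide +kernel
def p13_4_2_11 : pfC (piC [(nat_lit 38632330), (nat_lit 28473124), (nat_lit 20874739), (nat_lit 14064972)] (nat_lit 6851792)) p13_4_2 (nat_lit 4) (nat_lit 11) (nat_lit 12) = true := by decide +kernel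
def p13_4_2_12 : pfC (piC [(nat_lit 38632330), (nat_lit 28473124), (nat_lit 20874739), (nat_lit 14064972)] (nat_lit 6851792)) p13_4_2 (nat_lit 4) (nat_lit 12) (nat_lit 13) = true := by decide +kernel
def p13_4_2_13 : pfC (piC [(nat_lit 38632330), (nat_lit 28473124), (nat_lit 20874739), (nat_lit 14064972)] (nat_lit 6851792)) p13_4_2 (nat_lit 4) (nat_lit 13) (nat_lit 14) = true := by decide +kernel
def p13_4_2_14 : pfC (piC [(nat_lit 38632330), (nat_lit 28473124), (nat_lit 20874739), (nat_lit 14064972)] (nat_lit 6851792)) p13_4_2 (nat_lit 4) (nat_lit 14) (nat_lit 15) = true := by decide +kernel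
def p13_4_2_15 : pfC (piC [(nat_lit 38632330), (nat_lit 28473124), (nat_lit 20874739), (nat_lit 14064972)] (nat_lit 6851792)) p13_4_2 (nat_lit 4) (nat_lit 15) (nat_lit 16) = true := by decide +kernel
def p13_4_2_16 : pfC (piC [(nat_lit 38632330), (nat_lit 28473124), (nat_lit 20874739), (nat_lit 14064972)] (nat_lit 6851792)) p13_4_2 (nat_lit 4) (nat_lit 16) (nat_lit 17) = true := by decide +kernel
def p13_4_2_17 : pfC (piC [(nat_lit 38632330), (nat_lit 28473124), (nat_lit 20874739), (nat_lit 14064972)] (nat_lit 6851792)) p13_4_2 (nat_lit 4) (nat_lit 17) (nat_lit 18) = true := by decide +kernel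
def p13_4_2_18 : pfC (piC [(nat_lit 38632330), (nat_lit 28473124), (nat_lit 20874739), (nat_lit 14064972)] (nat_lit 6851792)) p13_4_2 (nat_lit 4) (nat_lit 18) (nat_lit 19) = true := by decide +kernel
theorem p13_4_2_T : PfS (PiF n13_4.reverse (nat_lit 6851792)) p13_4_2 (nat_lit 4) [] 0 :=
  pftab_of (los := [(nat_lit 38632330), (nat_lit 28473124), (nat_lit 20874739), (nat_lit 14064972)]) (by decide +kernel) (hi := (nat_lit 19)) (PfP.trans (PfP.trans (PfP.trans (PfP.trans (PfP.trans (PfP.trans (PfP.trans (PfP.trans (PfP.trans (PfP.trans (PfP.trans (PfP.trans (PfP.trans (PfP.trans (PfP.trans (PfP.trans (PfP.trans (PfP.trans (pfC_sound p13_4_2_0) (pfC_sound p13_4_2_1)) (pfC_sound p13_4_2_2)) (pfC_sound p13_4_2_3)) (pfC_sound p13_4_2_4)) (pfC_sound p13_4_2_5)) (pfC_sound p13_4_2_6)) (pfC_sound p13_4_2_7)) (pfC_sound p13_4_2_8)) (pfC_sound p13_4_2_9)) (pfC_sound p13_4_2_10)) (pfC_sound p13_4_2_11)) (pfC_sound p13_4_2_12)) (pfC_sound p13_4_2_13)) (pfC_sound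 p13_4_2_14)) (pfC_sound p13_4_2_15)) (pfC_sound p13_4_2_16)) (pfC_sound p13_4_2_17)) (pfC_sound p13_4_2_18)) (by decide +kernel)

def z13_4_2 : zOK yB13_4 (nat_lit 2) (nat_lit 600) (nat_lit 750) (nat_lit 6851792) (nat_lit 4748153) = true := by decide +kernel
def g13_4_2 : gOK yB13_4.x P13_4 (nat_lit 1419) (q13_4 :: r13_4) (nat_lit 2) (nat_lit 600) (nat_lit 3) (nat_lit 750) (nat_lit 12712500) (nat_lit 12712500) (nat_lit 12712500) (nat_lit 12712500) [(nat_lit 800), (nat_lit 1600)] = true := by decide +kernel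
def v13_4_2 : ivC P13_4 s13_4 w13_4 n13_4 (nat_lit 4) (nat_lit 4980) (nat_lit 2) (nat_lit 600) f120_1_600 f128_1_600 (nat_lit 3) (nat_lit 750) f120_1_750 f128_1_750 (nat_lit 6851792) (nat_lit 4748153) p13_4_2 = true := by decide +kernel
def p13_4_3 : PF := (PF.cons (PF.cons (PF.cons (PF.cons (PF.leaf (nat_lit 3156937) (nat_lit 21884681) (nat_lit 45224131) (nat_lit 21884681) [(nat_lit 0), (nat_lit 0), (nat_lit 0), (nat_lit 0)]) (PF.cons (PF.leaf (nat_lit 3285939) (nat_lit 222579) (nat_lit 45048591) (nat_lit 21837641) [(nat_lit 222579), (nat_lit 0), (nat_lit 0), (nat_lit 0)]) (PF.cons (PF.leaf (nat_lit 3439731) (nat_lit 241812) (nat_lit 44843138) (nat_lit 21782050) [(nat_lit 241812), (nat_lit 0), (nat_lit 0), (nat_lit 0)]) (PF.cons (PF.leaf (nat_lit 3612260) (nat_lit 258816) (nat_lit 44613201) (nat_lit 21719162) [(nat_lit 258816), (nat_lit 0), (nat_lit 0), (nat_lit 0)]) (PF.cons (PF.leaf (nat_lit 3800821) (nat_lit 274094) (nat_lit 44362605) (nat_lit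 21649828) [(nat_lit 274094), (nat_lit 0), (nat_lit 0), (nat_lit 0)]) (PF.cons (PF.leaf (nat_lit 4003344) (nat_lit 287969) (nat_lit 44094282) (nat_lit 21574684) [(nat_lit 287969), (nat_lit 0), (nat_lit 0), (nat_lit 0)]) (PF.cons PF.nil PF.nil))))))) (PF.cons (PF.cons (PF.leaf (nat_lit 3539769) (nat_lit 840535) (nat_lit 44563859) (nat_lit 21704418) [(nat_lit 0), (nat_lit 840535), (nat_lit 0), (nat_lit 0)]) (PF.cons (PF.leaf (nat_lit 3704994) (nat_lit 263413) (nat_lit 44338251) (nat_lit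
 21641854) [(nat_lit 263413), (nat_lit 865293), (nat_lit 0), (nat_lit 0)]) (PF.cons (PF.leaf (nat_lit 3888842) (nat_lit 278372) (nat_lit 44090475) (nat_lit 21572385) [(nat_lit 278372), (nat_lit 889208), (nat_lit 0), (nat_lit 0)]) (PF.cons (PF.leaf (nat_lit 4087526) (nat_lit 291921) (nat_lit 43824191) (nat_lit 21496852) [(nat_lit 291921), (nat_lit 912004), (nat_lit 0), (nat_lit 0)]) (PF.cons PF.nil PF.nil))))) (PF.cons (PF.cons (PF.leaf (nat_lit 3981159) (nat_lit 903526) (nat_lit 43810144) (nat_lit 21491615) [(nat_lit 0), (nat_lit 903526), (nat_lit 0), (nat_lit 0)]) (PF.cons (PF.leaf (nat_lit 4173821) (nat_lit 295348) (nat_lit 43547919) (nat_lit 21416284) [(nat_lit 295348), (nat_lit 924630), (nat_lit 0), (nat_lit 0)]) (PF.cons (PF.leaf (nat_lit 4381156) (nat_lit 307515) (nat_lit 43268972) (nat_lit 21335211) [(nat_lit 307515), (nat_lit 944798), (nat_lit 0), (nat_lit 0)]) (PF.cons PF.nil PF.nil)))) (PF.cons (PF.cons (PF.leaf (nat_lit 4466347) (nat_lit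 955507) (nat_lit 42990306) (nat_lit 21251985) [(nat_lit 0), (nat_lit 955507), (nat_lit 0), (nat_lit 0)]) (PF.cons PF.nil PF.nil)) (PF.cons PF.nil PF.nil))))) (PF.cons (PF.cons (PF.cons (PF.leaf (nat_lit 4012021) (nat_lit 2454951)
 (nat_lit 43314340) (nat_lit 21339520) [(nat_lit 0), (nat_lit 0), (nat_lit 2454951), (nat_lit 0)]) (PF.cons (PF.leaf (nat_lit 4186626) (nat_lit 284414) (nat_lit 43077409) (nat_lit 21270078) [(nat_lit 284414), (nat_lit 0), (nat_lit 2476909), (nat_lit 0)]) (PF.cons (PF.leaf (nat_lit 4379050) (nat_lit 298246) (nat_lit 42819615) (nat_lit 21193744) [(nat_lit 298246), (nat_lit 0), (nat_lit 2498959), (nat_lit 0)]) (PF.cons (PF.leaf (nat_lit 4585201) (nat_lit 310620) (nat_lit 42544850) (nat_lit 21111504) [(nat_lit 310620), (nat_lit 0), (nat_lit 2520598), (nat_lit 0)]) (PF.cons PF.nil PF.nil))))) (PF.cons (PF.cons (PF.leaf (nat_lit 4468539) (nat_lit 949029) (nat_lit 42536578) (nat_lit 21107771) [(nat_lit 0), (nat_lit 949029), (nat_lit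 2515433), (nat_lit 0)]) (PF.cons (PF.leaf (nat_lit 4668268) (nat_lit 312878) (nat_lit 42267423) (nat_lit 21026292) [(nat_lit 312878), (nat_lit 966994), (nat_lit 2535223), (nat_lit 0)]) (PF.cons (PF.leaf (nat_lit 4881683) (nat_lit 323996) (nat_lit 41982969) (nat_lit 20939255) [(nat_lit 323996), (nat_lit 984095), (nat_lit 2554500), (nat_lit 0)]) (PF.cons PF.nil PF.nil)))) (PF.cons (PF.cons (PF.leaf (nat_lit 4963284) (nat_lit 992284) (nat_lit 41705318) (nat_lit
 20852118) [(nat_lit 0), (nat_lit 992284), (nat_lit 2566807), (nat_lit 0)]) (PF.cons PF.nil PF.nil)) PF.nil))) (PF.cons (PF.cons (PF.cons (PF.leaf (nat_lit 4952891) (nat_lit 2564890) (nat_lit 41271259) (nat_lit 20707772) [(nat_lit 0), (nat_lit 0), (nat_lit 2564890), (nat_lit 0)]) (PF.cons (PF.leaf (nat_lit 5157723) (nat_lit 327112) (nat_lit 40999131) (nat_lit 20621458) [(nat_lit 327112), (nat_lit 0), (nat_lit 2580555), (nat_lit 0)]) (PF.cons PF.nil PF.nil))) (PF.cons (PF.cons (PF.leaf (nat_lit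 5453400) (nat_lit 1020780) (nat_lit 40439163) (nat_lit 20439984) [(nat_lit 0), (nat_lit 1020780), (nat_lit 2604442), (nat_lit 0)]) PF.nil) PF.nil)) (PF.cons PF.nil (PF.cons PF.nil PF.nil))))) (PF.cons (PF.cons (PF.cons (PF.cons (PF.leaf (nat_lit 4633713) (nat_lit 5563190) (nat_lit 40967176) (nat_lit 20578446) [(nat_lit 0), (nat_lit 0), (nat_lit 0), (nat_lit 5563190)]) (PF.cons (PF.leaf (nat_lit 4810675) (nat_lit 295408) (nat_lit 40737380) (nat_lit 20505360) [(nat_lit 295408), (nat_lit 0), (nat_lit 0), (nat_lit 5570663)]) (PF.cons (PF.leaf (nat_lit 5004614) (nat_lit 308678) (nat_lit 40488296) (nat_lit 20425461) [(nat_lit 308678), (nat_lit 0), (nat_lit 0), (nat_lit 5577698)]) (PF.cons (PF.leaf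
 (nat_lit 5211623) (nat_lit 320382) (nat_lit 40223788) (nat_lit 20339852) [(nat_lit 320382), (nat_lit 0), (nat_lit 0), (nat_lit 5584024)]) (PF.cons PF.nil PF.nil))))) (PF.cons (PF.cons (PF.leaf (nat_lit 5089436) (nat_lit 972777) (nat_lit 40218307) (nat_lit 20336889) [(nat_lit 0), (nat_lit 972777), (nat_lit 0), (nat_lit 5580839)]) (PF.cons (PF.leaf (nat_lit 5289626) (nat_lit 321802) (nat_lit 39959993) (nat_lit 20252506) [(nat_lit 321802), (nat_lit 988535), (nat_lit 0), (nat_lit 5585975)]) (PF.cons (PF.leaf (nat_lit 5502702) (nat_lit 332237) (nat_lit 39687866) (nat_lit 20162815) [(nat_lit 332237), (nat_lit 1003374), (nat_lit 0), (nat_lit 5590281)]) (PF.cons PF.nil PF.nil)))) (PF.cons (PF.cons (PF.leaf (nat_lit 5578975) (nat_lit 1009516) (nat_lit 39425186) (nat_lit 20074281) [(nat_lit 0), (nat_lit 1009516), (nat_lit 0), (nat_lit 5590312)]) (PF.cons PF.nil PF.nil)) PF.nil))) (PF.cons (PF.cons (PF.cons (PF.leaf (nat_lit 5556524) (nat_lit 2576993) (nat_lit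 39024340) (nat_lit 19932019) [(nat_lit 0), (nat_lit 0), (nat_lit 2576993), (nat_lit 5575458)]) (PF.cons (PF.leaf (nat_lit 5760387) (nat_lit 333276) (nat_lit 38765691) (nat_lit 19844247) [(nat_lit 333276), (nat_lit 0), (nat_lit
 2588733), (nat_lit 5576864)]) (PF.cons PF.nil PF.nil))) (PF.cons (PF.cons (PF.leaf (nat_lit 6049001) (nat_lit 1030615) (nat_lit 38237241) (nat_lit 19661552) [(nat_lit 0), (nat_lit 1030615), (nat_lit 2605283), (nat_lit 5574120)]) PF.nil) PF.nil)) (PF.cons PF.nil PF.nil))) (PF.cons (PF.cons (PF.cons (PF.cons (PF.leaf (nat_lit 6124920) (nat_lit 5496702) (nat_lit 36943297) (nat_lit 19172109) [(nat_lit 0), (nat_lit 0), (nat_lit 0), (nat_lit 5496702)]) (PF.cons (PF.leaf (nat_lit 6326801) (nat_lit 336646) (nat_lit 36699228) (nat_lit 19084580) [(nat_lit 336646), (nat_lit 0), (nat_lit 0), (nat_lit 5494179)]) PF.nil)) (PF.cons PF.nil PF.nil)) (PF.cons PF.nil PF.nil)) (PF.cons PF.nil (PF.cons PF.nil (PF.cons PF.nil PF.nil))))))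

def p13_4_3_0 : pfC (piC [(nat_lit 38632330), (nat_lit 28473124), (nat_lit 20874739), (nat_lit 14064972)] (nat_lit 4748153)) p13_4_3 (nat_lit 4) (nat_lit 0) (nat_lit 1) = true := by decide +kernel
def p13_4_3_1 : pfC (piC [(nat_lit 38632330), (nat_lit 28473124), (nat_lit 20874739), (nat_lit 14064972)] (nat_lit 4748153)) p13_4_3 (nat_lit 4) (nat_lit 1) (nat_lit 2) = true := by decide +kernel
def p13_4_3_2 : pfC (piC [(nat_lit 38632330), (nat_lit 28473124), (nat_lit 20874739), (nat_lit 14064972)] (nat_lit 4748153)) p13_4_3 (nat_lit 4) (nat_lit 2) (nat_lit 3) = true := by decide +kernel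
def p13_4_3_3 : pfC (piC [(nat_lit 38632330), (nat_lit 28473124), (nat_lit 20874739), (nat_lit 14064972)] (nat_lit 4748153)) p13_4_3 (nat_lit 4) (nat_lit 3) (nat_lit 4) = true := by decide +kernel
def p13_4_3_4 : pfC (piC [(nat_lit 38632330), (nat_lit 28473124), (nat_lit 20874739), (nat_lit 14064972)] (nat_lit 4748153)) p13_4_3 (nat_lit 4) (nat_lit 4) (nat_lit 5) = true := by decide +kernel
def p13_4_3_5 : pfC (piC [(nat_lit 38632330), (nat_lit 28473124), (nat_lit 20874739), (nat_lit 14064972)] (nat_lit 4748153)) p13_4_3 (nat_lit 4) (nat_lit 5) (nat_lit 6) = true := by decide +kernel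
def p13_4_3_6 : pfC (piC [(nat_lit 38632330), (nat_lit 28473124), (nat_lit 20874739), (nat_lit 14064972)] (nat_lit 4748153)) p13_4_3 (nat_lit 4) (nat_lit 6) (nat_lit 7) = true := by decide +kernel
def p13_4_3_7 : pfC (piC [(nat_lit 38632330), (nat_lit 28473124), (nat_lit 20874739), (nat_lit 14064972)] (nat_lit 4748153)) p13_4_3 (nat_lit 4) (nat_lit 7) (nat_lit 8) = true := by decide +kernel
def p13_4_3_8 : pfC (piC [(nat_lit 38632330), (nat_lit 28473124), (nat_lit 20874739), (nat_lit 14064972)] (nat_lit 4748153)) p13_4_3 (nat_lit 4) (nat_lit 8) (nat_lit 9) = true := by decide +kernel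
def p13_4_3_9 : pfC (piC [(nat_lit 38632330), (nat_lit 28473124), (nat_lit 20874739), (nat_lit 14064972)] (nat_lit 4748153)) p13_4_3 (nat_lit 4) (nat_lit 9) (nat_lit 10) = true := by decide +kernel
def p13_4_3_10 : pfC (piC [(nat_lit 38632330), (nat_lit 28473124), (nat_lit 20874739), (nat_lit 14064972)] (nat_lit 4748153)) p13_4_3 (nat_lit 4) (nat_lit 10) (nat_lit 11) = true := by decide +kernel
def p13_4_3_11 : pfC (piC [(nat_lit 38632330), (nat_lit 28473124), (nat_lit 20874739), (nat_lit 14064972)] (nat_lit 4748153)) p13_4_3 (nat_lit 4) (nat_lit 11) (nat_lit 12) = true := by decide +kernel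
def p13_4_3_12 : pfC (piC [(nat_lit 38632330), (nat_lit 28473124), (nat_lit 20874739), (nat_lit 14064972)] (nat_lit 4748153)) p13_4_3 (nat_lit 4) (nat_lit 12) (nat_lit 13) = true := by decide +kernel
def p13_4_3_13 : pfC (piC [(nat_lit 38632330), (nat_lit 28473124), (nat_lit 20874739), (nat_lit 14064972)] (nat_lit 4748153)) p13_4_3 (nat_lit 4) (nat_lit 13) (nat_lit 14) = true := by decide +kernel
def p13_4_3_14 : pfC (piC [(nat_lit 38632330), (nat_lit 28473124), (nat_lit 20874739), (nat_lit 14064972)] (nat_lit 4748153)) p13_4_3 (nat_lit 4) (nat_lit 14) (nat_lit 15) = true := by decide +kernel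
def p13_4_3_15 : pfC (piC [(nat_lit 38632330), (nat_lit 28473124), (nat_lit 20874739), (nat_lit 14064972)] (nat_lit 4748153)) p13_4_3 (nat_lit 4) (nat_lit 15) (nat_lit 16) = true := by decide +kernel
def p13_4_3_16 : pfC (piC [(nat_lit 38632330), (nat_lit 28473124), (nat_lit 20874739), (nat_lit 14064972)] (nat_lit 4748153)) p13_4_3 (nat_lit 4) (nat_lit 16) (nat_lit 17) = true := by decide +kernel
def p13_4_3_17 : pfC (piC [(nat_lit 38632330), (nat_lit 28473124), (nat_lit 20874739), (nat_lit 14064972)] (nat_lit 4748153)) p13_4_3 (nat_lit 4) (nat_lit 17) (nat_lit 18) = true := by decide +kernel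
def p13_4_3_18 : pfC (piC [(nat_lit 38632330), (nat_lit 28473124), (nat_lit 20874739), (nat_lit 14064972)] (nat_lit 4748153)) p13_4_3 (nat_lit 4) (nat_lit 18) (nat_lit 19) = true := by decide +kernel
def p13_4_3_19 : pfC (piC [(nat_lit 38632330), (nat_lit 28473124), (nat_lit 20874739), (nat_lit 14064972)] (nat_lit 4748153)) p13_4_3 (nat_lit 4) (nat_lit 19) (nat_lit 20) = true := by decide +kernel
def p13_4_3_20 : pfC (piC [(nat_lit 38632330), (nat_lit 28473124), (nat_lit 20874739), (nat_lit 14064972)] (nat_lit 4748153)) p13_4_3 (nat_lit 4) (nat_lit 20) (nat_lit 21) = true := by decide +kernel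
def p13_4_3_21 : pfC (piC [(nat_lit 38632330), (nat_lit 28473124), (nat_lit 20874739), (nat_lit 14064972)] (nat_lit 4748153)) p13_4_3 (nat_lit 4) (nat_lit 21) (nat_lit 22) = true := by decide +kernel
def p13_4_3_22 : pfC (piC [(nat_lit 38632330), (nat_lit 28473124), (nat_lit 20874739), (nat_lit 14064972)] (nat_lit 4748153)) p13_4_3 (nat_lit 4) (nat_lit 22) (nat_lit 23) = true := by decide +kernel
def p13_4_3_23 : pfC (piC [(nat_lit 38632330), (nat_lit 28473124), (nat_lit 20874739), (nat_lit 14064972)] (nat_lit 4748153)) p13_4_3 (nat_lit 4) (nat_lit 23) (nat_lit 24) = true := by decide +kernel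
def p13_4_3_24 : pfC (piC [(nat_lit 38632330), (nat_lit 28473124), (nat_lit 20874739), (nat_lit 14064972)] (nat_lit 4748153)) p13_4_3 (nat_lit 4) (nat_lit 24) (nat_lit 25) = true := by decide +kernel
def p13_4_3_25 : pfC (piC [(nat_lit 38632330), (nat_lit 28473124), (nat_lit 20874739), (nat_lit 14064972)] (nat_lit 4748153)) p13_4_3 (nat_lit 4) (nat_lit 25) (nat_lit 26) = true := by decide +kernel
def p13_4_3_26 : pfC (piC [(nat_lit 38632330), (nat_lit 28473124), (nat_lit 20874739), (nat_lit 14064972)] (nat_lit 4748153)) p13_4_3 (nat_lit 4) (nat_lit 26) (nat_lit 27) = true := by decide +kernel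
def p13_4_3_27 : pfC (piC [(nat_lit 38632330), (nat_lit 28473124), (nat_lit 20874739), (nat_lit 14064972)] (nat_lit 4748153)) p13_4_3 (nat_lit 4) (nat_lit 27) (nat_lit 28) = true := by decide +kernel
def p13_4_3_28 : pfC (piC [(nat_lit 38632330), (nat_lit 28473124), (nat_lit 20874739), (nat_lit 14064972)] (nat_lit 4748153)) p13_4_3 (nat_lit 4) (nat_lit 28) (nat_lit 29) = true := by decide +kernel
def p13_4_3_29 : pfC (piC [(nat_lit 38632330), (nat_lit 28473124), (nat_lit 20874739), (nat_lit 14064972)] (nat_lit 4748153)) p13_4_3 (nat_lit 4) (nat_lit 29) (nat_lit 30) = true := by decide +kernel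
def p13_4_3_30 : pfC (piC [(nat_lit 38632330), (nat_lit 28473124), (nat_lit 20874739), (nat_lit 14064972)] (nat_lit 4748153)) p13_4_3 (nat_lit 4) (nat_lit 30) (nat_lit 31) = true := by decide +kernel
def p13_4_3_31 : pfC (piC [(nat_lit 38632330), (nat_lit 28473124), (nat_lit 20874739), (nat_lit 14064972)] (nat_lit 4748153)) p13_4_3 (nat_lit 4) (nat_lit 31) (nat_lit 32) = true := by decide +kernel
def p13_4_3_32 : pfC (piC [(nat_lit 38632330), (nat_lit 28473124), (nat_lit 20874739), (nat_lit 14064972)] (nat_lit 4748153)) p13_4_3 (nat_lit 4) (nat_lit 32) (nat_lit 33) = true := by decide +kernel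
def p13_4_3_33 : pfC (piC [(nat_lit 38632330), (nat_lit 28473124), (nat_lit 20874739), (nat_lit 14064972)] (nat_lit 4748153)) p13_4_3 (nat_lit 4) (nat_lit 33) (nat_lit 34) = true := by decide +kernel
def p13_4_3_34 : pfC (piC [(nat_lit 38632330), (nat_lit 28473124), (nat_lit 20874739), (nat_lit 14064972)] (nat_lit 4748153)) p13_4_3 (nat_lit 4) (nat_lit 34) (nat_lit 35) = true := by decide +kernel
def p13_4_3_35 : pfC (piC [(nat_lit 38632330), (nat_lit 28473124), (nat_lit 20874739), (nat_lit 14064972)] (nat_lit 4748153)) p13_4_3 (nat_lit 4) (nat_lit 35) (nat_lit 36) = true := by decide +kernel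
def p13_4_3_36 : pfC (piC [(nat_lit 38632330), (nat_lit 28473124), (nat_lit 20874739), (nat_lit 14064972)] (nat_lit 4748153)) p13_4_3 (nat_lit 4) (nat_lit 36) (nat_lit 37) = true := by decide +kernel
def p13_4_3_37 : pfC (piC [(nat_lit 38632330), (nat_lit 28473124), (nat_lit 20874739), (nat_lit 14064972)] (nat_lit 4748153)) p13_4_3 (nat_lit 4) (nat_lit 37) (nat_lit 38) = true := by decide +kernel
theorem p13_4_3_T : PfS (PiF n13_4.reverse (nat_lit 4748153)) p13_4_3 (nat_lit 4) [] 0 :=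
  pftab_of (los := [(nat_lit 38632330), (nat_lit 28473124), (nat_lit 20874739), (nat_lit 14064972)]) (by decide +kernel) (hi := (nat_lit 38)) (PfP.trans (PfP.trans (PfP.trans (PfP.trans (PfP.trans (PfP.trans (PfP.trans (PfP.trans (PfP.trans (PfP.trans (PfP.trans (PfP.trans (PfP.trans (PfP.trans (PfP.trans (PfP.trans (PfP.trans (PfP.trans (PfP.trans (PfP.trans (PfP.trans (PfP.trans (PfP.trans (PfP.trans (PfP.trans (PfP.trans (PfP.trans (PfP.trans (PfP.trans (PfP.trans (PfP.trans (PfP.trans (PfP.trans (PfP.trans (PfP.trans (PfP.trans (PfP.trans (pfC_sound p13_4_3_0) (pfC_sound p13_4_3_1)) (pfC_sound p13_4_3_2)) (pfC_sound p13_4_3_3)) (pfC_sound p13_4_3_4)) (pfC_sound p13_4_3_5)) (pfC_sound p13_4_3_6)) (pfC_sound p13_4_3_7)) (pfC_sound p13_4_3_8)) (pfC_sound p13_4_3_9)) (pfC_sound p13_4_3_10)) (pfC_sound p13_4_3_11)) (pfC_sound p13_4_3_12)) (pfC_sound p13_4_3_13)) (pfC_sound p13_4_3_14)) (pfC_sound p13_4_3_15)) (pfC_sound p13_4_3_16)) (pfC_sound p13_4_3_17))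 (pfC_sound p13_4_3_18)) (pfC_sound p13_4_3_19)) (pfC_sound p13_4_3_20)) (pfC_sound p13_4_3_21)) (pfC_sound p13_4_3_22)) (pfC_sound p13_4_3_23)) (pfC_sound p13_4_3_24)) (pfC_sound p13_4_3_25)) (pfC_sound p13_4_3_26)) (pfC_sound p13_4_3_27)) (pfC_sound p13_4_3_28)) (pfC_sound p13_4_3_29)) (pfC_sound p13_4_3_30)) (pfC_sound p13_4_3_31)) (pfC_sound p13_4_3_32)) (pfC_sound
 p13_4_3_33)) (pfC_sound p13_4_3_34)) (pfC_sound p13_4_3_35)) (pfC_sound p13_4_3_36)) (pfC_sound p13_4_3_37)) (by decide +kernel)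

def z13_4_3 : zOK yB13_4 (nat_lit 3) (nat_lit 750) (nat_lit 960) (nat_lit 4748153) (nat_lit 2510289) = true := by decide +kernel
def g13_4_3 : gOK yB13_4.x P13_4 (nat_lit 1419) (q13_4 :: r13_4) (nat_lit 3) (nat_lit 750) (nat_lit 4) (nat_lit 960) (nat_lit 12712500) (nat_lit 12712500) (nat_lit 12712500) (nat_lit 12712500) [(nat_lit 800)] = true := by decide +kernel
def v13_4_3 : ivC P13_4 s13_4 w13_4 n13_4 (nat_lit 4) (nat_lit 4830) (nat_lit 3) (nat_lit 750) f120_1_750 f128_1_750 (nat_lit 4) (nat_lit 960) f120_1_960 f128_1_960 (nat_lit 4748153) (nat_lit 2510289) p13_4_3 = true := by decide +kernel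
/-! box `yB13_5` -/

def P13_5 : BQ := ⟨(nat_lit 8), (nat_lit 8), (nat_lit 0), (nat_lit 4), (nat_lit 4), (nat_lit 640), (nat_lit 660), (nat_lit 120), [(nat_lit 200), (nat_lit 300), (nat_lit 450), (nat_lit 800)], (nat_lit 48592000), (nat_lit 16000000), (nat_lit 16000000000)⟩
def q13_5 : PC := ⟨(nat_lit 1000), [(nat_lit 120000), (nat_lit 200000), (nat_lit 300000), (nat_lit 450000), (nat_lit 800000)], (nat_lit 340282367000166625996085689103316680705000000), (nat_lit 15951408000000), (nat_lit 15951408000000), (nat_lit 10000000)⟩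
def r13_5 : List PC := [⟨(nat_lit 1365), [(nat_lit 120592), (nat_lit 201078), (nat_lit 302057), (nat_lit 452419), (nat_lit 800005)], (nat_lit 342502709444916236965495678520396553217068849), (nat_lit 16380749103200), (nat_lit 16394906898400), (nat_lit 10068567)⟩]
def s13_5 : List PB := [⟨(nat_lit 27300), (nat_lit 1929472000000), [(nat_lit 201078), (nat_lit 302057), (nat_lit 452419), (nat_lit 800005)], (nat_lit 342502709444916236965495678520396553217068849), (nat_lit 1142280655945824), (nat_lit 1142294813741024), (nat_lit 58400)⟩]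
def n13_5 : List KN := [⟨(nat_lit 800), (nat_lit 450), (nat_lit 13943267), (nat_lit 9063406)⟩, ⟨(nat_lit 450), (nat_lit 300), (nat_lit 20794417), (nat_lit 13943267)⟩, ⟨(nat_lit 300), (nat_lit 200), (nat_lit 28134109), (nat_lit 20794417)⟩, ⟨(nat_lit 200), (nat_lit 120), (nat_lit 41351667), (nat_lit 28134109)⟩]
def w13_5 : List ℕ := [(nat_lit 58400)]
def par13_5 : parC yB13_5 P13_5 s13_5 r13_5 q13_5 n13_5 w13_5 = true := by decide +kernel

def p13_5_0 : PF := (PF.cons (PF.cons (PF.cons (PF.cons (PF.leaf (nat_lit 263389) (nat_lit 623631) (nat_lit 66485181) (nat_lit 623631) [(nat_lit 0), (nat_lit 0), (nat_lit 0), (nat_lit 0)]) (PF.cons (PF.leaf (nat_lit 341558) (nat_lit 118680) (nat_lit 66332920) (nat_lit 657211) [(nat_lit 118680), (nat_lit 0), (nat_lit 0), (nat_lit 0)]) (PF.cons (PF.leaf (nat_lit 446754) (nat_lit 133637) (nat_lit 66147757) (nat_lit 693781) [(nat_lit 133637), (nat_lit 0), (nat_lit 0), (nat_lit 0)]) (PF.cons (PF.leaf (nat_lit 569167) (nat_lit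 148147) (nat_lit 65932431) (nat_lit 731938) [(nat_lit 148147), (nat_lit 0), (nat_lit 0), (nat_lit 0)]) (PF.cons (PF.leaf (nat_lit 707707) (nat_lit 162291) (nat_lit 65688819) (nat_lit 770828) [(nat_lit 162291), (nat_lit 0), (nat_lit 0), (nat_lit 0)]) (PF.cons PF.nil (PF.cons PF.nil PF.nil))))))) (PF.cons (PF.cons (PF.leaf (nat_lit 599034) (nat_lit 636979) (nat_lit 65718179) (nat_lit 753654) [(nat_lit 0), (nat_lit 636979), (nat_lit 0), (nat_lit 0)]) (PF.cons (PF.leaf (nat_lit 720265) (nat_lit 161662) (nat_lit 65490385) (nat_lit 788143) [(nat_lit 161662), (nat_lit 668621), (nat_lit 0), (nat_lit 0)]) (PF.cons (PF.leaf (nat_lit 863021) (nat_lit 175435) (nat_lit 65232890) (nat_lit 823829)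
 [(nat_lit 175435), (nat_lit 701221), (nat_lit 0), (nat_lit 0)]) (PF.cons PF.nil (PF.cons PF.nil PF.nil))))) (PF.cons (PF.cons (PF.leaf (nat_lit 1027621) (nat_lit 745660) (nat_lit 64743573) (nat_lit 873918) [(nat_lit 0), (nat_lit 745660), (nat_lit 0), (nat_lit 0)]) (PF.cons (PF.leaf (nat_lit 1186296) (nat_lit 200641) (nat_lit 64448465) (nat_lit 907362) [(nat_lit 200641), (nat_lit 776172), (nat_lit 0), (nat_lit 0)]) (PF.cons PF.nil (PF.cons PF.nil PF.nil)))) (PF.cons (PF.cons (PF.leaf (nat_lit 1536799) (nat_lit 844644) (nat_lit 63591232) (nat_lit 983646) [(nat_lit 0), (nat_lit 844644), (nat_lit 0), (nat_lit 0)]) (PF.cons PF.nil PF.nil)) (PF.cons PF.nil PF.nil))))) (PF.cons (PF.cons (PF.cons (PF.leaf (nat_lit 1122904) (nat_lit 898028) (nat_lit 63998525) (nat_lit 898028) [(nat_lit 0), (nat_lit 0), (nat_lit 2212258), (nat_lit 0)]) (PF.cons (PF.leaf (nat_lit 1266158) (nat_lit 196847) (nat_lit 63727034) (nat_lit 928446) [(nat_lit 196847), (nat_lit 0), (nat_lit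 2256484), (nat_lit 0)]) (PF.cons (PF.leaf (nat_lit 1429321) (nat_lit 210456) (nat_lit 63425288) (nat_lit 959713) [(nat_lit 210456), (nat_lit 0), (nat_lit 2302897), (nat_lit 0)]) (PF.cons PF.nil PF.nil)))) (PF.cons (PF.cons (PF.leaf
 (nat_lit 1602836) (nat_lit 857874) (nat_lit 62876759) (nat_lit 1001131) [(nat_lit 0), (nat_lit 857874), (nat_lit 2373046), (nat_lit 0)]) (PF.cons (PF.leaf (nat_lit 1780429) (nat_lit 233201) (nat_lit 62543403) (nat_lit 1030334) [(nat_lit 233201), (nat_lit 884786), (nat_lit 2417087), (nat_lit 0)]) PF.nil)) (PF.cons PF.nil PF.nil))) (PF.cons (PF.cons (PF.cons (PF.leaf (nat_lit 2199843) (nat_lit 1105261) (nat_lit 60887793) (nat_lit 1105261) [(nat_lit 0), (nat_lit 0), (nat_lit 2557878), (nat_lit 0)]) (PF.cons (PF.leaf (nat_lit 2392025) (nat_lit 260807) (nat_lit 60527689) (nat_lit 1130783) [(nat_lit 260807), (nat_lit 0), (nat_lit 2594765), (nat_lit 0)]) PF.nil)) (PF.cons PF.nil PF.nil)) (PF.cons PF.nil (PF.cons PF.nil PF.nil)))))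 (PF.cons (PF.cons (PF.cons (PF.cons (PF.leaf (nat_lit 2015512) (nat_lit 1039483) (nat_lit 59799662) (nat_lit 1039483) [(nat_lit 0), (nat_lit 0), (nat_lit 0), (nat_lit 6269666)]) (PF.cons (PF.leaf (nat_lit 2173429) (nat_lit 229530) (nat_lit 59507620) (nat_lit 1066321) [(nat_lit 229530), (nat_lit 0), (nat_lit 0), (nat_lit 6305340)]) (PF.cons (PF.leaf (nat_lit 2350416) (nat_lit 243225) (nat_lit 59186203) (nat_lit 1093433) [(nat_lit 243225), (nat_lit 0), (nat_lit
 0), (nat_lit 6342725)]) (PF.cons (PF.leaf (nat_lit 2542597) (nat_lit 255924) (nat_lit 58839762) (nat_lit 1120349) [(nat_lit 255924), (nat_lit 0), (nat_lit 0), (nat_lit 6380926)]) (PF.cons (PF.leaf (nat_lit 2748167) (nat_lit 267809) (nat_lit 58471521) (nat_lit 1146786) [(nat_lit 267809), (nat_lit 0), (nat_lit 0), (nat_lit 6419266)]) (PF.cons PF.nil (PF.cons PF.nil PF.nil))))))) (PF.cons (PF.cons (PF.leaf (nat_lit 2523918) (nat_lit 967268) (nat_lit 58615850) (nat_lit 1126112) [(nat_lit 0), (nat_lit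 967268), (nat_lit 0), (nat_lit 6399581)]) (PF.cons (PF.leaf (nat_lit 2713030) (nat_lit 263712) (nat_lit 58269455) (nat_lit 1150781) [(nat_lit 263712), (nat_lit 990439), (nat_lit 0), (nat_lit 6434424)]) (PF.cons (PF.leaf (nat_lit 2917611) (nat_lit 275315) (nat_lit 57900202) (nat_lit 1175217) [(nat_lit 275315), (nat_lit 1013293), (nat_lit 0), (nat_lit 6469468)]) (PF.cons (PF.leaf (nat_lit 3134721) (nat_lit 286195) (nat_lit 57511273) (nat_lit 1199179) [(nat_lit 286195), (nat_lit 1035628), (nat_lit 0), (nat_lit 6504144)]) (PF.cons PF.nil PF.nil))))) (PF.cons (PF.cons (PF.leaf (nat_lit 3090793) (nat_lit 1037412) (nat_lit 57316082) (nat_lit 1202002) [(nat_lit 0), (nat_lit 1037412), (nat_lit 0),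
 (nat_lit 6515903)]) (PF.cons (PF.leaf (nat_lit 3305120) (nat_lit 292761) (nat_lit 56928264) (nat_lit 1224206) [(nat_lit 292761), (nat_lit 1058159), (nat_lit 0), (nat_lit 6547261)]) (PF.cons PF.nil (PF.cons PF.nil PF.nil)))) (PF.cons (PF.cons (PF.leaf (nat_lit 3703500) (nat_lit 1098230) (nat_lit 55932158) (nat_lit 1267937) [(nat_lit 0), (nat_lit 1098230), (nat_lit 0), (nat_lit 6614026)]) (PF.cons PF.nil PF.nil)) (PF.cons PF.nil PF.nil))))) (PF.cons (PF.cons (PF.cons (PF.leaf (nat_lit 3110595) (nat_lit 1203055) (nat_lit 56625392) (nat_lit 1203055) [(nat_lit 0), (nat_lit 0), (nat_lit 2738556), (nat_lit 6541809)]) (PF.cons (PF.leaf (nat_lit 3309740) (nat_lit 285341) (nat_lit 56265056) (nat_lit 1224358) [(nat_lit 285341), (nat_lit 0), (nat_lit 2765709), (nat_lit 6568347)]) (PF.cons (PF.leaf (nat_lit 3523561) (nat_lit 296246) (nat_lit 55883461) (nat_lit 1245347) [(nat_lit 296246), (nat_lit 0), (nat_lit 2792872), (nat_lit 6594638)]) (PF.cons PF.nil (PF.cons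 PF.nil PF.nil))))) (PF.cons (PF.cons (PF.leaf (nat_lit 3694906) (nat_lit 1095936) (nat_lit 55292890) (nat_lit 1267063) [(nat_lit 0), (nat_lit 1095936), (nat_lit 2825647), (nat_lit 6627275)]) (PF.cons (PF.leaf (nat_lit 3916728)
 (nat_lit 311578) (nat_lit 54897269) (nat_lit 1286028) [(nat_lit 311578), (nat_lit 1113823), (nat_lit 2850186), (nat_lit 6649926)]) (PF.cons PF.nil (PF.cons PF.nil PF.nil)))) (PF.cons (PF.cons (PF.leaf (nat_lit 4317597) (nat_lit 1147128) (nat_lit 53896799) (nat_lit 1322108) [(nat_lit 0), (nat_lit 1147128), (nat_lit 2900503), (nat_lit 6695144)]) (PF.cons PF.nil PF.nil)) PF.nil))) (PF.cons (PF.cons (PF.cons (PF.leaf (nat_lit 4292529) (nat_lit 1318577) (nat_lit 53285692) (nat_lit 1318577) [(nat_lit 0), (nat_lit 0), (nat_lit 2903871), (nat_lit 6696798)]) (PF.cons (PF.leaf (nat_lit 4519384) (nat_lit 327046) (nat_lit 52888451) (nat_lit 1334697) [(nat_lit 327046), (nat_lit 0), (nat_lit 2923430), (nat_lit 6711756)]) PF.nil)) (PF.cons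 PF.nil PF.nil)) (PF.cons PF.nil (PF.cons PF.nil PF.nil))))) (PF.cons (PF.cons (PF.cons (PF.cons (PF.leaf (nat_lit 3955979) (nat_lit 1263417) (nat_lit 52601221) (nat_lit 1263417) [(nat_lit 0), (nat_lit 0), (nat_lit 0), (nat_lit 6622086)]) (PF.cons (PF.leaf (nat_lit 4157483) (nat_lit 301304) (nat_lit 52254345) (nat_lit 1281282) [(nat_lit 301304), (nat_lit 0), (nat_lit 0), (nat_lit 6635940)]) (PF.cons (PF.leaf (nat_lit 4372634) (nat_lit 311582) (nat_lit 51888582)
 (nat_lit 1298666) [(nat_lit 311582), (nat_lit 0), (nat_lit 0), (nat_lit 6649199)]) (PF.cons (PF.leaf (nat_lit 4598447) (nat_lit 320961) (nat_lit 51507318) (nat_lit 1315428) [(nat_lit 320961), (nat_lit 0), (nat_lit 0), (nat_lit 6661591)]) (PF.cons PF.nil PF.nil))))) (PF.cons (PF.cons (PF.leaf (nat_lit 4534637) (nat_lit 1138842) (nat_lit 51329615) (nat_lit 1314856) [(nat_lit 0), (nat_lit 1138842), (nat_lit 0), (nat_lit 6662749)]) (PF.cons (PF.leaf (nat_lit 4756017) (nat_lit 324796) (nat_lit 50954076)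 (nat_lit 1330293) [(nat_lit 324796), (nat_lit 1153678), (nat_lit 0), (nat_lit 6672983)]) (PF.cons PF.nil (PF.cons PF.nil PF.nil)))) (PF.cons (PF.cons (PF.leaf (nat_lit 5144236) (nat_lit 1179516) (nat_lit 50014012) (nat_lit 1357821) [(nat_lit 0), (nat_lit 1179516), (nat_lit 0), (nat_lit 6688973)]) (PF.cons PF.nil PF.nil)) PF.nil))) (PF.cons (PF.cons (PF.cons (PF.leaf (nat_lit 5099520) (nat_lit 1350490) (nat_lit 49459465) (nat_lit 1350490) [(nat_lit 0), (nat_lit 0), (nat_lit 2945537), (nat_lit 6676659)]) (PF.cons (PF.leaf (nat_lit 5323795) (nat_lit 336385) (nat_lit 49087620) (nat_lit 1363503) [(nat_lit 336385), (nat_lit 0), (nat_lit 2958943), (nat_lit 6681180)]) (PF.cons PF.nil PF.nil)))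
 (PF.cons (PF.cons (PF.leaf (nat_lit 5708570) (nat_lit 1205302) (nat_lit 48167152) (nat_lit 1385653) [(nat_lit 0), (nat_lit 1205302), (nat_lit 2983189), (nat_lit 6683757)]) PF.nil) PF.nil)) (PF.cons PF.nil PF.nil))) (PF.cons (PF.cons (PF.cons (PF.cons (PF.leaf (nat_lit 5835145) (nat_lit 1362711) (nat_lit 45984072) (nat_lit 1362711) [(nat_lit 0), (nat_lit 0), (nat_lit 0), (nat_lit 6587342)]) (PF.cons (PF.leaf (nat_lit 6055158) (nat_lit 340874) (nat_lit 45640568) (nat_lit 1373293) [(nat_lit 340874), (nat_lit 0), (nat_lit 0), (nat_lit 6584692)]) PF.nil)) (PF.cons PF.nil PF.nil)) (PF.cons PF.nil PF.nil)) (PF.cons PF.nil (PF.cons PF.nil (PF.cons PF.nil (PF.cons PF.nil PF.nil))))))))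

def p13_5_0_0 : pfC (piC [(nat_lit 41351667), (nat_lit 28134109), (nat_lit 20794417), (nat_lit 13943267)] (nat_lit 35755509)) p13_5_0 (nat_lit 4) (nat_lit 0) (nat_lit 1) = true := by decide +kernel
def p13_5_0_1 : pfC (piC [(nat_lit 41351667), (nat_lit 28134109), (nat_lit 20794417), (nat_lit 13943267)] (nat_lit 35755509)) p13_5_0 (nat_lit 4) (nat_lit 1) (nat_lit 2) = true := by decide +kernel
def p13_5_0_2 : pfC (piC [(nat_lit 41351667), (nat_lit 28134109), (nat_lit 20794417), (nat_lit 13943267)] (nat_lit 35755509)) p13_5_0 (nat_lit 4) (nat_lit 2) (nat_lit 3) = true := by decide +kernel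
def p13_5_0_3 : pfC (piC [(nat_lit 41351667), (nat_lit 28134109), (nat_lit 20794417), (nat_lit 13943267)] (nat_lit 35755509)) p13_5_0 (nat_lit 4) (nat_lit 3) (nat_lit 4) = true := by decide +kernel
def p13_5_0_4 : pfC (piC [(nat_lit 41351667), (nat_lit 28134109), (nat_lit 20794417), (nat_lit 13943267)] (nat_lit 35755509)) p13_5_0 (nat_lit 4) (nat_lit 4) (nat_lit 5) = true := by decide +kernel
def p13_5_0_5 : pfC (piC [(nat_lit 41351667), (nat_lit 28134109), (nat_lit 20794417), (nat_lit 13943267)] (nat_lit 35755509)) p13_5_0 (nat_lit 4) (nat_lit 5) (nat_lit 6) = true := by decide +kernel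
def p13_5_0_6 : pfC (piC [(nat_lit 41351667), (nat_lit 28134109), (nat_lit 20794417), (nat_lit 13943267)] (nat_lit 35755509)) p13_5_0 (nat_lit 4) (nat_lit 6) (nat_lit 7) = true := by decide +kernel
def p13_5_0_7 : pfC (piC [(nat_lit 41351667), (nat_lit 28134109), (nat_lit 20794417), (nat_lit 13943267)] (nat_lit 35755509)) p13_5_0 (nat_lit 4) (nat_lit 7) (nat_lit 8) = true := by decide +kernel
def p13_5_0_8 : pfC (piC [(nat_lit 41351667), (nat_lit 28134109), (nat_lit 20794417), (nat_lit 13943267)] (nat_lit 35755509)) p13_5_0 (nat_lit 4) (nat_lit 8) (nat_lit 9) = true := by decide +kernel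
def p13_5_0_9 : pfC (piC [(nat_lit 41351667), (nat_lit 28134109), (nat_lit 20794417), (nat_lit 13943267)] (nat_lit 35755509)) p13_5_0 (nat_lit 4) (nat_lit 9) (nat_lit 10) = true := by decide +kernel
def p13_5_0_10 : pfC (piC [(nat_lit 41351667), (nat_lit 28134109), (nat_lit 20794417), (nat_lit 13943267)] (nat_lit 35755509)) p13_5_0 (nat_lit 4) (nat_lit 10) (nat_lit 11) = true := by decide +kernel
def p13_5_0_11 : pfC (piC [(nat_lit 41351667), (nat_lit 28134109), (nat_lit 20794417), (nat_lit 13943267)] (nat_lit 35755509)) p13_5_0 (nat_lit 4) (nat_lit 11) (nat_lit 12) = true := by decide +kernel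
def p13_5_0_12 : pfC (piC [(nat_lit 41351667), (nat_lit 28134109), (nat_lit 20794417), (nat_lit 13943267)] (nat_lit 35755509)) p13_5_0 (nat_lit 4) (nat_lit 12) (nat_lit 13) = true := by decide +kernel
def p13_5_0_13 : pfC (piC [(nat_lit 41351667), (nat_lit 28134109), (nat_lit 20794417), (nat_lit 13943267)] (nat_lit 35755509)) p13_5_0 (nat_lit 4) (nat_lit 13) (nat_lit 14) = true := by decide +kernel
def p13_5_0_14 : pfC (piC [(nat_lit 41351667), (nat_lit 28134109), (nat_lit 20794417), (nat_lit 13943267)] (nat_lit 35755509)) p13_5_0 (nat_lit 4) (nat_lit 14) (nat_lit 15) = true := by decide +kernel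
def p13_5_0_15 : pfC (piC [(nat_lit 41351667), (nat_lit 28134109), (nat_lit 20794417), (nat_lit 13943267)] (nat_lit 35755509)) p13_5_0 (nat_lit 4) (nat_lit 15) (nat_lit 16) = true := by decide +kernel
def p13_5_0_16 : pfC (piC [(nat_lit 41351667), (nat_lit 28134109), (nat_lit 20794417), (nat_lit 13943267)] (nat_lit 35755509)) p13_5_0 (nat_lit 4) (nat_lit 16) (nat_lit 17) = true := by decide +kernel
def p13_5_0_17 : pfC (piC [(nat_lit 41351667), (nat_lit 28134109), (nat_lit 20794417), (nat_lit 13943267)] (nat_lit 35755509)) p13_5_0 (nat_lit 4) (nat_lit 17) (nat_lit 18) = true := by decide +kernel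
def p13_5_0_18 : pfC (piC [(nat_lit 41351667), (nat_lit 28134109), (nat_lit 20794417), (nat_lit 13943267)] (nat_lit 35755509)) p13_5_0 (nat_lit 4) (nat_lit 18) (nat_lit 19) = true := by decide +kernel
def p13_5_0_19 : pfC (piC [(nat_lit 41351667), (nat_lit 28134109), (nat_lit 20794417), (nat_lit 13943267)] (nat_lit 35755509)) p13_5_0 (nat_lit 4) (nat_lit 19) (nat_lit 20) = true := by decide +kernel
def p13_5_0_20 : pfC (piC [(nat_lit 41351667), (nat_lit 28134109), (nat_lit 20794417), (nat_lit 13943267)] (nat_lit 35755509)) p13_5_0 (nat_lit 4) (nat_lit 20) (nat_lit 21) = true := by decide +kernel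
def p13_5_0_21 : pfC (piC [(nat_lit 41351667), (nat_lit 28134109), (nat_lit 20794417), (nat_lit 13943267)] (nat_lit 35755509)) p13_5_0 (nat_lit 4) (nat_lit 21) (nat_lit 22) = true := by decide +kernel
def p13_5_0_22 : pfC (piC [(nat_lit 41351667), (nat_lit 28134109), (nat_lit 20794417), (nat_lit 13943267)] (nat_lit 35755509)) p13_5_0 (nat_lit 4) (nat_lit 22) (nat_lit 23) = true := by decide +kernel
def p13_5_0_23 : pfC (piC [(nat_lit 41351667), (nat_lit 28134109), (nat_lit 20794417), (nat_lit 13943267)] (nat_lit 35755509)) p13_5_0 (nat_lit 4) (nat_lit 23) (nat_lit 24) = true := by decide +kernel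
def p13_5_0_24 : pfC (piC [(nat_lit 41351667), (nat_lit 28134109), (nat_lit 20794417), (nat_lit 13943267)] (nat_lit 35755509)) p13_5_0 (nat_lit 4) (nat_lit 24) (nat_lit 25) = true := by decide +kernel
def p13_5_0_25 : pfC (piC [(nat_lit 41351667), (nat_lit 28134109), (nat_lit 20794417), (nat_lit 13943267)] (nat_lit 35755509)) p13_5_0 (nat_lit 4) (nat_lit 25) (nat_lit 26) = true := by decide +kernel
def p13_5_0_26 : pfC (piC [(nat_lit 41351667), (nat_lit 28134109), (nat_lit 20794417), (nat_lit 13943267)] (nat_lit 35755509)) p13_5_0 (nat_lit 4) (nat_lit 26) (nat_lit 27) = true := by decide +kernel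
def p13_5_0_27 : pfC (piC [(nat_lit 41351667), (nat_lit 28134109), (nat_lit 20794417), (nat_lit 13943267)] (nat_lit 35755509)) p13_5_0 (nat_lit 4) (nat_lit 27) (nat_lit 28) = true := by decide +kernel
def p13_5_0_28 : pfC (piC [(nat_lit 41351667), (nat_lit 28134109), (nat_lit 20794417), (nat_lit 13943267)] (nat_lit 35755509)) p13_5_0 (nat_lit 4) (nat_lit 28) (nat_lit 29) = true := by decide +kernel
def p13_5_0_29 : pfC (piC [(nat_lit 41351667), (nat_lit 28134109), (nat_lit 20794417), (nat_lit 13943267)] (nat_lit 35755509)) p13_5_0 (nat_lit 4) (nat_lit 29) (nat_lit 30) = true := by decide +kernel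
def p13_5_0_30 : pfC (piC [(nat_lit 41351667), (nat_lit 28134109), (nat_lit 20794417), (nat_lit 13943267)] (nat_lit 35755509)) p13_5_0 (nat_lit 4) (nat_lit 30) (nat_lit 31) = true := by decide +kernel
def p13_5_0_31 : pfC (piC [(nat_lit 41351667), (nat_lit 28134109), (nat_lit 20794417), (nat_lit 13943267)] (nat_lit 35755509)) p13_5_0 (nat_lit 4) (nat_lit 31) (nat_lit 32) = true := by decide +kernel
def p13_5_0_32 : pfC (piC [(nat_lit 41351667), (nat_lit 28134109), (nat_lit 20794417), (nat_lit 13943267)] (nat_lit 35755509)) p13_5_0 (nat_lit 4) (nat_lit 32) (nat_lit 33) = true := by decide +kernel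
def p13_5_0_33 : pfC (piC [(nat_lit 41351667), (nat_lit 28134109), (nat_lit 20794417), (nat_lit 13943267)] (nat_lit 35755509)) p13_5_0 (nat_lit 4) (nat_lit 33) (nat_lit 34) = true := by decide +kernel
def p13_5_0_34 : pfC (piC [(nat_lit 41351667), (nat_lit 28134109), (nat_lit 20794417), (nat_lit 13943267)] (nat_lit 35755509)) p13_5_0 (nat_lit 4) (nat_lit 34) (nat_lit 35) = true := by decide +kernel
def p13_5_0_35 : pfC (piC [(nat_lit 41351667), (nat_lit 28134109), (nat_lit 20794417), (nat_lit 13943267)] (nat_lit 35755509)) p13_5_0 (nat_lit 4) (nat_lit 35) (nat_lit 36) = true := by decide +kernel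
def p13_5_0_36 : pfC (piC [(nat_lit 41351667), (nat_lit 28134109), (nat_lit 20794417), (nat_lit 13943267)] (nat_lit 35755509)) p13_5_0 (nat_lit 4) (nat_lit 36) (nat_lit 37) = true := by decide +kernel
def p13_5_0_37 : pfC (piC [(nat_lit 41351667), (nat_lit 28134109), (nat_lit 20794417), (nat_lit 13943267)] (nat_lit 35755509)) p13_5_0 (nat_lit 4) (nat_lit 37) (nat_lit 38) = true := by decide +kernel
def p13_5_0_38 : pfC (piC [(nat_lit 41351667), (nat_lit 28134109), (nat_lit 20794417), (nat_lit 13943267)] (nat_lit 35755509)) p13_5_0 (nat_lit 4) (nat_lit 38) (nat_lit 39) = true := by decide +kernel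
def p13_5_0_39 : pfC (piC [(nat_lit 41351667), (nat_lit 28134109), (nat_lit 20794417), (nat_lit 13943267)] (nat_lit 35755509)) p13_5_0 (nat_lit 4) (nat_lit 39) (nat_lit 40) = true := by decide +kernel
def p13_5_0_40 : pfC (piC [(nat_lit 41351667), (nat_lit 28134109), (nat_lit 20794417), (nat_lit 13943267)] (nat_lit 35755509)) p13_5_0 (nat_lit 4) (nat_lit 40) (nat_lit 41) = true := by decide +kernel
def p13_5_0_41 : pfC (piC [(nat_lit 41351667), (nat_lit 28134109), (nat_lit 20794417), (nat_lit 13943267)] (nat_lit 35755509)) p13_5_0 (nat_lit 4) (nat_lit 41) (nat_lit 42) = true := by decide +kernel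
def p13_5_0_42 : pfC (piC [(nat_lit 41351667), (nat_lit 28134109), (nat_lit 20794417), (nat_lit 13943267)] (nat_lit 35755509)) p13_5_0 (nat_lit 4) (nat_lit 42) (nat_lit 43) = true := by decide +kernel
def p13_5_0_43 : pfC (piC [(nat_lit 41351667), (nat_lit 28134109), (nat_lit 20794417), (nat_lit 13943267)] (nat_lit 35755509)) p13_5_0 (nat_lit 4) (nat_lit 43) (nat_lit 44) = true := by decide +kernel
def p13_5_0_44 : pfC (piC [(nat_lit 41351667), (nat_lit 28134109), (nat_lit 20794417), (nat_lit 13943267)] (nat_lit 35755509)) p13_5_0 (nat_lit 4) (nat_lit 44) (nat_lit 45) = true := by decide +kernel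
def p13_5_0_45 : pfC (piC [(nat_lit 41351667), (nat_lit 28134109), (nat_lit 20794417), (nat_lit 13943267)] (nat_lit 35755509)) p13_5_0 (nat_lit 4) (nat_lit 45) (nat_lit 46) = true := by decide +kernel
def p13_5_0_46 : pfC (piC [(nat_lit 41351667), (nat_lit 28134109), (nat_lit 20794417), (nat_lit 13943267)] (nat_lit 35755509)) p13_5_0 (nat_lit 4) (nat_lit 46) (nat_lit 47) = true := by decide +kernel
def p13_5_0_47 : pfC (piC [(nat_lit 41351667), (nat_lit 28134109), (nat_lit 20794417), (nat_lit 13943267)] (nat_lit 35755509)) p13_5_0 (nat_lit 4) (nat_lit 47) (nat_lit 48) = true := by decide +kernel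
def p13_5_0_48 : pfC (piC [(nat_lit 41351667), (nat_lit 28134109), (nat_lit 20794417), (nat_lit 13943267)] (nat_lit 35755509)) p13_5_0 (nat_lit 4) (nat_lit 48) (nat_lit 49) = true := by decide +kernel
def p13_5_0_49 : pfC (piC [(nat_lit 41351667), (nat_lit 28134109), (nat_lit 20794417), (nat_lit 13943267)] (nat_lit 35755509)) p13_5_0 (nat_lit 4) (nat_lit 49) (nat_lit 50) = true := by decide +kernel
theorem p13_5_0_T : PfS (PiF n13_5.reverse (nat_lit 35755509)) p13_5_0 (nat_lit 4) [] 0 :=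
  pftab_of (los := [(nat_lit 41351667), (nat_lit 28134109), (nat_lit 20794417), (nat_lit 13943267)]) (by decide +kernel) (hi := (nat_lit 50)) (PfP.trans (PfP.trans (PfP.trans (PfP.trans (PfP.trans (PfP.trans (PfP.trans (PfP.trans (PfP.trans (PfP.trans (PfP.trans (PfP.trans (PfP.trans (PfP.trans (PfP.trans (PfP.trans (PfP.trans (PfP.trans (PfP.trans (PfP.trans (PfP.trans (PfP.trans (PfP.trans (PfP.trans (PfP.trans (PfP.trans (PfP.trans (PfP.trans (PfP.trans (PfP.trans (PfP.trans (PfP.trans (PfP.trans (PfP.trans (PfP.trans (PfP.trans (PfP.trans (PfP.trans (PfP.trans (PfP.trans (PfP.trans (PfP.trans (PfP.trans (PfP.trans (PfP.trans (PfP.trans (PfP.trans (PfP.trans (PfP.trans (pfC_sound p13_5_0_0) (pfC_sound p13_5_0_1)) (pfC_sound p13_5_0_2)) (pfC_sound p13_5_0_3)) (pfC_sound p13_5_0_4)) (pfC_sound p13_5_0_5)) (pfC_sound p13_5_0_6)) (pfC_sound p13_5_0_7)) (pfC_sound p13_5_0_8)) (pfC_sound p13_5_0_9)) (pfC_sound p13_5_0_10)) (pfC_sound p13_5_0_11)) (pfC_sound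 p13_5_0_12)) (pfC_sound p13_5_0_13)) (pfC_sound p13_5_0_14)) (pfC_sound p13_5_0_15)) (pfC_sound p13_5_0_16)) (pfC_sound p13_5_0_17)) (pfC_sound p13_5_0_18)) (pfC_sound p13_5_0_19)) (pfC_sound p13_5_0_20)) (pfC_sound p13_5_0_21)) (pfC_sound p13_5_0_22)) (pfC_sound p13_5_0_23)) (pfC_sound p13_5_0_24)) (pfC_sound p13_5_0_25)) (pfC_sound p13_5_0_26)) (pfC_sound p13_5_0_27))
 (pfC_sound p13_5_0_28)) (pfC_sound p13_5_0_29)) (pfC_sound p13_5_0_30)) (pfC_sound p13_5_0_31)) (pfC_sound p13_5_0_32)) (pfC_sound p13_5_0_33)) (pfC_sound p13_5_0_34)) (pfC_sound p13_5_0_35)) (pfC_sound p13_5_0_36)) (pfC_sound p13_5_0_37)) (pfC_sound p13_5_0_38)) (pfC_sound p13_5_0_39)) (pfC_sound p13_5_0_40)) (pfC_sound p13_5_0_41)) (pfC_sound p13_5_0_42)) (pfC_sound p13_5_0_43)) (pfC_sound p13_5_0_44)) (pfC_sound p13_5_0_45)) (pfC_sound p13_5_0_46)) (pfC_sound p13_5_0_47)) (pfC_sound p13_5_0_48)) (pfC_sound p13_5_0_49)) (by decide +kernel)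

def z13_5_0 : zOK yB13_5 (nat_lit 0) (nat_lit 0) (nat_lit 400) (nat_lit 35755509) (nat_lit 10936249) = true := by decide +kernel
def g13_5_0 : gOK yB13_5.x P13_5 (nat_lit 1423) (q13_5 :: r13_5) (nat_lit 0) (nat_lit 0) (nat_lit 1) (nat_lit 400) (nat_lit 0) (nat_lit 11000000) (nat_lit 12712500) (nat_lit 12712500) [(nat_lit 800), (nat_lit 1600)] = true := by decide +kernel
def v13_5_0 : ivC P13_5 s13_5 w13_5 n13_5 (nat_lit 4) (nat_lit 5560) (nat_lit 0) (nat_lit 0) f128_1_0 f136_1_0 (nat_lit 1) (nat_lit 400) f128_1_400 f136_1_400 (nat_lit 35755509) (nat_lit 10936249) p13_5_0 = true := by decide +kernel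
def p13_5_1 : PF := (PF.cons (PF.cons (PF.cons (PF.cons (PF.leaf (nat_lit 2060437) (nat_lit 9660998) (nat_lit 57447814) (nat_lit 9660998) [(nat_lit 0), (nat_lit 0), (nat_lit 0), (nat_lit 0)]) (PF.cons (PF.leaf (nat_lit 2179551) (nat_lit 193463) (nat_lit 57236985) (nat_lit 9678364) [(nat_lit 193463), (nat_lit 0), (nat_lit 0), (nat_lit 0)]) (PF.cons (PF.leaf (nat_lit 2323275) (nat_lit 210809) (nat_lit 56989491) (nat_lit 9697702) [(nat_lit 210809), (nat_lit 0), (nat_lit 0), (nat_lit 0)]) (PF.cons (PF.leaf (nat_lit 2485193) (nat_lit 226369) (nat_lit 56711584) (nat_lit 9718121) [(nat_lit 226369), (nat_lit 0), (nat_lit 0), (nat_lit 0)]) (PF.cons PF.nil PF.nil))))) (PF.cons (PF.cons (PF.leaf (nat_lit 2491948) (nat_lit 911247) (nat_lit 56466127) (nat_lit 9731438) [(nat_lit 0), (nat_lit 911247), (nat_lit 0), (nat_lit 0)]) (PF.cons (PF.leaf (nat_lit 2649517) (nat_lit 235354) (nat_lit 56188067) (nat_lit 9749353) [(nat_lit 235354), (nat_lit 936037), (nat_lit 0),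 (nat_lit 0)]) (PF.cons PF.nil (PF.cons PF.nil PF.nil)))) (PF.cons (PF.cons (PF.leaf (nat_lit 2993983) (nat_lit 987776) (nat_lit 55340503) (nat_lit 9792755) [(nat_lit 0), (nat_lit 987776), (nat_lit 0), (nat_lit 0)]) (PF.cons PF.nil PF.nil)) (PF.cons
 PF.nil (PF.cons PF.nil PF.nil))))) (PF.cons (PF.cons (PF.cons (PF.leaf (nat_lit 3035101) (nat_lit 2677444) (nat_lit 54631285) (nat_lit 9800082) [(nat_lit 0), (nat_lit 0), (nat_lit 2677444), (nat_lit 0)]) (PF.cons (PF.leaf (nat_lit 3203735) (nat_lit 257802) (nat_lit 54337360) (nat_lit 9811261) [(nat_lit 257802), (nat_lit 0), (nat_lit 2702388), (nat_lit 0)]) (PF.cons PF.nil (PF.cons PF.nil PF.nil)))) (PF.cons (PF.cons (PF.leaf (nat_lit 3558146) (nat_lit 1048274) (nat_lit 53464919) (nat_lit 9834030) [(nat_lit 0), (nat_lit 1048274), (nat_lit 2761587), (nat_lit 0)]) (PF.cons PF.nil PF.nil)) (PF.cons PF.nil PF.nil))) (PF.cons (PF.cons (PF.cons (PF.leaf (nat_lit 4120037) (nat_lit 2838003) (nat_lit 51598154) (nat_lit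 9834650) [(nat_lit 0), (nat_lit 0), (nat_lit 2838003), (nat_lit 0)]) (PF.cons PF.nil PF.nil)) (PF.cons PF.nil PF.nil)) PF.nil))) (PF.cons (PF.cons (PF.cons (PF.cons (PF.leaf (nat_lit 3829476) (nat_lit 6517507) (nat_lit 50847959) (nat_lit 9743345) [(nat_lit 0), (nat_lit 0), (nat_lit 0), (nat_lit 6517507)]) (PF.cons (PF.leaf (nat_lit 4001599) (nat_lit 272491) (nat_lit 50564127) (nat_lit 9743587) [(nat_lit 272491), (nat_lit 0), (nat_lit 0), (nat_lit 6528606)]) (PF.cons (PF.leaf
 (nat_lit 4190885) (nat_lit 285183) (nat_lit 50256034) (nat_lit 9742811) [(nat_lit 285183), (nat_lit 0), (nat_lit 0), (nat_lit 6539599)]) (PF.cons PF.nil PF.nil)))) (PF.cons (PF.cons (PF.leaf (nat_lit 4351759) (nat_lit 1089010) (nat_lit 49732296) (nat_lit 9735777) [(nat_lit 0), (nat_lit 1089010), (nat_lit 0), (nat_lit 6551728)]) (PF.cons (PF.leaf (nat_lit 4548908) (nat_lit 300786) (nat_lit 49410366) (nat_lit 9732024) [(nat_lit 300786), (nat_lit 1105291), (nat_lit 0), (nat_lit 6560343)])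 PF.nil)) (PF.cons PF.nil PF.nil))) (PF.cons (PF.cons (PF.cons (PF.leaf (nat_lit 4887730) (nat_lit 2875326) (nat_lit 47990671) (nat_lit 9681638) [(nat_lit 0), (nat_lit 0), (nat_lit 2875326), (nat_lit 6561176)]) (PF.cons (PF.leaf (nat_lit 5089041) (nat_lit 313282) (nat_lit 47669231) (nat_lit 9672579) [(nat_lit 313282), (nat_lit 0), (nat_lit 2888734), (nat_lit 6564985)]) PF.nil)) (PF.cons PF.nil PF.nil)) (PF.cons PF.nil PF.nil))) (PF.cons (PF.cons (PF.cons (PF.cons (PF.leaf (nat_lit 5594659) (nat_lit 6468601) (nat_lit 44709600) (nat_lit 9462009) [(nat_lit 0), (nat_lit 0), (nat_lit 0), (nat_lit 6468601)]) (PF.cons (PF.leaf (nat_lit 5793301) (nat_lit 317956) (nat_lit 44411443) (nat_lit 9446553) [(nat_lit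
 317956), (nat_lit 0), (nat_lit 0), (nat_lit 6466429)]) PF.nil)) (PF.cons PF.nil PF.nil)) (PF.cons PF.nil PF.nil)) (PF.cons PF.nil (PF.cons PF.nil (PF.cons PF.nil PF.nil))))))

def p13_5_1_0 : pfC (piC [(nat_lit 41351667), (nat_lit 28134109), (nat_lit 20794417), (nat_lit 13943267)] (nat_lit 10936249)) p13_5_1 (nat_lit 4) (nat_lit 0) (nat_lit 1) = true := by decide +kernel
def p13_5_1_1 : pfC (piC [(nat_lit 41351667), (nat_lit 28134109), (nat_lit 20794417), (nat_lit 13943267)] (nat_lit 10936249)) p13_5_1 (nat_lit 4) (nat_lit 1) (nat_lit 2) = true := by decide +kernel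
def p13_5_1_2 : pfC (piC [(nat_lit 41351667), (nat_lit 28134109), (nat_lit 20794417), (nat_lit 13943267)] (nat_lit 10936249)) p13_5_1 (nat_lit 4) (nat_lit 2) (nat_lit 3) = true := by decide +kernel
def p13_5_1_3 : pfC (piC [(nat_lit 41351667), (nat_lit 28134109), (nat_lit 20794417), (nat_lit 13943267)] (nat_lit 10936249)) p13_5_1 (nat_lit 4) (nat_lit 3) (nat_lit 4) = true := by decide +kernel
def p13_5_1_4 : pfC (piC [(nat_lit 41351667), (nat_lit 28134109), (nat_lit 20794417), (nat_lit 13943267)] (nat_lit 10936249)) p13_5_1 (nat_lit 4) (nat_lit 4) (nat_lit 5) = true := by decide +kernel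
def p13_5_1_5 : pfC (piC [(nat_lit 41351667), (nat_lit 28134109), (nat_lit 20794417), (nat_lit 13943267)] (nat_lit 10936249)) p13_5_1 (nat_lit 4) (nat_lit 5) (nat_lit 6) = true := by decide +kernel
def p13_5_1_6 : pfC (piC [(nat_lit 41351667), (nat_lit 28134109), (nat_lit 20794417), (nat_lit 13943267)] (nat_lit 10936249)) p13_5_1 (nat_lit 4) (nat_lit 6) (nat_lit 7) = true := by decide +kernel
def p13_5_1_7 : pfC (piC [(nat_lit 41351667), (nat_lit 28134109), (nat_lit 20794417), (nat_lit 13943267)] (nat_lit 10936249)) p13_5_1 (nat_lit 4) (nat_lit 7) (nat_lit 8) = true := by decide +kernel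
def p13_5_1_8 : pfC (piC [(nat_lit 41351667), (nat_lit 28134109), (nat_lit 20794417), (nat_lit 13943267)] (nat_lit 10936249)) p13_5_1 (nat_lit 4) (nat_lit 8) (nat_lit 9) = true := by decide +kernel
def p13_5_1_9 : pfC (piC [(nat_lit 41351667), (nat_lit 28134109), (nat_lit 20794417), (nat_lit 13943267)] (nat_lit 10936249)) p13_5_1 (nat_lit 4) (nat_lit 9) (nat_lit 10) = true := by decide +kernel
def p13_5_1_10 : pfC (piC [(nat_lit 41351667), (nat_lit 28134109), (nat_lit 20794417), (nat_lit 13943267)] (nat_lit 10936249)) p13_5_1 (nat_lit 4) (nat_lit 10) (nat_lit 11) = true := by decide +kernel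
def p13_5_1_11 : pfC (piC [(nat_lit 41351667), (nat_lit 28134109), (nat_lit 20794417), (nat_lit 13943267)] (nat_lit 10936249)) p13_5_1 (nat_lit 4) (nat_lit 11) (nat_lit 12) = true := by decide +kernel
def p13_5_1_12 : pfC (piC [(nat_lit 41351667), (nat_lit 28134109), (nat_lit 20794417), (nat_lit 13943267)] (nat_lit 10936249)) p13_5_1 (nat_lit 4) (nat_lit 12) (nat_lit 13) = true := by decide +kernel
def p13_5_1_13 : pfC (piC [(nat_lit 41351667), (nat_lit 28134109), (nat_lit 20794417), (nat_lit 13943267)] (nat_lit 10936249)) p13_5_1 (nat_lit 4) (nat_lit 13) (nat_lit 14) = true := by decide +kernel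
def p13_5_1_14 : pfC (piC [(nat_lit 41351667), (nat_lit 28134109), (nat_lit 20794417), (nat_lit 13943267)] (nat_lit 10936249)) p13_5_1 (nat_lit 4) (nat_lit 14) (nat_lit 15) = true := by decide +kernel
def p13_5_1_15 : pfC (piC [(nat_lit 41351667), (nat_lit 28134109), (nat_lit 20794417), (nat_lit 13943267)] (nat_lit 10936249)) p13_5_1 (nat_lit 4) (nat_lit 15) (nat_lit 16) = true := by decide +kernel
def p13_5_1_16 : pfC (piC [(nat_lit 41351667), (nat_lit 28134109), (nat_lit 20794417), (nat_lit 13943267)] (nat_lit 10936249)) p13_5_1 (nat_lit 4) (nat_lit 16) (nat_lit 17) = true := by decide +kernel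
def p13_5_1_17 : pfC (piC [(nat_lit 41351667), (nat_lit 28134109), (nat_lit 20794417), (nat_lit 13943267)] (nat_lit 10936249)) p13_5_1 (nat_lit 4) (nat_lit 17) (nat_lit 18) = true := by decide +kernel
def p13_5_1_18 : pfC (piC [(nat_lit 41351667), (nat_lit 28134109), (nat_lit 20794417), (nat_lit 13943267)] (nat_lit 10936249)) p13_5_1 (nat_lit 4) (nat_lit 18) (nat_lit 19) = true := by decide +kernel
def p13_5_1_19 : pfC (piC [(nat_lit 41351667), (nat_lit 28134109), (nat_lit 20794417), (nat_lit 13943267)] (nat_lit 10936249)) p13_5_1 (nat_lit 4) (nat_lit 19) (nat_lit 20) = true := by decide +kernel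
theorem p13_5_1_T : PfS (PiF n13_5.reverse (nat_lit 10936249)) p13_5_1 (nat_lit 4) [] 0 :=
  pftab_of (los := [(nat_lit 41351667), (nat_lit 28134109), (nat_lit 20794417), (nat_lit 13943267)]) (by decide +kernel) (hi := (nat_lit 20)) (PfP.trans (PfP.trans (PfP.trans (PfP.trans (PfP.trans (PfP.trans (PfP.trans (PfP.trans (PfP.trans (PfP.trans (PfP.trans (PfP.trans (PfP.trans (PfP.trans (PfP.trans (PfP.trans (PfP.trans (PfP.trans (PfP.trans (pfC_sound p13_5_1_0) (pfC_sound p13_5_1_1)) (pfC_sound p13_5_1_2)) (pfC_sound p13_5_1_3)) (pfC_sound p13_5_1_4)) (pfC_sound p13_5_1_5)) (pfC_sound p13_5_1_6)) (pfC_sound p13_5_1_7)) (pfC_sound p13_5_1_8)) (pfC_sound p13_5_1_9)) (pfC_sound p13_5_1_10)) (pfC_sound p13_5_1_11)) (pfC_sound p13_5_1_12)) (pfC_sound p13_5_1_13)) (pfC_sound p13_5_1_14)) (pfC_sound p13_5_1_15)) (pfC_sound p13_5_1_16)) (pfC_sound p13_5_1_17)) (pfC_sound p13_5_1_18)) (pfC_sound p13_5_1_19)) (by decide +kernel)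

def z13_5_1 : zOK yB13_5 (nat_lit 1) (nat_lit 400) (nat_lit 600) (nat_lit 10936249) (nat_lit 6891553) = true := by decide +kernel
def g13_5_1 : gOK yB13_5.x P13_5 (nat_lit 1423) (q13_5 :: r13_5) (nat_lit 1) (nat_lit 400) (nat_lit 2) (nat_lit 600) (nat_lit 11000000) (nat_lit 17850000) (nat_lit 12712500) (nat_lit 12712500) [(nat_lit 800), (nat_lit 1130)] = true := by decide +kernel
def v13_5_1 : ivC P13_5 s13_5 w13_5 n13_5 (nat_lit 4) (nat_lit 5160) (nat_lit 1) (nat_lit 400) f128_1_400 f136_1_400 (nat_lit 2) (nat_lit 600) f128_1_600 f136_1_600 (nat_lit 10936249) (nat_lit 6891553) p13_5_1 = true := by decide +kernel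
def p13_5_2 : PF := (PF.cons (PF.cons (PF.cons (PF.cons (PF.leaf (nat_lit 2738399) (nat_lit 15909555) (nat_lit 51199257) (nat_lit 15909555) [(nat_lit 0), (nat_lit 0), (nat_lit 0), (nat_lit 0)]) (PF.cons (PF.leaf (nat_lit 2855001) (nat_lit 194845) (nat_lit 51016813) (nat_lit 15897154) [(nat_lit 194845), (nat_lit 0), (nat_lit 0), (nat_lit 0)]) (PF.cons (PF.leaf (nat_lit 2995429) (nat_lit 211929) (nat_lit 50802968) (nat_lit 15881985) [(nat_lit 211929), (nat_lit 0), (nat_lit 0), (nat_lit 0)]) (PF.cons (PF.leaf (nat_lit 3153225) (nat_lit 227127) (nat_lit 50563243) (nat_lit 15864187) [(nat_lit 227127), (nat_lit 0), (nat_lit 0), (nat_lit 0)]) (PF.cons (PF.leaf (nat_lit 3326011) (nat_lit 240871) (nat_lit 50301510) (nat_lit 15843817) [(nat_lit 240871), (nat_lit 0), (nat_lit 0), (nat_lit 0)]) PF.nil))))) (PF.cons (PF.cons (PF.leaf (nat_lit 3154987) (nat_lit 910228) (nat_lit 50352900) (nat_lit 15845684) [(nat_lit 0), (nat_lit 910228), (nat_lit 0), (nat_lit 0)])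 (PF.cons (PF.leaf (nat_lit 3307888) (nat_lit 235304) (nat_lit 50113797) (nat_lit 15826356) [(nat_lit 235304), (nat_lit 933354), (nat_lit 0), (nat_lit 0)]) (PF.cons (PF.leaf (nat_lit 3478713) (nat_lit 248564) (nat_lit 49851329) (nat_lit 15804232)
 [(nat_lit 248564), (nat_lit 956121), (nat_lit 0), (nat_lit 0)]) (PF.cons PF.nil PF.nil)))) (PF.cons (PF.cons (PF.leaf (nat_lit 3635868) (nat_lit 979998) (nat_lit 49388201) (nat_lit 15760615) [(nat_lit 0), (nat_lit 979998), (nat_lit 0), (nat_lit 0)]) (PF.cons (PF.leaf (nat_lit 3816352) (nat_lit 266965) (nat_lit 49107744) (nat_lit 15734180) [(nat_lit 266965), (nat_lit 999960), (nat_lit 0), (nat_lit 0)]) PF.nil)) (PF.cons PF.nil (PF.cons PF.nil PF.nil))))) (PF.cons (PF.cons (PF.cons (PF.leaf (nat_lit 3662137) (nat_lit 2631618) (nat_lit 48789327) (nat_lit 15687867) [(nat_lit 0), (nat_lit 0), (nat_lit 2631618), (nat_lit 0)]) (PF.cons (PF.leaf (nat_lit 3824382) (nat_lit 255125) (nat_lit 48538676) (nat_lit 15662472)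 [(nat_lit 255125), (nat_lit 0), (nat_lit 2652538), (nat_lit 0)]) (PF.cons (PF.leaf (nat_lit 4003626) (nat_lit 267623) (nat_lit 48265791) (nat_lit 15633923) [(nat_lit 267623), (nat_lit 0), (nat_lit 2673851), (nat_lit 0)]) (PF.cons PF.nil PF.nil)))) (PF.cons (PF.cons (PF.leaf (nat_lit 4159460) (nat_lit 1030589) (nat_lit 47797333) (nat_lit 15580460) [(nat_lit 0), (nat_lit 1030589), (nat_lit 2700429), (nat_lit 0)]) (PF.cons (PF.leaf (nat_lit 4346942) (nat_lit 283679) (nat_lit
 47510234) (nat_lit 15547763) [(nat_lit 283679), (nat_lit 1047646), (nat_lit 2719489), (nat_lit 0)]) PF.nil)) (PF.cons PF.nil PF.nil))) (PF.cons (PF.cons (PF.cons (PF.leaf (nat_lit 4678998) (nat_lit 2756612) (nat_lit 46222385) (nat_lit 15373201) [(nat_lit 0), (nat_lit 0), (nat_lit 2756612), (nat_lit 0)]) (PF.cons PF.nil PF.nil)) (PF.cons PF.nil PF.nil)) (PF.cons PF.nil (PF.cons PF.nil PF.nil))))) (PF.cons (PF.cons (PF.cons (PF.cons (PF.leaf (nat_lit 4381407) (nat_lit 6262563) (nat_lit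 45614954) (nat_lit 15231294) [(nat_lit 0), (nat_lit 0), (nat_lit 0), (nat_lit 6262563)]) (PF.cons (PF.leaf (nat_lit 4545832) (nat_lit 266163) (nat_lit 45374723) (nat_lit 15199106) [(nat_lit 266163), (nat_lit 0), (nat_lit 0), (nat_lit 6268819)]) (PF.cons (PF.leaf (nat_lit 4726576) (nat_lit 278256) (nat_lit 45114112) (nat_lit 15163445) [(nat_lit 278256), (nat_lit 0), (nat_lit 0), (nat_lit 6274741)]) (PF.cons (PF.leaf (nat_lit 4919711) (nat_lit 288967) (nat_lit 44837111) (nat_lit 15124707) [(nat_lit 288967), (nat_lit 0), (nat_lit 0), (nat_lit 6280090)]) (PF.cons PF.nil PF.nil))))) (PF.cons (PF.cons (PF.leaf (nat_lit 4875994) (nat_lit 1058457) (nat_lit 44672282) (nat_lit 15099110) [(nat_lit 0), (nat_lit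
 1058457), (nat_lit 0), (nat_lit 6278962)]) (PF.cons (PF.leaf (nat_lit 5063655) (nat_lit 292661) (nat_lit 44400350) (nat_lit 15059754) [(nat_lit 292661), (nat_lit 1073223), (nat_lit 0), (nat_lit 6282822)]) (PF.cons PF.nil (PF.cons PF.nil PF.nil)))) (PF.cons (PF.cons (PF.leaf (nat_lit 5406685) (nat_lit 1098479) (nat_lit 43677398) (nat_lit 14949106) [(nat_lit 0), (nat_lit 1098479), (nat_lit 0), (nat_lit 6285349)]) (PF.cons PF.nil PF.nil)) PF.nil))) (PF.cons (PF.cons (PF.cons (PF.leaf (nat_lit 5372570) (nat_lit 2769920) (nat_lit 43207942) (nat_lit 14863647) [(nat_lit 0), (nat_lit 0), (nat_lit 2769920), (nat_lit 6267302)]) (PF.cons (PF.leaf (nat_lit 5563721) (nat_lit 303408) (nat_lit 42936835) (nat_lit 14820341) [(nat_lit 303408), (nat_lit 0), (nat_lit 2780812), (nat_lit 6267414)]) PF.nil)) (PF.cons PF.nil PF.nil)) (PF.cons PF.nil PF.nil))) (PF.cons (PF.cons (PF.cons (PF.cons (PF.leaf (nat_lit 6016325) (nat_lit 6156083) (nat_lit 40463622) (nat_lit 14333022)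 [(nat_lit 0), (nat_lit 0), (nat_lit 0), (nat_lit 6156083)]) (PF.cons (PF.leaf (nat_lit 6204883) (nat_lit 306312) (nat_lit 40211754) (nat_lit 14286897) [(nat_lit 306312), (nat_lit 0), (nat_lit 0), (nat_lit 6151924)]) PF.nil))
 (PF.cons PF.nil PF.nil)) (PF.cons PF.nil PF.nil)) (PF.cons PF.nil (PF.cons PF.nil (PF.cons PF.nil PF.nil))))))

def p13_5_2_0 : pfC (piC [(nat_lit 41351667), (nat_lit 28134109), (nat_lit 20794417), (nat_lit 13943267)] (nat_lit 6891553)) p13_5_2 (nat_lit 4) (nat_lit 0) (nat_lit 1) = true := by decide +kernel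
def p13_5_2_1 : pfC (piC [(nat_lit 41351667), (nat_lit 28134109), (nat_lit 20794417), (nat_lit 13943267)] (nat_lit 6891553)) p13_5_2 (nat_lit 4) (nat_lit 1) (nat_lit 2) = true := by decide +kernel
def p13_5_2_2 : pfC (piC [(nat_lit 41351667), (nat_lit 28134109), (nat_lit 20794417), (nat_lit 13943267)] (nat_lit 6891553)) p13_5_2 (nat_lit 4) (nat_lit 2) (nat_lit 3) = true := by decide +kernel
def p13_5_2_3 : pfC (piC [(nat_lit 41351667), (nat_lit 28134109), (nat_lit 20794417), (nat_lit 13943267)] (nat_lit 6891553)) p13_5_2 (nat_lit 4) (nat_lit 3) (nat_lit 4) = true := by decide +kernel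
def p13_5_2_4 : pfC (piC [(nat_lit 41351667), (nat_lit 28134109), (nat_lit 20794417), (nat_lit 13943267)] (nat_lit 6891553)) p13_5_2 (nat_lit 4) (nat_lit 4) (nat_lit 5) = true := by decide +kernel
def p13_5_2_5 : pfC (piC [(nat_lit 41351667), (nat_lit 28134109), (nat_lit 20794417), (nat_lit 13943267)] (nat_lit 6891553)) p13_5_2 (nat_lit 4) (nat_lit 5) (nat_lit 6) = true := by decide +kernel
def p13_5_2_6 : pfC (piC [(nat_lit 41351667), (nat_lit 28134109), (nat_lit 20794417), (nat_lit 13943267)] (nat_lit 6891553)) p13_5_2 (nat_lit 4) (nat_lit 6) (nat_lit 7) = true := by decide +kernel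
def p13_5_2_7 : pfC (piC [(nat_lit 41351667), (nat_lit 28134109), (nat_lit 20794417), (nat_lit 13943267)] (nat_lit 6891553)) p13_5_2 (nat_lit 4) (nat_lit 7) (nat_lit 8) = true := by decide +kernel
def p13_5_2_8 : pfC (piC [(nat_lit 41351667), (nat_lit 28134109), (nat_lit 20794417), (nat_lit 13943267)] (nat_lit 6891553)) p13_5_2 (nat_lit 4) (nat_lit 8) (nat_lit 9) = true := by decide +kernel
def p13_5_2_9 : pfC (piC [(nat_lit 41351667), (nat_lit 28134109), (nat_lit 20794417), (nat_lit 13943267)] (nat_lit 6891553)) p13_5_2 (nat_lit 4) (nat_lit 9) (nat_lit 10) = true := by decide +kernel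
def p13_5_2_10 : pfC (piC [(nat_lit 41351667), (nat_lit 28134109), (nat_lit 20794417), (nat_lit 13943267)] (nat_lit 6891553)) p13_5_2 (nat_lit 4) (nat_lit 10) (nat_lit 11) = true := by decide +kernel
def p13_5_2_11 : pfC (piC [(nat_lit 41351667), (nat_lit 28134109), (nat_lit 20794417), (nat_lit 13943267)] (nat_lit 6891553)) p13_5_2 (nat_lit 4) (nat_lit 11) (nat_lit 12) = true := by decide +kernel
def p13_5_2_12 : pfC (piC [(nat_lit 41351667), (nat_lit 28134109), (nat_lit 20794417), (nat_lit 13943267)] (nat_lit 6891553)) p13_5_2 (nat_lit 4) (nat_lit 12) (nat_lit 13) = true := by decide +kernel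
def p13_5_2_13 : pfC (piC [(nat_lit 41351667), (nat_lit 28134109), (nat_lit 20794417), (nat_lit 13943267)] (nat_lit 6891553)) p13_5_2 (nat_lit 4) (nat_lit 13) (nat_lit 14) = true := by decide +kernel
def p13_5_2_14 : pfC (piC [(nat_lit 41351667), (nat_lit 28134109), (nat_lit 20794417), (nat_lit 13943267)] (nat_lit 6891553)) p13_5_2 (nat_lit 4) (nat_lit 14) (nat_lit 15) = true := by decide +kernel
def p13_5_2_15 : pfC (piC [(nat_lit 41351667), (nat_lit 28134109), (nat_lit 20794417), (nat_lit 13943267)] (nat_lit 6891553)) p13_5_2 (nat_lit 4) (nat_lit 15) (nat_lit 16) = true := by decide +kernel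
def p13_5_2_16 : pfC (piC [(nat_lit 41351667), (nat_lit 28134109), (nat_lit 20794417), (nat_lit 13943267)] (nat_lit 6891553)) p13_5_2 (nat_lit 4) (nat_lit 16) (nat_lit 17) = true := by decide +kernel
def p13_5_2_17 : pfC (piC [(nat_lit 41351667), (nat_lit 28134109), (nat_lit 20794417), (nat_lit 13943267)] (nat_lit 6891553)) p13_5_2 (nat_lit 4) (nat_lit 17) (nat_lit 18) = true := by decide +kernel
def p13_5_2_18 : pfC (piC [(nat_lit 41351667), (nat_lit 28134109), (nat_lit 20794417), (nat_lit 13943267)] (nat_lit 6891553)) p13_5_2 (nat_lit 4) (nat_lit 18) (nat_lit 19) = true := by decide +kernel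
def p13_5_2_19 : pfC (piC [(nat_lit 41351667), (nat_lit 28134109), (nat_lit 20794417), (nat_lit 13943267)] (nat_lit 6891553)) p13_5_2 (nat_lit 4) (nat_lit 19) (nat_lit 20) = true := by decide +kernel
def p13_5_2_20 : pfC (piC [(nat_lit 41351667), (nat_lit 28134109), (nat_lit 20794417), (nat_lit 13943267)] (nat_lit 6891553)) p13_5_2 (nat_lit 4) (nat_lit 20) (nat_lit 21) = true := by decide +kernel
def p13_5_2_21 : pfC (piC [(nat_lit 41351667), (nat_lit 28134109), (nat_lit 20794417), (nat_lit 13943267)] (nat_lit 6891553)) p13_5_2 (nat_lit 4) (nat_lit 21) (nat_lit 22) = true := by decide +kernel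
def p13_5_2_22 : pfC (piC [(nat_lit 41351667), (nat_lit 28134109), (nat_lit 20794417), (nat_lit 13943267)] (nat_lit 6891553)) p13_5_2 (nat_lit 4) (nat_lit 22) (nat_lit 23) = true := by decide +kernel
def p13_5_2_23 : pfC (piC [(nat_lit 41351667), (nat_lit 28134109), (nat_lit 20794417), (nat_lit 13943267)] (nat_lit 6891553)) p13_5_2 (nat_lit 4) (nat_lit 23) (nat_lit 24) = true := by decide +kernel
def p13_5_2_24 : pfC (piC [(nat_lit 41351667), (nat_lit 28134109), (nat_lit 20794417), (nat_lit 13943267)] (nat_lit 6891553)) p13_5_2 (nat_lit 4) (nat_lit 24) (nat_lit 25) = true := by decide +kernel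
def p13_5_2_25 : pfC (piC [(nat_lit 41351667), (nat_lit 28134109), (nat_lit 20794417), (nat_lit 13943267)] (nat_lit 6891553)) p13_5_2 (nat_lit 4) (nat_lit 25) (nat_lit 26) = true := by decide +kernel
def p13_5_2_26 : pfC (piC [(nat_lit 41351667), (nat_lit 28134109), (nat_lit 20794417), (nat_lit 13943267)] (nat_lit 6891553)) p13_5_2 (nat_lit 4) (nat_lit 26) (nat_lit 27) = true := by decide +kernel
theorem p13_5_2_T : PfS (PiF n13_5.reverse (nat_lit 6891553)) p13_5_2 (nat_lit 4) [] 0 :=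
  pftab_of (los := [(nat_lit 41351667), (nat_lit 28134109), (nat_lit 20794417), (nat_lit 13943267)]) (by decide +kernel) (hi := (nat_lit 27)) (PfP.trans (PfP.trans (PfP.trans (PfP.trans (PfP.trans (PfP.trans (PfP.trans (PfP.trans (PfP.trans (PfP.trans (PfP.trans (PfP.trans (PfP.trans (PfP.trans (PfP.trans (PfP.trans (PfP.trans (PfP.trans (PfP.trans (PfP.trans (PfP.trans (PfP.trans (PfP.trans (PfP.trans (PfP.trans (PfP.trans (pfC_sound p13_5_2_0) (pfC_sound p13_5_2_1)) (pfC_sound p13_5_2_2)) (pfC_sound p13_5_2_3)) (pfC_sound p13_5_2_4)) (pfC_sound p13_5_2_5)) (pfC_sound p13_5_2_6)) (pfC_sound p13_5_2_7)) (pfC_sound p13_5_2_8)) (pfC_sound p13_5_2_9)) (pfC_sound p13_5_2_10)) (pfC_sound p13_5_2_11)) (pfC_sound p13_5_2_12)) (pfC_sound p13_5_2_13)) (pfC_sound p13_5_2_14)) (pfC_sound p13_5_2_15)) (pfC_sound p13_5_2_16)) (pfC_sound p13_5_2_17)) (pfC_sound p13_5_2_18)) (pfC_sound p13_5_2_19)) (pfC_sound p13_5_2_20)) (pfC_sound p13_5_2_21)) (pfC_sound p13_5_2_22))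 (pfC_sound p13_5_2_23)) (pfC_sound p13_5_2_24)) (pfC_sound p13_5_2_25)) (pfC_sound p13_5_2_26)) (by decide +kernel)

def z13_5_2 : zOK yB13_5 (nat_lit 2) (nat_lit 600) (nat_lit 750) (nat_lit 6891553) (nat_lit 4796502) = true := by decide +kernel
def g13_5_2 : gOK yB13_5.x P13_5 (nat_lit 1423) (q13_5 :: r13_5) (nat_lit 2) (nat_lit 600) (nat_lit 3) (nat_lit 750) (nat_lit 12712500) (nat_lit 12712500) (nat_lit 12712500) (nat_lit 12712500) [(nat_lit 800), (nat_lit 1600)] = true := by decide +kernel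
def v13_5_2 : ivC P13_5 s13_5 w13_5 n13_5 (nat_lit 4) (nat_lit 4960) (nat_lit 2) (nat_lit 600) f128_1_600 f136_1_600 (nat_lit 3) (nat_lit 750) f128_1_750 f136_1_750 (nat_lit 6891553) (nat_lit 4796502) p13_5_2 = true := by decide +kernel
def p13_5_3 : PF := (PF.cons (PF.cons (PF.cons (PF.cons (PF.leaf (nat_lit 3137313) (nat_lit 21527783) (nat_lit 45581029) (nat_lit 21527783) [(nat_lit 0), (nat_lit 0), (nat_lit 0), (nat_lit 0)]) (PF.cons (PF.leaf (nat_lit 3247771) (nat_lit 186926) (nat_lit 45431922) (nat_lit 21489963) [(nat_lit 186926), (nat_lit 0), (nat_lit 0), (nat_lit 0)]) (PF.cons (PF.leaf (nat_lit 3381213) (nat_lit 203207) (nat_lit 45257155) (nat_lit 21445243) [(nat_lit 203207), (nat_lit 0), (nat_lit 0), (nat_lit 0)]) (PF.cons (PF.leaf (nat_lit 3531024) (nat_lit 217653) (nat_lit 45061233) (nat_lit 21394618) [(nat_lit 217653), (nat_lit 0), (nat_lit 0), (nat_lit 0)]) (PF.cons (PF.leaf (nat_lit 3694919) (nat_lit 230685) (nat_lit 44847312) (nat_lit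 21338758) [(nat_lit 230685), (nat_lit 0), (nat_lit 0), (nat_lit 0)]) (PF.cons (PF.leaf (nat_lit 3871100) (nat_lit 242571) (nat_lit 44617797) (nat_lit 21278156) [(nat_lit 242571), (nat_lit 0), (nat_lit 0), (nat_lit 0)]) (PF.cons PF.nil PF.nil))))))) (PF.cons (PF.cons (PF.leaf (nat_lit 3531236) (nat_lit 870656) (nat_lit 44889658) (nat_lit 21348497) [(nat_lit 0), (nat_lit 870656), (nat_lit 0), (nat_lit 0)]) (PF.cons (PF.leaf (nat_lit 3675989) (nat_lit 225247) (nat_lit 44694230) (nat_lit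
 21297013) [(nat_lit 225247), (nat_lit 892321), (nat_lit 0), (nat_lit 0)]) (PF.cons (PF.leaf (nat_lit 3837862) (nat_lit 237808) (nat_lit 44479683) (nat_lit 21239921) [(nat_lit 237808), (nat_lit 913591), (nat_lit 0), (nat_lit 0)]) (PF.cons (PF.leaf (nat_lit 4012556) (nat_lit 249226) (nat_lit 44249081) (nat_lit 21177898) [(nat_lit 249226), (nat_lit 934155), (nat_lit 0), (nat_lit 0)]) (PF.cons (PF.leaf (nat_lit 4198546) (nat_lit 259703) (nat_lit 44004701) (nat_lit 21111432) [(nat_lit 259703), (nat_lit 953864), (nat_lit 0), (nat_lit 0)]) PF.nil))))) (PF.cons (PF.cons (PF.leaf (nat_lit 3985060) (nat_lit 935520) (nat_lit 44101397) (nat_lit 21136374) [(nat_lit 0), (nat_lit 935520), (nat_lit 0), (nat_lit 0)]) (PF.cons (PF.leaf (nat_lit 4155675) (nat_lit 255029) (nat_lit 43872054) (nat_lit 21073564) [(nat_lit 255029), (nat_lit 954082), (nat_lit 0), (nat_lit 0)]) (PF.cons (PF.leaf (nat_lit 4339632) (nat_lit 265193) (nat_lit 43628244) (nat_lit 21006073) [(nat_lit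 265193), (nat_lit 972054), (nat_lit 0), (nat_lit 0)]) (PF.cons PF.nil PF.nil)))) (PF.cons (PF.cons (PF.leaf (nat_lit 4483480) (nat_lit 988869) (nat_lit 43245159) (nat_lit 20897045) [(nat_lit 0), (nat_lit 988869), (nat_lit 0),
 (nat_lit 0)]) (PF.cons (PF.leaf (nat_lit 4674157) (nat_lit 279125) (nat_lit 42990916) (nat_lit 20824675) [(nat_lit 279125), (nat_lit 1004698), (nat_lit 0), (nat_lit 0)]) PF.nil)) (PF.cons PF.nil (PF.cons PF.nil PF.nil)))))) (PF.cons (PF.cons (PF.cons (PF.leaf (nat_lit 4005211) (nat_lit 2502193) (nat_lit 43613987) (nat_lit 20992632) [(nat_lit 0), (nat_lit 0), (nat_lit 2502193), (nat_lit 0)]) (PF.cons (PF.leaf (nat_lit 4158446) (nat_lit 243488) (nat_lit 43408898) (nat_lit 20935296) [(nat_lit 243488), (nat_lit 0), (nat_lit 2521129), (nat_lit 0)]) (PF.cons (PF.leaf (nat_lit 4328073) (nat_lit 255300) (nat_lit 43185562) (nat_lit 20872273) [(nat_lit 255300), (nat_lit 0), (nat_lit 2540375), (nat_lit 0)]) (PF.cons (PF.leaf (nat_lit 4509836)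 (nat_lit 265891) (nat_lit 42947273) (nat_lit 20804366) [(nat_lit 265891), (nat_lit 0), (nat_lit 2559497), (nat_lit 0)]) (PF.cons PF.nil PF.nil))))) (PF.cons (PF.cons (PF.leaf (nat_lit 4473874) (nat_lit 981225) (nat_lit 42802363) (nat_lit 20761275) [(nat_lit 0), (nat_lit 981225), (nat_lit 2563948), (nat_lit 0)]) (PF.cons (PF.leaf (nat_lit 4650820) (nat_lit 270297) (nat_lit 42567201) (nat_lit 20693167) [(nat_lit 270297), (nat_lit 997058), (nat_lit
 2581087), (nat_lit 0)]) (PF.cons (PF.leaf (nat_lit 4840447) (nat_lit 279717) (nat_lit 42318618) (nat_lit 20620463) [(nat_lit 279717), (nat_lit 1012326), (nat_lit 2597969), (nat_lit 0)]) (PF.cons PF.nil PF.nil)))) (PF.cons (PF.cons (PF.leaf (nat_lit 4981399) (nat_lit 1025580) (nat_lit 41935964) (nat_lit 20505645) [(nat_lit 0), (nat_lit 1025580), (nat_lit 2616040), (nat_lit 0)]) (PF.cons (PF.leaf (nat_lit 5176460) (nat_lit 291790) (nat_lit 41679434) (nat_lit 20428711) [(nat_lit 291790), (nat_lit 1039030), (nat_lit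 2630816), (nat_lit 0)]) PF.nil)) (PF.cons PF.nil (PF.cons PF.nil PF.nil))))) (PF.cons (PF.cons (PF.cons (PF.leaf (nat_lit 4959111) (nat_lit 2612663) (nat_lit 41513652) (nat_lit 20369833) [(nat_lit 0), (nat_lit 0), (nat_lit 2612663), (nat_lit 0)]) (PF.cons (PF.leaf (nat_lit 5140774) (nat_lit 282733) (nat_lit 41276086) (nat_lit 20297534) [(nat_lit 282733), (nat_lit 0), (nat_lit 2626229), (nat_lit 0)]) (PF.cons (PF.leaf (nat_lit 5334371) (nat_lit 291499) (nat_lit 41026062) (nat_lit 20220756) [(nat_lit 291499), (nat_lit 0), (nat_lit 2639497), (nat_lit 0)]) (PF.cons PF.nil PF.nil)))) (PF.cons (PF.cons (PF.leaf (nat_lit 5471956) (nat_lit 1053927) (nat_lit 40647833) (nat_lit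
 20101818) [(nat_lit 0), (nat_lit 1053927), (nat_lit 2652616), (nat_lit 0)]) (PF.cons PF.nil PF.nil)) (PF.cons PF.nil PF.nil))) (PF.cons (PF.cons (PF.cons (PF.leaf (nat_lit 5953557) (nat_lit 2676398) (nat_lit 39389398) (nat_lit 19690220) [(nat_lit 0), (nat_lit 0), (nat_lit 2676398), (nat_lit 0)]) (PF.cons PF.nil PF.nil)) (PF.cons PF.nil PF.nil)) (PF.cons PF.nil PF.nil))))) (PF.cons (PF.cons (PF.cons (PF.cons (PF.leaf (nat_lit 4671051) (nat_lit 5902917) (nat_lit 41024824) (nat_lit 20181070) [(nat_lit 0), (nat_lit 0), (nat_lit 0), (nat_lit 5902917)]) (PF.cons (PF.leaf (nat_lit 4826344) (nat_lit 253177) (nat_lit 40827204) (nat_lit 20120438) [(nat_lit 253177), (nat_lit 0), (nat_lit 0), (nat_lit 5907992)]) (PF.cons (PF.leaf (nat_lit 4997404) (nat_lit 264607) (nat_lit 40612725) (nat_lit 20054131) [(nat_lit 264607), (nat_lit 0), (nat_lit 0), (nat_lit 5912739)]) (PF.cons (PF.leaf (nat_lit 5179984) (nat_lit 274718) (nat_lit 40384645) (nat_lit 19983053) [(nat_lit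 274718), (nat_lit 0), (nat_lit 0), (nat_lit 5916958)]) (PF.cons PF.nil PF.nil))))) (PF.cons (PF.cons (PF.leaf (nat_lit 5137665) (nat_lit 1004983) (nat_lit 40249179) (nat_lit 19939184) [(nat_lit 0), (nat_lit 1004983), (nat_lit 0),
 (nat_lit 5915465)]) (PF.cons (PF.leaf (nat_lit 5314919) (nat_lit 278115) (nat_lit 40025085) (nat_lit 19868437) [(nat_lit 278115), (nat_lit 1018772), (nat_lit 0), (nat_lit 5918402)]) (PF.cons (PF.leaf (nat_lit 5504142) (nat_lit 287023) (nat_lit 39788874) (nat_lit 19793266) [(nat_lit 287023), (nat_lit 1031932), (nat_lit 0), (nat_lit 5920692)]) (PF.cons PF.nil PF.nil)))) (PF.cons (PF.cons (PF.leaf (nat_lit 5638313) (nat_lit 1042171) (nat_lit 39429013) (nat_lit 19676193) [(nat_lit 0), (nat_lit 1042171), (nat_lit 0), (nat_lit 5919264)]) (PF.cons (PF.leaf (nat_lit 5831965) (nat_lit 297650) (nat_lit 39186736) (nat_lit 19597512) [(nat_lit 297650), (nat_lit 1053633), (nat_lit 0), (nat_lit 5919647)]) PF.nil)) (PF.cons PF.nil (PF.cons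 PF.nil PF.nil))))) (PF.cons (PF.cons (PF.cons (PF.leaf (nat_lit 5603465) (nat_lit 2621221) (nat_lit 39043033) (nat_lit 19542693) [(nat_lit 0), (nat_lit 0), (nat_lit 2621221), (nat_lit 5901864)]) (PF.cons (PF.leaf (nat_lit 5784090) (nat_lit 288042) (nat_lit 38818889) (nat_lit 19469074) [(nat_lit 288042), (nat_lit 0), (nat_lit 2631192), (nat_lit 5901614)]) (PF.cons (PF.leaf (nat_lit 5975996) (nat_lit 296328) (nat_lit 38583509) (nat_lit 19391191) [(nat_lit
 296328), (nat_lit 0), (nat_lit 2640812), (nat_lit 5900643)]) (PF.cons PF.nil PF.nil)))) (PF.cons (PF.cons (PF.leaf (nat_lit 6106487) (nat_lit 1062594) (nat_lit 38230567) (nat_lit 19271967) [(nat_lit 0), (nat_lit 1062594), (nat_lit 2648953), (nat_lit 5894729)]) (PF.cons PF.nil PF.nil)) (PF.cons PF.nil PF.nil))) (PF.cons (PF.cons (PF.cons (PF.leaf (nat_lit 6565020) (nat_lit 2659433) (nat_lit 37066256) (nat_lit 18865537) [(nat_lit 0), (nat_lit 0), (nat_lit 2659433), (nat_lit 5858151)]) (PF.cons PF.nil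 PF.nil)) (PF.cons PF.nil PF.nil)) PF.nil))) (PF.cons (PF.cons (PF.cons (PF.cons (PF.leaf (nat_lit 6206171) (nat_lit 5798836) (nat_lit 36776031) (nat_lit 18735108) [(nat_lit 0), (nat_lit 0), (nat_lit 0), (nat_lit 5798836)]) (PF.cons (PF.leaf (nat_lit 6384721) (nat_lit 290668) (nat_lit 36566156) (nat_lit 18661831) [(nat_lit 290668), (nat_lit 0), (nat_lit 0), (nat_lit 5795078)]) (PF.cons PF.nil PF.nil))) (PF.cons (PF.cons (PF.leaf (nat_lit 6697805) (nat_lit 1062898) (nat_lit 36018719) (nat_lit 18467357) [(nat_lit 0), (nat_lit 1062898), (nat_lit 0), (nat_lit 5779918)]) PF.nil) PF.nil)) (PF.cons PF.nil PF.nil)) (PF.cons PF.nil (PF.cons PF.nil (PF.cons PF.nil PF.nil))))))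

def p13_5_3_0 : pfC (piC [(nat_lit 41351667), (nat_lit 28134109), (nat_lit 20794417), (nat_lit 13943267)] (nat_lit 4796502)) p13_5_3 (nat_lit 4) (nat_lit 0) (nat_lit 1) = true := by decide +kernel
def p13_5_3_1 : pfC (piC [(nat_lit 41351667), (nat_lit 28134109), (nat_lit 20794417), (nat_lit 13943267)] (nat_lit 4796502)) p13_5_3 (nat_lit 4) (nat_lit 1) (nat_lit 2) = true := by decide +kernel
def p13_5_3_2 : pfC (piC [(nat_lit 41351667), (nat_lit 28134109), (nat_lit 20794417), (nat_lit 13943267)] (nat_lit 4796502)) p13_5_3 (nat_lit 4) (nat_lit 2) (nat_lit 3) = true := by decide +kernel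
def p13_5_3_3 : pfC (piC [(nat_lit 41351667), (nat_lit 28134109), (nat_lit 20794417), (nat_lit 13943267)] (nat_lit 4796502)) p13_5_3 (nat_lit 4) (nat_lit 3) (nat_lit 4) = true := by decide +kernel
def p13_5_3_4 : pfC (piC [(nat_lit 41351667), (nat_lit 28134109), (nat_lit 20794417), (nat_lit 13943267)] (nat_lit 4796502)) p13_5_3 (nat_lit 4) (nat_lit 4) (nat_lit 5) = true := by decide +kernel
def p13_5_3_5 : pfC (piC [(nat_lit 41351667), (nat_lit 28134109), (nat_lit 20794417), (nat_lit 13943267)] (nat_lit 4796502)) p13_5_3 (nat_lit 4) (nat_lit 5) (nat_lit 6) = true := by decide +kernel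
def p13_5_3_6 : pfC (piC [(nat_lit 41351667), (nat_lit 28134109), (nat_lit 20794417), (nat_lit 13943267)] (nat_lit 4796502)) p13_5_3 (nat_lit 4) (nat_lit 6) (nat_lit 7) = true := by decide +kernel
def p13_5_3_7 : pfC (piC [(nat_lit 41351667), (nat_lit 28134109), (nat_lit 20794417), (nat_lit 13943267)] (nat_lit 4796502)) p13_5_3 (nat_lit 4) (nat_lit 7) (nat_lit 8) = true := by decide +kernel
def p13_5_3_8 : pfC (piC [(nat_lit 41351667), (nat_lit 28134109), (nat_lit 20794417), (nat_lit 13943267)] (nat_lit 4796502)) p13_5_3 (nat_lit 4) (nat_lit 8) (nat_lit 9) = true := by decide +kernel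
def p13_5_3_9 : pfC (piC [(nat_lit 41351667), (nat_lit 28134109), (nat_lit 20794417), (nat_lit 13943267)] (nat_lit 4796502)) p13_5_3 (nat_lit 4) (nat_lit 9) (nat_lit 10) = true := by decide +kernel
def p13_5_3_10 : pfC (piC [(nat_lit 41351667), (nat_lit 28134109), (nat_lit 20794417), (nat_lit 13943267)] (nat_lit 4796502)) p13_5_3 (nat_lit 4) (nat_lit 10) (nat_lit 11) = true := by decide +kernel
def p13_5_3_11 : pfC (piC [(nat_lit 41351667), (nat_lit 28134109), (nat_lit 20794417), (nat_lit 13943267)] (nat_lit 4796502)) p13_5_3 (nat_lit 4) (nat_lit 11) (nat_lit 12) = true := by decide +kernel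
def p13_5_3_12 : pfC (piC [(nat_lit 41351667), (nat_lit 28134109), (nat_lit 20794417), (nat_lit 13943267)] (nat_lit 4796502)) p13_5_3 (nat_lit 4) (nat_lit 12) (nat_lit 13) = true := by decide +kernel
def p13_5_3_13 : pfC (piC [(nat_lit 41351667), (nat_lit 28134109), (nat_lit 20794417), (nat_lit 13943267)] (nat_lit 4796502)) p13_5_3 (nat_lit 4) (nat_lit 13) (nat_lit 14) = true := by decide +kernel
def p13_5_3_14 : pfC (piC [(nat_lit 41351667), (nat_lit 28134109), (nat_lit 20794417), (nat_lit 13943267)] (nat_lit 4796502)) p13_5_3 (nat_lit 4) (nat_lit 14) (nat_lit 15) = true := by decide +kernel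
def p13_5_3_15 : pfC (piC [(nat_lit 41351667), (nat_lit 28134109), (nat_lit 20794417), (nat_lit 13943267)] (nat_lit 4796502)) p13_5_3 (nat_lit 4) (nat_lit 15) (nat_lit 16) = true := by decide +kernel
def p13_5_3_16 : pfC (piC [(nat_lit 41351667), (nat_lit 28134109), (nat_lit 20794417), (nat_lit 13943267)] (nat_lit 4796502)) p13_5_3 (nat_lit 4) (nat_lit 16) (nat_lit 17) = true := by decide +kernel
def p13_5_3_17 : pfC (piC [(nat_lit 41351667), (nat_lit 28134109), (nat_lit 20794417), (nat_lit 13943267)] (nat_lit 4796502)) p13_5_3 (nat_lit 4) (nat_lit 17) (nat_lit 18) = true := by decide +kernel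
def p13_5_3_18 : pfC (piC [(nat_lit 41351667), (nat_lit 28134109), (nat_lit 20794417), (nat_lit 13943267)] (nat_lit 4796502)) p13_5_3 (nat_lit 4) (nat_lit 18) (nat_lit 19) = true := by decide +kernel
def p13_5_3_19 : pfC (piC [(nat_lit 41351667), (nat_lit 28134109), (nat_lit 20794417), (nat_lit 13943267)] (nat_lit 4796502)) p13_5_3 (nat_lit 4) (nat_lit 19) (nat_lit 20) = true := by decide +kernel
def p13_5_3_20 : pfC (piC [(nat_lit 41351667), (nat_lit 28134109), (nat_lit 20794417), (nat_lit 13943267)] (nat_lit 4796502)) p13_5_3 (nat_lit 4) (nat_lit 20) (nat_lit 21) = true := by decide +kernel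
def p13_5_3_21 : pfC (piC [(nat_lit 41351667), (nat_lit 28134109), (nat_lit 20794417), (nat_lit 13943267)] (nat_lit 4796502)) p13_5_3 (nat_lit 4) (nat_lit 21) (nat_lit 22) = true := by decide +kernel
def p13_5_3_22 : pfC (piC [(nat_lit 41351667), (nat_lit 28134109), (nat_lit 20794417), (nat_lit 13943267)] (nat_lit 4796502)) p13_5_3 (nat_lit 4) (nat_lit 22) (nat_lit 23) = true := by decide +kernel
def p13_5_3_23 : pfC (piC [(nat_lit 41351667), (nat_lit 28134109), (nat_lit 20794417), (nat_lit 13943267)] (nat_lit 4796502)) p13_5_3 (nat_lit 4) (nat_lit 23) (nat_lit 24) = true := by decide +kernel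
def p13_5_3_24 : pfC (piC [(nat_lit 41351667), (nat_lit 28134109), (nat_lit 20794417), (nat_lit 13943267)] (nat_lit 4796502)) p13_5_3 (nat_lit 4) (nat_lit 24) (nat_lit 25) = true := by decide +kernel
def p13_5_3_25 : pfC (piC [(nat_lit 41351667), (nat_lit 28134109), (nat_lit 20794417), (nat_lit 13943267)] (nat_lit 4796502)) p13_5_3 (nat_lit 4) (nat_lit 25) (nat_lit 26) = true := by decide +kernel
def p13_5_3_26 : pfC (piC [(nat_lit 41351667), (nat_lit 28134109), (nat_lit 20794417), (nat_lit 13943267)] (nat_lit 4796502)) p13_5_3 (nat_lit 4) (nat_lit 26) (nat_lit 27) = true := by decide +kernel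
def p13_5_3_27 : pfC (piC [(nat_lit 41351667), (nat_lit 28134109), (nat_lit 20794417), (nat_lit 13943267)] (nat_lit 4796502)) p13_5_3 (nat_lit 4) (nat_lit 27) (nat_lit 28) = true := by decide +kernel
def p13_5_3_28 : pfC (piC [(nat_lit 41351667), (nat_lit 28134109), (nat_lit 20794417), (nat_lit 13943267)] (nat_lit 4796502)) p13_5_3 (nat_lit 4) (nat_lit 28) (nat_lit 29) = true := by decide +kernel
def p13_5_3_29 : pfC (piC [(nat_lit 41351667), (nat_lit 28134109), (nat_lit 20794417), (nat_lit 13943267)] (nat_lit 4796502)) p13_5_3 (nat_lit 4) (nat_lit 29) (nat_lit 30) = true := by decide +kernel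
def p13_5_3_30 : pfC (piC [(nat_lit 41351667), (nat_lit 28134109), (nat_lit 20794417), (nat_lit 13943267)] (nat_lit 4796502)) p13_5_3 (nat_lit 4) (nat_lit 30) (nat_lit 31) = true := by decide +kernel
def p13_5_3_31 : pfC (piC [(nat_lit 41351667), (nat_lit 28134109), (nat_lit 20794417), (nat_lit 13943267)] (nat_lit 4796502)) p13_5_3 (nat_lit 4) (nat_lit 31) (nat_lit 32) = true := by decide +kernel
def p13_5_3_32 : pfC (piC [(nat_lit 41351667), (nat_lit 28134109), (nat_lit 20794417), (nat_lit 13943267)] (nat_lit 4796502)) p13_5_3 (nat_lit 4) (nat_lit 32) (nat_lit 33) = true := by decide +kernel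
def p13_5_3_33 : pfC (piC [(nat_lit 41351667), (nat_lit 28134109), (nat_lit 20794417), (nat_lit 13943267)] (nat_lit 4796502)) p13_5_3 (nat_lit 4) (nat_lit 33) (nat_lit 34) = true := by decide +kernel
def p13_5_3_34 : pfC (piC [(nat_lit 41351667), (nat_lit 28134109), (nat_lit 20794417), (nat_lit 13943267)] (nat_lit 4796502)) p13_5_3 (nat_lit 4) (nat_lit 34) (nat_lit 35) = true := by decide +kernel
def p13_5_3_35 : pfC (piC [(nat_lit 41351667), (nat_lit 28134109), (nat_lit 20794417), (nat_lit 13943267)] (nat_lit 4796502)) p13_5_3 (nat_lit 4) (nat_lit 35) (nat_lit 36) = true := by decide +kernel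
def p13_5_3_36 : pfC (piC [(nat_lit 41351667), (nat_lit 28134109), (nat_lit 20794417), (nat_lit 13943267)] (nat_lit 4796502)) p13_5_3 (nat_lit 4) (nat_lit 36) (nat_lit 37) = true := by decide +kernel
def p13_5_3_37 : pfC (piC [(nat_lit 41351667), (nat_lit 28134109), (nat_lit 20794417), (nat_lit 13943267)] (nat_lit 4796502)) p13_5_3 (nat_lit 4) (nat_lit 37) (nat_lit 38) = true := by decide +kernel
def p13_5_3_38 : pfC (piC [(nat_lit 41351667), (nat_lit 28134109), (nat_lit 20794417), (nat_lit 13943267)] (nat_lit 4796502)) p13_5_3 (nat_lit 4) (nat_lit 38) (nat_lit 39) = true := by decide +kernel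
def p13_5_3_39 : pfC (piC [(nat_lit 41351667), (nat_lit 28134109), (nat_lit 20794417), (nat_lit 13943267)] (nat_lit 4796502)) p13_5_3 (nat_lit 4) (nat_lit 39) (nat_lit 40) = true := by decide +kernel
def p13_5_3_40 : pfC (piC [(nat_lit 41351667), (nat_lit 28134109), (nat_lit 20794417), (nat_lit 13943267)] (nat_lit 4796502)) p13_5_3 (nat_lit 4) (nat_lit 40) (nat_lit 41) = true := by decide +kernel
def p13_5_3_41 : pfC (piC [(nat_lit 41351667), (nat_lit 28134109), (nat_lit 20794417), (nat_lit 13943267)] (nat_lit 4796502)) p13_5_3 (nat_lit 4) (nat_lit 41) (nat_lit 42) = true := by decide +kernel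
def p13_5_3_42 : pfC (piC [(nat_lit 41351667), (nat_lit 28134109), (nat_lit 20794417), (nat_lit 13943267)] (nat_lit 4796502)) p13_5_3 (nat_lit 4) (nat_lit 42) (nat_lit 43) = true := by decide +kernel
def p13_5_3_43 : pfC (piC [(nat_lit 41351667), (nat_lit 28134109), (nat_lit 20794417), (nat_lit 13943267)] (nat_lit 4796502)) p13_5_3 (nat_lit 4) (nat_lit 43) (nat_lit 44) = true := by decide +kernel
def p13_5_3_44 : pfC (piC [(nat_lit 41351667), (nat_lit 28134109), (nat_lit 20794417), (nat_lit 13943267)] (nat_lit 4796502)) p13_5_3 (nat_lit 4) (nat_lit 44) (nat_lit 45) = true := by decide +kernel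
def p13_5_3_45 : pfC (piC [(nat_lit 41351667), (nat_lit 28134109), (nat_lit 20794417), (nat_lit 13943267)] (nat_lit 4796502)) p13_5_3 (nat_lit 4) (nat_lit 45) (nat_lit 46) = true := by decide +kernel
def p13_5_3_46 : pfC (piC [(nat_lit 41351667), (nat_lit 28134109), (nat_lit 20794417), (nat_lit 13943267)] (nat_lit 4796502)) p13_5_3 (nat_lit 4) (nat_lit 46) (nat_lit 47) = true := by decide +kernel
theorem p13_5_3_T : PfS (PiF n13_5.reverse (nat_lit 4796502)) p13_5_3 (nat_lit 4) [] 0 :=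
  pftab_of (los := [(nat_lit 41351667), (nat_lit 28134109), (nat_lit 20794417), (nat_lit 13943267)]) (by decide +kernel) (hi := (nat_lit 47)) (PfP.trans (PfP.trans (PfP.trans (PfP.trans (PfP.trans (PfP.trans (PfP.trans (PfP.trans (PfP.trans (PfP.trans (PfP.trans (PfP.trans (PfP.trans (PfP.trans (PfP.trans (PfP.trans (PfP.trans (PfP.trans (PfP.trans (PfP.trans (PfP.trans (PfP.trans (PfP.trans (PfP.trans (PfP.trans (PfP.trans (PfP.trans (PfP.trans (PfP.trans (PfP.trans (PfP.trans (PfP.trans (PfP.trans (PfP.trans (PfP.trans (PfP.trans (PfP.trans (PfP.trans (PfP.trans (PfP.trans (PfP.trans (PfP.trans (PfP.trans (PfP.trans (PfP.trans (PfP.trans (pfC_sound p13_5_3_0) (pfC_sound p13_5_3_1)) (pfC_sound p13_5_3_2)) (pfC_sound p13_5_3_3)) (pfC_sound p13_5_3_4)) (pfC_sound p13_5_3_5)) (pfC_sound p13_5_3_6)) (pfC_sound p13_5_3_7)) (pfC_sound p13_5_3_8)) (pfC_sound p13_5_3_9)) (pfC_sound p13_5_3_10)) (pfC_sound p13_5_3_11)) (pfC_sound p13_5_3_12)) (pfC_sound p13_5_3_13))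 (pfC_sound p13_5_3_14)) (pfC_sound p13_5_3_15)) (pfC_sound p13_5_3_16)) (pfC_sound p13_5_3_17)) (pfC_sound p13_5_3_18)) (pfC_sound p13_5_3_19)) (pfC_sound p13_5_3_20)) (pfC_sound p13_5_3_21)) (pfC_sound p13_5_3_22)) (pfC_sound p13_5_3_23)) (pfC_sound p13_5_3_24)) (pfC_sound p13_5_3_25)) (pfC_sound p13_5_3_26)) (pfC_sound p13_5_3_27)) (pfC_sound p13_5_3_28))
 (pfC_sound p13_5_3_29)) (pfC_sound p13_5_3_30)) (pfC_sound p13_5_3_31)) (pfC_sound p13_5_3_32)) (pfC_sound p13_5_3_33)) (pfC_sound p13_5_3_34)) (pfC_sound p13_5_3_35)) (pfC_sound p13_5_3_36)) (pfC_sound p13_5_3_37)) (pfC_sound p13_5_3_38)) (pfC_sound p13_5_3_39)) (pfC_sound p13_5_3_40)) (pfC_sound p13_5_3_41)) (pfC_sound p13_5_3_42)) (pfC_sound p13_5_3_43)) (pfC_sound p13_5_3_44)) (pfC_sound p13_5_3_45)) (pfC_sound p13_5_3_46)) (by decide +kernel)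

def z13_5_3 : zOK yB13_5 (nat_lit 3) (nat_lit 750) (nat_lit 943) (nat_lit 4796502) (nat_lit 2704974) = true := by decide +kernel
def g13_5_3 : gOK yB13_5.x P13_5 (nat_lit 1423) (q13_5 :: r13_5) (nat_lit 3) (nat_lit 750) (nat_lit 4) (nat_lit 943) (nat_lit 12712500) (nat_lit 12712500) (nat_lit 12712500) (nat_lit 12712500) [(nat_lit 800)] = true := by decide +kernel
def v13_5_3 : ivC P13_5 s13_5 w13_5 n13_5 (nat_lit 4) (nat_lit 4810) (nat_lit 3) (nat_lit 750) f128_1_750 f136_1_750 (nat_lit 4) (nat_lit 943) f128_1_943 f136_1_943 (nat_lit 4796502) (nat_lit 2704974) p13_5_3 = true := by decide +kernel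
/-! box `yB13_6` -/

def P13_6 : BQ := ⟨(nat_lit 8), (nat_lit 4), (nat_lit 4), (nat_lit 0), (nat_lit 8), (nat_lit 660), (nat_lit 680), (nat_lit 120), [(nat_lit 200), (nat_lit 300), (nat_lit 450), (nat_lit 800)], (nat_lit 57904000), (nat_lit 16000000), (nat_lit 16000000000)⟩
def q13_6 : PC := ⟨(nat_lit 1000), [(nat_lit 120000), (nat_lit 200000), (nat_lit 300000), (nat_lit 450000), (nat_lit 800000)], (nat_lit 340282367000166625996085689103316680705000000), (nat_lit 15942096000000), (nat_lit 15942096000000), (nat_lit 10000000)⟩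
def r13_6 : List PC := [⟨(nat_lit 1331), [(nat_lit 120548), (nat_lit 200998), (nat_lit 301830), (nat_lit 452105), (nat_lit 799446)], (nat_lit 342282887035835396975706106296706485191658948), (nat_lit 16341349148960), (nat_lit 16354034287040), (nat_lit 10061000)⟩]
def s13_6 : List PB := [⟨(nat_lit 26620), (nat_lit 1928768000000), [(nat_lit 200998), (nat_lit 301830), (nat_lit 452105), (nat_lit 799446)], (nat_lit 342282887035835396975706106296706485191658948), (nat_lit 1142241255991584), (nat_lit 1142253941129664), (nat_lit 52960)⟩]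
def n13_6 : List KN := [⟨(nat_lit 800), (nat_lit 450), (nat_lit 13862945), (nat_lit 8603832)⟩, ⟨(nat_lit 450), (nat_lit 300), (nat_lit 20557252), (nat_lit 13862945)⟩, ⟨(nat_lit 300), (nat_lit 200), (nat_lit 27968816), (nat_lit 20557252)⟩, ⟨(nat_lit 200), (nat_lit 120), (nat_lit 43428061), (nat_lit 27968816)⟩]
def w13_6 : List ℕ := [(nat_lit 52960)]
def par13_6 : parC yB13_6 P13_6 s13_6 r13_6 q13_6 n13_6 w13_6 = true := by decide +kernel

def p13_6_0 : PF := (PF.cons (PF.cons (PF.cons (PF.cons (PF.leaf (nat_lit 328439) (nat_lit 816194) (nat_lit 66292618) (nat_lit 816194) [(nat_lit 0), (nat_lit 0), (nat_lit 0), (nat_lit 0)]) (PF.cons (PF.leaf (nat_lit 399039) (nat_lit 108024) (nat_lit 66153527) (nat_lit 847261) [(nat_lit 108024), (nat_lit 0), (nat_lit 0), (nat_lit 0)]) (PF.cons (PF.leaf (nat_lit 494965) (nat_lit 120630) (nat_lit 65985851) (nat_lit 881701) [(nat_lit 120630), (nat_lit 0), (nat_lit 0), (nat_lit 0)]) (PF.cons (PF.leaf (nat_lit 606714) (nat_lit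 132756) (nat_lit 65792351) (nat_lit 918191) [(nat_lit 132756), (nat_lit 0), (nat_lit 0), (nat_lit 0)]) (PF.cons (PF.leaf (nat_lit 731947) (nat_lit 144521) (nat_lit 65574854) (nat_lit 955872) [(nat_lit 144521), (nat_lit 0), (nat_lit 0), (nat_lit 0)]) (PF.cons PF.nil (PF.cons PF.nil PF.nil))))))) (PF.cons (PF.cons (PF.leaf (nat_lit 685147) (nat_lit 681878) (nat_lit 65466418) (nat_lit 960516) [(nat_lit 0), (nat_lit 681878), (nat_lit 0), (nat_lit 0)]) (PF.cons (PF.leaf (nat_lit 796568) (nat_lit 147481) (nat_lit 65258210) (nat_lit 993433) [(nat_lit 147481), (nat_lit 709687), (nat_lit 0), (nat_lit 0)]) (PF.cons (PF.leaf (nat_lit 927455) (nat_lit 158978) (nat_lit 65024491) (nat_lit 1027842)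
 [(nat_lit 158978), (nat_lit 738522), (nat_lit 0), (nat_lit 0)]) (PF.cons (PF.leaf (nat_lit 1072264) (nat_lit 170111) (nat_lit 64767565) (nat_lit 1063062) [(nat_lit 170111), (nat_lit 767849), (nat_lit 0), (nat_lit 0)]) (PF.cons PF.nil PF.nil))))) (PF.cons (PF.cons (PF.leaf (nat_lit 1135795) (nat_lit 791892) (nat_lit 64430011) (nat_lit 1095016) [(nat_lit 0), (nat_lit 791892), (nat_lit 0), (nat_lit 0)]) (PF.cons (PF.leaf (nat_lit 1281848) (nat_lit 183118) (nat_lit 64160694) (nat_lit 1127314) [(nat_lit 183118), (nat_lit 818842), (nat_lit 0), (nat_lit 0)]) (PF.cons (PF.leaf (nat_lit 1444275) (nat_lit 193669) (nat_lit 63869116) (nat_lit 1160139) [(nat_lit 193669), (nat_lit 846109), (nat_lit 0), (nat_lit 0)]) (PF.cons PF.nil PF.nil)))) (PF.cons (PF.cons (PF.leaf (nat_lit 1667149) (nat_lit 891819) (nat_lit 63215666) (nat_lit 1217688) [(nat_lit 0), (nat_lit 891819), (nat_lit 0), (nat_lit 0)]) (PF.cons PF.nil PF.nil)) (PF.cons PF.nil (PF.cons PF.nil PF.nil))))))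 (PF.cons (PF.cons (PF.cons (PF.leaf (nat_lit 1224885) (nat_lit 1124222) (nat_lit 63672843) (nat_lit 1124222) [(nat_lit 0), (nat_lit 0), (nat_lit 2311746), (nat_lit 0)]) (PF.cons (PF.leaf (nat_lit 1355452) (nat_lit 178069) (nat_lit
 63427732) (nat_lit 1152937) [(nat_lit 178069), (nat_lit 0), (nat_lit 2350073), (nat_lit 0)]) (PF.cons (PF.leaf (nat_lit 1504852) (nat_lit 189590) (nat_lit 63156382) (nat_lit 1182787) [(nat_lit 189590), (nat_lit 0), (nat_lit 2390461), (nat_lit 0)]) (PF.cons (PF.leaf (nat_lit 1667744) (nat_lit 200506) (nat_lit 62862027) (nat_lit 1213194) [(nat_lit 200506), (nat_lit 0), (nat_lit 2432071), (nat_lit 0)]) (PF.cons PF.nil PF.nil))))) (PF.cons (PF.cons (PF.leaf (nat_lit 1725101) (nat_lit 903460) (nat_lit 62494301) (nat_lit 1238312) [(nat_lit 0), (nat_lit 903460), (nat_lit 2472738), (nat_lit 0)]) (PF.cons (PF.leaf (nat_lit 1887782) (nat_lit 211514) (nat_lit 62192914) (nat_lit 1266200) [(nat_lit 211514), (nat_lit 927207), (nat_lit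 2510976), (nat_lit 0)]) (PF.cons PF.nil (PF.cons PF.nil PF.nil)))) (PF.cons (PF.cons (PF.leaf (nat_lit 2295249) (nat_lit 989141) (nat_lit 61168112) (nat_lit 1341820) [(nat_lit 0), (nat_lit 989141), (nat_lit 2620597), (nat_lit 0)]) (PF.cons PF.nil PF.nil)) (PF.cons PF.nil (PF.cons PF.nil PF.nil))))) (PF.cons (PF.cons (PF.cons (PF.leaf (nat_lit 2333187) (nat_lit 1354416) (nat_lit 60447455) (nat_lit 1354416) [(nat_lit 0), (nat_lit 0), (nat_lit 2653470), (nat_lit 0)])
 (PF.cons (PF.leaf (nat_lit 2508700) (nat_lit 235549) (nat_lit 60124103) (nat_lit 1378492) [(nat_lit 235549), (nat_lit 0), (nat_lit 2685333), (nat_lit 0)]) (PF.cons PF.nil (PF.cons PF.nil PF.nil)))) (PF.cons (PF.cons (PF.leaf (nat_lit 2930623) (nat_lit 1068272) (nat_lit 59050666) (nat_lit 1441665) [(nat_lit 0), (nat_lit 1068272), (nat_lit 2774104), (nat_lit 0)]) (PF.cons PF.nil PF.nil)) (PF.cons PF.nil PF.nil))) (PF.cons (PF.cons (PF.cons (PF.leaf (nat_lit 3564525) (nat_lit 1521249) (nat_lit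 56910206) (nat_lit 1521249) [(nat_lit 0), (nat_lit 0), (nat_lit 2892452), (nat_lit 0)]) (PF.cons PF.nil PF.nil)) (PF.cons PF.nil PF.nil)) (PF.cons PF.nil (PF.cons PF.nil PF.nil)))))) (PF.cons (PF.cons (PF.cons (PF.cons (PF.leaf (nat_lit 2155075) (nat_lit 1287841) (nat_lit 59222243) (nat_lit 1287841) [(nat_lit 0), (nat_lit 0), (nat_lit 0), (nat_lit 6598728)]) (PF.cons (PF.leaf (nat_lit 2298634) (nat_lit 206570) (nat_lit 58961740) (nat_lit 1312317) [(nat_lit 206570), (nat_lit 0), (nat_lit 0), (nat_lit 6628184)]) (PF.cons (PF.leaf (nat_lit 2459752) (nat_lit 218274) (nat_lit 58675739) (nat_lit 1337405) [(nat_lit 218274), (nat_lit 0), (nat_lit 0), (nat_lit 6659119)]) (PF.cons (PF.leaf (nat_lit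
 2634137) (nat_lit 229089) (nat_lit 58368103) (nat_lit 1362622) [(nat_lit 229089), (nat_lit 0), (nat_lit 0), (nat_lit 6690817)]) (PF.cons (PF.leaf (nat_lit 2820487) (nat_lit 239190) (nat_lit 58041650) (nat_lit 1387659) [(nat_lit 239190), (nat_lit 0), (nat_lit 0), (nat_lit 6722742)]) (PF.cons (PF.leaf (nat_lit 3017406) (nat_lit 248689) (nat_lit 57698587) (nat_lit 1412308) [(nat_lit 248689), (nat_lit 0), (nat_lit 0), (nat_lit 6754468)]) (PF.cons PF.nil PF.nil))))))) (PF.cons (PF.cons (PF.leaf (nat_lit 2680694) (nat_lit 1012346) (nat_lit 57994103) (nat_lit 1380387) [(nat_lit 0), (nat_lit 1012346), (nat_lit 0), (nat_lit 6721974)]) (PF.cons (PF.leaf (nat_lit 2853296) (nat_lit 238073) (nat_lit 57684476) (nat_lit 1403195) [(nat_lit 238073), (nat_lit 1032606), (nat_lit 0), (nat_lit 6750460)]) (PF.cons (PF.leaf (nat_lit 3039960) (nat_lit 247889) (nat_lit 57355137) (nat_lit 1426014) [(nat_lit 247889), (nat_lit 1052715), (nat_lit 0), (nat_lit 6779167)]) (PF.cons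 (PF.leaf (nat_lit 3237594) (nat_lit 257074) (nat_lit 57008870) (nat_lit 1448589) [(nat_lit 257074), (nat_lit 1072482), (nat_lit 0), (nat_lit 6807646)]) (PF.cons PF.nil PF.nil))))) (PF.cons (PF.cons (PF.leaf (nat_lit 3263909) (nat_lit
 1081969) (nat_lit 56653393) (nat_lit 1461489) [(nat_lit 0), (nat_lit 1081969), (nat_lit 0), (nat_lit 6829990)]) (PF.cons (PF.leaf (nat_lit 3459767) (nat_lit 264650) (nat_lit 56306726) (nat_lit 1482094) [(nat_lit 264650), (nat_lit 1100083), (nat_lit 0), (nat_lit 6855174)]) (PF.cons (PF.leaf (nat_lit 3667143) (nat_lit 273043) (nat_lit 55944825) (nat_lit 1502400) [(nat_lit 273043), (nat_lit 1117850), (nat_lit 0), (nat_lit 6879799)]) (PF.cons PF.nil PF.nil)))) (PF.cons (PF.cons (PF.leaf (nat_lit 3891661) (nat_lit 1141942) (nat_lit 55232854) (nat_lit 1531592) [(nat_lit 0), (nat_lit 1141942), (nat_lit 0), (nat_lit 6918538)]) (PF.cons PF.nil PF.nil)) (PF.cons PF.nil PF.nil))))) (PF.cons (PF.cons (PF.cons (PF.leaf (nat_lit 3273420)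 (nat_lit 1463297) (nat_lit 55968605) (nat_lit 1463297) [(nat_lit 0), (nat_lit 0), (nat_lit 2827202), (nat_lit 6849707)]) (PF.cons (PF.leaf (nat_lit 3454661) (nat_lit 256689) (nat_lit 55648357) (nat_lit 1482746) [(nat_lit 256689), (nat_lit 0), (nat_lit 2850230), (nat_lit 6870789)]) (PF.cons (PF.leaf (nat_lit 3649247) (nat_lit 266002) (nat_lit 55309614) (nat_lit 1502108) [(nat_lit 266002), (nat_lit 0), (nat_lit 2873376), (nat_lit 6891707)]) (PF.cons (PF.leaf
 (nat_lit 3854149) (nat_lit 274616) (nat_lit 54955340) (nat_lit 1521174) [(nat_lit 274616), (nat_lit 0), (nat_lit 2896334), (nat_lit 6912114)]) (PF.cons PF.nil PF.nil))))) (PF.cons (PF.cons (PF.leaf (nat_lit 3871952) (nat_lit 1138318) (nat_lit 54602345) (nat_lit 1530747) [(nat_lit 0), (nat_lit 1138318), (nat_lit 2911248), (nat_lit 6926152)]) (PF.cons (PF.leaf (nat_lit 4074132) (nat_lit 280790) (nat_lit 54250464) (nat_lit 1548104) [(nat_lit 280790), (nat_lit 1153889), (nat_lit 2931947), (nat_lit 6943616)])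 (PF.cons PF.nil (PF.cons PF.nil PF.nil)))) (PF.cons (PF.cons (PF.leaf (nat_lit 4507580) (nat_lit 1188510) (nat_lit 53176780) (nat_lit 1588358) [(nat_lit 0), (nat_lit 1188510), (nat_lit 2982594), (nat_lit 6984058)]) (PF.cons PF.nil PF.nil)) PF.nil))) (PF.cons (PF.cons (PF.cons (PF.leaf (nat_lit 4471395) (nat_lit 1584549) (nat_lit 52576650) (nat_lit 1584549) [(nat_lit 0), (nat_lit 0), (nat_lit 2983465), (nat_lit 6980680)]) (PF.cons (PF.leaf (nat_lit 4677750) (nat_lit 293994) (nat_lit 52224782) (nat_lit 1599074) [(nat_lit 293994), (nat_lit 0), (nat_lit 2999793), (nat_lit 6991374)]) (PF.cons PF.nil PF.nil))) (PF.cons (PF.cons (PF.leaf (nat_lit 5109387) (nat_lit 1224488) (nat_lit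
 51164654) (nat_lit 1631419) [(nat_lit 0), (nat_lit 1224488), (nat_lit 3038001), (nat_lit 7012247)]) PF.nil) PF.nil)) (PF.cons PF.nil (PF.cons PF.nil PF.nil))))) (PF.cons (PF.cons (PF.cons (PF.cons (PF.leaf (nat_lit 4138609) (nat_lit 1526199) (nat_lit 51783882) (nat_lit 1526199) [(nat_lit 0), (nat_lit 0), (nat_lit 0), (nat_lit 6899365)]) (PF.cons (PF.leaf (nat_lit 4321290) (nat_lit 269959) (nat_lit 51478576) (nat_lit 1542003) [(nat_lit 269959), (nat_lit 0), (nat_lit 0), (nat_lit 6909137)]) (PF.cons (PF.leaf (nat_lit 4516568) (nat_lit 278801) (nat_lit 51156815) (nat_lit 1557563) [(nat_lit 278801), (nat_lit 0), (nat_lit 0), (nat_lit 6918415)]) (PF.cons (PF.leaf (nat_lit 4721282) (nat_lit 286859) (nat_lit 50821515) (nat_lit 1572722) [(nat_lit 286859), (nat_lit 0), (nat_lit 0), (nat_lit 6926998)]) (PF.cons PF.nil PF.nil))))) (PF.cons (PF.cons (PF.leaf (nat_lit 4728125) (nat_lit 1177357) (nat_lit 50493003) (nat_lit 1578509) [(nat_lit 0), (nat_lit 1177357),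 (nat_lit 0), (nat_lit 6929971)]) (PF.cons (PF.leaf (nat_lit 4929237) (nat_lit 291578) (nat_lit 50162073) (nat_lit 1592181) [(nat_lit 291578), (nat_lit 1190165), (nat_lit 0), (nat_lit 6936407)]) (PF.cons (PF.leaf (nat_lit 5140194)
 (nat_lit 298800) (nat_lit 49819198) (nat_lit 1605452) [(nat_lit 298800), (nat_lit 1202527), (nat_lit 0), (nat_lit 6942016)]) (PF.cons PF.nil PF.nil)))) (PF.cons (PF.cons (PF.leaf (nat_lit 5347268) (nat_lit 1216678) (nat_lit 49162329) (nat_lit 1621792) [(nat_lit 0), (nat_lit 1216678), (nat_lit 0), (nat_lit 6945667)]) (PF.cons PF.nil PF.nil)) (PF.cons PF.nil (PF.cons PF.nil PF.nil))))) (PF.cons (PF.cons (PF.cons (PF.leaf (nat_lit 5291526) (nat_lit 1613829) (nat_lit 48622977) (nat_lit 1613829) [(nat_lit 0), (nat_lit 0), (nat_lit 3013950), (nat_lit 6929027)]) (PF.cons (PF.leaf (nat_lit 5494916) (nat_lit 301339) (nat_lit 48296416) (nat_lit 1625148) [(nat_lit 301339), (nat_lit 0), (nat_lit 3024832), (nat_lit 6930538)]) (PF.cons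 (PF.leaf (nat_lit 5707572) (nat_lit 308052) (nat_lit 47959016) (nat_lit 1636067) [(nat_lit 308052), (nat_lit 0), (nat_lit 3035294), (nat_lit 6931165)]) (PF.cons PF.nil PF.nil)))) (PF.cons (PF.cons (PF.leaf (nat_lit 5908590) (nat_lit 1240088) (nat_lit 47320568) (nat_lit 1648447) [(nat_lit 0), (nat_lit 1240088), (nat_lit 3047836), (nat_lit 6925935)]) (PF.cons PF.nil PF.nil)) (PF.cons PF.nil PF.nil))) (PF.cons (PF.cons (PF.cons (PF.leaf (nat_lit 6452589) (nat_lit
 1666430) (nat_lit 45548336) (nat_lit 1666430) [(nat_lit 0), (nat_lit 0), (nat_lit 3061627), (nat_lit 6885395)]) (PF.cons PF.nil PF.nil)) (PF.cons PF.nil PF.nil)) PF.nil))) (PF.cons (PF.cons (PF.cons (PF.cons (PF.leaf (nat_lit 6034579) (nat_lit 1620148) (nat_lit 45062274) (nat_lit 1620148) [(nat_lit 0), (nat_lit 0), (nat_lit 0), (nat_lit 6808796)]) (PF.cons (PF.leaf (nat_lit 6233654) (nat_lit 304362) (nat_lit 44762913) (nat_lit 1629025) [(nat_lit 304362), (nat_lit 0), (nat_lit 0), (nat_lit 6804170)])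 (PF.cons PF.nil PF.nil))) (PF.cons (PF.cons (PF.leaf (nat_lit 6629124) (nat_lit 1240454) (nat_lit 43874015) (nat_lit 1645625) [(nat_lit 0), (nat_lit 1240454), (nat_lit 0), (nat_lit 6782906)]) PF.nil) PF.nil)) (PF.cons PF.nil PF.nil)) (PF.cons PF.nil (PF.cons PF.nil (PF.cons PF.nil (PF.cons PF.nil PF.nil))))))))

def p13_6_0_0 : pfC (piC [(nat_lit 43428061), (nat_lit 27968816), (nat_lit 20557252), (nat_lit 13862945)] (nat_lit 33242365)) p13_6_0 (nat_lit 4) (nat_lit 0) (nat_lit 1) = true := by decide +kernel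
def p13_6_0_1 : pfC (piC [(nat_lit 43428061), (nat_lit 27968816), (nat_lit 20557252), (nat_lit 13862945)] (nat_lit 33242365)) p13_6_0 (nat_lit 4) (nat_lit 1) (nat_lit 2) = true := by decide +kernel
def p13_6_0_2 : pfC (piC [(nat_lit 43428061), (nat_lit 27968816), (nat_lit 20557252), (nat_lit 13862945)] (nat_lit 33242365)) p13_6_0 (nat_lit 4) (nat_lit 2) (nat_lit 3) = true := by decide +kernel
def p13_6_0_3 : pfC (piC [(nat_lit 43428061), (nat_lit 27968816), (nat_lit 20557252), (nat_lit 13862945)] (nat_lit 33242365)) p13_6_0 (nat_lit 4) (nat_lit 3) (nat_lit 4) = true := by decide +kernel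
def p13_6_0_4 : pfC (piC [(nat_lit 43428061), (nat_lit 27968816), (nat_lit 20557252), (nat_lit 13862945)] (nat_lit 33242365)) p13_6_0 (nat_lit 4) (nat_lit 4) (nat_lit 5) = true := by decide +kernel
def p13_6_0_5 : pfC (piC [(nat_lit 43428061), (nat_lit 27968816), (nat_lit 20557252), (nat_lit 13862945)] (nat_lit 33242365)) p13_6_0 (nat_lit 4) (nat_lit 5) (nat_lit 6) = true := by decide +kernel
def p13_6_0_6 : pfC (piC [(nat_lit 43428061), (nat_lit 27968816), (nat_lit 20557252), (nat_lit 13862945)] (nat_lit 33242365)) p13_6_0 (nat_lit 4) (nat_lit 6) (nat_lit 7) = true := by decide +kernel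
def p13_6_0_7 : pfC (piC [(nat_lit 43428061), (nat_lit 27968816), (nat_lit 20557252), (nat_lit 13862945)] (nat_lit 33242365)) p13_6_0 (nat_lit 4) (nat_lit 7) (nat_lit 8) = true := by decide +kernel
def p13_6_0_8 : pfC (piC [(nat_lit 43428061), (nat_lit 27968816), (nat_lit 20557252), (nat_lit 13862945)] (nat_lit 33242365)) p13_6_0 (nat_lit 4) (nat_lit 8) (nat_lit 9) = true := by decide +kernel
def p13_6_0_9 : pfC (piC [(nat_lit 43428061), (nat_lit 27968816), (nat_lit 20557252), (nat_lit 13862945)] (nat_lit 33242365)) p13_6_0 (nat_lit 4) (nat_lit 9) (nat_lit 10) = true := by decide +kernel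
def p13_6_0_10 : pfC (piC [(nat_lit 43428061), (nat_lit 27968816), (nat_lit 20557252), (nat_lit 13862945)] (nat_lit 33242365)) p13_6_0 (nat_lit 4) (nat_lit 10) (nat_lit 11) = true := by decide +kernel
def p13_6_0_11 : pfC (piC [(nat_lit 43428061), (nat_lit 27968816), (nat_lit 20557252), (nat_lit 13862945)] (nat_lit 33242365)) p13_6_0 (nat_lit 4) (nat_lit 11) (nat_lit 12) = true := by decide +kernel
def p13_6_0_12 : pfC (piC [(nat_lit 43428061), (nat_lit 27968816), (nat_lit 20557252), (nat_lit 13862945)] (nat_lit 33242365)) p13_6_0 (nat_lit 4) (nat_lit 12) (nat_lit 13) = true := by decide +kernel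
def p13_6_0_13 : pfC (piC [(nat_lit 43428061), (nat_lit 27968816), (nat_lit 20557252), (nat_lit 13862945)] (nat_lit 33242365)) p13_6_0 (nat_lit 4) (nat_lit 13) (nat_lit 14) = true := by decide +kernel
def p13_6_0_14 : pfC (piC [(nat_lit 43428061), (nat_lit 27968816), (nat_lit 20557252), (nat_lit 13862945)] (nat_lit 33242365)) p13_6_0 (nat_lit 4) (nat_lit 14) (nat_lit 15) = true := by decide +kernel
def p13_6_0_15 : pfC (piC [(nat_lit 43428061), (nat_lit 27968816), (nat_lit 20557252), (nat_lit 13862945)] (nat_lit 33242365)) p13_6_0 (nat_lit 4) (nat_lit 15) (nat_lit 16) = true := by decide +kernel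
def p13_6_0_16 : pfC (piC [(nat_lit 43428061), (nat_lit 27968816), (nat_lit 20557252), (nat_lit 13862945)] (nat_lit 33242365)) p13_6_0 (nat_lit 4) (nat_lit 16) (nat_lit 17) = true := by decide +kernel
def p13_6_0_17 : pfC (piC [(nat_lit 43428061), (nat_lit 27968816), (nat_lit 20557252), (nat_lit 13862945)] (nat_lit 33242365)) p13_6_0 (nat_lit 4) (nat_lit 17) (nat_lit 18) = true := by decide +kernel
def p13_6_0_18 : pfC (piC [(nat_lit 43428061), (nat_lit 27968816), (nat_lit 20557252), (nat_lit 13862945)] (nat_lit 33242365)) p13_6_0 (nat_lit 4) (nat_lit 18) (nat_lit 19) = true := by decide +kernel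
def p13_6_0_19 : pfC (piC [(nat_lit 43428061), (nat_lit 27968816), (nat_lit 20557252), (nat_lit 13862945)] (nat_lit 33242365)) p13_6_0 (nat_lit 4) (nat_lit 19) (nat_lit 20) = true := by decide +kernel
def p13_6_0_20 : pfC (piC [(nat_lit 43428061), (nat_lit 27968816), (nat_lit 20557252), (nat_lit 13862945)] (nat_lit 33242365)) p13_6_0 (nat_lit 4) (nat_lit 20) (nat_lit 21) = true := by decide +kernel
def p13_6_0_21 : pfC (piC [(nat_lit 43428061), (nat_lit 27968816), (nat_lit 20557252), (nat_lit 13862945)] (nat_lit 33242365)) p13_6_0 (nat_lit 4) (nat_lit 21) (nat_lit 22) = true := by decide +kernel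
def p13_6_0_22 : pfC (piC [(nat_lit 43428061), (nat_lit 27968816), (nat_lit 20557252), (nat_lit 13862945)] (nat_lit 33242365)) p13_6_0 (nat_lit 4) (nat_lit 22) (nat_lit 23) = true := by decide +kernel
def p13_6_0_23 : pfC (piC [(nat_lit 43428061), (nat_lit 27968816), (nat_lit 20557252), (nat_lit 13862945)] (nat_lit 33242365)) p13_6_0 (nat_lit 4) (nat_lit 23) (nat_lit 24) = true := by decide +kernel
def p13_6_0_24 : pfC (piC [(nat_lit 43428061), (nat_lit 27968816), (nat_lit 20557252), (nat_lit 13862945)] (nat_lit 33242365)) p13_6_0 (nat_lit 4) (nat_lit 24) (nat_lit 25) = true := by decide +kernel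
def p13_6_0_25 : pfC (piC [(nat_lit 43428061), (nat_lit 27968816), (nat_lit 20557252), (nat_lit 13862945)] (nat_lit 33242365)) p13_6_0 (nat_lit 4) (nat_lit 25) (nat_lit 26) = true := by decide +kernel
def p13_6_0_26 : pfC (piC [(nat_lit 43428061), (nat_lit 27968816), (nat_lit 20557252), (nat_lit 13862945)] (nat_lit 33242365)) p13_6_0 (nat_lit 4) (nat_lit 26) (nat_lit 27) = true := by decide +kernel
def p13_6_0_27 : pfC (piC [(nat_lit 43428061), (nat_lit 27968816), (nat_lit 20557252), (nat_lit 13862945)] (nat_lit 33242365)) p13_6_0 (nat_lit 4) (nat_lit 27) (nat_lit 28) = true := by decide +kernel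
def p13_6_0_28 : pfC (piC [(nat_lit 43428061), (nat_lit 27968816), (nat_lit 20557252), (nat_lit 13862945)] (nat_lit 33242365)) p13_6_0 (nat_lit 4) (nat_lit 28) (nat_lit 29) = true := by decide +kernel
def p13_6_0_29 : pfC (piC [(nat_lit 43428061), (nat_lit 27968816), (nat_lit 20557252), (nat_lit 13862945)] (nat_lit 33242365)) p13_6_0 (nat_lit 4) (nat_lit 29) (nat_lit 30) = true := by decide +kernel
def p13_6_0_30 : pfC (piC [(nat_lit 43428061), (nat_lit 27968816), (nat_lit 20557252), (nat_lit 13862945)] (nat_lit 33242365)) p13_6_0 (nat_lit 4) (nat_lit 30) (nat_lit 31) = true := by decide +kernel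
def p13_6_0_31 : pfC (piC [(nat_lit 43428061), (nat_lit 27968816), (nat_lit 20557252), (nat_lit 13862945)] (nat_lit 33242365)) p13_6_0 (nat_lit 4) (nat_lit 31) (nat_lit 32) = true := by decide +kernel
def p13_6_0_32 : pfC (piC [(nat_lit 43428061), (nat_lit 27968816), (nat_lit 20557252), (nat_lit 13862945)] (nat_lit 33242365)) p13_6_0 (nat_lit 4) (nat_lit 32) (nat_lit 33) = true := by decide +kernel
def p13_6_0_33 : pfC (piC [(nat_lit 43428061), (nat_lit 27968816), (nat_lit 20557252), (nat_lit 13862945)] (nat_lit 33242365)) p13_6_0 (nat_lit 4) (nat_lit 33) (nat_lit 34) = true := by decide +kernel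
def p13_6_0_34 : pfC (piC [(nat_lit 43428061), (nat_lit 27968816), (nat_lit 20557252), (nat_lit 13862945)] (nat_lit 33242365)) p13_6_0 (nat_lit 4) (nat_lit 34) (nat_lit 35) = true := by decide +kernel
def p13_6_0_35 : pfC (piC [(nat_lit 43428061), (nat_lit 27968816), (nat_lit 20557252), (nat_lit 13862945)] (nat_lit 33242365)) p13_6_0 (nat_lit 4) (nat_lit 35) (nat_lit 36) = true := by decide +kernel
def p13_6_0_36 : pfC (piC [(nat_lit 43428061), (nat_lit 27968816), (nat_lit 20557252), (nat_lit 13862945)] (nat_lit 33242365)) p13_6_0 (nat_lit 4) (nat_lit 36) (nat_lit 37) = true := by decide +kernel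
def p13_6_0_37 : pfC (piC [(nat_lit 43428061), (nat_lit 27968816), (nat_lit 20557252), (nat_lit 13862945)] (nat_lit 33242365)) p13_6_0 (nat_lit 4) (nat_lit 37) (nat_lit 38) = true := by decide +kernel
def p13_6_0_38 : pfC (piC [(nat_lit 43428061), (nat_lit 27968816), (nat_lit 20557252), (nat_lit 13862945)] (nat_lit 33242365)) p13_6_0 (nat_lit 4) (nat_lit 38) (nat_lit 39) = true := by decide +kernel
def p13_6_0_39 : pfC (piC [(nat_lit 43428061), (nat_lit 27968816), (nat_lit 20557252), (nat_lit 13862945)] (nat_lit 33242365)) p13_6_0 (nat_lit 4) (nat_lit 39) (nat_lit 40) = true := by decide +kernel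
def p13_6_0_40 : pfC (piC [(nat_lit 43428061), (nat_lit 27968816), (nat_lit 20557252), (nat_lit 13862945)] (nat_lit 33242365)) p13_6_0 (nat_lit 4) (nat_lit 40) (nat_lit 41) = true := by decide +kernel
def p13_6_0_41 : pfC (piC [(nat_lit 43428061), (nat_lit 27968816), (nat_lit 20557252), (nat_lit 13862945)] (nat_lit 33242365)) p13_6_0 (nat_lit 4) (nat_lit 41) (nat_lit 42) = true := by decide +kernel
def p13_6_0_42 : pfC (piC [(nat_lit 43428061), (nat_lit 27968816), (nat_lit 20557252), (nat_lit 13862945)] (nat_lit 33242365)) p13_6_0 (nat_lit 4) (nat_lit 42) (nat_lit 43) = true := by decide +kernel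
def p13_6_0_43 : pfC (piC [(nat_lit 43428061), (nat_lit 27968816), (nat_lit 20557252), (nat_lit 13862945)] (nat_lit 33242365)) p13_6_0 (nat_lit 4) (nat_lit 43) (nat_lit 44) = true := by decide +kernel
def p13_6_0_44 : pfC (piC [(nat_lit 43428061), (nat_lit 27968816), (nat_lit 20557252), (nat_lit 13862945)] (nat_lit 33242365)) p13_6_0 (nat_lit 4) (nat_lit 44) (nat_lit 45) = true := by decide +kernel
def p13_6_0_45 : pfC (piC [(nat_lit 43428061), (nat_lit 27968816), (nat_lit 20557252), (nat_lit 13862945)] (nat_lit 33242365)) p13_6_0 (nat_lit 4) (nat_lit 45) (nat_lit 46) = true := by decide +kernel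
def p13_6_0_46 : pfC (piC [(nat_lit 43428061), (nat_lit 27968816), (nat_lit 20557252), (nat_lit 13862945)] (nat_lit 33242365)) p13_6_0 (nat_lit 4) (nat_lit 46) (nat_lit 47) = true := by decide +kernel
def p13_6_0_47 : pfC (piC [(nat_lit 43428061), (nat_lit 27968816), (nat_lit 20557252), (nat_lit 13862945)] (nat_lit 33242365)) p13_6_0 (nat_lit 4) (nat_lit 47) (nat_lit 48) = true := by decide +kernel
def p13_6_0_48 : pfC (piC [(nat_lit 43428061), (nat_lit 27968816), (nat_lit 20557252), (nat_lit 13862945)] (nat_lit 33242365)) p13_6_0 (nat_lit 4) (nat_lit 48) (nat_lit 49) = true := by decide +kernel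
def p13_6_0_49 : pfC (piC [(nat_lit 43428061), (nat_lit 27968816), (nat_lit 20557252), (nat_lit 13862945)] (nat_lit 33242365)) p13_6_0 (nat_lit 4) (nat_lit 49) (nat_lit 50) = true := by decide +kernel
def p13_6_0_50 : pfC (piC [(nat_lit 43428061), (nat_lit 27968816), (nat_lit 20557252), (nat_lit 13862945)] (nat_lit 33242365)) p13_6_0 (nat_lit 4) (nat_lit 50) (nat_lit 51) = true := by decide +kernel
def p13_6_0_51 : pfC (piC [(nat_lit 43428061), (nat_lit 27968816), (nat_lit 20557252), (nat_lit 13862945)] (nat_lit 33242365)) p13_6_0 (nat_lit 4) (nat_lit 51) (nat_lit 52) = true := by decide +kernel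
def p13_6_0_52 : pfC (piC [(nat_lit 43428061), (nat_lit 27968816), (nat_lit 20557252), (nat_lit 13862945)] (nat_lit 33242365)) p13_6_0 (nat_lit 4) (nat_lit 52) (nat_lit 53) = true := by decide +kernel
def p13_6_0_53 : pfC (piC [(nat_lit 43428061), (nat_lit 27968816), (nat_lit 20557252), (nat_lit 13862945)] (nat_lit 33242365)) p13_6_0 (nat_lit 4) (nat_lit 53) (nat_lit 54) = true := by decide +kernel
def p13_6_0_54 : pfC (piC [(nat_lit 43428061), (nat_lit 27968816), (nat_lit 20557252), (nat_lit 13862945)] (nat_lit 33242365)) p13_6_0 (nat_lit 4) (nat_lit 54) (nat_lit 55) = true := by decide +kernel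
def p13_6_0_55 : pfC (piC [(nat_lit 43428061), (nat_lit 27968816), (nat_lit 20557252), (nat_lit 13862945)] (nat_lit 33242365)) p13_6_0 (nat_lit 4) (nat_lit 55) (nat_lit 56) = true := by decide +kernel
def p13_6_0_56 : pfC (piC [(nat_lit 43428061), (nat_lit 27968816), (nat_lit 20557252), (nat_lit 13862945)] (nat_lit 33242365)) p13_6_0 (nat_lit 4) (nat_lit 56) (nat_lit 57) = true := by decide +kernel
def p13_6_0_57 : pfC (piC [(nat_lit 43428061), (nat_lit 27968816), (nat_lit 20557252), (nat_lit 13862945)] (nat_lit 33242365)) p13_6_0 (nat_lit 4) (nat_lit 57) (nat_lit 58) = true := by decide +kernel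
def p13_6_0_58 : pfC (piC [(nat_lit 43428061), (nat_lit 27968816), (nat_lit 20557252), (nat_lit 13862945)] (nat_lit 33242365)) p13_6_0 (nat_lit 4) (nat_lit 58) (nat_lit 59) = true := by decide +kernel
def p13_6_0_59 : pfC (piC [(nat_lit 43428061), (nat_lit 27968816), (nat_lit 20557252), (nat_lit 13862945)] (nat_lit 33242365)) p13_6_0 (nat_lit 4) (nat_lit 59) (nat_lit 60) = true := by decide +kernel
def p13_6_0_60 : pfC (piC [(nat_lit 43428061), (nat_lit 27968816), (nat_lit 20557252), (nat_lit 13862945)] (nat_lit 33242365)) p13_6_0 (nat_lit 4) (nat_lit 60) (nat_lit 61) = true := by decide +kernel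
def p13_6_0_61 : pfC (piC [(nat_lit 43428061), (nat_lit 27968816), (nat_lit 20557252), (nat_lit 13862945)] (nat_lit 33242365)) p13_6_0 (nat_lit 4) (nat_lit 61) (nat_lit 62) = true := by decide +kernel
def p13_6_0_62 : pfC (piC [(nat_lit 43428061), (nat_lit 27968816), (nat_lit 20557252), (nat_lit 13862945)] (nat_lit 33242365)) p13_6_0 (nat_lit 4) (nat_lit 62) (nat_lit 63) = true := by decide +kernel
def p13_6_0_63 : pfC (piC [(nat_lit 43428061), (nat_lit 27968816), (nat_lit 20557252), (nat_lit 13862945)] (nat_lit 33242365)) p13_6_0 (nat_lit 4) (nat_lit 63) (nat_lit 64) = true := by decide +kernel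
theorem p13_6_0_T : PfS (PiF n13_6.reverse (nat_lit 33242365)) p13_6_0 (nat_lit 4) [] 0 :=
  pftab_of (los := [(nat_lit 43428061), (nat_lit 27968816), (nat_lit 20557252), (nat_lit 13862945)]) (by decide +kernel) (hi := (nat_lit 64)) (PfP.trans (PfP.trans (PfP.trans (PfP.trans (PfP.trans (PfP.trans (PfP.trans (PfP.trans (PfP.trans (PfP.trans (PfP.trans (PfP.trans (PfP.trans (PfP.trans (PfP.trans (PfP.trans (PfP.trans (PfP.trans (PfP.trans (PfP.trans (PfP.trans (PfP.trans (PfP.trans (PfP.trans (PfP.trans (PfP.trans (PfP.trans (PfP.trans (PfP.trans (PfP.trans (PfP.trans (PfP.trans (PfP.trans (PfP.trans (PfP.trans (PfP.trans (PfP.trans (PfP.trans (PfP.trans (PfP.trans (PfP.trans (PfP.trans (PfP.trans (PfP.trans (PfP.trans (PfP.trans (PfP.trans (PfP.trans (PfP.trans (PfP.trans (PfP.trans (PfP.trans (PfP.trans (PfP.trans (PfP.trans (PfP.trans (PfP.trans (PfP.trans (PfP.trans (PfP.trans (PfP.trans (PfP.trans (PfP.trans (pfC_sound p13_6_0_0) (pfC_sound p13_6_0_1))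 (pfC_sound p13_6_0_2)) (pfC_sound p13_6_0_3)) (pfC_sound p13_6_0_4)) (pfC_sound p13_6_0_5)) (pfC_sound p13_6_0_6)) (pfC_sound p13_6_0_7)) (pfC_sound p13_6_0_8)) (pfC_sound p13_6_0_9)) (pfC_sound p13_6_0_10)) (pfC_sound p13_6_0_11)) (pfC_sound p13_6_0_12)) (pfC_sound p13_6_0_13)) (pfC_sound p13_6_0_14)) (pfC_sound p13_6_0_15)) (pfC_sound p13_6_0_16)) (pfC_sound p13_6_0_17)) (pfC_sound p13_6_0_18)) (pfC_sound p13_6_0_19)) (pfC_sound p13_6_0_20)) (pfC_sound
 p13_6_0_21)) (pfC_sound p13_6_0_22)) (pfC_sound p13_6_0_23)) (pfC_sound p13_6_0_24)) (pfC_sound p13_6_0_25)) (pfC_sound p13_6_0_26)) (pfC_sound p13_6_0_27)) (pfC_sound p13_6_0_28)) (pfC_sound p13_6_0_29)) (pfC_sound p13_6_0_30)) (pfC_sound p13_6_0_31)) (pfC_sound p13_6_0_32)) (pfC_sound p13_6_0_33)) (pfC_sound p13_6_0_34)) (pfC_sound p13_6_0_35)) (pfC_sound p13_6_0_36)) (pfC_sound p13_6_0_37)) (pfC_sound p13_6_0_38)) (pfC_sound p13_6_0_39)) (pfC_sound p13_6_0_40)) (pfC_sound p13_6_0_41)) (pfC_sound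 p13_6_0_42)) (pfC_sound p13_6_0_43)) (pfC_sound p13_6_0_44)) (pfC_sound p13_6_0_45)) (pfC_sound p13_6_0_46)) (pfC_sound p13_6_0_47)) (pfC_sound p13_6_0_48)) (pfC_sound p13_6_0_49)) (pfC_sound p13_6_0_50)) (pfC_sound p13_6_0_51)) (pfC_sound p13_6_0_52)) (pfC_sound p13_6_0_53)) (pfC_sound p13_6_0_54)) (pfC_sound p13_6_0_55)) (pfC_sound p13_6_0_56)) (pfC_sound p13_6_0_57)) (pfC_sound p13_6_0_58)) (pfC_sound p13_6_0_59)) (pfC_sound p13_6_0_60)) (pfC_sound p13_6_0_61)) (pfC_sound p13_6_0_62)) (pfC_sound p13_6_0_63)) (by decide +kernel)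

def z13_6_0 : zOK yB13_6 (nat_lit 0) (nat_lit 0) (nat_lit 400) (nat_lit 33242365) (nat_lit 10729447) = true := by decide +kernel
def g13_6_0 : gOK yB13_6.x P13_6 (nat_lit 1425) (q13_6 :: r13_6) (nat_lit 0) (nat_lit 0) (nat_lit 1) (nat_lit 400) (nat_lit 0) (nat_lit 11000000) (nat_lit 12712500) (nat_lit 12712500) [(nat_lit 800), (nat_lit 1400), (nat_lit 1580)] = true := by decide +kernel
def v13_6_0 : ivC P13_6 s13_6 w13_6 n13_6 (nat_lit 4) (nat_lit 5540) (nat_lit 0) (nat_lit 0) f128_1_0 f136_1_0 (nat_lit 1) (nat_lit 400) f128_1_400 f136_1_400 (nat_lit 33242365) (nat_lit 10729447) p13_6_0 = true := by decide +kernel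
def p13_6_1 : PF := (PF.cons (PF.cons (PF.cons (PF.cons (PF.leaf (nat_lit 2080992) (nat_lit 9816567) (nat_lit 57292245) (nat_lit 9816567) [(nat_lit 0), (nat_lit 0), (nat_lit 0), (nat_lit 0)]) (PF.cons (PF.leaf (nat_lit 2185451) (nat_lit 167776) (nat_lit 57109966) (nat_lit 9831069) [(nat_lit 167776), (nat_lit 0), (nat_lit 0), (nat_lit 0)]) (PF.cons (PF.leaf (nat_lit 2313070) (nat_lit 182829) (nat_lit 56895827) (nat_lit 9847325) [(nat_lit 182829), (nat_lit 0), (nat_lit 0), (nat_lit 0)]) (PF.cons (PF.leaf (nat_lit 2456592) (nat_lit 196344) (nat_lit 56655155) (nat_lit 9864623) [(nat_lit 196344), (nat_lit 0), (nat_lit 0), (nat_lit 0)]) (PF.cons PF.nil PF.nil))))) (PF.cons (PF.cons (PF.leaf (nat_lit 2522826) (nat_lit 940229) (nat_lit 56283129) (nat_lit 9885453) [(nat_lit 0), (nat_lit 940229), (nat_lit 0), (nat_lit 0)]) (PF.cons (PF.leaf (nat_lit 2663855) (nat_lit 207247) (nat_lit 56038775) (nat_lit 9900433) [(nat_lit 207247), (nat_lit 962356), (nat_lit 0),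 (nat_lit 0)]) (PF.cons (PF.leaf (nat_lit 2822193) (nat_lit 219089) (nat_lit 55770273) (nat_lit 9915795) [(nat_lit 219089), (nat_lit 984563), (nat_lit 0), (nat_lit 0)]) (PF.cons PF.nil PF.nil)))) (PF.cons (PF.cons (PF.leaf (nat_lit 3036386) (nat_lit
 1018637) (nat_lit 55127494) (nat_lit 9944044) [(nat_lit 0), (nat_lit 1018637), (nat_lit 0), (nat_lit 0)]) (PF.cons (PF.leaf (nat_lit 3205662) (nat_lit 238692) (nat_lit 54836952) (nat_lit 9956600) [(nat_lit 238692), (nat_lit 1038283), (nat_lit 0), (nat_lit 0)]) PF.nil)) (PF.cons PF.nil (PF.cons PF.nil PF.nil))))) (PF.cons (PF.cons (PF.cons (PF.leaf (nat_lit 3071690) (nat_lit 2743563) (nat_lit 54417179) (nat_lit 9948069) [(nat_lit 0), (nat_lit 0), (nat_lit 2743563), (nat_lit 0)]) (PF.cons (PF.leaf (nat_lit 3222728) (nat_lit 227181) (nat_lit 54159172) (nat_lit 9957027) [(nat_lit 227181), (nat_lit 0), (nat_lit 2765431), (nat_lit 0)]) (PF.cons (PF.leaf (nat_lit 3390615) (nat_lit 238582) (nat_lit 53877832) (nat_lit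 9965768) [(nat_lit 238582), (nat_lit 0), (nat_lit 2788047), (nat_lit 0)]) (PF.cons PF.nil PF.nil)))) (PF.cons (PF.cons (PF.leaf (nat_lit 3605827) (nat_lit 1079576) (nat_lit 53222453) (nat_lit 9978184) [(nat_lit 0), (nat_lit 1079576), (nat_lit 2828598), (nat_lit 0)]) (PF.cons PF.nil PF.nil)) (PF.cons PF.nil PF.nil))) (PF.cons (PF.cons (PF.cons (PF.leaf (nat_lit 4171969) (nat_lit 2903843) (nat_lit 51330200) (nat_lit 9970925) [(nat_lit 0), (nat_lit 0), (nat_lit 2903843),
 (nat_lit 0)]) (PF.cons PF.nil PF.nil)) (PF.cons PF.nil PF.nil)) (PF.cons PF.nil (PF.cons PF.nil PF.nil))))) (PF.cons (PF.cons (PF.cons (PF.cons (PF.leaf (nat_lit 3890883) (nat_lit 6782217) (nat_lit 50457862) (nat_lit 9868733) [(nat_lit 0), (nat_lit 0), (nat_lit 0), (nat_lit 6782217)]) (PF.cons (PF.leaf (nat_lit 4045037) (nat_lit 240034) (nat_lit 50210136) (nat_lit 9867861) [(nat_lit 240034), (nat_lit 0), (nat_lit 0), (nat_lit 6790781)]) (PF.cons (PF.leaf (nat_lit 4215179) (nat_lit 251202)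 (nat_lit 49941001) (nat_lit 9866124) [(nat_lit 251202), (nat_lit 0), (nat_lit 0), (nat_lit 6799282)]) (PF.cons (PF.leaf (nat_lit 4397193) (nat_lit 261161) (nat_lit 49654491) (nat_lit 9863392) [(nat_lit 261161), (nat_lit 0), (nat_lit 0), (nat_lit 6807445)]) (PF.cons PF.nil PF.nil))))) (PF.cons (PF.cons (PF.leaf (nat_lit 4422670) (nat_lit 1119610) (nat_lit 49322347) (nat_lit 9855513) [(nat_lit 0), (nat_lit 1119610), (nat_lit 0), (nat_lit 6811342)]) (PF.cons (PF.leaf (nat_lit 4600564) (nat_lit 266823) (nat_lit 49039348) (nat_lit 9850940) [(nat_lit 266823), (nat_lit 1134111), (nat_lit 0), (nat_lit 6817588)]) (PF.cons PF.nil (PF.cons PF.nil PF.nil)))) (PF.cons (PF.cons (PF.leaf (nat_lit 4994320)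
 (nat_lit 1165012) (nat_lit 48123759) (nat_lit 9826970) [(nat_lit 0), (nat_lit 1165012), (nat_lit 0), (nat_lit 6828058)]) (PF.cons PF.nil PF.nil)) PF.nil))) (PF.cons (PF.cons (PF.cons (PF.leaf (nat_lit 4960470) (nat_lit 2936140) (nat_lit 47568616) (nat_lit 9792212) [(nat_lit 0), (nat_lit 0), (nat_lit 2936140), (nat_lit 6811842)]) (PF.cons (PF.leaf (nat_lit 5142071) (nat_lit 277848) (nat_lit 47286460) (nat_lit 9782994) [(nat_lit 277848), (nat_lit 0), (nat_lit 2947677), (nat_lit 6813832)]) (PF.cons PF.nil PF.nil))) (PF.cons (PF.cons (PF.leaf (nat_lit 5534449) (nat_lit 1192004) (nat_lit 46386329) (nat_lit 9745191) [(nat_lit 0), (nat_lit 1192004), (nat_lit 2973873), (nat_lit 6811413)]) PF.nil) PF.nil)) (PF.cons PF.nil PF.nil))) (PF.cons (PF.cons (PF.cons (PF.cons (PF.leaf (nat_lit 5682711) (nat_lit 6695903) (nat_lit 44171407) (nat_lit 9545597) [(nat_lit 0), (nat_lit 0), (nat_lit 0), (nat_lit 6695903)]) (PF.cons (PF.leaf (nat_lit 5861728) (nat_lit 281566)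 (nat_lit 43911263) (nat_lit 9530814) [(nat_lit 281566), (nat_lit 0), (nat_lit 0), (nat_lit 6692584)]) (PF.cons PF.nil PF.nil))) (PF.cons (PF.cons (PF.leaf (nat_lit 6239607) (nat_lit 1195112) (nat_lit 43087228) (nat_lit 9477037)
 [(nat_lit 0), (nat_lit 1195112), (nat_lit 0), (nat_lit 6674716)]) PF.nil) PF.nil)) (PF.cons PF.nil PF.nil)) (PF.cons PF.nil (PF.cons PF.nil (PF.cons PF.nil PF.nil))))))

def p13_6_1_0 : pfC (piC [(nat_lit 43428061), (nat_lit 27968816), (nat_lit 20557252), (nat_lit 13862945)] (nat_lit 10729447)) p13_6_1 (nat_lit 4) (nat_lit 0) (nat_lit 1) = true := by decide +kernel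
def p13_6_1_1 : pfC (piC [(nat_lit 43428061), (nat_lit 27968816), (nat_lit 20557252), (nat_lit 13862945)] (nat_lit 10729447)) p13_6_1 (nat_lit 4) (nat_lit 1) (nat_lit 2) = true := by decide +kernel
def p13_6_1_2 : pfC (piC [(nat_lit 43428061), (nat_lit 27968816), (nat_lit 20557252), (nat_lit 13862945)] (nat_lit 10729447)) p13_6_1 (nat_lit 4) (nat_lit 2) (nat_lit 3) = true := by decide +kernel
def p13_6_1_3 : pfC (piC [(nat_lit 43428061), (nat_lit 27968816), (nat_lit 20557252), (nat_lit 13862945)] (nat_lit 10729447)) p13_6_1 (nat_lit 4) (nat_lit 3) (nat_lit 4) = true := by decide +kernel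
def p13_6_1_4 : pfC (piC [(nat_lit 43428061), (nat_lit 27968816), (nat_lit 20557252), (nat_lit 13862945)] (nat_lit 10729447)) p13_6_1 (nat_lit 4) (nat_lit 4) (nat_lit 5) = true := by decide +kernel
def p13_6_1_5 : pfC (piC [(nat_lit 43428061), (nat_lit 27968816), (nat_lit 20557252), (nat_lit 13862945)] (nat_lit 10729447)) p13_6_1 (nat_lit 4) (nat_lit 5) (nat_lit 6) = true := by decide +kernel
def p13_6_1_6 : pfC (piC [(nat_lit 43428061), (nat_lit 27968816), (nat_lit 20557252), (nat_lit 13862945)] (nat_lit 10729447)) p13_6_1 (nat_lit 4) (nat_lit 6) (nat_lit 7) = true := by decide +kernel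
def p13_6_1_7 : pfC (piC [(nat_lit 43428061), (nat_lit 27968816), (nat_lit 20557252), (nat_lit 13862945)] (nat_lit 10729447)) p13_6_1 (nat_lit 4) (nat_lit 7) (nat_lit 8) = true := by decide +kernel
def p13_6_1_8 : pfC (piC [(nat_lit 43428061), (nat_lit 27968816), (nat_lit 20557252), (nat_lit 13862945)] (nat_lit 10729447)) p13_6_1 (nat_lit 4) (nat_lit 8) (nat_lit 9) = true := by decide +kernel
def p13_6_1_9 : pfC (piC [(nat_lit 43428061), (nat_lit 27968816), (nat_lit 20557252), (nat_lit 13862945)] (nat_lit 10729447)) p13_6_1 (nat_lit 4) (nat_lit 9) (nat_lit 10) = true := by decide +kernel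
def p13_6_1_10 : pfC (piC [(nat_lit 43428061), (nat_lit 27968816), (nat_lit 20557252), (nat_lit 13862945)] (nat_lit 10729447)) p13_6_1 (nat_lit 4) (nat_lit 10) (nat_lit 11) = true := by decide +kernel
def p13_6_1_11 : pfC (piC [(nat_lit 43428061), (nat_lit 27968816), (nat_lit 20557252), (nat_lit 13862945)] (nat_lit 10729447)) p13_6_1 (nat_lit 4) (nat_lit 11) (nat_lit 12) = true := by decide +kernel
def p13_6_1_12 : pfC (piC [(nat_lit 43428061), (nat_lit 27968816), (nat_lit 20557252), (nat_lit 13862945)] (nat_lit 10729447)) p13_6_1 (nat_lit 4) (nat_lit 12) (nat_lit 13) = true := by decide +kernel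
def p13_6_1_13 : pfC (piC [(nat_lit 43428061), (nat_lit 27968816), (nat_lit 20557252), (nat_lit 13862945)] (nat_lit 10729447)) p13_6_1 (nat_lit 4) (nat_lit 13) (nat_lit 14) = true := by decide +kernel
def p13_6_1_14 : pfC (piC [(nat_lit 43428061), (nat_lit 27968816), (nat_lit 20557252), (nat_lit 13862945)] (nat_lit 10729447)) p13_6_1 (nat_lit 4) (nat_lit 14) (nat_lit 15) = true := by decide +kernel
def p13_6_1_15 : pfC (piC [(nat_lit 43428061), (nat_lit 27968816), (nat_lit 20557252), (nat_lit 13862945)] (nat_lit 10729447)) p13_6_1 (nat_lit 4) (nat_lit 15) (nat_lit 16) = true := by decide +kernel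
def p13_6_1_16 : pfC (piC [(nat_lit 43428061), (nat_lit 27968816), (nat_lit 20557252), (nat_lit 13862945)] (nat_lit 10729447)) p13_6_1 (nat_lit 4) (nat_lit 16) (nat_lit 17) = true := by decide +kernel
def p13_6_1_17 : pfC (piC [(nat_lit 43428061), (nat_lit 27968816), (nat_lit 20557252), (nat_lit 13862945)] (nat_lit 10729447)) p13_6_1 (nat_lit 4) (nat_lit 17) (nat_lit 18) = true := by decide +kernel
def p13_6_1_18 : pfC (piC [(nat_lit 43428061), (nat_lit 27968816), (nat_lit 20557252), (nat_lit 13862945)] (nat_lit 10729447)) p13_6_1 (nat_lit 4) (nat_lit 18) (nat_lit 19) = true := by decide +kernel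
def p13_6_1_19 : pfC (piC [(nat_lit 43428061), (nat_lit 27968816), (nat_lit 20557252), (nat_lit 13862945)] (nat_lit 10729447)) p13_6_1 (nat_lit 4) (nat_lit 19) (nat_lit 20) = true := by decide +kernel
def p13_6_1_20 : pfC (piC [(nat_lit 43428061), (nat_lit 27968816), (nat_lit 20557252), (nat_lit 13862945)] (nat_lit 10729447)) p13_6_1 (nat_lit 4) (nat_lit 20) (nat_lit 21) = true := by decide +kernel
def p13_6_1_21 : pfC (piC [(nat_lit 43428061), (nat_lit 27968816), (nat_lit 20557252), (nat_lit 13862945)] (nat_lit 10729447)) p13_6_1 (nat_lit 4) (nat_lit 21) (nat_lit 22) = true := by decide +kernel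
def p13_6_1_22 : pfC (piC [(nat_lit 43428061), (nat_lit 27968816), (nat_lit 20557252), (nat_lit 13862945)] (nat_lit 10729447)) p13_6_1 (nat_lit 4) (nat_lit 22) (nat_lit 23) = true := by decide +kernel
def p13_6_1_23 : pfC (piC [(nat_lit 43428061), (nat_lit 27968816), (nat_lit 20557252), (nat_lit 13862945)] (nat_lit 10729447)) p13_6_1 (nat_lit 4) (nat_lit 23) (nat_lit 24) = true := by decide +kernel
def p13_6_1_24 : pfC (piC [(nat_lit 43428061), (nat_lit 27968816), (nat_lit 20557252), (nat_lit 13862945)] (nat_lit 10729447)) p13_6_1 (nat_lit 4) (nat_lit 24) (nat_lit 25) = true := by decide +kernel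
def p13_6_1_25 : pfC (piC [(nat_lit 43428061), (nat_lit 27968816), (nat_lit 20557252), (nat_lit 13862945)] (nat_lit 10729447)) p13_6_1 (nat_lit 4) (nat_lit 25) (nat_lit 26) = true := by decide +kernel
def p13_6_1_26 : pfC (piC [(nat_lit 43428061), (nat_lit 27968816), (nat_lit 20557252), (nat_lit 13862945)] (nat_lit 10729447)) p13_6_1 (nat_lit 4) (nat_lit 26) (nat_lit 27) = true := by decide +kernel
theorem p13_6_1_T : PfS (PiF n13_6.reverse (nat_lit 10729447)) p13_6_1 (nat_lit 4) [] 0 :=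
  pftab_of (los := [(nat_lit 43428061), (nat_lit 27968816), (nat_lit 20557252), (nat_lit 13862945)]) (by decide +kernel) (hi := (nat_lit 27)) (PfP.trans (PfP.trans (PfP.trans (PfP.trans (PfP.trans (PfP.trans (PfP.trans (PfP.trans (PfP.trans (PfP.trans (PfP.trans (PfP.trans (PfP.trans (PfP.trans (PfP.trans (PfP.trans (PfP.trans (PfP.trans (PfP.trans (PfP.trans (PfP.trans (PfP.trans (PfP.trans (PfP.trans (PfP.trans (PfP.trans (pfC_sound p13_6_1_0) (pfC_sound p13_6_1_1)) (pfC_sound p13_6_1_2)) (pfC_sound p13_6_1_3)) (pfC_sound p13_6_1_4)) (pfC_sound p13_6_1_5)) (pfC_sound p13_6_1_6)) (pfC_sound p13_6_1_7)) (pfC_sound p13_6_1_8)) (pfC_sound p13_6_1_9)) (pfC_sound p13_6_1_10)) (pfC_sound p13_6_1_11)) (pfC_sound p13_6_1_12)) (pfC_sound p13_6_1_13)) (pfC_sound p13_6_1_14)) (pfC_sound p13_6_1_15)) (pfC_sound p13_6_1_16)) (pfC_sound p13_6_1_17)) (pfC_sound p13_6_1_18)) (pfC_sound p13_6_1_19)) (pfC_sound p13_6_1_20)) (pfC_sound p13_6_1_21)) (pfC_sound p13_6_1_22))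 (pfC_sound p13_6_1_23)) (pfC_sound p13_6_1_24)) (pfC_sound p13_6_1_25)) (pfC_sound p13_6_1_26)) (by decide +kernel)

def z13_6_1 : zOK yB13_6 (nat_lit 1) (nat_lit 400) (nat_lit 600) (nat_lit 10729447) (nat_lit 6911493) = true := by decide +kernel
def g13_6_1 : gOK yB13_6.x P13_6 (nat_lit 1425) (q13_6 :: r13_6) (nat_lit 1) (nat_lit 400) (nat_lit 2) (nat_lit 600) (nat_lit 11000000) (nat_lit 17850000) (nat_lit 12712500) (nat_lit 12712500) [(nat_lit 800), (nat_lit 1040)] = true := by decide +kernel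
def v13_6_1 : ivC P13_6 s13_6 w13_6 n13_6 (nat_lit 4) (nat_lit 5140) (nat_lit 1) (nat_lit 400) f128_1_400 f136_1_400 (nat_lit 2) (nat_lit 600) f128_1_600 f136_1_600 (nat_lit 10729447) (nat_lit 6911493) p13_6_1 = true := by decide +kernel
def p13_6_2 : PF := (PF.cons (PF.cons (PF.cons (PF.cons (PF.leaf (nat_lit 2729427) (nat_lit 15806891) (nat_lit 51301921) (nat_lit 15806891) [(nat_lit 0), (nat_lit 0), (nat_lit 0), (nat_lit 0)]) (PF.cons (PF.leaf (nat_lit 2831801) (nat_lit 168895) (nat_lit 51143305) (nat_lit 15796611) [(nat_lit 168895), (nat_lit 0), (nat_lit 0), (nat_lit 0)]) (PF.cons (PF.leaf (nat_lit 2956714) (nat_lit 183771) (nat_lit 50957201) (nat_lit 15784068) [(nat_lit 183771), (nat_lit 0), (nat_lit 0), (nat_lit 0)]) (PF.cons (PF.leaf (nat_lit 3097079) (nat_lit 197033) (nat_lit 50748327) (nat_lit 15769384) [(nat_lit 197033), (nat_lit 0), (nat_lit 0), (nat_lit 0)]) (PF.cons (PF.leaf (nat_lit 3250726) (nat_lit 209056) (nat_lit 50519974) (nat_lit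 15752612) [(nat_lit 209056), (nat_lit 0), (nat_lit 0), (nat_lit 0)]) (PF.cons PF.nil (PF.cons PF.nil PF.nil))))))) (PF.cons (PF.cons (PF.leaf (nat_lit 3156315) (nat_lit 938562) (nat_lit 50427138) (nat_lit 15743111) [(nat_lit 0), (nat_lit 938562), (nat_lit 0), (nat_lit 0)]) (PF.cons (PF.leaf (nat_lit 3293364) (nat_lit 207141) (nat_lit 50215814) (nat_lit 15726607) [(nat_lit 207141), (nat_lit 959249), (nat_lit 0), (nat_lit 0)]) (PF.cons (PF.leaf (nat_lit 3446994) (nat_lit 218626) (nat_lit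
 49983913) (nat_lit 15707788) [(nat_lit 218626), (nat_lit 979856), (nat_lit 0), (nat_lit 0)]) (PF.cons (PF.leaf (nat_lit 3612934) (nat_lit 229110) (nat_lit 49734688) (nat_lit 15686749) [(nat_lit 229110), (nat_lit 1000044), (nat_lit 0), (nat_lit 0)]) (PF.cons PF.nil PF.nil))))) (PF.cons (PF.cons (PF.leaf (nat_lit 3648747) (nat_lit 1010149) (nat_lit 49431096) (nat_lit 15657416) [(nat_lit 0), (nat_lit 1010149), (nat_lit 0), (nat_lit 0)]) (PF.cons (PF.leaf (nat_lit 3811906) (nat_lit 236946) (nat_lit 49181240) (nat_lit 15634451) [(nat_lit 236946), (nat_lit 1028087), (nat_lit 0), (nat_lit 0)]) (PF.cons PF.nil (PF.cons PF.nil PF.nil)))) (PF.cons (PF.cons (PF.leaf (nat_lit 4189999) (nat_lit 1069277) (nat_lit 48351211) (nat_lit 15549767) [(nat_lit 0), (nat_lit 1069277), (nat_lit 0), (nat_lit 0)]) (PF.cons PF.nil PF.nil)) (PF.cons PF.nil PF.nil))))) (PF.cons (PF.cons (PF.cons (PF.leaf (nat_lit 3669816) (nat_lit 2696416) (nat_lit 48827680) (nat_lit 15584716)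 [(nat_lit 0), (nat_lit 0), (nat_lit 2696416), (nat_lit 0)]) (PF.cons (PF.leaf (nat_lit 3815392) (nat_lit 224835) (nat_lit 48606317) (nat_lit 15562805) [(nat_lit 224835), (nat_lit 0), (nat_lit 2714854), (nat_lit 0)]) (PF.cons (PF.leaf
 (nat_lit 3976912) (nat_lit 235801) (nat_lit 48365177) (nat_lit 15538235) [(nat_lit 235801), (nat_lit 0), (nat_lit 2733797), (nat_lit 0)]) (PF.cons (PF.leaf (nat_lit 4150180) (nat_lit 245666) (nat_lit 48107778) (nat_lit 15511209) [(nat_lit 245666), (nat_lit 0), (nat_lit 2752824), (nat_lit 0)]) (PF.cons PF.nil PF.nil))))) (PF.cons (PF.cons (PF.leaf (nat_lit 4178429) (nat_lit 1061290) (nat_lit 47805404) (nat_lit 15475858) [(nat_lit 0), (nat_lit 1061290), (nat_lit 2766259), (nat_lit 0)]) (PF.cons (PF.leaf (nat_lit 4348064) (nat_lit 251904) (nat_lit 47549913) (nat_lit 15447272) [(nat_lit 251904), (nat_lit 1076613), (nat_lit 2783109), (nat_lit 0)]) (PF.cons PF.nil (PF.cons PF.nil PF.nil)))) (PF.cons (PF.cons (PF.leaf (nat_lit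 4729233) (nat_lit 1110385) (nat_lit 46716793) (nat_lit 15346105) [(nat_lit 0), (nat_lit 1110385), (nat_lit 2825144), (nat_lit 0)]) (PF.cons PF.nil PF.nil)) PF.nil))) (PF.cons (PF.cons (PF.cons (PF.leaf (nat_lit 4703267) (nat_lit 2821809) (nat_lit 46198688) (nat_lit 15266506) [(nat_lit 0), (nat_lit 0), (nat_lit 2821809), (nat_lit 0)]) (PF.cons (PF.leaf (nat_lit 4877590) (nat_lit 264091) (nat_lit 45941485) (nat_lit 15233062) [(nat_lit 264091), (nat_lit 0), (nat_lit
 2835086), (nat_lit 0)]) PF.nil)) (PF.cons PF.nil PF.nil)) (PF.cons PF.nil (PF.cons PF.nil PF.nil))))) (PF.cons (PF.cons (PF.cons (PF.cons (PF.leaf (nat_lit 4413888) (nat_lit 6519422) (nat_lit 45484274) (nat_lit 15105115) [(nat_lit 0), (nat_lit 0), (nat_lit 0), (nat_lit 6519422)]) (PF.cons (PF.leaf (nat_lit 4561397) (nat_lit 234543) (nat_lit 45273222) (nat_lit 15077059) [(nat_lit 234543), (nat_lit 0), (nat_lit 0), (nat_lit 6523987)]) (PF.cons (PF.leaf (nat_lit 4724245) (nat_lit 245234) (nat_lit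 45044039) (nat_lit 15046020) [(nat_lit 245234), (nat_lit 0), (nat_lit 0), (nat_lit 6528283)]) (PF.cons (PF.leaf (nat_lit 4898371) (nat_lit 254721) (nat_lit 44800174) (nat_lit 15012348) [(nat_lit 254721), (nat_lit 0), (nat_lit 0), (nat_lit 6532126)]) (PF.cons PF.nil PF.nil))))) (PF.cons (PF.cons (PF.leaf (nat_lit 4918435) (nat_lit 1088536) (nat_lit 44518499) (nat_lit 14970262) [(nat_lit 0), (nat_lit 1088536), (nat_lit 0), (nat_lit 6531513)]) (PF.cons (PF.leaf (nat_lit 5088116) (nat_lit 259755) (nat_lit 44277836) (nat_lit 14935636) [(nat_lit 259755), (nat_lit 1101746), (nat_lit 0), (nat_lit 6533838)]) (PF.cons (PF.leaf (nat_lit 5269452) (nat_lit 268050) (nat_lit 44024182) (nat_lit 14898464)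
 [(nat_lit 268050), (nat_lit 1114495), (nat_lit 0), (nat_lit 6535569)]) (PF.cons PF.nil PF.nil)))) (PF.cons (PF.cons (PF.leaf (nat_lit 5459271) (nat_lit 1129006) (nat_lit 43500620) (nat_lit 14817205) [(nat_lit 0), (nat_lit 1129006), (nat_lit 0), (nat_lit 6532974)]) (PF.cons PF.nil PF.nil)) (PF.cons PF.nil (PF.cons PF.nil PF.nil))))) (PF.cons (PF.cons (PF.cons (PF.leaf (nat_lit 5418244) (nat_lit 2830733) (nat_lit 43033750) (nat_lit 14731919) [(nat_lit 0), (nat_lit 0), (nat_lit 2830733), (nat_lit 6512409)]) (PF.cons (PF.leaf (nat_lit 5591064) (nat_lit 269311) (nat_lit 42794106) (nat_lit 14693822) [(nat_lit 269311), (nat_lit 0), (nat_lit 2840175), (nat_lit 6511396)]) (PF.cons PF.nil (PF.cons PF.nil PF.nil)))) (PF.cons (PF.cons (PF.leaf (nat_lit 5960563) (nat_lit 1150869) (nat_lit 42030612) (nat_lit 14566253) [(nat_lit 0), (nat_lit 1150869), (nat_lit 2860434), (nat_lit 6500642)]) (PF.cons PF.nil PF.nil)) (PF.cons PF.nil PF.nil))) (PF.cons (PF.cons (PF.cons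 (PF.leaf (nat_lit 6449784) (nat_lit 2870289) (nat_lit 40610046) (nat_lit 14304443) [(nat_lit 0), (nat_lit 0), (nat_lit 2870289), (nat_lit 6453743)]) (PF.cons PF.nil PF.nil)) (PF.cons PF.nil PF.nil)) PF.nil))) (PF.cons (PF.cons
 (PF.cons (PF.cons (PF.leaf (nat_lit 6078656) (nat_lit 6380360) (nat_lit 40171255) (nat_lit 14176836) [(nat_lit 0), (nat_lit 0), (nat_lit 0), (nat_lit 6380360)]) (PF.cons (PF.leaf (nat_lit 6248991) (nat_lit 271562) (nat_lit 39949861) (nat_lit 14136321) [(nat_lit 271562), (nat_lit 0), (nat_lit 0), (nat_lit 6375533)]) (PF.cons PF.nil PF.nil))) (PF.cons (PF.cons (PF.leaf (nat_lit 6605749) (nat_lit 1149150) (nat_lit 39249080) (nat_lit 14002874) [(nat_lit 0), (nat_lit 1149150), (nat_lit 0), (nat_lit 6353854)]) PF.nil) PF.nil)) (PF.cons PF.nil PF.nil)) (PF.cons PF.nil (PF.cons PF.nil (PF.cons PF.nil PF.nil))))))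

def p13_6_2_0 : pfC (piC [(nat_lit 43428061), (nat_lit 27968816), (nat_lit 20557252), (nat_lit 13862945)] (nat_lit 6911493)) p13_6_2 (nat_lit 4) (nat_lit 0) (nat_lit 1) = true := by decide +kernel
def p13_6_2_1 : pfC (piC [(nat_lit 43428061), (nat_lit 27968816), (nat_lit 20557252), (nat_lit 13862945)] (nat_lit 6911493)) p13_6_2 (nat_lit 4) (nat_lit 1) (nat_lit 2) = true := by decide +kernel
def p13_6_2_2 : pfC (piC [(nat_lit 43428061), (nat_lit 27968816), (nat_lit 20557252), (nat_lit 13862945)] (nat_lit 6911493)) p13_6_2 (nat_lit 4) (nat_lit 2) (nat_lit 3) = true := by decide +kernel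
def p13_6_2_3 : pfC (piC [(nat_lit 43428061), (nat_lit 27968816), (nat_lit 20557252), (nat_lit 13862945)] (nat_lit 6911493)) p13_6_2 (nat_lit 4) (nat_lit 3) (nat_lit 4) = true := by decide +kernel
def p13_6_2_4 : pfC (piC [(nat_lit 43428061), (nat_lit 27968816), (nat_lit 20557252), (nat_lit 13862945)] (nat_lit 6911493)) p13_6_2 (nat_lit 4) (nat_lit 4) (nat_lit 5) = true := by decide +kernel
def p13_6_2_5 : pfC (piC [(nat_lit 43428061), (nat_lit 27968816), (nat_lit 20557252), (nat_lit 13862945)] (nat_lit 6911493)) p13_6_2 (nat_lit 4) (nat_lit 5) (nat_lit 6) = true := by decide +kernel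
def p13_6_2_6 : pfC (piC [(nat_lit 43428061), (nat_lit 27968816), (nat_lit 20557252), (nat_lit 13862945)] (nat_lit 6911493)) p13_6_2 (nat_lit 4) (nat_lit 6) (nat_lit 7) = true := by decide +kernel
def p13_6_2_7 : pfC (piC [(nat_lit 43428061), (nat_lit 27968816), (nat_lit 20557252), (nat_lit 13862945)] (nat_lit 6911493)) p13_6_2 (nat_lit 4) (nat_lit 7) (nat_lit 8) = true := by decide +kernel
def p13_6_2_8 : pfC (piC [(nat_lit 43428061), (nat_lit 27968816), (nat_lit 20557252), (nat_lit 13862945)] (nat_lit 6911493)) p13_6_2 (nat_lit 4) (nat_lit 8) (nat_lit 9) = true := by decide +kernel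
def p13_6_2_9 : pfC (piC [(nat_lit 43428061), (nat_lit 27968816), (nat_lit 20557252), (nat_lit 13862945)] (nat_lit 6911493)) p13_6_2 (nat_lit 4) (nat_lit 9) (nat_lit 10) = true := by decide +kernel
def p13_6_2_10 : pfC (piC [(nat_lit 43428061), (nat_lit 27968816), (nat_lit 20557252), (nat_lit 13862945)] (nat_lit 6911493)) p13_6_2 (nat_lit 4) (nat_lit 10) (nat_lit 11) = true := by decide +kernel
def p13_6_2_11 : pfC (piC [(nat_lit 43428061), (nat_lit 27968816), (nat_lit 20557252), (nat_lit 13862945)] (nat_lit 6911493)) p13_6_2 (nat_lit 4) (nat_lit 11) (nat_lit 12) = true := by decide +kernel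
def p13_6_2_12 : pfC (piC [(nat_lit 43428061), (nat_lit 27968816), (nat_lit 20557252), (nat_lit 13862945)] (nat_lit 6911493)) p13_6_2 (nat_lit 4) (nat_lit 12) (nat_lit 13) = true := by decide +kernel
def p13_6_2_13 : pfC (piC [(nat_lit 43428061), (nat_lit 27968816), (nat_lit 20557252), (nat_lit 13862945)] (nat_lit 6911493)) p13_6_2 (nat_lit 4) (nat_lit 13) (nat_lit 14) = true := by decide +kernel
def p13_6_2_14 : pfC (piC [(nat_lit 43428061), (nat_lit 27968816), (nat_lit 20557252), (nat_lit 13862945)] (nat_lit 6911493)) p13_6_2 (nat_lit 4) (nat_lit 14) (nat_lit 15) = true := by decide +kernel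
def p13_6_2_15 : pfC (piC [(nat_lit 43428061), (nat_lit 27968816), (nat_lit 20557252), (nat_lit 13862945)] (nat_lit 6911493)) p13_6_2 (nat_lit 4) (nat_lit 15) (nat_lit 16) = true := by decide +kernel
def p13_6_2_16 : pfC (piC [(nat_lit 43428061), (nat_lit 27968816), (nat_lit 20557252), (nat_lit 13862945)] (nat_lit 6911493)) p13_6_2 (nat_lit 4) (nat_lit 16) (nat_lit 17) = true := by decide +kernel
def p13_6_2_17 : pfC (piC [(nat_lit 43428061), (nat_lit 27968816), (nat_lit 20557252), (nat_lit 13862945)] (nat_lit 6911493)) p13_6_2 (nat_lit 4) (nat_lit 17) (nat_lit 18) = true := by decide +kernel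
def p13_6_2_18 : pfC (piC [(nat_lit 43428061), (nat_lit 27968816), (nat_lit 20557252), (nat_lit 13862945)] (nat_lit 6911493)) p13_6_2 (nat_lit 4) (nat_lit 18) (nat_lit 19) = true := by decide +kernel
def p13_6_2_19 : pfC (piC [(nat_lit 43428061), (nat_lit 27968816), (nat_lit 20557252), (nat_lit 13862945)] (nat_lit 6911493)) p13_6_2 (nat_lit 4) (nat_lit 19) (nat_lit 20) = true := by decide +kernel
def p13_6_2_20 : pfC (piC [(nat_lit 43428061), (nat_lit 27968816), (nat_lit 20557252), (nat_lit 13862945)] (nat_lit 6911493)) p13_6_2 (nat_lit 4) (nat_lit 20) (nat_lit 21) = true := by decide +kernel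
def p13_6_2_21 : pfC (piC [(nat_lit 43428061), (nat_lit 27968816), (nat_lit 20557252), (nat_lit 13862945)] (nat_lit 6911493)) p13_6_2 (nat_lit 4) (nat_lit 21) (nat_lit 22) = true := by decide +kernel
def p13_6_2_22 : pfC (piC [(nat_lit 43428061), (nat_lit 27968816), (nat_lit 20557252), (nat_lit 13862945)] (nat_lit 6911493)) p13_6_2 (nat_lit 4) (nat_lit 22) (nat_lit 23) = true := by decide +kernel
def p13_6_2_23 : pfC (piC [(nat_lit 43428061), (nat_lit 27968816), (nat_lit 20557252), (nat_lit 13862945)] (nat_lit 6911493)) p13_6_2 (nat_lit 4) (nat_lit 23) (nat_lit 24) = true := by decide +kernel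
def p13_6_2_24 : pfC (piC [(nat_lit 43428061), (nat_lit 27968816), (nat_lit 20557252), (nat_lit 13862945)] (nat_lit 6911493)) p13_6_2 (nat_lit 4) (nat_lit 24) (nat_lit 25) = true := by decide +kernel
def p13_6_2_25 : pfC (piC [(nat_lit 43428061), (nat_lit 27968816), (nat_lit 20557252), (nat_lit 13862945)] (nat_lit 6911493)) p13_6_2 (nat_lit 4) (nat_lit 25) (nat_lit 26) = true := by decide +kernel
def p13_6_2_26 : pfC (piC [(nat_lit 43428061), (nat_lit 27968816), (nat_lit 20557252), (nat_lit 13862945)] (nat_lit 6911493)) p13_6_2 (nat_lit 4) (nat_lit 26) (nat_lit 27) = true := by decide +kernel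
def p13_6_2_27 : pfC (piC [(nat_lit 43428061), (nat_lit 27968816), (nat_lit 20557252), (nat_lit 13862945)] (nat_lit 6911493)) p13_6_2 (nat_lit 4) (nat_lit 27) (nat_lit 28) = true := by decide +kernel
def p13_6_2_28 : pfC (piC [(nat_lit 43428061), (nat_lit 27968816), (nat_lit 20557252), (nat_lit 13862945)] (nat_lit 6911493)) p13_6_2 (nat_lit 4) (nat_lit 28) (nat_lit 29) = true := by decide +kernel
def p13_6_2_29 : pfC (piC [(nat_lit 43428061), (nat_lit 27968816), (nat_lit 20557252), (nat_lit 13862945)] (nat_lit 6911493)) p13_6_2 (nat_lit 4) (nat_lit 29) (nat_lit 30) = true := by decide +kernel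
def p13_6_2_30 : pfC (piC [(nat_lit 43428061), (nat_lit 27968816), (nat_lit 20557252), (nat_lit 13862945)] (nat_lit 6911493)) p13_6_2 (nat_lit 4) (nat_lit 30) (nat_lit 31) = true := by decide +kernel
def p13_6_2_31 : pfC (piC [(nat_lit 43428061), (nat_lit 27968816), (nat_lit 20557252), (nat_lit 13862945)] (nat_lit 6911493)) p13_6_2 (nat_lit 4) (nat_lit 31) (nat_lit 32) = true := by decide +kernel
def p13_6_2_32 : pfC (piC [(nat_lit 43428061), (nat_lit 27968816), (nat_lit 20557252), (nat_lit 13862945)] (nat_lit 6911493)) p13_6_2 (nat_lit 4) (nat_lit 32) (nat_lit 33) = true := by decide +kernel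
def p13_6_2_33 : pfC (piC [(nat_lit 43428061), (nat_lit 27968816), (nat_lit 20557252), (nat_lit 13862945)] (nat_lit 6911493)) p13_6_2 (nat_lit 4) (nat_lit 33) (nat_lit 34) = true := by decide +kernel
def p13_6_2_34 : pfC (piC [(nat_lit 43428061), (nat_lit 27968816), (nat_lit 20557252), (nat_lit 13862945)] (nat_lit 6911493)) p13_6_2 (nat_lit 4) (nat_lit 34) (nat_lit 35) = true := by decide +kernel
def p13_6_2_35 : pfC (piC [(nat_lit 43428061), (nat_lit 27968816), (nat_lit 20557252), (nat_lit 13862945)] (nat_lit 6911493)) p13_6_2 (nat_lit 4) (nat_lit 35) (nat_lit 36) = true := by decide +kernel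
theorem p13_6_2_T : PfS (PiF n13_6.reverse (nat_lit 6911493)) p13_6_2 (nat_lit 4) [] 0 :=
  pftab_of (los := [(nat_lit 43428061), (nat_lit 27968816), (nat_lit 20557252), (nat_lit 13862945)]) (by decide +kernel) (hi := (nat_lit 36)) (PfP.trans (PfP.trans (PfP.trans (PfP.trans (PfP.trans (PfP.trans (PfP.trans (PfP.trans (PfP.trans (PfP.trans (PfP.trans (PfP.trans (PfP.trans (PfP.trans (PfP.trans (PfP.trans (PfP.trans (PfP.trans (PfP.trans (PfP.trans (PfP.trans (PfP.trans (PfP.trans (PfP.trans (PfP.trans (PfP.trans (PfP.trans (PfP.trans (PfP.trans (PfP.trans (PfP.trans (PfP.trans (PfP.trans (PfP.trans (PfP.trans (pfC_sound p13_6_2_0) (pfC_sound p13_6_2_1)) (pfC_sound p13_6_2_2)) (pfC_sound p13_6_2_3)) (pfC_sound p13_6_2_4)) (pfC_sound p13_6_2_5)) (pfC_sound p13_6_2_6)) (pfC_sound p13_6_2_7)) (pfC_sound p13_6_2_8)) (pfC_sound p13_6_2_9)) (pfC_sound p13_6_2_10)) (pfC_sound p13_6_2_11)) (pfC_sound p13_6_2_12)) (pfC_sound p13_6_2_13)) (pfC_sound p13_6_2_14))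 (pfC_sound p13_6_2_15)) (pfC_sound p13_6_2_16)) (pfC_sound p13_6_2_17)) (pfC_sound p13_6_2_18)) (pfC_sound p13_6_2_19)) (pfC_sound p13_6_2_20)) (pfC_sound p13_6_2_21)) (pfC_sound p13_6_2_22)) (pfC_sound p13_6_2_23)) (pfC_sound p13_6_2_24)) (pfC_sound p13_6_2_25)) (pfC_sound p13_6_2_26)) (pfC_sound p13_6_2_27)) (pfC_sound p13_6_2_28)) (pfC_sound p13_6_2_29)) (pfC_sound p13_6_2_30)) (pfC_sound p13_6_2_31)) (pfC_sound p13_6_2_32)) (pfC_sound p13_6_2_33))
 (pfC_sound p13_6_2_34)) (pfC_sound p13_6_2_35)) (by decide +kernel)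

def z13_6_2 : zOK yB13_6 (nat_lit 2) (nat_lit 600) (nat_lit 750) (nat_lit 6911493) (nat_lit 4861332) = true := by decide +kernel
def g13_6_2 : gOK yB13_6.x P13_6 (nat_lit 1425) (q13_6 :: r13_6) (nat_lit 2) (nat_lit 600) (nat_lit 3) (nat_lit 750) (nat_lit 12712500) (nat_lit 12712500) (nat_lit 12712500) (nat_lit 12712500) [(nat_lit 800), (nat_lit 1600)] = true := by decide +kernel
def v13_6_2 : ivC P13_6 s13_6 w13_6 n13_6 (nat_lit 4) (nat_lit 4940) (nat_lit 2) (nat_lit 600) f128_1_600 f136_1_600 (nat_lit 3) (nat_lit 750) f128_1_750 f136_1_750 (nat_lit 6911493) (nat_lit 4861332) p13_6_2 = true := by decide +kernel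
def p13_6_3 : PF := (PF.cons (PF.cons (PF.cons (PF.cons (PF.leaf (nat_lit 3115516) (nat_lit 21144502) (nat_lit 45964310) (nat_lit 21144502) [(nat_lit 0), (nat_lit 0), (nat_lit 0), (nat_lit 0)]) (PF.cons (PF.leaf (nat_lit 3212668) (nat_lit 162619) (nat_lit 45833030) (nat_lit 21113163) [(nat_lit 162619), (nat_lit 0), (nat_lit 0), (nat_lit 0)]) (PF.cons (PF.leaf (nat_lit 3331876) (nat_lit 176860) (nat_lit 45679003) (nat_lit 21076088) [(nat_lit 176860), (nat_lit 0), (nat_lit 0), (nat_lit 0)]) (PF.cons (PF.leaf (nat_lit 3465698) (nat_lit 189527) (nat_lit 45506136) (nat_lit 21034093) [(nat_lit 189527), (nat_lit 0), (nat_lit 0), (nat_lit 0)]) (PF.cons (PF.leaf (nat_lit 3612021) (nat_lit 200985) (nat_lit 45317148) (nat_lit 20987722) [(nat_lit 200985), (nat_lit 0), (nat_lit 0), (nat_lit 0)]) (PF.cons (PF.leaf (nat_lit 3769566) (nat_lit 211467) (nat_lit 45114102) (nat_lit 20937373) [(nat_lit 211467), (nat_lit 0), (nat_lit 0), (nat_lit 0)]) (PF.cons (PF.leaf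 (nat_lit 3937142) (nat_lit 221133) (nat_lit 44898655) (nat_lit 20883357) [(nat_lit 221133), (nat_lit 0), (nat_lit 0), (nat_lit 0)]) (PF.cons PF.nil (PF.cons PF.nil PF.nil))))))))) (PF.cons (PF.cons (PF.leaf (nat_lit 3520528) (nat_lit 900864) (nat_lit
 45240693) (nat_lit 20967255) [(nat_lit 0), (nat_lit 900864), (nat_lit 0), (nat_lit 0)]) (PF.cons (PF.leaf (nat_lit 3650663) (nat_lit 198998) (nat_lit 45065799) (nat_lit 20923707) [(nat_lit 198998), (nat_lit 920307), (nat_lit 0), (nat_lit 0)]) (PF.cons (PF.leaf (nat_lit 3796791) (nat_lit 209928) (nat_lit 44873867) (nat_lit 20875459) [(nat_lit 209928), (nat_lit 939629), (nat_lit 0), (nat_lit 0)]) (PF.cons (PF.leaf (nat_lit 3954533) (nat_lit 219882) (nat_lit 44667581) (nat_lit 20823073) [(nat_lit 219882), (nat_lit 958511), (nat_lit 0), (nat_lit 0)]) (PF.cons (PF.leaf (nat_lit 4122466) (nat_lit 229040) (nat_lit 44448916) (nat_lit 20766950) [(nat_lit 229040), (nat_lit 976782), (nat_lit 0), (nat_lit 0)]) (PF.cons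 PF.nil (PF.cons PF.nil PF.nil))))))) (PF.cons (PF.cons (PF.leaf (nat_lit 3986780) (nat_lit 967597) (nat_lit 44416659) (nat_lit 20756957) [(nat_lit 0), (nat_lit 967597), (nat_lit 0), (nat_lit 0)]) (PF.cons (PF.leaf (nat_lit 4141504) (nat_lit 227151) (nat_lit 44209806) (nat_lit 20703195) [(nat_lit 227151), (nat_lit 984329), (nat_lit 0), (nat_lit 0)]) (PF.cons (PF.leaf (nat_lit 4308833) (nat_lit 235960) (nat_lit 43990029) (nat_lit 20645490) [(nat_lit 235960), (nat_lit 1000685),
 (nat_lit 0), (nat_lit 0)]) (PF.cons (PF.leaf (nat_lit 4485488) (nat_lit 244086) (nat_lit 43759246) (nat_lit 20584252) [(nat_lit 244086), (nat_lit 1016527), (nat_lit 0), (nat_lit 0)]) (PF.cons PF.nil PF.nil))))) (PF.cons (PF.cons (PF.leaf (nat_lit 4498409) (nat_lit 1022306) (nat_lit 43522788) (nat_lit 20519106) [(nat_lit 0), (nat_lit 1022306), (nat_lit 0), (nat_lit 0)]) (PF.cons (PF.leaf (nat_lit 4672281) (nat_lit 249856) (nat_lit 43292510) (nat_lit 20456667) [(nat_lit 249856),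 (nat_lit 1036592), (nat_lit 0), (nat_lit 0)]) (PF.cons PF.nil (PF.cons PF.nil PF.nil)))) (PF.cons (PF.cons (PF.leaf (nat_lit 5043895) (nat_lit 1067351) (nat_lit 42581334) (nat_lit 20258073) [(nat_lit 0), (nat_lit 1067351), (nat_lit 0), (nat_lit 0)]) (PF.cons PF.nil PF.nil)) (PF.cons PF.nil PF.nil)))))) (PF.cons (PF.cons (PF.cons (PF.leaf (nat_lit 4001994) (nat_lit 2572712) (nat_lit 43919509) (nat_lit 20616591) [(nat_lit 0), (nat_lit 0), (nat_lit 2572712), (nat_lit 0)]) (PF.cons (PF.leaf (nat_lit 4139993) (nat_lit 215337) (nat_lit 43736155) (nat_lit 20567875) [(nat_lit 215337), (nat_lit 0), (nat_lit 2589444), (nat_lit 0)]) (PF.cons (PF.leaf (nat_lit 4293330) (nat_lit 225750) (nat_lit 43536383) (nat_lit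
 20514329) [(nat_lit 225750), (nat_lit 0), (nat_lit 2606599), (nat_lit 0)]) (PF.cons (PF.leaf (nat_lit 4457752) (nat_lit 235098) (nat_lit 43323097) (nat_lit 20456626) [(nat_lit 235098), (nat_lit 0), (nat_lit 2623794), (nat_lit 0)]) (PF.cons (PF.leaf (nat_lit 4631748) (nat_lit 243601) (nat_lit 43098393) (nat_lit 20395242) [(nat_lit 243601), (nat_lit 0), (nat_lit 2640768), (nat_lit 0)]) (PF.cons PF.nil (PF.cons PF.nil PF.nil))))))) (PF.cons (PF.cons (PF.leaf (nat_lit 4482864) (nat_lit 1013890) (nat_lit 43072862) (nat_lit 20386554) [(nat_lit 0), (nat_lit 1013890), (nat_lit 2635505), (nat_lit 0)]) (PF.cons (PF.leaf (nat_lit 4643553) (nat_lit 240860) (nat_lit 42861045) (nat_lit 20328056) [(nat_lit 240860), (nat_lit 1028159), (nat_lit 2650691), (nat_lit 0)]) (PF.cons (PF.leaf (nat_lit 4816083) (nat_lit 249112) (nat_lit 42637126) (nat_lit 20265641) [(nat_lit 249112), (nat_lit 1042051), (nat_lit 2665768), (nat_lit 0)]) (PF.cons PF.nil (PF.cons PF.nil PF.nil)))))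 (PF.cons (PF.cons (PF.leaf (nat_lit 5003161) (nat_lit 1059250) (nat_lit 42170292) (nat_lit 20131927) [(nat_lit 0), (nat_lit 1059250), (nat_lit 2688091), (nat_lit 0)]) (PF.cons (PF.leaf (nat_lit 5181066) (nat_lit 261223) (nat_lit
 41938294) (nat_lit 20065375) [(nat_lit 261223), (nat_lit 1071378), (nat_lit 2701161), (nat_lit 0)]) (PF.cons PF.nil (PF.cons PF.nil PF.nil)))) (PF.cons (PF.cons (PF.leaf (nat_lit 5552221) (nat_lit 1096451) (nat_lit 41231652) (nat_lit 19857177) [(nat_lit 0), (nat_lit 1096451), (nat_lit 2730627), (nat_lit 0)]) (PF.cons PF.nil PF.nil)) (PF.cons PF.nil PF.nil))))) (PF.cons (PF.cons (PF.cons (PF.leaf (nat_lit 4974612) (nat_lit 2683648) (nat_lit 41742276) (nat_lit 19999238) [(nat_lit 0), (nat_lit 0), (nat_lit 2683648), (nat_lit 0)]) (PF.cons (PF.leaf (nat_lit 5139574) (nat_lit 252020) (nat_lit 41528579) (nat_lit 19936984) [(nat_lit 252020), (nat_lit 0), (nat_lit 2695614), (nat_lit 0)]) (PF.cons (PF.leaf (nat_lit 5315875) (nat_lit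 259776) (nat_lit 41303557) (nat_lit 19870874) [(nat_lit 259776), (nat_lit 0), (nat_lit 2707413), (nat_lit 0)]) (PF.cons PF.nil PF.nil)))) (PF.cons (PF.cons (PF.leaf (nat_lit 5499730) (nat_lit 1087573) (nat_lit 40842102) (nat_lit 19731865) [(nat_lit 0), (nat_lit 1087573), (nat_lit 2723635), (nat_lit 0)]) (PF.cons (PF.leaf (nat_lit 5680502) (nat_lit 270386) (nat_lit 40610936) (nat_lit 19662175) [(nat_lit 270386), (nat_lit 1097905), (nat_lit 2733704), (nat_lit
 0)]) PF.nil)) (PF.cons PF.nil PF.nil))) (PF.cons (PF.cons (PF.cons (PF.leaf (nat_lit 5986554) (nat_lit 2746057) (nat_lit 39546912) (nat_lit 19323729) [(nat_lit 0), (nat_lit 0), (nat_lit 2746057), (nat_lit 0)]) (PF.cons PF.nil PF.nil)) (PF.cons PF.nil PF.nil)) (PF.cons PF.nil PF.nil))))) (PF.cons (PF.cons (PF.cons (PF.cons (PF.leaf (nat_lit 4692966) (nat_lit 6165658) (nat_lit 41159324) (nat_lit 19783829) [(nat_lit 0), (nat_lit 0), (nat_lit 0), (nat_lit 6165658)]) (PF.cons (PF.leaf (nat_lit 4832785)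 (nat_lit 223862) (nat_lit 40983610) (nat_lit 19732088) [(nat_lit 223862), (nat_lit 0), (nat_lit 0), (nat_lit 6169251)]) (PF.cons (PF.leaf (nat_lit 4987377) (nat_lit 234011) (nat_lit 40792734) (nat_lit 19675485) [(nat_lit 234011), (nat_lit 0), (nat_lit 0), (nat_lit 6172570)]) (PF.cons (PF.leaf (nat_lit 5152544) (nat_lit 243005) (nat_lit 40589550) (nat_lit 19614782) [(nat_lit 243005), (nat_lit 0), (nat_lit 0), (nat_lit 6175461)]) (PF.cons (PF.leaf (nat_lit 5326724) (nat_lit 251090) (nat_lit 40376115) (nat_lit 19550521) [(nat_lit 251090), (nat_lit 0), (nat_lit 0), (nat_lit 6177813)]) (PF.cons PF.nil (PF.cons PF.nil PF.nil))))))) (PF.cons (PF.cons (PF.leaf (nat_lit 5170553) (nat_lit 1036996)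
 (nat_lit 40355095) (nat_lit 19542596) [(nat_lit 0), (nat_lit 1036996), (nat_lit 0), (nat_lit 6174123)]) (PF.cons (PF.leaf (nat_lit 5331392) (nat_lit 247686) (nat_lit 40154397) (nat_lit 19481654) [(nat_lit 247686), (nat_lit 1049373), (nat_lit 0), (nat_lit 6175701)]) (PF.cons (PF.leaf (nat_lit 5503441) (nat_lit 255543) (nat_lit 39942768) (nat_lit 19416913) [(nat_lit 255543), (nat_lit 1061306), (nat_lit 0), (nat_lit 6176736)]) (PF.cons (PF.leaf (nat_lit 5683692) (nat_lit 262638) (nat_lit 39722131) (nat_lit 19348898) [(nat_lit 262638), (nat_lit 1072718), (nat_lit 0), (nat_lit 6177150)]) (PF.cons PF.nil PF.nil))))) (PF.cons (PF.cons (PF.leaf (nat_lit 5682447) (nat_lit 1074710) (nat_lit 39505956) (nat_lit 19280172) [(nat_lit 0), (nat_lit 1074710), (nat_lit 0), (nat_lit 6173261)]) (PF.cons (PF.leaf (nat_lit 5858878) (nat_lit 266242) (nat_lit 39288134) (nat_lit 19211995) [(nat_lit 266242), (nat_lit 1084993), (nat_lit 0), (nat_lit 6172453)]) (PF.cons PF.nil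 (PF.cons PF.nil PF.nil)))) (PF.cons (PF.cons (PF.leaf (nat_lit 6218634) (nat_lit 1104926) (nat_lit 38629787) (nat_lit 19001303) [(nat_lit 0), (nat_lit 1104926), (nat_lit 0), (nat_lit 6162943)]) (PF.cons PF.nil PF.nil)) (PF.cons PF.nil
 PF.nil))))) (PF.cons (PF.cons (PF.cons (PF.leaf (nat_lit 5640924) (nat_lit 2687904) (nat_lit 39117573) (nat_lit 19149869) [(nat_lit 0), (nat_lit 0), (nat_lit 2687904), (nat_lit 6153465)]) (PF.cons (PF.leaf (nat_lit 5804788) (nat_lit 256544) (nat_lit 38917113) (nat_lit 19086392) [(nat_lit 256544), (nat_lit 0), (nat_lit 2696568), (nat_lit 6152195)]) (PF.cons (PF.leaf (nat_lit 5979386) (nat_lit 263921) (nat_lit 38706441) (nat_lit 19019222) [(nat_lit 263921), (nat_lit 0), (nat_lit 2705000), (nat_lit 6150305)]) (PF.cons PF.nil PF.nil)))) (PF.cons (PF.cons (PF.leaf (nat_lit 6154631) (nat_lit 1094703) (nat_lit 38278068) (nat_lit 18879674) [(nat_lit 0), (nat_lit 1094703), (nat_lit 2714984), (nat_lit 6141381)]) (PF.cons (PF.leaf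 (nat_lit 6332805) (nat_lit 273301) (nat_lit 38062724) (nat_lit 18809569) [(nat_lit 273301), (nat_lit 1103456), (nat_lit 2721934), (nat_lit 6137826)]) PF.nil)) (PF.cons PF.nil PF.nil))) (PF.cons (PF.cons (PF.cons (PF.leaf (nat_lit 6616498) (nat_lit 2723572) (nat_lit 37087269) (nat_lit 18477011) [(nat_lit 0), (nat_lit 0), (nat_lit 2723572), (nat_lit 6097386)]) (PF.cons PF.nil PF.nil)) (PF.cons PF.nil PF.nil)) PF.nil))) (PF.cons (PF.cons (PF.cons (PF.cons (PF.leaf
 (nat_lit 6261249) (nat_lit 6030735) (nat_lit 36725210) (nat_lit 18322132) [(nat_lit 0), (nat_lit 0), (nat_lit 0), (nat_lit 6030735)]) (PF.cons (PF.leaf (nat_lit 6423011) (nat_lit 258570) (nat_lit 36538586) (nat_lit 18259010) [(nat_lit 258570), (nat_lit 0), (nat_lit 0), (nat_lit 6026322)]) (PF.cons (PF.leaf (nat_lit 6595061) (nat_lit 265596) (nat_lit 36342743) (nat_lit 18192389) [(nat_lit 265596), (nat_lit 0), (nat_lit 0), (nat_lit 6021243)]) (PF.cons PF.nil PF.nil)))) (PF.cons (PF.cons (PF.leaf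 (nat_lit 6762071) (nat_lit 1092949) (nat_lit 35947409) (nat_lit 18055333) [(nat_lit 0), (nat_lit 1092949), (nat_lit 0), (nat_lit 6006559)]) (PF.cons PF.nil PF.nil)) (PF.cons PF.nil PF.nil))) (PF.cons (PF.cons (PF.cons (PF.leaf (nat_lit 7200598) (nat_lit 2686596) (nat_lit 34856707) (nat_lit 17664997) [(nat_lit 0), (nat_lit 0), (nat_lit 2686596), (nat_lit 5950256)]) (PF.cons PF.nil PF.nil)) PF.nil) PF.nil)) (PF.cons PF.nil (PF.cons PF.nil (PF.cons PF.nil PF.nil))))))

def p13_6_3_0 : pfC (piC [(nat_lit 43428061), (nat_lit 27968816), (nat_lit 20557252), (nat_lit 13862945)] (nat_lit 4861332)) p13_6_3 (nat_lit 4) (nat_lit 0) (nat_lit 1) = true := by decide +kernel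
def p13_6_3_1 : pfC (piC [(nat_lit 43428061), (nat_lit 27968816), (nat_lit 20557252), (nat_lit 13862945)] (nat_lit 4861332)) p13_6_3 (nat_lit 4) (nat_lit 1) (nat_lit 2) = true := by decide +kernel
def p13_6_3_2 : pfC (piC [(nat_lit 43428061), (nat_lit 27968816), (nat_lit 20557252), (nat_lit 13862945)] (nat_lit 4861332)) p13_6_3 (nat_lit 4) (nat_lit 2) (nat_lit 3) = true := by decide +kernel
def p13_6_3_3 : pfC (piC [(nat_lit 43428061), (nat_lit 27968816), (nat_lit 20557252), (nat_lit 13862945)] (nat_lit 4861332)) p13_6_3 (nat_lit 4) (nat_lit 3) (nat_lit 4) = true := by decide +kernel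
def p13_6_3_4 : pfC (piC [(nat_lit 43428061), (nat_lit 27968816), (nat_lit 20557252), (nat_lit 13862945)] (nat_lit 4861332)) p13_6_3 (nat_lit 4) (nat_lit 4) (nat_lit 5) = true := by decide +kernel
def p13_6_3_5 : pfC (piC [(nat_lit 43428061), (nat_lit 27968816), (nat_lit 20557252), (nat_lit 13862945)] (nat_lit 4861332)) p13_6_3 (nat_lit 4) (nat_lit 5) (nat_lit 6) = true := by decide +kernel
def p13_6_3_6 : pfC (piC [(nat_lit 43428061), (nat_lit 27968816), (nat_lit 20557252), (nat_lit 13862945)] (nat_lit 4861332)) p13_6_3 (nat_lit 4) (nat_lit 6) (nat_lit 7) = true := by decide +kernel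
def p13_6_3_7 : pfC (piC [(nat_lit 43428061), (nat_lit 27968816), (nat_lit 20557252), (nat_lit 13862945)] (nat_lit 4861332)) p13_6_3 (nat_lit 4) (nat_lit 7) (nat_lit 8) = true := by decide +kernel
def p13_6_3_8 : pfC (piC [(nat_lit 43428061), (nat_lit 27968816), (nat_lit 20557252), (nat_lit 13862945)] (nat_lit 4861332)) p13_6_3 (nat_lit 4) (nat_lit 8) (nat_lit 9) = true := by decide +kernel
def p13_6_3_9 : pfC (piC [(nat_lit 43428061), (nat_lit 27968816), (nat_lit 20557252), (nat_lit 13862945)] (nat_lit 4861332)) p13_6_3 (nat_lit 4) (nat_lit 9) (nat_lit 10) = true := by decide +kernel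
def p13_6_3_10 : pfC (piC [(nat_lit 43428061), (nat_lit 27968816), (nat_lit 20557252), (nat_lit 13862945)] (nat_lit 4861332)) p13_6_3 (nat_lit 4) (nat_lit 10) (nat_lit 11) = true := by decide +kernel
def p13_6_3_11 : pfC (piC [(nat_lit 43428061), (nat_lit 27968816), (nat_lit 20557252), (nat_lit 13862945)] (nat_lit 4861332)) p13_6_3 (nat_lit 4) (nat_lit 11) (nat_lit 12) = true := by decide +kernel
def p13_6_3_12 : pfC (piC [(nat_lit 43428061), (nat_lit 27968816), (nat_lit 20557252), (nat_lit 13862945)] (nat_lit 4861332)) p13_6_3 (nat_lit 4) (nat_lit 12) (nat_lit 13) = true := by decide +kernel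
def p13_6_3_13 : pfC (piC [(nat_lit 43428061), (nat_lit 27968816), (nat_lit 20557252), (nat_lit 13862945)] (nat_lit 4861332)) p13_6_3 (nat_lit 4) (nat_lit 13) (nat_lit 14) = true := by decide +kernel
def p13_6_3_14 : pfC (piC [(nat_lit 43428061), (nat_lit 27968816), (nat_lit 20557252), (nat_lit 13862945)] (nat_lit 4861332)) p13_6_3 (nat_lit 4) (nat_lit 14) (nat_lit 15) = true := by decide +kernel
def p13_6_3_15 : pfC (piC [(nat_lit 43428061), (nat_lit 27968816), (nat_lit 20557252), (nat_lit 13862945)] (nat_lit 4861332)) p13_6_3 (nat_lit 4) (nat_lit 15) (nat_lit 16) = true := by decide +kernel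
def p13_6_3_16 : pfC (piC [(nat_lit 43428061), (nat_lit 27968816), (nat_lit 20557252), (nat_lit 13862945)] (nat_lit 4861332)) p13_6_3 (nat_lit 4) (nat_lit 16) (nat_lit 17) = true := by decide +kernel
def p13_6_3_17 : pfC (piC [(nat_lit 43428061), (nat_lit 27968816), (nat_lit 20557252), (nat_lit 13862945)] (nat_lit 4861332)) p13_6_3 (nat_lit 4) (nat_lit 17) (nat_lit 18) = true := by decide +kernel
def p13_6_3_18 : pfC (piC [(nat_lit 43428061), (nat_lit 27968816), (nat_lit 20557252), (nat_lit 13862945)] (nat_lit 4861332)) p13_6_3 (nat_lit 4) (nat_lit 18) (nat_lit 19) = true := by decide +kernel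
def p13_6_3_19 : pfC (piC [(nat_lit 43428061), (nat_lit 27968816), (nat_lit 20557252), (nat_lit 13862945)] (nat_lit 4861332)) p13_6_3 (nat_lit 4) (nat_lit 19) (nat_lit 20) = true := by decide +kernel
def p13_6_3_20 : pfC (piC [(nat_lit 43428061), (nat_lit 27968816), (nat_lit 20557252), (nat_lit 13862945)] (nat_lit 4861332)) p13_6_3 (nat_lit 4) (nat_lit 20) (nat_lit 21) = true := by decide +kernel
def p13_6_3_21 : pfC (piC [(nat_lit 43428061), (nat_lit 27968816), (nat_lit 20557252), (nat_lit 13862945)] (nat_lit 4861332)) p13_6_3 (nat_lit 4) (nat_lit 21) (nat_lit 22) = true := by decide +kernel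
def p13_6_3_22 : pfC (piC [(nat_lit 43428061), (nat_lit 27968816), (nat_lit 20557252), (nat_lit 13862945)] (nat_lit 4861332)) p13_6_3 (nat_lit 4) (nat_lit 22) (nat_lit 23) = true := by decide +kernel
def p13_6_3_23 : pfC (piC [(nat_lit 43428061), (nat_lit 27968816), (nat_lit 20557252), (nat_lit 13862945)] (nat_lit 4861332)) p13_6_3 (nat_lit 4) (nat_lit 23) (nat_lit 24) = true := by decide +kernel
def p13_6_3_24 : pfC (piC [(nat_lit 43428061), (nat_lit 27968816), (nat_lit 20557252), (nat_lit 13862945)] (nat_lit 4861332)) p13_6_3 (nat_lit 4) (nat_lit 24) (nat_lit 25) = true := by decide +kernel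
def p13_6_3_25 : pfC (piC [(nat_lit 43428061), (nat_lit 27968816), (nat_lit 20557252), (nat_lit 13862945)] (nat_lit 4861332)) p13_6_3 (nat_lit 4) (nat_lit 25) (nat_lit 26) = true := by decide +kernel
def p13_6_3_26 : pfC (piC [(nat_lit 43428061), (nat_lit 27968816), (nat_lit 20557252), (nat_lit 13862945)] (nat_lit 4861332)) p13_6_3 (nat_lit 4) (nat_lit 26) (nat_lit 27) = true := by decide +kernel
def p13_6_3_27 : pfC (piC [(nat_lit 43428061), (nat_lit 27968816), (nat_lit 20557252), (nat_lit 13862945)] (nat_lit 4861332)) p13_6_3 (nat_lit 4) (nat_lit 27) (nat_lit 28) = true := by decide +kernel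
def p13_6_3_28 : pfC (piC [(nat_lit 43428061), (nat_lit 27968816), (nat_lit 20557252), (nat_lit 13862945)] (nat_lit 4861332)) p13_6_3 (nat_lit 4) (nat_lit 28) (nat_lit 29) = true := by decide +kernel
def p13_6_3_29 : pfC (piC [(nat_lit 43428061), (nat_lit 27968816), (nat_lit 20557252), (nat_lit 13862945)] (nat_lit 4861332)) p13_6_3 (nat_lit 4) (nat_lit 29) (nat_lit 30) = true := by decide +kernel
def p13_6_3_30 : pfC (piC [(nat_lit 43428061), (nat_lit 27968816), (nat_lit 20557252), (nat_lit 13862945)] (nat_lit 4861332)) p13_6_3 (nat_lit 4) (nat_lit 30) (nat_lit 31) = true := by decide +kernel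
def p13_6_3_31 : pfC (piC [(nat_lit 43428061), (nat_lit 27968816), (nat_lit 20557252), (nat_lit 13862945)] (nat_lit 4861332)) p13_6_3 (nat_lit 4) (nat_lit 31) (nat_lit 32) = true := by decide +kernel
def p13_6_3_32 : pfC (piC [(nat_lit 43428061), (nat_lit 27968816), (nat_lit 20557252), (nat_lit 13862945)] (nat_lit 4861332)) p13_6_3 (nat_lit 4) (nat_lit 32) (nat_lit 33) = true := by decide +kernel
def p13_6_3_33 : pfC (piC [(nat_lit 43428061), (nat_lit 27968816), (nat_lit 20557252), (nat_lit 13862945)] (nat_lit 4861332)) p13_6_3 (nat_lit 4) (nat_lit 33) (nat_lit 34) = true := by decide +kernel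
def p13_6_3_34 : pfC (piC [(nat_lit 43428061), (nat_lit 27968816), (nat_lit 20557252), (nat_lit 13862945)] (nat_lit 4861332)) p13_6_3 (nat_lit 4) (nat_lit 34) (nat_lit 35) = true := by decide +kernel
def p13_6_3_35 : pfC (piC [(nat_lit 43428061), (nat_lit 27968816), (nat_lit 20557252), (nat_lit 13862945)] (nat_lit 4861332)) p13_6_3 (nat_lit 4) (nat_lit 35) (nat_lit 36) = true := by decide +kernel
def p13_6_3_36 : pfC (piC [(nat_lit 43428061), (nat_lit 27968816), (nat_lit 20557252), (nat_lit 13862945)] (nat_lit 4861332)) p13_6_3 (nat_lit 4) (nat_lit 36) (nat_lit 37) = true := by decide +kernel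
def p13_6_3_37 : pfC (piC [(nat_lit 43428061), (nat_lit 27968816), (nat_lit 20557252), (nat_lit 13862945)] (nat_lit 4861332)) p13_6_3 (nat_lit 4) (nat_lit 37) (nat_lit 38) = true := by decide +kernel
def p13_6_3_38 : pfC (piC [(nat_lit 43428061), (nat_lit 27968816), (nat_lit 20557252), (nat_lit 13862945)] (nat_lit 4861332)) p13_6_3 (nat_lit 4) (nat_lit 38) (nat_lit 39) = true := by decide +kernel
def p13_6_3_39 : pfC (piC [(nat_lit 43428061), (nat_lit 27968816), (nat_lit 20557252), (nat_lit 13862945)] (nat_lit 4861332)) p13_6_3 (nat_lit 4) (nat_lit 39) (nat_lit 40) = true := by decide +kernel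
def p13_6_3_40 : pfC (piC [(nat_lit 43428061), (nat_lit 27968816), (nat_lit 20557252), (nat_lit 13862945)] (nat_lit 4861332)) p13_6_3 (nat_lit 4) (nat_lit 40) (nat_lit 41) = true := by decide +kernel
def p13_6_3_41 : pfC (piC [(nat_lit 43428061), (nat_lit 27968816), (nat_lit 20557252), (nat_lit 13862945)] (nat_lit 4861332)) p13_6_3 (nat_lit 4) (nat_lit 41) (nat_lit 42) = true := by decide +kernel
def p13_6_3_42 : pfC (piC [(nat_lit 43428061), (nat_lit 27968816), (nat_lit 20557252), (nat_lit 13862945)] (nat_lit 4861332)) p13_6_3 (nat_lit 4) (nat_lit 42) (nat_lit 43) = true := by decide +kernel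
def p13_6_3_43 : pfC (piC [(nat_lit 43428061), (nat_lit 27968816), (nat_lit 20557252), (nat_lit 13862945)] (nat_lit 4861332)) p13_6_3 (nat_lit 4) (nat_lit 43) (nat_lit 44) = true := by decide +kernel
def p13_6_3_44 : pfC (piC [(nat_lit 43428061), (nat_lit 27968816), (nat_lit 20557252), (nat_lit 13862945)] (nat_lit 4861332)) p13_6_3 (nat_lit 4) (nat_lit 44) (nat_lit 45) = true := by decide +kernel
def p13_6_3_45 : pfC (piC [(nat_lit 43428061), (nat_lit 27968816), (nat_lit 20557252), (nat_lit 13862945)] (nat_lit 4861332)) p13_6_3 (nat_lit 4) (nat_lit 45) (nat_lit 46) = true := by decide +kernel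
def p13_6_3_46 : pfC (piC [(nat_lit 43428061), (nat_lit 27968816), (nat_lit 20557252), (nat_lit 13862945)] (nat_lit 4861332)) p13_6_3 (nat_lit 4) (nat_lit 46) (nat_lit 47) = true := by decide +kernel
def p13_6_3_47 : pfC (piC [(nat_lit 43428061), (nat_lit 27968816), (nat_lit 20557252), (nat_lit 13862945)] (nat_lit 4861332)) p13_6_3 (nat_lit 4) (nat_lit 47) (nat_lit 48) = true := by decide +kernel
def p13_6_3_48 : pfC (piC [(nat_lit 43428061), (nat_lit 27968816), (nat_lit 20557252), (nat_lit 13862945)] (nat_lit 4861332)) p13_6_3 (nat_lit 4) (nat_lit 48) (nat_lit 49) = true := by decide +kernel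
def p13_6_3_49 : pfC (piC [(nat_lit 43428061), (nat_lit 27968816), (nat_lit 20557252), (nat_lit 13862945)] (nat_lit 4861332)) p13_6_3 (nat_lit 4) (nat_lit 49) (nat_lit 50) = true := by decide +kernel
def p13_6_3_50 : pfC (piC [(nat_lit 43428061), (nat_lit 27968816), (nat_lit 20557252), (nat_lit 13862945)] (nat_lit 4861332)) p13_6_3 (nat_lit 4) (nat_lit 50) (nat_lit 51) = true := by decide +kernel
def p13_6_3_51 : pfC (piC [(nat_lit 43428061), (nat_lit 27968816), (nat_lit 20557252), (nat_lit 13862945)] (nat_lit 4861332)) p13_6_3 (nat_lit 4) (nat_lit 51) (nat_lit 52) = true := by decide +kernel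
def p13_6_3_52 : pfC (piC [(nat_lit 43428061), (nat_lit 27968816), (nat_lit 20557252), (nat_lit 13862945)] (nat_lit 4861332)) p13_6_3 (nat_lit 4) (nat_lit 52) (nat_lit 53) = true := by decide +kernel
def p13_6_3_53 : pfC (piC [(nat_lit 43428061), (nat_lit 27968816), (nat_lit 20557252), (nat_lit 13862945)] (nat_lit 4861332)) p13_6_3 (nat_lit 4) (nat_lit 53) (nat_lit 54) = true := by decide +kernel
def p13_6_3_54 : pfC (piC [(nat_lit 43428061), (nat_lit 27968816), (nat_lit 20557252), (nat_lit 13862945)] (nat_lit 4861332)) p13_6_3 (nat_lit 4) (nat_lit 54) (nat_lit 55) = true := by decide +kernel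
def p13_6_3_55 : pfC (piC [(nat_lit 43428061), (nat_lit 27968816), (nat_lit 20557252), (nat_lit 13862945)] (nat_lit 4861332)) p13_6_3 (nat_lit 4) (nat_lit 55) (nat_lit 56) = true := by decide +kernel
def p13_6_3_56 : pfC (piC [(nat_lit 43428061), (nat_lit 27968816), (nat_lit 20557252), (nat_lit 13862945)] (nat_lit 4861332)) p13_6_3 (nat_lit 4) (nat_lit 56) (nat_lit 57) = true := by decide +kernel
def p13_6_3_57 : pfC (piC [(nat_lit 43428061), (nat_lit 27968816), (nat_lit 20557252), (nat_lit 13862945)] (nat_lit 4861332)) p13_6_3 (nat_lit 4) (nat_lit 57) (nat_lit 58) = true := by decide +kernel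
def p13_6_3_58 : pfC (piC [(nat_lit 43428061), (nat_lit 27968816), (nat_lit 20557252), (nat_lit 13862945)] (nat_lit 4861332)) p13_6_3 (nat_lit 4) (nat_lit 58) (nat_lit 59) = true := by decide +kernel
theorem p13_6_3_T : PfS (PiF n13_6.reverse (nat_lit 4861332)) p13_6_3 (nat_lit 4) [] 0 :=
  pftab_of (los := [(nat_lit 43428061), (nat_lit 27968816), (nat_lit 20557252), (nat_lit 13862945)]) (by decide +kernel) (hi := (nat_lit 59)) (PfP.trans (PfP.trans (PfP.trans (PfP.trans (PfP.trans (PfP.trans (PfP.trans (PfP.trans (PfP.trans (PfP.trans (PfP.trans (PfP.trans (PfP.trans (PfP.trans (PfP.trans (PfP.trans (PfP.trans (PfP.trans (PfP.trans (PfP.trans (PfP.trans (PfP.trans (PfP.trans (PfP.trans (PfP.trans (PfP.trans (PfP.trans (PfP.trans (PfP.trans (PfP.trans (PfP.trans (PfP.trans (PfP.trans (PfP.trans (PfP.trans (PfP.trans (PfP.trans (PfP.trans (PfP.trans (PfP.trans (PfP.trans (PfP.trans (PfP.trans (PfP.trans (PfP.trans (PfP.trans (PfP.trans (PfP.trans (PfP.trans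 (PfP.trans (PfP.trans (PfP.trans (PfP.trans (PfP.trans (PfP.trans (PfP.trans (PfP.trans (PfP.trans (pfC_sound p13_6_3_0) (pfC_sound p13_6_3_1)) (pfC_sound p13_6_3_2)) (pfC_sound p13_6_3_3)) (pfC_sound p13_6_3_4)) (pfC_sound p13_6_3_5)) (pfC_sound p13_6_3_6)) (pfC_sound p13_6_3_7)) (pfC_sound p13_6_3_8)) (pfC_sound p13_6_3_9)) (pfC_sound p13_6_3_10)) (pfC_sound p13_6_3_11)) (pfC_sound p13_6_3_12)) (pfC_sound p13_6_3_13)) (pfC_sound p13_6_3_14)) (pfC_sound p13_6_3_15)) (pfC_sound p13_6_3_16)) (pfC_sound p13_6_3_17)) (pfC_sound p13_6_3_18)) (pfC_sound p13_6_3_19)) (pfC_sound p13_6_3_20)) (pfC_sound p13_6_3_21)) (pfC_sound p13_6_3_22)) (pfC_sound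
 p13_6_3_23)) (pfC_sound p13_6_3_24)) (pfC_sound p13_6_3_25)) (pfC_sound p13_6_3_26)) (pfC_sound p13_6_3_27)) (pfC_sound p13_6_3_28)) (pfC_sound p13_6_3_29)) (pfC_sound p13_6_3_30)) (pfC_sound p13_6_3_31)) (pfC_sound p13_6_3_32)) (pfC_sound p13_6_3_33)) (pfC_sound p13_6_3_34)) (pfC_sound p13_6_3_35)) (pfC_sound p13_6_3_36)) (pfC_sound p13_6_3_37)) (pfC_sound p13_6_3_38)) (pfC_sound p13_6_3_39)) (pfC_sound p13_6_3_40)) (pfC_sound p13_6_3_41)) (pfC_sound p13_6_3_42)) (pfC_sound p13_6_3_43)) (pfC_sound p13_6_3_44)) (pfC_sound p13_6_3_45)) (pfC_sound p13_6_3_46)) (pfC_sound p13_6_3_47)) (pfC_sound p13_6_3_48)) (pfC_sound p13_6_3_49)) (pfC_sound p13_6_3_50)) (pfC_sound p13_6_3_51)) (pfC_sound p13_6_3_52)) (pfC_sound p13_6_3_53)) (pfC_sound p13_6_3_54)) (pfC_sound p13_6_3_55)) (pfC_sound p13_6_3_56)) (pfC_sound p13_6_3_57)) (pfC_sound p13_6_3_58)) (by decide +kernel)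

def z13_6_3 : zOK yB13_6 (nat_lit 3) (nat_lit 750) (nat_lit 943) (nat_lit 4861332) (nat_lit 2903525) = true := by decide +kernel
def g13_6_3 : gOK yB13_6.x P13_6 (nat_lit 1425) (q13_6 :: r13_6) (nat_lit 3) (nat_lit 750) (nat_lit 4) (nat_lit 943) (nat_lit 12712500) (nat_lit 12712500) (nat_lit 12712500) (nat_lit 12712500) [(nat_lit 800)] = true := by decide +kernel
def v13_6_3 : ivC P13_6 s13_6 w13_6 n13_6 (nat_lit 4) (nat_lit 4790) (nat_lit 3) (nat_lit 750) f128_1_750 f136_1_750 (nat_lit 4) (nat_lit 943) f128_1_943 f136_1_943 (nat_lit 4861332) (nat_lit 2903525) p13_6_3 = true := by decide +kernel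
/-! box `yB13_7` -/

def P13_7 : BQ := ⟨(nat_lit 8), (nat_lit 8), (nat_lit 0), (nat_lit 4), (nat_lit 4), (nat_lit 680), (nat_lit 700), (nat_lit 120), [(nat_lit 200), (nat_lit 300), (nat_lit 450), (nat_lit 800)], (nat_lit 66752000), (nat_lit 16000000), (nat_lit 16000000000)⟩
def q13_7 : PC := ⟨(nat_lit 1000), [(nat_lit 120000), (nat_lit 200000), (nat_lit 300000), (nat_lit 450000), (nat_lit 800000)], (nat_lit 340282367000166625996085689103316680705000000), (nat_lit 15933248000000), (nat_lit 15933248000000), (nat_lit 10000000)⟩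
def r13_7 : List PC := [⟨(nat_lit 1317), [(nat_lit 120537), (nat_lit 200975), (nat_lit 301688), (nat_lit 451951), (nat_lit 799117)], (nat_lit 342213809715328737951090923089427615236181265), (nat_lit 16323480329280), (nat_lit 16335485246080), (nat_lit 10056267)⟩]
def s13_7 : List PB := [⟨(nat_lit 26340), (nat_lit 1928592000000), [(nat_lit 200975), (nat_lit 301688), (nat_lit 451951), (nat_lit 799117)], (nat_lit 342213809715328737951090923089427615236181265), (nat_lit 1142223387171904), (nat_lit 1142235392088704), (nat_lit 50720)⟩]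
def n13_7 : List KN := [⟨(nat_lit 800), (nat_lit 450), (nat_lit 13743659), (nat_lit 8051968)⟩, ⟨(nat_lit 450), (nat_lit 300), (nat_lit 20402210), (nat_lit 13743659)⟩, ⟨(nat_lit 300), (nat_lit 200), (nat_lit 27646207), (nat_lit 20402210)⟩, ⟨(nat_lit 200), (nat_lit 120), (nat_lit 44228488), (nat_lit 27646207)⟩]
def w13_7 : List ℕ := [(nat_lit 50720)]
def par13_7 : parC yB13_7 P13_7 s13_7 r13_7 q13_7 n13_7 w13_7 = true := by decide +kernel

def p13_7_0 : PF := (PF.cons (PF.cons (PF.cons (PF.cons (PF.leaf (nat_lit 382178) (nat_lit 983807) (nat_lit 66125005) (nat_lit 983807) [(nat_lit 0), (nat_lit 0), (nat_lit 0), (nat_lit 0)]) (PF.cons (PF.leaf (nat_lit 452866) (nat_lit 108250) (nat_lit 65985650) (nat_lit 1014911) [(nat_lit 108250), (nat_lit 0), (nat_lit 0), (nat_lit 0)]) (PF.cons (PF.leaf (nat_lit 548550) (nat_lit 120430) (nat_lit 65818314) (nat_lit 1049637) [(nat_lit 120430), (nat_lit 0), (nat_lit 0), (nat_lit 0)]) (PF.cons (PF.leaf (nat_lit 659593)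 (nat_lit 132077) (nat_lit 65625918) (nat_lit 1086662) [(nat_lit 132077), (nat_lit 0), (nat_lit 0), (nat_lit 0)]) (PF.cons (PF.leaf (nat_lit 783621) (nat_lit 143330) (nat_lit 65410388) (nat_lit 1125102) [(nat_lit 143330), (nat_lit 0), (nat_lit 0), (nat_lit 0)]) (PF.cons (PF.leaf (nat_lit 920715) (nat_lit 154260) (nat_lit 65173172) (nat_lit 1164336) [(nat_lit 154260), (nat_lit 0), (nat_lit 0), (nat_lit 0)]) (PF.cons PF.nil PF.nil))))))) (PF.cons (PF.cons (PF.leaf (nat_lit 759055) (nat_lit 727420) (nat_lit 65241384) (nat_lit 1140008) [(nat_lit 0), (nat_lit 727420), (nat_lit 0), (nat_lit 0)]) (PF.cons (PF.leaf (nat_lit 869802) (nat_lit 147440) (nat_lit 65033565) (nat_lit 1173429) [(nat_lit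
 147440), (nat_lit 754377), (nat_lit 0), (nat_lit 0)]) (PF.cons (PF.leaf (nat_lit 1000537) (nat_lit 158446) (nat_lit 64801049) (nat_lit 1208496) [(nat_lit 158446), (nat_lit 782373), (nat_lit 0), (nat_lit 0)]) (PF.cons (PF.leaf (nat_lit 1144207) (nat_lit 169066) (nat_lit 64546216) (nat_lit 1244507) [(nat_lit 169066), (nat_lit 810890), (nat_lit 0), (nat_lit 0)]) (PF.cons (PF.leaf (nat_lit 1300428) (nat_lit 179362) (nat_lit 64270808) (nat_lit 1280973) [(nat_lit 179362), (nat_lit 839581), (nat_lit 0), (nat_lit 0)]) PF.nil))))) (PF.cons (PF.cons (PF.leaf (nat_lit 1231723) (nat_lit 840180) (nat_lit 64142507) (nat_lit 1285945) [(nat_lit 0), (nat_lit 840180), (nat_lit 0), (nat_lit 0)]) (PF.cons (PF.leaf (nat_lit 1377085) (nat_lit 182637) (nat_lit 63874764) (nat_lit 1318850) [(nat_lit 182637), (nat_lit 866279), (nat_lit 0), (nat_lit 0)]) (PF.cons (PF.leaf (nat_lit 1538326) (nat_lit 192672) (nat_lit 63585675) (nat_lit 1352365) [(nat_lit 192672), (nat_lit 892713),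 (nat_lit 0), (nat_lit 0)]) (PF.cons PF.nil PF.nil)))) (PF.cons (PF.cons (PF.leaf (nat_lit 1785907) (nat_lit 942173) (nat_lit 62863592) (nat_lit 1418699) [(nat_lit 0), (nat_lit 942173), (nat_lit 0), (nat_lit 0)]) (PF.cons (PF.leaf
 (nat_lit 1960656) (nat_lit 214362) (nat_lit 62544999) (nat_lit 1449672) [(nat_lit 214362), (nat_lit 966592), (nat_lit 0), (nat_lit 0)]) PF.nil)) (PF.cons PF.nil (PF.cons PF.nil PF.nil)))))) (PF.cons (PF.cons (PF.cons (PF.leaf (nat_lit 1308016) (nat_lit 1316270) (nat_lit 63396293) (nat_lit 1316270) [(nat_lit 0), (nat_lit 0), (nat_lit 2396248), (nat_lit 0)]) (PF.cons (PF.leaf (nat_lit 1437298) (nat_lit 176407) (nat_lit 63154388) (nat_lit 1345218) [(nat_lit 176407), (nat_lit 0), (nat_lit 2432798), (nat_lit 0)]) (PF.cons (PF.leaf (nat_lit 1584733) (nat_lit 187471) (nat_lit 62887101) (nat_lit 1375432) [(nat_lit 187471), (nat_lit 0), (nat_lit 2471334), (nat_lit 0)]) (PF.cons (PF.leaf (nat_lit 1745644) (nat_lit 197918) (nat_lit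 62597673) (nat_lit 1406320) [(nat_lit 197918), (nat_lit 0), (nat_lit 2511065), (nat_lit 0)]) (PF.cons PF.nil PF.nil))))) (PF.cons (PF.cons (PF.leaf (nat_lit 1828624) (nat_lit 951221) (nat_lit 62159651) (nat_lit 1439239) [(nat_lit 0), (nat_lit 951221), (nat_lit 2558700), (nat_lit 0)]) (PF.cons (PF.leaf (nat_lit 1989528) (nat_lit 209466) (nat_lit 61862703) (nat_lit 1467430) [(nat_lit 209466), (nat_lit 974177), (nat_lit 2595033), (nat_lit 0)]) (PF.cons (PF.leaf
 (nat_lit 2165295) (nat_lit 219178) (nat_lit 61545065) (nat_lit 1496021) [(nat_lit 219178), (nat_lit 997292), (nat_lit 2632076), (nat_lit 0)]) (PF.cons PF.nil PF.nil)))) (PF.cons (PF.cons (PF.leaf (nat_lit 2419572) (nat_lit 1038437) (nat_lit 60774736) (nat_lit 1550392) [(nat_lit 0), (nat_lit 1038437), (nat_lit 2706808), (nat_lit 0)]) (PF.cons (PF.leaf (nat_lit 2606842) (nat_lit 238527) (nat_lit 60433550) (nat_lit 1576639) [(nat_lit 238527), (nat_lit 1059631), (nat_lit 2740833), (nat_lit 0)]) PF.nil))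 (PF.cons PF.nil (PF.cons PF.nil PF.nil))))) (PF.cons (PF.cons (PF.cons (PF.leaf (nat_lit 2441447) (nat_lit 1562543) (nat_lit 60076595) (nat_lit 1562543) [(nat_lit 0), (nat_lit 0), (nat_lit 2734837), (nat_lit 0)]) (PF.cons (PF.leaf (nat_lit 2614262) (nat_lit 232125) (nat_lit 59760043) (nat_lit 1586666) [(nat_lit 232125), (nat_lit 0), (nat_lit 2764988), (nat_lit 0)]) (PF.cons (PF.leaf (nat_lit 2801091) (nat_lit 241464) (nat_lit 59423736) (nat_lit 1611007) [(nat_lit 241464), (nat_lit 0), (nat_lit 2795570), (nat_lit 0)]) (PF.cons PF.nil PF.nil)))) (PF.cons (PF.cons (PF.leaf (nat_lit 3057746) (nat_lit 1116348) (nat_lit 58626999) (nat_lit 1655385) [(nat_lit 0), (nat_lit 1116348), (nat_lit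
 2855039), (nat_lit 0)]) (PF.cons PF.nil PF.nil)) (PF.cons PF.nil PF.nil))) (PF.cons (PF.cons (PF.cons (PF.leaf (nat_lit 3692174) (nat_lit 1738151) (nat_lit 56465671) (nat_lit 1738151) [(nat_lit 0), (nat_lit 0), (nat_lit 2968329), (nat_lit 0)]) (PF.cons PF.nil PF.nil)) (PF.cons PF.nil PF.nil)) (PF.cons PF.nil (PF.cons PF.nil PF.nil)))))) (PF.cons (PF.cons (PF.cons (PF.cons (PF.leaf (nat_lit 2290236) (nat_lit 1498045) (nat_lit 58600816) (nat_lit 1498045) [(nat_lit 0), (nat_lit 0), (nat_lit 0), (nat_lit 7009950)]) (PF.cons (PF.leaf (nat_lit 2431514) (nat_lit 203993) (nat_lit 58346658) (nat_lit 1521955) [(nat_lit 203993), (nat_lit 0), (nat_lit 0), (nat_lit 7036205)]) (PF.cons (PF.leaf (nat_lit 2590232) (nat_lit 215233) (nat_lit 58068038) (nat_lit 1546587) [(nat_lit 215233), (nat_lit 0), (nat_lit 0), (nat_lit 7063721)]) (PF.cons (PF.leaf (nat_lit 2761564) (nat_lit 225584) (nat_lit 57768751) (nat_lit 1571451) [(nat_lit 225584), (nat_lit 0), (nat_lit 0),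 (nat_lit 7091857)]) (PF.cons (PF.leaf (nat_lit 2944249) (nat_lit 235224) (nat_lit 57451556) (nat_lit 1596226) [(nat_lit 235224), (nat_lit 0), (nat_lit 0), (nat_lit 7120130)]) (PF.cons (PF.leaf (nat_lit 3137177) (nat_lit 244271) (nat_lit
 57118604) (nat_lit 1620690) [(nat_lit 244271), (nat_lit 0), (nat_lit 0), (nat_lit 7148158)]) (PF.cons PF.nil (PF.cons PF.nil (PF.cons PF.nil PF.nil))))))))) (PF.cons (PF.cons (PF.leaf (nat_lit 2833506) (nat_lit 1061518) (nat_lit 57327461) (nat_lit 1594561) [(nat_lit 0), (nat_lit 1061518), (nat_lit 0), (nat_lit 7125271)]) (PF.cons (PF.leaf (nat_lit 3003253) (nat_lit 234972) (nat_lit 57025929) (nat_lit 1616900) [(nat_lit 234972), (nat_lit 1080840), (nat_lit 0), (nat_lit 7150169)]) (PF.cons (PF.leaf (nat_lit 3186700) (nat_lit 244319) (nat_lit 56705644) (nat_lit 1639314) [(nat_lit 244319), (nat_lit 1100039), (nat_lit 0), (nat_lit 7175175)]) (PF.cons (PF.leaf (nat_lit 3380647) (nat_lit 253042) (nat_lit 56369323) (nat_lit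 1661543) [(nat_lit 253042), (nat_lit 1118928), (nat_lit 0), (nat_lit 7199888)]) (PF.cons (PF.leaf (nat_lit 3583997) (nat_lit 261239) (nat_lit 56019058) (nat_lit 1683405) [(nat_lit 261239), (nat_lit 1137390), (nat_lit 0), (nat_lit 7224002)]) (PF.cons PF.nil (PF.cons PF.nil PF.nil))))))) (PF.cons (PF.cons (PF.leaf (nat_lit 3433817) (nat_lit 1131154) (nat_lit 55944142) (nat_lit 1678768) [(nat_lit 0), (nat_lit 1131154), (nat_lit 0), (nat_lit 7223593)]) (PF.cons (PF.leaf
 (nat_lit 3626127) (nat_lit 260910) (nat_lit 55607386) (nat_lit 1698883) [(nat_lit 260910), (nat_lit 1148333), (nat_lit 0), (nat_lit 7244964)]) (PF.cons (PF.leaf (nat_lit 3829590) (nat_lit 268843) (nat_lit 55256262) (nat_lit 1718737) [(nat_lit 268843), (nat_lit 1165194), (nat_lit 0), (nat_lit 7265735)]) (PF.cons PF.nil (PF.cons PF.nil PF.nil))))) (PF.cons (PF.cons (PF.leaf (nat_lit 4077577) (nat_lit 1190646) (nat_lit 54484910) (nat_lit 1750952) [(nat_lit 0), (nat_lit 1190646), (nat_lit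 0), (nat_lit 7301010)]) (PF.cons (PF.leaf (nat_lit 4287806) (nat_lit 282883) (nat_lit 54122696) (nat_lit 1768578) [(nat_lit 282883), (nat_lit 1205660), (nat_lit 0), (nat_lit 7317673)]) (PF.cons PF.nil (PF.cons PF.nil PF.nil)))) (PF.cons (PF.cons (PF.leaf (nat_lit 4753403) (nat_lit 1240904) (nat_lit 52977397) (nat_lit 1811704) [(nat_lit 0), (nat_lit 1240904), (nat_lit 0), (nat_lit 7356094)]) (PF.cons PF.nil PF.nil)) (PF.cons PF.nil PF.nil)))))) (PF.cons (PF.cons (PF.cons (PF.leaf (nat_lit 3425861) (nat_lit 1679335) (nat_lit 55289931) (nat_lit 1679335) [(nat_lit 0), (nat_lit 0), (nat_lit 2903789), (nat_lit 7235756)]) (PF.cons (PF.leaf (nat_lit 3603418) (nat_lit 252207) (nat_lit 54979843) (nat_lit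
 1698198) [(nat_lit 252207), (nat_lit 0), (nat_lit 2925055), (nat_lit 7253507)]) (PF.cons (PF.leaf (nat_lit 3793981) (nat_lit 261097) (nat_lit 54652142) (nat_lit 1717032) [(nat_lit 261097), (nat_lit 0), (nat_lit 2946430), (nat_lit 7271012)]) (PF.cons (PF.leaf (nat_lit 3994437) (nat_lit 269298) (nat_lit 54309699) (nat_lit 1735622) [(nat_lit 269298), (nat_lit 0), (nat_lit 2967629), (nat_lit 7287966)]) (PF.cons PF.nil PF.nil))))) (PF.cons (PF.cons (PF.leaf (nat_lit 4039425) (nat_lit 1185101) (nat_lit 53888014) (nat_lit 1748610) [(nat_lit 0), (nat_lit 1185101), (nat_lit 2985109), (nat_lit 7301976)]) (PF.cons (PF.leaf (nat_lit 4237306) (nat_lit 275737) (nat_lit 53547893) (nat_lit 1765367) [(nat_lit 275737), (nat_lit 1199823), (nat_lit 3004032), (nat_lit 7315957)]) (PF.cons (PF.leaf (nat_lit 4445564) (nat_lit 283147) (nat_lit 53194675) (nat_lit 1781826) [(nat_lit 283147), (nat_lit 1214196), (nat_lit 3022647), (nat_lit 7329171)]) (PF.cons PF.nil PF.nil))))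 (PF.cons (PF.cons (PF.leaf (nat_lit 4689014) (nat_lit 1234646) (nat_lit 52430643) (nat_lit 1807180) [(nat_lit 0), (nat_lit 1234646), (nat_lit 3053158), (nat_lit 7348536)]) (PF.cons (PF.leaf (nat_lit 4902629) (nat_lit 295368) (nat_lit
 52069877) (nat_lit 1821643) [(nat_lit 295368), (nat_lit 1247342), (nat_lit 3069251), (nat_lit 7357986)]) PF.nil)) (PF.cons PF.nil (PF.cons PF.nil PF.nil))))) (PF.cons (PF.cons (PF.cons (PF.leaf (nat_lit 4634704) (nat_lit 1801941) (nat_lit 51865385) (nat_lit 1801941) [(nat_lit 0), (nat_lit 0), (nat_lit 3050929), (nat_lit 7339625)]) (PF.cons (PF.leaf (nat_lit 4836224) (nat_lit 287804) (nat_lit 51526618) (nat_lit 1815787) [(nat_lit 287804), (nat_lit 0), (nat_lit 3065715), (nat_lit 7347172)]) (PF.cons (PF.leaf (nat_lit 5047379) (nat_lit 294721) (nat_lit 51175931) (nat_lit 1829306) [(nat_lit 294721), (nat_lit 0), (nat_lit 3080141), (nat_lit 7353849)]) (PF.cons PF.nil PF.nil)))) (PF.cons (PF.cons (PF.leaf (nat_lit 5284922)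 (nat_lit 1268226) (nat_lit 50427420) (nat_lit 1848866) [(nat_lit 0), (nat_lit 1268226), (nat_lit 3102226), (nat_lit 7359848)]) (PF.cons PF.nil PF.nil)) (PF.cons PF.nil PF.nil))) (PF.cons (PF.cons (PF.cons (PF.leaf (nat_lit 5863001) (nat_lit 1878396) (nat_lit 48489494) (nat_lit 1878396) [(nat_lit 0), (nat_lit 0), (nat_lit 3133139), (nat_lit 7341504)]) (PF.cons PF.nil PF.nil)) (PF.cons PF.nil PF.nil)) (PF.cons PF.nil PF.nil))))) (PF.cons (PF.cons (PF.cons (PF.cons
 (PF.leaf (nat_lit 4322325) (nat_lit 1741130) (nat_lit 50872452) (nat_lit 1741130) [(nat_lit 0), (nat_lit 0), (nat_lit 0), (nat_lit 7247614)]) (PF.cons (PF.leaf (nat_lit 4500560) (nat_lit 264164) (nat_lit 50580210) (nat_lit 1755983) [(nat_lit 264164), (nat_lit 0), (nat_lit 0), (nat_lit 7254227)]) (PF.cons (PF.leaf (nat_lit 4690885) (nat_lit 272594) (nat_lit 50272418) (nat_lit 1770650) [(nat_lit 272594), (nat_lit 0), (nat_lit 0), (nat_lit 7260277)]) (PF.cons (PF.leaf (nat_lit 4890318) (nat_lit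 280257) (nat_lit 49951864) (nat_lit 1784970) [(nat_lit 280257), (nat_lit 0), (nat_lit 0), (nat_lit 7265602)]) (PF.cons (PF.leaf (nat_lit 5097651) (nat_lit 287288) (nat_lit 49620654) (nat_lit 1798839) [(nat_lit 287288), (nat_lit 0), (nat_lit 0), (nat_lit 7270083)]) (PF.cons PF.nil (PF.cons PF.nil PF.nil))))))) (PF.cons (PF.cons (PF.leaf (nat_lit 4923143) (nat_lit 1220225) (nat_lit 49563197) (nat_lit 1792940) [(nat_lit 0), (nat_lit 1220225), (nat_lit 0), (nat_lit 7266224)]) (PF.cons (PF.leaf (nat_lit 5119097) (nat_lit 285167) (nat_lit 49246907) (nat_lit 1805696) [(nat_lit 285167), (nat_lit 1232175), (nat_lit 0), (nat_lit 7269432)]) (PF.cons (PF.leaf (nat_lit 5324578) (nat_lit 292000) (nat_lit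
 48919401) (nat_lit 1818092) [(nat_lit 292000), (nat_lit 1243715), (nat_lit 0), (nat_lit 7271801)]) (PF.cons PF.nil (PF.cons PF.nil PF.nil))))) (PF.cons (PF.cons (PF.leaf (nat_lit 5552370) (nat_lit 1258321) (nat_lit 48218183) (nat_lit 1835189) [(nat_lit 0), (nat_lit 1258321), (nat_lit 0), (nat_lit 7269398)]) (PF.cons (PF.leaf (nat_lit 5761658) (nat_lit 302188) (nat_lit 47886383) (nat_lit 1845835) [(nat_lit 302188), (nat_lit 1268327), (nat_lit 0), (nat_lit 7268875)]) (PF.cons PF.nil (PF.cons PF.nil PF.nil)))) (PF.cons (PF.cons (PF.leaf (nat_lit 6200698) (nat_lit 1289022) (nat_lit 46858155) (nat_lit 1868765) [(nat_lit 0), (nat_lit 1289022), (nat_lit 0), (nat_lit 7257413)]) (PF.cons PF.nil PF.nil)) (PF.cons PF.nil PF.nil))))) (PF.cons (PF.cons (PF.cons (PF.leaf (nat_lit 5478952) (nat_lit 1825811) (nat_lit 47716761) (nat_lit 1825811) [(nat_lit 0), (nat_lit 0), (nat_lit 3069452), (nat_lit 7248393)]) (PF.cons (PF.leaf (nat_lit 5676708) (nat_lit 293898) (nat_lit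 47405665) (nat_lit 1836209) [(nat_lit 293898), (nat_lit 0), (nat_lit 3078944), (nat_lit 7247047)]) (PF.cons (PF.leaf (nat_lit 5883457) (nat_lit 300268) (nat_lit 47084358) (nat_lit 1846242) [(nat_lit 300268), (nat_lit 0), (nat_lit
 3088042), (nat_lit 7244815)]) (PF.cons PF.nil PF.nil)))) (PF.cons (PF.cons (PF.leaf (nat_lit 6104686) (nat_lit 1279171) (nat_lit 46404456) (nat_lit 1858898) [(nat_lit 0), (nat_lit 1279171), (nat_lit 3099624), (nat_lit 7233331)]) (PF.cons (PF.leaf (nat_lit 6314305) (nat_lit 309094) (nat_lit 46080844) (nat_lit 1867383) [(nat_lit 309094), (nat_lit 1287523), (nat_lit 3106888), (nat_lit 7228539)]) PF.nil)) (PF.cons PF.nil PF.nil))) (PF.cons (PF.cons (PF.cons (PF.leaf (nat_lit 6639196) (nat_lit 1873683) (nat_lit 44663162) (nat_lit 1873683) [(nat_lit 0), (nat_lit 0), (nat_lit 3108072), (nat_lit 7177910)]) (PF.cons PF.nil PF.nil)) (PF.cons PF.nil PF.nil)) PF.nil))) (PF.cons (PF.cons (PF.cons (PF.cons (PF.leaf (nat_lit 6237943) (nat_lit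 1823737) (nat_lit 44021033) (nat_lit 1823737) [(nat_lit 0), (nat_lit 0), (nat_lit 0), (nat_lit 7088013)]) (PF.cons (PF.leaf (nat_lit 6430809) (nat_lit 295717) (nat_lit 43738630) (nat_lit 1831581) [(nat_lit 295717), (nat_lit 0), (nat_lit 0), (nat_lit 7080961)]) (PF.cons (PF.leaf (nat_lit 6631951) (nat_lit 301620) (nat_lit 43447401) (nat_lit 1839046) [(nat_lit 301620), (nat_lit 0), (nat_lit 0), (nat_lit 7073041)]) (PF.cons PF.nil PF.nil)))) (PF.cons (PF.cons
 (PF.leaf (nat_lit 6838285) (nat_lit 1274401) (nat_lit 42835441) (nat_lit 1846800) [(nat_lit 0), (nat_lit 1274401), (nat_lit 0), (nat_lit 7050723)]) (PF.cons PF.nil PF.nil)) (PF.cons PF.nil PF.nil))) (PF.cons (PF.cons (PF.cons (PF.leaf (nat_lit 7334205) (nat_lit 1851523) (nat_lit 41280365) (nat_lit 1851523) [(nat_lit 0), (nat_lit 0), (nat_lit 3056619), (nat_lit 6973434)]) (PF.cons PF.nil PF.nil)) PF.nil) PF.nil)) (PF.cons PF.nil (PF.cons PF.nil (PF.cons PF.nil (PF.cons PF.nil PF.nil))))))))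

def p13_7_0_0 : pfC (piC [(nat_lit 44228488), (nat_lit 27646207), (nat_lit 20402210), (nat_lit 13743659)] (nat_lit 31465553)) p13_7_0 (nat_lit 4) (nat_lit 0) (nat_lit 1) = true := by decide +kernel
def p13_7_0_1 : pfC (piC [(nat_lit 44228488), (nat_lit 27646207), (nat_lit 20402210), (nat_lit 13743659)] (nat_lit 31465553)) p13_7_0 (nat_lit 4) (nat_lit 1) (nat_lit 2) = true := by decide +kernel
def p13_7_0_2 : pfC (piC [(nat_lit 44228488), (nat_lit 27646207), (nat_lit 20402210), (nat_lit 13743659)] (nat_lit 31465553)) p13_7_0 (nat_lit 4) (nat_lit 2) (nat_lit 3) = true := by decide +kernel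
def p13_7_0_3 : pfC (piC [(nat_lit 44228488), (nat_lit 27646207), (nat_lit 20402210), (nat_lit 13743659)] (nat_lit 31465553)) p13_7_0 (nat_lit 4) (nat_lit 3) (nat_lit 4) = true := by decide +kernel
def p13_7_0_4 : pfC (piC [(nat_lit 44228488), (nat_lit 27646207), (nat_lit 20402210), (nat_lit 13743659)] (nat_lit 31465553)) p13_7_0 (nat_lit 4) (nat_lit 4) (nat_lit 5) = true := by decide +kernel
def p13_7_0_5 : pfC (piC [(nat_lit 44228488), (nat_lit 27646207), (nat_lit 20402210), (nat_lit 13743659)] (nat_lit 31465553)) p13_7_0 (nat_lit 4) (nat_lit 5) (nat_lit 6) = true := by decide +kernel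
def p13_7_0_6 : pfC (piC [(nat_lit 44228488), (nat_lit 27646207), (nat_lit 20402210), (nat_lit 13743659)] (nat_lit 31465553)) p13_7_0 (nat_lit 4) (nat_lit 6) (nat_lit 7) = true := by decide +kernel
def p13_7_0_7 : pfC (piC [(nat_lit 44228488), (nat_lit 27646207), (nat_lit 20402210), (nat_lit 13743659)] (nat_lit 31465553)) p13_7_0 (nat_lit 4) (nat_lit 7) (nat_lit 8) = true := by decide +kernel
def p13_7_0_8 : pfC (piC [(nat_lit 44228488), (nat_lit 27646207), (nat_lit 20402210), (nat_lit 13743659)] (nat_lit 31465553)) p13_7_0 (nat_lit 4) (nat_lit 8) (nat_lit 9) = true := by decide +kernel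
def p13_7_0_9 : pfC (piC [(nat_lit 44228488), (nat_lit 27646207), (nat_lit 20402210), (nat_lit 13743659)] (nat_lit 31465553)) p13_7_0 (nat_lit 4) (nat_lit 9) (nat_lit 10) = true := by decide +kernel
def p13_7_0_10 : pfC (piC [(nat_lit 44228488), (nat_lit 27646207), (nat_lit 20402210), (nat_lit 13743659)] (nat_lit 31465553)) p13_7_0 (nat_lit 4) (nat_lit 10) (nat_lit 11) = true := by decide +kernel
def p13_7_0_11 : pfC (piC [(nat_lit 44228488), (nat_lit 27646207), (nat_lit 20402210), (nat_lit 13743659)] (nat_lit 31465553)) p13_7_0 (nat_lit 4) (nat_lit 11) (nat_lit 12) = true := by decide +kernel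
def p13_7_0_12 : pfC (piC [(nat_lit 44228488), (nat_lit 27646207), (nat_lit 20402210), (nat_lit 13743659)] (nat_lit 31465553)) p13_7_0 (nat_lit 4) (nat_lit 12) (nat_lit 13) = true := by decide +kernel
def p13_7_0_13 : pfC (piC [(nat_lit 44228488), (nat_lit 27646207), (nat_lit 20402210), (nat_lit 13743659)] (nat_lit 31465553)) p13_7_0 (nat_lit 4) (nat_lit 13) (nat_lit 14) = true := by decide +kernel
def p13_7_0_14 : pfC (piC [(nat_lit 44228488), (nat_lit 27646207), (nat_lit 20402210), (nat_lit 13743659)] (nat_lit 31465553)) p13_7_0 (nat_lit 4) (nat_lit 14) (nat_lit 15) = true := by decide +kernel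
def p13_7_0_15 : pfC (piC [(nat_lit 44228488), (nat_lit 27646207), (nat_lit 20402210), (nat_lit 13743659)] (nat_lit 31465553)) p13_7_0 (nat_lit 4) (nat_lit 15) (nat_lit 16) = true := by decide +kernel
def p13_7_0_16 : pfC (piC [(nat_lit 44228488), (nat_lit 27646207), (nat_lit 20402210), (nat_lit 13743659)] (nat_lit 31465553)) p13_7_0 (nat_lit 4) (nat_lit 16) (nat_lit 17) = true := by decide +kernel
def p13_7_0_17 : pfC (piC [(nat_lit 44228488), (nat_lit 27646207), (nat_lit 20402210), (nat_lit 13743659)] (nat_lit 31465553)) p13_7_0 (nat_lit 4) (nat_lit 17) (nat_lit 18) = true := by decide +kernel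
def p13_7_0_18 : pfC (piC [(nat_lit 44228488), (nat_lit 27646207), (nat_lit 20402210), (nat_lit 13743659)] (nat_lit 31465553)) p13_7_0 (nat_lit 4) (nat_lit 18) (nat_lit 19) = true := by decide +kernel
def p13_7_0_19 : pfC (piC [(nat_lit 44228488), (nat_lit 27646207), (nat_lit 20402210), (nat_lit 13743659)] (nat_lit 31465553)) p13_7_0 (nat_lit 4) (nat_lit 19) (nat_lit 20) = true := by decide +kernel
def p13_7_0_20 : pfC (piC [(nat_lit 44228488), (nat_lit 27646207), (nat_lit 20402210), (nat_lit 13743659)] (nat_lit 31465553)) p13_7_0 (nat_lit 4) (nat_lit 20) (nat_lit 21) = true := by decide +kernel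
def p13_7_0_21 : pfC (piC [(nat_lit 44228488), (nat_lit 27646207), (nat_lit 20402210), (nat_lit 13743659)] (nat_lit 31465553)) p13_7_0 (nat_lit 4) (nat_lit 21) (nat_lit 22) = true := by decide +kernel
def p13_7_0_22 : pfC (piC [(nat_lit 44228488), (nat_lit 27646207), (nat_lit 20402210), (nat_lit 13743659)] (nat_lit 31465553)) p13_7_0 (nat_lit 4) (nat_lit 22) (nat_lit 23) = true := by decide +kernel
def p13_7_0_23 : pfC (piC [(nat_lit 44228488), (nat_lit 27646207), (nat_lit 20402210), (nat_lit 13743659)] (nat_lit 31465553)) p13_7_0 (nat_lit 4) (nat_lit 23) (nat_lit 24) = true := by decide +kernel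
def p13_7_0_24 : pfC (piC [(nat_lit 44228488), (nat_lit 27646207), (nat_lit 20402210), (nat_lit 13743659)] (nat_lit 31465553)) p13_7_0 (nat_lit 4) (nat_lit 24) (nat_lit 25) = true := by decide +kernel
def p13_7_0_25 : pfC (piC [(nat_lit 44228488), (nat_lit 27646207), (nat_lit 20402210), (nat_lit 13743659)] (nat_lit 31465553)) p13_7_0 (nat_lit 4) (nat_lit 25) (nat_lit 26) = true := by decide +kernel
def p13_7_0_26 : pfC (piC [(nat_lit 44228488), (nat_lit 27646207), (nat_lit 20402210), (nat_lit 13743659)] (nat_lit 31465553)) p13_7_0 (nat_lit 4) (nat_lit 26) (nat_lit 27) = true := by decide +kernel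
def p13_7_0_27 : pfC (piC [(nat_lit 44228488), (nat_lit 27646207), (nat_lit 20402210), (nat_lit 13743659)] (nat_lit 31465553)) p13_7_0 (nat_lit 4) (nat_lit 27) (nat_lit 28) = true := by decide +kernel
def p13_7_0_28 : pfC (piC [(nat_lit 44228488), (nat_lit 27646207), (nat_lit 20402210), (nat_lit 13743659)] (nat_lit 31465553)) p13_7_0 (nat_lit 4) (nat_lit 28) (nat_lit 29) = true := by decide +kernel
def p13_7_0_29 : pfC (piC [(nat_lit 44228488), (nat_lit 27646207), (nat_lit 20402210), (nat_lit 13743659)] (nat_lit 31465553)) p13_7_0 (nat_lit 4) (nat_lit 29) (nat_lit 30) = true := by decide +kernel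
def p13_7_0_30 : pfC (piC [(nat_lit 44228488), (nat_lit 27646207), (nat_lit 20402210), (nat_lit 13743659)] (nat_lit 31465553)) p13_7_0 (nat_lit 4) (nat_lit 30) (nat_lit 31) = true := by decide +kernel
def p13_7_0_31 : pfC (piC [(nat_lit 44228488), (nat_lit 27646207), (nat_lit 20402210), (nat_lit 13743659)] (nat_lit 31465553)) p13_7_0 (nat_lit 4) (nat_lit 31) (nat_lit 32) = true := by decide +kernel
def p13_7_0_32 : pfC (piC [(nat_lit 44228488), (nat_lit 27646207), (nat_lit 20402210), (nat_lit 13743659)] (nat_lit 31465553)) p13_7_0 (nat_lit 4) (nat_lit 32) (nat_lit 33) = true := by decide +kernel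
def p13_7_0_33 : pfC (piC [(nat_lit 44228488), (nat_lit 27646207), (nat_lit 20402210), (nat_lit 13743659)] (nat_lit 31465553)) p13_7_0 (nat_lit 4) (nat_lit 33) (nat_lit 34) = true := by decide +kernel
def p13_7_0_34 : pfC (piC [(nat_lit 44228488), (nat_lit 27646207), (nat_lit 20402210), (nat_lit 13743659)] (nat_lit 31465553)) p13_7_0 (nat_lit 4) (nat_lit 34) (nat_lit 35) = true := by decide +kernel
def p13_7_0_35 : pfC (piC [(nat_lit 44228488), (nat_lit 27646207), (nat_lit 20402210), (nat_lit 13743659)] (nat_lit 31465553)) p13_7_0 (nat_lit 4) (nat_lit 35) (nat_lit 36) = true := by decide +kernel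
def p13_7_0_36 : pfC (piC [(nat_lit 44228488), (nat_lit 27646207), (nat_lit 20402210), (nat_lit 13743659)] (nat_lit 31465553)) p13_7_0 (nat_lit 4) (nat_lit 36) (nat_lit 37) = true := by decide +kernel
def p13_7_0_37 : pfC (piC [(nat_lit 44228488), (nat_lit 27646207), (nat_lit 20402210), (nat_lit 13743659)] (nat_lit 31465553)) p13_7_0 (nat_lit 4) (nat_lit 37) (nat_lit 38) = true := by decide +kernel
def p13_7_0_38 : pfC (piC [(nat_lit 44228488), (nat_lit 27646207), (nat_lit 20402210), (nat_lit 13743659)] (nat_lit 31465553)) p13_7_0 (nat_lit 4) (nat_lit 38) (nat_lit 39) = true := by decide +kernel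
def p13_7_0_39 : pfC (piC [(nat_lit 44228488), (nat_lit 27646207), (nat_lit 20402210), (nat_lit 13743659)] (nat_lit 31465553)) p13_7_0 (nat_lit 4) (nat_lit 39) (nat_lit 40) = true := by decide +kernel
def p13_7_0_40 : pfC (piC [(nat_lit 44228488), (nat_lit 27646207), (nat_lit 20402210), (nat_lit 13743659)] (nat_lit 31465553)) p13_7_0 (nat_lit 4) (nat_lit 40) (nat_lit 41) = true := by decide +kernel
def p13_7_0_41 : pfC (piC [(nat_lit 44228488), (nat_lit 27646207), (nat_lit 20402210), (nat_lit 13743659)] (nat_lit 31465553)) p13_7_0 (nat_lit 4) (nat_lit 41) (nat_lit 42) = true := by decide +kernel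
def p13_7_0_42 : pfC (piC [(nat_lit 44228488), (nat_lit 27646207), (nat_lit 20402210), (nat_lit 13743659)] (nat_lit 31465553)) p13_7_0 (nat_lit 4) (nat_lit 42) (nat_lit 43) = true := by decide +kernel
def p13_7_0_43 : pfC (piC [(nat_lit 44228488), (nat_lit 27646207), (nat_lit 20402210), (nat_lit 13743659)] (nat_lit 31465553)) p13_7_0 (nat_lit 4) (nat_lit 43) (nat_lit 44) = true := by decide +kernel
def p13_7_0_44 : pfC (piC [(nat_lit 44228488), (nat_lit 27646207), (nat_lit 20402210), (nat_lit 13743659)] (nat_lit 31465553)) p13_7_0 (nat_lit 4) (nat_lit 44) (nat_lit 45) = true := by decide +kernel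
def p13_7_0_45 : pfC (piC [(nat_lit 44228488), (nat_lit 27646207), (nat_lit 20402210), (nat_lit 13743659)] (nat_lit 31465553)) p13_7_0 (nat_lit 4) (nat_lit 45) (nat_lit 46) = true := by decide +kernel
def p13_7_0_46 : pfC (piC [(nat_lit 44228488), (nat_lit 27646207), (nat_lit 20402210), (nat_lit 13743659)] (nat_lit 31465553)) p13_7_0 (nat_lit 4) (nat_lit 46) (nat_lit 47) = true := by decide +kernel
def p13_7_0_47 : pfC (piC [(nat_lit 44228488), (nat_lit 27646207), (nat_lit 20402210), (nat_lit 13743659)] (nat_lit 31465553)) p13_7_0 (nat_lit 4) (nat_lit 47) (nat_lit 48) = true := by decide +kernel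
def p13_7_0_48 : pfC (piC [(nat_lit 44228488), (nat_lit 27646207), (nat_lit 20402210), (nat_lit 13743659)] (nat_lit 31465553)) p13_7_0 (nat_lit 4) (nat_lit 48) (nat_lit 49) = true := by decide +kernel
def p13_7_0_49 : pfC (piC [(nat_lit 44228488), (nat_lit 27646207), (nat_lit 20402210), (nat_lit 13743659)] (nat_lit 31465553)) p13_7_0 (nat_lit 4) (nat_lit 49) (nat_lit 50) = true := by decide +kernel
def p13_7_0_50 : pfC (piC [(nat_lit 44228488), (nat_lit 27646207), (nat_lit 20402210), (nat_lit 13743659)] (nat_lit 31465553)) p13_7_0 (nat_lit 4) (nat_lit 50) (nat_lit 51) = true := by decide +kernel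
def p13_7_0_51 : pfC (piC [(nat_lit 44228488), (nat_lit 27646207), (nat_lit 20402210), (nat_lit 13743659)] (nat_lit 31465553)) p13_7_0 (nat_lit 4) (nat_lit 51) (nat_lit 52) = true := by decide +kernel
def p13_7_0_52 : pfC (piC [(nat_lit 44228488), (nat_lit 27646207), (nat_lit 20402210), (nat_lit 13743659)] (nat_lit 31465553)) p13_7_0 (nat_lit 4) (nat_lit 52) (nat_lit 53) = true := by decide +kernel
def p13_7_0_53 : pfC (piC [(nat_lit 44228488), (nat_lit 27646207), (nat_lit 20402210), (nat_lit 13743659)] (nat_lit 31465553)) p13_7_0 (nat_lit 4) (nat_lit 53) (nat_lit 54) = true := by decide +kernel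
def p13_7_0_54 : pfC (piC [(nat_lit 44228488), (nat_lit 27646207), (nat_lit 20402210), (nat_lit 13743659)] (nat_lit 31465553)) p13_7_0 (nat_lit 4) (nat_lit 54) (nat_lit 55) = true := by decide +kernel
def p13_7_0_55 : pfC (piC [(nat_lit 44228488), (nat_lit 27646207), (nat_lit 20402210), (nat_lit 13743659)] (nat_lit 31465553)) p13_7_0 (nat_lit 4) (nat_lit 55) (nat_lit 56) = true := by decide +kernel
def p13_7_0_56 : pfC (piC [(nat_lit 44228488), (nat_lit 27646207), (nat_lit 20402210), (nat_lit 13743659)] (nat_lit 31465553)) p13_7_0 (nat_lit 4) (nat_lit 56) (nat_lit 57) = true := by decide +kernel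
def p13_7_0_57 : pfC (piC [(nat_lit 44228488), (nat_lit 27646207), (nat_lit 20402210), (nat_lit 13743659)] (nat_lit 31465553)) p13_7_0 (nat_lit 4) (nat_lit 57) (nat_lit 58) = true := by decide +kernel
def p13_7_0_58 : pfC (piC [(nat_lit 44228488), (nat_lit 27646207), (nat_lit 20402210), (nat_lit 13743659)] (nat_lit 31465553)) p13_7_0 (nat_lit 4) (nat_lit 58) (nat_lit 59) = true := by decide +kernel
def p13_7_0_59 : pfC (piC [(nat_lit 44228488), (nat_lit 27646207), (nat_lit 20402210), (nat_lit 13743659)] (nat_lit 31465553)) p13_7_0 (nat_lit 4) (nat_lit 59) (nat_lit 60) = true := by decide +kernel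
def p13_7_0_60 : pfC (piC [(nat_lit 44228488), (nat_lit 27646207), (nat_lit 20402210), (nat_lit 13743659)] (nat_lit 31465553)) p13_7_0 (nat_lit 4) (nat_lit 60) (nat_lit 61) = true := by decide +kernel
def p13_7_0_61 : pfC (piC [(nat_lit 44228488), (nat_lit 27646207), (nat_lit 20402210), (nat_lit 13743659)] (nat_lit 31465553)) p13_7_0 (nat_lit 4) (nat_lit 61) (nat_lit 62) = true := by decide +kernel
def p13_7_0_62 : pfC (piC [(nat_lit 44228488), (nat_lit 27646207), (nat_lit 20402210), (nat_lit 13743659)] (nat_lit 31465553)) p13_7_0 (nat_lit 4) (nat_lit 62) (nat_lit 63) = true := by decide +kernel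
def p13_7_0_63 : pfC (piC [(nat_lit 44228488), (nat_lit 27646207), (nat_lit 20402210), (nat_lit 13743659)] (nat_lit 31465553)) p13_7_0 (nat_lit 4) (nat_lit 63) (nat_lit 64) = true := by decide +kernel
def p13_7_0_64 : pfC (piC [(nat_lit 44228488), (nat_lit 27646207), (nat_lit 20402210), (nat_lit 13743659)] (nat_lit 31465553)) p13_7_0 (nat_lit 4) (nat_lit 64) (nat_lit 65) = true := by decide +kernel
def p13_7_0_65 : pfC (piC [(nat_lit 44228488), (nat_lit 27646207), (nat_lit 20402210), (nat_lit 13743659)] (nat_lit 31465553)) p13_7_0 (nat_lit 4) (nat_lit 65) (nat_lit 66) = true := by decide +kernel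
def p13_7_0_66 : pfC (piC [(nat_lit 44228488), (nat_lit 27646207), (nat_lit 20402210), (nat_lit 13743659)] (nat_lit 31465553)) p13_7_0 (nat_lit 4) (nat_lit 66) (nat_lit 67) = true := by decide +kernel
def p13_7_0_67 : pfC (piC [(nat_lit 44228488), (nat_lit 27646207), (nat_lit 20402210), (nat_lit 13743659)] (nat_lit 31465553)) p13_7_0 (nat_lit 4) (nat_lit 67) (nat_lit 68) = true := by decide +kernel
def p13_7_0_68 : pfC (piC [(nat_lit 44228488), (nat_lit 27646207), (nat_lit 20402210), (nat_lit 13743659)] (nat_lit 31465553)) p13_7_0 (nat_lit 4) (nat_lit 68) (nat_lit 69) = true := by decide +kernel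
def p13_7_0_69 : pfC (piC [(nat_lit 44228488), (nat_lit 27646207), (nat_lit 20402210), (nat_lit 13743659)] (nat_lit 31465553)) p13_7_0 (nat_lit 4) (nat_lit 69) (nat_lit 70) = true := by decide +kernel
def p13_7_0_70 : pfC (piC [(nat_lit 44228488), (nat_lit 27646207), (nat_lit 20402210), (nat_lit 13743659)] (nat_lit 31465553)) p13_7_0 (nat_lit 4) (nat_lit 70) (nat_lit 71) = true := by decide +kernel
def p13_7_0_71 : pfC (piC [(nat_lit 44228488), (nat_lit 27646207), (nat_lit 20402210), (nat_lit 13743659)] (nat_lit 31465553)) p13_7_0 (nat_lit 4) (nat_lit 71) (nat_lit 72) = true := by decide +kernel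
def p13_7_0_72 : pfC (piC [(nat_lit 44228488), (nat_lit 27646207), (nat_lit 20402210), (nat_lit 13743659)] (nat_lit 31465553)) p13_7_0 (nat_lit 4) (nat_lit 72) (nat_lit 73) = true := by decide +kernel
def p13_7_0_73 : pfC (piC [(nat_lit 44228488), (nat_lit 27646207), (nat_lit 20402210), (nat_lit 13743659)] (nat_lit 31465553)) p13_7_0 (nat_lit 4) (nat_lit 73) (nat_lit 74) = true := by decide +kernel
def p13_7_0_74 : pfC (piC [(nat_lit 44228488), (nat_lit 27646207), (nat_lit 20402210), (nat_lit 13743659)] (nat_lit 31465553)) p13_7_0 (nat_lit 4) (nat_lit 74) (nat_lit 75) = true := by decide +kernel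
def p13_7_0_75 : pfC (piC [(nat_lit 44228488), (nat_lit 27646207), (nat_lit 20402210), (nat_lit 13743659)] (nat_lit 31465553)) p13_7_0 (nat_lit 4) (nat_lit 75) (nat_lit 76) = true := by decide +kernel
def p13_7_0_76 : pfC (piC [(nat_lit 44228488), (nat_lit 27646207), (nat_lit 20402210), (nat_lit 13743659)] (nat_lit 31465553)) p13_7_0 (nat_lit 4) (nat_lit 76) (nat_lit 77) = true := by decide +kernel
def p13_7_0_77 : pfC (piC [(nat_lit 44228488), (nat_lit 27646207), (nat_lit 20402210), (nat_lit 13743659)] (nat_lit 31465553)) p13_7_0 (nat_lit 4) (nat_lit 77) (nat_lit 78) = true := by decide +kernel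
def p13_7_0_78 : pfC (piC [(nat_lit 44228488), (nat_lit 27646207), (nat_lit 20402210), (nat_lit 13743659)] (nat_lit 31465553)) p13_7_0 (nat_lit 4) (nat_lit 78) (nat_lit 79) = true := by decide +kernel
def p13_7_0_79 : pfC (piC [(nat_lit 44228488), (nat_lit 27646207), (nat_lit 20402210), (nat_lit 13743659)] (nat_lit 31465553)) p13_7_0 (nat_lit 4) (nat_lit 79) (nat_lit 80) = true := by decide +kernel
def p13_7_0_80 : pfC (piC [(nat_lit 44228488), (nat_lit 27646207), (nat_lit 20402210), (nat_lit 13743659)] (nat_lit 31465553)) p13_7_0 (nat_lit 4) (nat_lit 80) (nat_lit 81) = true := by decide +kernel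
def p13_7_0_81 : pfC (piC [(nat_lit 44228488), (nat_lit 27646207), (nat_lit 20402210), (nat_lit 13743659)] (nat_lit 31465553)) p13_7_0 (nat_lit 4) (nat_lit 81) (nat_lit 82) = true := by decide +kernel
def p13_7_0_82 : pfC (piC [(nat_lit 44228488), (nat_lit 27646207), (nat_lit 20402210), (nat_lit 13743659)] (nat_lit 31465553)) p13_7_0 (nat_lit 4) (nat_lit 82) (nat_lit 83) = true := by decide +kernel
theorem p13_7_0_T : PfS (PiF n13_7.reverse (nat_lit 31465553)) p13_7_0 (nat_lit 4) [] 0 :=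
  pftab_of (los := [(nat_lit 44228488), (nat_lit 27646207), (nat_lit 20402210), (nat_lit 13743659)]) (by decide +kernel) (hi := (nat_lit 83)) (PfP.trans (PfP.trans (PfP.trans (PfP.trans (PfP.trans (PfP.trans (PfP.trans (PfP.trans (PfP.trans (PfP.trans (PfP.trans (PfP.trans (PfP.trans (PfP.trans (PfP.trans (PfP.trans (PfP.trans (PfP.trans (PfP.trans (PfP.trans (PfP.trans (PfP.trans (PfP.trans (PfP.trans (PfP.trans (PfP.trans (PfP.trans (PfP.trans (PfP.trans (PfP.trans (PfP.trans (PfP.trans (PfP.trans (PfP.trans (PfP.trans (PfP.trans (PfP.trans (PfP.trans (PfP.trans (PfP.trans (PfP.trans (PfP.trans (PfP.trans (PfP.trans (PfP.trans (PfP.trans (PfP.trans (PfP.trans (PfP.trans (PfP.trans (PfP.trans (PfP.trans (PfP.trans (PfP.trans (PfP.trans (PfP.trans (PfP.trans (PfP.trans (PfP.trans (PfP.trans (PfP.trans (PfP.trans (PfP.trans (PfP.trans (PfP.trans (PfP.trans (PfP.trans (PfP.trans (PfP.trans (PfP.trans (PfP.trans (PfP.trans (PfP.trans (PfP.trans (PfP.trans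 (PfP.trans (PfP.trans (PfP.trans (PfP.trans (PfP.trans (PfP.trans (PfP.trans (pfC_sound p13_7_0_0) (pfC_sound p13_7_0_1)) (pfC_sound p13_7_0_2)) (pfC_sound p13_7_0_3)) (pfC_sound p13_7_0_4)) (pfC_sound p13_7_0_5)) (pfC_sound p13_7_0_6)) (pfC_sound p13_7_0_7)) (pfC_sound p13_7_0_8)) (pfC_sound p13_7_0_9)) (pfC_sound p13_7_0_10)) (pfC_sound p13_7_0_11)) (pfC_sound
 p13_7_0_12)) (pfC_sound p13_7_0_13)) (pfC_sound p13_7_0_14)) (pfC_sound p13_7_0_15)) (pfC_sound p13_7_0_16)) (pfC_sound p13_7_0_17)) (pfC_sound p13_7_0_18)) (pfC_sound p13_7_0_19)) (pfC_sound p13_7_0_20)) (pfC_sound p13_7_0_21)) (pfC_sound p13_7_0_22)) (pfC_sound p13_7_0_23)) (pfC_sound p13_7_0_24)) (pfC_sound p13_7_0_25)) (pfC_sound p13_7_0_26)) (pfC_sound p13_7_0_27)) (pfC_sound p13_7_0_28)) (pfC_sound p13_7_0_29)) (pfC_sound p13_7_0_30)) (pfC_sound p13_7_0_31)) (pfC_sound p13_7_0_32)) (pfC_sound p13_7_0_33)) (pfC_sound p13_7_0_34)) (pfC_sound p13_7_0_35)) (pfC_sound p13_7_0_36)) (pfC_sound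 p13_7_0_37)) (pfC_sound p13_7_0_38)) (pfC_sound p13_7_0_39)) (pfC_sound p13_7_0_40)) (pfC_sound p13_7_0_41)) (pfC_sound p13_7_0_42)) (pfC_sound p13_7_0_43)) (pfC_sound p13_7_0_44)) (pfC_sound p13_7_0_45)) (pfC_sound p13_7_0_46)) (pfC_sound p13_7_0_47)) (pfC_sound p13_7_0_48)) (pfC_sound p13_7_0_49)) (pfC_sound p13_7_0_50)) (pfC_sound p13_7_0_51)) (pfC_sound p13_7_0_52)) (pfC_sound p13_7_0_53)) (pfC_sound p13_7_0_54)) (pfC_sound p13_7_0_55)) (pfC_sound p13_7_0_56)) (pfC_sound p13_7_0_57)) (pfC_sound p13_7_0_58)) (pfC_sound p13_7_0_59)) (pfC_sound p13_7_0_60)) (pfC_sound p13_7_0_61)) (pfC_sound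
 p13_7_0_62)) (pfC_sound p13_7_0_63)) (pfC_sound p13_7_0_64)) (pfC_sound p13_7_0_65)) (pfC_sound p13_7_0_66)) (pfC_sound p13_7_0_67)) (pfC_sound p13_7_0_68)) (pfC_sound p13_7_0_69)) (pfC_sound p13_7_0_70)) (pfC_sound p13_7_0_71)) (pfC_sound p13_7_0_72)) (pfC_sound p13_7_0_73)) (pfC_sound p13_7_0_74)) (pfC_sound p13_7_0_75)) (pfC_sound p13_7_0_76)) (pfC_sound p13_7_0_77)) (pfC_sound p13_7_0_78)) (pfC_sound p13_7_0_79)) (pfC_sound p13_7_0_80)) (pfC_sound p13_7_0_81)) (pfC_sound p13_7_0_82)) (by decide +kernel)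

def z13_7_0 : zOK yB13_7 (nat_lit 0) (nat_lit 0) (nat_lit 400) (nat_lit 31465553) (nat_lit 10613167) = true := by decide +kernel
def g13_7_0 : gOK yB13_7.x P13_7 (nat_lit 1427) (q13_7 :: r13_7) (nat_lit 0) (nat_lit 0) (nat_lit 1) (nat_lit 400) (nat_lit 0) (nat_lit 11000000) (nat_lit 12712500) (nat_lit 12712500) [(nat_lit 800), (nat_lit 1400), (nat_lit 1530)] = true := by decide +kernel
def v13_7_0 : ivC P13_7 s13_7 w13_7 n13_7 (nat_lit 4) (nat_lit 5520) (nat_lit 0) (nat_lit 0) f136_1_0 f144_1_0 (nat_lit 1) (nat_lit 400) f136_1_400 f144_1_400 (nat_lit 31465553) (nat_lit 10613167) p13_7_0 = true := by decide +kernel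
def p13_7_1 : PF := (PF.cons (PF.cons (PF.cons (PF.cons (PF.leaf (nat_lit 2089399) (nat_lit 9880668) (nat_lit 57228144) (nat_lit 9880668) [(nat_lit 0), (nat_lit 0), (nat_lit 0), (nat_lit 0)]) (PF.cons (PF.leaf (nat_lit 2190290) (nat_lit 161935) (nat_lit 57052448) (nat_lit 9894428) [(nat_lit 161935), (nat_lit 0), (nat_lit 0), (nat_lit 0)]) (PF.cons (PF.leaf (nat_lit 2314218) (nat_lit 176466) (nat_lit 56846008) (nat_lit 9909872) [(nat_lit 176466), (nat_lit 0), (nat_lit 0), (nat_lit 0)]) (PF.cons (PF.leaf (nat_lit 2453751) (nat_lit 189512) (nat_lit 56613943) (nat_lit 9926331) [(nat_lit 189512), (nat_lit 0), (nat_lit 0), (nat_lit 0)]) (PF.cons (PF.leaf (nat_lit 2606799) (nat_lit 201427) (nat_lit 56359807) (nat_lit 9943294) [(nat_lit 201427), (nat_lit 0), (nat_lit 0), (nat_lit 0)]) (PF.cons PF.nil (PF.cons PF.nil PF.nil))))))) (PF.cons (PF.cons (PF.leaf (nat_lit 2543883) (nat_lit 975156) (nat_lit 56183516) (nat_lit 9950139) [(nat_lit 0), (nat_lit 975156),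 (nat_lit 0), (nat_lit 0)]) (PF.cons (PF.leaf (nat_lit 2681232) (nat_lit 201298) (nat_lit 55946546) (nat_lit 9964248) [(nat_lit 201298), (nat_lit 996719), (nat_lit 0), (nat_lit 0)]) (PF.cons (PF.leaf (nat_lit 2835640) (nat_lit 212693) (nat_lit 55686264)
 (nat_lit 9978720) [(nat_lit 212693), (nat_lit 1018440), (nat_lit 0), (nat_lit 0)]) (PF.cons (PF.leaf (nat_lit 3002858) (nat_lit 223168) (nat_lit 55406238) (nat_lit 9993123) [(nat_lit 223168), (nat_lit 1039946), (nat_lit 0), (nat_lit 0)]) (PF.cons PF.nil PF.nil))))) (PF.cons (PF.cons (PF.leaf (nat_lit 3071666) (nat_lit 1055996) (nat_lit 54988767) (nat_lit 10008052) [(nat_lit 0), (nat_lit 1055996), (nat_lit 0), (nat_lit 0)]) (PF.cons (PF.leaf (nat_lit 3237059) (nat_lit 232560) (nat_lit 54706347) (nat_lit 10019632) [(nat_lit 232560), (nat_lit 1075136), (nat_lit 0), (nat_lit 0)]) (PF.cons PF.nil (PF.cons PF.nil PF.nil)))) (PF.cons (PF.cons (PF.leaf (nat_lit 3655020) (nat_lit 1124082) (nat_lit 53688694)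 (nat_lit 10047872) [(nat_lit 0), (nat_lit 1124082), (nat_lit 0), (nat_lit 0)]) (PF.cons PF.nil PF.nil)) (PF.cons PF.nil PF.nil))))) (PF.cons (PF.cons (PF.cons (PF.leaf (nat_lit 3094548) (nat_lit 2801631) (nat_lit 54297911) (nat_lit 10009269) [(nat_lit 0), (nat_lit 0), (nat_lit 2801631), (nat_lit 0)]) (PF.cons (PF.leaf (nat_lit 3241515) (nat_lit 220393) (nat_lit 54048243) (nat_lit 10017483) [(nat_lit 220393), (nat_lit 0), (nat_lit 2822693), (nat_lit 0)]) (PF.cons (PF.leaf (nat_lit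
 3405101) (nat_lit 231410) (nat_lit 53775993) (nat_lit 10025482) [(nat_lit 231410), (nat_lit 0), (nat_lit 2844514), (nat_lit 0)]) (PF.cons PF.nil (PF.cons PF.nil PF.nil))))) (PF.cons (PF.cons (PF.leaf (nat_lit 3642397) (nat_lit 1117216) (nat_lit 53065783) (nat_lit 10037576) [(nat_lit 0), (nat_lit 1117216), (nat_lit 2888236), (nat_lit 0)]) (PF.cons (PF.leaf (nat_lit 3815232) (nat_lit 249062) (nat_lit 52775754) (nat_lit 10042404) [(nat_lit 249062), (nat_lit 1133702), (nat_lit 2907888), (nat_lit 0)]) (PF.cons PF.nil (PF.cons PF.nil PF.nil)))) (PF.cons (PF.cons (PF.leaf (nat_lit 4237980) (nat_lit 1174182) (nat_lit 51750702) (nat_lit 10047216) [(nat_lit 0), (nat_lit 1174182), (nat_lit 2962528), (nat_lit 0)]) (PF.cons PF.nil PF.nil)) PF.nil))) (PF.cons (PF.cons (PF.cons (PF.leaf (nat_lit 4208887) (nat_lit 2962116) (nat_lit 51159141) (nat_lit 10025438) [(nat_lit 0), (nat_lit 0), (nat_lit 2962116), (nat_lit 0)]) (PF.cons (PF.leaf (nat_lit 4387106) (nat_lit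 262635) (nat_lit 50866454) (nat_lit 10024168) [(nat_lit 262635), (nat_lit 0), (nat_lit 2977777), (nat_lit 0)]) PF.nil)) (PF.cons PF.nil PF.nil)) (PF.cons PF.nil (PF.cons PF.nil PF.nil))))) (PF.cons (PF.cons (PF.cons (PF.cons (PF.leaf
 (nat_lit 3953128) (nat_lit 7128728) (nat_lit 50072351) (nat_lit 9907732) [(nat_lit 0), (nat_lit 0), (nat_lit 0), (nat_lit 7128728)]) (PF.cons (PF.leaf (nat_lit 4102898) (nat_lit 232777) (nat_lit 49834442) (nat_lit 9906065) [(nat_lit 232777), (nat_lit 0), (nat_lit 0), (nat_lit 7135526)]) (PF.cons (PF.leaf (nat_lit 4268373) (nat_lit 243576) (nat_lit 49575949) (nat_lit 9903531) [(nat_lit 243576), (nat_lit 0), (nat_lit 0), (nat_lit 7142178)]) (PF.cons (PF.leaf (nat_lit 4445379) (nat_lit 253202) (nat_lit 49300736) (nat_lit 9900023) [(nat_lit 253202), (nat_lit 0), (nat_lit 0), (nat_lit 7148445)]) (PF.cons PF.nil PF.nil))))) (PF.cons (PF.cons (PF.leaf (nat_lit 4496653) (nat_lit 1156950) (nat_lit 48910770) (nat_lit 9889806) [(nat_lit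 0), (nat_lit 1156950), (nat_lit 0), (nat_lit 7151284)]) (PF.cons (PF.leaf (nat_lit 4669871) (nat_lit 259385) (nat_lit 48638484) (nat_lit 9884411) [(nat_lit 259385), (nat_lit 1170922), (nat_lit 0), (nat_lit 7155609)]) (PF.cons (PF.leaf (nat_lit 4855079) (nat_lit 267812) (nat_lit 48351433) (nat_lit 9877890) [(nat_lit 267812), (nat_lit 1184511), (nat_lit 0), (nat_lit 7159352)]) (PF.cons PF.nil PF.nil)))) (PF.cons (PF.cons (PF.leaf (nat_lit 5080108) (nat_lit
 1202797) (nat_lit 47686879) (nat_lit 9855847) [(nat_lit 0), (nat_lit 1202797), (nat_lit 0), (nat_lit 7160491)]) (PF.cons PF.nil PF.nil)) (PF.cons PF.nil (PF.cons PF.nil PF.nil))))) (PF.cons (PF.cons (PF.cons (PF.leaf (nat_lit 5031888) (nat_lit 2989224) (nat_lit 47158966) (nat_lit 9819763) [(nat_lit 0), (nat_lit 0), (nat_lit 2989224), (nat_lit 7140858)]) (PF.cons (PF.leaf (nat_lit 5208526) (nat_lit 269745) (nat_lit 46888003) (nat_lit 9809974) [(nat_lit 269745), (nat_lit 0), (nat_lit 2999997), (nat_lit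 7141091)]) (PF.cons (PF.leaf (nat_lit 5396629) (nat_lit 277691) (nat_lit 46603318) (nat_lit 9798930) [(nat_lit 277691), (nat_lit 0), (nat_lit 3010570), (nat_lit 7140609)]) (PF.cons PF.nil PF.nil)))) (PF.cons (PF.cons (PF.leaf (nat_lit 5616839) (nat_lit 1228768) (nat_lit 45954121) (nat_lit 9767361) [(nat_lit 0), (nat_lit 1228768), (nat_lit 3025886), (nat_lit 7132675)]) (PF.cons PF.nil PF.nil)) (PF.cons PF.nil PF.nil))) (PF.cons (PF.cons (PF.cons (PF.leaf (nat_lit 6139462) (nat_lit 3041060) (nat_lit 44282500) (nat_lit 9658748) [(nat_lit 0), (nat_lit 0), (nat_lit 3041060), (nat_lit 7085443)]) (PF.cons PF.nil PF.nil)) (PF.cons PF.nil PF.nil)) PF.nil))) (PF.cons (PF.cons (PF.cons (PF.cons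
 (PF.leaf (nat_lit 5780163) (nat_lit 6992498) (nat_lit 43580901) (nat_lit 9542915) [(nat_lit 0), (nat_lit 0), (nat_lit 0), (nat_lit 6992498)]) (PF.cons (PF.leaf (nat_lit 5953830) (nat_lit 272778) (nat_lit 43333170) (nat_lit 9527795) [(nat_lit 272778), (nat_lit 0), (nat_lit 0), (nat_lit 6987534)]) (PF.cons (PF.leaf (nat_lit 6138291) (nat_lit 280304) (nat_lit 43073338) (nat_lit 9511349) [(nat_lit 280304), (nat_lit 0), (nat_lit 0), (nat_lit 6981758)]) (PF.cons PF.nil PF.nil)))) (PF.cons (PF.cons (PF.leaf (nat_lit 6345643) (nat_lit 1228707) (nat_lit 42485525) (nat_lit 9468792) [(nat_lit 0), (nat_lit 1228707), (nat_lit 0), (nat_lit 6962894)]) (PF.cons PF.nil PF.nil)) (PF.cons PF.nil PF.nil))) (PF.cons (PF.cons (PF.cons (PF.leaf (nat_lit 6834079) (nat_lit 2997698) (nat_lit 40985728) (nat_lit 9338603) [(nat_lit 0), (nat_lit 0), (nat_lit 2997698), (nat_lit 6893391)]) (PF.cons PF.nil PF.nil)) PF.nil) PF.nil)) (PF.cons PF.nil (PF.cons PF.nil (PF.cons PF.nil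 PF.nil))))))

def p13_7_1_0 : pfC (piC [(nat_lit 44228488), (nat_lit 27646207), (nat_lit 20402210), (nat_lit 13743659)] (nat_lit 10613167)) p13_7_1 (nat_lit 4) (nat_lit 0) (nat_lit 1) = true := by decide +kernel
def p13_7_1_1 : pfC (piC [(nat_lit 44228488), (nat_lit 27646207), (nat_lit 20402210), (nat_lit 13743659)] (nat_lit 10613167)) p13_7_1 (nat_lit 4) (nat_lit 1) (nat_lit 2) = true := by decide +kernel
def p13_7_1_2 : pfC (piC [(nat_lit 44228488), (nat_lit 27646207), (nat_lit 20402210), (nat_lit 13743659)] (nat_lit 10613167)) p13_7_1 (nat_lit 4) (nat_lit 2) (nat_lit 3) = true := by decide +kernel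
def p13_7_1_3 : pfC (piC [(nat_lit 44228488), (nat_lit 27646207), (nat_lit 20402210), (nat_lit 13743659)] (nat_lit 10613167)) p13_7_1 (nat_lit 4) (nat_lit 3) (nat_lit 4) = true := by decide +kernel
def p13_7_1_4 : pfC (piC [(nat_lit 44228488), (nat_lit 27646207), (nat_lit 20402210), (nat_lit 13743659)] (nat_lit 10613167)) p13_7_1 (nat_lit 4) (nat_lit 4) (nat_lit 5) = true := by decide +kernel
def p13_7_1_5 : pfC (piC [(nat_lit 44228488), (nat_lit 27646207), (nat_lit 20402210), (nat_lit 13743659)] (nat_lit 10613167)) p13_7_1 (nat_lit 4) (nat_lit 5) (nat_lit 6) = true := by decide +kernel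
def p13_7_1_6 : pfC (piC [(nat_lit 44228488), (nat_lit 27646207), (nat_lit 20402210), (nat_lit 13743659)] (nat_lit 10613167)) p13_7_1 (nat_lit 4) (nat_lit 6) (nat_lit 7) = true := by decide +kernel
def p13_7_1_7 : pfC (piC [(nat_lit 44228488), (nat_lit 27646207), (nat_lit 20402210), (nat_lit 13743659)] (nat_lit 10613167)) p13_7_1 (nat_lit 4) (nat_lit 7) (nat_lit 8) = true := by decide +kernel
def p13_7_1_8 : pfC (piC [(nat_lit 44228488), (nat_lit 27646207), (nat_lit 20402210), (nat_lit 13743659)] (nat_lit 10613167)) p13_7_1 (nat_lit 4) (nat_lit 8) (nat_lit 9) = true := by decide +kernel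
def p13_7_1_9 : pfC (piC [(nat_lit 44228488), (nat_lit 27646207), (nat_lit 20402210), (nat_lit 13743659)] (nat_lit 10613167)) p13_7_1 (nat_lit 4) (nat_lit 9) (nat_lit 10) = true := by decide +kernel
def p13_7_1_10 : pfC (piC [(nat_lit 44228488), (nat_lit 27646207), (nat_lit 20402210), (nat_lit 13743659)] (nat_lit 10613167)) p13_7_1 (nat_lit 4) (nat_lit 10) (nat_lit 11) = true := by decide +kernel
def p13_7_1_11 : pfC (piC [(nat_lit 44228488), (nat_lit 27646207), (nat_lit 20402210), (nat_lit 13743659)] (nat_lit 10613167)) p13_7_1 (nat_lit 4) (nat_lit 11) (nat_lit 12) = true := by decide +kernel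
def p13_7_1_12 : pfC (piC [(nat_lit 44228488), (nat_lit 27646207), (nat_lit 20402210), (nat_lit 13743659)] (nat_lit 10613167)) p13_7_1 (nat_lit 4) (nat_lit 12) (nat_lit 13) = true := by decide +kernel
def p13_7_1_13 : pfC (piC [(nat_lit 44228488), (nat_lit 27646207), (nat_lit 20402210), (nat_lit 13743659)] (nat_lit 10613167)) p13_7_1 (nat_lit 4) (nat_lit 13) (nat_lit 14) = true := by decide +kernel
def p13_7_1_14 : pfC (piC [(nat_lit 44228488), (nat_lit 27646207), (nat_lit 20402210), (nat_lit 13743659)] (nat_lit 10613167)) p13_7_1 (nat_lit 4) (nat_lit 14) (nat_lit 15) = true := by decide +kernel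
def p13_7_1_15 : pfC (piC [(nat_lit 44228488), (nat_lit 27646207), (nat_lit 20402210), (nat_lit 13743659)] (nat_lit 10613167)) p13_7_1 (nat_lit 4) (nat_lit 15) (nat_lit 16) = true := by decide +kernel
def p13_7_1_16 : pfC (piC [(nat_lit 44228488), (nat_lit 27646207), (nat_lit 20402210), (nat_lit 13743659)] (nat_lit 10613167)) p13_7_1 (nat_lit 4) (nat_lit 16) (nat_lit 17) = true := by decide +kernel
def p13_7_1_17 : pfC (piC [(nat_lit 44228488), (nat_lit 27646207), (nat_lit 20402210), (nat_lit 13743659)] (nat_lit 10613167)) p13_7_1 (nat_lit 4) (nat_lit 17) (nat_lit 18) = true := by decide +kernel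
def p13_7_1_18 : pfC (piC [(nat_lit 44228488), (nat_lit 27646207), (nat_lit 20402210), (nat_lit 13743659)] (nat_lit 10613167)) p13_7_1 (nat_lit 4) (nat_lit 18) (nat_lit 19) = true := by decide +kernel
def p13_7_1_19 : pfC (piC [(nat_lit 44228488), (nat_lit 27646207), (nat_lit 20402210), (nat_lit 13743659)] (nat_lit 10613167)) p13_7_1 (nat_lit 4) (nat_lit 19) (nat_lit 20) = true := by decide +kernel
def p13_7_1_20 : pfC (piC [(nat_lit 44228488), (nat_lit 27646207), (nat_lit 20402210), (nat_lit 13743659)] (nat_lit 10613167)) p13_7_1 (nat_lit 4) (nat_lit 20) (nat_lit 21) = true := by decide +kernel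
def p13_7_1_21 : pfC (piC [(nat_lit 44228488), (nat_lit 27646207), (nat_lit 20402210), (nat_lit 13743659)] (nat_lit 10613167)) p13_7_1 (nat_lit 4) (nat_lit 21) (nat_lit 22) = true := by decide +kernel
def p13_7_1_22 : pfC (piC [(nat_lit 44228488), (nat_lit 27646207), (nat_lit 20402210), (nat_lit 13743659)] (nat_lit 10613167)) p13_7_1 (nat_lit 4) (nat_lit 22) (nat_lit 23) = true := by decide +kernel
def p13_7_1_23 : pfC (piC [(nat_lit 44228488), (nat_lit 27646207), (nat_lit 20402210), (nat_lit 13743659)] (nat_lit 10613167)) p13_7_1 (nat_lit 4) (nat_lit 23) (nat_lit 24) = true := by decide +kernel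
def p13_7_1_24 : pfC (piC [(nat_lit 44228488), (nat_lit 27646207), (nat_lit 20402210), (nat_lit 13743659)] (nat_lit 10613167)) p13_7_1 (nat_lit 4) (nat_lit 24) (nat_lit 25) = true := by decide +kernel
def p13_7_1_25 : pfC (piC [(nat_lit 44228488), (nat_lit 27646207), (nat_lit 20402210), (nat_lit 13743659)] (nat_lit 10613167)) p13_7_1 (nat_lit 4) (nat_lit 25) (nat_lit 26) = true := by decide +kernel
def p13_7_1_26 : pfC (piC [(nat_lit 44228488), (nat_lit 27646207), (nat_lit 20402210), (nat_lit 13743659)] (nat_lit 10613167)) p13_7_1 (nat_lit 4) (nat_lit 26) (nat_lit 27) = true := by decide +kernel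
def p13_7_1_27 : pfC (piC [(nat_lit 44228488), (nat_lit 27646207), (nat_lit 20402210), (nat_lit 13743659)] (nat_lit 10613167)) p13_7_1 (nat_lit 4) (nat_lit 27) (nat_lit 28) = true := by decide +kernel
def p13_7_1_28 : pfC (piC [(nat_lit 44228488), (nat_lit 27646207), (nat_lit 20402210), (nat_lit 13743659)] (nat_lit 10613167)) p13_7_1 (nat_lit 4) (nat_lit 28) (nat_lit 29) = true := by decide +kernel
def p13_7_1_29 : pfC (piC [(nat_lit 44228488), (nat_lit 27646207), (nat_lit 20402210), (nat_lit 13743659)] (nat_lit 10613167)) p13_7_1 (nat_lit 4) (nat_lit 29) (nat_lit 30) = true := by decide +kernel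
def p13_7_1_30 : pfC (piC [(nat_lit 44228488), (nat_lit 27646207), (nat_lit 20402210), (nat_lit 13743659)] (nat_lit 10613167)) p13_7_1 (nat_lit 4) (nat_lit 30) (nat_lit 31) = true := by decide +kernel
def p13_7_1_31 : pfC (piC [(nat_lit 44228488), (nat_lit 27646207), (nat_lit 20402210), (nat_lit 13743659)] (nat_lit 10613167)) p13_7_1 (nat_lit 4) (nat_lit 31) (nat_lit 32) = true := by decide +kernel
def p13_7_1_32 : pfC (piC [(nat_lit 44228488), (nat_lit 27646207), (nat_lit 20402210), (nat_lit 13743659)] (nat_lit 10613167)) p13_7_1 (nat_lit 4) (nat_lit 32) (nat_lit 33) = true := by decide +kernel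
def p13_7_1_33 : pfC (piC [(nat_lit 44228488), (nat_lit 27646207), (nat_lit 20402210), (nat_lit 13743659)] (nat_lit 10613167)) p13_7_1 (nat_lit 4) (nat_lit 33) (nat_lit 34) = true := by decide +kernel
def p13_7_1_34 : pfC (piC [(nat_lit 44228488), (nat_lit 27646207), (nat_lit 20402210), (nat_lit 13743659)] (nat_lit 10613167)) p13_7_1 (nat_lit 4) (nat_lit 34) (nat_lit 35) = true := by decide +kernel
def p13_7_1_35 : pfC (piC [(nat_lit 44228488), (nat_lit 27646207), (nat_lit 20402210), (nat_lit 13743659)] (nat_lit 10613167)) p13_7_1 (nat_lit 4) (nat_lit 35) (nat_lit 36) = true := by decide +kernel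
def p13_7_1_36 : pfC (piC [(nat_lit 44228488), (nat_lit 27646207), (nat_lit 20402210), (nat_lit 13743659)] (nat_lit 10613167)) p13_7_1 (nat_lit 4) (nat_lit 36) (nat_lit 37) = true := by decide +kernel
def p13_7_1_37 : pfC (piC [(nat_lit 44228488), (nat_lit 27646207), (nat_lit 20402210), (nat_lit 13743659)] (nat_lit 10613167)) p13_7_1 (nat_lit 4) (nat_lit 37) (nat_lit 38) = true := by decide +kernel
theorem p13_7_1_T : PfS (PiF n13_7.reverse (nat_lit 10613167)) p13_7_1 (nat_lit 4) [] 0 :=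
  pftab_of (los := [(nat_lit 44228488), (nat_lit 27646207), (nat_lit 20402210), (nat_lit 13743659)]) (by decide +kernel) (hi := (nat_lit 38)) (PfP.trans (PfP.trans (PfP.trans (PfP.trans (PfP.trans (PfP.trans (PfP.trans (PfP.trans (PfP.trans (PfP.trans (PfP.trans (PfP.trans (PfP.trans (PfP.trans (PfP.trans (PfP.trans (PfP.trans (PfP.trans (PfP.trans (PfP.trans (PfP.trans (PfP.trans (PfP.trans (PfP.trans (PfP.trans (PfP.trans (PfP.trans (PfP.trans (PfP.trans (PfP.trans (PfP.trans (PfP.trans (PfP.trans (PfP.trans (PfP.trans (PfP.trans (PfP.trans (pfC_sound p13_7_1_0) (pfC_sound p13_7_1_1)) (pfC_sound p13_7_1_2)) (pfC_sound p13_7_1_3)) (pfC_sound p13_7_1_4)) (pfC_sound p13_7_1_5)) (pfC_sound p13_7_1_6)) (pfC_sound p13_7_1_7)) (pfC_sound p13_7_1_8)) (pfC_sound p13_7_1_9)) (pfC_sound p13_7_1_10)) (pfC_sound p13_7_1_11)) (pfC_sound p13_7_1_12)) (pfC_sound p13_7_1_13)) (pfC_sound p13_7_1_14)) (pfC_sound p13_7_1_15)) (pfC_sound p13_7_1_16)) (pfC_sound p13_7_1_17))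 (pfC_sound p13_7_1_18)) (pfC_sound p13_7_1_19)) (pfC_sound p13_7_1_20)) (pfC_sound p13_7_1_21)) (pfC_sound p13_7_1_22)) (pfC_sound p13_7_1_23)) (pfC_sound p13_7_1_24)) (pfC_sound p13_7_1_25)) (pfC_sound p13_7_1_26)) (pfC_sound p13_7_1_27)) (pfC_sound p13_7_1_28)) (pfC_sound p13_7_1_29)) (pfC_sound p13_7_1_30)) (pfC_sound p13_7_1_31)) (pfC_sound p13_7_1_32)) (pfC_sound
 p13_7_1_33)) (pfC_sound p13_7_1_34)) (pfC_sound p13_7_1_35)) (pfC_sound p13_7_1_36)) (pfC_sound p13_7_1_37)) (by decide +kernel)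

def z13_7_1 : zOK yB13_7 (nat_lit 1) (nat_lit 400) (nat_lit 600) (nat_lit 10613167) (nat_lit 6951493) = true := by decide +kernel
def g13_7_1 : gOK yB13_7.x P13_7 (nat_lit 1427) (q13_7 :: r13_7) (nat_lit 1) (nat_lit 400) (nat_lit 2) (nat_lit 600) (nat_lit 11000000) (nat_lit 17850000) (nat_lit 12712500) (nat_lit 12712500) [(nat_lit 800), (nat_lit 1040)] = true := by decide +kernel
def v13_7_1 : ivC P13_7 s13_7 w13_7 n13_7 (nat_lit 4) (nat_lit 5120) (nat_lit 1) (nat_lit 400) f136_1_400 f144_1_400 (nat_lit 2) (nat_lit 600) f136_1_600 f144_1_600 (nat_lit 10613167) (nat_lit 6951493) p13_7_1 = true := by decide +kernel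
def p13_7_2 : PF := (PF.cons (PF.cons (PF.cons (PF.cons (PF.leaf (nat_lit 2719991) (nat_lit 15699720) (nat_lit 51409092) (nat_lit 15699720) [(nat_lit 0), (nat_lit 0), (nat_lit 0), (nat_lit 0)]) (PF.cons (PF.leaf (nat_lit 2818942) (nat_lit 163016) (nat_lit 51255558) (nat_lit 15690238) [(nat_lit 163016), (nat_lit 0), (nat_lit 0), (nat_lit 0)]) (PF.cons (PF.leaf (nat_lit 2940357) (nat_lit 177391) (nat_lit 51075372) (nat_lit 15678657) [(nat_lit 177391), (nat_lit 0), (nat_lit 0), (nat_lit 0)]) (PF.cons (PF.leaf (nat_lit 3076780) (nat_lit 190213) (nat_lit 50873084) (nat_lit 15665087) [(nat_lit 190213), (nat_lit 0), (nat_lit 0), (nat_lit 0)]) (PF.cons (PF.leaf (nat_lit 3226075) (nat_lit 201844) (nat_lit 50651864) (nat_lit 15649569) [(nat_lit 201844), (nat_lit 0), (nat_lit 0), (nat_lit 0)]) (PF.cons (PF.leaf (nat_lit 3386967) (nat_lit 212516) (nat_lit 50414113) (nat_lit 15632116) [(nat_lit 212516), (nat_lit 0), (nat_lit 0), (nat_lit 0)]) (PF.cons PF.nil PF.nil)))))))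 (PF.cons (PF.cons (PF.leaf (nat_lit 3159355) (nat_lit 973261) (nat_lit 50499769) (nat_lit 15635781) [(nat_lit 0), (nat_lit 973261), (nat_lit 0), (nat_lit 0)]) (PF.cons (PF.leaf (nat_lit 3292936) (nat_lit 201190) (nat_lit 50293969) (nat_lit
 15620231) [(nat_lit 201190), (nat_lit 993421), (nat_lit 0), (nat_lit 0)]) (PF.cons (PF.leaf (nat_lit 3442897) (nat_lit 212259) (nat_lit 50068205) (nat_lit 15602502) [(nat_lit 212259), (nat_lit 1013586), (nat_lit 0), (nat_lit 0)]) (PF.cons (PF.leaf (nat_lit 3604978) (nat_lit 222363) (nat_lit 49825628) (nat_lit 15582681) [(nat_lit 222363), (nat_lit 1033412), (nat_lit 0), (nat_lit 0)]) (PF.cons PF.nil PF.nil))))) (PF.cons (PF.cons (PF.leaf (nat_lit 3665746) (nat_lit 1047034) (nat_lit 49465745) (nat_lit 15548997) [(nat_lit 0), (nat_lit 1047034), (nat_lit 0), (nat_lit 0)]) (PF.cons (PF.leaf (nat_lit 3825411) (nat_lit 230856) (nat_lit 49221849) (nat_lit 15527080) [(nat_lit 230856), (nat_lit 1064513), (nat_lit 0), (nat_lit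 0)]) (PF.cons (PF.leaf (nat_lit 3997882) (nat_lit 239801) (nat_lit 48962866) (nat_lit 15502966) [(nat_lit 239801), (nat_lit 1081688), (nat_lit 0), (nat_lit 0)]) (PF.cons PF.nil PF.nil)))) (PF.cons (PF.cons (PF.leaf (nat_lit 4221777) (nat_lit 1107732) (nat_lit 48346361) (nat_lit 15439254) [(nat_lit 0), (nat_lit 1107732), (nat_lit 0), (nat_lit 0)]) (PF.cons (PF.leaf (nat_lit 4401626) (nat_lit 254854) (nat_lit 48074856) (nat_lit 15410945) [(nat_lit 254854), (nat_lit
 1122718), (nat_lit 0), (nat_lit 0)]) PF.nil)) (PF.cons PF.nil (PF.cons PF.nil PF.nil)))))) (PF.cons (PF.cons (PF.cons (PF.leaf (nat_lit 3675153) (nat_lit 2753995) (nat_lit 48876527) (nat_lit 15478289) [(nat_lit 0), (nat_lit 0), (nat_lit 2753995), (nat_lit 0)]) (PF.cons (PF.leaf (nat_lit 3816957) (nat_lit 218162) (nat_lit 48661375) (nat_lit 15457488) [(nat_lit 218162), (nat_lit 0), (nat_lit 2771786), (nat_lit 0)]) (PF.cons (PF.leaf (nat_lit 3974505) (nat_lit 228780) (nat_lit 48426982) (nat_lit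 15434165) [(nat_lit 228780), (nat_lit 0), (nat_lit 2790104), (nat_lit 0)]) (PF.cons (PF.leaf (nat_lit 4143630) (nat_lit 238331) (nat_lit 48176760) (nat_lit 15408513) [(nat_lit 238331), (nat_lit 0), (nat_lit 2808543), (nat_lit 0)]) (PF.cons PF.nil PF.nil))))) (PF.cons (PF.cons (PF.leaf (nat_lit 4197310) (nat_lit 1098410) (nat_lit 47817639) (nat_lit 15367555) [(nat_lit 0), (nat_lit 1098410), (nat_lit 2825207), (nat_lit 0)]) (PF.cons (PF.leaf (nat_lit 4363036) (nat_lit 245171) (nat_lit 47568722) (nat_lit 15340174) [(nat_lit 245171), (nat_lit 1113334), (nat_lit 2841410), (nat_lit 0)]) (PF.cons (PF.leaf (nat_lit 4540945) (nat_lit 253593) (nat_lit 47305698) (nat_lit 15310441) [(nat_lit 253593),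
 (nat_lit 1127933), (nat_lit 2857552), (nat_lit 0)]) (PF.cons PF.nil PF.nil)))) (PF.cons (PF.cons (PF.leaf (nat_lit 4762264) (nat_lit 1148716) (nat_lit 46691580) (nat_lit 15235050) [(nat_lit 0), (nat_lit 1148716), (nat_lit 2884748), (nat_lit 0)]) (PF.cons PF.nil PF.nil)) (PF.cons PF.nil (PF.cons PF.nil PF.nil))))) (PF.cons (PF.cons (PF.cons (PF.leaf (nat_lit 4723294) (nat_lit 2879704) (nat_lit 46191357) (nat_lit 15158046) [(nat_lit 0), (nat_lit 0), (nat_lit 2879704), (nat_lit 0)]) (PF.cons (PF.leaf (nat_lit 4893489) (nat_lit 256822) (nat_lit 45941172) (nat_lit 15125959) [(nat_lit 256822), (nat_lit 0), (nat_lit 2892429), (nat_lit 0)]) (PF.cons PF.nil (PF.cons PF.nil PF.nil)))) (PF.cons (PF.cons (PF.leaf (nat_lit 5292684) (nat_lit 1179979) (nat_lit 45072894) (nat_lit 15006517) [(nat_lit 0), (nat_lit 1179979), (nat_lit 2924710), (nat_lit 0)]) (PF.cons PF.nil PF.nil)) (PF.cons PF.nil PF.nil))) (PF.cons (PF.cons (PF.cons (PF.leaf (nat_lit 5811124) (nat_lit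 2949490) (nat_lit 43501193) (nat_lit 14759148) [(nat_lit 0), (nat_lit 0), (nat_lit 2949490), (nat_lit 0)]) (PF.cons PF.nil PF.nil)) (PF.cons PF.nil PF.nil)) (PF.cons PF.nil PF.nil))))) (PF.cons (PF.cons (PF.cons (PF.cons (PF.leaf
 (nat_lit 4456267) (nat_lit 6851595) (nat_lit 45292791) (nat_lit 14964425) [(nat_lit 0), (nat_lit 0), (nat_lit 0), (nat_lit 6851595)]) (PF.cons (PF.leaf (nat_lit 4599732) (nat_lit 227475) (nat_lit 45089164) (nat_lit 14937450) [(nat_lit 227475), (nat_lit 0), (nat_lit 0), (nat_lit 6854722)]) (PF.cons (PF.leaf (nat_lit 4758438) (nat_lit 237832) (nat_lit 44868011) (nat_lit 14907624) [(nat_lit 237832), (nat_lit 0), (nat_lit 0), (nat_lit 6857512)]) (PF.cons (PF.leaf (nat_lit 4927908) (nat_lit 247021) (nat_lit 44632651) (nat_lit 14875282) [(nat_lit 247021), (nat_lit 0), (nat_lit 0), (nat_lit 6859813)]) (PF.cons (PF.leaf (nat_lit 5106655) (nat_lit 255291) (nat_lit 44385473) (nat_lit 14840661) [(nat_lit 255291), (nat_lit 0), (nat_lit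 0), (nat_lit 6861510)]) PF.nil))))) (PF.cons (PF.cons (PF.leaf (nat_lit 4972609) (nat_lit 1124966) (nat_lit 44300244) (nat_lit 14825996) [(nat_lit 0), (nat_lit 1124966), (nat_lit 0), (nat_lit 6857605)]) (PF.cons (PF.leaf (nat_lit 5138033) (nat_lit 252567) (nat_lit 44067587) (nat_lit 14792577) [(nat_lit 252567), (nat_lit 1137715), (nat_lit 0), (nat_lit 6858364)]) (PF.cons (PF.leaf (nat_lit 5314935) (nat_lit 260568) (nat_lit 43822392) (nat_lit 14756728) [(nat_lit
 260568), (nat_lit 1150056), (nat_lit 0), (nat_lit 6858499)]) (PF.cons PF.nil PF.nil)))) (PF.cons (PF.cons (PF.leaf (nat_lit 5525399) (nat_lit 1165898) (nat_lit 43255887) (nat_lit 14668914) [(nat_lit 0), (nat_lit 1165898), (nat_lit 0), (nat_lit 6852214)]) (PF.cons (PF.leaf (nat_lit 5707116) (nat_lit 272060) (nat_lit 43003749) (nat_lit 14629882) [(nat_lit 272060), (nat_lit 1176464), (nat_lit 0), (nat_lit 6850191)]) PF.nil)) (PF.cons PF.nil (PF.cons PF.nil PF.nil))))) (PF.cons (PF.cons (PF.cons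 (PF.leaf (nat_lit 5471082) (nat_lit 2883342) (nat_lit 42809853) (nat_lit 14586653) [(nat_lit 0), (nat_lit 0), (nat_lit 2883342), (nat_lit 6828964)]) (PF.cons (PF.leaf (nat_lit 5639424) (nat_lit 261580) (nat_lit 42578568) (nat_lit 14549958) [(nat_lit 261580), (nat_lit 0), (nat_lit 2892190), (nat_lit 6826514)]) (PF.cons (PF.leaf (nat_lit 5818747) (nat_lit 269113) (nat_lit 42335603) (nat_lit 14510820) [(nat_lit 269113), (nat_lit 0), (nat_lit 2900810), (nat_lit 6823350)]) (PF.cons PF.nil PF.nil)))) (PF.cons (PF.cons (PF.leaf (nat_lit 6024666) (nat_lit 1186944) (nat_lit 41782448) (nat_lit 14417038) [(nat_lit 0), (nat_lit 1186944), (nat_lit 2912223), (nat_lit 6810158)]) (PF.cons PF.nil PF.nil))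
 (PF.cons PF.nil PF.nil))) (PF.cons (PF.cons (PF.cons (PF.leaf (nat_lit 6511410) (nat_lit 2919861) (nat_lit 40360454) (nat_lit 14154807) [(nat_lit 0), (nat_lit 0), (nat_lit 2919861), (nat_lit 6753828)]) (PF.cons PF.nil PF.nil)) (PF.cons PF.nil PF.nil)) PF.nil))) (PF.cons (PF.cons (PF.cons (PF.cons (PF.leaf (nat_lit 6157224) (nat_lit 6667021) (nat_lit 39779199) (nat_lit 13995571) [(nat_lit 0), (nat_lit 0), (nat_lit 0), (nat_lit 6667021)]) (PF.cons (PF.leaf (nat_lit 6322745) (nat_lit 263263) (nat_lit 39567210) (nat_lit 13956648) [(nat_lit 263263), (nat_lit 0), (nat_lit 0), (nat_lit 6660845)]) (PF.cons (PF.leaf (nat_lit 6498640) (nat_lit 270415) (nat_lit 39344841) (nat_lit 13915348) [(nat_lit 270415), (nat_lit 0), (nat_lit 0), (nat_lit 6653896)]) (PF.cons PF.nil PF.nil)))) (PF.cons (PF.cons (PF.leaf (nat_lit 6693475) (nat_lit 1182303) (nat_lit 38842341) (nat_lit 13818064) [(nat_lit 0), (nat_lit 1182303), (nat_lit 0), (nat_lit 6633051)]) (PF.cons PF.nil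 PF.nil)) (PF.cons PF.nil PF.nil))) (PF.cons (PF.cons (PF.cons (PF.leaf (nat_lit 7151195) (nat_lit 2871387) (nat_lit 37560977) (nat_lit 13552979) [(nat_lit 0), (nat_lit 0), (nat_lit 2871387), (nat_lit 6561734)]) (PF.cons PF.nil PF.nil))
 PF.nil) PF.nil)) (PF.cons PF.nil (PF.cons PF.nil (PF.cons PF.nil PF.nil))))))

def p13_7_2_0 : pfC (piC [(nat_lit 44228488), (nat_lit 27646207), (nat_lit 20402210), (nat_lit 13743659)] (nat_lit 6951493)) p13_7_2 (nat_lit 4) (nat_lit 0) (nat_lit 1) = true := by decide +kernel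
def p13_7_2_1 : pfC (piC [(nat_lit 44228488), (nat_lit 27646207), (nat_lit 20402210), (nat_lit 13743659)] (nat_lit 6951493)) p13_7_2 (nat_lit 4) (nat_lit 1) (nat_lit 2) = true := by decide +kernel
def p13_7_2_2 : pfC (piC [(nat_lit 44228488), (nat_lit 27646207), (nat_lit 20402210), (nat_lit 13743659)] (nat_lit 6951493)) p13_7_2 (nat_lit 4) (nat_lit 2) (nat_lit 3) = true := by decide +kernel
def p13_7_2_3 : pfC (piC [(nat_lit 44228488), (nat_lit 27646207), (nat_lit 20402210), (nat_lit 13743659)] (nat_lit 6951493)) p13_7_2 (nat_lit 4) (nat_lit 3) (nat_lit 4) = true := by decide +kernel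
def p13_7_2_4 : pfC (piC [(nat_lit 44228488), (nat_lit 27646207), (nat_lit 20402210), (nat_lit 13743659)] (nat_lit 6951493)) p13_7_2 (nat_lit 4) (nat_lit 4) (nat_lit 5) = true := by decide +kernel
def p13_7_2_5 : pfC (piC [(nat_lit 44228488), (nat_lit 27646207), (nat_lit 20402210), (nat_lit 13743659)] (nat_lit 6951493)) p13_7_2 (nat_lit 4) (nat_lit 5) (nat_lit 6) = true := by decide +kernel
def p13_7_2_6 : pfC (piC [(nat_lit 44228488), (nat_lit 27646207), (nat_lit 20402210), (nat_lit 13743659)] (nat_lit 6951493)) p13_7_2 (nat_lit 4) (nat_lit 6) (nat_lit 7) = true := by decide +kernel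
def p13_7_2_7 : pfC (piC [(nat_lit 44228488), (nat_lit 27646207), (nat_lit 20402210), (nat_lit 13743659)] (nat_lit 6951493)) p13_7_2 (nat_lit 4) (nat_lit 7) (nat_lit 8) = true := by decide +kernel
def p13_7_2_8 : pfC (piC [(nat_lit 44228488), (nat_lit 27646207), (nat_lit 20402210), (nat_lit 13743659)] (nat_lit 6951493)) p13_7_2 (nat_lit 4) (nat_lit 8) (nat_lit 9) = true := by decide +kernel
def p13_7_2_9 : pfC (piC [(nat_lit 44228488), (nat_lit 27646207), (nat_lit 20402210), (nat_lit 13743659)] (nat_lit 6951493)) p13_7_2 (nat_lit 4) (nat_lit 9) (nat_lit 10) = true := by decide +kernel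
def p13_7_2_10 : pfC (piC [(nat_lit 44228488), (nat_lit 27646207), (nat_lit 20402210), (nat_lit 13743659)] (nat_lit 6951493)) p13_7_2 (nat_lit 4) (nat_lit 10) (nat_lit 11) = true := by decide +kernel
def p13_7_2_11 : pfC (piC [(nat_lit 44228488), (nat_lit 27646207), (nat_lit 20402210), (nat_lit 13743659)] (nat_lit 6951493)) p13_7_2 (nat_lit 4) (nat_lit 11) (nat_lit 12) = true := by decide +kernel
def p13_7_2_12 : pfC (piC [(nat_lit 44228488), (nat_lit 27646207), (nat_lit 20402210), (nat_lit 13743659)] (nat_lit 6951493)) p13_7_2 (nat_lit 4) (nat_lit 12) (nat_lit 13) = true := by decide +kernel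
def p13_7_2_13 : pfC (piC [(nat_lit 44228488), (nat_lit 27646207), (nat_lit 20402210), (nat_lit 13743659)] (nat_lit 6951493)) p13_7_2 (nat_lit 4) (nat_lit 13) (nat_lit 14) = true := by decide +kernel
def p13_7_2_14 : pfC (piC [(nat_lit 44228488), (nat_lit 27646207), (nat_lit 20402210), (nat_lit 13743659)] (nat_lit 6951493)) p13_7_2 (nat_lit 4) (nat_lit 14) (nat_lit 15) = true := by decide +kernel
def p13_7_2_15 : pfC (piC [(nat_lit 44228488), (nat_lit 27646207), (nat_lit 20402210), (nat_lit 13743659)] (nat_lit 6951493)) p13_7_2 (nat_lit 4) (nat_lit 15) (nat_lit 16) = true := by decide +kernel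
def p13_7_2_16 : pfC (piC [(nat_lit 44228488), (nat_lit 27646207), (nat_lit 20402210), (nat_lit 13743659)] (nat_lit 6951493)) p13_7_2 (nat_lit 4) (nat_lit 16) (nat_lit 17) = true := by decide +kernel
def p13_7_2_17 : pfC (piC [(nat_lit 44228488), (nat_lit 27646207), (nat_lit 20402210), (nat_lit 13743659)] (nat_lit 6951493)) p13_7_2 (nat_lit 4) (nat_lit 17) (nat_lit 18) = true := by decide +kernel
def p13_7_2_18 : pfC (piC [(nat_lit 44228488), (nat_lit 27646207), (nat_lit 20402210), (nat_lit 13743659)] (nat_lit 6951493)) p13_7_2 (nat_lit 4) (nat_lit 18) (nat_lit 19) = true := by decide +kernel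
def p13_7_2_19 : pfC (piC [(nat_lit 44228488), (nat_lit 27646207), (nat_lit 20402210), (nat_lit 13743659)] (nat_lit 6951493)) p13_7_2 (nat_lit 4) (nat_lit 19) (nat_lit 20) = true := by decide +kernel
def p13_7_2_20 : pfC (piC [(nat_lit 44228488), (nat_lit 27646207), (nat_lit 20402210), (nat_lit 13743659)] (nat_lit 6951493)) p13_7_2 (nat_lit 4) (nat_lit 20) (nat_lit 21) = true := by decide +kernel
def p13_7_2_21 : pfC (piC [(nat_lit 44228488), (nat_lit 27646207), (nat_lit 20402210), (nat_lit 13743659)] (nat_lit 6951493)) p13_7_2 (nat_lit 4) (nat_lit 21) (nat_lit 22) = true := by decide +kernel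
def p13_7_2_22 : pfC (piC [(nat_lit 44228488), (nat_lit 27646207), (nat_lit 20402210), (nat_lit 13743659)] (nat_lit 6951493)) p13_7_2 (nat_lit 4) (nat_lit 22) (nat_lit 23) = true := by decide +kernel
def p13_7_2_23 : pfC (piC [(nat_lit 44228488), (nat_lit 27646207), (nat_lit 20402210), (nat_lit 13743659)] (nat_lit 6951493)) p13_7_2 (nat_lit 4) (nat_lit 23) (nat_lit 24) = true := by decide +kernel
def p13_7_2_24 : pfC (piC [(nat_lit 44228488), (nat_lit 27646207), (nat_lit 20402210), (nat_lit 13743659)] (nat_lit 6951493)) p13_7_2 (nat_lit 4) (nat_lit 24) (nat_lit 25) = true := by decide +kernel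
def p13_7_2_25 : pfC (piC [(nat_lit 44228488), (nat_lit 27646207), (nat_lit 20402210), (nat_lit 13743659)] (nat_lit 6951493)) p13_7_2 (nat_lit 4) (nat_lit 25) (nat_lit 26) = true := by decide +kernel
def p13_7_2_26 : pfC (piC [(nat_lit 44228488), (nat_lit 27646207), (nat_lit 20402210), (nat_lit 13743659)] (nat_lit 6951493)) p13_7_2 (nat_lit 4) (nat_lit 26) (nat_lit 27) = true := by decide +kernel
def p13_7_2_27 : pfC (piC [(nat_lit 44228488), (nat_lit 27646207), (nat_lit 20402210), (nat_lit 13743659)] (nat_lit 6951493)) p13_7_2 (nat_lit 4) (nat_lit 27) (nat_lit 28) = true := by decide +kernel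
def p13_7_2_28 : pfC (piC [(nat_lit 44228488), (nat_lit 27646207), (nat_lit 20402210), (nat_lit 13743659)] (nat_lit 6951493)) p13_7_2 (nat_lit 4) (nat_lit 28) (nat_lit 29) = true := by decide +kernel
def p13_7_2_29 : pfC (piC [(nat_lit 44228488), (nat_lit 27646207), (nat_lit 20402210), (nat_lit 13743659)] (nat_lit 6951493)) p13_7_2 (nat_lit 4) (nat_lit 29) (nat_lit 30) = true := by decide +kernel
def p13_7_2_30 : pfC (piC [(nat_lit 44228488), (nat_lit 27646207), (nat_lit 20402210), (nat_lit 13743659)] (nat_lit 6951493)) p13_7_2 (nat_lit 4) (nat_lit 30) (nat_lit 31) = true := by decide +kernel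
def p13_7_2_31 : pfC (piC [(nat_lit 44228488), (nat_lit 27646207), (nat_lit 20402210), (nat_lit 13743659)] (nat_lit 6951493)) p13_7_2 (nat_lit 4) (nat_lit 31) (nat_lit 32) = true := by decide +kernel
def p13_7_2_32 : pfC (piC [(nat_lit 44228488), (nat_lit 27646207), (nat_lit 20402210), (nat_lit 13743659)] (nat_lit 6951493)) p13_7_2 (nat_lit 4) (nat_lit 32) (nat_lit 33) = true := by decide +kernel
def p13_7_2_33 : pfC (piC [(nat_lit 44228488), (nat_lit 27646207), (nat_lit 20402210), (nat_lit 13743659)] (nat_lit 6951493)) p13_7_2 (nat_lit 4) (nat_lit 33) (nat_lit 34) = true := by decide +kernel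
def p13_7_2_34 : pfC (piC [(nat_lit 44228488), (nat_lit 27646207), (nat_lit 20402210), (nat_lit 13743659)] (nat_lit 6951493)) p13_7_2 (nat_lit 4) (nat_lit 34) (nat_lit 35) = true := by decide +kernel
def p13_7_2_35 : pfC (piC [(nat_lit 44228488), (nat_lit 27646207), (nat_lit 20402210), (nat_lit 13743659)] (nat_lit 6951493)) p13_7_2 (nat_lit 4) (nat_lit 35) (nat_lit 36) = true := by decide +kernel
def p13_7_2_36 : pfC (piC [(nat_lit 44228488), (nat_lit 27646207), (nat_lit 20402210), (nat_lit 13743659)] (nat_lit 6951493)) p13_7_2 (nat_lit 4) (nat_lit 36) (nat_lit 37) = true := by decide +kernel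
def p13_7_2_37 : pfC (piC [(nat_lit 44228488), (nat_lit 27646207), (nat_lit 20402210), (nat_lit 13743659)] (nat_lit 6951493)) p13_7_2 (nat_lit 4) (nat_lit 37) (nat_lit 38) = true := by decide +kernel
def p13_7_2_38 : pfC (piC [(nat_lit 44228488), (nat_lit 27646207), (nat_lit 20402210), (nat_lit 13743659)] (nat_lit 6951493)) p13_7_2 (nat_lit 4) (nat_lit 38) (nat_lit 39) = true := by decide +kernel
def p13_7_2_39 : pfC (piC [(nat_lit 44228488), (nat_lit 27646207), (nat_lit 20402210), (nat_lit 13743659)] (nat_lit 6951493)) p13_7_2 (nat_lit 4) (nat_lit 39) (nat_lit 40) = true := by decide +kernel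
def p13_7_2_40 : pfC (piC [(nat_lit 44228488), (nat_lit 27646207), (nat_lit 20402210), (nat_lit 13743659)] (nat_lit 6951493)) p13_7_2 (nat_lit 4) (nat_lit 40) (nat_lit 41) = true := by decide +kernel
def p13_7_2_41 : pfC (piC [(nat_lit 44228488), (nat_lit 27646207), (nat_lit 20402210), (nat_lit 13743659)] (nat_lit 6951493)) p13_7_2 (nat_lit 4) (nat_lit 41) (nat_lit 42) = true := by decide +kernel
def p13_7_2_42 : pfC (piC [(nat_lit 44228488), (nat_lit 27646207), (nat_lit 20402210), (nat_lit 13743659)] (nat_lit 6951493)) p13_7_2 (nat_lit 4) (nat_lit 42) (nat_lit 43) = true := by decide +kernel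
def p13_7_2_43 : pfC (piC [(nat_lit 44228488), (nat_lit 27646207), (nat_lit 20402210), (nat_lit 13743659)] (nat_lit 6951493)) p13_7_2 (nat_lit 4) (nat_lit 43) (nat_lit 44) = true := by decide +kernel
def p13_7_2_44 : pfC (piC [(nat_lit 44228488), (nat_lit 27646207), (nat_lit 20402210), (nat_lit 13743659)] (nat_lit 6951493)) p13_7_2 (nat_lit 4) (nat_lit 44) (nat_lit 45) = true := by decide +kernel
def p13_7_2_45 : pfC (piC [(nat_lit 44228488), (nat_lit 27646207), (nat_lit 20402210), (nat_lit 13743659)] (nat_lit 6951493)) p13_7_2 (nat_lit 4) (nat_lit 45) (nat_lit 46) = true := by decide +kernel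
def p13_7_2_46 : pfC (piC [(nat_lit 44228488), (nat_lit 27646207), (nat_lit 20402210), (nat_lit 13743659)] (nat_lit 6951493)) p13_7_2 (nat_lit 4) (nat_lit 46) (nat_lit 47) = true := by decide +kernel
theorem p13_7_2_T : PfS (PiF n13_7.reverse (nat_lit 6951493)) p13_7_2 (nat_lit 4) [] 0 :=
  pftab_of (los := [(nat_lit 44228488), (nat_lit 27646207), (nat_lit 20402210), (nat_lit 13743659)]) (by decide +kernel) (hi := (nat_lit 47)) (PfP.trans (PfP.trans (PfP.trans (PfP.trans (PfP.trans (PfP.trans (PfP.trans (PfP.trans (PfP.trans (PfP.trans (PfP.trans (PfP.trans (PfP.trans (PfP.trans (PfP.trans (PfP.trans (PfP.trans (PfP.trans (PfP.trans (PfP.trans (PfP.trans (PfP.trans (PfP.trans (PfP.trans (PfP.trans (PfP.trans (PfP.trans (PfP.trans (PfP.trans (PfP.trans (PfP.trans (PfP.trans (PfP.trans (PfP.trans (PfP.trans (PfP.trans (PfP.trans (PfP.trans (PfP.trans (PfP.trans (PfP.trans (PfP.trans (PfP.trans (PfP.trans (PfP.trans (PfP.trans (pfC_sound p13_7_2_0) (pfC_sound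 p13_7_2_1)) (pfC_sound p13_7_2_2)) (pfC_sound p13_7_2_3)) (pfC_sound p13_7_2_4)) (pfC_sound p13_7_2_5)) (pfC_sound p13_7_2_6)) (pfC_sound p13_7_2_7)) (pfC_sound p13_7_2_8)) (pfC_sound p13_7_2_9)) (pfC_sound p13_7_2_10)) (pfC_sound p13_7_2_11)) (pfC_sound p13_7_2_12)) (pfC_sound p13_7_2_13)) (pfC_sound p13_7_2_14)) (pfC_sound p13_7_2_15)) (pfC_sound p13_7_2_16)) (pfC_sound p13_7_2_17)) (pfC_sound p13_7_2_18)) (pfC_sound p13_7_2_19)) (pfC_sound p13_7_2_20)) (pfC_sound p13_7_2_21)) (pfC_sound p13_7_2_22)) (pfC_sound p13_7_2_23)) (pfC_sound p13_7_2_24)) (pfC_sound p13_7_2_25)) (pfC_sound p13_7_2_26)) (pfC_sound p13_7_2_27)) (pfC_sound p13_7_2_28))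
 (pfC_sound p13_7_2_29)) (pfC_sound p13_7_2_30)) (pfC_sound p13_7_2_31)) (pfC_sound p13_7_2_32)) (pfC_sound p13_7_2_33)) (pfC_sound p13_7_2_34)) (pfC_sound p13_7_2_35)) (pfC_sound p13_7_2_36)) (pfC_sound p13_7_2_37)) (pfC_sound p13_7_2_38)) (pfC_sound p13_7_2_39)) (pfC_sound p13_7_2_40)) (pfC_sound p13_7_2_41)) (pfC_sound p13_7_2_42)) (pfC_sound p13_7_2_43)) (pfC_sound p13_7_2_44)) (pfC_sound p13_7_2_45)) (pfC_sound p13_7_2_46)) (by decide +kernel)

def z13_7_2 : zOK yB13_7 (nat_lit 2) (nat_lit 600) (nat_lit 750) (nat_lit 6951493) (nat_lit 4910231) = true := by decide +kernel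
def g13_7_2 : gOK yB13_7.x P13_7 (nat_lit 1427) (q13_7 :: r13_7) (nat_lit 2) (nat_lit 600) (nat_lit 3) (nat_lit 750) (nat_lit 12712500) (nat_lit 12712500) (nat_lit 12712500) (nat_lit 12712500) [(nat_lit 800), (nat_lit 1600)] = true := by decide +kernel
def v13_7_2 : ivC P13_7 s13_7 w13_7 n13_7 (nat_lit 4) (nat_lit 4920) (nat_lit 2) (nat_lit 600) f136_1_600 f144_1_600 (nat_lit 3) (nat_lit 750) f136_1_750 f144_1_750 (nat_lit 6951493) (nat_lit 4910231) p13_7_2 = true := by decide +kernel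
def p13_7_3 : PF := (PF.cons (PF.cons (PF.cons (PF.cons (PF.leaf (nat_lit 3093036) (nat_lit 20762435) (nat_lit 46346377) (nat_lit 20762435) [(nat_lit 0), (nat_lit 0), (nat_lit 0), (nat_lit 0)]) (PF.cons (PF.leaf (nat_lit 3187597) (nat_lit 157489) (nat_lit 46217745) (nat_lit 20733578) [(nat_lit 157489), (nat_lit 0), (nat_lit 0), (nat_lit 0)]) (PF.cons (PF.leaf (nat_lit 3303466) (nat_lit 171299) (nat_lit 46066794) (nat_lit 20699419) [(nat_lit 171299), (nat_lit 0), (nat_lit 0), (nat_lit 0)]) (PF.cons (PF.leaf (nat_lit 3434001) (nat_lit 183592) (nat_lit 45897337) (nat_lit 20660699) [(nat_lit 183592), (nat_lit 0), (nat_lit 0), (nat_lit 0)]) (PF.cons (PF.leaf (nat_lit 3576672) (nat_lit 194718) (nat_lit 45712026) (nat_lit 20617913) [(nat_lit 194718), (nat_lit 0), (nat_lit 0), (nat_lit 0)]) (PF.cons (PF.leaf (nat_lit 3730506) (nat_lit 204904) (nat_lit 45512872) (nat_lit 20571419) [(nat_lit 204904), (nat_lit 0), (nat_lit 0), (nat_lit 0)]) (PF.cons (PF.leaf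 (nat_lit 3893997) (nat_lit 214304) (nat_lit 45301487) (nat_lit 20521497) [(nat_lit 214304), (nat_lit 0), (nat_lit 0), (nat_lit 0)]) (PF.cons PF.nil (PF.cons PF.nil PF.nil))))))))) (PF.cons (PF.cons (PF.leaf (nat_lit 3511222) (nat_lit 937231) (nat_lit
 45585031) (nat_lit 20586550) [(nat_lit 0), (nat_lit 937231), (nat_lit 0), (nat_lit 0)]) (PF.cons (PF.leaf (nat_lit 3638452) (nat_lit 193922) (nat_lit 45412648) (nat_lit 20546009) [(nat_lit 193922), (nat_lit 956232), (nat_lit 0), (nat_lit 0)]) (PF.cons (PF.leaf (nat_lit 3781568) (nat_lit 204493) (nat_lit 45223540) (nat_lit 20501089) [(nat_lit 204493), (nat_lit 975194), (nat_lit 0), (nat_lit 0)]) (PF.cons (PF.leaf (nat_lit 3936188) (nat_lit 214122) (nat_lit 45020343) (nat_lit 20452308) [(nat_lit 214122), (nat_lit 993792), (nat_lit 0), (nat_lit 0)]) (PF.cons (PF.leaf (nat_lit 4100577) (nat_lit 222986) (nat_lit 44804990) (nat_lit 20400031) [(nat_lit 222986), (nat_lit 1011846), (nat_lit 0), (nat_lit 0)]) (PF.cons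 (PF.leaf (nat_lit 4273822) (nat_lit 231203) (nat_lit 44578998) (nat_lit 20344538) [(nat_lit 231203), (nat_lit 1029258), (nat_lit 0), (nat_lit 0)]) (PF.cons PF.nil PF.nil))))))) (PF.cons (PF.cons (PF.leaf (nat_lit 3992196) (nat_lit 1006170) (nat_lit 44719282) (nat_lit 20377188) [(nat_lit 0), (nat_lit 1006170), (nat_lit 0), (nat_lit 0)]) (PF.cons (PF.leaf (nat_lit 4144103) (nat_lit 222036) (nat_lit 44514948) (nat_lit 20326791) [(nat_lit 222036), (nat_lit 1022518), (nat_lit 0),
 (nat_lit 0)]) (PF.cons (PF.leaf (nat_lit 4308347) (nat_lit 230533) (nat_lit 44297952) (nat_lit 20272700) [(nat_lit 230533), (nat_lit 1038547), (nat_lit 0), (nat_lit 0)]) (PF.cons (PF.leaf (nat_lit 4481670) (nat_lit 238371) (nat_lit 44070173) (nat_lit 20215294) [(nat_lit 238371), (nat_lit 1054114), (nat_lit 0), (nat_lit 0)]) (PF.cons PF.nil PF.nil))))) (PF.cons (PF.cons (PF.leaf (nat_lit 4519430) (nat_lit 1062458) (nat_lit 43781696) (nat_lit 20139741) [(nat_lit 0), (nat_lit 1062458),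 (nat_lit 0), (nat_lit 0)]) (PF.cons (PF.leaf (nat_lit 4690232) (nat_lit 244641) (nat_lit 43554086) (nat_lit 20080922) [(nat_lit 244641), (nat_lit 1076387), (nat_lit 0), (nat_lit 0)]) (PF.cons (PF.leaf (nat_lit 4871016) (nat_lit 251639) (nat_lit 43316866) (nat_lit 20018957) [(nat_lit 251639), (nat_lit 1089903), (nat_lit 0), (nat_lit 0)]) (PF.cons PF.nil PF.nil)))) (PF.cons (PF.cons (PF.leaf (nat_lit 5080888) (nat_lit 1108570) (nat_lit 42795954) (nat_lit 19878576) [(nat_lit 0), (nat_lit 1108570), (nat_lit 0), (nat_lit 0)]) (PF.cons PF.nil PF.nil)) (PF.cons PF.nil PF.nil)))))) (PF.cons (PF.cons (PF.cons (PF.leaf (nat_lit 3996367) (nat_lit 2636454) (nat_lit 44228118) (nat_lit 20244239) [(nat_lit 0),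
 (nat_lit 0), (nat_lit 2636454), (nat_lit 0)]) (PF.cons (PF.leaf (nat_lit 4131214) (nat_lit 209639) (nat_lit 44047793) (nat_lit 20198741) [(nat_lit 209639), (nat_lit 0), (nat_lit 2652638), (nat_lit 0)]) (PF.cons (PF.leaf (nat_lit 4281281) (nat_lit 219757) (nat_lit 43851317) (nat_lit 20148712) [(nat_lit 219757), (nat_lit 0), (nat_lit 2669268), (nat_lit 0)]) (PF.cons (PF.leaf (nat_lit 4442188) (nat_lit 228841) (nat_lit 43641536) (nat_lit 20094779) [(nat_lit 228841), (nat_lit 0), (nat_lit 2685972), (nat_lit 0)]) (PF.cons (PF.leaf (nat_lit 4612467) (nat_lit 237106) (nat_lit 43420508) (nat_lit 20037380) [(nat_lit 237106), (nat_lit 0), (nat_lit 2702498), (nat_lit 0)]) (PF.cons PF.nil (PF.cons PF.nil PF.nil))))))) (PF.cons (PF.cons (PF.leaf (nat_lit 4491599) (nat_lit 1052757) (nat_lit 43340798) (nat_lit 20014658) [(nat_lit 0), (nat_lit 1052757), (nat_lit 2700598), (nat_lit 0)]) (PF.cons (PF.leaf (nat_lit 4649083) (nat_lit 235189) (nat_lit 43132012) (nat_lit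 19959686) [(nat_lit 235189), (nat_lit 1066691), (nat_lit 2715232), (nat_lit 0)]) (PF.cons (PF.leaf (nat_lit 4818303) (nat_lit 243180) (nat_lit 42911341) (nat_lit 19901026) [(nat_lit 243180), (nat_lit 1080298), (nat_lit 2729784),
 (nat_lit 0)]) (PF.cons (PF.leaf (nat_lit 4996078) (nat_lit 250476) (nat_lit 42680739) (nat_lit 19839118) [(nat_lit 250476), (nat_lit 1093465), (nat_lit 2744060), (nat_lit 0)]) (PF.cons PF.nil PF.nil))))) (PF.cons (PF.cons (PF.leaf (nat_lit 5026926) (nat_lit 1099343) (nat_lit 42396285) (nat_lit 19759993) [(nat_lit 0), (nat_lit 1099343), (nat_lit 2753846), (nat_lit 0)]) (PF.cons (PF.leaf (nat_lit 5201622) (nat_lit 255500) (nat_lit 42167454) (nat_lit 19697188) [(nat_lit 255500), (nat_lit 1111155), (nat_lit 2766357), (nat_lit 0)]) (PF.cons PF.nil (PF.cons PF.nil PF.nil)))) (PF.cons (PF.cons (PF.leaf (nat_lit 5591237) (nat_lit 1137325) (nat_lit 41415651) (nat_lit 19484752) [(nat_lit 0), (nat_lit 1137325), (nat_lit 2796431), (nat_lit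 0)]) (PF.cons PF.nil PF.nil)) (PF.cons PF.nil PF.nil))))) (PF.cons (PF.cons (PF.cons (PF.leaf (nat_lit 4985951) (nat_lit 2747811) (nat_lit 41978342) (nat_lit 19634848) [(nat_lit 0), (nat_lit 0), (nat_lit 2747811), (nat_lit 0)]) (PF.cons (PF.leaf (nat_lit 5147605) (nat_lit 245885) (nat_lit 41768088) (nat_lit 19576239) [(nat_lit 245885), (nat_lit 0), (nat_lit 2759300), (nat_lit 0)]) (PF.cons (PF.leaf (nat_lit 5320297) (nat_lit 253422) (nat_lit 41546690)
 (nat_lit 19513985) [(nat_lit 253422), (nat_lit 0), (nat_lit 2770646), (nat_lit 0)]) (PF.cons PF.nil (PF.cons PF.nil PF.nil))))) (PF.cons (PF.cons (PF.leaf (nat_lit 5525518) (nat_lit 1127454) (nat_lit 41038210) (nat_lit 19367080) [(nat_lit 0), (nat_lit 1127454), (nat_lit 2788033), (nat_lit 0)]) (PF.cons (PF.leaf (nat_lit 5702801) (nat_lit 264234) (nat_lit 40810611) (nat_lit 19301230) [(nat_lit 264234), (nat_lit 1137501), (nat_lit 2797617), (nat_lit 0)]) (PF.cons PF.nil (PF.cons PF.nil PF.nil)))) (PF.cons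 (PF.cons (PF.leaf (nat_lit 6089739) (nat_lit 1158729) (nat_lit 40071434) (nat_lit 19081635) [(nat_lit 0), (nat_lit 1158729), (nat_lit 2819142), (nat_lit 0)]) (PF.cons PF.nil PF.nil)) PF.nil))) (PF.cons (PF.cons (PF.cons (PF.leaf (nat_lit 6013717) (nat_lit 2808982) (nat_lit 39716002) (nat_lit 18965862) [(nat_lit 0), (nat_lit 0), (nat_lit 2808982), (nat_lit 0)]) (PF.cons (PF.leaf (nat_lit 6192544) (nat_lit 271206) (nat_lit 39491447) (nat_lit 18897793) [(nat_lit 271206), (nat_lit 0), (nat_lit 2816121), (nat_lit 0)]) PF.nil)) (PF.cons PF.nil PF.nil)) (PF.cons PF.nil (PF.cons PF.nil PF.nil)))))) (PF.cons (PF.cons (PF.cons (PF.cons (PF.leaf (nat_lit 4723981) (nat_lit 6500056) (nat_lit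
 41234818) (nat_lit 19373937) [(nat_lit 0), (nat_lit 0), (nat_lit 0), (nat_lit 6500056)]) (PF.cons (PF.leaf (nat_lit 4860397) (nat_lit 217810) (nat_lit 41063292) (nat_lit 19325374) [(nat_lit 217810), (nat_lit 0), (nat_lit 0), (nat_lit 6502334)]) (PF.cons (PF.leaf (nat_lit 5011444) (nat_lit 227675) (nat_lit 40876947) (nat_lit 19272238) [(nat_lit 227675), (nat_lit 0), (nat_lit 0), (nat_lit 6504275)]) (PF.cons (PF.leaf (nat_lit 5172824) (nat_lit 236419) (nat_lit 40678561) (nat_lit 19215241) [(nat_lit 236419), (nat_lit 0), (nat_lit 0), (nat_lit 6505752)]) (PF.cons (PF.leaf (nat_lit 5343011) (nat_lit 244278) (nat_lit 40470137) (nat_lit 19154888) [(nat_lit 244278), (nat_lit 0), (nat_lit 0), (nat_lit 6506671)]) (PF.cons PF.nil (PF.cons PF.nil PF.nil))))))) (PF.cons (PF.cons (PF.leaf (nat_lit 5214314) (nat_lit 1075100) (nat_lit 40398606) (nat_lit 19132319) [(nat_lit 0), (nat_lit 1075100), (nat_lit 0), (nat_lit 6502785)]) (PF.cons (PF.leaf (nat_lit 5371623)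 (nat_lit 241601) (nat_lit 40202323) (nat_lit 19074879) [(nat_lit 241601), (nat_lit 1087084), (nat_lit 0), (nat_lit 6502923)]) (PF.cons (PF.leaf (nat_lit 5540019) (nat_lit 249206) (nat_lit 39995377) (nat_lit 19013862) [(nat_lit 249206),
 (nat_lit 1098671), (nat_lit 0), (nat_lit 6502489)]) (PF.cons (PF.leaf (nat_lit 5716409) (nat_lit 256071) (nat_lit 39779638) (nat_lit 18949759) [(nat_lit 256071), (nat_lit 1109779), (nat_lit 0), (nat_lit 6501419)]) (PF.cons PF.nil PF.nil))))) (PF.cons (PF.cons (PF.leaf (nat_lit 5739211) (nat_lit 1113357) (nat_lit 39517250) (nat_lit 18869371) [(nat_lit 0), (nat_lit 1113357), (nat_lit 0), (nat_lit 6495474)]) (PF.cons (PF.leaf (nat_lit 5911946) (nat_lit 260041) (nat_lit 39304130) (nat_lit 18804948) [(nat_lit 260041), (nat_lit 1123270), (nat_lit 0), (nat_lit 6493150)]) (PF.cons PF.nil (PF.cons PF.nil PF.nil)))) (PF.cons (PF.cons (PF.leaf (nat_lit 6288315) (nat_lit 1143762) (nat_lit 38609495) (nat_lit 18589901) [(nat_lit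 0), (nat_lit 1143762), (nat_lit 0), (nat_lit 6478128)]) (PF.cons PF.nil PF.nil)) (PF.cons PF.nil PF.nil))))) (PF.cons (PF.cons (PF.cons (PF.leaf (nat_lit 5684977) (nat_lit 2746854) (nat_lit 39141977) (nat_lit 18746812) [(nat_lit 0), (nat_lit 0), (nat_lit 2746854), (nat_lit 6473168)]) (PF.cons (PF.leaf (nat_lit 5845104) (nat_lit 249981) (nat_lit 38946294) (nat_lit 18686980) [(nat_lit 249981), (nat_lit 0), (nat_lit 2754995), (nat_lit 6470560)]) (PF.cons (PF.leaf (nat_lit
 6015854) (nat_lit 257145) (nat_lit 38740631) (nat_lit 18623662) [(nat_lit 257145), (nat_lit 0), (nat_lit 2762922), (nat_lit 6467306)]) (PF.cons PF.nil (PF.cons PF.nil PF.nil))))) (PF.cons (PF.cons (PF.leaf (nat_lit 6211035) (nat_lit 1132640) (nat_lit 38272346) (nat_lit 18476146) [(nat_lit 0), (nat_lit 1132640), (nat_lit 2773232), (nat_lit 6454446)]) (PF.cons (PF.leaf (nat_lit 6385326) (nat_lit 266662) (nat_lit 38062027) (nat_lit 18409912) [(nat_lit 266662), (nat_lit 1141064), (nat_lit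 2779660), (nat_lit 6449484)]) (PF.cons PF.nil (PF.cons PF.nil PF.nil)))) (PF.cons (PF.cons (PF.leaf (nat_lit 6757818) (nat_lit 1157543) (nat_lit 37383479) (nat_lit 18191467) [(nat_lit 0), (nat_lit 1157543), (nat_lit 2791997), (nat_lit 6426781)]) (PF.cons PF.nil PF.nil)) PF.nil))) (PF.cons (PF.cons (PF.cons (PF.leaf (nat_lit 6672033) (nat_lit 2779753) (nat_lit 37066911) (nat_lit 18080881) [(nat_lit 0), (nat_lit 0), (nat_lit 2779753), (nat_lit 6401513)]) (PF.cons (PF.leaf (nat_lit 6847075) (nat_lit 271869) (nat_lit 36860594) (nat_lit 18013472) [(nat_lit 271869), (nat_lit 0), (nat_lit 2784271), (nat_lit 6394334)]) PF.nil)) (PF.cons PF.nil PF.nil)) (PF.cons PF.nil (PF.cons PF.nil PF.nil))))) (PF.cons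
 (PF.cons (PF.cons (PF.cons (PF.leaf (nat_lit 6331638) (nat_lit 6322363) (nat_lit 36580024) (nat_lit 17884061) [(nat_lit 0), (nat_lit 0), (nat_lit 0), (nat_lit 6322363)]) (PF.cons (PF.leaf (nat_lit 6489323) (nat_lit 251482) (nat_lit 36399280) (nat_lit 17824689) [(nat_lit 251482), (nat_lit 0), (nat_lit 0), (nat_lit 6316680)]) (PF.cons (PF.leaf (nat_lit 6657183) (nat_lit 258301) (nat_lit 36209584) (nat_lit 17762021) [(nat_lit 258301), (nat_lit 0), (nat_lit 0), (nat_lit 6310301)]) (PF.cons PF.nil PF.nil)))) (PF.cons (PF.cons (PF.leaf (nat_lit 6842828) (nat_lit 1128139) (nat_lit 35780807) (nat_lit 17617506) [(nat_lit 0), (nat_lit 1128139), (nat_lit 0), (nat_lit 6291179)]) (PF.cons (PF.leaf (nat_lit 7013488) (nat_lit 266761) (nat_lit 35587531) (nat_lit 17552459) [(nat_lit 266761), (nat_lit 1135282), (nat_lit 0), (nat_lit 6283388)]) PF.nil)) (PF.cons PF.nil PF.nil))) (PF.cons (PF.cons (PF.cons (PF.leaf (nat_lit 7278713) (nat_lit 2735131) (nat_lit 34685683)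 (nat_lit 17235701) [(nat_lit 0), (nat_lit 0), (nat_lit 2735131), (nat_lit 6226148)]) (PF.cons PF.nil PF.nil)) (PF.cons PF.nil PF.nil)) (PF.cons PF.nil PF.nil))) (PF.cons (PF.cons (PF.cons (PF.cons (PF.leaf (nat_lit 7840346) (nat_lit
 6041908) (nat_lit 32545395) (nat_lit 16437690) [(nat_lit 0), (nat_lit 0), (nat_lit 0), (nat_lit 6041908)]) (PF.cons PF.nil PF.nil)) (PF.cons PF.nil PF.nil)) (PF.cons PF.nil PF.nil)) (PF.cons PF.nil (PF.cons PF.nil PF.nil))))))

def p13_7_3_0 : pfC (piC [(nat_lit 44228488), (nat_lit 27646207), (nat_lit 20402210), (nat_lit 13743659)] (nat_lit 4910231)) p13_7_3 (nat_lit 4) (nat_lit 0) (nat_lit 1) = true := by decide +kernel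
def p13_7_3_1 : pfC (piC [(nat_lit 44228488), (nat_lit 27646207), (nat_lit 20402210), (nat_lit 13743659)] (nat_lit 4910231)) p13_7_3 (nat_lit 4) (nat_lit 1) (nat_lit 2) = true := by decide +kernel
def p13_7_3_2 : pfC (piC [(nat_lit 44228488), (nat_lit 27646207), (nat_lit 20402210), (nat_lit 13743659)] (nat_lit 4910231)) p13_7_3 (nat_lit 4) (nat_lit 2) (nat_lit 3) = true := by decide +kernel
def p13_7_3_3 : pfC (piC [(nat_lit 44228488), (nat_lit 27646207), (nat_lit 20402210), (nat_lit 13743659)] (nat_lit 4910231)) p13_7_3 (nat_lit 4) (nat_lit 3) (nat_lit 4) = true := by decide +kernel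
def p13_7_3_4 : pfC (piC [(nat_lit 44228488), (nat_lit 27646207), (nat_lit 20402210), (nat_lit 13743659)] (nat_lit 4910231)) p13_7_3 (nat_lit 4) (nat_lit 4) (nat_lit 5) = true := by decide +kernel
def p13_7_3_5 : pfC (piC [(nat_lit 44228488), (nat_lit 27646207), (nat_lit 20402210), (nat_lit 13743659)] (nat_lit 4910231)) p13_7_3 (nat_lit 4) (nat_lit 5) (nat_lit 6) = true := by decide +kernel
def p13_7_3_6 : pfC (piC [(nat_lit 44228488), (nat_lit 27646207), (nat_lit 20402210), (nat_lit 13743659)] (nat_lit 4910231)) p13_7_3 (nat_lit 4) (nat_lit 6) (nat_lit 7) = true := by decide +kernel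
def p13_7_3_7 : pfC (piC [(nat_lit 44228488), (nat_lit 27646207), (nat_lit 20402210), (nat_lit 13743659)] (nat_lit 4910231)) p13_7_3 (nat_lit 4) (nat_lit 7) (nat_lit 8) = true := by decide +kernel
def p13_7_3_8 : pfC (piC [(nat_lit 44228488), (nat_lit 27646207), (nat_lit 20402210), (nat_lit 13743659)] (nat_lit 4910231)) p13_7_3 (nat_lit 4) (nat_lit 8) (nat_lit 9) = true := by decide +kernel
def p13_7_3_9 : pfC (piC [(nat_lit 44228488), (nat_lit 27646207), (nat_lit 20402210), (nat_lit 13743659)] (nat_lit 4910231)) p13_7_3 (nat_lit 4) (nat_lit 9) (nat_lit 10) = true := by decide +kernel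
def p13_7_3_10 : pfC (piC [(nat_lit 44228488), (nat_lit 27646207), (nat_lit 20402210), (nat_lit 13743659)] (nat_lit 4910231)) p13_7_3 (nat_lit 4) (nat_lit 10) (nat_lit 11) = true := by decide +kernel
def p13_7_3_11 : pfC (piC [(nat_lit 44228488), (nat_lit 27646207), (nat_lit 20402210), (nat_lit 13743659)] (nat_lit 4910231)) p13_7_3 (nat_lit 4) (nat_lit 11) (nat_lit 12) = true := by decide +kernel
def p13_7_3_12 : pfC (piC [(nat_lit 44228488), (nat_lit 27646207), (nat_lit 20402210), (nat_lit 13743659)] (nat_lit 4910231)) p13_7_3 (nat_lit 4) (nat_lit 12) (nat_lit 13) = true := by decide +kernel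
def p13_7_3_13 : pfC (piC [(nat_lit 44228488), (nat_lit 27646207), (nat_lit 20402210), (nat_lit 13743659)] (nat_lit 4910231)) p13_7_3 (nat_lit 4) (nat_lit 13) (nat_lit 14) = true := by decide +kernel
def p13_7_3_14 : pfC (piC [(nat_lit 44228488), (nat_lit 27646207), (nat_lit 20402210), (nat_lit 13743659)] (nat_lit 4910231)) p13_7_3 (nat_lit 4) (nat_lit 14) (nat_lit 15) = true := by decide +kernel
def p13_7_3_15 : pfC (piC [(nat_lit 44228488), (nat_lit 27646207), (nat_lit 20402210), (nat_lit 13743659)] (nat_lit 4910231)) p13_7_3 (nat_lit 4) (nat_lit 15) (nat_lit 16) = true := by decide +kernel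
def p13_7_3_16 : pfC (piC [(nat_lit 44228488), (nat_lit 27646207), (nat_lit 20402210), (nat_lit 13743659)] (nat_lit 4910231)) p13_7_3 (nat_lit 4) (nat_lit 16) (nat_lit 17) = true := by decide +kernel
def p13_7_3_17 : pfC (piC [(nat_lit 44228488), (nat_lit 27646207), (nat_lit 20402210), (nat_lit 13743659)] (nat_lit 4910231)) p13_7_3 (nat_lit 4) (nat_lit 17) (nat_lit 18) = true := by decide +kernel
def p13_7_3_18 : pfC (piC [(nat_lit 44228488), (nat_lit 27646207), (nat_lit 20402210), (nat_lit 13743659)] (nat_lit 4910231)) p13_7_3 (nat_lit 4) (nat_lit 18) (nat_lit 19) = true := by decide +kernel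
def p13_7_3_19 : pfC (piC [(nat_lit 44228488), (nat_lit 27646207), (nat_lit 20402210), (nat_lit 13743659)] (nat_lit 4910231)) p13_7_3 (nat_lit 4) (nat_lit 19) (nat_lit 20) = true := by decide +kernel
def p13_7_3_20 : pfC (piC [(nat_lit 44228488), (nat_lit 27646207), (nat_lit 20402210), (nat_lit 13743659)] (nat_lit 4910231)) p13_7_3 (nat_lit 4) (nat_lit 20) (nat_lit 21) = true := by decide +kernel
def p13_7_3_21 : pfC (piC [(nat_lit 44228488), (nat_lit 27646207), (nat_lit 20402210), (nat_lit 13743659)] (nat_lit 4910231)) p13_7_3 (nat_lit 4) (nat_lit 21) (nat_lit 22) = true := by decide +kernel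
def p13_7_3_22 : pfC (piC [(nat_lit 44228488), (nat_lit 27646207), (nat_lit 20402210), (nat_lit 13743659)] (nat_lit 4910231)) p13_7_3 (nat_lit 4) (nat_lit 22) (nat_lit 23) = true := by decide +kernel
def p13_7_3_23 : pfC (piC [(nat_lit 44228488), (nat_lit 27646207), (nat_lit 20402210), (nat_lit 13743659)] (nat_lit 4910231)) p13_7_3 (nat_lit 4) (nat_lit 23) (nat_lit 24) = true := by decide +kernel
def p13_7_3_24 : pfC (piC [(nat_lit 44228488), (nat_lit 27646207), (nat_lit 20402210), (nat_lit 13743659)] (nat_lit 4910231)) p13_7_3 (nat_lit 4) (nat_lit 24) (nat_lit 25) = true := by decide +kernel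
def p13_7_3_25 : pfC (piC [(nat_lit 44228488), (nat_lit 27646207), (nat_lit 20402210), (nat_lit 13743659)] (nat_lit 4910231)) p13_7_3 (nat_lit 4) (nat_lit 25) (nat_lit 26) = true := by decide +kernel
def p13_7_3_26 : pfC (piC [(nat_lit 44228488), (nat_lit 27646207), (nat_lit 20402210), (nat_lit 13743659)] (nat_lit 4910231)) p13_7_3 (nat_lit 4) (nat_lit 26) (nat_lit 27) = true := by decide +kernel
def p13_7_3_27 : pfC (piC [(nat_lit 44228488), (nat_lit 27646207), (nat_lit 20402210), (nat_lit 13743659)] (nat_lit 4910231)) p13_7_3 (nat_lit 4) (nat_lit 27) (nat_lit 28) = true := by decide +kernel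
def p13_7_3_28 : pfC (piC [(nat_lit 44228488), (nat_lit 27646207), (nat_lit 20402210), (nat_lit 13743659)] (nat_lit 4910231)) p13_7_3 (nat_lit 4) (nat_lit 28) (nat_lit 29) = true := by decide +kernel
def p13_7_3_29 : pfC (piC [(nat_lit 44228488), (nat_lit 27646207), (nat_lit 20402210), (nat_lit 13743659)] (nat_lit 4910231)) p13_7_3 (nat_lit 4) (nat_lit 29) (nat_lit 30) = true := by decide +kernel
def p13_7_3_30 : pfC (piC [(nat_lit 44228488), (nat_lit 27646207), (nat_lit 20402210), (nat_lit 13743659)] (nat_lit 4910231)) p13_7_3 (nat_lit 4) (nat_lit 30) (nat_lit 31) = true := by decide +kernel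
def p13_7_3_31 : pfC (piC [(nat_lit 44228488), (nat_lit 27646207), (nat_lit 20402210), (nat_lit 13743659)] (nat_lit 4910231)) p13_7_3 (nat_lit 4) (nat_lit 31) (nat_lit 32) = true := by decide +kernel
def p13_7_3_32 : pfC (piC [(nat_lit 44228488), (nat_lit 27646207), (nat_lit 20402210), (nat_lit 13743659)] (nat_lit 4910231)) p13_7_3 (nat_lit 4) (nat_lit 32) (nat_lit 33) = true := by decide +kernel
def p13_7_3_33 : pfC (piC [(nat_lit 44228488), (nat_lit 27646207), (nat_lit 20402210), (nat_lit 13743659)] (nat_lit 4910231)) p13_7_3 (nat_lit 4) (nat_lit 33) (nat_lit 34) = true := by decide +kernel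
def p13_7_3_34 : pfC (piC [(nat_lit 44228488), (nat_lit 27646207), (nat_lit 20402210), (nat_lit 13743659)] (nat_lit 4910231)) p13_7_3 (nat_lit 4) (nat_lit 34) (nat_lit 35) = true := by decide +kernel
def p13_7_3_35 : pfC (piC [(nat_lit 44228488), (nat_lit 27646207), (nat_lit 20402210), (nat_lit 13743659)] (nat_lit 4910231)) p13_7_3 (nat_lit 4) (nat_lit 35) (nat_lit 36) = true := by decide +kernel
def p13_7_3_36 : pfC (piC [(nat_lit 44228488), (nat_lit 27646207), (nat_lit 20402210), (nat_lit 13743659)] (nat_lit 4910231)) p13_7_3 (nat_lit 4) (nat_lit 36) (nat_lit 37) = true := by decide +kernel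
def p13_7_3_37 : pfC (piC [(nat_lit 44228488), (nat_lit 27646207), (nat_lit 20402210), (nat_lit 13743659)] (nat_lit 4910231)) p13_7_3 (nat_lit 4) (nat_lit 37) (nat_lit 38) = true := by decide +kernel
def p13_7_3_38 : pfC (piC [(nat_lit 44228488), (nat_lit 27646207), (nat_lit 20402210), (nat_lit 13743659)] (nat_lit 4910231)) p13_7_3 (nat_lit 4) (nat_lit 38) (nat_lit 39) = true := by decide +kernel
def p13_7_3_39 : pfC (piC [(nat_lit 44228488), (nat_lit 27646207), (nat_lit 20402210), (nat_lit 13743659)] (nat_lit 4910231)) p13_7_3 (nat_lit 4) (nat_lit 39) (nat_lit 40) = true := by decide +kernel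
def p13_7_3_40 : pfC (piC [(nat_lit 44228488), (nat_lit 27646207), (nat_lit 20402210), (nat_lit 13743659)] (nat_lit 4910231)) p13_7_3 (nat_lit 4) (nat_lit 40) (nat_lit 41) = true := by decide +kernel
def p13_7_3_41 : pfC (piC [(nat_lit 44228488), (nat_lit 27646207), (nat_lit 20402210), (nat_lit 13743659)] (nat_lit 4910231)) p13_7_3 (nat_lit 4) (nat_lit 41) (nat_lit 42) = true := by decide +kernel
def p13_7_3_42 : pfC (piC [(nat_lit 44228488), (nat_lit 27646207), (nat_lit 20402210), (nat_lit 13743659)] (nat_lit 4910231)) p13_7_3 (nat_lit 4) (nat_lit 42) (nat_lit 43) = true := by decide +kernel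
def p13_7_3_43 : pfC (piC [(nat_lit 44228488), (nat_lit 27646207), (nat_lit 20402210), (nat_lit 13743659)] (nat_lit 4910231)) p13_7_3 (nat_lit 4) (nat_lit 43) (nat_lit 44) = true := by decide +kernel
def p13_7_3_44 : pfC (piC [(nat_lit 44228488), (nat_lit 27646207), (nat_lit 20402210), (nat_lit 13743659)] (nat_lit 4910231)) p13_7_3 (nat_lit 4) (nat_lit 44) (nat_lit 45) = true := by decide +kernel
def p13_7_3_45 : pfC (piC [(nat_lit 44228488), (nat_lit 27646207), (nat_lit 20402210), (nat_lit 13743659)] (nat_lit 4910231)) p13_7_3 (nat_lit 4) (nat_lit 45) (nat_lit 46) = true := by decide +kernel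
def p13_7_3_46 : pfC (piC [(nat_lit 44228488), (nat_lit 27646207), (nat_lit 20402210), (nat_lit 13743659)] (nat_lit 4910231)) p13_7_3 (nat_lit 4) (nat_lit 46) (nat_lit 47) = true := by decide +kernel
def p13_7_3_47 : pfC (piC [(nat_lit 44228488), (nat_lit 27646207), (nat_lit 20402210), (nat_lit 13743659)] (nat_lit 4910231)) p13_7_3 (nat_lit 4) (nat_lit 47) (nat_lit 48) = true := by decide +kernel
def p13_7_3_48 : pfC (piC [(nat_lit 44228488), (nat_lit 27646207), (nat_lit 20402210), (nat_lit 13743659)] (nat_lit 4910231)) p13_7_3 (nat_lit 4) (nat_lit 48) (nat_lit 49) = true := by decide +kernel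
def p13_7_3_49 : pfC (piC [(nat_lit 44228488), (nat_lit 27646207), (nat_lit 20402210), (nat_lit 13743659)] (nat_lit 4910231)) p13_7_3 (nat_lit 4) (nat_lit 49) (nat_lit 50) = true := by decide +kernel
def p13_7_3_50 : pfC (piC [(nat_lit 44228488), (nat_lit 27646207), (nat_lit 20402210), (nat_lit 13743659)] (nat_lit 4910231)) p13_7_3 (nat_lit 4) (nat_lit 50) (nat_lit 51) = true := by decide +kernel
def p13_7_3_51 : pfC (piC [(nat_lit 44228488), (nat_lit 27646207), (nat_lit 20402210), (nat_lit 13743659)] (nat_lit 4910231)) p13_7_3 (nat_lit 4) (nat_lit 51) (nat_lit 52) = true := by decide +kernel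
def p13_7_3_52 : pfC (piC [(nat_lit 44228488), (nat_lit 27646207), (nat_lit 20402210), (nat_lit 13743659)] (nat_lit 4910231)) p13_7_3 (nat_lit 4) (nat_lit 52) (nat_lit 53) = true := by decide +kernel
def p13_7_3_53 : pfC (piC [(nat_lit 44228488), (nat_lit 27646207), (nat_lit 20402210), (nat_lit 13743659)] (nat_lit 4910231)) p13_7_3 (nat_lit 4) (nat_lit 53) (nat_lit 54) = true := by decide +kernel
def p13_7_3_54 : pfC (piC [(nat_lit 44228488), (nat_lit 27646207), (nat_lit 20402210), (nat_lit 13743659)] (nat_lit 4910231)) p13_7_3 (nat_lit 4) (nat_lit 54) (nat_lit 55) = true := by decide +kernel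
def p13_7_3_55 : pfC (piC [(nat_lit 44228488), (nat_lit 27646207), (nat_lit 20402210), (nat_lit 13743659)] (nat_lit 4910231)) p13_7_3 (nat_lit 4) (nat_lit 55) (nat_lit 56) = true := by decide +kernel
def p13_7_3_56 : pfC (piC [(nat_lit 44228488), (nat_lit 27646207), (nat_lit 20402210), (nat_lit 13743659)] (nat_lit 4910231)) p13_7_3 (nat_lit 4) (nat_lit 56) (nat_lit 57) = true := by decide +kernel
def p13_7_3_57 : pfC (piC [(nat_lit 44228488), (nat_lit 27646207), (nat_lit 20402210), (nat_lit 13743659)] (nat_lit 4910231)) p13_7_3 (nat_lit 4) (nat_lit 57) (nat_lit 58) = true := by decide +kernel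
def p13_7_3_58 : pfC (piC [(nat_lit 44228488), (nat_lit 27646207), (nat_lit 20402210), (nat_lit 13743659)] (nat_lit 4910231)) p13_7_3 (nat_lit 4) (nat_lit 58) (nat_lit 59) = true := by decide +kernel
def p13_7_3_59 : pfC (piC [(nat_lit 44228488), (nat_lit 27646207), (nat_lit 20402210), (nat_lit 13743659)] (nat_lit 4910231)) p13_7_3 (nat_lit 4) (nat_lit 59) (nat_lit 60) = true := by decide +kernel
def p13_7_3_60 : pfC (piC [(nat_lit 44228488), (nat_lit 27646207), (nat_lit 20402210), (nat_lit 13743659)] (nat_lit 4910231)) p13_7_3 (nat_lit 4) (nat_lit 60) (nat_lit 61) = true := by decide +kernel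
def p13_7_3_61 : pfC (piC [(nat_lit 44228488), (nat_lit 27646207), (nat_lit 20402210), (nat_lit 13743659)] (nat_lit 4910231)) p13_7_3 (nat_lit 4) (nat_lit 61) (nat_lit 62) = true := by decide +kernel
def p13_7_3_62 : pfC (piC [(nat_lit 44228488), (nat_lit 27646207), (nat_lit 20402210), (nat_lit 13743659)] (nat_lit 4910231)) p13_7_3 (nat_lit 4) (nat_lit 62) (nat_lit 63) = true := by decide +kernel
def p13_7_3_63 : pfC (piC [(nat_lit 44228488), (nat_lit 27646207), (nat_lit 20402210), (nat_lit 13743659)] (nat_lit 4910231)) p13_7_3 (nat_lit 4) (nat_lit 63) (nat_lit 64) = true := by decide +kernel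
def p13_7_3_64 : pfC (piC [(nat_lit 44228488), (nat_lit 27646207), (nat_lit 20402210), (nat_lit 13743659)] (nat_lit 4910231)) p13_7_3 (nat_lit 4) (nat_lit 64) (nat_lit 65) = true := by decide +kernel
def p13_7_3_65 : pfC (piC [(nat_lit 44228488), (nat_lit 27646207), (nat_lit 20402210), (nat_lit 13743659)] (nat_lit 4910231)) p13_7_3 (nat_lit 4) (nat_lit 65) (nat_lit 66) = true := by decide +kernel
def p13_7_3_66 : pfC (piC [(nat_lit 44228488), (nat_lit 27646207), (nat_lit 20402210), (nat_lit 13743659)] (nat_lit 4910231)) p13_7_3 (nat_lit 4) (nat_lit 66) (nat_lit 67) = true := by decide +kernel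
def p13_7_3_67 : pfC (piC [(nat_lit 44228488), (nat_lit 27646207), (nat_lit 20402210), (nat_lit 13743659)] (nat_lit 4910231)) p13_7_3 (nat_lit 4) (nat_lit 67) (nat_lit 68) = true := by decide +kernel
theorem p13_7_3_T : PfS (PiF n13_7.reverse (nat_lit 4910231)) p13_7_3 (nat_lit 4) [] 0 :=
  pftab_of (los := [(nat_lit 44228488), (nat_lit 27646207), (nat_lit 20402210), (nat_lit 13743659)]) (by decide +kernel) (hi := (nat_lit 68)) (PfP.trans (PfP.trans (PfP.trans (PfP.trans (PfP.trans (PfP.trans (PfP.trans (PfP.trans (PfP.trans (PfP.trans (PfP.trans (PfP.trans (PfP.trans (PfP.trans (PfP.trans (PfP.trans (PfP.trans (PfP.trans (PfP.trans (PfP.trans (PfP.trans (PfP.trans (PfP.trans (PfP.trans (PfP.trans (PfP.trans (PfP.trans (PfP.trans (PfP.trans (PfP.trans (PfP.trans (PfP.trans (PfP.trans (PfP.trans (PfP.trans (PfP.trans (PfP.trans (PfP.trans (PfP.trans (PfP.trans (PfP.trans (PfP.trans (PfP.trans (PfP.trans (PfP.trans (PfP.trans (PfP.trans (PfP.trans (PfP.trans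 (PfP.trans (PfP.trans (PfP.trans (PfP.trans (PfP.trans (PfP.trans (PfP.trans (PfP.trans (PfP.trans (PfP.trans (PfP.trans (PfP.trans (PfP.trans (PfP.trans (PfP.trans (PfP.trans (PfP.trans (PfP.trans (pfC_sound p13_7_3_0) (pfC_sound p13_7_3_1)) (pfC_sound p13_7_3_2)) (pfC_sound p13_7_3_3)) (pfC_sound p13_7_3_4)) (pfC_sound p13_7_3_5)) (pfC_sound p13_7_3_6)) (pfC_sound p13_7_3_7)) (pfC_sound p13_7_3_8)) (pfC_sound p13_7_3_9)) (pfC_sound p13_7_3_10)) (pfC_sound p13_7_3_11)) (pfC_sound p13_7_3_12)) (pfC_sound p13_7_3_13)) (pfC_sound p13_7_3_14)) (pfC_sound p13_7_3_15)) (pfC_sound p13_7_3_16)) (pfC_sound p13_7_3_17)) (pfC_sound p13_7_3_18)) (pfC_sound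
 p13_7_3_19)) (pfC_sound p13_7_3_20)) (pfC_sound p13_7_3_21)) (pfC_sound p13_7_3_22)) (pfC_sound p13_7_3_23)) (pfC_sound p13_7_3_24)) (pfC_sound p13_7_3_25)) (pfC_sound p13_7_3_26)) (pfC_sound p13_7_3_27)) (pfC_sound p13_7_3_28)) (pfC_sound p13_7_3_29)) (pfC_sound p13_7_3_30)) (pfC_sound p13_7_3_31)) (pfC_sound p13_7_3_32)) (pfC_sound p13_7_3_33)) (pfC_sound p13_7_3_34)) (pfC_sound p13_7_3_35)) (pfC_sound p13_7_3_36)) (pfC_sound p13_7_3_37)) (pfC_sound p13_7_3_38)) (pfC_sound p13_7_3_39)) (pfC_sound p13_7_3_40)) (pfC_sound p13_7_3_41)) (pfC_sound p13_7_3_42)) (pfC_sound p13_7_3_43)) (pfC_sound p13_7_3_44)) (pfC_sound p13_7_3_45)) (pfC_sound p13_7_3_46)) (pfC_sound p13_7_3_47)) (pfC_sound p13_7_3_48)) (pfC_sound p13_7_3_49)) (pfC_sound p13_7_3_50)) (pfC_sound p13_7_3_51)) (pfC_sound p13_7_3_52)) (pfC_sound p13_7_3_53)) (pfC_sound p13_7_3_54)) (pfC_sound p13_7_3_55)) (pfC_sound p13_7_3_56)) (pfC_sound p13_7_3_57)) (pfC_sound p13_7_3_58)) (pfC_sound p13_7_3_59))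 (pfC_sound p13_7_3_60)) (pfC_sound p13_7_3_61)) (pfC_sound p13_7_3_62)) (pfC_sound p13_7_3_63)) (pfC_sound p13_7_3_64)) (pfC_sound p13_7_3_65)) (pfC_sound p13_7_3_66)) (pfC_sound p13_7_3_67)) (by decide +kernel)

def z13_7_3 : zOK yB13_7 (nat_lit 3) (nat_lit 750) (nat_lit 922) (nat_lit 4910231) (nat_lit 3119749) = true := by decide +kernel
def g13_7_3 : gOK yB13_7.x P13_7 (nat_lit 1427) (q13_7 :: r13_7) (nat_lit 3) (nat_lit 750) (nat_lit 4) (nat_lit 922) (nat_lit 12712500) (nat_lit 12712500) (nat_lit 12712500) (nat_lit 12712500) [(nat_lit 800)] = true := by decide +kernel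
def v13_7_3 : ivC P13_7 s13_7 w13_7 n13_7 (nat_lit 4) (nat_lit 4770) (nat_lit 3) (nat_lit 750) f136_1_750 f144_1_750 (nat_lit 4) (nat_lit 922) f136_1_922 f144_1_922 (nat_lit 4910231) (nat_lit 3119749) p13_7_3 = true := by decide +kernel
/-! box `yB13_8` -/

def P13_8 : BQ := ⟨(nat_lit 8), (nat_lit 4), (nat_lit 4), (nat_lit 0), (nat_lit 8), (nat_lit 700), (nat_lit 720), (nat_lit 120), [(nat_lit 200), (nat_lit 300), (nat_lit 450), (nat_lit 800)], (nat_lit 75152000), (nat_lit 16000000), (nat_lit 16000000000)⟩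
def q13_8 : PC := ⟨(nat_lit 1000), [(nat_lit 120000), (nat_lit 200000), (nat_lit 300000), (nat_lit 450000), (nat_lit 800000)], (nat_lit 340282367000166625996085689103316680705000000), (nat_lit 15924848000000), (nat_lit 15924848000000), (nat_lit 10000000)⟩
def r13_8 : List PC := [⟨(nat_lit 1315), [(nat_lit 120548), (nat_lit 200995), (nat_lit 301627), (nat_lit 451871), (nat_lit 799755)], (nat_lit 342168892442894223335963438895242746419694793), (nat_lit 16320361225600), (nat_lit 16332150793600), (nat_lit 10054234)⟩]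
def s13_8 : List PB := [⟨(nat_lit 26300), (nat_lit 1928768000000), [(nat_lit 200995), (nat_lit 301627), (nat_lit 451871), (nat_lit 799755)], (nat_lit 342168892442894223335963438895242746419694793), (nat_lit 1142220268068224), (nat_lit 1142232057636224), (nat_lit 50400)⟩]
def n13_8 : List KN := [⟨(nat_lit 800), (nat_lit 450), (nat_lit 13586793), (nat_lit 7031977)⟩, ⟨(nat_lit 450), (nat_lit 300), (nat_lit 20249535), (nat_lit 13586793)⟩, ⟨(nat_lit 300), (nat_lit 200), (nat_lit 27333682), (nat_lit 20249535)⟩, ⟨(nat_lit 200), (nat_lit 120), (nat_lit 43428061), (nat_lit 27333682)⟩]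
def w13_8 : List ℕ := [(nat_lit 50400)]
def par13_8 : parC yB13_8 P13_8 s13_8 r13_8 q13_8 n13_8 w13_8 = true := by decide +kernel

def p13_8_0 : PF := (PF.cons (PF.cons (PF.cons (PF.cons (PF.leaf (nat_lit 432613) (nat_lit 1147722) (nat_lit 65961090) (nat_lit 1147722) [(nat_lit 0), (nat_lit 0), (nat_lit 0), (nat_lit 0)]) (PF.cons (PF.leaf (nat_lit 512588) (nat_lit 121824) (nat_lit 65804668) (nat_lit 1182320) [(nat_lit 121824), (nat_lit 0), (nat_lit 0), (nat_lit 0)]) (PF.cons (PF.leaf (nat_lit 618643) (nat_lit 135383) (nat_lit 65617114) (nat_lit 1220931) [(nat_lit 135383), (nat_lit 0), (nat_lit 0), (nat_lit 0)]) (PF.cons (PF.leaf (nat_lit 740469) (nat_lit 148312) (nat_lit 65401806) (nat_lit 1262069) [(nat_lit 148312), (nat_lit 0), (nat_lit 0), (nat_lit 0)]) (PF.cons (PF.leaf (nat_lit 876815) (nat_lit 160769) (nat_lit 65161004) (nat_lit 1304731) [(nat_lit 160769), (nat_lit 0), (nat_lit 0), (nat_lit 0)]) (PF.cons (PF.leaf (nat_lit 1027675) (nat_lit 172837)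 (nat_lit 64896415) (nat_lit 1348209) [(nat_lit 172837), (nat_lit 0), (nat_lit 0), (nat_lit 0)]) (PF.cons PF.nil (PF.cons PF.nil (PF.cons PF.nil PF.nil))))))))) (PF.cons (PF.cons (PF.leaf (nat_lit 828628) (nat_lit 771960) (nat_lit 65022283) (nat_lit 1314568) [(nat_lit 0), (nat_lit 771960), (nat_lit 0), (nat_lit 0)]) (PF.cons (PF.leaf (nat_lit 951210) (nat_lit 163919) (nat_lit
 64792270) (nat_lit 1351722) [(nat_lit 163919), (nat_lit 800901), (nat_lit 0), (nat_lit 0)]) (PF.cons (PF.leaf (nat_lit 1093225) (nat_lit 176081) (nat_lit 64535142) (nat_lit 1390651) [(nat_lit 176081), (nat_lit 830855), (nat_lit 0), (nat_lit 0)]) (PF.cons (PF.leaf (nat_lit 1249774) (nat_lit 187790) (nat_lit 64253615) (nat_lit 1430561) [(nat_lit 187790), (nat_lit 861265), (nat_lit 0), (nat_lit 0)]) (PF.cons (PF.leaf (nat_lit 1420116) (nat_lit 199115) (nat_lit 63949697) (nat_lit 1470891) [(nat_lit 199115), (nat_lit 891764), (nat_lit 0), (nat_lit 0)]) (PF.cons PF.nil (PF.cons PF.nil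 PF.nil))))))) (PF.cons (PF.cons (PF.leaf (nat_lit 1322298) (nat_lit 887593) (nat_lit 63863061) (nat_lit 1470565) [(nat_lit 0), (nat_lit 887593), (nat_lit 0), (nat_lit 0)]) (PF.cons (PF.leaf (nat_lit 1480411) (nat_lit 201483) (nat_lit 63569487) (nat_lit 1507001) [(nat_lit 201483), (nat_lit 915420), (nat_lit 0), (nat_lit 0)]) (PF.cons (PF.leaf (nat_lit 1654918) (nat_lit 212505) (nat_lit 63252744) (nat_lit 1544031) [(nat_lit 212505), (nat_lit 943513), (nat_lit 0), (nat_lit 0)]) (PF.cons (PF.leaf (nat_lit 1842435) (nat_lit 223135) (nat_lit 62915084) (nat_lit 1581196) [(nat_lit 223135), (nat_lit 971562),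
 (nat_lit 0), (nat_lit 0)]) (PF.cons PF.nil PF.nil))))) (PF.cons (PF.cons (PF.leaf (nat_lit 1898300) (nat_lit 991705) (nat_lit 62521709) (nat_lit 1611986) [(nat_lit 0), (nat_lit 991705), (nat_lit 0), (nat_lit 0)]) (PF.cons (PF.leaf (nat_lit 2086847) (nat_lit 235139) (nat_lit 62174909) (nat_lit 1646072) [(nat_lit 235139), (nat_lit 1017563), (nat_lit 0), (nat_lit 0)]) (PF.cons PF.nil (PF.cons PF.nil PF.nil)))) (PF.cons (PF.cons (PF.leaf (nat_lit 2541936) (nat_lit 1084083) (nat_lit 61035071) (nat_lit 1737406) [(nat_lit 0), (nat_lit 1084083), (nat_lit 0), (nat_lit 0)]) (PF.cons PF.nil PF.nil)) (PF.cons PF.nil PF.nil)))))) (PF.cons (PF.cons (PF.cons (PF.leaf (nat_lit 1387970) (nat_lit 1501566) (nat_lit 63120360) (nat_lit 1501566) [(nat_lit 0), (nat_lit 0), (nat_lit 2486886), (nat_lit 0)]) (PF.cons (PF.leaf (nat_lit 1528728) (nat_lit 194349) (nat_lit 62855385) (nat_lit 1533509) [(nat_lit 194349), (nat_lit 0), (nat_lit 2525568), (nat_lit 0)]) (PF.cons (PF.leaf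 (nat_lit 1688424) (nat_lit 206471) (nat_lit 62562855) (nat_lit 1566800) [(nat_lit 206471), (nat_lit 0), (nat_lit 2566214), (nat_lit 0)]) (PF.cons (PF.leaf (nat_lit 1862176) (nat_lit 217896) (nat_lit 62246388) (nat_lit 1600767)
 [(nat_lit 217896), (nat_lit 0), (nat_lit 2607967), (nat_lit 0)]) (PF.cons (PF.leaf (nat_lit 2048879) (nat_lit 228758) (nat_lit 61908621) (nat_lit 1634944) [(nat_lit 228758), (nat_lit 0), (nat_lit 2650212), (nat_lit 0)]) (PF.cons PF.nil (PF.cons PF.nil PF.nil))))))) (PF.cons (PF.cons (PF.leaf (nat_lit 1928178) (nat_lit 998577) (nat_lit 61827205) (nat_lit 1632162) [(nat_lit 0), (nat_lit 998577), (nat_lit 2650868), (nat_lit 0)]) (PF.cons (PF.leaf (nat_lit 2101920) (nat_lit 229443) (nat_lit 61504330) (nat_lit 1663123) [(nat_lit 229443), (nat_lit 1022965), (nat_lit 2688949), (nat_lit 0)]) (PF.cons (PF.leaf (nat_lit 2290935) (nat_lit 240034) (nat_lit 61159222) (nat_lit 1694449) [(nat_lit 240034), (nat_lit 1047436), (nat_lit 2727635),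 (nat_lit 0)]) (PF.cons (PF.leaf (nat_lit 2492098) (nat_lit 250099) (nat_lit 60794610) (nat_lit 1725753) [(nat_lit 250099), (nat_lit 1071733), (nat_lit 2766415), (nat_lit 0)]) (PF.cons PF.nil PF.nil))))) (PF.cons (PF.cons (PF.leaf (nat_lit 2539094) (nat_lit 1087296) (nat_lit 60385288) (nat_lit 1749658) [(nat_lit 0), (nat_lit 1087296), (nat_lit 2799273), (nat_lit 0)]) (PF.cons (PF.leaf (nat_lit 2739911) (nat_lit 260119) (nat_lit 60016522) (nat_lit 1778284)
 [(nat_lit 260119), (nat_lit 1109645), (nat_lit 2834594), (nat_lit 0)]) (PF.cons PF.nil (PF.cons PF.nil PF.nil)))) (PF.cons (PF.cons (PF.leaf (nat_lit 3206104) (nat_lit 1165156) (nat_lit 58831366) (nat_lit 1852803) [(nat_lit 0), (nat_lit 1165156), (nat_lit 2929173), (nat_lit 0)]) (PF.cons PF.nil PF.nil)) (PF.cons PF.nil PF.nil))))) (PF.cons (PF.cons (PF.cons (PF.leaf (nat_lit 2547355) (nat_lit 1761104) (nat_lit 59701013) (nat_lit 1761104) [(nat_lit 0), (nat_lit 0), (nat_lit 2823347), (nat_lit 0)])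 (PF.cons (PF.leaf (nat_lit 2732734) (nat_lit 252944) (nat_lit 59358993) (nat_lit 1787348) [(nat_lit 252944), (nat_lit 0), (nat_lit 2854763), (nat_lit 0)]) (PF.cons (PF.leaf (nat_lit 2932735) (nat_lit 263062) (nat_lit 58995929) (nat_lit 1813761) [(nat_lit 263062), (nat_lit 0), (nat_lit 2886498), (nat_lit 0)]) (PF.cons PF.nil (PF.cons PF.nil PF.nil))))) (PF.cons (PF.cons (PF.leaf (nat_lit 3181788) (nat_lit 1164214) (nat_lit 58200221) (nat_lit 1858345) [(nat_lit 0), (nat_lit 1164214), (nat_lit 2943016), (nat_lit 0)]) (PF.cons (PF.leaf (nat_lit 3391494) (nat_lit 280828) (nat_lit 57819033) (nat_lit 1882247) [(nat_lit 280828), (nat_lit 1183453), (nat_lit 2971624), (nat_lit 0)]) (PF.cons PF.nil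
 (PF.cons PF.nil PF.nil)))) (PF.cons (PF.cons (PF.leaf (nat_lit 3862451) (nat_lit 1229481) (nat_lit 56615591) (nat_lit 1942509) [(nat_lit 0), (nat_lit 1229481), (nat_lit 3045874), (nat_lit 0)]) (PF.cons PF.nil PF.nil)) PF.nil))) (PF.cons (PF.cons (PF.cons (PF.leaf (nat_lit 3818515) (nat_lit 1942972) (nat_lit 56010751) (nat_lit 1942972) [(nat_lit 0), (nat_lit 0), (nat_lit 3051696), (nat_lit 0)]) (PF.cons (PF.leaf (nat_lit 4034254) (nat_lit 297844) (nat_lit 55624712) (nat_lit 1962747) [(nat_lit 297844), (nat_lit 0), (nat_lit 3074502), (nat_lit 0)]) PF.nil)) (PF.cons PF.nil PF.nil)) (PF.cons PF.nil (PF.cons PF.nil PF.nil)))))) (PF.cons (PF.cons (PF.cons (PF.cons (PF.leaf (nat_lit 2471720) (nat_lit 1703262) (nat_lit 57646247) (nat_lit 1703262) [(nat_lit 0), (nat_lit 0), (nat_lit 0), (nat_lit 7759303)]) (PF.cons (PF.leaf (nat_lit 2624469) (nat_lit 224516) (nat_lit 57372342) (nat_lit 1728585) [(nat_lit 224516), (nat_lit 0), (nat_lit 0), (nat_lit 7783368)])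 (PF.cons (PF.leaf (nat_lit 2794883) (nat_lit 236683) (nat_lit 57072505) (nat_lit 1754603) [(nat_lit 236683), (nat_lit 0), (nat_lit 0), (nat_lit 7808338)]) (PF.cons (PF.leaf (nat_lit 2978928) (nat_lit 247843) (nat_lit 56750914) (nat_lit
 1780786) [(nat_lit 247843), (nat_lit 0), (nat_lit 0), (nat_lit 7833579)]) (PF.cons (PF.leaf (nat_lit 3174799) (nat_lit 258198) (nat_lit 56410618) (nat_lit 1806784) [(nat_lit 258198), (nat_lit 0), (nat_lit 0), (nat_lit 7858615)]) (PF.cons (PF.leaf (nat_lit 3381364) (nat_lit 267878) (nat_lit 56053998) (nat_lit 1832356) [(nat_lit 267878), (nat_lit 0), (nat_lit 0), (nat_lit 7883066)]) (PF.cons (PF.leaf (nat_lit 3597607) (nat_lit 276973) (nat_lit 55683005) (nat_lit 1857333) [(nat_lit 276973), (nat_lit 0), (nat_lit 0), (nat_lit 7906633)]) (PF.cons PF.nil (PF.cons PF.nil PF.nil))))))))) (PF.cons (PF.cons (PF.leaf (nat_lit 3031019) (nat_lit 1112339) (nat_lit 56336709) (nat_lit 1801349) [(nat_lit 0), (nat_lit 1112339), (nat_lit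 0), (nat_lit 7858414)]) (PF.cons (PF.leaf (nat_lit 3212841) (nat_lit 256880) (nat_lit 56014464) (nat_lit 1824825) [(nat_lit 256880), (nat_lit 1132389), (nat_lit 0), (nat_lit 7880253)]) (PF.cons (PF.leaf (nat_lit 3408648) (nat_lit 266921) (nat_lit 55672612) (nat_lit 1848294) [(nat_lit 266921), (nat_lit 1152204), (nat_lit 0), (nat_lit 7901859)]) (PF.cons (PF.leaf (nat_lit 3615435) (nat_lit 276254) (nat_lit 55314129) (nat_lit 1871474) [(nat_lit 276254), (nat_lit
 1171599), (nat_lit 0), (nat_lit 7922845)]) (PF.cons (PF.leaf (nat_lit 3832002) (nat_lit 284990) (nat_lit 54941308) (nat_lit 1894172) [(nat_lit 284990), (nat_lit 1190456), (nat_lit 0), (nat_lit 7942912)]) (PF.cons PF.nil (PF.cons PF.nil PF.nil))))))) (PF.cons (PF.cons (PF.leaf (nat_lit 3646220) (nat_lit 1181185) (nat_lit 54921583) (nat_lit 1886210) [(nat_lit 0), (nat_lit 1181185), (nat_lit 0), (nat_lit 7938646)]) (PF.cons (PF.leaf (nat_lit 3850851) (nat_lit 283735) (nat_lit 54564130) (nat_lit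 1907127) [(nat_lit 283735), (nat_lit 1198814), (nat_lit 0), (nat_lit 7956191)]) (PF.cons (PF.leaf (nat_lit 4066788) (nat_lit 292190) (nat_lit 54191878) (nat_lit 1927678) [(nat_lit 292190), (nat_lit 1216024), (nat_lit 0), (nat_lit 7972824)]) (PF.cons (PF.leaf (nat_lit 4291659) (nat_lit 300102) (nat_lit 53807046) (nat_lit 1947707) [(nat_lit 300102), (nat_lit 1232719), (nat_lit 0), (nat_lit 7988313)]) (PF.cons PF.nil PF.nil))))) (PF.cons (PF.cons (PF.leaf (nat_lit 4303256) (nat_lit 1239385) (nat_lit 53435983) (nat_lit 1958111) [(nat_lit 0), (nat_lit 1239385), (nat_lit 0), (nat_lit 7996563)]) (PF.cons (PF.leaf (nat_lit 4525762) (nat_lit 306278) (nat_lit 53053731) (nat_lit 1976199) [(nat_lit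
 306278), (nat_lit 1254618), (nat_lit 0), (nat_lit 8008748)]) (PF.cons PF.nil (PF.cons PF.nil PF.nil)))) (PF.cons (PF.cons (PF.leaf (nat_lit 4990494) (nat_lit 1287983) (nat_lit 51908001) (nat_lit 2017721) [(nat_lit 0), (nat_lit 1287983), (nat_lit 0), (nat_lit 8031158)]) (PF.cons PF.nil PF.nil)) (PF.cons PF.nil PF.nil)))))) (PF.cons (PF.cons (PF.cons (PF.leaf (nat_lit 3622045) (nat_lit 1884873) (nat_lit 54293884) (nat_lit 1884873) [(nat_lit 0), (nat_lit 0), (nat_lit 2988735), (nat_lit 7941319)]) (PF.cons (PF.leaf (nat_lit 3811157) (nat_lit 274136) (nat_lit 53964722) (nat_lit 1904465) [(nat_lit 274136), (nat_lit 0), (nat_lit 3009909), (nat_lit 7955580)]) (PF.cons (PF.leaf (nat_lit 4013527) (nat_lit 283625) (nat_lit 53617287) (nat_lit 1923947) [(nat_lit 283625), (nat_lit 0), (nat_lit 3031061), (nat_lit 7969265)]) (PF.cons (PF.leaf (nat_lit 4226193) (nat_lit 292346) (nat_lit 53254686) (nat_lit 1943090) [(nat_lit 292346), (nat_lit 0), (nat_lit 3051906),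 (nat_lit 7982090)]) (PF.cons (PF.leaf (nat_lit 4447884) (nat_lit 300427) (nat_lit 52879282) (nat_lit 1961737) [(nat_lit 300427), (nat_lit 0), (nat_lit 3072238), (nat_lit 7993842)]) (PF.cons PF.nil (PF.cons PF.nil PF.nil))))))) (PF.cons
 (PF.cons (PF.leaf (nat_lit 4248151) (nat_lit 1231916) (nat_lit 52868320) (nat_lit 1953817) [(nat_lit 0), (nat_lit 1231916), (nat_lit 3065568), (nat_lit 7989190)]) (PF.cons (PF.leaf (nat_lit 4457737) (nat_lit 298375) (nat_lit 52509385) (nat_lit 1971014) [(nat_lit 298375), (nat_lit 1246942), (nat_lit 3084089), (nat_lit 7999005)]) (PF.cons (PF.leaf (nat_lit 4677827) (nat_lit 306230) (nat_lit 52137057) (nat_lit 1987817) [(nat_lit 306230), (nat_lit 1261531), (nat_lit 3102180), (nat_lit 8007764)]) (PF.cons (PF.leaf (nat_lit 4906140) (nat_lit 313511) (nat_lit 51753584) (nat_lit 2004100) [(nat_lit 313511), (nat_lit 1275605), (nat_lit 3119679), (nat_lit 8015309)]) (PF.cons PF.nil PF.nil))))) (PF.cons (PF.cons (PF.leaf (nat_lit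 4908784) (nat_lit 1280076) (nat_lit 51392340) (nat_lit 2011299) [(nat_lit 0), (nat_lit 1280076), (nat_lit 3128702), (nat_lit 8016318)]) (PF.cons (PF.leaf (nat_lit 5133965) (nat_lit 318421) (nat_lit 51013525) (nat_lit 2025915) [(nat_lit 318421), (nat_lit 1292881), (nat_lit 3144137), (nat_lit 8021050)]) (PF.cons PF.nil (PF.cons PF.nil PF.nil)))) (PF.cons (PF.cons (PF.leaf (nat_lit 5593267) (nat_lit 1319669) (nat_lit 49890793) (nat_lit 2057973) [(nat_lit 0), (nat_lit
 1319669), (nat_lit 3178390), (nat_lit 8022646)]) (PF.cons PF.nil PF.nil)) (PF.cons PF.nil PF.nil))))) (PF.cons (PF.cons (PF.cons (PF.leaf (nat_lit 4837985) (nat_lit 2004283) (nat_lit 50857602) (nat_lit 2004283) [(nat_lit 0), (nat_lit 0), (nat_lit 3123395), (nat_lit 8000135)]) (PF.cons (PF.leaf (nat_lit 5050588) (nat_lit 310181) (nat_lit 50501762) (nat_lit 2018278) [(nat_lit 310181), (nat_lit 0), (nat_lit 3137656), (nat_lit 8003279)]) (PF.cons (PF.leaf (nat_lit 5273053) (nat_lit 317475) (nat_lit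 50133810) (nat_lit 2031859) [(nat_lit 317475), (nat_lit 0), (nat_lit 3151450), (nat_lit 8005290)]) (PF.cons PF.nil PF.nil)))) (PF.cons (PF.cons (PF.leaf (nat_lit 5497399) (nat_lit 1310605) (nat_lit 49407392) (nat_lit 2049510) [(nat_lit 0), (nat_lit 1310605), (nat_lit 3170045), (nat_lit 8001212)]) (PF.cons (PF.leaf (nat_lit 5723766) (nat_lit 327997) (nat_lit 49035733) (nat_lit 2061149) [(nat_lit 327997), (nat_lit 1321302), (nat_lit 3181491), (nat_lit 7999647)]) PF.nil)) (PF.cons PF.nil PF.nil))) (PF.cons (PF.cons (PF.cons (PF.leaf (nat_lit 6067249) (nat_lit 2075284) (nat_lit 47493348) (nat_lit 2075284) [(nat_lit 0), (nat_lit 0), (nat_lit 3194111), (nat_lit 7957846)]) (PF.cons PF.nil PF.nil))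
 (PF.cons PF.nil PF.nil)) (PF.cons PF.nil (PF.cons PF.nil PF.nil)))))) (PF.cons (PF.cons (PF.cons (PF.cons (PF.leaf (nat_lit 4582693) (nat_lit 1939665) (nat_lit 49412343) (nat_lit 1939665) [(nat_lit 0), (nat_lit 0), (nat_lit 0), (nat_lit 7878401)]) (PF.cons (PF.leaf (nat_lit 4770845) (nat_lit 285395) (nat_lit 49108330) (nat_lit 1954428) [(nat_lit 285395), (nat_lit 0), (nat_lit 0), (nat_lit 7880329)]) (PF.cons (PF.leaf (nat_lit 4971289) (nat_lit 294279) (nat_lit 48788558) (nat_lit 1968922) [(nat_lit 294279), (nat_lit 0), (nat_lit 0), (nat_lit 7881386)]) (PF.cons (PF.leaf (nat_lit 5181088) (nat_lit 302315) (nat_lit 48455974) (nat_lit 1982981) [(nat_lit 302315), (nat_lit 0), (nat_lit 0), (nat_lit 7881454)]) (PF.cons (PF.leaf (nat_lit 5398953) (nat_lit 309654) (nat_lit 48112806) (nat_lit 1996499) [(nat_lit 309654), (nat_lit 0), (nat_lit 0), (nat_lit 7880443)]) (PF.cons PF.nil (PF.cons PF.nil PF.nil))))))) (PF.cons (PF.cons (PF.leaf (nat_lit 5190388) (nat_lit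 1260574) (nat_lit 48107545) (nat_lit 1988654) [(nat_lit 0), (nat_lit 1260574), (nat_lit 0), (nat_lit 7876019)]) (PF.cons (PF.leaf (nat_lit 5396232) (nat_lit 306699) (nat_lit 47780344) (nat_lit 2001112) [(nat_lit 306699), (nat_lit
 1272490), (nat_lit 0), (nat_lit 7874083)]) (PF.cons (PF.leaf (nat_lit 5611610) (nat_lit 313841) (nat_lit 47441945) (nat_lit 2013126) [(nat_lit 313841), (nat_lit 1283913), (nat_lit 0), (nat_lit 7871072)]) (PF.cons (PF.leaf (nat_lit 5834291) (nat_lit 320370) (nat_lit 47094427) (nat_lit 2024611) [(nat_lit 320370), (nat_lit 1294798), (nat_lit 0), (nat_lit 7866931)]) (PF.cons PF.nil PF.nil))))) (PF.cons (PF.cons (PF.leaf (nat_lit 5824769) (nat_lit 1296508) (nat_lit 46772114) (nat_lit 2027718) [(nat_lit 0), (nat_lit 1296508), (nat_lit 0), (nat_lit 7857981)]) (PF.cons (PF.leaf (nat_lit 6043683) (nat_lit 323781) (nat_lit 46430471) (nat_lit 2037875) [(nat_lit 323781), (nat_lit 1306332), (nat_lit 0), (nat_lit 7852008)]) (PF.cons PF.nil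 (PF.cons PF.nil PF.nil)))) (PF.cons (PF.cons (PF.leaf (nat_lit 6476548) (nat_lit 1324943) (nat_lit 45426345) (nat_lit 2057808) [(nat_lit 0), (nat_lit 1324943), (nat_lit 0), (nat_lit 7824914)]) (PF.cons PF.nil PF.nil)) (PF.cons PF.nil PF.nil))))) (PF.cons (PF.cons (PF.cons (PF.leaf (nat_lit 5735080) (nat_lit 2016629) (nat_lit 46308238) (nat_lit 2016629) [(nat_lit 0), (nat_lit 0), (nat_lit 3122562), (nat_lit 7830690)]) (PF.cons (PF.leaf (nat_lit 5942178)
 (nat_lit 314889) (nat_lit 45987677) (nat_lit 2026583) [(nat_lit 314889), (nat_lit 0), (nat_lit 3131100), (nat_lit 7824281)]) (PF.cons (PF.leaf (nat_lit 6158252) (nat_lit 321520) (nat_lit 45656967) (nat_lit 2036098) [(nat_lit 321520), (nat_lit 0), (nat_lit 3139155), (nat_lit 7816775)]) (PF.cons (PF.leaf (nat_lit 6381047) (nat_lit 327532) (nat_lit 45318135) (nat_lit 2045111) [(nat_lit 327532), (nat_lit 0), (nat_lit 3146652), (nat_lit 7808158)]) (PF.cons PF.nil PF.nil))))) (PF.cons (PF.cons (PF.leaf (nat_lit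 6364514) (nat_lit 1313968) (nat_lit 45009825) (nat_lit 2046391) [(nat_lit 0), (nat_lit 1313968), (nat_lit 3147385), (nat_lit 7795621)]) (PF.cons (PF.leaf (nat_lit 6583218) (nat_lit 330082) (nat_lit 44677724) (nat_lit 2054276) [(nat_lit 330082), (nat_lit 1322113), (nat_lit 3153575), (nat_lit 7785519)]) (PF.cons PF.nil (PF.cons PF.nil PF.nil)))) (PF.cons (PF.cons (PF.leaf (nat_lit 7007601) (nat_lit 1336452) (nat_lit 43709538) (nat_lit 2068327) [(nat_lit 0), (nat_lit 1336452), (nat_lit 3163016), (nat_lit 7747513)]) (PF.cons PF.nil PF.nil)) PF.nil))) (PF.cons (PF.cons (PF.cons (PF.leaf (nat_lit 6886178) (nat_lit 2056301) (nat_lit 43322224) (nat_lit 2056301) [(nat_lit 0), (nat_lit 0),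
 (nat_lit 3149080), (nat_lit 7716062)]) (PF.cons (PF.leaf (nat_lit 7103800) (nat_lit 334741) (nat_lit 43001043) (nat_lit 2062251) [(nat_lit 334741), (nat_lit 0), (nat_lit 3152818), (nat_lit 7702569)]) PF.nil)) (PF.cons PF.nil PF.nil)) (PF.cons PF.nil (PF.cons PF.nil PF.nil))))) (PF.cons (PF.cons (PF.cons (PF.cons (PF.leaf (nat_lit 6530238) (nat_lit 1999365) (nat_lit 42337334) (nat_lit 1999365) [(nat_lit 0), (nat_lit 0), (nat_lit 0), (nat_lit 7590704)]) (PF.cons (PF.leaf (nat_lit 6730754) (nat_lit 314795) (nat_lit 42051546) (nat_lit 2006463) [(nat_lit 314795), (nat_lit 0), (nat_lit 0), (nat_lit 7578668)]) (PF.cons (PF.leaf (nat_lit 6939581) (nat_lit 320876) (nat_lit 41757138) (nat_lit 2013123) [(nat_lit 320876), (nat_lit 0), (nat_lit 0), (nat_lit 7565599)]) (PF.cons PF.nil PF.nil)))) (PF.cons (PF.cons (PF.leaf (nat_lit 7129919) (nat_lit 1300652) (nat_lit 41185106) (nat_lit 2018460) [(nat_lit 0), (nat_lit 1300652), (nat_lit 0), (nat_lit 7534864)]) (PF.cons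 (PF.leaf (nat_lit 7340515) (nat_lit 327978) (nat_lit 40890490) (nat_lit 2023741) [(nat_lit 327978), (nat_lit 1306958), (nat_lit 0), (nat_lit 7519881)]) PF.nil)) (PF.cons PF.nil PF.nil))) (PF.cons (PF.cons (PF.cons (PF.leaf (nat_lit
 7610159) (nat_lit 2018157) (nat_lit 39704090) (nat_lit 2018157) [(nat_lit 0), (nat_lit 0), (nat_lit 3077358), (nat_lit 7436402)]) (PF.cons PF.nil PF.nil)) (PF.cons PF.nil PF.nil)) (PF.cons PF.nil PF.nil))) (PF.cons (PF.cons (PF.cons (PF.cons (PF.leaf (nat_lit 8257578) (nat_lit 1969326) (nat_lit 36563496) (nat_lit 1969326) [(nat_lit 0), (nat_lit 0), (nat_lit 0), (nat_lit 7143997)]) (PF.cons PF.nil PF.nil)) (PF.cons PF.nil PF.nil)) (PF.cons PF.nil PF.nil)) (PF.cons PF.nil (PF.cons PF.nil (PF.cons PF.nil PF.nil))))))))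

def p13_8_0_0 : pfC (piC [(nat_lit 43428061), (nat_lit 27333682), (nat_lit 20249535), (nat_lit 13586793)] (nat_lit 29957324)) p13_8_0 (nat_lit 4) (nat_lit 0) (nat_lit 1) = true := by decide +kernel
def p13_8_0_1 : pfC (piC [(nat_lit 43428061), (nat_lit 27333682), (nat_lit 20249535), (nat_lit 13586793)] (nat_lit 29957324)) p13_8_0 (nat_lit 4) (nat_lit 1) (nat_lit 2) = true := by decide +kernel
def p13_8_0_2 : pfC (piC [(nat_lit 43428061), (nat_lit 27333682), (nat_lit 20249535), (nat_lit 13586793)] (nat_lit 29957324)) p13_8_0 (nat_lit 4) (nat_lit 2) (nat_lit 3) = true := by decide +kernel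
def p13_8_0_3 : pfC (piC [(nat_lit 43428061), (nat_lit 27333682), (nat_lit 20249535), (nat_lit 13586793)] (nat_lit 29957324)) p13_8_0 (nat_lit 4) (nat_lit 3) (nat_lit 4) = true := by decide +kernel
def p13_8_0_4 : pfC (piC [(nat_lit 43428061), (nat_lit 27333682), (nat_lit 20249535), (nat_lit 13586793)] (nat_lit 29957324)) p13_8_0 (nat_lit 4) (nat_lit 4) (nat_lit 5) = true := by decide +kernel
def p13_8_0_5 : pfC (piC [(nat_lit 43428061), (nat_lit 27333682), (nat_lit 20249535), (nat_lit 13586793)] (nat_lit 29957324)) p13_8_0 (nat_lit 4) (nat_lit 5) (nat_lit 6) = true := by decide +kernel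
def p13_8_0_6 : pfC (piC [(nat_lit 43428061), (nat_lit 27333682), (nat_lit 20249535), (nat_lit 13586793)] (nat_lit 29957324)) p13_8_0 (nat_lit 4) (nat_lit 6) (nat_lit 7) = true := by decide +kernel
def p13_8_0_7 : pfC (piC [(nat_lit 43428061), (nat_lit 27333682), (nat_lit 20249535), (nat_lit 13586793)] (nat_lit 29957324)) p13_8_0 (nat_lit 4) (nat_lit 7) (nat_lit 8) = true := by decide +kernel
def p13_8_0_8 : pfC (piC [(nat_lit 43428061), (nat_lit 27333682), (nat_lit 20249535), (nat_lit 13586793)] (nat_lit 29957324)) p13_8_0 (nat_lit 4) (nat_lit 8) (nat_lit 9) = true := by decide +kernel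
def p13_8_0_9 : pfC (piC [(nat_lit 43428061), (nat_lit 27333682), (nat_lit 20249535), (nat_lit 13586793)] (nat_lit 29957324)) p13_8_0 (nat_lit 4) (nat_lit 9) (nat_lit 10) = true := by decide +kernel
def p13_8_0_10 : pfC (piC [(nat_lit 43428061), (nat_lit 27333682), (nat_lit 20249535), (nat_lit 13586793)] (nat_lit 29957324)) p13_8_0 (nat_lit 4) (nat_lit 10) (nat_lit 11) = true := by decide +kernel
def p13_8_0_11 : pfC (piC [(nat_lit 43428061), (nat_lit 27333682), (nat_lit 20249535), (nat_lit 13586793)] (nat_lit 29957324)) p13_8_0 (nat_lit 4) (nat_lit 11) (nat_lit 12) = true := by decide +kernel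
def p13_8_0_12 : pfC (piC [(nat_lit 43428061), (nat_lit 27333682), (nat_lit 20249535), (nat_lit 13586793)] (nat_lit 29957324)) p13_8_0 (nat_lit 4) (nat_lit 12) (nat_lit 13) = true := by decide +kernel
def p13_8_0_13 : pfC (piC [(nat_lit 43428061), (nat_lit 27333682), (nat_lit 20249535), (nat_lit 13586793)] (nat_lit 29957324)) p13_8_0 (nat_lit 4) (nat_lit 13) (nat_lit 14) = true := by decide +kernel
def p13_8_0_14 : pfC (piC [(nat_lit 43428061), (nat_lit 27333682), (nat_lit 20249535), (nat_lit 13586793)] (nat_lit 29957324)) p13_8_0 (nat_lit 4) (nat_lit 14) (nat_lit 15) = true := by decide +kernel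
def p13_8_0_15 : pfC (piC [(nat_lit 43428061), (nat_lit 27333682), (nat_lit 20249535), (nat_lit 13586793)] (nat_lit 29957324)) p13_8_0 (nat_lit 4) (nat_lit 15) (nat_lit 16) = true := by decide +kernel
def p13_8_0_16 : pfC (piC [(nat_lit 43428061), (nat_lit 27333682), (nat_lit 20249535), (nat_lit 13586793)] (nat_lit 29957324)) p13_8_0 (nat_lit 4) (nat_lit 16) (nat_lit 17) = true := by decide +kernel
def p13_8_0_17 : pfC (piC [(nat_lit 43428061), (nat_lit 27333682), (nat_lit 20249535), (nat_lit 13586793)] (nat_lit 29957324)) p13_8_0 (nat_lit 4) (nat_lit 17) (nat_lit 18) = true := by decide +kernel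
def p13_8_0_18 : pfC (piC [(nat_lit 43428061), (nat_lit 27333682), (nat_lit 20249535), (nat_lit 13586793)] (nat_lit 29957324)) p13_8_0 (nat_lit 4) (nat_lit 18) (nat_lit 19) = true := by decide +kernel
def p13_8_0_19 : pfC (piC [(nat_lit 43428061), (nat_lit 27333682), (nat_lit 20249535), (nat_lit 13586793)] (nat_lit 29957324)) p13_8_0 (nat_lit 4) (nat_lit 19) (nat_lit 20) = true := by decide +kernel
def p13_8_0_20 : pfC (piC [(nat_lit 43428061), (nat_lit 27333682), (nat_lit 20249535), (nat_lit 13586793)] (nat_lit 29957324)) p13_8_0 (nat_lit 4) (nat_lit 20) (nat_lit 21) = true := by decide +kernel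
def p13_8_0_21 : pfC (piC [(nat_lit 43428061), (nat_lit 27333682), (nat_lit 20249535), (nat_lit 13586793)] (nat_lit 29957324)) p13_8_0 (nat_lit 4) (nat_lit 21) (nat_lit 22) = true := by decide +kernel
def p13_8_0_22 : pfC (piC [(nat_lit 43428061), (nat_lit 27333682), (nat_lit 20249535), (nat_lit 13586793)] (nat_lit 29957324)) p13_8_0 (nat_lit 4) (nat_lit 22) (nat_lit 23) = true := by decide +kernel
def p13_8_0_23 : pfC (piC [(nat_lit 43428061), (nat_lit 27333682), (nat_lit 20249535), (nat_lit 13586793)] (nat_lit 29957324)) p13_8_0 (nat_lit 4) (nat_lit 23) (nat_lit 24) = true := by decide +kernel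
def p13_8_0_24 : pfC (piC [(nat_lit 43428061), (nat_lit 27333682), (nat_lit 20249535), (nat_lit 13586793)] (nat_lit 29957324)) p13_8_0 (nat_lit 4) (nat_lit 24) (nat_lit 25) = true := by decide +kernel
def p13_8_0_25 : pfC (piC [(nat_lit 43428061), (nat_lit 27333682), (nat_lit 20249535), (nat_lit 13586793)] (nat_lit 29957324)) p13_8_0 (nat_lit 4) (nat_lit 25) (nat_lit 26) = true := by decide +kernel
def p13_8_0_26 : pfC (piC [(nat_lit 43428061), (nat_lit 27333682), (nat_lit 20249535), (nat_lit 13586793)] (nat_lit 29957324)) p13_8_0 (nat_lit 4) (nat_lit 26) (nat_lit 27) = true := by decide +kernel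
def p13_8_0_27 : pfC (piC [(nat_lit 43428061), (nat_lit 27333682), (nat_lit 20249535), (nat_lit 13586793)] (nat_lit 29957324)) p13_8_0 (nat_lit 4) (nat_lit 27) (nat_lit 28) = true := by decide +kernel
def p13_8_0_28 : pfC (piC [(nat_lit 43428061), (nat_lit 27333682), (nat_lit 20249535), (nat_lit 13586793)] (nat_lit 29957324)) p13_8_0 (nat_lit 4) (nat_lit 28) (nat_lit 29) = true := by decide +kernel
def p13_8_0_29 : pfC (piC [(nat_lit 43428061), (nat_lit 27333682), (nat_lit 20249535), (nat_lit 13586793)] (nat_lit 29957324)) p13_8_0 (nat_lit 4) (nat_lit 29) (nat_lit 30) = true := by decide +kernel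
def p13_8_0_30 : pfC (piC [(nat_lit 43428061), (nat_lit 27333682), (nat_lit 20249535), (nat_lit 13586793)] (nat_lit 29957324)) p13_8_0 (nat_lit 4) (nat_lit 30) (nat_lit 31) = true := by decide +kernel
def p13_8_0_31 : pfC (piC [(nat_lit 43428061), (nat_lit 27333682), (nat_lit 20249535), (nat_lit 13586793)] (nat_lit 29957324)) p13_8_0 (nat_lit 4) (nat_lit 31) (nat_lit 32) = true := by decide +kernel
def p13_8_0_32 : pfC (piC [(nat_lit 43428061), (nat_lit 27333682), (nat_lit 20249535), (nat_lit 13586793)] (nat_lit 29957324)) p13_8_0 (nat_lit 4) (nat_lit 32) (nat_lit 33) = true := by decide +kernel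
def p13_8_0_33 : pfC (piC [(nat_lit 43428061), (nat_lit 27333682), (nat_lit 20249535), (nat_lit 13586793)] (nat_lit 29957324)) p13_8_0 (nat_lit 4) (nat_lit 33) (nat_lit 34) = true := by decide +kernel
def p13_8_0_34 : pfC (piC [(nat_lit 43428061), (nat_lit 27333682), (nat_lit 20249535), (nat_lit 13586793)] (nat_lit 29957324)) p13_8_0 (nat_lit 4) (nat_lit 34) (nat_lit 35) = true := by decide +kernel
def p13_8_0_35 : pfC (piC [(nat_lit 43428061), (nat_lit 27333682), (nat_lit 20249535), (nat_lit 13586793)] (nat_lit 29957324)) p13_8_0 (nat_lit 4) (nat_lit 35) (nat_lit 36) = true := by decide +kernel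
def p13_8_0_36 : pfC (piC [(nat_lit 43428061), (nat_lit 27333682), (nat_lit 20249535), (nat_lit 13586793)] (nat_lit 29957324)) p13_8_0 (nat_lit 4) (nat_lit 36) (nat_lit 37) = true := by decide +kernel
def p13_8_0_37 : pfC (piC [(nat_lit 43428061), (nat_lit 27333682), (nat_lit 20249535), (nat_lit 13586793)] (nat_lit 29957324)) p13_8_0 (nat_lit 4) (nat_lit 37) (nat_lit 38) = true := by decide +kernel
def p13_8_0_38 : pfC (piC [(nat_lit 43428061), (nat_lit 27333682), (nat_lit 20249535), (nat_lit 13586793)] (nat_lit 29957324)) p13_8_0 (nat_lit 4) (nat_lit 38) (nat_lit 39) = true := by decide +kernel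
def p13_8_0_39 : pfC (piC [(nat_lit 43428061), (nat_lit 27333682), (nat_lit 20249535), (nat_lit 13586793)] (nat_lit 29957324)) p13_8_0 (nat_lit 4) (nat_lit 39) (nat_lit 40) = true := by decide +kernel
def p13_8_0_40 : pfC (piC [(nat_lit 43428061), (nat_lit 27333682), (nat_lit 20249535), (nat_lit 13586793)] (nat_lit 29957324)) p13_8_0 (nat_lit 4) (nat_lit 40) (nat_lit 41) = true := by decide +kernel
def p13_8_0_41 : pfC (piC [(nat_lit 43428061), (nat_lit 27333682), (nat_lit 20249535), (nat_lit 13586793)] (nat_lit 29957324)) p13_8_0 (nat_lit 4) (nat_lit 41) (nat_lit 42) = true := by decide +kernel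
def p13_8_0_42 : pfC (piC [(nat_lit 43428061), (nat_lit 27333682), (nat_lit 20249535), (nat_lit 13586793)] (nat_lit 29957324)) p13_8_0 (nat_lit 4) (nat_lit 42) (nat_lit 43) = true := by decide +kernel
def p13_8_0_43 : pfC (piC [(nat_lit 43428061), (nat_lit 27333682), (nat_lit 20249535), (nat_lit 13586793)] (nat_lit 29957324)) p13_8_0 (nat_lit 4) (nat_lit 43) (nat_lit 44) = true := by decide +kernel
def p13_8_0_44 : pfC (piC [(nat_lit 43428061), (nat_lit 27333682), (nat_lit 20249535), (nat_lit 13586793)] (nat_lit 29957324)) p13_8_0 (nat_lit 4) (nat_lit 44) (nat_lit 45) = true := by decide +kernel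
def p13_8_0_45 : pfC (piC [(nat_lit 43428061), (nat_lit 27333682), (nat_lit 20249535), (nat_lit 13586793)] (nat_lit 29957324)) p13_8_0 (nat_lit 4) (nat_lit 45) (nat_lit 46) = true := by decide +kernel
def p13_8_0_46 : pfC (piC [(nat_lit 43428061), (nat_lit 27333682), (nat_lit 20249535), (nat_lit 13586793)] (nat_lit 29957324)) p13_8_0 (nat_lit 4) (nat_lit 46) (nat_lit 47) = true := by decide +kernel
def p13_8_0_47 : pfC (piC [(nat_lit 43428061), (nat_lit 27333682), (nat_lit 20249535), (nat_lit 13586793)] (nat_lit 29957324)) p13_8_0 (nat_lit 4) (nat_lit 47) (nat_lit 48) = true := by decide +kernel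
def p13_8_0_48 : pfC (piC [(nat_lit 43428061), (nat_lit 27333682), (nat_lit 20249535), (nat_lit 13586793)] (nat_lit 29957324)) p13_8_0 (nat_lit 4) (nat_lit 48) (nat_lit 49) = true := by decide +kernel
def p13_8_0_49 : pfC (piC [(nat_lit 43428061), (nat_lit 27333682), (nat_lit 20249535), (nat_lit 13586793)] (nat_lit 29957324)) p13_8_0 (nat_lit 4) (nat_lit 49) (nat_lit 50) = true := by decide +kernel
def p13_8_0_50 : pfC (piC [(nat_lit 43428061), (nat_lit 27333682), (nat_lit 20249535), (nat_lit 13586793)] (nat_lit 29957324)) p13_8_0 (nat_lit 4) (nat_lit 50) (nat_lit 51) = true := by decide +kernel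
def p13_8_0_51 : pfC (piC [(nat_lit 43428061), (nat_lit 27333682), (nat_lit 20249535), (nat_lit 13586793)] (nat_lit 29957324)) p13_8_0 (nat_lit 4) (nat_lit 51) (nat_lit 52) = true := by decide +kernel
def p13_8_0_52 : pfC (piC [(nat_lit 43428061), (nat_lit 27333682), (nat_lit 20249535), (nat_lit 13586793)] (nat_lit 29957324)) p13_8_0 (nat_lit 4) (nat_lit 52) (nat_lit 53) = true := by decide +kernel
def p13_8_0_53 : pfC (piC [(nat_lit 43428061), (nat_lit 27333682), (nat_lit 20249535), (nat_lit 13586793)] (nat_lit 29957324)) p13_8_0 (nat_lit 4) (nat_lit 53) (nat_lit 54) = true := by decide +kernel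
def p13_8_0_54 : pfC (piC [(nat_lit 43428061), (nat_lit 27333682), (nat_lit 20249535), (nat_lit 13586793)] (nat_lit 29957324)) p13_8_0 (nat_lit 4) (nat_lit 54) (nat_lit 55) = true := by decide +kernel
def p13_8_0_55 : pfC (piC [(nat_lit 43428061), (nat_lit 27333682), (nat_lit 20249535), (nat_lit 13586793)] (nat_lit 29957324)) p13_8_0 (nat_lit 4) (nat_lit 55) (nat_lit 56) = true := by decide +kernel
def p13_8_0_56 : pfC (piC [(nat_lit 43428061), (nat_lit 27333682), (nat_lit 20249535), (nat_lit 13586793)] (nat_lit 29957324)) p13_8_0 (nat_lit 4) (nat_lit 56) (nat_lit 57) = true := by decide +kernel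
def p13_8_0_57 : pfC (piC [(nat_lit 43428061), (nat_lit 27333682), (nat_lit 20249535), (nat_lit 13586793)] (nat_lit 29957324)) p13_8_0 (nat_lit 4) (nat_lit 57) (nat_lit 58) = true := by decide +kernel
def p13_8_0_58 : pfC (piC [(nat_lit 43428061), (nat_lit 27333682), (nat_lit 20249535), (nat_lit 13586793)] (nat_lit 29957324)) p13_8_0 (nat_lit 4) (nat_lit 58) (nat_lit 59) = true := by decide +kernel
def p13_8_0_59 : pfC (piC [(nat_lit 43428061), (nat_lit 27333682), (nat_lit 20249535), (nat_lit 13586793)] (nat_lit 29957324)) p13_8_0 (nat_lit 4) (nat_lit 59) (nat_lit 60) = true := by decide +kernel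
def p13_8_0_60 : pfC (piC [(nat_lit 43428061), (nat_lit 27333682), (nat_lit 20249535), (nat_lit 13586793)] (nat_lit 29957324)) p13_8_0 (nat_lit 4) (nat_lit 60) (nat_lit 61) = true := by decide +kernel
def p13_8_0_61 : pfC (piC [(nat_lit 43428061), (nat_lit 27333682), (nat_lit 20249535), (nat_lit 13586793)] (nat_lit 29957324)) p13_8_0 (nat_lit 4) (nat_lit 61) (nat_lit 62) = true := by decide +kernel
def p13_8_0_62 : pfC (piC [(nat_lit 43428061), (nat_lit 27333682), (nat_lit 20249535), (nat_lit 13586793)] (nat_lit 29957324)) p13_8_0 (nat_lit 4) (nat_lit 62) (nat_lit 63) = true := by decide +kernel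
def p13_8_0_63 : pfC (piC [(nat_lit 43428061), (nat_lit 27333682), (nat_lit 20249535), (nat_lit 13586793)] (nat_lit 29957324)) p13_8_0 (nat_lit 4) (nat_lit 63) (nat_lit 64) = true := by decide +kernel
def p13_8_0_64 : pfC (piC [(nat_lit 43428061), (nat_lit 27333682), (nat_lit 20249535), (nat_lit 13586793)] (nat_lit 29957324)) p13_8_0 (nat_lit 4) (nat_lit 64) (nat_lit 65) = true := by decide +kernel
def p13_8_0_65 : pfC (piC [(nat_lit 43428061), (nat_lit 27333682), (nat_lit 20249535), (nat_lit 13586793)] (nat_lit 29957324)) p13_8_0 (nat_lit 4) (nat_lit 65) (nat_lit 66) = true := by decide +kernel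
def p13_8_0_66 : pfC (piC [(nat_lit 43428061), (nat_lit 27333682), (nat_lit 20249535), (nat_lit 13586793)] (nat_lit 29957324)) p13_8_0 (nat_lit 4) (nat_lit 66) (nat_lit 67) = true := by decide +kernel
def p13_8_0_67 : pfC (piC [(nat_lit 43428061), (nat_lit 27333682), (nat_lit 20249535), (nat_lit 13586793)] (nat_lit 29957324)) p13_8_0 (nat_lit 4) (nat_lit 67) (nat_lit 68) = true := by decide +kernel
def p13_8_0_68 : pfC (piC [(nat_lit 43428061), (nat_lit 27333682), (nat_lit 20249535), (nat_lit 13586793)] (nat_lit 29957324)) p13_8_0 (nat_lit 4) (nat_lit 68) (nat_lit 69) = true := by decide +kernel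
def p13_8_0_69 : pfC (piC [(nat_lit 43428061), (nat_lit 27333682), (nat_lit 20249535), (nat_lit 13586793)] (nat_lit 29957324)) p13_8_0 (nat_lit 4) (nat_lit 69) (nat_lit 70) = true := by decide +kernel
def p13_8_0_70 : pfC (piC [(nat_lit 43428061), (nat_lit 27333682), (nat_lit 20249535), (nat_lit 13586793)] (nat_lit 29957324)) p13_8_0 (nat_lit 4) (nat_lit 70) (nat_lit 71) = true := by decide +kernel
def p13_8_0_71 : pfC (piC [(nat_lit 43428061), (nat_lit 27333682), (nat_lit 20249535), (nat_lit 13586793)] (nat_lit 29957324)) p13_8_0 (nat_lit 4) (nat_lit 71) (nat_lit 72) = true := by decide +kernel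
def p13_8_0_72 : pfC (piC [(nat_lit 43428061), (nat_lit 27333682), (nat_lit 20249535), (nat_lit 13586793)] (nat_lit 29957324)) p13_8_0 (nat_lit 4) (nat_lit 72) (nat_lit 73) = true := by decide +kernel
def p13_8_0_73 : pfC (piC [(nat_lit 43428061), (nat_lit 27333682), (nat_lit 20249535), (nat_lit 13586793)] (nat_lit 29957324)) p13_8_0 (nat_lit 4) (nat_lit 73) (nat_lit 74) = true := by decide +kernel
def p13_8_0_74 : pfC (piC [(nat_lit 43428061), (nat_lit 27333682), (nat_lit 20249535), (nat_lit 13586793)] (nat_lit 29957324)) p13_8_0 (nat_lit 4) (nat_lit 74) (nat_lit 75) = true := by decide +kernel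
def p13_8_0_75 : pfC (piC [(nat_lit 43428061), (nat_lit 27333682), (nat_lit 20249535), (nat_lit 13586793)] (nat_lit 29957324)) p13_8_0 (nat_lit 4) (nat_lit 75) (nat_lit 76) = true := by decide +kernel
def p13_8_0_76 : pfC (piC [(nat_lit 43428061), (nat_lit 27333682), (nat_lit 20249535), (nat_lit 13586793)] (nat_lit 29957324)) p13_8_0 (nat_lit 4) (nat_lit 76) (nat_lit 77) = true := by decide +kernel
def p13_8_0_77 : pfC (piC [(nat_lit 43428061), (nat_lit 27333682), (nat_lit 20249535), (nat_lit 13586793)] (nat_lit 29957324)) p13_8_0 (nat_lit 4) (nat_lit 77) (nat_lit 78) = true := by decide +kernel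
def p13_8_0_78 : pfC (piC [(nat_lit 43428061), (nat_lit 27333682), (nat_lit 20249535), (nat_lit 13586793)] (nat_lit 29957324)) p13_8_0 (nat_lit 4) (nat_lit 78) (nat_lit 79) = true := by decide +kernel
def p13_8_0_79 : pfC (piC [(nat_lit 43428061), (nat_lit 27333682), (nat_lit 20249535), (nat_lit 13586793)] (nat_lit 29957324)) p13_8_0 (nat_lit 4) (nat_lit 79) (nat_lit 80) = true := by decide +kernel
def p13_8_0_80 : pfC (piC [(nat_lit 43428061), (nat_lit 27333682), (nat_lit 20249535), (nat_lit 13586793)] (nat_lit 29957324)) p13_8_0 (nat_lit 4) (nat_lit 80) (nat_lit 81) = true := by decide +kernel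
def p13_8_0_81 : pfC (piC [(nat_lit 43428061), (nat_lit 27333682), (nat_lit 20249535), (nat_lit 13586793)] (nat_lit 29957324)) p13_8_0 (nat_lit 4) (nat_lit 81) (nat_lit 82) = true := by decide +kernel
def p13_8_0_82 : pfC (piC [(nat_lit 43428061), (nat_lit 27333682), (nat_lit 20249535), (nat_lit 13586793)] (nat_lit 29957324)) p13_8_0 (nat_lit 4) (nat_lit 82) (nat_lit 83) = true := by decide +kernel
def p13_8_0_83 : pfC (piC [(nat_lit 43428061), (nat_lit 27333682), (nat_lit 20249535), (nat_lit 13586793)] (nat_lit 29957324)) p13_8_0 (nat_lit 4) (nat_lit 83) (nat_lit 84) = true := by decide +kernel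
def p13_8_0_84 : pfC (piC [(nat_lit 43428061), (nat_lit 27333682), (nat_lit 20249535), (nat_lit 13586793)] (nat_lit 29957324)) p13_8_0 (nat_lit 4) (nat_lit 84) (nat_lit 85) = true := by decide +kernel
def p13_8_0_85 : pfC (piC [(nat_lit 43428061), (nat_lit 27333682), (nat_lit 20249535), (nat_lit 13586793)] (nat_lit 29957324)) p13_8_0 (nat_lit 4) (nat_lit 85) (nat_lit 86) = true := by decide +kernel
def p13_8_0_86 : pfC (piC [(nat_lit 43428061), (nat_lit 27333682), (nat_lit 20249535), (nat_lit 13586793)] (nat_lit 29957324)) p13_8_0 (nat_lit 4) (nat_lit 86) (nat_lit 87) = true := by decide +kernel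
def p13_8_0_87 : pfC (piC [(nat_lit 43428061), (nat_lit 27333682), (nat_lit 20249535), (nat_lit 13586793)] (nat_lit 29957324)) p13_8_0 (nat_lit 4) (nat_lit 87) (nat_lit 88) = true := by decide +kernel
def p13_8_0_88 : pfC (piC [(nat_lit 43428061), (nat_lit 27333682), (nat_lit 20249535), (nat_lit 13586793)] (nat_lit 29957324)) p13_8_0 (nat_lit 4) (nat_lit 88) (nat_lit 89) = true := by decide +kernel
def p13_8_0_89 : pfC (piC [(nat_lit 43428061), (nat_lit 27333682), (nat_lit 20249535), (nat_lit 13586793)] (nat_lit 29957324)) p13_8_0 (nat_lit 4) (nat_lit 89) (nat_lit 90) = true := by decide +kernel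
def p13_8_0_90 : pfC (piC [(nat_lit 43428061), (nat_lit 27333682), (nat_lit 20249535), (nat_lit 13586793)] (nat_lit 29957324)) p13_8_0 (nat_lit 4) (nat_lit 90) (nat_lit 91) = true := by decide +kernel
def p13_8_0_91 : pfC (piC [(nat_lit 43428061), (nat_lit 27333682), (nat_lit 20249535), (nat_lit 13586793)] (nat_lit 29957324)) p13_8_0 (nat_lit 4) (nat_lit 91) (nat_lit 92) = true := by decide +kernel
def p13_8_0_92 : pfC (piC [(nat_lit 43428061), (nat_lit 27333682), (nat_lit 20249535), (nat_lit 13586793)] (nat_lit 29957324)) p13_8_0 (nat_lit 4) (nat_lit 92) (nat_lit 93) = true := by decide +kernel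
def p13_8_0_93 : pfC (piC [(nat_lit 43428061), (nat_lit 27333682), (nat_lit 20249535), (nat_lit 13586793)] (nat_lit 29957324)) p13_8_0 (nat_lit 4) (nat_lit 93) (nat_lit 94) = true := by decide +kernel
def p13_8_0_94 : pfC (piC [(nat_lit 43428061), (nat_lit 27333682), (nat_lit 20249535), (nat_lit 13586793)] (nat_lit 29957324)) p13_8_0 (nat_lit 4) (nat_lit 94) (nat_lit 95) = true := by decide +kernel
def p13_8_0_95 : pfC (piC [(nat_lit 43428061), (nat_lit 27333682), (nat_lit 20249535), (nat_lit 13586793)] (nat_lit 29957324)) p13_8_0 (nat_lit 4) (nat_lit 95) (nat_lit 96) = true := by decide +kernel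
def p13_8_0_96 : pfC (piC [(nat_lit 43428061), (nat_lit 27333682), (nat_lit 20249535), (nat_lit 13586793)] (nat_lit 29957324)) p13_8_0 (nat_lit 4) (nat_lit 96) (nat_lit 97) = true := by decide +kernel
def p13_8_0_97 : pfC (piC [(nat_lit 43428061), (nat_lit 27333682), (nat_lit 20249535), (nat_lit 13586793)] (nat_lit 29957324)) p13_8_0 (nat_lit 4) (nat_lit 97) (nat_lit 98) = true := by decide +kernel
def p13_8_0_98 : pfC (piC [(nat_lit 43428061), (nat_lit 27333682), (nat_lit 20249535), (nat_lit 13586793)] (nat_lit 29957324)) p13_8_0 (nat_lit 4) (nat_lit 98) (nat_lit 99) = true := by decide +kernel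
def p13_8_0_99 : pfC (piC [(nat_lit 43428061), (nat_lit 27333682), (nat_lit 20249535), (nat_lit 13586793)] (nat_lit 29957324)) p13_8_0 (nat_lit 4) (nat_lit 99) (nat_lit 100) = true := by decide +kernel
def p13_8_0_100 : pfC (piC [(nat_lit 43428061), (nat_lit 27333682), (nat_lit 20249535), (nat_lit 13586793)] (nat_lit 29957324)) p13_8_0 (nat_lit 4) (nat_lit 100) (nat_lit 101) = true := by decide +kernel
def p13_8_0_101 : pfC (piC [(nat_lit 43428061), (nat_lit 27333682), (nat_lit 20249535), (nat_lit 13586793)] (nat_lit 29957324)) p13_8_0 (nat_lit 4) (nat_lit 101) (nat_lit 102) = true := by decide +kernel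
def p13_8_0_102 : pfC (piC [(nat_lit 43428061), (nat_lit 27333682), (nat_lit 20249535), (nat_lit 13586793)] (nat_lit 29957324)) p13_8_0 (nat_lit 4) (nat_lit 102) (nat_lit 103) = true := by decide +kernel
theorem p13_8_0_T : PfS (PiF n13_8.reverse (nat_lit 29957324)) p13_8_0 (nat_lit 4) [] 0 :=
  pftab_of (los := [(nat_lit 43428061), (nat_lit 27333682), (nat_lit 20249535), (nat_lit 13586793)]) (by decide +kernel) (hi := (nat_lit 103)) (PfP.trans (PfP.trans (PfP.trans (PfP.trans (PfP.trans (PfP.trans (PfP.trans (PfP.trans (PfP.trans (PfP.trans (PfP.trans (PfP.trans (PfP.trans (PfP.trans (PfP.trans (PfP.trans (PfP.trans (PfP.trans (PfP.trans (PfP.trans (PfP.trans (PfP.trans (PfP.trans (PfP.trans (PfP.trans (PfP.trans (PfP.trans (PfP.trans (PfP.trans (PfP.trans (PfP.trans (PfP.trans (PfP.trans (PfP.trans (PfP.trans (PfP.trans (PfP.trans (PfP.trans (PfP.trans (PfP.trans (PfP.trans (PfP.trans (PfP.trans (PfP.trans (PfP.trans (PfP.trans (PfP.trans (PfP.trans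 (PfP.trans (PfP.trans (PfP.trans (PfP.trans (PfP.trans (PfP.trans (PfP.trans (PfP.trans (PfP.trans (PfP.trans (PfP.trans (PfP.trans (PfP.trans (PfP.trans (PfP.trans (PfP.trans (PfP.trans (PfP.trans (PfP.trans (PfP.trans (PfP.trans (PfP.trans (PfP.trans (PfP.trans (PfP.trans (PfP.trans (PfP.trans (PfP.trans (PfP.trans (PfP.trans (PfP.trans (PfP.trans (PfP.trans (PfP.trans (PfP.trans (PfP.trans (PfP.trans (PfP.trans (PfP.trans (PfP.trans (PfP.trans (PfP.trans (PfP.trans (PfP.trans (PfP.trans (PfP.trans (PfP.trans (PfP.trans (PfP.trans (PfP.trans (PfP.trans (PfP.trans (PfP.trans (PfP.trans (pfC_sound p13_8_0_0) (pfC_sound p13_8_0_1)) (pfC_sound p13_8_0_2))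
 (pfC_sound p13_8_0_3)) (pfC_sound p13_8_0_4)) (pfC_sound p13_8_0_5)) (pfC_sound p13_8_0_6)) (pfC_sound p13_8_0_7)) (pfC_sound p13_8_0_8)) (pfC_sound p13_8_0_9)) (pfC_sound p13_8_0_10)) (pfC_sound p13_8_0_11)) (pfC_sound p13_8_0_12)) (pfC_sound p13_8_0_13)) (pfC_sound p13_8_0_14)) (pfC_sound p13_8_0_15)) (pfC_sound p13_8_0_16)) (pfC_sound p13_8_0_17)) (pfC_sound p13_8_0_18)) (pfC_sound p13_8_0_19)) (pfC_sound p13_8_0_20)) (pfC_sound p13_8_0_21)) (pfC_sound p13_8_0_22)) (pfC_sound p13_8_0_23)) (pfC_sound p13_8_0_24)) (pfC_sound p13_8_0_25)) (pfC_sound p13_8_0_26)) (pfC_sound p13_8_0_27)) (pfC_sound p13_8_0_28)) (pfC_sound p13_8_0_29)) (pfC_sound p13_8_0_30)) (pfC_sound p13_8_0_31)) (pfC_sound p13_8_0_32)) (pfC_sound p13_8_0_33)) (pfC_sound p13_8_0_34)) (pfC_sound p13_8_0_35)) (pfC_sound p13_8_0_36)) (pfC_sound p13_8_0_37)) (pfC_sound p13_8_0_38)) (pfC_sound p13_8_0_39)) (pfC_sound p13_8_0_40)) (pfC_sound p13_8_0_41)) (pfC_sound p13_8_0_42)) (pfC_sound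 p13_8_0_43)) (pfC_sound p13_8_0_44)) (pfC_sound p13_8_0_45)) (pfC_sound p13_8_0_46)) (pfC_sound p13_8_0_47)) (pfC_sound p13_8_0_48)) (pfC_sound p13_8_0_49)) (pfC_sound p13_8_0_50)) (pfC_sound p13_8_0_51)) (pfC_sound p13_8_0_52))
 (pfC_sound p13_8_0_53)) (pfC_sound p13_8_0_54)) (pfC_sound p13_8_0_55)) (pfC_sound p13_8_0_56)) (pfC_sound p13_8_0_57)) (pfC_sound p13_8_0_58)) (pfC_sound p13_8_0_59)) (pfC_sound p13_8_0_60)) (pfC_sound p13_8_0_61)) (pfC_sound p13_8_0_62)) (pfC_sound p13_8_0_63)) (pfC_sound p13_8_0_64)) (pfC_sound p13_8_0_65)) (pfC_sound p13_8_0_66)) (pfC_sound p13_8_0_67)) (pfC_sound p13_8_0_68)) (pfC_sound p13_8_0_69)) (pfC_sound p13_8_0_70)) (pfC_sound p13_8_0_71)) (pfC_sound p13_8_0_72)) (pfC_sound p13_8_0_73)) (pfC_sound p13_8_0_74)) (pfC_sound p13_8_0_75)) (pfC_sound p13_8_0_76)) (pfC_sound p13_8_0_77)) (pfC_sound p13_8_0_78)) (pfC_sound p13_8_0_79)) (pfC_sound p13_8_0_80)) (pfC_sound p13_8_0_81)) (pfC_sound p13_8_0_82)) (pfC_sound p13_8_0_83))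 (pfC_sound p13_8_0_84)) (pfC_sound p13_8_0_85)) (pfC_sound p13_8_0_86)) (pfC_sound p13_8_0_87)) (pfC_sound p13_8_0_88)) (pfC_sound p13_8_0_89)) (pfC_sound p13_8_0_90)) (pfC_sound p13_8_0_91)) (pfC_sound p13_8_0_92)) (pfC_sound p13_8_0_93)) (pfC_sound p13_8_0_94)) (pfC_sound p13_8_0_95)) (pfC_sound p13_8_0_96)) (pfC_sound p13_8_0_97)) (pfC_sound p13_8_0_98)) (pfC_sound p13_8_0_99)) (pfC_sound p13_8_0_100)) (pfC_sound p13_8_0_101)) (pfC_sound
 p13_8_0_102)) (by decide +kernel)

def z13_8_0 : zOK yB13_8 (nat_lit 0) (nat_lit 0) (nat_lit 400) (nat_lit 29957324) (nat_lit 10555529) = true := by decide +kernel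
def g13_8_0 : gOK yB13_8.x P13_8 (nat_lit 1428) (q13_8 :: r13_8) (nat_lit 0) (nat_lit 0) (nat_lit 1) (nat_lit 400) (nat_lit 0) (nat_lit 11000000) (nat_lit 12712500) (nat_lit 12712500) [(nat_lit 800), (nat_lit 1400), (nat_lit 1530)] = true := by decide +kernel
def v13_8_0 : ivC P13_8 s13_8 w13_8 n13_8 (nat_lit 4) (nat_lit 5500) (nat_lit 0) (nat_lit 0) f136_1_0 f144_1_0 (nat_lit 1) (nat_lit 400) f136_1_400 f144_1_400 (nat_lit 29957324) (nat_lit 10555529) p13_8_0 = true := by decide +kernel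
def p13_8_1 : PF := (PF.cons (PF.cons (PF.cons (PF.cons (PF.leaf (nat_lit 2093544) (nat_lit 9912372) (nat_lit 57196440) (nat_lit 9912372) [(nat_lit 0), (nat_lit 0), (nat_lit 0), (nat_lit 0)]) (PF.cons (PF.leaf (nat_lit 2202753) (nat_lit 176102) (nat_lit 57005555) (nat_lit 9927154) [(nat_lit 176102), (nat_lit 0), (nat_lit 0), (nat_lit 0)]) (PF.cons (PF.leaf (nat_lit 2335518) (nat_lit 191887) (nat_lit 56781372) (nat_lit 9943665) [(nat_lit 191887), (nat_lit 0), (nat_lit 0), (nat_lit 0)]) (PF.cons (PF.leaf (nat_lit 2485050) (nat_lit 206050) (nat_lit 56529502) (nat_lit 9961159) [(nat_lit 206050), (nat_lit 0), (nat_lit 0), (nat_lit 0)]) (PF.cons (PF.leaf (nat_lit 2649103) (nat_lit 218974) (nat_lit 56253848) (nat_lit 9979064) [(nat_lit 218974), (nat_lit 0), (nat_lit 0), (nat_lit 0)]) (PF.cons (PF.leaf (nat_lit 2826383) (nat_lit 230902) (nat_lit 55957379) (nat_lit 9996920) [(nat_lit 230902), (nat_lit 0), (nat_lit 0), (nat_lit 0)]) (PF.cons PF.nil PF.nil)))))))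 (PF.cons (PF.cons (PF.leaf (nat_lit 2560698) (nat_lit 1010258) (nat_lit 56115500) (nat_lit 9983054) [(nat_lit 0), (nat_lit 1010258), (nat_lit 0), (nat_lit 0)]) (PF.cons (PF.leaf (nat_lit 2707851) (nat_lit 217867) (nat_lit 55859606) (nat_lit 9997923)
 [(nat_lit 217867), (nat_lit 1033416), (nat_lit 0), (nat_lit 0)]) (PF.cons (PF.leaf (nat_lit 2872826) (nat_lit 230243) (nat_lit 55578604) (nat_lit 10013063) [(nat_lit 230243), (nat_lit 1056657), (nat_lit 0), (nat_lit 0)]) (PF.cons (PF.leaf (nat_lit 3051183) (nat_lit 241610) (nat_lit 55276394) (nat_lit 10027998) [(nat_lit 241610), (nat_lit 1079588), (nat_lit 0), (nat_lit 0)]) (PF.cons PF.nil PF.nil))))) (PF.cons (PF.cons (PF.leaf (nat_lit 3102733) (nat_lit 1093559) (nat_lit 54880777) (nat_lit 10040916) [(nat_lit 0), (nat_lit 1093559), (nat_lit 0), (nat_lit 0)]) (PF.cons (PF.leaf (nat_lit 3279097) (nat_lit 250986) (nat_lit 54577019) (nat_lit 10052792) [(nat_lit 250986), (nat_lit 1114007), (nat_lit 0), (nat_lit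 0)]) (PF.cons (PF.leaf (nat_lit 3469496) (nat_lit 261149) (nat_lit 54254191) (nat_lit 10064004) [(nat_lit 261149), (nat_lit 1134159), (nat_lit 0), (nat_lit 0)]) (PF.cons PF.nil PF.nil)))) (PF.cons (PF.cons (PF.leaf (nat_lit 3701188) (nat_lit 1163435) (nat_lit 53539226) (nat_lit 10079279) [(nat_lit 0), (nat_lit 1163435), (nat_lit 0), (nat_lit 0)]) (PF.cons PF.nil PF.nil)) (PF.cons PF.nil (PF.cons PF.nil PF.nil)))))) (PF.cons (PF.cons (PF.cons (PF.leaf (nat_lit 3115471) (nat_lit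
 2868461) (nat_lit 54200504) (nat_lit 10039847) [(nat_lit 0), (nat_lit 0), (nat_lit 2868461), (nat_lit 0)]) (PF.cons (PF.leaf (nat_lit 3272560) (nat_lit 238013) (nat_lit 53931636) (nat_lit 10048260) [(nat_lit 238013), (nat_lit 0), (nat_lit 2890902), (nat_lit 0)]) (PF.cons (PF.leaf (nat_lit 3446633) (nat_lit 249916) (nat_lit 53638588) (nat_lit 10056327) [(nat_lit 249916), (nat_lit 0), (nat_lit 2914063), (nat_lit 0)]) (PF.cons (PF.leaf (nat_lit 3633616) (nat_lit 260685) (nat_lit 53325619) (nat_lit 10063705) [(nat_lit 260685), (nat_lit 0), (nat_lit 2937430), (nat_lit 0)]) (PF.cons PF.nil PF.nil))))) (PF.cons (PF.cons (PF.leaf (nat_lit 3677096) (nat_lit 1155264) (nat_lit 52930112) (nat_lit 10066815) [(nat_lit 0), (nat_lit 1155264), (nat_lit 2956620), (nat_lit 0)]) (PF.cons (PF.leaf (nat_lit 3860937) (nat_lit 268270) (nat_lit 52618976) (nat_lit 10071377) [(nat_lit 268270), (nat_lit 1172827), (nat_lit 2977361), (nat_lit 0)]) (PF.cons PF.nil (PF.cons PF.nil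 PF.nil)))) (PF.cons (PF.cons (PF.leaf (nat_lit 4287025) (nat_lit 1213553) (nat_lit 51576160) (nat_lit 10073917) [(nat_lit 0), (nat_lit 1213553), (nat_lit 3031628), (nat_lit 0)]) (PF.cons PF.nil PF.nil)) (PF.cons PF.nil (PF.cons PF.nil
 PF.nil))))) (PF.cons (PF.cons (PF.cons (PF.leaf (nat_lit 4246217) (nat_lit 3029370) (nat_lit 50999654) (nat_lit 10050417) [(nat_lit 0), (nat_lit 0), (nat_lit 3029370), (nat_lit 0)]) (PF.cons (PF.leaf (nat_lit 4435393) (nat_lit 282420) (nat_lit 50686374) (nat_lit 10048425) [(nat_lit 282420), (nat_lit 0), (nat_lit 3045796), (nat_lit 0)]) (PF.cons PF.nil (PF.cons PF.nil PF.nil)))) (PF.cons (PF.cons (PF.leaf (nat_lit 4861820) (nat_lit 1252155) (nat_lit 49652849) (nat_lit 10030315) [(nat_lit 0), (nat_lit 1252155), (nat_lit 3086745), (nat_lit 0)]) (PF.cons PF.nil PF.nil)) (PF.cons PF.nil PF.nil))) (PF.cons (PF.cons (PF.cons (PF.leaf (nat_lit 5422756) (nat_lit 3122777) (nat_lit 47785143) (nat_lit 9955336) [(nat_lit 0), (nat_lit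 0), (nat_lit 3122777), (nat_lit 0)]) (PF.cons PF.nil PF.nil)) (PF.cons PF.nil PF.nil)) (PF.cons PF.nil PF.nil))))) (PF.cons (PF.cons (PF.cons (PF.cons (PF.leaf (nat_lit 4054752) (nat_lit 7779310) (nat_lit 49430441) (nat_lit 9899060) [(nat_lit 0), (nat_lit 0), (nat_lit 0), (nat_lit 7779310)]) (PF.cons (PF.leaf (nat_lit 4213936) (nat_lit 251180) (nat_lit 49178058) (nat_lit 9896038) [(nat_lit 251180), (nat_lit 0), (nat_lit 0), (nat_lit 7783536)]) (PF.cons (PF.leaf
 (nat_lit 4389405) (nat_lit 262742) (nat_lit 48904062) (nat_lit 9891954) [(nat_lit 262742), (nat_lit 0), (nat_lit 0), (nat_lit 7787311)]) (PF.cons (PF.leaf (nat_lit 4576900) (nat_lit 273024) (nat_lit 48612600) (nat_lit 9886712) [(nat_lit 273024), (nat_lit 0), (nat_lit 0), (nat_lit 7790426)]) (PF.cons (PF.leaf (nat_lit 4774721) (nat_lit 282295) (nat_lit 48306669) (nat_lit 9880236) [(nat_lit 282295), (nat_lit 0), (nat_lit 0), (nat_lit 7792724)]) (PF.cons PF.nil (PF.cons PF.nil PF.nil))))))) (PF.cons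 (PF.cons (PF.leaf (nat_lit 4608627) (nat_lit 1194187) (nat_lit 48251176) (nat_lit 9874981) [(nat_lit 0), (nat_lit 1194187), (nat_lit 0), (nat_lit 7788466)]) (PF.cons (PF.leaf (nat_lit 4791943) (nat_lit 278911) (nat_lit 47963653) (nat_lit 9867848) [(nat_lit 278911), (nat_lit 1208784), (nat_lit 0), (nat_lit 7789614)]) (PF.cons (PF.leaf (nat_lit 4987503) (nat_lit 287902) (nat_lit 47660761) (nat_lit 9859417) [(nat_lit 287902), (nat_lit 1222907), (nat_lit 0), (nat_lit 7789920)]) (PF.cons PF.nil (PF.cons PF.nil PF.nil))))) (PF.cons (PF.cons (PF.leaf (nat_lit 5202147) (nat_lit 1239966) (nat_lit 47011294) (nat_lit 9834392) [(nat_lit 0), (nat_lit 1239966), (nat_lit 0), (nat_lit 7783191)]) (PF.cons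
 (PF.leaf (nat_lit 5403242) (nat_lit 300594) (nat_lit 46700496) (nat_lit 9822818) [(nat_lit 300594), (nat_lit 1252113), (nat_lit 0), (nat_lit 7780677)]) (PF.cons PF.nil (PF.cons PF.nil PF.nil)))) (PF.cons (PF.cons (PF.leaf (nat_lit 5823060) (nat_lit 1276557) (nat_lit 45738501) (nat_lit 9777475) [(nat_lit 0), (nat_lit 1276557), (nat_lit 0), (nat_lit 7763162)]) (PF.cons PF.nil PF.nil)) (PF.cons PF.nil PF.nil))))) (PF.cons (PF.cons (PF.cons (PF.leaf (nat_lit 5141059) (nat_lit 3047342) (nat_lit 46506864) (nat_lit 9796536) [(nat_lit 0), (nat_lit 0), (nat_lit 3047342), (nat_lit 7758069)]) (PF.cons (PF.leaf (nat_lit 5327568) (nat_lit 289370) (nat_lit 46221505) (nat_lit 9784897) [(nat_lit 289370), (nat_lit 0), (nat_lit 3058128), (nat_lit 7754910)]) (PF.cons (PF.leaf (nat_lit 5525751) (nat_lit 297811) (nat_lit 45921931) (nat_lit 9771847) [(nat_lit 297811), (nat_lit 0), (nat_lit 3068625), (nat_lit 7750785)]) (PF.cons PF.nil PF.nil)))) (PF.cons (PF.cons (PF.leaf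 (nat_lit 5735096) (nat_lit 1264445) (nat_lit 45289159) (nat_lit 9737903) [(nat_lit 0), (nat_lit 1264445), (nat_lit 3081950), (nat_lit 7735353)]) (PF.cons (PF.leaf (nat_lit 5937724) (nat_lit 308886) (nat_lit 44984056) (nat_lit 9722009)
 [(nat_lit 308886), (nat_lit 1274694), (nat_lit 3090495), (nat_lit 7728670)]) PF.nil)) (PF.cons PF.nil PF.nil))) (PF.cons (PF.cons (PF.cons (PF.leaf (nat_lit 6253355) (nat_lit 3093387) (nat_lit 43630855) (nat_lit 9622433) [(nat_lit 0), (nat_lit 0), (nat_lit 3093387), (nat_lit 7668748)]) (PF.cons PF.nil PF.nil)) (PF.cons PF.nil PF.nil)) (PF.cons PF.nil (PF.cons PF.nil PF.nil))))) (PF.cons (PF.cons (PF.cons (PF.cons (PF.leaf (nat_lit 5942917) (nat_lit 7540154) (nat_lit 42564135) (nat_lit 9464368) [(nat_lit 0), (nat_lit 0), (nat_lit 0), (nat_lit 7540154)]) (PF.cons (PF.leaf (nat_lit 6125118) (nat_lit 291369) (nat_lit 42307564) (nat_lit 9447137) [(nat_lit 291369), (nat_lit 0), (nat_lit 0), (nat_lit 7531370)]) (PF.cons (PF.leaf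 (nat_lit 6318291) (nat_lit 299285) (nat_lit 42038689) (nat_lit 9428450) [(nat_lit 299285), (nat_lit 0), (nat_lit 0), (nat_lit 7521550)]) (PF.cons PF.nil PF.nil)))) (PF.cons (PF.cons (PF.leaf (nat_lit 6513417) (nat_lit 1258507) (nat_lit 41475487) (nat_lit 9384053) [(nat_lit 0), (nat_lit 1258507), (nat_lit 0), (nat_lit 7495381)]) (PF.cons (PF.leaf (nat_lit 6709972) (nat_lit 308808) (nat_lit 41202882) (nat_lit 9363168) [(nat_lit 308808), (nat_lit 1266822), (nat_lit
 0), (nat_lit 7483565)]) PF.nil)) (PF.cons PF.nil PF.nil))) (PF.cons (PF.cons (PF.cons (PF.leaf (nat_lit 6993689) (nat_lit 3033751) (nat_lit 40012662) (nat_lit 9248270) [(nat_lit 0), (nat_lit 0), (nat_lit 3033751), (nat_lit 7407064)]) (PF.cons PF.nil PF.nil)) (PF.cons PF.nil PF.nil)) (PF.cons PF.nil PF.nil))) (PF.cons (PF.cons (PF.cons (PF.cons (PF.leaf (nat_lit 7659656) (nat_lit 7127745) (nat_lit 36862733) (nat_lit 8862842) [(nat_lit 0), (nat_lit 0), (nat_lit 0), (nat_lit 7127745)]) (PF.cons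 PF.nil PF.nil)) (PF.cons PF.nil PF.nil)) (PF.cons PF.nil PF.nil)) (PF.cons PF.nil (PF.cons PF.nil (PF.cons PF.nil (PF.cons PF.nil PF.nil))))))))

def p13_8_1_0 : pfC (piC [(nat_lit 43428061), (nat_lit 27333682), (nat_lit 20249535), (nat_lit 13586793)] (nat_lit 10555529)) p13_8_1 (nat_lit 4) (nat_lit 0) (nat_lit 1) = true := by decide +kernel
def p13_8_1_1 : pfC (piC [(nat_lit 43428061), (nat_lit 27333682), (nat_lit 20249535), (nat_lit 13586793)] (nat_lit 10555529)) p13_8_1 (nat_lit 4) (nat_lit 1) (nat_lit 2) = true := by decide +kernel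
def p13_8_1_2 : pfC (piC [(nat_lit 43428061), (nat_lit 27333682), (nat_lit 20249535), (nat_lit 13586793)] (nat_lit 10555529)) p13_8_1 (nat_lit 4) (nat_lit 2) (nat_lit 3) = true := by decide +kernel
def p13_8_1_3 : pfC (piC [(nat_lit 43428061), (nat_lit 27333682), (nat_lit 20249535), (nat_lit 13586793)] (nat_lit 10555529)) p13_8_1 (nat_lit 4) (nat_lit 3) (nat_lit 4) = true := by decide +kernel
def p13_8_1_4 : pfC (piC [(nat_lit 43428061), (nat_lit 27333682), (nat_lit 20249535), (nat_lit 13586793)] (nat_lit 10555529)) p13_8_1 (nat_lit 4) (nat_lit 4) (nat_lit 5) = true := by decide +kernel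
def p13_8_1_5 : pfC (piC [(nat_lit 43428061), (nat_lit 27333682), (nat_lit 20249535), (nat_lit 13586793)] (nat_lit 10555529)) p13_8_1 (nat_lit 4) (nat_lit 5) (nat_lit 6) = true := by decide +kernel
def p13_8_1_6 : pfC (piC [(nat_lit 43428061), (nat_lit 27333682), (nat_lit 20249535), (nat_lit 13586793)] (nat_lit 10555529)) p13_8_1 (nat_lit 4) (nat_lit 6) (nat_lit 7) = true := by decide +kernel
def p13_8_1_7 : pfC (piC [(nat_lit 43428061), (nat_lit 27333682), (nat_lit 20249535), (nat_lit 13586793)] (nat_lit 10555529)) p13_8_1 (nat_lit 4) (nat_lit 7) (nat_lit 8) = true := by decide +kernel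
def p13_8_1_8 : pfC (piC [(nat_lit 43428061), (nat_lit 27333682), (nat_lit 20249535), (nat_lit 13586793)] (nat_lit 10555529)) p13_8_1 (nat_lit 4) (nat_lit 8) (nat_lit 9) = true := by decide +kernel
def p13_8_1_9 : pfC (piC [(nat_lit 43428061), (nat_lit 27333682), (nat_lit 20249535), (nat_lit 13586793)] (nat_lit 10555529)) p13_8_1 (nat_lit 4) (nat_lit 9) (nat_lit 10) = true := by decide +kernel
def p13_8_1_10 : pfC (piC [(nat_lit 43428061), (nat_lit 27333682), (nat_lit 20249535), (nat_lit 13586793)] (nat_lit 10555529)) p13_8_1 (nat_lit 4) (nat_lit 10) (nat_lit 11) = true := by decide +kernel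
def p13_8_1_11 : pfC (piC [(nat_lit 43428061), (nat_lit 27333682), (nat_lit 20249535), (nat_lit 13586793)] (nat_lit 10555529)) p13_8_1 (nat_lit 4) (nat_lit 11) (nat_lit 12) = true := by decide +kernel
def p13_8_1_12 : pfC (piC [(nat_lit 43428061), (nat_lit 27333682), (nat_lit 20249535), (nat_lit 13586793)] (nat_lit 10555529)) p13_8_1 (nat_lit 4) (nat_lit 12) (nat_lit 13) = true := by decide +kernel
def p13_8_1_13 : pfC (piC [(nat_lit 43428061), (nat_lit 27333682), (nat_lit 20249535), (nat_lit 13586793)] (nat_lit 10555529)) p13_8_1 (nat_lit 4) (nat_lit 13) (nat_lit 14) = true := by decide +kernel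
def p13_8_1_14 : pfC (piC [(nat_lit 43428061), (nat_lit 27333682), (nat_lit 20249535), (nat_lit 13586793)] (nat_lit 10555529)) p13_8_1 (nat_lit 4) (nat_lit 14) (nat_lit 15) = true := by decide +kernel
def p13_8_1_15 : pfC (piC [(nat_lit 43428061), (nat_lit 27333682), (nat_lit 20249535), (nat_lit 13586793)] (nat_lit 10555529)) p13_8_1 (nat_lit 4) (nat_lit 15) (nat_lit 16) = true := by decide +kernel
def p13_8_1_16 : pfC (piC [(nat_lit 43428061), (nat_lit 27333682), (nat_lit 20249535), (nat_lit 13586793)] (nat_lit 10555529)) p13_8_1 (nat_lit 4) (nat_lit 16) (nat_lit 17) = true := by decide +kernel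
def p13_8_1_17 : pfC (piC [(nat_lit 43428061), (nat_lit 27333682), (nat_lit 20249535), (nat_lit 13586793)] (nat_lit 10555529)) p13_8_1 (nat_lit 4) (nat_lit 17) (nat_lit 18) = true := by decide +kernel
def p13_8_1_18 : pfC (piC [(nat_lit 43428061), (nat_lit 27333682), (nat_lit 20249535), (nat_lit 13586793)] (nat_lit 10555529)) p13_8_1 (nat_lit 4) (nat_lit 18) (nat_lit 19) = true := by decide +kernel
def p13_8_1_19 : pfC (piC [(nat_lit 43428061), (nat_lit 27333682), (nat_lit 20249535), (nat_lit 13586793)] (nat_lit 10555529)) p13_8_1 (nat_lit 4) (nat_lit 19) (nat_lit 20) = true := by decide +kernel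
def p13_8_1_20 : pfC (piC [(nat_lit 43428061), (nat_lit 27333682), (nat_lit 20249535), (nat_lit 13586793)] (nat_lit 10555529)) p13_8_1 (nat_lit 4) (nat_lit 20) (nat_lit 21) = true := by decide +kernel
def p13_8_1_21 : pfC (piC [(nat_lit 43428061), (nat_lit 27333682), (nat_lit 20249535), (nat_lit 13586793)] (nat_lit 10555529)) p13_8_1 (nat_lit 4) (nat_lit 21) (nat_lit 22) = true := by decide +kernel
def p13_8_1_22 : pfC (piC [(nat_lit 43428061), (nat_lit 27333682), (nat_lit 20249535), (nat_lit 13586793)] (nat_lit 10555529)) p13_8_1 (nat_lit 4) (nat_lit 22) (nat_lit 23) = true := by decide +kernel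
def p13_8_1_23 : pfC (piC [(nat_lit 43428061), (nat_lit 27333682), (nat_lit 20249535), (nat_lit 13586793)] (nat_lit 10555529)) p13_8_1 (nat_lit 4) (nat_lit 23) (nat_lit 24) = true := by decide +kernel
def p13_8_1_24 : pfC (piC [(nat_lit 43428061), (nat_lit 27333682), (nat_lit 20249535), (nat_lit 13586793)] (nat_lit 10555529)) p13_8_1 (nat_lit 4) (nat_lit 24) (nat_lit 25) = true := by decide +kernel
def p13_8_1_25 : pfC (piC [(nat_lit 43428061), (nat_lit 27333682), (nat_lit 20249535), (nat_lit 13586793)] (nat_lit 10555529)) p13_8_1 (nat_lit 4) (nat_lit 25) (nat_lit 26) = true := by decide +kernel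
def p13_8_1_26 : pfC (piC [(nat_lit 43428061), (nat_lit 27333682), (nat_lit 20249535), (nat_lit 13586793)] (nat_lit 10555529)) p13_8_1 (nat_lit 4) (nat_lit 26) (nat_lit 27) = true := by decide +kernel
def p13_8_1_27 : pfC (piC [(nat_lit 43428061), (nat_lit 27333682), (nat_lit 20249535), (nat_lit 13586793)] (nat_lit 10555529)) p13_8_1 (nat_lit 4) (nat_lit 27) (nat_lit 28) = true := by decide +kernel
def p13_8_1_28 : pfC (piC [(nat_lit 43428061), (nat_lit 27333682), (nat_lit 20249535), (nat_lit 13586793)] (nat_lit 10555529)) p13_8_1 (nat_lit 4) (nat_lit 28) (nat_lit 29) = true := by decide +kernel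
def p13_8_1_29 : pfC (piC [(nat_lit 43428061), (nat_lit 27333682), (nat_lit 20249535), (nat_lit 13586793)] (nat_lit 10555529)) p13_8_1 (nat_lit 4) (nat_lit 29) (nat_lit 30) = true := by decide +kernel
def p13_8_1_30 : pfC (piC [(nat_lit 43428061), (nat_lit 27333682), (nat_lit 20249535), (nat_lit 13586793)] (nat_lit 10555529)) p13_8_1 (nat_lit 4) (nat_lit 30) (nat_lit 31) = true := by decide +kernel
def p13_8_1_31 : pfC (piC [(nat_lit 43428061), (nat_lit 27333682), (nat_lit 20249535), (nat_lit 13586793)] (nat_lit 10555529)) p13_8_1 (nat_lit 4) (nat_lit 31) (nat_lit 32) = true := by decide +kernel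
def p13_8_1_32 : pfC (piC [(nat_lit 43428061), (nat_lit 27333682), (nat_lit 20249535), (nat_lit 13586793)] (nat_lit 10555529)) p13_8_1 (nat_lit 4) (nat_lit 32) (nat_lit 33) = true := by decide +kernel
def p13_8_1_33 : pfC (piC [(nat_lit 43428061), (nat_lit 27333682), (nat_lit 20249535), (nat_lit 13586793)] (nat_lit 10555529)) p13_8_1 (nat_lit 4) (nat_lit 33) (nat_lit 34) = true := by decide +kernel
def p13_8_1_34 : pfC (piC [(nat_lit 43428061), (nat_lit 27333682), (nat_lit 20249535), (nat_lit 13586793)] (nat_lit 10555529)) p13_8_1 (nat_lit 4) (nat_lit 34) (nat_lit 35) = true := by decide +kernel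
def p13_8_1_35 : pfC (piC [(nat_lit 43428061), (nat_lit 27333682), (nat_lit 20249535), (nat_lit 13586793)] (nat_lit 10555529)) p13_8_1 (nat_lit 4) (nat_lit 35) (nat_lit 36) = true := by decide +kernel
def p13_8_1_36 : pfC (piC [(nat_lit 43428061), (nat_lit 27333682), (nat_lit 20249535), (nat_lit 13586793)] (nat_lit 10555529)) p13_8_1 (nat_lit 4) (nat_lit 36) (nat_lit 37) = true := by decide +kernel
def p13_8_1_37 : pfC (piC [(nat_lit 43428061), (nat_lit 27333682), (nat_lit 20249535), (nat_lit 13586793)] (nat_lit 10555529)) p13_8_1 (nat_lit 4) (nat_lit 37) (nat_lit 38) = true := by decide +kernel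
def p13_8_1_38 : pfC (piC [(nat_lit 43428061), (nat_lit 27333682), (nat_lit 20249535), (nat_lit 13586793)] (nat_lit 10555529)) p13_8_1 (nat_lit 4) (nat_lit 38) (nat_lit 39) = true := by decide +kernel
def p13_8_1_39 : pfC (piC [(nat_lit 43428061), (nat_lit 27333682), (nat_lit 20249535), (nat_lit 13586793)] (nat_lit 10555529)) p13_8_1 (nat_lit 4) (nat_lit 39) (nat_lit 40) = true := by decide +kernel
def p13_8_1_40 : pfC (piC [(nat_lit 43428061), (nat_lit 27333682), (nat_lit 20249535), (nat_lit 13586793)] (nat_lit 10555529)) p13_8_1 (nat_lit 4) (nat_lit 40) (nat_lit 41) = true := by decide +kernel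
def p13_8_1_41 : pfC (piC [(nat_lit 43428061), (nat_lit 27333682), (nat_lit 20249535), (nat_lit 13586793)] (nat_lit 10555529)) p13_8_1 (nat_lit 4) (nat_lit 41) (nat_lit 42) = true := by decide +kernel
def p13_8_1_42 : pfC (piC [(nat_lit 43428061), (nat_lit 27333682), (nat_lit 20249535), (nat_lit 13586793)] (nat_lit 10555529)) p13_8_1 (nat_lit 4) (nat_lit 42) (nat_lit 43) = true := by decide +kernel
def p13_8_1_43 : pfC (piC [(nat_lit 43428061), (nat_lit 27333682), (nat_lit 20249535), (nat_lit 13586793)] (nat_lit 10555529)) p13_8_1 (nat_lit 4) (nat_lit 43) (nat_lit 44) = true := by decide +kernel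
def p13_8_1_44 : pfC (piC [(nat_lit 43428061), (nat_lit 27333682), (nat_lit 20249535), (nat_lit 13586793)] (nat_lit 10555529)) p13_8_1 (nat_lit 4) (nat_lit 44) (nat_lit 45) = true := by decide +kernel
def p13_8_1_45 : pfC (piC [(nat_lit 43428061), (nat_lit 27333682), (nat_lit 20249535), (nat_lit 13586793)] (nat_lit 10555529)) p13_8_1 (nat_lit 4) (nat_lit 45) (nat_lit 46) = true := by decide +kernel
def p13_8_1_46 : pfC (piC [(nat_lit 43428061), (nat_lit 27333682), (nat_lit 20249535), (nat_lit 13586793)] (nat_lit 10555529)) p13_8_1 (nat_lit 4) (nat_lit 46) (nat_lit 47) = true := by decide +kernel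
def p13_8_1_47 : pfC (piC [(nat_lit 43428061), (nat_lit 27333682), (nat_lit 20249535), (nat_lit 13586793)] (nat_lit 10555529)) p13_8_1 (nat_lit 4) (nat_lit 47) (nat_lit 48) = true := by decide +kernel
def p13_8_1_48 : pfC (piC [(nat_lit 43428061), (nat_lit 27333682), (nat_lit 20249535), (nat_lit 13586793)] (nat_lit 10555529)) p13_8_1 (nat_lit 4) (nat_lit 48) (nat_lit 49) = true := by decide +kernel
theorem p13_8_1_T : PfS (PiF n13_8.reverse (nat_lit 10555529)) p13_8_1 (nat_lit 4) [] 0 :=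
  pftab_of (los := [(nat_lit 43428061), (nat_lit 27333682), (nat_lit 20249535), (nat_lit 13586793)]) (by decide +kernel) (hi := (nat_lit 49)) (PfP.trans (PfP.trans (PfP.trans (PfP.trans (PfP.trans (PfP.trans (PfP.trans (PfP.trans (PfP.trans (PfP.trans (PfP.trans (PfP.trans (PfP.trans (PfP.trans (PfP.trans (PfP.trans (PfP.trans (PfP.trans (PfP.trans (PfP.trans (PfP.trans (PfP.trans (PfP.trans (PfP.trans (PfP.trans (PfP.trans (PfP.trans (PfP.trans (PfP.trans (PfP.trans (PfP.trans (PfP.trans (PfP.trans (PfP.trans (PfP.trans (PfP.trans (PfP.trans (PfP.trans (PfP.trans (PfP.trans (PfP.trans (PfP.trans (PfP.trans (PfP.trans (PfP.trans (PfP.trans (PfP.trans (PfP.trans (pfC_sound p13_8_1_0) (pfC_sound p13_8_1_1)) (pfC_sound p13_8_1_2)) (pfC_sound p13_8_1_3)) (pfC_sound p13_8_1_4)) (pfC_sound p13_8_1_5)) (pfC_sound p13_8_1_6)) (pfC_sound p13_8_1_7)) (pfC_sound p13_8_1_8)) (pfC_sound p13_8_1_9)) (pfC_sound p13_8_1_10)) (pfC_sound p13_8_1_11)) (pfC_sound p13_8_1_12))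 (pfC_sound p13_8_1_13)) (pfC_sound p13_8_1_14)) (pfC_sound p13_8_1_15)) (pfC_sound p13_8_1_16)) (pfC_sound p13_8_1_17)) (pfC_sound p13_8_1_18)) (pfC_sound p13_8_1_19)) (pfC_sound p13_8_1_20)) (pfC_sound p13_8_1_21)) (pfC_sound p13_8_1_22)) (pfC_sound p13_8_1_23)) (pfC_sound p13_8_1_24)) (pfC_sound p13_8_1_25)) (pfC_sound p13_8_1_26)) (pfC_sound p13_8_1_27)) (pfC_sound
 p13_8_1_28)) (pfC_sound p13_8_1_29)) (pfC_sound p13_8_1_30)) (pfC_sound p13_8_1_31)) (pfC_sound p13_8_1_32)) (pfC_sound p13_8_1_33)) (pfC_sound p13_8_1_34)) (pfC_sound p13_8_1_35)) (pfC_sound p13_8_1_36)) (pfC_sound p13_8_1_37)) (pfC_sound p13_8_1_38)) (pfC_sound p13_8_1_39)) (pfC_sound p13_8_1_40)) (pfC_sound p13_8_1_41)) (pfC_sound p13_8_1_42)) (pfC_sound p13_8_1_43)) (pfC_sound p13_8_1_44)) (pfC_sound p13_8_1_45)) (pfC_sound p13_8_1_46)) (pfC_sound p13_8_1_47)) (pfC_sound p13_8_1_48)) (by decide +kernel)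

def z13_8_1 : zOK yB13_8 (nat_lit 1) (nat_lit 400) (nat_lit 600) (nat_lit 10555529) (nat_lit 6971554) = true := by decide +kernel
def g13_8_1 : gOK yB13_8.x P13_8 (nat_lit 1428) (q13_8 :: r13_8) (nat_lit 1) (nat_lit 400) (nat_lit 2) (nat_lit 600) (nat_lit 11000000) (nat_lit 17850000) (nat_lit 12712500) (nat_lit 12712500) [(nat_lit 800), (nat_lit 1040)] = true := by decide +kernel
def v13_8_1 : ivC P13_8 s13_8 w13_8 n13_8 (nat_lit 4) (nat_lit 5100) (nat_lit 1) (nat_lit 400) f136_1_400 f144_1_400 (nat_lit 2) (nat_lit 600) f136_1_600 f144_1_600 (nat_lit 10555529) (nat_lit 6971554) p13_8_1 = true := by decide +kernel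
def p13_8_2 : PF := (PF.cons (PF.cons (PF.cons (PF.cons (PF.leaf (nat_lit 2710877) (nat_lit 15596963) (nat_lit 51511849) (nat_lit 15596963) [(nat_lit 0), (nat_lit 0), (nat_lit 0), (nat_lit 0)]) (PF.cons (PF.leaf (nat_lit 2818026) (nat_lit 177274) (nat_lit 51344460) (nat_lit 15587077) [(nat_lit 177274), (nat_lit 0), (nat_lit 0), (nat_lit 0)]) (PF.cons (PF.leaf (nat_lit 2948107) (nat_lit 192874) (nat_lit 51148121) (nat_lit 15574943) [(nat_lit 192874), (nat_lit 0), (nat_lit 0), (nat_lit 0)]) (PF.cons (PF.leaf (nat_lit 3094297) (nat_lit 206773) (nat_lit 50927839) (nat_lit 15560653) [(nat_lit 206773), (nat_lit 0), (nat_lit 0), (nat_lit 0)]) (PF.cons (PF.leaf (nat_lit 3254306) (nat_lit 219366) (nat_lit 50687108) (nat_lit 15544236) [(nat_lit 219366), (nat_lit 0), (nat_lit 0), (nat_lit 0)]) (PF.cons (PF.leaf (nat_lit 3426824) (nat_lit 230906) (nat_lit 50428590) (nat_lit 15525692) [(nat_lit 230906), (nat_lit 0), (nat_lit 0), (nat_lit 0)]) (PF.cons PF.nil (PF.cons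 PF.nil (PF.cons PF.nil PF.nil))))))))) (PF.cons (PF.cons (PF.leaf (nat_lit 3162710) (nat_lit 1008273) (nat_lit 50567650) (nat_lit 15532888) [(nat_lit 0), (nat_lit 1008273), (nat_lit 0), (nat_lit 0)]) (PF.cons (PF.leaf (nat_lit 3305862) (nat_lit
 217731) (nat_lit 50344658) (nat_lit 15516522) [(nat_lit 217731), (nat_lit 1029900), (nat_lit 0), (nat_lit 0)]) (PF.cons (PF.leaf (nat_lit 3466097) (nat_lit 229734) (nat_lit 50100108) (nat_lit 15497788) [(nat_lit 229734), (nat_lit 1051447), (nat_lit 0), (nat_lit 0)]) (PF.cons (PF.leaf (nat_lit 3638972) (nat_lit 240680) (nat_lit 49837455) (nat_lit 15476764) [(nat_lit 240680), (nat_lit 1072550), (nat_lit 0), (nat_lit 0)]) (PF.cons (PF.leaf (nat_lit 3823048) (nat_lit 250764) (nat_lit 49559252) (nat_lit 15453492) [(nat_lit 250764), (nat_lit 1093010), (nat_lit 0), (nat_lit 0)]) (PF.cons PF.nil (PF.cons PF.nil PF.nil))))))) (PF.cons (PF.cons (PF.leaf (nat_lit 3683022) (nat_lit 1084218) (nat_lit 49495377) (nat_lit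 15444998) [(nat_lit 0), (nat_lit 1084218), (nat_lit 0), (nat_lit 0)]) (PF.cons (PF.leaf (nat_lit 3853326) (nat_lit 249117) (nat_lit 49232167) (nat_lit 15421785) [(nat_lit 249117), (nat_lit 1102871), (nat_lit 0), (nat_lit 0)]) (PF.cons (PF.leaf (nat_lit 4036906) (nat_lit 258803) (nat_lit 48952770) (nat_lit 15396171) [(nat_lit 258803), (nat_lit 1121132), (nat_lit 0), (nat_lit 0)]) (PF.cons (PF.leaf (nat_lit 4230704) (nat_lit 267745) (nat_lit 48659661) (nat_lit 15368235) [(nat_lit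
 267745), (nat_lit 1138839), (nat_lit 0), (nat_lit 0)]) (PF.cons PF.nil PF.nil))))) (PF.cons (PF.cons (PF.leaf (nat_lit 4253749) (nat_lit 1146453) (nat_lit 48336338) (nat_lit 15333112) [(nat_lit 0), (nat_lit 1146453), (nat_lit 0), (nat_lit 0)]) (PF.cons (PF.leaf (nat_lit 4444993) (nat_lit 274438) (nat_lit 48044272) (nat_lit 15303019) [(nat_lit 274438), (nat_lit 1162360), (nat_lit 0), (nat_lit 0)]) (PF.cons PF.nil (PF.cons PF.nil PF.nil)))) (PF.cons (PF.cons (PF.leaf (nat_lit 4861518) (nat_lit 1197488) (nat_lit 47120794) (nat_lit 15198064) [(nat_lit 0), (nat_lit 1197488), (nat_lit 0), (nat_lit 0)]) (PF.cons PF.nil PF.nil)) (PF.cons PF.nil PF.nil)))))) (PF.cons (PF.cons (PF.cons (PF.leaf (nat_lit 3682765) (nat_lit 2820102) (nat_lit 48913360) (nat_lit 15375350) [(nat_lit 0), (nat_lit 0), (nat_lit 2820102), (nat_lit 0)]) (PF.cons (PF.leaf (nat_lit 3834293) (nat_lit 235614) (nat_lit 48680847) (nat_lit 15353302) [(nat_lit 235614), (nat_lit 0), (nat_lit 2839048),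 (nat_lit 0)]) (PF.cons (PF.leaf (nat_lit 4002238) (nat_lit 247072) (nat_lit 48427670) (nat_lit 15328523) [(nat_lit 247072), (nat_lit 0), (nat_lit 2858474), (nat_lit 0)]) (PF.cons (PF.leaf (nat_lit 4182239) (nat_lit 257369)
 (nat_lit 48157551) (nat_lit 15301212) [(nat_lit 257369), (nat_lit 0), (nat_lit 2877940), (nat_lit 0)]) (PF.cons (PF.leaf (nat_lit 4372744) (nat_lit 266745) (nat_lit 47873188) (nat_lit 15271498) [(nat_lit 266745), (nat_lit 0), (nat_lit 2897145), (nat_lit 0)]) PF.nil))))) (PF.cons (PF.cons (PF.leaf (nat_lit 4218426) (nat_lit 1135931) (nat_lit 47817719) (nat_lit 15262620) [(nat_lit 0), (nat_lit 1135931), (nat_lit 2892540), (nat_lit 0)]) (PF.cons (PF.leaf (nat_lit 4394903) (nat_lit 264090) (nat_lit 47549744) (nat_lit 15233529) [(nat_lit 264090), (nat_lit 1151820), (nat_lit 2909627), (nat_lit 0)]) (PF.cons (PF.leaf (nat_lit 4583888) (nat_lit 273170) (nat_lit 47266716) (nat_lit 15201882) [(nat_lit 273170), (nat_lit 1167302), (nat_lit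 2926570), (nat_lit 0)]) (PF.cons PF.nil PF.nil)))) (PF.cons (PF.cons (PF.leaf (nat_lit 4797431) (nat_lit 1187381) (nat_lit 46654239) (nat_lit 15127230) [(nat_lit 0), (nat_lit 1187381), (nat_lit 2952579), (nat_lit 0)]) (PF.cons (PF.leaf (nat_lit 4992731) (nat_lit 286776) (nat_lit 46361781) (nat_lit 15091478) [(nat_lit 286776), (nat_lit 1200831), (nat_lit 2967113), (nat_lit 0)]) PF.nil)) (PF.cons PF.nil (PF.cons PF.nil PF.nil))))) (PF.cons (PF.cons (PF.cons
 (PF.leaf (nat_lit 4747430) (nat_lit 2945977) (nat_lit 46165150) (nat_lit 15051707) [(nat_lit 0), (nat_lit 0), (nat_lit 2945977), (nat_lit 0)]) (PF.cons (PF.leaf (nat_lit 4928226) (nat_lit 276225) (nat_lit 45896379) (nat_lit 15017580) [(nat_lit 276225), (nat_lit 0), (nat_lit 2959313), (nat_lit 0)]) (PF.cons (PF.leaf (nat_lit 5120961) (nat_lit 284754) (nat_lit 45613625) (nat_lit 14980815) [(nat_lit 284754), (nat_lit 0), (nat_lit 2972430), (nat_lit 0)]) (PF.cons PF.nil PF.nil)))) (PF.cons (PF.cons (PF.leaf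 (nat_lit 5330204) (nat_lit 1218375) (nat_lit 45011678) (nat_lit 14896779) [(nat_lit 0), (nat_lit 1218375), (nat_lit 2990989), (nat_lit 0)]) (PF.cons (PF.leaf (nat_lit 5528062) (nat_lit 296633) (nat_lit 44722068) (nat_lit 14856338) [(nat_lit 296633), (nat_lit 1229756), (nat_lit 3002008), (nat_lit 0)]) PF.nil)) (PF.cons PF.nil PF.nil))) (PF.cons (PF.cons (PF.cons (PF.leaf (nat_lit 5850243) (nat_lit 3014020) (nat_lit 43419309) (nat_lit 14647440) [(nat_lit 0), (nat_lit 0), (nat_lit 3014020), (nat_lit 0)]) (PF.cons PF.nil PF.nil)) (PF.cons PF.nil PF.nil)) (PF.cons PF.nil PF.nil))))) (PF.cons (PF.cons (PF.cons (PF.cons (PF.leaf (nat_lit 4537709) (nat_lit 7467611) (nat_lit 44855539)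
 (nat_lit 14785662) [(nat_lit 0), (nat_lit 0), (nat_lit 0), (nat_lit 7467611)]) (PF.cons (PF.leaf (nat_lit 4690313) (nat_lit 245327) (nat_lit 44638715) (nat_lit 14756568) [(nat_lit 245327), (nat_lit 0), (nat_lit 0), (nat_lit 7468201)]) (PF.cons (PF.leaf (nat_lit 4858585) (nat_lit 256409) (nat_lit 44403414) (nat_lit 14724400) [(nat_lit 256409), (nat_lit 0), (nat_lit 0), (nat_lit 7468178)]) (PF.cons (PF.leaf (nat_lit 5038190) (nat_lit 266220) (nat_lit 44153209) (nat_lit 14689525) [(nat_lit 266220), (nat_lit 0), (nat_lit 0), (nat_lit 7467417)]) (PF.cons (PF.leaf (nat_lit 5227505) (nat_lit 275026) (nat_lit 43890677) (nat_lit 14652198) [(nat_lit 275026), (nat_lit 0), (nat_lit 0), (nat_lit 7465829)]) (PF.cons PF.nil (PF.cons PF.nil PF.nil))))))) (PF.cons (PF.cons (PF.leaf (nat_lit 5064464) (nat_lit 1160782) (nat_lit 43844003) (nat_lit 14642801) [(nat_lit 0), (nat_lit 1160782), (nat_lit 0), (nat_lit 7461225)]) (PF.cons (PF.leaf (nat_lit 5239703) (nat_lit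 271482) (nat_lit 43597355) (nat_lit 14606925) [(nat_lit 271482), (nat_lit 1174122), (nat_lit 0), (nat_lit 7458926)]) (PF.cons (PF.leaf (nat_lit 5426626) (nat_lit 280018) (nat_lit 43337594) (nat_lit 14568442) [(nat_lit 280018), (nat_lit
 1186965), (nat_lit 0), (nat_lit 7455774)]) (PF.cons (PF.leaf (nat_lit 5622349) (nat_lit 287712) (nat_lit 43067121) (nat_lit 14527617) [(nat_lit 287712), (nat_lit 1199222), (nat_lit 0), (nat_lit 7451714)]) (PF.cons PF.nil PF.nil))))) (PF.cons (PF.cons (PF.leaf (nat_lit 5627524) (nat_lit 1201739) (nat_lit 42781704) (nat_lit 14481057) [(nat_lit 0), (nat_lit 1201739), (nat_lit 0), (nat_lit 7442572)]) (PF.cons (PF.leaf (nat_lit 5819299) (nat_lit 291701) (nat_lit 42515327) (nat_lit 14439318) [(nat_lit 291701), (nat_lit 1212695), (nat_lit 0), (nat_lit 7437073)]) (PF.cons PF.nil (PF.cons PF.nil PF.nil)))) (PF.cons (PF.cons (PF.leaf (nat_lit 6215512) (nat_lit 1234011) (nat_lit 41691870) (nat_lit 14303123) [(nat_lit 0), (nat_lit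 1234011), (nat_lit 0), (nat_lit 7411784)]) (PF.cons PF.nil PF.nil)) (PF.cons PF.nil PF.nil))))) (PF.cons (PF.cons (PF.cons (PF.leaf (nat_lit 5561359) (nat_lit 2939630) (nat_lit 42353810) (nat_lit 14400670) [(nat_lit 0), (nat_lit 0), (nat_lit 2939630), (nat_lit 7414701)]) (PF.cons (PF.leaf (nat_lit 5739322) (nat_lit 280600) (nat_lit 42109196) (nat_lit 14361465) [(nat_lit 280600), (nat_lit 0), (nat_lit 2948507), (nat_lit 7409043)]) (PF.cons (PF.leaf (nat_lit 5928439)
 (nat_lit 288604) (nat_lit 41852421) (nat_lit 14319657) [(nat_lit 288604), (nat_lit 0), (nat_lit 2957075), (nat_lit 7402449)]) (PF.cons PF.nil PF.nil)))) (PF.cons (PF.cons (PF.leaf (nat_lit 6124400) (nat_lit 1221574) (nat_lit 41310914) (nat_lit 14226782) [(nat_lit 0), (nat_lit 1221574), (nat_lit 2966873), (nat_lit 7382667)]) (PF.cons (PF.leaf (nat_lit 6317438) (nat_lit 298801) (nat_lit 41049415) (nat_lit 14182122) [(nat_lit 298801), (nat_lit 1230818), (nat_lit 2973692), (nat_lit 7373963)])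 PF.nil)) (PF.cons PF.nil PF.nil))) (PF.cons (PF.cons (PF.cons (PF.leaf (nat_lit 6608250) (nat_lit 2971495) (nat_lit 39893763) (nat_lit 13962994) [(nat_lit 0), (nat_lit 0), (nat_lit 2971495), (nat_lit 7309062)]) (PF.cons (PF.leaf (nat_lit 6801666) (nat_lit 304283) (nat_lit 39638572) (nat_lit 13916096) [(nat_lit 304283), (nat_lit 0), (nat_lit 2976087), (nat_lit 7297685)]) PF.nil)) (PF.cons PF.nil PF.nil)) (PF.cons PF.nil (PF.cons PF.nil PF.nil))))) (PF.cons (PF.cons (PF.cons (PF.cons (PF.leaf (nat_lit 6298641) (nat_lit 7188319) (nat_lit 38999016) (nat_lit 13733158) [(nat_lit 0), (nat_lit 0), (nat_lit 0), (nat_lit 7188319)]) (PF.cons (PF.leaf (nat_lit 6472577) (nat_lit 281264) (nat_lit 38778295)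
 (nat_lit 13691878) [(nat_lit 281264), (nat_lit 0), (nat_lit 0), (nat_lit 7178687)]) (PF.cons (PF.leaf (nat_lit 6657056) (nat_lit 288794) (nat_lit 38546951) (nat_lit 13648105) [(nat_lit 288794), (nat_lit 0), (nat_lit 0), (nat_lit 7168083)]) (PF.cons PF.nil PF.nil)))) (PF.cons (PF.cons (PF.leaf (nat_lit 6840775) (nat_lit 1211466) (nat_lit 38062883) (nat_lit 13552604) [(nat_lit 0), (nat_lit 1211466), (nat_lit 0), (nat_lit 7140929)]) (PF.cons (PF.leaf (nat_lit 7028287) (nat_lit 297664) (nat_lit 37828170) (nat_lit 13506598) [(nat_lit 297664), (nat_lit 1219088), (nat_lit 0), (nat_lit 7128645)]) PF.nil)) (PF.cons PF.nil PF.nil))) (PF.cons (PF.cons (PF.cons (PF.leaf (nat_lit 7292270) (nat_lit 2908098) (nat_lit 36806073) (nat_lit 13288386) [(nat_lit 0), (nat_lit 0), (nat_lit 2908098), (nat_lit 7053127)]) (PF.cons PF.nil PF.nil)) (PF.cons PF.nil PF.nil)) (PF.cons PF.nil PF.nil))) (PF.cons (PF.cons (PF.cons (PF.cons (PF.leaf (nat_lit 7914356) (nat_lit 6789312)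 (nat_lit 34098870) (nat_lit 12642003) [(nat_lit 0), (nat_lit 0), (nat_lit 0), (nat_lit 6789312)]) (PF.cons PF.nil PF.nil)) (PF.cons PF.nil PF.nil)) (PF.cons PF.nil PF.nil)) (PF.cons PF.nil (PF.cons PF.nil PF.nil))))))

def p13_8_2_0 : pfC (piC [(nat_lit 43428061), (nat_lit 27333682), (nat_lit 20249535), (nat_lit 13586793)] (nat_lit 6971554)) p13_8_2 (nat_lit 4) (nat_lit 0) (nat_lit 1) = true := by decide +kernel
def p13_8_2_1 : pfC (piC [(nat_lit 43428061), (nat_lit 27333682), (nat_lit 20249535), (nat_lit 13586793)] (nat_lit 6971554)) p13_8_2 (nat_lit 4) (nat_lit 1) (nat_lit 2) = true := by decide +kernel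
def p13_8_2_2 : pfC (piC [(nat_lit 43428061), (nat_lit 27333682), (nat_lit 20249535), (nat_lit 13586793)] (nat_lit 6971554)) p13_8_2 (nat_lit 4) (nat_lit 2) (nat_lit 3) = true := by decide +kernel
def p13_8_2_3 : pfC (piC [(nat_lit 43428061), (nat_lit 27333682), (nat_lit 20249535), (nat_lit 13586793)] (nat_lit 6971554)) p13_8_2 (nat_lit 4) (nat_lit 3) (nat_lit 4) = true := by decide +kernel
def p13_8_2_4 : pfC (piC [(nat_lit 43428061), (nat_lit 27333682), (nat_lit 20249535), (nat_lit 13586793)] (nat_lit 6971554)) p13_8_2 (nat_lit 4) (nat_lit 4) (nat_lit 5) = true := by decide +kernel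
def p13_8_2_5 : pfC (piC [(nat_lit 43428061), (nat_lit 27333682), (nat_lit 20249535), (nat_lit 13586793)] (nat_lit 6971554)) p13_8_2 (nat_lit 4) (nat_lit 5) (nat_lit 6) = true := by decide +kernel
def p13_8_2_6 : pfC (piC [(nat_lit 43428061), (nat_lit 27333682), (nat_lit 20249535), (nat_lit 13586793)] (nat_lit 6971554)) p13_8_2 (nat_lit 4) (nat_lit 6) (nat_lit 7) = true := by decide +kernel
def p13_8_2_7 : pfC (piC [(nat_lit 43428061), (nat_lit 27333682), (nat_lit 20249535), (nat_lit 13586793)] (nat_lit 6971554)) p13_8_2 (nat_lit 4) (nat_lit 7) (nat_lit 8) = true := by decide +kernel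
def p13_8_2_8 : pfC (piC [(nat_lit 43428061), (nat_lit 27333682), (nat_lit 20249535), (nat_lit 13586793)] (nat_lit 6971554)) p13_8_2 (nat_lit 4) (nat_lit 8) (nat_lit 9) = true := by decide +kernel
def p13_8_2_9 : pfC (piC [(nat_lit 43428061), (nat_lit 27333682), (nat_lit 20249535), (nat_lit 13586793)] (nat_lit 6971554)) p13_8_2 (nat_lit 4) (nat_lit 9) (nat_lit 10) = true := by decide +kernel
def p13_8_2_10 : pfC (piC [(nat_lit 43428061), (nat_lit 27333682), (nat_lit 20249535), (nat_lit 13586793)] (nat_lit 6971554)) p13_8_2 (nat_lit 4) (nat_lit 10) (nat_lit 11) = true := by decide +kernel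
def p13_8_2_11 : pfC (piC [(nat_lit 43428061), (nat_lit 27333682), (nat_lit 20249535), (nat_lit 13586793)] (nat_lit 6971554)) p13_8_2 (nat_lit 4) (nat_lit 11) (nat_lit 12) = true := by decide +kernel
def p13_8_2_12 : pfC (piC [(nat_lit 43428061), (nat_lit 27333682), (nat_lit 20249535), (nat_lit 13586793)] (nat_lit 6971554)) p13_8_2 (nat_lit 4) (nat_lit 12) (nat_lit 13) = true := by decide +kernel
def p13_8_2_13 : pfC (piC [(nat_lit 43428061), (nat_lit 27333682), (nat_lit 20249535), (nat_lit 13586793)] (nat_lit 6971554)) p13_8_2 (nat_lit 4) (nat_lit 13) (nat_lit 14) = true := by decide +kernel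
def p13_8_2_14 : pfC (piC [(nat_lit 43428061), (nat_lit 27333682), (nat_lit 20249535), (nat_lit 13586793)] (nat_lit 6971554)) p13_8_2 (nat_lit 4) (nat_lit 14) (nat_lit 15) = true := by decide +kernel
def p13_8_2_15 : pfC (piC [(nat_lit 43428061), (nat_lit 27333682), (nat_lit 20249535), (nat_lit 13586793)] (nat_lit 6971554)) p13_8_2 (nat_lit 4) (nat_lit 15) (nat_lit 16) = true := by decide +kernel
def p13_8_2_16 : pfC (piC [(nat_lit 43428061), (nat_lit 27333682), (nat_lit 20249535), (nat_lit 13586793)] (nat_lit 6971554)) p13_8_2 (nat_lit 4) (nat_lit 16) (nat_lit 17) = true := by decide +kernel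
def p13_8_2_17 : pfC (piC [(nat_lit 43428061), (nat_lit 27333682), (nat_lit 20249535), (nat_lit 13586793)] (nat_lit 6971554)) p13_8_2 (nat_lit 4) (nat_lit 17) (nat_lit 18) = true := by decide +kernel
def p13_8_2_18 : pfC (piC [(nat_lit 43428061), (nat_lit 27333682), (nat_lit 20249535), (nat_lit 13586793)] (nat_lit 6971554)) p13_8_2 (nat_lit 4) (nat_lit 18) (nat_lit 19) = true := by decide +kernel
def p13_8_2_19 : pfC (piC [(nat_lit 43428061), (nat_lit 27333682), (nat_lit 20249535), (nat_lit 13586793)] (nat_lit 6971554)) p13_8_2 (nat_lit 4) (nat_lit 19) (nat_lit 20) = true := by decide +kernel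
def p13_8_2_20 : pfC (piC [(nat_lit 43428061), (nat_lit 27333682), (nat_lit 20249535), (nat_lit 13586793)] (nat_lit 6971554)) p13_8_2 (nat_lit 4) (nat_lit 20) (nat_lit 21) = true := by decide +kernel
def p13_8_2_21 : pfC (piC [(nat_lit 43428061), (nat_lit 27333682), (nat_lit 20249535), (nat_lit 13586793)] (nat_lit 6971554)) p13_8_2 (nat_lit 4) (nat_lit 21) (nat_lit 22) = true := by decide +kernel
def p13_8_2_22 : pfC (piC [(nat_lit 43428061), (nat_lit 27333682), (nat_lit 20249535), (nat_lit 13586793)] (nat_lit 6971554)) p13_8_2 (nat_lit 4) (nat_lit 22) (nat_lit 23) = true := by decide +kernel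
def p13_8_2_23 : pfC (piC [(nat_lit 43428061), (nat_lit 27333682), (nat_lit 20249535), (nat_lit 13586793)] (nat_lit 6971554)) p13_8_2 (nat_lit 4) (nat_lit 23) (nat_lit 24) = true := by decide +kernel
def p13_8_2_24 : pfC (piC [(nat_lit 43428061), (nat_lit 27333682), (nat_lit 20249535), (nat_lit 13586793)] (nat_lit 6971554)) p13_8_2 (nat_lit 4) (nat_lit 24) (nat_lit 25) = true := by decide +kernel
def p13_8_2_25 : pfC (piC [(nat_lit 43428061), (nat_lit 27333682), (nat_lit 20249535), (nat_lit 13586793)] (nat_lit 6971554)) p13_8_2 (nat_lit 4) (nat_lit 25) (nat_lit 26) = true := by decide +kernel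
def p13_8_2_26 : pfC (piC [(nat_lit 43428061), (nat_lit 27333682), (nat_lit 20249535), (nat_lit 13586793)] (nat_lit 6971554)) p13_8_2 (nat_lit 4) (nat_lit 26) (nat_lit 27) = true := by decide +kernel
def p13_8_2_27 : pfC (piC [(nat_lit 43428061), (nat_lit 27333682), (nat_lit 20249535), (nat_lit 13586793)] (nat_lit 6971554)) p13_8_2 (nat_lit 4) (nat_lit 27) (nat_lit 28) = true := by decide +kernel
def p13_8_2_28 : pfC (piC [(nat_lit 43428061), (nat_lit 27333682), (nat_lit 20249535), (nat_lit 13586793)] (nat_lit 6971554)) p13_8_2 (nat_lit 4) (nat_lit 28) (nat_lit 29) = true := by decide +kernel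
def p13_8_2_29 : pfC (piC [(nat_lit 43428061), (nat_lit 27333682), (nat_lit 20249535), (nat_lit 13586793)] (nat_lit 6971554)) p13_8_2 (nat_lit 4) (nat_lit 29) (nat_lit 30) = true := by decide +kernel
def p13_8_2_30 : pfC (piC [(nat_lit 43428061), (nat_lit 27333682), (nat_lit 20249535), (nat_lit 13586793)] (nat_lit 6971554)) p13_8_2 (nat_lit 4) (nat_lit 30) (nat_lit 31) = true := by decide +kernel
def p13_8_2_31 : pfC (piC [(nat_lit 43428061), (nat_lit 27333682), (nat_lit 20249535), (nat_lit 13586793)] (nat_lit 6971554)) p13_8_2 (nat_lit 4) (nat_lit 31) (nat_lit 32) = true := by decide +kernel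
def p13_8_2_32 : pfC (piC [(nat_lit 43428061), (nat_lit 27333682), (nat_lit 20249535), (nat_lit 13586793)] (nat_lit 6971554)) p13_8_2 (nat_lit 4) (nat_lit 32) (nat_lit 33) = true := by decide +kernel
def p13_8_2_33 : pfC (piC [(nat_lit 43428061), (nat_lit 27333682), (nat_lit 20249535), (nat_lit 13586793)] (nat_lit 6971554)) p13_8_2 (nat_lit 4) (nat_lit 33) (nat_lit 34) = true := by decide +kernel
def p13_8_2_34 : pfC (piC [(nat_lit 43428061), (nat_lit 27333682), (nat_lit 20249535), (nat_lit 13586793)] (nat_lit 6971554)) p13_8_2 (nat_lit 4) (nat_lit 34) (nat_lit 35) = true := by decide +kernel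
def p13_8_2_35 : pfC (piC [(nat_lit 43428061), (nat_lit 27333682), (nat_lit 20249535), (nat_lit 13586793)] (nat_lit 6971554)) p13_8_2 (nat_lit 4) (nat_lit 35) (nat_lit 36) = true := by decide +kernel
def p13_8_2_36 : pfC (piC [(nat_lit 43428061), (nat_lit 27333682), (nat_lit 20249535), (nat_lit 13586793)] (nat_lit 6971554)) p13_8_2 (nat_lit 4) (nat_lit 36) (nat_lit 37) = true := by decide +kernel
def p13_8_2_37 : pfC (piC [(nat_lit 43428061), (nat_lit 27333682), (nat_lit 20249535), (nat_lit 13586793)] (nat_lit 6971554)) p13_8_2 (nat_lit 4) (nat_lit 37) (nat_lit 38) = true := by decide +kernel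
def p13_8_2_38 : pfC (piC [(nat_lit 43428061), (nat_lit 27333682), (nat_lit 20249535), (nat_lit 13586793)] (nat_lit 6971554)) p13_8_2 (nat_lit 4) (nat_lit 38) (nat_lit 39) = true := by decide +kernel
def p13_8_2_39 : pfC (piC [(nat_lit 43428061), (nat_lit 27333682), (nat_lit 20249535), (nat_lit 13586793)] (nat_lit 6971554)) p13_8_2 (nat_lit 4) (nat_lit 39) (nat_lit 40) = true := by decide +kernel
def p13_8_2_40 : pfC (piC [(nat_lit 43428061), (nat_lit 27333682), (nat_lit 20249535), (nat_lit 13586793)] (nat_lit 6971554)) p13_8_2 (nat_lit 4) (nat_lit 40) (nat_lit 41) = true := by decide +kernel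
def p13_8_2_41 : pfC (piC [(nat_lit 43428061), (nat_lit 27333682), (nat_lit 20249535), (nat_lit 13586793)] (nat_lit 6971554)) p13_8_2 (nat_lit 4) (nat_lit 41) (nat_lit 42) = true := by decide +kernel
def p13_8_2_42 : pfC (piC [(nat_lit 43428061), (nat_lit 27333682), (nat_lit 20249535), (nat_lit 13586793)] (nat_lit 6971554)) p13_8_2 (nat_lit 4) (nat_lit 42) (nat_lit 43) = true := by decide +kernel
def p13_8_2_43 : pfC (piC [(nat_lit 43428061), (nat_lit 27333682), (nat_lit 20249535), (nat_lit 13586793)] (nat_lit 6971554)) p13_8_2 (nat_lit 4) (nat_lit 43) (nat_lit 44) = true := by decide +kernel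
def p13_8_2_44 : pfC (piC [(nat_lit 43428061), (nat_lit 27333682), (nat_lit 20249535), (nat_lit 13586793)] (nat_lit 6971554)) p13_8_2 (nat_lit 4) (nat_lit 44) (nat_lit 45) = true := by decide +kernel
def p13_8_2_45 : pfC (piC [(nat_lit 43428061), (nat_lit 27333682), (nat_lit 20249535), (nat_lit 13586793)] (nat_lit 6971554)) p13_8_2 (nat_lit 4) (nat_lit 45) (nat_lit 46) = true := by decide +kernel
def p13_8_2_46 : pfC (piC [(nat_lit 43428061), (nat_lit 27333682), (nat_lit 20249535), (nat_lit 13586793)] (nat_lit 6971554)) p13_8_2 (nat_lit 4) (nat_lit 46) (nat_lit 47) = true := by decide +kernel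
def p13_8_2_47 : pfC (piC [(nat_lit 43428061), (nat_lit 27333682), (nat_lit 20249535), (nat_lit 13586793)] (nat_lit 6971554)) p13_8_2 (nat_lit 4) (nat_lit 47) (nat_lit 48) = true := by decide +kernel
def p13_8_2_48 : pfC (piC [(nat_lit 43428061), (nat_lit 27333682), (nat_lit 20249535), (nat_lit 13586793)] (nat_lit 6971554)) p13_8_2 (nat_lit 4) (nat_lit 48) (nat_lit 49) = true := by decide +kernel
def p13_8_2_49 : pfC (piC [(nat_lit 43428061), (nat_lit 27333682), (nat_lit 20249535), (nat_lit 13586793)] (nat_lit 6971554)) p13_8_2 (nat_lit 4) (nat_lit 49) (nat_lit 50) = true := by decide +kernel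
def p13_8_2_50 : pfC (piC [(nat_lit 43428061), (nat_lit 27333682), (nat_lit 20249535), (nat_lit 13586793)] (nat_lit 6971554)) p13_8_2 (nat_lit 4) (nat_lit 50) (nat_lit 51) = true := by decide +kernel
def p13_8_2_51 : pfC (piC [(nat_lit 43428061), (nat_lit 27333682), (nat_lit 20249535), (nat_lit 13586793)] (nat_lit 6971554)) p13_8_2 (nat_lit 4) (nat_lit 51) (nat_lit 52) = true := by decide +kernel
def p13_8_2_52 : pfC (piC [(nat_lit 43428061), (nat_lit 27333682), (nat_lit 20249535), (nat_lit 13586793)] (nat_lit 6971554)) p13_8_2 (nat_lit 4) (nat_lit 52) (nat_lit 53) = true := by decide +kernel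
def p13_8_2_53 : pfC (piC [(nat_lit 43428061), (nat_lit 27333682), (nat_lit 20249535), (nat_lit 13586793)] (nat_lit 6971554)) p13_8_2 (nat_lit 4) (nat_lit 53) (nat_lit 54) = true := by decide +kernel
def p13_8_2_54 : pfC (piC [(nat_lit 43428061), (nat_lit 27333682), (nat_lit 20249535), (nat_lit 13586793)] (nat_lit 6971554)) p13_8_2 (nat_lit 4) (nat_lit 54) (nat_lit 55) = true := by decide +kernel
def p13_8_2_55 : pfC (piC [(nat_lit 43428061), (nat_lit 27333682), (nat_lit 20249535), (nat_lit 13586793)] (nat_lit 6971554)) p13_8_2 (nat_lit 4) (nat_lit 55) (nat_lit 56) = true := by decide +kernel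
def p13_8_2_56 : pfC (piC [(nat_lit 43428061), (nat_lit 27333682), (nat_lit 20249535), (nat_lit 13586793)] (nat_lit 6971554)) p13_8_2 (nat_lit 4) (nat_lit 56) (nat_lit 57) = true := by decide +kernel
def p13_8_2_57 : pfC (piC [(nat_lit 43428061), (nat_lit 27333682), (nat_lit 20249535), (nat_lit 13586793)] (nat_lit 6971554)) p13_8_2 (nat_lit 4) (nat_lit 57) (nat_lit 58) = true := by decide +kernel
def p13_8_2_58 : pfC (piC [(nat_lit 43428061), (nat_lit 27333682), (nat_lit 20249535), (nat_lit 13586793)] (nat_lit 6971554)) p13_8_2 (nat_lit 4) (nat_lit 58) (nat_lit 59) = true := by decide +kernel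
def p13_8_2_59 : pfC (piC [(nat_lit 43428061), (nat_lit 27333682), (nat_lit 20249535), (nat_lit 13586793)] (nat_lit 6971554)) p13_8_2 (nat_lit 4) (nat_lit 59) (nat_lit 60) = true := by decide +kernel
theorem p13_8_2_T : PfS (PiF n13_8.reverse (nat_lit 6971554)) p13_8_2 (nat_lit 4) [] 0 :=
  pftab_of (los := [(nat_lit 43428061), (nat_lit 27333682), (nat_lit 20249535), (nat_lit 13586793)]) (by decide +kernel) (hi := (nat_lit 60)) (PfP.trans (PfP.trans (PfP.trans (PfP.trans (PfP.trans (PfP.trans (PfP.trans (PfP.trans (PfP.trans (PfP.trans (PfP.trans (PfP.trans (PfP.trans (PfP.trans (PfP.trans (PfP.trans (PfP.trans (PfP.trans (PfP.trans (PfP.trans (PfP.trans (PfP.trans (PfP.trans (PfP.trans (PfP.trans (PfP.trans (PfP.trans (PfP.trans (PfP.trans (PfP.trans (PfP.trans (PfP.trans (PfP.trans (PfP.trans (PfP.trans (PfP.trans (PfP.trans (PfP.trans (PfP.trans (PfP.trans (PfP.trans (PfP.trans (PfP.trans (PfP.trans (PfP.trans (PfP.trans (PfP.trans (PfP.trans (PfP.trans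 (PfP.trans (PfP.trans (PfP.trans (PfP.trans (PfP.trans (PfP.trans (PfP.trans (PfP.trans (PfP.trans (PfP.trans (pfC_sound p13_8_2_0) (pfC_sound p13_8_2_1)) (pfC_sound p13_8_2_2)) (pfC_sound p13_8_2_3)) (pfC_sound p13_8_2_4)) (pfC_sound p13_8_2_5)) (pfC_sound p13_8_2_6)) (pfC_sound p13_8_2_7)) (pfC_sound p13_8_2_8)) (pfC_sound p13_8_2_9)) (pfC_sound p13_8_2_10)) (pfC_sound p13_8_2_11)) (pfC_sound p13_8_2_12)) (pfC_sound p13_8_2_13)) (pfC_sound p13_8_2_14)) (pfC_sound p13_8_2_15)) (pfC_sound p13_8_2_16)) (pfC_sound p13_8_2_17)) (pfC_sound p13_8_2_18)) (pfC_sound p13_8_2_19)) (pfC_sound p13_8_2_20)) (pfC_sound p13_8_2_21)) (pfC_sound p13_8_2_22))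
 (pfC_sound p13_8_2_23)) (pfC_sound p13_8_2_24)) (pfC_sound p13_8_2_25)) (pfC_sound p13_8_2_26)) (pfC_sound p13_8_2_27)) (pfC_sound p13_8_2_28)) (pfC_sound p13_8_2_29)) (pfC_sound p13_8_2_30)) (pfC_sound p13_8_2_31)) (pfC_sound p13_8_2_32)) (pfC_sound p13_8_2_33)) (pfC_sound p13_8_2_34)) (pfC_sound p13_8_2_35)) (pfC_sound p13_8_2_36)) (pfC_sound p13_8_2_37)) (pfC_sound p13_8_2_38)) (pfC_sound p13_8_2_39)) (pfC_sound p13_8_2_40)) (pfC_sound p13_8_2_41)) (pfC_sound p13_8_2_42)) (pfC_sound p13_8_2_43)) (pfC_sound p13_8_2_44)) (pfC_sound p13_8_2_45)) (pfC_sound p13_8_2_46)) (pfC_sound p13_8_2_47)) (pfC_sound p13_8_2_48)) (pfC_sound p13_8_2_49)) (pfC_sound p13_8_2_50)) (pfC_sound p13_8_2_51)) (pfC_sound p13_8_2_52)) (pfC_sound p13_8_2_53)) (pfC_sound p13_8_2_54)) (pfC_sound p13_8_2_55)) (pfC_sound p13_8_2_56)) (pfC_sound p13_8_2_57)) (pfC_sound p13_8_2_58)) (pfC_sound p13_8_2_59)) (by decide +kernel)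

def z13_8_2 : zOK yB13_8 (nat_lit 2) (nat_lit 600) (nat_lit 750) (nat_lit 6971554) (nat_lit 4975805) = true := by decide +kernel
def g13_8_2 : gOK yB13_8.x P13_8 (nat_lit 1428) (q13_8 :: r13_8) (nat_lit 2) (nat_lit 600) (nat_lit 3) (nat_lit 750) (nat_lit 12712500) (nat_lit 12712500) (nat_lit 12712500) (nat_lit 12712500) [(nat_lit 800), (nat_lit 1600)] = true := by decide +kernel
def v13_8_2 : ivC P13_8 s13_8 w13_8 n13_8 (nat_lit 4) (nat_lit 4900) (nat_lit 2) (nat_lit 600) f136_1_600 f144_1_600 (nat_lit 3) (nat_lit 750) f136_1_750 f144_1_750 (nat_lit 6971554) (nat_lit 4975805) p13_8_2 = true := by decide +kernel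
def p13_8_3 : PF := (PF.cons (PF.cons (PF.cons (PF.cons (PF.leaf (nat_lit 3068151) (nat_lit 20353776) (nat_lit 46755036) (nat_lit 20353776) [(nat_lit 0), (nat_lit 0), (nat_lit 0), (nat_lit 0)]) (PF.cons (PF.leaf (nat_lit 3170635) (nat_lit 171849) (nat_lit 46612952) (nat_lit 20324010) [(nat_lit 171849), (nat_lit 0), (nat_lit 0), (nat_lit 0)]) (PF.cons (PF.leaf (nat_lit 3295587) (nat_lit 186881) (nat_lit 46446311) (nat_lit 20288737) [(nat_lit 186881), (nat_lit 0), (nat_lit 0), (nat_lit 0)]) (PF.cons (PF.leaf (nat_lit 3435893) (nat_lit 200245) (nat_lit 46259364) (nat_lit 20248712) [(nat_lit 200245), (nat_lit 0), (nat_lit 0), (nat_lit 0)]) (PF.cons (PF.leaf (nat_lit 3589289) (nat_lit 212325) (nat_lit 46055078) (nat_lit 20204433) [(nat_lit 212325), (nat_lit 0), (nat_lit 0), (nat_lit 0)]) (PF.cons (PF.leaf (nat_lit 3754597) (nat_lit 223368) (nat_lit 45835709) (nat_lit 20156262) [(nat_lit 223368), (nat_lit 0), (nat_lit 0), (nat_lit 0)]) (PF.cons (PF.leaf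 (nat_lit 3930220) (nat_lit 233543) (nat_lit 45603068) (nat_lit 20104483) [(nat_lit 233543), (nat_lit 0), (nat_lit 0), (nat_lit 0)]) (PF.cons (PF.leaf (nat_lit 4115257) (nat_lit 242974) (nat_lit 45358667) (nat_lit 20049323) [(nat_lit 242974), (nat_lit 0),
 (nat_lit 0), (nat_lit 0)]) (PF.cons PF.nil PF.nil))))))))) (PF.cons (PF.cons (PF.leaf (nat_lit 3499695) (nat_lit 974281) (nat_lit 45954135) (nat_lit 20180395) [(nat_lit 0), (nat_lit 974281), (nat_lit 0), (nat_lit 0)]) (PF.cons (PF.leaf (nat_lit 3636586) (nat_lit 210574) (nat_lit 45764922) (nat_lit 20138591) [(nat_lit 210574), (nat_lit 994724), (nat_lit 0), (nat_lit 0)]) (PF.cons (PF.leaf (nat_lit 3790030) (nat_lit 222071) (nat_lit 45557420) (nat_lit 20092207) [(nat_lit 222071), (nat_lit 1015041), (nat_lit 0), (nat_lit 0)]) (PF.cons (PF.leaf (nat_lit 3955450) (nat_lit 232531) (nat_lit 45334558) (nat_lit 20041769) [(nat_lit 232531), (nat_lit 1034890), (nat_lit 0), (nat_lit 0)]) (PF.cons (PF.leaf (nat_lit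 4131480) (nat_lit 242145) (nat_lit 45098495) (nat_lit 19987649) [(nat_lit 242145), (nat_lit 1054086), (nat_lit 0), (nat_lit 0)]) (PF.cons (PF.leaf (nat_lit 4316933) (nat_lit 251043) (nat_lit 44850929) (nat_lit 19930132) [(nat_lit 251043), (nat_lit 1072531), (nat_lit 0), (nat_lit 0)]) (PF.cons PF.nil PF.nil))))))) (PF.cons (PF.cons (PF.leaf (nat_lit 3995590) (nat_lit 1045453) (nat_lit 45044731) (nat_lit 19973174) [(nat_lit 0), (nat_lit 1045453), (nat_lit 0), (nat_lit 0)]) (PF.cons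
 (PF.leaf (nat_lit 4158211) (nat_lit 240402) (nat_lit 44821380) (nat_lit 19921134) [(nat_lit 240402), (nat_lit 1062947), (nat_lit 0), (nat_lit 0)]) (PF.cons (PF.leaf (nat_lit 4333610) (nat_lit 249629) (nat_lit 44584274) (nat_lit 19865208) [(nat_lit 249629), (nat_lit 1080036), (nat_lit 0), (nat_lit 0)]) (PF.cons (PF.leaf (nat_lit 4518680) (nat_lit 258128) (nat_lit 44335504) (nat_lit 19805783) [(nat_lit 258128), (nat_lit 1096569), (nat_lit 0), (nat_lit 0)]) (PF.cons (PF.leaf (nat_lit 4712291) (nat_lit 266009) (nat_lit 44076689) (nat_lit 19743154) [(nat_lit 266009), (nat_lit 1112466), (nat_lit 0), (nat_lit 0)]) PF.nil))))) (PF.cons (PF.cons (PF.leaf (nat_lit 4538610) (nat_lit 1103326) (nat_lit 44061493) (nat_lit 19737340) [(nat_lit 0), (nat_lit 1103326), (nat_lit 0), (nat_lit 0)]) (PF.cons (PF.leaf (nat_lit 4720982) (nat_lit 264320) (nat_lit 43813532) (nat_lit 19676506) [(nat_lit 264320), (nat_lit 1118151), (nat_lit 0), (nat_lit 0)]) (PF.cons (PF.leaf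 (nat_lit 4913550) (nat_lit 271901) (nat_lit 43555217) (nat_lit 19612350) [(nat_lit 271901), (nat_lit 1132480), (nat_lit 0), (nat_lit 0)]) (PF.cons PF.nil PF.nil)))) (PF.cons (PF.cons (PF.leaf (nat_lit 5116193) (nat_lit 1150492) (nat_lit
 43029613) (nat_lit 19477228) [(nat_lit 0), (nat_lit 1150492), (nat_lit 0), (nat_lit 0)]) (PF.cons (PF.leaf (nat_lit 5313772) (nat_lit 283847) (nat_lit 42764341) (nat_lit 19408871) [(nat_lit 283847), (nat_lit 1162938), (nat_lit 0), (nat_lit 0)]) PF.nil)) (PF.cons PF.nil PF.nil)))))) (PF.cons (PF.cons (PF.cons (PF.leaf (nat_lit 3990569) (nat_lit 2709274) (nat_lit 44553383) (nat_lit 19846155) [(nat_lit 0), (nat_lit 0), (nat_lit 2709274), (nat_lit 0)]) (PF.cons (PF.leaf (nat_lit 4135218) (nat_lit 227179) (nat_lit 44356016) (nat_lit 19799060) [(nat_lit 227179), (nat_lit 0), (nat_lit 2726556), (nat_lit 0)]) (PF.cons (PF.leaf (nat_lit 4295725) (nat_lit 238129) (nat_lit 44141086) (nat_lit 19747231) [(nat_lit 238129), (nat_lit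 0), (nat_lit 2744234), (nat_lit 0)]) (PF.cons (PF.leaf (nat_lit 4467664) (nat_lit 247950) (nat_lit 43911742) (nat_lit 19691308) [(nat_lit 247950), (nat_lit 0), (nat_lit 2761910), (nat_lit 0)]) (PF.cons (PF.leaf (nat_lit 4649558) (nat_lit 256874) (nat_lit 43670262) (nat_lit 19631742) [(nat_lit 256874), (nat_lit 0), (nat_lit 2779310), (nat_lit 0)]) (PF.cons (PF.leaf (nat_lit 4840180) (nat_lit 265057) (nat_lit 43418405) (nat_lit 19568875) [(nat_lit 265057), (nat_lit 0),
 (nat_lit 2796245), (nat_lit 0)]) (PF.cons PF.nil PF.nil))))))) (PF.cons (PF.cons (PF.leaf (nat_lit 4500361) (nat_lit 1092455) (nat_lit 43623577) (nat_lit 19618097) [(nat_lit 0), (nat_lit 1092455), (nat_lit 2774681), (nat_lit 0)]) (PF.cons (PF.leaf (nat_lit 4668677) (nat_lit 254195) (nat_lit 43395963) (nat_lit 19561170) [(nat_lit 254195), (nat_lit 1107333), (nat_lit 2790149), (nat_lit 0)]) (PF.cons (PF.leaf (nat_lit 4849021) (nat_lit 262834) (nat_lit 43155513) (nat_lit 19500369) [(nat_lit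 262834), (nat_lit 1121802), (nat_lit 2805457), (nat_lit 0)]) (PF.cons (PF.leaf (nat_lit 5038438) (nat_lit 270711) (nat_lit 42904385) (nat_lit 19436148) [(nat_lit 270711), (nat_lit 1135748), (nat_lit 2820395), (nat_lit 0)]) (PF.cons PF.nil PF.nil))))) (PF.cons (PF.cons (PF.leaf (nat_lit 5050883) (nat_lit 1140234) (nat_lit 42635389) (nat_lit 19364475) [(nat_lit 0), (nat_lit 1140234), (nat_lit 2828480), (nat_lit 0)]) (PF.cons (PF.leaf (nat_lit 5236944) (nat_lit 275614) (nat_lit 42386720) (nat_lit 19299383) [(nat_lit 275614), (nat_lit 1152768), (nat_lit 2841557), (nat_lit 0)]) (PF.cons (PF.leaf (nat_lit 5432575) (nat_lit 282627) (nat_lit 42128605) (nat_lit 19231076) [(nat_lit 282627), (nat_lit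
 1164834), (nat_lit 2854207), (nat_lit 0)]) (PF.cons PF.nil PF.nil)))) (PF.cons (PF.cons (PF.leaf (nat_lit 5630558) (nat_lit 1178950) (nat_lit 41611168) (nat_lit 19089812) [(nat_lit 0), (nat_lit 1178950), (nat_lit 2870981), (nat_lit 0)]) (PF.cons PF.nil PF.nil)) (PF.cons PF.nil PF.nil))))) (PF.cons (PF.cons (PF.cons (PF.leaf (nat_lit 4999282) (nat_lit 2820980) (nat_lit 42221693) (nat_lit 19245159) [(nat_lit 0), (nat_lit 0), (nat_lit 2820980), (nat_lit 0)]) (PF.cons (PF.leaf (nat_lit 5171626) (nat_lit 265363) (nat_lit 41993014) (nat_lit 19184343) [(nat_lit 265363), (nat_lit 0), (nat_lit 2833045), (nat_lit 0)]) (PF.cons (PF.leaf (nat_lit 5355469) (nat_lit 273477) (nat_lit 41752361) (nat_lit 19119710) [(nat_lit 273477), (nat_lit 0), (nat_lit 2844892), (nat_lit 0)]) (PF.cons (PF.leaf (nat_lit 5547843) (nat_lit 280804) (nat_lit 41501918) (nat_lit 19051763) [(nat_lit 280804), (nat_lit 0), (nat_lit 2856359), (nat_lit 0)]) (PF.cons PF.nil PF.nil))))) (PF.cons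 (PF.cons (PF.leaf (nat_lit 5553419) (nat_lit 1168149) (nat_lit 41240148) (nat_lit 18977986) [(nat_lit 0), (nat_lit 1168149), (nat_lit 2861264), (nat_lit 0)]) (PF.cons (PF.leaf (nat_lit 5741919) (nat_lit 284646) (nat_lit 40993370)
 (nat_lit 18909643) [(nat_lit 284646), (nat_lit 1178774), (nat_lit 2871189), (nat_lit 0)]) (PF.cons (PF.leaf (nat_lit 5939415) (nat_lit 291155) (nat_lit 40737956) (nat_lit 18838212) [(nat_lit 291155), (nat_lit 1188950), (nat_lit 2880691), (nat_lit 0)]) (PF.cons PF.nil PF.nil)))) (PF.cons (PF.cons (PF.leaf (nat_lit 6132243) (nat_lit 1199891) (nat_lit 40232460) (nat_lit 18692773) [(nat_lit 0), (nat_lit 1199891), (nat_lit 2891897), (nat_lit 0)]) (PF.cons PF.nil PF.nil)) PF.nil))) (PF.cons (PF.cons (PF.cons (PF.leaf (nat_lit 6044794) (nat_lit 2880583) (nat_lit 39884208) (nat_lit 18582854) [(nat_lit 0), (nat_lit 0), (nat_lit 2880583), (nat_lit 0)]) (PF.cons (PF.leaf (nat_lit 6234661) (nat_lit 291804) (nat_lit 39641227) (nat_lit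 18512148) [(nat_lit 291804), (nat_lit 0), (nat_lit 2887877), (nat_lit 0)]) (PF.cons PF.nil PF.nil))) (PF.cons (PF.cons (PF.leaf (nat_lit 6620390) (nat_lit 1214691) (nat_lit 38899343) (nat_lit 18290545) [(nat_lit 0), (nat_lit 1214691), (nat_lit 2901411), (nat_lit 0)]) PF.nil) PF.nil)) (PF.cons PF.nil (PF.cons PF.nil PF.nil)))))) (PF.cons (PF.cons (PF.cons (PF.cons (PF.leaf (nat_lit 4789704) (nat_lit 7105862) (nat_lit 41121020) (nat_lit 18881929) [(nat_lit 0),
 (nat_lit 0), (nat_lit 0), (nat_lit 7105862)]) (PF.cons (PF.leaf (nat_lit 4935381) (nat_lit 235665) (nat_lit 40935989) (nat_lit 18831396) [(nat_lit 235665), (nat_lit 0), (nat_lit 0), (nat_lit 7105760)]) (PF.cons (PF.leaf (nat_lit 5096213) (nat_lit 246256) (nat_lit 40735131) (nat_lit 18776104) [(nat_lit 246256), (nat_lit 0), (nat_lit 0), (nat_lit 7105063)]) (PF.cons (PF.leaf (nat_lit 5267835) (nat_lit 255621) (nat_lit 40521477) (nat_lit 18716796) [(nat_lit 255621), (nat_lit 0), (nat_lit 0), (nat_lit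 7103675)]) (PF.cons (PF.leaf (nat_lit 5448704) (nat_lit 264018) (nat_lit 40297214) (nat_lit 18654000) [(nat_lit 264018), (nat_lit 0), (nat_lit 0), (nat_lit 7101525)]) (PF.cons (PF.leaf (nat_lit 5637563) (nat_lit 271624) (nat_lit 40064015) (nat_lit 18588116) [(nat_lit 271624), (nat_lit 0), (nat_lit 0), (nat_lit 7098558)]) (PF.cons PF.nil PF.nil))))))) (PF.cons (PF.cons (PF.leaf (nat_lit 5291779) (nat_lit 1113025) (nat_lit 40257692) (nat_lit 18641004) [(nat_lit 0), (nat_lit 1113025), (nat_lit 0), (nat_lit 7097090)]) (PF.cons (PF.leaf (nat_lit 5458980) (nat_lit 260551) (nat_lit 40046901) (nat_lit 18581377) [(nat_lit 260551), (nat_lit 1125612), (nat_lit 0), (nat_lit 7094370)]) (PF.cons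
 (PF.leaf (nat_lit 5637550) (nat_lit 268690) (nat_lit 39824813) (nat_lit 18518034) [(nat_lit 268690), (nat_lit 1137716), (nat_lit 0), (nat_lit 7090866)]) (PF.cons (PF.leaf (nat_lit 5824512) (nat_lit 276020) (nat_lit 39593468) (nat_lit 18451485) [(nat_lit 276020), (nat_lit 1149258), (nat_lit 0), (nat_lit 7086537)]) (PF.cons PF.nil PF.nil))))) (PF.cons (PF.cons (PF.leaf (nat_lit 5828420) (nat_lit 1151459) (nat_lit 39349575) (nat_lit 18378839) [(nat_lit 0), (nat_lit 1151459), (nat_lit 0), (nat_lit 7077478)]) (PF.cons (PF.leaf (nat_lit 6011489) (nat_lit 279746) (nat_lit 39121515) (nat_lit 18312079) [(nat_lit 279746), (nat_lit 1161779), (nat_lit 0), (nat_lit 7071912)]) (PF.cons (PF.leaf (nat_lit 6203328) (nat_lit 286213) (nat_lit 38885315) (nat_lit 18242358) [(nat_lit 286213), (nat_lit 1171611), (nat_lit 0), (nat_lit 7065489)]) (PF.cons PF.nil PF.nil)))) (PF.cons (PF.cons (PF.leaf (nat_lit 6388952) (nat_lit 1181708) (nat_lit 38416142) (nat_lit 18100290)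 [(nat_lit 0), (nat_lit 1181708), (nat_lit 0), (nat_lit 7047253)]) (PF.cons PF.nil PF.nil)) (PF.cons PF.nil PF.nil))))) (PF.cons (PF.cons (PF.cons (PF.leaf (nat_lit 5762817) (nat_lit 2810312) (nat_lit 38984949) (nat_lit 18262639)
 [(nat_lit 0), (nat_lit 0), (nat_lit 2810312), (nat_lit 7050911)]) (PF.cons (PF.leaf (nat_lit 5932668) (nat_lit 269062) (nat_lit 38775337) (nat_lit 18200591) [(nat_lit 269062), (nat_lit 0), (nat_lit 2818513), (nat_lit 7045307)]) (PF.cons (PF.leaf (nat_lit 6113391) (nat_lit 276699) (nat_lit 38555202) (nat_lit 18134931) [(nat_lit 276699), (nat_lit 0), (nat_lit 2826425), (nat_lit 7038854)]) (PF.cons (PF.leaf (nat_lit 6302019) (nat_lit 283518) (nat_lit 38326568) (nat_lit 18066202) [(nat_lit 283518), (nat_lit 0), (nat_lit 2833935), (nat_lit 7031549)]) (PF.cons PF.nil PF.nil))))) (PF.cons (PF.cons (PF.leaf (nat_lit 6299848) (nat_lit 1169703) (nat_lit 38090932) (nat_lit 17993001) [(nat_lit 0), (nat_lit 1169703), (nat_lit 2835289),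 (nat_lit 7019886)]) (PF.cons (PF.leaf (nat_lit 6484163) (nat_lit 286370) (nat_lit 37866392) (nat_lit 17924434) [(nat_lit 286370), (nat_lit 1178439), (nat_lit 2841594), (nat_lit 7011582)]) (PF.cons PF.nil (PF.cons PF.nil PF.nil)))) (PF.cons (PF.cons (PF.leaf (nat_lit 6857268) (nat_lit 1194341) (nat_lit 37178827) (nat_lit 17709513) [(nat_lit 0), (nat_lit 1194341), (nat_lit 2852349), (nat_lit 6979438)]) (PF.cons PF.nil PF.nil)) PF.nil))) (PF.cons (PF.cons (PF.cons
 (PF.leaf (nat_lit 6759885) (nat_lit 2839053) (nat_lit 36874409) (nat_lit 17605453) [(nat_lit 0), (nat_lit 0), (nat_lit 2839053), (nat_lit 6950843)]) (PF.cons (PF.leaf (nat_lit 6944718) (nat_lit 291521) (nat_lit 36654589) (nat_lit 17535736) [(nat_lit 291521), (nat_lit 0), (nat_lit 2843355), (nat_lit 6940253)]) (PF.cons PF.nil PF.nil))) (PF.cons (PF.cons (PF.leaf (nat_lit 7312555) (nat_lit 1202379) (nat_lit 35987327) (nat_lit 17319490) [(nat_lit 0), (nat_lit 1202379), (nat_lit 2848797), (nat_lit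 6902020)]) PF.nil) PF.nil)) (PF.cons PF.nil (PF.cons PF.nil PF.nil))))) (PF.cons (PF.cons (PF.cons (PF.cons (PF.leaf (nat_lit 6460690) (nat_lit 6840370) (nat_lit 36112149) (nat_lit 17315921) [(nat_lit 0), (nat_lit 0), (nat_lit 0), (nat_lit 6840370)]) (PF.cons (PF.leaf (nat_lit 6627073) (nat_lit 269624) (nat_lit 35921462) (nat_lit 17254750) [(nat_lit 269624), (nat_lit 0), (nat_lit 0), (nat_lit 6831487)]) (PF.cons (PF.leaf (nat_lit 6803784) (nat_lit 276830) (nat_lit 35721492) (nat_lit 17190208) [(nat_lit 276830), (nat_lit 0), (nat_lit 0), (nat_lit 6821724)]) (PF.cons (PF.leaf (nat_lit 6987863) (nat_lit 283205) (nat_lit 35514095) (nat_lit 17122847) [(nat_lit 283205), (nat_lit 0), (nat_lit 0),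
 (nat_lit 6811127)]) (PF.cons PF.nil PF.nil))))) (PF.cons (PF.cons (PF.leaf (nat_lit 6979522) (nat_lit 1160124) (nat_lit 35302985) (nat_lit 17052231) [(nat_lit 0), (nat_lit 1160124), (nat_lit 0), (nat_lit 6796735)]) (PF.cons (PF.leaf (nat_lit 7159028) (nat_lit 285307) (nat_lit 35099748) (nat_lit 16985386) [(nat_lit 285307), (nat_lit 1167410), (nat_lit 0), (nat_lit 6785479)]) (PF.cons PF.nil (PF.cons PF.nil PF.nil)))) (PF.cons (PF.cons (PF.leaf (nat_lit 7515575) (nat_lit 1179464) (nat_lit 34480868) (nat_lit 16777773) [(nat_lit 0), (nat_lit 1179464), (nat_lit 0), (nat_lit 6745621)]) (PF.cons PF.nil PF.nil)) PF.nil))) (PF.cons (PF.cons (PF.cons (PF.leaf (nat_lit 7411260) (nat_lit 2780453) (nat_lit 34214787) (nat_lit 16680997) [(nat_lit 0), (nat_lit 0), (nat_lit 2780453), (nat_lit 6716287)]) (PF.cons (PF.leaf (nat_lit 7590727) (nat_lit 289001) (nat_lit 34016500) (nat_lit 16613781) [(nat_lit 289001), (nat_lit 0), (nat_lit 2782660), (nat_lit 6703434)]) PF.nil))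 (PF.cons PF.nil PF.nil)) (PF.cons PF.nil PF.nil))) (PF.cons (PF.cons (PF.cons (PF.cons (PF.leaf (nat_lit 8008470) (nat_lit 6476301) (nat_lit 31862075) (nat_lit 15817833) [(nat_lit 0), (nat_lit 0), (nat_lit 0), (nat_lit 6476301)])
 (PF.cons PF.nil PF.nil)) (PF.cons PF.nil PF.nil)) (PF.cons PF.nil PF.nil)) (PF.cons PF.nil (PF.cons PF.nil PF.nil))))))

def p13_8_3_0 : pfC (piC [(nat_lit 43428061), (nat_lit 27333682), (nat_lit 20249535), (nat_lit 13586793)] (nat_lit 4975805)) p13_8_3 (nat_lit 4) (nat_lit 0) (nat_lit 1) = true := by decide +kernel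
def p13_8_3_1 : pfC (piC [(nat_lit 43428061), (nat_lit 27333682), (nat_lit 20249535), (nat_lit 13586793)] (nat_lit 4975805)) p13_8_3 (nat_lit 4) (nat_lit 1) (nat_lit 2) = true := by decide +kernel
def p13_8_3_2 : pfC (piC [(nat_lit 43428061), (nat_lit 27333682), (nat_lit 20249535), (nat_lit 13586793)] (nat_lit 4975805)) p13_8_3 (nat_lit 4) (nat_lit 2) (nat_lit 3) = true := by decide +kernel
def p13_8_3_3 : pfC (piC [(nat_lit 43428061), (nat_lit 27333682), (nat_lit 20249535), (nat_lit 13586793)] (nat_lit 4975805)) p13_8_3 (nat_lit 4) (nat_lit 3) (nat_lit 4) = true := by decide +kernel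
def p13_8_3_4 : pfC (piC [(nat_lit 43428061), (nat_lit 27333682), (nat_lit 20249535), (nat_lit 13586793)] (nat_lit 4975805)) p13_8_3 (nat_lit 4) (nat_lit 4) (nat_lit 5) = true := by decide +kernel
def p13_8_3_5 : pfC (piC [(nat_lit 43428061), (nat_lit 27333682), (nat_lit 20249535), (nat_lit 13586793)] (nat_lit 4975805)) p13_8_3 (nat_lit 4) (nat_lit 5) (nat_lit 6) = true := by decide +kernel
def p13_8_3_6 : pfC (piC [(nat_lit 43428061), (nat_lit 27333682), (nat_lit 20249535), (nat_lit 13586793)] (nat_lit 4975805)) p13_8_3 (nat_lit 4) (nat_lit 6) (nat_lit 7) = true := by decide +kernel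
def p13_8_3_7 : pfC (piC [(nat_lit 43428061), (nat_lit 27333682), (nat_lit 20249535), (nat_lit 13586793)] (nat_lit 4975805)) p13_8_3 (nat_lit 4) (nat_lit 7) (nat_lit 8) = true := by decide +kernel
def p13_8_3_8 : pfC (piC [(nat_lit 43428061), (nat_lit 27333682), (nat_lit 20249535), (nat_lit 13586793)] (nat_lit 4975805)) p13_8_3 (nat_lit 4) (nat_lit 8) (nat_lit 9) = true := by decide +kernel
def p13_8_3_9 : pfC (piC [(nat_lit 43428061), (nat_lit 27333682), (nat_lit 20249535), (nat_lit 13586793)] (nat_lit 4975805)) p13_8_3 (nat_lit 4) (nat_lit 9) (nat_lit 10) = true := by decide +kernel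
def p13_8_3_10 : pfC (piC [(nat_lit 43428061), (nat_lit 27333682), (nat_lit 20249535), (nat_lit 13586793)] (nat_lit 4975805)) p13_8_3 (nat_lit 4) (nat_lit 10) (nat_lit 11) = true := by decide +kernel
def p13_8_3_11 : pfC (piC [(nat_lit 43428061), (nat_lit 27333682), (nat_lit 20249535), (nat_lit 13586793)] (nat_lit 4975805)) p13_8_3 (nat_lit 4) (nat_lit 11) (nat_lit 12) = true := by decide +kernel
def p13_8_3_12 : pfC (piC [(nat_lit 43428061), (nat_lit 27333682), (nat_lit 20249535), (nat_lit 13586793)] (nat_lit 4975805)) p13_8_3 (nat_lit 4) (nat_lit 12) (nat_lit 13) = true := by decide +kernel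
def p13_8_3_13 : pfC (piC [(nat_lit 43428061), (nat_lit 27333682), (nat_lit 20249535), (nat_lit 13586793)] (nat_lit 4975805)) p13_8_3 (nat_lit 4) (nat_lit 13) (nat_lit 14) = true := by decide +kernel
def p13_8_3_14 : pfC (piC [(nat_lit 43428061), (nat_lit 27333682), (nat_lit 20249535), (nat_lit 13586793)] (nat_lit 4975805)) p13_8_3 (nat_lit 4) (nat_lit 14) (nat_lit 15) = true := by decide +kernel
def p13_8_3_15 : pfC (piC [(nat_lit 43428061), (nat_lit 27333682), (nat_lit 20249535), (nat_lit 13586793)] (nat_lit 4975805)) p13_8_3 (nat_lit 4) (nat_lit 15) (nat_lit 16) = true := by decide +kernel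
def p13_8_3_16 : pfC (piC [(nat_lit 43428061), (nat_lit 27333682), (nat_lit 20249535), (nat_lit 13586793)] (nat_lit 4975805)) p13_8_3 (nat_lit 4) (nat_lit 16) (nat_lit 17) = true := by decide +kernel
def p13_8_3_17 : pfC (piC [(nat_lit 43428061), (nat_lit 27333682), (nat_lit 20249535), (nat_lit 13586793)] (nat_lit 4975805)) p13_8_3 (nat_lit 4) (nat_lit 17) (nat_lit 18) = true := by decide +kernel
def p13_8_3_18 : pfC (piC [(nat_lit 43428061), (nat_lit 27333682), (nat_lit 20249535), (nat_lit 13586793)] (nat_lit 4975805)) p13_8_3 (nat_lit 4) (nat_lit 18) (nat_lit 19) = true := by decide +kernel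
def p13_8_3_19 : pfC (piC [(nat_lit 43428061), (nat_lit 27333682), (nat_lit 20249535), (nat_lit 13586793)] (nat_lit 4975805)) p13_8_3 (nat_lit 4) (nat_lit 19) (nat_lit 20) = true := by decide +kernel
def p13_8_3_20 : pfC (piC [(nat_lit 43428061), (nat_lit 27333682), (nat_lit 20249535), (nat_lit 13586793)] (nat_lit 4975805)) p13_8_3 (nat_lit 4) (nat_lit 20) (nat_lit 21) = true := by decide +kernel
def p13_8_3_21 : pfC (piC [(nat_lit 43428061), (nat_lit 27333682), (nat_lit 20249535), (nat_lit 13586793)] (nat_lit 4975805)) p13_8_3 (nat_lit 4) (nat_lit 21) (nat_lit 22) = true := by decide +kernel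
def p13_8_3_22 : pfC (piC [(nat_lit 43428061), (nat_lit 27333682), (nat_lit 20249535), (nat_lit 13586793)] (nat_lit 4975805)) p13_8_3 (nat_lit 4) (nat_lit 22) (nat_lit 23) = true := by decide +kernel
def p13_8_3_23 : pfC (piC [(nat_lit 43428061), (nat_lit 27333682), (nat_lit 20249535), (nat_lit 13586793)] (nat_lit 4975805)) p13_8_3 (nat_lit 4) (nat_lit 23) (nat_lit 24) = true := by decide +kernel
def p13_8_3_24 : pfC (piC [(nat_lit 43428061), (nat_lit 27333682), (nat_lit 20249535), (nat_lit 13586793)] (nat_lit 4975805)) p13_8_3 (nat_lit 4) (nat_lit 24) (nat_lit 25) = true := by decide +kernel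
def p13_8_3_25 : pfC (piC [(nat_lit 43428061), (nat_lit 27333682), (nat_lit 20249535), (nat_lit 13586793)] (nat_lit 4975805)) p13_8_3 (nat_lit 4) (nat_lit 25) (nat_lit 26) = true := by decide +kernel
def p13_8_3_26 : pfC (piC [(nat_lit 43428061), (nat_lit 27333682), (nat_lit 20249535), (nat_lit 13586793)] (nat_lit 4975805)) p13_8_3 (nat_lit 4) (nat_lit 26) (nat_lit 27) = true := by decide +kernel
def p13_8_3_27 : pfC (piC [(nat_lit 43428061), (nat_lit 27333682), (nat_lit 20249535), (nat_lit 13586793)] (nat_lit 4975805)) p13_8_3 (nat_lit 4) (nat_lit 27) (nat_lit 28) = true := by decide +kernel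
def p13_8_3_28 : pfC (piC [(nat_lit 43428061), (nat_lit 27333682), (nat_lit 20249535), (nat_lit 13586793)] (nat_lit 4975805)) p13_8_3 (nat_lit 4) (nat_lit 28) (nat_lit 29) = true := by decide +kernel
def p13_8_3_29 : pfC (piC [(nat_lit 43428061), (nat_lit 27333682), (nat_lit 20249535), (nat_lit 13586793)] (nat_lit 4975805)) p13_8_3 (nat_lit 4) (nat_lit 29) (nat_lit 30) = true := by decide +kernel
def p13_8_3_30 : pfC (piC [(nat_lit 43428061), (nat_lit 27333682), (nat_lit 20249535), (nat_lit 13586793)] (nat_lit 4975805)) p13_8_3 (nat_lit 4) (nat_lit 30) (nat_lit 31) = true := by decide +kernel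
def p13_8_3_31 : pfC (piC [(nat_lit 43428061), (nat_lit 27333682), (nat_lit 20249535), (nat_lit 13586793)] (nat_lit 4975805)) p13_8_3 (nat_lit 4) (nat_lit 31) (nat_lit 32) = true := by decide +kernel
def p13_8_3_32 : pfC (piC [(nat_lit 43428061), (nat_lit 27333682), (nat_lit 20249535), (nat_lit 13586793)] (nat_lit 4975805)) p13_8_3 (nat_lit 4) (nat_lit 32) (nat_lit 33) = true := by decide +kernel
def p13_8_3_33 : pfC (piC [(nat_lit 43428061), (nat_lit 27333682), (nat_lit 20249535), (nat_lit 13586793)] (nat_lit 4975805)) p13_8_3 (nat_lit 4) (nat_lit 33) (nat_lit 34) = true := by decide +kernel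
def p13_8_3_34 : pfC (piC [(nat_lit 43428061), (nat_lit 27333682), (nat_lit 20249535), (nat_lit 13586793)] (nat_lit 4975805)) p13_8_3 (nat_lit 4) (nat_lit 34) (nat_lit 35) = true := by decide +kernel
def p13_8_3_35 : pfC (piC [(nat_lit 43428061), (nat_lit 27333682), (nat_lit 20249535), (nat_lit 13586793)] (nat_lit 4975805)) p13_8_3 (nat_lit 4) (nat_lit 35) (nat_lit 36) = true := by decide +kernel
def p13_8_3_36 : pfC (piC [(nat_lit 43428061), (nat_lit 27333682), (nat_lit 20249535), (nat_lit 13586793)] (nat_lit 4975805)) p13_8_3 (nat_lit 4) (nat_lit 36) (nat_lit 37) = true := by decide +kernel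
def p13_8_3_37 : pfC (piC [(nat_lit 43428061), (nat_lit 27333682), (nat_lit 20249535), (nat_lit 13586793)] (nat_lit 4975805)) p13_8_3 (nat_lit 4) (nat_lit 37) (nat_lit 38) = true := by decide +kernel
def p13_8_3_38 : pfC (piC [(nat_lit 43428061), (nat_lit 27333682), (nat_lit 20249535), (nat_lit 13586793)] (nat_lit 4975805)) p13_8_3 (nat_lit 4) (nat_lit 38) (nat_lit 39) = true := by decide +kernel
def p13_8_3_39 : pfC (piC [(nat_lit 43428061), (nat_lit 27333682), (nat_lit 20249535), (nat_lit 13586793)] (nat_lit 4975805)) p13_8_3 (nat_lit 4) (nat_lit 39) (nat_lit 40) = true := by decide +kernel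
def p13_8_3_40 : pfC (piC [(nat_lit 43428061), (nat_lit 27333682), (nat_lit 20249535), (nat_lit 13586793)] (nat_lit 4975805)) p13_8_3 (nat_lit 4) (nat_lit 40) (nat_lit 41) = true := by decide +kernel
def p13_8_3_41 : pfC (piC [(nat_lit 43428061), (nat_lit 27333682), (nat_lit 20249535), (nat_lit 13586793)] (nat_lit 4975805)) p13_8_3 (nat_lit 4) (nat_lit 41) (nat_lit 42) = true := by decide +kernel
def p13_8_3_42 : pfC (piC [(nat_lit 43428061), (nat_lit 27333682), (nat_lit 20249535), (nat_lit 13586793)] (nat_lit 4975805)) p13_8_3 (nat_lit 4) (nat_lit 42) (nat_lit 43) = true := by decide +kernel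
def p13_8_3_43 : pfC (piC [(nat_lit 43428061), (nat_lit 27333682), (nat_lit 20249535), (nat_lit 13586793)] (nat_lit 4975805)) p13_8_3 (nat_lit 4) (nat_lit 43) (nat_lit 44) = true := by decide +kernel
def p13_8_3_44 : pfC (piC [(nat_lit 43428061), (nat_lit 27333682), (nat_lit 20249535), (nat_lit 13586793)] (nat_lit 4975805)) p13_8_3 (nat_lit 4) (nat_lit 44) (nat_lit 45) = true := by decide +kernel
def p13_8_3_45 : pfC (piC [(nat_lit 43428061), (nat_lit 27333682), (nat_lit 20249535), (nat_lit 13586793)] (nat_lit 4975805)) p13_8_3 (nat_lit 4) (nat_lit 45) (nat_lit 46) = true := by decide +kernel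
def p13_8_3_46 : pfC (piC [(nat_lit 43428061), (nat_lit 27333682), (nat_lit 20249535), (nat_lit 13586793)] (nat_lit 4975805)) p13_8_3 (nat_lit 4) (nat_lit 46) (nat_lit 47) = true := by decide +kernel
def p13_8_3_47 : pfC (piC [(nat_lit 43428061), (nat_lit 27333682), (nat_lit 20249535), (nat_lit 13586793)] (nat_lit 4975805)) p13_8_3 (nat_lit 4) (nat_lit 47) (nat_lit 48) = true := by decide +kernel
def p13_8_3_48 : pfC (piC [(nat_lit 43428061), (nat_lit 27333682), (nat_lit 20249535), (nat_lit 13586793)] (nat_lit 4975805)) p13_8_3 (nat_lit 4) (nat_lit 48) (nat_lit 49) = true := by decide +kernel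
def p13_8_3_49 : pfC (piC [(nat_lit 43428061), (nat_lit 27333682), (nat_lit 20249535), (nat_lit 13586793)] (nat_lit 4975805)) p13_8_3 (nat_lit 4) (nat_lit 49) (nat_lit 50) = true := by decide +kernel
def p13_8_3_50 : pfC (piC [(nat_lit 43428061), (nat_lit 27333682), (nat_lit 20249535), (nat_lit 13586793)] (nat_lit 4975805)) p13_8_3 (nat_lit 4) (nat_lit 50) (nat_lit 51) = true := by decide +kernel
def p13_8_3_51 : pfC (piC [(nat_lit 43428061), (nat_lit 27333682), (nat_lit 20249535), (nat_lit 13586793)] (nat_lit 4975805)) p13_8_3 (nat_lit 4) (nat_lit 51) (nat_lit 52) = true := by decide +kernel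
def p13_8_3_52 : pfC (piC [(nat_lit 43428061), (nat_lit 27333682), (nat_lit 20249535), (nat_lit 13586793)] (nat_lit 4975805)) p13_8_3 (nat_lit 4) (nat_lit 52) (nat_lit 53) = true := by decide +kernel
def p13_8_3_53 : pfC (piC [(nat_lit 43428061), (nat_lit 27333682), (nat_lit 20249535), (nat_lit 13586793)] (nat_lit 4975805)) p13_8_3 (nat_lit 4) (nat_lit 53) (nat_lit 54) = true := by decide +kernel
def p13_8_3_54 : pfC (piC [(nat_lit 43428061), (nat_lit 27333682), (nat_lit 20249535), (nat_lit 13586793)] (nat_lit 4975805)) p13_8_3 (nat_lit 4) (nat_lit 54) (nat_lit 55) = true := by decide +kernel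
def p13_8_3_55 : pfC (piC [(nat_lit 43428061), (nat_lit 27333682), (nat_lit 20249535), (nat_lit 13586793)] (nat_lit 4975805)) p13_8_3 (nat_lit 4) (nat_lit 55) (nat_lit 56) = true := by decide +kernel
def p13_8_3_56 : pfC (piC [(nat_lit 43428061), (nat_lit 27333682), (nat_lit 20249535), (nat_lit 13586793)] (nat_lit 4975805)) p13_8_3 (nat_lit 4) (nat_lit 56) (nat_lit 57) = true := by decide +kernel
def p13_8_3_57 : pfC (piC [(nat_lit 43428061), (nat_lit 27333682), (nat_lit 20249535), (nat_lit 13586793)] (nat_lit 4975805)) p13_8_3 (nat_lit 4) (nat_lit 57) (nat_lit 58) = true := by decide +kernel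
def p13_8_3_58 : pfC (piC [(nat_lit 43428061), (nat_lit 27333682), (nat_lit 20249535), (nat_lit 13586793)] (nat_lit 4975805)) p13_8_3 (nat_lit 4) (nat_lit 58) (nat_lit 59) = true := by decide +kernel
def p13_8_3_59 : pfC (piC [(nat_lit 43428061), (nat_lit 27333682), (nat_lit 20249535), (nat_lit 13586793)] (nat_lit 4975805)) p13_8_3 (nat_lit 4) (nat_lit 59) (nat_lit 60) = true := by decide +kernel
def p13_8_3_60 : pfC (piC [(nat_lit 43428061), (nat_lit 27333682), (nat_lit 20249535), (nat_lit 13586793)] (nat_lit 4975805)) p13_8_3 (nat_lit 4) (nat_lit 60) (nat_lit 61) = true := by decide +kernel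
def p13_8_3_61 : pfC (piC [(nat_lit 43428061), (nat_lit 27333682), (nat_lit 20249535), (nat_lit 13586793)] (nat_lit 4975805)) p13_8_3 (nat_lit 4) (nat_lit 61) (nat_lit 62) = true := by decide +kernel
def p13_8_3_62 : pfC (piC [(nat_lit 43428061), (nat_lit 27333682), (nat_lit 20249535), (nat_lit 13586793)] (nat_lit 4975805)) p13_8_3 (nat_lit 4) (nat_lit 62) (nat_lit 63) = true := by decide +kernel
def p13_8_3_63 : pfC (piC [(nat_lit 43428061), (nat_lit 27333682), (nat_lit 20249535), (nat_lit 13586793)] (nat_lit 4975805)) p13_8_3 (nat_lit 4) (nat_lit 63) (nat_lit 64) = true := by decide +kernel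
def p13_8_3_64 : pfC (piC [(nat_lit 43428061), (nat_lit 27333682), (nat_lit 20249535), (nat_lit 13586793)] (nat_lit 4975805)) p13_8_3 (nat_lit 4) (nat_lit 64) (nat_lit 65) = true := by decide +kernel
def p13_8_3_65 : pfC (piC [(nat_lit 43428061), (nat_lit 27333682), (nat_lit 20249535), (nat_lit 13586793)] (nat_lit 4975805)) p13_8_3 (nat_lit 4) (nat_lit 65) (nat_lit 66) = true := by decide +kernel
def p13_8_3_66 : pfC (piC [(nat_lit 43428061), (nat_lit 27333682), (nat_lit 20249535), (nat_lit 13586793)] (nat_lit 4975805)) p13_8_3 (nat_lit 4) (nat_lit 66) (nat_lit 67) = true := by decide +kernel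
def p13_8_3_67 : pfC (piC [(nat_lit 43428061), (nat_lit 27333682), (nat_lit 20249535), (nat_lit 13586793)] (nat_lit 4975805)) p13_8_3 (nat_lit 4) (nat_lit 67) (nat_lit 68) = true := by decide +kernel
def p13_8_3_68 : pfC (piC [(nat_lit 43428061), (nat_lit 27333682), (nat_lit 20249535), (nat_lit 13586793)] (nat_lit 4975805)) p13_8_3 (nat_lit 4) (nat_lit 68) (nat_lit 69) = true := by decide +kernel
def p13_8_3_69 : pfC (piC [(nat_lit 43428061), (nat_lit 27333682), (nat_lit 20249535), (nat_lit 13586793)] (nat_lit 4975805)) p13_8_3 (nat_lit 4) (nat_lit 69) (nat_lit 70) = true := by decide +kernel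
def p13_8_3_70 : pfC (piC [(nat_lit 43428061), (nat_lit 27333682), (nat_lit 20249535), (nat_lit 13586793)] (nat_lit 4975805)) p13_8_3 (nat_lit 4) (nat_lit 70) (nat_lit 71) = true := by decide +kernel
def p13_8_3_71 : pfC (piC [(nat_lit 43428061), (nat_lit 27333682), (nat_lit 20249535), (nat_lit 13586793)] (nat_lit 4975805)) p13_8_3 (nat_lit 4) (nat_lit 71) (nat_lit 72) = true := by decide +kernel
def p13_8_3_72 : pfC (piC [(nat_lit 43428061), (nat_lit 27333682), (nat_lit 20249535), (nat_lit 13586793)] (nat_lit 4975805)) p13_8_3 (nat_lit 4) (nat_lit 72) (nat_lit 73) = true := by decide +kernel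
def p13_8_3_73 : pfC (piC [(nat_lit 43428061), (nat_lit 27333682), (nat_lit 20249535), (nat_lit 13586793)] (nat_lit 4975805)) p13_8_3 (nat_lit 4) (nat_lit 73) (nat_lit 74) = true := by decide +kernel
def p13_8_3_74 : pfC (piC [(nat_lit 43428061), (nat_lit 27333682), (nat_lit 20249535), (nat_lit 13586793)] (nat_lit 4975805)) p13_8_3 (nat_lit 4) (nat_lit 74) (nat_lit 75) = true := by decide +kernel
def p13_8_3_75 : pfC (piC [(nat_lit 43428061), (nat_lit 27333682), (nat_lit 20249535), (nat_lit 13586793)] (nat_lit 4975805)) p13_8_3 (nat_lit 4) (nat_lit 75) (nat_lit 76) = true := by decide +kernel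
def p13_8_3_76 : pfC (piC [(nat_lit 43428061), (nat_lit 27333682), (nat_lit 20249535), (nat_lit 13586793)] (nat_lit 4975805)) p13_8_3 (nat_lit 4) (nat_lit 76) (nat_lit 77) = true := by decide +kernel
def p13_8_3_77 : pfC (piC [(nat_lit 43428061), (nat_lit 27333682), (nat_lit 20249535), (nat_lit 13586793)] (nat_lit 4975805)) p13_8_3 (nat_lit 4) (nat_lit 77) (nat_lit 78) = true := by decide +kernel
def p13_8_3_78 : pfC (piC [(nat_lit 43428061), (nat_lit 27333682), (nat_lit 20249535), (nat_lit 13586793)] (nat_lit 4975805)) p13_8_3 (nat_lit 4) (nat_lit 78) (nat_lit 79) = true := by decide +kernel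
def p13_8_3_79 : pfC (piC [(nat_lit 43428061), (nat_lit 27333682), (nat_lit 20249535), (nat_lit 13586793)] (nat_lit 4975805)) p13_8_3 (nat_lit 4) (nat_lit 79) (nat_lit 80) = true := by decide +kernel
def p13_8_3_80 : pfC (piC [(nat_lit 43428061), (nat_lit 27333682), (nat_lit 20249535), (nat_lit 13586793)] (nat_lit 4975805)) p13_8_3 (nat_lit 4) (nat_lit 80) (nat_lit 81) = true := by decide +kernel
def p13_8_3_81 : pfC (piC [(nat_lit 43428061), (nat_lit 27333682), (nat_lit 20249535), (nat_lit 13586793)] (nat_lit 4975805)) p13_8_3 (nat_lit 4) (nat_lit 81) (nat_lit 82) = true := by decide +kernel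
def p13_8_3_82 : pfC (piC [(nat_lit 43428061), (nat_lit 27333682), (nat_lit 20249535), (nat_lit 13586793)] (nat_lit 4975805)) p13_8_3 (nat_lit 4) (nat_lit 82) (nat_lit 83) = true := by decide +kernel
theorem p13_8_3_T : PfS (PiF n13_8.reverse (nat_lit 4975805)) p13_8_3 (nat_lit 4) [] 0 :=
  pftab_of (los := [(nat_lit 43428061), (nat_lit 27333682), (nat_lit 20249535), (nat_lit 13586793)]) (by decide +kernel) (hi := (nat_lit 83)) (PfP.trans (PfP.trans (PfP.trans (PfP.trans (PfP.trans (PfP.trans (PfP.trans (PfP.trans (PfP.trans (PfP.trans (PfP.trans (PfP.trans (PfP.trans (PfP.trans (PfP.trans (PfP.trans (PfP.trans (PfP.trans (PfP.trans (PfP.trans (PfP.trans (PfP.trans (PfP.trans (PfP.trans (PfP.trans (PfP.trans (PfP.trans (PfP.trans (PfP.trans (PfP.trans (PfP.trans (PfP.trans (PfP.trans (PfP.trans (PfP.trans (PfP.trans (PfP.trans (PfP.trans (PfP.trans (PfP.trans (PfP.trans (PfP.trans (PfP.trans (PfP.trans (PfP.trans (PfP.trans (PfP.trans (PfP.trans (PfP.trans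 (PfP.trans (PfP.trans (PfP.trans (PfP.trans (PfP.trans (PfP.trans (PfP.trans (PfP.trans (PfP.trans (PfP.trans (PfP.trans (PfP.trans (PfP.trans (PfP.trans (PfP.trans (PfP.trans (PfP.trans (PfP.trans (PfP.trans (PfP.trans (PfP.trans (PfP.trans (PfP.trans (PfP.trans (PfP.trans (PfP.trans (PfP.trans (PfP.trans (PfP.trans (PfP.trans (PfP.trans (PfP.trans (PfP.trans (pfC_sound p13_8_3_0) (pfC_sound p13_8_3_1)) (pfC_sound p13_8_3_2)) (pfC_sound p13_8_3_3)) (pfC_sound p13_8_3_4)) (pfC_sound p13_8_3_5)) (pfC_sound p13_8_3_6)) (pfC_sound p13_8_3_7)) (pfC_sound p13_8_3_8)) (pfC_sound p13_8_3_9)) (pfC_sound p13_8_3_10)) (pfC_sound p13_8_3_11)) (pfC_sound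
 p13_8_3_12)) (pfC_sound p13_8_3_13)) (pfC_sound p13_8_3_14)) (pfC_sound p13_8_3_15)) (pfC_sound p13_8_3_16)) (pfC_sound p13_8_3_17)) (pfC_sound p13_8_3_18)) (pfC_sound p13_8_3_19)) (pfC_sound p13_8_3_20)) (pfC_sound p13_8_3_21)) (pfC_sound p13_8_3_22)) (pfC_sound p13_8_3_23)) (pfC_sound p13_8_3_24)) (pfC_sound p13_8_3_25)) (pfC_sound p13_8_3_26)) (pfC_sound p13_8_3_27)) (pfC_sound p13_8_3_28)) (pfC_sound p13_8_3_29)) (pfC_sound p13_8_3_30)) (pfC_sound p13_8_3_31)) (pfC_sound p13_8_3_32)) (pfC_sound p13_8_3_33)) (pfC_sound p13_8_3_34)) (pfC_sound p13_8_3_35)) (pfC_sound p13_8_3_36)) (pfC_sound p13_8_3_37)) (pfC_sound p13_8_3_38)) (pfC_sound p13_8_3_39)) (pfC_sound p13_8_3_40)) (pfC_sound p13_8_3_41)) (pfC_sound p13_8_3_42)) (pfC_sound p13_8_3_43)) (pfC_sound p13_8_3_44)) (pfC_sound p13_8_3_45)) (pfC_sound p13_8_3_46)) (pfC_sound p13_8_3_47)) (pfC_sound p13_8_3_48)) (pfC_sound p13_8_3_49)) (pfC_sound p13_8_3_50)) (pfC_sound p13_8_3_51)) (pfC_sound p13_8_3_52))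 (pfC_sound p13_8_3_53)) (pfC_sound p13_8_3_54)) (pfC_sound p13_8_3_55)) (pfC_sound p13_8_3_56)) (pfC_sound p13_8_3_57)) (pfC_sound p13_8_3_58)) (pfC_sound p13_8_3_59)) (pfC_sound p13_8_3_60)) (pfC_sound p13_8_3_61)) (pfC_sound
 p13_8_3_62)) (pfC_sound p13_8_3_63)) (pfC_sound p13_8_3_64)) (pfC_sound p13_8_3_65)) (pfC_sound p13_8_3_66)) (pfC_sound p13_8_3_67)) (pfC_sound p13_8_3_68)) (pfC_sound p13_8_3_69)) (pfC_sound p13_8_3_70)) (pfC_sound p13_8_3_71)) (pfC_sound p13_8_3_72)) (pfC_sound p13_8_3_73)) (pfC_sound p13_8_3_74)) (pfC_sound p13_8_3_75)) (pfC_sound p13_8_3_76)) (pfC_sound p13_8_3_77)) (pfC_sound p13_8_3_78)) (pfC_sound p13_8_3_79)) (pfC_sound p13_8_3_80)) (pfC_sound p13_8_3_81)) (pfC_sound p13_8_3_82)) (by decide +kernel)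

def z13_8_3 : zOK yB13_8 (nat_lit 3) (nat_lit 750) (nat_lit 922) (nat_lit 4975805) (nat_lit 3340753) = true := by decide +kernel
def g13_8_3 : gOK yB13_8.x P13_8 (nat_lit 1428) (q13_8 :: r13_8) (nat_lit 3) (nat_lit 750) (nat_lit 4) (nat_lit 922) (nat_lit 12712500) (nat_lit 12712500) (nat_lit 12712500) (nat_lit 12712500) [(nat_lit 800)] = true := by decide +kernel
def v13_8_3 : ivC P13_8 s13_8 w13_8 n13_8 (nat_lit 4) (nat_lit 4750) (nat_lit 3) (nat_lit 750) f136_1_750 f144_1_750 (nat_lit 4) (nat_lit 922) f136_1_922 f144_1_922 (nat_lit 4975805) (nat_lit 3340753) p13_8_3 = true := by decide +kernel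
/-! box `yB13_9` -/

def P13_9 : BQ := ⟨(nat_lit 8), (nat_lit 8), (nat_lit 0), (nat_lit 4), (nat_lit 4), (nat_lit 720), (nat_lit 740), (nat_lit 120), [(nat_lit 200), (nat_lit 300), (nat_lit 450), (nat_lit 800)], (nat_lit 83104000), (nat_lit 16000000), (nat_lit 16000000000)⟩
def q13_9 : PC := ⟨(nat_lit 1000), [(nat_lit 120000), (nat_lit 200000), (nat_lit 300000), (nat_lit 450000), (nat_lit 800000)], (nat_lit 340282367000166625996085689103316680705000000), (nat_lit 15916896000000), (nat_lit 15916896000000), (nat_lit 10000000)⟩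
def r13_9 : List PC := [⟨(nat_lit 1321), [(nat_lit 120572), (nat_lit 201143), (nat_lit 301591), (nat_lit 451855), (nat_lit 799997)], (nat_lit 342234907222064605032687153676515769767120047), (nat_lit 16326435418240), (nat_lit 16338310723360), (nat_lit 10057150)⟩]
def s13_9 : List PB := [⟨(nat_lit 26420), (nat_lit 1929152000000), [(nat_lit 201143), (nat_lit 301591), (nat_lit 451855), (nat_lit 799997)], (nat_lit 342234907222064605032687153676515769767120047), (nat_lit 1142226342260864), (nat_lit 1142238217565984), (nat_lit 51360)⟩]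
def n13_9 : List KN := [⟨(nat_lit 800), (nat_lit 450), (nat_lit 13470738), (nat_lit 6481740)⟩, ⟨(nat_lit 450), (nat_lit 300), (nat_lit 20024807), (nat_lit 13470738)⟩, ⟨(nat_lit 300), (nat_lit 200), (nat_lit 27030628), (nat_lit 20024807)⟩, ⟨(nat_lit 200), (nat_lit 120), (nat_lit 42686981), (nat_lit 27030628)⟩]
def w13_9 : List ℕ := [(nat_lit 51360)]
def par13_9 : parC yB13_9 P13_9 s13_9 r13_9 q13_9 n13_9 w13_9 = true := by decide +kernel

def p13_9_0 : PF := (PF.cons (PF.cons (PF.cons (PF.cons (PF.leaf (nat_lit 479401) (nat_lit 1305278) (nat_lit 65803534) (nat_lit 1305278) [(nat_lit 0), (nat_lit 0), (nat_lit 0), (nat_lit 0)]) (PF.cons (PF.leaf (nat_lit 569118) (nat_lit 135601) (nat_lit 65629893) (nat_lit 1343318) [(nat_lit 135601), (nat_lit 0), (nat_lit 0), (nat_lit 0)]) (PF.cons (PF.leaf (nat_lit 684518) (nat_lit 150572) (nat_lit 65421936) (nat_lit 1385731) [(nat_lit 150572), (nat_lit 0), (nat_lit 0), (nat_lit 0)]) (PF.cons (PF.leaf (nat_lit 817242)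 (nat_lit 164811) (nat_lit 65183517) (nat_lit 1430860) [(nat_lit 164811), (nat_lit 0), (nat_lit 0), (nat_lit 0)]) (PF.cons (PF.leaf (nat_lit 965885) (nat_lit 178497) (nat_lit 64917234) (nat_lit 1477587) [(nat_lit 178497), (nat_lit 0), (nat_lit 0), (nat_lit 0)]) (PF.cons (PF.leaf (nat_lit 1130119) (nat_lit 191723) (nat_lit 64625076) (nat_lit 1525117) [(nat_lit 191723), (nat_lit 0), (nat_lit 0), (nat_lit 0)]) (PF.cons (PF.leaf (nat_lit 1308597) (nat_lit 204540) (nat_lit 64308703) (nat_lit 1572866) [(nat_lit 204540), (nat_lit 0), (nat_lit 0), (nat_lit 0)]) (PF.cons PF.nil (PF.cons PF.nil PF.nil))))))))) (PF.cons (PF.cons (PF.leaf (nat_lit 895676) (nat_lit 820621) (nat_lit 64805617) (nat_lit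
 1482574) [(nat_lit 0), (nat_lit 820621), (nat_lit 0), (nat_lit 0)]) (PF.cons (PF.leaf (nat_lit 1029421) (nat_lit 180766) (nat_lit 64553099) (nat_lit 1523305) [(nat_lit 180766), (nat_lit 851641), (nat_lit 0), (nat_lit 0)]) (PF.cons (PF.leaf (nat_lit 1183221) (nat_lit 194107) (nat_lit 64271044) (nat_lit 1565909) [(nat_lit 194107), (nat_lit 883644), (nat_lit 0), (nat_lit 0)]) (PF.cons (PF.leaf (nat_lit 1352858) (nat_lit 206921) (nat_lit 63962522) (nat_lit 1609495) [(nat_lit 206921), (nat_lit 916032), (nat_lit 0), (nat_lit 0)]) (PF.cons (PF.leaf (nat_lit 1536835) (nat_lit 219286) (nat_lit 63629819) (nat_lit 1653436) [(nat_lit 219286), (nat_lit 948411), (nat_lit 0), (nat_lit 0)]) (PF.cons (PF.leaf (nat_lit 1734567) (nat_lit 231246) (nat_lit 63274803) (nat_lit 1697272) [(nat_lit 231246), (nat_lit 980506), (nat_lit 0), (nat_lit 0)]) (PF.cons PF.nil PF.nil))))))) (PF.cons (PF.cons (PF.leaf (nat_lit 1411979) (nat_lit 940032) (nat_lit 63580678) (nat_lit 1648069)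 [(nat_lit 0), (nat_lit 940032), (nat_lit 0), (nat_lit 0)]) (PF.cons (PF.leaf (nat_lit 1582770) (nat_lit 220815) (nat_lit 63260909) (nat_lit 1687799) [(nat_lit 220815), (nat_lit 969644), (nat_lit 0), (nat_lit 0)]) (PF.cons (PF.leaf
 (nat_lit 1770703) (nat_lit 232831) (nat_lit 62916181) (nat_lit 1728077) [(nat_lit 232831), (nat_lit 999445), (nat_lit 0), (nat_lit 0)]) (PF.cons (PF.leaf (nat_lit 1972195) (nat_lit 244394) (nat_lit 62549029) (nat_lit 1768390) [(nat_lit 244394), (nat_lit 1029104), (nat_lit 0), (nat_lit 0)]) (PF.cons PF.nil PF.nil))))) (PF.cons (PF.cons (PF.leaf (nat_lit 2011766) (nat_lit 1046947) (nat_lit 62170619) (nat_lit 1797352) [(nat_lit 0), (nat_lit 1046947), (nat_lit 0), (nat_lit 0)]) (PF.cons (PF.leaf (nat_lit 2214153) (nat_lit 256470) (nat_lit 61795308) (nat_lit 1834247) [(nat_lit 256470), (nat_lit 1074262), (nat_lit 0), (nat_lit 0)]) (PF.cons (PF.leaf (nat_lit 2430815) (nat_lit 267255) (nat_lit 61399384) (nat_lit 1870942) [(nat_lit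 267255), (nat_lit 1101324), (nat_lit 0), (nat_lit 0)]) (PF.cons PF.nil PF.nil)))) (PF.cons (PF.cons (PF.leaf (nat_lit 2679273) (nat_lit 1141180) (nat_lit 60615320) (nat_lit 1928771) [(nat_lit 0), (nat_lit 1141180), (nat_lit 0), (nat_lit 0)]) (PF.cons (PF.leaf (nat_lit 2907784) (nat_lit 288011) (nat_lit 60195926) (nat_lit 1961901) [(nat_lit 288011), (nat_lit 1165743), (nat_lit 0), (nat_lit 0)]) PF.nil)) (PF.cons PF.nil (PF.cons PF.nil (PF.cons PF.nil
 PF.nil)))))))) (PF.cons (PF.cons (PF.cons (PF.leaf (nat_lit 1464663) (nat_lit 1678137) (nat_lit 62847045) (nat_lit 1678137) [(nat_lit 0), (nat_lit 0), (nat_lit 2583630), (nat_lit 0)]) (PF.cons (PF.leaf (nat_lit 1616705) (nat_lit 212578) (nat_lit 62558893) (nat_lit 1712926) [(nat_lit 212578), (nat_lit 0), (nat_lit 2624414), (nat_lit 0)]) (PF.cons (PF.leaf (nat_lit 1788364) (nat_lit 225772) (nat_lit 62241031) (nat_lit 1749112) [(nat_lit 225772), (nat_lit 0), (nat_lit 2667123), (nat_lit 0)]) (PF.cons (PF.leaf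 (nat_lit 1975181) (nat_lit 238185) (nat_lit 61897471) (nat_lit 1785946) [(nat_lit 238185), (nat_lit 0), (nat_lit 2710838), (nat_lit 0)]) (PF.cons (PF.leaf (nat_lit 2175683) (nat_lit 249962) (nat_lit 61531152) (nat_lit 1822909) [(nat_lit 249962), (nat_lit 0), (nat_lit 2754899), (nat_lit 0)]) (PF.cons (PF.leaf (nat_lit 2388818) (nat_lit 261194) (nat_lit 61144406) (nat_lit 1859621) [(nat_lit 261194), (nat_lit 0), (nat_lit 2798809), (nat_lit 0)]) (PF.cons PF.nil PF.nil))))))) (PF.cons (PF.cons (PF.leaf (nat_lit 2026145) (nat_lit 1051285) (nat_lit 61491764) (nat_lit 1815832) [(nat_lit 0), (nat_lit 1051285), (nat_lit 2749930), (nat_lit 0)]) (PF.cons (PF.leaf (nat_lit 2212442) (nat_lit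
 249798) (nat_lit 61142861) (nat_lit 1849337) [(nat_lit 249798), (nat_lit 1077135), (nat_lit 2789679), (nat_lit 0)]) (PF.cons (PF.leaf (nat_lit 2414611) (nat_lit 261270) (nat_lit 60770232) (nat_lit 1883143) [(nat_lit 261270), (nat_lit 1102983), (nat_lit 2829911), (nat_lit 0)]) (PF.cons (PF.leaf (nat_lit 2629727) (nat_lit 272148) (nat_lit 60376898) (nat_lit 1916823) [(nat_lit 272148), (nat_lit 1128559), (nat_lit 2870085), (nat_lit 0)]) (PF.cons PF.nil PF.nil))))) (PF.cons (PF.cons (PF.leaf (nat_lit 2658940) (nat_lit 1142027) (nat_lit 59986660) (nat_lit 1938930) [(nat_lit 0), (nat_lit 1142027), (nat_lit 2899167), (nat_lit 0)]) (PF.cons (PF.leaf (nat_lit 2873233) (nat_lit 282136) (nat_lit 59590313) (nat_lit 1969651) [(nat_lit 282136), (nat_lit 1165528), (nat_lit 2935655), (nat_lit 0)]) (PF.cons (PF.leaf (nat_lit 3100658) (nat_lit 292178) (nat_lit 59175233) (nat_lit 2000061) [(nat_lit 292178), (nat_lit 1188681), (nat_lit 2971797), (nat_lit 0)]) (PF.cons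 PF.nil PF.nil)))) (PF.cons (PF.cons (PF.leaf (nat_lit 3347528) (nat_lit 1221064) (nat_lit 58371059) (nat_lit 2046054) [(nat_lit 0), (nat_lit 1221064), (nat_lit 3028505), (nat_lit 0)]) (PF.cons PF.nil PF.nil)) (PF.cons PF.nil (PF.cons
 PF.nil PF.nil)))))) (PF.cons (PF.cons (PF.cons (PF.leaf (nat_lit 2650924) (nat_lit 1948592) (nat_lit 59322548) (nat_lit 1948592) [(nat_lit 0), (nat_lit 0), (nat_lit 2918835), (nat_lit 0)]) (PF.cons (PF.leaf (nat_lit 2848747) (nat_lit 274033) (nat_lit 58955195) (nat_lit 1976745) [(nat_lit 274033), (nat_lit 0), (nat_lit 2951419), (nat_lit 0)]) (PF.cons (PF.leaf (nat_lit 3061554) (nat_lit 284927) (nat_lit 58565569) (nat_lit 2004990) [(nat_lit 284927), (nat_lit 0), (nat_lit 2984198), (nat_lit 0)]) (PF.cons (PF.leaf (nat_lit 3286440) (nat_lit 295119) (nat_lit 58157013) (nat_lit 2032976) [(nat_lit 295119), (nat_lit 0), (nat_lit 3016731), (nat_lit 0)]) (PF.cons PF.nil PF.nil))))) (PF.cons (PF.cons (PF.leaf (nat_lit 3305346)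 (nat_lit 1218033) (nat_lit 57764575) (nat_lit 2049557) [(nat_lit 0), (nat_lit 1218033), (nat_lit 3038323), (nat_lit 0)]) (PF.cons (PF.leaf (nat_lit 3528097) (nat_lit 303283) (nat_lit 57357104) (nat_lit 2074956) [(nat_lit 303283), (nat_lit 1238164), (nat_lit 3067652), (nat_lit 0)]) (PF.cons (PF.leaf (nat_lit 3762939) (nat_lit 312606) (nat_lit 56932725) (nat_lit 2099959) [(nat_lit 312606), (nat_lit 1257877), (nat_lit 3096518), (nat_lit 0)]) (PF.cons PF.nil PF.nil))))
 (PF.cons (PF.cons (PF.leaf (nat_lit 4005439) (nat_lit 1283923) (nat_lit 56125246) (nat_lit 2136051) [(nat_lit 0), (nat_lit 1283923), (nat_lit 3139834), (nat_lit 0)]) (PF.cons PF.nil PF.nil)) (PF.cons PF.nil (PF.cons PF.nil PF.nil))))) (PF.cons (PF.cons (PF.cons (PF.leaf (nat_lit 3943544) (nat_lit 2134571) (nat_lit 55547487) (nat_lit 2134571) [(nat_lit 0), (nat_lit 0), (nat_lit 3142251), (nat_lit 0)]) (PF.cons (PF.leaf (nat_lit 4171874) (nat_lit 320536) (nat_lit 55136676) (nat_lit 2155348)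 [(nat_lit 320536), (nat_lit 0), (nat_lit 3165417), (nat_lit 0)]) (PF.cons PF.nil (PF.cons PF.nil PF.nil)))) (PF.cons (PF.cons (PF.leaf (nat_lit 4647614) (nat_lit 1332496) (nat_lit 53912385) (nat_lit 2203431) [(nat_lit 0), (nat_lit 1332496), (nat_lit 3220166), (nat_lit 0)]) (PF.cons PF.nil PF.nil)) (PF.cons PF.nil PF.nil))) (PF.cons (PF.cons (PF.cons (PF.leaf (nat_lit 5270459) (nat_lit 2252020) (nat_lit 51756991) (nat_lit 2252020) [(nat_lit 0), (nat_lit 0), (nat_lit 3274950), (nat_lit 0)]) (PF.cons PF.nil PF.nil)) (PF.cons PF.nil PF.nil)) (PF.cons PF.nil PF.nil)))))) (PF.cons (PF.cons (PF.cons (PF.cons (PF.leaf (nat_lit 2596195) (nat_lit 1890332) (nat_lit 57003056) (nat_lit 1890332) [(nat_lit 0),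
 (nat_lit 0), (nat_lit 0), (nat_lit 8215424)]) (PF.cons (PF.leaf (nat_lit 2759718) (nat_lit 244249) (nat_lit 56709384) (nat_lit 1917079) [(nat_lit 244249), (nat_lit 0), (nat_lit 0), (nat_lit 8238099)]) (PF.cons (PF.leaf (nat_lit 2941656) (nat_lit 257335) (nat_lit 56388271) (nat_lit 1944487) [(nat_lit 257335), (nat_lit 0), (nat_lit 0), (nat_lit 8261383)]) (PF.cons (PF.leaf (nat_lit 3137725) (nat_lit 269304) (nat_lit 56044276) (nat_lit 1971986) [(nat_lit 269304), (nat_lit 0), (nat_lit 0), (nat_lit 8284635)]) (PF.cons (PF.leaf (nat_lit 3346394) (nat_lit 280376) (nat_lit 55680736) (nat_lit 1999197) [(nat_lit 280376), (nat_lit 0), (nat_lit 0), (nat_lit 8307372)]) (PF.cons (PF.leaf (nat_lit 3566153) (nat_lit 290694) (nat_lit 55300262) (nat_lit 2025860) [(nat_lit 290694), (nat_lit 0), (nat_lit 0), (nat_lit 8329218)]) (PF.cons (PF.leaf (nat_lit 3795952) (nat_lit 300358) (nat_lit 54904996) (nat_lit 2051793) [(nat_lit 300358), (nat_lit 0), (nat_lit 0), (nat_lit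 8349870)]) (PF.cons PF.nil (PF.cons PF.nil PF.nil))))))))) (PF.cons (PF.cons (PF.leaf (nat_lit 3172976) (nat_lit 1164820) (nat_lit 55649801) (nat_lit 1990496) [(nat_lit 0), (nat_lit 1164820), (nat_lit 0), (nat_lit 8303695)]) (PF.cons
 (PF.leaf (nat_lit 3366380) (nat_lit 278131) (nat_lit 55306502) (nat_lit 2015098) [(nat_lit 278131), (nat_lit 1185727), (nat_lit 0), (nat_lit 8323353)]) (PF.cons (PF.leaf (nat_lit 3574286) (nat_lit 288867) (nat_lit 54942696) (nat_lit 2039605) [(nat_lit 288867), (nat_lit 1206297), (nat_lit 0), (nat_lit 8342477)]) (PF.cons (PF.leaf (nat_lit 3793599) (nat_lit 298818) (nat_lit 54561619) (nat_lit 2063713) [(nat_lit 298818), (nat_lit 1226339), (nat_lit 0), (nat_lit 8360684)]) (PF.cons (PF.leaf (nat_lit 4023068) (nat_lit 308101) (nat_lit 54165772) (nat_lit 2087216) [(nat_lit 308101), (nat_lit 1245736), (nat_lit 0), (nat_lit 8377680)]) (PF.cons (PF.leaf (nat_lit 4261617) (nat_lit 316799) (nat_lit 53757190) (nat_lit 2109968) [(nat_lit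 316799), (nat_lit 1264416), (nat_lit 0), (nat_lit 8393238)]) (PF.cons PF.nil PF.nil))))))) (PF.cons (PF.cons (PF.leaf (nat_lit 3805246) (nat_lit 1233922) (nat_lit 54193377) (nat_lit 2076410) [(nat_lit 0), (nat_lit 1233922), (nat_lit 0), (nat_lit 8371180)]) (PF.cons (PF.leaf (nat_lit 4021921) (nat_lit 306041) (nat_lit 53814598) (nat_lit 2098098) [(nat_lit 306041), (nat_lit 1252126), (nat_lit 0), (nat_lit 8385821)]) (PF.cons (PF.leaf (nat_lit 4250123) (nat_lit
 315026) (nat_lit 53420548) (nat_lit 2119310) [(nat_lit 315026), (nat_lit 1269816), (nat_lit 0), (nat_lit 8399268)]) (PF.cons (PF.leaf (nat_lit 4487572) (nat_lit 323405) (nat_lit 53013633) (nat_lit 2139879) [(nat_lit 323405), (nat_lit 1286893), (nat_lit 0), (nat_lit 8411297)]) (PF.cons PF.nil PF.nil))))) (PF.cons (PF.cons (PF.leaf (nat_lit 4478349) (nat_lit 1291765) (nat_lit 52670341) (nat_lit 2148329) [(nat_lit 0), (nat_lit 1291765), (nat_lit 0), (nat_lit 8414844)]) (PF.cons (PF.leaf (nat_lit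 4712976) (nat_lit 329286) (nat_lit 52267191) (nat_lit 2166832) [(nat_lit 329286), (nat_lit 1307332), (nat_lit 0), (nat_lit 8423503)]) (PF.cons (PF.leaf (nat_lit 4956854) (nat_lit 336856) (nat_lit 51852871) (nat_lit 2184671) [(nat_lit 336856), (nat_lit 1322311), (nat_lit 0), (nat_lit 8430623)]) (PF.cons PF.nil PF.nil)))) (PF.cons (PF.cons (PF.leaf (nat_lit 5180270) (nat_lit 1339520) (nat_lit 51109637) (nat_lit 2207010) [(nat_lit 0), (nat_lit 1339520), (nat_lit 0), (nat_lit 8434082)]) (PF.cons (PF.leaf (nat_lit 5428446) (nat_lit 348652) (nat_lit 50691039) (nat_lit 2222314) [(nat_lit 348652), (nat_lit 1352584), (nat_lit 0), (nat_lit 8436467)]) PF.nil)) (PF.cons PF.nil PF.nil)))))) (PF.cons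
 (PF.cons (PF.cons (PF.leaf (nat_lit 3763834) (nat_lit 2072947) (nat_lit 53594065) (nat_lit 2072947) [(nat_lit 0), (nat_lit 0), (nat_lit 3075084), (nat_lit 8366716)]) (PF.cons (PF.leaf (nat_lit 3964192) (nat_lit 295525) (nat_lit 53245231) (nat_lit 2093267) [(nat_lit 295525), (nat_lit 0), (nat_lit 3096425), (nat_lit 8378362)]) (PF.cons (PF.leaf (nat_lit 4178139) (nat_lit 305620) (nat_lit 52877412) (nat_lit 2113391) [(nat_lit 305620), (nat_lit 0), (nat_lit 3117623), (nat_lit 8389145)]) (PF.cons (PF.leaf (nat_lit 4402791) (nat_lit 314870) (nat_lit 52493954) (nat_lit 2133072) [(nat_lit 314870), (nat_lit 0), (nat_lit 3138381), (nat_lit 8398793)]) (PF.cons (PF.leaf (nat_lit 4636778) (nat_lit 323414) (nat_lit 52097409) (nat_lit 2152146) [(nat_lit 323414), (nat_lit 0), (nat_lit 3158494), (nat_lit 8407103)]) (PF.cons (PF.leaf (nat_lit 4878997) (nat_lit 331351) (nat_lit 51689822) (nat_lit 2170497) [(nat_lit 331351), (nat_lit 0), (nat_lit 3177810), (nat_lit 8413924)])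 (PF.cons PF.nil PF.nil))))))) (PF.cons (PF.cons (PF.leaf (nat_lit 4405112) (nat_lit 1282474) (nat_lit 52133793) (nat_lit 2141940) [(nat_lit 0), (nat_lit 1282474), (nat_lit 3149253), (nat_lit 8401350)]) (PF.cons (PF.leaf (nat_lit
 4626220) (nat_lit 320608) (nat_lit 51755197) (nat_lit 2159554) [(nat_lit 320608), (nat_lit 1297914), (nat_lit 3167610), (nat_lit 8407926)]) (PF.cons (PF.leaf (nat_lit 4858014) (nat_lit 328915) (nat_lit 51362872) (nat_lit 2176672) [(nat_lit 328915), (nat_lit 1312828), (nat_lit 3185416), (nat_lit 8413190)]) (PF.cons (PF.leaf (nat_lit 5098279) (nat_lit 336589) (nat_lit 50959235) (nat_lit 2193160) [(nat_lit 336589), (nat_lit 1327140), (nat_lit 3202509), (nat_lit 8416996)]) (PF.cons PF.nil PF.nil))))) (PF.cons (PF.cons (PF.leaf (nat_lit 5079906) (nat_lit 1330043) (nat_lit 50626951) (nat_lit 2198611) [(nat_lit 0), (nat_lit 1330043), (nat_lit 3209064), (nat_lit 8414099)]) (PF.cons (PF.leaf (nat_lit 5316626) (nat_lit 341188) (nat_lit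 50229056) (nat_lit 2213338) [(nat_lit 341188), (nat_lit 1343052), (nat_lit 3224049), (nat_lit 8415075)]) (PF.cons (PF.leaf (nat_lit 5561842) (nat_lit 348088) (nat_lit 49821404) (nat_lit 2227428) [(nat_lit 348088), (nat_lit 1355491), (nat_lit 3238283), (nat_lit 8414536)]) (PF.cons PF.nil PF.nil)))) (PF.cons (PF.cons (PF.leaf (nat_lit 5777241) (nat_lit 1368646) (nat_lit 49098963) (nat_lit 2243700) [(nat_lit 0), (nat_lit 1368646), (nat_lit 3254943), (nat_lit
 8405264)]) (PF.cons PF.nil PF.nil)) (PF.cons PF.nil PF.nil))))) (PF.cons (PF.cons (PF.cons (PF.leaf (nat_lit 4991355) (nat_lit 2189719) (nat_lit 50124122) (nat_lit 2189719) [(nat_lit 0), (nat_lit 0), (nat_lit 3201060), (nat_lit 8392850)]) (PF.cons (PF.leaf (nat_lit 5214996) (nat_lit 332248) (nat_lit 49750212) (nat_lit 2203844) [(nat_lit 332248), (nat_lit 0), (nat_lit 3214989), (nat_lit 8392528)]) (PF.cons (PF.leaf (nat_lit 5448635) (nat_lit 339929) (nat_lit 49363960) (nat_lit 2217462) [(nat_lit 339929),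 (nat_lit 0), (nat_lit 3228344), (nat_lit 8390842)]) (PF.cons (PF.leaf (nat_lit 5690055) (nat_lit 346959) (nat_lit 48967750) (nat_lit 2230470) [(nat_lit 346959), (nat_lit 0), (nat_lit 3241000), (nat_lit 8387711)]) (PF.cons PF.nil PF.nil))))) (PF.cons (PF.cons (PF.leaf (nat_lit 5663299) (nat_lit 1358253) (nat_lit 48648690) (nat_lit 2233496) [(nat_lit 0), (nat_lit 1358253), (nat_lit 3244351), (nat_lit 8379668)]) (PF.cons (PF.leaf (nat_lit 5900619) (nat_lit 350460) (nat_lit 48259629) (nat_lit 2245003) [(nat_lit 350460), (nat_lit 1369051), (nat_lit 3255226), (nat_lit 8374214)]) (PF.cons PF.nil (PF.cons PF.nil PF.nil)))) (PF.cons (PF.cons (PF.leaf (nat_lit 6352681) (nat_lit 1389051)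
 (nat_lit 47164854) (nat_lit 2267131) [(nat_lit 0), (nat_lit 1389051), (nat_lit 3275503), (nat_lit 8347716)]) (PF.cons PF.nil PF.nil)) PF.nil))) (PF.cons (PF.cons (PF.cons (PF.leaf (nat_lit 6227030) (nat_lit 2255665) (nat_lit 46746251) (nat_lit 2255665) [(nat_lit 0), (nat_lit 0), (nat_lit 3262897), (nat_lit 8318202)]) (PF.cons (PF.leaf (nat_lit 6463753) (nat_lit 357502) (nat_lit 46368534) (nat_lit 2264430) [(nat_lit 357502), (nat_lit 0), (nat_lit 3270302), (nat_lit 8307438)]) (PF.cons PF.nil PF.nil))) (PF.cons (PF.cons (PF.leaf (nat_lit 6905982) (nat_lit 1402211) (nat_lit 45314193) (nat_lit 2279659) [(nat_lit 0), (nat_lit 1402211), (nat_lit 3281758), (nat_lit 8267471)]) PF.nil) PF.nil)) (PF.cons PF.nil (PF.cons PF.nil PF.nil)))))) (PF.cons (PF.cons (PF.cons (PF.cons (PF.leaf (nat_lit 4747725) (nat_lit 2119694) (nat_lit 48494032) (nat_lit 2119694) [(nat_lit 0), (nat_lit 0), (nat_lit 0), (nat_lit 8247542)]) (PF.cons (PF.leaf (nat_lit 4945856) (nat_lit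 306000) (nat_lit 48175974) (nat_lit 2134512) [(nat_lit 306000), (nat_lit 0), (nat_lit 0), (nat_lit 8246162)]) (PF.cons (PF.leaf (nat_lit 5156488) (nat_lit 315362) (nat_lit 47841782) (nat_lit 2148976) [(nat_lit 315362), (nat_lit 0),
 (nat_lit 0), (nat_lit 8243664)]) (PF.cons (PF.leaf (nat_lit 5376764) (nat_lit 323800) (nat_lit 47494583) (nat_lit 2162916) [(nat_lit 323800), (nat_lit 0), (nat_lit 0), (nat_lit 8239956)]) (PF.cons (PF.leaf (nat_lit 5605303) (nat_lit 331477) (nat_lit 47136738) (nat_lit 2176224) [(nat_lit 331477), (nat_lit 0), (nat_lit 0), (nat_lit 8234970)]) (PF.cons (PF.leaf (nat_lit 5841001) (nat_lit 338507) (nat_lit 46770121) (nat_lit 2188830) [(nat_lit 338507), (nat_lit 0), (nat_lit 0), (nat_lit 8228661)]) (PF.cons PF.nil PF.nil))))))) (PF.cons (PF.cons (PF.leaf (nat_lit 5366435) (nat_lit 1305398) (nat_lit 47174339) (nat_lit 2166853) [(nat_lit 0), (nat_lit 1305398), (nat_lit 0), (nat_lit 8231111)]) (PF.cons (PF.leaf (nat_lit 5582338)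 (nat_lit 327814) (nat_lit 46833501) (nat_lit 2179138) [(nat_lit 327814), (nat_lit 1317460), (nat_lit 0), (nat_lit 8225449)]) (PF.cons (PF.leaf (nat_lit 5807828) (nat_lit 335294) (nat_lit 46481351) (nat_lit 2190894) [(nat_lit 335294), (nat_lit 1328951), (nat_lit 0), (nat_lit 8218513)]) (PF.cons (PF.leaf (nat_lit 6040835) (nat_lit 342104) (nat_lit 46120088) (nat_lit 2202036) [(nat_lit 342104), (nat_lit 1339830), (nat_lit 0), (nat_lit 8210271)]) (PF.cons PF.nil
 PF.nil))))) (PF.cons (PF.cons (PF.leaf (nat_lit 6010752) (nat_lit 1340207) (nat_lit 45827662) (nat_lit 2203590) [(nat_lit 0), (nat_lit 1340207), (nat_lit 0), (nat_lit 8198572)]) (PF.cons (PF.leaf (nat_lit 6239628) (nat_lit 345154) (nat_lit 45473115) (nat_lit 2213365) [(nat_lit 345154), (nat_lit 1350018), (nat_lit 0), (nat_lit 8188570)]) (PF.cons (PF.leaf (nat_lit 6475997) (nat_lit 351216) (nat_lit 45110763) (nat_lit 2222547) [(nat_lit 351216), (nat_lit 1359269), (nat_lit 0), (nat_lit 8177265)])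 (PF.cons PF.nil PF.nil)))) (PF.cons (PF.cons (PF.leaf (nat_lit 6671247) (nat_lit 1367280) (nat_lit 44474359) (nat_lit 2230929) [(nat_lit 0), (nat_lit 1367280), (nat_lit 0), (nat_lit 8150841)]) (PF.cons (PF.leaf (nat_lit 6909408) (nat_lit 359009) (nat_lit 44112825) (nat_lit 2238332) [(nat_lit 359009), (nat_lit 1375085), (nat_lit 0), (nat_lit 8136694)]) PF.nil)) (PF.cons PF.nil PF.nil))))) (PF.cons (PF.cons (PF.cons (PF.leaf (nat_lit 5904305) (nat_lit 2190928) (nat_lit 45397694) (nat_lit 2190928) [(nat_lit 0), (nat_lit 0), (nat_lit 3184743), (nat_lit 8167722)]) (PF.cons (PF.leaf (nat_lit 6120979) (nat_lit 335664) (nat_lit 45064766) (nat_lit 2200550) [(nat_lit 335664), (nat_lit 0), (nat_lit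
 3192663), (nat_lit 8157584)]) (PF.cons (PF.leaf (nat_lit 6346743) (nat_lit 342583) (nat_lit 44721629) (nat_lit 2209656) [(nat_lit 342583), (nat_lit 0), (nat_lit 3200014), (nat_lit 8146173)]) (PF.cons (PF.leaf (nat_lit 6579411) (nat_lit 348831) (nat_lit 44370415) (nat_lit 2218184) [(nat_lit 348831), (nat_lit 0), (nat_lit 3206726), (nat_lit 8133496)]) (PF.cons PF.nil PF.nil))))) (PF.cons (PF.cons (PF.leaf (nat_lit 6542452) (nat_lit 1355302) (nat_lit 44091830) (nat_lit 2218109) [(nat_lit 0), (nat_lit 1355302), (nat_lit 3205938), (nat_lit 8118815)]) (PF.cons (PF.leaf (nat_lit 6770624) (nat_lit 351031) (nat_lit 43748080) (nat_lit 2225484) [(nat_lit 351031), (nat_lit 1363380), (nat_lit 3211352), (nat_lit 8104741)]) (PF.cons (PF.leaf (nat_lit 7005814) (nat_lit 356576) (nat_lit 43397431) (nat_lit 2232304) [(nat_lit 356576), (nat_lit 1370930), (nat_lit 3216134), (nat_lit 8089429)]) (PF.cons PF.nil PF.nil)))) (PF.cons (PF.cons (PF.leaf (nat_lit 7193168) (nat_lit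 1376454) (nat_lit 42787310) (nat_lit 2237127) [(nat_lit 0), (nat_lit 1376454), (nat_lit 3217805), (nat_lit 8056830)]) (PF.cons PF.nil PF.nil)) PF.nil))) (PF.cons (PF.cons (PF.cons (PF.leaf (nat_lit 7055711) (nat_lit 2223898)
 (nat_lit 42432893) (nat_lit 2223898) [(nat_lit 0), (nat_lit 0), (nat_lit 3202688), (nat_lit 8023322)]) (PF.cons (PF.leaf (nat_lit 7282432) (nat_lit 355263) (nat_lit 42101155) (nat_lit 2229240) [(nat_lit 355263), (nat_lit 0), (nat_lit 3205636), (nat_lit 8005940)]) (PF.cons PF.nil PF.nil))) (PF.cons (PF.cons (PF.leaf (nat_lit 7695241) (nat_lit 1380563) (nat_lit 41180328) (nat_lit 2235947) [(nat_lit 0), (nat_lit 1380563), (nat_lit 3206014), (nat_lit 7949971)]) PF.nil) PF.nil)) (PF.cons PF.nil (PF.cons PF.nil PF.nil))))) (PF.cons (PF.cons (PF.cons (PF.cons (PF.leaf (nat_lit 6707656) (nat_lit 2160988) (nat_lit 41319363) (nat_lit 2160988) [(nat_lit 0), (nat_lit 0), (nat_lit 0), (nat_lit 7876153)]) (PF.cons (PF.leaf (nat_lit 6916556)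 (nat_lit 334054) (nat_lit 41025566) (nat_lit 2167522) [(nat_lit 334054), (nat_lit 0), (nat_lit 0), (nat_lit 7860556)]) (PF.cons (PF.leaf (nat_lit 7133826) (nat_lit 340355) (nat_lit 40723179) (nat_lit 2173554) [(nat_lit 340355), (nat_lit 0), (nat_lit 0), (nat_lit 7843789)]) (PF.cons (PF.leaf (nat_lit 7357314) (nat_lit 345982) (nat_lit 40414085) (nat_lit 2179047) [(nat_lit 345982), (nat_lit 0), (nat_lit 0), (nat_lit 7825910)]) (PF.cons PF.nil PF.nil)))))
 (PF.cons (PF.cons (PF.leaf (nat_lit 7313207) (nat_lit 1335707) (nat_lit 40172113) (nat_lit 2177071) [(nat_lit 0), (nat_lit 1335707), (nat_lit 0), (nat_lit 7807973)]) (PF.cons (PF.leaf (nat_lit 7532051) (nat_lit 347283) (nat_lit 39870133) (nat_lit 2181666) [(nat_lit 347283), (nat_lit 1341866), (nat_lit 0), (nat_lit 7789287)]) (PF.cons PF.nil (PF.cons PF.nil PF.nil)))) (PF.cons (PF.cons (PF.leaf (nat_lit 7928237) (nat_lit 1350254) (nat_lit 39030330) (nat_lit 2186488) [(nat_lit 0), (nat_lit 1350254), (nat_lit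 0), (nat_lit 7730495)]) (PF.cons PF.nil PF.nil)) PF.nil))) (PF.cons (PF.cons (PF.cons (PF.leaf (nat_lit 7783851) (nat_lit 2172703) (nat_lit 38730139) (nat_lit 2172703) [(nat_lit 0), (nat_lit 0), (nat_lit 3117051), (nat_lit 7696306)]) (PF.cons (PF.leaf (nat_lit 8000787) (nat_lit 349649) (nat_lit 38439527) (nat_lit 2175763) [(nat_lit 349649), (nat_lit 0), (nat_lit 3117162), (nat_lit 7675570)]) PF.nil)) (PF.cons PF.nil PF.nil)) (PF.cons PF.nil PF.nil))) (PF.cons (PF.cons (PF.cons (PF.cons (PF.leaf (nat_lit 8432294) (nat_lit 2111503) (nat_lit 35544680) (nat_lit 2111503) [(nat_lit 0), (nat_lit 0), (nat_lit 0), (nat_lit 7363157)]) (PF.cons PF.nil PF.nil)) (PF.cons PF.nil PF.nil))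
 (PF.cons PF.nil PF.nil)) (PF.cons PF.nil (PF.cons PF.nil (PF.cons PF.nil (PF.cons PF.nil PF.nil)))))))))

def p13_9_0_0 : pfC (piC [(nat_lit 42686981), (nat_lit 27030628), (nat_lit 20024807), (nat_lit 13470738)] (nat_lit 28647042)) p13_9_0 (nat_lit 4) (nat_lit 0) (nat_lit 1) = true := by decide +kernel
def p13_9_0_1 : pfC (piC [(nat_lit 42686981), (nat_lit 27030628), (nat_lit 20024807), (nat_lit 13470738)] (nat_lit 28647042)) p13_9_0 (nat_lit 4) (nat_lit 1) (nat_lit 2) = true := by decide +kernel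
def p13_9_0_2 : pfC (piC [(nat_lit 42686981), (nat_lit 27030628), (nat_lit 20024807), (nat_lit 13470738)] (nat_lit 28647042)) p13_9_0 (nat_lit 4) (nat_lit 2) (nat_lit 3) = true := by decide +kernel
def p13_9_0_3 : pfC (piC [(nat_lit 42686981), (nat_lit 27030628), (nat_lit 20024807), (nat_lit 13470738)] (nat_lit 28647042)) p13_9_0 (nat_lit 4) (nat_lit 3) (nat_lit 4) = true := by decide +kernel
def p13_9_0_4 : pfC (piC [(nat_lit 42686981), (nat_lit 27030628), (nat_lit 20024807), (nat_lit 13470738)] (nat_lit 28647042)) p13_9_0 (nat_lit 4) (nat_lit 4) (nat_lit 5) = true := by decide +kernel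
def p13_9_0_5 : pfC (piC [(nat_lit 42686981), (nat_lit 27030628), (nat_lit 20024807), (nat_lit 13470738)] (nat_lit 28647042)) p13_9_0 (nat_lit 4) (nat_lit 5) (nat_lit 6) = true := by decide +kernel
def p13_9_0_6 : pfC (piC [(nat_lit 42686981), (nat_lit 27030628), (nat_lit 20024807), (nat_lit 13470738)] (nat_lit 28647042)) p13_9_0 (nat_lit 4) (nat_lit 6) (nat_lit 7) = true := by decide +kernel
def p13_9_0_7 : pfC (piC [(nat_lit 42686981), (nat_lit 27030628), (nat_lit 20024807), (nat_lit 13470738)] (nat_lit 28647042)) p13_9_0 (nat_lit 4) (nat_lit 7) (nat_lit 8) = true := by decide +kernel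
def p13_9_0_8 : pfC (piC [(nat_lit 42686981), (nat_lit 27030628), (nat_lit 20024807), (nat_lit 13470738)] (nat_lit 28647042)) p13_9_0 (nat_lit 4) (nat_lit 8) (nat_lit 9) = true := by decide +kernel
def p13_9_0_9 : pfC (piC [(nat_lit 42686981), (nat_lit 27030628), (nat_lit 20024807), (nat_lit 13470738)] (nat_lit 28647042)) p13_9_0 (nat_lit 4) (nat_lit 9) (nat_lit 10) = true := by decide +kernel
def p13_9_0_10 : pfC (piC [(nat_lit 42686981), (nat_lit 27030628), (nat_lit 20024807), (nat_lit 13470738)] (nat_lit 28647042)) p13_9_0 (nat_lit 4) (nat_lit 10) (nat_lit 11) = true := by decide +kernel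
def p13_9_0_11 : pfC (piC [(nat_lit 42686981), (nat_lit 27030628), (nat_lit 20024807), (nat_lit 13470738)] (nat_lit 28647042)) p13_9_0 (nat_lit 4) (nat_lit 11) (nat_lit 12) = true := by decide +kernel
def p13_9_0_12 : pfC (piC [(nat_lit 42686981), (nat_lit 27030628), (nat_lit 20024807), (nat_lit 13470738)] (nat_lit 28647042)) p13_9_0 (nat_lit 4) (nat_lit 12) (nat_lit 13) = true := by decide +kernel
def p13_9_0_13 : pfC (piC [(nat_lit 42686981), (nat_lit 27030628), (nat_lit 20024807), (nat_lit 13470738)] (nat_lit 28647042)) p13_9_0 (nat_lit 4) (nat_lit 13) (nat_lit 14) = true := by decide +kernel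
def p13_9_0_14 : pfC (piC [(nat_lit 42686981), (nat_lit 27030628), (nat_lit 20024807), (nat_lit 13470738)] (nat_lit 28647042)) p13_9_0 (nat_lit 4) (nat_lit 14) (nat_lit 15) = true := by decide +kernel
def p13_9_0_15 : pfC (piC [(nat_lit 42686981), (nat_lit 27030628), (nat_lit 20024807), (nat_lit 13470738)] (nat_lit 28647042)) p13_9_0 (nat_lit 4) (nat_lit 15) (nat_lit 16) = true := by decide +kernel
def p13_9_0_16 : pfC (piC [(nat_lit 42686981), (nat_lit 27030628), (nat_lit 20024807), (nat_lit 13470738)] (nat_lit 28647042)) p13_9_0 (nat_lit 4) (nat_lit 16) (nat_lit 17) = true := by decide +kernel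
def p13_9_0_17 : pfC (piC [(nat_lit 42686981), (nat_lit 27030628), (nat_lit 20024807), (nat_lit 13470738)] (nat_lit 28647042)) p13_9_0 (nat_lit 4) (nat_lit 17) (nat_lit 18) = true := by decide +kernel
def p13_9_0_18 : pfC (piC [(nat_lit 42686981), (nat_lit 27030628), (nat_lit 20024807), (nat_lit 13470738)] (nat_lit 28647042)) p13_9_0 (nat_lit 4) (nat_lit 18) (nat_lit 19) = true := by decide +kernel
def p13_9_0_19 : pfC (piC [(nat_lit 42686981), (nat_lit 27030628), (nat_lit 20024807), (nat_lit 13470738)] (nat_lit 28647042)) p13_9_0 (nat_lit 4) (nat_lit 19) (nat_lit 20) = true := by decide +kernel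
def p13_9_0_20 : pfC (piC [(nat_lit 42686981), (nat_lit 27030628), (nat_lit 20024807), (nat_lit 13470738)] (nat_lit 28647042)) p13_9_0 (nat_lit 4) (nat_lit 20) (nat_lit 21) = true := by decide +kernel
def p13_9_0_21 : pfC (piC [(nat_lit 42686981), (nat_lit 27030628), (nat_lit 20024807), (nat_lit 13470738)] (nat_lit 28647042)) p13_9_0 (nat_lit 4) (nat_lit 21) (nat_lit 22) = true := by decide +kernel
def p13_9_0_22 : pfC (piC [(nat_lit 42686981), (nat_lit 27030628), (nat_lit 20024807), (nat_lit 13470738)] (nat_lit 28647042)) p13_9_0 (nat_lit 4) (nat_lit 22) (nat_lit 23) = true := by decide +kernel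
def p13_9_0_23 : pfC (piC [(nat_lit 42686981), (nat_lit 27030628), (nat_lit 20024807), (nat_lit 13470738)] (nat_lit 28647042)) p13_9_0 (nat_lit 4) (nat_lit 23) (nat_lit 24) = true := by decide +kernel
def p13_9_0_24 : pfC (piC [(nat_lit 42686981), (nat_lit 27030628), (nat_lit 20024807), (nat_lit 13470738)] (nat_lit 28647042)) p13_9_0 (nat_lit 4) (nat_lit 24) (nat_lit 25) = true := by decide +kernel
def p13_9_0_25 : pfC (piC [(nat_lit 42686981), (nat_lit 27030628), (nat_lit 20024807), (nat_lit 13470738)] (nat_lit 28647042)) p13_9_0 (nat_lit 4) (nat_lit 25) (nat_lit 26) = true := by decide +kernel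
def p13_9_0_26 : pfC (piC [(nat_lit 42686981), (nat_lit 27030628), (nat_lit 20024807), (nat_lit 13470738)] (nat_lit 28647042)) p13_9_0 (nat_lit 4) (nat_lit 26) (nat_lit 27) = true := by decide +kernel
def p13_9_0_27 : pfC (piC [(nat_lit 42686981), (nat_lit 27030628), (nat_lit 20024807), (nat_lit 13470738)] (nat_lit 28647042)) p13_9_0 (nat_lit 4) (nat_lit 27) (nat_lit 28) = true := by decide +kernel
def p13_9_0_28 : pfC (piC [(nat_lit 42686981), (nat_lit 27030628), (nat_lit 20024807), (nat_lit 13470738)] (nat_lit 28647042)) p13_9_0 (nat_lit 4) (nat_lit 28) (nat_lit 29) = true := by decide +kernel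
def p13_9_0_29 : pfC (piC [(nat_lit 42686981), (nat_lit 27030628), (nat_lit 20024807), (nat_lit 13470738)] (nat_lit 28647042)) p13_9_0 (nat_lit 4) (nat_lit 29) (nat_lit 30) = true := by decide +kernel
def p13_9_0_30 : pfC (piC [(nat_lit 42686981), (nat_lit 27030628), (nat_lit 20024807), (nat_lit 13470738)] (nat_lit 28647042)) p13_9_0 (nat_lit 4) (nat_lit 30) (nat_lit 31) = true := by decide +kernel
def p13_9_0_31 : pfC (piC [(nat_lit 42686981), (nat_lit 27030628), (nat_lit 20024807), (nat_lit 13470738)] (nat_lit 28647042)) p13_9_0 (nat_lit 4) (nat_lit 31) (nat_lit 32) = true := by decide +kernel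
def p13_9_0_32 : pfC (piC [(nat_lit 42686981), (nat_lit 27030628), (nat_lit 20024807), (nat_lit 13470738)] (nat_lit 28647042)) p13_9_0 (nat_lit 4) (nat_lit 32) (nat_lit 33) = true := by decide +kernel
def p13_9_0_33 : pfC (piC [(nat_lit 42686981), (nat_lit 27030628), (nat_lit 20024807), (nat_lit 13470738)] (nat_lit 28647042)) p13_9_0 (nat_lit 4) (nat_lit 33) (nat_lit 34) = true := by decide +kernel
def p13_9_0_34 : pfC (piC [(nat_lit 42686981), (nat_lit 27030628), (nat_lit 20024807), (nat_lit 13470738)] (nat_lit 28647042)) p13_9_0 (nat_lit 4) (nat_lit 34) (nat_lit 35) = true := by decide +kernel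
def p13_9_0_35 : pfC (piC [(nat_lit 42686981), (nat_lit 27030628), (nat_lit 20024807), (nat_lit 13470738)] (nat_lit 28647042)) p13_9_0 (nat_lit 4) (nat_lit 35) (nat_lit 36) = true := by decide +kernel
def p13_9_0_36 : pfC (piC [(nat_lit 42686981), (nat_lit 27030628), (nat_lit 20024807), (nat_lit 13470738)] (nat_lit 28647042)) p13_9_0 (nat_lit 4) (nat_lit 36) (nat_lit 37) = true := by decide +kernel
def p13_9_0_37 : pfC (piC [(nat_lit 42686981), (nat_lit 27030628), (nat_lit 20024807), (nat_lit 13470738)] (nat_lit 28647042)) p13_9_0 (nat_lit 4) (nat_lit 37) (nat_lit 38) = true := by decide +kernel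
def p13_9_0_38 : pfC (piC [(nat_lit 42686981), (nat_lit 27030628), (nat_lit 20024807), (nat_lit 13470738)] (nat_lit 28647042)) p13_9_0 (nat_lit 4) (nat_lit 38) (nat_lit 39) = true := by decide +kernel
def p13_9_0_39 : pfC (piC [(nat_lit 42686981), (nat_lit 27030628), (nat_lit 20024807), (nat_lit 13470738)] (nat_lit 28647042)) p13_9_0 (nat_lit 4) (nat_lit 39) (nat_lit 40) = true := by decide +kernel
def p13_9_0_40 : pfC (piC [(nat_lit 42686981), (nat_lit 27030628), (nat_lit 20024807), (nat_lit 13470738)] (nat_lit 28647042)) p13_9_0 (nat_lit 4) (nat_lit 40) (nat_lit 41) = true := by decide +kernel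
def p13_9_0_41 : pfC (piC [(nat_lit 42686981), (nat_lit 27030628), (nat_lit 20024807), (nat_lit 13470738)] (nat_lit 28647042)) p13_9_0 (nat_lit 4) (nat_lit 41) (nat_lit 42) = true := by decide +kernel
def p13_9_0_42 : pfC (piC [(nat_lit 42686981), (nat_lit 27030628), (nat_lit 20024807), (nat_lit 13470738)] (nat_lit 28647042)) p13_9_0 (nat_lit 4) (nat_lit 42) (nat_lit 43) = true := by decide +kernel
def p13_9_0_43 : pfC (piC [(nat_lit 42686981), (nat_lit 27030628), (nat_lit 20024807), (nat_lit 13470738)] (nat_lit 28647042)) p13_9_0 (nat_lit 4) (nat_lit 43) (nat_lit 44) = true := by decide +kernel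
def p13_9_0_44 : pfC (piC [(nat_lit 42686981), (nat_lit 27030628), (nat_lit 20024807), (nat_lit 13470738)] (nat_lit 28647042)) p13_9_0 (nat_lit 4) (nat_lit 44) (nat_lit 45) = true := by decide +kernel
def p13_9_0_45 : pfC (piC [(nat_lit 42686981), (nat_lit 27030628), (nat_lit 20024807), (nat_lit 13470738)] (nat_lit 28647042)) p13_9_0 (nat_lit 4) (nat_lit 45) (nat_lit 46) = true := by decide +kernel
def p13_9_0_46 : pfC (piC [(nat_lit 42686981), (nat_lit 27030628), (nat_lit 20024807), (nat_lit 13470738)] (nat_lit 28647042)) p13_9_0 (nat_lit 4) (nat_lit 46) (nat_lit 47) = true := by decide +kernel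
def p13_9_0_47 : pfC (piC [(nat_lit 42686981), (nat_lit 27030628), (nat_lit 20024807), (nat_lit 13470738)] (nat_lit 28647042)) p13_9_0 (nat_lit 4) (nat_lit 47) (nat_lit 48) = true := by decide +kernel
def p13_9_0_48 : pfC (piC [(nat_lit 42686981), (nat_lit 27030628), (nat_lit 20024807), (nat_lit 13470738)] (nat_lit 28647042)) p13_9_0 (nat_lit 4) (nat_lit 48) (nat_lit 49) = true := by decide +kernel
def p13_9_0_49 : pfC (piC [(nat_lit 42686981), (nat_lit 27030628), (nat_lit 20024807), (nat_lit 13470738)] (nat_lit 28647042)) p13_9_0 (nat_lit 4) (nat_lit 49) (nat_lit 50) = true := by decide +kernel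
def p13_9_0_50 : pfC (piC [(nat_lit 42686981), (nat_lit 27030628), (nat_lit 20024807), (nat_lit 13470738)] (nat_lit 28647042)) p13_9_0 (nat_lit 4) (nat_lit 50) (nat_lit 51) = true := by decide +kernel
def p13_9_0_51 : pfC (piC [(nat_lit 42686981), (nat_lit 27030628), (nat_lit 20024807), (nat_lit 13470738)] (nat_lit 28647042)) p13_9_0 (nat_lit 4) (nat_lit 51) (nat_lit 52) = true := by decide +kernel
def p13_9_0_52 : pfC (piC [(nat_lit 42686981), (nat_lit 27030628), (nat_lit 20024807), (nat_lit 13470738)] (nat_lit 28647042)) p13_9_0 (nat_lit 4) (nat_lit 52) (nat_lit 53) = true := by decide +kernel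
def p13_9_0_53 : pfC (piC [(nat_lit 42686981), (nat_lit 27030628), (nat_lit 20024807), (nat_lit 13470738)] (nat_lit 28647042)) p13_9_0 (nat_lit 4) (nat_lit 53) (nat_lit 54) = true := by decide +kernel
def p13_9_0_54 : pfC (piC [(nat_lit 42686981), (nat_lit 27030628), (nat_lit 20024807), (nat_lit 13470738)] (nat_lit 28647042)) p13_9_0 (nat_lit 4) (nat_lit 54) (nat_lit 55) = true := by decide +kernel
def p13_9_0_55 : pfC (piC [(nat_lit 42686981), (nat_lit 27030628), (nat_lit 20024807), (nat_lit 13470738)] (nat_lit 28647042)) p13_9_0 (nat_lit 4) (nat_lit 55) (nat_lit 56) = true := by decide +kernel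
def p13_9_0_56 : pfC (piC [(nat_lit 42686981), (nat_lit 27030628), (nat_lit 20024807), (nat_lit 13470738)] (nat_lit 28647042)) p13_9_0 (nat_lit 4) (nat_lit 56) (nat_lit 57) = true := by decide +kernel
def p13_9_0_57 : pfC (piC [(nat_lit 42686981), (nat_lit 27030628), (nat_lit 20024807), (nat_lit 13470738)] (nat_lit 28647042)) p13_9_0 (nat_lit 4) (nat_lit 57) (nat_lit 58) = true := by decide +kernel
def p13_9_0_58 : pfC (piC [(nat_lit 42686981), (nat_lit 27030628), (nat_lit 20024807), (nat_lit 13470738)] (nat_lit 28647042)) p13_9_0 (nat_lit 4) (nat_lit 58) (nat_lit 59) = true := by decide +kernel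
def p13_9_0_59 : pfC (piC [(nat_lit 42686981), (nat_lit 27030628), (nat_lit 20024807), (nat_lit 13470738)] (nat_lit 28647042)) p13_9_0 (nat_lit 4) (nat_lit 59) (nat_lit 60) = true := by decide +kernel
def p13_9_0_60 : pfC (piC [(nat_lit 42686981), (nat_lit 27030628), (nat_lit 20024807), (nat_lit 13470738)] (nat_lit 28647042)) p13_9_0 (nat_lit 4) (nat_lit 60) (nat_lit 61) = true := by decide +kernel
def p13_9_0_61 : pfC (piC [(nat_lit 42686981), (nat_lit 27030628), (nat_lit 20024807), (nat_lit 13470738)] (nat_lit 28647042)) p13_9_0 (nat_lit 4) (nat_lit 61) (nat_lit 62) = true := by decide +kernel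
def p13_9_0_62 : pfC (piC [(nat_lit 42686981), (nat_lit 27030628), (nat_lit 20024807), (nat_lit 13470738)] (nat_lit 28647042)) p13_9_0 (nat_lit 4) (nat_lit 62) (nat_lit 63) = true := by decide +kernel
def p13_9_0_63 : pfC (piC [(nat_lit 42686981), (nat_lit 27030628), (nat_lit 20024807), (nat_lit 13470738)] (nat_lit 28647042)) p13_9_0 (nat_lit 4) (nat_lit 63) (nat_lit 64) = true := by decide +kernel
def p13_9_0_64 : pfC (piC [(nat_lit 42686981), (nat_lit 27030628), (nat_lit 20024807), (nat_lit 13470738)] (nat_lit 28647042)) p13_9_0 (nat_lit 4) (nat_lit 64) (nat_lit 65) = true := by decide +kernel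
def p13_9_0_65 : pfC (piC [(nat_lit 42686981), (nat_lit 27030628), (nat_lit 20024807), (nat_lit 13470738)] (nat_lit 28647042)) p13_9_0 (nat_lit 4) (nat_lit 65) (nat_lit 66) = true := by decide +kernel
def p13_9_0_66 : pfC (piC [(nat_lit 42686981), (nat_lit 27030628), (nat_lit 20024807), (nat_lit 13470738)] (nat_lit 28647042)) p13_9_0 (nat_lit 4) (nat_lit 66) (nat_lit 67) = true := by decide +kernel
def p13_9_0_67 : pfC (piC [(nat_lit 42686981), (nat_lit 27030628), (nat_lit 20024807), (nat_lit 13470738)] (nat_lit 28647042)) p13_9_0 (nat_lit 4) (nat_lit 67) (nat_lit 68) = true := by decide +kernel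
def p13_9_0_68 : pfC (piC [(nat_lit 42686981), (nat_lit 27030628), (nat_lit 20024807), (nat_lit 13470738)] (nat_lit 28647042)) p13_9_0 (nat_lit 4) (nat_lit 68) (nat_lit 69) = true := by decide +kernel
def p13_9_0_69 : pfC (piC [(nat_lit 42686981), (nat_lit 27030628), (nat_lit 20024807), (nat_lit 13470738)] (nat_lit 28647042)) p13_9_0 (nat_lit 4) (nat_lit 69) (nat_lit 70) = true := by decide +kernel
def p13_9_0_70 : pfC (piC [(nat_lit 42686981), (nat_lit 27030628), (nat_lit 20024807), (nat_lit 13470738)] (nat_lit 28647042)) p13_9_0 (nat_lit 4) (nat_lit 70) (nat_lit 71) = true := by decide +kernel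
def p13_9_0_71 : pfC (piC [(nat_lit 42686981), (nat_lit 27030628), (nat_lit 20024807), (nat_lit 13470738)] (nat_lit 28647042)) p13_9_0 (nat_lit 4) (nat_lit 71) (nat_lit 72) = true := by decide +kernel
def p13_9_0_72 : pfC (piC [(nat_lit 42686981), (nat_lit 27030628), (nat_lit 20024807), (nat_lit 13470738)] (nat_lit 28647042)) p13_9_0 (nat_lit 4) (nat_lit 72) (nat_lit 73) = true := by decide +kernel
def p13_9_0_73 : pfC (piC [(nat_lit 42686981), (nat_lit 27030628), (nat_lit 20024807), (nat_lit 13470738)] (nat_lit 28647042)) p13_9_0 (nat_lit 4) (nat_lit 73) (nat_lit 74) = true := by decide +kernel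
def p13_9_0_74 : pfC (piC [(nat_lit 42686981), (nat_lit 27030628), (nat_lit 20024807), (nat_lit 13470738)] (nat_lit 28647042)) p13_9_0 (nat_lit 4) (nat_lit 74) (nat_lit 75) = true := by decide +kernel
def p13_9_0_75 : pfC (piC [(nat_lit 42686981), (nat_lit 27030628), (nat_lit 20024807), (nat_lit 13470738)] (nat_lit 28647042)) p13_9_0 (nat_lit 4) (nat_lit 75) (nat_lit 76) = true := by decide +kernel
def p13_9_0_76 : pfC (piC [(nat_lit 42686981), (nat_lit 27030628), (nat_lit 20024807), (nat_lit 13470738)] (nat_lit 28647042)) p13_9_0 (nat_lit 4) (nat_lit 76) (nat_lit 77) = true := by decide +kernel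
def p13_9_0_77 : pfC (piC [(nat_lit 42686981), (nat_lit 27030628), (nat_lit 20024807), (nat_lit 13470738)] (nat_lit 28647042)) p13_9_0 (nat_lit 4) (nat_lit 77) (nat_lit 78) = true := by decide +kernel
def p13_9_0_78 : pfC (piC [(nat_lit 42686981), (nat_lit 27030628), (nat_lit 20024807), (nat_lit 13470738)] (nat_lit 28647042)) p13_9_0 (nat_lit 4) (nat_lit 78) (nat_lit 79) = true := by decide +kernel
def p13_9_0_79 : pfC (piC [(nat_lit 42686981), (nat_lit 27030628), (nat_lit 20024807), (nat_lit 13470738)] (nat_lit 28647042)) p13_9_0 (nat_lit 4) (nat_lit 79) (nat_lit 80) = true := by decide +kernel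
def p13_9_0_80 : pfC (piC [(nat_lit 42686981), (nat_lit 27030628), (nat_lit 20024807), (nat_lit 13470738)] (nat_lit 28647042)) p13_9_0 (nat_lit 4) (nat_lit 80) (nat_lit 81) = true := by decide +kernel
def p13_9_0_81 : pfC (piC [(nat_lit 42686981), (nat_lit 27030628), (nat_lit 20024807), (nat_lit 13470738)] (nat_lit 28647042)) p13_9_0 (nat_lit 4) (nat_lit 81) (nat_lit 82) = true := by decide +kernel
def p13_9_0_82 : pfC (piC [(nat_lit 42686981), (nat_lit 27030628), (nat_lit 20024807), (nat_lit 13470738)] (nat_lit 28647042)) p13_9_0 (nat_lit 4) (nat_lit 82) (nat_lit 83) = true := by decide +kernel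
def p13_9_0_83 : pfC (piC [(nat_lit 42686981), (nat_lit 27030628), (nat_lit 20024807), (nat_lit 13470738)] (nat_lit 28647042)) p13_9_0 (nat_lit 4) (nat_lit 83) (nat_lit 84) = true := by decide +kernel
def p13_9_0_84 : pfC (piC [(nat_lit 42686981), (nat_lit 27030628), (nat_lit 20024807), (nat_lit 13470738)] (nat_lit 28647042)) p13_9_0 (nat_lit 4) (nat_lit 84) (nat_lit 85) = true := by decide +kernel
def p13_9_0_85 : pfC (piC [(nat_lit 42686981), (nat_lit 27030628), (nat_lit 20024807), (nat_lit 13470738)] (nat_lit 28647042)) p13_9_0 (nat_lit 4) (nat_lit 85) (nat_lit 86) = true := by decide +kernel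
def p13_9_0_86 : pfC (piC [(nat_lit 42686981), (nat_lit 27030628), (nat_lit 20024807), (nat_lit 13470738)] (nat_lit 28647042)) p13_9_0 (nat_lit 4) (nat_lit 86) (nat_lit 87) = true := by decide +kernel
def p13_9_0_87 : pfC (piC [(nat_lit 42686981), (nat_lit 27030628), (nat_lit 20024807), (nat_lit 13470738)] (nat_lit 28647042)) p13_9_0 (nat_lit 4) (nat_lit 87) (nat_lit 88) = true := by decide +kernel
def p13_9_0_88 : pfC (piC [(nat_lit 42686981), (nat_lit 27030628), (nat_lit 20024807), (nat_lit 13470738)] (nat_lit 28647042)) p13_9_0 (nat_lit 4) (nat_lit 88) (nat_lit 89) = true := by decide +kernel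
def p13_9_0_89 : pfC (piC [(nat_lit 42686981), (nat_lit 27030628), (nat_lit 20024807), (nat_lit 13470738)] (nat_lit 28647042)) p13_9_0 (nat_lit 4) (nat_lit 89) (nat_lit 90) = true := by decide +kernel
def p13_9_0_90 : pfC (piC [(nat_lit 42686981), (nat_lit 27030628), (nat_lit 20024807), (nat_lit 13470738)] (nat_lit 28647042)) p13_9_0 (nat_lit 4) (nat_lit 90) (nat_lit 91) = true := by decide +kernel
def p13_9_0_91 : pfC (piC [(nat_lit 42686981), (nat_lit 27030628), (nat_lit 20024807), (nat_lit 13470738)] (nat_lit 28647042)) p13_9_0 (nat_lit 4) (nat_lit 91) (nat_lit 92) = true := by decide +kernel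
def p13_9_0_92 : pfC (piC [(nat_lit 42686981), (nat_lit 27030628), (nat_lit 20024807), (nat_lit 13470738)] (nat_lit 28647042)) p13_9_0 (nat_lit 4) (nat_lit 92) (nat_lit 93) = true := by decide +kernel
def p13_9_0_93 : pfC (piC [(nat_lit 42686981), (nat_lit 27030628), (nat_lit 20024807), (nat_lit 13470738)] (nat_lit 28647042)) p13_9_0 (nat_lit 4) (nat_lit 93) (nat_lit 94) = true := by decide +kernel
def p13_9_0_94 : pfC (piC [(nat_lit 42686981), (nat_lit 27030628), (nat_lit 20024807), (nat_lit 13470738)] (nat_lit 28647042)) p13_9_0 (nat_lit 4) (nat_lit 94) (nat_lit 95) = true := by decide +kernel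
def p13_9_0_95 : pfC (piC [(nat_lit 42686981), (nat_lit 27030628), (nat_lit 20024807), (nat_lit 13470738)] (nat_lit 28647042)) p13_9_0 (nat_lit 4) (nat_lit 95) (nat_lit 96) = true := by decide +kernel
def p13_9_0_96 : pfC (piC [(nat_lit 42686981), (nat_lit 27030628), (nat_lit 20024807), (nat_lit 13470738)] (nat_lit 28647042)) p13_9_0 (nat_lit 4) (nat_lit 96) (nat_lit 97) = true := by decide +kernel
def p13_9_0_97 : pfC (piC [(nat_lit 42686981), (nat_lit 27030628), (nat_lit 20024807), (nat_lit 13470738)] (nat_lit 28647042)) p13_9_0 (nat_lit 4) (nat_lit 97) (nat_lit 98) = true := by decide +kernel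
def p13_9_0_98 : pfC (piC [(nat_lit 42686981), (nat_lit 27030628), (nat_lit 20024807), (nat_lit 13470738)] (nat_lit 28647042)) p13_9_0 (nat_lit 4) (nat_lit 98) (nat_lit 99) = true := by decide +kernel
def p13_9_0_99 : pfC (piC [(nat_lit 42686981), (nat_lit 27030628), (nat_lit 20024807), (nat_lit 13470738)] (nat_lit 28647042)) p13_9_0 (nat_lit 4) (nat_lit 99) (nat_lit 100) = true := by decide +kernel
def p13_9_0_100 : pfC (piC [(nat_lit 42686981), (nat_lit 27030628), (nat_lit 20024807), (nat_lit 13470738)] (nat_lit 28647042)) p13_9_0 (nat_lit 4) (nat_lit 100) (nat_lit 101) = true := by decide +kernel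
def p13_9_0_101 : pfC (piC [(nat_lit 42686981), (nat_lit 27030628), (nat_lit 20024807), (nat_lit 13470738)] (nat_lit 28647042)) p13_9_0 (nat_lit 4) (nat_lit 101) (nat_lit 102) = true := by decide +kernel
def p13_9_0_102 : pfC (piC [(nat_lit 42686981), (nat_lit 27030628), (nat_lit 20024807), (nat_lit 13470738)] (nat_lit 28647042)) p13_9_0 (nat_lit 4) (nat_lit 102) (nat_lit 103) = true := by decide +kernel
def p13_9_0_103 : pfC (piC [(nat_lit 42686981), (nat_lit 27030628), (nat_lit 20024807), (nat_lit 13470738)] (nat_lit 28647042)) p13_9_0 (nat_lit 4) (nat_lit 103) (nat_lit 104) = true := by decide +kernel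
def p13_9_0_104 : pfC (piC [(nat_lit 42686981), (nat_lit 27030628), (nat_lit 20024807), (nat_lit 13470738)] (nat_lit 28647042)) p13_9_0 (nat_lit 4) (nat_lit 104) (nat_lit 105) = true := by decide +kernel
def p13_9_0_105 : pfC (piC [(nat_lit 42686981), (nat_lit 27030628), (nat_lit 20024807), (nat_lit 13470738)] (nat_lit 28647042)) p13_9_0 (nat_lit 4) (nat_lit 105) (nat_lit 106) = true := by decide +kernel
def p13_9_0_106 : pfC (piC [(nat_lit 42686981), (nat_lit 27030628), (nat_lit 20024807), (nat_lit 13470738)] (nat_lit 28647042)) p13_9_0 (nat_lit 4) (nat_lit 106) (nat_lit 107) = true := by decide +kernel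
def p13_9_0_107 : pfC (piC [(nat_lit 42686981), (nat_lit 27030628), (nat_lit 20024807), (nat_lit 13470738)] (nat_lit 28647042)) p13_9_0 (nat_lit 4) (nat_lit 107) (nat_lit 108) = true := by decide +kernel
def p13_9_0_108 : pfC (piC [(nat_lit 42686981), (nat_lit 27030628), (nat_lit 20024807), (nat_lit 13470738)] (nat_lit 28647042)) p13_9_0 (nat_lit 4) (nat_lit 108) (nat_lit 109) = true := by decide +kernel
def p13_9_0_109 : pfC (piC [(nat_lit 42686981), (nat_lit 27030628), (nat_lit 20024807), (nat_lit 13470738)] (nat_lit 28647042)) p13_9_0 (nat_lit 4) (nat_lit 109) (nat_lit 110) = true := by decide +kernel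
def p13_9_0_110 : pfC (piC [(nat_lit 42686981), (nat_lit 27030628), (nat_lit 20024807), (nat_lit 13470738)] (nat_lit 28647042)) p13_9_0 (nat_lit 4) (nat_lit 110) (nat_lit 111) = true := by decide +kernel
def p13_9_0_111 : pfC (piC [(nat_lit 42686981), (nat_lit 27030628), (nat_lit 20024807), (nat_lit 13470738)] (nat_lit 28647042)) p13_9_0 (nat_lit 4) (nat_lit 111) (nat_lit 112) = true := by decide +kernel
def p13_9_0_112 : pfC (piC [(nat_lit 42686981), (nat_lit 27030628), (nat_lit 20024807), (nat_lit 13470738)] (nat_lit 28647042)) p13_9_0 (nat_lit 4) (nat_lit 112) (nat_lit 113) = true := by decide +kernel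
def p13_9_0_113 : pfC (piC [(nat_lit 42686981), (nat_lit 27030628), (nat_lit 20024807), (nat_lit 13470738)] (nat_lit 28647042)) p13_9_0 (nat_lit 4) (nat_lit 113) (nat_lit 114) = true := by decide +kernel
def p13_9_0_114 : pfC (piC [(nat_lit 42686981), (nat_lit 27030628), (nat_lit 20024807), (nat_lit 13470738)] (nat_lit 28647042)) p13_9_0 (nat_lit 4) (nat_lit 114) (nat_lit 115) = true := by decide +kernel
def p13_9_0_115 : pfC (piC [(nat_lit 42686981), (nat_lit 27030628), (nat_lit 20024807), (nat_lit 13470738)] (nat_lit 28647042)) p13_9_0 (nat_lit 4) (nat_lit 115) (nat_lit 116) = true := by decide +kernel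
def p13_9_0_116 : pfC (piC [(nat_lit 42686981), (nat_lit 27030628), (nat_lit 20024807), (nat_lit 13470738)] (nat_lit 28647042)) p13_9_0 (nat_lit 4) (nat_lit 116) (nat_lit 117) = true := by decide +kernel
def p13_9_0_117 : pfC (piC [(nat_lit 42686981), (nat_lit 27030628), (nat_lit 20024807), (nat_lit 13470738)] (nat_lit 28647042)) p13_9_0 (nat_lit 4) (nat_lit 117) (nat_lit 118) = true := by decide +kernel
def p13_9_0_118 : pfC (piC [(nat_lit 42686981), (nat_lit 27030628), (nat_lit 20024807), (nat_lit 13470738)] (nat_lit 28647042)) p13_9_0 (nat_lit 4) (nat_lit 118) (nat_lit 119) = true := by decide +kernel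
def p13_9_0_119 : pfC (piC [(nat_lit 42686981), (nat_lit 27030628), (nat_lit 20024807), (nat_lit 13470738)] (nat_lit 28647042)) p13_9_0 (nat_lit 4) (nat_lit 119) (nat_lit 120) = true := by decide +kernel
def p13_9_0_120 : pfC (piC [(nat_lit 42686981), (nat_lit 27030628), (nat_lit 20024807), (nat_lit 13470738)] (nat_lit 28647042)) p13_9_0 (nat_lit 4) (nat_lit 120) (nat_lit 121) = true := by decide +kernel
def p13_9_0_121 : pfC (piC [(nat_lit 42686981), (nat_lit 27030628), (nat_lit 20024807), (nat_lit 13470738)] (nat_lit 28647042)) p13_9_0 (nat_lit 4) (nat_lit 121) (nat_lit 122) = true := by decide +kernel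
def p13_9_0_122 : pfC (piC [(nat_lit 42686981), (nat_lit 27030628), (nat_lit 20024807), (nat_lit 13470738)] (nat_lit 28647042)) p13_9_0 (nat_lit 4) (nat_lit 122) (nat_lit 123) = true := by decide +kernel
def p13_9_0_123 : pfC (piC [(nat_lit 42686981), (nat_lit 27030628), (nat_lit 20024807), (nat_lit 13470738)] (nat_lit 28647042)) p13_9_0 (nat_lit 4) (nat_lit 123) (nat_lit 124) = true := by decide +kernel
def p13_9_0_124 : pfC (piC [(nat_lit 42686981), (nat_lit 27030628), (nat_lit 20024807), (nat_lit 13470738)] (nat_lit 28647042)) p13_9_0 (nat_lit 4) (nat_lit 124) (nat_lit 125) = true := by decide +kernel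
def p13_9_0_125 : pfC (piC [(nat_lit 42686981), (nat_lit 27030628), (nat_lit 20024807), (nat_lit 13470738)] (nat_lit 28647042)) p13_9_0 (nat_lit 4) (nat_lit 125) (nat_lit 126) = true := by decide +kernel
def p13_9_0_126 : pfC (piC [(nat_lit 42686981), (nat_lit 27030628), (nat_lit 20024807), (nat_lit 13470738)] (nat_lit 28647042)) p13_9_0 (nat_lit 4) (nat_lit 126) (nat_lit 127) = true := by decide +kernel
def p13_9_0_127 : pfC (piC [(nat_lit 42686981), (nat_lit 27030628), (nat_lit 20024807), (nat_lit 13470738)] (nat_lit 28647042)) p13_9_0 (nat_lit 4) (nat_lit 127) (nat_lit 128) = true := by decide +kernel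
def p13_9_0_128 : pfC (piC [(nat_lit 42686981), (nat_lit 27030628), (nat_lit 20024807), (nat_lit 13470738)] (nat_lit 28647042)) p13_9_0 (nat_lit 4) (nat_lit 128) (nat_lit 129) = true := by decide +kernel
def p13_9_0_129 : pfC (piC [(nat_lit 42686981), (nat_lit 27030628), (nat_lit 20024807), (nat_lit 13470738)] (nat_lit 28647042)) p13_9_0 (nat_lit 4) (nat_lit 129) (nat_lit 130) = true := by decide +kernel
theorem p13_9_0_T : PfS (PiF n13_9.reverse (nat_lit 28647042)) p13_9_0 (nat_lit 4) [] 0 :=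
  pftab_of (los := [(nat_lit 42686981), (nat_lit 27030628), (nat_lit 20024807), (nat_lit 13470738)]) (by decide +kernel) (hi := (nat_lit 130)) (PfP.trans (PfP.trans (PfP.trans (PfP.trans (PfP.trans (PfP.trans (PfP.trans (PfP.trans (PfP.trans (PfP.trans (PfP.trans (PfP.trans (PfP.trans (PfP.trans (PfP.trans (PfP.trans (PfP.trans (PfP.trans (PfP.trans (PfP.trans (PfP.trans (PfP.trans (PfP.trans (PfP.trans (PfP.trans (PfP.trans (PfP.trans (PfP.trans (PfP.trans (PfP.trans (PfP.trans (PfP.trans (PfP.trans (PfP.trans (PfP.trans (PfP.trans (PfP.trans (PfP.trans (PfP.trans (PfP.trans (PfP.trans (PfP.trans (PfP.trans (PfP.trans (PfP.trans (PfP.trans (PfP.trans (PfP.trans (PfP.trans (PfP.trans (PfP.trans (PfP.trans (PfP.trans (PfP.trans (PfP.trans (PfP.trans (PfP.trans (PfP.trans (PfP.trans (PfP.trans (PfP.trans (PfP.trans (PfP.trans (PfP.trans (PfP.trans (PfP.trans (PfP.trans (PfP.trans (PfP.trans (PfP.trans (PfP.trans (PfP.trans (PfP.trans (PfP.trans (PfP.trans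 (PfP.trans (PfP.trans (PfP.trans (PfP.trans (PfP.trans (PfP.trans (PfP.trans (PfP.trans (PfP.trans (PfP.trans (PfP.trans (PfP.trans (PfP.trans (PfP.trans (PfP.trans (PfP.trans (PfP.trans (PfP.trans (PfP.trans (PfP.trans (PfP.trans (PfP.trans (PfP.trans (PfP.trans (PfP.trans (PfP.trans (PfP.trans (PfP.trans (PfP.trans (PfP.trans (PfP.trans (PfP.trans (PfP.trans (PfP.trans
 (PfP.trans (PfP.trans (PfP.trans (PfP.trans (PfP.trans (PfP.trans (PfP.trans (PfP.trans (PfP.trans (PfP.trans (PfP.trans (PfP.trans (PfP.trans (PfP.trans (PfP.trans (PfP.trans (PfP.trans (PfP.trans (PfP.trans (PfP.trans (pfC_sound p13_9_0_0) (pfC_sound p13_9_0_1)) (pfC_sound p13_9_0_2)) (pfC_sound p13_9_0_3)) (pfC_sound p13_9_0_4)) (pfC_sound p13_9_0_5)) (pfC_sound p13_9_0_6)) (pfC_sound p13_9_0_7)) (pfC_sound p13_9_0_8)) (pfC_sound p13_9_0_9)) (pfC_sound p13_9_0_10)) (pfC_sound p13_9_0_11)) (pfC_sound p13_9_0_12)) (pfC_sound p13_9_0_13)) (pfC_sound p13_9_0_14)) (pfC_sound p13_9_0_15))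 (pfC_sound p13_9_0_16)) (pfC_sound p13_9_0_17)) (pfC_sound p13_9_0_18)) (pfC_sound p13_9_0_19)) (pfC_sound p13_9_0_20)) (pfC_sound p13_9_0_21)) (pfC_sound p13_9_0_22)) (pfC_sound p13_9_0_23)) (pfC_sound p13_9_0_24)) (pfC_sound p13_9_0_25)) (pfC_sound p13_9_0_26)) (pfC_sound p13_9_0_27)) (pfC_sound p13_9_0_28)) (pfC_sound p13_9_0_29)) (pfC_sound p13_9_0_30)) (pfC_sound p13_9_0_31)) (pfC_sound p13_9_0_32)) (pfC_sound p13_9_0_33)) (pfC_sound p13_9_0_34)) (pfC_sound p13_9_0_35)) (pfC_sound p13_9_0_36)) (pfC_sound p13_9_0_37)) (pfC_sound p13_9_0_38)) (pfC_sound p13_9_0_39)) (pfC_sound p13_9_0_40))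
 (pfC_sound p13_9_0_41)) (pfC_sound p13_9_0_42)) (pfC_sound p13_9_0_43)) (pfC_sound p13_9_0_44)) (pfC_sound p13_9_0_45)) (pfC_sound p13_9_0_46)) (pfC_sound p13_9_0_47)) (pfC_sound p13_9_0_48)) (pfC_sound p13_9_0_49)) (pfC_sound p13_9_0_50)) (pfC_sound p13_9_0_51)) (pfC_sound p13_9_0_52)) (pfC_sound p13_9_0_53)) (pfC_sound p13_9_0_54)) (pfC_sound p13_9_0_55)) (pfC_sound p13_9_0_56)) (pfC_sound p13_9_0_57)) (pfC_sound p13_9_0_58)) (pfC_sound p13_9_0_59)) (pfC_sound p13_9_0_60)) (pfC_sound p13_9_0_61)) (pfC_sound p13_9_0_62)) (pfC_sound p13_9_0_63)) (pfC_sound p13_9_0_64)) (pfC_sound p13_9_0_65)) (pfC_sound p13_9_0_66)) (pfC_sound p13_9_0_67)) (pfC_sound p13_9_0_68)) (pfC_sound p13_9_0_69)) (pfC_sound p13_9_0_70)) (pfC_sound p13_9_0_71)) (pfC_sound p13_9_0_72)) (pfC_sound p13_9_0_73)) (pfC_sound p13_9_0_74)) (pfC_sound p13_9_0_75)) (pfC_sound p13_9_0_76)) (pfC_sound p13_9_0_77)) (pfC_sound p13_9_0_78)) (pfC_sound p13_9_0_79)) (pfC_sound p13_9_0_80)) (pfC_sound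 p13_9_0_81)) (pfC_sound p13_9_0_82)) (pfC_sound p13_9_0_83)) (pfC_sound p13_9_0_84)) (pfC_sound p13_9_0_85)) (pfC_sound p13_9_0_86)) (pfC_sound p13_9_0_87)) (pfC_sound p13_9_0_88)) (pfC_sound p13_9_0_89)) (pfC_sound p13_9_0_90))
 (pfC_sound p13_9_0_91)) (pfC_sound p13_9_0_92)) (pfC_sound p13_9_0_93)) (pfC_sound p13_9_0_94)) (pfC_sound p13_9_0_95)) (pfC_sound p13_9_0_96)) (pfC_sound p13_9_0_97)) (pfC_sound p13_9_0_98)) (pfC_sound p13_9_0_99)) (pfC_sound p13_9_0_100)) (pfC_sound p13_9_0_101)) (pfC_sound p13_9_0_102)) (pfC_sound p13_9_0_103)) (pfC_sound p13_9_0_104)) (pfC_sound p13_9_0_105)) (pfC_sound p13_9_0_106)) (pfC_sound p13_9_0_107)) (pfC_sound p13_9_0_108)) (pfC_sound p13_9_0_109)) (pfC_sound p13_9_0_110)) (pfC_sound p13_9_0_111)) (pfC_sound p13_9_0_112)) (pfC_sound p13_9_0_113)) (pfC_sound p13_9_0_114)) (pfC_sound p13_9_0_115)) (pfC_sound p13_9_0_116)) (pfC_sound p13_9_0_117)) (pfC_sound p13_9_0_118)) (pfC_sound p13_9_0_119)) (pfC_sound p13_9_0_120))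 (pfC_sound p13_9_0_121)) (pfC_sound p13_9_0_122)) (pfC_sound p13_9_0_123)) (pfC_sound p13_9_0_124)) (pfC_sound p13_9_0_125)) (pfC_sound p13_9_0_126)) (pfC_sound p13_9_0_127)) (pfC_sound p13_9_0_128)) (pfC_sound p13_9_0_129)) (by decide +kernel)

def z13_9_0 : zOK yB13_9 (nat_lit 0) (nat_lit 0) (nat_lit 400) (nat_lit 28647042) (nat_lit 10555529) = true := by decide +kernel
def g13_9_0 : gOK yB13_9.x P13_9 (nat_lit 1427) (q13_9 :: r13_9) (nat_lit 0) (nat_lit 0) (nat_lit 1) (nat_lit 400) (nat_lit 0) (nat_lit 11000000) (nat_lit 12712500) (nat_lit 12712500) [(nat_lit 800), (nat_lit 1400), (nat_lit 1530)] = true := by decide +kernel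
def v13_9_0 : ivC P13_9 s13_9 w13_9 n13_9 (nat_lit 4) (nat_lit 5480) (nat_lit 0) (nat_lit 0) f144_1_0 f152_1_0 (nat_lit 1) (nat_lit 400) f144_1_400 f152_1_400 (nat_lit 28647042) (nat_lit 10555529) p13_9_0 = true := by decide +kernel
def p13_9_1 : PF := (PF.cons (PF.cons (PF.cons (PF.cons (PF.leaf (nat_lit 2089105) (nat_lit 9878423) (nat_lit 57230389) (nat_lit 9878423) [(nat_lit 0), (nat_lit 0), (nat_lit 0), (nat_lit 0)]) (PF.cons (PF.leaf (nat_lit 2206479) (nat_lit 190432) (nat_lit 57023863) (nat_lit 9894517) [(nat_lit 190432), (nat_lit 0), (nat_lit 0), (nat_lit 0)]) (PF.cons (PF.leaf (nat_lit 2348142) (nat_lit 207488) (nat_lit 56781418) (nat_lit 9912416) [(nat_lit 207488), (nat_lit 0), (nat_lit 0), (nat_lit 0)]) (PF.cons (PF.leaf (nat_lit 2507718) (nat_lit 222784) (nat_lit 56509174) (nat_lit 9931284) [(nat_lit 222784), (nat_lit 0), (nat_lit 0), (nat_lit 0)]) (PF.cons (PF.leaf (nat_lit 2682797) (nat_lit 236731) (nat_lit 56211406) (nat_lit 9950480)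 [(nat_lit 236731), (nat_lit 0), (nat_lit 0), (nat_lit 0)]) (PF.cons (PF.leaf (nat_lit 2871920) (nat_lit 249590) (nat_lit 55891368) (nat_lit 9969489) [(nat_lit 249590), (nat_lit 0), (nat_lit 0), (nat_lit 0)]) (PF.cons PF.nil (PF.cons PF.nil (PF.cons PF.nil PF.nil))))))))) (PF.cons (PF.cons (PF.leaf (nat_lit 2571116) (nat_lit 1051265) (nat_lit 56105433) (nat_lit 9952114) [(nat_lit 0), (nat_lit 1051265), (nat_lit 0), (nat_lit 0)]) (PF.cons (PF.leaf (nat_lit 2728067) (nat_lit 234717)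
 (nat_lit 55829988) (nat_lit 9968049) [(nat_lit 234717), (nat_lit 1076057), (nat_lit 0), (nat_lit 0)]) (PF.cons (PF.leaf (nat_lit 2903530) (nat_lit 248085) (nat_lit 55527606) (nat_lit 9984175) [(nat_lit 248085), (nat_lit 1100860), (nat_lit 0), (nat_lit 0)]) (PF.cons (PF.leaf (nat_lit 3093235) (nat_lit 260353) (nat_lit 55202536) (nat_lit 9999962) [(nat_lit 260353), (nat_lit 1125254), (nat_lit 0), (nat_lit 0)]) (PF.cons (PF.leaf (nat_lit 3295694) (nat_lit 271722) (nat_lit 54857924) (nat_lit 10014995) [(nat_lit 271722), (nat_lit 1149003), (nat_lit 0), (nat_lit 0)]) (PF.cons PF.nil (PF.cons PF.nil PF.nil))))))) (PF.cons (PF.cons (PF.leaf (nat_lit 3129910) (nat_lit 1137538) (nat_lit 54822168) (nat_lit 10011567) [(nat_lit 0), (nat_lit 1137538), (nat_lit 0), (nat_lit 0)]) (PF.cons (PF.leaf (nat_lit 3317296) (nat_lit 269775) (nat_lit 54496377) (nat_lit 10024023) [(nat_lit 269775), (nat_lit 1159318), (nat_lit 0), (nat_lit 0)]) (PF.cons (PF.leaf (nat_lit 3519352)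 (nat_lit 280735) (nat_lit 54150260) (nat_lit 10035649) [(nat_lit 280735), (nat_lit 1180716), (nat_lit 0), (nat_lit 0)]) (PF.cons PF.nil (PF.cons PF.nil PF.nil))))) (PF.cons (PF.cons (PF.leaf (nat_lit 3746161) (nat_lit 1209586)
 (nat_lit 53430179) (nat_lit 10049875) [(nat_lit 0), (nat_lit 1209586), (nat_lit 0), (nat_lit 0)]) (PF.cons (PF.leaf (nat_lit 3957353) (nat_lit 298522) (nat_lit 53068061) (nat_lit 10056945) [(nat_lit 298522), (nat_lit 1228427), (nat_lit 0), (nat_lit 0)]) (PF.cons PF.nil (PF.cons PF.nil PF.nil)))) (PF.cons (PF.cons (PF.leaf (nat_lit 4404949) (nat_lit 1269523) (nat_lit 51966825) (nat_lit 10063895) [(nat_lit 0), (nat_lit 1269523), (nat_lit 0), (nat_lit 0)]) (PF.cons PF.nil PF.nil)) (PF.cons PF.nil PF.nil)))))) (PF.cons (PF.cons (PF.cons (PF.leaf (nat_lit 3130259) (nat_lit 2943696) (nat_lit 54156508) (nat_lit 10008608) [(nat_lit 0), (nat_lit 0), (nat_lit 2943696), (nat_lit 0)]) (PF.cons (PF.leaf (nat_lit 3297297) (nat_lit 255857)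 (nat_lit 53867926) (nat_lit 10017495) [(nat_lit 255857), (nat_lit 0), (nat_lit 2967533), (nat_lit 0)]) (PF.cons (PF.leaf (nat_lit 3482007) (nat_lit 268657) (nat_lit 53553540) (nat_lit 10025916) [(nat_lit 268657), (nat_lit 0), (nat_lit 2992040), (nat_lit 0)]) (PF.cons (PF.leaf (nat_lit 3680456) (nat_lit 280228) (nat_lit 53217970) (nat_lit 10033492) [(nat_lit 280228), (nat_lit 0), (nat_lit 3016663), (nat_lit 0)]) (PF.cons PF.nil PF.nil))))) (PF.cons (PF.cons
 (PF.leaf (nat_lit 3708122) (nat_lit 1199857) (nat_lit 52839458) (nat_lit 10035622) [(nat_lit 0), (nat_lit 1199857), (nat_lit 3033873), (nat_lit 0)]) (PF.cons (PF.leaf (nat_lit 3903031) (nat_lit 287776) (nat_lit 52506660) (nat_lit 10040179) [(nat_lit 287776), (nat_lit 1218511), (nat_lit 3055684), (nat_lit 0)]) (PF.cons (PF.leaf (nat_lit 4111627) (nat_lit 298058) (nat_lit 52155045) (nat_lit 10043551) [(nat_lit 298058), (nat_lit 1236737), (nat_lit 3077363), (nat_lit 0)]) (PF.cons PF.nil PF.nil))))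 (PF.cons (PF.cons (PF.leaf (nat_lit 4334984) (nat_lit 1259762) (nat_lit 51438035) (nat_lit 10041372) [(nat_lit 0), (nat_lit 1259762), (nat_lit 3109879), (nat_lit 0)]) (PF.cons (PF.leaf (nat_lit 4551089) (nat_lit 313550) (nat_lit 51074735) (nat_lit 10040402) [(nat_lit 313550), (nat_lit 1275725), (nat_lit 3128672), (nat_lit 0)]) PF.nil)) (PF.cons PF.nil (PF.cons PF.nil PF.nil))))) (PF.cons (PF.cons (PF.cons (PF.leaf (nat_lit 4279992) (nat_lit 3105503) (nat_lit 50881177) (nat_lit 10016628) [(nat_lit 0), (nat_lit 0), (nat_lit 3105503), (nat_lit 0)]) (PF.cons (PF.leaf (nat_lit 4480075) (nat_lit 302444) (nat_lit 50546882) (nat_lit 10014160) [(nat_lit 302444), (nat_lit 0), (nat_lit 3122662),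
 (nat_lit 0)]) (PF.cons (PF.leaf (nat_lit 4693223) (nat_lit 312089) (nat_lit 50195213) (nat_lit 10010274) [(nat_lit 312089), (nat_lit 0), (nat_lit 3139572), (nat_lit 0)]) (PF.cons PF.nil PF.nil)))) (PF.cons (PF.cons (PF.leaf (nat_lit 4911637) (nat_lit 1298108) (nat_lit 49490161) (nat_lit 9994248) [(nat_lit 0), (nat_lit 1298108), (nat_lit 3163147), (nat_lit 0)]) (PF.cons PF.nil PF.nil)) (PF.cons PF.nil PF.nil))) (PF.cons (PF.cons (PF.cons (PF.leaf (nat_lit 5473446) (nat_lit 3197036) (nat_lit 47602058) (nat_lit 9915645) [(nat_lit 0), (nat_lit 0), (nat_lit 3197036), (nat_lit 0)]) (PF.cons PF.nil PF.nil)) (PF.cons PF.nil PF.nil)) (PF.cons PF.nil (PF.cons PF.nil PF.nil)))))) (PF.cons (PF.cons (PF.cons (PF.cons (PF.leaf (nat_lit 4107430) (nat_lit 8174010) (nat_lit 49089048) (nat_lit 9845753) [(nat_lit 0), (nat_lit 0), (nat_lit 0), (nat_lit 8174010)]) (PF.cons (PF.leaf (nat_lit 4276028) (nat_lit 269501) (nat_lit 48820765) (nat_lit 9842019) [(nat_lit 269501),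 (nat_lit 0), (nat_lit 0), (nat_lit 8176526)]) (PF.cons (PF.leaf (nat_lit 4461464) (nat_lit 281839) (nat_lit 48529718) (nat_lit 9837067) [(nat_lit 281839), (nat_lit 0), (nat_lit 0), (nat_lit 8178347)]) (PF.cons (PF.leaf (nat_lit
 4659521) (nat_lit 292791) (nat_lit 48220360) (nat_lit 9830801) [(nat_lit 292791), (nat_lit 0), (nat_lit 0), (nat_lit 8179277)]) (PF.cons (PF.leaf (nat_lit 4868369) (nat_lit 302646) (nat_lit 47895918) (nat_lit 9823141) [(nat_lit 302646), (nat_lit 0), (nat_lit 0), (nat_lit 8179167)]) (PF.cons PF.nil (PF.cons PF.nil PF.nil))))))) (PF.cons (PF.cons (PF.leaf (nat_lit 4674808) (nat_lit 1237377) (nat_lit 47878462) (nat_lit 9818509) [(nat_lit 0), (nat_lit 1237377), (nat_lit 0), (nat_lit 8174464)]) (PF.cons (PF.leaf (nat_lit 4868255) (nat_lit 298481) (nat_lit 47573999) (nat_lit 9810291) [(nat_lit 298481), (nat_lit 1252680), (nat_lit 0), (nat_lit 8173360)]) (PF.cons (PF.leaf (nat_lit 5074332) (nat_lit 308050) (nat_lit 47253482) (nat_lit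 9800622) [(nat_lit 308050), (nat_lit 1267416), (nat_lit 0), (nat_lit 8171191)]) (PF.cons (PF.leaf (nat_lit 5290186) (nat_lit 316694) (nat_lit 46919915) (nat_lit 9789469) [(nat_lit 316694), (nat_lit 1281482), (nat_lit 0), (nat_lit 8167861)]) (PF.cons PF.nil PF.nil))))) (PF.cons (PF.cons (PF.leaf (nat_lit 5281922) (nat_lit 1283678) (nat_lit 46608104) (nat_lit 9774015) [(nat_lit 0), (nat_lit 1283678), (nat_lit 0), (nat_lit 8159336)]) (PF.cons (PF.leaf (nat_lit
 5493604) (nat_lit 321036) (nat_lit 46280052) (nat_lit 9761021) [(nat_lit 321036), (nat_lit 1296302), (nat_lit 0), (nat_lit 8154098)]) (PF.cons (PF.leaf (nat_lit 5715073) (nat_lit 328684) (nat_lit 45940648) (nat_lit 9746500) [(nat_lit 328684), (nat_lit 1308332), (nat_lit 0), (nat_lit 8147630)]) (PF.cons PF.nil PF.nil)))) (PF.cons (PF.cons (PF.leaf (nat_lit 5916095) (nat_lit 1320325) (nat_lit 45306658) (nat_lit 9712628) [(nat_lit 0), (nat_lit 1320325), (nat_lit 0), (nat_lit 8128547)]) (PF.cons PF.nil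 PF.nil)) (PF.cons PF.nil PF.nil))))) (PF.cons (PF.cons (PF.cons (PF.leaf (nat_lit 5206466) (nat_lit 3115304) (nat_lit 46127120) (nat_lit 9735621) [(nat_lit 0), (nat_lit 0), (nat_lit 3115304), (nat_lit 8130766)]) (PF.cons (PF.leaf (nat_lit 5402905) (nat_lit 309098) (nat_lit 45825659) (nat_lit 9722708) [(nat_lit 309098), (nat_lit 0), (nat_lit 3126236), (nat_lit 8125110)]) (PF.cons (PF.leaf (nat_lit 5611352) (nat_lit 318047) (nat_lit 45509412) (nat_lit 9708240) [(nat_lit 318047), (nat_lit 0), (nat_lit 3136788), (nat_lit 8118276)]) (PF.cons (PF.leaf (nat_lit 5828940) (nat_lit 326054) (nat_lit 45181357) (nat_lit 9692251) [(nat_lit 326054), (nat_lit 0), (nat_lit 3146806), (nat_lit 8110231)])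
 (PF.cons PF.nil PF.nil))))) (PF.cons (PF.cons (PF.leaf (nat_lit 5813187) (nat_lit 1307118) (nat_lit 44882103) (nat_lit 9673004) [(nat_lit 0), (nat_lit 1307118), (nat_lit 3148681), (nat_lit 8097904)]) (PF.cons (PF.leaf (nat_lit 6026111) (nat_lit 329330) (nat_lit 44560757) (nat_lit 9655555) [(nat_lit 329330), (nat_lit 1317724), (nat_lit 3157134), (nat_lit 8088310)]) (PF.cons PF.nil (PF.cons PF.nil PF.nil)))) (PF.cons (PF.cons (PF.leaf (nat_lit 6442370) (nat_lit 1336678) (nat_lit 43617115) (nat_lit 9595417) [(nat_lit 0), (nat_lit 1336678), (nat_lit 3171794), (nat_lit 8051128)]) (PF.cons PF.nil PF.nil)) PF.nil))) (PF.cons (PF.cons (PF.cons (PF.leaf (nat_lit 6329125) (nat_lit 3157123) (nat_lit 43222868) (nat_lit 9553599) [(nat_lit 0), (nat_lit 0), (nat_lit 3157123), (nat_lit 8018098)]) (PF.cons (PF.leaf (nat_lit 6542202) (nat_lit 335693) (nat_lit 42910123) (nat_lit 9532484) [(nat_lit 335693), (nat_lit 0), (nat_lit 3162815), (nat_lit 8004881)]) PF.nil))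 (PF.cons PF.nil PF.nil)) (PF.cons PF.nil (PF.cons PF.nil PF.nil))))) (PF.cons (PF.cons (PF.cons (PF.cons (PF.leaf (nat_lit 6029898) (nat_lit 7866772) (nat_lit 42000698) (nat_lit 9374570) [(nat_lit 0), (nat_lit 0), (nat_lit 0), (nat_lit
 7866772)]) (PF.cons (PF.leaf (nat_lit 6221059) (nat_lit 310241) (nat_lit 41732274) (nat_lit 9355860) [(nat_lit 310241), (nat_lit 0), (nat_lit 0), (nat_lit 7855218)]) (PF.cons (PF.leaf (nat_lit 6423433) (nat_lit 318575) (nat_lit 41451193) (nat_lit 9335581) [(nat_lit 318575), (nat_lit 0), (nat_lit 0), (nat_lit 7842443)]) (PF.cons (PF.leaf (nat_lit 6634174) (nat_lit 325944) (nat_lit 41160127) (nat_lit 9313852) [(nat_lit 325944), (nat_lit 0), (nat_lit 0), (nat_lit 7828499)]) (PF.cons PF.nil PF.nil))))) (PF.cons (PF.cons (PF.leaf (nat_lit 6610234) (nat_lit 1296674) (nat_lit 40898396) (nat_lit 9290352) [(nat_lit 0), (nat_lit 1296674), (nat_lit 0), (nat_lit 7811694)]) (PF.cons (PF.leaf (nat_lit 6815980) (nat_lit 328171) (nat_lit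 40614027) (nat_lit 9267816) [(nat_lit 328171), (nat_lit 1305170), (nat_lit 0), (nat_lit 7796813)]) (PF.cons PF.nil (PF.cons PF.nil PF.nil)))) (PF.cons (PF.cons (PF.leaf (nat_lit 7208700) (nat_lit 1318652) (nat_lit 39784158) (nat_lit 9194997) [(nat_lit 0), (nat_lit 1318652), (nat_lit 0), (nat_lit 7746176)]) (PF.cons PF.nil PF.nil)) PF.nil))) (PF.cons (PF.cons (PF.cons (PF.leaf (nat_lit 7086071) (nat_lit 3085890) (nat_lit 39448799) (nat_lit 9151772) [(nat_lit 0),
 (nat_lit 0), (nat_lit 3085890), (nat_lit 7711174)]) (PF.cons (PF.leaf (nat_lit 7291230) (nat_lit 332384) (nat_lit 39173222) (nat_lit 9126946) [(nat_lit 332384), (nat_lit 0), (nat_lit 3088373), (nat_lit 7693942)]) PF.nil)) (PF.cons PF.nil PF.nil)) (PF.cons PF.nil PF.nil))) (PF.cons (PF.cons (PF.cons (PF.cons (PF.leaf (nat_lit 7763138) (nat_lit 7390637) (nat_lit 36194234) (nat_lit 8742664) [(nat_lit 0), (nat_lit 0), (nat_lit 0), (nat_lit 7390637)]) (PF.cons PF.nil PF.nil)) (PF.cons PF.nil PF.nil))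 (PF.cons PF.nil PF.nil)) (PF.cons PF.nil (PF.cons PF.nil (PF.cons PF.nil (PF.cons PF.nil PF.nil))))))))

def p13_9_1_0 : pfC (piC [(nat_lit 42686981), (nat_lit 27030628), (nat_lit 20024807), (nat_lit 13470738)] (nat_lit 10555529)) p13_9_1 (nat_lit 4) (nat_lit 0) (nat_lit 1) = true := by decide +kernel
def p13_9_1_1 : pfC (piC [(nat_lit 42686981), (nat_lit 27030628), (nat_lit 20024807), (nat_lit 13470738)] (nat_lit 10555529)) p13_9_1 (nat_lit 4) (nat_lit 1) (nat_lit 2) = true := by decide +kernel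
def p13_9_1_2 : pfC (piC [(nat_lit 42686981), (nat_lit 27030628), (nat_lit 20024807), (nat_lit 13470738)] (nat_lit 10555529)) p13_9_1 (nat_lit 4) (nat_lit 2) (nat_lit 3) = true := by decide +kernel
def p13_9_1_3 : pfC (piC [(nat_lit 42686981), (nat_lit 27030628), (nat_lit 20024807), (nat_lit 13470738)] (nat_lit 10555529)) p13_9_1 (nat_lit 4) (nat_lit 3) (nat_lit 4) = true := by decide +kernel
def p13_9_1_4 : pfC (piC [(nat_lit 42686981), (nat_lit 27030628), (nat_lit 20024807), (nat_lit 13470738)] (nat_lit 10555529)) p13_9_1 (nat_lit 4) (nat_lit 4) (nat_lit 5) = true := by decide +kernel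
def p13_9_1_5 : pfC (piC [(nat_lit 42686981), (nat_lit 27030628), (nat_lit 20024807), (nat_lit 13470738)] (nat_lit 10555529)) p13_9_1 (nat_lit 4) (nat_lit 5) (nat_lit 6) = true := by decide +kernel
def p13_9_1_6 : pfC (piC [(nat_lit 42686981), (nat_lit 27030628), (nat_lit 20024807), (nat_lit 13470738)] (nat_lit 10555529)) p13_9_1 (nat_lit 4) (nat_lit 6) (nat_lit 7) = true := by decide +kernel
def p13_9_1_7 : pfC (piC [(nat_lit 42686981), (nat_lit 27030628), (nat_lit 20024807), (nat_lit 13470738)] (nat_lit 10555529)) p13_9_1 (nat_lit 4) (nat_lit 7) (nat_lit 8) = true := by decide +kernel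
def p13_9_1_8 : pfC (piC [(nat_lit 42686981), (nat_lit 27030628), (nat_lit 20024807), (nat_lit 13470738)] (nat_lit 10555529)) p13_9_1 (nat_lit 4) (nat_lit 8) (nat_lit 9) = true := by decide +kernel
def p13_9_1_9 : pfC (piC [(nat_lit 42686981), (nat_lit 27030628), (nat_lit 20024807), (nat_lit 13470738)] (nat_lit 10555529)) p13_9_1 (nat_lit 4) (nat_lit 9) (nat_lit 10) = true := by decide +kernel
def p13_9_1_10 : pfC (piC [(nat_lit 42686981), (nat_lit 27030628), (nat_lit 20024807), (nat_lit 13470738)] (nat_lit 10555529)) p13_9_1 (nat_lit 4) (nat_lit 10) (nat_lit 11) = true := by decide +kernel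
def p13_9_1_11 : pfC (piC [(nat_lit 42686981), (nat_lit 27030628), (nat_lit 20024807), (nat_lit 13470738)] (nat_lit 10555529)) p13_9_1 (nat_lit 4) (nat_lit 11) (nat_lit 12) = true := by decide +kernel
def p13_9_1_12 : pfC (piC [(nat_lit 42686981), (nat_lit 27030628), (nat_lit 20024807), (nat_lit 13470738)] (nat_lit 10555529)) p13_9_1 (nat_lit 4) (nat_lit 12) (nat_lit 13) = true := by decide +kernel
def p13_9_1_13 : pfC (piC [(nat_lit 42686981), (nat_lit 27030628), (nat_lit 20024807), (nat_lit 13470738)] (nat_lit 10555529)) p13_9_1 (nat_lit 4) (nat_lit 13) (nat_lit 14) = true := by decide +kernel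
def p13_9_1_14 : pfC (piC [(nat_lit 42686981), (nat_lit 27030628), (nat_lit 20024807), (nat_lit 13470738)] (nat_lit 10555529)) p13_9_1 (nat_lit 4) (nat_lit 14) (nat_lit 15) = true := by decide +kernel
def p13_9_1_15 : pfC (piC [(nat_lit 42686981), (nat_lit 27030628), (nat_lit 20024807), (nat_lit 13470738)] (nat_lit 10555529)) p13_9_1 (nat_lit 4) (nat_lit 15) (nat_lit 16) = true := by decide +kernel
def p13_9_1_16 : pfC (piC [(nat_lit 42686981), (nat_lit 27030628), (nat_lit 20024807), (nat_lit 13470738)] (nat_lit 10555529)) p13_9_1 (nat_lit 4) (nat_lit 16) (nat_lit 17) = true := by decide +kernel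
def p13_9_1_17 : pfC (piC [(nat_lit 42686981), (nat_lit 27030628), (nat_lit 20024807), (nat_lit 13470738)] (nat_lit 10555529)) p13_9_1 (nat_lit 4) (nat_lit 17) (nat_lit 18) = true := by decide +kernel
def p13_9_1_18 : pfC (piC [(nat_lit 42686981), (nat_lit 27030628), (nat_lit 20024807), (nat_lit 13470738)] (nat_lit 10555529)) p13_9_1 (nat_lit 4) (nat_lit 18) (nat_lit 19) = true := by decide +kernel
def p13_9_1_19 : pfC (piC [(nat_lit 42686981), (nat_lit 27030628), (nat_lit 20024807), (nat_lit 13470738)] (nat_lit 10555529)) p13_9_1 (nat_lit 4) (nat_lit 19) (nat_lit 20) = true := by decide +kernel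
def p13_9_1_20 : pfC (piC [(nat_lit 42686981), (nat_lit 27030628), (nat_lit 20024807), (nat_lit 13470738)] (nat_lit 10555529)) p13_9_1 (nat_lit 4) (nat_lit 20) (nat_lit 21) = true := by decide +kernel
def p13_9_1_21 : pfC (piC [(nat_lit 42686981), (nat_lit 27030628), (nat_lit 20024807), (nat_lit 13470738)] (nat_lit 10555529)) p13_9_1 (nat_lit 4) (nat_lit 21) (nat_lit 22) = true := by decide +kernel
def p13_9_1_22 : pfC (piC [(nat_lit 42686981), (nat_lit 27030628), (nat_lit 20024807), (nat_lit 13470738)] (nat_lit 10555529)) p13_9_1 (nat_lit 4) (nat_lit 22) (nat_lit 23) = true := by decide +kernel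
def p13_9_1_23 : pfC (piC [(nat_lit 42686981), (nat_lit 27030628), (nat_lit 20024807), (nat_lit 13470738)] (nat_lit 10555529)) p13_9_1 (nat_lit 4) (nat_lit 23) (nat_lit 24) = true := by decide +kernel
def p13_9_1_24 : pfC (piC [(nat_lit 42686981), (nat_lit 27030628), (nat_lit 20024807), (nat_lit 13470738)] (nat_lit 10555529)) p13_9_1 (nat_lit 4) (nat_lit 24) (nat_lit 25) = true := by decide +kernel
def p13_9_1_25 : pfC (piC [(nat_lit 42686981), (nat_lit 27030628), (nat_lit 20024807), (nat_lit 13470738)] (nat_lit 10555529)) p13_9_1 (nat_lit 4) (nat_lit 25) (nat_lit 26) = true := by decide +kernel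
def p13_9_1_26 : pfC (piC [(nat_lit 42686981), (nat_lit 27030628), (nat_lit 20024807), (nat_lit 13470738)] (nat_lit 10555529)) p13_9_1 (nat_lit 4) (nat_lit 26) (nat_lit 27) = true := by decide +kernel
def p13_9_1_27 : pfC (piC [(nat_lit 42686981), (nat_lit 27030628), (nat_lit 20024807), (nat_lit 13470738)] (nat_lit 10555529)) p13_9_1 (nat_lit 4) (nat_lit 27) (nat_lit 28) = true := by decide +kernel
def p13_9_1_28 : pfC (piC [(nat_lit 42686981), (nat_lit 27030628), (nat_lit 20024807), (nat_lit 13470738)] (nat_lit 10555529)) p13_9_1 (nat_lit 4) (nat_lit 28) (nat_lit 29) = true := by decide +kernel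
def p13_9_1_29 : pfC (piC [(nat_lit 42686981), (nat_lit 27030628), (nat_lit 20024807), (nat_lit 13470738)] (nat_lit 10555529)) p13_9_1 (nat_lit 4) (nat_lit 29) (nat_lit 30) = true := by decide +kernel
def p13_9_1_30 : pfC (piC [(nat_lit 42686981), (nat_lit 27030628), (nat_lit 20024807), (nat_lit 13470738)] (nat_lit 10555529)) p13_9_1 (nat_lit 4) (nat_lit 30) (nat_lit 31) = true := by decide +kernel
def p13_9_1_31 : pfC (piC [(nat_lit 42686981), (nat_lit 27030628), (nat_lit 20024807), (nat_lit 13470738)] (nat_lit 10555529)) p13_9_1 (nat_lit 4) (nat_lit 31) (nat_lit 32) = true := by decide +kernel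
def p13_9_1_32 : pfC (piC [(nat_lit 42686981), (nat_lit 27030628), (nat_lit 20024807), (nat_lit 13470738)] (nat_lit 10555529)) p13_9_1 (nat_lit 4) (nat_lit 32) (nat_lit 33) = true := by decide +kernel
def p13_9_1_33 : pfC (piC [(nat_lit 42686981), (nat_lit 27030628), (nat_lit 20024807), (nat_lit 13470738)] (nat_lit 10555529)) p13_9_1 (nat_lit 4) (nat_lit 33) (nat_lit 34) = true := by decide +kernel
def p13_9_1_34 : pfC (piC [(nat_lit 42686981), (nat_lit 27030628), (nat_lit 20024807), (nat_lit 13470738)] (nat_lit 10555529)) p13_9_1 (nat_lit 4) (nat_lit 34) (nat_lit 35) = true := by decide +kernel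
def p13_9_1_35 : pfC (piC [(nat_lit 42686981), (nat_lit 27030628), (nat_lit 20024807), (nat_lit 13470738)] (nat_lit 10555529)) p13_9_1 (nat_lit 4) (nat_lit 35) (nat_lit 36) = true := by decide +kernel
def p13_9_1_36 : pfC (piC [(nat_lit 42686981), (nat_lit 27030628), (nat_lit 20024807), (nat_lit 13470738)] (nat_lit 10555529)) p13_9_1 (nat_lit 4) (nat_lit 36) (nat_lit 37) = true := by decide +kernel
def p13_9_1_37 : pfC (piC [(nat_lit 42686981), (nat_lit 27030628), (nat_lit 20024807), (nat_lit 13470738)] (nat_lit 10555529)) p13_9_1 (nat_lit 4) (nat_lit 37) (nat_lit 38) = true := by decide +kernel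
def p13_9_1_38 : pfC (piC [(nat_lit 42686981), (nat_lit 27030628), (nat_lit 20024807), (nat_lit 13470738)] (nat_lit 10555529)) p13_9_1 (nat_lit 4) (nat_lit 38) (nat_lit 39) = true := by decide +kernel
def p13_9_1_39 : pfC (piC [(nat_lit 42686981), (nat_lit 27030628), (nat_lit 20024807), (nat_lit 13470738)] (nat_lit 10555529)) p13_9_1 (nat_lit 4) (nat_lit 39) (nat_lit 40) = true := by decide +kernel
def p13_9_1_40 : pfC (piC [(nat_lit 42686981), (nat_lit 27030628), (nat_lit 20024807), (nat_lit 13470738)] (nat_lit 10555529)) p13_9_1 (nat_lit 4) (nat_lit 40) (nat_lit 41) = true := by decide +kernel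
def p13_9_1_41 : pfC (piC [(nat_lit 42686981), (nat_lit 27030628), (nat_lit 20024807), (nat_lit 13470738)] (nat_lit 10555529)) p13_9_1 (nat_lit 4) (nat_lit 41) (nat_lit 42) = true := by decide +kernel
def p13_9_1_42 : pfC (piC [(nat_lit 42686981), (nat_lit 27030628), (nat_lit 20024807), (nat_lit 13470738)] (nat_lit 10555529)) p13_9_1 (nat_lit 4) (nat_lit 42) (nat_lit 43) = true := by decide +kernel
def p13_9_1_43 : pfC (piC [(nat_lit 42686981), (nat_lit 27030628), (nat_lit 20024807), (nat_lit 13470738)] (nat_lit 10555529)) p13_9_1 (nat_lit 4) (nat_lit 43) (nat_lit 44) = true := by decide +kernel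
def p13_9_1_44 : pfC (piC [(nat_lit 42686981), (nat_lit 27030628), (nat_lit 20024807), (nat_lit 13470738)] (nat_lit 10555529)) p13_9_1 (nat_lit 4) (nat_lit 44) (nat_lit 45) = true := by decide +kernel
def p13_9_1_45 : pfC (piC [(nat_lit 42686981), (nat_lit 27030628), (nat_lit 20024807), (nat_lit 13470738)] (nat_lit 10555529)) p13_9_1 (nat_lit 4) (nat_lit 45) (nat_lit 46) = true := by decide +kernel
def p13_9_1_46 : pfC (piC [(nat_lit 42686981), (nat_lit 27030628), (nat_lit 20024807), (nat_lit 13470738)] (nat_lit 10555529)) p13_9_1 (nat_lit 4) (nat_lit 46) (nat_lit 47) = true := by decide +kernel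
def p13_9_1_47 : pfC (piC [(nat_lit 42686981), (nat_lit 27030628), (nat_lit 20024807), (nat_lit 13470738)] (nat_lit 10555529)) p13_9_1 (nat_lit 4) (nat_lit 47) (nat_lit 48) = true := by decide +kernel
def p13_9_1_48 : pfC (piC [(nat_lit 42686981), (nat_lit 27030628), (nat_lit 20024807), (nat_lit 13470738)] (nat_lit 10555529)) p13_9_1 (nat_lit 4) (nat_lit 48) (nat_lit 49) = true := by decide +kernel
def p13_9_1_49 : pfC (piC [(nat_lit 42686981), (nat_lit 27030628), (nat_lit 20024807), (nat_lit 13470738)] (nat_lit 10555529)) p13_9_1 (nat_lit 4) (nat_lit 49) (nat_lit 50) = true := by decide +kernel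
def p13_9_1_50 : pfC (piC [(nat_lit 42686981), (nat_lit 27030628), (nat_lit 20024807), (nat_lit 13470738)] (nat_lit 10555529)) p13_9_1 (nat_lit 4) (nat_lit 50) (nat_lit 51) = true := by decide +kernel
def p13_9_1_51 : pfC (piC [(nat_lit 42686981), (nat_lit 27030628), (nat_lit 20024807), (nat_lit 13470738)] (nat_lit 10555529)) p13_9_1 (nat_lit 4) (nat_lit 51) (nat_lit 52) = true := by decide +kernel
def p13_9_1_52 : pfC (piC [(nat_lit 42686981), (nat_lit 27030628), (nat_lit 20024807), (nat_lit 13470738)] (nat_lit 10555529)) p13_9_1 (nat_lit 4) (nat_lit 52) (nat_lit 53) = true := by decide +kernel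
def p13_9_1_53 : pfC (piC [(nat_lit 42686981), (nat_lit 27030628), (nat_lit 20024807), (nat_lit 13470738)] (nat_lit 10555529)) p13_9_1 (nat_lit 4) (nat_lit 53) (nat_lit 54) = true := by decide +kernel
def p13_9_1_54 : pfC (piC [(nat_lit 42686981), (nat_lit 27030628), (nat_lit 20024807), (nat_lit 13470738)] (nat_lit 10555529)) p13_9_1 (nat_lit 4) (nat_lit 54) (nat_lit 55) = true := by decide +kernel
def p13_9_1_55 : pfC (piC [(nat_lit 42686981), (nat_lit 27030628), (nat_lit 20024807), (nat_lit 13470738)] (nat_lit 10555529)) p13_9_1 (nat_lit 4) (nat_lit 55) (nat_lit 56) = true := by decide +kernel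
def p13_9_1_56 : pfC (piC [(nat_lit 42686981), (nat_lit 27030628), (nat_lit 20024807), (nat_lit 13470738)] (nat_lit 10555529)) p13_9_1 (nat_lit 4) (nat_lit 56) (nat_lit 57) = true := by decide +kernel
def p13_9_1_57 : pfC (piC [(nat_lit 42686981), (nat_lit 27030628), (nat_lit 20024807), (nat_lit 13470738)] (nat_lit 10555529)) p13_9_1 (nat_lit 4) (nat_lit 57) (nat_lit 58) = true := by decide +kernel
def p13_9_1_58 : pfC (piC [(nat_lit 42686981), (nat_lit 27030628), (nat_lit 20024807), (nat_lit 13470738)] (nat_lit 10555529)) p13_9_1 (nat_lit 4) (nat_lit 58) (nat_lit 59) = true := by decide +kernel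
def p13_9_1_59 : pfC (piC [(nat_lit 42686981), (nat_lit 27030628), (nat_lit 20024807), (nat_lit 13470738)] (nat_lit 10555529)) p13_9_1 (nat_lit 4) (nat_lit 59) (nat_lit 60) = true := by decide +kernel
def p13_9_1_60 : pfC (piC [(nat_lit 42686981), (nat_lit 27030628), (nat_lit 20024807), (nat_lit 13470738)] (nat_lit 10555529)) p13_9_1 (nat_lit 4) (nat_lit 60) (nat_lit 61) = true := by decide +kernel
def p13_9_1_61 : pfC (piC [(nat_lit 42686981), (nat_lit 27030628), (nat_lit 20024807), (nat_lit 13470738)] (nat_lit 10555529)) p13_9_1 (nat_lit 4) (nat_lit 61) (nat_lit 62) = true := by decide +kernel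
def p13_9_1_62 : pfC (piC [(nat_lit 42686981), (nat_lit 27030628), (nat_lit 20024807), (nat_lit 13470738)] (nat_lit 10555529)) p13_9_1 (nat_lit 4) (nat_lit 62) (nat_lit 63) = true := by decide +kernel
theorem p13_9_1_T : PfS (PiF n13_9.reverse (nat_lit 10555529)) p13_9_1 (nat_lit 4) [] 0 :=
  pftab_of (los := [(nat_lit 42686981), (nat_lit 27030628), (nat_lit 20024807), (nat_lit 13470738)]) (by decide +kernel) (hi := (nat_lit 63)) (PfP.trans (PfP.trans (PfP.trans (PfP.trans (PfP.trans (PfP.trans (PfP.trans (PfP.trans (PfP.trans (PfP.trans (PfP.trans (PfP.trans (PfP.trans (PfP.trans (PfP.trans (PfP.trans (PfP.trans (PfP.trans (PfP.trans (PfP.trans (PfP.trans (PfP.trans (PfP.trans (PfP.trans (PfP.trans (PfP.trans (PfP.trans (PfP.trans (PfP.trans (PfP.trans (PfP.trans (PfP.trans (PfP.trans (PfP.trans (PfP.trans (PfP.trans (PfP.trans (PfP.trans (PfP.trans (PfP.trans (PfP.trans (PfP.trans (PfP.trans (PfP.trans (PfP.trans (PfP.trans (PfP.trans (PfP.trans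 (PfP.trans (PfP.trans (PfP.trans (PfP.trans (PfP.trans (PfP.trans (PfP.trans (PfP.trans (PfP.trans (PfP.trans (PfP.trans (PfP.trans (PfP.trans (PfP.trans (pfC_sound p13_9_1_0) (pfC_sound p13_9_1_1)) (pfC_sound p13_9_1_2)) (pfC_sound p13_9_1_3)) (pfC_sound p13_9_1_4)) (pfC_sound p13_9_1_5)) (pfC_sound p13_9_1_6)) (pfC_sound p13_9_1_7)) (pfC_sound p13_9_1_8)) (pfC_sound p13_9_1_9)) (pfC_sound p13_9_1_10)) (pfC_sound p13_9_1_11)) (pfC_sound p13_9_1_12)) (pfC_sound p13_9_1_13)) (pfC_sound p13_9_1_14)) (pfC_sound p13_9_1_15)) (pfC_sound p13_9_1_16)) (pfC_sound p13_9_1_17)) (pfC_sound p13_9_1_18)) (pfC_sound p13_9_1_19)) (pfC_sound p13_9_1_20)) (pfC_sound p13_9_1_21))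
 (pfC_sound p13_9_1_22)) (pfC_sound p13_9_1_23)) (pfC_sound p13_9_1_24)) (pfC_sound p13_9_1_25)) (pfC_sound p13_9_1_26)) (pfC_sound p13_9_1_27)) (pfC_sound p13_9_1_28)) (pfC_sound p13_9_1_29)) (pfC_sound p13_9_1_30)) (pfC_sound p13_9_1_31)) (pfC_sound p13_9_1_32)) (pfC_sound p13_9_1_33)) (pfC_sound p13_9_1_34)) (pfC_sound p13_9_1_35)) (pfC_sound p13_9_1_36)) (pfC_sound p13_9_1_37)) (pfC_sound p13_9_1_38)) (pfC_sound p13_9_1_39)) (pfC_sound p13_9_1_40)) (pfC_sound p13_9_1_41)) (pfC_sound p13_9_1_42)) (pfC_sound p13_9_1_43)) (pfC_sound p13_9_1_44)) (pfC_sound p13_9_1_45)) (pfC_sound p13_9_1_46)) (pfC_sound p13_9_1_47)) (pfC_sound p13_9_1_48)) (pfC_sound p13_9_1_49)) (pfC_sound p13_9_1_50)) (pfC_sound p13_9_1_51)) (pfC_sound p13_9_1_52)) (pfC_sound p13_9_1_53)) (pfC_sound p13_9_1_54)) (pfC_sound p13_9_1_55)) (pfC_sound p13_9_1_56)) (pfC_sound p13_9_1_57)) (pfC_sound p13_9_1_58)) (pfC_sound p13_9_1_59)) (pfC_sound p13_9_1_60)) (pfC_sound p13_9_1_61)) (pfC_sound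 p13_9_1_62)) (by decide +kernel)

def z13_9_1 : zOK yB13_9 (nat_lit 1) (nat_lit 400) (nat_lit 600) (nat_lit 10555529) (nat_lit 7011795) = true := by decide +kernel
def g13_9_1 : gOK yB13_9.x P13_9 (nat_lit 1427) (q13_9 :: r13_9) (nat_lit 1) (nat_lit 400) (nat_lit 2) (nat_lit 600) (nat_lit 11000000) (nat_lit 17850000) (nat_lit 12712500) (nat_lit 12712500) [(nat_lit 800), (nat_lit 1040)] = true := by decide +kernel
def v13_9_1 : ivC P13_9 s13_9 w13_9 n13_9 (nat_lit 4) (nat_lit 5080) (nat_lit 1) (nat_lit 400) f144_1_400 f152_1_400 (nat_lit 2) (nat_lit 600) f144_1_600 f152_1_600 (nat_lit 10555529) (nat_lit 7011795) p13_9_1 = true := by decide +kernel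
def p13_9_2 : PF := (PF.cons (PF.cons (PF.cons (PF.cons (PF.leaf (nat_lit 2699536) (nat_lit 15470124) (nat_lit 51638688) (nat_lit 15470124) [(nat_lit 0), (nat_lit 0), (nat_lit 0), (nat_lit 0)]) (PF.cons (PF.leaf (nat_lit 2814763) (nat_lit 191802) (nat_lit 51457009) (nat_lit 15460000) [(nat_lit 191802), (nat_lit 0), (nat_lit 0), (nat_lit 0)]) (PF.cons (PF.leaf (nat_lit 2953600) (nat_lit 208644) (nat_lit 51244026) (nat_lit 15447498) [(nat_lit 208644), (nat_lit 0), (nat_lit 0), (nat_lit 0)]) (PF.cons (PF.leaf (nat_lit 3109631) (nat_lit 223635) (nat_lit 51005222) (nat_lit 15432685) [(nat_lit 223635), (nat_lit 0), (nat_lit 0), (nat_lit 0)]) (PF.cons (PF.leaf (nat_lit 3280395) (nat_lit 237201) (nat_lit 50744436) (nat_lit 15415570) [(nat_lit 237201), (nat_lit 0), (nat_lit 0), (nat_lit 0)]) (PF.cons (PF.leaf (nat_lit 3464419) (nat_lit 249615) (nat_lit 50464598) (nat_lit 15396134) [(nat_lit 249615), (nat_lit 0), (nat_lit 0), (nat_lit 0)]) (PF.cons (PF.leaf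 (nat_lit 3660006) (nat_lit 261064) (nat_lit 50168071) (nat_lit 15374354) [(nat_lit 261064), (nat_lit 0), (nat_lit 0), (nat_lit 0)]) (PF.cons PF.nil (PF.cons PF.nil PF.nil))))))))) (PF.cons (PF.cons (PF.leaf (nat_lit 3165947) (nat_lit 1049561) (nat_lit
 50653036) (nat_lit 15406214) [(nat_lit 0), (nat_lit 1049561), (nat_lit 0), (nat_lit 0)]) (PF.cons (PF.leaf (nat_lit 3318675) (nat_lit 234642) (nat_lit 50412301) (nat_lit 15389198) [(nat_lit 234642), (nat_lit 1072669), (nat_lit 0), (nat_lit 0)]) (PF.cons (PF.leaf (nat_lit 3489118) (nat_lit 247589) (nat_lit 50148394) (nat_lit 15369630) [(nat_lit 247589), (nat_lit 1095609), (nat_lit 0), (nat_lit 0)]) (PF.cons (PF.leaf (nat_lit 3673000) (nat_lit 259381) (nat_lit 49865092) (nat_lit 15347576) [(nat_lit 259381), (nat_lit 1117999), (nat_lit 0), (nat_lit 0)]) (PF.cons (PF.leaf (nat_lit 3868729) (nat_lit 270228) (nat_lit 49565195) (nat_lit 15323068) [(nat_lit 270228), (nat_lit 1139633), (nat_lit 0), (nat_lit 0)])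 (PF.cons (PF.leaf (nat_lit 4075083) (nat_lit 280274) (nat_lit 49250915) (nat_lit 15296121) [(nat_lit 280274), (nat_lit 1160401), (nat_lit 0), (nat_lit 0)]) (PF.cons PF.nil PF.nil))))))) (PF.cons (PF.cons (PF.leaf (nat_lit 3702507) (nat_lit 1128035) (nat_lit 49535407) (nat_lit 15317334) [(nat_lit 0), (nat_lit 1128035), (nat_lit 0), (nat_lit 0)]) (PF.cons (PF.leaf (nat_lit 3883487) (nat_lit 267806) (nat_lit 49252318) (nat_lit 15292972) [(nat_lit 267806), (nat_lit 1147857), (nat_lit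
 0), (nat_lit 0)]) (PF.cons (PF.leaf (nat_lit 4078240) (nat_lit 278233) (nat_lit 48951951) (nat_lit 15266000) [(nat_lit 278233), (nat_lit 1167196), (nat_lit 0), (nat_lit 0)]) (PF.cons (PF.leaf (nat_lit 4283861) (nat_lit 287844) (nat_lit 48637013) (nat_lit 15236498) [(nat_lit 287844), (nat_lit 1185883), (nat_lit 0), (nat_lit 0)]) (PF.cons PF.nil PF.nil))))) (PF.cons (PF.cons (PF.leaf (nat_lit 4290353) (nat_lit 1192036) (nat_lit 48329484) (nat_lit 15203219) [(nat_lit 0), (nat_lit 1192036), (nat_lit 0), (nat_lit 0)]) (PF.cons (PF.leaf (nat_lit 4493010) (nat_lit 294475) (nat_lit 48016352) (nat_lit 15171462) [(nat_lit 294475), (nat_lit 1208840), (nat_lit 0), (nat_lit 0)]) (PF.cons (PF.leaf (nat_lit 4706648) (nat_lit 303057) (nat_lit 47690382) (nat_lit 15137149) [(nat_lit 303057), (nat_lit 1225054), (nat_lit 0), (nat_lit 0)]) (PF.cons PF.nil PF.nil)))) (PF.cons (PF.cons (PF.leaf (nat_lit 4915476) (nat_lit 1244199) (nat_lit 47067228) (nat_lit 15064784) [(nat_lit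 0), (nat_lit 1244199), (nat_lit 0), (nat_lit 0)]) (PF.cons PF.nil PF.nil)) (PF.cons PF.nil PF.nil)))))) (PF.cons (PF.cons (PF.cons (PF.leaf (nat_lit 3690263) (nat_lit 2894942) (nat_lit 48964618) (nat_lit 15249252) [(nat_lit 0),
 (nat_lit 0), (nat_lit 2894942), (nat_lit 0)]) (PF.cons (PF.leaf (nat_lit 3851477) (nat_lit 253357) (nat_lit 48714331) (nat_lit 15226113) [(nat_lit 253357), (nat_lit 0), (nat_lit 2915011), (nat_lit 0)]) (PF.cons (PF.leaf (nat_lit 4029710) (nat_lit 265662) (nat_lit 48441946) (nat_lit 15200040) [(nat_lit 265662), (nat_lit 0), (nat_lit 2935500), (nat_lit 0)]) (PF.cons (PF.leaf (nat_lit 4220703) (nat_lit 276709) (nat_lit 48151513) (nat_lit 15171233) [(nat_lit 276709), (nat_lit 0), (nat_lit 2955939), (nat_lit 0)]) (PF.cons (PF.leaf (nat_lit 4422831) (nat_lit 286753) (nat_lit 47845970) (nat_lit 15139821) [(nat_lit 286753), (nat_lit 0), (nat_lit 2976006), (nat_lit 0)]) (PF.cons PF.nil (PF.cons PF.nil PF.nil))))))) (PF.cons (PF.cons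 (PF.leaf (nat_lit 4241654) (nat_lit 1180053) (nat_lit 47825482) (nat_lit 15134495) [(nat_lit 0), (nat_lit 1180053), (nat_lit 2968780), (nat_lit 0)]) (PF.cons (PF.leaf (nat_lit 4428756) (nat_lit 283352) (nat_lit 47538041) (nat_lit 15103835) [(nat_lit 283352), (nat_lit 1196896), (nat_lit 2986686), (nat_lit 0)]) (PF.cons (PF.leaf (nat_lit 4628822) (nat_lit 293087) (nat_lit 47234618) (nat_lit 15070415) [(nat_lit 293087), (nat_lit 1213247), (nat_lit 3004356),
 (nat_lit 0)]) (PF.cons (PF.leaf (nat_lit 4838960) (nat_lit 301966) (nat_lit 46917994) (nat_lit 15034400) [(nat_lit 301966), (nat_lit 1228974), (nat_lit 3021542), (nat_lit 0)]) (PF.cons PF.nil PF.nil))))) (PF.cons (PF.cons (PF.leaf (nat_lit 4836991) (nat_lit 1232811) (nat_lit 46617830) (nat_lit 14996021) [(nat_lit 0), (nat_lit 1232811), (nat_lit 3029338), (nat_lit 0)]) (PF.cons (PF.leaf (nat_lit 5043524) (nat_lit 307169) (nat_lit 46305069) (nat_lit 14958244) [(nat_lit 307169), (nat_lit 1246974), (nat_lit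 3044380), (nat_lit 0)]) (PF.cons PF.nil (PF.cons PF.nil PF.nil)))) (PF.cons (PF.cons (PF.leaf (nat_lit 5463358) (nat_lit 1275441) (nat_lit 45369965) (nat_lit 14835696) [(nat_lit 0), (nat_lit 1275441), (nat_lit 3076826), (nat_lit 0)]) (PF.cons PF.nil PF.nil)) (PF.cons PF.nil PF.nil))))) (PF.cons (PF.cons (PF.cons (PF.leaf (nat_lit 4773474) (nat_lit 3020900) (nat_lit 46144384) (nat_lit 14922626) [(nat_lit 0), (nat_lit 0), (nat_lit 3020900), (nat_lit 0)]) (PF.cons (PF.leaf (nat_lit 4964861) (nat_lit 295893) (nat_lit 45856757) (nat_lit 14886602) [(nat_lit 295893), (nat_lit 0), (nat_lit 3034779), (nat_lit 0)]) (PF.cons (PF.leaf (nat_lit 5168524) (nat_lit 305004) (nat_lit 45554356)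
 (nat_lit 14847745) [(nat_lit 305004), (nat_lit 0), (nat_lit 3048351), (nat_lit 0)]) (PF.cons PF.nil (PF.cons PF.nil PF.nil))))) (PF.cons (PF.cons (PF.leaf (nat_lit 5371786) (nat_lit 1263426) (nat_lit 44949620) (nat_lit 14764022) [(nat_lit 0), (nat_lit 1263426), (nat_lit 3065871), (nat_lit 0)]) (PF.cons (PF.leaf (nat_lit 5580661) (nat_lit 317247) (nat_lit 44640589) (nat_lit 14721290) [(nat_lit 317247), (nat_lit 1275367), (nat_lit 3077158), (nat_lit 0)]) (PF.cons PF.nil (PF.cons PF.nil PF.nil)))) (PF.cons (PF.cons (PF.leaf (nat_lit 5995959) (nat_lit 1298123) (nat_lit 43727218) (nat_lit 14586182) [(nat_lit 0), (nat_lit 1298123), (nat_lit 3099582), (nat_lit 0)]) (PF.cons PF.nil PF.nil)) PF.nil))) (PF.cons (PF.cons (PF.cons (PF.leaf (nat_lit 5893025) (nat_lit 3086836) (nat_lit 43335201) (nat_lit 14513103) [(nat_lit 0), (nat_lit 0), (nat_lit 3086836), (nat_lit 0)]) (PF.cons (PF.leaf (nat_lit 6103013) (nat_lit 325145) (nat_lit 43032322) (nat_lit 14466408)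 [(nat_lit 325145), (nat_lit 0), (nat_lit 3094978), (nat_lit 0)]) PF.nil)) (PF.cons PF.nil PF.nil)) (PF.cons PF.nil (PF.cons PF.nil PF.nil)))))) (PF.cons (PF.cons (PF.cons (PF.cons (PF.leaf (nat_lit 4579968) (nat_lit 7844035) (nat_lit
 44642702) (nat_lit 14622075) [(nat_lit 0), (nat_lit 0), (nat_lit 0), (nat_lit 7844035)]) (PF.cons (PF.leaf (nat_lit 4741806) (nat_lit 263245) (nat_lit 44411512) (nat_lit 14591206) [(nat_lit 263245), (nat_lit 0), (nat_lit 0), (nat_lit 7842848)]) (PF.cons (PF.leaf (nat_lit 4919626) (nat_lit 275065) (nat_lit 44160804) (nat_lit 14557058) [(nat_lit 275065), (nat_lit 0), (nat_lit 0), (nat_lit 7840819)]) (PF.cons (PF.leaf (nat_lit 5109436) (nat_lit 285507) (nat_lit 43894424) (nat_lit 14520019) [(nat_lit 285507), (nat_lit 0), (nat_lit 0), (nat_lit 7837845)]) (PF.cons (PF.leaf (nat_lit 5309399) (nat_lit 294862) (nat_lit 43615153) (nat_lit 14480363) [(nat_lit 294862), (nat_lit 0), (nat_lit 0), (nat_lit 7833847)]) (PF.cons (PF.leaf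 (nat_lit 5518167) (nat_lit 303324) (nat_lit 43325126) (nat_lit 14438295) [(nat_lit 303324), (nat_lit 0), (nat_lit 0), (nat_lit 7828767)]) (PF.cons PF.nil PF.nil))))))) (PF.cons (PF.cons (PF.leaf (nat_lit 5119985) (nat_lit 1202907) (nat_lit 43601103) (nat_lit 14475499) [(nat_lit 0), (nat_lit 1202907), (nat_lit 0), (nat_lit 7829302)]) (PF.cons (PF.leaf (nat_lit 5305041) (nat_lit 290566) (nat_lit 43339108) (nat_lit 14437494) [(nat_lit 290566), (nat_lit 1216886),
 (nat_lit 0), (nat_lit 7824756)]) (PF.cons (PF.leaf (nat_lit 5502128) (nat_lit 299645) (nat_lit 43063370) (nat_lit 14396711) [(nat_lit 299645), (nat_lit 1230280), (nat_lit 0), (nat_lit 7819159)]) (PF.cons (PF.leaf (nat_lit 5708402) (nat_lit 307811) (nat_lit 42776473) (nat_lit 14353432) [(nat_lit 307811), (nat_lit 1243001), (nat_lit 0), (nat_lit 7812471)]) (PF.cons PF.nil PF.nil))))) (PF.cons (PF.cons (PF.leaf (nat_lit 5696432) (nat_lit 1244309) (nat_lit 42509265) (nat_lit 14309555) [(nat_lit 0),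 (nat_lit 1244309), (nat_lit 0), (nat_lit 7801373)]) (PF.cons (PF.leaf (nat_lit 5898464) (nat_lit 311591) (nat_lit 42227199) (nat_lit 14265403) [(nat_lit 311591), (nat_lit 1255693), (nat_lit 0), (nat_lit 7793231)]) (PF.cons (PF.leaf (nat_lit 6109745) (nat_lit 318788) (nat_lit 41935408) (nat_lit 14218877) [(nat_lit 318788), (nat_lit 1266490), (nat_lit 0), (nat_lit 7783967)]) (PF.cons PF.nil PF.nil)))) (PF.cons (PF.cons (PF.leaf (nat_lit 6297544) (nat_lit 1276609) (nat_lit 41391288) (nat_lit 14127097) [(nat_lit 0), (nat_lit 1276609), (nat_lit 0), (nat_lit 7760597)]) (PF.cons PF.nil PF.nil)) (PF.cons PF.nil PF.nil))))) (PF.cons (PF.cons (PF.cons (PF.leaf (nat_lit 5616728) (nat_lit 3006062)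
 (nat_lit 42100170) (nat_lit 14231902) [(nat_lit 0), (nat_lit 0), (nat_lit 3006062), (nat_lit 7770677)]) (PF.cons (PF.leaf (nat_lit 5804328) (nat_lit 299810) (nat_lit 41840911) (nat_lit 14190462) [(nat_lit 299810), (nat_lit 0), (nat_lit 3015033), (nat_lit 7762595)]) (PF.cons (PF.leaf (nat_lit 6003385) (nat_lit 308294) (nat_lit 41568957) (nat_lit 14146262) [(nat_lit 308294), (nat_lit 0), (nat_lit 3023614), (nat_lit 7753389)]) (PF.cons (PF.leaf (nat_lit 6211053) (nat_lit 315857) (nat_lit 41286861) (nat_lit 14099632) [(nat_lit 315857), (nat_lit 0), (nat_lit 3031677), (nat_lit 7743070)]) (PF.cons PF.nil PF.nil))))) (PF.cons (PF.cons (PF.leaf (nat_lit 6192363) (nat_lit 1263197) (nat_lit 41030379) (nat_lit 14053878) [(nat_lit 0), (nat_lit 1263197), (nat_lit 3032157), (nat_lit 7729201)]) (PF.cons (PF.leaf (nat_lit 6395347) (nat_lit 318678) (nat_lit 40754040) (nat_lit 14006747) [(nat_lit 318678), (nat_lit 1272763), (nat_lit 3038859), (nat_lit 7717723)]) (PF.cons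 PF.nil (PF.cons PF.nil PF.nil)))) (PF.cons (PF.cons (PF.leaf (nat_lit 6788738) (nat_lit 1289224) (nat_lit 39943238) (nat_lit 13861589) [(nat_lit 0), (nat_lit 1289224), (nat_lit 3049166), (nat_lit 7676369)]) (PF.cons PF.nil PF.nil))
 PF.nil))) (PF.cons (PF.cons (PF.cons (PF.leaf (nat_lit 6674709) (nat_lit 3034145) (nat_lit 39607652) (nat_lit 13789167) [(nat_lit 0), (nat_lit 0), (nat_lit 3034145), (nat_lit 7643701)]) (PF.cons (PF.leaf (nat_lit 6877820) (nat_lit 324087) (nat_lit 39338456) (nat_lit 13739779) [(nat_lit 324087), (nat_lit 0), (nat_lit 3038512), (nat_lit 7629464)]) (PF.cons PF.nil PF.nil))) (PF.cons (PF.cons (PF.leaf (nat_lit 7264605) (nat_lit 1296723) (nat_lit 38555447) (nat_lit 13589802) [(nat_lit 0), (nat_lit 1296723), (nat_lit 3042871), (nat_lit 7581096)]) PF.nil) PF.nil)) (PF.cons PF.nil (PF.cons PF.nil PF.nil))))) (PF.cons (PF.cons (PF.cons (PF.cons (PF.leaf (nat_lit 6375048) (nat_lit 7501834) (nat_lit 38577261) (nat_lit 13527882) [(nat_lit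 0), (nat_lit 0), (nat_lit 0), (nat_lit 7501834)]) (PF.cons (PF.leaf (nat_lit 6557748) (nat_lit 299620) (nat_lit 38345464) (nat_lit 13484460) [(nat_lit 299620), (nat_lit 0), (nat_lit 0), (nat_lit 7489633)]) (PF.cons (PF.leaf (nat_lit 6751215) (nat_lit 307551) (nat_lit 38102693) (nat_lit 13438425) [(nat_lit 307551), (nat_lit 0), (nat_lit 0), (nat_lit 7476295)]) (PF.cons PF.nil (PF.cons PF.nil PF.nil))))) (PF.cons (PF.cons (PF.leaf (nat_lit 6927246) (nat_lit
 1248855) (nat_lit 37625758) (nat_lit 13343997) [(nat_lit 0), (nat_lit 1248855), (nat_lit 0), (nat_lit 7445101)]) (PF.cons (PF.leaf (nat_lit 7123719) (nat_lit 316494) (nat_lit 37379966) (nat_lit 13295717) [(nat_lit 316494), (nat_lit 1256653), (nat_lit 0), (nat_lit 7429990)]) (PF.cons PF.nil (PF.cons PF.nil PF.nil)))) (PF.cons (PF.cons (PF.leaf (nat_lit 7496586) (nat_lit 1268627) (nat_lit 36662898) (nat_lit 13149371) [(nat_lit 0), (nat_lit 1268627), (nat_lit 0), (nat_lit 7379643)]) (PF.cons PF.nil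 PF.nil)) PF.nil))) (PF.cons (PF.cons (PF.cons (PF.leaf (nat_lit 7375364) (nat_lit 2960072) (nat_lit 36375452) (nat_lit 13080455) [(nat_lit 0), (nat_lit 0), (nat_lit 2960072), (nat_lit 7346416)]) (PF.cons (PF.leaf (nat_lit 7571366) (nat_lit 320162) (nat_lit 36136797) (nat_lit 13030994) [(nat_lit 320162), (nat_lit 0), (nat_lit 2961907), (nat_lit 7329475)]) PF.nil)) (PF.cons PF.nil PF.nil)) (PF.cons PF.nil PF.nil))) (PF.cons (PF.cons (PF.cons (PF.cons (PF.leaf (nat_lit 8009286) (nat_lit 7045134) (nat_lit 33566918) (nat_lit 12406490) [(nat_lit 0), (nat_lit 0), (nat_lit 0), (nat_lit 7045134)]) (PF.cons PF.nil PF.nil)) (PF.cons PF.nil PF.nil)) (PF.cons PF.nil PF.nil)) (PF.cons PF.nil (PF.cons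
 PF.nil (PF.cons PF.nil (PF.cons PF.nil PF.nil))))))))

def p13_9_2_0 : pfC (piC [(nat_lit 42686981), (nat_lit 27030628), (nat_lit 20024807), (nat_lit 13470738)] (nat_lit 7011795)) p13_9_2 (nat_lit 4) (nat_lit 0) (nat_lit 1) = true := by decide +kernel
def p13_9_2_1 : pfC (piC [(nat_lit 42686981), (nat_lit 27030628), (nat_lit 20024807), (nat_lit 13470738)] (nat_lit 7011795)) p13_9_2 (nat_lit 4) (nat_lit 1) (nat_lit 2) = true := by decide +kernel
def p13_9_2_2 : pfC (piC [(nat_lit 42686981), (nat_lit 27030628), (nat_lit 20024807), (nat_lit 13470738)] (nat_lit 7011795)) p13_9_2 (nat_lit 4) (nat_lit 2) (nat_lit 3) = true := by decide +kernel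
def p13_9_2_3 : pfC (piC [(nat_lit 42686981), (nat_lit 27030628), (nat_lit 20024807), (nat_lit 13470738)] (nat_lit 7011795)) p13_9_2 (nat_lit 4) (nat_lit 3) (nat_lit 4) = true := by decide +kernel
def p13_9_2_4 : pfC (piC [(nat_lit 42686981), (nat_lit 27030628), (nat_lit 20024807), (nat_lit 13470738)] (nat_lit 7011795)) p13_9_2 (nat_lit 4) (nat_lit 4) (nat_lit 5) = true := by decide +kernel
def p13_9_2_5 : pfC (piC [(nat_lit 42686981), (nat_lit 27030628), (nat_lit 20024807), (nat_lit 13470738)] (nat_lit 7011795)) p13_9_2 (nat_lit 4) (nat_lit 5) (nat_lit 6) = true := by decide +kernel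
def p13_9_2_6 : pfC (piC [(nat_lit 42686981), (nat_lit 27030628), (nat_lit 20024807), (nat_lit 13470738)] (nat_lit 7011795)) p13_9_2 (nat_lit 4) (nat_lit 6) (nat_lit 7) = true := by decide +kernel
def p13_9_2_7 : pfC (piC [(nat_lit 42686981), (nat_lit 27030628), (nat_lit 20024807), (nat_lit 13470738)] (nat_lit 7011795)) p13_9_2 (nat_lit 4) (nat_lit 7) (nat_lit 8) = true := by decide +kernel
def p13_9_2_8 : pfC (piC [(nat_lit 42686981), (nat_lit 27030628), (nat_lit 20024807), (nat_lit 13470738)] (nat_lit 7011795)) p13_9_2 (nat_lit 4) (nat_lit 8) (nat_lit 9) = true := by decide +kernel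
def p13_9_2_9 : pfC (piC [(nat_lit 42686981), (nat_lit 27030628), (nat_lit 20024807), (nat_lit 13470738)] (nat_lit 7011795)) p13_9_2 (nat_lit 4) (nat_lit 9) (nat_lit 10) = true := by decide +kernel
def p13_9_2_10 : pfC (piC [(nat_lit 42686981), (nat_lit 27030628), (nat_lit 20024807), (nat_lit 13470738)] (nat_lit 7011795)) p13_9_2 (nat_lit 4) (nat_lit 10) (nat_lit 11) = true := by decide +kernel
def p13_9_2_11 : pfC (piC [(nat_lit 42686981), (nat_lit 27030628), (nat_lit 20024807), (nat_lit 13470738)] (nat_lit 7011795)) p13_9_2 (nat_lit 4) (nat_lit 11) (nat_lit 12) = true := by decide +kernel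
def p13_9_2_12 : pfC (piC [(nat_lit 42686981), (nat_lit 27030628), (nat_lit 20024807), (nat_lit 13470738)] (nat_lit 7011795)) p13_9_2 (nat_lit 4) (nat_lit 12) (nat_lit 13) = true := by decide +kernel
def p13_9_2_13 : pfC (piC [(nat_lit 42686981), (nat_lit 27030628), (nat_lit 20024807), (nat_lit 13470738)] (nat_lit 7011795)) p13_9_2 (nat_lit 4) (nat_lit 13) (nat_lit 14) = true := by decide +kernel
def p13_9_2_14 : pfC (piC [(nat_lit 42686981), (nat_lit 27030628), (nat_lit 20024807), (nat_lit 13470738)] (nat_lit 7011795)) p13_9_2 (nat_lit 4) (nat_lit 14) (nat_lit 15) = true := by decide +kernel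
def p13_9_2_15 : pfC (piC [(nat_lit 42686981), (nat_lit 27030628), (nat_lit 20024807), (nat_lit 13470738)] (nat_lit 7011795)) p13_9_2 (nat_lit 4) (nat_lit 15) (nat_lit 16) = true := by decide +kernel
def p13_9_2_16 : pfC (piC [(nat_lit 42686981), (nat_lit 27030628), (nat_lit 20024807), (nat_lit 13470738)] (nat_lit 7011795)) p13_9_2 (nat_lit 4) (nat_lit 16) (nat_lit 17) = true := by decide +kernel
def p13_9_2_17 : pfC (piC [(nat_lit 42686981), (nat_lit 27030628), (nat_lit 20024807), (nat_lit 13470738)] (nat_lit 7011795)) p13_9_2 (nat_lit 4) (nat_lit 17) (nat_lit 18) = true := by decide +kernel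
def p13_9_2_18 : pfC (piC [(nat_lit 42686981), (nat_lit 27030628), (nat_lit 20024807), (nat_lit 13470738)] (nat_lit 7011795)) p13_9_2 (nat_lit 4) (nat_lit 18) (nat_lit 19) = true := by decide +kernel
def p13_9_2_19 : pfC (piC [(nat_lit 42686981), (nat_lit 27030628), (nat_lit 20024807), (nat_lit 13470738)] (nat_lit 7011795)) p13_9_2 (nat_lit 4) (nat_lit 19) (nat_lit 20) = true := by decide +kernel
def p13_9_2_20 : pfC (piC [(nat_lit 42686981), (nat_lit 27030628), (nat_lit 20024807), (nat_lit 13470738)] (nat_lit 7011795)) p13_9_2 (nat_lit 4) (nat_lit 20) (nat_lit 21) = true := by decide +kernel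
def p13_9_2_21 : pfC (piC [(nat_lit 42686981), (nat_lit 27030628), (nat_lit 20024807), (nat_lit 13470738)] (nat_lit 7011795)) p13_9_2 (nat_lit 4) (nat_lit 21) (nat_lit 22) = true := by decide +kernel
def p13_9_2_22 : pfC (piC [(nat_lit 42686981), (nat_lit 27030628), (nat_lit 20024807), (nat_lit 13470738)] (nat_lit 7011795)) p13_9_2 (nat_lit 4) (nat_lit 22) (nat_lit 23) = true := by decide +kernel
def p13_9_2_23 : pfC (piC [(nat_lit 42686981), (nat_lit 27030628), (nat_lit 20024807), (nat_lit 13470738)] (nat_lit 7011795)) p13_9_2 (nat_lit 4) (nat_lit 23) (nat_lit 24) = true := by decide +kernel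
def p13_9_2_24 : pfC (piC [(nat_lit 42686981), (nat_lit 27030628), (nat_lit 20024807), (nat_lit 13470738)] (nat_lit 7011795)) p13_9_2 (nat_lit 4) (nat_lit 24) (nat_lit 25) = true := by decide +kernel
def p13_9_2_25 : pfC (piC [(nat_lit 42686981), (nat_lit 27030628), (nat_lit 20024807), (nat_lit 13470738)] (nat_lit 7011795)) p13_9_2 (nat_lit 4) (nat_lit 25) (nat_lit 26) = true := by decide +kernel
def p13_9_2_26 : pfC (piC [(nat_lit 42686981), (nat_lit 27030628), (nat_lit 20024807), (nat_lit 13470738)] (nat_lit 7011795)) p13_9_2 (nat_lit 4) (nat_lit 26) (nat_lit 27) = true := by decide +kernel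
def p13_9_2_27 : pfC (piC [(nat_lit 42686981), (nat_lit 27030628), (nat_lit 20024807), (nat_lit 13470738)] (nat_lit 7011795)) p13_9_2 (nat_lit 4) (nat_lit 27) (nat_lit 28) = true := by decide +kernel
def p13_9_2_28 : pfC (piC [(nat_lit 42686981), (nat_lit 27030628), (nat_lit 20024807), (nat_lit 13470738)] (nat_lit 7011795)) p13_9_2 (nat_lit 4) (nat_lit 28) (nat_lit 29) = true := by decide +kernel
def p13_9_2_29 : pfC (piC [(nat_lit 42686981), (nat_lit 27030628), (nat_lit 20024807), (nat_lit 13470738)] (nat_lit 7011795)) p13_9_2 (nat_lit 4) (nat_lit 29) (nat_lit 30) = true := by decide +kernel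
def p13_9_2_30 : pfC (piC [(nat_lit 42686981), (nat_lit 27030628), (nat_lit 20024807), (nat_lit 13470738)] (nat_lit 7011795)) p13_9_2 (nat_lit 4) (nat_lit 30) (nat_lit 31) = true := by decide +kernel
def p13_9_2_31 : pfC (piC [(nat_lit 42686981), (nat_lit 27030628), (nat_lit 20024807), (nat_lit 13470738)] (nat_lit 7011795)) p13_9_2 (nat_lit 4) (nat_lit 31) (nat_lit 32) = true := by decide +kernel
def p13_9_2_32 : pfC (piC [(nat_lit 42686981), (nat_lit 27030628), (nat_lit 20024807), (nat_lit 13470738)] (nat_lit 7011795)) p13_9_2 (nat_lit 4) (nat_lit 32) (nat_lit 33) = true := by decide +kernel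
def p13_9_2_33 : pfC (piC [(nat_lit 42686981), (nat_lit 27030628), (nat_lit 20024807), (nat_lit 13470738)] (nat_lit 7011795)) p13_9_2 (nat_lit 4) (nat_lit 33) (nat_lit 34) = true := by decide +kernel
def p13_9_2_34 : pfC (piC [(nat_lit 42686981), (nat_lit 27030628), (nat_lit 20024807), (nat_lit 13470738)] (nat_lit 7011795)) p13_9_2 (nat_lit 4) (nat_lit 34) (nat_lit 35) = true := by decide +kernel
def p13_9_2_35 : pfC (piC [(nat_lit 42686981), (nat_lit 27030628), (nat_lit 20024807), (nat_lit 13470738)] (nat_lit 7011795)) p13_9_2 (nat_lit 4) (nat_lit 35) (nat_lit 36) = true := by decide +kernel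
def p13_9_2_36 : pfC (piC [(nat_lit 42686981), (nat_lit 27030628), (nat_lit 20024807), (nat_lit 13470738)] (nat_lit 7011795)) p13_9_2 (nat_lit 4) (nat_lit 36) (nat_lit 37) = true := by decide +kernel
def p13_9_2_37 : pfC (piC [(nat_lit 42686981), (nat_lit 27030628), (nat_lit 20024807), (nat_lit 13470738)] (nat_lit 7011795)) p13_9_2 (nat_lit 4) (nat_lit 37) (nat_lit 38) = true := by decide +kernel
def p13_9_2_38 : pfC (piC [(nat_lit 42686981), (nat_lit 27030628), (nat_lit 20024807), (nat_lit 13470738)] (nat_lit 7011795)) p13_9_2 (nat_lit 4) (nat_lit 38) (nat_lit 39) = true := by decide +kernel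
def p13_9_2_39 : pfC (piC [(nat_lit 42686981), (nat_lit 27030628), (nat_lit 20024807), (nat_lit 13470738)] (nat_lit 7011795)) p13_9_2 (nat_lit 4) (nat_lit 39) (nat_lit 40) = true := by decide +kernel
def p13_9_2_40 : pfC (piC [(nat_lit 42686981), (nat_lit 27030628), (nat_lit 20024807), (nat_lit 13470738)] (nat_lit 7011795)) p13_9_2 (nat_lit 4) (nat_lit 40) (nat_lit 41) = true := by decide +kernel
def p13_9_2_41 : pfC (piC [(nat_lit 42686981), (nat_lit 27030628), (nat_lit 20024807), (nat_lit 13470738)] (nat_lit 7011795)) p13_9_2 (nat_lit 4) (nat_lit 41) (nat_lit 42) = true := by decide +kernel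
def p13_9_2_42 : pfC (piC [(nat_lit 42686981), (nat_lit 27030628), (nat_lit 20024807), (nat_lit 13470738)] (nat_lit 7011795)) p13_9_2 (nat_lit 4) (nat_lit 42) (nat_lit 43) = true := by decide +kernel
def p13_9_2_43 : pfC (piC [(nat_lit 42686981), (nat_lit 27030628), (nat_lit 20024807), (nat_lit 13470738)] (nat_lit 7011795)) p13_9_2 (nat_lit 4) (nat_lit 43) (nat_lit 44) = true := by decide +kernel
def p13_9_2_44 : pfC (piC [(nat_lit 42686981), (nat_lit 27030628), (nat_lit 20024807), (nat_lit 13470738)] (nat_lit 7011795)) p13_9_2 (nat_lit 4) (nat_lit 44) (nat_lit 45) = true := by decide +kernel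
def p13_9_2_45 : pfC (piC [(nat_lit 42686981), (nat_lit 27030628), (nat_lit 20024807), (nat_lit 13470738)] (nat_lit 7011795)) p13_9_2 (nat_lit 4) (nat_lit 45) (nat_lit 46) = true := by decide +kernel
def p13_9_2_46 : pfC (piC [(nat_lit 42686981), (nat_lit 27030628), (nat_lit 20024807), (nat_lit 13470738)] (nat_lit 7011795)) p13_9_2 (nat_lit 4) (nat_lit 46) (nat_lit 47) = true := by decide +kernel
def p13_9_2_47 : pfC (piC [(nat_lit 42686981), (nat_lit 27030628), (nat_lit 20024807), (nat_lit 13470738)] (nat_lit 7011795)) p13_9_2 (nat_lit 4) (nat_lit 47) (nat_lit 48) = true := by decide +kernel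
def p13_9_2_48 : pfC (piC [(nat_lit 42686981), (nat_lit 27030628), (nat_lit 20024807), (nat_lit 13470738)] (nat_lit 7011795)) p13_9_2 (nat_lit 4) (nat_lit 48) (nat_lit 49) = true := by decide +kernel
def p13_9_2_49 : pfC (piC [(nat_lit 42686981), (nat_lit 27030628), (nat_lit 20024807), (nat_lit 13470738)] (nat_lit 7011795)) p13_9_2 (nat_lit 4) (nat_lit 49) (nat_lit 50) = true := by decide +kernel
def p13_9_2_50 : pfC (piC [(nat_lit 42686981), (nat_lit 27030628), (nat_lit 20024807), (nat_lit 13470738)] (nat_lit 7011795)) p13_9_2 (nat_lit 4) (nat_lit 50) (nat_lit 51) = true := by decide +kernel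
def p13_9_2_51 : pfC (piC [(nat_lit 42686981), (nat_lit 27030628), (nat_lit 20024807), (nat_lit 13470738)] (nat_lit 7011795)) p13_9_2 (nat_lit 4) (nat_lit 51) (nat_lit 52) = true := by decide +kernel
def p13_9_2_52 : pfC (piC [(nat_lit 42686981), (nat_lit 27030628), (nat_lit 20024807), (nat_lit 13470738)] (nat_lit 7011795)) p13_9_2 (nat_lit 4) (nat_lit 52) (nat_lit 53) = true := by decide +kernel
def p13_9_2_53 : pfC (piC [(nat_lit 42686981), (nat_lit 27030628), (nat_lit 20024807), (nat_lit 13470738)] (nat_lit 7011795)) p13_9_2 (nat_lit 4) (nat_lit 53) (nat_lit 54) = true := by decide +kernel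
def p13_9_2_54 : pfC (piC [(nat_lit 42686981), (nat_lit 27030628), (nat_lit 20024807), (nat_lit 13470738)] (nat_lit 7011795)) p13_9_2 (nat_lit 4) (nat_lit 54) (nat_lit 55) = true := by decide +kernel
def p13_9_2_55 : pfC (piC [(nat_lit 42686981), (nat_lit 27030628), (nat_lit 20024807), (nat_lit 13470738)] (nat_lit 7011795)) p13_9_2 (nat_lit 4) (nat_lit 55) (nat_lit 56) = true := by decide +kernel
def p13_9_2_56 : pfC (piC [(nat_lit 42686981), (nat_lit 27030628), (nat_lit 20024807), (nat_lit 13470738)] (nat_lit 7011795)) p13_9_2 (nat_lit 4) (nat_lit 56) (nat_lit 57) = true := by decide +kernel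
def p13_9_2_57 : pfC (piC [(nat_lit 42686981), (nat_lit 27030628), (nat_lit 20024807), (nat_lit 13470738)] (nat_lit 7011795)) p13_9_2 (nat_lit 4) (nat_lit 57) (nat_lit 58) = true := by decide +kernel
def p13_9_2_58 : pfC (piC [(nat_lit 42686981), (nat_lit 27030628), (nat_lit 20024807), (nat_lit 13470738)] (nat_lit 7011795)) p13_9_2 (nat_lit 4) (nat_lit 58) (nat_lit 59) = true := by decide +kernel
def p13_9_2_59 : pfC (piC [(nat_lit 42686981), (nat_lit 27030628), (nat_lit 20024807), (nat_lit 13470738)] (nat_lit 7011795)) p13_9_2 (nat_lit 4) (nat_lit 59) (nat_lit 60) = true := by decide +kernel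
def p13_9_2_60 : pfC (piC [(nat_lit 42686981), (nat_lit 27030628), (nat_lit 20024807), (nat_lit 13470738)] (nat_lit 7011795)) p13_9_2 (nat_lit 4) (nat_lit 60) (nat_lit 61) = true := by decide +kernel
def p13_9_2_61 : pfC (piC [(nat_lit 42686981), (nat_lit 27030628), (nat_lit 20024807), (nat_lit 13470738)] (nat_lit 7011795)) p13_9_2 (nat_lit 4) (nat_lit 61) (nat_lit 62) = true := by decide +kernel
def p13_9_2_62 : pfC (piC [(nat_lit 42686981), (nat_lit 27030628), (nat_lit 20024807), (nat_lit 13470738)] (nat_lit 7011795)) p13_9_2 (nat_lit 4) (nat_lit 62) (nat_lit 63) = true := by decide +kernel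
def p13_9_2_63 : pfC (piC [(nat_lit 42686981), (nat_lit 27030628), (nat_lit 20024807), (nat_lit 13470738)] (nat_lit 7011795)) p13_9_2 (nat_lit 4) (nat_lit 63) (nat_lit 64) = true := by decide +kernel
def p13_9_2_64 : pfC (piC [(nat_lit 42686981), (nat_lit 27030628), (nat_lit 20024807), (nat_lit 13470738)] (nat_lit 7011795)) p13_9_2 (nat_lit 4) (nat_lit 64) (nat_lit 65) = true := by decide +kernel
def p13_9_2_65 : pfC (piC [(nat_lit 42686981), (nat_lit 27030628), (nat_lit 20024807), (nat_lit 13470738)] (nat_lit 7011795)) p13_9_2 (nat_lit 4) (nat_lit 65) (nat_lit 66) = true := by decide +kernel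
def p13_9_2_66 : pfC (piC [(nat_lit 42686981), (nat_lit 27030628), (nat_lit 20024807), (nat_lit 13470738)] (nat_lit 7011795)) p13_9_2 (nat_lit 4) (nat_lit 66) (nat_lit 67) = true := by decide +kernel
def p13_9_2_67 : pfC (piC [(nat_lit 42686981), (nat_lit 27030628), (nat_lit 20024807), (nat_lit 13470738)] (nat_lit 7011795)) p13_9_2 (nat_lit 4) (nat_lit 67) (nat_lit 68) = true := by decide +kernel
def p13_9_2_68 : pfC (piC [(nat_lit 42686981), (nat_lit 27030628), (nat_lit 20024807), (nat_lit 13470738)] (nat_lit 7011795)) p13_9_2 (nat_lit 4) (nat_lit 68) (nat_lit 69) = true := by decide +kernel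
def p13_9_2_69 : pfC (piC [(nat_lit 42686981), (nat_lit 27030628), (nat_lit 20024807), (nat_lit 13470738)] (nat_lit 7011795)) p13_9_2 (nat_lit 4) (nat_lit 69) (nat_lit 70) = true := by decide +kernel
def p13_9_2_70 : pfC (piC [(nat_lit 42686981), (nat_lit 27030628), (nat_lit 20024807), (nat_lit 13470738)] (nat_lit 7011795)) p13_9_2 (nat_lit 4) (nat_lit 70) (nat_lit 71) = true := by decide +kernel
def p13_9_2_71 : pfC (piC [(nat_lit 42686981), (nat_lit 27030628), (nat_lit 20024807), (nat_lit 13470738)] (nat_lit 7011795)) p13_9_2 (nat_lit 4) (nat_lit 71) (nat_lit 72) = true := by decide +kernel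
def p13_9_2_72 : pfC (piC [(nat_lit 42686981), (nat_lit 27030628), (nat_lit 20024807), (nat_lit 13470738)] (nat_lit 7011795)) p13_9_2 (nat_lit 4) (nat_lit 72) (nat_lit 73) = true := by decide +kernel
def p13_9_2_73 : pfC (piC [(nat_lit 42686981), (nat_lit 27030628), (nat_lit 20024807), (nat_lit 13470738)] (nat_lit 7011795)) p13_9_2 (nat_lit 4) (nat_lit 73) (nat_lit 74) = true := by decide +kernel
theorem p13_9_2_T : PfS (PiF n13_9.reverse (nat_lit 7011795)) p13_9_2 (nat_lit 4) [] 0 :=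
  pftab_of (los := [(nat_lit 42686981), (nat_lit 27030628), (nat_lit 20024807), (nat_lit 13470738)]) (by decide +kernel) (hi := (nat_lit 74)) (PfP.trans (PfP.trans (PfP.trans (PfP.trans (PfP.trans (PfP.trans (PfP.trans (PfP.trans (PfP.trans (PfP.trans (PfP.trans (PfP.trans (PfP.trans (PfP.trans (PfP.trans (PfP.trans (PfP.trans (PfP.trans (PfP.trans (PfP.trans (PfP.trans (PfP.trans (PfP.trans (PfP.trans (PfP.trans (PfP.trans (PfP.trans (PfP.trans (PfP.trans (PfP.trans (PfP.trans (PfP.trans (PfP.trans (PfP.trans (PfP.trans (PfP.trans (PfP.trans (PfP.trans (PfP.trans (PfP.trans (PfP.trans (PfP.trans (PfP.trans (PfP.trans (PfP.trans (PfP.trans (PfP.trans (PfP.trans (PfP.trans (PfP.trans (PfP.trans (PfP.trans (PfP.trans (PfP.trans (PfP.trans (PfP.trans (PfP.trans (PfP.trans (PfP.trans (PfP.trans (PfP.trans (PfP.trans (PfP.trans (PfP.trans (PfP.trans (PfP.trans (PfP.trans (PfP.trans (PfP.trans (PfP.trans (PfP.trans (PfP.trans (PfP.trans (pfC_sound p13_9_2_0)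 (pfC_sound p13_9_2_1)) (pfC_sound p13_9_2_2)) (pfC_sound p13_9_2_3)) (pfC_sound p13_9_2_4)) (pfC_sound p13_9_2_5)) (pfC_sound p13_9_2_6)) (pfC_sound p13_9_2_7)) (pfC_sound p13_9_2_8)) (pfC_sound p13_9_2_9)) (pfC_sound p13_9_2_10)) (pfC_sound p13_9_2_11)) (pfC_sound p13_9_2_12)) (pfC_sound p13_9_2_13)) (pfC_sound p13_9_2_14)) (pfC_sound p13_9_2_15)) (pfC_sound p13_9_2_16))
 (pfC_sound p13_9_2_17)) (pfC_sound p13_9_2_18)) (pfC_sound p13_9_2_19)) (pfC_sound p13_9_2_20)) (pfC_sound p13_9_2_21)) (pfC_sound p13_9_2_22)) (pfC_sound p13_9_2_23)) (pfC_sound p13_9_2_24)) (pfC_sound p13_9_2_25)) (pfC_sound p13_9_2_26)) (pfC_sound p13_9_2_27)) (pfC_sound p13_9_2_28)) (pfC_sound p13_9_2_29)) (pfC_sound p13_9_2_30)) (pfC_sound p13_9_2_31)) (pfC_sound p13_9_2_32)) (pfC_sound p13_9_2_33)) (pfC_sound p13_9_2_34)) (pfC_sound p13_9_2_35)) (pfC_sound p13_9_2_36)) (pfC_sound p13_9_2_37)) (pfC_sound p13_9_2_38)) (pfC_sound p13_9_2_39)) (pfC_sound p13_9_2_40)) (pfC_sound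 p13_9_2_41)) (pfC_sound p13_9_2_42)) (pfC_sound p13_9_2_43)) (pfC_sound p13_9_2_44)) (pfC_sound p13_9_2_45)) (pfC_sound p13_9_2_46)) (pfC_sound p13_9_2_47)) (pfC_sound p13_9_2_48)) (pfC_sound p13_9_2_49)) (pfC_sound p13_9_2_50)) (pfC_sound p13_9_2_51)) (pfC_sound p13_9_2_52)) (pfC_sound p13_9_2_53)) (pfC_sound p13_9_2_54)) (pfC_sound p13_9_2_55)) (pfC_sound p13_9_2_56)) (pfC_sound p13_9_2_57)) (pfC_sound p13_9_2_58)) (pfC_sound p13_9_2_59)) (pfC_sound p13_9_2_60)) (pfC_sound p13_9_2_61)) (pfC_sound p13_9_2_62)) (pfC_sound p13_9_2_63)) (pfC_sound p13_9_2_64)) (pfC_sound p13_9_2_65)) (pfC_sound p13_9_2_66))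
 (pfC_sound p13_9_2_67)) (pfC_sound p13_9_2_68)) (pfC_sound p13_9_2_69)) (pfC_sound p13_9_2_70)) (pfC_sound p13_9_2_71)) (pfC_sound p13_9_2_72)) (pfC_sound p13_9_2_73)) (by decide +kernel)

def z13_9_2 : zOK yB13_9 (nat_lit 2) (nat_lit 600) (nat_lit 750) (nat_lit 7011795) (nat_lit 5041812) = true := by decide +kernel
def g13_9_2 : gOK yB13_9.x P13_9 (nat_lit 1427) (q13_9 :: r13_9) (nat_lit 2) (nat_lit 600) (nat_lit 3) (nat_lit 750) (nat_lit 12712500) (nat_lit 12712500) (nat_lit 12712500) (nat_lit 12712500) [(nat_lit 800), (nat_lit 1600)] = true := by decide +kernel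
def v13_9_2 : ivC P13_9 s13_9 w13_9 n13_9 (nat_lit 4) (nat_lit 4880) (nat_lit 2) (nat_lit 600) f144_1_600 f152_1_600 (nat_lit 3) (nat_lit 750) f144_1_750 f152_1_750 (nat_lit 7011795) (nat_lit 5041812) p13_9_2 = true := by decide +kernel
def p13_9_3 : PF := (PF.cons (PF.cons (PF.cons (PF.cons (PF.leaf (nat_lit 3043477) (nat_lit 19962104) (nat_lit 47146708) (nat_lit 19962104) [(nat_lit 0), (nat_lit 0), (nat_lit 0), (nat_lit 0)]) (PF.cons (PF.leaf (nat_lit 3154150) (nat_lit 186495) (nat_lit 46990727) (nat_lit 19931590) [(nat_lit 186495), (nat_lit 0), (nat_lit 0), (nat_lit 0)]) (PF.cons (PF.leaf (nat_lit 3287870) (nat_lit 202767) (nat_lit 46807892) (nat_lit 19895386) [(nat_lit 202767), (nat_lit 0), (nat_lit 0), (nat_lit 0)]) (PF.cons (PF.leaf (nat_lit 3438024) (nat_lit 217215) (nat_lit 46602916) (nat_lit 19854248) [(nat_lit 217215), (nat_lit 0), (nat_lit 0), (nat_lit 0)]) (PF.cons (PF.leaf (nat_lit 3602330) (nat_lit 230259) (nat_lit 46379097) (nat_lit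 19808677) [(nat_lit 230259), (nat_lit 0), (nat_lit 0), (nat_lit 0)]) (PF.cons (PF.leaf (nat_lit 3779002) (nat_lit 242165) (nat_lit 46138949) (nat_lit 19759035) [(nat_lit 242165), (nat_lit 0), (nat_lit 0), (nat_lit 0)]) (PF.cons (PF.leaf (nat_lit 3966756) (nat_lit 253119) (nat_lit 45884495) (nat_lit 19705603) [(nat_lit 253119), (nat_lit 0), (nat_lit 0), (nat_lit 0)]) (PF.cons (PF.leaf (nat_lit 4164567) (nat_lit 263253) (nat_lit 45617426) (nat_lit 19648613) [(nat_lit 263253), (nat_lit 0),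
 (nat_lit 0), (nat_lit 0)]) (PF.cons PF.nil (PF.cons PF.nil PF.nil)))))))))) (PF.cons (PF.cons (PF.leaf (nat_lit 3490281) (nat_lit 1017225) (nat_lit 46301109) (nat_lit 19790478) [(nat_lit 0), (nat_lit 1017225), (nat_lit 0), (nat_lit 0)]) (PF.cons (PF.leaf (nat_lit 3636817) (nat_lit 227603) (nat_lit 46094529) (nat_lit 19747563) [(nat_lit 227603), (nat_lit 1039117), (nat_lit 0), (nat_lit 0)]) (PF.cons (PF.leaf (nat_lit 3800491) (nat_lit 240033) (nat_lit 45868075) (nat_lit 19699876) [(nat_lit 240033), (nat_lit 1060793), (nat_lit 0), (nat_lit 0)]) (PF.cons (PF.leaf (nat_lit 3976936) (nat_lit 251327) (nat_lit 45624986) (nat_lit 19647948) [(nat_lit 251327), (nat_lit 1081893), (nat_lit 0), (nat_lit 0)]) (PF.cons (PF.leaf (nat_lit 4164638) (nat_lit 261692) (nat_lit 45367660) (nat_lit 19592153) [(nat_lit 261692), (nat_lit 1102229), (nat_lit 0), (nat_lit 0)]) (PF.cons (PF.leaf (nat_lit 4362401) (nat_lit 271268) (nat_lit 45097987) (nat_lit 19532780) [(nat_lit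 271268), (nat_lit 1121701), (nat_lit 0), (nat_lit 0)]) (PF.cons (PF.leaf (nat_lit 4568992) (nat_lit 280159) (nat_lit 44817526) (nat_lit 19470065) [(nat_lit 280159), (nat_lit 1140264), (nat_lit 0), (nat_lit 0)]) (PF.cons PF.nil (PF.cons
 PF.nil PF.nil))))))))) (PF.cons (PF.cons (PF.leaf (nat_lit 4003167) (nat_lit 1090923) (nat_lit 45342561) (nat_lit 19584404) [(nat_lit 0), (nat_lit 1090923), (nat_lit 0), (nat_lit 0)]) (PF.cons (PF.leaf (nat_lit 4176518) (nat_lit 259193) (nat_lit 45099656) (nat_lit 19530855) [(nat_lit 259193), (nat_lit 1109553), (nat_lit 0), (nat_lit 0)]) (PF.cons (PF.leaf (nat_lit 4363119) (nat_lit 269148) (nat_lit 44841912) (nat_lit 19473231) [(nat_lit 269148), (nat_lit 1127686), (nat_lit 0), (nat_lit 0)]) (PF.cons (PF.leaf (nat_lit 4559959) (nat_lit 278302) (nat_lit 44571642) (nat_lit 19411925) [(nat_lit 278302), (nat_lit 1145168), (nat_lit 0), (nat_lit 0)]) (PF.cons (PF.leaf (nat_lit 4765882) (nat_lit 286775) (nat_lit 44290642) (nat_lit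 19347238) [(nat_lit 286775), (nat_lit 1161914), (nat_lit 0), (nat_lit 0)]) (PF.cons PF.nil (PF.cons PF.nil PF.nil))))))) (PF.cons (PF.cons (PF.leaf (nat_lit 4564103) (nat_lit 1150555) (nat_lit 44308164) (nat_lit 19348980) [(nat_lit 0), (nat_lit 1150555), (nat_lit 0), (nat_lit 0)]) (PF.cons (PF.leaf (nat_lit 4757944) (nat_lit 284439) (nat_lit 44039381) (nat_lit 19286246) [(nat_lit 284439), (nat_lit 1166248), (nat_lit 0), (nat_lit 0)]) (PF.cons (PF.leaf (nat_lit
 4962325) (nat_lit 292593) (nat_lit 43759532) (nat_lit 19220013) [(nat_lit 292593), (nat_lit 1181359), (nat_lit 0), (nat_lit 0)]) (PF.cons (PF.leaf (nat_lit 5174885) (nat_lit 300143) (nat_lit 43470328) (nat_lit 19150592) [(nat_lit 300143), (nat_lit 1195820), (nat_lit 0), (nat_lit 0)]) (PF.cons PF.nil PF.nil))))) (PF.cons (PF.cons (PF.leaf (nat_lit 5159913) (nat_lit 1198854) (nat_lit 43224840) (nat_lit 19088555) [(nat_lit 0), (nat_lit 1198854), (nat_lit 0), (nat_lit 0)]) (PF.cons (PF.leaf (nat_lit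 5369471) (nat_lit 304961) (nat_lit 42938161) (nat_lit 19017943) [(nat_lit 304961), (nat_lit 1211936), (nat_lit 0), (nat_lit 0)]) (PF.cons PF.nil (PF.cons PF.nil PF.nil)))) (PF.cons (PF.cons (PF.leaf (nat_lit 5780332) (nat_lit 1237724) (nat_lit 42113047) (nat_lit 18807144) [(nat_lit 0), (nat_lit 1237724), (nat_lit 0), (nat_lit 0)]) (PF.cons PF.nil PF.nil)) (PF.cons PF.nil (PF.cons PF.nil PF.nil)))))))) (PF.cons (PF.cons (PF.cons (PF.leaf (nat_lit 3986653) (nat_lit 2789711) (nat_lit 44855396) (nat_lit 19463705) [(nat_lit 0), (nat_lit 0), (nat_lit 2789711), (nat_lit 0)]) (PF.cons (PF.leaf (nat_lit 4141049) (nat_lit 245013) (nat_lit 44640582) (nat_lit 19415168) [(nat_lit 245013), (nat_lit 0),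
 (nat_lit 2808048), (nat_lit 0)]) (PF.cons (PF.leaf (nat_lit 4311876) (nat_lit 256802) (nat_lit 44406782) (nat_lit 19361700) [(nat_lit 256802), (nat_lit 0), (nat_lit 2826725), (nat_lit 0)]) (PF.cons (PF.leaf (nat_lit 4494838) (nat_lit 267362) (nat_lit 44157462) (nat_lit 19303951) [(nat_lit 267362), (nat_lit 0), (nat_lit 2845310), (nat_lit 0)]) (PF.cons (PF.leaf (nat_lit 4688320) (nat_lit 276944) (nat_lit 43895134) (nat_lit 19242384) [(nat_lit 276944), (nat_lit 0), (nat_lit 2863515), (nat_lit 0)]) (PF.cons (PF.leaf (nat_lit 4891002) (nat_lit 285716) (nat_lit 43621741) (nat_lit 19177349) [(nat_lit 285716), (nat_lit 0), (nat_lit 2881139), (nat_lit 0)]) (PF.cons PF.nil PF.nil))))))) (PF.cons (PF.cons (PF.leaf (nat_lit 4512968) (nat_lit 1138266) (nat_lit 43877986) (nat_lit 19236081) [(nat_lit 0), (nat_lit 1138266), (nat_lit 2856478), (nat_lit 0)]) (PF.cons (PF.leaf (nat_lit 4691972) (nat_lit 273537) (nat_lit 43631156) (nat_lit 19177335) [(nat_lit 273537),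 (nat_lit 1154072), (nat_lit 2872710), (nat_lit 0)]) (PF.cons (PF.leaf (nat_lit 4883442) (nat_lit 282822) (nat_lit 43370553) (nat_lit 19114534) [(nat_lit 282822), (nat_lit 1169385), (nat_lit 2888694), (nat_lit 0)]) (PF.cons (PF.leaf
 (nat_lit 5084487) (nat_lit 291274) (nat_lit 43098551) (nat_lit 19048143) [(nat_lit 291274), (nat_lit 1184087), (nat_lit 2904207), (nat_lit 0)]) (PF.cons (PF.leaf (nat_lit 5293850) (nat_lit 299029) (nat_lit 42816965) (nat_lit 18978514) [(nat_lit 299029), (nat_lit 1198115), (nat_lit 2919098), (nat_lit 0)]) PF.nil))))) (PF.cons (PF.cons (PF.leaf (nat_lit 5080681) (nat_lit 1187359) (nat_lit 42841063) (nat_lit 18982240) [(nat_lit 0), (nat_lit 1187359), (nat_lit 2910790), (nat_lit 0)]) (PF.cons (PF.leaf (nat_lit 5278112) (nat_lit 296077) (nat_lit 42572241) (nat_lit 18914984) [(nat_lit 296077), (nat_lit 1200586), (nat_lit 2924336), (nat_lit 0)]) (PF.cons (PF.leaf (nat_lit 5485335) (nat_lit 303591) (nat_lit 42293382) (nat_lit 18844353)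 [(nat_lit 303591), (nat_lit 1213266), (nat_lit 2937360), (nat_lit 0)]) (PF.cons PF.nil PF.nil)))) (PF.cons (PF.cons (PF.leaf (nat_lit 5677681) (nat_lit 1226848) (nat_lit 41768437) (nat_lit 18706772) [(nat_lit 0), (nat_lit 1226848), (nat_lit 2953059), (nat_lit 0)]) (PF.cons (PF.leaf (nat_lit 5888980) (nat_lit 314224) (nat_lit 41485020) (nat_lit 18632440) [(nat_lit 314224), (nat_lit 1237779), (nat_lit 2963789), (nat_lit 0)]) PF.nil)) (PF.cons PF.nil (PF.cons
 PF.nil PF.nil)))))) (PF.cons (PF.cons (PF.cons (PF.leaf (nat_lit 5016033) (nat_lit 2901563) (nat_lit 42436340) (nat_lit 18869345) [(nat_lit 0), (nat_lit 0), (nat_lit 2901563), (nat_lit 0)]) (PF.cons (PF.leaf (nat_lit 5198976) (nat_lit 285098) (nat_lit 42188978) (nat_lit 18806467) [(nat_lit 285098), (nat_lit 0), (nat_lit 2914133), (nat_lit 0)]) (PF.cons (PF.leaf (nat_lit 5393803) (nat_lit 293787) (nat_lit 41928831) (nat_lit 18739601) [(nat_lit 293787), (nat_lit 0), (nat_lit 2926402), (nat_lit 0)])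 (PF.cons (PF.leaf (nat_lit 5597602) (nat_lit 301619) (nat_lit 41658289) (nat_lit 18669268) [(nat_lit 301619), (nat_lit 0), (nat_lit 2938198), (nat_lit 0)]) (PF.cons PF.nil PF.nil))))) (PF.cons (PF.cons (PF.leaf (nat_lit 5586617) (nat_lit 1214947) (nat_lit 41408739) (nat_lit 18601480) [(nat_lit 0), (nat_lit 1214947), (nat_lit 2941822), (nat_lit 0)]) (PF.cons (PF.leaf (nat_lit 5786281) (nat_lit 305324) (nat_lit 41142602) (nat_lit 18530780) [(nat_lit 305324), (nat_lit 1226118), (nat_lit 2951993), (nat_lit 0)]) (PF.cons (PF.leaf (nat_lit 5995129) (nat_lit 312273) (nat_lit 40867336) (nat_lit 18456850) [(nat_lit 312273), (nat_lit 1236767), (nat_lit 2961655), (nat_lit 0)]) (PF.cons PF.nil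
 PF.nil)))) (PF.cons (PF.cons (PF.leaf (nat_lit 6181871) (nat_lit 1247163) (nat_lit 40355762) (nat_lit 18315128) [(nat_lit 0), (nat_lit 1247163), (nat_lit 2971797), (nat_lit 0)]) (PF.cons PF.nil PF.nil)) (PF.cons PF.nil (PF.cons PF.nil PF.nil))))) (PF.cons (PF.cons (PF.cons (PF.leaf (nat_lit 6080565) (nat_lit 2959182) (nat_lit 40019452) (nat_lit 18211812) [(nat_lit 0), (nat_lit 0), (nat_lit 2959182), (nat_lit 0)]) (PF.cons (PF.leaf (nat_lit 6281367) (nat_lit 312592) (nat_lit 39757978) (nat_lit 18138616) [(nat_lit 312592), (nat_lit 0), (nat_lit 2966541), (nat_lit 0)]) (PF.cons (PF.leaf (nat_lit 6490807) (nat_lit 319036) (nat_lit 39488180) (nat_lit 18062345) [(nat_lit 319036), (nat_lit 0), (nat_lit 2973404), (nat_lit 0)]) (PF.cons PF.nil PF.nil)))) (PF.cons (PF.cons (PF.leaf (nat_lit 6671732) (nat_lit 1261212) (nat_lit 38992393) (nat_lit 17918157) [(nat_lit 0), (nat_lit 1261212), (nat_lit 2979016), (nat_lit 0)]) (PF.cons PF.nil PF.nil)) (PF.cons PF.nil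 PF.nil))) (PF.cons (PF.cons (PF.cons (PF.leaf (nat_lit 7146907) (nat_lit 2976907) (nat_lit 37681587) (nat_lit 17519596) [(nat_lit 0), (nat_lit 0), (nat_lit 2976907), (nat_lit 0)]) (PF.cons PF.nil PF.nil)) (PF.cons PF.nil PF.nil))
 (PF.cons PF.nil PF.nil)))))) (PF.cons (PF.cons (PF.cons (PF.cons (PF.leaf (nat_lit 4820786) (nat_lit 7486089) (nat_lit 41159522) (nat_lit 18463201) [(nat_lit 0), (nat_lit 0), (nat_lit 0), (nat_lit 7486089)]) (PF.cons (PF.leaf (nat_lit 4975701) (nat_lit 253616) (nat_lit 40960068) (nat_lit 18410852) [(nat_lit 253616), (nat_lit 0), (nat_lit 0), (nat_lit 7484274)]) (PF.cons (PF.leaf (nat_lit 5146248) (nat_lit 264943) (nat_lit 40743712) (nat_lit 18353562) [(nat_lit 264943), (nat_lit 0), (nat_lit 0), (nat_lit 7481652)]) (PF.cons (PF.leaf (nat_lit 5328162) (nat_lit 274937) (nat_lit 40513755) (nat_lit 18292100) [(nat_lit 274937), (nat_lit 0), (nat_lit 0), (nat_lit 7478144)]) (PF.cons (PF.leaf (nat_lit 5519775) (nat_lit 283880) (nat_lit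 40272583) (nat_lit 18227015) [(nat_lit 283880), (nat_lit 0), (nat_lit 0), (nat_lit 7473692)]) (PF.cons (PF.leaf (nat_lit 5719740) (nat_lit 291962) (nat_lit 40022022) (nat_lit 18158725) [(nat_lit 291962), (nat_lit 0), (nat_lit 0), (nat_lit 7468253)]) (PF.cons PF.nil PF.nil))))))) (PF.cons (PF.cons (PF.leaf (nat_lit 5337079) (nat_lit 1156822) (nat_lit 40260815) (nat_lit 18221789) [(nat_lit 0), (nat_lit 1156822), (nat_lit 0), (nat_lit 7469385)]) (PF.cons
 (PF.leaf (nat_lit 5514290) (nat_lit 279682) (nat_lit 40034471) (nat_lit 18160092) [(nat_lit 279682), (nat_lit 1170048), (nat_lit 0), (nat_lit 7464517)]) (PF.cons (PF.leaf (nat_lit 5703122) (nat_lit 288363) (nat_lit 39796162) (nat_lit 18094535) [(nat_lit 288363), (nat_lit 1182706), (nat_lit 0), (nat_lit 7458680)]) (PF.cons (PF.leaf (nat_lit 5900736) (nat_lit 296164) (nat_lit 39548103) (nat_lit 18025650) [(nat_lit 296164), (nat_lit 1194718), (nat_lit 0), (nat_lit 7451848)]) (PF.cons (PF.leaf (nat_lit 6105871)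 (nat_lit 303236) (nat_lit 39291975) (nat_lit 17953836) [(nat_lit 303236), (nat_lit 1206050), (nat_lit 0), (nat_lit 7444006)]) PF.nil))))) (PF.cons (PF.cons (PF.leaf (nat_lit 5888155) (nat_lit 1195780) (nat_lit 39317326) (nat_lit 17958954) [(nat_lit 0), (nat_lit 1195780), (nat_lit 0), (nat_lit 7440972)]) (PF.cons (PF.leaf (nat_lit 6081571) (nat_lit 299698) (nat_lit 39073228) (nat_lit 17889931) [(nat_lit 299698), (nat_lit 1206531), (nat_lit 0), (nat_lit 7432891)]) (PF.cons (PF.leaf (nat_lit 6284034) (nat_lit 306570) (nat_lit 38820595) (nat_lit 17817836) [(nat_lit 306570), (nat_lit 1216722), (nat_lit 0), (nat_lit 7423795)]) (PF.cons PF.nil PF.nil)))) (PF.cons (PF.cons (PF.leaf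
 (nat_lit 6462947) (nat_lit 1226136) (nat_lit 38349497) (nat_lit 17679631) [(nat_lit 0), (nat_lit 1226136), (nat_lit 0), (nat_lit 7401273)]) (PF.cons (PF.leaf (nat_lit 6668335) (nat_lit 315436) (nat_lit 38094134) (nat_lit 17604841) [(nat_lit 315436), (nat_lit 1234782), (nat_lit 0), (nat_lit 7390054)]) PF.nil)) (PF.cons PF.nil PF.nil))))) (PF.cons (PF.cons (PF.cons (PF.leaf (nat_lit 5809449) (nat_lit 2882607) (nat_lit 38965027) (nat_lit 17849447) [(nat_lit 0), (nat_lit 0), (nat_lit 2882607), (nat_lit 7411730)]) (PF.cons (PF.leaf (nat_lit 5989142) (nat_lit 288333) (nat_lit 38740489) (nat_lit 17785261) [(nat_lit 288333), (nat_lit 0), (nat_lit 2890911), (nat_lit 7403817)]) (PF.cons (PF.leaf (nat_lit 6179922) (nat_lit 296451) (nat_lit 38504847) (nat_lit 17717336) [(nat_lit 296451), (nat_lit 0), (nat_lit 2898849), (nat_lit 7394877)]) (PF.cons (PF.leaf (nat_lit 6378948) (nat_lit 303682) (nat_lit 38260298) (nat_lit 17646235) [(nat_lit 303682), (nat_lit 0),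 (nat_lit 2906304), (nat_lit 7384927)]) (PF.cons PF.nil PF.nil))))) (PF.cons (PF.cons (PF.leaf (nat_lit 6360156) (nat_lit 1213174) (nat_lit 38038180) (nat_lit 17579177) [(nat_lit 0), (nat_lit 1213174), (nat_lit 2906553), (nat_lit
 7371726)]) (PF.cons (PF.leaf (nat_lit 6554642) (nat_lit 306325) (nat_lit 37798383) (nat_lit 17508317) [(nat_lit 306325), (nat_lit 1222240), (nat_lit 2912760), (nat_lit 7360785)]) (PF.cons (PF.leaf (nat_lit 6757637) (nat_lit 312691) (nat_lit 37550793) (nat_lit 17434542) [(nat_lit 312691), (nat_lit 1230780), (nat_lit 2918476), (nat_lit 7348837)]) (PF.cons PF.nil PF.nil)))) (PF.cons (PF.cons (PF.leaf (nat_lit 6931012) (nat_lit 1237752) (nat_lit 37094376) (nat_lit 17295020) [(nat_lit 0), (nat_lit 1237752), (nat_lit 2922162), (nat_lit 7321749)]) (PF.cons PF.nil PF.nil)) PF.nil))) (PF.cons (PF.cons (PF.cons (PF.leaf (nat_lit 6820160) (nat_lit 2907827) (nat_lit 36804009) (nat_lit 17197836) [(nat_lit 0), (nat_lit 0), (nat_lit 2907827),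 (nat_lit 7291312)]) (PF.cons (PF.leaf (nat_lit 7014912) (nat_lit 311419) (nat_lit 36569715) (nat_lit 17125826) [(nat_lit 311419), (nat_lit 0), (nat_lit 2911924), (nat_lit 7278002)]) (PF.cons PF.nil PF.nil))) (PF.cons (PF.cons (PF.leaf (nat_lit 7385510) (nat_lit 1244753) (nat_lit 35887752) (nat_lit 16911335) [(nat_lit 0), (nat_lit 1244753), (nat_lit 2915991), (nat_lit 7232989)]) PF.nil) PF.nil)) (PF.cons PF.nil (PF.cons PF.nil PF.nil))))) (PF.cons (PF.cons
 (PF.cons (PF.cons (PF.leaf (nat_lit 6529552) (nat_lit 7160964) (nat_lit 35916046) (nat_lit 16870837) [(nat_lit 0), (nat_lit 0), (nat_lit 0), (nat_lit 7160964)]) (PF.cons (PF.leaf (nat_lit 6704957) (nat_lit 288085) (nat_lit 35713663) (nat_lit 16807767) [(nat_lit 288085), (nat_lit 0), (nat_lit 0), (nat_lit 7149648)]) (PF.cons (PF.leaf (nat_lit 6890826) (nat_lit 295698) (nat_lit 35501587) (nat_lit 16741235) [(nat_lit 295698), (nat_lit 0), (nat_lit 0), (nat_lit 7137296)]) (PF.cons (PF.leaf (nat_lit 7084280)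 (nat_lit 302412) (nat_lit 35281809) (nat_lit 16671814) [(nat_lit 302412), (nat_lit 0), (nat_lit 0), (nat_lit 7123975)]) (PF.cons PF.nil PF.nil))))) (PF.cons (PF.cons (PF.leaf (nat_lit 7059626) (nat_lit 1199568) (nat_lit 35084894) (nat_lit 16607488) [(nat_lit 0), (nat_lit 1199568), (nat_lit 0), (nat_lit 7108430)]) (PF.cons (PF.leaf (nat_lit 7248366) (nat_lit 304270) (nat_lit 34869826) (nat_lit 16538681) [(nat_lit 304270), (nat_lit 1207045), (nat_lit 0), (nat_lit 7094494)]) (PF.cons PF.nil (PF.cons PF.nil PF.nil)))) (PF.cons (PF.cons (PF.leaf (nat_lit 7606587) (nat_lit 1218554) (nat_lit 34241941) (nat_lit 16333540) [(nat_lit 0), (nat_lit 1218554), (nat_lit 0), (nat_lit 7048110)])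
 (PF.cons PF.nil PF.nil)) PF.nil))) (PF.cons (PF.cons (PF.cons (PF.leaf (nat_lit 7489438) (nat_lit 2838973) (nat_lit 33991020) (nat_lit 16243854) [(nat_lit 0), (nat_lit 0), (nat_lit 2838973), (nat_lit 7017482)]) (PF.cons (PF.leaf (nat_lit 7677850) (nat_lit 307818) (nat_lit 33781546) (nat_lit 16174729) [(nat_lit 307818), (nat_lit 0), (nat_lit 2840840), (nat_lit 7001939)]) PF.nil)) (PF.cons PF.nil PF.nil)) (PF.cons PF.nil PF.nil))) (PF.cons (PF.cons (PF.cons (PF.cons (PF.leaf (nat_lit 8099867) (nat_lit 6741707) (nat_lit 31525179) (nat_lit 15358511) [(nat_lit 0), (nat_lit 0), (nat_lit 0), (nat_lit 6741707)]) (PF.cons PF.nil PF.nil)) (PF.cons PF.nil PF.nil)) (PF.cons PF.nil PF.nil)) (PF.cons PF.nil (PF.cons PF.nil (PF.cons PF.nil (PF.cons PF.nil PF.nil))))))))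

def p13_9_3_0 : pfC (piC [(nat_lit 42686981), (nat_lit 27030628), (nat_lit 20024807), (nat_lit 13470738)] (nat_lit 5041812)) p13_9_3 (nat_lit 4) (nat_lit 0) (nat_lit 1) = true := by decide +kernel
def p13_9_3_1 : pfC (piC [(nat_lit 42686981), (nat_lit 27030628), (nat_lit 20024807), (nat_lit 13470738)] (nat_lit 5041812)) p13_9_3 (nat_lit 4) (nat_lit 1) (nat_lit 2) = true := by decide +kernel
def p13_9_3_2 : pfC (piC [(nat_lit 42686981), (nat_lit 27030628), (nat_lit 20024807), (nat_lit 13470738)] (nat_lit 5041812)) p13_9_3 (nat_lit 4) (nat_lit 2) (nat_lit 3) = true := by decide +kernel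
def p13_9_3_3 : pfC (piC [(nat_lit 42686981), (nat_lit 27030628), (nat_lit 20024807), (nat_lit 13470738)] (nat_lit 5041812)) p13_9_3 (nat_lit 4) (nat_lit 3) (nat_lit 4) = true := by decide +kernel
def p13_9_3_4 : pfC (piC [(nat_lit 42686981), (nat_lit 27030628), (nat_lit 20024807), (nat_lit 13470738)] (nat_lit 5041812)) p13_9_3 (nat_lit 4) (nat_lit 4) (nat_lit 5) = true := by decide +kernel
def p13_9_3_5 : pfC (piC [(nat_lit 42686981), (nat_lit 27030628), (nat_lit 20024807), (nat_lit 13470738)] (nat_lit 5041812)) p13_9_3 (nat_lit 4) (nat_lit 5) (nat_lit 6) = true := by decide +kernel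
def p13_9_3_6 : pfC (piC [(nat_lit 42686981), (nat_lit 27030628), (nat_lit 20024807), (nat_lit 13470738)] (nat_lit 5041812)) p13_9_3 (nat_lit 4) (nat_lit 6) (nat_lit 7) = true := by decide +kernel
def p13_9_3_7 : pfC (piC [(nat_lit 42686981), (nat_lit 27030628), (nat_lit 20024807), (nat_lit 13470738)] (nat_lit 5041812)) p13_9_3 (nat_lit 4) (nat_lit 7) (nat_lit 8) = true := by decide +kernel
def p13_9_3_8 : pfC (piC [(nat_lit 42686981), (nat_lit 27030628), (nat_lit 20024807), (nat_lit 13470738)] (nat_lit 5041812)) p13_9_3 (nat_lit 4) (nat_lit 8) (nat_lit 9) = true := by decide +kernel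
def p13_9_3_9 : pfC (piC [(nat_lit 42686981), (nat_lit 27030628), (nat_lit 20024807), (nat_lit 13470738)] (nat_lit 5041812)) p13_9_3 (nat_lit 4) (nat_lit 9) (nat_lit 10) = true := by decide +kernel
def p13_9_3_10 : pfC (piC [(nat_lit 42686981), (nat_lit 27030628), (nat_lit 20024807), (nat_lit 13470738)] (nat_lit 5041812)) p13_9_3 (nat_lit 4) (nat_lit 10) (nat_lit 11) = true := by decide +kernel
def p13_9_3_11 : pfC (piC [(nat_lit 42686981), (nat_lit 27030628), (nat_lit 20024807), (nat_lit 13470738)] (nat_lit 5041812)) p13_9_3 (nat_lit 4) (nat_lit 11) (nat_lit 12) = true := by decide +kernel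
def p13_9_3_12 : pfC (piC [(nat_lit 42686981), (nat_lit 27030628), (nat_lit 20024807), (nat_lit 13470738)] (nat_lit 5041812)) p13_9_3 (nat_lit 4) (nat_lit 12) (nat_lit 13) = true := by decide +kernel
def p13_9_3_13 : pfC (piC [(nat_lit 42686981), (nat_lit 27030628), (nat_lit 20024807), (nat_lit 13470738)] (nat_lit 5041812)) p13_9_3 (nat_lit 4) (nat_lit 13) (nat_lit 14) = true := by decide +kernel
def p13_9_3_14 : pfC (piC [(nat_lit 42686981), (nat_lit 27030628), (nat_lit 20024807), (nat_lit 13470738)] (nat_lit 5041812)) p13_9_3 (nat_lit 4) (nat_lit 14) (nat_lit 15) = true := by decide +kernel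
def p13_9_3_15 : pfC (piC [(nat_lit 42686981), (nat_lit 27030628), (nat_lit 20024807), (nat_lit 13470738)] (nat_lit 5041812)) p13_9_3 (nat_lit 4) (nat_lit 15) (nat_lit 16) = true := by decide +kernel
def p13_9_3_16 : pfC (piC [(nat_lit 42686981), (nat_lit 27030628), (nat_lit 20024807), (nat_lit 13470738)] (nat_lit 5041812)) p13_9_3 (nat_lit 4) (nat_lit 16) (nat_lit 17) = true := by decide +kernel
def p13_9_3_17 : pfC (piC [(nat_lit 42686981), (nat_lit 27030628), (nat_lit 20024807), (nat_lit 13470738)] (nat_lit 5041812)) p13_9_3 (nat_lit 4) (nat_lit 17) (nat_lit 18) = true := by decide +kernel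
def p13_9_3_18 : pfC (piC [(nat_lit 42686981), (nat_lit 27030628), (nat_lit 20024807), (nat_lit 13470738)] (nat_lit 5041812)) p13_9_3 (nat_lit 4) (nat_lit 18) (nat_lit 19) = true := by decide +kernel
def p13_9_3_19 : pfC (piC [(nat_lit 42686981), (nat_lit 27030628), (nat_lit 20024807), (nat_lit 13470738)] (nat_lit 5041812)) p13_9_3 (nat_lit 4) (nat_lit 19) (nat_lit 20) = true := by decide +kernel
def p13_9_3_20 : pfC (piC [(nat_lit 42686981), (nat_lit 27030628), (nat_lit 20024807), (nat_lit 13470738)] (nat_lit 5041812)) p13_9_3 (nat_lit 4) (nat_lit 20) (nat_lit 21) = true := by decide +kernel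
def p13_9_3_21 : pfC (piC [(nat_lit 42686981), (nat_lit 27030628), (nat_lit 20024807), (nat_lit 13470738)] (nat_lit 5041812)) p13_9_3 (nat_lit 4) (nat_lit 21) (nat_lit 22) = true := by decide +kernel
def p13_9_3_22 : pfC (piC [(nat_lit 42686981), (nat_lit 27030628), (nat_lit 20024807), (nat_lit 13470738)] (nat_lit 5041812)) p13_9_3 (nat_lit 4) (nat_lit 22) (nat_lit 23) = true := by decide +kernel
def p13_9_3_23 : pfC (piC [(nat_lit 42686981), (nat_lit 27030628), (nat_lit 20024807), (nat_lit 13470738)] (nat_lit 5041812)) p13_9_3 (nat_lit 4) (nat_lit 23) (nat_lit 24) = true := by decide +kernel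
def p13_9_3_24 : pfC (piC [(nat_lit 42686981), (nat_lit 27030628), (nat_lit 20024807), (nat_lit 13470738)] (nat_lit 5041812)) p13_9_3 (nat_lit 4) (nat_lit 24) (nat_lit 25) = true := by decide +kernel
def p13_9_3_25 : pfC (piC [(nat_lit 42686981), (nat_lit 27030628), (nat_lit 20024807), (nat_lit 13470738)] (nat_lit 5041812)) p13_9_3 (nat_lit 4) (nat_lit 25) (nat_lit 26) = true := by decide +kernel
def p13_9_3_26 : pfC (piC [(nat_lit 42686981), (nat_lit 27030628), (nat_lit 20024807), (nat_lit 13470738)] (nat_lit 5041812)) p13_9_3 (nat_lit 4) (nat_lit 26) (nat_lit 27) = true := by decide +kernel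
def p13_9_3_27 : pfC (piC [(nat_lit 42686981), (nat_lit 27030628), (nat_lit 20024807), (nat_lit 13470738)] (nat_lit 5041812)) p13_9_3 (nat_lit 4) (nat_lit 27) (nat_lit 28) = true := by decide +kernel
def p13_9_3_28 : pfC (piC [(nat_lit 42686981), (nat_lit 27030628), (nat_lit 20024807), (nat_lit 13470738)] (nat_lit 5041812)) p13_9_3 (nat_lit 4) (nat_lit 28) (nat_lit 29) = true := by decide +kernel
def p13_9_3_29 : pfC (piC [(nat_lit 42686981), (nat_lit 27030628), (nat_lit 20024807), (nat_lit 13470738)] (nat_lit 5041812)) p13_9_3 (nat_lit 4) (nat_lit 29) (nat_lit 30) = true := by decide +kernel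
def p13_9_3_30 : pfC (piC [(nat_lit 42686981), (nat_lit 27030628), (nat_lit 20024807), (nat_lit 13470738)] (nat_lit 5041812)) p13_9_3 (nat_lit 4) (nat_lit 30) (nat_lit 31) = true := by decide +kernel
def p13_9_3_31 : pfC (piC [(nat_lit 42686981), (nat_lit 27030628), (nat_lit 20024807), (nat_lit 13470738)] (nat_lit 5041812)) p13_9_3 (nat_lit 4) (nat_lit 31) (nat_lit 32) = true := by decide +kernel
def p13_9_3_32 : pfC (piC [(nat_lit 42686981), (nat_lit 27030628), (nat_lit 20024807), (nat_lit 13470738)] (nat_lit 5041812)) p13_9_3 (nat_lit 4) (nat_lit 32) (nat_lit 33) = true := by decide +kernel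
def p13_9_3_33 : pfC (piC [(nat_lit 42686981), (nat_lit 27030628), (nat_lit 20024807), (nat_lit 13470738)] (nat_lit 5041812)) p13_9_3 (nat_lit 4) (nat_lit 33) (nat_lit 34) = true := by decide +kernel
def p13_9_3_34 : pfC (piC [(nat_lit 42686981), (nat_lit 27030628), (nat_lit 20024807), (nat_lit 13470738)] (nat_lit 5041812)) p13_9_3 (nat_lit 4) (nat_lit 34) (nat_lit 35) = true := by decide +kernel
def p13_9_3_35 : pfC (piC [(nat_lit 42686981), (nat_lit 27030628), (nat_lit 20024807), (nat_lit 13470738)] (nat_lit 5041812)) p13_9_3 (nat_lit 4) (nat_lit 35) (nat_lit 36) = true := by decide +kernel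
def p13_9_3_36 : pfC (piC [(nat_lit 42686981), (nat_lit 27030628), (nat_lit 20024807), (nat_lit 13470738)] (nat_lit 5041812)) p13_9_3 (nat_lit 4) (nat_lit 36) (nat_lit 37) = true := by decide +kernel
def p13_9_3_37 : pfC (piC [(nat_lit 42686981), (nat_lit 27030628), (nat_lit 20024807), (nat_lit 13470738)] (nat_lit 5041812)) p13_9_3 (nat_lit 4) (nat_lit 37) (nat_lit 38) = true := by decide +kernel
def p13_9_3_38 : pfC (piC [(nat_lit 42686981), (nat_lit 27030628), (nat_lit 20024807), (nat_lit 13470738)] (nat_lit 5041812)) p13_9_3 (nat_lit 4) (nat_lit 38) (nat_lit 39) = true := by decide +kernel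
def p13_9_3_39 : pfC (piC [(nat_lit 42686981), (nat_lit 27030628), (nat_lit 20024807), (nat_lit 13470738)] (nat_lit 5041812)) p13_9_3 (nat_lit 4) (nat_lit 39) (nat_lit 40) = true := by decide +kernel
def p13_9_3_40 : pfC (piC [(nat_lit 42686981), (nat_lit 27030628), (nat_lit 20024807), (nat_lit 13470738)] (nat_lit 5041812)) p13_9_3 (nat_lit 4) (nat_lit 40) (nat_lit 41) = true := by decide +kernel
def p13_9_3_41 : pfC (piC [(nat_lit 42686981), (nat_lit 27030628), (nat_lit 20024807), (nat_lit 13470738)] (nat_lit 5041812)) p13_9_3 (nat_lit 4) (nat_lit 41) (nat_lit 42) = true := by decide +kernel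
def p13_9_3_42 : pfC (piC [(nat_lit 42686981), (nat_lit 27030628), (nat_lit 20024807), (nat_lit 13470738)] (nat_lit 5041812)) p13_9_3 (nat_lit 4) (nat_lit 42) (nat_lit 43) = true := by decide +kernel
def p13_9_3_43 : pfC (piC [(nat_lit 42686981), (nat_lit 27030628), (nat_lit 20024807), (nat_lit 13470738)] (nat_lit 5041812)) p13_9_3 (nat_lit 4) (nat_lit 43) (nat_lit 44) = true := by decide +kernel
def p13_9_3_44 : pfC (piC [(nat_lit 42686981), (nat_lit 27030628), (nat_lit 20024807), (nat_lit 13470738)] (nat_lit 5041812)) p13_9_3 (nat_lit 4) (nat_lit 44) (nat_lit 45) = true := by decide +kernel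
def p13_9_3_45 : pfC (piC [(nat_lit 42686981), (nat_lit 27030628), (nat_lit 20024807), (nat_lit 13470738)] (nat_lit 5041812)) p13_9_3 (nat_lit 4) (nat_lit 45) (nat_lit 46) = true := by decide +kernel
def p13_9_3_46 : pfC (piC [(nat_lit 42686981), (nat_lit 27030628), (nat_lit 20024807), (nat_lit 13470738)] (nat_lit 5041812)) p13_9_3 (nat_lit 4) (nat_lit 46) (nat_lit 47) = true := by decide +kernel
def p13_9_3_47 : pfC (piC [(nat_lit 42686981), (nat_lit 27030628), (nat_lit 20024807), (nat_lit 13470738)] (nat_lit 5041812)) p13_9_3 (nat_lit 4) (nat_lit 47) (nat_lit 48) = true := by decide +kernel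
def p13_9_3_48 : pfC (piC [(nat_lit 42686981), (nat_lit 27030628), (nat_lit 20024807), (nat_lit 13470738)] (nat_lit 5041812)) p13_9_3 (nat_lit 4) (nat_lit 48) (nat_lit 49) = true := by decide +kernel
def p13_9_3_49 : pfC (piC [(nat_lit 42686981), (nat_lit 27030628), (nat_lit 20024807), (nat_lit 13470738)] (nat_lit 5041812)) p13_9_3 (nat_lit 4) (nat_lit 49) (nat_lit 50) = true := by decide +kernel
def p13_9_3_50 : pfC (piC [(nat_lit 42686981), (nat_lit 27030628), (nat_lit 20024807), (nat_lit 13470738)] (nat_lit 5041812)) p13_9_3 (nat_lit 4) (nat_lit 50) (nat_lit 51) = true := by decide +kernel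
def p13_9_3_51 : pfC (piC [(nat_lit 42686981), (nat_lit 27030628), (nat_lit 20024807), (nat_lit 13470738)] (nat_lit 5041812)) p13_9_3 (nat_lit 4) (nat_lit 51) (nat_lit 52) = true := by decide +kernel
def p13_9_3_52 : pfC (piC [(nat_lit 42686981), (nat_lit 27030628), (nat_lit 20024807), (nat_lit 13470738)] (nat_lit 5041812)) p13_9_3 (nat_lit 4) (nat_lit 52) (nat_lit 53) = true := by decide +kernel
def p13_9_3_53 : pfC (piC [(nat_lit 42686981), (nat_lit 27030628), (nat_lit 20024807), (nat_lit 13470738)] (nat_lit 5041812)) p13_9_3 (nat_lit 4) (nat_lit 53) (nat_lit 54) = true := by decide +kernel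
def p13_9_3_54 : pfC (piC [(nat_lit 42686981), (nat_lit 27030628), (nat_lit 20024807), (nat_lit 13470738)] (nat_lit 5041812)) p13_9_3 (nat_lit 4) (nat_lit 54) (nat_lit 55) = true := by decide +kernel
def p13_9_3_55 : pfC (piC [(nat_lit 42686981), (nat_lit 27030628), (nat_lit 20024807), (nat_lit 13470738)] (nat_lit 5041812)) p13_9_3 (nat_lit 4) (nat_lit 55) (nat_lit 56) = true := by decide +kernel
def p13_9_3_56 : pfC (piC [(nat_lit 42686981), (nat_lit 27030628), (nat_lit 20024807), (nat_lit 13470738)] (nat_lit 5041812)) p13_9_3 (nat_lit 4) (nat_lit 56) (nat_lit 57) = true := by decide +kernel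
def p13_9_3_57 : pfC (piC [(nat_lit 42686981), (nat_lit 27030628), (nat_lit 20024807), (nat_lit 13470738)] (nat_lit 5041812)) p13_9_3 (nat_lit 4) (nat_lit 57) (nat_lit 58) = true := by decide +kernel
def p13_9_3_58 : pfC (piC [(nat_lit 42686981), (nat_lit 27030628), (nat_lit 20024807), (nat_lit 13470738)] (nat_lit 5041812)) p13_9_3 (nat_lit 4) (nat_lit 58) (nat_lit 59) = true := by decide +kernel
def p13_9_3_59 : pfC (piC [(nat_lit 42686981), (nat_lit 27030628), (nat_lit 20024807), (nat_lit 13470738)] (nat_lit 5041812)) p13_9_3 (nat_lit 4) (nat_lit 59) (nat_lit 60) = true := by decide +kernel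
def p13_9_3_60 : pfC (piC [(nat_lit 42686981), (nat_lit 27030628), (nat_lit 20024807), (nat_lit 13470738)] (nat_lit 5041812)) p13_9_3 (nat_lit 4) (nat_lit 60) (nat_lit 61) = true := by decide +kernel
def p13_9_3_61 : pfC (piC [(nat_lit 42686981), (nat_lit 27030628), (nat_lit 20024807), (nat_lit 13470738)] (nat_lit 5041812)) p13_9_3 (nat_lit 4) (nat_lit 61) (nat_lit 62) = true := by decide +kernel
def p13_9_3_62 : pfC (piC [(nat_lit 42686981), (nat_lit 27030628), (nat_lit 20024807), (nat_lit 13470738)] (nat_lit 5041812)) p13_9_3 (nat_lit 4) (nat_lit 62) (nat_lit 63) = true := by decide +kernel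
def p13_9_3_63 : pfC (piC [(nat_lit 42686981), (nat_lit 27030628), (nat_lit 20024807), (nat_lit 13470738)] (nat_lit 5041812)) p13_9_3 (nat_lit 4) (nat_lit 63) (nat_lit 64) = true := by decide +kernel
def p13_9_3_64 : pfC (piC [(nat_lit 42686981), (nat_lit 27030628), (nat_lit 20024807), (nat_lit 13470738)] (nat_lit 5041812)) p13_9_3 (nat_lit 4) (nat_lit 64) (nat_lit 65) = true := by decide +kernel
def p13_9_3_65 : pfC (piC [(nat_lit 42686981), (nat_lit 27030628), (nat_lit 20024807), (nat_lit 13470738)] (nat_lit 5041812)) p13_9_3 (nat_lit 4) (nat_lit 65) (nat_lit 66) = true := by decide +kernel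
def p13_9_3_66 : pfC (piC [(nat_lit 42686981), (nat_lit 27030628), (nat_lit 20024807), (nat_lit 13470738)] (nat_lit 5041812)) p13_9_3 (nat_lit 4) (nat_lit 66) (nat_lit 67) = true := by decide +kernel
def p13_9_3_67 : pfC (piC [(nat_lit 42686981), (nat_lit 27030628), (nat_lit 20024807), (nat_lit 13470738)] (nat_lit 5041812)) p13_9_3 (nat_lit 4) (nat_lit 67) (nat_lit 68) = true := by decide +kernel
def p13_9_3_68 : pfC (piC [(nat_lit 42686981), (nat_lit 27030628), (nat_lit 20024807), (nat_lit 13470738)] (nat_lit 5041812)) p13_9_3 (nat_lit 4) (nat_lit 68) (nat_lit 69) = true := by decide +kernel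
def p13_9_3_69 : pfC (piC [(nat_lit 42686981), (nat_lit 27030628), (nat_lit 20024807), (nat_lit 13470738)] (nat_lit 5041812)) p13_9_3 (nat_lit 4) (nat_lit 69) (nat_lit 70) = true := by decide +kernel
def p13_9_3_70 : pfC (piC [(nat_lit 42686981), (nat_lit 27030628), (nat_lit 20024807), (nat_lit 13470738)] (nat_lit 5041812)) p13_9_3 (nat_lit 4) (nat_lit 70) (nat_lit 71) = true := by decide +kernel
def p13_9_3_71 : pfC (piC [(nat_lit 42686981), (nat_lit 27030628), (nat_lit 20024807), (nat_lit 13470738)] (nat_lit 5041812)) p13_9_3 (nat_lit 4) (nat_lit 71) (nat_lit 72) = true := by decide +kernel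
def p13_9_3_72 : pfC (piC [(nat_lit 42686981), (nat_lit 27030628), (nat_lit 20024807), (nat_lit 13470738)] (nat_lit 5041812)) p13_9_3 (nat_lit 4) (nat_lit 72) (nat_lit 73) = true := by decide +kernel
def p13_9_3_73 : pfC (piC [(nat_lit 42686981), (nat_lit 27030628), (nat_lit 20024807), (nat_lit 13470738)] (nat_lit 5041812)) p13_9_3 (nat_lit 4) (nat_lit 73) (nat_lit 74) = true := by decide +kernel
def p13_9_3_74 : pfC (piC [(nat_lit 42686981), (nat_lit 27030628), (nat_lit 20024807), (nat_lit 13470738)] (nat_lit 5041812)) p13_9_3 (nat_lit 4) (nat_lit 74) (nat_lit 75) = true := by decide +kernel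
def p13_9_3_75 : pfC (piC [(nat_lit 42686981), (nat_lit 27030628), (nat_lit 20024807), (nat_lit 13470738)] (nat_lit 5041812)) p13_9_3 (nat_lit 4) (nat_lit 75) (nat_lit 76) = true := by decide +kernel
def p13_9_3_76 : pfC (piC [(nat_lit 42686981), (nat_lit 27030628), (nat_lit 20024807), (nat_lit 13470738)] (nat_lit 5041812)) p13_9_3 (nat_lit 4) (nat_lit 76) (nat_lit 77) = true := by decide +kernel
def p13_9_3_77 : pfC (piC [(nat_lit 42686981), (nat_lit 27030628), (nat_lit 20024807), (nat_lit 13470738)] (nat_lit 5041812)) p13_9_3 (nat_lit 4) (nat_lit 77) (nat_lit 78) = true := by decide +kernel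
def p13_9_3_78 : pfC (piC [(nat_lit 42686981), (nat_lit 27030628), (nat_lit 20024807), (nat_lit 13470738)] (nat_lit 5041812)) p13_9_3 (nat_lit 4) (nat_lit 78) (nat_lit 79) = true := by decide +kernel
def p13_9_3_79 : pfC (piC [(nat_lit 42686981), (nat_lit 27030628), (nat_lit 20024807), (nat_lit 13470738)] (nat_lit 5041812)) p13_9_3 (nat_lit 4) (nat_lit 79) (nat_lit 80) = true := by decide +kernel
def p13_9_3_80 : pfC (piC [(nat_lit 42686981), (nat_lit 27030628), (nat_lit 20024807), (nat_lit 13470738)] (nat_lit 5041812)) p13_9_3 (nat_lit 4) (nat_lit 80) (nat_lit 81) = true := by decide +kernel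
def p13_9_3_81 : pfC (piC [(nat_lit 42686981), (nat_lit 27030628), (nat_lit 20024807), (nat_lit 13470738)] (nat_lit 5041812)) p13_9_3 (nat_lit 4) (nat_lit 81) (nat_lit 82) = true := by decide +kernel
def p13_9_3_82 : pfC (piC [(nat_lit 42686981), (nat_lit 27030628), (nat_lit 20024807), (nat_lit 13470738)] (nat_lit 5041812)) p13_9_3 (nat_lit 4) (nat_lit 82) (nat_lit 83) = true := by decide +kernel
def p13_9_3_83 : pfC (piC [(nat_lit 42686981), (nat_lit 27030628), (nat_lit 20024807), (nat_lit 13470738)] (nat_lit 5041812)) p13_9_3 (nat_lit 4) (nat_lit 83) (nat_lit 84) = true := by decide +kernel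
def p13_9_3_84 : pfC (piC [(nat_lit 42686981), (nat_lit 27030628), (nat_lit 20024807), (nat_lit 13470738)] (nat_lit 5041812)) p13_9_3 (nat_lit 4) (nat_lit 84) (nat_lit 85) = true := by decide +kernel
def p13_9_3_85 : pfC (piC [(nat_lit 42686981), (nat_lit 27030628), (nat_lit 20024807), (nat_lit 13470738)] (nat_lit 5041812)) p13_9_3 (nat_lit 4) (nat_lit 85) (nat_lit 86) = true := by decide +kernel
def p13_9_3_86 : pfC (piC [(nat_lit 42686981), (nat_lit 27030628), (nat_lit 20024807), (nat_lit 13470738)] (nat_lit 5041812)) p13_9_3 (nat_lit 4) (nat_lit 86) (nat_lit 87) = true := by decide +kernel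
def p13_9_3_87 : pfC (piC [(nat_lit 42686981), (nat_lit 27030628), (nat_lit 20024807), (nat_lit 13470738)] (nat_lit 5041812)) p13_9_3 (nat_lit 4) (nat_lit 87) (nat_lit 88) = true := by decide +kernel
def p13_9_3_88 : pfC (piC [(nat_lit 42686981), (nat_lit 27030628), (nat_lit 20024807), (nat_lit 13470738)] (nat_lit 5041812)) p13_9_3 (nat_lit 4) (nat_lit 88) (nat_lit 89) = true := by decide +kernel
def p13_9_3_89 : pfC (piC [(nat_lit 42686981), (nat_lit 27030628), (nat_lit 20024807), (nat_lit 13470738)] (nat_lit 5041812)) p13_9_3 (nat_lit 4) (nat_lit 89) (nat_lit 90) = true := by decide +kernel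
def p13_9_3_90 : pfC (piC [(nat_lit 42686981), (nat_lit 27030628), (nat_lit 20024807), (nat_lit 13470738)] (nat_lit 5041812)) p13_9_3 (nat_lit 4) (nat_lit 90) (nat_lit 91) = true := by decide +kernel
def p13_9_3_91 : pfC (piC [(nat_lit 42686981), (nat_lit 27030628), (nat_lit 20024807), (nat_lit 13470738)] (nat_lit 5041812)) p13_9_3 (nat_lit 4) (nat_lit 91) (nat_lit 92) = true := by decide +kernel
def p13_9_3_92 : pfC (piC [(nat_lit 42686981), (nat_lit 27030628), (nat_lit 20024807), (nat_lit 13470738)] (nat_lit 5041812)) p13_9_3 (nat_lit 4) (nat_lit 92) (nat_lit 93) = true := by decide +kernel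
theorem p13_9_3_T : PfS (PiF n13_9.reverse (nat_lit 5041812)) p13_9_3 (nat_lit 4) [] 0 :=
  pftab_of (los := [(nat_lit 42686981), (nat_lit 27030628), (nat_lit 20024807), (nat_lit 13470738)]) (by decide +kernel) (hi := (nat_lit 93)) (PfP.trans (PfP.trans (PfP.trans (PfP.trans (PfP.trans (PfP.trans (PfP.trans (PfP.trans (PfP.trans (PfP.trans (PfP.trans (PfP.trans (PfP.trans (PfP.trans (PfP.trans (PfP.trans (PfP.trans (PfP.trans (PfP.trans (PfP.trans (PfP.trans (PfP.trans (PfP.trans (PfP.trans (PfP.trans (PfP.trans (PfP.trans (PfP.trans (PfP.trans (PfP.trans (PfP.trans (PfP.trans (PfP.trans (PfP.trans (PfP.trans (PfP.trans (PfP.trans (PfP.trans (PfP.trans (PfP.trans (PfP.trans (PfP.trans (PfP.trans (PfP.trans (PfP.trans (PfP.trans (PfP.trans (PfP.trans (PfP.trans (PfP.trans (PfP.trans (PfP.trans (PfP.trans (PfP.trans (PfP.trans (PfP.trans (PfP.trans (PfP.trans (PfP.trans (PfP.trans (PfP.trans (PfP.trans (PfP.trans (PfP.trans (PfP.trans (PfP.trans (PfP.trans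 (PfP.trans (PfP.trans (PfP.trans (PfP.trans (PfP.trans (PfP.trans (PfP.trans (PfP.trans (PfP.trans (PfP.trans (PfP.trans (PfP.trans (PfP.trans (PfP.trans (PfP.trans (PfP.trans (PfP.trans (PfP.trans (PfP.trans (PfP.trans (PfP.trans (PfP.trans (PfP.trans (PfP.trans (PfP.trans (pfC_sound p13_9_3_0) (pfC_sound p13_9_3_1)) (pfC_sound p13_9_3_2)) (pfC_sound p13_9_3_3)) (pfC_sound p13_9_3_4)) (pfC_sound p13_9_3_5)) (pfC_sound p13_9_3_6)) (pfC_sound p13_9_3_7))
 (pfC_sound p13_9_3_8)) (pfC_sound p13_9_3_9)) (pfC_sound p13_9_3_10)) (pfC_sound p13_9_3_11)) (pfC_sound p13_9_3_12)) (pfC_sound p13_9_3_13)) (pfC_sound p13_9_3_14)) (pfC_sound p13_9_3_15)) (pfC_sound p13_9_3_16)) (pfC_sound p13_9_3_17)) (pfC_sound p13_9_3_18)) (pfC_sound p13_9_3_19)) (pfC_sound p13_9_3_20)) (pfC_sound p13_9_3_21)) (pfC_sound p13_9_3_22)) (pfC_sound p13_9_3_23)) (pfC_sound p13_9_3_24)) (pfC_sound p13_9_3_25)) (pfC_sound p13_9_3_26)) (pfC_sound p13_9_3_27)) (pfC_sound p13_9_3_28)) (pfC_sound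 p13_9_3_29)) (pfC_sound p13_9_3_30)) (pfC_sound p13_9_3_31)) (pfC_sound p13_9_3_32)) (pfC_sound p13_9_3_33)) (pfC_sound p13_9_3_34)) (pfC_sound p13_9_3_35)) (pfC_sound p13_9_3_36)) (pfC_sound p13_9_3_37)) (pfC_sound p13_9_3_38)) (pfC_sound p13_9_3_39)) (pfC_sound p13_9_3_40)) (pfC_sound p13_9_3_41)) (pfC_sound p13_9_3_42)) (pfC_sound p13_9_3_43)) (pfC_sound p13_9_3_44)) (pfC_sound p13_9_3_45)) (pfC_sound p13_9_3_46)) (pfC_sound p13_9_3_47)) (pfC_sound p13_9_3_48)) (pfC_sound p13_9_3_49)) (pfC_sound p13_9_3_50)) (pfC_sound p13_9_3_51)) (pfC_sound p13_9_3_52)) (pfC_sound p13_9_3_53)) (pfC_sound p13_9_3_54)) (pfC_sound p13_9_3_55)) (pfC_sound p13_9_3_56)) (pfC_sound p13_9_3_57))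
 (pfC_sound p13_9_3_58)) (pfC_sound p13_9_3_59)) (pfC_sound p13_9_3_60)) (pfC_sound p13_9_3_61)) (pfC_sound p13_9_3_62)) (pfC_sound p13_9_3_63)) (pfC_sound p13_9_3_64)) (pfC_sound p13_9_3_65)) (pfC_sound p13_9_3_66)) (pfC_sound p13_9_3_67)) (pfC_sound p13_9_3_68)) (pfC_sound p13_9_3_69)) (pfC_sound p13_9_3_70)) (pfC_sound p13_9_3_71)) (pfC_sound p13_9_3_72)) (pfC_sound p13_9_3_73)) (pfC_sound p13_9_3_74)) (pfC_sound p13_9_3_75)) (pfC_sound p13_9_3_76)) (pfC_sound p13_9_3_77)) (pfC_sound p13_9_3_78)) (pfC_sound p13_9_3_79)) (pfC_sound p13_9_3_80)) (pfC_sound p13_9_3_81)) (pfC_sound p13_9_3_82)) (pfC_sound p13_9_3_83)) (pfC_sound p13_9_3_84)) (pfC_sound p13_9_3_85)) (pfC_sound p13_9_3_86)) (pfC_sound p13_9_3_87)) (pfC_sound p13_9_3_88)) (pfC_sound p13_9_3_89)) (pfC_sound p13_9_3_90)) (pfC_sound p13_9_3_91)) (pfC_sound p13_9_3_92)) (by decide +kernel)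

def z13_9_3 : zOK yB13_9 (nat_lit 3) (nat_lit 750) (nat_lit 896) (nat_lit 5041812) (nat_lit 3552475) = true := by decide +kernel
def g13_9_3 : gOK yB13_9.x P13_9 (nat_lit 1427) (q13_9 :: r13_9) (nat_lit 3) (nat_lit 750) (nat_lit 4) (nat_lit 896) (nat_lit 12712500) (nat_lit 12712500) (nat_lit 12712500) (nat_lit 12712500) [(nat_lit 800)] = true := by decide +kernel
def v13_9_3 : ivC P13_9 s13_9 w13_9 n13_9 (nat_lit 4) (nat_lit 4730) (nat_lit 3) (nat_lit 750) f144_1_750 f152_1_750 (nat_lit 4) (nat_lit 896) f144_1_896 f152_1_896 (nat_lit 5041812) (nat_lit 3552475) p13_9_3 = true := by decide +kernel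
end CB
end Pool.Agent.Lib.MP_6947cd_al
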