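import Pool.Agent.Lib.MP_6947cd_al.L.CellBQ

/-!
Problem MP_6947cd_al (Chollet).  CASE B, rows `j`: tables of row values (generated).
-/

set_option autoImplicit false
set_option linter.defProp false
set_option maxRecDepth 20000

namespace Pool.Agent.Lib.MP_6947cd_al
namespace CB

open Ent Ent.Pk Fr Fr.WT CA

def f168_1_0 : FT := (FT.cons (FT.cons (FT.cons (FT.cons (FT.leaf [(nat_lit 2669604), (nat_lit 2799321), (nat_lit 2949140), (nat_lit 3114302), (nat_lit 3291380), (nat_lit 3477746), (nat_lit 3671306), (nat_lit 3870354), (nat_lit 4073489), (nat_lit 4279547), (nat_lit 4487560), (nat_lit 4696720), (nat_lit 4906354), (nat_lit 5115902), (nat_lit 5324896), (nat_lit 5532950)]) (FT.cons (FT.leaf [(nat_lit 2947231), (nat_lit 3103182), (nat_lit 3273009), (nat_lit 3453524), (nat_lit 3642295), (nat_lit 3837395), (nat_lit 4037263), (nat_lit 4240616), (nat_lit 4446392), (nat_lit 4653711), (nat_lit 4861839), (nat_lit 5070163), (nat_lit 5278179), (nat_lit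 5485462), (nat_lit 5691665)]) (FT.cons (FT.leaf [(nat_lit 3259817), (nat_lit 3433412), (nat_lit 3616635), (nat_lit 3807216), (nat_lit 4003372), (nat_lit 4203665), (nat_lit 4406916), (nat_lit 4612153), (nat_lit 4818573), (nat_lit 5025506), (nat_lit 5232398), (nat_lit 5438786), (nat_lit 5644289), (nat_lit 5848590)]) (FT.cons (FT.leaf [(nat_lit 3594970), (nat_lit 3780280), (nat_lit 3972165), (nat_lit 4168963), (nat_lit 4369343), (nat_lit 4572219), (nat_lit 4776700), (nat_lit 4982048), (nat_lit 5187651), (nat_lit 5393005), (nat_lit 5597689), (nat_lit 5801356)]) (FT.cons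
 (FT.leaf [(nat_lit 3944101), (nat_lit 4136854), (nat_lit 4333939), (nat_lit 4534118), (nat_lit 4736387), (nat_lit 4939925), (nat_lit 5144055), (nat_lit 5348217), (nat_lit 5551947), (nat_lit 5754864)]) (FT.cons (FT.leaf [(nat_lit 4301043), (nat_lit 4498108), (nat_lit 4697840), (nat_lit 4899304), (nat_lit 5101742), (nat_lit 5304532), (nat_lit 5507157), (nat_lit 5709195), (nat_lit 5910297)]) (FT.cons (FT.leaf [(nat_lit 4661314), (nat_lit 4860383), (nat_lit 5060875), (nat_lit 5262082), (nat_lit 5463428), (nat_lit 5664441), (nat_lit 5864731)]) (FT.cons (FT.leaf [(nat_lit 5021652), (nat_lit 5221024), (nat_lit 5420888), (nat_lit 5620706), (nat_lit 5820043)]) (FT.cons (FT.leaf [(nat_lit 5379689), (nat_lit 5578116), (nat_lit 5776338), (nat_lit 5973949)]) (FT.cons (FT.leaf [(nat_lit 5733736), (nat_lit 5930303)]) (FT.cons (FT.leaf [(nat_lit 6082591)]) (FT.cons (FT.leaf [(nat_lit 6425428)]) FT.nil)))))))))))) (FT.cons (FT.cons (FT.leaf [(nat_lit 3175310),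 (nat_lit 3334431), (nat_lit 3506369), (nat_lit 3688028), (nat_lit 3877094), (nat_lit 4071761), (nat_lit 4270581), (nat_lit 4472372), (nat_lit 4676165), (nat_lit 4881158), (nat_lit 5086684), (nat_lit 5292193), (nat_lit 5497226), (nat_lit
 5701401), (nat_lit 5904409)]) (FT.cons (FT.leaf [(nat_lit 3491912), (nat_lit 3666870), (nat_lit 3850610), (nat_lit 4040969), (nat_lit 4236270), (nat_lit 4435175), (nat_lit 4636595), (nat_lit 4839640), (nat_lit 5043573), (nat_lit 5247788), (nat_lit 5451779), (nat_lit 5655130), (nat_lit 5857494), (nat_lit 6058590)]) (FT.cons (FT.leaf [(nat_lit 3828046), (nat_lit 4013344), (nat_lit 4204570), (nat_lit 4400159), (nat_lit 4598866), (nat_lit 4799689), (nat_lit 5001803), (nat_lit 5204535), (nat_lit 5407327), (nat_lit 5609718), (nat_lit 5811326), (nat_lit 6011837)]) (FT.cons (FT.leaf [(nat_lit 4175937), (nat_lit 4367662), (nat_lit 4563240), (nat_lit 4761509), (nat_lit 4961540), (nat_lit 5162572), (nat_lit 5363983),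 (nat_lit 5565261), (nat_lit 5765983), (nat_lit 5965799)]) (FT.cons (FT.leaf [(nat_lit 4530051), (nat_lit 4725358), (nat_lit 4922983), (nat_lit 5122057), (nat_lit 5321877), (nat_lit 5521867), (nat_lit 5721555), (nat_lit 5920554), (nat_lit 6118543)]) (FT.cons (FT.leaf [(nat_lit 4886388), (nat_lit 5083189), (nat_lit 5281167), (nat_lit 5479666), (nat_lit 5678151), (nat_lit 5876189), (nat_lit 6073421)]) (FT.cons (FT.leaf [(nat_lit 5242046), (nat_lit 5438810), (nat_lit 5635895),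
 (nat_lit 5832809), (nat_lit 6029146)]) (FT.cons (FT.leaf [(nat_lit 5594937), (nat_lit 5790535), (nat_lit 5985821), (nat_lit 6180419)]) (FT.cons (FT.leaf [(nat_lit 5943561), (nat_lit 6137174)]) (FT.cons (FT.leaf [(nat_lit 6286864)]) (FT.cons (FT.leaf [(nat_lit 6624125)]) FT.nil))))))))))) (FT.cons (FT.cons (FT.leaf [(nat_lit 3722851), (nat_lit 3898497), (nat_lit 4082194), (nat_lit 4271877), (nat_lit 4465963), (nat_lit 4663200), (nat_lit 4862578), (nat_lit 5063277), (nat_lit 5264621), (nat_lit 5466054), (nat_lit 5667115)]) (FT.cons (FT.leaf [(nat_lit 4058863), (nat_lit 4243683), (nat_lit 4433876), (nat_lit 4627960), (nat_lit 4824770), (nat_lit 5023371), (nat_lit 5223005), (nat_lit 5423048), (nat_lit 5622989), (nat_lit 5822406)]) (FT.cons (FT.leaf [(nat_lit 4404779), (nat_lit 4595169), (nat_lit 4788999), (nat_lit 4985180), (nat_lit 5182844), (nat_lit 5381285), (nat_lit 5579929), (nat_lit 5778305), (nat_lit 5976024)]) (FT.cons (FT.leaf [(nat_lit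 4755598), (nat_lit 4948957), (nat_lit 5144336), (nat_lit 5340924), (nat_lit 5538066), (nat_lit 5735230), (nat_lit 5931979)]) (FT.cons (FT.leaf [(nat_lit 5107727), (nat_lit 5302157), (nat_lit 5497553), (nat_lit 5693306), (nat_lit 5888922)])
 (FT.cons (FT.leaf [(nat_lit 5458579), (nat_lit 5652685), (nat_lit 5846976), (nat_lit 6040990)]) (FT.cons (FT.leaf [(nat_lit 5806286), (nat_lit 5999052)]) (FT.cons (FT.leaf [(nat_lit 6149520)]) (FT.cons (FT.leaf [(nat_lit 6487350)]) FT.nil))))))))) (FT.cons (FT.cons (FT.leaf [(nat_lit 4287052), (nat_lit 4471025), (nat_lit 4659889), (nat_lit 4852238), (nat_lit 5046980), (nat_lit 5243240), (nat_lit 5440312), (nat_lit 5637620), (nat_lit 5834694), (nat_lit 6031144)]) (FT.cons (FT.leaf [(nat_lit 4630419), (nat_lit 4819234), (nat_lit 5011133), (nat_lit 5205093), (nat_lit 5400298), (nat_lit 5596094), (nat_lit 5791947), (nat_lit 5987419), (nat_lit 6182155)]) (FT.cons (FT.leaf [(nat_lit 4977587), (nat_lit 5168854),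 (nat_lit 5361886), (nat_lit 5555923), (nat_lit 5750354), (nat_lit 5944685), (nat_lit 6138509)]) (FT.cons (FT.leaf [(nat_lit 5325317), (nat_lit 5517298), (nat_lit 5710070), (nat_lit 5903063), (nat_lit 6095817)]) (FT.cons (FT.leaf [(nat_lit 5671278), (nat_lit 5862704), (nat_lit 6054199), (nat_lit 6245332)]) (FT.cons (FT.leaf [(nat_lit 6013800), (nat_lit 6203747)]) (FT.cons (FT.leaf [(nat_lit 6351698)]) (FT.cons (FT.leaf [(nat_lit 6684148)]) FT.nil)))))))) (FT.cons (FT.cons (FT.leaf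
 [(nat_lit 4852715), (nat_lit 5039767), (nat_lit 5229598), (nat_lit 5421240), (nat_lit 5613926), (nat_lit 5807045), (nat_lit 6000099), (nat_lit 6192683)]) (FT.cons (FT.leaf [(nat_lit 5195969), (nat_lit 5385035), (nat_lit 5575650), (nat_lit 5767096), (nat_lit 5958803), (nat_lit 6150306), (nat_lit 6341231)]) (FT.cons (FT.leaf [(nat_lit 5539162), (nat_lit 5728646), (nat_lit 5918773), (nat_lit 6109007), (nat_lit 6298917)]) (FT.cons (FT.leaf [(nat_lit 5880191), (nat_lit 6068931), (nat_lit 6257644), (nat_lit 6445926)]) (FT.cons (FT.leaf [(nat_lit 6217552), (nat_lit 6404705)]) (FT.cons (FT.leaf [(nat_lit 6550186)]) FT.nil)))))) (FT.cons (FT.cons (FT.leaf [(nat_lit 5410720), (nat_lit 5597509), (nat_lit 5785661), (nat_lit 5974497), (nat_lit 6163481), (nat_lit 6352178)]) (FT.cons (FT.leaf [(nat_lit 5749291), (nat_lit 5936250), (nat_lit 6123727), (nat_lit 6311216), (nat_lit 6498312)]) (FT.cons (FT.leaf [(nat_lit 6085378), (nat_lit 6271440), (nat_lit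 6457395), (nat_lit 6642862)]) (FT.cons (FT.leaf [(nat_lit 6417625), (nat_lit 6602015)]) (FT.cons (FT.leaf [(nat_lit 6745077)]) FT.nil))))) (FT.cons (FT.cons (FT.leaf [(nat_lit 5955747), (nat_lit 6140171), (nat_lit 6325006)]) (FT.cons (FT.leaf
 [(nat_lit 6286911), (nat_lit 6470312)]) (FT.cons (FT.leaf [(nat_lit 6614105)]) FT.nil))) (FT.cons (FT.cons (FT.leaf [(nat_lit 6484863)]) (FT.cons (FT.leaf [(nat_lit 6807078)]) FT.nil)) (FT.cons (FT.cons (FT.leaf [(nat_lit 6996635)]) FT.nil) (FT.cons (FT.cons (FT.leaf [(nat_lit 7490566)]) FT.nil) FT.nil)))))))))) (FT.cons (FT.cons (FT.cons (FT.leaf [(nat_lit 3583749), (nat_lit 3741854), (nat_lit 3911815), (nat_lit 4090622), (nat_lit 4276073), (nat_lit 4466480), (nat_lit 4660509), (nat_lit 4857082), (nat_lit 5055323), (nat_lit 5254510), (nat_lit 5454048), (nat_lit 5653446), (nat_lit 5852296), (nat_lit 6050258), (nat_lit 6247058)]) (FT.cons (FT.leaf [(nat_lit 3896722), (nat_lit 4069086), (nat_lit 4249459),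 (nat_lit 4435787), (nat_lit 4626503), (nat_lit 4820368), (nat_lit 5016391), (nat_lit 5213762), (nat_lit 5411818), (nat_lit 5610013), (nat_lit 5807896), (nat_lit 6005093), (nat_lit 6201297), (nat_lit 6396253)]) (FT.cons (FT.leaf [(nat_lit 4226650), (nat_lit 4408154), (nat_lit 4595009), (nat_lit 4785748), (nat_lit 4979222), (nat_lit 5174512), (nat_lit 5370868), (nat_lit 5567680), (nat_lit 5764445), (nat_lit 5960747), (nat_lit 6156246), (nat_lit 6350659)]) (FT.cons (FT.leaf [(nat_lit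
 4566476), (nat_lit 4753552), (nat_lit 4944071), (nat_lit 5136959), (nat_lit 5331359), (nat_lit 5526577), (nat_lit 5722050), (nat_lit 5917312), (nat_lit 6111983), (nat_lit 6305747)]) (FT.cons (FT.leaf [(nat_lit 4911262), (nat_lit 5101352), (nat_lit 5293485), (nat_lit 5486861), (nat_lit 5680839), (nat_lit 5874894), (nat_lit 6068595), (nat_lit 6261591), (nat_lit 6453594)]) (FT.cons (FT.leaf [(nat_lit 5257490), (nat_lit 5448724), (nat_lit 5640966), (nat_lit 5833616), (nat_lit 6026186), (nat_lit 6218279), (nat_lit 6409569)]) (FT.cons (FT.leaf [(nat_lit 5602616), (nat_lit 5793628), (nat_lit 5984876), (nat_lit 6175909), (nat_lit 6366355)]) (FT.cons (FT.leaf [(nat_lit 5944811), (nat_lit 6134599), (nat_lit 6324050), (nat_lit 6512821)]) (FT.cons (FT.leaf [(nat_lit 6282769), (nat_lit 6470605)]) (FT.cons (FT.leaf [(nat_lit 6615571)]) FT.nil)))))))))) (FT.cons (FT.cons (FT.leaf [(nat_lit 4121887), (nat_lit 4294407), (nat_lit 4474315), (nat_lit 4659646),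 (nat_lit 4848916), (nat_lit 5040964), (nat_lit 5234864), (nat_lit 5429865), (nat_lit 5625354), (nat_lit 5820830), (nat_lit 6015875), (nat_lit 6210150), (nat_lit 6403372)]) (FT.cons (FT.leaf [(nat_lit 4450855), (nat_lit 4631548), (nat_lit
 4817124), (nat_lit 5006193), (nat_lit 5197672), (nat_lit 5390703), (nat_lit 5584588), (nat_lit 5778761), (nat_lit 5972757), (nat_lit 6166196), (nat_lit 6358761), (nat_lit 6550195)]) (FT.cons (FT.leaf [(nat_lit 4788214), (nat_lit 4973778), (nat_lit 5162438), (nat_lit 5353184), (nat_lit 5545214), (nat_lit 5737881), (nat_lit 5930659), (nat_lit 6123119), (nat_lit 6314909), (nat_lit 6505738)]) (FT.cons (FT.leaf [(nat_lit 5129480), (nat_lit 5317554), (nat_lit 5507425), (nat_lit 5698343), (nat_lit 5889706), (nat_lit 6081025), (nat_lit 6271902), (nat_lit 6462010), (nat_lit 6651081)]) (FT.cons (FT.leaf [(nat_lit 5471461), (nat_lit 5660336), (nat_lit 5850048), (nat_lit 6040035), (nat_lit 6229841), (nat_lit 6419097),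 (nat_lit 6607499)]) (FT.cons (FT.leaf [(nat_lit 5811867), (nat_lit 6000294), (nat_lit 6188845), (nat_lit 6377096), (nat_lit 6564701)]) (FT.cons (FT.leaf [(nat_lit 6149055), (nat_lit 6336122), (nat_lit 6522783), (nat_lit 6708717)]) (FT.cons (FT.leaf [(nat_lit 6481858), (nat_lit 6666903)]) (FT.cons (FT.leaf [(nat_lit 6809457)]) FT.nil))))))))) (FT.cons (FT.cons (FT.leaf [(nat_lit 4672233), (nat_lit 4851837), (nat_lit 5035915), (nat_lit 5223148), (nat_lit 5412514), (nat_lit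
 5603203), (nat_lit 5794568), (nat_lit 5986081), (nat_lit 6177311), (nat_lit 6367903), (nat_lit 6557570)]) (FT.cons (FT.leaf [(nat_lit 5006709), (nat_lit 5190579), (nat_lit 5377250), (nat_lit 5565764), (nat_lit 5755366), (nat_lit 5945451), (nat_lit 6135530), (nat_lit 6325201), (nat_lit 6514139), (nat_lit 6702072)]) (FT.cons (FT.leaf [(nat_lit 5344201), (nat_lit 5530158), (nat_lit 5717701), (nat_lit 5906122), (nat_lit 6094857), (nat_lit 6283448), (nat_lit 6471524), (nat_lit 6658780), (nat_lit 6844971)]) (FT.cons (FT.leaf [(nat_lit 5681807), (nat_lit 5868277), (nat_lit 6055439), (nat_lit 6242764), (nat_lit 6429825), (nat_lit 6616276), (nat_lit 6801834)]) (FT.cons (FT.leaf [(nat_lit 6017454), (nat_lit 6203291), (nat_lit 6389157), (nat_lit 6574654), (nat_lit 6759458)]) (FT.cons (FT.leaf [(nat_lit 6349660), (nat_lit 6534028), (nat_lit 6717935), (nat_lit 6901077)]) (FT.cons (FT.leaf [(nat_lit 6677375), (nat_lit 6859670)]) (FT.cons (FT.leaf [(nat_lit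 6999865)]) FT.nil)))))))) (FT.cons (FT.cons (FT.leaf [(nat_lit 5221873), (nat_lit 5403916), (nat_lit 5588500), (nat_lit 5774717), (nat_lit 5961856), (nat_lit 6149348), (nat_lit 6336733), (nat_lit 6523638)]) (FT.cons (FT.leaf [(nat_lit
 5555408), (nat_lit 5739176), (nat_lit 5924346), (nat_lit 6110252), (nat_lit 6296360), (nat_lit 6482240), (nat_lit 6667548)]) (FT.cons (FT.leaf [(nat_lit 5888558), (nat_lit 6072596), (nat_lit 6257203), (nat_lit 6441877), (nat_lit 6626220)]) (FT.cons (FT.leaf [(nat_lit 6219438), (nat_lit 6402690), (nat_lit 6585894), (nat_lit 6768672)]) (FT.cons (FT.leaf [(nat_lit 6546703), (nat_lit 6728403)]) (FT.cons (FT.leaf [(nat_lit 6869407)]) FT.nil)))))) (FT.cons (FT.cons (FT.leaf [(nat_lit 5763108), (nat_lit 5944636), (nat_lit 6127410), (nat_lit 6310794), (nat_lit 6494288), (nat_lit 6677487)]) (FT.cons (FT.leaf [(nat_lit 6091756), (nat_lit 6273351), (nat_lit 6455409), (nat_lit 6637458), (nat_lit 6819117)]) (FT.cons (FT.leaf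 [(nat_lit 6417883), (nat_lit 6598569), (nat_lit 6779140), (nat_lit 6959239)]) (FT.cons (FT.leaf [(nat_lit 6740267), (nat_lit 6919335)]) (FT.cons (FT.leaf [(nat_lit 7058047)]) FT.nil))))) (FT.cons (FT.cons (FT.leaf [(nat_lit 6291456), (nat_lit 6470610), (nat_lit 6650136), (nat_lit 6829587), (nat_lit 7008603)]) (FT.cons (FT.leaf [(nat_lit 6612864), (nat_lit 6791008), (nat_lit 6968982), (nat_lit 7146448)]) (FT.cons (FT.leaf [(nat_lit 6930434), (nat_lit 7106912)]) FT.nil)))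
 (FT.cons (FT.cons (FT.leaf [(nat_lit 6804458)]) (FT.cons (FT.leaf [(nat_lit 7117292)]) FT.nil)) (FT.cons (FT.cons (FT.leaf [(nat_lit 7300926)]) FT.nil) (FT.cons (FT.cons (FT.leaf [(nat_lit 7780472)]) FT.nil) FT.nil))))))))) (FT.cons (FT.cons (FT.cons (FT.leaf [(nat_lit 4507571), (nat_lit 4676662), (nat_lit 4852589), (nat_lit 5033482), (nat_lit 5217941), (nat_lit 5404885), (nat_lit 5593455), (nat_lit 5782961), (nat_lit 5972842), (nat_lit 6162637), (nat_lit 6351971), (nat_lit 6540528), (nat_lit 6728059)]) (FT.cons (FT.leaf [(nat_lit 4829090), (nat_lit 5005552), (nat_lit 5186497), (nat_lit 5370616), (nat_lit 5556899), (nat_lit 5744544), (nat_lit 5932913), (nat_lit 6121483), (nat_lit 6309828), (nat_lit 6497599), (nat_lit 6684511), (nat_lit 6870327)]) (FT.cons (FT.leaf [(nat_lit 5157837), (nat_lit 5338618), (nat_lit 5522223), (nat_lit 5707706), (nat_lit 5894320), (nat_lit 6081468), (nat_lit 6268664), (nat_lit 6455512), (nat_lit 6641691), (nat_lit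 6826935)]) (FT.cons (FT.leaf [(nat_lit 5489741), (nat_lit 5672684), (nat_lit 5857250), (nat_lit 6042740), (nat_lit 6228596), (nat_lit 6414365), (nat_lit 6599681), (nat_lit 6784243), (nat_lit 6967805)]) (FT.cons (FT.leaf [(nat_lit 5821934),
 (nat_lit 6005483), (nat_lit 6189773), (nat_lit 6374278), (nat_lit 6558579), (nat_lit 6742333), (nat_lit 6925259)]) (FT.cons (FT.leaf [(nat_lit 6152369), (nat_lit 6335392), (nat_lit 6518500), (nat_lit 6701298), (nat_lit 6883467)]) (FT.cons (FT.leaf [(nat_lit 6479581), (nat_lit 6661252), (nat_lit 6842521), (nat_lit 7023087)]) (FT.cons (FT.leaf [(nat_lit 6802529), (nat_lit 6982248)]) (FT.cons (FT.leaf [(nat_lit 7120484)]) FT.nil))))))))) (FT.cons (FT.cons (FT.leaf [(nat_lit 5043754), (nat_lit 5218971), (nat_lit 5398322), (nat_lit 5580558), (nat_lit 5764722), (nat_lit 5950061), (nat_lit 6135973), (nat_lit 6321971), (nat_lit 6507655), (nat_lit 6692706), (nat_lit 6876855)]) (FT.cons (FT.leaf [(nat_lit 5369423),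 (nat_lit 5548453), (nat_lit 5730054), (nat_lit 5913328), (nat_lit 6097569), (nat_lit 6282213), (nat_lit 6466809), (nat_lit 6650988), (nat_lit 6834445), (nat_lit 7016936)]) (FT.cons (FT.leaf [(nat_lit 5697520), (nat_lit 5878358), (nat_lit 6060641), (nat_lit 6243705), (nat_lit 6427027), (nat_lit 6610180), (nat_lit 6792820), (nat_lit 6974667), (nat_lit 7155491)]) (FT.cons (FT.leaf [(nat_lit 6025418), (nat_lit 6206625), (nat_lit 6388450), (nat_lit 6570399), (nat_lit 6752073),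
 (nat_lit 6933153), (nat_lit 7113376)]) (FT.cons (FT.leaf [(nat_lit 6351253), (nat_lit 6531783), (nat_lit 6712320), (nat_lit 6892490), (nat_lit 7071993)]) (FT.cons (FT.leaf [(nat_lit 6673692), (nat_lit 6852785), (nat_lit 7031430), (nat_lit 7209343)]) (FT.cons (FT.leaf [(nat_lit 6991794), (nat_lit 7168897)]) (FT.cons (FT.leaf [(nat_lit 7304901)]) FT.nil)))))))) (FT.cons (FT.cons (FT.leaf [(nat_lit 5577743), (nat_lit 5754922), (nat_lit 5934451), (nat_lit 6115473), (nat_lit 6297323), (nat_lit 6479468), (nat_lit 6661482), (nat_lit 6843018)]) (FT.cons (FT.leaf [(nat_lit 5901906), (nat_lit 6080591), (nat_lit 6260565), (nat_lit 6441200), (nat_lit 6621998), (nat_lit 6802559), (nat_lit 6982560)]) (FT.cons (FT.leaf [(nat_lit 6225465), (nat_lit 6404318), (nat_lit 6583684), (nat_lit 6763096), (nat_lit 6942178)]) (FT.cons (FT.leaf [(nat_lit 6546712), (nat_lit 6724764), (nat_lit 6902757), (nat_lit 7080338)]) (FT.cons (FT.leaf [(nat_lit 6864432), (nat_lit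 7040981)]) (FT.cons (FT.leaf [(nat_lit 7177769)]) FT.nil)))))) (FT.cons (FT.cons (FT.leaf [(nat_lit 6102924), (nat_lit 6279425), (nat_lit 6457079), (nat_lit 6635290), (nat_lit 6813585), (nat_lit 6991586)]) (FT.cons (FT.leaf [(nat_lit 6422126),
 (nat_lit 6598626), (nat_lit 6775549), (nat_lit 6952450), (nat_lit 7128975)]) (FT.cons (FT.leaf [(nat_lit 6738816), (nat_lit 6914414), (nat_lit 7089896), (nat_lit 7264928)]) (FT.cons (FT.leaf [(nat_lit 7051882), (nat_lit 7225925)]) (FT.cons (FT.leaf [(nat_lit 7360541)]) FT.nil))))) (FT.cons (FT.cons (FT.leaf [(nat_lit 6615460), (nat_lit 6789617), (nat_lit 6964118), (nat_lit 7138543), (nat_lit 7312552)]) (FT.cons (FT.leaf [(nat_lit 6927638), (nat_lit 7100810), (nat_lit 7273819), (nat_lit 7446348)]) (FT.cons (FT.leaf [(nat_lit 7236122), (nat_lit 7407702)]) FT.nil))) (FT.cons (FT.cons (FT.leaf [(nat_lit 7113255)]) (FT.cons (FT.leaf [(nat_lit 7417236)]) FT.nil)) (FT.cons (FT.cons (FT.leaf [(nat_lit 7595305)])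 FT.nil) (FT.cons (FT.cons (FT.leaf [(nat_lit 8061300)]) FT.nil) FT.nil)))))))) (FT.cons (FT.cons (FT.cons (FT.leaf [(nat_lit 5402231), (nat_lit 5573116), (nat_lit 5747850), (nat_lit 5925248), (nat_lit 6104410), (nat_lit 6284629), (nat_lit 6465345), (nat_lit 6646105), (nat_lit 6826539), (nat_lit 7006348)]) (FT.cons (FT.leaf [(nat_lit 5719289), (nat_lit 5893623), (nat_lit 6070341), (nat_lit 6248593), (nat_lit 6427719), (nat_lit 6607194), (nat_lit 6786592), (nat_lit 6965571),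
 (nat_lit 7143851)]) (FT.cons (FT.leaf [(nat_lit 6038329), (nat_lit 6214257), (nat_lit 6391516), (nat_lit 6569483), (nat_lit 6747668), (nat_lit 6925671), (nat_lit 7103172)]) (FT.cons (FT.leaf [(nat_lit 6356955), (nat_lit 6533148), (nat_lit 6709904), (nat_lit 6886758), (nat_lit 7063338)]) (FT.cons (FT.leaf [(nat_lit 6673470), (nat_lit 6848968), (nat_lit 7024460), (nat_lit 7199595)]) (FT.cons (FT.leaf [(nat_lit 6986668), (nat_lit 7160772)]) (FT.cons (FT.leaf [(nat_lit 7295694)]) FT.nil))))))) (FT.cons (FT.cons (FT.leaf [(nat_lit 5921075), (nat_lit 6093566), (nat_lit 6268247), (nat_lit 6444310), (nat_lit 6621126), (nat_lit 6798197), (nat_lit 6975124), (nat_lit 7151583)]) (FT.cons (FT.leaf [(nat_lit 6236249), (nat_lit 6410076), (nat_lit 6585100), (nat_lit 6760730), (nat_lit 6936496), (nat_lit 7112024), (nat_lit 7287009)]) (FT.cons (FT.leaf [(nat_lit 6550674), (nat_lit 6724598), (nat_lit 6898995), (nat_lit 7073423), (nat_lit 7247530)]) (FT.cons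 (FT.leaf [(nat_lit 6862787), (nat_lit 7035914), (nat_lit 7208978), (nat_lit 7381647)]) (FT.cons (FT.leaf [(nat_lit 7171483), (nat_lit 7343162)]) (FT.cons (FT.leaf [(nat_lit 7475978)]) FT.nil)))))) (FT.cons (FT.cons (FT.leaf [(nat_lit 6430946),
 (nat_lit 6602655), (nat_lit 6775444), (nat_lit 6948747), (nat_lit 7122120), (nat_lit 7295206)]) (FT.cons (FT.leaf [(nat_lit 6741171), (nat_lit 6912835), (nat_lit 7084893), (nat_lit 7256925), (nat_lit 7428597)]) (FT.cons (FT.leaf [(nat_lit 7048924), (nat_lit 7219706), (nat_lit 7390377), (nat_lit 7560622)]) (FT.cons (FT.leaf [(nat_lit 7353186), (nat_lit 7522479)]) (FT.cons (FT.leaf [(nat_lit 7653237)]) FT.nil))))) (FT.cons (FT.cons (FT.leaf [(nat_lit 6928509), (nat_lit 7097927), (nat_lit 7267672)]) (FT.cons (FT.leaf [(nat_lit 7231953), (nat_lit 7400420)]) (FT.cons (FT.leaf [(nat_lit 7531854)]) FT.nil))) (FT.cons (FT.cons (FT.leaf [(nat_lit 7411947)]) (FT.cons (FT.leaf [(nat_lit 7707566)]) FT.nil))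 (FT.cons (FT.cons (FT.leaf [(nat_lit 7880398)]) FT.nil) FT.nil)))))) (FT.cons (FT.cons (FT.cons (FT.leaf [(nat_lit 6252604), (nat_lit 6420593), (nat_lit 6590639), (nat_lit 6761975), (nat_lit 6934007), (nat_lit 7106264), (nat_lit 7278372), (nat_lit 7450027)]) (FT.cons (FT.leaf [(nat_lit 6559182), (nat_lit 6728375), (nat_lit 6898691), (nat_lit 7069569), (nat_lit 7240566), (nat_lit 7411329), (nat_lit 7581574)]) (FT.cons (FT.leaf [(nat_lit 6864920), (nat_lit 7034163), (nat_lit 7203848),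
 (nat_lit 7373558), (nat_lit 7542957)]) (FT.cons (FT.leaf [(nat_lit 7168378), (nat_lit 7336837), (nat_lit 7505237), (nat_lit 7673262)]) (FT.cons (FT.leaf [(nat_lit 7468538), (nat_lit 7635610)]) (FT.cons (FT.leaf [(nat_lit 7764680)]) FT.nil)))))) (FT.cons (FT.cons (FT.leaf [(nat_lit 6747905), (nat_lit 6915052), (nat_lit 7083218), (nat_lit 7251868), (nat_lit 7420578), (nat_lit 7589014)]) (FT.cons (FT.leaf [(nat_lit 7049606), (nat_lit 7216680), (nat_lit 7384129), (nat_lit 7551553), (nat_lit 7718634)]) (FT.cons (FT.leaf [(nat_lit 7348895), (nat_lit 7515117), (nat_lit 7681236), (nat_lit 7846954)]) (FT.cons (FT.leaf [(nat_lit 7644831), (nat_lit 7809633)]) (FT.cons (FT.leaf [(nat_lit 7936750)]) FT.nil))))) (FT.cons (FT.cons (FT.leaf [(nat_lit 7231292), (nat_lit 7396217), (nat_lit 7561457)]) (FT.cons (FT.leaf [(nat_lit 7526468), (nat_lit 7690482)]) (FT.cons (FT.leaf [(nat_lit 7818254)]) FT.nil))) (FT.cons (FT.cons (FT.leaf [(nat_lit 7701167)])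 (FT.cons (FT.leaf [(nat_lit 7988879)]) FT.nil)) (FT.cons (FT.cons (FT.leaf [(nat_lit 8156779)]) FT.nil) FT.nil))))) (FT.cons (FT.cons (FT.cons (FT.leaf [(nat_lit 7054482), (nat_lit 7217287), (nat_lit 7381062), (nat_lit 7545297), (nat_lit 7709590)])
 (FT.cons (FT.leaf [(nat_lit 7348089), (nat_lit 7510808), (nat_lit 7673887), (nat_lit 7836945)]) (FT.cons (FT.leaf [(nat_lit 7639360), (nat_lit 7801260)]) (FT.cons (FT.leaf [(nat_lit 7927417)]) FT.nil)))) (FT.cons (FT.cons (FT.leaf [(nat_lit 7524444), (nat_lit 7685107), (nat_lit 7846077)]) (FT.cons (FT.leaf [(nat_lit 7811790), (nat_lit 7971584)]) (FT.cons (FT.leaf [(nat_lit 8095895)]) FT.nil))) (FT.cons (FT.cons (FT.leaf [(nat_lit 7981496)]) (FT.cons (FT.leaf [(nat_lit 8261723)]) FT.nil)) FT.nil))) (FT.cons (FT.cons (FT.cons (FT.leaf [(nat_lit 7808555)]) FT.nil) (FT.cons (FT.cons (FT.leaf [(nat_lit 8253464)]) FT.nil) FT.nil)) (FT.cons (FT.cons (FT.cons (FT.leaf [(nat_lit 8517560)]) FT.nil) FT.nil)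 (FT.cons (FT.cons (FT.cons (FT.leaf [(nat_lit 9184989)]) FT.nil) FT.nil) (FT.cons (FT.cons (FT.cons (FT.leaf [(nat_lit 9814423)]) FT.nil) FT.nil) FT.nil)))))))))) (FT.cons (FT.cons (FT.cons (FT.cons (FT.leaf [(nat_lit 4728958), (nat_lit 4871043), (nat_lit 5023554), (nat_lit 5183846), (nat_lit 5350013), (nat_lit 5520607), (nat_lit 5694495), (nat_lit 5870770), (nat_lit 6048691), (nat_lit 6227654), (nat_lit 6407153), (nat_lit 6586773), (nat_lit 6766164), (nat_lit 6945034), (nat_lit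
 7123140)]) (FT.cons (FT.leaf [(nat_lit 5009306), (nat_lit 5163874), (nat_lit 5325533), (nat_lit 5492506), (nat_lit 5663446), (nat_lit 5837302), (nat_lit 6013232), (nat_lit 6190549), (nat_lit 6368694), (nat_lit 6547201), (nat_lit 6725682), (nat_lit 6903818), (nat_lit 7081339), (nat_lit 7258021)]) (FT.cons (FT.leaf [(nat_lit 5304453), (nat_lit 5467138), (nat_lit 5634641), (nat_lit 5805706), (nat_lit 5979350), (nat_lit 6154788), (nat_lit 6331386), (nat_lit 6508620), (nat_lit 6686061), (nat_lit 6863349), (nat_lit 7040188), (nat_lit 7216329)]) (FT.cons (FT.leaf [(nat_lit 5608481), (nat_lit 5776278), (nat_lit 5947275), (nat_lit 6120550), (nat_lit 6295373), (nat_lit 6471150), (nat_lit 6647395), (nat_lit 6823707), (nat_lit 6999756), (nat_lit 7175263)]) (FT.cons (FT.leaf [(nat_lit 5917298), (nat_lit 6088059), (nat_lit 6260831), (nat_lit 6434930), (nat_lit 6609800), (nat_lit 6784988), (nat_lit 6960120), (nat_lit 7134888), (nat_lit 7309036)]) (FT.cons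 (FT.leaf [(nat_lit 6227978), (nat_lit 6400132), (nat_lit 6573413), (nat_lit 6747302), (nat_lit 6921375), (nat_lit 7095284), (nat_lit 7268741)]) (FT.cons (FT.leaf [(nat_lit 6538400), (nat_lit 6710783), (nat_lit 6883628), (nat_lit 7056538),
 (nat_lit 7229187)]) (FT.cons (FT.leaf [(nat_lit 6847011), (nat_lit 7018758), (nat_lit 7190464), (nat_lit 7361823)]) (FT.cons (FT.leaf [(nat_lit 7152674), (nat_lit 7323143)]) (FT.cons (FT.leaf [(nat_lit 7454569)]) FT.nil)))))))))) (FT.cons (FT.cons (FT.leaf [(nat_lit 5209139), (nat_lit 5363884), (nat_lit 5525232), (nat_lit 5691476), (nat_lit 5861337), (nat_lit 6033821), (nat_lit 6208136), (nat_lit 6383639), (nat_lit 6559810), (nat_lit 6736213), (nat_lit 6912490), (nat_lit 7088344), (nat_lit 7263525)]) (FT.cons (FT.leaf [(nat_lit 5503590), (nat_lit 5665699), (nat_lit 5832260), (nat_lit 6002072), (nat_lit 6174205), (nat_lit 6347921), (nat_lit 6522622), (nat_lit 6697820), (nat_lit 6873112), (nat_lit 7048168),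 (nat_lit 7222708), (nat_lit 7396503)]) (FT.cons (FT.leaf [(nat_lit 5805764), (nat_lit 5972435), (nat_lit 6142031), (nat_lit 6313680), (nat_lit 6486690), (nat_lit 6660502), (nat_lit 6834661), (nat_lit 7008792), (nat_lit 7182586), (nat_lit 7355785)]) (FT.cons (FT.leaf [(nat_lit 6111902), (nat_lit 6281138), (nat_lit 6452187), (nat_lit 6624398), (nat_lit 6797247), (nat_lit 6970311), (nat_lit 7143236), (nat_lit 7315737), (nat_lit 7487572)]) (FT.cons (FT.leaf [(nat_lit 6419327),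
 (nat_lit 6589675), (nat_lit 6761006), (nat_lit 6932831), (nat_lit 7104750), (nat_lit 7276435), (nat_lit 7447616)]) (FT.cons (FT.leaf [(nat_lit 6726102), (nat_lit 6896486), (nat_lit 7067232), (nat_lit 7237965), (nat_lit 7408379)]) (FT.cons (FT.leaf [(nat_lit 7030812), (nat_lit 7200434), (nat_lit 7369949), (nat_lit 7539068)]) (FT.cons (FT.leaf [(nat_lit 7332427), (nat_lit 7500695)]) (FT.cons (FT.leaf [(nat_lit 7630199)]) FT.nil))))))))) (FT.cons (FT.cons (FT.leaf [(nat_lit 5700509), (nat_lit 5861835), (nat_lit 6027287), (nat_lit 6195719), (nat_lit 6366247), (nat_lit 6538172), (nat_lit 6710931), (nat_lit 6884068), (nat_lit 7057205), (nat_lit 7230031), (nat_lit 7402288)]) (FT.cons (FT.leaf [(nat_lit 6000516), (nat_lit 6165925), (nat_lit 6334018), (nat_lit 6503965), (nat_lit 6675110), (nat_lit 6846927), (nat_lit 7018986), (nat_lit 7190936), (nat_lit 7362488), (nat_lit 7533400)]) (FT.cons (FT.leaf [(nat_lit 6303782), (nat_lit 6471411), (nat_lit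 6640678), (nat_lit 6810963), (nat_lit 6981773), (nat_lit 7152708), (nat_lit 7323436), (nat_lit 7493687), (nat_lit 7663237)]) (FT.cons (FT.leaf [(nat_lit 6607845), (nat_lit 6776343), (nat_lit 6945701), (nat_lit 7115452), (nat_lit 7285220),
 (nat_lit 7454695), (nat_lit 7623626)]) (FT.cons (FT.leaf [(nat_lit 6910928), (nat_lit 7079299), (nat_lit 7247946), (nat_lit 7416514), (nat_lit 7584714)]) (FT.cons (FT.leaf [(nat_lit 7211739), (nat_lit 7379243), (nat_lit 7546584), (nat_lit 7713488)]) (FT.cons (FT.leaf [(nat_lit 7509337), (nat_lit 7675427)]) (FT.cons (FT.leaf [(nat_lit 7803044)]) FT.nil)))))))) (FT.cons (FT.cons (FT.leaf [(nat_lit 6192677), (nat_lit 6356714), (nat_lit 6523224), (nat_lit 6691413), (nat_lit 6860657), (nat_lit 7030459), (nat_lit 7200415), (nat_lit 7370193)]) (FT.cons (FT.leaf [(nat_lit 6492920), (nat_lit 6658880), (nat_lit 6826322), (nat_lit 6994658), (nat_lit 7163421), (nat_lit 7332230), (nat_lit 7500774)]) (FT.cons (FT.leaf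 [(nat_lit 6793545), (nat_lit 6960164), (nat_lit 7127534), (nat_lit 7295212), (nat_lit 7462840)]) (FT.cons (FT.leaf [(nat_lit 7092914), (nat_lit 7259266), (nat_lit 7425821), (nat_lit 7592241)]) (FT.cons (FT.leaf [(nat_lit 7389841), (nat_lit 7555240)]) (FT.cons (FT.leaf [(nat_lit 7683465)]) FT.nil)))))) (FT.cons (FT.cons (FT.leaf [(nat_lit 6679316), (nat_lit 6843559), (nat_lit 7009147), (nat_lit 7175521), (nat_lit 7342236), (nat_lit 7508930)]) (FT.cons (FT.leaf [(nat_lit 6976451),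
 (nat_lit 7141174), (nat_lit 7306551), (nat_lit 7472162), (nat_lit 7637667)]) (FT.cons (FT.leaf [(nat_lit 7272100), (nat_lit 7436438), (nat_lit 7600913), (nat_lit 7765205)]) (FT.cons (FT.leaf [(nat_lit 7565170), (nat_lit 7728483)]) (FT.cons (FT.leaf [(nat_lit 7854871)]) FT.nil))))) (FT.cons (FT.cons (FT.leaf [(nat_lit 7156595), (nat_lit 7319412), (nat_lit 7482801), (nat_lit 7646358), (nat_lit 7809761)]) (FT.cons (FT.leaf [(nat_lit 7448533), (nat_lit 7610865), (nat_lit 7773279), (nat_lit 7935469)]) (FT.cons (FT.leaf [(nat_lit 7737783), (nat_lit 7899031)]) FT.nil))) (FT.cons (FT.cons (FT.leaf [(nat_lit 7622262)]) (FT.cons (FT.leaf [(nat_lit 7907734)]) FT.nil)) (FT.cons (FT.cons (FT.leaf [(nat_lit 8075083)]) FT.nil) (FT.cons (FT.cons (FT.leaf [(nat_lit 8514491)]) FT.nil) FT.nil))))))))) (FT.cons (FT.cons (FT.cons (FT.leaf [(nat_lit 5549269), (nat_lit 5701355), (nat_lit 5859620), (nat_lit 6022427), (nat_lit 6188561), (nat_lit 6357084), (nat_lit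 6527255), (nat_lit 6698475), (nat_lit 6870258), (nat_lit 7042204), (nat_lit 7213983), (nat_lit 7385317), (nat_lit 7555979)]) (FT.cons (FT.leaf [(nat_lit 5837928), (nat_lit 5996764), (nat_lit 6159740), (nat_lit 6325715), (nat_lit 6493809),
 (nat_lit 6663330), (nat_lit 6833721), (nat_lit 7004526), (nat_lit 7175371), (nat_lit 7345950), (nat_lit 7516006), (nat_lit 7685327)]) (FT.cons (FT.leaf [(nat_lit 6133421), (nat_lit 6296388), (nat_lit 6462060), (nat_lit 6629612), (nat_lit 6798393), (nat_lit 6967881), (nat_lit 7137651), (nat_lit 7307353), (nat_lit 7476702), (nat_lit 7645457)]) (FT.cons (FT.leaf [(nat_lit 6432288), (nat_lit 6597534), (nat_lit 6764444), (nat_lit 6932406), (nat_lit 7100930), (nat_lit 7269617), (nat_lit 7438140), (nat_lit 7606232), (nat_lit 7773669)]) (FT.cons (FT.leaf [(nat_lit 6732083), (nat_lit 6898265), (nat_lit 7065340), (nat_lit 7232846), (nat_lit 7400410), (nat_lit 7567725), (nat_lit 7734539)]) (FT.cons (FT.leaf [(nat_lit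 7031040), (nat_lit 7197170), (nat_lit 7363615), (nat_lit 7530021), (nat_lit 7696103)]) (FT.cons (FT.leaf [(nat_lit 7327879), (nat_lit 7493223), (nat_lit 7658445), (nat_lit 7823274)]) (FT.cons (FT.leaf [(nat_lit 7621664), (nat_lit 7785678)]) (FT.cons (FT.leaf [(nat_lit 7911719)]) FT.nil))))))))) (FT.cons (FT.cons (FT.leaf [(nat_lit 6029624), (nat_lit 6187559), (nat_lit 6349348), (nat_lit 6513899), (nat_lit 6680374), (nat_lit 6848117), (nat_lit 7016599), (nat_lit 7185394),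
 (nat_lit 7354150), (nat_lit 7522578), (nat_lit 7690440)]) (FT.cons (FT.leaf [(nat_lit 6322801), (nat_lit 6484453), (nat_lit 6648600), (nat_lit 6814454), (nat_lit 6981398), (nat_lit 7148935), (nat_lit 7316666), (nat_lit 7484262), (nat_lit 7651451), (nat_lit 7818012)]) (FT.cons (FT.leaf [(nat_lit 6618754), (nat_lit 6782389), (nat_lit 6947537), (nat_lit 7113613), (nat_lit 7280153), (nat_lit 7446779), (nat_lit 7613184), (nat_lit 7779115), (nat_lit 7944361)]) (FT.cons (FT.leaf [(nat_lit 6915222), (nat_lit 7079588), (nat_lit 7244739), (nat_lit 7410236), (nat_lit 7575724), (nat_lit 7740915), (nat_lit 7905569)]) (FT.cons (FT.leaf [(nat_lit 7210582), (nat_lit 7374757), (nat_lit 7539173), (nat_lit 7703495), (nat_lit 7867451)]) (FT.cons (FT.leaf [(nat_lit 7503653), (nat_lit 7666956), (nat_lit 7830089), (nat_lit 7992794)]) (FT.cons (FT.leaf [(nat_lit 7793580), (nat_lit 7955504)]) (FT.cons (FT.leaf [(nat_lit 8079744)]) FT.nil)))))))) (FT.cons (FT.cons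 (FT.leaf [(nat_lit 6509626), (nat_lit 6669879), (nat_lit 6832441), (nat_lit 6996558), (nat_lit 7161640), (nat_lit 7327219), (nat_lit 7492914), (nat_lit 7658416)]) (FT.cons (FT.leaf [(nat_lit 6802554), (nat_lit 6964534), (nat_lit 7127890),
 (nat_lit 7292068), (nat_lit 7456623), (nat_lit 7621198), (nat_lit 7785503)]) (FT.cons (FT.leaf [(nat_lit 7095648), (nat_lit 7258179), (nat_lit 7421400), (nat_lit 7584894), (nat_lit 7748322)]) (FT.cons (FT.leaf [(nat_lit 7387403), (nat_lit 7549625), (nat_lit 7712025), (nat_lit 7874282)]) (FT.cons (FT.leaf [(nat_lit 7676732), (nat_lit 7838010)]) (FT.cons (FT.leaf [(nat_lit 7962847)]) FT.nil)))))) (FT.cons (FT.cons (FT.leaf [(nat_lit 6983702), (nat_lit 7143992), (nat_lit 7305539), (nat_lit 7467812), (nat_lit 7630388), (nat_lit 7792928)]) (FT.cons (FT.leaf [(nat_lit 7273389), (nat_lit 7434077), (nat_lit 7595371), (nat_lit 7756872), (nat_lit 7918259)]) (FT.cons (FT.leaf [(nat_lit 7561546), (nat_lit 7721824),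 (nat_lit 7882224), (nat_lit 8042440)]) (FT.cons (FT.leaf [(nat_lit 7847166), (nat_lit 8006440)]) (FT.cons (FT.leaf [(nat_lit 8129523)]) FT.nil))))) (FT.cons (FT.cons (FT.leaf [(nat_lit 7448483), (nat_lit 7607324), (nat_lit 7766698), (nat_lit 7926224), (nat_lit 8085594)]) (FT.cons (FT.leaf [(nat_lit 7733060), (nat_lit 7891407), (nat_lit 8049826), (nat_lit 8208027)]) (FT.cons (FT.leaf [(nat_lit 8015012), (nat_lit 8172306)]) FT.nil))) (FT.cons (FT.cons (FT.leaf [(nat_lit 7901994)])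
 (FT.cons (FT.leaf [(nat_lit 8180324)]) FT.nil)) (FT.cons (FT.cons (FT.leaf [(nat_lit 8343158)]) FT.nil) (FT.cons (FT.cons (FT.leaf [(nat_lit 8771488)]) FT.nil) FT.nil)))))))) (FT.cons (FT.cons (FT.cons (FT.leaf [(nat_lit 6348641), (nat_lit 6503212), (nat_lit 6661403), (nat_lit 6822171), (nat_lit 6984720), (nat_lit 7148430), (nat_lit 7312803), (nat_lit 7477439), (nat_lit 7642009), (nat_lit 7806242)]) (FT.cons (FT.leaf [(nat_lit 6635104), (nat_lit 6793089), (nat_lit 6953407), (nat_lit 7115310), (nat_lit 7278212), (nat_lit 7441648), (nat_lit 7605239), (nat_lit 7768678), (nat_lit 7931711)]) (FT.cons (FT.leaf [(nat_lit 6923960), (nat_lit 7083735), (nat_lit 7244917), (nat_lit 7406954), (nat_lit 7569407), (nat_lit 7731919), (nat_lit 7894202)]) (FT.cons (FT.leaf [(nat_lit 7213118), (nat_lit 7373515), (nat_lit 7534636), (nat_lit 7696067), (nat_lit 7857472)]) (FT.cons (FT.leaf [(nat_lit 7501081), (nat_lit 7661244), (nat_lit 7821621), (nat_lit 7981895)])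 (FT.cons (FT.leaf [(nat_lit 7786767), (nat_lit 7946063)]) (FT.cons (FT.leaf [(nat_lit 8069390)]) FT.nil))))))) (FT.cons (FT.cons (FT.leaf [(nat_lit 6816803), (nat_lit 6973381), (nat_lit 7132127), (nat_lit 7292324), (nat_lit 7453413),
 (nat_lit 7614949), (nat_lit 7776575), (nat_lit 7937999)]) (FT.cons (FT.leaf [(nat_lit 7102662), (nat_lit 7260806), (nat_lit 7420238), (nat_lit 7580431), (nat_lit 7740965), (nat_lit 7901502), (nat_lit 8061767)]) (FT.cons (FT.leaf [(nat_lit 7388523), (nat_lit 7547135), (nat_lit 7706389), (nat_lit 7865887), (nat_lit 8025312)]) (FT.cons (FT.leaf [(nat_lit 7672998), (nat_lit 7831276), (nat_lit 7989711), (nat_lit 8148003)]) (FT.cons (FT.leaf [(nat_lit 7955083), (nat_lit 8112433)]) (FT.cons (FT.leaf [(nat_lit 8234052)]) FT.nil)))))) (FT.cons (FT.cons (FT.leaf [(nat_lit 7278804), (nat_lit 7435294), (nat_lit 7592967), (nat_lit 7751317), (nat_lit 7909942), (nat_lit 8068521)]) (FT.cons (FT.leaf [(nat_lit 7561354), (nat_lit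 7718179), (nat_lit 7875571), (nat_lit 8033152), (nat_lit 8190616)]) (FT.cons (FT.leaf [(nat_lit 7842356), (nat_lit 7998760), (nat_lit 8155274), (nat_lit 8311607)]) (FT.cons (FT.leaf [(nat_lit 8120878), (nat_lit 8276305)]) (FT.cons (FT.leaf [(nat_lit 8396247)]) FT.nil))))) (FT.cons (FT.cons (FT.leaf [(nat_lit 7731650), (nat_lit 7886690), (nat_lit 8042233)]) (FT.cons (FT.leaf [(nat_lit 8009204), (nat_lit 8163750)]) (FT.cons (FT.leaf [(nat_lit 8284206)]) FT.nil))) (FT.cons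
 (FT.cons (FT.leaf [(nat_lit 8173590)]) (FT.cons (FT.leaf [(nat_lit 8445120)]) FT.nil)) (FT.cons (FT.cons (FT.leaf [(nat_lit 8603674)]) FT.nil) FT.nil)))))) (FT.cons (FT.cons (FT.cons (FT.leaf [(nat_lit 7114705), (nat_lit 7267724), (nat_lit 7422792), (nat_lit 7579223), (nat_lit 7736484), (nat_lit 7894154), (nat_lit 8051894), (nat_lit 8209428)]) (FT.cons (FT.leaf [(nat_lit 7393748), (nat_lit 7548204), (nat_lit 7703873), (nat_lit 7860253), (nat_lit 8016944), (nat_lit 8173628), (nat_lit 8330041)]) (FT.cons (FT.leaf [(nat_lit 7672676), (nat_lit 7827535), (nat_lit 7982996), (nat_lit 8138681), (nat_lit 8294286)]) (FT.cons (FT.leaf [(nat_lit 7950194), (nat_lit 8104704), (nat_lit 8259359), (nat_lit 8413871)]) (FT.cons (FT.leaf [(nat_lit 8225373), (nat_lit 8378977)]) (FT.cons (FT.leaf [(nat_lit 8497537)]) FT.nil)))))) (FT.cons (FT.cons (FT.leaf [(nat_lit 7565122), (nat_lit 7717965), (nat_lit 7871928), (nat_lit 8026526), (nat_lit 8181379), (nat_lit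 8336180)]) (FT.cons (FT.leaf [(nat_lit 7840839), (nat_lit 7993969), (nat_lit 8147635), (nat_lit 8301475), (nat_lit 8455199)]) (FT.cons (FT.leaf [(nat_lit 8115011), (nat_lit 8267717), (nat_lit 8420524), (nat_lit 8573158)]) (FT.cons (FT.leaf
 [(nat_lit 8386768), (nat_lit 8538527)]) (FT.cons (FT.leaf [(nat_lit 8655484)]) FT.nil))))) (FT.cons (FT.cons (FT.leaf [(nat_lit 8006576), (nat_lit 8157983), (nat_lit 8309868)]) (FT.cons (FT.leaf [(nat_lit 8277429), (nat_lit 8428349)]) (FT.cons (FT.leaf [(nat_lit 8545810)]) FT.nil))) (FT.cons (FT.cons (FT.leaf [(nat_lit 8437499)]) (FT.cons (FT.leaf [(nat_lit 8702552)]) FT.nil)) (FT.cons (FT.cons (FT.leaf [(nat_lit 8857043)]) FT.nil) FT.nil))))) (FT.cons (FT.cons (FT.cons (FT.leaf [(nat_lit 7843131), (nat_lit 7992471), (nat_lit 8142881), (nat_lit 8293893), (nat_lit 8445144)]) (FT.cons (FT.leaf [(nat_lit 8112305), (nat_lit 8261900), (nat_lit 8412006), (nat_lit 8562276)]) (FT.cons (FT.leaf [(nat_lit 8379955),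 (nat_lit 8529130)]) (FT.cons (FT.leaf [(nat_lit 8645262)]) FT.nil)))) (FT.cons (FT.cons (FT.leaf [(nat_lit 8273709), (nat_lit 8421643), (nat_lit 8570035)]) (FT.cons (FT.leaf [(nat_lit 8538167), (nat_lit 8685625)]) (FT.cons (FT.leaf [(nat_lit 8800235)]) FT.nil))) (FT.cons (FT.cons (FT.leaf [(nat_lit 8694137)]) (FT.cons (FT.leaf [(nat_lit 8953014)]) FT.nil)) FT.nil))) (FT.cons (FT.cons (FT.cons (FT.leaf [(nat_lit 8533464)]) FT.nil) (FT.cons (FT.cons (FT.leaf [(nat_lit 8943889)])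
 FT.nil) FT.nil)) (FT.cons (FT.cons (FT.cons (FT.leaf [(nat_lit 9187112)]) FT.nil) FT.nil) (FT.cons (FT.cons (FT.cons (FT.leaf [(nat_lit 9806263)]) FT.nil) FT.nil) (FT.cons (FT.cons (FT.cons (FT.leaf [(nat_lit 10393384)]) FT.nil) FT.nil) FT.nil))))))))) (FT.cons (FT.cons (FT.cons (FT.cons (FT.leaf [(nat_lit 6463196), (nat_lit 6602115), (nat_lit 6746680), (nat_lit 6895426), (nat_lit 7047274), (nat_lit 7201393), (nat_lit 7357127), (nat_lit 7513952), (nat_lit 7671435), (nat_lit 7829224), (nat_lit 7987023)]) (FT.cons (FT.leaf [(nat_lit 6726412), (nat_lit 6871548), (nat_lit 7020520), (nat_lit 7172312), (nat_lit 7326146), (nat_lit 7481406), (nat_lit 7637599), (nat_lit 7794322), (nat_lit 7951244), (nat_lit 8108088)]) (FT.cons (FT.leaf [(nat_lit 6996048), (nat_lit 7145097), (nat_lit 7296713), (nat_lit 7450164), (nat_lit 7604872), (nat_lit 7760371), (nat_lit 7916285), (nat_lit 8072300), (nat_lit 8228160)]) (FT.cons (FT.leaf [(nat_lit 7269087), (nat_lit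 7420423), (nat_lit 7573407), (nat_lit 7727494), (nat_lit 7882245), (nat_lit 8037305), (nat_lit 8192382)]) (FT.cons (FT.leaf [(nat_lit 7543397), (nat_lit 7695839), (nat_lit 7849245), (nat_lit 8003200), (nat_lit 8157371)]) (FT.cons (FT.leaf
 [(nat_lit 7817430), (nat_lit 7970103), (nat_lit 8123223), (nat_lit 8276471)]) (FT.cons (FT.leaf [(nat_lit 8090051), (nat_lit 8242299)]) (FT.cons (FT.leaf [(nat_lit 8360420)]) (FT.cons (FT.leaf [(nat_lit 8627918)]) FT.nil))))))))) (FT.cons (FT.cons (FT.leaf [(nat_lit 6900329), (nat_lit 7044782), (nat_lit 7192831), (nat_lit 7343500), (nat_lit 7496044), (nat_lit 7649880), (nat_lit 7804535), (nat_lit 7959632), (nat_lit 8114854), (nat_lit 8269943)]) (FT.cons (FT.leaf [(nat_lit 7168143), (nat_lit 7316162), (nat_lit 7466570), (nat_lit 7618665), (nat_lit 7771896), (nat_lit 7925819), (nat_lit 8080077), (nat_lit 8234375), (nat_lit 8388468)]) (FT.cons (FT.leaf [(nat_lit 7438860), (nat_lit 7588915), (nat_lit 7740486),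 (nat_lit 7893052), (nat_lit 8046196), (nat_lit 8199579), (nat_lit 8352923)]) (FT.cons (FT.leaf [(nat_lit 7710495), (nat_lit 7861477), (nat_lit 8013326), (nat_lit 8165649), (nat_lit 8318125)]) (FT.cons (FT.leaf [(nat_lit 7981613), (nat_lit 8132701), (nat_lit 8284167), (nat_lit 8435709)]) (FT.cons (FT.leaf [(nat_lit 8251161), (nat_lit 8401740)]) (FT.cons (FT.leaf [(nat_lit 8518363)]) (FT.cons (FT.leaf [(nat_lit 8782646)]) FT.nil)))))))) (FT.cons (FT.cons (FT.leaf [(nat_lit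
 7338167), (nat_lit 7485084), (nat_lit 7634231), (nat_lit 7784933), (nat_lit 7936662), (nat_lit 8088996), (nat_lit 8241596), (nat_lit 8394181)]) (FT.cons (FT.leaf [(nat_lit 7606465), (nat_lit 7755197), (nat_lit 7905327), (nat_lit 8056356), (nat_lit 8207885), (nat_lit 8359593), (nat_lit 8511215)]) (FT.cons (FT.leaf [(nat_lit 7875377), (nat_lit 8024877), (nat_lit 8175161), (nat_lit 8325849), (nat_lit 8476637)]) (FT.cons (FT.leaf [(nat_lit 8143564), (nat_lit 8293062), (nat_lit 8442879), (nat_lit 8592725)]) (FT.cons (FT.leaf [(nat_lit 8410049), (nat_lit 8558968)]) (FT.cons (FT.leaf [(nat_lit 8674111)]) FT.nil)))))) (FT.cons (FT.cons (FT.leaf [(nat_lit 7771906), (nat_lit 7919282), (nat_lit 8067950), (nat_lit 8217433), (nat_lit 8367347), (nat_lit 8517386)]) (FT.cons (FT.leaf [(nat_lit 8038060), (nat_lit 8186066), (nat_lit 8334779), (nat_lit 8483837), (nat_lit 8632948)]) (FT.cons (FT.leaf [(nat_lit 8303313), (nat_lit 8451222), (nat_lit 8599396),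 (nat_lit 8747560)]) (FT.cons (FT.leaf [(nat_lit 8566752), (nat_lit 8714020)]) (FT.cons (FT.leaf [(nat_lit 8827707)]) FT.nil))))) (FT.cons (FT.cons (FT.leaf [(nat_lit 8198569), (nat_lit 8345073), (nat_lit 8492216)]) (FT.cons (FT.leaf [(nat_lit
 8460890), (nat_lit 8607215)]) (FT.cons (FT.leaf [(nat_lit 8721306)]) FT.nil))) (FT.cons (FT.cons (FT.leaf [(nat_lit 8616333)]) (FT.cons (FT.leaf [(nat_lit 8873753)]) FT.nil)) (FT.cons (FT.cons (FT.leaf [(nat_lit 9024132)]) FT.nil) FT.nil))))))) (FT.cons (FT.cons (FT.cons (FT.leaf [(nat_lit 7188795), (nat_lit 7330533), (nat_lit 7475672), (nat_lit 7623274), (nat_lit 7772627), (nat_lit 7923175), (nat_lit 8074473), (nat_lit 8226160), (nat_lit 8377941), (nat_lit 8529571)]) (FT.cons (FT.leaf [(nat_lit 7451177), (nat_lit 7596224), (nat_lit 7743522), (nat_lit 7892399), (nat_lit 8042329), (nat_lit 8192893), (nat_lit 8343750), (nat_lit 8494624), (nat_lit 8645281)]) (FT.cons (FT.leaf [(nat_lit 7716130), (nat_lit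 7863043), (nat_lit 8011377), (nat_lit 8160637), (nat_lit 8310426), (nat_lit 8460422), (nat_lit 8610362)]) (FT.cons (FT.leaf [(nat_lit 7981803), (nat_lit 8129538), (nat_lit 8278082), (nat_lit 8427059), (nat_lit 8576167)]) (FT.cons (FT.leaf [(nat_lit 8246860), (nat_lit 8394649), (nat_lit 8542785), (nat_lit 8690979)]) (FT.cons (FT.leaf [(nat_lit 8510326), (nat_lit 8657594)]) (FT.cons (FT.leaf [(nat_lit 8771482)]) FT.nil))))))) (FT.cons (FT.cons (FT.leaf [(nat_lit 7617034), (nat_lit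
 7760966), (nat_lit 7907005), (nat_lit 8054505), (nat_lit 8202962), (nat_lit 8351976), (nat_lit 8501222), (nat_lit 8650436)]) (FT.cons (FT.leaf [(nat_lit 7879577), (nat_lit 8025178), (nat_lit 8172096), (nat_lit 8319853), (nat_lit 8468071), (nat_lit 8616443), (nat_lit 8764718)]) (FT.cons (FT.leaf [(nat_lit 8142573), (nat_lit 8288859), (nat_lit 8435877), (nat_lit 8583268), (nat_lit 8730742)]) (FT.cons (FT.leaf [(nat_lit 8404777), (nat_lit 8551021), (nat_lit 8697559), (nat_lit 8844114)]) (FT.cons (FT.leaf [(nat_lit 8665278), (nat_lit 8810939)]) (FT.cons (FT.leaf [(nat_lit 8923405)]) FT.nil)))))) (FT.cons (FT.cons (FT.leaf [(nat_lit 8040925), (nat_lit 8185190), (nat_lit 8330676), (nat_lit 8476927), (nat_lit 8623577), (nat_lit 8770334)]) (FT.cons (FT.leaf [(nat_lit 8301223), (nat_lit 8446050), (nat_lit 8591542), (nat_lit 8737353), (nat_lit 8883206)]) (FT.cons (FT.leaf [(nat_lit 8560576), (nat_lit 8705280), (nat_lit 8850229), (nat_lit 8995160)])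 (FT.cons (FT.leaf [(nat_lit 8818132), (nat_lit 8962200)]) (FT.cons (FT.leaf [(nat_lit 9073266)]) FT.nil))))) (FT.cons (FT.cons (FT.leaf [(nat_lit 8457779), (nat_lit 8601144), (nat_lit 8745113)]) (FT.cons (FT.leaf [(nat_lit 8714291), (nat_lit
 8857461)]) (FT.cons (FT.leaf [(nat_lit 8968928)]) FT.nil))) (FT.cons (FT.cons (FT.leaf [(nat_lit 8865956)]) (FT.cons (FT.leaf [(nat_lit 9117703)]) FT.nil)) (FT.cons (FT.cons (FT.leaf [(nat_lit 9264499)]) FT.nil) FT.nil)))))) (FT.cons (FT.cons (FT.cons (FT.leaf [(nat_lit 7888367), (nat_lit 8029390), (nat_lit 8172415), (nat_lit 8316820), (nat_lit 8462123), (nat_lit 8607940), (nat_lit 8753964), (nat_lit 8899944)]) (FT.cons (FT.leaf [(nat_lit 8145327), (nat_lit 8287899), (nat_lit 8431717), (nat_lit 8576325), (nat_lit 8721359), (nat_lit 8866529), (nat_lit 9011595)]) (FT.cons (FT.leaf [(nat_lit 8402618), (nat_lit 8545805), (nat_lit 8689683), (nat_lit 8833907), (nat_lit 8978201)]) (FT.cons (FT.leaf [(nat_lit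 8659069), (nat_lit 8802187), (nat_lit 8945577), (nat_lit 9088978)]) (FT.cons (FT.leaf [(nat_lit 8913830), (nat_lit 9056367)]) (FT.cons (FT.leaf [(nat_lit 9166273)]) FT.nil)))))) (FT.cons (FT.cons (FT.leaf [(nat_lit 8302752), (nat_lit 8444012), (nat_lit 8586433), (nat_lit 8729576), (nat_lit 8873090), (nat_lit 9016698)]) (FT.cons (FT.leaf [(nat_lit 8557411), (nat_lit 8699178), (nat_lit 8841574), (nat_lit 8984269), (nat_lit 9126997)]) (FT.cons (FT.leaf [(nat_lit 8811097), (nat_lit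
 8952721), (nat_lit 9094577), (nat_lit 9236411)]) (FT.cons (FT.leaf [(nat_lit 9063013), (nat_lit 9204011)]) (FT.cons (FT.leaf [(nat_lit 9312571)]) FT.nil))))) (FT.cons (FT.cons (FT.leaf [(nat_lit 8710187), (nat_lit 8850533), (nat_lit 8991455)]) (FT.cons (FT.leaf [(nat_lit 8961123), (nat_lit 9101263)]) (FT.cons (FT.leaf [(nat_lit 9210222)]) FT.nil))) (FT.cons (FT.cons (FT.leaf [(nat_lit 9109182)]) (FT.cons (FT.leaf [(nat_lit 9355495)]) FT.nil)) (FT.cons (FT.cons (FT.leaf [(nat_lit 9498869)]) FT.nil) FT.nil))))) (FT.cons (FT.cons (FT.cons (FT.leaf [(nat_lit 8557729), (nat_lit 8696091), (nat_lit 8835560), (nat_lit 8975713), (nat_lit 9116216)]) (FT.cons (FT.leaf [(nat_lit 8806960), (nat_lit 8945783), (nat_lit 9085205), (nat_lit 9224909)]) (FT.cons (FT.leaf [(nat_lit 9055205), (nat_lit 9193872)]) (FT.cons (FT.leaf [(nat_lit 9301711)]) FT.nil)))) (FT.cons (FT.cons (FT.leaf [(nat_lit 8956123), (nat_lit 9093567), (nat_lit 9231562)]) (FT.cons (FT.leaf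 [(nat_lit 9201707), (nat_lit 9338940)]) (FT.cons (FT.leaf [(nat_lit 9445496)]) FT.nil))) (FT.cons (FT.cons (FT.leaf [(nat_lit 9346320)]) (FT.cons (FT.leaf [(nat_lit 9587424)]) FT.nil)) FT.nil))) (FT.cons (FT.cons (FT.cons (FT.leaf [(nat_lit
 9195896)]) FT.nil) (FT.cons (FT.cons (FT.leaf [(nat_lit 9577662)]) FT.nil) FT.nil)) (FT.cons (FT.cons (FT.cons (FT.leaf [(nat_lit 9803479)]) FT.nil) FT.nil) (FT.cons (FT.cons (FT.cons (FT.leaf [(nat_lit 10381873)]) FT.nil) FT.nil) (FT.cons (FT.cons (FT.cons (FT.leaf [(nat_lit 10932813)]) FT.nil) FT.nil) FT.nil)))))))) (FT.cons (FT.cons (FT.cons (FT.cons (FT.leaf [(nat_lit 7946213), (nat_lit 8077513), (nat_lit 8212017), (nat_lit 8348865), (nat_lit 8487413), (nat_lit 8627154), (nat_lit 8767688), (nat_lit 8908686), (nat_lit 9049879), (nat_lit 9191047)]) (FT.cons (FT.leaf [(nat_lit 8189006), (nat_lit 8323490), (nat_lit 8460131), (nat_lit 8598318), (nat_lit 8737573), (nat_lit 8877516), (nat_lit 9017837),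 (nat_lit 9158284), (nat_lit 9298645)]) (FT.cons (FT.leaf [(nat_lit 8434436), (nat_lit 8570797), (nat_lit 8708565), (nat_lit 8847287), (nat_lit 8986602), (nat_lit 9126218), (nat_lit 9265894)]) (FT.cons (FT.leaf [(nat_lit 8680834), (nat_lit 8818131), (nat_lit 8956279), (nat_lit 9094934), (nat_lit 9233819)]) (FT.cons (FT.leaf [(nat_lit 8926999), (nat_lit 9064536), (nat_lit 9202502), (nat_lit 9340632)]) (FT.cons (FT.leaf [(nat_lit 9172047), (nat_lit 9309299)]) (FT.cons (FT.leaf [(nat_lit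
 9415318)]) FT.nil))))))) (FT.cons (FT.cons (FT.leaf [(nat_lit 8341973), (nat_lit 8475546), (nat_lit 8611150), (nat_lit 8748195), (nat_lit 8886224), (nat_lit 9024871), (nat_lit 9163840), (nat_lit 9302889)]) (FT.cons (FT.leaf [(nat_lit 8585409), (nat_lit 8720686), (nat_lit 8857277), (nat_lit 8994745), (nat_lit 9132743), (nat_lit 9270993), (nat_lit 9409264)]) (FT.cons (FT.leaf [(nat_lit 8829578), (nat_lit 8965667), (nat_lit 9102538), (nat_lit 9239860), (nat_lit 9377367)]) (FT.cons (FT.leaf [(nat_lit 9073352), (nat_lit 9209593), (nat_lit 9346213), (nat_lit 9482959)]) (FT.cons (FT.leaf [(nat_lit 9315901), (nat_lit 9451797)]) (FT.cons (FT.leaf [(nat_lit 9556608)]) FT.nil)))))) (FT.cons (FT.cons (FT.leaf [(nat_lit 8734618), (nat_lit 8868788), (nat_lit 9004185), (nat_lit 9140392), (nat_lit 9277073)]) (FT.cons (FT.leaf [(nat_lit 8976534), (nat_lit 9111404), (nat_lit 9246994), (nat_lit 9382985)]) (FT.cons (FT.leaf [(nat_lit 9217912), (nat_lit 9352857)])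 (FT.cons (FT.leaf [(nat_lit 9457974)]) (FT.cons (FT.leaf [(nat_lit 9696140)]) FT.nil))))) (FT.cons (FT.cons (FT.leaf [(nat_lit 9121720), (nat_lit 9255365), (nat_lit 9389673)]) (FT.cons (FT.leaf [(nat_lit 9360705), (nat_lit 9494356)])
 (FT.cons (FT.leaf [(nat_lit 9598295)]) FT.nil))) (FT.cons (FT.cons (FT.leaf [(nat_lit 9501756)]) (FT.cons (FT.leaf [(nat_lit 9736891)]) FT.nil)) (FT.cons (FT.cons (FT.leaf [(nat_lit 9873796)]) FT.nil) FT.nil)))))) (FT.cons (FT.cons (FT.cons (FT.leaf [(nat_lit 8591666), (nat_lit 8722806), (nat_lit 8855880), (nat_lit 8990321), (nat_lit 9125690), (nat_lit 9261635)]) (FT.cons (FT.leaf [(nat_lit 8830420), (nat_lit 8963151), (nat_lit 9097129), (nat_lit 9231936), (nat_lit 9367240)]) (FT.cons (FT.leaf [(nat_lit 9069785), (nat_lit 9203258), (nat_lit 9337472), (nat_lit 9472108)]) (FT.cons (FT.leaf [(nat_lit 9308696), (nat_lit 9442287)]) (FT.cons (FT.leaf [(nat_lit 9546374)]) (FT.cons (FT.leaf [(nat_lit 9782238)]) FT.nil))))))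 (FT.cons (FT.cons (FT.leaf [(nat_lit 8976327), (nat_lit 9107965), (nat_lit 9240773), (nat_lit 9374347), (nat_lit 9508367)]) (FT.cons (FT.leaf [(nat_lit 9213482), (nat_lit 9345763), (nat_lit 9478728), (nat_lit 9612070)]) (FT.cons (FT.leaf [(nat_lit 9450059), (nat_lit 9582389)]) (FT.cons (FT.leaf [(nat_lit 9685323)]) (FT.cons (FT.leaf [(nat_lit 9918728)]) FT.nil))))) (FT.cons (FT.cons (FT.leaf [(nat_lit 9355469), (nat_lit 9486553), (nat_lit 9618270)]) (FT.cons (FT.leaf
 [(nat_lit 9589717), (nat_lit 9720789)]) (FT.cons (FT.leaf [(nat_lit 9822585)]) FT.nil))) (FT.cons (FT.cons (FT.leaf [(nat_lit 9727696)]) (FT.cons (FT.leaf [(nat_lit 9958186)]) FT.nil)) (FT.cons (FT.cons (FT.leaf [(nat_lit 10092157)]) FT.nil) FT.nil))))) (FT.cons (FT.cons (FT.cons (FT.leaf [(nat_lit 9212267), (nat_lit 9341451), (nat_lit 9471753), (nat_lit 9602785)]) (FT.cons (FT.leaf [(nat_lit 9444820), (nat_lit 9574598), (nat_lit 9705028)]) (FT.cons (FT.leaf [(nat_lit 9676765)])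 FT.nil))) (FT.cons (FT.cons (FT.leaf [(nat_lit 9583733), (nat_lit 9712344)]) (FT.cons (FT.leaf [(nat_lit 9813415)]) FT.nil)) (FT.cons (FT.cons (FT.leaf [(nat_lit 9948446)]) FT.nil) FT.nil))) (FT.cons (FT.cons (FT.cons (FT.leaf [(nat_lit 9806750)]) FT.nil) (FT.cons (FT.cons (FT.leaf [(nat_lit 10164230)]) FT.nil) FT.nil)) (FT.cons (FT.cons (FT.cons (FT.leaf [(nat_lit 10375263)]) FT.nil) FT.nil) (FT.cons (FT.cons (FT.cons (FT.leaf [(nat_lit 10918686)]) FT.nil) FT.nil) FT.nil)))))) (FT.cons (FT.cons (FT.cons (FT.cons (FT.leaf [(nat_lit 9237455), (nat_lit 9360266), (nat_lit 9484940), (nat_lit 9610954), (nat_lit 9737904), (nat_lit 9865465)]) (FT.cons (FT.leaf [(nat_lit 9460866), (nat_lit 9585275), (nat_lit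
 9710917), (nat_lit 9837404), (nat_lit 9964429)]) (FT.cons (FT.leaf [(nat_lit 9685069), (nat_lit 9810300), (nat_lit 9936294), (nat_lit 10062760)]) (FT.cons (FT.leaf [(nat_lit 9909090), (nat_lit 10034566)]) FT.nil)))) (FT.cons (FT.cons (FT.leaf [(nat_lit 9597063), (nat_lit 9720543), (nat_lit 9845186), (nat_lit 9970617), (nat_lit 10096540)]) (FT.cons (FT.leaf [(nat_lit 9819377), (nat_lit 9943587), (nat_lit 10068510), (nat_lit 10193862)]) (FT.cons (FT.leaf [(nat_lit 10041393), (nat_lit 10165784)]) FT.nil))) (FT.cons (FT.cons (FT.leaf [(nat_lit 9952206), (nat_lit 10075392)]) (FT.cons (FT.leaf [(nat_lit 10172219)]) FT.nil)) (FT.cons (FT.cons (FT.leaf [(nat_lit 10301589)]) FT.nil) FT.nil)))) (FT.cons (FT.cons (FT.cons (FT.leaf [(nat_lit 9816946), (nat_lit 9938313), (nat_lit 10060795), (nat_lit 10184027)]) (FT.cons (FT.leaf [(nat_lit 10035291), (nat_lit 10157340), (nat_lit 10280070)]) (FT.cons (FT.leaf [(nat_lit 10253302)]) FT.nil))) (FT.cons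 (FT.cons (FT.leaf [(nat_lit 10165466), (nat_lit 10286511)]) (FT.cons (FT.leaf [(nat_lit 10381522)]) FT.nil)) (FT.cons (FT.cons (FT.leaf [(nat_lit 10508332)]) FT.nil) FT.nil))) (FT.cons (FT.cons (FT.cons (FT.leaf [(nat_lit 10374191)]) FT.nil) (FT.cons
 (FT.cons (FT.leaf [(nat_lit 10710763)]) FT.nil) FT.nil)) (FT.cons (FT.cons (FT.cons (FT.leaf [(nat_lit 10909052)]) FT.nil) FT.nil) FT.nil)))) (FT.cons (FT.cons (FT.cons (FT.cons (FT.leaf [(nat_lit 10379469), (nat_lit 10494079), (nat_lit 10609787)]) (FT.cons (FT.leaf [(nat_lit 10585530), (nat_lit 10700876)]) (FT.cons (FT.leaf [(nat_lit 10791455)]) FT.nil))) (FT.cons (FT.cons (FT.leaf [(nat_lit 10708147)]) (FT.cons (FT.leaf [(nat_lit 10912362)]) FT.nil)) (FT.cons (FT.cons (FT.leaf [(nat_lit 11032027)]) FT.nil) FT.nil))) (FT.cons (FT.cons (FT.cons (FT.leaf [(nat_lit 10904506)]) FT.nil) (FT.cons (FT.cons (FT.leaf [(nat_lit 11222844)]) FT.nil) FT.nil)) FT.nil)) (FT.cons (FT.cons (FT.cons (FT.cons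 (FT.leaf [(nat_lit 11402655)]) FT.nil) FT.nil) FT.nil) (FT.cons (FT.cons (FT.cons (FT.cons (FT.leaf [(nat_lit 12329221)]) FT.nil) FT.nil) FT.nil) FT.nil))))))))

def f168_1_400 : FT := (FT.cons (FT.cons (FT.cons (FT.cons (FT.leaf [(nat_lit 3440169), (nat_lit 3599201), (nat_lit 3770363), (nat_lit 3950612), (nat_lit 4137712), (nat_lit 4329938), (nat_lit 4525922), (nat_lit 4724557), (nat_lit 4924939), (nat_lit 5126323), (nat_lit 5328095), (nat_lit 5529744), (nat_lit 5730849), (nat_lit 5931060), (nat_lit 6130090), (nat_lit 6327701)]) (FT.cons (FT.leaf [(nat_lit 3755371), (nat_lit 3929091), (nat_lit 4111033), (nat_lit 4299110), (nat_lit 4491719), (nat_lit 4687594), (nat_lit 4885713), (nat_lit 5085243), (nat_lit 5285502), (nat_lit 5485923), (nat_lit 5686042), (nat_lit 5885471), (nat_lit 6083895), (nat_lit 6281049), (nat_lit 6476719)]) (FT.cons (FT.leaf [(nat_lit 4088203), (nat_lit 4271380), (nat_lit 4460062), (nat_lit 4652753), (nat_lit 4848276),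 (nat_lit 5045683), (nat_lit 5244208), (nat_lit 5443218), (nat_lit 5642197), (nat_lit 5840715), (nat_lit 6038420), (nat_lit 6235022), (nat_lit 6430279), (nat_lit 6624000)]) (FT.cons (FT.leaf [(nat_lit 4431403), (nat_lit 4620369), (nat_lit 4812883), (nat_lit 5007845), (nat_lit 5204375), (nat_lit 5401763), (nat_lit 5599425), (nat_lit 5796883), (nat_lit 5993745), (nat_lit 6189686), (nat_lit 6384440), (nat_lit 6577790)]) (FT.cons
 (FT.leaf [(nat_lit 4779868), (nat_lit 4971980), (nat_lit 5166202), (nat_lit 5361715), (nat_lit 5557854), (nat_lit 5754082), (nat_lit 5949958), (nat_lit 6145118), (nat_lit 6339265), (nat_lit 6532155)]) (FT.cons (FT.leaf [(nat_lit 5129934), (nat_lit 5323266), (nat_lit 5517639), (nat_lit 5712438), (nat_lit 5907163), (nat_lit 6101404), (nat_lit 6294828), (nat_lit 6487160), (nat_lit 6678175)]) (FT.cons (FT.leaf [(nat_lit 5478969), (nat_lit 5672102), (nat_lit 5865483), (nat_lit 6058647), (nat_lit 6251213), (nat_lit 6442874),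 (nat_lit 6633375)]) (FT.cons (FT.leaf [(nat_lit 5825065), (nat_lit 6016964), (nat_lit 6208520), (nat_lit 6399382), (nat_lit 6589259)]) (FT.cons (FT.leaf [(nat_lit 6166865), (nat_lit 6356777), (nat_lit 6545908), (nat_lit 6733989)]) (FT.cons (FT.leaf [(nat_lit 6503414), (nat_lit 6690797)]) (FT.cons (FT.leaf [(nat_lit 6834058)]) (FT.cons (FT.leaf [(nat_lit 7158372)]) FT.nil)))))))))))) (FT.cons (FT.cons (FT.leaf [(nat_lit 3982931), (nat_lit 4156931), (nat_lit 4338501), (nat_lit 4525647), (nat_lit 4716851), (nat_lit 4910926), (nat_lit 5106922), (nat_lit 5304066), (nat_lit 5501728), (nat_lit 5699391), (nat_lit 5896625), (nat_lit 6093079), (nat_lit 6288463), (nat_lit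
 6482537), (nat_lit 6675107)]) (FT.cons (FT.leaf [(nat_lit 4314989), (nat_lit 4497424), (nat_lit 4684873), (nat_lit 4875917), (nat_lit 5069448), (nat_lit 5264585), (nat_lit 5460613), (nat_lit 5656949), (nat_lit 5853116), (nat_lit 6048718), (nat_lit 6243434), (nat_lit 6436997), (nat_lit 6629188), (nat_lit 6819828)]) (FT.cons (FT.leaf [(nat_lit 4655817), (nat_lit 4843295), (nat_lit 5033959), (nat_lit 5226772), (nat_lit 5420911), (nat_lit 5615714), (nat_lit 5810640), (nat_lit 6005248), (nat_lit 6199175), (nat_lit 6392123), (nat_lit 6583847), (nat_lit 6774146)]) (FT.cons (FT.leaf [(nat_lit 5000777), (nat_lit 5190873), (nat_lit 5382816), (nat_lit 5575840), (nat_lit 5769327), (nat_lit 5962774), (nat_lit 6155773), (nat_lit 6347989), (nat_lit 6539147), (nat_lit 6729021)]) (FT.cons (FT.leaf [(nat_lit 5346570), (nat_lit 5537517), (nat_lit 5729325), (nat_lit 5921418), (nat_lit 6113330), (nat_lit 6304680), (nat_lit 6495159), (nat_lit 6684511), (nat_lit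 6872531)]) (FT.cons (FT.leaf [(nat_lit 5690821), (nat_lit 5881329), (nat_lit 6071966), (nat_lit 6262296), (nat_lit 6451966), (nat_lit 6640688), (nat_lit 6828227)]) (FT.cons (FT.leaf [(nat_lit 6031825), (nat_lit 6220953), (nat_lit 6409665),
 (nat_lit 6597630), (nat_lit 6784583)]) (FT.cons (FT.leaf [(nat_lit 6368369), (nat_lit 6555435), (nat_lit 6741680), (nat_lit 6926856)]) (FT.cons (FT.leaf [(nat_lit 6699607), (nat_lit 6884120)]) (FT.cons (FT.leaf [(nat_lit 7024963)]) (FT.cons (FT.leaf [(nat_lit 7344063)]) FT.nil))))))))))) (FT.cons (FT.cons (FT.leaf [(nat_lit 4538972), (nat_lit 4720363), (nat_lit 4906339), (nat_lit 5095553), (nat_lit 5286961), (nat_lit 5479735), (nat_lit 5673210), (nat_lit 5866845), (nat_lit 6060196), (nat_lit 6252900), (nat_lit 6444659)]) (FT.cons (FT.leaf [(nat_lit 4876965), (nat_lit 5062764), (nat_lit 5251433), (nat_lit 5441995), (nat_lit 5633677), (nat_lit 5825860), (nat_lit 6018040), (nat_lit 6209808), (nat_lit 6400827),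 (nat_lit 6590823)]) (FT.cons (FT.leaf [(nat_lit 5218148), (nat_lit 5406112), (nat_lit 5595701), (nat_lit 5786193), (nat_lit 5977007), (nat_lit 6167678), (nat_lit 6357823), (nat_lit 6547131), (nat_lit 6735346)]) (FT.cons (FT.leaf [(nat_lit 5559520), (nat_lit 5748029), (nat_lit 5937247), (nat_lit 6126631), (nat_lit 6315745), (nat_lit 6504236), (nat_lit 6691812)]) (FT.cons (FT.leaf [(nat_lit 5898938), (nat_lit 6086812), (nat_lit 6274713), (nat_lit 6462236), (nat_lit 6649048)])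
 (FT.cons (FT.leaf [(nat_lit 6234867), (nat_lit 6421246), (nat_lit 6607147), (nat_lit 6792265)]) (FT.cons (FT.leaf [(nat_lit 6566222), (nat_lit 6750482)]) (FT.cons (FT.leaf [(nat_lit 6892245)]) (FT.cons (FT.leaf [(nat_lit 7212428)]) FT.nil))))))))) (FT.cons (FT.cons (FT.leaf [(nat_lit 5094754), (nat_lit 5278721), (nat_lit 5465287), (nat_lit 5653526), (nat_lit 5842710), (nat_lit 6032256), (nat_lit 6221695), (nat_lit 6410645), (nat_lit 6598791), (nat_lit 6785882)]) (FT.cons (FT.leaf [(nat_lit 5431951), (nat_lit 5617702), (nat_lit 5804887), (nat_lit 5992822), (nat_lit 6180964), (nat_lit 6368874), (nat_lit 6556193), (nat_lit 6742637), (nat_lit 6927965)]) (FT.cons (FT.leaf [(nat_lit 5768808), (nat_lit 5954848), (nat_lit 6141465), (nat_lit 6328151), (nat_lit 6514494), (nat_lit 6700163), (nat_lit 6884889)]) (FT.cons (FT.leaf [(nat_lit 6103377), (nat_lit 6288620), (nat_lit 6473807), (nat_lit 6658557), (nat_lit 6842556)]) (FT.cons (FT.leaf [(nat_lit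 6434272), (nat_lit 6617929), (nat_lit 6801062), (nat_lit 6983381)]) (FT.cons (FT.leaf [(nat_lit 6760514), (nat_lit 6942015)]) (FT.cons (FT.leaf [(nat_lit 7081425)]) (FT.cons (FT.leaf [(nat_lit 7396553)]) FT.nil)))))))) (FT.cons (FT.cons (FT.leaf
 [(nat_lit 5642189), (nat_lit 5825670), (nat_lit 6010420), (nat_lit 6195792), (nat_lit 6381271), (nat_lit 6566444), (nat_lit 6750980), (nat_lit 6934607)]) (FT.cons (FT.leaf [(nat_lit 5974474), (nat_lit 6158030), (nat_lit 6342052), (nat_lit 6526060), (nat_lit 6709666), (nat_lit 6892559), (nat_lit 7074485)]) (FT.cons (FT.leaf [(nat_lit 6304204), (nat_lit 6486831), (nat_lit 6669334), (nat_lit 6851351), (nat_lit 7032588)]) (FT.cons (FT.leaf [(nat_lit 6630120), (nat_lit 6811092), (nat_lit 6991503), (nat_lit 7171077)]) (FT.cons (FT.leaf [(nat_lit 6951337), (nat_lit 7130131)]) (FT.cons (FT.leaf [(nat_lit 7267244)]) FT.nil)))))) (FT.cons (FT.cons (FT.leaf [(nat_lit 6176570), (nat_lit 6357641), (nat_lit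 6539084), (nat_lit 6720443), (nat_lit 6901352), (nat_lit 7081517)]) (FT.cons (FT.leaf [(nat_lit 6501493), (nat_lit 6681528), (nat_lit 6861382), (nat_lit 7040711), (nat_lit 7219238)]) (FT.cons (FT.leaf [(nat_lit 6822499), (nat_lit 7000827), (nat_lit 7178564), (nat_lit 7355451)]) (FT.cons (FT.leaf [(nat_lit 7138784), (nat_lit 7314922)]) (FT.cons (FT.leaf [(nat_lit 7449797)]) FT.nil))))) (FT.cons (FT.cons (FT.leaf [(nat_lit 6695321), (nat_lit 6872795), (nat_lit 7050041)]) (FT.cons (FT.leaf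
 [(nat_lit 7011494), (nat_lit 7187225)]) (FT.cons (FT.leaf [(nat_lit 7322947)]) FT.nil))) (FT.cons (FT.cons (FT.leaf [(nat_lit 7197196)]) (FT.cons (FT.leaf [(nat_lit 7503918)]) FT.nil)) (FT.cons (FT.cons (FT.leaf [(nat_lit 7681787)]) FT.nil) (FT.cons (FT.cons (FT.leaf [(nat_lit 8149206)]) FT.nil) FT.nil)))))))))) (FT.cons (FT.cons (FT.cons (FT.leaf [(nat_lit 4373625), (nat_lit 4544237), (nat_lit 4721838), (nat_lit 4904526), (nat_lit 5090876), (nat_lit 5279782), (nat_lit 5470365), (nat_lit 5661918), (nat_lit 5853865), (nat_lit 6045733), (nat_lit 6237135), (nat_lit 6427749), (nat_lit 6617312), (nat_lit 6805612), (nat_lit 6992469)]) (FT.cons (FT.leaf [(nat_lit 4698266), (nat_lit 4876458), (nat_lit 5059238), (nat_lit 5245272), (nat_lit 5433529), (nat_lit 5623190), (nat_lit 5813599), (nat_lit 6004219), (nat_lit 6194616), (nat_lit 6384431), (nat_lit 6573367), (nat_lit 6761186), (nat_lit 6947687), (nat_lit 7132708)]) (FT.cons (FT.leaf [(nat_lit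 5030417), (nat_lit 5213062), (nat_lit 5398599), (nat_lit 5586061), (nat_lit 5774686), (nat_lit 5963861), (nat_lit 6153089), (nat_lit 6341966), (nat_lit 6530159), (nat_lit 6717398), (nat_lit 6903458), (nat_lit 7088157)]) (FT.cons (FT.leaf [(nat_lit
 5365889), (nat_lit 5550772), (nat_lit 5737316), (nat_lit 5924807), (nat_lit 6112675), (nat_lit 6300456), (nat_lit 6487772), (nat_lit 6674319), (nat_lit 6859843), (nat_lit 7044139)]) (FT.cons (FT.leaf [(nat_lit 5701723), (nat_lit 5887243), (nat_lit 6073520), (nat_lit 6260018), (nat_lit 6446305), (nat_lit 6632031), (nat_lit 6816912), (nat_lit 7000712), (nat_lit 7183240)]) (FT.cons (FT.leaf [(nat_lit 6035804), (nat_lit 6220796), (nat_lit 6405873), (nat_lit 6590632), (nat_lit 6774744), (nat_lit 6957944), (nat_lit 7140014)]) (FT.cons (FT.leaf [(nat_lit 6366618), (nat_lit 6550233), (nat_lit 6733433), (nat_lit 6915913), (nat_lit 7097424)]) (FT.cons (FT.leaf [(nat_lit 6693089), (nat_lit 6874709), (nat_lit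 7055545), (nat_lit 7235361)]) (FT.cons (FT.leaf [(nat_lit 7014465), (nat_lit 7193649)]) (FT.cons (FT.leaf [(nat_lit 7330236)]) FT.nil)))))))))) (FT.cons (FT.cons (FT.leaf [(nat_lit 4915454), (nat_lit 5092423), (nat_lit 5273615), (nat_lit 5457760), (nat_lit 5643879), (nat_lit 5831204), (nat_lit 6019119), (nat_lit 6207124), (nat_lit 6394814), (nat_lit 6581853), (nat_lit 6767973), (nat_lit 6952946), (nat_lit 7136591)]) (FT.cons (FT.leaf [(nat_lit 5244542), (nat_lit 5425432), (nat_lit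
 5608949), (nat_lit 5794176), (nat_lit 5980393), (nat_lit 6167025), (nat_lit 6353608), (nat_lit 6539762), (nat_lit 6725180), (nat_lit 6909610), (nat_lit 7092844), (nat_lit 7274713)]) (FT.cons (FT.leaf [(nat_lit 5576179), (nat_lit 5758934), (nat_lit 5943163), (nat_lit 6128191), (nat_lit 6313480), (nat_lit 6498594), (nat_lit 6683184), (nat_lit 6866961), (nat_lit 7049691), (nat_lit 7231182)]) (FT.cons (FT.leaf [(nat_lit 5907661), (nat_lit 6090803), (nat_lit 6274572), (nat_lit 6458466), (nat_lit 6642077), (nat_lit 6825077), (nat_lit 7007199), (nat_lit 7188224), (nat_lit 7367974)]) (FT.cons (FT.leaf [(nat_lit 6237063), (nat_lit 6419518), (nat_lit 6601975), (nat_lit 6784053), (nat_lit 6965447), (nat_lit 7145903), (nat_lit 7325222)]) (FT.cons (FT.leaf [(nat_lit 6563014), (nat_lit 6744001), (nat_lit 6924525), (nat_lit 7104297), (nat_lit 7283085)]) (FT.cons (FT.leaf [(nat_lit 6884541), (nat_lit 7063494), (nat_lit 7241639), (nat_lit 7418757)]) (FT.cons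 (FT.leaf [(nat_lit 7200970), (nat_lit 7377483)]) (FT.cons (FT.leaf [(nat_lit 7511843)]) FT.nil))))))))) (FT.cons (FT.cons (FT.leaf [(nat_lit 5455358), (nat_lit 5634384), (nat_lit 5815805), (nat_lit 5998751), (nat_lit 6182538), (nat_lit
 6366624), (nat_lit 6550577), (nat_lit 6734039), (nat_lit 6916723), (nat_lit 7098393), (nat_lit 7278857)]) (FT.cons (FT.leaf [(nat_lit 5783019), (nat_lit 5963592), (nat_lit 6145476), (nat_lit 6328032), (nat_lit 6510751), (nat_lit 6693225), (nat_lit 6875122), (nat_lit 7056175), (nat_lit 7236164), (nat_lit 7414911)]) (FT.cons (FT.leaf [(nat_lit 6110095), (nat_lit 6290843), (nat_lit 6472110), (nat_lit 6653418), (nat_lit 6834384), (nat_lit 7014700), (nat_lit 7194113), (nat_lit 7372419), (nat_lit 7549453)]) (FT.cons (FT.leaf [(nat_lit 6434827), (nat_lit 6614758), (nat_lit 6794621), (nat_lit 6974059), (nat_lit 7152778), (nat_lit 7330546), (nat_lit 7507171)]) (FT.cons (FT.leaf [(nat_lit 6755967), (nat_lit 6934359),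 (nat_lit 7112250), (nat_lit 7289366), (nat_lit 7465488)]) (FT.cons (FT.leaf [(nat_lit 7072633), (nat_lit 7248966), (nat_lit 7424474), (nat_lit 7598951)]) (FT.cons (FT.leaf [(nat_lit 7384215), (nat_lit 7558115)]) (FT.cons (FT.leaf [(nat_lit 7690304)]) FT.nil)))))))) (FT.cons (FT.cons (FT.leaf [(nat_lit 5986428), (nat_lit 6164784), (nat_lit 6344311), (nat_lit 6524398), (nat_lit 6704566), (nat_lit 6884429), (nat_lit 7063677), (nat_lit 7242055)]) (FT.cons (FT.leaf [(nat_lit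
 6309074), (nat_lit 6487428), (nat_lit 6666206), (nat_lit 6844955), (nat_lit 7023314), (nat_lit 7200991), (nat_lit 7377747)]) (FT.cons (FT.leaf [(nat_lit 6629165), (nat_lit 6806594), (nat_lit 6983898), (nat_lit 7160735), (nat_lit 7336831)]) (FT.cons (FT.leaf [(nat_lit 6945558), (nat_lit 7121394), (nat_lit 7296698), (nat_lit 7471211)]) (FT.cons (FT.leaf [(nat_lit 7257452), (nat_lit 7431213)]) (FT.cons (FT.leaf [(nat_lit 7564291)]) FT.nil)))))) (FT.cons (FT.cons (FT.leaf [(nat_lit 6504660), (nat_lit 6680626), (nat_lit 6856937), (nat_lit 7033160), (nat_lit 7208953), (nat_lit 7384039)]) (FT.cons (FT.leaf [(nat_lit 6820151), (nat_lit 6995107), (nat_lit 7169888), (nat_lit 7344171), (nat_lit 7517697)]) (FT.cons (FT.leaf [(nat_lit 7131871), (nat_lit 7305194), (nat_lit 7477960), (nat_lit 7649923)]) (FT.cons (FT.leaf [(nat_lit 7439085), (nat_lit 7610328)]) (FT.cons (FT.leaf [(nat_lit 7741289)]) FT.nil))))) (FT.cons (FT.cons (FT.leaf [(nat_lit 7007864),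 (nat_lit 7180379), (nat_lit 7352679), (nat_lit 7524456), (nat_lit 7695464)]) (FT.cons (FT.leaf [(nat_lit 7314989), (nat_lit 7485844), (nat_lit 7656122), (nat_lit 7825591)]) (FT.cons (FT.leaf [(nat_lit 7617620), (nat_lit 7786398)]) FT.nil)))
 (FT.cons (FT.cons (FT.leaf [(nat_lit 7494998)]) (FT.cons (FT.leaf [(nat_lit 7793144)]) FT.nil)) (FT.cons (FT.cons (FT.leaf [(nat_lit 7965740)]) FT.nil) (FT.cons (FT.cons (FT.leaf [(nat_lit 8420217)]) FT.nil) FT.nil))))))))) (FT.cons (FT.cons (FT.cons (FT.leaf [(nat_lit 5278629), (nat_lit 5451213), (nat_lit 5627722), (nat_lit 5806949), (nat_lit 5987974), (nat_lit 6170081), (nat_lit 6352695), (nat_lit 6535353), (nat_lit 6717678), (nat_lit 6899364), (nat_lit 7080157), (nat_lit 7259853), (nat_lit 7438280)]) (FT.cons (FT.leaf [(nat_lit 5598983), (nat_lit 5775101), (nat_lit 5953648), (nat_lit 6133759), (nat_lit 6314759), (nat_lit 6496113), (nat_lit 6677387), (nat_lit 6858232), (nat_lit 7038361), (nat_lit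 7217538), (nat_lit 7395574), (nat_lit 7572310)]) (FT.cons (FT.leaf [(nat_lit 5921404), (nat_lit 6099157), (nat_lit 6278263), (nat_lit 6458090), (nat_lit 6638133), (nat_lit 6817988), (nat_lit 6997327), (nat_lit 7175883), (nat_lit 7353438), (nat_lit 7529813)]) (FT.cons (FT.leaf [(nat_lit 6243431), (nat_lit 6421458), (nat_lit 6600053), (nat_lit 6778744), (nat_lit 6957150), (nat_lit 7134964), (nat_lit 7311938), (nat_lit 7487867), (nat_lit 7662587)]) (FT.cons (FT.leaf [(nat_lit 6563319),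
 (nat_lit 6740636), (nat_lit 6917940), (nat_lit 7094874), (nat_lit 7271151), (nat_lit 7446537), (nat_lit 7620841)]) (FT.cons (FT.leaf [(nat_lit 6879829), (nat_lit 7055719), (nat_lit 7231164), (nat_lit 7405894), (nat_lit 7579689)]) (FT.cons (FT.leaf [(nat_lit 7192081), (nat_lit 7366025), (nat_lit 7539202), (nat_lit 7711408)]) (FT.cons (FT.leaf [(nat_lit 7499466), (nat_lit 7671089)]) (FT.cons (FT.leaf [(nat_lit 7801568)]) FT.nil))))))))) (FT.cons (FT.cons (FT.leaf [(nat_lit 5803135), (nat_lit 5977390), (nat_lit 6153873), (nat_lit 6331760), (nat_lit 6510411), (nat_lit 6689318), (nat_lit 6868074), (nat_lit 7046349), (nat_lit 7223875), (nat_lit 7400431), (nat_lit 7575837)]) (FT.cons (FT.leaf [(nat_lit 6121638), (nat_lit 6297259), (nat_lit 6474094), (nat_lit 6651540), (nat_lit 6829119), (nat_lit 7006452), (nat_lit 7183226), (nat_lit 7359192), (nat_lit 7534145), (nat_lit 7707918)]) (FT.cons (FT.leaf [(nat_lit 6439394), (nat_lit 6615113), (nat_lit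 6791306), (nat_lit 6967524), (nat_lit 7143409), (nat_lit 7318669), (nat_lit 7493070), (nat_lit 7666420), (nat_lit 7838565)]) (FT.cons (FT.leaf [(nat_lit 6754801), (nat_lit 6929701), (nat_lit 7104530), (nat_lit 7278949), (nat_lit 7452685),
 (nat_lit 7625518), (nat_lit 7797269)]) (FT.cons (FT.leaf [(nat_lit 7066720), (nat_lit 7240137), (nat_lit 7413078), (nat_lit 7585286), (nat_lit 7756552)]) (FT.cons (FT.leaf [(nat_lit 7374351), (nat_lit 7545805), (nat_lit 7716481), (nat_lit 7886183)]) (FT.cons (FT.leaf [(nat_lit 7677138), (nat_lit 7846284)]) (FT.cons (FT.leaf [(nat_lit 7974709)]) FT.nil)))))))) (FT.cons (FT.cons (FT.leaf [(nat_lit 6318588), (nat_lit 6492056), (nat_lit 6666616), (nat_lit 6841694), (nat_lit 7016835), (nat_lit 7191677), (nat_lit 7365930), (nat_lit 7539355)]) (FT.cons (FT.leaf [(nat_lit 6632072), (nat_lit 6805488), (nat_lit 6979298), (nat_lit 7153074), (nat_lit 7326476), (nat_lit 7499227), (nat_lit 7671107)]) (FT.cons (FT.leaf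 [(nat_lit 6943034), (nat_lit 7115545), (nat_lit 7287934), (nat_lit 7459880), (nat_lit 7631125)]) (FT.cons (FT.leaf [(nat_lit 7250432), (nat_lit 7421417), (nat_lit 7591900), (nat_lit 7761636)]) (FT.cons (FT.leaf [(nat_lit 7553530), (nat_lit 7722543)]) (FT.cons (FT.leaf [(nat_lit 7851821)]) FT.nil)))))) (FT.cons (FT.cons (FT.leaf [(nat_lit 6821524), (nat_lit 6992653), (nat_lit 7164106), (nat_lit 7335474), (nat_lit 7506435), (nat_lit 7676725)]) (FT.cons (FT.leaf [(nat_lit 7128095),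
 (nat_lit 7298246), (nat_lit 7468234), (nat_lit 7637753), (nat_lit 7806557)]) (FT.cons (FT.leaf [(nat_lit 7431046), (nat_lit 7599640), (nat_lit 7767712), (nat_lit 7935029)]) (FT.cons (FT.leaf [(nat_lit 7729701), (nat_lit 7896323)]) (FT.cons (FT.leaf [(nat_lit 8023597)]) FT.nil))))) (FT.cons (FT.cons (FT.leaf [(nat_lit 7310057), (nat_lit 7477882), (nat_lit 7645512), (nat_lit 7812650), (nat_lit 7979064)]) (FT.cons (FT.leaf [(nat_lit 7608640), (nat_lit 7774889), (nat_lit 7940599), (nat_lit 8105549)]) (FT.cons (FT.leaf [(nat_lit 7902946), (nat_lit 8067228)]) FT.nil))) (FT.cons (FT.cons (FT.leaf [(nat_lit 7783296)]) (FT.cons (FT.leaf [(nat_lit 8073346)]) FT.nil)) (FT.cons (FT.cons (FT.leaf [(nat_lit 8240980)]) FT.nil) (FT.cons (FT.cons (FT.leaf [(nat_lit 8683245)]) FT.nil) FT.nil)))))))) (FT.cons (FT.cons (FT.cons (FT.leaf [(nat_lit 6138832), (nat_lit 6308502), (nat_lit 6480261), (nat_lit 6653327), (nat_lit 6827096), (nat_lit 7001090), (nat_lit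 7174926), (nat_lit 7348295), (nat_lit 7520946), (nat_lit 7692672)]) (FT.cons (FT.leaf [(nat_lit 6448574), (nat_lit 6619469), (nat_lit 6791500), (nat_lit 6964096), (nat_lit 7136807), (nat_lit 7309274), (nat_lit 7481206), (nat_lit 7652367),
 (nat_lit 7822566)]) (FT.cons (FT.leaf [(nat_lit 6757466), (nat_lit 6928407), (nat_lit 7099789), (nat_lit 7271189), (nat_lit 7442268), (nat_lit 7612752), (nat_lit 7782420)]) (FT.cons (FT.leaf [(nat_lit 7064034), (nat_lit 7234170), (nat_lit 7404236), (nat_lit 7573912), (nat_lit 7742941)]) (FT.cons (FT.leaf [(nat_lit 7367235), (nat_lit 7535949), (nat_lit 7704213), (nat_lit 7871784)]) (FT.cons (FT.leaf [(nat_lit 7666335), (nat_lit 7833180)]) (FT.cons (FT.leaf [(nat_lit 7960822)]) FT.nil))))))) (FT.cons (FT.cons (FT.leaf [(nat_lit 6639419), (nat_lit 6808233), (nat_lit 6978076), (nat_lit 7148402), (nat_lit 7318784), (nat_lit 7488878), (nat_lit 7658410), (nat_lit 7827156)]) (FT.cons (FT.leaf [(nat_lit 6944202),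 (nat_lit 7112934), (nat_lit 7282038), (nat_lit 7451109), (nat_lit 7619823), (nat_lit 7787922), (nat_lit 7955195)]) (FT.cons (FT.leaf [(nat_lit 7246523), (nat_lit 7414377), (nat_lit 7582118), (nat_lit 7749442), (nat_lit 7916104)]) (FT.cons (FT.leaf [(nat_lit 7545418), (nat_lit 7711816), (nat_lit 7877743), (nat_lit 8042966)]) (FT.cons (FT.leaf [(nat_lit 7840210), (nat_lit 8004735)]) (FT.cons (FT.leaf [(nat_lit 8130431)]) FT.nil)))))) (FT.cons (FT.cons (FT.leaf [(nat_lit 7127877),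
 (nat_lit 7294420), (nat_lit 7461273), (nat_lit 7628049), (nat_lit 7794441), (nat_lit 7960200)]) (FT.cons (FT.leaf [(nat_lit 7426006), (nat_lit 7591610), (nat_lit 7757066), (nat_lit 7922081), (nat_lit 8086424)]) (FT.cons (FT.leaf [(nat_lit 7720669), (nat_lit 7884794), (nat_lit 8048430), (nat_lit 8211355)]) (FT.cons (FT.leaf [(nat_lit 8011242), (nat_lit 8173495)]) (FT.cons (FT.leaf [(nat_lit 8297291)]) FT.nil))))) (FT.cons (FT.cons (FT.leaf [(nat_lit 7602555), (nat_lit 7765944), (nat_lit 7929154)]) (FT.cons (FT.leaf [(nat_lit 7893065), (nat_lit 8054959)]) (FT.cons (FT.leaf [(nat_lit 8179507)]) FT.nil))) (FT.cons (FT.cons (FT.leaf [(nat_lit 8062680)]) (FT.cons (FT.leaf [(nat_lit 8345081)]) FT.nil)) (FT.cons (FT.cons (FT.leaf [(nat_lit 8508037)]) FT.nil) FT.nil)))))) (FT.cons (FT.cons (FT.cons (FT.leaf [(nat_lit 6949620), (nat_lit 7114007), (nat_lit 7279371), (nat_lit 7445192), (nat_lit 7611064), (nat_lit 7776663), (nat_lit 7941730), (nat_lit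 8106051)]) (FT.cons (FT.leaf [(nat_lit 7246145), (nat_lit 7410434), (nat_lit 7575079), (nat_lit 7739693), (nat_lit 7903973), (nat_lit 8067670), (nat_lit 8230586)]) (FT.cons (FT.leaf [(nat_lit 7540282), (nat_lit 7703725), (nat_lit 7867067),
 (nat_lit 8030018), (nat_lit 8192344)]) (FT.cons (FT.leaf [(nat_lit 7831134), (nat_lit 7993192), (nat_lit 8154808), (nat_lit 8315763)]) (FT.cons (FT.leaf [(nat_lit 8118074), (nat_lit 8278353)]) (FT.cons (FT.leaf [(nat_lit 8400665)]) FT.nil)))))) (FT.cons (FT.cons (FT.leaf [(nat_lit 7424373), (nat_lit 7586567), (nat_lit 7749062), (nat_lit 7911491), (nat_lit 8073559), (nat_lit 8235032)]) (FT.cons (FT.leaf [(nat_lit 7714509), (nat_lit 7875807), (nat_lit 8036973), (nat_lit 8197727), (nat_lit 8357848)]) (FT.cons (FT.leaf [(nat_lit 8001334), (nat_lit 8161227), (nat_lit 8320664), (nat_lit 8479435)]) (FT.cons (FT.leaf [(nat_lit 8284262), (nat_lit 8442382)]) (FT.cons (FT.leaf [(nat_lit 8562892)]) FT.nil))))) (FT.cons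 (FT.cons (FT.leaf [(nat_lit 7885957), (nat_lit 8045144), (nat_lit 8204172)]) (FT.cons (FT.leaf [(nat_lit 8168830), (nat_lit 8326600)]) (FT.cons (FT.leaf [(nat_lit 8447832)]) FT.nil))) (FT.cons (FT.cons (FT.leaf [(nat_lit 8333693)]) (FT.cons (FT.leaf [(nat_lit 8608853)]) FT.nil)) (FT.cons (FT.cons (FT.leaf [(nat_lit 8767393)]) FT.nil) FT.nil))))) (FT.cons (FT.cons (FT.cons (FT.leaf [(nat_lit 7711616), (nat_lit 7869683), (nat_lit 8028047), (nat_lit 8186354), (nat_lit 8344326)])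
 (FT.cons (FT.leaf [(nat_lit 7994179), (nat_lit 8151395), (nat_lit 8308494), (nat_lit 8465210)]) (FT.cons (FT.leaf [(nat_lit 8273580), (nat_lit 8429463)]) (FT.cons (FT.leaf [(nat_lit 8549272)]) FT.nil)))) (FT.cons (FT.cons (FT.leaf [(nat_lit 8160814), (nat_lit 8316017), (nat_lit 8471079)]) (FT.cons (FT.leaf [(nat_lit 8436452), (nat_lit 8590312)]) (FT.cons (FT.leaf [(nat_lit 8708407)]) FT.nil))) (FT.cons (FT.cons (FT.leaf [(nat_lit 8596826)]) (FT.cons (FT.leaf [(nat_lit 8865126)]) FT.nil)) FT.nil))) (FT.cons (FT.cons (FT.cons (FT.leaf [(nat_lit 8427626)]) FT.nil) (FT.cons (FT.cons (FT.leaf [(nat_lit 8852535)]) FT.nil) FT.nil)) (FT.cons (FT.cons (FT.cons (FT.leaf [(nat_lit 9101233)]) FT.nil) FT.nil) (FT.cons (FT.cons (FT.cons (FT.leaf [(nat_lit 9736131)]) FT.nil) FT.nil) (FT.cons (FT.cons (FT.cons (FT.leaf [(nat_lit 10335841)]) FT.nil) FT.nil) FT.nil)))))))))) (FT.cons (FT.cons (FT.cons (FT.cons (FT.leaf [(nat_lit 5431375), (nat_lit 5584640),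 (nat_lit 5744203), (nat_lit 5908403), (nat_lit 6076005), (nat_lit 6246055), (nat_lit 6417794), (nat_lit 6590615), (nat_lit 6764018), (nat_lit 6937596), (nat_lit 7111006), (nat_lit 7283970), (nat_lit 7456252), (nat_lit 7627658), (nat_lit
 7798023)]) (FT.cons (FT.leaf [(nat_lit 5722457), (nat_lit 5882635), (nat_lit 6047035), (nat_lit 6214498), (nat_lit 6384131), (nat_lit 6555227), (nat_lit 6727215), (nat_lit 6899633), (nat_lit 7072098), (nat_lit 7244295), (nat_lit 7415962), (nat_lit 7586882), (nat_lit 7756873), (nat_lit 7925787)]) (FT.cons (FT.leaf [(nat_lit 6020593), (nat_lit 6185008), (nat_lit 6352184), (nat_lit 6521282), (nat_lit 6691638), (nat_lit 6862719), (nat_lit 7034091), (nat_lit 7205399), (nat_lit 7376348), (nat_lit 7546695), (nat_lit 7716236), (nat_lit 7884806)]) (FT.cons (FT.leaf [(nat_lit 6322237), (nat_lit 6488996), (nat_lit 6657454), (nat_lit 6826987), (nat_lit 6997096), (nat_lit 7167373), (nat_lit 7337486), (nat_lit 7507160),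 (nat_lit 7676167), (nat_lit 7844320)]) (FT.cons (FT.leaf [(nat_lit 6624876), (nat_lit 6792605), (nat_lit 6961245), (nat_lit 7130326), (nat_lit 7299465), (nat_lit 7468352), (nat_lit 7636728), (nat_lit 7804382), (nat_lit 7971138)]) (FT.cons (FT.leaf [(nat_lit 6926699), (nat_lit 7094385), (nat_lit 7262390), (nat_lit 7430357), (nat_lit 7597992), (nat_lit 7765054), (nat_lit 7931344)]) (FT.cons (FT.leaf [(nat_lit 7226387), (nat_lit 7393277), (nat_lit 7560042), (nat_lit 7726404),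
 (nat_lit 7892138)]) (FT.cons (FT.leaf [(nat_lit 7522978), (nat_lit 7688516), (nat_lit 7853589), (nat_lit 8017986)]) (FT.cons (FT.leaf [(nat_lit 7815779), (nat_lit 7979551)]) (FT.cons (FT.leaf [(nat_lit 8104294)]) FT.nil)))))))))) (FT.cons (FT.cons (FT.leaf [(nat_lit 5916111), (nat_lit 6075406), (nat_lit 6238627), (nat_lit 6404665), (nat_lit 6572668), (nat_lit 6741968), (nat_lit 6912026), (nat_lit 7082406), (nat_lit 7252751), (nat_lit 7422762), (nat_lit 7592199), (nat_lit 7760854), (nat_lit 7928562)]) (FT.cons (FT.leaf [(nat_lit 6211946), (nat_lit 6375046), (nat_lit 6540690), (nat_lit 6708075), (nat_lit 6876572), (nat_lit 7045677), (nat_lit 7214982), (nat_lit 7384149), (nat_lit 7552904), (nat_lit 7721019), (nat_lit 7888304), (nat_lit 8054601)]) (FT.cons (FT.leaf [(nat_lit 6510661), (nat_lit 6675797), (nat_lit 6842474), (nat_lit 7010098), (nat_lit 7178195), (nat_lit 7346380), (nat_lit 7514340), (nat_lit 7681817), (nat_lit 7848595), (nat_lit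 8014500)]) (FT.cons (FT.leaf [(nat_lit 6809940), (nat_lit 6975831), (nat_lit 7142520), (nat_lit 7309561), (nat_lit 7476592), (nat_lit 7643319), (nat_lit 7809498), (nat_lit 7974931), (nat_lit 8139453)]) (FT.cons (FT.leaf [(nat_lit 7108116),
 (nat_lit 7273818), (nat_lit 7439763), (nat_lit 7605611), (nat_lit 7771084), (nat_lit 7935953), (nat_lit 8100033)]) (FT.cons (FT.leaf [(nat_lit 7403977), (nat_lit 7568793), (nat_lit 7733433), (nat_lit 7897635), (nat_lit 8061185)]) (FT.cons (FT.leaf [(nat_lit 7696645), (nat_lit 7860057), (nat_lit 8022977), (nat_lit 8185201)]) (FT.cons (FT.leaf [(nat_lit 7985486), (nat_lit 8147113)]) (FT.cons (FT.leaf [(nat_lit 8270050)]) FT.nil))))))))) (FT.cons (FT.cons (FT.leaf [(nat_lit 6400716), (nat_lit 6562413), (nat_lit 6726458), (nat_lit 6892087), (nat_lit 7058699), (nat_lit 7225817), (nat_lit 7393055), (nat_lit 7560095), (nat_lit 7726677), (nat_lit 7892588), (nat_lit 8057650)]) (FT.cons (FT.leaf [(nat_lit 6696383),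 (nat_lit 6859847), (nat_lit 7024710), (nat_lit 7190409), (nat_lit 7356490), (nat_lit 7522593), (nat_lit 7688418), (nat_lit 7853722), (nat_lit 8018305), (nat_lit 8182001)]) (FT.cons (FT.leaf [(nat_lit 6992246), (nat_lit 7156277), (nat_lit 7321008), (nat_lit 7486014), (nat_lit 7650951), (nat_lit 7815541), (nat_lit 7979554), (nat_lit 8142800), (nat_lit 8305127)]) (FT.cons (FT.leaf [(nat_lit 7286763), (nat_lit 7450483), (nat_lit 7614379), (nat_lit 7778127), (nat_lit 7941464),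
 (nat_lit 8104175), (nat_lit 8266082)]) (FT.cons (FT.leaf [(nat_lit 7578822), (nat_lit 7741579), (nat_lit 7904119), (nat_lit 8066191), (nat_lit 8227593)]) (FT.cons (FT.leaf [(nat_lit 7867613), (nat_lit 8028927), (nat_lit 8189725), (nat_lit 8349814)]) (FT.cons (FT.leaf [(nat_lit 8152556), (nat_lit 8312073)]) (FT.cons (FT.leaf [(nat_lit 8433244)]) FT.nil)))))))) (FT.cons (FT.cons (FT.leaf [(nat_lit 6879411), (nat_lit 7041165), (nat_lit 7204195), (nat_lit 7367960), (nat_lit 7532032), (nat_lit 7696066), (nat_lit 7859778), (nat_lit 8022940)]) (FT.cons (FT.leaf [(nat_lit 7171822), (nat_lit 7333982), (nat_lit 7496756), (nat_lit 7659738), (nat_lit 7822600), (nat_lit 7985079), (nat_lit 8146956)]) (FT.cons (FT.leaf [(nat_lit 7462686), (nat_lit 7624430), (nat_lit 7786293), (nat_lit 7947965), (nat_lit 8109196)]) (FT.cons (FT.leaf [(nat_lit 7750974), (nat_lit 7911694), (nat_lit 8072159), (nat_lit 8232134)]) (FT.cons (FT.leaf [(nat_lit 8035941), (nat_lit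 8195188)]) (FT.cons (FT.leaf [(nat_lit 8317054)]) FT.nil)))))) (FT.cons (FT.cons (FT.leaf [(nat_lit 7348704), (nat_lit 7508991), (nat_lit 7669814), (nat_lit 7830787), (nat_lit 7991598), (nat_lit 8151995)]) (FT.cons (FT.leaf [(nat_lit 7635931),
 (nat_lit 7795712), (nat_lit 7955561), (nat_lit 8115184), (nat_lit 8274342)]) (FT.cons (FT.leaf [(nat_lit 7920488), (nat_lit 8079195), (nat_lit 8237617), (nat_lit 8395528)]) (FT.cons (FT.leaf [(nat_lit 8201689), (nat_lit 8358901)]) (FT.cons (FT.leaf [(nat_lit 8479041)]) FT.nil))))) (FT.cons (FT.cons (FT.leaf [(nat_lit 7806548), (nat_lit 7964383), (nat_lit 8122243), (nat_lit 8279846), (nat_lit 8436963)]) (FT.cons (FT.leaf [(nat_lit 8087422), (nat_lit 8244141), (nat_lit 8400551), (nat_lit 8556435)]) (FT.cons (FT.leaf [(nat_lit 8364917), (nat_lit 8520126)]) FT.nil))) (FT.cons (FT.cons (FT.leaf [(nat_lit 8251833)]) (FT.cons (FT.leaf [(nat_lit 8525684)]) FT.nil)) (FT.cons (FT.cons (FT.leaf [(nat_lit 8684051)])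 FT.nil) (FT.cons (FT.cons (FT.leaf [(nat_lit 9103094)]) FT.nil) FT.nil))))))))) (FT.cons (FT.cons (FT.cons (FT.leaf [(nat_lit 6238761), (nat_lit 6394657), (nat_lit 6554238), (nat_lit 6716441), (nat_lit 6880459), (nat_lit 7045661), (nat_lit 7211540), (nat_lit 7377688), (nat_lit 7543770), (nat_lit 7709509), (nat_lit 7874678), (nat_lit 8039089), (nat_lit 8202583)]) (FT.cons (FT.leaf [(nat_lit 6527802), (nat_lit 6687186), (nat_lit 6848944), (nat_lit 7012315), (nat_lit 7176704),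
 (nat_lit 7341635), (nat_lit 7506725), (nat_lit 7671659), (nat_lit 7836180), (nat_lit 8000074), (nat_lit 8163164), (nat_lit 8325304)]) (FT.cons (FT.leaf [(nat_lit 6819316), (nat_lit 6980531), (nat_lit 7143177), (nat_lit 7306692), (nat_lit 7470628), (nat_lit 7634625), (nat_lit 7798386), (nat_lit 7961670), (nat_lit 8124277), (nat_lit 8286042)]) (FT.cons (FT.leaf [(nat_lit 7111163), (nat_lit 7273017), (nat_lit 7435605), (nat_lit 7598506), (nat_lit 7761379), (nat_lit 7923947), (nat_lit 8085980), (nat_lit 8247292), (nat_lit 8407728)]) (FT.cons (FT.leaf [(nat_lit 7401811), (nat_lit 7563429), (nat_lit 7725261), (nat_lit 7886986), (nat_lit 8048341), (nat_lit 8209114), (nat_lit 8369126)]) (FT.cons (FT.leaf [(nat_lit 7690151), (nat_lit 7850885), (nat_lit 8011442), (nat_lit 8171573), (nat_lit 8331077)]) (FT.cons (FT.leaf [(nat_lit 7975376), (nat_lit 8134748), (nat_lit 8293646), (nat_lit 8451875)]) (FT.cons (FT.leaf [(nat_lit 8256908), (nat_lit 8414564)])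 (FT.cons (FT.leaf [(nat_lit 8534336)]) FT.nil))))))))) (FT.cons (FT.cons (FT.leaf [(nat_lit 6711358), (nat_lit 6869325), (nat_lit 7029495), (nat_lit 7191139), (nat_lit 7353689), (nat_lit 7516693), (nat_lit 7679787), (nat_lit 7842673),
 (nat_lit 8005109), (nat_lit 8166892), (nat_lit 8327856)]) (FT.cons (FT.leaf [(nat_lit 6999844), (nat_lit 7159410), (nat_lit 7320283), (nat_lit 7481927), (nat_lit 7643915), (nat_lit 7805904), (nat_lit 7967613), (nat_lit 8128816), (nat_lit 8289321), (nat_lit 8448972)]) (FT.cons (FT.leaf [(nat_lit 7288351), (nat_lit 7448395), (nat_lit 7609088), (nat_lit 7770026), (nat_lit 7930885), (nat_lit 8091401), (nat_lit 8251359), (nat_lit 8410581), (nat_lit 8568920)]) (FT.cons (FT.leaf [(nat_lit 7575458), (nat_lit 7735161), (nat_lit 7895020), (nat_lit 8054728), (nat_lit 8214038), (nat_lit 8372744), (nat_lit 8530680)]) (FT.cons (FT.leaf [(nat_lit 7860137), (nat_lit 8018894), (nat_lit 8177436), (nat_lit 8335528), (nat_lit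 8492977)]) (FT.cons (FT.leaf [(nat_lit 8141647), (nat_lit 8299010), (nat_lit 8455877), (nat_lit 8612067)]) (FT.cons (FT.leaf [(nat_lit 8419453), (nat_lit 8575091)]) (FT.cons (FT.leaf [(nat_lit 8693179)]) FT.nil)))))))) (FT.cons (FT.cons (FT.leaf [(nat_lit 7177773), (nat_lit 7335663), (nat_lit 7494751), (nat_lit 7654524), (nat_lit 7814573), (nat_lit 7974572), (nat_lit 8134255), (nat_lit 8293404)]) (FT.cons (FT.leaf [(nat_lit 7462921), (nat_lit 7621151), (nat_lit 7779953),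
 (nat_lit 7938942), (nat_lit 8097809), (nat_lit 8256302), (nat_lit 8414216)]) (FT.cons (FT.leaf [(nat_lit 7746500), (nat_lit 7904299), (nat_lit 8062204), (nat_lit 8219922), (nat_lit 8377215)]) (FT.cons (FT.leaf [(nat_lit 8027557), (nat_lit 8184358), (nat_lit 8340914), (nat_lit 8496999)]) (FT.cons (FT.leaf [(nat_lit 8305405), (nat_lit 8460789)]) (FT.cons (FT.leaf [(nat_lit 8579551)]) FT.nil)))))) (FT.cons (FT.cons (FT.leaf [(nat_lit 7634912), (nat_lit 7791329), (nat_lit 7948251), (nat_lit 8105310), (nat_lit 8262209), (nat_lit 8418708)]) (FT.cons (FT.leaf [(nat_lit 7914987), (nat_lit 8070897), (nat_lit 8226870), (nat_lit 8382623), (nat_lit 8537931)]) (FT.cons (FT.leaf [(nat_lit 8192465), (nat_lit 8347335), (nat_lit 8501933), (nat_lit 8656045)]) (FT.cons (FT.leaf [(nat_lit 8466708), (nat_lit 8620144)]) (FT.cons (FT.leaf [(nat_lit 8737260)]) FT.nil))))) (FT.cons (FT.cons (FT.leaf [(nat_lit 8080967), (nat_lit 8235007), (nat_lit 8389072), (nat_lit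 8542890), (nat_lit 8696247)]) (FT.cons (FT.leaf [(nat_lit 8354914), (nat_lit 8507880), (nat_lit 8660553), (nat_lit 8812726)]) (FT.cons (FT.leaf [(nat_lit 8625613), (nat_lit 8777133)]) FT.nil))) (FT.cons (FT.cons (FT.leaf [(nat_lit 8514960)])
 (FT.cons (FT.leaf [(nat_lit 8782176)]) FT.nil)) (FT.cons (FT.cons (FT.leaf [(nat_lit 8936454)]) FT.nil) (FT.cons (FT.cons (FT.leaf [(nat_lit 9345363)]) FT.nil) FT.nil)))))))) (FT.cons (FT.cons (FT.cons (FT.leaf [(nat_lit 7012535), (nat_lit 7166891), (nat_lit 7323324), (nat_lit 7481138), (nat_lit 7639795), (nat_lit 7798864), (nat_lit 7958002), (nat_lit 8116927), (nat_lit 8275411), (nat_lit 8433265)]) (FT.cons (FT.leaf [(nat_lit 7294097), (nat_lit 7449913), (nat_lit 7606959), (nat_lit 7764722), (nat_lit 7922799), (nat_lit 8080864), (nat_lit 8238653), (nat_lit 8395948), (nat_lit 8552572)]) (FT.cons (FT.leaf [(nat_lit 7575551), (nat_lit 7731776), (nat_lit 7888608), (nat_lit 8045663), (nat_lit 8202634),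 (nat_lit 8359271), (nat_lit 8515369)]) (FT.cons (FT.leaf [(nat_lit 7855576), (nat_lit 8011443), (nat_lit 8167453), (nat_lit 8323312), (nat_lit 8478786)]) (FT.cons (FT.leaf [(nat_lit 8133222), (nat_lit 8288165), (nat_lit 8442899), (nat_lit 8597203)]) (FT.cons (FT.leaf [(nat_lit 8407800), (nat_lit 8561401)]) (FT.cons (FT.leaf [(nat_lit 8678819)]) FT.nil))))))) (FT.cons (FT.cons (FT.leaf [(nat_lit 7467167), (nat_lit 7621349), (nat_lit 7776662), (nat_lit 7932616), (nat_lit 8088825),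
 (nat_lit 8244978), (nat_lit 8400822), (nat_lit 8556150)]) (FT.cons (FT.leaf [(nat_lit 7745363), (nat_lit 7899832), (nat_lit 8054841), (nat_lit 8210022), (nat_lit 8365080), (nat_lit 8519778), (nat_lit 8673920)]) (FT.cons (FT.leaf [(nat_lit 8021988), (nat_lit 8176022), (nat_lit 8330154), (nat_lit 8484104), (nat_lit 8637647)]) (FT.cons (FT.leaf [(nat_lit 8296155), (nat_lit 8449222), (nat_lit 8602053), (nat_lit 8754436)]) (FT.cons (FT.leaf [(nat_lit 8567227), (nat_lit 8718932)]) (FT.cons (FT.leaf [(nat_lit 8834745)]) FT.nil)))))) (FT.cons (FT.cons (FT.leaf [(nat_lit 7912707), (nat_lit 8065426), (nat_lit 8218625), (nat_lit 8371951), (nat_lit 8525121), (nat_lit 8677909)]) (FT.cons (FT.leaf [(nat_lit 8185959), (nat_lit 8338178), (nat_lit 8490455), (nat_lit 8642523), (nat_lit 8794166)]) (FT.cons (FT.leaf [(nat_lit 8456694), (nat_lit 8607909), (nat_lit 8758866), (nat_lit 8909361)]) (FT.cons (FT.leaf [(nat_lit 8724316), (nat_lit 8874156)]) (FT.cons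 (FT.leaf [(nat_lit 8988398)]) FT.nil))))) (FT.cons (FT.cons (FT.leaf [(nat_lit 8347540), (nat_lit 8497962), (nat_lit 8648409)]) (FT.cons (FT.leaf [(nat_lit 8614890), (nat_lit 8764280)]) (FT.cons (FT.leaf [(nat_lit 8879121)]) FT.nil))) (FT.cons
 (FT.cons (FT.leaf [(nat_lit 8770796)]) (FT.cons (FT.leaf [(nat_lit 9031695)]) FT.nil)) (FT.cons (FT.cons (FT.leaf [(nat_lit 9182093)]) FT.nil) FT.nil)))))) (FT.cons (FT.cons (FT.cons (FT.leaf [(nat_lit 7748077), (nat_lit 7898701), (nat_lit 8050400), (nat_lit 8202706), (nat_lit 8355248), (nat_lit 8507731), (nat_lit 8659916), (nat_lit 8811607)]) (FT.cons (FT.leaf [(nat_lit 8019620), (nat_lit 8170494), (nat_lit 8321879), (nat_lit 8473426), (nat_lit 8624853), (nat_lit 8775934), (nat_lit 8926483)]) (FT.cons (FT.leaf [(nat_lit 8289607), (nat_lit 8440047), (nat_lit 8590580), (nat_lit 8740940), (nat_lit 8890910)]) (FT.cons (FT.leaf [(nat_lit 8557208), (nat_lit 8706713), (nat_lit 8855996), (nat_lit 9004850)])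 (FT.cons (FT.leaf [(nat_lit 8821826), (nat_lit 8970025)]) (FT.cons (FT.leaf [(nat_lit 9083034)]) FT.nil)))))) (FT.cons (FT.cons (FT.leaf [(nat_lit 8182548), (nat_lit 8331734), (nat_lit 8481377), (nat_lit 8631143), (nat_lit 8780759), (nat_lit 8930010)]) (FT.cons (FT.leaf [(nat_lit 8449291), (nat_lit 8597987), (nat_lit 8746740), (nat_lit 8895296), (nat_lit 9043447)]) (FT.cons (FT.leaf [(nat_lit 8713600), (nat_lit 8861330), (nat_lit 9008817), (nat_lit 9155864)]) (FT.cons (FT.leaf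
 [(nat_lit 8974915), (nat_lit 9121329)]) (FT.cons (FT.leaf [(nat_lit 9232838)]) FT.nil))))) (FT.cons (FT.cons (FT.leaf [(nat_lit 8606694), (nat_lit 8753664), (nat_lit 8900663)]) (FT.cons (FT.leaf [(nat_lit 8867758), (nat_lit 9013740)]) (FT.cons (FT.leaf [(nat_lit 9125828)]) FT.nil))) (FT.cons (FT.cons (FT.leaf [(nat_lit 9019734)]) (FT.cons (FT.leaf [(nat_lit 9274614)]) FT.nil)) (FT.cons (FT.cons (FT.leaf [(nat_lit 9421324)]) FT.nil) FT.nil))))) (FT.cons (FT.cons (FT.cons (FT.leaf [(nat_lit 8444865), (nat_lit 8590672), (nat_lit 8736920), (nat_lit 8883286), (nat_lit 9029513)]) (FT.cons (FT.leaf [(nat_lit 8705395), (nat_lit 8850726), (nat_lit 8996117), (nat_lit 9141321)]) (FT.cons (FT.leaf [(nat_lit 8963575), (nat_lit 9107979)]) (FT.cons (FT.leaf [(nat_lit 9218878)]) FT.nil)))) (FT.cons (FT.cons (FT.leaf [(nat_lit 8858827), (nat_lit 9002502), (nat_lit 9146208)]) (FT.cons (FT.leaf [(nat_lit 9113896), (nat_lit 9256624)]) (FT.cons (FT.leaf [(nat_lit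 9366091)]) FT.nil))) (FT.cons (FT.cons (FT.leaf [(nat_lit 9262134)]) (FT.cons (FT.leaf [(nat_lit 9511275)]) FT.nil)) FT.nil))) (FT.cons (FT.cons (FT.cons (FT.leaf [(nat_lit 9104306)]) FT.nil) (FT.cons (FT.cons (FT.leaf [(nat_lit 9498335)])
 FT.nil) FT.nil)) (FT.cons (FT.cons (FT.cons (FT.leaf [(nat_lit 9728647)]) FT.nil) FT.nil) (FT.cons (FT.cons (FT.cons (FT.leaf [(nat_lit 10320421)]) FT.nil) FT.nil) (FT.cons (FT.cons (FT.cons (FT.leaf [(nat_lit 10882171)]) FT.nil) FT.nil) FT.nil))))))))) (FT.cons (FT.cons (FT.cons (FT.cons (FT.leaf [(nat_lit 7089540), (nat_lit 7232354), (nat_lit 7378620), (nat_lit 7527389), (nat_lit 7677939), (nat_lit 7829706), (nat_lit 7982237), (nat_lit 8135167), (nat_lit 8288193), (nat_lit 8441067), (nat_lit 8593582)]) (FT.cons (FT.leaf [(nat_lit 7354014), (nat_lit 7500199), (nat_lit 7648670), (nat_lit 7798746), (nat_lit 7949892), (nat_lit 8101684), (nat_lit 8253775), (nat_lit 8405883), (nat_lit 8557773), (nat_lit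 8709251)]) (FT.cons (FT.leaf [(nat_lit 7621130), (nat_lit 7769219), (nat_lit 7918751), (nat_lit 8069224), (nat_lit 8220232), (nat_lit 8371453), (nat_lit 8522617), (nat_lit 8673504), (nat_lit 8823931)]) (FT.cons (FT.leaf [(nat_lit 7889000), (nat_lit 8037930), (nat_lit 8187681), (nat_lit 8337871), (nat_lit 8488191), (nat_lit 8638390), (nat_lit 8788260)]) (FT.cons (FT.leaf [(nat_lit 8156262), (nat_lit 8305250), (nat_lit 8454588), (nat_lit 8603985), (nat_lit 8753201)]) (FT.cons (FT.leaf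
 [(nat_lit 8421918), (nat_lit 8570377), (nat_lit 8718829), (nat_lit 8867048)]) (FT.cons (FT.leaf [(nat_lit 8685232), (nat_lit 8832723)]) (FT.cons (FT.leaf [(nat_lit 8945665)]) (FT.cons (FT.leaf [(nat_lit 9202822)]) FT.nil))))))))) (FT.cons (FT.cons (FT.leaf [(nat_lit 7521381), (nat_lit 7666445), (nat_lit 7813647), (nat_lit 7962332), (nat_lit 8111989), (nat_lit 8262212), (nat_lit 8412671), (nat_lit 8563096), (nat_lit 8713266), (nat_lit 8862996)]) (FT.cons (FT.leaf [(nat_lit 7786067), (nat_lit 7932832), (nat_lit 8080932), (nat_lit 8229884), (nat_lit 8379302), (nat_lit 8528876), (nat_lit 8678350), (nat_lit 8827516), (nat_lit 8976198)]) (FT.cons (FT.leaf [(nat_lit 8051232), (nat_lit 8198695), (nat_lit 8346900), (nat_lit 8495482), (nat_lit 8644146), (nat_lit 8792651), (nat_lit 8940800)]) (FT.cons (FT.leaf [(nat_lit 8315603), (nat_lit 8463026), (nat_lit 8610743), (nat_lit 8758477), (nat_lit 8905999)]) (FT.cons (FT.leaf [(nat_lit 8578251), (nat_lit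 8725081), (nat_lit 8871868), (nat_lit 9018393)]) (FT.cons (FT.leaf [(nat_lit 8838492), (nat_lit 8984317)]) (FT.cons (FT.leaf [(nat_lit 9095825)]) (FT.cons (FT.leaf [(nat_lit 9349884)]) FT.nil)))))))) (FT.cons (FT.cons (FT.leaf [(nat_lit
 7948877), (nat_lit 8094291), (nat_lit 8240944), (nat_lit 8388369), (nat_lit 8536198), (nat_lit 8684134), (nat_lit 8831933), (nat_lit 8979395)]) (FT.cons (FT.leaf [(nat_lit 8211312), (nat_lit 8357298), (nat_lit 8503956), (nat_lit 8650936), (nat_lit 8797956), (nat_lit 8944785), (nat_lit 9091233)]) (FT.cons (FT.leaf [(nat_lit 8472794), (nat_lit 8618653), (nat_lit 8764761), (nat_lit 8910847), (nat_lit 9056693)]) (FT.cons (FT.leaf [(nat_lit 8732455), (nat_lit 8877668), (nat_lit 9022806), (nat_lit 9167659)]) (FT.cons (FT.leaf [(nat_lit 8989657), (nat_lit 9133834)]) (FT.cons (FT.leaf [(nat_lit 9243934)]) FT.nil)))))) (FT.cons (FT.cons (FT.leaf [(nat_lit 8369264), (nat_lit 8513769), (nat_lit 8658885), (nat_lit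 8804272), (nat_lit 8949661), (nat_lit 9094832)]) (FT.cons (FT.leaf [(nat_lit 8627866), (nat_lit 8772171), (nat_lit 8916680), (nat_lit 9061134), (nat_lit 9205326)]) (FT.cons (FT.leaf [(nat_lit 8884566), (nat_lit 9028178), (nat_lit 9171686), (nat_lit 9314890)]) (FT.cons (FT.leaf [(nat_lit 9138767), (nat_lit 9281318)]) (FT.cons (FT.leaf [(nat_lit 9390034)]) FT.nil))))) (FT.cons (FT.cons (FT.leaf [(nat_lit 8780857), (nat_lit 8923615), (nat_lit 9066540)]) (FT.cons (FT.leaf [(nat_lit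
 9034624), (nat_lit 9176651)]) (FT.cons (FT.leaf [(nat_lit 9285864)]) FT.nil))) (FT.cons (FT.cons (FT.leaf [(nat_lit 9182669)]) (FT.cons (FT.leaf [(nat_lit 9430989)]) FT.nil)) (FT.cons (FT.cons (FT.leaf [(nat_lit 9574187)]) FT.nil) FT.nil))))))) (FT.cons (FT.cons (FT.cons (FT.leaf [(nat_lit 7795373), (nat_lit 7937493), (nat_lit 8081641), (nat_lit 8227186), (nat_lit 8373640), (nat_lit 8520617), (nat_lit 8667804), (nat_lit 8814943), (nat_lit 8961824), (nat_lit 9108275)]) (FT.cons (FT.leaf [(nat_lit 8054402), (nat_lit 8198095), (nat_lit 8343049), (nat_lit 8488803), (nat_lit 8634988), (nat_lit 8781308), (nat_lit 8927521), (nat_lit 9073428), (nat_lit 9218865)]) (FT.cons (FT.leaf [(nat_lit 8313776), (nat_lit 8458094), (nat_lit 8603110), (nat_lit 8748474), (nat_lit 8893907), (nat_lit 9039179), (nat_lit 9184101)]) (FT.cons (FT.leaf [(nat_lit 8572305), (nat_lit 8716551), (nat_lit 8861071), (nat_lit 9005599), (nat_lit 9149917)]) (FT.cons (FT.leaf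 [(nat_lit 8829119), (nat_lit 8972775), (nat_lit 9116383), (nat_lit 9259736)]) (FT.cons (FT.leaf [(nat_lit 9083583), (nat_lit 9226259)]) (FT.cons (FT.leaf [(nat_lit 9335228)]) FT.nil))))))) (FT.cons (FT.cons (FT.leaf [(nat_lit 8213224), (nat_lit
 8355590), (nat_lit 8499130), (nat_lit 8643398), (nat_lit 8788043), (nat_lit 8932778), (nat_lit 9077375), (nat_lit 9221641)]) (FT.cons (FT.leaf [(nat_lit 8469933), (nat_lit 8612812), (nat_lit 8756326), (nat_lit 8900141), (nat_lit 9043985), (nat_lit 9187640), (nat_lit 9330926)]) (FT.cons (FT.leaf [(nat_lit 8725658), (nat_lit 8868391), (nat_lit 9011355), (nat_lit 9154292), (nat_lit 9296996)]) (FT.cons (FT.leaf [(nat_lit 8979587), (nat_lit 9121682), (nat_lit 9263701), (nat_lit 9405445)]) (FT.cons (FT.leaf [(nat_lit 9231123), (nat_lit 9372213)]) (FT.cons (FT.leaf [(nat_lit 9479830)]) FT.nil)))))) (FT.cons (FT.cons (FT.leaf [(nat_lit 8624042), (nat_lit 8765482), (nat_lit 8907500), (nat_lit 9049775), (nat_lit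 9192047), (nat_lit 9334104)]) (FT.cons (FT.leaf [(nat_lit 8876978), (nat_lit 9018206), (nat_lit 9159626), (nat_lit 9300992), (nat_lit 9442102)]) (FT.cons (FT.leaf [(nat_lit 9128050), (nat_lit 9268600), (nat_lit 9409049), (nat_lit 9549206)]) (FT.cons (FT.leaf [(nat_lit 9376697), (nat_lit 9516221)]) (FT.cons (FT.leaf [(nat_lit 9622510)]) FT.nil))))) (FT.cons (FT.cons (FT.leaf [(nat_lit 9026301), (nat_lit 9166034), (nat_lit 9305926)]) (FT.cons (FT.leaf [(nat_lit 9274545), (nat_lit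
 9413567)]) (FT.cons (FT.leaf [(nat_lit 9520343)]) FT.nil))) (FT.cons (FT.cons (FT.leaf [(nat_lit 9419111)]) (FT.cons (FT.leaf [(nat_lit 9662100)]) FT.nil)) (FT.cons (FT.cons (FT.leaf [(nat_lit 9802012)]) FT.nil) FT.nil)))))) (FT.cons (FT.cons (FT.cons (FT.leaf [(nat_lit 8470596), (nat_lit 8610021), (nat_lit 8750564), (nat_lit 8891797), (nat_lit 9033382), (nat_lit 9175049), (nat_lit 9316574), (nat_lit 9457779)]) (FT.cons (FT.leaf [(nat_lit 8721794), (nat_lit 8861684), (nat_lit 9002177), (nat_lit 9142953), (nat_lit 9283753), (nat_lit 9424367), (nat_lit 9564622)]) (FT.cons (FT.leaf [(nat_lit 8971992), (nat_lit 9111722), (nat_lit 9251670), (nat_lit 9391590), (nat_lit 9531282)]) (FT.cons (FT.leaf [(nat_lit 9220426), (nat_lit 9359530), (nat_lit 9498560), (nat_lit 9637325)]) (FT.cons (FT.leaf [(nat_lit 9466535), (nat_lit 9604666)]) (FT.cons (FT.leaf [(nat_lit 9709910)]) FT.nil)))))) (FT.cons (FT.cons (FT.leaf [(nat_lit 8872229), (nat_lit 9010722),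 (nat_lit 9149768), (nat_lit 9289056), (nat_lit 9428338), (nat_lit 9567412)]) (FT.cons (FT.leaf [(nat_lit 9119729), (nat_lit 9258003), (nat_lit 9396461), (nat_lit 9534866), (nat_lit 9673024)]) (FT.cons (FT.leaf [(nat_lit 9365406), (nat_lit
 9503020), (nat_lit 9640538), (nat_lit 9777775)]) (FT.cons (FT.leaf [(nat_lit 9608733), (nat_lit 9745357)]) (FT.cons (FT.leaf [(nat_lit 9849326)]) FT.nil))))) (FT.cons (FT.cons (FT.leaf [(nat_lit 9265547), (nat_lit 9402379), (nat_lit 9539363)]) (FT.cons (FT.leaf [(nat_lit 9508499), (nat_lit 9644641)]) (FT.cons (FT.leaf [(nat_lit 9749084)]) FT.nil))) (FT.cons (FT.cons (FT.leaf [(nat_lit 9649744)]) (FT.cons (FT.leaf [(nat_lit 9887627)]) FT.nil)) (FT.cons (FT.cons (FT.leaf [(nat_lit 10024400)]) FT.nil) FT.nil))))) (FT.cons (FT.cons (FT.cons (FT.leaf [(nat_lit 9114143), (nat_lit 9249803), (nat_lit 9385993), (nat_lit 9522415), (nat_lit 9658830)]) (FT.cons (FT.leaf [(nat_lit 9356424), (nat_lit 9491863), (nat_lit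 9627479), (nat_lit 9763044)]) (FT.cons (FT.leaf [(nat_lit 9596928), (nat_lit 9731727)]) (FT.cons (FT.leaf [(nat_lit 9835158)]) FT.nil)))) (FT.cons (FT.cons (FT.leaf [(nat_lit 9498895), (nat_lit 9632940), (nat_lit 9767135)]) (FT.cons (FT.leaf [(nat_lit 9736772), (nat_lit 9870151)]) (FT.cons (FT.leaf [(nat_lit 9972362)]) FT.nil))) (FT.cons (FT.cons (FT.leaf [(nat_lit 9874843)]) (FT.cons (FT.leaf [(nat_lit 10107832)]) FT.nil)) FT.nil))) (FT.cons (FT.cons (FT.cons (FT.leaf [(nat_lit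
 9726622)]) FT.nil) (FT.cons (FT.cons (FT.leaf [(nat_lit 10094666)]) FT.nil) FT.nil)) (FT.cons (FT.cons (FT.cons (FT.leaf [(nat_lit 10309455)]) FT.nil) FT.nil) (FT.cons (FT.cons (FT.cons (FT.leaf [(nat_lit 10864419)]) FT.nil) FT.nil) (FT.cons (FT.cons (FT.cons (FT.leaf [(nat_lit 11393393)]) FT.nil) FT.nil) FT.nil)))))))) (FT.cons (FT.cons (FT.cons (FT.cons (FT.leaf [(nat_lit 8506151), (nat_lit 8638210), (nat_lit 8772227), (nat_lit 8907630), (nat_lit 9043972), (nat_lit 9180899), (nat_lit 9318124), (nat_lit 9455414), (nat_lit 9592574), (nat_lit 9729443)]) (FT.cons (FT.leaf [(nat_lit 8746642), (nat_lit 8880317), (nat_lit 9015254), (nat_lit 9151031), (nat_lit 9287310), (nat_lit 9423820), (nat_lit 9560340), (nat_lit 9696682), (nat_lit 9832698)]) (FT.cons (FT.leaf [(nat_lit 8987763), (nat_lit 9122193), (nat_lit 9257371), (nat_lit 9392976), (nat_lit 9528751), (nat_lit 9664483), (nat_lit 9799999)]) (FT.cons (FT.leaf [(nat_lit 9228432), (nat_lit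 9362981), (nat_lit 9497890), (nat_lit 9632911), (nat_lit 9767844)]) (FT.cons (FT.leaf [(nat_lit 9467856), (nat_lit 9602047), (nat_lit 9736300), (nat_lit 9870422)]) (FT.cons (FT.leaf [(nat_lit 9705444), (nat_lit 9838915)]) (FT.cons (FT.leaf [(nat_lit
 9940757)]) FT.nil))))))) (FT.cons (FT.cons (FT.leaf [(nat_lit 8893725), (nat_lit 9026296), (nat_lit 9160051), (nat_lit 9294581), (nat_lit 9429561), (nat_lit 9564731), (nat_lit 9699877), (nat_lit 9834824)]) (FT.cons (FT.leaf [(nat_lit 9132612), (nat_lit 9265837), (nat_lit 9399751), (nat_lit 9534046), (nat_lit 9668474), (nat_lit 9802832), (nat_lit 9936952)]) (FT.cons (FT.leaf [(nat_lit 9370920), (nat_lit 9504192), (nat_lit 9637782), (nat_lit 9771453), (nat_lit 9905010)]) (FT.cons (FT.leaf [(nat_lit 9607899), (nat_lit 9740766), (nat_lit 9873666), (nat_lit 10006415)]) (FT.cons (FT.leaf [(nat_lit 9842995), (nat_lit 9975113)]) (FT.cons (FT.leaf [(nat_lit 10075796)]) FT.nil)))))) (FT.cons (FT.cons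 (FT.leaf [(nat_lit 9275728), (nat_lit 9407741), (nat_lit 9540393), (nat_lit 9673384), (nat_lit 9806475)]) (FT.cons (FT.leaf [(nat_lit 9511678), (nat_lit 9643677), (nat_lit 9775957), (nat_lit 9908288)]) (FT.cons (FT.leaf [(nat_lit 9746230), (nat_lit 9877783)]) (FT.cons (FT.leaf [(nat_lit 9978860)]) (FT.cons (FT.leaf [(nat_lit 10209181)]) FT.nil))))) (FT.cons (FT.cons (FT.leaf [(nat_lit 9650734), (nat_lit 9781464), (nat_lit 9912443)]) (FT.cons (FT.leaf [(nat_lit 9882877), (nat_lit 10013127)])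
 (FT.cons (FT.leaf [(nat_lit 10113070)]) FT.nil))) (FT.cons (FT.cons (FT.leaf [(nat_lit 10017870)]) (FT.cons (FT.leaf [(nat_lit 10245654)]) FT.nil)) (FT.cons (FT.cons (FT.leaf [(nat_lit 10376644)]) FT.nil) FT.nil)))))) (FT.cons (FT.cons (FT.cons (FT.leaf [(nat_lit 9131682), (nat_lit 9261768), (nat_lit 9392983), (nat_lit 9524935), (nat_lit 9657312), (nat_lit 9789864)]) (FT.cons (FT.leaf [(nat_lit 9365905), (nat_lit 9496592), (nat_lit 9627937), (nat_lit 9759642), (nat_lit 9891468)]) (FT.cons (FT.leaf [(nat_lit 9599515), (nat_lit 9730229), (nat_lit 9861243), (nat_lit 9992331)]) (FT.cons (FT.leaf [(nat_lit 9831806), (nat_lit 9962115)]) (FT.cons (FT.leaf [(nat_lit 10062255)]) (FT.cons (FT.leaf [(nat_lit 10290472)]) FT.nil)))))) (FT.cons (FT.cons (FT.leaf [(nat_lit 9505900), (nat_lit 9635407), (nat_lit 9765523), (nat_lit 9895962), (nat_lit 10026493)]) (FT.cons (FT.leaf [(nat_lit 9737219), (nat_lit 9866696), (nat_lit 9996440), (nat_lit 10126231)])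 (FT.cons (FT.leaf [(nat_lit 9967158), (nat_lit 10096194)]) (FT.cons (FT.leaf [(nat_lit 10195222)]) (FT.cons (FT.leaf [(nat_lit 10421045)]) FT.nil))))) (FT.cons (FT.cons (FT.leaf [(nat_lit 9873282), (nat_lit 10001528), (nat_lit 10130011)])
 (FT.cons (FT.leaf [(nat_lit 10100889), (nat_lit 10228663)]) (FT.cons (FT.leaf [(nat_lit 10326597)]) FT.nil))) (FT.cons (FT.cons (FT.leaf [(nat_lit 10233027)]) (FT.cons (FT.leaf [(nat_lit 10456409)]) FT.nil)) (FT.cons (FT.cons (FT.leaf [(nat_lit 10584685)]) FT.nil) FT.nil))))) (FT.cons (FT.cons (FT.cons (FT.leaf [(nat_lit 9730740), (nat_lit 9857827), (nat_lit 9985498), (nat_lit 10113476)]) (FT.cons (FT.leaf [(nat_lit 9957595), (nat_lit 10084640), (nat_lit 10211941)]) (FT.cons (FT.leaf [(nat_lit 10183092)]) FT.nil))) (FT.cons (FT.cons (FT.leaf [(nat_lit 10090785), (nat_lit 10216637)]) (FT.cons (FT.leaf [(nat_lit 10314025)]) FT.nil)) (FT.cons (FT.cons (FT.leaf [(nat_lit 10443424)]) FT.nil) FT.nil))) (FT.cons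 (FT.cons (FT.cons (FT.leaf [(nat_lit 10303461)]) FT.nil) (FT.cons (FT.cons (FT.leaf [(nat_lit 10649264)]) FT.nil) FT.nil)) (FT.cons (FT.cons (FT.cons (FT.leaf [(nat_lit 10850737)]) FT.nil) FT.nil) (FT.cons (FT.cons (FT.cons (FT.leaf [(nat_lit 11373830)]) FT.nil) FT.nil) FT.nil)))))) (FT.cons (FT.cons (FT.cons (FT.cons (FT.leaf [(nat_lit 9741885), (nat_lit 9864030), (nat_lit 9987300), (nat_lit 10111330), (nat_lit 10235831), (nat_lit 10360571)]) (FT.cons (FT.leaf [(nat_lit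
 9961672), (nat_lit 10084507), (nat_lit 10208029), (nat_lit 10331962), (nat_lit 10456085)]) (FT.cons (FT.leaf [(nat_lit 10181124), (nat_lit 10304116), (nat_lit 10427464), (nat_lit 10550956)]) (FT.cons (FT.leaf [(nat_lit 10399585), (nat_lit 10522333)]) FT.nil)))) (FT.cons (FT.cons (FT.leaf [(nat_lit 10092782), (nat_lit 10214603), (nat_lit 10337066), (nat_lit 10459905), (nat_lit 10582905)]) (FT.cons (FT.leaf [(nat_lit 10310258), (nat_lit 10432182), (nat_lit 10554430), (nat_lit 10676796)]) (FT.cons (FT.leaf [(nat_lit 10526681), (nat_lit 10648325)]) FT.nil))) (FT.cons (FT.cons (FT.leaf [(nat_lit 10437964), (nat_lit 10558824)]) (FT.cons (FT.leaf [(nat_lit 10652365)]) FT.nil)) (FT.cons (FT.cons (FT.leaf [(nat_lit 10776657)]) FT.nil) FT.nil)))) (FT.cons (FT.cons (FT.cons (FT.leaf [(nat_lit 10303082), (nat_lit 10422803), (nat_lit 10543141), (nat_lit 10663838)]) (FT.cons (FT.leaf [(nat_lit 10516681), (nat_lit 10636488), (nat_lit 10756606)]) (FT.cons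 (FT.leaf [(nat_lit 10729235)]) FT.nil))) (FT.cons (FT.cons (FT.leaf [(nat_lit 10641888), (nat_lit 10760659)]) (FT.cons (FT.leaf [(nat_lit 10852477)]) FT.nil)) (FT.cons (FT.cons (FT.leaf [(nat_lit 10974375)]) FT.nil) FT.nil))) (FT.cons (FT.cons
 (FT.cons (FT.leaf [(nat_lit 10841609)]) FT.nil) (FT.cons (FT.cons (FT.leaf [(nat_lit 11168106)]) FT.nil) FT.nil)) (FT.cons (FT.cons (FT.cons (FT.leaf [(nat_lit 11358005)]) FT.nil) FT.nil) FT.nil)))) (FT.cons (FT.cons (FT.cons (FT.cons (FT.leaf [(nat_lit 10837639), (nat_lit 10950946), (nat_lit 11064889)]) (FT.cons (FT.leaf [(nat_lit 11039692), (nat_lit 11153179)]) (FT.cons (FT.leaf [(nat_lit 11240942)]) FT.nil))) (FT.cons (FT.cons (FT.leaf [(nat_lit 11157944)]) (FT.cons (FT.leaf [(nat_lit 11357462)]) FT.nil)) (FT.cons (FT.cons (FT.leaf [(nat_lit 11472792)]) FT.nil) FT.nil))) (FT.cons (FT.cons (FT.cons (FT.leaf [(nat_lit 11346373)]) FT.nil) (FT.cons (FT.cons (FT.leaf [(nat_lit 11655917)]) FT.nil) FT.nil))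 FT.nil)) (FT.cons (FT.cons (FT.cons (FT.cons (FT.leaf [(nat_lit 11821995)]) FT.nil) FT.nil) FT.nil) (FT.cons (FT.cons (FT.cons (FT.cons (FT.leaf [(nat_lit 12715635)]) FT.nil) FT.nil) FT.nil) FT.nil))))))))

def f168_1_600 : FT := (FT.cons (FT.cons (FT.cons (FT.cons (FT.leaf [(nat_lit 4049495), (nat_lit 4202317), (nat_lit 4366321), (nat_lit 4538621), (nat_lit 4717131), (nat_lit 4900265), (nat_lit 5086778), (nat_lit 5275671), (nat_lit 5466134), (nat_lit 5657503), (nat_lit 5849230), (nat_lit 6040861), (nat_lit 6232021), (nat_lit 6422399), (nat_lit 6611732)]) (FT.cons (FT.leaf [(nat_lit 4351339), (nat_lit 4517481), (nat_lit 4691151), (nat_lit 4870405), (nat_lit 5053770), (nat_lit 5240091), (nat_lit 5428447), (nat_lit 5618088), (nat_lit 5808401), (nat_lit 5998882), (nat_lit 6189113), (nat_lit 6378750), (nat_lit 6567505), (nat_lit 6755145)]) (FT.cons (FT.leaf [(nat_lit 4668820), (nat_lit 4843476), (nat_lit 5023166), (nat_lit 5206514), (nat_lit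 5392446), (nat_lit 5580104), (nat_lit 5768796), (nat_lit 5957955), (nat_lit 6147114), (nat_lit 6335889), (nat_lit 6523960), (nat_lit 6711069)]) (FT.cons (FT.leaf [(nat_lit 4995397), (nat_lit 5175258), (nat_lit 5358375), (nat_lit 5543745), (nat_lit 5730570), (nat_lit 5918206), (nat_lit 6106127), (nat_lit 6293902), (nat_lit 6481172), (nat_lit 6667649)]) (FT.cons (FT.leaf [(nat_lit 5326547), (nat_lit 5509249), (nat_lit 5693911), (nat_lit 5879787), (nat_lit 6066275), (nat_lit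
 6252888), (nat_lit 6439224), (nat_lit 6624956), (nat_lit 6809813)]) (FT.cons (FT.leaf [(nat_lit 5659051), (nat_lit 5842878), (nat_lit 6027705), (nat_lit 6212970), (nat_lit 6398216), (nat_lit 6583073), (nat_lit 6767236)]) (FT.cons (FT.leaf [(nat_lit 5990595), (nat_lit 6174288), (nat_lit 6358263), (nat_lit 6542096), (nat_lit 6725441)]) (FT.cons (FT.leaf [(nat_lit 6319505), (nat_lit 6502139), (nat_lit 6684519), (nat_lit 6866323)]) (FT.cons (FT.leaf [(nat_lit 6644582), (nat_lit 6825478)]) (FT.cons (FT.leaf [(nat_lit 6964973)]) FT.nil)))))))))) (FT.cons (FT.cons (FT.leaf [(nat_lit 4567122), (nat_lit 4733283), (nat_lit 4906419), (nat_lit 5084669), (nat_lit 5266636), (nat_lit 5451234), (nat_lit 5637598), (nat_lit 5825031), (nat_lit 6012964), (nat_lit 6200929), (nat_lit 6388540), (nat_lit 6575483), (nat_lit 6761491)]) (FT.cons (FT.leaf [(nat_lit 4883496), (nat_lit 5057321), (nat_lit 5235766), (nat_lit 5417524), (nat_lit 5601581), (nat_lit 5787133),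 (nat_lit 5973532), (nat_lit 6160249), (nat_lit 6346850), (nat_lit 6532983), (nat_lit 6718353), (nat_lit 6902717)]) (FT.cons (FT.leaf [(nat_lit 5207660), (nat_lit 5386072), (nat_lit 5567439), (nat_lit 5750810), (nat_lit 5935434), (nat_lit
 6120707), (nat_lit 6306138), (nat_lit 6491327), (nat_lit 6675944), (nat_lit 6859716)]) (FT.cons (FT.leaf [(nat_lit 5535479), (nat_lit 5716296), (nat_lit 5898856), (nat_lit 6082454), (nat_lit 6266525), (nat_lit 6450615), (nat_lit 6634348), (nat_lit 6817418), (nat_lit 6999575)]) (FT.cons (FT.leaf [(nat_lit 5864026), (nat_lit 6045666), (nat_lit 6228154), (nat_lit 6410962), (nat_lit 6593661), (nat_lit 6775904), (nat_lit 6957406)]) (FT.cons (FT.leaf [(nat_lit 6191201), (nat_lit 6372509), (nat_lit 6553997), (nat_lit 6735267), (nat_lit 6915993)]) (FT.cons (FT.leaf [(nat_lit 6515493), (nat_lit 6695619), (nat_lit 6875428), (nat_lit 7054617)]) (FT.cons (FT.leaf [(nat_lit 6835818), (nat_lit 7014143)]) (FT.cons (FT.leaf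 [(nat_lit 7151412)]) FT.nil))))))))) (FT.cons (FT.cons (FT.leaf [(nat_lit 5095474), (nat_lit 5268236), (nat_lit 5445256), (nat_lit 5625289), (nat_lit 5807374), (nat_lit 5990753), (nat_lit 6174817), (nat_lit 6359077), (nat_lit 6543128), (nat_lit 6726638)]) (FT.cons (FT.leaf [(nat_lit 5416879), (nat_lit 5593699), (nat_lit 5773207), (nat_lit 5954505), (nat_lit 6136880), (nat_lit 6319769), (nat_lit 6502709), (nat_lit 6685327), (nat_lit 6867315)]) (FT.cons (FT.leaf [(nat_lit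
 5741165), (nat_lit 5920015), (nat_lit 6100417), (nat_lit 6281708), (nat_lit 6463355), (nat_lit 6644929), (nat_lit 6826080)]) (FT.cons (FT.leaf [(nat_lit 6065655), (nat_lit 6245072), (nat_lit 6425205), (nat_lit 6605558), (nat_lit 6785726)]) (FT.cons (FT.leaf [(nat_lit 6388434), (nat_lit 6567352), (nat_lit 6746365), (nat_lit 6925097)]) (FT.cons (FT.leaf [(nat_lit 6708130), (nat_lit 6885768)]) (FT.cons (FT.leaf [(nat_lit 7023764)]) (FT.cons (FT.leaf [(nat_lit 7334646)]) FT.nil)))))))) (FT.cons (FT.cons (FT.leaf [(nat_lit 5622998), (nat_lit 5798110), (nat_lit 5975680), (nat_lit 6154852), (nat_lit 6334952), (nat_lit 6515447), (nat_lit 6695905), (nat_lit 6875973)]) (FT.cons (FT.leaf [(nat_lit 5943600), (nat_lit 6120422), (nat_lit 6298633), (nat_lit 6477601), (nat_lit 6656826), (nat_lit 6835902), (nat_lit 7014500)]) (FT.cons (FT.leaf [(nat_lit 6263967), (nat_lit 6441140), (nat_lit 6618917), (nat_lit 6796826), (nat_lit 6974488)]) (FT.cons (FT.leaf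 [(nat_lit 6582346), (nat_lit 6758882), (nat_lit 6935440), (nat_lit 7111665)]) (FT.cons (FT.leaf [(nat_lit 6897487), (nat_lit 7072665)]) (FT.cons (FT.leaf [(nat_lit 7208499)]) FT.nil)))))) (FT.cons (FT.cons (FT.leaf [(nat_lit 6142796), (nat_lit
 6317549), (nat_lit 6493548), (nat_lit 6670191), (nat_lit 6847005), (nat_lit 7023607)]) (FT.cons (FT.leaf [(nat_lit 6459004), (nat_lit 6633924), (nat_lit 6809351), (nat_lit 6984838), (nat_lit 7160025)]) (FT.cons (FT.leaf [(nat_lit 6773000), (nat_lit 6947169), (nat_lit 7121299), (nat_lit 7295051)]) (FT.cons (FT.leaf [(nat_lit 7083637), (nat_lit 7256386)]) (FT.cons (FT.leaf [(nat_lit 7390103)]) FT.nil))))) (FT.cons (FT.cons (FT.leaf [(nat_lit 6650817), (nat_lit 6823486), (nat_lit 6996579), (nat_lit 7169669), (nat_lit 7342415)]) (FT.cons (FT.leaf [(nat_lit 6960460), (nat_lit 7132284), (nat_lit 7304017), (nat_lit 7475337)]) (FT.cons (FT.leaf [(nat_lit 7266655), (nat_lit 7437012)]) FT.nil))) (FT.cons (FT.cons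 (FT.leaf [(nat_lit 7144795)]) (FT.cons (FT.leaf [(nat_lit 7446616)]) FT.nil)) (FT.cons (FT.cons (FT.leaf [(nat_lit 7623598)]) FT.nil) (FT.cons (FT.cons (FT.leaf [(nat_lit 8086812)]) FT.nil) FT.nil))))))))) (FT.cons (FT.cons (FT.cons (FT.leaf [(nat_lit 4935097), (nat_lit 5097977), (nat_lit 5267352), (nat_lit 5441444), (nat_lit 5618932), (nat_lit 5798797), (nat_lit 5980235), (nat_lit 6162600), (nat_lit 6345366), (nat_lit 6528104), (nat_lit 6710462)]) (FT.cons (FT.leaf [(nat_lit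
 5244415), (nat_lit 5414270), (nat_lit 5588399), (nat_lit 5765565), (nat_lit 5944814), (nat_lit 6125398), (nat_lit 6306713), (nat_lit 6488271), (nat_lit 6669674), (nat_lit 6850594)]) (FT.cons (FT.leaf [(nat_lit 5560537), (nat_lit 5734510), (nat_lit 5911198), (nat_lit 6089709), (nat_lit 6269341), (nat_lit 6449532), (nat_lit 6629826), (nat_lit 6809852), (nat_lit 6989305)]) (FT.cons (FT.leaf [(nat_lit 5879686), (nat_lit 6055764), (nat_lit 6233432), (nat_lit 6412030), (nat_lit 6591034), (nat_lit 6770016), (nat_lit 6948631)]) (FT.cons (FT.leaf [(nat_lit 6199207), (nat_lit 6375940), (nat_lit 6553436), (nat_lit 6731198), (nat_lit 6908830)]) (FT.cons (FT.leaf [(nat_lit 6517203), (nat_lit 6693536), (nat_lit 6870014), (nat_lit 7046264)]) (FT.cons (FT.leaf [(nat_lit 6832315), (nat_lit 7007472)]) (FT.cons (FT.leaf [(nat_lit 7143568)]) (FT.cons (FT.leaf [(nat_lit 7450274)]) FT.nil))))))))) (FT.cons (FT.cons (FT.leaf [(nat_lit 5450160), (nat_lit 5618833),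 (nat_lit 5791466), (nat_lit 5966876), (nat_lit 6144159), (nat_lit 6322606), (nat_lit 6501650), (nat_lit 6680833), (nat_lit 6859781), (nat_lit 7038188)]) (FT.cons (FT.leaf [(nat_lit 5763385), (nat_lit 5935724), (nat_lit 6110550), (nat_lit
 6287015), (nat_lit 6464452), (nat_lit 6642332), (nat_lit 6820226), (nat_lit 6997786), (nat_lit 7174727)]) (FT.cons (FT.leaf [(nat_lit 6078990), (nat_lit 6253118), (nat_lit 6428674), (nat_lit 6605032), (nat_lit 6781696), (nat_lit 6958262), (nat_lit 7134407)]) (FT.cons (FT.leaf [(nat_lit 6394535), (nat_lit 6569105), (nat_lit 6744325), (nat_lit 6919727), (nat_lit 7094934)]) (FT.cons (FT.leaf [(nat_lit 6708282), (nat_lit 6882313), (nat_lit 7056418), (nat_lit 7230241)]) (FT.cons (FT.leaf [(nat_lit 7018987), (nat_lit 7191764)]) (FT.cons (FT.leaf [(nat_lit 7325764)]) (FT.cons (FT.leaf [(nat_lit 7627988)]) FT.nil)))))))) (FT.cons (FT.cons (FT.leaf [(nat_lit 5963201), (nat_lit 6133822), (nat_lit 6306730), (nat_lit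 6481113), (nat_lit 6656342), (nat_lit 6831913), (nat_lit 7007423), (nat_lit 7182543)]) (FT.cons (FT.leaf [(nat_lit 6275158), (nat_lit 6447295), (nat_lit 6620719), (nat_lit 6794833), (nat_lit 6969167), (nat_lit 7143340), (nat_lit 7317047)]) (FT.cons (FT.leaf [(nat_lit 6586691), (nat_lit 6759088), (nat_lit 6932038), (nat_lit 7105098), (nat_lit 7277909)]) (FT.cons (FT.leaf [(nat_lit 6896201), (nat_lit 7067946), (nat_lit 7239700), (nat_lit 7411130)]) (FT.cons (FT.leaf [(nat_lit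
 7202548), (nat_lit 7372974)]) (FT.cons (FT.leaf [(nat_lit 7504921)]) FT.nil)))))) (FT.cons (FT.cons (FT.leaf [(nat_lit 6468215), (nat_lit 6638335), (nat_lit 6809617), (nat_lit 6981494), (nat_lit 7153515), (nat_lit 7325324)]) (FT.cons (FT.leaf [(nat_lit 6775722), (nat_lit 6945947), (nat_lit 7116642), (nat_lit 7287382), (nat_lit 7457831)]) (FT.cons (FT.leaf [(nat_lit 7081024), (nat_lit 7250501), (nat_lit 7419936), (nat_lit 7589009)]) (FT.cons (FT.leaf [(nat_lit 7383069), (nat_lit 7551179)]) (FT.cons (FT.leaf [(nat_lit 7681115)]) FT.nil))))) (FT.cons (FT.cons (FT.leaf [(nat_lit 6961683), (nat_lit 7129744), (nat_lit 7298202), (nat_lit 7466652), (nat_lit 7634774)]) (FT.cons (FT.leaf [(nat_lit 7262816), (nat_lit 7430051), (nat_lit 7597199), (nat_lit 7763955)]) (FT.cons (FT.leaf [(nat_lit 7560625), (nat_lit 7726454)]) FT.nil))) (FT.cons (FT.cons (FT.leaf [(nat_lit 7441645)]) (FT.cons (FT.leaf [(nat_lit 7735286)]) FT.nil)) (FT.cons (FT.cons (FT.leaf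 [(nat_lit 7907126)]) FT.nil) (FT.cons (FT.cons (FT.leaf [(nat_lit 8357782)]) FT.nil) FT.nil)))))))) (FT.cons (FT.cons (FT.cons (FT.leaf [(nat_lit 5792877), (nat_lit 5957530), (nat_lit 6125889), (nat_lit 6296829), (nat_lit 6469495), (nat_lit
 6643220), (nat_lit 6817473), (nat_lit 6991825), (nat_lit 7165929), (nat_lit 7339499)]) (FT.cons (FT.leaf [(nat_lit 6098126), (nat_lit 6266125), (nat_lit 6436443), (nat_lit 6608276), (nat_lit 6780997), (nat_lit 6954108), (nat_lit 7127208), (nat_lit 7299971), (nat_lit 7472131)]) (FT.cons (FT.leaf [(nat_lit 6405370), (nat_lit 6574967), (nat_lit 6745890), (nat_lit 6917548), (nat_lit 7089472), (nat_lit 7261288), (nat_lit 7432687)]) (FT.cons (FT.leaf [(nat_lit 6712364), (nat_lit 6882311), (nat_lit 7052855), (nat_lit 7223557), (nat_lit 7394061)]) (FT.cons (FT.leaf [(nat_lit 7017519), (nat_lit 7186908), (nat_lit 7356356), (nat_lit 7525528)]) (FT.cons (FT.leaf [(nat_lit 7319699), (nat_lit 7487868)]) (FT.cons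 (FT.leaf [(nat_lit 7618094)]) FT.nil))))))) (FT.cons (FT.cons (FT.leaf [(nat_lit 6291927), (nat_lit 6458219), (nat_lit 6626653), (nat_lit 6796461), (nat_lit 6967047), (nat_lit 7137936), (nat_lit 7308750), (nat_lit 7479182)]) (FT.cons (FT.leaf [(nat_lit 6595590), (nat_lit 6763245), (nat_lit 6932103), (nat_lit 7101599), (nat_lit 7271288), (nat_lit 7440813), (nat_lit 7609885)]) (FT.cons (FT.leaf [(nat_lit 6898699), (nat_lit 7066549), (nat_lit 7234912), (nat_lit 7403370), (nat_lit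
 7571585)]) (FT.cons (FT.leaf [(nat_lit 7199784), (nat_lit 7366980), (nat_lit 7534181), (nat_lit 7701070)]) (FT.cons (FT.leaf [(nat_lit 7497798), (nat_lit 7663722)]) (FT.cons (FT.leaf [(nat_lit 7791996)]) FT.nil)))))) (FT.cons (FT.cons (FT.leaf [(nat_lit 6782831), (nat_lit 6948529), (nat_lit 7115320), (nat_lit 7282665), (nat_lit 7450140), (nat_lit 7617405)]) (FT.cons (FT.leaf [(nat_lit 7082056), (nat_lit 7247816), (nat_lit 7414016), (nat_lit 7580257), (nat_lit 7746216)]) (FT.cons (FT.leaf [(nat_lit 7379108), (nat_lit 7544134), (nat_lit 7709119), (nat_lit 7873761)]) (FT.cons (FT.leaf [(nat_lit 7673016), (nat_lit 7836730)]) (FT.cons (FT.leaf [(nat_lit 7963094)]) FT.nil))))) (FT.cons (FT.cons (FT.leaf [(nat_lit 7262492), (nat_lit 7426174), (nat_lit 7590234), (nat_lit 7754287), (nat_lit 7918028)]) (FT.cons (FT.leaf [(nat_lit 7555554), (nat_lit 7718438), (nat_lit 7881241), (nat_lit 8043674)]) (FT.cons (FT.leaf [(nat_lit 7845422), (nat_lit 8006962)])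 FT.nil))) (FT.cons (FT.cons (FT.leaf [(nat_lit 7729190)]) (FT.cons (FT.leaf [(nat_lit 8015085)]) FT.nil)) (FT.cons (FT.cons (FT.leaf [(nat_lit 8182075)]) FT.nil) FT.nil)))))) (FT.cons (FT.cons (FT.cons (FT.leaf [(nat_lit 6609832), (nat_lit
 6771963), (nat_lit 6936115), (nat_lit 7101556), (nat_lit 7267720), (nat_lit 7434160), (nat_lit 7600516), (nat_lit 7766500)]) (FT.cons (FT.leaf [(nat_lit 6905555), (nat_lit 7068929), (nat_lit 7233435), (nat_lit 7398539), (nat_lit 7563817), (nat_lit 7728932), (nat_lit 7893612)]) (FT.cons (FT.leaf [(nat_lit 7200640), (nat_lit 7364162), (nat_lit 7528167), (nat_lit 7692258), (nat_lit 7856114)]) (FT.cons (FT.leaf [(nat_lit 7493724), (nat_lit 7656601), (nat_lit 7819483), (nat_lit 7982067)]) (FT.cons (FT.leaf [(nat_lit 7783839), (nat_lit 7945494)]) (FT.cons (FT.leaf [(nat_lit 8070296)]) FT.nil)))))) (FT.cons (FT.cons (FT.leaf [(nat_lit 7087289), (nat_lit 7248770), (nat_lit 7411286), (nat_lit 7574325), (nat_lit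 7737484), (nat_lit 7900439)]) (FT.cons (FT.leaf [(nat_lit 7378636), (nat_lit 7540149), (nat_lit 7702083), (nat_lit 7864054), (nat_lit 8025757)]) (FT.cons (FT.leaf [(nat_lit 7667857), (nat_lit 7828659), (nat_lit 7989424), (nat_lit 8149865)]) (FT.cons (FT.leaf [(nat_lit 7954052), (nat_lit 8113599)]) (FT.cons (FT.leaf [(nat_lit 8236585)]) FT.nil))))) (FT.cons (FT.cons (FT.leaf [(nat_lit 7553852), (nat_lit 7713374), (nat_lit 7873258)]) (FT.cons (FT.leaf [(nat_lit 7839258), (nat_lit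
 7998011)]) (FT.cons (FT.leaf [(nat_lit 8121599)]) FT.nil))) (FT.cons (FT.cons (FT.leaf [(nat_lit 8007991)]) (FT.cons (FT.leaf [(nat_lit 8286545)]) FT.nil)) (FT.cons (FT.cons (FT.leaf [(nat_lit 8448955)]) FT.nil) FT.nil))))) (FT.cons (FT.cons (FT.cons (FT.leaf [(nat_lit 7382193), (nat_lit 7539651), (nat_lit 7698099), (nat_lit 7857045), (nat_lit 8016103)]) (FT.cons (FT.leaf [(nat_lit 7666042), (nat_lit 7823519), (nat_lit 7981397), (nat_lit 8139314)]) (FT.cons (FT.leaf [(nat_lit 7947828), (nat_lit 8104618)]) (FT.cons (FT.leaf [(nat_lit 8226709)]) FT.nil)))) (FT.cons (FT.cons (FT.leaf [(nat_lit 7836324), (nat_lit 7991890), (nat_lit 8147809)]) (FT.cons (FT.leaf [(nat_lit 8114462), (nat_lit 8269294)]) (FT.cons (FT.leaf [(nat_lit 8389665)]) FT.nil))) (FT.cons (FT.cons (FT.leaf [(nat_lit 8278561)]) (FT.cons (FT.leaf [(nat_lit 8550151)]) FT.nil)) FT.nil))) (FT.cons (FT.cons (FT.cons (FT.leaf [(nat_lit 8110433)]) FT.nil) (FT.cons (FT.cons (FT.leaf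 [(nat_lit 8541373)]) FT.nil) FT.nil)) (FT.cons (FT.cons (FT.cons (FT.leaf [(nat_lit 8796863)]) FT.nil) FT.nil) (FT.cons (FT.cons (FT.cons (FT.leaf [(nat_lit 9444523)]) FT.nil) FT.nil) (FT.cons (FT.cons (FT.cons (FT.leaf [(nat_lit 10056576)])
 FT.nil) FT.nil) (FT.cons (FT.cons (FT.cons (FT.leaf [(nat_lit 10636081)]) FT.nil) FT.nil) FT.nil)))))))))) (FT.cons (FT.cons (FT.cons (FT.cons (FT.leaf [(nat_lit 5924628), (nat_lit 6071908), (nat_lit 6225097), (nat_lit 6382628), (nat_lit 6543342), (nat_lit 6706348), (nat_lit 6870943), (nat_lit 7036563), (nat_lit 7202747), (nat_lit 7369119), (nat_lit 7535364)]) (FT.cons (FT.leaf [(nat_lit 6203843), (nat_lit 6357555), (nat_lit 6515234), (nat_lit 6675791), (nat_lit 6838391), (nat_lit 7002377), (nat_lit 7167219), (nat_lit 7332489), (nat_lit 7497834), (nat_lit 7662962)]) (FT.cons (FT.leaf [(nat_lit 6489540), (nat_lit 6647204), (nat_lit 6807475), (nat_lit 6969565), (nat_lit 7132858), (nat_lit 7296858), (nat_lit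 7461163), (nat_lit 7625442), (nat_lit 7789422)]) (FT.cons (FT.leaf [(nat_lit 6778465), (nat_lit 6938336), (nat_lit 7099827), (nat_lit 7262356), (nat_lit 7425457), (nat_lit 7588752), (nat_lit 7751932)]) (FT.cons (FT.leaf [(nat_lit 7068328), (nat_lit 7229140), (nat_lit 7390843), (nat_lit 7552997), (nat_lit 7715246)]) (FT.cons (FT.leaf [(nat_lit 7357475), (nat_lit 7518298), (nat_lit 7679463), (nat_lit 7840635)]) (FT.cons (FT.leaf [(nat_lit 7644704), (nat_lit 7804846)]) (FT.cons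
 (FT.leaf [(nat_lit 7929136)]) (FT.cons (FT.leaf [(nat_lit 8210133)]) FT.nil))))))))) (FT.cons (FT.cons (FT.leaf [(nat_lit 6388642), (nat_lit 6541488), (nat_lit 6698039), (nat_lit 6857251), (nat_lit 7018329), (nat_lit 7180646), (nat_lit 7343703), (nat_lit 7507094), (nat_lit 7670486), (nat_lit 7833605)]) (FT.cons (FT.leaf [(nat_lit 6672133), (nat_lit 6828555), (nat_lit 6987390), (nat_lit 7147889), (nat_lit 7309461), (nat_lit 7471637), (nat_lit 7634036), (nat_lit 7796347), (nat_lit 7958311)]) (FT.cons (FT.leaf [(nat_lit 6958313), (nat_lit 7116673), (nat_lit 7276513), (nat_lit 7437278), (nat_lit 7598525), (nat_lit 7759896), (nat_lit 7921097)]) (FT.cons (FT.leaf [(nat_lit 7245058), (nat_lit 7404171), (nat_lit 7564075), (nat_lit 7724352), (nat_lit 7884663)]) (FT.cons (FT.leaf [(nat_lit 7530840), (nat_lit 7689838), (nat_lit 7849108), (nat_lit 8008333)]) (FT.cons (FT.leaf [(nat_lit 7814550), (nat_lit 7972785)]) (FT.cons (FT.leaf [(nat_lit 8095380)])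 (FT.cons (FT.leaf [(nat_lit 8372740)]) FT.nil)))))))) (FT.cons (FT.cons (FT.leaf [(nat_lit 6852328), (nat_lit 7007435), (nat_lit 7164784), (nat_lit 7323655), (nat_lit 7483486), (nat_lit 7643832), (nat_lit 7804329), (nat_lit 7964684)]) (FT.cons
 (FT.leaf [(nat_lit 7135668), (nat_lit 7292477), (nat_lit 7450642), (nat_lit 7609632), (nat_lit 7769025), (nat_lit 7928480), (nat_lit 8087719)]) (FT.cons (FT.leaf [(nat_lit 7419253), (nat_lit 7576653), (nat_lit 7734754), (nat_lit 7893159), (nat_lit 8051545)]) (FT.cons (FT.leaf [(nat_lit 7701667), (nat_lit 7858841), (nat_lit 8016227), (nat_lit 8173523)]) (FT.cons (FT.leaf [(nat_lit 7981881), (nat_lit 8138225)]) (FT.cons (FT.leaf [(nat_lit 8259149)]) FT.nil)))))) (FT.cons (FT.cons (FT.leaf [(nat_lit 7310544), (nat_lit 7465772), (nat_lit 7622246), (nat_lit 7779456), (nat_lit 7937001), (nat_lit 8094554)]) (FT.cons (FT.leaf [(nat_lit 7590944), (nat_lit 7746620), (nat_lit 7902921), (nat_lit 8059465), (nat_lit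 8215944)]) (FT.cons (FT.leaf [(nat_lit 7869996), (nat_lit 8025353), (nat_lit 8180871), (nat_lit 8336258)]) (FT.cons (FT.leaf [(nat_lit 8146744), (nat_lit 8301215)]) (FT.cons (FT.leaf [(nat_lit 8420498)]) FT.nil))))) (FT.cons (FT.cons (FT.leaf [(nat_lit 7760162), (nat_lit 7914114), (nat_lit 8068622), (nat_lit 8223319), (nat_lit 8377912)]) (FT.cons (FT.leaf [(nat_lit 8035869), (nat_lit 8189421), (nat_lit 8343088), (nat_lit 8496591)]) (FT.cons (FT.leaf [(nat_lit 8309189), (nat_lit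
 8461808)]) FT.nil))) (FT.cons (FT.cons (FT.leaf [(nat_lit 8199332)]) (FT.cons (FT.leaf [(nat_lit 8469265)]) FT.nil)) (FT.cons (FT.cons (FT.leaf [(nat_lit 8627024)]) FT.nil) FT.nil))))))) (FT.cons (FT.cons (FT.cons (FT.leaf [(nat_lit 6695483), (nat_lit 6845171), (nat_lit 6998352), (nat_lit 7154027), (nat_lit 7311437), (nat_lit 7469991), (nat_lit 7629214), (nat_lit 7788725), (nat_lit 7948213), (nat_lit 8107419)]) (FT.cons (FT.leaf [(nat_lit 6972684), (nat_lit 7125675), (nat_lit 7280934), (nat_lit 7437743), (nat_lit 7595545), (nat_lit 7753895), (nat_lit 7912433), (nat_lit 8070865), (nat_lit 8228950)]) (FT.cons (FT.leaf [(nat_lit 7252233), (nat_lit 7406988), (nat_lit 7563128), (nat_lit 7720125), (nat_lit 7877559), (nat_lit 8035092), (nat_lit 8192446)]) (FT.cons (FT.leaf [(nat_lit 7532157), (nat_lit 7687567), (nat_lit 7843713), (nat_lit 8000196), (nat_lit 8156696)]) (FT.cons (FT.leaf [(nat_lit 7811042), (nat_lit 7966296), (nat_lit 8121797),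 (nat_lit 8277243)]) (FT.cons (FT.leaf [(nat_lit 8087864), (nat_lit 8242358)]) (FT.cons (FT.leaf [(nat_lit 8361875)]) FT.nil))))))) (FT.cons (FT.cons (FT.leaf [(nat_lit 7148104), (nat_lit 7299776), (nat_lit 7453561), (nat_lit 7608774), (nat_lit
 7764879), (nat_lit 7921453), (nat_lit 8078152), (nat_lit 8234700)]) (FT.cons (FT.leaf [(nat_lit 7424842), (nat_lit 7578071), (nat_lit 7732575), (nat_lit 7887847), (nat_lit 8043487), (nat_lit 8199172), (nat_lit 8354639)]) (FT.cons (FT.leaf [(nat_lit 7701681), (nat_lit 7855423), (nat_lit 8009822), (nat_lit 8164498), (nat_lit 8319145)]) (FT.cons (FT.leaf [(nat_lit 7977304), (nat_lit 8130795), (nat_lit 8284481), (nat_lit 8438072)]) (FT.cons (FT.leaf [(nat_lit 8250758), (nat_lit 8403432)]) (FT.cons (FT.leaf [(nat_lit 8521350)]) FT.nil)))))) (FT.cons (FT.cons (FT.leaf [(nat_lit 7595059), (nat_lit 7746741), (nat_lit 7899599), (nat_lit 8053147), (nat_lit 8207003), (nat_lit 8360856)]) (FT.cons (FT.leaf [(nat_lit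 7868800), (nat_lit 8020871), (nat_lit 8173529), (nat_lit 8326411), (nat_lit 8479225)]) (FT.cons (FT.leaf [(nat_lit 8141175), (nat_lit 8292913), (nat_lit 8444801), (nat_lit 8596559)]) (FT.cons (FT.leaf [(nat_lit 8411295), (nat_lit 8562169)]) (FT.cons (FT.leaf [(nat_lit 8678517)]) FT.nil))))) (FT.cons (FT.cons (FT.leaf [(nat_lit 8033550), (nat_lit 8183951), (nat_lit 8334879), (nat_lit 8485984), (nat_lit 8636985)]) (FT.cons (FT.leaf [(nat_lit 8302698), (nat_lit 8452698), (nat_lit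
 8602806), (nat_lit 8752755)]) (FT.cons (FT.leaf [(nat_lit 8569524), (nat_lit 8718619)]) FT.nil))) (FT.cons (FT.cons (FT.leaf [(nat_lit 8461919)]) (FT.cons (FT.leaf [(nat_lit 8725492)]) FT.nil)) (FT.cons (FT.cons (FT.leaf [(nat_lit 8879249)]) FT.nil) FT.nil)))))) (FT.cons (FT.cons (FT.cons (FT.leaf [(nat_lit 7435274), (nat_lit 7583619), (nat_lit 7733968), (nat_lit 7885662), (nat_lit 8038191), (nat_lit 8191152), (nat_lit 8344220), (nat_lit 8497131)]) (FT.cons (FT.leaf [(nat_lit 7705646), (nat_lit 7855428), (nat_lit 8006416), (nat_lit 8158125), (nat_lit 8310174), (nat_lit 8462256), (nat_lit 8614121)]) (FT.cons (FT.leaf [(nat_lit 7976009), (nat_lit 8126244), (nat_lit 8277098), (nat_lit 8428209), (nat_lit 8579285)]) (FT.cons (FT.leaf [(nat_lit 8245134), (nat_lit 8395102), (nat_lit 8545251), (nat_lit 8695306)]) (FT.cons (FT.leaf [(nat_lit 8512131), (nat_lit 8661301)]) (FT.cons (FT.leaf [(nat_lit 8776357)]) FT.nil)))))) (FT.cons (FT.cons (FT.leaf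 [(nat_lit 7871418), (nat_lit 8019692), (nat_lit 8169082), (nat_lit 8319123), (nat_lit 8469450), (nat_lit 8619769)]) (FT.cons (FT.leaf [(nat_lit 8138776), (nat_lit 8287392), (nat_lit 8436565), (nat_lit 8585948), (nat_lit 8735260)]) (FT.cons
 (FT.leaf [(nat_lit 8404766), (nat_lit 8553045), (nat_lit 8701463), (nat_lit 8849757)]) (FT.cons (FT.leaf [(nat_lit 8668558), (nat_lit 8815997)]) (FT.cons (FT.leaf [(nat_lit 8929550)]) FT.nil))))) (FT.cons (FT.cons (FT.leaf [(nat_lit 8299272), (nat_lit 8446275), (nat_lit 8593780)]) (FT.cons (FT.leaf [(nat_lit 8562153), (nat_lit 8708758)]) (FT.cons (FT.leaf [(nat_lit 8822780)]) FT.nil))) (FT.cons (FT.cons (FT.leaf [(nat_lit 8717339)]) (FT.cons (FT.leaf [(nat_lit 8974844)]) FT.nil)) (FT.cons (FT.cons (FT.leaf [(nat_lit 9124796)]) FT.nil) FT.nil))))) (FT.cons (FT.cons (FT.cons (FT.leaf [(nat_lit 8140048), (nat_lit 8285044), (nat_lit 8431109), (nat_lit 8577793), (nat_lit 8724745)]) (FT.cons (FT.leaf [(nat_lit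 8401284), (nat_lit 8546592), (nat_lit 8692430), (nat_lit 8838467)]) (FT.cons (FT.leaf [(nat_lit 8661169), (nat_lit 8806139)]) (FT.cons (FT.leaf [(nat_lit 8918917)]) FT.nil)))) (FT.cons (FT.cons (FT.leaf [(nat_lit 8557730), (nat_lit 8701480), (nat_lit 8845710)]) (FT.cons (FT.leaf [(nat_lit 8814621), (nat_lit 8957980)]) (FT.cons (FT.leaf [(nat_lit 9069328)]) FT.nil))) (FT.cons (FT.cons (FT.leaf [(nat_lit 8965968)]) (FT.cons (FT.leaf [(nat_lit 9217677)]) FT.nil)) FT.nil))) (FT.cons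
 (FT.cons (FT.cons (FT.leaf [(nat_lit 8809300)]) FT.nil) (FT.cons (FT.cons (FT.leaf [(nat_lit 9208153)]) FT.nil) FT.nil)) (FT.cons (FT.cons (FT.cons (FT.leaf [(nat_lit 9444217)]) FT.nil) FT.nil) (FT.cons (FT.cons (FT.cons (FT.leaf [(nat_lit 10046718)]) FT.nil) FT.nil) (FT.cons (FT.cons (FT.cons (FT.leaf [(nat_lit 10619006)]) FT.nil) FT.nil) (FT.cons (FT.cons (FT.cons (FT.leaf [(nat_lit 11163320)]) FT.nil) FT.nil) FT.nil))))))))) (FT.cons (FT.cons (FT.cons (FT.cons (FT.leaf [(nat_lit 7501647), (nat_lit 7639424), (nat_lit 7780489), (nat_lit 7923940), (nat_lit 8069094), (nat_lit 8215419), (nat_lit 8362487), (nat_lit 8509954), (nat_lit 8657538), (nat_lit 8805005)]) (FT.cons (FT.leaf [(nat_lit 7756510), (nat_lit 7897489), (nat_lit 8040655), (nat_lit 8185362), (nat_lit 8331104), (nat_lit 8477482), (nat_lit 8624169), (nat_lit 8770899), (nat_lit 8917450)]) (FT.cons (FT.leaf [(nat_lit 8013876), (nat_lit 8156681), (nat_lit 8300878), (nat_lit 8445992),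 (nat_lit 8591640), (nat_lit 8737517), (nat_lit 8883369)]) (FT.cons (FT.leaf [(nat_lit 8271987), (nat_lit 8415622), (nat_lit 8560063), (nat_lit 8704950), (nat_lit 8849990)]) (FT.cons (FT.leaf [(nat_lit 8529575), (nat_lit 8673306), (nat_lit
 8817402), (nat_lit 8961584)]) (FT.cons (FT.leaf [(nat_lit 8785710), (nat_lit 8928990)]) (FT.cons (FT.leaf [(nat_lit 9039709)]) FT.nil))))))) (FT.cons (FT.cons (FT.leaf [(nat_lit 7917265), (nat_lit 8057187), (nat_lit 8199163), (nat_lit 8342569), (nat_lit 8486922), (nat_lit 8631838), (nat_lit 8777005), (nat_lit 8922169)]) (FT.cons (FT.leaf [(nat_lit 8172350), (nat_lit 8313915), (nat_lit 8456776), (nat_lit 8600472), (nat_lit 8744639), (nat_lit 8888984), (nat_lit 9033265)]) (FT.cons (FT.leaf [(nat_lit 8427934), (nat_lit 8570201), (nat_lit 8713203), (nat_lit 8856594), (nat_lit 9000094)]) (FT.cons (FT.leaf [(nat_lit 8682830), (nat_lit 8825105), (nat_lit 8967693), (nat_lit 9110330)]) (FT.cons (FT.leaf [(nat_lit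 8936169), (nat_lit 9077933)]) (FT.cons (FT.leaf [(nat_lit 9187311)]) FT.nil)))))) (FT.cons (FT.cons (FT.leaf [(nat_lit 8328845), (nat_lit 8469149), (nat_lit 8610660), (nat_lit 8752935), (nat_lit 8895623), (nat_lit 9038445)]) (FT.cons (FT.leaf [(nat_lit 8581883), (nat_lit 8722775), (nat_lit 8864337), (nat_lit 9006238), (nat_lit 9148209)]) (FT.cons (FT.leaf [(nat_lit 8834090), (nat_lit 8974912), (nat_lit 9116003), (nat_lit 9257107)]) (FT.cons (FT.leaf [(nat_lit 9084652), (nat_lit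
 9224913)]) (FT.cons (FT.leaf [(nat_lit 9332969)]) FT.nil))))) (FT.cons (FT.cons (FT.leaf [(nat_lit 8733858), (nat_lit 8873371), (nat_lit 9013498)]) (FT.cons (FT.leaf [(nat_lit 8983386), (nat_lit 9122761)]) (FT.cons (FT.leaf [(nat_lit 9231194)]) FT.nil))) (FT.cons (FT.cons (FT.leaf [(nat_lit 9130749)]) (FT.cons (FT.leaf [(nat_lit 9375830)]) FT.nil)) (FT.cons (FT.cons (FT.leaf [(nat_lit 9518598)]) FT.nil) FT.nil)))))) (FT.cons (FT.cons (FT.cons (FT.leaf [(nat_lit 8179870), (nat_lit 8317053), (nat_lit 8456188), (nat_lit 8596678), (nat_lit 8738060), (nat_lit 8879965), (nat_lit 9022097), (nat_lit 9164214)]) (FT.cons (FT.leaf [(nat_lit 8429698), (nat_lit 8568410), (nat_lit 8708351), (nat_lit 8849080), (nat_lit 8990248), (nat_lit 9131575), (nat_lit 9272832)]) (FT.cons (FT.leaf [(nat_lit 8679910), (nat_lit 8819258), (nat_lit 8959302), (nat_lit 9099708), (nat_lit 9240212)]) (FT.cons (FT.leaf [(nat_lit 8929389), (nat_lit 9068717), (nat_lit 9208340),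 (nat_lit 9348003)]) (FT.cons (FT.leaf [(nat_lit 9177320), (nat_lit 9316140)]) (FT.cons (FT.leaf [(nat_lit 9423105)]) FT.nil)))))) (FT.cons (FT.cons (FT.leaf [(nat_lit 8582506), (nat_lit 8719980), (nat_lit 8858602), (nat_lit 8997948), (nat_lit
 9137682), (nat_lit 9277535)]) (FT.cons (FT.leaf [(nat_lit 8830233), (nat_lit 8968241), (nat_lit 9106887), (nat_lit 9245850), (nat_lit 9384875)]) (FT.cons (FT.leaf [(nat_lit 9077102), (nat_lit 9215022), (nat_lit 9353195), (nat_lit 9491377)]) (FT.cons (FT.leaf [(nat_lit 9322348), (nat_lit 9459715)]) (FT.cons (FT.leaf [(nat_lit 9565408)]) FT.nil))))) (FT.cons (FT.cons (FT.leaf [(nat_lit 8978654), (nat_lit 9115322), (nat_lit 9252575)]) (FT.cons (FT.leaf [(nat_lit 9222927), (nat_lit 9359446)]) (FT.cons (FT.leaf [(nat_lit 9465513)]) FT.nil))) (FT.cons (FT.cons (FT.leaf [(nat_lit 9366895)]) (FT.cons (FT.leaf [(nat_lit 9606848)]) FT.nil)) (FT.cons (FT.cons (FT.leaf [(nat_lit 9746391)]) FT.nil) FT.nil)))))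 (FT.cons (FT.cons (FT.cons (FT.leaf [(nat_lit 8829744), (nat_lit 8964485), (nat_lit 9100322), (nat_lit 9236848), (nat_lit 9373740)]) (FT.cons (FT.leaf [(nat_lit 9072353), (nat_lit 9207584), (nat_lit 9343423), (nat_lit 9479563)]) (FT.cons (FT.leaf [(nat_lit 9314090), (nat_lit 9449220)]) (FT.cons (FT.leaf [(nat_lit 9554232)]) FT.nil)))) (FT.cons (FT.cons (FT.leaf [(nat_lit 9217372), (nat_lit 9351301), (nat_lit 9485791)]) (FT.cons (FT.leaf [(nat_lit 9456594), (nat_lit 9590368)]) (FT.cons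
 (FT.leaf [(nat_lit 9694167)]) FT.nil))) (FT.cons (FT.cons (FT.leaf [(nat_lit 9597315)]) (FT.cons (FT.leaf [(nat_lit 9832346)]) FT.nil)) FT.nil))) (FT.cons (FT.cons (FT.cons (FT.leaf [(nat_lit 9450294)]) FT.nil) (FT.cons (FT.cons (FT.leaf [(nat_lit 9822273)]) FT.nil) FT.nil)) (FT.cons (FT.cons (FT.cons (FT.leaf [(nat_lit 10042018)]) FT.nil) FT.nil) (FT.cons (FT.cons (FT.cons (FT.leaf [(nat_lit 10606149)]) FT.nil) FT.nil) (FT.cons (FT.cons (FT.cons (FT.leaf [(nat_lit 11144247)]) FT.nil) FT.nil) (FT.cons (FT.cons (FT.cons (FT.leaf [(nat_lit 11657984)]) FT.nil) FT.nil) FT.nil)))))))) (FT.cons (FT.cons (FT.cons (FT.cons (FT.leaf [(nat_lit 8859467), (nat_lit 8987373), (nat_lit 9117168), (nat_lit 9248304), (nat_lit 9380354), (nat_lit 9512981)]) (FT.cons (FT.leaf [(nat_lit 9092216), (nat_lit 9221688), (nat_lit 9352385), (nat_lit 9483905), (nat_lit 9615925)]) (FT.cons (FT.leaf [(nat_lit 9325600), (nat_lit 9455822), (nat_lit 9586779), (nat_lit 9718168)])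 (FT.cons (FT.leaf [(nat_lit 9558601), (nat_lit 9688970)]) (FT.cons (FT.leaf [(nat_lit 9790468)]) (FT.cons (FT.leaf [(nat_lit 10020645)]) FT.nil)))))) (FT.cons (FT.cons (FT.leaf [(nat_lit 9234234), (nat_lit 9362667), (nat_lit 9492253),
 (nat_lit 9622601), (nat_lit 9753402)]) (FT.cons (FT.leaf [(nat_lit 9465519), (nat_lit 9594608), (nat_lit 9724379), (nat_lit 9854538)]) (FT.cons (FT.leaf [(nat_lit 9696303), (nat_lit 9825473)]) (FT.cons (FT.leaf [(nat_lit 9925877)]) (FT.cons (FT.leaf [(nat_lit 10153718)]) FT.nil))))) (FT.cons (FT.cons (FT.leaf [(nat_lit 9603815), (nat_lit 9731766), (nat_lit 9860353)]) (FT.cons (FT.leaf [(nat_lit 9832386), (nat_lit 9960362)]) (FT.cons (FT.leaf [(nat_lit 10059684)]) FT.nil))) (FT.cons (FT.cons (FT.leaf [(nat_lit 9966875)]) (FT.cons (FT.leaf [(nat_lit 10191915)]) FT.nil)) FT.nil)))) (FT.cons (FT.cons (FT.cons (FT.leaf [(nat_lit 9463653), (nat_lit 9589758), (nat_lit 9716966), (nat_lit 9844901), (nat_lit 9973266)])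 (FT.cons (FT.leaf [(nat_lit 9690573), (nat_lit 9817286), (nat_lit 9944653), (nat_lit 10072387)]) (FT.cons (FT.leaf [(nat_lit 9916962), (nat_lit 10043737)]) (FT.cons (FT.leaf [(nat_lit 10142150)]) FT.nil)))) (FT.cons (FT.cons (FT.leaf [(nat_lit 9825957), (nat_lit 9951562), (nat_lit 10077774)]) (FT.cons (FT.leaf [(nat_lit 10050195), (nat_lit 10175809)]) (FT.cons (FT.leaf [(nat_lit 10273176)]) FT.nil))) (FT.cons (FT.cons (FT.leaf [(nat_lit 10181890)]) (FT.cons (FT.leaf [(nat_lit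
 10402682)]) FT.nil)) FT.nil))) (FT.cons (FT.cons (FT.cons (FT.leaf [(nat_lit 10043137)]) FT.nil) (FT.cons (FT.cons (FT.leaf [(nat_lit 10392201)]) FT.nil) FT.nil)) (FT.cons (FT.cons (FT.cons (FT.leaf [(nat_lit 10598006)]) FT.nil) FT.nil) (FT.cons (FT.cons (FT.cons (FT.leaf [(nat_lit 11129039)]) FT.nil) FT.nil) (FT.cons (FT.cons (FT.cons (FT.leaf [(nat_lit 11637356)]) FT.nil) FT.nil) FT.nil)))))) (FT.cons (FT.cons (FT.cons (FT.cons (FT.leaf [(nat_lit 10050914), (nat_lit 10169621), (nat_lit 10289425)]) (FT.cons (FT.leaf [(nat_lit 10264392), (nat_lit 10383785)]) (FT.cons (FT.leaf [(nat_lit 10477588)]) FT.nil))) (FT.cons (FT.cons (FT.leaf [(nat_lit 10391516)]) (FT.cons (FT.leaf [(nat_lit 10602846)]) FT.nil)) (FT.cons (FT.cons (FT.leaf [(nat_lit 10726758)]) FT.nil) FT.nil))) (FT.cons (FT.cons (FT.cons (FT.leaf [(nat_lit 10595193)]) FT.nil) (FT.cons (FT.cons (FT.leaf [(nat_lit 10924432)]) FT.nil) FT.nil)) (FT.cons (FT.cons (FT.cons (FT.leaf [(nat_lit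 11118161)]) FT.nil) FT.nil) (FT.cons (FT.cons (FT.cons (FT.leaf [(nat_lit 11620287)]) FT.nil) FT.nil) FT.nil)))) (FT.cons (FT.cons (FT.cons (FT.cons (FT.leaf [(nat_lit 11112193)]) FT.nil) FT.nil) (FT.cons (FT.cons (FT.cons (FT.leaf [(nat_lit
 11607214)]) FT.nil) FT.nil) FT.nil)) (FT.cons (FT.cons (FT.cons (FT.cons (FT.leaf [(nat_lit 12068978)]) FT.nil) FT.nil) FT.nil) (FT.cons (FT.cons (FT.cons (FT.cons (FT.leaf [(nat_lit 12940080)]) FT.nil) FT.nil) FT.nil) FT.nil))))))))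

def f168_1_750 : FT := (FT.cons (FT.cons (FT.cons (FT.cons (FT.leaf [(nat_lit 4554425), (nat_lit 4699456), (nat_lit 4855095), (nat_lit 5018630), (nat_lit 5188108), (nat_lit 5362047), (nat_lit 5539285), (nat_lit 5718892), (nat_lit 5900112), (nat_lit 6082326), (nat_lit 6265021), (nat_lit 6447771), (nat_lit 6630220), (nat_lit 6812076), (nat_lit 6993090)]) (FT.cons (FT.leaf [(nat_lit 4840622), (nat_lit 4998320), (nat_lit 5163205), (nat_lit 5333458), (nat_lit 5507699), (nat_lit 5684851), (nat_lit 5864052), (nat_lit 6044603), (nat_lit 6225931), (nat_lit 6407560), (nat_lit 6589099), (nat_lit 6770221), (nat_lit 6950652), (nat_lit 7130168)]) (FT.cons (FT.leaf [(nat_lit 5141768), (nat_lit 5307654), (nat_lit 5478399), (nat_lit 5652715), (nat_lit 5829598), (nat_lit 6008246), (nat_lit 6188010), (nat_lit 6368357), (nat_lit 6548848), (nat_lit 6729120), (nat_lit 6908872), (nat_lit 7087852)]) (FT.cons (FT.leaf [(nat_lit 5451793), (nat_lit 5622787), (nat_lit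 5796982), (nat_lit 5973438), (nat_lit 6151405), (nat_lit 6330281), (nat_lit 6509568), (nat_lit 6688860), (nat_lit 6867820), (nat_lit 7046168)]) (FT.cons (FT.leaf [(nat_lit 5766502), (nat_lit 5940405), (nat_lit 6116296), (nat_lit 6293474), (nat_lit 6471374), (nat_lit
 6649535), (nat_lit 6827576), (nat_lit 7005185), (nat_lit 7182102)]) (FT.cons (FT.leaf [(nat_lit 6082904), (nat_lit 6258113), (nat_lit 6434407), (nat_lit 6611257), (nat_lit 6788234), (nat_lit 6964982), (nat_lit 7141209)]) (FT.cons (FT.leaf [(nat_lit 6398836), (nat_lit 6574166), (nat_lit 6749904), (nat_lit 6925648), (nat_lit 7101067)]) (FT.cons (FT.leaf [(nat_lit 6712720), (nat_lit 6887294), (nat_lit 7061766), (nat_lit 7235827)]) (FT.cons (FT.leaf [(nat_lit 7023412), (nat_lit 7196579)]) (FT.cons (FT.leaf [(nat_lit 7330084)]) FT.nil)))))))))) (FT.cons (FT.cons (FT.leaf [(nat_lit 5044691), (nat_lit 5202503), (nat_lit 5367000), (nat_lit 5536436), (nat_lit 5709500), (nat_lit 5885176),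 (nat_lit 6062654), (nat_lit 6241281), (nat_lit 6420520), (nat_lit 6599934), (nat_lit 6779156), (nat_lit 6957884), (nat_lit 7135866)]) (FT.cons (FT.leaf [(nat_lit 5344997), (nat_lit 5510224), (nat_lit 5679932), (nat_lit 5852895), (nat_lit 6028163), (nat_lit 6204979), (nat_lit 6382735), (nat_lit 6560935), (nat_lit 6739168), (nat_lit 6917097), (nat_lit 7094440), (nat_lit 7270968)]) (FT.cons (FT.leaf [(nat_lit 5652994), (nat_lit 5822765), (nat_lit 5995458), (nat_lit 6170181), (nat_lit 6346226), (nat_lit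
 6523027), (nat_lit 6700118), (nat_lit 6877120), (nat_lit 7053718), (nat_lit 7229653)]) (FT.cons (FT.leaf [(nat_lit 5964833), (nat_lit 6137109), (nat_lit 6311169), (nat_lit 6486352), (nat_lit 6662123), (nat_lit 6838050), (nat_lit 7013778), (nat_lit 7189014), (nat_lit 7363517)]) (FT.cons (FT.leaf [(nat_lit 6277783), (nat_lit 6451079), (nat_lit 6625317), (nat_lit 6799997), (nat_lit 6974712), (nat_lit 7149132), (nat_lit 7322981)]) (FT.cons (FT.leaf [(nat_lit 6589869), (nat_lit 6763094), (nat_lit 6936629), (nat_lit 7110093), (nat_lit 7283175)]) (FT.cons (FT.leaf [(nat_lit 6899659), (nat_lit 7072004), (nat_lit 7244185), (nat_lit 7415905)]) (FT.cons (FT.leaf [(nat_lit 7206113), (nat_lit 7376982)]) (FT.cons (FT.leaf [(nat_lit 7508485)]) FT.nil))))))))) (FT.cons (FT.cons (FT.leaf [(nat_lit 5545867), (nat_lit 5710224), (nat_lit 5878729), (nat_lit 6050212), (nat_lit 6223769), (nat_lit 6398688), (nat_lit 6574395), (nat_lit 6750425), (nat_lit 6926395),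 (nat_lit 7101990), (nat_lit 7276947)]) (FT.cons (FT.leaf [(nat_lit 5851520), (nat_lit 6019932), (nat_lit 6191020), (nat_lit 6363936), (nat_lit 6538012), (nat_lit 6712710), (nat_lit 6887596), (nat_lit 7062312), (nat_lit 7236564), (nat_lit
 7410111)]) (FT.cons (FT.leaf [(nat_lit 6160297), (nat_lit 6330865), (nat_lit 6503039), (nat_lit 6676191), (nat_lit 6849818), (nat_lit 7023512), (nat_lit 7196939), (nat_lit 7369825), (nat_lit 7541944)]) (FT.cons (FT.leaf [(nat_lit 6469691), (nat_lit 6641035), (nat_lit 6813196), (nat_lit 6985699), (nat_lit 7158162), (nat_lit 7330272), (nat_lit 7501772)]) (FT.cons (FT.leaf [(nat_lit 6777894), (nat_lit 6949004), (nat_lit 7120339), (nat_lit 7291538), (nat_lit 7462307)]) (FT.cons (FT.leaf [(nat_lit 7083598), (nat_lit 7253726), (nat_lit 7423635), (nat_lit 7593046)]) (FT.cons (FT.leaf [(nat_lit 7385856), (nat_lit 7554453)]) (FT.cons (FT.leaf [(nat_lit 7683992)]) FT.nil)))))))) (FT.cons (FT.cons (FT.leaf [(nat_lit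 6047311), (nat_lit 6214257), (nat_lit 6383661), (nat_lit 6554717), (nat_lit 6726789), (nat_lit 6899371), (nat_lit 7072051), (nat_lit 7244493)]) (FT.cons (FT.leaf [(nat_lit 6352881), (nat_lit 6521679), (nat_lit 6691927), (nat_lit 6863029), (nat_lit 7034508), (nat_lit 7205976), (nat_lit 7377122)]) (FT.cons (FT.leaf [(nat_lit 6658648), (nat_lit 6828014), (nat_lit 6998087), (nat_lit 7168417), (nat_lit 7338642)]) (FT.cons (FT.leaf [(nat_lit 6962951), (nat_lit 7131946), (nat_lit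
 7301091), (nat_lit 7470046)]) (FT.cons (FT.leaf [(nat_lit 7264592), (nat_lit 7432522)]) (FT.cons (FT.leaf [(nat_lit 7562705)]) FT.nil)))))) (FT.cons (FT.cons (FT.leaf [(nat_lit 6542588), (nat_lit 6709572), (nat_lit 6877869), (nat_lit 7046911), (nat_lit 7216244), (nat_lit 7385503)]) (FT.cons (FT.leaf [(nat_lit 6844683), (nat_lit 7012056), (nat_lit 7180041), (nat_lit 7348209), (nat_lit 7516218)]) (FT.cons (FT.leaf [(nat_lit 7145088), (nat_lit 7311973), (nat_lit 7478946), (nat_lit 7645683)]) (FT.cons (FT.leaf [(nat_lit 7442700), (nat_lit 7608452)]) (FT.cons (FT.leaf [(nat_lit 7736726)]) FT.nil))))) (FT.cons (FT.cons (FT.leaf [(nat_lit 7027833), (nat_lit 7193208), (nat_lit 7359111), (nat_lit 7525134), (nat_lit 7690951)]) (FT.cons (FT.leaf [(nat_lit 7324355), (nat_lit 7489145), (nat_lit 7653968), (nat_lit 7818515)]) (FT.cons (FT.leaf [(nat_lit 7617982), (nat_lit 7781584)]) FT.nil))) (FT.cons (FT.cons (FT.leaf [(nat_lit 7500809)]) (FT.cons (FT.leaf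 [(nat_lit 7790500)]) FT.nil)) (FT.cons (FT.cons (FT.leaf [(nat_lit 7960319)]) FT.nil) (FT.cons (FT.cons (FT.leaf [(nat_lit 8405843)]) FT.nil) FT.nil))))))))) (FT.cons (FT.cons (FT.cons (FT.leaf [(nat_lit 5392086), (nat_lit 5547055), (nat_lit
 5708273), (nat_lit 5874067), (nat_lit 6043195), (nat_lit 6214698), (nat_lit 6387819), (nat_lit 6561950), (nat_lit 6736595), (nat_lit 6911347), (nat_lit 7085870), (nat_lit 7259885), (nat_lit 7433162)]) (FT.cons (FT.leaf [(nat_lit 5686233), (nat_lit 5847989), (nat_lit 6013908), (nat_lit 6182825), (nat_lit 6353845), (nat_lit 6526258), (nat_lit 6699496), (nat_lit 6873099), (nat_lit 7046686), (nat_lit 7219945), (nat_lit 7392617), (nat_lit 7564488)]) (FT.cons (FT.leaf [(nat_lit 5987168), (nat_lit 6153031), (nat_lit 6321594), (nat_lit 6492013), (nat_lit 6663625), (nat_lit 6835900), (nat_lit 7008404), (nat_lit 7180784), (nat_lit 7352748), (nat_lit 7524056)]) (FT.cons (FT.leaf [(nat_lit 6291353), (nat_lit 6459435),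 (nat_lit 6629155), (nat_lit 6799888), (nat_lit 6971136), (nat_lit 7142494), (nat_lit 7313632), (nat_lit 7484277), (nat_lit 7654203)]) (FT.cons (FT.leaf [(nat_lit 6596296), (nat_lit 6765229), (nat_lit 6935015), (nat_lit 7105184), (nat_lit 7275357), (nat_lit 7445224), (nat_lit 7614530)]) (FT.cons (FT.leaf [(nat_lit 6900203), (nat_lit 7068983), (nat_lit 7238031), (nat_lit 7406985), (nat_lit 7575559)]) (FT.cons (FT.leaf [(nat_lit 7201777), (nat_lit 7369663), (nat_lit 7537374),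
 (nat_lit 7704635)]) (FT.cons (FT.leaf [(nat_lit 7500077), (nat_lit 7666521)]) (FT.cons (FT.leaf [(nat_lit 7794427)]) FT.nil))))))))) (FT.cons (FT.cons (FT.leaf [(nat_lit 5881602), (nat_lit 6042373), (nat_lit 6207015), (nat_lit 6374414), (nat_lit 6543717), (nat_lit 6714252), (nat_lit 6885484), (nat_lit 7056978), (nat_lit 7228377), (nat_lit 7399388), (nat_lit 7569771)]) (FT.cons (FT.leaf [(nat_lit 6180051), (nat_lit 6344508), (nat_lit 6511451), (nat_lit 6680076), (nat_lit 6849754), (nat_lit 7019980), (nat_lit 7190347), (nat_lit 7360524), (nat_lit 7530236), (nat_lit 7699257)]) (FT.cons (FT.leaf [(nat_lit 6481145), (nat_lit 6647522), (nat_lit 6815383), (nat_lit 6984134), (nat_lit 7153303), (nat_lit 7322506), (nat_lit 7491431), (nat_lit 7659823), (nat_lit 7827470)]) (FT.cons (FT.leaf [(nat_lit 6782583), (nat_lit 6949606), (nat_lit 7117372), (nat_lit 7285438), (nat_lit 7453443), (nat_lit 7621094), (nat_lit 7788151)]) (FT.cons (FT.leaf [(nat_lit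 7082716), (nat_lit 7249449), (nat_lit 7416375), (nat_lit 7583155), (nat_lit 7749512)]) (FT.cons (FT.leaf [(nat_lit 7380353), (nat_lit 7546107), (nat_lit 7711640), (nat_lit 7876691)]) (FT.cons (FT.leaf [(nat_lit 7674631), (nat_lit 7838899)])
 (FT.cons (FT.leaf [(nat_lit 7964935)]) FT.nil)))))))) (FT.cons (FT.cons (FT.leaf [(nat_lit 6370249), (nat_lit 6533218), (nat_lit 6698483), (nat_lit 6865276), (nat_lit 7032998), (nat_lit 7201171), (nat_lit 7369410), (nat_lit 7537400)]) (FT.cons (FT.leaf [(nat_lit 6668146), (nat_lit 6832775), (nat_lit 6998751), (nat_lit 7165510), (nat_lit 7332601), (nat_lit 7499662), (nat_lit 7666398)]) (FT.cons (FT.leaf [(nat_lit 6966035), (nat_lit 7131131), (nat_lit 7296877), (nat_lit 7462848), (nat_lit 7628704)]) (FT.cons (FT.leaf [(nat_lit 7262393), (nat_lit 7427084), (nat_lit 7591905), (nat_lit 7756533)]) (FT.cons (FT.leaf [(nat_lit 7556123), (nat_lit 7719767)]) (FT.cons (FT.leaf [(nat_lit 7846434)]) FT.nil))))))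 (FT.cons (FT.cons (FT.leaf [(nat_lit 6852370), (nat_lit 7015220), (nat_lit 7179298), (nat_lit 7344062), (nat_lit 7509086), (nat_lit 7674023)]) (FT.cons (FT.leaf [(nat_lit 7146685), (nat_lit 7309849), (nat_lit 7473580), (nat_lit 7637472), (nat_lit 7801202)]) (FT.cons (FT.leaf [(nat_lit 7439283), (nat_lit 7601943), (nat_lit 7764679), (nat_lit 7927183)]) (FT.cons (FT.leaf [(nat_lit 7729147), (nat_lit 7890704)]) (FT.cons (FT.leaf [(nat_lit 8015549)]) FT.nil))))) (FT.cons (FT.cons (FT.leaf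
 [(nat_lit 7324577), (nat_lit 7485809), (nat_lit 7647536), (nat_lit 7809369), (nat_lit 7971000)]) (FT.cons (FT.leaf [(nat_lit 7613437), (nat_lit 7774084), (nat_lit 7934759), (nat_lit 8095168)]) (FT.cons (FT.leaf [(nat_lit 7899484), (nat_lit 8058982)]) FT.nil))) (FT.cons (FT.cons (FT.leaf [(nat_lit 7784912)]) (FT.cons (FT.leaf [(nat_lit 8067193)]) FT.nil)) (FT.cons (FT.cons (FT.leaf [(nat_lit 8232335)]) FT.nil) (FT.cons (FT.cons (FT.leaf [(nat_lit 8666400)]) FT.nil) FT.nil)))))))) (FT.cons (FT.cons (FT.cons (FT.leaf [(nat_lit 6206742), (nat_lit 6363968), (nat_lit 6524828), (nat_lit 6688258), (nat_lit 6853450), (nat_lit 7019769), (nat_lit 7186711), (nat_lit 7353869), (nat_lit 7520909), (nat_lit 7687558)]) (FT.cons (FT.leaf [(nat_lit 6498133), (nat_lit 6658741), (nat_lit 6821672), (nat_lit 6986164), (nat_lit 7151622), (nat_lit 7317570), (nat_lit 7483626), (nat_lit 7649479), (nat_lit 7814871)]) (FT.cons (FT.leaf [(nat_lit 6791790), (nat_lit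 6954127), (nat_lit 7117846), (nat_lit 7282383), (nat_lit 7447292), (nat_lit 7612215), (nat_lit 7776855)]) (FT.cons (FT.leaf [(nat_lit 7085588), (nat_lit 7248468), (nat_lit 7412035), (nat_lit 7575868), (nat_lit 7739628)]) (FT.cons (FT.leaf [(nat_lit
 7378010), (nat_lit 7540565), (nat_lit 7703290), (nat_lit 7865865)]) (FT.cons (FT.leaf [(nat_lit 7667963), (nat_lit 7829554)]) (FT.cons (FT.leaf [(nat_lit 7954656)]) FT.nil))))))) (FT.cons (FT.cons (FT.leaf [(nat_lit 6682969), (nat_lit 6842087), (nat_lit 7003360), (nat_lit 7166059), (nat_lit 7329616), (nat_lit 7493578), (nat_lit 7657584), (nat_lit 7821337)]) (FT.cons (FT.leaf [(nat_lit 6973468), (nat_lit 7134090), (nat_lit 7295973), (nat_lit 7458581), (nat_lit 7621487), (nat_lit 7784349), (nat_lit 7946890)]) (FT.cons (FT.leaf [(nat_lit 7263810), (nat_lit 7424822), (nat_lit 7586437), (nat_lit 7748256), (nat_lit 7909952)]) (FT.cons (FT.leaf [(nat_lit 7552588), (nat_lit 7713177), (nat_lit 7873879),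 (nat_lit 8034392)]) (FT.cons (FT.leaf [(nat_lit 7838790), (nat_lit 7998357)]) (FT.cons (FT.leaf [(nat_lit 8121687)]) FT.nil)))))) (FT.cons (FT.cons (FT.leaf [(nat_lit 7152475), (nat_lit 7311361), (nat_lit 7471402), (nat_lit 7632084), (nat_lit 7793000), (nat_lit 7953825)]) (FT.cons (FT.leaf [(nat_lit 7439352), (nat_lit 7598495), (nat_lit 7758169), (nat_lit 7917990), (nat_lit 8077649)]) (FT.cons (FT.leaf [(nat_lit 7724508), (nat_lit 7883144), (nat_lit 8041847), (nat_lit 8200325)]) (FT.cons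
 (FT.leaf [(nat_lit 8007004), (nat_lit 8164570)]) (FT.cons (FT.leaf [(nat_lit 8286164)]) FT.nil))))) (FT.cons (FT.cons (FT.leaf [(nat_lit 7612257), (nat_lit 7769537), (nat_lit 7927284)]) (FT.cons (FT.leaf [(nat_lit 7893821), (nat_lit 8050523)]) (FT.cons (FT.leaf [(nat_lit 8172660)]) FT.nil))) (FT.cons (FT.cons (FT.leaf [(nat_lit 8060582)]) (FT.cons (FT.leaf [(nat_lit 8335817)]) FT.nil)) (FT.cons (FT.cons (FT.leaf [(nat_lit 8496532)]) FT.nil) FT.nil)))))) (FT.cons (FT.cons (FT.cons (FT.leaf [(nat_lit 6986011), (nat_lit 7141409), (nat_lit 7298844), (nat_lit 7457618), (nat_lit 7617191), (nat_lit 7777134), (nat_lit 7937104), (nat_lit 8096823)]) (FT.cons (FT.leaf [(nat_lit 7269396), (nat_lit 7426173), (nat_lit 7584138), (nat_lit 7742780), (nat_lit 7901695), (nat_lit 8060559), (nat_lit 8219108)]) (FT.cons (FT.leaf [(nat_lit 7552517), (nat_lit 7709624), (nat_lit 7867299), (nat_lit 8025159), (nat_lit 8182897)]) (FT.cons (FT.leaf [(nat_lit 7834065),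 (nat_lit 7990741), (nat_lit 8147523), (nat_lit 8304119)]) (FT.cons (FT.leaf [(nat_lit 8113102), (nat_lit 8268787)]) (FT.cons (FT.leaf [(nat_lit 8388951)]) FT.nil)))))) (FT.cons (FT.cons (FT.leaf [(nat_lit 7443442), (nat_lit 7598530), (nat_lit
 7754712), (nat_lit 7911497), (nat_lit 8068499), (nat_lit 8225408)]) (FT.cons (FT.leaf [(nat_lit 7723211), (nat_lit 7878514), (nat_lit 8034321), (nat_lit 8190263), (nat_lit 8346048)]) (FT.cons (FT.leaf [(nat_lit 8001275), (nat_lit 8156076), (nat_lit 8310939), (nat_lit 8465588)]) (FT.cons (FT.leaf [(nat_lit 8276759), (nat_lit 8430529)]) (FT.cons (FT.leaf [(nat_lit 8549035)]) FT.nil))))) (FT.cons (FT.cons (FT.leaf [(nat_lit 7891386), (nat_lit 8044895), (nat_lit 8198849)]) (FT.cons (FT.leaf [(nat_lit 8166001), (nat_lit 8318945)]) (FT.cons (FT.leaf [(nat_lit 8437983)]) FT.nil))) (FT.cons (FT.cons (FT.leaf [(nat_lit 8328294)]) (FT.cons (FT.leaf [(nat_lit 8596827)]) FT.nil)) (FT.cons (FT.cons (FT.leaf [(nat_lit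 8753347)]) FT.nil) FT.nil))))) (FT.cons (FT.cons (FT.cons (FT.leaf [(nat_lit 7725779), (nat_lit 7877227), (nat_lit 8029722), (nat_lit 8182788), (nat_lit 8336058)]) (FT.cons (FT.leaf [(nat_lit 7998755), (nat_lit 8150392), (nat_lit 8302509), (nat_lit 8454756)]) (FT.cons (FT.leaf [(nat_lit 8270059), (nat_lit 8421203)]) (FT.cons (FT.leaf [(nat_lit 8538868)]) FT.nil)))) (FT.cons (FT.cons (FT.leaf [(nat_lit 8162441), (nat_lit 8312351), (nat_lit 8462689)]) (FT.cons (FT.leaf [(nat_lit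
 8430434), (nat_lit 8579797)]) (FT.cons (FT.leaf [(nat_lit 8695889)]) FT.nil))) (FT.cons (FT.cons (FT.leaf [(nat_lit 8588489)]) (FT.cons (FT.leaf [(nat_lit 8850643)]) FT.nil)) FT.nil))) (FT.cons (FT.cons (FT.cons (FT.leaf [(nat_lit 8425865)]) FT.nil) (FT.cons (FT.cons (FT.leaf [(nat_lit 8841576)]) FT.nil) FT.nil)) (FT.cons (FT.cons (FT.cons (FT.leaf [(nat_lit 9087931)]) FT.nil) FT.nil) (FT.cons (FT.cons (FT.cons (FT.leaf [(nat_lit 9714389)]) FT.nil) FT.nil) (FT.cons (FT.cons (FT.cons (FT.leaf [(nat_lit 10307893)]) FT.nil) FT.nil) FT.nil))))))))) (FT.cons (FT.cons (FT.cons (FT.cons (FT.leaf [(nat_lit 6325316), (nat_lit 6466473), (nat_lit 6613336), (nat_lit 6764414), (nat_lit 6918606), (nat_lit 7075067), (nat_lit 7233130), (nat_lit 7392259), (nat_lit 7552017), (nat_lit 7712044), (nat_lit 7872042)]) (FT.cons (FT.leaf [(nat_lit 6592791), (nat_lit 6740206), (nat_lit 6891483), (nat_lit 7045587), (nat_lit 7201726), (nat_lit 7359275), (nat_lit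 7517730), (nat_lit 7676685), (nat_lit 7835800), (nat_lit 7994797)]) (FT.cons (FT.leaf [(nat_lit 6866675), (nat_lit 7017999), (nat_lit 7171893), (nat_lit 7327612), (nat_lit 7484567), (nat_lit 7642287), (nat_lit 7800388), (nat_lit 7958553), (nat_lit
 8116522)]) (FT.cons (FT.leaf [(nat_lit 7143893), (nat_lit 7297471), (nat_lit 7452684), (nat_lit 7608977), (nat_lit 7765906), (nat_lit 7923111), (nat_lit 8080293)]) (FT.cons (FT.leaf [(nat_lit 7422274), (nat_lit 7576907), (nat_lit 7732478), (nat_lit 7888569), (nat_lit 8044840)]) (FT.cons (FT.leaf [(nat_lit 7700250), (nat_lit 7855047), (nat_lit 8010260), (nat_lit 8165566)]) (FT.cons (FT.leaf [(nat_lit 7976668), (nat_lit 8130968)]) (FT.cons (FT.leaf [(nat_lit 8250684)]) (FT.cons (FT.leaf [(nat_lit 8521674)]) FT.nil))))))))) (FT.cons (FT.cons (FT.leaf [(nat_lit 6769561), (nat_lit 6916236), (nat_lit 7066530), (nat_lit 7219447), (nat_lit 7374231), (nat_lit 7530286), (nat_lit 7687136), (nat_lit 7844395),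 (nat_lit 8001742), (nat_lit 8158916)]) (FT.cons (FT.leaf [(nat_lit 7041510), (nat_lit 7191741), (nat_lit 7344363), (nat_lit 7498660), (nat_lit 7654070), (nat_lit 7810146), (nat_lit 7966524), (nat_lit 8122904), (nat_lit 8279039)]) (FT.cons (FT.leaf [(nat_lit 7316284), (nat_lit 7468516), (nat_lit 7622250), (nat_lit 7776956), (nat_lit 7932211), (nat_lit 8087670), (nat_lit 8243055)]) (FT.cons (FT.leaf [(nat_lit 7591868), (nat_lit 7744974), (nat_lit 7898923), (nat_lit 8053315), (nat_lit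
 8207825)]) (FT.cons (FT.leaf [(nat_lit 7866806), (nat_lit 8019952), (nat_lit 8173447), (nat_lit 8326982)]) (FT.cons (FT.leaf [(nat_lit 8140031), (nat_lit 8292598)]) (FT.cons (FT.leaf [(nat_lit 8410762)]) (FT.cons (FT.leaf [(nat_lit 8678426)]) FT.nil)))))))) (FT.cons (FT.cons (FT.leaf [(nat_lit 7214182), (nat_lit 7363251), (nat_lit 7514548), (nat_lit 7667386), (nat_lit 7821230), (nat_lit 7975651), (nat_lit 8130305), (nat_lit 8284905)]) (FT.cons (FT.leaf [(nat_lit 7486420), (nat_lit 7637265), (nat_lit 7789493), (nat_lit 7942597), (nat_lit 8096172), (nat_lit 8249892), (nat_lit 8403489)]) (FT.cons (FT.leaf [(nat_lit 7759160), (nat_lit 7910721), (nat_lit 8063039), (nat_lit 8215733), (nat_lit 8368492)]) (FT.cons (FT.leaf [(nat_lit 8031048), (nat_lit 8182541), (nat_lit 8334323), (nat_lit 8486101)]) (FT.cons (FT.leaf [(nat_lit 8301094), (nat_lit 8451939)]) (FT.cons (FT.leaf [(nat_lit 8568574)]) FT.nil)))))) (FT.cons (FT.cons (FT.leaf [(nat_lit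 7654306), (nat_lit 7803733), (nat_lit 7954437), (nat_lit 8105931), (nat_lit 8257828), (nat_lit 8409817)]) (FT.cons (FT.leaf [(nat_lit 7924171), (nat_lit 8074176), (nat_lit 8224861), (nat_lit 8375862), (nat_lit 8526883)]) (FT.cons (FT.leaf [(nat_lit
 8193009), (nat_lit 8342852), (nat_lit 8492932), (nat_lit 8642966)]) (FT.cons (FT.leaf [(nat_lit 8459897), (nat_lit 8609032)]) (FT.cons (FT.leaf [(nat_lit 8724162)]) FT.nil))))) (FT.cons (FT.cons (FT.leaf [(nat_lit 8086929), (nat_lit 8235371), (nat_lit 8384426)]) (FT.cons (FT.leaf [(nat_lit 8352724), (nat_lit 8500925)]) (FT.cons (FT.leaf [(nat_lit 8616481)]) FT.nil))) (FT.cons (FT.cons (FT.leaf [(nat_lit 8510232)]) (FT.cons (FT.leaf [(nat_lit 8770889)]) FT.nil)) (FT.cons (FT.cons (FT.leaf [(nat_lit 8923164)]) FT.nil) FT.nil))))))) (FT.cons (FT.cons (FT.cons (FT.leaf [(nat_lit 7062788), (nat_lit 7206626), (nat_lit 7353883), (nat_lit 7503605), (nat_lit 7655068), (nat_lit 7807708), (nat_lit 7961073),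 (nat_lit 8114797), (nat_lit 8268581), (nat_lit 8422177)]) (FT.cons (FT.leaf [(nat_lit 7329069), (nat_lit 7476204), (nat_lit 7625589), (nat_lit 7776540), (nat_lit 7928524), (nat_lit 8081116), (nat_lit 8233971), (nat_lit 8386806), (nat_lit 8539390)]) (FT.cons (FT.leaf [(nat_lit 7597845), (nat_lit 7746810), (nat_lit 7897183), (nat_lit 8048460), (nat_lit 8200238), (nat_lit 8352191), (nat_lit 8504055)]) (FT.cons (FT.leaf [(nat_lit 7867236), (nat_lit 8016974), (nat_lit 8167496), (nat_lit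
 8318425), (nat_lit 8469450)]) (FT.cons (FT.leaf [(nat_lit 8135891), (nat_lit 8285621), (nat_lit 8435669), (nat_lit 8585743)]) (FT.cons (FT.leaf [(nat_lit 8402822), (nat_lit 8551964)]) (FT.cons (FT.leaf [(nat_lit 8667305)]) FT.nil))))))) (FT.cons (FT.cons (FT.leaf [(nat_lit 7497412), (nat_lit 7643374), (nat_lit 7791440), (nat_lit 7940954), (nat_lit 8091405), (nat_lit 8242385), (nat_lit 8393567), (nat_lit 8544684)]) (FT.cons (FT.leaf [(nat_lit 7763666), (nat_lit 7911260), (nat_lit 8060157), (nat_lit 8209870), (nat_lit 8360017), (nat_lit 8510287), (nat_lit 8660426)]) (FT.cons (FT.leaf [(nat_lit 8030270), (nat_lit 8178497), (nat_lit 8327435), (nat_lit 8476717), (nat_lit 8626051)]) (FT.cons (FT.leaf [(nat_lit 8295960), (nat_lit 8444087), (nat_lit 8592479), (nat_lit 8740857)]) (FT.cons (FT.leaf [(nat_lit 8559818), (nat_lit 8707297)]) (FT.cons (FT.leaf [(nat_lit 8821169)]) FT.nil)))))) (FT.cons (FT.cons (FT.leaf [(nat_lit 7927310), (nat_lit 8073510),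 (nat_lit 8220917), (nat_lit 8369066), (nat_lit 8517586), (nat_lit 8666183)]) (FT.cons (FT.leaf [(nat_lit 8191107), (nat_lit 8337818), (nat_lit 8485172), (nat_lit 8632817), (nat_lit 8780473)]) (FT.cons (FT.leaf [(nat_lit 8453839), (nat_lit
 8600369), (nat_lit 8747116), (nat_lit 8893814)]) (FT.cons (FT.leaf [(nat_lit 8714649), (nat_lit 8860479)]) (FT.cons (FT.leaf [(nat_lit 8972907)]) FT.nil))))) (FT.cons (FT.cons (FT.leaf [(nat_lit 8349777), (nat_lit 8494970), (nat_lit 8640746)]) (FT.cons (FT.leaf [(nat_lit 8609565), (nat_lit 8754506)]) (FT.cons (FT.leaf [(nat_lit 8867356)]) FT.nil))) (FT.cons (FT.cons (FT.leaf [(nat_lit 8763175)]) (FT.cons (FT.leaf [(nat_lit 9017980)]) FT.nil)) (FT.cons (FT.cons (FT.leaf [(nat_lit 9166563)]) FT.nil) FT.nil)))))) (FT.cons (FT.cons (FT.cons (FT.leaf [(nat_lit 7772827), (nat_lit 7915767), (nat_lit 8060706), (nat_lit 8207012), (nat_lit 8354196), (nat_lit 8501870), (nat_lit 8649723), (nat_lit 8797499)]) (FT.cons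 (FT.leaf [(nat_lit 8033288), (nat_lit 8177742), (nat_lit 8323428), (nat_lit 8469883), (nat_lit 8616739), (nat_lit 8763701), (nat_lit 8910527)]) (FT.cons (FT.leaf [(nat_lit 8293982), (nat_lit 8439003), (nat_lit 8584693), (nat_lit 8730704), (nat_lit 8876755)]) (FT.cons (FT.leaf [(nat_lit 8553723), (nat_lit 8698619), (nat_lit 8843761), (nat_lit 8988884)]) (FT.cons (FT.leaf [(nat_lit 8811652), (nat_lit 8955907)]) (FT.cons (FT.leaf [(nat_lit 9067141)]) FT.nil)))))) (FT.cons (FT.cons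
 (FT.leaf [(nat_lit 8192872), (nat_lit 8335960), (nat_lit 8480195), (nat_lit 8625130), (nat_lit 8770412), (nat_lit 8915758)]) (FT.cons (FT.leaf [(nat_lit 8450832), (nat_lit 8594379), (nat_lit 8738535), (nat_lit 8882964), (nat_lit 9027396)]) (FT.cons (FT.leaf [(nat_lit 8707709), (nat_lit 8851059), (nat_lit 8994615), (nat_lit 9138120)]) (FT.cons (FT.leaf [(nat_lit 8962698), (nat_lit 9105364)]) (FT.cons (FT.leaf [(nat_lit 9215210)]) FT.nil))))) (FT.cons (FT.cons (FT.leaf [(nat_lit 8605599), (nat_lit 8747674), (nat_lit 8890303)]) (FT.cons (FT.leaf [(nat_lit 8859630), (nat_lit 9001446)]) (FT.cons (FT.leaf [(nat_lit 9111710)]) FT.nil))) (FT.cons (FT.cons (FT.leaf [(nat_lit 9009522)]) (FT.cons (FT.leaf [(nat_lit 9258727)]) FT.nil)) (FT.cons (FT.cons (FT.leaf [(nat_lit 9403791)]) FT.nil) FT.nil))))) (FT.cons (FT.cons (FT.cons (FT.leaf [(nat_lit 8451354), (nat_lit 8591445), (nat_lit 8732629), (nat_lit 8874477), (nat_lit 9016653)]) (FT.cons (FT.leaf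 [(nat_lit 8703705), (nat_lit 8844212), (nat_lit 8985299), (nat_lit 9126643)]) (FT.cons (FT.leaf [(nat_lit 8954966), (nat_lit 9095268)]) (FT.cons (FT.leaf [(nat_lit 9204380)]) FT.nil)))) (FT.cons (FT.cons (FT.leaf [(nat_lit 8854745), (nat_lit
 8993825), (nat_lit 9133436)]) (FT.cons (FT.leaf [(nat_lit 9103257), (nat_lit 9242076)]) (FT.cons (FT.leaf [(nat_lit 9349868)]) FT.nil))) (FT.cons (FT.cons (FT.leaf [(nat_lit 9249602)]) (FT.cons (FT.leaf [(nat_lit 9493444)]) FT.nil)) FT.nil))) (FT.cons (FT.cons (FT.cons (FT.leaf [(nat_lit 9097541)]) FT.nil) (FT.cons (FT.cons (FT.leaf [(nat_lit 9483718)]) FT.nil) FT.nil)) (FT.cons (FT.cons (FT.cons (FT.leaf [(nat_lit 9712156)]) FT.nil) FT.nil) (FT.cons (FT.cons (FT.cons (FT.leaf [(nat_lit 10296740)]) FT.nil) FT.nil) (FT.cons (FT.cons (FT.cons (FT.leaf [(nat_lit 10853153)]) FT.nil) FT.nil) FT.nil)))))))) (FT.cons (FT.cons (FT.cons (FT.cons (FT.leaf [(nat_lit 7832656), (nat_lit 7965666), (nat_lit 8101900),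 (nat_lit 8240486), (nat_lit 8380767), (nat_lit 8522233), (nat_lit 8664473), (nat_lit 8807159), (nat_lit 8950016), (nat_lit 9092822)]) (FT.cons (FT.leaf [(nat_lit 8078626), (nat_lit 8214820), (nat_lit 8353175), (nat_lit 8493070), (nat_lit 8634022), (nat_lit 8775644), (nat_lit 8917624), (nat_lit 9059705), (nat_lit 9201674)]) (FT.cons (FT.leaf [(nat_lit 8327188), (nat_lit 8465238), (nat_lit 8604689), (nat_lit 8745080), (nat_lit 8886046), (nat_lit 9027292), (nat_lit 9168572)]) (FT.cons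
 (FT.leaf [(nat_lit 8576648), (nat_lit 8715602), (nat_lit 8855391), (nat_lit 8995669), (nat_lit 9136153)]) (FT.cons (FT.leaf [(nat_lit 8825790), (nat_lit 8964941), (nat_lit 9104501), (nat_lit 9244204)]) (FT.cons (FT.leaf [(nat_lit 9073719), (nat_lit 9212538)]) (FT.cons (FT.leaf [(nat_lit 9319772)]) FT.nil))))))) (FT.cons (FT.cons (FT.leaf [(nat_lit 8233621), (nat_lit 8368863), (nat_lit 8506137), (nat_lit 8644847), (nat_lit 8784527), (nat_lit 8924808), (nat_lit 9065390), (nat_lit 9206028)]) (FT.cons (FT.leaf [(nat_lit 8480108), (nat_lit 8617032), (nat_lit 8755260), (nat_lit 8894353), (nat_lit 9033958), (nat_lit 9173792), (nat_lit 9313623)]) (FT.cons (FT.leaf [(nat_lit 8727257), (nat_lit 8864959), (nat_lit 9003427), (nat_lit 9142327), (nat_lit 9281392)]) (FT.cons (FT.leaf [(nat_lit 8973926), (nat_lit 9111738), (nat_lit 9249909), (nat_lit 9388184)]) (FT.cons (FT.leaf [(nat_lit 9219277), (nat_lit 9356697)]) (FT.cons (FT.leaf [(nat_lit 9462688)])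 FT.nil)))))) (FT.cons (FT.cons (FT.leaf [(nat_lit 8631207), (nat_lit 8766980), (nat_lit 8903973), (nat_lit 9041760), (nat_lit 9180004)]) (FT.cons (FT.leaf [(nat_lit 8876022), (nat_lit 9012462), (nat_lit 9149606), (nat_lit 9287133)]) (FT.cons
 (FT.leaf [(nat_lit 9120216), (nat_lit 9256689)]) (FT.cons (FT.leaf [(nat_lit 9363002)]) (FT.cons (FT.leaf [(nat_lit 9603796)]) FT.nil))))) (FT.cons (FT.cons (FT.leaf [(nat_lit 9022963), (nat_lit 9158136), (nat_lit 9293957)]) (FT.cons (FT.leaf [(nat_lit 9264686), (nat_lit 9399824)]) (FT.cons (FT.leaf [(nat_lit 9504925)]) FT.nil))) (FT.cons (FT.cons (FT.leaf [(nat_lit 9407365)]) (FT.cons (FT.leaf [(nat_lit 9645076)]) FT.nil)) (FT.cons (FT.cons (FT.leaf [(nat_lit 9783489)]) FT.nil) FT.nil)))))) (FT.cons (FT.cons (FT.cons (FT.leaf [(nat_lit 8486648), (nat_lit 8619373), (nat_lit 8754034), (nat_lit 8890056), (nat_lit 9026993), (nat_lit 9164490)]) (FT.cons (FT.leaf [(nat_lit 8728299), (nat_lit 8862593), (nat_lit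 8998128), (nat_lit 9134478), (nat_lit 9271307)]) (FT.cons (FT.leaf [(nat_lit 8970491), (nat_lit 9105497), (nat_lit 9241227), (nat_lit 9377363)]) (FT.cons (FT.leaf [(nat_lit 9212150), (nat_lit 9347234)]) (FT.cons (FT.leaf [(nat_lit 9452488)]) (FT.cons (FT.leaf [(nat_lit 9690921)]) FT.nil)))))) (FT.cons (FT.cons (FT.leaf [(nat_lit 8875993), (nat_lit 9009155), (nat_lit 9143478), (nat_lit 9278554), (nat_lit 9414060)]) (FT.cons (FT.leaf [(nat_lit 9115901), (nat_lit 9249674), (nat_lit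
 9384116), (nat_lit 9518918)]) (FT.cons (FT.leaf [(nat_lit 9355152), (nat_lit 9488934)]) (FT.cons (FT.leaf [(nat_lit 9593004)]) (FT.cons (FT.leaf [(nat_lit 9828907)]) FT.nil))))) (FT.cons (FT.cons (FT.leaf [(nat_lit 9259550), (nat_lit 9392086), (nat_lit 9525242)]) (FT.cons (FT.leaf [(nat_lit 9496400), (nat_lit 9628886)]) (FT.cons (FT.leaf [(nat_lit 9731785)]) FT.nil))) (FT.cons (FT.cons (FT.leaf [(nat_lit 9635922)]) (FT.cons (FT.leaf [(nat_lit 9868862)]) FT.nil)) (FT.cons (FT.cons (FT.leaf [(nat_lit 10004267)]) FT.nil) FT.nil))))) (FT.cons (FT.cons (FT.cons (FT.leaf [(nat_lit 9114840), (nat_lit 9245473), (nat_lit 9377217), (nat_lit 9509677)]) (FT.cons (FT.leaf [(nat_lit 9350009), (nat_lit 9481206), (nat_lit 9613042)]) (FT.cons (FT.leaf [(nat_lit 9584496)]) FT.nil))) (FT.cons (FT.cons (FT.leaf [(nat_lit 9490498), (nat_lit 9620492)]) (FT.cons (FT.leaf [(nat_lit 9722654)]) FT.nil)) (FT.cons (FT.cons (FT.leaf [(nat_lit 9859151)]) FT.nil) FT.nil)))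 (FT.cons (FT.cons (FT.cons (FT.leaf [(nat_lit 9716058)]) FT.nil) (FT.cons (FT.cons (FT.leaf [(nat_lit 10077286)]) FT.nil) FT.nil)) (FT.cons (FT.cons (FT.cons (FT.leaf [(nat_lit 10290550)]) FT.nil) FT.nil) (FT.cons (FT.cons (FT.cons (FT.leaf
 [(nat_lit 10839297)]) FT.nil) FT.nil) FT.nil)))))) (FT.cons (FT.cons (FT.cons (FT.cons (FT.leaf [(nat_lit 9141068), (nat_lit 9265217), (nat_lit 9391234), (nat_lit 9518588), (nat_lit 9646869), (nat_lit 9775751)]) (FT.cons (FT.leaf [(nat_lit 9366924), (nat_lit 9492659), (nat_lit 9619621), (nat_lit 9747421), (nat_lit 9875747)]) (FT.cons (FT.leaf [(nat_lit 9593524), (nat_lit 9720057), (nat_lit 9847345), (nat_lit 9975092)]) (FT.cons (FT.leaf [(nat_lit 9819883), (nat_lit 9946632)]) FT.nil)))) (FT.cons (FT.cons (FT.leaf [(nat_lit 9504631), (nat_lit 9629405), (nat_lit 9755338), (nat_lit 9882051), (nat_lit 10009242)]) (FT.cons (FT.leaf [(nat_lit 9729283), (nat_lit 9854766), (nat_lit 9980951), (nat_lit 10107552)])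 (FT.cons (FT.leaf [(nat_lit 9953580), (nat_lit 10079214)]) FT.nil))) (FT.cons (FT.cons (FT.leaf [(nat_lit 9863526), (nat_lit 9987953)]) (FT.cons (FT.leaf [(nat_lit 10085763)]) FT.nil)) (FT.cons (FT.cons (FT.leaf [(nat_lit 10216453)]) FT.nil) FT.nil)))) (FT.cons (FT.cons (FT.cons (FT.leaf [(nat_lit 9726970), (nat_lit 9849574), (nat_lit 9973288), (nat_lit 10097745)]) (FT.cons (FT.leaf [(nat_lit 9947548), (nat_lit 10070812), (nat_lit 10194747)]) (FT.cons (FT.leaf [(nat_lit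
 10167736)]) FT.nil))) (FT.cons (FT.cons (FT.leaf [(nat_lit 10079069), (nat_lit 10201301)]) (FT.cons (FT.leaf [(nat_lit 10297249)]) FT.nil)) (FT.cons (FT.cons (FT.leaf [(nat_lit 10425318)]) FT.nil) FT.nil))) (FT.cons (FT.cons (FT.cons (FT.leaf [(nat_lit 10289966)]) FT.nil) (FT.cons (FT.cons (FT.leaf [(nat_lit 10629771)]) FT.nil) FT.nil)) (FT.cons (FT.cons (FT.cons (FT.leaf [(nat_lit 10829986)]) FT.nil) FT.nil) FT.nil)))) (FT.cons (FT.cons (FT.cons (FT.cons (FT.leaf [(nat_lit 10295806), (nat_lit 10411487), (nat_lit 10528264)]) (FT.cons (FT.leaf [(nat_lit 10503800), (nat_lit 10620202)]) (FT.cons (FT.leaf [(nat_lit 10711616)]) FT.nil))) (FT.cons (FT.cons (FT.leaf [(nat_lit 10627583)]) (FT.cons (FT.leaf [(nat_lit 10833646)]) FT.nil)) (FT.cons (FT.cons (FT.leaf [(nat_lit 10954406)]) FT.nil) FT.nil))) (FT.cons (FT.cons (FT.cons (FT.leaf [(nat_lit 10825823)]) FT.nil) (FT.cons (FT.cons (FT.leaf [(nat_lit 11146984)]) FT.nil) FT.nil)) FT.nil)) (FT.cons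 (FT.cons (FT.cons (FT.cons (FT.leaf [(nat_lit 11328781)]) FT.nil) FT.nil) FT.nil) (FT.cons (FT.cons (FT.cons (FT.cons (FT.leaf [(nat_lit 12263101)]) FT.nil) FT.nil) FT.nil) FT.nil)))))))

def f168_1_770 : FT := (FT.cons (FT.cons (FT.cons (FT.cons (FT.leaf [(nat_lit 4623928), (nat_lit 4767797), (nat_lit 4922200), (nat_lit 5084453), (nat_lit 5252621), (nat_lit 5425234), (nat_lit 5601144), (nat_lit 5779430), (nat_lit 5959341), (nat_lit 6140264), (nat_lit 6321689), (nat_lit 6503195), (nat_lit 6684430), (nat_lit 6865097), (nat_lit 7044955)]) (FT.cons (FT.leaf [(nat_lit 4907815), (nat_lit 5064275), (nat_lit 5227884), (nat_lit 5396837), (nat_lit 5569770), (nat_lit 5745615), (nat_lit 5923519), (nat_lit 6102786), (nat_lit 6282849), (nat_lit 6463237), (nat_lit 6643561), (nat_lit 6823495), (nat_lit 7002770), (nat_lit 7181158)]) (FT.cons (FT.leaf [(nat_lit 5206587), (nat_lit 5371205), (nat_lit 5540666), (nat_lit 5713693), (nat_lit 5889291), (nat_lit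 6066665), (nat_lit 6245171), (nat_lit 6424281), (nat_lit 6603560), (nat_lit 6782646), (nat_lit 6961239), (nat_lit 7139089)]) (FT.cons (FT.leaf [(nat_lit 5514235), (nat_lit 5683962), (nat_lit 5856888), (nat_lit 6032081), (nat_lit 6208801), (nat_lit 6386445), (nat_lit 6564523), (nat_lit 6742631), (nat_lit 6920433), (nat_lit 7097651)]) (FT.cons (FT.leaf [(nat_lit 5826607), (nat_lit 5999263), (nat_lit 6173916), (nat_lit 6349871), (nat_lit 6526567), (nat_lit
 6703546), (nat_lit 6880430), (nat_lit 7056909), (nat_lit 7232725)]) (FT.cons (FT.leaf [(nat_lit 6140737), (nat_lit 6314732), (nat_lit 6489829), (nat_lit 6665503), (nat_lit 6841325), (nat_lit 7016943), (nat_lit 7192069)]) (FT.cons (FT.leaf [(nat_lit 6454479), (nat_lit 6628638), (nat_lit 6803227), (nat_lit 6977844), (nat_lit 7152160)]) (FT.cons (FT.leaf [(nat_lit 6766267), (nat_lit 6939717), (nat_lit 7113089), (nat_lit 7286075)]) (FT.cons (FT.leaf [(nat_lit 7074959), (nat_lit 7247053)]) (FT.cons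 (FT.leaf [(nat_lit 7379730)]) FT.nil)))))))))) (FT.cons (FT.cons (FT.leaf [(nat_lit 5110205), (nat_lit 5266803), (nat_lit 5430053), (nat_lit 5598224), (nat_lit 5770018), (nat_lit 5944427), (nat_lit 6120650), (nat_lit 6298036), (nat_lit 6476056), (nat_lit 6654273), (nat_lit 6832324), (nat_lit 7009909), (nat_lit 7186777)]) (FT.cons (FT.leaf [(nat_lit 5408192), (nat_lit 5572183), (nat_lit 5740643), (nat_lit 5912356), (nat_lit 6086380), (nat_lit 6261965), (nat_lit 6438508), (nat_lit 6615514), (nat_lit 6792579), (nat_lit 6969364), (nat_lit 7145593), (nat_lit 7321034)]) (FT.cons (FT.leaf [(nat_lit 5713880), (nat_lit 5882421), (nat_lit 6053885), (nat_lit 6227387), (nat_lit 6402227), (nat_lit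
 6577840), (nat_lit 6753766), (nat_lit 6929627), (nat_lit 7105110), (nat_lit 7279955)]) (FT.cons (FT.leaf [(nat_lit 6023456), (nat_lit 6194525), (nat_lit 6367390), (nat_lit 6541391), (nat_lit 6716001), (nat_lit 6890790), (nat_lit 7065403), (nat_lit 7239551), (nat_lit 7412993)]) (FT.cons (FT.leaf [(nat_lit 6334211), (nat_lit 6506336), (nat_lit 6679419), (nat_lit 6852964), (nat_lit 7026567), (nat_lit 7199899), (nat_lit 7372687)]) (FT.cons (FT.leaf [(nat_lit 6644187), (nat_lit 6816283), (nat_lit 6988708), (nat_lit 7161087), (nat_lit 7333107)]) (FT.cons (FT.leaf [(nat_lit 6951956), (nat_lit 7123219), (nat_lit 7294339), (nat_lit 7465024)]) (FT.cons (FT.leaf [(nat_lit 7256486), (nat_lit 7426319)]) (FT.cons (FT.leaf [(nat_lit 7557027)]) FT.nil))))))))) (FT.cons (FT.cons (FT.leaf [(nat_lit 5607493), (nat_lit 5770648), (nat_lit 5937942), (nat_lit 6108214), (nat_lit 6280568), (nat_lit 6454298), (nat_lit 6628834), (nat_lit 6803714), (nat_lit 6978557),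 (nat_lit 7153051)]) (FT.cons (FT.leaf [(nat_lit 5910906), (nat_lit 6078126), (nat_lit 6248025), (nat_lit 6419762), (nat_lit 6592673), (nat_lit 6766226), (nat_lit 6939988), (nat_lit 7113604), (nat_lit 7286783)]) (FT.cons (FT.leaf [(nat_lit
 6217495), (nat_lit 6386895), (nat_lit 6557914), (nat_lit 6729927), (nat_lit 6902435), (nat_lit 7075031), (nat_lit 7247385)]) (FT.cons (FT.leaf [(nat_lit 6524770), (nat_lit 6694984), (nat_lit 6866030), (nat_lit 7037439), (nat_lit 7208830)]) (FT.cons (FT.leaf [(nat_lit 6830938), (nat_lit 7000959), (nat_lit 7171225), (nat_lit 7341377)]) (FT.cons (FT.leaf [(nat_lit 7134696), (nat_lit 7303781)]) (FT.cons (FT.leaf [(nat_lit 7435100)]) (FT.cons (FT.leaf [(nat_lit 7731473)]) FT.nil)))))))) (FT.cons (FT.cons (FT.leaf [(nat_lit 6105254), (nat_lit 6271045), (nat_lit 6439300), (nat_lit 6609216), (nat_lit 6780165), (nat_lit 6951641), (nat_lit 7123238), (nat_lit 7294621)]) (FT.cons (FT.leaf [(nat_lit 6408708), (nat_lit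 6576378), (nat_lit 6745512), (nat_lit 6915514), (nat_lit 7085912), (nat_lit 7256323), (nat_lit 7426434)]) (FT.cons (FT.leaf [(nat_lit 6712431), (nat_lit 6880706), (nat_lit 7049704), (nat_lit 7218980), (nat_lit 7388172)]) (FT.cons (FT.leaf [(nat_lit 7014772), (nat_lit 7182716), (nat_lit 7350831), (nat_lit 7518778)]) (FT.cons (FT.leaf [(nat_lit 7314538), (nat_lit 7481461)]) (FT.cons (FT.leaf [(nat_lit 7610865)]) FT.nil)))))) (FT.cons (FT.cons (FT.leaf [(nat_lit 6597098), (nat_lit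
 6762992), (nat_lit 6930213), (nat_lit 7098194), (nat_lit 7266485), (nat_lit 7434725)]) (FT.cons (FT.leaf [(nat_lit 6897221), (nat_lit 7063540), (nat_lit 7230488), (nat_lit 7397640), (nat_lit 7564652)]) (FT.cons (FT.leaf [(nat_lit 7195734), (nat_lit 7361607), (nat_lit 7527586), (nat_lit 7693350)]) (FT.cons (FT.leaf [(nat_lit 7491539), (nat_lit 7656321)]) (FT.cons (FT.leaf [(nat_lit 7783844)]) FT.nil))))) (FT.cons (FT.cons (FT.leaf [(nat_lit 7079174), (nat_lit 7243532), (nat_lit 7408435), (nat_lit 7573477), (nat_lit 7738334)]) (FT.cons (FT.leaf [(nat_lit 7373873), (nat_lit 7537685), (nat_lit 7701550), (nat_lit 7865159)]) (FT.cons (FT.leaf [(nat_lit 7665758), (nat_lit 7828424)]) FT.nil))) (FT.cons (FT.cons (FT.leaf [(nat_lit 7549241)]) (FT.cons (FT.leaf [(nat_lit 7837254)]) FT.nil)) (FT.cons (FT.cons (FT.leaf [(nat_lit 8006089)]) FT.nil) (FT.cons (FT.cons (FT.leaf [(nat_lit 8449177)]) FT.nil) FT.nil))))))))) (FT.cons (FT.cons (FT.cons (FT.leaf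 [(nat_lit 5454712), (nat_lit 5608539), (nat_lit 5768587), (nat_lit 5933197), (nat_lit 6101136), (nat_lit 6271457), (nat_lit 6443406), (nat_lit 6616381), (nat_lit 6789889), (nat_lit 6963526), (nat_lit 7136957)]) (FT.cons (FT.leaf [(nat_lit
 5746683), (nat_lit 5907282), (nat_lit 6072034), (nat_lit 6239783), (nat_lit 6409641), (nat_lit 6580905), (nat_lit 6753012), (nat_lit 6925502), (nat_lit 7098000), (nat_lit 7270193)]) (FT.cons (FT.leaf [(nat_lit 6045459), (nat_lit 6210174), (nat_lit 6377589), (nat_lit 6546869), (nat_lit 6717357), (nat_lit 6888524), (nat_lit 7059941), (nat_lit 7231256), (nat_lit 7402180)]) (FT.cons (FT.leaf [(nat_lit 6347533), (nat_lit 6514489), (nat_lit 6683092), (nat_lit 6852725), (nat_lit 7022890), (nat_lit 7193186), (nat_lit 7363284)]) (FT.cons (FT.leaf [(nat_lit 6650430), (nat_lit 6818270), (nat_lit 6986979), (nat_lit 7156090), (nat_lit 7325225)]) (FT.cons (FT.leaf [(nat_lit 6952370), (nat_lit 7120097), (nat_lit 7288109),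 (nat_lit 7456051)]) (FT.cons (FT.leaf [(nat_lit 7252061), (nat_lit 7418937)]) (FT.cons (FT.leaf [(nat_lit 7548565)]) (FT.cons (FT.leaf [(nat_lit 7841206)]) FT.nil))))))))) (FT.cons (FT.cons (FT.leaf [(nat_lit 5940593), (nat_lit 6100239), (nat_lit 6263749), (nat_lit 6430018), (nat_lit 6598197), (nat_lit 6767623), (nat_lit 6937762), (nat_lit 7108183), (nat_lit 7278531), (nat_lit 7448516)]) (FT.cons (FT.leaf [(nat_lit 6236950), (nat_lit 6400294), (nat_lit 6566126), (nat_lit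
 6733651), (nat_lit 6902242), (nat_lit 7071399), (nat_lit 7240718), (nat_lit 7409869), (nat_lit 7578577)]) (FT.cons (FT.leaf [(nat_lit 6536002), (nat_lit 6701291), (nat_lit 6868073), (nat_lit 7035761), (nat_lit 7203884), (nat_lit 7372063), (nat_lit 7539985)]) (FT.cons (FT.leaf [(nat_lit 6835466), (nat_lit 7001432), (nat_lit 7168159), (nat_lit 7335203), (nat_lit 7502207)]) (FT.cons (FT.leaf [(nat_lit 7133700), (nat_lit 7299416), (nat_lit 7465344), (nat_lit 7631147)]) (FT.cons (FT.leaf [(nat_lit 7429521), (nat_lit 7594301)]) (FT.cons (FT.leaf [(nat_lit 7722068)]) (FT.cons (FT.leaf [(nat_lit 8010724)]) FT.nil)))))))) (FT.cons (FT.cons (FT.leaf [(nat_lit 6425807), (nat_lit 6587698), (nat_lit 6751889), (nat_lit 6917618), (nat_lit 7084291), (nat_lit 7251433), (nat_lit 7418660), (nat_lit 7585660)]) (FT.cons (FT.leaf [(nat_lit 6721730), (nat_lit 6885306), (nat_lit 7050241), (nat_lit 7215974), (nat_lit 7382056), (nat_lit 7548129), (nat_lit 7713898)])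 (FT.cons (FT.leaf [(nat_lit 7017712), (nat_lit 7181789), (nat_lit 7346531), (nat_lit 7511517), (nat_lit 7676407)]) (FT.cons (FT.leaf [(nat_lit 7312240), (nat_lit 7475950), (nat_lit 7639807), (nat_lit 7803492)]) (FT.cons (FT.leaf [(nat_lit
 7604219), (nat_lit 7766922)]) (FT.cons (FT.leaf [(nat_lit 7892860)]) FT.nil)))))) (FT.cons (FT.cons (FT.leaf [(nat_lit 6904730), (nat_lit 7066562), (nat_lit 7229634), (nat_lit 7393408), (nat_lit 7557458), (nat_lit 7721442)]) (FT.cons (FT.leaf [(nat_lit 7197205), (nat_lit 7359384), (nat_lit 7522146), (nat_lit 7685087), (nat_lit 7847885)]) (FT.cons (FT.leaf [(nat_lit 7488036), (nat_lit 7649749), (nat_lit 7811556), (nat_lit 7973149)]) (FT.cons (FT.leaf [(nat_lit 7776212), (nat_lit 7936862)]) (FT.cons (FT.leaf [(nat_lit 8061004)]) FT.nil))))) (FT.cons (FT.cons (FT.leaf [(nat_lit 7373983), (nat_lit 7534264), (nat_lit 7695055), (nat_lit 7855971), (nat_lit 8016702)]) (FT.cons (FT.leaf [(nat_lit 7661139), (nat_lit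 7820871), (nat_lit 7980649), (nat_lit 8140179)]) (FT.cons (FT.leaf [(nat_lit 7945556), (nat_lit 8104178)]) FT.nil))) (FT.cons (FT.cons (FT.leaf [(nat_lit 7831602)]) (FT.cons (FT.leaf [(nat_lit 8112311)]) FT.nil)) (FT.cons (FT.cons (FT.leaf [(nat_lit 8276534)]) FT.nil) (FT.cons (FT.cons (FT.leaf [(nat_lit 8708315)]) FT.nil) FT.nil)))))))) (FT.cons (FT.cons (FT.cons (FT.leaf [(nat_lit 6263296), (nat_lit 6419468), (nat_lit 6579269), (nat_lit 6741643), (nat_lit 6905785), (nat_lit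
 7071066), (nat_lit 7236988), (nat_lit 7403143), (nat_lit 7569200), (nat_lit 7734889)]) (FT.cons (FT.leaf [(nat_lit 6552731), (nat_lit 6712297), (nat_lit 6874191), (nat_lit 7037654), (nat_lit 7202096), (nat_lit 7367045), (nat_lit 7532121), (nat_lit 7697014), (nat_lit 7861467)]) (FT.cons (FT.leaf [(nat_lit 6844481), (nat_lit 7005800), (nat_lit 7168510), (nat_lit 7332054), (nat_lit 7495986), (nat_lit 7659950), (nat_lit 7823653)]) (FT.cons (FT.leaf [(nat_lit 7136434), (nat_lit 7298327), (nat_lit 7460922), (nat_lit 7623800), (nat_lit 7786623)]) (FT.cons (FT.leaf [(nat_lit 7427083), (nat_lit 7588687), (nat_lit 7750478), (nat_lit 7912138)]) (FT.cons (FT.leaf [(nat_lit 7715339), (nat_lit 7876017)]) (FT.cons (FT.leaf [(nat_lit 8000413)]) FT.nil))))))) (FT.cons (FT.cons (FT.leaf [(nat_lit 6736319), (nat_lit 6894428), (nat_lit 7054698), (nat_lit 7216403), (nat_lit 7378978), (nat_lit 7541975), (nat_lit 7705035), (nat_lit 7867861)]) (FT.cons (FT.leaf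 [(nat_lit 7024974), (nat_lit 7184612), (nat_lit 7345521), (nat_lit 7507168), (nat_lit 7669131), (nat_lit 7831069), (nat_lit 7992704)]) (FT.cons (FT.leaf [(nat_lit 7313535), (nat_lit 7473593), (nat_lit 7634270), (nat_lit 7795165), (nat_lit
 7955957)]) (FT.cons (FT.leaf [(nat_lit 7600602), (nat_lit 7760271), (nat_lit 7920072), (nat_lit 8079701)]) (FT.cons (FT.leaf [(nat_lit 7885166), (nat_lit 8043851)]) (FT.cons (FT.leaf [(nat_lit 8166500)]) FT.nil)))))) (FT.cons (FT.cons (FT.leaf [(nat_lit 7202841), (nat_lit 7360775), (nat_lit 7519875), (nat_lit 7679629), (nat_lit 7839634), (nat_lit 7999565)]) (FT.cons (FT.leaf [(nat_lit 7487998), (nat_lit 7646219), (nat_lit 7804986), (nat_lit 7963916), (nat_lit 8122702)]) (FT.cons (FT.leaf [(nat_lit 7771502), (nat_lit 7929250), (nat_lit 8087081), (nat_lit 8244707)]) (FT.cons (FT.leaf [(nat_lit 8052416), (nat_lit 8209132)]) (FT.cons (FT.leaf [(nat_lit 8330068)]) FT.nil))))) (FT.cons (FT.cons (FT.leaf [(nat_lit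 7659864), (nat_lit 7816253), (nat_lit 7973124)]) (FT.cons (FT.leaf [(nat_lit 7939833), (nat_lit 8095677)]) (FT.cons (FT.leaf [(nat_lit 8217145)]) FT.nil))) (FT.cons (FT.cons (FT.leaf [(nat_lit 8105648)]) (FT.cons (FT.leaf [(nat_lit 8379409)]) FT.nil)) (FT.cons (FT.cons (FT.leaf [(nat_lit 8539263)]) FT.nil) FT.nil)))))) (FT.cons (FT.cons (FT.cons (FT.leaf [(nat_lit 7037314), (nat_lit 7191767), (nat_lit 7348262), (nat_lit 7506104), (nat_lit 7664758), (nat_lit 7823797)]) (FT.cons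
 (FT.leaf [(nat_lit 7318973), (nat_lit 7474828), (nat_lit 7631880), (nat_lit 7789623), (nat_lit 7947654)]) (FT.cons (FT.leaf [(nat_lit 7600427), (nat_lit 7756641), (nat_lit 7913435), (nat_lit 8070430)]) (FT.cons (FT.leaf [(nat_lit 7880373), (nat_lit 8036188)]) (FT.cons (FT.leaf [(nat_lit 8157875)]) (FT.cons (FT.leaf [(nat_lit 8432257)]) FT.nil)))))) (FT.cons (FT.cons (FT.leaf [(nat_lit 7491956), (nat_lit 7646152), (nat_lit 7801452), (nat_lit 7957367), (nat_lit 8113514)]) (FT.cons (FT.leaf [(nat_lit 7770114), (nat_lit 7924553), (nat_lit 8079508), (nat_lit 8234614)]) (FT.cons (FT.leaf [(nat_lit 8046630), (nat_lit 8200597)]) (FT.cons (FT.leaf [(nat_lit 8320631)]) (FT.cons (FT.leaf [(nat_lit 8591490)]) FT.nil))))) (FT.cons (FT.cons (FT.leaf [(nat_lit 7937318), (nat_lit 8089991), (nat_lit 8243122)]) (FT.cons (FT.leaf [(nat_lit 8210436), (nat_lit 8362575)]) (FT.cons (FT.leaf [(nat_lit 8480986)]) FT.nil))) (FT.cons (FT.cons (FT.leaf [(nat_lit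 8371844)]) (FT.cons (FT.leaf [(nat_lit 8638992)]) FT.nil)) (FT.cons (FT.cons (FT.leaf [(nat_lit 8794704)]) FT.nil) FT.nil))))) (FT.cons (FT.cons (FT.cons (FT.leaf [(nat_lit 7772568), (nat_lit 7923179), (nat_lit 8074845), (nat_lit 8227094), (nat_lit
 8379561)]) (FT.cons (FT.leaf [(nat_lit 8044033), (nat_lit 8194858), (nat_lit 8346175), (nat_lit 8497635)]) (FT.cons (FT.leaf [(nat_lit 8313883), (nat_lit 8464244)]) (FT.cons (FT.leaf [(nat_lit 8581299)]) FT.nil)))) (FT.cons (FT.cons (FT.leaf [(nat_lit 8206810), (nat_lit 8355934), (nat_lit 8505498)]) (FT.cons (FT.leaf [(nat_lit 8473397), (nat_lit 8622002)]) (FT.cons (FT.leaf [(nat_lit 8737504)]) FT.nil))) (FT.cons (FT.cons (FT.leaf [(nat_lit 8630621)]) (FT.cons (FT.leaf [(nat_lit 8891471)]) FT.nil)) FT.nil))) (FT.cons (FT.cons (FT.cons (FT.leaf [(nat_lit 8468772)]) FT.nil) (FT.cons (FT.cons (FT.leaf [(nat_lit 8882379)]) FT.nil) FT.nil)) (FT.cons (FT.cons (FT.cons (FT.leaf [(nat_lit 9127486)])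 FT.nil) FT.nil) (FT.cons (FT.cons (FT.cons (FT.leaf [(nat_lit 9751033)]) FT.nil) FT.nil) (FT.cons (FT.cons (FT.cons (FT.leaf [(nat_lit 10341994)]) FT.nil) FT.nil) FT.nil))))))))) (FT.cons (FT.cons (FT.cons (FT.cons (FT.leaf [(nat_lit 6380242), (nat_lit 6520514), (nat_lit 6666467), (nat_lit 6816621), (nat_lit 6969884), (nat_lit 7125416), (nat_lit 7282555), (nat_lit 7440769), (nat_lit 7599623), (nat_lit 7758761), (nat_lit 7917886)]) (FT.cons (FT.leaf [(nat_lit 6646031), (nat_lit 6792542),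
 (nat_lit 6942906), (nat_lit 7096093), (nat_lit 7251318), (nat_lit 7407958), (nat_lit 7565515), (nat_lit 7723583), (nat_lit 7881827), (nat_lit 8039970)]) (FT.cons (FT.leaf [(nat_lit 6918231), (nat_lit 7068652), (nat_lit 7221643), (nat_lit 7376462), (nat_lit 7532525), (nat_lit 7689363), (nat_lit 7846595), (nat_lit 8003906), (nat_lit 8161036)]) (FT.cons (FT.leaf [(nat_lit 7193791), (nat_lit 7346479), (nat_lit 7500807), (nat_lit 7656224), (nat_lit 7812288), (nat_lit 7968640), (nat_lit 8124986)]) (FT.cons (FT.leaf [(nat_lit 7470556), (nat_lit 7624318), (nat_lit 7779029), (nat_lit 7934272), (nat_lit 8089708)]) (FT.cons (FT.leaf [(nat_lit 7746965), (nat_lit 7900919), (nat_lit 8055299), (nat_lit 8209788)]) (FT.cons (FT.leaf [(nat_lit 8021875), (nat_lit 8175359)]) (FT.cons (FT.leaf [(nat_lit 8294440)]) (FT.cons (FT.leaf [(nat_lit 8564041)]) FT.nil))))))))) (FT.cons (FT.cons (FT.leaf [(nat_lit 6821668), (nat_lit 6967463), (nat_lit 7116866), (nat_lit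 7268891), (nat_lit 7422786), (nat_lit 7577961), (nat_lit 7733939), (nat_lit 7890338), (nat_lit 8046842), (nat_lit 8203187)]) (FT.cons (FT.leaf [(nat_lit 7091977), (nat_lit 7241331), (nat_lit 7393075), (nat_lit 7546497), (nat_lit 7701042),
 (nat_lit 7856263), (nat_lit 8011798), (nat_lit 8167350), (nat_lit 8322674)]) (FT.cons (FT.leaf [(nat_lit 7365141), (nat_lit 7516509), (nat_lit 7669384), (nat_lit 7823240), (nat_lit 7977656), (nat_lit 8132291), (nat_lit 8286864)]) (FT.cons (FT.leaf [(nat_lit 7639157), (nat_lit 7791419), (nat_lit 7944534), (nat_lit 8098104), (nat_lit 8251806)]) (FT.cons (FT.leaf [(nat_lit 7912577), (nat_lit 8064905), (nat_lit 8217594), (nat_lit 8370337)]) (FT.cons (FT.leaf [(nat_lit 8184341), (nat_lit 8336117)]) (FT.cons (FT.leaf [(nat_lit 8453668)]) (FT.cons (FT.leaf [(nat_lit 8719988)]) FT.nil)))))))) (FT.cons (FT.cons (FT.leaf [(nat_lit 7263597), (nat_lit 7411812), (nat_lit 7562256), (nat_lit 7714245), (nat_lit 7867249),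 (nat_lit 8020842), (nat_lit 8174679), (nat_lit 8328478)]) (FT.cons (FT.leaf [(nat_lit 7534271), (nat_lit 7684277), (nat_lit 7835672), (nat_lit 7987951), (nat_lit 8140714), (nat_lit 8293634), (nat_lit 8446445)]) (FT.cons (FT.leaf [(nat_lit 7805490), (nat_lit 7956232), (nat_lit 8107742), (nat_lit 8259639), (nat_lit 8411615)]) (FT.cons (FT.leaf [(nat_lit 8075908), (nat_lit 8226608), (nat_lit 8377609), (nat_lit 8528618)]) (FT.cons (FT.leaf [(nat_lit 8344538), (nat_lit 8494616)])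
 (FT.cons (FT.leaf [(nat_lit 8610659)]) FT.nil)))))) (FT.cons (FT.cons (FT.leaf [(nat_lit 7701184), (nat_lit 7849797), (nat_lit 7999692), (nat_lit 8150387), (nat_lit 8301496), (nat_lit 8452709)]) (FT.cons (FT.leaf [(nat_lit 7969575), (nat_lit 8118786), (nat_lit 8268687), (nat_lit 8418916), (nat_lit 8569178)]) (FT.cons (FT.leaf [(nat_lit 8236988), (nat_lit 8386063), (nat_lit 8535385), (nat_lit 8684675)]) (FT.cons (FT.leaf [(nat_lit 8502504), (nat_lit 8650898)]) (FT.cons (FT.leaf [(nat_lit 8765453)]) FT.nil))))) (FT.cons (FT.cons (FT.leaf [(nat_lit 8131439), (nat_lit 8279110), (nat_lit 8427405)]) (FT.cons (FT.leaf [(nat_lit 8395853), (nat_lit 8543307)]) (FT.cons (FT.leaf [(nat_lit 8658281)]) FT.nil))) (FT.cons (FT.cons (FT.leaf [(nat_lit 8552539)]) (FT.cons (FT.leaf [(nat_lit 8811908)]) FT.nil)) (FT.cons (FT.cons (FT.leaf [(nat_lit 8963429)]) FT.nil) FT.nil))))))) (FT.cons (FT.cons (FT.cons (FT.leaf [(nat_lit 7113001), (nat_lit 7256007),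 (nat_lit 7402424), (nat_lit 7551304), (nat_lit 7701930), (nat_lit 7853739), (nat_lit 8006283), (nat_lit 8159198), (nat_lit 8312185), (nat_lit 8465000)]) (FT.cons (FT.leaf [(nat_lit 7377735), (nat_lit 7524042), (nat_lit 7672599), (nat_lit 7822726),
 (nat_lit 7973895), (nat_lit 8125681), (nat_lit 8277742), (nat_lit 8429798), (nat_lit 8581616)]) (FT.cons (FT.leaf [(nat_lit 7644994), (nat_lit 7793144), (nat_lit 7942708), (nat_lit 8093183), (nat_lit 8244170), (nat_lit 8395346), (nat_lit 8546445)]) (FT.cons (FT.leaf [(nat_lit 7912908), (nat_lit 8061850), (nat_lit 8211587), (nat_lit 8361740), (nat_lit 8512003)]) (FT.cons (FT.leaf [(nat_lit 8180133), (nat_lit 8329092), (nat_lit 8478380), (nat_lit 8627707)]) (FT.cons (FT.leaf [(nat_lit 8445687), (nat_lit 8594084)]) (FT.cons (FT.leaf [(nat_lit 8708847)]) FT.nil))))))) (FT.cons (FT.cons (FT.leaf [(nat_lit 7545091), (nat_lit 7690247), (nat_lit 7837508), (nat_lit 7986223), (nat_lit 8135881), (nat_lit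 8286080), (nat_lit 8436493), (nat_lit 8586853)]) (FT.cons (FT.leaf [(nat_lit 7809871), (nat_lit 7956674), (nat_lit 8104784), (nat_lit 8253721), (nat_lit 8403101), (nat_lit 8552616), (nat_lit 8702014)]) (FT.cons (FT.leaf [(nat_lit 8075041), (nat_lit 8222497), (nat_lit 8370672), (nat_lit 8519203), (nat_lit 8667797)]) (FT.cons (FT.leaf [(nat_lit 8339346), (nat_lit 8486724), (nat_lit 8634379), (nat_lit 8782033)]) (FT.cons (FT.leaf [(nat_lit 8601869), (nat_lit 8748625)]) (FT.cons (FT.leaf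
 [(nat_lit 8861939)]) FT.nil)))))) (FT.cons (FT.cons (FT.leaf [(nat_lit 7972602), (nat_lit 8118033), (nat_lit 8264678), (nat_lit 8412072), (nat_lit 8559849), (nat_lit 8707714)]) (FT.cons (FT.leaf [(nat_lit 8235009), (nat_lit 8380971), (nat_lit 8527585), (nat_lit 8674501), (nat_lit 8821440)]) (FT.cons (FT.leaf [(nat_lit 8496398), (nat_lit 8642201), (nat_lit 8788234), (nat_lit 8934229)]) (FT.cons (FT.leaf [(nat_lit 8755913), (nat_lit 8901043)]) (FT.cons (FT.leaf [(nat_lit 9012928)]) FT.nil))))) (FT.cons (FT.cons (FT.leaf [(nat_lit 8392837), (nat_lit 8537304), (nat_lit 8682362)]) (FT.cons (FT.leaf [(nat_lit 8651323), (nat_lit 8795559)]) (FT.cons (FT.leaf [(nat_lit 8907860)]) FT.nil))) (FT.cons (FT.cons (FT.leaf [(nat_lit 8804159)]) (FT.cons (FT.leaf [(nat_lit 9057748)]) FT.nil)) (FT.cons (FT.cons (FT.leaf [(nat_lit 9205619)]) FT.nil) FT.nil)))))) (FT.cons (FT.cons (FT.cons (FT.leaf [(nat_lit 7818881), (nat_lit 7961060), (nat_lit 8105239),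 (nat_lit 8250790), (nat_lit 8397226), (nat_lit 8544162)]) (FT.cons (FT.leaf [(nat_lit 8077952), (nat_lit 8221658), (nat_lit 8366602), (nat_lit 8512322), (nat_lit 8658455)]) (FT.cons (FT.leaf [(nat_lit 8337293), (nat_lit 8481585), (nat_lit 8626555),
 (nat_lit 8771856)]) (FT.cons (FT.leaf [(nat_lit 8595727), (nat_lit 8739915)]) (FT.cons (FT.leaf [(nat_lit 8852396)]) (FT.cons (FT.leaf [(nat_lit 9106673)]) FT.nil)))))) (FT.cons (FT.cons (FT.leaf [(nat_lit 8236676), (nat_lit 8379039), (nat_lit 8522553), (nat_lit 8666775), (nat_lit 8811355)]) (FT.cons (FT.leaf [(nat_lit 8493325), (nat_lit 8636165), (nat_lit 8779621), (nat_lit 8923361)]) (FT.cons (FT.leaf [(nat_lit 8748934), (nat_lit 8891598)]) (FT.cons (FT.leaf [(nat_lit 9002700)]) (FT.cons (FT.leaf [(nat_lit 9254038)]) FT.nil))))) (FT.cons (FT.cons (FT.leaf [(nat_lit 8647299), (nat_lit 8788687), (nat_lit 8930638)]) (FT.cons (FT.leaf [(nat_lit 8900100), (nat_lit 9041250)]) (FT.cons (FT.leaf [(nat_lit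 9150994)]) FT.nil))) (FT.cons (FT.cons (FT.leaf [(nat_lit 9049262)]) (FT.cons (FT.leaf [(nat_lit 9297317)]) FT.nil)) (FT.cons (FT.cons (FT.leaf [(nat_lit 9441708)]) FT.nil) FT.nil))))) (FT.cons (FT.cons (FT.cons (FT.leaf [(nat_lit 8493763), (nat_lit 8633167), (nat_lit 8773670), (nat_lit 8914844), (nat_lit 9056354)]) (FT.cons (FT.leaf [(nat_lit 8744874), (nat_lit 8884712), (nat_lit 9025136), (nat_lit 9165829)]) (FT.cons (FT.leaf [(nat_lit 8994936), (nat_lit 9134588)]) (FT.cons (FT.leaf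
 [(nat_lit 9243194)]) FT.nil)))) (FT.cons (FT.cons (FT.leaf [(nat_lit 8895167), (nat_lit 9033597), (nat_lit 9172565)]) (FT.cons (FT.leaf [(nat_lit 9142514), (nat_lit 9280703)]) (FT.cons (FT.leaf [(nat_lit 9388003)]) FT.nil))) (FT.cons (FT.cons (FT.leaf [(nat_lit 9288170)]) (FT.cons (FT.leaf [(nat_lit 9530923)]) FT.nil)) FT.nil))) (FT.cons (FT.cons (FT.cons (FT.leaf [(nat_lit 9136759)]) FT.nil) (FT.cons (FT.cons (FT.leaf [(nat_lit 9521181)]) FT.nil) FT.nil)) (FT.cons (FT.cons (FT.cons (FT.leaf [(nat_lit 9748575)]) FT.nil) FT.nil) (FT.cons (FT.cons (FT.cons (FT.leaf [(nat_lit 10330694)]) FT.nil) FT.nil) (FT.cons (FT.cons (FT.cons (FT.leaf [(nat_lit 10884928)]) FT.nil) FT.nil) FT.nil)))))))) (FT.cons (FT.cons (FT.cons (FT.cons (FT.leaf [(nat_lit 7877905), (nat_lit 8010238), (nat_lit 8145786), (nat_lit 8283683), (nat_lit 8423276), (nat_lit 8564058), (nat_lit 8705620), (nat_lit 8847635), (nat_lit 8989833), (nat_lit 9131986)]) (FT.cons (FT.leaf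 [(nat_lit 8122616), (nat_lit 8258132), (nat_lit 8395807), (nat_lit 8535024), (nat_lit 8675302), (nat_lit 8816258), (nat_lit 8957579), (nat_lit 9099010), (nat_lit 9240340)]) (FT.cons (FT.leaf [(nat_lit 8369935), (nat_lit 8507315), (nat_lit
 8646097), (nat_lit 8785826), (nat_lit 8926137), (nat_lit 9066734), (nat_lit 9207378)]) (FT.cons (FT.leaf [(nat_lit 8618179), (nat_lit 8756475), (nat_lit 8895613), (nat_lit 9035246), (nat_lit 9175095)]) (FT.cons (FT.leaf [(nat_lit 8866139), (nat_lit 9004649), (nat_lit 9143576), (nat_lit 9282654)]) (FT.cons (FT.leaf [(nat_lit 9112923), (nat_lit 9251119)]) (FT.cons (FT.leaf [(nat_lit 9357871)]) FT.nil))))))) (FT.cons (FT.cons (FT.leaf [(nat_lit 8276805), (nat_lit 8411385), (nat_lit 8547996), (nat_lit 8686046), (nat_lit 8825070), (nat_lit 8964702), (nat_lit 9104643), (nat_lit 9244650)]) (FT.cons (FT.leaf [(nat_lit 8522081), (nat_lit 8658351), (nat_lit 8795930), (nat_lit 8934377), (nat_lit 9073344), (nat_lit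 9212548), (nat_lit 9351759)]) (FT.cons (FT.leaf [(nat_lit 8768047), (nat_lit 8905108), (nat_lit 9042942), (nat_lit 9181215), (nat_lit 9319661)]) (FT.cons (FT.leaf [(nat_lit 9013566), (nat_lit 9150753), (nat_lit 9288308), (nat_lit 9425975)]) (FT.cons (FT.leaf [(nat_lit 9257803), (nat_lit 9394618)]) (FT.cons (FT.leaf [(nat_lit 9500139)]) FT.nil)))))) (FT.cons (FT.cons (FT.leaf [(nat_lit 8672429), (nat_lit 8807565), (nat_lit 8943925), (nat_lit 9081084), (nat_lit 9218707)]) (FT.cons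
 (FT.leaf [(nat_lit 8916092), (nat_lit 9051909), (nat_lit 9188436), (nat_lit 9325353)]) (FT.cons (FT.leaf [(nat_lit 9159168), (nat_lit 9295034)]) (FT.cons (FT.leaf [(nat_lit 9400871)]) (FT.cons (FT.leaf [(nat_lit 9640619)]) FT.nil))))) (FT.cons (FT.cons (FT.leaf [(nat_lit 9062336), (nat_lit 9196901), (nat_lit 9332121)]) (FT.cons (FT.leaf [(nat_lit 9302970), (nat_lit 9437518)]) (FT.cons (FT.leaf [(nat_lit 9542156)]) FT.nil))) (FT.cons (FT.cons (FT.leaf [(nat_lit 9445001)]) (FT.cons (FT.leaf [(nat_lit 9681688)]) FT.nil)) (FT.cons (FT.cons (FT.leaf [(nat_lit 9819501)]) FT.nil) FT.nil)))))) (FT.cons (FT.cons (FT.cons (FT.leaf [(nat_lit 8528506), (nat_lit 8660602), (nat_lit 8794633), (nat_lit 8930028), (nat_lit 9066341), (nat_lit 9203222)]) (FT.cons (FT.leaf [(nat_lit 8769007), (nat_lit 8902680), (nat_lit 9037597), (nat_lit 9173334), (nat_lit 9309557)]) (FT.cons (FT.leaf [(nat_lit 9010076), (nat_lit 9144473), (nat_lit 9279601), (nat_lit 9415141)])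 (FT.cons (FT.leaf [(nat_lit 9250643), (nat_lit 9385133)]) (FT.cons (FT.leaf [(nat_lit 9489924)]) (FT.cons (FT.leaf [(nat_lit 9727336)]) FT.nil)))))) (FT.cons (FT.cons (FT.leaf [(nat_lit 8915990), (nat_lit 9048547), (nat_lit 9182268), (nat_lit
 9316748), (nat_lit 9451663)]) (FT.cons (FT.leaf [(nat_lit 9154805), (nat_lit 9287985), (nat_lit 9421839), (nat_lit 9556062)]) (FT.cons (FT.leaf [(nat_lit 9392993), (nat_lit 9526197)]) (FT.cons (FT.leaf [(nat_lit 9629816)]) (FT.cons (FT.leaf [(nat_lit 9864726)]) FT.nil))))) (FT.cons (FT.cons (FT.leaf [(nat_lit 9297792), (nat_lit 9429752), (nat_lit 9562336)]) (FT.cons (FT.leaf [(nat_lit 9533608), (nat_lit 9665532)]) (FT.cons (FT.leaf [(nat_lit 9767992)]) FT.nil))) (FT.cons (FT.cons (FT.leaf [(nat_lit 9672516)]) (FT.cons (FT.leaf [(nat_lit 9904482)]) FT.nil)) (FT.cons (FT.cons (FT.leaf [(nat_lit 10039315)]) FT.nil) FT.nil))))) (FT.cons (FT.cons (FT.cons (FT.leaf [(nat_lit 9153680), (nat_lit 9283738),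 (nat_lit 9414909), (nat_lit 9546802)]) (FT.cons (FT.leaf [(nat_lit 9387810), (nat_lit 9518443), (nat_lit 9649720)]) (FT.cons (FT.leaf [(nat_lit 9621286)]) FT.nil))) (FT.cons (FT.cons (FT.leaf [(nat_lit 9527672), (nat_lit 9657116)]) (FT.cons (FT.leaf [(nat_lit 9758845)]) FT.nil)) (FT.cons (FT.cons (FT.leaf [(nat_lit 9894758)]) FT.nil) FT.nil))) (FT.cons (FT.cons (FT.cons (FT.leaf [(nat_lit 9752219)]) FT.nil) (FT.cons (FT.cons (FT.leaf [(nat_lit 10111956)]) FT.nil) FT.nil)) (FT.cons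
 (FT.cons (FT.cons (FT.leaf [(nat_lit 10324332)]) FT.nil) FT.nil) (FT.cons (FT.cons (FT.cons (FT.leaf [(nat_lit 10870960)]) FT.nil) FT.nil) FT.nil)))))) (FT.cons (FT.cons (FT.cons (FT.cons (FT.leaf [(nat_lit 9179485), (nat_lit 9303103), (nat_lit 9428587), (nat_lit 9555410), (nat_lit 9683162), (nat_lit 9811520)]) (FT.cons (FT.leaf [(nat_lit 9404371), (nat_lit 9529579), (nat_lit 9656018), (nat_lit 9783296), (nat_lit 9911106)]) (FT.cons (FT.leaf [(nat_lit 9630019), (nat_lit 9756035), (nat_lit 9882809), (nat_lit 10010047)]) (FT.cons (FT.leaf [(nat_lit 9855449), (nat_lit 9981692)]) FT.nil)))) (FT.cons (FT.cons (FT.leaf [(nat_lit 9541477), (nat_lit 9665738), (nat_lit 9791159), (nat_lit 9917362), (nat_lit 10044050)]) (FT.cons (FT.leaf [(nat_lit 9765201), (nat_lit 9890179), (nat_lit 10015862), (nat_lit 10141968)]) (FT.cons (FT.leaf [(nat_lit 9988592), (nat_lit 10113732)]) FT.nil))) (FT.cons (FT.cons (FT.leaf [(nat_lit 9898882), (nat_lit 10022816)])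 (FT.cons (FT.leaf [(nat_lit 10120235)]) FT.nil)) (FT.cons (FT.cons (FT.leaf [(nat_lit 10250399)]) FT.nil) FT.nil)))) (FT.cons (FT.cons (FT.cons (FT.leaf [(nat_lit 9762839), (nat_lit 9884953), (nat_lit 10008177), (nat_lit 10132148)]) (FT.cons
 (FT.leaf [(nat_lit 9982531), (nat_lit 10105312), (nat_lit 10228768)]) (FT.cons (FT.leaf [(nat_lit 10201853)]) FT.nil))) (FT.cons (FT.cons (FT.leaf [(nat_lit 10113516), (nat_lit 10235276)]) (FT.cons (FT.leaf [(nat_lit 10330852)]) FT.nil)) (FT.cons (FT.cons (FT.leaf [(nat_lit 10458420)]) FT.nil) FT.nil))) (FT.cons (FT.cons (FT.cons (FT.leaf [(nat_lit 10323548)]) FT.nil) (FT.cons (FT.cons (FT.leaf [(nat_lit 10662068)]) FT.nil) FT.nil)) (FT.cons (FT.cons (FT.cons (FT.leaf [(nat_lit 10861516)]) FT.nil) FT.nil) FT.nil)))) (FT.cons (FT.cons (FT.cons (FT.cons (FT.leaf [(nat_lit 10329159), (nat_lit 10444415), (nat_lit 10560767)]) (FT.cons (FT.leaf [(nat_lit 10536386), (nat_lit 10652368)]) (FT.cons (FT.leaf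 [(nat_lit 10743451)]) FT.nil))) (FT.cons (FT.cons (FT.leaf [(nat_lit 10659705)]) (FT.cons (FT.leaf [(nat_lit 10865033)]) FT.nil)) (FT.cons (FT.cons (FT.leaf [(nat_lit 10985358)]) FT.nil) FT.nil))) (FT.cons (FT.cons (FT.cons (FT.leaf [(nat_lit 10857196)]) FT.nil) (FT.cons (FT.cons (FT.leaf [(nat_lit 11177235)]) FT.nil) FT.nil)) FT.nil)) (FT.cons (FT.cons (FT.cons (FT.cons (FT.leaf [(nat_lit 11358237)]) FT.nil) FT.nil) FT.nil) (FT.cons (FT.cons (FT.cons (FT.cons (FT.leaf [(nat_lit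
 12289470)]) FT.nil) FT.nil) FT.nil) FT.nil)))))))

def f168_1_792 : FT := (FT.cons (FT.cons (FT.cons (FT.cons (FT.leaf [(nat_lit 4700864), (nat_lit 4843428), (nat_lit 4996448), (nat_lit 5157267), (nat_lit 5323971), (nat_lit 5495107), (nat_lit 5669539), (nat_lit 5846352), (nat_lit 6024807), (nat_lit 6204295), (nat_lit 6384311), (nat_lit 6564436), (nat_lit 6744320), (nat_lit 6923672), (nat_lit 7102247)]) (FT.cons (FT.leaf [(nat_lit 4982163), (nat_lit 5137239), (nat_lit 5299423), (nat_lit 5466927), (nat_lit 5638402), (nat_lit 5812791), (nat_lit 5989250), (nat_lit 6167090), (nat_lit 6345749), (nat_lit 6524759), (nat_lit 6703735), (nat_lit 6882352), (nat_lit 7060343), (nat_lit 7237482)]) (FT.cons (FT.leaf [(nat_lit 5278283), (nat_lit 5441487), (nat_lit 5609516), (nat_lit 5781107), (nat_lit 5955275), (nat_lit 6131233), (nat_lit 6308341), (nat_lit 6486079), (nat_lit 6664011), (nat_lit 6841781), (nat_lit 7019090), (nat_lit 7195689)]) (FT.cons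 (FT.leaf [(nat_lit 5583283), (nat_lit 5751598), (nat_lit 5923112), (nat_lit 6096902), (nat_lit 6272233), (nat_lit 6448510), (nat_lit 6625246), (nat_lit 6802039), (nat_lit 6978557), (nat_lit 7154522)]) (FT.cons (FT.leaf [(nat_lit 5893053), (nat_lit 6064322), (nat_lit 6237599), (nat_lit 6412195), (nat_lit 6587554), (nat_lit
 6763222), (nat_lit 6938824), (nat_lit 7114049), (nat_lit 7288644)]) (FT.cons (FT.leaf [(nat_lit 6204658), (nat_lit 6377305), (nat_lit 6551073), (nat_lit 6725440), (nat_lit 6899981), (nat_lit 7074348), (nat_lit 7248251)]) (FT.cons (FT.leaf [(nat_lit 6515970), (nat_lit 6688828), (nat_lit 6862140), (nat_lit 7035507), (nat_lit 7208602)]) (FT.cons (FT.leaf [(nat_lit 6825431), (nat_lit 6997634), (nat_lit 7169786), (nat_lit 7341581)]) (FT.cons (FT.leaf [(nat_lit 7131905), (nat_lit 7302809)]) (FT.cons (FT.leaf [(nat_lit 7434570)]) FT.nil)))))))))) (FT.cons (FT.cons (FT.leaf [(nat_lit 5182682), (nat_lit 5337925), (nat_lit 5499783),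 (nat_lit 5666545), (nat_lit 5836925), (nat_lit 6009924), (nat_lit 6184750), (nat_lit 6360759), (nat_lit 6537425), (nat_lit 6714313), (nat_lit 6891066), (nat_lit 7067382), (nat_lit 7243015)]) (FT.cons (FT.leaf [(nat_lit 5478082), (nat_lit 5640696), (nat_lit 5807767), (nat_lit 5978088), (nat_lit 6150728), (nat_lit 6324945), (nat_lit 6500140), (nat_lit 6675822), (nat_lit 6851589), (nat_lit 7027108), (nat_lit 7202100), (nat_lit 7376336)]) (FT.cons (FT.leaf [(nat_lit 5781199), (nat_lit 5948371), (nat_lit 6118468), (nat_lit 6290614), (nat_lit 6464114), (nat_lit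
 6638408), (nat_lit 6813041), (nat_lit 6987635), (nat_lit 7161882), (nat_lit 7335521)]) (FT.cons (FT.leaf [(nat_lit 6088258), (nat_lit 6257986), (nat_lit 6429521), (nat_lit 6602212), (nat_lit 6775533), (nat_lit 6949058), (nat_lit 7122436), (nat_lit 7295378), (nat_lit 7467643)]) (FT.cons (FT.leaf [(nat_lit 6396576), (nat_lit 6567400), (nat_lit 6739201), (nat_lit 6911486), (nat_lit 7083856), (nat_lit 7255981), (nat_lit 7427592)]) (FT.cons (FT.leaf [(nat_lit 6704208), (nat_lit 6875050), (nat_lit 7046247), (nat_lit 7217420), (nat_lit 7388264)]) (FT.cons (FT.leaf [(nat_lit 7009738), (nat_lit 7179799), (nat_lit 7349743), (nat_lit 7519281)]) (FT.cons (FT.leaf [(nat_lit 7312131), (nat_lit 7480820)]) (FT.cons (FT.leaf [(nat_lit 7610645)]) FT.nil))))))))) (FT.cons (FT.cons (FT.leaf [(nat_lit 5675640), (nat_lit 5837456), (nat_lit 6003403), (nat_lit 6172328), (nat_lit 6343345), (nat_lit 6515753), (nat_lit 6688989), (nat_lit 6862593), (nat_lit 7036186),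 (nat_lit 7209460), (nat_lit 7382152)]) (FT.cons (FT.leaf [(nat_lit 5976560), (nat_lit 6142454), (nat_lit 6311031), (nat_lit 6481458), (nat_lit 6653077), (nat_lit 6825358), (nat_lit 6997874), (nat_lit 7170270), (nat_lit 7342257), (nat_lit
 7513594)]) (FT.cons (FT.leaf [(nat_lit 6280716), (nat_lit 6448820), (nat_lit 6618556), (nat_lit 6789305), (nat_lit 6960570), (nat_lit 7131949), (nat_lit 7303112), (nat_lit 7473787), (nat_lit 7643752)]) (FT.cons (FT.leaf [(nat_lit 6585640), (nat_lit 6754598), (nat_lit 6924408), (nat_lit 7094603), (nat_lit 7264805), (nat_lit 7434706), (nat_lit 7604050)]) (FT.cons (FT.leaf [(nat_lit 6889549), (nat_lit 7058362), (nat_lit 7227442), (nat_lit 7396435), (nat_lit 7565048)]) (FT.cons (FT.leaf [(nat_lit 7191149), (nat_lit 7359077), (nat_lit 7526831), (nat_lit 7694139)]) (FT.cons (FT.leaf [(nat_lit 7489498), (nat_lit 7655992)]) (FT.cons (FT.leaf [(nat_lit 7783919)]) FT.nil)))))))) (FT.cons (FT.cons (FT.leaf [(nat_lit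 6169306), (nat_lit 6333814), (nat_lit 6500791), (nat_lit 6669443), (nat_lit 6839143), (nat_lit 7009394), (nat_lit 7179789), (nat_lit 7349997)]) (FT.cons (FT.leaf [(nat_lit 6470410), (nat_lit 6636828), (nat_lit 6804723), (nat_lit 6973506), (nat_lit 7142707), (nat_lit 7311944), (nat_lit 7480908)]) (FT.cons (FT.leaf [(nat_lit 6771865), (nat_lit 6938928), (nat_lit 7106734), (nat_lit 7274839), (nat_lit 7442886)]) (FT.cons (FT.leaf [(nat_lit 7072030), (nat_lit 7238808), (nat_lit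
 7405780), (nat_lit 7572609)]) (FT.cons (FT.leaf [(nat_lit 7369716), (nat_lit 7535524)]) (FT.cons (FT.leaf [(nat_lit 7664064)]) FT.nil)))))) (FT.cons (FT.cons (FT.leaf [(nat_lit 6657340), (nat_lit 6822025), (nat_lit 6988050), (nat_lit 7154855), (nat_lit 7321992), (nat_lit 7489100)]) (FT.cons (FT.leaf [(nat_lit 6955275), (nat_lit 7120425), (nat_lit 7286224), (nat_lit 7452247), (nat_lit 7618155)]) (FT.cons (FT.leaf [(nat_lit 7251691), (nat_lit 7416439), (nat_lit 7581317), (nat_lit 7746004)]) (FT.cons (FT.leaf [(nat_lit 7545493), (nat_lit 7709199)]) (FT.cons (FT.leaf [(nat_lit 7835891)]) FT.nil))))) (FT.cons (FT.cons (FT.leaf [(nat_lit 7135903), (nat_lit 7299133), (nat_lit 7462927), (nat_lit 7626881), (nat_lit 7790673)]) (FT.cons (FT.leaf [(nat_lit 7428580), (nat_lit 7591308), (nat_lit 7754110), (nat_lit 7916681)]) (FT.cons (FT.leaf [(nat_lit 7718535), (nat_lit 7880163)]) FT.nil))) (FT.cons (FT.cons (FT.leaf [(nat_lit 7602747)]) (FT.cons (FT.leaf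 [(nat_lit 7888899)]) FT.nil)) (FT.cons (FT.cons (FT.leaf [(nat_lit 8056646)]) FT.nil) (FT.cons (FT.cons (FT.leaf [(nat_lit 8497038)]) FT.nil) FT.nil))))))))) (FT.cons (FT.cons (FT.cons (FT.leaf [(nat_lit 5523984), (nat_lit 5676537), (nat_lit
 5835281), (nat_lit 5998572), (nat_lit 6165190), (nat_lit 6334195), (nat_lit 6504842), (nat_lit 6676532), (nat_lit 6848778), (nat_lit 7021177), (nat_lit 7193397), (nat_lit 7365165), (nat_lit 7536248)]) (FT.cons (FT.leaf [(nat_lit 5813532), (nat_lit 5972841), (nat_lit 6136293), (nat_lit 6302744), (nat_lit 6471311), (nat_lit 6641299), (nat_lit 6812150), (nat_lit 6983406), (nat_lit 7154693), (nat_lit 7325704), (nat_lit 7496182), (nat_lit 7665914)]) (FT.cons (FT.leaf [(nat_lit 6109906), (nat_lit 6273341), (nat_lit 6439480), (nat_lit 6607495), (nat_lit 6776734), (nat_lit 6946672), (nat_lit 7116882), (nat_lit 7287016), (nat_lit 7456787), (nat_lit 7625953)]) (FT.cons (FT.leaf [(nat_lit 6409632), (nat_lit 6575336),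 (nat_lit 6742700), (nat_lit 6911109), (nat_lit 7080073), (nat_lit 7249190), (nat_lit 7418136), (nat_lit 7586638), (nat_lit 7754477)]) (FT.cons (FT.leaf [(nat_lit 6710258), (nat_lit 6876884), (nat_lit 7044397), (nat_lit 7212333), (nat_lit 7380317), (nat_lit 7548043), (nat_lit 7715259)]) (FT.cons (FT.leaf [(nat_lit 7010014), (nat_lit 7176572), (nat_lit 7343436), (nat_lit 7510254), (nat_lit 7676737)]) (FT.cons (FT.leaf [(nat_lit 7307616), (nat_lit 7473371), (nat_lit 7638993),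
 (nat_lit 7804214)]) (FT.cons (FT.leaf [(nat_lit 7602129), (nat_lit 7766535)]) (FT.cons (FT.leaf [(nat_lit 7892876)]) FT.nil))))))))) (FT.cons (FT.cons (FT.leaf [(nat_lit 6005821), (nat_lit 6164215), (nat_lit 6326466), (nat_lit 6491477), (nat_lit 6658409), (nat_lit 6826602), (nat_lit 6995528), (nat_lit 7164758), (nat_lit 7333941), (nat_lit 7502786), (nat_lit 7671054)]) (FT.cons (FT.leaf [(nat_lit 6299850), (nat_lit 6461956), (nat_lit 6626555), (nat_lit 6792856), (nat_lit 6960241), (nat_lit 7128213), (nat_lit 7296369), (nat_lit 7464380), (nat_lit 7631977), (nat_lit 7798934)]) (FT.cons (FT.leaf [(nat_lit 6596634), (nat_lit 6760712), (nat_lit 6926298), (nat_lit 7092806), (nat_lit 7259769), (nat_lit 7426812), (nat_lit 7593623), (nat_lit 7759950), (nat_lit 7925583)]) (FT.cons (FT.leaf [(nat_lit 6893904), (nat_lit 7058699), (nat_lit 7224272), (nat_lit 7390184), (nat_lit 7556077), (nat_lit 7721664), (nat_lit 7886706)]) (FT.cons (FT.leaf [(nat_lit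 7190034), (nat_lit 7354622), (nat_lit 7519443), (nat_lit 7684161), (nat_lit 7848504)]) (FT.cons (FT.leaf [(nat_lit 7483842), (nat_lit 7647540), (nat_lit 7811059), (nat_lit 7974142)]) (FT.cons (FT.leaf [(nat_lit 7774470), (nat_lit 7936772)])
 (FT.cons (FT.leaf [(nat_lit 8061300)]) FT.nil)))))))) (FT.cons (FT.cons (FT.leaf [(nat_lit 6487220), (nat_lit 6647912), (nat_lit 6810910), (nat_lit 6975459), (nat_lit 7140967), (nat_lit 7306965), (nat_lit 7473070), (nat_lit 7638973)]) (FT.cons (FT.leaf [(nat_lit 6780950), (nat_lit 6943358), (nat_lit 7107137), (nat_lit 7271730), (nat_lit 7436695), (nat_lit 7601671), (nat_lit 7766368)]) (FT.cons (FT.leaf [(nat_lit 7074817), (nat_lit 7237763), (nat_lit 7401391), (nat_lit 7565284), (nat_lit 7729104)]) (FT.cons (FT.leaf [(nat_lit 7367315), (nat_lit 7529936), (nat_lit 7692725), (nat_lit 7855364)]) (FT.cons (FT.leaf [(nat_lit 7657353), (nat_lit 7819012)]) (FT.cons (FT.leaf [(nat_lit 7944144)]) FT.nil))))))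 (FT.cons (FT.cons (FT.leaf [(nat_lit 6962594), (nat_lit 7123297), (nat_lit 7285252), (nat_lit 7447927), (nat_lit 7610897), (nat_lit 7773824)]) (FT.cons (FT.leaf [(nat_lit 7253027), (nat_lit 7414114), (nat_lit 7575801), (nat_lit 7737688), (nat_lit 7899453)]) (FT.cons (FT.leaf [(nat_lit 7541900), (nat_lit 7702563), (nat_lit 7863339), (nat_lit 8023923)]) (FT.cons (FT.leaf [(nat_lit 7828204), (nat_lit 7987847)]) (FT.cons (FT.leaf [(nat_lit 8111213)]) FT.nil))))) (FT.cons (FT.cons (FT.leaf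
 [(nat_lit 7428572), (nat_lit 7587798), (nat_lit 7747552), (nat_lit 7907450), (nat_lit 8067184)]) (FT.cons (FT.leaf [(nat_lit 7713839), (nat_lit 7872557), (nat_lit 8031339), (nat_lit 8189897)]) (FT.cons (FT.leaf [(nat_lit 7996451), (nat_lit 8154100)]) FT.nil))) (FT.cons (FT.cons (FT.leaf [(nat_lit 7883182)]) (FT.cons (FT.leaf [(nat_lit 8162148)]) FT.nil)) (FT.cons (FT.cons (FT.leaf [(nat_lit 8325354)]) FT.nil) (FT.cons (FT.cons (FT.leaf [(nat_lit 8754607)]) FT.nil) FT.nil)))))))) (FT.cons (FT.cons (FT.cons (FT.leaf [(nat_lit 6325824), (nat_lit 6480824), (nat_lit 6639447), (nat_lit 6800645), (nat_lit 6963621), (nat_lit 7127752), (nat_lit 7292540), (nat_lit 7457583), (nat_lit 7622551), (nat_lit 7787174)]) (FT.cons (FT.leaf [(nat_lit 6613084), (nat_lit 6771492), (nat_lit 6932233), (nat_lit 7094554), (nat_lit 7257869), (nat_lit 7421710), (nat_lit 7585699), (nat_lit 7749526), (nat_lit 7912939)]) (FT.cons (FT.leaf [(nat_lit 6902715), (nat_lit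 7062904), (nat_lit 7224496), (nat_lit 7386936), (nat_lit 7549785), (nat_lit 7712686), (nat_lit 7875349)]) (FT.cons (FT.leaf [(nat_lit 7192622), (nat_lit 7353420), (nat_lit 7514936), (nat_lit 7676754), (nat_lit 7838539)]) (FT.cons (FT.leaf [(nat_lit
 7481304), (nat_lit 7641853), (nat_lit 7802608), (nat_lit 7963254)]) (FT.cons (FT.leaf [(nat_lit 7767678), (nat_lit 7927344)]) (FT.cons (FT.leaf [(nat_lit 8050956)]) FT.nil))))))) (FT.cons (FT.cons (FT.leaf [(nat_lit 6795289), (nat_lit 6952277), (nat_lit 7111431), (nat_lit 7272032), (nat_lit 7433519), (nat_lit 7595446), (nat_lit 7757456), (nat_lit 7919255)]) (FT.cons (FT.leaf [(nat_lit 7081896), (nat_lit 7240440), (nat_lit 7400269), (nat_lit 7560851), (nat_lit 7721767), (nat_lit 7882679), (nat_lit 8043311)]) (FT.cons (FT.leaf [(nat_lit 7368481), (nat_lit 7527480), (nat_lit 7687115), (nat_lit 7846987), (nat_lit 8006778)]) (FT.cons (FT.leaf [(nat_lit 7653649), (nat_lit 7812300), (nat_lit 7971101),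 (nat_lit 8129750)]) (FT.cons (FT.leaf [(nat_lit 7936398), (nat_lit 8094105)]) (FT.cons (FT.leaf [(nat_lit 8216000)]) FT.nil)))))) (FT.cons (FT.cons (FT.leaf [(nat_lit 7258500), (nat_lit 7415377), (nat_lit 7573433), (nat_lit 7732158), (nat_lit 7891152), (nat_lit 8050093)]) (FT.cons (FT.leaf [(nat_lit 7541748), (nat_lit 7698947), (nat_lit 7856708), (nat_lit 8014650), (nat_lit 8172468)]) (FT.cons (FT.leaf [(nat_lit 7823420), (nat_lit 7980184), (nat_lit 8137050), (nat_lit 8293729)]) (FT.cons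
 (FT.leaf [(nat_lit 8102583), (nat_lit 8258354)]) (FT.cons (FT.leaf [(nat_lit 8378562)]) FT.nil))))) (FT.cons (FT.cons (FT.leaf [(nat_lit 7712464), (nat_lit 7867866), (nat_lit 8023764)]) (FT.cons (FT.leaf [(nat_lit 7990665), (nat_lit 8145558)]) (FT.cons (FT.leaf [(nat_lit 8266285)]) FT.nil))) (FT.cons (FT.cons (FT.leaf [(nat_lit 8155433)]) (FT.cons (FT.leaf [(nat_lit 8427560)]) FT.nil)) (FT.cons (FT.cons (FT.leaf [(nat_lit 8586462)]) FT.nil) FT.nil)))))) (FT.cons (FT.cons (FT.cons (FT.leaf [(nat_lit 7094018), (nat_lit 7247421), (nat_lit 7402871), (nat_lit 7559680), (nat_lit 7717314), (nat_lit 7875351), (nat_lit 8033450), (nat_lit 8191337)]) (FT.cons (FT.leaf [(nat_lit 7373762), (nat_lit 7528592), (nat_lit 7684632), (nat_lit 7841376), (nat_lit 7998427), (nat_lit 8155461), (nat_lit 8312220)]) (FT.cons (FT.leaf [(nat_lit 7653366), (nat_lit 7808588), (nat_lit 7964406), (nat_lit 8120441), (nat_lit 8276390)]) (FT.cons (FT.leaf [(nat_lit 7931534),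 (nat_lit 8086393), (nat_lit 8241391), (nat_lit 8396239)]) (FT.cons (FT.leaf [(nat_lit 8207334), (nat_lit 8361274)]) (FT.cons (FT.leaf [(nat_lit 8480092)]) FT.nil)))))) (FT.cons (FT.cons (FT.leaf [(nat_lit 7545566), (nat_lit 7698771), (nat_lit
 7853092), (nat_lit 8008043), (nat_lit 8163242), (nat_lit 8318383)]) (FT.cons (FT.leaf [(nat_lit 7821937), (nat_lit 7975417), (nat_lit 8129428), (nat_lit 8283607), (nat_lit 8437664)]) (FT.cons (FT.leaf [(nat_lit 8096736), (nat_lit 8249779), (nat_lit 8402918), (nat_lit 8555877)]) (FT.cons (FT.leaf [(nat_lit 8369094), (nat_lit 8521176)]) (FT.cons (FT.leaf [(nat_lit 8638383)]) FT.nil))))) (FT.cons (FT.cons (FT.leaf [(nat_lit 7988066), (nat_lit 8139812), (nat_lit 8292031)]) (FT.cons (FT.leaf [(nat_lit 8259526), (nat_lit 8410772)]) (FT.cons (FT.leaf [(nat_lit 8528487)]) FT.nil))) (FT.cons (FT.cons (FT.leaf [(nat_lit 8419953)]) (FT.cons (FT.leaf [(nat_lit 8685567)]) FT.nil)) (FT.cons (FT.cons (FT.leaf [(nat_lit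 8840385)]) FT.nil) FT.nil))))) (FT.cons (FT.cons (FT.cons (FT.leaf [(nat_lit 7824271), (nat_lit 7973951), (nat_lit 8124698), (nat_lit 8276041), (nat_lit 8427618)]) (FT.cons (FT.leaf [(nat_lit 8094058), (nat_lit 8243983), (nat_lit 8394413), (nat_lit 8545002)]) (FT.cons (FT.leaf [(nat_lit 8362297), (nat_lit 8511790)]) (FT.cons (FT.leaf [(nat_lit 8628168)]) FT.nil)))) (FT.cons (FT.cons (FT.leaf [(nat_lit 8255830), (nat_lit 8404082), (nat_lit 8552788)]) (FT.cons (FT.leaf [(nat_lit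
 8520858), (nat_lit 8668622)]) (FT.cons (FT.leaf [(nat_lit 8783472)]) FT.nil))) (FT.cons (FT.cons (FT.leaf [(nat_lit 8677163)]) (FT.cons (FT.leaf [(nat_lit 8936568)]) FT.nil)) FT.nil))) (FT.cons (FT.cons (FT.cons (FT.leaf [(nat_lit 8516175)]) FT.nil) (FT.cons (FT.cons (FT.leaf [(nat_lit 8927451)]) FT.nil) FT.nil)) (FT.cons (FT.cons (FT.cons (FT.leaf [(nat_lit 9171178)]) FT.nil) FT.nil) (FT.cons (FT.cons (FT.cons (FT.leaf [(nat_lit 9791504)]) FT.nil) FT.nil) (FT.cons (FT.cons (FT.cons (FT.leaf [(nat_lit 10379652)]) FT.nil) FT.nil) FT.nil))))))))) (FT.cons (FT.cons (FT.cons (FT.cons (FT.leaf [(nat_lit 6441011), (nat_lit 6580294), (nat_lit 6725231), (nat_lit 6874355), (nat_lit 7026582), (nat_lit 7181080), (nat_lit 7337192), (nat_lit 7494389), (nat_lit 7652240), (nat_lit 7810390), (nat_lit 7968544)]) (FT.cons (FT.leaf [(nat_lit 6704917), (nat_lit 6850423), (nat_lit 6999768), (nat_lit 7151935), (nat_lit 7306141), (nat_lit 7461772), (nat_lit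 7618330), (nat_lit 7775414), (nat_lit 7932690), (nat_lit 8089882)]) (FT.cons (FT.leaf [(nat_lit 6975242), (nat_lit 7124658), (nat_lit 7276644), (nat_lit 7430462), (nat_lit 7585533), (nat_lit 7741391), (nat_lit 7897657), (nat_lit 8054020), (nat_lit
 8210220)]) (FT.cons (FT.leaf [(nat_lit 7248957), (nat_lit 7400656), (nat_lit 7554000), (nat_lit 7708443), (nat_lit 7863546), (nat_lit 8018952), (nat_lit 8174369)]) (FT.cons (FT.leaf [(nat_lit 7523925), (nat_lit 7676721), (nat_lit 7830476), (nat_lit 7984777), (nat_lit 8139286)]) (FT.cons (FT.leaf [(nat_lit 7798595), (nat_lit 7951611), (nat_lit 8105068), (nat_lit 8258649)]) (FT.cons (FT.leaf [(nat_lit 8071829), (nat_lit 8224408)]) (FT.cons (FT.leaf [(nat_lit 8342786)]) (FT.cons (FT.leaf [(nat_lit 8610847)]) FT.nil))))))))) (FT.cons (FT.cons (FT.leaf [(nat_lit 6879296), (nat_lit 7024109), (nat_lit 7172521), (nat_lit 7323554), (nat_lit 7476461), (nat_lit 7630655), (nat_lit 7785666), (nat_lit 7941110),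 (nat_lit 8096676), (nat_lit 8252101)]) (FT.cons (FT.leaf [(nat_lit 7147780), (nat_lit 7296156), (nat_lit 7446923), (nat_lit 7599373), (nat_lit 7752956), (nat_lit 7907228), (nat_lit 8061828), (nat_lit 8216461), (nat_lit 8370884)]) (FT.cons (FT.leaf [(nat_lit 7419152), (nat_lit 7569559), (nat_lit 7721480), (nat_lit 7874392), (nat_lit 8027876), (nat_lit 8181594), (nat_lit 8335268)]) (FT.cons (FT.leaf [(nat_lit 7691426), (nat_lit 7842750), (nat_lit 7994939), (nat_lit 8147596), (nat_lit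
 8300400)]) (FT.cons (FT.leaf [(nat_lit 7963160), (nat_lit 8114580), (nat_lit 8266374), (nat_lit 8418238)]) (FT.cons (FT.leaf [(nat_lit 8233302), (nat_lit 8384202)]) (FT.cons (FT.leaf [(nat_lit 8501073)]) (FT.cons (FT.leaf [(nat_lit 8765901)]) FT.nil)))))))) (FT.cons (FT.cons (FT.leaf [(nat_lit 7318230), (nat_lit 7465496), (nat_lit 7614990), (nat_lit 7766037), (nat_lit 7918108), (nat_lit 8070780), (nat_lit 8223711), (nat_lit 8376621)]) (FT.cons (FT.leaf [(nat_lit 7587166), (nat_lit 7736239), (nat_lit 7886708), (nat_lit 8038072), (nat_lit 8189932), (nat_lit 8341964), (nat_lit 8493905)]) (FT.cons (FT.leaf [(nat_lit 7856696), (nat_lit 8006529), (nat_lit 8157141), (nat_lit 8308153), (nat_lit 8459259)]) (FT.cons (FT.leaf [(nat_lit 8125481), (nat_lit 8275301), (nat_lit 8425435), (nat_lit 8575592)]) (FT.cons (FT.leaf [(nat_lit 8392540), (nat_lit 8541769)]) (FT.cons (FT.leaf [(nat_lit 8657153)]) FT.nil)))))) (FT.cons (FT.cons (FT.leaf [(nat_lit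 7753001), (nat_lit 7900708), (nat_lit 8049705), (nat_lit 8199512), (nat_lit 8349747), (nat_lit 8500100)]) (FT.cons (FT.leaf [(nat_lit 8019754), (nat_lit 8168083), (nat_lit 8317114), (nat_lit 8466486), (nat_lit 8615905)]) (FT.cons (FT.leaf [(nat_lit
 8285585), (nat_lit 8433807), (nat_lit 8582288), (nat_lit 8730754)]) (FT.cons (FT.leaf [(nat_lit 8549581), (nat_lit 8697151)]) (FT.cons (FT.leaf [(nat_lit 8811069)]) FT.nil))))) (FT.cons (FT.cons (FT.leaf [(nat_lit 8180626), (nat_lit 8327442), (nat_lit 8474894)]) (FT.cons (FT.leaf [(nat_lit 8443508), (nat_lit 8590135)]) (FT.cons (FT.leaf [(nat_lit 8704462)]) FT.nil))) (FT.cons (FT.cons (FT.leaf [(nat_lit 8599283)]) (FT.cons (FT.leaf [(nat_lit 8857224)]) FT.nil)) (FT.cons (FT.cons (FT.leaf [(nat_lit 9007909)]) FT.nil) FT.nil))))))) (FT.cons (FT.cons (FT.cons (FT.leaf [(nat_lit 7168529), (nat_lit 7310608), (nat_lit 7456089), (nat_lit 7604034), (nat_lit 7753729), (nat_lit 7904614), (nat_lit 8056246),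 (nat_lit 8208262), (nat_lit 8360366), (nat_lit 8512314)]) (FT.cons (FT.leaf [(nat_lit 7431542), (nat_lit 7576927), (nat_lit 7724563), (nat_lit 7873775), (nat_lit 8024036), (nat_lit 8174928), (nat_lit 8326108), (nat_lit 8477298), (nat_lit 8628267)]) (FT.cons (FT.leaf [(nat_lit 7697113), (nat_lit 7844358), (nat_lit 7993022), (nat_lit 8142607), (nat_lit 8292717), (nat_lit 8443029), (nat_lit 8593280)]) (FT.cons (FT.leaf [(nat_lit 7963387), (nat_lit 8111445), (nat_lit 8260309), (nat_lit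
 8409601), (nat_lit 8559018)]) (FT.cons (FT.leaf [(nat_lit 8229025), (nat_lit 8377127), (nat_lit 8525571), (nat_lit 8674069)]) (FT.cons (FT.leaf [(nat_lit 8493050), (nat_lit 8640620)]) (FT.cons (FT.leaf [(nat_lit 8754743)]) FT.nil))))))) (FT.cons (FT.cons (FT.leaf [(nat_lit 7597801), (nat_lit 7742061), (nat_lit 7888428), (nat_lit 8036253), (nat_lit 8185032), (nat_lit 8334363), (nat_lit 8483922), (nat_lit 8633443)]) (FT.cons (FT.leaf [(nat_lit 7860943), (nat_lit 8006866), (nat_lit 8154104), (nat_lit 8302177), (nat_lit 8450707), (nat_lit 8599384), (nat_lit 8747960)]) (FT.cons (FT.leaf [(nat_lit 8124522), (nat_lit 8271121), (nat_lit 8418449), (nat_lit 8566145), (nat_lit 8713919)]) (FT.cons (FT.leaf [(nat_lit 8387289), (nat_lit 8533837), (nat_lit 8680673), (nat_lit 8827523)]) (FT.cons (FT.leaf [(nat_lit 8648331), (nat_lit 8794285)]) (FT.cons (FT.leaf [(nat_lit 8906978)]) FT.nil)))))) (FT.cons (FT.cons (FT.leaf [(nat_lit 8022661), (nat_lit 8167239),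 (nat_lit 8313036), (nat_lit 8459593), (nat_lit 8606545), (nat_lit 8753598)]) (FT.cons (FT.leaf [(nat_lit 8283525), (nat_lit 8428656), (nat_lit 8574448), (nat_lit 8720555), (nat_lit 8866699)]) (FT.cons (FT.leaf [(nat_lit 8543423), (nat_lit
 8688421), (nat_lit 8833660), (nat_lit 8978876)]) (FT.cons (FT.leaf [(nat_lit 8801504), (nat_lit 8945856)]) (FT.cons (FT.leaf [(nat_lit 9057141)]) FT.nil))))) (FT.cons (FT.cons (FT.leaf [(nat_lit 8440421), (nat_lit 8584081), (nat_lit 8728342)]) (FT.cons (FT.leaf [(nat_lit 8697462), (nat_lit 8840917)]) (FT.cons (FT.leaf [(nat_lit 8952607)]) FT.nil))) (FT.cons (FT.cons (FT.leaf [(nat_lit 8849440)]) (FT.cons (FT.leaf [(nat_lit 9101681)]) FT.nil)) (FT.cons (FT.cons (FT.leaf [(nat_lit 9248764)]) FT.nil) FT.nil)))))) (FT.cons (FT.cons (FT.cons (FT.leaf [(nat_lit 7869791), (nat_lit 8011124), (nat_lit 8154459), (nat_lit 8299171), (nat_lit 8444777), (nat_lit 8590894), (nat_lit 8737214), (nat_lit 8883484)]) (FT.cons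 (FT.leaf [(nat_lit 8127317), (nat_lit 8270193), (nat_lit 8414313), (nat_lit 8559219), (nat_lit 8704547), (nat_lit 8850005), (nat_lit 8995355)]) (FT.cons (FT.leaf [(nat_lit 8385157), (nat_lit 8528641), (nat_lit 8672811), (nat_lit 8817323), (nat_lit 8961900)]) (FT.cons (FT.leaf [(nat_lit 8642140), (nat_lit 8785544), (nat_lit 8929217), (nat_lit 9072895)]) (FT.cons (FT.leaf [(nat_lit 8897410), (nat_lit 9040225)]) (FT.cons (FT.leaf [(nat_lit 9150345)]) FT.nil)))))) (FT.cons (FT.cons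
 (FT.leaf [(nat_lit 8285089), (nat_lit 8426645), (nat_lit 8569360), (nat_lit 8712791), (nat_lit 8856591), (nat_lit 9000478)]) (FT.cons (FT.leaf [(nat_lit 8540281), (nat_lit 8682336), (nat_lit 8825016), (nat_lit 8967991), (nat_lit 9110994)]) (FT.cons (FT.leaf [(nat_lit 8794483), (nat_lit 8936386), (nat_lit 9078515), (nat_lit 9220618)]) (FT.cons (FT.leaf [(nat_lit 9046894), (nat_lit 9188161)]) (FT.cons (FT.leaf [(nat_lit 9296929)]) FT.nil))))) (FT.cons (FT.cons (FT.leaf [(nat_lit 8693378), (nat_lit 8834004), (nat_lit 8975201)]) (FT.cons (FT.leaf [(nat_lit 8944814), (nat_lit 9085225)]) (FT.cons (FT.leaf [(nat_lit 9194394)]) FT.nil))) (FT.cons (FT.cons (FT.leaf [(nat_lit 9093168)]) (FT.cons (FT.leaf [(nat_lit 9339947)]) FT.nil)) (FT.cons (FT.cons (FT.leaf [(nat_lit 9483594)]) FT.nil) FT.nil))))) (FT.cons (FT.cons (FT.cons (FT.leaf [(nat_lit 8540631), (nat_lit 8679272), (nat_lit 8819018), (nat_lit 8959445), (nat_lit 9100217)]) (FT.cons (FT.leaf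 [(nat_lit 8790366), (nat_lit 8929460), (nat_lit 9069151), (nat_lit 9209120)]) (FT.cons (FT.leaf [(nat_lit 9039097), (nat_lit 9178029)]) (FT.cons (FT.leaf [(nat_lit 9286073)]) FT.nil)))) (FT.cons (FT.cons (FT.leaf [(nat_lit 8939831), (nat_lit
 9077539), (nat_lit 9215794)]) (FT.cons (FT.leaf [(nat_lit 9185887), (nat_lit 9323376)]) (FT.cons (FT.leaf [(nat_lit 9430131)]) FT.nil))) (FT.cons (FT.cons (FT.leaf [(nat_lit 9330780)]) (FT.cons (FT.leaf [(nat_lit 9572324)]) FT.nil)) FT.nil))) (FT.cons (FT.cons (FT.cons (FT.leaf [(nat_lit 9180091)]) FT.nil) (FT.cons (FT.cons (FT.leaf [(nat_lit 9562568)]) FT.nil) FT.nil)) (FT.cons (FT.cons (FT.cons (FT.leaf [(nat_lit 9788806)]) FT.nil) FT.nil) (FT.cons (FT.cons (FT.cons (FT.leaf [(nat_lit 10368197)]) FT.nil) FT.nil) (FT.cons (FT.cons (FT.cons (FT.leaf [(nat_lit 10920018)]) FT.nil) FT.nil) FT.nil)))))))) (FT.cons (FT.cons (FT.cons (FT.cons (FT.leaf [(nat_lit 7927948), (nat_lit 8059525), (nat_lit 8194309),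 (nat_lit 8331439), (nat_lit 8470267), (nat_lit 8610287), (nat_lit 8751096), (nat_lit 8892367), (nat_lit 9033830), (nat_lit 9175261)]) (FT.cons (FT.leaf [(nat_lit 8171256), (nat_lit 8306017), (nat_lit 8442935), (nat_lit 8581398), (nat_lit 8720927), (nat_lit 8861141), (nat_lit 9001731), (nat_lit 9142442), (nat_lit 9283062)]) (FT.cons (FT.leaf [(nat_lit 8417192), (nat_lit 8553826), (nat_lit 8691866), (nat_lit 8830858), (nat_lit 8970440), (nat_lit 9110319), (nat_lit 9250255)]) (FT.cons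
 (FT.leaf [(nat_lit 8664085), (nat_lit 8801650), (nat_lit 8940063), (nat_lit 9078980), (nat_lit 9218123)]) (FT.cons (FT.leaf [(nat_lit 8910731), (nat_lit 9048529), (nat_lit 9186752), (nat_lit 9325137)]) (FT.cons (FT.leaf [(nat_lit 9156244), (nat_lit 9293749)]) (FT.cons (FT.leaf [(nat_lit 9399965)]) FT.nil))))))) (FT.cons (FT.cons (FT.leaf [(nat_lit 8324550), (nat_lit 8458393), (nat_lit 8594267), (nat_lit 8731582), (nat_lit 8869878), (nat_lit 9008788), (nat_lit 9148018), (nat_lit 9287324)]) (FT.cons (FT.leaf [(nat_lit 8568479), (nat_lit 8704023), (nat_lit 8840878), (nat_lit 8978608), (nat_lit 9116867), (nat_lit 9255372), (nat_lit 9393895)]) (FT.cons (FT.leaf [(nat_lit 8813130), (nat_lit 8949480), (nat_lit 9086609), (nat_lit 9224186), (nat_lit 9361944)]) (FT.cons (FT.leaf [(nat_lit 9057371), (nat_lit 9193866), (nat_lit 9330737), (nat_lit 9467730)]) (FT.cons (FT.leaf [(nat_lit 9300373), (nat_lit 9436515)]) (FT.cons (FT.leaf [(nat_lit 9541516)])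 FT.nil)))))) (FT.cons (FT.cons (FT.leaf [(nat_lit 8717994), (nat_lit 8852422), (nat_lit 8988078), (nat_lit 9124539), (nat_lit 9261473)]) (FT.cons (FT.leaf [(nat_lit 8960377), (nat_lit 9095502), (nat_lit 9231342), (nat_lit 9367582)]) (FT.cons
 (FT.leaf [(nat_lit 9202211), (nat_lit 9337402)]) (FT.cons (FT.leaf [(nat_lit 9442712)]) (FT.cons (FT.leaf [(nat_lit 9681302)]) FT.nil))))) (FT.cons (FT.cons (FT.leaf [(nat_lit 9105847), (nat_lit 9239738), (nat_lit 9374291)]) (FT.cons (FT.leaf [(nat_lit 9345273), (nat_lit 9479165)]) (FT.cons (FT.leaf [(nat_lit 9583291)]) FT.nil))) (FT.cons (FT.cons (FT.leaf [(nat_lit 9486587)]) (FT.cons (FT.leaf [(nat_lit 9722138)]) FT.nil)) (FT.cons (FT.cons (FT.leaf [(nat_lit 9859286)]) FT.nil) FT.nil)))))) (FT.cons (FT.cons (FT.cons (FT.leaf [(nat_lit 8574781), (nat_lit 8706177), (nat_lit 8839507), (nat_lit 8974205), (nat_lit 9109826), (nat_lit 9246022)]) (FT.cons (FT.leaf [(nat_lit 8814003), (nat_lit 8946987), (nat_lit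 9081216), (nat_lit 9216272), (nat_lit 9351823)]) (FT.cons (FT.leaf [(nat_lit 9053824), (nat_lit 9187545), (nat_lit 9322004), (nat_lit 9456883)]) (FT.cons (FT.leaf [(nat_lit 9293179), (nat_lit 9427011)]) (FT.cons (FT.leaf [(nat_lit 9531286)]) (FT.cons (FT.leaf [(nat_lit 9767566)]) FT.nil)))))) (FT.cons (FT.cons (FT.leaf [(nat_lit 8960198), (nat_lit 9092082), (nat_lit 9225135), (nat_lit 9358951), (nat_lit 9493212)]) (FT.cons (FT.leaf [(nat_lit 9197798), (nat_lit 9330320), (nat_lit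
 9463523), (nat_lit 9597101)]) (FT.cons (FT.leaf [(nat_lit 9434807), (nat_lit 9567370)]) (FT.cons (FT.leaf [(nat_lit 9670488)]) (FT.cons (FT.leaf [(nat_lit 9904296)]) FT.nil))))) (FT.cons (FT.cons (FT.leaf [(nat_lit 9340052), (nat_lit 9471371), (nat_lit 9603320)]) (FT.cons (FT.leaf [(nat_lit 9574721), (nat_lit 9706021)]) (FT.cons (FT.leaf [(nat_lit 9807995)]) FT.nil))) (FT.cons (FT.cons (FT.leaf [(nat_lit 9712949)]) (FT.cons (FT.leaf [(nat_lit 9943834)]) FT.nil)) (FT.cons (FT.cons (FT.leaf [(nat_lit 10078035)]) FT.nil) FT.nil))))) (FT.cons (FT.cons (FT.cons (FT.leaf [(nat_lit 9196607), (nat_lit 9326025), (nat_lit 9456560), (nat_lit 9587822)]) (FT.cons (FT.leaf [(nat_lit 9429581), (nat_lit 9559589), (nat_lit 9690246)]) (FT.cons (FT.leaf [(nat_lit 9661937)]) FT.nil))) (FT.cons (FT.cons (FT.leaf [(nat_lit 9568749), (nat_lit 9697583)]) (FT.cons (FT.leaf [(nat_lit 9798830)]) FT.nil)) (FT.cons (FT.cons (FT.leaf [(nat_lit 9934098)]) FT.nil) FT.nil)))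 (FT.cons (FT.cons (FT.cons (FT.leaf [(nat_lit 9792175)]) FT.nil) (FT.cons (FT.cons (FT.leaf [(nat_lit 10150260)]) FT.nil) FT.nil)) (FT.cons (FT.cons (FT.cons (FT.leaf [(nat_lit 10361652)]) FT.nil) FT.nil) (FT.cons (FT.cons (FT.cons (FT.leaf
 [(nat_lit 10905932)]) FT.nil) FT.nil) FT.nil)))))) (FT.cons (FT.cons (FT.cons (FT.cons (FT.leaf [(nat_lit 9221957), (nat_lit 9344984), (nat_lit 9469876), (nat_lit 9596107), (nat_lit 9723271), (nat_lit 9851046)]) (FT.cons (FT.leaf [(nat_lit 9445763), (nat_lit 9570387), (nat_lit 9696242), (nat_lit 9822941), (nat_lit 9950177)]) (FT.cons (FT.leaf [(nat_lit 9670353), (nat_lit 9795795), (nat_lit 9921998), (nat_lit 10048671)]) (FT.cons (FT.leaf [(nat_lit 9894752), (nat_lit 10020434)]) FT.nil)))) (FT.cons (FT.cons (FT.leaf [(nat_lit 9582204), (nat_lit 9705893), (nat_lit 9830745), (nat_lit 9956382), (nat_lit 10082511)]) (FT.cons (FT.leaf [(nat_lit 9804895), (nat_lit 9929312), (nat_lit 10054439), (nat_lit 10179993)])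 (FT.cons (FT.leaf [(nat_lit 10027280), (nat_lit 10151872)]) FT.nil))) (FT.cons (FT.cons (FT.leaf [(nat_lit 9937953), (nat_lit 10061340)]) (FT.cons (FT.leaf [(nat_lit 10158325)]) FT.nil)) (FT.cons (FT.cons (FT.leaf [(nat_lit 10287907)]) FT.nil) FT.nil)))) (FT.cons (FT.cons (FT.cons (FT.leaf [(nat_lit 9802483), (nat_lit 9924050), (nat_lit 10046730), (nat_lit 10170161)]) (FT.cons (FT.leaf [(nat_lit 10021189), (nat_lit 10143434), (nat_lit 10266358)]) (FT.cons (FT.leaf [(nat_lit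
 10239551)]) FT.nil))) (FT.cons (FT.cons (FT.leaf [(nat_lit 10151580), (nat_lit 10272818)]) (FT.cons (FT.leaf [(nat_lit 10367979)]) FT.nil)) (FT.cons (FT.cons (FT.leaf [(nat_lit 10494993)]) FT.nil) FT.nil))) (FT.cons (FT.cons (FT.cons (FT.leaf [(nat_lit 10360655)]) FT.nil) (FT.cons (FT.cons (FT.leaf [(nat_lit 10697749)]) FT.nil) FT.nil)) (FT.cons (FT.cons (FT.cons (FT.leaf [(nat_lit 10896348)]) FT.nil) FT.nil) FT.nil)))) (FT.cons (FT.cons (FT.cons (FT.cons (FT.leaf [(nat_lit 10366021), (nat_lit 10480804), (nat_lit 10596684)]) (FT.cons (FT.leaf [(nat_lit 10572394), (nat_lit 10687910)]) (FT.cons (FT.leaf [(nat_lit 10778625)]) FT.nil))) (FT.cons (FT.cons (FT.leaf [(nat_lit 10695199)]) (FT.cons (FT.leaf [(nat_lit 10899713)]) FT.nil)) (FT.cons (FT.cons (FT.leaf [(nat_lit 11019554)]) FT.nil) FT.nil))) (FT.cons (FT.cons (FT.cons (FT.leaf [(nat_lit 10891861)]) FT.nil) (FT.cons (FT.cons (FT.leaf [(nat_lit 11210655)]) FT.nil) FT.nil)) FT.nil)) (FT.cons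 (FT.cons (FT.cons (FT.cons (FT.leaf [(nat_lit 11390784)]) FT.nil) FT.nil) FT.nil) (FT.cons (FT.cons (FT.cons (FT.cons (FT.leaf [(nat_lit 12318598)]) FT.nil) FT.nil) FT.nil) FT.nil)))))))

def f168_1_813 : FT := (FT.cons (FT.cons (FT.cons (FT.cons (FT.leaf [(nat_lit 4774740), (nat_lit 4916038), (nat_lit 5067716), (nat_lit 5227146), (nat_lit 5392434), (nat_lit 5562142), (nat_lit 5735144), (nat_lit 5910538), (nat_lit 6087588), (nat_lit 6265693), (nat_lit 6444351), (nat_lit 6623146), (nat_lit 6801732)]) (FT.cons (FT.leaf [(nat_lit 5053530), (nat_lit 5207266), (nat_lit 5368068), (nat_lit 5534172), (nat_lit 5704238), (nat_lit 5877223), (nat_lit 6052288), (nat_lit 6228753), (nat_lit 6406059), (nat_lit 6583742), (nat_lit 6761419), (nat_lit 6938770)]) (FT.cons (FT.leaf [(nat_lit 5347084), (nat_lit 5508920), (nat_lit 5675566), (nat_lit 5845770), (nat_lit 6018558), (nat_lit 6193150), (nat_lit 6368913), (nat_lit 6545327), (nat_lit 6721964), (nat_lit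 6898468)]) (FT.cons (FT.leaf [(nat_lit 5649525), (nat_lit 5816477), (nat_lit 5986627), (nat_lit 6159064), (nat_lit 6333057), (nat_lit 6508017), (nat_lit 6683461), (nat_lit 6858989), (nat_lit 7034271)]) (FT.cons (FT.leaf [(nat_lit 5956785), (nat_lit 6126716), (nat_lit 6298666), (nat_lit 6471953), (nat_lit 6646025), (nat_lit 6820431), (nat_lit 6994798)]) (FT.cons (FT.leaf [(nat_lit 6265956), (nat_lit 6437304), (nat_lit 6609791), (nat_lit 6782901), (nat_lit
 6956210)]) (FT.cons (FT.leaf [(nat_lit 6574927), (nat_lit 6746534), (nat_lit 6918618), (nat_lit 7090782)]) (FT.cons (FT.leaf [(nat_lit 6882150), (nat_lit 7053154)]) (FT.cons (FT.leaf [(nat_lit 7186492)]) FT.nil))))))))) (FT.cons (FT.cons (FT.leaf [(nat_lit 5252242), (nat_lit 5406173), (nat_lit 5566686), (nat_lit 5732086), (nat_lit 5901100), (nat_lit 6072740), (nat_lit 6246220), (nat_lit 6420901), (nat_lit 6596262), (nat_lit 6771872), (nat_lit 6947376)]) (FT.cons (FT.leaf [(nat_lit 5545141),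 (nat_lit 5706425), (nat_lit 5872153), (nat_lit 6041132), (nat_lit 6212438), (nat_lit 6385336), (nat_lit 6559232), (nat_lit 6733640), (nat_lit 6908159), (nat_lit 7082458)]) (FT.cons (FT.leaf [(nat_lit 5845776), (nat_lit 6011627), (nat_lit 6180406), (nat_lit 6351244), (nat_lit 6523453), (nat_lit 6696478), (nat_lit 6869866), (nat_lit 7043242), (nat_lit 7216298)]) (FT.cons (FT.leaf [(nat_lit 6150408), (nat_lit 6318843), (nat_lit 6489097), (nat_lit 6660525), (nat_lit 6832606), (nat_lit 7004915), (nat_lit 7177104)]) (FT.cons (FT.leaf [(nat_lit 6456378), (nat_lit 6625948), (nat_lit 6796514), (nat_lit 6967588), (nat_lit 7138770)]) (FT.cons (FT.leaf [(nat_lit 6761754), (nat_lit 6931390), (nat_lit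
 7101403), (nat_lit 7271418)]) (FT.cons (FT.leaf [(nat_lit 7065128), (nat_lit 7234034)]) (FT.cons (FT.leaf [(nat_lit 7365471)]) FT.nil)))))))) (FT.cons (FT.cons (FT.leaf [(nat_lit 5741019), (nat_lit 5901543), (nat_lit 6066188), (nat_lit 6233815), (nat_lit 6403543), (nat_lit 6574679), (nat_lit 6746662), (nat_lit 6919037), (nat_lit 7091429), (nat_lit 7263527)]) (FT.cons (FT.leaf [(nat_lit 6039535), (nat_lit 6204150), (nat_lit 6371453), (nat_lit 6540617), (nat_lit 6710990), (nat_lit 6882048), (nat_lit 7053363), (nat_lit 7224587), (nat_lit 7395428)]) (FT.cons (FT.leaf [(nat_lit 6341346), (nat_lit 6508201), (nat_lit 6676701), (nat_lit 6846232), (nat_lit 7016301), (nat_lit 7186508), (nat_lit 7356527)]) (FT.cons (FT.leaf [(nat_lit 6644005), (nat_lit 6811753), (nat_lit 6980373), (nat_lit 7149401), (nat_lit 7318460)]) (FT.cons (FT.leaf [(nat_lit 6945741), (nat_lit 7113391), (nat_lit 7281331), (nat_lit 7449207)]) (FT.cons (FT.leaf [(nat_lit 7245265),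 (nat_lit 7412079)]) FT.nil)))))) (FT.cons (FT.cons (FT.leaf [(nat_lit 6230739), (nat_lit 6394010), (nat_lit 6559756), (nat_lit 6727189), (nat_lit 6895689), (nat_lit 7064759)]) (FT.cons (FT.leaf [(nat_lit 6529580), (nat_lit 6694791), (nat_lit
 6861494), (nat_lit 7029102), (nat_lit 7197150)]) (FT.cons (FT.leaf [(nat_lit 6828850), (nat_lit 6994746), (nat_lit 7161405), (nat_lit 7328385)]) (FT.cons (FT.leaf [(nat_lit 7126921), (nat_lit 7292578)]) (FT.cons (FT.leaf [(nat_lit 7422608)]) FT.nil))))) (FT.cons (FT.cons (FT.leaf [(nat_lit 6715105), (nat_lit 6878625), (nat_lit 7043501), (nat_lit 7209173), (nat_lit 7375199)]) (FT.cons (FT.leaf [(nat_lit 7010935), (nat_lit 7174960), (nat_lit 7339652), (nat_lit 7504590)]) (FT.cons (FT.leaf [(nat_lit 7305333), (nat_lit 7469001)]) FT.nil))) (FT.cons (FT.cons (FT.leaf [(nat_lit 7190290), (nat_lit 7352434)]) (FT.cons (FT.leaf [(nat_lit 7481022)]) FT.nil)) (FT.cons (FT.cons (FT.leaf [(nat_lit 7654036)]) FT.nil)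 (FT.cons (FT.cons (FT.leaf [(nat_lit 8105102)]) FT.nil) (FT.cons (FT.cons (FT.leaf [(nat_lit 8542905)]) FT.nil) FT.nil))))))))) (FT.cons (FT.cons (FT.cons (FT.leaf [(nat_lit 5590461), (nat_lit 5741782), (nat_lit 5899265), (nat_lit 6061283), (nat_lit 6226626), (nat_lit 6394363), (nat_lit 6563754), (nat_lit 6734207), (nat_lit 6905237), (nat_lit 7076445), (nat_lit 7247501)]) (FT.cons (FT.leaf [(nat_lit 5877667), (nat_lit 6035731), (nat_lit 6197929), (nat_lit 6363126), (nat_lit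
 6530450), (nat_lit 6699208), (nat_lit 6868848), (nat_lit 7038916), (nat_lit 7209041), (nat_lit 7378915)]) (FT.cons (FT.leaf [(nat_lit 6171723), (nat_lit 6333924), (nat_lit 6498834), (nat_lit 6665630), (nat_lit 6833665), (nat_lit 7002419), (nat_lit 7171469), (nat_lit 7340467), (nat_lit 7509128)]) (FT.cons (FT.leaf [(nat_lit 6469186), (nat_lit 6633685), (nat_lit 6799854), (nat_lit 6967086), (nat_lit 7134893), (nat_lit 7302877), (nat_lit 7470713)]) (FT.cons (FT.leaf [(nat_lit 6767624), (nat_lit 6933082), (nat_lit 7099443), (nat_lit 7266249), (nat_lit 7433126)]) (FT.cons (FT.leaf [(nat_lit 7065279), (nat_lit 7230712), (nat_lit 7396472), (nat_lit 7562208)]) (FT.cons (FT.leaf [(nat_lit 7360873), (nat_lit 7525549)]) FT.nil))))))) (FT.cons (FT.cons (FT.leaf [(nat_lit 6068395), (nat_lit 6225581), (nat_lit 6386616), (nat_lit 6550415), (nat_lit 6716145), (nat_lit 6883152), (nat_lit 7050911), (nat_lit 7218994), (nat_lit 7387056), (nat_lit 7554805)])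 (FT.cons (FT.leaf [(nat_lit 6360180), (nat_lit 6521092), (nat_lit 6684501), (nat_lit 6849626), (nat_lit 7015849), (nat_lit 7182679), (nat_lit 7349716), (nat_lit 7516633), (nat_lit 7683160)]) (FT.cons (FT.leaf [(nat_lit 6654777), (nat_lit 6817690),
 (nat_lit 6982123), (nat_lit 7147495), (nat_lit 7313343), (nat_lit 7479292), (nat_lit 7645035)]) (FT.cons (FT.leaf [(nat_lit 6949937), (nat_lit 7113604), (nat_lit 7278067), (nat_lit 7442888), (nat_lit 7607714)]) (FT.cons (FT.leaf [(nat_lit 7244041), (nat_lit 7407544), (nat_lit 7571300), (nat_lit 7734976)]) (FT.cons (FT.leaf [(nat_lit 7535912), (nat_lit 7698571)]) FT.nil)))))) (FT.cons (FT.cons (FT.leaf [(nat_lit 6546118), (nat_lit 6705656), (nat_lit 6867505), (nat_lit 7030916), (nat_lit 7195304), (nat_lit 7360200)]) (FT.cons (FT.leaf [(nat_lit 6837738), (nat_lit 6999019), (nat_lit 7161685), (nat_lit 7325183), (nat_lit 7489071)]) (FT.cons (FT.leaf [(nat_lit 7129568), (nat_lit 7291425), (nat_lit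 7453982), (nat_lit 7616824)]) (FT.cons (FT.leaf [(nat_lit 7420112), (nat_lit 7581686)]) (FT.cons (FT.leaf [(nat_lit 7708284)]) FT.nil))))) (FT.cons (FT.cons (FT.leaf [(nat_lit 7018077), (nat_lit 7177693), (nat_lit 7338573), (nat_lit 7500191), (nat_lit 7662123)]) (FT.cons (FT.leaf [(nat_lit 7306546), (nat_lit 7466582), (nat_lit 7627235), (nat_lit 7788108)]) (FT.cons (FT.leaf [(nat_lit 7593536), (nat_lit 7753188)]) FT.nil))) (FT.cons (FT.cons (FT.leaf [(nat_lit 7480906), (nat_lit 7639118)])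
 (FT.cons (FT.leaf [(nat_lit 7764356)]) FT.nil)) (FT.cons (FT.cons (FT.leaf [(nat_lit 7932624)]) FT.nil) (FT.cons (FT.cons (FT.leaf [(nat_lit 8372146)]) FT.nil) (FT.cons (FT.cons (FT.leaf [(nat_lit 8798972)]) FT.nil) FT.nil)))))))) (FT.cons (FT.cons (FT.cons (FT.leaf [(nat_lit 6385804), (nat_lit 6539674), (nat_lit 6697161), (nat_lit 6857226), (nat_lit 7019080), (nat_lit 7182102), (nat_lit 7345800), (nat_lit 7509772)]) (FT.cons (FT.leaf [(nat_lit 6670968), (nat_lit 6828260), (nat_lit 6987890), (nat_lit 7149111), (nat_lit 7311341), (nat_lit 7474115), (nat_lit 7637057)]) (FT.cons (FT.leaf [(nat_lit 6958558), (nat_lit 7117658), (nat_lit 7278172), (nat_lit 7439552), (nat_lit 7601358)]) (FT.cons (FT.leaf [(nat_lit 7246494), (nat_lit 7406238), (nat_lit 7566716), (nat_lit 7727515)]) (FT.cons (FT.leaf [(nat_lit 7533285), (nat_lit 7692819)]) (FT.cons (FT.leaf [(nat_lit 7817849)]) FT.nil)))))) (FT.cons (FT.cons (FT.leaf [(nat_lit 6851842), (nat_lit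 7007750), (nat_lit 7165830), (nat_lit 7325368), (nat_lit 7485807), (nat_lit 7646706)]) (FT.cons (FT.leaf [(nat_lit 7136478), (nat_lit 7293970), (nat_lit 7452757), (nat_lit 7612315), (nat_lit 7772224)]) (FT.cons (FT.leaf [(nat_lit 7421160), (nat_lit
 7579141), (nat_lit 7737774), (nat_lit 7896662)]) (FT.cons (FT.leaf [(nat_lit 7704503), (nat_lit 7862173)]) (FT.cons (FT.leaf [(nat_lit 7985506)]) FT.nil))))) (FT.cons (FT.cons (FT.leaf [(nat_lit 7311868), (nat_lit 7467728), (nat_lit 7624777), (nat_lit 7782513), (nat_lit 7940536)]) (FT.cons (FT.leaf [(nat_lit 7593280), (nat_lit 7749495), (nat_lit 7906288), (nat_lit 8063279)]) (FT.cons (FT.leaf [(nat_lit 7873190), (nat_lit 8029007)]) FT.nil))) (FT.cons (FT.cons (FT.leaf [(nat_lit 7762891), (nat_lit 7917342)]) (FT.cons (FT.leaf [(nat_lit 8039391)]) FT.nil)) (FT.cons (FT.cons (FT.leaf [(nat_lit 8203154)]) FT.nil) (FT.cons (FT.cons (FT.leaf [(nat_lit 8631699)]) FT.nil) FT.nil)))))) (FT.cons (FT.cons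 (FT.cons (FT.leaf [(nat_lit 7148396), (nat_lit 7300788), (nat_lit 7455233), (nat_lit 7611046), (nat_lit 7767699), (nat_lit 7924772)]) (FT.cons (FT.leaf [(nat_lit 7426295), (nat_lit 7580140), (nat_lit 7735206), (nat_lit 7890990), (nat_lit 8047097)]) (FT.cons (FT.leaf [(nat_lit 7704120), (nat_lit 7858388), (nat_lit 8013267), (nat_lit 8168379)]) (FT.cons (FT.leaf [(nat_lit 7980579), (nat_lit 8134519)]) FT.nil)))) (FT.cons (FT.cons (FT.leaf [(nat_lit 7596968), (nat_lit 7749220), (nat_lit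
 7902599), (nat_lit 8056622), (nat_lit 8210909)]) (FT.cons (FT.leaf [(nat_lit 7871619), (nat_lit 8024177), (nat_lit 8177280), (nat_lit 8330568)]) (FT.cons (FT.leaf [(nat_lit 8144768), (nat_lit 8296923)]) FT.nil))) (FT.cons (FT.cons (FT.leaf [(nat_lit 8036717)]) (FT.cons (FT.leaf [(nat_lit 8306581)]) FT.nil)) (FT.cons (FT.cons (FT.leaf [(nat_lit 8466068)]) FT.nil) (FT.cons (FT.cons (FT.leaf [(nat_lit 8884166)]) FT.nil) FT.nil))))) (FT.cons (FT.cons (FT.cons (FT.leaf [(nat_lit 7873843), (nat_lit 8022628), (nat_lit 8172490)]) (FT.cons (FT.leaf [(nat_lit 8142017), (nat_lit 8291076)]) (FT.cons (FT.leaf [(nat_lit 8408706)]) FT.nil))) (FT.cons (FT.cons (FT.leaf [(nat_lit 8302822)]) (FT.cons (FT.leaf [(nat_lit 8566352)]) FT.nil)) (FT.cons (FT.cons (FT.leaf [(nat_lit 8721774)]) FT.nil) FT.nil))) (FT.cons (FT.cons (FT.cons (FT.leaf [(nat_lit 8561617)]) FT.nil) (FT.cons (FT.cons (FT.leaf [(nat_lit 8970653)]) FT.nil) FT.nil)) (FT.cons (FT.cons (FT.cons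 (FT.leaf [(nat_lit 9213057)]) FT.nil) FT.nil) (FT.cons (FT.cons (FT.cons (FT.leaf [(nat_lit 9830291)]) FT.nil) FT.nil) (FT.cons (FT.cons (FT.cons (FT.leaf [(nat_lit 10415739)]) FT.nil) FT.nil) FT.nil))))))))) (FT.cons (FT.cons (FT.cons (FT.cons
 (FT.leaf [(nat_lit 6499343), (nat_lit 6637668), (nat_lit 6781622), (nat_lit 6929751), (nat_lit 7080978), (nat_lit 7234477), (nat_lit 7389597), (nat_lit 7545814), (nat_lit 7702697), (nat_lit 7859895), (nat_lit 8017115)]) (FT.cons (FT.leaf [(nat_lit 6761429), (nat_lit 6905961), (nat_lit 7054323), (nat_lit 7205504), (nat_lit 7358728), (nat_lit 7513384), (nat_lit 7668980), (nat_lit 7825115), (nat_lit 7981459), (nat_lit 8137736)]) (FT.cons (FT.leaf [(nat_lit 7029940), (nat_lit 7178388), (nat_lit 7329402), (nat_lit 7482255), (nat_lit 7636369), (nat_lit 7791283), (nat_lit 7946620), (nat_lit 8102069), (nat_lit 8257374)]) (FT.cons (FT.leaf [(nat_lit 7301876), (nat_lit 7452620), (nat_lit 7605016), (nat_lit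 7758520), (nat_lit 7912697), (nat_lit 8067192), (nat_lit 8221714)]) (FT.cons (FT.leaf [(nat_lit 7575111), (nat_lit 7726976), (nat_lit 7879810), (nat_lit 8033204), (nat_lit 8186820)]) (FT.cons (FT.leaf [(nat_lit 7848105), (nat_lit 8000218), (nat_lit 8152787), (nat_lit 8305493)]) (FT.cons (FT.leaf [(nat_lit 8119726), (nat_lit 8271433)]) FT.nil))))))) (FT.cons (FT.cons (FT.leaf [(nat_lit 6934594), (nat_lit 7078458), (nat_lit 7225913), (nat_lit 7375988), (nat_lit 7527941), (nat_lit 7681190),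
 (nat_lit 7835268), (nat_lit 7989794), (nat_lit 8144456), (nat_lit 8298996)]) (FT.cons (FT.leaf [(nat_lit 7201315), (nat_lit 7348748), (nat_lit 7498572), (nat_lit 7650086), (nat_lit 7802741), (nat_lit 7956097), (nat_lit 8109796), (nat_lit 8263546), (nat_lit 8417101)]) (FT.cons (FT.leaf [(nat_lit 7470960), (nat_lit 7620440), (nat_lit 7771440), (nat_lit 7923442), (nat_lit 8076029), (nat_lit 8228865), (nat_lit 8381673)]) (FT.cons (FT.leaf [(nat_lit 7741553), (nat_lit 7891975), (nat_lit 8043271), (nat_lit 8195048), (nat_lit 8346989)]) (FT.cons (FT.leaf [(nat_lit 8011665), (nat_lit 8162210), (nat_lit 8313142), (nat_lit 8464160)]) (FT.cons (FT.leaf [(nat_lit 8280245), (nat_lit 8430301)]) FT.nil)))))) (FT.cons (FT.cons (FT.leaf [(nat_lit 7370640), (nat_lit 7516988), (nat_lit 7665568), (nat_lit 7815706), (nat_lit 7966877), (nat_lit 8118663)]) (FT.cons (FT.leaf [(nat_lit 7637899), (nat_lit 7786073), (nat_lit 7935649), (nat_lit 8086131), (nat_lit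 8237122)]) (FT.cons (FT.leaf [(nat_lit 7905801), (nat_lit 8054759), (nat_lit 8204506), (nat_lit 8354666)]) (FT.cons (FT.leaf [(nat_lit 8173014), (nat_lit 8321986)]) (FT.cons (FT.leaf [(nat_lit 8438562)]) FT.nil))))) (FT.cons (FT.cons (FT.leaf
 [(nat_lit 7802697), (nat_lit 7949531), (nat_lit 8097663), (nat_lit 8246615), (nat_lit 8396007)]) (FT.cons (FT.leaf [(nat_lit 8067872), (nat_lit 8215352), (nat_lit 8363545), (nat_lit 8512091)]) (FT.cons (FT.leaf [(nat_lit 8332181), (nat_lit 8479580)]) FT.nil))) (FT.cons (FT.cons (FT.leaf [(nat_lit 8227790), (nat_lit 8373783)]) (FT.cons (FT.leaf [(nat_lit 8489197)]) FT.nil)) (FT.cons (FT.cons (FT.leaf [(nat_lit 8644098)]) FT.nil) (FT.cons (FT.cons (FT.leaf [(nat_lit 9050547)]) FT.nil) FT.nil))))))) (FT.cons (FT.cons (FT.cons (FT.leaf [(nat_lit 7221807), (nat_lit 7362990), (nat_lit 7507569), (nat_lit 7654611), (nat_lit 7803407), (nat_lit 7953403), (nat_lit 8104156), (nat_lit 8255306)]) (FT.cons (FT.leaf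 [(nat_lit 7483159), (nat_lit 7627655), (nat_lit 7774402), (nat_lit 7922731), (nat_lit 8072119), (nat_lit 8222148), (nat_lit 8372480)]) (FT.cons (FT.leaf [(nat_lit 7747103), (nat_lit 7893474), (nat_lit 8041271), (nat_lit 8190000), (nat_lit 8339264)]) (FT.cons (FT.leaf [(nat_lit 8011795), (nat_lit 8159003), (nat_lit 8307025), (nat_lit 8455489)]) (FT.cons (FT.leaf [(nat_lit 8275905), (nat_lit 8423183)]) (FT.cons (FT.leaf [(nat_lit 8538459)]) FT.nil)))))) (FT.cons (FT.cons (FT.leaf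
 [(nat_lit 7648362), (nat_lit 7791757), (nat_lit 7937262), (nat_lit 8084230), (nat_lit 8232162), (nat_lit 8380657)]) (FT.cons (FT.leaf [(nat_lit 7909925), (nat_lit 8055000), (nat_lit 8201397), (nat_lit 8348639), (nat_lit 8496349)]) (FT.cons (FT.leaf [(nat_lit 8171971), (nat_lit 8317744), (nat_lit 8464257), (nat_lit 8611150)]) (FT.cons (FT.leaf [(nat_lit 8433257), (nat_lit 8579005)]) (FT.cons (FT.leaf [(nat_lit 8692873)]) FT.nil))))) (FT.cons (FT.cons (FT.leaf [(nat_lit 8070669), (nat_lit 8214424), (nat_lit 8359405), (nat_lit 8505156), (nat_lit 8651313)]) (FT.cons (FT.leaf [(nat_lit 8330046), (nat_lit 8474377), (nat_lit 8619378), (nat_lit 8764707)]) (FT.cons (FT.leaf [(nat_lit 8588510), (nat_lit 8732732)]) FT.nil))) (FT.cons (FT.cons (FT.leaf [(nat_lit 8486046), (nat_lit 8628929)]) (FT.cons (FT.leaf [(nat_lit 8741696)]) FT.nil)) (FT.cons (FT.cons (FT.leaf [(nat_lit 8892851)]) FT.nil) (FT.cons (FT.cons (FT.leaf [(nat_lit 9290120)]) FT.nil)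 FT.nil)))))) (FT.cons (FT.cons (FT.cons (FT.leaf [(nat_lit 7918623), (nat_lit 8059139), (nat_lit 8201660), (nat_lit 8345564), (nat_lit 8490370), (nat_lit 8635698)]) (FT.cons (FT.leaf [(nat_lit 8174659), (nat_lit 8316735), (nat_lit 8460061),
 (nat_lit 8604182), (nat_lit 8748737)]) (FT.cons (FT.leaf [(nat_lit 8431054), (nat_lit 8573758), (nat_lit 8717158), (nat_lit 8860912)]) (FT.cons (FT.leaf [(nat_lit 8686639), (nat_lit 8829288)]) FT.nil)))) (FT.cons (FT.cons (FT.leaf [(nat_lit 8331516), (nat_lit 8472295), (nat_lit 8614239), (nat_lit 8756909), (nat_lit 8899958)]) (FT.cons (FT.leaf [(nat_lit 8585306), (nat_lit 8726604), (nat_lit 8868537), (nat_lit 9010776)]) (FT.cons (FT.leaf [(nat_lit 8838153), (nat_lit 8979323)]) FT.nil))) (FT.cons (FT.cons (FT.leaf [(nat_lit 8737559)]) (FT.cons (FT.leaf [(nat_lit 8987681)]) FT.nil)) (FT.cons (FT.cons (FT.leaf [(nat_lit 9135258)]) FT.nil) (FT.cons (FT.cons (FT.leaf [(nat_lit 9523742)]) FT.nil) FT.nil)))))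 (FT.cons (FT.cons (FT.cons (FT.leaf [(nat_lit 8585574), (nat_lit 8723481), (nat_lit 8862498)]) (FT.cons (FT.leaf [(nat_lit 8833984), (nat_lit 8972363)]) (FT.cons (FT.leaf [(nat_lit 9081434)]) FT.nil))) (FT.cons (FT.cons (FT.leaf [(nat_lit 8982654)]) (FT.cons (FT.leaf [(nat_lit 9227467)]) FT.nil)) (FT.cons (FT.cons (FT.leaf [(nat_lit 9371626)]) FT.nil) FT.nil))) (FT.cons (FT.cons (FT.cons (FT.leaf [(nat_lit 9221634)]) FT.nil) (FT.cons (FT.cons (FT.leaf [(nat_lit 9602241)]) FT.nil)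
 FT.nil)) (FT.cons (FT.cons (FT.cons (FT.leaf [(nat_lit 9827370)]) FT.nil) FT.nil) (FT.cons (FT.cons (FT.cons (FT.leaf [(nat_lit 10404140)]) FT.nil) FT.nil) (FT.cons (FT.cons (FT.cons (FT.leaf [(nat_lit 10953645)]) FT.nil) FT.nil) FT.nil)))))))) (FT.cons (FT.cons (FT.cons (FT.cons (FT.leaf [(nat_lit 7975968), (nat_lit 8106815), (nat_lit 8240860), (nat_lit 8377250), (nat_lit 8515339), (nat_lit 8654626), (nat_lit 8794708), (nat_lit 8935261)]) (FT.cons (FT.leaf [(nat_lit 8217920), (nat_lit 8351952), (nat_lit 8488140), (nat_lit 8625876), (nat_lit 8764683), (nat_lit 8904183), (nat_lit 9044068)]) (FT.cons (FT.leaf [(nat_lit 8462522), (nat_lit 8598437), (nat_lit 8735761), (nat_lit 8874043), (nat_lit 9012923)]) (FT.cons (FT.leaf [(nat_lit 8708113), (nat_lit 8844973), (nat_lit 8982688), (nat_lit 9120915)]) (FT.cons (FT.leaf [(nat_lit 8953493), (nat_lit 9090605)]) (FT.cons (FT.leaf [(nat_lit 9197782)]) FT.nil)))))) (FT.cons (FT.cons (FT.leaf [(nat_lit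 8370353), (nat_lit 8503485), (nat_lit 8638648), (nat_lit 8775254), (nat_lit 8912846), (nat_lit 9051063)]) (FT.cons (FT.leaf [(nat_lit 8612983), (nat_lit 8747825), (nat_lit 8883984), (nat_lit 9021023), (nat_lit 9158599)]) (FT.cons (FT.leaf
 [(nat_lit 8856366), (nat_lit 8992030), (nat_lit 9128479), (nat_lit 9265386)]) (FT.cons (FT.leaf [(nat_lit 9099377), (nat_lit 9235204)]) (FT.cons (FT.leaf [(nat_lit 9341188)]) FT.nil))))) (FT.cons (FT.cons (FT.leaf [(nat_lit 8761695), (nat_lit 8895441), (nat_lit 9030418), (nat_lit 9166208), (nat_lit 9302477)]) (FT.cons (FT.leaf [(nat_lit 9002846), (nat_lit 9137302), (nat_lit 9272483), (nat_lit 9408069)]) (FT.cons (FT.leaf [(nat_lit 9243483), (nat_lit 9378025)]) FT.nil))) (FT.cons (FT.cons (FT.leaf [(nat_lit 9147571)]) (FT.cons (FT.leaf [(nat_lit 9385834)]) FT.nil)) (FT.cons (FT.cons (FT.leaf [(nat_lit 9526457)]) FT.nil) (FT.cons (FT.cons (FT.leaf [(nat_lit 9897423)]) FT.nil) FT.nil)))))) (FT.cons (FT.cons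 (FT.cons (FT.leaf [(nat_lit 8619170), (nat_lit 8749890), (nat_lit 8882546), (nat_lit 9016570), (nat_lit 9151524), (nat_lit 9287061)]) (FT.cons (FT.leaf [(nat_lit 8857159), (nat_lit 8989477), (nat_lit 9123045), (nat_lit 9257445), (nat_lit 9392347)]) (FT.cons (FT.leaf [(nat_lit 9095778), (nat_lit 9228848), (nat_lit 9362661), (nat_lit 9496903)]) (FT.cons (FT.leaf [(nat_lit 9333965), (nat_lit 9467163)]) FT.nil)))) (FT.cons (FT.cons (FT.leaf [(nat_lit 9002596), (nat_lit 9133831),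
 (nat_lit 9266239), (nat_lit 9399417), (nat_lit 9533047)]) (FT.cons (FT.leaf [(nat_lit 9239025), (nat_lit 9370913), (nat_lit 9503488), (nat_lit 9636446)]) (FT.cons (FT.leaf [(nat_lit 9474898), (nat_lit 9606844)]) FT.nil))) (FT.cons (FT.cons (FT.leaf [(nat_lit 9380575)]) (FT.cons (FT.leaf [(nat_lit 9614138)]) FT.nil)) (FT.cons (FT.cons (FT.leaf [(nat_lit 9751712)]) FT.nil) (FT.cons (FT.cons (FT.leaf [(nat_lit 10115152)]) FT.nil) FT.nil))))) (FT.cons (FT.cons (FT.cons (FT.leaf [(nat_lit 9237773), (nat_lit 9366574), (nat_lit 9496496)]) (FT.cons (FT.leaf [(nat_lit 9469636), (nat_lit 9599040)]) (FT.cons (FT.leaf [(nat_lit 9700911)]) FT.nil))) (FT.cons (FT.cons (FT.leaf [(nat_lit 9608134)]) (FT.cons (FT.leaf [(nat_lit 9837165)]) FT.nil)) (FT.cons (FT.cons (FT.leaf [(nat_lit 9971810)]) FT.nil) FT.nil))) (FT.cons (FT.cons (FT.cons (FT.leaf [(nat_lit 9830485)]) FT.nil) (FT.cons (FT.cons (FT.leaf [(nat_lit 10186979)]) FT.nil) FT.nil)) (FT.cons (FT.cons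 (FT.cons (FT.leaf [(nat_lit 10397427)]) FT.nil) FT.nil) (FT.cons (FT.cons (FT.cons (FT.leaf [(nat_lit 10939452)]) FT.nil) FT.nil) FT.nil)))))) (FT.cons (FT.cons (FT.cons (FT.cons (FT.leaf [(nat_lit 9262698), (nat_lit 9385155), (nat_lit
 9509475), (nat_lit 9635136), (nat_lit 9761734)]) (FT.cons (FT.leaf [(nat_lit 9485464), (nat_lit 9609524), (nat_lit 9734816), (nat_lit 9860957)]) (FT.cons (FT.leaf [(nat_lit 9709034), (nat_lit 9833922)]) (FT.cons (FT.leaf [(nat_lit 9932440)]) FT.nil)))) (FT.cons (FT.cons (FT.leaf [(nat_lit 9621263), (nat_lit 9744402), (nat_lit 9868705)]) (FT.cons (FT.leaf [(nat_lit 9842960), (nat_lit 9966836)]) (FT.cons (FT.leaf [(nat_lit 10064376)]) FT.nil))) (FT.cons (FT.cons (FT.leaf [(nat_lit 9975418)]) FT.nil) FT.nil))) (FT.cons (FT.cons (FT.cons (FT.leaf [(nat_lit 9840501), (nat_lit 9961543), (nat_lit 10083698)]) (FT.cons (FT.leaf [(nat_lit 10058258), (nat_lit 10179986)]) FT.nil)) (FT.cons (FT.cons (FT.leaf [(nat_lit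 10188079)]) FT.nil) FT.nil)) (FT.cons (FT.cons (FT.cons (FT.leaf [(nat_lit 10396233)]) FT.nil) FT.nil) (FT.cons (FT.cons (FT.cons (FT.leaf [(nat_lit 10929738)]) FT.nil) FT.nil) FT.nil)))) (FT.cons (FT.cons (FT.cons (FT.cons (FT.leaf [(nat_lit 10401371)]) FT.nil) FT.nil) (FT.cons (FT.cons (FT.cons (FT.leaf [(nat_lit 10925097)]) FT.nil) FT.nil) FT.nil)) (FT.cons (FT.cons (FT.cons (FT.cons (FT.leaf [(nat_lit 11421988)]) FT.nil) FT.nil) FT.nil) (FT.cons (FT.cons (FT.cons (FT.cons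
 (FT.leaf [(nat_lit 12346519)]) FT.nil) FT.nil) FT.nil) FT.nil)))))))

def f168_1_832 : FT := (FT.cons (FT.cons (FT.cons (FT.cons (FT.leaf [(nat_lit 4841923), (nat_lit 4982058), (nat_lit 5132506), (nat_lit 5290664), (nat_lit 5454656), (nat_lit 5623058), (nat_lit 5794755), (nat_lit 5968852), (nat_lit 6144621), (nat_lit 6321463), (nat_lit 6498884), (nat_lit 6676467), (nat_lit 6853870)]) (FT.cons (FT.leaf [(nat_lit 5118413), (nat_lit 5270920), (nat_lit 5430460), (nat_lit 5595282), (nat_lit 5764061), (nat_lit 5935763), (nat_lit 6109556), (nat_lit 6284766), (nat_lit 6460838), (nat_lit 6637313), (nat_lit 6813808), (nat_lit 6990004)]) (FT.cons (FT.leaf [(nat_lit 5409619), (nat_lit 5570204), (nat_lit 5735585), (nat_lit 5904523), (nat_lit 6076052), (nat_lit 6249397), (nat_lit 6423932), (nat_lit 6599141), (nat_lit 6774597), (nat_lit 6949947)]) (FT.cons (FT.leaf [(nat_lit 5709721), (nat_lit 5875427), (nat_lit 6044334), (nat_lit 6215535), (nat_lit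 6388308), (nat_lit 6562068), (nat_lit 6736334), (nat_lit 6910710), (nat_lit 7084867)]) (FT.cons (FT.leaf [(nat_lit 6014689), (nat_lit 6183399), (nat_lit 6354140), (nat_lit 6526233), (nat_lit 6699132), (nat_lit 6872387), (nat_lit 7045630)]) (FT.cons (FT.leaf [(nat_lit 6321641), (nat_lit 6491805), (nat_lit 6663125), (nat_lit 6835088), (nat_lit
 7007275)]) (FT.cons (FT.leaf [(nat_lit 6628479), (nat_lit 6798945), (nat_lit 6969910), (nat_lit 7140978)]) (FT.cons (FT.leaf [(nat_lit 6933662), (nat_lit 7103573)]) (FT.cons (FT.leaf [(nat_lit 7236064)]) (FT.cons (FT.leaf [(nat_lit 7534861)]) FT.nil)))))))))) (FT.cons (FT.cons (FT.leaf [(nat_lit 5315476), (nat_lit 5468205), (nat_lit 5627488), (nat_lit 5791642), (nat_lit 5959410), (nat_lit 6129809), (nat_lit 6302060), (nat_lit 6475530), (nat_lit 6649703), (nat_lit 6824148), (nat_lit 6998512)]) (FT.cons (FT.leaf [(nat_lit 5606087), (nat_lit 5766155), (nat_lit 5930656), (nat_lit 6098410), (nat_lit 6268499),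 (nat_lit 6440194), (nat_lit 6612906), (nat_lit 6786152), (nat_lit 6959534), (nat_lit 7132723)]) (FT.cons (FT.leaf [(nat_lit 5904454), (nat_lit 6069099), (nat_lit 6236675), (nat_lit 6406320), (nat_lit 6577353), (nat_lit 6749220), (nat_lit 6921473), (nat_lit 7093740), (nat_lit 7265713)]) (FT.cons (FT.leaf [(nat_lit 6206872), (nat_lit 6374127), (nat_lit 6543214), (nat_lit 6713491), (nat_lit 6884441), (nat_lit 7055643), (nat_lit 7226750)]) (FT.cons (FT.leaf [(nat_lit 6510701), (nat_lit 6679128), (nat_lit 6848570), (nat_lit 7018539), (nat_lit 7188641)]) (FT.cons (FT.leaf [(nat_lit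
 6814022), (nat_lit 6982558), (nat_lit 7151493), (nat_lit 7320454)]) (FT.cons (FT.leaf [(nat_lit 7115433), (nat_lit 7283287)]) (FT.cons (FT.leaf [(nat_lit 7413907)]) (FT.cons (FT.leaf [(nat_lit 7708698)]) FT.nil))))))))) (FT.cons (FT.cons (FT.leaf [(nat_lit 5800433), (nat_lit 5959776), (nat_lit 6123234), (nat_lit 6289675), (nat_lit 6458228), (nat_lit 6628203), (nat_lit 6799045), (nat_lit 6970301), (nat_lit 7141598), (nat_lit 7312627)]) (FT.cons (FT.leaf [(nat_lit 6096753), (nat_lit 6260201), (nat_lit 6426342), (nat_lit 6594355), (nat_lit 6763593), (nat_lit 6933535), (nat_lit 7103758), (nat_lit 7273912), (nat_lit 7443711)]) (FT.cons (FT.leaf [(nat_lit 6396426), (nat_lit 6562142), (nat_lit 6729515), (nat_lit 6897936), (nat_lit 7066916), (nat_lit 7236057), (nat_lit 7405032)]) (FT.cons (FT.leaf [(nat_lit 6697020), (nat_lit 6863667), (nat_lit 7031202), (nat_lit 7199166), (nat_lit 7367184)]) (FT.cons (FT.leaf [(nat_lit 6996777), (nat_lit 7163367),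 (nat_lit 7330269), (nat_lit 7497129)]) (FT.cons (FT.leaf [(nat_lit 7294411), (nat_lit 7460211)]) (FT.cons (FT.leaf [(nat_lit 7588986)]) (FT.cons (FT.leaf [(nat_lit 7879823)]) FT.nil)))))))) (FT.cons (FT.cons (FT.leaf [(nat_lit 6286554),
 (nat_lit 6448696), (nat_lit 6613319), (nat_lit 6779641), (nat_lit 6947046), (nat_lit 7115042), (nat_lit 7283228), (nat_lit 7451277)]) (FT.cons (FT.leaf [(nat_lit 6583330), (nat_lit 6747441), (nat_lit 6913057), (nat_lit 7079595), (nat_lit 7246594), (nat_lit 7413675), (nat_lit 7580532)]) (FT.cons (FT.leaf [(nat_lit 6880610), (nat_lit 7045443), (nat_lit 7211057), (nat_lit 7377011), (nat_lit 7542954)]) (FT.cons (FT.leaf [(nat_lit 7176774), (nat_lit 7341410), (nat_lit 7506283), (nat_lit 7671057)]) (FT.cons (FT.leaf [(nat_lit 7470641), (nat_lit 7634399)]) (FT.cons (FT.leaf [(nat_lit 7761355)]) FT.nil)))))) (FT.cons (FT.cons (FT.leaf [(nat_lit 6767578), (nat_lit 6930037), (nat_lit 7093864), (nat_lit 7258505),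 (nat_lit 7423519), (nat_lit 7588548)]) (FT.cons (FT.leaf [(nat_lit 7061489), (nat_lit 7224490), (nat_lit 7388173), (nat_lit 7552124), (nat_lit 7716004)]) (FT.cons (FT.leaf [(nat_lit 7354050), (nat_lit 7516733), (nat_lit 7679588), (nat_lit 7842294)]) (FT.cons (FT.leaf [(nat_lit 7644174), (nat_lit 7805904)]) (FT.cons (FT.leaf [(nat_lit 7931071)]) FT.nil))))) (FT.cons (FT.cons (FT.leaf [(nat_lit 7239687), (nat_lit 7400842), (nat_lit 7562597)]) (FT.cons (FT.leaf [(nat_lit 7528648),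
 (nat_lit 7689385)]) (FT.cons (FT.leaf [(nat_lit 7815059)]) FT.nil))) (FT.cons (FT.cons (FT.leaf [(nat_lit 7700614)]) (FT.cons (FT.leaf [(nat_lit 7983350)]) FT.nil)) (FT.cons (FT.cons (FT.leaf [(nat_lit 8149103)]) FT.nil) (FT.cons (FT.cons (FT.leaf [(nat_lit 8584552)]) FT.nil) FT.nil))))))))) (FT.cons (FT.cons (FT.cons (FT.leaf [(nat_lit 5650886), (nat_lit 5801080), (nat_lit 5957411), (nat_lit 6118265), (nat_lit 6282444), (nat_lit 6449023), (nat_lit 6617270), (nat_lit 6786596), (nat_lit 6956517), (nat_lit 7126640), (nat_lit 7296635)]) (FT.cons (FT.leaf [(nat_lit 5935951), (nat_lit 6092878), (nat_lit 6253931), (nat_lit 6417985), (nat_lit 6584173), (nat_lit 6751811), (nat_lit 6920347), (nat_lit 7089333), (nat_lit 7258398), (nat_lit 7427237)]) (FT.cons (FT.leaf [(nat_lit 6227891), (nat_lit 6388967), (nat_lit 6552754), (nat_lit 6718439), (nat_lit 6885376), (nat_lit 7053052), (nat_lit 7221045), (nat_lit 7389009), (nat_lit 7556658)]) (FT.cons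 (FT.leaf [(nat_lit 6523291), (nat_lit 6686689), (nat_lit 6851770), (nat_lit 7017929), (nat_lit 7184682), (nat_lit 7351633), (nat_lit 7518460)]) (FT.cons (FT.leaf [(nat_lit 6819735), (nat_lit 6984127), (nat_lit 7149440), (nat_lit 7315216), (nat_lit
 7481085)]) (FT.cons (FT.leaf [(nat_lit 7115475), (nat_lit 7279883), (nat_lit 7444637), (nat_lit 7609389)]) (FT.cons (FT.leaf [(nat_lit 7409239), (nat_lit 7572933)]) (FT.cons (FT.leaf [(nat_lit 7700095)]) (FT.cons (FT.leaf [(nat_lit 7987367)]) FT.nil))))))))) (FT.cons (FT.cons (FT.leaf [(nat_lit 6125258), (nat_lit 6281339), (nat_lit 6441266), (nat_lit 6603959), (nat_lit 6768592), (nat_lit 6934517), (nat_lit 7101212), (nat_lit 7268252), (nat_lit 7435292), (nat_lit 7602044)]) (FT.cons (FT.leaf [(nat_lit 6414994), (nat_lit 6574816), (nat_lit 6737141), (nat_lit 6901192), (nat_lit 7066357), (nat_lit 7232147), (nat_lit 7398164), (nat_lit 7564084), (nat_lit 7729637)]) (FT.cons (FT.leaf [(nat_lit 6707598),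 (nat_lit 6869448), (nat_lit 7032830), (nat_lit 7197167), (nat_lit 7361999), (nat_lit 7526953), (nat_lit 7691721)]) (FT.cons (FT.leaf [(nat_lit 7000835), (nat_lit 7163473), (nat_lit 7326923), (nat_lit 7490752), (nat_lit 7654606)]) (FT.cons (FT.leaf [(nat_lit 7293093), (nat_lit 7455606), (nat_lit 7618393), (nat_lit 7781119)]) (FT.cons (FT.leaf [(nat_lit 7583201), (nat_lit 7744912)]) (FT.cons (FT.leaf [(nat_lit 7870306)]) (FT.cons (FT.leaf [(nat_lit 8153787)]) FT.nil)))))))) (FT.cons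
 (FT.cons (FT.leaf [(nat_lit 6599630), (nat_lit 6758113), (nat_lit 6918914), (nat_lit 7081289), (nat_lit 7244656), (nat_lit 7408548), (nat_lit 7572591), (nat_lit 7736478)]) (FT.cons (FT.leaf [(nat_lit 6889324), (nat_lit 7049579), (nat_lit 7211231), (nat_lit 7373730), (nat_lit 7536638), (nat_lit 7699600), (nat_lit 7862328)]) (FT.cons (FT.leaf [(nat_lit 7179299), (nat_lit 7340163), (nat_lit 7501745), (nat_lit 7663629), (nat_lit 7825481)]) (FT.cons (FT.leaf [(nat_lit 7468064), (nat_lit 7628684), (nat_lit 7789511), (nat_lit 7950230)]) (FT.cons (FT.leaf [(nat_lit 7754538), (nat_lit 7914281)]) (FT.cons (FT.leaf [(nat_lit 8037933)]) FT.nil)))))) (FT.cons (FT.cons (FT.leaf [(nat_lit 7068477), (nat_lit 7227101), (nat_lit 7387003), (nat_lit 7547656), (nat_lit 7708644), (nat_lit 7869628)]) (FT.cons (FT.leaf [(nat_lit 7355156), (nat_lit 7514234), (nat_lit 7673945), (nat_lit 7833894), (nat_lit 7993763)]) (FT.cons (FT.leaf [(nat_lit 7640430), (nat_lit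 7799162), (nat_lit 7958045), (nat_lit 8116777)]) (FT.cons (FT.leaf [(nat_lit 7923297), (nat_lit 8081090)]) (FT.cons (FT.leaf [(nat_lit 8203031)]) FT.nil))))) (FT.cons (FT.cons (FT.leaf [(nat_lit 7528438), (nat_lit 7685726), (nat_lit 7843573)])
 (FT.cons (FT.leaf [(nat_lit 7810234), (nat_lit 7967089)]) (FT.cons (FT.leaf [(nat_lit 8089532)]) FT.nil))) (FT.cons (FT.cons (FT.leaf [(nat_lit 7977524)]) (FT.cons (FT.leaf [(nat_lit 8253293)]) FT.nil)) (FT.cons (FT.cons (FT.leaf [(nat_lit 8414636)]) FT.nil) (FT.cons (FT.cons (FT.leaf [(nat_lit 8839253)]) FT.nil) FT.nil)))))))) (FT.cons (FT.cons (FT.cons (FT.leaf [(nat_lit 6440307), (nat_lit 6593145), (nat_lit 6749595), (nat_lit 6908628), (nat_lit 7069457), (nat_lit 7231469), (nat_lit 7394172), (nat_lit 7557170), (nat_lit 7720135), (nat_lit 7882800)]) (FT.cons (FT.leaf [(nat_lit 6723558), (nat_lit 6879832), (nat_lit 7038449), (nat_lit 7198667), (nat_lit 7359908), (nat_lit 7521710), (nat_lit 7683700),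 (nat_lit 7845572), (nat_lit 8007075)]) (FT.cons (FT.leaf [(nat_lit 7009288), (nat_lit 7167395), (nat_lit 7326927), (nat_lit 7487339), (nat_lit 7648195), (nat_lit 7809143), (nat_lit 7969896)]) (FT.cons (FT.leaf [(nat_lit 7295429), (nat_lit 7454211), (nat_lit 7613743), (nat_lit 7773614), (nat_lit 7933491)]) (FT.cons (FT.leaf [(nat_lit 7580496), (nat_lit 7739105), (nat_lit 7897957), (nat_lit 8056739)]) (FT.cons (FT.leaf [(nat_lit 7863413), (nat_lit 8021219)]) (FT.cons (FT.leaf [(nat_lit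
 8143395)]) FT.nil))))))) (FT.cons (FT.cons (FT.leaf [(nat_lit 6903221), (nat_lit 7058144), (nat_lit 7215245), (nat_lit 7373814), (nat_lit 7533299), (nat_lit 7693259), (nat_lit 7853339), (nat_lit 8013251)]) (FT.cons (FT.leaf [(nat_lit 7186059), (nat_lit 7342591), (nat_lit 7500431), (nat_lit 7659055), (nat_lit 7818048), (nat_lit 7977075), (nat_lit 8135863)]) (FT.cons (FT.leaf [(nat_lit 7469009), (nat_lit 7626062), (nat_lit 7783781), (nat_lit 7941774), (nat_lit 8099723)]) (FT.cons (FT.leaf [(nat_lit 7750689), (nat_lit 7907467), (nat_lit 8064431), (nat_lit 8221282)]) (FT.cons (FT.leaf [(nat_lit 8030103), (nat_lit 8186015)]) (FT.cons (FT.leaf [(nat_lit 8306525)]) FT.nil)))))) (FT.cons (FT.cons (FT.leaf [(nat_lit 7360345), (nat_lit 7515278), (nat_lit 7671412), (nat_lit 7828246), (nat_lit 7985383)]) (FT.cons (FT.leaf [(nat_lit 7640084), (nat_lit 7795403), (nat_lit 7951314), (nat_lit 8107441)]) (FT.cons (FT.leaf [(nat_lit 7918390), (nat_lit 8073345)])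 (FT.cons (FT.leaf [(nat_lit 8194334)]) (FT.cons (FT.leaf [(nat_lit 8467245)]) FT.nil))))) (FT.cons (FT.cons (FT.leaf [(nat_lit 7808690), (nat_lit 7962276), (nat_lit 8116387)]) (FT.cons (FT.leaf [(nat_lit 8083642), (nat_lit 8236789)])
 (FT.cons (FT.leaf [(nat_lit 8356157)]) FT.nil))) (FT.cons (FT.cons (FT.leaf [(nat_lit 8246491)]) (FT.cons (FT.leaf [(nat_lit 8515620)]) FT.nil)) (FT.cons (FT.cons (FT.leaf [(nat_lit 8672776)]) FT.nil) FT.nil)))))) (FT.cons (FT.cons (FT.cons (FT.leaf [(nat_lit 7197798), (nat_lit 7349267), (nat_lit 7502796), (nat_lit 7657702), (nat_lit 7813461), (nat_lit 7969655)]) (FT.cons (FT.leaf [(nat_lit 7474016), (nat_lit 7626963), (nat_lit 7781140), (nat_lit 7936050), (nat_lit 8091297)]) (FT.cons (FT.leaf [(nat_lit 7750219), (nat_lit 7903618), (nat_lit 8057640), (nat_lit 8211914)]) (FT.cons (FT.leaf [(nat_lit 8025122), (nat_lit 8178225)]) FT.nil)))) (FT.cons (FT.cons (FT.leaf [(nat_lit 7643659), (nat_lit 7795042), (nat_lit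 7947562), (nat_lit 8100740), (nat_lit 8254198)]) (FT.cons (FT.leaf [(nat_lit 7916744), (nat_lit 8068462), (nat_lit 8220738), (nat_lit 8373214)]) (FT.cons (FT.leaf [(nat_lit 8188389), (nat_lit 8339735)]) FT.nil))) (FT.cons (FT.cons (FT.leaf [(nat_lit 8080902), (nat_lit 8230944)]) (FT.cons (FT.leaf [(nat_lit 8349315)]) FT.nil)) (FT.cons (FT.cons (FT.leaf [(nat_lit 8507946)]) FT.nil) (FT.cons (FT.cons (FT.leaf [(nat_lit 8923921)]) FT.nil) FT.nil))))) (FT.cons (FT.cons (FT.cons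
 (FT.leaf [(nat_lit 7918871), (nat_lit 8066840), (nat_lit 8215896)]) (FT.cons (FT.leaf [(nat_lit 8185575), (nat_lit 8333845)]) (FT.cons (FT.leaf [(nat_lit 8450853)]) FT.nil))) (FT.cons (FT.cons (FT.leaf [(nat_lit 8345501)]) (FT.cons (FT.leaf [(nat_lit 8607667)]) FT.nil)) (FT.cons (FT.cons (FT.leaf [(nat_lit 8762287)]) FT.nil) FT.nil))) (FT.cons (FT.cons (FT.cons (FT.leaf [(nat_lit 8602887)]) FT.nil) (FT.cons (FT.cons (FT.leaf [(nat_lit 9009886)]) FT.nil) FT.nil)) (FT.cons (FT.cons (FT.cons (FT.leaf [(nat_lit 9251086)]) FT.nil) FT.nil) (FT.cons (FT.cons (FT.cons (FT.leaf [(nat_lit 9865509)]) FT.nil) FT.nil) (FT.cons (FT.cons (FT.cons (FT.leaf [(nat_lit 10448502)]) FT.nil) FT.nil) FT.nil))))))))) (FT.cons (FT.cons (FT.cons (FT.cons (FT.leaf [(nat_lit 6552379), (nat_lit 6689827), (nat_lit 6832882), (nat_lit 6980101), (nat_lit 7130413), (nat_lit 7283001), (nat_lit 7437215), (nat_lit 7592536), (nat_lit 7748536), (nat_lit 7904867), (nat_lit 8061234)])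 (FT.cons (FT.leaf [(nat_lit 6812799), (nat_lit 6956441), (nat_lit 7103904), (nat_lit 7254185), (nat_lit 7406512), (nat_lit 7560278), (nat_lit 7714997), (nat_lit 7870266), (nat_lit 8025759), (nat_lit 8181202)]) (FT.cons (FT.leaf [(nat_lit
 7079655), (nat_lit 7227215), (nat_lit 7377344), (nat_lit 7529314), (nat_lit 7682556), (nat_lit 7836608), (nat_lit 7991097), (nat_lit 8145713), (nat_lit 8300201)]) (FT.cons (FT.leaf [(nat_lit 7349965), (nat_lit 7499837), (nat_lit 7651367), (nat_lit 7804014), (nat_lit 7957347), (nat_lit 8111011), (nat_lit 8264718)]) (FT.cons (FT.leaf [(nat_lit 7621618), (nat_lit 7772633), (nat_lit 7924628), (nat_lit 8077193), (nat_lit 8229996)]) (FT.cons (FT.leaf [(nat_lit 7893084), (nat_lit 8044374), (nat_lit 8196131), (nat_lit 8348041)]) (FT.cons (FT.leaf [(nat_lit 8163234), (nat_lit 8314147)]) (FT.cons (FT.leaf [(nat_lit 8431234)]) (FT.cons (FT.leaf [(nat_lit 8696464)]) FT.nil))))))))) (FT.cons (FT.cons (FT.leaf [(nat_lit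 6984857), (nat_lit 7127853), (nat_lit 7274434), (nat_lit 7423634), (nat_lit 7574717), (nat_lit 7727104), (nat_lit 7880330), (nat_lit 8034018), (nat_lit 8187857), (nat_lit 8341590)]) (FT.cons (FT.leaf [(nat_lit 7249967), (nat_lit 7396539), (nat_lit 7545502), (nat_lit 7696161), (nat_lit 7847970), (nat_lit 8000491), (nat_lit 8153370), (nat_lit 8306313), (nat_lit 8459079)]) (FT.cons (FT.leaf [(nat_lit 7518035), (nat_lit 7666669), (nat_lit 7816830), (nat_lit 7968002), (nat_lit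
 8119771), (nat_lit 8271802), (nat_lit 8423821)]) (FT.cons (FT.leaf [(nat_lit 7787096), (nat_lit 7936694), (nat_lit 8087176), (nat_lit 8238152), (nat_lit 8389304)]) (FT.cons (FT.leaf [(nat_lit 8055728), (nat_lit 8205475), (nat_lit 8355622), (nat_lit 8505868)]) (FT.cons (FT.leaf [(nat_lit 8322885), (nat_lit 8472172)]) (FT.cons (FT.leaf [(nat_lit 8587793)]) (FT.cons (FT.leaf [(nat_lit 8849882)]) FT.nil)))))))) (FT.cons (FT.cons (FT.leaf [(nat_lit 7418267), (nat_lit 7563778), (nat_lit 7711522), (nat_lit 7860831), (nat_lit 8011183), (nat_lit 8162159), (nat_lit 8313423), (nat_lit 8464696)]) (FT.cons (FT.leaf [(nat_lit 7683996), (nat_lit 7831349), (nat_lit 7980111), (nat_lit 8129789), (nat_lit 8279988), (nat_lit 8430386), (nat_lit 8580724)]) (FT.cons (FT.leaf [(nat_lit 7950413), (nat_lit 8098572), (nat_lit 8247530), (nat_lit 8396914), (nat_lit 8546421)]) (FT.cons (FT.leaf [(nat_lit 8216193), (nat_lit 8364392), (nat_lit 8512931), (nat_lit 8661522)])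 (FT.cons (FT.leaf [(nat_lit 8480363), (nat_lit 8628029)]) (FT.cons (FT.leaf [(nat_lit 8742205)]) FT.nil)))))) (FT.cons (FT.cons (FT.leaf [(nat_lit 7847849), (nat_lit 7993887), (nat_lit 8141230), (nat_lit 8289402), (nat_lit 8438027)]) (FT.cons
 (FT.leaf [(nat_lit 8111586), (nat_lit 8258291), (nat_lit 8405720), (nat_lit 8553514)]) (FT.cons (FT.leaf [(nat_lit 8374506), (nat_lit 8521157)]) (FT.cons (FT.leaf [(nat_lit 8635703)]) (FT.cons (FT.leaf [(nat_lit 8894510)]) FT.nil))))) (FT.cons (FT.cons (FT.leaf [(nat_lit 8270636), (nat_lit 8415878), (nat_lit 8561777)]) (FT.cons (FT.leaf [(nat_lit 8530699), (nat_lit 8675804)]) (FT.cons (FT.leaf [(nat_lit 8788944)]) FT.nil))) (FT.cons (FT.cons (FT.leaf [(nat_lit 8684802)]) (FT.cons (FT.leaf [(nat_lit 8940120)]) FT.nil)) (FT.cons (FT.cons (FT.leaf [(nat_lit 9089271)]) FT.nil) FT.nil))))))) (FT.cons (FT.cons (FT.cons (FT.leaf [(nat_lit 7270231), (nat_lit 7410596), (nat_lit 7554350), (nat_lit 7700568),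 (nat_lit 7848544), (nat_lit 7997728), (nat_lit 8147679), (nat_lit 8298040), (nat_lit 8448518), (nat_lit 8598870)]) (FT.cons (FT.leaf [(nat_lit 7530066), (nat_lit 7673749), (nat_lit 7819686), (nat_lit 7967210), (nat_lit 8115801), (nat_lit 8265043), (nat_lit 8414601), (nat_lit 8564198), (nat_lit 8713606)]) (FT.cons (FT.leaf [(nat_lit 7792525), (nat_lit 7938099), (nat_lit 8085105), (nat_lit 8233052), (nat_lit 8381545), (nat_lit 8530268), (nat_lit 8678958)]) (FT.cons (FT.leaf [(nat_lit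
 8055775), (nat_lit 8202206), (nat_lit 8349462), (nat_lit 8497170), (nat_lit 8645029)]) (FT.cons (FT.leaf [(nat_lit 8318492), (nat_lit 8465017), (nat_lit 8611909), (nat_lit 8758881)]) (FT.cons (FT.leaf [(nat_lit 8579705), (nat_lit 8725754)]) (FT.cons (FT.leaf [(nat_lit 8838699)]) FT.nil))))))) (FT.cons (FT.cons (FT.leaf [(nat_lit 7694307), (nat_lit 7836913), (nat_lit 7981630), (nat_lit 8127817), (nat_lit 8274976), (nat_lit 8422709), (nat_lit 8570697), (nat_lit 8718674)]) (FT.cons (FT.leaf [(nat_lit 7954429), (nat_lit 8098731), (nat_lit 8244360), (nat_lit 8390844), (nat_lit 8537806), (nat_lit 8684944), (nat_lit 8832008)]) (FT.cons (FT.leaf [(nat_lit 8215077), (nat_lit 8360097), (nat_lit 8505866), (nat_lit 8652028), (nat_lit 8798292)]) (FT.cons (FT.leaf [(nat_lit 8475013), (nat_lit 8620033), (nat_lit 8765364), (nat_lit 8910735)]) (FT.cons (FT.leaf [(nat_lit 8733331), (nat_lit 8877811)]) (FT.cons (FT.leaf [(nat_lit 8989365)]) FT.nil))))))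 (FT.cons (FT.cons (FT.leaf [(nat_lit 8114286), (nat_lit 8257290), (nat_lit 8401527), (nat_lit 8546543), (nat_lit 8691976)]) (FT.cons (FT.leaf [(nat_lit 8372308), (nat_lit 8515908), (nat_lit 8660189), (nat_lit 8804808)]) (FT.cons (FT.leaf [(nat_lit
 8629463), (nat_lit 8772979)]) (FT.cons (FT.leaf [(nat_lit 8884905)]) (FT.cons (FT.leaf [(nat_lit 9138010)]) FT.nil))))) (FT.cons (FT.cons (FT.leaf [(nat_lit 8527492), (nat_lit 8669667), (nat_lit 8812462)]) (FT.cons (FT.leaf [(nat_lit 8781874), (nat_lit 8923892)]) (FT.cons (FT.leaf [(nat_lit 9034463)]) FT.nil))) (FT.cons (FT.cons (FT.leaf [(nat_lit 8932279)]) (FT.cons (FT.leaf [(nat_lit 9182041)]) FT.nil)) (FT.cons (FT.cons (FT.leaf [(nat_lit 9327679)]) FT.nil) FT.nil)))))) (FT.cons (FT.cons (FT.cons (FT.leaf [(nat_lit 7962994), (nat_lit 8102765), (nat_lit 8244543), (nat_lit 8387710), (nat_lit 8531787), (nat_lit 8676396)]) (FT.cons (FT.leaf [(nat_lit 8217672), (nat_lit 8359018), (nat_lit 8501620),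 (nat_lit 8645025), (nat_lit 8788875)]) (FT.cons (FT.leaf [(nat_lit 8472748), (nat_lit 8614742), (nat_lit 8757440), (nat_lit 8900503)]) (FT.cons (FT.leaf [(nat_lit 8727061), (nat_lit 8869021)]) FT.nil)))) (FT.cons (FT.cons (FT.leaf [(nat_lit 8373695), (nat_lit 8513765), (nat_lit 8655006), (nat_lit 8796982), (nat_lit 8939347)]) (FT.cons (FT.leaf [(nat_lit 8626206), (nat_lit 8766815), (nat_lit 8908067), (nat_lit 9049636)]) (FT.cons (FT.leaf [(nat_lit 8877818), (nat_lit 9018321)]) FT.nil)))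
 (FT.cons (FT.cons (FT.leaf [(nat_lit 8777692), (nat_lit 8916913)]) (FT.cons (FT.leaf [(nat_lit 9026616)]) FT.nil)) (FT.cons (FT.cons (FT.leaf [(nat_lit 9173487)]) FT.nil) (FT.cons (FT.cons (FT.leaf [(nat_lit 9560203)]) FT.nil) FT.nil))))) (FT.cons (FT.cons (FT.cons (FT.leaf [(nat_lit 8626403), (nat_lit 8763640), (nat_lit 8901992)]) (FT.cons (FT.leaf [(nat_lit 8873605), (nat_lit 9011332)]) (FT.cons (FT.leaf [(nat_lit 9119889)]) FT.nil))) (FT.cons (FT.cons (FT.leaf [(nat_lit 9021551)]) (FT.cons (FT.leaf [(nat_lit 9265232)]) FT.nil)) (FT.cons (FT.cons (FT.leaf [(nat_lit 9408724)]) FT.nil) FT.nil))) (FT.cons (FT.cons (FT.cons (FT.leaf [(nat_lit 9259368)]) FT.nil) (FT.cons (FT.cons (FT.leaf [(nat_lit 9638272)]) FT.nil) FT.nil)) (FT.cons (FT.cons (FT.cons (FT.leaf [(nat_lit 9862394)]) FT.nil) FT.nil) (FT.cons (FT.cons (FT.cons (FT.leaf [(nat_lit 10436779)]) FT.nil) FT.nil) (FT.cons (FT.cons (FT.cons (FT.leaf [(nat_lit 10984177)]) FT.nil) FT.nil)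 FT.nil)))))))) (FT.cons (FT.cons (FT.cons (FT.cons (FT.leaf [(nat_lit 8019617), (nat_lit 8149796), (nat_lit 8283168), (nat_lit 8418880), (nat_lit 8556295), (nat_lit 8694911), (nat_lit 8834331), (nat_lit 8974229)]) (FT.cons (FT.leaf [(nat_lit
 8260332), (nat_lit 8393697), (nat_lit 8529218), (nat_lit 8666289), (nat_lit 8804438), (nat_lit 8943286), (nat_lit 9082527)]) (FT.cons (FT.leaf [(nat_lit 8503715), (nat_lit 8638973), (nat_lit 8775643), (nat_lit 8913277), (nat_lit 9051516)]) (FT.cons (FT.leaf [(nat_lit 8748116), (nat_lit 8884334), (nat_lit 9021412), (nat_lit 9159009)]) (FT.cons (FT.leaf [(nat_lit 8992342), (nat_lit 9128828)]) (FT.cons (FT.leaf [(nat_lit 9235514)]) FT.nil)))))) (FT.cons (FT.cons (FT.leaf [(nat_lit 8411978), (nat_lit 8544460), (nat_lit 8678974), (nat_lit 8814933), (nat_lit 8951885), (nat_lit 9089466)]) (FT.cons (FT.leaf [(nat_lit 8653422), (nat_lit 8787625), (nat_lit 8923147), (nat_lit 9059556), (nat_lit 9196508)]) (FT.cons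 (FT.leaf [(nat_lit 8895648), (nat_lit 9030686), (nat_lit 9166516), (nat_lit 9302811)]) (FT.cons (FT.leaf [(nat_lit 9137537), (nat_lit 9272755)]) (FT.cons (FT.leaf [(nat_lit 9378262)]) FT.nil))))) (FT.cons (FT.cons (FT.leaf [(nat_lit 8801403), (nat_lit 8934526), (nat_lit 9068884), (nat_lit 9204060), (nat_lit 9339724)]) (FT.cons (FT.leaf [(nat_lit 9041429), (nat_lit 9175277), (nat_lit 9309854), (nat_lit 9444846)]) (FT.cons (FT.leaf [(nat_lit 9280974), (nat_lit 9414925)]) FT.nil)))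
 (FT.cons (FT.cons (FT.leaf [(nat_lit 9185476), (nat_lit 9318125)]) (FT.cons (FT.leaf [(nat_lit 9422678)]) FT.nil)) (FT.cons (FT.cons (FT.leaf [(nat_lit 9562674)]) FT.nil) (FT.cons (FT.cons (FT.leaf [(nat_lit 9932062)]) FT.nil) FT.nil)))))) (FT.cons (FT.cons (FT.cons (FT.leaf [(nat_lit 8659508), (nat_lit 8789612), (nat_lit 8921650), (nat_lit 9055060), (nat_lit 9189407), (nat_lit 9324341)]) (FT.cons (FT.leaf [(nat_lit 8896372), (nat_lit 9028083), (nat_lit 9161046), (nat_lit 9294848), (nat_lit 9429159)]) (FT.cons (FT.leaf [(nat_lit 9133893), (nat_lit 9266369), (nat_lit 9399594), (nat_lit 9533255)]) (FT.cons (FT.leaf [(nat_lit 9371016), (nat_lit 9503635)]) FT.nil)))) (FT.cons (FT.cons (FT.leaf [(nat_lit 9041118), (nat_lit 9171761), (nat_lit 9303581), (nat_lit 9436177), (nat_lit 9569230)]) (FT.cons (FT.leaf [(nat_lit 9276479), (nat_lit 9407788), (nat_lit 9539791), (nat_lit 9672184)]) (FT.cons (FT.leaf [(nat_lit 9511316), (nat_lit 9642700)])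 FT.nil))) (FT.cons (FT.cons (FT.leaf [(nat_lit 9417386), (nat_lit 9547525)]) (FT.cons (FT.leaf [(nat_lit 9649942)]) FT.nil)) (FT.cons (FT.cons (FT.leaf [(nat_lit 9786921)]) FT.nil) (FT.cons (FT.cons (FT.leaf [(nat_lit 10148861)]) FT.nil) FT.nil)))))
 (FT.cons (FT.cons (FT.cons (FT.leaf [(nat_lit 9275174), (nat_lit 9403413), (nat_lit 9532776)]) (FT.cons (FT.leaf [(nat_lit 9506022), (nat_lit 9634877)]) (FT.cons (FT.leaf [(nat_lit 9736314)]) FT.nil))) (FT.cons (FT.cons (FT.leaf [(nat_lit 9643912)]) (FT.cons (FT.leaf [(nat_lit 9871985)]) FT.nil)) (FT.cons (FT.cons (FT.leaf [(nat_lit 10006065)]) FT.nil) FT.nil))) (FT.cons (FT.cons (FT.cons (FT.leaf [(nat_lit 9865284)]) FT.nil) (FT.cons (FT.cons (FT.leaf [(nat_lit 10220330)]) FT.nil) FT.nil)) (FT.cons (FT.cons (FT.cons (FT.leaf [(nat_lit 10429918)]) FT.nil) FT.nil) (FT.cons (FT.cons (FT.cons (FT.leaf [(nat_lit 10969891)]) FT.nil) FT.nil) FT.nil)))))) (FT.cons (FT.cons (FT.cons (FT.cons (FT.leaf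 [(nat_lit 9299723), (nat_lit 9421659), (nat_lit 9545456), (nat_lit 9670597), (nat_lit 9796677)]) (FT.cons (FT.leaf [(nat_lit 9521538), (nat_lit 9645082), (nat_lit 9769862), (nat_lit 9895493)]) (FT.cons (FT.leaf [(nat_lit 9744178), (nat_lit 9868559)]) (FT.cons (FT.leaf [(nat_lit 9966677)]) FT.nil)))) (FT.cons (FT.cons (FT.leaf [(nat_lit 9656753), (nat_lit 9779389), (nat_lit 9903190)]) (FT.cons (FT.leaf [(nat_lit 9877542), (nat_lit 10000924)]) (FT.cons (FT.leaf [(nat_lit 10098074)]) FT.nil)))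
 (FT.cons (FT.cons (FT.leaf [(nat_lit 10009455)]) (FT.cons (FT.leaf [(nat_lit 10228019)]) FT.nil)) (FT.cons (FT.cons (FT.leaf [(nat_lit 10356531)]) FT.nil) FT.nil)))) (FT.cons (FT.cons (FT.cons (FT.leaf [(nat_lit 9875043), (nat_lit 9995604), (nat_lit 10117282)]) (FT.cons (FT.leaf [(nat_lit 10091934), (nat_lit 10213190)]) (FT.cons (FT.leaf [(nat_lit 10308527)]) FT.nil))) (FT.cons (FT.cons (FT.leaf [(nat_lit 10221234)]) (FT.cons (FT.leaf [(nat_lit 10435907)]) FT.nil)) (FT.cons (FT.cons (FT.leaf [(nat_lit 10561901)]) FT.nil) FT.nil))) (FT.cons (FT.cons (FT.cons (FT.leaf [(nat_lit 10428551)]) FT.nil) (FT.cons (FT.cons (FT.leaf [(nat_lit 10763023)]) FT.nil) FT.nil)) (FT.cons (FT.cons (FT.cons (FT.leaf [(nat_lit 10960064)]) FT.nil) FT.nil) FT.nil)))) (FT.cons (FT.cons (FT.cons (FT.cons (FT.leaf [(nat_lit 10433488)]) FT.nil) FT.nil) (FT.cons (FT.cons (FT.cons (FT.leaf [(nat_lit 10955289)]) FT.nil) FT.nil) FT.nil)) (FT.cons (FT.cons (FT.cons (FT.cons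 (FT.leaf [(nat_lit 11450333)]) FT.nil) FT.nil) FT.nil) (FT.cons (FT.cons (FT.cons (FT.cons (FT.leaf [(nat_lit 12371876)]) FT.nil) FT.nil) FT.nil) FT.nil)))))))

def f176_1_0 : FT := (FT.cons (FT.cons (FT.cons (FT.cons (FT.leaf [(nat_lit 2867331), (nat_lit 2993691), (nat_lit 3139684), (nat_lit 3300697), (nat_lit 3473412), (nat_lit 3655283), (nat_lit 3844281), (nat_lit 4038755), (nat_lit 4237342), (nat_lit 4438911), (nat_lit 4642517), (nat_lit 4847372), (nat_lit 5052816), (nat_lit 5258297), (nat_lit 5463353), (nat_lit 5667602)]) (FT.cons (FT.leaf [(nat_lit 3137762), (nat_lit 3289792), (nat_lit 3455428), (nat_lit 3631578), (nat_lit 3815888), (nat_lit 4006487), (nat_lit 4201862), (nat_lit 4400764), (nat_lit 4602159), (nat_lit 4805188), (nat_lit 5009132), (nat_lit 5213390), (nat_lit 5417463), (nat_lit 5620931), (nat_lit 5823450)]) (FT.cons (FT.leaf [(nat_lit 3442495), (nat_lit 3611889), (nat_lit 3790769), (nat_lit 3976940), (nat_lit 4168669),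 (nat_lit 4364558), (nat_lit 4563461), (nat_lit 4764431), (nat_lit 4966678), (nat_lit 5169548), (nat_lit 5372495), (nat_lit 5575061), (nat_lit 5776870), (nat_lit 5977607)]) (FT.cons (FT.leaf [(nat_lit 3769555), (nat_lit 3950563), (nat_lit 4138103), (nat_lit 4330557), (nat_lit 4526631), (nat_lit 4725267), (nat_lit 4925593), (nat_lit 5126886), (nat_lit 5328548), (nat_lit 5530077), (nat_lit 5731058), (nat_lit 5931149)]) (FT.cons
 (FT.leaf [(nat_lit 4110613), (nat_lit 4299095), (nat_lit 4491927), (nat_lit 4687902), (nat_lit 4886041), (nat_lit 5085540), (nat_lit 5285733), (nat_lit 5486070), (nat_lit 5686094), (nat_lit 5885425)]) (FT.cons (FT.leaf [(nat_lit 4459681), (nat_lit 4652590), (nat_lit 4848223), (nat_lit 5045669), (nat_lit 5244182), (nat_lit 5443151), (nat_lit 5642069), (nat_lit 5840516), (nat_lit 6038144)]) (FT.cons (FT.leaf [(nat_lit 4812391), (nat_lit 5007469), (nat_lit 5204053), (nat_lit 5401449), (nat_lit 5599089), (nat_lit 5796508),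 (nat_lit 5993319)]) (FT.cons (FT.leaf [(nat_lit 5165536), (nat_lit 5361117), (nat_lit 5557281), (nat_lit 5753507), (nat_lit 5949361)]) (FT.cons (FT.leaf [(nat_lit 5516794), (nat_lit 5711634), (nat_lit 5906373), (nat_lit 6100609)]) (FT.cons (FT.leaf [(nat_lit 5864472), (nat_lit 6057664)]) (FT.cons (FT.leaf [(nat_lit 6207365)]) (FT.cons (FT.leaf [(nat_lit 6544632)]) FT.nil)))))))))))) (FT.cons (FT.cons (FT.leaf [(nat_lit 3359919), (nat_lit 3515149), (nat_lit 3682966), (nat_lit 3860365), (nat_lit 4045102), (nat_lit 4235422), (nat_lit 4429916), (nat_lit 4627436), (nat_lit 4827034), (nat_lit 5027926), (nat_lit 5229457), (nat_lit 5431087), (nat_lit 5632360), (nat_lit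
 5832901), (nat_lit 6032397)]) (FT.cons (FT.leaf [(nat_lit 3668795), (nat_lit 3839641), (nat_lit 4019161), (nat_lit 4205255), (nat_lit 4396291), (nat_lit 4590966), (nat_lit 4788220), (nat_lit 4987181), (nat_lit 5187130), (nat_lit 5387467), (nat_lit 5587695), (nat_lit 5787404), (nat_lit 5986248), (nat_lit 6183945)]) (FT.cons (FT.leaf [(nat_lit 3997055), (nat_lit 4178188), (nat_lit 4365222), (nat_lit 4556635), (nat_lit 4751213), (nat_lit 4947976), (nat_lit 5146120), (nat_lit 5344982), (nat_lit 5544012), (nat_lit 5742756), (nat_lit 5940834), (nat_lit 6137938)]) (FT.cons (FT.leaf [(nat_lit 4337157), (nat_lit 4524773), (nat_lit 4716269), (nat_lit 4910512), (nat_lit 5106593), (nat_lit 5303766), (nat_lit 5501420), (nat_lit 5699050), (nat_lit 5896237), (nat_lit 6092636)]) (FT.cons (FT.leaf [(nat_lit 4683716), (nat_lit 4875039), (nat_lit 5068743), (nat_lit 5263976), (nat_lit 5460048), (nat_lit 5656393), (nat_lit 5852545), (nat_lit 6048119), (nat_lit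 6242797)]) (FT.cons (FT.leaf [(nat_lit 5032816), (nat_lit 5225805), (nat_lit 5420051), (nat_lit 5614911), (nat_lit 5809862), (nat_lit 6004471), (nat_lit 6198386)]) (FT.cons (FT.leaf [(nat_lit 5381615), (nat_lit 5574755), (nat_lit 5768311),
 (nat_lit 5961796), (nat_lit 6154812)]) (FT.cons (FT.leaf [(nat_lit 5728038), (nat_lit 5920213), (nat_lit 6112174), (nat_lit 6303554)]) (FT.cons (FT.leaf [(nat_lit 6070590), (nat_lit 6260981)]) (FT.cons (FT.leaf [(nat_lit 6408208)]) (FT.cons (FT.leaf [(nat_lit 6740155)]) FT.nil))))))))))) (FT.cons (FT.cons (FT.leaf [(nat_lit 3894139), (nat_lit 4065786), (nat_lit 4245398), (nat_lit 4430967), (nat_lit 4620952), (nat_lit 4814132), (nat_lit 5009522), (nat_lit 5206317), (nat_lit 5403856), (nat_lit 5601588), (nat_lit 5799061)]) (FT.cons (FT.leaf [(nat_lit 4222527), (nat_lit 4403326), (nat_lit 4589485), (nat_lit 4779560), (nat_lit 4972414), (nat_lit 5167134), (nat_lit 5362974), (nat_lit 5559322), (nat_lit 5755674),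 (nat_lit 5951613)]) (FT.cons (FT.leaf [(nat_lit 4560948), (nat_lit 4747391), (nat_lit 4937308), (nat_lit 5129636), (nat_lit 5323524), (nat_lit 5518280), (nat_lit 5713338), (nat_lit 5908234), (nat_lit 6102581)]) (FT.cons (FT.leaf [(nat_lit 4904524), (nat_lit 5094070), (nat_lit 5285700), (nat_lit 5478618), (nat_lit 5672182), (nat_lit 5865868), (nat_lit 6059243)]) (FT.cons (FT.leaf [(nat_lit 5249742), (nat_lit 5440524), (nat_lit 5632356), (nat_lit 5824637), (nat_lit 6016879)])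
 (FT.cons (FT.leaf [(nat_lit 5594044), (nat_lit 5784690), (nat_lit 5975611), (nat_lit 6166353)]) (FT.cons (FT.leaf [(nat_lit 5935581), (nat_lit 6125079)]) (FT.cons (FT.leaf [(nat_lit 6273024)]) (FT.cons (FT.leaf [(nat_lit 6605431)]) FT.nil))))))))) (FT.cons (FT.cons (FT.leaf [(nat_lit 4445603), (nat_lit 4625703), (nat_lit 4810691), (nat_lit 4999198), (nat_lit 5190153), (nat_lit 5382701), (nat_lit 5576149), (nat_lit 5769931), (nat_lit 5963579), (nat_lit 6156711)]) (FT.cons (FT.leaf [(nat_lit 4781771), (nat_lit 4966799), (nat_lit 5154951), (nat_lit 5345225), (nat_lit 5536822), (nat_lit 5729098), (nat_lit 5921528), (nat_lit 6113680), (nat_lit 6305198)]) (FT.cons (FT.leaf [(nat_lit 5122008), (nat_lit 5309624), (nat_lit 5499071), (nat_lit 5689602), (nat_lit 5880617), (nat_lit 6071627), (nat_lit 6262231)]) (FT.cons (FT.leaf [(nat_lit 5463132), (nat_lit 5651627), (nat_lit 5840994), (nat_lit 6030672), (nat_lit 6220205)]) (FT.cons (FT.leaf [(nat_lit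 5802841), (nat_lit 5990962), (nat_lit 6179240), (nat_lit 6367250)]) (FT.cons (FT.leaf [(nat_lit 6139476), (nat_lit 6326302)]) (FT.cons (FT.leaf [(nat_lit 6471849)]) (FT.cons (FT.leaf [(nat_lit 6799121)]) FT.nil)))))))) (FT.cons (FT.cons (FT.leaf
 [(nat_lit 4999478), (nat_lit 5182900), (nat_lit 5369143), (nat_lit 5557260), (nat_lit 5746499), (nat_lit 5936256), (nat_lit 6126042), (nat_lit 6315456)]) (FT.cons (FT.leaf [(nat_lit 5336100), (nat_lit 5521673), (nat_lit 5708860), (nat_lit 5896957), (nat_lit 6085401), (nat_lit 6273734), (nat_lit 6461584)]) (FT.cons (FT.leaf [(nat_lit 5672982), (nat_lit 5859135), (nat_lit 6046009), (nat_lit 6233077), (nat_lit 6419911)]) (FT.cons (FT.leaf [(nat_lit 6008043), (nat_lit 6193625), (nat_lit 6379266), (nat_lit 6564564)]) (FT.cons (FT.leaf [(nat_lit 6339786), (nat_lit 6523956)]) (FT.cons (FT.leaf [(nat_lit 6667144)]) FT.nil)))))) (FT.cons (FT.cons (FT.leaf [(nat_lit 5546769), (nat_lit 5730216), (nat_lit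 5915091), (nat_lit 6100728), (nat_lit 6286594), (nat_lit 6472261)]) (FT.cons (FT.leaf [(nat_lit 5879310), (nat_lit 6063086), (nat_lit 6247454), (nat_lit 6431916), (nat_lit 6616073)]) (FT.cons (FT.leaf [(nat_lit 6209700), (nat_lit 6392743), (nat_lit 6575761), (nat_lit 6758378)]) (FT.cons (FT.leaf [(nat_lit 6536581), (nat_lit 6718121)]) (FT.cons (FT.leaf [(nat_lit 6858993)]) FT.nil))))) (FT.cons (FT.cons (FT.leaf [(nat_lit 6082149), (nat_lit 6263529), (nat_lit 6445392)]) (FT.cons (FT.leaf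
 [(nat_lit 6407870), (nat_lit 6588386)]) (FT.cons (FT.leaf [(nat_lit 6729938)]) FT.nil))) (FT.cons (FT.cons (FT.leaf [(nat_lit 6602619)]) (FT.cons (FT.leaf [(nat_lit 6919934)]) FT.nil)) (FT.cons (FT.cons (FT.leaf [(nat_lit 7106652)]) FT.nil) (FT.cons (FT.cons (FT.leaf [(nat_lit 7593649)]) FT.nil) FT.nil)))))))))) (FT.cons (FT.cons (FT.cons (FT.leaf [(nat_lit 3757831), (nat_lit 3912291), (nat_lit 4078416), (nat_lit 4253276), (nat_lit 4434732), (nat_lit 4621140), (nat_lit 4811197), (nat_lit 5003856), (nat_lit 5198255), (nat_lit 5393690), (nat_lit 5589573), (nat_lit 5785421), (nat_lit 5980829), (nat_lit 6175462), (nat_lit 6369043)]) (FT.cons (FT.leaf [(nat_lit 4063604), (nat_lit 4232157), (nat_lit 4408633), (nat_lit 4591034), (nat_lit 4777831), (nat_lit 4967819), (nat_lit 5160025), (nat_lit 5353658), (nat_lit 5548067), (nat_lit 5742713), (nat_lit 5937151), (nat_lit 6131011), (nat_lit 6323987), (nat_lit 6515826)]) (FT.cons (FT.leaf [(nat_lit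 4386258), (nat_lit 4563927), (nat_lit 4746929), (nat_lit 4933836), (nat_lit 5123527), (nat_lit 5315099), (nat_lit 5507820), (nat_lit 5701089), (nat_lit 5894409), (nat_lit 6087371), (nat_lit 6279634), (nat_lit 6470919)]) (FT.cons (FT.leaf [(nat_lit
 4718926), (nat_lit 4902233), (nat_lit 5089010), (nat_lit 5278209), (nat_lit 5468992), (nat_lit 5660678), (nat_lit 5852710), (nat_lit 6044630), (nat_lit 6236061), (nat_lit 6426689)]) (FT.cons (FT.leaf [(nat_lit 5056793), (nat_lit 5243232), (nat_lit 5431773), (nat_lit 5621633), (nat_lit 5812178), (nat_lit 6002893), (nat_lit 6193352), (nat_lit 6383206), (nat_lit 6572167)]) (FT.cons (FT.leaf [(nat_lit 5396402), (nat_lit 5584141), (nat_lit 5772964), (nat_lit 5962280), (nat_lit 6151609), (nat_lit 6340557), (nat_lit 6528799)]) (FT.cons (FT.leaf [(nat_lit 5735249), (nat_lit 5922939), (nat_lit 6110951), (nat_lit 6298838), (nat_lit 6486234)]) (FT.cons (FT.leaf [(nat_lit 6071520), (nat_lit 6258167), (nat_lit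 6444567), (nat_lit 6630378)]) (FT.cons (FT.leaf [(nat_lit 6403910), (nat_lit 6588786)]) (FT.cons (FT.leaf [(nat_lit 6731490)]) FT.nil)))))))))) (FT.cons (FT.cons (FT.leaf [(nat_lit 4283639), (nat_lit 4452463), (nat_lit 4628606), (nat_lit 4810156), (nat_lit 4995662), (nat_lit 5183992), (nat_lit 5374237), (nat_lit 5565663), (nat_lit 5757667), (nat_lit 5949752), (nat_lit 6141509), (nat_lit 6332598), (nat_lit 6522738)]) (FT.cons (FT.leaf [(nat_lit 4605581), (nat_lit 4782576), (nat_lit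
 4964448), (nat_lit 5149841), (nat_lit 5337696), (nat_lit 5527170), (nat_lit 5717579), (nat_lit 5908367), (nat_lit 6099073), (nat_lit 6289321), (nat_lit 6478797), (nat_lit 6667241)]) (FT.cons (FT.leaf [(nat_lit 4936063), (nat_lit 5118004), (nat_lit 5303078), (nat_lit 5490293), (nat_lit 5678863), (nat_lit 5868153), (nat_lit 6057645), (nat_lit 6246913), (nat_lit 6435607), (nat_lit 6623439)]) (FT.cons (FT.leaf [(nat_lit 5270697), (nat_lit 5455274), (nat_lit 5641708), (nat_lit 5829263), (nat_lit 6017346), (nat_lit 6205474), (nat_lit 6393254), (nat_lit 6580359), (nat_lit 6766526)]) (FT.cons (FT.leaf [(nat_lit 5606347), (nat_lit 5791879), (nat_lit 5978323), (nat_lit 6165124), (nat_lit 6351834), (nat_lit 6538084), (nat_lit 6723576)]) (FT.cons (FT.leaf [(nat_lit 5940755), (nat_lit 6126007), (nat_lit 6311465), (nat_lit 6496710), (nat_lit 6681401)]) (FT.cons (FT.leaf [(nat_lit 6272287), (nat_lit 6456352), (nat_lit 6640096), (nat_lit 6823202)]) (FT.cons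 (FT.leaf [(nat_lit 6599772), (nat_lit 6781986)]) (FT.cons (FT.leaf [(nat_lit 6922382)]) FT.nil))))))))) (FT.cons (FT.cons (FT.leaf [(nat_lit 4822294), (nat_lit 4998338), (nat_lit 5178860), (nat_lit 5362568), (nat_lit 5548462), (nat_lit
 5735749), (nat_lit 5923791), (nat_lit 6112069), (nat_lit 6300155), (nat_lit 6487697), (nat_lit 6674412)]) (FT.cons (FT.leaf [(nat_lit 5150167), (nat_lit 5330563), (nat_lit 5513797), (nat_lit 5698932), (nat_lit 5885225), (nat_lit 6072082), (nat_lit 6259019), (nat_lit 6445638), (nat_lit 6631618), (nat_lit 6816690)]) (FT.cons (FT.leaf [(nat_lit 5481309), (nat_lit 5663918), (nat_lit 5848172), (nat_lit 6033377), (nat_lit 6218976), (nat_lit 6404516), (nat_lit 6589632), (nat_lit 6774020), (nat_lit 6957434)]) (FT.cons (FT.leaf [(nat_lit 5812863), (nat_lit 5996134), (nat_lit 6180171), (nat_lit 6364450), (nat_lit 6548551), (nat_lit 6732130), (nat_lit 6914906)]) (FT.cons (FT.leaf [(nat_lit 6142779), (nat_lit 6325578),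 (nat_lit 6508487), (nat_lit 6691112), (nat_lit 6873129)]) (FT.cons (FT.leaf [(nat_lit 6469580), (nat_lit 6651078), (nat_lit 6832195), (nat_lit 7012632)]) (FT.cons (FT.leaf [(nat_lit 6792213), (nat_lit 6971802)]) (FT.cons (FT.leaf [(nat_lit 7109935)]) FT.nil)))))))) (FT.cons (FT.cons (FT.leaf [(nat_lit 5361147), (nat_lit 5539857), (nat_lit 5721149), (nat_lit 5904132), (nat_lit 6088107), (nat_lit 6272510), (nat_lit 6456892), (nat_lit 6640882)]) (FT.cons (FT.leaf [(nat_lit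
 5688602), (nat_lit 5869163), (nat_lit 6051188), (nat_lit 6234017), (nat_lit 6417126), (nat_lit 6600091), (nat_lit 6782568)]) (FT.cons (FT.leaf [(nat_lit 6015965), (nat_lit 6196943), (nat_lit 6378560), (nat_lit 6560323), (nat_lit 6741835)]) (FT.cons (FT.leaf [(nat_lit 6341367), (nat_lit 6521715), (nat_lit 6702091), (nat_lit 6882120)]) (FT.cons (FT.leaf [(nat_lit 6663468), (nat_lit 6842421)]) (FT.cons (FT.leaf [(nat_lit 6981314)]) FT.nil)))))) (FT.cons (FT.cons (FT.leaf [(nat_lit 5892574), (nat_lit 6071032), (nat_lit 6250794), (nat_lit 6431236), (nat_lit 6611861), (nat_lit 6792270)]) (FT.cons (FT.leaf [(nat_lit 6215688), (nat_lit 6394354), (nat_lit 6573552), (nat_lit 6752814), (nat_lit 6931764)]) (FT.cons (FT.leaf [(nat_lit 6536578), (nat_lit 6714484), (nat_lit 6892348), (nat_lit 7069817)]) (FT.cons (FT.leaf [(nat_lit 6854022), (nat_lit 7030461)]) (FT.cons (FT.leaf [(nat_lit 7167155)]) FT.nil))))) (FT.cons (FT.cons (FT.leaf [(nat_lit 6412075),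 (nat_lit 6588425), (nat_lit 6765214), (nat_lit 6941997), (nat_lit 7118419)]) (FT.cons (FT.leaf [(nat_lit 6728474), (nat_lit 6903957), (nat_lit 7079339), (nat_lit 7254286)]) (FT.cons (FT.leaf [(nat_lit 7041319), (nat_lit 7215278)]) FT.nil)))
 (FT.cons (FT.cons (FT.leaf [(nat_lit 6917124)]) (FT.cons (FT.leaf [(nat_lit 7225435)]) FT.nil)) (FT.cons (FT.cons (FT.leaf [(nat_lit 7406450)]) FT.nil) (FT.cons (FT.cons (FT.leaf [(nat_lit 7879576)]) FT.nil) FT.nil))))))))) (FT.cons (FT.cons (FT.cons (FT.leaf [(nat_lit 4660657), (nat_lit 4826335), (nat_lit 4998794), (nat_lit 5176208), (nat_lit 5357210), (nat_lit 5540739), (nat_lit 5725955), (nat_lit 5912179), (nat_lit 6098859), (nat_lit 6285540), (nat_lit 6471848), (nat_lit 6657476), (nat_lit 6842168)]) (FT.cons (FT.leaf [(nat_lit 4975709), (nat_lit 5148767), (nat_lit 5326307), (nat_lit 5507049), (nat_lit 5690003), (nat_lit 5874383), (nat_lit 6059560), (nat_lit 6245017), (nat_lit 6430338), (nat_lit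 6615176), (nat_lit 6799243), (nat_lit 6982305)]) (FT.cons (FT.leaf [(nat_lit 5298138), (nat_lit 5475590), (nat_lit 5655901), (nat_lit 5838141), (nat_lit 6021577), (nat_lit 6205621), (nat_lit 6389794), (nat_lit 6573707), (nat_lit 6757037), (nat_lit 6939521)]) (FT.cons (FT.leaf [(nat_lit 5623956), (nat_lit 5803686), (nat_lit 5985094), (nat_lit 6167494), (nat_lit 6350334), (nat_lit 6533168), (nat_lit 6715633), (nat_lit 6897429), (nat_lit 7078311)]) (FT.cons (FT.leaf [(nat_lit 5950340),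
 (nat_lit 6130816), (nat_lit 6312100), (nat_lit 6493676), (nat_lit 6675126), (nat_lit 6856110), (nat_lit 7036352)]) (FT.cons (FT.leaf [(nat_lit 6275266), (nat_lit 6455368), (nat_lit 6635629), (nat_lit 6815658), (nat_lit 6995138)]) (FT.cons (FT.leaf [(nat_lit 6597277), (nat_lit 6776181), (nat_lit 6954761), (nat_lit 7132717)]) (FT.cons (FT.leaf [(nat_lit 6915327), (nat_lit 7092434)]) (FT.cons (FT.leaf [(nat_lit 7228679)]) FT.nil))))))))) (FT.cons (FT.cons (FT.leaf [(nat_lit 5186109), (nat_lit 5358050), (nat_lit 5534131), (nat_lit 5713129), (nat_lit 5894103), (nat_lit 6076313), (nat_lit 6259171), (nat_lit 6442192), (nat_lit 6624985), (nat_lit 6807228), (nat_lit 6988655)]) (FT.cons (FT.leaf [(nat_lit 5505714), (nat_lit 5681549), (nat_lit 5859991), (nat_lit 6040158), (nat_lit 6221356), (nat_lit 6403032), (nat_lit 6584737), (nat_lit 6766105), (nat_lit 6946837), (nat_lit 7126686)]) (FT.cons (FT.leaf [(nat_lit 5827979), (nat_lit 6005739), (nat_lit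 6184998), (nat_lit 6365104), (nat_lit 6545539), (nat_lit 6725883), (nat_lit 6905794), (nat_lit 7084993), (nat_lit 7263252)]) (FT.cons (FT.leaf [(nat_lit 6150319), (nat_lit 6328583), (nat_lit 6507531), (nat_lit 6686675), (nat_lit 6865621),
 (nat_lit 7044050), (nat_lit 7221702)]) (FT.cons (FT.leaf [(nat_lit 6470884), (nat_lit 6648617), (nat_lit 6826428), (nat_lit 7003947), (nat_lit 7180875)]) (FT.cons (FT.leaf [(nat_lit 6788348), (nat_lit 6964792), (nat_lit 7140861), (nat_lit 7316274)]) (FT.cons (FT.leaf [(nat_lit 7101764), (nat_lit 7276364)]) (FT.cons (FT.leaf [(nat_lit 7410463)]) FT.nil)))))))) (FT.cons (FT.cons (FT.leaf [(nat_lit 5710208), (nat_lit 5884322), (nat_lit 6060823), (nat_lit 6238870), (nat_lit 6417806), (nat_lit 6597108), (nat_lit 6776354), (nat_lit 6955200)]) (FT.cons (FT.leaf [(nat_lit 6028785), (nat_lit 6204520), (nat_lit 6381598), (nat_lit 6559400), (nat_lit 6737434), (nat_lit 6915306), (nat_lit 7092693)]) (FT.cons (FT.leaf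 [(nat_lit 6347024), (nat_lit 6523058), (nat_lit 6699669), (nat_lit 6876395), (nat_lit 7052863)]) (FT.cons (FT.leaf [(nat_lit 6663228), (nat_lit 6838602), (nat_lit 7013984), (nat_lit 7189025)]) (FT.cons (FT.leaf [(nat_lit 6976187), (nat_lit 7150198)]) (FT.cons (FT.leaf [(nat_lit 7285037)]) FT.nil)))))) (FT.cons (FT.cons (FT.leaf [(nat_lit 6226388), (nat_lit 6400062), (nat_lit 6574941), (nat_lit 6750438), (nat_lit 6926086), (nat_lit 7101510)]) (FT.cons (FT.leaf [(nat_lit 6540497),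
 (nat_lit 6714295), (nat_lit 6888579), (nat_lit 7062907), (nat_lit 7236928)]) (FT.cons (FT.leaf [(nat_lit 6852360), (nat_lit 7025390), (nat_lit 7198370), (nat_lit 7370968)]) (FT.cons (FT.leaf [(nat_lit 7160866), (nat_lit 7332476)]) (FT.cons (FT.leaf [(nat_lit 7465227)]) FT.nil))))) (FT.cons (FT.cons (FT.leaf [(nat_lit 6730788), (nat_lit 6902356), (nat_lit 7074327), (nat_lit 7246285), (nat_lit 7417893)]) (FT.cons (FT.leaf [(nat_lit 7038343), (nat_lit 7209053), (nat_lit 7379664), (nat_lit 7549859)]) (FT.cons (FT.leaf [(nat_lit 7342459), (nat_lit 7511705)]) FT.nil))) (FT.cons (FT.cons (FT.leaf [(nat_lit 7221247)]) (FT.cons (FT.leaf [(nat_lit 7521041)]) FT.nil)) (FT.cons (FT.cons (FT.leaf [(nat_lit 7696687)]) FT.nil) (FT.cons (FT.cons (FT.leaf [(nat_lit 8156720)]) FT.nil) FT.nil)))))))) (FT.cons (FT.cons (FT.cons (FT.leaf [(nat_lit 5537575), (nat_lit 5705441), (nat_lit 5877162), (nat_lit 6051578), (nat_lit 6227802), (nat_lit 6405140), (nat_lit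 6583040), (nat_lit 6761054), (nat_lit 6938818), (nat_lit 7116033)]) (FT.cons (FT.leaf [(nat_lit 5849052), (nat_lit 6020444), (nat_lit 6194251), (nat_lit 6369641), (nat_lit 6545963), (nat_lit 6722697), (nat_lit 6899427), (nat_lit 7075810),
 (nat_lit 7251569)]) (FT.cons (FT.leaf [(nat_lit 6162727), (nat_lit 6335817), (nat_lit 6510288), (nat_lit 6685527), (nat_lit 6861047), (nat_lit 7036455), (nat_lit 7211432)]) (FT.cons (FT.leaf [(nat_lit 6476233), (nat_lit 6649712), (nat_lit 6823813), (nat_lit 6998075), (nat_lit 7172132)]) (FT.cons (FT.leaf [(nat_lit 6787891), (nat_lit 6960805), (nat_lit 7133777), (nat_lit 7306458)]) (FT.cons (FT.leaf [(nat_lit 7096494), (nat_lit 7268146)]) (FT.cons (FT.leaf [(nat_lit 7401185)]) FT.nil))))))) (FT.cons (FT.cons (FT.leaf [(nat_lit 6047333), (nat_lit 6216998), (nat_lit 6388887), (nat_lit 6562205), (nat_lit 6736332), (nat_lit 6910778), (nat_lit 7085146), (nat_lit 7259117)]) (FT.cons (FT.leaf [(nat_lit 6357362),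 (nat_lit 6528467), (nat_lit 6700819), (nat_lit 6873831), (nat_lit 7047043), (nat_lit 7220082), (nat_lit 7392649)]) (FT.cons (FT.leaf [(nat_lit 6666882), (nat_lit 6838203), (nat_lit 7010053), (nat_lit 7181997), (nat_lit 7353684)]) (FT.cons (FT.leaf [(nat_lit 6974341), (nat_lit 7144990), (nat_lit 7315637), (nat_lit 7485952)]) (FT.cons (FT.leaf [(nat_lit 7278633), (nat_lit 7447961)]) (FT.cons (FT.leaf [(nat_lit 7578973)]) FT.nil)))))) (FT.cons (FT.cons (FT.leaf [(nat_lit 6548922),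
 (nat_lit 6718020), (nat_lit 6888244), (nat_lit 7059037), (nat_lit 7229960), (nat_lit 7400660)]) (FT.cons (FT.leaf [(nat_lit 6854446), (nat_lit 7023612), (nat_lit 7193227), (nat_lit 7362876), (nat_lit 7532227)]) (FT.cons (FT.leaf [(nat_lit 7157737), (nat_lit 7326142), (nat_lit 7494493), (nat_lit 7662480)]) (FT.cons (FT.leaf [(nat_lit 7457777), (nat_lit 7624814)]) (FT.cons (FT.leaf [(nat_lit 7753842)]) FT.nil))))) (FT.cons (FT.cons (FT.leaf [(nat_lit 7038980), (nat_lit 7206001), (nat_lit 7373402)]) (FT.cons (FT.leaf [(nat_lit 7338145), (nat_lit 7504331)]) (FT.cons (FT.leaf [(nat_lit 7633997)]) FT.nil))) (FT.cons (FT.cons (FT.leaf [(nat_lit 7515632)]) (FT.cons (FT.leaf [(nat_lit 7807364)]) FT.nil)) (FT.cons (FT.cons (FT.leaf [(nat_lit 7977950)]) FT.nil) FT.nil)))))) (FT.cons (FT.cons (FT.cons (FT.leaf [(nat_lit 6373185), (nat_lit 6538562), (nat_lit 6706027), (nat_lit 6874825), (nat_lit 7044368), (nat_lit 7214194), (nat_lit 7383931), (nat_lit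 7553278)]) (FT.cons (FT.leaf [(nat_lit 6675013), (nat_lit 6841688), (nat_lit 7009530), (nat_lit 7177984), (nat_lit 7346614), (nat_lit 7515070), (nat_lit 7683069)]) (FT.cons (FT.leaf [(nat_lit 6976216), (nat_lit 7143049), (nat_lit 7310373),
 (nat_lit 7477778), (nat_lit 7644933)]) (FT.cons (FT.leaf [(nat_lit 7275366), (nat_lit 7441528), (nat_lit 7607684), (nat_lit 7773522)]) (FT.cons (FT.leaf [(nat_lit 7571443), (nat_lit 7736332)]) (FT.cons (FT.leaf [(nat_lit 7863727)]) FT.nil)))))) (FT.cons (FT.cons (FT.leaf [(nat_lit 6860846), (nat_lit 7025575), (nat_lit 7191365), (nat_lit 7357687), (nat_lit 7524124), (nat_lit 7690344)]) (FT.cons (FT.leaf [(nat_lit 7158196), (nat_lit 7322955), (nat_lit 7488137), (nat_lit 7653347), (nat_lit 7818271)]) (FT.cons (FT.leaf [(nat_lit 7453351), (nat_lit 7617364), (nat_lit 7781328), (nat_lit 7944945)]) (FT.cons (FT.leaf [(nat_lit 7745368), (nat_lit 7908071)]) (FT.cons (FT.leaf [(nat_lit 8033579)]) FT.nil))))) (FT.cons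 (FT.cons (FT.leaf [(nat_lit 7337292), (nat_lit 7499992), (nat_lit 7663053)]) (FT.cons (FT.leaf [(nat_lit 7628498), (nat_lit 7790390)]) (FT.cons (FT.leaf [(nat_lit 7916520)]) FT.nil))) (FT.cons (FT.cons (FT.leaf [(nat_lit 7800872)]) (FT.cons (FT.leaf [(nat_lit 8084967)]) FT.nil)) (FT.cons (FT.cons (FT.leaf [(nat_lit 8250777)]) FT.nil) FT.nil))))) (FT.cons (FT.cons (FT.cons (FT.leaf [(nat_lit 7162791), (nat_lit 7323350), (nat_lit 7484918), (nat_lit 7646990), (nat_lit 7809168)])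
 (FT.cons (FT.leaf [(nat_lit 7452360), (nat_lit 7612927), (nat_lit 7773897), (nat_lit 7934894)]) (FT.cons (FT.leaf [(nat_lit 7739789), (nat_lit 7899633)]) (FT.cons (FT.leaf [(nat_lit 8024199)]) FT.nil)))) (FT.cons (FT.cons (FT.leaf [(nat_lit 7626316), (nat_lit 7784908), (nat_lit 7943849)]) (FT.cons (FT.leaf [(nat_lit 7909968), (nat_lit 8067784)]) (FT.cons (FT.leaf [(nat_lit 8190566)]) FT.nil))) (FT.cons (FT.cons (FT.leaf [(nat_lit 8077514)]) (FT.cons (FT.leaf [(nat_lit 8354366)]) FT.nil)) FT.nil))) (FT.cons (FT.cons (FT.cons (FT.leaf [(nat_lit 7906605)]) FT.nil) (FT.cons (FT.cons (FT.leaf [(nat_lit 8346057)]) FT.nil) FT.nil)) (FT.cons (FT.cons (FT.cons (FT.leaf [(nat_lit 8606961)]) FT.nil) FT.nil) (FT.cons (FT.cons (FT.cons (FT.leaf [(nat_lit 9267036)]) FT.nil) FT.nil) (FT.cons (FT.cons (FT.cons (FT.leaf [(nat_lit 9890160)]) FT.nil) FT.nil) FT.nil)))))))))) (FT.cons (FT.cons (FT.cons (FT.cons (FT.leaf [(nat_lit 4874889), (nat_lit 5014343),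 (nat_lit 5164079), (nat_lit 5321509), (nat_lit 5484767), (nat_lit 5652438), (nat_lit 5823410), (nat_lit 5996794), (nat_lit 6171866), (nat_lit 6348027), (nat_lit 6524783), (nat_lit 6701722), (nat_lit 6878499), (nat_lit 7054825), (nat_lit
 7230459)]) (FT.cons (FT.leaf [(nat_lit 5150046), (nat_lit 5301849), (nat_lit 5460672), (nat_lit 5624774), (nat_lit 5792839), (nat_lit 5963834), (nat_lit 6136933), (nat_lit 6311464), (nat_lit 6486873), (nat_lit 6662703), (nat_lit 6838572), (nat_lit 7014161), (nat_lit 7189205), (nat_lit 7363480)]) (FT.cons (FT.leaf [(nat_lit 5439918), (nat_lit 5599799), (nat_lit 5764476), (nat_lit 5932716), (nat_lit 6103556), (nat_lit 6276225), (nat_lit 6450099), (nat_lit 6624664), (nat_lit 6799494), (nat_lit 6974236), (nat_lit 7148595), (nat_lit 7322325)]) (FT.cons (FT.leaf [(nat_lit 5738715), (nat_lit 5903733), (nat_lit 6071958), (nat_lit 6242488), (nat_lit 6414604), (nat_lit 6587721), (nat_lit 6761361), (nat_lit 6935129),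 (nat_lit 7108696), (nat_lit 7281788)]) (FT.cons (FT.leaf [(nat_lit 6042427), (nat_lit 6210472), (nat_lit 6380559), (nat_lit 6552012), (nat_lit 6724286), (nat_lit 6896934), (nat_lit 7069586), (nat_lit 7241937), (nat_lit 7413732)]) (FT.cons (FT.leaf [(nat_lit 6348178), (nat_lit 6517705), (nat_lit 6688403), (nat_lit 6859759), (nat_lit 7031356), (nat_lit 7202848), (nat_lit 7373949)]) (FT.cons (FT.leaf [(nat_lit 6653877), (nat_lit 6823738), (nat_lit 6994112), (nat_lit 7164608),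
 (nat_lit 7334901)]) (FT.cons (FT.leaf [(nat_lit 6957984), (nat_lit 7127322), (nat_lit 7296675), (nat_lit 7465739)]) (FT.cons (FT.leaf [(nat_lit 7259372), (nat_lit 7427547)]) (FT.cons (FT.leaf [(nat_lit 7557216)]) FT.nil)))))))))) (FT.cons (FT.cons (FT.leaf [(nat_lit 5346184), (nat_lit 5498233), (nat_lit 5656825), (nat_lit 5820288), (nat_lit 5987369), (nat_lit 6157090), (nat_lit 6328676), (nat_lit 6501496), (nat_lit 6675034), (nat_lit 6848863), (nat_lit 7022628), (nat_lit 7196034), (nat_lit 7368833)]) (FT.cons (FT.leaf [(nat_lit 5635511), (nat_lit 5794901), (nat_lit 5958726), (nat_lit 6125809), (nat_lit 6295238), (nat_lit 6466285), (nat_lit 6638365), (nat_lit 6810994), (nat_lit 6983778), (nat_lit 7156385), (nat_lit 7328539), (nat_lit 7500016)]) (FT.cons (FT.leaf [(nat_lit 5932625), (nat_lit 6096609), (nat_lit 6263531), (nat_lit 6432533), (nat_lit 6602936), (nat_lit 6774188), (nat_lit 6945842), (nat_lit 7117526), (nat_lit 7288934), (nat_lit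 7459811)]) (FT.cons (FT.leaf [(nat_lit 6233839), (nat_lit 6400456), (nat_lit 6568916), (nat_lit 6738580), (nat_lit 6908932), (nat_lit 7079552), (nat_lit 7250093), (nat_lit 7420269), (nat_lit 7589842)]) (FT.cons (FT.leaf [(nat_lit 6536518),
 (nat_lit 6704335), (nat_lit 6873180), (nat_lit 7042569), (nat_lit 7212105), (nat_lit 7381465), (nat_lit 7550382)]) (FT.cons (FT.leaf [(nat_lit 6838748), (nat_lit 7006706), (nat_lit 7175075), (nat_lit 7343486), (nat_lit 7511635)]) (FT.cons (FT.leaf [(nat_lit 7139130), (nat_lit 7306434), (nat_lit 7473685), (nat_lit 7640597)]) (FT.cons (FT.leaf [(nat_lit 7436633), (nat_lit 7602695)]) (FT.cons (FT.leaf [(nat_lit 7730512)]) FT.nil))))))))) (FT.cons (FT.cons (FT.leaf [(nat_lit 5829020), (nat_lit 5987712), (nat_lit 6150520), (nat_lit 6316318), (nat_lit 6484238), (nat_lit 6653593), (nat_lit 6823829), (nat_lit 6994494), (nat_lit 7165217), (nat_lit 7335689), (nat_lit 7505654)]) (FT.cons (FT.leaf [(nat_lit 6124138),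 (nat_lit 6286952), (nat_lit 6452465), (nat_lit 6619861), (nat_lit 6788496), (nat_lit 6957849), (nat_lit 7127498), (nat_lit 7297095), (nat_lit 7466352), (nat_lit 7635031)]) (FT.cons (FT.leaf [(nat_lit 6422656), (nat_lit 6587761), (nat_lit 6754534), (nat_lit 6922368), (nat_lit 7090774), (nat_lit 7259357), (nat_lit 7427791), (nat_lit 7595807), (nat_lit 7763181)]) (FT.cons (FT.leaf [(nat_lit 6722150), (nat_lit 6888212), (nat_lit 7055176), (nat_lit 7222583), (nat_lit 7390058),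
 (nat_lit 7557298), (nat_lit 7724050)]) (FT.cons (FT.leaf [(nat_lit 7020862), (nat_lit 7186897), (nat_lit 7353257), (nat_lit 7519590), (nat_lit 7685611)]) (FT.cons (FT.leaf [(nat_lit 7317510), (nat_lit 7482784), (nat_lit 7647947), (nat_lit 7812726)]) (FT.cons (FT.leaf [(nat_lit 7611156), (nat_lit 7775123)]) (FT.cons (FT.leaf [(nat_lit 7901118)]) FT.nil)))))))) (FT.cons (FT.cons (FT.leaf [(nat_lit 6313189), (nat_lit 6474721), (nat_lit 6638743), (nat_lit 6804474), (nat_lit 6971301), (nat_lit 7138732), (nat_lit 7306368), (nat_lit 7473882)]) (FT.cons (FT.leaf [(nat_lit 6608858), (nat_lit 6772383), (nat_lit 6937423), (nat_lit 7103399), (nat_lit 7269848), (nat_lit 7436395), (nat_lit 7602732)]) (FT.cons (FT.leaf [(nat_lit 6905083), (nat_lit 7069357), (nat_lit 7234422), (nat_lit 7399843), (nat_lit 7565265)]) (FT.cons (FT.leaf [(nat_lit 7200247), (nat_lit 7364351), (nat_lit 7528704), (nat_lit 7692973)]) (FT.cons (FT.leaf [(nat_lit 7493170), (nat_lit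 7656423)]) (FT.cons (FT.leaf [(nat_lit 7782992)]) FT.nil)))))) (FT.cons (FT.cons (FT.leaf [(nat_lit 6792435), (nat_lit 6954332), (nat_lit 7117607), (nat_lit 7281708), (nat_lit 7446195), (nat_lit 7610713)]) (FT.cons (FT.leaf [(nat_lit 7085336),
 (nat_lit 7247799), (nat_lit 7410958), (nat_lit 7574396), (nat_lit 7737777)]) (FT.cons (FT.leaf [(nat_lit 7376938), (nat_lit 7539111), (nat_lit 7701467), (nat_lit 7863688)]) (FT.cons (FT.leaf [(nat_lit 7666157), (nat_lit 7827402)]) (FT.cons (FT.leaf [(nat_lit 7952199)]) FT.nil))))) (FT.cons (FT.cons (FT.leaf [(nat_lit 7262934), (nat_lit 7423575), (nat_lit 7584826), (nat_lit 7746290), (nat_lit 7907649)]) (FT.cons (FT.leaf [(nat_lit 7550978), (nat_lit 7711224), (nat_lit 7871597), (nat_lit 8031793)]) (FT.cons (FT.leaf [(nat_lit 7836519), (nat_lit 7995777)]) FT.nil))) (FT.cons (FT.cons (FT.leaf [(nat_lit 7722408)]) (FT.cons (FT.leaf [(nat_lit 8004310)]) FT.nil)) (FT.cons (FT.cons (FT.leaf [(nat_lit 8169585)])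 FT.nil) (FT.cons (FT.cons (FT.leaf [(nat_lit 8603846)]) FT.nil) FT.nil))))))))) (FT.cons (FT.cons (FT.cons (FT.leaf [(nat_lit 5680066), (nat_lit 5829631), (nat_lit 5985324), (nat_lit 6145540), (nat_lit 6309086), (nat_lit 6475039), (nat_lit 6642672), (nat_lit 6811397), (nat_lit 6980733), (nat_lit 7150285), (nat_lit 7319726), (nat_lit 7488782), (nat_lit 7657228)]) (FT.cons (FT.leaf [(nat_lit 5963946), (nat_lit 6120247), (nat_lit 6280676), (nat_lit 6444111), (nat_lit 6609690),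
 (nat_lit 6776730), (nat_lit 6944682), (nat_lit 7113098), (nat_lit 7281608), (nat_lit 7449908), (nat_lit 7617744), (nat_lit 7784905)]) (FT.cons (FT.leaf [(nat_lit 6254731), (nat_lit 6415197), (nat_lit 6578381), (nat_lit 6743470), (nat_lit 6909827), (nat_lit 7076933), (nat_lit 7244372), (nat_lit 7411797), (nat_lit 7578923), (nat_lit 7745514)]) (FT.cons (FT.leaf [(nat_lit 6549020), (nat_lit 6711829), (nat_lit 6876332), (nat_lit 7041924), (nat_lit 7208124), (nat_lit 7374536), (nat_lit 7540838), (nat_lit 7706764), (nat_lit 7872092)]) (FT.cons (FT.leaf [(nat_lit 6844403), (nat_lit 7008232), (nat_lit 7172993), (nat_lit 7338231), (nat_lit 7503576), (nat_lit 7668725), (nat_lit 7833427)]) (FT.cons (FT.leaf [(nat_lit 7139137), (nat_lit 7303007), (nat_lit 7467238), (nat_lit 7631481), (nat_lit 7795451)]) (FT.cons (FT.leaf [(nat_lit 7431947), (nat_lit 7595133), (nat_lit 7758244), (nat_lit 7921014)]) (FT.cons (FT.leaf [(nat_lit 7721904), (nat_lit 7883860)])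 (FT.cons (FT.leaf [(nat_lit 8008329)]) FT.nil))))))))) (FT.cons (FT.cons (FT.leaf [(nat_lit 6152484), (nat_lit 6307965), (nat_lit 6467291), (nat_lit 6629390), (nat_lit 6793439), (nat_lit 6958790), (nat_lit 7124924), (nat_lit 7291418),
 (nat_lit 7457927), (nat_lit 7624162), (nat_lit 7789885)]) (FT.cons (FT.leaf [(nat_lit 6441112), (nat_lit 6600348), (nat_lit 6762094), (nat_lit 6925575), (nat_lit 7090181), (nat_lit 7255425), (nat_lit 7420912), (nat_lit 7586314), (nat_lit 7751366), (nat_lit 7915843)]) (FT.cons (FT.leaf [(nat_lit 6732650), (nat_lit 6893936), (nat_lit 7056762), (nat_lit 7220556), (nat_lit 7384857), (nat_lit 7549293), (nat_lit 7713560), (nat_lit 7877405), (nat_lit 8040621)]) (FT.cons (FT.leaf [(nat_lit 7024870), (nat_lit 7186967), (nat_lit 7349889), (nat_lit 7513201), (nat_lit 7676553), (nat_lit 7839658), (nat_lit 8002279)]) (FT.cons (FT.leaf [(nat_lit 7316163), (nat_lit 7478161), (nat_lit 7640445), (nat_lit 7802683), (nat_lit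 7964605)]) (FT.cons (FT.leaf [(nat_lit 7605357), (nat_lit 7766580), (nat_lit 7927680), (nat_lit 8088402)]) (FT.cons (FT.leaf [(nat_lit 7891600), (nat_lit 8051541)]) (FT.cons (FT.leaf [(nat_lit 8174267)]) FT.nil)))))))) (FT.cons (FT.cons (FT.leaf [(nat_lit 6625058), (nat_lit 6782978), (nat_lit 6943223), (nat_lit 7105051), (nat_lit 7267882), (nat_lit 7431251), (nat_lit 7594785), (nat_lit 7758174)]) (FT.cons (FT.leaf [(nat_lit 6913730), (nat_lit 7073442), (nat_lit 7234561),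
 (nat_lit 7396539), (nat_lit 7558938), (nat_lit 7721404), (nat_lit 7883649)]) (FT.cons (FT.leaf [(nat_lit 7202729), (nat_lit 7363075), (nat_lit 7524148), (nat_lit 7685537), (nat_lit 7846907)]) (FT.cons (FT.leaf [(nat_lit 7490569), (nat_lit 7650694), (nat_lit 7811039), (nat_lit 7971289)]) (FT.cons (FT.leaf [(nat_lit 7776166), (nat_lit 7935439)]) (FT.cons (FT.leaf [(nat_lit 8058733)]) FT.nil)))))) (FT.cons (FT.cons (FT.leaf [(nat_lit 7092264), (nat_lit 7250368), (nat_lit 7409758), (nat_lit 7569911), (nat_lit 7730409), (nat_lit 7890917)]) (FT.cons (FT.leaf [(nat_lit 7378008), (nat_lit 7536588), (nat_lit 7695812), (nat_lit 7855285), (nat_lit 8014689)]) (FT.cons (FT.leaf [(nat_lit 7662394), (nat_lit 7820651), (nat_lit 7979070), (nat_lit 8137351)]) (FT.cons (FT.leaf [(nat_lit 7944420), (nat_lit 8101762)]) (FT.cons (FT.leaf [(nat_lit 8223358)]) FT.nil))))) (FT.cons (FT.cons (FT.leaf [(nat_lit 7550736), (nat_lit 7707546), (nat_lit 7864925), (nat_lit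 8022495), (nat_lit 8179953)]) (FT.cons (FT.leaf [(nat_lit 7831680), (nat_lit 7988078), (nat_lit 8144589), (nat_lit 8300925)]) (FT.cons (FT.leaf [(nat_lit 8110169), (nat_lit 8265601)]) FT.nil))) (FT.cons (FT.cons (FT.leaf [(nat_lit 7998474)])
 (FT.cons (FT.leaf [(nat_lit 8273467)]) FT.nil)) (FT.cons (FT.cons (FT.leaf [(nat_lit 8434363)]) FT.nil) (FT.cons (FT.cons (FT.leaf [(nat_lit 8857873)]) FT.nil) FT.nil)))))))) (FT.cons (FT.cons (FT.cons (FT.leaf [(nat_lit 6466289), (nat_lit 6618570), (nat_lit 6774465), (nat_lit 6932947), (nat_lit 7093235), (nat_lit 7254715), (nat_lit 7416899), (nat_lit 7579389), (nat_lit 7741862), (nat_lit 7904047)]) (FT.cons (FT.leaf [(nat_lit 6748515), (nat_lit 6904246), (nat_lit 7062326), (nat_lit 7222016), (nat_lit 7382740), (nat_lit 7544036), (nat_lit 7705533), (nat_lit 7866924), (nat_lit 8027959)]) (FT.cons (FT.leaf [(nat_lit 7033259), (nat_lit 7190842), (nat_lit 7349860), (nat_lit 7509768), (nat_lit 7670131),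 (nat_lit 7830599), (nat_lit 7990884)]) (FT.cons (FT.leaf [(nat_lit 7318457), (nat_lit 7476738), (nat_lit 7635779), (nat_lit 7795170), (nat_lit 7954580)]) (FT.cons (FT.leaf [(nat_lit 7602629), (nat_lit 7760760), (nat_lit 7919146), (nat_lit 8077473)]) (FT.cons (FT.leaf [(nat_lit 7884698), (nat_lit 8042049)]) (FT.cons (FT.leaf [(nat_lit 8163878)]) FT.nil))))))) (FT.cons (FT.cons (FT.leaf [(nat_lit 6927542), (nat_lit 7081943), (nat_lit 7238528), (nat_lit 7396590), (nat_lit 7555577),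
 (nat_lit 7715051), (nat_lit 7874658), (nat_lit 8034108)]) (FT.cons (FT.leaf [(nat_lit 7209433), (nat_lit 7365462), (nat_lit 7522807), (nat_lit 7680947), (nat_lit 7839466), (nat_lit 7998032), (nat_lit 8156371)]) (FT.cons (FT.leaf [(nat_lit 7491478), (nat_lit 7648050), (nat_lit 7805297), (nat_lit 7962829), (nat_lit 8120328)]) (FT.cons (FT.leaf [(nat_lit 7772300), (nat_lit 7928617), (nat_lit 8085132), (nat_lit 8241546)]) (FT.cons (FT.leaf [(nat_lit 8050898), (nat_lit 8206374)]) (FT.cons (FT.leaf [(nat_lit 8326549)]) FT.nil)))))) (FT.cons (FT.cons (FT.leaf [(nat_lit 7383148), (nat_lit 7537597), (nat_lit 7693255), (nat_lit 7849624), (nat_lit 8006306), (nat_lit 8162984)]) (FT.cons (FT.leaf [(nat_lit 7662018), (nat_lit 7816874), (nat_lit 7972331), (nat_lit 8128015), (nat_lit 8283623)]) (FT.cons (FT.leaf [(nat_lit 7939499), (nat_lit 8094012), (nat_lit 8248673), (nat_lit 8403194)]) (FT.cons (FT.leaf [(nat_lit 8214660), (nat_lit 8368277)]) (FT.cons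 (FT.leaf [(nat_lit 8486830)]) FT.nil))))) (FT.cons (FT.cons (FT.leaf [(nat_lit 7830112), (nat_lit 7983251), (nat_lit 8136927)]) (FT.cons (FT.leaf [(nat_lit 8104270), (nat_lit 8256991)]) (FT.cons (FT.leaf [(nat_lit 8376032)]) FT.nil))) (FT.cons
 (FT.cons (FT.leaf [(nat_lit 8266658)]) (FT.cons (FT.leaf [(nat_lit 8535062)]) FT.nil)) (FT.cons (FT.cons (FT.leaf [(nat_lit 8691802)]) FT.nil) FT.nil)))))) (FT.cons (FT.cons (FT.cons (FT.leaf [(nat_lit 7221100), (nat_lit 7372084), (nat_lit 7525133), (nat_lit 7679568), (nat_lit 7834864), (nat_lit 7990605), (nat_lit 8146456), (nat_lit 8302142)]) (FT.cons (FT.leaf [(nat_lit 7496439), (nat_lit 7648917), (nat_lit 7802634), (nat_lit 7957093), (nat_lit 8111900), (nat_lit 8266737), (nat_lit 8421347)]) (FT.cons (FT.leaf [(nat_lit 7771801), (nat_lit 7924751), (nat_lit 8078334), (nat_lit 8232177), (nat_lit 8385980)]) (FT.cons (FT.leaf [(nat_lit 8045904), (nat_lit 8198579), (nat_lit 8351434), (nat_lit 8504185)])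 (FT.cons (FT.leaf [(nat_lit 8317820), (nat_lit 8469667)]) (FT.cons (FT.leaf [(nat_lit 8586875)]) FT.nil)))))) (FT.cons (FT.cons (FT.leaf [(nat_lit 7665552), (nat_lit 7816485), (nat_lit 7968562), (nat_lit 8121306), (nat_lit 8274339), (nat_lit 8427359)]) (FT.cons (FT.leaf [(nat_lit 7937829), (nat_lit 8089115), (nat_lit 8240968), (nat_lit 8393030), (nat_lit 8545014)]) (FT.cons (FT.leaf [(nat_lit 8208705), (nat_lit 8359639), (nat_lit 8510709), (nat_lit 8661643)]) (FT.cons (FT.leaf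
 [(nat_lit 8477314), (nat_lit 8627375)]) (FT.cons (FT.leaf [(nat_lit 8743029)]) FT.nil))))) (FT.cons (FT.cons (FT.leaf [(nat_lit 8101511), (nat_lit 8251137), (nat_lit 8401271)]) (FT.cons (FT.leaf [(nat_lit 8369183), (nat_lit 8518391)]) (FT.cons (FT.leaf [(nat_lit 8634525)]) FT.nil))) (FT.cons (FT.cons (FT.leaf [(nat_lit 8527385)]) (FT.cons (FT.leaf [(nat_lit 8789503)]) FT.nil)) (FT.cons (FT.cons (FT.leaf [(nat_lit 8942294)]) FT.nil) FT.nil))))) (FT.cons (FT.cons (FT.cons (FT.leaf [(nat_lit 7939922), (nat_lit 8087471), (nat_lit 8236114), (nat_lit 8385387), (nat_lit 8534929)]) (FT.cons (FT.leaf [(nat_lit 8205873), (nat_lit 8353739), (nat_lit 8502144), (nat_lit 8650744)]) (FT.cons (FT.leaf [(nat_lit 8470433), (nat_lit 8617944)]) (FT.cons (FT.leaf [(nat_lit 8732785)]) FT.nil)))) (FT.cons (FT.cons (FT.leaf [(nat_lit 8365356), (nat_lit 8511617), (nat_lit 8658364)]) (FT.cons (FT.leaf [(nat_lit 8626829), (nat_lit 8772678)]) (FT.cons (FT.leaf [(nat_lit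 8886042)]) FT.nil))) (FT.cons (FT.cons (FT.leaf [(nat_lit 8781048)]) (FT.cons (FT.leaf [(nat_lit 9037165)]) FT.nil)) FT.nil))) (FT.cons (FT.cons (FT.cons (FT.leaf [(nat_lit 8622039)]) FT.nil) (FT.cons (FT.cons (FT.leaf [(nat_lit 9028013)])
 FT.nil) FT.nil)) (FT.cons (FT.cons (FT.cons (FT.leaf [(nat_lit 9268622)]) FT.nil) FT.nil) (FT.cons (FT.cons (FT.cons (FT.leaf [(nat_lit 9881658)]) FT.nil) FT.nil) (FT.cons (FT.cons (FT.cons (FT.leaf [(nat_lit 10463453)]) FT.nil) FT.nil) FT.nil))))))))) (FT.cons (FT.cons (FT.cons (FT.cons (FT.leaf [(nat_lit 6577716), (nat_lit 6714683), (nat_lit 6857249), (nat_lit 7003975), (nat_lit 7153798), (nat_lit 7305899), (nat_lit 7459635), (nat_lit 7614484), (nat_lit 7770024), (nat_lit 7925902), (nat_lit 8081830)]) (FT.cons (FT.leaf [(nat_lit 6837229), (nat_lit 6980390), (nat_lit 7127370), (nat_lit 7277170), (nat_lit 7429022), (nat_lit 7582320), (nat_lit 7736578), (nat_lit 7891397), (nat_lit 8046449), (nat_lit 8201463)])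 (FT.cons (FT.leaf [(nat_lit 7103195), (nat_lit 7250282), (nat_lit 7399940), (nat_lit 7551446), (nat_lit 7704229), (nat_lit 7857832), (nat_lit 8011881), (nat_lit 8166069), (nat_lit 8320137)]) (FT.cons (FT.leaf [(nat_lit 7372642), (nat_lit 7522053), (nat_lit 7673129), (nat_lit 7825329), (nat_lit 7978223), (nat_lit 8131459), (nat_lit 8284746)]) (FT.cons (FT.leaf [(nat_lit 7643465), (nat_lit 7794035), (nat_lit 7945593), (nat_lit 8097731), (nat_lit 8250115)]) (FT.cons (FT.leaf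
 [(nat_lit 7914136), (nat_lit 8064999), (nat_lit 8216338), (nat_lit 8367840)]) (FT.cons (FT.leaf [(nat_lit 8183528), (nat_lit 8334033)]) (FT.cons (FT.leaf [(nat_lit 8450806)]) (FT.cons (FT.leaf [(nat_lit 8715352)]) FT.nil))))))))) (FT.cons (FT.cons (FT.leaf [(nat_lit 7008699), (nat_lit 7151230), (nat_lit 7297344), (nat_lit 7446080), (nat_lit 7596704), (nat_lit 7748639), (nat_lit 7901422), (nat_lit 8054676), (nat_lit 8208090), (nat_lit 8361409)]) (FT.cons (FT.leaf [(nat_lit 7272950), (nat_lit 7419065), (nat_lit 7567573), (nat_lit 7717784), (nat_lit 7869152), (nat_lit 8021240), (nat_lit 8173694), (nat_lit 8326223), (nat_lit 8478585)]) (FT.cons (FT.leaf [(nat_lit 7540186), (nat_lit 7688375), (nat_lit 7838097), (nat_lit 7988838), (nat_lit 8140184), (nat_lit 8291802), (nat_lit 8443417)]) (FT.cons (FT.leaf [(nat_lit 7808446), (nat_lit 7957615), (nat_lit 8107676), (nat_lit 8258239), (nat_lit 8408988)]) (FT.cons (FT.leaf [(nat_lit 8076312), (nat_lit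 8225648), (nat_lit 8375391), (nat_lit 8525243)]) (FT.cons (FT.leaf [(nat_lit 8342738), (nat_lit 8491631)]) (FT.cons (FT.leaf [(nat_lit 8606951)]) (FT.cons (FT.leaf [(nat_lit 8868380)]) FT.nil)))))))) (FT.cons (FT.cons (FT.leaf [(nat_lit
 7440715), (nat_lit 7585784), (nat_lit 7733089), (nat_lit 7881965), (nat_lit 8031891), (nat_lit 8182450), (nat_lit 8333305), (nat_lit 8484179)]) (FT.cons (FT.leaf [(nat_lit 7705640), (nat_lit 7852564), (nat_lit 8000903), (nat_lit 8150165), (nat_lit 8299955), (nat_lit 8449955), (nat_lit 8599903)]) (FT.cons (FT.leaf [(nat_lit 7971286), (nat_lit 8119031), (nat_lit 8267583), (nat_lit 8416568), (nat_lit 8565686)]) (FT.cons (FT.leaf [(nat_lit 8236327), (nat_lit 8384129), (nat_lit 8532279), (nat_lit 8680490)]) (FT.cons (FT.leaf [(nat_lit 8499793), (nat_lit 8647080)]) (FT.cons (FT.leaf [(nat_lit 8760965)]) FT.nil)))))) (FT.cons (FT.cons (FT.leaf [(nat_lit 7869006), (nat_lit 8014630), (nat_lit 8161564), (nat_lit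 8309336), (nat_lit 8457567), (nat_lit 8605954)]) (FT.cons (FT.leaf [(nat_lit 8131999), (nat_lit 8278305), (nat_lit 8425342), (nat_lit 8572752), (nat_lit 8720245)]) (FT.cons (FT.leaf [(nat_lit 8394207), (nat_lit 8540475), (nat_lit 8687037), (nat_lit 8833617)]) (FT.cons (FT.leaf [(nat_lit 8654726), (nat_lit 8800416)]) (FT.cons (FT.leaf [(nat_lit 8912885)]) FT.nil))))) (FT.cons (FT.cons (FT.leaf [(nat_lit 8290607), (nat_lit 8435465), (nat_lit 8580985)]) (FT.cons (FT.leaf [(nat_lit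
 8549984), (nat_lit 8694719)]) (FT.cons (FT.leaf [(nat_lit 8807573)]) FT.nil))) (FT.cons (FT.cons (FT.leaf [(nat_lit 8703687)]) (FT.cons (FT.leaf [(nat_lit 8958371)]) FT.nil)) (FT.cons (FT.cons (FT.leaf [(nat_lit 9107159)]) FT.nil) FT.nil))))))) (FT.cons (FT.cons (FT.cons (FT.leaf [(nat_lit 7293117), (nat_lit 7433045), (nat_lit 7576364), (nat_lit 7722148), (nat_lit 7869695), (nat_lit 8018456), (nat_lit 8167992), (nat_lit 8317947), (nat_lit 8468027), (nat_lit 8617992)]) (FT.cons (FT.leaf [(nat_lit 7552149), (nat_lit 7695404), (nat_lit 7840916), (nat_lit 7988020), (nat_lit 8136199), (nat_lit 8285036), (nat_lit 8434197), (nat_lit 8583406), (nat_lit 8732434)]) (FT.cons (FT.leaf [(nat_lit 7813830), (nat_lit 7958988), (nat_lit 8105584), (nat_lit 8253127), (nat_lit 8401224), (nat_lit 8549559), (nat_lit 8697871)]) (FT.cons (FT.leaf [(nat_lit 8076332), (nat_lit 8222361), (nat_lit 8369223), (nat_lit 8516544), (nat_lit 8664025)]) (FT.cons (FT.leaf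 [(nat_lit 8338332), (nat_lit 8484471), (nat_lit 8630986), (nat_lit 8777588)]) (FT.cons (FT.leaf [(nat_lit 8598861), (nat_lit 8744540)]) (FT.cons (FT.leaf [(nat_lit 8857204)]) FT.nil))))))) (FT.cons (FT.cons (FT.leaf [(nat_lit 7715891), (nat_lit
 7858084), (nat_lit 8002390), (nat_lit 8148172), (nat_lit 8294932), (nat_lit 8442275), (nat_lit 8589878), (nat_lit 8737481)]) (FT.cons (FT.leaf [(nat_lit 7975262), (nat_lit 8119162), (nat_lit 8264395), (nat_lit 8410489), (nat_lit 8557070), (nat_lit 8703834), (nat_lit 8850532)]) (FT.cons (FT.leaf [(nat_lit 8235188), (nat_lit 8379821), (nat_lit 8525209), (nat_lit 8670997), (nat_lit 8816896)]) (FT.cons (FT.leaf [(nat_lit 8494432), (nat_lit 8639079), (nat_lit 8784047), (nat_lit 8929061)]) (FT.cons (FT.leaf [(nat_lit 8752090), (nat_lit 8896214)]) (FT.cons (FT.leaf [(nat_lit 9007495)]) FT.nil)))))) (FT.cons (FT.cons (FT.leaf [(nat_lit 8134666), (nat_lit 8277281), (nat_lit 8421135), (nat_lit 8565775), (nat_lit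 8710839), (nat_lit 8856038)]) (FT.cons (FT.leaf [(nat_lit 8391990), (nat_lit 8535216), (nat_lit 8679129), (nat_lit 8823387), (nat_lit 8967715)]) (FT.cons (FT.leaf [(nat_lit 8648478), (nat_lit 8791635), (nat_lit 8935063), (nat_lit 9078501)]) (FT.cons (FT.leaf [(nat_lit 8903283), (nat_lit 9045861)]) (FT.cons (FT.leaf [(nat_lit 9155780)]) FT.nil))))) (FT.cons (FT.cons (FT.leaf [(nat_lit 8546762), (nat_lit 8688575), (nat_lit 8831015)]) (FT.cons (FT.leaf [(nat_lit 8800500), (nat_lit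
 8942170)]) (FT.cons (FT.leaf [(nat_lit 9052473)]) FT.nil))) (FT.cons (FT.cons (FT.leaf [(nat_lit 8950529)]) (FT.cons (FT.leaf [(nat_lit 9199697)]) FT.nil)) (FT.cons (FT.cons (FT.leaf [(nat_lit 9344992)]) FT.nil) FT.nil)))))) (FT.cons (FT.cons (FT.cons (FT.leaf [(nat_lit 7983776), (nat_lit 8123159), (nat_lit 8264553), (nat_lit 8407339), (nat_lit 8551042), (nat_lit 8695285), (nat_lit 8839761), (nat_lit 8984220)]) (FT.cons (FT.leaf [(nat_lit 8237750), (nat_lit 8378719), (nat_lit 8520950), (nat_lit 8663990), (nat_lit 8807480), (nat_lit 8951133), (nat_lit 9094711)]) (FT.cons (FT.leaf [(nat_lit 8492150), (nat_lit 8633779), (nat_lit 8776120), (nat_lit 8918832), (nat_lit 9061640)]) (FT.cons (FT.leaf [(nat_lit 8745813), (nat_lit 8887424), (nat_lit 9029333), (nat_lit 9171278)]) (FT.cons (FT.leaf [(nat_lit 8997894), (nat_lit 9138979)]) (FT.cons (FT.leaf [(nat_lit 9247767)]) FT.nil)))))) (FT.cons (FT.cons (FT.leaf [(nat_lit 8393349), (nat_lit 8533055),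 (nat_lit 8673937), (nat_lit 8815559), (nat_lit 8957578), (nat_lit 9099715)]) (FT.cons (FT.leaf [(nat_lit 8645206), (nat_lit 8785463), (nat_lit 8926370), (nat_lit 9067600), (nat_lit 9208887)]) (FT.cons (FT.leaf [(nat_lit 8896192), (nat_lit
 9036356), (nat_lit 9176776), (nat_lit 9317199)]) (FT.cons (FT.leaf [(nat_lit 9145512), (nat_lit 9285103)]) (FT.cons (FT.leaf [(nat_lit 9392582)]) FT.nil))))) (FT.cons (FT.cons (FT.leaf [(nat_lit 8796306), (nat_lit 8935187), (nat_lit 9074665)]) (FT.cons (FT.leaf [(nat_lit 9044624), (nat_lit 9183349)]) (FT.cons (FT.leaf [(nat_lit 9291208)]) FT.nil))) (FT.cons (FT.cons (FT.leaf [(nat_lit 9191142)]) (FT.cons (FT.leaf [(nat_lit 9435017)]) FT.nil)) (FT.cons (FT.cons (FT.leaf [(nat_lit 9576977)]) FT.nil) FT.nil))))) (FT.cons (FT.cons (FT.cons (FT.leaf [(nat_lit 8645380), (nat_lit 8782274), (nat_lit 8920289), (nat_lit 9059006), (nat_lit 9198095)]) (FT.cons (FT.leaf [(nat_lit 8891968), (nat_lit 9029364), (nat_lit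 9167378), (nat_lit 9305696)]) (FT.cons (FT.leaf [(nat_lit 9137662), (nat_lit 9274950)]) (FT.cons (FT.leaf [(nat_lit 9381716)]) FT.nil)))) (FT.cons (FT.cons (FT.leaf [(nat_lit 9039551), (nat_lit 9175611), (nat_lit 9312239)]) (FT.cons (FT.leaf [(nat_lit 9282662), (nat_lit 9418556)]) (FT.cons (FT.leaf [(nat_lit 9524074)]) FT.nil))) (FT.cons (FT.cons (FT.leaf [(nat_lit 9425822)]) (FT.cons (FT.leaf [(nat_lit 9664619)]) FT.nil)) FT.nil))) (FT.cons (FT.cons (FT.cons (FT.leaf [(nat_lit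
 9276793)]) FT.nil) (FT.cons (FT.cons (FT.leaf [(nat_lit 9654846)]) FT.nil) FT.nil)) (FT.cons (FT.cons (FT.cons (FT.leaf [(nat_lit 9878474)]) FT.nil) FT.nil) (FT.cons (FT.cons (FT.cons (FT.leaf [(nat_lit 10451691)]) FT.nil) FT.nil) (FT.cons (FT.cons (FT.cons (FT.leaf [(nat_lit 10998066)]) FT.nil) FT.nil) FT.nil)))))))) (FT.cons (FT.cons (FT.cons (FT.cons (FT.leaf [(nat_lit 8040100), (nat_lit 8169926), (nat_lit 8302944), (nat_lit 8438304), (nat_lit 8575369), (nat_lit 8713641), (nat_lit 8852720), (nat_lit 8992283), (nat_lit 9132065), (nat_lit 9271845)]) (FT.cons (FT.leaf [(nat_lit 8280165), (nat_lit 8413183), (nat_lit 8548358), (nat_lit 8685086), (nat_lit 8822897), (nat_lit 8961412), (nat_lit 9100325), (nat_lit 9239387), (nat_lit 9378387)]) (FT.cons (FT.leaf [(nat_lit 8522917), (nat_lit 8657835), (nat_lit 8794169), (nat_lit 8931471), (nat_lit 9069384), (nat_lit 9207618), (nat_lit 9345935)]) (FT.cons (FT.leaf [(nat_lit 8766706), (nat_lit 8902594),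 (nat_lit 9039347), (nat_lit 9176625), (nat_lit 9314154)]) (FT.cons (FT.leaf [(nat_lit 9010343), (nat_lit 9146510), (nat_lit 9283125), (nat_lit 9419925)]) (FT.cons (FT.leaf [(nat_lit 9252950), (nat_lit 9388875)]) (FT.cons (FT.leaf [(nat_lit
 9493870)]) FT.nil))))))) (FT.cons (FT.cons (FT.leaf [(nat_lit 8431408), (nat_lit 8563553), (nat_lit 8697731), (nat_lit 8833358), (nat_lit 8969982), (nat_lit 9107241), (nat_lit 9244843), (nat_lit 9382547)]) (FT.cons (FT.leaf [(nat_lit 8672240), (nat_lit 8806113), (nat_lit 8941309), (nat_lit 9077397), (nat_lit 9214033), (nat_lit 9350941), (nat_lit 9487891)]) (FT.cons (FT.leaf [(nat_lit 8913874), (nat_lit 9048593), (nat_lit 9184107), (nat_lit 9320092), (nat_lit 9456282)]) (FT.cons (FT.leaf [(nat_lit 9155192), (nat_lit 9290101), (nat_lit 9425409), (nat_lit 9560863)]) (FT.cons (FT.leaf [(nat_lit 9395370), (nat_lit 9529978)]) (FT.cons (FT.leaf [(nat_lit 9633795)]) FT.nil)))))) (FT.cons (FT.cons (FT.leaf [(nat_lit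 8819851), (nat_lit 8952654), (nat_lit 9086696), (nat_lit 9221560), (nat_lit 9356918)]) (FT.cons (FT.leaf [(nat_lit 9059302), (nat_lit 9192840), (nat_lit 9327113), (nat_lit 9461804)]) (FT.cons (FT.leaf [(nat_lit 9298295), (nat_lit 9431946)]) (FT.cons (FT.leaf [(nat_lit 9536055)]) (FT.cons (FT.leaf [(nat_lit 9772004)]) FT.nil))))) (FT.cons (FT.cons (FT.leaf [(nat_lit 9203009), (nat_lit 9335357), (nat_lit 9468385)]) (FT.cons (FT.leaf [(nat_lit 9439676), (nat_lit 9572069)])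
 (FT.cons (FT.leaf [(nat_lit 9675030)]) FT.nil))) (FT.cons (FT.cons (FT.leaf [(nat_lit 9579359)]) (FT.cons (FT.leaf [(nat_lit 9812322)]) FT.nil)) (FT.cons (FT.cons (FT.leaf [(nat_lit 9947962)]) FT.nil) FT.nil)))))) (FT.cons (FT.cons (FT.cons (FT.leaf [(nat_lit 8678288), (nat_lit 8808073), (nat_lit 8939795), (nat_lit 9072892), (nat_lit 9206928), (nat_lit 9341558)]) (FT.cons (FT.leaf [(nat_lit 8914575), (nat_lit 9045974), (nat_lit 9178630), (nat_lit 9312128), (nat_lit 9446140)]) (FT.cons (FT.leaf [(nat_lit 9151537), (nat_lit 9283711), (nat_lit 9416639), (nat_lit 9550006)]) (FT.cons (FT.leaf [(nat_lit 9388121), (nat_lit 9520448)]) (FT.cons (FT.leaf [(nat_lit 9623550)]) (FT.cons (FT.leaf [(nat_lit 9857250)]) FT.nil)))))) (FT.cons (FT.cons (FT.leaf [(nat_lit 9058971), (nat_lit 9189313), (nat_lit 9320835), (nat_lit 9453136), (nat_lit 9585900)]) (FT.cons (FT.leaf [(nat_lit 9293790), (nat_lit 9424807), (nat_lit 9556521), (nat_lit 9688630)]) (FT.cons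 (FT.leaf [(nat_lit 9528106), (nat_lit 9659207)]) (FT.cons (FT.leaf [(nat_lit 9761185)]) (FT.cons (FT.leaf [(nat_lit 9992487)]) FT.nil))))) (FT.cons (FT.cons (FT.leaf [(nat_lit 9434378), (nat_lit 9564232), (nat_lit 9694733)]) (FT.cons (FT.leaf
 [(nat_lit 9666428), (nat_lit 9796304)]) (FT.cons (FT.leaf [(nat_lit 9897172)]) FT.nil))) (FT.cons (FT.cons (FT.leaf [(nat_lit 9803111)]) (FT.cons (FT.leaf [(nat_lit 10031537)]) FT.nil)) (FT.cons (FT.cons (FT.leaf [(nat_lit 10164308)]) FT.nil) FT.nil))))) (FT.cons (FT.cons (FT.cons (FT.leaf [(nat_lit 9292469), (nat_lit 9420423), (nat_lit 9549504), (nat_lit 9679326)]) (FT.cons (FT.leaf [(nat_lit 9522806), (nat_lit 9651383), (nat_lit 9780625)]) (FT.cons (FT.leaf [(nat_lit 9752603)]) FT.nil))) (FT.cons (FT.cons (FT.leaf [(nat_lit 9660393), (nat_lit 9787836)]) (FT.cons (FT.leaf [(nat_lit 9887987)]) FT.nil)) (FT.cons (FT.cons (FT.leaf [(nat_lit 10021788)]) FT.nil) FT.nil))) (FT.cons (FT.cons (FT.cons (FT.leaf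 [(nat_lit 9881283)]) FT.nil) (FT.cons (FT.cons (FT.leaf [(nat_lit 10235610)]) FT.nil) FT.nil)) (FT.cons (FT.cons (FT.cons (FT.leaf [(nat_lit 10444780)]) FT.nil) FT.nil) (FT.cons (FT.cons (FT.cons (FT.leaf [(nat_lit 10983752)]) FT.nil) FT.nil) FT.nil)))))) (FT.cons (FT.cons (FT.cons (FT.cons (FT.leaf [(nat_lit 9316871), (nat_lit 9438540), (nat_lit 9562072), (nat_lit 9686948), (nat_lit 9812767), (nat_lit 9939210)]) (FT.cons (FT.leaf [(nat_lit 9538202), (nat_lit 9661485), (nat_lit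
 9786005), (nat_lit 9911379), (nat_lit 10037304)]) (FT.cons (FT.leaf [(nat_lit 9760372), (nat_lit 9884498), (nat_lit 10009398), (nat_lit 10134781)]) (FT.cons (FT.leaf [(nat_lit 9982415), (nat_lit 10106813)]) FT.nil)))) (FT.cons (FT.cons (FT.leaf [(nat_lit 9673125), (nat_lit 9795505), (nat_lit 9919055), (nat_lit 10043401), (nat_lit 10168251)]) (FT.cons (FT.leaf [(nat_lit 9893456), (nat_lit 10016590), (nat_lit 10140445), (nat_lit 10264742)]) (FT.cons (FT.leaf [(nat_lit 10113545), (nat_lit 10236885)]) FT.nil))) (FT.cons (FT.cons (FT.leaf [(nat_lit 10025097), (nat_lit 10147233)]) (FT.cons (FT.leaf [(nat_lit 10243232)]) FT.nil)) (FT.cons (FT.cons (FT.leaf [(nat_lit 10371493)]) FT.nil) FT.nil)))) (FT.cons (FT.cons (FT.cons (FT.leaf [(nat_lit 9890946), (nat_lit 10011265), (nat_lit 10132702), (nat_lit 10254900)]) (FT.cons (FT.leaf [(nat_lit 10107402), (nat_lit 10228423), (nat_lit 10350133)]) (FT.cons (FT.leaf [(nat_lit 10323574)]) FT.nil))) (FT.cons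 (FT.cons (FT.leaf [(nat_lit 10236445), (nat_lit 10356488)]) (FT.cons (FT.leaf [(nat_lit 10450710)]) FT.nil)) (FT.cons (FT.cons (FT.leaf [(nat_lit 10576464)]) FT.nil) FT.nil))) (FT.cons (FT.cons (FT.cons (FT.leaf [(nat_lit 10443353)]) FT.nil)
 (FT.cons (FT.cons (FT.leaf [(nat_lit 10777208)]) FT.nil) FT.nil)) (FT.cons (FT.cons (FT.cons (FT.leaf [(nat_lit 10973889)]) FT.nil) FT.nil) FT.nil)))) (FT.cons (FT.cons (FT.cons (FT.cons (FT.leaf [(nat_lit 10448217), (nat_lit 10561920), (nat_lit 10676724)]) (FT.cons (FT.leaf [(nat_lit 10652644), (nat_lit 10767098)]) (FT.cons (FT.leaf [(nat_lit 10856975)]) FT.nil))) (FT.cons (FT.cons (FT.leaf [(nat_lit 10774283)]) (FT.cons (FT.leaf [(nat_lit 10976939)]) FT.nil)) (FT.cons (FT.cons (FT.leaf [(nat_lit 11095687)]) FT.nil) FT.nil))) (FT.cons (FT.cons (FT.cons (FT.leaf [(nat_lit 10969069)]) FT.nil) (FT.cons (FT.cons (FT.leaf [(nat_lit 11285036)]) FT.nil) FT.nil)) FT.nil)) (FT.cons (FT.cons (FT.cons (FT.cons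 (FT.leaf [(nat_lit 11463230)]) FT.nil) FT.nil) FT.nil) (FT.cons (FT.cons (FT.cons (FT.cons (FT.leaf [(nat_lit 12383341)]) FT.nil) FT.nil) FT.nil) FT.nil))))))))

end CB
end Pool.Agent.Lib.MP_6947cd_al
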