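import Pool.Agent.Lib.MP_6947cd_al.L.BoxDataB
import Pool.Agent.Lib.MP_6947cd_al.L.TeD3
import Pool.Agent.Lib.MP_6947cd_al.L.TeD4
import Pool.Agent.Lib.MP_6947cd_al.L.TeD5

/-!
Problem MP_6947cd_al (Chollet).  CASE B, rows `j`: boxes (generated).
-/

set_option autoImplicit false
set_option linter.defProp false
set_option maxRecDepth 20000

namespace Pool.Agent.Lib.MP_6947cd_al
namespace CB

open Ent Ent.Pk Fr Fr.WT CA

/-! box `yB13_12` -/

def P13_12 : BQ := ⟨(nat_lit 8), (nat_lit 4), (nat_lit 4), (nat_lit 0), (nat_lit 8), (nat_lit 780), (nat_lit 800), (nat_lit 120), [(nat_lit 200), (nat_lit 300), (nat_lit 450), (nat_lit 800)], (nat_lit 104560000), (nat_lit 16000000), (nat_lit 16000000000)⟩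
def q13_12 : PC := ⟨(nat_lit 1000), [(nat_lit 120000), (nat_lit 200000), (nat_lit 300000), (nat_lit 450000), (nat_lit 800000)], (nat_lit 340282367000166625996085689103316680705000000), (nat_lit 15895440000000), (nat_lit 15895440000000), (nat_lit 10000000)⟩
def r13_12 : List PC := [⟨(nat_lit 1336), [(nat_lit 120676), (nat_lit 201130), (nat_lit 301530), (nat_lit 451789), (nat_lit 801775)], (nat_lit 342229802986566020014466567846443760523103362), (nat_lit 16347734620160), (nat_lit 16359748152320), (nat_lit 10056500)⟩]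
def s13_12 : List PB := [⟨(nat_lit 26720), (nat_lit 1930816000000), [(nat_lit 201130), (nat_lit 301530), (nat_lit 451789), (nat_lit 801775)], (nat_lit 342229802986566020014466567846443760523103362), (nat_lit 1142247641462784), (nat_lit 1142259654994944), (nat_lit 53760)⟩]
def n13_12 : List KN := [⟨(nat_lit 800), (nat_lit 450), (nat_lit 12946273), (nat_lit 5158383)⟩, ⟨(nat_lit 450), (nat_lit 300), (nat_lit 19310217), (nat_lit 12946273)⟩, ⟨(nat_lit 300), (nat_lit 200), (nat_lit 25770221), (nat_lit 19310217)⟩, ⟨(nat_lit 200), (nat_lit 120), (nat_lit 40173837), (nat_lit 25770221)⟩]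
def w13_12 : List ℕ := [(nat_lit 53760)]
def par13_12 : parC yB13_12 P13_12 s13_12 r13_12 q13_12 n13_12 w13_12 = true := by decide +kernel

def p13_12_0 : PF := (PF.cons (PF.cons (PF.cons (PF.cons (PF.leaf (nat_lit 600498) (nat_lit 1736612) (nat_lit 65372200) (nat_lit 1736612) [(nat_lit 0), (nat_lit 0), (nat_lit 0), (nat_lit 0)]) (PF.cons (PF.leaf (nat_lit 725162) (nat_lit 192149) (nat_lit 65128411) (nat_lit 1788251) [(nat_lit 192149), (nat_lit 0), (nat_lit 0), (nat_lit 0)]) (PF.cons (PF.leaf (nat_lit 878877) (nat_lit 213257) (nat_lit 64837003) (nat_lit 1845295) [(nat_lit 213257), (nat_lit 0), (nat_lit 0), (nat_lit 0)]) (PF.cons (PF.leaf (nat_lit 1055636) (nat_lit 233230) (nat_lit 64503747) (nat_lit 1905372) [(nat_lit 233230), (nat_lit 0), (nat_lit 0), (nat_lit 0)]) (PF.cons (PF.leaf (nat_lit 1253747) (nat_lit 252307) (nat_lit 64132692) (nat_lit 1966891) [(nat_lit 252307), (nat_lit 0), (nat_lit 0), (nat_lit 0)]) (PF.cons (PF.leaf (nat_lit 1471793) (nat_lit 270606)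 (nat_lit 63727053) (nat_lit 2028728) [(nat_lit 270606), (nat_lit 0), (nat_lit 0), (nat_lit 0)]) (PF.cons (PF.leaf (nat_lit 1708299) (nat_lit 288189) (nat_lit 63289603) (nat_lit 2090071) [(nat_lit 288189), (nat_lit 0), (nat_lit 0), (nat_lit 0)]) (PF.cons (PF.leaf (nat_lit 1962116) (nat_lit 305090) (nat_lit 62822862) (nat_lit 2150320) [(nat_lit 305090), (nat_lit 0), (nat_lit 0),
 (nat_lit 0)]) (PF.cons (PF.leaf (nat_lit 2232060) (nat_lit 321324) (nat_lit 62329189) (nat_lit 2209027) [(nat_lit 321324), (nat_lit 0), (nat_lit 0), (nat_lit 0)]) (PF.cons PF.nil (PF.cons PF.nil (PF.cons PF.nil PF.nil)))))))))))) (PF.cons (PF.cons (PF.leaf (nat_lit 1088770) (nat_lit 1002999) (nat_lit 64158395) (nat_lit 1947417) [(nat_lit 0), (nat_lit 1002999), (nat_lit 0), (nat_lit 0)]) (PF.cons (PF.leaf (nat_lit 1265735) (nat_lit 250385) (nat_lit 63813872) (nat_lit 2001276) [(nat_lit 250385), (nat_lit 1043278), (nat_lit 0), (nat_lit 0)]) (PF.cons (PF.leaf (nat_lit 1466611) (nat_lit 268884)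 (nat_lit 63429695) (nat_lit 2057029) [(nat_lit 268884), (nat_lit 1084318), (nat_lit 0), (nat_lit 0)]) (PF.cons (PF.leaf (nat_lit 1687623) (nat_lit 286534) (nat_lit 63010456) (nat_lit 2113416) [(nat_lit 286534), (nat_lit 1125336), (nat_lit 0), (nat_lit 0)]) (PF.cons (PF.leaf (nat_lit 1927159) (nat_lit 303431) (nat_lit 62559707) (nat_lit 2169556) [(nat_lit 303431), (nat_lit 1165822), (nat_lit 0), (nat_lit 0)]) (PF.cons (PF.leaf (nat_lit 2183658) (nat_lit 319626) (nat_lit 62080433) (nat_lit 2224814) [(nat_lit 319626), (nat_lit 1205430), (nat_lit 0), (nat_lit 0)]) (PF.cons (PF.leaf (nat_lit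
 2455854) (nat_lit 335148) (nat_lit 61575287) (nat_lit 2278721) [(nat_lit 335148), (nat_lit 1243914), (nat_lit 0), (nat_lit 0)]) (PF.cons (PF.leaf (nat_lit 2742615) (nat_lit 350011) (nat_lit 61046705) (nat_lit 2330930) [(nat_lit 350011), (nat_lit 1281099), (nat_lit 0), (nat_lit 0)]) (PF.cons PF.nil (PF.cons PF.nil PF.nil)))))))))) (PF.cons (PF.cons (PF.leaf (nat_lit 1687253) (nat_lit 1139608) (nat_lit 62688839) (nat_lit 2140757) [(nat_lit 0), (nat_lit 1139608), (nat_lit 0), (nat_lit 0)]) (PF.cons (PF.leaf (nat_lit 1907954) (nat_lit 300997) (nat_lit 62261976) (nat_lit 2191819) [(nat_lit 300997), (nat_lit 1177009), (nat_lit 0), (nat_lit 0)]) (PF.cons (PF.leaf (nat_lit 2148656) (nat_lit 317338) (nat_lit 61802832) (nat_lit 2242954) [(nat_lit 317338), (nat_lit 1214174), (nat_lit 0), (nat_lit 0)]) (PF.cons (PF.leaf (nat_lit 2406439) (nat_lit 332929) (nat_lit 61315218) (nat_lit 2293450) [(nat_lit 332929), (nat_lit 1250678), (nat_lit 0), (nat_lit 0)]) (PF.cons (PF.leaf (nat_lit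 2679774) (nat_lit 347818) (nat_lit 60802276) (nat_lit 2342801) [(nat_lit 347818), (nat_lit 1286230), (nat_lit 0), (nat_lit 0)]) (PF.cons (PF.leaf (nat_lit 2967311) (nat_lit 362036) (nat_lit 60266741) (nat_lit
 2390635) [(nat_lit 362036), (nat_lit 1320626), (nat_lit 0), (nat_lit 0)]) (PF.cons PF.nil (PF.cons PF.nil (PF.cons PF.nil PF.nil))))))))) (PF.cons (PF.cons (PF.leaf (nat_lit 2374275) (nat_lit 1259088) (nat_lit 61020742) (nat_lit 2310804) [(nat_lit 0), (nat_lit 1259088), (nat_lit 0), (nat_lit 0)]) (PF.cons (PF.leaf (nat_lit 2630888) (nat_lit 345039) (nat_lit 60529267) (nat_lit 2356700) [(nat_lit 345039), (nat_lit 1292601), (nat_lit 0), (nat_lit 0)]) (PF.cons (PF.leaf (nat_lit 2903975) (nat_lit 359381) (nat_lit 60012314) (nat_lit 2401686) [(nat_lit 359381), (nat_lit 1325349), (nat_lit 0), (nat_lit 0)]) (PF.cons (PF.leaf (nat_lit 3191236) (nat_lit 373024) (nat_lit 59473114) (nat_lit 2445352) [(nat_lit 373024), (nat_lit 1357090), (nat_lit 0), (nat_lit 0)]) (PF.cons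 (PF.leaf (nat_lit 3491237) (nat_lit 385999) (nat_lit 58914431) (nat_lit 2487405) [(nat_lit 385999), (nat_lit 1387659), (nat_lit 0), (nat_lit 0)]) (PF.cons PF.nil (PF.cons PF.nil PF.nil))))))) (PF.cons (PF.cons (PF.leaf (nat_lit 3129622) (nat_lit 1361516) (nat_lit 59206994) (nat_lit 2455753) [(nat_lit 0), (nat_lit 1361516), (nat_lit 0), (nat_lit 0)]) (PF.cons (PF.leaf (nat_lit 3414724) (nat_lit 383006) (nat_lit 58667546)
 (nat_lit 2495425) [(nat_lit 383006), (nat_lit 1390708), (nat_lit 0), (nat_lit 0)]) (PF.cons (PF.leaf (nat_lit 3713249) (nat_lit 395454) (nat_lit 58108778) (nat_lit 2533674) [(nat_lit 395454), (nat_lit 1418862), (nat_lit 0), (nat_lit 0)]) (PF.cons PF.nil (PF.cons PF.nil PF.nil))))) (PF.cons (PF.cons (PF.leaf (nat_lit 3934748) (nat_lit 1447514) (nat_lit 57295462) (nat_lit 2575778) [(nat_lit 0), (nat_lit 1447514), (nat_lit 0), (nat_lit 0)]) (PF.cons (PF.leaf (nat_lit 4241606) (nat_lit 415301) (nat_lit 56723097) (nat_lit 2608910) [(nat_lit 415301), (nat_lit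 1472300), (nat_lit 0), (nat_lit 0)]) (PF.cons PF.nil (PF.cons PF.nil PF.nil)))) (PF.cons (PF.cons (PF.leaf (nat_lit 4773182) (nat_lit 1518104) (nat_lit 55328020) (nat_lit 2672162) [(nat_lit 0), (nat_lit 1518104), (nat_lit 0), (nat_lit 0)]) (PF.cons PF.nil PF.nil)) (PF.cons PF.nil (PF.cons PF.nil PF.nil))))))))) (PF.cons (PF.cons (PF.cons (PF.leaf (nat_lit 1684152) (nat_lit 2159018) (nat_lit 62021214) (nat_lit 2159018) [(nat_lit 0), (nat_lit 0), (nat_lit 2928579), (nat_lit 0)]) (PF.cons (PF.leaf (nat_lit 1880393) (nat_lit 287921) (nat_lit 61638253) (nat_lit 2204143) [(nat_lit 287921), (nat_lit 0), (nat_lit 2978494), (nat_lit 0)])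
 (PF.cons (PF.leaf (nat_lit 2099597) (nat_lit 305749) (nat_lit 61216735) (nat_lit 2250538) [(nat_lit 305749), (nat_lit 0), (nat_lit 3030040), (nat_lit 0)]) (PF.cons (PF.leaf (nat_lit 2337872) (nat_lit 322423) (nat_lit 60762362) (nat_lit 2297166) [(nat_lit 322423), (nat_lit 0), (nat_lit 3082014), (nat_lit 0)]) (PF.cons (PF.leaf (nat_lit 2593208) (nat_lit 338129) (nat_lit 60279414) (nat_lit 2343312) [(nat_lit 338129), (nat_lit 0), (nat_lit 3133566), (nat_lit 0)]) (PF.cons (PF.leaf (nat_lit 2863956) (nat_lit 352981) (nat_lit 59771360) (nat_lit 2388468) [(nat_lit 352981), (nat_lit 0), (nat_lit 3184074), (nat_lit 0)]) (PF.cons (PF.leaf (nat_lit 3148672) (nat_lit 367052) (nat_lit 59241159) (nat_lit 2432263) [(nat_lit 367052), (nat_lit 0), (nat_lit 3233075), (nat_lit 0)]) (PF.cons PF.nil (PF.cons PF.nil PF.nil))))))))) (PF.cons (PF.cons (PF.leaf (nat_lit 2323374) (nat_lit 1253116) (nat_lit 60432422) (nat_lit 2316805) [(nat_lit 0), (nat_lit 1253116), (nat_lit 3106468), (nat_lit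 0)]) (PF.cons (PF.leaf (nat_lit 2559140) (nat_lit 334074) (nat_lit 59977297) (nat_lit 2358907) [(nat_lit 334074), (nat_lit 1285266), (nat_lit 3153267), (nat_lit 0)]) (PF.cons (PF.leaf (nat_lit 2813505) (nat_lit
 349324) (nat_lit 59492479) (nat_lit 2400807) [(nat_lit 349324), (nat_lit 1316973), (nat_lit 3199903), (nat_lit 0)]) (PF.cons (PF.leaf (nat_lit 3083523) (nat_lit 363667) (nat_lit 58982285) (nat_lit 2441928) [(nat_lit 363667), (nat_lit 1347900), (nat_lit 3245694), (nat_lit 0)]) (PF.cons (PF.leaf (nat_lit 3367513) (nat_lit 377199) (nat_lit 58450175) (nat_lit 2481867) [(nat_lit 377199), (nat_lit 1377823), (nat_lit 3290149), (nat_lit 0)]) (PF.cons (PF.leaf (nat_lit 3664042) (nat_lit 389983) (nat_lit 57899060) (nat_lit 2520331) [(nat_lit 389983), (nat_lit 1406589), (nat_lit 3332912), (nat_lit 0)]) (PF.cons PF.nil PF.nil))))))) (PF.cons (PF.cons (PF.leaf (nat_lit 3036754) (nat_lit 1352930) (nat_lit 58688516) (nat_lit 2453734) [(nat_lit 0), (nat_lit 1352930), (nat_lit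 3260700), (nat_lit 0)]) (PF.cons (PF.leaf (nat_lit 3303848) (nat_lit 373296) (nat_lit 58180118) (nat_lit 2490949) [(nat_lit 373296), (nat_lit 1381269), (nat_lit 3301910), (nat_lit 0)]) (PF.cons (PF.leaf (nat_lit 3585932) (nat_lit 386373) (nat_lit 57649342) (nat_lit 2527186) [(nat_lit 386373), (nat_lit 1408770), (nat_lit 3341995), (nat_lit 0)]) (PF.cons (PF.leaf (nat_lit 3880621) (nat_lit 398671) (nat_lit 57099606) (nat_lit
 2562123) [(nat_lit 398671), (nat_lit 1435250), (nat_lit 3380566), (nat_lit 0)]) (PF.cons (PF.leaf (nat_lit 4186527) (nat_lit 410251) (nat_lit 56533753) (nat_lit 2595532) [(nat_lit 410251), (nat_lit 1460585), (nat_lit 3417348), (nat_lit 0)]) PF.nil))))) (PF.cons (PF.cons (PF.leaf (nat_lit 3805023) (nat_lit 1437239) (nat_lit 56839651) (nat_lit 2568505) [(nat_lit 0), (nat_lit 1437239), (nat_lit 3388937), (nat_lit 0)]) (PF.cons (PF.leaf (nat_lit 4096247) (nat_lit 406473) (nat_lit 56294204) (nat_lit 2600063) [(nat_lit 406473), (nat_lit 1461524), (nat_lit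 3423496), (nat_lit 0)]) (PF.cons (PF.leaf (nat_lit 4399373) (nat_lit 417614) (nat_lit 55732517) (nat_lit 2630260) [(nat_lit 417614), (nat_lit 1484786), (nat_lit 3456446), (nat_lit 0)]) (PF.cons PF.nil PF.nil)))) (PF.cons (PF.cons (PF.leaf (nat_lit 4611351) (nat_lit 1506844) (nat_lit 54928612) (nat_lit 2661529) [(nat_lit 0), (nat_lit 1506844), (nat_lit 3491294), (nat_lit 0)]) (PF.cons (PF.leaf (nat_lit 4920431) (nat_lit 434222) (nat_lit 54359931) (nat_lit 2687277) [(nat_lit 434222), (nat_lit 1527108), (nat_lit 3518947), (nat_lit 0)]) PF.nil)) (PF.cons PF.nil (PF.cons PF.nil (PF.cons PF.nil PF.nil)))))))) (PF.cons (PF.cons (PF.cons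
 (PF.leaf (nat_lit 2961436) (nat_lit 2452220) (nat_lit 58128456) (nat_lit 2452220) [(nat_lit 0), (nat_lit 0), (nat_lit 3264067), (nat_lit 0)]) (PF.cons (PF.leaf (nat_lit 3207946) (nat_lit 361185) (nat_lit 57657881) (nat_lit 2486682) [(nat_lit 361185), (nat_lit 0), (nat_lit 3301532), (nat_lit 0)]) (PF.cons (PF.leaf (nat_lit 3471740) (nat_lit 375366) (nat_lit 57160232) (nat_lit 2520726) [(nat_lit 375366), (nat_lit 0), (nat_lit 3338560), (nat_lit 0)]) (PF.cons (PF.leaf (nat_lit 3749892) (nat_lit 388524) (nat_lit 56640122) (nat_lit 2553893) [(nat_lit 388524), (nat_lit 0), (nat_lit 3374611), (nat_lit 0)]) (PF.cons (PF.leaf (nat_lit 4040571) (nat_lit 400794) (nat_lit 56101162) (nat_lit 2585862) [(nat_lit 400794), (nat_lit 0), (nat_lit 3409304), (nat_lit 0)]) (PF.cons (PF.leaf (nat_lit 4342376) (nat_lit 412268) (nat_lit 55546324) (nat_lit 2616412) [(nat_lit 412268), (nat_lit 0), (nat_lit 3442367), (nat_lit 0)]) (PF.cons PF.nil PF.nil))))))) (PF.cons (PF.cons (PF.leaf (nat_lit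 3689880) (nat_lit 1426019) (nat_lit 56352905) (nat_lit 2561381) [(nat_lit 0), (nat_lit 1426019), (nat_lit 3384253), (nat_lit 0)]) (PF.cons (PF.leaf (nat_lit 3963746) (nat_lit 396031) (nat_lit 55838879) (nat_lit
 2591215) [(nat_lit 396031), (nat_lit 1449849), (nat_lit 3416418), (nat_lit 0)]) (PF.cons (PF.leaf (nat_lit 4251214) (nat_lit 407931) (nat_lit 55305283) (nat_lit 2620036) [(nat_lit 407931), (nat_lit 1472802), (nat_lit 3447413), (nat_lit 0)]) (PF.cons (PF.leaf (nat_lit 4549998) (nat_lit 419001) (nat_lit 54755593) (nat_lit 2647594) [(nat_lit 419001), (nat_lit 1494740), (nat_lit 3476940), (nat_lit 0)]) (PF.cons PF.nil PF.nil))))) (PF.cons (PF.cons (PF.leaf (nat_lit 4462075) (nat_lit 1494843) (nat_lit 54505418) (nat_lit 2650860) [(nat_lit 0), (nat_lit 1494843), (nat_lit 3481424), (nat_lit 0)]) (PF.cons (PF.leaf (nat_lit 4756350) (nat_lit 424951) (nat_lit 53963346) (nat_lit 2675560) [(nat_lit 424951), (nat_lit 1514894), (nat_lit 3507582), (nat_lit 0)]) (PF.cons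 (PF.leaf (nat_lit 5061274) (nat_lit 434912) (nat_lit 53407656) (nat_lit 2698973) [(nat_lit 434912), (nat_lit 1533953), (nat_lit 3532225), (nat_lit 0)]) (PF.cons PF.nil PF.nil)))) (PF.cons (PF.cons (PF.leaf (nat_lit 5262836) (nat_lit 1550528) (nat_lit 52623619) (nat_lit 2721348) [(nat_lit 0), (nat_lit 1550528), (nat_lit 3556129), (nat_lit 0)]) (PF.cons (PF.leaf (nat_lit 5571729) (nat_lit 448724) (nat_lit 52065979) (nat_lit
 2740902) [(nat_lit 448724), (nat_lit 1566927), (nat_lit 3576211), (nat_lit 0)]) PF.nil)) (PF.cons PF.nil (PF.cons PF.nil PF.nil)))))) (PF.cons (PF.cons (PF.cons (PF.leaf (nat_lit 4327732) (nat_lit 2640182) (nat_lit 54052963) (nat_lit 2640182) [(nat_lit 0), (nat_lit 0), (nat_lit 3471889), (nat_lit 0)]) (PF.cons (PF.leaf (nat_lit 4605390) (nat_lit 414075) (nat_lit 53541842) (nat_lit 2663720) [(nat_lit 414075), (nat_lit 0), (nat_lit 3496391), (nat_lit 0)]) (PF.cons (PF.leaf (nat_lit 4895483) (nat_lit 424891) (nat_lit 53013634) (nat_lit 2686242) [(nat_lit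 424891), (nat_lit 0), (nat_lit 3519717), (nat_lit 0)]) (PF.cons (PF.leaf (nat_lit 5195716) (nat_lit 434844) (nat_lit 52471789) (nat_lit 2707554) [(nat_lit 434844), (nat_lit 0), (nat_lit 3541645), (nat_lit 0)]) (PF.cons PF.nil PF.nil))))) (PF.cons (PF.cons (PF.leaf (nat_lit 5097054) (nat_lit 1537449) (nat_lit 52233611) (nat_lit 2708404) [(nat_lit 0), (nat_lit 1537449), (nat_lit 3543115), (nat_lit 0)]) (PF.cons (PF.leaf (nat_lit 5392042) (nat_lit 439223) (nat_lit 51701732) (nat_lit 2727311) [(nat_lit 439223), (nat_lit 1553854), (nat_lit 3562230), (nat_lit 0)]) (PF.cons (PF.leaf (nat_lit 5696549) (nat_lit 448126) (nat_lit 51158436)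
 (nat_lit 2745013) [(nat_lit 448126), (nat_lit 1569308), (nat_lit 3579933), (nat_lit 0)]) (PF.cons PF.nil PF.nil)))) (PF.cons (PF.cons (PF.leaf (nat_lit 5887360) (nat_lit 1581329) (nat_lit 50401295) (nat_lit 2760096) [(nat_lit 0), (nat_lit 1581329), (nat_lit 3594920), (nat_lit 0)]) (PF.cons PF.nil PF.nil)) (PF.cons PF.nil (PF.cons PF.nil PF.nil))))) (PF.cons (PF.cons (PF.cons (PF.leaf (nat_lit 5707816) (nat_lit 2745699) (nat_lit 50043747) (nat_lit 2745699) [(nat_lit 0), (nat_lit 0), (nat_lit 3579841), (nat_lit 0)]) (PF.cons (PF.leaf (nat_lit 6001699) (nat_lit 449958) (nat_lit 49526843) (nat_lit 2759729) [(nat_lit 449958), (nat_lit 0), (nat_lit 3593070), (nat_lit 0)]) (PF.cons PF.nil (PF.cons PF.nil PF.nil)))) (PF.cons (PF.cons (PF.leaf (nat_lit 6484238) (nat_lit 1601546) (nat_lit 48274519) (nat_lit 2781761) [(nat_lit 0), (nat_lit 1601546), (nat_lit 3612746), (nat_lit 0)]) (PF.cons PF.nil PF.nil)) (PF.cons PF.nil PF.nil))) (PF.cons (PF.cons (PF.cons (PF.leaf (nat_lit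 7053626) (nat_lit 2789633) (nat_lit 46250293) (nat_lit 2789633) [(nat_lit 0), (nat_lit 0), (nat_lit 3613777), (nat_lit 0)]) (PF.cons PF.nil PF.nil)) (PF.cons PF.nil PF.nil)) (PF.cons PF.nil (PF.cons PF.nil
 PF.nil)))))))) (PF.cons (PF.cons (PF.cons (PF.cons (PF.leaf (nat_lit 2926514) (nat_lit 2379152) (nat_lit 55151441) (nat_lit 2379152) [(nat_lit 0), (nat_lit 0), (nat_lit 0), (nat_lit 9578218)]) (PF.cons (PF.leaf (nat_lit 3131772) (nat_lit 324237) (nat_lit 54778373) (nat_lit 2411121) [(nat_lit 324237), (nat_lit 0), (nat_lit 0), (nat_lit 9595080)]) (PF.cons (PF.leaf (nat_lit 3358213) (nat_lit 341163) (nat_lit 54371848) (nat_lit 2443383) [(nat_lit 341163), (nat_lit 0), (nat_lit 0), (nat_lit 9611252)]) (PF.cons (PF.leaf (nat_lit 3601732) (nat_lit 356502) (nat_lit 53938017) (nat_lit 2475219) [(nat_lit 356502), (nat_lit 0), (nat_lit 0), (nat_lit 9626067)]) (PF.cons (PF.leaf (nat_lit 3860011) (nat_lit 370548) (nat_lit 53481427) (nat_lit 2506165) [(nat_lit 370548), (nat_lit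 0), (nat_lit 0), (nat_lit 9639027)]) (PF.cons (PF.leaf (nat_lit 4131187) (nat_lit 383494) (nat_lit 53005671) (nat_lit 2535911) [(nat_lit 383494), (nat_lit 0), (nat_lit 0), (nat_lit 9649756)]) (PF.cons (PF.leaf (nat_lit 4413793) (nat_lit 395479) (nat_lit 52513713) (nat_lit 2564252) [(nat_lit 395479), (nat_lit 0), (nat_lit 0), (nat_lit 9657971)]) (PF.cons (PF.leaf (nat_lit 4706445) (nat_lit 406602) (nat_lit 52008076)
 (nat_lit 2591053) [(nat_lit 406602), (nat_lit 0), (nat_lit 0), (nat_lit 9663464)]) (PF.cons (PF.leaf (nat_lit 5007994) (nat_lit 416943) (nat_lit 51490953) (nat_lit 2616226) [(nat_lit 416943), (nat_lit 0), (nat_lit 0), (nat_lit 9666087)]) (PF.cons PF.nil PF.nil)))))))))) (PF.cons (PF.cons (PF.leaf (nat_lit 3566758) (nat_lit 1361236) (nat_lit 53634561) (nat_lit 2484203) [(nat_lit 0), (nat_lit 1361236), (nat_lit 0), (nat_lit 9628811)]) (PF.cons (PF.leaf (nat_lit 3805281) (nat_lit 364389) (nat_lit 53206626) (nat_lit 2512476) [(nat_lit 364389), (nat_lit 1385895),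 (nat_lit 0), (nat_lit 9639424)]) (PF.cons (PF.leaf (nat_lit 4060133) (nat_lit 378027) (nat_lit 52754689) (nat_lit 2540134) [(nat_lit 378027), (nat_lit 1409731), (nat_lit 0), (nat_lit 9648201)]) (PF.cons (PF.leaf (nat_lit 4328326) (nat_lit 390529) (nat_lit 52283087) (nat_lit 2566813) [(nat_lit 390529), (nat_lit 1432542), (nat_lit 0), (nat_lit 9654781)]) (PF.cons (PF.leaf (nat_lit 4608133) (nat_lit 402054) (nat_lit 51795206) (nat_lit 2592272) [(nat_lit 402054), (nat_lit 1454214), (nat_lit 0), (nat_lit 9658900)]) (PF.cons (PF.leaf (nat_lit 4898063) (nat_lit 412717) (nat_lit 51293812) (nat_lit 2616354) [(nat_lit 412717), (nat_lit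
 1474686), (nat_lit 0), (nat_lit 9660371)]) (PF.cons (PF.leaf (nat_lit 5196868) (nat_lit 422603) (nat_lit 50781240) (nat_lit 2638956) [(nat_lit 422603), (nat_lit 1493931), (nat_lit 0), (nat_lit 9659065)]) (PF.cons (PF.leaf (nat_lit 5503447) (nat_lit 431777) (nat_lit 50259503) (nat_lit 2660018) [(nat_lit 431777), (nat_lit 1511943), (nat_lit 0), (nat_lit 9654902)]) (PF.cons PF.nil PF.nil))))))))) (PF.cons (PF.cons (PF.leaf (nat_lit 4261950) (nat_lit 1432796) (nat_lit 52021086) (nat_lit 2570749) [(nat_lit 0), (nat_lit 1432796), (nat_lit 0), (nat_lit 9651385)]) (PF.cons (PF.leaf (nat_lit 4525378) (nat_lit 396656) (nat_lit 51556578) (nat_lit 2594523) [(nat_lit 396656), (nat_lit 1453501), (nat_lit 0), (nat_lit 9654052)]) (PF.cons (PF.leaf (nat_lit 4801486) (nat_lit 407820) (nat_lit 51075092) (nat_lit 2617268) [(nat_lit 407820), (nat_lit 1473243), (nat_lit 0), (nat_lit 9654323)]) (PF.cons (PF.leaf (nat_lit 5088012) (nat_lit 418100) (nat_lit 50579829) (nat_lit 2638797) [(nat_lit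 418100), (nat_lit 1491928), (nat_lit 0), (nat_lit 9652026)]) (PF.cons (PF.leaf (nat_lit 5383524) (nat_lit 427594) (nat_lit 50073380) (nat_lit 2658990) [(nat_lit 427594), (nat_lit 1509506), (nat_lit 0), (nat_lit
 9647051)]) (PF.cons (PF.leaf (nat_lit 5686839) (nat_lit 436377) (nat_lit 49557910) (nat_lit 2677772) [(nat_lit 436377), (nat_lit 1525955), (nat_lit 0), (nat_lit 9639332)]) (PF.cons PF.nil PF.nil))))))) (PF.cons (PF.cons (PF.leaf (nat_lit 4995042) (nat_lit 1490432) (nat_lit 50353593) (nat_lit 2639462) [(nat_lit 0), (nat_lit 1490432), (nat_lit 0), (nat_lit 9644461)]) (PF.cons (PF.leaf (nat_lit 5276794) (nat_lit 422768) (nat_lit 49866494) (nat_lit 2658583) [(nat_lit 422768), (nat_lit 1507430), (nat_lit 0), (nat_lit 9638673)]) (PF.cons (PF.leaf (nat_lit 5568372) (nat_lit 431937) (nat_lit 49367803) (nat_lit 2676511) [(nat_lit 431937), (nat_lit 1523440), (nat_lit 0), (nat_lit 9630301)]) (PF.cons (PF.leaf (nat_lit 5867927) (nat_lit 440384) (nat_lit 48859945) (nat_lit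 2693155) [(nat_lit 440384), (nat_lit 1538422), (nat_lit 0), (nat_lit 9619293)]) (PF.cons (PF.leaf (nat_lit 6174324) (nat_lit 448175) (nat_lit 48344929) (nat_lit 2708464) [(nat_lit 448175), (nat_lit 1552360), (nat_lit 0), (nat_lit 9605634)]) PF.nil))))) (PF.cons (PF.cons (PF.leaf (nat_lit 5752403) (nat_lit 1535849) (nat_lit 48664677) (nat_lit 2691689) [(nat_lit 0), (nat_lit 1535849), (nat_lit 0), (nat_lit 9609049)]) (PF.cons
 (PF.leaf (nat_lit 6047156) (nat_lit 443812) (nat_lit 48165849) (nat_lit 2706325) [(nat_lit 443812), (nat_lit 1549448), (nat_lit 0), (nat_lit 9595031)]) (PF.cons (PF.leaf (nat_lit 6349417) (nat_lit 451314) (nat_lit 47659605) (nat_lit 2719740) [(nat_lit 451314), (nat_lit 1562091), (nat_lit 0), (nat_lit 9578471)]) (PF.cons PF.nil PF.nil)))) (PF.cons (PF.cons (PF.leaf (nat_lit 6523004) (nat_lit 1570555) (nat_lit 46979395) (nat_lit 2729064) [(nat_lit 0), (nat_lit 1570555), (nat_lit 0), (nat_lit 9547576)]) (PF.cons (PF.leaf (nat_lit 6826396) (nat_lit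 460579) (nat_lit 46477260) (nat_lit 2739547) [(nat_lit 460579), (nat_lit 1581089), (nat_lit 0), (nat_lit 9525977)]) PF.nil)) (PF.cons PF.nil (PF.cons PF.nil PF.nil)))))))) (PF.cons (PF.cons (PF.cons (PF.leaf (nat_lit 4153298) (nat_lit 2557824) (nat_lit 51543597) (nat_lit 2557824) [(nat_lit 0), (nat_lit 0), (nat_lit 3379921), (nat_lit 9627469)]) (PF.cons (PF.leaf (nat_lit 4397353) (nat_lit 382472) (nat_lit 51115145) (nat_lit 2580453) [(nat_lit 382472), (nat_lit 0), (nat_lit 3402324), (nat_lit 9628417)]) (PF.cons (PF.leaf (nat_lit 4656678) (nat_lit 395073) (nat_lit 50664965) (nat_lit 2602399) [(nat_lit 395073), (nat_lit 0), (nat_lit 3424017),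
 (nat_lit 9627283)]) (PF.cons (PF.leaf (nat_lit 4928251) (nat_lit 406493) (nat_lit 50197422) (nat_lit 2623376) [(nat_lit 406493), (nat_lit 0), (nat_lit 3444678), (nat_lit 9623855)]) (PF.cons (PF.leaf (nat_lit 5210307) (nat_lit 416917) (nat_lit 49715863) (nat_lit 2643200) [(nat_lit 416917), (nat_lit 0), (nat_lit 3464091), (nat_lit 9617989)]) (PF.cons (PF.leaf (nat_lit 5501420) (nat_lit 426475) (nat_lit 49222980) (nat_lit 2661755) [(nat_lit 426475), (nat_lit 0), (nat_lit 3482110), (nat_lit 9609591)]) (PF.cons (PF.leaf (nat_lit 5800327) (nat_lit 435264) (nat_lit 48721004) (nat_lit 2678967) [(nat_lit 435264), (nat_lit 0), (nat_lit 3498643), (nat_lit 9598611)]) (PF.cons PF.nil (PF.cons PF.nil PF.nil))))))))) (PF.cons (PF.cons (PF.leaf (nat_lit 4851552) (nat_lit 1474697) (nat_lit 49947229) (nat_lit 2624716) [(nat_lit 0), (nat_lit 1474697), (nat_lit 3446633), (nat_lit 9615535)]) (PF.cons (PF.leaf (nat_lit 5117577) (nat_lit 411029) (nat_lit 49489051) (nat_lit 2643266) [(nat_lit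 411029), (nat_lit 1491940), (nat_lit 3464602), (nat_lit 9608922)]) (PF.cons (PF.leaf (nat_lit 5395233) (nat_lit 421182) (nat_lit 49015973) (nat_lit 2660824) [(nat_lit 421182), (nat_lit 1508251), (nat_lit 3481471),
 (nat_lit 9599927)]) (PF.cons (PF.leaf (nat_lit 5682279) (nat_lit 430439) (nat_lit 48531122) (nat_lit 2677247) [(nat_lit 430439), (nat_lit 1523564), (nat_lit 3497081), (nat_lit 9588477)]) (PF.cons (PF.leaf (nat_lit 5977338) (nat_lit 438914) (nat_lit 48036992) (nat_lit 2692450) [(nat_lit 438914), (nat_lit 1537849), (nat_lit 3511325), (nat_lit 9574535)]) (PF.cons (PF.leaf (nat_lit 6279250) (nat_lit 446691) (nat_lit 47535636) (nat_lit 2706382) [(nat_lit 446691), (nat_lit 1551099), (nat_lit 3524140), (nat_lit 9558098)]) (PF.cons PF.nil PF.nil))))))) (PF.cons (PF.cons (PF.leaf (nat_lit 5580241) (nat_lit 1520988) (nat_lit 48317164) (nat_lit 2676126) [(nat_lit 0), (nat_lit 1520988), (nat_lit 3496097), (nat_lit 9577447)]) (PF.cons (PF.leaf (nat_lit 5861979) (nat_lit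 433779) (nat_lit 47842071) (nat_lit 2690543) [(nat_lit 433779), (nat_lit 1534878), (nat_lit 3509441), (nat_lit 9563220)]) (PF.cons (PF.leaf (nat_lit 6152610) (nat_lit 442002) (nat_lit 47357142) (nat_lit 2703860) [(nat_lit 442002), (nat_lit 1547841), (nat_lit 3521542), (nat_lit 9546581)]) (PF.cons (PF.leaf (nat_lit 6450339) (nat_lit 449510) (nat_lit 46864692) (nat_lit 2716013) [(nat_lit 449510), (nat_lit 1559855), (nat_lit
 3532325), (nat_lit 9527540)]) (PF.cons PF.nil PF.nil))))) (PF.cons (PF.cons (PF.leaf (nat_lit 6327121) (nat_lit 1556561) (nat_lit 46681401) (nat_lit 2713331) [(nat_lit 0), (nat_lit 1556561), (nat_lit 3529447), (nat_lit 9514946)]) (PF.cons (PF.leaf (nat_lit 6619697) (nat_lit 451826) (nat_lit 46199036) (nat_lit 2723817) [(nat_lit 451826), (nat_lit 1567412), (nat_lit 3538332), (nat_lit 9493561)]) (PF.cons (PF.leaf (nat_lit 6918958) (nat_lit 458466) (nat_lit 45710661) (nat_lit 2733203) [(nat_lit 458466), (nat_lit 1577386), (nat_lit 3545961), (nat_lit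 9469893)]) (PF.cons PF.nil PF.nil)))) (PF.cons (PF.cons (PF.leaf (nat_lit 7082527) (nat_lit 1582800) (nat_lit 45060858) (nat_lit 2737829) [(nat_lit 0), (nat_lit 1582800), (nat_lit 3548254), (nat_lit 9430668)]) (PF.cons PF.nil PF.nil)) (PF.cons PF.nil PF.nil)))))) (PF.cons (PF.cons (PF.cons (PF.leaf (nat_lit 5423279) (nat_lit 2660215) (nat_lit 47944324) (nat_lit 2660215) [(nat_lit 0), (nat_lit 0), (nat_lit 3479845), (nat_lit 9544582)]) (PF.cons (PF.leaf (nat_lit 5690098) (nat_lit 422102) (nat_lit 47496748) (nat_lit 2674361) [(nat_lit 422102), (nat_lit 0), (nat_lit 3492658), (nat_lit 9530281)]) (PF.cons (PF.leaf (nat_lit 5967657) (nat_lit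
 431345) (nat_lit 47036063) (nat_lit 2687557) [(nat_lit 431345), (nat_lit 0), (nat_lit 3504414), (nat_lit 9513671)]) (PF.cons (PF.leaf (nat_lit 6253726) (nat_lit 439691) (nat_lit 46565289) (nat_lit 2699698) [(nat_lit 439691), (nat_lit 0), (nat_lit 3514997), (nat_lit 9494756)]) (PF.cons (PF.leaf (nat_lit 6546955) (nat_lit 447264) (nat_lit 46086801) (nat_lit 2710726) [(nat_lit 447264), (nat_lit 0), (nat_lit 3524335), (nat_lit 9473556)]) (PF.cons PF.nil (PF.cons PF.nil PF.nil))))))) (PF.cons (PF.cons (PF.leaf (nat_lit 6143892) (nat_lit 1541689) (nat_lit 46364049) (nat_lit 2697218) [(nat_lit 0), (nat_lit 1541689), (nat_lit 3512337), (nat_lit 9481180)]) (PF.cons (PF.leaf (nat_lit 6424268) (nat_lit 441916) (nat_lit 45904051) (nat_lit 2707691) [(nat_lit 441916), (nat_lit 1552927), (nat_lit 3521052), (nat_lit 9460121)]) (PF.cons (PF.leaf (nat_lit 6712732) (nat_lit 449301) (nat_lit 45435674) (nat_lit 2717151) [(nat_lit 449301), (nat_lit 1563300), (nat_lit 3528623), (nat_lit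 9436836)]) (PF.cons (PF.leaf (nat_lit 7007534) (nat_lit 455983) (nat_lit 44961111) (nat_lit 2725558) [(nat_lit 455983), (nat_lit 1572798), (nat_lit 3535005), (nat_lit 9411382)]) (PF.cons PF.nil PF.nil))))) (PF.cons
 (PF.cons (PF.leaf (nat_lit 6877846) (nat_lit 1568979) (nat_lit 44789737) (nat_lit 2721972) [(nat_lit 0), (nat_lit 1568979), (nat_lit 3531003), (nat_lit 9397136)]) (PF.cons (PF.leaf (nat_lit 7167251) (nat_lit 457371) (nat_lit 44325866) (nat_lit 2729000) [(nat_lit 457371), (nat_lit 1577500), (nat_lit 3535831), (nat_lit 9369912)]) (PF.cons PF.nil (PF.cons PF.nil PF.nil)))) (PF.cons (PF.cons (PF.leaf (nat_lit 7616615) (nat_lit 1588128) (nat_lit 43238837) (nat_lit 2735856) [(nat_lit 0), (nat_lit 1588128), (nat_lit 3537315), (nat_lit 9295104)]) (PF.cons PF.nil PF.nil)) (PF.cons PF.nil PF.nil))))) (PF.cons (PF.cons (PF.cons (PF.leaf (nat_lit 6685526) (nat_lit 2705681) (nat_lit 44500471) (nat_lit 2705681) [(nat_lit 0), (nat_lit 0), (nat_lit 3513439), (nat_lit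 9362341)]) (PF.cons (PF.leaf (nat_lit 6963504) (nat_lit 447653) (nat_lit 44057545) (nat_lit 2712851) [(nat_lit 447653), (nat_lit 0), (nat_lit 3518307), (nat_lit 9335838)]) (PF.cons (PF.leaf (nat_lit 7248889) (nat_lit 454295) (nat_lit 43607445) (nat_lit 2719092) [(nat_lit 454295), (nat_lit 0), (nat_lit 3522128), (nat_lit 9307298)]) (PF.cons PF.nil (PF.cons PF.nil PF.nil))))) (PF.cons (PF.cons (PF.leaf (nat_lit 7404882) (nat_lit
 1574616) (nat_lit 42992445) (nat_lit 2720132) [(nat_lit 0), (nat_lit 1574616), (nat_lit 3520051), (nat_lit 9261462)]) (PF.cons (PF.leaf (nat_lit 7690431) (nat_lit 460865) (nat_lit 42548204) (nat_lit 2724284) [(nat_lit 460865), (nat_lit 1581164), (nat_lit 3521535), (nat_lit 9229687)]) (PF.cons PF.nil (PF.cons PF.nil PF.nil)))) (PF.cons (PF.cons (PF.leaf (nat_lit 8126188) (nat_lit 1587836) (nat_lit 41513409) (nat_lit 2725291) [(nat_lit 0), (nat_lit 1587836), (nat_lit 3516186), (nat_lit 9145879)]) (PF.cons PF.nil PF.nil)) PF.nil))) (PF.cons (PF.cons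 (PF.cons (PF.leaf (nat_lit 7908928) (nat_lit 2709883) (nat_lit 41289605) (nat_lit 2709883) [(nat_lit 0), (nat_lit 0), (nat_lit 3499158), (nat_lit 9112689)]) (PF.cons (PF.leaf (nat_lit 8190090) (nat_lit 462660) (nat_lit 40865469) (nat_lit 2711651) [(nat_lit 462660), (nat_lit 0), (nat_lit 3497897), (nat_lit 9077443)]) PF.nil)) (PF.cons PF.nil PF.nil)) (PF.cons PF.nil PF.nil)))))) (PF.cons (PF.cons (PF.cons (PF.cons (PF.leaf (nat_lit 5175235) (nat_lit 2567247) (nat_lit 45917058) (nat_lit 2567247) [(nat_lit 0), (nat_lit 0), (nat_lit 0), (nat_lit 9312253)]) (PF.cons (PF.leaf (nat_lit 5412276) (nat_lit 389246) (nat_lit 45540701) (nat_lit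
 2582276) [(nat_lit 389246), (nat_lit 0), (nat_lit 0), (nat_lit 9298294)]) (PF.cons (PF.leaf (nat_lit 5663000) (nat_lit 400564) (nat_lit 45146675) (nat_lit 2596522) [(nat_lit 400564), (nat_lit 0), (nat_lit 0), (nat_lit 9282243)]) (PF.cons (PF.leaf (nat_lit 5924518) (nat_lit 410636) (nat_lit 44738864) (nat_lit 2609812) [(nat_lit 410636), (nat_lit 0), (nat_lit 0), (nat_lit 9264114)]) (PF.cons (PF.leaf (nat_lit 6195040) (nat_lit 419675) (nat_lit 44320209) (nat_lit 2622042) [(nat_lit 419675), (nat_lit 0), (nat_lit 0), (nat_lit 9243929)]) (PF.cons (PF.leaf (nat_lit 6473198) (nat_lit 427834) (nat_lit 43893040) (nat_lit 2633158) [(nat_lit 427834), (nat_lit 0), (nat_lit 0), (nat_lit 9221721)]) (PF.cons (PF.leaf (nat_lit 6757838) (nat_lit 435226) (nat_lit 43459259) (nat_lit 2643134) [(nat_lit 435226), (nat_lit 0), (nat_lit 0), (nat_lit 9197531)]) (PF.cons PF.nil (PF.cons PF.nil PF.nil))))))))) (PF.cons (PF.cons (PF.leaf (nat_lit 5837528) (nat_lit 1476151) (nat_lit 44526284)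 (nat_lit 2607767) [(nat_lit 0), (nat_lit 1476151), (nat_lit 0), (nat_lit 9249305)]) (PF.cons (PF.leaf (nat_lit 6092911) (nat_lit 413246) (nat_lit 44128367) (nat_lit 2619263) [(nat_lit 413246), (nat_lit 1488998), (nat_lit
 0), (nat_lit 9229468)]) (PF.cons (PF.leaf (nat_lit 6358541) (nat_lit 422096) (nat_lit 43718695) (nat_lit 2629834) [(nat_lit 422096), (nat_lit 1500925), (nat_lit 0), (nat_lit 9207581)]) (PF.cons (PF.leaf (nat_lit 6632252) (nat_lit 430038) (nat_lit 43299976) (nat_lit 2639405) [(nat_lit 430038), (nat_lit 1511911), (nat_lit 0), (nat_lit 9183702)]) (PF.cons (PF.leaf (nat_lit 6912735) (nat_lit 437199) (nat_lit 42874336) (nat_lit 2647938) [(nat_lit 437199), (nat_lit 1521961), (nat_lit 0), (nat_lit 9157890)]) (PF.cons (PF.leaf (nat_lit 7198912) (nat_lit 443676) (nat_lit 42443503) (nat_lit 2655418) [(nat_lit 443676), (nat_lit 1531092), (nat_lit 0), (nat_lit 9130208)]) (PF.cons PF.nil PF.nil))))))) (PF.cons (PF.cons (PF.leaf (nat_lit 6522316) (nat_lit 1507927)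 (nat_lit 43119974) (nat_lit 2635985) [(nat_lit 0), (nat_lit 1507927), (nat_lit 0), (nat_lit 9168498)]) (PF.cons (PF.leaf (nat_lit 6790439) (nat_lit 431732) (nat_lit 42710964) (nat_lit 2644117) [(nat_lit 431732), (nat_lit 1517823), (nat_lit 0), (nat_lit 9143175)]) (PF.cons (PF.leaf (nat_lit 7066290) (nat_lit 438722) (nat_lit 42294424) (nat_lit 2651308) [(nat_lit 438722), (nat_lit 1526870), (nat_lit 0), (nat_lit 9115946)]) (PF.cons
 (PF.leaf (nat_lit 7348151) (nat_lit 445012) (nat_lit 41872308) (nat_lit 2657532) [(nat_lit 445012), (nat_lit 1535074), (nat_lit 0), (nat_lit 9086892)]) (PF.cons PF.nil PF.nil))))) (PF.cons (PF.cons (PF.leaf (nat_lit 7219458) (nat_lit 1530864) (nat_lit 41719268) (nat_lit 2653340) [(nat_lit 0), (nat_lit 1530864), (nat_lit 0), (nat_lit 9071805)]) (PF.cons (PF.leaf (nat_lit 7496102) (nat_lit 445950) (nat_lit 41306703) (nat_lit 2658398) [(nat_lit 445950), (nat_lit 1538202), (nat_lit 0), (nat_lit 9041576)]) (PF.cons (PF.leaf (nat_lit 7778525)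 (nat_lit 451471) (nat_lit 40889699) (nat_lit 2662558) [(nat_lit 451471), (nat_lit 1544775), (nat_lit 0), (nat_lit 9009641)]) (PF.cons PF.nil PF.nil)))) (PF.cons (PF.cons (PF.leaf (nat_lit 7921233) (nat_lit 1546356) (nat_lit 40339210) (nat_lit 2661242) [(nat_lit 0), (nat_lit 1546356), (nat_lit 0), (nat_lit 8961468)]) (PF.cons PF.nil PF.nil)) (PF.cons PF.nil PF.nil)))))) (PF.cons (PF.cons (PF.cons (PF.leaf (nat_lit 6353030) (nat_lit 2618329) (nat_lit 42816005) (nat_lit 2618329) [(nat_lit 0), (nat_lit 0), (nat_lit 3410528), (nat_lit 9131975)]) (PF.cons (PF.leaf (nat_lit 6607725) (nat_lit 419984) (nat_lit 42430510) (nat_lit 2626669) [(nat_lit 419984),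
 (nat_lit 0), (nat_lit 3416369), (nat_lit 9107639)]) (PF.cons (PF.leaf (nat_lit 6871959) (nat_lit 428066) (nat_lit 42034572) (nat_lit 2634142) [(nat_lit 428066), (nat_lit 0), (nat_lit 3421270), (nat_lit 9081346)]) (PF.cons (PF.leaf (nat_lit 7143583) (nat_lit 435255) (nat_lit 41630773) (nat_lit 2640698) [(nat_lit 435255), (nat_lit 0), (nat_lit 3425178), (nat_lit 9053198)]) (PF.cons (PF.leaf (nat_lit 7421315) (nat_lit 441684) (nat_lit 41221123) (nat_lit 2646315) [(nat_lit 441684), (nat_lit 0), (nat_lit 3428068), (nat_lit 9023284)]) (PF.cons PF.nil (PF.cons PF.nil PF.nil))))))) (PF.cons (PF.cons (PF.leaf (nat_lit 7027901) (nat_lit 1515750) (nat_lit 41462275) (nat_lit 2636530) [(nat_lit 0), (nat_lit 1515750), (nat_lit 3420460), (nat_lit 9036897)]) (PF.cons (PF.leaf (nat_lit 7293763) (nat_lit 436141) (nat_lit 41068574) (nat_lit 2641901) [(nat_lit 436141), (nat_lit 1523667), (nat_lit 3423102), (nat_lit 9007712)]) (PF.cons (PF.leaf (nat_lit 7566720) (nat_lit 442452) (nat_lit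 40668350) (nat_lit 2646412) [(nat_lit 442452), (nat_lit 1530800), (nat_lit 3424798), (nat_lit 8976772)]) (PF.cons (PF.leaf (nat_lit 7845109) (nat_lit 448084) (nat_lit 40263442) (nat_lit 2650050) [(nat_lit 448084),
 (nat_lit 1537161), (nat_lit 3425538), (nat_lit 8944183)]) (PF.cons PF.nil PF.nil))))) (PF.cons (PF.cons (PF.leaf (nat_lit 7711862) (nat_lit 1532707) (nat_lit 40120748) (nat_lit 2645402) [(nat_lit 0), (nat_lit 1532707), (nat_lit 3420246), (nat_lit 8928500)]) (PF.cons (PF.leaf (nat_lit 7984947) (nat_lit 448364) (nat_lit 39725532) (nat_lit 2648083) [(nat_lit 448364), (nat_lit 1538346), (nat_lit 3419952), (nat_lit 8895093)]) (PF.cons PF.nil (PF.cons PF.nil PF.nil)))) (PF.cons (PF.cons (PF.leaf (nat_lit 8398024) (nat_lit 1543180) (nat_lit 38804052) (nat_lit 2646195) [(nat_lit 0), (nat_lit 1543180), (nat_lit 3411167), (nat_lit 8808927)]) (PF.cons PF.nil PF.nil)) (PF.cons PF.nil PF.nil))))) (PF.cons (PF.cons (PF.cons (PF.leaf (nat_lit 7514268) (nat_lit 2629012)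 (nat_lit 39886711) (nat_lit 2629012) [(nat_lit 0), (nat_lit 0), (nat_lit 3402439), (nat_lit 8894105)]) (PF.cons (PF.leaf (nat_lit 7777217) (nat_lit 438871) (nat_lit 39509031) (nat_lit 2632078) [(nat_lit 438871), (nat_lit 0), (nat_lit 3402491), (nat_lit 8861924)]) (PF.cons (PF.leaf (nat_lit 8046760) (nat_lit 444583) (nat_lit 39125664) (nat_lit 2634357) [(nat_lit 444583), (nat_lit 0), (nat_lit 3401679), (nat_lit 8828132)]) (PF.cons
 PF.nil (PF.cons PF.nil PF.nil))))) (PF.cons (PF.cons (PF.leaf (nat_lit 8184236) (nat_lit 1530087) (nat_lit 38605447) (nat_lit 2630890) [(nat_lit 0), (nat_lit 1530087), (nat_lit 3394322), (nat_lit 8776871)]) (PF.cons (PF.leaf (nat_lit 8453365) (nat_lit 449370) (nat_lit 38227778) (nat_lit 2631598) [(nat_lit 449370), (nat_lit 1534287), (nat_lit 3391815), (nat_lit 8741074)]) (PF.cons PF.nil (PF.cons PF.nil PF.nil)))) (PF.cons (PF.cons (PF.leaf (nat_lit 8854517) (nat_lit 1536367) (nat_lit 37351700) (nat_lit 2625855) [(nat_lit 0), (nat_lit 1536367),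 (nat_lit 3378681), (nat_lit 8650580)]) (PF.cons PF.nil PF.nil)) PF.nil))) (PF.cons (PF.cons (PF.cons (PF.leaf (nat_lit 8637389) (nat_lit 2611143) (nat_lit 37171064) (nat_lit 2611143) [(nat_lit 0), (nat_lit 0), (nat_lit 3362426), (nat_lit 8619661)]) (PF.cons (PF.leaf (nat_lit 8902266) (nat_lit 449211) (nat_lit 36810805) (nat_lit 2610217) [(nat_lit 449211), (nat_lit 0), (nat_lit 3358108), (nat_lit 8582126)]) PF.nil)) (PF.cons PF.nil PF.nil)) (PF.cons PF.nil PF.nil))))) (PF.cons (PF.cons (PF.cons (PF.cons (PF.leaf (nat_lit 7156950) (nat_lit 2545846) (nat_lit 38528129) (nat_lit 2545846) [(nat_lit 0), (nat_lit 0), (nat_lit 0), (nat_lit 8678279)])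
 (PF.cons (PF.leaf (nat_lit 7399648) (nat_lit 412454) (nat_lit 38197219) (nat_lit 2550526) [(nat_lit 412454), (nat_lit 0), (nat_lit 0), (nat_lit 8649537)]) (PF.cons (PF.leaf (nat_lit 7651002) (nat_lit 419652) (nat_lit 37857741) (nat_lit 2554422) [(nat_lit 419652), (nat_lit 0), (nat_lit 0), (nat_lit 8619114)]) (PF.cons (PF.leaf (nat_lit 7908907) (nat_lit 425976) (nat_lit 37511893) (nat_lit 2557514) [(nat_lit 425976), (nat_lit 0), (nat_lit 0), (nat_lit 8587158)]) (PF.cons (PF.leaf (nat_lit 8172236) (nat_lit 431567) (nat_lit 37161370) (nat_lit 2559804) [(nat_lit 431567), (nat_lit 0), (nat_lit 0), (nat_lit 8553789)]) (PF.cons PF.nil (PF.cons PF.nil PF.nil))))))) (PF.cons (PF.cons (PF.leaf (nat_lit 7790696) (nat_lit 1474811) (nat_lit 37370651) (nat_lit 2552552) [(nat_lit 0), (nat_lit 1474811), (nat_lit 0), (nat_lit 8570265)]) (PF.cons (PF.leaf (nat_lit 8042943) (nat_lit 426016) (nat_lit 37033769) (nat_lit 2554784) [(nat_lit 426016), (nat_lit 1480533), (nat_lit 0), (nat_lit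 8537903)]) (PF.cons (PF.leaf (nat_lit 8301576) (nat_lit 431540) (nat_lit 36691580) (nat_lit 2556274) [(nat_lit 431540), (nat_lit 1485545), (nat_lit 0), (nat_lit 8504110)]) (PF.cons PF.nil (PF.cons PF.nil PF.nil)))))
 (PF.cons (PF.cons (PF.leaf (nat_lit 8431051) (nat_lit 1485183) (nat_lit 36226371) (nat_lit 2551961) [(nat_lit 0), (nat_lit 1485183), (nat_lit 0), (nat_lit 8453371)]) (PF.cons (PF.leaf (nat_lit 8689362) (nat_lit 436010) (nat_lit 35888870) (nat_lit 2552035) [(nat_lit 436010), (nat_lit 1488960), (nat_lit 0), (nat_lit 8417992)]) (PF.cons PF.nil (PF.cons PF.nil PF.nil)))) (PF.cons (PF.cons (PF.leaf (nat_lit 9072253) (nat_lit 1490259) (nat_lit 35104832) (nat_lit 2545179) [(nat_lit 0), (nat_lit 1490259), (nat_lit 0), (nat_lit 8329341)]) (PF.cons PF.nil PF.nil)) (PF.cons PF.nil PF.nil))))) (PF.cons (PF.cons (PF.cons (PF.leaf (nat_lit 8232573) (nat_lit 2536274) (nat_lit 36035789) (nat_lit 2536274) [(nat_lit 0), (nat_lit 0), (nat_lit 3273029), (nat_lit 8421239)])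 (PF.cons (PF.leaf (nat_lit 8481784) (nat_lit 426909) (nat_lit 35712933) (nat_lit 2536850) [(nat_lit 426909), (nat_lit 0), (nat_lit 3270302), (nat_lit 8387272)]) (PF.cons (PF.leaf (nat_lit 8736979) (nat_lit 431937) (nat_lit 35385381) (nat_lit 2536748) [(nat_lit 431937), (nat_lit 0), (nat_lit 3266845), (nat_lit 8351987)]) (PF.cons PF.nil PF.nil)))) (PF.cons (PF.cons (PF.leaf (nat_lit 8859970) (nat_lit 1477906) (nat_lit 34943423)
 (nat_lit 2530800) [(nat_lit 0), (nat_lit 1477906), (nat_lit 3256739), (nat_lit 8299981)]) (PF.cons (PF.leaf (nat_lit 9114464) (nat_lit 435537) (nat_lit 34620923) (nat_lit 2529479) [(nat_lit 435537), (nat_lit 1480601), (nat_lit 3252012), (nat_lit 8263419)]) PF.nil)) (PF.cons PF.nil PF.nil))) (PF.cons (PF.cons (PF.cons (PF.leaf (nat_lit 9272684) (nat_lit 2506329) (nat_lit 33727939) (nat_lit 2506329) [(nat_lit 0), (nat_lit 0), (nat_lit 3219786), (nat_lit 8144990)]) (PF.cons PF.nil PF.nil)) (PF.cons PF.nil PF.nil)) PF.nil))) (PF.cons (PF.cons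 (PF.cons (PF.cons (PF.leaf (nat_lit 8867162) (nat_lit 2438251) (nat_lit 32798851) (nat_lit 2438251) [(nat_lit 0), (nat_lit 0), (nat_lit 0), (nat_lit 7967927)]) (PF.cons (PF.leaf (nat_lit 9103932) (nat_lit 413561) (nat_lit 32521269) (nat_lit 2437305) [(nat_lit 413561), (nat_lit 0), (nat_lit 0), (nat_lit 7934169)]) (PF.cons (PF.leaf (nat_lit 9346269) (nat_lit 418068) (nat_lit 32239697) (nat_lit 2435766) [(nat_lit 418068), (nat_lit 0), (nat_lit 0), (nat_lit 7899303)]) (PF.cons PF.nil PF.nil)))) (PF.cons (PF.cons (PF.leaf (nat_lit 9457686) (nat_lit 1423330) (nat_lit 31861637) (nat_lit 2428509) [(nat_lit 0), (nat_lit 1423330), (nat_lit 0), (nat_lit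
 7848833)]) (PF.cons PF.nil PF.nil)) (PF.cons PF.nil PF.nil))) (PF.cons (PF.cons (PF.cons (PF.leaf (nat_lit 9837599) (nat_lit 2401995) (nat_lit 30823590) (nat_lit 2401995) [(nat_lit 0), (nat_lit 0), (nat_lit 3079294), (nat_lit 7700983)]) (PF.cons PF.nil PF.nil)) PF.nil) PF.nil)) (PF.cons PF.nil (PF.cons PF.nil (PF.cons PF.nil (PF.cons PF.nil PF.nil)))))))))

def p13_12_0_0 : pfC (piC [(nat_lit 40173837), (nat_lit 25770221), (nat_lit 19310217), (nat_lit 12946273)] (nat_lit 25639500)) p13_12_0 (nat_lit 4) (nat_lit 0) (nat_lit 1) = true := by decide +kernel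
def p13_12_0_1 : pfC (piC [(nat_lit 40173837), (nat_lit 25770221), (nat_lit 19310217), (nat_lit 12946273)] (nat_lit 25639500)) p13_12_0 (nat_lit 4) (nat_lit 1) (nat_lit 2) = true := by decide +kernel
def p13_12_0_2 : pfC (piC [(nat_lit 40173837), (nat_lit 25770221), (nat_lit 19310217), (nat_lit 12946273)] (nat_lit 25639500)) p13_12_0 (nat_lit 4) (nat_lit 2) (nat_lit 3) = true := by decide +kernel
def p13_12_0_3 : pfC (piC [(nat_lit 40173837), (nat_lit 25770221), (nat_lit 19310217), (nat_lit 12946273)] (nat_lit 25639500)) p13_12_0 (nat_lit 4) (nat_lit 3) (nat_lit 4) = true := by decide +kernel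
def p13_12_0_4 : pfC (piC [(nat_lit 40173837), (nat_lit 25770221), (nat_lit 19310217), (nat_lit 12946273)] (nat_lit 25639500)) p13_12_0 (nat_lit 4) (nat_lit 4) (nat_lit 5) = true := by decide +kernel
def p13_12_0_5 : pfC (piC [(nat_lit 40173837), (nat_lit 25770221), (nat_lit 19310217), (nat_lit 12946273)] (nat_lit 25639500)) p13_12_0 (nat_lit 4) (nat_lit 5) (nat_lit 6) = true := by decide +kernel
def p13_12_0_6 : pfC (piC [(nat_lit 40173837), (nat_lit 25770221), (nat_lit 19310217), (nat_lit 12946273)] (nat_lit 25639500)) p13_12_0 (nat_lit 4) (nat_lit 6) (nat_lit 7) = true := by decide +kernel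
def p13_12_0_7 : pfC (piC [(nat_lit 40173837), (nat_lit 25770221), (nat_lit 19310217), (nat_lit 12946273)] (nat_lit 25639500)) p13_12_0 (nat_lit 4) (nat_lit 7) (nat_lit 8) = true := by decide +kernel
def p13_12_0_8 : pfC (piC [(nat_lit 40173837), (nat_lit 25770221), (nat_lit 19310217), (nat_lit 12946273)] (nat_lit 25639500)) p13_12_0 (nat_lit 4) (nat_lit 8) (nat_lit 9) = true := by decide +kernel
def p13_12_0_9 : pfC (piC [(nat_lit 40173837), (nat_lit 25770221), (nat_lit 19310217), (nat_lit 12946273)] (nat_lit 25639500)) p13_12_0 (nat_lit 4) (nat_lit 9) (nat_lit 10) = true := by decide +kernel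
def p13_12_0_10 : pfC (piC [(nat_lit 40173837), (nat_lit 25770221), (nat_lit 19310217), (nat_lit 12946273)] (nat_lit 25639500)) p13_12_0 (nat_lit 4) (nat_lit 10) (nat_lit 11) = true := by decide +kernel
def p13_12_0_11 : pfC (piC [(nat_lit 40173837), (nat_lit 25770221), (nat_lit 19310217), (nat_lit 12946273)] (nat_lit 25639500)) p13_12_0 (nat_lit 4) (nat_lit 11) (nat_lit 12) = true := by decide +kernel
def p13_12_0_12 : pfC (piC [(nat_lit 40173837), (nat_lit 25770221), (nat_lit 19310217), (nat_lit 12946273)] (nat_lit 25639500)) p13_12_0 (nat_lit 4) (nat_lit 12) (nat_lit 13) = true := by decide +kernel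
def p13_12_0_13 : pfC (piC [(nat_lit 40173837), (nat_lit 25770221), (nat_lit 19310217), (nat_lit 12946273)] (nat_lit 25639500)) p13_12_0 (nat_lit 4) (nat_lit 13) (nat_lit 14) = true := by decide +kernel
def p13_12_0_14 : pfC (piC [(nat_lit 40173837), (nat_lit 25770221), (nat_lit 19310217), (nat_lit 12946273)] (nat_lit 25639500)) p13_12_0 (nat_lit 4) (nat_lit 14) (nat_lit 15) = true := by decide +kernel
def p13_12_0_15 : pfC (piC [(nat_lit 40173837), (nat_lit 25770221), (nat_lit 19310217), (nat_lit 12946273)] (nat_lit 25639500)) p13_12_0 (nat_lit 4) (nat_lit 15) (nat_lit 16) = true := by decide +kernel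
def p13_12_0_16 : pfC (piC [(nat_lit 40173837), (nat_lit 25770221), (nat_lit 19310217), (nat_lit 12946273)] (nat_lit 25639500)) p13_12_0 (nat_lit 4) (nat_lit 16) (nat_lit 17) = true := by decide +kernel
def p13_12_0_17 : pfC (piC [(nat_lit 40173837), (nat_lit 25770221), (nat_lit 19310217), (nat_lit 12946273)] (nat_lit 25639500)) p13_12_0 (nat_lit 4) (nat_lit 17) (nat_lit 18) = true := by decide +kernel
def p13_12_0_18 : pfC (piC [(nat_lit 40173837), (nat_lit 25770221), (nat_lit 19310217), (nat_lit 12946273)] (nat_lit 25639500)) p13_12_0 (nat_lit 4) (nat_lit 18) (nat_lit 19) = true := by decide +kernel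
def p13_12_0_19 : pfC (piC [(nat_lit 40173837), (nat_lit 25770221), (nat_lit 19310217), (nat_lit 12946273)] (nat_lit 25639500)) p13_12_0 (nat_lit 4) (nat_lit 19) (nat_lit 20) = true := by decide +kernel
def p13_12_0_20 : pfC (piC [(nat_lit 40173837), (nat_lit 25770221), (nat_lit 19310217), (nat_lit 12946273)] (nat_lit 25639500)) p13_12_0 (nat_lit 4) (nat_lit 20) (nat_lit 21) = true := by decide +kernel
def p13_12_0_21 : pfC (piC [(nat_lit 40173837), (nat_lit 25770221), (nat_lit 19310217), (nat_lit 12946273)] (nat_lit 25639500)) p13_12_0 (nat_lit 4) (nat_lit 21) (nat_lit 22) = true := by decide +kernel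
def p13_12_0_22 : pfC (piC [(nat_lit 40173837), (nat_lit 25770221), (nat_lit 19310217), (nat_lit 12946273)] (nat_lit 25639500)) p13_12_0 (nat_lit 4) (nat_lit 22) (nat_lit 23) = true := by decide +kernel
def p13_12_0_23 : pfC (piC [(nat_lit 40173837), (nat_lit 25770221), (nat_lit 19310217), (nat_lit 12946273)] (nat_lit 25639500)) p13_12_0 (nat_lit 4) (nat_lit 23) (nat_lit 24) = true := by decide +kernel
def p13_12_0_24 : pfC (piC [(nat_lit 40173837), (nat_lit 25770221), (nat_lit 19310217), (nat_lit 12946273)] (nat_lit 25639500)) p13_12_0 (nat_lit 4) (nat_lit 24) (nat_lit 25) = true := by decide +kernel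
def p13_12_0_25 : pfC (piC [(nat_lit 40173837), (nat_lit 25770221), (nat_lit 19310217), (nat_lit 12946273)] (nat_lit 25639500)) p13_12_0 (nat_lit 4) (nat_lit 25) (nat_lit 26) = true := by decide +kernel
def p13_12_0_26 : pfC (piC [(nat_lit 40173837), (nat_lit 25770221), (nat_lit 19310217), (nat_lit 12946273)] (nat_lit 25639500)) p13_12_0 (nat_lit 4) (nat_lit 26) (nat_lit 27) = true := by decide +kernel
def p13_12_0_27 : pfC (piC [(nat_lit 40173837), (nat_lit 25770221), (nat_lit 19310217), (nat_lit 12946273)] (nat_lit 25639500)) p13_12_0 (nat_lit 4) (nat_lit 27) (nat_lit 28) = true := by decide +kernel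
def p13_12_0_28 : pfC (piC [(nat_lit 40173837), (nat_lit 25770221), (nat_lit 19310217), (nat_lit 12946273)] (nat_lit 25639500)) p13_12_0 (nat_lit 4) (nat_lit 28) (nat_lit 29) = true := by decide +kernel
def p13_12_0_29 : pfC (piC [(nat_lit 40173837), (nat_lit 25770221), (nat_lit 19310217), (nat_lit 12946273)] (nat_lit 25639500)) p13_12_0 (nat_lit 4) (nat_lit 29) (nat_lit 30) = true := by decide +kernel
def p13_12_0_30 : pfC (piC [(nat_lit 40173837), (nat_lit 25770221), (nat_lit 19310217), (nat_lit 12946273)] (nat_lit 25639500)) p13_12_0 (nat_lit 4) (nat_lit 30) (nat_lit 31) = true := by decide +kernel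
def p13_12_0_31 : pfC (piC [(nat_lit 40173837), (nat_lit 25770221), (nat_lit 19310217), (nat_lit 12946273)] (nat_lit 25639500)) p13_12_0 (nat_lit 4) (nat_lit 31) (nat_lit 32) = true := by decide +kernel
def p13_12_0_32 : pfC (piC [(nat_lit 40173837), (nat_lit 25770221), (nat_lit 19310217), (nat_lit 12946273)] (nat_lit 25639500)) p13_12_0 (nat_lit 4) (nat_lit 32) (nat_lit 33) = true := by decide +kernel
def p13_12_0_33 : pfC (piC [(nat_lit 40173837), (nat_lit 25770221), (nat_lit 19310217), (nat_lit 12946273)] (nat_lit 25639500)) p13_12_0 (nat_lit 4) (nat_lit 33) (nat_lit 34) = true := by decide +kernel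
def p13_12_0_34 : pfC (piC [(nat_lit 40173837), (nat_lit 25770221), (nat_lit 19310217), (nat_lit 12946273)] (nat_lit 25639500)) p13_12_0 (nat_lit 4) (nat_lit 34) (nat_lit 35) = true := by decide +kernel
def p13_12_0_35 : pfC (piC [(nat_lit 40173837), (nat_lit 25770221), (nat_lit 19310217), (nat_lit 12946273)] (nat_lit 25639500)) p13_12_0 (nat_lit 4) (nat_lit 35) (nat_lit 36) = true := by decide +kernel
def p13_12_0_36 : pfC (piC [(nat_lit 40173837), (nat_lit 25770221), (nat_lit 19310217), (nat_lit 12946273)] (nat_lit 25639500)) p13_12_0 (nat_lit 4) (nat_lit 36) (nat_lit 37) = true := by decide +kernel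
def p13_12_0_37 : pfC (piC [(nat_lit 40173837), (nat_lit 25770221), (nat_lit 19310217), (nat_lit 12946273)] (nat_lit 25639500)) p13_12_0 (nat_lit 4) (nat_lit 37) (nat_lit 38) = true := by decide +kernel
def p13_12_0_38 : pfC (piC [(nat_lit 40173837), (nat_lit 25770221), (nat_lit 19310217), (nat_lit 12946273)] (nat_lit 25639500)) p13_12_0 (nat_lit 4) (nat_lit 38) (nat_lit 39) = true := by decide +kernel
def p13_12_0_39 : pfC (piC [(nat_lit 40173837), (nat_lit 25770221), (nat_lit 19310217), (nat_lit 12946273)] (nat_lit 25639500)) p13_12_0 (nat_lit 4) (nat_lit 39) (nat_lit 40) = true := by decide +kernel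
def p13_12_0_40 : pfC (piC [(nat_lit 40173837), (nat_lit 25770221), (nat_lit 19310217), (nat_lit 12946273)] (nat_lit 25639500)) p13_12_0 (nat_lit 4) (nat_lit 40) (nat_lit 41) = true := by decide +kernel
def p13_12_0_41 : pfC (piC [(nat_lit 40173837), (nat_lit 25770221), (nat_lit 19310217), (nat_lit 12946273)] (nat_lit 25639500)) p13_12_0 (nat_lit 4) (nat_lit 41) (nat_lit 42) = true := by decide +kernel
def p13_12_0_42 : pfC (piC [(nat_lit 40173837), (nat_lit 25770221), (nat_lit 19310217), (nat_lit 12946273)] (nat_lit 25639500)) p13_12_0 (nat_lit 4) (nat_lit 42) (nat_lit 43) = true := by decide +kernel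
def p13_12_0_43 : pfC (piC [(nat_lit 40173837), (nat_lit 25770221), (nat_lit 19310217), (nat_lit 12946273)] (nat_lit 25639500)) p13_12_0 (nat_lit 4) (nat_lit 43) (nat_lit 44) = true := by decide +kernel
def p13_12_0_44 : pfC (piC [(nat_lit 40173837), (nat_lit 25770221), (nat_lit 19310217), (nat_lit 12946273)] (nat_lit 25639500)) p13_12_0 (nat_lit 4) (nat_lit 44) (nat_lit 45) = true := by decide +kernel
def p13_12_0_45 : pfC (piC [(nat_lit 40173837), (nat_lit 25770221), (nat_lit 19310217), (nat_lit 12946273)] (nat_lit 25639500)) p13_12_0 (nat_lit 4) (nat_lit 45) (nat_lit 46) = true := by decide +kernel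
def p13_12_0_46 : pfC (piC [(nat_lit 40173837), (nat_lit 25770221), (nat_lit 19310217), (nat_lit 12946273)] (nat_lit 25639500)) p13_12_0 (nat_lit 4) (nat_lit 46) (nat_lit 47) = true := by decide +kernel
def p13_12_0_47 : pfC (piC [(nat_lit 40173837), (nat_lit 25770221), (nat_lit 19310217), (nat_lit 12946273)] (nat_lit 25639500)) p13_12_0 (nat_lit 4) (nat_lit 47) (nat_lit 48) = true := by decide +kernel
def p13_12_0_48 : pfC (piC [(nat_lit 40173837), (nat_lit 25770221), (nat_lit 19310217), (nat_lit 12946273)] (nat_lit 25639500)) p13_12_0 (nat_lit 4) (nat_lit 48) (nat_lit 49) = true := by decide +kernel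
def p13_12_0_49 : pfC (piC [(nat_lit 40173837), (nat_lit 25770221), (nat_lit 19310217), (nat_lit 12946273)] (nat_lit 25639500)) p13_12_0 (nat_lit 4) (nat_lit 49) (nat_lit 50) = true := by decide +kernel
def p13_12_0_50 : pfC (piC [(nat_lit 40173837), (nat_lit 25770221), (nat_lit 19310217), (nat_lit 12946273)] (nat_lit 25639500)) p13_12_0 (nat_lit 4) (nat_lit 50) (nat_lit 51) = true := by decide +kernel
def p13_12_0_51 : pfC (piC [(nat_lit 40173837), (nat_lit 25770221), (nat_lit 19310217), (nat_lit 12946273)] (nat_lit 25639500)) p13_12_0 (nat_lit 4) (nat_lit 51) (nat_lit 52) = true := by decide +kernel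
def p13_12_0_52 : pfC (piC [(nat_lit 40173837), (nat_lit 25770221), (nat_lit 19310217), (nat_lit 12946273)] (nat_lit 25639500)) p13_12_0 (nat_lit 4) (nat_lit 52) (nat_lit 53) = true := by decide +kernel
def p13_12_0_53 : pfC (piC [(nat_lit 40173837), (nat_lit 25770221), (nat_lit 19310217), (nat_lit 12946273)] (nat_lit 25639500)) p13_12_0 (nat_lit 4) (nat_lit 53) (nat_lit 54) = true := by decide +kernel
def p13_12_0_54 : pfC (piC [(nat_lit 40173837), (nat_lit 25770221), (nat_lit 19310217), (nat_lit 12946273)] (nat_lit 25639500)) p13_12_0 (nat_lit 4) (nat_lit 54) (nat_lit 55) = true := by decide +kernel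
def p13_12_0_55 : pfC (piC [(nat_lit 40173837), (nat_lit 25770221), (nat_lit 19310217), (nat_lit 12946273)] (nat_lit 25639500)) p13_12_0 (nat_lit 4) (nat_lit 55) (nat_lit 56) = true := by decide +kernel
def p13_12_0_56 : pfC (piC [(nat_lit 40173837), (nat_lit 25770221), (nat_lit 19310217), (nat_lit 12946273)] (nat_lit 25639500)) p13_12_0 (nat_lit 4) (nat_lit 56) (nat_lit 57) = true := by decide +kernel
def p13_12_0_57 : pfC (piC [(nat_lit 40173837), (nat_lit 25770221), (nat_lit 19310217), (nat_lit 12946273)] (nat_lit 25639500)) p13_12_0 (nat_lit 4) (nat_lit 57) (nat_lit 58) = true := by decide +kernel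
def p13_12_0_58 : pfC (piC [(nat_lit 40173837), (nat_lit 25770221), (nat_lit 19310217), (nat_lit 12946273)] (nat_lit 25639500)) p13_12_0 (nat_lit 4) (nat_lit 58) (nat_lit 59) = true := by decide +kernel
def p13_12_0_59 : pfC (piC [(nat_lit 40173837), (nat_lit 25770221), (nat_lit 19310217), (nat_lit 12946273)] (nat_lit 25639500)) p13_12_0 (nat_lit 4) (nat_lit 59) (nat_lit 60) = true := by decide +kernel
def p13_12_0_60 : pfC (piC [(nat_lit 40173837), (nat_lit 25770221), (nat_lit 19310217), (nat_lit 12946273)] (nat_lit 25639500)) p13_12_0 (nat_lit 4) (nat_lit 60) (nat_lit 61) = true := by decide +kernel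
def p13_12_0_61 : pfC (piC [(nat_lit 40173837), (nat_lit 25770221), (nat_lit 19310217), (nat_lit 12946273)] (nat_lit 25639500)) p13_12_0 (nat_lit 4) (nat_lit 61) (nat_lit 62) = true := by decide +kernel
def p13_12_0_62 : pfC (piC [(nat_lit 40173837), (nat_lit 25770221), (nat_lit 19310217), (nat_lit 12946273)] (nat_lit 25639500)) p13_12_0 (nat_lit 4) (nat_lit 62) (nat_lit 63) = true := by decide +kernel
def p13_12_0_63 : pfC (piC [(nat_lit 40173837), (nat_lit 25770221), (nat_lit 19310217), (nat_lit 12946273)] (nat_lit 25639500)) p13_12_0 (nat_lit 4) (nat_lit 63) (nat_lit 64) = true := by decide +kernel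
def p13_12_0_64 : pfC (piC [(nat_lit 40173837), (nat_lit 25770221), (nat_lit 19310217), (nat_lit 12946273)] (nat_lit 25639500)) p13_12_0 (nat_lit 4) (nat_lit 64) (nat_lit 65) = true := by decide +kernel
def p13_12_0_65 : pfC (piC [(nat_lit 40173837), (nat_lit 25770221), (nat_lit 19310217), (nat_lit 12946273)] (nat_lit 25639500)) p13_12_0 (nat_lit 4) (nat_lit 65) (nat_lit 66) = true := by decide +kernel
def p13_12_0_66 : pfC (piC [(nat_lit 40173837), (nat_lit 25770221), (nat_lit 19310217), (nat_lit 12946273)] (nat_lit 25639500)) p13_12_0 (nat_lit 4) (nat_lit 66) (nat_lit 67) = true := by decide +kernel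
def p13_12_0_67 : pfC (piC [(nat_lit 40173837), (nat_lit 25770221), (nat_lit 19310217), (nat_lit 12946273)] (nat_lit 25639500)) p13_12_0 (nat_lit 4) (nat_lit 67) (nat_lit 68) = true := by decide +kernel
def p13_12_0_68 : pfC (piC [(nat_lit 40173837), (nat_lit 25770221), (nat_lit 19310217), (nat_lit 12946273)] (nat_lit 25639500)) p13_12_0 (nat_lit 4) (nat_lit 68) (nat_lit 69) = true := by decide +kernel
def p13_12_0_69 : pfC (piC [(nat_lit 40173837), (nat_lit 25770221), (nat_lit 19310217), (nat_lit 12946273)] (nat_lit 25639500)) p13_12_0 (nat_lit 4) (nat_lit 69) (nat_lit 70) = true := by decide +kernel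
def p13_12_0_70 : pfC (piC [(nat_lit 40173837), (nat_lit 25770221), (nat_lit 19310217), (nat_lit 12946273)] (nat_lit 25639500)) p13_12_0 (nat_lit 4) (nat_lit 70) (nat_lit 71) = true := by decide +kernel
def p13_12_0_71 : pfC (piC [(nat_lit 40173837), (nat_lit 25770221), (nat_lit 19310217), (nat_lit 12946273)] (nat_lit 25639500)) p13_12_0 (nat_lit 4) (nat_lit 71) (nat_lit 72) = true := by decide +kernel
def p13_12_0_72 : pfC (piC [(nat_lit 40173837), (nat_lit 25770221), (nat_lit 19310217), (nat_lit 12946273)] (nat_lit 25639500)) p13_12_0 (nat_lit 4) (nat_lit 72) (nat_lit 73) = true := by decide +kernel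
def p13_12_0_73 : pfC (piC [(nat_lit 40173837), (nat_lit 25770221), (nat_lit 19310217), (nat_lit 12946273)] (nat_lit 25639500)) p13_12_0 (nat_lit 4) (nat_lit 73) (nat_lit 74) = true := by decide +kernel
def p13_12_0_74 : pfC (piC [(nat_lit 40173837), (nat_lit 25770221), (nat_lit 19310217), (nat_lit 12946273)] (nat_lit 25639500)) p13_12_0 (nat_lit 4) (nat_lit 74) (nat_lit 75) = true := by decide +kernel
def p13_12_0_75 : pfC (piC [(nat_lit 40173837), (nat_lit 25770221), (nat_lit 19310217), (nat_lit 12946273)] (nat_lit 25639500)) p13_12_0 (nat_lit 4) (nat_lit 75) (nat_lit 76) = true := by decide +kernel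
def p13_12_0_76 : pfC (piC [(nat_lit 40173837), (nat_lit 25770221), (nat_lit 19310217), (nat_lit 12946273)] (nat_lit 25639500)) p13_12_0 (nat_lit 4) (nat_lit 76) (nat_lit 77) = true := by decide +kernel
def p13_12_0_77 : pfC (piC [(nat_lit 40173837), (nat_lit 25770221), (nat_lit 19310217), (nat_lit 12946273)] (nat_lit 25639500)) p13_12_0 (nat_lit 4) (nat_lit 77) (nat_lit 78) = true := by decide +kernel
def p13_12_0_78 : pfC (piC [(nat_lit 40173837), (nat_lit 25770221), (nat_lit 19310217), (nat_lit 12946273)] (nat_lit 25639500)) p13_12_0 (nat_lit 4) (nat_lit 78) (nat_lit 79) = true := by decide +kernel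
def p13_12_0_79 : pfC (piC [(nat_lit 40173837), (nat_lit 25770221), (nat_lit 19310217), (nat_lit 12946273)] (nat_lit 25639500)) p13_12_0 (nat_lit 4) (nat_lit 79) (nat_lit 80) = true := by decide +kernel
def p13_12_0_80 : pfC (piC [(nat_lit 40173837), (nat_lit 25770221), (nat_lit 19310217), (nat_lit 12946273)] (nat_lit 25639500)) p13_12_0 (nat_lit 4) (nat_lit 80) (nat_lit 81) = true := by decide +kernel
def p13_12_0_81 : pfC (piC [(nat_lit 40173837), (nat_lit 25770221), (nat_lit 19310217), (nat_lit 12946273)] (nat_lit 25639500)) p13_12_0 (nat_lit 4) (nat_lit 81) (nat_lit 82) = true := by decide +kernel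
def p13_12_0_82 : pfC (piC [(nat_lit 40173837), (nat_lit 25770221), (nat_lit 19310217), (nat_lit 12946273)] (nat_lit 25639500)) p13_12_0 (nat_lit 4) (nat_lit 82) (nat_lit 83) = true := by decide +kernel
def p13_12_0_83 : pfC (piC [(nat_lit 40173837), (nat_lit 25770221), (nat_lit 19310217), (nat_lit 12946273)] (nat_lit 25639500)) p13_12_0 (nat_lit 4) (nat_lit 83) (nat_lit 84) = true := by decide +kernel
def p13_12_0_84 : pfC (piC [(nat_lit 40173837), (nat_lit 25770221), (nat_lit 19310217), (nat_lit 12946273)] (nat_lit 25639500)) p13_12_0 (nat_lit 4) (nat_lit 84) (nat_lit 85) = true := by decide +kernel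
def p13_12_0_85 : pfC (piC [(nat_lit 40173837), (nat_lit 25770221), (nat_lit 19310217), (nat_lit 12946273)] (nat_lit 25639500)) p13_12_0 (nat_lit 4) (nat_lit 85) (nat_lit 86) = true := by decide +kernel
def p13_12_0_86 : pfC (piC [(nat_lit 40173837), (nat_lit 25770221), (nat_lit 19310217), (nat_lit 12946273)] (nat_lit 25639500)) p13_12_0 (nat_lit 4) (nat_lit 86) (nat_lit 87) = true := by decide +kernel
def p13_12_0_87 : pfC (piC [(nat_lit 40173837), (nat_lit 25770221), (nat_lit 19310217), (nat_lit 12946273)] (nat_lit 25639500)) p13_12_0 (nat_lit 4) (nat_lit 87) (nat_lit 88) = true := by decide +kernel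
def p13_12_0_88 : pfC (piC [(nat_lit 40173837), (nat_lit 25770221), (nat_lit 19310217), (nat_lit 12946273)] (nat_lit 25639500)) p13_12_0 (nat_lit 4) (nat_lit 88) (nat_lit 89) = true := by decide +kernel
def p13_12_0_89 : pfC (piC [(nat_lit 40173837), (nat_lit 25770221), (nat_lit 19310217), (nat_lit 12946273)] (nat_lit 25639500)) p13_12_0 (nat_lit 4) (nat_lit 89) (nat_lit 90) = true := by decide +kernel
def p13_12_0_90 : pfC (piC [(nat_lit 40173837), (nat_lit 25770221), (nat_lit 19310217), (nat_lit 12946273)] (nat_lit 25639500)) p13_12_0 (nat_lit 4) (nat_lit 90) (nat_lit 91) = true := by decide +kernel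
def p13_12_0_91 : pfC (piC [(nat_lit 40173837), (nat_lit 25770221), (nat_lit 19310217), (nat_lit 12946273)] (nat_lit 25639500)) p13_12_0 (nat_lit 4) (nat_lit 91) (nat_lit 92) = true := by decide +kernel
def p13_12_0_92 : pfC (piC [(nat_lit 40173837), (nat_lit 25770221), (nat_lit 19310217), (nat_lit 12946273)] (nat_lit 25639500)) p13_12_0 (nat_lit 4) (nat_lit 92) (nat_lit 93) = true := by decide +kernel
def p13_12_0_93 : pfC (piC [(nat_lit 40173837), (nat_lit 25770221), (nat_lit 19310217), (nat_lit 12946273)] (nat_lit 25639500)) p13_12_0 (nat_lit 4) (nat_lit 93) (nat_lit 94) = true := by decide +kernel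
def p13_12_0_94 : pfC (piC [(nat_lit 40173837), (nat_lit 25770221), (nat_lit 19310217), (nat_lit 12946273)] (nat_lit 25639500)) p13_12_0 (nat_lit 4) (nat_lit 94) (nat_lit 95) = true := by decide +kernel
def p13_12_0_95 : pfC (piC [(nat_lit 40173837), (nat_lit 25770221), (nat_lit 19310217), (nat_lit 12946273)] (nat_lit 25639500)) p13_12_0 (nat_lit 4) (nat_lit 95) (nat_lit 96) = true := by decide +kernel
def p13_12_0_96 : pfC (piC [(nat_lit 40173837), (nat_lit 25770221), (nat_lit 19310217), (nat_lit 12946273)] (nat_lit 25639500)) p13_12_0 (nat_lit 4) (nat_lit 96) (nat_lit 97) = true := by decide +kernel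
def p13_12_0_97 : pfC (piC [(nat_lit 40173837), (nat_lit 25770221), (nat_lit 19310217), (nat_lit 12946273)] (nat_lit 25639500)) p13_12_0 (nat_lit 4) (nat_lit 97) (nat_lit 98) = true := by decide +kernel
def p13_12_0_98 : pfC (piC [(nat_lit 40173837), (nat_lit 25770221), (nat_lit 19310217), (nat_lit 12946273)] (nat_lit 25639500)) p13_12_0 (nat_lit 4) (nat_lit 98) (nat_lit 99) = true := by decide +kernel
def p13_12_0_99 : pfC (piC [(nat_lit 40173837), (nat_lit 25770221), (nat_lit 19310217), (nat_lit 12946273)] (nat_lit 25639500)) p13_12_0 (nat_lit 4) (nat_lit 99) (nat_lit 100) = true := by decide +kernel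
def p13_12_0_100 : pfC (piC [(nat_lit 40173837), (nat_lit 25770221), (nat_lit 19310217), (nat_lit 12946273)] (nat_lit 25639500)) p13_12_0 (nat_lit 4) (nat_lit 100) (nat_lit 101) = true := by decide +kernel
def p13_12_0_101 : pfC (piC [(nat_lit 40173837), (nat_lit 25770221), (nat_lit 19310217), (nat_lit 12946273)] (nat_lit 25639500)) p13_12_0 (nat_lit 4) (nat_lit 101) (nat_lit 102) = true := by decide +kernel
def p13_12_0_102 : pfC (piC [(nat_lit 40173837), (nat_lit 25770221), (nat_lit 19310217), (nat_lit 12946273)] (nat_lit 25639500)) p13_12_0 (nat_lit 4) (nat_lit 102) (nat_lit 103) = true := by decide +kernel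
def p13_12_0_103 : pfC (piC [(nat_lit 40173837), (nat_lit 25770221), (nat_lit 19310217), (nat_lit 12946273)] (nat_lit 25639500)) p13_12_0 (nat_lit 4) (nat_lit 103) (nat_lit 104) = true := by decide +kernel
def p13_12_0_104 : pfC (piC [(nat_lit 40173837), (nat_lit 25770221), (nat_lit 19310217), (nat_lit 12946273)] (nat_lit 25639500)) p13_12_0 (nat_lit 4) (nat_lit 104) (nat_lit 105) = true := by decide +kernel
def p13_12_0_105 : pfC (piC [(nat_lit 40173837), (nat_lit 25770221), (nat_lit 19310217), (nat_lit 12946273)] (nat_lit 25639500)) p13_12_0 (nat_lit 4) (nat_lit 105) (nat_lit 106) = true := by decide +kernel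
def p13_12_0_106 : pfC (piC [(nat_lit 40173837), (nat_lit 25770221), (nat_lit 19310217), (nat_lit 12946273)] (nat_lit 25639500)) p13_12_0 (nat_lit 4) (nat_lit 106) (nat_lit 107) = true := by decide +kernel
def p13_12_0_107 : pfC (piC [(nat_lit 40173837), (nat_lit 25770221), (nat_lit 19310217), (nat_lit 12946273)] (nat_lit 25639500)) p13_12_0 (nat_lit 4) (nat_lit 107) (nat_lit 108) = true := by decide +kernel
def p13_12_0_108 : pfC (piC [(nat_lit 40173837), (nat_lit 25770221), (nat_lit 19310217), (nat_lit 12946273)] (nat_lit 25639500)) p13_12_0 (nat_lit 4) (nat_lit 108) (nat_lit 109) = true := by decide +kernel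
def p13_12_0_109 : pfC (piC [(nat_lit 40173837), (nat_lit 25770221), (nat_lit 19310217), (nat_lit 12946273)] (nat_lit 25639500)) p13_12_0 (nat_lit 4) (nat_lit 109) (nat_lit 110) = true := by decide +kernel
def p13_12_0_110 : pfC (piC [(nat_lit 40173837), (nat_lit 25770221), (nat_lit 19310217), (nat_lit 12946273)] (nat_lit 25639500)) p13_12_0 (nat_lit 4) (nat_lit 110) (nat_lit 111) = true := by decide +kernel
def p13_12_0_111 : pfC (piC [(nat_lit 40173837), (nat_lit 25770221), (nat_lit 19310217), (nat_lit 12946273)] (nat_lit 25639500)) p13_12_0 (nat_lit 4) (nat_lit 111) (nat_lit 112) = true := by decide +kernel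
def p13_12_0_112 : pfC (piC [(nat_lit 40173837), (nat_lit 25770221), (nat_lit 19310217), (nat_lit 12946273)] (nat_lit 25639500)) p13_12_0 (nat_lit 4) (nat_lit 112) (nat_lit 113) = true := by decide +kernel
def p13_12_0_113 : pfC (piC [(nat_lit 40173837), (nat_lit 25770221), (nat_lit 19310217), (nat_lit 12946273)] (nat_lit 25639500)) p13_12_0 (nat_lit 4) (nat_lit 113) (nat_lit 114) = true := by decide +kernel
def p13_12_0_114 : pfC (piC [(nat_lit 40173837), (nat_lit 25770221), (nat_lit 19310217), (nat_lit 12946273)] (nat_lit 25639500)) p13_12_0 (nat_lit 4) (nat_lit 114) (nat_lit 115) = true := by decide +kernel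
def p13_12_0_115 : pfC (piC [(nat_lit 40173837), (nat_lit 25770221), (nat_lit 19310217), (nat_lit 12946273)] (nat_lit 25639500)) p13_12_0 (nat_lit 4) (nat_lit 115) (nat_lit 116) = true := by decide +kernel
def p13_12_0_116 : pfC (piC [(nat_lit 40173837), (nat_lit 25770221), (nat_lit 19310217), (nat_lit 12946273)] (nat_lit 25639500)) p13_12_0 (nat_lit 4) (nat_lit 116) (nat_lit 117) = true := by decide +kernel
def p13_12_0_117 : pfC (piC [(nat_lit 40173837), (nat_lit 25770221), (nat_lit 19310217), (nat_lit 12946273)] (nat_lit 25639500)) p13_12_0 (nat_lit 4) (nat_lit 117) (nat_lit 118) = true := by decide +kernel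
def p13_12_0_118 : pfC (piC [(nat_lit 40173837), (nat_lit 25770221), (nat_lit 19310217), (nat_lit 12946273)] (nat_lit 25639500)) p13_12_0 (nat_lit 4) (nat_lit 118) (nat_lit 119) = true := by decide +kernel
def p13_12_0_119 : pfC (piC [(nat_lit 40173837), (nat_lit 25770221), (nat_lit 19310217), (nat_lit 12946273)] (nat_lit 25639500)) p13_12_0 (nat_lit 4) (nat_lit 119) (nat_lit 120) = true := by decide +kernel
def p13_12_0_120 : pfC (piC [(nat_lit 40173837), (nat_lit 25770221), (nat_lit 19310217), (nat_lit 12946273)] (nat_lit 25639500)) p13_12_0 (nat_lit 4) (nat_lit 120) (nat_lit 121) = true := by decide +kernel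
def p13_12_0_121 : pfC (piC [(nat_lit 40173837), (nat_lit 25770221), (nat_lit 19310217), (nat_lit 12946273)] (nat_lit 25639500)) p13_12_0 (nat_lit 4) (nat_lit 121) (nat_lit 122) = true := by decide +kernel
def p13_12_0_122 : pfC (piC [(nat_lit 40173837), (nat_lit 25770221), (nat_lit 19310217), (nat_lit 12946273)] (nat_lit 25639500)) p13_12_0 (nat_lit 4) (nat_lit 122) (nat_lit 123) = true := by decide +kernel
def p13_12_0_123 : pfC (piC [(nat_lit 40173837), (nat_lit 25770221), (nat_lit 19310217), (nat_lit 12946273)] (nat_lit 25639500)) p13_12_0 (nat_lit 4) (nat_lit 123) (nat_lit 124) = true := by decide +kernel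
def p13_12_0_124 : pfC (piC [(nat_lit 40173837), (nat_lit 25770221), (nat_lit 19310217), (nat_lit 12946273)] (nat_lit 25639500)) p13_12_0 (nat_lit 4) (nat_lit 124) (nat_lit 125) = true := by decide +kernel
def p13_12_0_125 : pfC (piC [(nat_lit 40173837), (nat_lit 25770221), (nat_lit 19310217), (nat_lit 12946273)] (nat_lit 25639500)) p13_12_0 (nat_lit 4) (nat_lit 125) (nat_lit 126) = true := by decide +kernel
def p13_12_0_126 : pfC (piC [(nat_lit 40173837), (nat_lit 25770221), (nat_lit 19310217), (nat_lit 12946273)] (nat_lit 25639500)) p13_12_0 (nat_lit 4) (nat_lit 126) (nat_lit 127) = true := by decide +kernel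
def p13_12_0_127 : pfC (piC [(nat_lit 40173837), (nat_lit 25770221), (nat_lit 19310217), (nat_lit 12946273)] (nat_lit 25639500)) p13_12_0 (nat_lit 4) (nat_lit 127) (nat_lit 128) = true := by decide +kernel
def p13_12_0_128 : pfC (piC [(nat_lit 40173837), (nat_lit 25770221), (nat_lit 19310217), (nat_lit 12946273)] (nat_lit 25639500)) p13_12_0 (nat_lit 4) (nat_lit 128) (nat_lit 129) = true := by decide +kernel
def p13_12_0_129 : pfC (piC [(nat_lit 40173837), (nat_lit 25770221), (nat_lit 19310217), (nat_lit 12946273)] (nat_lit 25639500)) p13_12_0 (nat_lit 4) (nat_lit 129) (nat_lit 130) = true := by decide +kernel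
def p13_12_0_130 : pfC (piC [(nat_lit 40173837), (nat_lit 25770221), (nat_lit 19310217), (nat_lit 12946273)] (nat_lit 25639500)) p13_12_0 (nat_lit 4) (nat_lit 130) (nat_lit 131) = true := by decide +kernel
def p13_12_0_131 : pfC (piC [(nat_lit 40173837), (nat_lit 25770221), (nat_lit 19310217), (nat_lit 12946273)] (nat_lit 25639500)) p13_12_0 (nat_lit 4) (nat_lit 131) (nat_lit 132) = true := by decide +kernel
def p13_12_0_132 : pfC (piC [(nat_lit 40173837), (nat_lit 25770221), (nat_lit 19310217), (nat_lit 12946273)] (nat_lit 25639500)) p13_12_0 (nat_lit 4) (nat_lit 132) (nat_lit 133) = true := by decide +kernel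
def p13_12_0_133 : pfC (piC [(nat_lit 40173837), (nat_lit 25770221), (nat_lit 19310217), (nat_lit 12946273)] (nat_lit 25639500)) p13_12_0 (nat_lit 4) (nat_lit 133) (nat_lit 134) = true := by decide +kernel
def p13_12_0_134 : pfC (piC [(nat_lit 40173837), (nat_lit 25770221), (nat_lit 19310217), (nat_lit 12946273)] (nat_lit 25639500)) p13_12_0 (nat_lit 4) (nat_lit 134) (nat_lit 135) = true := by decide +kernel
def p13_12_0_135 : pfC (piC [(nat_lit 40173837), (nat_lit 25770221), (nat_lit 19310217), (nat_lit 12946273)] (nat_lit 25639500)) p13_12_0 (nat_lit 4) (nat_lit 135) (nat_lit 136) = true := by decide +kernel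
def p13_12_0_136 : pfC (piC [(nat_lit 40173837), (nat_lit 25770221), (nat_lit 19310217), (nat_lit 12946273)] (nat_lit 25639500)) p13_12_0 (nat_lit 4) (nat_lit 136) (nat_lit 137) = true := by decide +kernel
def p13_12_0_137 : pfC (piC [(nat_lit 40173837), (nat_lit 25770221), (nat_lit 19310217), (nat_lit 12946273)] (nat_lit 25639500)) p13_12_0 (nat_lit 4) (nat_lit 137) (nat_lit 138) = true := by decide +kernel
def p13_12_0_138 : pfC (piC [(nat_lit 40173837), (nat_lit 25770221), (nat_lit 19310217), (nat_lit 12946273)] (nat_lit 25639500)) p13_12_0 (nat_lit 4) (nat_lit 138) (nat_lit 139) = true := by decide +kernel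
def p13_12_0_139 : pfC (piC [(nat_lit 40173837), (nat_lit 25770221), (nat_lit 19310217), (nat_lit 12946273)] (nat_lit 25639500)) p13_12_0 (nat_lit 4) (nat_lit 139) (nat_lit 140) = true := by decide +kernel
def p13_12_0_140 : pfC (piC [(nat_lit 40173837), (nat_lit 25770221), (nat_lit 19310217), (nat_lit 12946273)] (nat_lit 25639500)) p13_12_0 (nat_lit 4) (nat_lit 140) (nat_lit 141) = true := by decide +kernel
def p13_12_0_141 : pfC (piC [(nat_lit 40173837), (nat_lit 25770221), (nat_lit 19310217), (nat_lit 12946273)] (nat_lit 25639500)) p13_12_0 (nat_lit 4) (nat_lit 141) (nat_lit 142) = true := by decide +kernel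
def p13_12_0_142 : pfC (piC [(nat_lit 40173837), (nat_lit 25770221), (nat_lit 19310217), (nat_lit 12946273)] (nat_lit 25639500)) p13_12_0 (nat_lit 4) (nat_lit 142) (nat_lit 143) = true := by decide +kernel
def p13_12_0_143 : pfC (piC [(nat_lit 40173837), (nat_lit 25770221), (nat_lit 19310217), (nat_lit 12946273)] (nat_lit 25639500)) p13_12_0 (nat_lit 4) (nat_lit 143) (nat_lit 144) = true := by decide +kernel
def p13_12_0_144 : pfC (piC [(nat_lit 40173837), (nat_lit 25770221), (nat_lit 19310217), (nat_lit 12946273)] (nat_lit 25639500)) p13_12_0 (nat_lit 4) (nat_lit 144) (nat_lit 145) = true := by decide +kernel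
def p13_12_0_145 : pfC (piC [(nat_lit 40173837), (nat_lit 25770221), (nat_lit 19310217), (nat_lit 12946273)] (nat_lit 25639500)) p13_12_0 (nat_lit 4) (nat_lit 145) (nat_lit 146) = true := by decide +kernel
def p13_12_0_146 : pfC (piC [(nat_lit 40173837), (nat_lit 25770221), (nat_lit 19310217), (nat_lit 12946273)] (nat_lit 25639500)) p13_12_0 (nat_lit 4) (nat_lit 146) (nat_lit 147) = true := by decide +kernel
def p13_12_0_147 : pfC (piC [(nat_lit 40173837), (nat_lit 25770221), (nat_lit 19310217), (nat_lit 12946273)] (nat_lit 25639500)) p13_12_0 (nat_lit 4) (nat_lit 147) (nat_lit 148) = true := by decide +kernel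
def p13_12_0_148 : pfC (piC [(nat_lit 40173837), (nat_lit 25770221), (nat_lit 19310217), (nat_lit 12946273)] (nat_lit 25639500)) p13_12_0 (nat_lit 4) (nat_lit 148) (nat_lit 149) = true := by decide +kernel
def p13_12_0_149 : pfC (piC [(nat_lit 40173837), (nat_lit 25770221), (nat_lit 19310217), (nat_lit 12946273)] (nat_lit 25639500)) p13_12_0 (nat_lit 4) (nat_lit 149) (nat_lit 150) = true := by decide +kernel
def p13_12_0_150 : pfC (piC [(nat_lit 40173837), (nat_lit 25770221), (nat_lit 19310217), (nat_lit 12946273)] (nat_lit 25639500)) p13_12_0 (nat_lit 4) (nat_lit 150) (nat_lit 151) = true := by decide +kernel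
def p13_12_0_151 : pfC (piC [(nat_lit 40173837), (nat_lit 25770221), (nat_lit 19310217), (nat_lit 12946273)] (nat_lit 25639500)) p13_12_0 (nat_lit 4) (nat_lit 151) (nat_lit 152) = true := by decide +kernel
def p13_12_0_152 : pfC (piC [(nat_lit 40173837), (nat_lit 25770221), (nat_lit 19310217), (nat_lit 12946273)] (nat_lit 25639500)) p13_12_0 (nat_lit 4) (nat_lit 152) (nat_lit 153) = true := by decide +kernel
def p13_12_0_153 : pfC (piC [(nat_lit 40173837), (nat_lit 25770221), (nat_lit 19310217), (nat_lit 12946273)] (nat_lit 25639500)) p13_12_0 (nat_lit 4) (nat_lit 153) (nat_lit 154) = true := by decide +kernel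
def p13_12_0_154 : pfC (piC [(nat_lit 40173837), (nat_lit 25770221), (nat_lit 19310217), (nat_lit 12946273)] (nat_lit 25639500)) p13_12_0 (nat_lit 4) (nat_lit 154) (nat_lit 155) = true := by decide +kernel
def p13_12_0_155 : pfC (piC [(nat_lit 40173837), (nat_lit 25770221), (nat_lit 19310217), (nat_lit 12946273)] (nat_lit 25639500)) p13_12_0 (nat_lit 4) (nat_lit 155) (nat_lit 156) = true := by decide +kernel
def p13_12_0_156 : pfC (piC [(nat_lit 40173837), (nat_lit 25770221), (nat_lit 19310217), (nat_lit 12946273)] (nat_lit 25639500)) p13_12_0 (nat_lit 4) (nat_lit 156) (nat_lit 157) = true := by decide +kernel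
def p13_12_0_157 : pfC (piC [(nat_lit 40173837), (nat_lit 25770221), (nat_lit 19310217), (nat_lit 12946273)] (nat_lit 25639500)) p13_12_0 (nat_lit 4) (nat_lit 157) (nat_lit 158) = true := by decide +kernel
def p13_12_0_158 : pfC (piC [(nat_lit 40173837), (nat_lit 25770221), (nat_lit 19310217), (nat_lit 12946273)] (nat_lit 25639500)) p13_12_0 (nat_lit 4) (nat_lit 158) (nat_lit 159) = true := by decide +kernel
def p13_12_0_159 : pfC (piC [(nat_lit 40173837), (nat_lit 25770221), (nat_lit 19310217), (nat_lit 12946273)] (nat_lit 25639500)) p13_12_0 (nat_lit 4) (nat_lit 159) (nat_lit 160) = true := by decide +kernel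
def p13_12_0_160 : pfC (piC [(nat_lit 40173837), (nat_lit 25770221), (nat_lit 19310217), (nat_lit 12946273)] (nat_lit 25639500)) p13_12_0 (nat_lit 4) (nat_lit 160) (nat_lit 161) = true := by decide +kernel
def p13_12_0_161 : pfC (piC [(nat_lit 40173837), (nat_lit 25770221), (nat_lit 19310217), (nat_lit 12946273)] (nat_lit 25639500)) p13_12_0 (nat_lit 4) (nat_lit 161) (nat_lit 162) = true := by decide +kernel
def p13_12_0_162 : pfC (piC [(nat_lit 40173837), (nat_lit 25770221), (nat_lit 19310217), (nat_lit 12946273)] (nat_lit 25639500)) p13_12_0 (nat_lit 4) (nat_lit 162) (nat_lit 163) = true := by decide +kernel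
def p13_12_0_163 : pfC (piC [(nat_lit 40173837), (nat_lit 25770221), (nat_lit 19310217), (nat_lit 12946273)] (nat_lit 25639500)) p13_12_0 (nat_lit 4) (nat_lit 163) (nat_lit 164) = true := by decide +kernel
def p13_12_0_164 : pfC (piC [(nat_lit 40173837), (nat_lit 25770221), (nat_lit 19310217), (nat_lit 12946273)] (nat_lit 25639500)) p13_12_0 (nat_lit 4) (nat_lit 164) (nat_lit 165) = true := by decide +kernel
def p13_12_0_165 : pfC (piC [(nat_lit 40173837), (nat_lit 25770221), (nat_lit 19310217), (nat_lit 12946273)] (nat_lit 25639500)) p13_12_0 (nat_lit 4) (nat_lit 165) (nat_lit 166) = true := by decide +kernel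
def p13_12_0_166 : pfC (piC [(nat_lit 40173837), (nat_lit 25770221), (nat_lit 19310217), (nat_lit 12946273)] (nat_lit 25639500)) p13_12_0 (nat_lit 4) (nat_lit 166) (nat_lit 167) = true := by decide +kernel
def p13_12_0_167 : pfC (piC [(nat_lit 40173837), (nat_lit 25770221), (nat_lit 19310217), (nat_lit 12946273)] (nat_lit 25639500)) p13_12_0 (nat_lit 4) (nat_lit 167) (nat_lit 168) = true := by decide +kernel
def p13_12_0_168 : pfC (piC [(nat_lit 40173837), (nat_lit 25770221), (nat_lit 19310217), (nat_lit 12946273)] (nat_lit 25639500)) p13_12_0 (nat_lit 4) (nat_lit 168) (nat_lit 169) = true := by decide +kernel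
def p13_12_0_169 : pfC (piC [(nat_lit 40173837), (nat_lit 25770221), (nat_lit 19310217), (nat_lit 12946273)] (nat_lit 25639500)) p13_12_0 (nat_lit 4) (nat_lit 169) (nat_lit 170) = true := by decide +kernel
def p13_12_0_170 : pfC (piC [(nat_lit 40173837), (nat_lit 25770221), (nat_lit 19310217), (nat_lit 12946273)] (nat_lit 25639500)) p13_12_0 (nat_lit 4) (nat_lit 170) (nat_lit 171) = true := by decide +kernel
def p13_12_0_171 : pfC (piC [(nat_lit 40173837), (nat_lit 25770221), (nat_lit 19310217), (nat_lit 12946273)] (nat_lit 25639500)) p13_12_0 (nat_lit 4) (nat_lit 171) (nat_lit 172) = true := by decide +kernel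
def p13_12_0_172 : pfC (piC [(nat_lit 40173837), (nat_lit 25770221), (nat_lit 19310217), (nat_lit 12946273)] (nat_lit 25639500)) p13_12_0 (nat_lit 4) (nat_lit 172) (nat_lit 173) = true := by decide +kernel
def p13_12_0_173 : pfC (piC [(nat_lit 40173837), (nat_lit 25770221), (nat_lit 19310217), (nat_lit 12946273)] (nat_lit 25639500)) p13_12_0 (nat_lit 4) (nat_lit 173) (nat_lit 174) = true := by decide +kernel
def p13_12_0_174 : pfC (piC [(nat_lit 40173837), (nat_lit 25770221), (nat_lit 19310217), (nat_lit 12946273)] (nat_lit 25639500)) p13_12_0 (nat_lit 4) (nat_lit 174) (nat_lit 175) = true := by decide +kernel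
def p13_12_0_175 : pfC (piC [(nat_lit 40173837), (nat_lit 25770221), (nat_lit 19310217), (nat_lit 12946273)] (nat_lit 25639500)) p13_12_0 (nat_lit 4) (nat_lit 175) (nat_lit 176) = true := by decide +kernel
def p13_12_0_176 : pfC (piC [(nat_lit 40173837), (nat_lit 25770221), (nat_lit 19310217), (nat_lit 12946273)] (nat_lit 25639500)) p13_12_0 (nat_lit 4) (nat_lit 176) (nat_lit 177) = true := by decide +kernel
def p13_12_0_177 : pfC (piC [(nat_lit 40173837), (nat_lit 25770221), (nat_lit 19310217), (nat_lit 12946273)] (nat_lit 25639500)) p13_12_0 (nat_lit 4) (nat_lit 177) (nat_lit 178) = true := by decide +kernel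
def p13_12_0_178 : pfC (piC [(nat_lit 40173837), (nat_lit 25770221), (nat_lit 19310217), (nat_lit 12946273)] (nat_lit 25639500)) p13_12_0 (nat_lit 4) (nat_lit 178) (nat_lit 179) = true := by decide +kernel
def p13_12_0_179 : pfC (piC [(nat_lit 40173837), (nat_lit 25770221), (nat_lit 19310217), (nat_lit 12946273)] (nat_lit 25639500)) p13_12_0 (nat_lit 4) (nat_lit 179) (nat_lit 180) = true := by decide +kernel
def p13_12_0_180 : pfC (piC [(nat_lit 40173837), (nat_lit 25770221), (nat_lit 19310217), (nat_lit 12946273)] (nat_lit 25639500)) p13_12_0 (nat_lit 4) (nat_lit 180) (nat_lit 181) = true := by decide +kernel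
def p13_12_0_181 : pfC (piC [(nat_lit 40173837), (nat_lit 25770221), (nat_lit 19310217), (nat_lit 12946273)] (nat_lit 25639500)) p13_12_0 (nat_lit 4) (nat_lit 181) (nat_lit 182) = true := by decide +kernel
def p13_12_0_182 : pfC (piC [(nat_lit 40173837), (nat_lit 25770221), (nat_lit 19310217), (nat_lit 12946273)] (nat_lit 25639500)) p13_12_0 (nat_lit 4) (nat_lit 182) (nat_lit 183) = true := by decide +kernel
def p13_12_0_183 : pfC (piC [(nat_lit 40173837), (nat_lit 25770221), (nat_lit 19310217), (nat_lit 12946273)] (nat_lit 25639500)) p13_12_0 (nat_lit 4) (nat_lit 183) (nat_lit 184) = true := by decide +kernel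
def p13_12_0_184 : pfC (piC [(nat_lit 40173837), (nat_lit 25770221), (nat_lit 19310217), (nat_lit 12946273)] (nat_lit 25639500)) p13_12_0 (nat_lit 4) (nat_lit 184) (nat_lit 185) = true := by decide +kernel
def p13_12_0_185 : pfC (piC [(nat_lit 40173837), (nat_lit 25770221), (nat_lit 19310217), (nat_lit 12946273)] (nat_lit 25639500)) p13_12_0 (nat_lit 4) (nat_lit 185) (nat_lit 186) = true := by decide +kernel
def p13_12_0_186 : pfC (piC [(nat_lit 40173837), (nat_lit 25770221), (nat_lit 19310217), (nat_lit 12946273)] (nat_lit 25639500)) p13_12_0 (nat_lit 4) (nat_lit 186) (nat_lit 187) = true := by decide +kernel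
def p13_12_0_187 : pfC (piC [(nat_lit 40173837), (nat_lit 25770221), (nat_lit 19310217), (nat_lit 12946273)] (nat_lit 25639500)) p13_12_0 (nat_lit 4) (nat_lit 187) (nat_lit 188) = true := by decide +kernel
def p13_12_0_188 : pfC (piC [(nat_lit 40173837), (nat_lit 25770221), (nat_lit 19310217), (nat_lit 12946273)] (nat_lit 25639500)) p13_12_0 (nat_lit 4) (nat_lit 188) (nat_lit 189) = true := by decide +kernel
def p13_12_0_189 : pfC (piC [(nat_lit 40173837), (nat_lit 25770221), (nat_lit 19310217), (nat_lit 12946273)] (nat_lit 25639500)) p13_12_0 (nat_lit 4) (nat_lit 189) (nat_lit 190) = true := by decide +kernel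
def p13_12_0_190 : pfC (piC [(nat_lit 40173837), (nat_lit 25770221), (nat_lit 19310217), (nat_lit 12946273)] (nat_lit 25639500)) p13_12_0 (nat_lit 4) (nat_lit 190) (nat_lit 191) = true := by decide +kernel
def p13_12_0_191 : pfC (piC [(nat_lit 40173837), (nat_lit 25770221), (nat_lit 19310217), (nat_lit 12946273)] (nat_lit 25639500)) p13_12_0 (nat_lit 4) (nat_lit 191) (nat_lit 192) = true := by decide +kernel
def p13_12_0_192 : pfC (piC [(nat_lit 40173837), (nat_lit 25770221), (nat_lit 19310217), (nat_lit 12946273)] (nat_lit 25639500)) p13_12_0 (nat_lit 4) (nat_lit 192) (nat_lit 193) = true := by decide +kernel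
def p13_12_0_193 : pfC (piC [(nat_lit 40173837), (nat_lit 25770221), (nat_lit 19310217), (nat_lit 12946273)] (nat_lit 25639500)) p13_12_0 (nat_lit 4) (nat_lit 193) (nat_lit 194) = true := by decide +kernel
def p13_12_0_194 : pfC (piC [(nat_lit 40173837), (nat_lit 25770221), (nat_lit 19310217), (nat_lit 12946273)] (nat_lit 25639500)) p13_12_0 (nat_lit 4) (nat_lit 194) (nat_lit 195) = true := by decide +kernel
def p13_12_0_195 : pfC (piC [(nat_lit 40173837), (nat_lit 25770221), (nat_lit 19310217), (nat_lit 12946273)] (nat_lit 25639500)) p13_12_0 (nat_lit 4) (nat_lit 195) (nat_lit 196) = true := by decide +kernel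
def p13_12_0_196 : pfC (piC [(nat_lit 40173837), (nat_lit 25770221), (nat_lit 19310217), (nat_lit 12946273)] (nat_lit 25639500)) p13_12_0 (nat_lit 4) (nat_lit 196) (nat_lit 197) = true := by decide +kernel
def p13_12_0_197 : pfC (piC [(nat_lit 40173837), (nat_lit 25770221), (nat_lit 19310217), (nat_lit 12946273)] (nat_lit 25639500)) p13_12_0 (nat_lit 4) (nat_lit 197) (nat_lit 198) = true := by decide +kernel
def p13_12_0_198 : pfC (piC [(nat_lit 40173837), (nat_lit 25770221), (nat_lit 19310217), (nat_lit 12946273)] (nat_lit 25639500)) p13_12_0 (nat_lit 4) (nat_lit 198) (nat_lit 199) = true := by decide +kernel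
def p13_12_0_199 : pfC (piC [(nat_lit 40173837), (nat_lit 25770221), (nat_lit 19310217), (nat_lit 12946273)] (nat_lit 25639500)) p13_12_0 (nat_lit 4) (nat_lit 199) (nat_lit 200) = true := by decide +kernel
def p13_12_0_200 : pfC (piC [(nat_lit 40173837), (nat_lit 25770221), (nat_lit 19310217), (nat_lit 12946273)] (nat_lit 25639500)) p13_12_0 (nat_lit 4) (nat_lit 200) (nat_lit 201) = true := by decide +kernel
def p13_12_0_201 : pfC (piC [(nat_lit 40173837), (nat_lit 25770221), (nat_lit 19310217), (nat_lit 12946273)] (nat_lit 25639500)) p13_12_0 (nat_lit 4) (nat_lit 201) (nat_lit 202) = true := by decide +kernel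
def p13_12_0_202 : pfC (piC [(nat_lit 40173837), (nat_lit 25770221), (nat_lit 19310217), (nat_lit 12946273)] (nat_lit 25639500)) p13_12_0 (nat_lit 4) (nat_lit 202) (nat_lit 203) = true := by decide +kernel
def p13_12_0_203 : pfC (piC [(nat_lit 40173837), (nat_lit 25770221), (nat_lit 19310217), (nat_lit 12946273)] (nat_lit 25639500)) p13_12_0 (nat_lit 4) (nat_lit 203) (nat_lit 204) = true := by decide +kernel
def p13_12_0_204 : pfC (piC [(nat_lit 40173837), (nat_lit 25770221), (nat_lit 19310217), (nat_lit 12946273)] (nat_lit 25639500)) p13_12_0 (nat_lit 4) (nat_lit 204) (nat_lit 205) = true := by decide +kernel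
def p13_12_0_205 : pfC (piC [(nat_lit 40173837), (nat_lit 25770221), (nat_lit 19310217), (nat_lit 12946273)] (nat_lit 25639500)) p13_12_0 (nat_lit 4) (nat_lit 205) (nat_lit 206) = true := by decide +kernel
def p13_12_0_206 : pfC (piC [(nat_lit 40173837), (nat_lit 25770221), (nat_lit 19310217), (nat_lit 12946273)] (nat_lit 25639500)) p13_12_0 (nat_lit 4) (nat_lit 206) (nat_lit 207) = true := by decide +kernel
def p13_12_0_207 : pfC (piC [(nat_lit 40173837), (nat_lit 25770221), (nat_lit 19310217), (nat_lit 12946273)] (nat_lit 25639500)) p13_12_0 (nat_lit 4) (nat_lit 207) (nat_lit 208) = true := by decide +kernel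
def p13_12_0_208 : pfC (piC [(nat_lit 40173837), (nat_lit 25770221), (nat_lit 19310217), (nat_lit 12946273)] (nat_lit 25639500)) p13_12_0 (nat_lit 4) (nat_lit 208) (nat_lit 209) = true := by decide +kernel
def p13_12_0_209 : pfC (piC [(nat_lit 40173837), (nat_lit 25770221), (nat_lit 19310217), (nat_lit 12946273)] (nat_lit 25639500)) p13_12_0 (nat_lit 4) (nat_lit 209) (nat_lit 210) = true := by decide +kernel
def p13_12_0_210 : pfC (piC [(nat_lit 40173837), (nat_lit 25770221), (nat_lit 19310217), (nat_lit 12946273)] (nat_lit 25639500)) p13_12_0 (nat_lit 4) (nat_lit 210) (nat_lit 211) = true := by decide +kernel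
def p13_12_0_211 : pfC (piC [(nat_lit 40173837), (nat_lit 25770221), (nat_lit 19310217), (nat_lit 12946273)] (nat_lit 25639500)) p13_12_0 (nat_lit 4) (nat_lit 211) (nat_lit 212) = true := by decide +kernel
def p13_12_0_212 : pfC (piC [(nat_lit 40173837), (nat_lit 25770221), (nat_lit 19310217), (nat_lit 12946273)] (nat_lit 25639500)) p13_12_0 (nat_lit 4) (nat_lit 212) (nat_lit 213) = true := by decide +kernel
def p13_12_0_213 : pfC (piC [(nat_lit 40173837), (nat_lit 25770221), (nat_lit 19310217), (nat_lit 12946273)] (nat_lit 25639500)) p13_12_0 (nat_lit 4) (nat_lit 213) (nat_lit 214) = true := by decide +kernel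
def p13_12_0_214 : pfC (piC [(nat_lit 40173837), (nat_lit 25770221), (nat_lit 19310217), (nat_lit 12946273)] (nat_lit 25639500)) p13_12_0 (nat_lit 4) (nat_lit 214) (nat_lit 215) = true := by decide +kernel
def p13_12_0_215 : pfC (piC [(nat_lit 40173837), (nat_lit 25770221), (nat_lit 19310217), (nat_lit 12946273)] (nat_lit 25639500)) p13_12_0 (nat_lit 4) (nat_lit 215) (nat_lit 216) = true := by decide +kernel
def p13_12_0_216 : pfC (piC [(nat_lit 40173837), (nat_lit 25770221), (nat_lit 19310217), (nat_lit 12946273)] (nat_lit 25639500)) p13_12_0 (nat_lit 4) (nat_lit 216) (nat_lit 217) = true := by decide +kernel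
def p13_12_0_217 : pfC (piC [(nat_lit 40173837), (nat_lit 25770221), (nat_lit 19310217), (nat_lit 12946273)] (nat_lit 25639500)) p13_12_0 (nat_lit 4) (nat_lit 217) (nat_lit 218) = true := by decide +kernel
def p13_12_0_218 : pfC (piC [(nat_lit 40173837), (nat_lit 25770221), (nat_lit 19310217), (nat_lit 12946273)] (nat_lit 25639500)) p13_12_0 (nat_lit 4) (nat_lit 218) (nat_lit 219) = true := by decide +kernel
def p13_12_0_219 : pfC (piC [(nat_lit 40173837), (nat_lit 25770221), (nat_lit 19310217), (nat_lit 12946273)] (nat_lit 25639500)) p13_12_0 (nat_lit 4) (nat_lit 219) (nat_lit 220) = true := by decide +kernel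
def p13_12_0_220 : pfC (piC [(nat_lit 40173837), (nat_lit 25770221), (nat_lit 19310217), (nat_lit 12946273)] (nat_lit 25639500)) p13_12_0 (nat_lit 4) (nat_lit 220) (nat_lit 221) = true := by decide +kernel
theorem p13_12_0_T : PfS (PiF n13_12.reverse (nat_lit 25639500)) p13_12_0 (nat_lit 4) [] 0 :=
  pftab_of (los := [(nat_lit 40173837), (nat_lit 25770221), (nat_lit 19310217), (nat_lit 12946273)]) (by decide +kernel) (hi := (nat_lit 221)) (PfP.trans (PfP.trans (PfP.trans (PfP.trans (PfP.trans (PfP.trans (PfP.trans (PfP.trans (PfP.trans (PfP.trans (PfP.trans (PfP.trans (PfP.trans (PfP.trans (PfP.trans (PfP.trans (PfP.trans (PfP.trans (PfP.trans (PfP.trans (PfP.trans (PfP.trans (PfP.trans (PfP.trans (PfP.trans (PfP.trans (PfP.trans (PfP.trans (PfP.trans (PfP.trans (PfP.trans (PfP.trans (PfP.trans (PfP.trans (PfP.trans (PfP.trans (PfP.trans (PfP.trans (PfP.trans (PfP.trans (PfP.trans (PfP.trans (PfP.trans (PfP.trans (PfP.trans (PfP.trans (PfP.trans (PfP.trans (PfP.trans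 (PfP.trans (PfP.trans (PfP.trans (PfP.trans (PfP.trans (PfP.trans (PfP.trans (PfP.trans (PfP.trans (PfP.trans (PfP.trans (PfP.trans (PfP.trans (PfP.trans (PfP.trans (PfP.trans (PfP.trans (PfP.trans (PfP.trans (PfP.trans (PfP.trans (PfP.trans (PfP.trans (PfP.trans (PfP.trans (PfP.trans (PfP.trans (PfP.trans (PfP.trans (PfP.trans (PfP.trans (PfP.trans (PfP.trans (PfP.trans (PfP.trans (PfP.trans (PfP.trans (PfP.trans (PfP.trans (PfP.trans (PfP.trans (PfP.trans (PfP.trans (PfP.trans (PfP.trans (PfP.trans (PfP.trans (PfP.trans (PfP.trans (PfP.trans (PfP.trans (PfP.trans (PfP.trans (PfP.trans (PfP.trans (PfP.trans (PfP.trans (PfP.trans (PfP.trans (PfP.trans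
 (PfP.trans (PfP.trans (PfP.trans (PfP.trans (PfP.trans (PfP.trans (PfP.trans (PfP.trans (PfP.trans (PfP.trans (PfP.trans (PfP.trans (PfP.trans (PfP.trans (PfP.trans (PfP.trans (PfP.trans (PfP.trans (PfP.trans (PfP.trans (PfP.trans (PfP.trans (PfP.trans (PfP.trans (PfP.trans (PfP.trans (PfP.trans (PfP.trans (PfP.trans (PfP.trans (PfP.trans (PfP.trans (PfP.trans (PfP.trans (PfP.trans (PfP.trans (PfP.trans (PfP.trans (PfP.trans (PfP.trans (PfP.trans (PfP.trans (PfP.trans (PfP.trans (PfP.trans (PfP.trans (PfP.trans (PfP.trans (PfP.trans (PfP.trans (PfP.trans (PfP.trans (PfP.trans (PfP.trans (PfP.trans (PfP.trans (PfP.trans (PfP.trans (PfP.trans (PfP.trans (PfP.trans (PfP.trans (PfP.trans (PfP.trans (PfP.trans (PfP.trans (PfP.trans (PfP.trans (PfP.trans (PfP.trans (PfP.trans (PfP.trans (PfP.trans (PfP.trans (PfP.trans (PfP.trans (PfP.trans (PfP.trans (PfP.trans (PfP.trans (PfP.trans (PfP.trans (PfP.trans (PfP.trans (PfP.trans (PfP.trans (PfP.trans (PfP.trans (PfP.trans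 (PfP.trans (PfP.trans (PfP.trans (PfP.trans (PfP.trans (PfP.trans (PfP.trans (PfP.trans (PfP.trans (PfP.trans (PfP.trans (PfP.trans (PfP.trans (PfP.trans (PfP.trans (PfP.trans (PfP.trans (PfP.trans (PfP.trans (PfP.trans
 (PfP.trans (PfP.trans (pfC_sound p13_12_0_0) (pfC_sound p13_12_0_1)) (pfC_sound p13_12_0_2)) (pfC_sound p13_12_0_3)) (pfC_sound p13_12_0_4)) (pfC_sound p13_12_0_5)) (pfC_sound p13_12_0_6)) (pfC_sound p13_12_0_7)) (pfC_sound p13_12_0_8)) (pfC_sound p13_12_0_9)) (pfC_sound p13_12_0_10)) (pfC_sound p13_12_0_11)) (pfC_sound p13_12_0_12)) (pfC_sound p13_12_0_13)) (pfC_sound p13_12_0_14)) (pfC_sound p13_12_0_15)) (pfC_sound p13_12_0_16)) (pfC_sound p13_12_0_17)) (pfC_sound p13_12_0_18)) (pfC_sound p13_12_0_19)) (pfC_sound p13_12_0_20)) (pfC_sound p13_12_0_21)) (pfC_sound p13_12_0_22)) (pfC_sound p13_12_0_23)) (pfC_sound p13_12_0_24)) (pfC_sound p13_12_0_25)) (pfC_sound p13_12_0_26)) (pfC_sound p13_12_0_27)) (pfC_sound p13_12_0_28)) (pfC_sound p13_12_0_29))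 (pfC_sound p13_12_0_30)) (pfC_sound p13_12_0_31)) (pfC_sound p13_12_0_32)) (pfC_sound p13_12_0_33)) (pfC_sound p13_12_0_34)) (pfC_sound p13_12_0_35)) (pfC_sound p13_12_0_36)) (pfC_sound p13_12_0_37)) (pfC_sound p13_12_0_38)) (pfC_sound p13_12_0_39)) (pfC_sound p13_12_0_40)) (pfC_sound p13_12_0_41)) (pfC_sound p13_12_0_42)) (pfC_sound p13_12_0_43)) (pfC_sound p13_12_0_44)) (pfC_sound p13_12_0_45)) (pfC_sound p13_12_0_46)) (pfC_sound
 p13_12_0_47)) (pfC_sound p13_12_0_48)) (pfC_sound p13_12_0_49)) (pfC_sound p13_12_0_50)) (pfC_sound p13_12_0_51)) (pfC_sound p13_12_0_52)) (pfC_sound p13_12_0_53)) (pfC_sound p13_12_0_54)) (pfC_sound p13_12_0_55)) (pfC_sound p13_12_0_56)) (pfC_sound p13_12_0_57)) (pfC_sound p13_12_0_58)) (pfC_sound p13_12_0_59)) (pfC_sound p13_12_0_60)) (pfC_sound p13_12_0_61)) (pfC_sound p13_12_0_62)) (pfC_sound p13_12_0_63)) (pfC_sound p13_12_0_64)) (pfC_sound p13_12_0_65)) (pfC_sound p13_12_0_66)) (pfC_sound p13_12_0_67)) (pfC_sound p13_12_0_68)) (pfC_sound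 p13_12_0_69)) (pfC_sound p13_12_0_70)) (pfC_sound p13_12_0_71)) (pfC_sound p13_12_0_72)) (pfC_sound p13_12_0_73)) (pfC_sound p13_12_0_74)) (pfC_sound p13_12_0_75)) (pfC_sound p13_12_0_76)) (pfC_sound p13_12_0_77)) (pfC_sound p13_12_0_78)) (pfC_sound p13_12_0_79)) (pfC_sound p13_12_0_80)) (pfC_sound p13_12_0_81)) (pfC_sound p13_12_0_82)) (pfC_sound p13_12_0_83)) (pfC_sound p13_12_0_84)) (pfC_sound p13_12_0_85)) (pfC_sound p13_12_0_86)) (pfC_sound p13_12_0_87)) (pfC_sound p13_12_0_88)) (pfC_sound p13_12_0_89)) (pfC_sound p13_12_0_90)) (pfC_sound p13_12_0_91)) (pfC_sound p13_12_0_92)) (pfC_sound p13_12_0_93)) (pfC_sound p13_12_0_94)) (pfC_sound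
 p13_12_0_95)) (pfC_sound p13_12_0_96)) (pfC_sound p13_12_0_97)) (pfC_sound p13_12_0_98)) (pfC_sound p13_12_0_99)) (pfC_sound p13_12_0_100)) (pfC_sound p13_12_0_101)) (pfC_sound p13_12_0_102)) (pfC_sound p13_12_0_103)) (pfC_sound p13_12_0_104)) (pfC_sound p13_12_0_105)) (pfC_sound p13_12_0_106)) (pfC_sound p13_12_0_107)) (pfC_sound p13_12_0_108)) (pfC_sound p13_12_0_109)) (pfC_sound p13_12_0_110)) (pfC_sound p13_12_0_111)) (pfC_sound p13_12_0_112)) (pfC_sound p13_12_0_113)) (pfC_sound p13_12_0_114)) (pfC_sound p13_12_0_115)) (pfC_sound p13_12_0_116)) (pfC_sound p13_12_0_117)) (pfC_sound p13_12_0_118)) (pfC_sound p13_12_0_119)) (pfC_sound p13_12_0_120)) (pfC_sound p13_12_0_121)) (pfC_sound p13_12_0_122)) (pfC_sound p13_12_0_123)) (pfC_sound p13_12_0_124)) (pfC_sound p13_12_0_125)) (pfC_sound p13_12_0_126)) (pfC_sound p13_12_0_127)) (pfC_sound p13_12_0_128)) (pfC_sound p13_12_0_129)) (pfC_sound p13_12_0_130)) (pfC_sound p13_12_0_131)) (pfC_sound p13_12_0_132)) (pfC_sound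 p13_12_0_133)) (pfC_sound p13_12_0_134)) (pfC_sound p13_12_0_135)) (pfC_sound p13_12_0_136)) (pfC_sound p13_12_0_137)) (pfC_sound p13_12_0_138)) (pfC_sound p13_12_0_139)) (pfC_sound p13_12_0_140)) (pfC_sound
 p13_12_0_141)) (pfC_sound p13_12_0_142)) (pfC_sound p13_12_0_143)) (pfC_sound p13_12_0_144)) (pfC_sound p13_12_0_145)) (pfC_sound p13_12_0_146)) (pfC_sound p13_12_0_147)) (pfC_sound p13_12_0_148)) (pfC_sound p13_12_0_149)) (pfC_sound p13_12_0_150)) (pfC_sound p13_12_0_151)) (pfC_sound p13_12_0_152)) (pfC_sound p13_12_0_153)) (pfC_sound p13_12_0_154)) (pfC_sound p13_12_0_155)) (pfC_sound p13_12_0_156)) (pfC_sound p13_12_0_157)) (pfC_sound p13_12_0_158)) (pfC_sound p13_12_0_159)) (pfC_sound p13_12_0_160)) (pfC_sound p13_12_0_161)) (pfC_sound p13_12_0_162)) (pfC_sound p13_12_0_163)) (pfC_sound p13_12_0_164)) (pfC_sound p13_12_0_165)) (pfC_sound p13_12_0_166)) (pfC_sound p13_12_0_167)) (pfC_sound p13_12_0_168)) (pfC_sound p13_12_0_169)) (pfC_sound p13_12_0_170))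 (pfC_sound p13_12_0_171)) (pfC_sound p13_12_0_172)) (pfC_sound p13_12_0_173)) (pfC_sound p13_12_0_174)) (pfC_sound p13_12_0_175)) (pfC_sound p13_12_0_176)) (pfC_sound p13_12_0_177)) (pfC_sound p13_12_0_178)) (pfC_sound p13_12_0_179)) (pfC_sound p13_12_0_180)) (pfC_sound p13_12_0_181)) (pfC_sound p13_12_0_182)) (pfC_sound p13_12_0_183)) (pfC_sound p13_12_0_184)) (pfC_sound p13_12_0_185)) (pfC_sound p13_12_0_186)) (pfC_sound
 p13_12_0_187)) (pfC_sound p13_12_0_188)) (pfC_sound p13_12_0_189)) (pfC_sound p13_12_0_190)) (pfC_sound p13_12_0_191)) (pfC_sound p13_12_0_192)) (pfC_sound p13_12_0_193)) (pfC_sound p13_12_0_194)) (pfC_sound p13_12_0_195)) (pfC_sound p13_12_0_196)) (pfC_sound p13_12_0_197)) (pfC_sound p13_12_0_198)) (pfC_sound p13_12_0_199)) (pfC_sound p13_12_0_200)) (pfC_sound p13_12_0_201)) (pfC_sound p13_12_0_202)) (pfC_sound p13_12_0_203)) (pfC_sound p13_12_0_204)) (pfC_sound p13_12_0_205)) (pfC_sound p13_12_0_206)) (pfC_sound p13_12_0_207)) (pfC_sound p13_12_0_208))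 (pfC_sound p13_12_0_209)) (pfC_sound p13_12_0_210)) (pfC_sound p13_12_0_211)) (pfC_sound p13_12_0_212)) (pfC_sound p13_12_0_213)) (pfC_sound p13_12_0_214)) (pfC_sound p13_12_0_215)) (pfC_sound p13_12_0_216)) (pfC_sound p13_12_0_217)) (pfC_sound p13_12_0_218)) (pfC_sound p13_12_0_219)) (pfC_sound p13_12_0_220)) (by decide +kernel)

def z13_12_0 : zOK yB13_12 (nat_lit 0) (nat_lit 0) (nat_lit 400) (nat_lit 25639500) (nat_lit 10642110) = true := by decide +kernel
def g13_12_0 : gOK yB13_12.x P13_12 (nat_lit 1421) (q13_12 :: r13_12) (nat_lit 0) (nat_lit 0) (nat_lit 1) (nat_lit 400) (nat_lit 0) (nat_lit 11000000) (nat_lit 12712500) (nat_lit 12712500) [(nat_lit 800), (nat_lit 1400), (nat_lit 2200)] = true := by decide +kernel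
def v13_12_0 : ivC P13_12 s13_12 w13_12 n13_12 (nat_lit 4) (nat_lit 5420) (nat_lit 0) (nat_lit 0) f152_1_0 f160_1_0 (nat_lit 1) (nat_lit 400) f152_1_400 f160_1_400 (nat_lit 25639500) (nat_lit 10642110) p13_12_0 = true := by decide +kernel
def p13_12_1 : PF := (PF.cons (PF.cons (PF.cons (PF.cons (PF.leaf (nat_lit 2068414) (nat_lit 9721178) (nat_lit 57387634) (nat_lit 9721178) [(nat_lit 0), (nat_lit 0), (nat_lit 0), (nat_lit 0)]) (PF.cons (PF.leaf (nat_lit 2218991) (nat_lit 252620) (nat_lit 57112981) (nat_lit 9743211) [(nat_lit 252620), (nat_lit 0), (nat_lit 0), (nat_lit 0)]) (PF.cons (PF.leaf (nat_lit 2398284) (nat_lit 275178) (nat_lit 56791178) (nat_lit 9767277) [(nat_lit 275178), (nat_lit 0), (nat_lit 0), (nat_lit 0)]) (PF.cons (PF.leaf (nat_lit 2600087) (nat_lit 295353) (nat_lit 56430650) (nat_lit 9792102) [(nat_lit 295353), (nat_lit 0), (nat_lit 0), (nat_lit 0)]) (PF.cons (PF.leaf (nat_lit 2821350) (nat_lit 313685) (nat_lit 56037356) (nat_lit 9816715) [(nat_lit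 313685), (nat_lit 0), (nat_lit 0), (nat_lit 0)]) (PF.cons (PF.leaf (nat_lit 3059799) (nat_lit 330512) (nat_lit 55615895) (nat_lit 9840354) [(nat_lit 330512), (nat_lit 0), (nat_lit 0), (nat_lit 0)]) (PF.cons (PF.leaf (nat_lit 3313546) (nat_lit 346065) (nat_lit 55170017) (nat_lit 9862405) [(nat_lit 346065), (nat_lit 0), (nat_lit 0), (nat_lit 0)]) (PF.cons (PF.leaf (nat_lit 3580970) (nat_lit 360504) (nat_lit 54702901) (nat_lit 9882379) [(nat_lit 360504), (nat_lit 0), (nat_lit
 0), (nat_lit 0)]) (PF.cons PF.nil (PF.cons PF.nil PF.nil)))))))))) (PF.cons (PF.cons (PF.leaf (nat_lit 2610048) (nat_lit 1220032) (nat_lit 56080945) (nat_lit 9807834) [(nat_lit 0), (nat_lit 1220032), (nat_lit 0), (nat_lit 0)]) (PF.cons (PF.leaf (nat_lit 2807344) (nat_lit 307360) (nat_lit 55721360) (nat_lit 9828380) [(nat_lit 307360), (nat_lit 1251711), (nat_lit 0), (nat_lit 0)]) (PF.cons (PF.leaf (nat_lit 3026430) (nat_lit 324999) (nat_lit 55327193) (nat_lit 9848623) [(nat_lit 324999), (nat_lit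 1282997), (nat_lit 0), (nat_lit 0)]) (PF.cons (PF.leaf (nat_lit 3263283) (nat_lit 341119) (nat_lit 54904281) (nat_lit 9867789) [(nat_lit 341119), (nat_lit 1313383), (nat_lit 0), (nat_lit 0)]) (PF.cons (PF.leaf (nat_lit 3515664) (nat_lit 355977) (nat_lit 54457020) (nat_lit 9885289) [(nat_lit 355977), (nat_lit 1342591), (nat_lit 0), (nat_lit 0)]) (PF.cons (PF.leaf (nat_lit 3781759) (nat_lit 369746) (nat_lit 53988937) (nat_lit 9900666) [(nat_lit 369746), (nat_lit 1370474), (nat_lit 0), (nat_lit 0)]) (PF.cons PF.nil (PF.cons PF.nil (PF.cons PF.nil PF.nil))))))))) (PF.cons (PF.cons (PF.leaf (nat_lit 3235757) (nat_lit 1318198) (nat_lit 54598579) (nat_lit 9873836) [(nat_lit 0), (nat_lit 1318198),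
 (nat_lit 0), (nat_lit 0)]) (PF.cons (PF.leaf (nat_lit 3468416) (nat_lit 350367) (nat_lit 54178968) (nat_lit 9888562) [(nat_lit 350367), (nat_lit 1345457), (nat_lit 0), (nat_lit 0)]) (PF.cons (PF.leaf (nat_lit 3718131) (nat_lit 364715) (nat_lit 53733998) (nat_lit 9901612) [(nat_lit 364715), (nat_lit 1371885), (nat_lit 0), (nat_lit 0)]) (PF.cons (PF.leaf (nat_lit 3981905) (nat_lit 377950) (nat_lit 53267915) (nat_lit 9912542) [(nat_lit 377950), (nat_lit 1397251), (nat_lit 0), (nat_lit 0)]) (PF.cons (PF.leaf (nat_lit 4257980) (nat_lit 390217) (nat_lit 52784075) (nat_lit 9921023) [(nat_lit 390217), (nat_lit 1421421), (nat_lit 0), (nat_lit 0)]) (PF.cons PF.nil (PF.cons PF.nil PF.nil))))))) (PF.cons (PF.cons (PF.leaf (nat_lit 3922498) (nat_lit 1398598) (nat_lit 53001500) (nat_lit 9911517) [(nat_lit 0), (nat_lit 1398598), (nat_lit 0), (nat_lit 0)]) (PF.cons (PF.leaf (nat_lit 4182082) (nat_lit 385158) (nat_lit 52540618) (nat_lit 9918200) [(nat_lit 385158), (nat_lit 1421611),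 (nat_lit 0), (nat_lit 0)]) (PF.cons (PF.leaf (nat_lit 4455027) (nat_lit 396996) (nat_lit 52061442) (nat_lit 9922485) [(nat_lit 396996), (nat_lit 1443630), (nat_lit 0), (nat_lit 0)]) (PF.cons (PF.leaf (nat_lit 4739028)
 (nat_lit 407953) (nat_lit 51567174) (nat_lit 9924144) [(nat_lit 407953), (nat_lit 1464544), (nat_lit 0), (nat_lit 0)]) (PF.cons PF.nil PF.nil))))) (PF.cons (PF.cons (PF.leaf (nat_lit 4652358) (nat_lit 1463775) (nat_lit 51335536) (nat_lit 9918175) [(nat_lit 0), (nat_lit 1463775), (nat_lit 0), (nat_lit 0)]) (PF.cons (PF.leaf (nat_lit 4932030) (nat_lit 413508) (nat_lit 50848051) (nat_lit 9915975) [(nat_lit 413508), (nat_lit 1482819), (nat_lit 0), (nat_lit 0)]) (PF.cons PF.nil (PF.cons PF.nil PF.nil)))) (PF.cons (PF.cons (PF.leaf (nat_lit 5410801) (nat_lit 1515671) (nat_lit 49636290) (nat_lit 9894164) [(nat_lit 0), (nat_lit 1515671), (nat_lit 0), (nat_lit 0)]) (PF.cons PF.nil PF.nil)) (PF.cons PF.nil (PF.cons PF.nil PF.nil)))))))) (PF.cons (PF.cons (PF.cons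 (PF.leaf (nat_lit 3182316) (nat_lit 3234364) (nat_lit 54011155) (nat_lit 9863293) [(nat_lit 0), (nat_lit 0), (nat_lit 3234364), (nat_lit 0)]) (PF.cons (PF.leaf (nat_lit 3390137) (nat_lit 332258) (nat_lit 53638445) (nat_lit 9874236) [(nat_lit 332258), (nat_lit 0), (nat_lit 3263873), (nat_lit 0)]) (PF.cons (PF.leaf (nat_lit 3618749) (nat_lit 348871) (nat_lit 53233269) (nat_lit 9884085) [(nat_lit 348871), (nat_lit 0), (nat_lit
 3293714), (nat_lit 0)]) (PF.cons (PF.leaf (nat_lit 3864005) (nat_lit 363829) (nat_lit 52801853) (nat_lit 9892303) [(nat_lit 363829), (nat_lit 0), (nat_lit 3323167), (nat_lit 0)]) (PF.cons (PF.leaf (nat_lit 4123534) (nat_lit 377448) (nat_lit 52348778) (nat_lit 9898493) [(nat_lit 377448), (nat_lit 0), (nat_lit 3351747), (nat_lit 0)]) (PF.cons (PF.leaf (nat_lit 4395474) (nat_lit 389939) (nat_lit 51877637) (nat_lit 9902358) [(nat_lit 389939), (nat_lit 0), (nat_lit 3379121), (nat_lit 0)]) (PF.cons PF.nil (PF.cons PF.nil (PF.cons PF.nil PF.nil)))))))))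 (PF.cons (PF.cons (PF.leaf (nat_lit 3824616) (nat_lit 1382133) (nat_lit 52503909) (nat_lit 9890744) [(nat_lit 0), (nat_lit 1382133), (nat_lit 3332025), (nat_lit 0)]) (PF.cons (PF.leaf (nat_lit 4064415) (nat_lit 370915) (nat_lit 52079608) (nat_lit 9895142) [(nat_lit 370915), (nat_lit 1405216), (nat_lit 3357930), (nat_lit 0)]) (PF.cons (PF.leaf (nat_lit 4320056) (nat_lit 384163) (nat_lit 51632337) (nat_lit 9897522) [(nat_lit 384163), (nat_lit 1427442), (nat_lit 3383184), (nat_lit 0)]) (PF.cons (PF.leaf (nat_lit 4588639) (nat_lit 396244) (nat_lit 51166424) (nat_lit 9897607) [(nat_lit 396244), (nat_lit 1448633), (nat_lit 3407414), (nat_lit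
 0)]) (PF.cons (PF.leaf (nat_lit 4868324) (nat_lit 407330) (nat_lit 50685228) (nat_lit 9895202) [(nat_lit 407330), (nat_lit 1468696), (nat_lit 3430364), (nat_lit 0)]) (PF.cons PF.nil (PF.cons PF.nil PF.nil))))))) (PF.cons (PF.cons (PF.leaf (nat_lit 4518183) (nat_lit 1448112) (nat_lit 50910610) (nat_lit 9890958) [(nat_lit 0), (nat_lit 1448112), (nat_lit 3411019), (nat_lit 0)]) (PF.cons (PF.leaf (nat_lit 4781648) (nat_lit 401686) (nat_lit 50452678) (nat_lit 9887522) [(nat_lit 401686), (nat_lit 1467329), (nat_lit 3432266), (nat_lit 0)]) (PF.cons (PF.leaf (nat_lit 5057351) (nat_lit 412443) (nat_lit 49978702) (nat_lit 9881650) [(nat_lit 412443), (nat_lit 1485585), (nat_lit 3452401), (nat_lit 0)]) (PF.cons PF.nil (PF.cons PF.nil PF.nil))))) (PF.cons (PF.cons (PF.leaf (nat_lit 5246514) (nat_lit 1500770) (nat_lit 49271887) (nat_lit 9863228) [(nat_lit 0), (nat_lit 1500770), (nat_lit 3471386), (nat_lit 0)]) (PF.cons (PF.leaf (nat_lit 5527217) (nat_lit 426390) (nat_lit 48793795)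 (nat_lit 9851691) [(nat_lit 426390), (nat_lit 1516410), (nat_lit 3487705), (nat_lit 0)]) (PF.cons PF.nil (PF.cons PF.nil PF.nil)))) (PF.cons (PF.cons (PF.leaf (nat_lit 5996589) (nat_lit 1541821) (nat_lit 47618321)
 (nat_lit 9808945) [(nat_lit 0), (nat_lit 1541821), (nat_lit 3514258), (nat_lit 0)]) (PF.cons PF.nil PF.nil)) (PF.cons PF.nil PF.nil)))))) (PF.cons (PF.cons (PF.cons (PF.leaf (nat_lit 4403010) (nat_lit 3398123) (nat_lit 50450187) (nat_lit 9862378) [(nat_lit 0), (nat_lit 0), (nat_lit 3398123), (nat_lit 0)]) (PF.cons (PF.leaf (nat_lit 4647420) (nat_lit 387335) (nat_lit 50027707) (nat_lit 9857849) [(nat_lit 387335), (nat_lit 0), (nat_lit 3417960), (nat_lit 0)]) (PF.cons (PF.leaf (nat_lit 4906657) (nat_lit 399575) (nat_lit 49584438) (nat_lit 9851110) [(nat_lit 399575), (nat_lit 0), (nat_lit 3437056), (nat_lit 0)]) (PF.cons (PF.leaf (nat_lit 5177782) (nat_lit 410613) (nat_lit 49124699) (nat_lit 9842024) [(nat_lit 410613), (nat_lit 0), (nat_lit 3455125), (nat_lit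 0)]) (PF.cons PF.nil PF.nil))))) (PF.cons (PF.cons (PF.leaf (nat_lit 5097571) (nat_lit 1484683) (nat_lit 48881263) (nat_lit 9831046) [(nat_lit 0), (nat_lit 1484683), (nat_lit 3455909), (nat_lit 0)]) (PF.cons (PF.leaf (nat_lit 5362883) (nat_lit 414576) (nat_lit 48431444) (nat_lit 9819137) [(nat_lit 414576), (nat_lit 1500657), (nat_lit 3471498), (nat_lit 0)]) (PF.cons (PF.leaf (nat_lit 5639448) (nat_lit 424364) (nat_lit 47967523)
 (nat_lit 9804833) [(nat_lit 424364), (nat_lit 1515706), (nat_lit 3486010), (nat_lit 0)]) (PF.cons PF.nil PF.nil)))) (PF.cons (PF.cons (PF.leaf (nat_lit 5820049) (nat_lit 1526796) (nat_lit 47285079) (nat_lit 9775113) [(nat_lit 0), (nat_lit 1526796), (nat_lit 3497514), (nat_lit 0)]) (PF.cons (PF.leaf (nat_lit 6100194) (nat_lit 436105) (nat_lit 46820224) (nat_lit 9755947) [(nat_lit 436105), (nat_lit 1539537), (nat_lit 3508730), (nat_lit 0)]) PF.nil)) (PF.cons PF.nil (PF.cons PF.nil PF.nil))))) (PF.cons (PF.cons (PF.cons (PF.leaf (nat_lit 5658633)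 (nat_lit 3480596) (nat_lit 46927201) (nat_lit 9739822) [(nat_lit 0), (nat_lit 0), (nat_lit 3480596), (nat_lit 0)]) (PF.cons (PF.leaf (nat_lit 5924184) (nat_lit 424412) (nat_lit 46489133) (nat_lit 9720947) [(nat_lit 424412), (nat_lit 0), (nat_lit 3491439), (nat_lit 0)]) (PF.cons (PF.leaf (nat_lit 6200151) (nat_lit 433329) (nat_lit 46038636) (nat_lit 9699766) [(nat_lit 433329), (nat_lit 0), (nat_lit 3501250), (nat_lit 0)]) (PF.cons PF.nil PF.nil)))) (PF.cons (PF.cons (PF.leaf (nat_lit 6372051) (nat_lit 1543811) (nat_lit 45383848) (nat_lit 9661161) [(nat_lit 0), (nat_lit 1543811), (nat_lit 3506663), (nat_lit 0)]) (PF.cons PF.nil PF.nil))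
 (PF.cons PF.nil PF.nil))) (PF.cons (PF.cons (PF.cons (PF.leaf (nat_lit 6902300) (nat_lit 3502158) (nat_lit 43572680) (nat_lit 9527499) [(nat_lit 0), (nat_lit 0), (nat_lit 3502158), (nat_lit 0)]) (PF.cons PF.nil PF.nil)) (PF.cons PF.nil PF.nil)) (PF.cons PF.nil PF.nil)))))) (PF.cons (PF.cons (PF.cons (PF.cons (PF.leaf (nat_lit 4248927) (nat_lit 9371979) (nat_lit 48105142) (nat_lit 9631691) [(nat_lit 0), (nat_lit 0), (nat_lit 0), (nat_lit 9371979)]) (PF.cons (PF.leaf (nat_lit 4455768) (nat_lit 346841) (nat_lit 47769280) (nat_lit 9625545) [(nat_lit 346841), (nat_lit 0), (nat_lit 0), (nat_lit 9367144)]) (PF.cons (PF.leaf (nat_lit 4681809) (nat_lit 362390) (nat_lit 47405991) (nat_lit 9617512) [(nat_lit 362390), (nat_lit 0), (nat_lit 0), (nat_lit 9360527)]) (PF.cons (PF.leaf (nat_lit 4922821) (nat_lit 376088) (nat_lit 47021085) (nat_lit 9607473) [(nat_lit 376088), (nat_lit 0), (nat_lit 0), (nat_lit 9351989)]) (PF.cons (PF.leaf (nat_lit 5176449) (nat_lit 388311) (nat_lit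 46618796) (nat_lit 9595343) [(nat_lit 388311), (nat_lit 0), (nat_lit 0), (nat_lit 9341428)]) (PF.cons (PF.leaf (nat_lit 5440745) (nat_lit 399315) (nat_lit 46202391) (nat_lit 9581066) [(nat_lit 399315), (nat_lit 0),
 (nat_lit 0), (nat_lit 9328778)]) (PF.cons (PF.leaf (nat_lit 5714219) (nat_lit 409282) (nat_lit 45774503) (nat_lit 9564612) [(nat_lit 409282), (nat_lit 0), (nat_lit 0), (nat_lit 9314000)]) (PF.cons PF.nil (PF.cons PF.nil PF.nil))))))))) (PF.cons (PF.cons (PF.leaf (nat_lit 4870120) (nat_lit 1411190) (nat_lit 46762693) (nat_lit 9594743) [(nat_lit 0), (nat_lit 1411190), (nat_lit 0), (nat_lit 9340185)]) (PF.cons (PF.leaf (nat_lit 5104575) (nat_lit 380764) (nat_lit 46386778) (nat_lit 9582527) [(nat_lit 380764), (nat_lit 1429301), (nat_lit 0), (nat_lit 9329440)]) (PF.cons (PF.leaf (nat_lit 5353245) (nat_lit 392692) (nat_lit 45992168) (nat_lit 9568189) [(nat_lit 392692), (nat_lit 1446418), (nat_lit 0), (nat_lit 9316650)]) (PF.cons (PF.leaf (nat_lit 5613252) (nat_lit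 403367) (nat_lit 45582773) (nat_lit 9551709) [(nat_lit 403367), (nat_lit 1462445), (nat_lit 0), (nat_lit 9301781)]) (PF.cons (PF.leaf (nat_lit 5882786) (nat_lit 412994) (nat_lit 45161579) (nat_lit 9533086) [(nat_lit 412994), (nat_lit 1477349), (nat_lit 0), (nat_lit 9284819)]) (PF.cons PF.nil (PF.cons PF.nil PF.nil))))))) (PF.cons (PF.cons (PF.leaf (nat_lit 5531358) (nat_lit 1459507) (nat_lit 45364163) (nat_lit 9537384)
 [(nat_lit 0), (nat_lit 1459507), (nat_lit 0), (nat_lit 9288249)]) (PF.cons (PF.leaf (nat_lit 5785490) (nat_lit 406687) (nat_lit 44963859) (nat_lit 9518963) [(nat_lit 406687), (nat_lit 1473943), (nat_lit 0), (nat_lit 9271415)]) (PF.cons (PF.leaf (nat_lit 6050374) (nat_lit 416071) (nat_lit 44550933) (nat_lit 9498407) [(nat_lit 416071), (nat_lit 1487414), (nat_lit 0), (nat_lit 9252501)]) (PF.cons (PF.leaf (nat_lit 6323798) (nat_lit 424532) (nat_lit 44128144) (nat_lit 9475753) [(nat_lit 424532), (nat_lit 1499890), (nat_lit 0), (nat_lit 9231535)]) (PF.cons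 PF.nil PF.nil))))) (PF.cons (PF.cons (PF.leaf (nat_lit 6218206) (nat_lit 1496205) (nat_lit 43942338) (nat_lit 9460693) [(nat_lit 0), (nat_lit 1496205), (nat_lit 0), (nat_lit 9217164)]) (PF.cons (PF.leaf (nat_lit 6486231) (nat_lit 426792) (nat_lit 43528738) (nat_lit 9436377) [(nat_lit 426792), (nat_lit 1507463), (nat_lit 0), (nat_lit 9194515)]) (PF.cons (PF.leaf (nat_lit 6762399) (nat_lit 434246) (nat_lit 43106909) (nat_lit 9410042) [(nat_lit 434246), (nat_lit 1517826), (nat_lit 0), (nat_lit 9169888)]) (PF.cons PF.nil PF.nil)))) (PF.cons (PF.cons (PF.leaf (nat_lit 6919874) (nat_lit 1523259) (nat_lit 42520432) (nat_lit 9366575)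
 [(nat_lit 0), (nat_lit 1523259), (nat_lit 0), (nat_lit 9128765)]) (PF.cons PF.nil PF.nil)) (PF.cons PF.nil PF.nil)))))) (PF.cons (PF.cons (PF.cons (PF.leaf (nat_lit 5397453) (nat_lit 3373840) (nat_lit 44984000) (nat_lit 9499420) [(nat_lit 0), (nat_lit 0), (nat_lit 3373840), (nat_lit 9251551)]) (PF.cons (PF.leaf (nat_lit 5634014) (nat_lit 391820) (nat_lit 44614750) (nat_lit 9481707) [(nat_lit 391820), (nat_lit 0), (nat_lit 3385210), (nat_lit 9235324)]) (PF.cons (PF.leaf (nat_lit 5883969) (nat_lit 402827) (nat_lit 44228555) (nat_lit 9461830) [(nat_lit 402827), (nat_lit 0), (nat_lit 3395767), (nat_lit 9217004)]) (PF.cons (PF.leaf (nat_lit 6144352) (nat_lit 412582) (nat_lit 43829227) (nat_lit 9439850) [(nat_lit 412582), (nat_lit 0), (nat_lit 3405347), (nat_lit 9196641)]) (PF.cons (PF.leaf (nat_lit 6413451) (nat_lit 421303) (nat_lit 43419642) (nat_lit 9415826) [(nat_lit 421303), (nat_lit 0), (nat_lit 3413848), (nat_lit 9174281)]) (PF.cons PF.nil (PF.cons PF.nil PF.nil)))))))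 (PF.cons (PF.cons (PF.leaf (nat_lit 6054877) (nat_lit 1478917) (nat_lit 43623044) (nat_lit 9423397) [(nat_lit 0), (nat_lit 1478917), (nat_lit 3402488), (nat_lit 9180965)]) (PF.cons (PF.leaf (nat_lit 6309021)
 (nat_lit 414783) (nat_lit 43233789) (nat_lit 9399960) [(nat_lit 414783), (nat_lit 1490837), (nat_lit 3410324), (nat_lit 9159116)]) (PF.cons (PF.leaf (nat_lit 6573127) (nat_lit 423341) (nat_lit 42833346) (nat_lit 9374471) [(nat_lit 423341), (nat_lit 1501852), (nat_lit 3417190), (nat_lit 9135269)]) (PF.cons (PF.leaf (nat_lit 6845035) (nat_lit 430990) (nat_lit 42424355) (nat_lit 9347018) [(nat_lit 430990), (nat_lit 1511951), (nat_lit 3423016), (nat_lit 9109499)]) (PF.cons PF.nil PF.nil))))) (PF.cons (PF.cons (PF.leaf (nat_lit 6733127) (nat_lit 1507750) (nat_lit 42250140) (nat_lit 9330617) [(nat_lit 0), (nat_lit 1507750), (nat_lit 3418784), (nat_lit 9093768)]) (PF.cons (PF.leaf (nat_lit 6999383) (nat_lit 432350) (nat_lit 41850914) (nat_lit 9301944) [(nat_lit 432350),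 (nat_lit 1516831), (nat_lit 3423186), (nat_lit 9066754)]) (PF.cons PF.nil (PF.cons PF.nil PF.nil)))) (PF.cons (PF.cons (PF.leaf (nat_lit 7422477) (nat_lit 1528186) (nat_lit 40885149) (nat_lit 9223145) [(nat_lit 0), (nat_lit 1528186), (nat_lit 3423998), (nat_lit 8991960)]) (PF.cons PF.nil PF.nil)) (PF.cons PF.nil PF.nil))))) (PF.cons (PF.cons (PF.cons (PF.leaf (nat_lit 6561014) (nat_lit 3400091) (nat_lit 41958635) (nat_lit
 9292896) [(nat_lit 0), (nat_lit 0), (nat_lit 3400091), (nat_lit 9057098)]) (PF.cons (PF.leaf (nat_lit 6814150) (nat_lit 420681) (nat_lit 41582191) (nat_lit 9265429) [(nat_lit 420681), (nat_lit 0), (nat_lit 3404648), (nat_lit 9031212)]) (PF.cons (PF.leaf (nat_lit 7076575) (nat_lit 428503) (nat_lit 41195785) (nat_lit 9236012) [(nat_lit 428503), (nat_lit 0), (nat_lit 3408291), (nat_lit 9003424)]) (PF.cons PF.nil PF.nil)))) (PF.cons (PF.cons (PF.leaf (nat_lit 7228888) (nat_lit 1513218) (nat_lit 40638976) (nat_lit 9187495) [(nat_lit 0), (nat_lit 1513218),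 (nat_lit 3405948), (nat_lit 8957225)]) (PF.cons (PF.leaf (nat_lit 7492671) (nat_lit 436046) (nat_lit 40255171) (nat_lit 9155410) [(nat_lit 436046), (nat_lit 1520451), (nat_lit 3407476), (nat_lit 8926780)]) PF.nil)) (PF.cons PF.nil PF.nil))) (PF.cons (PF.cons (PF.cons (PF.leaf (nat_lit 7705803) (nat_lit 3384668) (nat_lit 39108782) (nat_lit 9034924) [(nat_lit 0), (nat_lit 0), (nat_lit 3384668), (nat_lit 8811099)]) (PF.cons PF.nil PF.nil)) (PF.cons PF.nil PF.nil)) (PF.cons PF.nil PF.nil))))) (PF.cons (PF.cons (PF.cons (PF.cons (PF.leaf (nat_lit 6261187) (nat_lit 8829456) (nat_lit 40390692) (nat_lit 9059207) [(nat_lit 0), (nat_lit 0),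
 (nat_lit 0), (nat_lit 8829456)]) (PF.cons (PF.leaf (nat_lit 6488639) (nat_lit 389017) (nat_lit 40071185) (nat_lit 9035091) [(nat_lit 389017), (nat_lit 0), (nat_lit 0), (nat_lit 8806759)]) (PF.cons (PF.leaf (nat_lit 6728314) (nat_lit 399018) (nat_lit 39737646) (nat_lit 9008942) [(nat_lit 399018), (nat_lit 0), (nat_lit 0), (nat_lit 8782093)]) (PF.cons (PF.leaf (nat_lit 6977358) (nat_lit 407761) (nat_lit 39393376) (nat_lit 8980927) [(nat_lit 407761), (nat_lit 0), (nat_lit 0), (nat_lit 8755612)]) (PF.cons (PF.leaf (nat_lit 7234119) (nat_lit 415478) (nat_lit 39040848) (nat_lit 8951178) [(nat_lit 415478), (nat_lit 0), (nat_lit 0), (nat_lit 8727436)]) (PF.cons PF.nil (PF.cons PF.nil PF.nil))))))) (PF.cons (PF.cons (PF.leaf (nat_lit 6882532) (nat_lit 1451038) (nat_lit 39219520) (nat_lit 8962479) [(nat_lit 0), (nat_lit 1451038), (nat_lit 0), (nat_lit 8737886)]) (PF.cons (PF.leaf (nat_lit 7125207) (nat_lit 408804) (nat_lit 38884582) (nat_lit 8933809) [(nat_lit 408804), (nat_lit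 1460184), (nat_lit 0), (nat_lit 8710716)]) (PF.cons (PF.leaf (nat_lit 7376892) (nat_lit 416417) (nat_lit 38540506) (nat_lit 8903366) [(nat_lit 416417), (nat_lit 1468469), (nat_lit 0), (nat_lit 8681817)]) (PF.cons
 (PF.leaf (nat_lit 7635495) (nat_lit 423139) (nat_lit 38189545) (nat_lit 8871293) [(nat_lit 423139), (nat_lit 1475906), (nat_lit 0), (nat_lit 8651324)]) (PF.cons PF.nil PF.nil))))) (PF.cons (PF.cons (PF.leaf (nat_lit 7520254) (nat_lit 1471118) (nat_lit 38043367) (nat_lit 8853973) [(nat_lit 0), (nat_lit 1471118), (nat_lit 0), (nat_lit 8634617)]) (PF.cons (PF.leaf (nat_lit 7773217) (nat_lit 423542) (nat_lit 37701213) (nat_lit 8821382) [(nat_lit 423542), (nat_lit 1477761), (nat_lit 0), (nat_lit 8603576)]) (PF.cons PF.nil (PF.cons PF.nil PF.nil)))) (PF.cons (PF.cons (PF.leaf (nat_lit 8166048) (nat_lit 1484159) (nat_lit 36877642) (nat_lit 8735626) [(nat_lit 0), (nat_lit 1484159), (nat_lit 0), (nat_lit 8521532)]) (PF.cons PF.nil PF.nil)) (PF.cons PF.nil PF.nil)))))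 (PF.cons (PF.cons (PF.cons (PF.leaf (nat_lit 7343218) (nat_lit 3288236) (nat_lit 37805272) (nat_lit 8817380) [(nat_lit 0), (nat_lit 0), (nat_lit 3288236), (nat_lit 8598962)]) (PF.cons (PF.leaf (nat_lit 7584284) (nat_lit 412205) (nat_lit 37482311) (nat_lit 8786392) [(nat_lit 412205), (nat_lit 0), (nat_lit 3289005), (nat_lit 8569448)]) (PF.cons (PF.leaf (nat_lit 7833810) (nat_lit 419191) (nat_lit 37151138) (nat_lit 8753726)
 [(nat_lit 419191), (nat_lit 0), (nat_lit 3288964), (nat_lit 8538300)]) (PF.cons PF.nil PF.nil)))) (PF.cons (PF.cons (PF.leaf (nat_lit 7970467) (nat_lit 1469756) (nat_lit 36677249) (nat_lit 8702030) [(nat_lit 0), (nat_lit 1469756), (nat_lit 3282293), (nat_lit 8488741)]) (PF.cons (PF.leaf (nat_lit 8220681) (nat_lit 425156) (nat_lit 36348849) (nat_lit 8667580) [(nat_lit 425156), (nat_lit 1474980), (nat_lit 3280630), (nat_lit 8455808)]) PF.nil)) (PF.cons PF.nil PF.nil))) (PF.cons (PF.cons (PF.cons (PF.leaf (nat_lit 8404457) (nat_lit 3252375) (nat_lit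 35380273) (nat_lit 8546196) [(nat_lit 0), (nat_lit 0), (nat_lit 3252375), (nat_lit 8338795)]) (PF.cons PF.nil PF.nil)) (PF.cons PF.nil PF.nil)) PF.nil))) (PF.cons (PF.cons (PF.cons (PF.cons (PF.leaf (nat_lit 8033159) (nat_lit 8147267) (nat_lit 34317041) (nat_lit 8349967) [(nat_lit 0), (nat_lit 0), (nat_lit 0), (nat_lit 8147267)]) (PF.cons (PF.leaf (nat_lit 8262904) (nat_lit 401342) (nat_lit 34038988) (nat_lit 8318131) [(nat_lit 401342), (nat_lit 0), (nat_lit 0), (nat_lit 8116783)]) (PF.cons (PF.leaf (nat_lit 8500500) (nat_lit 407669) (nat_lit 33754018) (nat_lit 8284835) [(nat_lit 407669), (nat_lit 0), (nat_lit 0), (nat_lit 8084873)])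
 (PF.cons PF.nil PF.nil)))) (PF.cons (PF.cons (PF.leaf (nat_lit 8624503) (nat_lit 1420716) (nat_lit 33348665) (nat_lit 8233373) [(nat_lit 0), (nat_lit 1420716), (nat_lit 0), (nat_lit 8035352)]) (PF.cons PF.nil PF.nil)) (PF.cons PF.nil PF.nil))) (PF.cons (PF.cons (PF.cons (PF.leaf (nat_lit 9023433) (nat_lit 3117111) (nat_lit 32242312) (nat_lit 8081877) [(nat_lit 0), (nat_lit 0), (nat_lit 3117111), (nat_lit 7889170)]) (PF.cons PF.nil PF.nil)) PF.nil) PF.nil)) (PF.cons PF.nil (PF.cons PF.nil (PF.cons PF.nil (PF.cons PF.nil PF.nil))))))))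

def p13_12_1_0 : pfC (piC [(nat_lit 40173837), (nat_lit 25770221), (nat_lit 19310217), (nat_lit 12946273)] (nat_lit 10642110)) p13_12_1 (nat_lit 4) (nat_lit 0) (nat_lit 1) = true := by decide +kernel
def p13_12_1_1 : pfC (piC [(nat_lit 40173837), (nat_lit 25770221), (nat_lit 19310217), (nat_lit 12946273)] (nat_lit 10642110)) p13_12_1 (nat_lit 4) (nat_lit 1) (nat_lit 2) = true := by decide +kernel
def p13_12_1_2 : pfC (piC [(nat_lit 40173837), (nat_lit 25770221), (nat_lit 19310217), (nat_lit 12946273)] (nat_lit 10642110)) p13_12_1 (nat_lit 4) (nat_lit 2) (nat_lit 3) = true := by decide +kernel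
def p13_12_1_3 : pfC (piC [(nat_lit 40173837), (nat_lit 25770221), (nat_lit 19310217), (nat_lit 12946273)] (nat_lit 10642110)) p13_12_1 (nat_lit 4) (nat_lit 3) (nat_lit 4) = true := by decide +kernel
def p13_12_1_4 : pfC (piC [(nat_lit 40173837), (nat_lit 25770221), (nat_lit 19310217), (nat_lit 12946273)] (nat_lit 10642110)) p13_12_1 (nat_lit 4) (nat_lit 4) (nat_lit 5) = true := by decide +kernel
def p13_12_1_5 : pfC (piC [(nat_lit 40173837), (nat_lit 25770221), (nat_lit 19310217), (nat_lit 12946273)] (nat_lit 10642110)) p13_12_1 (nat_lit 4) (nat_lit 5) (nat_lit 6) = true := by decide +kernel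
def p13_12_1_6 : pfC (piC [(nat_lit 40173837), (nat_lit 25770221), (nat_lit 19310217), (nat_lit 12946273)] (nat_lit 10642110)) p13_12_1 (nat_lit 4) (nat_lit 6) (nat_lit 7) = true := by decide +kernel
def p13_12_1_7 : pfC (piC [(nat_lit 40173837), (nat_lit 25770221), (nat_lit 19310217), (nat_lit 12946273)] (nat_lit 10642110)) p13_12_1 (nat_lit 4) (nat_lit 7) (nat_lit 8) = true := by decide +kernel
def p13_12_1_8 : pfC (piC [(nat_lit 40173837), (nat_lit 25770221), (nat_lit 19310217), (nat_lit 12946273)] (nat_lit 10642110)) p13_12_1 (nat_lit 4) (nat_lit 8) (nat_lit 9) = true := by decide +kernel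
def p13_12_1_9 : pfC (piC [(nat_lit 40173837), (nat_lit 25770221), (nat_lit 19310217), (nat_lit 12946273)] (nat_lit 10642110)) p13_12_1 (nat_lit 4) (nat_lit 9) (nat_lit 10) = true := by decide +kernel
def p13_12_1_10 : pfC (piC [(nat_lit 40173837), (nat_lit 25770221), (nat_lit 19310217), (nat_lit 12946273)] (nat_lit 10642110)) p13_12_1 (nat_lit 4) (nat_lit 10) (nat_lit 11) = true := by decide +kernel
def p13_12_1_11 : pfC (piC [(nat_lit 40173837), (nat_lit 25770221), (nat_lit 19310217), (nat_lit 12946273)] (nat_lit 10642110)) p13_12_1 (nat_lit 4) (nat_lit 11) (nat_lit 12) = true := by decide +kernel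
def p13_12_1_12 : pfC (piC [(nat_lit 40173837), (nat_lit 25770221), (nat_lit 19310217), (nat_lit 12946273)] (nat_lit 10642110)) p13_12_1 (nat_lit 4) (nat_lit 12) (nat_lit 13) = true := by decide +kernel
def p13_12_1_13 : pfC (piC [(nat_lit 40173837), (nat_lit 25770221), (nat_lit 19310217), (nat_lit 12946273)] (nat_lit 10642110)) p13_12_1 (nat_lit 4) (nat_lit 13) (nat_lit 14) = true := by decide +kernel
def p13_12_1_14 : pfC (piC [(nat_lit 40173837), (nat_lit 25770221), (nat_lit 19310217), (nat_lit 12946273)] (nat_lit 10642110)) p13_12_1 (nat_lit 4) (nat_lit 14) (nat_lit 15) = true := by decide +kernel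
def p13_12_1_15 : pfC (piC [(nat_lit 40173837), (nat_lit 25770221), (nat_lit 19310217), (nat_lit 12946273)] (nat_lit 10642110)) p13_12_1 (nat_lit 4) (nat_lit 15) (nat_lit 16) = true := by decide +kernel
def p13_12_1_16 : pfC (piC [(nat_lit 40173837), (nat_lit 25770221), (nat_lit 19310217), (nat_lit 12946273)] (nat_lit 10642110)) p13_12_1 (nat_lit 4) (nat_lit 16) (nat_lit 17) = true := by decide +kernel
def p13_12_1_17 : pfC (piC [(nat_lit 40173837), (nat_lit 25770221), (nat_lit 19310217), (nat_lit 12946273)] (nat_lit 10642110)) p13_12_1 (nat_lit 4) (nat_lit 17) (nat_lit 18) = true := by decide +kernel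
def p13_12_1_18 : pfC (piC [(nat_lit 40173837), (nat_lit 25770221), (nat_lit 19310217), (nat_lit 12946273)] (nat_lit 10642110)) p13_12_1 (nat_lit 4) (nat_lit 18) (nat_lit 19) = true := by decide +kernel
def p13_12_1_19 : pfC (piC [(nat_lit 40173837), (nat_lit 25770221), (nat_lit 19310217), (nat_lit 12946273)] (nat_lit 10642110)) p13_12_1 (nat_lit 4) (nat_lit 19) (nat_lit 20) = true := by decide +kernel
def p13_12_1_20 : pfC (piC [(nat_lit 40173837), (nat_lit 25770221), (nat_lit 19310217), (nat_lit 12946273)] (nat_lit 10642110)) p13_12_1 (nat_lit 4) (nat_lit 20) (nat_lit 21) = true := by decide +kernel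
def p13_12_1_21 : pfC (piC [(nat_lit 40173837), (nat_lit 25770221), (nat_lit 19310217), (nat_lit 12946273)] (nat_lit 10642110)) p13_12_1 (nat_lit 4) (nat_lit 21) (nat_lit 22) = true := by decide +kernel
def p13_12_1_22 : pfC (piC [(nat_lit 40173837), (nat_lit 25770221), (nat_lit 19310217), (nat_lit 12946273)] (nat_lit 10642110)) p13_12_1 (nat_lit 4) (nat_lit 22) (nat_lit 23) = true := by decide +kernel
def p13_12_1_23 : pfC (piC [(nat_lit 40173837), (nat_lit 25770221), (nat_lit 19310217), (nat_lit 12946273)] (nat_lit 10642110)) p13_12_1 (nat_lit 4) (nat_lit 23) (nat_lit 24) = true := by decide +kernel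
def p13_12_1_24 : pfC (piC [(nat_lit 40173837), (nat_lit 25770221), (nat_lit 19310217), (nat_lit 12946273)] (nat_lit 10642110)) p13_12_1 (nat_lit 4) (nat_lit 24) (nat_lit 25) = true := by decide +kernel
def p13_12_1_25 : pfC (piC [(nat_lit 40173837), (nat_lit 25770221), (nat_lit 19310217), (nat_lit 12946273)] (nat_lit 10642110)) p13_12_1 (nat_lit 4) (nat_lit 25) (nat_lit 26) = true := by decide +kernel
def p13_12_1_26 : pfC (piC [(nat_lit 40173837), (nat_lit 25770221), (nat_lit 19310217), (nat_lit 12946273)] (nat_lit 10642110)) p13_12_1 (nat_lit 4) (nat_lit 26) (nat_lit 27) = true := by decide +kernel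
def p13_12_1_27 : pfC (piC [(nat_lit 40173837), (nat_lit 25770221), (nat_lit 19310217), (nat_lit 12946273)] (nat_lit 10642110)) p13_12_1 (nat_lit 4) (nat_lit 27) (nat_lit 28) = true := by decide +kernel
def p13_12_1_28 : pfC (piC [(nat_lit 40173837), (nat_lit 25770221), (nat_lit 19310217), (nat_lit 12946273)] (nat_lit 10642110)) p13_12_1 (nat_lit 4) (nat_lit 28) (nat_lit 29) = true := by decide +kernel
def p13_12_1_29 : pfC (piC [(nat_lit 40173837), (nat_lit 25770221), (nat_lit 19310217), (nat_lit 12946273)] (nat_lit 10642110)) p13_12_1 (nat_lit 4) (nat_lit 29) (nat_lit 30) = true := by decide +kernel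
def p13_12_1_30 : pfC (piC [(nat_lit 40173837), (nat_lit 25770221), (nat_lit 19310217), (nat_lit 12946273)] (nat_lit 10642110)) p13_12_1 (nat_lit 4) (nat_lit 30) (nat_lit 31) = true := by decide +kernel
def p13_12_1_31 : pfC (piC [(nat_lit 40173837), (nat_lit 25770221), (nat_lit 19310217), (nat_lit 12946273)] (nat_lit 10642110)) p13_12_1 (nat_lit 4) (nat_lit 31) (nat_lit 32) = true := by decide +kernel
def p13_12_1_32 : pfC (piC [(nat_lit 40173837), (nat_lit 25770221), (nat_lit 19310217), (nat_lit 12946273)] (nat_lit 10642110)) p13_12_1 (nat_lit 4) (nat_lit 32) (nat_lit 33) = true := by decide +kernel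
def p13_12_1_33 : pfC (piC [(nat_lit 40173837), (nat_lit 25770221), (nat_lit 19310217), (nat_lit 12946273)] (nat_lit 10642110)) p13_12_1 (nat_lit 4) (nat_lit 33) (nat_lit 34) = true := by decide +kernel
def p13_12_1_34 : pfC (piC [(nat_lit 40173837), (nat_lit 25770221), (nat_lit 19310217), (nat_lit 12946273)] (nat_lit 10642110)) p13_12_1 (nat_lit 4) (nat_lit 34) (nat_lit 35) = true := by decide +kernel
def p13_12_1_35 : pfC (piC [(nat_lit 40173837), (nat_lit 25770221), (nat_lit 19310217), (nat_lit 12946273)] (nat_lit 10642110)) p13_12_1 (nat_lit 4) (nat_lit 35) (nat_lit 36) = true := by decide +kernel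
def p13_12_1_36 : pfC (piC [(nat_lit 40173837), (nat_lit 25770221), (nat_lit 19310217), (nat_lit 12946273)] (nat_lit 10642110)) p13_12_1 (nat_lit 4) (nat_lit 36) (nat_lit 37) = true := by decide +kernel
def p13_12_1_37 : pfC (piC [(nat_lit 40173837), (nat_lit 25770221), (nat_lit 19310217), (nat_lit 12946273)] (nat_lit 10642110)) p13_12_1 (nat_lit 4) (nat_lit 37) (nat_lit 38) = true := by decide +kernel
def p13_12_1_38 : pfC (piC [(nat_lit 40173837), (nat_lit 25770221), (nat_lit 19310217), (nat_lit 12946273)] (nat_lit 10642110)) p13_12_1 (nat_lit 4) (nat_lit 38) (nat_lit 39) = true := by decide +kernel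
def p13_12_1_39 : pfC (piC [(nat_lit 40173837), (nat_lit 25770221), (nat_lit 19310217), (nat_lit 12946273)] (nat_lit 10642110)) p13_12_1 (nat_lit 4) (nat_lit 39) (nat_lit 40) = true := by decide +kernel
def p13_12_1_40 : pfC (piC [(nat_lit 40173837), (nat_lit 25770221), (nat_lit 19310217), (nat_lit 12946273)] (nat_lit 10642110)) p13_12_1 (nat_lit 4) (nat_lit 40) (nat_lit 41) = true := by decide +kernel
def p13_12_1_41 : pfC (piC [(nat_lit 40173837), (nat_lit 25770221), (nat_lit 19310217), (nat_lit 12946273)] (nat_lit 10642110)) p13_12_1 (nat_lit 4) (nat_lit 41) (nat_lit 42) = true := by decide +kernel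
def p13_12_1_42 : pfC (piC [(nat_lit 40173837), (nat_lit 25770221), (nat_lit 19310217), (nat_lit 12946273)] (nat_lit 10642110)) p13_12_1 (nat_lit 4) (nat_lit 42) (nat_lit 43) = true := by decide +kernel
def p13_12_1_43 : pfC (piC [(nat_lit 40173837), (nat_lit 25770221), (nat_lit 19310217), (nat_lit 12946273)] (nat_lit 10642110)) p13_12_1 (nat_lit 4) (nat_lit 43) (nat_lit 44) = true := by decide +kernel
def p13_12_1_44 : pfC (piC [(nat_lit 40173837), (nat_lit 25770221), (nat_lit 19310217), (nat_lit 12946273)] (nat_lit 10642110)) p13_12_1 (nat_lit 4) (nat_lit 44) (nat_lit 45) = true := by decide +kernel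
def p13_12_1_45 : pfC (piC [(nat_lit 40173837), (nat_lit 25770221), (nat_lit 19310217), (nat_lit 12946273)] (nat_lit 10642110)) p13_12_1 (nat_lit 4) (nat_lit 45) (nat_lit 46) = true := by decide +kernel
def p13_12_1_46 : pfC (piC [(nat_lit 40173837), (nat_lit 25770221), (nat_lit 19310217), (nat_lit 12946273)] (nat_lit 10642110)) p13_12_1 (nat_lit 4) (nat_lit 46) (nat_lit 47) = true := by decide +kernel
def p13_12_1_47 : pfC (piC [(nat_lit 40173837), (nat_lit 25770221), (nat_lit 19310217), (nat_lit 12946273)] (nat_lit 10642110)) p13_12_1 (nat_lit 4) (nat_lit 47) (nat_lit 48) = true := by decide +kernel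
def p13_12_1_48 : pfC (piC [(nat_lit 40173837), (nat_lit 25770221), (nat_lit 19310217), (nat_lit 12946273)] (nat_lit 10642110)) p13_12_1 (nat_lit 4) (nat_lit 48) (nat_lit 49) = true := by decide +kernel
def p13_12_1_49 : pfC (piC [(nat_lit 40173837), (nat_lit 25770221), (nat_lit 19310217), (nat_lit 12946273)] (nat_lit 10642110)) p13_12_1 (nat_lit 4) (nat_lit 49) (nat_lit 50) = true := by decide +kernel
def p13_12_1_50 : pfC (piC [(nat_lit 40173837), (nat_lit 25770221), (nat_lit 19310217), (nat_lit 12946273)] (nat_lit 10642110)) p13_12_1 (nat_lit 4) (nat_lit 50) (nat_lit 51) = true := by decide +kernel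
def p13_12_1_51 : pfC (piC [(nat_lit 40173837), (nat_lit 25770221), (nat_lit 19310217), (nat_lit 12946273)] (nat_lit 10642110)) p13_12_1 (nat_lit 4) (nat_lit 51) (nat_lit 52) = true := by decide +kernel
def p13_12_1_52 : pfC (piC [(nat_lit 40173837), (nat_lit 25770221), (nat_lit 19310217), (nat_lit 12946273)] (nat_lit 10642110)) p13_12_1 (nat_lit 4) (nat_lit 52) (nat_lit 53) = true := by decide +kernel
def p13_12_1_53 : pfC (piC [(nat_lit 40173837), (nat_lit 25770221), (nat_lit 19310217), (nat_lit 12946273)] (nat_lit 10642110)) p13_12_1 (nat_lit 4) (nat_lit 53) (nat_lit 54) = true := by decide +kernel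
def p13_12_1_54 : pfC (piC [(nat_lit 40173837), (nat_lit 25770221), (nat_lit 19310217), (nat_lit 12946273)] (nat_lit 10642110)) p13_12_1 (nat_lit 4) (nat_lit 54) (nat_lit 55) = true := by decide +kernel
def p13_12_1_55 : pfC (piC [(nat_lit 40173837), (nat_lit 25770221), (nat_lit 19310217), (nat_lit 12946273)] (nat_lit 10642110)) p13_12_1 (nat_lit 4) (nat_lit 55) (nat_lit 56) = true := by decide +kernel
def p13_12_1_56 : pfC (piC [(nat_lit 40173837), (nat_lit 25770221), (nat_lit 19310217), (nat_lit 12946273)] (nat_lit 10642110)) p13_12_1 (nat_lit 4) (nat_lit 56) (nat_lit 57) = true := by decide +kernel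
def p13_12_1_57 : pfC (piC [(nat_lit 40173837), (nat_lit 25770221), (nat_lit 19310217), (nat_lit 12946273)] (nat_lit 10642110)) p13_12_1 (nat_lit 4) (nat_lit 57) (nat_lit 58) = true := by decide +kernel
def p13_12_1_58 : pfC (piC [(nat_lit 40173837), (nat_lit 25770221), (nat_lit 19310217), (nat_lit 12946273)] (nat_lit 10642110)) p13_12_1 (nat_lit 4) (nat_lit 58) (nat_lit 59) = true := by decide +kernel
def p13_12_1_59 : pfC (piC [(nat_lit 40173837), (nat_lit 25770221), (nat_lit 19310217), (nat_lit 12946273)] (nat_lit 10642110)) p13_12_1 (nat_lit 4) (nat_lit 59) (nat_lit 60) = true := by decide +kernel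
def p13_12_1_60 : pfC (piC [(nat_lit 40173837), (nat_lit 25770221), (nat_lit 19310217), (nat_lit 12946273)] (nat_lit 10642110)) p13_12_1 (nat_lit 4) (nat_lit 60) (nat_lit 61) = true := by decide +kernel
def p13_12_1_61 : pfC (piC [(nat_lit 40173837), (nat_lit 25770221), (nat_lit 19310217), (nat_lit 12946273)] (nat_lit 10642110)) p13_12_1 (nat_lit 4) (nat_lit 61) (nat_lit 62) = true := by decide +kernel
def p13_12_1_62 : pfC (piC [(nat_lit 40173837), (nat_lit 25770221), (nat_lit 19310217), (nat_lit 12946273)] (nat_lit 10642110)) p13_12_1 (nat_lit 4) (nat_lit 62) (nat_lit 63) = true := by decide +kernel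
def p13_12_1_63 : pfC (piC [(nat_lit 40173837), (nat_lit 25770221), (nat_lit 19310217), (nat_lit 12946273)] (nat_lit 10642110)) p13_12_1 (nat_lit 4) (nat_lit 63) (nat_lit 64) = true := by decide +kernel
def p13_12_1_64 : pfC (piC [(nat_lit 40173837), (nat_lit 25770221), (nat_lit 19310217), (nat_lit 12946273)] (nat_lit 10642110)) p13_12_1 (nat_lit 4) (nat_lit 64) (nat_lit 65) = true := by decide +kernel
def p13_12_1_65 : pfC (piC [(nat_lit 40173837), (nat_lit 25770221), (nat_lit 19310217), (nat_lit 12946273)] (nat_lit 10642110)) p13_12_1 (nat_lit 4) (nat_lit 65) (nat_lit 66) = true := by decide +kernel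
def p13_12_1_66 : pfC (piC [(nat_lit 40173837), (nat_lit 25770221), (nat_lit 19310217), (nat_lit 12946273)] (nat_lit 10642110)) p13_12_1 (nat_lit 4) (nat_lit 66) (nat_lit 67) = true := by decide +kernel
def p13_12_1_67 : pfC (piC [(nat_lit 40173837), (nat_lit 25770221), (nat_lit 19310217), (nat_lit 12946273)] (nat_lit 10642110)) p13_12_1 (nat_lit 4) (nat_lit 67) (nat_lit 68) = true := by decide +kernel
def p13_12_1_68 : pfC (piC [(nat_lit 40173837), (nat_lit 25770221), (nat_lit 19310217), (nat_lit 12946273)] (nat_lit 10642110)) p13_12_1 (nat_lit 4) (nat_lit 68) (nat_lit 69) = true := by decide +kernel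
def p13_12_1_69 : pfC (piC [(nat_lit 40173837), (nat_lit 25770221), (nat_lit 19310217), (nat_lit 12946273)] (nat_lit 10642110)) p13_12_1 (nat_lit 4) (nat_lit 69) (nat_lit 70) = true := by decide +kernel
def p13_12_1_70 : pfC (piC [(nat_lit 40173837), (nat_lit 25770221), (nat_lit 19310217), (nat_lit 12946273)] (nat_lit 10642110)) p13_12_1 (nat_lit 4) (nat_lit 70) (nat_lit 71) = true := by decide +kernel
def p13_12_1_71 : pfC (piC [(nat_lit 40173837), (nat_lit 25770221), (nat_lit 19310217), (nat_lit 12946273)] (nat_lit 10642110)) p13_12_1 (nat_lit 4) (nat_lit 71) (nat_lit 72) = true := by decide +kernel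
def p13_12_1_72 : pfC (piC [(nat_lit 40173837), (nat_lit 25770221), (nat_lit 19310217), (nat_lit 12946273)] (nat_lit 10642110)) p13_12_1 (nat_lit 4) (nat_lit 72) (nat_lit 73) = true := by decide +kernel
def p13_12_1_73 : pfC (piC [(nat_lit 40173837), (nat_lit 25770221), (nat_lit 19310217), (nat_lit 12946273)] (nat_lit 10642110)) p13_12_1 (nat_lit 4) (nat_lit 73) (nat_lit 74) = true := by decide +kernel
def p13_12_1_74 : pfC (piC [(nat_lit 40173837), (nat_lit 25770221), (nat_lit 19310217), (nat_lit 12946273)] (nat_lit 10642110)) p13_12_1 (nat_lit 4) (nat_lit 74) (nat_lit 75) = true := by decide +kernel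
def p13_12_1_75 : pfC (piC [(nat_lit 40173837), (nat_lit 25770221), (nat_lit 19310217), (nat_lit 12946273)] (nat_lit 10642110)) p13_12_1 (nat_lit 4) (nat_lit 75) (nat_lit 76) = true := by decide +kernel
def p13_12_1_76 : pfC (piC [(nat_lit 40173837), (nat_lit 25770221), (nat_lit 19310217), (nat_lit 12946273)] (nat_lit 10642110)) p13_12_1 (nat_lit 4) (nat_lit 76) (nat_lit 77) = true := by decide +kernel
def p13_12_1_77 : pfC (piC [(nat_lit 40173837), (nat_lit 25770221), (nat_lit 19310217), (nat_lit 12946273)] (nat_lit 10642110)) p13_12_1 (nat_lit 4) (nat_lit 77) (nat_lit 78) = true := by decide +kernel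
def p13_12_1_78 : pfC (piC [(nat_lit 40173837), (nat_lit 25770221), (nat_lit 19310217), (nat_lit 12946273)] (nat_lit 10642110)) p13_12_1 (nat_lit 4) (nat_lit 78) (nat_lit 79) = true := by decide +kernel
def p13_12_1_79 : pfC (piC [(nat_lit 40173837), (nat_lit 25770221), (nat_lit 19310217), (nat_lit 12946273)] (nat_lit 10642110)) p13_12_1 (nat_lit 4) (nat_lit 79) (nat_lit 80) = true := by decide +kernel
def p13_12_1_80 : pfC (piC [(nat_lit 40173837), (nat_lit 25770221), (nat_lit 19310217), (nat_lit 12946273)] (nat_lit 10642110)) p13_12_1 (nat_lit 4) (nat_lit 80) (nat_lit 81) = true := by decide +kernel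
def p13_12_1_81 : pfC (piC [(nat_lit 40173837), (nat_lit 25770221), (nat_lit 19310217), (nat_lit 12946273)] (nat_lit 10642110)) p13_12_1 (nat_lit 4) (nat_lit 81) (nat_lit 82) = true := by decide +kernel
def p13_12_1_82 : pfC (piC [(nat_lit 40173837), (nat_lit 25770221), (nat_lit 19310217), (nat_lit 12946273)] (nat_lit 10642110)) p13_12_1 (nat_lit 4) (nat_lit 82) (nat_lit 83) = true := by decide +kernel
def p13_12_1_83 : pfC (piC [(nat_lit 40173837), (nat_lit 25770221), (nat_lit 19310217), (nat_lit 12946273)] (nat_lit 10642110)) p13_12_1 (nat_lit 4) (nat_lit 83) (nat_lit 84) = true := by decide +kernel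
def p13_12_1_84 : pfC (piC [(nat_lit 40173837), (nat_lit 25770221), (nat_lit 19310217), (nat_lit 12946273)] (nat_lit 10642110)) p13_12_1 (nat_lit 4) (nat_lit 84) (nat_lit 85) = true := by decide +kernel
def p13_12_1_85 : pfC (piC [(nat_lit 40173837), (nat_lit 25770221), (nat_lit 19310217), (nat_lit 12946273)] (nat_lit 10642110)) p13_12_1 (nat_lit 4) (nat_lit 85) (nat_lit 86) = true := by decide +kernel
def p13_12_1_86 : pfC (piC [(nat_lit 40173837), (nat_lit 25770221), (nat_lit 19310217), (nat_lit 12946273)] (nat_lit 10642110)) p13_12_1 (nat_lit 4) (nat_lit 86) (nat_lit 87) = true := by decide +kernel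
def p13_12_1_87 : pfC (piC [(nat_lit 40173837), (nat_lit 25770221), (nat_lit 19310217), (nat_lit 12946273)] (nat_lit 10642110)) p13_12_1 (nat_lit 4) (nat_lit 87) (nat_lit 88) = true := by decide +kernel
def p13_12_1_88 : pfC (piC [(nat_lit 40173837), (nat_lit 25770221), (nat_lit 19310217), (nat_lit 12946273)] (nat_lit 10642110)) p13_12_1 (nat_lit 4) (nat_lit 88) (nat_lit 89) = true := by decide +kernel
def p13_12_1_89 : pfC (piC [(nat_lit 40173837), (nat_lit 25770221), (nat_lit 19310217), (nat_lit 12946273)] (nat_lit 10642110)) p13_12_1 (nat_lit 4) (nat_lit 89) (nat_lit 90) = true := by decide +kernel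
def p13_12_1_90 : pfC (piC [(nat_lit 40173837), (nat_lit 25770221), (nat_lit 19310217), (nat_lit 12946273)] (nat_lit 10642110)) p13_12_1 (nat_lit 4) (nat_lit 90) (nat_lit 91) = true := by decide +kernel
def p13_12_1_91 : pfC (piC [(nat_lit 40173837), (nat_lit 25770221), (nat_lit 19310217), (nat_lit 12946273)] (nat_lit 10642110)) p13_12_1 (nat_lit 4) (nat_lit 91) (nat_lit 92) = true := by decide +kernel
def p13_12_1_92 : pfC (piC [(nat_lit 40173837), (nat_lit 25770221), (nat_lit 19310217), (nat_lit 12946273)] (nat_lit 10642110)) p13_12_1 (nat_lit 4) (nat_lit 92) (nat_lit 93) = true := by decide +kernel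
def p13_12_1_93 : pfC (piC [(nat_lit 40173837), (nat_lit 25770221), (nat_lit 19310217), (nat_lit 12946273)] (nat_lit 10642110)) p13_12_1 (nat_lit 4) (nat_lit 93) (nat_lit 94) = true := by decide +kernel
def p13_12_1_94 : pfC (piC [(nat_lit 40173837), (nat_lit 25770221), (nat_lit 19310217), (nat_lit 12946273)] (nat_lit 10642110)) p13_12_1 (nat_lit 4) (nat_lit 94) (nat_lit 95) = true := by decide +kernel
def p13_12_1_95 : pfC (piC [(nat_lit 40173837), (nat_lit 25770221), (nat_lit 19310217), (nat_lit 12946273)] (nat_lit 10642110)) p13_12_1 (nat_lit 4) (nat_lit 95) (nat_lit 96) = true := by decide +kernel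
def p13_12_1_96 : pfC (piC [(nat_lit 40173837), (nat_lit 25770221), (nat_lit 19310217), (nat_lit 12946273)] (nat_lit 10642110)) p13_12_1 (nat_lit 4) (nat_lit 96) (nat_lit 97) = true := by decide +kernel
def p13_12_1_97 : pfC (piC [(nat_lit 40173837), (nat_lit 25770221), (nat_lit 19310217), (nat_lit 12946273)] (nat_lit 10642110)) p13_12_1 (nat_lit 4) (nat_lit 97) (nat_lit 98) = true := by decide +kernel
def p13_12_1_98 : pfC (piC [(nat_lit 40173837), (nat_lit 25770221), (nat_lit 19310217), (nat_lit 12946273)] (nat_lit 10642110)) p13_12_1 (nat_lit 4) (nat_lit 98) (nat_lit 99) = true := by decide +kernel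
def p13_12_1_99 : pfC (piC [(nat_lit 40173837), (nat_lit 25770221), (nat_lit 19310217), (nat_lit 12946273)] (nat_lit 10642110)) p13_12_1 (nat_lit 4) (nat_lit 99) (nat_lit 100) = true := by decide +kernel
def p13_12_1_100 : pfC (piC [(nat_lit 40173837), (nat_lit 25770221), (nat_lit 19310217), (nat_lit 12946273)] (nat_lit 10642110)) p13_12_1 (nat_lit 4) (nat_lit 100) (nat_lit 101) = true := by decide +kernel
def p13_12_1_101 : pfC (piC [(nat_lit 40173837), (nat_lit 25770221), (nat_lit 19310217), (nat_lit 12946273)] (nat_lit 10642110)) p13_12_1 (nat_lit 4) (nat_lit 101) (nat_lit 102) = true := by decide +kernel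
def p13_12_1_102 : pfC (piC [(nat_lit 40173837), (nat_lit 25770221), (nat_lit 19310217), (nat_lit 12946273)] (nat_lit 10642110)) p13_12_1 (nat_lit 4) (nat_lit 102) (nat_lit 103) = true := by decide +kernel
def p13_12_1_103 : pfC (piC [(nat_lit 40173837), (nat_lit 25770221), (nat_lit 19310217), (nat_lit 12946273)] (nat_lit 10642110)) p13_12_1 (nat_lit 4) (nat_lit 103) (nat_lit 104) = true := by decide +kernel
def p13_12_1_104 : pfC (piC [(nat_lit 40173837), (nat_lit 25770221), (nat_lit 19310217), (nat_lit 12946273)] (nat_lit 10642110)) p13_12_1 (nat_lit 4) (nat_lit 104) (nat_lit 105) = true := by decide +kernel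
def p13_12_1_105 : pfC (piC [(nat_lit 40173837), (nat_lit 25770221), (nat_lit 19310217), (nat_lit 12946273)] (nat_lit 10642110)) p13_12_1 (nat_lit 4) (nat_lit 105) (nat_lit 106) = true := by decide +kernel
def p13_12_1_106 : pfC (piC [(nat_lit 40173837), (nat_lit 25770221), (nat_lit 19310217), (nat_lit 12946273)] (nat_lit 10642110)) p13_12_1 (nat_lit 4) (nat_lit 106) (nat_lit 107) = true := by decide +kernel
def p13_12_1_107 : pfC (piC [(nat_lit 40173837), (nat_lit 25770221), (nat_lit 19310217), (nat_lit 12946273)] (nat_lit 10642110)) p13_12_1 (nat_lit 4) (nat_lit 107) (nat_lit 108) = true := by decide +kernel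
def p13_12_1_108 : pfC (piC [(nat_lit 40173837), (nat_lit 25770221), (nat_lit 19310217), (nat_lit 12946273)] (nat_lit 10642110)) p13_12_1 (nat_lit 4) (nat_lit 108) (nat_lit 109) = true := by decide +kernel
def p13_12_1_109 : pfC (piC [(nat_lit 40173837), (nat_lit 25770221), (nat_lit 19310217), (nat_lit 12946273)] (nat_lit 10642110)) p13_12_1 (nat_lit 4) (nat_lit 109) (nat_lit 110) = true := by decide +kernel
def p13_12_1_110 : pfC (piC [(nat_lit 40173837), (nat_lit 25770221), (nat_lit 19310217), (nat_lit 12946273)] (nat_lit 10642110)) p13_12_1 (nat_lit 4) (nat_lit 110) (nat_lit 111) = true := by decide +kernel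
def p13_12_1_111 : pfC (piC [(nat_lit 40173837), (nat_lit 25770221), (nat_lit 19310217), (nat_lit 12946273)] (nat_lit 10642110)) p13_12_1 (nat_lit 4) (nat_lit 111) (nat_lit 112) = true := by decide +kernel
def p13_12_1_112 : pfC (piC [(nat_lit 40173837), (nat_lit 25770221), (nat_lit 19310217), (nat_lit 12946273)] (nat_lit 10642110)) p13_12_1 (nat_lit 4) (nat_lit 112) (nat_lit 113) = true := by decide +kernel
def p13_12_1_113 : pfC (piC [(nat_lit 40173837), (nat_lit 25770221), (nat_lit 19310217), (nat_lit 12946273)] (nat_lit 10642110)) p13_12_1 (nat_lit 4) (nat_lit 113) (nat_lit 114) = true := by decide +kernel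
def p13_12_1_114 : pfC (piC [(nat_lit 40173837), (nat_lit 25770221), (nat_lit 19310217), (nat_lit 12946273)] (nat_lit 10642110)) p13_12_1 (nat_lit 4) (nat_lit 114) (nat_lit 115) = true := by decide +kernel
def p13_12_1_115 : pfC (piC [(nat_lit 40173837), (nat_lit 25770221), (nat_lit 19310217), (nat_lit 12946273)] (nat_lit 10642110)) p13_12_1 (nat_lit 4) (nat_lit 115) (nat_lit 116) = true := by decide +kernel
def p13_12_1_116 : pfC (piC [(nat_lit 40173837), (nat_lit 25770221), (nat_lit 19310217), (nat_lit 12946273)] (nat_lit 10642110)) p13_12_1 (nat_lit 4) (nat_lit 116) (nat_lit 117) = true := by decide +kernel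
def p13_12_1_117 : pfC (piC [(nat_lit 40173837), (nat_lit 25770221), (nat_lit 19310217), (nat_lit 12946273)] (nat_lit 10642110)) p13_12_1 (nat_lit 4) (nat_lit 117) (nat_lit 118) = true := by decide +kernel
theorem p13_12_1_T : PfS (PiF n13_12.reverse (nat_lit 10642110)) p13_12_1 (nat_lit 4) [] 0 :=
  pftab_of (los := [(nat_lit 40173837), (nat_lit 25770221), (nat_lit 19310217), (nat_lit 12946273)]) (by decide +kernel) (hi := (nat_lit 118)) (PfP.trans (PfP.trans (PfP.trans (PfP.trans (PfP.trans (PfP.trans (PfP.trans (PfP.trans (PfP.trans (PfP.trans (PfP.trans (PfP.trans (PfP.trans (PfP.trans (PfP.trans (PfP.trans (PfP.trans (PfP.trans (PfP.trans (PfP.trans (PfP.trans (PfP.trans (PfP.trans (PfP.trans (PfP.trans (PfP.trans (PfP.trans (PfP.trans (PfP.trans (PfP.trans (PfP.trans (PfP.trans (PfP.trans (PfP.trans (PfP.trans (PfP.trans (PfP.trans (PfP.trans (PfP.trans (PfP.trans (PfP.trans (PfP.trans (PfP.trans (PfP.trans (PfP.trans (PfP.trans (PfP.trans (PfP.trans (PfP.trans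 (PfP.trans (PfP.trans (PfP.trans (PfP.trans (PfP.trans (PfP.trans (PfP.trans (PfP.trans (PfP.trans (PfP.trans (PfP.trans (PfP.trans (PfP.trans (PfP.trans (PfP.trans (PfP.trans (PfP.trans (PfP.trans (PfP.trans (PfP.trans (PfP.trans (PfP.trans (PfP.trans (PfP.trans (PfP.trans (PfP.trans (PfP.trans (PfP.trans (PfP.trans (PfP.trans (PfP.trans (PfP.trans (PfP.trans (PfP.trans (PfP.trans (PfP.trans (PfP.trans (PfP.trans (PfP.trans (PfP.trans (PfP.trans (PfP.trans (PfP.trans (PfP.trans (PfP.trans (PfP.trans (PfP.trans (PfP.trans (PfP.trans (PfP.trans (PfP.trans (PfP.trans (PfP.trans (PfP.trans (PfP.trans (PfP.trans (PfP.trans (PfP.trans (PfP.trans (PfP.trans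
 (PfP.trans (PfP.trans (PfP.trans (PfP.trans (PfP.trans (PfP.trans (PfP.trans (PfP.trans (pfC_sound p13_12_1_0) (pfC_sound p13_12_1_1)) (pfC_sound p13_12_1_2)) (pfC_sound p13_12_1_3)) (pfC_sound p13_12_1_4)) (pfC_sound p13_12_1_5)) (pfC_sound p13_12_1_6)) (pfC_sound p13_12_1_7)) (pfC_sound p13_12_1_8)) (pfC_sound p13_12_1_9)) (pfC_sound p13_12_1_10)) (pfC_sound p13_12_1_11)) (pfC_sound p13_12_1_12)) (pfC_sound p13_12_1_13)) (pfC_sound p13_12_1_14)) (pfC_sound p13_12_1_15)) (pfC_sound p13_12_1_16)) (pfC_sound p13_12_1_17)) (pfC_sound p13_12_1_18)) (pfC_sound p13_12_1_19)) (pfC_sound p13_12_1_20)) (pfC_sound p13_12_1_21)) (pfC_sound p13_12_1_22)) (pfC_sound p13_12_1_23)) (pfC_sound p13_12_1_24)) (pfC_sound p13_12_1_25)) (pfC_sound p13_12_1_26)) (pfC_sound p13_12_1_27)) (pfC_sound p13_12_1_28)) (pfC_sound p13_12_1_29)) (pfC_sound p13_12_1_30)) (pfC_sound p13_12_1_31)) (pfC_sound p13_12_1_32)) (pfC_sound p13_12_1_33)) (pfC_sound p13_12_1_34)) (pfC_sound p13_12_1_35))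 (pfC_sound p13_12_1_36)) (pfC_sound p13_12_1_37)) (pfC_sound p13_12_1_38)) (pfC_sound p13_12_1_39)) (pfC_sound p13_12_1_40)) (pfC_sound p13_12_1_41)) (pfC_sound p13_12_1_42)) (pfC_sound p13_12_1_43)) (pfC_sound
 p13_12_1_44)) (pfC_sound p13_12_1_45)) (pfC_sound p13_12_1_46)) (pfC_sound p13_12_1_47)) (pfC_sound p13_12_1_48)) (pfC_sound p13_12_1_49)) (pfC_sound p13_12_1_50)) (pfC_sound p13_12_1_51)) (pfC_sound p13_12_1_52)) (pfC_sound p13_12_1_53)) (pfC_sound p13_12_1_54)) (pfC_sound p13_12_1_55)) (pfC_sound p13_12_1_56)) (pfC_sound p13_12_1_57)) (pfC_sound p13_12_1_58)) (pfC_sound p13_12_1_59)) (pfC_sound p13_12_1_60)) (pfC_sound p13_12_1_61)) (pfC_sound p13_12_1_62)) (pfC_sound p13_12_1_63)) (pfC_sound p13_12_1_64)) (pfC_sound p13_12_1_65)) (pfC_sound p13_12_1_66)) (pfC_sound p13_12_1_67)) (pfC_sound p13_12_1_68)) (pfC_sound p13_12_1_69)) (pfC_sound p13_12_1_70)) (pfC_sound p13_12_1_71)) (pfC_sound p13_12_1_72)) (pfC_sound p13_12_1_73)) (pfC_sound p13_12_1_74)) (pfC_sound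 p13_12_1_75)) (pfC_sound p13_12_1_76)) (pfC_sound p13_12_1_77)) (pfC_sound p13_12_1_78)) (pfC_sound p13_12_1_79)) (pfC_sound p13_12_1_80)) (pfC_sound p13_12_1_81)) (pfC_sound p13_12_1_82)) (pfC_sound p13_12_1_83)) (pfC_sound p13_12_1_84)) (pfC_sound p13_12_1_85)) (pfC_sound p13_12_1_86)) (pfC_sound p13_12_1_87)) (pfC_sound p13_12_1_88)) (pfC_sound p13_12_1_89)) (pfC_sound p13_12_1_90)) (pfC_sound p13_12_1_91)) (pfC_sound
 p13_12_1_92)) (pfC_sound p13_12_1_93)) (pfC_sound p13_12_1_94)) (pfC_sound p13_12_1_95)) (pfC_sound p13_12_1_96)) (pfC_sound p13_12_1_97)) (pfC_sound p13_12_1_98)) (pfC_sound p13_12_1_99)) (pfC_sound p13_12_1_100)) (pfC_sound p13_12_1_101)) (pfC_sound p13_12_1_102)) (pfC_sound p13_12_1_103)) (pfC_sound p13_12_1_104)) (pfC_sound p13_12_1_105)) (pfC_sound p13_12_1_106)) (pfC_sound p13_12_1_107)) (pfC_sound p13_12_1_108)) (pfC_sound p13_12_1_109)) (pfC_sound p13_12_1_110)) (pfC_sound p13_12_1_111)) (pfC_sound p13_12_1_112)) (pfC_sound p13_12_1_113))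 (pfC_sound p13_12_1_114)) (pfC_sound p13_12_1_115)) (pfC_sound p13_12_1_116)) (pfC_sound p13_12_1_117)) (by decide +kernel)

def z13_12_1 : zOK yB13_12 (nat_lit 1) (nat_lit 400) (nat_lit 600) (nat_lit 10642110) (nat_lit 7113113) = true := by decide +kernel
def g13_12_1 : gOK yB13_12.x P13_12 (nat_lit 1421) (q13_12 :: r13_12) (nat_lit 1) (nat_lit 400) (nat_lit 2) (nat_lit 600) (nat_lit 11000000) (nat_lit 17850000) (nat_lit 12712500) (nat_lit 12712500) [(nat_lit 800), (nat_lit 1040)] = true := by decide +kernel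
def v13_12_1 : ivC P13_12 s13_12 w13_12 n13_12 (nat_lit 4) (nat_lit 5020) (nat_lit 1) (nat_lit 400) f152_1_400 f160_1_400 (nat_lit 2) (nat_lit 600) f152_1_600 f160_1_600 (nat_lit 10642110) (nat_lit 7113113) p13_12_1 = true := by decide +kernel
def p13_12_2 : PF := (PF.cons (PF.cons (PF.cons (PF.cons (PF.leaf (nat_lit 2668933) (nat_lit 15133335) (nat_lit 51975477) (nat_lit 15133335) [(nat_lit 0), (nat_lit 0), (nat_lit 0), (nat_lit 0)]) (PF.cons (PF.leaf (nat_lit 2816976) (nat_lit 254834) (nat_lit 51732141) (nat_lit 15121836) [(nat_lit 254834), (nat_lit 0), (nat_lit 0), (nat_lit 0)]) (PF.cons (PF.leaf (nat_lit 2992594) (nat_lit 277002) (nat_lit 51447554) (nat_lit 15107252) [(nat_lit 277002), (nat_lit 0), (nat_lit 0), (nat_lit 0)]) (PF.cons (PF.leaf (nat_lit 3189796) (nat_lit 296641) (nat_lit 51129348) (nat_lit 15089539) [(nat_lit 296641), (nat_lit 0), (nat_lit 0), (nat_lit 0)]) (PF.cons (PF.leaf (nat_lit 3405357) (nat_lit 314318) (nat_lit 50782927) (nat_lit 15068610)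 [(nat_lit 314318), (nat_lit 0), (nat_lit 0), (nat_lit 0)]) (PF.cons (PF.leaf (nat_lit 3636970) (nat_lit 330395) (nat_lit 50412457) (nat_lit 15044375) [(nat_lit 330395), (nat_lit 0), (nat_lit 0), (nat_lit 0)]) (PF.cons (PF.leaf (nat_lit 3882718) (nat_lit 345122) (nat_lit 50021320) (nat_lit 15016759) [(nat_lit 345122), (nat_lit 0), (nat_lit 0), (nat_lit 0)]) (PF.cons (PF.leaf (nat_lit 4140973) (nat_lit 358677) (nat_lit 49612363) (nat_lit 14985707) [(nat_lit 358677), (nat_lit 0),
 (nat_lit 0), (nat_lit 0)]) (PF.cons (PF.leaf (nat_lit 4410405) (nat_lit 371198) (nat_lit 49188041) (nat_lit 14951187) [(nat_lit 371198), (nat_lit 0), (nat_lit 0), (nat_lit 0)]) (PF.cons PF.nil PF.nil)))))))))) (PF.cons (PF.cons (PF.leaf (nat_lit 3193213) (nat_lit 1218832) (nat_lit 50822985) (nat_lit 15066995) [(nat_lit 0), (nat_lit 1218832), (nat_lit 0), (nat_lit 0)]) (PF.cons (PF.leaf (nat_lit 3385171) (nat_lit 307419) (nat_lit 50506795) (nat_lit 15046545) [(nat_lit 307419), (nat_lit 1248053),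 (nat_lit 0), (nat_lit 0)]) (PF.cons (PF.leaf (nat_lit 3597813) (nat_lit 324372) (nat_lit 50160814) (nat_lit 15022609) [(nat_lit 324372), (nat_lit 1276643), (nat_lit 0), (nat_lit 0)]) (PF.cons (PF.leaf (nat_lit 3827106) (nat_lit 339726) (nat_lit 49790272) (nat_lit 14995205) [(nat_lit 339726), (nat_lit 1304156), (nat_lit 0), (nat_lit 0)]) (PF.cons (PF.leaf (nat_lit 4070803) (nat_lit 353754) (nat_lit 49399096) (nat_lit 14964330) [(nat_lit 353754), (nat_lit 1330368), (nat_lit 0), (nat_lit 0)]) (PF.cons (PF.leaf (nat_lit 4327089) (nat_lit 366646) (nat_lit 48990421) (nat_lit 14929984) [(nat_lit 366646), (nat_lit 1355173), (nat_lit 0), (nat_lit 0)]) (PF.cons (PF.leaf (nat_lit 4594524) (nat_lit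
 378541) (nat_lit 48566855) (nat_lit 14892177) [(nat_lit 378541), (nat_lit 1378532), (nat_lit 0), (nat_lit 0)]) (PF.cons PF.nil (PF.cons PF.nil PF.nil))))))))) (PF.cons (PF.cons (PF.leaf (nat_lit 3793806) (nat_lit 1307040) (nat_lit 49524482) (nat_lit 14970249) [(nat_lit 0), (nat_lit 1307040), (nat_lit 0), (nat_lit 0)]) (PF.cons (PF.leaf (nat_lit 4018352) (nat_lit 347728) (nat_lit 49157894) (nat_lit 14940089) [(nat_lit 347728), (nat_lit 1331550), (nat_lit 0), (nat_lit 0)]) (PF.cons (PF.leaf (nat_lit 4258850) (nat_lit 361253) (nat_lit 48769755) (nat_lit 14906315) [(nat_lit 361253), (nat_lit 1355118), (nat_lit 0), (nat_lit 0)]) (PF.cons (PF.leaf (nat_lit 4512323) (nat_lit 373628) (nat_lit 48363812) (nat_lit 14869004) [(nat_lit 373628), (nat_lit 1377555), (nat_lit 0), (nat_lit 0)]) (PF.cons (PF.leaf (nat_lit 4777080) (nat_lit 385009) (nat_lit 47943013) (nat_lit 14828223) [(nat_lit 385009), (nat_lit 1398768), (nat_lit 0), (nat_lit 0)]) (PF.cons (PF.leaf (nat_lit 5051763)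 (nat_lit 395512) (nat_lit 47509779) (nat_lit 14784039) [(nat_lit 395512), (nat_lit 1418716), (nat_lit 0), (nat_lit 0)]) (PF.cons PF.nil PF.nil))))))) (PF.cons (PF.cons (PF.leaf (nat_lit 4448468) (nat_lit 1377475)
 (nat_lit 48133612) (nat_lit 14842775) [(nat_lit 0), (nat_lit 1377475), (nat_lit 0), (nat_lit 0)]) (PF.cons (PF.leaf (nat_lit 4697398) (nat_lit 379671) (nat_lit 47733051) (nat_lit 14802896) [(nat_lit 379671), (nat_lit 1397731), (nat_lit 0), (nat_lit 0)]) (PF.cons (PF.leaf (nat_lit 4958719) (nat_lit 390651) (nat_lit 47317105) (nat_lit 14759494) [(nat_lit 390651), (nat_lit 1416969), (nat_lit 0), (nat_lit 0)]) (PF.cons (PF.leaf (nat_lit 5230168) (nat_lit 400743) (nat_lit 46888556) (nat_lit 14712693) [(nat_lit 400743), (nat_lit 1435110), (nat_lit 0), (nat_lit 0)]) (PF.cons PF.nil PF.nil))))) (PF.cons (PF.cons (PF.leaf (nat_lit 5140628) (nat_lit 1433333) (nat_lit 46689353) (nat_lit 14686123) [(nat_lit 0), (nat_lit 1433333), (nat_lit 0), (nat_lit 0)]) (PF.cons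 (PF.leaf (nat_lit 5407572) (nat_lit 405264) (nat_lit 46267298) (nat_lit 14637071) [(nat_lit 405264), (nat_lit 1449794), (nat_lit 0), (nat_lit 0)]) (PF.cons (PF.leaf (nat_lit 5684155) (nat_lit 414229) (nat_lit 45834583) (nat_lit 14584741) [(nat_lit 414229), (nat_lit 1465256), (nat_lit 0), (nat_lit 0)]) (PF.cons PF.nil PF.nil)))) (PF.cons (PF.cons (PF.leaf (nat_lit 5857303) (nat_lit 1476930) (nat_lit 45221065) (nat_lit 14503095)
 [(nat_lit 0), (nat_lit 1476930), (nat_lit 0), (nat_lit 0)]) (PF.cons PF.nil PF.nil)) (PF.cons PF.nil (PF.cons PF.nil PF.nil)))))))) (PF.cons (PF.cons (PF.cons (PF.leaf (nat_lit 3729407) (nat_lit 3181576) (nat_lit 49019668) (nat_lit 14907568) [(nat_lit 0), (nat_lit 0), (nat_lit 3181576), (nat_lit 0)]) (PF.cons (PF.leaf (nat_lit 3930120) (nat_lit 329136) (nat_lit 48694501) (nat_lit 14879137) [(nat_lit 329136), (nat_lit 0), (nat_lit 3206037), (nat_lit 0)]) (PF.cons (PF.leaf (nat_lit 4150508) (nat_lit 345002) (nat_lit 48341463) (nat_lit 14846792)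 [(nat_lit 345002), (nat_lit 0), (nat_lit 3230551), (nat_lit 0)]) (PF.cons (PF.leaf (nat_lit 4386440) (nat_lit 359168) (nat_lit 47966044) (nat_lit 14810741) [(nat_lit 359168), (nat_lit 0), (nat_lit 3254520), (nat_lit 0)]) (PF.cons (PF.leaf (nat_lit 4635675) (nat_lit 371966) (nat_lit 47572269) (nat_lit 14771125) [(nat_lit 371966), (nat_lit 0), (nat_lit 3277551), (nat_lit 0)]) (PF.cons (PF.leaf (nat_lit 4896317) (nat_lit 383617) (nat_lit 47163279) (nat_lit 14728060) [(nat_lit 383617), (nat_lit 0), (nat_lit 3299385), (nat_lit 0)]) (PF.cons (PF.leaf (nat_lit 5166953) (nat_lit 394280) (nat_lit 46741631) (nat_lit 14681650) [(nat_lit 394280),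
 (nat_lit 0), (nat_lit 3319850), (nat_lit 0)]) (PF.cons PF.nil (PF.cons PF.nil PF.nil))))))))) (PF.cons (PF.cons (PF.leaf (nat_lit 4342343) (nat_lit 1359267) (nat_lit 47708559) (nat_lit 14780982) [(nat_lit 0), (nat_lit 1359267), (nat_lit 3260003), (nat_lit 0)]) (PF.cons (PF.leaf (nat_lit 4572542) (nat_lit 365172) (nat_lit 47340050) (nat_lit 14742843) [(nat_lit 365172), (nat_lit 1379888), (nat_lit 3280857), (nat_lit 0)]) (PF.cons (PF.leaf (nat_lit 4817627) (nat_lit 377619) (nat_lit 46952001) (nat_lit 14700987) [(nat_lit 377619), (nat_lit 1399592), (nat_lit 3300991), (nat_lit 0)]) (PF.cons (PF.leaf (nat_lit 5074654) (nat_lit 388887) (nat_lit 46548185) (nat_lit 14655617) [(nat_lit 388887), (nat_lit 1418240), (nat_lit 3320107), (nat_lit 0)]) (PF.cons (PF.leaf (nat_lit 5341925) (nat_lit 399156) (nat_lit 46131514) (nat_lit 14606893) [(nat_lit 399156), (nat_lit 1435766), (nat_lit 3338012), (nat_lit 0)]) (PF.cons PF.nil (PF.cons PF.nil PF.nil))))))) (PF.cons (PF.cons (PF.leaf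 (nat_lit 5001036) (nat_lit 1416643) (nat_lit 46328055) (nat_lit 14626122) [(nat_lit 0), (nat_lit 1416643), (nat_lit 3321347), (nat_lit 0)]) (PF.cons (PF.leaf (nat_lit 5252819) (nat_lit 393356) (nat_lit 45931684)
 (nat_lit 14578863) [(nat_lit 393356), (nat_lit 1433494), (nat_lit 3337918), (nat_lit 0)]) (PF.cons (PF.leaf (nat_lit 5516005) (nat_lit 403331) (nat_lit 45521741) (nat_lit 14528187) [(nat_lit 403331), (nat_lit 1449392), (nat_lit 3353436), (nat_lit 0)]) (PF.cons (PF.leaf (nat_lit 5788379) (nat_lit 412416) (nat_lit 45100946) (nat_lit 14474296) [(nat_lit 412416), (nat_lit 1464281), (nat_lit 3367758), (nat_lit 0)]) (PF.cons PF.nil PF.nil))))) (PF.cons (PF.cons (PF.leaf (nat_lit 5690350) (nat_lit 1461529) (nat_lit 44912262) (nat_lit 14445640) [(nat_lit 0), (nat_lit 1461529), (nat_lit 3366322), (nat_lit 0)]) (PF.cons (PF.leaf (nat_lit 5957729) (nat_lit 415664) (nat_lit 44499379) (nat_lit 14390152) [(nat_lit 415664), (nat_lit 1475022), (nat_lit 3378546), (nat_lit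 0)]) (PF.cons (PF.leaf (nat_lit 6233887) (nat_lit 423716) (nat_lit 44077361) (nat_lit 14331615) [(nat_lit 423716), (nat_lit 1487598), (nat_lit 3389608), (nat_lit 0)]) (PF.cons PF.nil PF.nil)))) (PF.cons (PF.cons (PF.leaf (nat_lit 6398666) (nat_lit 1495853) (nat_lit 43486228) (nat_lit 14242837) [(nat_lit 0), (nat_lit 1495853), (nat_lit 3396332), (nat_lit 0)]) (PF.cons PF.nil PF.nil)) (PF.cons PF.nil PF.nil)))))) (PF.cons (PF.cons
 (PF.cons (PF.leaf (nat_lit 4880120) (nat_lit 3305637) (nat_lit 45935978) (nat_lit 14561559) [(nat_lit 0), (nat_lit 0), (nat_lit 3305637), (nat_lit 0)]) (PF.cons (PF.leaf (nat_lit 5113950) (nat_lit 378979) (nat_lit 45570378) (nat_lit 14516784) [(nat_lit 378979), (nat_lit 0), (nat_lit 3321335), (nat_lit 0)]) (PF.cons (PF.leaf (nat_lit 5361721) (nat_lit 390465) (nat_lit 45187038) (nat_lit 14468290) [(nat_lit 390465), (nat_lit 0), (nat_lit 3336276), (nat_lit 0)]) (PF.cons (PF.leaf (nat_lit 5620525) (nat_lit 400755) (nat_lit 44789693) (nat_lit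 14416378) [(nat_lit 400755), (nat_lit 0), (nat_lit 3350237), (nat_lit 0)]) (PF.cons (PF.leaf (nat_lit 5888688) (nat_lit 410049) (nat_lit 44381182) (nat_lit 14361284) [(nat_lit 410049), (nat_lit 0), (nat_lit 3363073), (nat_lit 0)]) (PF.cons PF.nil (PF.cons PF.nil PF.nil))))))) (PF.cons (PF.cons (PF.leaf (nat_lit 5538408) (nat_lit 1444929) (nat_lit 44580674) (nat_lit 14384614) [(nat_lit 0), (nat_lit 1444929), (nat_lit 3349297), (nat_lit 0)]) (PF.cons (PF.leaf (nat_lit 5791445) (nat_lit 403930) (nat_lit 44192180) (nat_lit 14331440) [(nat_lit 403930), (nat_lit 1458919), (nat_lit 3361170), (nat_lit 0)]) (PF.cons (PF.leaf (nat_lit 6055021) (nat_lit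
 413015) (nat_lit 43791671) (nat_lit 14275003) [(nat_lit 413015), (nat_lit 1472010), (nat_lit 3372048), (nat_lit 0)]) (PF.cons (PF.leaf (nat_lit 6326964) (nat_lit 421217) (nat_lit 43381775) (nat_lit 14215562) [(nat_lit 421217), (nat_lit 1484168), (nat_lit 3381827), (nat_lit 0)]) (PF.cons PF.nil PF.nil))))) (PF.cons (PF.cons (PF.leaf (nat_lit 6221672) (nat_lit 1480700) (nat_lit 43203939) (nat_lit 14185594) [(nat_lit 0), (nat_lit 1480700), (nat_lit 3378938), (nat_lit 0)]) (PF.cons (PF.leaf (nat_lit 6488279) (nat_lit 423412) (nat_lit 42802878) (nat_lit 14125135) [(nat_lit 423412), (nat_lit 1491693), (nat_lit 3386999), (nat_lit 0)]) (PF.cons PF.nil (PF.cons PF.nil PF.nil)))) (PF.cons (PF.cons (PF.leaf (nat_lit 6919450) (nat_lit 1507295) (nat_lit 41827243) (nat_lit 13968007) [(nat_lit 0), (nat_lit 1507295), (nat_lit 3395838), (nat_lit 0)]) (PF.cons PF.nil PF.nil)) (PF.cons PF.nil PF.nil))))) (PF.cons (PF.cons (PF.cons (PF.leaf (nat_lit 6059364) (nat_lit 3361282) (nat_lit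 42900219) (nat_lit 14124746) [(nat_lit 0), (nat_lit 0), (nat_lit 3361282), (nat_lit 0)]) (PF.cons (PF.leaf (nat_lit 6312376) (nat_lit 411921) (nat_lit 42522161) (nat_lit 14066976) [(nat_lit 411921), (nat_lit 0),
 (nat_lit 3369251), (nat_lit 0)]) (PF.cons (PF.leaf (nat_lit 6575193) (nat_lit 420215) (nat_lit 42133423) (nat_lit 14006119) [(nat_lit 420215), (nat_lit 0), (nat_lit 3376279), (nat_lit 0)]) (PF.cons PF.nil PF.nil)))) (PF.cons (PF.cons (PF.leaf (nat_lit 6734167) (nat_lit 1492520) (nat_lit 41569508) (nat_lit 13911815) [(nat_lit 0), (nat_lit 1492520), (nat_lit 3378322), (nat_lit 0)]) (PF.cons (PF.leaf (nat_lit 6999065) (nat_lit 428958) (nat_lit 41182001) (nat_lit 13847656) [(nat_lit 428958), (nat_lit 1501392), (nat_lit 3382934), (nat_lit 0)]) PF.nil)) (PF.cons PF.nil PF.nil))) (PF.cons (PF.cons (PF.cons (PF.leaf (nat_lit 7227838) (nat_lit 3367111) (nat_lit 40011237) (nat_lit 13629128) [(nat_lit 0), (nat_lit 0), (nat_lit 3367111), (nat_lit 0)]) (PF.cons PF.nil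 PF.nil)) (PF.cons PF.nil PF.nil)) (PF.cons PF.nil PF.nil)))))) (PF.cons (PF.cons (PF.cons (PF.cons (PF.leaf (nat_lit 4699967) (nat_lit 8982110) (nat_lit 43957841) (nat_lit 14168860) [(nat_lit 0), (nat_lit 0), (nat_lit 0), (nat_lit 8982110)]) (PF.cons (PF.leaf (nat_lit 4898683) (nat_lit 338804) (nat_lit 43666473) (nat_lit 14130259) [(nat_lit 338804), (nat_lit 0), (nat_lit 0), (nat_lit 8973274)]) (PF.cons (PF.leaf (nat_lit 5115685)
 (nat_lit 353647) (nat_lit 43351444) (nat_lit 14087473) [(nat_lit 353647), (nat_lit 0), (nat_lit 0), (nat_lit 8962599)]) (PF.cons (PF.leaf (nat_lit 5346808) (nat_lit 366653) (nat_lit 43017799) (nat_lit 14040989) [(nat_lit 366653), (nat_lit 0), (nat_lit 0), (nat_lit 8950062)]) (PF.cons (PF.leaf (nat_lit 5589768) (nat_lit 378200) (nat_lit 42669207) (nat_lit 13991154) [(nat_lit 378200), (nat_lit 0), (nat_lit 0), (nat_lit 8935647)]) (PF.cons (PF.leaf (nat_lit 5842712) (nat_lit 388545) (nat_lit 42308490) (nat_lit 13938241) [(nat_lit 388545),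 (nat_lit 0), (nat_lit 0), (nat_lit 8919352)]) (PF.cons (PF.leaf (nat_lit 6104206) (nat_lit 397872) (nat_lit 41937913) (nat_lit 13882476) [(nat_lit 397872), (nat_lit 0), (nat_lit 0), (nat_lit 8901186)]) (PF.cons PF.nil (PF.cons PF.nil PF.nil))))))))) (PF.cons (PF.cons (PF.leaf (nat_lit 5292041) (nat_lit 1371803) (nat_lit 42795042) (nat_lit 14005759) [(nat_lit 0), (nat_lit 1371803), (nat_lit 0), (nat_lit 8936207)]) (PF.cons (PF.leaf (nat_lit 5516604) (nat_lit 370660) (nat_lit 42469348) (nat_lit 13958484) [(nat_lit 370660), (nat_lit 1388264), (nat_lit 0), (nat_lit 8922054)]) (PF.cons (PF.leaf (nat_lit 5754635) (nat_lit 381935) (nat_lit 42127539)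
 (nat_lit 13907682) [(nat_lit 381935), (nat_lit 1403729), (nat_lit 0), (nat_lit 8905990)]) (PF.cons (PF.leaf (nat_lit 6003277) (nat_lit 391977) (nat_lit 41772991) (nat_lit 13853718) [(nat_lit 391977), (nat_lit 1418125), (nat_lit 0), (nat_lit 8888044)]) (PF.cons (PF.leaf (nat_lit 6260856) (nat_lit 400992) (nat_lit 41408278) (nat_lit 13796874) [(nat_lit 400992), (nat_lit 1431435), (nat_lit 0), (nat_lit 8868253)]) (PF.cons (PF.leaf (nat_lit 6526029) (nat_lit 409130) (nat_lit 41035449) (nat_lit 13737383) [(nat_lit 409130), (nat_lit 1443675), (nat_lit 0), (nat_lit 8846654)]) (PF.cons PF.nil PF.nil))))))) (PF.cons (PF.cons (PF.leaf (nat_lit 5920858) (nat_lit 1414721) (nat_lit 41584771) (nat_lit 13821123) [(nat_lit 0), (nat_lit 1414721), (nat_lit 0), (nat_lit 8873474)]) (PF.cons (PF.leaf (nat_lit 6163736) (nat_lit 394730) (nat_lit 41238145) (nat_lit 13766493) [(nat_lit 394730), (nat_lit 1427665), (nat_lit 0), (nat_lit 8854110)]) (PF.cons (PF.leaf (nat_lit 6416775) (nat_lit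 403529) (nat_lit 40880610) (nat_lit 13708889) [(nat_lit 403529), (nat_lit 1439677), (nat_lit 0), (nat_lit 8832898)]) (PF.cons (PF.leaf (nat_lit 6677818) (nat_lit 411430) (nat_lit 40514536) (nat_lit 13648601) [(nat_lit
 411430), (nat_lit 1450740), (nat_lit 0), (nat_lit 8809901)]) (PF.cons PF.nil PF.nil))))) (PF.cons (PF.cons (PF.leaf (nat_lit 6573084) (nat_lit 1446797) (nat_lit 40354651) (nat_lit 13618559) [(nat_lit 0), (nat_lit 1446797), (nat_lit 0), (nat_lit 8795208)]) (PF.cons (PF.leaf (nat_lit 6828863) (nat_lit 413228) (nat_lit 39996481) (nat_lit 13557781) [(nat_lit 413228), (nat_lit 1456769), (nat_lit 0), (nat_lit 8771013)]) (PF.cons (PF.leaf (nat_lit 7092361) (nat_lit 420175) (nat_lit 39631140) (nat_lit 13494515) [(nat_lit 420175), (nat_lit 1465898), (nat_lit 0), (nat_lit 8745112)]) (PF.cons PF.nil PF.nil)))) (PF.cons (PF.cons (PF.leaf (nat_lit 7238923) (nat_lit 1470047) (nat_lit 39124012) (nat_lit 13401435) [(nat_lit 0), (nat_lit 1470047), (nat_lit 0), (nat_lit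 8703173)]) (PF.cons PF.nil PF.nil)) (PF.cons PF.nil PF.nil)))))) (PF.cons (PF.cons (PF.cons (PF.leaf (nat_lit 5785749) (nat_lit 3256495) (nat_lit 41260269) (nat_lit 13755376) [(nat_lit 0), (nat_lit 0), (nat_lit 3256495), (nat_lit 8836672)]) (PF.cons (PF.leaf (nat_lit 6012040) (nat_lit 380181) (nat_lit 40940412) (nat_lit 13704257) [(nat_lit 380181), (nat_lit 0), (nat_lit 3265628), (nat_lit 8818333)]) (PF.cons (PF.leaf (nat_lit
 6251027) (nat_lit 390588) (nat_lit 40605885) (nat_lit 13649704) [(nat_lit 390588), (nat_lit 0), (nat_lit 3273977), (nat_lit 8798068)]) (PF.cons (PF.leaf (nat_lit 6499858) (nat_lit 399772) (nat_lit 40259976) (nat_lit 13592137) [(nat_lit 399772), (nat_lit 0), (nat_lit 3281409), (nat_lit 8775972)]) (PF.cons (PF.leaf (nat_lit 6756886) (nat_lit 407951) (nat_lit 39905157) (nat_lit 13531875) [(nat_lit 407951), (nat_lit 0), (nat_lit 3287850), (nat_lit 8752124)]) (PF.cons PF.nil (PF.cons PF.nil PF.nil))))))) (PF.cons (PF.cons (PF.leaf (nat_lit 6410727)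 (nat_lit 1429754) (nat_lit 40082344) (nat_lit 13558880) [(nat_lit 0), (nat_lit 1429754), (nat_lit 3277864), (nat_lit 8759968)]) (PF.cons (PF.leaf (nat_lit 6653493) (nat_lit 401536) (nat_lit 39745100) (nat_lit 13501081) [(nat_lit 401536), (nat_lit 1440456), (nat_lit 3283802), (nat_lit 8736835)]) (PF.cons (PF.leaf (nat_lit 6905685) (nat_lit 409574) (nat_lit 39398115) (nat_lit 13440474) [(nat_lit 409574), (nat_lit 1450292), (nat_lit 3288847), (nat_lit 8711932)]) (PF.cons (PF.leaf (nat_lit 7165259) (nat_lit 416735) (nat_lit 39043657) (nat_lit 13377380) [(nat_lit 416735), (nat_lit 1459260), (nat_lit 3292949), (nat_lit 8685358)]) (PF.cons PF.nil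
 PF.nil))))) (PF.cons (PF.cons (PF.leaf (nat_lit 7055041) (nat_lit 1454934) (nat_lit 38893550) (nat_lit 13347200) [(nat_lit 0), (nat_lit 1454934), (nat_lit 3288375), (nat_lit 8669816)]) (PF.cons (PF.leaf (nat_lit 7309151) (nat_lit 417749) (nat_lit 38547417) (nat_lit 13283994) [(nat_lit 417749), (nat_lit 1462996), (nat_lit 3291274), (nat_lit 8642384)]) (PF.cons PF.nil (PF.cons PF.nil PF.nil)))) (PF.cons (PF.cons (PF.leaf (nat_lit 7709815) (nat_lit 1472461) (nat_lit 37710484) (nat_lit 13123620) [(nat_lit 0), (nat_lit 1472461), (nat_lit 3289289), (nat_lit 8568035)]) (PF.cons PF.nil PF.nil)) (PF.cons PF.nil PF.nil))))) (PF.cons (PF.cons (PF.cons (PF.leaf (nat_lit 6885244) (nat_lit 3270054) (nat_lit 38644519) (nat_lit 13289368) [(nat_lit 0), (nat_lit 0), (nat_lit 3270054), (nat_lit 8634817)]) (PF.cons (PF.leaf (nat_lit 7127026) (nat_lit 406447) (nat_lit 38317961) (nat_lit 13229270) [(nat_lit 406447), (nat_lit 0), (nat_lit 3273232), (nat_lit 8608667)]) (PF.cons (PF.leaf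 (nat_lit 7377688) (nat_lit 413813) (nat_lit 37982666) (nat_lit 13166533) [(nat_lit 413813), (nat_lit 0), (nat_lit 3275575), (nat_lit 8580834)]) (PF.cons PF.nil PF.nil)))) (PF.cons (PF.cons (PF.leaf (nat_lit 7520228)
 (nat_lit 1457999) (nat_lit 37500124) (nat_lit 13071512) [(nat_lit 0), (nat_lit 1457999), (nat_lit 3271894), (nat_lit 8535388)]) (PF.cons (PF.leaf (nat_lit 7772106) (nat_lit 420686) (nat_lit 37166777) (nat_lit 13006680) [(nat_lit 420686), (nat_lit 1464442), (nat_lit 3272397), (nat_lit 8505430)]) PF.nil)) (PF.cons PF.nil PF.nil))) (PF.cons (PF.cons (PF.cons (PF.leaf (nat_lit 7968978) (nat_lit 3248691) (nat_lit 36173913) (nat_lit 12794286) [(nat_lit 0), (nat_lit 0), (nat_lit 3248691), (nat_lit 8394537)]) (PF.cons PF.nil PF.nil)) (PF.cons PF.nil PF.nil)) (PF.cons PF.nil PF.nil))))) (PF.cons (PF.cons (PF.cons (PF.cons (PF.leaf (nat_lit 6583876) (nat_lit 8423391) (nat_lit 37309654) (nat_lit 12952376) [(nat_lit 0), (nat_lit 0), (nat_lit 0), (nat_lit 8423391)])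 (PF.cons (PF.leaf (nat_lit 6801792) (nat_lit 376084) (nat_lit 37031289) (nat_lit 12899854) [(nat_lit 376084), (nat_lit 0), (nat_lit 0), (nat_lit 8400792)]) (PF.cons (PF.leaf (nat_lit 7031464) (nat_lit 385599) (nat_lit 36740621) (nat_lit 12844212) [(nat_lit 385599), (nat_lit 0), (nat_lit 0), (nat_lit 8376389)]) (PF.cons (PF.leaf (nat_lit 7270018) (nat_lit 393896) (nat_lit 36440511) (nat_lit 12785914) [(nat_lit 393896), (nat_lit 0),
 (nat_lit 0), (nat_lit 8350348)]) (PF.cons (PF.leaf (nat_lit 7515876) (nat_lit 401201) (nat_lit 36133093) (nat_lit 12725313) [(nat_lit 401201), (nat_lit 0), (nat_lit 0), (nat_lit 8322799)]) PF.nil))))) (PF.cons (PF.cons (PF.leaf (nat_lit 7176822) (nat_lit 1399043) (nat_lit 36289670) (nat_lit 12753504) [(nat_lit 0), (nat_lit 1399043), (nat_lit 0), (nat_lit 8333297)]) (PF.cons (PF.leaf (nat_lit 7409230) (nat_lit 394709) (nat_lit 35997524) (nat_lit 12695551) [(nat_lit 394709), (nat_lit 1407434), (nat_lit 0), (nat_lit 8306796)]) (PF.cons (PF.leaf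 (nat_lit 7650270) (nat_lit 401927) (nat_lit 35697293) (nat_lit 12635161) [(nat_lit 401927), (nat_lit 1415007), (nat_lit 0), (nat_lit 8278747)]) (PF.cons PF.nil PF.nil)))) (PF.cons (PF.cons (PF.leaf (nat_lit 7785388) (nat_lit 1417051) (nat_lit 35263975) (nat_lit 12543874) [(nat_lit 0), (nat_lit 1417051), (nat_lit 0), (nat_lit 8233430)]) (PF.cons (PF.leaf (nat_lit 8027592) (nat_lit 408526) (nat_lit 34965087) (nat_lit 12481765) [(nat_lit 408526), (nat_lit 1423103), (nat_lit 0), (nat_lit 8203613)]) PF.nil)) (PF.cons PF.nil (PF.cons PF.nil PF.nil))))) (PF.cons (PF.cons (PF.cons (PF.leaf (nat_lit 7612381) (nat_lit 3158656) (nat_lit 35058773)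
 (nat_lit 12490966) [(nat_lit 0), (nat_lit 0), (nat_lit 3158656), (nat_lit 8200208)]) (PF.cons (PF.leaf (nat_lit 7843327) (nat_lit 397614) (nat_lit 34776479) (nat_lit 12432020) [(nat_lit 397614), (nat_lit 0), (nat_lit 3158872), (nat_lit 8171912)]) (PF.cons (PF.leaf (nat_lit 8082435) (nat_lit 404253) (nat_lit 34486871) (nat_lit 12370789) [(nat_lit 404253), (nat_lit 0), (nat_lit 3158343), (nat_lit 8142150)]) (PF.cons PF.nil PF.nil)))) (PF.cons (PF.cons (PF.leaf (nat_lit 8211584) (nat_lit 1414809) (nat_lit 34072839) (nat_lit 12279433) [(nat_lit 0), (nat_lit 1414809), (nat_lit 3151406), (nat_lit 8095161)]) (PF.cons PF.nil PF.nil)) (PF.cons PF.nil PF.nil))) (PF.cons (PF.cons (PF.cons (PF.leaf (nat_lit 8623465) (nat_lit 3121988) (nat_lit 32939037) (nat_lit 12017168) [(nat_lit 0), (nat_lit 0), (nat_lit 3121988), (nat_lit 7954314)]) (PF.cons PF.nil PF.nil)) (PF.cons PF.nil PF.nil)) PF.nil))) (PF.cons (PF.cons (PF.cons (PF.cons (PF.leaf (nat_lit 8261933) (nat_lit 7779833)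 (nat_lit 32019915) (nat_lit 11749398) [(nat_lit 0), (nat_lit 0), (nat_lit 0), (nat_lit 7779833)]) (PF.cons (PF.leaf (nat_lit 8482703) (nat_lit 387089) (nat_lit 31774866) (nat_lit 11693244) [(nat_lit 387089), (nat_lit 0),
 (nat_lit 0), (nat_lit 7751204)]) (PF.cons PF.nil (PF.cons PF.nil PF.nil)))) (PF.cons (PF.cons (PF.leaf (nat_lit 8829185) (nat_lit 1368035) (nat_lit 31166416) (nat_lit 11549280) [(nat_lit 0), (nat_lit 1368035), (nat_lit 0), (nat_lit 7675027)]) (PF.cons PF.nil PF.nil)) (PF.cons PF.nil PF.nil))) (PF.cons (PF.cons (PF.cons (PF.leaf (nat_lit 9210404) (nat_lit 2995013) (nat_lit 30190813) (nat_lit 11305554) [(nat_lit 0), (nat_lit 0), (nat_lit 2995013), (nat_lit 7539143)]) (PF.cons PF.nil PF.nil)) PF.nil) PF.nil)) (PF.cons PF.nil (PF.cons PF.nil (PF.cons PF.nil (PF.cons PF.nil PF.nil))))))))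

def p13_12_2_0 : pfC (piC [(nat_lit 40173837), (nat_lit 25770221), (nat_lit 19310217), (nat_lit 12946273)] (nat_lit 7113113)) p13_12_2 (nat_lit 4) (nat_lit 0) (nat_lit 1) = true := by decide +kernel
def p13_12_2_1 : pfC (piC [(nat_lit 40173837), (nat_lit 25770221), (nat_lit 19310217), (nat_lit 12946273)] (nat_lit 7113113)) p13_12_2 (nat_lit 4) (nat_lit 1) (nat_lit 2) = true := by decide +kernel
def p13_12_2_2 : pfC (piC [(nat_lit 40173837), (nat_lit 25770221), (nat_lit 19310217), (nat_lit 12946273)] (nat_lit 7113113)) p13_12_2 (nat_lit 4) (nat_lit 2) (nat_lit 3) = true := by decide +kernel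
def p13_12_2_3 : pfC (piC [(nat_lit 40173837), (nat_lit 25770221), (nat_lit 19310217), (nat_lit 12946273)] (nat_lit 7113113)) p13_12_2 (nat_lit 4) (nat_lit 3) (nat_lit 4) = true := by decide +kernel
def p13_12_2_4 : pfC (piC [(nat_lit 40173837), (nat_lit 25770221), (nat_lit 19310217), (nat_lit 12946273)] (nat_lit 7113113)) p13_12_2 (nat_lit 4) (nat_lit 4) (nat_lit 5) = true := by decide +kernel
def p13_12_2_5 : pfC (piC [(nat_lit 40173837), (nat_lit 25770221), (nat_lit 19310217), (nat_lit 12946273)] (nat_lit 7113113)) p13_12_2 (nat_lit 4) (nat_lit 5) (nat_lit 6) = true := by decide +kernel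
def p13_12_2_6 : pfC (piC [(nat_lit 40173837), (nat_lit 25770221), (nat_lit 19310217), (nat_lit 12946273)] (nat_lit 7113113)) p13_12_2 (nat_lit 4) (nat_lit 6) (nat_lit 7) = true := by decide +kernel
def p13_12_2_7 : pfC (piC [(nat_lit 40173837), (nat_lit 25770221), (nat_lit 19310217), (nat_lit 12946273)] (nat_lit 7113113)) p13_12_2 (nat_lit 4) (nat_lit 7) (nat_lit 8) = true := by decide +kernel
def p13_12_2_8 : pfC (piC [(nat_lit 40173837), (nat_lit 25770221), (nat_lit 19310217), (nat_lit 12946273)] (nat_lit 7113113)) p13_12_2 (nat_lit 4) (nat_lit 8) (nat_lit 9) = true := by decide +kernel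
def p13_12_2_9 : pfC (piC [(nat_lit 40173837), (nat_lit 25770221), (nat_lit 19310217), (nat_lit 12946273)] (nat_lit 7113113)) p13_12_2 (nat_lit 4) (nat_lit 9) (nat_lit 10) = true := by decide +kernel
def p13_12_2_10 : pfC (piC [(nat_lit 40173837), (nat_lit 25770221), (nat_lit 19310217), (nat_lit 12946273)] (nat_lit 7113113)) p13_12_2 (nat_lit 4) (nat_lit 10) (nat_lit 11) = true := by decide +kernel
def p13_12_2_11 : pfC (piC [(nat_lit 40173837), (nat_lit 25770221), (nat_lit 19310217), (nat_lit 12946273)] (nat_lit 7113113)) p13_12_2 (nat_lit 4) (nat_lit 11) (nat_lit 12) = true := by decide +kernel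
def p13_12_2_12 : pfC (piC [(nat_lit 40173837), (nat_lit 25770221), (nat_lit 19310217), (nat_lit 12946273)] (nat_lit 7113113)) p13_12_2 (nat_lit 4) (nat_lit 12) (nat_lit 13) = true := by decide +kernel
def p13_12_2_13 : pfC (piC [(nat_lit 40173837), (nat_lit 25770221), (nat_lit 19310217), (nat_lit 12946273)] (nat_lit 7113113)) p13_12_2 (nat_lit 4) (nat_lit 13) (nat_lit 14) = true := by decide +kernel
def p13_12_2_14 : pfC (piC [(nat_lit 40173837), (nat_lit 25770221), (nat_lit 19310217), (nat_lit 12946273)] (nat_lit 7113113)) p13_12_2 (nat_lit 4) (nat_lit 14) (nat_lit 15) = true := by decide +kernel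
def p13_12_2_15 : pfC (piC [(nat_lit 40173837), (nat_lit 25770221), (nat_lit 19310217), (nat_lit 12946273)] (nat_lit 7113113)) p13_12_2 (nat_lit 4) (nat_lit 15) (nat_lit 16) = true := by decide +kernel
def p13_12_2_16 : pfC (piC [(nat_lit 40173837), (nat_lit 25770221), (nat_lit 19310217), (nat_lit 12946273)] (nat_lit 7113113)) p13_12_2 (nat_lit 4) (nat_lit 16) (nat_lit 17) = true := by decide +kernel
def p13_12_2_17 : pfC (piC [(nat_lit 40173837), (nat_lit 25770221), (nat_lit 19310217), (nat_lit 12946273)] (nat_lit 7113113)) p13_12_2 (nat_lit 4) (nat_lit 17) (nat_lit 18) = true := by decide +kernel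
def p13_12_2_18 : pfC (piC [(nat_lit 40173837), (nat_lit 25770221), (nat_lit 19310217), (nat_lit 12946273)] (nat_lit 7113113)) p13_12_2 (nat_lit 4) (nat_lit 18) (nat_lit 19) = true := by decide +kernel
def p13_12_2_19 : pfC (piC [(nat_lit 40173837), (nat_lit 25770221), (nat_lit 19310217), (nat_lit 12946273)] (nat_lit 7113113)) p13_12_2 (nat_lit 4) (nat_lit 19) (nat_lit 20) = true := by decide +kernel
def p13_12_2_20 : pfC (piC [(nat_lit 40173837), (nat_lit 25770221), (nat_lit 19310217), (nat_lit 12946273)] (nat_lit 7113113)) p13_12_2 (nat_lit 4) (nat_lit 20) (nat_lit 21) = true := by decide +kernel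
def p13_12_2_21 : pfC (piC [(nat_lit 40173837), (nat_lit 25770221), (nat_lit 19310217), (nat_lit 12946273)] (nat_lit 7113113)) p13_12_2 (nat_lit 4) (nat_lit 21) (nat_lit 22) = true := by decide +kernel
def p13_12_2_22 : pfC (piC [(nat_lit 40173837), (nat_lit 25770221), (nat_lit 19310217), (nat_lit 12946273)] (nat_lit 7113113)) p13_12_2 (nat_lit 4) (nat_lit 22) (nat_lit 23) = true := by decide +kernel
def p13_12_2_23 : pfC (piC [(nat_lit 40173837), (nat_lit 25770221), (nat_lit 19310217), (nat_lit 12946273)] (nat_lit 7113113)) p13_12_2 (nat_lit 4) (nat_lit 23) (nat_lit 24) = true := by decide +kernel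
def p13_12_2_24 : pfC (piC [(nat_lit 40173837), (nat_lit 25770221), (nat_lit 19310217), (nat_lit 12946273)] (nat_lit 7113113)) p13_12_2 (nat_lit 4) (nat_lit 24) (nat_lit 25) = true := by decide +kernel
def p13_12_2_25 : pfC (piC [(nat_lit 40173837), (nat_lit 25770221), (nat_lit 19310217), (nat_lit 12946273)] (nat_lit 7113113)) p13_12_2 (nat_lit 4) (nat_lit 25) (nat_lit 26) = true := by decide +kernel
def p13_12_2_26 : pfC (piC [(nat_lit 40173837), (nat_lit 25770221), (nat_lit 19310217), (nat_lit 12946273)] (nat_lit 7113113)) p13_12_2 (nat_lit 4) (nat_lit 26) (nat_lit 27) = true := by decide +kernel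
def p13_12_2_27 : pfC (piC [(nat_lit 40173837), (nat_lit 25770221), (nat_lit 19310217), (nat_lit 12946273)] (nat_lit 7113113)) p13_12_2 (nat_lit 4) (nat_lit 27) (nat_lit 28) = true := by decide +kernel
def p13_12_2_28 : pfC (piC [(nat_lit 40173837), (nat_lit 25770221), (nat_lit 19310217), (nat_lit 12946273)] (nat_lit 7113113)) p13_12_2 (nat_lit 4) (nat_lit 28) (nat_lit 29) = true := by decide +kernel
def p13_12_2_29 : pfC (piC [(nat_lit 40173837), (nat_lit 25770221), (nat_lit 19310217), (nat_lit 12946273)] (nat_lit 7113113)) p13_12_2 (nat_lit 4) (nat_lit 29) (nat_lit 30) = true := by decide +kernel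
def p13_12_2_30 : pfC (piC [(nat_lit 40173837), (nat_lit 25770221), (nat_lit 19310217), (nat_lit 12946273)] (nat_lit 7113113)) p13_12_2 (nat_lit 4) (nat_lit 30) (nat_lit 31) = true := by decide +kernel
def p13_12_2_31 : pfC (piC [(nat_lit 40173837), (nat_lit 25770221), (nat_lit 19310217), (nat_lit 12946273)] (nat_lit 7113113)) p13_12_2 (nat_lit 4) (nat_lit 31) (nat_lit 32) = true := by decide +kernel
def p13_12_2_32 : pfC (piC [(nat_lit 40173837), (nat_lit 25770221), (nat_lit 19310217), (nat_lit 12946273)] (nat_lit 7113113)) p13_12_2 (nat_lit 4) (nat_lit 32) (nat_lit 33) = true := by decide +kernel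
def p13_12_2_33 : pfC (piC [(nat_lit 40173837), (nat_lit 25770221), (nat_lit 19310217), (nat_lit 12946273)] (nat_lit 7113113)) p13_12_2 (nat_lit 4) (nat_lit 33) (nat_lit 34) = true := by decide +kernel
def p13_12_2_34 : pfC (piC [(nat_lit 40173837), (nat_lit 25770221), (nat_lit 19310217), (nat_lit 12946273)] (nat_lit 7113113)) p13_12_2 (nat_lit 4) (nat_lit 34) (nat_lit 35) = true := by decide +kernel
def p13_12_2_35 : pfC (piC [(nat_lit 40173837), (nat_lit 25770221), (nat_lit 19310217), (nat_lit 12946273)] (nat_lit 7113113)) p13_12_2 (nat_lit 4) (nat_lit 35) (nat_lit 36) = true := by decide +kernel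
def p13_12_2_36 : pfC (piC [(nat_lit 40173837), (nat_lit 25770221), (nat_lit 19310217), (nat_lit 12946273)] (nat_lit 7113113)) p13_12_2 (nat_lit 4) (nat_lit 36) (nat_lit 37) = true := by decide +kernel
def p13_12_2_37 : pfC (piC [(nat_lit 40173837), (nat_lit 25770221), (nat_lit 19310217), (nat_lit 12946273)] (nat_lit 7113113)) p13_12_2 (nat_lit 4) (nat_lit 37) (nat_lit 38) = true := by decide +kernel
def p13_12_2_38 : pfC (piC [(nat_lit 40173837), (nat_lit 25770221), (nat_lit 19310217), (nat_lit 12946273)] (nat_lit 7113113)) p13_12_2 (nat_lit 4) (nat_lit 38) (nat_lit 39) = true := by decide +kernel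
def p13_12_2_39 : pfC (piC [(nat_lit 40173837), (nat_lit 25770221), (nat_lit 19310217), (nat_lit 12946273)] (nat_lit 7113113)) p13_12_2 (nat_lit 4) (nat_lit 39) (nat_lit 40) = true := by decide +kernel
def p13_12_2_40 : pfC (piC [(nat_lit 40173837), (nat_lit 25770221), (nat_lit 19310217), (nat_lit 12946273)] (nat_lit 7113113)) p13_12_2 (nat_lit 4) (nat_lit 40) (nat_lit 41) = true := by decide +kernel
def p13_12_2_41 : pfC (piC [(nat_lit 40173837), (nat_lit 25770221), (nat_lit 19310217), (nat_lit 12946273)] (nat_lit 7113113)) p13_12_2 (nat_lit 4) (nat_lit 41) (nat_lit 42) = true := by decide +kernel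
def p13_12_2_42 : pfC (piC [(nat_lit 40173837), (nat_lit 25770221), (nat_lit 19310217), (nat_lit 12946273)] (nat_lit 7113113)) p13_12_2 (nat_lit 4) (nat_lit 42) (nat_lit 43) = true := by decide +kernel
def p13_12_2_43 : pfC (piC [(nat_lit 40173837), (nat_lit 25770221), (nat_lit 19310217), (nat_lit 12946273)] (nat_lit 7113113)) p13_12_2 (nat_lit 4) (nat_lit 43) (nat_lit 44) = true := by decide +kernel
def p13_12_2_44 : pfC (piC [(nat_lit 40173837), (nat_lit 25770221), (nat_lit 19310217), (nat_lit 12946273)] (nat_lit 7113113)) p13_12_2 (nat_lit 4) (nat_lit 44) (nat_lit 45) = true := by decide +kernel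
def p13_12_2_45 : pfC (piC [(nat_lit 40173837), (nat_lit 25770221), (nat_lit 19310217), (nat_lit 12946273)] (nat_lit 7113113)) p13_12_2 (nat_lit 4) (nat_lit 45) (nat_lit 46) = true := by decide +kernel
def p13_12_2_46 : pfC (piC [(nat_lit 40173837), (nat_lit 25770221), (nat_lit 19310217), (nat_lit 12946273)] (nat_lit 7113113)) p13_12_2 (nat_lit 4) (nat_lit 46) (nat_lit 47) = true := by decide +kernel
def p13_12_2_47 : pfC (piC [(nat_lit 40173837), (nat_lit 25770221), (nat_lit 19310217), (nat_lit 12946273)] (nat_lit 7113113)) p13_12_2 (nat_lit 4) (nat_lit 47) (nat_lit 48) = true := by decide +kernel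
def p13_12_2_48 : pfC (piC [(nat_lit 40173837), (nat_lit 25770221), (nat_lit 19310217), (nat_lit 12946273)] (nat_lit 7113113)) p13_12_2 (nat_lit 4) (nat_lit 48) (nat_lit 49) = true := by decide +kernel
def p13_12_2_49 : pfC (piC [(nat_lit 40173837), (nat_lit 25770221), (nat_lit 19310217), (nat_lit 12946273)] (nat_lit 7113113)) p13_12_2 (nat_lit 4) (nat_lit 49) (nat_lit 50) = true := by decide +kernel
def p13_12_2_50 : pfC (piC [(nat_lit 40173837), (nat_lit 25770221), (nat_lit 19310217), (nat_lit 12946273)] (nat_lit 7113113)) p13_12_2 (nat_lit 4) (nat_lit 50) (nat_lit 51) = true := by decide +kernel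
def p13_12_2_51 : pfC (piC [(nat_lit 40173837), (nat_lit 25770221), (nat_lit 19310217), (nat_lit 12946273)] (nat_lit 7113113)) p13_12_2 (nat_lit 4) (nat_lit 51) (nat_lit 52) = true := by decide +kernel
def p13_12_2_52 : pfC (piC [(nat_lit 40173837), (nat_lit 25770221), (nat_lit 19310217), (nat_lit 12946273)] (nat_lit 7113113)) p13_12_2 (nat_lit 4) (nat_lit 52) (nat_lit 53) = true := by decide +kernel
def p13_12_2_53 : pfC (piC [(nat_lit 40173837), (nat_lit 25770221), (nat_lit 19310217), (nat_lit 12946273)] (nat_lit 7113113)) p13_12_2 (nat_lit 4) (nat_lit 53) (nat_lit 54) = true := by decide +kernel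
def p13_12_2_54 : pfC (piC [(nat_lit 40173837), (nat_lit 25770221), (nat_lit 19310217), (nat_lit 12946273)] (nat_lit 7113113)) p13_12_2 (nat_lit 4) (nat_lit 54) (nat_lit 55) = true := by decide +kernel
def p13_12_2_55 : pfC (piC [(nat_lit 40173837), (nat_lit 25770221), (nat_lit 19310217), (nat_lit 12946273)] (nat_lit 7113113)) p13_12_2 (nat_lit 4) (nat_lit 55) (nat_lit 56) = true := by decide +kernel
def p13_12_2_56 : pfC (piC [(nat_lit 40173837), (nat_lit 25770221), (nat_lit 19310217), (nat_lit 12946273)] (nat_lit 7113113)) p13_12_2 (nat_lit 4) (nat_lit 56) (nat_lit 57) = true := by decide +kernel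
def p13_12_2_57 : pfC (piC [(nat_lit 40173837), (nat_lit 25770221), (nat_lit 19310217), (nat_lit 12946273)] (nat_lit 7113113)) p13_12_2 (nat_lit 4) (nat_lit 57) (nat_lit 58) = true := by decide +kernel
def p13_12_2_58 : pfC (piC [(nat_lit 40173837), (nat_lit 25770221), (nat_lit 19310217), (nat_lit 12946273)] (nat_lit 7113113)) p13_12_2 (nat_lit 4) (nat_lit 58) (nat_lit 59) = true := by decide +kernel
def p13_12_2_59 : pfC (piC [(nat_lit 40173837), (nat_lit 25770221), (nat_lit 19310217), (nat_lit 12946273)] (nat_lit 7113113)) p13_12_2 (nat_lit 4) (nat_lit 59) (nat_lit 60) = true := by decide +kernel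
def p13_12_2_60 : pfC (piC [(nat_lit 40173837), (nat_lit 25770221), (nat_lit 19310217), (nat_lit 12946273)] (nat_lit 7113113)) p13_12_2 (nat_lit 4) (nat_lit 60) (nat_lit 61) = true := by decide +kernel
def p13_12_2_61 : pfC (piC [(nat_lit 40173837), (nat_lit 25770221), (nat_lit 19310217), (nat_lit 12946273)] (nat_lit 7113113)) p13_12_2 (nat_lit 4) (nat_lit 61) (nat_lit 62) = true := by decide +kernel
def p13_12_2_62 : pfC (piC [(nat_lit 40173837), (nat_lit 25770221), (nat_lit 19310217), (nat_lit 12946273)] (nat_lit 7113113)) p13_12_2 (nat_lit 4) (nat_lit 62) (nat_lit 63) = true := by decide +kernel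
def p13_12_2_63 : pfC (piC [(nat_lit 40173837), (nat_lit 25770221), (nat_lit 19310217), (nat_lit 12946273)] (nat_lit 7113113)) p13_12_2 (nat_lit 4) (nat_lit 63) (nat_lit 64) = true := by decide +kernel
def p13_12_2_64 : pfC (piC [(nat_lit 40173837), (nat_lit 25770221), (nat_lit 19310217), (nat_lit 12946273)] (nat_lit 7113113)) p13_12_2 (nat_lit 4) (nat_lit 64) (nat_lit 65) = true := by decide +kernel
def p13_12_2_65 : pfC (piC [(nat_lit 40173837), (nat_lit 25770221), (nat_lit 19310217), (nat_lit 12946273)] (nat_lit 7113113)) p13_12_2 (nat_lit 4) (nat_lit 65) (nat_lit 66) = true := by decide +kernel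
def p13_12_2_66 : pfC (piC [(nat_lit 40173837), (nat_lit 25770221), (nat_lit 19310217), (nat_lit 12946273)] (nat_lit 7113113)) p13_12_2 (nat_lit 4) (nat_lit 66) (nat_lit 67) = true := by decide +kernel
def p13_12_2_67 : pfC (piC [(nat_lit 40173837), (nat_lit 25770221), (nat_lit 19310217), (nat_lit 12946273)] (nat_lit 7113113)) p13_12_2 (nat_lit 4) (nat_lit 67) (nat_lit 68) = true := by decide +kernel
def p13_12_2_68 : pfC (piC [(nat_lit 40173837), (nat_lit 25770221), (nat_lit 19310217), (nat_lit 12946273)] (nat_lit 7113113)) p13_12_2 (nat_lit 4) (nat_lit 68) (nat_lit 69) = true := by decide +kernel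
def p13_12_2_69 : pfC (piC [(nat_lit 40173837), (nat_lit 25770221), (nat_lit 19310217), (nat_lit 12946273)] (nat_lit 7113113)) p13_12_2 (nat_lit 4) (nat_lit 69) (nat_lit 70) = true := by decide +kernel
def p13_12_2_70 : pfC (piC [(nat_lit 40173837), (nat_lit 25770221), (nat_lit 19310217), (nat_lit 12946273)] (nat_lit 7113113)) p13_12_2 (nat_lit 4) (nat_lit 70) (nat_lit 71) = true := by decide +kernel
def p13_12_2_71 : pfC (piC [(nat_lit 40173837), (nat_lit 25770221), (nat_lit 19310217), (nat_lit 12946273)] (nat_lit 7113113)) p13_12_2 (nat_lit 4) (nat_lit 71) (nat_lit 72) = true := by decide +kernel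
def p13_12_2_72 : pfC (piC [(nat_lit 40173837), (nat_lit 25770221), (nat_lit 19310217), (nat_lit 12946273)] (nat_lit 7113113)) p13_12_2 (nat_lit 4) (nat_lit 72) (nat_lit 73) = true := by decide +kernel
def p13_12_2_73 : pfC (piC [(nat_lit 40173837), (nat_lit 25770221), (nat_lit 19310217), (nat_lit 12946273)] (nat_lit 7113113)) p13_12_2 (nat_lit 4) (nat_lit 73) (nat_lit 74) = true := by decide +kernel
def p13_12_2_74 : pfC (piC [(nat_lit 40173837), (nat_lit 25770221), (nat_lit 19310217), (nat_lit 12946273)] (nat_lit 7113113)) p13_12_2 (nat_lit 4) (nat_lit 74) (nat_lit 75) = true := by decide +kernel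
def p13_12_2_75 : pfC (piC [(nat_lit 40173837), (nat_lit 25770221), (nat_lit 19310217), (nat_lit 12946273)] (nat_lit 7113113)) p13_12_2 (nat_lit 4) (nat_lit 75) (nat_lit 76) = true := by decide +kernel
def p13_12_2_76 : pfC (piC [(nat_lit 40173837), (nat_lit 25770221), (nat_lit 19310217), (nat_lit 12946273)] (nat_lit 7113113)) p13_12_2 (nat_lit 4) (nat_lit 76) (nat_lit 77) = true := by decide +kernel
def p13_12_2_77 : pfC (piC [(nat_lit 40173837), (nat_lit 25770221), (nat_lit 19310217), (nat_lit 12946273)] (nat_lit 7113113)) p13_12_2 (nat_lit 4) (nat_lit 77) (nat_lit 78) = true := by decide +kernel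
def p13_12_2_78 : pfC (piC [(nat_lit 40173837), (nat_lit 25770221), (nat_lit 19310217), (nat_lit 12946273)] (nat_lit 7113113)) p13_12_2 (nat_lit 4) (nat_lit 78) (nat_lit 79) = true := by decide +kernel
def p13_12_2_79 : pfC (piC [(nat_lit 40173837), (nat_lit 25770221), (nat_lit 19310217), (nat_lit 12946273)] (nat_lit 7113113)) p13_12_2 (nat_lit 4) (nat_lit 79) (nat_lit 80) = true := by decide +kernel
def p13_12_2_80 : pfC (piC [(nat_lit 40173837), (nat_lit 25770221), (nat_lit 19310217), (nat_lit 12946273)] (nat_lit 7113113)) p13_12_2 (nat_lit 4) (nat_lit 80) (nat_lit 81) = true := by decide +kernel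
def p13_12_2_81 : pfC (piC [(nat_lit 40173837), (nat_lit 25770221), (nat_lit 19310217), (nat_lit 12946273)] (nat_lit 7113113)) p13_12_2 (nat_lit 4) (nat_lit 81) (nat_lit 82) = true := by decide +kernel
def p13_12_2_82 : pfC (piC [(nat_lit 40173837), (nat_lit 25770221), (nat_lit 19310217), (nat_lit 12946273)] (nat_lit 7113113)) p13_12_2 (nat_lit 4) (nat_lit 82) (nat_lit 83) = true := by decide +kernel
def p13_12_2_83 : pfC (piC [(nat_lit 40173837), (nat_lit 25770221), (nat_lit 19310217), (nat_lit 12946273)] (nat_lit 7113113)) p13_12_2 (nat_lit 4) (nat_lit 83) (nat_lit 84) = true := by decide +kernel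
def p13_12_2_84 : pfC (piC [(nat_lit 40173837), (nat_lit 25770221), (nat_lit 19310217), (nat_lit 12946273)] (nat_lit 7113113)) p13_12_2 (nat_lit 4) (nat_lit 84) (nat_lit 85) = true := by decide +kernel
def p13_12_2_85 : pfC (piC [(nat_lit 40173837), (nat_lit 25770221), (nat_lit 19310217), (nat_lit 12946273)] (nat_lit 7113113)) p13_12_2 (nat_lit 4) (nat_lit 85) (nat_lit 86) = true := by decide +kernel
def p13_12_2_86 : pfC (piC [(nat_lit 40173837), (nat_lit 25770221), (nat_lit 19310217), (nat_lit 12946273)] (nat_lit 7113113)) p13_12_2 (nat_lit 4) (nat_lit 86) (nat_lit 87) = true := by decide +kernel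
def p13_12_2_87 : pfC (piC [(nat_lit 40173837), (nat_lit 25770221), (nat_lit 19310217), (nat_lit 12946273)] (nat_lit 7113113)) p13_12_2 (nat_lit 4) (nat_lit 87) (nat_lit 88) = true := by decide +kernel
def p13_12_2_88 : pfC (piC [(nat_lit 40173837), (nat_lit 25770221), (nat_lit 19310217), (nat_lit 12946273)] (nat_lit 7113113)) p13_12_2 (nat_lit 4) (nat_lit 88) (nat_lit 89) = true := by decide +kernel
def p13_12_2_89 : pfC (piC [(nat_lit 40173837), (nat_lit 25770221), (nat_lit 19310217), (nat_lit 12946273)] (nat_lit 7113113)) p13_12_2 (nat_lit 4) (nat_lit 89) (nat_lit 90) = true := by decide +kernel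
def p13_12_2_90 : pfC (piC [(nat_lit 40173837), (nat_lit 25770221), (nat_lit 19310217), (nat_lit 12946273)] (nat_lit 7113113)) p13_12_2 (nat_lit 4) (nat_lit 90) (nat_lit 91) = true := by decide +kernel
def p13_12_2_91 : pfC (piC [(nat_lit 40173837), (nat_lit 25770221), (nat_lit 19310217), (nat_lit 12946273)] (nat_lit 7113113)) p13_12_2 (nat_lit 4) (nat_lit 91) (nat_lit 92) = true := by decide +kernel
def p13_12_2_92 : pfC (piC [(nat_lit 40173837), (nat_lit 25770221), (nat_lit 19310217), (nat_lit 12946273)] (nat_lit 7113113)) p13_12_2 (nat_lit 4) (nat_lit 92) (nat_lit 93) = true := by decide +kernel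
def p13_12_2_93 : pfC (piC [(nat_lit 40173837), (nat_lit 25770221), (nat_lit 19310217), (nat_lit 12946273)] (nat_lit 7113113)) p13_12_2 (nat_lit 4) (nat_lit 93) (nat_lit 94) = true := by decide +kernel
def p13_12_2_94 : pfC (piC [(nat_lit 40173837), (nat_lit 25770221), (nat_lit 19310217), (nat_lit 12946273)] (nat_lit 7113113)) p13_12_2 (nat_lit 4) (nat_lit 94) (nat_lit 95) = true := by decide +kernel
def p13_12_2_95 : pfC (piC [(nat_lit 40173837), (nat_lit 25770221), (nat_lit 19310217), (nat_lit 12946273)] (nat_lit 7113113)) p13_12_2 (nat_lit 4) (nat_lit 95) (nat_lit 96) = true := by decide +kernel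
def p13_12_2_96 : pfC (piC [(nat_lit 40173837), (nat_lit 25770221), (nat_lit 19310217), (nat_lit 12946273)] (nat_lit 7113113)) p13_12_2 (nat_lit 4) (nat_lit 96) (nat_lit 97) = true := by decide +kernel
def p13_12_2_97 : pfC (piC [(nat_lit 40173837), (nat_lit 25770221), (nat_lit 19310217), (nat_lit 12946273)] (nat_lit 7113113)) p13_12_2 (nat_lit 4) (nat_lit 97) (nat_lit 98) = true := by decide +kernel
def p13_12_2_98 : pfC (piC [(nat_lit 40173837), (nat_lit 25770221), (nat_lit 19310217), (nat_lit 12946273)] (nat_lit 7113113)) p13_12_2 (nat_lit 4) (nat_lit 98) (nat_lit 99) = true := by decide +kernel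
def p13_12_2_99 : pfC (piC [(nat_lit 40173837), (nat_lit 25770221), (nat_lit 19310217), (nat_lit 12946273)] (nat_lit 7113113)) p13_12_2 (nat_lit 4) (nat_lit 99) (nat_lit 100) = true := by decide +kernel
def p13_12_2_100 : pfC (piC [(nat_lit 40173837), (nat_lit 25770221), (nat_lit 19310217), (nat_lit 12946273)] (nat_lit 7113113)) p13_12_2 (nat_lit 4) (nat_lit 100) (nat_lit 101) = true := by decide +kernel
def p13_12_2_101 : pfC (piC [(nat_lit 40173837), (nat_lit 25770221), (nat_lit 19310217), (nat_lit 12946273)] (nat_lit 7113113)) p13_12_2 (nat_lit 4) (nat_lit 101) (nat_lit 102) = true := by decide +kernel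
def p13_12_2_102 : pfC (piC [(nat_lit 40173837), (nat_lit 25770221), (nat_lit 19310217), (nat_lit 12946273)] (nat_lit 7113113)) p13_12_2 (nat_lit 4) (nat_lit 102) (nat_lit 103) = true := by decide +kernel
def p13_12_2_103 : pfC (piC [(nat_lit 40173837), (nat_lit 25770221), (nat_lit 19310217), (nat_lit 12946273)] (nat_lit 7113113)) p13_12_2 (nat_lit 4) (nat_lit 103) (nat_lit 104) = true := by decide +kernel
def p13_12_2_104 : pfC (piC [(nat_lit 40173837), (nat_lit 25770221), (nat_lit 19310217), (nat_lit 12946273)] (nat_lit 7113113)) p13_12_2 (nat_lit 4) (nat_lit 104) (nat_lit 105) = true := by decide +kernel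
def p13_12_2_105 : pfC (piC [(nat_lit 40173837), (nat_lit 25770221), (nat_lit 19310217), (nat_lit 12946273)] (nat_lit 7113113)) p13_12_2 (nat_lit 4) (nat_lit 105) (nat_lit 106) = true := by decide +kernel
def p13_12_2_106 : pfC (piC [(nat_lit 40173837), (nat_lit 25770221), (nat_lit 19310217), (nat_lit 12946273)] (nat_lit 7113113)) p13_12_2 (nat_lit 4) (nat_lit 106) (nat_lit 107) = true := by decide +kernel
def p13_12_2_107 : pfC (piC [(nat_lit 40173837), (nat_lit 25770221), (nat_lit 19310217), (nat_lit 12946273)] (nat_lit 7113113)) p13_12_2 (nat_lit 4) (nat_lit 107) (nat_lit 108) = true := by decide +kernel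
def p13_12_2_108 : pfC (piC [(nat_lit 40173837), (nat_lit 25770221), (nat_lit 19310217), (nat_lit 12946273)] (nat_lit 7113113)) p13_12_2 (nat_lit 4) (nat_lit 108) (nat_lit 109) = true := by decide +kernel
def p13_12_2_109 : pfC (piC [(nat_lit 40173837), (nat_lit 25770221), (nat_lit 19310217), (nat_lit 12946273)] (nat_lit 7113113)) p13_12_2 (nat_lit 4) (nat_lit 109) (nat_lit 110) = true := by decide +kernel
def p13_12_2_110 : pfC (piC [(nat_lit 40173837), (nat_lit 25770221), (nat_lit 19310217), (nat_lit 12946273)] (nat_lit 7113113)) p13_12_2 (nat_lit 4) (nat_lit 110) (nat_lit 111) = true := by decide +kernel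
def p13_12_2_111 : pfC (piC [(nat_lit 40173837), (nat_lit 25770221), (nat_lit 19310217), (nat_lit 12946273)] (nat_lit 7113113)) p13_12_2 (nat_lit 4) (nat_lit 111) (nat_lit 112) = true := by decide +kernel
def p13_12_2_112 : pfC (piC [(nat_lit 40173837), (nat_lit 25770221), (nat_lit 19310217), (nat_lit 12946273)] (nat_lit 7113113)) p13_12_2 (nat_lit 4) (nat_lit 112) (nat_lit 113) = true := by decide +kernel
def p13_12_2_113 : pfC (piC [(nat_lit 40173837), (nat_lit 25770221), (nat_lit 19310217), (nat_lit 12946273)] (nat_lit 7113113)) p13_12_2 (nat_lit 4) (nat_lit 113) (nat_lit 114) = true := by decide +kernel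
def p13_12_2_114 : pfC (piC [(nat_lit 40173837), (nat_lit 25770221), (nat_lit 19310217), (nat_lit 12946273)] (nat_lit 7113113)) p13_12_2 (nat_lit 4) (nat_lit 114) (nat_lit 115) = true := by decide +kernel
def p13_12_2_115 : pfC (piC [(nat_lit 40173837), (nat_lit 25770221), (nat_lit 19310217), (nat_lit 12946273)] (nat_lit 7113113)) p13_12_2 (nat_lit 4) (nat_lit 115) (nat_lit 116) = true := by decide +kernel
def p13_12_2_116 : pfC (piC [(nat_lit 40173837), (nat_lit 25770221), (nat_lit 19310217), (nat_lit 12946273)] (nat_lit 7113113)) p13_12_2 (nat_lit 4) (nat_lit 116) (nat_lit 117) = true := by decide +kernel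
def p13_12_2_117 : pfC (piC [(nat_lit 40173837), (nat_lit 25770221), (nat_lit 19310217), (nat_lit 12946273)] (nat_lit 7113113)) p13_12_2 (nat_lit 4) (nat_lit 117) (nat_lit 118) = true := by decide +kernel
def p13_12_2_118 : pfC (piC [(nat_lit 40173837), (nat_lit 25770221), (nat_lit 19310217), (nat_lit 12946273)] (nat_lit 7113113)) p13_12_2 (nat_lit 4) (nat_lit 118) (nat_lit 119) = true := by decide +kernel
def p13_12_2_119 : pfC (piC [(nat_lit 40173837), (nat_lit 25770221), (nat_lit 19310217), (nat_lit 12946273)] (nat_lit 7113113)) p13_12_2 (nat_lit 4) (nat_lit 119) (nat_lit 120) = true := by decide +kernel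
def p13_12_2_120 : pfC (piC [(nat_lit 40173837), (nat_lit 25770221), (nat_lit 19310217), (nat_lit 12946273)] (nat_lit 7113113)) p13_12_2 (nat_lit 4) (nat_lit 120) (nat_lit 121) = true := by decide +kernel
def p13_12_2_121 : pfC (piC [(nat_lit 40173837), (nat_lit 25770221), (nat_lit 19310217), (nat_lit 12946273)] (nat_lit 7113113)) p13_12_2 (nat_lit 4) (nat_lit 121) (nat_lit 122) = true := by decide +kernel
def p13_12_2_122 : pfC (piC [(nat_lit 40173837), (nat_lit 25770221), (nat_lit 19310217), (nat_lit 12946273)] (nat_lit 7113113)) p13_12_2 (nat_lit 4) (nat_lit 122) (nat_lit 123) = true := by decide +kernel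
def p13_12_2_123 : pfC (piC [(nat_lit 40173837), (nat_lit 25770221), (nat_lit 19310217), (nat_lit 12946273)] (nat_lit 7113113)) p13_12_2 (nat_lit 4) (nat_lit 123) (nat_lit 124) = true := by decide +kernel
def p13_12_2_124 : pfC (piC [(nat_lit 40173837), (nat_lit 25770221), (nat_lit 19310217), (nat_lit 12946273)] (nat_lit 7113113)) p13_12_2 (nat_lit 4) (nat_lit 124) (nat_lit 125) = true := by decide +kernel
def p13_12_2_125 : pfC (piC [(nat_lit 40173837), (nat_lit 25770221), (nat_lit 19310217), (nat_lit 12946273)] (nat_lit 7113113)) p13_12_2 (nat_lit 4) (nat_lit 125) (nat_lit 126) = true := by decide +kernel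
theorem p13_12_2_T : PfS (PiF n13_12.reverse (nat_lit 7113113)) p13_12_2 (nat_lit 4) [] 0 :=
  pftab_of (los := [(nat_lit 40173837), (nat_lit 25770221), (nat_lit 19310217), (nat_lit 12946273)]) (by decide +kernel) (hi := (nat_lit 126)) (PfP.trans (PfP.trans (PfP.trans (PfP.trans (PfP.trans (PfP.trans (PfP.trans (PfP.trans (PfP.trans (PfP.trans (PfP.trans (PfP.trans (PfP.trans (PfP.trans (PfP.trans (PfP.trans (PfP.trans (PfP.trans (PfP.trans (PfP.trans (PfP.trans (PfP.trans (PfP.trans (PfP.trans (PfP.trans (PfP.trans (PfP.trans (PfP.trans (PfP.trans (PfP.trans (PfP.trans (PfP.trans (PfP.trans (PfP.trans (PfP.trans (PfP.trans (PfP.trans (PfP.trans (PfP.trans (PfP.trans (PfP.trans (PfP.trans (PfP.trans (PfP.trans (PfP.trans (PfP.trans (PfP.trans (PfP.trans (PfP.trans (PfP.trans (PfP.trans (PfP.trans (PfP.trans (PfP.trans (PfP.trans (PfP.trans (PfP.trans (PfP.trans (PfP.trans (PfP.trans (PfP.trans (PfP.trans (PfP.trans (PfP.trans (PfP.trans (PfP.trans (PfP.trans (PfP.trans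 (PfP.trans (PfP.trans (PfP.trans (PfP.trans (PfP.trans (PfP.trans (PfP.trans (PfP.trans (PfP.trans (PfP.trans (PfP.trans (PfP.trans (PfP.trans (PfP.trans (PfP.trans (PfP.trans (PfP.trans (PfP.trans (PfP.trans (PfP.trans (PfP.trans (PfP.trans (PfP.trans (PfP.trans (PfP.trans (PfP.trans (PfP.trans (PfP.trans (PfP.trans (PfP.trans (PfP.trans (PfP.trans (PfP.trans (PfP.trans (PfP.trans (PfP.trans (PfP.trans (PfP.trans (PfP.trans (PfP.trans (PfP.trans
 (PfP.trans (PfP.trans (PfP.trans (PfP.trans (PfP.trans (PfP.trans (PfP.trans (PfP.trans (PfP.trans (PfP.trans (PfP.trans (PfP.trans (PfP.trans (PfP.trans (PfP.trans (PfP.trans (pfC_sound p13_12_2_0) (pfC_sound p13_12_2_1)) (pfC_sound p13_12_2_2)) (pfC_sound p13_12_2_3)) (pfC_sound p13_12_2_4)) (pfC_sound p13_12_2_5)) (pfC_sound p13_12_2_6)) (pfC_sound p13_12_2_7)) (pfC_sound p13_12_2_8)) (pfC_sound p13_12_2_9)) (pfC_sound p13_12_2_10)) (pfC_sound p13_12_2_11)) (pfC_sound p13_12_2_12)) (pfC_sound p13_12_2_13)) (pfC_sound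 p13_12_2_14)) (pfC_sound p13_12_2_15)) (pfC_sound p13_12_2_16)) (pfC_sound p13_12_2_17)) (pfC_sound p13_12_2_18)) (pfC_sound p13_12_2_19)) (pfC_sound p13_12_2_20)) (pfC_sound p13_12_2_21)) (pfC_sound p13_12_2_22)) (pfC_sound p13_12_2_23)) (pfC_sound p13_12_2_24)) (pfC_sound p13_12_2_25)) (pfC_sound p13_12_2_26)) (pfC_sound p13_12_2_27)) (pfC_sound p13_12_2_28)) (pfC_sound p13_12_2_29)) (pfC_sound p13_12_2_30)) (pfC_sound p13_12_2_31)) (pfC_sound p13_12_2_32)) (pfC_sound p13_12_2_33)) (pfC_sound p13_12_2_34)) (pfC_sound p13_12_2_35)) (pfC_sound p13_12_2_36)) (pfC_sound p13_12_2_37)) (pfC_sound p13_12_2_38)) (pfC_sound p13_12_2_39)) (pfC_sound p13_12_2_40))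
 (pfC_sound p13_12_2_41)) (pfC_sound p13_12_2_42)) (pfC_sound p13_12_2_43)) (pfC_sound p13_12_2_44)) (pfC_sound p13_12_2_45)) (pfC_sound p13_12_2_46)) (pfC_sound p13_12_2_47)) (pfC_sound p13_12_2_48)) (pfC_sound p13_12_2_49)) (pfC_sound p13_12_2_50)) (pfC_sound p13_12_2_51)) (pfC_sound p13_12_2_52)) (pfC_sound p13_12_2_53)) (pfC_sound p13_12_2_54)) (pfC_sound p13_12_2_55)) (pfC_sound p13_12_2_56)) (pfC_sound p13_12_2_57)) (pfC_sound p13_12_2_58)) (pfC_sound p13_12_2_59)) (pfC_sound p13_12_2_60)) (pfC_sound p13_12_2_61)) (pfC_sound p13_12_2_62)) (pfC_sound p13_12_2_63)) (pfC_sound p13_12_2_64)) (pfC_sound p13_12_2_65)) (pfC_sound p13_12_2_66)) (pfC_sound p13_12_2_67)) (pfC_sound p13_12_2_68)) (pfC_sound p13_12_2_69)) (pfC_sound p13_12_2_70)) (pfC_sound p13_12_2_71)) (pfC_sound p13_12_2_72)) (pfC_sound p13_12_2_73)) (pfC_sound p13_12_2_74)) (pfC_sound p13_12_2_75)) (pfC_sound p13_12_2_76)) (pfC_sound p13_12_2_77)) (pfC_sound p13_12_2_78)) (pfC_sound p13_12_2_79)) (pfC_sound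 p13_12_2_80)) (pfC_sound p13_12_2_81)) (pfC_sound p13_12_2_82)) (pfC_sound p13_12_2_83)) (pfC_sound p13_12_2_84)) (pfC_sound p13_12_2_85)) (pfC_sound p13_12_2_86)) (pfC_sound p13_12_2_87)) (pfC_sound p13_12_2_88))
 (pfC_sound p13_12_2_89)) (pfC_sound p13_12_2_90)) (pfC_sound p13_12_2_91)) (pfC_sound p13_12_2_92)) (pfC_sound p13_12_2_93)) (pfC_sound p13_12_2_94)) (pfC_sound p13_12_2_95)) (pfC_sound p13_12_2_96)) (pfC_sound p13_12_2_97)) (pfC_sound p13_12_2_98)) (pfC_sound p13_12_2_99)) (pfC_sound p13_12_2_100)) (pfC_sound p13_12_2_101)) (pfC_sound p13_12_2_102)) (pfC_sound p13_12_2_103)) (pfC_sound p13_12_2_104)) (pfC_sound p13_12_2_105)) (pfC_sound p13_12_2_106)) (pfC_sound p13_12_2_107)) (pfC_sound p13_12_2_108)) (pfC_sound p13_12_2_109)) (pfC_sound p13_12_2_110)) (pfC_sound p13_12_2_111)) (pfC_sound p13_12_2_112)) (pfC_sound p13_12_2_113)) (pfC_sound p13_12_2_114)) (pfC_sound p13_12_2_115)) (pfC_sound p13_12_2_116)) (pfC_sound p13_12_2_117)) (pfC_sound p13_12_2_118))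 (pfC_sound p13_12_2_119)) (pfC_sound p13_12_2_120)) (pfC_sound p13_12_2_121)) (pfC_sound p13_12_2_122)) (pfC_sound p13_12_2_123)) (pfC_sound p13_12_2_124)) (pfC_sound p13_12_2_125)) (by decide +kernel)

def z13_12_2 : zOK yB13_12 (nat_lit 2) (nat_lit 600) (nat_lit 750) (nat_lit 7113113) (nat_lit 5225610) = true := by decide +kernel
def g13_12_2 : gOK yB13_12.x P13_12 (nat_lit 1421) (q13_12 :: r13_12) (nat_lit 2) (nat_lit 600) (nat_lit 3) (nat_lit 750) (nat_lit 12712500) (nat_lit 12712500) (nat_lit 12712500) (nat_lit 12712500) [(nat_lit 800), (nat_lit 1600)] = true := by decide +kernel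
def v13_12_2 : ivC P13_12 s13_12 w13_12 n13_12 (nat_lit 4) (nat_lit 4820) (nat_lit 2) (nat_lit 600) f152_1_600 f160_1_600 (nat_lit 3) (nat_lit 750) f152_1_750 f160_1_750 (nat_lit 7113113) (nat_lit 5225610) p13_12_2 = true := by decide +kernel
def p13_12_3 : PF := (PF.cons (PF.cons (PF.cons (PF.cons (PF.leaf (nat_lit 2956286) (nat_lit 18670534) (nat_lit 48438278) (nat_lit 18670534) [(nat_lit 0), (nat_lit 0), (nat_lit 0), (nat_lit 0)]) (PF.cons (PF.leaf (nat_lit 3100141) (nat_lit 250067) (nat_lit 48221261) (nat_lit 18637484) [(nat_lit 250067), (nat_lit 0), (nat_lit 0), (nat_lit 0)]) (PF.cons (PF.leaf (nat_lit 3270912) (nat_lit 271654) (nat_lit 47967515) (nat_lit 18597988) [(nat_lit 271654), (nat_lit 0), (nat_lit 0), (nat_lit 0)]) (PF.cons (PF.leaf (nat_lit 3462358) (nat_lit 290725) (nat_lit 47683860) (nat_lit 18552776) [(nat_lit 290725), (nat_lit 0), (nat_lit 0), (nat_lit 0)]) (PF.cons (PF.leaf (nat_lit 3671516) (nat_lit 307842) (nat_lit 47375124) (nat_lit 18502319)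 [(nat_lit 307842), (nat_lit 0), (nat_lit 0), (nat_lit 0)]) (PF.cons (PF.leaf (nat_lit 3896066) (nat_lit 323366) (nat_lit 47045023) (nat_lit 18446957) [(nat_lit 323366), (nat_lit 0), (nat_lit 0), (nat_lit 0)]) (PF.cons (PF.leaf (nat_lit 4134126) (nat_lit 337547) (nat_lit 46696567) (nat_lit 18386961) [(nat_lit 337547), (nat_lit 0), (nat_lit 0), (nat_lit 0)]) (PF.cons (PF.leaf (nat_lit 4384103) (nat_lit 350566) (nat_lit 46332286) (nat_lit 18322560) [(nat_lit 350566), (nat_lit 0),
 (nat_lit 0), (nat_lit 0)]) (PF.cons (PF.leaf (nat_lit 4644714) (nat_lit 362561) (nat_lit 45954357) (nat_lit 18253961) [(nat_lit 362561), (nat_lit 0), (nat_lit 0), (nat_lit 0)]) (PF.cons PF.nil (PF.cons PF.nil (PF.cons PF.nil PF.nil)))))))))))) (PF.cons (PF.cons (PF.leaf (nat_lit 3463590) (nat_lit 1192264) (nat_lit 47411348) (nat_lit 18505200) [(nat_lit 0), (nat_lit 1192264), (nat_lit 0), (nat_lit 0)]) (PF.cons (PF.leaf (nat_lit 3649691) (nat_lit 300919) (nat_lit 47129608) (nat_lit 18458121)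 [(nat_lit 300919), (nat_lit 1220163), (nat_lit 0), (nat_lit 0)]) (PF.cons (PF.leaf (nat_lit 3855804) (nat_lit 317320) (nat_lit 46821371) (nat_lit 18405420) [(nat_lit 317320), (nat_lit 1247379), (nat_lit 0), (nat_lit 0)]) (PF.cons (PF.leaf (nat_lit 4077902) (nat_lit 332133) (nat_lit 46491296) (nat_lit 18347624) [(nat_lit 332133), (nat_lit 1273491), (nat_lit 0), (nat_lit 0)]) (PF.cons (PF.leaf (nat_lit 4313788) (nat_lit 345631) (nat_lit 46142877) (nat_lit 18285110) [(nat_lit 345631), (nat_lit 1298299), (nat_lit 0), (nat_lit 0)]) (PF.cons (PF.leaf (nat_lit 4561696) (nat_lit 358005) (nat_lit 45778896) (nat_lit 18218178) [(nat_lit 358005), (nat_lit 1321710), (nat_lit 0), (nat_lit 0)]) (PF.cons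
 (PF.leaf (nat_lit 4820225) (nat_lit 369394) (nat_lit 45401664) (nat_lit 18147081) [(nat_lit 369394), (nat_lit 1343700), (nat_lit 0), (nat_lit 0)]) (PF.cons (PF.leaf (nat_lit 5088091) (nat_lit 379905) (nat_lit 45013154) (nat_lit 18072046) [(nat_lit 379905), (nat_lit 1364274), (nat_lit 0), (nat_lit 0)]) (PF.cons PF.nil (PF.cons PF.nil PF.nil)))))))))) (PF.cons (PF.cons (PF.leaf (nat_lit 4043452) (nat_lit 1275756) (nat_lit 46255084) (nat_lit 18302216) [(nat_lit 0), (nat_lit 1275756), (nat_lit 0), (nat_lit 0)]) (PF.cons (PF.leaf (nat_lit 4260717) (nat_lit 339611) (nat_lit 45928582) (nat_lit 18242674) [(nat_lit 339611), (nat_lit 1298971), (nat_lit 0), (nat_lit 0)]) (PF.cons (PF.leaf (nat_lit 4493352) (nat_lit 352620) (nat_lit 45582900) (nat_lit 18178197) [(nat_lit 352620), (nat_lit 1321236), (nat_lit 0), (nat_lit 0)]) (PF.cons (PF.leaf (nat_lit 4738406) (nat_lit 364495) (nat_lit 45221362) (nat_lit 18109204) [(nat_lit 364495), (nat_lit 1342380), (nat_lit 0), (nat_lit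 0)]) (PF.cons (PF.leaf (nat_lit 4994244) (nat_lit 375391) (nat_lit 44846579) (nat_lit 18036021) [(nat_lit 375391), (nat_lit 1362323), (nat_lit 0), (nat_lit 0)]) (PF.cons (PF.leaf (nat_lit 5259530) (nat_lit 385424) (nat_lit
 44460691) (nat_lit 17958928) [(nat_lit 385424), (nat_lit 1381034), (nat_lit 0), (nat_lit 0)]) (PF.cons PF.nil (PF.cons PF.nil (PF.cons PF.nil PF.nil))))))))) (PF.cons (PF.cons (PF.leaf (nat_lit 4674462) (nat_lit 1341898) (nat_lit 45016856) (nat_lit 18066259) [(nat_lit 0), (nat_lit 1341898), (nat_lit 0), (nat_lit 0)]) (PF.cons (PF.leaf (nat_lit 4914966) (nat_lit 370085) (nat_lit 44660085) (nat_lit 17995747) [(nat_lit 370085), (nat_lit 1360964), (nat_lit 0), (nat_lit 0)]) (PF.cons (PF.leaf (nat_lit 5167394) (nat_lit 380599) (nat_lit 44289574) (nat_lit 17920937) [(nat_lit 380599), (nat_lit 1379033), (nat_lit 0), (nat_lit 0)]) (PF.cons (PF.leaf (nat_lit 5429506) (nat_lit 390243) (nat_lit 43907786) (nat_lit 17842185) [(nat_lit 390243), (nat_lit 1396037),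 (nat_lit 0), (nat_lit 0)]) (PF.cons (PF.leaf (nat_lit 5700005) (nat_lit 399115) (nat_lit 43516712) (nat_lit 17759788) [(nat_lit 399115), (nat_lit 1411949), (nat_lit 0), (nat_lit 0)]) (PF.cons PF.nil (PF.cons PF.nil PF.nil))))))) (PF.cons (PF.cons (PF.leaf (nat_lit 5340906) (nat_lit 1394024) (nat_lit 43730797) (nat_lit 17801918) [(nat_lit 0), (nat_lit 1394024), (nat_lit 0), (nat_lit 0)]) (PF.cons (PF.leaf (nat_lit 5598573) (nat_lit
 394389) (nat_lit 43354689) (nat_lit 17721952) [(nat_lit 394389), (nat_lit 1409445), (nat_lit 0), (nat_lit 0)]) (PF.cons (PF.leaf (nat_lit 5865523) (nat_lit 402946) (nat_lit 42968993) (nat_lit 17638300) [(nat_lit 402946), (nat_lit 1423906), (nat_lit 0), (nat_lit 0)]) (PF.cons (PF.leaf (nat_lit 6139947) (nat_lit 410806) (nat_lit 42575572) (nat_lit 17551275) [(nat_lit 410806), (nat_lit 1437386), (nat_lit 0), (nat_lit 0)]) (PF.cons PF.nil PF.nil))))) (PF.cons (PF.cons (PF.leaf (nat_lit 6030613) (nat_lit 1434511) (nat_lit 42422435) (nat_lit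 17513820) [(nat_lit 0), (nat_lit 1434511), (nat_lit 0), (nat_lit 0)]) (PF.cons (PF.leaf (nat_lit 6300641) (nat_lit 413795) (nat_lit 42035379) (nat_lit 17425920) [(nat_lit 413795), (nat_lit 1446743), (nat_lit 0), (nat_lit 0)]) (PF.cons PF.nil (PF.cons PF.nil PF.nil)))) (PF.cons (PF.cons (PF.leaf (nat_lit 6733972) (nat_lit 1465201) (nat_lit 41111087) (nat_lit 17206515) [(nat_lit 0), (nat_lit 1465201), (nat_lit 0), (nat_lit 0)]) (PF.cons PF.nil PF.nil)) (PF.cons PF.nil PF.nil)))))))) (PF.cons (PF.cons (PF.cons (PF.leaf (nat_lit 3976684) (nat_lit 3096088) (nat_lit 45808153) (nat_lit 18204571) [(nat_lit 0), (nat_lit 0), (nat_lit 3096088), (nat_lit 0)])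
 (PF.cons (PF.leaf (nat_lit 4170938) (nat_lit 321278) (nat_lit 45518508) (nat_lit 18150397) [(nat_lit 321278), (nat_lit 0), (nat_lit 3118628), (nat_lit 0)]) (PF.cons (PF.leaf (nat_lit 4384211) (nat_lit 336600) (nat_lit 45204038) (nat_lit 18090421) [(nat_lit 336600), (nat_lit 0), (nat_lit 3141152), (nat_lit 0)]) (PF.cons (PF.leaf (nat_lit 4612413) (nat_lit 350248) (nat_lit 44869621) (nat_lit 18025337) [(nat_lit 350248), (nat_lit 0), (nat_lit 3163107), (nat_lit 0)]) (PF.cons (PF.leaf (nat_lit 4853365) (nat_lit 362550) (nat_lit 44518830) (nat_lit 17955641) [(nat_lit 362550), (nat_lit 0), (nat_lit 3184140), (nat_lit 0)]) (PF.cons (PF.leaf (nat_lit 5105245) (nat_lit 373726) (nat_lit 44154445) (nat_lit 17881718) [(nat_lit 373726), (nat_lit 0), (nat_lit 3204018), (nat_lit 0)]) (PF.cons (PF.leaf (nat_lit 5366639) (nat_lit 383933) (nat_lit 43778729) (nat_lit 17803889) [(nat_lit 383933), (nat_lit 0), (nat_lit 3222591), (nat_lit 0)]) (PF.cons (PF.leaf (nat_lit 5636372) (nat_lit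 393291) (nat_lit 43393574) (nat_lit 17722432) [(nat_lit 393291), (nat_lit 0), (nat_lit 3239765), (nat_lit 0)]) (PF.cons PF.nil PF.nil))))))))) (PF.cons (PF.cons (PF.leaf (nat_lit 4567752) (nat_lit 1323609) (nat_lit
 44640744) (nat_lit 17976904) [(nat_lit 0), (nat_lit 1323609), (nat_lit 3167554), (nat_lit 0)]) (PF.cons (PF.leaf (nat_lit 4790248) (nat_lit 355826) (nat_lit 44312440) (nat_lit 17910822) [(nat_lit 355826), (nat_lit 1343120), (nat_lit 3186602), (nat_lit 0)]) (PF.cons (PF.leaf (nat_lit 5027077) (nat_lit 367793) (nat_lit 43966686) (nat_lit 17839877) [(nat_lit 367793), (nat_lit 1361723), (nat_lit 3204938), (nat_lit 0)]) (PF.cons (PF.leaf (nat_lit 5275415) (nat_lit 378603) (nat_lit 43606828) (nat_lit 17764585) [(nat_lit 378603), (nat_lit 1379291), (nat_lit 3222296), (nat_lit 0)]) (PF.cons (PF.leaf (nat_lit 5533545) (nat_lit 388437) (nat_lit 43235440) (nat_lit 17685345) [(nat_lit 388437), (nat_lit 1395771), (nat_lit 3238504), (nat_lit 0)]) (PF.cons (PF.leaf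 (nat_lit 5800149) (nat_lit 397424) (nat_lit 42854600) (nat_lit 17602487) [(nat_lit 397424), (nat_lit 1411148), (nat_lit 3253454), (nat_lit 0)]) (PF.cons PF.nil PF.nil))))))) (PF.cons (PF.cons (PF.leaf (nat_lit 5202343) (nat_lit 1377440) (nat_lit 43411113) (nat_lit 17719919) [(nat_lit 0), (nat_lit 1377440), (nat_lit 3222898), (nat_lit 0)]) (PF.cons (PF.leaf (nat_lit 5445470) (nat_lit 382719) (nat_lit 43057777) (nat_lit 17643790)
 [(nat_lit 382719), (nat_lit 1393309), (nat_lit 3237907), (nat_lit 0)]) (PF.cons (PF.leaf (nat_lit 5699615) (nat_lit 392276) (nat_lit 42692254) (nat_lit 17563578) [(nat_lit 392276), (nat_lit 1408253), (nat_lit 3251919), (nat_lit 0)]) (PF.cons (PF.leaf (nat_lit 5962579) (nat_lit 400967) (nat_lit 42316950) (nat_lit 17479696) [(nat_lit 400967), (nat_lit 1422227), (nat_lit 3264807), (nat_lit 0)]) (PF.cons (PF.leaf (nat_lit 6233096) (nat_lit 408904) (nat_lit 41933783) (nat_lit 17392481) [(nat_lit 408904), (nat_lit 1435217), (nat_lit 3276495), (nat_lit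 0)]) PF.nil))))) (PF.cons (PF.cons (PF.leaf (nat_lit 5866135) (nat_lit 1419352) (nat_lit 42149086) (nat_lit 17438641) [(nat_lit 0), (nat_lit 1419352), (nat_lit 3263025), (nat_lit 0)]) (PF.cons (PF.leaf (nat_lit 6124242) (nat_lit 403935) (nat_lit 41780664) (nat_lit 17354157) [(nat_lit 403935), (nat_lit 1432019), (nat_lit 3273996), (nat_lit 0)]) (PF.cons (PF.leaf (nat_lit 6390830) (nat_lit 411634) (nat_lit 41403955) (nat_lit 17266278) [(nat_lit 411634), (nat_lit 1443808), (nat_lit 3283883), (nat_lit 0)]) (PF.cons PF.nil PF.nil)))) (PF.cons (PF.cons (PF.leaf (nat_lit 6548238) (nat_lit 1451296) (nat_lit 40876475) (nat_lit 17137764) [(nat_lit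
 0), (nat_lit 1451296), (nat_lit 3289387), (nat_lit 0)]) (PF.cons (PF.leaf (nat_lit 6816897) (nat_lit 420684) (nat_lit 40500415) (nat_lit 17046497) [(nat_lit 420684), (nat_lit 1461162), (nat_lit 3296565), (nat_lit 0)]) PF.nil)) (PF.cons PF.nil PF.nil)))))) (PF.cons (PF.cons (PF.cons (PF.leaf (nat_lit 5081995) (nat_lit 3206882) (nat_lit 43063825) (nat_lit 17631222) [(nat_lit 0), (nat_lit 0), (nat_lit 3206882), (nat_lit 0)]) (PF.cons (PF.leaf (nat_lit 5307901) (nat_lit 368649) (nat_lit 42737797) (nat_lit 17559977) [(nat_lit 368649), (nat_lit 0), (nat_lit 3221193), (nat_lit 0)]) (PF.cons (PF.leaf (nat_lit 5547281) (nat_lit 379695) (nat_lit 42395867) (nat_lit 17484003) [(nat_lit 379695), (nat_lit 0), (nat_lit 3234776), (nat_lit 0)]) (PF.cons (PF.leaf (nat_lit 5797275) (nat_lit 389574) (nat_lit 42041343) (nat_lit 17403889) [(nat_lit 389574), (nat_lit 0), (nat_lit 3247428), (nat_lit 0)]) (PF.cons (PF.leaf (nat_lit 6056240) (nat_lit 398484) (nat_lit 41676738) (nat_lit 17320087)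 [(nat_lit 398484), (nat_lit 0), (nat_lit 3259023), (nat_lit 0)]) (PF.cons (PF.leaf (nat_lit 6322861) (nat_lit 406565) (nat_lit 41304049) (nat_lit 17232966) [(nat_lit 406565), (nat_lit 0), (nat_lit 3269485),
 (nat_lit 0)]) (PF.cons PF.nil PF.nil))))))) (PF.cons (PF.cons (PF.leaf (nat_lit 5716273) (nat_lit 1403021) (nat_lit 41855250) (nat_lit 17358328) [(nat_lit 0), (nat_lit 1403021), (nat_lit 3246106), (nat_lit 0)]) (PF.cons (PF.leaf (nat_lit 5960618) (nat_lit 392485) (nat_lit 41508449) (nat_lit 17277973) [(nat_lit 392485), (nat_lit 1416220), (nat_lit 3256841), (nat_lit 0)]) (PF.cons (PF.leaf (nat_lit 6215180) (nat_lit 401201) (nat_lit 41150795) (nat_lit 17193771) [(nat_lit 401201), (nat_lit 1428555), (nat_lit 3266643), (nat_lit 0)]) (PF.cons (PF.leaf (nat_lit 6477806) (nat_lit 409062) (nat_lit 40784615) (nat_lit 17106175) [(nat_lit 409062), (nat_lit 1439998), (nat_lit 3275418), (nat_lit 0)]) (PF.cons PF.nil PF.nil))))) (PF.cons (PF.cons (PF.leaf (nat_lit 6374632)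 (nat_lit 1436499) (nat_lit 40626120) (nat_lit 17064945) [(nat_lit 0), (nat_lit 1436499), (nat_lit 3272374), (nat_lit 0)]) (PF.cons (PF.leaf (nat_lit 6632099) (nat_lit 411058) (nat_lit 40267610) (nat_lit 16977270) [(nat_lit 411058), (nat_lit 1446852), (nat_lit 3279584), (nat_lit 0)]) (PF.cons (PF.leaf (nat_lit 6897346) (nat_lit 418006) (nat_lit 39901898) (nat_lit 16886481) [(nat_lit 418006), (nat_lit 1456399), (nat_lit
 3285809), (nat_lit 0)]) (PF.cons PF.nil PF.nil)))) (PF.cons (PF.cons (PF.leaf (nat_lit 7047237) (nat_lit 1461343) (nat_lit 39395191) (nat_lit 16755674) [(nat_lit 0), (nat_lit 1461343), (nat_lit 3286958), (nat_lit 0)]) (PF.cons PF.nil PF.nil)) (PF.cons PF.nil PF.nil))))) (PF.cons (PF.cons (PF.cons (PF.leaf (nat_lit 6215294) (nat_lit 3255092) (nat_lit 40356458) (nat_lit 16987077) [(nat_lit 0), (nat_lit 0), (nat_lit 3255092), (nat_lit 0)]) (PF.cons (PF.leaf (nat_lit 6459705) (nat_lit 399881) (nat_lit 40018357) (nat_lit 16903709) [(nat_lit 399881), (nat_lit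 0), (nat_lit 3262288), (nat_lit 0)]) (PF.cons (PF.leaf (nat_lit 6713659) (nat_lit 407854) (nat_lit 39670549) (nat_lit 16816736) [(nat_lit 407854), (nat_lit 0), (nat_lit 3268605), (nat_lit 0)]) (PF.cons (PF.leaf (nat_lit 6975016) (nat_lit 414984) (nat_lit 39315273) (nat_lit 16726638) [(nat_lit 414984), (nat_lit 0), (nat_lit 3273982), (nat_lit 0)]) (PF.cons PF.nil PF.nil))))) (PF.cons (PF.cons (PF.leaf (nat_lit 6866081) (nat_lit 1446998) (nat_lit 39166102) (nat_lit 16685705) [(nat_lit 0), (nat_lit 1446998), (nat_lit 3270002), (nat_lit 0)]) (PF.cons (PF.leaf (nat_lit 7122052) (nat_lit 416174) (nat_lit 38818975) (nat_lit 16595966)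
 [(nat_lit 416174), (nat_lit 1455396), (nat_lit 3274100), (nat_lit 0)]) (PF.cons PF.nil (PF.cons PF.nil PF.nil)))) (PF.cons (PF.cons (PF.leaf (nat_lit 7527823) (nat_lit 1465905) (nat_lit 37980480) (nat_lit 16371697) [(nat_lit 0), (nat_lit 1465905), (nat_lit 3274941), (nat_lit 0)]) (PF.cons PF.nil PF.nil)) PF.nil))) (PF.cons (PF.cons (PF.cons (PF.leaf (nat_lit 7340516) (nat_lit 3258249) (nat_lit 37770931) (nat_lit 16304882) [(nat_lit 0), (nat_lit 0), (nat_lit 3258249), (nat_lit 0)]) (PF.cons (PF.leaf (nat_lit 7594330) (nat_lit 419619) (nat_lit 37436099) (nat_lit 16214019) [(nat_lit 419619), (nat_lit 0), (nat_lit 3259768), (nat_lit 0)]) (PF.cons PF.nil PF.nil))) (PF.cons (PF.cons (PF.leaf (nat_lit 7990421) (nat_lit 1465993) (nat_lit 36632546) (nat_lit 15989137) [(nat_lit 0), (nat_lit 1465993), (nat_lit 3255283), (nat_lit 0)]) PF.nil) PF.nil)) (PF.cons PF.nil PF.nil)))))) (PF.cons (PF.cons (PF.cons (PF.cons (PF.leaf (nat_lit 4897319) (nat_lit 8661605) (nat_lit 41316435)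 (nat_lit 17130771) [(nat_lit 0), (nat_lit 0), (nat_lit 0), (nat_lit 8661605)]) (PF.cons (PF.leaf (nat_lit 5089680) (nat_lit 329544) (nat_lit 41055765) (nat_lit 17071125) [(nat_lit 329544), (nat_lit 0), (nat_lit 0),
 (nat_lit 8652377)]) (PF.cons (PF.leaf (nat_lit 5299740) (nat_lit 343897) (nat_lit 40773855) (nat_lit 17005767) [(nat_lit 343897), (nat_lit 0), (nat_lit 0), (nat_lit 8641393)]) (PF.cons (PF.leaf (nat_lit 5523509) (nat_lit 356458) (nat_lit 40475202) (nat_lit 16935576) [(nat_lit 356458), (nat_lit 0), (nat_lit 0), (nat_lit 8628658)]) (PF.cons (PF.leaf (nat_lit 5758620) (nat_lit 367596) (nat_lit 40163066) (nat_lit 16861182) [(nat_lit 367596), (nat_lit 0), (nat_lit 0), (nat_lit 8614176)]) (PF.cons (PF.leaf (nat_lit 6003416) (nat_lit 377564) (nat_lit 39839958) (nat_lit 16783071) [(nat_lit 377564), (nat_lit 0), (nat_lit 0), (nat_lit 8597958)]) (PF.cons (PF.leaf (nat_lit 6256437) (nat_lit 386543) (nat_lit 39507889) (nat_lit 16701637) [(nat_lit 386543), (nat_lit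 0), (nat_lit 0), (nat_lit 8580024)]) (PF.cons (PF.leaf (nat_lit 6516543) (nat_lit 394668) (nat_lit 39168515) (nat_lit 16617212) [(nat_lit 394668), (nat_lit 0), (nat_lit 0), (nat_lit 8560402)]) (PF.cons PF.nil PF.nil))))))))) (PF.cons (PF.cons (PF.leaf (nat_lit 5469297) (nat_lit 1332146) (nat_lit 40276147) (nat_lit 16885519) [(nat_lit 0), (nat_lit 1332146), (nat_lit 0), (nat_lit 8614999)]) (PF.cons (PF.leaf (nat_lit 5686568) (nat_lit
 360221) (nat_lit 39984450) (nat_lit 16815405) [(nat_lit 360221), (nat_lit 1347870), (nat_lit 0), (nat_lit 8600865)]) (PF.cons (PF.leaf (nat_lit 5916967) (nat_lit 371101) (nat_lit 39678214) (nat_lit 16740821) [(nat_lit 371101), (nat_lit 1362624), (nat_lit 0), (nat_lit 8584948)]) (PF.cons (PF.leaf (nat_lit 6157583) (nat_lit 380782) (nat_lit 39360443) (nat_lit 16662382) [(nat_lit 380782), (nat_lit 1376345), (nat_lit 0), (nat_lit 8567293)]) (PF.cons (PF.leaf (nat_lit 6406833) (nat_lit 389466) (nat_lit 39033426) (nat_lit 16580559) [(nat_lit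 389466), (nat_lit 1389020), (nat_lit 0), (nat_lit 8547942)]) (PF.cons (PF.leaf (nat_lit 6663418) (nat_lit 397298) (nat_lit 38698981) (nat_lit 16495730) [(nat_lit 397298), (nat_lit 1400667), (nat_lit 0), (nat_lit 8526941)]) (PF.cons PF.nil PF.nil))))))) (PF.cons (PF.cons (PF.leaf (nat_lit 6076719) (nat_lit 1372919) (nat_lit 39192070) (nat_lit 16617715) [(nat_lit 0), (nat_lit 1372919), (nat_lit 0), (nat_lit 8553187)]) (PF.cons (PF.leaf (nat_lit 6311696) (nat_lit 383353) (nat_lit 38881200) (nat_lit 16539423) [(nat_lit 383353), (nat_lit 1385262), (nat_lit 0), (nat_lit 8534309)]) (PF.cons (PF.leaf (nat_lit 6556572) (nat_lit 391834) (nat_lit 38560405)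
 (nat_lit 16457589) [(nat_lit 391834), (nat_lit 1396708), (nat_lit 0), (nat_lit 8513731)]) (PF.cons (PF.leaf (nat_lit 6809197) (nat_lit 399445) (nat_lit 38231796) (nat_lit 16372671) [(nat_lit 399445), (nat_lit 1407245), (nat_lit 0), (nat_lit 8491518)]) (PF.cons (PF.leaf (nat_lit 7068363) (nat_lit 406308) (nat_lit 37897035) (nat_lit 16285038) [(nat_lit 406308), (nat_lit 1416884), (nat_lit 0), (nat_lit 8467735)]) PF.nil))))) (PF.cons (PF.cons (PF.leaf (nat_lit 6706891) (nat_lit 1403350) (nat_lit 38088579) (nat_lit 16332719) [(nat_lit 0), (nat_lit 1403350), (nat_lit 0), (nat_lit 8477461)]) (PF.cons (PF.leaf (nat_lit 6954395) (nat_lit 401115) (nat_lit 37766833) (nat_lit 16248066) [(nat_lit 401115), (nat_lit 1412858), (nat_lit 0), (nat_lit 8454220)]) (PF.cons (PF.leaf (nat_lit 7209452) (nat_lit 407810) (nat_lit 37438478) (nat_lit 16160607) [(nat_lit 407810), (nat_lit 1421561), (nat_lit 0), (nat_lit 8429421)]) (PF.cons PF.nil PF.nil)))) (PF.cons (PF.cons (PF.leaf (nat_lit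 7350538) (nat_lit 1425419) (nat_lit 36982733) (nat_lit 16034937) [(nat_lit 0), (nat_lit 1425419), (nat_lit 0), (nat_lit 8389463)]) (PF.cons (PF.leaf (nat_lit 7606687) (nat_lit 414796) (nat_lit 36656113) (nat_lit
 15945434) [(nat_lit 414796), (nat_lit 1432529), (nat_lit 0), (nat_lit 8362349)]) PF.nil)) (PF.cons PF.nil PF.nil)))))) (PF.cons (PF.cons (PF.cons (PF.leaf (nat_lit 5943939) (nat_lit 3154697) (nat_lit 38902708) (nat_lit 16533380) [(nat_lit 0), (nat_lit 0), (nat_lit 3154697), (nat_lit 8518026)]) (PF.cons (PF.leaf (nat_lit 6162961) (nat_lit 369209) (nat_lit 38615697) (nat_lit 16460472) [(nat_lit 369209), (nat_lit 0), (nat_lit 3163211), (nat_lit 8500222)]) (PF.cons (PF.leaf (nat_lit 6394324) (nat_lit 379261) (nat_lit 38315398) (nat_lit 16383281) [(nat_lit 379261), (nat_lit 0), (nat_lit 3170979), (nat_lit 8480629)]) (PF.cons (PF.leaf (nat_lit 6635216) (nat_lit 388125) (nat_lit 38004742) (nat_lit 16302462) [(nat_lit 388125), (nat_lit 0), (nat_lit 3177884), (nat_lit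 8459347)]) (PF.cons (PF.leaf (nat_lit 6884046) (nat_lit 396015) (nat_lit 37685931) (nat_lit 16218507) [(nat_lit 396015), (nat_lit 0), (nat_lit 3183855), (nat_lit 8436456)]) (PF.cons (PF.leaf (nat_lit 7139555) (nat_lit 403083) (nat_lit 37360697) (nat_lit 16131810) [(nat_lit 403083), (nat_lit 0), (nat_lit 3188859), (nat_lit 8412029)]) (PF.cons PF.nil PF.nil))))))) (PF.cons (PF.cons (PF.leaf (nat_lit 6548043) (nat_lit 1386810)
 (nat_lit 37845502) (nat_lit 16258107) [(nat_lit 0), (nat_lit 1386810), (nat_lit 3174340), (nat_lit 8444051)]) (PF.cons (PF.leaf (nat_lit 6783031) (nat_lit 389769) (nat_lit 37542407) (nat_lit 16177846) [(nat_lit 389769), (nat_lit 1397049), (nat_lit 3179857), (nat_lit 8421883)]) (PF.cons (PF.leaf (nat_lit 7027249) (nat_lit 397530) (nat_lit 37230402) (nat_lit 16094268) [(nat_lit 397530), (nat_lit 1406458), (nat_lit 3184535), (nat_lit 8398086)]) (PF.cons (PF.leaf (nat_lit 7278605) (nat_lit 404441) (nat_lit 36911513) (nat_lit 16007849) [(nat_lit 404441),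 (nat_lit 1415037), (nat_lit 3188330), (nat_lit 8372758)]) (PF.cons PF.nil PF.nil))))) (PF.cons (PF.cons (PF.leaf (nat_lit 7171130) (nat_lit 1410808) (nat_lit 36776743) (nat_lit 15968566) [(nat_lit 0), (nat_lit 1410808), (nat_lit 3183870), (nat_lit 8358014)]) (PF.cons (PF.leaf (nat_lit 7417216) (nat_lit 405382) (nat_lit 36465098) (nat_lit 15882755) [(nat_lit 405382), (nat_lit 1418533), (nat_lit 3186553), (nat_lit 8331955)]) (PF.cons (PF.leaf (nat_lit 7670286) (nat_lit 411454) (nat_lit 36147635) (nat_lit 15794370) [(nat_lit 411454), (nat_lit 1425521), (nat_lit 3188403), (nat_lit 8304450)]) (PF.cons PF.nil PF.nil)))) (PF.cons (PF.cons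
 (PF.leaf (nat_lit 7804776) (nat_lit 1427562) (nat_lit 35711142) (nat_lit 15668896) [(nat_lit 0), (nat_lit 1427562), (nat_lit 3184502), (nat_lit 8261584)]) (PF.cons PF.nil PF.nil)) (PF.cons PF.nil PF.nil))))) (PF.cons (PF.cons (PF.cons (PF.leaf (nat_lit 7005387) (nat_lit 3166257) (nat_lit 36553910) (nat_lit 15897371) [(nat_lit 0), (nat_lit 0), (nat_lit 3166257), (nat_lit 8325015)]) (PF.cons (PF.leaf (nat_lit 7239594) (nat_lit 394430) (nat_lit 36259745) (nat_lit 15815945) [(nat_lit 394430), (nat_lit 0), (nat_lit 3169241), (nat_lit 8300210)]) (PF.cons (PF.leaf (nat_lit 7482472) (nat_lit 401555) (nat_lit 35957547) (nat_lit 15731419) [(nat_lit 401555), (nat_lit 0), (nat_lit 3171441), (nat_lit 8273853)]) (PF.cons (PF.leaf (nat_lit 7731932) (nat_lit 407850) (nat_lit 35649250) (nat_lit 15644279) [(nat_lit 407850), (nat_lit 0), (nat_lit 3172831), (nat_lit 8246068)]) (PF.cons PF.nil PF.nil))))) (PF.cons (PF.cons (PF.leaf (nat_lit 7620087) (nat_lit 1413619) (nat_lit 35522643)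 (nat_lit 15605907) [(nat_lit 0), (nat_lit 1413619), (nat_lit 3167860), (nat_lit 8230921)]) (PF.cons (PF.leaf (nat_lit 7864185) (nat_lit 408186) (nat_lit 35221784) (nat_lit 15519650) [(nat_lit 408186), (nat_lit 1419834),
 (nat_lit 3168349), (nat_lit 8202656)]) (PF.cons PF.nil (PF.cons PF.nil PF.nil)))) (PF.cons (PF.cons (PF.leaf (nat_lit 8242972) (nat_lit 1425922) (nat_lit 34498601) (nat_lit 15306583) [(nat_lit 0), (nat_lit 1425922), (nat_lit 3161853), (nat_lit 8128076)]) (PF.cons PF.nil PF.nil)) PF.nil))) (PF.cons (PF.cons (PF.cons (PF.leaf (nat_lit 8054047) (nat_lit 3145794) (nat_lit 34326034) (nat_lit 15246994) [(nat_lit 0), (nat_lit 0), (nat_lit 3145794), (nat_lit 8098401)]) (PF.cons (PF.leaf (nat_lit 8295722) (nat_lit 409773) (nat_lit 34036319) (nat_lit 15160877) [(nat_lit 409773), (nat_lit 0), (nat_lit 3144464), (nat_lit 8068448)]) PF.nil)) (PF.cons PF.nil PF.nil)) (PF.cons PF.nil PF.nil))))) (PF.cons (PF.cons (PF.cons (PF.cons (PF.leaf (nat_lit 6710416) (nat_lit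 8127509) (nat_lit 35360602) (nat_lit 15493190) [(nat_lit 0), (nat_lit 0), (nat_lit 0), (nat_lit 8127509)]) (PF.cons (PF.leaf (nat_lit 6921800) (nat_lit 365207) (nat_lit 35109032) (nat_lit 15422239) [(nat_lit 365207), (nat_lit 0), (nat_lit 0), (nat_lit 8106166)]) (PF.cons (PF.leaf (nat_lit 7144632) (nat_lit 374430) (nat_lit 34846220) (nat_lit 15347442) [(nat_lit 374430), (nat_lit 0), (nat_lit 0), (nat_lit 8083144)]) (PF.cons (PF.leaf
 (nat_lit 7376132) (nat_lit 382472) (nat_lit 34574732) (nat_lit 15269458) [(nat_lit 382472), (nat_lit 0), (nat_lit 0), (nat_lit 8058602)]) (PF.cons (PF.leaf (nat_lit 7614774) (nat_lit 389554) (nat_lit 34296486) (nat_lit 15188782) [(nat_lit 389554), (nat_lit 0), (nat_lit 0), (nat_lit 8032662)]) (PF.cons PF.nil (PF.cons PF.nil PF.nil))))))) (PF.cons (PF.cons (PF.leaf (nat_lit 7285348) (nat_lit 1357390) (nat_lit 34438497) (nat_lit 15227853) [(nat_lit 0), (nat_lit 1357390), (nat_lit 0), (nat_lit 8042536)]) (PF.cons (PF.leaf (nat_lit 7510861)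 (nat_lit 383249) (nat_lit 34174004) (nat_lit 15150849) [(nat_lit 383249), (nat_lit 1365516), (nat_lit 0), (nat_lit 8017596)]) (PF.cons (PF.leaf (nat_lit 7744854) (nat_lit 390251) (nat_lit 33902046) (nat_lit 15070962) [(nat_lit 390251), (nat_lit 1372858), (nat_lit 0), (nat_lit 7991221)]) (PF.cons (PF.leaf (nat_lit 7985277) (nat_lit 396423) (nat_lit 33624375) (nat_lit 14988660) [(nat_lit 396423), (nat_lit 1379431), (nat_lit 0), (nat_lit 7963537)]) (PF.cons PF.nil PF.nil))))) (PF.cons (PF.cons (PF.leaf (nat_lit 7875816) (nat_lit 1374860) (nat_lit 33509527) (nat_lit 14952291) [(nat_lit 0), (nat_lit 1374860), (nat_lit 0), (nat_lit 7948636)]) (PF.cons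
 (PF.leaf (nat_lit 8110991) (nat_lit 396658) (nat_lit 33238414) (nat_lit 14870941) [(nat_lit 396658), (nat_lit 1380752), (nat_lit 0), (nat_lit 7920646)]) (PF.cons PF.nil (PF.cons PF.nil PF.nil)))) (PF.cons (PF.cons (PF.leaf (nat_lit 8474460) (nat_lit 1386159) (nat_lit 32585475) (nat_lit 14670135) [(nat_lit 0), (nat_lit 1386159), (nat_lit 0), (nat_lit 7847362)]) (PF.cons PF.nil PF.nil)) (PF.cons PF.nil PF.nil))))) (PF.cons (PF.cons (PF.cons (PF.leaf (nat_lit 7707323) (nat_lit 3060840) (nat_lit 33324459) (nat_lit 14888550) [(nat_lit 0), (nat_lit 0), (nat_lit 3060840), (nat_lit 7917481)]) (PF.cons (PF.leaf (nat_lit 7931601) (nat_lit 386095) (nat_lit 33068277) (nat_lit 14811406) [(nat_lit 386095), (nat_lit 0), (nat_lit 3061164), (nat_lit 7890934)]) (PF.cons (PF.leaf (nat_lit 8163864) (nat_lit 392546) (nat_lit 32805314) (nat_lit 14731569) [(nat_lit 392546), (nat_lit 0), (nat_lit 3060787), (nat_lit 7863024)]) (PF.cons PF.nil PF.nil)))) (PF.cons (PF.cons (PF.leaf (nat_lit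 8289293) (nat_lit 1372915) (nat_lit 32429352) (nat_lit 14614292) [(nat_lit 0), (nat_lit 1372915), (nat_lit 3054316), (nat_lit 7818968)]) (PF.cons (PF.leaf (nat_lit 8522271) (nat_lit 397963) (nat_lit 32167887) (nat_lit
 14533355) [(nat_lit 397963), (nat_lit 1377613), (nat_lit 3052586), (nat_lit 7789703)]) PF.nil)) (PF.cons PF.nil PF.nil))) (PF.cons (PF.cons (PF.cons (PF.leaf (nat_lit 8689585) (nat_lit 3026782) (nat_lit 31398619) (nat_lit 14282473) [(nat_lit 0), (nat_lit 0), (nat_lit 3026782), (nat_lit 7687078)]) (PF.cons PF.nil PF.nil)) (PF.cons PF.nil PF.nil)) PF.nil))) (PF.cons (PF.cons (PF.cons (PF.cons (PF.leaf (nat_lit 8338866) (nat_lit 7524544) (nat_lit 30566434) (nat_lit 13968745) [(nat_lit 0), (nat_lit 0), (nat_lit 0), (nat_lit 7524544)]) (PF.cons (PF.leaf (nat_lit 8553725) (nat_lit 376271) (nat_lit 30342482) (nat_lit 13896798) [(nat_lit 376271), (nat_lit 0), (nat_lit 0), (nat_lit 7497753)]) (PF.cons (PF.leaf (nat_lit 8776103) (nat_lit 382174) (nat_lit 30112715)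 (nat_lit 13822485) [(nat_lit 382174), (nat_lit 0), (nat_lit 0), (nat_lit 7469754)]) (PF.cons PF.nil PF.nil)))) (PF.cons (PF.cons (PF.leaf (nat_lit 8891344) (nat_lit 1329122) (nat_lit 29786095) (nat_lit 13714262) [(nat_lit 0), (nat_lit 1329122), (nat_lit 0), (nat_lit 7426444)]) (PF.cons PF.nil PF.nil)) (PF.cons PF.nil PF.nil))) (PF.cons (PF.cons (PF.cons (PF.leaf (nat_lit 9263296) (nat_lit 2907821) (nat_lit 28892960) (nat_lit
 13410334) [(nat_lit 0), (nat_lit 0), (nat_lit 2907821), (nat_lit 7299232)]) (PF.cons PF.nil PF.nil)) PF.nil) PF.nil)) (PF.cons PF.nil (PF.cons PF.nil (PF.cons PF.nil (PF.cons PF.nil PF.nil))))))))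

def p13_12_3_0 : pfC (piC [(nat_lit 40173837), (nat_lit 25770221), (nat_lit 19310217), (nat_lit 12946273)] (nat_lit 5225610)) p13_12_3 (nat_lit 4) (nat_lit 0) (nat_lit 1) = true := by decide +kernel
def p13_12_3_1 : pfC (piC [(nat_lit 40173837), (nat_lit 25770221), (nat_lit 19310217), (nat_lit 12946273)] (nat_lit 5225610)) p13_12_3 (nat_lit 4) (nat_lit 1) (nat_lit 2) = true := by decide +kernel
def p13_12_3_2 : pfC (piC [(nat_lit 40173837), (nat_lit 25770221), (nat_lit 19310217), (nat_lit 12946273)] (nat_lit 5225610)) p13_12_3 (nat_lit 4) (nat_lit 2) (nat_lit 3) = true := by decide +kernel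
def p13_12_3_3 : pfC (piC [(nat_lit 40173837), (nat_lit 25770221), (nat_lit 19310217), (nat_lit 12946273)] (nat_lit 5225610)) p13_12_3 (nat_lit 4) (nat_lit 3) (nat_lit 4) = true := by decide +kernel
def p13_12_3_4 : pfC (piC [(nat_lit 40173837), (nat_lit 25770221), (nat_lit 19310217), (nat_lit 12946273)] (nat_lit 5225610)) p13_12_3 (nat_lit 4) (nat_lit 4) (nat_lit 5) = true := by decide +kernel
def p13_12_3_5 : pfC (piC [(nat_lit 40173837), (nat_lit 25770221), (nat_lit 19310217), (nat_lit 12946273)] (nat_lit 5225610)) p13_12_3 (nat_lit 4) (nat_lit 5) (nat_lit 6) = true := by decide +kernel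
def p13_12_3_6 : pfC (piC [(nat_lit 40173837), (nat_lit 25770221), (nat_lit 19310217), (nat_lit 12946273)] (nat_lit 5225610)) p13_12_3 (nat_lit 4) (nat_lit 6) (nat_lit 7) = true := by decide +kernel
def p13_12_3_7 : pfC (piC [(nat_lit 40173837), (nat_lit 25770221), (nat_lit 19310217), (nat_lit 12946273)] (nat_lit 5225610)) p13_12_3 (nat_lit 4) (nat_lit 7) (nat_lit 8) = true := by decide +kernel
def p13_12_3_8 : pfC (piC [(nat_lit 40173837), (nat_lit 25770221), (nat_lit 19310217), (nat_lit 12946273)] (nat_lit 5225610)) p13_12_3 (nat_lit 4) (nat_lit 8) (nat_lit 9) = true := by decide +kernel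
def p13_12_3_9 : pfC (piC [(nat_lit 40173837), (nat_lit 25770221), (nat_lit 19310217), (nat_lit 12946273)] (nat_lit 5225610)) p13_12_3 (nat_lit 4) (nat_lit 9) (nat_lit 10) = true := by decide +kernel
def p13_12_3_10 : pfC (piC [(nat_lit 40173837), (nat_lit 25770221), (nat_lit 19310217), (nat_lit 12946273)] (nat_lit 5225610)) p13_12_3 (nat_lit 4) (nat_lit 10) (nat_lit 11) = true := by decide +kernel
def p13_12_3_11 : pfC (piC [(nat_lit 40173837), (nat_lit 25770221), (nat_lit 19310217), (nat_lit 12946273)] (nat_lit 5225610)) p13_12_3 (nat_lit 4) (nat_lit 11) (nat_lit 12) = true := by decide +kernel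
def p13_12_3_12 : pfC (piC [(nat_lit 40173837), (nat_lit 25770221), (nat_lit 19310217), (nat_lit 12946273)] (nat_lit 5225610)) p13_12_3 (nat_lit 4) (nat_lit 12) (nat_lit 13) = true := by decide +kernel
def p13_12_3_13 : pfC (piC [(nat_lit 40173837), (nat_lit 25770221), (nat_lit 19310217), (nat_lit 12946273)] (nat_lit 5225610)) p13_12_3 (nat_lit 4) (nat_lit 13) (nat_lit 14) = true := by decide +kernel
def p13_12_3_14 : pfC (piC [(nat_lit 40173837), (nat_lit 25770221), (nat_lit 19310217), (nat_lit 12946273)] (nat_lit 5225610)) p13_12_3 (nat_lit 4) (nat_lit 14) (nat_lit 15) = true := by decide +kernel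
def p13_12_3_15 : pfC (piC [(nat_lit 40173837), (nat_lit 25770221), (nat_lit 19310217), (nat_lit 12946273)] (nat_lit 5225610)) p13_12_3 (nat_lit 4) (nat_lit 15) (nat_lit 16) = true := by decide +kernel
def p13_12_3_16 : pfC (piC [(nat_lit 40173837), (nat_lit 25770221), (nat_lit 19310217), (nat_lit 12946273)] (nat_lit 5225610)) p13_12_3 (nat_lit 4) (nat_lit 16) (nat_lit 17) = true := by decide +kernel
def p13_12_3_17 : pfC (piC [(nat_lit 40173837), (nat_lit 25770221), (nat_lit 19310217), (nat_lit 12946273)] (nat_lit 5225610)) p13_12_3 (nat_lit 4) (nat_lit 17) (nat_lit 18) = true := by decide +kernel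
def p13_12_3_18 : pfC (piC [(nat_lit 40173837), (nat_lit 25770221), (nat_lit 19310217), (nat_lit 12946273)] (nat_lit 5225610)) p13_12_3 (nat_lit 4) (nat_lit 18) (nat_lit 19) = true := by decide +kernel
def p13_12_3_19 : pfC (piC [(nat_lit 40173837), (nat_lit 25770221), (nat_lit 19310217), (nat_lit 12946273)] (nat_lit 5225610)) p13_12_3 (nat_lit 4) (nat_lit 19) (nat_lit 20) = true := by decide +kernel
def p13_12_3_20 : pfC (piC [(nat_lit 40173837), (nat_lit 25770221), (nat_lit 19310217), (nat_lit 12946273)] (nat_lit 5225610)) p13_12_3 (nat_lit 4) (nat_lit 20) (nat_lit 21) = true := by decide +kernel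
def p13_12_3_21 : pfC (piC [(nat_lit 40173837), (nat_lit 25770221), (nat_lit 19310217), (nat_lit 12946273)] (nat_lit 5225610)) p13_12_3 (nat_lit 4) (nat_lit 21) (nat_lit 22) = true := by decide +kernel
def p13_12_3_22 : pfC (piC [(nat_lit 40173837), (nat_lit 25770221), (nat_lit 19310217), (nat_lit 12946273)] (nat_lit 5225610)) p13_12_3 (nat_lit 4) (nat_lit 22) (nat_lit 23) = true := by decide +kernel
def p13_12_3_23 : pfC (piC [(nat_lit 40173837), (nat_lit 25770221), (nat_lit 19310217), (nat_lit 12946273)] (nat_lit 5225610)) p13_12_3 (nat_lit 4) (nat_lit 23) (nat_lit 24) = true := by decide +kernel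
def p13_12_3_24 : pfC (piC [(nat_lit 40173837), (nat_lit 25770221), (nat_lit 19310217), (nat_lit 12946273)] (nat_lit 5225610)) p13_12_3 (nat_lit 4) (nat_lit 24) (nat_lit 25) = true := by decide +kernel
def p13_12_3_25 : pfC (piC [(nat_lit 40173837), (nat_lit 25770221), (nat_lit 19310217), (nat_lit 12946273)] (nat_lit 5225610)) p13_12_3 (nat_lit 4) (nat_lit 25) (nat_lit 26) = true := by decide +kernel
def p13_12_3_26 : pfC (piC [(nat_lit 40173837), (nat_lit 25770221), (nat_lit 19310217), (nat_lit 12946273)] (nat_lit 5225610)) p13_12_3 (nat_lit 4) (nat_lit 26) (nat_lit 27) = true := by decide +kernel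
def p13_12_3_27 : pfC (piC [(nat_lit 40173837), (nat_lit 25770221), (nat_lit 19310217), (nat_lit 12946273)] (nat_lit 5225610)) p13_12_3 (nat_lit 4) (nat_lit 27) (nat_lit 28) = true := by decide +kernel
def p13_12_3_28 : pfC (piC [(nat_lit 40173837), (nat_lit 25770221), (nat_lit 19310217), (nat_lit 12946273)] (nat_lit 5225610)) p13_12_3 (nat_lit 4) (nat_lit 28) (nat_lit 29) = true := by decide +kernel
def p13_12_3_29 : pfC (piC [(nat_lit 40173837), (nat_lit 25770221), (nat_lit 19310217), (nat_lit 12946273)] (nat_lit 5225610)) p13_12_3 (nat_lit 4) (nat_lit 29) (nat_lit 30) = true := by decide +kernel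
def p13_12_3_30 : pfC (piC [(nat_lit 40173837), (nat_lit 25770221), (nat_lit 19310217), (nat_lit 12946273)] (nat_lit 5225610)) p13_12_3 (nat_lit 4) (nat_lit 30) (nat_lit 31) = true := by decide +kernel
def p13_12_3_31 : pfC (piC [(nat_lit 40173837), (nat_lit 25770221), (nat_lit 19310217), (nat_lit 12946273)] (nat_lit 5225610)) p13_12_3 (nat_lit 4) (nat_lit 31) (nat_lit 32) = true := by decide +kernel
def p13_12_3_32 : pfC (piC [(nat_lit 40173837), (nat_lit 25770221), (nat_lit 19310217), (nat_lit 12946273)] (nat_lit 5225610)) p13_12_3 (nat_lit 4) (nat_lit 32) (nat_lit 33) = true := by decide +kernel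
def p13_12_3_33 : pfC (piC [(nat_lit 40173837), (nat_lit 25770221), (nat_lit 19310217), (nat_lit 12946273)] (nat_lit 5225610)) p13_12_3 (nat_lit 4) (nat_lit 33) (nat_lit 34) = true := by decide +kernel
def p13_12_3_34 : pfC (piC [(nat_lit 40173837), (nat_lit 25770221), (nat_lit 19310217), (nat_lit 12946273)] (nat_lit 5225610)) p13_12_3 (nat_lit 4) (nat_lit 34) (nat_lit 35) = true := by decide +kernel
def p13_12_3_35 : pfC (piC [(nat_lit 40173837), (nat_lit 25770221), (nat_lit 19310217), (nat_lit 12946273)] (nat_lit 5225610)) p13_12_3 (nat_lit 4) (nat_lit 35) (nat_lit 36) = true := by decide +kernel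
def p13_12_3_36 : pfC (piC [(nat_lit 40173837), (nat_lit 25770221), (nat_lit 19310217), (nat_lit 12946273)] (nat_lit 5225610)) p13_12_3 (nat_lit 4) (nat_lit 36) (nat_lit 37) = true := by decide +kernel
def p13_12_3_37 : pfC (piC [(nat_lit 40173837), (nat_lit 25770221), (nat_lit 19310217), (nat_lit 12946273)] (nat_lit 5225610)) p13_12_3 (nat_lit 4) (nat_lit 37) (nat_lit 38) = true := by decide +kernel
def p13_12_3_38 : pfC (piC [(nat_lit 40173837), (nat_lit 25770221), (nat_lit 19310217), (nat_lit 12946273)] (nat_lit 5225610)) p13_12_3 (nat_lit 4) (nat_lit 38) (nat_lit 39) = true := by decide +kernel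
def p13_12_3_39 : pfC (piC [(nat_lit 40173837), (nat_lit 25770221), (nat_lit 19310217), (nat_lit 12946273)] (nat_lit 5225610)) p13_12_3 (nat_lit 4) (nat_lit 39) (nat_lit 40) = true := by decide +kernel
def p13_12_3_40 : pfC (piC [(nat_lit 40173837), (nat_lit 25770221), (nat_lit 19310217), (nat_lit 12946273)] (nat_lit 5225610)) p13_12_3 (nat_lit 4) (nat_lit 40) (nat_lit 41) = true := by decide +kernel
def p13_12_3_41 : pfC (piC [(nat_lit 40173837), (nat_lit 25770221), (nat_lit 19310217), (nat_lit 12946273)] (nat_lit 5225610)) p13_12_3 (nat_lit 4) (nat_lit 41) (nat_lit 42) = true := by decide +kernel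
def p13_12_3_42 : pfC (piC [(nat_lit 40173837), (nat_lit 25770221), (nat_lit 19310217), (nat_lit 12946273)] (nat_lit 5225610)) p13_12_3 (nat_lit 4) (nat_lit 42) (nat_lit 43) = true := by decide +kernel
def p13_12_3_43 : pfC (piC [(nat_lit 40173837), (nat_lit 25770221), (nat_lit 19310217), (nat_lit 12946273)] (nat_lit 5225610)) p13_12_3 (nat_lit 4) (nat_lit 43) (nat_lit 44) = true := by decide +kernel
def p13_12_3_44 : pfC (piC [(nat_lit 40173837), (nat_lit 25770221), (nat_lit 19310217), (nat_lit 12946273)] (nat_lit 5225610)) p13_12_3 (nat_lit 4) (nat_lit 44) (nat_lit 45) = true := by decide +kernel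
def p13_12_3_45 : pfC (piC [(nat_lit 40173837), (nat_lit 25770221), (nat_lit 19310217), (nat_lit 12946273)] (nat_lit 5225610)) p13_12_3 (nat_lit 4) (nat_lit 45) (nat_lit 46) = true := by decide +kernel
def p13_12_3_46 : pfC (piC [(nat_lit 40173837), (nat_lit 25770221), (nat_lit 19310217), (nat_lit 12946273)] (nat_lit 5225610)) p13_12_3 (nat_lit 4) (nat_lit 46) (nat_lit 47) = true := by decide +kernel
def p13_12_3_47 : pfC (piC [(nat_lit 40173837), (nat_lit 25770221), (nat_lit 19310217), (nat_lit 12946273)] (nat_lit 5225610)) p13_12_3 (nat_lit 4) (nat_lit 47) (nat_lit 48) = true := by decide +kernel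
def p13_12_3_48 : pfC (piC [(nat_lit 40173837), (nat_lit 25770221), (nat_lit 19310217), (nat_lit 12946273)] (nat_lit 5225610)) p13_12_3 (nat_lit 4) (nat_lit 48) (nat_lit 49) = true := by decide +kernel
def p13_12_3_49 : pfC (piC [(nat_lit 40173837), (nat_lit 25770221), (nat_lit 19310217), (nat_lit 12946273)] (nat_lit 5225610)) p13_12_3 (nat_lit 4) (nat_lit 49) (nat_lit 50) = true := by decide +kernel
def p13_12_3_50 : pfC (piC [(nat_lit 40173837), (nat_lit 25770221), (nat_lit 19310217), (nat_lit 12946273)] (nat_lit 5225610)) p13_12_3 (nat_lit 4) (nat_lit 50) (nat_lit 51) = true := by decide +kernel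
def p13_12_3_51 : pfC (piC [(nat_lit 40173837), (nat_lit 25770221), (nat_lit 19310217), (nat_lit 12946273)] (nat_lit 5225610)) p13_12_3 (nat_lit 4) (nat_lit 51) (nat_lit 52) = true := by decide +kernel
def p13_12_3_52 : pfC (piC [(nat_lit 40173837), (nat_lit 25770221), (nat_lit 19310217), (nat_lit 12946273)] (nat_lit 5225610)) p13_12_3 (nat_lit 4) (nat_lit 52) (nat_lit 53) = true := by decide +kernel
def p13_12_3_53 : pfC (piC [(nat_lit 40173837), (nat_lit 25770221), (nat_lit 19310217), (nat_lit 12946273)] (nat_lit 5225610)) p13_12_3 (nat_lit 4) (nat_lit 53) (nat_lit 54) = true := by decide +kernel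
def p13_12_3_54 : pfC (piC [(nat_lit 40173837), (nat_lit 25770221), (nat_lit 19310217), (nat_lit 12946273)] (nat_lit 5225610)) p13_12_3 (nat_lit 4) (nat_lit 54) (nat_lit 55) = true := by decide +kernel
def p13_12_3_55 : pfC (piC [(nat_lit 40173837), (nat_lit 25770221), (nat_lit 19310217), (nat_lit 12946273)] (nat_lit 5225610)) p13_12_3 (nat_lit 4) (nat_lit 55) (nat_lit 56) = true := by decide +kernel
def p13_12_3_56 : pfC (piC [(nat_lit 40173837), (nat_lit 25770221), (nat_lit 19310217), (nat_lit 12946273)] (nat_lit 5225610)) p13_12_3 (nat_lit 4) (nat_lit 56) (nat_lit 57) = true := by decide +kernel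
def p13_12_3_57 : pfC (piC [(nat_lit 40173837), (nat_lit 25770221), (nat_lit 19310217), (nat_lit 12946273)] (nat_lit 5225610)) p13_12_3 (nat_lit 4) (nat_lit 57) (nat_lit 58) = true := by decide +kernel
def p13_12_3_58 : pfC (piC [(nat_lit 40173837), (nat_lit 25770221), (nat_lit 19310217), (nat_lit 12946273)] (nat_lit 5225610)) p13_12_3 (nat_lit 4) (nat_lit 58) (nat_lit 59) = true := by decide +kernel
def p13_12_3_59 : pfC (piC [(nat_lit 40173837), (nat_lit 25770221), (nat_lit 19310217), (nat_lit 12946273)] (nat_lit 5225610)) p13_12_3 (nat_lit 4) (nat_lit 59) (nat_lit 60) = true := by decide +kernel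
def p13_12_3_60 : pfC (piC [(nat_lit 40173837), (nat_lit 25770221), (nat_lit 19310217), (nat_lit 12946273)] (nat_lit 5225610)) p13_12_3 (nat_lit 4) (nat_lit 60) (nat_lit 61) = true := by decide +kernel
def p13_12_3_61 : pfC (piC [(nat_lit 40173837), (nat_lit 25770221), (nat_lit 19310217), (nat_lit 12946273)] (nat_lit 5225610)) p13_12_3 (nat_lit 4) (nat_lit 61) (nat_lit 62) = true := by decide +kernel
def p13_12_3_62 : pfC (piC [(nat_lit 40173837), (nat_lit 25770221), (nat_lit 19310217), (nat_lit 12946273)] (nat_lit 5225610)) p13_12_3 (nat_lit 4) (nat_lit 62) (nat_lit 63) = true := by decide +kernel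
def p13_12_3_63 : pfC (piC [(nat_lit 40173837), (nat_lit 25770221), (nat_lit 19310217), (nat_lit 12946273)] (nat_lit 5225610)) p13_12_3 (nat_lit 4) (nat_lit 63) (nat_lit 64) = true := by decide +kernel
def p13_12_3_64 : pfC (piC [(nat_lit 40173837), (nat_lit 25770221), (nat_lit 19310217), (nat_lit 12946273)] (nat_lit 5225610)) p13_12_3 (nat_lit 4) (nat_lit 64) (nat_lit 65) = true := by decide +kernel
def p13_12_3_65 : pfC (piC [(nat_lit 40173837), (nat_lit 25770221), (nat_lit 19310217), (nat_lit 12946273)] (nat_lit 5225610)) p13_12_3 (nat_lit 4) (nat_lit 65) (nat_lit 66) = true := by decide +kernel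
def p13_12_3_66 : pfC (piC [(nat_lit 40173837), (nat_lit 25770221), (nat_lit 19310217), (nat_lit 12946273)] (nat_lit 5225610)) p13_12_3 (nat_lit 4) (nat_lit 66) (nat_lit 67) = true := by decide +kernel
def p13_12_3_67 : pfC (piC [(nat_lit 40173837), (nat_lit 25770221), (nat_lit 19310217), (nat_lit 12946273)] (nat_lit 5225610)) p13_12_3 (nat_lit 4) (nat_lit 67) (nat_lit 68) = true := by decide +kernel
def p13_12_3_68 : pfC (piC [(nat_lit 40173837), (nat_lit 25770221), (nat_lit 19310217), (nat_lit 12946273)] (nat_lit 5225610)) p13_12_3 (nat_lit 4) (nat_lit 68) (nat_lit 69) = true := by decide +kernel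
def p13_12_3_69 : pfC (piC [(nat_lit 40173837), (nat_lit 25770221), (nat_lit 19310217), (nat_lit 12946273)] (nat_lit 5225610)) p13_12_3 (nat_lit 4) (nat_lit 69) (nat_lit 70) = true := by decide +kernel
def p13_12_3_70 : pfC (piC [(nat_lit 40173837), (nat_lit 25770221), (nat_lit 19310217), (nat_lit 12946273)] (nat_lit 5225610)) p13_12_3 (nat_lit 4) (nat_lit 70) (nat_lit 71) = true := by decide +kernel
def p13_12_3_71 : pfC (piC [(nat_lit 40173837), (nat_lit 25770221), (nat_lit 19310217), (nat_lit 12946273)] (nat_lit 5225610)) p13_12_3 (nat_lit 4) (nat_lit 71) (nat_lit 72) = true := by decide +kernel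
def p13_12_3_72 : pfC (piC [(nat_lit 40173837), (nat_lit 25770221), (nat_lit 19310217), (nat_lit 12946273)] (nat_lit 5225610)) p13_12_3 (nat_lit 4) (nat_lit 72) (nat_lit 73) = true := by decide +kernel
def p13_12_3_73 : pfC (piC [(nat_lit 40173837), (nat_lit 25770221), (nat_lit 19310217), (nat_lit 12946273)] (nat_lit 5225610)) p13_12_3 (nat_lit 4) (nat_lit 73) (nat_lit 74) = true := by decide +kernel
def p13_12_3_74 : pfC (piC [(nat_lit 40173837), (nat_lit 25770221), (nat_lit 19310217), (nat_lit 12946273)] (nat_lit 5225610)) p13_12_3 (nat_lit 4) (nat_lit 74) (nat_lit 75) = true := by decide +kernel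
def p13_12_3_75 : pfC (piC [(nat_lit 40173837), (nat_lit 25770221), (nat_lit 19310217), (nat_lit 12946273)] (nat_lit 5225610)) p13_12_3 (nat_lit 4) (nat_lit 75) (nat_lit 76) = true := by decide +kernel
def p13_12_3_76 : pfC (piC [(nat_lit 40173837), (nat_lit 25770221), (nat_lit 19310217), (nat_lit 12946273)] (nat_lit 5225610)) p13_12_3 (nat_lit 4) (nat_lit 76) (nat_lit 77) = true := by decide +kernel
def p13_12_3_77 : pfC (piC [(nat_lit 40173837), (nat_lit 25770221), (nat_lit 19310217), (nat_lit 12946273)] (nat_lit 5225610)) p13_12_3 (nat_lit 4) (nat_lit 77) (nat_lit 78) = true := by decide +kernel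
def p13_12_3_78 : pfC (piC [(nat_lit 40173837), (nat_lit 25770221), (nat_lit 19310217), (nat_lit 12946273)] (nat_lit 5225610)) p13_12_3 (nat_lit 4) (nat_lit 78) (nat_lit 79) = true := by decide +kernel
def p13_12_3_79 : pfC (piC [(nat_lit 40173837), (nat_lit 25770221), (nat_lit 19310217), (nat_lit 12946273)] (nat_lit 5225610)) p13_12_3 (nat_lit 4) (nat_lit 79) (nat_lit 80) = true := by decide +kernel
def p13_12_3_80 : pfC (piC [(nat_lit 40173837), (nat_lit 25770221), (nat_lit 19310217), (nat_lit 12946273)] (nat_lit 5225610)) p13_12_3 (nat_lit 4) (nat_lit 80) (nat_lit 81) = true := by decide +kernel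
def p13_12_3_81 : pfC (piC [(nat_lit 40173837), (nat_lit 25770221), (nat_lit 19310217), (nat_lit 12946273)] (nat_lit 5225610)) p13_12_3 (nat_lit 4) (nat_lit 81) (nat_lit 82) = true := by decide +kernel
def p13_12_3_82 : pfC (piC [(nat_lit 40173837), (nat_lit 25770221), (nat_lit 19310217), (nat_lit 12946273)] (nat_lit 5225610)) p13_12_3 (nat_lit 4) (nat_lit 82) (nat_lit 83) = true := by decide +kernel
def p13_12_3_83 : pfC (piC [(nat_lit 40173837), (nat_lit 25770221), (nat_lit 19310217), (nat_lit 12946273)] (nat_lit 5225610)) p13_12_3 (nat_lit 4) (nat_lit 83) (nat_lit 84) = true := by decide +kernel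
def p13_12_3_84 : pfC (piC [(nat_lit 40173837), (nat_lit 25770221), (nat_lit 19310217), (nat_lit 12946273)] (nat_lit 5225610)) p13_12_3 (nat_lit 4) (nat_lit 84) (nat_lit 85) = true := by decide +kernel
def p13_12_3_85 : pfC (piC [(nat_lit 40173837), (nat_lit 25770221), (nat_lit 19310217), (nat_lit 12946273)] (nat_lit 5225610)) p13_12_3 (nat_lit 4) (nat_lit 85) (nat_lit 86) = true := by decide +kernel
def p13_12_3_86 : pfC (piC [(nat_lit 40173837), (nat_lit 25770221), (nat_lit 19310217), (nat_lit 12946273)] (nat_lit 5225610)) p13_12_3 (nat_lit 4) (nat_lit 86) (nat_lit 87) = true := by decide +kernel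
def p13_12_3_87 : pfC (piC [(nat_lit 40173837), (nat_lit 25770221), (nat_lit 19310217), (nat_lit 12946273)] (nat_lit 5225610)) p13_12_3 (nat_lit 4) (nat_lit 87) (nat_lit 88) = true := by decide +kernel
def p13_12_3_88 : pfC (piC [(nat_lit 40173837), (nat_lit 25770221), (nat_lit 19310217), (nat_lit 12946273)] (nat_lit 5225610)) p13_12_3 (nat_lit 4) (nat_lit 88) (nat_lit 89) = true := by decide +kernel
def p13_12_3_89 : pfC (piC [(nat_lit 40173837), (nat_lit 25770221), (nat_lit 19310217), (nat_lit 12946273)] (nat_lit 5225610)) p13_12_3 (nat_lit 4) (nat_lit 89) (nat_lit 90) = true := by decide +kernel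
def p13_12_3_90 : pfC (piC [(nat_lit 40173837), (nat_lit 25770221), (nat_lit 19310217), (nat_lit 12946273)] (nat_lit 5225610)) p13_12_3 (nat_lit 4) (nat_lit 90) (nat_lit 91) = true := by decide +kernel
def p13_12_3_91 : pfC (piC [(nat_lit 40173837), (nat_lit 25770221), (nat_lit 19310217), (nat_lit 12946273)] (nat_lit 5225610)) p13_12_3 (nat_lit 4) (nat_lit 91) (nat_lit 92) = true := by decide +kernel
def p13_12_3_92 : pfC (piC [(nat_lit 40173837), (nat_lit 25770221), (nat_lit 19310217), (nat_lit 12946273)] (nat_lit 5225610)) p13_12_3 (nat_lit 4) (nat_lit 92) (nat_lit 93) = true := by decide +kernel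
def p13_12_3_93 : pfC (piC [(nat_lit 40173837), (nat_lit 25770221), (nat_lit 19310217), (nat_lit 12946273)] (nat_lit 5225610)) p13_12_3 (nat_lit 4) (nat_lit 93) (nat_lit 94) = true := by decide +kernel
def p13_12_3_94 : pfC (piC [(nat_lit 40173837), (nat_lit 25770221), (nat_lit 19310217), (nat_lit 12946273)] (nat_lit 5225610)) p13_12_3 (nat_lit 4) (nat_lit 94) (nat_lit 95) = true := by decide +kernel
def p13_12_3_95 : pfC (piC [(nat_lit 40173837), (nat_lit 25770221), (nat_lit 19310217), (nat_lit 12946273)] (nat_lit 5225610)) p13_12_3 (nat_lit 4) (nat_lit 95) (nat_lit 96) = true := by decide +kernel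
def p13_12_3_96 : pfC (piC [(nat_lit 40173837), (nat_lit 25770221), (nat_lit 19310217), (nat_lit 12946273)] (nat_lit 5225610)) p13_12_3 (nat_lit 4) (nat_lit 96) (nat_lit 97) = true := by decide +kernel
def p13_12_3_97 : pfC (piC [(nat_lit 40173837), (nat_lit 25770221), (nat_lit 19310217), (nat_lit 12946273)] (nat_lit 5225610)) p13_12_3 (nat_lit 4) (nat_lit 97) (nat_lit 98) = true := by decide +kernel
def p13_12_3_98 : pfC (piC [(nat_lit 40173837), (nat_lit 25770221), (nat_lit 19310217), (nat_lit 12946273)] (nat_lit 5225610)) p13_12_3 (nat_lit 4) (nat_lit 98) (nat_lit 99) = true := by decide +kernel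
def p13_12_3_99 : pfC (piC [(nat_lit 40173837), (nat_lit 25770221), (nat_lit 19310217), (nat_lit 12946273)] (nat_lit 5225610)) p13_12_3 (nat_lit 4) (nat_lit 99) (nat_lit 100) = true := by decide +kernel
def p13_12_3_100 : pfC (piC [(nat_lit 40173837), (nat_lit 25770221), (nat_lit 19310217), (nat_lit 12946273)] (nat_lit 5225610)) p13_12_3 (nat_lit 4) (nat_lit 100) (nat_lit 101) = true := by decide +kernel
def p13_12_3_101 : pfC (piC [(nat_lit 40173837), (nat_lit 25770221), (nat_lit 19310217), (nat_lit 12946273)] (nat_lit 5225610)) p13_12_3 (nat_lit 4) (nat_lit 101) (nat_lit 102) = true := by decide +kernel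
def p13_12_3_102 : pfC (piC [(nat_lit 40173837), (nat_lit 25770221), (nat_lit 19310217), (nat_lit 12946273)] (nat_lit 5225610)) p13_12_3 (nat_lit 4) (nat_lit 102) (nat_lit 103) = true := by decide +kernel
def p13_12_3_103 : pfC (piC [(nat_lit 40173837), (nat_lit 25770221), (nat_lit 19310217), (nat_lit 12946273)] (nat_lit 5225610)) p13_12_3 (nat_lit 4) (nat_lit 103) (nat_lit 104) = true := by decide +kernel
def p13_12_3_104 : pfC (piC [(nat_lit 40173837), (nat_lit 25770221), (nat_lit 19310217), (nat_lit 12946273)] (nat_lit 5225610)) p13_12_3 (nat_lit 4) (nat_lit 104) (nat_lit 105) = true := by decide +kernel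
def p13_12_3_105 : pfC (piC [(nat_lit 40173837), (nat_lit 25770221), (nat_lit 19310217), (nat_lit 12946273)] (nat_lit 5225610)) p13_12_3 (nat_lit 4) (nat_lit 105) (nat_lit 106) = true := by decide +kernel
def p13_12_3_106 : pfC (piC [(nat_lit 40173837), (nat_lit 25770221), (nat_lit 19310217), (nat_lit 12946273)] (nat_lit 5225610)) p13_12_3 (nat_lit 4) (nat_lit 106) (nat_lit 107) = true := by decide +kernel
def p13_12_3_107 : pfC (piC [(nat_lit 40173837), (nat_lit 25770221), (nat_lit 19310217), (nat_lit 12946273)] (nat_lit 5225610)) p13_12_3 (nat_lit 4) (nat_lit 107) (nat_lit 108) = true := by decide +kernel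
def p13_12_3_108 : pfC (piC [(nat_lit 40173837), (nat_lit 25770221), (nat_lit 19310217), (nat_lit 12946273)] (nat_lit 5225610)) p13_12_3 (nat_lit 4) (nat_lit 108) (nat_lit 109) = true := by decide +kernel
def p13_12_3_109 : pfC (piC [(nat_lit 40173837), (nat_lit 25770221), (nat_lit 19310217), (nat_lit 12946273)] (nat_lit 5225610)) p13_12_3 (nat_lit 4) (nat_lit 109) (nat_lit 110) = true := by decide +kernel
def p13_12_3_110 : pfC (piC [(nat_lit 40173837), (nat_lit 25770221), (nat_lit 19310217), (nat_lit 12946273)] (nat_lit 5225610)) p13_12_3 (nat_lit 4) (nat_lit 110) (nat_lit 111) = true := by decide +kernel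
def p13_12_3_111 : pfC (piC [(nat_lit 40173837), (nat_lit 25770221), (nat_lit 19310217), (nat_lit 12946273)] (nat_lit 5225610)) p13_12_3 (nat_lit 4) (nat_lit 111) (nat_lit 112) = true := by decide +kernel
def p13_12_3_112 : pfC (piC [(nat_lit 40173837), (nat_lit 25770221), (nat_lit 19310217), (nat_lit 12946273)] (nat_lit 5225610)) p13_12_3 (nat_lit 4) (nat_lit 112) (nat_lit 113) = true := by decide +kernel
def p13_12_3_113 : pfC (piC [(nat_lit 40173837), (nat_lit 25770221), (nat_lit 19310217), (nat_lit 12946273)] (nat_lit 5225610)) p13_12_3 (nat_lit 4) (nat_lit 113) (nat_lit 114) = true := by decide +kernel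
def p13_12_3_114 : pfC (piC [(nat_lit 40173837), (nat_lit 25770221), (nat_lit 19310217), (nat_lit 12946273)] (nat_lit 5225610)) p13_12_3 (nat_lit 4) (nat_lit 114) (nat_lit 115) = true := by decide +kernel
def p13_12_3_115 : pfC (piC [(nat_lit 40173837), (nat_lit 25770221), (nat_lit 19310217), (nat_lit 12946273)] (nat_lit 5225610)) p13_12_3 (nat_lit 4) (nat_lit 115) (nat_lit 116) = true := by decide +kernel
def p13_12_3_116 : pfC (piC [(nat_lit 40173837), (nat_lit 25770221), (nat_lit 19310217), (nat_lit 12946273)] (nat_lit 5225610)) p13_12_3 (nat_lit 4) (nat_lit 116) (nat_lit 117) = true := by decide +kernel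
def p13_12_3_117 : pfC (piC [(nat_lit 40173837), (nat_lit 25770221), (nat_lit 19310217), (nat_lit 12946273)] (nat_lit 5225610)) p13_12_3 (nat_lit 4) (nat_lit 117) (nat_lit 118) = true := by decide +kernel
def p13_12_3_118 : pfC (piC [(nat_lit 40173837), (nat_lit 25770221), (nat_lit 19310217), (nat_lit 12946273)] (nat_lit 5225610)) p13_12_3 (nat_lit 4) (nat_lit 118) (nat_lit 119) = true := by decide +kernel
def p13_12_3_119 : pfC (piC [(nat_lit 40173837), (nat_lit 25770221), (nat_lit 19310217), (nat_lit 12946273)] (nat_lit 5225610)) p13_12_3 (nat_lit 4) (nat_lit 119) (nat_lit 120) = true := by decide +kernel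
def p13_12_3_120 : pfC (piC [(nat_lit 40173837), (nat_lit 25770221), (nat_lit 19310217), (nat_lit 12946273)] (nat_lit 5225610)) p13_12_3 (nat_lit 4) (nat_lit 120) (nat_lit 121) = true := by decide +kernel
def p13_12_3_121 : pfC (piC [(nat_lit 40173837), (nat_lit 25770221), (nat_lit 19310217), (nat_lit 12946273)] (nat_lit 5225610)) p13_12_3 (nat_lit 4) (nat_lit 121) (nat_lit 122) = true := by decide +kernel
def p13_12_3_122 : pfC (piC [(nat_lit 40173837), (nat_lit 25770221), (nat_lit 19310217), (nat_lit 12946273)] (nat_lit 5225610)) p13_12_3 (nat_lit 4) (nat_lit 122) (nat_lit 123) = true := by decide +kernel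
def p13_12_3_123 : pfC (piC [(nat_lit 40173837), (nat_lit 25770221), (nat_lit 19310217), (nat_lit 12946273)] (nat_lit 5225610)) p13_12_3 (nat_lit 4) (nat_lit 123) (nat_lit 124) = true := by decide +kernel
def p13_12_3_124 : pfC (piC [(nat_lit 40173837), (nat_lit 25770221), (nat_lit 19310217), (nat_lit 12946273)] (nat_lit 5225610)) p13_12_3 (nat_lit 4) (nat_lit 124) (nat_lit 125) = true := by decide +kernel
def p13_12_3_125 : pfC (piC [(nat_lit 40173837), (nat_lit 25770221), (nat_lit 19310217), (nat_lit 12946273)] (nat_lit 5225610)) p13_12_3 (nat_lit 4) (nat_lit 125) (nat_lit 126) = true := by decide +kernel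
def p13_12_3_126 : pfC (piC [(nat_lit 40173837), (nat_lit 25770221), (nat_lit 19310217), (nat_lit 12946273)] (nat_lit 5225610)) p13_12_3 (nat_lit 4) (nat_lit 126) (nat_lit 127) = true := by decide +kernel
def p13_12_3_127 : pfC (piC [(nat_lit 40173837), (nat_lit 25770221), (nat_lit 19310217), (nat_lit 12946273)] (nat_lit 5225610)) p13_12_3 (nat_lit 4) (nat_lit 127) (nat_lit 128) = true := by decide +kernel
def p13_12_3_128 : pfC (piC [(nat_lit 40173837), (nat_lit 25770221), (nat_lit 19310217), (nat_lit 12946273)] (nat_lit 5225610)) p13_12_3 (nat_lit 4) (nat_lit 128) (nat_lit 129) = true := by decide +kernel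
def p13_12_3_129 : pfC (piC [(nat_lit 40173837), (nat_lit 25770221), (nat_lit 19310217), (nat_lit 12946273)] (nat_lit 5225610)) p13_12_3 (nat_lit 4) (nat_lit 129) (nat_lit 130) = true := by decide +kernel
def p13_12_3_130 : pfC (piC [(nat_lit 40173837), (nat_lit 25770221), (nat_lit 19310217), (nat_lit 12946273)] (nat_lit 5225610)) p13_12_3 (nat_lit 4) (nat_lit 130) (nat_lit 131) = true := by decide +kernel
def p13_12_3_131 : pfC (piC [(nat_lit 40173837), (nat_lit 25770221), (nat_lit 19310217), (nat_lit 12946273)] (nat_lit 5225610)) p13_12_3 (nat_lit 4) (nat_lit 131) (nat_lit 132) = true := by decide +kernel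
def p13_12_3_132 : pfC (piC [(nat_lit 40173837), (nat_lit 25770221), (nat_lit 19310217), (nat_lit 12946273)] (nat_lit 5225610)) p13_12_3 (nat_lit 4) (nat_lit 132) (nat_lit 133) = true := by decide +kernel
def p13_12_3_133 : pfC (piC [(nat_lit 40173837), (nat_lit 25770221), (nat_lit 19310217), (nat_lit 12946273)] (nat_lit 5225610)) p13_12_3 (nat_lit 4) (nat_lit 133) (nat_lit 134) = true := by decide +kernel
def p13_12_3_134 : pfC (piC [(nat_lit 40173837), (nat_lit 25770221), (nat_lit 19310217), (nat_lit 12946273)] (nat_lit 5225610)) p13_12_3 (nat_lit 4) (nat_lit 134) (nat_lit 135) = true := by decide +kernel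
def p13_12_3_135 : pfC (piC [(nat_lit 40173837), (nat_lit 25770221), (nat_lit 19310217), (nat_lit 12946273)] (nat_lit 5225610)) p13_12_3 (nat_lit 4) (nat_lit 135) (nat_lit 136) = true := by decide +kernel
def p13_12_3_136 : pfC (piC [(nat_lit 40173837), (nat_lit 25770221), (nat_lit 19310217), (nat_lit 12946273)] (nat_lit 5225610)) p13_12_3 (nat_lit 4) (nat_lit 136) (nat_lit 137) = true := by decide +kernel
def p13_12_3_137 : pfC (piC [(nat_lit 40173837), (nat_lit 25770221), (nat_lit 19310217), (nat_lit 12946273)] (nat_lit 5225610)) p13_12_3 (nat_lit 4) (nat_lit 137) (nat_lit 138) = true := by decide +kernel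
def p13_12_3_138 : pfC (piC [(nat_lit 40173837), (nat_lit 25770221), (nat_lit 19310217), (nat_lit 12946273)] (nat_lit 5225610)) p13_12_3 (nat_lit 4) (nat_lit 138) (nat_lit 139) = true := by decide +kernel
def p13_12_3_139 : pfC (piC [(nat_lit 40173837), (nat_lit 25770221), (nat_lit 19310217), (nat_lit 12946273)] (nat_lit 5225610)) p13_12_3 (nat_lit 4) (nat_lit 139) (nat_lit 140) = true := by decide +kernel
def p13_12_3_140 : pfC (piC [(nat_lit 40173837), (nat_lit 25770221), (nat_lit 19310217), (nat_lit 12946273)] (nat_lit 5225610)) p13_12_3 (nat_lit 4) (nat_lit 140) (nat_lit 141) = true := by decide +kernel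
def p13_12_3_141 : pfC (piC [(nat_lit 40173837), (nat_lit 25770221), (nat_lit 19310217), (nat_lit 12946273)] (nat_lit 5225610)) p13_12_3 (nat_lit 4) (nat_lit 141) (nat_lit 142) = true := by decide +kernel
def p13_12_3_142 : pfC (piC [(nat_lit 40173837), (nat_lit 25770221), (nat_lit 19310217), (nat_lit 12946273)] (nat_lit 5225610)) p13_12_3 (nat_lit 4) (nat_lit 142) (nat_lit 143) = true := by decide +kernel
def p13_12_3_143 : pfC (piC [(nat_lit 40173837), (nat_lit 25770221), (nat_lit 19310217), (nat_lit 12946273)] (nat_lit 5225610)) p13_12_3 (nat_lit 4) (nat_lit 143) (nat_lit 144) = true := by decide +kernel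
def p13_12_3_144 : pfC (piC [(nat_lit 40173837), (nat_lit 25770221), (nat_lit 19310217), (nat_lit 12946273)] (nat_lit 5225610)) p13_12_3 (nat_lit 4) (nat_lit 144) (nat_lit 145) = true := by decide +kernel
def p13_12_3_145 : pfC (piC [(nat_lit 40173837), (nat_lit 25770221), (nat_lit 19310217), (nat_lit 12946273)] (nat_lit 5225610)) p13_12_3 (nat_lit 4) (nat_lit 145) (nat_lit 146) = true := by decide +kernel
def p13_12_3_146 : pfC (piC [(nat_lit 40173837), (nat_lit 25770221), (nat_lit 19310217), (nat_lit 12946273)] (nat_lit 5225610)) p13_12_3 (nat_lit 4) (nat_lit 146) (nat_lit 147) = true := by decide +kernel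
def p13_12_3_147 : pfC (piC [(nat_lit 40173837), (nat_lit 25770221), (nat_lit 19310217), (nat_lit 12946273)] (nat_lit 5225610)) p13_12_3 (nat_lit 4) (nat_lit 147) (nat_lit 148) = true := by decide +kernel
def p13_12_3_148 : pfC (piC [(nat_lit 40173837), (nat_lit 25770221), (nat_lit 19310217), (nat_lit 12946273)] (nat_lit 5225610)) p13_12_3 (nat_lit 4) (nat_lit 148) (nat_lit 149) = true := by decide +kernel
def p13_12_3_149 : pfC (piC [(nat_lit 40173837), (nat_lit 25770221), (nat_lit 19310217), (nat_lit 12946273)] (nat_lit 5225610)) p13_12_3 (nat_lit 4) (nat_lit 149) (nat_lit 150) = true := by decide +kernel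
def p13_12_3_150 : pfC (piC [(nat_lit 40173837), (nat_lit 25770221), (nat_lit 19310217), (nat_lit 12946273)] (nat_lit 5225610)) p13_12_3 (nat_lit 4) (nat_lit 150) (nat_lit 151) = true := by decide +kernel
def p13_12_3_151 : pfC (piC [(nat_lit 40173837), (nat_lit 25770221), (nat_lit 19310217), (nat_lit 12946273)] (nat_lit 5225610)) p13_12_3 (nat_lit 4) (nat_lit 151) (nat_lit 152) = true := by decide +kernel
def p13_12_3_152 : pfC (piC [(nat_lit 40173837), (nat_lit 25770221), (nat_lit 19310217), (nat_lit 12946273)] (nat_lit 5225610)) p13_12_3 (nat_lit 4) (nat_lit 152) (nat_lit 153) = true := by decide +kernel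
theorem p13_12_3_T : PfS (PiF n13_12.reverse (nat_lit 5225610)) p13_12_3 (nat_lit 4) [] 0 :=
  pftab_of (los := [(nat_lit 40173837), (nat_lit 25770221), (nat_lit 19310217), (nat_lit 12946273)]) (by decide +kernel) (hi := (nat_lit 153)) (PfP.trans (PfP.trans (PfP.trans (PfP.trans (PfP.trans (PfP.trans (PfP.trans (PfP.trans (PfP.trans (PfP.trans (PfP.trans (PfP.trans (PfP.trans (PfP.trans (PfP.trans (PfP.trans (PfP.trans (PfP.trans (PfP.trans (PfP.trans (PfP.trans (PfP.trans (PfP.trans (PfP.trans (PfP.trans (PfP.trans (PfP.trans (PfP.trans (PfP.trans (PfP.trans (PfP.trans (PfP.trans (PfP.trans (PfP.trans (PfP.trans (PfP.trans (PfP.trans (PfP.trans (PfP.trans (PfP.trans (PfP.trans (PfP.trans (PfP.trans (PfP.trans (PfP.trans (PfP.trans (PfP.trans (PfP.trans (PfP.trans (PfP.trans (PfP.trans (PfP.trans (PfP.trans (PfP.trans (PfP.trans (PfP.trans (PfP.trans (PfP.trans (PfP.trans (PfP.trans (PfP.trans (PfP.trans (PfP.trans (PfP.trans (PfP.trans (PfP.trans (PfP.trans (PfP.trans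 (PfP.trans (PfP.trans (PfP.trans (PfP.trans (PfP.trans (PfP.trans (PfP.trans (PfP.trans (PfP.trans (PfP.trans (PfP.trans (PfP.trans (PfP.trans (PfP.trans (PfP.trans (PfP.trans (PfP.trans (PfP.trans (PfP.trans (PfP.trans (PfP.trans (PfP.trans (PfP.trans (PfP.trans (PfP.trans (PfP.trans (PfP.trans (PfP.trans (PfP.trans (PfP.trans (PfP.trans (PfP.trans (PfP.trans (PfP.trans (PfP.trans (PfP.trans (PfP.trans (PfP.trans (PfP.trans (PfP.trans (PfP.trans
 (PfP.trans (PfP.trans (PfP.trans (PfP.trans (PfP.trans (PfP.trans (PfP.trans (PfP.trans (PfP.trans (PfP.trans (PfP.trans (PfP.trans (PfP.trans (PfP.trans (PfP.trans (PfP.trans (PfP.trans (PfP.trans (PfP.trans (PfP.trans (PfP.trans (PfP.trans (PfP.trans (PfP.trans (PfP.trans (PfP.trans (PfP.trans (PfP.trans (PfP.trans (PfP.trans (PfP.trans (PfP.trans (PfP.trans (PfP.trans (PfP.trans (PfP.trans (PfP.trans (PfP.trans (PfP.trans (PfP.trans (PfP.trans (PfP.trans (PfP.trans (pfC_sound p13_12_3_0) (pfC_sound p13_12_3_1)) (pfC_sound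 p13_12_3_2)) (pfC_sound p13_12_3_3)) (pfC_sound p13_12_3_4)) (pfC_sound p13_12_3_5)) (pfC_sound p13_12_3_6)) (pfC_sound p13_12_3_7)) (pfC_sound p13_12_3_8)) (pfC_sound p13_12_3_9)) (pfC_sound p13_12_3_10)) (pfC_sound p13_12_3_11)) (pfC_sound p13_12_3_12)) (pfC_sound p13_12_3_13)) (pfC_sound p13_12_3_14)) (pfC_sound p13_12_3_15)) (pfC_sound p13_12_3_16)) (pfC_sound p13_12_3_17)) (pfC_sound p13_12_3_18)) (pfC_sound p13_12_3_19)) (pfC_sound p13_12_3_20)) (pfC_sound p13_12_3_21)) (pfC_sound p13_12_3_22)) (pfC_sound p13_12_3_23)) (pfC_sound p13_12_3_24)) (pfC_sound p13_12_3_25)) (pfC_sound p13_12_3_26)) (pfC_sound p13_12_3_27)) (pfC_sound p13_12_3_28)) (pfC_sound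
 p13_12_3_29)) (pfC_sound p13_12_3_30)) (pfC_sound p13_12_3_31)) (pfC_sound p13_12_3_32)) (pfC_sound p13_12_3_33)) (pfC_sound p13_12_3_34)) (pfC_sound p13_12_3_35)) (pfC_sound p13_12_3_36)) (pfC_sound p13_12_3_37)) (pfC_sound p13_12_3_38)) (pfC_sound p13_12_3_39)) (pfC_sound p13_12_3_40)) (pfC_sound p13_12_3_41)) (pfC_sound p13_12_3_42)) (pfC_sound p13_12_3_43)) (pfC_sound p13_12_3_44)) (pfC_sound p13_12_3_45)) (pfC_sound p13_12_3_46)) (pfC_sound p13_12_3_47)) (pfC_sound p13_12_3_48)) (pfC_sound p13_12_3_49)) (pfC_sound p13_12_3_50)) (pfC_sound p13_12_3_51)) (pfC_sound p13_12_3_52)) (pfC_sound p13_12_3_53)) (pfC_sound p13_12_3_54)) (pfC_sound p13_12_3_55)) (pfC_sound p13_12_3_56)) (pfC_sound p13_12_3_57)) (pfC_sound p13_12_3_58)) (pfC_sound p13_12_3_59)) (pfC_sound p13_12_3_60)) (pfC_sound p13_12_3_61)) (pfC_sound p13_12_3_62)) (pfC_sound p13_12_3_63)) (pfC_sound p13_12_3_64)) (pfC_sound p13_12_3_65)) (pfC_sound p13_12_3_66)) (pfC_sound p13_12_3_67)) (pfC_sound p13_12_3_68))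 (pfC_sound p13_12_3_69)) (pfC_sound p13_12_3_70)) (pfC_sound p13_12_3_71)) (pfC_sound p13_12_3_72)) (pfC_sound p13_12_3_73)) (pfC_sound p13_12_3_74)) (pfC_sound p13_12_3_75)) (pfC_sound p13_12_3_76)) (pfC_sound
 p13_12_3_77)) (pfC_sound p13_12_3_78)) (pfC_sound p13_12_3_79)) (pfC_sound p13_12_3_80)) (pfC_sound p13_12_3_81)) (pfC_sound p13_12_3_82)) (pfC_sound p13_12_3_83)) (pfC_sound p13_12_3_84)) (pfC_sound p13_12_3_85)) (pfC_sound p13_12_3_86)) (pfC_sound p13_12_3_87)) (pfC_sound p13_12_3_88)) (pfC_sound p13_12_3_89)) (pfC_sound p13_12_3_90)) (pfC_sound p13_12_3_91)) (pfC_sound p13_12_3_92)) (pfC_sound p13_12_3_93)) (pfC_sound p13_12_3_94)) (pfC_sound p13_12_3_95)) (pfC_sound p13_12_3_96)) (pfC_sound p13_12_3_97)) (pfC_sound p13_12_3_98)) (pfC_sound p13_12_3_99)) (pfC_sound p13_12_3_100)) (pfC_sound p13_12_3_101)) (pfC_sound p13_12_3_102)) (pfC_sound p13_12_3_103)) (pfC_sound p13_12_3_104)) (pfC_sound p13_12_3_105)) (pfC_sound p13_12_3_106)) (pfC_sound p13_12_3_107))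 (pfC_sound p13_12_3_108)) (pfC_sound p13_12_3_109)) (pfC_sound p13_12_3_110)) (pfC_sound p13_12_3_111)) (pfC_sound p13_12_3_112)) (pfC_sound p13_12_3_113)) (pfC_sound p13_12_3_114)) (pfC_sound p13_12_3_115)) (pfC_sound p13_12_3_116)) (pfC_sound p13_12_3_117)) (pfC_sound p13_12_3_118)) (pfC_sound p13_12_3_119)) (pfC_sound p13_12_3_120)) (pfC_sound p13_12_3_121)) (pfC_sound p13_12_3_122)) (pfC_sound p13_12_3_123)) (pfC_sound
 p13_12_3_124)) (pfC_sound p13_12_3_125)) (pfC_sound p13_12_3_126)) (pfC_sound p13_12_3_127)) (pfC_sound p13_12_3_128)) (pfC_sound p13_12_3_129)) (pfC_sound p13_12_3_130)) (pfC_sound p13_12_3_131)) (pfC_sound p13_12_3_132)) (pfC_sound p13_12_3_133)) (pfC_sound p13_12_3_134)) (pfC_sound p13_12_3_135)) (pfC_sound p13_12_3_136)) (pfC_sound p13_12_3_137)) (pfC_sound p13_12_3_138)) (pfC_sound p13_12_3_139)) (pfC_sound p13_12_3_140)) (pfC_sound p13_12_3_141)) (pfC_sound p13_12_3_142)) (pfC_sound p13_12_3_143)) (pfC_sound p13_12_3_144)) (pfC_sound p13_12_3_145))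 (pfC_sound p13_12_3_146)) (pfC_sound p13_12_3_147)) (pfC_sound p13_12_3_148)) (pfC_sound p13_12_3_149)) (pfC_sound p13_12_3_150)) (pfC_sound p13_12_3_151)) (pfC_sound p13_12_3_152)) (by decide +kernel)

def z13_12_3 : zOK yB13_12 (nat_lit 3) (nat_lit 750) (nat_lit 867) (nat_lit 5225610) (nat_lit 4307831) = true := by decide +kernel
def g13_12_3 : gOK yB13_12.x P13_12 (nat_lit 1421) (q13_12 :: r13_12) (nat_lit 3) (nat_lit 750) (nat_lit 4) (nat_lit 867) (nat_lit 12712500) (nat_lit 12712500) (nat_lit 12712500) (nat_lit 12712500) [(nat_lit 800)] = true := by decide +kernel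
def v13_12_3 : ivC P13_12 s13_12 w13_12 n13_12 (nat_lit 4) (nat_lit 4670) (nat_lit 3) (nat_lit 750) f152_1_750 f160_1_750 (nat_lit 4) (nat_lit 867) f152_1_867 f160_1_867 (nat_lit 5225610) (nat_lit 4307831) p13_12_3 = true := by decide +kernel
/-! box `yB13_13` -/

def P13_13 : BQ := ⟨(nat_lit 8), (nat_lit 8), (nat_lit 0), (nat_lit 4), (nat_lit 4), (nat_lit 800), (nat_lit 820), (nat_lit 120), [(nat_lit 200), (nat_lit 300), (nat_lit 450), (nat_lit 800)], (nat_lit 110944000), (nat_lit 16000000), (nat_lit 16000000000)⟩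
def q13_13 : PC := ⟨(nat_lit 1000), [(nat_lit 120000), (nat_lit 200000), (nat_lit 300000), (nat_lit 450000), (nat_lit 800000)], (nat_lit 340282367000166625996085689103316680705000000), (nat_lit 15889056000000), (nat_lit 15889056000000), (nat_lit 10000000)⟩
def r13_13 : List PC := [⟨(nat_lit 1352), [(nat_lit 120717), (nat_lit 201190), (nat_lit 301513), (nat_lit 451910), (nat_lit 802062)], (nat_lit 342350603226826756120801362206305660110326967), (nat_lit 16370130826240), (nat_lit 16382577377280), (nat_lit 10059750)⟩]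
def s13_13 : List PB := [⟨(nat_lit 27040), (nat_lit 1931472000000), [(nat_lit 201190), (nat_lit 301513), (nat_lit 451910), (nat_lit 802062)], (nat_lit 342350603226826756120801362206305660110326967), (nat_lit 1142270037668864), (nat_lit 1142282484219904), (nat_lit 56320)⟩]
def n13_13 : List KN := [⟨(nat_lit 800), (nat_lit 450), (nat_lit 12765436), (nat_lit 5447273)⟩, ⟨(nat_lit 450), (nat_lit 300), (nat_lit 18971201), (nat_lit 12765436)⟩, ⟨(nat_lit 300), (nat_lit 200), (nat_lit 25510466), (nat_lit 18971201)⟩, ⟨(nat_lit 200), (nat_lit 120), (nat_lit 39120232), (nat_lit 25510466)⟩]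
def w13_13 : List ℕ := [(nat_lit 56320)]
def par13_13 : parC yB13_13 P13_13 s13_13 r13_13 q13_13 n13_13 w13_13 = true := by decide +kernel

def p13_13_0 : PF := (PF.cons (PF.cons (PF.cons (PF.cons (PF.leaf (nat_lit 642978) (nat_lit 1895743) (nat_lit 65213069) (nat_lit 1895743) [(nat_lit 0), (nat_lit 0), (nat_lit 0), (nat_lit 0)]) (PF.cons (PF.leaf (nat_lit 781405) (nat_lit 216313) (nat_lit 64939596) (nat_lit 1952902) [(nat_lit 216313), (nat_lit 0), (nat_lit 0), (nat_lit 0)]) (PF.cons (PF.leaf (nat_lit 950830) (nat_lit 240046) (nat_lit 64612941) (nat_lit 2015777) [(nat_lit 240046), (nat_lit 0), (nat_lit 0), (nat_lit 0)]) (PF.cons (PF.leaf (nat_lit 1145733) (nat_lit 262458) (nat_lit 64239744) (nat_lit 2081693) [(nat_lit 262458), (nat_lit 0), (nat_lit 0), (nat_lit 0)]) (PF.cons (PF.leaf (nat_lit 1363930) (nat_lit 283807) (nat_lit 63824728) (nat_lit 2148855) [(nat_lit 283807), (nat_lit 0), (nat_lit 0), (nat_lit 0)]) (PF.cons (PF.leaf (nat_lit 1603783) (nat_lit 304221)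 (nat_lit 63371696) (nat_lit 2216008) [(nat_lit 304221), (nat_lit 0), (nat_lit 0), (nat_lit 0)]) (PF.cons (PF.leaf (nat_lit 1863638) (nat_lit 323767) (nat_lit 62883958) (nat_lit 2282250) [(nat_lit 323767), (nat_lit 0), (nat_lit 0), (nat_lit 0)]) (PF.cons (PF.leaf (nat_lit 2142057) (nat_lit 342478) (nat_lit 62364541) (nat_lit 2346920) [(nat_lit 342478), (nat_lit 0), (nat_lit 0),
 (nat_lit 0)]) (PF.cons (PF.leaf (nat_lit 2437656) (nat_lit 360374) (nat_lit 61816285) (nat_lit 2409533) [(nat_lit 360374), (nat_lit 0), (nat_lit 0), (nat_lit 0)]) (PF.cons (PF.leaf (nat_lit 2749122) (nat_lit 377463) (nat_lit 61241904) (nat_lit 2469733) [(nat_lit 377463), (nat_lit 0), (nat_lit 0), (nat_lit 0)]) (PF.cons PF.nil (PF.cons PF.nil PF.nil)))))))))))) (PF.cons (PF.cons (PF.leaf (nat_lit 1154931) (nat_lit 1065509) (nat_lit 63926188) (nat_lit 2117115) [(nat_lit 0), (nat_lit 1065509), (nat_lit 0), (nat_lit 0)]) (PF.cons (PF.leaf (nat_lit 1348986) (nat_lit 279546) (nat_lit 63543709) (nat_lit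 2176117) [(nat_lit 279546), (nat_lit 1109439), (nat_lit 0), (nat_lit 0)]) (PF.cons (PF.leaf (nat_lit 1568628) (nat_lit 300228) (nat_lit 63117475) (nat_lit 2236915) [(nat_lit 300228), (nat_lit 1153966), (nat_lit 0), (nat_lit 0)]) (PF.cons (PF.leaf (nat_lit 1810208) (nat_lit 319904) (nat_lit 62652769) (nat_lit 2298093) [(nat_lit 319904), (nat_lit 1198235), (nat_lit 0), (nat_lit 0)]) (PF.cons (PF.leaf (nat_lit 2071715) (nat_lit 338679) (nat_lit 62153730) (nat_lit 2358668) [(nat_lit 338679), (nat_lit 1241696), (nat_lit 0), (nat_lit 0)]) (PF.cons (PF.leaf (nat_lit 2351507) (nat_lit 356604)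
 (nat_lit 61623870) (nat_lit 2417938) [(nat_lit 356604), (nat_lit 1283979), (nat_lit 0), (nat_lit 0)]) (PF.cons (PF.leaf (nat_lit 2648061) (nat_lit 373710) (nat_lit 61066330) (nat_lit 2475391) [(nat_lit 373710), (nat_lit 1324825), (nat_lit 0), (nat_lit 0)]) (PF.cons (PF.leaf (nat_lit 2959951) (nat_lit 390015) (nat_lit 60483996) (nat_lit 2530653) [(nat_lit 390015), (nat_lit 1364053), (nat_lit 0), (nat_lit 0)]) (PF.cons PF.nil (PF.cons PF.nil PF.nil)))))))))) (PF.cons (PF.cons (PF.leaf (nat_lit 1779982) (nat_lit 1207342) (nat_lit 62375319) (nat_lit 2318808) [(nat_lit 0), (nat_lit 1207342), (nat_lit 0), (nat_lit 0)]) (PF.cons (PF.leaf (nat_lit 2020114) (nat_lit 334118) (nat_lit 61905093) (nat_lit 2374146) [(nat_lit 334118), (nat_lit 1247727), (nat_lit 0), (nat_lit 0)]) (PF.cons (PF.leaf (nat_lit 2281579) (nat_lit 352260) (nat_lit 61399737) (nat_lit 2429267) [(nat_lit 352260), (nat_lit 1287643), (nat_lit 0), (nat_lit 0)]) (PF.cons (PF.leaf (nat_lit 2561357) (nat_lit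 369507) (nat_lit 60863644) (nat_lit 2483380) [(nat_lit 369507), (nat_lit 1326632), (nat_lit 0), (nat_lit 0)]) (PF.cons (PF.leaf (nat_lit 2857731) (nat_lit 385912) (nat_lit 60300463) (nat_lit 2535929) [(nat_lit 385912),
 (nat_lit 1364384), (nat_lit 0), (nat_lit 0)]) (PF.cons (PF.leaf (nat_lit 3169127) (nat_lit 401506) (nat_lit 59713389) (nat_lit 2586512) [(nat_lit 401506), (nat_lit 1400688), (nat_lit 0), (nat_lit 0)]) (PF.cons (PF.leaf (nat_lit 3494106) (nat_lit 416311) (nat_lit 59105306) (nat_lit 2634843) [(nat_lit 416311), (nat_lit 1435396), (nat_lit 0), (nat_lit 0)]) (PF.cons PF.nil (PF.cons PF.nil PF.nil))))))))) (PF.cons (PF.cons (PF.leaf (nat_lit 2494670) (nat_lit 1330367) (nat_lit 60623159) (nat_lit 2494551) [(nat_lit 0), (nat_lit 1330367), (nat_lit 0), (nat_lit 0)]) (PF.cons (PF.leaf (nat_lit 2772167) (nat_lit 381223) (nat_lit 60085372) (nat_lit 2543683) [(nat_lit 381223), (nat_lit 1366177), (nat_lit 0), (nat_lit 0)]) (PF.cons (PF.leaf (nat_lit 3067093) (nat_lit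 397018) (nat_lit 59520335) (nat_lit 2591535) [(nat_lit 397018), (nat_lit 1400967), (nat_lit 0), (nat_lit 0)]) (PF.cons (PF.leaf (nat_lit 3376990) (nat_lit 411978) (nat_lit 58931764) (nat_lit 2637661) [(nat_lit 411978), (nat_lit 1434483), (nat_lit 0), (nat_lit 0)]) (PF.cons (PF.leaf (nat_lit 3700273) (nat_lit 426139) (nat_lit 58322849) (nat_lit 2681750) [(nat_lit 426139), (nat_lit 1466552), (nat_lit 0), (nat_lit 0)]) (PF.cons PF.nil
 (PF.cons PF.nil PF.nil))))))) (PF.cons (PF.cons (PF.leaf (nat_lit 3277289) (nat_lit 1434799) (nat_lit 58727051) (nat_lit 2642563) [(nat_lit 0), (nat_lit 1434799), (nat_lit 0), (nat_lit 0)]) (PF.cons (PF.leaf (nat_lit 3583988) (nat_lit 421459) (nat_lit 58140384) (nat_lit 2684421) [(nat_lit 421459), (nat_lit 1465637), (nat_lit 0), (nat_lit 0)]) (PF.cons (PF.leaf (nat_lit 3904647) (nat_lit 435044) (nat_lit 57533515) (nat_lit 2724469) [(nat_lit 435044), (nat_lit 1495185), (nat_lit 0), (nat_lit 0)]) (PF.cons (PF.leaf (nat_lit 4237151) (nat_lit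 447845) (nat_lit 56909582) (nat_lit 2762464) [(nat_lit 447845), (nat_lit 1523307), (nat_lit 0), (nat_lit 0)]) (PF.cons PF.nil PF.nil))))) (PF.cons (PF.cons (PF.leaf (nat_lit 4108153) (nat_lit 1521460) (nat_lit 56738236) (nat_lit 2763272) [(nat_lit 0), (nat_lit 1521460), (nat_lit 0), (nat_lit 0)]) (PF.cons (PF.leaf (nat_lit 4436659) (nat_lit 455328) (nat_lit 56119340) (nat_lit 2797617) [(nat_lit 455328), (nat_lit 1547305), (nat_lit 0), (nat_lit 0)]) (PF.cons (PF.leaf (nat_lit 4776042) (nat_lit 466847) (nat_lit 55486370) (nat_lit 2829939) [(nat_lit 466847), (nat_lit 1571761), (nat_lit 0), (nat_lit 0)]) (PF.cons PF.nil PF.nil)))) (PF.cons (PF.cons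
 (PF.leaf (nat_lit 4970001) (nat_lit 1591600) (nat_lit 54700892) (nat_lit 2858320) [(nat_lit 0), (nat_lit 1591600), (nat_lit 0), (nat_lit 0)]) (PF.cons PF.nil PF.nil)) (PF.cons PF.nil (PF.cons PF.nil PF.nil))))))))) (PF.cons (PF.cons (PF.cons (PF.leaf (nat_lit 1766896) (nat_lit 2335378) (nat_lit 61695229) (nat_lit 2335378) [(nat_lit 0), (nat_lit 0), (nat_lit 3078204), (nat_lit 0)]) (PF.cons (PF.leaf (nat_lit 1980660) (nat_lit 319708) (nat_lit 61273171) (nat_lit 2384336) [(nat_lit 319708), (nat_lit 0), (nat_lit 3131595), (nat_lit 0)]) (PF.cons (PF.leaf (nat_lit 2218917) (nat_lit 339451) (nat_lit 60809093) (nat_lit 2434408) [(nat_lit 339451), (nat_lit 0), (nat_lit 3186408), (nat_lit 0)]) (PF.cons (PF.leaf (nat_lit 2477703) (nat_lit 357863) (nat_lit 60309453) (nat_lit 2484443) [(nat_lit 357863), (nat_lit 0), (nat_lit 3241324), (nat_lit 0)]) (PF.cons (PF.leaf (nat_lit 2754750) (nat_lit 375148) (nat_lit 59779144) (nat_lit 2533653) [(nat_lit 375148), (nat_lit 0), (nat_lit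 3295419), (nat_lit 0)]) (PF.cons (PF.leaf (nat_lit 3048183) (nat_lit 391430) (nat_lit 59222153) (nat_lit 2581483) [(nat_lit 391430), (nat_lit 0), (nat_lit 3348025), (nat_lit 0)]) (PF.cons (PF.leaf (nat_lit 3356358)
 (nat_lit 406787) (nat_lit 58641899) (nat_lit 2627534) [(nat_lit 406787), (nat_lit 0), (nat_lit 3398655), (nat_lit 0)]) (PF.cons (PF.leaf (nat_lit 3677787) (nat_lit 421275) (nat_lit 58041408) (nat_lit 2671521) [(nat_lit 421275), (nat_lit 0), (nat_lit 3446954), (nat_lit 0)]) (PF.cons PF.nil (PF.cons PF.nil PF.nil)))))))))) (PF.cons (PF.cons (PF.leaf (nat_lit 2431235) (nat_lit 1322297) (nat_lit 60029353) (nat_lit 2498320) [(nat_lit 0), (nat_lit 1322297), (nat_lit 3258840), (nat_lit 0)]) (PF.cons (PF.leaf (nat_lit 2686380) (nat_lit 369082) (nat_lit 59531349) (nat_lit 2543436) [(nat_lit 369082), (nat_lit 1356752), (nat_lit 3308191), (nat_lit 0)]) (PF.cons (PF.leaf (nat_lit 2961183) (nat_lit 385864) (nat_lit 59001450) (nat_lit 2588060) [(nat_lit 385864), (nat_lit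 1390532), (nat_lit 3357040), (nat_lit 0)]) (PF.cons (PF.leaf (nat_lit 3252639) (nat_lit 401587) (nat_lit 58444557) (nat_lit 2631561) [(nat_lit 401587), (nat_lit 1423279), (nat_lit 3404652), (nat_lit 0)]) (PF.cons (PF.leaf (nat_lit 3558845) (nat_lit 416358) (nat_lit 57864610) (nat_lit 2673503) [(nat_lit 416358), (nat_lit 1454759), (nat_lit 3450505), (nat_lit 0)]) (PF.cons (PF.leaf (nat_lit 3878208) (nat_lit 430248) (nat_lit
 57264948) (nat_lit 2713576) [(nat_lit 430248), (nat_lit 1484818), (nat_lit 3494228), (nat_lit 0)]) (PF.cons (PF.leaf (nat_lit 4209231) (nat_lit 443307) (nat_lit 56648485) (nat_lit 2751565) [(nat_lit 443307), (nat_lit 1513357), (nat_lit 3535557), (nat_lit 0)]) (PF.cons PF.nil (PF.cons PF.nil PF.nil))))))))) (PF.cons (PF.cons (PF.leaf (nat_lit 3169980) (nat_lit 1424246) (nat_lit 58208727) (nat_lit 2638123) [(nat_lit 0), (nat_lit 1424246), (nat_lit 3413469), (nat_lit 0)]) (PF.cons (PF.leaf (nat_lit 3457445) (nat_lit 410698) (nat_lit 57655891) (nat_lit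 2677437) [(nat_lit 410698), (nat_lit 1454271), (nat_lit 3456242), (nat_lit 0)]) (PF.cons (PF.leaf (nat_lit 3760572) (nat_lit 424973) (nat_lit 57079471) (nat_lit 2715437) [(nat_lit 424973), (nat_lit 1483221), (nat_lit 3497512), (nat_lit 0)]) (PF.cons (PF.leaf (nat_lit 4076973) (nat_lit 438338) (nat_lit 56483333) (nat_lit 2751778) [(nat_lit 438338), (nat_lit 1510906), (nat_lit 3536872), (nat_lit 0)]) (PF.cons (PF.leaf (nat_lit 4405000) (nat_lit 450859) (nat_lit 55870705) (nat_lit 2786222) [(nat_lit 450859), (nat_lit 1537203), (nat_lit 3574039), (nat_lit 0)]) (PF.cons PF.nil (PF.cons PF.nil PF.nil))))))) (PF.cons (PF.cons (PF.leaf (nat_lit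
 3962660) (nat_lit 1509394) (nat_lit 56287047) (nat_lit 2753602) [(nat_lit 0), (nat_lit 1509394), (nat_lit 3539979), (nat_lit 0)]) (PF.cons (PF.leaf (nat_lit 4274586) (nat_lit 445560) (nat_lit 55697310) (nat_lit 2786372) [(nat_lit 445560), (nat_lit 1534799), (nat_lit 3575169), (nat_lit 0)]) (PF.cons (PF.leaf (nat_lit 4598797) (nat_lit 457610) (nat_lit 55090894) (nat_lit 2817444) [(nat_lit 457610), (nat_lit 1558956), (nat_lit 3608382), (nat_lit 0)]) (PF.cons (PF.leaf (nat_lit 4933290) (nat_lit 468853) (nat_lit 54470896) (nat_lit 2846637) [(nat_lit 468853), (nat_lit 1581769), (nat_lit 3639407), (nat_lit 0)]) (PF.cons PF.nil PF.nil))))) (PF.cons (PF.cons (PF.leaf (nat_lit 4791579) (nat_lit 1578748) (nat_lit 54309538) (nat_lit 2845443) [(nat_lit 0), (nat_lit 1578748), (nat_lit 3638837), (nat_lit 0)]) (PF.cons (PF.leaf (nat_lit 5121158) (nat_lit 474396) (nat_lit 53697961) (nat_lit 2871603) [(nat_lit 474396), (nat_lit 1599636), (nat_lit 3666304), (nat_lit 0)]) (PF.cons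 PF.nil (PF.cons PF.nil PF.nil)))) (PF.cons (PF.cons (PF.leaf (nat_lit 5641733) (nat_lit 1633626) (nat_lit 52313473) (nat_lit 2915321) [(nat_lit 0), (nat_lit 1633626), (nat_lit 3711886), (nat_lit 0)]) (PF.cons PF.nil
 PF.nil)) (PF.cons PF.nil (PF.cons PF.nil PF.nil)))))))) (PF.cons (PF.cons (PF.cons (PF.leaf (nat_lit 3081332) (nat_lit 2634264) (nat_lit 57647305) (nat_lit 2634264) [(nat_lit 0), (nat_lit 0), (nat_lit 3413621), (nat_lit 0)]) (PF.cons (PF.leaf (nat_lit 3346841) (nat_lit 397434) (nat_lit 57135448) (nat_lit 2670717) [(nat_lit 397434), (nat_lit 0), (nat_lit 3452606), (nat_lit 0)]) (PF.cons (PF.leaf (nat_lit 3630564) (nat_lit 412906) (nat_lit 56594862) (nat_lit 2706472) [(nat_lit 412906), (nat_lit 0), (nat_lit 3490832), (nat_lit 0)]) (PF.cons (PF.leaf (nat_lit 3929393) (nat_lit 427205) (nat_lit 56030711) (nat_lit 2741033) [(nat_lit 427205), (nat_lit 0), (nat_lit 3527725), (nat_lit 0)]) (PF.cons (PF.leaf (nat_lit 4241345) (nat_lit 440478) (nat_lit 55447057)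 (nat_lit 2774062) [(nat_lit 440478), (nat_lit 0), (nat_lit 3562888), (nat_lit 0)]) (PF.cons (PF.leaf (nat_lit 4564802) (nat_lit 452829) (nat_lit 54847247) (nat_lit 2805329) [(nat_lit 452829), (nat_lit 0), (nat_lit 3596045), (nat_lit 0)]) (PF.cons PF.nil (PF.cons PF.nil (PF.cons PF.nil PF.nil))))))))) (PF.cons (PF.cons (PF.leaf (nat_lit 3832703) (nat_lit 1496338) (nat_lit 55803772) (nat_lit 2744115) [(nat_lit 0), (nat_lit 1496338),
 (nat_lit 3532293), (nat_lit 0)]) (PF.cons (PF.leaf (nat_lit 4126209) (nat_lit 434112) (nat_lit 55247934) (nat_lit 2775147) [(nat_lit 434112), (nat_lit 1521358), (nat_lit 3565130), (nat_lit 0)]) (PF.cons (PF.leaf (nat_lit 4433893) (nat_lit 446993) (nat_lit 54671756) (nat_lit 2804863) [(nat_lit 446993), (nat_lit 1545283), (nat_lit 3596461), (nat_lit 0)]) (PF.cons (PF.leaf (nat_lit 4753308) (nat_lit 458916) (nat_lit 54079123) (nat_lit 2833001) [(nat_lit 458916), (nat_lit 1567974), (nat_lit 3625982), (nat_lit 0)]) (PF.cons (PF.leaf (nat_lit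 5082855) (nat_lit 469974) (nat_lit 53473206) (nat_lit 2859388) [(nat_lit 469974), (nat_lit 1589348), (nat_lit 3653486), (nat_lit 0)]) (PF.cons PF.nil (PF.cons PF.nil PF.nil))))))) (PF.cons (PF.cons (PF.leaf (nat_lit 4626526) (nat_lit 1565117) (nat_lit 53893488) (nat_lit 2832537) [(nat_lit 0), (nat_lit 1565117), (nat_lit 3626275), (nat_lit 0)]) (PF.cons (PF.leaf (nat_lit 4940543) (nat_lit 464241) (nat_lit 53310460) (nat_lit 2857692) [(nat_lit 464241), (nat_lit 1585872), (nat_lit 3652336), (nat_lit 0)]) (PF.cons (PF.leaf (nat_lit 5265433) (nat_lit 474922) (nat_lit 52713694) (nat_lit 2881268) [(nat_lit 474922), (nat_lit 1605435), (nat_lit 3676567),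
 (nat_lit 0)]) (PF.cons (PF.leaf (nat_lit 5599255) (nat_lit 484788) (nat_lit 52106183) (nat_lit 2903136) [(nat_lit 484788), (nat_lit 1623742), (nat_lit 3698820), (nat_lit 0)]) (PF.cons PF.nil PF.nil))))) (PF.cons (PF.cons (PF.leaf (nat_lit 5446983) (nat_lit 1619886) (nat_lit 51955751) (nat_lit 2900491) [(nat_lit 0), (nat_lit 1619886), (nat_lit 3696455), (nat_lit 0)]) (PF.cons (PF.leaf (nat_lit 5775275) (nat_lit 488713) (nat_lit 51358963) (nat_lit 2919847) [(nat_lit 488713), (nat_lit 1636573), (nat_lit 3715783), (nat_lit 0)]) (PF.cons PF.nil (PF.cons PF.nil PF.nil)))) (PF.cons (PF.cons (PF.leaf (nat_lit 6281080) (nat_lit 1662003) (nat_lit 50021645) (nat_lit 2949681) [(nat_lit 0), (nat_lit 1662003), (nat_lit 3744735), (nat_lit 0)]) (PF.cons PF.nil PF.nil)) (PF.cons PF.nil PF.nil)))))) (PF.cons (PF.cons (PF.cons (PF.leaf (nat_lit 4477277) (nat_lit 2819626) (nat_lit 53447130) (nat_lit 2819626) [(nat_lit 0), (nat_lit 0), (nat_lit 3614018), (nat_lit 0)]) (PF.cons (PF.leaf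 (nat_lit 4773799) (nat_lit 452417) (nat_lit 52897212) (nat_lit 2843654) [(nat_lit 452417), (nat_lit 0), (nat_lit 3638509), (nat_lit 0)]) (PF.cons (PF.leaf (nat_lit 5083152) (nat_lit 464029) (nat_lit 52329768) (nat_lit
 2866396) [(nat_lit 464029), (nat_lit 0), (nat_lit 3661529), (nat_lit 0)]) (PF.cons (PF.leaf (nat_lit 5402939) (nat_lit 474658) (nat_lit 51748611) (nat_lit 2887658) [(nat_lit 474658), (nat_lit 0), (nat_lit 3682856), (nat_lit 0)]) (PF.cons (PF.leaf (nat_lit 5731601) (nat_lit 484416) (nat_lit 51156798) (nat_lit 2907314) [(nat_lit 484416), (nat_lit 0), (nat_lit 3702345), (nat_lit 0)]) PF.nil))))) (PF.cons (PF.cons (PF.leaf (nat_lit 5265638) (nat_lit 1605345) (nat_lit 51574769) (nat_lit 2885502) [(nat_lit 0), (nat_lit 1605345), (nat_lit 3681065), (nat_lit 0)]) (PF.cons (PF.leaf (nat_lit 5579388) (nat_lit 478392) (nat_lit 51005394) (nat_lit 2904283) [(nat_lit 478392), (nat_lit 1622126), (nat_lit 3699538), (nat_lit 0)]) (PF.cons (PF.leaf (nat_lit 5902807)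 (nat_lit 487856) (nat_lit 50424703) (nat_lit 2921608) [(nat_lit 487856), (nat_lit 1637781), (nat_lit 3716335), (nat_lit 0)]) (PF.cons PF.nil PF.nil)))) (PF.cons (PF.cons (PF.leaf (nat_lit 6073051) (nat_lit 1647841) (nat_lit 49696305) (nat_lit 2933713) [(nat_lit 0), (nat_lit 1647841), (nat_lit 3727703), (nat_lit 0)]) (PF.cons (PF.leaf (nat_lit 6398317) (nat_lit 499091) (nat_lit 49119336) (nat_lit 2947426) [(nat_lit 499091), (nat_lit
 1660977), (nat_lit 3740334), (nat_lit 0)]) PF.nil)) (PF.cons PF.nil (PF.cons PF.nil PF.nil))))) (PF.cons (PF.cons (PF.cons (PF.leaf (nat_lit 5878312) (nat_lit 2917476) (nat_lit 49349117) (nat_lit 2917476) [(nat_lit 0), (nat_lit 0), (nat_lit 3710554), (nat_lit 0)]) (PF.cons (PF.leaf (nat_lit 6190008) (nat_lit 488765) (nat_lit 48798115) (nat_lit 2930940) [(nat_lit 488765), (nat_lit 0), (nat_lit 3722747), (nat_lit 0)]) (PF.cons (PF.leaf (nat_lit 6510375) (nat_lit 497155) (nat_lit 48237772) (nat_lit 2943072) [(nat_lit 497155), (nat_lit 0),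 (nat_lit 3733414), (nat_lit 0)]) (PF.cons PF.nil PF.nil)))) (PF.cons (PF.cons (PF.leaf (nat_lit 6669573) (nat_lit 1665065) (nat_lit 47542545) (nat_lit 2949423) [(nat_lit 0), (nat_lit 1665065), (nat_lit 3737944), (nat_lit 0)]) (PF.cons (PF.leaf (nat_lit 6990586) (nat_lit 506215) (nat_lit 46988566) (nat_lit 2958473) [(nat_lit 506215), (nat_lit 1675208), (nat_lit 3745087), (nat_lit 0)]) PF.nil)) (PF.cons PF.nil PF.nil))) (PF.cons (PF.cons (PF.cons (PF.leaf (nat_lit 7237113) (nat_lit 2951151) (nat_lit 45499947) (nat_lit 2951151) [(nat_lit 0), (nat_lit 0), (nat_lit 3731542), (nat_lit 0)]) (PF.cons PF.nil PF.nil)) (PF.cons PF.nil PF.nil)) (PF.cons PF.nil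
 (PF.cons PF.nil PF.nil)))))))) (PF.cons (PF.cons (PF.cons (PF.cons (PF.leaf (nat_lit 2960943) (nat_lit 2547781) (nat_lit 55061044) (nat_lit 2547781) [(nat_lit 0), (nat_lit 0), (nat_lit 0), (nat_lit 9499986)]) (PF.cons (PF.leaf (nat_lit 3182749) (nat_lit 356249) (nat_lit 54652298) (nat_lit 2582232) [(nat_lit 356249), (nat_lit 0), (nat_lit 0), (nat_lit 9518032)]) (PF.cons (PF.leaf (nat_lit 3427038) (nat_lit 374785) (nat_lit 54207360) (nat_lit 2616804) [(nat_lit 374785), (nat_lit 0), (nat_lit 0), (nat_lit 9535077)]) (PF.cons (PF.leaf (nat_lit 3689578) (nat_lit 391543) (nat_lit 53733097) (nat_lit 2650710) [(nat_lit 391543), (nat_lit 0), (nat_lit 0), (nat_lit 9550373)]) (PF.cons (PF.leaf (nat_lit 3967817) (nat_lit 406845) (nat_lit 53234612) (nat_lit 2683445) [(nat_lit 406845), (nat_lit 0), (nat_lit 0), (nat_lit 9563374)]) (PF.cons (PF.leaf (nat_lit 4259704) (nat_lit 420902) (nat_lit 52715948) (nat_lit 2714676) [(nat_lit 420902), (nat_lit 0), (nat_lit 0), (nat_lit 9573673)])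 (PF.cons (PF.leaf (nat_lit 4563502) (nat_lit 433866) (nat_lit 52180449) (nat_lit 2744186) [(nat_lit 433866), (nat_lit 0), (nat_lit 0), (nat_lit 9580976)]) (PF.cons (PF.leaf (nat_lit 4877811) (nat_lit 445848)
 (nat_lit 51630962) (nat_lit 2771838) [(nat_lit 445848), (nat_lit 0), (nat_lit 0), (nat_lit 9585074)]) (PF.cons (PF.leaf (nat_lit 5201237) (nat_lit 456934) (nat_lit 51069962) (nat_lit 2797548) [(nat_lit 456934), (nat_lit 0), (nat_lit 0), (nat_lit 9585829)]) (PF.cons PF.nil (PF.cons PF.nil (PF.cons PF.nil PF.nil)))))))))))) (PF.cons (PF.cons (PF.leaf (nat_lit 3622989) (nat_lit 1424164) (nat_lit 53478093) (nat_lit 2655719) [(nat_lit 0), (nat_lit 1424164), (nat_lit 0), (nat_lit 9550836)]) (PF.cons (PF.leaf (nat_lit 3879519) (nat_lit 398928) (nat_lit 53011825) (nat_lit 2685830) [(nat_lit 398928), (nat_lit 1450565), (nat_lit 0), (nat_lit 9561662)]) (PF.cons (PF.leaf (nat_lit 4153280) (nat_lit 413810) (nat_lit 52519924) (nat_lit 2715083) [(nat_lit 413810), (nat_lit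 1475929), (nat_lit 0), (nat_lit 9570254)]) (PF.cons (PF.leaf (nat_lit 4441190) (nat_lit 427408) (nat_lit 52007238) (nat_lit 2743083) [(nat_lit 427408), (nat_lit 1500046), (nat_lit 0), (nat_lit 9576220)]) (PF.cons (PF.leaf (nat_lit 4741280) (nat_lit 439896) (nat_lit 51477561) (nat_lit 2769574) [(nat_lit 439896), (nat_lit 1522807), (nat_lit 0), (nat_lit 9579283)]) (PF.cons (PF.leaf (nat_lit 5051949) (nat_lit 451401) (nat_lit
 50934002) (nat_lit 2794393) [(nat_lit 451401), (nat_lit 1544155), (nat_lit 0), (nat_lit 9579254)]) (PF.cons (PF.leaf (nat_lit 5371778) (nat_lit 462016) (nat_lit 50379186) (nat_lit 2817439) [(nat_lit 462016), (nat_lit 1564070), (nat_lit 0), (nat_lit 9576014)]) (PF.cons (PF.leaf (nat_lit 5699540) (nat_lit 471817) (nat_lit 49815374) (nat_lit 2838657) [(nat_lit 471817), (nat_lit 1582556), (nat_lit 0), (nat_lit 9569499)]) (PF.cons PF.nil (PF.cons PF.nil PF.nil)))))))))) (PF.cons (PF.cons (PF.leaf (nat_lit 4340340) (nat_lit 1497332) (nat_lit 51799077)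 (nat_lit 2743575) [(nat_lit 0), (nat_lit 1497332), (nat_lit 0), (nat_lit 9571495)]) (PF.cons (PF.leaf (nat_lit 4622572) (nat_lit 433028) (nat_lit 51295329) (nat_lit 2768507) [(nat_lit 433028), (nat_lit 1519275), (nat_lit 0), (nat_lit 9573396)]) (PF.cons (PF.leaf (nat_lit 4918081) (nat_lit 445143) (nat_lit 50773774) (nat_lit 2792147) [(nat_lit 445143), (nat_lit 1540054), (nat_lit 0), (nat_lit 9572495)]) (PF.cons (PF.leaf (nat_lit 5224457) (nat_lit 456250) (nat_lit 50237988) (nat_lit 2814300) [(nat_lit 456250), (nat_lit 1559575), (nat_lit 0), (nat_lit 9568620)]) (PF.cons (PF.leaf (nat_lit 5540159) (nat_lit 466461) (nat_lit 49690867) (nat_lit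
 2834844) [(nat_lit 466461), (nat_lit 1577796), (nat_lit 0), (nat_lit 9561664)]) (PF.cons (PF.leaf (nat_lit 5863884) (nat_lit 475857) (nat_lit 49134834) (nat_lit 2853708) [(nat_lit 475857), (nat_lit 1594700), (nat_lit 0), (nat_lit 9551579)]) (PF.cons (PF.leaf (nat_lit 6194447) (nat_lit 484507) (nat_lit 48571962) (nat_lit 2870858) [(nat_lit 484507), (nat_lit 1610296), (nat_lit 0), (nat_lit 9538356)]) (PF.cons PF.nil (PF.cons PF.nil PF.nil))))))))) (PF.cons (PF.cons (PF.leaf (nat_lit 5095059) (nat_lit 1555620) (nat_lit 50069027) (nat_lit 2812103) [(nat_lit 0), (nat_lit 1555620), (nat_lit 0), (nat_lit 9560819)]) (PF.cons (PF.leaf (nat_lit 5395913) (nat_lit 460406) (nat_lit 49543035) (nat_lit 2831737) [(nat_lit 460406), (nat_lit 1573413), (nat_lit 0), (nat_lit 9553392)]) (PF.cons (PF.leaf (nat_lit 5706890) (nat_lit 470281) (nat_lit 49005208) (nat_lit 2849926) [(nat_lit 470281), (nat_lit 1590034), (nat_lit 0), (nat_lit 9543011)]) (PF.cons (PF.leaf (nat_lit 6026087) (nat_lit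 479331) (nat_lit 48458248) (nat_lit 2866579) [(nat_lit 479331), (nat_lit 1605451), (nat_lit 0), (nat_lit 9529636)]) (PF.cons (PF.leaf (nat_lit 6352251) (nat_lit 487631) (nat_lit 47904393) (nat_lit 2881653) [(nat_lit
 487631), (nat_lit 1619656), (nat_lit 0), (nat_lit 9513271)]) (PF.cons PF.nil (PF.cons PF.nil PF.nil))))))) (PF.cons (PF.cons (PF.leaf (nat_lit 5872873) (nat_lit 1600887) (nat_lit 48322166) (nat_lit 2862835) [(nat_lit 0), (nat_lit 1600887), (nat_lit 0), (nat_lit 9520260)]) (PF.cons (PF.leaf (nat_lit 6186595) (nat_lit 482248) (nat_lit 47785668) (nat_lit 2877411) [(nat_lit 482248), (nat_lit 1614899), (nat_lit 0), (nat_lit 9503884)]) (PF.cons (PF.leaf (nat_lit 6507935) (nat_lit 490250) (nat_lit 47241937) (nat_lit 2890536) [(nat_lit 490250), (nat_lit 1627796), (nat_lit 0), (nat_lit 9484652)]) (PF.cons (PF.leaf (nat_lit 6835309) (nat_lit 497559) (nat_lit 46693039) (nat_lit 2902183) [(nat_lit 497559), (nat_lit 1639575), (nat_lit 0), (nat_lit 9462606)]) (PF.cons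 PF.nil PF.nil))))) (PF.cons (PF.cons (PF.leaf (nat_lit 6662323) (nat_lit 1634792) (nat_lit 46584528) (nat_lit 2897629) [(nat_lit 0), (nat_lit 1634792), (nat_lit 0), (nat_lit 9452691)]) (PF.cons (PF.leaf (nat_lit 6984281) (nat_lit 499426) (nat_lit 46046532) (nat_lit 2907563) [(nat_lit 499426), (nat_lit 1645421), (nat_lit 0), (nat_lit 9428184)]) (PF.cons PF.nil (PF.cons PF.nil PF.nil)))) (PF.cons (PF.cons (PF.leaf (nat_lit 7454304)
 (nat_lit 1658850) (nat_lit 44875624) (nat_lit 2918431) [(nat_lit 0), (nat_lit 1658850), (nat_lit 0), (nat_lit 9361653)]) (PF.cons PF.nil PF.nil)) (PF.cons PF.nil PF.nil)))))))) (PF.cons (PF.cons (PF.cons (PF.leaf (nat_lit 4219700) (nat_lit 2728849) (nat_lit 51321103) (nat_lit 2728849) [(nat_lit 0), (nat_lit 0), (nat_lit 3513646), (nat_lit 9545213)]) (PF.cons (PF.leaf (nat_lit 4481470) (nat_lit 417817) (nat_lit 50856045) (nat_lit 2752610) [(nat_lit 417817), (nat_lit 0), (nat_lit 3536905), (nat_lit 9545434)]) (PF.cons (PF.leaf (nat_lit 4759218)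 (nat_lit 431473) (nat_lit 50368002) (nat_lit 2775458) [(nat_lit 431473), (nat_lit 0), (nat_lit 3559199), (nat_lit 9543206)]) (PF.cons (PF.leaf (nat_lit 5049887) (nat_lit 443804) (nat_lit 49861815) (nat_lit 2797088) [(nat_lit 443804), (nat_lit 0), (nat_lit 3580188), (nat_lit 9538308)]) (PF.cons (PF.leaf (nat_lit 5351486) (nat_lit 455012) (nat_lit 49341204) (nat_lit 2817310) [(nat_lit 455012), (nat_lit 0), (nat_lit 3599649), (nat_lit 9530596)]) (PF.cons (PF.leaf (nat_lit 5662423) (nat_lit 465243) (nat_lit 48809163) (nat_lit 2836006) [(nat_lit 465243), (nat_lit 0), (nat_lit 3617438), (nat_lit 9519987)]) (PF.cons (PF.leaf (nat_lit 5981341)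
 (nat_lit 474602) (nat_lit 48268174) (nat_lit 2853108) [(nat_lit 474602), (nat_lit 0), (nat_lit 3633470), (nat_lit 9506444)]) (PF.cons (PF.leaf (nat_lit 6307072) (nat_lit 483173) (nat_lit 47720345) (nat_lit 2868583) [(nat_lit 483173), (nat_lit 0), (nat_lit 3647698), (nat_lit 9489968)]) (PF.cons PF.nil PF.nil))))))))) (PF.cons (PF.cons (PF.leaf (nat_lit 4938454) (nat_lit 1538506) (nat_lit 49665708) (nat_lit 2795587) [(nat_lit 0), (nat_lit 1538506), (nat_lit 3579163), (nat_lit 9529846)]) (PF.cons (PF.leaf (nat_lit 5222717) (nat_lit 447790) (nat_lit 49170657) (nat_lit 2814679) [(nat_lit 447790), (nat_lit 1556624), (nat_lit 3597357), (nat_lit 9521703)]) (PF.cons (PF.leaf (nat_lit 5519057) (nat_lit 458727) (nat_lit 48660161) (nat_lit 2832542) [(nat_lit 458727), (nat_lit 1573627), (nat_lit 3614197), (nat_lit 9510829)]) (PF.cons (PF.leaf (nat_lit 5825174) (nat_lit 468653) (nat_lit 48137682) (nat_lit 2849034) [(nat_lit 468653), (nat_lit 1589453), (nat_lit 3629520), (nat_lit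 9497160)]) (PF.cons (PF.leaf (nat_lit 6139512) (nat_lit 477693) (nat_lit 47605984) (nat_lit 2864069) [(nat_lit 477693), (nat_lit 1604082), (nat_lit 3643226), (nat_lit 9480674)]) (PF.cons (PF.leaf (nat_lit 6460809)
 (nat_lit 485941) (nat_lit 47067342) (nat_lit 2877604) [(nat_lit 485941), (nat_lit 1617513), (nat_lit 3655259), (nat_lit 9461385)]) (PF.cons PF.nil PF.nil))))))) (PF.cons (PF.cons (PF.leaf (nat_lit 5686862) (nat_lit 1584816) (nat_lit 47980325) (nat_lit 2845620) [(nat_lit 0), (nat_lit 1584816), (nat_lit 3626219), (nat_lit 9487015)]) (PF.cons (PF.leaf (nat_lit 5986955) (nat_lit 471457) (nat_lit 47469124) (nat_lit 2860035) [(nat_lit 471457), (nat_lit 1599197), (nat_lit 3639224), (nat_lit 9470576)]) (PF.cons (PF.leaf (nat_lit 6296143) (nat_lit 480244) (nat_lit 46948041) (nat_lit 2873129) [(nat_lit 480244), (nat_lit 1612490), (nat_lit 3650751), (nat_lit 9451421)]) (PF.cons (PF.leaf (nat_lit 6612581) (nat_lit 488221) (nat_lit 46419632) (nat_lit 2884845) [(nat_lit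 488221), (nat_lit 1624680), (nat_lit 3660733), (nat_lit 9429576)]) (PF.cons (PF.leaf (nat_lit 6935066) (nat_lit 495473) (nat_lit 45885984) (nat_lit 2895158) [(nat_lit 495473), (nat_lit 1635772), (nat_lit 3669139), (nat_lit 9405092)]) PF.nil))))) (PF.cons (PF.cons (PF.leaf (nat_lit 6452180) (nat_lit 1619752) (nat_lit 46294121) (nat_lit 2880406) [(nat_lit 0), (nat_lit 1619752), (nat_lit 3656178), (nat_lit 9418849)]) (PF.cons
 (PF.leaf (nat_lit 6762861) (nat_lit 490018) (nat_lit 45777099) (nat_lit 2890417) [(nat_lit 490018), (nat_lit 1630772), (nat_lit 3664244), (nat_lit 9394715)]) (PF.cons (PF.leaf (nat_lit 7080288) (nat_lit 497041) (nat_lit 45254371) (nat_lit 2899134) [(nat_lit 497041), (nat_lit 1640775), (nat_lit 3670850), (nat_lit 9368048)]) (PF.cons PF.nil PF.nil)))) (PF.cons (PF.cons (PF.leaf (nat_lit 7224426) (nat_lit 1644835) (nat_lit 44628631) (nat_lit 2901645) [(nat_lit 0), (nat_lit 1644835), (nat_lit 3670841), (nat_lit 9328352)]) (PF.cons (PF.leaf (nat_lit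 7541539) (nat_lit 504337) (nat_lit 44113507) (nat_lit 2907659) [(nat_lit 504337), (nat_lit 1652876), (nat_lit 3674401), (nat_lit 9297398)]) PF.nil)) (PF.cons PF.nil PF.nil)))))) (PF.cons (PF.cons (PF.cons (PF.leaf (nat_lit 5516758) (nat_lit 2828035) (nat_lit 47612124) (nat_lit 2828035) [(nat_lit 0), (nat_lit 0), (nat_lit 3608085), (nat_lit 9452483)]) (PF.cons (PF.leaf (nat_lit 5801201) (nat_lit 458958) (nat_lit 47130213) (nat_lit 2842234) [(nat_lit 458958), (nat_lit 0), (nat_lit 3620645), (nat_lit 9436116)]) (PF.cons (PF.leaf (nat_lit 6096718) (nat_lit 468843) (nat_lit 46634860) (nat_lit 2855275) [(nat_lit 468843), (nat_lit 0), (nat_lit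
 3631922), (nat_lit 9417145)]) (PF.cons (PF.leaf (nat_lit 6401014) (nat_lit 477724) (nat_lit 46129386) (nat_lit 2867054) [(nat_lit 477724), (nat_lit 0), (nat_lit 3641805), (nat_lit 9395588)]) (PF.cons (PF.leaf (nat_lit 6712611) (nat_lit 485736) (nat_lit 45616403) (nat_lit 2877517) [(nat_lit 485736), (nat_lit 0), (nat_lit 3650228), (nat_lit 9371486)]) (PF.cons (PF.leaf (nat_lit 7030287) (nat_lit 492982) (nat_lit 45098034) (nat_lit 2886641) [(nat_lit 492982), (nat_lit 0), (nat_lit 3657164), (nat_lit 9344896)]) (PF.cons PF.nil PF.nil))))))) (PF.cons (PF.cons (PF.leaf (nat_lit 6255274) (nat_lit 1603782) (nat_lit 45983556) (nat_lit 2862774) [(nat_lit 0), (nat_lit 1603782), (nat_lit 3637431), (nat_lit 9383837)]) (PF.cons (PF.leaf (nat_lit 6553245) (nat_lit 479405) (nat_lit 45490249) (nat_lit 2872846) [(nat_lit 479405), (nat_lit 1615272), (nat_lit 3645424), (nat_lit 9360188)]) (PF.cons (PF.leaf (nat_lit 6859429) (nat_lit 487235) (nat_lit 44988656) (nat_lit 2881715) [(nat_lit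 487235), (nat_lit 1625753), (nat_lit 3652074), (nat_lit 9334067)]) (PF.cons (PF.leaf (nat_lit 7172036) (nat_lit 494275) (nat_lit 44481178) (nat_lit 2889347) [(nat_lit 494275), (nat_lit 1635224), (nat_lit 3657342),
 (nat_lit 9305549)]) (PF.cons PF.nil PF.nil))))) (PF.cons (PF.cons (PF.leaf (nat_lit 7005816) (nat_lit 1630079) (nat_lit 44365812) (nat_lit 2884448) [(nat_lit 0), (nat_lit 1630079), (nat_lit 3652202), (nat_lit 9293986)]) (PF.cons (PF.leaf (nat_lit 7312509) (nat_lit 495147) (nat_lit 43870194) (nat_lit 2890688) [(nat_lit 495147), (nat_lit 1638579), (nat_lit 3655921), (nat_lit 9263779)]) (PF.cons (PF.leaf (nat_lit 7625208) (nat_lit 501317) (nat_lit 43370071) (nat_lit 2895772) [(nat_lit 501317), (nat_lit 1646154), (nat_lit 3658343), (nat_lit 9231338)]) (PF.cons PF.nil PF.nil)))) (PF.cons (PF.cons (PF.leaf (nat_lit 7759637) (nat_lit 1647827) (nat_lit 42776700) (nat_lit 2894614) [(nat_lit 0), (nat_lit 1647827), (nat_lit 3654069), (nat_lit 9185877)]) (PF.cons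 PF.nil PF.nil)) (PF.cons PF.nil PF.nil))))) (PF.cons (PF.cons (PF.cons (PF.leaf (nat_lit 6800099) (nat_lit 2866780) (nat_lit 44084139) (nat_lit 2866780) [(nat_lit 0), (nat_lit 0), (nat_lit 3633194), (nat_lit 9258308)]) (PF.cons (PF.leaf (nat_lit 7094921) (nat_lit 484780) (nat_lit 43610621) (nat_lit 2873245) [(nat_lit 484780), (nat_lit 0), (nat_lit 3637059), (nat_lit 9228987)]) (PF.cons (PF.leaf (nat_lit 7397213) (nat_lit 491768)
 (nat_lit 43130116) (nat_lit 2878616) [(nat_lit 491768), (nat_lit 0), (nat_lit 3639704), (nat_lit 9197430)]) (PF.cons (PF.leaf (nat_lit 7705224) (nat_lit 497990) (nat_lit 42644872) (nat_lit 2882879) [(nat_lit 497990), (nat_lit 0), (nat_lit 3641115), (nat_lit 9163745)]) (PF.cons PF.nil PF.nil))))) (PF.cons (PF.cons (PF.leaf (nat_lit 7534381) (nat_lit 1633487) (nat_lit 42539073) (nat_lit 2877698) [(nat_lit 0), (nat_lit 1633487), (nat_lit 3635606), (nat_lit 9151734)]) (PF.cons (PF.leaf (nat_lit 7836405) (nat_lit 498099) (nat_lit 42065829) (nat_lit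 2880828) [(nat_lit 498099), (nat_lit 1639868), (nat_lit 3635774), (nat_lit 9116862)]) (PF.cons (PF.leaf (nat_lit 8143827) (nat_lit 503528) (nat_lit 41589024) (nat_lit 2882928) [(nat_lit 503528), (nat_lit 1645405), (nat_lit 3634790), (nat_lit 9080024)]) (PF.cons PF.nil PF.nil)))) (PF.cons (PF.cons (PF.leaf (nat_lit 8269152) (nat_lit 1645144) (nat_lit 41027837) (nat_lit 2878845) [(nat_lit 0), (nat_lit 1645144), (nat_lit 3627150), (nat_lit 9030390)]) (PF.cons PF.nil PF.nil)) PF.nil))) (PF.cons (PF.cons (PF.cons (PF.leaf (nat_lit 8038814) (nat_lit 2862384) (nat_lit 40813060) (nat_lit 2862384) [(nat_lit 0), (nat_lit 0), (nat_lit 3609094),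
 (nat_lit 8996987)]) (PF.cons (PF.leaf (nat_lit 8335702) (nat_lit 499263) (nat_lit 40362469) (nat_lit 2862960) [(nat_lit 499263), (nat_lit 0), (nat_lit 3606376), (nat_lit 8958612)]) (PF.cons PF.nil PF.nil))) (PF.cons (PF.cons (PF.leaf (nat_lit 8754330) (nat_lit 1637918) (nat_lit 39379270) (nat_lit 2856217) [(nat_lit 0), (nat_lit 1637918), (nat_lit 3592356), (nat_lit 8865980)]) PF.nil) PF.nil)) (PF.cons PF.nil (PF.cons PF.nil (PF.cons PF.nil PF.nil)))))))) (PF.cons (PF.cons (PF.cons (PF.cons (PF.leaf (nat_lit 5199521) (nat_lit 2731787) (nat_lit 45897654) (nat_lit 2731787) [(nat_lit 0), (nat_lit 0), (nat_lit 0), (nat_lit 9239685)]) (PF.cons (PF.leaf (nat_lit 5453401) (nat_lit 423991) (nat_lit 45488199) (nat_lit 2747368) [(nat_lit 423991), (nat_lit 0), (nat_lit 0), (nat_lit 9224626)]) (PF.cons (PF.leaf (nat_lit 5721627) (nat_lit 436197) (nat_lit 45060047) (nat_lit 2761973) [(nat_lit 436197), (nat_lit 0), (nat_lit 0), (nat_lit 9207198)]) (PF.cons (PF.leaf (nat_lit 6001140)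 (nat_lit 447021) (nat_lit 44617499) (nat_lit 2775417) [(nat_lit 447021), (nat_lit 0), (nat_lit 0), (nat_lit 9187415)]) (PF.cons (PF.leaf (nat_lit 6290051) (nat_lit 456694) (nat_lit 44163816) (nat_lit 2787599)
 [(nat_lit 456694), (nat_lit 0), (nat_lit 0), (nat_lit 9165308)]) (PF.cons (PF.leaf (nat_lit 6586846) (nat_lit 465385) (nat_lit 43701580) (nat_lit 2798467) [(nat_lit 465385), (nat_lit 0), (nat_lit 0), (nat_lit 9140919)]) (PF.cons (PF.leaf (nat_lit 6890261) (nat_lit 473217) (nat_lit 43232897) (nat_lit 2808002) [(nat_lit 473217), (nat_lit 0), (nat_lit 0), (nat_lit 9114304)]) (PF.cons (PF.leaf (nat_lit 7199225) (nat_lit 480288) (nat_lit 42759523) (nat_lit 2816208) [(nat_lit 480288), (nat_lit 0), (nat_lit 0), (nat_lit 9085529)]) (PF.cons PF.nil PF.nil))))))))) (PF.cons (PF.cons (PF.leaf (nat_lit 5881237) (nat_lit 1536835) (nat_lit 44451492) (nat_lit 2771486) [(nat_lit 0), (nat_lit 1536835), (nat_lit 0), (nat_lit 9174499)]) (PF.cons (PF.leaf (nat_lit 6153923) (nat_lit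 449114) (nat_lit 44020332) (nat_lit 2783075) [(nat_lit 449114), (nat_lit 1550322), (nat_lit 0), (nat_lit 9152983)]) (PF.cons (PF.leaf (nat_lit 6437231) (nat_lit 458610) (nat_lit 43576985) (nat_lit 2793549) [(nat_lit 458610), (nat_lit 1562731), (nat_lit 0), (nat_lit 9129162)]) (PF.cons (PF.leaf (nat_lit 6728940) (nat_lit 467091) (nat_lit 43124446) (nat_lit 2802836) [(nat_lit 467091), (nat_lit 1574048), (nat_lit 0), (nat_lit
 9103104)]) (PF.cons (PF.leaf (nat_lit 7027579) (nat_lit 474697) (nat_lit 42665066) (nat_lit 2810901) [(nat_lit 474697), (nat_lit 1584287), (nat_lit 0), (nat_lit 9074883)]) (PF.cons (PF.leaf (nat_lit 7332021) (nat_lit 481538) (nat_lit 42200753) (nat_lit 2817739) [(nat_lit 481538), (nat_lit 1593474), (nat_lit 0), (nat_lit 9044576)]) (PF.cons PF.nil PF.nil))))))) (PF.cons (PF.cons (PF.leaf (nat_lit 6584910) (nat_lit 1568563) (nat_lit 42992752) (nat_lit 2797982) [(nat_lit 0), (nat_lit 1568563), (nat_lit 0), (nat_lit 9090475)]) (PF.cons (PF.leaf (nat_lit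 6870445) (nat_lit 468304) (nat_lit 42551178) (nat_lit 2805794) [(nat_lit 468304), (nat_lit 1578783), (nat_lit 0), (nat_lit 9062984)]) (PF.cons (PF.leaf (nat_lit 7163865) (nat_lit 475747) (nat_lit 42102050) (nat_lit 2812491) [(nat_lit 475747), (nat_lit 1588020), (nat_lit 0), (nat_lit 9033367)]) (PF.cons (PF.leaf (nat_lit 7463417) (nat_lit 482405) (nat_lit 41647523) (nat_lit 2818056) [(nat_lit 482405), (nat_lit 1596285), (nat_lit 0), (nat_lit 9001722)]) (PF.cons (PF.leaf (nat_lit 7768031) (nat_lit 488372) (nat_lit 41189332) (nat_lit 2822491) [(nat_lit 488372), (nat_lit 1603604), (nat_lit 0), (nat_lit 8968144)]) PF.nil))))) (PF.cons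
 (PF.cons (PF.leaf (nat_lit 7299983) (nat_lit 1590930) (nat_lit 41543485) (nat_lit 2812853) [(nat_lit 0), (nat_lit 1590930), (nat_lit 0), (nat_lit 8989841)]) (PF.cons (PF.leaf (nat_lit 7593841) (nat_lit 482891) (nat_lit 41099573) (nat_lit 2817234) [(nat_lit 482891), (nat_lit 1598332), (nat_lit 0), (nat_lit 8957057)]) (PF.cons (PF.leaf (nat_lit 7893512) (nat_lit 488711) (nat_lit 40651477) (nat_lit 2820568) [(nat_lit 488711), (nat_lit 1604854), (nat_lit 0), (nat_lit 8922389)]) (PF.cons PF.nil PF.nil)))) (PF.cons (PF.cons (PF.leaf (nat_lit 8018462) (nat_lit 1605441) (nat_lit 40119224) (nat_lit 2817654) [(nat_lit 0), (nat_lit 1605441), (nat_lit 0), (nat_lit 8875084)]) (PF.cons (PF.leaf (nat_lit 8317186) (nat_lit 493783) (nat_lit 39678798) (nat_lit 2818999) [(nat_lit 493783), (nat_lit 1610419), (nat_lit 0), (nat_lit 8837777)]) PF.nil)) (PF.cons PF.nil PF.nil)))))) (PF.cons (PF.cons (PF.cons (PF.leaf (nat_lit 6403554) (nat_lit 2778948) (nat_lit 42691530) (nat_lit 2778948)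 [(nat_lit 0), (nat_lit 0), (nat_lit 3532162), (nat_lit 9053086)]) (PF.cons (PF.leaf (nat_lit 6675015) (nat_lit 455809) (nat_lit 42275013) (nat_lit 2787037) [(nat_lit 455809), (nat_lit 0), (nat_lit 3537538), (nat_lit
 9026706)]) (PF.cons (PF.leaf (nat_lit 6956310) (nat_lit 464424) (nat_lit 41847771) (nat_lit 2794090) [(nat_lit 464424), (nat_lit 0), (nat_lit 3541796), (nat_lit 8998152)]) (PF.cons (PF.leaf (nat_lit 7245234) (nat_lit 472047) (nat_lit 41412642) (nat_lit 2800062) [(nat_lit 472047), (nat_lit 0), (nat_lit 3544887), (nat_lit 8967539)]) (PF.cons (PF.leaf (nat_lit 7540407) (nat_lit 478825) (nat_lit 40971835) (nat_lit 2804936) [(nat_lit 478825), (nat_lit 0), (nat_lit 3546794), (nat_lit 8934972)]) (PF.cons (PF.leaf (nat_lit 7840698) (nat_lit 484868) (nat_lit 40527121) (nat_lit 2808719) [(nat_lit 484868), (nat_lit 0), (nat_lit 3547519), (nat_lit 8900555)]) (PF.cons PF.nil PF.nil))))))) (PF.cons (PF.cons (PF.leaf (nat_lit 7095891) (nat_lit 1574912) (nat_lit 41291074)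 (nat_lit 2794809) [(nat_lit 0), (nat_lit 1574912), (nat_lit 3539338), (nat_lit 8954338)]) (PF.cons (PF.leaf (nat_lit 7378511) (nat_lit 472450) (nat_lit 40867196) (nat_lit 2799580) [(nat_lit 472450), (nat_lit 1582973), (nat_lit 3541155), (nat_lit 8922728)]) (PF.cons (PF.leaf (nat_lit 7668348) (nat_lit 479122) (nat_lit 40436863) (nat_lit 2803340) [(nat_lit 479122), (nat_lit 1590129), (nat_lit 3541870), (nat_lit 8889182)]) (PF.cons
 (PF.leaf (nat_lit 7963705) (nat_lit 485037) (nat_lit 40002091) (nat_lit 2806085) [(nat_lit 485037), (nat_lit 1596401), (nat_lit 3541479), (nat_lit 8853822)]) (PF.cons PF.nil PF.nil))))) (PF.cons (PF.cons (PF.leaf (nat_lit 7796324) (nat_lit 1591027) (nat_lit 39906655) (nat_lit 2800735) [(nat_lit 0), (nat_lit 1591027), (nat_lit 3535787), (nat_lit 8841789)]) (PF.cons (PF.leaf (nat_lit 8085941) (nat_lit 484868) (nat_lit 39482538) (nat_lit 2802521) [(nat_lit 484868), (nat_lit 1596586), (nat_lit 3534373), (nat_lit 8805668)]) (PF.cons (PF.leaf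 (nat_lit 8380799) (nat_lit 490021) (nat_lit 39055024) (nat_lit 2803371) [(nat_lit 490021), (nat_lit 1601346), (nat_lit 3531931), (nat_lit 8767875)]) (PF.cons PF.nil PF.nil)))) (PF.cons (PF.cons (PF.leaf (nat_lit 8497757) (nat_lit 1600325) (nat_lit 38551217) (nat_lit 2798105) [(nat_lit 0), (nat_lit 1600325), (nat_lit 3522940), (nat_lit 8717785)]) (PF.cons PF.nil PF.nil)) (PF.cons PF.nil PF.nil))))) (PF.cons (PF.cons (PF.cons (PF.leaf (nat_lit 7586420) (nat_lit 2783223) (nat_lit 39677838) (nat_lit 2783223) [(nat_lit 0), (nat_lit 0), (nat_lit 3516860), (nat_lit 8807015)]) (PF.cons (PF.leaf (nat_lit 7865497) (nat_lit 474792) (nat_lit 39272271) (nat_lit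
 2785474) [(nat_lit 474792), (nat_lit 0), (nat_lit 3515886), (nat_lit 8772250)]) (PF.cons (PF.leaf (nat_lit 8151239) (nat_lit 480787) (nat_lit 38861150) (nat_lit 2786808) [(nat_lit 480787), (nat_lit 0), (nat_lit 3513912), (nat_lit 8735727)]) (PF.cons (PF.leaf (nat_lit 8441968) (nat_lit 486051) (nat_lit 38446359) (nat_lit 2787232) [(nat_lit 486051), (nat_lit 0), (nat_lit 3510948), (nat_lit 8697585)]) (PF.cons PF.nil PF.nil))))) (PF.cons (PF.cons (PF.leaf (nat_lit 8271520) (nat_lit 1586548) (nat_lit 38358889) (nat_lit 2781833) [(nat_lit 0), (nat_lit 1586548), (nat_lit 3505168), (nat_lit 8685602)]) (PF.cons (PF.leaf (nat_lit 8556515) (nat_lit 485347) (nat_lit 37954617) (nat_lit 2781484) [(nat_lit 485347), (nat_lit 1590556), (nat_lit 3501393), (nat_lit 8647010)]) (PF.cons PF.nil (PF.cons PF.nil PF.nil)))) (PF.cons (PF.cons (PF.leaf (nat_lit 8955774) (nat_lit 1591519) (nat_lit 37071334) (nat_lit 2773168) [(nat_lit 0), (nat_lit 1591519), (nat_lit 3485635), (nat_lit 8554999)])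 (PF.cons PF.nil PF.nil)) PF.nil))) (PF.cons (PF.cons (PF.cons (PF.leaf (nat_lit 8726550) (nat_lit 2757598) (nat_lit 36897220) (nat_lit 2757598) [(nat_lit 0), (nat_lit 0), (nat_lit 3468579), (nat_lit 8524128)])
 (PF.cons (PF.leaf (nat_lit 9006657) (nat_lit 484595) (nat_lit 36512494) (nat_lit 2755496) [(nat_lit 484595), (nat_lit 0), (nat_lit 3462890), (nat_lit 8483777)]) PF.nil)) (PF.cons PF.nil PF.nil)) (PF.cons PF.nil (PF.cons PF.nil PF.nil)))))) (PF.cons (PF.cons (PF.cons (PF.cons (PF.leaf (nat_lit 7173828) (nat_lit 2701211) (nat_lit 38554557) (nat_lit 2701211) [(nat_lit 0), (nat_lit 0), (nat_lit 0), (nat_lit 8617681)]) (PF.cons (PF.leaf (nat_lit 7432630) (nat_lit 447427) (nat_lit 38195484) (nat_lit 2705433) [(nat_lit 447427), (nat_lit 0), (nat_lit 0), (nat_lit 8586822)]) (PF.cons (PF.leaf (nat_lit 7700345) (nat_lit 455079) (nat_lit 37827584) (nat_lit 2708731) [(nat_lit 455079), (nat_lit 0), (nat_lit 0), (nat_lit 8554112)]) (PF.cons (PF.leaf (nat_lit 7974843) (nat_lit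 461765) (nat_lit 37453280) (nat_lit 2711091) [(nat_lit 461765), (nat_lit 0), (nat_lit 0), (nat_lit 8519714)]) (PF.cons (PF.leaf (nat_lit 8254836) (nat_lit 467639) (nat_lit 37074437) (nat_lit 2712522) [(nat_lit 467639), (nat_lit 0), (nat_lit 0), (nat_lit 8483765)]) (PF.cons PF.nil (PF.cons PF.nil PF.nil))))))) (PF.cons (PF.cons (PF.leaf (nat_lit 7824800) (nat_lit 1532335) (nat_lit 37351723) (nat_lit 2705481) [(nat_lit 0),
 (nat_lit 1532335), (nat_lit 0), (nat_lit 8506424)]) (PF.cons (PF.leaf (nat_lit 8093155) (nat_lit 461361) (nat_lit 36987378) (nat_lit 2706979) [(nat_lit 461361), (nat_lit 1538114), (nat_lit 0), (nat_lit 8471659)]) (PF.cons (PF.leaf (nat_lit 8368005) (nat_lit 467184) (nat_lit 36617766) (nat_lit 2707614) [(nat_lit 467184), (nat_lit 1543079), (nat_lit 0), (nat_lit 8435327)]) (PF.cons (PF.leaf (nat_lit 8647726) (nat_lit 472284) (nat_lit 36244589) (nat_lit 2707398) [(nat_lit 472284), (nat_lit 1547261), (nat_lit 0), (nat_lit 8397569)]) (PF.cons PF.nil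 PF.nil))))) (PF.cons (PF.cons (PF.leaf (nat_lit 8481572) (nat_lit 1541912) (nat_lit 36165278) (nat_lit 2701993) [(nat_lit 0), (nat_lit 1541912), (nat_lit 0), (nat_lit 8385905)]) (PF.cons (PF.leaf (nat_lit 8755793) (nat_lit 471478) (nat_lit 35801374) (nat_lit 2701103) [(nat_lit 471478), (nat_lit 1545560), (nat_lit 0), (nat_lit 8347911)]) (PF.cons PF.nil (PF.cons PF.nil PF.nil)))) (PF.cons (PF.cons (PF.leaf (nat_lit 9138197) (nat_lit 1545919) (nat_lit 35005044) (nat_lit 2691952) [(nat_lit 0), (nat_lit 1545919), (nat_lit 0), (nat_lit 8258019)]) (PF.cons PF.nil PF.nil)) (PF.cons PF.nil PF.nil))))) (PF.cons (PF.cons (PF.cons (PF.leaf (nat_lit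
 8271492) (nat_lit 2685344) (nat_lit 35978171) (nat_lit 2685344) [(nat_lit 0), (nat_lit 0), (nat_lit 3384564), (nat_lit 8353577)]) (PF.cons (PF.leaf (nat_lit 8536258) (nat_lit 461839) (nat_lit 35629821) (nat_lit 2685033) [(nat_lit 461839), (nat_lit 0), (nat_lit 3380783), (nat_lit 8317111)]) (PF.cons (PF.leaf (nat_lit 8807080) (nat_lit 467104) (nat_lit 35276861) (nat_lit 2683938) [(nat_lit 467104), (nat_lit 0), (nat_lit 3376162), (nat_lit 8279213)]) (PF.cons PF.nil (PF.cons PF.nil PF.nil))))) (PF.cons (PF.cons (PF.leaf (nat_lit 8914166) (nat_lit 1532969) (nat_lit 34848105) (nat_lit 2676749) [(nat_lit 0), (nat_lit 1532969), (nat_lit 3365021), (nat_lit 8228655)]) (PF.cons (PF.leaf (nat_lit 9183985) (nat_lit 470481) (nat_lit 34501168) (nat_lit 2674350) [(nat_lit 470481), (nat_lit 1535448), (nat_lit 3359049), (nat_lit 8189438)]) (PF.cons PF.nil (PF.cons PF.nil PF.nil)))) (PF.cons (PF.cons (PF.leaf (nat_lit 9555405) (nat_lit 1533808) (nat_lit 33745348) (nat_lit 2662565)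 [(nat_lit 0), (nat_lit 1533808), (nat_lit 3339636), (nat_lit 8097881)]) (PF.cons PF.nil PF.nil)) PF.nil))) (PF.cons (PF.cons (PF.cons (PF.leaf (nat_lit 9329736) (nat_lit 2648144) (nat_lit 33602897) (nat_lit 2648144)
 [(nat_lit 0), (nat_lit 0), (nat_lit 3323890), (nat_lit 8069996)]) (PF.cons (PF.leaf (nat_lit 9594997) (nat_lit 468612) (nat_lit 33272447) (nat_lit 2644508) [(nat_lit 468612), (nat_lit 0), (nat_lit 3316619), (nat_lit 8030001)]) PF.nil)) (PF.cons PF.nil PF.nil)) (PF.cons PF.nil (PF.cons PF.nil PF.nil))))) (PF.cons (PF.cons (PF.cons (PF.cons (PF.leaf (nat_lit 8879218) (nat_lit 2583002) (nat_lit 32850593) (nat_lit 2583002) [(nat_lit 0), (nat_lit 0), (nat_lit 0), (nat_lit 7918804)]) (PF.cons (PF.leaf (nat_lit 9131044) (nat_lit 447603) (nat_lit 32549714) (nat_lit 2581129) [(nat_lit 447603), (nat_lit 0), (nat_lit 0), (nat_lit 7882591)]) (PF.cons (PF.leaf (nat_lit 9388485) (nat_lit 452311) (nat_lit 32244895) (nat_lit 2578575) [(nat_lit 452311), (nat_lit 0),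 (nat_lit 0), (nat_lit 7845179)]) (PF.cons PF.nil PF.nil)))) (PF.cons (PF.cons (PF.leaf (nat_lit 9485075) (nat_lit 1477434) (nat_lit 31876448) (nat_lit 2570247) [(nat_lit 0), (nat_lit 1477434), (nat_lit 0), (nat_lit 7796170)]) (PF.cons (PF.leaf (nat_lit 9741366) (nat_lit 454876) (nat_lit 31576772) (nat_lit 2566656) [(nat_lit 454876), (nat_lit 1478907), (nat_lit 0), (nat_lit 7757900)]) PF.nil)) (PF.cons PF.nil PF.nil))) (PF.cons (PF.cons
 (PF.cons (PF.leaf (nat_lit 9868488) (nat_lit 2539856) (nat_lit 30807714) (nat_lit 2539856) [(nat_lit 0), (nat_lit 0), (nat_lit 3182032), (nat_lit 7644802)]) (PF.cons PF.nil PF.nil)) (PF.cons PF.nil PF.nil)) (PF.cons PF.nil PF.nil))) (PF.cons (PF.cons (PF.cons (PF.cons (PF.leaf (nat_lit 10356870) (nat_lit 2435643) (nat_lit 28414872) (nat_lit 2435643) [(nat_lit 0), (nat_lit 0), (nat_lit 0), (nat_lit 7251659)]) (PF.cons PF.nil PF.nil)) (PF.cons PF.nil PF.nil)) (PF.cons PF.nil PF.nil)) (PF.cons PF.nil (PF.cons PF.nil (PF.cons PF.nil PF.nil)))))))))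

def p13_13_0_0 : pfC (piC [(nat_lit 39120232), (nat_lit 25510466), (nat_lit 18971201), (nat_lit 12765436)] (nat_lit 24651042)) p13_13_0 (nat_lit 4) (nat_lit 0) (nat_lit 1) = true := by decide +kernel
def p13_13_0_1 : pfC (piC [(nat_lit 39120232), (nat_lit 25510466), (nat_lit 18971201), (nat_lit 12765436)] (nat_lit 24651042)) p13_13_0 (nat_lit 4) (nat_lit 1) (nat_lit 2) = true := by decide +kernel
def p13_13_0_2 : pfC (piC [(nat_lit 39120232), (nat_lit 25510466), (nat_lit 18971201), (nat_lit 12765436)] (nat_lit 24651042)) p13_13_0 (nat_lit 4) (nat_lit 2) (nat_lit 3) = true := by decide +kernel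
def p13_13_0_3 : pfC (piC [(nat_lit 39120232), (nat_lit 25510466), (nat_lit 18971201), (nat_lit 12765436)] (nat_lit 24651042)) p13_13_0 (nat_lit 4) (nat_lit 3) (nat_lit 4) = true := by decide +kernel
def p13_13_0_4 : pfC (piC [(nat_lit 39120232), (nat_lit 25510466), (nat_lit 18971201), (nat_lit 12765436)] (nat_lit 24651042)) p13_13_0 (nat_lit 4) (nat_lit 4) (nat_lit 5) = true := by decide +kernel
def p13_13_0_5 : pfC (piC [(nat_lit 39120232), (nat_lit 25510466), (nat_lit 18971201), (nat_lit 12765436)] (nat_lit 24651042)) p13_13_0 (nat_lit 4) (nat_lit 5) (nat_lit 6) = true := by decide +kernel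
def p13_13_0_6 : pfC (piC [(nat_lit 39120232), (nat_lit 25510466), (nat_lit 18971201), (nat_lit 12765436)] (nat_lit 24651042)) p13_13_0 (nat_lit 4) (nat_lit 6) (nat_lit 7) = true := by decide +kernel
def p13_13_0_7 : pfC (piC [(nat_lit 39120232), (nat_lit 25510466), (nat_lit 18971201), (nat_lit 12765436)] (nat_lit 24651042)) p13_13_0 (nat_lit 4) (nat_lit 7) (nat_lit 8) = true := by decide +kernel
def p13_13_0_8 : pfC (piC [(nat_lit 39120232), (nat_lit 25510466), (nat_lit 18971201), (nat_lit 12765436)] (nat_lit 24651042)) p13_13_0 (nat_lit 4) (nat_lit 8) (nat_lit 9) = true := by decide +kernel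
def p13_13_0_9 : pfC (piC [(nat_lit 39120232), (nat_lit 25510466), (nat_lit 18971201), (nat_lit 12765436)] (nat_lit 24651042)) p13_13_0 (nat_lit 4) (nat_lit 9) (nat_lit 10) = true := by decide +kernel
def p13_13_0_10 : pfC (piC [(nat_lit 39120232), (nat_lit 25510466), (nat_lit 18971201), (nat_lit 12765436)] (nat_lit 24651042)) p13_13_0 (nat_lit 4) (nat_lit 10) (nat_lit 11) = true := by decide +kernel
def p13_13_0_11 : pfC (piC [(nat_lit 39120232), (nat_lit 25510466), (nat_lit 18971201), (nat_lit 12765436)] (nat_lit 24651042)) p13_13_0 (nat_lit 4) (nat_lit 11) (nat_lit 12) = true := by decide +kernel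
def p13_13_0_12 : pfC (piC [(nat_lit 39120232), (nat_lit 25510466), (nat_lit 18971201), (nat_lit 12765436)] (nat_lit 24651042)) p13_13_0 (nat_lit 4) (nat_lit 12) (nat_lit 13) = true := by decide +kernel
def p13_13_0_13 : pfC (piC [(nat_lit 39120232), (nat_lit 25510466), (nat_lit 18971201), (nat_lit 12765436)] (nat_lit 24651042)) p13_13_0 (nat_lit 4) (nat_lit 13) (nat_lit 14) = true := by decide +kernel
def p13_13_0_14 : pfC (piC [(nat_lit 39120232), (nat_lit 25510466), (nat_lit 18971201), (nat_lit 12765436)] (nat_lit 24651042)) p13_13_0 (nat_lit 4) (nat_lit 14) (nat_lit 15) = true := by decide +kernel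
def p13_13_0_15 : pfC (piC [(nat_lit 39120232), (nat_lit 25510466), (nat_lit 18971201), (nat_lit 12765436)] (nat_lit 24651042)) p13_13_0 (nat_lit 4) (nat_lit 15) (nat_lit 16) = true := by decide +kernel
def p13_13_0_16 : pfC (piC [(nat_lit 39120232), (nat_lit 25510466), (nat_lit 18971201), (nat_lit 12765436)] (nat_lit 24651042)) p13_13_0 (nat_lit 4) (nat_lit 16) (nat_lit 17) = true := by decide +kernel
def p13_13_0_17 : pfC (piC [(nat_lit 39120232), (nat_lit 25510466), (nat_lit 18971201), (nat_lit 12765436)] (nat_lit 24651042)) p13_13_0 (nat_lit 4) (nat_lit 17) (nat_lit 18) = true := by decide +kernel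
def p13_13_0_18 : pfC (piC [(nat_lit 39120232), (nat_lit 25510466), (nat_lit 18971201), (nat_lit 12765436)] (nat_lit 24651042)) p13_13_0 (nat_lit 4) (nat_lit 18) (nat_lit 19) = true := by decide +kernel
def p13_13_0_19 : pfC (piC [(nat_lit 39120232), (nat_lit 25510466), (nat_lit 18971201), (nat_lit 12765436)] (nat_lit 24651042)) p13_13_0 (nat_lit 4) (nat_lit 19) (nat_lit 20) = true := by decide +kernel
def p13_13_0_20 : pfC (piC [(nat_lit 39120232), (nat_lit 25510466), (nat_lit 18971201), (nat_lit 12765436)] (nat_lit 24651042)) p13_13_0 (nat_lit 4) (nat_lit 20) (nat_lit 21) = true := by decide +kernel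
def p13_13_0_21 : pfC (piC [(nat_lit 39120232), (nat_lit 25510466), (nat_lit 18971201), (nat_lit 12765436)] (nat_lit 24651042)) p13_13_0 (nat_lit 4) (nat_lit 21) (nat_lit 22) = true := by decide +kernel
def p13_13_0_22 : pfC (piC [(nat_lit 39120232), (nat_lit 25510466), (nat_lit 18971201), (nat_lit 12765436)] (nat_lit 24651042)) p13_13_0 (nat_lit 4) (nat_lit 22) (nat_lit 23) = true := by decide +kernel
def p13_13_0_23 : pfC (piC [(nat_lit 39120232), (nat_lit 25510466), (nat_lit 18971201), (nat_lit 12765436)] (nat_lit 24651042)) p13_13_0 (nat_lit 4) (nat_lit 23) (nat_lit 24) = true := by decide +kernel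
def p13_13_0_24 : pfC (piC [(nat_lit 39120232), (nat_lit 25510466), (nat_lit 18971201), (nat_lit 12765436)] (nat_lit 24651042)) p13_13_0 (nat_lit 4) (nat_lit 24) (nat_lit 25) = true := by decide +kernel
def p13_13_0_25 : pfC (piC [(nat_lit 39120232), (nat_lit 25510466), (nat_lit 18971201), (nat_lit 12765436)] (nat_lit 24651042)) p13_13_0 (nat_lit 4) (nat_lit 25) (nat_lit 26) = true := by decide +kernel
def p13_13_0_26 : pfC (piC [(nat_lit 39120232), (nat_lit 25510466), (nat_lit 18971201), (nat_lit 12765436)] (nat_lit 24651042)) p13_13_0 (nat_lit 4) (nat_lit 26) (nat_lit 27) = true := by decide +kernel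
def p13_13_0_27 : pfC (piC [(nat_lit 39120232), (nat_lit 25510466), (nat_lit 18971201), (nat_lit 12765436)] (nat_lit 24651042)) p13_13_0 (nat_lit 4) (nat_lit 27) (nat_lit 28) = true := by decide +kernel
def p13_13_0_28 : pfC (piC [(nat_lit 39120232), (nat_lit 25510466), (nat_lit 18971201), (nat_lit 12765436)] (nat_lit 24651042)) p13_13_0 (nat_lit 4) (nat_lit 28) (nat_lit 29) = true := by decide +kernel
def p13_13_0_29 : pfC (piC [(nat_lit 39120232), (nat_lit 25510466), (nat_lit 18971201), (nat_lit 12765436)] (nat_lit 24651042)) p13_13_0 (nat_lit 4) (nat_lit 29) (nat_lit 30) = true := by decide +kernel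
def p13_13_0_30 : pfC (piC [(nat_lit 39120232), (nat_lit 25510466), (nat_lit 18971201), (nat_lit 12765436)] (nat_lit 24651042)) p13_13_0 (nat_lit 4) (nat_lit 30) (nat_lit 31) = true := by decide +kernel
def p13_13_0_31 : pfC (piC [(nat_lit 39120232), (nat_lit 25510466), (nat_lit 18971201), (nat_lit 12765436)] (nat_lit 24651042)) p13_13_0 (nat_lit 4) (nat_lit 31) (nat_lit 32) = true := by decide +kernel
def p13_13_0_32 : pfC (piC [(nat_lit 39120232), (nat_lit 25510466), (nat_lit 18971201), (nat_lit 12765436)] (nat_lit 24651042)) p13_13_0 (nat_lit 4) (nat_lit 32) (nat_lit 33) = true := by decide +kernel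
def p13_13_0_33 : pfC (piC [(nat_lit 39120232), (nat_lit 25510466), (nat_lit 18971201), (nat_lit 12765436)] (nat_lit 24651042)) p13_13_0 (nat_lit 4) (nat_lit 33) (nat_lit 34) = true := by decide +kernel
def p13_13_0_34 : pfC (piC [(nat_lit 39120232), (nat_lit 25510466), (nat_lit 18971201), (nat_lit 12765436)] (nat_lit 24651042)) p13_13_0 (nat_lit 4) (nat_lit 34) (nat_lit 35) = true := by decide +kernel
def p13_13_0_35 : pfC (piC [(nat_lit 39120232), (nat_lit 25510466), (nat_lit 18971201), (nat_lit 12765436)] (nat_lit 24651042)) p13_13_0 (nat_lit 4) (nat_lit 35) (nat_lit 36) = true := by decide +kernel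
def p13_13_0_36 : pfC (piC [(nat_lit 39120232), (nat_lit 25510466), (nat_lit 18971201), (nat_lit 12765436)] (nat_lit 24651042)) p13_13_0 (nat_lit 4) (nat_lit 36) (nat_lit 37) = true := by decide +kernel
def p13_13_0_37 : pfC (piC [(nat_lit 39120232), (nat_lit 25510466), (nat_lit 18971201), (nat_lit 12765436)] (nat_lit 24651042)) p13_13_0 (nat_lit 4) (nat_lit 37) (nat_lit 38) = true := by decide +kernel
def p13_13_0_38 : pfC (piC [(nat_lit 39120232), (nat_lit 25510466), (nat_lit 18971201), (nat_lit 12765436)] (nat_lit 24651042)) p13_13_0 (nat_lit 4) (nat_lit 38) (nat_lit 39) = true := by decide +kernel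
def p13_13_0_39 : pfC (piC [(nat_lit 39120232), (nat_lit 25510466), (nat_lit 18971201), (nat_lit 12765436)] (nat_lit 24651042)) p13_13_0 (nat_lit 4) (nat_lit 39) (nat_lit 40) = true := by decide +kernel
def p13_13_0_40 : pfC (piC [(nat_lit 39120232), (nat_lit 25510466), (nat_lit 18971201), (nat_lit 12765436)] (nat_lit 24651042)) p13_13_0 (nat_lit 4) (nat_lit 40) (nat_lit 41) = true := by decide +kernel
def p13_13_0_41 : pfC (piC [(nat_lit 39120232), (nat_lit 25510466), (nat_lit 18971201), (nat_lit 12765436)] (nat_lit 24651042)) p13_13_0 (nat_lit 4) (nat_lit 41) (nat_lit 42) = true := by decide +kernel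
def p13_13_0_42 : pfC (piC [(nat_lit 39120232), (nat_lit 25510466), (nat_lit 18971201), (nat_lit 12765436)] (nat_lit 24651042)) p13_13_0 (nat_lit 4) (nat_lit 42) (nat_lit 43) = true := by decide +kernel
def p13_13_0_43 : pfC (piC [(nat_lit 39120232), (nat_lit 25510466), (nat_lit 18971201), (nat_lit 12765436)] (nat_lit 24651042)) p13_13_0 (nat_lit 4) (nat_lit 43) (nat_lit 44) = true := by decide +kernel
def p13_13_0_44 : pfC (piC [(nat_lit 39120232), (nat_lit 25510466), (nat_lit 18971201), (nat_lit 12765436)] (nat_lit 24651042)) p13_13_0 (nat_lit 4) (nat_lit 44) (nat_lit 45) = true := by decide +kernel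
def p13_13_0_45 : pfC (piC [(nat_lit 39120232), (nat_lit 25510466), (nat_lit 18971201), (nat_lit 12765436)] (nat_lit 24651042)) p13_13_0 (nat_lit 4) (nat_lit 45) (nat_lit 46) = true := by decide +kernel
def p13_13_0_46 : pfC (piC [(nat_lit 39120232), (nat_lit 25510466), (nat_lit 18971201), (nat_lit 12765436)] (nat_lit 24651042)) p13_13_0 (nat_lit 4) (nat_lit 46) (nat_lit 47) = true := by decide +kernel
def p13_13_0_47 : pfC (piC [(nat_lit 39120232), (nat_lit 25510466), (nat_lit 18971201), (nat_lit 12765436)] (nat_lit 24651042)) p13_13_0 (nat_lit 4) (nat_lit 47) (nat_lit 48) = true := by decide +kernel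
def p13_13_0_48 : pfC (piC [(nat_lit 39120232), (nat_lit 25510466), (nat_lit 18971201), (nat_lit 12765436)] (nat_lit 24651042)) p13_13_0 (nat_lit 4) (nat_lit 48) (nat_lit 49) = true := by decide +kernel
def p13_13_0_49 : pfC (piC [(nat_lit 39120232), (nat_lit 25510466), (nat_lit 18971201), (nat_lit 12765436)] (nat_lit 24651042)) p13_13_0 (nat_lit 4) (nat_lit 49) (nat_lit 50) = true := by decide +kernel
def p13_13_0_50 : pfC (piC [(nat_lit 39120232), (nat_lit 25510466), (nat_lit 18971201), (nat_lit 12765436)] (nat_lit 24651042)) p13_13_0 (nat_lit 4) (nat_lit 50) (nat_lit 51) = true := by decide +kernel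
def p13_13_0_51 : pfC (piC [(nat_lit 39120232), (nat_lit 25510466), (nat_lit 18971201), (nat_lit 12765436)] (nat_lit 24651042)) p13_13_0 (nat_lit 4) (nat_lit 51) (nat_lit 52) = true := by decide +kernel
def p13_13_0_52 : pfC (piC [(nat_lit 39120232), (nat_lit 25510466), (nat_lit 18971201), (nat_lit 12765436)] (nat_lit 24651042)) p13_13_0 (nat_lit 4) (nat_lit 52) (nat_lit 53) = true := by decide +kernel
def p13_13_0_53 : pfC (piC [(nat_lit 39120232), (nat_lit 25510466), (nat_lit 18971201), (nat_lit 12765436)] (nat_lit 24651042)) p13_13_0 (nat_lit 4) (nat_lit 53) (nat_lit 54) = true := by decide +kernel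
def p13_13_0_54 : pfC (piC [(nat_lit 39120232), (nat_lit 25510466), (nat_lit 18971201), (nat_lit 12765436)] (nat_lit 24651042)) p13_13_0 (nat_lit 4) (nat_lit 54) (nat_lit 55) = true := by decide +kernel
def p13_13_0_55 : pfC (piC [(nat_lit 39120232), (nat_lit 25510466), (nat_lit 18971201), (nat_lit 12765436)] (nat_lit 24651042)) p13_13_0 (nat_lit 4) (nat_lit 55) (nat_lit 56) = true := by decide +kernel
def p13_13_0_56 : pfC (piC [(nat_lit 39120232), (nat_lit 25510466), (nat_lit 18971201), (nat_lit 12765436)] (nat_lit 24651042)) p13_13_0 (nat_lit 4) (nat_lit 56) (nat_lit 57) = true := by decide +kernel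
def p13_13_0_57 : pfC (piC [(nat_lit 39120232), (nat_lit 25510466), (nat_lit 18971201), (nat_lit 12765436)] (nat_lit 24651042)) p13_13_0 (nat_lit 4) (nat_lit 57) (nat_lit 58) = true := by decide +kernel
def p13_13_0_58 : pfC (piC [(nat_lit 39120232), (nat_lit 25510466), (nat_lit 18971201), (nat_lit 12765436)] (nat_lit 24651042)) p13_13_0 (nat_lit 4) (nat_lit 58) (nat_lit 59) = true := by decide +kernel
def p13_13_0_59 : pfC (piC [(nat_lit 39120232), (nat_lit 25510466), (nat_lit 18971201), (nat_lit 12765436)] (nat_lit 24651042)) p13_13_0 (nat_lit 4) (nat_lit 59) (nat_lit 60) = true := by decide +kernel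
def p13_13_0_60 : pfC (piC [(nat_lit 39120232), (nat_lit 25510466), (nat_lit 18971201), (nat_lit 12765436)] (nat_lit 24651042)) p13_13_0 (nat_lit 4) (nat_lit 60) (nat_lit 61) = true := by decide +kernel
def p13_13_0_61 : pfC (piC [(nat_lit 39120232), (nat_lit 25510466), (nat_lit 18971201), (nat_lit 12765436)] (nat_lit 24651042)) p13_13_0 (nat_lit 4) (nat_lit 61) (nat_lit 62) = true := by decide +kernel
def p13_13_0_62 : pfC (piC [(nat_lit 39120232), (nat_lit 25510466), (nat_lit 18971201), (nat_lit 12765436)] (nat_lit 24651042)) p13_13_0 (nat_lit 4) (nat_lit 62) (nat_lit 63) = true := by decide +kernel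
def p13_13_0_63 : pfC (piC [(nat_lit 39120232), (nat_lit 25510466), (nat_lit 18971201), (nat_lit 12765436)] (nat_lit 24651042)) p13_13_0 (nat_lit 4) (nat_lit 63) (nat_lit 64) = true := by decide +kernel
def p13_13_0_64 : pfC (piC [(nat_lit 39120232), (nat_lit 25510466), (nat_lit 18971201), (nat_lit 12765436)] (nat_lit 24651042)) p13_13_0 (nat_lit 4) (nat_lit 64) (nat_lit 65) = true := by decide +kernel
def p13_13_0_65 : pfC (piC [(nat_lit 39120232), (nat_lit 25510466), (nat_lit 18971201), (nat_lit 12765436)] (nat_lit 24651042)) p13_13_0 (nat_lit 4) (nat_lit 65) (nat_lit 66) = true := by decide +kernel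
def p13_13_0_66 : pfC (piC [(nat_lit 39120232), (nat_lit 25510466), (nat_lit 18971201), (nat_lit 12765436)] (nat_lit 24651042)) p13_13_0 (nat_lit 4) (nat_lit 66) (nat_lit 67) = true := by decide +kernel
def p13_13_0_67 : pfC (piC [(nat_lit 39120232), (nat_lit 25510466), (nat_lit 18971201), (nat_lit 12765436)] (nat_lit 24651042)) p13_13_0 (nat_lit 4) (nat_lit 67) (nat_lit 68) = true := by decide +kernel
def p13_13_0_68 : pfC (piC [(nat_lit 39120232), (nat_lit 25510466), (nat_lit 18971201), (nat_lit 12765436)] (nat_lit 24651042)) p13_13_0 (nat_lit 4) (nat_lit 68) (nat_lit 69) = true := by decide +kernel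
def p13_13_0_69 : pfC (piC [(nat_lit 39120232), (nat_lit 25510466), (nat_lit 18971201), (nat_lit 12765436)] (nat_lit 24651042)) p13_13_0 (nat_lit 4) (nat_lit 69) (nat_lit 70) = true := by decide +kernel
def p13_13_0_70 : pfC (piC [(nat_lit 39120232), (nat_lit 25510466), (nat_lit 18971201), (nat_lit 12765436)] (nat_lit 24651042)) p13_13_0 (nat_lit 4) (nat_lit 70) (nat_lit 71) = true := by decide +kernel
def p13_13_0_71 : pfC (piC [(nat_lit 39120232), (nat_lit 25510466), (nat_lit 18971201), (nat_lit 12765436)] (nat_lit 24651042)) p13_13_0 (nat_lit 4) (nat_lit 71) (nat_lit 72) = true := by decide +kernel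
def p13_13_0_72 : pfC (piC [(nat_lit 39120232), (nat_lit 25510466), (nat_lit 18971201), (nat_lit 12765436)] (nat_lit 24651042)) p13_13_0 (nat_lit 4) (nat_lit 72) (nat_lit 73) = true := by decide +kernel
def p13_13_0_73 : pfC (piC [(nat_lit 39120232), (nat_lit 25510466), (nat_lit 18971201), (nat_lit 12765436)] (nat_lit 24651042)) p13_13_0 (nat_lit 4) (nat_lit 73) (nat_lit 74) = true := by decide +kernel
def p13_13_0_74 : pfC (piC [(nat_lit 39120232), (nat_lit 25510466), (nat_lit 18971201), (nat_lit 12765436)] (nat_lit 24651042)) p13_13_0 (nat_lit 4) (nat_lit 74) (nat_lit 75) = true := by decide +kernel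
def p13_13_0_75 : pfC (piC [(nat_lit 39120232), (nat_lit 25510466), (nat_lit 18971201), (nat_lit 12765436)] (nat_lit 24651042)) p13_13_0 (nat_lit 4) (nat_lit 75) (nat_lit 76) = true := by decide +kernel
def p13_13_0_76 : pfC (piC [(nat_lit 39120232), (nat_lit 25510466), (nat_lit 18971201), (nat_lit 12765436)] (nat_lit 24651042)) p13_13_0 (nat_lit 4) (nat_lit 76) (nat_lit 77) = true := by decide +kernel
def p13_13_0_77 : pfC (piC [(nat_lit 39120232), (nat_lit 25510466), (nat_lit 18971201), (nat_lit 12765436)] (nat_lit 24651042)) p13_13_0 (nat_lit 4) (nat_lit 77) (nat_lit 78) = true := by decide +kernel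
def p13_13_0_78 : pfC (piC [(nat_lit 39120232), (nat_lit 25510466), (nat_lit 18971201), (nat_lit 12765436)] (nat_lit 24651042)) p13_13_0 (nat_lit 4) (nat_lit 78) (nat_lit 79) = true := by decide +kernel
def p13_13_0_79 : pfC (piC [(nat_lit 39120232), (nat_lit 25510466), (nat_lit 18971201), (nat_lit 12765436)] (nat_lit 24651042)) p13_13_0 (nat_lit 4) (nat_lit 79) (nat_lit 80) = true := by decide +kernel
def p13_13_0_80 : pfC (piC [(nat_lit 39120232), (nat_lit 25510466), (nat_lit 18971201), (nat_lit 12765436)] (nat_lit 24651042)) p13_13_0 (nat_lit 4) (nat_lit 80) (nat_lit 81) = true := by decide +kernel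
def p13_13_0_81 : pfC (piC [(nat_lit 39120232), (nat_lit 25510466), (nat_lit 18971201), (nat_lit 12765436)] (nat_lit 24651042)) p13_13_0 (nat_lit 4) (nat_lit 81) (nat_lit 82) = true := by decide +kernel
def p13_13_0_82 : pfC (piC [(nat_lit 39120232), (nat_lit 25510466), (nat_lit 18971201), (nat_lit 12765436)] (nat_lit 24651042)) p13_13_0 (nat_lit 4) (nat_lit 82) (nat_lit 83) = true := by decide +kernel
def p13_13_0_83 : pfC (piC [(nat_lit 39120232), (nat_lit 25510466), (nat_lit 18971201), (nat_lit 12765436)] (nat_lit 24651042)) p13_13_0 (nat_lit 4) (nat_lit 83) (nat_lit 84) = true := by decide +kernel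
def p13_13_0_84 : pfC (piC [(nat_lit 39120232), (nat_lit 25510466), (nat_lit 18971201), (nat_lit 12765436)] (nat_lit 24651042)) p13_13_0 (nat_lit 4) (nat_lit 84) (nat_lit 85) = true := by decide +kernel
def p13_13_0_85 : pfC (piC [(nat_lit 39120232), (nat_lit 25510466), (nat_lit 18971201), (nat_lit 12765436)] (nat_lit 24651042)) p13_13_0 (nat_lit 4) (nat_lit 85) (nat_lit 86) = true := by decide +kernel
def p13_13_0_86 : pfC (piC [(nat_lit 39120232), (nat_lit 25510466), (nat_lit 18971201), (nat_lit 12765436)] (nat_lit 24651042)) p13_13_0 (nat_lit 4) (nat_lit 86) (nat_lit 87) = true := by decide +kernel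
def p13_13_0_87 : pfC (piC [(nat_lit 39120232), (nat_lit 25510466), (nat_lit 18971201), (nat_lit 12765436)] (nat_lit 24651042)) p13_13_0 (nat_lit 4) (nat_lit 87) (nat_lit 88) = true := by decide +kernel
def p13_13_0_88 : pfC (piC [(nat_lit 39120232), (nat_lit 25510466), (nat_lit 18971201), (nat_lit 12765436)] (nat_lit 24651042)) p13_13_0 (nat_lit 4) (nat_lit 88) (nat_lit 89) = true := by decide +kernel
def p13_13_0_89 : pfC (piC [(nat_lit 39120232), (nat_lit 25510466), (nat_lit 18971201), (nat_lit 12765436)] (nat_lit 24651042)) p13_13_0 (nat_lit 4) (nat_lit 89) (nat_lit 90) = true := by decide +kernel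
def p13_13_0_90 : pfC (piC [(nat_lit 39120232), (nat_lit 25510466), (nat_lit 18971201), (nat_lit 12765436)] (nat_lit 24651042)) p13_13_0 (nat_lit 4) (nat_lit 90) (nat_lit 91) = true := by decide +kernel
def p13_13_0_91 : pfC (piC [(nat_lit 39120232), (nat_lit 25510466), (nat_lit 18971201), (nat_lit 12765436)] (nat_lit 24651042)) p13_13_0 (nat_lit 4) (nat_lit 91) (nat_lit 92) = true := by decide +kernel
def p13_13_0_92 : pfC (piC [(nat_lit 39120232), (nat_lit 25510466), (nat_lit 18971201), (nat_lit 12765436)] (nat_lit 24651042)) p13_13_0 (nat_lit 4) (nat_lit 92) (nat_lit 93) = true := by decide +kernel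
def p13_13_0_93 : pfC (piC [(nat_lit 39120232), (nat_lit 25510466), (nat_lit 18971201), (nat_lit 12765436)] (nat_lit 24651042)) p13_13_0 (nat_lit 4) (nat_lit 93) (nat_lit 94) = true := by decide +kernel
def p13_13_0_94 : pfC (piC [(nat_lit 39120232), (nat_lit 25510466), (nat_lit 18971201), (nat_lit 12765436)] (nat_lit 24651042)) p13_13_0 (nat_lit 4) (nat_lit 94) (nat_lit 95) = true := by decide +kernel
def p13_13_0_95 : pfC (piC [(nat_lit 39120232), (nat_lit 25510466), (nat_lit 18971201), (nat_lit 12765436)] (nat_lit 24651042)) p13_13_0 (nat_lit 4) (nat_lit 95) (nat_lit 96) = true := by decide +kernel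
def p13_13_0_96 : pfC (piC [(nat_lit 39120232), (nat_lit 25510466), (nat_lit 18971201), (nat_lit 12765436)] (nat_lit 24651042)) p13_13_0 (nat_lit 4) (nat_lit 96) (nat_lit 97) = true := by decide +kernel
def p13_13_0_97 : pfC (piC [(nat_lit 39120232), (nat_lit 25510466), (nat_lit 18971201), (nat_lit 12765436)] (nat_lit 24651042)) p13_13_0 (nat_lit 4) (nat_lit 97) (nat_lit 98) = true := by decide +kernel
def p13_13_0_98 : pfC (piC [(nat_lit 39120232), (nat_lit 25510466), (nat_lit 18971201), (nat_lit 12765436)] (nat_lit 24651042)) p13_13_0 (nat_lit 4) (nat_lit 98) (nat_lit 99) = true := by decide +kernel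
def p13_13_0_99 : pfC (piC [(nat_lit 39120232), (nat_lit 25510466), (nat_lit 18971201), (nat_lit 12765436)] (nat_lit 24651042)) p13_13_0 (nat_lit 4) (nat_lit 99) (nat_lit 100) = true := by decide +kernel
def p13_13_0_100 : pfC (piC [(nat_lit 39120232), (nat_lit 25510466), (nat_lit 18971201), (nat_lit 12765436)] (nat_lit 24651042)) p13_13_0 (nat_lit 4) (nat_lit 100) (nat_lit 101) = true := by decide +kernel
def p13_13_0_101 : pfC (piC [(nat_lit 39120232), (nat_lit 25510466), (nat_lit 18971201), (nat_lit 12765436)] (nat_lit 24651042)) p13_13_0 (nat_lit 4) (nat_lit 101) (nat_lit 102) = true := by decide +kernel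
def p13_13_0_102 : pfC (piC [(nat_lit 39120232), (nat_lit 25510466), (nat_lit 18971201), (nat_lit 12765436)] (nat_lit 24651042)) p13_13_0 (nat_lit 4) (nat_lit 102) (nat_lit 103) = true := by decide +kernel
def p13_13_0_103 : pfC (piC [(nat_lit 39120232), (nat_lit 25510466), (nat_lit 18971201), (nat_lit 12765436)] (nat_lit 24651042)) p13_13_0 (nat_lit 4) (nat_lit 103) (nat_lit 104) = true := by decide +kernel
def p13_13_0_104 : pfC (piC [(nat_lit 39120232), (nat_lit 25510466), (nat_lit 18971201), (nat_lit 12765436)] (nat_lit 24651042)) p13_13_0 (nat_lit 4) (nat_lit 104) (nat_lit 105) = true := by decide +kernel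
def p13_13_0_105 : pfC (piC [(nat_lit 39120232), (nat_lit 25510466), (nat_lit 18971201), (nat_lit 12765436)] (nat_lit 24651042)) p13_13_0 (nat_lit 4) (nat_lit 105) (nat_lit 106) = true := by decide +kernel
def p13_13_0_106 : pfC (piC [(nat_lit 39120232), (nat_lit 25510466), (nat_lit 18971201), (nat_lit 12765436)] (nat_lit 24651042)) p13_13_0 (nat_lit 4) (nat_lit 106) (nat_lit 107) = true := by decide +kernel
def p13_13_0_107 : pfC (piC [(nat_lit 39120232), (nat_lit 25510466), (nat_lit 18971201), (nat_lit 12765436)] (nat_lit 24651042)) p13_13_0 (nat_lit 4) (nat_lit 107) (nat_lit 108) = true := by decide +kernel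
def p13_13_0_108 : pfC (piC [(nat_lit 39120232), (nat_lit 25510466), (nat_lit 18971201), (nat_lit 12765436)] (nat_lit 24651042)) p13_13_0 (nat_lit 4) (nat_lit 108) (nat_lit 109) = true := by decide +kernel
def p13_13_0_109 : pfC (piC [(nat_lit 39120232), (nat_lit 25510466), (nat_lit 18971201), (nat_lit 12765436)] (nat_lit 24651042)) p13_13_0 (nat_lit 4) (nat_lit 109) (nat_lit 110) = true := by decide +kernel
def p13_13_0_110 : pfC (piC [(nat_lit 39120232), (nat_lit 25510466), (nat_lit 18971201), (nat_lit 12765436)] (nat_lit 24651042)) p13_13_0 (nat_lit 4) (nat_lit 110) (nat_lit 111) = true := by decide +kernel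
def p13_13_0_111 : pfC (piC [(nat_lit 39120232), (nat_lit 25510466), (nat_lit 18971201), (nat_lit 12765436)] (nat_lit 24651042)) p13_13_0 (nat_lit 4) (nat_lit 111) (nat_lit 112) = true := by decide +kernel
def p13_13_0_112 : pfC (piC [(nat_lit 39120232), (nat_lit 25510466), (nat_lit 18971201), (nat_lit 12765436)] (nat_lit 24651042)) p13_13_0 (nat_lit 4) (nat_lit 112) (nat_lit 113) = true := by decide +kernel
def p13_13_0_113 : pfC (piC [(nat_lit 39120232), (nat_lit 25510466), (nat_lit 18971201), (nat_lit 12765436)] (nat_lit 24651042)) p13_13_0 (nat_lit 4) (nat_lit 113) (nat_lit 114) = true := by decide +kernel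
def p13_13_0_114 : pfC (piC [(nat_lit 39120232), (nat_lit 25510466), (nat_lit 18971201), (nat_lit 12765436)] (nat_lit 24651042)) p13_13_0 (nat_lit 4) (nat_lit 114) (nat_lit 115) = true := by decide +kernel
def p13_13_0_115 : pfC (piC [(nat_lit 39120232), (nat_lit 25510466), (nat_lit 18971201), (nat_lit 12765436)] (nat_lit 24651042)) p13_13_0 (nat_lit 4) (nat_lit 115) (nat_lit 116) = true := by decide +kernel
def p13_13_0_116 : pfC (piC [(nat_lit 39120232), (nat_lit 25510466), (nat_lit 18971201), (nat_lit 12765436)] (nat_lit 24651042)) p13_13_0 (nat_lit 4) (nat_lit 116) (nat_lit 117) = true := by decide +kernel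
def p13_13_0_117 : pfC (piC [(nat_lit 39120232), (nat_lit 25510466), (nat_lit 18971201), (nat_lit 12765436)] (nat_lit 24651042)) p13_13_0 (nat_lit 4) (nat_lit 117) (nat_lit 118) = true := by decide +kernel
def p13_13_0_118 : pfC (piC [(nat_lit 39120232), (nat_lit 25510466), (nat_lit 18971201), (nat_lit 12765436)] (nat_lit 24651042)) p13_13_0 (nat_lit 4) (nat_lit 118) (nat_lit 119) = true := by decide +kernel
def p13_13_0_119 : pfC (piC [(nat_lit 39120232), (nat_lit 25510466), (nat_lit 18971201), (nat_lit 12765436)] (nat_lit 24651042)) p13_13_0 (nat_lit 4) (nat_lit 119) (nat_lit 120) = true := by decide +kernel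
def p13_13_0_120 : pfC (piC [(nat_lit 39120232), (nat_lit 25510466), (nat_lit 18971201), (nat_lit 12765436)] (nat_lit 24651042)) p13_13_0 (nat_lit 4) (nat_lit 120) (nat_lit 121) = true := by decide +kernel
def p13_13_0_121 : pfC (piC [(nat_lit 39120232), (nat_lit 25510466), (nat_lit 18971201), (nat_lit 12765436)] (nat_lit 24651042)) p13_13_0 (nat_lit 4) (nat_lit 121) (nat_lit 122) = true := by decide +kernel
def p13_13_0_122 : pfC (piC [(nat_lit 39120232), (nat_lit 25510466), (nat_lit 18971201), (nat_lit 12765436)] (nat_lit 24651042)) p13_13_0 (nat_lit 4) (nat_lit 122) (nat_lit 123) = true := by decide +kernel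
def p13_13_0_123 : pfC (piC [(nat_lit 39120232), (nat_lit 25510466), (nat_lit 18971201), (nat_lit 12765436)] (nat_lit 24651042)) p13_13_0 (nat_lit 4) (nat_lit 123) (nat_lit 124) = true := by decide +kernel
def p13_13_0_124 : pfC (piC [(nat_lit 39120232), (nat_lit 25510466), (nat_lit 18971201), (nat_lit 12765436)] (nat_lit 24651042)) p13_13_0 (nat_lit 4) (nat_lit 124) (nat_lit 125) = true := by decide +kernel
def p13_13_0_125 : pfC (piC [(nat_lit 39120232), (nat_lit 25510466), (nat_lit 18971201), (nat_lit 12765436)] (nat_lit 24651042)) p13_13_0 (nat_lit 4) (nat_lit 125) (nat_lit 126) = true := by decide +kernel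
def p13_13_0_126 : pfC (piC [(nat_lit 39120232), (nat_lit 25510466), (nat_lit 18971201), (nat_lit 12765436)] (nat_lit 24651042)) p13_13_0 (nat_lit 4) (nat_lit 126) (nat_lit 127) = true := by decide +kernel
def p13_13_0_127 : pfC (piC [(nat_lit 39120232), (nat_lit 25510466), (nat_lit 18971201), (nat_lit 12765436)] (nat_lit 24651042)) p13_13_0 (nat_lit 4) (nat_lit 127) (nat_lit 128) = true := by decide +kernel
def p13_13_0_128 : pfC (piC [(nat_lit 39120232), (nat_lit 25510466), (nat_lit 18971201), (nat_lit 12765436)] (nat_lit 24651042)) p13_13_0 (nat_lit 4) (nat_lit 128) (nat_lit 129) = true := by decide +kernel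
def p13_13_0_129 : pfC (piC [(nat_lit 39120232), (nat_lit 25510466), (nat_lit 18971201), (nat_lit 12765436)] (nat_lit 24651042)) p13_13_0 (nat_lit 4) (nat_lit 129) (nat_lit 130) = true := by decide +kernel
def p13_13_0_130 : pfC (piC [(nat_lit 39120232), (nat_lit 25510466), (nat_lit 18971201), (nat_lit 12765436)] (nat_lit 24651042)) p13_13_0 (nat_lit 4) (nat_lit 130) (nat_lit 131) = true := by decide +kernel
def p13_13_0_131 : pfC (piC [(nat_lit 39120232), (nat_lit 25510466), (nat_lit 18971201), (nat_lit 12765436)] (nat_lit 24651042)) p13_13_0 (nat_lit 4) (nat_lit 131) (nat_lit 132) = true := by decide +kernel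
def p13_13_0_132 : pfC (piC [(nat_lit 39120232), (nat_lit 25510466), (nat_lit 18971201), (nat_lit 12765436)] (nat_lit 24651042)) p13_13_0 (nat_lit 4) (nat_lit 132) (nat_lit 133) = true := by decide +kernel
def p13_13_0_133 : pfC (piC [(nat_lit 39120232), (nat_lit 25510466), (nat_lit 18971201), (nat_lit 12765436)] (nat_lit 24651042)) p13_13_0 (nat_lit 4) (nat_lit 133) (nat_lit 134) = true := by decide +kernel
def p13_13_0_134 : pfC (piC [(nat_lit 39120232), (nat_lit 25510466), (nat_lit 18971201), (nat_lit 12765436)] (nat_lit 24651042)) p13_13_0 (nat_lit 4) (nat_lit 134) (nat_lit 135) = true := by decide +kernel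
def p13_13_0_135 : pfC (piC [(nat_lit 39120232), (nat_lit 25510466), (nat_lit 18971201), (nat_lit 12765436)] (nat_lit 24651042)) p13_13_0 (nat_lit 4) (nat_lit 135) (nat_lit 136) = true := by decide +kernel
def p13_13_0_136 : pfC (piC [(nat_lit 39120232), (nat_lit 25510466), (nat_lit 18971201), (nat_lit 12765436)] (nat_lit 24651042)) p13_13_0 (nat_lit 4) (nat_lit 136) (nat_lit 137) = true := by decide +kernel
def p13_13_0_137 : pfC (piC [(nat_lit 39120232), (nat_lit 25510466), (nat_lit 18971201), (nat_lit 12765436)] (nat_lit 24651042)) p13_13_0 (nat_lit 4) (nat_lit 137) (nat_lit 138) = true := by decide +kernel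
def p13_13_0_138 : pfC (piC [(nat_lit 39120232), (nat_lit 25510466), (nat_lit 18971201), (nat_lit 12765436)] (nat_lit 24651042)) p13_13_0 (nat_lit 4) (nat_lit 138) (nat_lit 139) = true := by decide +kernel
def p13_13_0_139 : pfC (piC [(nat_lit 39120232), (nat_lit 25510466), (nat_lit 18971201), (nat_lit 12765436)] (nat_lit 24651042)) p13_13_0 (nat_lit 4) (nat_lit 139) (nat_lit 140) = true := by decide +kernel
def p13_13_0_140 : pfC (piC [(nat_lit 39120232), (nat_lit 25510466), (nat_lit 18971201), (nat_lit 12765436)] (nat_lit 24651042)) p13_13_0 (nat_lit 4) (nat_lit 140) (nat_lit 141) = true := by decide +kernel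
def p13_13_0_141 : pfC (piC [(nat_lit 39120232), (nat_lit 25510466), (nat_lit 18971201), (nat_lit 12765436)] (nat_lit 24651042)) p13_13_0 (nat_lit 4) (nat_lit 141) (nat_lit 142) = true := by decide +kernel
def p13_13_0_142 : pfC (piC [(nat_lit 39120232), (nat_lit 25510466), (nat_lit 18971201), (nat_lit 12765436)] (nat_lit 24651042)) p13_13_0 (nat_lit 4) (nat_lit 142) (nat_lit 143) = true := by decide +kernel
def p13_13_0_143 : pfC (piC [(nat_lit 39120232), (nat_lit 25510466), (nat_lit 18971201), (nat_lit 12765436)] (nat_lit 24651042)) p13_13_0 (nat_lit 4) (nat_lit 143) (nat_lit 144) = true := by decide +kernel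
def p13_13_0_144 : pfC (piC [(nat_lit 39120232), (nat_lit 25510466), (nat_lit 18971201), (nat_lit 12765436)] (nat_lit 24651042)) p13_13_0 (nat_lit 4) (nat_lit 144) (nat_lit 145) = true := by decide +kernel
def p13_13_0_145 : pfC (piC [(nat_lit 39120232), (nat_lit 25510466), (nat_lit 18971201), (nat_lit 12765436)] (nat_lit 24651042)) p13_13_0 (nat_lit 4) (nat_lit 145) (nat_lit 146) = true := by decide +kernel
def p13_13_0_146 : pfC (piC [(nat_lit 39120232), (nat_lit 25510466), (nat_lit 18971201), (nat_lit 12765436)] (nat_lit 24651042)) p13_13_0 (nat_lit 4) (nat_lit 146) (nat_lit 147) = true := by decide +kernel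
def p13_13_0_147 : pfC (piC [(nat_lit 39120232), (nat_lit 25510466), (nat_lit 18971201), (nat_lit 12765436)] (nat_lit 24651042)) p13_13_0 (nat_lit 4) (nat_lit 147) (nat_lit 148) = true := by decide +kernel
def p13_13_0_148 : pfC (piC [(nat_lit 39120232), (nat_lit 25510466), (nat_lit 18971201), (nat_lit 12765436)] (nat_lit 24651042)) p13_13_0 (nat_lit 4) (nat_lit 148) (nat_lit 149) = true := by decide +kernel
def p13_13_0_149 : pfC (piC [(nat_lit 39120232), (nat_lit 25510466), (nat_lit 18971201), (nat_lit 12765436)] (nat_lit 24651042)) p13_13_0 (nat_lit 4) (nat_lit 149) (nat_lit 150) = true := by decide +kernel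
def p13_13_0_150 : pfC (piC [(nat_lit 39120232), (nat_lit 25510466), (nat_lit 18971201), (nat_lit 12765436)] (nat_lit 24651042)) p13_13_0 (nat_lit 4) (nat_lit 150) (nat_lit 151) = true := by decide +kernel
def p13_13_0_151 : pfC (piC [(nat_lit 39120232), (nat_lit 25510466), (nat_lit 18971201), (nat_lit 12765436)] (nat_lit 24651042)) p13_13_0 (nat_lit 4) (nat_lit 151) (nat_lit 152) = true := by decide +kernel
def p13_13_0_152 : pfC (piC [(nat_lit 39120232), (nat_lit 25510466), (nat_lit 18971201), (nat_lit 12765436)] (nat_lit 24651042)) p13_13_0 (nat_lit 4) (nat_lit 152) (nat_lit 153) = true := by decide +kernel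
def p13_13_0_153 : pfC (piC [(nat_lit 39120232), (nat_lit 25510466), (nat_lit 18971201), (nat_lit 12765436)] (nat_lit 24651042)) p13_13_0 (nat_lit 4) (nat_lit 153) (nat_lit 154) = true := by decide +kernel
def p13_13_0_154 : pfC (piC [(nat_lit 39120232), (nat_lit 25510466), (nat_lit 18971201), (nat_lit 12765436)] (nat_lit 24651042)) p13_13_0 (nat_lit 4) (nat_lit 154) (nat_lit 155) = true := by decide +kernel
def p13_13_0_155 : pfC (piC [(nat_lit 39120232), (nat_lit 25510466), (nat_lit 18971201), (nat_lit 12765436)] (nat_lit 24651042)) p13_13_0 (nat_lit 4) (nat_lit 155) (nat_lit 156) = true := by decide +kernel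
def p13_13_0_156 : pfC (piC [(nat_lit 39120232), (nat_lit 25510466), (nat_lit 18971201), (nat_lit 12765436)] (nat_lit 24651042)) p13_13_0 (nat_lit 4) (nat_lit 156) (nat_lit 157) = true := by decide +kernel
def p13_13_0_157 : pfC (piC [(nat_lit 39120232), (nat_lit 25510466), (nat_lit 18971201), (nat_lit 12765436)] (nat_lit 24651042)) p13_13_0 (nat_lit 4) (nat_lit 157) (nat_lit 158) = true := by decide +kernel
def p13_13_0_158 : pfC (piC [(nat_lit 39120232), (nat_lit 25510466), (nat_lit 18971201), (nat_lit 12765436)] (nat_lit 24651042)) p13_13_0 (nat_lit 4) (nat_lit 158) (nat_lit 159) = true := by decide +kernel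
def p13_13_0_159 : pfC (piC [(nat_lit 39120232), (nat_lit 25510466), (nat_lit 18971201), (nat_lit 12765436)] (nat_lit 24651042)) p13_13_0 (nat_lit 4) (nat_lit 159) (nat_lit 160) = true := by decide +kernel
def p13_13_0_160 : pfC (piC [(nat_lit 39120232), (nat_lit 25510466), (nat_lit 18971201), (nat_lit 12765436)] (nat_lit 24651042)) p13_13_0 (nat_lit 4) (nat_lit 160) (nat_lit 161) = true := by decide +kernel
def p13_13_0_161 : pfC (piC [(nat_lit 39120232), (nat_lit 25510466), (nat_lit 18971201), (nat_lit 12765436)] (nat_lit 24651042)) p13_13_0 (nat_lit 4) (nat_lit 161) (nat_lit 162) = true := by decide +kernel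
def p13_13_0_162 : pfC (piC [(nat_lit 39120232), (nat_lit 25510466), (nat_lit 18971201), (nat_lit 12765436)] (nat_lit 24651042)) p13_13_0 (nat_lit 4) (nat_lit 162) (nat_lit 163) = true := by decide +kernel
def p13_13_0_163 : pfC (piC [(nat_lit 39120232), (nat_lit 25510466), (nat_lit 18971201), (nat_lit 12765436)] (nat_lit 24651042)) p13_13_0 (nat_lit 4) (nat_lit 163) (nat_lit 164) = true := by decide +kernel
def p13_13_0_164 : pfC (piC [(nat_lit 39120232), (nat_lit 25510466), (nat_lit 18971201), (nat_lit 12765436)] (nat_lit 24651042)) p13_13_0 (nat_lit 4) (nat_lit 164) (nat_lit 165) = true := by decide +kernel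
def p13_13_0_165 : pfC (piC [(nat_lit 39120232), (nat_lit 25510466), (nat_lit 18971201), (nat_lit 12765436)] (nat_lit 24651042)) p13_13_0 (nat_lit 4) (nat_lit 165) (nat_lit 166) = true := by decide +kernel
def p13_13_0_166 : pfC (piC [(nat_lit 39120232), (nat_lit 25510466), (nat_lit 18971201), (nat_lit 12765436)] (nat_lit 24651042)) p13_13_0 (nat_lit 4) (nat_lit 166) (nat_lit 167) = true := by decide +kernel
def p13_13_0_167 : pfC (piC [(nat_lit 39120232), (nat_lit 25510466), (nat_lit 18971201), (nat_lit 12765436)] (nat_lit 24651042)) p13_13_0 (nat_lit 4) (nat_lit 167) (nat_lit 168) = true := by decide +kernel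
def p13_13_0_168 : pfC (piC [(nat_lit 39120232), (nat_lit 25510466), (nat_lit 18971201), (nat_lit 12765436)] (nat_lit 24651042)) p13_13_0 (nat_lit 4) (nat_lit 168) (nat_lit 169) = true := by decide +kernel
def p13_13_0_169 : pfC (piC [(nat_lit 39120232), (nat_lit 25510466), (nat_lit 18971201), (nat_lit 12765436)] (nat_lit 24651042)) p13_13_0 (nat_lit 4) (nat_lit 169) (nat_lit 170) = true := by decide +kernel
def p13_13_0_170 : pfC (piC [(nat_lit 39120232), (nat_lit 25510466), (nat_lit 18971201), (nat_lit 12765436)] (nat_lit 24651042)) p13_13_0 (nat_lit 4) (nat_lit 170) (nat_lit 171) = true := by decide +kernel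
def p13_13_0_171 : pfC (piC [(nat_lit 39120232), (nat_lit 25510466), (nat_lit 18971201), (nat_lit 12765436)] (nat_lit 24651042)) p13_13_0 (nat_lit 4) (nat_lit 171) (nat_lit 172) = true := by decide +kernel
def p13_13_0_172 : pfC (piC [(nat_lit 39120232), (nat_lit 25510466), (nat_lit 18971201), (nat_lit 12765436)] (nat_lit 24651042)) p13_13_0 (nat_lit 4) (nat_lit 172) (nat_lit 173) = true := by decide +kernel
def p13_13_0_173 : pfC (piC [(nat_lit 39120232), (nat_lit 25510466), (nat_lit 18971201), (nat_lit 12765436)] (nat_lit 24651042)) p13_13_0 (nat_lit 4) (nat_lit 173) (nat_lit 174) = true := by decide +kernel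
def p13_13_0_174 : pfC (piC [(nat_lit 39120232), (nat_lit 25510466), (nat_lit 18971201), (nat_lit 12765436)] (nat_lit 24651042)) p13_13_0 (nat_lit 4) (nat_lit 174) (nat_lit 175) = true := by decide +kernel
def p13_13_0_175 : pfC (piC [(nat_lit 39120232), (nat_lit 25510466), (nat_lit 18971201), (nat_lit 12765436)] (nat_lit 24651042)) p13_13_0 (nat_lit 4) (nat_lit 175) (nat_lit 176) = true := by decide +kernel
def p13_13_0_176 : pfC (piC [(nat_lit 39120232), (nat_lit 25510466), (nat_lit 18971201), (nat_lit 12765436)] (nat_lit 24651042)) p13_13_0 (nat_lit 4) (nat_lit 176) (nat_lit 177) = true := by decide +kernel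
def p13_13_0_177 : pfC (piC [(nat_lit 39120232), (nat_lit 25510466), (nat_lit 18971201), (nat_lit 12765436)] (nat_lit 24651042)) p13_13_0 (nat_lit 4) (nat_lit 177) (nat_lit 178) = true := by decide +kernel
def p13_13_0_178 : pfC (piC [(nat_lit 39120232), (nat_lit 25510466), (nat_lit 18971201), (nat_lit 12765436)] (nat_lit 24651042)) p13_13_0 (nat_lit 4) (nat_lit 178) (nat_lit 179) = true := by decide +kernel
def p13_13_0_179 : pfC (piC [(nat_lit 39120232), (nat_lit 25510466), (nat_lit 18971201), (nat_lit 12765436)] (nat_lit 24651042)) p13_13_0 (nat_lit 4) (nat_lit 179) (nat_lit 180) = true := by decide +kernel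
def p13_13_0_180 : pfC (piC [(nat_lit 39120232), (nat_lit 25510466), (nat_lit 18971201), (nat_lit 12765436)] (nat_lit 24651042)) p13_13_0 (nat_lit 4) (nat_lit 180) (nat_lit 181) = true := by decide +kernel
def p13_13_0_181 : pfC (piC [(nat_lit 39120232), (nat_lit 25510466), (nat_lit 18971201), (nat_lit 12765436)] (nat_lit 24651042)) p13_13_0 (nat_lit 4) (nat_lit 181) (nat_lit 182) = true := by decide +kernel
def p13_13_0_182 : pfC (piC [(nat_lit 39120232), (nat_lit 25510466), (nat_lit 18971201), (nat_lit 12765436)] (nat_lit 24651042)) p13_13_0 (nat_lit 4) (nat_lit 182) (nat_lit 183) = true := by decide +kernel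
def p13_13_0_183 : pfC (piC [(nat_lit 39120232), (nat_lit 25510466), (nat_lit 18971201), (nat_lit 12765436)] (nat_lit 24651042)) p13_13_0 (nat_lit 4) (nat_lit 183) (nat_lit 184) = true := by decide +kernel
def p13_13_0_184 : pfC (piC [(nat_lit 39120232), (nat_lit 25510466), (nat_lit 18971201), (nat_lit 12765436)] (nat_lit 24651042)) p13_13_0 (nat_lit 4) (nat_lit 184) (nat_lit 185) = true := by decide +kernel
def p13_13_0_185 : pfC (piC [(nat_lit 39120232), (nat_lit 25510466), (nat_lit 18971201), (nat_lit 12765436)] (nat_lit 24651042)) p13_13_0 (nat_lit 4) (nat_lit 185) (nat_lit 186) = true := by decide +kernel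
def p13_13_0_186 : pfC (piC [(nat_lit 39120232), (nat_lit 25510466), (nat_lit 18971201), (nat_lit 12765436)] (nat_lit 24651042)) p13_13_0 (nat_lit 4) (nat_lit 186) (nat_lit 187) = true := by decide +kernel
def p13_13_0_187 : pfC (piC [(nat_lit 39120232), (nat_lit 25510466), (nat_lit 18971201), (nat_lit 12765436)] (nat_lit 24651042)) p13_13_0 (nat_lit 4) (nat_lit 187) (nat_lit 188) = true := by decide +kernel
def p13_13_0_188 : pfC (piC [(nat_lit 39120232), (nat_lit 25510466), (nat_lit 18971201), (nat_lit 12765436)] (nat_lit 24651042)) p13_13_0 (nat_lit 4) (nat_lit 188) (nat_lit 189) = true := by decide +kernel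
def p13_13_0_189 : pfC (piC [(nat_lit 39120232), (nat_lit 25510466), (nat_lit 18971201), (nat_lit 12765436)] (nat_lit 24651042)) p13_13_0 (nat_lit 4) (nat_lit 189) (nat_lit 190) = true := by decide +kernel
def p13_13_0_190 : pfC (piC [(nat_lit 39120232), (nat_lit 25510466), (nat_lit 18971201), (nat_lit 12765436)] (nat_lit 24651042)) p13_13_0 (nat_lit 4) (nat_lit 190) (nat_lit 191) = true := by decide +kernel
def p13_13_0_191 : pfC (piC [(nat_lit 39120232), (nat_lit 25510466), (nat_lit 18971201), (nat_lit 12765436)] (nat_lit 24651042)) p13_13_0 (nat_lit 4) (nat_lit 191) (nat_lit 192) = true := by decide +kernel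
def p13_13_0_192 : pfC (piC [(nat_lit 39120232), (nat_lit 25510466), (nat_lit 18971201), (nat_lit 12765436)] (nat_lit 24651042)) p13_13_0 (nat_lit 4) (nat_lit 192) (nat_lit 193) = true := by decide +kernel
def p13_13_0_193 : pfC (piC [(nat_lit 39120232), (nat_lit 25510466), (nat_lit 18971201), (nat_lit 12765436)] (nat_lit 24651042)) p13_13_0 (nat_lit 4) (nat_lit 193) (nat_lit 194) = true := by decide +kernel
def p13_13_0_194 : pfC (piC [(nat_lit 39120232), (nat_lit 25510466), (nat_lit 18971201), (nat_lit 12765436)] (nat_lit 24651042)) p13_13_0 (nat_lit 4) (nat_lit 194) (nat_lit 195) = true := by decide +kernel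
def p13_13_0_195 : pfC (piC [(nat_lit 39120232), (nat_lit 25510466), (nat_lit 18971201), (nat_lit 12765436)] (nat_lit 24651042)) p13_13_0 (nat_lit 4) (nat_lit 195) (nat_lit 196) = true := by decide +kernel
def p13_13_0_196 : pfC (piC [(nat_lit 39120232), (nat_lit 25510466), (nat_lit 18971201), (nat_lit 12765436)] (nat_lit 24651042)) p13_13_0 (nat_lit 4) (nat_lit 196) (nat_lit 197) = true := by decide +kernel
def p13_13_0_197 : pfC (piC [(nat_lit 39120232), (nat_lit 25510466), (nat_lit 18971201), (nat_lit 12765436)] (nat_lit 24651042)) p13_13_0 (nat_lit 4) (nat_lit 197) (nat_lit 198) = true := by decide +kernel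
def p13_13_0_198 : pfC (piC [(nat_lit 39120232), (nat_lit 25510466), (nat_lit 18971201), (nat_lit 12765436)] (nat_lit 24651042)) p13_13_0 (nat_lit 4) (nat_lit 198) (nat_lit 199) = true := by decide +kernel
def p13_13_0_199 : pfC (piC [(nat_lit 39120232), (nat_lit 25510466), (nat_lit 18971201), (nat_lit 12765436)] (nat_lit 24651042)) p13_13_0 (nat_lit 4) (nat_lit 199) (nat_lit 200) = true := by decide +kernel
def p13_13_0_200 : pfC (piC [(nat_lit 39120232), (nat_lit 25510466), (nat_lit 18971201), (nat_lit 12765436)] (nat_lit 24651042)) p13_13_0 (nat_lit 4) (nat_lit 200) (nat_lit 201) = true := by decide +kernel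
def p13_13_0_201 : pfC (piC [(nat_lit 39120232), (nat_lit 25510466), (nat_lit 18971201), (nat_lit 12765436)] (nat_lit 24651042)) p13_13_0 (nat_lit 4) (nat_lit 201) (nat_lit 202) = true := by decide +kernel
def p13_13_0_202 : pfC (piC [(nat_lit 39120232), (nat_lit 25510466), (nat_lit 18971201), (nat_lit 12765436)] (nat_lit 24651042)) p13_13_0 (nat_lit 4) (nat_lit 202) (nat_lit 203) = true := by decide +kernel
def p13_13_0_203 : pfC (piC [(nat_lit 39120232), (nat_lit 25510466), (nat_lit 18971201), (nat_lit 12765436)] (nat_lit 24651042)) p13_13_0 (nat_lit 4) (nat_lit 203) (nat_lit 204) = true := by decide +kernel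
def p13_13_0_204 : pfC (piC [(nat_lit 39120232), (nat_lit 25510466), (nat_lit 18971201), (nat_lit 12765436)] (nat_lit 24651042)) p13_13_0 (nat_lit 4) (nat_lit 204) (nat_lit 205) = true := by decide +kernel
def p13_13_0_205 : pfC (piC [(nat_lit 39120232), (nat_lit 25510466), (nat_lit 18971201), (nat_lit 12765436)] (nat_lit 24651042)) p13_13_0 (nat_lit 4) (nat_lit 205) (nat_lit 206) = true := by decide +kernel
def p13_13_0_206 : pfC (piC [(nat_lit 39120232), (nat_lit 25510466), (nat_lit 18971201), (nat_lit 12765436)] (nat_lit 24651042)) p13_13_0 (nat_lit 4) (nat_lit 206) (nat_lit 207) = true := by decide +kernel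
def p13_13_0_207 : pfC (piC [(nat_lit 39120232), (nat_lit 25510466), (nat_lit 18971201), (nat_lit 12765436)] (nat_lit 24651042)) p13_13_0 (nat_lit 4) (nat_lit 207) (nat_lit 208) = true := by decide +kernel
def p13_13_0_208 : pfC (piC [(nat_lit 39120232), (nat_lit 25510466), (nat_lit 18971201), (nat_lit 12765436)] (nat_lit 24651042)) p13_13_0 (nat_lit 4) (nat_lit 208) (nat_lit 209) = true := by decide +kernel
def p13_13_0_209 : pfC (piC [(nat_lit 39120232), (nat_lit 25510466), (nat_lit 18971201), (nat_lit 12765436)] (nat_lit 24651042)) p13_13_0 (nat_lit 4) (nat_lit 209) (nat_lit 210) = true := by decide +kernel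
def p13_13_0_210 : pfC (piC [(nat_lit 39120232), (nat_lit 25510466), (nat_lit 18971201), (nat_lit 12765436)] (nat_lit 24651042)) p13_13_0 (nat_lit 4) (nat_lit 210) (nat_lit 211) = true := by decide +kernel
def p13_13_0_211 : pfC (piC [(nat_lit 39120232), (nat_lit 25510466), (nat_lit 18971201), (nat_lit 12765436)] (nat_lit 24651042)) p13_13_0 (nat_lit 4) (nat_lit 211) (nat_lit 212) = true := by decide +kernel
def p13_13_0_212 : pfC (piC [(nat_lit 39120232), (nat_lit 25510466), (nat_lit 18971201), (nat_lit 12765436)] (nat_lit 24651042)) p13_13_0 (nat_lit 4) (nat_lit 212) (nat_lit 213) = true := by decide +kernel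
def p13_13_0_213 : pfC (piC [(nat_lit 39120232), (nat_lit 25510466), (nat_lit 18971201), (nat_lit 12765436)] (nat_lit 24651042)) p13_13_0 (nat_lit 4) (nat_lit 213) (nat_lit 214) = true := by decide +kernel
def p13_13_0_214 : pfC (piC [(nat_lit 39120232), (nat_lit 25510466), (nat_lit 18971201), (nat_lit 12765436)] (nat_lit 24651042)) p13_13_0 (nat_lit 4) (nat_lit 214) (nat_lit 215) = true := by decide +kernel
def p13_13_0_215 : pfC (piC [(nat_lit 39120232), (nat_lit 25510466), (nat_lit 18971201), (nat_lit 12765436)] (nat_lit 24651042)) p13_13_0 (nat_lit 4) (nat_lit 215) (nat_lit 216) = true := by decide +kernel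
def p13_13_0_216 : pfC (piC [(nat_lit 39120232), (nat_lit 25510466), (nat_lit 18971201), (nat_lit 12765436)] (nat_lit 24651042)) p13_13_0 (nat_lit 4) (nat_lit 216) (nat_lit 217) = true := by decide +kernel
def p13_13_0_217 : pfC (piC [(nat_lit 39120232), (nat_lit 25510466), (nat_lit 18971201), (nat_lit 12765436)] (nat_lit 24651042)) p13_13_0 (nat_lit 4) (nat_lit 217) (nat_lit 218) = true := by decide +kernel
def p13_13_0_218 : pfC (piC [(nat_lit 39120232), (nat_lit 25510466), (nat_lit 18971201), (nat_lit 12765436)] (nat_lit 24651042)) p13_13_0 (nat_lit 4) (nat_lit 218) (nat_lit 219) = true := by decide +kernel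
def p13_13_0_219 : pfC (piC [(nat_lit 39120232), (nat_lit 25510466), (nat_lit 18971201), (nat_lit 12765436)] (nat_lit 24651042)) p13_13_0 (nat_lit 4) (nat_lit 219) (nat_lit 220) = true := by decide +kernel
def p13_13_0_220 : pfC (piC [(nat_lit 39120232), (nat_lit 25510466), (nat_lit 18971201), (nat_lit 12765436)] (nat_lit 24651042)) p13_13_0 (nat_lit 4) (nat_lit 220) (nat_lit 221) = true := by decide +kernel
def p13_13_0_221 : pfC (piC [(nat_lit 39120232), (nat_lit 25510466), (nat_lit 18971201), (nat_lit 12765436)] (nat_lit 24651042)) p13_13_0 (nat_lit 4) (nat_lit 221) (nat_lit 222) = true := by decide +kernel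
def p13_13_0_222 : pfC (piC [(nat_lit 39120232), (nat_lit 25510466), (nat_lit 18971201), (nat_lit 12765436)] (nat_lit 24651042)) p13_13_0 (nat_lit 4) (nat_lit 222) (nat_lit 223) = true := by decide +kernel
def p13_13_0_223 : pfC (piC [(nat_lit 39120232), (nat_lit 25510466), (nat_lit 18971201), (nat_lit 12765436)] (nat_lit 24651042)) p13_13_0 (nat_lit 4) (nat_lit 223) (nat_lit 224) = true := by decide +kernel
def p13_13_0_224 : pfC (piC [(nat_lit 39120232), (nat_lit 25510466), (nat_lit 18971201), (nat_lit 12765436)] (nat_lit 24651042)) p13_13_0 (nat_lit 4) (nat_lit 224) (nat_lit 225) = true := by decide +kernel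
def p13_13_0_225 : pfC (piC [(nat_lit 39120232), (nat_lit 25510466), (nat_lit 18971201), (nat_lit 12765436)] (nat_lit 24651042)) p13_13_0 (nat_lit 4) (nat_lit 225) (nat_lit 226) = true := by decide +kernel
def p13_13_0_226 : pfC (piC [(nat_lit 39120232), (nat_lit 25510466), (nat_lit 18971201), (nat_lit 12765436)] (nat_lit 24651042)) p13_13_0 (nat_lit 4) (nat_lit 226) (nat_lit 227) = true := by decide +kernel
def p13_13_0_227 : pfC (piC [(nat_lit 39120232), (nat_lit 25510466), (nat_lit 18971201), (nat_lit 12765436)] (nat_lit 24651042)) p13_13_0 (nat_lit 4) (nat_lit 227) (nat_lit 228) = true := by decide +kernel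
def p13_13_0_228 : pfC (piC [(nat_lit 39120232), (nat_lit 25510466), (nat_lit 18971201), (nat_lit 12765436)] (nat_lit 24651042)) p13_13_0 (nat_lit 4) (nat_lit 228) (nat_lit 229) = true := by decide +kernel
def p13_13_0_229 : pfC (piC [(nat_lit 39120232), (nat_lit 25510466), (nat_lit 18971201), (nat_lit 12765436)] (nat_lit 24651042)) p13_13_0 (nat_lit 4) (nat_lit 229) (nat_lit 230) = true := by decide +kernel
def p13_13_0_230 : pfC (piC [(nat_lit 39120232), (nat_lit 25510466), (nat_lit 18971201), (nat_lit 12765436)] (nat_lit 24651042)) p13_13_0 (nat_lit 4) (nat_lit 230) (nat_lit 231) = true := by decide +kernel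
def p13_13_0_231 : pfC (piC [(nat_lit 39120232), (nat_lit 25510466), (nat_lit 18971201), (nat_lit 12765436)] (nat_lit 24651042)) p13_13_0 (nat_lit 4) (nat_lit 231) (nat_lit 232) = true := by decide +kernel
def p13_13_0_232 : pfC (piC [(nat_lit 39120232), (nat_lit 25510466), (nat_lit 18971201), (nat_lit 12765436)] (nat_lit 24651042)) p13_13_0 (nat_lit 4) (nat_lit 232) (nat_lit 233) = true := by decide +kernel
def p13_13_0_233 : pfC (piC [(nat_lit 39120232), (nat_lit 25510466), (nat_lit 18971201), (nat_lit 12765436)] (nat_lit 24651042)) p13_13_0 (nat_lit 4) (nat_lit 233) (nat_lit 234) = true := by decide +kernel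
def p13_13_0_234 : pfC (piC [(nat_lit 39120232), (nat_lit 25510466), (nat_lit 18971201), (nat_lit 12765436)] (nat_lit 24651042)) p13_13_0 (nat_lit 4) (nat_lit 234) (nat_lit 235) = true := by decide +kernel
def p13_13_0_235 : pfC (piC [(nat_lit 39120232), (nat_lit 25510466), (nat_lit 18971201), (nat_lit 12765436)] (nat_lit 24651042)) p13_13_0 (nat_lit 4) (nat_lit 235) (nat_lit 236) = true := by decide +kernel
def p13_13_0_236 : pfC (piC [(nat_lit 39120232), (nat_lit 25510466), (nat_lit 18971201), (nat_lit 12765436)] (nat_lit 24651042)) p13_13_0 (nat_lit 4) (nat_lit 236) (nat_lit 237) = true := by decide +kernel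
def p13_13_0_237 : pfC (piC [(nat_lit 39120232), (nat_lit 25510466), (nat_lit 18971201), (nat_lit 12765436)] (nat_lit 24651042)) p13_13_0 (nat_lit 4) (nat_lit 237) (nat_lit 238) = true := by decide +kernel
def p13_13_0_238 : pfC (piC [(nat_lit 39120232), (nat_lit 25510466), (nat_lit 18971201), (nat_lit 12765436)] (nat_lit 24651042)) p13_13_0 (nat_lit 4) (nat_lit 238) (nat_lit 239) = true := by decide +kernel
def p13_13_0_239 : pfC (piC [(nat_lit 39120232), (nat_lit 25510466), (nat_lit 18971201), (nat_lit 12765436)] (nat_lit 24651042)) p13_13_0 (nat_lit 4) (nat_lit 239) (nat_lit 240) = true := by decide +kernel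
def p13_13_0_240 : pfC (piC [(nat_lit 39120232), (nat_lit 25510466), (nat_lit 18971201), (nat_lit 12765436)] (nat_lit 24651042)) p13_13_0 (nat_lit 4) (nat_lit 240) (nat_lit 241) = true := by decide +kernel
def p13_13_0_241 : pfC (piC [(nat_lit 39120232), (nat_lit 25510466), (nat_lit 18971201), (nat_lit 12765436)] (nat_lit 24651042)) p13_13_0 (nat_lit 4) (nat_lit 241) (nat_lit 242) = true := by decide +kernel
def p13_13_0_242 : pfC (piC [(nat_lit 39120232), (nat_lit 25510466), (nat_lit 18971201), (nat_lit 12765436)] (nat_lit 24651042)) p13_13_0 (nat_lit 4) (nat_lit 242) (nat_lit 243) = true := by decide +kernel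
def p13_13_0_243 : pfC (piC [(nat_lit 39120232), (nat_lit 25510466), (nat_lit 18971201), (nat_lit 12765436)] (nat_lit 24651042)) p13_13_0 (nat_lit 4) (nat_lit 243) (nat_lit 244) = true := by decide +kernel
def p13_13_0_244 : pfC (piC [(nat_lit 39120232), (nat_lit 25510466), (nat_lit 18971201), (nat_lit 12765436)] (nat_lit 24651042)) p13_13_0 (nat_lit 4) (nat_lit 244) (nat_lit 245) = true := by decide +kernel
def p13_13_0_245 : pfC (piC [(nat_lit 39120232), (nat_lit 25510466), (nat_lit 18971201), (nat_lit 12765436)] (nat_lit 24651042)) p13_13_0 (nat_lit 4) (nat_lit 245) (nat_lit 246) = true := by decide +kernel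
def p13_13_0_246 : pfC (piC [(nat_lit 39120232), (nat_lit 25510466), (nat_lit 18971201), (nat_lit 12765436)] (nat_lit 24651042)) p13_13_0 (nat_lit 4) (nat_lit 246) (nat_lit 247) = true := by decide +kernel
def p13_13_0_247 : pfC (piC [(nat_lit 39120232), (nat_lit 25510466), (nat_lit 18971201), (nat_lit 12765436)] (nat_lit 24651042)) p13_13_0 (nat_lit 4) (nat_lit 247) (nat_lit 248) = true := by decide +kernel
def p13_13_0_248 : pfC (piC [(nat_lit 39120232), (nat_lit 25510466), (nat_lit 18971201), (nat_lit 12765436)] (nat_lit 24651042)) p13_13_0 (nat_lit 4) (nat_lit 248) (nat_lit 249) = true := by decide +kernel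
def p13_13_0_249 : pfC (piC [(nat_lit 39120232), (nat_lit 25510466), (nat_lit 18971201), (nat_lit 12765436)] (nat_lit 24651042)) p13_13_0 (nat_lit 4) (nat_lit 249) (nat_lit 250) = true := by decide +kernel
def p13_13_0_250 : pfC (piC [(nat_lit 39120232), (nat_lit 25510466), (nat_lit 18971201), (nat_lit 12765436)] (nat_lit 24651042)) p13_13_0 (nat_lit 4) (nat_lit 250) (nat_lit 251) = true := by decide +kernel
def p13_13_0_251 : pfC (piC [(nat_lit 39120232), (nat_lit 25510466), (nat_lit 18971201), (nat_lit 12765436)] (nat_lit 24651042)) p13_13_0 (nat_lit 4) (nat_lit 251) (nat_lit 252) = true := by decide +kernel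
def p13_13_0_252 : pfC (piC [(nat_lit 39120232), (nat_lit 25510466), (nat_lit 18971201), (nat_lit 12765436)] (nat_lit 24651042)) p13_13_0 (nat_lit 4) (nat_lit 252) (nat_lit 253) = true := by decide +kernel
def p13_13_0_253 : pfC (piC [(nat_lit 39120232), (nat_lit 25510466), (nat_lit 18971201), (nat_lit 12765436)] (nat_lit 24651042)) p13_13_0 (nat_lit 4) (nat_lit 253) (nat_lit 254) = true := by decide +kernel
def p13_13_0_254 : pfC (piC [(nat_lit 39120232), (nat_lit 25510466), (nat_lit 18971201), (nat_lit 12765436)] (nat_lit 24651042)) p13_13_0 (nat_lit 4) (nat_lit 254) (nat_lit 255) = true := by decide +kernel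
def p13_13_0_255 : pfC (piC [(nat_lit 39120232), (nat_lit 25510466), (nat_lit 18971201), (nat_lit 12765436)] (nat_lit 24651042)) p13_13_0 (nat_lit 4) (nat_lit 255) (nat_lit 256) = true := by decide +kernel
def p13_13_0_256 : pfC (piC [(nat_lit 39120232), (nat_lit 25510466), (nat_lit 18971201), (nat_lit 12765436)] (nat_lit 24651042)) p13_13_0 (nat_lit 4) (nat_lit 256) (nat_lit 257) = true := by decide +kernel
def p13_13_0_257 : pfC (piC [(nat_lit 39120232), (nat_lit 25510466), (nat_lit 18971201), (nat_lit 12765436)] (nat_lit 24651042)) p13_13_0 (nat_lit 4) (nat_lit 257) (nat_lit 258) = true := by decide +kernel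
theorem p13_13_0_T : PfS (PiF n13_13.reverse (nat_lit 24651042)) p13_13_0 (nat_lit 4) [] 0 :=
  pftab_of (los := [(nat_lit 39120232), (nat_lit 25510466), (nat_lit 18971201), (nat_lit 12765436)]) (by decide +kernel) (hi := (nat_lit 258)) (PfP.trans (PfP.trans (PfP.trans (PfP.trans (PfP.trans (PfP.trans (PfP.trans (PfP.trans (PfP.trans (PfP.trans (PfP.trans (PfP.trans (PfP.trans (PfP.trans (PfP.trans (PfP.trans (PfP.trans (PfP.trans (PfP.trans (PfP.trans (PfP.trans (PfP.trans (PfP.trans (PfP.trans (PfP.trans (PfP.trans (PfP.trans (PfP.trans (PfP.trans (PfP.trans (PfP.trans (PfP.trans (PfP.trans (PfP.trans (PfP.trans (PfP.trans (PfP.trans (PfP.trans (PfP.trans (PfP.trans (PfP.trans (PfP.trans (PfP.trans (PfP.trans (PfP.trans (PfP.trans (PfP.trans (PfP.trans (PfP.trans (PfP.trans (PfP.trans (PfP.trans (PfP.trans (PfP.trans (PfP.trans (PfP.trans (PfP.trans (PfP.trans (PfP.trans (PfP.trans (PfP.trans (PfP.trans (PfP.trans (PfP.trans (PfP.trans (PfP.trans (PfP.trans (PfP.trans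 (PfP.trans (PfP.trans (PfP.trans (PfP.trans (PfP.trans (PfP.trans (PfP.trans (PfP.trans (PfP.trans (PfP.trans (PfP.trans (PfP.trans (PfP.trans (PfP.trans (PfP.trans (PfP.trans (PfP.trans (PfP.trans (PfP.trans (PfP.trans (PfP.trans (PfP.trans (PfP.trans (PfP.trans (PfP.trans (PfP.trans (PfP.trans (PfP.trans (PfP.trans (PfP.trans (PfP.trans (PfP.trans (PfP.trans (PfP.trans (PfP.trans (PfP.trans (PfP.trans (PfP.trans (PfP.trans (PfP.trans (PfP.trans
 (PfP.trans (PfP.trans (PfP.trans (PfP.trans (PfP.trans (PfP.trans (PfP.trans (PfP.trans (PfP.trans (PfP.trans (PfP.trans (PfP.trans (PfP.trans (PfP.trans (PfP.trans (PfP.trans (PfP.trans (PfP.trans (PfP.trans (PfP.trans (PfP.trans (PfP.trans (PfP.trans (PfP.trans (PfP.trans (PfP.trans (PfP.trans (PfP.trans (PfP.trans (PfP.trans (PfP.trans (PfP.trans (PfP.trans (PfP.trans (PfP.trans (PfP.trans (PfP.trans (PfP.trans (PfP.trans (PfP.trans (PfP.trans (PfP.trans (PfP.trans (PfP.trans (PfP.trans (PfP.trans (PfP.trans (PfP.trans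 (PfP.trans (PfP.trans (PfP.trans (PfP.trans (PfP.trans (PfP.trans (PfP.trans (PfP.trans (PfP.trans (PfP.trans (PfP.trans (PfP.trans (PfP.trans (PfP.trans (PfP.trans (PfP.trans (PfP.trans (PfP.trans (PfP.trans (PfP.trans (PfP.trans (PfP.trans (PfP.trans (PfP.trans (PfP.trans (PfP.trans (PfP.trans (PfP.trans (PfP.trans (PfP.trans (PfP.trans (PfP.trans (PfP.trans (PfP.trans (PfP.trans (PfP.trans (PfP.trans (PfP.trans (PfP.trans (PfP.trans (PfP.trans (PfP.trans (PfP.trans (PfP.trans (PfP.trans (PfP.trans (PfP.trans (PfP.trans (PfP.trans (PfP.trans (PfP.trans (PfP.trans (PfP.trans (PfP.trans (PfP.trans (PfP.trans (PfP.trans (PfP.trans (PfP.trans (PfP.trans (PfP.trans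
 (PfP.trans (PfP.trans (PfP.trans (PfP.trans (PfP.trans (PfP.trans (PfP.trans (PfP.trans (PfP.trans (PfP.trans (PfP.trans (PfP.trans (PfP.trans (PfP.trans (PfP.trans (PfP.trans (PfP.trans (PfP.trans (PfP.trans (PfP.trans (PfP.trans (PfP.trans (PfP.trans (PfP.trans (PfP.trans (PfP.trans (PfP.trans (PfP.trans (PfP.trans (PfP.trans (PfP.trans (PfP.trans (PfP.trans (PfP.trans (PfP.trans (PfP.trans (PfP.trans (PfP.trans (PfP.trans (pfC_sound p13_13_0_0) (pfC_sound p13_13_0_1)) (pfC_sound p13_13_0_2)) (pfC_sound p13_13_0_3)) (pfC_sound p13_13_0_4)) (pfC_sound p13_13_0_5)) (pfC_sound p13_13_0_6)) (pfC_sound p13_13_0_7)) (pfC_sound p13_13_0_8)) (pfC_sound p13_13_0_9)) (pfC_sound p13_13_0_10)) (pfC_sound p13_13_0_11)) (pfC_sound p13_13_0_12)) (pfC_sound p13_13_0_13)) (pfC_sound p13_13_0_14)) (pfC_sound p13_13_0_15)) (pfC_sound p13_13_0_16)) (pfC_sound p13_13_0_17)) (pfC_sound p13_13_0_18)) (pfC_sound p13_13_0_19)) (pfC_sound p13_13_0_20)) (pfC_sound p13_13_0_21)) (pfC_sound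 p13_13_0_22)) (pfC_sound p13_13_0_23)) (pfC_sound p13_13_0_24)) (pfC_sound p13_13_0_25)) (pfC_sound p13_13_0_26)) (pfC_sound p13_13_0_27)) (pfC_sound p13_13_0_28)) (pfC_sound p13_13_0_29)) (pfC_sound p13_13_0_30))
 (pfC_sound p13_13_0_31)) (pfC_sound p13_13_0_32)) (pfC_sound p13_13_0_33)) (pfC_sound p13_13_0_34)) (pfC_sound p13_13_0_35)) (pfC_sound p13_13_0_36)) (pfC_sound p13_13_0_37)) (pfC_sound p13_13_0_38)) (pfC_sound p13_13_0_39)) (pfC_sound p13_13_0_40)) (pfC_sound p13_13_0_41)) (pfC_sound p13_13_0_42)) (pfC_sound p13_13_0_43)) (pfC_sound p13_13_0_44)) (pfC_sound p13_13_0_45)) (pfC_sound p13_13_0_46)) (pfC_sound p13_13_0_47)) (pfC_sound p13_13_0_48)) (pfC_sound p13_13_0_49)) (pfC_sound p13_13_0_50)) (pfC_sound p13_13_0_51)) (pfC_sound p13_13_0_52)) (pfC_sound p13_13_0_53)) (pfC_sound p13_13_0_54)) (pfC_sound p13_13_0_55)) (pfC_sound p13_13_0_56)) (pfC_sound p13_13_0_57)) (pfC_sound p13_13_0_58)) (pfC_sound p13_13_0_59)) (pfC_sound p13_13_0_60)) (pfC_sound p13_13_0_61))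 (pfC_sound p13_13_0_62)) (pfC_sound p13_13_0_63)) (pfC_sound p13_13_0_64)) (pfC_sound p13_13_0_65)) (pfC_sound p13_13_0_66)) (pfC_sound p13_13_0_67)) (pfC_sound p13_13_0_68)) (pfC_sound p13_13_0_69)) (pfC_sound p13_13_0_70)) (pfC_sound p13_13_0_71)) (pfC_sound p13_13_0_72)) (pfC_sound p13_13_0_73)) (pfC_sound p13_13_0_74)) (pfC_sound p13_13_0_75)) (pfC_sound p13_13_0_76)) (pfC_sound p13_13_0_77)) (pfC_sound p13_13_0_78))
 (pfC_sound p13_13_0_79)) (pfC_sound p13_13_0_80)) (pfC_sound p13_13_0_81)) (pfC_sound p13_13_0_82)) (pfC_sound p13_13_0_83)) (pfC_sound p13_13_0_84)) (pfC_sound p13_13_0_85)) (pfC_sound p13_13_0_86)) (pfC_sound p13_13_0_87)) (pfC_sound p13_13_0_88)) (pfC_sound p13_13_0_89)) (pfC_sound p13_13_0_90)) (pfC_sound p13_13_0_91)) (pfC_sound p13_13_0_92)) (pfC_sound p13_13_0_93)) (pfC_sound p13_13_0_94)) (pfC_sound p13_13_0_95)) (pfC_sound p13_13_0_96)) (pfC_sound p13_13_0_97)) (pfC_sound p13_13_0_98)) (pfC_sound p13_13_0_99)) (pfC_sound p13_13_0_100))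 (pfC_sound p13_13_0_101)) (pfC_sound p13_13_0_102)) (pfC_sound p13_13_0_103)) (pfC_sound p13_13_0_104)) (pfC_sound p13_13_0_105)) (pfC_sound p13_13_0_106)) (pfC_sound p13_13_0_107)) (pfC_sound p13_13_0_108)) (pfC_sound p13_13_0_109)) (pfC_sound p13_13_0_110)) (pfC_sound p13_13_0_111)) (pfC_sound p13_13_0_112)) (pfC_sound p13_13_0_113)) (pfC_sound p13_13_0_114)) (pfC_sound p13_13_0_115)) (pfC_sound p13_13_0_116)) (pfC_sound p13_13_0_117)) (pfC_sound p13_13_0_118)) (pfC_sound p13_13_0_119)) (pfC_sound p13_13_0_120)) (pfC_sound p13_13_0_121)) (pfC_sound p13_13_0_122)) (pfC_sound p13_13_0_123)) (pfC_sound p13_13_0_124)) (pfC_sound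
 p13_13_0_125)) (pfC_sound p13_13_0_126)) (pfC_sound p13_13_0_127)) (pfC_sound p13_13_0_128)) (pfC_sound p13_13_0_129)) (pfC_sound p13_13_0_130)) (pfC_sound p13_13_0_131)) (pfC_sound p13_13_0_132)) (pfC_sound p13_13_0_133)) (pfC_sound p13_13_0_134)) (pfC_sound p13_13_0_135)) (pfC_sound p13_13_0_136)) (pfC_sound p13_13_0_137)) (pfC_sound p13_13_0_138)) (pfC_sound p13_13_0_139)) (pfC_sound p13_13_0_140)) (pfC_sound p13_13_0_141)) (pfC_sound p13_13_0_142)) (pfC_sound p13_13_0_143)) (pfC_sound p13_13_0_144)) (pfC_sound p13_13_0_145)) (pfC_sound p13_13_0_146)) (pfC_sound p13_13_0_147)) (pfC_sound p13_13_0_148)) (pfC_sound p13_13_0_149)) (pfC_sound p13_13_0_150)) (pfC_sound p13_13_0_151)) (pfC_sound p13_13_0_152)) (pfC_sound p13_13_0_153)) (pfC_sound p13_13_0_154)) (pfC_sound p13_13_0_155)) (pfC_sound p13_13_0_156)) (pfC_sound p13_13_0_157)) (pfC_sound p13_13_0_158)) (pfC_sound p13_13_0_159)) (pfC_sound p13_13_0_160)) (pfC_sound p13_13_0_161)) (pfC_sound p13_13_0_162))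 (pfC_sound p13_13_0_163)) (pfC_sound p13_13_0_164)) (pfC_sound p13_13_0_165)) (pfC_sound p13_13_0_166)) (pfC_sound p13_13_0_167)) (pfC_sound p13_13_0_168)) (pfC_sound p13_13_0_169)) (pfC_sound p13_13_0_170)) (pfC_sound
 p13_13_0_171)) (pfC_sound p13_13_0_172)) (pfC_sound p13_13_0_173)) (pfC_sound p13_13_0_174)) (pfC_sound p13_13_0_175)) (pfC_sound p13_13_0_176)) (pfC_sound p13_13_0_177)) (pfC_sound p13_13_0_178)) (pfC_sound p13_13_0_179)) (pfC_sound p13_13_0_180)) (pfC_sound p13_13_0_181)) (pfC_sound p13_13_0_182)) (pfC_sound p13_13_0_183)) (pfC_sound p13_13_0_184)) (pfC_sound p13_13_0_185)) (pfC_sound p13_13_0_186)) (pfC_sound p13_13_0_187)) (pfC_sound p13_13_0_188)) (pfC_sound p13_13_0_189)) (pfC_sound p13_13_0_190)) (pfC_sound p13_13_0_191)) (pfC_sound p13_13_0_192)) (pfC_sound p13_13_0_193)) (pfC_sound p13_13_0_194)) (pfC_sound p13_13_0_195)) (pfC_sound p13_13_0_196)) (pfC_sound p13_13_0_197)) (pfC_sound p13_13_0_198)) (pfC_sound p13_13_0_199)) (pfC_sound p13_13_0_200))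 (pfC_sound p13_13_0_201)) (pfC_sound p13_13_0_202)) (pfC_sound p13_13_0_203)) (pfC_sound p13_13_0_204)) (pfC_sound p13_13_0_205)) (pfC_sound p13_13_0_206)) (pfC_sound p13_13_0_207)) (pfC_sound p13_13_0_208)) (pfC_sound p13_13_0_209)) (pfC_sound p13_13_0_210)) (pfC_sound p13_13_0_211)) (pfC_sound p13_13_0_212)) (pfC_sound p13_13_0_213)) (pfC_sound p13_13_0_214)) (pfC_sound p13_13_0_215)) (pfC_sound p13_13_0_216)) (pfC_sound
 p13_13_0_217)) (pfC_sound p13_13_0_218)) (pfC_sound p13_13_0_219)) (pfC_sound p13_13_0_220)) (pfC_sound p13_13_0_221)) (pfC_sound p13_13_0_222)) (pfC_sound p13_13_0_223)) (pfC_sound p13_13_0_224)) (pfC_sound p13_13_0_225)) (pfC_sound p13_13_0_226)) (pfC_sound p13_13_0_227)) (pfC_sound p13_13_0_228)) (pfC_sound p13_13_0_229)) (pfC_sound p13_13_0_230)) (pfC_sound p13_13_0_231)) (pfC_sound p13_13_0_232)) (pfC_sound p13_13_0_233)) (pfC_sound p13_13_0_234)) (pfC_sound p13_13_0_235)) (pfC_sound p13_13_0_236)) (pfC_sound p13_13_0_237)) (pfC_sound p13_13_0_238))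 (pfC_sound p13_13_0_239)) (pfC_sound p13_13_0_240)) (pfC_sound p13_13_0_241)) (pfC_sound p13_13_0_242)) (pfC_sound p13_13_0_243)) (pfC_sound p13_13_0_244)) (pfC_sound p13_13_0_245)) (pfC_sound p13_13_0_246)) (pfC_sound p13_13_0_247)) (pfC_sound p13_13_0_248)) (pfC_sound p13_13_0_249)) (pfC_sound p13_13_0_250)) (pfC_sound p13_13_0_251)) (pfC_sound p13_13_0_252)) (pfC_sound p13_13_0_253)) (pfC_sound p13_13_0_254)) (pfC_sound p13_13_0_255)) (pfC_sound p13_13_0_256)) (pfC_sound p13_13_0_257)) (by decide +kernel)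

def z13_13_0 : zOK yB13_13 (nat_lit 0) (nat_lit 0) (nat_lit 400) (nat_lit 24651042) (nat_lit 10729447) = true := by decide +kernel
def g13_13_0 : gOK yB13_13.x P13_13 (nat_lit 1417) (q13_13 :: r13_13) (nat_lit 0) (nat_lit 0) (nat_lit 1) (nat_lit 400) (nat_lit 0) (nat_lit 11000000) (nat_lit 12712500) (nat_lit 12712500) [(nat_lit 800), (nat_lit 1400), (nat_lit 2200)] = true := by decide +kernel
def v13_13_0 : ivC P13_13 s13_13 w13_13 n13_13 (nat_lit 4) (nat_lit 5400) (nat_lit 0) (nat_lit 0) f160_1_0 f168_1_0 (nat_lit 1) (nat_lit 400) f160_1_400 f168_1_400 (nat_lit 24651042) (nat_lit 10729447) p13_13_0 = true := by decide +kernel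
def p13_13_1 : PF := (PF.cons (PF.cons (PF.cons (PF.cons (PF.leaf (nat_lit 2054334) (nat_lit 9615128) (nat_lit 57493684) (nat_lit 9615128) [(nat_lit 0), (nat_lit 0), (nat_lit 0), (nat_lit 0)]) (PF.cons (PF.leaf (nat_lit 2218271) (nat_lit 278634) (nat_lit 57190164) (nat_lit 9640013) [(nat_lit 278634), (nat_lit 0), (nat_lit 0), (nat_lit 0)]) (PF.cons (PF.leaf (nat_lit 2412763) (nat_lit 303493) (nat_lit 56834812) (nat_lit 9667013) [(nat_lit 303493), (nat_lit 0), (nat_lit 0), (nat_lit 0)]) (PF.cons (PF.leaf (nat_lit 2631587) (nat_lit 325702) (nat_lit 56437068) (nat_lit 9694637) [(nat_lit 325702), (nat_lit 0), (nat_lit 0), (nat_lit 0)]) (PF.cons (PF.leaf (nat_lit 2871490) (nat_lit 345852) (nat_lit 56003642) (nat_lit 9721762) [(nat_lit 345852), (nat_lit 0), (nat_lit 0), (nat_lit 0)]) (PF.cons (PF.leaf (nat_lit 3129817) (nat_lit 364313) (nat_lit 55539735) (nat_lit 9747509) [(nat_lit 364313), (nat_lit 0), (nat_lit 0), (nat_lit 0)]) (PF.cons (PF.leaf (nat_lit 3404494) (nat_lit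 381336) (nat_lit 55049607) (nat_lit 9771187) [(nat_lit 381336), (nat_lit 0), (nat_lit 0), (nat_lit 0)]) (PF.cons (PF.leaf (nat_lit 3693717) (nat_lit 397097) (nat_lit 54536880) (nat_lit 9792251) [(nat_lit 397097), (nat_lit 0), (nat_lit
 0), (nat_lit 0)]) (PF.cons PF.nil (PF.cons PF.nil PF.nil)))))))))) (PF.cons (PF.cons (PF.leaf (nat_lit 2615452) (nat_lit 1276066) (nat_lit 56125062) (nat_lit 9707683) [(nat_lit 0), (nat_lit 1276066), (nat_lit 0), (nat_lit 0)]) (PF.cons (PF.leaf (nat_lit 2828747) (nat_lit 337353) (nat_lit 55730405) (nat_lit 9730512) [(nat_lit 337353), (nat_lit 1310541), (nat_lit 0), (nat_lit 0)]) (PF.cons (PF.leaf (nat_lit 3065271) (nat_lit 356783) (nat_lit 55298039) (nat_lit 9752795) [(nat_lit 356783), (nat_lit 1344410), (nat_lit 0), (nat_lit 0)]) (PF.cons (PF.leaf (nat_lit 3320906) (nat_lit 374509) (nat_lit 54834506) (nat_lit 9773644) [(nat_lit 374509), (nat_lit 1377133), (nat_lit 0), (nat_lit 0)]) (PF.cons (PF.leaf (nat_lit 3593174) (nat_lit 390809)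 (nat_lit 54344760) (nat_lit 9792390) [(nat_lit 390809), (nat_lit 1408424), (nat_lit 0), (nat_lit 0)]) (PF.cons (PF.leaf (nat_lit 3880060) (nat_lit 405871) (nat_lit 53832797) (nat_lit 9808525) [(nat_lit 405871), (nat_lit 1438131), (nat_lit 0), (nat_lit 0)]) (PF.cons (PF.leaf (nat_lit 4179841) (nat_lit 419831) (nat_lit 53301977) (nat_lit 9821664) [(nat_lit 419831), (nat_lit 1466180), (nat_lit 0), (nat_lit 0)]) (PF.cons PF.nil (PF.cons PF.nil
 PF.nil))))))))) (PF.cons (PF.cons (PF.leaf (nat_lit 3262987) (nat_lit 1378203) (nat_lit 54575095) (nat_lit 9777310) [(nat_lit 0), (nat_lit 1378203), (nat_lit 0), (nat_lit 0)]) (PF.cons (PF.leaf (nat_lit 3513460) (nat_lit 383380) (nat_lit 54116778) (nat_lit 9793344) [(nat_lit 383380), (nat_lit 1407654), (nat_lit 0), (nat_lit 0)]) (PF.cons (PF.leaf (nat_lit 3782027) (nat_lit 399142) (nat_lit 53631110) (nat_lit 9807309) [(nat_lit 399142), (nat_lit 1436053), (nat_lit 0), (nat_lit 0)]) (PF.cons (PF.leaf (nat_lit 4065606) (nat_lit 413644)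 (nat_lit 53122857) (nat_lit 9818712) [(nat_lit 413644), (nat_lit 1463155), (nat_lit 0), (nat_lit 0)]) (PF.cons (PF.leaf (nat_lit 4362244) (nat_lit 427040) (nat_lit 52595806) (nat_lit 9827189) [(nat_lit 427040), (nat_lit 1488827), (nat_lit 0), (nat_lit 0)]) (PF.cons (PF.leaf (nat_lit 4670305) (nat_lit 439445) (nat_lit 52053103) (nat_lit 9832483) [(nat_lit 439445), (nat_lit 1512999), (nat_lit 0), (nat_lit 0)]) (PF.cons PF.nil PF.nil))))))) (PF.cons (PF.cons (PF.leaf (nat_lit 3972601) (nat_lit 1461308) (nat_lit 52908783) (nat_lit 9816104) [(nat_lit 0), (nat_lit 1461308), (nat_lit 0), (nat_lit 0)]) (PF.cons (PF.leaf (nat_lit 4251106) (nat_lit 420443)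
 (nat_lit 52407479) (nat_lit 9823012) [(nat_lit 420443), (nat_lit 1485959), (nat_lit 0), (nat_lit 0)]) (PF.cons (PF.leaf (nat_lit 4543673) (nat_lit 433386) (nat_lit 51886749) (nat_lit 9827087) [(nat_lit 433386), (nat_lit 1509401), (nat_lit 0), (nat_lit 0)]) (PF.cons (PF.leaf (nat_lit 4847939) (nat_lit 445322) (nat_lit 51350190) (nat_lit 9828087) [(nat_lit 445322), (nat_lit 1531522), (nat_lit 0), (nat_lit 0)]) (PF.cons PF.nil PF.nil))))) (PF.cons (PF.cons (PF.leaf (nat_lit 4725345) (nat_lit 1528074) (nat_lit 51174944) (nat_lit 9821570) [(nat_lit 0), (nat_lit 1528074), (nat_lit 0), (nat_lit 0)]) (PF.cons (PF.leaf (nat_lit 5024467) (nat_lit 450440) (nat_lit 50646763) (nat_lit 9818570) [(nat_lit 450440), (nat_lit 1548259), (nat_lit 0), (nat_lit 0)]) (PF.cons (PF.leaf (nat_lit 5334483) (nat_lit 461074) (nat_lit 50105345) (nat_lit 9812466) [(nat_lit 461074), (nat_lit 1567213), (nat_lit 0), (nat_lit 0)]) (PF.cons PF.nil PF.nil)))) (PF.cons (PF.cons (PF.leaf (nat_lit 5505887)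 (nat_lit 1580604) (nat_lit 49411314) (nat_lit 9794474) [(nat_lit 0), (nat_lit 1580604), (nat_lit 0), (nat_lit 0)]) (PF.cons PF.nil PF.nil)) (PF.cons PF.nil (PF.cons PF.nil PF.nil)))))))) (PF.cons (PF.cons (PF.cons
 (PF.leaf (nat_lit 3200335) (nat_lit 3364736) (nat_lit 53979152) (nat_lit 9764924) [(nat_lit 0), (nat_lit 0), (nat_lit 3364736), (nat_lit 0)]) (PF.cons (PF.leaf (nat_lit 3424416) (nat_lit 364028) (nat_lit 53571429) (nat_lit 9776918) [(nat_lit 364028), (nat_lit 0), (nat_lit 3396436), (nat_lit 0)]) (PF.cons (PF.leaf (nat_lit 3670559) (nat_lit 382206) (nat_lit 53128603) (nat_lit 9787523) [(nat_lit 382206), (nat_lit 0), (nat_lit 3428273), (nat_lit 0)]) (PF.cons (PF.leaf (nat_lit 3934482) (nat_lit 398539) (nat_lit 52657604) (nat_lit 9796129) [(nat_lit 398539), (nat_lit 0), (nat_lit 3459459), (nat_lit 0)]) (PF.cons (PF.leaf (nat_lit 4213587) (nat_lit 413372) (nat_lit 52163554) (nat_lit 9802296) [(nat_lit 413372), (nat_lit 0), (nat_lit 3489470), (nat_lit 0)])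 (PF.cons (PF.leaf (nat_lit 4505808) (nat_lit 426935) (nat_lit 51650483) (nat_lit 9805700) [(nat_lit 426935), (nat_lit 0), (nat_lit 3517951), (nat_lit 0)]) (PF.cons (PF.leaf (nat_lit 4809438) (nat_lit 439390) (nat_lit 51121696) (nat_lit 9806112) [(nat_lit 439390), (nat_lit 0), (nat_lit 3544662), (nat_lit 0)]) (PF.cons PF.nil (PF.cons PF.nil PF.nil))))))))) (PF.cons (PF.cons (PF.leaf (nat_lit 3863651) (nat_lit 1443299) (nat_lit
 52407789) (nat_lit 9793299) [(nat_lit 0), (nat_lit 1443299), (nat_lit 3464424), (nat_lit 0)]) (PF.cons (PF.leaf (nat_lit 4121149) (nat_lit 405152) (nat_lit 51945900) (nat_lit 9797846) [(nat_lit 405152), (nat_lit 1468083), (nat_lit 3491830), (nat_lit 0)]) (PF.cons (PF.leaf (nat_lit 4395393) (nat_lit 419605) (nat_lit 51459475) (nat_lit 9800000) [(nat_lit 419605), (nat_lit 1491800), (nat_lit 3518325), (nat_lit 0)]) (PF.cons (PF.leaf (nat_lit 4683292) (nat_lit 432746) (nat_lit 50953341) (nat_lit 9799459) [(nat_lit 432746), (nat_lit 1514268), (nat_lit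 3543504), (nat_lit 0)]) (PF.cons (PF.leaf (nat_lit 4982925) (nat_lit 444761) (nat_lit 50431252) (nat_lit 9796015) [(nat_lit 444761), (nat_lit 1535394), (nat_lit 3567102), (nat_lit 0)]) (PF.cons PF.nil (PF.cons PF.nil PF.nil))))))) (PF.cons (PF.cons (PF.leaf (nat_lit 4578727) (nat_lit 1511004) (nat_lit 50750562) (nat_lit 9792431) [(nat_lit 0), (nat_lit 1511004), (nat_lit 3543811), (nat_lit 0)]) (PF.cons (PF.leaf (nat_lit 4860690) (nat_lit 437713) (nat_lit 50254150) (nat_lit 9788231) [(nat_lit 437713), (nat_lit 1531429), (nat_lit 3565857), (nat_lit 0)]) (PF.cons (PF.leaf (nat_lit 5155450) (nat_lit 449390) (nat_lit 49740902) (nat_lit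
 9781215) [(nat_lit 449390), (nat_lit 1550698), (nat_lit 3586517), (nat_lit 0)]) (PF.cons (PF.leaf (nat_lit 5460674) (nat_lit 460051) (nat_lit 49214335) (nat_lit 9771265) [(nat_lit 460051), (nat_lit 1568732), (nat_lit 3605591), (nat_lit 0)]) (PF.cons PF.nil PF.nil))))) (PF.cons (PF.cons (PF.leaf (nat_lit 5328190) (nat_lit 1564441) (nat_lit 49050487) (nat_lit 9761896) [(nat_lit 0), (nat_lit 1564441), (nat_lit 3603103), (nat_lit 0)]) (PF.cons (PF.leaf (nat_lit 5627691) (nat_lit 463657) (nat_lit 48534226) (nat_lit 9748776) [(nat_lit 463657), (nat_lit 1580859), (nat_lit 3619572), (nat_lit 0)]) (PF.cons PF.nil (PF.cons PF.nil PF.nil)))) (PF.cons (PF.cons (PF.leaf (nat_lit 6098396) (nat_lit 1605484) (nat_lit 47339739) (nat_lit 9703471) [(nat_lit 0), (nat_lit 1605484), (nat_lit 3643664), (nat_lit 0)]) (PF.cons PF.nil PF.nil)) (PF.cons PF.nil PF.nil)))))) (PF.cons (PF.cons (PF.cons (PF.leaf (nat_lit 4452007) (nat_lit 3528855) (nat_lit 50289139) (nat_lit 9761961) [(nat_lit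 0), (nat_lit 0), (nat_lit 3528855), (nat_lit 0)]) (PF.cons (PF.leaf (nat_lit 4713833) (nat_lit 422356) (nat_lit 49830749) (nat_lit 9756698) [(nat_lit 422356), (nat_lit 0), (nat_lit 3549504), (nat_lit 0)]) (PF.cons
 (PF.leaf (nat_lit 4991237) (nat_lit 435619) (nat_lit 49350357) (nat_lit 9748881) [(nat_lit 435619), (nat_lit 0), (nat_lit 3569167), (nat_lit 0)]) (PF.cons (PF.leaf (nat_lit 5281111) (nat_lit 447539) (nat_lit 48852743) (nat_lit 9738364) [(nat_lit 447539), (nat_lit 0), (nat_lit 3587542), (nat_lit 0)]) (PF.cons (PF.leaf (nat_lit 5581506) (nat_lit 458329) (nat_lit 48341566) (nat_lit 9725059) [(nat_lit 458329), (nat_lit 0), (nat_lit 3604434), (nat_lit 0)]) (PF.cons PF.nil (PF.cons PF.nil PF.nil))))))) (PF.cons (PF.cons (PF.leaf (nat_lit 5166590) (nat_lit 1547033) (nat_lit 48662280) (nat_lit 9728074) [(nat_lit 0), (nat_lit 1547033), (nat_lit 3585712), (nat_lit 0)]) (PF.cons (PF.leaf (nat_lit 5449889) (nat_lit 450985) (nat_lit 48176263) (nat_lit 9714680) [(nat_lit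 450985), (nat_lit 1563866), (nat_lit 3601509), (nat_lit 0)]) (PF.cons (PF.leaf (nat_lit 5744868) (nat_lit 461532) (nat_lit 47675617) (nat_lit 9698564) [(nat_lit 461532), (nat_lit 1579595), (nat_lit 3615985), (nat_lit 0)]) (PF.cons (PF.leaf (nat_lit 6049230) (nat_lit 471066) (nat_lit 47163734) (nat_lit 9679707) [(nat_lit 471066), (nat_lit 1594172), (nat_lit 3628999), (nat_lit 0)]) (PF.cons PF.nil PF.nil))))) (PF.cons (PF.cons
 (PF.leaf (nat_lit 5908461) (nat_lit 1589298) (nat_lit 47011461) (nat_lit 9668341) [(nat_lit 0), (nat_lit 1589298), (nat_lit 3625206), (nat_lit 0)]) (PF.cons (PF.leaf (nat_lit 6206702) (nat_lit 473418) (nat_lit 46511113) (nat_lit 9647048) [(nat_lit 473418), (nat_lit 1602526), (nat_lit 3636090), (nat_lit 0)]) (PF.cons PF.nil (PF.cons PF.nil PF.nil)))) (PF.cons (PF.cons (PF.leaf (nat_lit 6665431) (nat_lit 1620739) (nat_lit 45364081) (nat_lit 9585075) [(nat_lit 0), (nat_lit 1620739), (nat_lit 3648718), (nat_lit 0)]) (PF.cons PF.nil PF.nil)) (PF.cons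 PF.nil PF.nil))))) (PF.cons (PF.cons (PF.cons (PF.leaf (nat_lit 5734341) (nat_lit 3606525) (nat_lit 46657506) (nat_lit 9631729) [(nat_lit 0), (nat_lit 0), (nat_lit 3606525), (nat_lit 0)]) (PF.cons (PF.leaf (nat_lit 6017294) (nat_lit 460920) (nat_lit 46185678) (nat_lit 9610859) [(nat_lit 460920), (nat_lit 0), (nat_lit 3617118), (nat_lit 0)]) (PF.cons (PF.leaf (nat_lit 6310987) (nat_lit 470460) (nat_lit 45701094) (nat_lit 9587407) [(nat_lit 470460), (nat_lit 0), (nat_lit 3626463), (nat_lit 0)]) (PF.cons PF.nil PF.nil)))) (PF.cons (PF.cons (PF.leaf (nat_lit 6465487) (nat_lit 1604766) (nat_lit 45066077) (nat_lit 9548729) [(nat_lit 0), (nat_lit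
 1604766), (nat_lit 3629746), (nat_lit 0)]) (PF.cons (PF.leaf (nat_lit 6761257) (nat_lit 480308) (nat_lit 44584213) (nat_lit 9520946) [(nat_lit 480308), (nat_lit 1615291), (nat_lit 3636017), (nat_lit 0)]) PF.nil)) (PF.cons PF.nil PF.nil))) (PF.cons (PF.cons (PF.cons (PF.leaf (nat_lit 6999283) (nat_lit 3620294) (nat_lit 43218118) (nat_lit 9409516) [(nat_lit 0), (nat_lit 0), (nat_lit 3620294), (nat_lit 0)]) (PF.cons PF.nil PF.nil)) (PF.cons PF.nil PF.nil)) (PF.cons PF.nil PF.nil)))))) (PF.cons (PF.cons (PF.cons (PF.cons (PF.leaf (nat_lit 4228530) (nat_lit 9304304) (nat_lit 48257488) (nat_lit 9547019) [(nat_lit 0), (nat_lit 0), (nat_lit 0), (nat_lit 9304304)]) (PF.cons (PF.leaf (nat_lit 4451103) (nat_lit 378847) (nat_lit 47889336) (nat_lit 9541008) [(nat_lit 378847), (nat_lit 0), (nat_lit 0), (nat_lit 9299619)]) (PF.cons (PF.leaf (nat_lit 4693991) (nat_lit 395758) (nat_lit 47491540) (nat_lit 9532856) [(nat_lit 395758), (nat_lit 0), (nat_lit 0), (nat_lit 9292899)]) (PF.cons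 (PF.leaf (nat_lit 4952841) (nat_lit 410622) (nat_lit 47070567) (nat_lit 9522409) [(nat_lit 410622), (nat_lit 0), (nat_lit 0), (nat_lit 9283968)]) (PF.cons (PF.leaf (nat_lit 5224995) (nat_lit 423851) (nat_lit
 46631137) (nat_lit 9509562) [(nat_lit 423851), (nat_lit 0), (nat_lit 0), (nat_lit 9272705)]) (PF.cons (PF.leaf (nat_lit 5508428) (nat_lit 435724) (nat_lit 46176903) (nat_lit 9494251) [(nat_lit 435724), (nat_lit 0), (nat_lit 0), (nat_lit 9259035)]) (PF.cons (PF.leaf (nat_lit 5801444) (nat_lit 446440) (nat_lit 45710805) (nat_lit 9476445) [(nat_lit 446440), (nat_lit 0), (nat_lit 0), (nat_lit 9242919)]) (PF.cons PF.nil (PF.cons PF.nil PF.nil))))))))) (PF.cons (PF.cons (PF.leaf (nat_lit 4869653) (nat_lit 1470371) (nat_lit 46854496) (nat_lit 9510844) [(nat_lit 0), (nat_lit 1470371), (nat_lit 0), (nat_lit 9273100)]) (PF.cons (PF.leaf (nat_lit 5121051) (nat_lit 414793) (nat_lit 46444299) (nat_lit 9498088) [(nat_lit 414793), (nat_lit 1489801), (nat_lit 0), (nat_lit 9261829)])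 (PF.cons (PF.leaf (nat_lit 5387432) (nat_lit 427738) (nat_lit 46014146) (nat_lit 9482923) [(nat_lit 427738), (nat_lit 1508040), (nat_lit 0), (nat_lit 9248224)]) (PF.cons (PF.leaf (nat_lit 5665738) (nat_lit 439287) (nat_lit 45568387) (nat_lit 9465319) [(nat_lit 439287), (nat_lit 1524998), (nat_lit 0), (nat_lit 9232243)]) (PF.cons (PF.leaf (nat_lit 5954062) (nat_lit 449665) (nat_lit 45110353) (nat_lit 9445274) [(nat_lit
 449665), (nat_lit 1540650), (nat_lit 0), (nat_lit 9213871)]) (PF.cons (PF.leaf (nat_lit 6250873) (nat_lit 459034) (nat_lit 44642708) (nat_lit 9422805) [(nat_lit 459034), (nat_lit 1555008), (nat_lit 0), (nat_lit 9193118)]) (PF.cons PF.nil PF.nil))))))) (PF.cons (PF.cons (PF.leaf (nat_lit 5551282) (nat_lit 1519966) (nat_lit 45395777) (nat_lit 9452808) [(nat_lit 0), (nat_lit 1519966), (nat_lit 0), (nat_lit 9220294)]) (PF.cons (PF.leaf (nat_lit 5823012) (nat_lit 442139) (nat_lit 44960616) (nat_lit 9433188) [(nat_lit 442139), (nat_lit 1535298), (nat_lit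 0), (nat_lit 9202271)]) (PF.cons (PF.leaf (nat_lit 6105973) (nat_lit 452278) (nat_lit 44512226) (nat_lit 9411153) [(nat_lit 452278), (nat_lit 1549493), (nat_lit 0), (nat_lit 9181889)]) (PF.cons (PF.leaf (nat_lit 6397850) (nat_lit 461383) (nat_lit 44053674) (nat_lit 9386747) [(nat_lit 461383), (nat_lit 1562529), (nat_lit 0), (nat_lit 9159180)]) (PF.cons (PF.leaf (nat_lit 6697205) (nat_lit 469593) (nat_lit 43587393) (nat_lit 9360024) [(nat_lit 469593), (nat_lit 1574413), (nat_lit 0), (nat_lit 9134194)]) PF.nil))))) (PF.cons (PF.cons (PF.leaf (nat_lit 6258268) (nat_lit 1557179) (nat_lit 43916021) (nat_lit 9374181) [(nat_lit 0), (nat_lit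
 1557179), (nat_lit 0), (nat_lit 9147071)]) (PF.cons (PF.leaf (nat_lit 6544134) (nat_lit 463197) (nat_lit 43467950) (nat_lit 9348084) [(nat_lit 463197), (nat_lit 1568977), (nat_lit 0), (nat_lit 9122649)]) (PF.cons (PF.leaf (nat_lit 6838386) (nat_lit 471199) (nat_lit 43011501) (nat_lit 9319718) [(nat_lit 471199), (nat_lit 1579731), (nat_lit 0), (nat_lit 9095999)]) (PF.cons PF.nil PF.nil)))) (PF.cons (PF.cons (PF.leaf (nat_lit 6979321) (nat_lit 1584123) (nat_lit 42439659) (nat_lit 9277129) [(nat_lit 0), (nat_lit 1584123), (nat_lit 0), (nat_lit 9055530)]) (PF.cons (PF.leaf (nat_lit 7274556) (nat_lit 479365) (nat_lit 41987410) (nat_lit 9245215) [(nat_lit 479365), (nat_lit 1592869), (nat_lit 0), (nat_lit 9025343)]) PF.nil)) (PF.cons PF.nil PF.nil)))))) (PF.cons (PF.cons (PF.cons (PF.leaf (nat_lit 5406563) (nat_lit 3498951) (nat_lit 45013600) (nat_lit 9413803) [(nat_lit 0), (nat_lit 0), (nat_lit 3498951), (nat_lit 9182457)]) (PF.cons (PF.leaf (nat_lit 5659796) (nat_lit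 426328) (nat_lit 44611767) (nat_lit 9394954) [(nat_lit 426328), (nat_lit 0), (nat_lit 3510655), (nat_lit 9165106)]) (PF.cons (PF.leaf (nat_lit 5927008) (nat_lit 438202) (nat_lit 44191988) (nat_lit 9373677) [(nat_lit
 438202), (nat_lit 0), (nat_lit 3521343), (nat_lit 9145398)]) (PF.cons (PF.leaf (nat_lit 6205191) (nat_lit 448688) (nat_lit 43758480) (nat_lit 9350036) [(nat_lit 448688), (nat_lit 0), (nat_lit 3530843), (nat_lit 9123385)]) (PF.cons (PF.leaf (nat_lit 6492461) (nat_lit 458026) (nat_lit 43314431) (nat_lit 9324097) [(nat_lit 458026), (nat_lit 0), (nat_lit 3539055), (nat_lit 9099122)]) (PF.cons (PF.leaf (nat_lit 6787319) (nat_lit 466387) (nat_lit 42862353) (nat_lit 9295930) [(nat_lit 466387), (nat_lit 0), (nat_lit 3545924), (nat_lit 9072669)]) (PF.cons PF.nil PF.nil))))))) (PF.cons (PF.cons (PF.leaf (nat_lit 6083186) (nat_lit 1538766) (nat_lit 43597660) (nat_lit 9336014) [(nat_lit 0), (nat_lit 1538766), (nat_lit 3526459), (nat_lit 9109911)]) (PF.cons (PF.leaf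 (nat_lit 6354453) (nat_lit 450399) (nat_lit 43175657) (nat_lit 9310894) [(nat_lit 450399), (nat_lit 1551315), (nat_lit 3534157), (nat_lit 9086389)]) (PF.cons (PF.leaf (nat_lit 6636065) (nat_lit 459584) (nat_lit 42742043) (nat_lit 9283479) [(nat_lit 459584), (nat_lit 1562805), (nat_lit 3540689), (nat_lit 9060625)]) (PF.cons (PF.leaf (nat_lit 6925768) (nat_lit 467759) (nat_lit 42299736) (nat_lit 9253870) [(nat_lit 467759), (nat_lit
 1573230), (nat_lit 3545989), (nat_lit 9032708)]) (PF.cons PF.nil PF.nil))))) (PF.cons (PF.cons (PF.leaf (nat_lit 6780193) (nat_lit 1567642) (nat_lit 42172481) (nat_lit 9240527) [(nat_lit 0), (nat_lit 1567642), (nat_lit 3540713), (nat_lit 9019805)]) (PF.cons (PF.leaf (nat_lit 7063697) (nat_lit 468660) (nat_lit 41741144) (nat_lit 9209707) [(nat_lit 468660), (nat_lit 1577043), (nat_lit 3544561), (nat_lit 8990651)]) (PF.cons (PF.leaf (nat_lit 7354841) (nat_lit 475825) (nat_lit 41302669) (nat_lit 9176814) [(nat_lit 475825), (nat_lit 1585487),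 (nat_lit 3547241), (nat_lit 8959461)]) (PF.cons PF.nil PF.nil)))) (PF.cons (PF.cons (PF.leaf (nat_lit 7487441) (nat_lit 1587601) (nat_lit 40758841) (nat_lit 9129640) [(nat_lit 0), (nat_lit 1587601), (nat_lit 3543152), (nat_lit 8914373)]) (PF.cons PF.nil PF.nil)) (PF.cons PF.nil PF.nil))))) (PF.cons (PF.cons (PF.cons (PF.leaf (nat_lit 6596314) (nat_lit 3520614) (nat_lit 41883099) (nat_lit 9202121) [(nat_lit 0), (nat_lit 0), (nat_lit 3520614), (nat_lit 8982362)]) (PF.cons (PF.leaf (nat_lit 6866058) (nat_lit 456254) (nat_lit 41476063) (nat_lit 9172627) [(nat_lit 456254), (nat_lit 0), (nat_lit 3524705), (nat_lit 8954457)]) (PF.cons (PF.leaf (nat_lit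
 7145385) (nat_lit 464596) (nat_lit 41058784) (nat_lit 9140974) [(nat_lit 464596), (nat_lit 0), (nat_lit 3527708), (nat_lit 8924442)]) (PF.cons (PF.leaf (nat_lit 7432101) (nat_lit 471952) (nat_lit 40634026) (nat_lit 9107303) [(nat_lit 471952), (nat_lit 0), (nat_lit 3529588), (nat_lit 8892447)]) (PF.cons PF.nil PF.nil))))) (PF.cons (PF.cons (PF.leaf (nat_lit 7281608) (nat_lit 1571747) (nat_lit 40516624) (nat_lit 9093548) [(nat_lit 0), (nat_lit 1571747), (nat_lit 3523889), (nat_lit 8879114)]) (PF.cons (PF.leaf (nat_lit 7562011) (nat_lit 472102) (nat_lit 40103022) (nat_lit 9059073) [(nat_lit 472102), (nat_lit 1579125), (nat_lit 3524602), (nat_lit 8846284)]) (PF.cons PF.nil (PF.cons PF.nil PF.nil)))) (PF.cons (PF.cons (PF.leaf (nat_lit 7974112) (nat_lit 1585883) (nat_lit 39167426) (nat_lit 8972231) [(nat_lit 0), (nat_lit 1585883), (nat_lit 3517111), (nat_lit 8763164)]) (PF.cons PF.nil PF.nil)) PF.nil))) (PF.cons (PF.cons (PF.cons (PF.leaf (nat_lit 7762993) (nat_lit 3498372)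 (nat_lit 38947822) (nat_lit 8937077) [(nat_lit 0), (nat_lit 0), (nat_lit 3498372), (nat_lit 8728797)]) (PF.cons (PF.leaf (nat_lit 8039733) (nat_lit 473872) (nat_lit 38552378) (nat_lit 8899840) [(nat_lit 473872),
 (nat_lit 0), (nat_lit 3496514), (nat_lit 8693178)]) PF.nil)) (PF.cons PF.nil PF.nil)) (PF.cons PF.nil (PF.cons PF.nil PF.nil)))))) (PF.cons (PF.cons (PF.cons (PF.cons (PF.leaf (nat_lit 6238876) (nat_lit 8778979) (nat_lit 40556815) (nat_lit 8994039) [(nat_lit 0), (nat_lit 0), (nat_lit 0), (nat_lit 8778979)]) (PF.cons (PF.leaf (nat_lit 6482372) (nat_lit 423037) (nat_lit 40207717) (nat_lit 8968435) [(nat_lit 423037), (nat_lit 0), (nat_lit 0), (nat_lit 8754811)]) (PF.cons (PF.leaf (nat_lit 6738635) (nat_lit 433790) (nat_lit 39843726) (nat_lit 8940585) [(nat_lit 433790), (nat_lit 0), (nat_lit 0), (nat_lit 8728460)]) (PF.cons (PF.leaf (nat_lit 7004747) (nat_lit 443155) (nat_lit 39468501) (nat_lit 8910665) [(nat_lit 443155), (nat_lit 0), (nat_lit 0), (nat_lit 8700089)])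 (PF.cons (PF.leaf (nat_lit 7278871) (nat_lit 451385) (nat_lit 39084786) (nat_lit 8878819) [(nat_lit 451385), (nat_lit 0), (nat_lit 0), (nat_lit 8669832)]) (PF.cons (PF.leaf (nat_lit 7559589) (nat_lit 458662) (nat_lit 38694721) (nat_lit 8845172) [(nat_lit 458662), (nat_lit 0), (nat_lit 0), (nat_lit 8637803)]) (PF.cons PF.nil PF.nil))))))) (PF.cons (PF.cons (PF.leaf (nat_lit 6878943) (nat_lit 1509582) (nat_lit 39333149)
 (nat_lit 8895406) [(nat_lit 0), (nat_lit 1509582), (nat_lit 0), (nat_lit 8685337)]) (PF.cons (PF.leaf (nat_lit 7138089) (nat_lit 443725) (nat_lit 38968507) (nat_lit 8864835) [(nat_lit 443725), (nat_lit 1519185), (nat_lit 0), (nat_lit 8656279)]) (PF.cons (PF.leaf (nat_lit 7406541) (nat_lit 451872) (nat_lit 38594364) (nat_lit 8832303) [(nat_lit 451872), (nat_lit 1527790), (nat_lit 0), (nat_lit 8625305)]) (PF.cons (PF.leaf (nat_lit 7682166) (nat_lit 459029) (nat_lit 38213214) (nat_lit 8797968) [(nat_lit 459029), (nat_lit 1535418), (nat_lit 0), (nat_lit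 8592561)]) (PF.cons PF.nil PF.nil))))) (PF.cons (PF.cons (PF.leaf (nat_lit 7535035) (nat_lit 1529572) (nat_lit 38106827) (nat_lit 8784283) [(nat_lit 0), (nat_lit 1529572), (nat_lit 0), (nat_lit 8579278)]) (PF.cons (PF.leaf (nat_lit 7804558) (nat_lit 459004) (nat_lit 37735528) (nat_lit 8749450) [(nat_lit 459004), (nat_lit 1536409), (nat_lit 0), (nat_lit 8546004)]) (PF.cons (PF.leaf (nat_lit 8080912) (nat_lit 465242) (nat_lit 37358460) (nat_lit 8712937) [(nat_lit 465242), (nat_lit 1542382), (nat_lit 0), (nat_lit 8511082)]) (PF.cons PF.nil PF.nil)))) (PF.cons (PF.cons (PF.leaf (nat_lit 8198493) (nat_lit 1542095) (nat_lit 36894016)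
 (nat_lit 8662785) [(nat_lit 0), (nat_lit 1542095), (nat_lit 0), (nat_lit 8462861)]) (PF.cons PF.nil PF.nil)) (PF.cons PF.nil PF.nil))))) (PF.cons (PF.cons (PF.cons (PF.leaf (nat_lit 7346832) (nat_lit 3405880) (nat_lit 37869506) (nat_lit 8747238) [(nat_lit 0), (nat_lit 0), (nat_lit 3405880), (nat_lit 8543093)]) (PF.cons (PF.leaf (nat_lit 7603885) (nat_lit 446978) (nat_lit 37518752) (nat_lit 8714124) [(nat_lit 446978), (nat_lit 0), (nat_lit 3406024), (nat_lit 8511466)]) (PF.cons (PF.leaf (nat_lit 7869651) (nat_lit 454408) (nat_lit 37159526) (nat_lit 8679171) [(nat_lit 454408), (nat_lit 0), (nat_lit 3405214), (nat_lit 8478041)]) (PF.cons (PF.leaf (nat_lit 8142014) (nat_lit 460881) (nat_lit 36794185) (nat_lit 8642559) [(nat_lit 460881), (nat_lit 0), (nat_lit 3403447), (nat_lit 8442988)]) (PF.cons PF.nil PF.nil))))) (PF.cons (PF.cons (PF.leaf (nat_lit 7991314) (nat_lit 1526909) (nat_lit 36696061) (nat_lit 8628933) [(nat_lit 0), (nat_lit 1526909), (nat_lit 3397423), (nat_lit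 8429742)]) (PF.cons (PF.leaf (nat_lit 8257548) (nat_lit 460300) (nat_lit 36340530) (nat_lit 8592086) [(nat_lit 460300), (nat_lit 1532190), (nat_lit 3394858), (nat_lit 8394422)]) (PF.cons PF.nil (PF.cons PF.nil
 PF.nil)))) (PF.cons (PF.cons (PF.leaf (nat_lit 8640996) (nat_lit 1535090) (nat_lit 35539514) (nat_lit 8502089) [(nat_lit 0), (nat_lit 1535090), (nat_lit 3381325), (nat_lit 8307851)]) (PF.cons PF.nil PF.nil)) PF.nil))) (PF.cons (PF.cons (PF.cons (PF.leaf (nat_lit 8430371) (nat_lit 3363624) (nat_lit 35359716) (nat_lit 8469649) [(nat_lit 0), (nat_lit 0), (nat_lit 3363624), (nat_lit 8276099)]) (PF.cons (PF.leaf (nat_lit 8692955) (nat_lit 460389) (nat_lit 35019914) (nat_lit 8431362) [(nat_lit 460389), (nat_lit 0), (nat_lit 3359272), (nat_lit 8239301)]) PF.nil)) (PF.cons PF.nil PF.nil)) (PF.cons PF.nil (PF.cons PF.nil PF.nil))))) (PF.cons (PF.cons (PF.cons (PF.cons (PF.leaf (nat_lit 8011226) (nat_lit 8109686) (nat_lit 34480102) (nat_lit 8299651) [(nat_lit 0), (nat_lit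 0), (nat_lit 0), (nat_lit 8109686)]) (PF.cons (PF.leaf (nat_lit 8256441) (nat_lit 435359) (nat_lit 34176806) (nat_lit 8265609) [(nat_lit 435359), (nat_lit 0), (nat_lit 0), (nat_lit 8077012)]) (PF.cons (PF.leaf (nat_lit 8509677) (nat_lit 442072) (nat_lit 33866348) (nat_lit 8229975) [(nat_lit 442072), (nat_lit 0), (nat_lit 0), (nat_lit 8042781)]) (PF.cons PF.nil PF.nil)))) (PF.cons (PF.cons (PF.leaf (nat_lit 8619616)
 (nat_lit 1476925) (nat_lit 33468209) (nat_lit 8179990) [(nat_lit 0), (nat_lit 1476925), (nat_lit 0), (nat_lit 7994562)]) (PF.cons (PF.leaf (nat_lit 8872947) (nat_lit 446821) (nat_lit 33161110) (nat_lit 8143050) [(nat_lit 446821), (nat_lit 1480777), (nat_lit 0), (nat_lit 7959018)]) PF.nil)) (PF.cons PF.nil PF.nil))) (PF.cons (PF.cons (PF.cons (PF.leaf (nat_lit 9023973) (nat_lit 3226675) (nat_lit 32322872) (nat_lit 8025055) [(nat_lit 0), (nat_lit 0), (nat_lit 3226675), (nat_lit 7844736)]) (PF.cons PF.nil PF.nil)) (PF.cons PF.nil PF.nil)) (PF.cons PF.nil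 PF.nil))) (PF.cons (PF.cons (PF.cons (PF.cons (PF.leaf (nat_lit 9559784) (nat_lit 7441841) (nat_lit 29731112) (nat_lit 7610335) [(nat_lit 0), (nat_lit 0), (nat_lit 0), (nat_lit 7441841)]) (PF.cons PF.nil PF.nil)) (PF.cons PF.nil PF.nil)) (PF.cons PF.nil PF.nil)) (PF.cons PF.nil (PF.cons PF.nil (PF.cons PF.nil PF.nil))))))))

def p13_13_1_0 : pfC (piC [(nat_lit 39120232), (nat_lit 25510466), (nat_lit 18971201), (nat_lit 12765436)] (nat_lit 10729447)) p13_13_1 (nat_lit 4) (nat_lit 0) (nat_lit 1) = true := by decide +kernel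
def p13_13_1_1 : pfC (piC [(nat_lit 39120232), (nat_lit 25510466), (nat_lit 18971201), (nat_lit 12765436)] (nat_lit 10729447)) p13_13_1 (nat_lit 4) (nat_lit 1) (nat_lit 2) = true := by decide +kernel
def p13_13_1_2 : pfC (piC [(nat_lit 39120232), (nat_lit 25510466), (nat_lit 18971201), (nat_lit 12765436)] (nat_lit 10729447)) p13_13_1 (nat_lit 4) (nat_lit 2) (nat_lit 3) = true := by decide +kernel
def p13_13_1_3 : pfC (piC [(nat_lit 39120232), (nat_lit 25510466), (nat_lit 18971201), (nat_lit 12765436)] (nat_lit 10729447)) p13_13_1 (nat_lit 4) (nat_lit 3) (nat_lit 4) = true := by decide +kernel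
def p13_13_1_4 : pfC (piC [(nat_lit 39120232), (nat_lit 25510466), (nat_lit 18971201), (nat_lit 12765436)] (nat_lit 10729447)) p13_13_1 (nat_lit 4) (nat_lit 4) (nat_lit 5) = true := by decide +kernel
def p13_13_1_5 : pfC (piC [(nat_lit 39120232), (nat_lit 25510466), (nat_lit 18971201), (nat_lit 12765436)] (nat_lit 10729447)) p13_13_1 (nat_lit 4) (nat_lit 5) (nat_lit 6) = true := by decide +kernel
def p13_13_1_6 : pfC (piC [(nat_lit 39120232), (nat_lit 25510466), (nat_lit 18971201), (nat_lit 12765436)] (nat_lit 10729447)) p13_13_1 (nat_lit 4) (nat_lit 6) (nat_lit 7) = true := by decide +kernel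
def p13_13_1_7 : pfC (piC [(nat_lit 39120232), (nat_lit 25510466), (nat_lit 18971201), (nat_lit 12765436)] (nat_lit 10729447)) p13_13_1 (nat_lit 4) (nat_lit 7) (nat_lit 8) = true := by decide +kernel
def p13_13_1_8 : pfC (piC [(nat_lit 39120232), (nat_lit 25510466), (nat_lit 18971201), (nat_lit 12765436)] (nat_lit 10729447)) p13_13_1 (nat_lit 4) (nat_lit 8) (nat_lit 9) = true := by decide +kernel
def p13_13_1_9 : pfC (piC [(nat_lit 39120232), (nat_lit 25510466), (nat_lit 18971201), (nat_lit 12765436)] (nat_lit 10729447)) p13_13_1 (nat_lit 4) (nat_lit 9) (nat_lit 10) = true := by decide +kernel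
def p13_13_1_10 : pfC (piC [(nat_lit 39120232), (nat_lit 25510466), (nat_lit 18971201), (nat_lit 12765436)] (nat_lit 10729447)) p13_13_1 (nat_lit 4) (nat_lit 10) (nat_lit 11) = true := by decide +kernel
def p13_13_1_11 : pfC (piC [(nat_lit 39120232), (nat_lit 25510466), (nat_lit 18971201), (nat_lit 12765436)] (nat_lit 10729447)) p13_13_1 (nat_lit 4) (nat_lit 11) (nat_lit 12) = true := by decide +kernel
def p13_13_1_12 : pfC (piC [(nat_lit 39120232), (nat_lit 25510466), (nat_lit 18971201), (nat_lit 12765436)] (nat_lit 10729447)) p13_13_1 (nat_lit 4) (nat_lit 12) (nat_lit 13) = true := by decide +kernel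
def p13_13_1_13 : pfC (piC [(nat_lit 39120232), (nat_lit 25510466), (nat_lit 18971201), (nat_lit 12765436)] (nat_lit 10729447)) p13_13_1 (nat_lit 4) (nat_lit 13) (nat_lit 14) = true := by decide +kernel
def p13_13_1_14 : pfC (piC [(nat_lit 39120232), (nat_lit 25510466), (nat_lit 18971201), (nat_lit 12765436)] (nat_lit 10729447)) p13_13_1 (nat_lit 4) (nat_lit 14) (nat_lit 15) = true := by decide +kernel
def p13_13_1_15 : pfC (piC [(nat_lit 39120232), (nat_lit 25510466), (nat_lit 18971201), (nat_lit 12765436)] (nat_lit 10729447)) p13_13_1 (nat_lit 4) (nat_lit 15) (nat_lit 16) = true := by decide +kernel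
def p13_13_1_16 : pfC (piC [(nat_lit 39120232), (nat_lit 25510466), (nat_lit 18971201), (nat_lit 12765436)] (nat_lit 10729447)) p13_13_1 (nat_lit 4) (nat_lit 16) (nat_lit 17) = true := by decide +kernel
def p13_13_1_17 : pfC (piC [(nat_lit 39120232), (nat_lit 25510466), (nat_lit 18971201), (nat_lit 12765436)] (nat_lit 10729447)) p13_13_1 (nat_lit 4) (nat_lit 17) (nat_lit 18) = true := by decide +kernel
def p13_13_1_18 : pfC (piC [(nat_lit 39120232), (nat_lit 25510466), (nat_lit 18971201), (nat_lit 12765436)] (nat_lit 10729447)) p13_13_1 (nat_lit 4) (nat_lit 18) (nat_lit 19) = true := by decide +kernel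
def p13_13_1_19 : pfC (piC [(nat_lit 39120232), (nat_lit 25510466), (nat_lit 18971201), (nat_lit 12765436)] (nat_lit 10729447)) p13_13_1 (nat_lit 4) (nat_lit 19) (nat_lit 20) = true := by decide +kernel
def p13_13_1_20 : pfC (piC [(nat_lit 39120232), (nat_lit 25510466), (nat_lit 18971201), (nat_lit 12765436)] (nat_lit 10729447)) p13_13_1 (nat_lit 4) (nat_lit 20) (nat_lit 21) = true := by decide +kernel
def p13_13_1_21 : pfC (piC [(nat_lit 39120232), (nat_lit 25510466), (nat_lit 18971201), (nat_lit 12765436)] (nat_lit 10729447)) p13_13_1 (nat_lit 4) (nat_lit 21) (nat_lit 22) = true := by decide +kernel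
def p13_13_1_22 : pfC (piC [(nat_lit 39120232), (nat_lit 25510466), (nat_lit 18971201), (nat_lit 12765436)] (nat_lit 10729447)) p13_13_1 (nat_lit 4) (nat_lit 22) (nat_lit 23) = true := by decide +kernel
def p13_13_1_23 : pfC (piC [(nat_lit 39120232), (nat_lit 25510466), (nat_lit 18971201), (nat_lit 12765436)] (nat_lit 10729447)) p13_13_1 (nat_lit 4) (nat_lit 23) (nat_lit 24) = true := by decide +kernel
def p13_13_1_24 : pfC (piC [(nat_lit 39120232), (nat_lit 25510466), (nat_lit 18971201), (nat_lit 12765436)] (nat_lit 10729447)) p13_13_1 (nat_lit 4) (nat_lit 24) (nat_lit 25) = true := by decide +kernel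
def p13_13_1_25 : pfC (piC [(nat_lit 39120232), (nat_lit 25510466), (nat_lit 18971201), (nat_lit 12765436)] (nat_lit 10729447)) p13_13_1 (nat_lit 4) (nat_lit 25) (nat_lit 26) = true := by decide +kernel
def p13_13_1_26 : pfC (piC [(nat_lit 39120232), (nat_lit 25510466), (nat_lit 18971201), (nat_lit 12765436)] (nat_lit 10729447)) p13_13_1 (nat_lit 4) (nat_lit 26) (nat_lit 27) = true := by decide +kernel
def p13_13_1_27 : pfC (piC [(nat_lit 39120232), (nat_lit 25510466), (nat_lit 18971201), (nat_lit 12765436)] (nat_lit 10729447)) p13_13_1 (nat_lit 4) (nat_lit 27) (nat_lit 28) = true := by decide +kernel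
def p13_13_1_28 : pfC (piC [(nat_lit 39120232), (nat_lit 25510466), (nat_lit 18971201), (nat_lit 12765436)] (nat_lit 10729447)) p13_13_1 (nat_lit 4) (nat_lit 28) (nat_lit 29) = true := by decide +kernel
def p13_13_1_29 : pfC (piC [(nat_lit 39120232), (nat_lit 25510466), (nat_lit 18971201), (nat_lit 12765436)] (nat_lit 10729447)) p13_13_1 (nat_lit 4) (nat_lit 29) (nat_lit 30) = true := by decide +kernel
def p13_13_1_30 : pfC (piC [(nat_lit 39120232), (nat_lit 25510466), (nat_lit 18971201), (nat_lit 12765436)] (nat_lit 10729447)) p13_13_1 (nat_lit 4) (nat_lit 30) (nat_lit 31) = true := by decide +kernel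
def p13_13_1_31 : pfC (piC [(nat_lit 39120232), (nat_lit 25510466), (nat_lit 18971201), (nat_lit 12765436)] (nat_lit 10729447)) p13_13_1 (nat_lit 4) (nat_lit 31) (nat_lit 32) = true := by decide +kernel
def p13_13_1_32 : pfC (piC [(nat_lit 39120232), (nat_lit 25510466), (nat_lit 18971201), (nat_lit 12765436)] (nat_lit 10729447)) p13_13_1 (nat_lit 4) (nat_lit 32) (nat_lit 33) = true := by decide +kernel
def p13_13_1_33 : pfC (piC [(nat_lit 39120232), (nat_lit 25510466), (nat_lit 18971201), (nat_lit 12765436)] (nat_lit 10729447)) p13_13_1 (nat_lit 4) (nat_lit 33) (nat_lit 34) = true := by decide +kernel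
def p13_13_1_34 : pfC (piC [(nat_lit 39120232), (nat_lit 25510466), (nat_lit 18971201), (nat_lit 12765436)] (nat_lit 10729447)) p13_13_1 (nat_lit 4) (nat_lit 34) (nat_lit 35) = true := by decide +kernel
def p13_13_1_35 : pfC (piC [(nat_lit 39120232), (nat_lit 25510466), (nat_lit 18971201), (nat_lit 12765436)] (nat_lit 10729447)) p13_13_1 (nat_lit 4) (nat_lit 35) (nat_lit 36) = true := by decide +kernel
def p13_13_1_36 : pfC (piC [(nat_lit 39120232), (nat_lit 25510466), (nat_lit 18971201), (nat_lit 12765436)] (nat_lit 10729447)) p13_13_1 (nat_lit 4) (nat_lit 36) (nat_lit 37) = true := by decide +kernel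
def p13_13_1_37 : pfC (piC [(nat_lit 39120232), (nat_lit 25510466), (nat_lit 18971201), (nat_lit 12765436)] (nat_lit 10729447)) p13_13_1 (nat_lit 4) (nat_lit 37) (nat_lit 38) = true := by decide +kernel
def p13_13_1_38 : pfC (piC [(nat_lit 39120232), (nat_lit 25510466), (nat_lit 18971201), (nat_lit 12765436)] (nat_lit 10729447)) p13_13_1 (nat_lit 4) (nat_lit 38) (nat_lit 39) = true := by decide +kernel
def p13_13_1_39 : pfC (piC [(nat_lit 39120232), (nat_lit 25510466), (nat_lit 18971201), (nat_lit 12765436)] (nat_lit 10729447)) p13_13_1 (nat_lit 4) (nat_lit 39) (nat_lit 40) = true := by decide +kernel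
def p13_13_1_40 : pfC (piC [(nat_lit 39120232), (nat_lit 25510466), (nat_lit 18971201), (nat_lit 12765436)] (nat_lit 10729447)) p13_13_1 (nat_lit 4) (nat_lit 40) (nat_lit 41) = true := by decide +kernel
def p13_13_1_41 : pfC (piC [(nat_lit 39120232), (nat_lit 25510466), (nat_lit 18971201), (nat_lit 12765436)] (nat_lit 10729447)) p13_13_1 (nat_lit 4) (nat_lit 41) (nat_lit 42) = true := by decide +kernel
def p13_13_1_42 : pfC (piC [(nat_lit 39120232), (nat_lit 25510466), (nat_lit 18971201), (nat_lit 12765436)] (nat_lit 10729447)) p13_13_1 (nat_lit 4) (nat_lit 42) (nat_lit 43) = true := by decide +kernel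
def p13_13_1_43 : pfC (piC [(nat_lit 39120232), (nat_lit 25510466), (nat_lit 18971201), (nat_lit 12765436)] (nat_lit 10729447)) p13_13_1 (nat_lit 4) (nat_lit 43) (nat_lit 44) = true := by decide +kernel
def p13_13_1_44 : pfC (piC [(nat_lit 39120232), (nat_lit 25510466), (nat_lit 18971201), (nat_lit 12765436)] (nat_lit 10729447)) p13_13_1 (nat_lit 4) (nat_lit 44) (nat_lit 45) = true := by decide +kernel
def p13_13_1_45 : pfC (piC [(nat_lit 39120232), (nat_lit 25510466), (nat_lit 18971201), (nat_lit 12765436)] (nat_lit 10729447)) p13_13_1 (nat_lit 4) (nat_lit 45) (nat_lit 46) = true := by decide +kernel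
def p13_13_1_46 : pfC (piC [(nat_lit 39120232), (nat_lit 25510466), (nat_lit 18971201), (nat_lit 12765436)] (nat_lit 10729447)) p13_13_1 (nat_lit 4) (nat_lit 46) (nat_lit 47) = true := by decide +kernel
def p13_13_1_47 : pfC (piC [(nat_lit 39120232), (nat_lit 25510466), (nat_lit 18971201), (nat_lit 12765436)] (nat_lit 10729447)) p13_13_1 (nat_lit 4) (nat_lit 47) (nat_lit 48) = true := by decide +kernel
def p13_13_1_48 : pfC (piC [(nat_lit 39120232), (nat_lit 25510466), (nat_lit 18971201), (nat_lit 12765436)] (nat_lit 10729447)) p13_13_1 (nat_lit 4) (nat_lit 48) (nat_lit 49) = true := by decide +kernel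
def p13_13_1_49 : pfC (piC [(nat_lit 39120232), (nat_lit 25510466), (nat_lit 18971201), (nat_lit 12765436)] (nat_lit 10729447)) p13_13_1 (nat_lit 4) (nat_lit 49) (nat_lit 50) = true := by decide +kernel
def p13_13_1_50 : pfC (piC [(nat_lit 39120232), (nat_lit 25510466), (nat_lit 18971201), (nat_lit 12765436)] (nat_lit 10729447)) p13_13_1 (nat_lit 4) (nat_lit 50) (nat_lit 51) = true := by decide +kernel
def p13_13_1_51 : pfC (piC [(nat_lit 39120232), (nat_lit 25510466), (nat_lit 18971201), (nat_lit 12765436)] (nat_lit 10729447)) p13_13_1 (nat_lit 4) (nat_lit 51) (nat_lit 52) = true := by decide +kernel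
def p13_13_1_52 : pfC (piC [(nat_lit 39120232), (nat_lit 25510466), (nat_lit 18971201), (nat_lit 12765436)] (nat_lit 10729447)) p13_13_1 (nat_lit 4) (nat_lit 52) (nat_lit 53) = true := by decide +kernel
def p13_13_1_53 : pfC (piC [(nat_lit 39120232), (nat_lit 25510466), (nat_lit 18971201), (nat_lit 12765436)] (nat_lit 10729447)) p13_13_1 (nat_lit 4) (nat_lit 53) (nat_lit 54) = true := by decide +kernel
def p13_13_1_54 : pfC (piC [(nat_lit 39120232), (nat_lit 25510466), (nat_lit 18971201), (nat_lit 12765436)] (nat_lit 10729447)) p13_13_1 (nat_lit 4) (nat_lit 54) (nat_lit 55) = true := by decide +kernel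
def p13_13_1_55 : pfC (piC [(nat_lit 39120232), (nat_lit 25510466), (nat_lit 18971201), (nat_lit 12765436)] (nat_lit 10729447)) p13_13_1 (nat_lit 4) (nat_lit 55) (nat_lit 56) = true := by decide +kernel
def p13_13_1_56 : pfC (piC [(nat_lit 39120232), (nat_lit 25510466), (nat_lit 18971201), (nat_lit 12765436)] (nat_lit 10729447)) p13_13_1 (nat_lit 4) (nat_lit 56) (nat_lit 57) = true := by decide +kernel
def p13_13_1_57 : pfC (piC [(nat_lit 39120232), (nat_lit 25510466), (nat_lit 18971201), (nat_lit 12765436)] (nat_lit 10729447)) p13_13_1 (nat_lit 4) (nat_lit 57) (nat_lit 58) = true := by decide +kernel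
def p13_13_1_58 : pfC (piC [(nat_lit 39120232), (nat_lit 25510466), (nat_lit 18971201), (nat_lit 12765436)] (nat_lit 10729447)) p13_13_1 (nat_lit 4) (nat_lit 58) (nat_lit 59) = true := by decide +kernel
def p13_13_1_59 : pfC (piC [(nat_lit 39120232), (nat_lit 25510466), (nat_lit 18971201), (nat_lit 12765436)] (nat_lit 10729447)) p13_13_1 (nat_lit 4) (nat_lit 59) (nat_lit 60) = true := by decide +kernel
def p13_13_1_60 : pfC (piC [(nat_lit 39120232), (nat_lit 25510466), (nat_lit 18971201), (nat_lit 12765436)] (nat_lit 10729447)) p13_13_1 (nat_lit 4) (nat_lit 60) (nat_lit 61) = true := by decide +kernel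
def p13_13_1_61 : pfC (piC [(nat_lit 39120232), (nat_lit 25510466), (nat_lit 18971201), (nat_lit 12765436)] (nat_lit 10729447)) p13_13_1 (nat_lit 4) (nat_lit 61) (nat_lit 62) = true := by decide +kernel
def p13_13_1_62 : pfC (piC [(nat_lit 39120232), (nat_lit 25510466), (nat_lit 18971201), (nat_lit 12765436)] (nat_lit 10729447)) p13_13_1 (nat_lit 4) (nat_lit 62) (nat_lit 63) = true := by decide +kernel
def p13_13_1_63 : pfC (piC [(nat_lit 39120232), (nat_lit 25510466), (nat_lit 18971201), (nat_lit 12765436)] (nat_lit 10729447)) p13_13_1 (nat_lit 4) (nat_lit 63) (nat_lit 64) = true := by decide +kernel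
def p13_13_1_64 : pfC (piC [(nat_lit 39120232), (nat_lit 25510466), (nat_lit 18971201), (nat_lit 12765436)] (nat_lit 10729447)) p13_13_1 (nat_lit 4) (nat_lit 64) (nat_lit 65) = true := by decide +kernel
def p13_13_1_65 : pfC (piC [(nat_lit 39120232), (nat_lit 25510466), (nat_lit 18971201), (nat_lit 12765436)] (nat_lit 10729447)) p13_13_1 (nat_lit 4) (nat_lit 65) (nat_lit 66) = true := by decide +kernel
def p13_13_1_66 : pfC (piC [(nat_lit 39120232), (nat_lit 25510466), (nat_lit 18971201), (nat_lit 12765436)] (nat_lit 10729447)) p13_13_1 (nat_lit 4) (nat_lit 66) (nat_lit 67) = true := by decide +kernel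
def p13_13_1_67 : pfC (piC [(nat_lit 39120232), (nat_lit 25510466), (nat_lit 18971201), (nat_lit 12765436)] (nat_lit 10729447)) p13_13_1 (nat_lit 4) (nat_lit 67) (nat_lit 68) = true := by decide +kernel
def p13_13_1_68 : pfC (piC [(nat_lit 39120232), (nat_lit 25510466), (nat_lit 18971201), (nat_lit 12765436)] (nat_lit 10729447)) p13_13_1 (nat_lit 4) (nat_lit 68) (nat_lit 69) = true := by decide +kernel
def p13_13_1_69 : pfC (piC [(nat_lit 39120232), (nat_lit 25510466), (nat_lit 18971201), (nat_lit 12765436)] (nat_lit 10729447)) p13_13_1 (nat_lit 4) (nat_lit 69) (nat_lit 70) = true := by decide +kernel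
def p13_13_1_70 : pfC (piC [(nat_lit 39120232), (nat_lit 25510466), (nat_lit 18971201), (nat_lit 12765436)] (nat_lit 10729447)) p13_13_1 (nat_lit 4) (nat_lit 70) (nat_lit 71) = true := by decide +kernel
def p13_13_1_71 : pfC (piC [(nat_lit 39120232), (nat_lit 25510466), (nat_lit 18971201), (nat_lit 12765436)] (nat_lit 10729447)) p13_13_1 (nat_lit 4) (nat_lit 71) (nat_lit 72) = true := by decide +kernel
def p13_13_1_72 : pfC (piC [(nat_lit 39120232), (nat_lit 25510466), (nat_lit 18971201), (nat_lit 12765436)] (nat_lit 10729447)) p13_13_1 (nat_lit 4) (nat_lit 72) (nat_lit 73) = true := by decide +kernel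
def p13_13_1_73 : pfC (piC [(nat_lit 39120232), (nat_lit 25510466), (nat_lit 18971201), (nat_lit 12765436)] (nat_lit 10729447)) p13_13_1 (nat_lit 4) (nat_lit 73) (nat_lit 74) = true := by decide +kernel
def p13_13_1_74 : pfC (piC [(nat_lit 39120232), (nat_lit 25510466), (nat_lit 18971201), (nat_lit 12765436)] (nat_lit 10729447)) p13_13_1 (nat_lit 4) (nat_lit 74) (nat_lit 75) = true := by decide +kernel
def p13_13_1_75 : pfC (piC [(nat_lit 39120232), (nat_lit 25510466), (nat_lit 18971201), (nat_lit 12765436)] (nat_lit 10729447)) p13_13_1 (nat_lit 4) (nat_lit 75) (nat_lit 76) = true := by decide +kernel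
def p13_13_1_76 : pfC (piC [(nat_lit 39120232), (nat_lit 25510466), (nat_lit 18971201), (nat_lit 12765436)] (nat_lit 10729447)) p13_13_1 (nat_lit 4) (nat_lit 76) (nat_lit 77) = true := by decide +kernel
def p13_13_1_77 : pfC (piC [(nat_lit 39120232), (nat_lit 25510466), (nat_lit 18971201), (nat_lit 12765436)] (nat_lit 10729447)) p13_13_1 (nat_lit 4) (nat_lit 77) (nat_lit 78) = true := by decide +kernel
def p13_13_1_78 : pfC (piC [(nat_lit 39120232), (nat_lit 25510466), (nat_lit 18971201), (nat_lit 12765436)] (nat_lit 10729447)) p13_13_1 (nat_lit 4) (nat_lit 78) (nat_lit 79) = true := by decide +kernel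
def p13_13_1_79 : pfC (piC [(nat_lit 39120232), (nat_lit 25510466), (nat_lit 18971201), (nat_lit 12765436)] (nat_lit 10729447)) p13_13_1 (nat_lit 4) (nat_lit 79) (nat_lit 80) = true := by decide +kernel
def p13_13_1_80 : pfC (piC [(nat_lit 39120232), (nat_lit 25510466), (nat_lit 18971201), (nat_lit 12765436)] (nat_lit 10729447)) p13_13_1 (nat_lit 4) (nat_lit 80) (nat_lit 81) = true := by decide +kernel
def p13_13_1_81 : pfC (piC [(nat_lit 39120232), (nat_lit 25510466), (nat_lit 18971201), (nat_lit 12765436)] (nat_lit 10729447)) p13_13_1 (nat_lit 4) (nat_lit 81) (nat_lit 82) = true := by decide +kernel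
def p13_13_1_82 : pfC (piC [(nat_lit 39120232), (nat_lit 25510466), (nat_lit 18971201), (nat_lit 12765436)] (nat_lit 10729447)) p13_13_1 (nat_lit 4) (nat_lit 82) (nat_lit 83) = true := by decide +kernel
def p13_13_1_83 : pfC (piC [(nat_lit 39120232), (nat_lit 25510466), (nat_lit 18971201), (nat_lit 12765436)] (nat_lit 10729447)) p13_13_1 (nat_lit 4) (nat_lit 83) (nat_lit 84) = true := by decide +kernel
def p13_13_1_84 : pfC (piC [(nat_lit 39120232), (nat_lit 25510466), (nat_lit 18971201), (nat_lit 12765436)] (nat_lit 10729447)) p13_13_1 (nat_lit 4) (nat_lit 84) (nat_lit 85) = true := by decide +kernel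
def p13_13_1_85 : pfC (piC [(nat_lit 39120232), (nat_lit 25510466), (nat_lit 18971201), (nat_lit 12765436)] (nat_lit 10729447)) p13_13_1 (nat_lit 4) (nat_lit 85) (nat_lit 86) = true := by decide +kernel
def p13_13_1_86 : pfC (piC [(nat_lit 39120232), (nat_lit 25510466), (nat_lit 18971201), (nat_lit 12765436)] (nat_lit 10729447)) p13_13_1 (nat_lit 4) (nat_lit 86) (nat_lit 87) = true := by decide +kernel
def p13_13_1_87 : pfC (piC [(nat_lit 39120232), (nat_lit 25510466), (nat_lit 18971201), (nat_lit 12765436)] (nat_lit 10729447)) p13_13_1 (nat_lit 4) (nat_lit 87) (nat_lit 88) = true := by decide +kernel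
def p13_13_1_88 : pfC (piC [(nat_lit 39120232), (nat_lit 25510466), (nat_lit 18971201), (nat_lit 12765436)] (nat_lit 10729447)) p13_13_1 (nat_lit 4) (nat_lit 88) (nat_lit 89) = true := by decide +kernel
def p13_13_1_89 : pfC (piC [(nat_lit 39120232), (nat_lit 25510466), (nat_lit 18971201), (nat_lit 12765436)] (nat_lit 10729447)) p13_13_1 (nat_lit 4) (nat_lit 89) (nat_lit 90) = true := by decide +kernel
def p13_13_1_90 : pfC (piC [(nat_lit 39120232), (nat_lit 25510466), (nat_lit 18971201), (nat_lit 12765436)] (nat_lit 10729447)) p13_13_1 (nat_lit 4) (nat_lit 90) (nat_lit 91) = true := by decide +kernel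
def p13_13_1_91 : pfC (piC [(nat_lit 39120232), (nat_lit 25510466), (nat_lit 18971201), (nat_lit 12765436)] (nat_lit 10729447)) p13_13_1 (nat_lit 4) (nat_lit 91) (nat_lit 92) = true := by decide +kernel
def p13_13_1_92 : pfC (piC [(nat_lit 39120232), (nat_lit 25510466), (nat_lit 18971201), (nat_lit 12765436)] (nat_lit 10729447)) p13_13_1 (nat_lit 4) (nat_lit 92) (nat_lit 93) = true := by decide +kernel
def p13_13_1_93 : pfC (piC [(nat_lit 39120232), (nat_lit 25510466), (nat_lit 18971201), (nat_lit 12765436)] (nat_lit 10729447)) p13_13_1 (nat_lit 4) (nat_lit 93) (nat_lit 94) = true := by decide +kernel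
def p13_13_1_94 : pfC (piC [(nat_lit 39120232), (nat_lit 25510466), (nat_lit 18971201), (nat_lit 12765436)] (nat_lit 10729447)) p13_13_1 (nat_lit 4) (nat_lit 94) (nat_lit 95) = true := by decide +kernel
def p13_13_1_95 : pfC (piC [(nat_lit 39120232), (nat_lit 25510466), (nat_lit 18971201), (nat_lit 12765436)] (nat_lit 10729447)) p13_13_1 (nat_lit 4) (nat_lit 95) (nat_lit 96) = true := by decide +kernel
def p13_13_1_96 : pfC (piC [(nat_lit 39120232), (nat_lit 25510466), (nat_lit 18971201), (nat_lit 12765436)] (nat_lit 10729447)) p13_13_1 (nat_lit 4) (nat_lit 96) (nat_lit 97) = true := by decide +kernel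
def p13_13_1_97 : pfC (piC [(nat_lit 39120232), (nat_lit 25510466), (nat_lit 18971201), (nat_lit 12765436)] (nat_lit 10729447)) p13_13_1 (nat_lit 4) (nat_lit 97) (nat_lit 98) = true := by decide +kernel
def p13_13_1_98 : pfC (piC [(nat_lit 39120232), (nat_lit 25510466), (nat_lit 18971201), (nat_lit 12765436)] (nat_lit 10729447)) p13_13_1 (nat_lit 4) (nat_lit 98) (nat_lit 99) = true := by decide +kernel
def p13_13_1_99 : pfC (piC [(nat_lit 39120232), (nat_lit 25510466), (nat_lit 18971201), (nat_lit 12765436)] (nat_lit 10729447)) p13_13_1 (nat_lit 4) (nat_lit 99) (nat_lit 100) = true := by decide +kernel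
def p13_13_1_100 : pfC (piC [(nat_lit 39120232), (nat_lit 25510466), (nat_lit 18971201), (nat_lit 12765436)] (nat_lit 10729447)) p13_13_1 (nat_lit 4) (nat_lit 100) (nat_lit 101) = true := by decide +kernel
def p13_13_1_101 : pfC (piC [(nat_lit 39120232), (nat_lit 25510466), (nat_lit 18971201), (nat_lit 12765436)] (nat_lit 10729447)) p13_13_1 (nat_lit 4) (nat_lit 101) (nat_lit 102) = true := by decide +kernel
def p13_13_1_102 : pfC (piC [(nat_lit 39120232), (nat_lit 25510466), (nat_lit 18971201), (nat_lit 12765436)] (nat_lit 10729447)) p13_13_1 (nat_lit 4) (nat_lit 102) (nat_lit 103) = true := by decide +kernel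
def p13_13_1_103 : pfC (piC [(nat_lit 39120232), (nat_lit 25510466), (nat_lit 18971201), (nat_lit 12765436)] (nat_lit 10729447)) p13_13_1 (nat_lit 4) (nat_lit 103) (nat_lit 104) = true := by decide +kernel
def p13_13_1_104 : pfC (piC [(nat_lit 39120232), (nat_lit 25510466), (nat_lit 18971201), (nat_lit 12765436)] (nat_lit 10729447)) p13_13_1 (nat_lit 4) (nat_lit 104) (nat_lit 105) = true := by decide +kernel
def p13_13_1_105 : pfC (piC [(nat_lit 39120232), (nat_lit 25510466), (nat_lit 18971201), (nat_lit 12765436)] (nat_lit 10729447)) p13_13_1 (nat_lit 4) (nat_lit 105) (nat_lit 106) = true := by decide +kernel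
def p13_13_1_106 : pfC (piC [(nat_lit 39120232), (nat_lit 25510466), (nat_lit 18971201), (nat_lit 12765436)] (nat_lit 10729447)) p13_13_1 (nat_lit 4) (nat_lit 106) (nat_lit 107) = true := by decide +kernel
def p13_13_1_107 : pfC (piC [(nat_lit 39120232), (nat_lit 25510466), (nat_lit 18971201), (nat_lit 12765436)] (nat_lit 10729447)) p13_13_1 (nat_lit 4) (nat_lit 107) (nat_lit 108) = true := by decide +kernel
def p13_13_1_108 : pfC (piC [(nat_lit 39120232), (nat_lit 25510466), (nat_lit 18971201), (nat_lit 12765436)] (nat_lit 10729447)) p13_13_1 (nat_lit 4) (nat_lit 108) (nat_lit 109) = true := by decide +kernel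
def p13_13_1_109 : pfC (piC [(nat_lit 39120232), (nat_lit 25510466), (nat_lit 18971201), (nat_lit 12765436)] (nat_lit 10729447)) p13_13_1 (nat_lit 4) (nat_lit 109) (nat_lit 110) = true := by decide +kernel
def p13_13_1_110 : pfC (piC [(nat_lit 39120232), (nat_lit 25510466), (nat_lit 18971201), (nat_lit 12765436)] (nat_lit 10729447)) p13_13_1 (nat_lit 4) (nat_lit 110) (nat_lit 111) = true := by decide +kernel
def p13_13_1_111 : pfC (piC [(nat_lit 39120232), (nat_lit 25510466), (nat_lit 18971201), (nat_lit 12765436)] (nat_lit 10729447)) p13_13_1 (nat_lit 4) (nat_lit 111) (nat_lit 112) = true := by decide +kernel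
def p13_13_1_112 : pfC (piC [(nat_lit 39120232), (nat_lit 25510466), (nat_lit 18971201), (nat_lit 12765436)] (nat_lit 10729447)) p13_13_1 (nat_lit 4) (nat_lit 112) (nat_lit 113) = true := by decide +kernel
def p13_13_1_113 : pfC (piC [(nat_lit 39120232), (nat_lit 25510466), (nat_lit 18971201), (nat_lit 12765436)] (nat_lit 10729447)) p13_13_1 (nat_lit 4) (nat_lit 113) (nat_lit 114) = true := by decide +kernel
def p13_13_1_114 : pfC (piC [(nat_lit 39120232), (nat_lit 25510466), (nat_lit 18971201), (nat_lit 12765436)] (nat_lit 10729447)) p13_13_1 (nat_lit 4) (nat_lit 114) (nat_lit 115) = true := by decide +kernel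
def p13_13_1_115 : pfC (piC [(nat_lit 39120232), (nat_lit 25510466), (nat_lit 18971201), (nat_lit 12765436)] (nat_lit 10729447)) p13_13_1 (nat_lit 4) (nat_lit 115) (nat_lit 116) = true := by decide +kernel
def p13_13_1_116 : pfC (piC [(nat_lit 39120232), (nat_lit 25510466), (nat_lit 18971201), (nat_lit 12765436)] (nat_lit 10729447)) p13_13_1 (nat_lit 4) (nat_lit 116) (nat_lit 117) = true := by decide +kernel
def p13_13_1_117 : pfC (piC [(nat_lit 39120232), (nat_lit 25510466), (nat_lit 18971201), (nat_lit 12765436)] (nat_lit 10729447)) p13_13_1 (nat_lit 4) (nat_lit 117) (nat_lit 118) = true := by decide +kernel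
def p13_13_1_118 : pfC (piC [(nat_lit 39120232), (nat_lit 25510466), (nat_lit 18971201), (nat_lit 12765436)] (nat_lit 10729447)) p13_13_1 (nat_lit 4) (nat_lit 118) (nat_lit 119) = true := by decide +kernel
def p13_13_1_119 : pfC (piC [(nat_lit 39120232), (nat_lit 25510466), (nat_lit 18971201), (nat_lit 12765436)] (nat_lit 10729447)) p13_13_1 (nat_lit 4) (nat_lit 119) (nat_lit 120) = true := by decide +kernel
def p13_13_1_120 : pfC (piC [(nat_lit 39120232), (nat_lit 25510466), (nat_lit 18971201), (nat_lit 12765436)] (nat_lit 10729447)) p13_13_1 (nat_lit 4) (nat_lit 120) (nat_lit 121) = true := by decide +kernel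
def p13_13_1_121 : pfC (piC [(nat_lit 39120232), (nat_lit 25510466), (nat_lit 18971201), (nat_lit 12765436)] (nat_lit 10729447)) p13_13_1 (nat_lit 4) (nat_lit 121) (nat_lit 122) = true := by decide +kernel
def p13_13_1_122 : pfC (piC [(nat_lit 39120232), (nat_lit 25510466), (nat_lit 18971201), (nat_lit 12765436)] (nat_lit 10729447)) p13_13_1 (nat_lit 4) (nat_lit 122) (nat_lit 123) = true := by decide +kernel
def p13_13_1_123 : pfC (piC [(nat_lit 39120232), (nat_lit 25510466), (nat_lit 18971201), (nat_lit 12765436)] (nat_lit 10729447)) p13_13_1 (nat_lit 4) (nat_lit 123) (nat_lit 124) = true := by decide +kernel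
def p13_13_1_124 : pfC (piC [(nat_lit 39120232), (nat_lit 25510466), (nat_lit 18971201), (nat_lit 12765436)] (nat_lit 10729447)) p13_13_1 (nat_lit 4) (nat_lit 124) (nat_lit 125) = true := by decide +kernel
def p13_13_1_125 : pfC (piC [(nat_lit 39120232), (nat_lit 25510466), (nat_lit 18971201), (nat_lit 12765436)] (nat_lit 10729447)) p13_13_1 (nat_lit 4) (nat_lit 125) (nat_lit 126) = true := by decide +kernel
def p13_13_1_126 : pfC (piC [(nat_lit 39120232), (nat_lit 25510466), (nat_lit 18971201), (nat_lit 12765436)] (nat_lit 10729447)) p13_13_1 (nat_lit 4) (nat_lit 126) (nat_lit 127) = true := by decide +kernel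
def p13_13_1_127 : pfC (piC [(nat_lit 39120232), (nat_lit 25510466), (nat_lit 18971201), (nat_lit 12765436)] (nat_lit 10729447)) p13_13_1 (nat_lit 4) (nat_lit 127) (nat_lit 128) = true := by decide +kernel
def p13_13_1_128 : pfC (piC [(nat_lit 39120232), (nat_lit 25510466), (nat_lit 18971201), (nat_lit 12765436)] (nat_lit 10729447)) p13_13_1 (nat_lit 4) (nat_lit 128) (nat_lit 129) = true := by decide +kernel
def p13_13_1_129 : pfC (piC [(nat_lit 39120232), (nat_lit 25510466), (nat_lit 18971201), (nat_lit 12765436)] (nat_lit 10729447)) p13_13_1 (nat_lit 4) (nat_lit 129) (nat_lit 130) = true := by decide +kernel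
def p13_13_1_130 : pfC (piC [(nat_lit 39120232), (nat_lit 25510466), (nat_lit 18971201), (nat_lit 12765436)] (nat_lit 10729447)) p13_13_1 (nat_lit 4) (nat_lit 130) (nat_lit 131) = true := by decide +kernel
def p13_13_1_131 : pfC (piC [(nat_lit 39120232), (nat_lit 25510466), (nat_lit 18971201), (nat_lit 12765436)] (nat_lit 10729447)) p13_13_1 (nat_lit 4) (nat_lit 131) (nat_lit 132) = true := by decide +kernel
def p13_13_1_132 : pfC (piC [(nat_lit 39120232), (nat_lit 25510466), (nat_lit 18971201), (nat_lit 12765436)] (nat_lit 10729447)) p13_13_1 (nat_lit 4) (nat_lit 132) (nat_lit 133) = true := by decide +kernel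
def p13_13_1_133 : pfC (piC [(nat_lit 39120232), (nat_lit 25510466), (nat_lit 18971201), (nat_lit 12765436)] (nat_lit 10729447)) p13_13_1 (nat_lit 4) (nat_lit 133) (nat_lit 134) = true := by decide +kernel
def p13_13_1_134 : pfC (piC [(nat_lit 39120232), (nat_lit 25510466), (nat_lit 18971201), (nat_lit 12765436)] (nat_lit 10729447)) p13_13_1 (nat_lit 4) (nat_lit 134) (nat_lit 135) = true := by decide +kernel
def p13_13_1_135 : pfC (piC [(nat_lit 39120232), (nat_lit 25510466), (nat_lit 18971201), (nat_lit 12765436)] (nat_lit 10729447)) p13_13_1 (nat_lit 4) (nat_lit 135) (nat_lit 136) = true := by decide +kernel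
def p13_13_1_136 : pfC (piC [(nat_lit 39120232), (nat_lit 25510466), (nat_lit 18971201), (nat_lit 12765436)] (nat_lit 10729447)) p13_13_1 (nat_lit 4) (nat_lit 136) (nat_lit 137) = true := by decide +kernel
def p13_13_1_137 : pfC (piC [(nat_lit 39120232), (nat_lit 25510466), (nat_lit 18971201), (nat_lit 12765436)] (nat_lit 10729447)) p13_13_1 (nat_lit 4) (nat_lit 137) (nat_lit 138) = true := by decide +kernel
def p13_13_1_138 : pfC (piC [(nat_lit 39120232), (nat_lit 25510466), (nat_lit 18971201), (nat_lit 12765436)] (nat_lit 10729447)) p13_13_1 (nat_lit 4) (nat_lit 138) (nat_lit 139) = true := by decide +kernel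
def p13_13_1_139 : pfC (piC [(nat_lit 39120232), (nat_lit 25510466), (nat_lit 18971201), (nat_lit 12765436)] (nat_lit 10729447)) p13_13_1 (nat_lit 4) (nat_lit 139) (nat_lit 140) = true := by decide +kernel
def p13_13_1_140 : pfC (piC [(nat_lit 39120232), (nat_lit 25510466), (nat_lit 18971201), (nat_lit 12765436)] (nat_lit 10729447)) p13_13_1 (nat_lit 4) (nat_lit 140) (nat_lit 141) = true := by decide +kernel
def p13_13_1_141 : pfC (piC [(nat_lit 39120232), (nat_lit 25510466), (nat_lit 18971201), (nat_lit 12765436)] (nat_lit 10729447)) p13_13_1 (nat_lit 4) (nat_lit 141) (nat_lit 142) = true := by decide +kernel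
theorem p13_13_1_T : PfS (PiF n13_13.reverse (nat_lit 10729447)) p13_13_1 (nat_lit 4) [] 0 :=
  pftab_of (los := [(nat_lit 39120232), (nat_lit 25510466), (nat_lit 18971201), (nat_lit 12765436)]) (by decide +kernel) (hi := (nat_lit 142)) (PfP.trans (PfP.trans (PfP.trans (PfP.trans (PfP.trans (PfP.trans (PfP.trans (PfP.trans (PfP.trans (PfP.trans (PfP.trans (PfP.trans (PfP.trans (PfP.trans (PfP.trans (PfP.trans (PfP.trans (PfP.trans (PfP.trans (PfP.trans (PfP.trans (PfP.trans (PfP.trans (PfP.trans (PfP.trans (PfP.trans (PfP.trans (PfP.trans (PfP.trans (PfP.trans (PfP.trans (PfP.trans (PfP.trans (PfP.trans (PfP.trans (PfP.trans (PfP.trans (PfP.trans (PfP.trans (PfP.trans (PfP.trans (PfP.trans (PfP.trans (PfP.trans (PfP.trans (PfP.trans (PfP.trans (PfP.trans (PfP.trans (PfP.trans (PfP.trans (PfP.trans (PfP.trans (PfP.trans (PfP.trans (PfP.trans (PfP.trans (PfP.trans (PfP.trans (PfP.trans (PfP.trans (PfP.trans (PfP.trans (PfP.trans (PfP.trans (PfP.trans (PfP.trans (PfP.trans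 (PfP.trans (PfP.trans (PfP.trans (PfP.trans (PfP.trans (PfP.trans (PfP.trans (PfP.trans (PfP.trans (PfP.trans (PfP.trans (PfP.trans (PfP.trans (PfP.trans (PfP.trans (PfP.trans (PfP.trans (PfP.trans (PfP.trans (PfP.trans (PfP.trans (PfP.trans (PfP.trans (PfP.trans (PfP.trans (PfP.trans (PfP.trans (PfP.trans (PfP.trans (PfP.trans (PfP.trans (PfP.trans (PfP.trans (PfP.trans (PfP.trans (PfP.trans (PfP.trans (PfP.trans (PfP.trans (PfP.trans (PfP.trans
 (PfP.trans (PfP.trans (PfP.trans (PfP.trans (PfP.trans (PfP.trans (PfP.trans (PfP.trans (PfP.trans (PfP.trans (PfP.trans (PfP.trans (PfP.trans (PfP.trans (PfP.trans (PfP.trans (PfP.trans (PfP.trans (PfP.trans (PfP.trans (PfP.trans (PfP.trans (PfP.trans (PfP.trans (PfP.trans (PfP.trans (PfP.trans (PfP.trans (PfP.trans (PfP.trans (PfP.trans (PfP.trans (pfC_sound p13_13_1_0) (pfC_sound p13_13_1_1)) (pfC_sound p13_13_1_2)) (pfC_sound p13_13_1_3)) (pfC_sound p13_13_1_4)) (pfC_sound p13_13_1_5)) (pfC_sound p13_13_1_6)) (pfC_sound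 p13_13_1_7)) (pfC_sound p13_13_1_8)) (pfC_sound p13_13_1_9)) (pfC_sound p13_13_1_10)) (pfC_sound p13_13_1_11)) (pfC_sound p13_13_1_12)) (pfC_sound p13_13_1_13)) (pfC_sound p13_13_1_14)) (pfC_sound p13_13_1_15)) (pfC_sound p13_13_1_16)) (pfC_sound p13_13_1_17)) (pfC_sound p13_13_1_18)) (pfC_sound p13_13_1_19)) (pfC_sound p13_13_1_20)) (pfC_sound p13_13_1_21)) (pfC_sound p13_13_1_22)) (pfC_sound p13_13_1_23)) (pfC_sound p13_13_1_24)) (pfC_sound p13_13_1_25)) (pfC_sound p13_13_1_26)) (pfC_sound p13_13_1_27)) (pfC_sound p13_13_1_28)) (pfC_sound p13_13_1_29)) (pfC_sound p13_13_1_30)) (pfC_sound p13_13_1_31)) (pfC_sound p13_13_1_32)) (pfC_sound p13_13_1_33))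
 (pfC_sound p13_13_1_34)) (pfC_sound p13_13_1_35)) (pfC_sound p13_13_1_36)) (pfC_sound p13_13_1_37)) (pfC_sound p13_13_1_38)) (pfC_sound p13_13_1_39)) (pfC_sound p13_13_1_40)) (pfC_sound p13_13_1_41)) (pfC_sound p13_13_1_42)) (pfC_sound p13_13_1_43)) (pfC_sound p13_13_1_44)) (pfC_sound p13_13_1_45)) (pfC_sound p13_13_1_46)) (pfC_sound p13_13_1_47)) (pfC_sound p13_13_1_48)) (pfC_sound p13_13_1_49)) (pfC_sound p13_13_1_50)) (pfC_sound p13_13_1_51)) (pfC_sound p13_13_1_52)) (pfC_sound p13_13_1_53)) (pfC_sound p13_13_1_54)) (pfC_sound p13_13_1_55)) (pfC_sound p13_13_1_56)) (pfC_sound p13_13_1_57)) (pfC_sound p13_13_1_58)) (pfC_sound p13_13_1_59)) (pfC_sound p13_13_1_60)) (pfC_sound p13_13_1_61)) (pfC_sound p13_13_1_62)) (pfC_sound p13_13_1_63)) (pfC_sound p13_13_1_64)) (pfC_sound p13_13_1_65)) (pfC_sound p13_13_1_66)) (pfC_sound p13_13_1_67)) (pfC_sound p13_13_1_68)) (pfC_sound p13_13_1_69)) (pfC_sound p13_13_1_70)) (pfC_sound p13_13_1_71)) (pfC_sound p13_13_1_72)) (pfC_sound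 p13_13_1_73)) (pfC_sound p13_13_1_74)) (pfC_sound p13_13_1_75)) (pfC_sound p13_13_1_76)) (pfC_sound p13_13_1_77)) (pfC_sound p13_13_1_78)) (pfC_sound p13_13_1_79)) (pfC_sound p13_13_1_80)) (pfC_sound p13_13_1_81))
 (pfC_sound p13_13_1_82)) (pfC_sound p13_13_1_83)) (pfC_sound p13_13_1_84)) (pfC_sound p13_13_1_85)) (pfC_sound p13_13_1_86)) (pfC_sound p13_13_1_87)) (pfC_sound p13_13_1_88)) (pfC_sound p13_13_1_89)) (pfC_sound p13_13_1_90)) (pfC_sound p13_13_1_91)) (pfC_sound p13_13_1_92)) (pfC_sound p13_13_1_93)) (pfC_sound p13_13_1_94)) (pfC_sound p13_13_1_95)) (pfC_sound p13_13_1_96)) (pfC_sound p13_13_1_97)) (pfC_sound p13_13_1_98)) (pfC_sound p13_13_1_99)) (pfC_sound p13_13_1_100)) (pfC_sound p13_13_1_101)) (pfC_sound p13_13_1_102)) (pfC_sound p13_13_1_103)) (pfC_sound p13_13_1_104)) (pfC_sound p13_13_1_105)) (pfC_sound p13_13_1_106)) (pfC_sound p13_13_1_107)) (pfC_sound p13_13_1_108)) (pfC_sound p13_13_1_109)) (pfC_sound p13_13_1_110)) (pfC_sound p13_13_1_111))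 (pfC_sound p13_13_1_112)) (pfC_sound p13_13_1_113)) (pfC_sound p13_13_1_114)) (pfC_sound p13_13_1_115)) (pfC_sound p13_13_1_116)) (pfC_sound p13_13_1_117)) (pfC_sound p13_13_1_118)) (pfC_sound p13_13_1_119)) (pfC_sound p13_13_1_120)) (pfC_sound p13_13_1_121)) (pfC_sound p13_13_1_122)) (pfC_sound p13_13_1_123)) (pfC_sound p13_13_1_124)) (pfC_sound p13_13_1_125)) (pfC_sound p13_13_1_126)) (pfC_sound p13_13_1_127)) (pfC_sound
 p13_13_1_128)) (pfC_sound p13_13_1_129)) (pfC_sound p13_13_1_130)) (pfC_sound p13_13_1_131)) (pfC_sound p13_13_1_132)) (pfC_sound p13_13_1_133)) (pfC_sound p13_13_1_134)) (pfC_sound p13_13_1_135)) (pfC_sound p13_13_1_136)) (pfC_sound p13_13_1_137)) (pfC_sound p13_13_1_138)) (pfC_sound p13_13_1_139)) (pfC_sound p13_13_1_140)) (pfC_sound p13_13_1_141)) (by decide +kernel)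

def z13_13_1 : zOK yB13_13 (nat_lit 1) (nat_lit 400) (nat_lit 600) (nat_lit 10729447) (nat_lit 7153929) = true := by decide +kernel
def g13_13_1 : gOK yB13_13.x P13_13 (nat_lit 1417) (q13_13 :: r13_13) (nat_lit 1) (nat_lit 400) (nat_lit 2) (nat_lit 600) (nat_lit 11000000) (nat_lit 17850000) (nat_lit 12712500) (nat_lit 12712500) [(nat_lit 800), (nat_lit 1130)] = true := by decide +kernel
def v13_13_1 : ivC P13_13 s13_13 w13_13 n13_13 (nat_lit 4) (nat_lit 5000) (nat_lit 1) (nat_lit 400) f160_1_400 f168_1_400 (nat_lit 2) (nat_lit 600) f160_1_600 f168_1_600 (nat_lit 10729447) (nat_lit 7153929) p13_13_1 = true := by decide +kernel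
def p13_13_2 : PF := (PF.cons (PF.cons (PF.cons (PF.cons (PF.leaf (nat_lit 2659059) (nat_lit 15026320) (nat_lit 52082492) (nat_lit 15026320) [(nat_lit 0), (nat_lit 0), (nat_lit 0), (nat_lit 0)]) (PF.cons (PF.leaf (nat_lit 2820167) (nat_lit 281311) (nat_lit 51813212) (nat_lit 15014289) [(nat_lit 281311), (nat_lit 0), (nat_lit 0), (nat_lit 0)]) (PF.cons (PF.leaf (nat_lit 3010746) (nat_lit 305685) (nat_lit 51498596) (nat_lit 14998846) [(nat_lit 305685), (nat_lit 0), (nat_lit 0), (nat_lit 0)]) (PF.cons (PF.leaf (nat_lit 3224467) (nat_lit 327235) (nat_lit 51147220) (nat_lit 14979886) [(nat_lit 327235), (nat_lit 0), (nat_lit 0), (nat_lit 0)]) (PF.cons (PF.leaf (nat_lit 3458027) (nat_lit 346586) (nat_lit 50765187) (nat_lit 14957278) [(nat_lit 346586), (nat_lit 0), (nat_lit 0), (nat_lit 0)]) (PF.cons (PF.leaf (nat_lit 3708708) (nat_lit 364140) (nat_lit 50357211) (nat_lit 14930901) [(nat_lit 364140), (nat_lit 0), (nat_lit 0), (nat_lit 0)]) (PF.cons (PF.leaf (nat_lit 3974418)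 (nat_lit 380170) (nat_lit 49927132) (nat_lit 14900660) [(nat_lit 380170), (nat_lit 0), (nat_lit 0), (nat_lit 0)]) (PF.cons (PF.leaf (nat_lit 4253357) (nat_lit 394876) (nat_lit 49478186) (nat_lit 14866491) [(nat_lit 394876), (nat_lit 0),
 (nat_lit 0), (nat_lit 0)]) (PF.cons (PF.leaf (nat_lit 4543951) (nat_lit 408409) (nat_lit 49013165) (nat_lit 14828367) [(nat_lit 408409), (nat_lit 0), (nat_lit 0), (nat_lit 0)]) (PF.cons PF.nil (PF.cons PF.nil (PF.cons PF.nil PF.nil)))))))))))) (PF.cons (PF.cons (PF.leaf (nat_lit 3202159) (nat_lit 1275367) (nat_lit 50873978) (nat_lit 14959466) [(nat_lit 0), (nat_lit 1275367), (nat_lit 0), (nat_lit 0)]) (PF.cons (PF.leaf (nat_lit 3409624) (nat_lit 337537) (nat_lit 50526638) (nat_lit 14937614) [(nat_lit 337537), (nat_lit 1307021), (nat_lit 0), (nat_lit 0)]) (PF.cons (PF.leaf (nat_lit 3639066) (nat_lit 356148) (nat_lit 50146861) (nat_lit 14911849) [(nat_lit 356148), (nat_lit 1337805), (nat_lit 0), (nat_lit 0)]) (PF.cons (PF.leaf (nat_lit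 3886353) (nat_lit 372959) (nat_lit 49740516) (nat_lit 14882165) [(nat_lit 372959), (nat_lit 1367254), (nat_lit 0), (nat_lit 0)]) (PF.cons (PF.leaf (nat_lit 4149008) (nat_lit 388273) (nat_lit 49312028) (nat_lit 14848545) [(nat_lit 388273), (nat_lit 1395143), (nat_lit 0), (nat_lit 0)]) (PF.cons (PF.leaf (nat_lit 4425033) (nat_lit 402301) (nat_lit 48864944) (nat_lit 14810986) [(nat_lit 402301), (nat_lit 1421377), (nat_lit 0), (nat_lit 0)]) (PF.cons
 (PF.leaf (nat_lit 4712748) (nat_lit 415193) (nat_lit 48402220) (nat_lit 14769504) [(nat_lit 415193), (nat_lit 1445926), (nat_lit 0), (nat_lit 0)]) (PF.cons (PF.leaf (nat_lit 5010730) (nat_lit 427069) (nat_lit 47926387) (nat_lit 14724139) [(nat_lit 427069), (nat_lit 1468801), (nat_lit 0), (nat_lit 0)]) (PF.cons PF.nil (PF.cons PF.nil PF.nil)))))))))) (PF.cons (PF.cons (PF.leaf (nat_lit 3823437) (nat_lit 1366649) (nat_lit 49515241) (nat_lit 14860272) [(nat_lit 0), (nat_lit 1366649), (nat_lit 0), (nat_lit 0)]) (PF.cons (PF.leaf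 (nat_lit 4065041) (nat_lit 380495) (nat_lit 49114613) (nat_lit 14827730) [(nat_lit 380495), (nat_lit 1392986), (nat_lit 0), (nat_lit 0)]) (PF.cons (PF.leaf (nat_lit 4323505) (nat_lit 395290) (nat_lit 48690795) (nat_lit 14791124) [(nat_lit 395290), (nat_lit 1418155), (nat_lit 0), (nat_lit 0)]) (PF.cons (PF.leaf (nat_lit 4595766) (nat_lit 408783) (nat_lit 48247992) (nat_lit 14750532) [(nat_lit 408783), (nat_lit 1441968), (nat_lit 0), (nat_lit 0)]) (PF.cons (PF.leaf (nat_lit 4879992) (nat_lit 421148) (nat_lit 47789521) (nat_lit 14706028) [(nat_lit 421148), (nat_lit 1464334), (nat_lit 0), (nat_lit 0)]) (PF.cons (PF.leaf (nat_lit 5174540) (nat_lit 432510) (nat_lit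
 47318116) (nat_lit 14657694) [(nat_lit 432510), (nat_lit 1485223), (nat_lit 0), (nat_lit 0)]) (PF.cons PF.nil (PF.cons PF.nil (PF.cons PF.nil PF.nil))))))))) (PF.cons (PF.cons (PF.leaf (nat_lit 4499498) (nat_lit 1438996) (nat_lit 48063385) (nat_lit 14728437) [(nat_lit 0), (nat_lit 1438996), (nat_lit 0), (nat_lit 0)]) (PF.cons (PF.leaf (nat_lit 4766397) (nat_lit 414358) (nat_lit 47627532) (nat_lit 14685236) [(nat_lit 414358), (nat_lit 1460561), (nat_lit 0), (nat_lit 0)]) (PF.cons (PF.leaf (nat_lit 5046306) (nat_lit 426308) (nat_lit 47175388) (nat_lit 14638087) [(nat_lit 426308), (nat_lit 1480906), (nat_lit 0), (nat_lit 0)]) (PF.cons (PF.leaf (nat_lit 5336858) (nat_lit 437247) (nat_lit 46710071) (nat_lit 14587132) [(nat_lit 437247), (nat_lit 1499955), (nat_lit 0), (nat_lit 0)]) (PF.cons (PF.leaf (nat_lit 5636571) (nat_lit 447284) (nat_lit 46234122) (nat_lit 14532505) [(nat_lit 447284), (nat_lit 1517681), (nat_lit 0), (nat_lit 0)]) (PF.cons PF.nil (PF.cons PF.nil PF.nil)))))))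 (PF.cons (PF.cons (PF.leaf (nat_lit 5212906) (nat_lit 1495809) (nat_lit 46559787) (nat_lit 14565786) [(nat_lit 0), (nat_lit 1495809), (nat_lit 0), (nat_lit 0)]) (PF.cons (PF.leaf (nat_lit 5498229) (nat_lit
 441298) (nat_lit 46102363) (nat_lit 14512595) [(nat_lit 441298), (nat_lit 1513138), (nat_lit 0), (nat_lit 0)]) (PF.cons (PF.leaf (nat_lit 5793558) (nat_lit 450989) (nat_lit 45633912) (nat_lit 14455757) [(nat_lit 450989), (nat_lit 1529290), (nat_lit 0), (nat_lit 0)]) (PF.cons PF.nil (PF.cons PF.nil PF.nil))))) (PF.cons (PF.cons (PF.leaf (nat_lit 5950034) (nat_lit 1539575) (nat_lit 45035423) (nat_lit 14375512) [(nat_lit 0), (nat_lit 1539575), (nat_lit 0), (nat_lit 0)]) (PF.cons (PF.leaf (nat_lit 6248327) (nat_lit 462679) (nat_lit 44566882) (nat_lit 14313401) [(nat_lit 462679), (nat_lit 1553169), (nat_lit 0), (nat_lit 0)]) (PF.cons PF.nil (PF.cons PF.nil PF.nil)))) (PF.cons (PF.cons (PF.leaf (nat_lit 6700090) (nat_lit 1572273) (nat_lit 43513625) (nat_lit 14161543)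 [(nat_lit 0), (nat_lit 1572273), (nat_lit 0), (nat_lit 0)]) (PF.cons PF.nil PF.nil)) (PF.cons PF.nil PF.nil)))))))) (PF.cons (PF.cons (PF.cons (PF.leaf (nat_lit 3749585) (nat_lit 3309371) (nat_lit 49003349) (nat_lit 14796091) [(nat_lit 0), (nat_lit 0), (nat_lit 3309371), (nat_lit 0)]) (PF.cons (PF.leaf (nat_lit 3965920) (nat_lit 360627) (nat_lit 48647420) (nat_lit 14765372) [(nat_lit 360627), (nat_lit 0), (nat_lit 3335392),
 (nat_lit 0)]) (PF.cons (PF.leaf (nat_lit 4203077) (nat_lit 377930) (nat_lit 48261389) (nat_lit 14730298) [(nat_lit 377930), (nat_lit 0), (nat_lit 3361264), (nat_lit 0)]) (PF.cons (PF.leaf (nat_lit 4456822) (nat_lit 393339) (nat_lit 47851370) (nat_lit 14691083) [(nat_lit 393339), (nat_lit 0), (nat_lit 3386339), (nat_lit 0)]) (PF.cons (PF.leaf (nat_lit 4724606) (nat_lit 407217) (nat_lit 47421861) (nat_lit 14647880) [(nat_lit 407217), (nat_lit 0), (nat_lit 3410203), (nat_lit 0)]) (PF.cons (PF.leaf (nat_lit 5004458) (nat_lit 419807) (nat_lit 46976378)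 (nat_lit 14600814) [(nat_lit 419807), (nat_lit 0), (nat_lit 3432584), (nat_lit 0)]) (PF.cons (PF.leaf (nat_lit 5294696) (nat_lit 431283) (nat_lit 46517789) (nat_lit 14550010) [(nat_lit 431283), (nat_lit 0), (nat_lit 3453310), (nat_lit 0)]) (PF.cons PF.nil (PF.cons PF.nil PF.nil))))))))) (PF.cons (PF.cons (PF.leaf (nat_lit 4382317) (nat_lit 1419249) (nat_lit 47635753) (nat_lit 14665318) [(nat_lit 0), (nat_lit 1419249), (nat_lit 3388491), (nat_lit 0)]) (PF.cons (PF.leaf (nat_lit 4629385) (nat_lit 398813) (nat_lit 47234423) (nat_lit 14624007) [(nat_lit 398813), (nat_lit 1441277), (nat_lit 3410290), (nat_lit 0)]) (PF.cons (PF.leaf (nat_lit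
 4892112) (nat_lit 412341) (nat_lit 46812254) (nat_lit 14578563) [(nat_lit 412341), (nat_lit 1462183), (nat_lit 3431128), (nat_lit 0)]) (PF.cons (PF.leaf (nat_lit 5167452) (nat_lit 424545) (nat_lit 46373448) (nat_lit 14529204) [(nat_lit 424545), (nat_lit 1481829), (nat_lit 3450692), (nat_lit 0)]) (PF.cons (PF.leaf (nat_lit 5453566) (nat_lit 435624) (nat_lit 45921256) (nat_lit 14476113) [(nat_lit 435624), (nat_lit 1500159), (nat_lit 3468785), (nat_lit 0)]) (PF.cons (PF.leaf (nat_lit 5748873) (nat_lit 445721) (nat_lit 45458305) (nat_lit 14419458) [(nat_lit 445721), (nat_lit 1517159), (nat_lit 3485283), (nat_lit 0)]) (PF.cons PF.nil PF.nil))))))) (PF.cons (PF.cons (PF.leaf (nat_lit 5061111) (nat_lit 1477771) (nat_lit 46199293) (nat_lit 14504770) [(nat_lit 0), (nat_lit 1477771), (nat_lit 3449206), (nat_lit 0)]) (PF.cons (PF.leaf (nat_lit 5330435) (nat_lit 428508) (nat_lit 45769457) (nat_lit 14453557) [(nat_lit 428508), (nat_lit 1495579), (nat_lit 3466129), (nat_lit 0)])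 (PF.cons (PF.leaf (nat_lit 5611642) (nat_lit 439290) (nat_lit 45325403) (nat_lit 14398559) [(nat_lit 439290), (nat_lit 1512253), (nat_lit 3481761), (nat_lit 0)]) (PF.cons (PF.leaf (nat_lit 5902450) (nat_lit 449069)
 (nat_lit 44870155) (nat_lit 14340004) [(nat_lit 449069), (nat_lit 1527743), (nat_lit 3495957), (nat_lit 0)]) (PF.cons PF.nil PF.nil))))) (PF.cons (PF.cons (PF.leaf (nat_lit 5770107) (nat_lit 1523002) (nat_lit 44729972) (nat_lit 14317423) [(nat_lit 0), (nat_lit 1523002), (nat_lit 3492410), (nat_lit 0)]) (PF.cons (PF.leaf (nat_lit 6055281) (nat_lit 451827) (nat_lit 44283957) (nat_lit 14257344) [(nat_lit 451827), (nat_lit 1537074), (nat_lit 3504458), (nat_lit 0)]) (PF.cons (PF.leaf (nat_lit 6349469) (nat_lit 460468) (nat_lit 43828623) (nat_lit 14193911) [(nat_lit 460468), (nat_lit 1550072), (nat_lit 3515124), (nat_lit 0)]) (PF.cons PF.nil PF.nil)))) (PF.cons (PF.cons (PF.leaf (nat_lit 6497176) (nat_lit 1557024) (nat_lit 43254046) (nat_lit 14106950) [(nat_lit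 0), (nat_lit 1557024), (nat_lit 3519717), (nat_lit 0)]) (PF.cons (PF.leaf (nat_lit 6793194) (nat_lit 470081) (nat_lit 42801042) (nat_lit 14039231) [(nat_lit 470081), (nat_lit 1567816), (nat_lit 3527192), (nat_lit 0)]) PF.nil)) (PF.cons PF.nil PF.nil)))))) (PF.cons (PF.cons (PF.cons (PF.leaf (nat_lit 4928845) (nat_lit 3431537) (nat_lit 45806641) (nat_lit 14439096) [(nat_lit 0), (nat_lit 0), (nat_lit 3431537), (nat_lit 0)])
 (PF.cons (PF.leaf (nat_lit 5179243) (nat_lit 413146) (nat_lit 45409793) (nat_lit 14390579) [(nat_lit 413146), (nat_lit 0), (nat_lit 3447647), (nat_lit 0)]) (PF.cons (PF.leaf (nat_lit 5444226) (nat_lit 425550) (nat_lit 44994183) (nat_lit 14337967) [(nat_lit 425550), (nat_lit 0), (nat_lit 3462780), (nat_lit 0)]) (PF.cons (PF.leaf (nat_lit 5720829) (nat_lit 436622) (nat_lit 44563941) (nat_lit 14281590) [(nat_lit 436622), (nat_lit 0), (nat_lit 3476706), (nat_lit 0)]) (PF.cons (PF.leaf (nat_lit 6007136) (nat_lit 446580) (nat_lit 44122214) (nat_lit 14221714)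 [(nat_lit 446580), (nat_lit 0), (nat_lit 3489280), (nat_lit 0)]) (PF.cons (PF.leaf (nat_lit 6301665) (nat_lit 455580) (nat_lit 43671503) (nat_lit 14158568) [(nat_lit 455580), (nat_lit 0), (nat_lit 3500420), (nat_lit 0)]) (PF.cons PF.nil PF.nil))))))) (PF.cons (PF.cons (PF.leaf (nat_lit 5605889) (nat_lit 1505162) (nat_lit 44400701) (nat_lit 14255677) [(nat_lit 0), (nat_lit 1505162), (nat_lit 3473635), (nat_lit 0)]) (PF.cons (PF.leaf (nat_lit 5875970) (nat_lit 439268) (nat_lit 43980759) (nat_lit 14198129) [(nat_lit 439268), (nat_lit 1519825), (nat_lit 3485415), (nat_lit 0)]) (PF.cons (PF.leaf (nat_lit 6156972) (nat_lit 449024)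
 (nat_lit 43548354) (nat_lit 14137004) [(nat_lit 449024), (nat_lit 1533426), (nat_lit 3495989), (nat_lit 0)]) (PF.cons (PF.leaf (nat_lit 6446661) (nat_lit 457790) (nat_lit 43106390) (nat_lit 14072595) [(nat_lit 457790), (nat_lit 1545939), (nat_lit 3505257), (nat_lit 0)]) (PF.cons PF.nil PF.nil))))) (PF.cons (PF.cons (PF.leaf (nat_lit 6307315) (nat_lit 1540808) (nat_lit 42976202) (nat_lit 14049394) [(nat_lit 0), (nat_lit 1540808), (nat_lit 3500799), (nat_lit 0)]) (PF.cons (PF.leaf (nat_lit 6591082) (nat_lit 459486) (nat_lit 42544300) (nat_lit 13984077) [(nat_lit 459486), (nat_lit 1552149), (nat_lit 3508325), (nat_lit 0)]) (PF.cons (PF.leaf (nat_lit 6883031) (nat_lit 467211) (nat_lit 42104478) (nat_lit 13915702) [(nat_lit 467211), (nat_lit 1562501), (nat_lit 3514602), (nat_lit 0)]) (PF.cons PF.nil PF.nil)))) (PF.cons (PF.cons (PF.leaf (nat_lit 7022250) (nat_lit 1566747) (nat_lit 41555504) (nat_lit 13824082) [(nat_lit 0), (nat_lit 1566747), (nat_lit 3514491), (nat_lit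 0)]) (PF.cons PF.nil PF.nil)) (PF.cons PF.nil PF.nil))))) (PF.cons (PF.cons (PF.cons (PF.leaf (nat_lit 6132774) (nat_lit 3481557) (nat_lit 42676003) (nat_lit 13988135) [(nat_lit 0), (nat_lit 0), (nat_lit 3481557),
 (nat_lit 0)]) (PF.cons (PF.leaf (nat_lit 6402294) (nat_lit 447228) (nat_lit 42268581) (nat_lit 13925739) [(nat_lit 447228), (nat_lit 0), (nat_lit 3489087), (nat_lit 0)]) (PF.cons (PF.leaf (nat_lit 6681925) (nat_lit 456078) (nat_lit 41850184) (nat_lit 13859993) [(nat_lit 456078), (nat_lit 0), (nat_lit 3495492), (nat_lit 0)]) (PF.cons (PF.leaf (nat_lit 6969451) (nat_lit 463956) (nat_lit 41423583) (nat_lit 13791237) [(nat_lit 463956), (nat_lit 0), (nat_lit 3500707), (nat_lit 0)]) (PF.cons PF.nil PF.nil))))) (PF.cons (PF.cons (PF.leaf (nat_lit 6824292) (nat_lit 1551014) (nat_lit 41303045) (nat_lit 13767885) [(nat_lit 0), (nat_lit 1551014), (nat_lit 3495622), (nat_lit 0)]) (PF.cons (PF.leaf (nat_lit 7105697) (nat_lit 464777) (nat_lit 40886954) (nat_lit 13698745)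 [(nat_lit 464777), (nat_lit 1560049), (nat_lit 3499428), (nat_lit 0)]) (PF.cons PF.nil (PF.cons PF.nil PF.nil)))) (PF.cons (PF.cons (PF.leaf (nat_lit 7525677) (nat_lit 1570219) (nat_lit 39941415) (nat_lit 13532236) [(nat_lit 0), (nat_lit 1570219), (nat_lit 3498240), (nat_lit 0)]) (PF.cons PF.nil PF.nil)) PF.nil))) (PF.cons (PF.cons (PF.cons (PF.leaf (nat_lit 7321230) (nat_lit 3479681) (nat_lit 39712133) (nat_lit 13477954)
 [(nat_lit 0), (nat_lit 0), (nat_lit 3479681), (nat_lit 0)]) (PF.cons (PF.leaf (nat_lit 7599557) (nat_lit 468107) (nat_lit 39312811) (nat_lit 13406176) [(nat_lit 468107), (nat_lit 0), (nat_lit 3480429), (nat_lit 0)]) PF.nil)) (PF.cons PF.nil PF.nil)) (PF.cons PF.nil (PF.cons PF.nil (PF.cons PF.nil PF.nil)))))))) (PF.cons (PF.cons (PF.cons (PF.cons (PF.leaf (nat_lit 4684557) (nat_lit 8922036) (nat_lit 44096841) (nat_lit 14089934) [(nat_lit 0), (nat_lit 0), (nat_lit 0), (nat_lit 8922036)]) (PF.cons (PF.leaf (nat_lit 4898384) (nat_lit 370237) (nat_lit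 43777260) (nat_lit 14048481) [(nat_lit 370237), (nat_lit 0), (nat_lit 0), (nat_lit 8912833)]) (PF.cons (PF.leaf (nat_lit 5131507) (nat_lit 386345) (nat_lit 43432113) (nat_lit 14002453) [(nat_lit 386345), (nat_lit 0), (nat_lit 0), (nat_lit 8901554)]) (PF.cons (PF.leaf (nat_lit 5379636) (nat_lit 400421) (nat_lit 43067020) (nat_lit 13952367) [(nat_lit 400421), (nat_lit 0), (nat_lit 0), (nat_lit 8888159)]) (PF.cons (PF.leaf (nat_lit 5640273) (nat_lit 412880) (nat_lit 42686069) (nat_lit 13898597) [(nat_lit 412880), (nat_lit 0), (nat_lit 0), (nat_lit 8872625)]) (PF.cons (PF.leaf (nat_lit 5911379) (nat_lit 424001) (nat_lit 42292413) (nat_lit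
 13841440) [(nat_lit 424001), (nat_lit 0), (nat_lit 0), (nat_lit 8854948)]) (PF.cons (PF.leaf (nat_lit 6191392) (nat_lit 433990) (nat_lit 41888583) (nat_lit 13781146) [(nat_lit 433990), (nat_lit 0), (nat_lit 0), (nat_lit 8835142)]) (PF.cons (PF.leaf (nat_lit 6479018) (nat_lit 442996) (nat_lit 41476665) (nat_lit 13717934) [(nat_lit 442996), (nat_lit 0), (nat_lit 0), (nat_lit 8813239)]) (PF.cons PF.nil PF.nil))))))))) (PF.cons (PF.cons (PF.leaf (nat_lit 5295493) (nat_lit 1429726) (nat_lit 42880941) (nat_lit 13922505) [(nat_lit 0), (nat_lit 1429726), (nat_lit 0), (nat_lit 8875639)]) (PF.cons (PF.leaf (nat_lit 5536242) (nat_lit 403893) (nat_lit 42525368) (nat_lit 13871689) [(nat_lit 403893), (nat_lit 1447305), (nat_lit 0), (nat_lit 8860555)]) (PF.cons (PF.leaf (nat_lit 5791123) (nat_lit 416096) (nat_lit 42152601) (nat_lit 13817007) [(nat_lit 416096), (nat_lit 1463699), (nat_lit 0), (nat_lit 8843311)]) (PF.cons (PF.leaf (nat_lit 6057215) (nat_lit 426926) (nat_lit 41766396)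 (nat_lit 13758854) [(nat_lit 426926), (nat_lit 1478843), (nat_lit 0), (nat_lit 8823939)]) (PF.cons (PF.leaf (nat_lit 6332648) (nat_lit 436610) (nat_lit 41369619) (nat_lit 13697539) [(nat_lit 436610), (nat_lit
 1492732), (nat_lit 0), (nat_lit 8802477)]) (PF.cons (PF.leaf (nat_lit 6615962) (nat_lit 445313) (nat_lit 40964556) (nat_lit 13633323) [(nat_lit 445313), (nat_lit 1505392), (nat_lit 0), (nat_lit 8778972)]) (PF.cons PF.nil PF.nil))))))) (PF.cons (PF.cons (PF.leaf (nat_lit 5943502) (nat_lit 1473523) (nat_lit 41618029) (nat_lit 13732452) [(nat_lit 0), (nat_lit 1473523), (nat_lit 0), (nat_lit 8811285)]) (PF.cons (PF.leaf (nat_lit 6203137) (nat_lit 429195) (nat_lit 41241058) (nat_lit 13673704) [(nat_lit 429195), (nat_lit 1487196), (nat_lit 0), (nat_lit 8790461)]) (PF.cons (PF.leaf (nat_lit 6473338) (nat_lit 438673) (nat_lit 40852653) (nat_lit 13611700) [(nat_lit 438673), (nat_lit 1499777), (nat_lit 0), (nat_lit 8767557)]) (PF.cons (PF.leaf (nat_lit 6751898) (nat_lit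 447146) (nat_lit 40455450) (nat_lit 13546760) [(nat_lit 447146), (nat_lit 1511259), (nat_lit 0), (nat_lit 8742645)]) (PF.cons (PF.leaf (nat_lit 7037438) (nat_lit 454753) (nat_lit 40051527) (nat_lit 13479151) [(nat_lit 454753), (nat_lit 1521660), (nat_lit 0), (nat_lit 8715798)]) PF.nil))))) (PF.cons (PF.cons (PF.leaf (nat_lit 6614637) (nat_lit 1505815) (nat_lit 40337281) (nat_lit 13523635) [(nat_lit 0), (nat_lit 1505815),
 (nat_lit 0), (nat_lit 8730449)]) (PF.cons (PF.leaf (nat_lit 6887372) (nat_lit 448493) (nat_lit 39949098) (nat_lit 13458287) [(nat_lit 448493), (nat_lit 1516198), (nat_lit 0), (nat_lit 8704339)]) (PF.cons (PF.leaf (nat_lit 7168038) (nat_lit 455925) (nat_lit 39553604) (nat_lit 13390227) [(nat_lit 455925), (nat_lit 1525602), (nat_lit 0), (nat_lit 8676320)]) (PF.cons PF.nil PF.nil)))) (PF.cons (PF.cons (PF.leaf (nat_lit 7298673) (nat_lit 1528752) (nat_lit 39058998) (nat_lit 13299689) [(nat_lit 0), (nat_lit 1528752), (nat_lit 0), (nat_lit 8635114)])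 (PF.cons (PF.leaf (nat_lit 7580154) (nat_lit 463196) (nat_lit 38666918) (nat_lit 13228986) [(nat_lit 463196), (nat_lit 1536345), (nat_lit 0), (nat_lit 8604329)]) PF.nil)) (PF.cons PF.nil PF.nil)))))) (PF.cons (PF.cons (PF.cons (PF.leaf (nat_lit 5797749) (nat_lit 3377279) (nat_lit 41292008) (nat_lit 13666076) [(nat_lit 0), (nat_lit 0), (nat_lit 3377279), (nat_lit 8773448)]) (PF.cons (PF.leaf (nat_lit 6039932) (nat_lit 413728) (nat_lit 40943767) (nat_lit 13611065) [(nat_lit 413728), (nat_lit 0), (nat_lit 3386503), (nat_lit 8753747)]) (PF.cons (PF.leaf (nat_lit 6295375) (nat_lit 424928) (nat_lit 40579987) (nat_lit 13552316) [(nat_lit 424928),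
 (nat_lit 0), (nat_lit 3394758), (nat_lit 8731894)]) (PF.cons (PF.leaf (nat_lit 6561163) (nat_lit 434774) (nat_lit 40204302) (nat_lit 13490284) [(nat_lit 434774), (nat_lit 0), (nat_lit 3401910), (nat_lit 8707992)]) (PF.cons (PF.leaf (nat_lit 6835467) (nat_lit 443505) (nat_lit 39819452) (nat_lit 13425321) [(nat_lit 443505), (nat_lit 0), (nat_lit 3407887), (nat_lit 8682129)]) (PF.cons (PF.leaf (nat_lit 7116874) (nat_lit 451291) (nat_lit 39427591) (nat_lit 13357718) [(nat_lit 451291), (nat_lit 0), (nat_lit 3412655), (nat_lit 8654390)]) (PF.cons PF.nil PF.nil))))))) (PF.cons (PF.cons (PF.leaf (nat_lit 6440828) (nat_lit 1487708) (nat_lit 40065975) (nat_lit 13463650) [(nat_lit 0), (nat_lit 1487708), (nat_lit 3397090), (nat_lit 8694387)]) (PF.cons (PF.leaf (nat_lit 6699904) (nat_lit 436043) (nat_lit 39700195) (nat_lit 13401491) [(nat_lit 436043), (nat_lit 1498916), (nat_lit 3402713), (nat_lit 8669452)]) (PF.cons (PF.leaf (nat_lit 6968763) (nat_lit 444649) (nat_lit 39324295)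 (nat_lit 13336281) [(nat_lit 444649), (nat_lit 1509115), (nat_lit 3407273), (nat_lit 8642547)]) (PF.cons (PF.leaf (nat_lit 7245252) (nat_lit 452278) (nat_lit 38940782) (nat_lit 13268377) [(nat_lit 452278), (nat_lit
 1518312), (nat_lit 3410722), (nat_lit 8613782)]) (PF.cons PF.nil PF.nil))))) (PF.cons (PF.cons (PF.leaf (nat_lit 7102815) (nat_lit 1512735) (nat_lit 38831387) (nat_lit 13245465) [(nat_lit 0), (nat_lit 1512735), (nat_lit 3405318), (nat_lit 8601169)]) (PF.cons (PF.leaf (nat_lit 7373355) (nat_lit 452840) (nat_lit 38457235) (nat_lit 13177553) [(nat_lit 452840), (nat_lit 1521028), (nat_lit 3407553), (nat_lit 8571573)]) (PF.cons (PF.leaf (nat_lit 7651163) (nat_lit 459520) (nat_lit 38076772) (nat_lit 13107170) [(nat_lit 459520), (nat_lit 1528427), (nat_lit 3408745), (nat_lit 8540227)]) (PF.cons PF.nil PF.nil)))) (PF.cons (PF.cons (PF.leaf (nat_lit 7774484) (nat_lit 1529670) (nat_lit 37605579) (nat_lit 13015044) [(nat_lit 0), (nat_lit 1529670), (nat_lit 3403371),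 (nat_lit 8495807)]) (PF.cons PF.nil PF.nil)) (PF.cons PF.nil PF.nil))))) (PF.cons (PF.cons (PF.cons (PF.leaf (nat_lit 6921614) (nat_lit 3385707) (nat_lit 38584331) (nat_lit 13187534) [(nat_lit 0), (nat_lit 0), (nat_lit 3385707), (nat_lit 8565530)]) (PF.cons (PF.leaf (nat_lit 7179240) (nat_lit 440834) (nat_lit 38231059) (nat_lit 13122943) [(nat_lit 440834), (nat_lit 0), (nat_lit 3388317), (nat_lit 8537339)]) (PF.cons (PF.leaf
 (nat_lit 7446005) (nat_lit 448673) (nat_lit 37868783) (nat_lit 13055509) [(nat_lit 448673), (nat_lit 0), (nat_lit 3389940), (nat_lit 8507291)]) (PF.cons (PF.leaf (nat_lit 7719767) (nat_lit 455562) (nat_lit 37499879) (nat_lit 12985607) [(nat_lit 455562), (nat_lit 0), (nat_lit 3390553), (nat_lit 8475529)]) (PF.cons PF.nil PF.nil))))) (PF.cons (PF.cons (PF.leaf (nat_lit 7573088) (nat_lit 1514389) (nat_lit 37398753) (nat_lit 12963149) [(nat_lit 0), (nat_lit 1514389), (nat_lit 3384882), (nat_lit 8462754)]) (PF.cons (PF.leaf (nat_lit 7840824) (nat_lit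 455478) (nat_lit 37039328) (nat_lit 12893569) [(nat_lit 455478), (nat_lit 1520919), (nat_lit 3384524), (nat_lit 8430468)]) (PF.cons PF.nil (PF.cons PF.nil PF.nil)))) (PF.cons (PF.cons (PF.leaf (nat_lit 8231663) (nat_lit 1526322) (nat_lit 36226453) (nat_lit 12729025) [(nat_lit 0), (nat_lit 1526322), (nat_lit 3375402), (nat_lit 8349882)]) (PF.cons PF.nil PF.nil)) PF.nil))) (PF.cons (PF.cons (PF.cons (PF.leaf (nat_lit 8025921) (nat_lit 3357592) (nat_lit 36038428) (nat_lit 12679634) [(nat_lit 0), (nat_lit 0), (nat_lit 3357592), (nat_lit 8317971)]) (PF.cons (PF.leaf (nat_lit 8290378) (nat_lit 456704) (nat_lit 35694004) (nat_lit 12609127)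
 [(nat_lit 456704), (nat_lit 0), (nat_lit 3355105), (nat_lit 8283661)]) PF.nil)) (PF.cons PF.nil PF.nil)) (PF.cons PF.nil (PF.cons PF.nil PF.nil)))))) (PF.cons (PF.cons (PF.cons (PF.cons (PF.leaf (nat_lit 6566235) (nat_lit 8377445) (nat_lit 37458005) (nat_lit 12895917) [(nat_lit 0), (nat_lit 0), (nat_lit 0), (nat_lit 8377445)]) (PF.cons (PF.leaf (nat_lit 6799501) (nat_lit 409066) (nat_lit 37153809) (nat_lit 12839395) [(nat_lit 409066), (nat_lit 0), (nat_lit 0), (nat_lit 8353271)]) (PF.cons (PF.leaf (nat_lit 7045012) (nat_lit 419278) (nat_lit 36836548) (nat_lit 12779495) [(nat_lit 419278), (nat_lit 0), (nat_lit 0), (nat_lit 8327106)]) (PF.cons (PF.leaf (nat_lit 7299839) (nat_lit 428146) (nat_lit 36509390) (nat_lit 12716725) [(nat_lit 428146), (nat_lit 0), (nat_lit 0), (nat_lit 8299128)]) (PF.cons (PF.leaf (nat_lit 7562291) (nat_lit 435920) (nat_lit 36174706) (nat_lit 12651466) [(nat_lit 435920), (nat_lit 0), (nat_lit 0), (nat_lit 8269479)]) (PF.cons PF.nil (PF.cons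 PF.nil PF.nil))))))) (PF.cons (PF.cons (PF.leaf (nat_lit 7176880) (nat_lit 1455675) (nat_lit 36392162) (nat_lit 12691011) [(nat_lit 0), (nat_lit 1455675), (nat_lit 0), (nat_lit 8284981)]) (PF.cons (PF.leaf (nat_lit
 7425007) (nat_lit 428489) (nat_lit 36074053) (nat_lit 12628697) [(nat_lit 428489), (nat_lit 1464444), (nat_lit 0), (nat_lit 8256563)]) (PF.cons (PF.leaf (nat_lit 7682051) (nat_lit 436197) (nat_lit 35747523) (nat_lit 12563754) [(nat_lit 436197), (nat_lit 1472267), (nat_lit 0), (nat_lit 8226436)]) (PF.cons (PF.leaf (nat_lit 7945925) (nat_lit 442954) (nat_lit 35414728) (nat_lit 12496551) [(nat_lit 442954), (nat_lit 1479168), (nat_lit 0), (nat_lit 8194749)]) (PF.cons PF.nil PF.nil))))) (PF.cons (PF.cons (PF.leaf (nat_lit 7802811) (nat_lit 1473466) (nat_lit 35322557) (nat_lit 12474933) [(nat_lit 0), (nat_lit 1473466), (nat_lit 0), (nat_lit 8182194)]) (PF.cons (PF.leaf (nat_lit 8060841) (nat_lit 442772) (nat_lit 34998143) (nat_lit 12408213) [(nat_lit 442772),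 (nat_lit 1479659), (nat_lit 0), (nat_lit 8150182)]) (PF.cons PF.nil (PF.cons PF.nil PF.nil)))) (PF.cons (PF.cons (PF.leaf (nat_lit 8436029) (nat_lit 1484403) (nat_lit 34262943) (nat_lit 12250810) [(nat_lit 0), (nat_lit 1484403), (nat_lit 0), (nat_lit 8070924)]) (PF.cons PF.nil PF.nil)) (PF.cons PF.nil PF.nil))))) (PF.cons (PF.cons (PF.cons (PF.leaf (nat_lit 7618954) (nat_lit 3271616) (nat_lit 35118207) (nat_lit 12421973) [(nat_lit
 0), (nat_lit 0), (nat_lit 3271616), (nat_lit 8148507)]) (PF.cons (PF.leaf (nat_lit 7865196) (nat_lit 431204) (nat_lit 34811551) (nat_lit 12358620) [(nat_lit 431204), (nat_lit 0), (nat_lit 3271164), (nat_lit 8118135)]) (PF.cons (PF.leaf (nat_lit 8119825) (nat_lit 438254) (nat_lit 34497333) (nat_lit 12292816) [(nat_lit 438254), (nat_lit 0), (nat_lit 3269839), (nat_lit 8086157)]) (PF.cons PF.nil PF.nil)))) (PF.cons (PF.cons (PF.leaf (nat_lit 8234502) (nat_lit 1469907) (nat_lit 34092362) (nat_lit 12204041) [(nat_lit 0), (nat_lit 1469907),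 (nat_lit 3261835), (nat_lit 8040332)]) (PF.cons (PF.leaf (nat_lit 8489586) (nat_lit 443716) (nat_lit 33780967) (nat_lit 12136857) [(nat_lit 443716), (nat_lit 1474719), (nat_lit 3258961), (nat_lit 8006795)]) PF.nil)) (PF.cons PF.nil PF.nil))) (PF.cons (PF.cons (PF.cons (PF.leaf (nat_lit 8651017) (nat_lit 3228688) (nat_lit 32923927) (nat_lit 11935642) [(nat_lit 0), (nat_lit 0), (nat_lit 3228688), (nat_lit 7895932)]) (PF.cons PF.nil PF.nil)) (PF.cons PF.nil PF.nil)) (PF.cons PF.nil (PF.cons PF.nil PF.nil))))) (PF.cons (PF.cons (PF.cons (PF.cons (PF.leaf (nat_lit 8243964) (nat_lit 7744732) (nat_lit 32165555) (nat_lit 11709060) [(nat_lit 0), (nat_lit 0),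
 (nat_lit 0), (nat_lit 7744732)]) (PF.cons (PF.leaf (nat_lit 8479549) (nat_lit 419933) (nat_lit 31898285) (nat_lit 11648596) [(nat_lit 419933), (nat_lit 0), (nat_lit 0), (nat_lit 7713999)]) (PF.cons (PF.leaf (nat_lit 8722928) (nat_lit 426350) (nat_lit 31624547) (nat_lit 11585991) [(nat_lit 426350), (nat_lit 0), (nat_lit 0), (nat_lit 7681857)]) (PF.cons PF.nil PF.nil)))) (PF.cons (PF.cons (PF.leaf (nat_lit 8827418) (nat_lit 1422198) (nat_lit 31273797) (nat_lit 11502481) [(nat_lit 0), (nat_lit 1422198), (nat_lit 0), (nat_lit 7636778)]) (PF.cons PF.nil PF.nil)) (PF.cons PF.nil PF.nil))) (PF.cons (PF.cons (PF.cons (PF.leaf (nat_lit 9213627) (nat_lit 3100114) (nat_lit 30263939) (nat_lit 11252530) [(nat_lit 0), (nat_lit 0), (nat_lit 3100114), (nat_lit 7497409)]) (PF.cons PF.nil PF.nil)) (PF.cons PF.nil PF.nil)) (PF.cons PF.nil PF.nil))) (PF.cons (PF.cons (PF.cons (PF.cons (PF.leaf (nat_lit 9726195) (nat_lit 7126275) (nat_lit 27974112) (nat_lit 10629597) [(nat_lit 0), (nat_lit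 0), (nat_lit 0), (nat_lit 7126275)]) (PF.cons PF.nil PF.nil)) (PF.cons PF.nil PF.nil)) (PF.cons PF.nil PF.nil)) (PF.cons PF.nil (PF.cons PF.nil (PF.cons PF.nil PF.nil))))))))

def p13_13_2_0 : pfC (piC [(nat_lit 39120232), (nat_lit 25510466), (nat_lit 18971201), (nat_lit 12765436)] (nat_lit 7153929)) p13_13_2 (nat_lit 4) (nat_lit 0) (nat_lit 1) = true := by decide +kernel
def p13_13_2_1 : pfC (piC [(nat_lit 39120232), (nat_lit 25510466), (nat_lit 18971201), (nat_lit 12765436)] (nat_lit 7153929)) p13_13_2 (nat_lit 4) (nat_lit 1) (nat_lit 2) = true := by decide +kernel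
def p13_13_2_2 : pfC (piC [(nat_lit 39120232), (nat_lit 25510466), (nat_lit 18971201), (nat_lit 12765436)] (nat_lit 7153929)) p13_13_2 (nat_lit 4) (nat_lit 2) (nat_lit 3) = true := by decide +kernel
def p13_13_2_3 : pfC (piC [(nat_lit 39120232), (nat_lit 25510466), (nat_lit 18971201), (nat_lit 12765436)] (nat_lit 7153929)) p13_13_2 (nat_lit 4) (nat_lit 3) (nat_lit 4) = true := by decide +kernel
def p13_13_2_4 : pfC (piC [(nat_lit 39120232), (nat_lit 25510466), (nat_lit 18971201), (nat_lit 12765436)] (nat_lit 7153929)) p13_13_2 (nat_lit 4) (nat_lit 4) (nat_lit 5) = true := by decide +kernel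
def p13_13_2_5 : pfC (piC [(nat_lit 39120232), (nat_lit 25510466), (nat_lit 18971201), (nat_lit 12765436)] (nat_lit 7153929)) p13_13_2 (nat_lit 4) (nat_lit 5) (nat_lit 6) = true := by decide +kernel
def p13_13_2_6 : pfC (piC [(nat_lit 39120232), (nat_lit 25510466), (nat_lit 18971201), (nat_lit 12765436)] (nat_lit 7153929)) p13_13_2 (nat_lit 4) (nat_lit 6) (nat_lit 7) = true := by decide +kernel
def p13_13_2_7 : pfC (piC [(nat_lit 39120232), (nat_lit 25510466), (nat_lit 18971201), (nat_lit 12765436)] (nat_lit 7153929)) p13_13_2 (nat_lit 4) (nat_lit 7) (nat_lit 8) = true := by decide +kernel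
def p13_13_2_8 : pfC (piC [(nat_lit 39120232), (nat_lit 25510466), (nat_lit 18971201), (nat_lit 12765436)] (nat_lit 7153929)) p13_13_2 (nat_lit 4) (nat_lit 8) (nat_lit 9) = true := by decide +kernel
def p13_13_2_9 : pfC (piC [(nat_lit 39120232), (nat_lit 25510466), (nat_lit 18971201), (nat_lit 12765436)] (nat_lit 7153929)) p13_13_2 (nat_lit 4) (nat_lit 9) (nat_lit 10) = true := by decide +kernel
def p13_13_2_10 : pfC (piC [(nat_lit 39120232), (nat_lit 25510466), (nat_lit 18971201), (nat_lit 12765436)] (nat_lit 7153929)) p13_13_2 (nat_lit 4) (nat_lit 10) (nat_lit 11) = true := by decide +kernel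
def p13_13_2_11 : pfC (piC [(nat_lit 39120232), (nat_lit 25510466), (nat_lit 18971201), (nat_lit 12765436)] (nat_lit 7153929)) p13_13_2 (nat_lit 4) (nat_lit 11) (nat_lit 12) = true := by decide +kernel
def p13_13_2_12 : pfC (piC [(nat_lit 39120232), (nat_lit 25510466), (nat_lit 18971201), (nat_lit 12765436)] (nat_lit 7153929)) p13_13_2 (nat_lit 4) (nat_lit 12) (nat_lit 13) = true := by decide +kernel
def p13_13_2_13 : pfC (piC [(nat_lit 39120232), (nat_lit 25510466), (nat_lit 18971201), (nat_lit 12765436)] (nat_lit 7153929)) p13_13_2 (nat_lit 4) (nat_lit 13) (nat_lit 14) = true := by decide +kernel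
def p13_13_2_14 : pfC (piC [(nat_lit 39120232), (nat_lit 25510466), (nat_lit 18971201), (nat_lit 12765436)] (nat_lit 7153929)) p13_13_2 (nat_lit 4) (nat_lit 14) (nat_lit 15) = true := by decide +kernel
def p13_13_2_15 : pfC (piC [(nat_lit 39120232), (nat_lit 25510466), (nat_lit 18971201), (nat_lit 12765436)] (nat_lit 7153929)) p13_13_2 (nat_lit 4) (nat_lit 15) (nat_lit 16) = true := by decide +kernel
def p13_13_2_16 : pfC (piC [(nat_lit 39120232), (nat_lit 25510466), (nat_lit 18971201), (nat_lit 12765436)] (nat_lit 7153929)) p13_13_2 (nat_lit 4) (nat_lit 16) (nat_lit 17) = true := by decide +kernel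
def p13_13_2_17 : pfC (piC [(nat_lit 39120232), (nat_lit 25510466), (nat_lit 18971201), (nat_lit 12765436)] (nat_lit 7153929)) p13_13_2 (nat_lit 4) (nat_lit 17) (nat_lit 18) = true := by decide +kernel
def p13_13_2_18 : pfC (piC [(nat_lit 39120232), (nat_lit 25510466), (nat_lit 18971201), (nat_lit 12765436)] (nat_lit 7153929)) p13_13_2 (nat_lit 4) (nat_lit 18) (nat_lit 19) = true := by decide +kernel
def p13_13_2_19 : pfC (piC [(nat_lit 39120232), (nat_lit 25510466), (nat_lit 18971201), (nat_lit 12765436)] (nat_lit 7153929)) p13_13_2 (nat_lit 4) (nat_lit 19) (nat_lit 20) = true := by decide +kernel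
def p13_13_2_20 : pfC (piC [(nat_lit 39120232), (nat_lit 25510466), (nat_lit 18971201), (nat_lit 12765436)] (nat_lit 7153929)) p13_13_2 (nat_lit 4) (nat_lit 20) (nat_lit 21) = true := by decide +kernel
def p13_13_2_21 : pfC (piC [(nat_lit 39120232), (nat_lit 25510466), (nat_lit 18971201), (nat_lit 12765436)] (nat_lit 7153929)) p13_13_2 (nat_lit 4) (nat_lit 21) (nat_lit 22) = true := by decide +kernel
def p13_13_2_22 : pfC (piC [(nat_lit 39120232), (nat_lit 25510466), (nat_lit 18971201), (nat_lit 12765436)] (nat_lit 7153929)) p13_13_2 (nat_lit 4) (nat_lit 22) (nat_lit 23) = true := by decide +kernel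
def p13_13_2_23 : pfC (piC [(nat_lit 39120232), (nat_lit 25510466), (nat_lit 18971201), (nat_lit 12765436)] (nat_lit 7153929)) p13_13_2 (nat_lit 4) (nat_lit 23) (nat_lit 24) = true := by decide +kernel
def p13_13_2_24 : pfC (piC [(nat_lit 39120232), (nat_lit 25510466), (nat_lit 18971201), (nat_lit 12765436)] (nat_lit 7153929)) p13_13_2 (nat_lit 4) (nat_lit 24) (nat_lit 25) = true := by decide +kernel
def p13_13_2_25 : pfC (piC [(nat_lit 39120232), (nat_lit 25510466), (nat_lit 18971201), (nat_lit 12765436)] (nat_lit 7153929)) p13_13_2 (nat_lit 4) (nat_lit 25) (nat_lit 26) = true := by decide +kernel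
def p13_13_2_26 : pfC (piC [(nat_lit 39120232), (nat_lit 25510466), (nat_lit 18971201), (nat_lit 12765436)] (nat_lit 7153929)) p13_13_2 (nat_lit 4) (nat_lit 26) (nat_lit 27) = true := by decide +kernel
def p13_13_2_27 : pfC (piC [(nat_lit 39120232), (nat_lit 25510466), (nat_lit 18971201), (nat_lit 12765436)] (nat_lit 7153929)) p13_13_2 (nat_lit 4) (nat_lit 27) (nat_lit 28) = true := by decide +kernel
def p13_13_2_28 : pfC (piC [(nat_lit 39120232), (nat_lit 25510466), (nat_lit 18971201), (nat_lit 12765436)] (nat_lit 7153929)) p13_13_2 (nat_lit 4) (nat_lit 28) (nat_lit 29) = true := by decide +kernel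
def p13_13_2_29 : pfC (piC [(nat_lit 39120232), (nat_lit 25510466), (nat_lit 18971201), (nat_lit 12765436)] (nat_lit 7153929)) p13_13_2 (nat_lit 4) (nat_lit 29) (nat_lit 30) = true := by decide +kernel
def p13_13_2_30 : pfC (piC [(nat_lit 39120232), (nat_lit 25510466), (nat_lit 18971201), (nat_lit 12765436)] (nat_lit 7153929)) p13_13_2 (nat_lit 4) (nat_lit 30) (nat_lit 31) = true := by decide +kernel
def p13_13_2_31 : pfC (piC [(nat_lit 39120232), (nat_lit 25510466), (nat_lit 18971201), (nat_lit 12765436)] (nat_lit 7153929)) p13_13_2 (nat_lit 4) (nat_lit 31) (nat_lit 32) = true := by decide +kernel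
def p13_13_2_32 : pfC (piC [(nat_lit 39120232), (nat_lit 25510466), (nat_lit 18971201), (nat_lit 12765436)] (nat_lit 7153929)) p13_13_2 (nat_lit 4) (nat_lit 32) (nat_lit 33) = true := by decide +kernel
def p13_13_2_33 : pfC (piC [(nat_lit 39120232), (nat_lit 25510466), (nat_lit 18971201), (nat_lit 12765436)] (nat_lit 7153929)) p13_13_2 (nat_lit 4) (nat_lit 33) (nat_lit 34) = true := by decide +kernel
def p13_13_2_34 : pfC (piC [(nat_lit 39120232), (nat_lit 25510466), (nat_lit 18971201), (nat_lit 12765436)] (nat_lit 7153929)) p13_13_2 (nat_lit 4) (nat_lit 34) (nat_lit 35) = true := by decide +kernel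
def p13_13_2_35 : pfC (piC [(nat_lit 39120232), (nat_lit 25510466), (nat_lit 18971201), (nat_lit 12765436)] (nat_lit 7153929)) p13_13_2 (nat_lit 4) (nat_lit 35) (nat_lit 36) = true := by decide +kernel
def p13_13_2_36 : pfC (piC [(nat_lit 39120232), (nat_lit 25510466), (nat_lit 18971201), (nat_lit 12765436)] (nat_lit 7153929)) p13_13_2 (nat_lit 4) (nat_lit 36) (nat_lit 37) = true := by decide +kernel
def p13_13_2_37 : pfC (piC [(nat_lit 39120232), (nat_lit 25510466), (nat_lit 18971201), (nat_lit 12765436)] (nat_lit 7153929)) p13_13_2 (nat_lit 4) (nat_lit 37) (nat_lit 38) = true := by decide +kernel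
def p13_13_2_38 : pfC (piC [(nat_lit 39120232), (nat_lit 25510466), (nat_lit 18971201), (nat_lit 12765436)] (nat_lit 7153929)) p13_13_2 (nat_lit 4) (nat_lit 38) (nat_lit 39) = true := by decide +kernel
def p13_13_2_39 : pfC (piC [(nat_lit 39120232), (nat_lit 25510466), (nat_lit 18971201), (nat_lit 12765436)] (nat_lit 7153929)) p13_13_2 (nat_lit 4) (nat_lit 39) (nat_lit 40) = true := by decide +kernel
def p13_13_2_40 : pfC (piC [(nat_lit 39120232), (nat_lit 25510466), (nat_lit 18971201), (nat_lit 12765436)] (nat_lit 7153929)) p13_13_2 (nat_lit 4) (nat_lit 40) (nat_lit 41) = true := by decide +kernel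
def p13_13_2_41 : pfC (piC [(nat_lit 39120232), (nat_lit 25510466), (nat_lit 18971201), (nat_lit 12765436)] (nat_lit 7153929)) p13_13_2 (nat_lit 4) (nat_lit 41) (nat_lit 42) = true := by decide +kernel
def p13_13_2_42 : pfC (piC [(nat_lit 39120232), (nat_lit 25510466), (nat_lit 18971201), (nat_lit 12765436)] (nat_lit 7153929)) p13_13_2 (nat_lit 4) (nat_lit 42) (nat_lit 43) = true := by decide +kernel
def p13_13_2_43 : pfC (piC [(nat_lit 39120232), (nat_lit 25510466), (nat_lit 18971201), (nat_lit 12765436)] (nat_lit 7153929)) p13_13_2 (nat_lit 4) (nat_lit 43) (nat_lit 44) = true := by decide +kernel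
def p13_13_2_44 : pfC (piC [(nat_lit 39120232), (nat_lit 25510466), (nat_lit 18971201), (nat_lit 12765436)] (nat_lit 7153929)) p13_13_2 (nat_lit 4) (nat_lit 44) (nat_lit 45) = true := by decide +kernel
def p13_13_2_45 : pfC (piC [(nat_lit 39120232), (nat_lit 25510466), (nat_lit 18971201), (nat_lit 12765436)] (nat_lit 7153929)) p13_13_2 (nat_lit 4) (nat_lit 45) (nat_lit 46) = true := by decide +kernel
def p13_13_2_46 : pfC (piC [(nat_lit 39120232), (nat_lit 25510466), (nat_lit 18971201), (nat_lit 12765436)] (nat_lit 7153929)) p13_13_2 (nat_lit 4) (nat_lit 46) (nat_lit 47) = true := by decide +kernel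
def p13_13_2_47 : pfC (piC [(nat_lit 39120232), (nat_lit 25510466), (nat_lit 18971201), (nat_lit 12765436)] (nat_lit 7153929)) p13_13_2 (nat_lit 4) (nat_lit 47) (nat_lit 48) = true := by decide +kernel
def p13_13_2_48 : pfC (piC [(nat_lit 39120232), (nat_lit 25510466), (nat_lit 18971201), (nat_lit 12765436)] (nat_lit 7153929)) p13_13_2 (nat_lit 4) (nat_lit 48) (nat_lit 49) = true := by decide +kernel
def p13_13_2_49 : pfC (piC [(nat_lit 39120232), (nat_lit 25510466), (nat_lit 18971201), (nat_lit 12765436)] (nat_lit 7153929)) p13_13_2 (nat_lit 4) (nat_lit 49) (nat_lit 50) = true := by decide +kernel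
def p13_13_2_50 : pfC (piC [(nat_lit 39120232), (nat_lit 25510466), (nat_lit 18971201), (nat_lit 12765436)] (nat_lit 7153929)) p13_13_2 (nat_lit 4) (nat_lit 50) (nat_lit 51) = true := by decide +kernel
def p13_13_2_51 : pfC (piC [(nat_lit 39120232), (nat_lit 25510466), (nat_lit 18971201), (nat_lit 12765436)] (nat_lit 7153929)) p13_13_2 (nat_lit 4) (nat_lit 51) (nat_lit 52) = true := by decide +kernel
def p13_13_2_52 : pfC (piC [(nat_lit 39120232), (nat_lit 25510466), (nat_lit 18971201), (nat_lit 12765436)] (nat_lit 7153929)) p13_13_2 (nat_lit 4) (nat_lit 52) (nat_lit 53) = true := by decide +kernel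
def p13_13_2_53 : pfC (piC [(nat_lit 39120232), (nat_lit 25510466), (nat_lit 18971201), (nat_lit 12765436)] (nat_lit 7153929)) p13_13_2 (nat_lit 4) (nat_lit 53) (nat_lit 54) = true := by decide +kernel
def p13_13_2_54 : pfC (piC [(nat_lit 39120232), (nat_lit 25510466), (nat_lit 18971201), (nat_lit 12765436)] (nat_lit 7153929)) p13_13_2 (nat_lit 4) (nat_lit 54) (nat_lit 55) = true := by decide +kernel
def p13_13_2_55 : pfC (piC [(nat_lit 39120232), (nat_lit 25510466), (nat_lit 18971201), (nat_lit 12765436)] (nat_lit 7153929)) p13_13_2 (nat_lit 4) (nat_lit 55) (nat_lit 56) = true := by decide +kernel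
def p13_13_2_56 : pfC (piC [(nat_lit 39120232), (nat_lit 25510466), (nat_lit 18971201), (nat_lit 12765436)] (nat_lit 7153929)) p13_13_2 (nat_lit 4) (nat_lit 56) (nat_lit 57) = true := by decide +kernel
def p13_13_2_57 : pfC (piC [(nat_lit 39120232), (nat_lit 25510466), (nat_lit 18971201), (nat_lit 12765436)] (nat_lit 7153929)) p13_13_2 (nat_lit 4) (nat_lit 57) (nat_lit 58) = true := by decide +kernel
def p13_13_2_58 : pfC (piC [(nat_lit 39120232), (nat_lit 25510466), (nat_lit 18971201), (nat_lit 12765436)] (nat_lit 7153929)) p13_13_2 (nat_lit 4) (nat_lit 58) (nat_lit 59) = true := by decide +kernel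
def p13_13_2_59 : pfC (piC [(nat_lit 39120232), (nat_lit 25510466), (nat_lit 18971201), (nat_lit 12765436)] (nat_lit 7153929)) p13_13_2 (nat_lit 4) (nat_lit 59) (nat_lit 60) = true := by decide +kernel
def p13_13_2_60 : pfC (piC [(nat_lit 39120232), (nat_lit 25510466), (nat_lit 18971201), (nat_lit 12765436)] (nat_lit 7153929)) p13_13_2 (nat_lit 4) (nat_lit 60) (nat_lit 61) = true := by decide +kernel
def p13_13_2_61 : pfC (piC [(nat_lit 39120232), (nat_lit 25510466), (nat_lit 18971201), (nat_lit 12765436)] (nat_lit 7153929)) p13_13_2 (nat_lit 4) (nat_lit 61) (nat_lit 62) = true := by decide +kernel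
def p13_13_2_62 : pfC (piC [(nat_lit 39120232), (nat_lit 25510466), (nat_lit 18971201), (nat_lit 12765436)] (nat_lit 7153929)) p13_13_2 (nat_lit 4) (nat_lit 62) (nat_lit 63) = true := by decide +kernel
def p13_13_2_63 : pfC (piC [(nat_lit 39120232), (nat_lit 25510466), (nat_lit 18971201), (nat_lit 12765436)] (nat_lit 7153929)) p13_13_2 (nat_lit 4) (nat_lit 63) (nat_lit 64) = true := by decide +kernel
def p13_13_2_64 : pfC (piC [(nat_lit 39120232), (nat_lit 25510466), (nat_lit 18971201), (nat_lit 12765436)] (nat_lit 7153929)) p13_13_2 (nat_lit 4) (nat_lit 64) (nat_lit 65) = true := by decide +kernel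
def p13_13_2_65 : pfC (piC [(nat_lit 39120232), (nat_lit 25510466), (nat_lit 18971201), (nat_lit 12765436)] (nat_lit 7153929)) p13_13_2 (nat_lit 4) (nat_lit 65) (nat_lit 66) = true := by decide +kernel
def p13_13_2_66 : pfC (piC [(nat_lit 39120232), (nat_lit 25510466), (nat_lit 18971201), (nat_lit 12765436)] (nat_lit 7153929)) p13_13_2 (nat_lit 4) (nat_lit 66) (nat_lit 67) = true := by decide +kernel
def p13_13_2_67 : pfC (piC [(nat_lit 39120232), (nat_lit 25510466), (nat_lit 18971201), (nat_lit 12765436)] (nat_lit 7153929)) p13_13_2 (nat_lit 4) (nat_lit 67) (nat_lit 68) = true := by decide +kernel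
def p13_13_2_68 : pfC (piC [(nat_lit 39120232), (nat_lit 25510466), (nat_lit 18971201), (nat_lit 12765436)] (nat_lit 7153929)) p13_13_2 (nat_lit 4) (nat_lit 68) (nat_lit 69) = true := by decide +kernel
def p13_13_2_69 : pfC (piC [(nat_lit 39120232), (nat_lit 25510466), (nat_lit 18971201), (nat_lit 12765436)] (nat_lit 7153929)) p13_13_2 (nat_lit 4) (nat_lit 69) (nat_lit 70) = true := by decide +kernel
def p13_13_2_70 : pfC (piC [(nat_lit 39120232), (nat_lit 25510466), (nat_lit 18971201), (nat_lit 12765436)] (nat_lit 7153929)) p13_13_2 (nat_lit 4) (nat_lit 70) (nat_lit 71) = true := by decide +kernel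
def p13_13_2_71 : pfC (piC [(nat_lit 39120232), (nat_lit 25510466), (nat_lit 18971201), (nat_lit 12765436)] (nat_lit 7153929)) p13_13_2 (nat_lit 4) (nat_lit 71) (nat_lit 72) = true := by decide +kernel
def p13_13_2_72 : pfC (piC [(nat_lit 39120232), (nat_lit 25510466), (nat_lit 18971201), (nat_lit 12765436)] (nat_lit 7153929)) p13_13_2 (nat_lit 4) (nat_lit 72) (nat_lit 73) = true := by decide +kernel
def p13_13_2_73 : pfC (piC [(nat_lit 39120232), (nat_lit 25510466), (nat_lit 18971201), (nat_lit 12765436)] (nat_lit 7153929)) p13_13_2 (nat_lit 4) (nat_lit 73) (nat_lit 74) = true := by decide +kernel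
def p13_13_2_74 : pfC (piC [(nat_lit 39120232), (nat_lit 25510466), (nat_lit 18971201), (nat_lit 12765436)] (nat_lit 7153929)) p13_13_2 (nat_lit 4) (nat_lit 74) (nat_lit 75) = true := by decide +kernel
def p13_13_2_75 : pfC (piC [(nat_lit 39120232), (nat_lit 25510466), (nat_lit 18971201), (nat_lit 12765436)] (nat_lit 7153929)) p13_13_2 (nat_lit 4) (nat_lit 75) (nat_lit 76) = true := by decide +kernel
def p13_13_2_76 : pfC (piC [(nat_lit 39120232), (nat_lit 25510466), (nat_lit 18971201), (nat_lit 12765436)] (nat_lit 7153929)) p13_13_2 (nat_lit 4) (nat_lit 76) (nat_lit 77) = true := by decide +kernel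
def p13_13_2_77 : pfC (piC [(nat_lit 39120232), (nat_lit 25510466), (nat_lit 18971201), (nat_lit 12765436)] (nat_lit 7153929)) p13_13_2 (nat_lit 4) (nat_lit 77) (nat_lit 78) = true := by decide +kernel
def p13_13_2_78 : pfC (piC [(nat_lit 39120232), (nat_lit 25510466), (nat_lit 18971201), (nat_lit 12765436)] (nat_lit 7153929)) p13_13_2 (nat_lit 4) (nat_lit 78) (nat_lit 79) = true := by decide +kernel
def p13_13_2_79 : pfC (piC [(nat_lit 39120232), (nat_lit 25510466), (nat_lit 18971201), (nat_lit 12765436)] (nat_lit 7153929)) p13_13_2 (nat_lit 4) (nat_lit 79) (nat_lit 80) = true := by decide +kernel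
def p13_13_2_80 : pfC (piC [(nat_lit 39120232), (nat_lit 25510466), (nat_lit 18971201), (nat_lit 12765436)] (nat_lit 7153929)) p13_13_2 (nat_lit 4) (nat_lit 80) (nat_lit 81) = true := by decide +kernel
def p13_13_2_81 : pfC (piC [(nat_lit 39120232), (nat_lit 25510466), (nat_lit 18971201), (nat_lit 12765436)] (nat_lit 7153929)) p13_13_2 (nat_lit 4) (nat_lit 81) (nat_lit 82) = true := by decide +kernel
def p13_13_2_82 : pfC (piC [(nat_lit 39120232), (nat_lit 25510466), (nat_lit 18971201), (nat_lit 12765436)] (nat_lit 7153929)) p13_13_2 (nat_lit 4) (nat_lit 82) (nat_lit 83) = true := by decide +kernel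
def p13_13_2_83 : pfC (piC [(nat_lit 39120232), (nat_lit 25510466), (nat_lit 18971201), (nat_lit 12765436)] (nat_lit 7153929)) p13_13_2 (nat_lit 4) (nat_lit 83) (nat_lit 84) = true := by decide +kernel
def p13_13_2_84 : pfC (piC [(nat_lit 39120232), (nat_lit 25510466), (nat_lit 18971201), (nat_lit 12765436)] (nat_lit 7153929)) p13_13_2 (nat_lit 4) (nat_lit 84) (nat_lit 85) = true := by decide +kernel
def p13_13_2_85 : pfC (piC [(nat_lit 39120232), (nat_lit 25510466), (nat_lit 18971201), (nat_lit 12765436)] (nat_lit 7153929)) p13_13_2 (nat_lit 4) (nat_lit 85) (nat_lit 86) = true := by decide +kernel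
def p13_13_2_86 : pfC (piC [(nat_lit 39120232), (nat_lit 25510466), (nat_lit 18971201), (nat_lit 12765436)] (nat_lit 7153929)) p13_13_2 (nat_lit 4) (nat_lit 86) (nat_lit 87) = true := by decide +kernel
def p13_13_2_87 : pfC (piC [(nat_lit 39120232), (nat_lit 25510466), (nat_lit 18971201), (nat_lit 12765436)] (nat_lit 7153929)) p13_13_2 (nat_lit 4) (nat_lit 87) (nat_lit 88) = true := by decide +kernel
def p13_13_2_88 : pfC (piC [(nat_lit 39120232), (nat_lit 25510466), (nat_lit 18971201), (nat_lit 12765436)] (nat_lit 7153929)) p13_13_2 (nat_lit 4) (nat_lit 88) (nat_lit 89) = true := by decide +kernel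
def p13_13_2_89 : pfC (piC [(nat_lit 39120232), (nat_lit 25510466), (nat_lit 18971201), (nat_lit 12765436)] (nat_lit 7153929)) p13_13_2 (nat_lit 4) (nat_lit 89) (nat_lit 90) = true := by decide +kernel
def p13_13_2_90 : pfC (piC [(nat_lit 39120232), (nat_lit 25510466), (nat_lit 18971201), (nat_lit 12765436)] (nat_lit 7153929)) p13_13_2 (nat_lit 4) (nat_lit 90) (nat_lit 91) = true := by decide +kernel
def p13_13_2_91 : pfC (piC [(nat_lit 39120232), (nat_lit 25510466), (nat_lit 18971201), (nat_lit 12765436)] (nat_lit 7153929)) p13_13_2 (nat_lit 4) (nat_lit 91) (nat_lit 92) = true := by decide +kernel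
def p13_13_2_92 : pfC (piC [(nat_lit 39120232), (nat_lit 25510466), (nat_lit 18971201), (nat_lit 12765436)] (nat_lit 7153929)) p13_13_2 (nat_lit 4) (nat_lit 92) (nat_lit 93) = true := by decide +kernel
def p13_13_2_93 : pfC (piC [(nat_lit 39120232), (nat_lit 25510466), (nat_lit 18971201), (nat_lit 12765436)] (nat_lit 7153929)) p13_13_2 (nat_lit 4) (nat_lit 93) (nat_lit 94) = true := by decide +kernel
def p13_13_2_94 : pfC (piC [(nat_lit 39120232), (nat_lit 25510466), (nat_lit 18971201), (nat_lit 12765436)] (nat_lit 7153929)) p13_13_2 (nat_lit 4) (nat_lit 94) (nat_lit 95) = true := by decide +kernel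
def p13_13_2_95 : pfC (piC [(nat_lit 39120232), (nat_lit 25510466), (nat_lit 18971201), (nat_lit 12765436)] (nat_lit 7153929)) p13_13_2 (nat_lit 4) (nat_lit 95) (nat_lit 96) = true := by decide +kernel
def p13_13_2_96 : pfC (piC [(nat_lit 39120232), (nat_lit 25510466), (nat_lit 18971201), (nat_lit 12765436)] (nat_lit 7153929)) p13_13_2 (nat_lit 4) (nat_lit 96) (nat_lit 97) = true := by decide +kernel
def p13_13_2_97 : pfC (piC [(nat_lit 39120232), (nat_lit 25510466), (nat_lit 18971201), (nat_lit 12765436)] (nat_lit 7153929)) p13_13_2 (nat_lit 4) (nat_lit 97) (nat_lit 98) = true := by decide +kernel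
def p13_13_2_98 : pfC (piC [(nat_lit 39120232), (nat_lit 25510466), (nat_lit 18971201), (nat_lit 12765436)] (nat_lit 7153929)) p13_13_2 (nat_lit 4) (nat_lit 98) (nat_lit 99) = true := by decide +kernel
def p13_13_2_99 : pfC (piC [(nat_lit 39120232), (nat_lit 25510466), (nat_lit 18971201), (nat_lit 12765436)] (nat_lit 7153929)) p13_13_2 (nat_lit 4) (nat_lit 99) (nat_lit 100) = true := by decide +kernel
def p13_13_2_100 : pfC (piC [(nat_lit 39120232), (nat_lit 25510466), (nat_lit 18971201), (nat_lit 12765436)] (nat_lit 7153929)) p13_13_2 (nat_lit 4) (nat_lit 100) (nat_lit 101) = true := by decide +kernel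
def p13_13_2_101 : pfC (piC [(nat_lit 39120232), (nat_lit 25510466), (nat_lit 18971201), (nat_lit 12765436)] (nat_lit 7153929)) p13_13_2 (nat_lit 4) (nat_lit 101) (nat_lit 102) = true := by decide +kernel
def p13_13_2_102 : pfC (piC [(nat_lit 39120232), (nat_lit 25510466), (nat_lit 18971201), (nat_lit 12765436)] (nat_lit 7153929)) p13_13_2 (nat_lit 4) (nat_lit 102) (nat_lit 103) = true := by decide +kernel
def p13_13_2_103 : pfC (piC [(nat_lit 39120232), (nat_lit 25510466), (nat_lit 18971201), (nat_lit 12765436)] (nat_lit 7153929)) p13_13_2 (nat_lit 4) (nat_lit 103) (nat_lit 104) = true := by decide +kernel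
def p13_13_2_104 : pfC (piC [(nat_lit 39120232), (nat_lit 25510466), (nat_lit 18971201), (nat_lit 12765436)] (nat_lit 7153929)) p13_13_2 (nat_lit 4) (nat_lit 104) (nat_lit 105) = true := by decide +kernel
def p13_13_2_105 : pfC (piC [(nat_lit 39120232), (nat_lit 25510466), (nat_lit 18971201), (nat_lit 12765436)] (nat_lit 7153929)) p13_13_2 (nat_lit 4) (nat_lit 105) (nat_lit 106) = true := by decide +kernel
def p13_13_2_106 : pfC (piC [(nat_lit 39120232), (nat_lit 25510466), (nat_lit 18971201), (nat_lit 12765436)] (nat_lit 7153929)) p13_13_2 (nat_lit 4) (nat_lit 106) (nat_lit 107) = true := by decide +kernel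
def p13_13_2_107 : pfC (piC [(nat_lit 39120232), (nat_lit 25510466), (nat_lit 18971201), (nat_lit 12765436)] (nat_lit 7153929)) p13_13_2 (nat_lit 4) (nat_lit 107) (nat_lit 108) = true := by decide +kernel
def p13_13_2_108 : pfC (piC [(nat_lit 39120232), (nat_lit 25510466), (nat_lit 18971201), (nat_lit 12765436)] (nat_lit 7153929)) p13_13_2 (nat_lit 4) (nat_lit 108) (nat_lit 109) = true := by decide +kernel
def p13_13_2_109 : pfC (piC [(nat_lit 39120232), (nat_lit 25510466), (nat_lit 18971201), (nat_lit 12765436)] (nat_lit 7153929)) p13_13_2 (nat_lit 4) (nat_lit 109) (nat_lit 110) = true := by decide +kernel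
def p13_13_2_110 : pfC (piC [(nat_lit 39120232), (nat_lit 25510466), (nat_lit 18971201), (nat_lit 12765436)] (nat_lit 7153929)) p13_13_2 (nat_lit 4) (nat_lit 110) (nat_lit 111) = true := by decide +kernel
def p13_13_2_111 : pfC (piC [(nat_lit 39120232), (nat_lit 25510466), (nat_lit 18971201), (nat_lit 12765436)] (nat_lit 7153929)) p13_13_2 (nat_lit 4) (nat_lit 111) (nat_lit 112) = true := by decide +kernel
def p13_13_2_112 : pfC (piC [(nat_lit 39120232), (nat_lit 25510466), (nat_lit 18971201), (nat_lit 12765436)] (nat_lit 7153929)) p13_13_2 (nat_lit 4) (nat_lit 112) (nat_lit 113) = true := by decide +kernel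
def p13_13_2_113 : pfC (piC [(nat_lit 39120232), (nat_lit 25510466), (nat_lit 18971201), (nat_lit 12765436)] (nat_lit 7153929)) p13_13_2 (nat_lit 4) (nat_lit 113) (nat_lit 114) = true := by decide +kernel
def p13_13_2_114 : pfC (piC [(nat_lit 39120232), (nat_lit 25510466), (nat_lit 18971201), (nat_lit 12765436)] (nat_lit 7153929)) p13_13_2 (nat_lit 4) (nat_lit 114) (nat_lit 115) = true := by decide +kernel
def p13_13_2_115 : pfC (piC [(nat_lit 39120232), (nat_lit 25510466), (nat_lit 18971201), (nat_lit 12765436)] (nat_lit 7153929)) p13_13_2 (nat_lit 4) (nat_lit 115) (nat_lit 116) = true := by decide +kernel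
def p13_13_2_116 : pfC (piC [(nat_lit 39120232), (nat_lit 25510466), (nat_lit 18971201), (nat_lit 12765436)] (nat_lit 7153929)) p13_13_2 (nat_lit 4) (nat_lit 116) (nat_lit 117) = true := by decide +kernel
def p13_13_2_117 : pfC (piC [(nat_lit 39120232), (nat_lit 25510466), (nat_lit 18971201), (nat_lit 12765436)] (nat_lit 7153929)) p13_13_2 (nat_lit 4) (nat_lit 117) (nat_lit 118) = true := by decide +kernel
def p13_13_2_118 : pfC (piC [(nat_lit 39120232), (nat_lit 25510466), (nat_lit 18971201), (nat_lit 12765436)] (nat_lit 7153929)) p13_13_2 (nat_lit 4) (nat_lit 118) (nat_lit 119) = true := by decide +kernel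
def p13_13_2_119 : pfC (piC [(nat_lit 39120232), (nat_lit 25510466), (nat_lit 18971201), (nat_lit 12765436)] (nat_lit 7153929)) p13_13_2 (nat_lit 4) (nat_lit 119) (nat_lit 120) = true := by decide +kernel
def p13_13_2_120 : pfC (piC [(nat_lit 39120232), (nat_lit 25510466), (nat_lit 18971201), (nat_lit 12765436)] (nat_lit 7153929)) p13_13_2 (nat_lit 4) (nat_lit 120) (nat_lit 121) = true := by decide +kernel
def p13_13_2_121 : pfC (piC [(nat_lit 39120232), (nat_lit 25510466), (nat_lit 18971201), (nat_lit 12765436)] (nat_lit 7153929)) p13_13_2 (nat_lit 4) (nat_lit 121) (nat_lit 122) = true := by decide +kernel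
def p13_13_2_122 : pfC (piC [(nat_lit 39120232), (nat_lit 25510466), (nat_lit 18971201), (nat_lit 12765436)] (nat_lit 7153929)) p13_13_2 (nat_lit 4) (nat_lit 122) (nat_lit 123) = true := by decide +kernel
def p13_13_2_123 : pfC (piC [(nat_lit 39120232), (nat_lit 25510466), (nat_lit 18971201), (nat_lit 12765436)] (nat_lit 7153929)) p13_13_2 (nat_lit 4) (nat_lit 123) (nat_lit 124) = true := by decide +kernel
def p13_13_2_124 : pfC (piC [(nat_lit 39120232), (nat_lit 25510466), (nat_lit 18971201), (nat_lit 12765436)] (nat_lit 7153929)) p13_13_2 (nat_lit 4) (nat_lit 124) (nat_lit 125) = true := by decide +kernel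
def p13_13_2_125 : pfC (piC [(nat_lit 39120232), (nat_lit 25510466), (nat_lit 18971201), (nat_lit 12765436)] (nat_lit 7153929)) p13_13_2 (nat_lit 4) (nat_lit 125) (nat_lit 126) = true := by decide +kernel
def p13_13_2_126 : pfC (piC [(nat_lit 39120232), (nat_lit 25510466), (nat_lit 18971201), (nat_lit 12765436)] (nat_lit 7153929)) p13_13_2 (nat_lit 4) (nat_lit 126) (nat_lit 127) = true := by decide +kernel
def p13_13_2_127 : pfC (piC [(nat_lit 39120232), (nat_lit 25510466), (nat_lit 18971201), (nat_lit 12765436)] (nat_lit 7153929)) p13_13_2 (nat_lit 4) (nat_lit 127) (nat_lit 128) = true := by decide +kernel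
def p13_13_2_128 : pfC (piC [(nat_lit 39120232), (nat_lit 25510466), (nat_lit 18971201), (nat_lit 12765436)] (nat_lit 7153929)) p13_13_2 (nat_lit 4) (nat_lit 128) (nat_lit 129) = true := by decide +kernel
def p13_13_2_129 : pfC (piC [(nat_lit 39120232), (nat_lit 25510466), (nat_lit 18971201), (nat_lit 12765436)] (nat_lit 7153929)) p13_13_2 (nat_lit 4) (nat_lit 129) (nat_lit 130) = true := by decide +kernel
def p13_13_2_130 : pfC (piC [(nat_lit 39120232), (nat_lit 25510466), (nat_lit 18971201), (nat_lit 12765436)] (nat_lit 7153929)) p13_13_2 (nat_lit 4) (nat_lit 130) (nat_lit 131) = true := by decide +kernel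
def p13_13_2_131 : pfC (piC [(nat_lit 39120232), (nat_lit 25510466), (nat_lit 18971201), (nat_lit 12765436)] (nat_lit 7153929)) p13_13_2 (nat_lit 4) (nat_lit 131) (nat_lit 132) = true := by decide +kernel
def p13_13_2_132 : pfC (piC [(nat_lit 39120232), (nat_lit 25510466), (nat_lit 18971201), (nat_lit 12765436)] (nat_lit 7153929)) p13_13_2 (nat_lit 4) (nat_lit 132) (nat_lit 133) = true := by decide +kernel
def p13_13_2_133 : pfC (piC [(nat_lit 39120232), (nat_lit 25510466), (nat_lit 18971201), (nat_lit 12765436)] (nat_lit 7153929)) p13_13_2 (nat_lit 4) (nat_lit 133) (nat_lit 134) = true := by decide +kernel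
def p13_13_2_134 : pfC (piC [(nat_lit 39120232), (nat_lit 25510466), (nat_lit 18971201), (nat_lit 12765436)] (nat_lit 7153929)) p13_13_2 (nat_lit 4) (nat_lit 134) (nat_lit 135) = true := by decide +kernel
def p13_13_2_135 : pfC (piC [(nat_lit 39120232), (nat_lit 25510466), (nat_lit 18971201), (nat_lit 12765436)] (nat_lit 7153929)) p13_13_2 (nat_lit 4) (nat_lit 135) (nat_lit 136) = true := by decide +kernel
def p13_13_2_136 : pfC (piC [(nat_lit 39120232), (nat_lit 25510466), (nat_lit 18971201), (nat_lit 12765436)] (nat_lit 7153929)) p13_13_2 (nat_lit 4) (nat_lit 136) (nat_lit 137) = true := by decide +kernel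
def p13_13_2_137 : pfC (piC [(nat_lit 39120232), (nat_lit 25510466), (nat_lit 18971201), (nat_lit 12765436)] (nat_lit 7153929)) p13_13_2 (nat_lit 4) (nat_lit 137) (nat_lit 138) = true := by decide +kernel
def p13_13_2_138 : pfC (piC [(nat_lit 39120232), (nat_lit 25510466), (nat_lit 18971201), (nat_lit 12765436)] (nat_lit 7153929)) p13_13_2 (nat_lit 4) (nat_lit 138) (nat_lit 139) = true := by decide +kernel
def p13_13_2_139 : pfC (piC [(nat_lit 39120232), (nat_lit 25510466), (nat_lit 18971201), (nat_lit 12765436)] (nat_lit 7153929)) p13_13_2 (nat_lit 4) (nat_lit 139) (nat_lit 140) = true := by decide +kernel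
def p13_13_2_140 : pfC (piC [(nat_lit 39120232), (nat_lit 25510466), (nat_lit 18971201), (nat_lit 12765436)] (nat_lit 7153929)) p13_13_2 (nat_lit 4) (nat_lit 140) (nat_lit 141) = true := by decide +kernel
def p13_13_2_141 : pfC (piC [(nat_lit 39120232), (nat_lit 25510466), (nat_lit 18971201), (nat_lit 12765436)] (nat_lit 7153929)) p13_13_2 (nat_lit 4) (nat_lit 141) (nat_lit 142) = true := by decide +kernel
def p13_13_2_142 : pfC (piC [(nat_lit 39120232), (nat_lit 25510466), (nat_lit 18971201), (nat_lit 12765436)] (nat_lit 7153929)) p13_13_2 (nat_lit 4) (nat_lit 142) (nat_lit 143) = true := by decide +kernel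
def p13_13_2_143 : pfC (piC [(nat_lit 39120232), (nat_lit 25510466), (nat_lit 18971201), (nat_lit 12765436)] (nat_lit 7153929)) p13_13_2 (nat_lit 4) (nat_lit 143) (nat_lit 144) = true := by decide +kernel
def p13_13_2_144 : pfC (piC [(nat_lit 39120232), (nat_lit 25510466), (nat_lit 18971201), (nat_lit 12765436)] (nat_lit 7153929)) p13_13_2 (nat_lit 4) (nat_lit 144) (nat_lit 145) = true := by decide +kernel
def p13_13_2_145 : pfC (piC [(nat_lit 39120232), (nat_lit 25510466), (nat_lit 18971201), (nat_lit 12765436)] (nat_lit 7153929)) p13_13_2 (nat_lit 4) (nat_lit 145) (nat_lit 146) = true := by decide +kernel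
def p13_13_2_146 : pfC (piC [(nat_lit 39120232), (nat_lit 25510466), (nat_lit 18971201), (nat_lit 12765436)] (nat_lit 7153929)) p13_13_2 (nat_lit 4) (nat_lit 146) (nat_lit 147) = true := by decide +kernel
def p13_13_2_147 : pfC (piC [(nat_lit 39120232), (nat_lit 25510466), (nat_lit 18971201), (nat_lit 12765436)] (nat_lit 7153929)) p13_13_2 (nat_lit 4) (nat_lit 147) (nat_lit 148) = true := by decide +kernel
def p13_13_2_148 : pfC (piC [(nat_lit 39120232), (nat_lit 25510466), (nat_lit 18971201), (nat_lit 12765436)] (nat_lit 7153929)) p13_13_2 (nat_lit 4) (nat_lit 148) (nat_lit 149) = true := by decide +kernel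
def p13_13_2_149 : pfC (piC [(nat_lit 39120232), (nat_lit 25510466), (nat_lit 18971201), (nat_lit 12765436)] (nat_lit 7153929)) p13_13_2 (nat_lit 4) (nat_lit 149) (nat_lit 150) = true := by decide +kernel
theorem p13_13_2_T : PfS (PiF n13_13.reverse (nat_lit 7153929)) p13_13_2 (nat_lit 4) [] 0 :=
  pftab_of (los := [(nat_lit 39120232), (nat_lit 25510466), (nat_lit 18971201), (nat_lit 12765436)]) (by decide +kernel) (hi := (nat_lit 150)) (PfP.trans (PfP.trans (PfP.trans (PfP.trans (PfP.trans (PfP.trans (PfP.trans (PfP.trans (PfP.trans (PfP.trans (PfP.trans (PfP.trans (PfP.trans (PfP.trans (PfP.trans (PfP.trans (PfP.trans (PfP.trans (PfP.trans (PfP.trans (PfP.trans (PfP.trans (PfP.trans (PfP.trans (PfP.trans (PfP.trans (PfP.trans (PfP.trans (PfP.trans (PfP.trans (PfP.trans (PfP.trans (PfP.trans (PfP.trans (PfP.trans (PfP.trans (PfP.trans (PfP.trans (PfP.trans (PfP.trans (PfP.trans (PfP.trans (PfP.trans (PfP.trans (PfP.trans (PfP.trans (PfP.trans (PfP.trans (PfP.trans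 (PfP.trans (PfP.trans (PfP.trans (PfP.trans (PfP.trans (PfP.trans (PfP.trans (PfP.trans (PfP.trans (PfP.trans (PfP.trans (PfP.trans (PfP.trans (PfP.trans (PfP.trans (PfP.trans (PfP.trans (PfP.trans (PfP.trans (PfP.trans (PfP.trans (PfP.trans (PfP.trans (PfP.trans (PfP.trans (PfP.trans (PfP.trans (PfP.trans (PfP.trans (PfP.trans (PfP.trans (PfP.trans (PfP.trans (PfP.trans (PfP.trans (PfP.trans (PfP.trans (PfP.trans (PfP.trans (PfP.trans (PfP.trans (PfP.trans (PfP.trans (PfP.trans (PfP.trans (PfP.trans (PfP.trans (PfP.trans (PfP.trans (PfP.trans (PfP.trans (PfP.trans (PfP.trans (PfP.trans (PfP.trans (PfP.trans (PfP.trans (PfP.trans (PfP.trans (PfP.trans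
 (PfP.trans (PfP.trans (PfP.trans (PfP.trans (PfP.trans (PfP.trans (PfP.trans (PfP.trans (PfP.trans (PfP.trans (PfP.trans (PfP.trans (PfP.trans (PfP.trans (PfP.trans (PfP.trans (PfP.trans (PfP.trans (PfP.trans (PfP.trans (PfP.trans (PfP.trans (PfP.trans (PfP.trans (PfP.trans (PfP.trans (PfP.trans (PfP.trans (PfP.trans (PfP.trans (PfP.trans (PfP.trans (PfP.trans (PfP.trans (PfP.trans (PfP.trans (PfP.trans (PfP.trans (PfP.trans (PfP.trans (pfC_sound p13_13_2_0) (pfC_sound p13_13_2_1)) (pfC_sound p13_13_2_2)) (pfC_sound p13_13_2_3)) (pfC_sound p13_13_2_4)) (pfC_sound p13_13_2_5)) (pfC_sound p13_13_2_6)) (pfC_sound p13_13_2_7)) (pfC_sound p13_13_2_8)) (pfC_sound p13_13_2_9)) (pfC_sound p13_13_2_10)) (pfC_sound p13_13_2_11)) (pfC_sound p13_13_2_12)) (pfC_sound p13_13_2_13)) (pfC_sound p13_13_2_14)) (pfC_sound p13_13_2_15)) (pfC_sound p13_13_2_16)) (pfC_sound p13_13_2_17)) (pfC_sound p13_13_2_18)) (pfC_sound p13_13_2_19)) (pfC_sound p13_13_2_20)) (pfC_sound p13_13_2_21))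 (pfC_sound p13_13_2_22)) (pfC_sound p13_13_2_23)) (pfC_sound p13_13_2_24)) (pfC_sound p13_13_2_25)) (pfC_sound p13_13_2_26)) (pfC_sound p13_13_2_27)) (pfC_sound p13_13_2_28)) (pfC_sound p13_13_2_29)) (pfC_sound
 p13_13_2_30)) (pfC_sound p13_13_2_31)) (pfC_sound p13_13_2_32)) (pfC_sound p13_13_2_33)) (pfC_sound p13_13_2_34)) (pfC_sound p13_13_2_35)) (pfC_sound p13_13_2_36)) (pfC_sound p13_13_2_37)) (pfC_sound p13_13_2_38)) (pfC_sound p13_13_2_39)) (pfC_sound p13_13_2_40)) (pfC_sound p13_13_2_41)) (pfC_sound p13_13_2_42)) (pfC_sound p13_13_2_43)) (pfC_sound p13_13_2_44)) (pfC_sound p13_13_2_45)) (pfC_sound p13_13_2_46)) (pfC_sound p13_13_2_47)) (pfC_sound p13_13_2_48)) (pfC_sound p13_13_2_49)) (pfC_sound p13_13_2_50)) (pfC_sound p13_13_2_51)) (pfC_sound p13_13_2_52)) (pfC_sound p13_13_2_53)) (pfC_sound p13_13_2_54)) (pfC_sound p13_13_2_55)) (pfC_sound p13_13_2_56)) (pfC_sound p13_13_2_57)) (pfC_sound p13_13_2_58)) (pfC_sound p13_13_2_59)) (pfC_sound p13_13_2_60)) (pfC_sound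 p13_13_2_61)) (pfC_sound p13_13_2_62)) (pfC_sound p13_13_2_63)) (pfC_sound p13_13_2_64)) (pfC_sound p13_13_2_65)) (pfC_sound p13_13_2_66)) (pfC_sound p13_13_2_67)) (pfC_sound p13_13_2_68)) (pfC_sound p13_13_2_69)) (pfC_sound p13_13_2_70)) (pfC_sound p13_13_2_71)) (pfC_sound p13_13_2_72)) (pfC_sound p13_13_2_73)) (pfC_sound p13_13_2_74)) (pfC_sound p13_13_2_75)) (pfC_sound p13_13_2_76)) (pfC_sound p13_13_2_77)) (pfC_sound
 p13_13_2_78)) (pfC_sound p13_13_2_79)) (pfC_sound p13_13_2_80)) (pfC_sound p13_13_2_81)) (pfC_sound p13_13_2_82)) (pfC_sound p13_13_2_83)) (pfC_sound p13_13_2_84)) (pfC_sound p13_13_2_85)) (pfC_sound p13_13_2_86)) (pfC_sound p13_13_2_87)) (pfC_sound p13_13_2_88)) (pfC_sound p13_13_2_89)) (pfC_sound p13_13_2_90)) (pfC_sound p13_13_2_91)) (pfC_sound p13_13_2_92)) (pfC_sound p13_13_2_93)) (pfC_sound p13_13_2_94)) (pfC_sound p13_13_2_95)) (pfC_sound p13_13_2_96)) (pfC_sound p13_13_2_97)) (pfC_sound p13_13_2_98)) (pfC_sound p13_13_2_99)) (pfC_sound p13_13_2_100))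 (pfC_sound p13_13_2_101)) (pfC_sound p13_13_2_102)) (pfC_sound p13_13_2_103)) (pfC_sound p13_13_2_104)) (pfC_sound p13_13_2_105)) (pfC_sound p13_13_2_106)) (pfC_sound p13_13_2_107)) (pfC_sound p13_13_2_108)) (pfC_sound p13_13_2_109)) (pfC_sound p13_13_2_110)) (pfC_sound p13_13_2_111)) (pfC_sound p13_13_2_112)) (pfC_sound p13_13_2_113)) (pfC_sound p13_13_2_114)) (pfC_sound p13_13_2_115)) (pfC_sound p13_13_2_116)) (pfC_sound p13_13_2_117)) (pfC_sound p13_13_2_118)) (pfC_sound p13_13_2_119)) (pfC_sound p13_13_2_120)) (pfC_sound p13_13_2_121)) (pfC_sound p13_13_2_122)) (pfC_sound p13_13_2_123)) (pfC_sound p13_13_2_124)) (pfC_sound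
 p13_13_2_125)) (pfC_sound p13_13_2_126)) (pfC_sound p13_13_2_127)) (pfC_sound p13_13_2_128)) (pfC_sound p13_13_2_129)) (pfC_sound p13_13_2_130)) (pfC_sound p13_13_2_131)) (pfC_sound p13_13_2_132)) (pfC_sound p13_13_2_133)) (pfC_sound p13_13_2_134)) (pfC_sound p13_13_2_135)) (pfC_sound p13_13_2_136)) (pfC_sound p13_13_2_137)) (pfC_sound p13_13_2_138)) (pfC_sound p13_13_2_139)) (pfC_sound p13_13_2_140)) (pfC_sound p13_13_2_141)) (pfC_sound p13_13_2_142)) (pfC_sound p13_13_2_143)) (pfC_sound p13_13_2_144)) (pfC_sound p13_13_2_145)) (pfC_sound p13_13_2_146)) (pfC_sound p13_13_2_147)) (pfC_sound p13_13_2_148)) (pfC_sound p13_13_2_149)) (by decide +kernel)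

def z13_13_2 : zOK yB13_13 (nat_lit 2) (nat_lit 600) (nat_lit 750) (nat_lit 7153929) (nat_lit 5276329) = true := by decide +kernel
def g13_13_2 : gOK yB13_13.x P13_13 (nat_lit 1417) (q13_13 :: r13_13) (nat_lit 2) (nat_lit 600) (nat_lit 3) (nat_lit 750) (nat_lit 12712500) (nat_lit 12712500) (nat_lit 12712500) (nat_lit 12712500) [(nat_lit 800), (nat_lit 1600)] = true := by decide +kernel
def v13_13_2 : ivC P13_13 s13_13 w13_13 n13_13 (nat_lit 4) (nat_lit 4800) (nat_lit 2) (nat_lit 600) f160_1_600 f168_1_600 (nat_lit 3) (nat_lit 750) f160_1_750 f168_1_750 (nat_lit 7153929) (nat_lit 5276329) p13_13_2 = true := by decide +kernel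
def p13_13_3 : PF := (PF.cons (PF.cons (PF.cons (PF.cons (PF.leaf (nat_lit 2922692) (nat_lit 18206020) (nat_lit 48902792) (nat_lit 18206020) [(nat_lit 0), (nat_lit 0), (nat_lit 0), (nat_lit 0)]) (PF.cons (PF.leaf (nat_lit 3079804) (nat_lit 276859) (nat_lit 48659409) (nat_lit 18172544) [(nat_lit 276859), (nat_lit 0), (nat_lit 0), (nat_lit 0)]) (PF.cons (PF.leaf (nat_lit 3265650) (nat_lit 300658) (nat_lit 48375128) (nat_lit 18132367) [(nat_lit 300658), (nat_lit 0), (nat_lit 0), (nat_lit 0)]) (PF.cons (PF.leaf (nat_lit 3473927) (nat_lit 321637) (nat_lit 48057721) (nat_lit 18086177) [(nat_lit 321637), (nat_lit 0), (nat_lit 0), (nat_lit 0)]) (PF.cons (PF.leaf (nat_lit 3701241) (nat_lit 340422) (nat_lit 47712710) (nat_lit 18034410) [(nat_lit 340422), (nat_lit 0), (nat_lit 0), (nat_lit 0)]) (PF.cons (PF.leaf (nat_lit 3945057) (nat_lit 357413) (nat_lit 47344358) (nat_lit 17977384) [(nat_lit 357413), (nat_lit 0), (nat_lit 0), (nat_lit 0)]) (PF.cons (PF.leaf (nat_lit 4203293)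 (nat_lit 372888) (nat_lit 46956130) (nat_lit 17915354) [(nat_lit 372888), (nat_lit 0), (nat_lit 0), (nat_lit 0)]) (PF.cons (PF.leaf (nat_lit 4474178) (nat_lit 387047) (nat_lit 46550939) (nat_lit 17848543) [(nat_lit 387047), (nat_lit 0),
 (nat_lit 0), (nat_lit 0)]) (PF.cons (PF.leaf (nat_lit 4756180) (nat_lit 400044) (nat_lit 46131291) (nat_lit 17777162) [(nat_lit 400044), (nat_lit 0), (nat_lit 0), (nat_lit 0)]) (PF.cons (PF.leaf (nat_lit 5048034) (nat_lit 412002) (nat_lit 45699379) (nat_lit 17701413) [(nat_lit 412002), (nat_lit 0), (nat_lit 0), (nat_lit 0)]) (PF.cons PF.nil (PF.cons PF.nil PF.nil)))))))))))) (PF.cons (PF.cons (PF.leaf (nat_lit 3450109) (nat_lit 1251395) (nat_lit 47811485) (nat_lit 18045931) [(nat_lit 0), (nat_lit 1251395), (nat_lit 0), (nat_lit 0)]) (PF.cons (PF.leaf (nat_lit 3651957) (nat_lit 331388) (nat_lit 47497861) (nat_lit 17997846) [(nat_lit 331388), (nat_lit 1281716), (nat_lit 0), (nat_lit 0)]) (PF.cons (PF.leaf (nat_lit 3875099) (nat_lit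 349441) (nat_lit 47155013) (nat_lit 17943802) [(nat_lit 349441), (nat_lit 1311114), (nat_lit 0), (nat_lit 0)]) (PF.cons (PF.leaf (nat_lit 4115429) (nat_lit 365703) (nat_lit 46788241) (nat_lit 17884308) [(nat_lit 365703), (nat_lit 1339153), (nat_lit 0), (nat_lit 0)]) (PF.cons (PF.leaf (nat_lit 4370520) (nat_lit 380478) (nat_lit 46401535) (nat_lit 17819730) [(nat_lit 380478), (nat_lit 1365631), (nat_lit 0), (nat_lit 0)]) (PF.cons (PF.leaf (nat_lit 4638419)
 (nat_lit 393977) (nat_lit 45998085) (nat_lit 17750368) [(nat_lit 393977), (nat_lit 1390469), (nat_lit 0), (nat_lit 0)]) (PF.cons (PF.leaf (nat_lit 4917506) (nat_lit 406356) (nat_lit 45580545) (nat_lit 17676478) [(nat_lit 406356), (nat_lit 1413652), (nat_lit 0), (nat_lit 0)]) (PF.cons (PF.leaf (nat_lit 5206360) (nat_lit 417733) (nat_lit 45151178) (nat_lit 17598300) [(nat_lit 417733), (nat_lit 1435200), (nat_lit 0), (nat_lit 0)]) (PF.cons PF.nil (PF.cons PF.nil PF.nil)))))))))) (PF.cons (PF.cons (PF.leaf (nat_lit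 4052151) (nat_lit 1338107) (nat_lit 46585460) (nat_lit 17847138) [(nat_lit 0), (nat_lit 1338107), (nat_lit 0), (nat_lit 0)]) (PF.cons (PF.leaf (nat_lit 4286751) (nat_lit 372747) (nat_lit 46223918) (nat_lit 17785867) [(nat_lit 372747), (nat_lit 1363140), (nat_lit 0), (nat_lit 0)]) (PF.cons (PF.leaf (nat_lit 4537629) (nat_lit 387018) (nat_lit 45841473) (nat_lit 17719300) [(nat_lit 387018), (nat_lit 1387000), (nat_lit 0), (nat_lit 0)]) (PF.cons (PF.leaf (nat_lit 4801757) (nat_lit 400003) (nat_lit 45441909) (nat_lit 17647858) [(nat_lit 400003), (nat_lit 1409518), (nat_lit 0), (nat_lit 0)]) (PF.cons (PF.leaf (nat_lit 5077352) (nat_lit 411874) (nat_lit 45028203) (nat_lit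
 17571876) [(nat_lit 411874), (nat_lit 1430617), (nat_lit 0), (nat_lit 0)]) (PF.cons (PF.leaf (nat_lit 5362838) (nat_lit 422761) (nat_lit 44602803) (nat_lit 17491645) [(nat_lit 422761), (nat_lit 1450279), (nat_lit 0), (nat_lit 0)]) (PF.cons (PF.leaf (nat_lit 5656928) (nat_lit 432763) (nat_lit 44167777) (nat_lit 17407428) [(nat_lit 432763), (nat_lit 1468513), (nat_lit 0), (nat_lit 0)]) (PF.cons PF.nil (PF.cons PF.nil PF.nil))))))))) (PF.cons (PF.cons (PF.leaf (nat_lit 4706227) (nat_lit 1406303) (nat_lit 45275848) (nat_lit 17614054) [(nat_lit 0), (nat_lit 1406303), (nat_lit 0), (nat_lit 0)]) (PF.cons (PF.leaf (nat_lit 4965019) (nat_lit 405157) (nat_lit 44882542) (nat_lit 17541082) [(nat_lit 405157), (nat_lit 1426676), (nat_lit 0), (nat_lit 0)]) (PF.cons (PF.leaf (nat_lit 5236339) (nat_lit 416634) (nat_lit 44474508) (nat_lit 17463471) [(nat_lit 416634), (nat_lit 1445854), (nat_lit 0), (nat_lit 0)]) (PF.cons (PF.leaf (nat_lit 5517907) (nat_lit 427119) (nat_lit 44054539)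 (nat_lit 17381591) [(nat_lit 427119), (nat_lit 1463774), (nat_lit 0), (nat_lit 0)]) (PF.cons (PF.leaf (nat_lit 5808247) (nat_lit 436723) (nat_lit 43624907) (nat_lit 17295757) [(nat_lit 436723), (nat_lit 1480417),
 (nat_lit 0), (nat_lit 0)]) (PF.cons PF.nil (PF.cons PF.nil PF.nil))))))) (PF.cons (PF.cons (PF.leaf (nat_lit 5395739) (nat_lit 1459527) (nat_lit 43919385) (nat_lit 17351316) [(nat_lit 0), (nat_lit 1459527), (nat_lit 0), (nat_lit 0)]) (PF.cons (PF.leaf (nat_lit 5672157) (nat_lit 430827) (nat_lit 43506448) (nat_lit 17268237) [(nat_lit 430827), (nat_lit 1475824), (nat_lit 0), (nat_lit 0)]) (PF.cons (PF.leaf (nat_lit 5958215) (nat_lit 440107) (nat_lit 43083470) (nat_lit 17181175) [(nat_lit 440107), (nat_lit 1490987), (nat_lit 0), (nat_lit 0)]) (PF.cons (PF.leaf (nat_lit 6252066) (nat_lit 448589) (nat_lit 42652562) (nat_lit 17090465) [(nat_lit 448589), (nat_lit 1505003), (nat_lit 0), (nat_lit 0)]) (PF.cons PF.nil PF.nil))))) (PF.cons (PF.cons (PF.leaf (nat_lit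 6107868) (nat_lit 1500331) (nat_lit 42543393) (nat_lit 17063763) [(nat_lit 0), (nat_lit 1500331), (nat_lit 0), (nat_lit 0)]) (PF.cons (PF.leaf (nat_lit 6396741) (nat_lit 451142) (nat_lit 42120068) (nat_lit 16972220) [(nat_lit 451142), (nat_lit 1513076), (nat_lit 0), (nat_lit 0)]) (PF.cons PF.nil (PF.cons PF.nil PF.nil)))) (PF.cons (PF.cons (PF.leaf (nat_lit 6832532) (nat_lit 1530703) (nat_lit 41168366) (nat_lit 16756227)
 [(nat_lit 0), (nat_lit 1530703), (nat_lit 0), (nat_lit 0)]) (PF.cons PF.nil PF.nil)) (PF.cons PF.nil PF.nil)))))))) (PF.cons (PF.cons (PF.cons (PF.leaf (nat_lit 3976099) (nat_lit 3231073) (nat_lit 46126208) (nat_lit 17751531) [(nat_lit 0), (nat_lit 0), (nat_lit 3231073), (nat_lit 0)]) (PF.cons (PF.leaf (nat_lit 4186226) (nat_lit 353107) (nat_lit 45804973) (nat_lit 17695589) [(nat_lit 353107), (nat_lit 0), (nat_lit 3255141), (nat_lit 0)]) (PF.cons (PF.leaf (nat_lit 4416523) (nat_lit 369866) (nat_lit 45456581) (nat_lit 17633501) [(nat_lit 369866),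 (nat_lit 0), (nat_lit 3278997), (nat_lit 0)]) (PF.cons (PF.leaf (nat_lit 4662781) (nat_lit 384754) (nat_lit 45086537) (nat_lit 17565964) [(nat_lit 384754), (nat_lit 0), (nat_lit 3302046), (nat_lit 0)]) (PF.cons (PF.leaf (nat_lit 4922598) (nat_lit 398133) (nat_lit 44698887) (nat_lit 17493483) [(nat_lit 398133), (nat_lit 0), (nat_lit 3323908), (nat_lit 0)]) (PF.cons (PF.leaf (nat_lit 5193972) (nat_lit 410244) (nat_lit 44296787) (nat_lit 17416456) [(nat_lit 410244), (nat_lit 0), (nat_lit 3344344), (nat_lit 0)]) (PF.cons (PF.leaf (nat_lit 5475330) (nat_lit 421264) (nat_lit 43882807) (nat_lit 17335218) [(nat_lit 421264), (nat_lit 0), (nat_lit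
 3363201), (nat_lit 0)]) (PF.cons (PF.leaf (nat_lit 5765315) (nat_lit 431322) (nat_lit 43459097) (nat_lit 17250065) [(nat_lit 431322), (nat_lit 0), (nat_lit 3380393), (nat_lit 0)]) (PF.cons PF.nil (PF.cons PF.nil PF.nil)))))))))) (PF.cons (PF.cons (PF.leaf (nat_lit 4588549) (nat_lit 1386483) (nat_lit 44892436) (nat_lit 17526450) [(nat_lit 0), (nat_lit 1386483), (nat_lit 3303442), (nat_lit 0)]) (PF.cons (PF.leaf (nat_lit 4828219) (nat_lit 389835) (nat_lit 44530205) (nat_lit 17457944) [(nat_lit 389835), (nat_lit 1407403), (nat_lit 3323424), (nat_lit 0)]) (PF.cons (PF.leaf (nat_lit 5083026) (nat_lit 402880) (nat_lit 44149129) (nat_lit 17384244) [(nat_lit 402880), (nat_lit 1427212), (nat_lit 3342464), (nat_lit 0)]) (PF.cons (PF.leaf (nat_lit 5349981) (nat_lit 414625) (nat_lit 43752982) (nat_lit 17305882) [(nat_lit 414625), (nat_lit 1445789), (nat_lit 3360282), (nat_lit 0)]) (PF.cons (PF.leaf (nat_lit 5627267) (nat_lit 425267) (nat_lit 43344681) (nat_lit 17223274) [(nat_lit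 425267), (nat_lit 1463087), (nat_lit 3376700), (nat_lit 0)]) (PF.cons (PF.leaf (nat_lit 5913428) (nat_lit 434950) (nat_lit 42926575) (nat_lit 17136771) [(nat_lit 434950), (nat_lit 1479101), (nat_lit 3391612),
 (nat_lit 0)]) (PF.cons PF.nil (PF.cons PF.nil (PF.cons PF.nil PF.nil))))))))) (PF.cons (PF.cons (PF.leaf (nat_lit 5244994) (nat_lit 1441606) (nat_lit 43596220) (nat_lit 17270986) [(nat_lit 0), (nat_lit 1441606), (nat_lit 3358392), (nat_lit 0)]) (PF.cons (PF.leaf (nat_lit 5506037) (nat_lit 418265) (nat_lit 43208072) (nat_lit 17191828) [(nat_lit 418265), (nat_lit 1458441), (nat_lit 3373763), (nat_lit 0)]) (PF.cons (PF.leaf (nat_lit 5778570) (nat_lit 428629) (nat_lit 42806998) (nat_lit 17108296) [(nat_lit 428629), (nat_lit 1474174), (nat_lit 3387910), (nat_lit 0)]) (PF.cons (PF.leaf (nat_lit 6060356) (nat_lit 438014) (nat_lit 42395708) (nat_lit 17020822) [(nat_lit 438014), (nat_lit 1488766), (nat_lit 3400705), (nat_lit 0)]) (PF.cons (PF.leaf (nat_lit 6349989)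 (nat_lit 446543) (nat_lit 41976368) (nat_lit 16929769) [(nat_lit 446543), (nat_lit 1502212), (nat_lit 3412075), (nat_lit 0)]) (PF.cons PF.nil (PF.cons PF.nil PF.nil))))))) (PF.cons (PF.cons (PF.leaf (nat_lit 5930365) (nat_lit 1484008) (nat_lit 42269491) (nat_lit 16990298) [(nat_lit 0), (nat_lit 1484008), (nat_lit 3396996), (nat_lit 0)]) (PF.cons (PF.leaf (nat_lit 6206648) (nat_lit 440521) (nat_lit 41866381) (nat_lit 16902281)
 [(nat_lit 440521), (nat_lit 1497269), (nat_lit 3407818), (nat_lit 0)]) (PF.cons (PF.leaf (nat_lit 6491684) (nat_lit 448811) (nat_lit 41454711) (nat_lit 16810628) [(nat_lit 448811), (nat_lit 1509500), (nat_lit 3417347), (nat_lit 0)]) (PF.cons PF.nil (PF.cons PF.nil PF.nil))))) (PF.cons (PF.cons (PF.leaf (nat_lit 6633229) (nat_lit 1515791) (nat_lit 40935442) (nat_lit 16689303) [(nat_lit 0), (nat_lit 1515791), (nat_lit 3420899), (nat_lit 0)]) (PF.cons (PF.leaf (nat_lit 6920022) (nat_lit 457913) (nat_lit 40525514) (nat_lit 16594120) [(nat_lit 457913),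 (nat_lit 1525943), (nat_lit 3427490), (nat_lit 0)]) (PF.cons PF.nil (PF.cons PF.nil PF.nil)))) (PF.cons (PF.cons (PF.leaf (nat_lit 7344721) (nat_lit 1538634) (nat_lit 39611121) (nat_lit 16372620) [(nat_lit 0), (nat_lit 1538634), (nat_lit 3431898), (nat_lit 0)]) (PF.cons PF.nil PF.nil)) PF.nil)))))) (PF.cons (PF.cons (PF.cons (PF.leaf (nat_lit 5113347) (nat_lit 3340482) (nat_lit 43243857) (nat_lit 17183991) [(nat_lit 0), (nat_lit 0), (nat_lit 3340482), (nat_lit 0)]) (PF.cons (PF.leaf (nat_lit 5356149) (nat_lit 403193) (nat_lit 42885378) (nat_lit 17109813) [(nat_lit 403193), (nat_lit 0), (nat_lit 3355213), (nat_lit 0)]) (PF.cons (PF.leaf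
 (nat_lit 5613084) (nat_lit 415160) (nat_lit 42509868) (nat_lit 17030610) [(nat_lit 415160), (nat_lit 0), (nat_lit 3369006), (nat_lit 0)]) (PF.cons (PF.leaf (nat_lit 5881204) (nat_lit 425825) (nat_lit 42121036) (nat_lit 16946999) [(nat_lit 425825), (nat_lit 0), (nat_lit 3381650), (nat_lit 0)]) (PF.cons (PF.leaf (nat_lit 6158737) (nat_lit 435402) (nat_lit 41721703) (nat_lit 16859456) [(nat_lit 435402), (nat_lit 0), (nat_lit 3393021), (nat_lit 0)]) (PF.cons (PF.leaf (nat_lit 6444186) (nat_lit 444047) (nat_lit 41314112) (nat_lit 16768372) [(nat_lit 444047), (nat_lit 0), (nat_lit 3403045), (nat_lit 0)]) (PF.cons PF.nil PF.nil))))))) (PF.cons (PF.cons (PF.leaf (nat_lit 5768197) (nat_lit 1466441) (nat_lit 41973918) (nat_lit 16911709) [(nat_lit 0), (nat_lit 1466441), (nat_lit 3378372), (nat_lit 0)]) (PF.cons (PF.leaf (nat_lit 6029990) (nat_lit 428235) (nat_lit 41594231) (nat_lit 16827938) [(nat_lit 428235), (nat_lit 1480329), (nat_lit 3389039), (nat_lit 0)]) (PF.cons (PF.leaf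 (nat_lit 6302376) (nat_lit 437627) (nat_lit 41203147) (nat_lit 16740076) [(nat_lit 437627), (nat_lit 1493193), (nat_lit 3398570), (nat_lit 0)]) (PF.cons (PF.leaf (nat_lit 6583166) (nat_lit 446056) (nat_lit 40803271)
 (nat_lit 16648603) [(nat_lit 446056), (nat_lit 1505014), (nat_lit 3406877), (nat_lit 0)]) (PF.cons (PF.leaf (nat_lit 6870996) (nat_lit 453654) (nat_lit 40396657) (nat_lit 16553908) [(nat_lit 453654), (nat_lit 1515797), (nat_lit 3413915), (nat_lit 0)]) PF.nil))))) (PF.cons (PF.cons (PF.leaf (nat_lit 6446647) (nat_lit 1499931) (nat_lit 40685865) (nat_lit 16618304) [(nat_lit 0), (nat_lit 1499931), (nat_lit 3402390), (nat_lit 0)]) (PF.cons (PF.leaf (nat_lit 6721687) (nat_lit 447579) (nat_lit 40294882) (nat_lit 16526840) [(nat_lit 447579), (nat_lit 1510652), (nat_lit 3409102), (nat_lit 0)]) (PF.cons (PF.leaf (nat_lit 7004710) (nat_lit 455009) (nat_lit 39896559) (nat_lit 16432072) [(nat_lit 455009), (nat_lit 1520432), (nat_lit 3414649), (nat_lit 0)]) (PF.cons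 PF.nil PF.nil)))) (PF.cons (PF.cons (PF.leaf (nat_lit 7138429) (nat_lit 1524248) (nat_lit 39399512) (nat_lit 16308589) [(nat_lit 0), (nat_lit 1524248), (nat_lit 3413982), (nat_lit 0)]) (PF.cons (PF.leaf (nat_lit 7422368) (nat_lit 462481) (nat_lit 39004437) (nat_lit 16211117) [(nat_lit 462481), (nat_lit 1532227), (nat_lit 3417047), (nat_lit 0)]) PF.nil)) (PF.cons PF.nil PF.nil))))) (PF.cons (PF.cons (PF.cons (PF.leaf (nat_lit
 6274990) (nat_lit 3383549) (nat_lit 40415912) (nat_lit 16542252) [(nat_lit 0), (nat_lit 0), (nat_lit 3383549), (nat_lit 0)]) (PF.cons (PF.leaf (nat_lit 6536338) (nat_lit 435624) (nat_lit 40046939) (nat_lit 16455231) [(nat_lit 435624), (nat_lit 0), (nat_lit 3390339), (nat_lit 0)]) (PF.cons (PF.leaf (nat_lit 6807522) (nat_lit 444159) (nat_lit 39667867) (nat_lit 16364405) [(nat_lit 444159), (nat_lit 0), (nat_lit 3396073), (nat_lit 0)]) (PF.cons (PF.leaf (nat_lit 7086371) (nat_lit 451752) (nat_lit 39281188) (nat_lit 16270281) [(nat_lit 451752),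 (nat_lit 0), (nat_lit 3400695), (nat_lit 0)]) (PF.cons PF.nil PF.nil))))) (PF.cons (PF.cons (PF.leaf (nat_lit 6944436) (nat_lit 1508938) (nat_lit 39172274) (nat_lit 16240557) [(nat_lit 0), (nat_lit 1508938), (nat_lit 3395680), (nat_lit 0)]) (PF.cons (PF.leaf (nat_lit 7217380) (nat_lit 452466) (nat_lit 38794883) (nat_lit 16146901) [(nat_lit 452466), (nat_lit 1517521), (nat_lit 3399013), (nat_lit 0)]) (PF.cons (PF.leaf (nat_lit 7497633) (nat_lit 459142) (nat_lit 38411159) (nat_lit 16050250) [(nat_lit 459142), (nat_lit 1525238), (nat_lit 3401292), (nat_lit 0)]) (PF.cons PF.nil PF.nil)))) (PF.cons (PF.cons (PF.leaf (nat_lit 7623867) (nat_lit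
 1527041) (nat_lit 37936928) (nat_lit 15926025) [(nat_lit 0), (nat_lit 1527041), (nat_lit 3397258), (nat_lit 0)]) (PF.cons PF.nil PF.nil)) PF.nil))) (PF.cons (PF.cons (PF.cons (PF.leaf (nat_lit 7423926) (nat_lit 3379367) (nat_lit 37730083) (nat_lit 15861258) [(nat_lit 0), (nat_lit 0), (nat_lit 3379367), (nat_lit 0)]) (PF.cons (PF.leaf (nat_lit 7694084) (nat_lit 455556) (nat_lit 37367129) (nat_lit 15766447) [(nat_lit 455556), (nat_lit 0), (nat_lit 3379919), (nat_lit 0)]) (PF.cons PF.nil PF.nil))) (PF.cons (PF.cons (PF.leaf (nat_lit 8090139) (nat_lit 1525247) (nat_lit 36547278) (nat_lit 15545079) [(nat_lit 0), (nat_lit 1525247), (nat_lit 3372801), (nat_lit 0)]) PF.nil) PF.nil)) (PF.cons PF.nil (PF.cons PF.nil (PF.cons PF.nil PF.nil)))))))) (PF.cons (PF.cons (PF.cons (PF.cons (PF.leaf (nat_lit 4867163) (nat_lit 8640024) (nat_lit 41714614) (nat_lit 16754173) [(nat_lit 0), (nat_lit 0), (nat_lit 0), (nat_lit 8640024)]) (PF.cons (PF.leaf (nat_lit 5074885) (nat_lit 361339)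 (nat_lit 41425179) (nat_lit 16691990) [(nat_lit 361339), (nat_lit 0), (nat_lit 0), (nat_lit 8630302)]) (PF.cons (PF.leaf (nat_lit 5301359) (nat_lit 376963) (nat_lit 41112521) (nat_lit 16623772) [(nat_lit 376963),
 (nat_lit 0), (nat_lit 0), (nat_lit 8618590)]) (PF.cons (PF.leaf (nat_lit 5542369) (nat_lit 390598) (nat_lit 40781709) (nat_lit 16550429) [(nat_lit 390598), (nat_lit 0), (nat_lit 0), (nat_lit 8604878)]) (PF.cons (PF.leaf (nat_lit 5795469) (nat_lit 402651) (nat_lit 40436426) (nat_lit 16472616) [(nat_lit 402651), (nat_lit 0), (nat_lit 0), (nat_lit 8589164)]) (PF.cons (PF.leaf (nat_lit 6058716) (nat_lit 413399) (nat_lit 40079511) (nat_lit 16390843) [(nat_lit 413399), (nat_lit 0), (nat_lit 0), (nat_lit 8571460)]) (PF.cons (PF.leaf (nat_lit 6330578) (nat_lit 423042) (nat_lit 39713238) (nat_lit 16305528) [(nat_lit 423042), (nat_lit 0), (nat_lit 0), (nat_lit 8551791)]) (PF.cons (PF.leaf (nat_lit 6609785) (nat_lit 431730) (nat_lit 39339482) (nat_lit 16217023) [(nat_lit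 431730), (nat_lit 0), (nat_lit 0), (nat_lit 8530195)]) (PF.cons PF.nil PF.nil))))))))) (PF.cons (PF.cons (PF.leaf (nat_lit 5459444) (nat_lit 1393198) (nat_lit 40613460) (nat_lit 16509655) [(nat_lit 0), (nat_lit 1393198), (nat_lit 0), (nat_lit 8592498)]) (PF.cons (PF.leaf (nat_lit 5693220) (nat_lit 393849) (nat_lit 40291129) (nat_lit 16436479) [(nat_lit 393849), (nat_lit 1410041), (nat_lit 0), (nat_lit 8577313)]) (PF.cons
 (PF.leaf (nat_lit 5940735) (nat_lit 405660) (nat_lit 39953103) (nat_lit 16358557) [(nat_lit 405660), (nat_lit 1425728), (nat_lit 0), (nat_lit 8560101)]) (PF.cons (PF.leaf (nat_lit 6199089) (nat_lit 416132) (nat_lit 39602768) (nat_lit 16276531) [(nat_lit 416132), (nat_lit 1440203), (nat_lit 0), (nat_lit 8540911)]) (PF.cons (PF.leaf (nat_lit 6466507) (nat_lit 425487) (nat_lit 39242705) (nat_lit 16190899) [(nat_lit 425487), (nat_lit 1453466), (nat_lit 0), (nat_lit 8519789)]) (PF.cons (PF.leaf (nat_lit 6741572) (nat_lit 433889) (nat_lit 38874967) (nat_lit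 16102064) [(nat_lit 433889), (nat_lit 1465546), (nat_lit 0), (nat_lit 8496788)]) (PF.cons PF.nil PF.nil))))))) (PF.cons (PF.cons (PF.leaf (nat_lit 6087590) (nat_lit 1434928) (nat_lit 39468521) (nat_lit 16241821) [(nat_lit 0), (nat_lit 1434928), (nat_lit 0), (nat_lit 8528612)]) (PF.cons (PF.leaf (nat_lit 6339673) (nat_lit 418238) (nat_lit 39126377) (nat_lit 16160023) [(nat_lit 418238), (nat_lit 1448005), (nat_lit 0), (nat_lit 8508162)]) (PF.cons (PF.leaf (nat_lit 6602042) (nat_lit 427401) (nat_lit 38773713) (nat_lit 16074456) [(nat_lit 427401), (nat_lit 1460027), (nat_lit 0), (nat_lit 8485785)]) (PF.cons (PF.leaf (nat_lit 6872527)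
 (nat_lit 435587) (nat_lit 38412902) (nat_lit 15985606) [(nat_lit 435587), (nat_lit 1470992), (nat_lit 0), (nat_lit 8461557)]) (PF.cons (PF.leaf (nat_lit 7149794) (nat_lit 442933) (nat_lit 38045816) (nat_lit 15893868) [(nat_lit 442933), (nat_lit 1480920), (nat_lit 0), (nat_lit 8435553)]) PF.nil))))) (PF.cons (PF.cons (PF.leaf (nat_lit 6738274) (nat_lit 1465646) (nat_lit 38305881) (nat_lit 15956159) [(nat_lit 0), (nat_lit 1465646), (nat_lit 0), (nat_lit 8449833)]) (PF.cons (PF.leaf (nat_lit 7003116) (nat_lit 436824) (nat_lit 37953047) (nat_lit 15867654) [(nat_lit 436824), (nat_lit 1475572), (nat_lit 0), (nat_lit 8424569)]) (PF.cons (PF.leaf (nat_lit 7275702) (nat_lit 444008) (nat_lit 37593396) (nat_lit 15776165) [(nat_lit 444008), (nat_lit 1484560), (nat_lit 0), (nat_lit 8397550)]) (PF.cons PF.nil PF.nil)))) (PF.cons (PF.cons (PF.leaf (nat_lit 7401776) (nat_lit 1487464) (nat_lit 37143689) (nat_lit 15657251) [(nat_lit 0), (nat_lit 1487464), (nat_lit 0), (nat_lit 8358014)])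 (PF.cons (PF.leaf (nat_lit 7675210) (nat_lit 450990) (nat_lit 36786723) (nat_lit 15563648) [(nat_lit 450990), (nat_lit 1494734), (nat_lit 0), (nat_lit 8328511)]) PF.nil)) (PF.cons PF.nil PF.nil)))))) (PF.cons
 (PF.cons (PF.cons (PF.leaf (nat_lit 5944040) (nat_lit 3283355) (nat_lit 39174289) (nat_lit 16158922) [(nat_lit 0), (nat_lit 0), (nat_lit 3283355), (nat_lit 8492245)]) (PF.cons (PF.leaf (nat_lit 6179257) (nat_lit 403155) (nat_lit 38858075) (nat_lit 16082653) [(nat_lit 403155), (nat_lit 0), (nat_lit 3291956), (nat_lit 8472973)]) (PF.cons (PF.leaf (nat_lit 6427388) (nat_lit 414005) (nat_lit 38527623) (nat_lit 16001857) [(nat_lit 414005), (nat_lit 0), (nat_lit 3299632), (nat_lit 8451689)]) (PF.cons (PF.leaf (nat_lit 6685546) (nat_lit 423537) (nat_lit 38186213) (nat_lit 15917221) [(nat_lit 423537), (nat_lit 0), (nat_lit 3306262), (nat_lit 8428502)]) (PF.cons (PF.leaf (nat_lit 6951998) (nat_lit 431985) (nat_lit 37836316) (nat_lit 15829268) [(nat_lit 431985), (nat_lit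 0), (nat_lit 3311783), (nat_lit 8403502)]) (PF.cons (PF.leaf (nat_lit 7225365) (nat_lit 439515) (nat_lit 37479874) (nat_lit 15738418) [(nat_lit 439515), (nat_lit 0), (nat_lit 3316165), (nat_lit 8376775)]) (PF.cons PF.nil PF.nil))))))) (PF.cons (PF.cons (PF.leaf (nat_lit 6567783) (nat_lit 1448018) (nat_lit 38060811) (nat_lit 15883053) [(nat_lit 0), (nat_lit 1448018), (nat_lit 3301500), (nat_lit 8415427)]) (PF.cons (PF.leaf
 (nat_lit 6819421) (nat_lit 424703) (nat_lit 37728195) (nat_lit 15799080) [(nat_lit 424703), (nat_lit 1458771), (nat_lit 3306708), (nat_lit 8391353)]) (PF.cons (PF.leaf (nat_lit 7080626) (nat_lit 433038) (nat_lit 37386218) (nat_lit 15711600) [(nat_lit 433038), (nat_lit 1468554), (nat_lit 3310910), (nat_lit 8365452)]) (PF.cons (PF.leaf (nat_lit 7349265) (nat_lit 440423) (nat_lit 37037143) (nat_lit 15621119) [(nat_lit 440423), (nat_lit 1477375), (nat_lit 3314068), (nat_lit 8337836)]) (PF.cons PF.nil PF.nil))))) (PF.cons (PF.cons (PF.leaf (nat_lit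 7210142) (nat_lit 1471927) (nat_lit 36937862) (nat_lit 15592490) [(nat_lit 0), (nat_lit 1471927), (nat_lit 3308804), (nat_lit 8325800)]) (PF.cons (PF.leaf (nat_lit 7473006) (nat_lit 440926) (nat_lit 36597078) (nat_lit 15502711) [(nat_lit 440926), (nat_lit 1479894), (nat_lit 3310836), (nat_lit 8297471)]) (PF.cons (PF.leaf (nat_lit 7743017) (nat_lit 447398) (nat_lit 36250363) (nat_lit 15410220) [(nat_lit 447398), (nat_lit 1487006), (nat_lit 3311888), (nat_lit 8267529)]) (PF.cons PF.nil PF.nil)))) (PF.cons (PF.cons (PF.leaf (nat_lit 7862318) (nat_lit 1488145) (nat_lit 35821004) (nat_lit 15291528) [(nat_lit 0), (nat_lit 1488145), (nat_lit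
 3306623), (nat_lit 8225219)]) (PF.cons PF.nil PF.nil)) (PF.cons PF.nil PF.nil))))) (PF.cons (PF.cons (PF.cons (PF.leaf (nat_lit 7032771) (nat_lit 3289880) (nat_lit 36714211) (nat_lit 15522870) [(nat_lit 0), (nat_lit 0), (nat_lit 3289880), (nat_lit 8291970)]) (PF.cons (PF.leaf (nat_lit 7283171) (nat_lit 429254) (nat_lit 36392303) (nat_lit 15437623) [(nat_lit 429254), (nat_lit 0), (nat_lit 3292305), (nat_lit 8265021)]) (PF.cons (PF.leaf (nat_lit 7542514) (nat_lit 436859) (nat_lit 36062022) (nat_lit 15349120) [(nat_lit 436859), (nat_lit 0), (nat_lit 3293799), (nat_lit 8236350)]) (PF.cons (PF.leaf (nat_lit 7808691) (nat_lit 443543) (nat_lit 35725522) (nat_lit 15257877) [(nat_lit 443543), (nat_lit 0), (nat_lit 3294344), (nat_lit 8206093)]) (PF.cons PF.nil PF.nil))))) (PF.cons (PF.cons (PF.leaf (nat_lit 7665540) (nat_lit 1473359) (nat_lit 35633541) (nat_lit 15230229) [(nat_lit 0), (nat_lit 1473359), (nat_lit 3288860), (nat_lit 8193960)]) (PF.cons (PF.leaf (nat_lit 7925894)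 (nat_lit 443442) (nat_lit 35305452) (nat_lit 15139975) [(nat_lit 443442), (nat_lit 1479673), (nat_lit 3288503), (nat_lit 8163261)]) (PF.cons (PF.leaf (nat_lit 8192830) (nat_lit 449291) (nat_lit 34972171) (nat_lit
 15047254) [(nat_lit 449291), (nat_lit 1485204), (nat_lit 3287258), (nat_lit 8131082)]) (PF.cons PF.nil PF.nil)))) (PF.cons (PF.cons (PF.leaf (nat_lit 8305707) (nat_lit 1484907) (nat_lit 34563044) (nat_lit 14929612) [(nat_lit 0), (nat_lit 1484907), (nat_lit 3279767), (nat_lit 8086807)]) (PF.cons PF.nil PF.nil)) PF.nil))) (PF.cons (PF.cons (PF.cons (PF.leaf (nat_lit 8104879) (nat_lit 3262703) (nat_lit 34392217) (nat_lit 14871787) [(nat_lit 0), (nat_lit 0), (nat_lit 3262703), (nat_lit 8056696)]) (PF.cons (PF.leaf (nat_lit 8362253) (nat_lit 444647) (nat_lit 34077108) (nat_lit 14781704) [(nat_lit 444647), (nat_lit 0), (nat_lit 3260380), (nat_lit 8024209)]) (PF.cons PF.nil PF.nil))) (PF.cons (PF.cons (PF.leaf (nat_lit 8732581) (nat_lit 1478499) (nat_lit 33368115)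 (nat_lit 14573424) [(nat_lit 0), (nat_lit 1478499), (nat_lit 3247997), (nat_lit 7944780)]) PF.nil) PF.nil)) (PF.cons PF.nil (PF.cons PF.nil PF.nil)))))) (PF.cons (PF.cons (PF.cons (PF.cons (PF.leaf (nat_lit 6684560) (nat_lit 8115026) (nat_lit 35696376) (nat_lit 15182383) [(nat_lit 0), (nat_lit 0), (nat_lit 0), (nat_lit 8115026)]) (PF.cons (PF.leaf (nat_lit 6911553) (nat_lit 398553) (nat_lit 35418479) (nat_lit 15107796)
 [(nat_lit 398553), (nat_lit 0), (nat_lit 0), (nat_lit 8091991)]) (PF.cons (PF.leaf (nat_lit 7150494) (nat_lit 408480) (nat_lit 35128517) (nat_lit 15029152) [(nat_lit 408480), (nat_lit 0), (nat_lit 0), (nat_lit 8067090)]) (PF.cons (PF.leaf (nat_lit 7398545) (nat_lit 417102) (nat_lit 34829367) (nat_lit 14947149) [(nat_lit 417102), (nat_lit 0), (nat_lit 0), (nat_lit 8040494)]) (PF.cons (PF.leaf (nat_lit 7654048) (nat_lit 424659) (nat_lit 34523180) (nat_lit 14862313) [(nat_lit 424659), (nat_lit 0), (nat_lit 0), (nat_lit 8012341)]) (PF.cons PF.nil (PF.cons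 PF.nil PF.nil))))))) (PF.cons (PF.cons (PF.leaf (nat_lit 7278466) (nat_lit 1417074) (nat_lit 34722410) (nat_lit 14915206) [(nat_lit 0), (nat_lit 1417074), (nat_lit 0), (nat_lit 8027060)]) (PF.cons (PF.leaf (nat_lit 7519986) (nat_lit 417419) (nat_lit 34431335) (nat_lit 14834300) [(nat_lit 417419), (nat_lit 1425583), (nat_lit 0), (nat_lit 8000086)]) (PF.cons (PF.leaf (nat_lit 7770273) (nat_lit 424918) (nat_lit 34132403) (nat_lit 14750357) [(nat_lit 424918), (nat_lit 1433181), (nat_lit 0), (nat_lit 7971516)]) (PF.cons (PF.leaf (nat_lit 8027252) (nat_lit 431493) (nat_lit 33827577) (nat_lit 14663875) [(nat_lit 431493), (nat_lit 1439894),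
 (nat_lit 0), (nat_lit 7941492)]) (PF.cons PF.nil PF.nil))))) (PF.cons (PF.cons (PF.leaf (nat_lit 7887604) (nat_lit 1434355) (nat_lit 33743377) (nat_lit 14637524) [(nat_lit 0), (nat_lit 1434355), (nat_lit 0), (nat_lit 7929599)]) (PF.cons (PF.leaf (nat_lit 8138894) (nat_lit 431316) (nat_lit 33446017) (nat_lit 14552096) [(nat_lit 431316), (nat_lit 1440393), (nat_lit 0), (nat_lit 7899297)]) (PF.cons (PF.leaf (nat_lit 8396694) (nat_lit 437055) (nat_lit 33143715) (nat_lit 14464390) [(nat_lit 437055), (nat_lit 1445653), (nat_lit 0), (nat_lit 7867644)]) (PF.cons PF.nil PF.nil)))) (PF.cons (PF.cons (PF.leaf (nat_lit 8504288) (nat_lit 1445086) (nat_lit 32771763) (nat_lit 14353099) [(nat_lit 0), (nat_lit 1445086), (nat_lit 0), (nat_lit 7824345)]) (PF.cons PF.nil PF.nil)) (PF.cons PF.nil PF.nil))))) (PF.cons (PF.cons (PF.cons (PF.leaf (nat_lit 7707982) (nat_lit 3181085) (nat_lit 33557130) (nat_lit 14575047) [(nat_lit 0), (nat_lit 0), (nat_lit 3181085), (nat_lit 7897774)]) (PF.cons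 (PF.leaf (nat_lit 7947849) (nat_lit 420079) (nat_lit 33275928) (nat_lit 14493980) [(nat_lit 420079), (nat_lit 0), (nat_lit 3180744), (nat_lit 7869040)]) (PF.cons (PF.leaf (nat_lit 8195956) (nat_lit 426949) (nat_lit
 32987641) (nat_lit 14410090) [(nat_lit 426949), (nat_lit 0), (nat_lit 3179577), (nat_lit 7838802)]) (PF.cons (PF.leaf (nat_lit 8450241) (nat_lit 432927) (nat_lit 32694129) (nat_lit 14323875) [(nat_lit 432927), (nat_lit 0), (nat_lit 3177587), (nat_lit 7807219)]) (PF.cons PF.nil PF.nil))))) (PF.cons (PF.cons (PF.leaf (nat_lit 8307578) (nat_lit 1431085) (nat_lit 32616094) (nat_lit 14298647) [(nat_lit 0), (nat_lit 1431085), (nat_lit 3172008), (nat_lit 7795488)]) (PF.cons (PF.leaf (nat_lit 8556186) (nat_lit 432290) (nat_lit 32330038) (nat_lit 14213665) [(nat_lit 432290), (nat_lit 1435816), (nat_lit 3169378), (nat_lit 7763811)]) (PF.cons PF.nil (PF.cons PF.nil PF.nil)))) (PF.cons (PF.cons (PF.leaf (nat_lit 8912909) (nat_lit 1438221) (nat_lit 31685122) (nat_lit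 14017222) [(nat_lit 0), (nat_lit 1438221), (nat_lit 3156595), (nat_lit 7686714)]) (PF.cons PF.nil PF.nil)) PF.nil))) (PF.cons (PF.cons (PF.cons (PF.leaf (nat_lit 8713459) (nat_lit 3140676) (nat_lit 31542981) (nat_lit 13966098) [(nat_lit 0), (nat_lit 0), (nat_lit 3140676), (nat_lit 7659189)]) (PF.cons (PF.leaf (nat_lit 8959072) (nat_lit 432283) (nat_lit 31268253) (nat_lit 13881970) [(nat_lit 432283), (nat_lit 0), (nat_lit 3136624),
 (nat_lit 7626528)]) PF.nil)) (PF.cons PF.nil PF.nil)) (PF.cons PF.nil (PF.cons PF.nil PF.nil))))) (PF.cons (PF.cons (PF.cons (PF.cons (PF.leaf (nat_lit 8316995) (nat_lit 7517309) (nat_lit 30849951) (nat_lit 13706932) [(nat_lit 0), (nat_lit 0), (nat_lit 0), (nat_lit 7517309)]) (PF.cons (PF.leaf (nat_lit 8546917) (nat_lit 409455) (nat_lit 30603381) (nat_lit 13631031) [(nat_lit 409455), (nat_lit 0), (nat_lit 0), (nat_lit 7488315)]) (PF.cons (PF.leaf (nat_lit 8784552) (nat_lit 415728) (nat_lit 30350717) (nat_lit 13552655) [(nat_lit 415728),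 (nat_lit 0), (nat_lit 0), (nat_lit 7457993)]) (PF.cons PF.nil PF.nil)))) (PF.cons (PF.cons (PF.leaf (nat_lit 8886722) (nat_lit 1386029) (nat_lit 30026965) (nat_lit 13449464) [(nat_lit 0), (nat_lit 1386029), (nat_lit 0), (nat_lit 7415450)]) (PF.cons (PF.leaf (nat_lit 9124517) (nat_lit 420152) (nat_lit 29776376) (nat_lit 13370404) [(nat_lit 420152), (nat_lit 1389631), (nat_lit 0), (nat_lit 7384082)]) PF.nil)) (PF.cons PF.nil PF.nil))) (PF.cons (PF.cons (PF.cons (PF.leaf (nat_lit 9264388) (nat_lit 3019265) (nat_lit 29093903) (nat_lit 13143744) [(nat_lit 0), (nat_lit 0), (nat_lit 3019265), (nat_lit 7283966)]) (PF.cons PF.nil PF.nil)) (PF.cons PF.nil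
 PF.nil)) (PF.cons PF.nil PF.nil))) (PF.cons (PF.cons (PF.cons (PF.cons (PF.leaf (nat_lit 9768558) (nat_lit 6934058) (nat_lit 26973266) (nat_lit 12399310) [(nat_lit 0), (nat_lit 0), (nat_lit 0), (nat_lit 6934058)]) (PF.cons PF.nil PF.nil)) (PF.cons PF.nil PF.nil)) (PF.cons PF.nil PF.nil)) (PF.cons PF.nil (PF.cons PF.nil (PF.cons PF.nil PF.nil))))))))

def p13_13_3_0 : pfC (piC [(nat_lit 39120232), (nat_lit 25510466), (nat_lit 18971201), (nat_lit 12765436)] (nat_lit 5276329)) p13_13_3 (nat_lit 4) (nat_lit 0) (nat_lit 1) = true := by decide +kernel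
def p13_13_3_1 : pfC (piC [(nat_lit 39120232), (nat_lit 25510466), (nat_lit 18971201), (nat_lit 12765436)] (nat_lit 5276329)) p13_13_3 (nat_lit 4) (nat_lit 1) (nat_lit 2) = true := by decide +kernel
def p13_13_3_2 : pfC (piC [(nat_lit 39120232), (nat_lit 25510466), (nat_lit 18971201), (nat_lit 12765436)] (nat_lit 5276329)) p13_13_3 (nat_lit 4) (nat_lit 2) (nat_lit 3) = true := by decide +kernel
def p13_13_3_3 : pfC (piC [(nat_lit 39120232), (nat_lit 25510466), (nat_lit 18971201), (nat_lit 12765436)] (nat_lit 5276329)) p13_13_3 (nat_lit 4) (nat_lit 3) (nat_lit 4) = true := by decide +kernel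
def p13_13_3_4 : pfC (piC [(nat_lit 39120232), (nat_lit 25510466), (nat_lit 18971201), (nat_lit 12765436)] (nat_lit 5276329)) p13_13_3 (nat_lit 4) (nat_lit 4) (nat_lit 5) = true := by decide +kernel
def p13_13_3_5 : pfC (piC [(nat_lit 39120232), (nat_lit 25510466), (nat_lit 18971201), (nat_lit 12765436)] (nat_lit 5276329)) p13_13_3 (nat_lit 4) (nat_lit 5) (nat_lit 6) = true := by decide +kernel
def p13_13_3_6 : pfC (piC [(nat_lit 39120232), (nat_lit 25510466), (nat_lit 18971201), (nat_lit 12765436)] (nat_lit 5276329)) p13_13_3 (nat_lit 4) (nat_lit 6) (nat_lit 7) = true := by decide +kernel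
def p13_13_3_7 : pfC (piC [(nat_lit 39120232), (nat_lit 25510466), (nat_lit 18971201), (nat_lit 12765436)] (nat_lit 5276329)) p13_13_3 (nat_lit 4) (nat_lit 7) (nat_lit 8) = true := by decide +kernel
def p13_13_3_8 : pfC (piC [(nat_lit 39120232), (nat_lit 25510466), (nat_lit 18971201), (nat_lit 12765436)] (nat_lit 5276329)) p13_13_3 (nat_lit 4) (nat_lit 8) (nat_lit 9) = true := by decide +kernel
def p13_13_3_9 : pfC (piC [(nat_lit 39120232), (nat_lit 25510466), (nat_lit 18971201), (nat_lit 12765436)] (nat_lit 5276329)) p13_13_3 (nat_lit 4) (nat_lit 9) (nat_lit 10) = true := by decide +kernel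
def p13_13_3_10 : pfC (piC [(nat_lit 39120232), (nat_lit 25510466), (nat_lit 18971201), (nat_lit 12765436)] (nat_lit 5276329)) p13_13_3 (nat_lit 4) (nat_lit 10) (nat_lit 11) = true := by decide +kernel
def p13_13_3_11 : pfC (piC [(nat_lit 39120232), (nat_lit 25510466), (nat_lit 18971201), (nat_lit 12765436)] (nat_lit 5276329)) p13_13_3 (nat_lit 4) (nat_lit 11) (nat_lit 12) = true := by decide +kernel
def p13_13_3_12 : pfC (piC [(nat_lit 39120232), (nat_lit 25510466), (nat_lit 18971201), (nat_lit 12765436)] (nat_lit 5276329)) p13_13_3 (nat_lit 4) (nat_lit 12) (nat_lit 13) = true := by decide +kernel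
def p13_13_3_13 : pfC (piC [(nat_lit 39120232), (nat_lit 25510466), (nat_lit 18971201), (nat_lit 12765436)] (nat_lit 5276329)) p13_13_3 (nat_lit 4) (nat_lit 13) (nat_lit 14) = true := by decide +kernel
def p13_13_3_14 : pfC (piC [(nat_lit 39120232), (nat_lit 25510466), (nat_lit 18971201), (nat_lit 12765436)] (nat_lit 5276329)) p13_13_3 (nat_lit 4) (nat_lit 14) (nat_lit 15) = true := by decide +kernel
def p13_13_3_15 : pfC (piC [(nat_lit 39120232), (nat_lit 25510466), (nat_lit 18971201), (nat_lit 12765436)] (nat_lit 5276329)) p13_13_3 (nat_lit 4) (nat_lit 15) (nat_lit 16) = true := by decide +kernel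
def p13_13_3_16 : pfC (piC [(nat_lit 39120232), (nat_lit 25510466), (nat_lit 18971201), (nat_lit 12765436)] (nat_lit 5276329)) p13_13_3 (nat_lit 4) (nat_lit 16) (nat_lit 17) = true := by decide +kernel
def p13_13_3_17 : pfC (piC [(nat_lit 39120232), (nat_lit 25510466), (nat_lit 18971201), (nat_lit 12765436)] (nat_lit 5276329)) p13_13_3 (nat_lit 4) (nat_lit 17) (nat_lit 18) = true := by decide +kernel
def p13_13_3_18 : pfC (piC [(nat_lit 39120232), (nat_lit 25510466), (nat_lit 18971201), (nat_lit 12765436)] (nat_lit 5276329)) p13_13_3 (nat_lit 4) (nat_lit 18) (nat_lit 19) = true := by decide +kernel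
def p13_13_3_19 : pfC (piC [(nat_lit 39120232), (nat_lit 25510466), (nat_lit 18971201), (nat_lit 12765436)] (nat_lit 5276329)) p13_13_3 (nat_lit 4) (nat_lit 19) (nat_lit 20) = true := by decide +kernel
def p13_13_3_20 : pfC (piC [(nat_lit 39120232), (nat_lit 25510466), (nat_lit 18971201), (nat_lit 12765436)] (nat_lit 5276329)) p13_13_3 (nat_lit 4) (nat_lit 20) (nat_lit 21) = true := by decide +kernel
def p13_13_3_21 : pfC (piC [(nat_lit 39120232), (nat_lit 25510466), (nat_lit 18971201), (nat_lit 12765436)] (nat_lit 5276329)) p13_13_3 (nat_lit 4) (nat_lit 21) (nat_lit 22) = true := by decide +kernel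
def p13_13_3_22 : pfC (piC [(nat_lit 39120232), (nat_lit 25510466), (nat_lit 18971201), (nat_lit 12765436)] (nat_lit 5276329)) p13_13_3 (nat_lit 4) (nat_lit 22) (nat_lit 23) = true := by decide +kernel
def p13_13_3_23 : pfC (piC [(nat_lit 39120232), (nat_lit 25510466), (nat_lit 18971201), (nat_lit 12765436)] (nat_lit 5276329)) p13_13_3 (nat_lit 4) (nat_lit 23) (nat_lit 24) = true := by decide +kernel
def p13_13_3_24 : pfC (piC [(nat_lit 39120232), (nat_lit 25510466), (nat_lit 18971201), (nat_lit 12765436)] (nat_lit 5276329)) p13_13_3 (nat_lit 4) (nat_lit 24) (nat_lit 25) = true := by decide +kernel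
def p13_13_3_25 : pfC (piC [(nat_lit 39120232), (nat_lit 25510466), (nat_lit 18971201), (nat_lit 12765436)] (nat_lit 5276329)) p13_13_3 (nat_lit 4) (nat_lit 25) (nat_lit 26) = true := by decide +kernel
def p13_13_3_26 : pfC (piC [(nat_lit 39120232), (nat_lit 25510466), (nat_lit 18971201), (nat_lit 12765436)] (nat_lit 5276329)) p13_13_3 (nat_lit 4) (nat_lit 26) (nat_lit 27) = true := by decide +kernel
def p13_13_3_27 : pfC (piC [(nat_lit 39120232), (nat_lit 25510466), (nat_lit 18971201), (nat_lit 12765436)] (nat_lit 5276329)) p13_13_3 (nat_lit 4) (nat_lit 27) (nat_lit 28) = true := by decide +kernel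
def p13_13_3_28 : pfC (piC [(nat_lit 39120232), (nat_lit 25510466), (nat_lit 18971201), (nat_lit 12765436)] (nat_lit 5276329)) p13_13_3 (nat_lit 4) (nat_lit 28) (nat_lit 29) = true := by decide +kernel
def p13_13_3_29 : pfC (piC [(nat_lit 39120232), (nat_lit 25510466), (nat_lit 18971201), (nat_lit 12765436)] (nat_lit 5276329)) p13_13_3 (nat_lit 4) (nat_lit 29) (nat_lit 30) = true := by decide +kernel
def p13_13_3_30 : pfC (piC [(nat_lit 39120232), (nat_lit 25510466), (nat_lit 18971201), (nat_lit 12765436)] (nat_lit 5276329)) p13_13_3 (nat_lit 4) (nat_lit 30) (nat_lit 31) = true := by decide +kernel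
def p13_13_3_31 : pfC (piC [(nat_lit 39120232), (nat_lit 25510466), (nat_lit 18971201), (nat_lit 12765436)] (nat_lit 5276329)) p13_13_3 (nat_lit 4) (nat_lit 31) (nat_lit 32) = true := by decide +kernel
def p13_13_3_32 : pfC (piC [(nat_lit 39120232), (nat_lit 25510466), (nat_lit 18971201), (nat_lit 12765436)] (nat_lit 5276329)) p13_13_3 (nat_lit 4) (nat_lit 32) (nat_lit 33) = true := by decide +kernel
def p13_13_3_33 : pfC (piC [(nat_lit 39120232), (nat_lit 25510466), (nat_lit 18971201), (nat_lit 12765436)] (nat_lit 5276329)) p13_13_3 (nat_lit 4) (nat_lit 33) (nat_lit 34) = true := by decide +kernel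
def p13_13_3_34 : pfC (piC [(nat_lit 39120232), (nat_lit 25510466), (nat_lit 18971201), (nat_lit 12765436)] (nat_lit 5276329)) p13_13_3 (nat_lit 4) (nat_lit 34) (nat_lit 35) = true := by decide +kernel
def p13_13_3_35 : pfC (piC [(nat_lit 39120232), (nat_lit 25510466), (nat_lit 18971201), (nat_lit 12765436)] (nat_lit 5276329)) p13_13_3 (nat_lit 4) (nat_lit 35) (nat_lit 36) = true := by decide +kernel
def p13_13_3_36 : pfC (piC [(nat_lit 39120232), (nat_lit 25510466), (nat_lit 18971201), (nat_lit 12765436)] (nat_lit 5276329)) p13_13_3 (nat_lit 4) (nat_lit 36) (nat_lit 37) = true := by decide +kernel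
def p13_13_3_37 : pfC (piC [(nat_lit 39120232), (nat_lit 25510466), (nat_lit 18971201), (nat_lit 12765436)] (nat_lit 5276329)) p13_13_3 (nat_lit 4) (nat_lit 37) (nat_lit 38) = true := by decide +kernel
def p13_13_3_38 : pfC (piC [(nat_lit 39120232), (nat_lit 25510466), (nat_lit 18971201), (nat_lit 12765436)] (nat_lit 5276329)) p13_13_3 (nat_lit 4) (nat_lit 38) (nat_lit 39) = true := by decide +kernel
def p13_13_3_39 : pfC (piC [(nat_lit 39120232), (nat_lit 25510466), (nat_lit 18971201), (nat_lit 12765436)] (nat_lit 5276329)) p13_13_3 (nat_lit 4) (nat_lit 39) (nat_lit 40) = true := by decide +kernel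
def p13_13_3_40 : pfC (piC [(nat_lit 39120232), (nat_lit 25510466), (nat_lit 18971201), (nat_lit 12765436)] (nat_lit 5276329)) p13_13_3 (nat_lit 4) (nat_lit 40) (nat_lit 41) = true := by decide +kernel
def p13_13_3_41 : pfC (piC [(nat_lit 39120232), (nat_lit 25510466), (nat_lit 18971201), (nat_lit 12765436)] (nat_lit 5276329)) p13_13_3 (nat_lit 4) (nat_lit 41) (nat_lit 42) = true := by decide +kernel
def p13_13_3_42 : pfC (piC [(nat_lit 39120232), (nat_lit 25510466), (nat_lit 18971201), (nat_lit 12765436)] (nat_lit 5276329)) p13_13_3 (nat_lit 4) (nat_lit 42) (nat_lit 43) = true := by decide +kernel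
def p13_13_3_43 : pfC (piC [(nat_lit 39120232), (nat_lit 25510466), (nat_lit 18971201), (nat_lit 12765436)] (nat_lit 5276329)) p13_13_3 (nat_lit 4) (nat_lit 43) (nat_lit 44) = true := by decide +kernel
def p13_13_3_44 : pfC (piC [(nat_lit 39120232), (nat_lit 25510466), (nat_lit 18971201), (nat_lit 12765436)] (nat_lit 5276329)) p13_13_3 (nat_lit 4) (nat_lit 44) (nat_lit 45) = true := by decide +kernel
def p13_13_3_45 : pfC (piC [(nat_lit 39120232), (nat_lit 25510466), (nat_lit 18971201), (nat_lit 12765436)] (nat_lit 5276329)) p13_13_3 (nat_lit 4) (nat_lit 45) (nat_lit 46) = true := by decide +kernel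
def p13_13_3_46 : pfC (piC [(nat_lit 39120232), (nat_lit 25510466), (nat_lit 18971201), (nat_lit 12765436)] (nat_lit 5276329)) p13_13_3 (nat_lit 4) (nat_lit 46) (nat_lit 47) = true := by decide +kernel
def p13_13_3_47 : pfC (piC [(nat_lit 39120232), (nat_lit 25510466), (nat_lit 18971201), (nat_lit 12765436)] (nat_lit 5276329)) p13_13_3 (nat_lit 4) (nat_lit 47) (nat_lit 48) = true := by decide +kernel
def p13_13_3_48 : pfC (piC [(nat_lit 39120232), (nat_lit 25510466), (nat_lit 18971201), (nat_lit 12765436)] (nat_lit 5276329)) p13_13_3 (nat_lit 4) (nat_lit 48) (nat_lit 49) = true := by decide +kernel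
def p13_13_3_49 : pfC (piC [(nat_lit 39120232), (nat_lit 25510466), (nat_lit 18971201), (nat_lit 12765436)] (nat_lit 5276329)) p13_13_3 (nat_lit 4) (nat_lit 49) (nat_lit 50) = true := by decide +kernel
def p13_13_3_50 : pfC (piC [(nat_lit 39120232), (nat_lit 25510466), (nat_lit 18971201), (nat_lit 12765436)] (nat_lit 5276329)) p13_13_3 (nat_lit 4) (nat_lit 50) (nat_lit 51) = true := by decide +kernel
def p13_13_3_51 : pfC (piC [(nat_lit 39120232), (nat_lit 25510466), (nat_lit 18971201), (nat_lit 12765436)] (nat_lit 5276329)) p13_13_3 (nat_lit 4) (nat_lit 51) (nat_lit 52) = true := by decide +kernel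
def p13_13_3_52 : pfC (piC [(nat_lit 39120232), (nat_lit 25510466), (nat_lit 18971201), (nat_lit 12765436)] (nat_lit 5276329)) p13_13_3 (nat_lit 4) (nat_lit 52) (nat_lit 53) = true := by decide +kernel
def p13_13_3_53 : pfC (piC [(nat_lit 39120232), (nat_lit 25510466), (nat_lit 18971201), (nat_lit 12765436)] (nat_lit 5276329)) p13_13_3 (nat_lit 4) (nat_lit 53) (nat_lit 54) = true := by decide +kernel
def p13_13_3_54 : pfC (piC [(nat_lit 39120232), (nat_lit 25510466), (nat_lit 18971201), (nat_lit 12765436)] (nat_lit 5276329)) p13_13_3 (nat_lit 4) (nat_lit 54) (nat_lit 55) = true := by decide +kernel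
def p13_13_3_55 : pfC (piC [(nat_lit 39120232), (nat_lit 25510466), (nat_lit 18971201), (nat_lit 12765436)] (nat_lit 5276329)) p13_13_3 (nat_lit 4) (nat_lit 55) (nat_lit 56) = true := by decide +kernel
def p13_13_3_56 : pfC (piC [(nat_lit 39120232), (nat_lit 25510466), (nat_lit 18971201), (nat_lit 12765436)] (nat_lit 5276329)) p13_13_3 (nat_lit 4) (nat_lit 56) (nat_lit 57) = true := by decide +kernel
def p13_13_3_57 : pfC (piC [(nat_lit 39120232), (nat_lit 25510466), (nat_lit 18971201), (nat_lit 12765436)] (nat_lit 5276329)) p13_13_3 (nat_lit 4) (nat_lit 57) (nat_lit 58) = true := by decide +kernel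
def p13_13_3_58 : pfC (piC [(nat_lit 39120232), (nat_lit 25510466), (nat_lit 18971201), (nat_lit 12765436)] (nat_lit 5276329)) p13_13_3 (nat_lit 4) (nat_lit 58) (nat_lit 59) = true := by decide +kernel
def p13_13_3_59 : pfC (piC [(nat_lit 39120232), (nat_lit 25510466), (nat_lit 18971201), (nat_lit 12765436)] (nat_lit 5276329)) p13_13_3 (nat_lit 4) (nat_lit 59) (nat_lit 60) = true := by decide +kernel
def p13_13_3_60 : pfC (piC [(nat_lit 39120232), (nat_lit 25510466), (nat_lit 18971201), (nat_lit 12765436)] (nat_lit 5276329)) p13_13_3 (nat_lit 4) (nat_lit 60) (nat_lit 61) = true := by decide +kernel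
def p13_13_3_61 : pfC (piC [(nat_lit 39120232), (nat_lit 25510466), (nat_lit 18971201), (nat_lit 12765436)] (nat_lit 5276329)) p13_13_3 (nat_lit 4) (nat_lit 61) (nat_lit 62) = true := by decide +kernel
def p13_13_3_62 : pfC (piC [(nat_lit 39120232), (nat_lit 25510466), (nat_lit 18971201), (nat_lit 12765436)] (nat_lit 5276329)) p13_13_3 (nat_lit 4) (nat_lit 62) (nat_lit 63) = true := by decide +kernel
def p13_13_3_63 : pfC (piC [(nat_lit 39120232), (nat_lit 25510466), (nat_lit 18971201), (nat_lit 12765436)] (nat_lit 5276329)) p13_13_3 (nat_lit 4) (nat_lit 63) (nat_lit 64) = true := by decide +kernel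
def p13_13_3_64 : pfC (piC [(nat_lit 39120232), (nat_lit 25510466), (nat_lit 18971201), (nat_lit 12765436)] (nat_lit 5276329)) p13_13_3 (nat_lit 4) (nat_lit 64) (nat_lit 65) = true := by decide +kernel
def p13_13_3_65 : pfC (piC [(nat_lit 39120232), (nat_lit 25510466), (nat_lit 18971201), (nat_lit 12765436)] (nat_lit 5276329)) p13_13_3 (nat_lit 4) (nat_lit 65) (nat_lit 66) = true := by decide +kernel
def p13_13_3_66 : pfC (piC [(nat_lit 39120232), (nat_lit 25510466), (nat_lit 18971201), (nat_lit 12765436)] (nat_lit 5276329)) p13_13_3 (nat_lit 4) (nat_lit 66) (nat_lit 67) = true := by decide +kernel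
def p13_13_3_67 : pfC (piC [(nat_lit 39120232), (nat_lit 25510466), (nat_lit 18971201), (nat_lit 12765436)] (nat_lit 5276329)) p13_13_3 (nat_lit 4) (nat_lit 67) (nat_lit 68) = true := by decide +kernel
def p13_13_3_68 : pfC (piC [(nat_lit 39120232), (nat_lit 25510466), (nat_lit 18971201), (nat_lit 12765436)] (nat_lit 5276329)) p13_13_3 (nat_lit 4) (nat_lit 68) (nat_lit 69) = true := by decide +kernel
def p13_13_3_69 : pfC (piC [(nat_lit 39120232), (nat_lit 25510466), (nat_lit 18971201), (nat_lit 12765436)] (nat_lit 5276329)) p13_13_3 (nat_lit 4) (nat_lit 69) (nat_lit 70) = true := by decide +kernel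
def p13_13_3_70 : pfC (piC [(nat_lit 39120232), (nat_lit 25510466), (nat_lit 18971201), (nat_lit 12765436)] (nat_lit 5276329)) p13_13_3 (nat_lit 4) (nat_lit 70) (nat_lit 71) = true := by decide +kernel
def p13_13_3_71 : pfC (piC [(nat_lit 39120232), (nat_lit 25510466), (nat_lit 18971201), (nat_lit 12765436)] (nat_lit 5276329)) p13_13_3 (nat_lit 4) (nat_lit 71) (nat_lit 72) = true := by decide +kernel
def p13_13_3_72 : pfC (piC [(nat_lit 39120232), (nat_lit 25510466), (nat_lit 18971201), (nat_lit 12765436)] (nat_lit 5276329)) p13_13_3 (nat_lit 4) (nat_lit 72) (nat_lit 73) = true := by decide +kernel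
def p13_13_3_73 : pfC (piC [(nat_lit 39120232), (nat_lit 25510466), (nat_lit 18971201), (nat_lit 12765436)] (nat_lit 5276329)) p13_13_3 (nat_lit 4) (nat_lit 73) (nat_lit 74) = true := by decide +kernel
def p13_13_3_74 : pfC (piC [(nat_lit 39120232), (nat_lit 25510466), (nat_lit 18971201), (nat_lit 12765436)] (nat_lit 5276329)) p13_13_3 (nat_lit 4) (nat_lit 74) (nat_lit 75) = true := by decide +kernel
def p13_13_3_75 : pfC (piC [(nat_lit 39120232), (nat_lit 25510466), (nat_lit 18971201), (nat_lit 12765436)] (nat_lit 5276329)) p13_13_3 (nat_lit 4) (nat_lit 75) (nat_lit 76) = true := by decide +kernel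
def p13_13_3_76 : pfC (piC [(nat_lit 39120232), (nat_lit 25510466), (nat_lit 18971201), (nat_lit 12765436)] (nat_lit 5276329)) p13_13_3 (nat_lit 4) (nat_lit 76) (nat_lit 77) = true := by decide +kernel
def p13_13_3_77 : pfC (piC [(nat_lit 39120232), (nat_lit 25510466), (nat_lit 18971201), (nat_lit 12765436)] (nat_lit 5276329)) p13_13_3 (nat_lit 4) (nat_lit 77) (nat_lit 78) = true := by decide +kernel
def p13_13_3_78 : pfC (piC [(nat_lit 39120232), (nat_lit 25510466), (nat_lit 18971201), (nat_lit 12765436)] (nat_lit 5276329)) p13_13_3 (nat_lit 4) (nat_lit 78) (nat_lit 79) = true := by decide +kernel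
def p13_13_3_79 : pfC (piC [(nat_lit 39120232), (nat_lit 25510466), (nat_lit 18971201), (nat_lit 12765436)] (nat_lit 5276329)) p13_13_3 (nat_lit 4) (nat_lit 79) (nat_lit 80) = true := by decide +kernel
def p13_13_3_80 : pfC (piC [(nat_lit 39120232), (nat_lit 25510466), (nat_lit 18971201), (nat_lit 12765436)] (nat_lit 5276329)) p13_13_3 (nat_lit 4) (nat_lit 80) (nat_lit 81) = true := by decide +kernel
def p13_13_3_81 : pfC (piC [(nat_lit 39120232), (nat_lit 25510466), (nat_lit 18971201), (nat_lit 12765436)] (nat_lit 5276329)) p13_13_3 (nat_lit 4) (nat_lit 81) (nat_lit 82) = true := by decide +kernel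
def p13_13_3_82 : pfC (piC [(nat_lit 39120232), (nat_lit 25510466), (nat_lit 18971201), (nat_lit 12765436)] (nat_lit 5276329)) p13_13_3 (nat_lit 4) (nat_lit 82) (nat_lit 83) = true := by decide +kernel
def p13_13_3_83 : pfC (piC [(nat_lit 39120232), (nat_lit 25510466), (nat_lit 18971201), (nat_lit 12765436)] (nat_lit 5276329)) p13_13_3 (nat_lit 4) (nat_lit 83) (nat_lit 84) = true := by decide +kernel
def p13_13_3_84 : pfC (piC [(nat_lit 39120232), (nat_lit 25510466), (nat_lit 18971201), (nat_lit 12765436)] (nat_lit 5276329)) p13_13_3 (nat_lit 4) (nat_lit 84) (nat_lit 85) = true := by decide +kernel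
def p13_13_3_85 : pfC (piC [(nat_lit 39120232), (nat_lit 25510466), (nat_lit 18971201), (nat_lit 12765436)] (nat_lit 5276329)) p13_13_3 (nat_lit 4) (nat_lit 85) (nat_lit 86) = true := by decide +kernel
def p13_13_3_86 : pfC (piC [(nat_lit 39120232), (nat_lit 25510466), (nat_lit 18971201), (nat_lit 12765436)] (nat_lit 5276329)) p13_13_3 (nat_lit 4) (nat_lit 86) (nat_lit 87) = true := by decide +kernel
def p13_13_3_87 : pfC (piC [(nat_lit 39120232), (nat_lit 25510466), (nat_lit 18971201), (nat_lit 12765436)] (nat_lit 5276329)) p13_13_3 (nat_lit 4) (nat_lit 87) (nat_lit 88) = true := by decide +kernel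
def p13_13_3_88 : pfC (piC [(nat_lit 39120232), (nat_lit 25510466), (nat_lit 18971201), (nat_lit 12765436)] (nat_lit 5276329)) p13_13_3 (nat_lit 4) (nat_lit 88) (nat_lit 89) = true := by decide +kernel
def p13_13_3_89 : pfC (piC [(nat_lit 39120232), (nat_lit 25510466), (nat_lit 18971201), (nat_lit 12765436)] (nat_lit 5276329)) p13_13_3 (nat_lit 4) (nat_lit 89) (nat_lit 90) = true := by decide +kernel
def p13_13_3_90 : pfC (piC [(nat_lit 39120232), (nat_lit 25510466), (nat_lit 18971201), (nat_lit 12765436)] (nat_lit 5276329)) p13_13_3 (nat_lit 4) (nat_lit 90) (nat_lit 91) = true := by decide +kernel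
def p13_13_3_91 : pfC (piC [(nat_lit 39120232), (nat_lit 25510466), (nat_lit 18971201), (nat_lit 12765436)] (nat_lit 5276329)) p13_13_3 (nat_lit 4) (nat_lit 91) (nat_lit 92) = true := by decide +kernel
def p13_13_3_92 : pfC (piC [(nat_lit 39120232), (nat_lit 25510466), (nat_lit 18971201), (nat_lit 12765436)] (nat_lit 5276329)) p13_13_3 (nat_lit 4) (nat_lit 92) (nat_lit 93) = true := by decide +kernel
def p13_13_3_93 : pfC (piC [(nat_lit 39120232), (nat_lit 25510466), (nat_lit 18971201), (nat_lit 12765436)] (nat_lit 5276329)) p13_13_3 (nat_lit 4) (nat_lit 93) (nat_lit 94) = true := by decide +kernel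
def p13_13_3_94 : pfC (piC [(nat_lit 39120232), (nat_lit 25510466), (nat_lit 18971201), (nat_lit 12765436)] (nat_lit 5276329)) p13_13_3 (nat_lit 4) (nat_lit 94) (nat_lit 95) = true := by decide +kernel
def p13_13_3_95 : pfC (piC [(nat_lit 39120232), (nat_lit 25510466), (nat_lit 18971201), (nat_lit 12765436)] (nat_lit 5276329)) p13_13_3 (nat_lit 4) (nat_lit 95) (nat_lit 96) = true := by decide +kernel
def p13_13_3_96 : pfC (piC [(nat_lit 39120232), (nat_lit 25510466), (nat_lit 18971201), (nat_lit 12765436)] (nat_lit 5276329)) p13_13_3 (nat_lit 4) (nat_lit 96) (nat_lit 97) = true := by decide +kernel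
def p13_13_3_97 : pfC (piC [(nat_lit 39120232), (nat_lit 25510466), (nat_lit 18971201), (nat_lit 12765436)] (nat_lit 5276329)) p13_13_3 (nat_lit 4) (nat_lit 97) (nat_lit 98) = true := by decide +kernel
def p13_13_3_98 : pfC (piC [(nat_lit 39120232), (nat_lit 25510466), (nat_lit 18971201), (nat_lit 12765436)] (nat_lit 5276329)) p13_13_3 (nat_lit 4) (nat_lit 98) (nat_lit 99) = true := by decide +kernel
def p13_13_3_99 : pfC (piC [(nat_lit 39120232), (nat_lit 25510466), (nat_lit 18971201), (nat_lit 12765436)] (nat_lit 5276329)) p13_13_3 (nat_lit 4) (nat_lit 99) (nat_lit 100) = true := by decide +kernel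
def p13_13_3_100 : pfC (piC [(nat_lit 39120232), (nat_lit 25510466), (nat_lit 18971201), (nat_lit 12765436)] (nat_lit 5276329)) p13_13_3 (nat_lit 4) (nat_lit 100) (nat_lit 101) = true := by decide +kernel
def p13_13_3_101 : pfC (piC [(nat_lit 39120232), (nat_lit 25510466), (nat_lit 18971201), (nat_lit 12765436)] (nat_lit 5276329)) p13_13_3 (nat_lit 4) (nat_lit 101) (nat_lit 102) = true := by decide +kernel
def p13_13_3_102 : pfC (piC [(nat_lit 39120232), (nat_lit 25510466), (nat_lit 18971201), (nat_lit 12765436)] (nat_lit 5276329)) p13_13_3 (nat_lit 4) (nat_lit 102) (nat_lit 103) = true := by decide +kernel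
def p13_13_3_103 : pfC (piC [(nat_lit 39120232), (nat_lit 25510466), (nat_lit 18971201), (nat_lit 12765436)] (nat_lit 5276329)) p13_13_3 (nat_lit 4) (nat_lit 103) (nat_lit 104) = true := by decide +kernel
def p13_13_3_104 : pfC (piC [(nat_lit 39120232), (nat_lit 25510466), (nat_lit 18971201), (nat_lit 12765436)] (nat_lit 5276329)) p13_13_3 (nat_lit 4) (nat_lit 104) (nat_lit 105) = true := by decide +kernel
def p13_13_3_105 : pfC (piC [(nat_lit 39120232), (nat_lit 25510466), (nat_lit 18971201), (nat_lit 12765436)] (nat_lit 5276329)) p13_13_3 (nat_lit 4) (nat_lit 105) (nat_lit 106) = true := by decide +kernel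
def p13_13_3_106 : pfC (piC [(nat_lit 39120232), (nat_lit 25510466), (nat_lit 18971201), (nat_lit 12765436)] (nat_lit 5276329)) p13_13_3 (nat_lit 4) (nat_lit 106) (nat_lit 107) = true := by decide +kernel
def p13_13_3_107 : pfC (piC [(nat_lit 39120232), (nat_lit 25510466), (nat_lit 18971201), (nat_lit 12765436)] (nat_lit 5276329)) p13_13_3 (nat_lit 4) (nat_lit 107) (nat_lit 108) = true := by decide +kernel
def p13_13_3_108 : pfC (piC [(nat_lit 39120232), (nat_lit 25510466), (nat_lit 18971201), (nat_lit 12765436)] (nat_lit 5276329)) p13_13_3 (nat_lit 4) (nat_lit 108) (nat_lit 109) = true := by decide +kernel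
def p13_13_3_109 : pfC (piC [(nat_lit 39120232), (nat_lit 25510466), (nat_lit 18971201), (nat_lit 12765436)] (nat_lit 5276329)) p13_13_3 (nat_lit 4) (nat_lit 109) (nat_lit 110) = true := by decide +kernel
def p13_13_3_110 : pfC (piC [(nat_lit 39120232), (nat_lit 25510466), (nat_lit 18971201), (nat_lit 12765436)] (nat_lit 5276329)) p13_13_3 (nat_lit 4) (nat_lit 110) (nat_lit 111) = true := by decide +kernel
def p13_13_3_111 : pfC (piC [(nat_lit 39120232), (nat_lit 25510466), (nat_lit 18971201), (nat_lit 12765436)] (nat_lit 5276329)) p13_13_3 (nat_lit 4) (nat_lit 111) (nat_lit 112) = true := by decide +kernel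
def p13_13_3_112 : pfC (piC [(nat_lit 39120232), (nat_lit 25510466), (nat_lit 18971201), (nat_lit 12765436)] (nat_lit 5276329)) p13_13_3 (nat_lit 4) (nat_lit 112) (nat_lit 113) = true := by decide +kernel
def p13_13_3_113 : pfC (piC [(nat_lit 39120232), (nat_lit 25510466), (nat_lit 18971201), (nat_lit 12765436)] (nat_lit 5276329)) p13_13_3 (nat_lit 4) (nat_lit 113) (nat_lit 114) = true := by decide +kernel
def p13_13_3_114 : pfC (piC [(nat_lit 39120232), (nat_lit 25510466), (nat_lit 18971201), (nat_lit 12765436)] (nat_lit 5276329)) p13_13_3 (nat_lit 4) (nat_lit 114) (nat_lit 115) = true := by decide +kernel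
def p13_13_3_115 : pfC (piC [(nat_lit 39120232), (nat_lit 25510466), (nat_lit 18971201), (nat_lit 12765436)] (nat_lit 5276329)) p13_13_3 (nat_lit 4) (nat_lit 115) (nat_lit 116) = true := by decide +kernel
def p13_13_3_116 : pfC (piC [(nat_lit 39120232), (nat_lit 25510466), (nat_lit 18971201), (nat_lit 12765436)] (nat_lit 5276329)) p13_13_3 (nat_lit 4) (nat_lit 116) (nat_lit 117) = true := by decide +kernel
def p13_13_3_117 : pfC (piC [(nat_lit 39120232), (nat_lit 25510466), (nat_lit 18971201), (nat_lit 12765436)] (nat_lit 5276329)) p13_13_3 (nat_lit 4) (nat_lit 117) (nat_lit 118) = true := by decide +kernel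
def p13_13_3_118 : pfC (piC [(nat_lit 39120232), (nat_lit 25510466), (nat_lit 18971201), (nat_lit 12765436)] (nat_lit 5276329)) p13_13_3 (nat_lit 4) (nat_lit 118) (nat_lit 119) = true := by decide +kernel
def p13_13_3_119 : pfC (piC [(nat_lit 39120232), (nat_lit 25510466), (nat_lit 18971201), (nat_lit 12765436)] (nat_lit 5276329)) p13_13_3 (nat_lit 4) (nat_lit 119) (nat_lit 120) = true := by decide +kernel
def p13_13_3_120 : pfC (piC [(nat_lit 39120232), (nat_lit 25510466), (nat_lit 18971201), (nat_lit 12765436)] (nat_lit 5276329)) p13_13_3 (nat_lit 4) (nat_lit 120) (nat_lit 121) = true := by decide +kernel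
def p13_13_3_121 : pfC (piC [(nat_lit 39120232), (nat_lit 25510466), (nat_lit 18971201), (nat_lit 12765436)] (nat_lit 5276329)) p13_13_3 (nat_lit 4) (nat_lit 121) (nat_lit 122) = true := by decide +kernel
def p13_13_3_122 : pfC (piC [(nat_lit 39120232), (nat_lit 25510466), (nat_lit 18971201), (nat_lit 12765436)] (nat_lit 5276329)) p13_13_3 (nat_lit 4) (nat_lit 122) (nat_lit 123) = true := by decide +kernel
def p13_13_3_123 : pfC (piC [(nat_lit 39120232), (nat_lit 25510466), (nat_lit 18971201), (nat_lit 12765436)] (nat_lit 5276329)) p13_13_3 (nat_lit 4) (nat_lit 123) (nat_lit 124) = true := by decide +kernel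
def p13_13_3_124 : pfC (piC [(nat_lit 39120232), (nat_lit 25510466), (nat_lit 18971201), (nat_lit 12765436)] (nat_lit 5276329)) p13_13_3 (nat_lit 4) (nat_lit 124) (nat_lit 125) = true := by decide +kernel
def p13_13_3_125 : pfC (piC [(nat_lit 39120232), (nat_lit 25510466), (nat_lit 18971201), (nat_lit 12765436)] (nat_lit 5276329)) p13_13_3 (nat_lit 4) (nat_lit 125) (nat_lit 126) = true := by decide +kernel
def p13_13_3_126 : pfC (piC [(nat_lit 39120232), (nat_lit 25510466), (nat_lit 18971201), (nat_lit 12765436)] (nat_lit 5276329)) p13_13_3 (nat_lit 4) (nat_lit 126) (nat_lit 127) = true := by decide +kernel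
def p13_13_3_127 : pfC (piC [(nat_lit 39120232), (nat_lit 25510466), (nat_lit 18971201), (nat_lit 12765436)] (nat_lit 5276329)) p13_13_3 (nat_lit 4) (nat_lit 127) (nat_lit 128) = true := by decide +kernel
def p13_13_3_128 : pfC (piC [(nat_lit 39120232), (nat_lit 25510466), (nat_lit 18971201), (nat_lit 12765436)] (nat_lit 5276329)) p13_13_3 (nat_lit 4) (nat_lit 128) (nat_lit 129) = true := by decide +kernel
def p13_13_3_129 : pfC (piC [(nat_lit 39120232), (nat_lit 25510466), (nat_lit 18971201), (nat_lit 12765436)] (nat_lit 5276329)) p13_13_3 (nat_lit 4) (nat_lit 129) (nat_lit 130) = true := by decide +kernel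
def p13_13_3_130 : pfC (piC [(nat_lit 39120232), (nat_lit 25510466), (nat_lit 18971201), (nat_lit 12765436)] (nat_lit 5276329)) p13_13_3 (nat_lit 4) (nat_lit 130) (nat_lit 131) = true := by decide +kernel
def p13_13_3_131 : pfC (piC [(nat_lit 39120232), (nat_lit 25510466), (nat_lit 18971201), (nat_lit 12765436)] (nat_lit 5276329)) p13_13_3 (nat_lit 4) (nat_lit 131) (nat_lit 132) = true := by decide +kernel
def p13_13_3_132 : pfC (piC [(nat_lit 39120232), (nat_lit 25510466), (nat_lit 18971201), (nat_lit 12765436)] (nat_lit 5276329)) p13_13_3 (nat_lit 4) (nat_lit 132) (nat_lit 133) = true := by decide +kernel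
def p13_13_3_133 : pfC (piC [(nat_lit 39120232), (nat_lit 25510466), (nat_lit 18971201), (nat_lit 12765436)] (nat_lit 5276329)) p13_13_3 (nat_lit 4) (nat_lit 133) (nat_lit 134) = true := by decide +kernel
def p13_13_3_134 : pfC (piC [(nat_lit 39120232), (nat_lit 25510466), (nat_lit 18971201), (nat_lit 12765436)] (nat_lit 5276329)) p13_13_3 (nat_lit 4) (nat_lit 134) (nat_lit 135) = true := by decide +kernel
def p13_13_3_135 : pfC (piC [(nat_lit 39120232), (nat_lit 25510466), (nat_lit 18971201), (nat_lit 12765436)] (nat_lit 5276329)) p13_13_3 (nat_lit 4) (nat_lit 135) (nat_lit 136) = true := by decide +kernel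
def p13_13_3_136 : pfC (piC [(nat_lit 39120232), (nat_lit 25510466), (nat_lit 18971201), (nat_lit 12765436)] (nat_lit 5276329)) p13_13_3 (nat_lit 4) (nat_lit 136) (nat_lit 137) = true := by decide +kernel
def p13_13_3_137 : pfC (piC [(nat_lit 39120232), (nat_lit 25510466), (nat_lit 18971201), (nat_lit 12765436)] (nat_lit 5276329)) p13_13_3 (nat_lit 4) (nat_lit 137) (nat_lit 138) = true := by decide +kernel
def p13_13_3_138 : pfC (piC [(nat_lit 39120232), (nat_lit 25510466), (nat_lit 18971201), (nat_lit 12765436)] (nat_lit 5276329)) p13_13_3 (nat_lit 4) (nat_lit 138) (nat_lit 139) = true := by decide +kernel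
def p13_13_3_139 : pfC (piC [(nat_lit 39120232), (nat_lit 25510466), (nat_lit 18971201), (nat_lit 12765436)] (nat_lit 5276329)) p13_13_3 (nat_lit 4) (nat_lit 139) (nat_lit 140) = true := by decide +kernel
def p13_13_3_140 : pfC (piC [(nat_lit 39120232), (nat_lit 25510466), (nat_lit 18971201), (nat_lit 12765436)] (nat_lit 5276329)) p13_13_3 (nat_lit 4) (nat_lit 140) (nat_lit 141) = true := by decide +kernel
def p13_13_3_141 : pfC (piC [(nat_lit 39120232), (nat_lit 25510466), (nat_lit 18971201), (nat_lit 12765436)] (nat_lit 5276329)) p13_13_3 (nat_lit 4) (nat_lit 141) (nat_lit 142) = true := by decide +kernel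
def p13_13_3_142 : pfC (piC [(nat_lit 39120232), (nat_lit 25510466), (nat_lit 18971201), (nat_lit 12765436)] (nat_lit 5276329)) p13_13_3 (nat_lit 4) (nat_lit 142) (nat_lit 143) = true := by decide +kernel
def p13_13_3_143 : pfC (piC [(nat_lit 39120232), (nat_lit 25510466), (nat_lit 18971201), (nat_lit 12765436)] (nat_lit 5276329)) p13_13_3 (nat_lit 4) (nat_lit 143) (nat_lit 144) = true := by decide +kernel
def p13_13_3_144 : pfC (piC [(nat_lit 39120232), (nat_lit 25510466), (nat_lit 18971201), (nat_lit 12765436)] (nat_lit 5276329)) p13_13_3 (nat_lit 4) (nat_lit 144) (nat_lit 145) = true := by decide +kernel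
def p13_13_3_145 : pfC (piC [(nat_lit 39120232), (nat_lit 25510466), (nat_lit 18971201), (nat_lit 12765436)] (nat_lit 5276329)) p13_13_3 (nat_lit 4) (nat_lit 145) (nat_lit 146) = true := by decide +kernel
def p13_13_3_146 : pfC (piC [(nat_lit 39120232), (nat_lit 25510466), (nat_lit 18971201), (nat_lit 12765436)] (nat_lit 5276329)) p13_13_3 (nat_lit 4) (nat_lit 146) (nat_lit 147) = true := by decide +kernel
def p13_13_3_147 : pfC (piC [(nat_lit 39120232), (nat_lit 25510466), (nat_lit 18971201), (nat_lit 12765436)] (nat_lit 5276329)) p13_13_3 (nat_lit 4) (nat_lit 147) (nat_lit 148) = true := by decide +kernel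
def p13_13_3_148 : pfC (piC [(nat_lit 39120232), (nat_lit 25510466), (nat_lit 18971201), (nat_lit 12765436)] (nat_lit 5276329)) p13_13_3 (nat_lit 4) (nat_lit 148) (nat_lit 149) = true := by decide +kernel
def p13_13_3_149 : pfC (piC [(nat_lit 39120232), (nat_lit 25510466), (nat_lit 18971201), (nat_lit 12765436)] (nat_lit 5276329)) p13_13_3 (nat_lit 4) (nat_lit 149) (nat_lit 150) = true := by decide +kernel
def p13_13_3_150 : pfC (piC [(nat_lit 39120232), (nat_lit 25510466), (nat_lit 18971201), (nat_lit 12765436)] (nat_lit 5276329)) p13_13_3 (nat_lit 4) (nat_lit 150) (nat_lit 151) = true := by decide +kernel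
def p13_13_3_151 : pfC (piC [(nat_lit 39120232), (nat_lit 25510466), (nat_lit 18971201), (nat_lit 12765436)] (nat_lit 5276329)) p13_13_3 (nat_lit 4) (nat_lit 151) (nat_lit 152) = true := by decide +kernel
def p13_13_3_152 : pfC (piC [(nat_lit 39120232), (nat_lit 25510466), (nat_lit 18971201), (nat_lit 12765436)] (nat_lit 5276329)) p13_13_3 (nat_lit 4) (nat_lit 152) (nat_lit 153) = true := by decide +kernel
def p13_13_3_153 : pfC (piC [(nat_lit 39120232), (nat_lit 25510466), (nat_lit 18971201), (nat_lit 12765436)] (nat_lit 5276329)) p13_13_3 (nat_lit 4) (nat_lit 153) (nat_lit 154) = true := by decide +kernel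
def p13_13_3_154 : pfC (piC [(nat_lit 39120232), (nat_lit 25510466), (nat_lit 18971201), (nat_lit 12765436)] (nat_lit 5276329)) p13_13_3 (nat_lit 4) (nat_lit 154) (nat_lit 155) = true := by decide +kernel
def p13_13_3_155 : pfC (piC [(nat_lit 39120232), (nat_lit 25510466), (nat_lit 18971201), (nat_lit 12765436)] (nat_lit 5276329)) p13_13_3 (nat_lit 4) (nat_lit 155) (nat_lit 156) = true := by decide +kernel
def p13_13_3_156 : pfC (piC [(nat_lit 39120232), (nat_lit 25510466), (nat_lit 18971201), (nat_lit 12765436)] (nat_lit 5276329)) p13_13_3 (nat_lit 4) (nat_lit 156) (nat_lit 157) = true := by decide +kernel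
def p13_13_3_157 : pfC (piC [(nat_lit 39120232), (nat_lit 25510466), (nat_lit 18971201), (nat_lit 12765436)] (nat_lit 5276329)) p13_13_3 (nat_lit 4) (nat_lit 157) (nat_lit 158) = true := by decide +kernel
def p13_13_3_158 : pfC (piC [(nat_lit 39120232), (nat_lit 25510466), (nat_lit 18971201), (nat_lit 12765436)] (nat_lit 5276329)) p13_13_3 (nat_lit 4) (nat_lit 158) (nat_lit 159) = true := by decide +kernel
def p13_13_3_159 : pfC (piC [(nat_lit 39120232), (nat_lit 25510466), (nat_lit 18971201), (nat_lit 12765436)] (nat_lit 5276329)) p13_13_3 (nat_lit 4) (nat_lit 159) (nat_lit 160) = true := by decide +kernel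
def p13_13_3_160 : pfC (piC [(nat_lit 39120232), (nat_lit 25510466), (nat_lit 18971201), (nat_lit 12765436)] (nat_lit 5276329)) p13_13_3 (nat_lit 4) (nat_lit 160) (nat_lit 161) = true := by decide +kernel
def p13_13_3_161 : pfC (piC [(nat_lit 39120232), (nat_lit 25510466), (nat_lit 18971201), (nat_lit 12765436)] (nat_lit 5276329)) p13_13_3 (nat_lit 4) (nat_lit 161) (nat_lit 162) = true := by decide +kernel
def p13_13_3_162 : pfC (piC [(nat_lit 39120232), (nat_lit 25510466), (nat_lit 18971201), (nat_lit 12765436)] (nat_lit 5276329)) p13_13_3 (nat_lit 4) (nat_lit 162) (nat_lit 163) = true := by decide +kernel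
def p13_13_3_163 : pfC (piC [(nat_lit 39120232), (nat_lit 25510466), (nat_lit 18971201), (nat_lit 12765436)] (nat_lit 5276329)) p13_13_3 (nat_lit 4) (nat_lit 163) (nat_lit 164) = true := by decide +kernel
def p13_13_3_164 : pfC (piC [(nat_lit 39120232), (nat_lit 25510466), (nat_lit 18971201), (nat_lit 12765436)] (nat_lit 5276329)) p13_13_3 (nat_lit 4) (nat_lit 164) (nat_lit 165) = true := by decide +kernel
def p13_13_3_165 : pfC (piC [(nat_lit 39120232), (nat_lit 25510466), (nat_lit 18971201), (nat_lit 12765436)] (nat_lit 5276329)) p13_13_3 (nat_lit 4) (nat_lit 165) (nat_lit 166) = true := by decide +kernel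
def p13_13_3_166 : pfC (piC [(nat_lit 39120232), (nat_lit 25510466), (nat_lit 18971201), (nat_lit 12765436)] (nat_lit 5276329)) p13_13_3 (nat_lit 4) (nat_lit 166) (nat_lit 167) = true := by decide +kernel
theorem p13_13_3_T : PfS (PiF n13_13.reverse (nat_lit 5276329)) p13_13_3 (nat_lit 4) [] 0 :=
  pftab_of (los := [(nat_lit 39120232), (nat_lit 25510466), (nat_lit 18971201), (nat_lit 12765436)]) (by decide +kernel) (hi := (nat_lit 167)) (PfP.trans (PfP.trans (PfP.trans (PfP.trans (PfP.trans (PfP.trans (PfP.trans (PfP.trans (PfP.trans (PfP.trans (PfP.trans (PfP.trans (PfP.trans (PfP.trans (PfP.trans (PfP.trans (PfP.trans (PfP.trans (PfP.trans (PfP.trans (PfP.trans (PfP.trans (PfP.trans (PfP.trans (PfP.trans (PfP.trans (PfP.trans (PfP.trans (PfP.trans (PfP.trans (PfP.trans (PfP.trans (PfP.trans (PfP.trans (PfP.trans (PfP.trans (PfP.trans (PfP.trans (PfP.trans (PfP.trans (PfP.trans (PfP.trans (PfP.trans (PfP.trans (PfP.trans (PfP.trans (PfP.trans (PfP.trans (PfP.trans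 (PfP.trans (PfP.trans (PfP.trans (PfP.trans (PfP.trans (PfP.trans (PfP.trans (PfP.trans (PfP.trans (PfP.trans (PfP.trans (PfP.trans (PfP.trans (PfP.trans (PfP.trans (PfP.trans (PfP.trans (PfP.trans (PfP.trans (PfP.trans (PfP.trans (PfP.trans (PfP.trans (PfP.trans (PfP.trans (PfP.trans (PfP.trans (PfP.trans (PfP.trans (PfP.trans (PfP.trans (PfP.trans (PfP.trans (PfP.trans (PfP.trans (PfP.trans (PfP.trans (PfP.trans (PfP.trans (PfP.trans (PfP.trans (PfP.trans (PfP.trans (PfP.trans (PfP.trans (PfP.trans (PfP.trans (PfP.trans (PfP.trans (PfP.trans (PfP.trans (PfP.trans (PfP.trans (PfP.trans (PfP.trans (PfP.trans (PfP.trans (PfP.trans (PfP.trans (PfP.trans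
 (PfP.trans (PfP.trans (PfP.trans (PfP.trans (PfP.trans (PfP.trans (PfP.trans (PfP.trans (PfP.trans (PfP.trans (PfP.trans (PfP.trans (PfP.trans (PfP.trans (PfP.trans (PfP.trans (PfP.trans (PfP.trans (PfP.trans (PfP.trans (PfP.trans (PfP.trans (PfP.trans (PfP.trans (PfP.trans (PfP.trans (PfP.trans (PfP.trans (PfP.trans (PfP.trans (PfP.trans (PfP.trans (PfP.trans (PfP.trans (PfP.trans (PfP.trans (PfP.trans (PfP.trans (PfP.trans (PfP.trans (PfP.trans (PfP.trans (PfP.trans (PfP.trans (PfP.trans (PfP.trans (PfP.trans (PfP.trans (PfP.trans (PfP.trans (PfP.trans (PfP.trans (PfP.trans (PfP.trans (PfP.trans (PfP.trans (PfP.trans (pfC_sound p13_13_3_0) (pfC_sound p13_13_3_1)) (pfC_sound p13_13_3_2)) (pfC_sound p13_13_3_3)) (pfC_sound p13_13_3_4)) (pfC_sound p13_13_3_5)) (pfC_sound p13_13_3_6)) (pfC_sound p13_13_3_7)) (pfC_sound p13_13_3_8)) (pfC_sound p13_13_3_9)) (pfC_sound p13_13_3_10)) (pfC_sound p13_13_3_11)) (pfC_sound p13_13_3_12)) (pfC_sound p13_13_3_13)) (pfC_sound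 p13_13_3_14)) (pfC_sound p13_13_3_15)) (pfC_sound p13_13_3_16)) (pfC_sound p13_13_3_17)) (pfC_sound p13_13_3_18)) (pfC_sound p13_13_3_19)) (pfC_sound p13_13_3_20)) (pfC_sound p13_13_3_21)) (pfC_sound p13_13_3_22))
 (pfC_sound p13_13_3_23)) (pfC_sound p13_13_3_24)) (pfC_sound p13_13_3_25)) (pfC_sound p13_13_3_26)) (pfC_sound p13_13_3_27)) (pfC_sound p13_13_3_28)) (pfC_sound p13_13_3_29)) (pfC_sound p13_13_3_30)) (pfC_sound p13_13_3_31)) (pfC_sound p13_13_3_32)) (pfC_sound p13_13_3_33)) (pfC_sound p13_13_3_34)) (pfC_sound p13_13_3_35)) (pfC_sound p13_13_3_36)) (pfC_sound p13_13_3_37)) (pfC_sound p13_13_3_38)) (pfC_sound p13_13_3_39)) (pfC_sound p13_13_3_40)) (pfC_sound p13_13_3_41)) (pfC_sound p13_13_3_42)) (pfC_sound p13_13_3_43)) (pfC_sound p13_13_3_44)) (pfC_sound p13_13_3_45)) (pfC_sound p13_13_3_46)) (pfC_sound p13_13_3_47)) (pfC_sound p13_13_3_48)) (pfC_sound p13_13_3_49)) (pfC_sound p13_13_3_50)) (pfC_sound p13_13_3_51)) (pfC_sound p13_13_3_52)) (pfC_sound p13_13_3_53))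 (pfC_sound p13_13_3_54)) (pfC_sound p13_13_3_55)) (pfC_sound p13_13_3_56)) (pfC_sound p13_13_3_57)) (pfC_sound p13_13_3_58)) (pfC_sound p13_13_3_59)) (pfC_sound p13_13_3_60)) (pfC_sound p13_13_3_61)) (pfC_sound p13_13_3_62)) (pfC_sound p13_13_3_63)) (pfC_sound p13_13_3_64)) (pfC_sound p13_13_3_65)) (pfC_sound p13_13_3_66)) (pfC_sound p13_13_3_67)) (pfC_sound p13_13_3_68)) (pfC_sound p13_13_3_69)) (pfC_sound p13_13_3_70))
 (pfC_sound p13_13_3_71)) (pfC_sound p13_13_3_72)) (pfC_sound p13_13_3_73)) (pfC_sound p13_13_3_74)) (pfC_sound p13_13_3_75)) (pfC_sound p13_13_3_76)) (pfC_sound p13_13_3_77)) (pfC_sound p13_13_3_78)) (pfC_sound p13_13_3_79)) (pfC_sound p13_13_3_80)) (pfC_sound p13_13_3_81)) (pfC_sound p13_13_3_82)) (pfC_sound p13_13_3_83)) (pfC_sound p13_13_3_84)) (pfC_sound p13_13_3_85)) (pfC_sound p13_13_3_86)) (pfC_sound p13_13_3_87)) (pfC_sound p13_13_3_88)) (pfC_sound p13_13_3_89)) (pfC_sound p13_13_3_90)) (pfC_sound p13_13_3_91)) (pfC_sound p13_13_3_92)) (pfC_sound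 p13_13_3_93)) (pfC_sound p13_13_3_94)) (pfC_sound p13_13_3_95)) (pfC_sound p13_13_3_96)) (pfC_sound p13_13_3_97)) (pfC_sound p13_13_3_98)) (pfC_sound p13_13_3_99)) (pfC_sound p13_13_3_100)) (pfC_sound p13_13_3_101)) (pfC_sound p13_13_3_102)) (pfC_sound p13_13_3_103)) (pfC_sound p13_13_3_104)) (pfC_sound p13_13_3_105)) (pfC_sound p13_13_3_106)) (pfC_sound p13_13_3_107)) (pfC_sound p13_13_3_108)) (pfC_sound p13_13_3_109)) (pfC_sound p13_13_3_110)) (pfC_sound p13_13_3_111)) (pfC_sound p13_13_3_112)) (pfC_sound p13_13_3_113)) (pfC_sound p13_13_3_114)) (pfC_sound p13_13_3_115)) (pfC_sound p13_13_3_116)) (pfC_sound p13_13_3_117))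
 (pfC_sound p13_13_3_118)) (pfC_sound p13_13_3_119)) (pfC_sound p13_13_3_120)) (pfC_sound p13_13_3_121)) (pfC_sound p13_13_3_122)) (pfC_sound p13_13_3_123)) (pfC_sound p13_13_3_124)) (pfC_sound p13_13_3_125)) (pfC_sound p13_13_3_126)) (pfC_sound p13_13_3_127)) (pfC_sound p13_13_3_128)) (pfC_sound p13_13_3_129)) (pfC_sound p13_13_3_130)) (pfC_sound p13_13_3_131)) (pfC_sound p13_13_3_132)) (pfC_sound p13_13_3_133)) (pfC_sound p13_13_3_134)) (pfC_sound p13_13_3_135)) (pfC_sound p13_13_3_136)) (pfC_sound p13_13_3_137)) (pfC_sound p13_13_3_138)) (pfC_sound p13_13_3_139)) (pfC_sound p13_13_3_140)) (pfC_sound p13_13_3_141)) (pfC_sound p13_13_3_142)) (pfC_sound p13_13_3_143)) (pfC_sound p13_13_3_144)) (pfC_sound p13_13_3_145)) (pfC_sound p13_13_3_146)) (pfC_sound p13_13_3_147)) (pfC_sound p13_13_3_148)) (pfC_sound p13_13_3_149)) (pfC_sound p13_13_3_150)) (pfC_sound p13_13_3_151)) (pfC_sound p13_13_3_152)) (pfC_sound p13_13_3_153)) (pfC_sound p13_13_3_154)) (pfC_sound p13_13_3_155))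 (pfC_sound p13_13_3_156)) (pfC_sound p13_13_3_157)) (pfC_sound p13_13_3_158)) (pfC_sound p13_13_3_159)) (pfC_sound p13_13_3_160)) (pfC_sound p13_13_3_161)) (pfC_sound p13_13_3_162)) (pfC_sound p13_13_3_163))
 (pfC_sound p13_13_3_164)) (pfC_sound p13_13_3_165)) (pfC_sound p13_13_3_166)) (by decide +kernel)

def z13_13_3 : zOK yB13_13 (nat_lit 3) (nat_lit 750) (nat_lit 832) (nat_lit 5276329) (nat_lit 4604496) = true := by decide +kernel
def g13_13_3 : gOK yB13_13.x P13_13 (nat_lit 1417) (q13_13 :: r13_13) (nat_lit 3) (nat_lit 750) (nat_lit 4) (nat_lit 832) (nat_lit 12712500) (nat_lit 12712500) (nat_lit 12712500) (nat_lit 12712500) [(nat_lit 800)] = true := by decide +kernel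
def v13_13_3 : ivC P13_13 s13_13 w13_13 n13_13 (nat_lit 4) (nat_lit 4650) (nat_lit 3) (nat_lit 750) f160_1_750 f168_1_750 (nat_lit 4) (nat_lit 832) f160_1_832 f168_1_832 (nat_lit 5276329) (nat_lit 4604496) p13_13_3 = true := by decide +kernel
end CB
end Pool.Agent.Lib.MP_6947cd_al
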