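import Pool.Agent.Lib.MP_6947cd_al.L.BoxDataB
import Pool.Agent.Lib.MP_6947cd_al.L.TeD4
import Pool.Agent.Lib.MP_6947cd_al.L.TeD5

/-!
Problem MP_6947cd_al (Chollet).  CASE B, rows `j`: boxes (generated).
-/

set_option autoImplicit false
set_option linter.defProp false
set_option maxRecDepth 20000

namespace Pool.Agent.Lib.MP_6947cd_al
namespace CB

open Ent Ent.Pk Fr Fr.WT CA

/-! box `yB13_14` -/

def P13_14 : BQ := ⟨(nat_lit 8), (nat_lit 4), (nat_lit 4), (nat_lit 0), (nat_lit 8), (nat_lit 820), (nat_lit 840), (nat_lit 120), [(nat_lit 200), (nat_lit 300), (nat_lit 450), (nat_lit 800)], (nat_lit 116992000), (nat_lit 16000000), (nat_lit 16000000000)⟩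
def q13_14 : PC := ⟨(nat_lit 1000), [(nat_lit 120000), (nat_lit 200000), (nat_lit 300000), (nat_lit 450000), (nat_lit 800000)], (nat_lit 340282367000166625996085689103316680705000000), (nat_lit 15883008000000), (nat_lit 15883008000000), (nat_lit 10000000)⟩
def r13_14 : List PC := [⟨(nat_lit 1332), [(nat_lit 120678), (nat_lit 201100), (nat_lit 301348), (nat_lit 451774), (nat_lit 801674)], (nat_lit 342037883731592583247480097022975092047432665), (nat_lit 16344043844480), (nat_lit 16355654867200), (nat_lit 10056500)⟩]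
def s13_14 : List PB := [⟨(nat_lit 26640), (nat_lit 1930848000000), [(nat_lit 201100), (nat_lit 301348), (nat_lit 451774), (nat_lit 801674)], (nat_lit 342037883731592583247480097022975092047432665), (nat_lit 1142243950687104), (nat_lit 1142255561709824), (nat_lit 53120)⟩]
def n13_14 : List KN := [⟨(nat_lit 800), (nat_lit 450), (nat_lit 12552662), (nat_lit 5762536)⟩, ⟨(nat_lit 450), (nat_lit 300), (nat_lit 18643303), (nat_lit 12552662)⟩, ⟨(nat_lit 300), (nat_lit 200), (nat_lit 25010362), (nat_lit 18643303)⟩, ⟨(nat_lit 200), (nat_lit 120), (nat_lit 38167130), (nat_lit 25010362)⟩]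
def w13_14 : List ℕ := [(nat_lit 53120)]
def par13_14 : parC yB13_14 P13_14 s13_14 r13_14 q13_14 n13_14 w13_14 = true := by decide +kernel

def p13_14_0 : PF := (PF.cons (PF.cons (PF.cons (PF.cons (PF.leaf (nat_lit 677935) (nat_lit 2029687) (nat_lit 65079125) (nat_lit 2029687) [(nat_lit 0), (nat_lit 0), (nat_lit 0), (nat_lit 0)]) (PF.cons (PF.leaf (nat_lit 832193) (nat_lit 245184) (nat_lit 64770240) (nat_lit 2093388) [(nat_lit 245184), (nat_lit 0), (nat_lit 0), (nat_lit 0)]) (PF.cons (PF.leaf (nat_lit 1020199) (nat_lit 272161) (nat_lit 64401438) (nat_lit 2163052) [(nat_lit 272161), (nat_lit 0), (nat_lit 0), (nat_lit 0)]) (PF.cons (PF.leaf (nat_lit 1236359) (nat_lit 297591) (nat_lit 63980406) (nat_lit 2235631) [(nat_lit 297591), (nat_lit 0), (nat_lit 0), (nat_lit 0)]) (PF.cons (PF.leaf (nat_lit 1478272) (nat_lit 321750) (nat_lit 63512709) (nat_lit 2309102) [(nat_lit 321750), (nat_lit 0), (nat_lit 0), (nat_lit 0)]) (PF.cons (PF.leaf (nat_lit 1743847) (nat_lit 344771)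 (nat_lit 63002895) (nat_lit 2382060) [(nat_lit 344771), (nat_lit 0), (nat_lit 0), (nat_lit 0)]) (PF.cons (PF.leaf (nat_lit 2031198) (nat_lit 366722) (nat_lit 62454970) (nat_lit 2453509) [(nat_lit 366722), (nat_lit 0), (nat_lit 0), (nat_lit 0)]) (PF.cons (PF.leaf (nat_lit 2338611) (nat_lit 387637) (nat_lit 61872616) (nat_lit 2522732) [(nat_lit 387637), (nat_lit 0), (nat_lit 0),
 (nat_lit 0)]) (PF.cons (PF.leaf (nat_lit 2664333) (nat_lit 407536) (nat_lit 61259304) (nat_lit 2589214) [(nat_lit 407536), (nat_lit 0), (nat_lit 0), (nat_lit 0)]) (PF.cons (PF.leaf (nat_lit 3006768) (nat_lit 426431) (nat_lit 60618343) (nat_lit 2652586) [(nat_lit 426431), (nat_lit 0), (nat_lit 0), (nat_lit 0)]) (PF.cons PF.nil (PF.cons PF.nil PF.nil)))))))))))) (PF.cons (PF.cons (PF.leaf (nat_lit 1221139) (nat_lit 1150066) (nat_lit 63694341) (nat_lit 2264405) [(nat_lit 0), (nat_lit 1150066), (nat_lit 0), (nat_lit 0)]) (PF.cons (PF.leaf (nat_lit 1435316) (nat_lit 314934) (nat_lit 63265990) (nat_lit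 2329172) [(nat_lit 314934), (nat_lit 1198715), (nat_lit 0), (nat_lit 0)]) (PF.cons (PF.leaf (nat_lit 1677286) (nat_lit 338301) (nat_lit 62788957) (nat_lit 2395506) [(nat_lit 338301), (nat_lit 1247745), (nat_lit 0), (nat_lit 0)]) (PF.cons (PF.leaf (nat_lit 1943205) (nat_lit 360462) (nat_lit 62269403) (nat_lit 2461819) [(nat_lit 360462), (nat_lit 1296201), (nat_lit 0), (nat_lit 0)]) (PF.cons (PF.leaf (nat_lit 2230807) (nat_lit 381523) (nat_lit 61712223) (nat_lit 2527018) [(nat_lit 381523), (nat_lit 1343477), (nat_lit 0), (nat_lit 0)]) (PF.cons (PF.leaf (nat_lit 2538135) (nat_lit 401539)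
 (nat_lit 61121614) (nat_lit 2590331) [(nat_lit 401539), (nat_lit 1389168), (nat_lit 0), (nat_lit 0)]) (PF.cons (PF.leaf (nat_lit 2863363) (nat_lit 420542) (nat_lit 60501347) (nat_lit 2651208) [(nat_lit 420542), (nat_lit 1432999), (nat_lit 0), (nat_lit 0)]) (PF.cons (PF.leaf (nat_lit 3204783) (nat_lit 438553) (nat_lit 59854897) (nat_lit 2709259) [(nat_lit 438553), (nat_lit 1474783), (nat_lit 0), (nat_lit 0)]) (PF.cons (PF.leaf (nat_lit 3560773) (nat_lit 455586) (nat_lit 59185514) (nat_lit 2764211) [(nat_lit 455586), (nat_lit 1514397), (nat_lit 0), (nat_lit 0)]) (PF.cons PF.nil PF.nil)))))))))) (PF.cons (PF.cons (PF.leaf (nat_lit 1882048) (nat_lit 1300379) (nat_lit 62032247) (nat_lit 2475806) [(nat_lit 0), (nat_lit 1300379), (nat_lit 0), (nat_lit 0)]) (PF.cons (PF.leaf (nat_lit 2145293) (nat_lit 374629) (nat_lit 61509442) (nat_lit 2535643) [(nat_lit 374629), (nat_lit 1344549), (nat_lit 0), (nat_lit 0)]) (PF.cons (PF.leaf (nat_lit 2431432) (nat_lit 394953) (nat_lit 60948203)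 (nat_lit 2594834) [(nat_lit 394953), (nat_lit 1387934), (nat_lit 0), (nat_lit 0)]) (PF.cons (PF.leaf (nat_lit 2737330) (nat_lit 414190) (nat_lit 60353669) (nat_lit 2652510) [(nat_lit 414190), (nat_lit 1430031),
 (nat_lit 0), (nat_lit 0)]) (PF.cons (PF.leaf (nat_lit 3060958) (nat_lit 432395) (nat_lit 59730149) (nat_lit 2708067) [(nat_lit 432395), (nat_lit 1470507), (nat_lit 0), (nat_lit 0)]) (PF.cons (PF.leaf (nat_lit 3400478) (nat_lit 449604) (nat_lit 59081431) (nat_lit 2761080) [(nat_lit 449604), (nat_lit 1509139), (nat_lit 0), (nat_lit 0)]) (PF.cons (PF.leaf (nat_lit 3754203) (nat_lit 465843) (nat_lit 58410937) (nat_lit 2811257) [(nat_lit 465843), (nat_lit 1545778), (nat_lit 0), (nat_lit 0)]) (PF.cons PF.nil (PF.cons PF.nil PF.nil))))))))) (PF.cons (PF.cons (PF.leaf (nat_lit 2634566) (nat_lit 1429238) (nat_lit 60163645) (nat_lit 2657452) [(nat_lit 0), (nat_lit 1429238), (nat_lit 0), (nat_lit 0)]) (PF.cons (PF.leaf (nat_lit 2936896) (nat_lit 425619) (nat_lit 59569893)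 (nat_lit 2709694) [(nat_lit 425619), (nat_lit 1467868), (nat_lit 0), (nat_lit 0)]) (PF.cons (PF.leaf (nat_lit 3257715) (nat_lit 443130) (nat_lit 58946990) (nat_lit 2760165) [(nat_lit 443130), (nat_lit 1505132), (nat_lit 0), (nat_lit 0)]) (PF.cons (PF.leaf (nat_lit 3594367) (nat_lit 459624) (nat_lit 58299272) (nat_lit 2808387) [(nat_lit 459624), (nat_lit 1540760), (nat_lit 0), (nat_lit 0)]) (PF.cons (PF.leaf (nat_lit
 3945036) (nat_lit 475142) (nat_lit 57630477) (nat_lit 2854038) [(nat_lit 475142), (nat_lit 1574575), (nat_lit 0), (nat_lit 0)]) (PF.cons (PF.leaf (nat_lit 4308058) (nat_lit 489717) (nat_lit 56943924) (nat_lit 2896901) [(nat_lit 489717), (nat_lit 1606466), (nat_lit 0), (nat_lit 0)]) (PF.cons PF.nil PF.nil))))))) (PF.cons (PF.cons (PF.leaf (nat_lit 3454758) (nat_lit 1537091) (nat_lit 58152602) (nat_lit 2807844) [(nat_lit 0), (nat_lit 1537091), (nat_lit 0), (nat_lit 0)]) (PF.cons (PF.leaf (nat_lit 3786986) (nat_lit 468636) (nat_lit 57509338) (nat_lit 2851487)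 [(nat_lit 468636), (nat_lit 1569837), (nat_lit 0), (nat_lit 0)]) (PF.cons (PF.leaf (nat_lit 4133725) (nat_lit 483513) (nat_lit 56845118) (nat_lit 2892835) [(nat_lit 483513), (nat_lit 1600957), (nat_lit 0), (nat_lit 0)]) (PF.cons (PF.leaf (nat_lit 4492745) (nat_lit 497442) (nat_lit 56163578) (nat_lit 2931643) [(nat_lit 497442), (nat_lit 1630316), (nat_lit 0), (nat_lit 0)]) (PF.cons (PF.leaf (nat_lit 4862454) (nat_lit 510458) (nat_lit 55467891) (nat_lit 2967756) [(nat_lit 510458), (nat_lit 1657832), (nat_lit 0), (nat_lit 0)]) PF.nil))))) (PF.cons (PF.cons (PF.leaf (nat_lit 4321228) (nat_lit 1625086) (nat_lit 56055472) (nat_lit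
 2927909) [(nat_lit 0), (nat_lit 1625086), (nat_lit 0), (nat_lit 0)]) (PF.cons (PF.leaf (nat_lit 4675105) (nat_lit 504329) (nat_lit 55381465) (nat_lit 2962867) [(nat_lit 504329), (nat_lit 1652030), (nat_lit 0), (nat_lit 0)]) (PF.cons (PF.leaf (nat_lit 5040047) (nat_lit 516767) (nat_lit 54693513) (nat_lit 2995362) [(nat_lit 516767), (nat_lit 1677280), (nat_lit 0), (nat_lit 0)]) (PF.cons PF.nil PF.nil)))) (PF.cons (PF.cons (PF.leaf (nat_lit 5215523) (nat_lit 1694837) (nat_lit 53919920) (nat_lit 3019866) [(nat_lit 0), (nat_lit 1694837), (nat_lit 0), (nat_lit 0)]) (PF.cons (PF.leaf (nat_lit 5583952) (nat_lit 533372) (nat_lit 53230951) (nat_lit 3046578) [(nat_lit 533372), (nat_lit 1716318), (nat_lit 0), (nat_lit 0)]) PF.nil)) (PF.cons PF.nil (PF.cons PF.nil PF.nil))))))))) (PF.cons (PF.cons (PF.cons (PF.leaf (nat_lit 1842953) (nat_lit 2485098) (nat_lit 61387745) (nat_lit 2485098) [(nat_lit 0), (nat_lit 0), (nat_lit 3235968), (nat_lit 0)]) (PF.cons (PF.leaf (nat_lit 2077096)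 (nat_lit 357691) (nat_lit 60919071) (nat_lit 2538414) [(nat_lit 357691), (nat_lit 0), (nat_lit 3293636), (nat_lit 0)]) (PF.cons (PF.leaf (nat_lit 2337673) (nat_lit 379780) (nat_lit 60404251) (nat_lit 2592579)
 [(nat_lit 379780), (nat_lit 0), (nat_lit 3352420), (nat_lit 0)]) (PF.cons (PF.leaf (nat_lit 2620460) (nat_lit 400318) (nat_lit 59850684) (nat_lit 2646312) [(nat_lit 400318), (nat_lit 0), (nat_lit 3410860), (nat_lit 0)]) (PF.cons (PF.leaf (nat_lit 2922923) (nat_lit 419524) (nat_lit 59264027) (nat_lit 2698747) [(nat_lit 419524), (nat_lit 0), (nat_lit 3467940), (nat_lit 0)]) (PF.cons (PF.leaf (nat_lit 3242842) (nat_lit 437531) (nat_lit 58648926) (nat_lit 2749282) [(nat_lit 437531), (nat_lit 0), (nat_lit 3522944), (nat_lit 0)]) (PF.cons (PF.leaf (nat_lit 3578331) (nat_lit 454429) (nat_lit 58009381) (nat_lit 2797498) [(nat_lit 454429), (nat_lit 0), (nat_lit 3575356), (nat_lit 0)]) (PF.cons (PF.leaf (nat_lit 3927654) (nat_lit 470278) (nat_lit 57348941) (nat_lit 2843103)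 [(nat_lit 470278), (nat_lit 0), (nat_lit 3624816), (nat_lit 0)]) (PF.cons (PF.leaf (nat_lit 4289221) (nat_lit 485128) (nat_lit 56670807) (nat_lit 2885902) [(nat_lit 485128), (nat_lit 0), (nat_lit 3671076), (nat_lit 0)]) (PF.cons PF.nil PF.nil)))))))))) (PF.cons (PF.cons (PF.leaf (nat_lit 2541115) (nat_lit 1416434) (nat_lit 59616033) (nat_lit 2654435) [(nat_lit 0), (nat_lit 1416434), (nat_lit 3421908), (nat_lit 0)])
 (PF.cons (PF.leaf (nat_lit 2818969) (nat_lit 411269) (nat_lit 59066701) (nat_lit 2702761) [(nat_lit 411269), (nat_lit 1453835), (nat_lit 3474245), (nat_lit 0)]) (PF.cons (PF.leaf (nat_lit 3117793) (nat_lit 429900) (nat_lit 58482947) (nat_lit 2750190) [(nat_lit 429900), (nat_lit 1490255), (nat_lit 3525619), (nat_lit 0)]) (PF.cons (PF.leaf (nat_lit 3434405) (nat_lit 447278) (nat_lit 57870398) (nat_lit 2796038) [(nat_lit 447278), (nat_lit 1525306), (nat_lit 3575233), (nat_lit 0)]) (PF.cons (PF.leaf (nat_lit 3766639) (nat_lit 463521) (nat_lit 57233613) (nat_lit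 2839837) [(nat_lit 463521), (nat_lit 1558742), (nat_lit 3622534), (nat_lit 0)]) (PF.cons (PF.leaf (nat_lit 4112611) (nat_lit 478707) (nat_lit 56576460) (nat_lit 2881267) [(nat_lit 478707), (nat_lit 1590408), (nat_lit 3667140), (nat_lit 0)]) (PF.cons (PF.leaf (nat_lit 4470634) (nat_lit 492895) (nat_lit 55902322) (nat_lit 2920117) [(nat_lit 492895), (nat_lit 1620207), (nat_lit 3708789), (nat_lit 0)]) (PF.cons PF.nil (PF.cons PF.nil PF.nil))))))))) (PF.cons (PF.cons (PF.leaf (nat_lit 3314612) (nat_lit 1522360) (nat_lit 57688408) (nat_lit 2797414) [(nat_lit 0), (nat_lit 1522360), (nat_lit 3578269), (nat_lit 0)]) (PF.cons (PF.leaf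
 (nat_lit 3625991) (nat_lit 455956) (nat_lit 57082489) (nat_lit 2838737) [(nat_lit 455956), (nat_lit 1554473), (nat_lit 3622682), (nat_lit 0)]) (PF.cons (PF.leaf (nat_lit 3953863) (nat_lit 471644) (nat_lit 56451725) (nat_lit 2878309) [(nat_lit 471644), (nat_lit 1585196), (nat_lit 3665096), (nat_lit 0)]) (PF.cons (PF.leaf (nat_lit 4295627) (nat_lit 486248) (nat_lit 55800549) (nat_lit 2915767) [(nat_lit 486248), (nat_lit 1614331), (nat_lit 3705086), (nat_lit 0)]) (PF.cons (PF.leaf (nat_lit 4649444) (nat_lit 499845) (nat_lit 55132670) (nat_lit 2950873) [(nat_lit 499845), (nat_lit 1641757), (nat_lit 3742370), (nat_lit 0)]) (PF.cons (PF.leaf (nat_lit 5013703) (nat_lit 512494) (nat_lit 54451289) (nat_lit 2983475) [(nat_lit 512494), (nat_lit 1667405), (nat_lit 3776766), (nat_lit 0)]) (PF.cons PF.nil PF.nil))))))) (PF.cons (PF.cons (PF.leaf (nat_lit 4141150) (nat_lit 1609450) (nat_lit 55663955) (nat_lit 2913173) [(nat_lit 0), (nat_lit 1609450), (nat_lit 3703334), (nat_lit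 0)]) (PF.cons (PF.leaf (nat_lit 4477314) (nat_lit 492915) (nat_lit 55021655) (nat_lit 2946839) [(nat_lit 492915), (nat_lit 1636158), (nat_lit 3738926), (nat_lit 0)]) (PF.cons (PF.leaf (nat_lit 4826148) (nat_lit 505996)
 (nat_lit 54362389) (nat_lit 2978390) [(nat_lit 505996), (nat_lit 1661322), (nat_lit 3772072), (nat_lit 0)]) (PF.cons (PF.leaf (nat_lit 5185521) (nat_lit 518118) (nat_lit 53689685) (nat_lit 3007650) [(nat_lit 518118), (nat_lit 1684850), (nat_lit 3802569), (nat_lit 0)]) (PF.cons PF.nil PF.nil))))) (PF.cons (PF.cons (PF.leaf (nat_lit 5001701) (nat_lit 1679028) (nat_lit 53591693) (nat_lit 3002870) [(nat_lit 0), (nat_lit 1679028), (nat_lit 3798136), (nat_lit 0)]) (PF.cons (PF.leaf (nat_lit 5355150) (nat_lit 523023) (nat_lit 52929719) (nat_lit 3028965) [(nat_lit 523023), (nat_lit 1700538), (nat_lit 3824948), (nat_lit 0)]) (PF.cons (PF.leaf (nat_lit 5718076) (nat_lit 533780) (nat_lit 52257183) (nat_lit 3052865) [(nat_lit 533780), (nat_lit 1720497), (nat_lit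 3849213), (nat_lit 0)]) (PF.cons PF.nil PF.nil)))) (PF.cons (PF.cons (PF.leaf (nat_lit 5880397) (nat_lit 1732746) (nat_lit 51511265) (nat_lit 3068695) [(nat_lit 0), (nat_lit 1732746), (nat_lit 3865120), (nat_lit 0)]) (PF.cons (PF.leaf (nat_lit 6244864) (nat_lit 547068) (nat_lit 50843066) (nat_lit 3087713) [(nat_lit 547068), (nat_lit 1749450), (nat_lit 3883712), (nat_lit 0)]) PF.nil)) (PF.cons PF.nil (PF.cons PF.nil PF.nil))))))))
 (PF.cons (PF.cons (PF.cons (PF.leaf (nat_lit 3195564) (nat_lit 2787820) (nat_lit 57177420) (nat_lit 2787820) [(nat_lit 0), (nat_lit 0), (nat_lit 3571786), (nat_lit 0)]) (PF.cons (PF.leaf (nat_lit 3483195) (nat_lit 440676) (nat_lit 56616452) (nat_lit 2826445) [(nat_lit 440676), (nat_lit 0), (nat_lit 3612619), (nat_lit 0)]) (PF.cons (PF.leaf (nat_lit 3790113) (nat_lit 457709) (nat_lit 56024859) (nat_lit 2863997) [(nat_lit 457709), (nat_lit 0), (nat_lit 3652268), (nat_lit 0)]) (PF.cons (PF.leaf (nat_lit 4113031) (nat_lit 473378) (nat_lit 55408492)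 (nat_lit 2899943) [(nat_lit 473378), (nat_lit 0), (nat_lit 3690121), (nat_lit 0)]) (PF.cons (PF.leaf (nat_lit 4449724) (nat_lit 487845) (nat_lit 54771970) (nat_lit 2933930) [(nat_lit 487845), (nat_lit 0), (nat_lit 3725764), (nat_lit 0)]) (PF.cons (PF.leaf (nat_lit 4798307) (nat_lit 501227) (nat_lit 54119112) (nat_lit 2965725) [(nat_lit 501227), (nat_lit 0), (nat_lit 3758919), (nat_lit 0)]) (PF.cons (PF.leaf (nat_lit 5157139) (nat_lit 513606) (nat_lit 53453174) (nat_lit 2995182) [(nat_lit 513606), (nat_lit 0), (nat_lit 3789408), (nat_lit 0)]) (PF.cons PF.nil (PF.cons PF.nil PF.nil))))))))) (PF.cons (PF.cons (PF.leaf (nat_lit 3978699)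
 (nat_lit 1592843) (nat_lit 55237176) (nat_lit 2898749) [(nat_lit 0), (nat_lit 1592843), (nat_lit 3690021), (nat_lit 0)]) (PF.cons (PF.leaf (nat_lit 4295146) (nat_lit 479750) (nat_lit 54631652) (nat_lit 2930922) [(nat_lit 479750), (nat_lit 1619359), (nat_lit 3723563), (nat_lit 0)]) (PF.cons (PF.leaf (nat_lit 4626367) (nat_lit 493788) (nat_lit 54005012) (nat_lit 2961395) [(nat_lit 493788), (nat_lit 1644495), (nat_lit 3755166), (nat_lit 0)]) (PF.cons (PF.leaf (nat_lit 4969783) (nat_lit 506706) (nat_lit 53361645) (nat_lit 2989897) [(nat_lit 506706), (nat_lit 1668112), (nat_lit 3784518), (nat_lit 0)]) (PF.cons (PF.leaf (nat_lit 5323616) (nat_lit 518607) (nat_lit 52705143) (nat_lit 3016259) [(nat_lit 518607), (nat_lit 1690132), (nat_lit 3811422), (nat_lit 0)]) (PF.cons (PF.leaf (nat_lit 5686277) (nat_lit 529571) (nat_lit 52038535) (nat_lit 3040383) [(nat_lit 529571), (nat_lit 1710521), (nat_lit 3835758), (nat_lit 0)]) (PF.cons PF.nil PF.nil))))))) (PF.cons (PF.cons (PF.leaf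 (nat_lit 4803000) (nat_lit 1662427) (nat_lit 53236025) (nat_lit 2985892) [(nat_lit 0), (nat_lit 1662427), (nat_lit 3781020), (nat_lit 0)]) (PF.cons (PF.leaf (nat_lit 5140004) (nat_lit 511422) (nat_lit 52604587)
 (nat_lit 3011261) [(nat_lit 511422), (nat_lit 1684006), (nat_lit 3806764), (nat_lit 0)]) (PF.cons (PF.leaf (nat_lit 5488128) (nat_lit 522918) (nat_lit 51959449) (nat_lit 3034694) [(nat_lit 522918), (nat_lit 1704133), (nat_lit 3830283), (nat_lit 0)]) (PF.cons (PF.leaf (nat_lit 5845317) (nat_lit 533461) (nat_lit 51303974) (nat_lit 3056072) [(nat_lit 533461), (nat_lit 1722752), (nat_lit 3851438), (nat_lit 0)]) (PF.cons PF.nil PF.nil))))) (PF.cons (PF.cons (PF.leaf (nat_lit 5651629) (nat_lit 1716597) (nat_lit 51216010) (nat_lit 3050647) [(nat_lit 0), (nat_lit 1716597), (nat_lit 3846180), (nat_lit 0)]) (PF.cons (PF.leaf (nat_lit 6002400) (nat_lit 536730) (nat_lit 50573346) (nat_lit 3069432) [(nat_lit 536730), (nat_lit 1733538), (nat_lit 3864343), (nat_lit 0)]) (PF.cons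 (PF.leaf (nat_lit 6361322) (nat_lit 546028) (nat_lit 49922773) (nat_lit 3086269) [(nat_lit 546028), (nat_lit 1749065), (nat_lit 3880258), (nat_lit 0)]) (PF.cons PF.nil PF.nil)))) (PF.cons (PF.cons (PF.leaf (nat_lit 6510959) (nat_lit 1757011) (nat_lit 49209749) (nat_lit 3095163) [(nat_lit 0), (nat_lit 1757011), (nat_lit 3887926), (nat_lit 0)]) (PF.cons PF.nil PF.nil)) (PF.cons PF.nil PF.nil)))))) (PF.cons (PF.cons
 (PF.cons (PF.leaf (nat_lit 4621930) (nat_lit 2968956) (nat_lit 52847008) (nat_lit 2968956) [(nat_lit 0), (nat_lit 0), (nat_lit 3764282), (nat_lit 0)]) (PF.cons (PF.leaf (nat_lit 4940371) (nat_lit 498070) (nat_lit 52251001) (nat_lit 2993452) [(nat_lit 498070), (nat_lit 0), (nat_lit 3788762), (nat_lit 0)]) (PF.cons (PF.leaf (nat_lit 5272125) (nat_lit 510625) (nat_lit 51637048) (nat_lit 3016324) [(nat_lit 510625), (nat_lit 0), (nat_lit 3811396), (nat_lit 0)]) (PF.cons (PF.leaf (nat_lit 5614635) (nat_lit 522046) (nat_lit 51009408) (nat_lit 3037377) [(nat_lit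 522046), (nat_lit 0), (nat_lit 3831962), (nat_lit 0)]) (PF.cons (PF.leaf (nat_lit 5966146) (nat_lit 532456) (nat_lit 50371499) (nat_lit 3056498) [(nat_lit 532456), (nat_lit 0), (nat_lit 3850329), (nat_lit 0)]) (PF.cons PF.nil (PF.cons PF.nil PF.nil))))))) (PF.cons (PF.cons (PF.leaf (nat_lit 5437770) (nat_lit 1699605) (nat_lit 50894923) (nat_lit 3032431) [(nat_lit 0), (nat_lit 1699605), (nat_lit 3827284), (nat_lit 0)]) (PF.cons (PF.leaf (nat_lit 5773316) (nat_lit 525142) (nat_lit 50281193) (nat_lit 3050909) [(nat_lit 525142), (nat_lit 1716835), (nat_lit 3844910), (nat_lit 0)]) (PF.cons (PF.leaf (nat_lit 6118679) (nat_lit 535245)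
 (nat_lit 49656406) (nat_lit 3067628) [(nat_lit 535245), (nat_lit 1732713), (nat_lit 3860524), (nat_lit 0)]) (PF.cons (PF.leaf (nat_lit 6471866) (nat_lit 544412) (nat_lit 49023727) (nat_lit 3082512) [(nat_lit 544412), (nat_lit 1747210), (nat_lit 3874041), (nat_lit 0)]) (PF.cons PF.nil PF.nil))))) (PF.cons (PF.cons (PF.leaf (nat_lit 6270379) (nat_lit 1740909) (nat_lit 48945335) (nat_lit 3076732) [(nat_lit 0), (nat_lit 1740909), (nat_lit 3868308), (nat_lit 0)]) (PF.cons (PF.leaf (nat_lit 6616859) (nat_lit 546335) (nat_lit 48326703) (nat_lit 3089505) [(nat_lit 546335), (nat_lit 1754016), (nat_lit 3879411), (nat_lit 0)]) (PF.cons PF.nil (PF.cons PF.nil PF.nil)))) (PF.cons (PF.cons (PF.leaf (nat_lit 7108039) (nat_lit 1770310) (nat_lit 47024886) (nat_lit 3103922) [(nat_lit 0), (nat_lit 1770310), (nat_lit 3889690), (nat_lit 0)]) (PF.cons PF.nil PF.nil)) (PF.cons PF.nil PF.nil))))) (PF.cons (PF.cons (PF.cons (PF.leaf (nat_lit 6044369) (nat_lit 3057986) (nat_lit 48656708) (nat_lit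 3057986) [(nat_lit 0), (nat_lit 0), (nat_lit 3848529), (nat_lit 0)]) (PF.cons (PF.leaf (nat_lit 6376760) (nat_lit 534903) (nat_lit 48065186) (nat_lit 3070761) [(nat_lit 534903), (nat_lit 0), (nat_lit 3859490),
 (nat_lit 0)]) (PF.cons (PF.leaf (nat_lit 6717893) (nat_lit 543787) (nat_lit 47464722) (nat_lit 3081947) [(nat_lit 543787), (nat_lit 0), (nat_lit 3868642), (nat_lit 0)]) (PF.cons (PF.leaf (nat_lit 7065826) (nat_lit 551759) (nat_lit 46858274) (nat_lit 3091499) [(nat_lit 551759), (nat_lit 0), (nat_lit 3875939), (nat_lit 0)]) (PF.cons PF.nil PF.nil))))) (PF.cons (PF.cons (PF.leaf (nat_lit 6858293) (nat_lit 1754515) (nat_lit 46788796) (nat_lit 3085570) [(nat_lit 0), (nat_lit 1754515), (nat_lit 3869982), (nat_lit 0)]) (PF.cons (PF.leaf (nat_lit 7199380) (nat_lit 552580) (nat_lit 46197003) (nat_lit 3093416) [(nat_lit 552580), (nat_lit 1764417), (nat_lit 3875348), (nat_lit 0)]) (PF.cons PF.nil (PF.cons PF.nil PF.nil)))) (PF.cons (PF.cons (PF.leaf (nat_lit 7673046) (nat_lit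 1774829) (nat_lit 44960381) (nat_lit 3098728) [(nat_lit 0), (nat_lit 1774829), (nat_lit 3875010), (nat_lit 0)]) (PF.cons PF.nil PF.nil)) PF.nil))) (PF.cons (PF.cons (PF.cons (PF.leaf (nat_lit 7416377) (nat_lit 3080769) (nat_lit 44749973) (nat_lit 3080769) [(nat_lit 0), (nat_lit 0), (nat_lit 3855614), (nat_lit 0)]) (PF.cons (PF.leaf (nat_lit 7751307) (nat_lit 556081) (nat_lit 44186425) (nat_lit 3084593) [(nat_lit
 556081), (nat_lit 0), (nat_lit 3856342), (nat_lit 0)]) PF.nil)) (PF.cons PF.nil PF.nil)) (PF.cons PF.nil (PF.cons PF.nil (PF.cons PF.nil PF.nil))))))))) (PF.cons (PF.cons (PF.cons (PF.cons (PF.leaf (nat_lit 2987352) (nat_lit 2687673) (nat_lit 54995368) (nat_lit 2687673) [(nat_lit 0), (nat_lit 0), (nat_lit 0), (nat_lit 9425770)]) (PF.cons (PF.leaf (nat_lit 3228583) (nat_lit 394676) (nat_lit 54543667) (nat_lit 2725118) [(nat_lit 394676), (nat_lit 0), (nat_lit 0), (nat_lit 9445351)]) (PF.cons (PF.leaf (nat_lit 3493888) (nat_lit 415180) (nat_lit 54052516) (nat_lit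 2762421) [(nat_lit 415180), (nat_lit 0), (nat_lit 0), (nat_lit 9463514)]) (PF.cons (PF.leaf (nat_lit 3778816) (nat_lit 433669) (nat_lit 53529676) (nat_lit 2798714) [(nat_lit 433669), (nat_lit 0), (nat_lit 0), (nat_lit 9479413)]) (PF.cons (PF.leaf (nat_lit 4080515) (nat_lit 450494) (nat_lit 52980944) (nat_lit 2833449) [(nat_lit 450494), (nat_lit 0), (nat_lit 0), (nat_lit 9492441)]) (PF.cons (PF.leaf (nat_lit 4396694) (nat_lit 465889) (nat_lit 52410930) (nat_lit 2866274) [(nat_lit 465889), (nat_lit 0), (nat_lit 0), (nat_lit 9502160)]) (PF.cons (PF.leaf (nat_lit 4725418) (nat_lit 480021) (nat_lit 51823454) (nat_lit 2896967)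
 [(nat_lit 480021), (nat_lit 0), (nat_lit 0), (nat_lit 9508263)]) (PF.cons (PF.leaf (nat_lit 5064991) (nat_lit 493013) (nat_lit 51221775) (nat_lit 2925394) [(nat_lit 493013), (nat_lit 0), (nat_lit 0), (nat_lit 9510549)]) (PF.cons (PF.leaf (nat_lit 5413939) (nat_lit 504963) (nat_lit 50608719) (nat_lit 2951483) [(nat_lit 504963), (nat_lit 0), (nat_lit 0), (nat_lit 9508899)]) (PF.cons (PF.leaf (nat_lit 5770915) (nat_lit 515952) (nat_lit 49986774) (nat_lit 2975208) [(nat_lit 515952), (nat_lit 0), (nat_lit 0), (nat_lit 9503262)]) (PF.cons PF.nil (PF.cons PF.nil PF.nil)))))))))))) (PF.cons (PF.cons (PF.leaf (nat_lit 3679726) (nat_lit 1512860) (nat_lit 53318621) (nat_lit 2799704) [(nat_lit 0), (nat_lit 1512860), (nat_lit 0), (nat_lit 9477626)]) (PF.cons (PF.leaf (nat_lit 3957494) (nat_lit 440640) (nat_lit 52806192) (nat_lit 2831891) [(nat_lit 440640), (nat_lit 1541425), (nat_lit 0), (nat_lit 9488662)]) (PF.cons (PF.leaf (nat_lit 4253552) (nat_lit 457017) (nat_lit 52266275)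 (nat_lit 2862885) [(nat_lit 457017), (nat_lit 1568674), (nat_lit 0), (nat_lit 9496942)]) (PF.cons (PF.leaf (nat_lit 4564656) (nat_lit 471921) (nat_lit 51704356) (nat_lit 2892262) [(nat_lit 471921), (nat_lit 1594388),
 (nat_lit 0), (nat_lit 9502041)]) (PF.cons (PF.leaf (nat_lit 4888604) (nat_lit 485546) (nat_lit 51124742) (nat_lit 2919753) [(nat_lit 485546), (nat_lit 1618460), (nat_lit 0), (nat_lit 9503671)]) (PF.cons (PF.leaf (nat_lit 5223549) (nat_lit 498031) (nat_lit 50530970) (nat_lit 2945197) [(nat_lit 498031), (nat_lit 1640839), (nat_lit 0), (nat_lit 9501647)]) (PF.cons (PF.leaf (nat_lit 5567938) (nat_lit 509483) (nat_lit 49926026) (nat_lit 2968499) [(nat_lit 509483), (nat_lit 1661517), (nat_lit 0), (nat_lit 9495868)]) (PF.cons (PF.leaf (nat_lit 5920361) (nat_lit 519986) (nat_lit 49312480) (nat_lit 2989618) [(nat_lit 519986), (nat_lit 1680508), (nat_lit 0), (nat_lit 9486297)]) (PF.cons (PF.leaf (nat_lit 6279578) (nat_lit 529611) (nat_lit 48692576) (nat_lit 3008547)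 [(nat_lit 529611), (nat_lit 1697844), (nat_lit 0), (nat_lit 9472949)]) (PF.cons PF.nil PF.nil)))))))))) (PF.cons (PF.cons (PF.leaf (nat_lit 4428112) (nat_lit 1588736) (nat_lit 51546066) (nat_lit 2889300) [(nat_lit 0), (nat_lit 1588736), (nat_lit 0), (nat_lit 9495971)]) (PF.cons (PF.leaf (nat_lit 4732521) (nat_lit 477063) (nat_lit 50995284) (nat_lit 2915400) [(nat_lit 477063), (nat_lit 1612149), (nat_lit 0), (nat_lit 9496765)])
 (PF.cons (PF.leaf (nat_lit 5050813) (nat_lit 490289) (nat_lit 50425860) (nat_lit 2939867) [(nat_lit 490289), (nat_lit 1634133), (nat_lit 0), (nat_lit 9494238)]) (PF.cons (PF.leaf (nat_lit 5380509) (nat_lit 502352) (nat_lit 49841833) (nat_lit 2962502) [(nat_lit 502352), (nat_lit 1654600), (nat_lit 0), (nat_lit 9488219)]) (PF.cons (PF.leaf (nat_lit 5719835) (nat_lit 513374) (nat_lit 49246482) (nat_lit 2983186) [(nat_lit 513374), (nat_lit 1673511), (nat_lit 0), (nat_lit 9478621)]) (PF.cons (PF.leaf (nat_lit 6067310) (nat_lit 523450) (nat_lit 48642548)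 (nat_lit 3001860) [(nat_lit 523450), (nat_lit 1690865), (nat_lit 0), (nat_lit 9465418)]) (PF.cons (PF.leaf (nat_lit 6421648) (nat_lit 532657) (nat_lit 48032369) (nat_lit 3018505) [(nat_lit 532657), (nat_lit 1706678), (nat_lit 0), (nat_lit 9448632)]) (PF.cons PF.nil (PF.cons PF.nil PF.nil))))))))) (PF.cons (PF.cons (PF.leaf (nat_lit 5213226) (nat_lit 1648214) (nat_lit 49726515) (nat_lit 2957492) [(nat_lit 0), (nat_lit 1648214), (nat_lit 0), (nat_lit 9480160)]) (PF.cons (PF.leaf (nat_lit 5536472) (nat_lit 505980) (nat_lit 49154280) (nat_lit 2977474) [(nat_lit 505980), (nat_lit 1666867), (nat_lit 0), (nat_lit 9470475)]) (PF.cons (PF.leaf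
 (nat_lit 5870154) (nat_lit 516647) (nat_lit 48570113) (nat_lit 2995694) [(nat_lit 516647), (nat_lit 1684111), (nat_lit 0), (nat_lit 9457374)]) (PF.cons (PF.leaf (nat_lit 6212253) (nat_lit 526358) (nat_lit 47977054) (nat_lit 3012073) [(nat_lit 526358), (nat_lit 1699922), (nat_lit 0), (nat_lit 9440840)]) (PF.cons (PF.leaf (nat_lit 6561368) (nat_lit 535198) (nat_lit 47377617) (nat_lit 3026577) [(nat_lit 535198), (nat_lit 1714304), (nat_lit 0), (nat_lit 9420907)]) (PF.cons (PF.leaf (nat_lit 6916283) (nat_lit 543239) (nat_lit 46773932) (nat_lit 3039205) [(nat_lit 543239), (nat_lit 1727278), (nat_lit 0), (nat_lit 9397641)]) (PF.cons PF.nil PF.nil))))))) (PF.cons (PF.cons (PF.leaf (nat_lit 6019814) (nat_lit 1693409) (nat_lit 47896699) (nat_lit 3006161) [(nat_lit 0), (nat_lit 1693409), (nat_lit 0), (nat_lit 9432314)]) (PF.cons (PF.leaf (nat_lit 6355655) (nat_lit 528715) (nat_lit 47315895) (nat_lit 3020384) [(nat_lit 528715), (nat_lit 1707764), (nat_lit 0), (nat_lit 9412759)])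 (PF.cons (PF.leaf (nat_lit 6699144) (nat_lit 537245) (nat_lit 46728279) (nat_lit 3032882) [(nat_lit 537245), (nat_lit 1720798), (nat_lit 0), (nat_lit 9389969)]) (PF.cons (PF.leaf (nat_lit 7048648) (nat_lit 544971)
 (nat_lit 46136159) (nat_lit 3043640) [(nat_lit 544971), (nat_lit 1732520), (nat_lit 0), (nat_lit 9364016)]) (PF.cons PF.nil PF.nil))))) (PF.cons (PF.cons (PF.leaf (nat_lit 6835773) (nat_lit 1726229) (nat_lit 46084151) (nat_lit 3037527) [(nat_lit 0), (nat_lit 1726229), (nat_lit 0), (nat_lit 9355987)]) (PF.cons (PF.leaf (nat_lit 7179188) (nat_lit 546263) (nat_lit 45504519) (nat_lit 3046536) [(nat_lit 546263), (nat_lit 1736774), (nat_lit 0), (nat_lit 9327622)]) (PF.cons (PF.leaf (nat_lit 7528024) (nat_lit 552984) (nat_lit 44921964) (nat_lit 3053942) [(nat_lit 552984), (nat_lit 1746117), (nat_lit 0), (nat_lit 9296350)]) (PF.cons PF.nil PF.nil)))) (PF.cons (PF.cons (PF.leaf (nat_lit 7651620) (nat_lit 1748417) (nat_lit 44309099) (nat_lit 3053875) [(nat_lit 0),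 (nat_lit 1748417), (nat_lit 0), (nat_lit 9255334)]) (PF.cons PF.nil PF.nil)) (PF.cons PF.nil (PF.cons PF.nil PF.nil))))))))) (PF.cons (PF.cons (PF.cons (PF.leaf (nat_lit 4279672) (nat_lit 2870837) (nat_lit 51113988) (nat_lit 2870837) [(nat_lit 0), (nat_lit 0), (nat_lit 3656550), (nat_lit 9467436)]) (PF.cons (PF.leaf (nat_lit 4562185) (nat_lit 460178) (nat_lit 50604980) (nat_lit 2895945) [(nat_lit 460178), (nat_lit 0), (nat_lit
 3680852), (nat_lit 9466855)]) (PF.cons (PF.leaf (nat_lit 4861561) (nat_lit 475105) (nat_lit 50071561) (nat_lit 2919831) [(nat_lit 475105), (nat_lit 0), (nat_lit 3703852), (nat_lit 9463356)]) (PF.cons (PF.leaf (nat_lit 5174586) (nat_lit 488527) (nat_lit 49519159) (nat_lit 2942175) [(nat_lit 488527), (nat_lit 0), (nat_lit 3725188), (nat_lit 9456707)]) (PF.cons (PF.leaf (nat_lit 5499044) (nat_lit 500666) (nat_lit 48951960) (nat_lit 2962780) [(nat_lit 500666), (nat_lit 0), (nat_lit 3744635), (nat_lit 9446770)]) (PF.cons (PF.leaf (nat_lit 5833152)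 (nat_lit 511683) (nat_lit 48373333) (nat_lit 2981535) [(nat_lit 511683), (nat_lit 0), (nat_lit 3762053), (nat_lit 9433475)]) (PF.cons (PF.leaf (nat_lit 6175390) (nat_lit 521697) (nat_lit 47786072) (nat_lit 2998382) [(nat_lit 521697), (nat_lit 0), (nat_lit 3777367), (nat_lit 9416808)]) (PF.cons (PF.leaf (nat_lit 6524447) (nat_lit 530802) (nat_lit 47192544) (nat_lit 3013303) [(nat_lit 530802), (nat_lit 0), (nat_lit 3790549), (nat_lit 9396800)]) (PF.cons PF.nil (PF.cons PF.nil PF.nil)))))))))) (PF.cons (PF.cons (PF.leaf (nat_lit 5027375) (nat_lit 1628624) (nat_lit 49372924) (nat_lit 2937868) [(nat_lit 0), (nat_lit 1628624), (nat_lit 3721334),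
 (nat_lit 9448060)]) (PF.cons (PF.leaf (nat_lit 5333036) (nat_lit 491980) (nat_lit 48833770) (nat_lit 2957522) [(nat_lit 491980), (nat_lit 1647787), (nat_lit 3739715), (nat_lit 9438036)]) (PF.cons (PF.leaf (nat_lit 5651272) (nat_lit 503836) (nat_lit 48278642) (nat_lit 2975647) [(nat_lit 503836), (nat_lit 1665596), (nat_lit 3756412), (nat_lit 9424840)]) (PF.cons (PF.leaf (nat_lit 5979639) (nat_lit 514536) (nat_lit 47711419) (nat_lit 2992100) [(nat_lit 514536), (nat_lit 1681997), (nat_lit 3771262), (nat_lit 9408424)]) (PF.cons (PF.leaf (nat_lit 6316444) (nat_lit 524217) (nat_lit 47135196) (nat_lit 3006805) [(nat_lit 524217), (nat_lit 1696978), (nat_lit 3784175), (nat_lit 9388787)]) (PF.cons (PF.leaf (nat_lit 6660286) (nat_lit 532986) (nat_lit 46552520) (nat_lit 3019729) [(nat_lit 532986), (nat_lit 1710552), (nat_lit 3795108), (nat_lit 9365967)]) (PF.cons (PF.leaf (nat_lit 7009909) (nat_lit 540927) (nat_lit 45965530) (nat_lit 3030874) [(nat_lit 540927), (nat_lit 1722746),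 (nat_lit 3804057), (nat_lit 9340038)]) (PF.cons PF.nil (PF.cons PF.nil PF.nil))))))))) (PF.cons (PF.cons (PF.leaf (nat_lit 5803816) (nat_lit 1675327) (nat_lit 47606773) (nat_lit 2986477) [(nat_lit 0), (nat_lit
 1675327), (nat_lit 3765805), (nat_lit 9399102)]) (PF.cons (PF.leaf (nat_lit 6125353) (nat_lit 516784) (nat_lit 47052688) (nat_lit 3000762) [(nat_lit 516784), (nat_lit 1690226), (nat_lit 3778246), (nat_lit 9379877)]) (PF.cons (PF.leaf (nat_lit 6456182) (nat_lit 526203) (nat_lit 46488819) (nat_lit 3013457) [(nat_lit 526203), (nat_lit 1703827), (nat_lit 3788911), (nat_lit 9357560)]) (PF.cons (PF.leaf (nat_lit 6794382) (nat_lit 534693) (nat_lit 45918015) (nat_lit 3024511) [(nat_lit 534693), (nat_lit 1716127), (nat_lit 3797746), (nat_lit 9332203)]) (PF.cons (PF.leaf (nat_lit 7138611) (nat_lit 542349) (nat_lit 45342599) (nat_lit 3033914) [(nat_lit 542349), (nat_lit 1727140), (nat_lit 3804735), (nat_lit 9303885)]) (PF.cons PF.nil (PF.cons PF.nil PF.nil))))))) (PF.cons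 (PF.cons (PF.leaf (nat_lit 6595472) (nat_lit 1709606) (nat_lit 45846573) (nat_lit 3018445) [(nat_lit 0), (nat_lit 1709606), (nat_lit 3791698), (nat_lit 9323275)]) (PF.cons (PF.leaf (nat_lit 6927213) (nat_lit 535923) (nat_lit 45288787) (nat_lit 3027749) [(nat_lit 535923), (nat_lit 1720705), (nat_lit 3798577), (nat_lit 9295658)]) (PF.cons (PF.leaf (nat_lit 7265675) (nat_lit 543345) (nat_lit 44725818) (nat_lit 3035524)
 [(nat_lit 543345), (nat_lit 1730609), (nat_lit 3803743), (nat_lit 9265209)]) (PF.cons (PF.leaf (nat_lit 7609289) (nat_lit 550000) (nat_lit 44159787) (nat_lit 3041776) [(nat_lit 550000), (nat_lit 1739337), (nat_lit 3807199), (nat_lit 9232036)]) (PF.cons PF.nil PF.nil))))) (PF.cons (PF.cons (PF.leaf (nat_lit 7391864) (nat_lit 1733206) (nat_lit 44114877) (nat_lit 3035789) [(nat_lit 0), (nat_lit 1733206), (nat_lit 3801177), (nat_lit 9224140)]) (PF.cons (PF.leaf (nat_lit 7729349) (nat_lit 550375) (nat_lit 43561654) (nat_lit 3040631) [(nat_lit 550375), (nat_lit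 1740970), (nat_lit 3803058), (nat_lit 9189212)]) (PF.cons PF.nil (PF.cons PF.nil PF.nil)))) (PF.cons (PF.cons (PF.leaf (nat_lit 8184914) (nat_lit 1747696) (nat_lit 42427756) (nat_lit 3040540) [(nat_lit 0), (nat_lit 1747696), (nat_lit 3796507), (nat_lit 9105523)]) (PF.cons PF.nil PF.nil)) (PF.cons PF.nil (PF.cons PF.nil PF.nil)))))))) (PF.cons (PF.cons (PF.cons (PF.leaf (nat_lit 5605130) (nat_lit 2966372) (nat_lit 47287680) (nat_lit 2966372) [(nat_lit 0), (nat_lit 0), (nat_lit 3745064), (nat_lit 9364631)]) (PF.cons (PF.leaf (nat_lit 5910175) (nat_lit 503046) (nat_lit 46764653) (nat_lit 2980657) [(nat_lit 503046), (nat_lit 0),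
 (nat_lit 3757305), (nat_lit 9345844)]) (PF.cons (PF.leaf (nat_lit 6226684) (nat_lit 513688) (nat_lit 46227884) (nat_lit 2993518) [(nat_lit 513688), (nat_lit 0), (nat_lit 3767975), (nat_lit 9324082)]) (PF.cons (PF.leaf (nat_lit 6552250) (nat_lit 523190) (nat_lit 45681062) (nat_lit 3004858) [(nat_lit 523190), (nat_lit 0), (nat_lit 3776966), (nat_lit 9299386)]) (PF.cons (PF.leaf (nat_lit 6885244) (nat_lit 531703) (nat_lit 45127090) (nat_lit 3014632) [(nat_lit 531703), (nat_lit 0), (nat_lit 3784228), (nat_lit 9271820)]) (PF.cons (PF.leaf (nat_lit 7224314) (nat_lit 539339) (nat_lit 44568323) (nat_lit 3022831) [(nat_lit 539339), (nat_lit 0), (nat_lit 3789744), (nat_lit 9241468)]) (PF.cons PF.nil PF.nil))))))) (PF.cons (PF.cons (PF.leaf (nat_lit 6369535) (nat_lit 1691973) (nat_lit 45586544) (nat_lit 2998882) [(nat_lit 0), (nat_lit 1691973), (nat_lit 3771033), (nat_lit 9289345)]) (PF.cons (PF.leaf (nat_lit 6688031) (nat_lit 524303) (nat_lit 45053601) (nat_lit 3008458) [(nat_lit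 524303), (nat_lit 1703708), (nat_lit 3778084), (nat_lit 9262572)]) (PF.cons (PF.leaf (nat_lit 7014860) (nat_lit 532633) (nat_lit 44512600) (nat_lit 3016598) [(nat_lit 532633), (nat_lit 1714250), (nat_lit 3783537),
 (nat_lit 9233022)]) (PF.cons (PF.leaf (nat_lit 7348161) (nat_lit 540063) (nat_lit 43966199) (nat_lit 3023280) [(nat_lit 540063), (nat_lit 1723609), (nat_lit 3787368), (nat_lit 9200795)]) (PF.cons (PF.leaf (nat_lit 7686685) (nat_lit 546695) (nat_lit 43416539) (nat_lit 3028507) [(nat_lit 546695), (nat_lit 1731812), (nat_lit 3789581), (nat_lit 9166005)]) PF.nil))))) (PF.cons (PF.cons (PF.leaf (nat_lit 7144262) (nat_lit 1717177) (nat_lit 43902939) (nat_lit 3017208) [(nat_lit 0), (nat_lit 1717177), (nat_lit 3781261), (nat_lit 9191787)]) (PF.cons (PF.leaf (nat_lit 7471022) (nat_lit 540371) (nat_lit 43369868) (nat_lit 3022475) [(nat_lit 540371), (nat_lit 1725550), (nat_lit 3783530), (nat_lit 9157936)]) (PF.cons (PF.leaf (nat_lit 7803730) (nat_lit 546834) (nat_lit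 42832873) (nat_lit 3026390) [(nat_lit 546834), (nat_lit 1732842), (nat_lit 3784289), (nat_lit 9121615)]) (PF.cons PF.nil PF.nil)))) (PF.cons (PF.cons (PF.leaf (nat_lit 7920181) (nat_lit 1733159) (nat_lit 42255334) (nat_lit 3023182) [(nat_lit 0), (nat_lit 1733159), (nat_lit 3777728), (nat_lit 9075361)]) (PF.cons (PF.leaf (nat_lit 8251226) (nat_lit 552198) (nat_lit 41729163) (nat_lit 3024630) [(nat_lit 552198), (nat_lit 1738610),
 (nat_lit 3775751), (nat_lit 9035485)]) PF.nil)) (PF.cons PF.nil (PF.cons PF.nil PF.nil)))))) (PF.cons (PF.cons (PF.cons (PF.leaf (nat_lit 6910518) (nat_lit 2998066) (nat_lit 43670073) (nat_lit 2998066) [(nat_lit 0), (nat_lit 0), (nat_lit 3760880), (nat_lit 9158032)]) (PF.cons (PF.leaf (nat_lit 7224991) (nat_lit 529116) (nat_lit 43159987) (nat_lit 3003758) [(nat_lit 529116), (nat_lit 0), (nat_lit 3763521), (nat_lit 9125387)]) (PF.cons (PF.leaf (nat_lit 7547007) (nat_lit 536493) (nat_lit 42643229) (nat_lit 3008155) [(nat_lit 536493), (nat_lit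 0), (nat_lit 3764726), (nat_lit 9090260)]) (PF.cons (PF.leaf (nat_lit 7874758) (nat_lit 543005) (nat_lit 42122270) (nat_lit 3011255) [(nat_lit 543005), (nat_lit 0), (nat_lit 3764495), (nat_lit 9052785)]) (PF.cons PF.nil PF.nil))))) (PF.cons (PF.cons (PF.leaf (nat_lit 7667093) (nat_lit 1717809) (nat_lit 42066432) (nat_lit 3005281) [(nat_lit 0), (nat_lit 1717809), (nat_lit 3758456), (nat_lit 9043921)]) (PF.cons (PF.leaf (nat_lit 7988295) (nat_lit 542560) (nat_lit 41558790) (nat_lit 3007245) [(nat_lit 542560), (nat_lit 1723903), (nat_lit 3756989), (nat_lit 9005344)]) (PF.cons (PF.leaf (nat_lit 8314774) (nat_lit 548196) (nat_lit 41048191) (nat_lit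
 3008012) [(nat_lit 548196), (nat_lit 1729019), (nat_lit 3754192), (nat_lit 8964616)]) (PF.cons PF.nil PF.nil)))) (PF.cons (PF.cons (PF.leaf (nat_lit 8422195) (nat_lit 1727507) (nat_lit 40503482) (nat_lit 3002069) [(nat_lit 0), (nat_lit 1727507), (nat_lit 3744515), (nat_lit 8914698)]) (PF.cons (PF.leaf (nat_lit 8746518) (nat_lit 552166) (nat_lit 40004283) (nat_lit 3000765) [(nat_lit 552166), (nat_lit 1731039), (nat_lit 3739444), (nat_lit 8871185)]) PF.nil)) (PF.cons PF.nil (PF.cons PF.nil PF.nil))))) (PF.cons (PF.cons (PF.cons (PF.leaf (nat_lit 8165164) (nat_lit 2984957) (nat_lit 40335166) (nat_lit 2984957) [(nat_lit 0), (nat_lit 0), (nat_lit 3726040), (nat_lit 8884525)]) (PF.cons (PF.leaf (nat_lit 8480403) (nat_lit 542908) (nat_lit 39852969) (nat_lit 2984229) [(nat_lit 542908), (nat_lit 0), (nat_lit 3721562), (nat_lit 8842453)]) (PF.cons (PF.leaf (nat_lit 8800398) (nat_lit 547829) (nat_lit 39368556) (nat_lit 2982439) [(nat_lit 547829), (nat_lit 0), (nat_lit 3715911),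 (nat_lit 8798512)]) (PF.cons PF.nil PF.nil)))) (PF.cons (PF.cons (PF.leaf (nat_lit 8899488) (nat_lit 1717410) (nat_lit 38855588) (nat_lit 2974358) [(nat_lit 0), (nat_lit 1717410), (nat_lit 3703829), (nat_lit
 8746136)]) (PF.cons PF.nil PF.nil)) (PF.cons PF.nil PF.nil))) (PF.cons (PF.cons (PF.cons (PF.leaf (nat_lit 9353684) (nat_lit 2941590) (nat_lit 37306872) (nat_lit 2941590) [(nat_lit 0), (nat_lit 0), (nat_lit 3657509), (nat_lit 8572801)]) (PF.cons PF.nil PF.nil)) (PF.cons PF.nil PF.nil)) (PF.cons PF.nil (PF.cons PF.nil PF.nil)))))))) (PF.cons (PF.cons (PF.cons (PF.cons (PF.leaf (nat_lit 5216696) (nat_lit 2867969) (nat_lit 45896436) (nat_lit 2867969) [(nat_lit 0), (nat_lit 0), (nat_lit 0), (nat_lit 9172203)]) (PF.cons (PF.leaf (nat_lit 5490374) (nat_lit 465724) (nat_lit 45447087) (nat_lit 2884308) [(nat_lit 465724), (nat_lit 0), (nat_lit 0), (nat_lit 9155846)]) (PF.cons (PF.leaf (nat_lit 5779153) (nat_lit 478996) (nat_lit 44977884) (nat_lit 2899409) [(nat_lit 478996),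 (nat_lit 0), (nat_lit 0), (nat_lit 9136762)]) (PF.cons (PF.leaf (nat_lit 6079819) (nat_lit 490713) (nat_lit 44493646) (nat_lit 2913084) [(nat_lit 490713), (nat_lit 0), (nat_lit 0), (nat_lit 9114971)]) (PF.cons (PF.leaf (nat_lit 6390311) (nat_lit 501131) (nat_lit 43998029) (nat_lit 2925233) [(nat_lit 501131), (nat_lit 0), (nat_lit 0), (nat_lit 9090511)]) (PF.cons (PF.leaf (nat_lit 6708918) (nat_lit 510436) (nat_lit
 43493928) (nat_lit 2935814) [(nat_lit 510436), (nat_lit 0), (nat_lit 0), (nat_lit 9063442)]) (PF.cons (PF.leaf (nat_lit 7034251) (nat_lit 518768) (nat_lit 42983703) (nat_lit 2944818) [(nat_lit 518768), (nat_lit 0), (nat_lit 0), (nat_lit 9033840)]) (PF.cons (PF.leaf (nat_lit 7365119) (nat_lit 526234) (nat_lit 42469317) (nat_lit 2952266) [(nat_lit 526234), (nat_lit 0), (nat_lit 0), (nat_lit 9001794)]) (PF.cons PF.nil (PF.cons PF.nil PF.nil)))))))))) (PF.cons (PF.cons (PF.leaf (nat_lit 5925821) (nat_lit 1623462) (nat_lit 44370864) (nat_lit 2907257) [(nat_lit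 0), (nat_lit 1623462), (nat_lit 0), (nat_lit 9103614)]) (PF.cons (PF.leaf (nat_lit 6218843) (nat_lit 492273) (nat_lit 43899845) (nat_lit 2918984) [(nat_lit 492273), (nat_lit 1637666), (nat_lit 0), (nat_lit 9080021)]) (PF.cons (PF.leaf (nat_lit 6522898) (nat_lit 502519) (nat_lit 43416233) (nat_lit 2929353) [(nat_lit 502519), (nat_lit 1650588), (nat_lit 0), (nat_lit 9053799)]) (PF.cons (PF.leaf (nat_lit 6835651) (nat_lit 511616) (nat_lit 42923376) (nat_lit 2938296) [(nat_lit 511616), (nat_lit 1662223), (nat_lit 0), (nat_lit 9025032)]) (PF.cons (PF.leaf (nat_lit 7155529) (nat_lit 519722) (nat_lit 42423903) (nat_lit 2945790)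
 [(nat_lit 519722), (nat_lit 1672598), (nat_lit 0), (nat_lit 8993814)]) (PF.cons (PF.leaf (nat_lit 7481229) (nat_lit 526956) (nat_lit 41919943) (nat_lit 2951840) [(nat_lit 526956), (nat_lit 1681752), (nat_lit 0), (nat_lit 8960246)]) (PF.cons (PF.leaf (nat_lit 7811645) (nat_lit 533413) (nat_lit 41413257) (nat_lit 2956472) [(nat_lit 533413), (nat_lit 1689731), (nat_lit 0), (nat_lit 8924436)]) (PF.cons PF.nil (PF.cons PF.nil PF.nil))))))))) (PF.cons (PF.cons (PF.leaf (nat_lit 6656163) (nat_lit 1655216) (nat_lit 42837006) (nat_lit 2932043) [(nat_lit 0), (nat_lit 1655216), (nat_lit 0), (nat_lit 9014664)]) (PF.cons (PF.leaf (nat_lit 6962054) (nat_lit 512305) (nat_lit 42356692) (nat_lit 2939459) [(nat_lit 512305), (nat_lit 1665726), (nat_lit 0), (nat_lit 8984451)]) (PF.cons (PF.leaf (nat_lit 7276001) (nat_lit 520251) (nat_lit 41868924) (nat_lit 2945546) [(nat_lit 520251), (nat_lit 1675078), (nat_lit 0), (nat_lit 8951840)]) (PF.cons (PF.leaf (nat_lit 7596189) (nat_lit 527305)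 (nat_lit 41376104) (nat_lit 2950297) [(nat_lit 527305), (nat_lit 1683295), (nat_lit 0), (nat_lit 8916951)]) (PF.cons (PF.leaf (nat_lit 7921399) (nat_lit 533572) (nat_lit 40880160) (nat_lit 2953727) [(nat_lit 533572),
 (nat_lit 1690414), (nat_lit 0), (nat_lit 8879902)]) (PF.cons PF.nil (PF.cons PF.nil PF.nil))))))) (PF.cons (PF.cons (PF.leaf (nat_lit 7396543) (nat_lit 1676793) (nat_lit 41318302) (nat_lit 2944158) [(nat_lit 0), (nat_lit 1676793), (nat_lit 0), (nat_lit 8907985)]) (PF.cons (PF.leaf (nat_lit 7710449) (nat_lit 527276) (nat_lit 40837459) (nat_lit 2947703) [(nat_lit 527276), (nat_lit 1684134), (nat_lit 0), (nat_lit 8871985)]) (PF.cons (PF.leaf (nat_lit 8030129) (nat_lit 533400) (nat_lit 40352871) (nat_lit 2950018) [(nat_lit 533400), (nat_lit 1690449), (nat_lit 0), (nat_lit 8833886)]) (PF.cons (PF.leaf (nat_lit 8354125) (nat_lit 538811) (nat_lit 39866294) (nat_lit 2951126) [(nat_lit 538811), (nat_lit 1695774), (nat_lit 0), (nat_lit 8793818)]) (PF.cons PF.nil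 PF.nil))))) (PF.cons (PF.cons (PF.leaf (nat_lit 8138562) (nat_lit 1689873) (nat_lit 39831018) (nat_lit 2945398) [(nat_lit 0), (nat_lit 1689873), (nat_lit 0), (nat_lit 8786450)]) (PF.cons (PF.leaf (nat_lit 8456744) (nat_lit 538190) (nat_lit 39355881) (nat_lit 2945554) [(nat_lit 538190), (nat_lit 1694508), (nat_lit 0), (nat_lit 8745576)]) (PF.cons PF.nil (PF.cons PF.nil PF.nil)))) (PF.cons (PF.cons (PF.leaf (nat_lit 8875877) (nat_lit
 1695859) (nat_lit 38386273) (nat_lit 2937438) [(nat_lit 0), (nat_lit 1695859), (nat_lit 0), (nat_lit 8652900)]) (PF.cons PF.nil PF.nil)) PF.nil)))))) (PF.cons (PF.cons (PF.cons (PF.leaf (nat_lit 6448553) (nat_lit 2911340) (nat_lit 42576779) (nat_lit 2911340) [(nat_lit 0), (nat_lit 0), (nat_lit 3662802), (nat_lit 8978945)]) (PF.cons (PF.leaf (nat_lit 6739673) (nat_lit 498757) (nat_lit 42123002) (nat_lit 2919223) [(nat_lit 498757), (nat_lit 0), (nat_lit 3667599), (nat_lit 8950114)]) (PF.cons (PF.leaf (nat_lit 7040971) (nat_lit 507995) (nat_lit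 41658250) (nat_lit 2925855) [(nat_lit 507995), (nat_lit 0), (nat_lit 3671047), (nat_lit 8918833)]) (PF.cons (PF.leaf (nat_lit 7350125) (nat_lit 516117) (nat_lit 41185679) (nat_lit 2931198) [(nat_lit 516117), (nat_lit 0), (nat_lit 3673107), (nat_lit 8885238)]) (PF.cons (PF.leaf (nat_lit 7665625) (nat_lit 523285) (nat_lit 40707739) (nat_lit 2935248) [(nat_lit 523285), (nat_lit 0), (nat_lit 3673771), (nat_lit 8849455)]) (PF.cons (PF.leaf (nat_lit 7986255) (nat_lit 529623) (nat_lit 40226395) (nat_lit 2938020) [(nat_lit 529623), (nat_lit 0), (nat_lit 3673056), (nat_lit 8811610)]) (PF.cons PF.nil PF.nil))))))) (PF.cons (PF.cons (PF.leaf (nat_lit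
 7165873) (nat_lit 1659572) (nat_lit 41107935) (nat_lit 2924910) [(nat_lit 0), (nat_lit 1659572), (nat_lit 3666775), (nat_lit 8874809)]) (PF.cons (PF.leaf (nat_lit 7468083) (nat_lit 515992) (nat_lit 40648067) (nat_lit 2929022) [(nat_lit 515992), (nat_lit 1667720), (nat_lit 3667533), (nat_lit 8840238)]) (PF.cons (PF.leaf (nat_lit 7777621) (nat_lit 523064) (nat_lit 40181930) (nat_lit 2931938) [(nat_lit 523064), (nat_lit 1674808), (nat_lit 3666990), (nat_lit 8803508)]) (PF.cons (PF.leaf (nat_lit 8092732) (nat_lit 529280) (nat_lit 39711757) (nat_lit 2933664) [(nat_lit 529280), (nat_lit 1680868), (nat_lit 3665155), (nat_lit 8764763)]) (PF.cons (PF.leaf (nat_lit 8412255) (nat_lit 534747) (nat_lit 39239324) (nat_lit 2934225) [(nat_lit 534747), (nat_lit 1685942), (nat_lit 3662054), (nat_lit 8724137)]) PF.nil))))) (PF.cons (PF.cons (PF.leaf (nat_lit 7889905) (nat_lit 1674573) (nat_lit 39660695) (nat_lit 2927694) [(nat_lit 0), (nat_lit 1674573), (nat_lit 3659137), (nat_lit 8756069)])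 (PF.cons (PF.leaf (nat_lit 8198744) (nat_lit 528604) (nat_lit 39202414) (nat_lit 2928453) [(nat_lit 528604), (nat_lit 1679918), (nat_lit 3656276), (nat_lit 8716613)]) (PF.cons (PF.leaf (nat_lit 8512778) (nat_lit
 533979) (nat_lit 38741208) (nat_lit 2928122) [(nat_lit 533979), (nat_lit 1684335), (nat_lit 3652224), (nat_lit 8675313)]) (PF.cons PF.nil PF.nil)))) (PF.cons (PF.cons (PF.leaf (nat_lit 8613235) (nat_lit 1682228) (nat_lit 38248505) (nat_lit 2921281) [(nat_lit 0), (nat_lit 1682228), (nat_lit 3641551), (nat_lit 8625395)]) (PF.cons (PF.leaf (nat_lit 8925324) (nat_lit 537541) (nat_lit 37797172) (nat_lit 2919129) [(nat_lit 537541), (nat_lit 1685195), (nat_lit 3635540), (nat_lit 8581920)]) PF.nil)) (PF.cons PF.nil PF.nil))))) (PF.cons (PF.cons (PF.cons (PF.leaf (nat_lit 7654259) (nat_lit 2909289) (nat_lit 39472330) (nat_lit 2909289) [(nat_lit 0), (nat_lit 0), (nat_lit 3639519), (nat_lit 8724076)]) (PF.cons (PF.leaf (nat_lit 7952215) (nat_lit 517777) (nat_lit 39033365)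 (nat_lit 2910682) [(nat_lit 517777), (nat_lit 0), (nat_lit 3637284), (nat_lit 8686208)]) (PF.cons (PF.leaf (nat_lit 8256869) (nat_lit 524086) (nat_lit 38589090) (nat_lit 2910995) [(nat_lit 524086), (nat_lit 0), (nat_lit 3633878), (nat_lit 8646399)]) (PF.cons (PF.leaf (nat_lit 8566539) (nat_lit 529573) (nat_lit 38141578) (nat_lit 2910247) [(nat_lit 529573), (nat_lit 0), (nat_lit 3629323), (nat_lit 8604809)]) (PF.cons PF.nil
 PF.nil))))) (PF.cons (PF.cons (PF.leaf (nat_lit 8361429) (nat_lit 1667750) (nat_lit 38096561) (nat_lit 2904493) [(nat_lit 0), (nat_lit 1667750), (nat_lit 3623512), (nat_lit 8596491)]) (PF.cons (PF.leaf (nat_lit 8664887) (nat_lit 528371) (nat_lit 37660689) (nat_lit 2902978) [(nat_lit 528371), (nat_lit 1671424), (nat_lit 3618158), (nat_lit 8554516)]) (PF.cons (PF.leaf (nat_lit 8973042) (nat_lit 533097) (nat_lit 37222528) (nat_lit 2900491) [(nat_lit 533097), (nat_lit 1674259), (nat_lit 3611747), (nat_lit 8510921)]) (PF.cons PF.nil PF.nil)))) (PF.cons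 (PF.cons (PF.leaf (nat_lit 9066124) (nat_lit 1670928) (nat_lit 36757865) (nat_lit 2891915) [(nat_lit 0), (nat_lit 1670928), (nat_lit 3599162), (nat_lit 8459425)]) (PF.cons PF.nil PF.nil)) PF.nil))) (PF.cons (PF.cons (PF.cons (PF.leaf (nat_lit 8812256) (nat_lit 2876057) (nat_lit 36622256) (nat_lit 2876057) [(nat_lit 0), (nat_lit 0), (nat_lit 3582095), (nat_lit 8432106)]) (PF.cons (PF.leaf (nat_lit 9110123) (nat_lit 526868) (nat_lit 36208289) (nat_lit 2872688) [(nat_lit 526868), (nat_lit 0), (nat_lit 3574737), (nat_lit 8388376)]) (PF.cons PF.nil PF.nil))) (PF.cons (PF.cons (PF.leaf (nat_lit 9498571) (nat_lit 1656748) (nat_lit 35354582)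
 (nat_lit 2858537) [(nat_lit 0), (nat_lit 1656748), (nat_lit 3552405), (nat_lit 8290863)]) PF.nil) PF.nil)) (PF.cons PF.nil (PF.cons PF.nil PF.nil)))))) (PF.cons (PF.cons (PF.cons (PF.cons (PF.leaf (nat_lit 7184632) (nat_lit 2829896) (nat_lit 38593269) (nat_lit 2829896) [(nat_lit 0), (nat_lit 0), (nat_lit 0), (nat_lit 8561882)]) (PF.cons (PF.leaf (nat_lit 7462338) (nat_lit 489401) (nat_lit 38200307) (nat_lit 2833703) [(nat_lit 489401), (nat_lit 0), (nat_lit 0), (nat_lit 8528467)]) (PF.cons (PF.leaf (nat_lit 7749243) (nat_lit 497576) (nat_lit 37798291) (nat_lit 2836404) [(nat_lit 497576), (nat_lit 0), (nat_lit 0), (nat_lit 8492987)]) (PF.cons (PF.leaf (nat_lit 8043145) (nat_lit 504672) (nat_lit 37389918) (nat_lit 2837998) [(nat_lit 504672), (nat_lit 0), (nat_lit 0), (nat_lit 8455626)]) (PF.cons (PF.leaf (nat_lit 8342634) (nat_lit 510857) (nat_lit 36977263) (nat_lit 2838502) [(nat_lit 510857), (nat_lit 0), (nat_lit 0), (nat_lit 8416539)]) (PF.cons (PF.leaf (nat_lit 8646562)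 (nat_lit 516258) (nat_lit 36561976) (nat_lit 2837949) [(nat_lit 516258), (nat_lit 0), (nat_lit 0), (nat_lit 8375865)]) (PF.cons PF.nil PF.nil))))))) (PF.cons (PF.cons (PF.leaf (nat_lit 7859925) (nat_lit 1614629)
 (nat_lit 37325780) (nat_lit 2831762) [(nat_lit 0), (nat_lit 1614629), (nat_lit 0), (nat_lit 8445547)]) (PF.cons (PF.leaf (nat_lit 8147123) (nat_lit 503769) (nat_lit 36928630) (nat_lit 2832482) [(nat_lit 503769), (nat_lit 1620377), (nat_lit 0), (nat_lit 8407851)]) (PF.cons (PF.leaf (nat_lit 8440908) (nat_lit 509918) (nat_lit 36526356) (nat_lit 2832185) [(nat_lit 509918), (nat_lit 1625177), (nat_lit 0), (nat_lit 8368418)]) (PF.cons (PF.leaf (nat_lit 8739604) (nat_lit 515255) (nat_lit 36120843) (nat_lit 2830897) [(nat_lit 515255), (nat_lit 1629073), (nat_lit 0), (nat_lit 8327410)]) (PF.cons PF.nil PF.nil))))) (PF.cons (PF.cons (PF.leaf (nat_lit 8539837) (nat_lit 1623040) (nat_lit 36079423) (nat_lit 2825209) [(nat_lit 0), (nat_lit 1623040), (nat_lit 0), (nat_lit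 8319366)]) (PF.cons (PF.leaf (nat_lit 8832581) (nat_lit 513978) (nat_lit 35684257) (nat_lit 2823250) [(nat_lit 513978), (nat_lit 1626407), (nat_lit 0), (nat_lit 8278170)]) (PF.cons (PF.leaf (nat_lit 9129999) (nat_lit 518573) (nat_lit 35286719) (nat_lit 2820387) [(nat_lit 518573), (nat_lit 1628965), (nat_lit 0), (nat_lit 8235542)]) (PF.cons PF.nil PF.nil)))) (PF.cons (PF.cons (PF.leaf (nat_lit 9218148) (nat_lit 1625455)
 (nat_lit 34864424) (nat_lit 2811609) [(nat_lit 0), (nat_lit 1625455), (nat_lit 0), (nat_lit 8185470)]) (PF.cons PF.nil PF.nil)) (PF.cons PF.nil PF.nil))))) (PF.cons (PF.cons (PF.cons (PF.leaf (nat_lit 8305706) (nat_lit 2808008) (nat_lit 35926021) (nat_lit 2808008) [(nat_lit 0), (nat_lit 0), (nat_lit 3504511), (nat_lit 8290090)]) (PF.cons (PF.leaf (nat_lit 8588682) (nat_lit 503683) (nat_lit 35547103) (nat_lit 2806773) [(nat_lit 503683), (nat_lit 0), (nat_lit 3499434), (nat_lit 8250605)]) (PF.cons (PF.leaf (nat_lit 8877765) (nat_lit 509205) (nat_lit 35163758)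 (nat_lit 2804620) [(nat_lit 509205), (nat_lit 0), (nat_lit 3493377), (nat_lit 8209548)]) (PF.cons (PF.leaf (nat_lit 9171309) (nat_lit 513950) (nat_lit 34777741) (nat_lit 2801579) [(nat_lit 513950), (nat_lit 0), (nat_lit 3486377), (nat_lit 8167088)]) (PF.cons PF.nil PF.nil))))) (PF.cons (PF.cons (PF.leaf (nat_lit 8970218) (nat_lit 1611994) (nat_lit 34741217) (nat_lit 2796159) [(nat_lit 0), (nat_lit 1611994), (nat_lit 3480927), (nat_lit 8159504)]) (PF.cons (PF.leaf (nat_lit 9257899) (nat_lit 512297) (nat_lit 34365220) (nat_lit 2792591) [(nat_lit 512297), (nat_lit 1614101), (nat_lit 3473407), (nat_lit 8117064)]) (PF.cons PF.nil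
 (PF.cons PF.nil PF.nil)))) (PF.cons (PF.cons (PF.leaf (nat_lit 9631894) (nat_lit 1611129) (nat_lit 33588547) (nat_lit 2778325) [(nat_lit 0), (nat_lit 1611129), (nat_lit 3451111), (nat_lit 8022856)]) (PF.cons PF.nil PF.nil)) PF.nil))) (PF.cons (PF.cons (PF.cons (PF.leaf (nat_lit 9383106) (nat_lit 2763821) (nat_lit 33478315) (nat_lit 2763821) [(nat_lit 0), (nat_lit 0), (nat_lit 3435572), (nat_lit 7998510)]) (PF.cons (PF.leaf (nat_lit 9665612) (nat_lit 509716) (nat_lit 33120838) (nat_lit 2758944) [(nat_lit 509716), (nat_lit 0), (nat_lit 3426692), (nat_lit 7955309)]) PF.nil)) (PF.cons PF.nil PF.nil)) (PF.cons PF.nil (PF.cons PF.nil PF.nil))))) (PF.cons (PF.cons (PF.cons (PF.cons (PF.leaf (nat_lit 8886075) (nat_lit 2703061) (nat_lit 32910396) (nat_lit 2703061) [(nat_lit 0), (nat_lit 0), (nat_lit 0), (nat_lit 7873838)]) (PF.cons (PF.leaf (nat_lit 9155534) (nat_lit 488407) (nat_lit 32581549) (nat_lit 2700224) [(nat_lit 488407), (nat_lit 0), (nat_lit 0), (nat_lit 7834657)])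 (PF.cons (PF.leaf (nat_lit 9430643) (nat_lit 493330) (nat_lit 32248892) (nat_lit 2696593) [(nat_lit 493330), (nat_lit 0), (nat_lit 0), (nat_lit 7794166)]) (PF.cons PF.nil PF.nil)))) (PF.cons (PF.cons (PF.leaf (nat_lit
 9513498) (nat_lit 1554719) (nat_lit 31884069) (nat_lit 2687154) [(nat_lit 0), (nat_lit 1554719), (nat_lit 0), (nat_lit 7745717)]) (PF.cons (PF.leaf (nat_lit 9787115) (nat_lit 495603) (nat_lit 31557694) (nat_lit 2682399) [(nat_lit 495603), (nat_lit 1555794), (nat_lit 0), (nat_lit 7704330)]) PF.nil)) (PF.cons PF.nil PF.nil))) (PF.cons (PF.cons (PF.cons (PF.leaf (nat_lit 9895316) (nat_lit 2653333) (nat_lit 30794558) (nat_lit 2653333) [(nat_lit 0), (nat_lit 0), (nat_lit 3292497), (nat_lit 7592105)]) (PF.cons PF.nil PF.nil)) (PF.cons PF.nil PF.nil)) (PF.cons PF.nil PF.nil))) (PF.cons (PF.cons (PF.cons (PF.cons (PF.leaf (nat_lit 10361329) (nat_lit 2547152) (nat_lit 28484453) (nat_lit 2547152) [(nat_lit 0), (nat_lit 0), (nat_lit 0), (nat_lit 7215441)]) (PF.cons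 PF.nil PF.nil)) (PF.cons PF.nil PF.nil)) (PF.cons PF.nil PF.nil)) (PF.cons PF.nil (PF.cons PF.nil (PF.cons PF.nil PF.nil)))))))))

def p13_14_0_0 : pfC (piC [(nat_lit 38167130), (nat_lit 25010362), (nat_lit 18643303), (nat_lit 12552662)] (nat_lit 23859669)) p13_14_0 (nat_lit 4) (nat_lit 0) (nat_lit 1) = true := by decide +kernel
def p13_14_0_1 : pfC (piC [(nat_lit 38167130), (nat_lit 25010362), (nat_lit 18643303), (nat_lit 12552662)] (nat_lit 23859669)) p13_14_0 (nat_lit 4) (nat_lit 1) (nat_lit 2) = true := by decide +kernel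
def p13_14_0_2 : pfC (piC [(nat_lit 38167130), (nat_lit 25010362), (nat_lit 18643303), (nat_lit 12552662)] (nat_lit 23859669)) p13_14_0 (nat_lit 4) (nat_lit 2) (nat_lit 3) = true := by decide +kernel
def p13_14_0_3 : pfC (piC [(nat_lit 38167130), (nat_lit 25010362), (nat_lit 18643303), (nat_lit 12552662)] (nat_lit 23859669)) p13_14_0 (nat_lit 4) (nat_lit 3) (nat_lit 4) = true := by decide +kernel
def p13_14_0_4 : pfC (piC [(nat_lit 38167130), (nat_lit 25010362), (nat_lit 18643303), (nat_lit 12552662)] (nat_lit 23859669)) p13_14_0 (nat_lit 4) (nat_lit 4) (nat_lit 5) = true := by decide +kernel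
def p13_14_0_5 : pfC (piC [(nat_lit 38167130), (nat_lit 25010362), (nat_lit 18643303), (nat_lit 12552662)] (nat_lit 23859669)) p13_14_0 (nat_lit 4) (nat_lit 5) (nat_lit 6) = true := by decide +kernel
def p13_14_0_6 : pfC (piC [(nat_lit 38167130), (nat_lit 25010362), (nat_lit 18643303), (nat_lit 12552662)] (nat_lit 23859669)) p13_14_0 (nat_lit 4) (nat_lit 6) (nat_lit 7) = true := by decide +kernel
def p13_14_0_7 : pfC (piC [(nat_lit 38167130), (nat_lit 25010362), (nat_lit 18643303), (nat_lit 12552662)] (nat_lit 23859669)) p13_14_0 (nat_lit 4) (nat_lit 7) (nat_lit 8) = true := by decide +kernel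
def p13_14_0_8 : pfC (piC [(nat_lit 38167130), (nat_lit 25010362), (nat_lit 18643303), (nat_lit 12552662)] (nat_lit 23859669)) p13_14_0 (nat_lit 4) (nat_lit 8) (nat_lit 9) = true := by decide +kernel
def p13_14_0_9 : pfC (piC [(nat_lit 38167130), (nat_lit 25010362), (nat_lit 18643303), (nat_lit 12552662)] (nat_lit 23859669)) p13_14_0 (nat_lit 4) (nat_lit 9) (nat_lit 10) = true := by decide +kernel
def p13_14_0_10 : pfC (piC [(nat_lit 38167130), (nat_lit 25010362), (nat_lit 18643303), (nat_lit 12552662)] (nat_lit 23859669)) p13_14_0 (nat_lit 4) (nat_lit 10) (nat_lit 11) = true := by decide +kernel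
def p13_14_0_11 : pfC (piC [(nat_lit 38167130), (nat_lit 25010362), (nat_lit 18643303), (nat_lit 12552662)] (nat_lit 23859669)) p13_14_0 (nat_lit 4) (nat_lit 11) (nat_lit 12) = true := by decide +kernel
def p13_14_0_12 : pfC (piC [(nat_lit 38167130), (nat_lit 25010362), (nat_lit 18643303), (nat_lit 12552662)] (nat_lit 23859669)) p13_14_0 (nat_lit 4) (nat_lit 12) (nat_lit 13) = true := by decide +kernel
def p13_14_0_13 : pfC (piC [(nat_lit 38167130), (nat_lit 25010362), (nat_lit 18643303), (nat_lit 12552662)] (nat_lit 23859669)) p13_14_0 (nat_lit 4) (nat_lit 13) (nat_lit 14) = true := by decide +kernel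
def p13_14_0_14 : pfC (piC [(nat_lit 38167130), (nat_lit 25010362), (nat_lit 18643303), (nat_lit 12552662)] (nat_lit 23859669)) p13_14_0 (nat_lit 4) (nat_lit 14) (nat_lit 15) = true := by decide +kernel
def p13_14_0_15 : pfC (piC [(nat_lit 38167130), (nat_lit 25010362), (nat_lit 18643303), (nat_lit 12552662)] (nat_lit 23859669)) p13_14_0 (nat_lit 4) (nat_lit 15) (nat_lit 16) = true := by decide +kernel
def p13_14_0_16 : pfC (piC [(nat_lit 38167130), (nat_lit 25010362), (nat_lit 18643303), (nat_lit 12552662)] (nat_lit 23859669)) p13_14_0 (nat_lit 4) (nat_lit 16) (nat_lit 17) = true := by decide +kernel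
def p13_14_0_17 : pfC (piC [(nat_lit 38167130), (nat_lit 25010362), (nat_lit 18643303), (nat_lit 12552662)] (nat_lit 23859669)) p13_14_0 (nat_lit 4) (nat_lit 17) (nat_lit 18) = true := by decide +kernel
def p13_14_0_18 : pfC (piC [(nat_lit 38167130), (nat_lit 25010362), (nat_lit 18643303), (nat_lit 12552662)] (nat_lit 23859669)) p13_14_0 (nat_lit 4) (nat_lit 18) (nat_lit 19) = true := by decide +kernel
def p13_14_0_19 : pfC (piC [(nat_lit 38167130), (nat_lit 25010362), (nat_lit 18643303), (nat_lit 12552662)] (nat_lit 23859669)) p13_14_0 (nat_lit 4) (nat_lit 19) (nat_lit 20) = true := by decide +kernel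
def p13_14_0_20 : pfC (piC [(nat_lit 38167130), (nat_lit 25010362), (nat_lit 18643303), (nat_lit 12552662)] (nat_lit 23859669)) p13_14_0 (nat_lit 4) (nat_lit 20) (nat_lit 21) = true := by decide +kernel
def p13_14_0_21 : pfC (piC [(nat_lit 38167130), (nat_lit 25010362), (nat_lit 18643303), (nat_lit 12552662)] (nat_lit 23859669)) p13_14_0 (nat_lit 4) (nat_lit 21) (nat_lit 22) = true := by decide +kernel
def p13_14_0_22 : pfC (piC [(nat_lit 38167130), (nat_lit 25010362), (nat_lit 18643303), (nat_lit 12552662)] (nat_lit 23859669)) p13_14_0 (nat_lit 4) (nat_lit 22) (nat_lit 23) = true := by decide +kernel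
def p13_14_0_23 : pfC (piC [(nat_lit 38167130), (nat_lit 25010362), (nat_lit 18643303), (nat_lit 12552662)] (nat_lit 23859669)) p13_14_0 (nat_lit 4) (nat_lit 23) (nat_lit 24) = true := by decide +kernel
def p13_14_0_24 : pfC (piC [(nat_lit 38167130), (nat_lit 25010362), (nat_lit 18643303), (nat_lit 12552662)] (nat_lit 23859669)) p13_14_0 (nat_lit 4) (nat_lit 24) (nat_lit 25) = true := by decide +kernel
def p13_14_0_25 : pfC (piC [(nat_lit 38167130), (nat_lit 25010362), (nat_lit 18643303), (nat_lit 12552662)] (nat_lit 23859669)) p13_14_0 (nat_lit 4) (nat_lit 25) (nat_lit 26) = true := by decide +kernel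
def p13_14_0_26 : pfC (piC [(nat_lit 38167130), (nat_lit 25010362), (nat_lit 18643303), (nat_lit 12552662)] (nat_lit 23859669)) p13_14_0 (nat_lit 4) (nat_lit 26) (nat_lit 27) = true := by decide +kernel
def p13_14_0_27 : pfC (piC [(nat_lit 38167130), (nat_lit 25010362), (nat_lit 18643303), (nat_lit 12552662)] (nat_lit 23859669)) p13_14_0 (nat_lit 4) (nat_lit 27) (nat_lit 28) = true := by decide +kernel
def p13_14_0_28 : pfC (piC [(nat_lit 38167130), (nat_lit 25010362), (nat_lit 18643303), (nat_lit 12552662)] (nat_lit 23859669)) p13_14_0 (nat_lit 4) (nat_lit 28) (nat_lit 29) = true := by decide +kernel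
def p13_14_0_29 : pfC (piC [(nat_lit 38167130), (nat_lit 25010362), (nat_lit 18643303), (nat_lit 12552662)] (nat_lit 23859669)) p13_14_0 (nat_lit 4) (nat_lit 29) (nat_lit 30) = true := by decide +kernel
def p13_14_0_30 : pfC (piC [(nat_lit 38167130), (nat_lit 25010362), (nat_lit 18643303), (nat_lit 12552662)] (nat_lit 23859669)) p13_14_0 (nat_lit 4) (nat_lit 30) (nat_lit 31) = true := by decide +kernel
def p13_14_0_31 : pfC (piC [(nat_lit 38167130), (nat_lit 25010362), (nat_lit 18643303), (nat_lit 12552662)] (nat_lit 23859669)) p13_14_0 (nat_lit 4) (nat_lit 31) (nat_lit 32) = true := by decide +kernel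
def p13_14_0_32 : pfC (piC [(nat_lit 38167130), (nat_lit 25010362), (nat_lit 18643303), (nat_lit 12552662)] (nat_lit 23859669)) p13_14_0 (nat_lit 4) (nat_lit 32) (nat_lit 33) = true := by decide +kernel
def p13_14_0_33 : pfC (piC [(nat_lit 38167130), (nat_lit 25010362), (nat_lit 18643303), (nat_lit 12552662)] (nat_lit 23859669)) p13_14_0 (nat_lit 4) (nat_lit 33) (nat_lit 34) = true := by decide +kernel
def p13_14_0_34 : pfC (piC [(nat_lit 38167130), (nat_lit 25010362), (nat_lit 18643303), (nat_lit 12552662)] (nat_lit 23859669)) p13_14_0 (nat_lit 4) (nat_lit 34) (nat_lit 35) = true := by decide +kernel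
def p13_14_0_35 : pfC (piC [(nat_lit 38167130), (nat_lit 25010362), (nat_lit 18643303), (nat_lit 12552662)] (nat_lit 23859669)) p13_14_0 (nat_lit 4) (nat_lit 35) (nat_lit 36) = true := by decide +kernel
def p13_14_0_36 : pfC (piC [(nat_lit 38167130), (nat_lit 25010362), (nat_lit 18643303), (nat_lit 12552662)] (nat_lit 23859669)) p13_14_0 (nat_lit 4) (nat_lit 36) (nat_lit 37) = true := by decide +kernel
def p13_14_0_37 : pfC (piC [(nat_lit 38167130), (nat_lit 25010362), (nat_lit 18643303), (nat_lit 12552662)] (nat_lit 23859669)) p13_14_0 (nat_lit 4) (nat_lit 37) (nat_lit 38) = true := by decide +kernel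
def p13_14_0_38 : pfC (piC [(nat_lit 38167130), (nat_lit 25010362), (nat_lit 18643303), (nat_lit 12552662)] (nat_lit 23859669)) p13_14_0 (nat_lit 4) (nat_lit 38) (nat_lit 39) = true := by decide +kernel
def p13_14_0_39 : pfC (piC [(nat_lit 38167130), (nat_lit 25010362), (nat_lit 18643303), (nat_lit 12552662)] (nat_lit 23859669)) p13_14_0 (nat_lit 4) (nat_lit 39) (nat_lit 40) = true := by decide +kernel
def p13_14_0_40 : pfC (piC [(nat_lit 38167130), (nat_lit 25010362), (nat_lit 18643303), (nat_lit 12552662)] (nat_lit 23859669)) p13_14_0 (nat_lit 4) (nat_lit 40) (nat_lit 41) = true := by decide +kernel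
def p13_14_0_41 : pfC (piC [(nat_lit 38167130), (nat_lit 25010362), (nat_lit 18643303), (nat_lit 12552662)] (nat_lit 23859669)) p13_14_0 (nat_lit 4) (nat_lit 41) (nat_lit 42) = true := by decide +kernel
def p13_14_0_42 : pfC (piC [(nat_lit 38167130), (nat_lit 25010362), (nat_lit 18643303), (nat_lit 12552662)] (nat_lit 23859669)) p13_14_0 (nat_lit 4) (nat_lit 42) (nat_lit 43) = true := by decide +kernel
def p13_14_0_43 : pfC (piC [(nat_lit 38167130), (nat_lit 25010362), (nat_lit 18643303), (nat_lit 12552662)] (nat_lit 23859669)) p13_14_0 (nat_lit 4) (nat_lit 43) (nat_lit 44) = true := by decide +kernel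
def p13_14_0_44 : pfC (piC [(nat_lit 38167130), (nat_lit 25010362), (nat_lit 18643303), (nat_lit 12552662)] (nat_lit 23859669)) p13_14_0 (nat_lit 4) (nat_lit 44) (nat_lit 45) = true := by decide +kernel
def p13_14_0_45 : pfC (piC [(nat_lit 38167130), (nat_lit 25010362), (nat_lit 18643303), (nat_lit 12552662)] (nat_lit 23859669)) p13_14_0 (nat_lit 4) (nat_lit 45) (nat_lit 46) = true := by decide +kernel
def p13_14_0_46 : pfC (piC [(nat_lit 38167130), (nat_lit 25010362), (nat_lit 18643303), (nat_lit 12552662)] (nat_lit 23859669)) p13_14_0 (nat_lit 4) (nat_lit 46) (nat_lit 47) = true := by decide +kernel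
def p13_14_0_47 : pfC (piC [(nat_lit 38167130), (nat_lit 25010362), (nat_lit 18643303), (nat_lit 12552662)] (nat_lit 23859669)) p13_14_0 (nat_lit 4) (nat_lit 47) (nat_lit 48) = true := by decide +kernel
def p13_14_0_48 : pfC (piC [(nat_lit 38167130), (nat_lit 25010362), (nat_lit 18643303), (nat_lit 12552662)] (nat_lit 23859669)) p13_14_0 (nat_lit 4) (nat_lit 48) (nat_lit 49) = true := by decide +kernel
def p13_14_0_49 : pfC (piC [(nat_lit 38167130), (nat_lit 25010362), (nat_lit 18643303), (nat_lit 12552662)] (nat_lit 23859669)) p13_14_0 (nat_lit 4) (nat_lit 49) (nat_lit 50) = true := by decide +kernel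
def p13_14_0_50 : pfC (piC [(nat_lit 38167130), (nat_lit 25010362), (nat_lit 18643303), (nat_lit 12552662)] (nat_lit 23859669)) p13_14_0 (nat_lit 4) (nat_lit 50) (nat_lit 51) = true := by decide +kernel
def p13_14_0_51 : pfC (piC [(nat_lit 38167130), (nat_lit 25010362), (nat_lit 18643303), (nat_lit 12552662)] (nat_lit 23859669)) p13_14_0 (nat_lit 4) (nat_lit 51) (nat_lit 52) = true := by decide +kernel
def p13_14_0_52 : pfC (piC [(nat_lit 38167130), (nat_lit 25010362), (nat_lit 18643303), (nat_lit 12552662)] (nat_lit 23859669)) p13_14_0 (nat_lit 4) (nat_lit 52) (nat_lit 53) = true := by decide +kernel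
def p13_14_0_53 : pfC (piC [(nat_lit 38167130), (nat_lit 25010362), (nat_lit 18643303), (nat_lit 12552662)] (nat_lit 23859669)) p13_14_0 (nat_lit 4) (nat_lit 53) (nat_lit 54) = true := by decide +kernel
def p13_14_0_54 : pfC (piC [(nat_lit 38167130), (nat_lit 25010362), (nat_lit 18643303), (nat_lit 12552662)] (nat_lit 23859669)) p13_14_0 (nat_lit 4) (nat_lit 54) (nat_lit 55) = true := by decide +kernel
def p13_14_0_55 : pfC (piC [(nat_lit 38167130), (nat_lit 25010362), (nat_lit 18643303), (nat_lit 12552662)] (nat_lit 23859669)) p13_14_0 (nat_lit 4) (nat_lit 55) (nat_lit 56) = true := by decide +kernel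
def p13_14_0_56 : pfC (piC [(nat_lit 38167130), (nat_lit 25010362), (nat_lit 18643303), (nat_lit 12552662)] (nat_lit 23859669)) p13_14_0 (nat_lit 4) (nat_lit 56) (nat_lit 57) = true := by decide +kernel
def p13_14_0_57 : pfC (piC [(nat_lit 38167130), (nat_lit 25010362), (nat_lit 18643303), (nat_lit 12552662)] (nat_lit 23859669)) p13_14_0 (nat_lit 4) (nat_lit 57) (nat_lit 58) = true := by decide +kernel
def p13_14_0_58 : pfC (piC [(nat_lit 38167130), (nat_lit 25010362), (nat_lit 18643303), (nat_lit 12552662)] (nat_lit 23859669)) p13_14_0 (nat_lit 4) (nat_lit 58) (nat_lit 59) = true := by decide +kernel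
def p13_14_0_59 : pfC (piC [(nat_lit 38167130), (nat_lit 25010362), (nat_lit 18643303), (nat_lit 12552662)] (nat_lit 23859669)) p13_14_0 (nat_lit 4) (nat_lit 59) (nat_lit 60) = true := by decide +kernel
def p13_14_0_60 : pfC (piC [(nat_lit 38167130), (nat_lit 25010362), (nat_lit 18643303), (nat_lit 12552662)] (nat_lit 23859669)) p13_14_0 (nat_lit 4) (nat_lit 60) (nat_lit 61) = true := by decide +kernel
def p13_14_0_61 : pfC (piC [(nat_lit 38167130), (nat_lit 25010362), (nat_lit 18643303), (nat_lit 12552662)] (nat_lit 23859669)) p13_14_0 (nat_lit 4) (nat_lit 61) (nat_lit 62) = true := by decide +kernel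
def p13_14_0_62 : pfC (piC [(nat_lit 38167130), (nat_lit 25010362), (nat_lit 18643303), (nat_lit 12552662)] (nat_lit 23859669)) p13_14_0 (nat_lit 4) (nat_lit 62) (nat_lit 63) = true := by decide +kernel
def p13_14_0_63 : pfC (piC [(nat_lit 38167130), (nat_lit 25010362), (nat_lit 18643303), (nat_lit 12552662)] (nat_lit 23859669)) p13_14_0 (nat_lit 4) (nat_lit 63) (nat_lit 64) = true := by decide +kernel
def p13_14_0_64 : pfC (piC [(nat_lit 38167130), (nat_lit 25010362), (nat_lit 18643303), (nat_lit 12552662)] (nat_lit 23859669)) p13_14_0 (nat_lit 4) (nat_lit 64) (nat_lit 65) = true := by decide +kernel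
def p13_14_0_65 : pfC (piC [(nat_lit 38167130), (nat_lit 25010362), (nat_lit 18643303), (nat_lit 12552662)] (nat_lit 23859669)) p13_14_0 (nat_lit 4) (nat_lit 65) (nat_lit 66) = true := by decide +kernel
def p13_14_0_66 : pfC (piC [(nat_lit 38167130), (nat_lit 25010362), (nat_lit 18643303), (nat_lit 12552662)] (nat_lit 23859669)) p13_14_0 (nat_lit 4) (nat_lit 66) (nat_lit 67) = true := by decide +kernel
def p13_14_0_67 : pfC (piC [(nat_lit 38167130), (nat_lit 25010362), (nat_lit 18643303), (nat_lit 12552662)] (nat_lit 23859669)) p13_14_0 (nat_lit 4) (nat_lit 67) (nat_lit 68) = true := by decide +kernel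
def p13_14_0_68 : pfC (piC [(nat_lit 38167130), (nat_lit 25010362), (nat_lit 18643303), (nat_lit 12552662)] (nat_lit 23859669)) p13_14_0 (nat_lit 4) (nat_lit 68) (nat_lit 69) = true := by decide +kernel
def p13_14_0_69 : pfC (piC [(nat_lit 38167130), (nat_lit 25010362), (nat_lit 18643303), (nat_lit 12552662)] (nat_lit 23859669)) p13_14_0 (nat_lit 4) (nat_lit 69) (nat_lit 70) = true := by decide +kernel
def p13_14_0_70 : pfC (piC [(nat_lit 38167130), (nat_lit 25010362), (nat_lit 18643303), (nat_lit 12552662)] (nat_lit 23859669)) p13_14_0 (nat_lit 4) (nat_lit 70) (nat_lit 71) = true := by decide +kernel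
def p13_14_0_71 : pfC (piC [(nat_lit 38167130), (nat_lit 25010362), (nat_lit 18643303), (nat_lit 12552662)] (nat_lit 23859669)) p13_14_0 (nat_lit 4) (nat_lit 71) (nat_lit 72) = true := by decide +kernel
def p13_14_0_72 : pfC (piC [(nat_lit 38167130), (nat_lit 25010362), (nat_lit 18643303), (nat_lit 12552662)] (nat_lit 23859669)) p13_14_0 (nat_lit 4) (nat_lit 72) (nat_lit 73) = true := by decide +kernel
def p13_14_0_73 : pfC (piC [(nat_lit 38167130), (nat_lit 25010362), (nat_lit 18643303), (nat_lit 12552662)] (nat_lit 23859669)) p13_14_0 (nat_lit 4) (nat_lit 73) (nat_lit 74) = true := by decide +kernel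
def p13_14_0_74 : pfC (piC [(nat_lit 38167130), (nat_lit 25010362), (nat_lit 18643303), (nat_lit 12552662)] (nat_lit 23859669)) p13_14_0 (nat_lit 4) (nat_lit 74) (nat_lit 75) = true := by decide +kernel
def p13_14_0_75 : pfC (piC [(nat_lit 38167130), (nat_lit 25010362), (nat_lit 18643303), (nat_lit 12552662)] (nat_lit 23859669)) p13_14_0 (nat_lit 4) (nat_lit 75) (nat_lit 76) = true := by decide +kernel
def p13_14_0_76 : pfC (piC [(nat_lit 38167130), (nat_lit 25010362), (nat_lit 18643303), (nat_lit 12552662)] (nat_lit 23859669)) p13_14_0 (nat_lit 4) (nat_lit 76) (nat_lit 77) = true := by decide +kernel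
def p13_14_0_77 : pfC (piC [(nat_lit 38167130), (nat_lit 25010362), (nat_lit 18643303), (nat_lit 12552662)] (nat_lit 23859669)) p13_14_0 (nat_lit 4) (nat_lit 77) (nat_lit 78) = true := by decide +kernel
def p13_14_0_78 : pfC (piC [(nat_lit 38167130), (nat_lit 25010362), (nat_lit 18643303), (nat_lit 12552662)] (nat_lit 23859669)) p13_14_0 (nat_lit 4) (nat_lit 78) (nat_lit 79) = true := by decide +kernel
def p13_14_0_79 : pfC (piC [(nat_lit 38167130), (nat_lit 25010362), (nat_lit 18643303), (nat_lit 12552662)] (nat_lit 23859669)) p13_14_0 (nat_lit 4) (nat_lit 79) (nat_lit 80) = true := by decide +kernel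
def p13_14_0_80 : pfC (piC [(nat_lit 38167130), (nat_lit 25010362), (nat_lit 18643303), (nat_lit 12552662)] (nat_lit 23859669)) p13_14_0 (nat_lit 4) (nat_lit 80) (nat_lit 81) = true := by decide +kernel
def p13_14_0_81 : pfC (piC [(nat_lit 38167130), (nat_lit 25010362), (nat_lit 18643303), (nat_lit 12552662)] (nat_lit 23859669)) p13_14_0 (nat_lit 4) (nat_lit 81) (nat_lit 82) = true := by decide +kernel
def p13_14_0_82 : pfC (piC [(nat_lit 38167130), (nat_lit 25010362), (nat_lit 18643303), (nat_lit 12552662)] (nat_lit 23859669)) p13_14_0 (nat_lit 4) (nat_lit 82) (nat_lit 83) = true := by decide +kernel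
def p13_14_0_83 : pfC (piC [(nat_lit 38167130), (nat_lit 25010362), (nat_lit 18643303), (nat_lit 12552662)] (nat_lit 23859669)) p13_14_0 (nat_lit 4) (nat_lit 83) (nat_lit 84) = true := by decide +kernel
def p13_14_0_84 : pfC (piC [(nat_lit 38167130), (nat_lit 25010362), (nat_lit 18643303), (nat_lit 12552662)] (nat_lit 23859669)) p13_14_0 (nat_lit 4) (nat_lit 84) (nat_lit 85) = true := by decide +kernel
def p13_14_0_85 : pfC (piC [(nat_lit 38167130), (nat_lit 25010362), (nat_lit 18643303), (nat_lit 12552662)] (nat_lit 23859669)) p13_14_0 (nat_lit 4) (nat_lit 85) (nat_lit 86) = true := by decide +kernel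
def p13_14_0_86 : pfC (piC [(nat_lit 38167130), (nat_lit 25010362), (nat_lit 18643303), (nat_lit 12552662)] (nat_lit 23859669)) p13_14_0 (nat_lit 4) (nat_lit 86) (nat_lit 87) = true := by decide +kernel
def p13_14_0_87 : pfC (piC [(nat_lit 38167130), (nat_lit 25010362), (nat_lit 18643303), (nat_lit 12552662)] (nat_lit 23859669)) p13_14_0 (nat_lit 4) (nat_lit 87) (nat_lit 88) = true := by decide +kernel
def p13_14_0_88 : pfC (piC [(nat_lit 38167130), (nat_lit 25010362), (nat_lit 18643303), (nat_lit 12552662)] (nat_lit 23859669)) p13_14_0 (nat_lit 4) (nat_lit 88) (nat_lit 89) = true := by decide +kernel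
def p13_14_0_89 : pfC (piC [(nat_lit 38167130), (nat_lit 25010362), (nat_lit 18643303), (nat_lit 12552662)] (nat_lit 23859669)) p13_14_0 (nat_lit 4) (nat_lit 89) (nat_lit 90) = true := by decide +kernel
def p13_14_0_90 : pfC (piC [(nat_lit 38167130), (nat_lit 25010362), (nat_lit 18643303), (nat_lit 12552662)] (nat_lit 23859669)) p13_14_0 (nat_lit 4) (nat_lit 90) (nat_lit 91) = true := by decide +kernel
def p13_14_0_91 : pfC (piC [(nat_lit 38167130), (nat_lit 25010362), (nat_lit 18643303), (nat_lit 12552662)] (nat_lit 23859669)) p13_14_0 (nat_lit 4) (nat_lit 91) (nat_lit 92) = true := by decide +kernel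
def p13_14_0_92 : pfC (piC [(nat_lit 38167130), (nat_lit 25010362), (nat_lit 18643303), (nat_lit 12552662)] (nat_lit 23859669)) p13_14_0 (nat_lit 4) (nat_lit 92) (nat_lit 93) = true := by decide +kernel
def p13_14_0_93 : pfC (piC [(nat_lit 38167130), (nat_lit 25010362), (nat_lit 18643303), (nat_lit 12552662)] (nat_lit 23859669)) p13_14_0 (nat_lit 4) (nat_lit 93) (nat_lit 94) = true := by decide +kernel
def p13_14_0_94 : pfC (piC [(nat_lit 38167130), (nat_lit 25010362), (nat_lit 18643303), (nat_lit 12552662)] (nat_lit 23859669)) p13_14_0 (nat_lit 4) (nat_lit 94) (nat_lit 95) = true := by decide +kernel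
def p13_14_0_95 : pfC (piC [(nat_lit 38167130), (nat_lit 25010362), (nat_lit 18643303), (nat_lit 12552662)] (nat_lit 23859669)) p13_14_0 (nat_lit 4) (nat_lit 95) (nat_lit 96) = true := by decide +kernel
def p13_14_0_96 : pfC (piC [(nat_lit 38167130), (nat_lit 25010362), (nat_lit 18643303), (nat_lit 12552662)] (nat_lit 23859669)) p13_14_0 (nat_lit 4) (nat_lit 96) (nat_lit 97) = true := by decide +kernel
def p13_14_0_97 : pfC (piC [(nat_lit 38167130), (nat_lit 25010362), (nat_lit 18643303), (nat_lit 12552662)] (nat_lit 23859669)) p13_14_0 (nat_lit 4) (nat_lit 97) (nat_lit 98) = true := by decide +kernel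
def p13_14_0_98 : pfC (piC [(nat_lit 38167130), (nat_lit 25010362), (nat_lit 18643303), (nat_lit 12552662)] (nat_lit 23859669)) p13_14_0 (nat_lit 4) (nat_lit 98) (nat_lit 99) = true := by decide +kernel
def p13_14_0_99 : pfC (piC [(nat_lit 38167130), (nat_lit 25010362), (nat_lit 18643303), (nat_lit 12552662)] (nat_lit 23859669)) p13_14_0 (nat_lit 4) (nat_lit 99) (nat_lit 100) = true := by decide +kernel
def p13_14_0_100 : pfC (piC [(nat_lit 38167130), (nat_lit 25010362), (nat_lit 18643303), (nat_lit 12552662)] (nat_lit 23859669)) p13_14_0 (nat_lit 4) (nat_lit 100) (nat_lit 101) = true := by decide +kernel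
def p13_14_0_101 : pfC (piC [(nat_lit 38167130), (nat_lit 25010362), (nat_lit 18643303), (nat_lit 12552662)] (nat_lit 23859669)) p13_14_0 (nat_lit 4) (nat_lit 101) (nat_lit 102) = true := by decide +kernel
def p13_14_0_102 : pfC (piC [(nat_lit 38167130), (nat_lit 25010362), (nat_lit 18643303), (nat_lit 12552662)] (nat_lit 23859669)) p13_14_0 (nat_lit 4) (nat_lit 102) (nat_lit 103) = true := by decide +kernel
def p13_14_0_103 : pfC (piC [(nat_lit 38167130), (nat_lit 25010362), (nat_lit 18643303), (nat_lit 12552662)] (nat_lit 23859669)) p13_14_0 (nat_lit 4) (nat_lit 103) (nat_lit 104) = true := by decide +kernel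
def p13_14_0_104 : pfC (piC [(nat_lit 38167130), (nat_lit 25010362), (nat_lit 18643303), (nat_lit 12552662)] (nat_lit 23859669)) p13_14_0 (nat_lit 4) (nat_lit 104) (nat_lit 105) = true := by decide +kernel
def p13_14_0_105 : pfC (piC [(nat_lit 38167130), (nat_lit 25010362), (nat_lit 18643303), (nat_lit 12552662)] (nat_lit 23859669)) p13_14_0 (nat_lit 4) (nat_lit 105) (nat_lit 106) = true := by decide +kernel
def p13_14_0_106 : pfC (piC [(nat_lit 38167130), (nat_lit 25010362), (nat_lit 18643303), (nat_lit 12552662)] (nat_lit 23859669)) p13_14_0 (nat_lit 4) (nat_lit 106) (nat_lit 107) = true := by decide +kernel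
def p13_14_0_107 : pfC (piC [(nat_lit 38167130), (nat_lit 25010362), (nat_lit 18643303), (nat_lit 12552662)] (nat_lit 23859669)) p13_14_0 (nat_lit 4) (nat_lit 107) (nat_lit 108) = true := by decide +kernel
def p13_14_0_108 : pfC (piC [(nat_lit 38167130), (nat_lit 25010362), (nat_lit 18643303), (nat_lit 12552662)] (nat_lit 23859669)) p13_14_0 (nat_lit 4) (nat_lit 108) (nat_lit 109) = true := by decide +kernel
def p13_14_0_109 : pfC (piC [(nat_lit 38167130), (nat_lit 25010362), (nat_lit 18643303), (nat_lit 12552662)] (nat_lit 23859669)) p13_14_0 (nat_lit 4) (nat_lit 109) (nat_lit 110) = true := by decide +kernel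
def p13_14_0_110 : pfC (piC [(nat_lit 38167130), (nat_lit 25010362), (nat_lit 18643303), (nat_lit 12552662)] (nat_lit 23859669)) p13_14_0 (nat_lit 4) (nat_lit 110) (nat_lit 111) = true := by decide +kernel
def p13_14_0_111 : pfC (piC [(nat_lit 38167130), (nat_lit 25010362), (nat_lit 18643303), (nat_lit 12552662)] (nat_lit 23859669)) p13_14_0 (nat_lit 4) (nat_lit 111) (nat_lit 112) = true := by decide +kernel
def p13_14_0_112 : pfC (piC [(nat_lit 38167130), (nat_lit 25010362), (nat_lit 18643303), (nat_lit 12552662)] (nat_lit 23859669)) p13_14_0 (nat_lit 4) (nat_lit 112) (nat_lit 113) = true := by decide +kernel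
def p13_14_0_113 : pfC (piC [(nat_lit 38167130), (nat_lit 25010362), (nat_lit 18643303), (nat_lit 12552662)] (nat_lit 23859669)) p13_14_0 (nat_lit 4) (nat_lit 113) (nat_lit 114) = true := by decide +kernel
def p13_14_0_114 : pfC (piC [(nat_lit 38167130), (nat_lit 25010362), (nat_lit 18643303), (nat_lit 12552662)] (nat_lit 23859669)) p13_14_0 (nat_lit 4) (nat_lit 114) (nat_lit 115) = true := by decide +kernel
def p13_14_0_115 : pfC (piC [(nat_lit 38167130), (nat_lit 25010362), (nat_lit 18643303), (nat_lit 12552662)] (nat_lit 23859669)) p13_14_0 (nat_lit 4) (nat_lit 115) (nat_lit 116) = true := by decide +kernel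
def p13_14_0_116 : pfC (piC [(nat_lit 38167130), (nat_lit 25010362), (nat_lit 18643303), (nat_lit 12552662)] (nat_lit 23859669)) p13_14_0 (nat_lit 4) (nat_lit 116) (nat_lit 117) = true := by decide +kernel
def p13_14_0_117 : pfC (piC [(nat_lit 38167130), (nat_lit 25010362), (nat_lit 18643303), (nat_lit 12552662)] (nat_lit 23859669)) p13_14_0 (nat_lit 4) (nat_lit 117) (nat_lit 118) = true := by decide +kernel
def p13_14_0_118 : pfC (piC [(nat_lit 38167130), (nat_lit 25010362), (nat_lit 18643303), (nat_lit 12552662)] (nat_lit 23859669)) p13_14_0 (nat_lit 4) (nat_lit 118) (nat_lit 119) = true := by decide +kernel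
def p13_14_0_119 : pfC (piC [(nat_lit 38167130), (nat_lit 25010362), (nat_lit 18643303), (nat_lit 12552662)] (nat_lit 23859669)) p13_14_0 (nat_lit 4) (nat_lit 119) (nat_lit 120) = true := by decide +kernel
def p13_14_0_120 : pfC (piC [(nat_lit 38167130), (nat_lit 25010362), (nat_lit 18643303), (nat_lit 12552662)] (nat_lit 23859669)) p13_14_0 (nat_lit 4) (nat_lit 120) (nat_lit 121) = true := by decide +kernel
def p13_14_0_121 : pfC (piC [(nat_lit 38167130), (nat_lit 25010362), (nat_lit 18643303), (nat_lit 12552662)] (nat_lit 23859669)) p13_14_0 (nat_lit 4) (nat_lit 121) (nat_lit 122) = true := by decide +kernel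
def p13_14_0_122 : pfC (piC [(nat_lit 38167130), (nat_lit 25010362), (nat_lit 18643303), (nat_lit 12552662)] (nat_lit 23859669)) p13_14_0 (nat_lit 4) (nat_lit 122) (nat_lit 123) = true := by decide +kernel
def p13_14_0_123 : pfC (piC [(nat_lit 38167130), (nat_lit 25010362), (nat_lit 18643303), (nat_lit 12552662)] (nat_lit 23859669)) p13_14_0 (nat_lit 4) (nat_lit 123) (nat_lit 124) = true := by decide +kernel
def p13_14_0_124 : pfC (piC [(nat_lit 38167130), (nat_lit 25010362), (nat_lit 18643303), (nat_lit 12552662)] (nat_lit 23859669)) p13_14_0 (nat_lit 4) (nat_lit 124) (nat_lit 125) = true := by decide +kernel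
def p13_14_0_125 : pfC (piC [(nat_lit 38167130), (nat_lit 25010362), (nat_lit 18643303), (nat_lit 12552662)] (nat_lit 23859669)) p13_14_0 (nat_lit 4) (nat_lit 125) (nat_lit 126) = true := by decide +kernel
def p13_14_0_126 : pfC (piC [(nat_lit 38167130), (nat_lit 25010362), (nat_lit 18643303), (nat_lit 12552662)] (nat_lit 23859669)) p13_14_0 (nat_lit 4) (nat_lit 126) (nat_lit 127) = true := by decide +kernel
def p13_14_0_127 : pfC (piC [(nat_lit 38167130), (nat_lit 25010362), (nat_lit 18643303), (nat_lit 12552662)] (nat_lit 23859669)) p13_14_0 (nat_lit 4) (nat_lit 127) (nat_lit 128) = true := by decide +kernel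
def p13_14_0_128 : pfC (piC [(nat_lit 38167130), (nat_lit 25010362), (nat_lit 18643303), (nat_lit 12552662)] (nat_lit 23859669)) p13_14_0 (nat_lit 4) (nat_lit 128) (nat_lit 129) = true := by decide +kernel
def p13_14_0_129 : pfC (piC [(nat_lit 38167130), (nat_lit 25010362), (nat_lit 18643303), (nat_lit 12552662)] (nat_lit 23859669)) p13_14_0 (nat_lit 4) (nat_lit 129) (nat_lit 130) = true := by decide +kernel
def p13_14_0_130 : pfC (piC [(nat_lit 38167130), (nat_lit 25010362), (nat_lit 18643303), (nat_lit 12552662)] (nat_lit 23859669)) p13_14_0 (nat_lit 4) (nat_lit 130) (nat_lit 131) = true := by decide +kernel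
def p13_14_0_131 : pfC (piC [(nat_lit 38167130), (nat_lit 25010362), (nat_lit 18643303), (nat_lit 12552662)] (nat_lit 23859669)) p13_14_0 (nat_lit 4) (nat_lit 131) (nat_lit 132) = true := by decide +kernel
def p13_14_0_132 : pfC (piC [(nat_lit 38167130), (nat_lit 25010362), (nat_lit 18643303), (nat_lit 12552662)] (nat_lit 23859669)) p13_14_0 (nat_lit 4) (nat_lit 132) (nat_lit 133) = true := by decide +kernel
def p13_14_0_133 : pfC (piC [(nat_lit 38167130), (nat_lit 25010362), (nat_lit 18643303), (nat_lit 12552662)] (nat_lit 23859669)) p13_14_0 (nat_lit 4) (nat_lit 133) (nat_lit 134) = true := by decide +kernel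
def p13_14_0_134 : pfC (piC [(nat_lit 38167130), (nat_lit 25010362), (nat_lit 18643303), (nat_lit 12552662)] (nat_lit 23859669)) p13_14_0 (nat_lit 4) (nat_lit 134) (nat_lit 135) = true := by decide +kernel
def p13_14_0_135 : pfC (piC [(nat_lit 38167130), (nat_lit 25010362), (nat_lit 18643303), (nat_lit 12552662)] (nat_lit 23859669)) p13_14_0 (nat_lit 4) (nat_lit 135) (nat_lit 136) = true := by decide +kernel
def p13_14_0_136 : pfC (piC [(nat_lit 38167130), (nat_lit 25010362), (nat_lit 18643303), (nat_lit 12552662)] (nat_lit 23859669)) p13_14_0 (nat_lit 4) (nat_lit 136) (nat_lit 137) = true := by decide +kernel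
def p13_14_0_137 : pfC (piC [(nat_lit 38167130), (nat_lit 25010362), (nat_lit 18643303), (nat_lit 12552662)] (nat_lit 23859669)) p13_14_0 (nat_lit 4) (nat_lit 137) (nat_lit 138) = true := by decide +kernel
def p13_14_0_138 : pfC (piC [(nat_lit 38167130), (nat_lit 25010362), (nat_lit 18643303), (nat_lit 12552662)] (nat_lit 23859669)) p13_14_0 (nat_lit 4) (nat_lit 138) (nat_lit 139) = true := by decide +kernel
def p13_14_0_139 : pfC (piC [(nat_lit 38167130), (nat_lit 25010362), (nat_lit 18643303), (nat_lit 12552662)] (nat_lit 23859669)) p13_14_0 (nat_lit 4) (nat_lit 139) (nat_lit 140) = true := by decide +kernel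
def p13_14_0_140 : pfC (piC [(nat_lit 38167130), (nat_lit 25010362), (nat_lit 18643303), (nat_lit 12552662)] (nat_lit 23859669)) p13_14_0 (nat_lit 4) (nat_lit 140) (nat_lit 141) = true := by decide +kernel
def p13_14_0_141 : pfC (piC [(nat_lit 38167130), (nat_lit 25010362), (nat_lit 18643303), (nat_lit 12552662)] (nat_lit 23859669)) p13_14_0 (nat_lit 4) (nat_lit 141) (nat_lit 142) = true := by decide +kernel
def p13_14_0_142 : pfC (piC [(nat_lit 38167130), (nat_lit 25010362), (nat_lit 18643303), (nat_lit 12552662)] (nat_lit 23859669)) p13_14_0 (nat_lit 4) (nat_lit 142) (nat_lit 143) = true := by decide +kernel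
def p13_14_0_143 : pfC (piC [(nat_lit 38167130), (nat_lit 25010362), (nat_lit 18643303), (nat_lit 12552662)] (nat_lit 23859669)) p13_14_0 (nat_lit 4) (nat_lit 143) (nat_lit 144) = true := by decide +kernel
def p13_14_0_144 : pfC (piC [(nat_lit 38167130), (nat_lit 25010362), (nat_lit 18643303), (nat_lit 12552662)] (nat_lit 23859669)) p13_14_0 (nat_lit 4) (nat_lit 144) (nat_lit 145) = true := by decide +kernel
def p13_14_0_145 : pfC (piC [(nat_lit 38167130), (nat_lit 25010362), (nat_lit 18643303), (nat_lit 12552662)] (nat_lit 23859669)) p13_14_0 (nat_lit 4) (nat_lit 145) (nat_lit 146) = true := by decide +kernel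
def p13_14_0_146 : pfC (piC [(nat_lit 38167130), (nat_lit 25010362), (nat_lit 18643303), (nat_lit 12552662)] (nat_lit 23859669)) p13_14_0 (nat_lit 4) (nat_lit 146) (nat_lit 147) = true := by decide +kernel
def p13_14_0_147 : pfC (piC [(nat_lit 38167130), (nat_lit 25010362), (nat_lit 18643303), (nat_lit 12552662)] (nat_lit 23859669)) p13_14_0 (nat_lit 4) (nat_lit 147) (nat_lit 148) = true := by decide +kernel
def p13_14_0_148 : pfC (piC [(nat_lit 38167130), (nat_lit 25010362), (nat_lit 18643303), (nat_lit 12552662)] (nat_lit 23859669)) p13_14_0 (nat_lit 4) (nat_lit 148) (nat_lit 149) = true := by decide +kernel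
def p13_14_0_149 : pfC (piC [(nat_lit 38167130), (nat_lit 25010362), (nat_lit 18643303), (nat_lit 12552662)] (nat_lit 23859669)) p13_14_0 (nat_lit 4) (nat_lit 149) (nat_lit 150) = true := by decide +kernel
def p13_14_0_150 : pfC (piC [(nat_lit 38167130), (nat_lit 25010362), (nat_lit 18643303), (nat_lit 12552662)] (nat_lit 23859669)) p13_14_0 (nat_lit 4) (nat_lit 150) (nat_lit 151) = true := by decide +kernel
def p13_14_0_151 : pfC (piC [(nat_lit 38167130), (nat_lit 25010362), (nat_lit 18643303), (nat_lit 12552662)] (nat_lit 23859669)) p13_14_0 (nat_lit 4) (nat_lit 151) (nat_lit 152) = true := by decide +kernel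
def p13_14_0_152 : pfC (piC [(nat_lit 38167130), (nat_lit 25010362), (nat_lit 18643303), (nat_lit 12552662)] (nat_lit 23859669)) p13_14_0 (nat_lit 4) (nat_lit 152) (nat_lit 153) = true := by decide +kernel
def p13_14_0_153 : pfC (piC [(nat_lit 38167130), (nat_lit 25010362), (nat_lit 18643303), (nat_lit 12552662)] (nat_lit 23859669)) p13_14_0 (nat_lit 4) (nat_lit 153) (nat_lit 154) = true := by decide +kernel
def p13_14_0_154 : pfC (piC [(nat_lit 38167130), (nat_lit 25010362), (nat_lit 18643303), (nat_lit 12552662)] (nat_lit 23859669)) p13_14_0 (nat_lit 4) (nat_lit 154) (nat_lit 155) = true := by decide +kernel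
def p13_14_0_155 : pfC (piC [(nat_lit 38167130), (nat_lit 25010362), (nat_lit 18643303), (nat_lit 12552662)] (nat_lit 23859669)) p13_14_0 (nat_lit 4) (nat_lit 155) (nat_lit 156) = true := by decide +kernel
def p13_14_0_156 : pfC (piC [(nat_lit 38167130), (nat_lit 25010362), (nat_lit 18643303), (nat_lit 12552662)] (nat_lit 23859669)) p13_14_0 (nat_lit 4) (nat_lit 156) (nat_lit 157) = true := by decide +kernel
def p13_14_0_157 : pfC (piC [(nat_lit 38167130), (nat_lit 25010362), (nat_lit 18643303), (nat_lit 12552662)] (nat_lit 23859669)) p13_14_0 (nat_lit 4) (nat_lit 157) (nat_lit 158) = true := by decide +kernel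
def p13_14_0_158 : pfC (piC [(nat_lit 38167130), (nat_lit 25010362), (nat_lit 18643303), (nat_lit 12552662)] (nat_lit 23859669)) p13_14_0 (nat_lit 4) (nat_lit 158) (nat_lit 159) = true := by decide +kernel
def p13_14_0_159 : pfC (piC [(nat_lit 38167130), (nat_lit 25010362), (nat_lit 18643303), (nat_lit 12552662)] (nat_lit 23859669)) p13_14_0 (nat_lit 4) (nat_lit 159) (nat_lit 160) = true := by decide +kernel
def p13_14_0_160 : pfC (piC [(nat_lit 38167130), (nat_lit 25010362), (nat_lit 18643303), (nat_lit 12552662)] (nat_lit 23859669)) p13_14_0 (nat_lit 4) (nat_lit 160) (nat_lit 161) = true := by decide +kernel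
def p13_14_0_161 : pfC (piC [(nat_lit 38167130), (nat_lit 25010362), (nat_lit 18643303), (nat_lit 12552662)] (nat_lit 23859669)) p13_14_0 (nat_lit 4) (nat_lit 161) (nat_lit 162) = true := by decide +kernel
def p13_14_0_162 : pfC (piC [(nat_lit 38167130), (nat_lit 25010362), (nat_lit 18643303), (nat_lit 12552662)] (nat_lit 23859669)) p13_14_0 (nat_lit 4) (nat_lit 162) (nat_lit 163) = true := by decide +kernel
def p13_14_0_163 : pfC (piC [(nat_lit 38167130), (nat_lit 25010362), (nat_lit 18643303), (nat_lit 12552662)] (nat_lit 23859669)) p13_14_0 (nat_lit 4) (nat_lit 163) (nat_lit 164) = true := by decide +kernel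
def p13_14_0_164 : pfC (piC [(nat_lit 38167130), (nat_lit 25010362), (nat_lit 18643303), (nat_lit 12552662)] (nat_lit 23859669)) p13_14_0 (nat_lit 4) (nat_lit 164) (nat_lit 165) = true := by decide +kernel
def p13_14_0_165 : pfC (piC [(nat_lit 38167130), (nat_lit 25010362), (nat_lit 18643303), (nat_lit 12552662)] (nat_lit 23859669)) p13_14_0 (nat_lit 4) (nat_lit 165) (nat_lit 166) = true := by decide +kernel
def p13_14_0_166 : pfC (piC [(nat_lit 38167130), (nat_lit 25010362), (nat_lit 18643303), (nat_lit 12552662)] (nat_lit 23859669)) p13_14_0 (nat_lit 4) (nat_lit 166) (nat_lit 167) = true := by decide +kernel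
def p13_14_0_167 : pfC (piC [(nat_lit 38167130), (nat_lit 25010362), (nat_lit 18643303), (nat_lit 12552662)] (nat_lit 23859669)) p13_14_0 (nat_lit 4) (nat_lit 167) (nat_lit 168) = true := by decide +kernel
def p13_14_0_168 : pfC (piC [(nat_lit 38167130), (nat_lit 25010362), (nat_lit 18643303), (nat_lit 12552662)] (nat_lit 23859669)) p13_14_0 (nat_lit 4) (nat_lit 168) (nat_lit 169) = true := by decide +kernel
def p13_14_0_169 : pfC (piC [(nat_lit 38167130), (nat_lit 25010362), (nat_lit 18643303), (nat_lit 12552662)] (nat_lit 23859669)) p13_14_0 (nat_lit 4) (nat_lit 169) (nat_lit 170) = true := by decide +kernel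
def p13_14_0_170 : pfC (piC [(nat_lit 38167130), (nat_lit 25010362), (nat_lit 18643303), (nat_lit 12552662)] (nat_lit 23859669)) p13_14_0 (nat_lit 4) (nat_lit 170) (nat_lit 171) = true := by decide +kernel
def p13_14_0_171 : pfC (piC [(nat_lit 38167130), (nat_lit 25010362), (nat_lit 18643303), (nat_lit 12552662)] (nat_lit 23859669)) p13_14_0 (nat_lit 4) (nat_lit 171) (nat_lit 172) = true := by decide +kernel
def p13_14_0_172 : pfC (piC [(nat_lit 38167130), (nat_lit 25010362), (nat_lit 18643303), (nat_lit 12552662)] (nat_lit 23859669)) p13_14_0 (nat_lit 4) (nat_lit 172) (nat_lit 173) = true := by decide +kernel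
def p13_14_0_173 : pfC (piC [(nat_lit 38167130), (nat_lit 25010362), (nat_lit 18643303), (nat_lit 12552662)] (nat_lit 23859669)) p13_14_0 (nat_lit 4) (nat_lit 173) (nat_lit 174) = true := by decide +kernel
def p13_14_0_174 : pfC (piC [(nat_lit 38167130), (nat_lit 25010362), (nat_lit 18643303), (nat_lit 12552662)] (nat_lit 23859669)) p13_14_0 (nat_lit 4) (nat_lit 174) (nat_lit 175) = true := by decide +kernel
def p13_14_0_175 : pfC (piC [(nat_lit 38167130), (nat_lit 25010362), (nat_lit 18643303), (nat_lit 12552662)] (nat_lit 23859669)) p13_14_0 (nat_lit 4) (nat_lit 175) (nat_lit 176) = true := by decide +kernel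
def p13_14_0_176 : pfC (piC [(nat_lit 38167130), (nat_lit 25010362), (nat_lit 18643303), (nat_lit 12552662)] (nat_lit 23859669)) p13_14_0 (nat_lit 4) (nat_lit 176) (nat_lit 177) = true := by decide +kernel
def p13_14_0_177 : pfC (piC [(nat_lit 38167130), (nat_lit 25010362), (nat_lit 18643303), (nat_lit 12552662)] (nat_lit 23859669)) p13_14_0 (nat_lit 4) (nat_lit 177) (nat_lit 178) = true := by decide +kernel
def p13_14_0_178 : pfC (piC [(nat_lit 38167130), (nat_lit 25010362), (nat_lit 18643303), (nat_lit 12552662)] (nat_lit 23859669)) p13_14_0 (nat_lit 4) (nat_lit 178) (nat_lit 179) = true := by decide +kernel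
def p13_14_0_179 : pfC (piC [(nat_lit 38167130), (nat_lit 25010362), (nat_lit 18643303), (nat_lit 12552662)] (nat_lit 23859669)) p13_14_0 (nat_lit 4) (nat_lit 179) (nat_lit 180) = true := by decide +kernel
def p13_14_0_180 : pfC (piC [(nat_lit 38167130), (nat_lit 25010362), (nat_lit 18643303), (nat_lit 12552662)] (nat_lit 23859669)) p13_14_0 (nat_lit 4) (nat_lit 180) (nat_lit 181) = true := by decide +kernel
def p13_14_0_181 : pfC (piC [(nat_lit 38167130), (nat_lit 25010362), (nat_lit 18643303), (nat_lit 12552662)] (nat_lit 23859669)) p13_14_0 (nat_lit 4) (nat_lit 181) (nat_lit 182) = true := by decide +kernel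
def p13_14_0_182 : pfC (piC [(nat_lit 38167130), (nat_lit 25010362), (nat_lit 18643303), (nat_lit 12552662)] (nat_lit 23859669)) p13_14_0 (nat_lit 4) (nat_lit 182) (nat_lit 183) = true := by decide +kernel
def p13_14_0_183 : pfC (piC [(nat_lit 38167130), (nat_lit 25010362), (nat_lit 18643303), (nat_lit 12552662)] (nat_lit 23859669)) p13_14_0 (nat_lit 4) (nat_lit 183) (nat_lit 184) = true := by decide +kernel
def p13_14_0_184 : pfC (piC [(nat_lit 38167130), (nat_lit 25010362), (nat_lit 18643303), (nat_lit 12552662)] (nat_lit 23859669)) p13_14_0 (nat_lit 4) (nat_lit 184) (nat_lit 185) = true := by decide +kernel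
def p13_14_0_185 : pfC (piC [(nat_lit 38167130), (nat_lit 25010362), (nat_lit 18643303), (nat_lit 12552662)] (nat_lit 23859669)) p13_14_0 (nat_lit 4) (nat_lit 185) (nat_lit 186) = true := by decide +kernel
def p13_14_0_186 : pfC (piC [(nat_lit 38167130), (nat_lit 25010362), (nat_lit 18643303), (nat_lit 12552662)] (nat_lit 23859669)) p13_14_0 (nat_lit 4) (nat_lit 186) (nat_lit 187) = true := by decide +kernel
def p13_14_0_187 : pfC (piC [(nat_lit 38167130), (nat_lit 25010362), (nat_lit 18643303), (nat_lit 12552662)] (nat_lit 23859669)) p13_14_0 (nat_lit 4) (nat_lit 187) (nat_lit 188) = true := by decide +kernel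
def p13_14_0_188 : pfC (piC [(nat_lit 38167130), (nat_lit 25010362), (nat_lit 18643303), (nat_lit 12552662)] (nat_lit 23859669)) p13_14_0 (nat_lit 4) (nat_lit 188) (nat_lit 189) = true := by decide +kernel
def p13_14_0_189 : pfC (piC [(nat_lit 38167130), (nat_lit 25010362), (nat_lit 18643303), (nat_lit 12552662)] (nat_lit 23859669)) p13_14_0 (nat_lit 4) (nat_lit 189) (nat_lit 190) = true := by decide +kernel
def p13_14_0_190 : pfC (piC [(nat_lit 38167130), (nat_lit 25010362), (nat_lit 18643303), (nat_lit 12552662)] (nat_lit 23859669)) p13_14_0 (nat_lit 4) (nat_lit 190) (nat_lit 191) = true := by decide +kernel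
def p13_14_0_191 : pfC (piC [(nat_lit 38167130), (nat_lit 25010362), (nat_lit 18643303), (nat_lit 12552662)] (nat_lit 23859669)) p13_14_0 (nat_lit 4) (nat_lit 191) (nat_lit 192) = true := by decide +kernel
def p13_14_0_192 : pfC (piC [(nat_lit 38167130), (nat_lit 25010362), (nat_lit 18643303), (nat_lit 12552662)] (nat_lit 23859669)) p13_14_0 (nat_lit 4) (nat_lit 192) (nat_lit 193) = true := by decide +kernel
def p13_14_0_193 : pfC (piC [(nat_lit 38167130), (nat_lit 25010362), (nat_lit 18643303), (nat_lit 12552662)] (nat_lit 23859669)) p13_14_0 (nat_lit 4) (nat_lit 193) (nat_lit 194) = true := by decide +kernel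
def p13_14_0_194 : pfC (piC [(nat_lit 38167130), (nat_lit 25010362), (nat_lit 18643303), (nat_lit 12552662)] (nat_lit 23859669)) p13_14_0 (nat_lit 4) (nat_lit 194) (nat_lit 195) = true := by decide +kernel
def p13_14_0_195 : pfC (piC [(nat_lit 38167130), (nat_lit 25010362), (nat_lit 18643303), (nat_lit 12552662)] (nat_lit 23859669)) p13_14_0 (nat_lit 4) (nat_lit 195) (nat_lit 196) = true := by decide +kernel
def p13_14_0_196 : pfC (piC [(nat_lit 38167130), (nat_lit 25010362), (nat_lit 18643303), (nat_lit 12552662)] (nat_lit 23859669)) p13_14_0 (nat_lit 4) (nat_lit 196) (nat_lit 197) = true := by decide +kernel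
def p13_14_0_197 : pfC (piC [(nat_lit 38167130), (nat_lit 25010362), (nat_lit 18643303), (nat_lit 12552662)] (nat_lit 23859669)) p13_14_0 (nat_lit 4) (nat_lit 197) (nat_lit 198) = true := by decide +kernel
def p13_14_0_198 : pfC (piC [(nat_lit 38167130), (nat_lit 25010362), (nat_lit 18643303), (nat_lit 12552662)] (nat_lit 23859669)) p13_14_0 (nat_lit 4) (nat_lit 198) (nat_lit 199) = true := by decide +kernel
def p13_14_0_199 : pfC (piC [(nat_lit 38167130), (nat_lit 25010362), (nat_lit 18643303), (nat_lit 12552662)] (nat_lit 23859669)) p13_14_0 (nat_lit 4) (nat_lit 199) (nat_lit 200) = true := by decide +kernel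
def p13_14_0_200 : pfC (piC [(nat_lit 38167130), (nat_lit 25010362), (nat_lit 18643303), (nat_lit 12552662)] (nat_lit 23859669)) p13_14_0 (nat_lit 4) (nat_lit 200) (nat_lit 201) = true := by decide +kernel
def p13_14_0_201 : pfC (piC [(nat_lit 38167130), (nat_lit 25010362), (nat_lit 18643303), (nat_lit 12552662)] (nat_lit 23859669)) p13_14_0 (nat_lit 4) (nat_lit 201) (nat_lit 202) = true := by decide +kernel
def p13_14_0_202 : pfC (piC [(nat_lit 38167130), (nat_lit 25010362), (nat_lit 18643303), (nat_lit 12552662)] (nat_lit 23859669)) p13_14_0 (nat_lit 4) (nat_lit 202) (nat_lit 203) = true := by decide +kernel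
def p13_14_0_203 : pfC (piC [(nat_lit 38167130), (nat_lit 25010362), (nat_lit 18643303), (nat_lit 12552662)] (nat_lit 23859669)) p13_14_0 (nat_lit 4) (nat_lit 203) (nat_lit 204) = true := by decide +kernel
def p13_14_0_204 : pfC (piC [(nat_lit 38167130), (nat_lit 25010362), (nat_lit 18643303), (nat_lit 12552662)] (nat_lit 23859669)) p13_14_0 (nat_lit 4) (nat_lit 204) (nat_lit 205) = true := by decide +kernel
def p13_14_0_205 : pfC (piC [(nat_lit 38167130), (nat_lit 25010362), (nat_lit 18643303), (nat_lit 12552662)] (nat_lit 23859669)) p13_14_0 (nat_lit 4) (nat_lit 205) (nat_lit 206) = true := by decide +kernel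
def p13_14_0_206 : pfC (piC [(nat_lit 38167130), (nat_lit 25010362), (nat_lit 18643303), (nat_lit 12552662)] (nat_lit 23859669)) p13_14_0 (nat_lit 4) (nat_lit 206) (nat_lit 207) = true := by decide +kernel
def p13_14_0_207 : pfC (piC [(nat_lit 38167130), (nat_lit 25010362), (nat_lit 18643303), (nat_lit 12552662)] (nat_lit 23859669)) p13_14_0 (nat_lit 4) (nat_lit 207) (nat_lit 208) = true := by decide +kernel
def p13_14_0_208 : pfC (piC [(nat_lit 38167130), (nat_lit 25010362), (nat_lit 18643303), (nat_lit 12552662)] (nat_lit 23859669)) p13_14_0 (nat_lit 4) (nat_lit 208) (nat_lit 209) = true := by decide +kernel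
def p13_14_0_209 : pfC (piC [(nat_lit 38167130), (nat_lit 25010362), (nat_lit 18643303), (nat_lit 12552662)] (nat_lit 23859669)) p13_14_0 (nat_lit 4) (nat_lit 209) (nat_lit 210) = true := by decide +kernel
def p13_14_0_210 : pfC (piC [(nat_lit 38167130), (nat_lit 25010362), (nat_lit 18643303), (nat_lit 12552662)] (nat_lit 23859669)) p13_14_0 (nat_lit 4) (nat_lit 210) (nat_lit 211) = true := by decide +kernel
def p13_14_0_211 : pfC (piC [(nat_lit 38167130), (nat_lit 25010362), (nat_lit 18643303), (nat_lit 12552662)] (nat_lit 23859669)) p13_14_0 (nat_lit 4) (nat_lit 211) (nat_lit 212) = true := by decide +kernel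
def p13_14_0_212 : pfC (piC [(nat_lit 38167130), (nat_lit 25010362), (nat_lit 18643303), (nat_lit 12552662)] (nat_lit 23859669)) p13_14_0 (nat_lit 4) (nat_lit 212) (nat_lit 213) = true := by decide +kernel
def p13_14_0_213 : pfC (piC [(nat_lit 38167130), (nat_lit 25010362), (nat_lit 18643303), (nat_lit 12552662)] (nat_lit 23859669)) p13_14_0 (nat_lit 4) (nat_lit 213) (nat_lit 214) = true := by decide +kernel
def p13_14_0_214 : pfC (piC [(nat_lit 38167130), (nat_lit 25010362), (nat_lit 18643303), (nat_lit 12552662)] (nat_lit 23859669)) p13_14_0 (nat_lit 4) (nat_lit 214) (nat_lit 215) = true := by decide +kernel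
def p13_14_0_215 : pfC (piC [(nat_lit 38167130), (nat_lit 25010362), (nat_lit 18643303), (nat_lit 12552662)] (nat_lit 23859669)) p13_14_0 (nat_lit 4) (nat_lit 215) (nat_lit 216) = true := by decide +kernel
def p13_14_0_216 : pfC (piC [(nat_lit 38167130), (nat_lit 25010362), (nat_lit 18643303), (nat_lit 12552662)] (nat_lit 23859669)) p13_14_0 (nat_lit 4) (nat_lit 216) (nat_lit 217) = true := by decide +kernel
def p13_14_0_217 : pfC (piC [(nat_lit 38167130), (nat_lit 25010362), (nat_lit 18643303), (nat_lit 12552662)] (nat_lit 23859669)) p13_14_0 (nat_lit 4) (nat_lit 217) (nat_lit 218) = true := by decide +kernel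
def p13_14_0_218 : pfC (piC [(nat_lit 38167130), (nat_lit 25010362), (nat_lit 18643303), (nat_lit 12552662)] (nat_lit 23859669)) p13_14_0 (nat_lit 4) (nat_lit 218) (nat_lit 219) = true := by decide +kernel
def p13_14_0_219 : pfC (piC [(nat_lit 38167130), (nat_lit 25010362), (nat_lit 18643303), (nat_lit 12552662)] (nat_lit 23859669)) p13_14_0 (nat_lit 4) (nat_lit 219) (nat_lit 220) = true := by decide +kernel
def p13_14_0_220 : pfC (piC [(nat_lit 38167130), (nat_lit 25010362), (nat_lit 18643303), (nat_lit 12552662)] (nat_lit 23859669)) p13_14_0 (nat_lit 4) (nat_lit 220) (nat_lit 221) = true := by decide +kernel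
def p13_14_0_221 : pfC (piC [(nat_lit 38167130), (nat_lit 25010362), (nat_lit 18643303), (nat_lit 12552662)] (nat_lit 23859669)) p13_14_0 (nat_lit 4) (nat_lit 221) (nat_lit 222) = true := by decide +kernel
def p13_14_0_222 : pfC (piC [(nat_lit 38167130), (nat_lit 25010362), (nat_lit 18643303), (nat_lit 12552662)] (nat_lit 23859669)) p13_14_0 (nat_lit 4) (nat_lit 222) (nat_lit 223) = true := by decide +kernel
def p13_14_0_223 : pfC (piC [(nat_lit 38167130), (nat_lit 25010362), (nat_lit 18643303), (nat_lit 12552662)] (nat_lit 23859669)) p13_14_0 (nat_lit 4) (nat_lit 223) (nat_lit 224) = true := by decide +kernel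
def p13_14_0_224 : pfC (piC [(nat_lit 38167130), (nat_lit 25010362), (nat_lit 18643303), (nat_lit 12552662)] (nat_lit 23859669)) p13_14_0 (nat_lit 4) (nat_lit 224) (nat_lit 225) = true := by decide +kernel
def p13_14_0_225 : pfC (piC [(nat_lit 38167130), (nat_lit 25010362), (nat_lit 18643303), (nat_lit 12552662)] (nat_lit 23859669)) p13_14_0 (nat_lit 4) (nat_lit 225) (nat_lit 226) = true := by decide +kernel
def p13_14_0_226 : pfC (piC [(nat_lit 38167130), (nat_lit 25010362), (nat_lit 18643303), (nat_lit 12552662)] (nat_lit 23859669)) p13_14_0 (nat_lit 4) (nat_lit 226) (nat_lit 227) = true := by decide +kernel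
def p13_14_0_227 : pfC (piC [(nat_lit 38167130), (nat_lit 25010362), (nat_lit 18643303), (nat_lit 12552662)] (nat_lit 23859669)) p13_14_0 (nat_lit 4) (nat_lit 227) (nat_lit 228) = true := by decide +kernel
def p13_14_0_228 : pfC (piC [(nat_lit 38167130), (nat_lit 25010362), (nat_lit 18643303), (nat_lit 12552662)] (nat_lit 23859669)) p13_14_0 (nat_lit 4) (nat_lit 228) (nat_lit 229) = true := by decide +kernel
def p13_14_0_229 : pfC (piC [(nat_lit 38167130), (nat_lit 25010362), (nat_lit 18643303), (nat_lit 12552662)] (nat_lit 23859669)) p13_14_0 (nat_lit 4) (nat_lit 229) (nat_lit 230) = true := by decide +kernel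
def p13_14_0_230 : pfC (piC [(nat_lit 38167130), (nat_lit 25010362), (nat_lit 18643303), (nat_lit 12552662)] (nat_lit 23859669)) p13_14_0 (nat_lit 4) (nat_lit 230) (nat_lit 231) = true := by decide +kernel
def p13_14_0_231 : pfC (piC [(nat_lit 38167130), (nat_lit 25010362), (nat_lit 18643303), (nat_lit 12552662)] (nat_lit 23859669)) p13_14_0 (nat_lit 4) (nat_lit 231) (nat_lit 232) = true := by decide +kernel
def p13_14_0_232 : pfC (piC [(nat_lit 38167130), (nat_lit 25010362), (nat_lit 18643303), (nat_lit 12552662)] (nat_lit 23859669)) p13_14_0 (nat_lit 4) (nat_lit 232) (nat_lit 233) = true := by decide +kernel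
def p13_14_0_233 : pfC (piC [(nat_lit 38167130), (nat_lit 25010362), (nat_lit 18643303), (nat_lit 12552662)] (nat_lit 23859669)) p13_14_0 (nat_lit 4) (nat_lit 233) (nat_lit 234) = true := by decide +kernel
def p13_14_0_234 : pfC (piC [(nat_lit 38167130), (nat_lit 25010362), (nat_lit 18643303), (nat_lit 12552662)] (nat_lit 23859669)) p13_14_0 (nat_lit 4) (nat_lit 234) (nat_lit 235) = true := by decide +kernel
def p13_14_0_235 : pfC (piC [(nat_lit 38167130), (nat_lit 25010362), (nat_lit 18643303), (nat_lit 12552662)] (nat_lit 23859669)) p13_14_0 (nat_lit 4) (nat_lit 235) (nat_lit 236) = true := by decide +kernel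
def p13_14_0_236 : pfC (piC [(nat_lit 38167130), (nat_lit 25010362), (nat_lit 18643303), (nat_lit 12552662)] (nat_lit 23859669)) p13_14_0 (nat_lit 4) (nat_lit 236) (nat_lit 237) = true := by decide +kernel
def p13_14_0_237 : pfC (piC [(nat_lit 38167130), (nat_lit 25010362), (nat_lit 18643303), (nat_lit 12552662)] (nat_lit 23859669)) p13_14_0 (nat_lit 4) (nat_lit 237) (nat_lit 238) = true := by decide +kernel
def p13_14_0_238 : pfC (piC [(nat_lit 38167130), (nat_lit 25010362), (nat_lit 18643303), (nat_lit 12552662)] (nat_lit 23859669)) p13_14_0 (nat_lit 4) (nat_lit 238) (nat_lit 239) = true := by decide +kernel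
def p13_14_0_239 : pfC (piC [(nat_lit 38167130), (nat_lit 25010362), (nat_lit 18643303), (nat_lit 12552662)] (nat_lit 23859669)) p13_14_0 (nat_lit 4) (nat_lit 239) (nat_lit 240) = true := by decide +kernel
def p13_14_0_240 : pfC (piC [(nat_lit 38167130), (nat_lit 25010362), (nat_lit 18643303), (nat_lit 12552662)] (nat_lit 23859669)) p13_14_0 (nat_lit 4) (nat_lit 240) (nat_lit 241) = true := by decide +kernel
def p13_14_0_241 : pfC (piC [(nat_lit 38167130), (nat_lit 25010362), (nat_lit 18643303), (nat_lit 12552662)] (nat_lit 23859669)) p13_14_0 (nat_lit 4) (nat_lit 241) (nat_lit 242) = true := by decide +kernel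
def p13_14_0_242 : pfC (piC [(nat_lit 38167130), (nat_lit 25010362), (nat_lit 18643303), (nat_lit 12552662)] (nat_lit 23859669)) p13_14_0 (nat_lit 4) (nat_lit 242) (nat_lit 243) = true := by decide +kernel
def p13_14_0_243 : pfC (piC [(nat_lit 38167130), (nat_lit 25010362), (nat_lit 18643303), (nat_lit 12552662)] (nat_lit 23859669)) p13_14_0 (nat_lit 4) (nat_lit 243) (nat_lit 244) = true := by decide +kernel
def p13_14_0_244 : pfC (piC [(nat_lit 38167130), (nat_lit 25010362), (nat_lit 18643303), (nat_lit 12552662)] (nat_lit 23859669)) p13_14_0 (nat_lit 4) (nat_lit 244) (nat_lit 245) = true := by decide +kernel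
def p13_14_0_245 : pfC (piC [(nat_lit 38167130), (nat_lit 25010362), (nat_lit 18643303), (nat_lit 12552662)] (nat_lit 23859669)) p13_14_0 (nat_lit 4) (nat_lit 245) (nat_lit 246) = true := by decide +kernel
def p13_14_0_246 : pfC (piC [(nat_lit 38167130), (nat_lit 25010362), (nat_lit 18643303), (nat_lit 12552662)] (nat_lit 23859669)) p13_14_0 (nat_lit 4) (nat_lit 246) (nat_lit 247) = true := by decide +kernel
def p13_14_0_247 : pfC (piC [(nat_lit 38167130), (nat_lit 25010362), (nat_lit 18643303), (nat_lit 12552662)] (nat_lit 23859669)) p13_14_0 (nat_lit 4) (nat_lit 247) (nat_lit 248) = true := by decide +kernel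
def p13_14_0_248 : pfC (piC [(nat_lit 38167130), (nat_lit 25010362), (nat_lit 18643303), (nat_lit 12552662)] (nat_lit 23859669)) p13_14_0 (nat_lit 4) (nat_lit 248) (nat_lit 249) = true := by decide +kernel
def p13_14_0_249 : pfC (piC [(nat_lit 38167130), (nat_lit 25010362), (nat_lit 18643303), (nat_lit 12552662)] (nat_lit 23859669)) p13_14_0 (nat_lit 4) (nat_lit 249) (nat_lit 250) = true := by decide +kernel
def p13_14_0_250 : pfC (piC [(nat_lit 38167130), (nat_lit 25010362), (nat_lit 18643303), (nat_lit 12552662)] (nat_lit 23859669)) p13_14_0 (nat_lit 4) (nat_lit 250) (nat_lit 251) = true := by decide +kernel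
def p13_14_0_251 : pfC (piC [(nat_lit 38167130), (nat_lit 25010362), (nat_lit 18643303), (nat_lit 12552662)] (nat_lit 23859669)) p13_14_0 (nat_lit 4) (nat_lit 251) (nat_lit 252) = true := by decide +kernel
def p13_14_0_252 : pfC (piC [(nat_lit 38167130), (nat_lit 25010362), (nat_lit 18643303), (nat_lit 12552662)] (nat_lit 23859669)) p13_14_0 (nat_lit 4) (nat_lit 252) (nat_lit 253) = true := by decide +kernel
def p13_14_0_253 : pfC (piC [(nat_lit 38167130), (nat_lit 25010362), (nat_lit 18643303), (nat_lit 12552662)] (nat_lit 23859669)) p13_14_0 (nat_lit 4) (nat_lit 253) (nat_lit 254) = true := by decide +kernel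
def p13_14_0_254 : pfC (piC [(nat_lit 38167130), (nat_lit 25010362), (nat_lit 18643303), (nat_lit 12552662)] (nat_lit 23859669)) p13_14_0 (nat_lit 4) (nat_lit 254) (nat_lit 255) = true := by decide +kernel
def p13_14_0_255 : pfC (piC [(nat_lit 38167130), (nat_lit 25010362), (nat_lit 18643303), (nat_lit 12552662)] (nat_lit 23859669)) p13_14_0 (nat_lit 4) (nat_lit 255) (nat_lit 256) = true := by decide +kernel
def p13_14_0_256 : pfC (piC [(nat_lit 38167130), (nat_lit 25010362), (nat_lit 18643303), (nat_lit 12552662)] (nat_lit 23859669)) p13_14_0 (nat_lit 4) (nat_lit 256) (nat_lit 257) = true := by decide +kernel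
def p13_14_0_257 : pfC (piC [(nat_lit 38167130), (nat_lit 25010362), (nat_lit 18643303), (nat_lit 12552662)] (nat_lit 23859669)) p13_14_0 (nat_lit 4) (nat_lit 257) (nat_lit 258) = true := by decide +kernel
def p13_14_0_258 : pfC (piC [(nat_lit 38167130), (nat_lit 25010362), (nat_lit 18643303), (nat_lit 12552662)] (nat_lit 23859669)) p13_14_0 (nat_lit 4) (nat_lit 258) (nat_lit 259) = true := by decide +kernel
def p13_14_0_259 : pfC (piC [(nat_lit 38167130), (nat_lit 25010362), (nat_lit 18643303), (nat_lit 12552662)] (nat_lit 23859669)) p13_14_0 (nat_lit 4) (nat_lit 259) (nat_lit 260) = true := by decide +kernel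
def p13_14_0_260 : pfC (piC [(nat_lit 38167130), (nat_lit 25010362), (nat_lit 18643303), (nat_lit 12552662)] (nat_lit 23859669)) p13_14_0 (nat_lit 4) (nat_lit 260) (nat_lit 261) = true := by decide +kernel
def p13_14_0_261 : pfC (piC [(nat_lit 38167130), (nat_lit 25010362), (nat_lit 18643303), (nat_lit 12552662)] (nat_lit 23859669)) p13_14_0 (nat_lit 4) (nat_lit 261) (nat_lit 262) = true := by decide +kernel
def p13_14_0_262 : pfC (piC [(nat_lit 38167130), (nat_lit 25010362), (nat_lit 18643303), (nat_lit 12552662)] (nat_lit 23859669)) p13_14_0 (nat_lit 4) (nat_lit 262) (nat_lit 263) = true := by decide +kernel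
def p13_14_0_263 : pfC (piC [(nat_lit 38167130), (nat_lit 25010362), (nat_lit 18643303), (nat_lit 12552662)] (nat_lit 23859669)) p13_14_0 (nat_lit 4) (nat_lit 263) (nat_lit 264) = true := by decide +kernel
def p13_14_0_264 : pfC (piC [(nat_lit 38167130), (nat_lit 25010362), (nat_lit 18643303), (nat_lit 12552662)] (nat_lit 23859669)) p13_14_0 (nat_lit 4) (nat_lit 264) (nat_lit 265) = true := by decide +kernel
def p13_14_0_265 : pfC (piC [(nat_lit 38167130), (nat_lit 25010362), (nat_lit 18643303), (nat_lit 12552662)] (nat_lit 23859669)) p13_14_0 (nat_lit 4) (nat_lit 265) (nat_lit 266) = true := by decide +kernel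
def p13_14_0_266 : pfC (piC [(nat_lit 38167130), (nat_lit 25010362), (nat_lit 18643303), (nat_lit 12552662)] (nat_lit 23859669)) p13_14_0 (nat_lit 4) (nat_lit 266) (nat_lit 267) = true := by decide +kernel
def p13_14_0_267 : pfC (piC [(nat_lit 38167130), (nat_lit 25010362), (nat_lit 18643303), (nat_lit 12552662)] (nat_lit 23859669)) p13_14_0 (nat_lit 4) (nat_lit 267) (nat_lit 268) = true := by decide +kernel
def p13_14_0_268 : pfC (piC [(nat_lit 38167130), (nat_lit 25010362), (nat_lit 18643303), (nat_lit 12552662)] (nat_lit 23859669)) p13_14_0 (nat_lit 4) (nat_lit 268) (nat_lit 269) = true := by decide +kernel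
def p13_14_0_269 : pfC (piC [(nat_lit 38167130), (nat_lit 25010362), (nat_lit 18643303), (nat_lit 12552662)] (nat_lit 23859669)) p13_14_0 (nat_lit 4) (nat_lit 269) (nat_lit 270) = true := by decide +kernel
def p13_14_0_270 : pfC (piC [(nat_lit 38167130), (nat_lit 25010362), (nat_lit 18643303), (nat_lit 12552662)] (nat_lit 23859669)) p13_14_0 (nat_lit 4) (nat_lit 270) (nat_lit 271) = true := by decide +kernel
def p13_14_0_271 : pfC (piC [(nat_lit 38167130), (nat_lit 25010362), (nat_lit 18643303), (nat_lit 12552662)] (nat_lit 23859669)) p13_14_0 (nat_lit 4) (nat_lit 271) (nat_lit 272) = true := by decide +kernel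
def p13_14_0_272 : pfC (piC [(nat_lit 38167130), (nat_lit 25010362), (nat_lit 18643303), (nat_lit 12552662)] (nat_lit 23859669)) p13_14_0 (nat_lit 4) (nat_lit 272) (nat_lit 273) = true := by decide +kernel
def p13_14_0_273 : pfC (piC [(nat_lit 38167130), (nat_lit 25010362), (nat_lit 18643303), (nat_lit 12552662)] (nat_lit 23859669)) p13_14_0 (nat_lit 4) (nat_lit 273) (nat_lit 274) = true := by decide +kernel
def p13_14_0_274 : pfC (piC [(nat_lit 38167130), (nat_lit 25010362), (nat_lit 18643303), (nat_lit 12552662)] (nat_lit 23859669)) p13_14_0 (nat_lit 4) (nat_lit 274) (nat_lit 275) = true := by decide +kernel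
def p13_14_0_275 : pfC (piC [(nat_lit 38167130), (nat_lit 25010362), (nat_lit 18643303), (nat_lit 12552662)] (nat_lit 23859669)) p13_14_0 (nat_lit 4) (nat_lit 275) (nat_lit 276) = true := by decide +kernel
def p13_14_0_276 : pfC (piC [(nat_lit 38167130), (nat_lit 25010362), (nat_lit 18643303), (nat_lit 12552662)] (nat_lit 23859669)) p13_14_0 (nat_lit 4) (nat_lit 276) (nat_lit 277) = true := by decide +kernel
def p13_14_0_277 : pfC (piC [(nat_lit 38167130), (nat_lit 25010362), (nat_lit 18643303), (nat_lit 12552662)] (nat_lit 23859669)) p13_14_0 (nat_lit 4) (nat_lit 277) (nat_lit 278) = true := by decide +kernel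
def p13_14_0_278 : pfC (piC [(nat_lit 38167130), (nat_lit 25010362), (nat_lit 18643303), (nat_lit 12552662)] (nat_lit 23859669)) p13_14_0 (nat_lit 4) (nat_lit 278) (nat_lit 279) = true := by decide +kernel
def p13_14_0_279 : pfC (piC [(nat_lit 38167130), (nat_lit 25010362), (nat_lit 18643303), (nat_lit 12552662)] (nat_lit 23859669)) p13_14_0 (nat_lit 4) (nat_lit 279) (nat_lit 280) = true := by decide +kernel
def p13_14_0_280 : pfC (piC [(nat_lit 38167130), (nat_lit 25010362), (nat_lit 18643303), (nat_lit 12552662)] (nat_lit 23859669)) p13_14_0 (nat_lit 4) (nat_lit 280) (nat_lit 281) = true := by decide +kernel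
def p13_14_0_281 : pfC (piC [(nat_lit 38167130), (nat_lit 25010362), (nat_lit 18643303), (nat_lit 12552662)] (nat_lit 23859669)) p13_14_0 (nat_lit 4) (nat_lit 281) (nat_lit 282) = true := by decide +kernel
def p13_14_0_282 : pfC (piC [(nat_lit 38167130), (nat_lit 25010362), (nat_lit 18643303), (nat_lit 12552662)] (nat_lit 23859669)) p13_14_0 (nat_lit 4) (nat_lit 282) (nat_lit 283) = true := by decide +kernel
def p13_14_0_283 : pfC (piC [(nat_lit 38167130), (nat_lit 25010362), (nat_lit 18643303), (nat_lit 12552662)] (nat_lit 23859669)) p13_14_0 (nat_lit 4) (nat_lit 283) (nat_lit 284) = true := by decide +kernel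
def p13_14_0_284 : pfC (piC [(nat_lit 38167130), (nat_lit 25010362), (nat_lit 18643303), (nat_lit 12552662)] (nat_lit 23859669)) p13_14_0 (nat_lit 4) (nat_lit 284) (nat_lit 285) = true := by decide +kernel
def p13_14_0_285 : pfC (piC [(nat_lit 38167130), (nat_lit 25010362), (nat_lit 18643303), (nat_lit 12552662)] (nat_lit 23859669)) p13_14_0 (nat_lit 4) (nat_lit 285) (nat_lit 286) = true := by decide +kernel
def p13_14_0_286 : pfC (piC [(nat_lit 38167130), (nat_lit 25010362), (nat_lit 18643303), (nat_lit 12552662)] (nat_lit 23859669)) p13_14_0 (nat_lit 4) (nat_lit 286) (nat_lit 287) = true := by decide +kernel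
def p13_14_0_287 : pfC (piC [(nat_lit 38167130), (nat_lit 25010362), (nat_lit 18643303), (nat_lit 12552662)] (nat_lit 23859669)) p13_14_0 (nat_lit 4) (nat_lit 287) (nat_lit 288) = true := by decide +kernel
def p13_14_0_288 : pfC (piC [(nat_lit 38167130), (nat_lit 25010362), (nat_lit 18643303), (nat_lit 12552662)] (nat_lit 23859669)) p13_14_0 (nat_lit 4) (nat_lit 288) (nat_lit 289) = true := by decide +kernel
def p13_14_0_289 : pfC (piC [(nat_lit 38167130), (nat_lit 25010362), (nat_lit 18643303), (nat_lit 12552662)] (nat_lit 23859669)) p13_14_0 (nat_lit 4) (nat_lit 289) (nat_lit 290) = true := by decide +kernel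
def p13_14_0_290 : pfC (piC [(nat_lit 38167130), (nat_lit 25010362), (nat_lit 18643303), (nat_lit 12552662)] (nat_lit 23859669)) p13_14_0 (nat_lit 4) (nat_lit 290) (nat_lit 291) = true := by decide +kernel
def p13_14_0_291 : pfC (piC [(nat_lit 38167130), (nat_lit 25010362), (nat_lit 18643303), (nat_lit 12552662)] (nat_lit 23859669)) p13_14_0 (nat_lit 4) (nat_lit 291) (nat_lit 292) = true := by decide +kernel
def p13_14_0_292 : pfC (piC [(nat_lit 38167130), (nat_lit 25010362), (nat_lit 18643303), (nat_lit 12552662)] (nat_lit 23859669)) p13_14_0 (nat_lit 4) (nat_lit 292) (nat_lit 293) = true := by decide +kernel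
def p13_14_0_293 : pfC (piC [(nat_lit 38167130), (nat_lit 25010362), (nat_lit 18643303), (nat_lit 12552662)] (nat_lit 23859669)) p13_14_0 (nat_lit 4) (nat_lit 293) (nat_lit 294) = true := by decide +kernel
def p13_14_0_294 : pfC (piC [(nat_lit 38167130), (nat_lit 25010362), (nat_lit 18643303), (nat_lit 12552662)] (nat_lit 23859669)) p13_14_0 (nat_lit 4) (nat_lit 294) (nat_lit 295) = true := by decide +kernel
def p13_14_0_295 : pfC (piC [(nat_lit 38167130), (nat_lit 25010362), (nat_lit 18643303), (nat_lit 12552662)] (nat_lit 23859669)) p13_14_0 (nat_lit 4) (nat_lit 295) (nat_lit 296) = true := by decide +kernel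
theorem p13_14_0_T : PfS (PiF n13_14.reverse (nat_lit 23859669)) p13_14_0 (nat_lit 4) [] 0 :=
  pftab_of (los := [(nat_lit 38167130), (nat_lit 25010362), (nat_lit 18643303), (nat_lit 12552662)]) (by decide +kernel) (hi := (nat_lit 296)) (PfP.trans (PfP.trans (PfP.trans (PfP.trans (PfP.trans (PfP.trans (PfP.trans (PfP.trans (PfP.trans (PfP.trans (PfP.trans (PfP.trans (PfP.trans (PfP.trans (PfP.trans (PfP.trans (PfP.trans (PfP.trans (PfP.trans (PfP.trans (PfP.trans (PfP.trans (PfP.trans (PfP.trans (PfP.trans (PfP.trans (PfP.trans (PfP.trans (PfP.trans (PfP.trans (PfP.trans (PfP.trans (PfP.trans (PfP.trans (PfP.trans (PfP.trans (PfP.trans (PfP.trans (PfP.trans (PfP.trans (PfP.trans (PfP.trans (PfP.trans (PfP.trans (PfP.trans (PfP.trans (PfP.trans (PfP.trans (PfP.trans (PfP.trans (PfP.trans (PfP.trans (PfP.trans (PfP.trans (PfP.trans (PfP.trans (PfP.trans (PfP.trans (PfP.trans (PfP.trans (PfP.trans (PfP.trans (PfP.trans (PfP.trans (PfP.trans (PfP.trans (PfP.trans (PfP.trans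 (PfP.trans (PfP.trans (PfP.trans (PfP.trans (PfP.trans (PfP.trans (PfP.trans (PfP.trans (PfP.trans (PfP.trans (PfP.trans (PfP.trans (PfP.trans (PfP.trans (PfP.trans (PfP.trans (PfP.trans (PfP.trans (PfP.trans (PfP.trans (PfP.trans (PfP.trans (PfP.trans (PfP.trans (PfP.trans (PfP.trans (PfP.trans (PfP.trans (PfP.trans (PfP.trans (PfP.trans (PfP.trans (PfP.trans (PfP.trans (PfP.trans (PfP.trans (PfP.trans (PfP.trans (PfP.trans (PfP.trans (PfP.trans
 (PfP.trans (PfP.trans (PfP.trans (PfP.trans (PfP.trans (PfP.trans (PfP.trans (PfP.trans (PfP.trans (PfP.trans (PfP.trans (PfP.trans (PfP.trans (PfP.trans (PfP.trans (PfP.trans (PfP.trans (PfP.trans (PfP.trans (PfP.trans (PfP.trans (PfP.trans (PfP.trans (PfP.trans (PfP.trans (PfP.trans (PfP.trans (PfP.trans (PfP.trans (PfP.trans (PfP.trans (PfP.trans (PfP.trans (PfP.trans (PfP.trans (PfP.trans (PfP.trans (PfP.trans (PfP.trans (PfP.trans (PfP.trans (PfP.trans (PfP.trans (PfP.trans (PfP.trans (PfP.trans (PfP.trans (PfP.trans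 (PfP.trans (PfP.trans (PfP.trans (PfP.trans (PfP.trans (PfP.trans (PfP.trans (PfP.trans (PfP.trans (PfP.trans (PfP.trans (PfP.trans (PfP.trans (PfP.trans (PfP.trans (PfP.trans (PfP.trans (PfP.trans (PfP.trans (PfP.trans (PfP.trans (PfP.trans (PfP.trans (PfP.trans (PfP.trans (PfP.trans (PfP.trans (PfP.trans (PfP.trans (PfP.trans (PfP.trans (PfP.trans (PfP.trans (PfP.trans (PfP.trans (PfP.trans (PfP.trans (PfP.trans (PfP.trans (PfP.trans (PfP.trans (PfP.trans (PfP.trans (PfP.trans (PfP.trans (PfP.trans (PfP.trans (PfP.trans (PfP.trans (PfP.trans (PfP.trans (PfP.trans (PfP.trans (PfP.trans (PfP.trans (PfP.trans (PfP.trans (PfP.trans (PfP.trans (PfP.trans (PfP.trans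
 (PfP.trans (PfP.trans (PfP.trans (PfP.trans (PfP.trans (PfP.trans (PfP.trans (PfP.trans (PfP.trans (PfP.trans (PfP.trans (PfP.trans (PfP.trans (PfP.trans (PfP.trans (PfP.trans (PfP.trans (PfP.trans (PfP.trans (PfP.trans (PfP.trans (PfP.trans (PfP.trans (PfP.trans (PfP.trans (PfP.trans (PfP.trans (PfP.trans (PfP.trans (PfP.trans (PfP.trans (PfP.trans (PfP.trans (PfP.trans (PfP.trans (PfP.trans (PfP.trans (PfP.trans (PfP.trans (PfP.trans (PfP.trans (PfP.trans (PfP.trans (PfP.trans (PfP.trans (PfP.trans (PfP.trans (PfP.trans (PfP.trans (PfP.trans (PfP.trans (PfP.trans (PfP.trans (PfP.trans (PfP.trans (PfP.trans (PfP.trans (PfP.trans (PfP.trans (PfP.trans (PfP.trans (PfP.trans (PfP.trans (PfP.trans (PfP.trans (PfP.trans (PfP.trans (PfP.trans (PfP.trans (PfP.trans (PfP.trans (PfP.trans (PfP.trans (PfP.trans (PfP.trans (PfP.trans (PfP.trans (pfC_sound p13_14_0_0) (pfC_sound p13_14_0_1)) (pfC_sound p13_14_0_2)) (pfC_sound p13_14_0_3)) (pfC_sound p13_14_0_4)) (pfC_sound p13_14_0_5))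 (pfC_sound p13_14_0_6)) (pfC_sound p13_14_0_7)) (pfC_sound p13_14_0_8)) (pfC_sound p13_14_0_9)) (pfC_sound p13_14_0_10)) (pfC_sound p13_14_0_11)) (pfC_sound p13_14_0_12)) (pfC_sound p13_14_0_13)) (pfC_sound
 p13_14_0_14)) (pfC_sound p13_14_0_15)) (pfC_sound p13_14_0_16)) (pfC_sound p13_14_0_17)) (pfC_sound p13_14_0_18)) (pfC_sound p13_14_0_19)) (pfC_sound p13_14_0_20)) (pfC_sound p13_14_0_21)) (pfC_sound p13_14_0_22)) (pfC_sound p13_14_0_23)) (pfC_sound p13_14_0_24)) (pfC_sound p13_14_0_25)) (pfC_sound p13_14_0_26)) (pfC_sound p13_14_0_27)) (pfC_sound p13_14_0_28)) (pfC_sound p13_14_0_29)) (pfC_sound p13_14_0_30)) (pfC_sound p13_14_0_31)) (pfC_sound p13_14_0_32)) (pfC_sound p13_14_0_33)) (pfC_sound p13_14_0_34)) (pfC_sound p13_14_0_35)) (pfC_sound p13_14_0_36)) (pfC_sound p13_14_0_37)) (pfC_sound p13_14_0_38)) (pfC_sound p13_14_0_39)) (pfC_sound p13_14_0_40)) (pfC_sound p13_14_0_41)) (pfC_sound p13_14_0_42)) (pfC_sound p13_14_0_43)) (pfC_sound p13_14_0_44)) (pfC_sound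 p13_14_0_45)) (pfC_sound p13_14_0_46)) (pfC_sound p13_14_0_47)) (pfC_sound p13_14_0_48)) (pfC_sound p13_14_0_49)) (pfC_sound p13_14_0_50)) (pfC_sound p13_14_0_51)) (pfC_sound p13_14_0_52)) (pfC_sound p13_14_0_53)) (pfC_sound p13_14_0_54)) (pfC_sound p13_14_0_55)) (pfC_sound p13_14_0_56)) (pfC_sound p13_14_0_57)) (pfC_sound p13_14_0_58)) (pfC_sound p13_14_0_59)) (pfC_sound p13_14_0_60)) (pfC_sound p13_14_0_61)) (pfC_sound
 p13_14_0_62)) (pfC_sound p13_14_0_63)) (pfC_sound p13_14_0_64)) (pfC_sound p13_14_0_65)) (pfC_sound p13_14_0_66)) (pfC_sound p13_14_0_67)) (pfC_sound p13_14_0_68)) (pfC_sound p13_14_0_69)) (pfC_sound p13_14_0_70)) (pfC_sound p13_14_0_71)) (pfC_sound p13_14_0_72)) (pfC_sound p13_14_0_73)) (pfC_sound p13_14_0_74)) (pfC_sound p13_14_0_75)) (pfC_sound p13_14_0_76)) (pfC_sound p13_14_0_77)) (pfC_sound p13_14_0_78)) (pfC_sound p13_14_0_79)) (pfC_sound p13_14_0_80)) (pfC_sound p13_14_0_81)) (pfC_sound p13_14_0_82)) (pfC_sound p13_14_0_83)) (pfC_sound p13_14_0_84))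 (pfC_sound p13_14_0_85)) (pfC_sound p13_14_0_86)) (pfC_sound p13_14_0_87)) (pfC_sound p13_14_0_88)) (pfC_sound p13_14_0_89)) (pfC_sound p13_14_0_90)) (pfC_sound p13_14_0_91)) (pfC_sound p13_14_0_92)) (pfC_sound p13_14_0_93)) (pfC_sound p13_14_0_94)) (pfC_sound p13_14_0_95)) (pfC_sound p13_14_0_96)) (pfC_sound p13_14_0_97)) (pfC_sound p13_14_0_98)) (pfC_sound p13_14_0_99)) (pfC_sound p13_14_0_100)) (pfC_sound p13_14_0_101)) (pfC_sound p13_14_0_102)) (pfC_sound p13_14_0_103)) (pfC_sound p13_14_0_104)) (pfC_sound p13_14_0_105)) (pfC_sound p13_14_0_106)) (pfC_sound p13_14_0_107)) (pfC_sound p13_14_0_108)) (pfC_sound p13_14_0_109))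
 (pfC_sound p13_14_0_110)) (pfC_sound p13_14_0_111)) (pfC_sound p13_14_0_112)) (pfC_sound p13_14_0_113)) (pfC_sound p13_14_0_114)) (pfC_sound p13_14_0_115)) (pfC_sound p13_14_0_116)) (pfC_sound p13_14_0_117)) (pfC_sound p13_14_0_118)) (pfC_sound p13_14_0_119)) (pfC_sound p13_14_0_120)) (pfC_sound p13_14_0_121)) (pfC_sound p13_14_0_122)) (pfC_sound p13_14_0_123)) (pfC_sound p13_14_0_124)) (pfC_sound p13_14_0_125)) (pfC_sound p13_14_0_126)) (pfC_sound p13_14_0_127)) (pfC_sound p13_14_0_128)) (pfC_sound p13_14_0_129)) (pfC_sound p13_14_0_130)) (pfC_sound p13_14_0_131)) (pfC_sound p13_14_0_132)) (pfC_sound p13_14_0_133)) (pfC_sound p13_14_0_134)) (pfC_sound p13_14_0_135)) (pfC_sound p13_14_0_136)) (pfC_sound p13_14_0_137)) (pfC_sound p13_14_0_138)) (pfC_sound p13_14_0_139)) (pfC_sound p13_14_0_140)) (pfC_sound p13_14_0_141)) (pfC_sound p13_14_0_142)) (pfC_sound p13_14_0_143)) (pfC_sound p13_14_0_144)) (pfC_sound p13_14_0_145)) (pfC_sound p13_14_0_146)) (pfC_sound p13_14_0_147))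 (pfC_sound p13_14_0_148)) (pfC_sound p13_14_0_149)) (pfC_sound p13_14_0_150)) (pfC_sound p13_14_0_151)) (pfC_sound p13_14_0_152)) (pfC_sound p13_14_0_153)) (pfC_sound p13_14_0_154)) (pfC_sound p13_14_0_155))
 (pfC_sound p13_14_0_156)) (pfC_sound p13_14_0_157)) (pfC_sound p13_14_0_158)) (pfC_sound p13_14_0_159)) (pfC_sound p13_14_0_160)) (pfC_sound p13_14_0_161)) (pfC_sound p13_14_0_162)) (pfC_sound p13_14_0_163)) (pfC_sound p13_14_0_164)) (pfC_sound p13_14_0_165)) (pfC_sound p13_14_0_166)) (pfC_sound p13_14_0_167)) (pfC_sound p13_14_0_168)) (pfC_sound p13_14_0_169)) (pfC_sound p13_14_0_170)) (pfC_sound p13_14_0_171)) (pfC_sound p13_14_0_172)) (pfC_sound p13_14_0_173)) (pfC_sound p13_14_0_174)) (pfC_sound p13_14_0_175)) (pfC_sound p13_14_0_176)) (pfC_sound p13_14_0_177)) (pfC_sound p13_14_0_178)) (pfC_sound p13_14_0_179)) (pfC_sound p13_14_0_180)) (pfC_sound p13_14_0_181)) (pfC_sound p13_14_0_182)) (pfC_sound p13_14_0_183)) (pfC_sound p13_14_0_184)) (pfC_sound p13_14_0_185))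 (pfC_sound p13_14_0_186)) (pfC_sound p13_14_0_187)) (pfC_sound p13_14_0_188)) (pfC_sound p13_14_0_189)) (pfC_sound p13_14_0_190)) (pfC_sound p13_14_0_191)) (pfC_sound p13_14_0_192)) (pfC_sound p13_14_0_193)) (pfC_sound p13_14_0_194)) (pfC_sound p13_14_0_195)) (pfC_sound p13_14_0_196)) (pfC_sound p13_14_0_197)) (pfC_sound p13_14_0_198)) (pfC_sound p13_14_0_199)) (pfC_sound p13_14_0_200)) (pfC_sound p13_14_0_201))
 (pfC_sound p13_14_0_202)) (pfC_sound p13_14_0_203)) (pfC_sound p13_14_0_204)) (pfC_sound p13_14_0_205)) (pfC_sound p13_14_0_206)) (pfC_sound p13_14_0_207)) (pfC_sound p13_14_0_208)) (pfC_sound p13_14_0_209)) (pfC_sound p13_14_0_210)) (pfC_sound p13_14_0_211)) (pfC_sound p13_14_0_212)) (pfC_sound p13_14_0_213)) (pfC_sound p13_14_0_214)) (pfC_sound p13_14_0_215)) (pfC_sound p13_14_0_216)) (pfC_sound p13_14_0_217)) (pfC_sound p13_14_0_218)) (pfC_sound p13_14_0_219)) (pfC_sound p13_14_0_220)) (pfC_sound p13_14_0_221)) (pfC_sound p13_14_0_222)) (pfC_sound p13_14_0_223))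 (pfC_sound p13_14_0_224)) (pfC_sound p13_14_0_225)) (pfC_sound p13_14_0_226)) (pfC_sound p13_14_0_227)) (pfC_sound p13_14_0_228)) (pfC_sound p13_14_0_229)) (pfC_sound p13_14_0_230)) (pfC_sound p13_14_0_231)) (pfC_sound p13_14_0_232)) (pfC_sound p13_14_0_233)) (pfC_sound p13_14_0_234)) (pfC_sound p13_14_0_235)) (pfC_sound p13_14_0_236)) (pfC_sound p13_14_0_237)) (pfC_sound p13_14_0_238)) (pfC_sound p13_14_0_239)) (pfC_sound p13_14_0_240)) (pfC_sound p13_14_0_241)) (pfC_sound p13_14_0_242)) (pfC_sound p13_14_0_243)) (pfC_sound p13_14_0_244)) (pfC_sound p13_14_0_245)) (pfC_sound p13_14_0_246)) (pfC_sound p13_14_0_247))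
 (pfC_sound p13_14_0_248)) (pfC_sound p13_14_0_249)) (pfC_sound p13_14_0_250)) (pfC_sound p13_14_0_251)) (pfC_sound p13_14_0_252)) (pfC_sound p13_14_0_253)) (pfC_sound p13_14_0_254)) (pfC_sound p13_14_0_255)) (pfC_sound p13_14_0_256)) (pfC_sound p13_14_0_257)) (pfC_sound p13_14_0_258)) (pfC_sound p13_14_0_259)) (pfC_sound p13_14_0_260)) (pfC_sound p13_14_0_261)) (pfC_sound p13_14_0_262)) (pfC_sound p13_14_0_263)) (pfC_sound p13_14_0_264)) (pfC_sound p13_14_0_265)) (pfC_sound p13_14_0_266)) (pfC_sound p13_14_0_267)) (pfC_sound p13_14_0_268)) (pfC_sound p13_14_0_269)) (pfC_sound p13_14_0_270)) (pfC_sound p13_14_0_271)) (pfC_sound p13_14_0_272)) (pfC_sound p13_14_0_273)) (pfC_sound p13_14_0_274)) (pfC_sound p13_14_0_275)) (pfC_sound p13_14_0_276)) (pfC_sound p13_14_0_277)) (pfC_sound p13_14_0_278)) (pfC_sound p13_14_0_279)) (pfC_sound p13_14_0_280)) (pfC_sound p13_14_0_281)) (pfC_sound p13_14_0_282)) (pfC_sound p13_14_0_283)) (pfC_sound p13_14_0_284)) (pfC_sound p13_14_0_285))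 (pfC_sound p13_14_0_286)) (pfC_sound p13_14_0_287)) (pfC_sound p13_14_0_288)) (pfC_sound p13_14_0_289)) (pfC_sound p13_14_0_290)) (pfC_sound p13_14_0_291)) (pfC_sound p13_14_0_292)) (pfC_sound p13_14_0_293))
 (pfC_sound p13_14_0_294)) (pfC_sound p13_14_0_295)) (by decide +kernel)

def z13_14_0 : zOK yB13_14 (nat_lit 0) (nat_lit 0) (nat_lit 400) (nat_lit 23859669) (nat_lit 10817553) = true := by decide +kernel
def g13_14_0 : gOK yB13_14.x P13_14 (nat_lit 1412) (q13_14 :: r13_14) (nat_lit 0) (nat_lit 0) (nat_lit 1) (nat_lit 400) (nat_lit 0) (nat_lit 11000000) (nat_lit 12712500) (nat_lit 12712500) [(nat_lit 800), (nat_lit 1600)] = true := by decide +kernel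
def v13_14_0 : ivC P13_14 s13_14 w13_14 n13_14 (nat_lit 4) (nat_lit 5380) (nat_lit 0) (nat_lit 0) f160_1_0 f168_1_0 (nat_lit 1) (nat_lit 400) f160_1_400 f168_1_400 (nat_lit 23859669) (nat_lit 10817553) p13_14_0 = true := by decide +kernel
def p13_14_1 : PF := (PF.cons (PF.cons (PF.cons (PF.cons (PF.leaf (nat_lit 2033415) (nat_lit 9458957) (nat_lit 57649855) (nat_lit 9458957) [(nat_lit 0), (nat_lit 0), (nat_lit 0), (nat_lit 0)]) (PF.cons (PF.leaf (nat_lit 2213198) (nat_lit 310461) (nat_lit 57310678) (nat_lit 9487673) [(nat_lit 310461), (nat_lit 0), (nat_lit 0), (nat_lit 0)]) (PF.cons (PF.leaf (nat_lit 2426055) (nat_lit 338140) (nat_lit 56913939) (nat_lit 9518592) [(nat_lit 338140), (nat_lit 0), (nat_lit 0), (nat_lit 0)]) (PF.cons (PF.leaf (nat_lit 2665429) (nat_lit 362837) (nat_lit 56470363) (nat_lit 9549938) [(nat_lit 362837), (nat_lit 0), (nat_lit 0), (nat_lit 0)]) (PF.cons (PF.leaf (nat_lit 2927632) (nat_lit 385204) (nat_lit 55987614) (nat_lit 9580381) [(nat_lit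 385204), (nat_lit 0), (nat_lit 0), (nat_lit 0)]) (PF.cons (PF.leaf (nat_lit 3209770) (nat_lit 405648) (nat_lit 55471668) (nat_lit 9608900) [(nat_lit 405648), (nat_lit 0), (nat_lit 0), (nat_lit 0)]) (PF.cons (PF.leaf (nat_lit 3509450) (nat_lit 424444) (nat_lit 54927440) (nat_lit 9634705) [(nat_lit 424444), (nat_lit 0), (nat_lit 0), (nat_lit 0)]) (PF.cons (PF.leaf (nat_lit 3824631) (nat_lit 441786) (nat_lit 54359119) (nat_lit 9657190) [(nat_lit 441786), (nat_lit 0), (nat_lit
 0), (nat_lit 0)]) (PF.cons (PF.leaf (nat_lit 4153504) (nat_lit 457818) (nat_lit 53770363) (nat_lit 9675901) [(nat_lit 457818), (nat_lit 0), (nat_lit 0), (nat_lit 0)]) (PF.cons PF.nil PF.nil)))))))))) (PF.cons (PF.cons (PF.leaf (nat_lit 2622565) (nat_lit 1357797) (nat_lit 56190592) (nat_lit 9560422) [(nat_lit 0), (nat_lit 1357797), (nat_lit 0), (nat_lit 0)]) (PF.cons (PF.leaf (nat_lit 2855099) (nat_lit 374279) (nat_lit 55752574) (nat_lit 9586251) [(nat_lit 374279), (nat_lit 1395706), (nat_lit 0),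 (nat_lit 0)]) (PF.cons (PF.leaf (nat_lit 3112671) (nat_lit 395882) (nat_lit 55273112) (nat_lit 9611195) [(nat_lit 395882), (nat_lit 1432740), (nat_lit 0), (nat_lit 0)]) (PF.cons (PF.leaf (nat_lit 3390892) (nat_lit 415542) (nat_lit 54759649) (nat_lit 9634219) [(nat_lit 415542), (nat_lit 1468315), (nat_lit 0), (nat_lit 0)]) (PF.cons (PF.leaf (nat_lit 3686999) (nat_lit 433567) (nat_lit 54217855) (nat_lit 9654558) [(nat_lit 433567), (nat_lit 1502128), (nat_lit 0), (nat_lit 0)]) (PF.cons (PF.leaf (nat_lit 3998718) (nat_lit 450163) (nat_lit 53652328) (nat_lit 9671644) [(nat_lit 450163), (nat_lit 1534023), (nat_lit 0), (nat_lit 0)]) (PF.cons (PF.leaf (nat_lit 4324101) (nat_lit 465479) (nat_lit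
 53066944) (nat_lit 9685061) [(nat_lit 465479), (nat_lit 1563929), (nat_lit 0), (nat_lit 0)]) (PF.cons (PF.leaf (nat_lit 4661435) (nat_lit 479630) (nat_lit 52465055) (nat_lit 9694515) [(nat_lit 479630), (nat_lit 1591825), (nat_lit 0), (nat_lit 0)]) (PF.cons PF.nil PF.nil))))))))) (PF.cons (PF.cons (PF.leaf (nat_lit 3301410) (nat_lit 1465655) (nat_lit 54542053) (nat_lit 9635447) [(nat_lit 0), (nat_lit 1465655), (nat_lit 0), (nat_lit 0)]) (PF.cons (PF.leaf (nat_lit 3573331) (nat_lit 424108) (nat_lit 54036113) (nat_lit 9653124) [(nat_lit 424108), (nat_lit 1497733), (nat_lit 0), (nat_lit 0)]) (PF.cons (PF.leaf (nat_lit 3864556) (nat_lit 441552) (nat_lit 53500555) (nat_lit 9668213) [(nat_lit 441552), (nat_lit 1528469), (nat_lit 0), (nat_lit 0)]) (PF.cons (PF.leaf (nat_lit 4171845) (nat_lit 457543) (nat_lit 52940813) (nat_lit 9680157) [(nat_lit 457543), (nat_lit 1557605), (nat_lit 0), (nat_lit 0)]) (PF.cons (PF.leaf (nat_lit 4493008) (nat_lit 472254) (nat_lit 52361223) (nat_lit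 9688564) [(nat_lit 472254), (nat_lit 1585003), (nat_lit 0), (nat_lit 0)]) (PF.cons (PF.leaf (nat_lit 4826178) (nat_lit 485810) (nat_lit 51765398) (nat_lit 9693164) [(nat_lit 485810), (nat_lit 1610599), (nat_lit
 0), (nat_lit 0)]) (PF.cons PF.nil PF.nil))))))) (PF.cons (PF.cons (PF.leaf (nat_lit 4043681) (nat_lit 1552547) (nat_lit 52775318) (nat_lit 9675852) [(nat_lit 0), (nat_lit 1552547), (nat_lit 0), (nat_lit 0)]) (PF.cons (PF.leaf (nat_lit 4344850) (nat_lit 463946) (nat_lit 52224701) (nat_lit 9682945) [(nat_lit 463946), (nat_lit 1579073), (nat_lit 0), (nat_lit 0)]) (PF.cons (PF.leaf (nat_lit 4660875) (nat_lit 478166) (nat_lit 51653501) (nat_lit 9686648) [(nat_lit 478166), (nat_lit 1604109), (nat_lit 0), (nat_lit 0)]) (PF.cons (PF.leaf (nat_lit 4989189) (nat_lit 491218) (nat_lit 51065817) (nat_lit 9686709) [(nat_lit 491218), (nat_lit 1627543), (nat_lit 0), (nat_lit 0)]) (PF.cons (PF.leaf (nat_lit 5328062) (nat_lit 503212) (nat_lit 50465018) (nat_lit 9682974) [(nat_lit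 503212), (nat_lit 1649323), (nat_lit 0), (nat_lit 0)]) PF.nil))))) (PF.cons (PF.cons (PF.leaf (nat_lit 4828883) (nat_lit 1621404) (nat_lit 50943662) (nat_lit 9679530) [(nat_lit 0), (nat_lit 1621404), (nat_lit 0), (nat_lit 0)]) (PF.cons (PF.leaf (nat_lit 5151148) (nat_lit 495867) (nat_lit 50366390) (nat_lit 9675383) [(nat_lit 495867), (nat_lit 1642792), (nat_lit 0), (nat_lit 0)]) (PF.cons (PF.leaf (nat_lit 5484669) (nat_lit
 507436) (nat_lit 49775555) (nat_lit 9667615) [(nat_lit 507436), (nat_lit 1662692), (nat_lit 0), (nat_lit 0)]) (PF.cons PF.nil PF.nil)))) (PF.cons (PF.cons (PF.leaf (nat_lit 5640540) (nat_lit 1674588) (nat_lit 49087945) (nat_lit 9647925) [(nat_lit 0), (nat_lit 1674588), (nat_lit 0), (nat_lit 0)]) (PF.cons (PF.leaf (nat_lit 5977246) (nat_lit 521221) (nat_lit 48498041) (nat_lit 9632951) [(nat_lit 521221), (nat_lit 1691319), (nat_lit 0), (nat_lit 0)]) PF.nil)) (PF.cons PF.nil (PF.cons PF.nil PF.nil)))))))) (PF.cons (PF.cons (PF.cons (PF.leaf (nat_lit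 3214024) (nat_lit 3505918) (nat_lit 53982860) (nat_lit 9620034) [(nat_lit 0), (nat_lit 0), (nat_lit 3505918), (nat_lit 0)]) (PF.cons (PF.leaf (nat_lit 3457446) (nat_lit 402620) (nat_lit 53532296) (nat_lit 9633629) [(nat_lit 402620), (nat_lit 0), (nat_lit 3540266), (nat_lit 0)]) (PF.cons (PF.leaf (nat_lit 3724475) (nat_lit 422699) (nat_lit 53043482) (nat_lit 9645456) [(nat_lit 422699), (nat_lit 0), (nat_lit 3574475), (nat_lit 0)]) (PF.cons (PF.leaf (nat_lit 4010604) (nat_lit 440694) (nat_lit 52524241) (nat_lit 9654813) [(nat_lit 440694), (nat_lit 0), (nat_lit 3607673), (nat_lit 0)]) (PF.cons (PF.leaf (nat_lit 4312946) (nat_lit 456985)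
 (nat_lit 51980378) (nat_lit 9661200) [(nat_lit 456985), (nat_lit 0), (nat_lit 3639290), (nat_lit 0)]) (PF.cons (PF.leaf (nat_lit 4629197) (nat_lit 471824) (nat_lit 51416475) (nat_lit 9664267) [(nat_lit 471824), (nat_lit 0), (nat_lit 3668948), (nat_lit 0)]) (PF.cons (PF.leaf (nat_lit 4957416) (nat_lit 485388) (nat_lit 50836303) (nat_lit 9663774) [(nat_lit 485388), (nat_lit 0), (nat_lit 3696402), (nat_lit 0)]) (PF.cons PF.nil (PF.cons PF.nil PF.nil))))))))) (PF.cons (PF.cons (PF.leaf (nat_lit 3907308) (nat_lit 1531352) (nat_lit 52317970) (nat_lit 9650668) [(nat_lit 0), (nat_lit 1531352), (nat_lit 3608821), (nat_lit 0)]) (PF.cons (PF.leaf (nat_lit 4185890) (nat_lit 446887) (nat_lit 51810219) (nat_lit 9655603) [(nat_lit 446887), (nat_lit 1558185), (nat_lit 3637916), (nat_lit 0)]) (PF.cons (PF.leaf (nat_lit 4482245) (nat_lit 462777) (nat_lit 51276164) (nat_lit 9657668) [(nat_lit 462777), (nat_lit 1583679), (nat_lit 3665745), (nat_lit 0)]) (PF.cons (PF.leaf (nat_lit 4793125)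 (nat_lit 477168) (nat_lit 50721257) (nat_lit 9656529) [(nat_lit 477168), (nat_lit 1607647), (nat_lit 3691873), (nat_lit 0)]) (PF.cons (PF.leaf (nat_lit 5116323) (nat_lit 490267) (nat_lit 50149753) (nat_lit 9651966)
 [(nat_lit 490267), (nat_lit 1629998), (nat_lit 3716024), (nat_lit 0)]) (PF.cons (PF.leaf (nat_lit 5450051) (nat_lit 502223) (nat_lit 49565122) (nat_lit 9643851) [(nat_lit 502223), (nat_lit 1650698), (nat_lit 3738021), (nat_lit 0)]) (PF.cons PF.nil PF.nil))))))) (PF.cons (PF.cons (PF.leaf (nat_lit 4653054) (nat_lit 1601632) (nat_lit 50567571) (nat_lit 9649021) [(nat_lit 0), (nat_lit 1601632), (nat_lit 3688954), (nat_lit 0)]) (PF.cons (PF.leaf (nat_lit 4956984) (nat_lit 481663) (nat_lit 50024531) (nat_lit 9644001) [(nat_lit 481663), (nat_lit 1623439), (nat_lit 3711736), (nat_lit 0)]) (PF.cons (PF.leaf (nat_lit 5274345) (nat_lit 494403) (nat_lit 49463873) (nat_lit 9635688) [(nat_lit 494403), (nat_lit 1643835), (nat_lit 3732772), (nat_lit 0)]) (PF.cons (PF.leaf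 (nat_lit 5602616) (nat_lit 505974) (nat_lit 48889568) (nat_lit 9623969) [(nat_lit 505974), (nat_lit 1662746), (nat_lit 3751858), (nat_lit 0)]) (PF.cons PF.nil PF.nil))))) (PF.cons (PF.cons (PF.leaf (nat_lit 5432595) (nat_lit 1656193) (nat_lit 48778291) (nat_lit 9615112) [(nat_lit 0), (nat_lit 1656193), (nat_lit 3746828), (nat_lit 0)]) (PF.cons (PF.leaf (nat_lit 5754294) (nat_lit 509066) (nat_lit 48216225) (nat_lit 9600114)
 [(nat_lit 509066), (nat_lit 1673409), (nat_lit 3763177), (nat_lit 0)]) (PF.cons (PF.leaf (nat_lit 6086004) (nat_lit 519278) (nat_lit 47643044) (nat_lit 9581809) [(nat_lit 519278), (nat_lit 1689254), (nat_lit 3777638), (nat_lit 0)]) (PF.cons PF.nil PF.nil)))) (PF.cons (PF.cons (PF.leaf (nat_lit 6231347) (nat_lit 1697153) (nat_lit 46984679) (nat_lit 9551325) [(nat_lit 0), (nat_lit 1697153), (nat_lit 3784194), (nat_lit 0)]) (PF.cons (PF.leaf (nat_lit 6564771) (nat_lit 530457) (nat_lit 46415821) (nat_lit 9527053) [(nat_lit 530457), (nat_lit 1710255),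 (nat_lit 3794458), (nat_lit 0)]) PF.nil)) (PF.cons PF.nil PF.nil)))))) (PF.cons (PF.cons (PF.cons (PF.leaf (nat_lit 4498980) (nat_lit 3670326) (nat_lit 50150709) (nat_lit 9617449) [(nat_lit 0), (nat_lit 0), (nat_lit 3670326), (nat_lit 0)]) (PF.cons (PF.leaf (nat_lit 4781411) (nat_lit 464693) (nat_lit 49648674) (nat_lit 9611630) [(nat_lit 464693), (nat_lit 0), (nat_lit 3691907), (nat_lit 0)]) (PF.cons (PF.leaf (nat_lit 5080281) (nat_lit 479180) (nat_lit 49123268) (nat_lit 9602828) [(nat_lit 479180), (nat_lit 0), (nat_lit 3712177), (nat_lit 0)]) (PF.cons (PF.leaf (nat_lit 5392321) (nat_lit 492145) (nat_lit 48579851) (nat_lit 9590889)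
 [(nat_lit 492145), (nat_lit 0), (nat_lit 3730818), (nat_lit 0)]) (PF.cons (PF.leaf (nat_lit 5715362) (nat_lit 503822) (nat_lit 48022534) (nat_lit 9575727) [(nat_lit 503822), (nat_lit 0), (nat_lit 3747630), (nat_lit 0)]) (PF.cons PF.nil (PF.cons PF.nil PF.nil))))))) (PF.cons (PF.cons (PF.leaf (nat_lit 5242273) (nat_lit 1636477) (nat_lit 48438241) (nat_lit 9581172) [(nat_lit 0), (nat_lit 1636477), (nat_lit 3726460), (nat_lit 0)]) (PF.cons (PF.leaf (nat_lit 5546794) (nat_lit 495066) (nat_lit 47908479) (nat_lit 9566232) [(nat_lit 495066), (nat_lit 1654288), (nat_lit 3742373), (nat_lit 0)]) (PF.cons (PF.leaf (nat_lit 5863481) (nat_lit 506494) (nat_lit 47363591) (nat_lit 9548169) [(nat_lit 506494), (nat_lit 1670765), (nat_lit 3756649), (nat_lit 0)]) (PF.cons (PF.leaf (nat_lit 6189922) (nat_lit 516765) (nat_lit 46807374) (nat_lit 9526976) [(nat_lit 516765), (nat_lit 1685868), (nat_lit 3769148), (nat_lit 0)]) (PF.cons PF.nil PF.nil))))) (PF.cons (PF.cons (PF.leaf (nat_lit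 6011995) (nat_lit 1679102) (nat_lit 46706582) (nat_lit 9517096) [(nat_lit 0), (nat_lit 1679102), (nat_lit 3763463), (nat_lit 0)]) (PF.cons (PF.leaf (nat_lit 6331518) (nat_lit 518576) (nat_lit 46163704) (nat_lit 9493428)
 [(nat_lit 518576), (nat_lit 1692803), (nat_lit 3773748), (nat_lit 0)]) (PF.cons (PF.leaf (nat_lit 6659989) (nat_lit 527602) (nat_lit 45611687) (nat_lit 9466773) [(nat_lit 527602), (nat_lit 1705242), (nat_lit 3782331), (nat_lit 0)]) (PF.cons PF.nil PF.nil)))) (PF.cons (PF.cons (PF.leaf (nat_lit 6795211) (nat_lit 1709898) (nat_lit 44984913) (nat_lit 9428062) [(nat_lit 0), (nat_lit 1709898), (nat_lit 3783070), (nat_lit 0)]) (PF.cons PF.nil PF.nil)) (PF.cons PF.nil PF.nil))))) (PF.cons (PF.cons (PF.cons (PF.leaf (nat_lit 5809804) (nat_lit 3742453) (nat_lit 46400040) (nat_lit 9481410) [(nat_lit 0), (nat_lit 0), (nat_lit 3742453), (nat_lit 0)]) (PF.cons (PF.leaf (nat_lit 6113223) (nat_lit 504888) (nat_lit 45887395) (nat_lit 9458487) [(nat_lit 504888), (nat_lit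 0), (nat_lit 3752680), (nat_lit 0)]) (PF.cons (PF.leaf (nat_lit 6427761) (nat_lit 515154) (nat_lit 45361707) (nat_lit 9432644) [(nat_lit 515154), (nat_lit 0), (nat_lit 3761384), (nat_lit 0)]) (PF.cons (PF.leaf (nat_lit 6751026) (nat_lit 524284) (nat_lit 44826578) (nat_lit 9403956) [(nat_lit 524284), (nat_lit 0), (nat_lit 3768474), (nat_lit 0)]) (PF.cons PF.nil PF.nil))))) (PF.cons (PF.cons (PF.leaf (nat_lit 6566771) (nat_lit
 1692381) (nat_lit 44735659) (nat_lit 9393537) [(nat_lit 0), (nat_lit 1692381), (nat_lit 3762411), (nat_lit 0)]) (PF.cons (PF.leaf (nat_lit 6882936) (nat_lit 525041) (nat_lit 44214429) (nat_lit 9363055) [(nat_lit 525041), (nat_lit 1703119), (nat_lit 3767722), (nat_lit 0)]) (PF.cons PF.nil (PF.cons PF.nil PF.nil)))) (PF.cons (PF.cons (PF.leaf (nat_lit 7332760) (nat_lit 1714727) (nat_lit 43091405) (nat_lit 9285054) [(nat_lit 0), (nat_lit 1714727), (nat_lit 3767632), (nat_lit 0)]) (PF.cons PF.nil PF.nil)) PF.nil))) (PF.cons (PF.cons (PF.cons (PF.leaf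 (nat_lit 7097231) (nat_lit 3747387) (nat_lit 42868260) (nat_lit 9251003) [(nat_lit 0), (nat_lit 0), (nat_lit 3747387), (nat_lit 0)]) (PF.cons (PF.leaf (nat_lit 7409165) (nat_lit 528999) (nat_lit 42370013) (nat_lit 9215265) [(nat_lit 528999), (nat_lit 0), (nat_lit 3748633), (nat_lit 0)]) (PF.cons PF.nil PF.nil))) (PF.cons (PF.cons (PF.leaf (nat_lit 7844993) (nat_lit 1713196) (nat_lit 41303732) (nat_lit 9127856) [(nat_lit 0), (nat_lit 1713196), (nat_lit 3741006), (nat_lit 0)]) PF.nil) PF.nil)) (PF.cons PF.nil (PF.cons PF.nil (PF.cons PF.nil PF.nil)))))))) (PF.cons (PF.cons (PF.cons (PF.cons (PF.leaf (nat_lit 4203122) (nat_lit 9243449)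
 (nat_lit 48446204) (nat_lit 9419159) [(nat_lit 0), (nat_lit 0), (nat_lit 0), (nat_lit 9243449)]) (PF.cons (PF.leaf (nat_lit 4444398) (nat_lit 417741) (nat_lit 48038483) (nat_lit 9413625) [(nat_lit 417741), (nat_lit 0), (nat_lit 0), (nat_lit 9238962)]) (PF.cons (PF.leaf (nat_lit 4707375) (nat_lit 436295) (nat_lit 47598492) (nat_lit 9405631) [(nat_lit 436295), (nat_lit 0), (nat_lit 0), (nat_lit 9232098)]) (PF.cons (PF.leaf (nat_lit 4987412) (nat_lit 452558) (nat_lit 47133523) (nat_lit 9394976) [(nat_lit 452558), (nat_lit 0), (nat_lit 0), (nat_lit 9222637)]) (PF.cons (PF.leaf (nat_lit 5281601) (nat_lit 466984) (nat_lit 46648910) (nat_lit 9381528) [(nat_lit 466984), (nat_lit 0), (nat_lit 0), (nat_lit 9210436)]) (PF.cons (PF.leaf (nat_lit 5587669) (nat_lit 479880) (nat_lit 46148788) (nat_lit 9365211) [(nat_lit 479880), (nat_lit 0), (nat_lit 0), (nat_lit 9195411)]) (PF.cons (PF.leaf (nat_lit 5903740) (nat_lit 491466) (nat_lit 45636488) (nat_lit 9345998) [(nat_lit 491466),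 (nat_lit 0), (nat_lit 0), (nat_lit 9177525)]) (PF.cons (PF.leaf (nat_lit 6228311) (nat_lit 501908) (nat_lit 45114770) (nat_lit 9323897) [(nat_lit 501908), (nat_lit 0), (nat_lit 0), (nat_lit 9156784)]) (PF.cons PF.nil
 (PF.cons PF.nil PF.nil)))))))))) (PF.cons (PF.cons (PF.leaf (nat_lit 4872620) (nat_lit 1556254) (nat_lit 46956023) (nat_lit 9384241) [(nat_lit 0), (nat_lit 1556254), (nat_lit 0), (nat_lit 9212294)]) (PF.cons (PF.leaf (nat_lit 5144178) (nat_lit 456229) (nat_lit 46504020) (nat_lit 9371064) [(nat_lit 456229), (nat_lit 1577212), (nat_lit 0), (nat_lit 9200286)]) (PF.cons (PF.leaf (nat_lit 5431582) (nat_lit 470375) (nat_lit 46030652) (nat_lit 9355115) [(nat_lit 470375), (nat_lit 1596731), (nat_lit 0), (nat_lit 9185563)]) (PF.cons (PF.leaf (nat_lit 5731611) (nat_lit 482944) (nat_lit 45540821) (nat_lit 9336353) [(nat_lit 482944), (nat_lit 1614724), (nat_lit 0), (nat_lit 9168077)]) (PF.cons (PF.leaf (nat_lit 6042184) (nat_lit 494187) (nat_lit 45038292) (nat_lit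 9314777) [(nat_lit 494187), (nat_lit 1631177), (nat_lit 0), (nat_lit 9147815)]) (PF.cons (PF.leaf (nat_lit 6361532) (nat_lit 504283) (nat_lit 44526070) (nat_lit 9290413) [(nat_lit 504283), (nat_lit 1646114), (nat_lit 0), (nat_lit 9124798)]) (PF.cons PF.nil (PF.cons PF.nil (PF.cons PF.nil PF.nil))))))))) (PF.cons (PF.cons (PF.leaf (nat_lit 5583136) (nat_lit 1607539) (nat_lit 45411118) (nat_lit 9325302) [(nat_lit 0), (nat_lit
 1607539), (nat_lit 0), (nat_lit 9157312)]) (PF.cons (PF.leaf (nat_lit 5875744) (nat_lit 485298) (nat_lit 44933780) (nat_lit 9304396) [(nat_lit 485298), (nat_lit 1623838), (nat_lit 0), (nat_lit 9137660)]) (PF.cons (PF.leaf (nat_lit 6180052) (nat_lit 496301) (nat_lit 44442633) (nat_lit 9280727) [(nat_lit 496301), (nat_lit 1638780), (nat_lit 0), (nat_lit 9115288)]) (PF.cons (PF.leaf (nat_lit 6493683) (nat_lit 506129) (nat_lit 43941128) (nat_lit 9254349) [(nat_lit 506129), (nat_lit 1652352), (nat_lit 0), (nat_lit 9090241)]) (PF.cons (PF.leaf (nat_lit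 6815020) (nat_lit 514936) (nat_lit 43432003) (nat_lit 9225330) [(nat_lit 514936), (nat_lit 1664573), (nat_lit 0), (nat_lit 9062584)]) (PF.cons PF.nil (PF.cons PF.nil PF.nil))))))) (PF.cons (PF.cons (PF.leaf (nat_lit 6318490) (nat_lit 1645296) (nat_lit 43848954) (nat_lit 9243936) [(nat_lit 0), (nat_lit 1645296), (nat_lit 0), (nat_lit 9080032)]) (PF.cons (PF.leaf (nat_lit 6625369) (nat_lit 507442) (nat_lit 43359587) (nat_lit 9215806) [(nat_lit 507442), (nat_lit 1657587), (nat_lit 0), (nat_lit 9053215)]) (PF.cons (PF.leaf (nat_lit 6940863) (nat_lit 516040) (nat_lit 42861833) (nat_lit 9185105) [(nat_lit 516040), (nat_lit 1668644), (nat_lit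
 0), (nat_lit 9023859)]) (PF.cons (PF.leaf (nat_lit 7263111) (nat_lit 523719) (nat_lit 42358195) (nat_lit 9151935) [(nat_lit 523719), (nat_lit 1678488), (nat_lit 0), (nat_lit 8992059)]) (PF.cons PF.nil PF.nil))))) (PF.cons (PF.cons (PF.leaf (nat_lit 7066652) (nat_lit 1671850) (nat_lit 42295701) (nat_lit 9142724) [(nat_lit 0), (nat_lit 1671850), (nat_lit 0), (nat_lit 8982984)]) (PF.cons (PF.leaf (nat_lit 7382652) (nat_lit 524186) (nat_lit 41803858) (nat_lit 9108183) [(nat_lit 524186), (nat_lit 1680697), (nat_lit 0), (nat_lit 8949795)]) (PF.cons PF.nil (PF.cons PF.nil PF.nil)))) (PF.cons (PF.cons (PF.leaf (nat_lit 7818485) (nat_lit 1689051) (nat_lit 40769785) (nat_lit 9024655) [(nat_lit 0), (nat_lit 1689051), (nat_lit 0), (nat_lit 8869115)]) (PF.cons PF.nil PF.nil)) PF.nil)))))) (PF.cons (PF.cons (PF.cons (PF.leaf (nat_lit 5412977) (nat_lit 3634775) (nat_lit 45066613) (nat_lit 9287342) [(nat_lit 0), (nat_lit 0), (nat_lit 3634775), (nat_lit 9120082)]) (PF.cons (PF.leaf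 (nat_lit 5685921) (nat_lit 468076) (nat_lit 44625131) (nat_lit 9267423) [(nat_lit 468076), (nat_lit 0), (nat_lit 3646838), (nat_lit 9101342)]) (PF.cons (PF.leaf (nat_lit 5973579) (nat_lit 480979) (nat_lit 44164584)
 (nat_lit 9244750) [(nat_lit 480979), (nat_lit 0), (nat_lit 3657615), (nat_lit 9079903)]) (PF.cons (PF.leaf (nat_lit 6272804) (nat_lit 492324) (nat_lit 43689698) (nat_lit 9219389) [(nat_lit 492324), (nat_lit 0), (nat_lit 3666928), (nat_lit 9055822)]) (PF.cons (PF.leaf (nat_lit 6581502) (nat_lit 502375) (nat_lit 43204048) (nat_lit 9191416) [(nat_lit 502375), (nat_lit 0), (nat_lit 3674682), (nat_lit 9029164)]) (PF.cons (PF.leaf (nat_lit 6898014) (nat_lit 511321) (nat_lit 42710451) (nat_lit 9160915) [(nat_lit 511321), (nat_lit 0), (nat_lit 3680830), (nat_lit 9000007)]) (PF.cons PF.nil PF.nil))))))) (PF.cons (PF.cons (PF.leaf (nat_lit 6116922) (nat_lit 1625144) (nat_lit 43571045) (nat_lit 9207453) [(nat_lit 0), (nat_lit 1625144), (nat_lit 3661008), (nat_lit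 9044160)]) (PF.cons (PF.leaf (nat_lit 6408421) (nat_lit 493509) (nat_lit 43109460) (nat_lit 9180547) [(nat_lit 493509), (nat_lit 1638358), (nat_lit 3668426), (nat_lit 9018509)]) (PF.cons (PF.leaf (nat_lit 6710643) (nat_lit 503415) (nat_lit 42635877) (nat_lit 9151051) [(nat_lit 503415), (nat_lit 1650315), (nat_lit 3674428), (nat_lit 8990308)]) (PF.cons (PF.leaf (nat_lit 7021273) (nat_lit 512179) (nat_lit 42153560) (nat_lit 9119079)
 [(nat_lit 512179), (nat_lit 1661020), (nat_lit 3678952), (nat_lit 8959663)]) (PF.cons (PF.leaf (nat_lit 7338758) (nat_lit 519960) (nat_lit 41665065) (nat_lit 9084743) [(nat_lit 519960), (nat_lit 1670502), (nat_lit 3681979), (nat_lit 8926679)]) PF.nil))))) (PF.cons (PF.cons (PF.leaf (nat_lit 6840539) (nat_lit 1654007) (nat_lit 42070463) (nat_lit 9108452) [(nat_lit 0), (nat_lit 1654007), (nat_lit 3672652), (nat_lit 8949228)]) (PF.cons (PF.leaf (nat_lit 7144288) (nat_lit 512567) (nat_lit 41600657) (nat_lit 9075254) [(nat_lit 512567), (nat_lit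 1663661), (nat_lit 3675674), (nat_lit 8917335)]) (PF.cons (PF.leaf (nat_lit 7455840) (nat_lit 520211) (nat_lit 41123819) (nat_lit 9039733) [(nat_lit 520211), (nat_lit 1672190), (nat_lit 3677308), (nat_lit 8883147)]) (PF.cons PF.nil PF.nil)))) (PF.cons (PF.cons (PF.leaf (nat_lit 7573082) (nat_lit 1673167) (nat_lit 40586977) (nat_lit 8993007) [(nat_lit 0), (nat_lit 1673167), (nat_lit 3671420), (nat_lit 8837903)]) (PF.cons (PF.leaf (nat_lit 7884378) (nat_lit 526704) (nat_lit 40117298) (nat_lit 8954377) [(nat_lit 526704), (nat_lit 1679783), (nat_lit 3670475), (nat_lit 8800607)]) PF.nil)) (PF.cons PF.nil PF.nil))))) (PF.cons (PF.cons (PF.cons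
 (PF.leaf (nat_lit 6630772) (nat_lit 3651135) (nat_lit 41820578) (nat_lit 9072303) [(nat_lit 0), (nat_lit 0), (nat_lit 3651135), (nat_lit 8913659)]) (PF.cons (PF.leaf (nat_lit 6920086) (nat_lit 499139) (nat_lit 41376526) (nat_lit 9040668) [(nat_lit 499139), (nat_lit 0), (nat_lit 3654603), (nat_lit 8883272)]) (PF.cons (PF.leaf (nat_lit 7219315) (nat_lit 508080) (nat_lit 40921989) (nat_lit 9006624) [(nat_lit 508080), (nat_lit 0), (nat_lit 3656762), (nat_lit 8850512)]) (PF.cons (PF.leaf (nat_lit 7526141) (nat_lit 515913) (nat_lit 40460044) (nat_lit 8970329) [(nat_lit 515913), (nat_lit 0), (nat_lit 3657584), (nat_lit 8815530)]) (PF.cons PF.nil PF.nil))))) (PF.cons (PF.cons (PF.leaf (nat_lit 7341050) (nat_lit 1656183) (nat_lit 40385288) (nat_lit 8959741) [(nat_lit 0), (nat_lit 1656183), (nat_lit 3651238), (nat_lit 8805122)]) (PF.cons (PF.leaf (nat_lit 7640953) (nat_lit 515545) (nat_lit 39935921) (nat_lit 8922658) [(nat_lit 515545), (nat_lit 1663620), (nat_lit 3650869),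 (nat_lit 8769327)]) (PF.cons (PF.leaf (nat_lit 7947970) (nat_lit 522356) (nat_lit 39480619) (nat_lit 8883484) [(nat_lit 522356), (nat_lit 1670027), (nat_lit 3649250), (nat_lit 8731466)]) (PF.cons PF.nil PF.nil))))
 (PF.cons (PF.cons (PF.leaf (nat_lit 8057199) (nat_lit 1669207) (nat_lit 38972719) (nat_lit 8833684) [(nat_lit 0), (nat_lit 1669207), (nat_lit 3640440), (nat_lit 8683114)]) (PF.cons PF.nil PF.nil)) PF.nil))) (PF.cons (PF.cons (PF.cons (PF.leaf (nat_lit 7820688) (nat_lit 3621113) (nat_lit 38792099) (nat_lit 8801744) [(nat_lit 0), (nat_lit 0), (nat_lit 3621113), (nat_lit 8651628)]) (PF.cons (PF.leaf (nat_lit 8116234) (nat_lit 516759) (nat_lit 38363439) (nat_lit 8761760) [(nat_lit 516759), (nat_lit 0), (nat_lit 3617981), (nat_lit 8612909)]) (PF.cons PF.nil PF.nil))) (PF.cons (PF.cons (PF.leaf (nat_lit 8520046) (nat_lit 1661024) (nat_lit 37449957) (nat_lit 8668040) [(nat_lit 0), (nat_lit 1661024), (nat_lit 3602635), (nat_lit 8521885)]) PF.nil) PF.nil)) (PF.cons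 PF.nil (PF.cons PF.nil PF.nil)))))) (PF.cons (PF.cons (PF.cons (PF.cons (PF.leaf (nat_lit 6213082) (nat_lit 8734956) (nat_lit 40747984) (nat_lit 8890915) [(nat_lit 0), (nat_lit 0), (nat_lit 0), (nat_lit 8734956)]) (PF.cons (PF.leaf (nat_lit 6475566) (nat_lit 464197) (nat_lit 40362857) (nat_lit 8863802) [(nat_lit 464197), (nat_lit 0), (nat_lit 0), (nat_lit 8708977)]) (PF.cons (PF.leaf (nat_lit 6751470) (nat_lit 475834) (nat_lit
 39961878) (nat_lit 8834182) [(nat_lit 475834), (nat_lit 0), (nat_lit 0), (nat_lit 8680541)]) (PF.cons (PF.leaf (nat_lit 7037698) (nat_lit 485921) (nat_lit 39549160) (nat_lit 8802242) [(nat_lit 485921), (nat_lit 0), (nat_lit 0), (nat_lit 8649822)]) (PF.cons (PF.leaf (nat_lit 7332288) (nat_lit 494738) (nat_lit 39127779) (nat_lit 8768140) [(nat_lit 494738), (nat_lit 0), (nat_lit 0), (nat_lit 8616970)]) (PF.cons (PF.leaf (nat_lit 7633677) (nat_lit 502484) (nat_lit 38700138) (nat_lit 8732014) [(nat_lit 502484), (nat_lit 0), (nat_lit 0), (nat_lit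 8582118)]) (PF.cons PF.nil PF.nil))))))) (PF.cons (PF.cons (PF.leaf (nat_lit 6879493) (nat_lit 1593929) (nat_lit 39449940) (nat_lit 8789759) [(nat_lit 0), (nat_lit 1593929), (nat_lit 0), (nat_lit 8637591)]) (PF.cons (PF.leaf (nat_lit 7158047) (nat_lit 485967) (nat_lit 39049389) (nat_lit 8757145) [(nat_lit 485967), (nat_lit 1603969), (nat_lit 0), (nat_lit 8606169)]) (PF.cons (PF.leaf (nat_lit 7446254) (nat_lit 494718) (nat_lit 38639008) (nat_lit 8722343) [(nat_lit 494718), (nat_lit 1612838), (nat_lit 0), (nat_lit 8572593)]) (PF.cons (PF.leaf (nat_lit 7741897) (nat_lit 502357) (nat_lit 38221591) (nat_lit 8685525) [(nat_lit 502357), (nat_lit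
 1620569), (nat_lit 0), (nat_lit 8537026)]) (PF.cons PF.nil PF.nil))))) (PF.cons (PF.cons (PF.leaf (nat_lit 7561299) (nat_lit 1613612) (nat_lit 38152985) (nat_lit 8675085) [(nat_lit 0), (nat_lit 1613612), (nat_lit 0), (nat_lit 8526758)]) (PF.cons (PF.leaf (nat_lit 7850244) (nat_lit 501838) (nat_lit 37746763) (nat_lit 8637776) [(nat_lit 501838), (nat_lit 1620542), (nat_lit 0), (nat_lit 8490675)]) (PF.cons (PF.leaf (nat_lit 8146161) (nat_lit 508466) (nat_lit 37334857) (nat_lit 8598600) [(nat_lit 508466), (nat_lit 1626463), (nat_lit 0), (nat_lit 8452747)]) (PF.cons PF.nil PF.nil)))) (PF.cons (PF.cons (PF.leaf (nat_lit 8249338) (nat_lit 1625195) (nat_lit 36874340) (nat_lit 8549281) [(nat_lit 0), (nat_lit 1625195), (nat_lit 0), (nat_lit 8404802)]) (PF.cons (PF.leaf (nat_lit 8544534) (nat_lit 513278) (nat_lit 36469135) (nat_lit 8508082) [(nat_lit 513278), (nat_lit 1629542), (nat_lit 0), (nat_lit 8364845)]) PF.nil)) (PF.cons PF.nil PF.nil))))) (PF.cons (PF.cons (PF.cons (PF.leaf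 (nat_lit 7348854) (nat_lit 3533485) (nat_lit 37948550) (nat_lit 8640799) [(nat_lit 0), (nat_lit 0), (nat_lit 3533485), (nat_lit 8492988)]) (PF.cons (PF.leaf (nat_lit 7624741) (nat_lit 488909) (nat_lit 37564151)
 (nat_lit 8605405) [(nat_lit 488909), (nat_lit 0), (nat_lit 3532818), (nat_lit 8458764)]) (PF.cons (PF.leaf (nat_lit 7909616) (nat_lit 496844) (nat_lit 37171058) (nat_lit 8567976) [(nat_lit 496844), (nat_lit 0), (nat_lit 3531014), (nat_lit 8422537)]) (PF.cons (PF.leaf (nat_lit 8201297) (nat_lit 503709) (nat_lit 36771898) (nat_lit 8528711) [(nat_lit 503709), (nat_lit 0), (nat_lit 3528081), (nat_lit 8384497)]) (PF.cons PF.nil PF.nil))))) (PF.cons (PF.cons (PF.leaf (nat_lit 8017671) (nat_lit 1609137) (nat_lit 36710194) (nat_lit 8518587) [(nat_lit 0), (nat_lit 1609137), (nat_lit 3521827), (nat_lit 8374532)]) (PF.cons (PF.leaf (nat_lit 8302677) (nat_lit 502636) (nat_lit 36322085) (nat_lit 8479116) [(nat_lit 502636), (nat_lit 1614365), (nat_lit 3518088), (nat_lit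 8336259)]) (PF.cons (PF.leaf (nat_lit 8594102) (nat_lit 508580) (nat_lit 35929086) (nat_lit 8437955) [(nat_lit 508580), (nat_lit 1618671), (nat_lit 3513304), (nat_lit 8296317)]) (PF.cons PF.nil PF.nil)))) (PF.cons (PF.cons (PF.leaf (nat_lit 8690539) (nat_lit 1616145) (nat_lit 35493393) (nat_lit 8387288) [(nat_lit 0), (nat_lit 1616145), (nat_lit 3501875), (nat_lit 8246981)]) (PF.cons PF.nil PF.nil)) PF.nil))) (PF.cons (PF.cons
 (PF.cons (PF.leaf (nat_lit 8456121) (nat_lit 3483927) (nat_lit 35346128) (nat_lit 8358219) [(nat_lit 0), (nat_lit 0), (nat_lit 3483927), (nat_lit 8218304)]) (PF.cons (PF.leaf (nat_lit 8736857) (nat_lit 502160) (nat_lit 34975954) (nat_lit 8317220) [(nat_lit 502160), (nat_lit 0), (nat_lit 3478264), (nat_lit 8178474)]) (PF.cons PF.nil PF.nil))) (PF.cons (PF.cons (PF.leaf (nat_lit 9113715) (nat_lit 1604236) (nat_lit 34189646) (nat_lit 8223300) [(nat_lit 0), (nat_lit 1604236), (nat_lit 3458787), (nat_lit 8087027)]) PF.nil) PF.nil)) (PF.cons PF.nil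 (PF.cons PF.nil PF.nil))))) (PF.cons (PF.cons (PF.cons (PF.cons (PF.leaf (nat_lit 7986891) (nat_lit 8077659) (nat_lit 34660244) (nat_lit 8215590) [(nat_lit 0), (nat_lit 0), (nat_lit 0), (nat_lit 8077659)]) (PF.cons (PF.leaf (nat_lit 8250298) (nat_lit 476376) (nat_lit 34326367) (nat_lit 8179154) [(nat_lit 476376), (nat_lit 0), (nat_lit 0), (nat_lit 8042304)]) (PF.cons (PF.leaf (nat_lit 8521985) (nat_lit 483525) (nat_lit 33985114) (nat_lit 8140968) [(nat_lit 483525), (nat_lit 0), (nat_lit 0), (nat_lit 8005226)]) (PF.cons (PF.leaf (nat_lit 8799840) (nat_lit 489646) (nat_lit 33638736) (nat_lit 8101246) [(nat_lit 489646), (nat_lit 0), (nat_lit 0),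
 (nat_lit 7966630)]) (PF.cons PF.nil PF.nil))))) (PF.cons (PF.cons (PF.leaf (nat_lit 8619042) (nat_lit 1557373) (nat_lit 33587478) (nat_lit 8091848) [(nat_lit 0), (nat_lit 1557373), (nat_lit 0), (nat_lit 7957370)]) (PF.cons (PF.leaf (nat_lit 8890507) (nat_lit 488131) (nat_lit 33250701) (nat_lit 8052255) [(nat_lit 488131), (nat_lit 1561090), (nat_lit 0), (nat_lit 7918878)]) (PF.cons PF.nil (PF.cons PF.nil PF.nil)))) (PF.cons (PF.cons (PF.leaf (nat_lit 9254164) (nat_lit 1560443) (nat_lit 32533807) (nat_lit 7961815) [(nat_lit 0), (nat_lit 1560443), (nat_lit 0), (nat_lit 7830767)]) (PF.cons PF.nil PF.nil)) PF.nil))) (PF.cons (PF.cons (PF.cons (PF.leaf (nat_lit 9023606) (nat_lit 3345296) (nat_lit 32412701) (nat_lit 7935737) [(nat_lit 0), (nat_lit 0), (nat_lit 3345296), (nat_lit 7805025)]) (PF.cons (PF.leaf (nat_lit 9290999) (nat_lit 486614) (nat_lit 32091205) (nat_lit 7895428) [(nat_lit 486614), (nat_lit 0), (nat_lit 3338213), (nat_lit 7765783)]) PF.nil)) (PF.cons PF.nil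 PF.nil)) (PF.cons PF.nil PF.nil))) (PF.cons (PF.cons (PF.cons (PF.cons (PF.leaf (nat_lit 9537498) (nat_lit 7418076) (nat_lit 29895977) (nat_lit 7540527) [(nat_lit 0), (nat_lit 0), (nat_lit 0), (nat_lit 7418076)])
 (PF.cons PF.nil PF.nil)) (PF.cons PF.nil PF.nil)) (PF.cons PF.nil PF.nil)) (PF.cons PF.nil (PF.cons PF.nil (PF.cons PF.nil PF.nil))))))))

def p13_14_1_0 : pfC (piC [(nat_lit 38167130), (nat_lit 25010362), (nat_lit 18643303), (nat_lit 12552662)] (nat_lit 10817553)) p13_14_1 (nat_lit 4) (nat_lit 0) (nat_lit 1) = true := by decide +kernel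
def p13_14_1_1 : pfC (piC [(nat_lit 38167130), (nat_lit 25010362), (nat_lit 18643303), (nat_lit 12552662)] (nat_lit 10817553)) p13_14_1 (nat_lit 4) (nat_lit 1) (nat_lit 2) = true := by decide +kernel
def p13_14_1_2 : pfC (piC [(nat_lit 38167130), (nat_lit 25010362), (nat_lit 18643303), (nat_lit 12552662)] (nat_lit 10817553)) p13_14_1 (nat_lit 4) (nat_lit 2) (nat_lit 3) = true := by decide +kernel
def p13_14_1_3 : pfC (piC [(nat_lit 38167130), (nat_lit 25010362), (nat_lit 18643303), (nat_lit 12552662)] (nat_lit 10817553)) p13_14_1 (nat_lit 4) (nat_lit 3) (nat_lit 4) = true := by decide +kernel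
def p13_14_1_4 : pfC (piC [(nat_lit 38167130), (nat_lit 25010362), (nat_lit 18643303), (nat_lit 12552662)] (nat_lit 10817553)) p13_14_1 (nat_lit 4) (nat_lit 4) (nat_lit 5) = true := by decide +kernel
def p13_14_1_5 : pfC (piC [(nat_lit 38167130), (nat_lit 25010362), (nat_lit 18643303), (nat_lit 12552662)] (nat_lit 10817553)) p13_14_1 (nat_lit 4) (nat_lit 5) (nat_lit 6) = true := by decide +kernel
def p13_14_1_6 : pfC (piC [(nat_lit 38167130), (nat_lit 25010362), (nat_lit 18643303), (nat_lit 12552662)] (nat_lit 10817553)) p13_14_1 (nat_lit 4) (nat_lit 6) (nat_lit 7) = true := by decide +kernel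
def p13_14_1_7 : pfC (piC [(nat_lit 38167130), (nat_lit 25010362), (nat_lit 18643303), (nat_lit 12552662)] (nat_lit 10817553)) p13_14_1 (nat_lit 4) (nat_lit 7) (nat_lit 8) = true := by decide +kernel
def p13_14_1_8 : pfC (piC [(nat_lit 38167130), (nat_lit 25010362), (nat_lit 18643303), (nat_lit 12552662)] (nat_lit 10817553)) p13_14_1 (nat_lit 4) (nat_lit 8) (nat_lit 9) = true := by decide +kernel
def p13_14_1_9 : pfC (piC [(nat_lit 38167130), (nat_lit 25010362), (nat_lit 18643303), (nat_lit 12552662)] (nat_lit 10817553)) p13_14_1 (nat_lit 4) (nat_lit 9) (nat_lit 10) = true := by decide +kernel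
def p13_14_1_10 : pfC (piC [(nat_lit 38167130), (nat_lit 25010362), (nat_lit 18643303), (nat_lit 12552662)] (nat_lit 10817553)) p13_14_1 (nat_lit 4) (nat_lit 10) (nat_lit 11) = true := by decide +kernel
def p13_14_1_11 : pfC (piC [(nat_lit 38167130), (nat_lit 25010362), (nat_lit 18643303), (nat_lit 12552662)] (nat_lit 10817553)) p13_14_1 (nat_lit 4) (nat_lit 11) (nat_lit 12) = true := by decide +kernel
def p13_14_1_12 : pfC (piC [(nat_lit 38167130), (nat_lit 25010362), (nat_lit 18643303), (nat_lit 12552662)] (nat_lit 10817553)) p13_14_1 (nat_lit 4) (nat_lit 12) (nat_lit 13) = true := by decide +kernel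
def p13_14_1_13 : pfC (piC [(nat_lit 38167130), (nat_lit 25010362), (nat_lit 18643303), (nat_lit 12552662)] (nat_lit 10817553)) p13_14_1 (nat_lit 4) (nat_lit 13) (nat_lit 14) = true := by decide +kernel
def p13_14_1_14 : pfC (piC [(nat_lit 38167130), (nat_lit 25010362), (nat_lit 18643303), (nat_lit 12552662)] (nat_lit 10817553)) p13_14_1 (nat_lit 4) (nat_lit 14) (nat_lit 15) = true := by decide +kernel
def p13_14_1_15 : pfC (piC [(nat_lit 38167130), (nat_lit 25010362), (nat_lit 18643303), (nat_lit 12552662)] (nat_lit 10817553)) p13_14_1 (nat_lit 4) (nat_lit 15) (nat_lit 16) = true := by decide +kernel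
def p13_14_1_16 : pfC (piC [(nat_lit 38167130), (nat_lit 25010362), (nat_lit 18643303), (nat_lit 12552662)] (nat_lit 10817553)) p13_14_1 (nat_lit 4) (nat_lit 16) (nat_lit 17) = true := by decide +kernel
def p13_14_1_17 : pfC (piC [(nat_lit 38167130), (nat_lit 25010362), (nat_lit 18643303), (nat_lit 12552662)] (nat_lit 10817553)) p13_14_1 (nat_lit 4) (nat_lit 17) (nat_lit 18) = true := by decide +kernel
def p13_14_1_18 : pfC (piC [(nat_lit 38167130), (nat_lit 25010362), (nat_lit 18643303), (nat_lit 12552662)] (nat_lit 10817553)) p13_14_1 (nat_lit 4) (nat_lit 18) (nat_lit 19) = true := by decide +kernel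
def p13_14_1_19 : pfC (piC [(nat_lit 38167130), (nat_lit 25010362), (nat_lit 18643303), (nat_lit 12552662)] (nat_lit 10817553)) p13_14_1 (nat_lit 4) (nat_lit 19) (nat_lit 20) = true := by decide +kernel
def p13_14_1_20 : pfC (piC [(nat_lit 38167130), (nat_lit 25010362), (nat_lit 18643303), (nat_lit 12552662)] (nat_lit 10817553)) p13_14_1 (nat_lit 4) (nat_lit 20) (nat_lit 21) = true := by decide +kernel
def p13_14_1_21 : pfC (piC [(nat_lit 38167130), (nat_lit 25010362), (nat_lit 18643303), (nat_lit 12552662)] (nat_lit 10817553)) p13_14_1 (nat_lit 4) (nat_lit 21) (nat_lit 22) = true := by decide +kernel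
def p13_14_1_22 : pfC (piC [(nat_lit 38167130), (nat_lit 25010362), (nat_lit 18643303), (nat_lit 12552662)] (nat_lit 10817553)) p13_14_1 (nat_lit 4) (nat_lit 22) (nat_lit 23) = true := by decide +kernel
def p13_14_1_23 : pfC (piC [(nat_lit 38167130), (nat_lit 25010362), (nat_lit 18643303), (nat_lit 12552662)] (nat_lit 10817553)) p13_14_1 (nat_lit 4) (nat_lit 23) (nat_lit 24) = true := by decide +kernel
def p13_14_1_24 : pfC (piC [(nat_lit 38167130), (nat_lit 25010362), (nat_lit 18643303), (nat_lit 12552662)] (nat_lit 10817553)) p13_14_1 (nat_lit 4) (nat_lit 24) (nat_lit 25) = true := by decide +kernel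
def p13_14_1_25 : pfC (piC [(nat_lit 38167130), (nat_lit 25010362), (nat_lit 18643303), (nat_lit 12552662)] (nat_lit 10817553)) p13_14_1 (nat_lit 4) (nat_lit 25) (nat_lit 26) = true := by decide +kernel
def p13_14_1_26 : pfC (piC [(nat_lit 38167130), (nat_lit 25010362), (nat_lit 18643303), (nat_lit 12552662)] (nat_lit 10817553)) p13_14_1 (nat_lit 4) (nat_lit 26) (nat_lit 27) = true := by decide +kernel
def p13_14_1_27 : pfC (piC [(nat_lit 38167130), (nat_lit 25010362), (nat_lit 18643303), (nat_lit 12552662)] (nat_lit 10817553)) p13_14_1 (nat_lit 4) (nat_lit 27) (nat_lit 28) = true := by decide +kernel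
def p13_14_1_28 : pfC (piC [(nat_lit 38167130), (nat_lit 25010362), (nat_lit 18643303), (nat_lit 12552662)] (nat_lit 10817553)) p13_14_1 (nat_lit 4) (nat_lit 28) (nat_lit 29) = true := by decide +kernel
def p13_14_1_29 : pfC (piC [(nat_lit 38167130), (nat_lit 25010362), (nat_lit 18643303), (nat_lit 12552662)] (nat_lit 10817553)) p13_14_1 (nat_lit 4) (nat_lit 29) (nat_lit 30) = true := by decide +kernel
def p13_14_1_30 : pfC (piC [(nat_lit 38167130), (nat_lit 25010362), (nat_lit 18643303), (nat_lit 12552662)] (nat_lit 10817553)) p13_14_1 (nat_lit 4) (nat_lit 30) (nat_lit 31) = true := by decide +kernel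
def p13_14_1_31 : pfC (piC [(nat_lit 38167130), (nat_lit 25010362), (nat_lit 18643303), (nat_lit 12552662)] (nat_lit 10817553)) p13_14_1 (nat_lit 4) (nat_lit 31) (nat_lit 32) = true := by decide +kernel
def p13_14_1_32 : pfC (piC [(nat_lit 38167130), (nat_lit 25010362), (nat_lit 18643303), (nat_lit 12552662)] (nat_lit 10817553)) p13_14_1 (nat_lit 4) (nat_lit 32) (nat_lit 33) = true := by decide +kernel
def p13_14_1_33 : pfC (piC [(nat_lit 38167130), (nat_lit 25010362), (nat_lit 18643303), (nat_lit 12552662)] (nat_lit 10817553)) p13_14_1 (nat_lit 4) (nat_lit 33) (nat_lit 34) = true := by decide +kernel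
def p13_14_1_34 : pfC (piC [(nat_lit 38167130), (nat_lit 25010362), (nat_lit 18643303), (nat_lit 12552662)] (nat_lit 10817553)) p13_14_1 (nat_lit 4) (nat_lit 34) (nat_lit 35) = true := by decide +kernel
def p13_14_1_35 : pfC (piC [(nat_lit 38167130), (nat_lit 25010362), (nat_lit 18643303), (nat_lit 12552662)] (nat_lit 10817553)) p13_14_1 (nat_lit 4) (nat_lit 35) (nat_lit 36) = true := by decide +kernel
def p13_14_1_36 : pfC (piC [(nat_lit 38167130), (nat_lit 25010362), (nat_lit 18643303), (nat_lit 12552662)] (nat_lit 10817553)) p13_14_1 (nat_lit 4) (nat_lit 36) (nat_lit 37) = true := by decide +kernel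
def p13_14_1_37 : pfC (piC [(nat_lit 38167130), (nat_lit 25010362), (nat_lit 18643303), (nat_lit 12552662)] (nat_lit 10817553)) p13_14_1 (nat_lit 4) (nat_lit 37) (nat_lit 38) = true := by decide +kernel
def p13_14_1_38 : pfC (piC [(nat_lit 38167130), (nat_lit 25010362), (nat_lit 18643303), (nat_lit 12552662)] (nat_lit 10817553)) p13_14_1 (nat_lit 4) (nat_lit 38) (nat_lit 39) = true := by decide +kernel
def p13_14_1_39 : pfC (piC [(nat_lit 38167130), (nat_lit 25010362), (nat_lit 18643303), (nat_lit 12552662)] (nat_lit 10817553)) p13_14_1 (nat_lit 4) (nat_lit 39) (nat_lit 40) = true := by decide +kernel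
def p13_14_1_40 : pfC (piC [(nat_lit 38167130), (nat_lit 25010362), (nat_lit 18643303), (nat_lit 12552662)] (nat_lit 10817553)) p13_14_1 (nat_lit 4) (nat_lit 40) (nat_lit 41) = true := by decide +kernel
def p13_14_1_41 : pfC (piC [(nat_lit 38167130), (nat_lit 25010362), (nat_lit 18643303), (nat_lit 12552662)] (nat_lit 10817553)) p13_14_1 (nat_lit 4) (nat_lit 41) (nat_lit 42) = true := by decide +kernel
def p13_14_1_42 : pfC (piC [(nat_lit 38167130), (nat_lit 25010362), (nat_lit 18643303), (nat_lit 12552662)] (nat_lit 10817553)) p13_14_1 (nat_lit 4) (nat_lit 42) (nat_lit 43) = true := by decide +kernel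
def p13_14_1_43 : pfC (piC [(nat_lit 38167130), (nat_lit 25010362), (nat_lit 18643303), (nat_lit 12552662)] (nat_lit 10817553)) p13_14_1 (nat_lit 4) (nat_lit 43) (nat_lit 44) = true := by decide +kernel
def p13_14_1_44 : pfC (piC [(nat_lit 38167130), (nat_lit 25010362), (nat_lit 18643303), (nat_lit 12552662)] (nat_lit 10817553)) p13_14_1 (nat_lit 4) (nat_lit 44) (nat_lit 45) = true := by decide +kernel
def p13_14_1_45 : pfC (piC [(nat_lit 38167130), (nat_lit 25010362), (nat_lit 18643303), (nat_lit 12552662)] (nat_lit 10817553)) p13_14_1 (nat_lit 4) (nat_lit 45) (nat_lit 46) = true := by decide +kernel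
def p13_14_1_46 : pfC (piC [(nat_lit 38167130), (nat_lit 25010362), (nat_lit 18643303), (nat_lit 12552662)] (nat_lit 10817553)) p13_14_1 (nat_lit 4) (nat_lit 46) (nat_lit 47) = true := by decide +kernel
def p13_14_1_47 : pfC (piC [(nat_lit 38167130), (nat_lit 25010362), (nat_lit 18643303), (nat_lit 12552662)] (nat_lit 10817553)) p13_14_1 (nat_lit 4) (nat_lit 47) (nat_lit 48) = true := by decide +kernel
def p13_14_1_48 : pfC (piC [(nat_lit 38167130), (nat_lit 25010362), (nat_lit 18643303), (nat_lit 12552662)] (nat_lit 10817553)) p13_14_1 (nat_lit 4) (nat_lit 48) (nat_lit 49) = true := by decide +kernel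
def p13_14_1_49 : pfC (piC [(nat_lit 38167130), (nat_lit 25010362), (nat_lit 18643303), (nat_lit 12552662)] (nat_lit 10817553)) p13_14_1 (nat_lit 4) (nat_lit 49) (nat_lit 50) = true := by decide +kernel
def p13_14_1_50 : pfC (piC [(nat_lit 38167130), (nat_lit 25010362), (nat_lit 18643303), (nat_lit 12552662)] (nat_lit 10817553)) p13_14_1 (nat_lit 4) (nat_lit 50) (nat_lit 51) = true := by decide +kernel
def p13_14_1_51 : pfC (piC [(nat_lit 38167130), (nat_lit 25010362), (nat_lit 18643303), (nat_lit 12552662)] (nat_lit 10817553)) p13_14_1 (nat_lit 4) (nat_lit 51) (nat_lit 52) = true := by decide +kernel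
def p13_14_1_52 : pfC (piC [(nat_lit 38167130), (nat_lit 25010362), (nat_lit 18643303), (nat_lit 12552662)] (nat_lit 10817553)) p13_14_1 (nat_lit 4) (nat_lit 52) (nat_lit 53) = true := by decide +kernel
def p13_14_1_53 : pfC (piC [(nat_lit 38167130), (nat_lit 25010362), (nat_lit 18643303), (nat_lit 12552662)] (nat_lit 10817553)) p13_14_1 (nat_lit 4) (nat_lit 53) (nat_lit 54) = true := by decide +kernel
def p13_14_1_54 : pfC (piC [(nat_lit 38167130), (nat_lit 25010362), (nat_lit 18643303), (nat_lit 12552662)] (nat_lit 10817553)) p13_14_1 (nat_lit 4) (nat_lit 54) (nat_lit 55) = true := by decide +kernel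
def p13_14_1_55 : pfC (piC [(nat_lit 38167130), (nat_lit 25010362), (nat_lit 18643303), (nat_lit 12552662)] (nat_lit 10817553)) p13_14_1 (nat_lit 4) (nat_lit 55) (nat_lit 56) = true := by decide +kernel
def p13_14_1_56 : pfC (piC [(nat_lit 38167130), (nat_lit 25010362), (nat_lit 18643303), (nat_lit 12552662)] (nat_lit 10817553)) p13_14_1 (nat_lit 4) (nat_lit 56) (nat_lit 57) = true := by decide +kernel
def p13_14_1_57 : pfC (piC [(nat_lit 38167130), (nat_lit 25010362), (nat_lit 18643303), (nat_lit 12552662)] (nat_lit 10817553)) p13_14_1 (nat_lit 4) (nat_lit 57) (nat_lit 58) = true := by decide +kernel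
def p13_14_1_58 : pfC (piC [(nat_lit 38167130), (nat_lit 25010362), (nat_lit 18643303), (nat_lit 12552662)] (nat_lit 10817553)) p13_14_1 (nat_lit 4) (nat_lit 58) (nat_lit 59) = true := by decide +kernel
def p13_14_1_59 : pfC (piC [(nat_lit 38167130), (nat_lit 25010362), (nat_lit 18643303), (nat_lit 12552662)] (nat_lit 10817553)) p13_14_1 (nat_lit 4) (nat_lit 59) (nat_lit 60) = true := by decide +kernel
def p13_14_1_60 : pfC (piC [(nat_lit 38167130), (nat_lit 25010362), (nat_lit 18643303), (nat_lit 12552662)] (nat_lit 10817553)) p13_14_1 (nat_lit 4) (nat_lit 60) (nat_lit 61) = true := by decide +kernel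
def p13_14_1_61 : pfC (piC [(nat_lit 38167130), (nat_lit 25010362), (nat_lit 18643303), (nat_lit 12552662)] (nat_lit 10817553)) p13_14_1 (nat_lit 4) (nat_lit 61) (nat_lit 62) = true := by decide +kernel
def p13_14_1_62 : pfC (piC [(nat_lit 38167130), (nat_lit 25010362), (nat_lit 18643303), (nat_lit 12552662)] (nat_lit 10817553)) p13_14_1 (nat_lit 4) (nat_lit 62) (nat_lit 63) = true := by decide +kernel
def p13_14_1_63 : pfC (piC [(nat_lit 38167130), (nat_lit 25010362), (nat_lit 18643303), (nat_lit 12552662)] (nat_lit 10817553)) p13_14_1 (nat_lit 4) (nat_lit 63) (nat_lit 64) = true := by decide +kernel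
def p13_14_1_64 : pfC (piC [(nat_lit 38167130), (nat_lit 25010362), (nat_lit 18643303), (nat_lit 12552662)] (nat_lit 10817553)) p13_14_1 (nat_lit 4) (nat_lit 64) (nat_lit 65) = true := by decide +kernel
def p13_14_1_65 : pfC (piC [(nat_lit 38167130), (nat_lit 25010362), (nat_lit 18643303), (nat_lit 12552662)] (nat_lit 10817553)) p13_14_1 (nat_lit 4) (nat_lit 65) (nat_lit 66) = true := by decide +kernel
def p13_14_1_66 : pfC (piC [(nat_lit 38167130), (nat_lit 25010362), (nat_lit 18643303), (nat_lit 12552662)] (nat_lit 10817553)) p13_14_1 (nat_lit 4) (nat_lit 66) (nat_lit 67) = true := by decide +kernel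
def p13_14_1_67 : pfC (piC [(nat_lit 38167130), (nat_lit 25010362), (nat_lit 18643303), (nat_lit 12552662)] (nat_lit 10817553)) p13_14_1 (nat_lit 4) (nat_lit 67) (nat_lit 68) = true := by decide +kernel
def p13_14_1_68 : pfC (piC [(nat_lit 38167130), (nat_lit 25010362), (nat_lit 18643303), (nat_lit 12552662)] (nat_lit 10817553)) p13_14_1 (nat_lit 4) (nat_lit 68) (nat_lit 69) = true := by decide +kernel
def p13_14_1_69 : pfC (piC [(nat_lit 38167130), (nat_lit 25010362), (nat_lit 18643303), (nat_lit 12552662)] (nat_lit 10817553)) p13_14_1 (nat_lit 4) (nat_lit 69) (nat_lit 70) = true := by decide +kernel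
def p13_14_1_70 : pfC (piC [(nat_lit 38167130), (nat_lit 25010362), (nat_lit 18643303), (nat_lit 12552662)] (nat_lit 10817553)) p13_14_1 (nat_lit 4) (nat_lit 70) (nat_lit 71) = true := by decide +kernel
def p13_14_1_71 : pfC (piC [(nat_lit 38167130), (nat_lit 25010362), (nat_lit 18643303), (nat_lit 12552662)] (nat_lit 10817553)) p13_14_1 (nat_lit 4) (nat_lit 71) (nat_lit 72) = true := by decide +kernel
def p13_14_1_72 : pfC (piC [(nat_lit 38167130), (nat_lit 25010362), (nat_lit 18643303), (nat_lit 12552662)] (nat_lit 10817553)) p13_14_1 (nat_lit 4) (nat_lit 72) (nat_lit 73) = true := by decide +kernel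
def p13_14_1_73 : pfC (piC [(nat_lit 38167130), (nat_lit 25010362), (nat_lit 18643303), (nat_lit 12552662)] (nat_lit 10817553)) p13_14_1 (nat_lit 4) (nat_lit 73) (nat_lit 74) = true := by decide +kernel
def p13_14_1_74 : pfC (piC [(nat_lit 38167130), (nat_lit 25010362), (nat_lit 18643303), (nat_lit 12552662)] (nat_lit 10817553)) p13_14_1 (nat_lit 4) (nat_lit 74) (nat_lit 75) = true := by decide +kernel
def p13_14_1_75 : pfC (piC [(nat_lit 38167130), (nat_lit 25010362), (nat_lit 18643303), (nat_lit 12552662)] (nat_lit 10817553)) p13_14_1 (nat_lit 4) (nat_lit 75) (nat_lit 76) = true := by decide +kernel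
def p13_14_1_76 : pfC (piC [(nat_lit 38167130), (nat_lit 25010362), (nat_lit 18643303), (nat_lit 12552662)] (nat_lit 10817553)) p13_14_1 (nat_lit 4) (nat_lit 76) (nat_lit 77) = true := by decide +kernel
def p13_14_1_77 : pfC (piC [(nat_lit 38167130), (nat_lit 25010362), (nat_lit 18643303), (nat_lit 12552662)] (nat_lit 10817553)) p13_14_1 (nat_lit 4) (nat_lit 77) (nat_lit 78) = true := by decide +kernel
def p13_14_1_78 : pfC (piC [(nat_lit 38167130), (nat_lit 25010362), (nat_lit 18643303), (nat_lit 12552662)] (nat_lit 10817553)) p13_14_1 (nat_lit 4) (nat_lit 78) (nat_lit 79) = true := by decide +kernel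
def p13_14_1_79 : pfC (piC [(nat_lit 38167130), (nat_lit 25010362), (nat_lit 18643303), (nat_lit 12552662)] (nat_lit 10817553)) p13_14_1 (nat_lit 4) (nat_lit 79) (nat_lit 80) = true := by decide +kernel
def p13_14_1_80 : pfC (piC [(nat_lit 38167130), (nat_lit 25010362), (nat_lit 18643303), (nat_lit 12552662)] (nat_lit 10817553)) p13_14_1 (nat_lit 4) (nat_lit 80) (nat_lit 81) = true := by decide +kernel
def p13_14_1_81 : pfC (piC [(nat_lit 38167130), (nat_lit 25010362), (nat_lit 18643303), (nat_lit 12552662)] (nat_lit 10817553)) p13_14_1 (nat_lit 4) (nat_lit 81) (nat_lit 82) = true := by decide +kernel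
def p13_14_1_82 : pfC (piC [(nat_lit 38167130), (nat_lit 25010362), (nat_lit 18643303), (nat_lit 12552662)] (nat_lit 10817553)) p13_14_1 (nat_lit 4) (nat_lit 82) (nat_lit 83) = true := by decide +kernel
def p13_14_1_83 : pfC (piC [(nat_lit 38167130), (nat_lit 25010362), (nat_lit 18643303), (nat_lit 12552662)] (nat_lit 10817553)) p13_14_1 (nat_lit 4) (nat_lit 83) (nat_lit 84) = true := by decide +kernel
def p13_14_1_84 : pfC (piC [(nat_lit 38167130), (nat_lit 25010362), (nat_lit 18643303), (nat_lit 12552662)] (nat_lit 10817553)) p13_14_1 (nat_lit 4) (nat_lit 84) (nat_lit 85) = true := by decide +kernel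
def p13_14_1_85 : pfC (piC [(nat_lit 38167130), (nat_lit 25010362), (nat_lit 18643303), (nat_lit 12552662)] (nat_lit 10817553)) p13_14_1 (nat_lit 4) (nat_lit 85) (nat_lit 86) = true := by decide +kernel
def p13_14_1_86 : pfC (piC [(nat_lit 38167130), (nat_lit 25010362), (nat_lit 18643303), (nat_lit 12552662)] (nat_lit 10817553)) p13_14_1 (nat_lit 4) (nat_lit 86) (nat_lit 87) = true := by decide +kernel
def p13_14_1_87 : pfC (piC [(nat_lit 38167130), (nat_lit 25010362), (nat_lit 18643303), (nat_lit 12552662)] (nat_lit 10817553)) p13_14_1 (nat_lit 4) (nat_lit 87) (nat_lit 88) = true := by decide +kernel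
def p13_14_1_88 : pfC (piC [(nat_lit 38167130), (nat_lit 25010362), (nat_lit 18643303), (nat_lit 12552662)] (nat_lit 10817553)) p13_14_1 (nat_lit 4) (nat_lit 88) (nat_lit 89) = true := by decide +kernel
def p13_14_1_89 : pfC (piC [(nat_lit 38167130), (nat_lit 25010362), (nat_lit 18643303), (nat_lit 12552662)] (nat_lit 10817553)) p13_14_1 (nat_lit 4) (nat_lit 89) (nat_lit 90) = true := by decide +kernel
def p13_14_1_90 : pfC (piC [(nat_lit 38167130), (nat_lit 25010362), (nat_lit 18643303), (nat_lit 12552662)] (nat_lit 10817553)) p13_14_1 (nat_lit 4) (nat_lit 90) (nat_lit 91) = true := by decide +kernel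
def p13_14_1_91 : pfC (piC [(nat_lit 38167130), (nat_lit 25010362), (nat_lit 18643303), (nat_lit 12552662)] (nat_lit 10817553)) p13_14_1 (nat_lit 4) (nat_lit 91) (nat_lit 92) = true := by decide +kernel
def p13_14_1_92 : pfC (piC [(nat_lit 38167130), (nat_lit 25010362), (nat_lit 18643303), (nat_lit 12552662)] (nat_lit 10817553)) p13_14_1 (nat_lit 4) (nat_lit 92) (nat_lit 93) = true := by decide +kernel
def p13_14_1_93 : pfC (piC [(nat_lit 38167130), (nat_lit 25010362), (nat_lit 18643303), (nat_lit 12552662)] (nat_lit 10817553)) p13_14_1 (nat_lit 4) (nat_lit 93) (nat_lit 94) = true := by decide +kernel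
def p13_14_1_94 : pfC (piC [(nat_lit 38167130), (nat_lit 25010362), (nat_lit 18643303), (nat_lit 12552662)] (nat_lit 10817553)) p13_14_1 (nat_lit 4) (nat_lit 94) (nat_lit 95) = true := by decide +kernel
def p13_14_1_95 : pfC (piC [(nat_lit 38167130), (nat_lit 25010362), (nat_lit 18643303), (nat_lit 12552662)] (nat_lit 10817553)) p13_14_1 (nat_lit 4) (nat_lit 95) (nat_lit 96) = true := by decide +kernel
def p13_14_1_96 : pfC (piC [(nat_lit 38167130), (nat_lit 25010362), (nat_lit 18643303), (nat_lit 12552662)] (nat_lit 10817553)) p13_14_1 (nat_lit 4) (nat_lit 96) (nat_lit 97) = true := by decide +kernel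
def p13_14_1_97 : pfC (piC [(nat_lit 38167130), (nat_lit 25010362), (nat_lit 18643303), (nat_lit 12552662)] (nat_lit 10817553)) p13_14_1 (nat_lit 4) (nat_lit 97) (nat_lit 98) = true := by decide +kernel
def p13_14_1_98 : pfC (piC [(nat_lit 38167130), (nat_lit 25010362), (nat_lit 18643303), (nat_lit 12552662)] (nat_lit 10817553)) p13_14_1 (nat_lit 4) (nat_lit 98) (nat_lit 99) = true := by decide +kernel
def p13_14_1_99 : pfC (piC [(nat_lit 38167130), (nat_lit 25010362), (nat_lit 18643303), (nat_lit 12552662)] (nat_lit 10817553)) p13_14_1 (nat_lit 4) (nat_lit 99) (nat_lit 100) = true := by decide +kernel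
def p13_14_1_100 : pfC (piC [(nat_lit 38167130), (nat_lit 25010362), (nat_lit 18643303), (nat_lit 12552662)] (nat_lit 10817553)) p13_14_1 (nat_lit 4) (nat_lit 100) (nat_lit 101) = true := by decide +kernel
def p13_14_1_101 : pfC (piC [(nat_lit 38167130), (nat_lit 25010362), (nat_lit 18643303), (nat_lit 12552662)] (nat_lit 10817553)) p13_14_1 (nat_lit 4) (nat_lit 101) (nat_lit 102) = true := by decide +kernel
def p13_14_1_102 : pfC (piC [(nat_lit 38167130), (nat_lit 25010362), (nat_lit 18643303), (nat_lit 12552662)] (nat_lit 10817553)) p13_14_1 (nat_lit 4) (nat_lit 102) (nat_lit 103) = true := by decide +kernel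
def p13_14_1_103 : pfC (piC [(nat_lit 38167130), (nat_lit 25010362), (nat_lit 18643303), (nat_lit 12552662)] (nat_lit 10817553)) p13_14_1 (nat_lit 4) (nat_lit 103) (nat_lit 104) = true := by decide +kernel
def p13_14_1_104 : pfC (piC [(nat_lit 38167130), (nat_lit 25010362), (nat_lit 18643303), (nat_lit 12552662)] (nat_lit 10817553)) p13_14_1 (nat_lit 4) (nat_lit 104) (nat_lit 105) = true := by decide +kernel
def p13_14_1_105 : pfC (piC [(nat_lit 38167130), (nat_lit 25010362), (nat_lit 18643303), (nat_lit 12552662)] (nat_lit 10817553)) p13_14_1 (nat_lit 4) (nat_lit 105) (nat_lit 106) = true := by decide +kernel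
def p13_14_1_106 : pfC (piC [(nat_lit 38167130), (nat_lit 25010362), (nat_lit 18643303), (nat_lit 12552662)] (nat_lit 10817553)) p13_14_1 (nat_lit 4) (nat_lit 106) (nat_lit 107) = true := by decide +kernel
def p13_14_1_107 : pfC (piC [(nat_lit 38167130), (nat_lit 25010362), (nat_lit 18643303), (nat_lit 12552662)] (nat_lit 10817553)) p13_14_1 (nat_lit 4) (nat_lit 107) (nat_lit 108) = true := by decide +kernel
def p13_14_1_108 : pfC (piC [(nat_lit 38167130), (nat_lit 25010362), (nat_lit 18643303), (nat_lit 12552662)] (nat_lit 10817553)) p13_14_1 (nat_lit 4) (nat_lit 108) (nat_lit 109) = true := by decide +kernel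
def p13_14_1_109 : pfC (piC [(nat_lit 38167130), (nat_lit 25010362), (nat_lit 18643303), (nat_lit 12552662)] (nat_lit 10817553)) p13_14_1 (nat_lit 4) (nat_lit 109) (nat_lit 110) = true := by decide +kernel
def p13_14_1_110 : pfC (piC [(nat_lit 38167130), (nat_lit 25010362), (nat_lit 18643303), (nat_lit 12552662)] (nat_lit 10817553)) p13_14_1 (nat_lit 4) (nat_lit 110) (nat_lit 111) = true := by decide +kernel
def p13_14_1_111 : pfC (piC [(nat_lit 38167130), (nat_lit 25010362), (nat_lit 18643303), (nat_lit 12552662)] (nat_lit 10817553)) p13_14_1 (nat_lit 4) (nat_lit 111) (nat_lit 112) = true := by decide +kernel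
def p13_14_1_112 : pfC (piC [(nat_lit 38167130), (nat_lit 25010362), (nat_lit 18643303), (nat_lit 12552662)] (nat_lit 10817553)) p13_14_1 (nat_lit 4) (nat_lit 112) (nat_lit 113) = true := by decide +kernel
def p13_14_1_113 : pfC (piC [(nat_lit 38167130), (nat_lit 25010362), (nat_lit 18643303), (nat_lit 12552662)] (nat_lit 10817553)) p13_14_1 (nat_lit 4) (nat_lit 113) (nat_lit 114) = true := by decide +kernel
def p13_14_1_114 : pfC (piC [(nat_lit 38167130), (nat_lit 25010362), (nat_lit 18643303), (nat_lit 12552662)] (nat_lit 10817553)) p13_14_1 (nat_lit 4) (nat_lit 114) (nat_lit 115) = true := by decide +kernel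
def p13_14_1_115 : pfC (piC [(nat_lit 38167130), (nat_lit 25010362), (nat_lit 18643303), (nat_lit 12552662)] (nat_lit 10817553)) p13_14_1 (nat_lit 4) (nat_lit 115) (nat_lit 116) = true := by decide +kernel
def p13_14_1_116 : pfC (piC [(nat_lit 38167130), (nat_lit 25010362), (nat_lit 18643303), (nat_lit 12552662)] (nat_lit 10817553)) p13_14_1 (nat_lit 4) (nat_lit 116) (nat_lit 117) = true := by decide +kernel
def p13_14_1_117 : pfC (piC [(nat_lit 38167130), (nat_lit 25010362), (nat_lit 18643303), (nat_lit 12552662)] (nat_lit 10817553)) p13_14_1 (nat_lit 4) (nat_lit 117) (nat_lit 118) = true := by decide +kernel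
def p13_14_1_118 : pfC (piC [(nat_lit 38167130), (nat_lit 25010362), (nat_lit 18643303), (nat_lit 12552662)] (nat_lit 10817553)) p13_14_1 (nat_lit 4) (nat_lit 118) (nat_lit 119) = true := by decide +kernel
def p13_14_1_119 : pfC (piC [(nat_lit 38167130), (nat_lit 25010362), (nat_lit 18643303), (nat_lit 12552662)] (nat_lit 10817553)) p13_14_1 (nat_lit 4) (nat_lit 119) (nat_lit 120) = true := by decide +kernel
def p13_14_1_120 : pfC (piC [(nat_lit 38167130), (nat_lit 25010362), (nat_lit 18643303), (nat_lit 12552662)] (nat_lit 10817553)) p13_14_1 (nat_lit 4) (nat_lit 120) (nat_lit 121) = true := by decide +kernel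
def p13_14_1_121 : pfC (piC [(nat_lit 38167130), (nat_lit 25010362), (nat_lit 18643303), (nat_lit 12552662)] (nat_lit 10817553)) p13_14_1 (nat_lit 4) (nat_lit 121) (nat_lit 122) = true := by decide +kernel
def p13_14_1_122 : pfC (piC [(nat_lit 38167130), (nat_lit 25010362), (nat_lit 18643303), (nat_lit 12552662)] (nat_lit 10817553)) p13_14_1 (nat_lit 4) (nat_lit 122) (nat_lit 123) = true := by decide +kernel
def p13_14_1_123 : pfC (piC [(nat_lit 38167130), (nat_lit 25010362), (nat_lit 18643303), (nat_lit 12552662)] (nat_lit 10817553)) p13_14_1 (nat_lit 4) (nat_lit 123) (nat_lit 124) = true := by decide +kernel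
def p13_14_1_124 : pfC (piC [(nat_lit 38167130), (nat_lit 25010362), (nat_lit 18643303), (nat_lit 12552662)] (nat_lit 10817553)) p13_14_1 (nat_lit 4) (nat_lit 124) (nat_lit 125) = true := by decide +kernel
def p13_14_1_125 : pfC (piC [(nat_lit 38167130), (nat_lit 25010362), (nat_lit 18643303), (nat_lit 12552662)] (nat_lit 10817553)) p13_14_1 (nat_lit 4) (nat_lit 125) (nat_lit 126) = true := by decide +kernel
def p13_14_1_126 : pfC (piC [(nat_lit 38167130), (nat_lit 25010362), (nat_lit 18643303), (nat_lit 12552662)] (nat_lit 10817553)) p13_14_1 (nat_lit 4) (nat_lit 126) (nat_lit 127) = true := by decide +kernel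
def p13_14_1_127 : pfC (piC [(nat_lit 38167130), (nat_lit 25010362), (nat_lit 18643303), (nat_lit 12552662)] (nat_lit 10817553)) p13_14_1 (nat_lit 4) (nat_lit 127) (nat_lit 128) = true := by decide +kernel
def p13_14_1_128 : pfC (piC [(nat_lit 38167130), (nat_lit 25010362), (nat_lit 18643303), (nat_lit 12552662)] (nat_lit 10817553)) p13_14_1 (nat_lit 4) (nat_lit 128) (nat_lit 129) = true := by decide +kernel
def p13_14_1_129 : pfC (piC [(nat_lit 38167130), (nat_lit 25010362), (nat_lit 18643303), (nat_lit 12552662)] (nat_lit 10817553)) p13_14_1 (nat_lit 4) (nat_lit 129) (nat_lit 130) = true := by decide +kernel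
def p13_14_1_130 : pfC (piC [(nat_lit 38167130), (nat_lit 25010362), (nat_lit 18643303), (nat_lit 12552662)] (nat_lit 10817553)) p13_14_1 (nat_lit 4) (nat_lit 130) (nat_lit 131) = true := by decide +kernel
def p13_14_1_131 : pfC (piC [(nat_lit 38167130), (nat_lit 25010362), (nat_lit 18643303), (nat_lit 12552662)] (nat_lit 10817553)) p13_14_1 (nat_lit 4) (nat_lit 131) (nat_lit 132) = true := by decide +kernel
def p13_14_1_132 : pfC (piC [(nat_lit 38167130), (nat_lit 25010362), (nat_lit 18643303), (nat_lit 12552662)] (nat_lit 10817553)) p13_14_1 (nat_lit 4) (nat_lit 132) (nat_lit 133) = true := by decide +kernel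
def p13_14_1_133 : pfC (piC [(nat_lit 38167130), (nat_lit 25010362), (nat_lit 18643303), (nat_lit 12552662)] (nat_lit 10817553)) p13_14_1 (nat_lit 4) (nat_lit 133) (nat_lit 134) = true := by decide +kernel
def p13_14_1_134 : pfC (piC [(nat_lit 38167130), (nat_lit 25010362), (nat_lit 18643303), (nat_lit 12552662)] (nat_lit 10817553)) p13_14_1 (nat_lit 4) (nat_lit 134) (nat_lit 135) = true := by decide +kernel
def p13_14_1_135 : pfC (piC [(nat_lit 38167130), (nat_lit 25010362), (nat_lit 18643303), (nat_lit 12552662)] (nat_lit 10817553)) p13_14_1 (nat_lit 4) (nat_lit 135) (nat_lit 136) = true := by decide +kernel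
def p13_14_1_136 : pfC (piC [(nat_lit 38167130), (nat_lit 25010362), (nat_lit 18643303), (nat_lit 12552662)] (nat_lit 10817553)) p13_14_1 (nat_lit 4) (nat_lit 136) (nat_lit 137) = true := by decide +kernel
def p13_14_1_137 : pfC (piC [(nat_lit 38167130), (nat_lit 25010362), (nat_lit 18643303), (nat_lit 12552662)] (nat_lit 10817553)) p13_14_1 (nat_lit 4) (nat_lit 137) (nat_lit 138) = true := by decide +kernel
def p13_14_1_138 : pfC (piC [(nat_lit 38167130), (nat_lit 25010362), (nat_lit 18643303), (nat_lit 12552662)] (nat_lit 10817553)) p13_14_1 (nat_lit 4) (nat_lit 138) (nat_lit 139) = true := by decide +kernel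
def p13_14_1_139 : pfC (piC [(nat_lit 38167130), (nat_lit 25010362), (nat_lit 18643303), (nat_lit 12552662)] (nat_lit 10817553)) p13_14_1 (nat_lit 4) (nat_lit 139) (nat_lit 140) = true := by decide +kernel
def p13_14_1_140 : pfC (piC [(nat_lit 38167130), (nat_lit 25010362), (nat_lit 18643303), (nat_lit 12552662)] (nat_lit 10817553)) p13_14_1 (nat_lit 4) (nat_lit 140) (nat_lit 141) = true := by decide +kernel
def p13_14_1_141 : pfC (piC [(nat_lit 38167130), (nat_lit 25010362), (nat_lit 18643303), (nat_lit 12552662)] (nat_lit 10817553)) p13_14_1 (nat_lit 4) (nat_lit 141) (nat_lit 142) = true := by decide +kernel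
def p13_14_1_142 : pfC (piC [(nat_lit 38167130), (nat_lit 25010362), (nat_lit 18643303), (nat_lit 12552662)] (nat_lit 10817553)) p13_14_1 (nat_lit 4) (nat_lit 142) (nat_lit 143) = true := by decide +kernel
def p13_14_1_143 : pfC (piC [(nat_lit 38167130), (nat_lit 25010362), (nat_lit 18643303), (nat_lit 12552662)] (nat_lit 10817553)) p13_14_1 (nat_lit 4) (nat_lit 143) (nat_lit 144) = true := by decide +kernel
def p13_14_1_144 : pfC (piC [(nat_lit 38167130), (nat_lit 25010362), (nat_lit 18643303), (nat_lit 12552662)] (nat_lit 10817553)) p13_14_1 (nat_lit 4) (nat_lit 144) (nat_lit 145) = true := by decide +kernel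
def p13_14_1_145 : pfC (piC [(nat_lit 38167130), (nat_lit 25010362), (nat_lit 18643303), (nat_lit 12552662)] (nat_lit 10817553)) p13_14_1 (nat_lit 4) (nat_lit 145) (nat_lit 146) = true := by decide +kernel
def p13_14_1_146 : pfC (piC [(nat_lit 38167130), (nat_lit 25010362), (nat_lit 18643303), (nat_lit 12552662)] (nat_lit 10817553)) p13_14_1 (nat_lit 4) (nat_lit 146) (nat_lit 147) = true := by decide +kernel
def p13_14_1_147 : pfC (piC [(nat_lit 38167130), (nat_lit 25010362), (nat_lit 18643303), (nat_lit 12552662)] (nat_lit 10817553)) p13_14_1 (nat_lit 4) (nat_lit 147) (nat_lit 148) = true := by decide +kernel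
def p13_14_1_148 : pfC (piC [(nat_lit 38167130), (nat_lit 25010362), (nat_lit 18643303), (nat_lit 12552662)] (nat_lit 10817553)) p13_14_1 (nat_lit 4) (nat_lit 148) (nat_lit 149) = true := by decide +kernel
def p13_14_1_149 : pfC (piC [(nat_lit 38167130), (nat_lit 25010362), (nat_lit 18643303), (nat_lit 12552662)] (nat_lit 10817553)) p13_14_1 (nat_lit 4) (nat_lit 149) (nat_lit 150) = true := by decide +kernel
def p13_14_1_150 : pfC (piC [(nat_lit 38167130), (nat_lit 25010362), (nat_lit 18643303), (nat_lit 12552662)] (nat_lit 10817553)) p13_14_1 (nat_lit 4) (nat_lit 150) (nat_lit 151) = true := by decide +kernel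
def p13_14_1_151 : pfC (piC [(nat_lit 38167130), (nat_lit 25010362), (nat_lit 18643303), (nat_lit 12552662)] (nat_lit 10817553)) p13_14_1 (nat_lit 4) (nat_lit 151) (nat_lit 152) = true := by decide +kernel
def p13_14_1_152 : pfC (piC [(nat_lit 38167130), (nat_lit 25010362), (nat_lit 18643303), (nat_lit 12552662)] (nat_lit 10817553)) p13_14_1 (nat_lit 4) (nat_lit 152) (nat_lit 153) = true := by decide +kernel
def p13_14_1_153 : pfC (piC [(nat_lit 38167130), (nat_lit 25010362), (nat_lit 18643303), (nat_lit 12552662)] (nat_lit 10817553)) p13_14_1 (nat_lit 4) (nat_lit 153) (nat_lit 154) = true := by decide +kernel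
def p13_14_1_154 : pfC (piC [(nat_lit 38167130), (nat_lit 25010362), (nat_lit 18643303), (nat_lit 12552662)] (nat_lit 10817553)) p13_14_1 (nat_lit 4) (nat_lit 154) (nat_lit 155) = true := by decide +kernel
def p13_14_1_155 : pfC (piC [(nat_lit 38167130), (nat_lit 25010362), (nat_lit 18643303), (nat_lit 12552662)] (nat_lit 10817553)) p13_14_1 (nat_lit 4) (nat_lit 155) (nat_lit 156) = true := by decide +kernel
def p13_14_1_156 : pfC (piC [(nat_lit 38167130), (nat_lit 25010362), (nat_lit 18643303), (nat_lit 12552662)] (nat_lit 10817553)) p13_14_1 (nat_lit 4) (nat_lit 156) (nat_lit 157) = true := by decide +kernel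
def p13_14_1_157 : pfC (piC [(nat_lit 38167130), (nat_lit 25010362), (nat_lit 18643303), (nat_lit 12552662)] (nat_lit 10817553)) p13_14_1 (nat_lit 4) (nat_lit 157) (nat_lit 158) = true := by decide +kernel
def p13_14_1_158 : pfC (piC [(nat_lit 38167130), (nat_lit 25010362), (nat_lit 18643303), (nat_lit 12552662)] (nat_lit 10817553)) p13_14_1 (nat_lit 4) (nat_lit 158) (nat_lit 159) = true := by decide +kernel
def p13_14_1_159 : pfC (piC [(nat_lit 38167130), (nat_lit 25010362), (nat_lit 18643303), (nat_lit 12552662)] (nat_lit 10817553)) p13_14_1 (nat_lit 4) (nat_lit 159) (nat_lit 160) = true := by decide +kernel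
def p13_14_1_160 : pfC (piC [(nat_lit 38167130), (nat_lit 25010362), (nat_lit 18643303), (nat_lit 12552662)] (nat_lit 10817553)) p13_14_1 (nat_lit 4) (nat_lit 160) (nat_lit 161) = true := by decide +kernel
def p13_14_1_161 : pfC (piC [(nat_lit 38167130), (nat_lit 25010362), (nat_lit 18643303), (nat_lit 12552662)] (nat_lit 10817553)) p13_14_1 (nat_lit 4) (nat_lit 161) (nat_lit 162) = true := by decide +kernel
def p13_14_1_162 : pfC (piC [(nat_lit 38167130), (nat_lit 25010362), (nat_lit 18643303), (nat_lit 12552662)] (nat_lit 10817553)) p13_14_1 (nat_lit 4) (nat_lit 162) (nat_lit 163) = true := by decide +kernel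
def p13_14_1_163 : pfC (piC [(nat_lit 38167130), (nat_lit 25010362), (nat_lit 18643303), (nat_lit 12552662)] (nat_lit 10817553)) p13_14_1 (nat_lit 4) (nat_lit 163) (nat_lit 164) = true := by decide +kernel
def p13_14_1_164 : pfC (piC [(nat_lit 38167130), (nat_lit 25010362), (nat_lit 18643303), (nat_lit 12552662)] (nat_lit 10817553)) p13_14_1 (nat_lit 4) (nat_lit 164) (nat_lit 165) = true := by decide +kernel
def p13_14_1_165 : pfC (piC [(nat_lit 38167130), (nat_lit 25010362), (nat_lit 18643303), (nat_lit 12552662)] (nat_lit 10817553)) p13_14_1 (nat_lit 4) (nat_lit 165) (nat_lit 166) = true := by decide +kernel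
def p13_14_1_166 : pfC (piC [(nat_lit 38167130), (nat_lit 25010362), (nat_lit 18643303), (nat_lit 12552662)] (nat_lit 10817553)) p13_14_1 (nat_lit 4) (nat_lit 166) (nat_lit 167) = true := by decide +kernel
theorem p13_14_1_T : PfS (PiF n13_14.reverse (nat_lit 10817553)) p13_14_1 (nat_lit 4) [] 0 :=
  pftab_of (los := [(nat_lit 38167130), (nat_lit 25010362), (nat_lit 18643303), (nat_lit 12552662)]) (by decide +kernel) (hi := (nat_lit 167)) (PfP.trans (PfP.trans (PfP.trans (PfP.trans (PfP.trans (PfP.trans (PfP.trans (PfP.trans (PfP.trans (PfP.trans (PfP.trans (PfP.trans (PfP.trans (PfP.trans (PfP.trans (PfP.trans (PfP.trans (PfP.trans (PfP.trans (PfP.trans (PfP.trans (PfP.trans (PfP.trans (PfP.trans (PfP.trans (PfP.trans (PfP.trans (PfP.trans (PfP.trans (PfP.trans (PfP.trans (PfP.trans (PfP.trans (PfP.trans (PfP.trans (PfP.trans (PfP.trans (PfP.trans (PfP.trans (PfP.trans (PfP.trans (PfP.trans (PfP.trans (PfP.trans (PfP.trans (PfP.trans (PfP.trans (PfP.trans (PfP.trans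 (PfP.trans (PfP.trans (PfP.trans (PfP.trans (PfP.trans (PfP.trans (PfP.trans (PfP.trans (PfP.trans (PfP.trans (PfP.trans (PfP.trans (PfP.trans (PfP.trans (PfP.trans (PfP.trans (PfP.trans (PfP.trans (PfP.trans (PfP.trans (PfP.trans (PfP.trans (PfP.trans (PfP.trans (PfP.trans (PfP.trans (PfP.trans (PfP.trans (PfP.trans (PfP.trans (PfP.trans (PfP.trans (PfP.trans (PfP.trans (PfP.trans (PfP.trans (PfP.trans (PfP.trans (PfP.trans (PfP.trans (PfP.trans (PfP.trans (PfP.trans (PfP.trans (PfP.trans (PfP.trans (PfP.trans (PfP.trans (PfP.trans (PfP.trans (PfP.trans (PfP.trans (PfP.trans (PfP.trans (PfP.trans (PfP.trans (PfP.trans (PfP.trans (PfP.trans (PfP.trans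
 (PfP.trans (PfP.trans (PfP.trans (PfP.trans (PfP.trans (PfP.trans (PfP.trans (PfP.trans (PfP.trans (PfP.trans (PfP.trans (PfP.trans (PfP.trans (PfP.trans (PfP.trans (PfP.trans (PfP.trans (PfP.trans (PfP.trans (PfP.trans (PfP.trans (PfP.trans (PfP.trans (PfP.trans (PfP.trans (PfP.trans (PfP.trans (PfP.trans (PfP.trans (PfP.trans (PfP.trans (PfP.trans (PfP.trans (PfP.trans (PfP.trans (PfP.trans (PfP.trans (PfP.trans (PfP.trans (PfP.trans (PfP.trans (PfP.trans (PfP.trans (PfP.trans (PfP.trans (PfP.trans (PfP.trans (PfP.trans (PfP.trans (PfP.trans (PfP.trans (PfP.trans (PfP.trans (PfP.trans (PfP.trans (PfP.trans (PfP.trans (pfC_sound p13_14_1_0) (pfC_sound p13_14_1_1)) (pfC_sound p13_14_1_2)) (pfC_sound p13_14_1_3)) (pfC_sound p13_14_1_4)) (pfC_sound p13_14_1_5)) (pfC_sound p13_14_1_6)) (pfC_sound p13_14_1_7)) (pfC_sound p13_14_1_8)) (pfC_sound p13_14_1_9)) (pfC_sound p13_14_1_10)) (pfC_sound p13_14_1_11)) (pfC_sound p13_14_1_12)) (pfC_sound p13_14_1_13)) (pfC_sound p13_14_1_14))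 (pfC_sound p13_14_1_15)) (pfC_sound p13_14_1_16)) (pfC_sound p13_14_1_17)) (pfC_sound p13_14_1_18)) (pfC_sound p13_14_1_19)) (pfC_sound p13_14_1_20)) (pfC_sound p13_14_1_21)) (pfC_sound p13_14_1_22))
 (pfC_sound p13_14_1_23)) (pfC_sound p13_14_1_24)) (pfC_sound p13_14_1_25)) (pfC_sound p13_14_1_26)) (pfC_sound p13_14_1_27)) (pfC_sound p13_14_1_28)) (pfC_sound p13_14_1_29)) (pfC_sound p13_14_1_30)) (pfC_sound p13_14_1_31)) (pfC_sound p13_14_1_32)) (pfC_sound p13_14_1_33)) (pfC_sound p13_14_1_34)) (pfC_sound p13_14_1_35)) (pfC_sound p13_14_1_36)) (pfC_sound p13_14_1_37)) (pfC_sound p13_14_1_38)) (pfC_sound p13_14_1_39)) (pfC_sound p13_14_1_40)) (pfC_sound p13_14_1_41)) (pfC_sound p13_14_1_42)) (pfC_sound p13_14_1_43)) (pfC_sound p13_14_1_44)) (pfC_sound p13_14_1_45)) (pfC_sound p13_14_1_46)) (pfC_sound p13_14_1_47)) (pfC_sound p13_14_1_48)) (pfC_sound p13_14_1_49)) (pfC_sound p13_14_1_50)) (pfC_sound p13_14_1_51)) (pfC_sound p13_14_1_52)) (pfC_sound p13_14_1_53)) (pfC_sound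 p13_14_1_54)) (pfC_sound p13_14_1_55)) (pfC_sound p13_14_1_56)) (pfC_sound p13_14_1_57)) (pfC_sound p13_14_1_58)) (pfC_sound p13_14_1_59)) (pfC_sound p13_14_1_60)) (pfC_sound p13_14_1_61)) (pfC_sound p13_14_1_62)) (pfC_sound p13_14_1_63)) (pfC_sound p13_14_1_64)) (pfC_sound p13_14_1_65)) (pfC_sound p13_14_1_66)) (pfC_sound p13_14_1_67)) (pfC_sound p13_14_1_68)) (pfC_sound p13_14_1_69)) (pfC_sound p13_14_1_70))
 (pfC_sound p13_14_1_71)) (pfC_sound p13_14_1_72)) (pfC_sound p13_14_1_73)) (pfC_sound p13_14_1_74)) (pfC_sound p13_14_1_75)) (pfC_sound p13_14_1_76)) (pfC_sound p13_14_1_77)) (pfC_sound p13_14_1_78)) (pfC_sound p13_14_1_79)) (pfC_sound p13_14_1_80)) (pfC_sound p13_14_1_81)) (pfC_sound p13_14_1_82)) (pfC_sound p13_14_1_83)) (pfC_sound p13_14_1_84)) (pfC_sound p13_14_1_85)) (pfC_sound p13_14_1_86)) (pfC_sound p13_14_1_87)) (pfC_sound p13_14_1_88)) (pfC_sound p13_14_1_89)) (pfC_sound p13_14_1_90)) (pfC_sound p13_14_1_91)) (pfC_sound p13_14_1_92)) (pfC_sound p13_14_1_93))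 (pfC_sound p13_14_1_94)) (pfC_sound p13_14_1_95)) (pfC_sound p13_14_1_96)) (pfC_sound p13_14_1_97)) (pfC_sound p13_14_1_98)) (pfC_sound p13_14_1_99)) (pfC_sound p13_14_1_100)) (pfC_sound p13_14_1_101)) (pfC_sound p13_14_1_102)) (pfC_sound p13_14_1_103)) (pfC_sound p13_14_1_104)) (pfC_sound p13_14_1_105)) (pfC_sound p13_14_1_106)) (pfC_sound p13_14_1_107)) (pfC_sound p13_14_1_108)) (pfC_sound p13_14_1_109)) (pfC_sound p13_14_1_110)) (pfC_sound p13_14_1_111)) (pfC_sound p13_14_1_112)) (pfC_sound p13_14_1_113)) (pfC_sound p13_14_1_114)) (pfC_sound p13_14_1_115)) (pfC_sound p13_14_1_116)) (pfC_sound p13_14_1_117))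
 (pfC_sound p13_14_1_118)) (pfC_sound p13_14_1_119)) (pfC_sound p13_14_1_120)) (pfC_sound p13_14_1_121)) (pfC_sound p13_14_1_122)) (pfC_sound p13_14_1_123)) (pfC_sound p13_14_1_124)) (pfC_sound p13_14_1_125)) (pfC_sound p13_14_1_126)) (pfC_sound p13_14_1_127)) (pfC_sound p13_14_1_128)) (pfC_sound p13_14_1_129)) (pfC_sound p13_14_1_130)) (pfC_sound p13_14_1_131)) (pfC_sound p13_14_1_132)) (pfC_sound p13_14_1_133)) (pfC_sound p13_14_1_134)) (pfC_sound p13_14_1_135)) (pfC_sound p13_14_1_136)) (pfC_sound p13_14_1_137)) (pfC_sound p13_14_1_138)) (pfC_sound p13_14_1_139)) (pfC_sound p13_14_1_140)) (pfC_sound p13_14_1_141)) (pfC_sound p13_14_1_142)) (pfC_sound p13_14_1_143)) (pfC_sound p13_14_1_144)) (pfC_sound p13_14_1_145)) (pfC_sound p13_14_1_146)) (pfC_sound p13_14_1_147)) (pfC_sound p13_14_1_148)) (pfC_sound p13_14_1_149)) (pfC_sound p13_14_1_150)) (pfC_sound p13_14_1_151)) (pfC_sound p13_14_1_152)) (pfC_sound p13_14_1_153)) (pfC_sound p13_14_1_154)) (pfC_sound p13_14_1_155))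 (pfC_sound p13_14_1_156)) (pfC_sound p13_14_1_157)) (pfC_sound p13_14_1_158)) (pfC_sound p13_14_1_159)) (pfC_sound p13_14_1_160)) (pfC_sound p13_14_1_161)) (pfC_sound p13_14_1_162)) (pfC_sound p13_14_1_163))
 (pfC_sound p13_14_1_164)) (pfC_sound p13_14_1_165)) (pfC_sound p13_14_1_166)) (by decide +kernel)

def z13_14_1 : zOK yB13_14 (nat_lit 1) (nat_lit 400) (nat_lit 600) (nat_lit 10817553) (nat_lit 7256705) = true := by decide +kernel
def g13_14_1 : gOK yB13_14.x P13_14 (nat_lit 1412) (q13_14 :: r13_14) (nat_lit 1) (nat_lit 400) (nat_lit 2) (nat_lit 600) (nat_lit 11000000) (nat_lit 17850000) (nat_lit 12712500) (nat_lit 12712500) [(nat_lit 800), (nat_lit 1130)] = true := by decide +kernel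
def v13_14_1 : ivC P13_14 s13_14 w13_14 n13_14 (nat_lit 4) (nat_lit 4980) (nat_lit 1) (nat_lit 400) f160_1_400 f168_1_400 (nat_lit 2) (nat_lit 600) f160_1_600 f168_1_600 (nat_lit 10817553) (nat_lit 7256705) p13_14_1 = true := by decide +kernel
def p13_14_2 : PF := (PF.cons (PF.cons (PF.cons (PF.cons (PF.leaf (nat_lit 2642422) (nat_lit 14847778) (nat_lit 52261034) (nat_lit 14847778) [(nat_lit 0), (nat_lit 0), (nat_lit 0), (nat_lit 0)]) (PF.cons (PF.leaf (nat_lit 2819251) (nat_lit 313873) (nat_lit 51959315) (nat_lit 14835624) [(nat_lit 313873), (nat_lit 0), (nat_lit 0), (nat_lit 0)]) (PF.cons (PF.leaf (nat_lit 3027803) (nat_lit 340943) (nat_lit 51607225) (nat_lit 14819701) [(nat_lit 340943), (nat_lit 0), (nat_lit 0), (nat_lit 0)]) (PF.cons (PF.leaf (nat_lit 3261555) (nat_lit 364817) (nat_lit 51214551) (nat_lit 14799808) [(nat_lit 364817), (nat_lit 0), (nat_lit 0), (nat_lit 0)]) (PF.cons (PF.leaf (nat_lit 3516682) (nat_lit 386195) (nat_lit 50788291) (nat_lit 14775740)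 [(nat_lit 386195), (nat_lit 0), (nat_lit 0), (nat_lit 0)]) (PF.cons (PF.leaf (nat_lit 3790233) (nat_lit 405522) (nat_lit 50333870) (nat_lit 14747329) [(nat_lit 405522), (nat_lit 0), (nat_lit 0), (nat_lit 0)]) (PF.cons (PF.leaf (nat_lit 4079821) (nat_lit 423107) (nat_lit 49855718) (nat_lit 14714450) [(nat_lit 423107), (nat_lit 0), (nat_lit 0), (nat_lit 0)]) (PF.cons (PF.leaf (nat_lit 4383418) (nat_lit 439172) (nat_lit 49357572) (nat_lit 14677030) [(nat_lit 439172), (nat_lit 0),
 (nat_lit 0), (nat_lit 0)]) (PF.cons (PF.leaf (nat_lit 4699264) (nat_lit 453889) (nat_lit 48842656) (nat_lit 14635044) [(nat_lit 453889), (nat_lit 0), (nat_lit 0), (nat_lit 0)]) (PF.cons (PF.leaf (nat_lit 5025770) (nat_lit 467389) (nat_lit 48313793) (nat_lit 14588513) [(nat_lit 467389), (nat_lit 0), (nat_lit 0), (nat_lit 0)]) (PF.cons PF.nil (PF.cons PF.nil PF.nil)))))))))))) (PF.cons (PF.cons (PF.leaf (nat_lit 3212705) (nat_lit 1358049) (nat_lit 50969497) (nat_lit 14781266) [(nat_lit 0), (nat_lit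 1358049), (nat_lit 0), (nat_lit 0)]) (PF.cons (PF.leaf (nat_lit 3438857) (nat_lit 374737) (nat_lit 50583242) (nat_lit 14758195) [(nat_lit 374737), (nat_lit 1392636), (nat_lit 0), (nat_lit 0)]) (PF.cons (PF.leaf (nat_lit 3688615) (nat_lit 395342) (nat_lit 50161378) (nat_lit 14730698) [(nat_lit 395342), (nat_lit 1426051), (nat_lit 0), (nat_lit 0)]) (PF.cons (PF.leaf (nat_lit 3957574) (nat_lit 413894) (nat_lit 49710597) (nat_lit 14698727) [(nat_lit 413894), (nat_lit 1457805), (nat_lit 0), (nat_lit 0)]) (PF.cons (PF.leaf (nat_lit 4242984) (nat_lit 430731) (nat_lit 49235967) (nat_lit 14662246) [(nat_lit 430731), (nat_lit 1487673), (nat_lit 0), (nat_lit 0)]) (PF.cons (PF.leaf (nat_lit 4542601)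
 (nat_lit 446087) (nat_lit 48741565) (nat_lit 14621244) [(nat_lit 446087), (nat_lit 1515567), (nat_lit 0), (nat_lit 0)]) (PF.cons (PF.leaf (nat_lit 4854525) (nat_lit 460133) (nat_lit 48230790) (nat_lit 14575747) [(nat_lit 460133), (nat_lit 1541471), (nat_lit 0), (nat_lit 0)]) (PF.cons (PF.leaf (nat_lit 5177126) (nat_lit 473005) (nat_lit 47706553) (nat_lit 14525812) [(nat_lit 473005), (nat_lit 1565411), (nat_lit 0), (nat_lit 0)]) (PF.cons PF.nil (PF.cons PF.nil PF.nil)))))))))) (PF.cons (PF.cons (PF.leaf (nat_lit 3863762) (nat_lit 1453706) (nat_lit 49521870) (nat_lit 14679529) [(nat_lit 0), (nat_lit 1453706), (nat_lit 0), (nat_lit 0)]) (PF.cons (PF.leaf (nat_lit 4125928) (nat_lit 420993) (nat_lit 49078966) (nat_lit 14644500) [(nat_lit 420993), (nat_lit 1482176), (nat_lit 0), (nat_lit 0)]) (PF.cons (PF.leaf (nat_lit 4406010) (nat_lit 437283) (nat_lit 48611008) (nat_lit 14604854) [(nat_lit 437283), (nat_lit 1509191), (nat_lit 0), (nat_lit 0)]) (PF.cons (PF.leaf (nat_lit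 4700819) (nat_lit 452078) (nat_lit 48122787) (nat_lit 14560669) [(nat_lit 452078), (nat_lit 1534559), (nat_lit 0), (nat_lit 0)]) (PF.cons (PF.leaf (nat_lit 5008219) (nat_lit 465571) (nat_lit 47618097) (nat_lit
 14512032) [(nat_lit 465571), (nat_lit 1558199), (nat_lit 0), (nat_lit 0)]) (PF.cons (PF.leaf (nat_lit 5326466) (nat_lit 477904) (nat_lit 47100067) (nat_lit 14459044) [(nat_lit 477904), (nat_lit 1580088), (nat_lit 0), (nat_lit 0)]) (PF.cons (PF.leaf (nat_lit 5653999) (nat_lit 489191) (nat_lit 46571347) (nat_lit 14401830) [(nat_lit 489191), (nat_lit 1600243), (nat_lit 0), (nat_lit 0)]) (PF.cons PF.nil (PF.cons PF.nil PF.nil))))))))) (PF.cons (PF.cons (PF.leaf (nat_lit 4570485) (nat_lit 1528676) (nat_lit 47980482) (nat_lit 14542301) [(nat_lit 0), (nat_lit 1528676), (nat_lit 0), (nat_lit 0)]) (PF.cons (PF.leaf (nat_lit 4858930) (nat_lit 457168) (nat_lit 47501185) (nat_lit 14495399) [(nat_lit 457168), (nat_lit 1551686), (nat_lit 0), (nat_lit 0)]) (PF.cons (PF.leaf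 (nat_lit 5161040) (nat_lit 470225) (nat_lit 47004677) (nat_lit 14444036) [(nat_lit 470225), (nat_lit 1573216), (nat_lit 0), (nat_lit 0)]) (PF.cons (PF.leaf (nat_lit 5474325) (nat_lit 482114) (nat_lit 46494506) (nat_lit 14388373) [(nat_lit 482114), (nat_lit 1593196), (nat_lit 0), (nat_lit 0)]) (PF.cons (PF.leaf (nat_lit 5797140) (nat_lit 492960) (nat_lit 45973563) (nat_lit 14328577) [(nat_lit 492960), (nat_lit 1611610),
 (nat_lit 0), (nat_lit 0)]) (PF.cons PF.nil (PF.cons PF.nil PF.nil))))))) (PF.cons (PF.cons (PF.leaf (nat_lit 5314158) (nat_lit 1586671) (nat_lit 46390280) (nat_lit 14371845) [(nat_lit 0), (nat_lit 1586671), (nat_lit 0), (nat_lit 0)]) (PF.cons (PF.leaf (nat_lit 5621372) (nat_lit 485645) (nat_lit 45889796) (nat_lit 14313924) [(nat_lit 485645), (nat_lit 1604861), (nat_lit 0), (nat_lit 0)]) (PF.cons (PF.leaf (nat_lit 5938896) (nat_lit 496129) (nat_lit 45378050) (nat_lit 14251920) [(nat_lit 496129), (nat_lit 1621645), (nat_lit 0), (nat_lit 0)]) (PF.cons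 (PF.leaf (nat_lit 6264772) (nat_lit 505665) (nat_lit 44857716) (nat_lit 14186044) [(nat_lit 505665), (nat_lit 1637013), (nat_lit 0), (nat_lit 0)]) (PF.cons PF.nil PF.nil))))) (PF.cons (PF.cons (PF.leaf (nat_lit 6080239) (nat_lit 1630447) (nat_lit 44784607) (nat_lit 14171967) [(nat_lit 0), (nat_lit 1630447), (nat_lit 0), (nat_lit 0)]) (PF.cons (PF.leaf (nat_lit 6400251) (nat_lit 507943) (nat_lit 44274462) (nat_lit 14104334) [(nat_lit 507943), (nat_lit 1644414), (nat_lit 0), (nat_lit 0)]) (PF.cons PF.nil (PF.cons PF.nil PF.nil)))) (PF.cons (PF.cons (PF.leaf (nat_lit 6857308) (nat_lit 1662222) (nat_lit 43188244) (nat_lit 13947236)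
 [(nat_lit 0), (nat_lit 1662222), (nat_lit 0), (nat_lit 0)]) (PF.cons PF.nil PF.nil)) (PF.cons PF.nil (PF.cons PF.nil PF.nil))))))))) (PF.cons (PF.cons (PF.cons (PF.leaf (nat_lit 3765719) (nat_lit 3449092) (nat_lit 49041997) (nat_lit 14617723) [(nat_lit 0), (nat_lit 0), (nat_lit 3449092), (nat_lit 0)]) (PF.cons (PF.leaf (nat_lit 4000680) (nat_lit 399033) (nat_lit 48648010) (nat_lit 14584797) [(nat_lit 399033), (nat_lit 0), (nat_lit 3476971), (nat_lit 0)]) (PF.cons (PF.leaf (nat_lit 4257893) (nat_lit 418073) (nat_lit 48221247) (nat_lit 14546997) [(nat_lit 418073), (nat_lit 0), (nat_lit 3504421), (nat_lit 0)]) (PF.cons (PF.leaf (nat_lit 4532859) (nat_lit 434975) (nat_lit 47768614) (nat_lit 14504535) [(nat_lit 434975), (nat_lit 0), (nat_lit 3530737), (nat_lit 0)]) (PF.cons (PF.leaf (nat_lit 4822753) (nat_lit 450139) (nat_lit 47295210) (nat_lit 14457566) [(nat_lit 450139), (nat_lit 0), (nat_lit 3555478), (nat_lit 0)]) (PF.cons (PF.leaf (nat_lit 5125388) (nat_lit 463835)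 (nat_lit 46805033) (nat_lit 14406235) [(nat_lit 463835), (nat_lit 0), (nat_lit 3578364), (nat_lit 0)]) (PF.cons (PF.leaf (nat_lit 5438884) (nat_lit 476259) (nat_lit 46301344) (nat_lit 14350685) [(nat_lit 476259),
 (nat_lit 0), (nat_lit 3599227), (nat_lit 0)]) (PF.cons (PF.leaf (nat_lit 5761681) (nat_lit 487555) (nat_lit 45786879) (nat_lit 14291070) [(nat_lit 487555), (nat_lit 0), (nat_lit 3617970), (nat_lit 0)]) (PF.cons PF.nil (PF.cons PF.nil PF.nil)))))))))) (PF.cons (PF.cons (PF.leaf (nat_lit 4426841) (nat_lit 1506011) (nat_lit 47590810) (nat_lit 14482377) [(nat_lit 0), (nat_lit 1506011), (nat_lit 3529614), (nat_lit 0)]) (PF.cons (PF.leaf (nat_lit 4694059) (nat_lit 439940) (nat_lit 47149023) (nat_lit 14437732) [(nat_lit 439940), (nat_lit 1529694), (nat_lit 3552422), (nat_lit 0)]) (PF.cons (PF.leaf (nat_lit 4977831) (nat_lit 454746) (nat_lit 46684923) (nat_lit 14388451) [(nat_lit 454746), (nat_lit 1551993), (nat_lit 3573950), (nat_lit 0)]) (PF.cons (PF.leaf (nat_lit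 5274984) (nat_lit 468045) (nat_lit 46203256) (nat_lit 14334776) [(nat_lit 468045), (nat_lit 1572774), (nat_lit 3593870), (nat_lit 0)]) (PF.cons (PF.leaf (nat_lit 5583412) (nat_lit 480057) (nat_lit 45707703) (nat_lit 14276912) [(nat_lit 480057), (nat_lit 1591987), (nat_lit 3611979), (nat_lit 0)]) (PF.cons (PF.leaf (nat_lit 5901388) (nat_lit 490944) (nat_lit 45201239) (nat_lit 14215057) [(nat_lit 490944), (nat_lit 1609631),
 (nat_lit 3628163), (nat_lit 0)]) (PF.cons PF.nil (PF.cons PF.nil (PF.cons PF.nil PF.nil))))))))) (PF.cons (PF.cons (PF.leaf (nat_lit 5134457) (nat_lit 1566237) (nat_lit 46071635) (nat_lit 14314982) [(nat_lit 0), (nat_lit 1566237), (nat_lit 3589719), (nat_lit 0)]) (PF.cons (PF.leaf (nat_lit 5424659) (nat_lit 471482) (nat_lit 45600838) (nat_lit 14259435) [(nat_lit 471482), (nat_lit 1585100), (nat_lit 3606855), (nat_lit 0)]) (PF.cons (PF.leaf (nat_lit 5727268) (nat_lit 483189) (nat_lit 45115185) (nat_lit 14199666) [(nat_lit 483189), (nat_lit 1602595),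 (nat_lit 3622392), (nat_lit 0)]) (PF.cons (PF.leaf (nat_lit 6039916) (nat_lit 493747) (nat_lit 44618083) (nat_lit 14135932) [(nat_lit 493747), (nat_lit 1618681), (nat_lit 3636189), (nat_lit 0)]) (PF.cons (PF.leaf (nat_lit 6360947) (nat_lit 503296) (nat_lit 44112264) (nat_lit 14068473) [(nat_lit 503296), (nat_lit 1633360), (nat_lit 3648168), (nat_lit 0)]) (PF.cons PF.nil (PF.cons PF.nil PF.nil))))))) (PF.cons (PF.cons (PF.leaf (nat_lit 5871625) (nat_lit 1611946) (nat_lit 44523352) (nat_lit 14118998) [(nat_lit 0), (nat_lit 1611946), (nat_lit 3630621), (nat_lit 0)]) (PF.cons (PF.leaf (nat_lit 6177831) (nat_lit 495967) (nat_lit 44037165)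
 (nat_lit 14053786) [(nat_lit 495967), (nat_lit 1626568), (nat_lit 3642189), (nat_lit 0)]) (PF.cons (PF.leaf (nat_lit 6493294) (nat_lit 505252) (nat_lit 43541605) (nat_lit 13984865) [(nat_lit 505252), (nat_lit 1639912), (nat_lit 3652100), (nat_lit 0)]) (PF.cons (PF.leaf (nat_lit 6816126) (nat_lit 513621) (nat_lit 43039184) (nat_lit 13912503) [(nat_lit 513621), (nat_lit 1651983), (nat_lit 3660310), (nat_lit 0)]) (PF.cons PF.nil PF.nil))))) (PF.cons (PF.cons (PF.leaf (nat_lit 6625452) (nat_lit 1645461) (nat_lit 42974033) (nat_lit 13898658) [(nat_lit 0), (nat_lit 1645461), (nat_lit 3654273), (nat_lit 0)]) (PF.cons (PF.leaf (nat_lit 6942233) (nat_lit 514847) (nat_lit 42482505) (nat_lit 13825228) [(nat_lit 514847), (nat_lit 1656383), (nat_lit 3660696), (nat_lit 0)]) (PF.cons PF.nil (PF.cons PF.nil PF.nil)))) (PF.cons (PF.cons (PF.leaf (nat_lit 7385978) (nat_lit 1668691) (nat_lit 41444048) (nat_lit 13658456) [(nat_lit 0), (nat_lit 1668691), (nat_lit 3662851), (nat_lit 0)])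 (PF.cons PF.nil PF.nil)) (PF.cons PF.nil (PF.cons PF.nil PF.nil)))))))) (PF.cons (PF.cons (PF.cons (PF.leaf (nat_lit 4975968) (nat_lit 3568946) (nat_lit 45717517) (nat_lit 14253401) [(nat_lit 0), (nat_lit 0), (nat_lit
 3568946), (nat_lit 0)]) (PF.cons (PF.leaf (nat_lit 5246030) (nat_lit 454597) (nat_lit 45282284) (nat_lit 14200943) [(nat_lit 454597), (nat_lit 0), (nat_lit 3585494), (nat_lit 0)]) (PF.cons (PF.leaf (nat_lit 5531459) (nat_lit 468094) (nat_lit 44827126) (nat_lit 14143943) [(nat_lit 468094), (nat_lit 0), (nat_lit 3600776), (nat_lit 0)]) (PF.cons (PF.leaf (nat_lit 5829086) (nat_lit 480085) (nat_lit 44356677) (nat_lit 14082768) [(nat_lit 480085), (nat_lit 0), (nat_lit 3614556), (nat_lit 0)]) (PF.cons (PF.leaf (nat_lit 6136849) (nat_lit 490812) (nat_lit 43874466) (nat_lit 14017714) [(nat_lit 490812), (nat_lit 0), (nat_lit 3626691), (nat_lit 0)]) (PF.cons (PF.leaf (nat_lit 6453102) (nat_lit 500448) (nat_lit 43383303) (nat_lit 13949048) [(nat_lit 500448), (nat_lit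 0), (nat_lit 3637109), (nat_lit 0)]) (PF.cons PF.nil PF.nil))))))) (PF.cons (PF.cons (PF.leaf (nat_lit 5680070) (nat_lit 1592074) (nat_lit 44235636) (nat_lit 14062253) [(nat_lit 0), (nat_lit 1592074), (nat_lit 3609424), (nat_lit 0)]) (PF.cons (PF.leaf (nat_lit 5970336) (nat_lit 482177) (nat_lit 43777284) (nat_lit 13999957) [(nat_lit 482177), (nat_lit 1607470), (nat_lit 3620961), (nat_lit 0)]) (PF.cons (PF.leaf (nat_lit 6271963)
 (nat_lit 492704) (nat_lit 43306043) (nat_lit 13933715) [(nat_lit 492704), (nat_lit 1621596), (nat_lit 3631023), (nat_lit 0)]) (PF.cons (PF.leaf (nat_lit 6582592) (nat_lit 502107) (nat_lit 42825162) (nat_lit 13863857) [(nat_lit 502107), (nat_lit 1634436), (nat_lit 3639516), (nat_lit 0)]) (PF.cons (PF.leaf (nat_lit 6900664) (nat_lit 510534) (nat_lit 42337207) (nat_lit 13790671) [(nat_lit 510534), (nat_lit 1646002), (nat_lit 3646396), (nat_lit 0)]) PF.nil))))) (PF.cons (PF.cons (PF.leaf (nat_lit 6407726) (nat_lit 1627639) (nat_lit 42739414) (nat_lit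 13846959) [(nat_lit 0), (nat_lit 1627639), (nat_lit 3633579), (nat_lit 0)]) (PF.cons (PF.leaf (nat_lit 6711704) (nat_lit 503256) (nat_lit 42270151) (nat_lit 13776286) [(nat_lit 503256), (nat_lit 1639276), (nat_lit 3640283), (nat_lit 0)]) (PF.cons (PF.leaf (nat_lit 7024039) (nat_lit 511499) (nat_lit 41793045) (nat_lit 13702270) [(nat_lit 511499), (nat_lit 1649747), (nat_lit 3645501), (nat_lit 0)]) (PF.cons PF.nil PF.nil)))) (PF.cons (PF.cons (PF.leaf (nat_lit 7147442) (nat_lit 1652671) (nat_lit 41252591) (nat_lit 13611849) [(nat_lit 0), (nat_lit 1652671), (nat_lit 3643179), (nat_lit 0)]) (PF.cons (PF.leaf (nat_lit 7460179) (nat_lit 519229)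
 (nat_lit 40781205) (nat_lit 13534296) [(nat_lit 519229), (nat_lit 1661050), (nat_lit 3645464), (nat_lit 0)]) PF.nil)) (PF.cons PF.nil (PF.cons PF.nil PF.nil)))))) (PF.cons (PF.cons (PF.cons (PF.leaf (nat_lit 6206507) (nat_lit 3612466) (nat_lit 42480032) (nat_lit 13791381) [(nat_lit 0), (nat_lit 0), (nat_lit 3612466), (nat_lit 0)]) (PF.cons (PF.leaf (nat_lit 6495531) (nat_lit 489897) (nat_lit 42036725) (nat_lit 13723990) [(nat_lit 489897), (nat_lit 0), (nat_lit 3619399), (nat_lit 0)]) (PF.cons (PF.leaf (nat_lit 6794997) (nat_lit 499387) (nat_lit 41582179) (nat_lit 13652943) [(nat_lit 499387), (nat_lit 0), (nat_lit 3624971), (nat_lit 0)]) (PF.cons (PF.leaf (nat_lit 7102605) (nat_lit 507780) (nat_lit 41119471) (nat_lit 13578620) [(nat_lit 507780), (nat_lit 0), (nat_lit 3629126), (nat_lit 0)]) (PF.cons PF.nil PF.nil))))) (PF.cons (PF.cons (PF.leaf (nat_lit 6922487) (nat_lit 1635608) (nat_lit 41042081) (nat_lit 13562070) [(nat_lit 0), (nat_lit 1635608), (nat_lit 3623017),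 (nat_lit 0)]) (PF.cons (PF.leaf (nat_lit 7223331) (nat_lit 508053) (nat_lit 40591313) (nat_lit 13487484) [(nat_lit 508053), (nat_lit 1644738), (nat_lit 3625741), (nat_lit 0)]) (PF.cons (PF.leaf (nat_lit 7531746)
 (nat_lit 515389) (nat_lit 40133939) (nat_lit 13409897) [(nat_lit 515389), (nat_lit 1652801), (nat_lit 3627131), (nat_lit 0)]) (PF.cons PF.nil PF.nil)))) (PF.cons (PF.cons (PF.leaf (nat_lit 7646884) (nat_lit 1653604) (nat_lit 39620924) (nat_lit 13316909) [(nat_lit 0), (nat_lit 1653604), (nat_lit 3621256), (nat_lit 0)]) (PF.cons PF.nil PF.nil)) (PF.cons PF.nil (PF.cons PF.nil PF.nil))))) (PF.cons (PF.cons (PF.cons (PF.leaf (nat_lit 7416326) (nat_lit 3601810) (nat_lit 39432114) (nat_lit 13269458) [(nat_lit 0), (nat_lit 0), (nat_lit 3601810), (nat_lit 0)]) (PF.cons (PF.leaf (nat_lit 7713341) (nat_lit 510801) (nat_lit 39000638) (nat_lit 13192242) [(nat_lit 510801), (nat_lit 0), (nat_lit 3601282), (nat_lit 0)]) (PF.cons PF.nil (PF.cons PF.nil PF.nil)))) (PF.cons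 (PF.cons (PF.leaf (nat_lit 8124670) (nat_lit 1649496) (nat_lit 38077671) (nat_lit 13018095) [(nat_lit 0), (nat_lit 1649496), (nat_lit 3590887), (nat_lit 0)]) (PF.cons PF.nil PF.nil)) (PF.cons PF.nil PF.nil))) (PF.cons (PF.cons (PF.cons (PF.leaf (nat_lit 8581836) (nat_lit 3553988) (nat_lit 36620137) (nat_lit 12718734) [(nat_lit 0), (nat_lit 0), (nat_lit 3553988), (nat_lit 0)]) (PF.cons PF.nil PF.nil)) (PF.cons PF.nil PF.nil))
 (PF.cons PF.nil (PF.cons PF.nil PF.nil)))))))) (PF.cons (PF.cons (PF.cons (PF.cons (PF.leaf (nat_lit 4664673) (nat_lit 8871546) (nat_lit 44286981) (nat_lit 13950284) [(nat_lit 0), (nat_lit 0), (nat_lit 0), (nat_lit 8871546)]) (PF.cons (PF.leaf (nat_lit 4896517) (nat_lit 408578) (nat_lit 43932493) (nat_lit 13905868) [(nat_lit 408578), (nat_lit 0), (nat_lit 0), (nat_lit 8861873)]) (PF.cons (PF.leaf (nat_lit 5148920) (nat_lit 426206) (nat_lit 43550168) (nat_lit 13856421) [(nat_lit 426206), (nat_lit 0), (nat_lit 0), (nat_lit 8849808)]) (PF.cons (PF.leaf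 (nat_lit 5417330) (nat_lit 441558) (nat_lit 43146352) (nat_lit 13802491) [(nat_lit 441558), (nat_lit 0), (nat_lit 0), (nat_lit 8835292)]) (PF.cons (PF.leaf (nat_lit 5698992) (nat_lit 455093) (nat_lit 42725668) (nat_lit 13744478) [(nat_lit 455093), (nat_lit 0), (nat_lit 0), (nat_lit 8818293)]) (PF.cons (PF.leaf (nat_lit 5991679) (nat_lit 467121) (nat_lit 42291687) (nat_lit 13682706) [(nat_lit 467121), (nat_lit 0), (nat_lit 0), (nat_lit 8798809)]) (PF.cons (PF.leaf (nat_lit 6293651) (nat_lit 477870) (nat_lit 41847273) (nat_lit 13617452) [(nat_lit 477870), (nat_lit 0), (nat_lit 0), (nat_lit 8776864)]) (PF.cons (PF.leaf (nat_lit 6603421)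
 (nat_lit 487507) (nat_lit 41394785) (nat_lit 13548967) [(nat_lit 487507), (nat_lit 0), (nat_lit 0), (nat_lit 8752504)]) (PF.cons PF.nil (PF.cons PF.nil PF.nil)))))))))) (PF.cons (PF.cons (PF.leaf (nat_lit 5302586) (nat_lit 1514027) (nat_lit 42993657) (nat_lit 13777439) [(nat_lit 0), (nat_lit 1514027), (nat_lit 0), (nat_lit 8823688)]) (PF.cons (PF.leaf (nat_lit 5562640) (nat_lit 444480) (nat_lit 42601306) (nat_lit 13722796) [(nat_lit 444480), (nat_lit 1532870), (nat_lit 0), (nat_lit 8807359)]) (PF.cons (PF.leaf (nat_lit 5837601) (nat_lit 457771) (nat_lit 42190546) (nat_lit 13663887) [(nat_lit 457771), (nat_lit 1550289), (nat_lit 0), (nat_lit 8788547)]) (PF.cons (PF.leaf (nat_lit 6124407) (nat_lit 469514) (nat_lit 41765614) (nat_lit 13601140) [(nat_lit 469514), (nat_lit 1566230), (nat_lit 0), (nat_lit 8767284)]) (PF.cons (PF.leaf (nat_lit 6420992) (nat_lit 479961) (nat_lit 41329747) (nat_lit 13534898) [(nat_lit 479961), (nat_lit 1580701), (nat_lit 0), (nat_lit 8743620)])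 (PF.cons (PF.leaf (nat_lit 6725738) (nat_lit 489296) (nat_lit 40885522) (nat_lit 13465452) [(nat_lit 489296), (nat_lit 1593741), (nat_lit 0), (nat_lit 8717615)]) (PF.cons (PF.leaf (nat_lit 7037287) (nat_lit 497657)
 (nat_lit 40435051) (nat_lit 13393061) [(nat_lit 497657), (nat_lit 1605407), (nat_lit 0), (nat_lit 8689344)]) (PF.cons PF.nil (PF.cons PF.nil PF.nil))))))))) (PF.cons (PF.cons (PF.leaf (nat_lit 5977916) (nat_lit 1558935) (nat_lit 41654406) (nat_lit 13580378) [(nat_lit 0), (nat_lit 1558935), (nat_lit 0), (nat_lit 8756156)]) (PF.cons (PF.leaf (nat_lit 6257457) (nat_lit 471255) (nat_lit 41240372) (nat_lit 13517082) [(nat_lit 471255), (nat_lit 1573361), (nat_lit 0), (nat_lit 8733378)]) (PF.cons (PF.leaf (nat_lit 6548008) (nat_lit 481502) (nat_lit 40814397) (nat_lit 13450200) [(nat_lit 481502), (nat_lit 1586491), (nat_lit 0), (nat_lit 8708226)]) (PF.cons (PF.leaf (nat_lit 6847264) (nat_lit 490610) (nat_lit 40379444) (nat_lit 13380087) [(nat_lit 490610), (nat_lit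 1598331), (nat_lit 0), (nat_lit 8680784)]) (PF.cons (PF.leaf (nat_lit 7153709) (nat_lit 498735) (nat_lit 39937855) (nat_lit 13307045) [(nat_lit 498735), (nat_lit 1608912), (nat_lit 0), (nat_lit 8651144)]) (PF.cons PF.nil (PF.cons PF.nil PF.nil))))))) (PF.cons (PF.cons (PF.leaf (nat_lit 6675823) (nat_lit 1591349) (nat_lit 40300685) (nat_lit 13363345) [(nat_lit 0), (nat_lit 1591349), (nat_lit 0), (nat_lit 8670735)]) (PF.cons
 (PF.leaf (nat_lit 6968583) (nat_lit 491445) (nat_lit 39876193) (nat_lit 13292898) [(nat_lit 491445), (nat_lit 1602065), (nat_lit 0), (nat_lit 8642079)]) (PF.cons (PF.leaf (nat_lit 7269468) (nat_lit 499399) (nat_lit 39444365) (nat_lit 13219483) [(nat_lit 499399), (nat_lit 1611633), (nat_lit 0), (nat_lit 8611264)]) (PF.cons (PF.leaf (nat_lit 7576681) (nat_lit 506474) (nat_lit 39007338) (nat_lit 13143406) [(nat_lit 506474), (nat_lit 1620080), (nat_lit 0), (nat_lit 8578403)]) (PF.cons PF.nil PF.nil))))) (PF.cons (PF.cons (PF.leaf (nat_lit 7385457) (nat_lit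 1613622) (nat_lit 38954178) (nat_lit 13130383) [(nat_lit 0), (nat_lit 1613622), (nat_lit 0), (nat_lit 8569759)]) (PF.cons (PF.leaf (nat_lit 7686731) (nat_lit 506587) (nat_lit 38527220) (nat_lit 13054199) [(nat_lit 506587), (nat_lit 1621209), (nat_lit 0), (nat_lit 8535966)]) (PF.cons PF.nil (PF.cons PF.nil PF.nil)))) (PF.cons (PF.cons (PF.leaf (nat_lit 8098678) (nat_lit 1627559) (nat_lit 37630027) (nat_lit 12885255) [(nat_lit 0), (nat_lit 1627559), (nat_lit 0), (nat_lit 8455734)]) (PF.cons PF.nil PF.nil)) PF.nil)))))) (PF.cons (PF.cons (PF.cons (PF.leaf (nat_lit 5807664) (nat_lit 3509441) (nat_lit 41360995) (nat_lit 13519108)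
 [(nat_lit 0), (nat_lit 0), (nat_lit 3509441), (nat_lit 8719266)]) (PF.cons (PF.leaf (nat_lit 6068714) (nat_lit 454449) (nat_lit 40977893) (nat_lit 13459893) [(nat_lit 454449), (nat_lit 0), (nat_lit 3518718), (nat_lit 8697857)]) (PF.cons (PF.leaf (nat_lit 6343684) (nat_lit 466584) (nat_lit 40578271) (nat_lit 13396584) [(nat_lit 466584), (nat_lit 0), (nat_lit 3526782), (nat_lit 8674005)]) (PF.cons (PF.leaf (nat_lit 6629535) (nat_lit 477202) (nat_lit 40166203) (nat_lit 13329677) [(nat_lit 477202), (nat_lit 0), (nat_lit 3533501), (nat_lit 8647824)]) (PF.cons (PF.leaf (nat_lit 6924253) (nat_lit 486565) (nat_lit 39744763) (nat_lit 13259562) [(nat_lit 486565), (nat_lit 0), (nat_lit 3538808), (nat_lit 8619417)]) (PF.cons (PF.leaf (nat_lit 7226284) (nat_lit 494863) (nat_lit 39316363) (nat_lit 13186560) [(nat_lit 494863), (nat_lit 0), (nat_lit 3542682), (nat_lit 8588886)]) (PF.cons PF.nil PF.nil))))))) (PF.cons (PF.cons (PF.leaf (nat_lit 6476631) (nat_lit 1571675) (nat_lit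 40064404) (nat_lit 13309103) [(nat_lit 0), (nat_lit 1571675), (nat_lit 3527394), (nat_lit 8636235)]) (PF.cons (PF.leaf (nat_lit 6755017) (nat_lit 477931) (nat_lit 39663807) (nat_lit 13242155) [(nat_lit 477931), (nat_lit
 1583388), (nat_lit 3532526), (nat_lit 8609003)]) (PF.cons (PF.leaf (nat_lit 7043548) (nat_lit 487183) (nat_lit 39252735) (nat_lit 13171877) [(nat_lit 487183), (nat_lit 1593912), (nat_lit 3536373), (nat_lit 8579546)]) (PF.cons (PF.leaf (nat_lit 7339986) (nat_lit 495333) (nat_lit 38833991) (nat_lit 13098661) [(nat_lit 495333), (nat_lit 1603263), (nat_lit 3538900), (nat_lit 8547994)]) (PF.cons (PF.leaf (nat_lit 7642871) (nat_lit 502543) (nat_lit 38409762) (nat_lit 13022830) [(nat_lit 502543), (nat_lit 1611481), (nat_lit 3540100), (nat_lit 8514465)]) PF.nil))))) (PF.cons (PF.cons (PF.leaf (nat_lit 7163822) (nat_lit 1596400) (nat_lit 38762894) (nat_lit 13082470) [(nat_lit 0), (nat_lit 1596400), (nat_lit 3532684), (nat_lit 8537961)]) (PF.cons (PF.leaf (nat_lit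 7453690) (nat_lit 495381) (nat_lit 38354847) (nat_lit 13009348) [(nat_lit 495381), (nat_lit 1604835), (nat_lit 3533971), (nat_lit 8505593)]) (PF.cons (PF.leaf (nat_lit 7750969) (nat_lit 502484) (nat_lit 37940550) (nat_lit 12933548) [(nat_lit 502484), (nat_lit 1612225), (nat_lit 3534025), (nat_lit 8471266)]) (PF.cons PF.nil PF.nil)))) (PF.cons (PF.cons (PF.leaf (nat_lit 7859494) (nat_lit 1612369) (nat_lit 37474882) (nat_lit
 12843094) [(nat_lit 0), (nat_lit 1612369), (nat_lit 3526959), (nat_lit 8426767)]) (PF.cons (PF.leaf (nat_lit 8156526) (nat_lit 508240) (nat_lit 37066404) (nat_lit 12765184) [(nat_lit 508240), (nat_lit 1618046), (nat_lit 3524820), (nat_lit 8390022)]) PF.nil)) (PF.cons PF.nil PF.nil))))) (PF.cons (PF.cons (PF.cons (PF.leaf (nat_lit 6957833) (nat_lit 3511901) (nat_lit 38550053) (nat_lit 13030614) [(nat_lit 0), (nat_lit 0), (nat_lit 3511901), (nat_lit 8504342)]) (PF.cons (PF.leaf (nat_lit 7234177) (nat_lit 482418) (nat_lit 38164157) (nat_lit 12961105)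 [(nat_lit 482418), (nat_lit 0), (nat_lit 3513757), (nat_lit 8473615)]) (PF.cons (PF.leaf (nat_lit 7519948) (nat_lit 490798) (nat_lit 37769018) (nat_lit 12888517) [(nat_lit 490798), (nat_lit 0), (nat_lit 3514433), (nat_lit 8440813)]) (PF.cons (PF.leaf (nat_lit 7812937) (nat_lit 498112) (nat_lit 37367280) (nat_lit 12813263) [(nat_lit 498112), (nat_lit 0), (nat_lit 3513915), (nat_lit 8406099)]) (PF.cons PF.nil PF.nil))))) (PF.cons (PF.cons (PF.leaf (nat_lit 7633064) (nat_lit 1596088) (nat_lit 37303198) (nat_lit 12797765) [(nat_lit 0), (nat_lit 1596088), (nat_lit 3507754), (nat_lit 8396251)]) (PF.cons (PF.leaf (nat_lit 7919457) (nat_lit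
 497518) (nat_lit 36912169) (nat_lit 12722953) [(nat_lit 497518), (nat_lit 1602605), (nat_lit 3506257), (nat_lit 8361050)]) (PF.cons (PF.leaf (nat_lit 8212656) (nat_lit 503879) (nat_lit 36515781) (nat_lit 12645726) [(nat_lit 503879), (nat_lit 1608168), (nat_lit 3503650), (nat_lit 8324077)]) (PF.cons PF.nil PF.nil)))) (PF.cons (PF.cons (PF.leaf (nat_lit 8314186) (nat_lit 1606824) (nat_lit 36074206) (nat_lit 12554897) [(nat_lit 0), (nat_lit 1606824), (nat_lit 3494275), (nat_lit 8277507)]) (PF.cons PF.nil PF.nil)) PF.nil))) (PF.cons (PF.cons (PF.cons (PF.leaf (nat_lit 8084158) (nat_lit 3476030) (nat_lit 35920044) (nat_lit 12512241) [(nat_lit 0), (nat_lit 0), (nat_lit 3476030), (nat_lit 8248436)]) (PF.cons (PF.leaf (nat_lit 8366636) (nat_lit 498175) (nat_lit 35546171) (nat_lit 12436544) [(nat_lit 498175), (nat_lit 0), (nat_lit 3472261), (nat_lit 8211135)]) (PF.cons PF.nil PF.nil))) (PF.cons (PF.cons (PF.leaf (nat_lit 8750412) (nat_lit 1597843) (nat_lit 34749449) (nat_lit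 12268232) [(nat_lit 0), (nat_lit 1597843), (nat_lit 3456319), (nat_lit 8124327)]) PF.nil) PF.nil)) (PF.cons PF.nil (PF.cons PF.nil PF.nil)))))) (PF.cons (PF.cons (PF.cons (PF.cons (PF.leaf (nat_lit 6545864) (nat_lit
 8340012) (nat_lit 37642150) (nat_lit 12786636) [(nat_lit 0), (nat_lit 0), (nat_lit 0), (nat_lit 8340012)]) (PF.cons (PF.leaf (nat_lit 6797342) (nat_lit 449092) (nat_lit 37306245) (nat_lit 12725726) [(nat_lit 449092), (nat_lit 0), (nat_lit 0), (nat_lit 8313874)]) (PF.cons (PF.leaf (nat_lit 7061637) (nat_lit 460121) (nat_lit 36956419) (nat_lit 12661142) [(nat_lit 460121), (nat_lit 0), (nat_lit 0), (nat_lit 8285504)]) (PF.cons (PF.leaf (nat_lit 7335725) (nat_lit 469649) (nat_lit 36596231) (nat_lit 12593436) [(nat_lit 469649), (nat_lit 0), (nat_lit 0), (nat_lit 8255097)]) (PF.cons (PF.leaf (nat_lit 7617744) (nat_lit 477954) (nat_lit 36228340) (nat_lit 12523027) [(nat_lit 477954), (nat_lit 0), (nat_lit 0), (nat_lit 8222813)]) (PF.cons (PF.leaf (nat_lit 7906213)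 (nat_lit 485230) (nat_lit 35854821) (nat_lit 12450257) [(nat_lit 485230), (nat_lit 0), (nat_lit 0), (nat_lit 8188790)]) (PF.cons PF.nil PF.nil))))))) (PF.cons (PF.cons (PF.leaf (nat_lit 7181541) (nat_lit 1537550) (nat_lit 36510528) (nat_lit 12573861) [(nat_lit 0), (nat_lit 1537550), (nat_lit 0), (nat_lit 8243436)]) (PF.cons (PF.leaf (nat_lit 7448257) (nat_lit 469465) (nat_lit 36160769) (nat_lit 12506722) [(nat_lit 469465),
 (nat_lit 1546655), (nat_lit 0), (nat_lit 8212600)]) (PF.cons (PF.leaf (nat_lit 7724202) (nat_lit 477725) (nat_lit 35802274) (nat_lit 12436731) [(nat_lit 477725), (nat_lit 1554652), (nat_lit 0), (nat_lit 8179852)]) (PF.cons (PF.leaf (nat_lit 8007224) (nat_lit 484917) (nat_lit 35437458) (nat_lit 12364295) [(nat_lit 484917), (nat_lit 1561582), (nat_lit 0), (nat_lit 8145361)]) (PF.cons PF.nil PF.nil))))) (PF.cons (PF.cons (PF.leaf (nat_lit 7831907) (nat_lit 1554856) (nat_lit 35378307) (nat_lit 12349332) [(nat_lit 0), (nat_lit 1554856), (nat_lit 0),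 (nat_lit 8135730)]) (PF.cons (PF.leaf (nat_lit 8108537) (nat_lit 484246) (nat_lit 35023039) (nat_lit 12277490) [(nat_lit 484246), (nat_lit 1561075), (nat_lit 0), (nat_lit 8100942)]) (PF.cons (PF.leaf (nat_lit 8391857) (nat_lit 490488) (nat_lit 34662600) (nat_lit 12203440) [(nat_lit 490488), (nat_lit 1566352), (nat_lit 0), (nat_lit 8064544)]) (PF.cons PF.nil PF.nil)))) (PF.cons (PF.cons (PF.leaf (nat_lit 8488519) (nat_lit 1564761) (nat_lit 34260124) (nat_lit 12116457) [(nat_lit 0), (nat_lit 1564761), (nat_lit 0), (nat_lit 8018972)]) (PF.cons PF.nil PF.nil)) (PF.cons PF.nil PF.nil))))) (PF.cons (PF.cons (PF.cons (PF.leaf (nat_lit 7624720)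
 (nat_lit 3394985) (nat_lit 35202726) (nat_lit 12302306) [(nat_lit 0), (nat_lit 0), (nat_lit 3394985), (nat_lit 8104397)]) (PF.cons (PF.leaf (nat_lit 7889025) (nat_lit 471825) (nat_lit 34866342) (nat_lit 12234081) [(nat_lit 471825), (nat_lit 0), (nat_lit 3393664), (nat_lit 8071449)]) (PF.cons (PF.leaf (nat_lit 8161966) (nat_lit 479339) (nat_lit 34522169) (nat_lit 12163216) [(nat_lit 479339), (nat_lit 0), (nat_lit 3391307), (nat_lit 8036720)]) (PF.cons (PF.leaf (nat_lit 8441418) (nat_lit 485827) (nat_lit 34172483) (nat_lit 12090127) [(nat_lit 485827), (nat_lit 0), (nat_lit 3387928), (nat_lit 8000395)]) (PF.cons PF.nil PF.nil))))) (PF.cons (PF.cons (PF.leaf (nat_lit 8263463) (nat_lit 1549478) (nat_lit 34119153) (nat_lit 12075983) [(nat_lit 0), (nat_lit 1549478), (nat_lit 3381956), (nat_lit 7991120)]) (PF.cons (PF.leaf (nat_lit 8536557) (nat_lit 484676) (nat_lit 33778891) (nat_lit 12003706) [(nat_lit 484676), (nat_lit 1554196), (nat_lit 3377900), (nat_lit 7954720)]) (PF.cons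 PF.nil (PF.cons PF.nil PF.nil)))) (PF.cons (PF.cons (PF.leaf (nat_lit 8906543) (nat_lit 1555398) (nat_lit 33052307) (nat_lit 11843221) [(nat_lit 0), (nat_lit 1555398), (nat_lit 3361670), (nat_lit 7870408)])
 (PF.cons PF.nil PF.nil)) PF.nil))) (PF.cons (PF.cons (PF.cons (PF.leaf (nat_lit 8679246) (nat_lit 3344851) (nat_lit 32925461) (nat_lit 11805395) [(nat_lit 0), (nat_lit 0), (nat_lit 3344851), (nat_lit 7844126)]) (PF.cons (PF.leaf (nat_lit 8948509) (nat_lit 484012) (nat_lit 32600056) (nat_lit 11733195) [(nat_lit 484012), (nat_lit 0), (nat_lit 3339173), (nat_lit 7806600)]) PF.nil)) (PF.cons PF.nil PF.nil)) (PF.cons PF.nil (PF.cons PF.nil PF.nil))))) (PF.cons (PF.cons (PF.cons (PF.cons (PF.leaf (nat_lit 8224453) (nat_lit 7716800) (nat_lit 32336356) (nat_lit 11622054) [(nat_lit 0), (nat_lit 0), (nat_lit 0), (nat_lit 7716800)]) (PF.cons (PF.leaf (nat_lit 8477523) (nat_lit 459644) (nat_lit 32041976) (nat_lit 11556791) [(nat_lit 459644), (nat_lit 0), (nat_lit 0), (nat_lit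 7683467)]) (PF.cons (PF.leaf (nat_lit 8738591) (nat_lit 466467) (nat_lit 31740909) (nat_lit 11489230) [(nat_lit 466467), (nat_lit 0), (nat_lit 0), (nat_lit 7648579)]) (PF.cons PF.nil PF.nil)))) (PF.cons (PF.cons (PF.leaf (nat_lit 8830600) (nat_lit 1500009) (nat_lit 31390453) (nat_lit 11407028) [(nat_lit 0), (nat_lit 1500009), (nat_lit 0), (nat_lit 7603773)]) (PF.cons (PF.leaf (nat_lit 9091519) (nat_lit 470797) (nat_lit
 31092902) (nat_lit 11338563) [(nat_lit 470797), (nat_lit 1503462), (nat_lit 0), (nat_lit 7567695)]) PF.nil)) (PF.cons PF.nil PF.nil))) (PF.cons (PF.cons (PF.cons (PF.leaf (nat_lit 9216821) (nat_lit 3214598) (nat_lit 30354133) (nat_lit 11154445) [(nat_lit 0), (nat_lit 0), (nat_lit 3214598), (nat_lit 7461878)]) (PF.cons PF.nil PF.nil)) (PF.cons PF.nil PF.nil)) (PF.cons PF.nil PF.nil))) (PF.cons (PF.cons (PF.cons (PF.cons (PF.leaf (nat_lit 9708053) (nat_lit 7105066) (nat_lit 28129755) (nat_lit 10558790) [(nat_lit 0), (nat_lit 0), (nat_lit 0), (nat_lit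 7105066)]) (PF.cons PF.nil PF.nil)) (PF.cons PF.nil PF.nil)) (PF.cons PF.nil PF.nil)) (PF.cons PF.nil (PF.cons PF.nil (PF.cons PF.nil PF.nil))))))))

def p13_14_2_0 : pfC (piC [(nat_lit 38167130), (nat_lit 25010362), (nat_lit 18643303), (nat_lit 12552662)] (nat_lit 7256705)) p13_14_2 (nat_lit 4) (nat_lit 0) (nat_lit 1) = true := by decide +kernel
def p13_14_2_1 : pfC (piC [(nat_lit 38167130), (nat_lit 25010362), (nat_lit 18643303), (nat_lit 12552662)] (nat_lit 7256705)) p13_14_2 (nat_lit 4) (nat_lit 1) (nat_lit 2) = true := by decide +kernel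
def p13_14_2_2 : pfC (piC [(nat_lit 38167130), (nat_lit 25010362), (nat_lit 18643303), (nat_lit 12552662)] (nat_lit 7256705)) p13_14_2 (nat_lit 4) (nat_lit 2) (nat_lit 3) = true := by decide +kernel
def p13_14_2_3 : pfC (piC [(nat_lit 38167130), (nat_lit 25010362), (nat_lit 18643303), (nat_lit 12552662)] (nat_lit 7256705)) p13_14_2 (nat_lit 4) (nat_lit 3) (nat_lit 4) = true := by decide +kernel
def p13_14_2_4 : pfC (piC [(nat_lit 38167130), (nat_lit 25010362), (nat_lit 18643303), (nat_lit 12552662)] (nat_lit 7256705)) p13_14_2 (nat_lit 4) (nat_lit 4) (nat_lit 5) = true := by decide +kernel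
def p13_14_2_5 : pfC (piC [(nat_lit 38167130), (nat_lit 25010362), (nat_lit 18643303), (nat_lit 12552662)] (nat_lit 7256705)) p13_14_2 (nat_lit 4) (nat_lit 5) (nat_lit 6) = true := by decide +kernel
def p13_14_2_6 : pfC (piC [(nat_lit 38167130), (nat_lit 25010362), (nat_lit 18643303), (nat_lit 12552662)] (nat_lit 7256705)) p13_14_2 (nat_lit 4) (nat_lit 6) (nat_lit 7) = true := by decide +kernel
def p13_14_2_7 : pfC (piC [(nat_lit 38167130), (nat_lit 25010362), (nat_lit 18643303), (nat_lit 12552662)] (nat_lit 7256705)) p13_14_2 (nat_lit 4) (nat_lit 7) (nat_lit 8) = true := by decide +kernel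
def p13_14_2_8 : pfC (piC [(nat_lit 38167130), (nat_lit 25010362), (nat_lit 18643303), (nat_lit 12552662)] (nat_lit 7256705)) p13_14_2 (nat_lit 4) (nat_lit 8) (nat_lit 9) = true := by decide +kernel
def p13_14_2_9 : pfC (piC [(nat_lit 38167130), (nat_lit 25010362), (nat_lit 18643303), (nat_lit 12552662)] (nat_lit 7256705)) p13_14_2 (nat_lit 4) (nat_lit 9) (nat_lit 10) = true := by decide +kernel
def p13_14_2_10 : pfC (piC [(nat_lit 38167130), (nat_lit 25010362), (nat_lit 18643303), (nat_lit 12552662)] (nat_lit 7256705)) p13_14_2 (nat_lit 4) (nat_lit 10) (nat_lit 11) = true := by decide +kernel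
def p13_14_2_11 : pfC (piC [(nat_lit 38167130), (nat_lit 25010362), (nat_lit 18643303), (nat_lit 12552662)] (nat_lit 7256705)) p13_14_2 (nat_lit 4) (nat_lit 11) (nat_lit 12) = true := by decide +kernel
def p13_14_2_12 : pfC (piC [(nat_lit 38167130), (nat_lit 25010362), (nat_lit 18643303), (nat_lit 12552662)] (nat_lit 7256705)) p13_14_2 (nat_lit 4) (nat_lit 12) (nat_lit 13) = true := by decide +kernel
def p13_14_2_13 : pfC (piC [(nat_lit 38167130), (nat_lit 25010362), (nat_lit 18643303), (nat_lit 12552662)] (nat_lit 7256705)) p13_14_2 (nat_lit 4) (nat_lit 13) (nat_lit 14) = true := by decide +kernel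
def p13_14_2_14 : pfC (piC [(nat_lit 38167130), (nat_lit 25010362), (nat_lit 18643303), (nat_lit 12552662)] (nat_lit 7256705)) p13_14_2 (nat_lit 4) (nat_lit 14) (nat_lit 15) = true := by decide +kernel
def p13_14_2_15 : pfC (piC [(nat_lit 38167130), (nat_lit 25010362), (nat_lit 18643303), (nat_lit 12552662)] (nat_lit 7256705)) p13_14_2 (nat_lit 4) (nat_lit 15) (nat_lit 16) = true := by decide +kernel
def p13_14_2_16 : pfC (piC [(nat_lit 38167130), (nat_lit 25010362), (nat_lit 18643303), (nat_lit 12552662)] (nat_lit 7256705)) p13_14_2 (nat_lit 4) (nat_lit 16) (nat_lit 17) = true := by decide +kernel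
def p13_14_2_17 : pfC (piC [(nat_lit 38167130), (nat_lit 25010362), (nat_lit 18643303), (nat_lit 12552662)] (nat_lit 7256705)) p13_14_2 (nat_lit 4) (nat_lit 17) (nat_lit 18) = true := by decide +kernel
def p13_14_2_18 : pfC (piC [(nat_lit 38167130), (nat_lit 25010362), (nat_lit 18643303), (nat_lit 12552662)] (nat_lit 7256705)) p13_14_2 (nat_lit 4) (nat_lit 18) (nat_lit 19) = true := by decide +kernel
def p13_14_2_19 : pfC (piC [(nat_lit 38167130), (nat_lit 25010362), (nat_lit 18643303), (nat_lit 12552662)] (nat_lit 7256705)) p13_14_2 (nat_lit 4) (nat_lit 19) (nat_lit 20) = true := by decide +kernel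
def p13_14_2_20 : pfC (piC [(nat_lit 38167130), (nat_lit 25010362), (nat_lit 18643303), (nat_lit 12552662)] (nat_lit 7256705)) p13_14_2 (nat_lit 4) (nat_lit 20) (nat_lit 21) = true := by decide +kernel
def p13_14_2_21 : pfC (piC [(nat_lit 38167130), (nat_lit 25010362), (nat_lit 18643303), (nat_lit 12552662)] (nat_lit 7256705)) p13_14_2 (nat_lit 4) (nat_lit 21) (nat_lit 22) = true := by decide +kernel
def p13_14_2_22 : pfC (piC [(nat_lit 38167130), (nat_lit 25010362), (nat_lit 18643303), (nat_lit 12552662)] (nat_lit 7256705)) p13_14_2 (nat_lit 4) (nat_lit 22) (nat_lit 23) = true := by decide +kernel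
def p13_14_2_23 : pfC (piC [(nat_lit 38167130), (nat_lit 25010362), (nat_lit 18643303), (nat_lit 12552662)] (nat_lit 7256705)) p13_14_2 (nat_lit 4) (nat_lit 23) (nat_lit 24) = true := by decide +kernel
def p13_14_2_24 : pfC (piC [(nat_lit 38167130), (nat_lit 25010362), (nat_lit 18643303), (nat_lit 12552662)] (nat_lit 7256705)) p13_14_2 (nat_lit 4) (nat_lit 24) (nat_lit 25) = true := by decide +kernel
def p13_14_2_25 : pfC (piC [(nat_lit 38167130), (nat_lit 25010362), (nat_lit 18643303), (nat_lit 12552662)] (nat_lit 7256705)) p13_14_2 (nat_lit 4) (nat_lit 25) (nat_lit 26) = true := by decide +kernel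
def p13_14_2_26 : pfC (piC [(nat_lit 38167130), (nat_lit 25010362), (nat_lit 18643303), (nat_lit 12552662)] (nat_lit 7256705)) p13_14_2 (nat_lit 4) (nat_lit 26) (nat_lit 27) = true := by decide +kernel
def p13_14_2_27 : pfC (piC [(nat_lit 38167130), (nat_lit 25010362), (nat_lit 18643303), (nat_lit 12552662)] (nat_lit 7256705)) p13_14_2 (nat_lit 4) (nat_lit 27) (nat_lit 28) = true := by decide +kernel
def p13_14_2_28 : pfC (piC [(nat_lit 38167130), (nat_lit 25010362), (nat_lit 18643303), (nat_lit 12552662)] (nat_lit 7256705)) p13_14_2 (nat_lit 4) (nat_lit 28) (nat_lit 29) = true := by decide +kernel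
def p13_14_2_29 : pfC (piC [(nat_lit 38167130), (nat_lit 25010362), (nat_lit 18643303), (nat_lit 12552662)] (nat_lit 7256705)) p13_14_2 (nat_lit 4) (nat_lit 29) (nat_lit 30) = true := by decide +kernel
def p13_14_2_30 : pfC (piC [(nat_lit 38167130), (nat_lit 25010362), (nat_lit 18643303), (nat_lit 12552662)] (nat_lit 7256705)) p13_14_2 (nat_lit 4) (nat_lit 30) (nat_lit 31) = true := by decide +kernel
def p13_14_2_31 : pfC (piC [(nat_lit 38167130), (nat_lit 25010362), (nat_lit 18643303), (nat_lit 12552662)] (nat_lit 7256705)) p13_14_2 (nat_lit 4) (nat_lit 31) (nat_lit 32) = true := by decide +kernel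
def p13_14_2_32 : pfC (piC [(nat_lit 38167130), (nat_lit 25010362), (nat_lit 18643303), (nat_lit 12552662)] (nat_lit 7256705)) p13_14_2 (nat_lit 4) (nat_lit 32) (nat_lit 33) = true := by decide +kernel
def p13_14_2_33 : pfC (piC [(nat_lit 38167130), (nat_lit 25010362), (nat_lit 18643303), (nat_lit 12552662)] (nat_lit 7256705)) p13_14_2 (nat_lit 4) (nat_lit 33) (nat_lit 34) = true := by decide +kernel
def p13_14_2_34 : pfC (piC [(nat_lit 38167130), (nat_lit 25010362), (nat_lit 18643303), (nat_lit 12552662)] (nat_lit 7256705)) p13_14_2 (nat_lit 4) (nat_lit 34) (nat_lit 35) = true := by decide +kernel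
def p13_14_2_35 : pfC (piC [(nat_lit 38167130), (nat_lit 25010362), (nat_lit 18643303), (nat_lit 12552662)] (nat_lit 7256705)) p13_14_2 (nat_lit 4) (nat_lit 35) (nat_lit 36) = true := by decide +kernel
def p13_14_2_36 : pfC (piC [(nat_lit 38167130), (nat_lit 25010362), (nat_lit 18643303), (nat_lit 12552662)] (nat_lit 7256705)) p13_14_2 (nat_lit 4) (nat_lit 36) (nat_lit 37) = true := by decide +kernel
def p13_14_2_37 : pfC (piC [(nat_lit 38167130), (nat_lit 25010362), (nat_lit 18643303), (nat_lit 12552662)] (nat_lit 7256705)) p13_14_2 (nat_lit 4) (nat_lit 37) (nat_lit 38) = true := by decide +kernel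
def p13_14_2_38 : pfC (piC [(nat_lit 38167130), (nat_lit 25010362), (nat_lit 18643303), (nat_lit 12552662)] (nat_lit 7256705)) p13_14_2 (nat_lit 4) (nat_lit 38) (nat_lit 39) = true := by decide +kernel
def p13_14_2_39 : pfC (piC [(nat_lit 38167130), (nat_lit 25010362), (nat_lit 18643303), (nat_lit 12552662)] (nat_lit 7256705)) p13_14_2 (nat_lit 4) (nat_lit 39) (nat_lit 40) = true := by decide +kernel
def p13_14_2_40 : pfC (piC [(nat_lit 38167130), (nat_lit 25010362), (nat_lit 18643303), (nat_lit 12552662)] (nat_lit 7256705)) p13_14_2 (nat_lit 4) (nat_lit 40) (nat_lit 41) = true := by decide +kernel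
def p13_14_2_41 : pfC (piC [(nat_lit 38167130), (nat_lit 25010362), (nat_lit 18643303), (nat_lit 12552662)] (nat_lit 7256705)) p13_14_2 (nat_lit 4) (nat_lit 41) (nat_lit 42) = true := by decide +kernel
def p13_14_2_42 : pfC (piC [(nat_lit 38167130), (nat_lit 25010362), (nat_lit 18643303), (nat_lit 12552662)] (nat_lit 7256705)) p13_14_2 (nat_lit 4) (nat_lit 42) (nat_lit 43) = true := by decide +kernel
def p13_14_2_43 : pfC (piC [(nat_lit 38167130), (nat_lit 25010362), (nat_lit 18643303), (nat_lit 12552662)] (nat_lit 7256705)) p13_14_2 (nat_lit 4) (nat_lit 43) (nat_lit 44) = true := by decide +kernel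
def p13_14_2_44 : pfC (piC [(nat_lit 38167130), (nat_lit 25010362), (nat_lit 18643303), (nat_lit 12552662)] (nat_lit 7256705)) p13_14_2 (nat_lit 4) (nat_lit 44) (nat_lit 45) = true := by decide +kernel
def p13_14_2_45 : pfC (piC [(nat_lit 38167130), (nat_lit 25010362), (nat_lit 18643303), (nat_lit 12552662)] (nat_lit 7256705)) p13_14_2 (nat_lit 4) (nat_lit 45) (nat_lit 46) = true := by decide +kernel
def p13_14_2_46 : pfC (piC [(nat_lit 38167130), (nat_lit 25010362), (nat_lit 18643303), (nat_lit 12552662)] (nat_lit 7256705)) p13_14_2 (nat_lit 4) (nat_lit 46) (nat_lit 47) = true := by decide +kernel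
def p13_14_2_47 : pfC (piC [(nat_lit 38167130), (nat_lit 25010362), (nat_lit 18643303), (nat_lit 12552662)] (nat_lit 7256705)) p13_14_2 (nat_lit 4) (nat_lit 47) (nat_lit 48) = true := by decide +kernel
def p13_14_2_48 : pfC (piC [(nat_lit 38167130), (nat_lit 25010362), (nat_lit 18643303), (nat_lit 12552662)] (nat_lit 7256705)) p13_14_2 (nat_lit 4) (nat_lit 48) (nat_lit 49) = true := by decide +kernel
def p13_14_2_49 : pfC (piC [(nat_lit 38167130), (nat_lit 25010362), (nat_lit 18643303), (nat_lit 12552662)] (nat_lit 7256705)) p13_14_2 (nat_lit 4) (nat_lit 49) (nat_lit 50) = true := by decide +kernel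
def p13_14_2_50 : pfC (piC [(nat_lit 38167130), (nat_lit 25010362), (nat_lit 18643303), (nat_lit 12552662)] (nat_lit 7256705)) p13_14_2 (nat_lit 4) (nat_lit 50) (nat_lit 51) = true := by decide +kernel
def p13_14_2_51 : pfC (piC [(nat_lit 38167130), (nat_lit 25010362), (nat_lit 18643303), (nat_lit 12552662)] (nat_lit 7256705)) p13_14_2 (nat_lit 4) (nat_lit 51) (nat_lit 52) = true := by decide +kernel
def p13_14_2_52 : pfC (piC [(nat_lit 38167130), (nat_lit 25010362), (nat_lit 18643303), (nat_lit 12552662)] (nat_lit 7256705)) p13_14_2 (nat_lit 4) (nat_lit 52) (nat_lit 53) = true := by decide +kernel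
def p13_14_2_53 : pfC (piC [(nat_lit 38167130), (nat_lit 25010362), (nat_lit 18643303), (nat_lit 12552662)] (nat_lit 7256705)) p13_14_2 (nat_lit 4) (nat_lit 53) (nat_lit 54) = true := by decide +kernel
def p13_14_2_54 : pfC (piC [(nat_lit 38167130), (nat_lit 25010362), (nat_lit 18643303), (nat_lit 12552662)] (nat_lit 7256705)) p13_14_2 (nat_lit 4) (nat_lit 54) (nat_lit 55) = true := by decide +kernel
def p13_14_2_55 : pfC (piC [(nat_lit 38167130), (nat_lit 25010362), (nat_lit 18643303), (nat_lit 12552662)] (nat_lit 7256705)) p13_14_2 (nat_lit 4) (nat_lit 55) (nat_lit 56) = true := by decide +kernel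
def p13_14_2_56 : pfC (piC [(nat_lit 38167130), (nat_lit 25010362), (nat_lit 18643303), (nat_lit 12552662)] (nat_lit 7256705)) p13_14_2 (nat_lit 4) (nat_lit 56) (nat_lit 57) = true := by decide +kernel
def p13_14_2_57 : pfC (piC [(nat_lit 38167130), (nat_lit 25010362), (nat_lit 18643303), (nat_lit 12552662)] (nat_lit 7256705)) p13_14_2 (nat_lit 4) (nat_lit 57) (nat_lit 58) = true := by decide +kernel
def p13_14_2_58 : pfC (piC [(nat_lit 38167130), (nat_lit 25010362), (nat_lit 18643303), (nat_lit 12552662)] (nat_lit 7256705)) p13_14_2 (nat_lit 4) (nat_lit 58) (nat_lit 59) = true := by decide +kernel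
def p13_14_2_59 : pfC (piC [(nat_lit 38167130), (nat_lit 25010362), (nat_lit 18643303), (nat_lit 12552662)] (nat_lit 7256705)) p13_14_2 (nat_lit 4) (nat_lit 59) (nat_lit 60) = true := by decide +kernel
def p13_14_2_60 : pfC (piC [(nat_lit 38167130), (nat_lit 25010362), (nat_lit 18643303), (nat_lit 12552662)] (nat_lit 7256705)) p13_14_2 (nat_lit 4) (nat_lit 60) (nat_lit 61) = true := by decide +kernel
def p13_14_2_61 : pfC (piC [(nat_lit 38167130), (nat_lit 25010362), (nat_lit 18643303), (nat_lit 12552662)] (nat_lit 7256705)) p13_14_2 (nat_lit 4) (nat_lit 61) (nat_lit 62) = true := by decide +kernel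
def p13_14_2_62 : pfC (piC [(nat_lit 38167130), (nat_lit 25010362), (nat_lit 18643303), (nat_lit 12552662)] (nat_lit 7256705)) p13_14_2 (nat_lit 4) (nat_lit 62) (nat_lit 63) = true := by decide +kernel
def p13_14_2_63 : pfC (piC [(nat_lit 38167130), (nat_lit 25010362), (nat_lit 18643303), (nat_lit 12552662)] (nat_lit 7256705)) p13_14_2 (nat_lit 4) (nat_lit 63) (nat_lit 64) = true := by decide +kernel
def p13_14_2_64 : pfC (piC [(nat_lit 38167130), (nat_lit 25010362), (nat_lit 18643303), (nat_lit 12552662)] (nat_lit 7256705)) p13_14_2 (nat_lit 4) (nat_lit 64) (nat_lit 65) = true := by decide +kernel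
def p13_14_2_65 : pfC (piC [(nat_lit 38167130), (nat_lit 25010362), (nat_lit 18643303), (nat_lit 12552662)] (nat_lit 7256705)) p13_14_2 (nat_lit 4) (nat_lit 65) (nat_lit 66) = true := by decide +kernel
def p13_14_2_66 : pfC (piC [(nat_lit 38167130), (nat_lit 25010362), (nat_lit 18643303), (nat_lit 12552662)] (nat_lit 7256705)) p13_14_2 (nat_lit 4) (nat_lit 66) (nat_lit 67) = true := by decide +kernel
def p13_14_2_67 : pfC (piC [(nat_lit 38167130), (nat_lit 25010362), (nat_lit 18643303), (nat_lit 12552662)] (nat_lit 7256705)) p13_14_2 (nat_lit 4) (nat_lit 67) (nat_lit 68) = true := by decide +kernel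
def p13_14_2_68 : pfC (piC [(nat_lit 38167130), (nat_lit 25010362), (nat_lit 18643303), (nat_lit 12552662)] (nat_lit 7256705)) p13_14_2 (nat_lit 4) (nat_lit 68) (nat_lit 69) = true := by decide +kernel
def p13_14_2_69 : pfC (piC [(nat_lit 38167130), (nat_lit 25010362), (nat_lit 18643303), (nat_lit 12552662)] (nat_lit 7256705)) p13_14_2 (nat_lit 4) (nat_lit 69) (nat_lit 70) = true := by decide +kernel
def p13_14_2_70 : pfC (piC [(nat_lit 38167130), (nat_lit 25010362), (nat_lit 18643303), (nat_lit 12552662)] (nat_lit 7256705)) p13_14_2 (nat_lit 4) (nat_lit 70) (nat_lit 71) = true := by decide +kernel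
def p13_14_2_71 : pfC (piC [(nat_lit 38167130), (nat_lit 25010362), (nat_lit 18643303), (nat_lit 12552662)] (nat_lit 7256705)) p13_14_2 (nat_lit 4) (nat_lit 71) (nat_lit 72) = true := by decide +kernel
def p13_14_2_72 : pfC (piC [(nat_lit 38167130), (nat_lit 25010362), (nat_lit 18643303), (nat_lit 12552662)] (nat_lit 7256705)) p13_14_2 (nat_lit 4) (nat_lit 72) (nat_lit 73) = true := by decide +kernel
def p13_14_2_73 : pfC (piC [(nat_lit 38167130), (nat_lit 25010362), (nat_lit 18643303), (nat_lit 12552662)] (nat_lit 7256705)) p13_14_2 (nat_lit 4) (nat_lit 73) (nat_lit 74) = true := by decide +kernel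
def p13_14_2_74 : pfC (piC [(nat_lit 38167130), (nat_lit 25010362), (nat_lit 18643303), (nat_lit 12552662)] (nat_lit 7256705)) p13_14_2 (nat_lit 4) (nat_lit 74) (nat_lit 75) = true := by decide +kernel
def p13_14_2_75 : pfC (piC [(nat_lit 38167130), (nat_lit 25010362), (nat_lit 18643303), (nat_lit 12552662)] (nat_lit 7256705)) p13_14_2 (nat_lit 4) (nat_lit 75) (nat_lit 76) = true := by decide +kernel
def p13_14_2_76 : pfC (piC [(nat_lit 38167130), (nat_lit 25010362), (nat_lit 18643303), (nat_lit 12552662)] (nat_lit 7256705)) p13_14_2 (nat_lit 4) (nat_lit 76) (nat_lit 77) = true := by decide +kernel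
def p13_14_2_77 : pfC (piC [(nat_lit 38167130), (nat_lit 25010362), (nat_lit 18643303), (nat_lit 12552662)] (nat_lit 7256705)) p13_14_2 (nat_lit 4) (nat_lit 77) (nat_lit 78) = true := by decide +kernel
def p13_14_2_78 : pfC (piC [(nat_lit 38167130), (nat_lit 25010362), (nat_lit 18643303), (nat_lit 12552662)] (nat_lit 7256705)) p13_14_2 (nat_lit 4) (nat_lit 78) (nat_lit 79) = true := by decide +kernel
def p13_14_2_79 : pfC (piC [(nat_lit 38167130), (nat_lit 25010362), (nat_lit 18643303), (nat_lit 12552662)] (nat_lit 7256705)) p13_14_2 (nat_lit 4) (nat_lit 79) (nat_lit 80) = true := by decide +kernel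
def p13_14_2_80 : pfC (piC [(nat_lit 38167130), (nat_lit 25010362), (nat_lit 18643303), (nat_lit 12552662)] (nat_lit 7256705)) p13_14_2 (nat_lit 4) (nat_lit 80) (nat_lit 81) = true := by decide +kernel
def p13_14_2_81 : pfC (piC [(nat_lit 38167130), (nat_lit 25010362), (nat_lit 18643303), (nat_lit 12552662)] (nat_lit 7256705)) p13_14_2 (nat_lit 4) (nat_lit 81) (nat_lit 82) = true := by decide +kernel
def p13_14_2_82 : pfC (piC [(nat_lit 38167130), (nat_lit 25010362), (nat_lit 18643303), (nat_lit 12552662)] (nat_lit 7256705)) p13_14_2 (nat_lit 4) (nat_lit 82) (nat_lit 83) = true := by decide +kernel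
def p13_14_2_83 : pfC (piC [(nat_lit 38167130), (nat_lit 25010362), (nat_lit 18643303), (nat_lit 12552662)] (nat_lit 7256705)) p13_14_2 (nat_lit 4) (nat_lit 83) (nat_lit 84) = true := by decide +kernel
def p13_14_2_84 : pfC (piC [(nat_lit 38167130), (nat_lit 25010362), (nat_lit 18643303), (nat_lit 12552662)] (nat_lit 7256705)) p13_14_2 (nat_lit 4) (nat_lit 84) (nat_lit 85) = true := by decide +kernel
def p13_14_2_85 : pfC (piC [(nat_lit 38167130), (nat_lit 25010362), (nat_lit 18643303), (nat_lit 12552662)] (nat_lit 7256705)) p13_14_2 (nat_lit 4) (nat_lit 85) (nat_lit 86) = true := by decide +kernel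
def p13_14_2_86 : pfC (piC [(nat_lit 38167130), (nat_lit 25010362), (nat_lit 18643303), (nat_lit 12552662)] (nat_lit 7256705)) p13_14_2 (nat_lit 4) (nat_lit 86) (nat_lit 87) = true := by decide +kernel
def p13_14_2_87 : pfC (piC [(nat_lit 38167130), (nat_lit 25010362), (nat_lit 18643303), (nat_lit 12552662)] (nat_lit 7256705)) p13_14_2 (nat_lit 4) (nat_lit 87) (nat_lit 88) = true := by decide +kernel
def p13_14_2_88 : pfC (piC [(nat_lit 38167130), (nat_lit 25010362), (nat_lit 18643303), (nat_lit 12552662)] (nat_lit 7256705)) p13_14_2 (nat_lit 4) (nat_lit 88) (nat_lit 89) = true := by decide +kernel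
def p13_14_2_89 : pfC (piC [(nat_lit 38167130), (nat_lit 25010362), (nat_lit 18643303), (nat_lit 12552662)] (nat_lit 7256705)) p13_14_2 (nat_lit 4) (nat_lit 89) (nat_lit 90) = true := by decide +kernel
def p13_14_2_90 : pfC (piC [(nat_lit 38167130), (nat_lit 25010362), (nat_lit 18643303), (nat_lit 12552662)] (nat_lit 7256705)) p13_14_2 (nat_lit 4) (nat_lit 90) (nat_lit 91) = true := by decide +kernel
def p13_14_2_91 : pfC (piC [(nat_lit 38167130), (nat_lit 25010362), (nat_lit 18643303), (nat_lit 12552662)] (nat_lit 7256705)) p13_14_2 (nat_lit 4) (nat_lit 91) (nat_lit 92) = true := by decide +kernel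
def p13_14_2_92 : pfC (piC [(nat_lit 38167130), (nat_lit 25010362), (nat_lit 18643303), (nat_lit 12552662)] (nat_lit 7256705)) p13_14_2 (nat_lit 4) (nat_lit 92) (nat_lit 93) = true := by decide +kernel
def p13_14_2_93 : pfC (piC [(nat_lit 38167130), (nat_lit 25010362), (nat_lit 18643303), (nat_lit 12552662)] (nat_lit 7256705)) p13_14_2 (nat_lit 4) (nat_lit 93) (nat_lit 94) = true := by decide +kernel
def p13_14_2_94 : pfC (piC [(nat_lit 38167130), (nat_lit 25010362), (nat_lit 18643303), (nat_lit 12552662)] (nat_lit 7256705)) p13_14_2 (nat_lit 4) (nat_lit 94) (nat_lit 95) = true := by decide +kernel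
def p13_14_2_95 : pfC (piC [(nat_lit 38167130), (nat_lit 25010362), (nat_lit 18643303), (nat_lit 12552662)] (nat_lit 7256705)) p13_14_2 (nat_lit 4) (nat_lit 95) (nat_lit 96) = true := by decide +kernel
def p13_14_2_96 : pfC (piC [(nat_lit 38167130), (nat_lit 25010362), (nat_lit 18643303), (nat_lit 12552662)] (nat_lit 7256705)) p13_14_2 (nat_lit 4) (nat_lit 96) (nat_lit 97) = true := by decide +kernel
def p13_14_2_97 : pfC (piC [(nat_lit 38167130), (nat_lit 25010362), (nat_lit 18643303), (nat_lit 12552662)] (nat_lit 7256705)) p13_14_2 (nat_lit 4) (nat_lit 97) (nat_lit 98) = true := by decide +kernel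
def p13_14_2_98 : pfC (piC [(nat_lit 38167130), (nat_lit 25010362), (nat_lit 18643303), (nat_lit 12552662)] (nat_lit 7256705)) p13_14_2 (nat_lit 4) (nat_lit 98) (nat_lit 99) = true := by decide +kernel
def p13_14_2_99 : pfC (piC [(nat_lit 38167130), (nat_lit 25010362), (nat_lit 18643303), (nat_lit 12552662)] (nat_lit 7256705)) p13_14_2 (nat_lit 4) (nat_lit 99) (nat_lit 100) = true := by decide +kernel
def p13_14_2_100 : pfC (piC [(nat_lit 38167130), (nat_lit 25010362), (nat_lit 18643303), (nat_lit 12552662)] (nat_lit 7256705)) p13_14_2 (nat_lit 4) (nat_lit 100) (nat_lit 101) = true := by decide +kernel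
def p13_14_2_101 : pfC (piC [(nat_lit 38167130), (nat_lit 25010362), (nat_lit 18643303), (nat_lit 12552662)] (nat_lit 7256705)) p13_14_2 (nat_lit 4) (nat_lit 101) (nat_lit 102) = true := by decide +kernel
def p13_14_2_102 : pfC (piC [(nat_lit 38167130), (nat_lit 25010362), (nat_lit 18643303), (nat_lit 12552662)] (nat_lit 7256705)) p13_14_2 (nat_lit 4) (nat_lit 102) (nat_lit 103) = true := by decide +kernel
def p13_14_2_103 : pfC (piC [(nat_lit 38167130), (nat_lit 25010362), (nat_lit 18643303), (nat_lit 12552662)] (nat_lit 7256705)) p13_14_2 (nat_lit 4) (nat_lit 103) (nat_lit 104) = true := by decide +kernel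
def p13_14_2_104 : pfC (piC [(nat_lit 38167130), (nat_lit 25010362), (nat_lit 18643303), (nat_lit 12552662)] (nat_lit 7256705)) p13_14_2 (nat_lit 4) (nat_lit 104) (nat_lit 105) = true := by decide +kernel
def p13_14_2_105 : pfC (piC [(nat_lit 38167130), (nat_lit 25010362), (nat_lit 18643303), (nat_lit 12552662)] (nat_lit 7256705)) p13_14_2 (nat_lit 4) (nat_lit 105) (nat_lit 106) = true := by decide +kernel
def p13_14_2_106 : pfC (piC [(nat_lit 38167130), (nat_lit 25010362), (nat_lit 18643303), (nat_lit 12552662)] (nat_lit 7256705)) p13_14_2 (nat_lit 4) (nat_lit 106) (nat_lit 107) = true := by decide +kernel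
def p13_14_2_107 : pfC (piC [(nat_lit 38167130), (nat_lit 25010362), (nat_lit 18643303), (nat_lit 12552662)] (nat_lit 7256705)) p13_14_2 (nat_lit 4) (nat_lit 107) (nat_lit 108) = true := by decide +kernel
def p13_14_2_108 : pfC (piC [(nat_lit 38167130), (nat_lit 25010362), (nat_lit 18643303), (nat_lit 12552662)] (nat_lit 7256705)) p13_14_2 (nat_lit 4) (nat_lit 108) (nat_lit 109) = true := by decide +kernel
def p13_14_2_109 : pfC (piC [(nat_lit 38167130), (nat_lit 25010362), (nat_lit 18643303), (nat_lit 12552662)] (nat_lit 7256705)) p13_14_2 (nat_lit 4) (nat_lit 109) (nat_lit 110) = true := by decide +kernel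
def p13_14_2_110 : pfC (piC [(nat_lit 38167130), (nat_lit 25010362), (nat_lit 18643303), (nat_lit 12552662)] (nat_lit 7256705)) p13_14_2 (nat_lit 4) (nat_lit 110) (nat_lit 111) = true := by decide +kernel
def p13_14_2_111 : pfC (piC [(nat_lit 38167130), (nat_lit 25010362), (nat_lit 18643303), (nat_lit 12552662)] (nat_lit 7256705)) p13_14_2 (nat_lit 4) (nat_lit 111) (nat_lit 112) = true := by decide +kernel
def p13_14_2_112 : pfC (piC [(nat_lit 38167130), (nat_lit 25010362), (nat_lit 18643303), (nat_lit 12552662)] (nat_lit 7256705)) p13_14_2 (nat_lit 4) (nat_lit 112) (nat_lit 113) = true := by decide +kernel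
def p13_14_2_113 : pfC (piC [(nat_lit 38167130), (nat_lit 25010362), (nat_lit 18643303), (nat_lit 12552662)] (nat_lit 7256705)) p13_14_2 (nat_lit 4) (nat_lit 113) (nat_lit 114) = true := by decide +kernel
def p13_14_2_114 : pfC (piC [(nat_lit 38167130), (nat_lit 25010362), (nat_lit 18643303), (nat_lit 12552662)] (nat_lit 7256705)) p13_14_2 (nat_lit 4) (nat_lit 114) (nat_lit 115) = true := by decide +kernel
def p13_14_2_115 : pfC (piC [(nat_lit 38167130), (nat_lit 25010362), (nat_lit 18643303), (nat_lit 12552662)] (nat_lit 7256705)) p13_14_2 (nat_lit 4) (nat_lit 115) (nat_lit 116) = true := by decide +kernel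
def p13_14_2_116 : pfC (piC [(nat_lit 38167130), (nat_lit 25010362), (nat_lit 18643303), (nat_lit 12552662)] (nat_lit 7256705)) p13_14_2 (nat_lit 4) (nat_lit 116) (nat_lit 117) = true := by decide +kernel
def p13_14_2_117 : pfC (piC [(nat_lit 38167130), (nat_lit 25010362), (nat_lit 18643303), (nat_lit 12552662)] (nat_lit 7256705)) p13_14_2 (nat_lit 4) (nat_lit 117) (nat_lit 118) = true := by decide +kernel
def p13_14_2_118 : pfC (piC [(nat_lit 38167130), (nat_lit 25010362), (nat_lit 18643303), (nat_lit 12552662)] (nat_lit 7256705)) p13_14_2 (nat_lit 4) (nat_lit 118) (nat_lit 119) = true := by decide +kernel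
def p13_14_2_119 : pfC (piC [(nat_lit 38167130), (nat_lit 25010362), (nat_lit 18643303), (nat_lit 12552662)] (nat_lit 7256705)) p13_14_2 (nat_lit 4) (nat_lit 119) (nat_lit 120) = true := by decide +kernel
def p13_14_2_120 : pfC (piC [(nat_lit 38167130), (nat_lit 25010362), (nat_lit 18643303), (nat_lit 12552662)] (nat_lit 7256705)) p13_14_2 (nat_lit 4) (nat_lit 120) (nat_lit 121) = true := by decide +kernel
def p13_14_2_121 : pfC (piC [(nat_lit 38167130), (nat_lit 25010362), (nat_lit 18643303), (nat_lit 12552662)] (nat_lit 7256705)) p13_14_2 (nat_lit 4) (nat_lit 121) (nat_lit 122) = true := by decide +kernel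
def p13_14_2_122 : pfC (piC [(nat_lit 38167130), (nat_lit 25010362), (nat_lit 18643303), (nat_lit 12552662)] (nat_lit 7256705)) p13_14_2 (nat_lit 4) (nat_lit 122) (nat_lit 123) = true := by decide +kernel
def p13_14_2_123 : pfC (piC [(nat_lit 38167130), (nat_lit 25010362), (nat_lit 18643303), (nat_lit 12552662)] (nat_lit 7256705)) p13_14_2 (nat_lit 4) (nat_lit 123) (nat_lit 124) = true := by decide +kernel
def p13_14_2_124 : pfC (piC [(nat_lit 38167130), (nat_lit 25010362), (nat_lit 18643303), (nat_lit 12552662)] (nat_lit 7256705)) p13_14_2 (nat_lit 4) (nat_lit 124) (nat_lit 125) = true := by decide +kernel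
def p13_14_2_125 : pfC (piC [(nat_lit 38167130), (nat_lit 25010362), (nat_lit 18643303), (nat_lit 12552662)] (nat_lit 7256705)) p13_14_2 (nat_lit 4) (nat_lit 125) (nat_lit 126) = true := by decide +kernel
def p13_14_2_126 : pfC (piC [(nat_lit 38167130), (nat_lit 25010362), (nat_lit 18643303), (nat_lit 12552662)] (nat_lit 7256705)) p13_14_2 (nat_lit 4) (nat_lit 126) (nat_lit 127) = true := by decide +kernel
def p13_14_2_127 : pfC (piC [(nat_lit 38167130), (nat_lit 25010362), (nat_lit 18643303), (nat_lit 12552662)] (nat_lit 7256705)) p13_14_2 (nat_lit 4) (nat_lit 127) (nat_lit 128) = true := by decide +kernel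
def p13_14_2_128 : pfC (piC [(nat_lit 38167130), (nat_lit 25010362), (nat_lit 18643303), (nat_lit 12552662)] (nat_lit 7256705)) p13_14_2 (nat_lit 4) (nat_lit 128) (nat_lit 129) = true := by decide +kernel
def p13_14_2_129 : pfC (piC [(nat_lit 38167130), (nat_lit 25010362), (nat_lit 18643303), (nat_lit 12552662)] (nat_lit 7256705)) p13_14_2 (nat_lit 4) (nat_lit 129) (nat_lit 130) = true := by decide +kernel
def p13_14_2_130 : pfC (piC [(nat_lit 38167130), (nat_lit 25010362), (nat_lit 18643303), (nat_lit 12552662)] (nat_lit 7256705)) p13_14_2 (nat_lit 4) (nat_lit 130) (nat_lit 131) = true := by decide +kernel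
def p13_14_2_131 : pfC (piC [(nat_lit 38167130), (nat_lit 25010362), (nat_lit 18643303), (nat_lit 12552662)] (nat_lit 7256705)) p13_14_2 (nat_lit 4) (nat_lit 131) (nat_lit 132) = true := by decide +kernel
def p13_14_2_132 : pfC (piC [(nat_lit 38167130), (nat_lit 25010362), (nat_lit 18643303), (nat_lit 12552662)] (nat_lit 7256705)) p13_14_2 (nat_lit 4) (nat_lit 132) (nat_lit 133) = true := by decide +kernel
def p13_14_2_133 : pfC (piC [(nat_lit 38167130), (nat_lit 25010362), (nat_lit 18643303), (nat_lit 12552662)] (nat_lit 7256705)) p13_14_2 (nat_lit 4) (nat_lit 133) (nat_lit 134) = true := by decide +kernel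
def p13_14_2_134 : pfC (piC [(nat_lit 38167130), (nat_lit 25010362), (nat_lit 18643303), (nat_lit 12552662)] (nat_lit 7256705)) p13_14_2 (nat_lit 4) (nat_lit 134) (nat_lit 135) = true := by decide +kernel
def p13_14_2_135 : pfC (piC [(nat_lit 38167130), (nat_lit 25010362), (nat_lit 18643303), (nat_lit 12552662)] (nat_lit 7256705)) p13_14_2 (nat_lit 4) (nat_lit 135) (nat_lit 136) = true := by decide +kernel
def p13_14_2_136 : pfC (piC [(nat_lit 38167130), (nat_lit 25010362), (nat_lit 18643303), (nat_lit 12552662)] (nat_lit 7256705)) p13_14_2 (nat_lit 4) (nat_lit 136) (nat_lit 137) = true := by decide +kernel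
def p13_14_2_137 : pfC (piC [(nat_lit 38167130), (nat_lit 25010362), (nat_lit 18643303), (nat_lit 12552662)] (nat_lit 7256705)) p13_14_2 (nat_lit 4) (nat_lit 137) (nat_lit 138) = true := by decide +kernel
def p13_14_2_138 : pfC (piC [(nat_lit 38167130), (nat_lit 25010362), (nat_lit 18643303), (nat_lit 12552662)] (nat_lit 7256705)) p13_14_2 (nat_lit 4) (nat_lit 138) (nat_lit 139) = true := by decide +kernel
def p13_14_2_139 : pfC (piC [(nat_lit 38167130), (nat_lit 25010362), (nat_lit 18643303), (nat_lit 12552662)] (nat_lit 7256705)) p13_14_2 (nat_lit 4) (nat_lit 139) (nat_lit 140) = true := by decide +kernel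
def p13_14_2_140 : pfC (piC [(nat_lit 38167130), (nat_lit 25010362), (nat_lit 18643303), (nat_lit 12552662)] (nat_lit 7256705)) p13_14_2 (nat_lit 4) (nat_lit 140) (nat_lit 141) = true := by decide +kernel
def p13_14_2_141 : pfC (piC [(nat_lit 38167130), (nat_lit 25010362), (nat_lit 18643303), (nat_lit 12552662)] (nat_lit 7256705)) p13_14_2 (nat_lit 4) (nat_lit 141) (nat_lit 142) = true := by decide +kernel
def p13_14_2_142 : pfC (piC [(nat_lit 38167130), (nat_lit 25010362), (nat_lit 18643303), (nat_lit 12552662)] (nat_lit 7256705)) p13_14_2 (nat_lit 4) (nat_lit 142) (nat_lit 143) = true := by decide +kernel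
def p13_14_2_143 : pfC (piC [(nat_lit 38167130), (nat_lit 25010362), (nat_lit 18643303), (nat_lit 12552662)] (nat_lit 7256705)) p13_14_2 (nat_lit 4) (nat_lit 143) (nat_lit 144) = true := by decide +kernel
def p13_14_2_144 : pfC (piC [(nat_lit 38167130), (nat_lit 25010362), (nat_lit 18643303), (nat_lit 12552662)] (nat_lit 7256705)) p13_14_2 (nat_lit 4) (nat_lit 144) (nat_lit 145) = true := by decide +kernel
def p13_14_2_145 : pfC (piC [(nat_lit 38167130), (nat_lit 25010362), (nat_lit 18643303), (nat_lit 12552662)] (nat_lit 7256705)) p13_14_2 (nat_lit 4) (nat_lit 145) (nat_lit 146) = true := by decide +kernel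
def p13_14_2_146 : pfC (piC [(nat_lit 38167130), (nat_lit 25010362), (nat_lit 18643303), (nat_lit 12552662)] (nat_lit 7256705)) p13_14_2 (nat_lit 4) (nat_lit 146) (nat_lit 147) = true := by decide +kernel
def p13_14_2_147 : pfC (piC [(nat_lit 38167130), (nat_lit 25010362), (nat_lit 18643303), (nat_lit 12552662)] (nat_lit 7256705)) p13_14_2 (nat_lit 4) (nat_lit 147) (nat_lit 148) = true := by decide +kernel
def p13_14_2_148 : pfC (piC [(nat_lit 38167130), (nat_lit 25010362), (nat_lit 18643303), (nat_lit 12552662)] (nat_lit 7256705)) p13_14_2 (nat_lit 4) (nat_lit 148) (nat_lit 149) = true := by decide +kernel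
def p13_14_2_149 : pfC (piC [(nat_lit 38167130), (nat_lit 25010362), (nat_lit 18643303), (nat_lit 12552662)] (nat_lit 7256705)) p13_14_2 (nat_lit 4) (nat_lit 149) (nat_lit 150) = true := by decide +kernel
def p13_14_2_150 : pfC (piC [(nat_lit 38167130), (nat_lit 25010362), (nat_lit 18643303), (nat_lit 12552662)] (nat_lit 7256705)) p13_14_2 (nat_lit 4) (nat_lit 150) (nat_lit 151) = true := by decide +kernel
def p13_14_2_151 : pfC (piC [(nat_lit 38167130), (nat_lit 25010362), (nat_lit 18643303), (nat_lit 12552662)] (nat_lit 7256705)) p13_14_2 (nat_lit 4) (nat_lit 151) (nat_lit 152) = true := by decide +kernel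
def p13_14_2_152 : pfC (piC [(nat_lit 38167130), (nat_lit 25010362), (nat_lit 18643303), (nat_lit 12552662)] (nat_lit 7256705)) p13_14_2 (nat_lit 4) (nat_lit 152) (nat_lit 153) = true := by decide +kernel
def p13_14_2_153 : pfC (piC [(nat_lit 38167130), (nat_lit 25010362), (nat_lit 18643303), (nat_lit 12552662)] (nat_lit 7256705)) p13_14_2 (nat_lit 4) (nat_lit 153) (nat_lit 154) = true := by decide +kernel
def p13_14_2_154 : pfC (piC [(nat_lit 38167130), (nat_lit 25010362), (nat_lit 18643303), (nat_lit 12552662)] (nat_lit 7256705)) p13_14_2 (nat_lit 4) (nat_lit 154) (nat_lit 155) = true := by decide +kernel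
def p13_14_2_155 : pfC (piC [(nat_lit 38167130), (nat_lit 25010362), (nat_lit 18643303), (nat_lit 12552662)] (nat_lit 7256705)) p13_14_2 (nat_lit 4) (nat_lit 155) (nat_lit 156) = true := by decide +kernel
def p13_14_2_156 : pfC (piC [(nat_lit 38167130), (nat_lit 25010362), (nat_lit 18643303), (nat_lit 12552662)] (nat_lit 7256705)) p13_14_2 (nat_lit 4) (nat_lit 156) (nat_lit 157) = true := by decide +kernel
def p13_14_2_157 : pfC (piC [(nat_lit 38167130), (nat_lit 25010362), (nat_lit 18643303), (nat_lit 12552662)] (nat_lit 7256705)) p13_14_2 (nat_lit 4) (nat_lit 157) (nat_lit 158) = true := by decide +kernel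
def p13_14_2_158 : pfC (piC [(nat_lit 38167130), (nat_lit 25010362), (nat_lit 18643303), (nat_lit 12552662)] (nat_lit 7256705)) p13_14_2 (nat_lit 4) (nat_lit 158) (nat_lit 159) = true := by decide +kernel
def p13_14_2_159 : pfC (piC [(nat_lit 38167130), (nat_lit 25010362), (nat_lit 18643303), (nat_lit 12552662)] (nat_lit 7256705)) p13_14_2 (nat_lit 4) (nat_lit 159) (nat_lit 160) = true := by decide +kernel
def p13_14_2_160 : pfC (piC [(nat_lit 38167130), (nat_lit 25010362), (nat_lit 18643303), (nat_lit 12552662)] (nat_lit 7256705)) p13_14_2 (nat_lit 4) (nat_lit 160) (nat_lit 161) = true := by decide +kernel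
def p13_14_2_161 : pfC (piC [(nat_lit 38167130), (nat_lit 25010362), (nat_lit 18643303), (nat_lit 12552662)] (nat_lit 7256705)) p13_14_2 (nat_lit 4) (nat_lit 161) (nat_lit 162) = true := by decide +kernel
def p13_14_2_162 : pfC (piC [(nat_lit 38167130), (nat_lit 25010362), (nat_lit 18643303), (nat_lit 12552662)] (nat_lit 7256705)) p13_14_2 (nat_lit 4) (nat_lit 162) (nat_lit 163) = true := by decide +kernel
def p13_14_2_163 : pfC (piC [(nat_lit 38167130), (nat_lit 25010362), (nat_lit 18643303), (nat_lit 12552662)] (nat_lit 7256705)) p13_14_2 (nat_lit 4) (nat_lit 163) (nat_lit 164) = true := by decide +kernel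
def p13_14_2_164 : pfC (piC [(nat_lit 38167130), (nat_lit 25010362), (nat_lit 18643303), (nat_lit 12552662)] (nat_lit 7256705)) p13_14_2 (nat_lit 4) (nat_lit 164) (nat_lit 165) = true := by decide +kernel
def p13_14_2_165 : pfC (piC [(nat_lit 38167130), (nat_lit 25010362), (nat_lit 18643303), (nat_lit 12552662)] (nat_lit 7256705)) p13_14_2 (nat_lit 4) (nat_lit 165) (nat_lit 166) = true := by decide +kernel
def p13_14_2_166 : pfC (piC [(nat_lit 38167130), (nat_lit 25010362), (nat_lit 18643303), (nat_lit 12552662)] (nat_lit 7256705)) p13_14_2 (nat_lit 4) (nat_lit 166) (nat_lit 167) = true := by decide +kernel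
def p13_14_2_167 : pfC (piC [(nat_lit 38167130), (nat_lit 25010362), (nat_lit 18643303), (nat_lit 12552662)] (nat_lit 7256705)) p13_14_2 (nat_lit 4) (nat_lit 167) (nat_lit 168) = true := by decide +kernel
def p13_14_2_168 : pfC (piC [(nat_lit 38167130), (nat_lit 25010362), (nat_lit 18643303), (nat_lit 12552662)] (nat_lit 7256705)) p13_14_2 (nat_lit 4) (nat_lit 168) (nat_lit 169) = true := by decide +kernel
def p13_14_2_169 : pfC (piC [(nat_lit 38167130), (nat_lit 25010362), (nat_lit 18643303), (nat_lit 12552662)] (nat_lit 7256705)) p13_14_2 (nat_lit 4) (nat_lit 169) (nat_lit 170) = true := by decide +kernel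
def p13_14_2_170 : pfC (piC [(nat_lit 38167130), (nat_lit 25010362), (nat_lit 18643303), (nat_lit 12552662)] (nat_lit 7256705)) p13_14_2 (nat_lit 4) (nat_lit 170) (nat_lit 171) = true := by decide +kernel
def p13_14_2_171 : pfC (piC [(nat_lit 38167130), (nat_lit 25010362), (nat_lit 18643303), (nat_lit 12552662)] (nat_lit 7256705)) p13_14_2 (nat_lit 4) (nat_lit 171) (nat_lit 172) = true := by decide +kernel
def p13_14_2_172 : pfC (piC [(nat_lit 38167130), (nat_lit 25010362), (nat_lit 18643303), (nat_lit 12552662)] (nat_lit 7256705)) p13_14_2 (nat_lit 4) (nat_lit 172) (nat_lit 173) = true := by decide +kernel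
def p13_14_2_173 : pfC (piC [(nat_lit 38167130), (nat_lit 25010362), (nat_lit 18643303), (nat_lit 12552662)] (nat_lit 7256705)) p13_14_2 (nat_lit 4) (nat_lit 173) (nat_lit 174) = true := by decide +kernel
def p13_14_2_174 : pfC (piC [(nat_lit 38167130), (nat_lit 25010362), (nat_lit 18643303), (nat_lit 12552662)] (nat_lit 7256705)) p13_14_2 (nat_lit 4) (nat_lit 174) (nat_lit 175) = true := by decide +kernel
theorem p13_14_2_T : PfS (PiF n13_14.reverse (nat_lit 7256705)) p13_14_2 (nat_lit 4) [] 0 :=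
  pftab_of (los := [(nat_lit 38167130), (nat_lit 25010362), (nat_lit 18643303), (nat_lit 12552662)]) (by decide +kernel) (hi := (nat_lit 175)) (PfP.trans (PfP.trans (PfP.trans (PfP.trans (PfP.trans (PfP.trans (PfP.trans (PfP.trans (PfP.trans (PfP.trans (PfP.trans (PfP.trans (PfP.trans (PfP.trans (PfP.trans (PfP.trans (PfP.trans (PfP.trans (PfP.trans (PfP.trans (PfP.trans (PfP.trans (PfP.trans (PfP.trans (PfP.trans (PfP.trans (PfP.trans (PfP.trans (PfP.trans (PfP.trans (PfP.trans (PfP.trans (PfP.trans (PfP.trans (PfP.trans (PfP.trans (PfP.trans (PfP.trans (PfP.trans (PfP.trans (PfP.trans (PfP.trans (PfP.trans (PfP.trans (PfP.trans (PfP.trans (PfP.trans (PfP.trans (PfP.trans (PfP.trans (PfP.trans (PfP.trans (PfP.trans (PfP.trans (PfP.trans (PfP.trans (PfP.trans (PfP.trans (PfP.trans (PfP.trans (PfP.trans (PfP.trans (PfP.trans (PfP.trans (PfP.trans (PfP.trans (PfP.trans (PfP.trans (PfP.trans (PfP.trans (PfP.trans (PfP.trans (PfP.trans (PfP.trans (PfP.trans (PfP.trans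 (PfP.trans (PfP.trans (PfP.trans (PfP.trans (PfP.trans (PfP.trans (PfP.trans (PfP.trans (PfP.trans (PfP.trans (PfP.trans (PfP.trans (PfP.trans (PfP.trans (PfP.trans (PfP.trans (PfP.trans (PfP.trans (PfP.trans (PfP.trans (PfP.trans (PfP.trans (PfP.trans (PfP.trans (PfP.trans (PfP.trans (PfP.trans (PfP.trans (PfP.trans (PfP.trans (PfP.trans (PfP.trans (PfP.trans
 (PfP.trans (PfP.trans (PfP.trans (PfP.trans (PfP.trans (PfP.trans (PfP.trans (PfP.trans (PfP.trans (PfP.trans (PfP.trans (PfP.trans (PfP.trans (PfP.trans (PfP.trans (PfP.trans (PfP.trans (PfP.trans (PfP.trans (PfP.trans (PfP.trans (PfP.trans (PfP.trans (PfP.trans (PfP.trans (PfP.trans (PfP.trans (PfP.trans (PfP.trans (PfP.trans (PfP.trans (PfP.trans (PfP.trans (PfP.trans (PfP.trans (PfP.trans (PfP.trans (PfP.trans (PfP.trans (PfP.trans (PfP.trans (PfP.trans (PfP.trans (PfP.trans (PfP.trans (PfP.trans (PfP.trans (PfP.trans (PfP.trans (PfP.trans (PfP.trans (PfP.trans (PfP.trans (PfP.trans (PfP.trans (PfP.trans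 (PfP.trans (PfP.trans (PfP.trans (PfP.trans (PfP.trans (PfP.trans (PfP.trans (PfP.trans (PfP.trans (pfC_sound p13_14_2_0) (pfC_sound p13_14_2_1)) (pfC_sound p13_14_2_2)) (pfC_sound p13_14_2_3)) (pfC_sound p13_14_2_4)) (pfC_sound p13_14_2_5)) (pfC_sound p13_14_2_6)) (pfC_sound p13_14_2_7)) (pfC_sound p13_14_2_8)) (pfC_sound p13_14_2_9)) (pfC_sound p13_14_2_10)) (pfC_sound p13_14_2_11)) (pfC_sound p13_14_2_12)) (pfC_sound p13_14_2_13)) (pfC_sound p13_14_2_14)) (pfC_sound p13_14_2_15)) (pfC_sound p13_14_2_16)) (pfC_sound p13_14_2_17)) (pfC_sound p13_14_2_18)) (pfC_sound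
 p13_14_2_19)) (pfC_sound p13_14_2_20)) (pfC_sound p13_14_2_21)) (pfC_sound p13_14_2_22)) (pfC_sound p13_14_2_23)) (pfC_sound p13_14_2_24)) (pfC_sound p13_14_2_25)) (pfC_sound p13_14_2_26)) (pfC_sound p13_14_2_27)) (pfC_sound p13_14_2_28)) (pfC_sound p13_14_2_29)) (pfC_sound p13_14_2_30)) (pfC_sound p13_14_2_31)) (pfC_sound p13_14_2_32)) (pfC_sound p13_14_2_33)) (pfC_sound p13_14_2_34)) (pfC_sound p13_14_2_35)) (pfC_sound p13_14_2_36)) (pfC_sound p13_14_2_37)) (pfC_sound p13_14_2_38)) (pfC_sound p13_14_2_39)) (pfC_sound p13_14_2_40)) (pfC_sound p13_14_2_41)) (pfC_sound p13_14_2_42)) (pfC_sound p13_14_2_43)) (pfC_sound p13_14_2_44)) (pfC_sound p13_14_2_45)) (pfC_sound p13_14_2_46)) (pfC_sound p13_14_2_47)) (pfC_sound p13_14_2_48)) (pfC_sound p13_14_2_49)) (pfC_sound p13_14_2_50)) (pfC_sound p13_14_2_51)) (pfC_sound p13_14_2_52)) (pfC_sound p13_14_2_53)) (pfC_sound p13_14_2_54)) (pfC_sound p13_14_2_55)) (pfC_sound p13_14_2_56)) (pfC_sound p13_14_2_57)) (pfC_sound p13_14_2_58))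 (pfC_sound p13_14_2_59)) (pfC_sound p13_14_2_60)) (pfC_sound p13_14_2_61)) (pfC_sound p13_14_2_62)) (pfC_sound p13_14_2_63)) (pfC_sound p13_14_2_64)) (pfC_sound p13_14_2_65)) (pfC_sound p13_14_2_66)) (pfC_sound
 p13_14_2_67)) (pfC_sound p13_14_2_68)) (pfC_sound p13_14_2_69)) (pfC_sound p13_14_2_70)) (pfC_sound p13_14_2_71)) (pfC_sound p13_14_2_72)) (pfC_sound p13_14_2_73)) (pfC_sound p13_14_2_74)) (pfC_sound p13_14_2_75)) (pfC_sound p13_14_2_76)) (pfC_sound p13_14_2_77)) (pfC_sound p13_14_2_78)) (pfC_sound p13_14_2_79)) (pfC_sound p13_14_2_80)) (pfC_sound p13_14_2_81)) (pfC_sound p13_14_2_82)) (pfC_sound p13_14_2_83)) (pfC_sound p13_14_2_84)) (pfC_sound p13_14_2_85)) (pfC_sound p13_14_2_86)) (pfC_sound p13_14_2_87)) (pfC_sound p13_14_2_88)) (pfC_sound p13_14_2_89)) (pfC_sound p13_14_2_90)) (pfC_sound p13_14_2_91)) (pfC_sound p13_14_2_92)) (pfC_sound p13_14_2_93)) (pfC_sound p13_14_2_94)) (pfC_sound p13_14_2_95)) (pfC_sound p13_14_2_96)) (pfC_sound p13_14_2_97)) (pfC_sound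 p13_14_2_98)) (pfC_sound p13_14_2_99)) (pfC_sound p13_14_2_100)) (pfC_sound p13_14_2_101)) (pfC_sound p13_14_2_102)) (pfC_sound p13_14_2_103)) (pfC_sound p13_14_2_104)) (pfC_sound p13_14_2_105)) (pfC_sound p13_14_2_106)) (pfC_sound p13_14_2_107)) (pfC_sound p13_14_2_108)) (pfC_sound p13_14_2_109)) (pfC_sound p13_14_2_110)) (pfC_sound p13_14_2_111)) (pfC_sound p13_14_2_112)) (pfC_sound p13_14_2_113)) (pfC_sound
 p13_14_2_114)) (pfC_sound p13_14_2_115)) (pfC_sound p13_14_2_116)) (pfC_sound p13_14_2_117)) (pfC_sound p13_14_2_118)) (pfC_sound p13_14_2_119)) (pfC_sound p13_14_2_120)) (pfC_sound p13_14_2_121)) (pfC_sound p13_14_2_122)) (pfC_sound p13_14_2_123)) (pfC_sound p13_14_2_124)) (pfC_sound p13_14_2_125)) (pfC_sound p13_14_2_126)) (pfC_sound p13_14_2_127)) (pfC_sound p13_14_2_128)) (pfC_sound p13_14_2_129)) (pfC_sound p13_14_2_130)) (pfC_sound p13_14_2_131)) (pfC_sound p13_14_2_132)) (pfC_sound p13_14_2_133)) (pfC_sound p13_14_2_134)) (pfC_sound p13_14_2_135)) (pfC_sound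 p13_14_2_136)) (pfC_sound p13_14_2_137)) (pfC_sound p13_14_2_138)) (pfC_sound p13_14_2_139)) (pfC_sound p13_14_2_140)) (pfC_sound p13_14_2_141)) (pfC_sound p13_14_2_142)) (pfC_sound p13_14_2_143)) (pfC_sound p13_14_2_144)) (pfC_sound p13_14_2_145)) (pfC_sound p13_14_2_146)) (pfC_sound p13_14_2_147)) (pfC_sound p13_14_2_148)) (pfC_sound p13_14_2_149)) (pfC_sound p13_14_2_150)) (pfC_sound p13_14_2_151)) (pfC_sound p13_14_2_152)) (pfC_sound p13_14_2_153)) (pfC_sound p13_14_2_154)) (pfC_sound p13_14_2_155)) (pfC_sound p13_14_2_156)) (pfC_sound p13_14_2_157)) (pfC_sound p13_14_2_158)) (pfC_sound p13_14_2_159)) (pfC_sound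
 p13_14_2_160)) (pfC_sound p13_14_2_161)) (pfC_sound p13_14_2_162)) (pfC_sound p13_14_2_163)) (pfC_sound p13_14_2_164)) (pfC_sound p13_14_2_165)) (pfC_sound p13_14_2_166)) (pfC_sound p13_14_2_167)) (pfC_sound p13_14_2_168)) (pfC_sound p13_14_2_169)) (pfC_sound p13_14_2_170)) (pfC_sound p13_14_2_171)) (pfC_sound p13_14_2_172)) (pfC_sound p13_14_2_173)) (pfC_sound p13_14_2_174)) (by decide +kernel)

def z13_14_2 : zOK yB13_14 (nat_lit 2) (nat_lit 600) (nat_lit 750) (nat_lit 7256705) (nat_lit 5327306) = true := by decide +kernel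
def g13_14_2 : gOK yB13_14.x P13_14 (nat_lit 1412) (q13_14 :: r13_14) (nat_lit 2) (nat_lit 600) (nat_lit 3) (nat_lit 750) (nat_lit 12712500) (nat_lit 12712500) (nat_lit 12712500) (nat_lit 12712500) [(nat_lit 800), (nat_lit 1600)] = true := by decide +kernel
def v13_14_2 : ivC P13_14 s13_14 w13_14 n13_14 (nat_lit 4) (nat_lit 4780) (nat_lit 2) (nat_lit 600) f160_1_600 f168_1_600 (nat_lit 3) (nat_lit 750) f160_1_750 f168_1_750 (nat_lit 7256705) (nat_lit 5327306) p13_14_2 = true := by decide +kernel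
def p13_14_3 : PF := (PF.cons (PF.cons (PF.cons (PF.cons (PF.leaf (nat_lit 2890761) (nat_lit 17779259) (nat_lit 49329553) (nat_lit 17779259) [(nat_lit 0), (nat_lit 0), (nat_lit 0), (nat_lit 0)]) (PF.cons (PF.leaf (nat_lit 3063655) (nat_lit 309604) (nat_lit 49054210) (nat_lit 17744997) [(nat_lit 309604), (nat_lit 0), (nat_lit 0), (nat_lit 0)]) (PF.cons (PF.leaf (nat_lit 3267528) (nat_lit 336077) (nat_lit 48733004) (nat_lit 17703652) [(nat_lit 336077), (nat_lit 0), (nat_lit 0), (nat_lit 0)]) (PF.cons (PF.leaf (nat_lit 3495748) (nat_lit 359354) (nat_lit 48374893) (nat_lit 17655857) [(nat_lit 359354), (nat_lit 0), (nat_lit 0), (nat_lit 0)]) (PF.cons (PF.leaf (nat_lit 3744666) (nat_lit 380132) (nat_lit 47986271) (nat_lit 17602012) [(nat_lit 380132), (nat_lit 0), (nat_lit 0), (nat_lit 0)]) (PF.cons (PF.leaf (nat_lit 4011310) (nat_lit 398862) (nat_lit 47572092) (nat_lit 17542410) [(nat_lit 398862), (nat_lit 0), (nat_lit 0), (nat_lit 0)]) (PF.cons (PF.leaf (nat_lit 4293358)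 (nat_lit 415854) (nat_lit 47136390) (nat_lit 17477295) [(nat_lit 415854), (nat_lit 0), (nat_lit 0), (nat_lit 0)]) (PF.cons (PF.leaf (nat_lit 4588833) (nat_lit 431337) (nat_lit 46682560) (nat_lit 17406893) [(nat_lit 431337), (nat_lit 0),
 (nat_lit 0), (nat_lit 0)]) (PF.cons (PF.leaf (nat_lit 4896005) (nat_lit 445483) (nat_lit 46213521) (nat_lit 17331423) [(nat_lit 445483), (nat_lit 0), (nat_lit 0), (nat_lit 0)]) (PF.cons (PF.leaf (nat_lit 5213333) (nat_lit 458430) (nat_lit 45731825) (nat_lit 17251109) [(nat_lit 458430), (nat_lit 0), (nat_lit 0), (nat_lit 0)]) (PF.cons PF.nil (PF.cons PF.nil PF.nil)))))))))))) (PF.cons (PF.cons (PF.leaf (nat_lit 3445961) (nat_lit 1335526) (nat_lit 48152039) (nat_lit 17621246) [(nat_lit 0), (nat_lit 1335526), (nat_lit 0), (nat_lit 0)]) (PF.cons (PF.leaf (nat_lit 3666558) (nat_lit 368722) (nat_lit 47799948) (nat_lit 17571439) [(nat_lit 368722), (nat_lit 1368703), (nat_lit 0), (nat_lit 0)]) (PF.cons (PF.leaf (nat_lit 3909994) (nat_lit 388738)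 (nat_lit 47415486) (nat_lit 17515197) [(nat_lit 388738), (nat_lit 1400653), (nat_lit 0), (nat_lit 0)]) (PF.cons (PF.leaf (nat_lit 4171980) (nat_lit 406708) (nat_lit 47004754) (nat_lit 17453012) [(nat_lit 406708), (nat_lit 1430920), (nat_lit 0), (nat_lit 0)]) (PF.cons (PF.leaf (nat_lit 4449799) (nat_lit 422973) (nat_lit 46572366) (nat_lit 17385248) [(nat_lit 422973), (nat_lit 1459305), (nat_lit 0), (nat_lit 0)]) (PF.cons (PF.leaf (nat_lit 4741257)
 (nat_lit 437768) (nat_lit 46122021) (nat_lit 17312209) [(nat_lit 437768), (nat_lit 1485738), (nat_lit 0), (nat_lit 0)]) (PF.cons (PF.leaf (nat_lit 5044506) (nat_lit 451270) (nat_lit 45656799) (nat_lit 17234168) [(nat_lit 451270), (nat_lit 1510220), (nat_lit 0), (nat_lit 0)]) (PF.cons (PF.leaf (nat_lit 5357977) (nat_lit 463615) (nat_lit 45179328) (nat_lit 17151388) [(nat_lit 463615), (nat_lit 1532788), (nat_lit 0), (nat_lit 0)]) (PF.cons (PF.leaf (nat_lit 5680252) (nat_lit 474912) (nat_lit 44691888) (nat_lit 17064124) [(nat_lit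 474912), (nat_lit 1553501), (nat_lit 0), (nat_lit 0)]) (PF.cons PF.nil PF.nil)))))))))) (PF.cons (PF.cons (PF.leaf (nat_lit 4078426) (nat_lit 1426515) (nat_lit 46833385) (nat_lit 17422395) [(nat_lit 0), (nat_lit 1426515), (nat_lit 0), (nat_lit 0)]) (PF.cons (PF.leaf (nat_lit 4333609) (nat_lit 413320) (nat_lit 46429919) (nat_lit 17358346) [(nat_lit 413320), (nat_lit 1453613), (nat_lit 0), (nat_lit 0)]) (PF.cons (PF.leaf (nat_lit 4606110) (nat_lit 429057) (nat_lit 46003670) (nat_lit 17288516) [(nat_lit 429057), (nat_lit 1479255), (nat_lit 0), (nat_lit 0)]) (PF.cons (PF.leaf (nat_lit 4892781) (nat_lit 443314) (nat_lit 45558991) (nat_lit 17213335) [(nat_lit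
 443314), (nat_lit 1503271), (nat_lit 0), (nat_lit 0)]) (PF.cons (PF.leaf (nat_lit 5191551) (nat_lit 456286) (nat_lit 45099317) (nat_lit 17133159) [(nat_lit 456286), (nat_lit 1525595), (nat_lit 0), (nat_lit 0)]) (PF.cons (PF.leaf (nat_lit 5500721) (nat_lit 468119) (nat_lit 44627474) (nat_lit 17048304) [(nat_lit 468119), (nat_lit 1546218), (nat_lit 0), (nat_lit 0)]) (PF.cons (PF.leaf (nat_lit 5818803) (nat_lit 478927) (nat_lit 44145851) (nat_lit 16959064) [(nat_lit 478927), (nat_lit 1565165), (nat_lit 0), (nat_lit 0)]) (PF.cons PF.nil (PF.cons PF.nil PF.nil))))))))) (PF.cons (PF.cons (PF.leaf (nat_lit 4763881) (nat_lit 1497274) (nat_lit 45429929) (nat_lit 17187059) [(nat_lit 0), (nat_lit 1497274), (nat_lit 0), (nat_lit 0)]) (PF.cons (PF.leaf (nat_lit 5044253) (nat_lit 447995) (nat_lit 44993374) (nat_lit 17110313) [(nat_lit 447995), (nat_lit 1519042), (nat_lit 0), (nat_lit 0)]) (PF.cons (PF.leaf (nat_lit 5337817) (nat_lit 460555) (nat_lit 44541122) (nat_lit 17028488)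 [(nat_lit 460555), (nat_lit 1539363), (nat_lit 0), (nat_lit 0)]) (PF.cons (PF.leaf (nat_lit 5642134) (nat_lit 471968) (nat_lit 44076380) (nat_lit 16941982) [(nat_lit 471968), (nat_lit 1558181), (nat_lit 0), (nat_lit 0)])
 (PF.cons (PF.leaf (nat_lit 5955595) (nat_lit 482361) (nat_lit 43601756) (nat_lit 16851141) [(nat_lit 482361), (nat_lit 1575489), (nat_lit 0), (nat_lit 0)]) (PF.cons (PF.leaf (nat_lit 6276841) (nat_lit 491834) (nat_lit 43119432) (nat_lit 16756285) [(nat_lit 491834), (nat_lit 1591306), (nat_lit 0), (nat_lit 0)]) (PF.cons PF.nil PF.nil))))))) (PF.cons (PF.cons (PF.leaf (nat_lit 5484490) (nat_lit 1551670) (nat_lit 43981947) (nat_lit 16920181) [(nat_lit 0), (nat_lit 1551670), (nat_lit 0), (nat_lit 0)]) (PF.cons (PF.leaf (nat_lit 5782861) (nat_lit 475174) (nat_lit 43525942) (nat_lit 16832494) [(nat_lit 475174), (nat_lit 1568800), (nat_lit 0), (nat_lit 0)]) (PF.cons (PF.leaf (nat_lit 6091199) (nat_lit 485230) (nat_lit 43059585) (nat_lit 16740460) [(nat_lit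 485230), (nat_lit 1584576), (nat_lit 0), (nat_lit 0)]) (PF.cons (PF.leaf (nat_lit 6407587) (nat_lit 494362) (nat_lit 42585288) (nat_lit 16644450) [(nat_lit 494362), (nat_lit 1598996), (nat_lit 0), (nat_lit 0)]) (PF.cons PF.nil PF.nil))))) (PF.cons (PF.cons (PF.leaf (nat_lit 6226534) (nat_lit 1592522) (nat_lit 42519123) (nat_lit 16627076) [(nat_lit 0), (nat_lit 1592522), (nat_lit 0), (nat_lit 0)]) (PF.cons (PF.leaf (nat_lit 6537222)
 (nat_lit 496395) (nat_lit 42053954) (nat_lit 16530298) [(nat_lit 496395), (nat_lit 1605632), (nat_lit 0), (nat_lit 0)]) (PF.cons (PF.leaf (nat_lit 6855356) (nat_lit 504413) (nat_lit 41582500) (nat_lit 16429903) [(nat_lit 504413), (nat_lit 1617516), (nat_lit 0), (nat_lit 0)]) (PF.cons PF.nil PF.nil)))) (PF.cons (PF.cons (PF.leaf (nat_lit 6979312) (nat_lit 1622047) (nat_lit 41063431) (nat_lit 16313095) [(nat_lit 0), (nat_lit 1622047), (nat_lit 0), (nat_lit 0)]) (PF.cons PF.nil PF.nil)) (PF.cons PF.nil (PF.cons PF.nil PF.nil))))))))) (PF.cons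 (PF.cons (PF.cons (PF.leaf (nat_lit 3978747) (nat_lit 3375541) (nat_lit 46398995) (nat_lit 17334275) [(nat_lit 0), (nat_lit 0), (nat_lit 3375541), (nat_lit 0)]) (PF.cons (PF.leaf (nat_lit 4207538) (nat_lit 391600) (nat_lit 46040061) (nat_lit 17275790) [(nat_lit 391600), (nat_lit 0), (nat_lit 3401359), (nat_lit 0)]) (PF.cons (PF.leaf (nat_lit 4457917) (nat_lit 410072) (nat_lit 45651289) (nat_lit 17210686) [(nat_lit 410072), (nat_lit 0), (nat_lit 3426692), (nat_lit 0)]) (PF.cons (PF.leaf (nat_lit 4725436) (nat_lit 426428) (nat_lit 45238959) (nat_lit 17139673) [(nat_lit 426428), (nat_lit 0), (nat_lit 3450894), (nat_lit 0)]) (PF.cons (PF.leaf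
 (nat_lit 5007351) (nat_lit 441069) (nat_lit 44807699) (nat_lit 17063274) [(nat_lit 441069), (nat_lit 0), (nat_lit 3473562), (nat_lit 0)]) (PF.cons (PF.leaf (nat_lit 5301527) (nat_lit 454264) (nat_lit 44361130) (nat_lit 16981907) [(nat_lit 454264), (nat_lit 0), (nat_lit 3494449), (nat_lit 0)]) (PF.cons (PF.leaf (nat_lit 5606131) (nat_lit 466210) (nat_lit 43902204) (nat_lit 16895935) [(nat_lit 466210), (nat_lit 0), (nat_lit 3513408), (nat_lit 0)]) (PF.cons (PF.leaf (nat_lit 5919707) (nat_lit 477053) (nat_lit 43433386) (nat_lit 16805685) [(nat_lit 477053), (nat_lit 0), (nat_lit 3530364), (nat_lit 0)]) (PF.cons PF.nil (PF.cons PF.nil PF.nil)))))))))) (PF.cons (PF.cons (PF.leaf (nat_lit 4620321) (nat_lit 1474633) (nat_lit 45077513) (nat_lit 17107426) [(nat_lit 0), (nat_lit 1474633), (nat_lit 3449239), (nat_lit 0)]) (PF.cons (PF.leaf (nat_lit 4880187) (nat_lit 431010) (nat_lit 44675045) (nat_lit 17035439) [(nat_lit 431010), (nat_lit 1497161), (nat_lit 3470156), (nat_lit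 0)]) (PF.cons (PF.leaf (nat_lit 5156078) (nat_lit 445312) (nat_lit 44252219) (nat_lit 16957819) [(nat_lit 445312), (nat_lit 1518321), (nat_lit 3489827), (nat_lit 0)]) (PF.cons (PF.leaf (nat_lit 5444864) (nat_lit 458131)
 (nat_lit 43813337) (nat_lit 16875125) [(nat_lit 458131), (nat_lit 1537998), (nat_lit 3507956), (nat_lit 0)]) (PF.cons (PF.leaf (nat_lit 5744551) (nat_lit 469689) (nat_lit 43361732) (nat_lit 16787806) [(nat_lit 469689), (nat_lit 1556152), (nat_lit 3524365), (nat_lit 0)]) (PF.cons (PF.leaf (nat_lit 6053430) (nat_lit 480146) (nat_lit 42900090) (nat_lit 16696242) [(nat_lit 480146), (nat_lit 1572792), (nat_lit 3538957), (nat_lit 0)]) (PF.cons (PF.leaf (nat_lit 6370111) (nat_lit 489626) (nat_lit 42430643) (nat_lit 16600776) [(nat_lit 489626), (nat_lit 1587949), (nat_lit 3551685), (nat_lit 0)]) (PF.cons PF.nil (PF.cons PF.nil PF.nil))))))))) (PF.cons (PF.cons (PF.leaf (nat_lit 5306411) (nat_lit 1531444) (nat_lit 43693900) (nat_lit 16848427) [(nat_lit 0),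 (nat_lit 1531444), (nat_lit 3503596), (nat_lit 0)]) (PF.cons (PF.leaf (nat_lit 5588400) (nat_lit 461261) (nat_lit 43264829) (nat_lit 16764970) [(nat_lit 461261), (nat_lit 1549302), (nat_lit 3519146), (nat_lit 0)]) (PF.cons (PF.leaf (nat_lit 5882409) (nat_lit 472534) (nat_lit 42822129) (nat_lit 16676765) [(nat_lit 472534), (nat_lit 1565834), (nat_lit 3533180), (nat_lit 0)]) (PF.cons (PF.leaf (nat_lit 6186091) (nat_lit 482685) (nat_lit
 42368882) (nat_lit 16584283) [(nat_lit 482685), (nat_lit 1581008), (nat_lit 3545572), (nat_lit 0)]) (PF.cons (PF.leaf (nat_lit 6497904) (nat_lit 491853) (nat_lit 41907553) (nat_lit 16487921) [(nat_lit 491853), (nat_lit 1594831), (nat_lit 3556261), (nat_lit 0)]) (PF.cons PF.nil (PF.cons PF.nil PF.nil))))))) (PF.cons (PF.cons (PF.leaf (nat_lit 6020884) (nat_lit 1574347) (nat_lit 42282966) (nat_lit 16562805) [(nat_lit 0), (nat_lit 1574347), (nat_lit 3539997), (nat_lit 0)]) (PF.cons (PF.leaf (nat_lit 6318321) (nat_lit 484672) (nat_lit 41839512)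 (nat_lit 16469848) [(nat_lit 484672), (nat_lit 1588145), (nat_lit 3550342), (nat_lit 0)]) (PF.cons (PF.leaf (nat_lit 6624749) (nat_lit 493596) (nat_lit 41387361) (nat_lit 16372964) [(nat_lit 493596), (nat_lit 1600719), (nat_lit 3559134), (nat_lit 0)]) (PF.cons (PF.leaf (nat_lit 6938321) (nat_lit 501633) (nat_lit 40928783) (nat_lit 16272557) [(nat_lit 501633), (nat_lit 1612078), (nat_lit 3566338), (nat_lit 0)]) (PF.cons PF.nil PF.nil))))) (PF.cons (PF.cons (PF.leaf (nat_lit 6751560) (nat_lit 1605682) (nat_lit 40869745) (nat_lit 16255927) [(nat_lit 0), (nat_lit 1605682), (nat_lit 3560411), (nat_lit 0)]) (PF.cons (PF.leaf (nat_lit 7059289)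
 (nat_lit 502695) (nat_lit 40420898) (nat_lit 16155359) [(nat_lit 502695), (nat_lit 1615969), (nat_lit 3565981), (nat_lit 0)]) (PF.cons (PF.leaf (nat_lit 7373647) (nat_lit 509730) (nat_lit 39967028) (nat_lit 16051617) [(nat_lit 509730), (nat_lit 1625157), (nat_lit 3570077), (nat_lit 0)]) (PF.cons PF.nil PF.nil)))) (PF.cons (PF.cons (PF.leaf (nat_lit 7489074) (nat_lit 1627328) (nat_lit 39472375) (nat_lit 15932860) [(nat_lit 0), (nat_lit 1627328), (nat_lit 3566932), (nat_lit 0)]) (PF.cons PF.nil PF.nil)) (PF.cons PF.nil (PF.cons PF.nil PF.nil)))))))) (PF.cons (PF.cons (PF.cons (PF.leaf (nat_lit 5149074) (nat_lit 3482761) (nat_lit 43373393) (nat_lit 16769895) [(nat_lit 0), (nat_lit 0), (nat_lit 3482761), (nat_lit 0)]) (PF.cons (PF.leaf (nat_lit 5411614) (nat_lit 444683) (nat_lit 42976618) (nat_lit 16691731) [(nat_lit 444683), (nat_lit 0), (nat_lit 3497890), (nat_lit 0)]) (PF.cons (PF.leaf (nat_lit 5689049) (nat_lit 457728) (nat_lit 42561592) (nat_lit 16608154) [(nat_lit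 457728), (nat_lit 0), (nat_lit 3511804), (nat_lit 0)]) (PF.cons (PF.leaf (nat_lit 5978315) (nat_lit 469298) (nat_lit 42132517) (nat_lit 16519819) [(nat_lit 469298), (nat_lit 0), (nat_lit 3524289), (nat_lit 0)])
 (PF.cons (PF.leaf (nat_lit 6277382) (nat_lit 479634) (nat_lit 41692587) (nat_lit 16427241) [(nat_lit 479634), (nat_lit 0), (nat_lit 3535223), (nat_lit 0)]) (PF.cons (PF.leaf (nat_lit 6584649) (nat_lit 488908) (nat_lit 41244343) (nat_lit 16330846) [(nat_lit 488908), (nat_lit 0), (nat_lit 3544541), (nat_lit 0)]) (PF.cons PF.nil (PF.cons PF.nil (PF.cons PF.nil PF.nil))))))))) (PF.cons (PF.cons (PF.leaf (nat_lit 5831883) (nat_lit 1554813) (nat_lit 42022561) (nat_lit 16493251) [(nat_lit 0), (nat_lit 1554813), (nat_lit 3519093), (nat_lit 0)]) (PF.cons (PF.leaf (nat_lit 6113968) (nat_lit 471172) (nat_lit 41604360) (nat_lit 16404840) [(nat_lit 471172), (nat_lit 1569420), (nat_lit 3529509), (nat_lit 0)]) (PF.cons (PF.leaf (nat_lit 6407075) (nat_lit 481326) (nat_lit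 41174263) (nat_lit 16312028) [(nat_lit 481326), (nat_lit 1582801), (nat_lit 3538533), (nat_lit 0)]) (PF.cons (PF.leaf (nat_lit 6708921) (nat_lit 490384) (nat_lit 40735209) (nat_lit 16215333) [(nat_lit 490384), (nat_lit 1594946), (nat_lit 3546084), (nat_lit 0)]) (PF.cons (PF.leaf (nat_lit 7017998) (nat_lit 498495) (nat_lit 40289519) (nat_lit 16115185) [(nat_lit 498495), (nat_lit 1605874), (nat_lit 3552125), (nat_lit 0)]) (PF.cons
 PF.nil (PF.cons PF.nil PF.nil))))))) (PF.cons (PF.cons (PF.leaf (nat_lit 6537569) (nat_lit 1588266) (nat_lit 40657329) (nat_lit 16194499) [(nat_lit 0), (nat_lit 1588266), (nat_lit 3540225), (nat_lit 0)]) (PF.cons (PF.leaf (nat_lit 6832965) (nat_lit 491379) (nat_lit 40228677) (nat_lit 16097918) [(nat_lit 491379), (nat_lit 1599285), (nat_lit 3546134), (nat_lit 0)]) (PF.cons (PF.leaf (nat_lit 7136524) (nat_lit 499323) (nat_lit 39792675) (nat_lit 15997804) [(nat_lit 499323), (nat_lit 1609189), (nat_lit 3550653), (nat_lit 0)]) (PF.cons (PF.leaf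 (nat_lit 7446454) (nat_lit 506413) (nat_lit 39351451) (nat_lit 15894584) [(nat_lit 506413), (nat_lit 1617998), (nat_lit 3553769), (nat_lit 0)]) (PF.cons PF.nil PF.nil))))) (PF.cons (PF.cons (PF.leaf (nat_lit 7255243) (nat_lit 1611747) (nat_lit 39298941) (nat_lit 15878855) [(nat_lit 0), (nat_lit 1611747), (nat_lit 3547886), (nat_lit 0)]) (PF.cons (PF.leaf (nat_lit 7559249) (nat_lit 506685) (nat_lit 38867730) (nat_lit 15775968) [(nat_lit 506685), (nat_lit 1619678), (nat_lit 3549697), (nat_lit 0)]) (PF.cons PF.nil (PF.cons PF.nil PF.nil)))) (PF.cons (PF.cons (PF.leaf (nat_lit 7976659) (nat_lit 1626889) (nat_lit 37962450) (nat_lit 15551014)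
 [(nat_lit 0), (nat_lit 1626889), (nat_lit 3543895), (nat_lit 0)]) (PF.cons PF.nil PF.nil)) (PF.cons PF.nil PF.nil)))))) (PF.cons (PF.cons (PF.cons (PF.leaf (nat_lit 6339667) (nat_lit 3519600) (nat_lit 40422191) (nat_lit 16127819) [(nat_lit 0), (nat_lit 0), (nat_lit 3519600), (nat_lit 0)]) (PF.cons (PF.leaf (nat_lit 6620652) (nat_lit 478333) (nat_lit 40017107) (nat_lit 16035961) [(nat_lit 478333), (nat_lit 0), (nat_lit 3525803), (nat_lit 0)]) (PF.cons (PF.leaf (nat_lit 6911818) (nat_lit 487505) (nat_lit 39601581) (nat_lit 15940044) [(nat_lit 487505), (nat_lit 0), (nat_lit 3530725), (nat_lit 0)]) (PF.cons (PF.leaf (nat_lit 7210913) (nat_lit 495611) (nat_lit 39178407) (nat_lit 15840616) [(nat_lit 495611), (nat_lit 0), (nat_lit 3534317), (nat_lit 0)]) (PF.cons (PF.leaf (nat_lit 7516481) (nat_lit 502806) (nat_lit 38749759) (nat_lit 15738127) [(nat_lit 502806), (nat_lit 0), (nat_lit 3536566), (nat_lit 0)]) PF.nil))))) (PF.cons (PF.cons (PF.leaf (nat_lit 7034624) (nat_lit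 1595138) (nat_lit 39107998) (nat_lit 15820642) [(nat_lit 0), (nat_lit 1595138), (nat_lit 3528344), (nat_lit 0)]) (PF.cons (PF.leaf (nat_lit 7327170) (nat_lit 495795) (nat_lit 38695508) (nat_lit 15721809) [(nat_lit
 495795), (nat_lit 1603823), (nat_lit 3530625), (nat_lit 0)]) (PF.cons (PF.leaf (nat_lit 7627151) (nat_lit 502886) (nat_lit 38276768) (nat_lit 15619805) [(nat_lit 502886), (nat_lit 1611491), (nat_lit 3531658), (nat_lit 0)]) (PF.cons PF.nil PF.nil)))) (PF.cons (PF.cons (PF.leaf (nat_lit 7738203) (nat_lit 1612105) (nat_lit 37807186) (nat_lit 15500332) [(nat_lit 0), (nat_lit 1612105), (nat_lit 3525694), (nat_lit 0)]) (PF.cons (PF.leaf (nat_lit 8037965) (nat_lit 508782) (nat_lit 37394248) (nat_lit 15396321) [(nat_lit 508782), (nat_lit 1618063), (nat_lit 3524444), (nat_lit 0)]) PF.nil)) (PF.cons PF.nil (PF.cons PF.nil PF.nil))))) (PF.cons (PF.cons (PF.cons (PF.leaf (nat_lit 7512439) (nat_lit 3506930) (nat_lit 37635572) (nat_lit 15445519) [(nat_lit 0), (nat_lit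 0), (nat_lit 3506930), (nat_lit 0)]) (PF.cons (PF.leaf (nat_lit 7801481) (nat_lit 498326) (nat_lit 37239958) (nat_lit 15345558) [(nat_lit 498326), (nat_lit 0), (nat_lit 3506242), (nat_lit 0)]) (PF.cons (PF.leaf (nat_lit 8097372) (nat_lit 504671) (nat_lit 36838992) (nat_lit 15242752) [(nat_lit 504671), (nat_lit 0), (nat_lit 3504431), (nat_lit 0)]) (PF.cons PF.nil PF.nil)))) (PF.cons (PF.cons (PF.leaf (nat_lit 8201233) (nat_lit
 1607874) (nat_lit 36393299) (nat_lit 15123841) [(nat_lit 0), (nat_lit 1607874), (nat_lit 3495949), (nat_lit 0)]) (PF.cons PF.nil PF.nil)) (PF.cons PF.nil PF.nil))) (PF.cons (PF.cons (PF.cons (PF.leaf (nat_lit 8645250) (nat_lit 3460352) (nat_lit 35054998) (nat_lit 14752054) [(nat_lit 0), (nat_lit 0), (nat_lit 3460352), (nat_lit 0)]) (PF.cons PF.nil PF.nil)) (PF.cons PF.nil PF.nil)) (PF.cons PF.nil (PF.cons PF.nil PF.nil)))))))) (PF.cons (PF.cons (PF.cons (PF.cons (PF.leaf (nat_lit 4838170) (nat_lit 8617259) (nat_lit 42083470) (nat_lit 16408083)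 [(nat_lit 0), (nat_lit 0), (nat_lit 0), (nat_lit 8617259)]) (PF.cons (PF.leaf (nat_lit 5063951) (nat_lit 399745) (nat_lit 41759612) (nat_lit 16342538) [(nat_lit 399745), (nat_lit 0), (nat_lit 0), (nat_lit 8606916)]) (PF.cons (PF.leaf (nat_lit 5309720) (nat_lit 416875) (nat_lit 41410255) (nat_lit 16270530) [(nat_lit 416875), (nat_lit 0), (nat_lit 0), (nat_lit 8594275)]) (PF.cons (PF.leaf (nat_lit 5571060) (nat_lit 431772) (nat_lit 41041171) (nat_lit 16193011) [(nat_lit 431772), (nat_lit 0), (nat_lit 0), (nat_lit 8579311)]) (PF.cons (PF.leaf (nat_lit 5845223) (nat_lit 444888) (nat_lit 40656566) (nat_lit 16110675) [(nat_lit 444888), (nat_lit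
 0), (nat_lit 0), (nat_lit 8562016)]) (PF.cons (PF.leaf (nat_lit 6130075) (nat_lit 456532) (nat_lit 40259681) (nat_lit 16024063) [(nat_lit 456532), (nat_lit 0), (nat_lit 0), (nat_lit 8542407)]) (PF.cons (PF.leaf (nat_lit 6423912) (nat_lit 466925) (nat_lit 39853114) (nat_lit 15933626) [(nat_lit 466925), (nat_lit 0), (nat_lit 0), (nat_lit 8520518)]) (PF.cons (PF.leaf (nat_lit 6725357) (nat_lit 476236) (nat_lit 39439003) (nat_lit 15839750) [(nat_lit 476236), (nat_lit 0), (nat_lit 0), (nat_lit 8496402)]) (PF.cons PF.nil (PF.cons PF.nil PF.nil)))))))))) (PF.cons (PF.cons (PF.leaf (nat_lit 5458097) (nat_lit 1478995) (nat_lit 40902003) (nat_lit 16159980) [(nat_lit 0), (nat_lit 1478995), (nat_lit 0), (nat_lit 8567833)]) (PF.cons (PF.leaf (nat_lit 5711231) (nat_lit 434483) (nat_lit 40543260) (nat_lit 16082712) [(nat_lit 434483), (nat_lit 1497072), (nat_lit 0), (nat_lit 8551283)]) (PF.cons (PF.leaf (nat_lit 5978875) (nat_lit 447371) (nat_lit 40167574) (nat_lit 16000338) [(nat_lit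 447371), (nat_lit 1513760), (nat_lit 0), (nat_lit 8532397)]) (PF.cons (PF.leaf (nat_lit 6257992) (nat_lit 458745) (nat_lit 39778794) (nat_lit 15913544) [(nat_lit 458745), (nat_lit 1529012), (nat_lit 0), (nat_lit
 8511224)]) (PF.cons (PF.leaf (nat_lit 6546649) (nat_lit 468854) (nat_lit 39379863) (nat_lit 15822863) [(nat_lit 468854), (nat_lit 1542843), (nat_lit 0), (nat_lit 8487823)]) (PF.cons (PF.leaf (nat_lit 6843222) (nat_lit 477880) (nat_lit 38973117) (nat_lit 15728734) [(nat_lit 477880), (nat_lit 1555296), (nat_lit 0), (nat_lit 8462260)]) (PF.cons (PF.leaf (nat_lit 7146414) (nat_lit 485960) (nat_lit 38560473) (nat_lit 15631533) [(nat_lit 485960), (nat_lit 1566427), (nat_lit 0), (nat_lit 8434613)]) (PF.cons PF.nil (PF.cons PF.nil PF.nil))))))))) (PF.cons (PF.cons (PF.leaf (nat_lit 6114289) (nat_lit 1521825) (nat_lit 39677420) (nat_lit 15887344) [(nat_lit 0), (nat_lit 1521825), (nat_lit 0), (nat_lit 8500398)]) (PF.cons (PF.leaf (nat_lit 6386352) (nat_lit 460335) (nat_lit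 39298431) (nat_lit 15800866) [(nat_lit 460335), (nat_lit 1535636), (nat_lit 0), (nat_lit 8477907)]) (PF.cons (PF.leaf (nat_lit 6669146) (nat_lit 470259) (nat_lit 38908359) (nat_lit 15710336) [(nat_lit 470259), (nat_lit 1548195), (nat_lit 0), (nat_lit 8453208)]) (PF.cons (PF.leaf (nat_lit 6960417) (nat_lit 479074) (nat_lit 38509897) (nat_lit 15616278) [(nat_lit 479074), (nat_lit 1559511), (nat_lit 0), (nat_lit 8426390)])
 (PF.cons (PF.leaf (nat_lit 7258689) (nat_lit 486933) (nat_lit 38105173) (nat_lit 15519122) [(nat_lit 486933), (nat_lit 1569618), (nat_lit 0), (nat_lit 8397545)]) (PF.cons PF.nil (PF.cons PF.nil PF.nil))))))) (PF.cons (PF.cons (PF.leaf (nat_lit 6792538) (nat_lit 1552673) (nat_lit 38438095) (nat_lit 15595980) [(nat_lit 0), (nat_lit 1552673), (nat_lit 0), (nat_lit 8416716)]) (PF.cons (PF.leaf (nat_lit 7077504) (nat_lit 479810) (nat_lit 38049005) (nat_lit 15502365) [(nat_lit 479810), (nat_lit 1562927), (nat_lit 0), (nat_lit 8388847)]) (PF.cons (PF.leaf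 (nat_lit 7370420) (nat_lit 487513) (nat_lit 37653005) (nat_lit 15405558) [(nat_lit 487513), (nat_lit 1572079), (nat_lit 0), (nat_lit 8358983)]) (PF.cons (PF.leaf (nat_lit 7669519) (nat_lit 494361) (nat_lit 37252038) (nat_lit 15305979) [(nat_lit 494361), (nat_lit 1580158), (nat_lit 0), (nat_lit 8327234)]) (PF.cons PF.nil PF.nil))))) (PF.cons (PF.cons (PF.leaf (nat_lit 7482503) (nat_lit 1573859) (nat_lit 37203593) (nat_lit 15290809) [(nat_lit 0), (nat_lit 1573859), (nat_lit 0), (nat_lit 8318970)]) (PF.cons (PF.leaf (nat_lit 7775864) (nat_lit 494423) (nat_lit 36811629) (nat_lit 15191822) [(nat_lit 494423), (nat_lit 1581129), (nat_lit 0),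
 (nat_lit 8286420)]) (PF.cons PF.nil (PF.cons PF.nil PF.nil)))) (PF.cons (PF.cons (PF.leaf (nat_lit 8176434) (nat_lit 1587136) (nat_lit 35987604) (nat_lit 14976066) [(nat_lit 0), (nat_lit 1587136), (nat_lit 0), (nat_lit 8209457)]) (PF.cons PF.nil PF.nil)) PF.nil)))))) (PF.cons (PF.cons (PF.cons (PF.leaf (nat_lit 5946573) (nat_lit 3420490) (nat_lit 39410540) (nat_lit 15812949) [(nat_lit 0), (nat_lit 0), (nat_lit 3420490), (nat_lit 8464832)]) (PF.cons (PF.leaf (nat_lit 6200725) (nat_lit 443915) (nat_lit 39059727) (nat_lit 15732294) [(nat_lit 443915), (nat_lit 0), (nat_lit 3429115), (nat_lit 8443760)]) (PF.cons (PF.leaf (nat_lit 6468453) (nat_lit 455693) (nat_lit 38693650) (nat_lit 15646797) [(nat_lit 455693), (nat_lit 0), (nat_lit 3436581), (nat_lit 8420396)]) (PF.cons (PF.leaf (nat_lit 6746747) (nat_lit 465991) (nat_lit 38316018) (nat_lit 15557190) [(nat_lit 465991), (nat_lit 0), (nat_lit 3442768), (nat_lit 8394860)]) (PF.cons (PF.leaf (nat_lit 7033695) (nat_lit 475067)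 (nat_lit 37929628) (nat_lit 15464036) [(nat_lit 475067), (nat_lit 0), (nat_lit 3447619), (nat_lit 8367258)]) (PF.cons (PF.leaf (nat_lit 7327781) (nat_lit 483107) (nat_lit 37536674) (nat_lit 15367791) [(nat_lit
 483107), (nat_lit 0), (nat_lit 3451115), (nat_lit 8337691)]) (PF.cons PF.nil PF.nil))))))) (PF.cons (PF.cons (PF.leaf (nat_lit 6596962) (nat_lit 1533497) (nat_lit 38223062) (nat_lit 15531788) [(nat_lit 0), (nat_lit 1533497), (nat_lit 3436773), (nat_lit 8383691)]) (PF.cons (PF.leaf (nat_lit 6868005) (nat_lit 466630) (nat_lit 37855739) (nat_lit 15442961) [(nat_lit 466630), (nat_lit 1544748), (nat_lit 3441481), (nat_lit 8357252)]) (PF.cons (PF.leaf (nat_lit 7148991) (nat_lit 475606) (nat_lit 37478640) (nat_lit 15350390) [(nat_lit 475606), (nat_lit 1554852), (nat_lit 3444973), (nat_lit 8328742)]) (PF.cons (PF.leaf (nat_lit 7437684) (nat_lit 483511) (nat_lit 37094320) (nat_lit 15254621) [(nat_lit 483511), (nat_lit 1563829), (nat_lit 3447218), (nat_lit 8298290)])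 (PF.cons (PF.leaf (nat_lit 7732673) (nat_lit 490501) (nat_lit 36704768) (nat_lit 15156093) [(nat_lit 490501), (nat_lit 1571718), (nat_lit 3448214), (nat_lit 8266011)]) PF.nil))))) (PF.cons (PF.cons (PF.leaf (nat_lit 7265345) (nat_lit 1557128) (nat_lit 37029384) (nat_lit 15235312) [(nat_lit 0), (nat_lit 1557128), (nat_lit 3441171), (nat_lit 8288687)]) (PF.cons (PF.leaf (nat_lit 7547674) (nat_lit 483511) (nat_lit 36654655)
 (nat_lit 15140364) [(nat_lit 483511), (nat_lit 1565238), (nat_lit 3442266), (nat_lit 8257537)]) (PF.cons (PF.leaf (nat_lit 7837266) (nat_lit 490407) (nat_lit 36273991) (nat_lit 15042537) [(nat_lit 490407), (nat_lit 1572347), (nat_lit 3442200), (nat_lit 8224572)]) (PF.cons PF.nil PF.nil)))) (PF.cons (PF.cons (PF.leaf (nat_lit 7942406) (nat_lit 1572418) (nat_lit 35846192) (nat_lit 14928121) [(nat_lit 0), (nat_lit 1572418), (nat_lit 3435274), (nat_lit 8181968)]) (PF.cons (PF.leaf (nat_lit 8231854) (nat_lit 495971) (nat_lit 35470433) (nat_lit 14828737)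 [(nat_lit 495971), (nat_lit 1577898), (nat_lit 3433159), (nat_lit 8146813)]) PF.nil)) (PF.cons PF.nil PF.nil))))) (PF.cons (PF.cons (PF.cons (PF.leaf (nat_lit 7063429) (nat_lit 3421077) (nat_lit 36835299) (nat_lit 15174709) [(nat_lit 0), (nat_lit 0), (nat_lit 3421077), (nat_lit 8256648)]) (PF.cons (PF.leaf (nat_lit 7332658) (nat_lit 470883) (nat_lit 36480783) (nat_lit 15084529) [(nat_lit 470883), (nat_lit 0), (nat_lit 3422754), (nat_lit 8227107)]) (PF.cons (PF.leaf (nat_lit 7611124) (nat_lit 479028) (nat_lit 36117596) (nat_lit 14990897) [(nat_lit 479028), (nat_lit 0), (nat_lit 3423313), (nat_lit 8195633)]) (PF.cons (PF.leaf (nat_lit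
 7896659) (nat_lit 486139) (nat_lit 35748151) (nat_lit 14894368) [(nat_lit 486139), (nat_lit 0), (nat_lit 3422746), (nat_lit 8162380)]) (PF.cons PF.nil PF.nil))))) (PF.cons (PF.cons (PF.leaf (nat_lit 7720789) (nat_lit 1556631) (nat_lit 35689507) (nat_lit 14876127) [(nat_lit 0), (nat_lit 1556631), (nat_lit 3416777), (nat_lit 8152989)]) (PF.cons (PF.leaf (nat_lit 7999940) (nat_lit 485539) (nat_lit 35329681) (nat_lit 14780719) [(nat_lit 485539), (nat_lit 1562939), (nat_lit 3415300), (nat_lit 8119332)]) (PF.cons (PF.leaf (nat_lit 8285787) (nat_lit 491730) (nat_lit 34964723) (nat_lit 14682715) [(nat_lit 491730), (nat_lit 1568332), (nat_lit 3412777), (nat_lit 8084025)]) (PF.cons PF.nil PF.nil)))) (PF.cons (PF.cons (PF.leaf (nat_lit 8384390) (nat_lit 1567023) (nat_lit 34558199) (nat_lit 14569444) [(nat_lit 0), (nat_lit 1567023), (nat_lit 3403744), (nat_lit 8039634)]) (PF.cons PF.nil PF.nil)) PF.nil))) (PF.cons (PF.cons (PF.cons (PF.leaf (nat_lit 8159415) (nat_lit 3386208)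 (nat_lit 34417202) (nat_lit 14520902) [(nat_lit 0), (nat_lit 0), (nat_lit 3386208), (nat_lit 8012081)]) (PF.cons (PF.leaf (nat_lit 8434964) (nat_lit 486188) (nat_lit 34072443) (nat_lit 14425736) [(nat_lit 486188),
 (nat_lit 0), (nat_lit 3382628), (nat_lit 7976559)]) (PF.cons PF.nil PF.nil))) (PF.cons (PF.cons (PF.leaf (nat_lit 8809228) (nat_lit 1558453) (nat_lit 33337361) (nat_lit 14216722) [(nat_lit 0), (nat_lit 1558453), (nat_lit 3367423), (nat_lit 7894004)]) PF.nil) PF.nil)) (PF.cons PF.nil (PF.cons PF.nil PF.nil)))))) (PF.cons (PF.cons (PF.cons (PF.cons (PF.leaf (nat_lit 6659480) (nat_lit 8101375) (nat_lit 36009215) (nat_lit 14896847) [(nat_lit 0), (nat_lit 0), (nat_lit 0), (nat_lit 8101375)]) (PF.cons (PF.leaf (nat_lit 6904736) (nat_lit 438590) (nat_lit 35700005) (nat_lit 14817625) [(nat_lit 438590), (nat_lit 0), (nat_lit 0), (nat_lit 8076295)]) (PF.cons (PF.leaf (nat_lit 7162517) (nat_lit 449331) (nat_lit 35377840) (nat_lit 14734078) [(nat_lit 449331), (nat_lit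 0), (nat_lit 0), (nat_lit 8049115)]) (PF.cons (PF.leaf (nat_lit 7429884) (nat_lit 458610) (nat_lit 35045978) (nat_lit 14646954) [(nat_lit 458610), (nat_lit 0), (nat_lit 0), (nat_lit 8020023)]) (PF.cons (PF.leaf (nat_lit 7705020) (nat_lit 466698) (nat_lit 34706852) (nat_lit 14556820) [(nat_lit 466698), (nat_lit 0), (nat_lit 0), (nat_lit 7989173)]) (PF.cons (PF.leaf (nat_lit 7986489) (nat_lit 473786) (nat_lit 34362361) (nat_lit
 14464126) [(nat_lit 473786), (nat_lit 0), (nat_lit 0), (nat_lit 7956697)]) (PF.cons PF.nil PF.nil))))))) (PF.cons (PF.cons (PF.leaf (nat_lit 7279028) (nat_lit 1500331) (nat_lit 34967278) (nat_lit 14623422) [(nat_lit 0), (nat_lit 1500331), (nat_lit 0), (nat_lit 8008890)]) (PF.cons (PF.leaf (nat_lit 7539212) (nat_lit 458410) (nat_lit 34644827) (nat_lit 14537535) [(nat_lit 458410), (nat_lit 1509174), (nat_lit 0), (nat_lit 7979432)]) (PF.cons (PF.leaf (nat_lit 7808472) (nat_lit 466460) (nat_lit 34314158) (nat_lit 14448420) [(nat_lit 466460), (nat_lit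 1516948), (nat_lit 0), (nat_lit 7948182)]) (PF.cons (PF.leaf (nat_lit 8084678) (nat_lit 473471) (nat_lit 33977486) (nat_lit 14356617) [(nat_lit 473471), (nat_lit 1523694), (nat_lit 0), (nat_lit 7915299)]) (PF.cons PF.nil PF.nil))))) (PF.cons (PF.cons (PF.leaf (nat_lit 7913253) (nat_lit 1517144) (nat_lit 33923148) (nat_lit 14339118) [(nat_lit 0), (nat_lit 1517144), (nat_lit 0), (nat_lit 7906128)]) (PF.cons (PF.leaf (nat_lit 8183239) (nat_lit 472814) (nat_lit 33595080) (nat_lit 14248497) [(nat_lit 472814), (nat_lit 1523212), (nat_lit 0), (nat_lit 7872997)]) (PF.cons (PF.leaf (nat_lit 8459853) (nat_lit 478907) (nat_lit 33262057) (nat_lit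
 14155472) [(nat_lit 478907), (nat_lit 1528376), (nat_lit 0), (nat_lit 7838357)]) (PF.cons PF.nil PF.nil)))) (PF.cons (PF.cons (PF.leaf (nat_lit 8554028) (nat_lit 1526869) (nat_lit 32890224) (nat_lit 14047938) [(nat_lit 0), (nat_lit 1526869), (nat_lit 0), (nat_lit 7795020)]) (PF.cons PF.nil PF.nil)) (PF.cons PF.nil PF.nil))))) (PF.cons (PF.cons (PF.cons (PF.leaf (nat_lit 7710438) (nat_lit 3308966) (nat_lit 33762081) (nat_lit 14284999) [(nat_lit 0), (nat_lit 0), (nat_lit 3308966), (nat_lit 7876382)]) (PF.cons (PF.leaf (nat_lit 7968449) (nat_lit 460720) (nat_lit 33451342) (nat_lit 14198951) [(nat_lit 460720), (nat_lit 0), (nat_lit 3307764), (nat_lit 7845016)]) (PF.cons (PF.leaf (nat_lit 8234957) (nat_lit 468056) (nat_lit 33133245) (nat_lit 14109924) [(nat_lit 468056), (nat_lit 0), (nat_lit 3305576), (nat_lit 7811976)]) (PF.cons (PF.leaf (nat_lit 8507853) (nat_lit 474395) (nat_lit 32809881) (nat_lit 14018450) [(nat_lit 474395), (nat_lit 0), (nat_lit 3302418), (nat_lit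 7777438)]) (PF.cons PF.nil PF.nil))))) (PF.cons (PF.cons (PF.leaf (nat_lit 8333886) (nat_lit 1512066) (nat_lit 32760793) (nat_lit 14002057) [(nat_lit 0), (nat_lit 1512066), (nat_lit 3296653), (nat_lit 7768620)]) (PF.cons
 (PF.leaf (nat_lit 8600612) (nat_lit 473284) (nat_lit 32445940) (nat_lit 13911951) [(nat_lit 473284), (nat_lit 1516710), (nat_lit 3292857), (nat_lit 7734033)]) (PF.cons PF.nil (PF.cons PF.nil PF.nil)))) (PF.cons (PF.cons (PF.leaf (nat_lit 8962057) (nat_lit 1518022) (nat_lit 31773261) (nat_lit 13714088) [(nat_lit 0), (nat_lit 1518022), (nat_lit 3277480), (nat_lit 7653969)]) (PF.cons PF.nil PF.nil)) PF.nil))) (PF.cons (PF.cons (PF.cons (PF.leaf (nat_lit 8739788) (nat_lit 3261332) (nat_lit 31656555) (nat_lit 13671446) [(nat_lit 0), (nat_lit 0), (nat_lit 3261332), (nat_lit 7629073)]) (PF.cons (PF.leaf (nat_lit 9002965) (nat_lit 472722) (nat_lit 31354833) (nat_lit 13582299) [(nat_lit 472722), (nat_lit 0), (nat_lit 3256015), (nat_lit 7593463)]) (PF.cons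 PF.nil PF.nil))) (PF.cons (PF.cons (PF.leaf (nat_lit 9355228) (nat_lit 1506939) (nat_lit 30713450) (nat_lit 13387897) [(nat_lit 0), (nat_lit 1506939), (nat_lit 3238115), (nat_lit 7512146)]) PF.nil) PF.nil)) (PF.cons PF.nil (PF.cons PF.nil PF.nil))))) (PF.cons (PF.cons (PF.cons (PF.cons (PF.leaf (nat_lit 8295628) (nat_lit 7509031) (nat_lit 31115181) (nat_lit 13466537) [(nat_lit 0), (nat_lit 0), (nat_lit 0), (nat_lit 7509031)]) (PF.cons
 (PF.leaf (nat_lit 8543101) (nat_lit 449153) (nat_lit 30841800) (nat_lit 13385675) [(nat_lit 449153), (nat_lit 0), (nat_lit 0), (nat_lit 7477394)]) (PF.cons (PF.leaf (nat_lit 8798499) (nat_lit 455836) (nat_lit 30562071) (nat_lit 13302206) [(nat_lit 455836), (nat_lit 0), (nat_lit 0), (nat_lit 7444287)]) (PF.cons PF.nil (PF.cons PF.nil PF.nil))))) (PF.cons (PF.cons (PF.leaf (nat_lit 8888566) (nat_lit 1465052) (nat_lit 30236467) (nat_lit 13202014) [(nat_lit 0), (nat_lit 1465052), (nat_lit 0), (nat_lit 7401759)]) (PF.cons (PF.leaf (nat_lit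 9143877) (nat_lit 460116) (nat_lit 29959691) (nat_lit 13117899) [(nat_lit 460116), (nat_lit 1468509), (nat_lit 0), (nat_lit 7367532)]) (PF.cons PF.nil (PF.cons PF.nil PF.nil)))) (PF.cons (PF.cons (PF.leaf (nat_lit 9485240) (nat_lit 1467974) (nat_lit 29370093) (nat_lit 12934359) [(nat_lit 0), (nat_lit 1467974), (nat_lit 0), (nat_lit 7289470)]) (PF.cons PF.nil PF.nil)) PF.nil))) (PF.cons (PF.cons (PF.cons (PF.leaf (nat_lit 9266810) (nat_lit 3137636) (nat_lit 29272731) (nat_lit 12897003) [(nat_lit 0), (nat_lit 0), (nat_lit 3137636), (nat_lit 7267147)]) (PF.cons (PF.leaf (nat_lit 9518696) (nat_lit 458776) (nat_lit 29007281) (nat_lit 12814194) [(nat_lit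
 458776), (nat_lit 0), (nat_lit 3131306), (nat_lit 7232417)]) PF.nil)) (PF.cons PF.nil PF.nil)) (PF.cons PF.nil PF.nil))) (PF.cons (PF.cons (PF.cons (PF.cons (PF.leaf (nat_lit 9750350) (nat_lit 6928956) (nat_lit 27199895) (nat_lit 12193091) [(nat_lit 0), (nat_lit 0), (nat_lit 0), (nat_lit 6928956)]) (PF.cons PF.nil PF.nil)) (PF.cons PF.nil PF.nil)) (PF.cons PF.nil PF.nil)) (PF.cons PF.nil (PF.cons PF.nil (PF.cons PF.nil PF.nil))))))))

def p13_14_3_0 : pfC (piC [(nat_lit 38167130), (nat_lit 25010362), (nat_lit 18643303), (nat_lit 12552662)] (nat_lit 5327306)) p13_14_3 (nat_lit 4) (nat_lit 0) (nat_lit 1) = true := by decide +kernel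
def p13_14_3_1 : pfC (piC [(nat_lit 38167130), (nat_lit 25010362), (nat_lit 18643303), (nat_lit 12552662)] (nat_lit 5327306)) p13_14_3 (nat_lit 4) (nat_lit 1) (nat_lit 2) = true := by decide +kernel
def p13_14_3_2 : pfC (piC [(nat_lit 38167130), (nat_lit 25010362), (nat_lit 18643303), (nat_lit 12552662)] (nat_lit 5327306)) p13_14_3 (nat_lit 4) (nat_lit 2) (nat_lit 3) = true := by decide +kernel
def p13_14_3_3 : pfC (piC [(nat_lit 38167130), (nat_lit 25010362), (nat_lit 18643303), (nat_lit 12552662)] (nat_lit 5327306)) p13_14_3 (nat_lit 4) (nat_lit 3) (nat_lit 4) = true := by decide +kernel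
def p13_14_3_4 : pfC (piC [(nat_lit 38167130), (nat_lit 25010362), (nat_lit 18643303), (nat_lit 12552662)] (nat_lit 5327306)) p13_14_3 (nat_lit 4) (nat_lit 4) (nat_lit 5) = true := by decide +kernel
def p13_14_3_5 : pfC (piC [(nat_lit 38167130), (nat_lit 25010362), (nat_lit 18643303), (nat_lit 12552662)] (nat_lit 5327306)) p13_14_3 (nat_lit 4) (nat_lit 5) (nat_lit 6) = true := by decide +kernel
def p13_14_3_6 : pfC (piC [(nat_lit 38167130), (nat_lit 25010362), (nat_lit 18643303), (nat_lit 12552662)] (nat_lit 5327306)) p13_14_3 (nat_lit 4) (nat_lit 6) (nat_lit 7) = true := by decide +kernel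
def p13_14_3_7 : pfC (piC [(nat_lit 38167130), (nat_lit 25010362), (nat_lit 18643303), (nat_lit 12552662)] (nat_lit 5327306)) p13_14_3 (nat_lit 4) (nat_lit 7) (nat_lit 8) = true := by decide +kernel
def p13_14_3_8 : pfC (piC [(nat_lit 38167130), (nat_lit 25010362), (nat_lit 18643303), (nat_lit 12552662)] (nat_lit 5327306)) p13_14_3 (nat_lit 4) (nat_lit 8) (nat_lit 9) = true := by decide +kernel
def p13_14_3_9 : pfC (piC [(nat_lit 38167130), (nat_lit 25010362), (nat_lit 18643303), (nat_lit 12552662)] (nat_lit 5327306)) p13_14_3 (nat_lit 4) (nat_lit 9) (nat_lit 10) = true := by decide +kernel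
def p13_14_3_10 : pfC (piC [(nat_lit 38167130), (nat_lit 25010362), (nat_lit 18643303), (nat_lit 12552662)] (nat_lit 5327306)) p13_14_3 (nat_lit 4) (nat_lit 10) (nat_lit 11) = true := by decide +kernel
def p13_14_3_11 : pfC (piC [(nat_lit 38167130), (nat_lit 25010362), (nat_lit 18643303), (nat_lit 12552662)] (nat_lit 5327306)) p13_14_3 (nat_lit 4) (nat_lit 11) (nat_lit 12) = true := by decide +kernel
def p13_14_3_12 : pfC (piC [(nat_lit 38167130), (nat_lit 25010362), (nat_lit 18643303), (nat_lit 12552662)] (nat_lit 5327306)) p13_14_3 (nat_lit 4) (nat_lit 12) (nat_lit 13) = true := by decide +kernel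
def p13_14_3_13 : pfC (piC [(nat_lit 38167130), (nat_lit 25010362), (nat_lit 18643303), (nat_lit 12552662)] (nat_lit 5327306)) p13_14_3 (nat_lit 4) (nat_lit 13) (nat_lit 14) = true := by decide +kernel
def p13_14_3_14 : pfC (piC [(nat_lit 38167130), (nat_lit 25010362), (nat_lit 18643303), (nat_lit 12552662)] (nat_lit 5327306)) p13_14_3 (nat_lit 4) (nat_lit 14) (nat_lit 15) = true := by decide +kernel
def p13_14_3_15 : pfC (piC [(nat_lit 38167130), (nat_lit 25010362), (nat_lit 18643303), (nat_lit 12552662)] (nat_lit 5327306)) p13_14_3 (nat_lit 4) (nat_lit 15) (nat_lit 16) = true := by decide +kernel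
def p13_14_3_16 : pfC (piC [(nat_lit 38167130), (nat_lit 25010362), (nat_lit 18643303), (nat_lit 12552662)] (nat_lit 5327306)) p13_14_3 (nat_lit 4) (nat_lit 16) (nat_lit 17) = true := by decide +kernel
def p13_14_3_17 : pfC (piC [(nat_lit 38167130), (nat_lit 25010362), (nat_lit 18643303), (nat_lit 12552662)] (nat_lit 5327306)) p13_14_3 (nat_lit 4) (nat_lit 17) (nat_lit 18) = true := by decide +kernel
def p13_14_3_18 : pfC (piC [(nat_lit 38167130), (nat_lit 25010362), (nat_lit 18643303), (nat_lit 12552662)] (nat_lit 5327306)) p13_14_3 (nat_lit 4) (nat_lit 18) (nat_lit 19) = true := by decide +kernel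
def p13_14_3_19 : pfC (piC [(nat_lit 38167130), (nat_lit 25010362), (nat_lit 18643303), (nat_lit 12552662)] (nat_lit 5327306)) p13_14_3 (nat_lit 4) (nat_lit 19) (nat_lit 20) = true := by decide +kernel
def p13_14_3_20 : pfC (piC [(nat_lit 38167130), (nat_lit 25010362), (nat_lit 18643303), (nat_lit 12552662)] (nat_lit 5327306)) p13_14_3 (nat_lit 4) (nat_lit 20) (nat_lit 21) = true := by decide +kernel
def p13_14_3_21 : pfC (piC [(nat_lit 38167130), (nat_lit 25010362), (nat_lit 18643303), (nat_lit 12552662)] (nat_lit 5327306)) p13_14_3 (nat_lit 4) (nat_lit 21) (nat_lit 22) = true := by decide +kernel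
def p13_14_3_22 : pfC (piC [(nat_lit 38167130), (nat_lit 25010362), (nat_lit 18643303), (nat_lit 12552662)] (nat_lit 5327306)) p13_14_3 (nat_lit 4) (nat_lit 22) (nat_lit 23) = true := by decide +kernel
def p13_14_3_23 : pfC (piC [(nat_lit 38167130), (nat_lit 25010362), (nat_lit 18643303), (nat_lit 12552662)] (nat_lit 5327306)) p13_14_3 (nat_lit 4) (nat_lit 23) (nat_lit 24) = true := by decide +kernel
def p13_14_3_24 : pfC (piC [(nat_lit 38167130), (nat_lit 25010362), (nat_lit 18643303), (nat_lit 12552662)] (nat_lit 5327306)) p13_14_3 (nat_lit 4) (nat_lit 24) (nat_lit 25) = true := by decide +kernel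
def p13_14_3_25 : pfC (piC [(nat_lit 38167130), (nat_lit 25010362), (nat_lit 18643303), (nat_lit 12552662)] (nat_lit 5327306)) p13_14_3 (nat_lit 4) (nat_lit 25) (nat_lit 26) = true := by decide +kernel
def p13_14_3_26 : pfC (piC [(nat_lit 38167130), (nat_lit 25010362), (nat_lit 18643303), (nat_lit 12552662)] (nat_lit 5327306)) p13_14_3 (nat_lit 4) (nat_lit 26) (nat_lit 27) = true := by decide +kernel
def p13_14_3_27 : pfC (piC [(nat_lit 38167130), (nat_lit 25010362), (nat_lit 18643303), (nat_lit 12552662)] (nat_lit 5327306)) p13_14_3 (nat_lit 4) (nat_lit 27) (nat_lit 28) = true := by decide +kernel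
def p13_14_3_28 : pfC (piC [(nat_lit 38167130), (nat_lit 25010362), (nat_lit 18643303), (nat_lit 12552662)] (nat_lit 5327306)) p13_14_3 (nat_lit 4) (nat_lit 28) (nat_lit 29) = true := by decide +kernel
def p13_14_3_29 : pfC (piC [(nat_lit 38167130), (nat_lit 25010362), (nat_lit 18643303), (nat_lit 12552662)] (nat_lit 5327306)) p13_14_3 (nat_lit 4) (nat_lit 29) (nat_lit 30) = true := by decide +kernel
def p13_14_3_30 : pfC (piC [(nat_lit 38167130), (nat_lit 25010362), (nat_lit 18643303), (nat_lit 12552662)] (nat_lit 5327306)) p13_14_3 (nat_lit 4) (nat_lit 30) (nat_lit 31) = true := by decide +kernel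
def p13_14_3_31 : pfC (piC [(nat_lit 38167130), (nat_lit 25010362), (nat_lit 18643303), (nat_lit 12552662)] (nat_lit 5327306)) p13_14_3 (nat_lit 4) (nat_lit 31) (nat_lit 32) = true := by decide +kernel
def p13_14_3_32 : pfC (piC [(nat_lit 38167130), (nat_lit 25010362), (nat_lit 18643303), (nat_lit 12552662)] (nat_lit 5327306)) p13_14_3 (nat_lit 4) (nat_lit 32) (nat_lit 33) = true := by decide +kernel
def p13_14_3_33 : pfC (piC [(nat_lit 38167130), (nat_lit 25010362), (nat_lit 18643303), (nat_lit 12552662)] (nat_lit 5327306)) p13_14_3 (nat_lit 4) (nat_lit 33) (nat_lit 34) = true := by decide +kernel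
def p13_14_3_34 : pfC (piC [(nat_lit 38167130), (nat_lit 25010362), (nat_lit 18643303), (nat_lit 12552662)] (nat_lit 5327306)) p13_14_3 (nat_lit 4) (nat_lit 34) (nat_lit 35) = true := by decide +kernel
def p13_14_3_35 : pfC (piC [(nat_lit 38167130), (nat_lit 25010362), (nat_lit 18643303), (nat_lit 12552662)] (nat_lit 5327306)) p13_14_3 (nat_lit 4) (nat_lit 35) (nat_lit 36) = true := by decide +kernel
def p13_14_3_36 : pfC (piC [(nat_lit 38167130), (nat_lit 25010362), (nat_lit 18643303), (nat_lit 12552662)] (nat_lit 5327306)) p13_14_3 (nat_lit 4) (nat_lit 36) (nat_lit 37) = true := by decide +kernel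
def p13_14_3_37 : pfC (piC [(nat_lit 38167130), (nat_lit 25010362), (nat_lit 18643303), (nat_lit 12552662)] (nat_lit 5327306)) p13_14_3 (nat_lit 4) (nat_lit 37) (nat_lit 38) = true := by decide +kernel
def p13_14_3_38 : pfC (piC [(nat_lit 38167130), (nat_lit 25010362), (nat_lit 18643303), (nat_lit 12552662)] (nat_lit 5327306)) p13_14_3 (nat_lit 4) (nat_lit 38) (nat_lit 39) = true := by decide +kernel
def p13_14_3_39 : pfC (piC [(nat_lit 38167130), (nat_lit 25010362), (nat_lit 18643303), (nat_lit 12552662)] (nat_lit 5327306)) p13_14_3 (nat_lit 4) (nat_lit 39) (nat_lit 40) = true := by decide +kernel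
def p13_14_3_40 : pfC (piC [(nat_lit 38167130), (nat_lit 25010362), (nat_lit 18643303), (nat_lit 12552662)] (nat_lit 5327306)) p13_14_3 (nat_lit 4) (nat_lit 40) (nat_lit 41) = true := by decide +kernel
def p13_14_3_41 : pfC (piC [(nat_lit 38167130), (nat_lit 25010362), (nat_lit 18643303), (nat_lit 12552662)] (nat_lit 5327306)) p13_14_3 (nat_lit 4) (nat_lit 41) (nat_lit 42) = true := by decide +kernel
def p13_14_3_42 : pfC (piC [(nat_lit 38167130), (nat_lit 25010362), (nat_lit 18643303), (nat_lit 12552662)] (nat_lit 5327306)) p13_14_3 (nat_lit 4) (nat_lit 42) (nat_lit 43) = true := by decide +kernel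
def p13_14_3_43 : pfC (piC [(nat_lit 38167130), (nat_lit 25010362), (nat_lit 18643303), (nat_lit 12552662)] (nat_lit 5327306)) p13_14_3 (nat_lit 4) (nat_lit 43) (nat_lit 44) = true := by decide +kernel
def p13_14_3_44 : pfC (piC [(nat_lit 38167130), (nat_lit 25010362), (nat_lit 18643303), (nat_lit 12552662)] (nat_lit 5327306)) p13_14_3 (nat_lit 4) (nat_lit 44) (nat_lit 45) = true := by decide +kernel
def p13_14_3_45 : pfC (piC [(nat_lit 38167130), (nat_lit 25010362), (nat_lit 18643303), (nat_lit 12552662)] (nat_lit 5327306)) p13_14_3 (nat_lit 4) (nat_lit 45) (nat_lit 46) = true := by decide +kernel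
def p13_14_3_46 : pfC (piC [(nat_lit 38167130), (nat_lit 25010362), (nat_lit 18643303), (nat_lit 12552662)] (nat_lit 5327306)) p13_14_3 (nat_lit 4) (nat_lit 46) (nat_lit 47) = true := by decide +kernel
def p13_14_3_47 : pfC (piC [(nat_lit 38167130), (nat_lit 25010362), (nat_lit 18643303), (nat_lit 12552662)] (nat_lit 5327306)) p13_14_3 (nat_lit 4) (nat_lit 47) (nat_lit 48) = true := by decide +kernel
def p13_14_3_48 : pfC (piC [(nat_lit 38167130), (nat_lit 25010362), (nat_lit 18643303), (nat_lit 12552662)] (nat_lit 5327306)) p13_14_3 (nat_lit 4) (nat_lit 48) (nat_lit 49) = true := by decide +kernel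
def p13_14_3_49 : pfC (piC [(nat_lit 38167130), (nat_lit 25010362), (nat_lit 18643303), (nat_lit 12552662)] (nat_lit 5327306)) p13_14_3 (nat_lit 4) (nat_lit 49) (nat_lit 50) = true := by decide +kernel
def p13_14_3_50 : pfC (piC [(nat_lit 38167130), (nat_lit 25010362), (nat_lit 18643303), (nat_lit 12552662)] (nat_lit 5327306)) p13_14_3 (nat_lit 4) (nat_lit 50) (nat_lit 51) = true := by decide +kernel
def p13_14_3_51 : pfC (piC [(nat_lit 38167130), (nat_lit 25010362), (nat_lit 18643303), (nat_lit 12552662)] (nat_lit 5327306)) p13_14_3 (nat_lit 4) (nat_lit 51) (nat_lit 52) = true := by decide +kernel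
def p13_14_3_52 : pfC (piC [(nat_lit 38167130), (nat_lit 25010362), (nat_lit 18643303), (nat_lit 12552662)] (nat_lit 5327306)) p13_14_3 (nat_lit 4) (nat_lit 52) (nat_lit 53) = true := by decide +kernel
def p13_14_3_53 : pfC (piC [(nat_lit 38167130), (nat_lit 25010362), (nat_lit 18643303), (nat_lit 12552662)] (nat_lit 5327306)) p13_14_3 (nat_lit 4) (nat_lit 53) (nat_lit 54) = true := by decide +kernel
def p13_14_3_54 : pfC (piC [(nat_lit 38167130), (nat_lit 25010362), (nat_lit 18643303), (nat_lit 12552662)] (nat_lit 5327306)) p13_14_3 (nat_lit 4) (nat_lit 54) (nat_lit 55) = true := by decide +kernel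
def p13_14_3_55 : pfC (piC [(nat_lit 38167130), (nat_lit 25010362), (nat_lit 18643303), (nat_lit 12552662)] (nat_lit 5327306)) p13_14_3 (nat_lit 4) (nat_lit 55) (nat_lit 56) = true := by decide +kernel
def p13_14_3_56 : pfC (piC [(nat_lit 38167130), (nat_lit 25010362), (nat_lit 18643303), (nat_lit 12552662)] (nat_lit 5327306)) p13_14_3 (nat_lit 4) (nat_lit 56) (nat_lit 57) = true := by decide +kernel
def p13_14_3_57 : pfC (piC [(nat_lit 38167130), (nat_lit 25010362), (nat_lit 18643303), (nat_lit 12552662)] (nat_lit 5327306)) p13_14_3 (nat_lit 4) (nat_lit 57) (nat_lit 58) = true := by decide +kernel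
def p13_14_3_58 : pfC (piC [(nat_lit 38167130), (nat_lit 25010362), (nat_lit 18643303), (nat_lit 12552662)] (nat_lit 5327306)) p13_14_3 (nat_lit 4) (nat_lit 58) (nat_lit 59) = true := by decide +kernel
def p13_14_3_59 : pfC (piC [(nat_lit 38167130), (nat_lit 25010362), (nat_lit 18643303), (nat_lit 12552662)] (nat_lit 5327306)) p13_14_3 (nat_lit 4) (nat_lit 59) (nat_lit 60) = true := by decide +kernel
def p13_14_3_60 : pfC (piC [(nat_lit 38167130), (nat_lit 25010362), (nat_lit 18643303), (nat_lit 12552662)] (nat_lit 5327306)) p13_14_3 (nat_lit 4) (nat_lit 60) (nat_lit 61) = true := by decide +kernel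
def p13_14_3_61 : pfC (piC [(nat_lit 38167130), (nat_lit 25010362), (nat_lit 18643303), (nat_lit 12552662)] (nat_lit 5327306)) p13_14_3 (nat_lit 4) (nat_lit 61) (nat_lit 62) = true := by decide +kernel
def p13_14_3_62 : pfC (piC [(nat_lit 38167130), (nat_lit 25010362), (nat_lit 18643303), (nat_lit 12552662)] (nat_lit 5327306)) p13_14_3 (nat_lit 4) (nat_lit 62) (nat_lit 63) = true := by decide +kernel
def p13_14_3_63 : pfC (piC [(nat_lit 38167130), (nat_lit 25010362), (nat_lit 18643303), (nat_lit 12552662)] (nat_lit 5327306)) p13_14_3 (nat_lit 4) (nat_lit 63) (nat_lit 64) = true := by decide +kernel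
def p13_14_3_64 : pfC (piC [(nat_lit 38167130), (nat_lit 25010362), (nat_lit 18643303), (nat_lit 12552662)] (nat_lit 5327306)) p13_14_3 (nat_lit 4) (nat_lit 64) (nat_lit 65) = true := by decide +kernel
def p13_14_3_65 : pfC (piC [(nat_lit 38167130), (nat_lit 25010362), (nat_lit 18643303), (nat_lit 12552662)] (nat_lit 5327306)) p13_14_3 (nat_lit 4) (nat_lit 65) (nat_lit 66) = true := by decide +kernel
def p13_14_3_66 : pfC (piC [(nat_lit 38167130), (nat_lit 25010362), (nat_lit 18643303), (nat_lit 12552662)] (nat_lit 5327306)) p13_14_3 (nat_lit 4) (nat_lit 66) (nat_lit 67) = true := by decide +kernel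
def p13_14_3_67 : pfC (piC [(nat_lit 38167130), (nat_lit 25010362), (nat_lit 18643303), (nat_lit 12552662)] (nat_lit 5327306)) p13_14_3 (nat_lit 4) (nat_lit 67) (nat_lit 68) = true := by decide +kernel
def p13_14_3_68 : pfC (piC [(nat_lit 38167130), (nat_lit 25010362), (nat_lit 18643303), (nat_lit 12552662)] (nat_lit 5327306)) p13_14_3 (nat_lit 4) (nat_lit 68) (nat_lit 69) = true := by decide +kernel
def p13_14_3_69 : pfC (piC [(nat_lit 38167130), (nat_lit 25010362), (nat_lit 18643303), (nat_lit 12552662)] (nat_lit 5327306)) p13_14_3 (nat_lit 4) (nat_lit 69) (nat_lit 70) = true := by decide +kernel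
def p13_14_3_70 : pfC (piC [(nat_lit 38167130), (nat_lit 25010362), (nat_lit 18643303), (nat_lit 12552662)] (nat_lit 5327306)) p13_14_3 (nat_lit 4) (nat_lit 70) (nat_lit 71) = true := by decide +kernel
def p13_14_3_71 : pfC (piC [(nat_lit 38167130), (nat_lit 25010362), (nat_lit 18643303), (nat_lit 12552662)] (nat_lit 5327306)) p13_14_3 (nat_lit 4) (nat_lit 71) (nat_lit 72) = true := by decide +kernel
def p13_14_3_72 : pfC (piC [(nat_lit 38167130), (nat_lit 25010362), (nat_lit 18643303), (nat_lit 12552662)] (nat_lit 5327306)) p13_14_3 (nat_lit 4) (nat_lit 72) (nat_lit 73) = true := by decide +kernel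
def p13_14_3_73 : pfC (piC [(nat_lit 38167130), (nat_lit 25010362), (nat_lit 18643303), (nat_lit 12552662)] (nat_lit 5327306)) p13_14_3 (nat_lit 4) (nat_lit 73) (nat_lit 74) = true := by decide +kernel
def p13_14_3_74 : pfC (piC [(nat_lit 38167130), (nat_lit 25010362), (nat_lit 18643303), (nat_lit 12552662)] (nat_lit 5327306)) p13_14_3 (nat_lit 4) (nat_lit 74) (nat_lit 75) = true := by decide +kernel
def p13_14_3_75 : pfC (piC [(nat_lit 38167130), (nat_lit 25010362), (nat_lit 18643303), (nat_lit 12552662)] (nat_lit 5327306)) p13_14_3 (nat_lit 4) (nat_lit 75) (nat_lit 76) = true := by decide +kernel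
def p13_14_3_76 : pfC (piC [(nat_lit 38167130), (nat_lit 25010362), (nat_lit 18643303), (nat_lit 12552662)] (nat_lit 5327306)) p13_14_3 (nat_lit 4) (nat_lit 76) (nat_lit 77) = true := by decide +kernel
def p13_14_3_77 : pfC (piC [(nat_lit 38167130), (nat_lit 25010362), (nat_lit 18643303), (nat_lit 12552662)] (nat_lit 5327306)) p13_14_3 (nat_lit 4) (nat_lit 77) (nat_lit 78) = true := by decide +kernel
def p13_14_3_78 : pfC (piC [(nat_lit 38167130), (nat_lit 25010362), (nat_lit 18643303), (nat_lit 12552662)] (nat_lit 5327306)) p13_14_3 (nat_lit 4) (nat_lit 78) (nat_lit 79) = true := by decide +kernel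
def p13_14_3_79 : pfC (piC [(nat_lit 38167130), (nat_lit 25010362), (nat_lit 18643303), (nat_lit 12552662)] (nat_lit 5327306)) p13_14_3 (nat_lit 4) (nat_lit 79) (nat_lit 80) = true := by decide +kernel
def p13_14_3_80 : pfC (piC [(nat_lit 38167130), (nat_lit 25010362), (nat_lit 18643303), (nat_lit 12552662)] (nat_lit 5327306)) p13_14_3 (nat_lit 4) (nat_lit 80) (nat_lit 81) = true := by decide +kernel
def p13_14_3_81 : pfC (piC [(nat_lit 38167130), (nat_lit 25010362), (nat_lit 18643303), (nat_lit 12552662)] (nat_lit 5327306)) p13_14_3 (nat_lit 4) (nat_lit 81) (nat_lit 82) = true := by decide +kernel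
def p13_14_3_82 : pfC (piC [(nat_lit 38167130), (nat_lit 25010362), (nat_lit 18643303), (nat_lit 12552662)] (nat_lit 5327306)) p13_14_3 (nat_lit 4) (nat_lit 82) (nat_lit 83) = true := by decide +kernel
def p13_14_3_83 : pfC (piC [(nat_lit 38167130), (nat_lit 25010362), (nat_lit 18643303), (nat_lit 12552662)] (nat_lit 5327306)) p13_14_3 (nat_lit 4) (nat_lit 83) (nat_lit 84) = true := by decide +kernel
def p13_14_3_84 : pfC (piC [(nat_lit 38167130), (nat_lit 25010362), (nat_lit 18643303), (nat_lit 12552662)] (nat_lit 5327306)) p13_14_3 (nat_lit 4) (nat_lit 84) (nat_lit 85) = true := by decide +kernel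
def p13_14_3_85 : pfC (piC [(nat_lit 38167130), (nat_lit 25010362), (nat_lit 18643303), (nat_lit 12552662)] (nat_lit 5327306)) p13_14_3 (nat_lit 4) (nat_lit 85) (nat_lit 86) = true := by decide +kernel
def p13_14_3_86 : pfC (piC [(nat_lit 38167130), (nat_lit 25010362), (nat_lit 18643303), (nat_lit 12552662)] (nat_lit 5327306)) p13_14_3 (nat_lit 4) (nat_lit 86) (nat_lit 87) = true := by decide +kernel
def p13_14_3_87 : pfC (piC [(nat_lit 38167130), (nat_lit 25010362), (nat_lit 18643303), (nat_lit 12552662)] (nat_lit 5327306)) p13_14_3 (nat_lit 4) (nat_lit 87) (nat_lit 88) = true := by decide +kernel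
def p13_14_3_88 : pfC (piC [(nat_lit 38167130), (nat_lit 25010362), (nat_lit 18643303), (nat_lit 12552662)] (nat_lit 5327306)) p13_14_3 (nat_lit 4) (nat_lit 88) (nat_lit 89) = true := by decide +kernel
def p13_14_3_89 : pfC (piC [(nat_lit 38167130), (nat_lit 25010362), (nat_lit 18643303), (nat_lit 12552662)] (nat_lit 5327306)) p13_14_3 (nat_lit 4) (nat_lit 89) (nat_lit 90) = true := by decide +kernel
def p13_14_3_90 : pfC (piC [(nat_lit 38167130), (nat_lit 25010362), (nat_lit 18643303), (nat_lit 12552662)] (nat_lit 5327306)) p13_14_3 (nat_lit 4) (nat_lit 90) (nat_lit 91) = true := by decide +kernel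
def p13_14_3_91 : pfC (piC [(nat_lit 38167130), (nat_lit 25010362), (nat_lit 18643303), (nat_lit 12552662)] (nat_lit 5327306)) p13_14_3 (nat_lit 4) (nat_lit 91) (nat_lit 92) = true := by decide +kernel
def p13_14_3_92 : pfC (piC [(nat_lit 38167130), (nat_lit 25010362), (nat_lit 18643303), (nat_lit 12552662)] (nat_lit 5327306)) p13_14_3 (nat_lit 4) (nat_lit 92) (nat_lit 93) = true := by decide +kernel
def p13_14_3_93 : pfC (piC [(nat_lit 38167130), (nat_lit 25010362), (nat_lit 18643303), (nat_lit 12552662)] (nat_lit 5327306)) p13_14_3 (nat_lit 4) (nat_lit 93) (nat_lit 94) = true := by decide +kernel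
def p13_14_3_94 : pfC (piC [(nat_lit 38167130), (nat_lit 25010362), (nat_lit 18643303), (nat_lit 12552662)] (nat_lit 5327306)) p13_14_3 (nat_lit 4) (nat_lit 94) (nat_lit 95) = true := by decide +kernel
def p13_14_3_95 : pfC (piC [(nat_lit 38167130), (nat_lit 25010362), (nat_lit 18643303), (nat_lit 12552662)] (nat_lit 5327306)) p13_14_3 (nat_lit 4) (nat_lit 95) (nat_lit 96) = true := by decide +kernel
def p13_14_3_96 : pfC (piC [(nat_lit 38167130), (nat_lit 25010362), (nat_lit 18643303), (nat_lit 12552662)] (nat_lit 5327306)) p13_14_3 (nat_lit 4) (nat_lit 96) (nat_lit 97) = true := by decide +kernel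
def p13_14_3_97 : pfC (piC [(nat_lit 38167130), (nat_lit 25010362), (nat_lit 18643303), (nat_lit 12552662)] (nat_lit 5327306)) p13_14_3 (nat_lit 4) (nat_lit 97) (nat_lit 98) = true := by decide +kernel
def p13_14_3_98 : pfC (piC [(nat_lit 38167130), (nat_lit 25010362), (nat_lit 18643303), (nat_lit 12552662)] (nat_lit 5327306)) p13_14_3 (nat_lit 4) (nat_lit 98) (nat_lit 99) = true := by decide +kernel
def p13_14_3_99 : pfC (piC [(nat_lit 38167130), (nat_lit 25010362), (nat_lit 18643303), (nat_lit 12552662)] (nat_lit 5327306)) p13_14_3 (nat_lit 4) (nat_lit 99) (nat_lit 100) = true := by decide +kernel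
def p13_14_3_100 : pfC (piC [(nat_lit 38167130), (nat_lit 25010362), (nat_lit 18643303), (nat_lit 12552662)] (nat_lit 5327306)) p13_14_3 (nat_lit 4) (nat_lit 100) (nat_lit 101) = true := by decide +kernel
def p13_14_3_101 : pfC (piC [(nat_lit 38167130), (nat_lit 25010362), (nat_lit 18643303), (nat_lit 12552662)] (nat_lit 5327306)) p13_14_3 (nat_lit 4) (nat_lit 101) (nat_lit 102) = true := by decide +kernel
def p13_14_3_102 : pfC (piC [(nat_lit 38167130), (nat_lit 25010362), (nat_lit 18643303), (nat_lit 12552662)] (nat_lit 5327306)) p13_14_3 (nat_lit 4) (nat_lit 102) (nat_lit 103) = true := by decide +kernel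
def p13_14_3_103 : pfC (piC [(nat_lit 38167130), (nat_lit 25010362), (nat_lit 18643303), (nat_lit 12552662)] (nat_lit 5327306)) p13_14_3 (nat_lit 4) (nat_lit 103) (nat_lit 104) = true := by decide +kernel
def p13_14_3_104 : pfC (piC [(nat_lit 38167130), (nat_lit 25010362), (nat_lit 18643303), (nat_lit 12552662)] (nat_lit 5327306)) p13_14_3 (nat_lit 4) (nat_lit 104) (nat_lit 105) = true := by decide +kernel
def p13_14_3_105 : pfC (piC [(nat_lit 38167130), (nat_lit 25010362), (nat_lit 18643303), (nat_lit 12552662)] (nat_lit 5327306)) p13_14_3 (nat_lit 4) (nat_lit 105) (nat_lit 106) = true := by decide +kernel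
def p13_14_3_106 : pfC (piC [(nat_lit 38167130), (nat_lit 25010362), (nat_lit 18643303), (nat_lit 12552662)] (nat_lit 5327306)) p13_14_3 (nat_lit 4) (nat_lit 106) (nat_lit 107) = true := by decide +kernel
def p13_14_3_107 : pfC (piC [(nat_lit 38167130), (nat_lit 25010362), (nat_lit 18643303), (nat_lit 12552662)] (nat_lit 5327306)) p13_14_3 (nat_lit 4) (nat_lit 107) (nat_lit 108) = true := by decide +kernel
def p13_14_3_108 : pfC (piC [(nat_lit 38167130), (nat_lit 25010362), (nat_lit 18643303), (nat_lit 12552662)] (nat_lit 5327306)) p13_14_3 (nat_lit 4) (nat_lit 108) (nat_lit 109) = true := by decide +kernel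
def p13_14_3_109 : pfC (piC [(nat_lit 38167130), (nat_lit 25010362), (nat_lit 18643303), (nat_lit 12552662)] (nat_lit 5327306)) p13_14_3 (nat_lit 4) (nat_lit 109) (nat_lit 110) = true := by decide +kernel
def p13_14_3_110 : pfC (piC [(nat_lit 38167130), (nat_lit 25010362), (nat_lit 18643303), (nat_lit 12552662)] (nat_lit 5327306)) p13_14_3 (nat_lit 4) (nat_lit 110) (nat_lit 111) = true := by decide +kernel
def p13_14_3_111 : pfC (piC [(nat_lit 38167130), (nat_lit 25010362), (nat_lit 18643303), (nat_lit 12552662)] (nat_lit 5327306)) p13_14_3 (nat_lit 4) (nat_lit 111) (nat_lit 112) = true := by decide +kernel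
def p13_14_3_112 : pfC (piC [(nat_lit 38167130), (nat_lit 25010362), (nat_lit 18643303), (nat_lit 12552662)] (nat_lit 5327306)) p13_14_3 (nat_lit 4) (nat_lit 112) (nat_lit 113) = true := by decide +kernel
def p13_14_3_113 : pfC (piC [(nat_lit 38167130), (nat_lit 25010362), (nat_lit 18643303), (nat_lit 12552662)] (nat_lit 5327306)) p13_14_3 (nat_lit 4) (nat_lit 113) (nat_lit 114) = true := by decide +kernel
def p13_14_3_114 : pfC (piC [(nat_lit 38167130), (nat_lit 25010362), (nat_lit 18643303), (nat_lit 12552662)] (nat_lit 5327306)) p13_14_3 (nat_lit 4) (nat_lit 114) (nat_lit 115) = true := by decide +kernel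
def p13_14_3_115 : pfC (piC [(nat_lit 38167130), (nat_lit 25010362), (nat_lit 18643303), (nat_lit 12552662)] (nat_lit 5327306)) p13_14_3 (nat_lit 4) (nat_lit 115) (nat_lit 116) = true := by decide +kernel
def p13_14_3_116 : pfC (piC [(nat_lit 38167130), (nat_lit 25010362), (nat_lit 18643303), (nat_lit 12552662)] (nat_lit 5327306)) p13_14_3 (nat_lit 4) (nat_lit 116) (nat_lit 117) = true := by decide +kernel
def p13_14_3_117 : pfC (piC [(nat_lit 38167130), (nat_lit 25010362), (nat_lit 18643303), (nat_lit 12552662)] (nat_lit 5327306)) p13_14_3 (nat_lit 4) (nat_lit 117) (nat_lit 118) = true := by decide +kernel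
def p13_14_3_118 : pfC (piC [(nat_lit 38167130), (nat_lit 25010362), (nat_lit 18643303), (nat_lit 12552662)] (nat_lit 5327306)) p13_14_3 (nat_lit 4) (nat_lit 118) (nat_lit 119) = true := by decide +kernel
def p13_14_3_119 : pfC (piC [(nat_lit 38167130), (nat_lit 25010362), (nat_lit 18643303), (nat_lit 12552662)] (nat_lit 5327306)) p13_14_3 (nat_lit 4) (nat_lit 119) (nat_lit 120) = true := by decide +kernel
def p13_14_3_120 : pfC (piC [(nat_lit 38167130), (nat_lit 25010362), (nat_lit 18643303), (nat_lit 12552662)] (nat_lit 5327306)) p13_14_3 (nat_lit 4) (nat_lit 120) (nat_lit 121) = true := by decide +kernel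
def p13_14_3_121 : pfC (piC [(nat_lit 38167130), (nat_lit 25010362), (nat_lit 18643303), (nat_lit 12552662)] (nat_lit 5327306)) p13_14_3 (nat_lit 4) (nat_lit 121) (nat_lit 122) = true := by decide +kernel
def p13_14_3_122 : pfC (piC [(nat_lit 38167130), (nat_lit 25010362), (nat_lit 18643303), (nat_lit 12552662)] (nat_lit 5327306)) p13_14_3 (nat_lit 4) (nat_lit 122) (nat_lit 123) = true := by decide +kernel
def p13_14_3_123 : pfC (piC [(nat_lit 38167130), (nat_lit 25010362), (nat_lit 18643303), (nat_lit 12552662)] (nat_lit 5327306)) p13_14_3 (nat_lit 4) (nat_lit 123) (nat_lit 124) = true := by decide +kernel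
def p13_14_3_124 : pfC (piC [(nat_lit 38167130), (nat_lit 25010362), (nat_lit 18643303), (nat_lit 12552662)] (nat_lit 5327306)) p13_14_3 (nat_lit 4) (nat_lit 124) (nat_lit 125) = true := by decide +kernel
def p13_14_3_125 : pfC (piC [(nat_lit 38167130), (nat_lit 25010362), (nat_lit 18643303), (nat_lit 12552662)] (nat_lit 5327306)) p13_14_3 (nat_lit 4) (nat_lit 125) (nat_lit 126) = true := by decide +kernel
def p13_14_3_126 : pfC (piC [(nat_lit 38167130), (nat_lit 25010362), (nat_lit 18643303), (nat_lit 12552662)] (nat_lit 5327306)) p13_14_3 (nat_lit 4) (nat_lit 126) (nat_lit 127) = true := by decide +kernel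
def p13_14_3_127 : pfC (piC [(nat_lit 38167130), (nat_lit 25010362), (nat_lit 18643303), (nat_lit 12552662)] (nat_lit 5327306)) p13_14_3 (nat_lit 4) (nat_lit 127) (nat_lit 128) = true := by decide +kernel
def p13_14_3_128 : pfC (piC [(nat_lit 38167130), (nat_lit 25010362), (nat_lit 18643303), (nat_lit 12552662)] (nat_lit 5327306)) p13_14_3 (nat_lit 4) (nat_lit 128) (nat_lit 129) = true := by decide +kernel
def p13_14_3_129 : pfC (piC [(nat_lit 38167130), (nat_lit 25010362), (nat_lit 18643303), (nat_lit 12552662)] (nat_lit 5327306)) p13_14_3 (nat_lit 4) (nat_lit 129) (nat_lit 130) = true := by decide +kernel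
def p13_14_3_130 : pfC (piC [(nat_lit 38167130), (nat_lit 25010362), (nat_lit 18643303), (nat_lit 12552662)] (nat_lit 5327306)) p13_14_3 (nat_lit 4) (nat_lit 130) (nat_lit 131) = true := by decide +kernel
def p13_14_3_131 : pfC (piC [(nat_lit 38167130), (nat_lit 25010362), (nat_lit 18643303), (nat_lit 12552662)] (nat_lit 5327306)) p13_14_3 (nat_lit 4) (nat_lit 131) (nat_lit 132) = true := by decide +kernel
def p13_14_3_132 : pfC (piC [(nat_lit 38167130), (nat_lit 25010362), (nat_lit 18643303), (nat_lit 12552662)] (nat_lit 5327306)) p13_14_3 (nat_lit 4) (nat_lit 132) (nat_lit 133) = true := by decide +kernel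
def p13_14_3_133 : pfC (piC [(nat_lit 38167130), (nat_lit 25010362), (nat_lit 18643303), (nat_lit 12552662)] (nat_lit 5327306)) p13_14_3 (nat_lit 4) (nat_lit 133) (nat_lit 134) = true := by decide +kernel
def p13_14_3_134 : pfC (piC [(nat_lit 38167130), (nat_lit 25010362), (nat_lit 18643303), (nat_lit 12552662)] (nat_lit 5327306)) p13_14_3 (nat_lit 4) (nat_lit 134) (nat_lit 135) = true := by decide +kernel
def p13_14_3_135 : pfC (piC [(nat_lit 38167130), (nat_lit 25010362), (nat_lit 18643303), (nat_lit 12552662)] (nat_lit 5327306)) p13_14_3 (nat_lit 4) (nat_lit 135) (nat_lit 136) = true := by decide +kernel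
def p13_14_3_136 : pfC (piC [(nat_lit 38167130), (nat_lit 25010362), (nat_lit 18643303), (nat_lit 12552662)] (nat_lit 5327306)) p13_14_3 (nat_lit 4) (nat_lit 136) (nat_lit 137) = true := by decide +kernel
def p13_14_3_137 : pfC (piC [(nat_lit 38167130), (nat_lit 25010362), (nat_lit 18643303), (nat_lit 12552662)] (nat_lit 5327306)) p13_14_3 (nat_lit 4) (nat_lit 137) (nat_lit 138) = true := by decide +kernel
def p13_14_3_138 : pfC (piC [(nat_lit 38167130), (nat_lit 25010362), (nat_lit 18643303), (nat_lit 12552662)] (nat_lit 5327306)) p13_14_3 (nat_lit 4) (nat_lit 138) (nat_lit 139) = true := by decide +kernel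
def p13_14_3_139 : pfC (piC [(nat_lit 38167130), (nat_lit 25010362), (nat_lit 18643303), (nat_lit 12552662)] (nat_lit 5327306)) p13_14_3 (nat_lit 4) (nat_lit 139) (nat_lit 140) = true := by decide +kernel
def p13_14_3_140 : pfC (piC [(nat_lit 38167130), (nat_lit 25010362), (nat_lit 18643303), (nat_lit 12552662)] (nat_lit 5327306)) p13_14_3 (nat_lit 4) (nat_lit 140) (nat_lit 141) = true := by decide +kernel
def p13_14_3_141 : pfC (piC [(nat_lit 38167130), (nat_lit 25010362), (nat_lit 18643303), (nat_lit 12552662)] (nat_lit 5327306)) p13_14_3 (nat_lit 4) (nat_lit 141) (nat_lit 142) = true := by decide +kernel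
def p13_14_3_142 : pfC (piC [(nat_lit 38167130), (nat_lit 25010362), (nat_lit 18643303), (nat_lit 12552662)] (nat_lit 5327306)) p13_14_3 (nat_lit 4) (nat_lit 142) (nat_lit 143) = true := by decide +kernel
def p13_14_3_143 : pfC (piC [(nat_lit 38167130), (nat_lit 25010362), (nat_lit 18643303), (nat_lit 12552662)] (nat_lit 5327306)) p13_14_3 (nat_lit 4) (nat_lit 143) (nat_lit 144) = true := by decide +kernel
def p13_14_3_144 : pfC (piC [(nat_lit 38167130), (nat_lit 25010362), (nat_lit 18643303), (nat_lit 12552662)] (nat_lit 5327306)) p13_14_3 (nat_lit 4) (nat_lit 144) (nat_lit 145) = true := by decide +kernel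
def p13_14_3_145 : pfC (piC [(nat_lit 38167130), (nat_lit 25010362), (nat_lit 18643303), (nat_lit 12552662)] (nat_lit 5327306)) p13_14_3 (nat_lit 4) (nat_lit 145) (nat_lit 146) = true := by decide +kernel
def p13_14_3_146 : pfC (piC [(nat_lit 38167130), (nat_lit 25010362), (nat_lit 18643303), (nat_lit 12552662)] (nat_lit 5327306)) p13_14_3 (nat_lit 4) (nat_lit 146) (nat_lit 147) = true := by decide +kernel
def p13_14_3_147 : pfC (piC [(nat_lit 38167130), (nat_lit 25010362), (nat_lit 18643303), (nat_lit 12552662)] (nat_lit 5327306)) p13_14_3 (nat_lit 4) (nat_lit 147) (nat_lit 148) = true := by decide +kernel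
def p13_14_3_148 : pfC (piC [(nat_lit 38167130), (nat_lit 25010362), (nat_lit 18643303), (nat_lit 12552662)] (nat_lit 5327306)) p13_14_3 (nat_lit 4) (nat_lit 148) (nat_lit 149) = true := by decide +kernel
def p13_14_3_149 : pfC (piC [(nat_lit 38167130), (nat_lit 25010362), (nat_lit 18643303), (nat_lit 12552662)] (nat_lit 5327306)) p13_14_3 (nat_lit 4) (nat_lit 149) (nat_lit 150) = true := by decide +kernel
def p13_14_3_150 : pfC (piC [(nat_lit 38167130), (nat_lit 25010362), (nat_lit 18643303), (nat_lit 12552662)] (nat_lit 5327306)) p13_14_3 (nat_lit 4) (nat_lit 150) (nat_lit 151) = true := by decide +kernel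
def p13_14_3_151 : pfC (piC [(nat_lit 38167130), (nat_lit 25010362), (nat_lit 18643303), (nat_lit 12552662)] (nat_lit 5327306)) p13_14_3 (nat_lit 4) (nat_lit 151) (nat_lit 152) = true := by decide +kernel
def p13_14_3_152 : pfC (piC [(nat_lit 38167130), (nat_lit 25010362), (nat_lit 18643303), (nat_lit 12552662)] (nat_lit 5327306)) p13_14_3 (nat_lit 4) (nat_lit 152) (nat_lit 153) = true := by decide +kernel
def p13_14_3_153 : pfC (piC [(nat_lit 38167130), (nat_lit 25010362), (nat_lit 18643303), (nat_lit 12552662)] (nat_lit 5327306)) p13_14_3 (nat_lit 4) (nat_lit 153) (nat_lit 154) = true := by decide +kernel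
def p13_14_3_154 : pfC (piC [(nat_lit 38167130), (nat_lit 25010362), (nat_lit 18643303), (nat_lit 12552662)] (nat_lit 5327306)) p13_14_3 (nat_lit 4) (nat_lit 154) (nat_lit 155) = true := by decide +kernel
def p13_14_3_155 : pfC (piC [(nat_lit 38167130), (nat_lit 25010362), (nat_lit 18643303), (nat_lit 12552662)] (nat_lit 5327306)) p13_14_3 (nat_lit 4) (nat_lit 155) (nat_lit 156) = true := by decide +kernel
def p13_14_3_156 : pfC (piC [(nat_lit 38167130), (nat_lit 25010362), (nat_lit 18643303), (nat_lit 12552662)] (nat_lit 5327306)) p13_14_3 (nat_lit 4) (nat_lit 156) (nat_lit 157) = true := by decide +kernel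
def p13_14_3_157 : pfC (piC [(nat_lit 38167130), (nat_lit 25010362), (nat_lit 18643303), (nat_lit 12552662)] (nat_lit 5327306)) p13_14_3 (nat_lit 4) (nat_lit 157) (nat_lit 158) = true := by decide +kernel
def p13_14_3_158 : pfC (piC [(nat_lit 38167130), (nat_lit 25010362), (nat_lit 18643303), (nat_lit 12552662)] (nat_lit 5327306)) p13_14_3 (nat_lit 4) (nat_lit 158) (nat_lit 159) = true := by decide +kernel
def p13_14_3_159 : pfC (piC [(nat_lit 38167130), (nat_lit 25010362), (nat_lit 18643303), (nat_lit 12552662)] (nat_lit 5327306)) p13_14_3 (nat_lit 4) (nat_lit 159) (nat_lit 160) = true := by decide +kernel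
def p13_14_3_160 : pfC (piC [(nat_lit 38167130), (nat_lit 25010362), (nat_lit 18643303), (nat_lit 12552662)] (nat_lit 5327306)) p13_14_3 (nat_lit 4) (nat_lit 160) (nat_lit 161) = true := by decide +kernel
def p13_14_3_161 : pfC (piC [(nat_lit 38167130), (nat_lit 25010362), (nat_lit 18643303), (nat_lit 12552662)] (nat_lit 5327306)) p13_14_3 (nat_lit 4) (nat_lit 161) (nat_lit 162) = true := by decide +kernel
def p13_14_3_162 : pfC (piC [(nat_lit 38167130), (nat_lit 25010362), (nat_lit 18643303), (nat_lit 12552662)] (nat_lit 5327306)) p13_14_3 (nat_lit 4) (nat_lit 162) (nat_lit 163) = true := by decide +kernel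
def p13_14_3_163 : pfC (piC [(nat_lit 38167130), (nat_lit 25010362), (nat_lit 18643303), (nat_lit 12552662)] (nat_lit 5327306)) p13_14_3 (nat_lit 4) (nat_lit 163) (nat_lit 164) = true := by decide +kernel
def p13_14_3_164 : pfC (piC [(nat_lit 38167130), (nat_lit 25010362), (nat_lit 18643303), (nat_lit 12552662)] (nat_lit 5327306)) p13_14_3 (nat_lit 4) (nat_lit 164) (nat_lit 165) = true := by decide +kernel
def p13_14_3_165 : pfC (piC [(nat_lit 38167130), (nat_lit 25010362), (nat_lit 18643303), (nat_lit 12552662)] (nat_lit 5327306)) p13_14_3 (nat_lit 4) (nat_lit 165) (nat_lit 166) = true := by decide +kernel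
def p13_14_3_166 : pfC (piC [(nat_lit 38167130), (nat_lit 25010362), (nat_lit 18643303), (nat_lit 12552662)] (nat_lit 5327306)) p13_14_3 (nat_lit 4) (nat_lit 166) (nat_lit 167) = true := by decide +kernel
def p13_14_3_167 : pfC (piC [(nat_lit 38167130), (nat_lit 25010362), (nat_lit 18643303), (nat_lit 12552662)] (nat_lit 5327306)) p13_14_3 (nat_lit 4) (nat_lit 167) (nat_lit 168) = true := by decide +kernel
def p13_14_3_168 : pfC (piC [(nat_lit 38167130), (nat_lit 25010362), (nat_lit 18643303), (nat_lit 12552662)] (nat_lit 5327306)) p13_14_3 (nat_lit 4) (nat_lit 168) (nat_lit 169) = true := by decide +kernel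
def p13_14_3_169 : pfC (piC [(nat_lit 38167130), (nat_lit 25010362), (nat_lit 18643303), (nat_lit 12552662)] (nat_lit 5327306)) p13_14_3 (nat_lit 4) (nat_lit 169) (nat_lit 170) = true := by decide +kernel
def p13_14_3_170 : pfC (piC [(nat_lit 38167130), (nat_lit 25010362), (nat_lit 18643303), (nat_lit 12552662)] (nat_lit 5327306)) p13_14_3 (nat_lit 4) (nat_lit 170) (nat_lit 171) = true := by decide +kernel
def p13_14_3_171 : pfC (piC [(nat_lit 38167130), (nat_lit 25010362), (nat_lit 18643303), (nat_lit 12552662)] (nat_lit 5327306)) p13_14_3 (nat_lit 4) (nat_lit 171) (nat_lit 172) = true := by decide +kernel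
def p13_14_3_172 : pfC (piC [(nat_lit 38167130), (nat_lit 25010362), (nat_lit 18643303), (nat_lit 12552662)] (nat_lit 5327306)) p13_14_3 (nat_lit 4) (nat_lit 172) (nat_lit 173) = true := by decide +kernel
def p13_14_3_173 : pfC (piC [(nat_lit 38167130), (nat_lit 25010362), (nat_lit 18643303), (nat_lit 12552662)] (nat_lit 5327306)) p13_14_3 (nat_lit 4) (nat_lit 173) (nat_lit 174) = true := by decide +kernel
def p13_14_3_174 : pfC (piC [(nat_lit 38167130), (nat_lit 25010362), (nat_lit 18643303), (nat_lit 12552662)] (nat_lit 5327306)) p13_14_3 (nat_lit 4) (nat_lit 174) (nat_lit 175) = true := by decide +kernel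
def p13_14_3_175 : pfC (piC [(nat_lit 38167130), (nat_lit 25010362), (nat_lit 18643303), (nat_lit 12552662)] (nat_lit 5327306)) p13_14_3 (nat_lit 4) (nat_lit 175) (nat_lit 176) = true := by decide +kernel
def p13_14_3_176 : pfC (piC [(nat_lit 38167130), (nat_lit 25010362), (nat_lit 18643303), (nat_lit 12552662)] (nat_lit 5327306)) p13_14_3 (nat_lit 4) (nat_lit 176) (nat_lit 177) = true := by decide +kernel
def p13_14_3_177 : pfC (piC [(nat_lit 38167130), (nat_lit 25010362), (nat_lit 18643303), (nat_lit 12552662)] (nat_lit 5327306)) p13_14_3 (nat_lit 4) (nat_lit 177) (nat_lit 178) = true := by decide +kernel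
def p13_14_3_178 : pfC (piC [(nat_lit 38167130), (nat_lit 25010362), (nat_lit 18643303), (nat_lit 12552662)] (nat_lit 5327306)) p13_14_3 (nat_lit 4) (nat_lit 178) (nat_lit 179) = true := by decide +kernel
def p13_14_3_179 : pfC (piC [(nat_lit 38167130), (nat_lit 25010362), (nat_lit 18643303), (nat_lit 12552662)] (nat_lit 5327306)) p13_14_3 (nat_lit 4) (nat_lit 179) (nat_lit 180) = true := by decide +kernel
def p13_14_3_180 : pfC (piC [(nat_lit 38167130), (nat_lit 25010362), (nat_lit 18643303), (nat_lit 12552662)] (nat_lit 5327306)) p13_14_3 (nat_lit 4) (nat_lit 180) (nat_lit 181) = true := by decide +kernel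
def p13_14_3_181 : pfC (piC [(nat_lit 38167130), (nat_lit 25010362), (nat_lit 18643303), (nat_lit 12552662)] (nat_lit 5327306)) p13_14_3 (nat_lit 4) (nat_lit 181) (nat_lit 182) = true := by decide +kernel
def p13_14_3_182 : pfC (piC [(nat_lit 38167130), (nat_lit 25010362), (nat_lit 18643303), (nat_lit 12552662)] (nat_lit 5327306)) p13_14_3 (nat_lit 4) (nat_lit 182) (nat_lit 183) = true := by decide +kernel
def p13_14_3_183 : pfC (piC [(nat_lit 38167130), (nat_lit 25010362), (nat_lit 18643303), (nat_lit 12552662)] (nat_lit 5327306)) p13_14_3 (nat_lit 4) (nat_lit 183) (nat_lit 184) = true := by decide +kernel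
def p13_14_3_184 : pfC (piC [(nat_lit 38167130), (nat_lit 25010362), (nat_lit 18643303), (nat_lit 12552662)] (nat_lit 5327306)) p13_14_3 (nat_lit 4) (nat_lit 184) (nat_lit 185) = true := by decide +kernel
def p13_14_3_185 : pfC (piC [(nat_lit 38167130), (nat_lit 25010362), (nat_lit 18643303), (nat_lit 12552662)] (nat_lit 5327306)) p13_14_3 (nat_lit 4) (nat_lit 185) (nat_lit 186) = true := by decide +kernel
def p13_14_3_186 : pfC (piC [(nat_lit 38167130), (nat_lit 25010362), (nat_lit 18643303), (nat_lit 12552662)] (nat_lit 5327306)) p13_14_3 (nat_lit 4) (nat_lit 186) (nat_lit 187) = true := by decide +kernel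
def p13_14_3_187 : pfC (piC [(nat_lit 38167130), (nat_lit 25010362), (nat_lit 18643303), (nat_lit 12552662)] (nat_lit 5327306)) p13_14_3 (nat_lit 4) (nat_lit 187) (nat_lit 188) = true := by decide +kernel
theorem p13_14_3_T : PfS (PiF n13_14.reverse (nat_lit 5327306)) p13_14_3 (nat_lit 4) [] 0 :=
  pftab_of (los := [(nat_lit 38167130), (nat_lit 25010362), (nat_lit 18643303), (nat_lit 12552662)]) (by decide +kernel) (hi := (nat_lit 188)) (PfP.trans (PfP.trans (PfP.trans (PfP.trans (PfP.trans (PfP.trans (PfP.trans (PfP.trans (PfP.trans (PfP.trans (PfP.trans (PfP.trans (PfP.trans (PfP.trans (PfP.trans (PfP.trans (PfP.trans (PfP.trans (PfP.trans (PfP.trans (PfP.trans (PfP.trans (PfP.trans (PfP.trans (PfP.trans (PfP.trans (PfP.trans (PfP.trans (PfP.trans (PfP.trans (PfP.trans (PfP.trans (PfP.trans (PfP.trans (PfP.trans (PfP.trans (PfP.trans (PfP.trans (PfP.trans (PfP.trans (PfP.trans (PfP.trans (PfP.trans (PfP.trans (PfP.trans (PfP.trans (PfP.trans (PfP.trans (PfP.trans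 (PfP.trans (PfP.trans (PfP.trans (PfP.trans (PfP.trans (PfP.trans (PfP.trans (PfP.trans (PfP.trans (PfP.trans (PfP.trans (PfP.trans (PfP.trans (PfP.trans (PfP.trans (PfP.trans (PfP.trans (PfP.trans (PfP.trans (PfP.trans (PfP.trans (PfP.trans (PfP.trans (PfP.trans (PfP.trans (PfP.trans (PfP.trans (PfP.trans (PfP.trans (PfP.trans (PfP.trans (PfP.trans (PfP.trans (PfP.trans (PfP.trans (PfP.trans (PfP.trans (PfP.trans (PfP.trans (PfP.trans (PfP.trans (PfP.trans (PfP.trans (PfP.trans (PfP.trans (PfP.trans (PfP.trans (PfP.trans (PfP.trans (PfP.trans (PfP.trans (PfP.trans (PfP.trans (PfP.trans (PfP.trans (PfP.trans (PfP.trans (PfP.trans (PfP.trans (PfP.trans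
 (PfP.trans (PfP.trans (PfP.trans (PfP.trans (PfP.trans (PfP.trans (PfP.trans (PfP.trans (PfP.trans (PfP.trans (PfP.trans (PfP.trans (PfP.trans (PfP.trans (PfP.trans (PfP.trans (PfP.trans (PfP.trans (PfP.trans (PfP.trans (PfP.trans (PfP.trans (PfP.trans (PfP.trans (PfP.trans (PfP.trans (PfP.trans (PfP.trans (PfP.trans (PfP.trans (PfP.trans (PfP.trans (PfP.trans (PfP.trans (PfP.trans (PfP.trans (PfP.trans (PfP.trans (PfP.trans (PfP.trans (PfP.trans (PfP.trans (PfP.trans (PfP.trans (PfP.trans (PfP.trans (PfP.trans (PfP.trans (PfP.trans (PfP.trans (PfP.trans (PfP.trans (PfP.trans (PfP.trans (PfP.trans (PfP.trans (PfP.trans (PfP.trans (PfP.trans (PfP.trans (PfP.trans (PfP.trans (PfP.trans (PfP.trans (PfP.trans (PfP.trans (PfP.trans (PfP.trans (PfP.trans (PfP.trans (PfP.trans (PfP.trans (PfP.trans (PfP.trans (PfP.trans (PfP.trans (PfP.trans (PfP.trans (pfC_sound p13_14_3_0) (pfC_sound p13_14_3_1)) (pfC_sound p13_14_3_2)) (pfC_sound p13_14_3_3)) (pfC_sound p13_14_3_4)) (pfC_sound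 p13_14_3_5)) (pfC_sound p13_14_3_6)) (pfC_sound p13_14_3_7)) (pfC_sound p13_14_3_8)) (pfC_sound p13_14_3_9)) (pfC_sound p13_14_3_10)) (pfC_sound p13_14_3_11)) (pfC_sound p13_14_3_12)) (pfC_sound p13_14_3_13))
 (pfC_sound p13_14_3_14)) (pfC_sound p13_14_3_15)) (pfC_sound p13_14_3_16)) (pfC_sound p13_14_3_17)) (pfC_sound p13_14_3_18)) (pfC_sound p13_14_3_19)) (pfC_sound p13_14_3_20)) (pfC_sound p13_14_3_21)) (pfC_sound p13_14_3_22)) (pfC_sound p13_14_3_23)) (pfC_sound p13_14_3_24)) (pfC_sound p13_14_3_25)) (pfC_sound p13_14_3_26)) (pfC_sound p13_14_3_27)) (pfC_sound p13_14_3_28)) (pfC_sound p13_14_3_29)) (pfC_sound p13_14_3_30)) (pfC_sound p13_14_3_31)) (pfC_sound p13_14_3_32)) (pfC_sound p13_14_3_33)) (pfC_sound p13_14_3_34)) (pfC_sound p13_14_3_35)) (pfC_sound p13_14_3_36)) (pfC_sound p13_14_3_37)) (pfC_sound p13_14_3_38)) (pfC_sound p13_14_3_39)) (pfC_sound p13_14_3_40)) (pfC_sound p13_14_3_41)) (pfC_sound p13_14_3_42)) (pfC_sound p13_14_3_43)) (pfC_sound p13_14_3_44))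 (pfC_sound p13_14_3_45)) (pfC_sound p13_14_3_46)) (pfC_sound p13_14_3_47)) (pfC_sound p13_14_3_48)) (pfC_sound p13_14_3_49)) (pfC_sound p13_14_3_50)) (pfC_sound p13_14_3_51)) (pfC_sound p13_14_3_52)) (pfC_sound p13_14_3_53)) (pfC_sound p13_14_3_54)) (pfC_sound p13_14_3_55)) (pfC_sound p13_14_3_56)) (pfC_sound p13_14_3_57)) (pfC_sound p13_14_3_58)) (pfC_sound p13_14_3_59)) (pfC_sound p13_14_3_60)) (pfC_sound p13_14_3_61))
 (pfC_sound p13_14_3_62)) (pfC_sound p13_14_3_63)) (pfC_sound p13_14_3_64)) (pfC_sound p13_14_3_65)) (pfC_sound p13_14_3_66)) (pfC_sound p13_14_3_67)) (pfC_sound p13_14_3_68)) (pfC_sound p13_14_3_69)) (pfC_sound p13_14_3_70)) (pfC_sound p13_14_3_71)) (pfC_sound p13_14_3_72)) (pfC_sound p13_14_3_73)) (pfC_sound p13_14_3_74)) (pfC_sound p13_14_3_75)) (pfC_sound p13_14_3_76)) (pfC_sound p13_14_3_77)) (pfC_sound p13_14_3_78)) (pfC_sound p13_14_3_79)) (pfC_sound p13_14_3_80)) (pfC_sound p13_14_3_81)) (pfC_sound p13_14_3_82)) (pfC_sound p13_14_3_83)) (pfC_sound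 p13_14_3_84)) (pfC_sound p13_14_3_85)) (pfC_sound p13_14_3_86)) (pfC_sound p13_14_3_87)) (pfC_sound p13_14_3_88)) (pfC_sound p13_14_3_89)) (pfC_sound p13_14_3_90)) (pfC_sound p13_14_3_91)) (pfC_sound p13_14_3_92)) (pfC_sound p13_14_3_93)) (pfC_sound p13_14_3_94)) (pfC_sound p13_14_3_95)) (pfC_sound p13_14_3_96)) (pfC_sound p13_14_3_97)) (pfC_sound p13_14_3_98)) (pfC_sound p13_14_3_99)) (pfC_sound p13_14_3_100)) (pfC_sound p13_14_3_101)) (pfC_sound p13_14_3_102)) (pfC_sound p13_14_3_103)) (pfC_sound p13_14_3_104)) (pfC_sound p13_14_3_105)) (pfC_sound p13_14_3_106)) (pfC_sound p13_14_3_107)) (pfC_sound p13_14_3_108)) (pfC_sound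
 p13_14_3_109)) (pfC_sound p13_14_3_110)) (pfC_sound p13_14_3_111)) (pfC_sound p13_14_3_112)) (pfC_sound p13_14_3_113)) (pfC_sound p13_14_3_114)) (pfC_sound p13_14_3_115)) (pfC_sound p13_14_3_116)) (pfC_sound p13_14_3_117)) (pfC_sound p13_14_3_118)) (pfC_sound p13_14_3_119)) (pfC_sound p13_14_3_120)) (pfC_sound p13_14_3_121)) (pfC_sound p13_14_3_122)) (pfC_sound p13_14_3_123)) (pfC_sound p13_14_3_124)) (pfC_sound p13_14_3_125)) (pfC_sound p13_14_3_126)) (pfC_sound p13_14_3_127)) (pfC_sound p13_14_3_128)) (pfC_sound p13_14_3_129)) (pfC_sound p13_14_3_130)) (pfC_sound p13_14_3_131)) (pfC_sound p13_14_3_132)) (pfC_sound p13_14_3_133)) (pfC_sound p13_14_3_134)) (pfC_sound p13_14_3_135)) (pfC_sound p13_14_3_136)) (pfC_sound p13_14_3_137)) (pfC_sound p13_14_3_138)) (pfC_sound p13_14_3_139)) (pfC_sound p13_14_3_140)) (pfC_sound p13_14_3_141)) (pfC_sound p13_14_3_142)) (pfC_sound p13_14_3_143)) (pfC_sound p13_14_3_144)) (pfC_sound p13_14_3_145)) (pfC_sound p13_14_3_146)) (pfC_sound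 p13_14_3_147)) (pfC_sound p13_14_3_148)) (pfC_sound p13_14_3_149)) (pfC_sound p13_14_3_150)) (pfC_sound p13_14_3_151)) (pfC_sound p13_14_3_152)) (pfC_sound p13_14_3_153)) (pfC_sound p13_14_3_154)) (pfC_sound
 p13_14_3_155)) (pfC_sound p13_14_3_156)) (pfC_sound p13_14_3_157)) (pfC_sound p13_14_3_158)) (pfC_sound p13_14_3_159)) (pfC_sound p13_14_3_160)) (pfC_sound p13_14_3_161)) (pfC_sound p13_14_3_162)) (pfC_sound p13_14_3_163)) (pfC_sound p13_14_3_164)) (pfC_sound p13_14_3_165)) (pfC_sound p13_14_3_166)) (pfC_sound p13_14_3_167)) (pfC_sound p13_14_3_168)) (pfC_sound p13_14_3_169)) (pfC_sound p13_14_3_170)) (pfC_sound p13_14_3_171)) (pfC_sound p13_14_3_172)) (pfC_sound p13_14_3_173)) (pfC_sound p13_14_3_174)) (pfC_sound p13_14_3_175)) (pfC_sound p13_14_3_176)) (pfC_sound p13_14_3_177)) (pfC_sound p13_14_3_178)) (pfC_sound p13_14_3_179)) (pfC_sound p13_14_3_180)) (pfC_sound p13_14_3_181)) (pfC_sound p13_14_3_182)) (pfC_sound p13_14_3_183)) (pfC_sound p13_14_3_184)) (pfC_sound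 p13_14_3_185)) (pfC_sound p13_14_3_186)) (pfC_sound p13_14_3_187)) (by decide +kernel)

def z13_14_3 : zOK yB13_14 (nat_lit 3) (nat_lit 750) (nat_lit 832) (nat_lit 5327306) (nat_lit 4877605) = true := by decide +kernel
def g13_14_3 : gOK yB13_14.x P13_14 (nat_lit 1412) (q13_14 :: r13_14) (nat_lit 3) (nat_lit 750) (nat_lit 4) (nat_lit 832) (nat_lit 12712500) (nat_lit 12712500) (nat_lit 12712500) (nat_lit 12712500) [(nat_lit 800)] = true := by decide +kernel
def v13_14_3 : ivC P13_14 s13_14 w13_14 n13_14 (nat_lit 4) (nat_lit 4630) (nat_lit 3) (nat_lit 750) f160_1_750 f168_1_750 (nat_lit 4) (nat_lit 832) f160_1_832 f168_1_832 (nat_lit 5327306) (nat_lit 4877605) p13_14_3 = true := by decide +kernel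
end CB
end Pool.Agent.Lib.MP_6947cd_al
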