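import Pool.Agent.Lib.MP_6947cd_al.L.CellBQ

/-!
Problem MP_6947cd_al (Chollet).  CASE B, rows `j`: tables of row values (generated).
-/

set_option autoImplicit false
set_option linter.defProp false
set_option maxRecDepth 20000

namespace Pool.Agent.Lib.MP_6947cd_al
namespace CB

open Ent Ent.Pk Fr Fr.WT CA

def f176_1_400 : FT := (FT.cons (FT.cons (FT.cons (FT.cons (FT.leaf [(nat_lit 3617934), (nat_lit 3773218), (nat_lit 3940430), (nat_lit 4116611), (nat_lit 4299590), (nat_lit 4487687), (nat_lit 4679572), (nat_lit 4874164), (nat_lit 5070579), (nat_lit 5268088), (nat_lit 5466085), (nat_lit 5664069), (nat_lit 5861622), (nat_lit 6058398), (nat_lit 6254109), (nat_lit 6448519)]) (FT.cons (FT.leaf [(nat_lit 3925724), (nat_lit 4095516), (nat_lit 4273439), (nat_lit 4457463), (nat_lit 4646027), (nat_lit 4837897), (nat_lit 5032074), (nat_lit 5227745), (nat_lit 5424236), (nat_lit 5620994), (nat_lit 5817558), (nat_lit 6013545), (nat_lit 6208639),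 (nat_lit 6402580), (nat_lit 6595149)]) (FT.cons (FT.leaf [(nat_lit 4251053), (nat_lit 4430272), (nat_lit 4614977), (nat_lit 4803712), (nat_lit 4995327), (nat_lit 5188896), (nat_lit 5383667), (nat_lit 5579021), (nat_lit 5774444), (nat_lit 5969515), (nat_lit 6163883), (nat_lit 6357259), (nat_lit 6549404), (nat_lit 6740118)]) (FT.cons (FT.leaf [(nat_lit 4586862), (nat_lit 4771937), (nat_lit 4960587), (nat_lit 5151740), (nat_lit 5344536), (nat_lit 5538276), (nat_lit 5732387), (nat_lit 5926398), (nat_lit 6119917), (nat_lit 6312625), (nat_lit 6504255), (nat_lit 6694586)]) (FT.cons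
 (FT.leaf [(nat_lit 4928177), (nat_lit 5116523), (nat_lit 5307037), (nat_lit 5498918), (nat_lit 5691515), (nat_lit 5884297), (nat_lit 6076829), (nat_lit 6268750), (nat_lit 6459763), (nat_lit 6649624)]) (FT.cons (FT.leaf [(nat_lit 5271410), (nat_lit 5461134), (nat_lit 5651979), (nat_lit 5843338), (nat_lit 6034720), (nat_lit 6225718), (nat_lit 6416002), (nat_lit 6605296), (nat_lit 6793377)]) (FT.cons (FT.leaf [(nat_lit 5613962), (nat_lit 5803667), (nat_lit 5993711), (nat_lit 6183631), (nat_lit 6373055), (nat_lit 6561670), (nat_lit 6749227)]) (FT.cons (FT.leaf [(nat_lit 5953946), (nat_lit 6142606), (nat_lit 6331016), (nat_lit 6518828), (nat_lit 6705755)]) (FT.cons (FT.leaf [(nat_lit 6290003), (nat_lit 6476864), (nat_lit 6663038), (nat_lit 6848260)]) (FT.cons (FT.leaf [(nat_lit 6621171), (nat_lit 6805688)]) (FT.cons (FT.leaf [(nat_lit 6946780)]) (FT.cons (FT.leaf [(nat_lit 7266385)]) FT.nil)))))))))))) (FT.cons (FT.cons (FT.leaf [(nat_lit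 4147982), (nat_lit 4318170), (nat_lit 4495857), (nat_lit 4679098), (nat_lit 4866417), (nat_lit 5056653), (nat_lit 5248876), (nat_lit 5442329), (nat_lit 5636394), (nat_lit 5830558), (nat_lit 6024400), (nat_lit 6217569), (nat_lit 6409777), (nat_lit
 6600783), (nat_lit 6790390)]) (FT.cons (FT.leaf [(nat_lit 4472790), (nat_lit 4651410), (nat_lit 4835034), (nat_lit 5022283), (nat_lit 5212072), (nat_lit 5403538), (nat_lit 5595978), (nat_lit 5788821), (nat_lit 5981593), (nat_lit 6173906), (nat_lit 6365438), (nat_lit 6555922), (nat_lit 6745139), (nat_lit 6932911)]) (FT.cons (FT.leaf [(nat_lit 4806515), (nat_lit 4990256), (nat_lit 5177217), (nat_lit 5366385), (nat_lit 5556953), (nat_lit 5748272), (nat_lit 5939807), (nat_lit 6131123), (nat_lit 6321859), (nat_lit 6511720), (nat_lit 6700460), (nat_lit 6887881)]) (FT.cons (FT.leaf [(nat_lit 5144628), (nat_lit 5331114), (nat_lit 5519511), (nat_lit 5709064), (nat_lit 5899166), (nat_lit 6089323), (nat_lit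 6279129), (nat_lit 6468252), (nat_lit 6656416), (nat_lit 6843400)]) (FT.cons (FT.leaf [(nat_lit 5483885), (nat_lit 5671382), (nat_lit 5859818), (nat_lit 6048626), (nat_lit 6237346), (nat_lit 6425600), (nat_lit 6613078), (nat_lit 6799531), (nat_lit 6984749)]) (FT.cons (FT.leaf [(nat_lit 5821946), (nat_lit 6009179), (nat_lit 6196627), (nat_lit 6383860), (nat_lit 6570526), (nat_lit 6756341), (nat_lit 6941068)]) (FT.cons (FT.leaf [(nat_lit 6157114), (nat_lit 6343148), (nat_lit 6528855),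
 (nat_lit 6713909), (nat_lit 6898042)]) (FT.cons (FT.leaf [(nat_lit 6488178), (nat_lit 6672329), (nat_lit 6855749), (nat_lit 7038191)]) (FT.cons (FT.leaf [(nat_lit 6814278), (nat_lit 6996051)]) (FT.cons (FT.leaf [(nat_lit 7134823)]) (FT.cons (FT.leaf [(nat_lit 7449422)]) FT.nil))))))))))) (FT.cons (FT.cons (FT.leaf [(nat_lit 4691949), (nat_lit 4869666), (nat_lit 5051971), (nat_lit 5237546), (nat_lit 5425372), (nat_lit 5614635), (nat_lit 5804682), (nat_lit 5994980), (nat_lit 6185089), (nat_lit 6374652), (nat_lit 6563368)]) (FT.cons (FT.leaf [(nat_lit 5023125), (nat_lit 5205337), (nat_lit 5390459), (nat_lit 5577533), (nat_lit 5765803), (nat_lit 5954656), (nat_lit 6143597), (nat_lit 6332221), (nat_lit 6520191), (nat_lit 6707239)]) (FT.cons (FT.leaf [(nat_lit 5357751), (nat_lit 5542259), (nat_lit 5728456), (nat_lit 5915631), (nat_lit 6103213), (nat_lit 6290740), (nat_lit 6477833), (nat_lit 6664186), (nat_lit 6849544)]) (FT.cons (FT.leaf [(nat_lit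 5692876), (nat_lit 5878087), (nat_lit 6064082), (nat_lit 6250327), (nat_lit 6436391), (nat_lit 6621923), (nat_lit 6806635)]) (FT.cons (FT.leaf [(nat_lit 6026382), (nat_lit 6211126), (nat_lit 6395980), (nat_lit 6580543), (nat_lit 6764486)])
 (FT.cons (FT.leaf [(nat_lit 6356741), (nat_lit 6540161), (nat_lit 6723192), (nat_lit 6905525)]) (FT.cons (FT.leaf [(nat_lit 6682861), (nat_lit 6864335)]) (FT.cons (FT.leaf [(nat_lit 7003975)]) (FT.cons (FT.leaf [(nat_lit 7319558)]) FT.nil))))))))) (FT.cons (FT.cons (FT.leaf [(nat_lit 5236587), (nat_lit 5417116), (nat_lit 5600286), (nat_lit 5785189), (nat_lit 5971109), (nat_lit 6157473), (nat_lit 6343817), (nat_lit 6529761), (nat_lit 6714997), (nat_lit 6899271)]) (FT.cons (FT.leaf [(nat_lit 5567510), (nat_lit 5749954), (nat_lit 5933894), (nat_lit 6118659), (nat_lit 6303709), (nat_lit 6488615), (nat_lit 6673021), (nat_lit 6856640), (nat_lit 7039236)]) (FT.cons (FT.leaf [(nat_lit 5898397), (nat_lit 6081282),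 (nat_lit 6264818), (nat_lit 6448504), (nat_lit 6631931), (nat_lit 6814773), (nat_lit 6996759)]) (FT.cons (FT.leaf [(nat_lit 6227318), (nat_lit 6409568), (nat_lit 6591843), (nat_lit 6773763), (nat_lit 6955019)]) (FT.cons (FT.leaf [(nat_lit 6552891), (nat_lit 6733720), (nat_lit 6914108), (nat_lit 7093764)]) (FT.cons (FT.leaf [(nat_lit 6874131), (nat_lit 7052968)]) (FT.cons (FT.leaf [(nat_lit 7190350)]) (FT.cons (FT.leaf [(nat_lit 7501078)]) FT.nil)))))))) (FT.cons (FT.cons (FT.leaf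
 [(nat_lit 5773896), (nat_lit 5954213), (nat_lit 6135859), (nat_lit 6318198), (nat_lit 6500722), (nat_lit 6683024), (nat_lit 6864774), (nat_lit 7045700)]) (FT.cons (FT.leaf [(nat_lit 6100475), (nat_lit 6281013), (nat_lit 6462090), (nat_lit 6643229), (nat_lit 6824047), (nat_lit 7004235), (nat_lit 7183540)]) (FT.cons (FT.leaf [(nat_lit 6424809), (nat_lit 6604574), (nat_lit 6784291), (nat_lit 6963601), (nat_lit 7142212)]) (FT.cons (FT.leaf [(nat_lit 6745639), (nat_lit 6923906), (nat_lit 7101688), (nat_lit 7278715)]) (FT.cons (FT.leaf [(nat_lit 7062073), (nat_lit 7238316)]) (FT.cons (FT.leaf [(nat_lit 7373491)]) FT.nil)))))) (FT.cons (FT.cons (FT.leaf [(nat_lit 6299155), (nat_lit 6477338), (nat_lit 6655963), (nat_lit 6834576), (nat_lit 7012817), (nat_lit 7190394)]) (FT.cons (FT.leaf [(nat_lit 6618918), (nat_lit 6796215), (nat_lit 6973403), (nat_lit 7150140), (nat_lit 7326154)]) (FT.cons (FT.leaf [(nat_lit 6935061), (nat_lit 7110800), (nat_lit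 7286021), (nat_lit 7460466)]) (FT.cons (FT.leaf [(nat_lit 7246771), (nat_lit 7420466)]) (FT.cons (FT.leaf [(nat_lit 7553486)]) FT.nil))))) (FT.cons (FT.cons (FT.leaf [(nat_lit 6809714), (nat_lit 6984566), (nat_lit 7159259)]) (FT.cons (FT.leaf
 [(nat_lit 7121235), (nat_lit 7294485)]) (FT.cons (FT.leaf [(nat_lit 7428308)]) FT.nil))) (FT.cons (FT.cons (FT.leaf [(nat_lit 7304242)]) (FT.cons (FT.leaf [(nat_lit 7606770)]) FT.nil)) (FT.cons (FT.cons (FT.leaf [(nat_lit 7782238)]) FT.nil) (FT.cons (FT.cons (FT.leaf [(nat_lit 8243725)]) FT.nil) FT.nil)))))))))) (FT.cons (FT.cons (FT.cons (FT.leaf [(nat_lit 4529701), (nat_lit 4696794), (nat_lit 4870818), (nat_lit 5049918), (nat_lit 5232700), (nat_lit 5418083), (nat_lit 5605206), (nat_lit 5793375), (nat_lit 5982022), (nat_lit 6170680), (nat_lit 6358966), (nat_lit 6546559), (nat_lit 6733203), (nat_lit 6918677), (nat_lit 7102806)]) (FT.cons (FT.leaf [(nat_lit 4847669), (nat_lit 5022350), (nat_lit 5201618),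 (nat_lit 5384168), (nat_lit 5568991), (nat_lit 5755285), (nat_lit 5942403), (nat_lit 6129817), (nat_lit 6317098), (nat_lit 6503887), (nat_lit 6689896), (nat_lit 6874881), (nat_lit 7058642), (nat_lit 7241017)]) (FT.cons (FT.leaf [(nat_lit 5173301), (nat_lit 5352513), (nat_lit 5534651), (nat_lit 5718769), (nat_lit 5904117), (nat_lit 6090094), (nat_lit 6276208), (nat_lit 6462059), (nat_lit 6647320), (nat_lit 6831716), (nat_lit 7015027), (nat_lit 7197069)]) (FT.cons (FT.leaf [(nat_lit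
 5502493), (nat_lit 5684063), (nat_lit 5867352), (nat_lit 6051658), (nat_lit 6236416), (nat_lit 6421173), (nat_lit 6605554), (nat_lit 6789254), (nat_lit 6972022), (nat_lit 7153650)]) (FT.cons (FT.leaf [(nat_lit 5832336), (nat_lit 6014689), (nat_lit 6197868), (nat_lit 6381347), (nat_lit 6564698), (nat_lit 6747575), (nat_lit 6929692), (nat_lit 7110817), (nat_lit 7290758)]) (FT.cons (FT.leaf [(nat_lit 6160738), (nat_lit 6342721), (nat_lit 6524865), (nat_lit 6706773), (nat_lit 6888119), (nat_lit 7068637), (nat_lit 7248111)]) (FT.cons (FT.leaf [(nat_lit 6486192), (nat_lit 6666960), (nat_lit 6847392), (nat_lit 7027187), (nat_lit 7206095)]) (FT.cons (FT.leaf [(nat_lit 6807621), (nat_lit 6986554), (nat_lit 7164783), (nat_lit 7342074)]) (FT.cons (FT.leaf [(nat_lit 7124262), (nat_lit 7300914)]) (FT.cons (FT.leaf [(nat_lit 7435590)]) FT.nil)))))))))) (FT.cons (FT.cons (FT.leaf [(nat_lit 5060451), (nat_lit 5234042), (nat_lit 5411862), (nat_lit 5592666),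 (nat_lit 5775497), (nat_lit 5959599), (nat_lit 6144365), (nat_lit 6329302), (nat_lit 6514012), (nat_lit 6698162), (nat_lit 6881481), (nat_lit 7063744), (nat_lit 7244768)]) (FT.cons (FT.leaf [(nat_lit 5383283), (nat_lit 5560879), (nat_lit
 5741139), (nat_lit 5923163), (nat_lit 6106244), (nat_lit 6289817), (nat_lit 6473422), (nat_lit 6656684), (nat_lit 6839297), (nat_lit 7021009), (nat_lit 7201612), (nat_lit 7380938)]) (FT.cons (FT.leaf [(nat_lit 5708906), (nat_lit 5888488), (nat_lit 6069600), (nat_lit 6251579), (nat_lit 6433895), (nat_lit 6616117), (nat_lit 6797899), (nat_lit 6978952), (nat_lit 7159045), (nat_lit 7337982)]) (FT.cons (FT.leaf [(nat_lit 6034656), (nat_lit 6214766), (nat_lit 6395573), (nat_lit 6576578), (nat_lit 6757380), (nat_lit 6937654), (nat_lit 7117132), (nat_lit 7295596), (nat_lit 7472868)]) (FT.cons (FT.leaf [(nat_lit 6358628), (nat_lit 6538203), (nat_lit 6717855), (nat_lit 6897206), (nat_lit 7075951), (nat_lit 7253841),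 (nat_lit 7430674)]) (FT.cons (FT.leaf [(nat_lit 6679456), (nat_lit 6857717), (nat_lit 7035592), (nat_lit 7212794), (nat_lit 7389090)]) (FT.cons (FT.leaf [(nat_lit 6996161), (nat_lit 7172542), (nat_lit 7348190), (nat_lit 7522888)]) (FT.cons (FT.leaf [(nat_lit 7308059), (nat_lit 7482148)]) (FT.cons (FT.leaf [(nat_lit 7614678)]) FT.nil))))))))) (FT.cons (FT.cons (FT.leaf [(nat_lit 5590147), (nat_lit 5766014), (nat_lit 5944314), (nat_lit 6124193), (nat_lit 6304980), (nat_lit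
 6486140), (nat_lit 6667242), (nat_lit 6847937), (nat_lit 7027935), (nat_lit 7207004), (nat_lit 7384950)]) (FT.cons (FT.leaf [(nat_lit 5912050), (nat_lit 6089583), (nat_lit 6268483), (nat_lit 6448121), (nat_lit 6627995), (nat_lit 6807702), (nat_lit 6986912), (nat_lit 7165358), (nat_lit 7342821), (nat_lit 7519123)]) (FT.cons (FT.leaf [(nat_lit 6233642), (nat_lit 6411488), (nat_lit 6589919), (nat_lit 6768463), (nat_lit 6946741), (nat_lit 7124446), (nat_lit 7301327), (nat_lit 7477181), (nat_lit 7651841)]) (FT.cons (FT.leaf [(nat_lit 6553181), (nat_lit 6730355), (nat_lit 6907533), (nat_lit 7084359), (nat_lit 7260543), (nat_lit 7435853), (nat_lit 7610096)]) (FT.cons (FT.leaf [(nat_lit 6869420), (nat_lit 7045203), (nat_lit 7220557), (nat_lit 7395210), (nat_lit 7568945)]) (FT.cons (FT.leaf [(nat_lit 7181472), (nat_lit 7355340), (nat_lit 7528457), (nat_lit 7700615)]) (FT.cons (FT.leaf [(nat_lit 7488716), (nat_lit 7660292)]) (FT.cons (FT.leaf [(nat_lit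 7790729)]) FT.nil)))))))) (FT.cons (FT.cons (FT.leaf [(nat_lit 6111936), (nat_lit 6287380), (nat_lit 6464049), (nat_lit 6641343), (nat_lit 6818787), (nat_lit 6996001), (nat_lit 7172674), (nat_lit 7348556)]) (FT.cons (FT.leaf [(nat_lit
 6429335), (nat_lit 6604909), (nat_lit 6780971), (nat_lit 6957073), (nat_lit 7132858), (nat_lit 7308033), (nat_lit 7482365)]) (FT.cons (FT.leaf [(nat_lit 6744457), (nat_lit 6919246), (nat_lit 7093976), (nat_lit 7268312), (nat_lit 7441980)]) (FT.cons (FT.leaf [(nat_lit 7056160), (nat_lit 7229496), (nat_lit 7402369), (nat_lit 7574521)]) (FT.cons (FT.leaf [(nat_lit 7363635), (nat_lit 7535035)]) (FT.cons (FT.leaf [(nat_lit 7666319)]) FT.nil)))))) (FT.cons (FT.cons (FT.leaf [(nat_lit 6621785), (nat_lit 6795089), (nat_lit 6968797), (nat_lit 7142484), (nat_lit 7315810), (nat_lit 7488499)]) (FT.cons (FT.leaf [(nat_lit 6932521), (nat_lit 7104946), (nat_lit 7277261), (nat_lit 7449147), (nat_lit 7620344)]) (FT.cons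 (FT.leaf [(nat_lit 7239749), (nat_lit 7410675), (nat_lit 7581110), (nat_lit 7750810)]) (FT.cons (FT.leaf [(nat_lit 7542730), (nat_lit 7711708)]) (FT.cons (FT.leaf [(nat_lit 7840950)]) FT.nil))))) (FT.cons (FT.cons (FT.leaf [(nat_lit 7117441), (nat_lit 7287531), (nat_lit 7457467), (nat_lit 7626945), (nat_lit 7795719)]) (FT.cons (FT.leaf [(nat_lit 7420265), (nat_lit 7588820), (nat_lit 7756862), (nat_lit 7924159)]) (FT.cons (FT.leaf [(nat_lit 7718837), (nat_lit 7885440)]) FT.nil)))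
 (FT.cons (FT.cons (FT.leaf [(nat_lit 7597783)]) (FT.cons (FT.leaf [(nat_lit 7892037)]) FT.nil)) (FT.cons (FT.cons (FT.leaf [(nat_lit 8062407)]) FT.nil) (FT.cons (FT.cons (FT.leaf [(nat_lit 8511363)]) FT.nil) FT.nil))))))))) (FT.cons (FT.cons (FT.cons (FT.leaf [(nat_lit 5416373), (nat_lit 5585847), (nat_lit 5759251), (nat_lit 5935404), (nat_lit 6113404), (nat_lit 6292545), (nat_lit 6472260), (nat_lit 6652092), (nat_lit 6831670), (nat_lit 7010688), (nat_lit 7188895), (nat_lit 7366084), (nat_lit 7542085)]) (FT.cons (FT.leaf [(nat_lit 5730975), (nat_lit 5904062), (nat_lit 6079611), (nat_lit 6256774), (nat_lit 6434887), (nat_lit 6613422), (nat_lit 6791951), (nat_lit 6970126), (nat_lit 7147662), (nat_lit 7324327), (nat_lit 7499928), (nat_lit 7674309)]) (FT.cons (FT.leaf [(nat_lit 6047867), (nat_lit 6222698), (nat_lit 6398935), (nat_lit 6575952), (nat_lit 6753254), (nat_lit 6930440), (nat_lit 7107185), (nat_lit 7283223), (nat_lit 7458337), (nat_lit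 7632348)]) (FT.cons (FT.leaf [(nat_lit 6364622), (nat_lit 6539855), (nat_lit 6715718), (nat_lit 6891743), (nat_lit 7067555), (nat_lit 7242849), (nat_lit 7417377), (nat_lit 7590935), (nat_lit 7763357)]) (FT.cons (FT.leaf [(nat_lit 6679510),
 (nat_lit 6854169), (nat_lit 7028881), (nat_lit 7203294), (nat_lit 7377121), (nat_lit 7550130), (nat_lit 7722130)]) (FT.cons (FT.leaf [(nat_lit 6991293), (nat_lit 7164664), (nat_lit 7337658), (nat_lit 7510008), (nat_lit 7681493)]) (FT.cons (FT.leaf [(nat_lit 7299090), (nat_lit 7470652), (nat_lit 7641516), (nat_lit 7811476)]) (FT.cons (FT.leaf [(nat_lit 7602280), (nat_lit 7771655)]) (FT.cons (FT.leaf [(nat_lit 7900436)]) FT.nil))))))))) (FT.cons (FT.cons (FT.leaf [(nat_lit 5931510), (nat_lit 6102856), (nat_lit 6276464), (nat_lit 6451525), (nat_lit 6627410), (nat_lit 6803616), (nat_lit 6979742), (nat_lit 7155459), (nat_lit 7330500), (nat_lit 7504648), (nat_lit 7677721)]) (FT.cons (FT.leaf [(nat_lit 6244715),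 (nat_lit 6417534), (nat_lit 6591618), (nat_lit 6766372), (nat_lit 6941325), (nat_lit 7116100), (nat_lit 7290388), (nat_lit 7463941), (nat_lit 7636553), (nat_lit 7808059)]) (FT.cons (FT.leaf [(nat_lit 6557422), (nat_lit 6730462), (nat_lit 6904036), (nat_lit 7077700), (nat_lit 7251098), (nat_lit 7423942), (nat_lit 7595997), (nat_lit 7767073), (nat_lit 7937015)]) (FT.cons (FT.leaf [(nat_lit 6868039), (nat_lit 7040392), (nat_lit 7212737), (nat_lit 7384739), (nat_lit 7556126),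
 (nat_lit 7726680), (nat_lit 7896220)]) (FT.cons (FT.leaf [(nat_lit 7175432), (nat_lit 7346434), (nat_lit 7517025), (nat_lit 7686948), (nat_lit 7855999)]) (FT.cons (FT.leaf [(nat_lit 7478793), (nat_lit 7647963), (nat_lit 7816418), (nat_lit 7983966)]) (FT.cons (FT.leaf [(nat_lit 7777560), (nat_lit 7944546)]) (FT.cons (FT.leaf [(nat_lit 8071344)]) FT.nil)))))))) (FT.cons (FT.cons (FT.leaf [(nat_lit 6438433), (nat_lit 6609214), (nat_lit 6781136), (nat_lit 6953633), (nat_lit 7126256), (nat_lit 7298646), (nat_lit 7470515), (nat_lit 7641625)]) (FT.cons (FT.leaf [(nat_lit 6747078), (nat_lit 6917927), (nat_lit 7089226), (nat_lit 7260553), (nat_lit 7431570), (nat_lit 7602004), (nat_lit 7771633)]) (FT.cons (FT.leaf [(nat_lit 7053453), (nat_lit 7223520), (nat_lit 7393528), (nat_lit 7563155), (nat_lit 7732147)]) (FT.cons (FT.leaf [(nat_lit 7356513), (nat_lit 7525181), (nat_lit 7693408), (nat_lit 7860953)]) (FT.cons (FT.leaf [(nat_lit 7655517), (nat_lit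 7822337)]) (FT.cons (FT.leaf [(nat_lit 7949950)]) FT.nil)))))) (FT.cons (FT.cons (FT.leaf [(nat_lit 6933645), (nat_lit 7102310), (nat_lit 7271355), (nat_lit 7440374), (nat_lit 7609046), (nat_lit 7777113)]) (FT.cons (FT.leaf [(nat_lit 7235818),
 (nat_lit 7403625), (nat_lit 7571328), (nat_lit 7738621), (nat_lit 7905261)]) (FT.cons (FT.leaf [(nat_lit 7534610), (nat_lit 7700980), (nat_lit 7866888), (nat_lit 8032099)]) (FT.cons (FT.leaf [(nat_lit 7829338), (nat_lit 7993854)]) (FT.cons (FT.leaf [(nat_lit 8119531)]) FT.nil))))) (FT.cons (FT.cons (FT.leaf [(nat_lit 7415203), (nat_lit 7580779), (nat_lit 7746212), (nat_lit 7911214), (nat_lit 8075550)]) (FT.cons (FT.leaf [(nat_lit 7709796), (nat_lit 7873909), (nat_lit 8037539), (nat_lit 8200467)]) (FT.cons (FT.leaf [(nat_lit 8000333), (nat_lit 8162590)]) FT.nil))) (FT.cons (FT.cons (FT.leaf [(nat_lit 7882145)]) (FT.cons (FT.leaf [(nat_lit 8168575)]) FT.nil)) (FT.cons (FT.cons (FT.leaf [(nat_lit 8334139)])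 FT.nil) (FT.cons (FT.cons (FT.leaf [(nat_lit 8771251)]) FT.nil) FT.nil)))))))) (FT.cons (FT.cons (FT.cons (FT.leaf [(nat_lit 6261349), (nat_lit 6428332), (nat_lit 6597436), (nat_lit 6767892), (nat_lit 6939103), (nat_lit 7110598), (nat_lit 7281998), (nat_lit 7452997), (nat_lit 7623344), (nat_lit 7792835)]) (FT.cons (FT.leaf [(nat_lit 6566203), (nat_lit 6734510), (nat_lit 6903997), (nat_lit 7074103), (nat_lit 7244382), (nat_lit 7414479), (nat_lit 7584105), (nat_lit 7753026),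
 (nat_lit 7921050)]) (FT.cons (FT.leaf [(nat_lit 6870432), (nat_lit 7038895), (nat_lit 7207853), (nat_lit 7376887), (nat_lit 7545660), (nat_lit 7713901), (nat_lit 7881390)]) (FT.cons (FT.leaf [(nat_lit 7172572), (nat_lit 7340347), (nat_lit 7508110), (nat_lit 7675543), (nat_lit 7842390)]) (FT.cons (FT.leaf [(nat_lit 7471581), (nat_lit 7638053), (nat_lit 7804134), (nat_lit 7969582)]) (FT.cons (FT.leaf [(nat_lit 7766719), (nat_lit 7931440)]) (FT.cons (FT.leaf [(nat_lit 8057469)]) FT.nil))))))) (FT.cons (FT.cons (FT.leaf [(nat_lit 6754073), (nat_lit 6920402), (nat_lit 7087803), (nat_lit 7255739), (nat_lit 7423787), (nat_lit 7591606), (nat_lit 7758923), (nat_lit 7925518)]) (FT.cons (FT.leaf [(nat_lit 7054384), (nat_lit 7220738), (nat_lit 7387514), (nat_lit 7554312), (nat_lit 7720813), (nat_lit 7886758), (nat_lit 8051937)]) (FT.cons (FT.leaf [(nat_lit 7352457), (nat_lit 7518045), (nat_lit 7683574), (nat_lit 7848744), (nat_lit 8013309)]) (FT.cons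 (FT.leaf [(nat_lit 7647329), (nat_lit 7811574), (nat_lit 7975404), (nat_lit 8138587)]) (FT.cons (FT.leaf [(nat_lit 7938319), (nat_lit 8100802)]) (FT.cons (FT.leaf [(nat_lit 8224948)]) FT.nil)))))) (FT.cons (FT.cons (FT.leaf [(nat_lit 7235395),
 (nat_lit 7399654), (nat_lit 7564271), (nat_lit 7728865), (nat_lit 7893130), (nat_lit 8056819)]) (FT.cons (FT.leaf [(nat_lit 7529448), (nat_lit 7692875), (nat_lit 7856205), (nat_lit 8019150), (nat_lit 8181477)]) (FT.cons (FT.leaf [(nat_lit 7820249), (nat_lit 7982304), (nat_lit 8143924), (nat_lit 8304887)]) (FT.cons (FT.leaf [(nat_lit 8107169), (nat_lit 8267459)]) (FT.cons (FT.leaf [(nat_lit 8389767)]) FT.nil))))) (FT.cons (FT.cons (FT.leaf [(nat_lit 7703610), (nat_lit 7864907), (nat_lit 8026074)]) (FT.cons (FT.leaf [(nat_lit 7990411), (nat_lit 8150314)]) (FT.cons (FT.leaf [(nat_lit 8273341)]) FT.nil))) (FT.cons (FT.cons (FT.leaf [(nat_lit 8157883)]) (FT.cons (FT.leaf [(nat_lit 8436906)]) FT.nil))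 (FT.cons (FT.cons (FT.leaf [(nat_lit 8597933)]) FT.nil) FT.nil)))))) (FT.cons (FT.cons (FT.cons (FT.leaf [(nat_lit 7059504), (nat_lit 7221586), (nat_lit 7384684), (nat_lit 7548285), (nat_lit 7711988), (nat_lit 7875471), (nat_lit 8038476), (nat_lit 8200792)]) (FT.cons (FT.leaf [(nat_lit 7351884), (nat_lit 7513963), (nat_lit 7676444), (nat_lit 7838946), (nat_lit 8001164), (nat_lit 8162854), (nat_lit 8323819)]) (FT.cons (FT.leaf [(nat_lit 7642077), (nat_lit 7803412), (nat_lit 7964696),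
 (nat_lit 8125638), (nat_lit 8286010)]) (FT.cons (FT.leaf [(nat_lit 7929189), (nat_lit 8089241), (nat_lit 8248902), (nat_lit 8407952)]) (FT.cons (FT.leaf [(nat_lit 8212587), (nat_lit 8370962)]) (FT.cons (FT.leaf [(nat_lit 8491828)]) FT.nil)))))) (FT.cons (FT.cons (FT.leaf [(nat_lit 7527647), (nat_lit 7687716), (nat_lit 7848132), (nat_lit 8008527), (nat_lit 8168613), (nat_lit 8328154)]) (FT.cons (FT.leaf [(nat_lit 7813994), (nat_lit 7973264), (nat_lit 8132449), (nat_lit 8291272), (nat_lit 8449511)]) (FT.cons (FT.leaf [(nat_lit 8097223), (nat_lit 8255186), (nat_lit 8412741), (nat_lit 8569678)]) (FT.cons (FT.leaf [(nat_lit 8376745), (nat_lit 8533031)]) (FT.cons (FT.leaf [(nat_lit 8652151)]) FT.nil))))) (FT.cons (FT.cons (FT.leaf [(nat_lit 7983226), (nat_lit 8140462), (nat_lit 8297583)]) (FT.cons (FT.leaf [(nat_lit 8262641), (nat_lit 8418552)]) (FT.cons (FT.leaf [(nat_lit 8538365)]) FT.nil))) (FT.cons (FT.cons (FT.leaf [(nat_lit 8425507)])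 (FT.cons (FT.leaf [(nat_lit 8697511)]) FT.nil)) (FT.cons (FT.cons (FT.leaf [(nat_lit 8854249)]) FT.nil) FT.nil))))) (FT.cons (FT.cons (FT.cons (FT.leaf [(nat_lit 7810962), (nat_lit 7967050), (nat_lit 8123473), (nat_lit 8279883), (nat_lit 8436003)])
 (FT.cons (FT.leaf [(nat_lit 8089995), (nat_lit 8245319), (nat_lit 8400567), (nat_lit 8555478)]) (FT.cons (FT.leaf [(nat_lit 8366042), (nat_lit 8520120)]) (FT.cons (FT.leaf [(nat_lit 8638549)]) FT.nil)))) (FT.cons (FT.cons (FT.leaf [(nat_lit 8254568), (nat_lit 8407947), (nat_lit 8561226)]) (FT.cons (FT.leaf [(nat_lit 8526975), (nat_lit 8679096)]) (FT.cons (FT.leaf [(nat_lit 8795863)]) FT.nil))) (FT.cons (FT.cons (FT.leaf [(nat_lit 8685486)]) (FT.cons (FT.leaf [(nat_lit 8950829)]) FT.nil)) FT.nil))) (FT.cons (FT.cons (FT.cons (FT.leaf [(nat_lit 8518110)]) FT.nil) (FT.cons (FT.cons (FT.leaf [(nat_lit 8938250)]) FT.nil) FT.nil)) (FT.cons (FT.cons (FT.cons (FT.leaf [(nat_lit 9184193)]) FT.nil) FT.nil)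 (FT.cons (FT.cons (FT.cons (FT.leaf [(nat_lit 9812645)]) FT.nil) FT.nil) (FT.cons (FT.cons (FT.cons (FT.leaf [(nat_lit 10406785)]) FT.nil) FT.nil) FT.nil)))))))))) (FT.cons (FT.cons (FT.cons (FT.cons (FT.leaf [(nat_lit 5564330), (nat_lit 5715009), (nat_lit 5871932), (nat_lit 6033472), (nat_lit 6198415), (nat_lit 6365827), (nat_lit 6534961), (nat_lit 6705219), (nat_lit 6876111), (nat_lit 7047230), (nat_lit 7218244), (nat_lit 7388871), (nat_lit 7558879), (nat_lit 7728074), (nat_lit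
 7896293)]) (FT.cons (FT.leaf [(nat_lit 5850506), (nat_lit 6008081), (nat_lit 6169866), (nat_lit 6334722), (nat_lit 6501772), (nat_lit 6670321), (nat_lit 6839806), (nat_lit 7009772), (nat_lit 7179841), (nat_lit 7349700), (nat_lit 7519090), (nat_lit 7687795), (nat_lit 7855633), (nat_lit 8022456)]) (FT.cons (FT.leaf [(nat_lit 6143807), (nat_lit 6305653), (nat_lit 6470275), (nat_lit 6636845), (nat_lit 6804711), (nat_lit 6973349), (nat_lit 7142329), (nat_lit 7311301), (nat_lit 7479971), (nat_lit 7648099), (nat_lit 7815484), (nat_lit 7981956)]) (FT.cons (FT.leaf [(nat_lit 6440749), (nat_lit 6605006), (nat_lit 6770993), (nat_lit 6938094), (nat_lit 7105818), (nat_lit 7273762), (nat_lit 7441597), (nat_lit 7609051), (nat_lit 7775896), (nat_lit 7941946)]) (FT.cons (FT.leaf [(nat_lit 6738859), (nat_lit 6904172), (nat_lit 7070437), (nat_lit 7237191), (nat_lit 7404055), (nat_lit 7570721), (nat_lit 7736933), (nat_lit 7902481), (nat_lit 8067188)]) (FT.cons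 (FT.leaf [(nat_lit 7036346), (nat_lit 7201713), (nat_lit 7367448), (nat_lit 7533196), (nat_lit 7698666), (nat_lit 7863619), (nat_lit 8027856)]) (FT.cons (FT.leaf [(nat_lit 7331900), (nat_lit 7496577), (nat_lit 7661178), (nat_lit 7825430),
 (nat_lit 7989108)]) (FT.cons (FT.leaf [(nat_lit 7624566), (nat_lit 7787994), (nat_lit 7951011), (nat_lit 8113404)]) (FT.cons (FT.leaf [(nat_lit 7913644), (nat_lit 8075412)]) (FT.cons (FT.leaf [(nat_lit 8198636)]) FT.nil)))))))))) (FT.cons (FT.cons (FT.leaf [(nat_lit 6040913), (nat_lit 6197688), (nat_lit 6358380), (nat_lit 6521902), (nat_lit 6687414), (nat_lit 6854260), (nat_lit 7021908), (nat_lit 7189928), (nat_lit 7357967), (nat_lit 7525730), (nat_lit 7692975), (nat_lit 7859499), (nat_lit 8025135)]) (FT.cons (FT.leaf [(nat_lit 6332076), (nat_lit 6492697), (nat_lit 6655875), (nat_lit 6820824), (nat_lit 6986924), (nat_lit 7153676), (nat_lit 7320678), (nat_lit 7487597), (nat_lit 7654159), (nat_lit 7820139),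 (nat_lit 7985347), (nat_lit 8149627)]) (FT.cons (FT.leaf [(nat_lit 6626258), (nat_lit 6788983), (nat_lit 6953278), (nat_lit 7118560), (nat_lit 7284360), (nat_lit 7450300), (nat_lit 7616067), (nat_lit 7781406), (nat_lit 7946105), (nat_lit 8109987)]) (FT.cons (FT.leaf [(nat_lit 6921176), (nat_lit 7084739), (nat_lit 7249142), (nat_lit 7413942), (nat_lit 7578783), (nat_lit 7743372), (nat_lit 7907468), (nat_lit 8070875), (nat_lit 8233423)]) (FT.cons (FT.leaf [(nat_lit 7215179),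
 (nat_lit 7378648), (nat_lit 7542408), (nat_lit 7706119), (nat_lit 7869508), (nat_lit 8032347), (nat_lit 8194451)]) (FT.cons (FT.leaf [(nat_lit 7507064), (nat_lit 7669748), (nat_lit 7832305), (nat_lit 7994475), (nat_lit 8156046)]) (FT.cons (FT.leaf [(nat_lit 7795954), (nat_lit 7957335), (nat_lit 8118274), (nat_lit 8278569)]) (FT.cons (FT.leaf [(nat_lit 8081213), (nat_lit 8240909)]) (FT.cons (FT.leaf [(nat_lit 8362385)]) FT.nil))))))))) (FT.cons (FT.cons (FT.leaf [(nat_lit 6517886), (nat_lit 6677188), (nat_lit 6838856), (nat_lit 7002137), (nat_lit 7166440), (nat_lit 7331292), (nat_lit 7496313), (nat_lit 7661188), (nat_lit 7825661), (nat_lit 7989517), (nat_lit 8152579)]) (FT.cons (FT.leaf [(nat_lit 6809184), (nat_lit 6970322), (nat_lit 7132890), (nat_lit 7296333), (nat_lit 7460204), (nat_lit 7624143), (nat_lit 7787858), (nat_lit 7951105), (nat_lit 8113684), (nat_lit 8275431)]) (FT.cons (FT.leaf [(nat_lit 7100846), (nat_lit 7262635), (nat_lit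 7425164), (nat_lit 7588012), (nat_lit 7750841), (nat_lit 7913371), (nat_lit 8075378), (nat_lit 8236673), (nat_lit 8397100)]) (FT.cons (FT.leaf [(nat_lit 7391347), (nat_lit 7552917), (nat_lit 7714708), (nat_lit 7876399), (nat_lit 8037729),
 (nat_lit 8198484), (nat_lit 8358488)]) (FT.cons (FT.leaf [(nat_lit 7679579), (nat_lit 7840283), (nat_lit 8000816), (nat_lit 8160932), (nat_lit 8320427)]) (FT.cons (FT.leaf [(nat_lit 7964735), (nat_lit 8124092), (nat_lit 8282982), (nat_lit 8441212)]) (FT.cons (FT.leaf [(nat_lit 8246230), (nat_lit 8403886)]) (FT.cons (FT.leaf [(nat_lit 8523650)]) FT.nil)))))))) (FT.cons (FT.cons (FT.leaf [(nat_lit 6989528), (nat_lit 7149039), (nat_lit 7309858), (nat_lit 7471450), (nat_lit 7633392), (nat_lit 7795343), (nat_lit 7957023), (nat_lit 8118203)]) (FT.cons (FT.leaf [(nat_lit 7277893), (nat_lit 7437894), (nat_lit 7598545), (nat_lit 7759449), (nat_lit 7920280), (nat_lit 8080776), (nat_lit 8240721)]) (FT.cons (FT.leaf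 [(nat_lit 7564891), (nat_lit 7724564), (nat_lit 7884398), (nat_lit 8044089), (nat_lit 8203386)]) (FT.cons (FT.leaf [(nat_lit 7849495), (nat_lit 8008236), (nat_lit 8166769), (nat_lit 8324858)]) (FT.cons (FT.leaf [(nat_lit 8130961), (nat_lit 8288323)]) (FT.cons (FT.leaf [(nat_lit 8408754)]) FT.nil)))))) (FT.cons (FT.cons (FT.leaf [(nat_lit 7452348), (nat_lit 7610552), (nat_lit 7769331), (nat_lit 7928302), (nat_lit 8087155), (nat_lit 8245641)]) (FT.cons (FT.leaf [(nat_lit 7735851),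
 (nat_lit 7893637), (nat_lit 8051531), (nat_lit 8209244), (nat_lit 8366538)]) (FT.cons (FT.leaf [(nat_lit 8016862), (nat_lit 8173661), (nat_lit 8330219), (nat_lit 8486313)]) (FT.cons (FT.leaf [(nat_lit 8294690), (nat_lit 8450083)]) (FT.cons (FT.leaf [(nat_lit 8568842)]) FT.nil))))) (FT.cons (FT.cons (FT.leaf [(nat_lit 7904275), (nat_lit 8060185), (nat_lit 8216160), (nat_lit 8371921), (nat_lit 8527242)]) (FT.cons (FT.leaf [(nat_lit 8181731), (nat_lit 8336611), (nat_lit 8491224), (nat_lit 8645354)]) (FT.cons (FT.leaf [(nat_lit 8455976), (nat_lit 8609431)]) FT.nil))) (FT.cons (FT.cons (FT.leaf [(nat_lit 8344156)]) (FT.cons (FT.leaf [(nat_lit 8614875)]) FT.nil)) (FT.cons (FT.cons (FT.leaf [(nat_lit 8771443)]) FT.nil) (FT.cons (FT.cons (FT.leaf [(nat_lit 9185980)]) FT.nil) FT.nil))))))))) (FT.cons (FT.cons (FT.cons (FT.leaf [(nat_lit 6358198), (nat_lit 6511744), (nat_lit 6668969), (nat_lit 6828827), (nat_lit 6990526), (nat_lit 7153442), (nat_lit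 7317076), (nat_lit 7481025), (nat_lit 7644956), (nat_lit 7808598), (nat_lit 7971722), (nat_lit 8134141), (nat_lit 8295698)]) (FT.cons (FT.leaf [(nat_lit 6642889), (nat_lit 6799962), (nat_lit 6959424), (nat_lit 7120526), (nat_lit 7282680),
 (nat_lit 7445419), (nat_lit 7608362), (nat_lit 7771199), (nat_lit 7933674), (nat_lit 8095573), (nat_lit 8256722), (nat_lit 8416975)]) (FT.cons (FT.leaf [(nat_lit 6930184), (nat_lit 7089152), (nat_lit 7249578), (nat_lit 7410910), (nat_lit 7572706), (nat_lit 7734607), (nat_lit 7896322), (nat_lit 8057610), (nat_lit 8218273), (nat_lit 8378144)]) (FT.cons (FT.leaf [(nat_lit 7217970), (nat_lit 7377655), (nat_lit 7538111), (nat_lit 7698922), (nat_lit 7859751), (nat_lit 8020321), (nat_lit 8180408), (nat_lit 8339824), (nat_lit 8498414)]) (FT.cons (FT.leaf [(nat_lit 7504732), (nat_lit 7664267), (nat_lit 7824059), (nat_lit 7983788), (nat_lit 8143197), (nat_lit 8302070), (nat_lit 8460233)]) (FT.cons (FT.leaf [(nat_lit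 7789364), (nat_lit 7948107), (nat_lit 8106717), (nat_lit 8264948), (nat_lit 8422599)]) (FT.cons (FT.leaf [(nat_lit 8071064), (nat_lit 8228536), (nat_lit 8385580), (nat_lit 8542003)]) (FT.cons (FT.leaf [(nat_lit 8349248), (nat_lit 8505095)]) (FT.cons (FT.leaf [(nat_lit 8623499)]) FT.nil))))))))) (FT.cons (FT.cons (FT.leaf [(nat_lit 6823701), (nat_lit 6979436), (nat_lit 7137391), (nat_lit 7296846), (nat_lit 7457241), (nat_lit 7618132), (nat_lit 7779157), (nat_lit 7940023),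
 (nat_lit 8100486), (nat_lit 8260347), (nat_lit 8419440)]) (FT.cons (FT.leaf [(nat_lit 7108118), (nat_lit 7265515), (nat_lit 7424248), (nat_lit 7583788), (nat_lit 7743712), (nat_lit 7903682), (nat_lit 8063420), (nat_lit 8222698), (nat_lit 8381329), (nat_lit 8539157)]) (FT.cons (FT.leaf [(nat_lit 7392712), (nat_lit 7550664), (nat_lit 7709301), (nat_lit 7868224), (nat_lit 8027113), (nat_lit 8185705), (nat_lit 8343786), (nat_lit 8501180), (nat_lit 8657740)]) (FT.cons (FT.leaf [(nat_lit 7676074), (nat_lit 7833769), (nat_lit 7991661), (nat_lit 8149447), (nat_lit 8306879), (nat_lit 8463755), (nat_lit 8619907)]) (FT.cons (FT.leaf [(nat_lit 7957182), (nat_lit 8114019), (nat_lit 8270684), (nat_lit 8426944), (nat_lit 8582608)]) (FT.cons (FT.leaf [(nat_lit 8235295), (nat_lit 8390826), (nat_lit 8545906), (nat_lit 8700353)]) (FT.cons (FT.leaf [(nat_lit 8509874), (nat_lit 8663768)]) (FT.cons (FT.leaf [(nat_lit 8780538)]) FT.nil)))))))) (FT.cons (FT.cons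 (FT.leaf [(nat_lit 7283555), (nat_lit 7439353), (nat_lit 7596377), (nat_lit 7754121), (nat_lit 7912180), (nat_lit 8070232), (nat_lit 8228014), (nat_lit 8385308)]) (FT.cons (FT.leaf [(nat_lit 7564932), (nat_lit 7721144), (nat_lit 7877964),
 (nat_lit 8035010), (nat_lit 8191977), (nat_lit 8348615), (nat_lit 8504720)]) (FT.cons (FT.leaf [(nat_lit 7844902), (nat_lit 8000765), (nat_lit 8156774), (nat_lit 8312637), (nat_lit 8468119)]) (FT.cons (FT.leaf [(nat_lit 8122518), (nat_lit 8277467), (nat_lit 8432213), (nat_lit 8586531)]) (FT.cons (FT.leaf [(nat_lit 8397092), (nat_lit 8550708)]) (FT.cons (FT.leaf [(nat_lit 8668126)]) FT.nil)))))) (FT.cons (FT.cons (FT.leaf [(nat_lit 7734664), (nat_lit 7889135), (nat_lit 8044145), (nat_lit 8199330), (nat_lit 8354396), (nat_lit 8509106)]) (FT.cons (FT.leaf [(nat_lit 8011261), (nat_lit 8165304), (nat_lit 8319446), (nat_lit 8473411), (nat_lit 8626973)]) (FT.cons (FT.leaf [(nat_lit 8285421), (nat_lit 8438505),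 (nat_lit 8591357), (nat_lit 8743764)]) (FT.cons (FT.leaf [(nat_lit 8556507), (nat_lit 8708237)]) (FT.cons (FT.leaf [(nat_lit 8824058)]) FT.nil))))) (FT.cons (FT.cons (FT.leaf [(nat_lit 8175194), (nat_lit 8327433), (nat_lit 8479732), (nat_lit 8631824), (nat_lit 8783494)]) (FT.cons (FT.leaf [(nat_lit 8445942), (nat_lit 8597184), (nat_lit 8748171), (nat_lit 8898698)]) (FT.cons (FT.leaf [(nat_lit 8713595), (nat_lit 8863470)]) FT.nil))) (FT.cons (FT.cons (FT.leaf [(nat_lit 8604133)])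
 (FT.cons (FT.leaf [(nat_lit 8868408)]) FT.nil)) (FT.cons (FT.cons (FT.leaf [(nat_lit 9021001)]) FT.nil) (FT.cons (FT.cons (FT.leaf [(nat_lit 9425674)]) FT.nil) FT.nil)))))))) (FT.cons (FT.cons (FT.cons (FT.leaf [(nat_lit 7120413), (nat_lit 7272685), (nat_lit 7427049), (nat_lit 7582819), (nat_lit 7739462), (nat_lit 7896556), (nat_lit 8053759), (nat_lit 8210794), (nat_lit 8367432), (nat_lit 8523485)]) (FT.cons (FT.leaf [(nat_lit 7398180), (nat_lit 7551970), (nat_lit 7707016), (nat_lit 7862812), (nat_lit 8018959), (nat_lit 8175135), (nat_lit 8331077), (nat_lit 8486571), (nat_lit 8641438)]) (FT.cons (FT.leaf [(nat_lit 7675981), (nat_lit 7830251), (nat_lit 7985160), (nat_lit 8140330), (nat_lit 8295456), (nat_lit 8450290), (nat_lit 8604630)]) (FT.cons (FT.leaf [(nat_lit 7952507), (nat_lit 8106496), (nat_lit 8260664), (nat_lit 8414722), (nat_lit 8568436)]) (FT.cons (FT.leaf [(nat_lit 8226813), (nat_lit 8379958), (nat_lit 8532934), (nat_lit 8685519)])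 (FT.cons (FT.leaf [(nat_lit 8498211), (nat_lit 8650093)]) (FT.cons (FT.leaf [(nat_lit 8766203)]) FT.nil))))))) (FT.cons (FT.cons (FT.leaf [(nat_lit 7568931), (nat_lit 7721157), (nat_lit 7874540), (nat_lit 8028596), (nat_lit 8182942),
 (nat_lit 8337271), (nat_lit 8491334), (nat_lit 8644924)]) (FT.cons (FT.leaf [(nat_lit 7843603), (nat_lit 7996185), (nat_lit 8149339), (nat_lit 8302700), (nat_lit 8455978), (nat_lit 8608936), (nat_lit 8761381)]) (FT.cons (FT.leaf [(nat_lit 8116854), (nat_lit 8269075), (nat_lit 8421430), (nat_lit 8573642), (nat_lit 8725486)]) (FT.cons (FT.leaf [(nat_lit 8387800), (nat_lit 8539130), (nat_lit 8690264), (nat_lit 8840987)]) (FT.cons (FT.leaf [(nat_lit 8655803), (nat_lit 8805849)]) (FT.cons (FT.leaf [(nat_lit 8920401)]) FT.nil)))))) (FT.cons (FT.cons (FT.leaf [(nat_lit 8008841), (nat_lit 8159738), (nat_lit 8311146), (nat_lit 8462715), (nat_lit 8614167), (nat_lit 8765275)]) (FT.cons (FT.leaf [(nat_lit 8278839), (nat_lit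 8429307), (nat_lit 8579868), (nat_lit 8730257), (nat_lit 8880260)]) (FT.cons (FT.leaf [(nat_lit 8546465), (nat_lit 8696003), (nat_lit 8845321), (nat_lit 8994213)]) (FT.cons (FT.leaf [(nat_lit 8811125), (nat_lit 8959362)]) (FT.cons (FT.leaf [(nat_lit 9072388)]) FT.nil))))) (FT.cons (FT.cons (FT.leaf [(nat_lit 8438506), (nat_lit 8587238), (nat_lit 8736028)]) (FT.cons (FT.leaf [(nat_lit 8702857), (nat_lit 8850627)]) (FT.cons (FT.leaf [(nat_lit 8964227)]) FT.nil))) (FT.cons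
 (FT.cons (FT.leaf [(nat_lit 8857024)]) (FT.cons (FT.leaf [(nat_lit 9115159)]) FT.nil)) (FT.cons (FT.cons (FT.leaf [(nat_lit 9263973)]) FT.nil) FT.nil)))))) (FT.cons (FT.cons (FT.cons (FT.leaf [(nat_lit 7846108), (nat_lit 7994900), (nat_lit 8144790), (nat_lit 8295317), (nat_lit 8446112), (nat_lit 8596885), (nat_lit 8747396), (nat_lit 8897453)]) (FT.cons (FT.leaf [(nat_lit 8114353), (nat_lit 8263457), (nat_lit 8413102), (nat_lit 8562942), (nat_lit 8712697), (nat_lit 8862144), (nat_lit 9011097)]) (FT.cons (FT.leaf [(nat_lit 8381178), (nat_lit 8529917), (nat_lit 8678782), (nat_lit 8827508), (nat_lit 8975881)]) (FT.cons (FT.leaf [(nat_lit 8645757), (nat_lit 8793632), (nat_lit 8941318), (nat_lit 9088612)]) (FT.cons (FT.leaf [(nat_lit 8907494), (nat_lit 9054133)]) (FT.cons (FT.leaf [(nat_lit 9165956)]) FT.nil)))))) (FT.cons (FT.cons (FT.leaf [(nat_lit 8275313), (nat_lit 8422789), (nat_lit 8570751), (nat_lit 8718867), (nat_lit 8866868), (nat_lit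 9014540)]) (FT.cons (FT.leaf [(nat_lit 8539004), (nat_lit 8686055), (nat_lit 8833196), (nat_lit 8980173), (nat_lit 9126780)]) (FT.cons (FT.leaf [(nat_lit 8800394), (nat_lit 8946548), (nat_lit 9092491), (nat_lit 9238030)]) (FT.cons (FT.leaf
 [(nat_lit 9058925), (nat_lit 9203830)]) (FT.cons (FT.leaf [(nat_lit 9314194)]) FT.nil))))) (FT.cons (FT.cons (FT.leaf [(nat_lit 8694616), (nat_lit 8839996), (nat_lit 8985435)]) (FT.cons (FT.leaf [(nat_lit 8952861), (nat_lit 9097317)]) (FT.cons (FT.leaf [(nat_lit 9208238)]) FT.nil))) (FT.cons (FT.cons (FT.leaf [(nat_lit 9103203)]) (FT.cons (FT.leaf [(nat_lit 9355480)]) FT.nil)) (FT.cons (FT.cons (FT.leaf [(nat_lit 9500701)]) FT.nil) FT.nil))))) (FT.cons (FT.cons (FT.cons (FT.leaf [(nat_lit 8534484), (nat_lit 8678684), (nat_lit 8823351), (nat_lit 8968165), (nat_lit 9112871)]) (FT.cons (FT.leaf [(nat_lit 8792146), (nat_lit 8935930), (nat_lit 9079803), (nat_lit 9223520)]) (FT.cons (FT.leaf [(nat_lit 9047581),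 (nat_lit 9190501)]) (FT.cons (FT.leaf [(nat_lit 9300263)]) FT.nil)))) (FT.cons (FT.cons (FT.leaf [(nat_lit 8943898), (nat_lit 9086075), (nat_lit 9228313)]) (FT.cons (FT.leaf [(nat_lit 9196313), (nat_lit 9337603)]) (FT.cons (FT.leaf [(nat_lit 9445971)]) FT.nil))) (FT.cons (FT.cons (FT.leaf [(nat_lit 9343016)]) (FT.cons (FT.leaf [(nat_lit 9589701)]) FT.nil)) FT.nil))) (FT.cons (FT.cons (FT.cons (FT.leaf [(nat_lit 9186703)]) FT.nil) (FT.cons (FT.cons (FT.leaf [(nat_lit 9576783)])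
 FT.nil) FT.nil)) (FT.cons (FT.cons (FT.cons (FT.leaf [(nat_lit 9804804)]) FT.nil) FT.nil) (FT.cons (FT.cons (FT.cons (FT.leaf [(nat_lit 10391149)]) FT.nil) FT.nil) (FT.cons (FT.cons (FT.cons (FT.leaf [(nat_lit 10948144)]) FT.nil) FT.nil) FT.nil))))))))) (FT.cons (FT.cons (FT.cons (FT.cons (FT.leaf [(nat_lit 7195252), (nat_lit 7336216), (nat_lit 7480620), (nat_lit 7627530), (nat_lit 7776234), (nat_lit 7926174), (nat_lit 8076905), (nat_lit 8228063), (nat_lit 8379352), (nat_lit 8530523), (nat_lit 8681373)]) (FT.cons (FT.leaf [(nat_lit 7456300), (nat_lit 7600653), (nat_lit 7747297), (nat_lit 7895560), (nat_lit 8044916), (nat_lit 8194943), (nat_lit 8345301), (nat_lit 8495708), (nat_lit 8645933), (nat_lit 8795782)]) (FT.cons (FT.leaf [(nat_lit 7720070), (nat_lit 7866364), (nat_lit 8014119), (nat_lit 8162836), (nat_lit 8312117), (nat_lit 8461640), (nat_lit 8611140), (nat_lit 8760399), (nat_lit 8909233)]) (FT.cons (FT.leaf [(nat_lit 7984697),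 (nat_lit 8131884), (nat_lit 8279915), (nat_lit 8428413), (nat_lit 8577072), (nat_lit 8725643), (nat_lit 8873918)]) (FT.cons (FT.leaf [(nat_lit 8248833), (nat_lit 8396136), (nat_lit 8543817), (nat_lit 8691588), (nat_lit 8839211)]) (FT.cons (FT.leaf
 [(nat_lit 8511488), (nat_lit 8658325), (nat_lit 8805186), (nat_lit 8951846)]) (FT.cons (FT.leaf [(nat_lit 8771928), (nat_lit 8917862)]) (FT.cons (FT.leaf [(nat_lit 9029614)]) (FT.cons (FT.leaf [(nat_lit 9284148)]) FT.nil))))))))) (FT.cons (FT.cons (FT.leaf [(nat_lit 7621500), (nat_lit 7764787), (nat_lit 7910218), (nat_lit 8057147), (nat_lit 8205070), (nat_lit 8353585), (nat_lit 8502365), (nat_lit 8651145), (nat_lit 8799704), (nat_lit 8947857)]) (FT.cons (FT.leaf [(nat_lit 7882945), (nat_lit 8027971), (nat_lit 8174349), (nat_lit 8321601), (nat_lit 8469347), (nat_lit 8617278), (nat_lit 8765142), (nat_lit 8912730), (nat_lit 9059871)]) (FT.cons (FT.leaf [(nat_lit 8144970), (nat_lit 8290745), (nat_lit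 8437284), (nat_lit 8584228), (nat_lit 8731284), (nat_lit 8878214), (nat_lit 9024820)]) (FT.cons (FT.leaf [(nat_lit 8406317), (nat_lit 8552108), (nat_lit 8698222), (nat_lit 8844382), (nat_lit 8990361)]) (FT.cons (FT.leaf [(nat_lit 8666061), (nat_lit 8811321), (nat_lit 8956567), (nat_lit 9101584)]) (FT.cons (FT.leaf [(nat_lit 8923521), (nat_lit 9067838)]) (FT.cons (FT.leaf [(nat_lit 9178196)]) (FT.cons (FT.leaf [(nat_lit 9429718)]) FT.nil)))))))) (FT.cons (FT.cons (FT.leaf [(nat_lit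
 8043764), (nat_lit 8187493), (nat_lit 8332478), (nat_lit 8478257), (nat_lit 8624467), (nat_lit 8770812), (nat_lit 8917052), (nat_lit 9062988)]) (FT.cons (FT.leaf [(nat_lit 8303160), (nat_lit 8447510), (nat_lit 8592556), (nat_lit 8737950), (nat_lit 8883413), (nat_lit 9028715), (nat_lit 9173671)]) (FT.cons (FT.leaf [(nat_lit 8561714), (nat_lit 8705995), (nat_lit 8850549), (nat_lit 8995111), (nat_lit 9139464)]) (FT.cons (FT.leaf [(nat_lit 8818565), (nat_lit 8962258), (nat_lit 9105904), (nat_lit 9249297)]) (FT.cons (FT.leaf [(nat_lit 9073077), (nat_lit 9215794)]) (FT.cons (FT.leaf [(nat_lit 9324781)]) FT.nil)))))) (FT.cons (FT.cons (FT.leaf [(nat_lit 8459288), (nat_lit 8602209), (nat_lit 8745762), (nat_lit 8889613), (nat_lit 9033495), (nat_lit 9177188)]) (FT.cons (FT.leaf [(nat_lit 8715056), (nat_lit 8857831), (nat_lit 9000835), (nat_lit 9143814), (nat_lit 9286559)]) (FT.cons (FT.leaf [(nat_lit 8969036), (nat_lit 9111175), (nat_lit 9253238),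 (nat_lit 9395027)]) (FT.cons (FT.leaf [(nat_lit 9220632), (nat_lit 9361769)]) (FT.cons (FT.leaf [(nat_lit 9469408)]) FT.nil))))) (FT.cons (FT.cons (FT.leaf [(nat_lit 8866376), (nat_lit 9007651), (nat_lit 9149118)]) (FT.cons (FT.leaf [(nat_lit
 9117509), (nat_lit 9258109)]) (FT.cons (FT.leaf [(nat_lit 9366227)]) FT.nil))) (FT.cons (FT.cons (FT.leaf [(nat_lit 9264023)]) (FT.cons (FT.leaf [(nat_lit 9509900)]) FT.nil)) (FT.cons (FT.cons (FT.leaf [(nat_lit 9651693)]) FT.nil) FT.nil))))))) (FT.cons (FT.cons (FT.cons (FT.leaf [(nat_lit 7891960), (nat_lit 8032407), (nat_lit 8174887), (nat_lit 8318778), (nat_lit 8463599), (nat_lit 8608967), (nat_lit 8754572), (nat_lit 8900161), (nat_lit 9045522), (nat_lit 9190486)]) (FT.cons (FT.leaf [(nat_lit 8147940), (nat_lit 8289995), (nat_lit 8433327), (nat_lit 8577479), (nat_lit 8722088), (nat_lit 8866859), (nat_lit 9011554), (nat_lit 9155974), (nat_lit 9299955)]) (FT.cons (FT.leaf [(nat_lit 8404359), (nat_lit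 8547086), (nat_lit 8690532), (nat_lit 8834353), (nat_lit 8978269), (nat_lit 9122054), (nat_lit 9265520)]) (FT.cons (FT.leaf [(nat_lit 8660039), (nat_lit 8802748), (nat_lit 8945756), (nat_lit 9088799), (nat_lit 9231661)]) (FT.cons (FT.leaf [(nat_lit 8914118), (nat_lit 9056292), (nat_lit 9198446), (nat_lit 9340375)]) (FT.cons (FT.leaf [(nat_lit 9165959), (nat_lit 9307211)]) (FT.cons (FT.leaf [(nat_lit 9415096)]) FT.nil))))))) (FT.cons (FT.cons (FT.leaf [(nat_lit 8304894), (nat_lit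
 8445672), (nat_lit 8587640), (nat_lit 8730357), (nat_lit 8873474), (nat_lit 9016709), (nat_lit 9159834), (nat_lit 9302660)]) (FT.cons (FT.leaf [(nat_lit 8558741), (nat_lit 8700078), (nat_lit 8842071), (nat_lit 8984389), (nat_lit 9126765), (nat_lit 9268980), (nat_lit 9410855)]) (FT.cons (FT.leaf [(nat_lit 8811708), (nat_lit 8952951), (nat_lit 9094448), (nat_lit 9235948), (nat_lit 9377241)]) (FT.cons (FT.leaf [(nat_lit 9062988), (nat_lit 9203647), (nat_lit 9344257), (nat_lit 9484620)]) (FT.cons (FT.leaf [(nat_lit 9311985), (nat_lit 9451694)]) (FT.cons (FT.leaf [(nat_lit 9558261)]) FT.nil)))))) (FT.cons (FT.cons (FT.leaf [(nat_lit 8711136), (nat_lit 8851081), (nat_lit 8991626), (nat_lit 9132450), (nat_lit 9273298), (nat_lit 9413959)]) (FT.cons (FT.leaf [(nat_lit 8961401), (nat_lit 9101184), (nat_lit 9241184), (nat_lit 9381154), (nat_lit 9520898)]) (FT.cons (FT.leaf [(nat_lit 9209906), (nat_lit 9349064), (nat_lit 9488147), (nat_lit 9626966)])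 (FT.cons (FT.leaf [(nat_lit 9456092), (nat_lit 9594278)]) (FT.cons (FT.leaf [(nat_lit 9699551)]) FT.nil))))) (FT.cons (FT.cons (FT.leaf [(nat_lit 9109149), (nat_lit 9247482), (nat_lit 9385997)]) (FT.cons (FT.leaf [(nat_lit 9354907), (nat_lit
 9492581)]) (FT.cons (FT.leaf [(nat_lit 9598321)]) FT.nil))) (FT.cons (FT.cons (FT.leaf [(nat_lit 9498029)]) (FT.cons (FT.leaf [(nat_lit 9738707)]) FT.nil)) (FT.cons (FT.cons (FT.leaf [(nat_lit 9877291)]) FT.nil) FT.nil)))))) (FT.cons (FT.cons (FT.cons (FT.leaf [(nat_lit 8559252), (nat_lit 8697179), (nat_lit 8836238), (nat_lit 8976006), (nat_lit 9116149), (nat_lit 9256397), (nat_lit 9396532), (nat_lit 9536374)]) (FT.cons (FT.leaf [(nat_lit 8807751), (nat_lit 8946185), (nat_lit 9085242), (nat_lit 9224605), (nat_lit 9364016), (nat_lit 9503267), (nat_lit 9642189)]) (FT.cons (FT.leaf [(nat_lit 9055347), (nat_lit 9193668), (nat_lit 9332231), (nat_lit 9470791), (nat_lit 9609150)]) (FT.cons (FT.leaf [(nat_lit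 9301278), (nat_lit 9439025), (nat_lit 9576723), (nat_lit 9714181)]) (FT.cons (FT.leaf [(nat_lit 9544988), (nat_lit 9681812)]) (FT.cons (FT.leaf [(nat_lit 9786063)]) FT.nil)))))) (FT.cons (FT.cons (FT.leaf [(nat_lit 8956573), (nat_lit 9093653), (nat_lit 9231306), (nat_lit 9369223), (nat_lit 9507159), (nat_lit 9644912)]) (FT.cons (FT.leaf [(nat_lit 9201550), (nat_lit 9338459), (nat_lit 9475573), (nat_lit 9612658), (nat_lit 9749523)]) (FT.cons (FT.leaf [(nat_lit 9444801), (nat_lit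
 9581099), (nat_lit 9717324), (nat_lit 9853293)]) (FT.cons (FT.leaf [(nat_lit 9685802), (nat_lit 9821158)]) (FT.cons (FT.leaf [(nat_lit 9924165)]) FT.nil))))) (FT.cons (FT.cons (FT.leaf [(nat_lit 9345885), (nat_lit 9481391), (nat_lit 9617072)]) (FT.cons (FT.leaf [(nat_lit 9586485), (nat_lit 9721350)]) (FT.cons (FT.leaf [(nat_lit 9824814)]) FT.nil))) (FT.cons (FT.cons (FT.leaf [(nat_lit 9726366)]) (FT.cons (FT.leaf [(nat_lit 9962059)]) FT.nil)) (FT.cons (FT.cons (FT.leaf [(nat_lit 10097576)]) FT.nil) FT.nil))))) (FT.cons (FT.cons (FT.cons (FT.leaf [(nat_lit 9195901), (nat_lit 9330224), (nat_lit 9465096), (nat_lit 9600220), (nat_lit 9735360)]) (FT.cons (FT.leaf [(nat_lit 9435796), (nat_lit 9569943), (nat_lit 9704287), (nat_lit 9838601)]) (FT.cons (FT.leaf [(nat_lit 9674006), (nat_lit 9807556)]) (FT.cons (FT.leaf [(nat_lit 9910031)]) FT.nil)))) (FT.cons (FT.cons (FT.leaf [(nat_lit 9576867), (nat_lit 9709657), (nat_lit 9842616)]) (FT.cons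 (FT.leaf [(nat_lit 9812517), (nat_lit 9944685)]) (FT.cons (FT.leaf [(nat_lit 10045968)]) FT.nil))) (FT.cons (FT.cons (FT.leaf [(nat_lit 9949298)]) (FT.cons (FT.leaf [(nat_lit 10180210)]) FT.nil)) FT.nil))) (FT.cons (FT.cons (FT.cons (FT.leaf [(nat_lit
 9802361)]) FT.nil) (FT.cons (FT.cons (FT.leaf [(nat_lit 10167071)]) FT.nil) FT.nil)) (FT.cons (FT.cons (FT.cons (FT.leaf [(nat_lit 10379920)]) FT.nil) FT.nil) (FT.cons (FT.cons (FT.cons (FT.leaf [(nat_lit 10930237)]) FT.nil) FT.nil) (FT.cons (FT.cons (FT.cons (FT.leaf [(nat_lit 11455095)]) FT.nil) FT.nil) FT.nil)))))))) (FT.cons (FT.cons (FT.cons (FT.cons (FT.leaf [(nat_lit 8593735), (nat_lit 8724414), (nat_lit 8857053), (nat_lit 8991085), (nat_lit 9126069), (nat_lit 9261655), (nat_lit 9397559), (nat_lit 9533549), (nat_lit 9669431), (nat_lit 9805047)]) (FT.cons (FT.leaf [(nat_lit 8831711), (nat_lit 8964029), (nat_lit 9097619), (nat_lit 9232061), (nat_lit 9367024), (nat_lit 9502237), (nat_lit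 9637480), (nat_lit 9772570), (nat_lit 9907357)]) (FT.cons (FT.leaf [(nat_lit 9070383), (nat_lit 9203488), (nat_lit 9337356), (nat_lit 9471668), (nat_lit 9606170), (nat_lit 9740650), (nat_lit 9874937)]) (FT.cons (FT.leaf [(nat_lit 9308680), (nat_lit 9441942), (nat_lit 9575581), (nat_lit 9709353), (nat_lit 9843058)]) (FT.cons (FT.leaf [(nat_lit 9545813), (nat_lit 9678758), (nat_lit 9811785), (nat_lit 9944703)]) (FT.cons (FT.leaf [(nat_lit 9781195), (nat_lit 9913463)]) (FT.cons (FT.leaf [(nat_lit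
 10014387)]) FT.nil))))))) (FT.cons (FT.cons (FT.leaf [(nat_lit 8977252), (nat_lit 9108503), (nat_lit 9240947), (nat_lit 9374180), (nat_lit 9507881), (nat_lit 9641790), (nat_lit 9775697), (nat_lit 9909425)]) (FT.cons (FT.leaf [(nat_lit 9213760), (nat_lit 9345696), (nat_lit 9478336), (nat_lit 9611375), (nat_lit 9744565), (nat_lit 9877707), (nat_lit 10010632)]) (FT.cons (FT.leaf [(nat_lit 9449762), (nat_lit 9581783), (nat_lit 9714140), (nat_lit 9846596), (nat_lit 9978960)]) (FT.cons (FT.leaf [(nat_lit 9684516), (nat_lit 9816172), (nat_lit 9947880), (nat_lit 10079458)]) (FT.cons (FT.leaf [(nat_lit 9917469), (nat_lit 10048418)]) (FT.cons (FT.leaf [(nat_lit 10148209)]) FT.nil)))))) (FT.cons (FT.cons (FT.leaf [(nat_lit 9355448), (nat_lit 9486208), (nat_lit 9617622), (nat_lit 9749391), (nat_lit 9881279)]) (FT.cons (FT.leaf [(nat_lit 9589158), (nat_lit 9719941), (nat_lit 9851021), (nat_lit 9982172)]) (FT.cons (FT.leaf [(nat_lit 9821548), (nat_lit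 9951923)]) (FT.cons (FT.leaf [(nat_lit 10052095)]) (FT.cons (FT.leaf [(nat_lit 10280414)]) FT.nil))))) (FT.cons (FT.cons (FT.leaf [(nat_lit 9726893), (nat_lit 9856441), (nat_lit 9986253)]) (FT.cons (FT.leaf [(nat_lit 9956935), (nat_lit 10086040)])
 (FT.cons (FT.leaf [(nat_lit 10185104)]) FT.nil))) (FT.cons (FT.cons (FT.leaf [(nat_lit 10090706)]) (FT.cons (FT.leaf [(nat_lit 10316523)]) FT.nil)) (FT.cons (FT.cons (FT.leaf [(nat_lit 10446380)]) FT.nil) FT.nil)))))) (FT.cons (FT.cons (FT.cons (FT.leaf [(nat_lit 9212718), (nat_lit 9341550), (nat_lit 9471521), (nat_lit 9602242), (nat_lit 9733403), (nat_lit 9864757)]) (FT.cons (FT.leaf [(nat_lit 9444682), (nat_lit 9574147), (nat_lit 9704281), (nat_lit 9834793), (nat_lit 9965443)]) (FT.cons (FT.leaf [(nat_lit 9676105), (nat_lit 9805630), (nat_lit 9935473), (nat_lit 10065406)]) (FT.cons (FT.leaf [(nat_lit 9906284), (nat_lit 10035441)]) (FT.cons (FT.leaf [(nat_lit 10134696)]) (FT.cons (FT.leaf [(nat_lit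 10360954)]) FT.nil)))))) (FT.cons (FT.cons (FT.leaf [(nat_lit 9583326), (nat_lit 9711643), (nat_lit 9840583), (nat_lit 9969860), (nat_lit 10099247)]) (FT.cons (FT.leaf [(nat_lit 9812519), (nat_lit 9940839), (nat_lit 10069443), (nat_lit 10198111)]) (FT.cons (FT.leaf [(nat_lit 10040404), (nat_lit 10168319)]) (FT.cons (FT.leaf [(nat_lit 10266488)]) (FT.cons (FT.leaf [(nat_lit 10490405)]) FT.nil))))) (FT.cons (FT.cons (FT.leaf [(nat_lit 9947328), (nat_lit 10074451), (nat_lit 10201825)])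
 (FT.cons (FT.leaf [(nat_lit 10172939), (nat_lit 10299624)]) (FT.cons (FT.leaf [(nat_lit 10396722)]) FT.nil))) (FT.cons (FT.cons (FT.leaf [(nat_lit 10303917)]) (FT.cons (FT.leaf [(nat_lit 10525426)]) FT.nil)) (FT.cons (FT.cons (FT.leaf [(nat_lit 10652626)]) FT.nil) FT.nil))))) (FT.cons (FT.cons (FT.cons (FT.leaf [(nat_lit 9805998), (nat_lit 9931953), (nat_lit 10058504), (nat_lit 10185377)]) (FT.cons (FT.leaf [(nat_lit 10030831), (nat_lit 10156775), (nat_lit 10282991)]) (FT.cons (FT.leaf [(nat_lit 10254374)]) FT.nil))) (FT.cons (FT.cons (FT.leaf [(nat_lit 10162832), (nat_lit 10287613)]) (FT.cons (FT.leaf [(nat_lit 10384172)]) FT.nil)) (FT.cons (FT.cons (FT.leaf [(nat_lit 10512468)]) FT.nil) FT.nil))) (FT.cons (FT.cons (FT.cons (FT.leaf [(nat_lit 10373612)]) FT.nil) (FT.cons (FT.cons (FT.leaf [(nat_lit 10716554)]) FT.nil) FT.nil)) (FT.cons (FT.cons (FT.cons (FT.leaf [(nat_lit 10916359)]) FT.nil) FT.nil) (FT.cons (FT.cons (FT.cons (FT.leaf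 [(nat_lit 11435422)]) FT.nil) FT.nil) FT.nil)))))) (FT.cons (FT.cons (FT.cons (FT.cons (FT.leaf [(nat_lit 9816589), (nat_lit 9937668), (nat_lit 10059877), (nat_lit 10182854), (nat_lit 10306314), (nat_lit 10430025)]) (FT.cons (FT.leaf [(nat_lit
 10034454), (nat_lit 10156244), (nat_lit 10278730), (nat_lit 10401639), (nat_lit 10524751)]) (FT.cons (FT.leaf [(nat_lit 10252037), (nat_lit 10374009), (nat_lit 10496350), (nat_lit 10618848)]) (FT.cons (FT.leaf [(nat_lit 10468685), (nat_lit 10590442)]) FT.nil)))) (FT.cons (FT.cons (FT.leaf [(nat_lit 10164413), (nat_lit 10285215), (nat_lit 10406668), (nat_lit 10528508), (nat_lit 10650522)]) (FT.cons (FT.leaf [(nat_lit 10380066), (nat_lit 10500997), (nat_lit 10622262), (nat_lit 10743659)]) (FT.cons (FT.leaf [(nat_lit 10594724), (nat_lit 10715401)]) FT.nil))) (FT.cons (FT.cons (FT.leaf [(nat_lit 10506699), (nat_lit 10626590)]) (FT.cons (FT.leaf [(nat_lit 10719378)]) FT.nil)) (FT.cons (FT.cons (FT.leaf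 [(nat_lit 10842669)]) FT.nil) FT.nil)))) (FT.cons (FT.cons (FT.cons (FT.leaf [(nat_lit 10372864), (nat_lit 10491611), (nat_lit 10610984), (nat_lit 10730726)]) (FT.cons (FT.leaf [(nat_lit 10584723), (nat_lit 10703580), (nat_lit 10822759)]) (FT.cons (FT.leaf [(nat_lit 10795590)]) FT.nil))) (FT.cons (FT.cons (FT.leaf [(nat_lit 10708907), (nat_lit 10826751)]) (FT.cons (FT.leaf [(nat_lit 10917851)]) FT.nil)) (FT.cons (FT.cons (FT.leaf [(nat_lit 11038793)]) FT.nil) FT.nil))) (FT.cons (FT.cons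
 (FT.cons (FT.leaf [(nat_lit 10906994)]) FT.nil) (FT.cons (FT.cons (FT.leaf [(nat_lit 11231005)]) FT.nil) FT.nil)) (FT.cons (FT.cons (FT.cons (FT.leaf [(nat_lit 11419453)]) FT.nil) FT.nil) FT.nil)))) (FT.cons (FT.cons (FT.cons (FT.cons (FT.leaf [(nat_lit 10902738), (nat_lit 11015196), (nat_lit 11128297)]) (FT.cons (FT.leaf [(nat_lit 11103275), (nat_lit 11215932)]) (FT.cons (FT.leaf [(nat_lit 11303051)]) FT.nil))) (FT.cons (FT.cons (FT.leaf [(nat_lit 11220636)]) (FT.cons (FT.leaf [(nat_lit 11418713)]) FT.nil)) (FT.cons (FT.cons (FT.leaf [(nat_lit 11533207)]) FT.nil) FT.nil))) (FT.cons (FT.cons (FT.cons (FT.leaf [(nat_lit 11407640)]) FT.nil) (FT.cons (FT.cons (FT.leaf [(nat_lit 11715000)]) FT.nil) FT.nil)) FT.nil)) (FT.cons (FT.cons (FT.cons (FT.cons (FT.leaf [(nat_lit 11879663)]) FT.nil) FT.nil) FT.nil) (FT.cons (FT.cons (FT.cons (FT.cons (FT.leaf [(nat_lit 12767387)]) FT.nil) FT.nil) FT.nil) FT.nil))))))))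

def f176_1_600 : FT := (FT.cons (FT.cons (FT.cons (FT.cons (FT.leaf [(nat_lit 4211831), (nat_lit 4361401), (nat_lit 4521983), (nat_lit 4690768), (nat_lit 4865722), (nat_lit 5045293), (nat_lit 5228267), (nat_lit 5413668), (nat_lit 5600701), (nat_lit 5788713), (nat_lit 5977166), (nat_lit 6165611), (nat_lit 6353676), (nat_lit 6541054), (nat_lit 6727487)]) (FT.cons (FT.leaf [(nat_lit 4507263), (nat_lit 4670008), (nat_lit 4840207), (nat_lit 5015962), (nat_lit 5195835), (nat_lit 5378697), (nat_lit 5563644), (nat_lit 5749942), (nat_lit 5936989), (nat_lit 6124286), (nat_lit 6311420), (nat_lit 6498054), (nat_lit 6683899), (nat_lit 6868722)]) (FT.cons (FT.leaf [(nat_lit 4818271), (nat_lit 4989509), (nat_lit 5165764), (nat_lit 5345694), (nat_lit 5528246), (nat_lit 5712582), (nat_lit 5898019), (nat_lit 6084000), (nat_lit 6270063), (nat_lit 6455831), (nat_lit 6640987), (nat_lit 6825271)]) (FT.cons (FT.leaf [(nat_lit 5138476), (nat_lit 5314972), (nat_lit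 5494747), (nat_lit 5676820), (nat_lit 5860408), (nat_lit 6044875), (nat_lit 6229705), (nat_lit 6414472), (nat_lit 6598824), (nat_lit 6782469)]) (FT.cons (FT.leaf [(nat_lit 5463453), (nat_lit 5642892), (nat_lit 5824339), (nat_lit 6007060), (nat_lit 6190467), (nat_lit
 6374075), (nat_lit 6557491), (nat_lit 6740388), (nat_lit 6922494)]) (FT.cons (FT.leaf [(nat_lit 5790041), (nat_lit 5970735), (nat_lit 6152492), (nat_lit 6334759), (nat_lit 6517086), (nat_lit 6699106), (nat_lit 6880514)]) (FT.cons (FT.leaf [(nat_lit 6115957), (nat_lit 6296663), (nat_lit 6477724), (nat_lit 6658720), (nat_lit 6839308)]) (FT.cons (FT.leaf [(nat_lit 6439542), (nat_lit 6619341), (nat_lit 6798965), (nat_lit 6978091)]) (FT.cons (FT.leaf [(nat_lit 6759595), (nat_lit 6937813)]) (FT.cons (FT.leaf [(nat_lit 7075260)]) FT.nil)))))))))) (FT.cons (FT.cons (FT.leaf [(nat_lit 4718498), (nat_lit 4881363), (nat_lit 5051143), (nat_lit 5226021), (nat_lit 5404628), (nat_lit 5585903),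 (nat_lit 5768997), (nat_lit 5953227), (nat_lit 6138029), (nat_lit 6322947), (nat_lit 6507597), (nat_lit 6691666), (nat_lit 6874889)]) (FT.cons (FT.leaf [(nat_lit 5028616), (nat_lit 5199141), (nat_lit 5374280), (nat_lit 5552753), (nat_lit 5733567), (nat_lit 5915933), (nat_lit 6099211), (nat_lit 6282885), (nat_lit 6466526), (nat_lit 6649782), (nat_lit 6832359), (nat_lit 7014018)]) (FT.cons (FT.leaf [(nat_lit 5346647), (nat_lit 5521823), (nat_lit 5699980), (nat_lit 5880188), (nat_lit 6061708), (nat_lit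
 6243947), (nat_lit 6426420), (nat_lit 6608731), (nat_lit 6790552), (nat_lit 6971613)]) (FT.cons (FT.leaf [(nat_lit 5668541), (nat_lit 5846226), (nat_lit 6025703), (nat_lit 6206279), (nat_lit 6387399), (nat_lit 6568612), (nat_lit 6749548), (nat_lit 6929903), (nat_lit 7109427)]) (FT.cons (FT.leaf [(nat_lit 5991420), (nat_lit 6170057), (nat_lit 6349604), (nat_lit 6529540), (nat_lit 6709444), (nat_lit 6888969), (nat_lit 7067833)]) (FT.cons (FT.leaf [(nat_lit 6313207), (nat_lit 6491652), (nat_lit 6670350), (nat_lit 6848902), (nat_lit 7026988)]) (FT.cons (FT.leaf [(nat_lit 6632401), (nat_lit 6809812), (nat_lit 6986981), (nat_lit 7163604)]) (FT.cons (FT.leaf [(nat_lit 6947918), (nat_lit 7123676)]) (FT.cons (FT.leaf [(nat_lit 7258986)]) FT.nil))))))))) (FT.cons (FT.cons (FT.leaf [(nat_lit 5236448), (nat_lit 5406030), (nat_lit 5579869), (nat_lit 5756746), (nat_lit 5935718), (nat_lit 6116042), (nat_lit 6297120), (nat_lit 6478466), (nat_lit 6659680),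 (nat_lit 6840434)]) (FT.cons (FT.leaf [(nat_lit 5551958), (nat_lit 5725666), (nat_lit 5902093), (nat_lit 6080357), (nat_lit 6259759), (nat_lit 6439740), (nat_lit 6619846), (nat_lit 6799707), (nat_lit 6979017)]) (FT.cons (FT.leaf [(nat_lit
 5870559), (nat_lit 6046403), (nat_lit 6223850), (nat_lit 6402245), (nat_lit 6581064), (nat_lit 6759883), (nat_lit 6938355)]) (FT.cons (FT.leaf [(nat_lit 6189616), (nat_lit 6366154), (nat_lit 6543470), (nat_lit 6721072), (nat_lit 6898562)]) (FT.cons (FT.leaf [(nat_lit 6507236), (nat_lit 6683412), (nat_lit 6859751), (nat_lit 7035878)]) (FT.cons (FT.leaf [(nat_lit 6822051), (nat_lit 6997089)]) (FT.cons (FT.leaf [(nat_lit 7133081)]) (FT.cons (FT.leaf [(nat_lit 7439627)]) FT.nil)))))))) (FT.cons (FT.cons (FT.leaf [(nat_lit 5754342), (nat_lit 5926466), (nat_lit 6101079), (nat_lit 6277341), (nat_lit 6454590), (nat_lit 6632299), (nat_lit 6810041), (nat_lit 6987468)]) (FT.cons (FT.leaf [(nat_lit 6069492), (nat_lit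 6243430), (nat_lit 6418806), (nat_lit 6595000), (nat_lit 6771514), (nat_lit 6947949), (nat_lit 7123979)]) (FT.cons (FT.leaf [(nat_lit 6384654), (nat_lit 6559066), (nat_lit 6734141), (nat_lit 6909415), (nat_lit 7084510)]) (FT.cons (FT.leaf [(nat_lit 6698091), (nat_lit 6871998), (nat_lit 7045993), (nat_lit 7219721)]) (FT.cons (FT.leaf [(nat_lit 7008556), (nat_lit 7181240)]) (FT.cons (FT.leaf [(nat_lit 7315156)]) FT.nil)))))) (FT.cons (FT.cons (FT.leaf [(nat_lit 6265345), (nat_lit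
 6437330), (nat_lit 6610610), (nat_lit 6784593), (nat_lit 6958808), (nat_lit 7132878)]) (FT.cons (FT.leaf [(nat_lit 6576563), (nat_lit 6748836), (nat_lit 6921673), (nat_lit 7094632), (nat_lit 7267357)]) (FT.cons (FT.leaf [(nat_lit 6885823), (nat_lit 7057472), (nat_lit 7229143), (nat_lit 7400501)]) (FT.cons (FT.leaf [(nat_lit 7191980), (nat_lit 7362338)]) (FT.cons (FT.leaf [(nat_lit 7494218)]) FT.nil))))) (FT.cons (FT.cons (FT.leaf [(nat_lit 6765389), (nat_lit 6935518), (nat_lit 7106126), (nat_lit 7276791), (nat_lit 7447175)]) (FT.cons (FT.leaf [(nat_lit 7070492), (nat_lit 7239898), (nat_lit 7409272), (nat_lit 7578294)]) (FT.cons (FT.leaf [(nat_lit 7372391), (nat_lit 7540453)]) FT.nil))) (FT.cons (FT.cons (FT.leaf [(nat_lit 7252159)]) (FT.cons (FT.leaf [(nat_lit 7549859)]) FT.nil)) (FT.cons (FT.cons (FT.leaf [(nat_lit 7724453)]) FT.nil) (FT.cons (FT.cons (FT.leaf [(nat_lit 8181788)]) FT.nil) FT.nil))))))))) (FT.cons (FT.cons (FT.cons (FT.leaf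 [(nat_lit 5078814), (nat_lit 5238643), (nat_lit 5404915), (nat_lit 5575893), (nat_lit 5750281), (nat_lit 5927083), (nat_lit 6105506), (nat_lit 6284917), (nat_lit 6464798), (nat_lit 6644725), (nat_lit 6824348)]) (FT.cons (FT.leaf [(nat_lit
 5382353), (nat_lit 5549160), (nat_lit 5720238), (nat_lit 5894373), (nat_lit 6070632), (nat_lit 6248277), (nat_lit 6426717), (nat_lit 6605466), (nat_lit 6784135), (nat_lit 6962397)]) (FT.cons (FT.leaf [(nat_lit 5692821), (nat_lit 5863807), (nat_lit 6037535), (nat_lit 6213129), (nat_lit 6389898), (nat_lit 6567289), (nat_lit 6744851), (nat_lit 6922218), (nat_lit 7099086)]) (FT.cons (FT.leaf [(nat_lit 6006510), (nat_lit 6179698), (nat_lit 6354522), (nat_lit 6530332), (nat_lit 6706610), (nat_lit 6882934), (nat_lit 7058964)]) (FT.cons (FT.leaf [(nat_lit 6320806), (nat_lit 6494768), (nat_lit 6669548), (nat_lit 6844658), (nat_lit 7019705)]) (FT.cons (FT.leaf [(nat_lit 6633833), (nat_lit 6807522), (nat_lit 6981420),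 (nat_lit 7155155)]) (FT.cons (FT.leaf [(nat_lit 6944238), (nat_lit 7116884)]) (FT.cons (FT.leaf [(nat_lit 7251045)]) (FT.cons (FT.leaf [(nat_lit 7553559)]) FT.nil))))))))) (FT.cons (FT.cons (FT.leaf [(nat_lit 5584294), (nat_lit 5750031), (nat_lit 5919727), (nat_lit 6092225), (nat_lit 6266637), (nat_lit 6442265), (nat_lit 6618550), (nat_lit 6795040), (nat_lit 6971367), (nat_lit 7147225)]) (FT.cons (FT.leaf [(nat_lit 5892082), (nat_lit 6061550), (nat_lit 6233533), (nat_lit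
 6407197), (nat_lit 6581888), (nat_lit 6757082), (nat_lit 6932357), (nat_lit 7107367), (nat_lit 7281829)]) (FT.cons (FT.leaf [(nat_lit 6202447), (nat_lit 6373800), (nat_lit 6546627), (nat_lit 6720310), (nat_lit 6894358), (nat_lit 7068376), (nat_lit 7242041)]) (FT.cons (FT.leaf [(nat_lit 6512981), (nat_lit 6684891), (nat_lit 6857506), (nat_lit 7030364), (nat_lit 7203092)]) (FT.cons (FT.leaf [(nat_lit 6821964), (nat_lit 6993459), (nat_lit 7165088), (nat_lit 7336499)]) (FT.cons (FT.leaf [(nat_lit 7128156), (nat_lit 7298524)]) (FT.cons (FT.leaf [(nat_lit 7430670)]) (FT.cons (FT.leaf [(nat_lit 7728872)]) FT.nil)))))))) (FT.cons (FT.cons (FT.leaf [(nat_lit 6088470), (nat_lit 6256331), (nat_lit 6426507), (nat_lit 6598203), (nat_lit 6770795), (nat_lit 6943790), (nat_lit 7116787), (nat_lit 7289461)]) (FT.cons (FT.leaf [(nat_lit 6395397), (nat_lit 6564869), (nat_lit 6735673), (nat_lit 6907220), (nat_lit 7079046), (nat_lit 7250774), (nat_lit 7422100)])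 (FT.cons (FT.leaf [(nat_lit 6702123), (nat_lit 6871967), (nat_lit 7042417), (nat_lit 7213036), (nat_lit 7383468)]) (FT.cons (FT.leaf [(nat_lit 7007065), (nat_lit 7176375), (nat_lit 7345754), (nat_lit 7514868)]) (FT.cons (FT.leaf [(nat_lit
 7309084), (nat_lit 7477198)]) (FT.cons (FT.leaf [(nat_lit 7607367)]) FT.nil)))))) (FT.cons (FT.cons (FT.leaf [(nat_lit 6585378), (nat_lit 6752939), (nat_lit 6921705), (nat_lit 7091117), (nat_lit 7260731), (nat_lit 7430192)]) (FT.cons (FT.leaf [(nat_lit 6888274), (nat_lit 7056047), (nat_lit 7224341), (nat_lit 7392738), (nat_lit 7560902)]) (FT.cons (FT.leaf [(nat_lit 7189193), (nat_lit 7356333), (nat_lit 7523486), (nat_lit 7690335)]) (FT.cons (FT.leaf [(nat_lit 7487086), (nat_lit 7652975)]) (FT.cons (FT.leaf [(nat_lit 7781205)]) FT.nil))))) (FT.cons (FT.cons (FT.leaf [(nat_lit 7071479), (nat_lit 7237185), (nat_lit 7403337), (nat_lit 7569537), (nat_lit 7735464)]) (FT.cons (FT.leaf [(nat_lit 7368406), (nat_lit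 7533395), (nat_lit 7698351), (nat_lit 7862970)]) (FT.cons (FT.leaf [(nat_lit 7662228), (nat_lit 7825923)]) FT.nil))) (FT.cons (FT.cons (FT.leaf [(nat_lit 7544765)]) (FT.cons (FT.leaf [(nat_lit 7834577)]) FT.nil)) (FT.cons (FT.cons (FT.leaf [(nat_lit 8004200)]) FT.nil) (FT.cons (FT.cons (FT.leaf [(nat_lit 8449379)]) FT.nil) FT.nil)))))))) (FT.cons (FT.cons (FT.cons (FT.leaf [(nat_lit 5920760), (nat_lit 6082696), (nat_lit 6248340), (nat_lit 6416586), (nat_lit 6586597), (nat_lit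
 6757713), (nat_lit 6929413), (nat_lit 7101272), (nat_lit 7272946), (nat_lit 7444152)]) (FT.cons (FT.leaf [(nat_lit 6220986), (nat_lit 6386329), (nat_lit 6554017), (nat_lit 6723259), (nat_lit 6893437), (nat_lit 7064061), (nat_lit 7234733), (nat_lit 7405132), (nat_lit 7574991)]) (FT.cons (FT.leaf [(nat_lit 6523387), (nat_lit 6690416), (nat_lit 6858812), (nat_lit 7027993), (nat_lit 7197495), (nat_lit 7366946), (nat_lit 7536044)]) (FT.cons (FT.leaf [(nat_lit 6825748), (nat_lit 6993231), (nat_lit 7161361), (nat_lit 7329703), (nat_lit 7497906)]) (FT.cons (FT.leaf [(nat_lit 7126494), (nat_lit 7293530), (nat_lit 7460680), (nat_lit 7627612)]) (FT.cons (FT.leaf [(nat_lit 7424490), (nat_lit 7590422)]) (FT.cons (FT.leaf [(nat_lit 7718927)]) FT.nil))))))) (FT.cons (FT.cons (FT.leaf [(nat_lit 6411632), (nat_lit 6575369), (nat_lit 6741274), (nat_lit 6908592), (nat_lit 7076736), (nat_lit 7245236), (nat_lit 7413719), (nat_lit 7581878)]) (FT.cons (FT.leaf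 [(nat_lit 6710643), (nat_lit 6875830), (nat_lit 7042259), (nat_lit 7209374), (nat_lit 7376736), (nat_lit 7543991), (nat_lit 7710852)]) (FT.cons (FT.leaf [(nat_lit 7009303), (nat_lit 7174785), (nat_lit 7340829), (nat_lit 7507020), (nat_lit
 7673024)]) (FT.cons (FT.leaf [(nat_lit 7306154), (nat_lit 7471091), (nat_lit 7636083), (nat_lit 7800819)]) (FT.cons (FT.leaf [(nat_lit 7600152), (nat_lit 7763925)]) (FT.cons (FT.leaf [(nat_lit 7890548)]) FT.nil)))))) (FT.cons (FT.cons (FT.leaf [(nat_lit 6895046), (nat_lit 7058371), (nat_lit 7222828), (nat_lit 7387886), (nat_lit 7553124), (nat_lit 7718207)]) (FT.cons (FT.leaf [(nat_lit 7189999), (nat_lit 7353483), (nat_lit 7517454), (nat_lit 7681515), (nat_lit 7845349)]) (FT.cons (FT.leaf [(nat_lit 7482984), (nat_lit 7645837), (nat_lit 7808700), (nat_lit 7971272)]) (FT.cons (FT.leaf [(nat_lit 7773034), (nat_lit 7934680)]) (FT.cons (FT.leaf [(nat_lit 8059458)]) FT.nil))))) (FT.cons (FT.cons (FT.leaf [(nat_lit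 7367886), (nat_lit 7529379), (nat_lit 7691295), (nat_lit 7853253), (nat_lit 8014950)]) (FT.cons (FT.leaf [(nat_lit 7657041), (nat_lit 7817834), (nat_lit 7978596), (nat_lit 8139038)]) (FT.cons (FT.leaf [(nat_lit 7943200), (nat_lit 8102750)]) FT.nil))) (FT.cons (FT.cons (FT.leaf [(nat_lit 7828385)]) (FT.cons (FT.leaf [(nat_lit 8110714)]) FT.nil)) (FT.cons (FT.cons (FT.leaf [(nat_lit 8275641)]) FT.nil) FT.nil)))))) (FT.cons (FT.cons (FT.cons (FT.leaf [(nat_lit 6724426), (nat_lit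
 6884186), (nat_lit 7045992), (nat_lit 7209122), (nat_lit 7373017), (nat_lit 7537235), (nat_lit 7701423), (nat_lit 7865293)]) (FT.cons (FT.leaf [(nat_lit 7015836), (nat_lit 7176919), (nat_lit 7339170), (nat_lit 7502060), (nat_lit 7665174), (nat_lit 7828175), (nat_lit 7990795)]) (FT.cons (FT.leaf [(nat_lit 7306793), (nat_lit 7468115), (nat_lit 7629963), (nat_lit 7791943), (nat_lit 7953740)]) (FT.cons (FT.leaf [(nat_lit 7595944), (nat_lit 7756718), (nat_lit 7917543), (nat_lit 8078120)]) (FT.cons (FT.leaf [(nat_lit 7882322), (nat_lit 8041973)]) (FT.cons (FT.leaf [(nat_lit 8165236)]) FT.nil)))))) (FT.cons (FT.cons (FT.leaf [(nat_lit 7194946), (nat_lit 7354222), (nat_lit 7514568), (nat_lit 7675478), (nat_lit 7836554), (nat_lit 7997476)]) (FT.cons (FT.leaf [(nat_lit 7482324), (nat_lit 7641720), (nat_lit 7801577), (nat_lit 7961518), (nat_lit 8121240)]) (FT.cons (FT.leaf [(nat_lit 7767763), (nat_lit 7926540), (nat_lit 8085327), (nat_lit 8243836)])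 (FT.cons (FT.leaf [(nat_lit 8050365), (nat_lit 8207982)]) (FT.cons (FT.leaf [(nat_lit 8329488)]) FT.nil))))) (FT.cons (FT.cons (FT.leaf [(nat_lit 7655177), (nat_lit 7812660), (nat_lit 7970546)]) (FT.cons (FT.leaf [(nat_lit 7936945), (nat_lit
 8093748)]) (FT.cons (FT.leaf [(nat_lit 8215827)]) FT.nil))) (FT.cons (FT.cons (FT.leaf [(nat_lit 8103546)]) (FT.cons (FT.leaf [(nat_lit 8378771)]) FT.nil)) (FT.cons (FT.cons (FT.leaf [(nat_lit 8539256)]) FT.nil) FT.nil))))) (FT.cons (FT.cons (FT.cons (FT.leaf [(nat_lit 7485640), (nat_lit 7641043), (nat_lit 7797468), (nat_lit 7954428), (nat_lit 8111543)]) (FT.cons (FT.leaf [(nat_lit 7765794), (nat_lit 7921295), (nat_lit 8077236), (nat_lit 8233256)]) (FT.cons (FT.leaf [(nat_lit 8044054), (nat_lit 8198953)]) (FT.cons (FT.leaf [(nat_lit 8319579)]) FT.nil)))) (FT.cons (FT.cons (FT.leaf [(nat_lit 7933878), (nat_lit 8087541), (nat_lit 8241592)]) (FT.cons (FT.leaf [(nat_lit 8208621), (nat_lit 8361629)]) (FT.cons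 (FT.leaf [(nat_lit 8480590)]) FT.nil))) (FT.cons (FT.cons (FT.leaf [(nat_lit 8370732)]) (FT.cons (FT.leaf [(nat_lit 8639207)]) FT.nil)) FT.nil))) (FT.cons (FT.cons (FT.cons (FT.leaf [(nat_lit 8204485)]) FT.nil) (FT.cons (FT.cons (FT.leaf [(nat_lit 8630391)]) FT.nil) FT.nil)) (FT.cons (FT.cons (FT.cons (FT.leaf [(nat_lit 8882935)]) FT.nil) FT.nil) (FT.cons (FT.cons (FT.cons (FT.leaf [(nat_lit 9523765)]) FT.nil) FT.nil) (FT.cons (FT.cons (FT.cons (FT.leaf [(nat_lit 10129923)])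
 FT.nil) FT.nil) (FT.cons (FT.cons (FT.cons (FT.leaf [(nat_lit 10704301)]) FT.nil) FT.nil) FT.nil)))))))))) (FT.cons (FT.cons (FT.cons (FT.cons (FT.leaf [(nat_lit 6048629), (nat_lit 6193616), (nat_lit 6344465), (nat_lit 6499636), (nat_lit 6657991), (nat_lit 6818654), (nat_lit 6980933), (nat_lit 7144271), (nat_lit 7308217), (nat_lit 7472395), (nat_lit 7636497)]) (FT.cons (FT.leaf [(nat_lit 6323500), (nat_lit 6474904), (nat_lit 6630261), (nat_lit 6788502), (nat_lit 6948806), (nat_lit 7110524), (nat_lit 7273136), (nat_lit 7436219), (nat_lit 7599422), (nat_lit 7762457)]) (FT.cons (FT.leaf [(nat_lit 6604911), (nat_lit 6760295), (nat_lit 6918294), (nat_lit 7078135), (nat_lit 7239210), (nat_lit 7401030), (nat_lit 7563197), (nat_lit 7725385), (nat_lit 7887323)]) (FT.cons (FT.leaf [(nat_lit 6889663), (nat_lit 7047307), (nat_lit 7206596), (nat_lit 7366956), (nat_lit 7527926), (nat_lit 7689135), (nat_lit 7850274)]) (FT.cons (FT.leaf [(nat_lit 7175496),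 (nat_lit 7334153), (nat_lit 7493735), (nat_lit 7653808), (nat_lit 7814019)]) (FT.cons (FT.leaf [(nat_lit 7460776), (nat_lit 7619526), (nat_lit 7778658), (nat_lit 7937840)]) (FT.cons (FT.leaf [(nat_lit 7744310), (nat_lit 7902466)]) (FT.cons
 (FT.leaf [(nat_lit 8025222)]) (FT.cons (FT.leaf [(nat_lit 8302872)]) FT.nil))))))))) (FT.cons (FT.cons (FT.leaf [(nat_lit 6505434), (nat_lit 6656041), (nat_lit 6810345), (nat_lit 6967319), (nat_lit 7126178), (nat_lit 7286307), (nat_lit 7447212), (nat_lit 7608493), (nat_lit 7769820), (nat_lit 7930922)]) (FT.cons (FT.leaf [(nat_lit 6784778), (nat_lit 6938994), (nat_lit 7095634), (nat_lit 7253961), (nat_lit 7413392), (nat_lit 7573466), (nat_lit 7733803), (nat_lit 7894098), (nat_lit 8054094)]) (FT.cons (FT.leaf [(nat_lit 7066927), (nat_lit 7223136), (nat_lit 7380851), (nat_lit 7539523), (nat_lit 7698715), (nat_lit 7858073), (nat_lit 8017306)]) (FT.cons (FT.leaf [(nat_lit 7349784), (nat_lit 7506819), (nat_lit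 7664677), (nat_lit 7822945), (nat_lit 7981290)]) (FT.cons (FT.leaf [(nat_lit 7631839), (nat_lit 7788836), (nat_lit 7946145), (nat_lit 8103450)]) (FT.cons (FT.leaf [(nat_lit 7911987), (nat_lit 8068307)]) (FT.cons (FT.leaf [(nat_lit 8189422)]) (FT.cons (FT.leaf [(nat_lit 8463555)]) FT.nil)))))))) (FT.cons (FT.cons (FT.leaf [(nat_lit 6962351), (nat_lit 7115324), (nat_lit 7270552), (nat_lit 7427326), (nat_lit 7585092), (nat_lit 7743408), (nat_lit 7901917), (nat_lit 8060328)]) (FT.cons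
 (FT.leaf [(nat_lit 7241799), (nat_lit 7396531), (nat_lit 7552643), (nat_lit 7709613), (nat_lit 7867024), (nat_lit 8024537), (nat_lit 8181878)]) (FT.cons (FT.leaf [(nat_lit 7521634), (nat_lit 7677026), (nat_lit 7833153), (nat_lit 7989621), (nat_lit 8146110)]) (FT.cons (FT.leaf [(nat_lit 7800452), (nat_lit 7955695), (nat_lit 8111190), (nat_lit 8266633)]) (FT.cons (FT.leaf [(nat_lit 8077232), (nat_lit 8231726)]) (FT.cons (FT.leaf [(nat_lit 8351226)]) FT.nil)))))) (FT.cons (FT.cons (FT.leaf [(nat_lit 7414287), (nat_lit 7567509), (nat_lit 7722001), (nat_lit 7877262), (nat_lit 8032892), (nat_lit 8188572)]) (FT.cons (FT.leaf [(nat_lit 7691068), (nat_lit 7844806), (nat_lit 7999201), (nat_lit 8153875), (nat_lit 8308524)]) (FT.cons (FT.leaf [(nat_lit 7966652), (nat_lit 8120146), (nat_lit 8273837), (nat_lit 8427437)]) (FT.cons (FT.leaf [(nat_lit 8240088), (nat_lit 8392773)]) (FT.cons (FT.leaf [(nat_lit 8510684)]) FT.nil))))) (FT.cons (FT.cons (FT.leaf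 [(nat_lit 7858116), (nat_lit 8010196), (nat_lit 8162863), (nat_lit 8315756), (nat_lit 8468582)]) (FT.cons (FT.leaf [(nat_lit 8130476), (nat_lit 8282230), (nat_lit 8434133), (nat_lit 8585910)]) (FT.cons (FT.leaf [(nat_lit 8400600), (nat_lit
 8551496)]) FT.nil))) (FT.cons (FT.cons (FT.leaf [(nat_lit 8291968)]) (FT.cons (FT.leaf [(nat_lit 8558816)]) FT.nil)) (FT.cons (FT.cons (FT.leaf [(nat_lit 8714782)]) FT.nil) FT.nil))))))) (FT.cons (FT.cons (FT.cons (FT.leaf [(nat_lit 6807549), (nat_lit 6955142), (nat_lit 7106222), (nat_lit 7259804), (nat_lit 7415140), (nat_lit 7571647), (nat_lit 7728859), (nat_lit 7886396), (nat_lit 8043951), (nat_lit 8201268)]) (FT.cons (FT.leaf [(nat_lit 7080875), (nat_lit 7231803), (nat_lit 7385009), (nat_lit 7539787), (nat_lit 7695587), (nat_lit 7851969), (nat_lit 8008579), (nat_lit 8165123), (nat_lit 8321365)]) (FT.cons (FT.leaf [(nat_lit 7356659), (nat_lit 7509402), (nat_lit 7663554), (nat_lit 7818593), (nat_lit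 7974103), (nat_lit 8129751), (nat_lit 8285261)]) (FT.cons (FT.leaf [(nat_lit 7632950), (nat_lit 7786415), (nat_lit 7940645), (nat_lit 8095248), (nat_lit 8249906)]) (FT.cons (FT.leaf [(nat_lit 7908349), (nat_lit 8061730), (nat_lit 8215394), (nat_lit 8369041)]) (FT.cons (FT.leaf [(nat_lit 8181837), (nat_lit 8334536)]) (FT.cons (FT.leaf [(nat_lit 8452669)]) FT.nil))))))) (FT.cons (FT.cons (FT.leaf [(nat_lit 7253855), (nat_lit 7403530), (nat_lit 7555332), (nat_lit 7708581), (nat_lit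
 7862753), (nat_lit 8017427), (nat_lit 8172264), (nat_lit 8326989)]) (FT.cons (FT.leaf [(nat_lit 7526955), (nat_lit 7678240), (nat_lit 7830822), (nat_lit 7984203), (nat_lit 8137986), (nat_lit 8291851), (nat_lit 8445538)]) (FT.cons (FT.leaf [(nat_lit 7800287), (nat_lit 7952149), (nat_lit 8104698), (nat_lit 8257559), (nat_lit 8410428)]) (FT.cons (FT.leaf [(nat_lit 8072545), (nat_lit 8224227), (nat_lit 8376138), (nat_lit 8527991)]) (FT.cons (FT.leaf [(nat_lit 8342781), (nat_lit 8493721)]) (FT.cons (FT.leaf [(nat_lit 8610305)]) FT.nil)))))) (FT.cons (FT.cons (FT.leaf [(nat_lit 7694946), (nat_lit 7844749), (nat_lit 7995751), (nat_lit 8147472), (nat_lit 8299533), (nat_lit 8451629)]) (FT.cons (FT.leaf [(nat_lit 7965301), (nat_lit 8115555), (nat_lit 8266426), (nat_lit 8417555), (nat_lit 8568650)]) (FT.cons (FT.leaf [(nat_lit 8234427), (nat_lit 8384418), (nat_lit 8534591), (nat_lit 8684670)]) (FT.cons (FT.leaf [(nat_lit 8501441), (nat_lit 8650639)])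 (FT.cons (FT.leaf [(nat_lit 8765699)]) FT.nil))))) (FT.cons (FT.cons (FT.leaf [(nat_lit 8128023), (nat_lit 8276669), (nat_lit 8425870), (nat_lit 8575280), (nat_lit 8724622)]) (FT.cons (FT.leaf [(nat_lit 8394035), (nat_lit 8542346), (nat_lit
 8690797), (nat_lit 8839124)]) (FT.cons (FT.leaf [(nat_lit 8657861), (nat_lit 8805336)]) FT.nil))) (FT.cons (FT.cons (FT.leaf [(nat_lit 8551410)]) (FT.cons (FT.leaf [(nat_lit 8812085)]) FT.nil)) (FT.cons (FT.cons (FT.leaf [(nat_lit 8964161)]) FT.nil) FT.nil)))))) (FT.cons (FT.cons (FT.cons (FT.leaf [(nat_lit 7537058), (nat_lit 7683531), (nat_lit 7832020), (nat_lit 7981875), (nat_lit 8132591), (nat_lit 8283770), (nat_lit 8435090), (nat_lit 8586290)]) (FT.cons (FT.leaf [(nat_lit 7804023), (nat_lit 7951982), (nat_lit 8101169), (nat_lit 8251104), (nat_lit 8401410), (nat_lit 8551783), (nat_lit 8701976)]) (FT.cons (FT.leaf [(nat_lit 8071100), (nat_lit 8219572), (nat_lit 8368690), (nat_lit 8518095), (nat_lit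 8667501)]) (FT.cons (FT.leaf [(nat_lit 8337070), (nat_lit 8485340), (nat_lit 8633823), (nat_lit 8782243)]) (FT.cons (FT.leaf [(nat_lit 8601048), (nat_lit 8748588)]) (FT.cons (FT.leaf [(nat_lit 8862391)]) FT.nil)))))) (FT.cons (FT.cons (FT.leaf [(nat_lit 7967716), (nat_lit 8114227), (nat_lit 8261875), (nat_lit 8410201), (nat_lit 8558843), (nat_lit 8707511)]) (FT.cons (FT.leaf [(nat_lit 8231899), (nat_lit 8378810), (nat_lit 8526305), (nat_lit 8674039), (nat_lit 8821737)]) (FT.cons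
 (FT.leaf [(nat_lit 8494841), (nat_lit 8641478), (nat_lit 8788285), (nat_lit 8934999)]) (FT.cons (FT.leaf [(nat_lit 8755715), (nat_lit 8901578)]) (FT.cons (FT.leaf [(nat_lit 9013921)]) FT.nil))))) (FT.cons (FT.cons (FT.leaf [(nat_lit 8390498), (nat_lit 8535851), (nat_lit 8681733)]) (FT.cons (FT.leaf [(nat_lit 8650434), (nat_lit 8795450)]) (FT.cons (FT.leaf [(nat_lit 8908241)]) FT.nil))) (FT.cons (FT.cons (FT.leaf [(nat_lit 8803889)]) (FT.cons (FT.leaf [(nat_lit 9058667)]) FT.nil)) (FT.cons (FT.cons (FT.leaf [(nat_lit 9207039)]) FT.nil) FT.nil))))) (FT.cons (FT.cons (FT.cons (FT.leaf [(nat_lit 8232993), (nat_lit 8376337), (nat_lit 8520765), (nat_lit 8665836), (nat_lit 8811203)]) (FT.cons (FT.leaf [(nat_lit 8491253), (nat_lit 8634956), (nat_lit 8779216), (nat_lit 8923702)]) (FT.cons (FT.leaf [(nat_lit 8748272), (nat_lit 8891697)]) (FT.cons (FT.leaf [(nat_lit 9003275)]) FT.nil)))) (FT.cons (FT.cons (FT.leaf [(nat_lit 8645920), (nat_lit 8788118),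 (nat_lit 8930820)]) (FT.cons (FT.leaf [(nat_lit 8900040), (nat_lit 9041902)]) (FT.cons (FT.leaf [(nat_lit 9152091)]) FT.nil))) (FT.cons (FT.cons (FT.leaf [(nat_lit 9049761)]) (FT.cons (FT.leaf [(nat_lit 9298900)]) FT.nil)) FT.nil))) (FT.cons
 (FT.cons (FT.cons (FT.leaf [(nat_lit 8894647)]) FT.nil) (FT.cons (FT.cons (FT.leaf [(nat_lit 9289358)]) FT.nil) FT.nil)) (FT.cons (FT.cons (FT.cons (FT.leaf [(nat_lit 9522987)]) FT.nil) FT.nil) (FT.cons (FT.cons (FT.cons (FT.leaf [(nat_lit 10119767)]) FT.nil) FT.nil) (FT.cons (FT.cons (FT.cons (FT.leaf [(nat_lit 10687049)]) FT.nil) FT.nil) (FT.cons (FT.cons (FT.cons (FT.leaf [(nat_lit 11226954)]) FT.nil) FT.nil) FT.nil))))))))) (FT.cons (FT.cons (FT.cons (FT.cons (FT.leaf [(nat_lit 7601615), (nat_lit 7737718), (nat_lit 7877098), (nat_lit 8018866), (nat_lit 8162347), (nat_lit 8307014), (nat_lit 8452447), (nat_lit 8598305), (nat_lit 8744308), (nat_lit 8890224)]) (FT.cons (FT.leaf [(nat_lit 7853381),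 (nat_lit 7992701), (nat_lit 8134211), (nat_lit 8277274), (nat_lit 8421391), (nat_lit 8566165), (nat_lit 8711275), (nat_lit 8856455), (nat_lit 9001489)]) (FT.cons (FT.leaf [(nat_lit 8107718), (nat_lit 8248896), (nat_lit 8391480), (nat_lit 8534998), (nat_lit 8679074), (nat_lit 8823405), (nat_lit 8967741)]) (FT.cons (FT.leaf [(nat_lit 8362889), (nat_lit 8504940), (nat_lit 8647817), (nat_lit 8791163), (nat_lit 8934689)]) (FT.cons (FT.leaf [(nat_lit 8617637), (nat_lit 8759835), (nat_lit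
 8902421), (nat_lit 9045119)]) (FT.cons (FT.leaf [(nat_lit 8871041), (nat_lit 9012841)]) (FT.cons (FT.leaf [(nat_lit 9122418)]) FT.nil))))))) (FT.cons (FT.cons (FT.leaf [(nat_lit 8012182), (nat_lit 8150492), (nat_lit 8290860), (nat_lit 8432672), (nat_lit 8575448), (nat_lit 8718809), (nat_lit 8862448), (nat_lit 9006111)]) (FT.cons (FT.leaf [(nat_lit 8264328), (nat_lit 8404314), (nat_lit 8545609), (nat_lit 8687759), (nat_lit 8830402), (nat_lit 8973249), (nat_lit 9116060)]) (FT.cons (FT.leaf [(nat_lit 8517062), (nat_lit 8657793), (nat_lit 8799278), (nat_lit 8941175), (nat_lit 9083207)]) (FT.cons (FT.leaf [(nat_lit 8769206), (nat_lit 8909994), (nat_lit 9051119), (nat_lit 9192317)]) (FT.cons (FT.leaf [(nat_lit 9019898), (nat_lit 9160229)]) (FT.cons (FT.leaf [(nat_lit 9268501)]) FT.nil)))))) (FT.cons (FT.cons (FT.leaf [(nat_lit 8419022), (nat_lit 8557793), (nat_lit 8697785), (nat_lit 8838560), (nat_lit 8979772), (nat_lit 9121141)]) (FT.cons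 (FT.leaf [(nat_lit 8669296), (nat_lit 8808698), (nat_lit 8948789), (nat_lit 9089242), (nat_lit 9229790)]) (FT.cons (FT.leaf [(nat_lit 8918836), (nat_lit 9058216), (nat_lit 9197888), (nat_lit 9337597)]) (FT.cons (FT.leaf [(nat_lit 9166833), (nat_lit
 9305704)]) (FT.cons (FT.leaf [(nat_lit 9412690)]) FT.nil))))) (FT.cons (FT.cons (FT.leaf [(nat_lit 8819614), (nat_lit 8957681), (nat_lit 9096381)]) (FT.cons (FT.leaf [(nat_lit 9066556), (nat_lit 9204533)]) (FT.cons (FT.leaf [(nat_lit 9311878)]) FT.nil))) (FT.cons (FT.cons (FT.leaf [(nat_lit 9212396)]) (FT.cons (FT.leaf [(nat_lit 9455067)]) FT.nil)) (FT.cons (FT.cons (FT.leaf [(nat_lit 9596434)]) FT.nil) FT.nil)))))) (FT.cons (FT.cons (FT.cons (FT.leaf [(nat_lit 8271603), (nat_lit 8407264), (nat_lit 8544882), (nat_lit 8683866), (nat_lit 8823758), (nat_lit 8964195), (nat_lit 9104883), (nat_lit 9245582)]) (FT.cons (FT.leaf [(nat_lit 8518659), (nat_lit 8655880), (nat_lit 8794342), (nat_lit 8933609),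 (nat_lit 9073339), (nat_lit 9213250), (nat_lit 9353116)]) (FT.cons (FT.leaf [(nat_lit 8766181), (nat_lit 8904078), (nat_lit 9042688), (nat_lit 9181683), (nat_lit 9320798)]) (FT.cons (FT.leaf [(nat_lit 9013062), (nat_lit 9150985), (nat_lit 9289223), (nat_lit 9427525)]) (FT.cons (FT.leaf [(nat_lit 9258493), (nat_lit 9395955)]) (FT.cons (FT.leaf [(nat_lit 9501876)]) FT.nil)))))) (FT.cons (FT.cons (FT.leaf [(nat_lit 8669773), (nat_lit 8805798), (nat_lit 8942985), (nat_lit 9080913), (nat_lit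
 9219250), (nat_lit 9357729)]) (FT.cons (FT.leaf [(nat_lit 8914890), (nat_lit 9051489), (nat_lit 9188744), (nat_lit 9326338), (nat_lit 9464015)]) (FT.cons (FT.leaf [(nat_lit 9159239), (nat_lit 9295795), (nat_lit 9432625), (nat_lit 9569487)]) (FT.cons (FT.leaf [(nat_lit 9402060), (nat_lit 9538110)]) (FT.cons (FT.leaf [(nat_lit 9642792)]) FT.nil))))) (FT.cons (FT.cons (FT.leaf [(nat_lit 9061749), (nat_lit 9197049), (nat_lit 9332953)]) (FT.cons (FT.leaf [(nat_lit 9303578), (nat_lit 9438773)]) (FT.cons (FT.leaf [(nat_lit 9543812)]) FT.nil))) (FT.cons (FT.cons (FT.leaf [(nat_lit 9446108)]) (FT.cons (FT.leaf [(nat_lit 9683779)]) FT.nil)) (FT.cons (FT.cons (FT.leaf [(nat_lit 9821997)]) FT.nil) FT.nil))))) (FT.cons (FT.cons (FT.cons (FT.leaf [(nat_lit 8914275), (nat_lit 9047645), (nat_lit 9182124), (nat_lit 9317308), (nat_lit 9452878)]) (FT.cons (FT.leaf [(nat_lit 9154417), (nat_lit 9288315), (nat_lit 9422837), (nat_lit 9557679)]) (FT.cons (FT.leaf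 [(nat_lit 9393770), (nat_lit 9527608)]) (FT.cons (FT.leaf [(nat_lit 9631616)]) FT.nil)))) (FT.cons (FT.cons (FT.leaf [(nat_lit 9297962), (nat_lit 9430596), (nat_lit 9563807)]) (FT.cons (FT.leaf [(nat_lit 9534871), (nat_lit 9667390)]) (FT.cons
 (FT.leaf [(nat_lit 9770216)]) FT.nil))) (FT.cons (FT.cons (FT.leaf [(nat_lit 9674232)]) (FT.cons (FT.leaf [(nat_lit 9907100)]) FT.nil)) FT.nil))) (FT.cons (FT.cons (FT.cons (FT.leaf [(nat_lit 9528522)]) FT.nil) (FT.cons (FT.cons (FT.leaf [(nat_lit 9897022)]) FT.nil) FT.nil)) (FT.cons (FT.cons (FT.cons (FT.leaf [(nat_lit 10114715)]) FT.nil) FT.nil) (FT.cons (FT.cons (FT.cons (FT.leaf [(nat_lit 10673972)]) FT.nil) FT.nil) (FT.cons (FT.cons (FT.cons (FT.leaf [(nat_lit 11207755)]) FT.nil) FT.nil) (FT.cons (FT.cons (FT.cons (FT.leaf [(nat_lit 11717654)]) FT.nil) FT.nil) FT.nil)))))))) (FT.cons (FT.cons (FT.cons (FT.cons (FT.leaf [(nat_lit 8943083), (nat_lit 9069721), (nat_lit 9198249), (nat_lit 9328124),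 (nat_lit 9458925), (nat_lit 9590317)]) (FT.cons (FT.leaf [(nat_lit 9173523), (nat_lit 9301746), (nat_lit 9431204), (nat_lit 9561495), (nat_lit 9692301)]) (FT.cons (FT.leaf [(nat_lit 9404656), (nat_lit 9533657), (nat_lit 9663407), (nat_lit 9793603)]) (FT.cons (FT.leaf [(nat_lit 9635472), (nat_lit 9764655)]) (FT.cons (FT.leaf [(nat_lit 9865228)]) (FT.cons (FT.leaf [(nat_lit 10093368)]) FT.nil)))))) (FT.cons (FT.cons (FT.leaf [(nat_lit 9314128), (nat_lit 9441345), (nat_lit 9569724),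
 (nat_lit 9698876), (nat_lit 9828496)]) (FT.cons (FT.leaf [(nat_lit 9543223), (nat_lit 9671124), (nat_lit 9799719), (nat_lit 9928718)]) (FT.cons (FT.leaf [(nat_lit 9771881), (nat_lit 9899897)]) (FT.cons (FT.leaf [(nat_lit 9999402)]) (FT.cons (FT.leaf [(nat_lit 10225262)]) FT.nil))))) (FT.cons (FT.cons (FT.leaf [(nat_lit 9680206), (nat_lit 9807001), (nat_lit 9934444)]) (FT.cons (FT.leaf [(nat_lit 9906710), (nat_lit 10033562)]) (FT.cons (FT.leaf [(nat_lit 10132011)]) FT.nil))) (FT.cons (FT.cons (FT.leaf [(nat_lit 10039981)]) (FT.cons (FT.leaf [(nat_lit 10263078)]) FT.nil)) FT.nil)))) (FT.cons (FT.cons (FT.cons (FT.leaf [(nat_lit 9541264), (nat_lit 9666212), (nat_lit 9792272), (nat_lit 9919069), (nat_lit 10046310)]) (FT.cons (FT.leaf [(nat_lit 9766101), (nat_lit 9891684), (nat_lit 10017932), (nat_lit 10144562)]) (FT.cons (FT.leaf [(nat_lit 9990470), (nat_lit 10116145)]) (FT.cons (FT.leaf [(nat_lit 10213704)]) FT.nil)))) (FT.cons (FT.cons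 (FT.leaf [(nat_lit 9900239), (nat_lit 10024744), (nat_lit 10149868)]) (FT.cons (FT.leaf [(nat_lit 10122512), (nat_lit 10247055)]) (FT.cons (FT.leaf [(nat_lit 10343591)]) FT.nil))) (FT.cons (FT.cons (FT.leaf [(nat_lit 10253049)]) (FT.cons (FT.leaf
 [(nat_lit 10471991)]) FT.nil)) FT.nil))) (FT.cons (FT.cons (FT.cons (FT.leaf [(nat_lit 10115422)]) FT.nil) (FT.cons (FT.cons (FT.leaf [(nat_lit 10461514)]) FT.nil) FT.nil)) (FT.cons (FT.cons (FT.cons (FT.leaf [(nat_lit 10665563)]) FT.nil) FT.nil) (FT.cons (FT.cons (FT.cons (FT.leaf [(nat_lit 11192385)]) FT.nil) FT.nil) (FT.cons (FT.cons (FT.cons (FT.leaf [(nat_lit 11696937)]) FT.nil) FT.nil) FT.nil)))))) (FT.cons (FT.cons (FT.cons (FT.cons (FT.leaf [(nat_lit 10122723), (nat_lit 10240439), (nat_lit 10359256)]) (FT.cons (FT.leaf [(nat_lit 10334416), (nat_lit 10452837)]) (FT.cons (FT.leaf [(nat_lit 10545873)]) FT.nil))) (FT.cons (FT.cons (FT.leaf [(nat_lit 10460472)]) (FT.cons (FT.leaf [(nat_lit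 10670105)]) FT.nil)) (FT.cons (FT.cons (FT.leaf [(nat_lit 10793019)]) FT.nil) FT.nil))) (FT.cons (FT.cons (FT.cons (FT.leaf [(nat_lit 10662434)]) FT.nil) (FT.cons (FT.cons (FT.leaf [(nat_lit 10989098)]) FT.nil) FT.nil)) (FT.cons (FT.cons (FT.cons (FT.leaf [(nat_lit 11181305)]) FT.nil) FT.nil) (FT.cons (FT.cons (FT.cons (FT.leaf [(nat_lit 11679749)]) FT.nil) FT.nil) FT.nil)))) (FT.cons (FT.cons (FT.cons (FT.cons (FT.leaf [(nat_lit 11175091)]) FT.nil) FT.nil) (FT.cons (FT.cons (FT.cons (FT.leaf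
 [(nat_lit 11666522)]) FT.nil) FT.nil) FT.nil)) (FT.cons (FT.cons (FT.cons (FT.cons (FT.leaf [(nat_lit 12124918)]) FT.nil) FT.nil) FT.nil) (FT.cons (FT.cons (FT.cons (FT.cons (FT.leaf [(nat_lit 12990440)]) FT.nil) FT.nil) FT.nil) FT.nil))))))))

def f176_1_750 : FT := (FT.cons (FT.cons (FT.cons (FT.cons (FT.leaf [(nat_lit 4704474), (nat_lit 4846716), (nat_lit 4999415), (nat_lit 5159921), (nat_lit 5326327), (nat_lit 5497180), (nat_lit 5671345), (nat_lit 5847911), (nat_lit 6026136), (nat_lit 6205409), (nat_lit 6385228), (nat_lit 6565170), (nat_lit 6744888), (nat_lit 6924085), (nat_lit 7102519)]) (FT.cons (FT.leaf [(nat_lit 4985169), (nat_lit 5139941), (nat_lit 5301830), (nat_lit 5469053), (nat_lit 5640263), (nat_lit 5814403), (nat_lit 5990629), (nat_lit 6168254), (nat_lit 6346713), (nat_lit 6525539), (nat_lit 6704345), (nat_lit 6882805), (nat_lit 7060652), (nat_lit 7237659)]) (FT.cons (FT.leaf [(nat_lit 5280737), (nat_lit 5443664), (nat_lit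 5611428), (nat_lit 5782770), (nat_lit 5956705), (nat_lit 6132445), (nat_lit 6309352), (nat_lit 6486902), (nat_lit 6664663), (nat_lit 6842274), (nat_lit 7019436), (nat_lit 7195900)]) (FT.cons (FT.leaf [(nat_lit 5585243), (nat_lit 5753310), (nat_lit 5924590), (nat_lit 6098162), (nat_lit 6273289), (nat_lit 6449378), (nat_lit 6625939), (nat_lit 6802571), (nat_lit 6978940), (nat_lit 7154769)]) (FT.cons (FT.leaf [(nat_lit 5894578), (nat_lit 6065628), (nat_lit 6238701), (nat_lit 6413106), (nat_lit 6588289), (nat_lit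
 6763793), (nat_lit 6939244), (nat_lit 7114331), (nat_lit 7288797)]) (FT.cons (FT.leaf [(nat_lit 6205804), (nat_lit 6378259), (nat_lit 6551849), (nat_lit 6726050), (nat_lit 6900439), (nat_lit 7074664), (nat_lit 7248438)]) (FT.cons (FT.leaf [(nat_lit 6516786), (nat_lit 6689478), (nat_lit 6862635), (nat_lit 7035859), (nat_lit 7208822)]) (FT.cons (FT.leaf [(nat_lit 6825962), (nat_lit 6998021), (nat_lit 7170039), (nat_lit 7341710)]) (FT.cons (FT.leaf [(nat_lit 7132191), (nat_lit 7302969)]) (FT.cons (FT.leaf [(nat_lit 7434644)]) FT.nil)))))))))) (FT.cons (FT.cons (FT.leaf [(nat_lit 5185328), (nat_lit 5340293), (nat_lit 5501882), (nat_lit 5668387), (nat_lit 5838525), (nat_lit 6011297), (nat_lit 6185911), (nat_lit 6361723), (nat_lit 6538207), (nat_lit 6714928), (nat_lit 6891525), (nat_lit 7067699), (nat_lit 7243200)]) (FT.cons (FT.leaf [(nat_lit 5480224), (nat_lit 5642585), (nat_lit 5809414), (nat_lit 5979509), (nat_lit 6151936), (nat_lit 6325955),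 (nat_lit 6500965), (nat_lit 6676477), (nat_lit 6852087), (nat_lit 7027460), (nat_lit 7202319), (nat_lit 7376431)]) (FT.cons (FT.leaf [(nat_lit 5782891), (nat_lit 5949838), (nat_lit 6119721), (nat_lit 6291668), (nat_lit 6464982), (nat_lit
 6639105), (nat_lit 6813577), (nat_lit 6988025), (nat_lit 7162134), (nat_lit 7335648)]) (FT.cons (FT.leaf [(nat_lit 6089555), (nat_lit 6259083), (nat_lit 6430431), (nat_lit 6602948), (nat_lit 6776108), (nat_lit 6949484), (nat_lit 7122724), (nat_lit 7295538), (nat_lit 7467685)]) (FT.cons (FT.leaf [(nat_lit 6397527), (nat_lit 6568175), (nat_lit 6739813), (nat_lit 6911948), (nat_lit 7084177), (nat_lit 7256174), (nat_lit 7427666)]) (FT.cons (FT.leaf [(nat_lit 6704858), (nat_lit 6875548), (nat_lit 7046603), (nat_lit 7217645), (nat_lit 7388368)]) (FT.cons (FT.leaf [(nat_lit 7010128), (nat_lit 7180056), (nat_lit 7349878), (nat_lit 7519303)]) (FT.cons (FT.leaf [(nat_lit 7312297), (nat_lit 7480870)]) (FT.cons (FT.leaf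 [(nat_lit 7610617)]) FT.nil))))))))) (FT.cons (FT.cons (FT.leaf [(nat_lit 5677500), (nat_lit 5839085), (nat_lit 6004811), (nat_lit 6173529), (nat_lit 6344352), (nat_lit 6516579), (nat_lit 6689647), (nat_lit 6863095), (nat_lit 7036545), (nat_lit 7209685), (nat_lit 7382254)]) (FT.cons (FT.leaf [(nat_lit 5978010), (nat_lit 6143698), (nat_lit 6312080), (nat_lit 6482325), (nat_lit 6653774), (nat_lit 6825898), (nat_lit 6998267), (nat_lit 7170529), (nat_lit 7342391), (nat_lit
 7513614)]) (FT.cons (FT.leaf [(nat_lit 6281806), (nat_lit 6449727), (nat_lit 6619292), (nat_lit 6789881), (nat_lit 6960999), (nat_lit 7132241), (nat_lit 7303278), (nat_lit 7473838), (nat_lit 7643694)]) (FT.cons (FT.leaf [(nat_lit 6586413), (nat_lit 6755211), (nat_lit 6924872), (nat_lit 7094929), (nat_lit 7265003), (nat_lit 7434785), (nat_lit 7604020)]) (FT.cons (FT.leaf [(nat_lit 6890048), (nat_lit 7058721), (nat_lit 7227672), (nat_lit 7396544), (nat_lit 7565047)]) (FT.cons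 (FT.leaf [(nat_lit 7191410), (nat_lit 7359216), (nat_lit 7526858), (nat_lit 7694062)]) (FT.cons (FT.leaf [(nat_lit 7489554), (nat_lit 7655943)]) (FT.cons (FT.leaf [(nat_lit 7783797)]) FT.nil)))))))) (FT.cons (FT.cons (FT.leaf [(nat_lit 6170537), (nat_lit 6334855), (nat_lit 6501655), (nat_lit 6670140), (nat_lit 6839686), (nat_lit 7009792), (nat_lit 7180053), (nat_lit 7350138)]) (FT.cons (FT.leaf [(nat_lit 6471311), (nat_lit 6637562), (nat_lit 6805301), (nat_lit 6973938), (nat_lit 7143004), (nat_lit 7312116), (nat_lit 7480964)]) (FT.cons (FT.leaf [(nat_lit 6772477), (nat_lit 6939394), (nat_lit 7107063), (nat_lit 7275042), (nat_lit 7442971)]) (FT.cons (FT.leaf [(nat_lit 7072391), (nat_lit 7239042), (nat_lit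
 7405895), (nat_lit 7572614)]) (FT.cons (FT.leaf [(nat_lit 7369860), (nat_lit 7535556)]) (FT.cons (FT.leaf [(nat_lit 7664020)]) FT.nil)))))) (FT.cons (FT.cons (FT.leaf [(nat_lit 6658069), (nat_lit 6822601), (nat_lit 6988484), (nat_lit 7155156), (nat_lit 7322168), (nat_lit 7489162)]) (FT.cons (FT.leaf [(nat_lit 6955741), (nat_lit 7120757), (nat_lit 7286430), (nat_lit 7452337), (nat_lit 7618138)]) (FT.cons (FT.leaf [(nat_lit 7251927), (nat_lit 7416558), (nat_lit 7581327), (nat_lit 7745913)]) (FT.cons (FT.leaf [(nat_lit 7545530), (nat_lit 7709134)]) (FT.cons (FT.leaf [(nat_lit 7835755)]) FT.nil))))) (FT.cons (FT.cons (FT.leaf [(nat_lit 7136236), (nat_lit 7299342), (nat_lit 7463021), (nat_lit 7626870), (nat_lit 7790562)]) (FT.cons (FT.leaf [(nat_lit 7428702), (nat_lit 7591323), (nat_lit 7754025), (nat_lit 7916503)]) (FT.cons (FT.leaf [(nat_lit 7718474), (nat_lit 7880008)]) FT.nil))) (FT.cons (FT.cons (FT.leaf [(nat_lit 7602765)]) (FT.cons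 (FT.leaf [(nat_lit 7888749)]) FT.nil)) (FT.cons (FT.cons (FT.leaf [(nat_lit 8056415)]) FT.nil) (FT.cons (FT.cons (FT.leaf [(nat_lit 8496609)]) FT.nil) FT.nil))))))))) (FT.cons (FT.cons (FT.cons (FT.leaf [(nat_lit 5526123), (nat_lit 5678437), (nat_lit
 5836949), (nat_lit 6000020), (nat_lit 6166430), (nat_lit 6335240), (nat_lit 6505705), (nat_lit 6677225), (nat_lit 6849313), (nat_lit 7021567), (nat_lit 7193653), (nat_lit 7365296), (nat_lit 7536265)]) (FT.cons (FT.leaf [(nat_lit 5815239), (nat_lit 5974330), (nat_lit 6137575), (nat_lit 6303830), (nat_lit 6472214), (nat_lit 6642032), (nat_lit 6812723), (nat_lit 6983831), (nat_lit 7154982), (nat_lit 7325868), (nat_lit 7496230), (nat_lit 7665855)]) (FT.cons (FT.leaf [(nat_lit 6111227), (nat_lit 6274468), (nat_lit 6440423), (nat_lit 6608266), (nat_lit 6777344), (nat_lit 6947133), (nat_lit 7117205), (nat_lit 7287212), (nat_lit 7456864), (nat_lit 7625922)]) (FT.cons (FT.leaf [(nat_lit 6410613),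 (nat_lit 6576145), (nat_lit 6743347), (nat_lit 6911606), (nat_lit 7080430), (nat_lit 7249418), (nat_lit 7418243), (nat_lit 7586635), (nat_lit 7754372)]) (FT.cons (FT.leaf [(nat_lit 6710941), (nat_lit 6877415), (nat_lit 7044787), (nat_lit 7212592), (nat_lit 7380455), (nat_lit 7548069), (nat_lit 7715181)]) (FT.cons (FT.leaf [(nat_lit 7010437), (nat_lit 7176863), (nat_lit 7343604), (nat_lit 7510308), (nat_lit 7676686)]) (FT.cons (FT.leaf [(nat_lit 7307814), (nat_lit 7473453), (nat_lit 7638970),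
 (nat_lit 7804091)]) (FT.cons (FT.leaf [(nat_lit 7602132), (nat_lit 7766437)]) (FT.cons (FT.leaf [(nat_lit 7892710)]) FT.nil))))))))) (FT.cons (FT.cons (FT.leaf [(nat_lit 6007289), (nat_lit 6165483), (nat_lit 6327544), (nat_lit 6492376), (nat_lit 6659140), (nat_lit 6827177), (nat_lit 6995957), (nat_lit 7165053), (nat_lit 7334111), (nat_lit 7502840), (nat_lit 7671000)]) (FT.cons (FT.leaf [(nat_lit 6300965), (nat_lit 6462892), (nat_lit 6627323), (nat_lit 6793467), (nat_lit 6960706), (nat_lit 7128540), (nat_lit 7296569), (nat_lit 7464464), (nat_lit 7631952), (nat_lit 7798809)]) (FT.cons (FT.leaf [(nat_lit 6597437), (nat_lit 6761358), (nat_lit 6926796), (nat_lit 7093166), (nat_lit 7260002), (nat_lit 7426924), (nat_lit 7593626), (nat_lit 7759852), (nat_lit 7925391)]) (FT.cons (FT.leaf [(nat_lit 6894436), (nat_lit 7059092), (nat_lit 7224535), (nat_lit 7390326), (nat_lit 7556109), (nat_lit 7721592), (nat_lit 7886538)]) (FT.cons (FT.leaf [(nat_lit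 7190328), (nat_lit 7354794), (nat_lit 7519502), (nat_lit 7684116), (nat_lit 7848361)]) (FT.cons (FT.leaf [(nat_lit 7483928), (nat_lit 7647521), (nat_lit 7810942), (nat_lit 7973934)]) (FT.cons (FT.leaf [(nat_lit 7774377), (nat_lit 7936587)])
 (FT.cons (FT.leaf [(nat_lit 8061053)]) FT.nil)))))))) (FT.cons (FT.cons (FT.leaf [(nat_lit 6488147), (nat_lit 6648675), (nat_lit 6811520), (nat_lit 6975924), (nat_lit 7141297), (nat_lit 7307169), (nat_lit 7473159), (nat_lit 7638954)]) (FT.cons (FT.leaf [(nat_lit 6781593), (nat_lit 6943855), (nat_lit 7107499), (nat_lit 7271966), (nat_lit 7436812), (nat_lit 7601680), (nat_lit 7766276)]) (FT.cons (FT.leaf [(nat_lit 7075210), (nat_lit 7238028), (nat_lit 7401538), (nat_lit 7565321), (nat_lit 7729037)]) (FT.cons (FT.leaf [(nat_lit 7367490), (nat_lit 7529999), (nat_lit 7692685), (nat_lit 7855228)]) (FT.cons (FT.leaf [(nat_lit 7657339), (nat_lit 7818901)]) (FT.cons (FT.leaf [(nat_lit 7943965)]) FT.nil))))))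 (FT.cons (FT.cons (FT.leaf [(nat_lit 6963089), (nat_lit 7123659), (nat_lit 7285490), (nat_lit 7448048), (nat_lit 7610912), (nat_lit 7773738)]) (FT.cons (FT.leaf [(nat_lit 7253294), (nat_lit 7414264), (nat_lit 7575842), (nat_lit 7737627), (nat_lit 7899298)]) (FT.cons (FT.leaf [(nat_lit 7541967), (nat_lit 7702527), (nat_lit 7863207), (nat_lit 8023704)]) (FT.cons (FT.leaf [(nat_lit 7828097), (nat_lit 7987650)]) (FT.cons (FT.leaf [(nat_lit 8110955)]) FT.nil))))) (FT.cons (FT.cons (FT.leaf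
 [(nat_lit 7428723), (nat_lit 7587842), (nat_lit 7747495), (nat_lit 7907300), (nat_lit 8066948)]) (FT.cons (FT.leaf [(nat_lit 7713807), (nat_lit 7872431), (nat_lit 8031125), (nat_lit 8189601)]) (FT.cons (FT.leaf [(nat_lit 7996259), (nat_lit 8153826)]) FT.nil))) (FT.cons (FT.cons (FT.leaf [(nat_lit 7883059)]) (FT.cons (FT.leaf [(nat_lit 8161879)]) FT.nil)) (FT.cons (FT.cons (FT.leaf [(nat_lit 8325014)]) FT.nil) (FT.cons (FT.cons (FT.leaf [(nat_lit 8754094)]) FT.nil) FT.nil)))))))) (FT.cons (FT.cons (FT.cons (FT.leaf [(nat_lit 6326958), (nat_lit 6481786), (nat_lit 6640245), (nat_lit 6801288), (nat_lit 6964118), (nat_lit 7128113), (nat_lit 7292774), (nat_lit 7457699), (nat_lit 7622558), (nat_lit 7787081)]) (FT.cons (FT.leaf [(nat_lit 6613914), (nat_lit 6772168), (nat_lit 6932762), (nat_lit 7094946), (nat_lit 7258133), (nat_lit 7421855), (nat_lit 7585734), (nat_lit 7749459), (nat_lit 7912778)]) (FT.cons (FT.leaf [(nat_lit 6903275), (nat_lit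 7063327), (nat_lit 7224790), (nat_lit 7387110), (nat_lit 7549848), (nat_lit 7712645), (nat_lit 7875212)]) (FT.cons (FT.leaf [(nat_lit 7192945), (nat_lit 7353622), (nat_lit 7515026), (nat_lit 7676739), (nat_lit 7838426)]) (FT.cons (FT.leaf [(nat_lit
 7481421), (nat_lit 7641864), (nat_lit 7802521), (nat_lit 7963075)]) (FT.cons (FT.leaf [(nat_lit 7767615), (nat_lit 7927188)]) (FT.cons (FT.leaf [(nat_lit 8050737)]) FT.nil))))))) (FT.cons (FT.cons (FT.leaf [(nat_lit 6795957), (nat_lit 6952803), (nat_lit 7111823), (nat_lit 7272299), (nat_lit 7433668), (nat_lit 7595487), (nat_lit 7757394), (nat_lit 7919099)]) (FT.cons (FT.leaf [(nat_lit 7082318), (nat_lit 7240736), (nat_lit 7400446), (nat_lit 7560918), (nat_lit 7721732), (nat_lit 7882548), (nat_lit 8043091)]) (FT.cons (FT.leaf [(nat_lit 7368685), (nat_lit 7527573), (nat_lit 7687104), (nat_lit 7846880), (nat_lit 8006581)]) (FT.cons (FT.leaf [(nat_lit 7653664), (nat_lit 7812217), (nat_lit 7970927),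 (nat_lit 8129492)]) (FT.cons (FT.leaf [(nat_lit 7936247), (nat_lit 8093869)]) (FT.cons (FT.leaf [(nat_lit 8215705)]) FT.nil)))))) (FT.cons (FT.cons (FT.leaf [(nat_lit 7258795), (nat_lit 7415556), (nat_lit 7573502), (nat_lit 7732126), (nat_lit 7891026), (nat_lit 8049879)]) (FT.cons (FT.leaf [(nat_lit 7541843), (nat_lit 7698940), (nat_lit 7856605), (nat_lit 8014458), (nat_lit 8172193)]) (FT.cons (FT.leaf [(nat_lit 7823341), (nat_lit 7980015), (nat_lit 8136798), (nat_lit 8293399)]) (FT.cons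
 (FT.leaf [(nat_lit 8102351), (nat_lit 8258044)]) (FT.cons (FT.leaf [(nat_lit 8378198)]) FT.nil))))) (FT.cons (FT.cons (FT.leaf [(nat_lit 7712459), (nat_lit 7867766), (nat_lit 8023577)]) (FT.cons (FT.leaf [(nat_lit 7990500), (nat_lit 8145310)]) (FT.cons (FT.leaf [(nat_lit 8265980)]) FT.nil))) (FT.cons (FT.cons (FT.leaf [(nat_lit 8155189)]) (FT.cons (FT.leaf [(nat_lit 8427188)]) FT.nil)) (FT.cons (FT.cons (FT.leaf [(nat_lit 8586027)]) FT.nil) FT.nil)))))) (FT.cons (FT.cons (FT.cons (FT.leaf [(nat_lit 7094465), (nat_lit 7247743), (nat_lit 7403077), (nat_lit 7559776), (nat_lit 7717307), (nat_lit 7875248), (nat_lit 8033259), (nat_lit 8191062)]) (FT.cons (FT.leaf [(nat_lit 7373993), (nat_lit 7528713), (nat_lit 7684650), (nat_lit 7841298), (nat_lit 7998258), (nat_lit 8155209), (nat_lit 8311889)]) (FT.cons (FT.leaf [(nat_lit 7653408), (nat_lit 7808533), (nat_lit 7964260), (nat_lit 8120210), (nat_lit 8276081)]) (FT.cons (FT.leaf [(nat_lit 7931410),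 (nat_lit 8086184), (nat_lit 8241101), (nat_lit 8395875)]) (FT.cons (FT.leaf [(nat_lit 8207066), (nat_lit 8360930)]) (FT.cons (FT.leaf [(nat_lit 8479697)]) FT.nil)))))) (FT.cons (FT.cons (FT.leaf [(nat_lit 7545687), (nat_lit 7698791), (nat_lit
 7853017), (nat_lit 8007879), (nat_lit 8162995), (nat_lit 8318059)]) (FT.cons (FT.leaf [(nat_lit 7821884), (nat_lit 7975275), (nat_lit 8129202), (nat_lit 8283303), (nat_lit 8437287)]) (FT.cons (FT.leaf [(nat_lit 8096530), (nat_lit 8249495), (nat_lit 8402560), (nat_lit 8555451)]) (FT.cons (FT.leaf [(nat_lit 8368754), (nat_lit 8520768)]) (FT.cons (FT.leaf [(nat_lit 8637928)]) FT.nil))))) (FT.cons (FT.cons (FT.leaf [(nat_lit 7987927), (nat_lit 8139590), (nat_lit 8291731)]) (FT.cons (FT.leaf [(nat_lit 8259246), (nat_lit 8410419)]) (FT.cons (FT.leaf [(nat_lit 8528083)]) FT.nil))) (FT.cons (FT.cons (FT.leaf [(nat_lit 8419604)]) (FT.cons (FT.leaf [(nat_lit 8685104)]) FT.nil)) (FT.cons (FT.cons (FT.leaf [(nat_lit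 8839868)]) FT.nil) FT.nil))))) (FT.cons (FT.cons (FT.cons (FT.leaf [(nat_lit 7824243), (nat_lit 7973835), (nat_lit 8124497), (nat_lit 8275762), (nat_lit 8427265)]) (FT.cons (FT.leaf [(nat_lit 8093878), (nat_lit 8243723), (nat_lit 8394080), (nat_lit 8544600)]) (FT.cons (FT.leaf [(nat_lit 8361983), (nat_lit 8511405)]) (FT.cons (FT.leaf [(nat_lit 8627737)]) FT.nil)))) (FT.cons (FT.cons (FT.leaf [(nat_lit 8255573), (nat_lit 8403753), (nat_lit 8552390)]) (FT.cons (FT.leaf [(nat_lit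
 8520477), (nat_lit 8668178)]) (FT.cons (FT.leaf [(nat_lit 8782983)]) FT.nil))) (FT.cons (FT.cons (FT.leaf [(nat_lit 8676723)]) (FT.cons (FT.leaf [(nat_lit 8936028)]) FT.nil)) FT.nil))) (FT.cons (FT.cons (FT.cons (FT.leaf [(nat_lit 8515817)]) FT.nil) (FT.cons (FT.cons (FT.leaf [(nat_lit 8926932)]) FT.nil) FT.nil)) (FT.cons (FT.cons (FT.cons (FT.leaf [(nat_lit 9170590)]) FT.nil) FT.nil) (FT.cons (FT.cons (FT.cons (FT.leaf [(nat_lit 9790754)]) FT.nil) FT.nil) (FT.cons (FT.cons (FT.cons (FT.leaf [(nat_lit 10378788)]) FT.nil) FT.nil) FT.nil))))))))) (FT.cons (FT.cons (FT.cons (FT.cons (FT.leaf [(nat_lit 6442229), (nat_lit 6581346), (nat_lit 6726123), (nat_lit 6875095), (nat_lit 7027177), (nat_lit 7181538), (nat_lit 7337521), (nat_lit 7494598), (nat_lit 7652337), (nat_lit 7810383), (nat_lit 7968441)]) (FT.cons (FT.leaf [(nat_lit 6705838), (nat_lit 6851192), (nat_lit 7000393), (nat_lit 7152423), (nat_lit 7306501), (nat_lit 7462010), (nat_lit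 7618456), (nat_lit 7775434), (nat_lit 7932613), (nat_lit 8089713)]) (FT.cons (FT.leaf [(nat_lit 6975895), (nat_lit 7125176), (nat_lit 7277032), (nat_lit 7430729), (nat_lit 7585686), (nat_lit 7741437), (nat_lit 7897604), (nat_lit 8053875), (nat_lit
 8209990)]) (FT.cons (FT.leaf [(nat_lit 7249373), (nat_lit 7400950), (nat_lit 7554180), (nat_lit 7708516), (nat_lit 7863519), (nat_lit 8018832), (nat_lit 8174162)]) (FT.cons (FT.leaf [(nat_lit 7524131), (nat_lit 7676819), (nat_lit 7830473), (nat_lit 7984680), (nat_lit 8139102)]) (FT.cons (FT.leaf [(nat_lit 7798616), (nat_lit 7951538), (nat_lit 8104906), (nat_lit 8258404)]) (FT.cons (FT.leaf [(nat_lit 8071689), (nat_lit 8224185)]) (FT.cons (FT.leaf [(nat_lit 8342505)]) (FT.cons (FT.leaf [(nat_lit 8610443)]) FT.nil))))))))) (FT.cons (FT.cons (FT.leaf [(nat_lit 6880054), (nat_lit 7024728), (nat_lit 7173006), (nat_lit 7323913), (nat_lit 7476701), (nat_lit 7630784), (nat_lit 7785690), (nat_lit 7941038),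 (nat_lit 8096513), (nat_lit 8251855)]) (FT.cons (FT.leaf [(nat_lit 7148292), (nat_lit 7296543), (nat_lit 7447190), (nat_lit 7599529), (nat_lit 7753007), (nat_lit 7907180), (nat_lit 8061689), (nat_lit 8216238), (nat_lit 8370582)]) (FT.cons (FT.leaf [(nat_lit 7419446), (nat_lit 7569741), (nat_lit 7721556), (nat_lit 7874368), (nat_lit 8027760), (nat_lit 8181393), (nat_lit 8334987)]) (FT.cons (FT.leaf [(nat_lit 7691526), (nat_lit 7842751), (nat_lit 7994847), (nat_lit 8147416), (nat_lit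
 8300140)]) (FT.cons (FT.leaf [(nat_lit 7963090), (nat_lit 8114423), (nat_lit 8266135), (nat_lit 8417922)]) (FT.cons (FT.leaf [(nat_lit 8233083), (nat_lit 8383906)]) (FT.cons (FT.leaf [(nat_lit 8500724)]) (FT.cons (FT.leaf [(nat_lit 8765439)]) FT.nil)))))))) (FT.cons (FT.cons (FT.leaf [(nat_lit 7318613), (nat_lit 7465762), (nat_lit 7615147), (nat_lit 7766091), (nat_lit 7918064), (nat_lit 8070646), (nat_lit 8223493), (nat_lit 8376325)]) (FT.cons (FT.leaf [(nat_lit 7587347), (nat_lit 7736317), (nat_lit 7886688), (nat_lit 8037961), (nat_lit 8189735), (nat_lit 8341688), (nat_lit 8493555)]) (FT.cons (FT.leaf [(nat_lit 7856699), (nat_lit 8006440), (nat_lit 8156966), (nat_lit 8307898), (nat_lit 8458930)]) (FT.cons (FT.leaf [(nat_lit 8125327), (nat_lit 8275066), (nat_lit 8425124), (nat_lit 8575211)]) (FT.cons (FT.leaf [(nat_lit 8392249), (nat_lit 8541407)]) (FT.cons (FT.leaf [(nat_lit 8656742)]) FT.nil)))))) (FT.cons (FT.cons (FT.leaf [(nat_lit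 7753079), (nat_lit 7900691), (nat_lit 8049598), (nat_lit 8199321), (nat_lit 8349477), (nat_lit 8499757)]) (FT.cons (FT.leaf [(nat_lit 8019668), (nat_lit 8167912), (nat_lit 8316864), (nat_lit 8466161), (nat_lit 8615511)]) (FT.cons (FT.leaf [(nat_lit
 8285355), (nat_lit 8433501), (nat_lit 8581913), (nat_lit 8730313)]) (FT.cons (FT.leaf [(nat_lit 8549223), (nat_lit 8696728)]) (FT.cons (FT.leaf [(nat_lit 8810601)]) FT.nil))))) (FT.cons (FT.cons (FT.leaf [(nat_lit 8180458), (nat_lit 8327196), (nat_lit 8474574)]) (FT.cons (FT.leaf [(nat_lit 8443207), (nat_lit 8589765)]) (FT.cons (FT.leaf [(nat_lit 8704044)]) FT.nil))) (FT.cons (FT.cons (FT.leaf [(nat_lit 8598917)]) (FT.cons (FT.leaf [(nat_lit 8856750)]) FT.nil)) (FT.cons (FT.cons (FT.leaf [(nat_lit 9007383)]) FT.nil) FT.nil))))))) (FT.cons (FT.cons (FT.cons (FT.leaf [(nat_lit 7169063), (nat_lit 7311019), (nat_lit 7456384), (nat_lit 7604218), (nat_lit 7753808), (nat_lit 7904595), (nat_lit 8056135),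 (nat_lit 8208067), (nat_lit 8360091), (nat_lit 8511964)]) (FT.cons (FT.leaf [(nat_lit 7431861), (nat_lit 7577135), (nat_lit 7724666), (nat_lit 7873780), (nat_lit 8023949), (nat_lit 8174754), (nat_lit 8325853), (nat_lit 8476968), (nat_lit 8627867)]) (FT.cons (FT.leaf [(nat_lit 7697240), (nat_lit 7844385), (nat_lit 7992957), (nat_lit 8142455), (nat_lit 8292483), (nat_lit 8442719), (nat_lit 8592900)]) (FT.cons (FT.leaf [(nat_lit 7963343), (nat_lit 8111314), (nat_lit 8260096), (nat_lit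
 8409311), (nat_lit 8558656)]) (FT.cons (FT.leaf [(nat_lit 8228832), (nat_lit 8376857), (nat_lit 8525229), (nat_lit 8673659)]) (FT.cons (FT.leaf [(nat_lit 8492726), (nat_lit 8640228)]) (FT.cons (FT.leaf [(nat_lit 8754304)]) FT.nil))))))) (FT.cons (FT.cons (FT.leaf [(nat_lit 7598007), (nat_lit 7742165), (nat_lit 7888434), (nat_lit 8036169), (nat_lit 8184863), (nat_lit 8334114), (nat_lit 8483599), (nat_lit 8633050)]) (FT.cons (FT.leaf [(nat_lit 7860972), (nat_lit 8006804), (nat_lit 8153955), (nat_lit 8301948), (nat_lit 8450402), (nat_lit 8599010), (nat_lit 8747520)]) (FT.cons (FT.leaf [(nat_lit 8124394), (nat_lit 8270912), (nat_lit 8418164), (nat_lit 8565789), (nat_lit 8713497)]) (FT.cons (FT.leaf [(nat_lit 8387023), (nat_lit 8533499), (nat_lit 8680269), (nat_lit 8827056)]) (FT.cons (FT.leaf [(nat_lit 8647944), (nat_lit 8793835)]) (FT.cons (FT.leaf [(nat_lit 8906485)]) FT.nil)))))) (FT.cons (FT.cons (FT.leaf [(nat_lit 8022600), (nat_lit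 8167093), (nat_lit 8312811), (nat_lit 8459293), (nat_lit 8606176), (nat_lit 8753164)]) (FT.cons (FT.leaf [(nat_lit 8283319), (nat_lit 8428375), (nat_lit 8574097), (nat_lit 8720139), (nat_lit 8866221)]) (FT.cons (FT.leaf [(nat_lit 8543090), (nat_lit
 8688021), (nat_lit 8833199), (nat_lit 8978357)]) (FT.cons (FT.leaf [(nat_lit 8801058), (nat_lit 8945352)]) (FT.cons (FT.leaf [(nat_lit 9056597)]) FT.nil))))) (FT.cons (FT.cons (FT.leaf [(nat_lit 8440143), (nat_lit 8583734), (nat_lit 8727930)]) (FT.cons (FT.leaf [(nat_lit 8697066), (nat_lit 8840460)]) (FT.cons (FT.leaf [(nat_lit 8952108)]) FT.nil))) (FT.cons (FT.cons (FT.leaf [(nat_lit 8848987)]) (FT.cons (FT.leaf [(nat_lit 9101132)]) FT.nil)) (FT.cons (FT.cons (FT.leaf [(nat_lit 9248171)]) FT.nil) FT.nil)))))) (FT.cons (FT.cons (FT.cons (FT.leaf [(nat_lit 7869843), (nat_lit 8011086), (nat_lit 8154335), (nat_lit 8298966), (nat_lit 8444498), (nat_lit 8590544), (nat_lit 8736797), (nat_lit 8883006)])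 (FT.cons (FT.leaf [(nat_lit 8127213), (nat_lit 8270008), (nat_lit 8414052), (nat_lit 8558887), (nat_lit 8704149), (nat_lit 8849545), (nat_lit 8994837)]) (FT.cons (FT.leaf [(nat_lit 8384915), (nat_lit 8528327), (nat_lit 8672430), (nat_lit 8816879), (nat_lit 8961398)]) (FT.cons (FT.leaf [(nat_lit 8641775), (nat_lit 8785116), (nat_lit 8928730), (nat_lit 9072353)]) (FT.cons (FT.leaf [(nat_lit 8896940), (nat_lit 9039698)]) (FT.cons (FT.leaf [(nat_lit 9149780)]) FT.nil)))))) (FT.cons (FT.cons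
 (FT.leaf [(nat_lit 8284907), (nat_lit 8426388), (nat_lit 8569032), (nat_lit 8712397), (nat_lit 8856135), (nat_lit 8999966)]) (FT.cons (FT.leaf [(nat_lit 8539971), (nat_lit 8681959), (nat_lit 8824577), (nat_lit 8967494), (nat_lit 9110442)]) (FT.cons (FT.leaf [(nat_lit 8794060), (nat_lit 8935904), (nat_lit 9077978), (nat_lit 9220030)]) (FT.cons (FT.leaf [(nat_lit 9046372), (nat_lit 9187588)]) (FT.cons (FT.leaf [(nat_lit 9296320)]) FT.nil))))) (FT.cons (FT.cons (FT.leaf [(nat_lit 8693005), (nat_lit 8833569), (nat_lit 8974709)]) (FT.cons (FT.leaf [(nat_lit 8944336), (nat_lit 9084693)]) (FT.cons (FT.leaf [(nat_lit 9193824)]) FT.nil))) (FT.cons (FT.cons (FT.leaf [(nat_lit 9092640)]) (FT.cons (FT.leaf [(nat_lit 9339335)]) FT.nil)) (FT.cons (FT.cons (FT.leaf [(nat_lit 9482941)]) FT.nil) FT.nil))))) (FT.cons (FT.cons (FT.cons (FT.leaf [(nat_lit 8540343), (nat_lit 8678918), (nat_lit 8818601), (nat_lit 8958969), (nat_lit 9099687)]) (FT.cons (FT.leaf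 [(nat_lit 8789964), (nat_lit 8929000), (nat_lit 9068635), (nat_lit 9208552)]) (FT.cons (FT.leaf [(nat_lit 9038596), (nat_lit 9177475)]) (FT.cons (FT.leaf [(nat_lit 9285483)]) FT.nil)))) (FT.cons (FT.cons (FT.leaf [(nat_lit 8939374), (nat_lit
 9077028), (nat_lit 9215231)]) (FT.cons (FT.leaf [(nat_lit 9185338), (nat_lit 9322778)]) (FT.cons (FT.leaf [(nat_lit 9429501)]) FT.nil))) (FT.cons (FT.cons (FT.leaf [(nat_lit 9330186)]) (FT.cons (FT.leaf [(nat_lit 9571656)]) FT.nil)) FT.nil))) (FT.cons (FT.cons (FT.cons (FT.leaf [(nat_lit 9179560)]) FT.nil) (FT.cons (FT.cons (FT.leaf [(nat_lit 9561917)]) FT.nil) FT.nil)) (FT.cons (FT.cons (FT.cons (FT.leaf [(nat_lit 9788104)]) FT.nil) FT.nil) (FT.cons (FT.cons (FT.cons (FT.leaf [(nat_lit 10367374)]) FT.nil) FT.nil) (FT.cons (FT.cons (FT.cons (FT.leaf [(nat_lit 10919110)]) FT.nil) FT.nil) FT.nil)))))))) (FT.cons (FT.cons (FT.cons (FT.cons (FT.leaf [(nat_lit 7928083), (nat_lit 8059567), (nat_lit 8194265),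 (nat_lit 8331313), (nat_lit 8470063), (nat_lit 8610010), (nat_lit 8750751), (nat_lit 8891958), (nat_lit 9033361), (nat_lit 9174737)]) (FT.cons (FT.leaf [(nat_lit 8171230), (nat_lit 8305909), (nat_lit 8442749), (nat_lit 8581139), (nat_lit 8720599), (nat_lit 8860749), (nat_lit 9001278), (nat_lit 9141932), (nat_lit 9282501)]) (FT.cons (FT.leaf [(nat_lit 8417025), (nat_lit 8553586), (nat_lit 8691556), (nat_lit 8830483), (nat_lit 8970003), (nat_lit 9109825), (nat_lit 9249707)]) (FT.cons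
 (FT.leaf [(nat_lit 8663791), (nat_lit 8801291), (nat_lit 8939643), (nat_lit 9078502), (nat_lit 9217591)]) (FT.cons (FT.leaf [(nat_lit 8910326), (nat_lit 9048066), (nat_lit 9186235), (nat_lit 9324568)]) (FT.cons (FT.leaf [(nat_lit 9155741), (nat_lit 9293194)]) (FT.cons (FT.leaf [(nat_lit 9399375)]) FT.nil))))))) (FT.cons (FT.cons (FT.leaf [(nat_lit 8324443), (nat_lit 8458210), (nat_lit 8594011), (nat_lit 8731258), (nat_lit 8869490), (nat_lit 9008340), (nat_lit 9147514), (nat_lit 9286767)]) (FT.cons (FT.leaf [(nat_lit 8568241), (nat_lit 8703716), (nat_lit 8840506), (nat_lit 8978176), (nat_lit 9116378), (nat_lit 9254830), (nat_lit 9393304)]) (FT.cons (FT.leaf [(nat_lit 8812774), (nat_lit 8949063), (nat_lit 9086135), (nat_lit 9223658), (nat_lit 9361367)]) (FT.cons (FT.leaf [(nat_lit 9056912), (nat_lit 9193353), (nat_lit 9330173), (nat_lit 9467119)]) (FT.cons (FT.leaf [(nat_lit 9299822), (nat_lit 9435917)]) (FT.cons (FT.leaf [(nat_lit 9540886)])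 FT.nil)))))) (FT.cons (FT.cons (FT.leaf [(nat_lit 8717689), (nat_lit 8852054), (nat_lit 8987650), (nat_lit 9124055), (nat_lit 9260936)]) (FT.cons (FT.leaf [(nat_lit 8959964), (nat_lit 9095032), (nat_lit 9230820), (nat_lit 9367009)]) (FT.cons
 (FT.leaf [(nat_lit 9201702), (nat_lit 9336843)]) (FT.cons (FT.leaf [(nat_lit 9442119)]) (FT.cons (FT.leaf [(nat_lit 9680634)]) FT.nil))))) (FT.cons (FT.cons (FT.leaf [(nat_lit 9105381), (nat_lit 9239219), (nat_lit 9373723)]) (FT.cons (FT.leaf [(nat_lit 9344719), (nat_lit 9478563)]) (FT.cons (FT.leaf [(nat_lit 9582658)]) FT.nil))) (FT.cons (FT.cons (FT.leaf [(nat_lit 9485990)]) (FT.cons (FT.leaf [(nat_lit 9721468)]) FT.nil)) (FT.cons (FT.cons (FT.leaf [(nat_lit 9858582)]) FT.nil) FT.nil)))))) (FT.cons (FT.cons (FT.cons (FT.leaf [(nat_lit 8574563), (nat_lit 8705891), (nat_lit 8839158), (nat_lit 8973794), (nat_lit 9109359), (nat_lit 9245502)]) (FT.cons (FT.leaf [(nat_lit 8813669), (nat_lit 8946591),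 (nat_lit 9080764), (nat_lit 9215766), (nat_lit 9351266)]) (FT.cons (FT.leaf [(nat_lit 9053386), (nat_lit 9187053), (nat_lit 9321460), (nat_lit 9456291)]) (FT.cons (FT.leaf [(nat_lit 9292649), (nat_lit 9426433)]) (FT.cons (FT.leaf [(nat_lit 9530675)]) (FT.cons (FT.leaf [(nat_lit 9766883)]) FT.nil)))))) (FT.cons (FT.cons (FT.leaf [(nat_lit 8959806), (nat_lit 9091633), (nat_lit 9224632), (nat_lit 9358399), (nat_lit 9492612)]) (FT.cons (FT.leaf [(nat_lit 9197309), (nat_lit 9329780), (nat_lit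
 9462936), (nat_lit 9596469)]) (FT.cons (FT.leaf [(nat_lit 9434233), (nat_lit 9566751)]) (FT.cons (FT.leaf [(nat_lit 9669839)]) (FT.cons (FT.leaf [(nat_lit 9903581)]) FT.nil))))) (FT.cons (FT.cons (FT.leaf [(nat_lit 9339517), (nat_lit 9470789), (nat_lit 9602694)]) (FT.cons (FT.leaf [(nat_lit 9574106), (nat_lit 9705365)]) (FT.cons (FT.leaf [(nat_lit 9807310)]) FT.nil))) (FT.cons (FT.cons (FT.leaf [(nat_lit 9712297)]) (FT.cons (FT.leaf [(nat_lit 9943117)]) FT.nil)) (FT.cons (FT.cons (FT.leaf [(nat_lit 10077289)]) FT.nil) FT.nil))))) (FT.cons (FT.cons (FT.cons (FT.leaf [(nat_lit 9196137), (nat_lit 9325505), (nat_lit 9455992), (nat_lit 9587210)]) (FT.cons (FT.leaf [(nat_lit 9429026), (nat_lit 9558989), (nat_lit 9689603)]) (FT.cons (FT.leaf [(nat_lit 9661305)]) FT.nil))) (FT.cons (FT.cons (FT.leaf [(nat_lit 9568152), (nat_lit 9696945)]) (FT.cons (FT.leaf [(nat_lit 9798163)]) FT.nil)) (FT.cons (FT.cons (FT.leaf [(nat_lit 9933397)]) FT.nil) FT.nil)))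 (FT.cons (FT.cons (FT.cons (FT.leaf [(nat_lit 9791525)]) FT.nil) (FT.cons (FT.cons (FT.leaf [(nat_lit 10149517)]) FT.nil) FT.nil)) (FT.cons (FT.cons (FT.cons (FT.leaf [(nat_lit 10360872)]) FT.nil) FT.nil) (FT.cons (FT.cons (FT.cons (FT.leaf
 [(nat_lit 10905060)]) FT.nil) FT.nil) FT.nil)))))) (FT.cons (FT.cons (FT.cons (FT.cons (FT.leaf [(nat_lit 9221550), (nat_lit 9344525), (nat_lit 9469367), (nat_lit 9595551), (nat_lit 9722672), (nat_lit 9850405)]) (FT.cons (FT.leaf [(nat_lit 9445266), (nat_lit 9569843), (nat_lit 9695654), (nat_lit 9822311), (nat_lit 9949508)]) (FT.cons (FT.leaf [(nat_lit 9669777), (nat_lit 9795177), (nat_lit 9921340), (nat_lit 10047976)]) (FT.cons (FT.leaf [(nat_lit 9894105), (nat_lit 10019749)]) FT.nil)))) (FT.cons (FT.cons (FT.leaf [(nat_lit 9581663), (nat_lit 9705309), (nat_lit 9830119), (nat_lit 9955718), (nat_lit 10081810)]) (FT.cons (FT.leaf [(nat_lit 9804281), (nat_lit 9928658), (nat_lit 10053748), (nat_lit 10179267)])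 (FT.cons (FT.leaf [(nat_lit 10026599), (nat_lit 10151157)]) FT.nil))) (FT.cons (FT.cons (FT.leaf [(nat_lit 9937303), (nat_lit 10060653)]) (FT.cons (FT.leaf [(nat_lit 10157614)]) FT.nil)) (FT.cons (FT.cons (FT.leaf [(nat_lit 10287168)]) FT.nil) FT.nil)))) (FT.cons (FT.cons (FT.cons (FT.leaf [(nat_lit 9801885), (nat_lit 9923413), (nat_lit 10046056), (nat_lit 10169452)]) (FT.cons (FT.leaf [(nat_lit 10020525), (nat_lit 10142734), (nat_lit 10265626)]) (FT.cons (FT.leaf [(nat_lit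
 10238828)]) FT.nil))) (FT.cons (FT.cons (FT.leaf [(nat_lit 10150885), (nat_lit 10272089)]) (FT.cons (FT.leaf [(nat_lit 10367229)]) FT.nil)) (FT.cons (FT.cons (FT.leaf [(nat_lit 10494217)]) FT.nil) FT.nil))) (FT.cons (FT.cons (FT.cons (FT.leaf [(nat_lit 10359919)]) FT.nil) (FT.cons (FT.cons (FT.leaf [(nat_lit 10696942)]) FT.nil) FT.nil)) (FT.cons (FT.cons (FT.cons (FT.leaf [(nat_lit 10895513)]) FT.nil) FT.nil) FT.nil)))) (FT.cons (FT.cons (FT.cons (FT.cons (FT.leaf [(nat_lit 10365331), (nat_lit 10480083), (nat_lit 10595935)]) (FT.cons (FT.leaf [(nat_lit 10571653), (nat_lit 10687141)]) (FT.cons (FT.leaf [(nat_lit 10777837)]) FT.nil))) (FT.cons (FT.cons (FT.leaf [(nat_lit 10694433)]) (FT.cons (FT.leaf [(nat_lit 10898903)]) FT.nil)) (FT.cons (FT.cons (FT.leaf [(nat_lit 11018725)]) FT.nil) FT.nil))) (FT.cons (FT.cons (FT.cons (FT.leaf [(nat_lit 10891065)]) FT.nil) (FT.cons (FT.cons (FT.leaf [(nat_lit 11209803)]) FT.nil) FT.nil)) FT.nil)) (FT.cons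 (FT.cons (FT.cons (FT.cons (FT.leaf [(nat_lit 11389945)]) FT.nil) FT.nil) FT.nil) (FT.cons (FT.cons (FT.cons (FT.cons (FT.leaf [(nat_lit 12317683)]) FT.nil) FT.nil) FT.nil) FT.nil)))))))

def f176_1_770 : FT := (FT.cons (FT.cons (FT.cons (FT.cons (FT.leaf [(nat_lit 4772329), (nat_lit 4913472), (nat_lit 5065001), (nat_lit 5224292), (nat_lit 5389452), (nat_lit 5559046), (nat_lit 5731946), (nat_lit 5907250), (nat_lit 6084224), (nat_lit 6262262), (nat_lit 6440865), (nat_lit 6619615), (nat_lit 6798163), (nat_lit 6976219), (nat_lit 7153539)]) (FT.cons (FT.leaf [(nat_lit 5050838), (nat_lit 5204437), (nat_lit 5365113), (nat_lit 5531101), (nat_lit 5701065), (nat_lit 5873959), (nat_lit 6048944), (nat_lit 6225341), (nat_lit 6402589), (nat_lit 6580225), (nat_lit 6757864), (nat_lit 6935183), (nat_lit 7111915), (nat_lit 7287836)]) (FT.cons (FT.leaf [(nat_lit 5344153), (nat_lit 5505874), (nat_lit 5672416), (nat_lit 5842529), (nat_lit 6015236), (nat_lit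 6189758), (nat_lit 6365461), (nat_lit 6541825), (nat_lit 6718421), (nat_lit 6894892), (nat_lit 7070940), (nat_lit 7246316)]) (FT.cons (FT.leaf [(nat_lit 5646398), (nat_lit 5813257), (nat_lit 5983326), (nat_lit 6155691), (nat_lit 6329623), (nat_lit 6504531), (nat_lit 6679932), (nat_lit 6855426), (nat_lit 7030681), (nat_lit 7205421)]) (FT.cons (FT.leaf [(nat_lit 5953503), (nat_lit 6123362), (nat_lit 6295249), (nat_lit 6468482), (nat_lit 6642509), (nat_lit
 6816878), (nat_lit 6991217), (nat_lit 7165216), (nat_lit 7338620)]) (FT.cons (FT.leaf [(nat_lit 6262556), (nat_lit 6433849), (nat_lit 6606290), (nat_lit 6779361), (nat_lit 6952640), (nat_lit 7125779), (nat_lit 7298489)]) (FT.cons (FT.leaf [(nat_lit 6571440), (nat_lit 6743007), (nat_lit 6915058), (nat_lit 7087197), (nat_lit 7259099)]) (FT.cons (FT.leaf [(nat_lit 6878601), (nat_lit 7049578), (nat_lit 7220536), (nat_lit 7391171)]) (FT.cons (FT.leaf [(nat_lit 7182905), (nat_lit 7352648)])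 (FT.cons (FT.leaf [(nat_lit 7483525)]) FT.nil)))))))))) (FT.cons (FT.cons (FT.leaf [(nat_lit 5249404), (nat_lit 5403215), (nat_lit 5563618), (nat_lit 5728918), (nat_lit 5897844), (nat_lit 6069407), (nat_lit 6242820), (nat_lit 6417444), (nat_lit 6592758), (nat_lit 6768329), (nat_lit 6943801), (nat_lit 7118874), (nat_lit 7293300)]) (FT.cons (FT.leaf [(nat_lit 5542095), (nat_lit 5703280), (nat_lit 5868919), (nat_lit 6037819), (nat_lit 6209057), (nat_lit 6381896), (nat_lit 6555742), (nat_lit 6730109), (nat_lit 6904595), (nat_lit 7078869), (nat_lit 7252653), (nat_lit 7425717)]) (FT.cons (FT.leaf [(nat_lit 5842562), (nat_lit 6008334), (nat_lit 6177042), (nat_lit 6347820), (nat_lit 6519979), (nat_lit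
 6692961), (nat_lit 6866313), (nat_lit 7039662), (nat_lit 7212698), (nat_lit 7385163)]) (FT.cons (FT.leaf [(nat_lit 6147063), (nat_lit 6315436), (nat_lit 6485638), (nat_lit 6657022), (nat_lit 6829065), (nat_lit 7001346), (nat_lit 7173513), (nat_lit 7345279), (nat_lit 7516402)]) (FT.cons (FT.leaf [(nat_lit 6452934), (nat_lit 6622458), (nat_lit 6792986), (nat_lit 6964029), (nat_lit 7135188), (nat_lit 7306137), (nat_lit 7476604)]) (FT.cons (FT.leaf [(nat_lit 6758238), (nat_lit 6927842), (nat_lit 7097830), (nat_lit 7267826), (nat_lit 7437525)]) (FT.cons (FT.leaf [(nat_lit 7061564), (nat_lit 7230450), (nat_lit 7399249), (nat_lit 7567674)]) (FT.cons (FT.leaf [(nat_lit 7361878), (nat_lit 7529452)]) (FT.cons (FT.leaf [(nat_lit 7658431)]) FT.nil))))))))) (FT.cons (FT.cons (FT.leaf [(nat_lit 5737876), (nat_lit 5898315), (nat_lit 6062884), (nat_lit 6230443), (nat_lit 6400114), (nat_lit 6571201), (nat_lit 6743144), (nat_lit 6915486), (nat_lit 7087851),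 (nat_lit 7259931)]) (FT.cons (FT.leaf [(nat_lit 6036248), (nat_lit 6200796), (nat_lit 6368040), (nat_lit 6537154), (nat_lit 6707484), (nat_lit 6878507), (nat_lit 7049796), (nat_lit 7220998), (nat_lit 7391824)]) (FT.cons (FT.leaf [(nat_lit
 6337949), (nat_lit 6504752), (nat_lit 6673208), (nat_lit 6842703), (nat_lit 7012743), (nat_lit 7182928), (nat_lit 7352930)]) (FT.cons (FT.leaf [(nat_lit 6640525), (nat_lit 6808237), (nat_lit 6976826), (nat_lit 7145829), (nat_lit 7314871)]) (FT.cons (FT.leaf [(nat_lit 6942204), (nat_lit 7109829), (nat_lit 7277749), (nat_lit 7445612)]) (FT.cons (FT.leaf [(nat_lit 7241692), (nat_lit 7408491)]) (FT.cons (FT.leaf [(nat_lit 7538046)]) (FT.cons (FT.leaf [(nat_lit 7830586)]) FT.nil)))))))) (FT.cons (FT.cons (FT.leaf [(nat_lit 6227393), (nat_lit 6390606), (nat_lit 6556303), (nat_lit 6723694), (nat_lit 6892160), (nat_lit 7061203), (nat_lit 7230421), (nat_lit 7399483)]) (FT.cons (FT.leaf [(nat_lit 6526141), (nat_lit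 6691309), (nat_lit 6857976), (nat_lit 7025556), (nat_lit 7193581), (nat_lit 7361673), (nat_lit 7529523)]) (FT.cons (FT.leaf [(nat_lit 6825344), (nat_lit 6991210), (nat_lit 7157844), (nat_lit 7324806), (nat_lit 7491739)]) (FT.cons (FT.leaf [(nat_lit 7123370), (nat_lit 7289008), (nat_lit 7454867), (nat_lit 7620611)]) (FT.cons (FT.leaf [(nat_lit 7419031), (nat_lit 7583755)]) (FT.cons (FT.leaf [(nat_lit 7711465)]) FT.nil)))))) (FT.cons (FT.cons (FT.leaf [(nat_lit 6711634), (nat_lit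
 6875119), (nat_lit 7039966), (nat_lit 7205616), (nat_lit 7371624), (nat_lit 7537633)]) (FT.cons (FT.leaf [(nat_lit 7007409), (nat_lit 7171411), (nat_lit 7336084), (nat_lit 7501010), (nat_lit 7665848)]) (FT.cons (FT.leaf [(nat_lit 7301773), (nat_lit 7465427), (nat_lit 7629236), (nat_lit 7792881)]) (FT.cons (FT.leaf [(nat_lit 7593632), (nat_lit 7756298)]) (FT.cons (FT.leaf [(nat_lit 7882193)]) FT.nil))))) (FT.cons (FT.cons (FT.leaf [(nat_lit 7186751), (nat_lit 7348878), (nat_lit 7511592), (nat_lit 7674492), (nat_lit 7837256)]) (FT.cons (FT.leaf [(nat_lit 7477459), (nat_lit 7639135), (nat_lit 7800911), (nat_lit 7962481)]) (FT.cons (FT.leaf [(nat_lit 7765548), (nat_lit 7926177)]) FT.nil))) (FT.cons (FT.cons (FT.leaf [(nat_lit 7650474)]) (FT.cons (FT.leaf [(nat_lit 7934834)]) FT.nil)) (FT.cons (FT.cons (FT.leaf [(nat_lit 8101547)]) FT.nil) (FT.cons (FT.cons (FT.leaf [(nat_lit 8539379)]) FT.nil) FT.nil))))))))) (FT.cons (FT.cons (FT.cons (FT.leaf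 [(nat_lit 5587452), (nat_lit 5738678), (nat_lit 5896074), (nat_lit 6058013), (nat_lit 6223287), (nat_lit 6390964), (nat_lit 6560305), (nat_lit 6730715), (nat_lit 6901709), (nat_lit 7072890), (nat_lit 7243924)]) (FT.cons (FT.leaf [(nat_lit
 5874494), (nat_lit 6032480), (nat_lit 6194608), (nat_lit 6359744), (nat_lit 6527015), (nat_lit 6695729), (nat_lit 6865332), (nat_lit 7035371), (nat_lit 7205473), (nat_lit 7375330)]) (FT.cons (FT.leaf [(nat_lit 6168419), (nat_lit 6330559), (nat_lit 6495414), (nat_lit 6662164), (nat_lit 6830161), (nat_lit 6998884), (nat_lit 7167910), (nat_lit 7336890), (nat_lit 7505538)]) (FT.cons (FT.leaf [(nat_lit 6465782), (nat_lit 6630233), (nat_lit 6796363), (nat_lit 6963563), (nat_lit 7131343), (nat_lit 7299308), (nat_lit 7467129)]) (FT.cons (FT.leaf [(nat_lit 6764146), (nat_lit 6929569), (nat_lit 7095903), (nat_lit 7262688), (nat_lit 7429550)]) (FT.cons (FT.leaf [(nat_lit 7061749), (nat_lit 7227159), (nat_lit 7392902),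 (nat_lit 7558628)]) (FT.cons (FT.leaf [(nat_lit 7357311), (nat_lit 7521974)]) (FT.cons (FT.leaf [(nat_lit 7649894)]) (FT.cons (FT.leaf [(nat_lit 7938819)]) FT.nil))))))))) (FT.cons (FT.cons (FT.leaf [(nat_lit 6065149), (nat_lit 6222267), (nat_lit 6383244), (nat_lit 6546991), (nat_lit 6712677), (nat_lit 6879647), (nat_lit 7047376), (nat_lit 7215438), (nat_lit 7383482), (nat_lit 7551219)]) (FT.cons (FT.leaf [(nat_lit 6356823), (nat_lit 6517682), (nat_lit 6681047), (nat_lit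
 6846133), (nat_lit 7012326), (nat_lit 7179131), (nat_lit 7346150), (nat_lit 7513053), (nat_lit 7679573)]) (FT.cons (FT.leaf [(nat_lit 6651336), (nat_lit 6814210), (nat_lit 6978611), (nat_lit 7143957), (nat_lit 7309786), (nat_lit 7475720), (nat_lit 7641453)]) (FT.cons (FT.leaf [(nat_lit 6946436), (nat_lit 7110075), (nat_lit 7274516), (nat_lit 7439322), (nat_lit 7604138)]) (FT.cons (FT.leaf [(nat_lit 7240500), (nat_lit 7403985), (nat_lit 7567729), (nat_lit 7731398)]) (FT.cons (FT.leaf [(nat_lit 7532348), (nat_lit 7694998)]) (FT.cons (FT.leaf [(nat_lit 7821123)]) (FT.cons (FT.leaf [(nat_lit 8106204)]) FT.nil)))))))) (FT.cons (FT.cons (FT.leaf [(nat_lit 6542718), (nat_lit 6702211), (nat_lit 6864023), (nat_lit 7027404), (nat_lit 7191767), (nat_lit 7356645), (nat_lit 7521658), (nat_lit 7686496)]) (FT.cons (FT.leaf [(nat_lit 6834268), (nat_lit 6995517), (nat_lit 7158158), (nat_lit 7321636), (nat_lit 7485510), (nat_lit 7649421), (nat_lit 7813083)])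 (FT.cons (FT.leaf [(nat_lit 7126050), (nat_lit 7287886), (nat_lit 7450427), (nat_lit 7613258), (nat_lit 7776041)]) (FT.cons (FT.leaf [(nat_lit 7416564), (nat_lit 7578126), (nat_lit 7739881), (nat_lit 7901512)]) (FT.cons (FT.leaf [(nat_lit
 7704722), (nat_lit 7865374)]) (FT.cons (FT.leaf [(nat_lit 7989734)]) FT.nil)))))) (FT.cons (FT.cons (FT.leaf [(nat_lit 7014586), (nat_lit 7174176), (nat_lit 7335037), (nat_lit 7496639), (nat_lit 7658562), (nat_lit 7820466)]) (FT.cons (FT.leaf [(nat_lit 7303018), (nat_lit 7463038), (nat_lit 7623680), (nat_lit 7784545), (nat_lit 7945315)]) (FT.cons (FT.leaf [(nat_lit 7589986), (nat_lit 7749630), (nat_lit 7909412), (nat_lit 8069027)]) (FT.cons (FT.leaf [(nat_lit 7874484), (nat_lit 8033157)]) (FT.cons (FT.leaf [(nat_lit 8155782)]) FT.nil))))) (FT.cons (FT.cons (FT.leaf [(nat_lit 7477372), (nat_lit 7635573), (nat_lit 7794321), (nat_lit 7953238), (nat_lit 8112014)]) (FT.cons (FT.leaf [(nat_lit 7760809), (nat_lit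 7918548), (nat_lit 8076374), (nat_lit 8233999)]) (FT.cons (FT.leaf [(nat_lit 8041685), (nat_lit 8198403)]) FT.nil))) (FT.cons (FT.cons (FT.leaf [(nat_lit 7929082)]) (FT.cons (FT.leaf [(nat_lit 8206380)]) FT.nil)) (FT.cons (FT.cons (FT.leaf [(nat_lit 8368623)]) FT.nil) (FT.cons (FT.cons (FT.leaf [(nat_lit 8795485)]) FT.nil) FT.nil)))))))) (FT.cons (FT.cons (FT.cons (FT.leaf [(nat_lit 6382485), (nat_lit 6536303), (nat_lit 6693744), (nat_lit 6853770), (nat_lit 7015591), (nat_lit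
 7178587), (nat_lit 7342264), (nat_lit 7506222), (nat_lit 7670131), (nat_lit 7833724)]) (FT.cons (FT.leaf [(nat_lit 6667563), (nat_lit 6824816), (nat_lit 6984412), (nat_lit 7145605), (nat_lit 7307814), (nat_lit 7470572), (nat_lit 7633503), (nat_lit 7796301), (nat_lit 7958711)]) (FT.cons (FT.leaf [(nat_lit 6955091), (nat_lit 7114162), (nat_lit 7274654), (nat_lit 7436016), (nat_lit 7597809), (nat_lit 7759680), (nat_lit 7921340)]) (FT.cons (FT.leaf [(nat_lit 7242985), (nat_lit 7402709), (nat_lit 7563174), (nat_lit 7723964), (nat_lit 7884745)]) (FT.cons (FT.leaf [(nat_lit 7529749), (nat_lit 7689273), (nat_lit 7849027), (nat_lit 8008695)]) (FT.cons (FT.leaf [(nat_lit 7814303), (nat_lit 7972992)]) (FT.cons (FT.leaf [(nat_lit 8095857)]) FT.nil))))))) (FT.cons (FT.cons (FT.leaf [(nat_lit 6848408), (nat_lit 7004283), (nat_lit 7162336), (nat_lit 7321852), (nat_lit 7482275), (nat_lit 7643161), (nat_lit 7804155), (nat_lit 7964962)]) (FT.cons (FT.leaf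 [(nat_lit 7132993), (nat_lit 7290462), (nat_lit 7449232), (nat_lit 7608777), (nat_lit 7768679), (nat_lit 7928600), (nat_lit 8088267)]) (FT.cons (FT.leaf [(nat_lit 7417642), (nat_lit 7575610), (nat_lit 7734233), (nat_lit 7893116), (nat_lit
 8051942)]) (FT.cons (FT.leaf [(nat_lit 7700968), (nat_lit 7858633), (nat_lit 8016470), (nat_lit 8174179)]) (FT.cons (FT.leaf [(nat_lit 7981967), (nat_lit 8138735)]) (FT.cons (FT.leaf [(nat_lit 8259910)]) FT.nil)))))) (FT.cons (FT.cons (FT.leaf [(nat_lit 7308371), (nat_lit 7464213), (nat_lit 7621250), (nat_lit 7778977), (nat_lit 7936996), (nat_lit 8094984)]) (FT.cons (FT.leaf [(nat_lit 7589759), (nat_lit 7745964), (nat_lit 7902751), (nat_lit 8059742), (nat_lit 8216631)]) (FT.cons (FT.leaf [(nat_lit 7869659), (nat_lit 8025474), (nat_lit 8181412), (nat_lit 8337186)]) (FT.cons (FT.leaf [(nat_lit 8147138), (nat_lit 8302005)]) (FT.cons (FT.leaf [(nat_lit 8421521)]) FT.nil))))) (FT.cons (FT.cons (FT.leaf [(nat_lit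 7759370), (nat_lit 7913816), (nat_lit 8068777)]) (FT.cons (FT.leaf [(nat_lit 8035866), (nat_lit 8189846)]) (FT.cons (FT.leaf [(nat_lit 8309868)]) FT.nil))) (FT.cons (FT.cons (FT.leaf [(nat_lit 8199639)]) (FT.cons (FT.leaf [(nat_lit 8470208)]) FT.nil)) (FT.cons (FT.cons (FT.leaf [(nat_lit 8628212)]) FT.nil) FT.nil)))))) (FT.cons (FT.cons (FT.cons (FT.leaf [(nat_lit 7144944), (nat_lit 7297312), (nat_lit 7451738), (nat_lit 7607537), (nat_lit 7764180), (nat_lit 7921246)]) (FT.cons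
 (FT.leaf [(nat_lit 7422808), (nat_lit 7576638), (nat_lit 7731692), (nat_lit 7887470), (nat_lit 8043574)]) (FT.cons (FT.leaf [(nat_lit 7700612), (nat_lit 7854872), (nat_lit 8009747), (nat_lit 8164860)]) (FT.cons (FT.leaf [(nat_lit 7977064), (nat_lit 8131003)]) (FT.cons (FT.leaf [(nat_lit 8251232)]) (FT.cons (FT.leaf [(nat_lit 8522440)]) FT.nil)))))) (FT.cons (FT.cons (FT.leaf [(nat_lit 7593475), (nat_lit 7745717), (nat_lit 7899088), (nat_lit 8053108), (nat_lit 8207396)]) (FT.cons (FT.leaf [(nat_lit 7868114), (nat_lit 8020668), (nat_lit 8173770), (nat_lit 8327060)]) (FT.cons (FT.leaf [(nat_lit 8141260), (nat_lit 8293418)]) (FT.cons (FT.leaf [(nat_lit 8412046)]) (FT.cons (FT.leaf [(nat_lit 8679844)]) FT.nil))))) (FT.cons (FT.cons (FT.leaf [(nat_lit 8033217), (nat_lit 8184070), (nat_lit 8335413)]) (FT.cons (FT.leaf [(nat_lit 8303085), (nat_lit 8453477)]) (FT.cons (FT.leaf [(nat_lit 8570532)]) FT.nil))) (FT.cons (FT.cons (FT.leaf [(nat_lit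 8462585)]) (FT.cons (FT.leaf [(nat_lit 8726739)]) FT.nil)) (FT.cons (FT.cons (FT.leaf [(nat_lit 8880718)]) FT.nil) FT.nil))))) (FT.cons (FT.cons (FT.cons (FT.leaf [(nat_lit 7870364), (nat_lit 8019144), (nat_lit 8169003), (nat_lit 8319476), (nat_lit
 8470199)]) (FT.cons (FT.leaf [(nat_lit 8138534), (nat_lit 8287593), (nat_lit 8437173), (nat_lit 8586929)]) (FT.cons (FT.leaf [(nat_lit 8405229), (nat_lit 8553891)]) (FT.cons (FT.leaf [(nat_lit 8669629)]) FT.nil)))) (FT.cons (FT.cons (FT.leaf [(nat_lit 8299348), (nat_lit 8446765), (nat_lit 8594651)]) (FT.cons (FT.leaf [(nat_lit 8562888), (nat_lit 8709852)]) (FT.cons (FT.leaf [(nat_lit 8824084)]) FT.nil))) (FT.cons (FT.cons (FT.leaf [(nat_lit 8718326)]) (FT.cons (FT.leaf [(nat_lit 8976363)]) FT.nil)) FT.nil))) (FT.cons (FT.cons (FT.cons (FT.leaf [(nat_lit 8558173)]) FT.nil) (FT.cons (FT.cons (FT.leaf [(nat_lit 8967243)]) FT.nil) FT.nil)) (FT.cons (FT.cons (FT.cons (FT.leaf [(nat_lit 9209685)])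 FT.nil) FT.nil) (FT.cons (FT.cons (FT.cons (FT.leaf [(nat_lit 9827011)]) FT.nil) FT.nil) (FT.cons (FT.cons (FT.cons (FT.leaf [(nat_lit 10412560)]) FT.nil) FT.nil) FT.nil))))))))) (FT.cons (FT.cons (FT.cons (FT.cons (FT.leaf [(nat_lit 6496199), (nat_lit 6634465), (nat_lit 6778367), (nat_lit 6926449), (nat_lit 7077636), (nat_lit 7231101), (nat_lit 7386193), (nat_lit 7542386), (nat_lit 7699252), (nat_lit 7856437), (nat_lit 8013649)]) (FT.cons (FT.leaf [(nat_lit 6758186), (nat_lit 6902672),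
 (nat_lit 7050993), (nat_lit 7202139), (nat_lit 7355334), (nat_lit 7509966), (nat_lit 7665543), (nat_lit 7821664), (nat_lit 7977997), (nat_lit 8134269)]) (FT.cons (FT.leaf [(nat_lit 7026622), (nat_lit 7175033), (nat_lit 7326018), (nat_lit 7478845), (nat_lit 7632939), (nat_lit 7787838), (nat_lit 7943164), (nat_lit 8098607), (nat_lit 8253909)]) (FT.cons (FT.leaf [(nat_lit 7298501), (nat_lit 7449219), (nat_lit 7601594), (nat_lit 7755082), (nat_lit 7909247), (nat_lit 8063735), (nat_lit 8218254)]) (FT.cons (FT.leaf [(nat_lit 7571697), (nat_lit 7723545), (nat_lit 7876367), (nat_lit 8029751), (nat_lit 8183364)]) (FT.cons (FT.leaf [(nat_lit 7844668), (nat_lit 7996771), (nat_lit 8149334), (nat_lit 8302039)]) (FT.cons (FT.leaf [(nat_lit 8116278), (nat_lit 8267982)]) (FT.cons (FT.leaf [(nat_lit 8385688)]) (FT.cons (FT.leaf [(nat_lit 8652277)]) FT.nil))))))))) (FT.cons (FT.cons (FT.leaf [(nat_lit 6931313), (nat_lit 7075137), (nat_lit 7222558), (nat_lit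 7372604), (nat_lit 7524533), (nat_lit 7677763), (nat_lit 7831826), (nat_lit 7986343), (nat_lit 8140999), (nat_lit 8295537)]) (FT.cons (FT.leaf [(nat_lit 7197970), (nat_lit 7345373), (nat_lit 7495172), (nat_lit 7646667), (nat_lit 7799307),
 (nat_lit 7952652), (nat_lit 8106345), (nat_lit 8260091), (nat_lit 8413647)]) (FT.cons (FT.leaf [(nat_lit 7467569), (nat_lit 7617028), (nat_lit 7768013), (nat_lit 7920002), (nat_lit 8072582), (nat_lit 8225414), (nat_lit 8378221)]) (FT.cons (FT.leaf [(nat_lit 7738132), (nat_lit 7888541), (nat_lit 8039828), (nat_lit 8191601), (nat_lit 8343540)]) (FT.cons (FT.leaf [(nat_lit 8008228), (nat_lit 8158767), (nat_lit 8309696), (nat_lit 8460715)]) (FT.cons (FT.leaf [(nat_lit 8276803), (nat_lit 8426859)]) (FT.cons (FT.leaf [(nat_lit 8543081)]) (FT.cons (FT.leaf [(nat_lit 8806489)]) FT.nil)))))))) (FT.cons (FT.cons (FT.leaf [(nat_lit 7367275), (nat_lit 7513599), (nat_lit 7662159), (nat_lit 7812282), (nat_lit 7963442),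 (nat_lit 8115220), (nat_lit 8267276), (nat_lit 8419329)]) (FT.cons (FT.leaf [(nat_lit 7634498), (nat_lit 7782655), (nat_lit 7932220), (nat_lit 8082694), (nat_lit 8233680), (nat_lit 8384857), (nat_lit 8535961)]) (FT.cons (FT.leaf [(nat_lit 7902378), (nat_lit 8051326), (nat_lit 8201068), (nat_lit 8351227), (nat_lit 8501497)]) (FT.cons (FT.leaf [(nat_lit 8169581), (nat_lit 8318550), (nat_lit 8467850), (nat_lit 8617191)]) (FT.cons (FT.leaf [(nat_lit 8435129), (nat_lit 8583543)])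
 (FT.cons (FT.leaf [(nat_lit 8698301)]) FT.nil)))))) (FT.cons (FT.cons (FT.leaf [(nat_lit 7799289), (nat_lit 7946111), (nat_lit 8094235), (nat_lit 8243183), (nat_lit 8392574), (nat_lit 8542101)]) (FT.cons (FT.leaf [(nat_lit 8064450), (nat_lit 8211924), (nat_lit 8360115), (nat_lit 8508662), (nat_lit 8657274)]) (FT.cons (FT.leaf [(nat_lit 8328754), (nat_lit 8476154), (nat_lit 8623830), (nat_lit 8771507)]) (FT.cons (FT.leaf [(nat_lit 8591291), (nat_lit 8738074)]) (FT.cons (FT.leaf [(nat_lit 8851389)]) FT.nil))))) (FT.cons (FT.cons (FT.leaf [(nat_lit 8224372), (nat_lit 8370362), (nat_lit 8517002)]) (FT.cons (FT.leaf [(nat_lit 8485780), (nat_lit 8631613)]) (FT.cons (FT.leaf [(nat_lit 8745326)]) FT.nil))) (FT.cons (FT.cons (FT.leaf [(nat_lit 8640691)]) (FT.cons (FT.leaf [(nat_lit 8897273)]) FT.nil)) (FT.cons (FT.cons (FT.leaf [(nat_lit 9047171)]) FT.nil) FT.nil))))))) (FT.cons (FT.cons (FT.cons (FT.leaf [(nat_lit 7218496), (nat_lit 7359648),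 (nat_lit 7504202), (nat_lit 7651222), (nat_lit 7800001), (nat_lit 7949985), (nat_lit 8100729), (nat_lit 8251874), (nat_lit 8403127), (nat_lit 8554242)]) (FT.cons (FT.leaf [(nat_lit 7479800), (nat_lit 7624274), (nat_lit 7771003), (nat_lit 7919319),
 (nat_lit 8068698), (nat_lit 8218721), (nat_lit 8369050), (nat_lit 8519408), (nat_lit 8669564)]) (FT.cons (FT.leaf [(nat_lit 7743712), (nat_lit 7890069), (nat_lit 8037855), (nat_lit 8186577), (nat_lit 8335838), (nat_lit 8485319), (nat_lit 8634757)]) (FT.cons (FT.leaf [(nat_lit 8008385), (nat_lit 8155585), (nat_lit 8303604), (nat_lit 8452066), (nat_lit 8600671)]) (FT.cons (FT.leaf [(nat_lit 8272487), (nat_lit 8419763), (nat_lit 8567397), (nat_lit 8715101)]) (FT.cons (FT.leaf [(nat_lit 8535044), (nat_lit 8681822)]) (FT.cons (FT.leaf [(nat_lit 8795335)]) FT.nil))))))) (FT.cons (FT.cons (FT.leaf [(nat_lit 7644991), (nat_lit 7788369), (nat_lit 7933860), (nat_lit 8080819), (nat_lit 8228744), (nat_lit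 8377237), (nat_lit 8525974), (nat_lit 8674691)]) (FT.cons (FT.leaf [(nat_lit 7906529), (nat_lit 8051594), (nat_lit 8197984), (nat_lit 8345222), (nat_lit 8492932), (nat_lit 8640807), (nat_lit 8788597)]) (FT.cons (FT.leaf [(nat_lit 8168563), (nat_lit 8314332), (nat_lit 8460843), (nat_lit 8607738), (nat_lit 8754727)]) (FT.cons (FT.leaf [(nat_lit 8429846), (nat_lit 8575596), (nat_lit 8721649), (nat_lit 8867731)]) (FT.cons (FT.leaf [(nat_lit 8689470), (nat_lit 8834659)]) (FT.cons (FT.leaf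
 [(nat_lit 8946765)]) FT.nil)))))) (FT.cons (FT.cons (FT.leaf [(nat_lit 8067273), (nat_lit 8211020), (nat_lit 8355998), (nat_lit 8501748), (nat_lit 8647908), (nat_lit 8794185)]) (FT.cons (FT.leaf [(nat_lit 8326643), (nat_lit 8470972), (nat_lit 8615976), (nat_lit 8761308), (nat_lit 8906693)]) (FT.cons (FT.leaf [(nat_lit 8585109), (nat_lit 8729335), (nat_lit 8873817), (nat_lit 9018292)]) (FT.cons (FT.leaf [(nat_lit 8841820), (nat_lit 8985432)]) (FT.cons (FT.leaf [(nat_lit 9096150)]) FT.nil))))) (FT.cons (FT.cons (FT.leaf [(nat_lit 8482651), (nat_lit 8625535), (nat_lit 8769033)]) (FT.cons (FT.leaf [(nat_lit 8738308), (nat_lit 8881017)]) (FT.cons (FT.leaf [(nat_lit 8992130)]) FT.nil))) (FT.cons (FT.cons (FT.leaf [(nat_lit 8889476)]) (FT.cons (FT.leaf [(nat_lit 9140437)]) FT.nil)) (FT.cons (FT.cons (FT.leaf [(nat_lit 9286781)]) FT.nil) FT.nil)))))) (FT.cons (FT.cons (FT.cons (FT.leaf [(nat_lit 7915255), (nat_lit 8055759), (nat_lit 8198272),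 (nat_lit 8342171), (nat_lit 8486976), (nat_lit 8632305)]) (FT.cons (FT.leaf [(nat_lit 8171276), (nat_lit 8313346), (nat_lit 8456670), (nat_lit 8600792), (nat_lit 8745350)]) (FT.cons (FT.leaf [(nat_lit 8427667), (nat_lit 8570370), (nat_lit 8713773),
 (nat_lit 8857532)]) (FT.cons (FT.leaf [(nat_lit 8683256), (nat_lit 8825909)]) (FT.cons (FT.leaf [(nat_lit 8937195)]) (FT.cons (FT.leaf [(nat_lit 9188855)]) FT.nil)))))) (FT.cons (FT.cons (FT.leaf [(nat_lit 8328137), (nat_lit 8468913), (nat_lit 8610857), (nat_lit 8753530), (nat_lit 8896584)]) (FT.cons (FT.leaf [(nat_lit 8581927), (nat_lit 8723227), (nat_lit 8865165), (nat_lit 9007411)]) (FT.cons (FT.leaf [(nat_lit 8834782), (nat_lit 8975959)]) (FT.cons (FT.leaf [(nat_lit 9085905)]) (FT.cons (FT.leaf [(nat_lit 9334708)]) FT.nil))))) (FT.cons (FT.cons (FT.leaf [(nat_lit 8734191), (nat_lit 8874087), (nat_lit 9014565)]) (FT.cons (FT.leaf [(nat_lit 8984325), (nat_lit 9124032)]) (FT.cons (FT.leaf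 [(nat_lit 9232658)]) FT.nil))) (FT.cons (FT.cons (FT.leaf [(nat_lit 9131918)]) (FT.cons (FT.leaf [(nat_lit 9377491)]) FT.nil)) (FT.cons (FT.cons (FT.leaf [(nat_lit 9520442)]) FT.nil) FT.nil))))) (FT.cons (FT.cons (FT.cons (FT.leaf [(nat_lit 8582217), (nat_lit 8720125), (nat_lit 8859145), (nat_lit 8998857), (nat_lit 9138927)]) (FT.cons (FT.leaf [(nat_lit 8830633), (nat_lit 8969017), (nat_lit 9108008), (nat_lit 9247289)]) (FT.cons (FT.leaf [(nat_lit 9078097), (nat_lit 9216343)]) (FT.cons (FT.leaf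
 [(nat_lit 9323858)]) FT.nil)))) (FT.cons (FT.cons (FT.leaf [(nat_lit 8979316), (nat_lit 9116337), (nat_lit 9253914)]) (FT.cons (FT.leaf [(nat_lit 9224145), (nat_lit 9360971)]) (FT.cons (FT.leaf [(nat_lit 9467215)]) FT.nil))) (FT.cons (FT.cons (FT.leaf [(nat_lit 9368322)]) (FT.cons (FT.leaf [(nat_lit 9608729)]) FT.nil)) FT.nil))) (FT.cons (FT.cons (FT.cons (FT.leaf [(nat_lit 9218330)]) FT.nil) (FT.cons (FT.cons (FT.leaf [(nat_lit 9598975)]) FT.nil) FT.nil)) (FT.cons (FT.cons (FT.cons (FT.leaf [(nat_lit 9824143)]) FT.nil) FT.nil) (FT.cons (FT.cons (FT.cons (FT.leaf [(nat_lit 10401002)]) FT.nil) FT.nil) (FT.cons (FT.cons (FT.cons (FT.leaf [(nat_lit 10950603)]) FT.nil) FT.nil) FT.nil)))))))) (FT.cons (FT.cons (FT.cons (FT.cons (FT.leaf [(nat_lit 7972717), (nat_lit 8103545), (nat_lit 8237577), (nat_lit 8373955), (nat_lit 8512037), (nat_lit 8651319), (nat_lit 8791401), (nat_lit 8931955), (nat_lit 9072714), (nat_lit 9213456)]) (FT.cons (FT.leaf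 [(nat_lit 8214643), (nat_lit 8348663), (nat_lit 8484843), (nat_lit 8622574), (nat_lit 8761379), (nat_lit 8900879), (nat_lit 9040767), (nat_lit 9180788), (nat_lit 9320734)]) (FT.cons (FT.leaf [(nat_lit 8459230), (nat_lit 8595139), (nat_lit
 8732460), (nat_lit 8870742), (nat_lit 9009624), (nat_lit 9148815), (nat_lit 9288076)]) (FT.cons (FT.leaf [(nat_lit 8704815), (nat_lit 8841675), (nat_lit 8979392), (nat_lit 9117623), (nat_lit 9256092)]) (FT.cons (FT.leaf [(nat_lit 8950199), (nat_lit 9087314), (nat_lit 9224866), (nat_lit 9362589)]) (FT.cons (FT.leaf [(nat_lit 9194498), (nat_lit 9331344)]) (FT.cons (FT.leaf [(nat_lit 9437053)]) FT.nil))))))) (FT.cons (FT.cons (FT.leaf [(nat_lit 8367073), (nat_lit 8500197), (nat_lit 8635354), (nat_lit 8771958), (nat_lit 8909551), (nat_lit 9047770), (nat_lit 9186319), (nat_lit 9324957)]) (FT.cons (FT.leaf [(nat_lit 8609694), (nat_lit 8744533), (nat_lit 8880691), (nat_lit 9017733), (nat_lit 9155312), (nat_lit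 9293151), (nat_lit 9431019)]) (FT.cons (FT.leaf [(nat_lit 8853076), (nat_lit 8988742), (nat_lit 9125195), (nat_lit 9262107), (nat_lit 9399213)]) (FT.cons (FT.leaf [(nat_lit 9096094), (nat_lit 9231927), (nat_lit 9368146), (nat_lit 9504499)]) (FT.cons (FT.leaf [(nat_lit 9337919), (nat_lit 9473422)]) (FT.cons (FT.leaf [(nat_lit 9577933)]) FT.nil)))))) (FT.cons (FT.cons (FT.leaf [(nat_lit 8758412), (nat_lit 8892157), (nat_lit 9027136), (nat_lit 9162929), (nat_lit 9299205)]) (FT.cons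
 (FT.leaf [(nat_lit 8999566), (nat_lit 9134026), (nat_lit 9269212), (nat_lit 9404806)]) (FT.cons (FT.leaf [(nat_lit 9240213), (nat_lit 9374762)]) (FT.cons (FT.leaf [(nat_lit 9479574)]) (FT.cons (FT.leaf [(nat_lit 9717069)]) FT.nil))))) (FT.cons (FT.cons (FT.leaf [(nat_lit 9144303), (nat_lit 9277549), (nat_lit 9411466)]) (FT.cons (FT.leaf [(nat_lit 9382579), (nat_lit 9515847)]) (FT.cons (FT.leaf [(nat_lit 9619491)]) FT.nil))) (FT.cons (FT.cons (FT.leaf [(nat_lit 9523218)]) (FT.cons (FT.leaf [(nat_lit 9757697)]) FT.nil)) (FT.cons (FT.cons (FT.leaf [(nat_lit 9894224)]) FT.nil) FT.nil)))))) (FT.cons (FT.cons (FT.cons (FT.leaf [(nat_lit 8615904), (nat_lit 8746621), (nat_lit 8879274), (nat_lit 9013299), (nat_lit 9148257), (nat_lit 9283799)]) (FT.cons (FT.leaf [(nat_lit 8853891), (nat_lit 8986209), (nat_lit 9119779), (nat_lit 9254184), (nat_lit 9389093)]) (FT.cons (FT.leaf [(nat_lit 9092514), (nat_lit 9225588), (nat_lit 9359408), (nat_lit 9493658)])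 (FT.cons (FT.leaf [(nat_lit 9330713), (nat_lit 9463918)]) (FT.cons (FT.leaf [(nat_lit 9567707)]) (FT.cons (FT.leaf [(nat_lit 9802918)]) FT.nil)))))) (FT.cons (FT.cons (FT.leaf [(nat_lit 8999336), (nat_lit 9130574), (nat_lit 9262986), (nat_lit
 9396171), (nat_lit 9529808)]) (FT.cons (FT.leaf [(nat_lit 9235773), (nat_lit 9367667), (nat_lit 9500250), (nat_lit 9633218)]) (FT.cons (FT.leaf [(nat_lit 9471661), (nat_lit 9603616)]) (FT.cons (FT.leaf [(nat_lit 9706263)]) (FT.cons (FT.leaf [(nat_lit 9939034)]) FT.nil))))) (FT.cons (FT.cons (FT.leaf [(nat_lit 9377337), (nat_lit 9508045), (nat_lit 9639392)]) (FT.cons (FT.leaf [(nat_lit 9610917), (nat_lit 9741626)]) (FT.cons (FT.leaf [(nat_lit 9843143)]) FT.nil))) (FT.cons (FT.cons (FT.leaf [(nat_lit 9748508)]) (FT.cons (FT.leaf [(nat_lit 9978376)]) FT.nil)) (FT.cons (FT.cons (FT.leaf [(nat_lit 10111990)]) FT.nil) FT.nil))))) (FT.cons (FT.cons (FT.cons (FT.leaf [(nat_lit 9234540), (nat_lit 9363346),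 (nat_lit 9493275), (nat_lit 9623938)]) (FT.cons (FT.leaf [(nat_lit 9466415), (nat_lit 9595827), (nat_lit 9725896)]) (FT.cons (FT.leaf [(nat_lit 9697708)]) FT.nil))) (FT.cons (FT.cons (FT.leaf [(nat_lit 9604929), (nat_lit 9733185)]) (FT.cons (FT.leaf [(nat_lit 9833979)]) FT.nil)) (FT.cons (FT.cons (FT.leaf [(nat_lit 9968642)]) FT.nil) FT.nil))) (FT.cons (FT.cons (FT.cons (FT.leaf [(nat_lit 9827313)]) FT.nil) (FT.cons (FT.cons (FT.leaf [(nat_lit 10183848)]) FT.nil) FT.nil)) (FT.cons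
 (FT.cons (FT.cons (FT.leaf [(nat_lit 10394333)]) FT.nil) FT.nil) (FT.cons (FT.cons (FT.cons (FT.leaf [(nat_lit 10936445)]) FT.nil) FT.nil) FT.nil)))))) (FT.cons (FT.cons (FT.cons (FT.cons (FT.leaf [(nat_lit 9259542), (nat_lit 9381999), (nat_lit 9506321), (nat_lit 9631986), (nat_lit 9758590), (nat_lit 9885811)]) (FT.cons (FT.leaf [(nat_lit 9482312), (nat_lit 9606375), (nat_lit 9731673), (nat_lit 9857821), (nat_lit 9984513)]) (FT.cons (FT.leaf [(nat_lit 9705893), (nat_lit 9830787), (nat_lit 9956448), (nat_lit 10082587)]) (FT.cons (FT.leaf [(nat_lit 9929314), (nat_lit 10054463)]) FT.nil)))) (FT.cons (FT.cons (FT.leaf [(nat_lit 9618123), (nat_lit 9741267), (nat_lit 9865576), (nat_lit 9990677), (nat_lit 10116276)]) (FT.cons (FT.leaf [(nat_lit 9839832), (nat_lit 9963716), (nat_lit 10088315), (nat_lit 10213349)]) (FT.cons (FT.leaf [(nat_lit 10061265), (nat_lit 10185339)]) FT.nil))) (FT.cons (FT.cons (FT.leaf [(nat_lit 9972306), (nat_lit 10095173)])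 (FT.cons (FT.leaf [(nat_lit 10191752)]) FT.nil)) (FT.cons (FT.cons (FT.leaf [(nat_lit 10320791)]) FT.nil) FT.nil)))) (FT.cons (FT.cons (FT.cons (FT.leaf [(nat_lit 9837390), (nat_lit 9958437), (nat_lit 10080602), (nat_lit 10203522)]) (FT.cons
 (FT.leaf [(nat_lit 10055162), (nat_lit 10176899), (nat_lit 10299321)]) (FT.cons (FT.leaf [(nat_lit 10272618)]) FT.nil))) (FT.cons (FT.cons (FT.leaf [(nat_lit 10184998), (nat_lit 10305741)]) (FT.cons (FT.leaf [(nat_lit 10400516)]) FT.nil)) (FT.cons (FT.cons (FT.leaf [(nat_lit 10527013)]) FT.nil) FT.nil))) (FT.cons (FT.cons (FT.cons (FT.leaf [(nat_lit 10393186)]) FT.nil) (FT.cons (FT.cons (FT.leaf [(nat_lit 10728949)]) FT.nil) FT.nil)) (FT.cons (FT.cons (FT.cons (FT.leaf [(nat_lit 10926768)]) FT.nil) FT.nil) FT.nil)))) (FT.cons (FT.cons (FT.cons (FT.cons (FT.leaf [(nat_lit 10398375), (nat_lit 10512710), (nat_lit 10628145)]) (FT.cons (FT.leaf [(nat_lit 10603944), (nat_lit 10719021)]) (FT.cons (FT.leaf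 [(nat_lit 10809391)]) FT.nil))) (FT.cons (FT.cons (FT.leaf [(nat_lit 10726270)]) (FT.cons (FT.leaf [(nat_lit 10930020)]) FT.nil)) (FT.cons (FT.cons (FT.leaf [(nat_lit 11049414)]) FT.nil) FT.nil))) (FT.cons (FT.cons (FT.cons (FT.leaf [(nat_lit 10922167)]) FT.nil) (FT.cons (FT.cons (FT.leaf [(nat_lit 11239803)]) FT.nil) FT.nil)) FT.nil)) (FT.cons (FT.cons (FT.cons (FT.cons (FT.leaf [(nat_lit 11419167)]) FT.nil) FT.nil) FT.nil) (FT.cons (FT.cons (FT.cons (FT.cons (FT.leaf [(nat_lit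
 12343868)]) FT.nil) FT.nil) FT.nil) FT.nil)))))))

def f176_1_792 : FT := (FT.cons (FT.cons (FT.cons (FT.cons (FT.leaf [(nat_lit 4847452), (nat_lit 4987361), (nat_lit 5137580), (nat_lit 5295510), (nat_lit 5459279), (nat_lit 5627466), (nat_lit 5798956), (nat_lit 5972855), (nat_lit 6148437), (nat_lit 6325101), (nat_lit 6502352), (nat_lit 6679776), (nat_lit 6857028), (nat_lit 7033818), (nat_lit 7209903)]) (FT.cons (FT.leaf [(nat_lit 5123512), (nat_lit 5275797), (nat_lit 5435118), (nat_lit 5599727), (nat_lit 5768301), (nat_lit 5939806), (nat_lit 6113411), (nat_lit 6288442), (nat_lit 6464344), (nat_lit 6640658), (nat_lit 6817002), (nat_lit 6993054), (nat_lit 7168550), (nat_lit 7343266)]) (FT.cons (FT.leaf [(nat_lit 5414308), (nat_lit 5574684), (nat_lit 5739862), (nat_lit 5908604), (nat_lit 6079945), (nat_lit 6253111), (nat_lit 6427475), (nat_lit 6602522), (nat_lit 6777825), (nat_lit 6953031), (nat_lit 7127841), (nat_lit 7302012)]) (FT.cons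 (FT.leaf [(nat_lit 5714031), (nat_lit 5879543), (nat_lit 6048263), (nat_lit 6219285), (nat_lit 6391888), (nat_lit 6565485), (nat_lit 6739597), (nat_lit 6913827), (nat_lit 7087846), (nat_lit 7261379)]) (FT.cons (FT.leaf [(nat_lit 6018653), (nat_lit 6187185), (nat_lit 6357754), (nat_lit 6529685), (nat_lit 6702428), (nat_lit
 6875537), (nat_lit 7048641), (nat_lit 7221433), (nat_lit 7393659)]) (FT.cons (FT.leaf [(nat_lit 6325290), (nat_lit 6495290), (nat_lit 6666455), (nat_lit 6838271), (nat_lit 7010318), (nat_lit 7182251), (nat_lit 7353783)]) (FT.cons (FT.leaf [(nat_lit 6631841), (nat_lit 6802160), (nat_lit 6972983), (nat_lit 7143919), (nat_lit 7314643)]) (FT.cons (FT.leaf [(nat_lit 6936767), (nat_lit 7106544), (nat_lit 7276327), (nat_lit 7445811)]) (FT.cons (FT.leaf [(nat_lit 7238936), (nat_lit 7407531)]) (FT.cons (FT.leaf [(nat_lit 7537522)]) FT.nil)))))))))) (FT.cons (FT.cons (FT.leaf [(nat_lit 5320301), (nat_lit 5472824), (nat_lit 5631902),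 (nat_lit 5795859), (nat_lit 5963434), (nat_lit 6133650), (nat_lit 6305725), (nat_lit 6479029), (nat_lit 6653042), (nat_lit 6827338), (nat_lit 7001560), (nat_lit 7175413), (nat_lit 7348648)]) (FT.cons (FT.leaf [(nat_lit 5610531), (nat_lit 5770403), (nat_lit 5934715), (nat_lit 6102286), (nat_lit 6272200), (nat_lit 6443727), (nat_lit 6616280), (nat_lit 6789375), (nat_lit 6962614), (nat_lit 7135667), (nat_lit 7308260), (nat_lit 7480161)]) (FT.cons (FT.leaf [(nat_lit 5908545), (nat_lit 6073009), (nat_lit 6240410), (nat_lit 6409888), (nat_lit 6580761), (nat_lit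
 6752477), (nat_lit 6924586), (nat_lit 7096716), (nat_lit 7268560), (nat_lit 7439863)]) (FT.cons (FT.leaf [(nat_lit 6210640), (nat_lit 6377729), (nat_lit 6546656), (nat_lit 6716780), (nat_lit 6887586), (nat_lit 7058650), (nat_lit 7229626), (nat_lit 7400228), (nat_lit 7570217)]) (FT.cons (FT.leaf [(nat_lit 6514175), (nat_lit 6682450), (nat_lit 6851746), (nat_lit 7021577), (nat_lit 7191548), (nat_lit 7361333), (nat_lit 7530666)]) (FT.cons (FT.leaf [(nat_lit 6817229), (nat_lit 6985627), (nat_lit 7154430), (nat_lit 7323266), (nat_lit 7491830)]) (FT.cons (FT.leaf [(nat_lit 7118399), (nat_lit 7286127), (nat_lit 7453792), (nat_lit 7621109)]) (FT.cons (FT.leaf [(nat_lit 7416655), (nat_lit 7583121)]) (FT.cons (FT.leaf [(nat_lit 7711249)]) FT.nil))))))))) (FT.cons (FT.cons (FT.leaf [(nat_lit 5804650), (nat_lit 5963811), (nat_lit 6127091), (nat_lit 6293361), (nat_lit 6461750), (nat_lit 6631569), (nat_lit 6802263), (nat_lit 6973377), (nat_lit 7144540),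 (nat_lit 7315442), (nat_lit 7485827)]) (FT.cons (FT.leaf [(nat_lit 6100641), (nat_lit 6263919), (nat_lit 6429897), (nat_lit 6597753), (nat_lit 6766842), (nat_lit 6936643), (nat_lit 7106731), (nat_lit 7276757), (nat_lit 7446435), (nat_lit
 7615524)]) (FT.cons (FT.leaf [(nat_lit 6400012), (nat_lit 6565572), (nat_lit 6732796), (nat_lit 6901074), (nat_lit 7069919), (nat_lit 7238931), (nat_lit 7407785), (nat_lit 7576210), (nat_lit 7743985)]) (FT.cons (FT.leaf [(nat_lit 6700332), (nat_lit 6866836), (nat_lit 7034235), (nat_lit 7202069), (nat_lit 7369964), (nat_lit 7537614), (nat_lit 7704766)]) (FT.cons (FT.leaf [(nat_lit 6999839), (nat_lit 7166299), (nat_lit 7333077), (nat_lit 7499820), (nat_lit 7666240)]) (FT.cons (FT.leaf [(nat_lit 7297247), (nat_lit 7462929), (nat_lit 7628491), (nat_lit 7793662)]) (FT.cons (FT.leaf [(nat_lit 7591618), (nat_lit 7755975)]) (FT.cons (FT.leaf [(nat_lit 7882269)]) FT.nil)))))))) (FT.cons (FT.cons (FT.leaf [(nat_lit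 6290252), (nat_lit 6452236), (nat_lit 6616706), (nat_lit 6782882), (nat_lit 6950148), (nat_lit 7118011), (nat_lit 7286071), (nat_lit 7453999)]) (FT.cons (FT.leaf [(nat_lit 6586746), (nat_lit 6750712), (nat_lit 6916188), (nat_lit 7082593), (nat_lit 7249465), (nat_lit 7416425), (nat_lit 7583167)]) (FT.cons (FT.leaf [(nat_lit 6883769), (nat_lit 7048469), (nat_lit 7213955), (nat_lit 7379789), (nat_lit 7545616)]) (FT.cons (FT.leaf [(nat_lit 7179700), (nat_lit 7344215), (nat_lit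
 7508971), (nat_lit 7673635)]) (FT.cons (FT.leaf [(nat_lit 7473356), (nat_lit 7637003)]) (FT.cons (FT.leaf [(nat_lit 7763877)]) FT.nil)))))) (FT.cons (FT.cons (FT.leaf [(nat_lit 6770837), (nat_lit 6933159), (nat_lit 7096855), (nat_lit 7261371), (nat_lit 7426265), (nat_lit 7591182)]) (FT.cons (FT.leaf [(nat_lit 7064507), (nat_lit 7227383), (nat_lit 7390947), (nat_lit 7554783), (nat_lit 7718555)]) (FT.cons (FT.leaf [(nat_lit 7356849), (nat_lit 7519418), (nat_lit 7682164), (nat_lit 7844766)]) (FT.cons (FT.leaf [(nat_lit 7646774), (nat_lit 7808400)]) (FT.cons (FT.leaf [(nat_lit 7933491)]) FT.nil))))) (FT.cons (FT.cons (FT.leaf [(nat_lit 7242573), (nat_lit 7403611), (nat_lit 7565254), (nat_lit 7727102), (nat_lit 7888837)]) (FT.cons (FT.leaf [(nat_lit 7531329), (nat_lit 7691958), (nat_lit 7852706), (nat_lit 8013270)]) (FT.cons (FT.leaf [(nat_lit 7817553), (nat_lit 7977177)]) FT.nil))) (FT.cons (FT.cons (FT.leaf [(nat_lit 7703184)]) (FT.cons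 (FT.leaf [(nat_lit 7985744)]) FT.nil)) (FT.cons (FT.cons (FT.leaf [(nat_lit 8151402)]) FT.nil) (FT.cons (FT.cons (FT.leaf [(nat_lit 8586619)]) FT.nil) FT.nil))))))))) (FT.cons (FT.cons (FT.cons (FT.leaf [(nat_lit 5655299), (nat_lit 5805310), (nat_lit
 5961460), (nat_lit 6122139), (nat_lit 6286148), (nat_lit 6452564), (nat_lit 6620655), (nat_lit 6789831), (nat_lit 6959611), (nat_lit 7129599), (nat_lit 7299467), (nat_lit 7468941), (nat_lit 7637793)]) (FT.cons (FT.leaf [(nat_lit 5940028), (nat_lit 6096781), (nat_lit 6257666), (nat_lit 6421557), (nat_lit 6587589), (nat_lit 6755078), (nat_lit 6923473), (nat_lit 7092323), (nat_lit 7261260), (nat_lit 7429978), (nat_lit 7598220), (nat_lit 7765778)]) (FT.cons (FT.leaf [(nat_lit 6231655), (nat_lit 6392570), (nat_lit 6556201), (nat_lit 6721737), (nat_lit 6888532), (nat_lit 7056072), (nat_lit 7223936), (nat_lit 7391778), (nat_lit 7559311), (nat_lit 7726300)]) (FT.cons (FT.leaf [(nat_lit 6526768),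 (nat_lit 6690017), (nat_lit 6854956), (nat_lit 7020979), (nat_lit 7187602), (nat_lit 7354430), (nat_lit 7521140), (nat_lit 7687463), (nat_lit 7853179)]) (FT.cons (FT.leaf [(nat_lit 6822950), (nat_lit 6987206), (nat_lit 7152388), (nat_lit 7318041), (nat_lit 7483792), (nat_lit 7649338), (nat_lit 7814430)]) (FT.cons (FT.leaf [(nat_lit 7118452), (nat_lit 7282735), (nat_lit 7447371), (nat_lit 7612011), (nat_lit 7776369)]) (FT.cons (FT.leaf [(nat_lit 7412000), (nat_lit 7575580), (nat_lit 7739080),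
 (nat_lit 7902228)]) (FT.cons (FT.leaf [(nat_lit 7702659), (nat_lit 7864994)]) (FT.cons (FT.leaf [(nat_lit 7989753)]) FT.nil))))))))) (FT.cons (FT.cons (FT.leaf [(nat_lit 6129133), (nat_lit 6285053), (nat_lit 6444822), (nat_lit 6607363), (nat_lit 6771851), (nat_lit 6937636), (nat_lit 7104197), (nat_lit 7271112), (nat_lit 7438031), (nat_lit 7604668), (nat_lit 7770785)]) (FT.cons (FT.leaf [(nat_lit 6418578), (nat_lit 6578249), (nat_lit 6740429), (nat_lit 6904340), (nat_lit 7069372), (nat_lit 7235034), (nat_lit 7400930), (nat_lit 7566735), (nat_lit 7732179), (nat_lit 7897040)]) (FT.cons (FT.leaf [(nat_lit 6710913), (nat_lit 6872624), (nat_lit 7035873), (nat_lit 7200083), (nat_lit 7364793), (nat_lit 7529631), (nat_lit 7694290), (nat_lit 7858518), (nat_lit 8022108)]) (FT.cons (FT.leaf [(nat_lit 7003905), (nat_lit 7166415), (nat_lit 7329744), (nat_lit 7493456), (nat_lit 7657200), (nat_lit 7820688), (nat_lit 7983684)]) (FT.cons (FT.leaf [(nat_lit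 7295940), (nat_lit 7458337), (nat_lit 7621012), (nat_lit 7783632), (nat_lit 7945929)]) (FT.cons (FT.leaf [(nat_lit 7585845), (nat_lit 7747450), (nat_lit 7908924), (nat_lit 8070012)]) (FT.cons (FT.leaf [(nat_lit 7872765), (nat_lit 8033073)])
 (FT.cons (FT.leaf [(nat_lit 8156079)]) FT.nil)))))))) (FT.cons (FT.cons (FT.leaf [(nat_lit 6603046), (nat_lit 6761388), (nat_lit 6922053), (nat_lit 7084297), (nat_lit 7247538), (nat_lit 7411311), (nat_lit 7575241), (nat_lit 7739018)]) (FT.cons (FT.leaf [(nat_lit 6892489), (nat_lit 7052613), (nat_lit 7214140), (nat_lit 7376520), (nat_lit 7539313), (nat_lit 7702167), (nat_lit 7864791)]) (FT.cons (FT.leaf [(nat_lit 7182234), (nat_lit 7342978), (nat_lit 7504445), (nat_lit 7666220), (nat_lit 7827969)]) (FT.cons (FT.leaf [(nat_lit 7470789), (nat_lit 7631300), (nat_lit 7792023), (nat_lit 7952642)]) (FT.cons (FT.leaf [(nat_lit 7757072), (nat_lit 7916715)]) (FT.cons (FT.leaf [(nat_lit 8040294)]) FT.nil))))))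 (FT.cons (FT.cons (FT.leaf [(nat_lit 7071501), (nat_lit 7230003), (nat_lit 7389787), (nat_lit 7550328), (nat_lit 7711207), (nat_lit 7872089)]) (FT.cons (FT.leaf [(nat_lit 7357964), (nat_lit 7516930), (nat_lit 7676534), (nat_lit 7836380), (nat_lit 7996150)]) (FT.cons (FT.leaf [(nat_lit 7643041), (nat_lit 7801670), (nat_lit 7960454), (nat_lit 8119092)]) (FT.cons (FT.leaf [(nat_lit 7925729), (nat_lit 8083428)]) (FT.cons (FT.leaf [(nat_lit 8205300)]) FT.nil))))) (FT.cons (FT.cons (FT.leaf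
 [(nat_lit 7531128), (nat_lit 7688310), (nat_lit 7846055), (nat_lit 8003986), (nat_lit 8161798)]) (FT.cons (FT.leaf [(nat_lit 7812739), (nat_lit 7969497), (nat_lit 8126360), (nat_lit 8283040)]) (FT.cons (FT.leaf [(nat_lit 8091868), (nat_lit 8247643)]) FT.nil))) (FT.cons (FT.cons (FT.leaf [(nat_lit 7979929)]) (FT.cons (FT.leaf [(nat_lit 8255538)]) FT.nil)) (FT.cons (FT.cons (FT.leaf [(nat_lit 8416795)]) FT.nil) (FT.cons (FT.cons (FT.leaf [(nat_lit 8841202)]) FT.nil) FT.nil)))))))) (FT.cons (FT.cons (FT.cons (FT.leaf [(nat_lit 6443883), (nat_lit 6596576), (nat_lit 6752886), (nat_lit 6911782), (nat_lit 7072481), (nat_lit 7234368), (nat_lit 7396951), (nat_lit 7559834), (nat_lit 7722692), (nat_lit 7885254)]) (FT.cons (FT.leaf [(nat_lit 6726874), (nat_lit 6883013), (nat_lit 7041499), (nat_lit 7201592), (nat_lit 7362713), (nat_lit 7524401), (nat_lit 7686282), (nat_lit 7848050), (nat_lit 8009453)]) (FT.cons (FT.leaf [(nat_lit 7012364), (nat_lit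 7170345), (nat_lit 7329758), (nat_lit 7490055), (nat_lit 7650802), (nat_lit 7811645), (nat_lit 7972298)]) (FT.cons (FT.leaf [(nat_lit 7298284), (nat_lit 7456952), (nat_lit 7616374), (nat_lit 7776140), (nat_lit 7935917)]) (FT.cons (FT.leaf [(nat_lit
 7583151), (nat_lit 7741654), (nat_lit 7900406), (nat_lit 8059092)]) (FT.cons (FT.leaf [(nat_lit 7865884), (nat_lit 8023594)]) (FT.cons (FT.leaf [(nat_lit 8145700)]) FT.nil))))))) (FT.cons (FT.cons (FT.leaf [(nat_lit 6906387), (nat_lit 7061183), (nat_lit 7218162), (nat_lit 7376614), (nat_lit 7535985), (nat_lit 7695838), (nat_lit 7855816), (nat_lit 8015629)]) (FT.cons (FT.leaf [(nat_lit 7189001), (nat_lit 7345415), (nat_lit 7503142), (nat_lit 7661658), (nat_lit 7820548), (nat_lit 7979476), (nat_lit 8138171)]) (FT.cons (FT.leaf [(nat_lit 7471743), (nat_lit 7628689), (nat_lit 7786305), (nat_lit 7944198), (nat_lit 8102053)]) (FT.cons (FT.leaf [(nat_lit 7753235), (nat_lit 7909914), (nat_lit 8066783),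 (nat_lit 8223542)]) (FT.cons (FT.leaf [(nat_lit 8032476), (nat_lit 8188298)]) (FT.cons (FT.leaf [(nat_lit 8308741)]) FT.nil)))))) (FT.cons (FT.cons (FT.leaf [(nat_lit 7363160), (nat_lit 7517982), (nat_lit 7674010), (nat_lit 7830743), (nat_lit 7987783), (nat_lit 8144812)]) (FT.cons (FT.leaf [(nat_lit 7642705), (nat_lit 7797922), (nat_lit 7953736), (nat_lit 8109769), (nat_lit 8265720)]) (FT.cons (FT.leaf [(nat_lit 7920833), (nat_lit 8075695), (nat_lit 8230698), (nat_lit 8385554)]) (FT.cons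
 (FT.leaf [(nat_lit 8196615), (nat_lit 8350567)]) (FT.cons (FT.leaf [(nat_lit 8469377)]) FT.nil))))) (FT.cons (FT.cons (FT.leaf [(nat_lit 7811205), (nat_lit 7964694), (nat_lit 8118714)]) (FT.cons (FT.leaf [(nat_lit 8085989), (nat_lit 8239047)]) (FT.cons (FT.leaf [(nat_lit 8358350)]) FT.nil))) (FT.cons (FT.cons (FT.leaf [(nat_lit 8248747)]) (FT.cons (FT.leaf [(nat_lit 8517730)]) FT.nil)) (FT.cons (FT.cons (FT.leaf [(nat_lit 8674809)]) FT.nil) FT.nil)))))) (FT.cons (FT.cons (FT.cons (FT.leaf [(nat_lit 7200742), (nat_lit 7352097), (nat_lit 7505515), (nat_lit 7660315), (nat_lit 7815972), (nat_lit 7972068), (nat_lit 8128267), (nat_lit 8284295)]) (FT.cons (FT.leaf [(nat_lit 7476758), (nat_lit 7629598), (nat_lit 7783673), (nat_lit 7938485), (nat_lit 8093639), (nat_lit 8248817), (nat_lit 8403761)]) (FT.cons (FT.leaf [(nat_lit 7752774), (nat_lit 7906075), (nat_lit 8060004), (nat_lit 8214187), (nat_lit 8368323)]) (FT.cons (FT.leaf [(nat_lit 8027506),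 (nat_lit 8180519), (nat_lit 8333706), (nat_lit 8486783)]) (FT.cons (FT.leaf [(nat_lit 8300024), (nat_lit 8452196)]) (FT.cons (FT.leaf [(nat_lit 8569656)]) FT.nil)))))) (FT.cons (FT.cons (FT.leaf [(nat_lit 7646286), (nat_lit 7797570), (nat_lit
 7949994), (nat_lit 8103080), (nat_lit 8256449), (nat_lit 8409798)]) (FT.cons (FT.leaf [(nat_lit 7919196), (nat_lit 8070821), (nat_lit 8223009), (nat_lit 8375400), (nat_lit 8527707)]) (FT.cons (FT.leaf [(nat_lit 8190680), (nat_lit 8341941), (nat_lit 8493333), (nat_lit 8644582)]) (FT.cons (FT.leaf [(nat_lit 8459872), (nat_lit 8610247)]) (FT.cons (FT.leaf [(nat_lit 8726144)]) FT.nil))))) (FT.cons (FT.cons (FT.leaf [(nat_lit 8083258), (nat_lit 8233212), (nat_lit 8383670)]) (FT.cons (FT.leaf [(nat_lit 8351519), (nat_lit 8501043)]) (FT.cons (FT.leaf [(nat_lit 8617424)]) FT.nil))) (FT.cons (FT.cons (FT.leaf [(nat_lit 8510067)]) (FT.cons (FT.leaf [(nat_lit 8772730)]) FT.nil)) (FT.cons (FT.cons (FT.leaf [(nat_lit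 8925839)]) FT.nil) FT.nil))))) (FT.cons (FT.cons (FT.cons (FT.leaf [(nat_lit 7921330), (nat_lit 8069209), (nat_lit 8218177), (nat_lit 8367772), (nat_lit 8517631)]) (FT.cons (FT.leaf [(nat_lit 8187876), (nat_lit 8336061), (nat_lit 8484780), (nat_lit 8633690)]) (FT.cons (FT.leaf [(nat_lit 8453007), (nat_lit 8600826)]) (FT.cons (FT.leaf [(nat_lit 8715907)]) FT.nil)))) (FT.cons (FT.cons (FT.leaf [(nat_lit 8347714), (nat_lit 8494285), (nat_lit 8641337)]) (FT.cons (FT.leaf [(nat_lit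
 8609741), (nat_lit 8755888)]) (FT.cons (FT.leaf [(nat_lit 8869484)]) FT.nil))) (FT.cons (FT.cons (FT.leaf [(nat_lit 8764286)]) (FT.cons (FT.leaf [(nat_lit 9020917)]) FT.nil)) FT.nil))) (FT.cons (FT.cons (FT.cons (FT.leaf [(nat_lit 8604970)]) FT.nil) (FT.cons (FT.cons (FT.leaf [(nat_lit 9011773)]) FT.nil) FT.nil)) (FT.cons (FT.cons (FT.cons (FT.leaf [(nat_lit 9252871)]) FT.nil) FT.nil) (FT.cons (FT.cons (FT.cons (FT.leaf [(nat_lit 9867055)]) FT.nil) FT.nil) (FT.cons (FT.cons (FT.cons (FT.leaf [(nat_lit 10449854)]) FT.nil) FT.nil) FT.nil))))))))) (FT.cons (FT.cons (FT.cons (FT.cons (FT.leaf [(nat_lit 6555914), (nat_lit 6693230), (nat_lit 6836155), (nat_lit 6983245), (nat_lit 7133434), (nat_lit 7285901), (nat_lit 7440000), (nat_lit 7595211), (nat_lit 7751105), (nat_lit 7907335), (nat_lit 8063606)]) (FT.cons (FT.leaf [(nat_lit 6816092), (nat_lit 6959608), (nat_lit 7106948), (nat_lit 7257109), (nat_lit 7409321), (nat_lit 7562978), (nat_lit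 7717589), (nat_lit 7872757), (nat_lit 8028153), (nat_lit 8183503)]) (FT.cons (FT.leaf [(nat_lit 7082721), (nat_lit 7230163), (nat_lit 7380177), (nat_lit 7532037), (nat_lit 7685172), (nat_lit 7839122), (nat_lit 7993513), (nat_lit 8148037), (nat_lit
 8302437)]) (FT.cons (FT.leaf [(nat_lit 7352820), (nat_lit 7502582), (nat_lit 7654005), (nat_lit 7806551), (nat_lit 7959786), (nat_lit 8113357), (nat_lit 8266974)]) (FT.cons (FT.leaf [(nat_lit 7624279), (nat_lit 7775192), (nat_lit 7927089), (nat_lit 8079560), (nat_lit 8232274)]) (FT.cons (FT.leaf [(nat_lit 7895567), (nat_lit 8046762), (nat_lit 8198429), (nat_lit 8350253)]) (FT.cons (FT.leaf [(nat_lit 8165552), (nat_lit 8316379)]) (FT.cons (FT.leaf [(nat_lit 8433402)]) (FT.cons (FT.leaf [(nat_lit 8698495)]) FT.nil))))))))) (FT.cons (FT.cons (FT.leaf [(nat_lit 6988006), (nat_lit 7130884), (nat_lit 7277349), (nat_lit 7426436), (nat_lit 7577410), (nat_lit 7729692), (nat_lit 7882818), (nat_lit 8036411),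 (nat_lit 8190158), (nat_lit 8343803)]) (FT.cons (FT.leaf [(nat_lit 7252903), (nat_lit 7399363), (nat_lit 7548218), (nat_lit 7698772), (nat_lit 7850481), (nat_lit 8002906), (nat_lit 8155693), (nat_lit 8308548), (nat_lit 8461229)]) (FT.cons (FT.leaf [(nat_lit 7520772), (nat_lit 7669302), (nat_lit 7819362), (nat_lit 7970438), (nat_lit 8122114), (nat_lit 8274058), (nat_lit 8425992)]) (FT.cons (FT.leaf [(nat_lit 7789650), (nat_lit 7939151), (nat_lit 8089540), (nat_lit 8240428), (nat_lit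
 8391496)]) (FT.cons (FT.leaf [(nat_lit 8058113), (nat_lit 8207771), (nat_lit 8357833), (nat_lit 8507997)]) (FT.cons (FT.leaf [(nat_lit 8325115), (nat_lit 8474320)]) (FT.cons (FT.leaf [(nat_lit 8589881)]) (FT.cons (FT.leaf [(nat_lit 8851840)]) FT.nil)))))))) (FT.cons (FT.cons (FT.leaf [(nat_lit 7421080), (nat_lit 7566486), (nat_lit 7714127), (nat_lit 7863337), (nat_lit 8013594), (nat_lit 8164480), (nat_lit 8315657), (nat_lit 8466847)]) (FT.cons (FT.leaf [(nat_lit 7686621), (nat_lit 7833876), (nat_lit 7982544), (nat_lit 8132130), (nat_lit 8282241), (nat_lit 8432556), (nat_lit 8582814)]) (FT.cons (FT.leaf [(nat_lit 7952866), (nat_lit 8100933), (nat_lit 8249804), (nat_lit 8399104), (nat_lit 8548530)]) (FT.cons (FT.leaf [(nat_lit 8218486), (nat_lit 8366601), (nat_lit 8515059), (nat_lit 8663572)]) (FT.cons (FT.leaf [(nat_lit 8482510), (nat_lit 8630098)]) (FT.cons (FT.leaf [(nat_lit 8744218)]) FT.nil)))))) (FT.cons (FT.cons (FT.leaf [(nat_lit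 7850369), (nat_lit 7996314), (nat_lit 8143568), (nat_lit 8291654), (nat_lit 8440196), (nat_lit 8588888)]) (FT.cons (FT.leaf [(nat_lit 8113943), (nat_lit 8260562), (nat_lit 8407908), (nat_lit 8555622), (nat_lit 8703416)]) (FT.cons (FT.leaf [(nat_lit
 8376713), (nat_lit 8523284), (nat_lit 8670144), (nat_lit 8817018)]) (FT.cons (FT.leaf [(nat_lit 8637772), (nat_lit 8783754)]) (FT.cons (FT.leaf [(nat_lit 8896450)]) FT.nil))))) (FT.cons (FT.cons (FT.leaf [(nat_lit 8272903), (nat_lit 8418064), (nat_lit 8563884)]) (FT.cons (FT.leaf [(nat_lit 8532823), (nat_lit 8677853)]) (FT.cons (FT.leaf [(nat_lit 8790937)]) FT.nil))) (FT.cons (FT.cons (FT.leaf [(nat_lit 8686849)]) (FT.cons (FT.leaf [(nat_lit 8942042)]) FT.nil)) (FT.cons (FT.cons (FT.leaf [(nat_lit 9091127)]) FT.nil) FT.nil))))))) (FT.cons (FT.cons (FT.cons (FT.leaf [(nat_lit 7273164), (nat_lit 7413421), (nat_lit 7557071), (nat_lit 7703187), (nat_lit 7851064), (nat_lit 8000153), (nat_lit 8150012),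 (nat_lit 8300286), (nat_lit 8450681), (nat_lit 8600954)]) (FT.cons (FT.leaf [(nat_lit 7532806), (nat_lit 7676388), (nat_lit 7822226), (nat_lit 7969655), (nat_lit 8118155), (nat_lit 8267311), (nat_lit 8416785), (nat_lit 8566301), (nat_lit 8715631)]) (FT.cons (FT.leaf [(nat_lit 7795085), (nat_lit 7940564), (nat_lit 8087480), (nat_lit 8235338), (nat_lit 8383747), (nat_lit 8532389), (nat_lit 8681003)]) (FT.cons (FT.leaf [(nat_lit 8058168), (nat_lit 8204512), (nat_lit 8351683), (nat_lit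
 8499311), (nat_lit 8647092)]) (FT.cons (FT.leaf [(nat_lit 8320732), (nat_lit 8467176), (nat_lit 8613990), (nat_lit 8760888)]) (FT.cons (FT.leaf [(nat_lit 8581804), (nat_lit 8727778)]) (FT.cons (FT.leaf [(nat_lit 8840669)]) FT.nil))))))) (FT.cons (FT.cons (FT.leaf [(nat_lit 7696936), (nat_lit 7839446), (nat_lit 7984070), (nat_lit 8130168), (nat_lit 8277241), (nat_lit 8424891), (nat_lit 8572798), (nat_lit 8720700)]) (FT.cons (FT.leaf [(nat_lit 7956888), (nat_lit 8101100), (nat_lit 8246643), (nat_lit 8393044), (nat_lit 8539928), (nat_lit 8686988), (nat_lit 8833979)]) (FT.cons (FT.leaf [(nat_lit 8217379), (nat_lit 8362316), (nat_lit 8508005), (nat_lit 8654090), (nat_lit 8800280)]) (FT.cons (FT.leaf [(nat_lit 8477170), (nat_lit 8622112), (nat_lit 8767370), (nat_lit 8912670)]) (FT.cons (FT.leaf [(nat_lit 8735354), (nat_lit 8879763)]) (FT.cons (FT.leaf [(nat_lit 8991265)]) FT.nil)))))) (FT.cons (FT.cons (FT.leaf [(nat_lit 8116650), (nat_lit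 8259569), (nat_lit 8403725), (nat_lit 8548661), (nat_lit 8694020), (nat_lit 8839507)]) (FT.cons (FT.leaf [(nat_lit 8374523), (nat_lit 8518045), (nat_lit 8662250), (nat_lit 8806796), (nat_lit 8951407)]) (FT.cons (FT.leaf [(nat_lit 8631541), (nat_lit
 8774984), (nat_lit 8918694), (nat_lit 9062410)]) (FT.cons (FT.leaf [(nat_lit 8886856), (nat_lit 9029711)]) (FT.cons (FT.leaf [(nat_lit 9139844)]) FT.nil))))) (FT.cons (FT.cons (FT.leaf [(nat_lit 8529626), (nat_lit 8671726), (nat_lit 8814449)]) (FT.cons (FT.leaf [(nat_lit 8783877), (nat_lit 8925826)]) (FT.cons (FT.leaf [(nat_lit 9036345)]) FT.nil))) (FT.cons (FT.cons (FT.leaf [(nat_lit 8934212)]) (FT.cons (FT.leaf [(nat_lit 9183859)]) FT.nil)) (FT.cons (FT.cons (FT.leaf [(nat_lit 9329435)]) FT.nil) FT.nil)))))) (FT.cons (FT.cons (FT.cons (FT.leaf [(nat_lit 7965457), (nat_lit 8105141), (nat_lit 8246835), (nat_lit 8389919), (nat_lit 8533918), (nat_lit 8678452), (nat_lit 8823215), (nat_lit 8967957)])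 (FT.cons (FT.leaf [(nat_lit 8219980), (nat_lit 8361245), (nat_lit 8503768), (nat_lit 8647098), (nat_lit 8790874), (nat_lit 8934808), (nat_lit 9078663)]) (FT.cons (FT.leaf [(nat_lit 8474914), (nat_lit 8616831), (nat_lit 8759456), (nat_lit 8902448), (nat_lit 9045532)]) (FT.cons (FT.leaf [(nat_lit 8729093), (nat_lit 8870983), (nat_lit 9013167), (nat_lit 9155383)]) (FT.cons (FT.leaf [(nat_lit 8981671), (nat_lit 9123026)]) (FT.cons (FT.leaf [(nat_lit 9232023)]) FT.nil)))))) (FT.cons (FT.cons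
 (FT.leaf [(nat_lit 8375918), (nat_lit 8515910), (nat_lit 8657076), (nat_lit 8798980), (nat_lit 8941276), (nat_lit 9083687)]) (FT.cons (FT.leaf [(nat_lit 8628292), (nat_lit 8768829), (nat_lit 8910012), (nat_lit 9051513), (nat_lit 9193069)]) (FT.cons (FT.leaf [(nat_lit 8879779), (nat_lit 9020214), (nat_lit 9160900), (nat_lit 9301586)]) (FT.cons (FT.leaf [(nat_lit 9129581), (nat_lit 9269435)]) (FT.cons (FT.leaf [(nat_lit 9377115)]) FT.nil))))) (FT.cons (FT.cons (FT.leaf [(nat_lit 8779703), (nat_lit 8918857), (nat_lit 9058602)]) (FT.cons (FT.leaf [(nat_lit 9028508), (nat_lit 9167496)]) (FT.cons (FT.leaf [(nat_lit 9275560)]) FT.nil))) (FT.cons (FT.cons (FT.leaf [(nat_lit 9175314)]) (FT.cons (FT.leaf [(nat_lit 9419644)]) FT.nil)) (FT.cons (FT.cons (FT.leaf [(nat_lit 9561868)]) FT.nil) FT.nil))))) (FT.cons (FT.cons (FT.cons (FT.leaf [(nat_lit 8628496), (nat_lit 8765662), (nat_lit 8903946), (nat_lit 9042930), (nat_lit 9182282)]) (FT.cons (FT.leaf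 [(nat_lit 8875574), (nat_lit 9013235), (nat_lit 9151511), (nat_lit 9290087)]) (FT.cons (FT.leaf [(nat_lit 9121742), (nat_lit 9259287)]) (FT.cons (FT.leaf [(nat_lit 9366253)]) FT.nil)))) (FT.cons (FT.cons (FT.leaf [(nat_lit 9023451), (nat_lit
 9159769), (nat_lit 9296652)]) (FT.cons (FT.leaf [(nat_lit 9267023), (nat_lit 9403166)]) (FT.cons (FT.leaf [(nat_lit 9508878)]) FT.nil))) (FT.cons (FT.cons (FT.leaf [(nat_lit 9410455)]) (FT.cons (FT.leaf [(nat_lit 9649683)]) FT.nil)) FT.nil))) (FT.cons (FT.cons (FT.cons (FT.leaf [(nat_lit 9261167)]) FT.nil) (FT.cons (FT.cons (FT.leaf [(nat_lit 9639915)]) FT.nil) FT.nil)) (FT.cons (FT.cons (FT.cons (FT.leaf [(nat_lit 9863954)]) FT.nil) FT.nil) (FT.cons (FT.cons (FT.cons (FT.leaf [(nat_lit 10438145)]) FT.nil) FT.nil) (FT.cons (FT.cons (FT.cons (FT.leaf [(nat_lit 10985383)]) FT.nil) FT.nil) FT.nil)))))))) (FT.cons (FT.cons (FT.cons (FT.cons (FT.leaf [(nat_lit 8022082), (nat_lit 8152177), (nat_lit 8285467),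 (nat_lit 8421101), (nat_lit 8558438), (nat_lit 8696980), (nat_lit 8836329), (nat_lit 8976158), (nat_lit 9116201), (nat_lit 9256239)]) (FT.cons (FT.leaf [(nat_lit 8262646), (nat_lit 8395933), (nat_lit 8531378), (nat_lit 8668375), (nat_lit 8806452), (nat_lit 8945231), (nat_lit 9084406), (nat_lit 9223724), (nat_lit 9362978)]) (FT.cons (FT.leaf [(nat_lit 8505890), (nat_lit 8641074), (nat_lit 8777673), (nat_lit 8915238), (nat_lit 9053410), (nat_lit 9191901), (nat_lit 9330471)]) (FT.cons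
 (FT.leaf [(nat_lit 8750161), (nat_lit 8886310), (nat_lit 9023321), (nat_lit 9160854), (nat_lit 9298635)]) (FT.cons (FT.leaf [(nat_lit 8994266), (nat_lit 9130688), (nat_lit 9267553), (nat_lit 9404601)]) (FT.cons (FT.leaf [(nat_lit 9237327), (nat_lit 9373499)]) (FT.cons (FT.leaf [(nat_lit 9478685)]) FT.nil))))))) (FT.cons (FT.cons (FT.leaf [(nat_lit 8414208), (nat_lit 8546615), (nat_lit 8681055), (nat_lit 8816944), (nat_lit 8953828), (nat_lit 9091344), (nat_lit 9229200), (nat_lit 9367154)]) (FT.cons (FT.leaf [(nat_lit 8655519), (nat_lit 8789651), (nat_lit 8925105), (nat_lit 9061449), (nat_lit 9198338), (nat_lit 9335494), (nat_lit 9472691)]) (FT.cons (FT.leaf [(nat_lit 8897621), (nat_lit 9032594), (nat_lit 9168360), (nat_lit 9304594), (nat_lit 9441029)]) (FT.cons (FT.leaf [(nat_lit 9139395), (nat_lit 9274552), (nat_lit 9410104), (nat_lit 9545798)]) (FT.cons (FT.leaf [(nat_lit 9380014), (nat_lit 9514863)]) (FT.cons (FT.leaf [(nat_lit 9618865)])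 FT.nil)))))) (FT.cons (FT.cons (FT.leaf [(nat_lit 8803426), (nat_lit 8936482), (nat_lit 9070775), (nat_lit 9205889), (nat_lit 9341492)]) (FT.cons (FT.leaf [(nat_lit 9043334), (nat_lit 9177119), (nat_lit 9311636), (nat_lit 9446570)]) (FT.cons
 (FT.leaf [(nat_lit 9282771), (nat_lit 9416662)]) (FT.cons (FT.leaf [(nat_lit 9520959)]) (FT.cons (FT.leaf [(nat_lit 9757322)]) FT.nil))))) (FT.cons (FT.cons (FT.leaf [(nat_lit 9187317), (nat_lit 9319906), (nat_lit 9453172)]) (FT.cons (FT.leaf [(nat_lit 9424415), (nat_lit 9557043)]) (FT.cons (FT.leaf [(nat_lit 9660186)]) FT.nil))) (FT.cons (FT.cons (FT.leaf [(nat_lit 9564354)]) (FT.cons (FT.leaf [(nat_lit 9797723)]) FT.nil)) (FT.cons (FT.cons (FT.leaf [(nat_lit 9933600)]) FT.nil) FT.nil)))))) (FT.cons (FT.cons (FT.cons (FT.leaf [(nat_lit 8661610), (nat_lit 8791645), (nat_lit 8923616), (nat_lit 9056962), (nat_lit 9191245), (nat_lit 9326119)]) (FT.cons (FT.leaf [(nat_lit 8898352), (nat_lit 9029998),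 (nat_lit 9162899), (nat_lit 9296641), (nat_lit 9430892)]) (FT.cons (FT.leaf [(nat_lit 9135760), (nat_lit 9268175), (nat_lit 9401342), (nat_lit 9534946)]) (FT.cons (FT.leaf [(nat_lit 9372776), (nat_lit 9505339)]) (FT.cons (FT.leaf [(nat_lit 9608625)]) (FT.cons (FT.leaf [(nat_lit 9842729)]) FT.nil)))))) (FT.cons (FT.cons (FT.leaf [(nat_lit 9043030), (nat_lit 9173612), (nat_lit 9305372), (nat_lit 9437910), (nat_lit 9570908)]) (FT.cons (FT.leaf [(nat_lit 9278283), (nat_lit 9409534), (nat_lit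
 9541481), (nat_lit 9673820)]) (FT.cons (FT.leaf [(nat_lit 9513019), (nat_lit 9644349)]) (FT.cons (FT.leaf [(nat_lit 9746506)]) (FT.cons (FT.leaf [(nat_lit 9978201)]) FT.nil))))) (FT.cons (FT.cons (FT.leaf [(nat_lit 9419131), (nat_lit 9549214), (nat_lit 9679942)]) (FT.cons (FT.leaf [(nat_lit 9651591), (nat_lit 9781691)]) (FT.cons (FT.leaf [(nat_lit 9882732)]) FT.nil))) (FT.cons (FT.cons (FT.leaf [(nat_lit 9788517)]) (FT.cons (FT.leaf [(nat_lit 10017330)]) FT.nil)) (FT.cons (FT.cons (FT.leaf [(nat_lit 10150326)]) FT.nil) FT.nil))))) (FT.cons (FT.cons (FT.cons (FT.leaf [(nat_lit 9276984), (nat_lit 9405166), (nat_lit 9534475), (nat_lit 9664522)]) (FT.cons (FT.leaf [(nat_lit 9507733), (nat_lit 9636534), (nat_lit 9765998)]) (FT.cons (FT.leaf [(nat_lit 9737931)]) FT.nil))) (FT.cons (FT.cons (FT.leaf [(nat_lit 9645568), (nat_lit 9773229)]) (FT.cons (FT.leaf [(nat_lit 9873552)]) FT.nil)) (FT.cons (FT.cons (FT.leaf [(nat_lit 10007584)]) FT.nil)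 FT.nil))) (FT.cons (FT.cons (FT.cons (FT.leaf [(nat_lit 9866858)]) FT.nil) (FT.cons (FT.cons (FT.leaf [(nat_lit 10221776)]) FT.nil) FT.nil)) (FT.cons (FT.cons (FT.cons (FT.leaf [(nat_lit 10431298)]) FT.nil) FT.nil) (FT.cons (FT.cons (FT.cons (FT.leaf
 [(nat_lit 10971110)]) FT.nil) FT.nil) FT.nil)))))) (FT.cons (FT.cons (FT.cons (FT.cons (FT.leaf [(nat_lit 9301545), (nat_lit 9423425), (nat_lit 9547168), (nat_lit 9672256), (nat_lit 9798286), (nat_lit 9924937)]) (FT.cons (FT.leaf [(nat_lit 9523261), (nat_lit 9646753), (nat_lit 9771482), (nat_lit 9897063), (nat_lit 10023193)]) (FT.cons (FT.leaf [(nat_lit 9745809), (nat_lit 9870141), (nat_lit 9995245), (nat_lit 10120830)]) (FT.cons (FT.leaf [(nat_lit 9968221), (nat_lit 10092821)]) FT.nil)))) (FT.cons (FT.cons (FT.leaf [(nat_lit 9658422), (nat_lit 9781007), (nat_lit 9904760), (nat_lit 10029308), (nat_lit 10154358)]) (FT.cons (FT.leaf [(nat_lit 9879123), (nat_lit 10002457), (nat_lit 10126512),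 (nat_lit 10251006)]) (FT.cons (FT.leaf [(nat_lit 10099572), (nat_lit 10223109)]) FT.nil))) (FT.cons (FT.cons (FT.leaf [(nat_lit 10010986), (nat_lit 10133318)]) (FT.cons (FT.leaf [(nat_lit 10229472)]) FT.nil)) (FT.cons (FT.cons (FT.leaf [(nat_lit 10357942)]) FT.nil) FT.nil)))) (FT.cons (FT.cons (FT.cons (FT.leaf [(nat_lit 9876630), (nat_lit 9997144), (nat_lit 10118776), (nat_lit 10241168)]) (FT.cons (FT.leaf [(nat_lit 10093439), (nat_lit 10214652), (nat_lit 10336553)]) (FT.cons (FT.leaf [(nat_lit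
 10309955)]) FT.nil))) (FT.cons (FT.cons (FT.leaf [(nat_lit 10222694), (nat_lit 10342925)]) (FT.cons (FT.leaf [(nat_lit 10437294)]) FT.nil)) (FT.cons (FT.cons (FT.leaf [(nat_lit 10563248)]) FT.nil) FT.nil))) (FT.cons (FT.cons (FT.cons (FT.leaf [(nat_lit 10429945)]) FT.nil) (FT.cons (FT.cons (FT.leaf [(nat_lit 10764311)]) FT.nil) FT.nil)) (FT.cons (FT.cons (FT.cons (FT.leaf [(nat_lit 10961296)]) FT.nil) FT.nil) FT.nil)))) (FT.cons (FT.cons (FT.cons (FT.cons (FT.leaf [(nat_lit 10434894), (nat_lit 10548766), (nat_lit 10663740)]) (FT.cons (FT.leaf [(nat_lit 10639627), (nat_lit 10754248)]) (FT.cons (FT.leaf [(nat_lit 10844257)]) FT.nil))) (FT.cons (FT.cons (FT.leaf [(nat_lit 10761450)]) (FT.cons (FT.leaf [(nat_lit 10964399)]) FT.nil)) (FT.cons (FT.cons (FT.leaf [(nat_lit 11083320)]) FT.nil) FT.nil))) (FT.cons (FT.cons (FT.cons (FT.leaf [(nat_lit 10956533)]) FT.nil) (FT.cons (FT.cons (FT.leaf [(nat_lit 11272948)]) FT.nil) FT.nil)) FT.nil)) (FT.cons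 (FT.cons (FT.cons (FT.cons (FT.leaf [(nat_lit 11451453)]) FT.nil) FT.nil) FT.nil) (FT.cons (FT.cons (FT.cons (FT.cons (FT.leaf [(nat_lit 12372792)]) FT.nil) FT.nil) FT.nil) FT.nil)))))))

end CB
end Pool.Agent.Lib.MP_6947cd_al
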