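import Pool.Agent.Lib.MP_6947cd_al.L.BoxDataB
import Pool.Agent.Lib.MP_6947cd_al.L.TeD5
import Pool.Agent.Lib.MP_6947cd_al.L.TeD6

/-!
Problem MP_6947cd_al (Chollet).  CASE B, rows `j`: boxes (generated).
-/

set_option autoImplicit false
set_option linter.defProp false
set_option maxRecDepth 20000

namespace Pool.Agent.Lib.MP_6947cd_al
namespace CB

open Ent Ent.Pk Fr Fr.WT CA

/-! box `yB13_15` -/

def P13_15 : BQ := ⟨(nat_lit 8), (nat_lit 8), (nat_lit 0), (nat_lit 4), (nat_lit 4), (nat_lit 840), (nat_lit 860), (nat_lit 120), [(nat_lit 200), (nat_lit 300), (nat_lit 450), (nat_lit 800)], (nat_lit 125376000), (nat_lit 16000000), (nat_lit 16000000000)⟩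
def q13_15 : PC := ⟨(nat_lit 1000), [(nat_lit 120000), (nat_lit 200000), (nat_lit 300000), (nat_lit 450000), (nat_lit 800000)], (nat_lit 340282367000166625996085689103316680705000000), (nat_lit 15874624000000), (nat_lit 15874624000000), (nat_lit 10000000)⟩
def r13_15 : List PC := [⟨(nat_lit 1332), [(nat_lit 120673), (nat_lit 201059), (nat_lit 301254), (nat_lit 451705), (nat_lit 801397)], (nat_lit 238197656924339698153684840915532135474875279), (nat_lit 16340134867200), (nat_lit 16351620367360), (nat_lit 10056084)⟩]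
def s13_15 : List PB := [⟨(nat_lit 26640), (nat_lit 1930768000000), [(nat_lit 201059), (nat_lit 301254), (nat_lit 451705), (nat_lit 801397)], (nat_lit 238197656924339698153684840915532135474875279), (nat_lit 1142240041709824), (nat_lit 1142251527209984), (nat_lit 53120)⟩]
def n13_15 : List KN := [⟨(nat_lit 800), (nat_lit 450), (nat_lit 12310016), (nat_lit 6124894)⟩, ⟨(nat_lit 450), (nat_lit 300), (nat_lit 18263511), (nat_lit 12310016)⟩, ⟨(nat_lit 300), (nat_lit 200), (nat_lit 24534081), (nat_lit 18263511)⟩, ⟨(nat_lit 200), (nat_lit 120), (nat_lit 36888796), (nat_lit 24534081)⟩]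
def w13_15 : List ℕ := [(nat_lit 53120)]
def par13_15 : parC yB13_15 P13_15 s13_15 r13_15 q13_15 n13_15 w13_15 = true := by decide +kernel

def p13_15_0 : PF := (PF.cons (PF.cons (PF.cons (PF.cons (PF.leaf (nat_lit 709824) (nat_lit 2154219) (nat_lit 64954593) (nat_lit 2154219) [(nat_lit 0), (nat_lit 0), (nat_lit 0), (nat_lit 0)]) (PF.cons (PF.leaf (nat_lit 884731) (nat_lit 283960) (nat_lit 64598253) (nat_lit 2226598) [(nat_lit 283960), (nat_lit 0), (nat_lit 0), (nat_lit 0)]) (PF.cons (PF.leaf (nat_lit 1097017) (nat_lit 315415) (nat_lit 64172887) (nat_lit 2305094) [(nat_lit 315415), (nat_lit 0), (nat_lit 0), (nat_lit 0)]) (PF.cons (PF.leaf (nat_lit 1341179) (nat_lit 345006) (nat_lit 63687634) (nat_lit 2386159) [(nat_lit 345006), (nat_lit 0), (nat_lit 0), (nat_lit 0)]) (PF.cons (PF.leaf (nat_lit 1614207) (nat_lit 373020) (nat_lit 63149260) (nat_lit 2467470) [(nat_lit 373020), (nat_lit 0), (nat_lit 0), (nat_lit 0)]) (PF.cons (PF.leaf (nat_lit 1913570) (nat_lit 399592) (nat_lit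 62563404) (nat_lit 2547444) [(nat_lit 399592), (nat_lit 0), (nat_lit 0), (nat_lit 0)]) (PF.cons (PF.leaf (nat_lit 2236944) (nat_lit 424788) (nat_lit 61935097) (nat_lit 2624982) [(nat_lit 424788), (nat_lit 0), (nat_lit 0), (nat_lit 0)]) (PF.cons (PF.leaf (nat_lit 2582127) (nat_lit 448642) (nat_lit 61268998) (nat_lit 2699314) [(nat_lit 448642), (nat_lit 0), (nat_lit 0),
 (nat_lit 0)]) (PF.cons (PF.leaf (nat_lit 2946995) (nat_lit 471175) (nat_lit 60569503) (nat_lit 2769905) [(nat_lit 471175), (nat_lit 0), (nat_lit 0), (nat_lit 0)]) (PF.cons (PF.leaf (nat_lit 3329478) (nat_lit 492402) (nat_lit 59840792) (nat_lit 2836395) [(nat_lit 492402), (nat_lit 0), (nat_lit 0), (nat_lit 0)]) (PF.cons (PF.leaf (nat_lit 3727635) (nat_lit 512341) (nat_lit 59086847) (nat_lit 2898551) [(nat_lit 512341), (nat_lit 0), (nat_lit 0), (nat_lit 0)]) (PF.cons PF.nil (PF.cons PF.nil (PF.cons PF.nil PF.nil)))))))))))))) (PF.cons (PF.cons (PF.leaf (nat_lit 1286363) (nat_lit 1242470) (nat_lit 63463459)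 (nat_lit 2402883) [(nat_lit 0), (nat_lit 1242470), (nat_lit 0), (nat_lit 0)]) (PF.cons (PF.leaf (nat_lit 1526503) (nat_lit 361961) (nat_lit 62974400) (nat_lit 2475096) [(nat_lit 361961), (nat_lit 1297354), (nat_lit 0), (nat_lit 0)]) (PF.cons (PF.leaf (nat_lit 1797372) (nat_lit 389035) (nat_lit 62430060) (nat_lit 2548442) [(nat_lit 389035), (nat_lit 1352239), (nat_lit 0), (nat_lit 0)]) (PF.cons (PF.leaf (nat_lit 2094900) (nat_lit 414605) (nat_lit 61837845) (nat_lit 2621105) [(nat_lit 414605), (nat_lit 1406046), (nat_lit 0), (nat_lit 0)]) (PF.cons (PF.leaf (nat_lit 2416357) (nat_lit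
 438779) (nat_lit 61203736) (nat_lit 2691858) [(nat_lit 438779), (nat_lit 1458099), (nat_lit 0), (nat_lit 0)]) (PF.cons (PF.leaf (nat_lit 2759321) (nat_lit 461614) (nat_lit 60532927) (nat_lit 2759856) [(nat_lit 461614), (nat_lit 1507958), (nat_lit 0), (nat_lit 0)]) (PF.cons (PF.leaf (nat_lit 3121532) (nat_lit 483142) (nat_lit 59830108) (nat_lit 2824515) [(nat_lit 483142), (nat_lit 1555333), (nat_lit 0), (nat_lit 0)]) (PF.cons (PF.leaf (nat_lit 3500952) (nat_lit 503389) (nat_lit 59099608) (nat_lit 2885438) [(nat_lit 503389), (nat_lit 1600038), (nat_lit 0), (nat_lit 0)]) (PF.cons (PF.leaf (nat_lit 3895520) (nat_lit 522376) (nat_lit 58345463) (nat_lit 2942369) [(nat_lit 522376), (nat_lit 1641964), (nat_lit 0), (nat_lit 0)]) (PF.cons (PF.leaf (nat_lit 4303373) (nat_lit 540128) (nat_lit 57571449) (nat_lit 2995157) [(nat_lit 540128), (nat_lit 1681052), (nat_lit 0), (nat_lit 0)]) (PF.cons PF.nil (PF.cons PF.nil PF.nil)))))))))))) (PF.cons (PF.cons (PF.leaf (nat_lit 1985445)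 (nat_lit 1402033) (nat_lit 61680848) (nat_lit 2623897) [(nat_lit 0), (nat_lit 1402033), (nat_lit 0), (nat_lit 0)]) (PF.cons (PF.leaf (nat_lit 2278308) (nat_lit 428109) (nat_lit 61088984) (nat_lit 2689432) [(nat_lit
 428109), (nat_lit 1451143), (nat_lit 0), (nat_lit 0)]) (PF.cons (PF.leaf (nat_lit 2596168) (nat_lit 451429) (nat_lit 60454340) (nat_lit 2753658) [(nat_lit 451429), (nat_lit 1498977), (nat_lit 0), (nat_lit 0)]) (PF.cons (PF.leaf (nat_lit 2935638) (nat_lit 473375) (nat_lit 59783121) (nat_lit 2815608) [(nat_lit 473375), (nat_lit 1544978), (nat_lit 0), (nat_lit 0)]) (PF.cons (PF.leaf (nat_lit 3294271) (nat_lit 494006) (nat_lit 59080581) (nat_lit 2874628) [(nat_lit 494006), (nat_lit 1588788), (nat_lit 0), (nat_lit 0)]) (PF.cons (PF.leaf (nat_lit 3669811) (nat_lit 513364) (nat_lit 58351359) (nat_lit 2930276) [(nat_lit 513364), (nat_lit 1630178), (nat_lit 0), (nat_lit 0)]) (PF.cons (PF.leaf (nat_lit 4060209) (nat_lit 531480) (nat_lit 57599652) (nat_lit 2982264)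 [(nat_lit 531480), (nat_lit 1669007), (nat_lit 0), (nat_lit 0)]) (PF.cons (PF.leaf (nat_lit 4463554) (nat_lit 548385) (nat_lit 56829299) (nat_lit 3030421) [(nat_lit 548385), (nat_lit 1705198), (nat_lit 0), (nat_lit 0)]) (PF.cons PF.nil (PF.cons PF.nil PF.nil)))))))))) (PF.cons (PF.cons (PF.leaf (nat_lit 2777984) (nat_lit 1537035) (nat_lit 59686878) (nat_lit 2810826) [(nat_lit 0), (nat_lit 1537035), (nat_lit 0), (nat_lit 0)])
 (PF.cons (PF.leaf (nat_lit 3112016) (nat_lit 483944) (nat_lit 59020009) (nat_lit 2866942) [(nat_lit 483944), (nat_lit 1579305), (nat_lit 0), (nat_lit 0)]) (PF.cons (PF.leaf (nat_lit 3465868) (nat_lit 503793) (nat_lit 58321574) (nat_lit 2920565) [(nat_lit 503793), (nat_lit 1619695), (nat_lit 0), (nat_lit 0)]) (PF.cons (PF.leaf (nat_lit 3836666) (nat_lit 522356) (nat_lit 57596791) (nat_lit 2971191) [(nat_lit 522356), (nat_lit 1657919), (nat_lit 0), (nat_lit 0)]) (PF.cons (PF.leaf (nat_lit 4222217) (nat_lit 539683) (nat_lit 56850178) (nat_lit 3018492)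 [(nat_lit 539683), (nat_lit 1693803), (nat_lit 0), (nat_lit 0)]) (PF.cons (PF.leaf (nat_lit 4620531) (nat_lit 555813) (nat_lit 56085742) (nat_lit 3062266) [(nat_lit 555813), (nat_lit 1727245), (nat_lit 0), (nat_lit 0)]) (PF.cons (PF.leaf (nat_lit 5029785) (nat_lit 570785) (nat_lit 55307091) (nat_lit 3102406) [(nat_lit 570785), (nat_lit 1758201), (nat_lit 0), (nat_lit 0)]) (PF.cons PF.nil (PF.cons PF.nil PF.nil))))))))) (PF.cons (PF.cons (PF.leaf (nat_lit 3637573) (nat_lit 1648244) (nat_lit 57553209) (nat_lit 2962626) [(nat_lit 0), (nat_lit 1648244), (nat_lit 0), (nat_lit 0)]) (PF.cons (PF.leaf (nat_lit 4002235) (nat_lit 530383) (nat_lit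
 56836270) (nat_lit 3008448) [(nat_lit 530383), (nat_lit 1683427), (nat_lit 0), (nat_lit 0)]) (PF.cons (PF.leaf (nat_lit 4382138) (nat_lit 547007) (nat_lit 56097519) (nat_lit 3051288) [(nat_lit 547007), (nat_lit 1716497), (nat_lit 0), (nat_lit 0)]) (PF.cons (PF.leaf (nat_lit 4774818) (nat_lit 562437) (nat_lit 55341292) (nat_lit 3090908) [(nat_lit 562437), (nat_lit 1747324), (nat_lit 0), (nat_lit 0)]) (PF.cons (PF.leaf (nat_lit 5178368) (nat_lit 576723) (nat_lit 54571370) (nat_lit 3127175) [(nat_lit 576723), (nat_lit 1775843), (nat_lit 0), (nat_lit 0)]) (PF.cons PF.nil (PF.cons PF.nil PF.nil))))))) (PF.cons (PF.cons (PF.leaf (nat_lit 4540962) (nat_lit 1737227) (nat_lit 55341800) (nat_lit 3080874) [(nat_lit 0), (nat_lit 1737227), (nat_lit 0), (nat_lit 0)]) (PF.cons (PF.leaf (nat_lit 4927010) (nat_lit 568274) (nat_lit 54596197) (nat_lit 3116547) [(nat_lit 568274), (nat_lit 1765558), (nat_lit 0), (nat_lit 0)]) (PF.cons (PF.leaf (nat_lit 5324321) (nat_lit 581943) (nat_lit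 53836973) (nat_lit 3149148) [(nat_lit 581943), (nat_lit 1791760), (nat_lit 0), (nat_lit 0)]) (PF.cons (PF.leaf (nat_lit 5730811) (nat_lit 594523) (nat_lit 53067663) (nat_lit 3178597) [(nat_lit 594523), (nat_lit
 1815796), (nat_lit 0), (nat_lit 0)]) (PF.cons PF.nil PF.nil))))) (PF.cons (PF.cons (PF.leaf (nat_lit 5468489) (nat_lit 1806058) (nat_lit 53103963) (nat_lit 3168497) [(nat_lit 0), (nat_lit 1806058), (nat_lit 0), (nat_lit 0)]) (PF.cons (PF.leaf (nat_lit 5868062) (nat_lit 598497) (nat_lit 52347291) (nat_lit 3194725) [(nat_lit 598497), (nat_lit 1828049), (nat_lit 0), (nat_lit 0)]) (PF.cons (PF.leaf (nat_lit 6275561) (nat_lit 609507) (nat_lit 51583646) (nat_lit 3218019) [(nat_lit 609507), (nat_lit 1848022), (nat_lit 0), (nat_lit 0)]) (PF.cons PF.nil PF.nil)))) (PF.cons (PF.cons (PF.leaf (nat_lit 6404141) (nat_lit 1857058) (nat_lit 50880355) (nat_lit 3229044) [(nat_lit 0), (nat_lit 1857058), (nat_lit 0), (nat_lit 0)]) (PF.cons PF.nil PF.nil)) (PF.cons PF.nil (PF.cons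 PF.nil (PF.cons PF.nil PF.nil))))))))))) (PF.cons (PF.cons (PF.cons (PF.leaf (nat_lit 1921939) (nat_lit 2626149) (nat_lit 61060390) (nat_lit 2626149) [(nat_lit 0), (nat_lit 0), (nat_lit 3422273), (nat_lit 0)]) (PF.cons (PF.leaf (nat_lit 2182530) (nat_lit 408437) (nat_lit 60529714) (nat_lit 2685014) [(nat_lit 408437), (nat_lit 0), (nat_lit 3485647), (nat_lit 0)]) (PF.cons (PF.leaf (nat_lit 2472082) (nat_lit 433716) (nat_lit
 59947485) (nat_lit 2744264) [(nat_lit 433716), (nat_lit 0), (nat_lit 3549630), (nat_lit 0)]) (PF.cons (PF.leaf (nat_lit 2786072) (nat_lit 457122) (nat_lit 59322420) (nat_lit 2802456) [(nat_lit 457122), (nat_lit 0), (nat_lit 3612568), (nat_lit 0)]) (PF.cons (PF.leaf (nat_lit 3121448) (nat_lit 478896) (nat_lit 58661260) (nat_lit 2858632) [(nat_lit 478896), (nat_lit 0), (nat_lit 3673333), (nat_lit 0)]) (PF.cons (PF.leaf (nat_lit 3475599) (nat_lit 499185) (nat_lit 57969592) (nat_lit 2912147) [(nat_lit 499185), (nat_lit 0), (nat_lit 3731146), (nat_lit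 0)]) (PF.cons (PF.leaf (nat_lit 3846288) (nat_lit 518087) (nat_lit 57252248) (nat_lit 2962567) [(nat_lit 518087), (nat_lit 0), (nat_lit 3785472), (nat_lit 0)]) (PF.cons (PF.leaf (nat_lit 4231401) (nat_lit 535676) (nat_lit 56513513) (nat_lit 3009607) [(nat_lit 535676), (nat_lit 0), (nat_lit 3835954), (nat_lit 0)]) (PF.cons (PF.leaf (nat_lit 4629042) (nat_lit 552012) (nat_lit 55757250) (nat_lit 3053096) [(nat_lit 552012), (nat_lit 0), (nat_lit 3882368), (nat_lit 0)]) (PF.cons PF.nil (PF.cons PF.nil (PF.cons PF.nil PF.nil)))))))))))) (PF.cons (PF.cons (PF.leaf (nat_lit 2656081) (nat_lit 1519657) (nat_lit 59174228) (nat_lit 2801339) [(nat_lit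
 0), (nat_lit 1519657), (nat_lit 3613587), (nat_lit 0)]) (PF.cons (PF.leaf (nat_lit 2963159) (nat_lit 467202) (nat_lit 58557236) (nat_lit 2853657) [(nat_lit 467202), (nat_lit 1560846), (nat_lit 3669870), (nat_lit 0)]) (PF.cons (PF.leaf (nat_lit 3292928) (nat_lit 488332) (nat_lit 57902602) (nat_lit 2904467) [(nat_lit 488332), (nat_lit 1600584), (nat_lit 3724492), (nat_lit 0)]) (PF.cons (PF.leaf (nat_lit 3641903) (nat_lit 507925) (nat_lit 57216980) (nat_lit 2953019) [(nat_lit 507925), (nat_lit 1638456), (nat_lit 3776578), (nat_lit 0)]) (PF.cons (PF.leaf (nat_lit 4007521) (nat_lit 526112) (nat_lit 56505795) (nat_lit 2998819) [(nat_lit 526112), (nat_lit 1674205), (nat_lit 3825543), (nat_lit 0)]) (PF.cons (PF.leaf (nat_lit 4387553) (nat_lit 542984) (nat_lit 55773667) (nat_lit 3041546) [(nat_lit 542984), (nat_lit 1707680), (nat_lit 3870997), (nat_lit 0)]) (PF.cons (PF.leaf (nat_lit 4780001) (nat_lit 558612) (nat_lit 55024638) (nat_lit 3081004) [(nat_lit 558612), (nat_lit 1738799),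 (nat_lit 3912696), (nat_lit 0)]) (PF.cons (PF.leaf (nat_lit 5183046) (nat_lit 573056) (nat_lit 54262299) (nat_lit 3117085) [(nat_lit 573056), (nat_lit 1767530), (nat_lit 3950503), (nat_lit 0)]) (PF.cons PF.nil
 (PF.cons PF.nil PF.nil)))))))))) (PF.cons (PF.cons (PF.leaf (nat_lit 3466210) (nat_lit 1629508) (nat_lit 57132031) (nat_lit 2946582) [(nat_lit 0), (nat_lit 1629508), (nat_lit 3771182), (nat_lit 0)]) (PF.cons (PF.leaf (nat_lit 3808192) (nat_lit 515629) (nat_lit 56456560) (nat_lit 2990341) [(nat_lit 515629), (nat_lit 1664265), (nat_lit 3817749), (nat_lit 0)]) (PF.cons (PF.leaf (nat_lit 4167708) (nat_lit 533210) (nat_lit 55754744) (nat_lit 3031719) [(nat_lit 533210), (nat_lit 1697169), (nat_lit 3861589), (nat_lit 0)]) (PF.cons (PF.leaf (nat_lit 4541874) (nat_lit 549453) (nat_lit 55031807) (nat_lit 3070341) [(nat_lit 549453), (nat_lit 1728018), (nat_lit 3902265), (nat_lit 0)]) (PF.cons (PF.leaf (nat_lit 4928545) (nat_lit 564450) (nat_lit 54292132) (nat_lit 3105975)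 [(nat_lit 564450), (nat_lit 1756701), (nat_lit 3939501), (nat_lit 0)]) (PF.cons (PF.leaf (nat_lit 5325835) (nat_lit 578270) (nat_lit 53539499) (nat_lit 3138493) [(nat_lit 578270), (nat_lit 1783165), (nat_lit 3973138), (nat_lit 0)]) (PF.cons (PF.leaf (nat_lit 5732008) (nat_lit 590974) (nat_lit 52777222) (nat_lit 3167837) [(nat_lit 590974), (nat_lit 1807399), (nat_lit 4003106), (nat_lit 0)]) (PF.cons PF.nil (PF.cons PF.nil
 PF.nil))))))))) (PF.cons (PF.cons (PF.leaf (nat_lit 4328044) (nat_lit 1718210) (nat_lit 54998827) (nat_lit 3061488) [(nat_lit 0), (nat_lit 1718210), (nat_lit 3893865), (nat_lit 0)]) (PF.cons (PF.leaf (nat_lit 4695085) (nat_lit 555090) (nat_lit 54287929) (nat_lit 3096188) [(nat_lit 555090), (nat_lit 1746538), (nat_lit 3929988), (nat_lit 0)]) (PF.cons (PF.leaf (nat_lit 5075284) (nat_lit 569537) (nat_lit 53559864) (nat_lit 3128190) [(nat_lit 569537), (nat_lit 1772896), (nat_lit 3962994), (nat_lit 0)]) (PF.cons (PF.leaf (nat_lit 5466268) (nat_lit 582802)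 (nat_lit 52818757) (nat_lit 3157334) [(nat_lit 582802), (nat_lit 1797205), (nat_lit 3992694), (nat_lit 0)]) (PF.cons (PF.leaf (nat_lit 5866234) (nat_lit 594959) (nat_lit 52068119) (nat_lit 3183542) [(nat_lit 594959), (nat_lit 1819438), (nat_lit 4018997), (nat_lit 0)]) (PF.cons PF.nil (PF.cons PF.nil PF.nil))))))) (PF.cons (PF.cons (PF.leaf (nat_lit 5221159) (nat_lit 1787491) (nat_lit 52827655) (nat_lit 3147817) [(nat_lit 0), (nat_lit 1787491), (nat_lit 3983373), (nat_lit 0)]) (PF.cons (PF.leaf (nat_lit 5604941) (nat_lit 586662) (nat_lit 52100041) (nat_lit 3173763) [(nat_lit 586662), (nat_lit 1809747), (nat_lit 4009354), (nat_lit 0)])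
 (PF.cons (PF.leaf (nat_lit 5998237) (nat_lit 598336) (nat_lit 51362600) (nat_lit 3197009) [(nat_lit 598336), (nat_lit 1830081), (nat_lit 4032204), (nat_lit 0)]) (PF.cons (PF.leaf (nat_lit 6399078) (nat_lit 608969) (nat_lit 50618569) (nat_lit 3217517) [(nat_lit 608969), (nat_lit 1848483), (nat_lit 4051885), (nat_lit 0)]) (PF.cons PF.nil PF.nil))))) (PF.cons (PF.cons (PF.leaf (nat_lit 6128821) (nat_lit 1839411) (nat_lit 50660498) (nat_lit 3208371) [(nat_lit 0), (nat_lit 1839411), (nat_lit 4042887), (nat_lit 0)]) (PF.cons (PF.leaf (nat_lit 6522496) (nat_lit 611325) (nat_lit 49930905) (nat_lit 3226292) [(nat_lit 611325), (nat_lit 1856145), (nat_lit 4059561), (nat_lit 0)]) (PF.cons PF.nil (PF.cons PF.nil PF.nil)))) (PF.cons (PF.cons (PF.leaf (nat_lit 7037735) (nat_lit 1876150) (nat_lit 48529344) (nat_lit 3246378) [(nat_lit 0), (nat_lit 1876150), (nat_lit 4076183), (nat_lit 0)]) (PF.cons PF.nil PF.nil)) (PF.cons PF.nil (PF.cons PF.nil PF.nil))))))))) (PF.cons (PF.cons (PF.cons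 (PF.leaf (nat_lit 3318297) (nat_lit 2931472) (nat_lit 56660232) (nat_lit 2931472) [(nat_lit 0), (nat_lit 0), (nat_lit 3758554), (nat_lit 0)]) (PF.cons (PF.leaf (nat_lit 3634463) (nat_lit 498149) (nat_lit 56034449)
 (nat_lit 2972739) [(nat_lit 498149), (nat_lit 0), (nat_lit 3801737), (nat_lit 0)]) (PF.cons (PF.leaf (nat_lit 3971299) (nat_lit 517256) (nat_lit 55375721) (nat_lit 3012373) [(nat_lit 517256), (nat_lit 0), (nat_lit 3843102), (nat_lit 0)]) (PF.cons (PF.leaf (nat_lit 4325200) (nat_lit 534721) (nat_lit 54690854) (nat_lit 3049805) [(nat_lit 534721), (nat_lit 0), (nat_lit 3881993), (nat_lit 0)]) (PF.cons (PF.leaf (nat_lit 4693599) (nat_lit 550732) (nat_lit 53985244) (nat_lit 3084673) [(nat_lit 550732), (nat_lit 0), (nat_lit 3917982), (nat_lit 0)]) (PF.cons (PF.leaf (nat_lit 5074300) (nat_lit 565418) (nat_lit 53263361) (nat_lit 3116755) [(nat_lit 565418), (nat_lit 0), (nat_lit 3950800), (nat_lit 0)]) (PF.cons (PF.leaf (nat_lit 5465409) (nat_lit 578881) (nat_lit 52529012)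 (nat_lit 3145924) [(nat_lit 578881), (nat_lit 0), (nat_lit 3980293), (nat_lit 0)]) (PF.cons (PF.leaf (nat_lit 5865213) (nat_lit 591201) (nat_lit 51785500) (nat_lit 3172126) [(nat_lit 591201), (nat_lit 0), (nat_lit 4006388), (nat_lit 0)]) (PF.cons PF.nil (PF.cons PF.nil PF.nil)))))))))) (PF.cons (PF.cons (PF.leaf (nat_lit 4134710) (nat_lit 1698173) (nat_lit 54617462) (nat_lit 3042419) [(nat_lit 0), (nat_lit 1698173),
 (nat_lit 3875378), (nat_lit 0)]) (PF.cons (PF.leaf (nat_lit 4480544) (nat_lit 540058) (nat_lit 53946771) (nat_lit 3075914) [(nat_lit 540058), (nat_lit 1726538), (nat_lit 3909764), (nat_lit 0)]) (PF.cons (PF.leaf (nat_lit 4841915) (nat_lit 555616) (nat_lit 53254140) (nat_lit 3107160) [(nat_lit 555616), (nat_lit 1753108), (nat_lit 3941585), (nat_lit 0)]) (PF.cons (PF.leaf (nat_lit 5216023) (nat_lit 569819) (nat_lit 52544657) (nat_lit 3135889) [(nat_lit 569819), (nat_lit 1777750), (nat_lit 3970529), (nat_lit 0)]) (PF.cons (PF.leaf (nat_lit 5600767) (nat_lit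 582786) (nat_lit 51822490) (nat_lit 3161946) [(nat_lit 582786), (nat_lit 1800402), (nat_lit 3996414), (nat_lit 0)]) (PF.cons (PF.leaf (nat_lit 5994350) (nat_lit 594611) (nat_lit 51091148) (nat_lit 3185257) [(nat_lit 594611), (nat_lit 1821048), (nat_lit 4019151), (nat_lit 0)]) (PF.cons PF.nil (PF.cons PF.nil (PF.cons PF.nil PF.nil))))))))) (PF.cons (PF.cons (PF.leaf (nat_lit 4990544) (nat_lit 1768063) (nat_lit 52521330) (nat_lit 3127101) [(nat_lit 0), (nat_lit 1768063), (nat_lit 3962127), (nat_lit 0)]) (PF.cons (PF.leaf (nat_lit 5356880) (nat_lit 573494) (nat_lit 51826642) (nat_lit 3152637) [(nat_lit 573494), (nat_lit 1790622),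
 (nat_lit 3987396), (nat_lit 0)]) (PF.cons (PF.leaf (nat_lit 5734622) (nat_lit 586044) (nat_lit 51118503) (nat_lit 3175746) [(nat_lit 586044), (nat_lit 1811360), (nat_lit 4009876), (nat_lit 0)]) (PF.cons (PF.leaf (nat_lit 6121514) (nat_lit 597441) (nat_lit 50400781) (nat_lit 3196328) [(nat_lit 597441), (nat_lit 1830237), (nat_lit 4029452), (nat_lit 0)]) (PF.cons (PF.leaf (nat_lit 6515873) (nat_lit 607773) (nat_lit 49676696) (nat_lit 3214345) [(nat_lit 607773), (nat_lit 1847254), (nat_lit 4046083), (nat_lit 0)]) (PF.cons PF.nil (PF.cons PF.nil PF.nil))))))) (PF.cons (PF.cons (PF.leaf (nat_lit 5867913) (nat_lit 1821011) (nat_lit 50416660) (nat_lit 3187456) [(nat_lit 0), (nat_lit 1821011), (nat_lit 4020830), (nat_lit 0)]) (PF.cons (PF.leaf (nat_lit 6247297) (nat_lit 599692) (nat_lit 49714167) (nat_lit 3205459) [(nat_lit 599692), (nat_lit 1838208), (nat_lit 4037434), (nat_lit 0)]) (PF.cons (PF.leaf (nat_lit 6634753) (nat_lit 609656) (nat_lit 49004747) (nat_lit 3221095) [(nat_lit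 609656), (nat_lit 1853675), (nat_lit 4051315), (nat_lit 0)]) (PF.cons PF.nil (PF.cons PF.nil PF.nil))))) (PF.cons (PF.cons (PF.leaf (nat_lit 6752592) (nat_lit 1859031) (nat_lit 48337470) (nat_lit 3226157)
 [(nat_lit 0), (nat_lit 1859031), (nat_lit 4054529), (nat_lit 0)]) (PF.cons (PF.leaf (nat_lit 7139046) (nat_lit 619682) (nat_lit 47639450) (nat_lit 3237353) [(nat_lit 619682), (nat_lit 1871429), (nat_lit 4063305), (nat_lit 0)]) (PF.cons PF.nil (PF.cons PF.nil PF.nil)))) (PF.cons (PF.cons (PF.leaf (nat_lit 7633541) (nat_lit 1884148) (nat_lit 46308705) (nat_lit 3246117) [(nat_lit 0), (nat_lit 1884148), (nat_lit 4066624), (nat_lit 0)]) (PF.cons PF.nil PF.nil)) (PF.cons PF.nil (PF.cons PF.nil PF.nil)))))))) (PF.cons (PF.cons (PF.cons (PF.leaf (nat_lit 4779257) (nat_lit 3106369) (nat_lit 52178777) (nat_lit 3106369) [(nat_lit 0), (nat_lit 0), (nat_lit 3941222), (nat_lit 0)]) (PF.cons (PF.leaf (nat_lit 5125832) (nat_lit 558475) (nat_lit 51522335) (nat_lit 3131332) [(nat_lit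 558475), (nat_lit 0), (nat_lit 3965556), (nat_lit 0)]) (PF.cons (PF.leaf (nat_lit 5486252) (nat_lit 572240) (nat_lit 50847611) (nat_lit 3154197) [(nat_lit 572240), (nat_lit 0), (nat_lit 3987507), (nat_lit 0)]) (PF.cons (PF.leaf (nat_lit 5857791) (nat_lit 584654) (nat_lit 50159474) (nat_lit 3174781) [(nat_lit 584654), (nat_lit 0), (nat_lit 4006864), (nat_lit 0)]) (PF.cons (PF.leaf (nat_lit 6238419) (nat_lit 595859)
 (nat_lit 49461831) (nat_lit 3192987) [(nat_lit 595859), (nat_lit 0), (nat_lit 4023518), (nat_lit 0)]) (PF.cons (PF.leaf (nat_lit 6626437) (nat_lit 605967) (nat_lit 48757909) (nat_lit 3208783) [(nat_lit 605967), (nat_lit 0), (nat_lit 4037426), (nat_lit 0)]) (PF.cons PF.nil PF.nil))))))) (PF.cons (PF.cons (PF.leaf (nat_lit 5623266) (nat_lit 1801677) (nat_lit 50144667) (nat_lit 3166282) [(nat_lit 0), (nat_lit 1801677), (nat_lit 3998728), (nat_lit 0)]) (PF.cons (PF.leaf (nat_lit 5986648) (nat_lit 586726) (nat_lit 49472988) (nat_lit 3184283) [(nat_lit 586726),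 (nat_lit 1819392), (nat_lit 4015141), (nat_lit 0)]) (PF.cons (PF.leaf (nat_lit 6359990) (nat_lit 597629) (nat_lit 48790791) (nat_lit 3200110) [(nat_lit 597629), (nat_lit 1835433), (nat_lit 4029072), (nat_lit 0)]) (PF.cons (PF.leaf (nat_lit 6741155) (nat_lit 607415) (nat_lit 48101673) (nat_lit 3213710) [(nat_lit 607415), (nat_lit 1849793), (nat_lit 4040462), (nat_lit 0)]) (PF.cons (PF.leaf (nat_lit 7128529) (nat_lit 616188) (nat_lit 47408569) (nat_lit 3225077) [(nat_lit 616188), (nat_lit 1862492), (nat_lit 4049306), (nat_lit 0)]) PF.nil))))) (PF.cons (PF.cons (PF.leaf (nat_lit 6481321) (nat_lit 1841111) (nat_lit 48123222) (nat_lit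
 3205544) [(nat_lit 0), (nat_lit 1841111), (nat_lit 4032607), (nat_lit 0)]) (PF.cons (PF.leaf (nat_lit 6854831) (nat_lit 608363) (nat_lit 47450235) (nat_lit 3217079) [(nat_lit 608363), (nat_lit 1854104), (nat_lit 4041641), (nat_lit 0)]) (PF.cons (PF.leaf (nat_lit 7235247) (nat_lit 616865) (nat_lit 46772511) (nat_lit 3226544) [(nat_lit 616865), (nat_lit 1865545), (nat_lit 4048311), (nat_lit 0)]) (PF.cons PF.nil PF.nil)))) (PF.cons (PF.cons (PF.leaf (nat_lit 7341295) (nat_lit 1867735) (nat_lit 46141824) (nat_lit 3226657) [(nat_lit 0), (nat_lit 1867735), (nat_lit 4045708), (nat_lit 0)]) (PF.cons (PF.leaf (nat_lit 7719695) (nat_lit 624433) (nat_lit 45477744) (nat_lit 3232429) [(nat_lit 624433), (nat_lit 1876562), (nat_lit 4048171), (nat_lit 0)]) PF.nil)) (PF.cons PF.nil (PF.cons PF.nil PF.nil)))))) (PF.cons (PF.cons (PF.cons (PF.leaf (nat_lit 6225757) (nat_lit 3184501) (nat_lit 47882690) (nat_lit 3184501) [(nat_lit 0), (nat_lit 0), (nat_lit 4010405), (nat_lit 0)]) (PF.cons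 (PF.leaf (nat_lit 6584585) (nat_lit 595723) (nat_lit 47238273) (nat_lit 3196326) [(nat_lit 595723), (nat_lit 0), (nat_lit 4019622), (nat_lit 0)]) (PF.cons (PF.leaf (nat_lit 6952193) (nat_lit 605200) (nat_lit
 46585636) (nat_lit 3206212) [(nat_lit 605200), (nat_lit 0), (nat_lit 4026640), (nat_lit 0)]) (PF.cons (PF.leaf (nat_lit 7326510) (nat_lit 613604) (nat_lit 45928098) (nat_lit 3214140) [(nat_lit 613604), (nat_lit 0), (nat_lit 4031440), (nat_lit 0)]) (PF.cons PF.nil PF.nil))))) (PF.cons (PF.cons (PF.leaf (nat_lit 7062320) (nat_lit 1850491) (nat_lit 45954146) (nat_lit 3206695) [(nat_lit 0), (nat_lit 1850491), (nat_lit 4024369), (nat_lit 0)]) (PF.cons (PF.leaf (nat_lit 7428983) (nat_lit 613501) (nat_lit 45313044) (nat_lit 3212982) [(nat_lit 613501), (nat_lit 1860001), (nat_lit 4027320), (nat_lit 0)]) (PF.cons (PF.leaf (nat_lit 7801607) (nat_lit 620753) (nat_lit 44668837) (nat_lit 3217461) [(nat_lit 620753), (nat_lit 1868121), (nat_lit 4028221), (nat_lit 0)]) (PF.cons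 PF.nil PF.nil)))) (PF.cons (PF.cons (PF.leaf (nat_lit 7896854) (nat_lit 1867799) (nat_lit 44075026) (nat_lit 3213712) [(nat_lit 0), (nat_lit 1867799), (nat_lit 4021118), (nat_lit 0)]) (PF.cons PF.nil PF.nil)) (PF.cons PF.nil (PF.cons PF.nil PF.nil))))) (PF.cons (PF.cons (PF.cons (PF.leaf (nat_lit 7612392) (nat_lit 3194615) (nat_lit 43910968) (nat_lit 3194615) [(nat_lit 0), (nat_lit 0), (nat_lit 4000645), (nat_lit 0)])
 (PF.cons (PF.leaf (nat_lit 7971599) (nat_lit 615783) (nat_lit 43302693) (nat_lit 3196663) [(nat_lit 615783), (nat_lit 0), (nat_lit 3998734), (nat_lit 0)]) (PF.cons (PF.leaf (nat_lit 8335998) (nat_lit 621971) (nat_lit 42692514) (nat_lit 3197130) [(nat_lit 621971), (nat_lit 0), (nat_lit 3995044), (nat_lit 0)]) (PF.cons PF.nil PF.nil)))) (PF.cons (PF.cons (PF.leaf (nat_lit 8421417) (nat_lit 1861064) (nat_lit 42134876) (nat_lit 3190390) [(nat_lit 0), (nat_lit 1861064), (nat_lit 3984496), (nat_lit 0)]) (PF.cons PF.nil PF.nil)) (PF.cons PF.nil PF.nil))) (PF.cons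 (PF.cons (PF.cons (PF.leaf (nat_lit 8917211) (nat_lit 3159142) (nat_lit 40316830) (nat_lit 3159142) [(nat_lit 0), (nat_lit 0), (nat_lit 3938806), (nat_lit 0)]) (PF.cons PF.nil PF.nil)) (PF.cons PF.nil PF.nil)) (PF.cons PF.nil (PF.cons PF.nil PF.nil))))))))) (PF.cons (PF.cons (PF.cons (PF.cons (PF.leaf (nat_lit 3008365) (nat_lit 2816153) (nat_lit 54953711) (nat_lit 2816153) [(nat_lit 0), (nat_lit 0), (nat_lit 0), (nat_lit 9338947)]) (PF.cons (PF.leaf (nat_lit 3274885) (nat_lit 446044) (nat_lit 54444423) (nat_lit 2857602) [(nat_lit 446044), (nat_lit 0), (nat_lit 0), (nat_lit 9360741)]) (PF.cons (PF.leaf (nat_lit 3567632) (nat_lit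
 469213) (nat_lit 53891418) (nat_lit 2898475) [(nat_lit 469213), (nat_lit 0), (nat_lit 0), (nat_lit 9380492)]) (PF.cons (PF.leaf (nat_lit 3881752) (nat_lit 490028) (nat_lit 53303706) (nat_lit 2937804) [(nat_lit 490028), (nat_lit 0), (nat_lit 0), (nat_lit 9397215)]) (PF.cons (PF.leaf (nat_lit 4214002) (nat_lit 508884) (nat_lit 52688060) (nat_lit 2974992) [(nat_lit 508884), (nat_lit 0), (nat_lit 0), (nat_lit 9410223)]) (PF.cons (PF.leaf (nat_lit 4561703) (nat_lit 526040) (nat_lit 52049891) (nat_lit 3009674) [(nat_lit 526040), (nat_lit 0), (nat_lit 0), (nat_lit 9419042)]) (PF.cons (PF.leaf (nat_lit 4922619) (nat_lit 541687) (nat_lit 51393694) (nat_lit 3041630) [(nat_lit 541687), (nat_lit 0), (nat_lit 0), (nat_lit 9423364)]) (PF.cons (PF.leaf (nat_lit 5294790) (nat_lit 555966) (nat_lit 50723301) (nat_lit 3070742) [(nat_lit 555966), (nat_lit 0), (nat_lit 0), (nat_lit 9423006)]) (PF.cons (PF.leaf (nat_lit 5676508) (nat_lit 568990) (nat_lit 50042032) (nat_lit 3096965) [(nat_lit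 568990), (nat_lit 0), (nat_lit 0), (nat_lit 9417891)]) (PF.cons (PF.leaf (nat_lit 6066179) (nat_lit 580855) (nat_lit 49352793) (nat_lit 3120303) [(nat_lit 580855), (nat_lit 0), (nat_lit 0), (nat_lit 9408020)])
 (PF.cons (PF.leaf (nat_lit 6462447) (nat_lit 591640) (nat_lit 48658148) (nat_lit 3140798) [(nat_lit 591640), (nat_lit 0), (nat_lit 0), (nat_lit 9393461)]) (PF.cons PF.nil PF.nil)))))))))))) (PF.cons (PF.cons (PF.leaf (nat_lit 3733226) (nat_lit 1609611) (nat_lit 53174290) (nat_lit 2932512) [(nat_lit 0), (nat_lit 1609611), (nat_lit 0), (nat_lit 9392397)]) (PF.cons (PF.leaf (nat_lit 4038506) (nat_lit 496080) (nat_lit 52600371) (nat_lit 2967447) [(nat_lit 496080), (nat_lit 1641024), (nat_lit 0), (nat_lit 9403888)]) (PF.cons (PF.leaf (nat_lit 4363466) (nat_lit 514475) (nat_lit 51996610) (nat_lit 3000683) [(nat_lit 514475), (nat_lit 1670699), (nat_lit 0), (nat_lit 9411867)]) (PF.cons (PF.leaf (nat_lit 4704584) (nat_lit 531126) (nat_lit 51369386) (nat_lit 3031763) [(nat_lit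 531126), (nat_lit 1698415), (nat_lit 0), (nat_lit 9415867)]) (PF.cons (PF.leaf (nat_lit 5059332) (nat_lit 546251) (nat_lit 50723732) (nat_lit 3060414) [(nat_lit 546251), (nat_lit 1724071), (nat_lit 0), (nat_lit 9415590)]) (PF.cons (PF.leaf (nat_lit 5425578) (nat_lit 560008) (nat_lit 50063784) (nat_lit 3086481) [(nat_lit 560008), (nat_lit 1747632), (nat_lit 0), (nat_lit 9410869)]) (PF.cons (PF.leaf (nat_lit 5801479)
 (nat_lit 572523) (nat_lit 49393035) (nat_lit 3109890) [(nat_lit 572523), (nat_lit 1769109), (nat_lit 0), (nat_lit 9401636)]) (PF.cons (PF.leaf (nat_lit 6185455) (nat_lit 583894) (nat_lit 48714482) (nat_lit 3130626) [(nat_lit 583894), (nat_lit 1788539), (nat_lit 0), (nat_lit 9387900)]) (PF.cons (PF.leaf (nat_lit 6576042) (nat_lit 594207) (nat_lit 48030728) (nat_lit 3148713) [(nat_lit 594207), (nat_lit 1805977), (nat_lit 0), (nat_lit 9369733)]) (PF.cons PF.nil PF.nil)))))))))) (PF.cons (PF.cons (PF.leaf (nat_lit 4514737) (nat_lit 1688357) (nat_lit 51299783)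 (nat_lit 3023736) [(nat_lit 0), (nat_lit 1688357), (nat_lit 0), (nat_lit 9408578)]) (PF.cons (PF.leaf (nat_lit 4847732) (nat_lit 535358) (nat_lit 50686596) (nat_lit 3051380) [(nat_lit 535358), (nat_lit 1713685), (nat_lit 0), (nat_lit 9408106)]) (PF.cons (PF.leaf (nat_lit 5195440) (nat_lit 550073) (nat_lit 50053799) (nat_lit 3076898) [(nat_lit 550073), (nat_lit 1737196), (nat_lit 0), (nat_lit 9403574)]) (PF.cons (PF.leaf (nat_lit 5555127) (nat_lit 563398) (nat_lit 49406083) (nat_lit 3100088) [(nat_lit 563398), (nat_lit 1758810), (nat_lit 0), (nat_lit 9394823)]) (PF.cons (PF.leaf (nat_lit 5924798) (nat_lit 575474) (nat_lit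
 48747259) (nat_lit 3120847) [(nat_lit 575474), (nat_lit 1778506), (nat_lit 0), (nat_lit 9381793)]) (PF.cons (PF.leaf (nat_lit 6302721) (nat_lit 586412) (nat_lit 48080510) (nat_lit 3139135) [(nat_lit 586412), (nat_lit 1796300), (nat_lit 0), (nat_lit 9364500)]) (PF.cons (PF.leaf (nat_lit 6687393) (nat_lit 596303) (nat_lit 47408545) (nat_lit 3154962) [(nat_lit 596303), (nat_lit 1812231), (nat_lit 0), (nat_lit 9343018)]) (PF.cons (PF.leaf (nat_lit 7077495) (nat_lit 605225) (nat_lit 46733691) (nat_lit 3168367) [(nat_lit 605225), (nat_lit 1826355), (nat_lit 0), (nat_lit 9317465)]) (PF.cons PF.nil PF.nil))))))))) (PF.cons (PF.cons (PF.leaf (nat_lit 5332102) (nat_lit 1748946) (nat_lit 49383272) (nat_lit 3091231) [(nat_lit 0), (nat_lit 1748946), (nat_lit 0), (nat_lit 9387469)]) (PF.cons (PF.leaf (nat_lit 5684152) (nat_lit 566130) (nat_lit 48749831) (nat_lit 3111697) [(nat_lit 566130), (nat_lit 1768707), (nat_lit 0), (nat_lit 9375032)]) (PF.cons (PF.leaf (nat_lit 6046994) (nat_lit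 577847) (nat_lit 48104484) (nat_lit 3129955) [(nat_lit 577847), (nat_lit 1786715), (nat_lit 0), (nat_lit 9358531)]) (PF.cons (PF.leaf (nat_lit 6418453) (nat_lit 588415) (nat_lit 47450742) (nat_lit 3145941)
 [(nat_lit 588415), (nat_lit 1802964), (nat_lit 0), (nat_lit 9337988)]) (PF.cons (PF.leaf (nat_lit 6796923) (nat_lit 597939) (nat_lit 46791505) (nat_lit 3159645) [(nat_lit 597939), (nat_lit 1817475), (nat_lit 0), (nat_lit 9313480)]) (PF.cons (PF.leaf (nat_lit 7181014) (nat_lit 606500) (nat_lit 46129217) (nat_lit 3171092) [(nat_lit 606500), (nat_lit 1830290), (nat_lit 0), (nat_lit 9285125)]) (PF.cons PF.nil PF.nil))))))) (PF.cons (PF.cons (PF.leaf (nat_lit 6168995) (nat_lit 1793810) (nat_lit 47464253) (nat_lit 3137324) [(nat_lit 0), (nat_lit 1793810), (nat_lit 0), (nat_lit 9331991)]) (PF.cons (PF.leaf (nat_lit 6533212) (nat_lit 589903) (nat_lit 46824870) (nat_lit 3151143) [(nat_lit 589903), (nat_lit 1808596), (nat_lit 0), (nat_lit 9308509)]) (PF.cons (PF.leaf (nat_lit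 6905096) (nat_lit 599117) (nat_lit 46179391) (nat_lit 3162854) [(nat_lit 599117), (nat_lit 1821767), (nat_lit 0), (nat_lit 9281264)]) (PF.cons (PF.leaf (nat_lit 7282890) (nat_lit 607368) (nat_lit 45530460) (nat_lit 3172465) [(nat_lit 607368), (nat_lit 1833351), (nat_lit 0), (nat_lit 9250376)]) (PF.cons (PF.leaf (nat_lit 7665295) (nat_lit 614735) (nat_lit 44880280) (nat_lit 3180017) [(nat_lit 614735), (nat_lit 1843394),
 (nat_lit 0), (nat_lit 9215996)]) PF.nil))))) (PF.cons (PF.cons (PF.leaf (nat_lit 7012641) (nat_lit 1825162) (nat_lit 45571833) (nat_lit 3164672) [(nat_lit 0), (nat_lit 1825162), (nat_lit 0), (nat_lit 9246493)]) (PF.cons (PF.leaf (nat_lit 7383553) (nat_lit 607828) (nat_lit 44937143) (nat_lit 3172565) [(nat_lit 607828), (nat_lit 1835586), (nat_lit 0), (nat_lit 9213342)]) (PF.cons (PF.leaf (nat_lit 7759646) (nat_lit 614934) (nat_lit 44300705) (nat_lit 3178537) [(nat_lit 614934), (nat_lit 1844564), (nat_lit 0), (nat_lit 9176879)]) (PF.cons PF.nil PF.nil))))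 (PF.cons (PF.cons (PF.leaf (nat_lit 7853178) (nat_lit 1845019) (nat_lit 43726912) (nat_lit 3175959) [(nat_lit 0), (nat_lit 1845019), (nat_lit 0), (nat_lit 9135826)]) (PF.cons (PF.leaf (nat_lit 8226496) (nat_lit 620848) (nat_lit 43104639) (nat_lit 3178707) [(nat_lit 620848), (nat_lit 1851678), (nat_lit 0), (nat_lit 9094545)]) PF.nil)) (PF.cons PF.nil (PF.cons PF.nil PF.nil))))))))) (PF.cons (PF.cons (PF.cons (PF.leaf (nat_lit 4340023) (nat_lit 3001570) (nat_lit 50902872) (nat_lit 3001570) [(nat_lit 0), (nat_lit 0), (nat_lit 3826841), (nat_lit 9377528)]) (PF.cons (PF.leaf (nat_lit 4649434) (nat_lit 516602) (nat_lit 50335315) (nat_lit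
 3028439) [(nat_lit 516602), (nat_lit 0), (nat_lit 3852476), (nat_lit 9375979)]) (PF.cons (PF.leaf (nat_lit 4976866) (nat_lit 533213) (nat_lit 49741608) (nat_lit 3053630) [(nat_lit 533213), (nat_lit 0), (nat_lit 3876304), (nat_lit 9370841)]) (PF.cons (PF.leaf (nat_lit 5318784) (nat_lit 548061) (nat_lit 49128002) (nat_lit 3076805) [(nat_lit 548061), (nat_lit 0), (nat_lit 3897945), (nat_lit 9361874)]) (PF.cons (PF.leaf (nat_lit 5672726) (nat_lit 561398) (nat_lit 48499326) (nat_lit 3097772) [(nat_lit 561398), (nat_lit 0), (nat_lit 3917170), (nat_lit 9348951)]) (PF.cons (PF.leaf (nat_lit 6036606) (nat_lit 573404) (nat_lit 47859469) (nat_lit 3116432) [(nat_lit 573404), (nat_lit 0), (nat_lit 3933857), (nat_lit 9332030)]) (PF.cons (PF.leaf (nat_lit 6408738) (nat_lit 584219) (nat_lit 47211654) (nat_lit 3132750) [(nat_lit 584219), (nat_lit 0), (nat_lit 3947952), (nat_lit 9311139)]) (PF.cons (PF.leaf (nat_lit 6787572) (nat_lit 593952) (nat_lit 46558599) (nat_lit 3146736) [(nat_lit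 593952), (nat_lit 0), (nat_lit 3959454), (nat_lit 9286354)]) (PF.cons (PF.leaf (nat_lit 7171801) (nat_lit 602695) (nat_lit 45902627) (nat_lit 3158429) [(nat_lit 602695), (nat_lit 0), (nat_lit 3968401), (nat_lit
 9257794)]) (PF.cons PF.nil PF.nil)))))))))) (PF.cons (PF.cons (PF.leaf (nat_lit 5118480) (nat_lit 1726877) (nat_lit 49069130) (nat_lit 3068572) [(nat_lit 0), (nat_lit 1726877), (nat_lit 3890311), (nat_lit 9353920)]) (PF.cons (PF.leaf (nat_lit 5451744) (nat_lit 550580) (nat_lit 48471485) (nat_lit 3088963) [(nat_lit 550580), (nat_lit 1747368), (nat_lit 3908883), (nat_lit 9341533)]) (PF.cons (PF.leaf (nat_lit 5798205) (nat_lit 563641) (nat_lit 47857332) (nat_lit 3107393) [(nat_lit 563641), (nat_lit 1766157), (nat_lit 3925288), (nat_lit 9325356)]) (PF.cons (PF.leaf (nat_lit 6155231) (nat_lit 575336) (nat_lit 47231128) (nat_lit 3123729) [(nat_lit 575336), (nat_lit 1783207), (nat_lit 3939374), (nat_lit 9305365)]) (PF.cons (PF.leaf (nat_lit 6520878) (nat_lit 585823)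 (nat_lit 46596427) (nat_lit 3137909) [(nat_lit 585823), (nat_lit 1798521), (nat_lit 3951065), (nat_lit 9281595)]) (PF.cons (PF.leaf (nat_lit 6893529) (nat_lit 595226) (nat_lit 45956149) (nat_lit 3149925) [(nat_lit 595226), (nat_lit 1812133), (nat_lit 3960346), (nat_lit 9254128)]) (PF.cons (PF.leaf (nat_lit 7271785) (nat_lit 603642) (nat_lit 45312736) (nat_lit 3159802) [(nat_lit 603642), (nat_lit 1824091), (nat_lit 3967240),
 (nat_lit 9223085)]) (PF.cons PF.nil (PF.cons PF.nil PF.nil))))))))) (PF.cons (PF.cons (PF.leaf (nat_lit 5924484) (nat_lit 1773731) (nat_lit 47216298) (nat_lit 3115270) [(nat_lit 0), (nat_lit 1773731), (nat_lit 3931343), (nat_lit 9298436)]) (PF.cons (PF.leaf (nat_lit 6273595) (nat_lit 576692) (nat_lit 46605490) (nat_lit 3129411) [(nat_lit 576692), (nat_lit 1789268), (nat_lit 3942986), (nat_lit 9275696)]) (PF.cons (PF.leaf (nat_lit 6632228) (nat_lit 586926) (nat_lit 45985196) (nat_lit 3141580) [(nat_lit 586926), (nat_lit 1803207), (nat_lit 3952427),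 (nat_lit 9249341)]) (PF.cons (PF.leaf (nat_lit 6998311) (nat_lit 596058) (nat_lit 45358670) (nat_lit 3151747) [(nat_lit 596058), (nat_lit 1815561), (nat_lit 3959633), (nat_lit 9219463)]) (PF.cons (PF.leaf (nat_lit 7370326) (nat_lit 604198) (nat_lit 44728559) (nat_lit 3159924) [(nat_lit 604198), (nat_lit 1826367), (nat_lit 3964614), (nat_lit 9186188)]) (PF.cons (PF.leaf (nat_lit 7746978) (nat_lit 611436) (nat_lit 44097059) (nat_lit 3166149) [(nat_lit 611436), (nat_lit 1835673), (nat_lit 3967411), (nat_lit 9149662)]) (PF.cons PF.nil PF.nil))))))) (PF.cons (PF.cons (PF.leaf (nat_lit 6743683) (nat_lit 1806985) (nat_lit 45377404) (nat_lit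
 3143845) [(nat_lit 0), (nat_lit 1806985), (nat_lit 3952131), (nat_lit 9214476)]) (PF.cons (PF.leaf (nat_lit 7102438) (nat_lit 596443) (nat_lit 44765763) (nat_lit 3152280) [(nat_lit 596443), (nat_lit 1818152), (nat_lit 3957402), (nat_lit 9182466)]) (PF.cons (PF.leaf (nat_lit 7467849) (nat_lit 604360) (nat_lit 44149794) (nat_lit 3158866) [(nat_lit 604360), (nat_lit 1827872), (nat_lit 3960602), (nat_lit 9147212)]) (PF.cons (PF.leaf (nat_lit 7838251) (nat_lit 611368) (nat_lit 43531899) (nat_lit 3163630) [(nat_lit 611368), (nat_lit 1836183), (nat_lit 3961761), (nat_lit 9108865)]) (PF.cons PF.nil PF.nil))))) (PF.cons (PF.cons (PF.leaf (nat_lit 7565087) (nat_lit 1828649) (nat_lit 43576002) (nat_lit 3156691) [(nat_lit 0), (nat_lit 1828649), (nat_lit 3955277), (nat_lit 9106242)]) (PF.cons (PF.leaf (nat_lit 7928666) (nat_lit 610951) (nat_lit 42972439) (nat_lit 3160092) [(nat_lit 610951), (nat_lit 1836025), (nat_lit 3954918), (nat_lit 9066309)]) (PF.cons (PF.leaf (nat_lit 8296643)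 (nat_lit 616944) (nat_lit 42368322) (nat_lit 3161832) [(nat_lit 616944), (nat_lit 1842121), (nat_lit 3952696), (nat_lit 9023586)]) (PF.cons PF.nil PF.nil)))) (PF.cons (PF.cons (PF.leaf (nat_lit 8380368) (nat_lit
 1840529) (nat_lit 41828453) (nat_lit 3156170) [(nat_lit 0), (nat_lit 1840529), (nat_lit 3943437), (nat_lit 8978102)]) (PF.cons (PF.leaf (nat_lit 8745031) (nat_lit 621108) (nat_lit 41239270) (nat_lit 3155240) [(nat_lit 621108), (nat_lit 1844660), (nat_lit 3938241), (nat_lit 8931647)]) PF.nil)) (PF.cons PF.nil (PF.cons PF.nil PF.nil)))))))) (PF.cons (PF.cons (PF.cons (PF.leaf (nat_lit 5698624) (nat_lit 3092683) (nat_lit 46936545) (nat_lit 3092683) [(nat_lit 0), (nat_lit 0), (nat_lit 3908013), (nat_lit 9263556)]) (PF.cons (PF.leaf (nat_lit 6030256) (nat_lit 561563) (nat_lit 46359065) (nat_lit 3107078) [(nat_lit 561563), (nat_lit 0), (nat_lit 3919731), (nat_lit 9241642)]) (PF.cons (PF.leaf (nat_lit 6373813) (nat_lit 573172) (nat_lit 45767628) (nat_lit 3119673) [(nat_lit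 573172), (nat_lit 0), (nat_lit 3929461), (nat_lit 9216242)]) (PF.cons (PF.leaf (nat_lit 6726729) (nat_lit 583448) (nat_lit 45166430) (nat_lit 3130386) [(nat_lit 583448), (nat_lit 0), (nat_lit 3937111), (nat_lit 9187426)]) (PF.cons (PF.leaf (nat_lit 7087139) (nat_lit 592563) (nat_lit 44558769) (nat_lit 3139189) [(nat_lit 592563), (nat_lit 0), (nat_lit 3942650), (nat_lit 9155298)]) (PF.cons (PF.leaf (nat_lit 7453521)
 (nat_lit 600647) (nat_lit 43947313) (nat_lit 3146096) [(nat_lit 600647), (nat_lit 0), (nat_lit 3946089), (nat_lit 9119987)]) (PF.cons (PF.leaf (nat_lit 7824574) (nat_lit 607805) (nat_lit 43334262) (nat_lit 3151146) [(nat_lit 607805), (nat_lit 0), (nat_lit 3947467), (nat_lit 9081639)]) (PF.cons PF.nil (PF.cons PF.nil PF.nil))))))))) (PF.cons (PF.cons (PF.leaf (nat_lit 6490134) (nat_lit 1787685) (nat_lit 45158451) (nat_lit 3122416) [(nat_lit 0), (nat_lit 1787685), (nat_lit 3929568), (nat_lit 9181122)]) (PF.cons (PF.leaf (nat_lit 6835014) (nat_lit 583688) (nat_lit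 44573156) (nat_lit 3131371) [(nat_lit 583688), (nat_lit 1799688), (nat_lit 3935284), (nat_lit 9150338)]) (PF.cons (PF.leaf (nat_lit 7188351) (nat_lit 592639) (nat_lit 43980282) (nat_lit 3138566) [(nat_lit 592639), (nat_lit 1810235), (nat_lit 3939044), (nat_lit 9116359)]) (PF.cons (PF.leaf (nat_lit 7548164) (nat_lit 600534) (nat_lit 43382835) (nat_lit 3143998) [(nat_lit 600534), (nat_lit 1819356), (nat_lit 3940845), (nat_lit 9079327)]) (PF.cons (PF.leaf (nat_lit 7913025) (nat_lit 607491) (nat_lit 42783225) (nat_lit 3147694) [(nat_lit 607491), (nat_lit 1827096), (nat_lit 3940718), (nat_lit 9039395)]) (PF.cons PF.nil (PF.cons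
 PF.nil PF.nil))))))) (PF.cons (PF.cons (PF.leaf (nat_lit 7289945) (nat_lit 1811358) (nat_lit 43405734) (nat_lit 3136806) [(nat_lit 0), (nat_lit 1811358), (nat_lit 3934101), (nat_lit 9075353)]) (PF.cons (PF.leaf (nat_lit 7642461) (nat_lit 600030) (nat_lit 42823256) (nat_lit 3140862) [(nat_lit 600030), (nat_lit 1819521), (nat_lit 3934386), (nat_lit 9036847)]) (PF.cons (PF.leaf (nat_lit 8000784) (nat_lit 606837) (nat_lit 42237782) (nat_lit 3143297) [(nat_lit 606837), (nat_lit 1826386), (nat_lit 3932866), (nat_lit 8995551)]) (PF.cons (PF.leaf (nat_lit 8363343) (nat_lit 612786) (nat_lit 41651495) (nat_lit 3144149) [(nat_lit 612786), (nat_lit 1831999), (nat_lit 3929584), (nat_lit 8951639)]) (PF.cons PF.nil PF.nil))))) (PF.cons (PF.cons (PF.leaf (nat_lit 8088554) (nat_lit 1825085) (nat_lit 41697457) (nat_lit 3138005) [(nat_lit 0), (nat_lit 1825085), (nat_lit 3923965), (nat_lit 8950164)]) (PF.cons (PF.leaf (nat_lit 8444421) (nat_lit 611667) (nat_lit 41125286) (nat_lit 3137786)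 [(nat_lit 611667), (nat_lit 1829949), (nat_lit 3919508), (nat_lit 8905208)]) (PF.cons (PF.leaf (nat_lit 8804045) (nat_lit 616715) (nat_lit 40553411) (nat_lit 3136127) [(nat_lit 616715), (nat_lit 1833678), (nat_lit
 3913449), (nat_lit 8857908)]) (PF.cons PF.nil PF.nil)))) (PF.cons (PF.cons (PF.leaf (nat_lit 8878886) (nat_lit 1830477) (nat_lit 40046415) (nat_lit 3128088) [(nat_lit 0), (nat_lit 1830477), (nat_lit 3901489), (nat_lit 8809420)]) (PF.cons PF.nil PF.nil)) (PF.cons PF.nil PF.nil)))))) (PF.cons (PF.cons (PF.cons (PF.leaf (nat_lit 7029556) (nat_lit 3116230) (nat_lit 43212701) (nat_lit 3116230) [(nat_lit 0), (nat_lit 0), (nat_lit 3912322), (nat_lit 9042913)]) (PF.cons (PF.leaf (nat_lit 7369279) (nat_lit 587771) (nat_lit 42654419) (nat_lit 3120944) [(nat_lit 587771), (nat_lit 0), (nat_lit 3913238), (nat_lit 9005962)]) (PF.cons (PF.leaf (nat_lit 7716588) (nat_lit 595611) (nat_lit 42090056) (nat_lit 3124088) [(nat_lit 595611), (nat_lit 0), (nat_lit 3912416), (nat_lit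 8966195)]) (PF.cons (PF.leaf (nat_lit 8069564) (nat_lit 602443) (nat_lit 41522380) (nat_lit 3125678) [(nat_lit 602443), (nat_lit 0), (nat_lit 3909877), (nat_lit 8923789)]) (PF.cons (PF.leaf (nat_lit 8426860) (nat_lit 608388) (nat_lit 40953590) (nat_lit 3125753) [(nat_lit 608388), (nat_lit 0), (nat_lit 3905666), (nat_lit 8878915)]) (PF.cons PF.nil (PF.cons PF.nil PF.nil))))))) (PF.cons (PF.cons (PF.leaf (nat_lit 7809055)
 (nat_lit 1808725) (nat_lit 41548537) (nat_lit 3119171) [(nat_lit 0), (nat_lit 1808725), (nat_lit 3903863), (nat_lit 8920788)]) (PF.cons (PF.leaf (nat_lit 8154825) (nat_lit 601226) (nat_lit 40995612) (nat_lit 3119679) [(nat_lit 601226), (nat_lit 1814397), (nat_lit 3900152), (nat_lit 8877440)]) (PF.cons (PF.leaf (nat_lit 8505710) (nat_lit 607082) (nat_lit 40440684) (nat_lit 3118764) [(nat_lit 607082), (nat_lit 1818904), (nat_lit 3894865), (nat_lit 8831698)]) (PF.cons (PF.leaf (nat_lit 8860213) (nat_lit 612129) (nat_lit 39885741) (nat_lit 3116472) [(nat_lit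 612129), (nat_lit 1822296), (nat_lit 3888056), (nat_lit 8783743)]) (PF.cons PF.nil PF.nil))))) (PF.cons (PF.cons (PF.leaf (nat_lit 8584841) (nat_lit 1815961) (nat_lit 39932856) (nat_lit 3111056) [(nat_lit 0), (nat_lit 1815961), (nat_lit 3883227), (nat_lit 8783295)]) (PF.cons (PF.leaf (nat_lit 8932814) (nat_lit 610450) (nat_lit 39391611) (nat_lit 3107931) [(nat_lit 610450), (nat_lit 1818759), (nat_lit 3875523), (nat_lit 8734731)]) (PF.cons PF.nil (PF.cons PF.nil PF.nil)))) (PF.cons (PF.cons (PF.leaf (nat_lit 9350847) (nat_lit 1816092) (nat_lit 38375662) (nat_lit 3093704) [(nat_lit 0), (nat_lit 1816092), (nat_lit 3852451), (nat_lit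
 8633815)]) (PF.cons PF.nil PF.nil)) (PF.cons PF.nil PF.nil))))) (PF.cons (PF.cons (PF.cons (PF.leaf (nat_lit 8302507) (nat_lit 3093322) (nat_lit 39802717) (nat_lit 3093322) [(nat_lit 0), (nat_lit 0), (nat_lit 3864280), (nat_lit 8755648)]) (PF.cons (PF.leaf (nat_lit 8641229) (nat_lit 600492) (nat_lit 39279017) (nat_lit 3090967) [(nat_lit 600492), (nat_lit 0), (nat_lit 3857385), (nat_lit 8708795)]) (PF.cons (PF.leaf (nat_lit 8984500) (nat_lit 605532) (nat_lit 38754050) (nat_lit 3087360) [(nat_lit 605532), (nat_lit 0), (nat_lit 3849112), (nat_lit 8659886)]) (PF.cons PF.nil PF.nil)))) (PF.cons (PF.cons (PF.leaf (nat_lit 9055785) (nat_lit 1802485) (nat_lit 38277330) (nat_lit 3077800) [(nat_lit 0), (nat_lit 1802485), (nat_lit 3835407), (nat_lit 8609565)]) (PF.cons (PF.leaf (nat_lit 9395835) (nat_lit 607691) (nat_lit 37766059) (nat_lit 3072355) [(nat_lit 607691), (nat_lit 1803586), (nat_lit 3825150), (nat_lit 8558521)]) PF.nil)) (PF.cons PF.nil PF.nil))) (PF.cons (PF.cons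 (PF.cons (PF.leaf (nat_lit 9503215) (nat_lit 3039801) (nat_lit 36725135) (nat_lit 3039801) [(nat_lit 0), (nat_lit 0), (nat_lit 3782371), (nat_lit 8432020)]) (PF.cons PF.nil PF.nil)) (PF.cons PF.nil PF.nil)) (PF.cons
 PF.nil (PF.cons PF.nil PF.nil)))))))) (PF.cons (PF.cons (PF.cons (PF.cons (PF.leaf (nat_lit 5227764) (nat_lit 2993225) (nat_lit 45924611) (nat_lit 2993225) [(nat_lit 0), (nat_lit 0), (nat_lit 0), (nat_lit 9095488)]) (PF.cons (PF.leaf (nat_lit 5527198) (nat_lit 521387) (nat_lit 45421771) (nat_lit 3010655) [(nat_lit 521387), (nat_lit 0), (nat_lit 0), (nat_lit 9077499)]) (PF.cons (PF.leaf (nat_lit 5842694) (nat_lit 536062) (nat_lit 44897681) (nat_lit 3026461) [(nat_lit 536062), (nat_lit 0), (nat_lit 0), (nat_lit 9056271)]) (PF.cons (PF.leaf (nat_lit 6170816) (nat_lit 548939) (nat_lit 44357876) (nat_lit 3040454) [(nat_lit 548939), (nat_lit 0), (nat_lit 0), (nat_lit 9031831)]) (PF.cons (PF.leaf (nat_lit 6509209) (nat_lit 560309) (nat_lit 43806561) (nat_lit 3052542)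 [(nat_lit 560309), (nat_lit 0), (nat_lit 0), (nat_lit 9004235)]) (PF.cons (PF.leaf (nat_lit 6855957) (nat_lit 570380) (nat_lit 43247065) (nat_lit 3062702) [(nat_lit 570380), (nat_lit 0), (nat_lit 0), (nat_lit 8973571)]) (PF.cons (PF.leaf (nat_lit 7209480) (nat_lit 579312) (nat_lit 42682095) (nat_lit 3070948) [(nat_lit 579312), (nat_lit 0), (nat_lit 0), (nat_lit 8939948)]) (PF.cons (PF.leaf (nat_lit 7568430) (nat_lit 587230)
 (nat_lit 42113893) (nat_lit 3077321) [(nat_lit 587230), (nat_lit 0), (nat_lit 0), (nat_lit 8903492)]) (PF.cons (PF.leaf (nat_lit 7931644) (nat_lit 594236) (nat_lit 41544345) (nat_lit 3081881) [(nat_lit 594236), (nat_lit 0), (nat_lit 0), (nat_lit 8864346)]) (PF.cons PF.nil PF.nil)))))))))) (PF.cons (PF.cons (PF.leaf (nat_lit 5966374) (nat_lit 1718108) (nat_lit 44311331) (nat_lit 3032118) [(nat_lit 0), (nat_lit 1718108), (nat_lit 0), (nat_lit 9023627)]) (PF.cons (PF.leaf (nat_lit 6285727) (nat_lit 549631) (nat_lit 43787068) (nat_lit 3044114) [(nat_lit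 549631), (nat_lit 1733246), (nat_lit 0), (nat_lit 8997376)]) (PF.cons (PF.leaf (nat_lit 6616633) (nat_lit 560855) (nat_lit 43249825) (nat_lit 3054401) [(nat_lit 560855), (nat_lit 1746803), (nat_lit 0), (nat_lit 8968036)]) (PF.cons (PF.leaf (nat_lit 6956584) (nat_lit 570739) (nat_lit 42703437) (nat_lit 3062923) [(nat_lit 570739), (nat_lit 1758795), (nat_lit 0), (nat_lit 8935718)]) (PF.cons (PF.leaf (nat_lit 7303803) (nat_lit 579464) (nat_lit 42150918) (nat_lit 3069675) [(nat_lit 579464), (nat_lit 1769267), (nat_lit 0), (nat_lit 8900547)]) (PF.cons (PF.leaf (nat_lit 7656818) (nat_lit 587167) (nat_lit 41594698) (nat_lit 3074682) [(nat_lit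
 587167), (nat_lit 1778277), (nat_lit 0), (nat_lit 8862658)]) (PF.cons (PF.leaf (nat_lit 8014380) (nat_lit 593957) (nat_lit 41036780) (nat_lit 3077994) [(nat_lit 593957), (nat_lit 1785893), (nat_lit 0), (nat_lit 8822198)]) (PF.cons PF.nil (PF.cons PF.nil PF.nil))))))))) (PF.cons (PF.cons (PF.leaf (nat_lit 6725279) (nat_lit 1749759) (nat_lit 42694916) (nat_lit 3055034) [(nat_lit 0), (nat_lit 1749759), (nat_lit 0), (nat_lit 8929671)]) (PF.cons (PF.leaf (nat_lit 7057469) (nat_lit 570629) (nat_lit 42162971) (nat_lit 3062024) [(nat_lit 570629), (nat_lit 1760636), (nat_lit 0), (nat_lit 8895957)]) (PF.cons (PF.leaf (nat_lit 7397897) (nat_lit 579215) (nat_lit 41623862) (nat_lit 3067381) [(nat_lit 579215), (nat_lit 1770104), (nat_lit 0), (nat_lit 8859463)]) (PF.cons (PF.leaf (nat_lit 7744632) (nat_lit 586757) (nat_lit 41080325) (nat_lit 3071117) [(nat_lit 586757), (nat_lit 1778205), (nat_lit 0), (nat_lit 8820343)]) (PF.cons (PF.leaf (nat_lit 8096300) (nat_lit 593375) (nat_lit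 40534554) (nat_lit 3073266) [(nat_lit 593375), (nat_lit 1784994), (nat_lit 0), (nat_lit 8778749)]) (PF.cons (PF.leaf (nat_lit 8451745) (nat_lit 599168) (nat_lit 39988341) (nat_lit 3073881) [(nat_lit 599168), (nat_lit
 1790532), (nat_lit 0), (nat_lit 8734841)]) (PF.cons PF.nil PF.nil))))))) (PF.cons (PF.cons (PF.leaf (nat_lit 7492609) (nat_lit 1770295) (nat_lit 41100338) (nat_lit 3064120) [(nat_lit 0), (nat_lit 1770295), (nat_lit 0), (nat_lit 8816733)]) (PF.cons (PF.leaf (nat_lit 7832343) (nat_lit 585990) (nat_lit 40570334) (nat_lit 3066672) [(nat_lit 585990), (nat_lit 1777543), (nat_lit 0), (nat_lit 8776592)]) (PF.cons (PF.leaf (nat_lit 8177790) (nat_lit 592485) (nat_lit 40037321) (nat_lit 3067742) [(nat_lit 592485), (nat_lit 1783558), (nat_lit 0), (nat_lit 8734052)]) (PF.cons (PF.leaf (nat_lit 8527409) (nat_lit 598141) (nat_lit 39503282) (nat_lit 3067371) [(nat_lit 598141), (nat_lit 1788391), (nat_lit 0), (nat_lit 8689280)]) (PF.cons PF.nil PF.nil))))) (PF.cons (PF.cons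 (PF.leaf (nat_lit 8259536) (nat_lit 1781611) (nat_lit 39544627) (nat_lit 3061460) [(nat_lit 0), (nat_lit 1781611), (nat_lit 0), (nat_lit 8688140)]) (PF.cons (PF.leaf (nat_lit 8602772) (nat_lit 596839) (nat_lit 39023298) (nat_lit 3060177) [(nat_lit 596839), (nat_lit 1785785), (nat_lit 0), (nat_lit 8642676)]) (PF.cons (PF.leaf (nat_lit 8949779) (nat_lit 601641) (nat_lit 38501936) (nat_lit 3057589) [(nat_lit 601641), (nat_lit
 1788895), (nat_lit 0), (nat_lit 8595211)]) (PF.cons PF.nil PF.nil)))) (PF.cons (PF.cons (PF.leaf (nat_lit 9019479) (nat_lit 1785291) (nat_lit 38039131) (nat_lit 3048980) [(nat_lit 0), (nat_lit 1785291), (nat_lit 0), (nat_lit 8547121)]) (PF.cons PF.nil PF.nil)) (PF.cons PF.nil (PF.cons PF.nil PF.nil)))))))) (PF.cons (PF.cons (PF.cons (PF.leaf (nat_lit 6492570) (nat_lit 3032586) (nat_lit 42467284) (nat_lit 3032586) [(nat_lit 0), (nat_lit 0), (nat_lit 3819242), (nat_lit 8894849)]) (PF.cons (PF.leaf (nat_lit 6809146) (nat_lit 555867) (nat_lit 41963839)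 (nat_lit 3040271) [(nat_lit 555867), (nat_lit 0), (nat_lit 3823188), (nat_lit 8862822)]) (PF.cons (PF.leaf (nat_lit 7136291) (nat_lit 565895) (nat_lit 41449249) (nat_lit 3046399) [(nat_lit 565895), (nat_lit 0), (nat_lit 3825452), (nat_lit 8827960)]) (PF.cons (PF.leaf (nat_lit 7471541) (nat_lit 574631) (nat_lit 40927105) (nat_lit 3050945) [(nat_lit 574631), (nat_lit 0), (nat_lit 3826010), (nat_lit 8790428)]) (PF.cons (PF.leaf (nat_lit 7813204) (nat_lit 582261) (nat_lit 40400188) (nat_lit 3053925) [(nat_lit 582261), (nat_lit 0), (nat_lit 3824876), (nat_lit 8750387)]) (PF.cons (PF.leaf (nat_lit 8159886) (nat_lit 588926) (nat_lit 39870723)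
 (nat_lit 3055375) [(nat_lit 588926), (nat_lit 0), (nat_lit 3822088), (nat_lit 8707997)]) (PF.cons (PF.leaf (nat_lit 8510441) (nat_lit 594736) (nat_lit 39340517) (nat_lit 3055347) [(nat_lit 594736), (nat_lit 0), (nat_lit 3817701), (nat_lit 8663414)]) (PF.cons PF.nil (PF.cons PF.nil PF.nil))))))))) (PF.cons (PF.cons (PF.leaf (nat_lit 7236477) (nat_lit 1751805) (nat_lit 40924007) (nat_lit 3043616) [(nat_lit 0), (nat_lit 1751805), (nat_lit 3819166), (nat_lit 8785107)]) (PF.cons (PF.leaf (nat_lit 7563986) (nat_lit 573728) (nat_lit 40416283) (nat_lit 3046949) [(nat_lit 573728), (nat_lit 1760038), (nat_lit 3818442), (nat_lit 8746685)]) (PF.cons (PF.leaf (nat_lit 7898905) (nat_lit 581290) (nat_lit 39902695) (nat_lit 3048824) [(nat_lit 581290), (nat_lit 1766992), (nat_lit 3816133), (nat_lit 8705793)]) (PF.cons (PF.leaf (nat_lit 8239404) (nat_lit 587856) (nat_lit 39385767) (nat_lit 3049268) [(nat_lit 587856), (nat_lit 1772716), (nat_lit 3812269), (nat_lit 8662611)]) (PF.cons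 (PF.leaf (nat_lit 8584177) (nat_lit 593552) (nat_lit 38867502) (nat_lit 3048323) [(nat_lit 593552), (nat_lit 1777268), (nat_lit 3806898), (nat_lit 8617305)]) (PF.cons PF.nil (PF.cons PF.nil PF.nil))))))) (PF.cons
 (PF.cons (PF.leaf (nat_lit 7985469) (nat_lit 1765373) (nat_lit 39408859) (nat_lit 3042938) [(nat_lit 0), (nat_lit 1765373), (nat_lit 3806479), (nat_lit 8659894)]) (PF.cons (PF.leaf (nat_lit 8319064) (nat_lit 586471) (nat_lit 38905210) (nat_lit 3042452) [(nat_lit 586471), (nat_lit 1770413), (nat_lit 3801633), (nat_lit 8616109)]) (PF.cons (PF.leaf (nat_lit 8657738) (nat_lit 592097) (nat_lit 38399409) (nat_lit 3040660) [(nat_lit 592097), (nat_lit 1774346), (nat_lit 3795363), (nat_lit 8570245)]) (PF.cons (PF.leaf (nat_lit 9000019) (nat_lit 596934) (nat_lit 37893267) (nat_lit 3037610) [(nat_lit 596934), (nat_lit 1777225), (nat_lit 3787726), (nat_lit 8522477)]) (PF.cons PF.nil PF.nil))))) (PF.cons (PF.cons (PF.leaf (nat_lit 8731793) (nat_lit 1771009) (nat_lit 37935774)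 (nat_lit 3032388) [(nat_lit 0), (nat_lit 1771009), (nat_lit 3783126), (nat_lit 8522248)]) (PF.cons (PF.leaf (nat_lit 9067856) (nat_lit 595153) (nat_lit 37441932) (nat_lit 3028630) [(nat_lit 595153), (nat_lit 1773364), (nat_lit 3774745), (nat_lit 8474128)]) (PF.cons PF.nil (PF.cons PF.nil PF.nil)))) (PF.cons (PF.cons (PF.leaf (nat_lit 9469769) (nat_lit 1770111) (nat_lit 36513756) (nat_lit 3013643) [(nat_lit 0), (nat_lit
 1770111), (nat_lit 3750937), (nat_lit 8375013)]) (PF.cons PF.nil PF.nil)) (PF.cons PF.nil PF.nil)))))) (PF.cons (PF.cons (PF.cons (PF.leaf (nat_lit 7725155) (nat_lit 3023582) (nat_lit 39253419) (nat_lit 3023582) [(nat_lit 0), (nat_lit 0), (nat_lit 3786026), (nat_lit 8629878)]) (PF.cons (PF.leaf (nat_lit 8047433) (nat_lit 574773) (nat_lit 38770167) (nat_lit 3023928) [(nat_lit 574773), (nat_lit 0), (nat_lit 3782024), (nat_lit 8587947)]) (PF.cons (PF.leaf (nat_lit 8376443) (nat_lit 581446) (nat_lit 38282080) (nat_lit 3022971) [(nat_lit 581446), (nat_lit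 0), (nat_lit 3776608), (nat_lit 8543824)]) (PF.cons (PF.leaf (nat_lit 8710417) (nat_lit 587172) (nat_lit 37791490) (nat_lit 3020747) [(nat_lit 587172), (nat_lit 0), (nat_lit 3769824), (nat_lit 8497705)]) (PF.cons (PF.leaf (nat_lit 9048112) (nat_lit 592075) (nat_lit 37300227) (nat_lit 3017304) [(nat_lit 592075), (nat_lit 0), (nat_lit 3761724), (nat_lit 8449764)]) PF.nil))))) (PF.cons (PF.cons (PF.leaf (nat_lit 8455492) (nat_lit 1755778) (nat_lit 37816969) (nat_lit 3015043) [(nat_lit 0), (nat_lit 1755778), (nat_lit 3764690), (nat_lit 8495819)]) (PF.cons (PF.leaf (nat_lit 8782700) (nat_lit 585292) (nat_lit 37339248) (nat_lit 3012097)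
 [(nat_lit 585292), (nat_lit 1758985), (nat_lit 3757161), (nat_lit 8449432)]) (PF.cons (PF.leaf (nat_lit 9114449) (nat_lit 590172) (nat_lit 36860022) (nat_lit 3007999) [(nat_lit 590172), (nat_lit 1761195), (nat_lit 3748382), (nat_lit 8401243)]) (PF.cons PF.nil PF.nil)))) (PF.cons (PF.cons (PF.leaf (nat_lit 9181490) (nat_lit 1756765) (nat_lit 36424108) (nat_lit 2998202) [(nat_lit 0), (nat_lit 1756765), (nat_lit 3734477), (nat_lit 8352008)]) (PF.cons (PF.leaf (nat_lit 9510339) (nat_lit 592145) (nat_lit 35956829) (nat_lit 2992460) [(nat_lit 592145), (nat_lit 1757621), (nat_lit 3723955), (nat_lit 8302112)]) PF.nil)) (PF.cons PF.nil (PF.cons PF.nil PF.nil))))) (PF.cons (PF.cons (PF.cons (PF.leaf (nat_lit 8904028) (nat_lit 2982005) (nat_lit 36320175) (nat_lit 2982005) [(nat_lit 0), (nat_lit 0), (nat_lit 3717261), (nat_lit 8327424)]) (PF.cons (PF.leaf (nat_lit 9224704) (nat_lit 582776) (nat_lit 35867600) (nat_lit 2977077) [(nat_lit 582776), (nat_lit 0), (nat_lit 3707603), (nat_lit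 8279274)]) (PF.cons (PF.leaf (nat_lit 9549489) (nat_lit 587012) (nat_lit 35414003) (nat_lit 2971127) [(nat_lit 587012), (nat_lit 0), (nat_lit 3696844), (nat_lit 8229561)]) (PF.cons PF.nil PF.nil)))) (PF.cons
 (PF.cons (PF.leaf (nat_lit 9610147) (nat_lit 1739694) (nat_lit 35004316) (nat_lit 2960181) [(nat_lit 0), (nat_lit 1739694), (nat_lit 3681709), (nat_lit 8179745)]) (PF.cons PF.nil PF.nil)) (PF.cons PF.nil PF.nil))) (PF.cons (PF.cons (PF.cons (PF.leaf (nat_lit 10019246) (nat_lit 2919349) (nat_lit 33670847) (nat_lit 2919349) [(nat_lit 0), (nat_lit 0), (nat_lit 3626026), (nat_lit 8007255)]) (PF.cons PF.nil PF.nil)) (PF.cons PF.nil PF.nil)) (PF.cons PF.nil PF.nil)))))) (PF.cons (PF.cons (PF.cons (PF.cons (PF.leaf (nat_lit 7189403) (nat_lit 2948759) (nat_lit 38661877) (nat_lit 2948759) [(nat_lit 0), (nat_lit 0), (nat_lit 0), (nat_lit 8499391)]) (PF.cons (PF.leaf (nat_lit 7491638) (nat_lit 545294) (nat_lit 38223505) (nat_lit 2952127) [(nat_lit 545294), (nat_lit 0), (nat_lit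 0), (nat_lit 8462628)]) (PF.cons (PF.leaf (nat_lit 7803411) (nat_lit 554127) (nat_lit 37775920) (nat_lit 2954132) [(nat_lit 554127), (nat_lit 0), (nat_lit 0), (nat_lit 8423501)]) (PF.cons (PF.leaf (nat_lit 8122395) (nat_lit 561720) (nat_lit 37322196) (nat_lit 2954789) [(nat_lit 561720), (nat_lit 0), (nat_lit 0), (nat_lit 8382222)]) (PF.cons (PF.leaf (nat_lit 8447015) (nat_lit 568263) (nat_lit 36864695) (nat_lit
 2954134) [(nat_lit 568263), (nat_lit 0), (nat_lit 0), (nat_lit 8338977)]) (PF.cons (PF.leaf (nat_lit 8775989) (nat_lit 573901) (nat_lit 36405285) (nat_lit 2952216) [(nat_lit 573901), (nat_lit 0), (nat_lit 0), (nat_lit 8293934)]) (PF.cons PF.nil PF.nil))))))) (PF.cons (PF.cons (PF.leaf (nat_lit 7890914) (nat_lit 1704709) (nat_lit 37322522) (nat_lit 2948108) [(nat_lit 0), (nat_lit 1704709), (nat_lit 0), (nat_lit 8377824)]) (PF.cons (PF.leaf (nat_lit 8202493) (nat_lit 560102) (nat_lit 36881523) (nat_lit 2947916) [(nat_lit 560102), (nat_lit 1710401), (nat_lit 0),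 (nat_lit 8336289)]) (PF.cons (PF.leaf (nat_lit 8520740) (nat_lit 566643) (nat_lit 36435729) (nat_lit 2946493) [(nat_lit 566643), (nat_lit 1714956), (nat_lit 0), (nat_lit 8292782)]) (PF.cons (PF.leaf (nat_lit 8843901) (nat_lit 572247) (nat_lit 35987279) (nat_lit 2943880) [(nat_lit 572247), (nat_lit 1718435), (nat_lit 0), (nat_lit 8247492)]) (PF.cons (PF.leaf (nat_lit 9170810) (nat_lit 577039) (nat_lit 35537855) (nat_lit 2940129) [(nat_lit 577039), (nat_lit 1720902), (nat_lit 0), (nat_lit 8200588)]) PF.nil))))) (PF.cons (PF.cons (PF.leaf (nat_lit 8595656) (nat_lit 1711694) (nat_lit 36009905) (nat_lit 2938295) [(nat_lit 0),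
 (nat_lit 1711694), (nat_lit 0), (nat_lit 8245740)]) (PF.cons (PF.leaf (nat_lit 8912319) (nat_lit 570328) (nat_lit 35573015) (nat_lit 2935048) [(nat_lit 570328), (nat_lit 1714679), (nat_lit 0), (nat_lit 8200353)]) (PF.cons (PF.leaf (nat_lit 9233542) (nat_lit 575108) (nat_lit 35134394) (nat_lit 2930722) [(nat_lit 575108), (nat_lit 1716701), (nat_lit 0), (nat_lit 8153358)]) (PF.cons PF.nil PF.nil)))) (PF.cons (PF.cons (PF.leaf (nat_lit 9297112) (nat_lit 1712200) (nat_lit 34734665) (nat_lit 2920891) [(nat_lit 0), (nat_lit 1712200), (nat_lit 0), (nat_lit 8105551)]) (PF.cons (PF.leaf (nat_lit 9615717) (nat_lit 576991) (nat_lit 34306428) (nat_lit 2915068) [(nat_lit 576991), (nat_lit 1712948), (nat_lit 0), (nat_lit 8057159)]) PF.nil)) (PF.cons PF.nil (PF.cons PF.nil PF.nil)))))) (PF.cons (PF.cons (PF.cons (PF.leaf (nat_lit 8338285) (nat_lit 2920427) (nat_lit 35883919) (nat_lit 2920427) [(nat_lit 0), (nat_lit 0), (nat_lit 3648500), (nat_lit 8218655)]) (PF.cons (PF.leaf (nat_lit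 8644789) (nat_lit 559258) (nat_lit 35464265) (nat_lit 2918081) [(nat_lit 559258), (nat_lit 0), (nat_lit 3641613), (nat_lit 8175197)]) (PF.cons (PF.leaf (nat_lit 8957414) (nat_lit 565070) (nat_lit 35040562) (nat_lit
 2914630) [(nat_lit 565070), (nat_lit 0), (nat_lit 3633549), (nat_lit 8129976)]) (PF.cons (PF.leaf (nat_lit 9274484) (nat_lit 569991) (nat_lit 34614788) (nat_lit 2910122) [(nat_lit 569991), (nat_lit 0), (nat_lit 3624363), (nat_lit 8083187)]) (PF.cons PF.nil PF.nil))))) (PF.cons (PF.cons (PF.leaf (nat_lit 9026077) (nat_lit 1698147) (nat_lit 34639188) (nat_lit 2905100) [(nat_lit 0), (nat_lit 1698147), (nat_lit 3619960), (nat_lit 8082138)]) (PF.cons (PF.leaf (nat_lit 9336788) (nat_lit 567725) (nat_lit 34224524) (nat_lit 2900108) [(nat_lit 567725), (nat_lit 1699746), (nat_lit 3610306), (nat_lit 8035467)]) (PF.cons (PF.leaf (nat_lit 9651628) (nat_lit 571902) (nat_lit 33808577) (nat_lit 2894157) [(nat_lit 571902), (nat_lit 1700475), (nat_lit 3599632), (nat_lit 7987388)])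 (PF.cons PF.nil PF.nil)))) (PF.cons (PF.cons (PF.leaf (nat_lit 9709413) (nat_lit 1695237) (nat_lit 33432201) (nat_lit 2883362) [(nat_lit 0), (nat_lit 1695237), (nat_lit 3584761), (nat_lit 7939337)]) (PF.cons PF.nil PF.nil)) (PF.cons PF.nil (PF.cons PF.nil PF.nil))))) (PF.cons (PF.cons (PF.cons (PF.leaf (nat_lit 9438284) (nat_lit 2868680) (nat_lit 33348540) (nat_lit 2868680) [(nat_lit 0), (nat_lit 0), (nat_lit 3569249),
 (nat_lit 7917697)]) (PF.cons (PF.leaf (nat_lit 9742977) (nat_lit 564173) (nat_lit 32955216) (nat_lit 2862284) [(nat_lit 564173), (nat_lit 0), (nat_lit 3558146), (nat_lit 7870281)]) (PF.cons PF.nil (PF.cons PF.nil PF.nil)))) (PF.cons (PF.cons (PF.leaf (nat_lit 10103975) (nat_lit 1676418) (nat_lit 32206546) (nat_lit 2843530) [(nat_lit 0), (nat_lit 1676418), (nat_lit 3530556), (nat_lit 7773734)]) (PF.cons PF.nil PF.nil)) (PF.cons PF.nil PF.nil))) (PF.cons (PF.cons (PF.cons (PF.leaf (nat_lit 10482003) (nat_lit 2802082) (nat_lit 31052806) (nat_lit 2802082)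 [(nat_lit 0), (nat_lit 0), (nat_lit 3474832), (nat_lit 7609809)]) (PF.cons PF.nil PF.nil)) (PF.cons PF.nil PF.nil)) (PF.cons PF.nil PF.nil))))) (PF.cons (PF.cons (PF.cons (PF.cons (PF.leaf (nat_lit 8887273) (nat_lit 2814417) (nat_lit 32998574) (nat_lit 2814417) [(nat_lit 0), (nat_lit 0), (nat_lit 0), (nat_lit 7823955)]) (PF.cons (PF.leaf (nat_lit 9179551) (nat_lit 542675) (nat_lit 32632286) (nat_lit 2810423) [(nat_lit 542675), (nat_lit 0), (nat_lit 0), (nat_lit 7780857)]) (PF.cons (PF.leaf (nat_lit 9477483) (nat_lit 547833) (nat_lit 32262484) (nat_lit 2805475) [(nat_lit 547833), (nat_lit 0), (nat_lit 0), (nat_lit 7736296)]) (PF.cons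
 (PF.leaf (nat_lit 9779466) (nat_lit 552152) (nat_lit 31890862) (nat_lit 2799626) [(nat_lit 552152), (nat_lit 0), (nat_lit 0), (nat_lit 7690466)]) (PF.cons PF.nil PF.nil))))) (PF.cons (PF.cons (PF.leaf (nat_lit 9537961) (nat_lit 1639445) (nat_lit 31914007) (nat_lit 2795182) [(nat_lit 0), (nat_lit 1639445), (nat_lit 0), (nat_lit 7690044)]) (PF.cons (PF.leaf (nat_lit 9833952) (nat_lit 549671) (nat_lit 31551953) (nat_lit 2789010) [(nat_lit 549671), (nat_lit 1639982), (nat_lit 0), (nat_lit 7644548)]) (PF.cons (PF.leaf (nat_lit 10133773) (nat_lit 553326) (nat_lit 31188720) (nat_lit 2782025) [(nat_lit 553326), (nat_lit 1639750), (nat_lit 0), (nat_lit 7597915)]) (PF.cons PF.nil PF.nil)))) (PF.cons (PF.cons (PF.leaf (nat_lit 10184326) (nat_lit 1634115) (nat_lit 30861579) (nat_lit 2770872) [(nat_lit 0), (nat_lit 1634115), (nat_lit 0), (nat_lit 7552032)]) (PF.cons PF.nil PF.nil)) PF.nil))) (PF.cons (PF.cons (PF.cons (PF.leaf (nat_lit 9920232) (nat_lit 2757601) (nat_lit 30793697)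 (nat_lit 2757601) [(nat_lit 0), (nat_lit 0), (nat_lit 3425260), (nat_lit 7533063)]) (PF.cons (PF.leaf (nat_lit 10210696) (nat_lit 545542) (nat_lit 30449682) (nat_lit 2750414) [(nat_lit 545542), (nat_lit 0), (nat_lit
 3413504), (nat_lit 7487417)]) (PF.cons PF.nil PF.nil))) (PF.cons (PF.cons (PF.leaf (nat_lit 10550834) (nat_lit 1614642) (nat_lit 29796011) (nat_lit 2730919) [(nat_lit 0), (nat_lit 1614642), (nat_lit 3385512), (nat_lit 7395431)]) PF.nil) PF.nil)) (PF.cons PF.nil PF.nil))) (PF.cons (PF.cons (PF.cons (PF.cons (PF.leaf (nat_lit 10360583) (nat_lit 2650936) (nat_lit 28580233) (nat_lit 2650936) [(nat_lit 0), (nat_lit 0), (nat_lit 0), (nat_lit 7175528)]) (PF.cons (PF.leaf (nat_lit 10638287) (nat_lit 527354) (nat_lit 28277384) (nat_lit 2643379) [(nat_lit 527354), (nat_lit 0), (nat_lit 0), (nat_lit 7132138)]) PF.nil)) (PF.cons PF.nil PF.nil)) (PF.cons PF.nil PF.nil)) (PF.cons PF.nil (PF.cons PF.nil (PF.cons PF.nil PF.nil)))))))))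

def p13_15_0_0 : pfC (piC [(nat_lit 36888796), (nat_lit 24534081), (nat_lit 18263511), (nat_lit 12310016)] (nat_lit 23126356)) p13_15_0 (nat_lit 4) (nat_lit 0) (nat_lit 1) = true := by decide +kernel
def p13_15_0_1 : pfC (piC [(nat_lit 36888796), (nat_lit 24534081), (nat_lit 18263511), (nat_lit 12310016)] (nat_lit 23126356)) p13_15_0 (nat_lit 4) (nat_lit 1) (nat_lit 2) = true := by decide +kernel
def p13_15_0_2 : pfC (piC [(nat_lit 36888796), (nat_lit 24534081), (nat_lit 18263511), (nat_lit 12310016)] (nat_lit 23126356)) p13_15_0 (nat_lit 4) (nat_lit 2) (nat_lit 3) = true := by decide +kernel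
def p13_15_0_3 : pfC (piC [(nat_lit 36888796), (nat_lit 24534081), (nat_lit 18263511), (nat_lit 12310016)] (nat_lit 23126356)) p13_15_0 (nat_lit 4) (nat_lit 3) (nat_lit 4) = true := by decide +kernel
def p13_15_0_4 : pfC (piC [(nat_lit 36888796), (nat_lit 24534081), (nat_lit 18263511), (nat_lit 12310016)] (nat_lit 23126356)) p13_15_0 (nat_lit 4) (nat_lit 4) (nat_lit 5) = true := by decide +kernel
def p13_15_0_5 : pfC (piC [(nat_lit 36888796), (nat_lit 24534081), (nat_lit 18263511), (nat_lit 12310016)] (nat_lit 23126356)) p13_15_0 (nat_lit 4) (nat_lit 5) (nat_lit 6) = true := by decide +kernel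
def p13_15_0_6 : pfC (piC [(nat_lit 36888796), (nat_lit 24534081), (nat_lit 18263511), (nat_lit 12310016)] (nat_lit 23126356)) p13_15_0 (nat_lit 4) (nat_lit 6) (nat_lit 7) = true := by decide +kernel
def p13_15_0_7 : pfC (piC [(nat_lit 36888796), (nat_lit 24534081), (nat_lit 18263511), (nat_lit 12310016)] (nat_lit 23126356)) p13_15_0 (nat_lit 4) (nat_lit 7) (nat_lit 8) = true := by decide +kernel
def p13_15_0_8 : pfC (piC [(nat_lit 36888796), (nat_lit 24534081), (nat_lit 18263511), (nat_lit 12310016)] (nat_lit 23126356)) p13_15_0 (nat_lit 4) (nat_lit 8) (nat_lit 9) = true := by decide +kernel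
def p13_15_0_9 : pfC (piC [(nat_lit 36888796), (nat_lit 24534081), (nat_lit 18263511), (nat_lit 12310016)] (nat_lit 23126356)) p13_15_0 (nat_lit 4) (nat_lit 9) (nat_lit 10) = true := by decide +kernel
def p13_15_0_10 : pfC (piC [(nat_lit 36888796), (nat_lit 24534081), (nat_lit 18263511), (nat_lit 12310016)] (nat_lit 23126356)) p13_15_0 (nat_lit 4) (nat_lit 10) (nat_lit 11) = true := by decide +kernel
def p13_15_0_11 : pfC (piC [(nat_lit 36888796), (nat_lit 24534081), (nat_lit 18263511), (nat_lit 12310016)] (nat_lit 23126356)) p13_15_0 (nat_lit 4) (nat_lit 11) (nat_lit 12) = true := by decide +kernel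
def p13_15_0_12 : pfC (piC [(nat_lit 36888796), (nat_lit 24534081), (nat_lit 18263511), (nat_lit 12310016)] (nat_lit 23126356)) p13_15_0 (nat_lit 4) (nat_lit 12) (nat_lit 13) = true := by decide +kernel
def p13_15_0_13 : pfC (piC [(nat_lit 36888796), (nat_lit 24534081), (nat_lit 18263511), (nat_lit 12310016)] (nat_lit 23126356)) p13_15_0 (nat_lit 4) (nat_lit 13) (nat_lit 14) = true := by decide +kernel
def p13_15_0_14 : pfC (piC [(nat_lit 36888796), (nat_lit 24534081), (nat_lit 18263511), (nat_lit 12310016)] (nat_lit 23126356)) p13_15_0 (nat_lit 4) (nat_lit 14) (nat_lit 15) = true := by decide +kernel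
def p13_15_0_15 : pfC (piC [(nat_lit 36888796), (nat_lit 24534081), (nat_lit 18263511), (nat_lit 12310016)] (nat_lit 23126356)) p13_15_0 (nat_lit 4) (nat_lit 15) (nat_lit 16) = true := by decide +kernel
def p13_15_0_16 : pfC (piC [(nat_lit 36888796), (nat_lit 24534081), (nat_lit 18263511), (nat_lit 12310016)] (nat_lit 23126356)) p13_15_0 (nat_lit 4) (nat_lit 16) (nat_lit 17) = true := by decide +kernel
def p13_15_0_17 : pfC (piC [(nat_lit 36888796), (nat_lit 24534081), (nat_lit 18263511), (nat_lit 12310016)] (nat_lit 23126356)) p13_15_0 (nat_lit 4) (nat_lit 17) (nat_lit 18) = true := by decide +kernel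
def p13_15_0_18 : pfC (piC [(nat_lit 36888796), (nat_lit 24534081), (nat_lit 18263511), (nat_lit 12310016)] (nat_lit 23126356)) p13_15_0 (nat_lit 4) (nat_lit 18) (nat_lit 19) = true := by decide +kernel
def p13_15_0_19 : pfC (piC [(nat_lit 36888796), (nat_lit 24534081), (nat_lit 18263511), (nat_lit 12310016)] (nat_lit 23126356)) p13_15_0 (nat_lit 4) (nat_lit 19) (nat_lit 20) = true := by decide +kernel
def p13_15_0_20 : pfC (piC [(nat_lit 36888796), (nat_lit 24534081), (nat_lit 18263511), (nat_lit 12310016)] (nat_lit 23126356)) p13_15_0 (nat_lit 4) (nat_lit 20) (nat_lit 21) = true := by decide +kernel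
def p13_15_0_21 : pfC (piC [(nat_lit 36888796), (nat_lit 24534081), (nat_lit 18263511), (nat_lit 12310016)] (nat_lit 23126356)) p13_15_0 (nat_lit 4) (nat_lit 21) (nat_lit 22) = true := by decide +kernel
def p13_15_0_22 : pfC (piC [(nat_lit 36888796), (nat_lit 24534081), (nat_lit 18263511), (nat_lit 12310016)] (nat_lit 23126356)) p13_15_0 (nat_lit 4) (nat_lit 22) (nat_lit 23) = true := by decide +kernel
def p13_15_0_23 : pfC (piC [(nat_lit 36888796), (nat_lit 24534081), (nat_lit 18263511), (nat_lit 12310016)] (nat_lit 23126356)) p13_15_0 (nat_lit 4) (nat_lit 23) (nat_lit 24) = true := by decide +kernel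
def p13_15_0_24 : pfC (piC [(nat_lit 36888796), (nat_lit 24534081), (nat_lit 18263511), (nat_lit 12310016)] (nat_lit 23126356)) p13_15_0 (nat_lit 4) (nat_lit 24) (nat_lit 25) = true := by decide +kernel
def p13_15_0_25 : pfC (piC [(nat_lit 36888796), (nat_lit 24534081), (nat_lit 18263511), (nat_lit 12310016)] (nat_lit 23126356)) p13_15_0 (nat_lit 4) (nat_lit 25) (nat_lit 26) = true := by decide +kernel
def p13_15_0_26 : pfC (piC [(nat_lit 36888796), (nat_lit 24534081), (nat_lit 18263511), (nat_lit 12310016)] (nat_lit 23126356)) p13_15_0 (nat_lit 4) (nat_lit 26) (nat_lit 27) = true := by decide +kernel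
def p13_15_0_27 : pfC (piC [(nat_lit 36888796), (nat_lit 24534081), (nat_lit 18263511), (nat_lit 12310016)] (nat_lit 23126356)) p13_15_0 (nat_lit 4) (nat_lit 27) (nat_lit 28) = true := by decide +kernel
def p13_15_0_28 : pfC (piC [(nat_lit 36888796), (nat_lit 24534081), (nat_lit 18263511), (nat_lit 12310016)] (nat_lit 23126356)) p13_15_0 (nat_lit 4) (nat_lit 28) (nat_lit 29) = true := by decide +kernel
def p13_15_0_29 : pfC (piC [(nat_lit 36888796), (nat_lit 24534081), (nat_lit 18263511), (nat_lit 12310016)] (nat_lit 23126356)) p13_15_0 (nat_lit 4) (nat_lit 29) (nat_lit 30) = true := by decide +kernel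
def p13_15_0_30 : pfC (piC [(nat_lit 36888796), (nat_lit 24534081), (nat_lit 18263511), (nat_lit 12310016)] (nat_lit 23126356)) p13_15_0 (nat_lit 4) (nat_lit 30) (nat_lit 31) = true := by decide +kernel
def p13_15_0_31 : pfC (piC [(nat_lit 36888796), (nat_lit 24534081), (nat_lit 18263511), (nat_lit 12310016)] (nat_lit 23126356)) p13_15_0 (nat_lit 4) (nat_lit 31) (nat_lit 32) = true := by decide +kernel
def p13_15_0_32 : pfC (piC [(nat_lit 36888796), (nat_lit 24534081), (nat_lit 18263511), (nat_lit 12310016)] (nat_lit 23126356)) p13_15_0 (nat_lit 4) (nat_lit 32) (nat_lit 33) = true := by decide +kernel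
def p13_15_0_33 : pfC (piC [(nat_lit 36888796), (nat_lit 24534081), (nat_lit 18263511), (nat_lit 12310016)] (nat_lit 23126356)) p13_15_0 (nat_lit 4) (nat_lit 33) (nat_lit 34) = true := by decide +kernel
def p13_15_0_34 : pfC (piC [(nat_lit 36888796), (nat_lit 24534081), (nat_lit 18263511), (nat_lit 12310016)] (nat_lit 23126356)) p13_15_0 (nat_lit 4) (nat_lit 34) (nat_lit 35) = true := by decide +kernel
def p13_15_0_35 : pfC (piC [(nat_lit 36888796), (nat_lit 24534081), (nat_lit 18263511), (nat_lit 12310016)] (nat_lit 23126356)) p13_15_0 (nat_lit 4) (nat_lit 35) (nat_lit 36) = true := by decide +kernel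
def p13_15_0_36 : pfC (piC [(nat_lit 36888796), (nat_lit 24534081), (nat_lit 18263511), (nat_lit 12310016)] (nat_lit 23126356)) p13_15_0 (nat_lit 4) (nat_lit 36) (nat_lit 37) = true := by decide +kernel
def p13_15_0_37 : pfC (piC [(nat_lit 36888796), (nat_lit 24534081), (nat_lit 18263511), (nat_lit 12310016)] (nat_lit 23126356)) p13_15_0 (nat_lit 4) (nat_lit 37) (nat_lit 38) = true := by decide +kernel
def p13_15_0_38 : pfC (piC [(nat_lit 36888796), (nat_lit 24534081), (nat_lit 18263511), (nat_lit 12310016)] (nat_lit 23126356)) p13_15_0 (nat_lit 4) (nat_lit 38) (nat_lit 39) = true := by decide +kernel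
def p13_15_0_39 : pfC (piC [(nat_lit 36888796), (nat_lit 24534081), (nat_lit 18263511), (nat_lit 12310016)] (nat_lit 23126356)) p13_15_0 (nat_lit 4) (nat_lit 39) (nat_lit 40) = true := by decide +kernel
def p13_15_0_40 : pfC (piC [(nat_lit 36888796), (nat_lit 24534081), (nat_lit 18263511), (nat_lit 12310016)] (nat_lit 23126356)) p13_15_0 (nat_lit 4) (nat_lit 40) (nat_lit 41) = true := by decide +kernel
def p13_15_0_41 : pfC (piC [(nat_lit 36888796), (nat_lit 24534081), (nat_lit 18263511), (nat_lit 12310016)] (nat_lit 23126356)) p13_15_0 (nat_lit 4) (nat_lit 41) (nat_lit 42) = true := by decide +kernel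
def p13_15_0_42 : pfC (piC [(nat_lit 36888796), (nat_lit 24534081), (nat_lit 18263511), (nat_lit 12310016)] (nat_lit 23126356)) p13_15_0 (nat_lit 4) (nat_lit 42) (nat_lit 43) = true := by decide +kernel
def p13_15_0_43 : pfC (piC [(nat_lit 36888796), (nat_lit 24534081), (nat_lit 18263511), (nat_lit 12310016)] (nat_lit 23126356)) p13_15_0 (nat_lit 4) (nat_lit 43) (nat_lit 44) = true := by decide +kernel
def p13_15_0_44 : pfC (piC [(nat_lit 36888796), (nat_lit 24534081), (nat_lit 18263511), (nat_lit 12310016)] (nat_lit 23126356)) p13_15_0 (nat_lit 4) (nat_lit 44) (nat_lit 45) = true := by decide +kernel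
def p13_15_0_45 : pfC (piC [(nat_lit 36888796), (nat_lit 24534081), (nat_lit 18263511), (nat_lit 12310016)] (nat_lit 23126356)) p13_15_0 (nat_lit 4) (nat_lit 45) (nat_lit 46) = true := by decide +kernel
def p13_15_0_46 : pfC (piC [(nat_lit 36888796), (nat_lit 24534081), (nat_lit 18263511), (nat_lit 12310016)] (nat_lit 23126356)) p13_15_0 (nat_lit 4) (nat_lit 46) (nat_lit 47) = true := by decide +kernel
def p13_15_0_47 : pfC (piC [(nat_lit 36888796), (nat_lit 24534081), (nat_lit 18263511), (nat_lit 12310016)] (nat_lit 23126356)) p13_15_0 (nat_lit 4) (nat_lit 47) (nat_lit 48) = true := by decide +kernel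
def p13_15_0_48 : pfC (piC [(nat_lit 36888796), (nat_lit 24534081), (nat_lit 18263511), (nat_lit 12310016)] (nat_lit 23126356)) p13_15_0 (nat_lit 4) (nat_lit 48) (nat_lit 49) = true := by decide +kernel
def p13_15_0_49 : pfC (piC [(nat_lit 36888796), (nat_lit 24534081), (nat_lit 18263511), (nat_lit 12310016)] (nat_lit 23126356)) p13_15_0 (nat_lit 4) (nat_lit 49) (nat_lit 50) = true := by decide +kernel
def p13_15_0_50 : pfC (piC [(nat_lit 36888796), (nat_lit 24534081), (nat_lit 18263511), (nat_lit 12310016)] (nat_lit 23126356)) p13_15_0 (nat_lit 4) (nat_lit 50) (nat_lit 51) = true := by decide +kernel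
def p13_15_0_51 : pfC (piC [(nat_lit 36888796), (nat_lit 24534081), (nat_lit 18263511), (nat_lit 12310016)] (nat_lit 23126356)) p13_15_0 (nat_lit 4) (nat_lit 51) (nat_lit 52) = true := by decide +kernel
def p13_15_0_52 : pfC (piC [(nat_lit 36888796), (nat_lit 24534081), (nat_lit 18263511), (nat_lit 12310016)] (nat_lit 23126356)) p13_15_0 (nat_lit 4) (nat_lit 52) (nat_lit 53) = true := by decide +kernel
def p13_15_0_53 : pfC (piC [(nat_lit 36888796), (nat_lit 24534081), (nat_lit 18263511), (nat_lit 12310016)] (nat_lit 23126356)) p13_15_0 (nat_lit 4) (nat_lit 53) (nat_lit 54) = true := by decide +kernel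
def p13_15_0_54 : pfC (piC [(nat_lit 36888796), (nat_lit 24534081), (nat_lit 18263511), (nat_lit 12310016)] (nat_lit 23126356)) p13_15_0 (nat_lit 4) (nat_lit 54) (nat_lit 55) = true := by decide +kernel
def p13_15_0_55 : pfC (piC [(nat_lit 36888796), (nat_lit 24534081), (nat_lit 18263511), (nat_lit 12310016)] (nat_lit 23126356)) p13_15_0 (nat_lit 4) (nat_lit 55) (nat_lit 56) = true := by decide +kernel
def p13_15_0_56 : pfC (piC [(nat_lit 36888796), (nat_lit 24534081), (nat_lit 18263511), (nat_lit 12310016)] (nat_lit 23126356)) p13_15_0 (nat_lit 4) (nat_lit 56) (nat_lit 57) = true := by decide +kernel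
def p13_15_0_57 : pfC (piC [(nat_lit 36888796), (nat_lit 24534081), (nat_lit 18263511), (nat_lit 12310016)] (nat_lit 23126356)) p13_15_0 (nat_lit 4) (nat_lit 57) (nat_lit 58) = true := by decide +kernel
def p13_15_0_58 : pfC (piC [(nat_lit 36888796), (nat_lit 24534081), (nat_lit 18263511), (nat_lit 12310016)] (nat_lit 23126356)) p13_15_0 (nat_lit 4) (nat_lit 58) (nat_lit 59) = true := by decide +kernel
def p13_15_0_59 : pfC (piC [(nat_lit 36888796), (nat_lit 24534081), (nat_lit 18263511), (nat_lit 12310016)] (nat_lit 23126356)) p13_15_0 (nat_lit 4) (nat_lit 59) (nat_lit 60) = true := by decide +kernel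
def p13_15_0_60 : pfC (piC [(nat_lit 36888796), (nat_lit 24534081), (nat_lit 18263511), (nat_lit 12310016)] (nat_lit 23126356)) p13_15_0 (nat_lit 4) (nat_lit 60) (nat_lit 61) = true := by decide +kernel
def p13_15_0_61 : pfC (piC [(nat_lit 36888796), (nat_lit 24534081), (nat_lit 18263511), (nat_lit 12310016)] (nat_lit 23126356)) p13_15_0 (nat_lit 4) (nat_lit 61) (nat_lit 62) = true := by decide +kernel
def p13_15_0_62 : pfC (piC [(nat_lit 36888796), (nat_lit 24534081), (nat_lit 18263511), (nat_lit 12310016)] (nat_lit 23126356)) p13_15_0 (nat_lit 4) (nat_lit 62) (nat_lit 63) = true := by decide +kernel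
def p13_15_0_63 : pfC (piC [(nat_lit 36888796), (nat_lit 24534081), (nat_lit 18263511), (nat_lit 12310016)] (nat_lit 23126356)) p13_15_0 (nat_lit 4) (nat_lit 63) (nat_lit 64) = true := by decide +kernel
def p13_15_0_64 : pfC (piC [(nat_lit 36888796), (nat_lit 24534081), (nat_lit 18263511), (nat_lit 12310016)] (nat_lit 23126356)) p13_15_0 (nat_lit 4) (nat_lit 64) (nat_lit 65) = true := by decide +kernel
def p13_15_0_65 : pfC (piC [(nat_lit 36888796), (nat_lit 24534081), (nat_lit 18263511), (nat_lit 12310016)] (nat_lit 23126356)) p13_15_0 (nat_lit 4) (nat_lit 65) (nat_lit 66) = true := by decide +kernel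
def p13_15_0_66 : pfC (piC [(nat_lit 36888796), (nat_lit 24534081), (nat_lit 18263511), (nat_lit 12310016)] (nat_lit 23126356)) p13_15_0 (nat_lit 4) (nat_lit 66) (nat_lit 67) = true := by decide +kernel
def p13_15_0_67 : pfC (piC [(nat_lit 36888796), (nat_lit 24534081), (nat_lit 18263511), (nat_lit 12310016)] (nat_lit 23126356)) p13_15_0 (nat_lit 4) (nat_lit 67) (nat_lit 68) = true := by decide +kernel
def p13_15_0_68 : pfC (piC [(nat_lit 36888796), (nat_lit 24534081), (nat_lit 18263511), (nat_lit 12310016)] (nat_lit 23126356)) p13_15_0 (nat_lit 4) (nat_lit 68) (nat_lit 69) = true := by decide +kernel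
def p13_15_0_69 : pfC (piC [(nat_lit 36888796), (nat_lit 24534081), (nat_lit 18263511), (nat_lit 12310016)] (nat_lit 23126356)) p13_15_0 (nat_lit 4) (nat_lit 69) (nat_lit 70) = true := by decide +kernel
def p13_15_0_70 : pfC (piC [(nat_lit 36888796), (nat_lit 24534081), (nat_lit 18263511), (nat_lit 12310016)] (nat_lit 23126356)) p13_15_0 (nat_lit 4) (nat_lit 70) (nat_lit 71) = true := by decide +kernel
def p13_15_0_71 : pfC (piC [(nat_lit 36888796), (nat_lit 24534081), (nat_lit 18263511), (nat_lit 12310016)] (nat_lit 23126356)) p13_15_0 (nat_lit 4) (nat_lit 71) (nat_lit 72) = true := by decide +kernel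
def p13_15_0_72 : pfC (piC [(nat_lit 36888796), (nat_lit 24534081), (nat_lit 18263511), (nat_lit 12310016)] (nat_lit 23126356)) p13_15_0 (nat_lit 4) (nat_lit 72) (nat_lit 73) = true := by decide +kernel
def p13_15_0_73 : pfC (piC [(nat_lit 36888796), (nat_lit 24534081), (nat_lit 18263511), (nat_lit 12310016)] (nat_lit 23126356)) p13_15_0 (nat_lit 4) (nat_lit 73) (nat_lit 74) = true := by decide +kernel
def p13_15_0_74 : pfC (piC [(nat_lit 36888796), (nat_lit 24534081), (nat_lit 18263511), (nat_lit 12310016)] (nat_lit 23126356)) p13_15_0 (nat_lit 4) (nat_lit 74) (nat_lit 75) = true := by decide +kernel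
def p13_15_0_75 : pfC (piC [(nat_lit 36888796), (nat_lit 24534081), (nat_lit 18263511), (nat_lit 12310016)] (nat_lit 23126356)) p13_15_0 (nat_lit 4) (nat_lit 75) (nat_lit 76) = true := by decide +kernel
def p13_15_0_76 : pfC (piC [(nat_lit 36888796), (nat_lit 24534081), (nat_lit 18263511), (nat_lit 12310016)] (nat_lit 23126356)) p13_15_0 (nat_lit 4) (nat_lit 76) (nat_lit 77) = true := by decide +kernel
def p13_15_0_77 : pfC (piC [(nat_lit 36888796), (nat_lit 24534081), (nat_lit 18263511), (nat_lit 12310016)] (nat_lit 23126356)) p13_15_0 (nat_lit 4) (nat_lit 77) (nat_lit 78) = true := by decide +kernel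
def p13_15_0_78 : pfC (piC [(nat_lit 36888796), (nat_lit 24534081), (nat_lit 18263511), (nat_lit 12310016)] (nat_lit 23126356)) p13_15_0 (nat_lit 4) (nat_lit 78) (nat_lit 79) = true := by decide +kernel
def p13_15_0_79 : pfC (piC [(nat_lit 36888796), (nat_lit 24534081), (nat_lit 18263511), (nat_lit 12310016)] (nat_lit 23126356)) p13_15_0 (nat_lit 4) (nat_lit 79) (nat_lit 80) = true := by decide +kernel
def p13_15_0_80 : pfC (piC [(nat_lit 36888796), (nat_lit 24534081), (nat_lit 18263511), (nat_lit 12310016)] (nat_lit 23126356)) p13_15_0 (nat_lit 4) (nat_lit 80) (nat_lit 81) = true := by decide +kernel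
def p13_15_0_81 : pfC (piC [(nat_lit 36888796), (nat_lit 24534081), (nat_lit 18263511), (nat_lit 12310016)] (nat_lit 23126356)) p13_15_0 (nat_lit 4) (nat_lit 81) (nat_lit 82) = true := by decide +kernel
def p13_15_0_82 : pfC (piC [(nat_lit 36888796), (nat_lit 24534081), (nat_lit 18263511), (nat_lit 12310016)] (nat_lit 23126356)) p13_15_0 (nat_lit 4) (nat_lit 82) (nat_lit 83) = true := by decide +kernel
def p13_15_0_83 : pfC (piC [(nat_lit 36888796), (nat_lit 24534081), (nat_lit 18263511), (nat_lit 12310016)] (nat_lit 23126356)) p13_15_0 (nat_lit 4) (nat_lit 83) (nat_lit 84) = true := by decide +kernel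
def p13_15_0_84 : pfC (piC [(nat_lit 36888796), (nat_lit 24534081), (nat_lit 18263511), (nat_lit 12310016)] (nat_lit 23126356)) p13_15_0 (nat_lit 4) (nat_lit 84) (nat_lit 85) = true := by decide +kernel
def p13_15_0_85 : pfC (piC [(nat_lit 36888796), (nat_lit 24534081), (nat_lit 18263511), (nat_lit 12310016)] (nat_lit 23126356)) p13_15_0 (nat_lit 4) (nat_lit 85) (nat_lit 86) = true := by decide +kernel
def p13_15_0_86 : pfC (piC [(nat_lit 36888796), (nat_lit 24534081), (nat_lit 18263511), (nat_lit 12310016)] (nat_lit 23126356)) p13_15_0 (nat_lit 4) (nat_lit 86) (nat_lit 87) = true := by decide +kernel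
def p13_15_0_87 : pfC (piC [(nat_lit 36888796), (nat_lit 24534081), (nat_lit 18263511), (nat_lit 12310016)] (nat_lit 23126356)) p13_15_0 (nat_lit 4) (nat_lit 87) (nat_lit 88) = true := by decide +kernel
def p13_15_0_88 : pfC (piC [(nat_lit 36888796), (nat_lit 24534081), (nat_lit 18263511), (nat_lit 12310016)] (nat_lit 23126356)) p13_15_0 (nat_lit 4) (nat_lit 88) (nat_lit 89) = true := by decide +kernel
def p13_15_0_89 : pfC (piC [(nat_lit 36888796), (nat_lit 24534081), (nat_lit 18263511), (nat_lit 12310016)] (nat_lit 23126356)) p13_15_0 (nat_lit 4) (nat_lit 89) (nat_lit 90) = true := by decide +kernel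
def p13_15_0_90 : pfC (piC [(nat_lit 36888796), (nat_lit 24534081), (nat_lit 18263511), (nat_lit 12310016)] (nat_lit 23126356)) p13_15_0 (nat_lit 4) (nat_lit 90) (nat_lit 91) = true := by decide +kernel
def p13_15_0_91 : pfC (piC [(nat_lit 36888796), (nat_lit 24534081), (nat_lit 18263511), (nat_lit 12310016)] (nat_lit 23126356)) p13_15_0 (nat_lit 4) (nat_lit 91) (nat_lit 92) = true := by decide +kernel
def p13_15_0_92 : pfC (piC [(nat_lit 36888796), (nat_lit 24534081), (nat_lit 18263511), (nat_lit 12310016)] (nat_lit 23126356)) p13_15_0 (nat_lit 4) (nat_lit 92) (nat_lit 93) = true := by decide +kernel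
def p13_15_0_93 : pfC (piC [(nat_lit 36888796), (nat_lit 24534081), (nat_lit 18263511), (nat_lit 12310016)] (nat_lit 23126356)) p13_15_0 (nat_lit 4) (nat_lit 93) (nat_lit 94) = true := by decide +kernel
def p13_15_0_94 : pfC (piC [(nat_lit 36888796), (nat_lit 24534081), (nat_lit 18263511), (nat_lit 12310016)] (nat_lit 23126356)) p13_15_0 (nat_lit 4) (nat_lit 94) (nat_lit 95) = true := by decide +kernel
def p13_15_0_95 : pfC (piC [(nat_lit 36888796), (nat_lit 24534081), (nat_lit 18263511), (nat_lit 12310016)] (nat_lit 23126356)) p13_15_0 (nat_lit 4) (nat_lit 95) (nat_lit 96) = true := by decide +kernel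
def p13_15_0_96 : pfC (piC [(nat_lit 36888796), (nat_lit 24534081), (nat_lit 18263511), (nat_lit 12310016)] (nat_lit 23126356)) p13_15_0 (nat_lit 4) (nat_lit 96) (nat_lit 97) = true := by decide +kernel
def p13_15_0_97 : pfC (piC [(nat_lit 36888796), (nat_lit 24534081), (nat_lit 18263511), (nat_lit 12310016)] (nat_lit 23126356)) p13_15_0 (nat_lit 4) (nat_lit 97) (nat_lit 98) = true := by decide +kernel
def p13_15_0_98 : pfC (piC [(nat_lit 36888796), (nat_lit 24534081), (nat_lit 18263511), (nat_lit 12310016)] (nat_lit 23126356)) p13_15_0 (nat_lit 4) (nat_lit 98) (nat_lit 99) = true := by decide +kernel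
def p13_15_0_99 : pfC (piC [(nat_lit 36888796), (nat_lit 24534081), (nat_lit 18263511), (nat_lit 12310016)] (nat_lit 23126356)) p13_15_0 (nat_lit 4) (nat_lit 99) (nat_lit 100) = true := by decide +kernel
def p13_15_0_100 : pfC (piC [(nat_lit 36888796), (nat_lit 24534081), (nat_lit 18263511), (nat_lit 12310016)] (nat_lit 23126356)) p13_15_0 (nat_lit 4) (nat_lit 100) (nat_lit 101) = true := by decide +kernel
def p13_15_0_101 : pfC (piC [(nat_lit 36888796), (nat_lit 24534081), (nat_lit 18263511), (nat_lit 12310016)] (nat_lit 23126356)) p13_15_0 (nat_lit 4) (nat_lit 101) (nat_lit 102) = true := by decide +kernel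
def p13_15_0_102 : pfC (piC [(nat_lit 36888796), (nat_lit 24534081), (nat_lit 18263511), (nat_lit 12310016)] (nat_lit 23126356)) p13_15_0 (nat_lit 4) (nat_lit 102) (nat_lit 103) = true := by decide +kernel
def p13_15_0_103 : pfC (piC [(nat_lit 36888796), (nat_lit 24534081), (nat_lit 18263511), (nat_lit 12310016)] (nat_lit 23126356)) p13_15_0 (nat_lit 4) (nat_lit 103) (nat_lit 104) = true := by decide +kernel
def p13_15_0_104 : pfC (piC [(nat_lit 36888796), (nat_lit 24534081), (nat_lit 18263511), (nat_lit 12310016)] (nat_lit 23126356)) p13_15_0 (nat_lit 4) (nat_lit 104) (nat_lit 105) = true := by decide +kernel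
def p13_15_0_105 : pfC (piC [(nat_lit 36888796), (nat_lit 24534081), (nat_lit 18263511), (nat_lit 12310016)] (nat_lit 23126356)) p13_15_0 (nat_lit 4) (nat_lit 105) (nat_lit 106) = true := by decide +kernel
def p13_15_0_106 : pfC (piC [(nat_lit 36888796), (nat_lit 24534081), (nat_lit 18263511), (nat_lit 12310016)] (nat_lit 23126356)) p13_15_0 (nat_lit 4) (nat_lit 106) (nat_lit 107) = true := by decide +kernel
def p13_15_0_107 : pfC (piC [(nat_lit 36888796), (nat_lit 24534081), (nat_lit 18263511), (nat_lit 12310016)] (nat_lit 23126356)) p13_15_0 (nat_lit 4) (nat_lit 107) (nat_lit 108) = true := by decide +kernel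
def p13_15_0_108 : pfC (piC [(nat_lit 36888796), (nat_lit 24534081), (nat_lit 18263511), (nat_lit 12310016)] (nat_lit 23126356)) p13_15_0 (nat_lit 4) (nat_lit 108) (nat_lit 109) = true := by decide +kernel
def p13_15_0_109 : pfC (piC [(nat_lit 36888796), (nat_lit 24534081), (nat_lit 18263511), (nat_lit 12310016)] (nat_lit 23126356)) p13_15_0 (nat_lit 4) (nat_lit 109) (nat_lit 110) = true := by decide +kernel
def p13_15_0_110 : pfC (piC [(nat_lit 36888796), (nat_lit 24534081), (nat_lit 18263511), (nat_lit 12310016)] (nat_lit 23126356)) p13_15_0 (nat_lit 4) (nat_lit 110) (nat_lit 111) = true := by decide +kernel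
def p13_15_0_111 : pfC (piC [(nat_lit 36888796), (nat_lit 24534081), (nat_lit 18263511), (nat_lit 12310016)] (nat_lit 23126356)) p13_15_0 (nat_lit 4) (nat_lit 111) (nat_lit 112) = true := by decide +kernel
def p13_15_0_112 : pfC (piC [(nat_lit 36888796), (nat_lit 24534081), (nat_lit 18263511), (nat_lit 12310016)] (nat_lit 23126356)) p13_15_0 (nat_lit 4) (nat_lit 112) (nat_lit 113) = true := by decide +kernel
def p13_15_0_113 : pfC (piC [(nat_lit 36888796), (nat_lit 24534081), (nat_lit 18263511), (nat_lit 12310016)] (nat_lit 23126356)) p13_15_0 (nat_lit 4) (nat_lit 113) (nat_lit 114) = true := by decide +kernel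
def p13_15_0_114 : pfC (piC [(nat_lit 36888796), (nat_lit 24534081), (nat_lit 18263511), (nat_lit 12310016)] (nat_lit 23126356)) p13_15_0 (nat_lit 4) (nat_lit 114) (nat_lit 115) = true := by decide +kernel
def p13_15_0_115 : pfC (piC [(nat_lit 36888796), (nat_lit 24534081), (nat_lit 18263511), (nat_lit 12310016)] (nat_lit 23126356)) p13_15_0 (nat_lit 4) (nat_lit 115) (nat_lit 116) = true := by decide +kernel
def p13_15_0_116 : pfC (piC [(nat_lit 36888796), (nat_lit 24534081), (nat_lit 18263511), (nat_lit 12310016)] (nat_lit 23126356)) p13_15_0 (nat_lit 4) (nat_lit 116) (nat_lit 117) = true := by decide +kernel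
def p13_15_0_117 : pfC (piC [(nat_lit 36888796), (nat_lit 24534081), (nat_lit 18263511), (nat_lit 12310016)] (nat_lit 23126356)) p13_15_0 (nat_lit 4) (nat_lit 117) (nat_lit 118) = true := by decide +kernel
def p13_15_0_118 : pfC (piC [(nat_lit 36888796), (nat_lit 24534081), (nat_lit 18263511), (nat_lit 12310016)] (nat_lit 23126356)) p13_15_0 (nat_lit 4) (nat_lit 118) (nat_lit 119) = true := by decide +kernel
def p13_15_0_119 : pfC (piC [(nat_lit 36888796), (nat_lit 24534081), (nat_lit 18263511), (nat_lit 12310016)] (nat_lit 23126356)) p13_15_0 (nat_lit 4) (nat_lit 119) (nat_lit 120) = true := by decide +kernel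
def p13_15_0_120 : pfC (piC [(nat_lit 36888796), (nat_lit 24534081), (nat_lit 18263511), (nat_lit 12310016)] (nat_lit 23126356)) p13_15_0 (nat_lit 4) (nat_lit 120) (nat_lit 121) = true := by decide +kernel
def p13_15_0_121 : pfC (piC [(nat_lit 36888796), (nat_lit 24534081), (nat_lit 18263511), (nat_lit 12310016)] (nat_lit 23126356)) p13_15_0 (nat_lit 4) (nat_lit 121) (nat_lit 122) = true := by decide +kernel
def p13_15_0_122 : pfC (piC [(nat_lit 36888796), (nat_lit 24534081), (nat_lit 18263511), (nat_lit 12310016)] (nat_lit 23126356)) p13_15_0 (nat_lit 4) (nat_lit 122) (nat_lit 123) = true := by decide +kernel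
def p13_15_0_123 : pfC (piC [(nat_lit 36888796), (nat_lit 24534081), (nat_lit 18263511), (nat_lit 12310016)] (nat_lit 23126356)) p13_15_0 (nat_lit 4) (nat_lit 123) (nat_lit 124) = true := by decide +kernel
def p13_15_0_124 : pfC (piC [(nat_lit 36888796), (nat_lit 24534081), (nat_lit 18263511), (nat_lit 12310016)] (nat_lit 23126356)) p13_15_0 (nat_lit 4) (nat_lit 124) (nat_lit 125) = true := by decide +kernel
def p13_15_0_125 : pfC (piC [(nat_lit 36888796), (nat_lit 24534081), (nat_lit 18263511), (nat_lit 12310016)] (nat_lit 23126356)) p13_15_0 (nat_lit 4) (nat_lit 125) (nat_lit 126) = true := by decide +kernel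
def p13_15_0_126 : pfC (piC [(nat_lit 36888796), (nat_lit 24534081), (nat_lit 18263511), (nat_lit 12310016)] (nat_lit 23126356)) p13_15_0 (nat_lit 4) (nat_lit 126) (nat_lit 127) = true := by decide +kernel
def p13_15_0_127 : pfC (piC [(nat_lit 36888796), (nat_lit 24534081), (nat_lit 18263511), (nat_lit 12310016)] (nat_lit 23126356)) p13_15_0 (nat_lit 4) (nat_lit 127) (nat_lit 128) = true := by decide +kernel
def p13_15_0_128 : pfC (piC [(nat_lit 36888796), (nat_lit 24534081), (nat_lit 18263511), (nat_lit 12310016)] (nat_lit 23126356)) p13_15_0 (nat_lit 4) (nat_lit 128) (nat_lit 129) = true := by decide +kernel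
def p13_15_0_129 : pfC (piC [(nat_lit 36888796), (nat_lit 24534081), (nat_lit 18263511), (nat_lit 12310016)] (nat_lit 23126356)) p13_15_0 (nat_lit 4) (nat_lit 129) (nat_lit 130) = true := by decide +kernel
def p13_15_0_130 : pfC (piC [(nat_lit 36888796), (nat_lit 24534081), (nat_lit 18263511), (nat_lit 12310016)] (nat_lit 23126356)) p13_15_0 (nat_lit 4) (nat_lit 130) (nat_lit 131) = true := by decide +kernel
def p13_15_0_131 : pfC (piC [(nat_lit 36888796), (nat_lit 24534081), (nat_lit 18263511), (nat_lit 12310016)] (nat_lit 23126356)) p13_15_0 (nat_lit 4) (nat_lit 131) (nat_lit 132) = true := by decide +kernel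
def p13_15_0_132 : pfC (piC [(nat_lit 36888796), (nat_lit 24534081), (nat_lit 18263511), (nat_lit 12310016)] (nat_lit 23126356)) p13_15_0 (nat_lit 4) (nat_lit 132) (nat_lit 133) = true := by decide +kernel
def p13_15_0_133 : pfC (piC [(nat_lit 36888796), (nat_lit 24534081), (nat_lit 18263511), (nat_lit 12310016)] (nat_lit 23126356)) p13_15_0 (nat_lit 4) (nat_lit 133) (nat_lit 134) = true := by decide +kernel
def p13_15_0_134 : pfC (piC [(nat_lit 36888796), (nat_lit 24534081), (nat_lit 18263511), (nat_lit 12310016)] (nat_lit 23126356)) p13_15_0 (nat_lit 4) (nat_lit 134) (nat_lit 135) = true := by decide +kernel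
def p13_15_0_135 : pfC (piC [(nat_lit 36888796), (nat_lit 24534081), (nat_lit 18263511), (nat_lit 12310016)] (nat_lit 23126356)) p13_15_0 (nat_lit 4) (nat_lit 135) (nat_lit 136) = true := by decide +kernel
def p13_15_0_136 : pfC (piC [(nat_lit 36888796), (nat_lit 24534081), (nat_lit 18263511), (nat_lit 12310016)] (nat_lit 23126356)) p13_15_0 (nat_lit 4) (nat_lit 136) (nat_lit 137) = true := by decide +kernel
def p13_15_0_137 : pfC (piC [(nat_lit 36888796), (nat_lit 24534081), (nat_lit 18263511), (nat_lit 12310016)] (nat_lit 23126356)) p13_15_0 (nat_lit 4) (nat_lit 137) (nat_lit 138) = true := by decide +kernel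
def p13_15_0_138 : pfC (piC [(nat_lit 36888796), (nat_lit 24534081), (nat_lit 18263511), (nat_lit 12310016)] (nat_lit 23126356)) p13_15_0 (nat_lit 4) (nat_lit 138) (nat_lit 139) = true := by decide +kernel
def p13_15_0_139 : pfC (piC [(nat_lit 36888796), (nat_lit 24534081), (nat_lit 18263511), (nat_lit 12310016)] (nat_lit 23126356)) p13_15_0 (nat_lit 4) (nat_lit 139) (nat_lit 140) = true := by decide +kernel
def p13_15_0_140 : pfC (piC [(nat_lit 36888796), (nat_lit 24534081), (nat_lit 18263511), (nat_lit 12310016)] (nat_lit 23126356)) p13_15_0 (nat_lit 4) (nat_lit 140) (nat_lit 141) = true := by decide +kernel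
def p13_15_0_141 : pfC (piC [(nat_lit 36888796), (nat_lit 24534081), (nat_lit 18263511), (nat_lit 12310016)] (nat_lit 23126356)) p13_15_0 (nat_lit 4) (nat_lit 141) (nat_lit 142) = true := by decide +kernel
def p13_15_0_142 : pfC (piC [(nat_lit 36888796), (nat_lit 24534081), (nat_lit 18263511), (nat_lit 12310016)] (nat_lit 23126356)) p13_15_0 (nat_lit 4) (nat_lit 142) (nat_lit 143) = true := by decide +kernel
def p13_15_0_143 : pfC (piC [(nat_lit 36888796), (nat_lit 24534081), (nat_lit 18263511), (nat_lit 12310016)] (nat_lit 23126356)) p13_15_0 (nat_lit 4) (nat_lit 143) (nat_lit 144) = true := by decide +kernel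
def p13_15_0_144 : pfC (piC [(nat_lit 36888796), (nat_lit 24534081), (nat_lit 18263511), (nat_lit 12310016)] (nat_lit 23126356)) p13_15_0 (nat_lit 4) (nat_lit 144) (nat_lit 145) = true := by decide +kernel
def p13_15_0_145 : pfC (piC [(nat_lit 36888796), (nat_lit 24534081), (nat_lit 18263511), (nat_lit 12310016)] (nat_lit 23126356)) p13_15_0 (nat_lit 4) (nat_lit 145) (nat_lit 146) = true := by decide +kernel
def p13_15_0_146 : pfC (piC [(nat_lit 36888796), (nat_lit 24534081), (nat_lit 18263511), (nat_lit 12310016)] (nat_lit 23126356)) p13_15_0 (nat_lit 4) (nat_lit 146) (nat_lit 147) = true := by decide +kernel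
def p13_15_0_147 : pfC (piC [(nat_lit 36888796), (nat_lit 24534081), (nat_lit 18263511), (nat_lit 12310016)] (nat_lit 23126356)) p13_15_0 (nat_lit 4) (nat_lit 147) (nat_lit 148) = true := by decide +kernel
def p13_15_0_148 : pfC (piC [(nat_lit 36888796), (nat_lit 24534081), (nat_lit 18263511), (nat_lit 12310016)] (nat_lit 23126356)) p13_15_0 (nat_lit 4) (nat_lit 148) (nat_lit 149) = true := by decide +kernel
def p13_15_0_149 : pfC (piC [(nat_lit 36888796), (nat_lit 24534081), (nat_lit 18263511), (nat_lit 12310016)] (nat_lit 23126356)) p13_15_0 (nat_lit 4) (nat_lit 149) (nat_lit 150) = true := by decide +kernel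
def p13_15_0_150 : pfC (piC [(nat_lit 36888796), (nat_lit 24534081), (nat_lit 18263511), (nat_lit 12310016)] (nat_lit 23126356)) p13_15_0 (nat_lit 4) (nat_lit 150) (nat_lit 151) = true := by decide +kernel
def p13_15_0_151 : pfC (piC [(nat_lit 36888796), (nat_lit 24534081), (nat_lit 18263511), (nat_lit 12310016)] (nat_lit 23126356)) p13_15_0 (nat_lit 4) (nat_lit 151) (nat_lit 152) = true := by decide +kernel
def p13_15_0_152 : pfC (piC [(nat_lit 36888796), (nat_lit 24534081), (nat_lit 18263511), (nat_lit 12310016)] (nat_lit 23126356)) p13_15_0 (nat_lit 4) (nat_lit 152) (nat_lit 153) = true := by decide +kernel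
def p13_15_0_153 : pfC (piC [(nat_lit 36888796), (nat_lit 24534081), (nat_lit 18263511), (nat_lit 12310016)] (nat_lit 23126356)) p13_15_0 (nat_lit 4) (nat_lit 153) (nat_lit 154) = true := by decide +kernel
def p13_15_0_154 : pfC (piC [(nat_lit 36888796), (nat_lit 24534081), (nat_lit 18263511), (nat_lit 12310016)] (nat_lit 23126356)) p13_15_0 (nat_lit 4) (nat_lit 154) (nat_lit 155) = true := by decide +kernel
def p13_15_0_155 : pfC (piC [(nat_lit 36888796), (nat_lit 24534081), (nat_lit 18263511), (nat_lit 12310016)] (nat_lit 23126356)) p13_15_0 (nat_lit 4) (nat_lit 155) (nat_lit 156) = true := by decide +kernel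
def p13_15_0_156 : pfC (piC [(nat_lit 36888796), (nat_lit 24534081), (nat_lit 18263511), (nat_lit 12310016)] (nat_lit 23126356)) p13_15_0 (nat_lit 4) (nat_lit 156) (nat_lit 157) = true := by decide +kernel
def p13_15_0_157 : pfC (piC [(nat_lit 36888796), (nat_lit 24534081), (nat_lit 18263511), (nat_lit 12310016)] (nat_lit 23126356)) p13_15_0 (nat_lit 4) (nat_lit 157) (nat_lit 158) = true := by decide +kernel
def p13_15_0_158 : pfC (piC [(nat_lit 36888796), (nat_lit 24534081), (nat_lit 18263511), (nat_lit 12310016)] (nat_lit 23126356)) p13_15_0 (nat_lit 4) (nat_lit 158) (nat_lit 159) = true := by decide +kernel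
def p13_15_0_159 : pfC (piC [(nat_lit 36888796), (nat_lit 24534081), (nat_lit 18263511), (nat_lit 12310016)] (nat_lit 23126356)) p13_15_0 (nat_lit 4) (nat_lit 159) (nat_lit 160) = true := by decide +kernel
def p13_15_0_160 : pfC (piC [(nat_lit 36888796), (nat_lit 24534081), (nat_lit 18263511), (nat_lit 12310016)] (nat_lit 23126356)) p13_15_0 (nat_lit 4) (nat_lit 160) (nat_lit 161) = true := by decide +kernel
def p13_15_0_161 : pfC (piC [(nat_lit 36888796), (nat_lit 24534081), (nat_lit 18263511), (nat_lit 12310016)] (nat_lit 23126356)) p13_15_0 (nat_lit 4) (nat_lit 161) (nat_lit 162) = true := by decide +kernel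
def p13_15_0_162 : pfC (piC [(nat_lit 36888796), (nat_lit 24534081), (nat_lit 18263511), (nat_lit 12310016)] (nat_lit 23126356)) p13_15_0 (nat_lit 4) (nat_lit 162) (nat_lit 163) = true := by decide +kernel
def p13_15_0_163 : pfC (piC [(nat_lit 36888796), (nat_lit 24534081), (nat_lit 18263511), (nat_lit 12310016)] (nat_lit 23126356)) p13_15_0 (nat_lit 4) (nat_lit 163) (nat_lit 164) = true := by decide +kernel
def p13_15_0_164 : pfC (piC [(nat_lit 36888796), (nat_lit 24534081), (nat_lit 18263511), (nat_lit 12310016)] (nat_lit 23126356)) p13_15_0 (nat_lit 4) (nat_lit 164) (nat_lit 165) = true := by decide +kernel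
def p13_15_0_165 : pfC (piC [(nat_lit 36888796), (nat_lit 24534081), (nat_lit 18263511), (nat_lit 12310016)] (nat_lit 23126356)) p13_15_0 (nat_lit 4) (nat_lit 165) (nat_lit 166) = true := by decide +kernel
def p13_15_0_166 : pfC (piC [(nat_lit 36888796), (nat_lit 24534081), (nat_lit 18263511), (nat_lit 12310016)] (nat_lit 23126356)) p13_15_0 (nat_lit 4) (nat_lit 166) (nat_lit 167) = true := by decide +kernel
def p13_15_0_167 : pfC (piC [(nat_lit 36888796), (nat_lit 24534081), (nat_lit 18263511), (nat_lit 12310016)] (nat_lit 23126356)) p13_15_0 (nat_lit 4) (nat_lit 167) (nat_lit 168) = true := by decide +kernel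
def p13_15_0_168 : pfC (piC [(nat_lit 36888796), (nat_lit 24534081), (nat_lit 18263511), (nat_lit 12310016)] (nat_lit 23126356)) p13_15_0 (nat_lit 4) (nat_lit 168) (nat_lit 169) = true := by decide +kernel
def p13_15_0_169 : pfC (piC [(nat_lit 36888796), (nat_lit 24534081), (nat_lit 18263511), (nat_lit 12310016)] (nat_lit 23126356)) p13_15_0 (nat_lit 4) (nat_lit 169) (nat_lit 170) = true := by decide +kernel
def p13_15_0_170 : pfC (piC [(nat_lit 36888796), (nat_lit 24534081), (nat_lit 18263511), (nat_lit 12310016)] (nat_lit 23126356)) p13_15_0 (nat_lit 4) (nat_lit 170) (nat_lit 171) = true := by decide +kernel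
def p13_15_0_171 : pfC (piC [(nat_lit 36888796), (nat_lit 24534081), (nat_lit 18263511), (nat_lit 12310016)] (nat_lit 23126356)) p13_15_0 (nat_lit 4) (nat_lit 171) (nat_lit 172) = true := by decide +kernel
def p13_15_0_172 : pfC (piC [(nat_lit 36888796), (nat_lit 24534081), (nat_lit 18263511), (nat_lit 12310016)] (nat_lit 23126356)) p13_15_0 (nat_lit 4) (nat_lit 172) (nat_lit 173) = true := by decide +kernel
def p13_15_0_173 : pfC (piC [(nat_lit 36888796), (nat_lit 24534081), (nat_lit 18263511), (nat_lit 12310016)] (nat_lit 23126356)) p13_15_0 (nat_lit 4) (nat_lit 173) (nat_lit 174) = true := by decide +kernel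
def p13_15_0_174 : pfC (piC [(nat_lit 36888796), (nat_lit 24534081), (nat_lit 18263511), (nat_lit 12310016)] (nat_lit 23126356)) p13_15_0 (nat_lit 4) (nat_lit 174) (nat_lit 175) = true := by decide +kernel
def p13_15_0_175 : pfC (piC [(nat_lit 36888796), (nat_lit 24534081), (nat_lit 18263511), (nat_lit 12310016)] (nat_lit 23126356)) p13_15_0 (nat_lit 4) (nat_lit 175) (nat_lit 176) = true := by decide +kernel
def p13_15_0_176 : pfC (piC [(nat_lit 36888796), (nat_lit 24534081), (nat_lit 18263511), (nat_lit 12310016)] (nat_lit 23126356)) p13_15_0 (nat_lit 4) (nat_lit 176) (nat_lit 177) = true := by decide +kernel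
def p13_15_0_177 : pfC (piC [(nat_lit 36888796), (nat_lit 24534081), (nat_lit 18263511), (nat_lit 12310016)] (nat_lit 23126356)) p13_15_0 (nat_lit 4) (nat_lit 177) (nat_lit 178) = true := by decide +kernel
def p13_15_0_178 : pfC (piC [(nat_lit 36888796), (nat_lit 24534081), (nat_lit 18263511), (nat_lit 12310016)] (nat_lit 23126356)) p13_15_0 (nat_lit 4) (nat_lit 178) (nat_lit 179) = true := by decide +kernel
def p13_15_0_179 : pfC (piC [(nat_lit 36888796), (nat_lit 24534081), (nat_lit 18263511), (nat_lit 12310016)] (nat_lit 23126356)) p13_15_0 (nat_lit 4) (nat_lit 179) (nat_lit 180) = true := by decide +kernel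
def p13_15_0_180 : pfC (piC [(nat_lit 36888796), (nat_lit 24534081), (nat_lit 18263511), (nat_lit 12310016)] (nat_lit 23126356)) p13_15_0 (nat_lit 4) (nat_lit 180) (nat_lit 181) = true := by decide +kernel
def p13_15_0_181 : pfC (piC [(nat_lit 36888796), (nat_lit 24534081), (nat_lit 18263511), (nat_lit 12310016)] (nat_lit 23126356)) p13_15_0 (nat_lit 4) (nat_lit 181) (nat_lit 182) = true := by decide +kernel
def p13_15_0_182 : pfC (piC [(nat_lit 36888796), (nat_lit 24534081), (nat_lit 18263511), (nat_lit 12310016)] (nat_lit 23126356)) p13_15_0 (nat_lit 4) (nat_lit 182) (nat_lit 183) = true := by decide +kernel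
def p13_15_0_183 : pfC (piC [(nat_lit 36888796), (nat_lit 24534081), (nat_lit 18263511), (nat_lit 12310016)] (nat_lit 23126356)) p13_15_0 (nat_lit 4) (nat_lit 183) (nat_lit 184) = true := by decide +kernel
def p13_15_0_184 : pfC (piC [(nat_lit 36888796), (nat_lit 24534081), (nat_lit 18263511), (nat_lit 12310016)] (nat_lit 23126356)) p13_15_0 (nat_lit 4) (nat_lit 184) (nat_lit 185) = true := by decide +kernel
def p13_15_0_185 : pfC (piC [(nat_lit 36888796), (nat_lit 24534081), (nat_lit 18263511), (nat_lit 12310016)] (nat_lit 23126356)) p13_15_0 (nat_lit 4) (nat_lit 185) (nat_lit 186) = true := by decide +kernel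
def p13_15_0_186 : pfC (piC [(nat_lit 36888796), (nat_lit 24534081), (nat_lit 18263511), (nat_lit 12310016)] (nat_lit 23126356)) p13_15_0 (nat_lit 4) (nat_lit 186) (nat_lit 187) = true := by decide +kernel
def p13_15_0_187 : pfC (piC [(nat_lit 36888796), (nat_lit 24534081), (nat_lit 18263511), (nat_lit 12310016)] (nat_lit 23126356)) p13_15_0 (nat_lit 4) (nat_lit 187) (nat_lit 188) = true := by decide +kernel
def p13_15_0_188 : pfC (piC [(nat_lit 36888796), (nat_lit 24534081), (nat_lit 18263511), (nat_lit 12310016)] (nat_lit 23126356)) p13_15_0 (nat_lit 4) (nat_lit 188) (nat_lit 189) = true := by decide +kernel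
def p13_15_0_189 : pfC (piC [(nat_lit 36888796), (nat_lit 24534081), (nat_lit 18263511), (nat_lit 12310016)] (nat_lit 23126356)) p13_15_0 (nat_lit 4) (nat_lit 189) (nat_lit 190) = true := by decide +kernel
def p13_15_0_190 : pfC (piC [(nat_lit 36888796), (nat_lit 24534081), (nat_lit 18263511), (nat_lit 12310016)] (nat_lit 23126356)) p13_15_0 (nat_lit 4) (nat_lit 190) (nat_lit 191) = true := by decide +kernel
def p13_15_0_191 : pfC (piC [(nat_lit 36888796), (nat_lit 24534081), (nat_lit 18263511), (nat_lit 12310016)] (nat_lit 23126356)) p13_15_0 (nat_lit 4) (nat_lit 191) (nat_lit 192) = true := by decide +kernel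
def p13_15_0_192 : pfC (piC [(nat_lit 36888796), (nat_lit 24534081), (nat_lit 18263511), (nat_lit 12310016)] (nat_lit 23126356)) p13_15_0 (nat_lit 4) (nat_lit 192) (nat_lit 193) = true := by decide +kernel
def p13_15_0_193 : pfC (piC [(nat_lit 36888796), (nat_lit 24534081), (nat_lit 18263511), (nat_lit 12310016)] (nat_lit 23126356)) p13_15_0 (nat_lit 4) (nat_lit 193) (nat_lit 194) = true := by decide +kernel
def p13_15_0_194 : pfC (piC [(nat_lit 36888796), (nat_lit 24534081), (nat_lit 18263511), (nat_lit 12310016)] (nat_lit 23126356)) p13_15_0 (nat_lit 4) (nat_lit 194) (nat_lit 195) = true := by decide +kernel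
def p13_15_0_195 : pfC (piC [(nat_lit 36888796), (nat_lit 24534081), (nat_lit 18263511), (nat_lit 12310016)] (nat_lit 23126356)) p13_15_0 (nat_lit 4) (nat_lit 195) (nat_lit 196) = true := by decide +kernel
def p13_15_0_196 : pfC (piC [(nat_lit 36888796), (nat_lit 24534081), (nat_lit 18263511), (nat_lit 12310016)] (nat_lit 23126356)) p13_15_0 (nat_lit 4) (nat_lit 196) (nat_lit 197) = true := by decide +kernel
def p13_15_0_197 : pfC (piC [(nat_lit 36888796), (nat_lit 24534081), (nat_lit 18263511), (nat_lit 12310016)] (nat_lit 23126356)) p13_15_0 (nat_lit 4) (nat_lit 197) (nat_lit 198) = true := by decide +kernel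
def p13_15_0_198 : pfC (piC [(nat_lit 36888796), (nat_lit 24534081), (nat_lit 18263511), (nat_lit 12310016)] (nat_lit 23126356)) p13_15_0 (nat_lit 4) (nat_lit 198) (nat_lit 199) = true := by decide +kernel
def p13_15_0_199 : pfC (piC [(nat_lit 36888796), (nat_lit 24534081), (nat_lit 18263511), (nat_lit 12310016)] (nat_lit 23126356)) p13_15_0 (nat_lit 4) (nat_lit 199) (nat_lit 200) = true := by decide +kernel
def p13_15_0_200 : pfC (piC [(nat_lit 36888796), (nat_lit 24534081), (nat_lit 18263511), (nat_lit 12310016)] (nat_lit 23126356)) p13_15_0 (nat_lit 4) (nat_lit 200) (nat_lit 201) = true := by decide +kernel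
def p13_15_0_201 : pfC (piC [(nat_lit 36888796), (nat_lit 24534081), (nat_lit 18263511), (nat_lit 12310016)] (nat_lit 23126356)) p13_15_0 (nat_lit 4) (nat_lit 201) (nat_lit 202) = true := by decide +kernel
def p13_15_0_202 : pfC (piC [(nat_lit 36888796), (nat_lit 24534081), (nat_lit 18263511), (nat_lit 12310016)] (nat_lit 23126356)) p13_15_0 (nat_lit 4) (nat_lit 202) (nat_lit 203) = true := by decide +kernel
def p13_15_0_203 : pfC (piC [(nat_lit 36888796), (nat_lit 24534081), (nat_lit 18263511), (nat_lit 12310016)] (nat_lit 23126356)) p13_15_0 (nat_lit 4) (nat_lit 203) (nat_lit 204) = true := by decide +kernel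
def p13_15_0_204 : pfC (piC [(nat_lit 36888796), (nat_lit 24534081), (nat_lit 18263511), (nat_lit 12310016)] (nat_lit 23126356)) p13_15_0 (nat_lit 4) (nat_lit 204) (nat_lit 205) = true := by decide +kernel
def p13_15_0_205 : pfC (piC [(nat_lit 36888796), (nat_lit 24534081), (nat_lit 18263511), (nat_lit 12310016)] (nat_lit 23126356)) p13_15_0 (nat_lit 4) (nat_lit 205) (nat_lit 206) = true := by decide +kernel
def p13_15_0_206 : pfC (piC [(nat_lit 36888796), (nat_lit 24534081), (nat_lit 18263511), (nat_lit 12310016)] (nat_lit 23126356)) p13_15_0 (nat_lit 4) (nat_lit 206) (nat_lit 207) = true := by decide +kernel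
def p13_15_0_207 : pfC (piC [(nat_lit 36888796), (nat_lit 24534081), (nat_lit 18263511), (nat_lit 12310016)] (nat_lit 23126356)) p13_15_0 (nat_lit 4) (nat_lit 207) (nat_lit 208) = true := by decide +kernel
def p13_15_0_208 : pfC (piC [(nat_lit 36888796), (nat_lit 24534081), (nat_lit 18263511), (nat_lit 12310016)] (nat_lit 23126356)) p13_15_0 (nat_lit 4) (nat_lit 208) (nat_lit 209) = true := by decide +kernel
def p13_15_0_209 : pfC (piC [(nat_lit 36888796), (nat_lit 24534081), (nat_lit 18263511), (nat_lit 12310016)] (nat_lit 23126356)) p13_15_0 (nat_lit 4) (nat_lit 209) (nat_lit 210) = true := by decide +kernel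
def p13_15_0_210 : pfC (piC [(nat_lit 36888796), (nat_lit 24534081), (nat_lit 18263511), (nat_lit 12310016)] (nat_lit 23126356)) p13_15_0 (nat_lit 4) (nat_lit 210) (nat_lit 211) = true := by decide +kernel
def p13_15_0_211 : pfC (piC [(nat_lit 36888796), (nat_lit 24534081), (nat_lit 18263511), (nat_lit 12310016)] (nat_lit 23126356)) p13_15_0 (nat_lit 4) (nat_lit 211) (nat_lit 212) = true := by decide +kernel
def p13_15_0_212 : pfC (piC [(nat_lit 36888796), (nat_lit 24534081), (nat_lit 18263511), (nat_lit 12310016)] (nat_lit 23126356)) p13_15_0 (nat_lit 4) (nat_lit 212) (nat_lit 213) = true := by decide +kernel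
def p13_15_0_213 : pfC (piC [(nat_lit 36888796), (nat_lit 24534081), (nat_lit 18263511), (nat_lit 12310016)] (nat_lit 23126356)) p13_15_0 (nat_lit 4) (nat_lit 213) (nat_lit 214) = true := by decide +kernel
def p13_15_0_214 : pfC (piC [(nat_lit 36888796), (nat_lit 24534081), (nat_lit 18263511), (nat_lit 12310016)] (nat_lit 23126356)) p13_15_0 (nat_lit 4) (nat_lit 214) (nat_lit 215) = true := by decide +kernel
def p13_15_0_215 : pfC (piC [(nat_lit 36888796), (nat_lit 24534081), (nat_lit 18263511), (nat_lit 12310016)] (nat_lit 23126356)) p13_15_0 (nat_lit 4) (nat_lit 215) (nat_lit 216) = true := by decide +kernel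
def p13_15_0_216 : pfC (piC [(nat_lit 36888796), (nat_lit 24534081), (nat_lit 18263511), (nat_lit 12310016)] (nat_lit 23126356)) p13_15_0 (nat_lit 4) (nat_lit 216) (nat_lit 217) = true := by decide +kernel
def p13_15_0_217 : pfC (piC [(nat_lit 36888796), (nat_lit 24534081), (nat_lit 18263511), (nat_lit 12310016)] (nat_lit 23126356)) p13_15_0 (nat_lit 4) (nat_lit 217) (nat_lit 218) = true := by decide +kernel
def p13_15_0_218 : pfC (piC [(nat_lit 36888796), (nat_lit 24534081), (nat_lit 18263511), (nat_lit 12310016)] (nat_lit 23126356)) p13_15_0 (nat_lit 4) (nat_lit 218) (nat_lit 219) = true := by decide +kernel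
def p13_15_0_219 : pfC (piC [(nat_lit 36888796), (nat_lit 24534081), (nat_lit 18263511), (nat_lit 12310016)] (nat_lit 23126356)) p13_15_0 (nat_lit 4) (nat_lit 219) (nat_lit 220) = true := by decide +kernel
def p13_15_0_220 : pfC (piC [(nat_lit 36888796), (nat_lit 24534081), (nat_lit 18263511), (nat_lit 12310016)] (nat_lit 23126356)) p13_15_0 (nat_lit 4) (nat_lit 220) (nat_lit 221) = true := by decide +kernel
def p13_15_0_221 : pfC (piC [(nat_lit 36888796), (nat_lit 24534081), (nat_lit 18263511), (nat_lit 12310016)] (nat_lit 23126356)) p13_15_0 (nat_lit 4) (nat_lit 221) (nat_lit 222) = true := by decide +kernel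
def p13_15_0_222 : pfC (piC [(nat_lit 36888796), (nat_lit 24534081), (nat_lit 18263511), (nat_lit 12310016)] (nat_lit 23126356)) p13_15_0 (nat_lit 4) (nat_lit 222) (nat_lit 223) = true := by decide +kernel
def p13_15_0_223 : pfC (piC [(nat_lit 36888796), (nat_lit 24534081), (nat_lit 18263511), (nat_lit 12310016)] (nat_lit 23126356)) p13_15_0 (nat_lit 4) (nat_lit 223) (nat_lit 224) = true := by decide +kernel
def p13_15_0_224 : pfC (piC [(nat_lit 36888796), (nat_lit 24534081), (nat_lit 18263511), (nat_lit 12310016)] (nat_lit 23126356)) p13_15_0 (nat_lit 4) (nat_lit 224) (nat_lit 225) = true := by decide +kernel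
def p13_15_0_225 : pfC (piC [(nat_lit 36888796), (nat_lit 24534081), (nat_lit 18263511), (nat_lit 12310016)] (nat_lit 23126356)) p13_15_0 (nat_lit 4) (nat_lit 225) (nat_lit 226) = true := by decide +kernel
def p13_15_0_226 : pfC (piC [(nat_lit 36888796), (nat_lit 24534081), (nat_lit 18263511), (nat_lit 12310016)] (nat_lit 23126356)) p13_15_0 (nat_lit 4) (nat_lit 226) (nat_lit 227) = true := by decide +kernel
def p13_15_0_227 : pfC (piC [(nat_lit 36888796), (nat_lit 24534081), (nat_lit 18263511), (nat_lit 12310016)] (nat_lit 23126356)) p13_15_0 (nat_lit 4) (nat_lit 227) (nat_lit 228) = true := by decide +kernel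
def p13_15_0_228 : pfC (piC [(nat_lit 36888796), (nat_lit 24534081), (nat_lit 18263511), (nat_lit 12310016)] (nat_lit 23126356)) p13_15_0 (nat_lit 4) (nat_lit 228) (nat_lit 229) = true := by decide +kernel
def p13_15_0_229 : pfC (piC [(nat_lit 36888796), (nat_lit 24534081), (nat_lit 18263511), (nat_lit 12310016)] (nat_lit 23126356)) p13_15_0 (nat_lit 4) (nat_lit 229) (nat_lit 230) = true := by decide +kernel
def p13_15_0_230 : pfC (piC [(nat_lit 36888796), (nat_lit 24534081), (nat_lit 18263511), (nat_lit 12310016)] (nat_lit 23126356)) p13_15_0 (nat_lit 4) (nat_lit 230) (nat_lit 231) = true := by decide +kernel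
def p13_15_0_231 : pfC (piC [(nat_lit 36888796), (nat_lit 24534081), (nat_lit 18263511), (nat_lit 12310016)] (nat_lit 23126356)) p13_15_0 (nat_lit 4) (nat_lit 231) (nat_lit 232) = true := by decide +kernel
def p13_15_0_232 : pfC (piC [(nat_lit 36888796), (nat_lit 24534081), (nat_lit 18263511), (nat_lit 12310016)] (nat_lit 23126356)) p13_15_0 (nat_lit 4) (nat_lit 232) (nat_lit 233) = true := by decide +kernel
def p13_15_0_233 : pfC (piC [(nat_lit 36888796), (nat_lit 24534081), (nat_lit 18263511), (nat_lit 12310016)] (nat_lit 23126356)) p13_15_0 (nat_lit 4) (nat_lit 233) (nat_lit 234) = true := by decide +kernel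
def p13_15_0_234 : pfC (piC [(nat_lit 36888796), (nat_lit 24534081), (nat_lit 18263511), (nat_lit 12310016)] (nat_lit 23126356)) p13_15_0 (nat_lit 4) (nat_lit 234) (nat_lit 235) = true := by decide +kernel
def p13_15_0_235 : pfC (piC [(nat_lit 36888796), (nat_lit 24534081), (nat_lit 18263511), (nat_lit 12310016)] (nat_lit 23126356)) p13_15_0 (nat_lit 4) (nat_lit 235) (nat_lit 236) = true := by decide +kernel
def p13_15_0_236 : pfC (piC [(nat_lit 36888796), (nat_lit 24534081), (nat_lit 18263511), (nat_lit 12310016)] (nat_lit 23126356)) p13_15_0 (nat_lit 4) (nat_lit 236) (nat_lit 237) = true := by decide +kernel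
def p13_15_0_237 : pfC (piC [(nat_lit 36888796), (nat_lit 24534081), (nat_lit 18263511), (nat_lit 12310016)] (nat_lit 23126356)) p13_15_0 (nat_lit 4) (nat_lit 237) (nat_lit 238) = true := by decide +kernel
def p13_15_0_238 : pfC (piC [(nat_lit 36888796), (nat_lit 24534081), (nat_lit 18263511), (nat_lit 12310016)] (nat_lit 23126356)) p13_15_0 (nat_lit 4) (nat_lit 238) (nat_lit 239) = true := by decide +kernel
def p13_15_0_239 : pfC (piC [(nat_lit 36888796), (nat_lit 24534081), (nat_lit 18263511), (nat_lit 12310016)] (nat_lit 23126356)) p13_15_0 (nat_lit 4) (nat_lit 239) (nat_lit 240) = true := by decide +kernel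
def p13_15_0_240 : pfC (piC [(nat_lit 36888796), (nat_lit 24534081), (nat_lit 18263511), (nat_lit 12310016)] (nat_lit 23126356)) p13_15_0 (nat_lit 4) (nat_lit 240) (nat_lit 241) = true := by decide +kernel
def p13_15_0_241 : pfC (piC [(nat_lit 36888796), (nat_lit 24534081), (nat_lit 18263511), (nat_lit 12310016)] (nat_lit 23126356)) p13_15_0 (nat_lit 4) (nat_lit 241) (nat_lit 242) = true := by decide +kernel
def p13_15_0_242 : pfC (piC [(nat_lit 36888796), (nat_lit 24534081), (nat_lit 18263511), (nat_lit 12310016)] (nat_lit 23126356)) p13_15_0 (nat_lit 4) (nat_lit 242) (nat_lit 243) = true := by decide +kernel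
def p13_15_0_243 : pfC (piC [(nat_lit 36888796), (nat_lit 24534081), (nat_lit 18263511), (nat_lit 12310016)] (nat_lit 23126356)) p13_15_0 (nat_lit 4) (nat_lit 243) (nat_lit 244) = true := by decide +kernel
def p13_15_0_244 : pfC (piC [(nat_lit 36888796), (nat_lit 24534081), (nat_lit 18263511), (nat_lit 12310016)] (nat_lit 23126356)) p13_15_0 (nat_lit 4) (nat_lit 244) (nat_lit 245) = true := by decide +kernel
def p13_15_0_245 : pfC (piC [(nat_lit 36888796), (nat_lit 24534081), (nat_lit 18263511), (nat_lit 12310016)] (nat_lit 23126356)) p13_15_0 (nat_lit 4) (nat_lit 245) (nat_lit 246) = true := by decide +kernel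
def p13_15_0_246 : pfC (piC [(nat_lit 36888796), (nat_lit 24534081), (nat_lit 18263511), (nat_lit 12310016)] (nat_lit 23126356)) p13_15_0 (nat_lit 4) (nat_lit 246) (nat_lit 247) = true := by decide +kernel
def p13_15_0_247 : pfC (piC [(nat_lit 36888796), (nat_lit 24534081), (nat_lit 18263511), (nat_lit 12310016)] (nat_lit 23126356)) p13_15_0 (nat_lit 4) (nat_lit 247) (nat_lit 248) = true := by decide +kernel
def p13_15_0_248 : pfC (piC [(nat_lit 36888796), (nat_lit 24534081), (nat_lit 18263511), (nat_lit 12310016)] (nat_lit 23126356)) p13_15_0 (nat_lit 4) (nat_lit 248) (nat_lit 249) = true := by decide +kernel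
def p13_15_0_249 : pfC (piC [(nat_lit 36888796), (nat_lit 24534081), (nat_lit 18263511), (nat_lit 12310016)] (nat_lit 23126356)) p13_15_0 (nat_lit 4) (nat_lit 249) (nat_lit 250) = true := by decide +kernel
def p13_15_0_250 : pfC (piC [(nat_lit 36888796), (nat_lit 24534081), (nat_lit 18263511), (nat_lit 12310016)] (nat_lit 23126356)) p13_15_0 (nat_lit 4) (nat_lit 250) (nat_lit 251) = true := by decide +kernel
def p13_15_0_251 : pfC (piC [(nat_lit 36888796), (nat_lit 24534081), (nat_lit 18263511), (nat_lit 12310016)] (nat_lit 23126356)) p13_15_0 (nat_lit 4) (nat_lit 251) (nat_lit 252) = true := by decide +kernel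
def p13_15_0_252 : pfC (piC [(nat_lit 36888796), (nat_lit 24534081), (nat_lit 18263511), (nat_lit 12310016)] (nat_lit 23126356)) p13_15_0 (nat_lit 4) (nat_lit 252) (nat_lit 253) = true := by decide +kernel
def p13_15_0_253 : pfC (piC [(nat_lit 36888796), (nat_lit 24534081), (nat_lit 18263511), (nat_lit 12310016)] (nat_lit 23126356)) p13_15_0 (nat_lit 4) (nat_lit 253) (nat_lit 254) = true := by decide +kernel
def p13_15_0_254 : pfC (piC [(nat_lit 36888796), (nat_lit 24534081), (nat_lit 18263511), (nat_lit 12310016)] (nat_lit 23126356)) p13_15_0 (nat_lit 4) (nat_lit 254) (nat_lit 255) = true := by decide +kernel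
def p13_15_0_255 : pfC (piC [(nat_lit 36888796), (nat_lit 24534081), (nat_lit 18263511), (nat_lit 12310016)] (nat_lit 23126356)) p13_15_0 (nat_lit 4) (nat_lit 255) (nat_lit 256) = true := by decide +kernel
def p13_15_0_256 : pfC (piC [(nat_lit 36888796), (nat_lit 24534081), (nat_lit 18263511), (nat_lit 12310016)] (nat_lit 23126356)) p13_15_0 (nat_lit 4) (nat_lit 256) (nat_lit 257) = true := by decide +kernel
def p13_15_0_257 : pfC (piC [(nat_lit 36888796), (nat_lit 24534081), (nat_lit 18263511), (nat_lit 12310016)] (nat_lit 23126356)) p13_15_0 (nat_lit 4) (nat_lit 257) (nat_lit 258) = true := by decide +kernel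
def p13_15_0_258 : pfC (piC [(nat_lit 36888796), (nat_lit 24534081), (nat_lit 18263511), (nat_lit 12310016)] (nat_lit 23126356)) p13_15_0 (nat_lit 4) (nat_lit 258) (nat_lit 259) = true := by decide +kernel
def p13_15_0_259 : pfC (piC [(nat_lit 36888796), (nat_lit 24534081), (nat_lit 18263511), (nat_lit 12310016)] (nat_lit 23126356)) p13_15_0 (nat_lit 4) (nat_lit 259) (nat_lit 260) = true := by decide +kernel
def p13_15_0_260 : pfC (piC [(nat_lit 36888796), (nat_lit 24534081), (nat_lit 18263511), (nat_lit 12310016)] (nat_lit 23126356)) p13_15_0 (nat_lit 4) (nat_lit 260) (nat_lit 261) = true := by decide +kernel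
def p13_15_0_261 : pfC (piC [(nat_lit 36888796), (nat_lit 24534081), (nat_lit 18263511), (nat_lit 12310016)] (nat_lit 23126356)) p13_15_0 (nat_lit 4) (nat_lit 261) (nat_lit 262) = true := by decide +kernel
def p13_15_0_262 : pfC (piC [(nat_lit 36888796), (nat_lit 24534081), (nat_lit 18263511), (nat_lit 12310016)] (nat_lit 23126356)) p13_15_0 (nat_lit 4) (nat_lit 262) (nat_lit 263) = true := by decide +kernel
def p13_15_0_263 : pfC (piC [(nat_lit 36888796), (nat_lit 24534081), (nat_lit 18263511), (nat_lit 12310016)] (nat_lit 23126356)) p13_15_0 (nat_lit 4) (nat_lit 263) (nat_lit 264) = true := by decide +kernel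
def p13_15_0_264 : pfC (piC [(nat_lit 36888796), (nat_lit 24534081), (nat_lit 18263511), (nat_lit 12310016)] (nat_lit 23126356)) p13_15_0 (nat_lit 4) (nat_lit 264) (nat_lit 265) = true := by decide +kernel
def p13_15_0_265 : pfC (piC [(nat_lit 36888796), (nat_lit 24534081), (nat_lit 18263511), (nat_lit 12310016)] (nat_lit 23126356)) p13_15_0 (nat_lit 4) (nat_lit 265) (nat_lit 266) = true := by decide +kernel
def p13_15_0_266 : pfC (piC [(nat_lit 36888796), (nat_lit 24534081), (nat_lit 18263511), (nat_lit 12310016)] (nat_lit 23126356)) p13_15_0 (nat_lit 4) (nat_lit 266) (nat_lit 267) = true := by decide +kernel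
def p13_15_0_267 : pfC (piC [(nat_lit 36888796), (nat_lit 24534081), (nat_lit 18263511), (nat_lit 12310016)] (nat_lit 23126356)) p13_15_0 (nat_lit 4) (nat_lit 267) (nat_lit 268) = true := by decide +kernel
def p13_15_0_268 : pfC (piC [(nat_lit 36888796), (nat_lit 24534081), (nat_lit 18263511), (nat_lit 12310016)] (nat_lit 23126356)) p13_15_0 (nat_lit 4) (nat_lit 268) (nat_lit 269) = true := by decide +kernel
def p13_15_0_269 : pfC (piC [(nat_lit 36888796), (nat_lit 24534081), (nat_lit 18263511), (nat_lit 12310016)] (nat_lit 23126356)) p13_15_0 (nat_lit 4) (nat_lit 269) (nat_lit 270) = true := by decide +kernel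
def p13_15_0_270 : pfC (piC [(nat_lit 36888796), (nat_lit 24534081), (nat_lit 18263511), (nat_lit 12310016)] (nat_lit 23126356)) p13_15_0 (nat_lit 4) (nat_lit 270) (nat_lit 271) = true := by decide +kernel
def p13_15_0_271 : pfC (piC [(nat_lit 36888796), (nat_lit 24534081), (nat_lit 18263511), (nat_lit 12310016)] (nat_lit 23126356)) p13_15_0 (nat_lit 4) (nat_lit 271) (nat_lit 272) = true := by decide +kernel
def p13_15_0_272 : pfC (piC [(nat_lit 36888796), (nat_lit 24534081), (nat_lit 18263511), (nat_lit 12310016)] (nat_lit 23126356)) p13_15_0 (nat_lit 4) (nat_lit 272) (nat_lit 273) = true := by decide +kernel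
def p13_15_0_273 : pfC (piC [(nat_lit 36888796), (nat_lit 24534081), (nat_lit 18263511), (nat_lit 12310016)] (nat_lit 23126356)) p13_15_0 (nat_lit 4) (nat_lit 273) (nat_lit 274) = true := by decide +kernel
def p13_15_0_274 : pfC (piC [(nat_lit 36888796), (nat_lit 24534081), (nat_lit 18263511), (nat_lit 12310016)] (nat_lit 23126356)) p13_15_0 (nat_lit 4) (nat_lit 274) (nat_lit 275) = true := by decide +kernel
def p13_15_0_275 : pfC (piC [(nat_lit 36888796), (nat_lit 24534081), (nat_lit 18263511), (nat_lit 12310016)] (nat_lit 23126356)) p13_15_0 (nat_lit 4) (nat_lit 275) (nat_lit 276) = true := by decide +kernel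
def p13_15_0_276 : pfC (piC [(nat_lit 36888796), (nat_lit 24534081), (nat_lit 18263511), (nat_lit 12310016)] (nat_lit 23126356)) p13_15_0 (nat_lit 4) (nat_lit 276) (nat_lit 277) = true := by decide +kernel
def p13_15_0_277 : pfC (piC [(nat_lit 36888796), (nat_lit 24534081), (nat_lit 18263511), (nat_lit 12310016)] (nat_lit 23126356)) p13_15_0 (nat_lit 4) (nat_lit 277) (nat_lit 278) = true := by decide +kernel
def p13_15_0_278 : pfC (piC [(nat_lit 36888796), (nat_lit 24534081), (nat_lit 18263511), (nat_lit 12310016)] (nat_lit 23126356)) p13_15_0 (nat_lit 4) (nat_lit 278) (nat_lit 279) = true := by decide +kernel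
def p13_15_0_279 : pfC (piC [(nat_lit 36888796), (nat_lit 24534081), (nat_lit 18263511), (nat_lit 12310016)] (nat_lit 23126356)) p13_15_0 (nat_lit 4) (nat_lit 279) (nat_lit 280) = true := by decide +kernel
def p13_15_0_280 : pfC (piC [(nat_lit 36888796), (nat_lit 24534081), (nat_lit 18263511), (nat_lit 12310016)] (nat_lit 23126356)) p13_15_0 (nat_lit 4) (nat_lit 280) (nat_lit 281) = true := by decide +kernel
def p13_15_0_281 : pfC (piC [(nat_lit 36888796), (nat_lit 24534081), (nat_lit 18263511), (nat_lit 12310016)] (nat_lit 23126356)) p13_15_0 (nat_lit 4) (nat_lit 281) (nat_lit 282) = true := by decide +kernel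
def p13_15_0_282 : pfC (piC [(nat_lit 36888796), (nat_lit 24534081), (nat_lit 18263511), (nat_lit 12310016)] (nat_lit 23126356)) p13_15_0 (nat_lit 4) (nat_lit 282) (nat_lit 283) = true := by decide +kernel
def p13_15_0_283 : pfC (piC [(nat_lit 36888796), (nat_lit 24534081), (nat_lit 18263511), (nat_lit 12310016)] (nat_lit 23126356)) p13_15_0 (nat_lit 4) (nat_lit 283) (nat_lit 284) = true := by decide +kernel
def p13_15_0_284 : pfC (piC [(nat_lit 36888796), (nat_lit 24534081), (nat_lit 18263511), (nat_lit 12310016)] (nat_lit 23126356)) p13_15_0 (nat_lit 4) (nat_lit 284) (nat_lit 285) = true := by decide +kernel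
def p13_15_0_285 : pfC (piC [(nat_lit 36888796), (nat_lit 24534081), (nat_lit 18263511), (nat_lit 12310016)] (nat_lit 23126356)) p13_15_0 (nat_lit 4) (nat_lit 285) (nat_lit 286) = true := by decide +kernel
def p13_15_0_286 : pfC (piC [(nat_lit 36888796), (nat_lit 24534081), (nat_lit 18263511), (nat_lit 12310016)] (nat_lit 23126356)) p13_15_0 (nat_lit 4) (nat_lit 286) (nat_lit 287) = true := by decide +kernel
def p13_15_0_287 : pfC (piC [(nat_lit 36888796), (nat_lit 24534081), (nat_lit 18263511), (nat_lit 12310016)] (nat_lit 23126356)) p13_15_0 (nat_lit 4) (nat_lit 287) (nat_lit 288) = true := by decide +kernel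
def p13_15_0_288 : pfC (piC [(nat_lit 36888796), (nat_lit 24534081), (nat_lit 18263511), (nat_lit 12310016)] (nat_lit 23126356)) p13_15_0 (nat_lit 4) (nat_lit 288) (nat_lit 289) = true := by decide +kernel
def p13_15_0_289 : pfC (piC [(nat_lit 36888796), (nat_lit 24534081), (nat_lit 18263511), (nat_lit 12310016)] (nat_lit 23126356)) p13_15_0 (nat_lit 4) (nat_lit 289) (nat_lit 290) = true := by decide +kernel
def p13_15_0_290 : pfC (piC [(nat_lit 36888796), (nat_lit 24534081), (nat_lit 18263511), (nat_lit 12310016)] (nat_lit 23126356)) p13_15_0 (nat_lit 4) (nat_lit 290) (nat_lit 291) = true := by decide +kernel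
def p13_15_0_291 : pfC (piC [(nat_lit 36888796), (nat_lit 24534081), (nat_lit 18263511), (nat_lit 12310016)] (nat_lit 23126356)) p13_15_0 (nat_lit 4) (nat_lit 291) (nat_lit 292) = true := by decide +kernel
def p13_15_0_292 : pfC (piC [(nat_lit 36888796), (nat_lit 24534081), (nat_lit 18263511), (nat_lit 12310016)] (nat_lit 23126356)) p13_15_0 (nat_lit 4) (nat_lit 292) (nat_lit 293) = true := by decide +kernel
def p13_15_0_293 : pfC (piC [(nat_lit 36888796), (nat_lit 24534081), (nat_lit 18263511), (nat_lit 12310016)] (nat_lit 23126356)) p13_15_0 (nat_lit 4) (nat_lit 293) (nat_lit 294) = true := by decide +kernel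
def p13_15_0_294 : pfC (piC [(nat_lit 36888796), (nat_lit 24534081), (nat_lit 18263511), (nat_lit 12310016)] (nat_lit 23126356)) p13_15_0 (nat_lit 4) (nat_lit 294) (nat_lit 295) = true := by decide +kernel
def p13_15_0_295 : pfC (piC [(nat_lit 36888796), (nat_lit 24534081), (nat_lit 18263511), (nat_lit 12310016)] (nat_lit 23126356)) p13_15_0 (nat_lit 4) (nat_lit 295) (nat_lit 296) = true := by decide +kernel
def p13_15_0_296 : pfC (piC [(nat_lit 36888796), (nat_lit 24534081), (nat_lit 18263511), (nat_lit 12310016)] (nat_lit 23126356)) p13_15_0 (nat_lit 4) (nat_lit 296) (nat_lit 297) = true := by decide +kernel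
def p13_15_0_297 : pfC (piC [(nat_lit 36888796), (nat_lit 24534081), (nat_lit 18263511), (nat_lit 12310016)] (nat_lit 23126356)) p13_15_0 (nat_lit 4) (nat_lit 297) (nat_lit 298) = true := by decide +kernel
def p13_15_0_298 : pfC (piC [(nat_lit 36888796), (nat_lit 24534081), (nat_lit 18263511), (nat_lit 12310016)] (nat_lit 23126356)) p13_15_0 (nat_lit 4) (nat_lit 298) (nat_lit 299) = true := by decide +kernel
def p13_15_0_299 : pfC (piC [(nat_lit 36888796), (nat_lit 24534081), (nat_lit 18263511), (nat_lit 12310016)] (nat_lit 23126356)) p13_15_0 (nat_lit 4) (nat_lit 299) (nat_lit 300) = true := by decide +kernel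
def p13_15_0_300 : pfC (piC [(nat_lit 36888796), (nat_lit 24534081), (nat_lit 18263511), (nat_lit 12310016)] (nat_lit 23126356)) p13_15_0 (nat_lit 4) (nat_lit 300) (nat_lit 301) = true := by decide +kernel
def p13_15_0_301 : pfC (piC [(nat_lit 36888796), (nat_lit 24534081), (nat_lit 18263511), (nat_lit 12310016)] (nat_lit 23126356)) p13_15_0 (nat_lit 4) (nat_lit 301) (nat_lit 302) = true := by decide +kernel
def p13_15_0_302 : pfC (piC [(nat_lit 36888796), (nat_lit 24534081), (nat_lit 18263511), (nat_lit 12310016)] (nat_lit 23126356)) p13_15_0 (nat_lit 4) (nat_lit 302) (nat_lit 303) = true := by decide +kernel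
def p13_15_0_303 : pfC (piC [(nat_lit 36888796), (nat_lit 24534081), (nat_lit 18263511), (nat_lit 12310016)] (nat_lit 23126356)) p13_15_0 (nat_lit 4) (nat_lit 303) (nat_lit 304) = true := by decide +kernel
def p13_15_0_304 : pfC (piC [(nat_lit 36888796), (nat_lit 24534081), (nat_lit 18263511), (nat_lit 12310016)] (nat_lit 23126356)) p13_15_0 (nat_lit 4) (nat_lit 304) (nat_lit 305) = true := by decide +kernel
def p13_15_0_305 : pfC (piC [(nat_lit 36888796), (nat_lit 24534081), (nat_lit 18263511), (nat_lit 12310016)] (nat_lit 23126356)) p13_15_0 (nat_lit 4) (nat_lit 305) (nat_lit 306) = true := by decide +kernel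
def p13_15_0_306 : pfC (piC [(nat_lit 36888796), (nat_lit 24534081), (nat_lit 18263511), (nat_lit 12310016)] (nat_lit 23126356)) p13_15_0 (nat_lit 4) (nat_lit 306) (nat_lit 307) = true := by decide +kernel
def p13_15_0_307 : pfC (piC [(nat_lit 36888796), (nat_lit 24534081), (nat_lit 18263511), (nat_lit 12310016)] (nat_lit 23126356)) p13_15_0 (nat_lit 4) (nat_lit 307) (nat_lit 308) = true := by decide +kernel
def p13_15_0_308 : pfC (piC [(nat_lit 36888796), (nat_lit 24534081), (nat_lit 18263511), (nat_lit 12310016)] (nat_lit 23126356)) p13_15_0 (nat_lit 4) (nat_lit 308) (nat_lit 309) = true := by decide +kernel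
def p13_15_0_309 : pfC (piC [(nat_lit 36888796), (nat_lit 24534081), (nat_lit 18263511), (nat_lit 12310016)] (nat_lit 23126356)) p13_15_0 (nat_lit 4) (nat_lit 309) (nat_lit 310) = true := by decide +kernel
def p13_15_0_310 : pfC (piC [(nat_lit 36888796), (nat_lit 24534081), (nat_lit 18263511), (nat_lit 12310016)] (nat_lit 23126356)) p13_15_0 (nat_lit 4) (nat_lit 310) (nat_lit 311) = true := by decide +kernel
def p13_15_0_311 : pfC (piC [(nat_lit 36888796), (nat_lit 24534081), (nat_lit 18263511), (nat_lit 12310016)] (nat_lit 23126356)) p13_15_0 (nat_lit 4) (nat_lit 311) (nat_lit 312) = true := by decide +kernel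
def p13_15_0_312 : pfC (piC [(nat_lit 36888796), (nat_lit 24534081), (nat_lit 18263511), (nat_lit 12310016)] (nat_lit 23126356)) p13_15_0 (nat_lit 4) (nat_lit 312) (nat_lit 313) = true := by decide +kernel
def p13_15_0_313 : pfC (piC [(nat_lit 36888796), (nat_lit 24534081), (nat_lit 18263511), (nat_lit 12310016)] (nat_lit 23126356)) p13_15_0 (nat_lit 4) (nat_lit 313) (nat_lit 314) = true := by decide +kernel
def p13_15_0_314 : pfC (piC [(nat_lit 36888796), (nat_lit 24534081), (nat_lit 18263511), (nat_lit 12310016)] (nat_lit 23126356)) p13_15_0 (nat_lit 4) (nat_lit 314) (nat_lit 315) = true := by decide +kernel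
def p13_15_0_315 : pfC (piC [(nat_lit 36888796), (nat_lit 24534081), (nat_lit 18263511), (nat_lit 12310016)] (nat_lit 23126356)) p13_15_0 (nat_lit 4) (nat_lit 315) (nat_lit 316) = true := by decide +kernel
def p13_15_0_316 : pfC (piC [(nat_lit 36888796), (nat_lit 24534081), (nat_lit 18263511), (nat_lit 12310016)] (nat_lit 23126356)) p13_15_0 (nat_lit 4) (nat_lit 316) (nat_lit 317) = true := by decide +kernel
def p13_15_0_317 : pfC (piC [(nat_lit 36888796), (nat_lit 24534081), (nat_lit 18263511), (nat_lit 12310016)] (nat_lit 23126356)) p13_15_0 (nat_lit 4) (nat_lit 317) (nat_lit 318) = true := by decide +kernel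
def p13_15_0_318 : pfC (piC [(nat_lit 36888796), (nat_lit 24534081), (nat_lit 18263511), (nat_lit 12310016)] (nat_lit 23126356)) p13_15_0 (nat_lit 4) (nat_lit 318) (nat_lit 319) = true := by decide +kernel
def p13_15_0_319 : pfC (piC [(nat_lit 36888796), (nat_lit 24534081), (nat_lit 18263511), (nat_lit 12310016)] (nat_lit 23126356)) p13_15_0 (nat_lit 4) (nat_lit 319) (nat_lit 320) = true := by decide +kernel
def p13_15_0_320 : pfC (piC [(nat_lit 36888796), (nat_lit 24534081), (nat_lit 18263511), (nat_lit 12310016)] (nat_lit 23126356)) p13_15_0 (nat_lit 4) (nat_lit 320) (nat_lit 321) = true := by decide +kernel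
def p13_15_0_321 : pfC (piC [(nat_lit 36888796), (nat_lit 24534081), (nat_lit 18263511), (nat_lit 12310016)] (nat_lit 23126356)) p13_15_0 (nat_lit 4) (nat_lit 321) (nat_lit 322) = true := by decide +kernel
def p13_15_0_322 : pfC (piC [(nat_lit 36888796), (nat_lit 24534081), (nat_lit 18263511), (nat_lit 12310016)] (nat_lit 23126356)) p13_15_0 (nat_lit 4) (nat_lit 322) (nat_lit 323) = true := by decide +kernel
def p13_15_0_323 : pfC (piC [(nat_lit 36888796), (nat_lit 24534081), (nat_lit 18263511), (nat_lit 12310016)] (nat_lit 23126356)) p13_15_0 (nat_lit 4) (nat_lit 323) (nat_lit 324) = true := by decide +kernel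
def p13_15_0_324 : pfC (piC [(nat_lit 36888796), (nat_lit 24534081), (nat_lit 18263511), (nat_lit 12310016)] (nat_lit 23126356)) p13_15_0 (nat_lit 4) (nat_lit 324) (nat_lit 325) = true := by decide +kernel
def p13_15_0_325 : pfC (piC [(nat_lit 36888796), (nat_lit 24534081), (nat_lit 18263511), (nat_lit 12310016)] (nat_lit 23126356)) p13_15_0 (nat_lit 4) (nat_lit 325) (nat_lit 326) = true := by decide +kernel
def p13_15_0_326 : pfC (piC [(nat_lit 36888796), (nat_lit 24534081), (nat_lit 18263511), (nat_lit 12310016)] (nat_lit 23126356)) p13_15_0 (nat_lit 4) (nat_lit 326) (nat_lit 327) = true := by decide +kernel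
def p13_15_0_327 : pfC (piC [(nat_lit 36888796), (nat_lit 24534081), (nat_lit 18263511), (nat_lit 12310016)] (nat_lit 23126356)) p13_15_0 (nat_lit 4) (nat_lit 327) (nat_lit 328) = true := by decide +kernel
def p13_15_0_328 : pfC (piC [(nat_lit 36888796), (nat_lit 24534081), (nat_lit 18263511), (nat_lit 12310016)] (nat_lit 23126356)) p13_15_0 (nat_lit 4) (nat_lit 328) (nat_lit 329) = true := by decide +kernel
def p13_15_0_329 : pfC (piC [(nat_lit 36888796), (nat_lit 24534081), (nat_lit 18263511), (nat_lit 12310016)] (nat_lit 23126356)) p13_15_0 (nat_lit 4) (nat_lit 329) (nat_lit 330) = true := by decide +kernel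
def p13_15_0_330 : pfC (piC [(nat_lit 36888796), (nat_lit 24534081), (nat_lit 18263511), (nat_lit 12310016)] (nat_lit 23126356)) p13_15_0 (nat_lit 4) (nat_lit 330) (nat_lit 331) = true := by decide +kernel
def p13_15_0_331 : pfC (piC [(nat_lit 36888796), (nat_lit 24534081), (nat_lit 18263511), (nat_lit 12310016)] (nat_lit 23126356)) p13_15_0 (nat_lit 4) (nat_lit 331) (nat_lit 332) = true := by decide +kernel
def p13_15_0_332 : pfC (piC [(nat_lit 36888796), (nat_lit 24534081), (nat_lit 18263511), (nat_lit 12310016)] (nat_lit 23126356)) p13_15_0 (nat_lit 4) (nat_lit 332) (nat_lit 333) = true := by decide +kernel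
def p13_15_0_333 : pfC (piC [(nat_lit 36888796), (nat_lit 24534081), (nat_lit 18263511), (nat_lit 12310016)] (nat_lit 23126356)) p13_15_0 (nat_lit 4) (nat_lit 333) (nat_lit 334) = true := by decide +kernel
def p13_15_0_334 : pfC (piC [(nat_lit 36888796), (nat_lit 24534081), (nat_lit 18263511), (nat_lit 12310016)] (nat_lit 23126356)) p13_15_0 (nat_lit 4) (nat_lit 334) (nat_lit 335) = true := by decide +kernel
def p13_15_0_335 : pfC (piC [(nat_lit 36888796), (nat_lit 24534081), (nat_lit 18263511), (nat_lit 12310016)] (nat_lit 23126356)) p13_15_0 (nat_lit 4) (nat_lit 335) (nat_lit 336) = true := by decide +kernel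
def p13_15_0_336 : pfC (piC [(nat_lit 36888796), (nat_lit 24534081), (nat_lit 18263511), (nat_lit 12310016)] (nat_lit 23126356)) p13_15_0 (nat_lit 4) (nat_lit 336) (nat_lit 337) = true := by decide +kernel
def p13_15_0_337 : pfC (piC [(nat_lit 36888796), (nat_lit 24534081), (nat_lit 18263511), (nat_lit 12310016)] (nat_lit 23126356)) p13_15_0 (nat_lit 4) (nat_lit 337) (nat_lit 338) = true := by decide +kernel
def p13_15_0_338 : pfC (piC [(nat_lit 36888796), (nat_lit 24534081), (nat_lit 18263511), (nat_lit 12310016)] (nat_lit 23126356)) p13_15_0 (nat_lit 4) (nat_lit 338) (nat_lit 339) = true := by decide +kernel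
def p13_15_0_339 : pfC (piC [(nat_lit 36888796), (nat_lit 24534081), (nat_lit 18263511), (nat_lit 12310016)] (nat_lit 23126356)) p13_15_0 (nat_lit 4) (nat_lit 339) (nat_lit 340) = true := by decide +kernel
def p13_15_0_340 : pfC (piC [(nat_lit 36888796), (nat_lit 24534081), (nat_lit 18263511), (nat_lit 12310016)] (nat_lit 23126356)) p13_15_0 (nat_lit 4) (nat_lit 340) (nat_lit 341) = true := by decide +kernel
def p13_15_0_341 : pfC (piC [(nat_lit 36888796), (nat_lit 24534081), (nat_lit 18263511), (nat_lit 12310016)] (nat_lit 23126356)) p13_15_0 (nat_lit 4) (nat_lit 341) (nat_lit 342) = true := by decide +kernel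
def p13_15_0_342 : pfC (piC [(nat_lit 36888796), (nat_lit 24534081), (nat_lit 18263511), (nat_lit 12310016)] (nat_lit 23126356)) p13_15_0 (nat_lit 4) (nat_lit 342) (nat_lit 343) = true := by decide +kernel
def p13_15_0_343 : pfC (piC [(nat_lit 36888796), (nat_lit 24534081), (nat_lit 18263511), (nat_lit 12310016)] (nat_lit 23126356)) p13_15_0 (nat_lit 4) (nat_lit 343) (nat_lit 344) = true := by decide +kernel
def p13_15_0_344 : pfC (piC [(nat_lit 36888796), (nat_lit 24534081), (nat_lit 18263511), (nat_lit 12310016)] (nat_lit 23126356)) p13_15_0 (nat_lit 4) (nat_lit 344) (nat_lit 345) = true := by decide +kernel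
def p13_15_0_345 : pfC (piC [(nat_lit 36888796), (nat_lit 24534081), (nat_lit 18263511), (nat_lit 12310016)] (nat_lit 23126356)) p13_15_0 (nat_lit 4) (nat_lit 345) (nat_lit 346) = true := by decide +kernel
def p13_15_0_346 : pfC (piC [(nat_lit 36888796), (nat_lit 24534081), (nat_lit 18263511), (nat_lit 12310016)] (nat_lit 23126356)) p13_15_0 (nat_lit 4) (nat_lit 346) (nat_lit 347) = true := by decide +kernel
def p13_15_0_347 : pfC (piC [(nat_lit 36888796), (nat_lit 24534081), (nat_lit 18263511), (nat_lit 12310016)] (nat_lit 23126356)) p13_15_0 (nat_lit 4) (nat_lit 347) (nat_lit 348) = true := by decide +kernel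
def p13_15_0_348 : pfC (piC [(nat_lit 36888796), (nat_lit 24534081), (nat_lit 18263511), (nat_lit 12310016)] (nat_lit 23126356)) p13_15_0 (nat_lit 4) (nat_lit 348) (nat_lit 349) = true := by decide +kernel
def p13_15_0_349 : pfC (piC [(nat_lit 36888796), (nat_lit 24534081), (nat_lit 18263511), (nat_lit 12310016)] (nat_lit 23126356)) p13_15_0 (nat_lit 4) (nat_lit 349) (nat_lit 350) = true := by decide +kernel
def p13_15_0_350 : pfC (piC [(nat_lit 36888796), (nat_lit 24534081), (nat_lit 18263511), (nat_lit 12310016)] (nat_lit 23126356)) p13_15_0 (nat_lit 4) (nat_lit 350) (nat_lit 351) = true := by decide +kernel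
def p13_15_0_351 : pfC (piC [(nat_lit 36888796), (nat_lit 24534081), (nat_lit 18263511), (nat_lit 12310016)] (nat_lit 23126356)) p13_15_0 (nat_lit 4) (nat_lit 351) (nat_lit 352) = true := by decide +kernel
def p13_15_0_352 : pfC (piC [(nat_lit 36888796), (nat_lit 24534081), (nat_lit 18263511), (nat_lit 12310016)] (nat_lit 23126356)) p13_15_0 (nat_lit 4) (nat_lit 352) (nat_lit 353) = true := by decide +kernel
def p13_15_0_353 : pfC (piC [(nat_lit 36888796), (nat_lit 24534081), (nat_lit 18263511), (nat_lit 12310016)] (nat_lit 23126356)) p13_15_0 (nat_lit 4) (nat_lit 353) (nat_lit 354) = true := by decide +kernel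
def p13_15_0_354 : pfC (piC [(nat_lit 36888796), (nat_lit 24534081), (nat_lit 18263511), (nat_lit 12310016)] (nat_lit 23126356)) p13_15_0 (nat_lit 4) (nat_lit 354) (nat_lit 355) = true := by decide +kernel
def p13_15_0_355 : pfC (piC [(nat_lit 36888796), (nat_lit 24534081), (nat_lit 18263511), (nat_lit 12310016)] (nat_lit 23126356)) p13_15_0 (nat_lit 4) (nat_lit 355) (nat_lit 356) = true := by decide +kernel
def p13_15_0_356 : pfC (piC [(nat_lit 36888796), (nat_lit 24534081), (nat_lit 18263511), (nat_lit 12310016)] (nat_lit 23126356)) p13_15_0 (nat_lit 4) (nat_lit 356) (nat_lit 357) = true := by decide +kernel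
theorem p13_15_0_T : PfS (PiF n13_15.reverse (nat_lit 23126356)) p13_15_0 (nat_lit 4) [] 0 :=
  pftab_of (los := [(nat_lit 36888796), (nat_lit 24534081), (nat_lit 18263511), (nat_lit 12310016)]) (by decide +kernel) (hi := (nat_lit 357)) (PfP.trans (PfP.trans (PfP.trans (PfP.trans (PfP.trans (PfP.trans (PfP.trans (PfP.trans (PfP.trans (PfP.trans (PfP.trans (PfP.trans (PfP.trans (PfP.trans (PfP.trans (PfP.trans (PfP.trans (PfP.trans (PfP.trans (PfP.trans (PfP.trans (PfP.trans (PfP.trans (PfP.trans (PfP.trans (PfP.trans (PfP.trans (PfP.trans (PfP.trans (PfP.trans (PfP.trans (PfP.trans (PfP.trans (PfP.trans (PfP.trans (PfP.trans (PfP.trans (PfP.trans (PfP.trans (PfP.trans (PfP.trans (PfP.trans (PfP.trans (PfP.trans (PfP.trans (PfP.trans (PfP.trans (PfP.trans (PfP.trans (PfP.trans (PfP.trans (PfP.trans (PfP.trans (PfP.trans (PfP.trans (PfP.trans (PfP.trans (PfP.trans (PfP.trans (PfP.trans (PfP.trans (PfP.trans (PfP.trans (PfP.trans (PfP.trans (PfP.trans (PfP.trans (PfP.trans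 (PfP.trans (PfP.trans (PfP.trans (PfP.trans (PfP.trans (PfP.trans (PfP.trans (PfP.trans (PfP.trans (PfP.trans (PfP.trans (PfP.trans (PfP.trans (PfP.trans (PfP.trans (PfP.trans (PfP.trans (PfP.trans (PfP.trans (PfP.trans (PfP.trans (PfP.trans (PfP.trans (PfP.trans (PfP.trans (PfP.trans (PfP.trans (PfP.trans (PfP.trans (PfP.trans (PfP.trans (PfP.trans (PfP.trans (PfP.trans (PfP.trans (PfP.trans (PfP.trans (PfP.trans (PfP.trans (PfP.trans (PfP.trans
 (PfP.trans (PfP.trans (PfP.trans (PfP.trans (PfP.trans (PfP.trans (PfP.trans (PfP.trans (PfP.trans (PfP.trans (PfP.trans (PfP.trans (PfP.trans (PfP.trans (PfP.trans (PfP.trans (PfP.trans (PfP.trans (PfP.trans (PfP.trans (PfP.trans (PfP.trans (PfP.trans (PfP.trans (PfP.trans (PfP.trans (PfP.trans (PfP.trans (PfP.trans (PfP.trans (PfP.trans (PfP.trans (PfP.trans (PfP.trans (PfP.trans (PfP.trans (PfP.trans (PfP.trans (PfP.trans (PfP.trans (PfP.trans (PfP.trans (PfP.trans (PfP.trans (PfP.trans (PfP.trans (PfP.trans (PfP.trans (PfP.trans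 (PfP.trans (PfP.trans (PfP.trans (PfP.trans (PfP.trans (PfP.trans (PfP.trans (PfP.trans (PfP.trans (PfP.trans (PfP.trans (PfP.trans (PfP.trans (PfP.trans (PfP.trans (PfP.trans (PfP.trans (PfP.trans (PfP.trans (PfP.trans (PfP.trans (PfP.trans (PfP.trans (PfP.trans (PfP.trans (PfP.trans (PfP.trans (PfP.trans (PfP.trans (PfP.trans (PfP.trans (PfP.trans (PfP.trans (PfP.trans (PfP.trans (PfP.trans (PfP.trans (PfP.trans (PfP.trans (PfP.trans (PfP.trans (PfP.trans (PfP.trans (PfP.trans (PfP.trans (PfP.trans (PfP.trans (PfP.trans (PfP.trans (PfP.trans (PfP.trans (PfP.trans (PfP.trans (PfP.trans (PfP.trans (PfP.trans (PfP.trans (PfP.trans (PfP.trans (PfP.trans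
 (PfP.trans (PfP.trans (PfP.trans (PfP.trans (PfP.trans (PfP.trans (PfP.trans (PfP.trans (PfP.trans (PfP.trans (PfP.trans (PfP.trans (PfP.trans (PfP.trans (PfP.trans (PfP.trans (PfP.trans (PfP.trans (PfP.trans (PfP.trans (PfP.trans (PfP.trans (PfP.trans (PfP.trans (PfP.trans (PfP.trans (PfP.trans (PfP.trans (PfP.trans (PfP.trans (PfP.trans (PfP.trans (PfP.trans (PfP.trans (PfP.trans (PfP.trans (PfP.trans (PfP.trans (PfP.trans (PfP.trans (PfP.trans (PfP.trans (PfP.trans (PfP.trans (PfP.trans (PfP.trans (PfP.trans (PfP.trans (PfP.trans (PfP.trans (PfP.trans (PfP.trans (PfP.trans (PfP.trans (PfP.trans (PfP.trans (PfP.trans (PfP.trans (PfP.trans (PfP.trans (PfP.trans (PfP.trans (PfP.trans (PfP.trans (PfP.trans (PfP.trans (PfP.trans (PfP.trans (PfP.trans (PfP.trans (PfP.trans (PfP.trans (PfP.trans (PfP.trans (PfP.trans (PfP.trans (PfP.trans (PfP.trans (PfP.trans (PfP.trans (PfP.trans (PfP.trans (PfP.trans (PfP.trans (PfP.trans (PfP.trans (PfP.trans (PfP.trans (PfP.trans (PfP.trans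 (PfP.trans (PfP.trans (PfP.trans (PfP.trans (PfP.trans (PfP.trans (PfP.trans (PfP.trans (PfP.trans (PfP.trans (PfP.trans (PfP.trans (PfP.trans (PfP.trans (PfP.trans (PfP.trans (PfP.trans (PfP.trans (PfP.trans
 (PfP.trans (PfP.trans (PfP.trans (PfP.trans (PfP.trans (PfP.trans (PfP.trans (PfP.trans (PfP.trans (PfP.trans (PfP.trans (PfP.trans (PfP.trans (PfP.trans (PfP.trans (PfP.trans (PfP.trans (PfP.trans (PfP.trans (PfP.trans (PfP.trans (PfP.trans (PfP.trans (PfP.trans (PfP.trans (PfP.trans (PfP.trans (PfP.trans (PfP.trans (pfC_sound p13_15_0_0) (pfC_sound p13_15_0_1)) (pfC_sound p13_15_0_2)) (pfC_sound p13_15_0_3)) (pfC_sound p13_15_0_4)) (pfC_sound p13_15_0_5)) (pfC_sound p13_15_0_6)) (pfC_sound p13_15_0_7)) (pfC_sound p13_15_0_8)) (pfC_sound p13_15_0_9)) (pfC_sound p13_15_0_10)) (pfC_sound p13_15_0_11)) (pfC_sound p13_15_0_12)) (pfC_sound p13_15_0_13)) (pfC_sound p13_15_0_14)) (pfC_sound p13_15_0_15)) (pfC_sound p13_15_0_16)) (pfC_sound p13_15_0_17)) (pfC_sound p13_15_0_18))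 (pfC_sound p13_15_0_19)) (pfC_sound p13_15_0_20)) (pfC_sound p13_15_0_21)) (pfC_sound p13_15_0_22)) (pfC_sound p13_15_0_23)) (pfC_sound p13_15_0_24)) (pfC_sound p13_15_0_25)) (pfC_sound p13_15_0_26)) (pfC_sound p13_15_0_27)) (pfC_sound p13_15_0_28)) (pfC_sound p13_15_0_29)) (pfC_sound p13_15_0_30)) (pfC_sound p13_15_0_31)) (pfC_sound p13_15_0_32)) (pfC_sound p13_15_0_33)) (pfC_sound p13_15_0_34)) (pfC_sound
 p13_15_0_35)) (pfC_sound p13_15_0_36)) (pfC_sound p13_15_0_37)) (pfC_sound p13_15_0_38)) (pfC_sound p13_15_0_39)) (pfC_sound p13_15_0_40)) (pfC_sound p13_15_0_41)) (pfC_sound p13_15_0_42)) (pfC_sound p13_15_0_43)) (pfC_sound p13_15_0_44)) (pfC_sound p13_15_0_45)) (pfC_sound p13_15_0_46)) (pfC_sound p13_15_0_47)) (pfC_sound p13_15_0_48)) (pfC_sound p13_15_0_49)) (pfC_sound p13_15_0_50)) (pfC_sound p13_15_0_51)) (pfC_sound p13_15_0_52)) (pfC_sound p13_15_0_53)) (pfC_sound p13_15_0_54)) (pfC_sound p13_15_0_55)) (pfC_sound p13_15_0_56)) (pfC_sound p13_15_0_57)) (pfC_sound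 p13_15_0_58)) (pfC_sound p13_15_0_59)) (pfC_sound p13_15_0_60)) (pfC_sound p13_15_0_61)) (pfC_sound p13_15_0_62)) (pfC_sound p13_15_0_63)) (pfC_sound p13_15_0_64)) (pfC_sound p13_15_0_65)) (pfC_sound p13_15_0_66)) (pfC_sound p13_15_0_67)) (pfC_sound p13_15_0_68)) (pfC_sound p13_15_0_69)) (pfC_sound p13_15_0_70)) (pfC_sound p13_15_0_71)) (pfC_sound p13_15_0_72)) (pfC_sound p13_15_0_73)) (pfC_sound p13_15_0_74)) (pfC_sound p13_15_0_75)) (pfC_sound p13_15_0_76)) (pfC_sound p13_15_0_77)) (pfC_sound p13_15_0_78)) (pfC_sound p13_15_0_79)) (pfC_sound p13_15_0_80)) (pfC_sound p13_15_0_81)) (pfC_sound p13_15_0_82)) (pfC_sound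
 p13_15_0_83)) (pfC_sound p13_15_0_84)) (pfC_sound p13_15_0_85)) (pfC_sound p13_15_0_86)) (pfC_sound p13_15_0_87)) (pfC_sound p13_15_0_88)) (pfC_sound p13_15_0_89)) (pfC_sound p13_15_0_90)) (pfC_sound p13_15_0_91)) (pfC_sound p13_15_0_92)) (pfC_sound p13_15_0_93)) (pfC_sound p13_15_0_94)) (pfC_sound p13_15_0_95)) (pfC_sound p13_15_0_96)) (pfC_sound p13_15_0_97)) (pfC_sound p13_15_0_98)) (pfC_sound p13_15_0_99)) (pfC_sound p13_15_0_100)) (pfC_sound p13_15_0_101)) (pfC_sound p13_15_0_102)) (pfC_sound p13_15_0_103)) (pfC_sound p13_15_0_104)) (pfC_sound p13_15_0_105)) (pfC_sound p13_15_0_106)) (pfC_sound p13_15_0_107)) (pfC_sound p13_15_0_108)) (pfC_sound p13_15_0_109)) (pfC_sound p13_15_0_110)) (pfC_sound p13_15_0_111)) (pfC_sound p13_15_0_112)) (pfC_sound p13_15_0_113)) (pfC_sound p13_15_0_114)) (pfC_sound p13_15_0_115)) (pfC_sound p13_15_0_116)) (pfC_sound p13_15_0_117)) (pfC_sound p13_15_0_118)) (pfC_sound p13_15_0_119)) (pfC_sound p13_15_0_120)) (pfC_sound p13_15_0_121))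 (pfC_sound p13_15_0_122)) (pfC_sound p13_15_0_123)) (pfC_sound p13_15_0_124)) (pfC_sound p13_15_0_125)) (pfC_sound p13_15_0_126)) (pfC_sound p13_15_0_127)) (pfC_sound p13_15_0_128)) (pfC_sound p13_15_0_129))
 (pfC_sound p13_15_0_130)) (pfC_sound p13_15_0_131)) (pfC_sound p13_15_0_132)) (pfC_sound p13_15_0_133)) (pfC_sound p13_15_0_134)) (pfC_sound p13_15_0_135)) (pfC_sound p13_15_0_136)) (pfC_sound p13_15_0_137)) (pfC_sound p13_15_0_138)) (pfC_sound p13_15_0_139)) (pfC_sound p13_15_0_140)) (pfC_sound p13_15_0_141)) (pfC_sound p13_15_0_142)) (pfC_sound p13_15_0_143)) (pfC_sound p13_15_0_144)) (pfC_sound p13_15_0_145)) (pfC_sound p13_15_0_146)) (pfC_sound p13_15_0_147)) (pfC_sound p13_15_0_148)) (pfC_sound p13_15_0_149)) (pfC_sound p13_15_0_150)) (pfC_sound p13_15_0_151)) (pfC_sound p13_15_0_152)) (pfC_sound p13_15_0_153)) (pfC_sound p13_15_0_154)) (pfC_sound p13_15_0_155)) (pfC_sound p13_15_0_156)) (pfC_sound p13_15_0_157)) (pfC_sound p13_15_0_158)) (pfC_sound p13_15_0_159))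 (pfC_sound p13_15_0_160)) (pfC_sound p13_15_0_161)) (pfC_sound p13_15_0_162)) (pfC_sound p13_15_0_163)) (pfC_sound p13_15_0_164)) (pfC_sound p13_15_0_165)) (pfC_sound p13_15_0_166)) (pfC_sound p13_15_0_167)) (pfC_sound p13_15_0_168)) (pfC_sound p13_15_0_169)) (pfC_sound p13_15_0_170)) (pfC_sound p13_15_0_171)) (pfC_sound p13_15_0_172)) (pfC_sound p13_15_0_173)) (pfC_sound p13_15_0_174)) (pfC_sound p13_15_0_175))
 (pfC_sound p13_15_0_176)) (pfC_sound p13_15_0_177)) (pfC_sound p13_15_0_178)) (pfC_sound p13_15_0_179)) (pfC_sound p13_15_0_180)) (pfC_sound p13_15_0_181)) (pfC_sound p13_15_0_182)) (pfC_sound p13_15_0_183)) (pfC_sound p13_15_0_184)) (pfC_sound p13_15_0_185)) (pfC_sound p13_15_0_186)) (pfC_sound p13_15_0_187)) (pfC_sound p13_15_0_188)) (pfC_sound p13_15_0_189)) (pfC_sound p13_15_0_190)) (pfC_sound p13_15_0_191)) (pfC_sound p13_15_0_192)) (pfC_sound p13_15_0_193)) (pfC_sound p13_15_0_194)) (pfC_sound p13_15_0_195)) (pfC_sound p13_15_0_196)) (pfC_sound p13_15_0_197))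 (pfC_sound p13_15_0_198)) (pfC_sound p13_15_0_199)) (pfC_sound p13_15_0_200)) (pfC_sound p13_15_0_201)) (pfC_sound p13_15_0_202)) (pfC_sound p13_15_0_203)) (pfC_sound p13_15_0_204)) (pfC_sound p13_15_0_205)) (pfC_sound p13_15_0_206)) (pfC_sound p13_15_0_207)) (pfC_sound p13_15_0_208)) (pfC_sound p13_15_0_209)) (pfC_sound p13_15_0_210)) (pfC_sound p13_15_0_211)) (pfC_sound p13_15_0_212)) (pfC_sound p13_15_0_213)) (pfC_sound p13_15_0_214)) (pfC_sound p13_15_0_215)) (pfC_sound p13_15_0_216)) (pfC_sound p13_15_0_217)) (pfC_sound p13_15_0_218)) (pfC_sound p13_15_0_219)) (pfC_sound p13_15_0_220)) (pfC_sound p13_15_0_221))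
 (pfC_sound p13_15_0_222)) (pfC_sound p13_15_0_223)) (pfC_sound p13_15_0_224)) (pfC_sound p13_15_0_225)) (pfC_sound p13_15_0_226)) (pfC_sound p13_15_0_227)) (pfC_sound p13_15_0_228)) (pfC_sound p13_15_0_229)) (pfC_sound p13_15_0_230)) (pfC_sound p13_15_0_231)) (pfC_sound p13_15_0_232)) (pfC_sound p13_15_0_233)) (pfC_sound p13_15_0_234)) (pfC_sound p13_15_0_235)) (pfC_sound p13_15_0_236)) (pfC_sound p13_15_0_237)) (pfC_sound p13_15_0_238)) (pfC_sound p13_15_0_239)) (pfC_sound p13_15_0_240)) (pfC_sound p13_15_0_241)) (pfC_sound p13_15_0_242)) (pfC_sound p13_15_0_243)) (pfC_sound p13_15_0_244)) (pfC_sound p13_15_0_245)) (pfC_sound p13_15_0_246)) (pfC_sound p13_15_0_247)) (pfC_sound p13_15_0_248)) (pfC_sound p13_15_0_249)) (pfC_sound p13_15_0_250)) (pfC_sound p13_15_0_251)) (pfC_sound p13_15_0_252)) (pfC_sound p13_15_0_253)) (pfC_sound p13_15_0_254)) (pfC_sound p13_15_0_255)) (pfC_sound p13_15_0_256)) (pfC_sound p13_15_0_257)) (pfC_sound p13_15_0_258)) (pfC_sound p13_15_0_259))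 (pfC_sound p13_15_0_260)) (pfC_sound p13_15_0_261)) (pfC_sound p13_15_0_262)) (pfC_sound p13_15_0_263)) (pfC_sound p13_15_0_264)) (pfC_sound p13_15_0_265)) (pfC_sound p13_15_0_266)) (pfC_sound p13_15_0_267))
 (pfC_sound p13_15_0_268)) (pfC_sound p13_15_0_269)) (pfC_sound p13_15_0_270)) (pfC_sound p13_15_0_271)) (pfC_sound p13_15_0_272)) (pfC_sound p13_15_0_273)) (pfC_sound p13_15_0_274)) (pfC_sound p13_15_0_275)) (pfC_sound p13_15_0_276)) (pfC_sound p13_15_0_277)) (pfC_sound p13_15_0_278)) (pfC_sound p13_15_0_279)) (pfC_sound p13_15_0_280)) (pfC_sound p13_15_0_281)) (pfC_sound p13_15_0_282)) (pfC_sound p13_15_0_283)) (pfC_sound p13_15_0_284)) (pfC_sound p13_15_0_285)) (pfC_sound p13_15_0_286)) (pfC_sound p13_15_0_287)) (pfC_sound p13_15_0_288)) (pfC_sound p13_15_0_289)) (pfC_sound p13_15_0_290)) (pfC_sound p13_15_0_291)) (pfC_sound p13_15_0_292)) (pfC_sound p13_15_0_293)) (pfC_sound p13_15_0_294)) (pfC_sound p13_15_0_295)) (pfC_sound p13_15_0_296)) (pfC_sound p13_15_0_297))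 (pfC_sound p13_15_0_298)) (pfC_sound p13_15_0_299)) (pfC_sound p13_15_0_300)) (pfC_sound p13_15_0_301)) (pfC_sound p13_15_0_302)) (pfC_sound p13_15_0_303)) (pfC_sound p13_15_0_304)) (pfC_sound p13_15_0_305)) (pfC_sound p13_15_0_306)) (pfC_sound p13_15_0_307)) (pfC_sound p13_15_0_308)) (pfC_sound p13_15_0_309)) (pfC_sound p13_15_0_310)) (pfC_sound p13_15_0_311)) (pfC_sound p13_15_0_312)) (pfC_sound p13_15_0_313))
 (pfC_sound p13_15_0_314)) (pfC_sound p13_15_0_315)) (pfC_sound p13_15_0_316)) (pfC_sound p13_15_0_317)) (pfC_sound p13_15_0_318)) (pfC_sound p13_15_0_319)) (pfC_sound p13_15_0_320)) (pfC_sound p13_15_0_321)) (pfC_sound p13_15_0_322)) (pfC_sound p13_15_0_323)) (pfC_sound p13_15_0_324)) (pfC_sound p13_15_0_325)) (pfC_sound p13_15_0_326)) (pfC_sound p13_15_0_327)) (pfC_sound p13_15_0_328)) (pfC_sound p13_15_0_329)) (pfC_sound p13_15_0_330)) (pfC_sound p13_15_0_331)) (pfC_sound p13_15_0_332)) (pfC_sound p13_15_0_333)) (pfC_sound p13_15_0_334)) (pfC_sound p13_15_0_335))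 (pfC_sound p13_15_0_336)) (pfC_sound p13_15_0_337)) (pfC_sound p13_15_0_338)) (pfC_sound p13_15_0_339)) (pfC_sound p13_15_0_340)) (pfC_sound p13_15_0_341)) (pfC_sound p13_15_0_342)) (pfC_sound p13_15_0_343)) (pfC_sound p13_15_0_344)) (pfC_sound p13_15_0_345)) (pfC_sound p13_15_0_346)) (pfC_sound p13_15_0_347)) (pfC_sound p13_15_0_348)) (pfC_sound p13_15_0_349)) (pfC_sound p13_15_0_350)) (pfC_sound p13_15_0_351)) (pfC_sound p13_15_0_352)) (pfC_sound p13_15_0_353)) (pfC_sound p13_15_0_354)) (pfC_sound p13_15_0_355)) (pfC_sound p13_15_0_356)) (by decide +kernel)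

def z13_15_0 : zOK yB13_15 (nat_lit 0) (nat_lit 0) (nat_lit 400) (nat_lit 23126356) (nat_lit 10936249) = true := by decide +kernel
def g13_15_0 : gOK yB13_15.x P13_15 (nat_lit 1413) (q13_15 :: r13_15) (nat_lit 0) (nat_lit 0) (nat_lit 1) (nat_lit 400) (nat_lit 0) (nat_lit 11000000) (nat_lit 12712500) (nat_lit 12712500) [(nat_lit 800), (nat_lit 1400), (nat_lit 2200)] = true := by decide +kernel
def v13_15_0 : ivC P13_15 s13_15 w13_15 n13_15 (nat_lit 4) (nat_lit 5360) (nat_lit 0) (nat_lit 0) f168_1_0 f176_1_0 (nat_lit 1) (nat_lit 400) f168_1_400 f176_1_400 (nat_lit 23126356) (nat_lit 10936249) p13_15_0 = true := by decide +kernel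
def p13_15_1 : PF := (PF.cons (PF.cons (PF.cons (PF.cons (PF.leaf (nat_lit 2009110) (nat_lit 9279569) (nat_lit 57829243) (nat_lit 9279569) [(nat_lit 0), (nat_lit 0), (nat_lit 0), (nat_lit 0)]) (PF.cons (PF.leaf (nat_lit 2209973) (nat_lit 353801) (nat_lit 57441478) (nat_lit 9313532) [(nat_lit 353801), (nat_lit 0), (nat_lit 0), (nat_lit 0)]) (PF.cons (PF.leaf (nat_lit 2447145) (nat_lit 385314) (nat_lit 56988463) (nat_lit 9349720) [(nat_lit 385314), (nat_lit 0), (nat_lit 0), (nat_lit 0)]) (PF.cons (PF.leaf (nat_lit 2713729) (nat_lit 413379) (nat_lit 56482729) (nat_lit 9385945) [(nat_lit 413379), (nat_lit 0), (nat_lit 0), (nat_lit 0)]) (PF.cons (PF.leaf (nat_lit 3005471) (nat_lit 438728) (nat_lit 55933304) (nat_lit 9420595) [(nat_lit 438728), (nat_lit 0), (nat_lit 0), (nat_lit 0)]) (PF.cons (PF.leaf (nat_lit 3319027) (nat_lit 461817) (nat_lit 55347268) (nat_lit 9452456) [(nat_lit 461817), (nat_lit 0), (nat_lit 0), (nat_lit 0)]) (PF.cons (PF.leaf (nat_lit 3651585) (nat_lit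 482952) (nat_lit 54730478) (nat_lit 9480617) [(nat_lit 482952), (nat_lit 0), (nat_lit 0), (nat_lit 0)]) (PF.cons (PF.leaf (nat_lit 4000795) (nat_lit 502352) (nat_lit 54087940) (nat_lit 9504405) [(nat_lit 502352), (nat_lit 0), (nat_lit
 0), (nat_lit 0)]) (PF.cons (PF.leaf (nat_lit 4364461) (nat_lit 520180) (nat_lit 53424027) (nat_lit 9523343) [(nat_lit 520180), (nat_lit 0), (nat_lit 0), (nat_lit 0)]) (PF.cons (PF.leaf (nat_lit 4740667) (nat_lit 536564) (nat_lit 52742614) (nat_lit 9537115) [(nat_lit 536564), (nat_lit 0), (nat_lit 0), (nat_lit 0)]) (PF.cons PF.nil (PF.cons PF.nil PF.nil)))))))))))) (PF.cons (PF.cons (PF.leaf (nat_lit 2628637) (nat_lit 1447736) (nat_lit 56269646) (nat_lit 9391430) [(nat_lit 0), (nat_lit 1447736), (nat_lit 0), (nat_lit 0)]) (PF.cons (PF.leaf (nat_lit 2886375) (nat_lit 423967) (nat_lit 55773372) (nat_lit 9421300) [(nat_lit 423967), (nat_lit 1490172), (nat_lit 0), (nat_lit 0)]) (PF.cons (PF.leaf (nat_lit 3171514) (nat_lit 448526) (nat_lit 55230727)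 (nat_lit 9449733) [(nat_lit 448526), (nat_lit 1531299), (nat_lit 0), (nat_lit 0)]) (PF.cons (PF.leaf (nat_lit 3479342) (nat_lit 470801) (nat_lit 54650426) (nat_lit 9475497) [(nat_lit 470801), (nat_lit 1570484), (nat_lit 0), (nat_lit 0)]) (PF.cons (PF.leaf (nat_lit 3806616) (nat_lit 491134) (nat_lit 54039163) (nat_lit 9497698) [(nat_lit 491134), (nat_lit 1607412), (nat_lit 0), (nat_lit 0)]) (PF.cons (PF.leaf (nat_lit 4150727) (nat_lit 509757)
 (nat_lit 53402394) (nat_lit 9515699) [(nat_lit 509757), (nat_lit 1641930), (nat_lit 0), (nat_lit 0)]) (PF.cons (PF.leaf (nat_lit 4509354) (nat_lit 526840) (nat_lit 52744731) (nat_lit 9529055) [(nat_lit 526840), (nat_lit 1673979), (nat_lit 0), (nat_lit 0)]) (PF.cons (PF.leaf (nat_lit 4880495) (nat_lit 542515) (nat_lit 52070168) (nat_lit 9537478) [(nat_lit 542515), (nat_lit 1703556), (nat_lit 0), (nat_lit 0)]) (PF.cons PF.nil (PF.cons PF.nil PF.nil)))))))))) (PF.cons (PF.cons (PF.leaf (nat_lit 3341301) (nat_lit 1561816) (nat_lit 54512451)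 (nat_lit 9472727) [(nat_lit 0), (nat_lit 1561816), (nat_lit 0), (nat_lit 0)]) (PF.cons (PF.leaf (nat_lit 3641083) (nat_lit 478513) (nat_lit 53943064) (nat_lit 9492608) [(nat_lit 478513), (nat_lit 1597313), (nat_lit 0), (nat_lit 0)]) (PF.cons (PF.leaf (nat_lit 3961769) (nat_lit 498236) (nat_lit 53341157) (nat_lit 9509127) [(nat_lit 498236), (nat_lit 1631027), (nat_lit 0), (nat_lit 0)]) (PF.cons (PF.leaf (nat_lit 4299844) (nat_lit 516225) (nat_lit 52713109) (nat_lit 9521652) [(nat_lit 516225), (nat_lit 1662686), (nat_lit 0), (nat_lit 0)]) (PF.cons (PF.leaf (nat_lit 4652746) (nat_lit 532675) (nat_lit 52064040) (nat_lit 9529754) [(nat_lit 532675),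
 (nat_lit 1692157), (nat_lit 0), (nat_lit 0)]) (PF.cons (PF.leaf (nat_lit 5018308) (nat_lit 547730) (nat_lit 51398221) (nat_lit 9533163) [(nat_lit 547730), (nat_lit 1719388), (nat_lit 0), (nat_lit 0)]) (PF.cons (PF.leaf (nat_lit 5394654) (nat_lit 561502) (nat_lit 50719311) (nat_lit 9531733) [(nat_lit 561502), (nat_lit 1744375), (nat_lit 0), (nat_lit 0)]) (PF.cons PF.nil (PF.cons PF.nil PF.nil))))))))) (PF.cons (PF.cons (PF.leaf (nat_lit 4118635) (nat_lit 1652678) (nat_lit 52635699) (nat_lit 9515078) [(nat_lit 0), (nat_lit 1652678), (nat_lit 0), (nat_lit 0)]) (PF.cons (PF.leaf (nat_lit 4449083) (nat_lit 521757) (nat_lit 52019763) (nat_lit 9522458) [(nat_lit 521757), (nat_lit 1681610), (nat_lit 0), (nat_lit 0)]) (PF.cons (PF.leaf (nat_lit 4795373) (nat_lit 537694) (nat_lit 51381864) (nat_lit 9525649) [(nat_lit 537694), (nat_lit 1708636), (nat_lit 0), (nat_lit 0)]) (PF.cons (PF.leaf (nat_lit 5154724) (nat_lit 552222) (nat_lit 50726809) (nat_lit 9524389) [(nat_lit 552222),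 (nat_lit 1733649), (nat_lit 0), (nat_lit 0)]) (PF.cons (PF.leaf (nat_lit 5525068) (nat_lit 565471) (nat_lit 50058557) (nat_lit 9518540) [(nat_lit 565471), (nat_lit 1756608), (nat_lit 0), (nat_lit 0)]) (PF.cons PF.nil
 (PF.cons PF.nil PF.nil))))))) (PF.cons (PF.cons (PF.leaf (nat_lit 4938425) (nat_lit 1723545) (nat_lit 50697709) (nat_lit 9516922) [(nat_lit 0), (nat_lit 1723545), (nat_lit 0), (nat_lit 0)]) (PF.cons (PF.leaf (nat_lit 5290414) (nat_lit 555993) (nat_lit 50055685) (nat_lit 9511346) [(nat_lit 555993), (nat_lit 1746446), (nat_lit 0), (nat_lit 0)]) (PF.cons (PF.leaf (nat_lit 5654177) (nat_lit 568803) (nat_lit 49399840) (nat_lit 9501422) [(nat_lit 568803), (nat_lit 1767485), (nat_lit 0), (nat_lit 0)]) (PF.cons (PF.leaf (nat_lit 6027447) (nat_lit 580434) (nat_lit 48733842) (nat_lit 9487114) [(nat_lit 580434), (nat_lit 1786638), (nat_lit 0), (nat_lit 0)]) (PF.cons PF.nil PF.nil))))) (PF.cons (PF.cons (PF.leaf (nat_lit 5782912) (nat_lit 1777094) (nat_lit 48742794)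 (nat_lit 9480544) [(nat_lit 0), (nat_lit 1777094), (nat_lit 0), (nat_lit 0)]) (PF.cons (PF.leaf (nat_lit 6149075) (nat_lit 582756) (nat_lit 48090414) (nat_lit 9462739) [(nat_lit 582756), (nat_lit 1794580), (nat_lit 0), (nat_lit 0)]) (PF.cons (PF.leaf (nat_lit 6523699) (nat_lit 592929) (nat_lit 47430475) (nat_lit 9440817) [(nat_lit 592929), (nat_lit 1810332), (nat_lit 0), (nat_lit 0)]) (PF.cons PF.nil PF.nil)))) (PF.cons (PF.cons
 (PF.leaf (nat_lit 6638007) (nat_lit 1815724) (nat_lit 46804253) (nat_lit 9410209) [(nat_lit 0), (nat_lit 1815724), (nat_lit 0), (nat_lit 0)]) (PF.cons PF.nil PF.nil)) (PF.cons PF.nil (PF.cons PF.nil PF.nil))))))))) (PF.cons (PF.cons (PF.cons (PF.leaf (nat_lit 3230648) (nat_lit 3675931) (nat_lit 53978875) (nat_lit 9454005) [(nat_lit 0), (nat_lit 0), (nat_lit 3675931), (nat_lit 0)]) (PF.cons (PF.leaf (nat_lit 3499401) (nat_lit 454646) (nat_lit 53470774) (nat_lit 9469689) [(nat_lit 454646), (nat_lit 0), (nat_lit 3713703), (nat_lit 0)]) (PF.cons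 (PF.leaf (nat_lit 3793819) (nat_lit 477267) (nat_lit 52920372) (nat_lit 9483019) [(nat_lit 477267), (nat_lit 0), (nat_lit 3750886), (nat_lit 0)]) (PF.cons (PF.leaf (nat_lit 4108994) (nat_lit 497467) (nat_lit 52336736) (nat_lit 9493170) [(nat_lit 497467), (nat_lit 0), (nat_lit 3786502), (nat_lit 0)]) (PF.cons (PF.leaf (nat_lit 4441631) (nat_lit 515669) (nat_lit 51726633) (nat_lit 9499573) [(nat_lit 515669), (nat_lit 0), (nat_lit 3819928), (nat_lit 0)]) (PF.cons (PF.leaf (nat_lit 4789085) (nat_lit 532155) (nat_lit 51095425) (nat_lit 9501849) [(nat_lit 532155), (nat_lit 0), (nat_lit 3850763), (nat_lit 0)]) (PF.cons (PF.leaf (nat_lit 5149130)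
 (nat_lit 547127) (nat_lit 50447530) (nat_lit 9499757) [(nat_lit 547127), (nat_lit 0), (nat_lit 3878762), (nat_lit 0)]) (PF.cons (PF.leaf (nat_lit 5519836) (nat_lit 560738) (nat_lit 49786686) (nat_lit 9493172) [(nat_lit 560738), (nat_lit 0), (nat_lit 3903787), (nat_lit 0)]) (PF.cons PF.nil (PF.cons PF.nil PF.nil)))))))))) (PF.cons (PF.cons (PF.leaf (nat_lit 3956184) (nat_lit 1628279) (nat_lit 52211528) (nat_lit 9487159) [(nat_lit 0), (nat_lit 1628279), (nat_lit 3781846), (nat_lit 0)]) (PF.cons (PF.leaf (nat_lit 4262165) (nat_lit 502720) (nat_lit 51642740) (nat_lit 9492568) [(nat_lit 502720), (nat_lit 1657730), (nat_lit 3813053), (nat_lit 0)]) (PF.cons (PF.leaf (nat_lit 4587235) (nat_lit 520520) (nat_lit 51045470) (nat_lit 9494409) [(nat_lit 520520), (nat_lit 1685433), (nat_lit 3842458), (nat_lit 0)]) (PF.cons (PF.leaf (nat_lit 4927871) (nat_lit 536552) (nat_lit 50426046) (nat_lit 9492314) [(nat_lit 536552), (nat_lit 1711200), (nat_lit 3869594), (nat_lit 0)]) (PF.cons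 (PF.leaf (nat_lit 5281551) (nat_lit 551051) (nat_lit 49789426) (nat_lit 9486058) [(nat_lit 551051), (nat_lit 1734951), (nat_lit 3894172), (nat_lit 0)]) (PF.cons (PF.leaf (nat_lit 5646166) (nat_lit 564186) (nat_lit
 49139655) (nat_lit 9475528) [(nat_lit 564186), (nat_lit 1756667), (nat_lit 3916027), (nat_lit 0)]) (PF.cons (PF.leaf (nat_lit 6019945) (nat_lit 576090) (nat_lit 48480125) (nat_lit 9460696) [(nat_lit 576090), (nat_lit 1776370), (nat_lit 3935076), (nat_lit 0)]) (PF.cons PF.nil (PF.cons PF.nil PF.nil))))))))) (PF.cons (PF.cons (PF.leaf (nat_lit 4734672) (nat_lit 1701067) (nat_lit 50359913) (nat_lit 9484643) [(nat_lit 0), (nat_lit 1701067), (nat_lit 3862121), (nat_lit 0)]) (PF.cons (PF.leaf (nat_lit 5066973) (nat_lit 540134) (nat_lit 49755200) (nat_lit 9478529) [(nat_lit 540134), (nat_lit 1724603), (nat_lit 3885742), (nat_lit 0)]) (PF.cons (PF.leaf (nat_lit 5413460) (nat_lit 554271) (nat_lit 49132025) (nat_lit 9468447) [(nat_lit 554271), (nat_lit 1746353), (nat_lit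 3907089), (nat_lit 0)]) (PF.cons (PF.leaf (nat_lit 5771417) (nat_lit 567017) (nat_lit 48494988) (nat_lit 9454296) [(nat_lit 567017), (nat_lit 1766257), (nat_lit 3925960), (nat_lit 0)]) (PF.cons (PF.leaf (nat_lit 6138859) (nat_lit 578523) (nat_lit 47847801) (nat_lit 9436058) [(nat_lit 578523), (nat_lit 1784304), (nat_lit 3942249), (nat_lit 0)]) (PF.cons PF.nil (PF.cons PF.nil PF.nil))))))) (PF.cons (PF.cons (PF.leaf (nat_lit
 5546023) (nat_lit 1756481) (nat_lit 48474649) (nat_lit 9447058) [(nat_lit 0), (nat_lit 1756481), (nat_lit 3917659), (nat_lit 0)]) (PF.cons (PF.leaf (nat_lit 5896238) (nat_lit 569222) (nat_lit 47852266) (nat_lit 9429622) [(nat_lit 569222), (nat_lit 1774660), (nat_lit 3933720), (nat_lit 0)]) (PF.cons (PF.leaf (nat_lit 6256789) (nat_lit 580408) (nat_lit 47218867) (nat_lit 9408291) [(nat_lit 580408), (nat_lit 1791139), (nat_lit 3947417), (nat_lit 0)]) (PF.cons (PF.leaf (nat_lit 6625552) (nat_lit 590458) (nat_lit 46577862) (nat_lit 9383118) [(nat_lit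 590458), (nat_lit 1805921), (nat_lit 3958692), (nat_lit 0)]) (PF.cons PF.nil PF.nil))))) (PF.cons (PF.cons (PF.leaf (nat_lit 6374655) (nat_lit 1796943) (nat_lit 46592826) (nat_lit 9377518) [(nat_lit 0), (nat_lit 1796943), (nat_lit 3950692), (nat_lit 0)]) (PF.cons (PF.leaf (nat_lit 6736141) (nat_lit 591522) (nat_lit 45966333) (nat_lit 9349752) [(nat_lit 591522), (nat_lit 1810368), (nat_lit 3959729), (nat_lit 0)]) (PF.cons PF.nil (PF.cons PF.nil PF.nil)))) (PF.cons (PF.cons (PF.leaf (nat_lit 7208462) (nat_lit 1824617) (nat_lit 44741424) (nat_lit 9280318) [(nat_lit 0), (nat_lit 1824617), (nat_lit 3963979), (nat_lit 0)]) (PF.cons PF.nil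
 PF.nil)) (PF.cons PF.nil (PF.cons PF.nil PF.nil)))))))) (PF.cons (PF.cons (PF.cons (PF.leaf (nat_lit 4554498) (nat_lit 3839841) (nat_lit 49977681) (nat_lit 9451447) [(nat_lit 0), (nat_lit 0), (nat_lit 3839841), (nat_lit 0)]) (PF.cons (PF.leaf (nat_lit 4863688) (nat_lit 521353) (nat_lit 49417695) (nat_lit 9444809) [(nat_lit 521353), (nat_lit 0), (nat_lit 3862477), (nat_lit 0)]) (PF.cons (PF.leaf (nat_lit 5190389) (nat_lit 537433) (nat_lit 48832730) (nat_lit 9434577) [(nat_lit 537433), (nat_lit 0), (nat_lit 3883319), (nat_lit 0)]) (PF.cons (PF.leaf (nat_lit 5531079) (nat_lit 551737) (nat_lit 48228947) (nat_lit 9420585) [(nat_lit 551737), (nat_lit 0), (nat_lit 3902033), (nat_lit 0)]) (PF.cons (PF.leaf (nat_lit 5883277) (nat_lit 564530) (nat_lit 47611081) (nat_lit 9402764) [(nat_lit 564530), (nat_lit 0), (nat_lit 3918422), (nat_lit 0)]) (PF.cons (PF.leaf (nat_lit 6244994) (nat_lit 576001) (nat_lit 46982922) (nat_lit 9381113) [(nat_lit 576001), (nat_lit 0), (nat_lit 3932384),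 (nat_lit 0)]) (PF.cons PF.nil PF.nil))))))) (PF.cons (PF.cons (PF.leaf (nat_lit 5328217) (nat_lit 1734435) (nat_lit 48173248) (nat_lit 9412458) [(nat_lit 0), (nat_lit 1734435), (nat_lit 3894335), (nat_lit 0)])
 (PF.cons (PF.leaf (nat_lit 5660120) (nat_lit 553728) (nat_lit 47585769) (nat_lit 9395436) [(nat_lit 553728), (nat_lit 1753426), (nat_lit 3910225), (nat_lit 0)]) (PF.cons (PF.leaf (nat_lit 6004776) (nat_lit 566285) (nat_lit 46982716) (nat_lit 9374729) [(nat_lit 566285), (nat_lit 1770751), (nat_lit 3924022), (nat_lit 0)]) (PF.cons (PF.leaf (nat_lit 6359555) (nat_lit 577481) (nat_lit 46368441) (nat_lit 9350353) [(nat_lit 577481), (nat_lit 1786382), (nat_lit 3935594), (nat_lit 0)]) (PF.cons (PF.leaf (nat_lit 6722561) (nat_lit 587481) (nat_lit 45746402) (nat_lit 9322375) [(nat_lit 587481), (nat_lit 1800336), (nat_lit 3944886), (nat_lit 0)]) PF.nil))))) (PF.cons (PF.cons (PF.leaf (nat_lit 6127152) (nat_lit 1777026) (nat_lit 46355700) (nat_lit 9343625) [(nat_lit 0),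 (nat_lit 1777026), (nat_lit 3927716), (nat_lit 0)]) (PF.cons (PF.leaf (nat_lit 6473983) (nat_lit 578413) (nat_lit 45756956) (nat_lit 9316836) [(nat_lit 578413), (nat_lit 1791252), (nat_lit 3937050), (nat_lit 0)]) (PF.cons (PF.leaf (nat_lit 6829963) (nat_lit 588193) (nat_lit 45149414) (nat_lit 9286588) [(nat_lit 588193), (nat_lit 1803930), (nat_lit 3944281), (nat_lit 0)]) (PF.cons PF.nil PF.nil)))) (PF.cons (PF.cons (PF.leaf
 (nat_lit 6937584) (nat_lit 1806683) (nat_lit 44556050) (nat_lit 9248412) [(nat_lit 0), (nat_lit 1806683), (nat_lit 3942149), (nat_lit 0)]) (PF.cons (PF.leaf (nat_lit 7293363) (nat_lit 596929) (nat_lit 43957727) (nat_lit 9212972) [(nat_lit 596929), (nat_lit 1816733), (nat_lit 3945490), (nat_lit 0)]) PF.nil)) (PF.cons PF.nil (PF.cons PF.nil PF.nil)))))) (PF.cons (PF.cons (PF.cons (PF.leaf (nat_lit 5898090) (nat_lit 3904345) (nat_lit 46087558) (nat_lit 9308217) [(nat_lit 0), (nat_lit 0), (nat_lit 3904345), (nat_lit 0)]) (PF.cons (PF.leaf (nat_lit 6227881)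 (nat_lit 563383) (nat_lit 45521226) (nat_lit 9282526) [(nat_lit 563383), (nat_lit 0), (nat_lit 3913891), (nat_lit 0)]) (PF.cons (PF.leaf (nat_lit 6569231) (nat_lit 574555) (nat_lit 44941691) (nat_lit 9253452) [(nat_lit 574555), (nat_lit 0), (nat_lit 3921519), (nat_lit 0)]) (PF.cons (PF.leaf (nat_lit 6919562) (nat_lit 584402) (nat_lit 44353043) (nat_lit 9221098) [(nat_lit 584402), (nat_lit 0), (nat_lit 3927155), (nat_lit 0)]) (PF.cons PF.nil PF.nil))))) (PF.cons (PF.cons (PF.leaf (nat_lit 6681892) (nat_lit 1787610) (nat_lit 44346793) (nat_lit 9215042) [(nat_lit 0), (nat_lit 1787610), (nat_lit 3919788), (nat_lit 0)]) (PF.cons (PF.leaf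
 (nat_lit 7024200) (nat_lit 584301) (nat_lit 43774008) (nat_lit 9180999) [(nat_lit 584301), (nat_lit 1798529), (nat_lit 3923657), (nat_lit 0)]) (PF.cons (PF.leaf (nat_lit 7374657) (nat_lit 592863) (nat_lit 43194173) (nat_lit 9143901) [(nat_lit 592863), (nat_lit 1808039), (nat_lit 3925657), (nat_lit 0)]) (PF.cons PF.nil PF.nil)))) (PF.cons (PF.cons (PF.leaf (nat_lit 7472732) (nat_lit 1808352) (nat_lit 42633873) (nat_lit 9100321) [(nat_lit 0), (nat_lit 1808352), (nat_lit 3919304), (nat_lit 0)]) (PF.cons (PF.leaf (nat_lit 7822133) (nat_lit 599610) (nat_lit 42064725) (nat_lit 9059083) [(nat_lit 599610), (nat_lit 1815601), (nat_lit 3918063), (nat_lit 0)]) PF.nil)) (PF.cons PF.nil (PF.cons PF.nil PF.nil))))) (PF.cons (PF.cons (PF.cons (PF.leaf (nat_lit 7210903) (nat_lit 3897819) (nat_lit 42449451) (nat_lit 9068081) [(nat_lit 0), (nat_lit 0), (nat_lit 3897819), (nat_lit 0)]) (PF.cons (PF.leaf (nat_lit 7547872) (nat_lit 587493) (nat_lit 41903730) (nat_lit 9028520) [(nat_lit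 587493), (nat_lit 0), (nat_lit 3897267), (nat_lit 0)]) (PF.cons (PF.leaf (nat_lit 7892173) (nat_lit 595001) (nat_lit 41352330) (nat_lit 8986267) [(nat_lit 595001), (nat_lit 0), (nat_lit 3895053), (nat_lit 0)]) (PF.cons
 PF.nil PF.nil)))) (PF.cons (PF.cons (PF.leaf (nat_lit 7981434) (nat_lit 1803606) (nat_lit 40824607) (nat_lit 8938877) [(nat_lit 0), (nat_lit 1803606), (nat_lit 3885430), (nat_lit 0)]) (PF.cons PF.nil PF.nil)) (PF.cons PF.nil PF.nil))) (PF.cons (PF.cons (PF.cons (PF.leaf (nat_lit 8465206) (nat_lit 3843150) (nat_lit 39124550) (nat_lit 8768509) [(nat_lit 0), (nat_lit 0), (nat_lit 3843150), (nat_lit 0)]) (PF.cons PF.nil PF.nil)) (PF.cons PF.nil PF.nil)) (PF.cons PF.nil (PF.cons PF.nil PF.nil)))))))) (PF.cons (PF.cons (PF.cons (PF.cons (PF.leaf (nat_lit 4173407) (nat_lit 9172277) (nat_lit 48664770) (nat_lit 9271765) [(nat_lit 0), (nat_lit 0), (nat_lit 0), (nat_lit 9172277)]) (PF.cons (PF.leaf (nat_lit 4439229) (nat_lit 470072) (nat_lit 48203732) (nat_lit 9266918)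 [(nat_lit 470072), (nat_lit 0), (nat_lit 0), (nat_lit 9168089)]) (PF.cons (PF.leaf (nat_lit 4728478) (nat_lit 490807) (nat_lit 47707055) (nat_lit 9259131) [(nat_lit 490807), (nat_lit 0), (nat_lit 0), (nat_lit 9161011)]) (PF.cons (PF.leaf (nat_lit 5036222) (nat_lit 508910) (nat_lit 47183178) (nat_lit 9248136) [(nat_lit 508910), (nat_lit 0), (nat_lit 0), (nat_lit 9150765)]) (PF.cons (PF.leaf (nat_lit 5359130) (nat_lit 524892)
 (nat_lit 46638293) (nat_lit 9233769) [(nat_lit 524892), (nat_lit 0), (nat_lit 0), (nat_lit 9137180)]) (PF.cons (PF.leaf (nat_lit 5694621) (nat_lit 539097) (nat_lit 46077207) (nat_lit 9215949) [(nat_lit 539097), (nat_lit 0), (nat_lit 0), (nat_lit 9120167)]) (PF.cons (PF.leaf (nat_lit 6040602) (nat_lit 551776) (nat_lit 45503793) (nat_lit 9194656) [(nat_lit 551776), (nat_lit 0), (nat_lit 0), (nat_lit 9099705)]) (PF.cons (PF.leaf (nat_lit 6395259) (nat_lit 563115) (nat_lit 44921255) (nat_lit 9169924) [(nat_lit 563115), (nat_lit 0), (nat_lit 0), (nat_lit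 9075822)]) (PF.cons (PF.leaf (nat_lit 6757074) (nat_lit 573263) (nat_lit 44332287) (nat_lit 9141826) [(nat_lit 573263), (nat_lit 0), (nat_lit 0), (nat_lit 9048590)]) (PF.cons PF.nil PF.nil)))))))))) (PF.cons (PF.cons (PF.leaf (nat_lit 4873612) (nat_lit 1650533) (nat_lit 47077796) (nat_lit 9238871) [(nat_lit 0), (nat_lit 1650533), (nat_lit 0), (nat_lit 9141611)]) (PF.cons (PF.leaf (nat_lit 5171409) (nat_lit 511631) (nat_lit 46569883) (nat_lit 9225173) [(nat_lit 511631), (nat_lit 1673478), (nat_lit 0), (nat_lit 9128645)]) (PF.cons (PF.leaf (nat_lit 5486157) (nat_lit 527364) (nat_lit 46038883) (nat_lit 9208173) [(nat_lit 527364), (nat_lit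
 1694613), (nat_lit 0), (nat_lit 9112413)]) (PF.cons (PF.leaf (nat_lit 5814401) (nat_lit 541266) (nat_lit 45490471) (nat_lit 9187819) [(nat_lit 541266), (nat_lit 1713865), (nat_lit 0), (nat_lit 9092856)]) (PF.cons (PF.leaf (nat_lit 6153729) (nat_lit 553618) (nat_lit 44929009) (nat_lit 9164116) [(nat_lit 553618), (nat_lit 1731238), (nat_lit 0), (nat_lit 9069974)]) (PF.cons (PF.leaf (nat_lit 6502165) (nat_lit 564625) (nat_lit 44357984) (nat_lit 9137112) [(nat_lit 564625), (nat_lit 1746777), (nat_lit 0), (nat_lit 9043811)]) (PF.cons (PF.leaf (nat_lit 6858089) (nat_lit 574445) (nat_lit 43780259) (nat_lit 9106889) [(nat_lit 574445), (nat_lit 1760547), (nat_lit 0), (nat_lit 9014446)]) (PF.cons PF.nil (PF.cons PF.nil PF.nil))))))))) (PF.cons (PF.cons (PF.leaf (nat_lit 5615254) (nat_lit 1703550) (nat_lit 45437700) (nat_lit 9179464) [(nat_lit 0), (nat_lit 1703550), (nat_lit 0), (nat_lit 9084546)]) (PF.cons (PF.leaf (nat_lit 5934876) (nat_lit 542752) (nat_lit 44904238) (nat_lit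 9156894) [(nat_lit 542752), (nat_lit 1721084), (nat_lit 0), (nat_lit 9062759)]) (PF.cons (PF.leaf (nat_lit 6266823) (nat_lit 554885) (nat_lit 44356361) (nat_lit 9131062) [(nat_lit 554885), (nat_lit 1736939), (nat_lit
 0), (nat_lit 9037737)]) (PF.cons (PF.leaf (nat_lit 6608539) (nat_lit 565641) (nat_lit 43798058) (nat_lit 9102041) [(nat_lit 565641), (nat_lit 1751121), (nat_lit 0), (nat_lit 9009547)]) (PF.cons (PF.leaf (nat_lit 6958179) (nat_lit 575196) (nat_lit 43232488) (nat_lit 9069926) [(nat_lit 575196), (nat_lit 1763666), (nat_lit 0), (nat_lit 8978281)]) (PF.cons (PF.leaf (nat_lit 7314214) (nat_lit 583686) (nat_lit 42662225) (nat_lit 9034836) [(nat_lit 583686), (nat_lit 1774632), (nat_lit 0), (nat_lit 8944054)]) (PF.cons PF.nil PF.nil))))))) (PF.cons (PF.cons (PF.leaf (nat_lit 6380997) (nat_lit 1741714) (nat_lit 43785078) (nat_lit 9095546) [(nat_lit 0), (nat_lit 1741714), (nat_lit 0), (nat_lit 9003046)]) (PF.cons (PF.leaf (nat_lit 6714995) (nat_lit 566148) (nat_lit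 43240949) (nat_lit 9064779) [(nat_lit 566148), (nat_lit 1754612), (nat_lit 0), (nat_lit 8973097)]) (PF.cons (PF.leaf (nat_lit 7057861) (nat_lit 575510) (nat_lit 42688593) (nat_lit 9031014) [(nat_lit 575510), (nat_lit 1766004), (nat_lit 0), (nat_lit 8940170)]) (PF.cons (PF.leaf (nat_lit 7407603) (nat_lit 583790) (nat_lit 42130884) (nat_lit 8994383) [(nat_lit 583790), (nat_lit 1775926), (nat_lit 0), (nat_lit 8904393)]) (PF.cons
 PF.nil PF.nil))))) (PF.cons (PF.cons (PF.leaf (nat_lit 7157999) (nat_lit 1767607) (nat_lit 42148010) (nat_lit 8990204) [(nat_lit 0), (nat_lit 1767607), (nat_lit 0), (nat_lit 8900166)]) (PF.cons (PF.leaf (nat_lit 7500721) (nat_lit 583506) (nat_lit 41603788) (nat_lit 8952261) [(nat_lit 583506), (nat_lit 1776547), (nat_lit 0), (nat_lit 8863065)]) (PF.cons (PF.leaf (nat_lit 7849651) (nat_lit 590659) (nat_lit 41055809) (nat_lit 8911689) [(nat_lit 590659), (nat_lit 1784161), (nat_lit 0), (nat_lit 8823348)]) (PF.cons PF.nil PF.nil)))) (PF.cons (PF.cons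 (PF.leaf (nat_lit 7936605) (nat_lit 1783311) (nat_lit 40545960) (nat_lit 8866926) [(nat_lit 0), (nat_lit 1783311), (nat_lit 0), (nat_lit 8779369)]) (PF.cons PF.nil PF.nil)) (PF.cons PF.nil (PF.cons PF.nil PF.nil)))))))) (PF.cons (PF.cons (PF.cons (PF.leaf (nat_lit 5420783) (nat_lit 3797837) (nat_lit 45122095) (nat_lit 9141718) [(nat_lit 0), (nat_lit 0), (nat_lit 3797837), (nat_lit 9047161)]) (PF.cons (PF.leaf (nat_lit 5719348) (nat_lit 523921) (nat_lit 44627716) (nat_lit 9120372) [(nat_lit 523921), (nat_lit 0), (nat_lit 3810249), (nat_lit 9026553)]) (PF.cons (PF.leaf (nat_lit 6033573) (nat_lit 538155) (nat_lit 44112964) (nat_lit 9095803)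
 [(nat_lit 538155), (nat_lit 0), (nat_lit 3820976), (nat_lit 9002757)]) (PF.cons (PF.leaf (nat_lit 6360036) (nat_lit 550593) (nat_lit 43583267) (nat_lit 9068086) [(nat_lit 550593), (nat_lit 0), (nat_lit 3829840), (nat_lit 8975839)]) (PF.cons (PF.leaf (nat_lit 6696392) (nat_lit 561531) (nat_lit 43042732) (nat_lit 9037313) [(nat_lit 561531), (nat_lit 0), (nat_lit 3836751), (nat_lit 8945888)]) (PF.cons (PF.leaf (nat_lit 7040767) (nat_lit 571185) (nat_lit 42494594) (nat_lit 9003595) [(nat_lit 571185), (nat_lit 0), (nat_lit 3841685), (nat_lit 8913009)]) (PF.cons (PF.leaf (nat_lit 7391610) (nat_lit 579716) (nat_lit 41941474) (nat_lit 8967058) [(nat_lit 579716), (nat_lit 0), (nat_lit 3844653), (nat_lit 8877325)]) (PF.cons PF.nil (PF.cons PF.nil PF.nil))))))))) (PF.cons (PF.cons (PF.leaf (nat_lit 6153995) (nat_lit 1719740) (nat_lit 43539366) (nat_lit 9059908) [(nat_lit 0), (nat_lit 1719740), (nat_lit 3822097), (nat_lit 8967700)]) (PF.cons (PF.leaf (nat_lit 6471646) (nat_lit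 550912) (nat_lit 43025248) (nat_lit 9030642) [(nat_lit 550912), (nat_lit 1733772), (nat_lit 3829018), (nat_lit 8939218)]) (PF.cons (PF.leaf (nat_lit 6800503) (nat_lit 561737) (nat_lit 42498799) (nat_lit 8998369)
 [(nat_lit 561737), (nat_lit 1746259), (nat_lit 3834157), (nat_lit 8907752)]) (PF.cons (PF.leaf (nat_lit 7138085) (nat_lit 571232) (nat_lit 41963758) (nat_lit 8963225) [(nat_lit 571232), (nat_lit 1757227), (nat_lit 3837467), (nat_lit 8873436)]) (PF.cons (PF.leaf (nat_lit 7482645) (nat_lit 579583) (nat_lit 41423048) (nat_lit 8925353) [(nat_lit 579583), (nat_lit 1766724), (nat_lit 3838947), (nat_lit 8836406)]) (PF.cons PF.nil (PF.cons PF.nil PF.nil))))))) (PF.cons (PF.cons (PF.leaf (nat_lit 6905923) (nat_lit 1748339) (nat_lit 41956847) (nat_lit 8957422) [(nat_lit 0), (nat_lit 1748339), (nat_lit 3830241), (nat_lit 8867621)]) (PF.cons (PF.leaf (nat_lit 7235756) (nat_lit 570830) (nat_lit 41436172) (nat_lit 8921102) [(nat_lit 570830), (nat_lit 1758271), (nat_lit 3832048),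 (nat_lit 8832114)]) (PF.cons (PF.leaf (nat_lit 7573552) (nat_lit 579067) (nat_lit 40908779) (nat_lit 8882113) [(nat_lit 579067), (nat_lit 1766838), (nat_lit 3832152), (nat_lit 8793955)]) (PF.cons (PF.leaf (nat_lit 7917403) (nat_lit 586273) (nat_lit 40377323) (nat_lit 8840621) [(nat_lit 586273), (nat_lit 1774084), (nat_lit 3830570), (nat_lit 8753306)]) (PF.cons PF.nil PF.nil))))) (PF.cons (PF.cons (PF.leaf (nat_lit
 7665169) (nat_lit 1766352) (nat_lit 40398072) (nat_lit 8837366) [(nat_lit 0), (nat_lit 1766352), (nat_lit 3824317), (nat_lit 8750000)]) (PF.cons (PF.leaf (nat_lit 8002065) (nat_lit 585278) (nat_lit 39879992) (nat_lit 8795037) [(nat_lit 585278), (nat_lit 1772808), (nat_lit 3821576), (nat_lit 8708500)]) (PF.cons PF.nil (PF.cons PF.nil PF.nil)))) (PF.cons (PF.cons (PF.leaf (nat_lit 8423302) (nat_lit 1775611) (nat_lit 38878931) (nat_lit 8702966) [(nat_lit 0), (nat_lit 1775611), (nat_lit 3806429), (nat_lit 8618037)]) (PF.cons PF.nil PF.nil)) (PF.cons PF.nil PF.nil))))))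 (PF.cons (PF.cons (PF.cons (PF.leaf (nat_lit 6671268) (nat_lit 3807150) (nat_lit 41738727) (nat_lit 8922655) [(nat_lit 0), (nat_lit 0), (nat_lit 3807150), (nat_lit 8833129)]) (PF.cons (PF.leaf (nat_lit 6985860) (nat_lit 556228) (nat_lit 41245703) (nat_lit 8888172) [(nat_lit 556228), (nat_lit 0), (nat_lit 3809641), (nat_lit 8799425)]) (PF.cons (PF.leaf (nat_lit 7310730) (nat_lit 565909) (nat_lit 40742061) (nat_lit 8850931) [(nat_lit 565909), (nat_lit 0), (nat_lit 3810507), (nat_lit 8762985)]) (PF.cons (PF.leaf (nat_lit 7643435) (nat_lit 574311) (nat_lit 40231296) (nat_lit 8811119) [(nat_lit 574311), (nat_lit 0), (nat_lit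
 3809735), (nat_lit 8723990)]) (PF.cons (PF.leaf (nat_lit 7982302) (nat_lit 581621) (nat_lit 39716111) (nat_lit 8768909) [(nat_lit 581621), (nat_lit 0), (nat_lit 3807347), (nat_lit 8682610)]) PF.nil))))) (PF.cons (PF.cons (PF.leaf (nat_lit 7407926) (nat_lit 1748173) (nat_lit 40229514) (nat_lit 8806057) [(nat_lit 0), (nat_lit 1748173), (nat_lit 3803078), (nat_lit 8718911)]) (PF.cons (PF.leaf (nat_lit 7732918) (nat_lit 573176) (nat_lit 39733004) (nat_lit 8765536) [(nat_lit 573176), (nat_lit 1755626), (nat_lit 3801139), (nat_lit 8679191)]) (PF.cons (PF.leaf (nat_lit 8065105) (nat_lit 580438) (nat_lit 39230974) (nat_lit 8722643) [(nat_lit 580438), (nat_lit 1761838), (nat_lit 3797681), (nat_lit 8637115)]) (PF.cons PF.nil PF.nil)))) (PF.cons (PF.cons (PF.leaf (nat_lit 8148840) (nat_lit 1759688) (nat_lit 38749472) (nat_lit 8675185) [(nat_lit 0), (nat_lit 1759688), (nat_lit 3787174), (nat_lit 8590429)]) (PF.cons (PF.leaf (nat_lit 8479547) (nat_lit 585153) (nat_lit 38257438)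 (nat_lit 8629655) [(nat_lit 585153), (nat_lit 1764081), (nat_lit 3781343), (nat_lit 8545713)]) PF.nil)) (PF.cons PF.nil (PF.cons PF.nil PF.nil))))) (PF.cons (PF.cons (PF.cons (PF.leaf (nat_lit 7887906) (nat_lit 3767112)
 (nat_lit 38600877) (nat_lit 8645574) [(nat_lit 0), (nat_lit 0), (nat_lit 3767112), (nat_lit 8561022)]) (PF.cons (PF.leaf (nat_lit 8207586) (nat_lit 573617) (nat_lit 38128585) (nat_lit 8601961) [(nat_lit 573617), (nat_lit 0), (nat_lit 3762151), (nat_lit 8518195)]) (PF.cons (PF.leaf (nat_lit 8533811) (nat_lit 580033) (nat_lit 37651724) (nat_lit 8556242) [(nat_lit 580033), (nat_lit 0), (nat_lit 3755834), (nat_lit 8473275)]) (PF.cons PF.nil PF.nil)))) (PF.cons (PF.cons (PF.leaf (nat_lit 8610285) (nat_lit 1748745) (nat_lit 37198348) (nat_lit 8507042) [(nat_lit 0), (nat_lit 1748745), (nat_lit 3743283), (nat_lit 8424826)]) (PF.cons PF.nil PF.nil)) (PF.cons PF.nil PF.nil))) (PF.cons (PF.cons (PF.cons (PF.leaf (nat_lit 9050844) (nat_lit 3694347) (nat_lit 35739999)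 (nat_lit 8335590) [(nat_lit 0), (nat_lit 0), (nat_lit 3694347), (nat_lit 8255832)]) (PF.cons PF.nil PF.nil)) (PF.cons PF.nil PF.nil)) (PF.cons PF.nil PF.nil)))))) (PF.cons (PF.cons (PF.cons (PF.cons (PF.leaf (nat_lit 6182796) (nat_lit 8683300) (nat_lit 40970428) (nat_lit 8771783) [(nat_lit 0), (nat_lit 0), (nat_lit 0), (nat_lit 8683300)]) (PF.cons (PF.leaf (nat_lit 6470000) (nat_lit 519253) (nat_lit 40536996) (nat_lit 8742700)
 [(nat_lit 519253), (nat_lit 0), (nat_lit 0), (nat_lit 8654931)]) (PF.cons (PF.leaf (nat_lit 6771408) (nat_lit 532026) (nat_lit 40086598) (nat_lit 8710737) [(nat_lit 532026), (nat_lit 0), (nat_lit 0), (nat_lit 8623711)]) (PF.cons (PF.leaf (nat_lit 7083757) (nat_lit 543023) (nat_lit 39623963) (nat_lit 8676099) [(nat_lit 543023), (nat_lit 0), (nat_lit 0), (nat_lit 8589839)]) (PF.cons (PF.leaf (nat_lit 7404809) (nat_lit 552560) (nat_lit 39152631) (nat_lit 8638963) [(nat_lit 552560), (nat_lit 0), (nat_lit 0), (nat_lit 8553486)]) (PF.cons (PF.leaf (nat_lit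 7732825) (nat_lit 560864) (nat_lit 38675360) (nat_lit 8599496) [(nat_lit 560864), (nat_lit 0), (nat_lit 0), (nat_lit 8514816)]) (PF.cons (PF.leaf (nat_lit 8066375) (nat_lit 568105) (nat_lit 38194357) (nat_lit 8557855) [(nat_lit 568105), (nat_lit 0), (nat_lit 0), (nat_lit 8473982)]) (PF.cons PF.nil (PF.cons PF.nil PF.nil))))))))) (PF.cons (PF.cons (PF.leaf (nat_lit 6877704) (nat_lit 1686528) (nat_lit 39589494) (nat_lit 8668415) [(nat_lit 0), (nat_lit 1686528), (nat_lit 0), (nat_lit 8582187)]) (PF.cons (PF.leaf (nat_lit 7181412) (nat_lit 542251) (nat_lit 39141029) (nat_lit 8633126) [(nat_lit 542251), (nat_lit 1697115), (nat_lit 0),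
 (nat_lit 8547645)]) (PF.cons (PF.leaf (nat_lit 7495184) (nat_lit 551764) (nat_lit 38682455) (nat_lit 8595326) [(nat_lit 551764), (nat_lit 1706278), (nat_lit 0), (nat_lit 8510612)]) (PF.cons (PF.leaf (nat_lit 7816663) (nat_lit 559994) (nat_lit 38216976) (nat_lit 8555213) [(nat_lit 559994), (nat_lit 1714073), (nat_lit 0), (nat_lit 8471282)]) (PF.cons (PF.leaf (nat_lit 8144224) (nat_lit 567135) (nat_lit 37747075) (nat_lit 8512967) [(nat_lit 567135), (nat_lit 1720568), (nat_lit 0), (nat_lit 8429830)]) (PF.cons PF.nil (PF.cons PF.nil PF.nil))))))) (PF.cons (PF.cons (PF.leaf (nat_lit 7587195) (nat_lit 1705719) (nat_lit 38214246) (nat_lit 8550340) [(nat_lit 0), (nat_lit 1705719), (nat_lit 0), (nat_lit 8466393)]) (PF.cons (PF.leaf (nat_lit 7901221) (nat_lit 558746) (nat_lit 37761581) (nat_lit 8509788) [(nat_lit 558746), (nat_lit 1712740), (nat_lit 0), (nat_lit 8426607)]) (PF.cons (PF.leaf (nat_lit 8222347) (nat_lit 565848) (nat_lit 37303497) (nat_lit 8467109) [(nat_lit 565848),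 (nat_lit 1718546), (nat_lit 0), (nat_lit 8384707)]) (PF.cons (PF.leaf (nat_lit 8548778) (nat_lit 571978) (nat_lit 36842241) (nat_lit 8422488) [(nat_lit 571978), (nat_lit 1723197), (nat_lit 0), (nat_lit 8340875)])
 (PF.cons PF.nil PF.nil))))) (PF.cons (PF.cons (PF.leaf (nat_lit 8301547) (nat_lit 1716086) (nat_lit 36863061) (nat_lit 8420273) [(nat_lit 0), (nat_lit 1716086), (nat_lit 0), (nat_lit 8338608)]) (PF.cons (PF.leaf (nat_lit 8621397) (nat_lit 570342) (nat_lit 36413542) (nat_lit 8375408) [(nat_lit 570342), (nat_lit 1720161), (nat_lit 0), (nat_lit 8294517)]) (PF.cons PF.nil (PF.cons PF.nil PF.nil)))) (PF.cons (PF.cons (PF.leaf (nat_lit 9013720) (nat_lit 1719309) (nat_lit 35547988) (nat_lit 8280796) [(nat_lit 0), (nat_lit 1719309), (nat_lit 0), (nat_lit 8201395)]) (PF.cons PF.nil PF.nil)) (PF.cons PF.nil PF.nil)))))) (PF.cons (PF.cons (PF.cons (PF.leaf (nat_lit 7351296) (nat_lit 3686492) (nat_lit 38036130) (nat_lit 8517866) [(nat_lit 0), (nat_lit 0), (nat_lit 3686492),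 (nat_lit 8434161)]) (PF.cons (PF.leaf (nat_lit 7651553) (nat_lit 544761) (nat_lit 37606979) (nat_lit 8479462) [(nat_lit 544761), (nat_lit 0), (nat_lit 3684627), (nat_lit 8396491)]) (PF.cons (PF.leaf (nat_lit 7961116) (nat_lit 553314) (nat_lit 37169001) (nat_lit 8438752) [(nat_lit 553314), (nat_lit 0), (nat_lit 3681363), (nat_lit 8356533)]) (PF.cons (PF.leaf (nat_lit 8277677) (nat_lit 560639) (nat_lit 36725187) (nat_lit
 8395963) [(nat_lit 560639), (nat_lit 0), (nat_lit 3676725), (nat_lit 8314508)]) (PF.cons (PF.leaf (nat_lit 8599687) (nat_lit 566930) (nat_lit 36277832) (nat_lit 8351286) [(nat_lit 566930), (nat_lit 0), (nat_lit 3670757), (nat_lit 8270606)]) PF.nil))))) (PF.cons (PF.cons (PF.leaf (nat_lit 8046146) (nat_lit 1699062) (nat_lit 36726512) (nat_lit 8391811) [(nat_lit 0), (nat_lit 1699062), (nat_lit 3670755), (nat_lit 8310335)]) (PF.cons (PF.leaf (nat_lit 8355354) (nat_lit 558861) (nat_lit 36295221) (nat_lit 8348887) [(nat_lit 558861), (nat_lit 1704178), (nat_lit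 3665343), (nat_lit 8268160)]) (PF.cons (PF.leaf (nat_lit 8671038) (nat_lit 565165) (nat_lit 35859374) (nat_lit 8304060) [(nat_lit 565165), (nat_lit 1708190), (nat_lit 3658669), (nat_lit 8224093)]) (PF.cons PF.nil PF.nil)))) (PF.cons (PF.cons (PF.leaf (nat_lit 8743661) (nat_lit 1704576) (nat_lit 35443999) (nat_lit 8256059) [(nat_lit 0), (nat_lit 1704576), (nat_lit 3645989), (nat_lit 8176805)]) (PF.cons (PF.leaf (nat_lit 9057673) (nat_lit 568504) (nat_lit 35017011) (nat_lit 8209528) [(nat_lit 568504), (nat_lit 1707090), (nat_lit 3637530), (nat_lit 8131027)]) PF.nil)) (PF.cons PF.nil (PF.cons PF.nil PF.nil))))) (PF.cons (PF.cons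
 (PF.cons (PF.leaf (nat_lit 8486187) (nat_lit 3627597) (nat_lit 35323442) (nat_lit 8229446) [(nat_lit 0), (nat_lit 0), (nat_lit 3627597), (nat_lit 8150364)]) (PF.cons (PF.leaf (nat_lit 8790281) (nat_lit 557598) (nat_lit 34913145) (nat_lit 8184874) [(nat_lit 557598), (nat_lit 0), (nat_lit 3620075), (nat_lit 8106521)]) (PF.cons (PF.leaf (nat_lit 9100349) (nat_lit 563207) (nat_lit 34498987) (nat_lit 8138599) [(nat_lit 563207), (nat_lit 0), (nat_lit 3611421), (nat_lit 8060984)]) (PF.cons PF.nil PF.nil)))) (PF.cons (PF.cons (PF.leaf (nat_lit 9166911) (nat_lit 1690162) (nat_lit 34107471) (nat_lit 8090034) [(nat_lit 0), (nat_lit 1690162), (nat_lit 3597464), (nat_lit 8013107)]) (PF.cons PF.nil PF.nil)) (PF.cons PF.nil PF.nil))) (PF.cons (PF.cons (PF.cons (PF.leaf (nat_lit 9572442) (nat_lit 3545964) (nat_lit 32848881) (nat_lit 7923802) [(nat_lit 0), (nat_lit 0), (nat_lit 3545964), (nat_lit 7849118)]) (PF.cons PF.nil PF.nil)) (PF.cons PF.nil PF.nil)) (PF.cons PF.nil PF.nil)))))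 (PF.cons (PF.cons (PF.cons (PF.cons (PF.leaf (nat_lit 7958248) (nat_lit 8039995) (nat_lit 34870463) (nat_lit 8118363) [(nat_lit 0), (nat_lit 0), (nat_lit 0), (nat_lit 8039995)]) (PF.cons (PF.leaf (nat_lit 8245217)
 (nat_lit 531054) (nat_lit 34495704) (nat_lit 8078779) [(nat_lit 531054), (nat_lit 0), (nat_lit 0), (nat_lit 8001091)]) (PF.cons (PF.leaf (nat_lit 8540756) (nat_lit 538727) (nat_lit 34113424) (nat_lit 8037227) [(nat_lit 538727), (nat_lit 0), (nat_lit 0), (nat_lit 7960235)]) (PF.cons (PF.leaf (nat_lit 8842649) (nat_lit 545227) (nat_lit 33726196) (nat_lit 7993947) [(nat_lit 545227), (nat_lit 0), (nat_lit 0), (nat_lit 7917661)]) (PF.cons PF.nil PF.nil))))) (PF.cons (PF.cons (PF.leaf (nat_lit 8616084) (nat_lit 1645745) (nat_lit 33729655) (nat_lit 7990584) [(nat_lit 0), (nat_lit 1645745), (nat_lit 0), (nat_lit 7914275)]) (PF.cons (PF.leaf (nat_lit 8910971) (nat_lit 543053) (nat_lit 33353334) (nat_lit 7947506) [(nat_lit 543053), (nat_lit 1649255), (nat_lit 0), (nat_lit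 7871887)]) (PF.cons (PF.leaf (nat_lit 9211803) (nat_lit 548630) (nat_lit 32973108) (nat_lit 7902856) [(nat_lit 548630), (nat_lit 1651773), (nat_lit 0), (nat_lit 7827937)]) (PF.cons PF.nil PF.nil)))) (PF.cons (PF.cons (PF.leaf (nat_lit 9275668) (nat_lit 1647310) (nat_lit 32612764) (nat_lit 7856057) [(nat_lit 0), (nat_lit 1647310), (nat_lit 0), (nat_lit 7781789)]) (PF.cons PF.nil PF.nil)) PF.nil))) (PF.cons (PF.cons (PF.cons
 (PF.leaf (nat_lit 9023107) (nat_lit 3487457) (nat_lit 32514183) (nat_lit 7832384) [(nat_lit 0), (nat_lit 0), (nat_lit 3487457), (nat_lit 7758262)]) (PF.cons (PF.leaf (nat_lit 9313162) (nat_lit 540740) (nat_lit 32155821) (nat_lit 7788526) [(nat_lit 540740), (nat_lit 0), (nat_lit 3478504), (nat_lit 7715073)]) (PF.cons PF.nil PF.nil))) (PF.cons (PF.cons (PF.leaf (nat_lit 9667491) (nat_lit 1631073) (nat_lit 31453862) (nat_lit 7696551) [(nat_lit 0), (nat_lit 1631073), (nat_lit 3454116), (nat_lit 7624402)]) PF.nil) PF.nil)) (PF.cons PF.nil PF.nil))) (PF.cons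 (PF.cons (PF.cons (PF.cons (PF.leaf (nat_lit 9511223) (nat_lit 7390086) (nat_lit 30088735) (nat_lit 7459732) [(nat_lit 0), (nat_lit 0), (nat_lit 0), (nat_lit 7390086)]) (PF.cons (PF.leaf (nat_lit 9788581) (nat_lit 523791) (nat_lit 29773852) (nat_lit 7417460) [(nat_lit 523791), (nat_lit 0), (nat_lit 0), (nat_lit 7348427)]) PF.nil)) (PF.cons PF.nil PF.nil)) (PF.cons PF.nil PF.nil)) (PF.cons PF.nil (PF.cons PF.nil (PF.cons PF.nil (PF.cons PF.nil PF.nil)))))))))

def p13_15_1_0 : pfC (piC [(nat_lit 36888796), (nat_lit 24534081), (nat_lit 18263511), (nat_lit 12310016)] (nat_lit 10936249)) p13_15_1 (nat_lit 4) (nat_lit 0) (nat_lit 1) = true := by decide +kernel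
def p13_15_1_1 : pfC (piC [(nat_lit 36888796), (nat_lit 24534081), (nat_lit 18263511), (nat_lit 12310016)] (nat_lit 10936249)) p13_15_1 (nat_lit 4) (nat_lit 1) (nat_lit 2) = true := by decide +kernel
def p13_15_1_2 : pfC (piC [(nat_lit 36888796), (nat_lit 24534081), (nat_lit 18263511), (nat_lit 12310016)] (nat_lit 10936249)) p13_15_1 (nat_lit 4) (nat_lit 2) (nat_lit 3) = true := by decide +kernel
def p13_15_1_3 : pfC (piC [(nat_lit 36888796), (nat_lit 24534081), (nat_lit 18263511), (nat_lit 12310016)] (nat_lit 10936249)) p13_15_1 (nat_lit 4) (nat_lit 3) (nat_lit 4) = true := by decide +kernel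
def p13_15_1_4 : pfC (piC [(nat_lit 36888796), (nat_lit 24534081), (nat_lit 18263511), (nat_lit 12310016)] (nat_lit 10936249)) p13_15_1 (nat_lit 4) (nat_lit 4) (nat_lit 5) = true := by decide +kernel
def p13_15_1_5 : pfC (piC [(nat_lit 36888796), (nat_lit 24534081), (nat_lit 18263511), (nat_lit 12310016)] (nat_lit 10936249)) p13_15_1 (nat_lit 4) (nat_lit 5) (nat_lit 6) = true := by decide +kernel
def p13_15_1_6 : pfC (piC [(nat_lit 36888796), (nat_lit 24534081), (nat_lit 18263511), (nat_lit 12310016)] (nat_lit 10936249)) p13_15_1 (nat_lit 4) (nat_lit 6) (nat_lit 7) = true := by decide +kernel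
def p13_15_1_7 : pfC (piC [(nat_lit 36888796), (nat_lit 24534081), (nat_lit 18263511), (nat_lit 12310016)] (nat_lit 10936249)) p13_15_1 (nat_lit 4) (nat_lit 7) (nat_lit 8) = true := by decide +kernel
def p13_15_1_8 : pfC (piC [(nat_lit 36888796), (nat_lit 24534081), (nat_lit 18263511), (nat_lit 12310016)] (nat_lit 10936249)) p13_15_1 (nat_lit 4) (nat_lit 8) (nat_lit 9) = true := by decide +kernel
def p13_15_1_9 : pfC (piC [(nat_lit 36888796), (nat_lit 24534081), (nat_lit 18263511), (nat_lit 12310016)] (nat_lit 10936249)) p13_15_1 (nat_lit 4) (nat_lit 9) (nat_lit 10) = true := by decide +kernel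
def p13_15_1_10 : pfC (piC [(nat_lit 36888796), (nat_lit 24534081), (nat_lit 18263511), (nat_lit 12310016)] (nat_lit 10936249)) p13_15_1 (nat_lit 4) (nat_lit 10) (nat_lit 11) = true := by decide +kernel
def p13_15_1_11 : pfC (piC [(nat_lit 36888796), (nat_lit 24534081), (nat_lit 18263511), (nat_lit 12310016)] (nat_lit 10936249)) p13_15_1 (nat_lit 4) (nat_lit 11) (nat_lit 12) = true := by decide +kernel
def p13_15_1_12 : pfC (piC [(nat_lit 36888796), (nat_lit 24534081), (nat_lit 18263511), (nat_lit 12310016)] (nat_lit 10936249)) p13_15_1 (nat_lit 4) (nat_lit 12) (nat_lit 13) = true := by decide +kernel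
def p13_15_1_13 : pfC (piC [(nat_lit 36888796), (nat_lit 24534081), (nat_lit 18263511), (nat_lit 12310016)] (nat_lit 10936249)) p13_15_1 (nat_lit 4) (nat_lit 13) (nat_lit 14) = true := by decide +kernel
def p13_15_1_14 : pfC (piC [(nat_lit 36888796), (nat_lit 24534081), (nat_lit 18263511), (nat_lit 12310016)] (nat_lit 10936249)) p13_15_1 (nat_lit 4) (nat_lit 14) (nat_lit 15) = true := by decide +kernel
def p13_15_1_15 : pfC (piC [(nat_lit 36888796), (nat_lit 24534081), (nat_lit 18263511), (nat_lit 12310016)] (nat_lit 10936249)) p13_15_1 (nat_lit 4) (nat_lit 15) (nat_lit 16) = true := by decide +kernel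
def p13_15_1_16 : pfC (piC [(nat_lit 36888796), (nat_lit 24534081), (nat_lit 18263511), (nat_lit 12310016)] (nat_lit 10936249)) p13_15_1 (nat_lit 4) (nat_lit 16) (nat_lit 17) = true := by decide +kernel
def p13_15_1_17 : pfC (piC [(nat_lit 36888796), (nat_lit 24534081), (nat_lit 18263511), (nat_lit 12310016)] (nat_lit 10936249)) p13_15_1 (nat_lit 4) (nat_lit 17) (nat_lit 18) = true := by decide +kernel
def p13_15_1_18 : pfC (piC [(nat_lit 36888796), (nat_lit 24534081), (nat_lit 18263511), (nat_lit 12310016)] (nat_lit 10936249)) p13_15_1 (nat_lit 4) (nat_lit 18) (nat_lit 19) = true := by decide +kernel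
def p13_15_1_19 : pfC (piC [(nat_lit 36888796), (nat_lit 24534081), (nat_lit 18263511), (nat_lit 12310016)] (nat_lit 10936249)) p13_15_1 (nat_lit 4) (nat_lit 19) (nat_lit 20) = true := by decide +kernel
def p13_15_1_20 : pfC (piC [(nat_lit 36888796), (nat_lit 24534081), (nat_lit 18263511), (nat_lit 12310016)] (nat_lit 10936249)) p13_15_1 (nat_lit 4) (nat_lit 20) (nat_lit 21) = true := by decide +kernel
def p13_15_1_21 : pfC (piC [(nat_lit 36888796), (nat_lit 24534081), (nat_lit 18263511), (nat_lit 12310016)] (nat_lit 10936249)) p13_15_1 (nat_lit 4) (nat_lit 21) (nat_lit 22) = true := by decide +kernel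
def p13_15_1_22 : pfC (piC [(nat_lit 36888796), (nat_lit 24534081), (nat_lit 18263511), (nat_lit 12310016)] (nat_lit 10936249)) p13_15_1 (nat_lit 4) (nat_lit 22) (nat_lit 23) = true := by decide +kernel
def p13_15_1_23 : pfC (piC [(nat_lit 36888796), (nat_lit 24534081), (nat_lit 18263511), (nat_lit 12310016)] (nat_lit 10936249)) p13_15_1 (nat_lit 4) (nat_lit 23) (nat_lit 24) = true := by decide +kernel
def p13_15_1_24 : pfC (piC [(nat_lit 36888796), (nat_lit 24534081), (nat_lit 18263511), (nat_lit 12310016)] (nat_lit 10936249)) p13_15_1 (nat_lit 4) (nat_lit 24) (nat_lit 25) = true := by decide +kernel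
def p13_15_1_25 : pfC (piC [(nat_lit 36888796), (nat_lit 24534081), (nat_lit 18263511), (nat_lit 12310016)] (nat_lit 10936249)) p13_15_1 (nat_lit 4) (nat_lit 25) (nat_lit 26) = true := by decide +kernel
def p13_15_1_26 : pfC (piC [(nat_lit 36888796), (nat_lit 24534081), (nat_lit 18263511), (nat_lit 12310016)] (nat_lit 10936249)) p13_15_1 (nat_lit 4) (nat_lit 26) (nat_lit 27) = true := by decide +kernel
def p13_15_1_27 : pfC (piC [(nat_lit 36888796), (nat_lit 24534081), (nat_lit 18263511), (nat_lit 12310016)] (nat_lit 10936249)) p13_15_1 (nat_lit 4) (nat_lit 27) (nat_lit 28) = true := by decide +kernel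
def p13_15_1_28 : pfC (piC [(nat_lit 36888796), (nat_lit 24534081), (nat_lit 18263511), (nat_lit 12310016)] (nat_lit 10936249)) p13_15_1 (nat_lit 4) (nat_lit 28) (nat_lit 29) = true := by decide +kernel
def p13_15_1_29 : pfC (piC [(nat_lit 36888796), (nat_lit 24534081), (nat_lit 18263511), (nat_lit 12310016)] (nat_lit 10936249)) p13_15_1 (nat_lit 4) (nat_lit 29) (nat_lit 30) = true := by decide +kernel
def p13_15_1_30 : pfC (piC [(nat_lit 36888796), (nat_lit 24534081), (nat_lit 18263511), (nat_lit 12310016)] (nat_lit 10936249)) p13_15_1 (nat_lit 4) (nat_lit 30) (nat_lit 31) = true := by decide +kernel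
def p13_15_1_31 : pfC (piC [(nat_lit 36888796), (nat_lit 24534081), (nat_lit 18263511), (nat_lit 12310016)] (nat_lit 10936249)) p13_15_1 (nat_lit 4) (nat_lit 31) (nat_lit 32) = true := by decide +kernel
def p13_15_1_32 : pfC (piC [(nat_lit 36888796), (nat_lit 24534081), (nat_lit 18263511), (nat_lit 12310016)] (nat_lit 10936249)) p13_15_1 (nat_lit 4) (nat_lit 32) (nat_lit 33) = true := by decide +kernel
def p13_15_1_33 : pfC (piC [(nat_lit 36888796), (nat_lit 24534081), (nat_lit 18263511), (nat_lit 12310016)] (nat_lit 10936249)) p13_15_1 (nat_lit 4) (nat_lit 33) (nat_lit 34) = true := by decide +kernel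
def p13_15_1_34 : pfC (piC [(nat_lit 36888796), (nat_lit 24534081), (nat_lit 18263511), (nat_lit 12310016)] (nat_lit 10936249)) p13_15_1 (nat_lit 4) (nat_lit 34) (nat_lit 35) = true := by decide +kernel
def p13_15_1_35 : pfC (piC [(nat_lit 36888796), (nat_lit 24534081), (nat_lit 18263511), (nat_lit 12310016)] (nat_lit 10936249)) p13_15_1 (nat_lit 4) (nat_lit 35) (nat_lit 36) = true := by decide +kernel
def p13_15_1_36 : pfC (piC [(nat_lit 36888796), (nat_lit 24534081), (nat_lit 18263511), (nat_lit 12310016)] (nat_lit 10936249)) p13_15_1 (nat_lit 4) (nat_lit 36) (nat_lit 37) = true := by decide +kernel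
def p13_15_1_37 : pfC (piC [(nat_lit 36888796), (nat_lit 24534081), (nat_lit 18263511), (nat_lit 12310016)] (nat_lit 10936249)) p13_15_1 (nat_lit 4) (nat_lit 37) (nat_lit 38) = true := by decide +kernel
def p13_15_1_38 : pfC (piC [(nat_lit 36888796), (nat_lit 24534081), (nat_lit 18263511), (nat_lit 12310016)] (nat_lit 10936249)) p13_15_1 (nat_lit 4) (nat_lit 38) (nat_lit 39) = true := by decide +kernel
def p13_15_1_39 : pfC (piC [(nat_lit 36888796), (nat_lit 24534081), (nat_lit 18263511), (nat_lit 12310016)] (nat_lit 10936249)) p13_15_1 (nat_lit 4) (nat_lit 39) (nat_lit 40) = true := by decide +kernel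
def p13_15_1_40 : pfC (piC [(nat_lit 36888796), (nat_lit 24534081), (nat_lit 18263511), (nat_lit 12310016)] (nat_lit 10936249)) p13_15_1 (nat_lit 4) (nat_lit 40) (nat_lit 41) = true := by decide +kernel
def p13_15_1_41 : pfC (piC [(nat_lit 36888796), (nat_lit 24534081), (nat_lit 18263511), (nat_lit 12310016)] (nat_lit 10936249)) p13_15_1 (nat_lit 4) (nat_lit 41) (nat_lit 42) = true := by decide +kernel
def p13_15_1_42 : pfC (piC [(nat_lit 36888796), (nat_lit 24534081), (nat_lit 18263511), (nat_lit 12310016)] (nat_lit 10936249)) p13_15_1 (nat_lit 4) (nat_lit 42) (nat_lit 43) = true := by decide +kernel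
def p13_15_1_43 : pfC (piC [(nat_lit 36888796), (nat_lit 24534081), (nat_lit 18263511), (nat_lit 12310016)] (nat_lit 10936249)) p13_15_1 (nat_lit 4) (nat_lit 43) (nat_lit 44) = true := by decide +kernel
def p13_15_1_44 : pfC (piC [(nat_lit 36888796), (nat_lit 24534081), (nat_lit 18263511), (nat_lit 12310016)] (nat_lit 10936249)) p13_15_1 (nat_lit 4) (nat_lit 44) (nat_lit 45) = true := by decide +kernel
def p13_15_1_45 : pfC (piC [(nat_lit 36888796), (nat_lit 24534081), (nat_lit 18263511), (nat_lit 12310016)] (nat_lit 10936249)) p13_15_1 (nat_lit 4) (nat_lit 45) (nat_lit 46) = true := by decide +kernel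
def p13_15_1_46 : pfC (piC [(nat_lit 36888796), (nat_lit 24534081), (nat_lit 18263511), (nat_lit 12310016)] (nat_lit 10936249)) p13_15_1 (nat_lit 4) (nat_lit 46) (nat_lit 47) = true := by decide +kernel
def p13_15_1_47 : pfC (piC [(nat_lit 36888796), (nat_lit 24534081), (nat_lit 18263511), (nat_lit 12310016)] (nat_lit 10936249)) p13_15_1 (nat_lit 4) (nat_lit 47) (nat_lit 48) = true := by decide +kernel
def p13_15_1_48 : pfC (piC [(nat_lit 36888796), (nat_lit 24534081), (nat_lit 18263511), (nat_lit 12310016)] (nat_lit 10936249)) p13_15_1 (nat_lit 4) (nat_lit 48) (nat_lit 49) = true := by decide +kernel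
def p13_15_1_49 : pfC (piC [(nat_lit 36888796), (nat_lit 24534081), (nat_lit 18263511), (nat_lit 12310016)] (nat_lit 10936249)) p13_15_1 (nat_lit 4) (nat_lit 49) (nat_lit 50) = true := by decide +kernel
def p13_15_1_50 : pfC (piC [(nat_lit 36888796), (nat_lit 24534081), (nat_lit 18263511), (nat_lit 12310016)] (nat_lit 10936249)) p13_15_1 (nat_lit 4) (nat_lit 50) (nat_lit 51) = true := by decide +kernel
def p13_15_1_51 : pfC (piC [(nat_lit 36888796), (nat_lit 24534081), (nat_lit 18263511), (nat_lit 12310016)] (nat_lit 10936249)) p13_15_1 (nat_lit 4) (nat_lit 51) (nat_lit 52) = true := by decide +kernel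
def p13_15_1_52 : pfC (piC [(nat_lit 36888796), (nat_lit 24534081), (nat_lit 18263511), (nat_lit 12310016)] (nat_lit 10936249)) p13_15_1 (nat_lit 4) (nat_lit 52) (nat_lit 53) = true := by decide +kernel
def p13_15_1_53 : pfC (piC [(nat_lit 36888796), (nat_lit 24534081), (nat_lit 18263511), (nat_lit 12310016)] (nat_lit 10936249)) p13_15_1 (nat_lit 4) (nat_lit 53) (nat_lit 54) = true := by decide +kernel
def p13_15_1_54 : pfC (piC [(nat_lit 36888796), (nat_lit 24534081), (nat_lit 18263511), (nat_lit 12310016)] (nat_lit 10936249)) p13_15_1 (nat_lit 4) (nat_lit 54) (nat_lit 55) = true := by decide +kernel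
def p13_15_1_55 : pfC (piC [(nat_lit 36888796), (nat_lit 24534081), (nat_lit 18263511), (nat_lit 12310016)] (nat_lit 10936249)) p13_15_1 (nat_lit 4) (nat_lit 55) (nat_lit 56) = true := by decide +kernel
def p13_15_1_56 : pfC (piC [(nat_lit 36888796), (nat_lit 24534081), (nat_lit 18263511), (nat_lit 12310016)] (nat_lit 10936249)) p13_15_1 (nat_lit 4) (nat_lit 56) (nat_lit 57) = true := by decide +kernel
def p13_15_1_57 : pfC (piC [(nat_lit 36888796), (nat_lit 24534081), (nat_lit 18263511), (nat_lit 12310016)] (nat_lit 10936249)) p13_15_1 (nat_lit 4) (nat_lit 57) (nat_lit 58) = true := by decide +kernel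
def p13_15_1_58 : pfC (piC [(nat_lit 36888796), (nat_lit 24534081), (nat_lit 18263511), (nat_lit 12310016)] (nat_lit 10936249)) p13_15_1 (nat_lit 4) (nat_lit 58) (nat_lit 59) = true := by decide +kernel
def p13_15_1_59 : pfC (piC [(nat_lit 36888796), (nat_lit 24534081), (nat_lit 18263511), (nat_lit 12310016)] (nat_lit 10936249)) p13_15_1 (nat_lit 4) (nat_lit 59) (nat_lit 60) = true := by decide +kernel
def p13_15_1_60 : pfC (piC [(nat_lit 36888796), (nat_lit 24534081), (nat_lit 18263511), (nat_lit 12310016)] (nat_lit 10936249)) p13_15_1 (nat_lit 4) (nat_lit 60) (nat_lit 61) = true := by decide +kernel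
def p13_15_1_61 : pfC (piC [(nat_lit 36888796), (nat_lit 24534081), (nat_lit 18263511), (nat_lit 12310016)] (nat_lit 10936249)) p13_15_1 (nat_lit 4) (nat_lit 61) (nat_lit 62) = true := by decide +kernel
def p13_15_1_62 : pfC (piC [(nat_lit 36888796), (nat_lit 24534081), (nat_lit 18263511), (nat_lit 12310016)] (nat_lit 10936249)) p13_15_1 (nat_lit 4) (nat_lit 62) (nat_lit 63) = true := by decide +kernel
def p13_15_1_63 : pfC (piC [(nat_lit 36888796), (nat_lit 24534081), (nat_lit 18263511), (nat_lit 12310016)] (nat_lit 10936249)) p13_15_1 (nat_lit 4) (nat_lit 63) (nat_lit 64) = true := by decide +kernel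
def p13_15_1_64 : pfC (piC [(nat_lit 36888796), (nat_lit 24534081), (nat_lit 18263511), (nat_lit 12310016)] (nat_lit 10936249)) p13_15_1 (nat_lit 4) (nat_lit 64) (nat_lit 65) = true := by decide +kernel
def p13_15_1_65 : pfC (piC [(nat_lit 36888796), (nat_lit 24534081), (nat_lit 18263511), (nat_lit 12310016)] (nat_lit 10936249)) p13_15_1 (nat_lit 4) (nat_lit 65) (nat_lit 66) = true := by decide +kernel
def p13_15_1_66 : pfC (piC [(nat_lit 36888796), (nat_lit 24534081), (nat_lit 18263511), (nat_lit 12310016)] (nat_lit 10936249)) p13_15_1 (nat_lit 4) (nat_lit 66) (nat_lit 67) = true := by decide +kernel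
def p13_15_1_67 : pfC (piC [(nat_lit 36888796), (nat_lit 24534081), (nat_lit 18263511), (nat_lit 12310016)] (nat_lit 10936249)) p13_15_1 (nat_lit 4) (nat_lit 67) (nat_lit 68) = true := by decide +kernel
def p13_15_1_68 : pfC (piC [(nat_lit 36888796), (nat_lit 24534081), (nat_lit 18263511), (nat_lit 12310016)] (nat_lit 10936249)) p13_15_1 (nat_lit 4) (nat_lit 68) (nat_lit 69) = true := by decide +kernel
def p13_15_1_69 : pfC (piC [(nat_lit 36888796), (nat_lit 24534081), (nat_lit 18263511), (nat_lit 12310016)] (nat_lit 10936249)) p13_15_1 (nat_lit 4) (nat_lit 69) (nat_lit 70) = true := by decide +kernel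
def p13_15_1_70 : pfC (piC [(nat_lit 36888796), (nat_lit 24534081), (nat_lit 18263511), (nat_lit 12310016)] (nat_lit 10936249)) p13_15_1 (nat_lit 4) (nat_lit 70) (nat_lit 71) = true := by decide +kernel
def p13_15_1_71 : pfC (piC [(nat_lit 36888796), (nat_lit 24534081), (nat_lit 18263511), (nat_lit 12310016)] (nat_lit 10936249)) p13_15_1 (nat_lit 4) (nat_lit 71) (nat_lit 72) = true := by decide +kernel
def p13_15_1_72 : pfC (piC [(nat_lit 36888796), (nat_lit 24534081), (nat_lit 18263511), (nat_lit 12310016)] (nat_lit 10936249)) p13_15_1 (nat_lit 4) (nat_lit 72) (nat_lit 73) = true := by decide +kernel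
def p13_15_1_73 : pfC (piC [(nat_lit 36888796), (nat_lit 24534081), (nat_lit 18263511), (nat_lit 12310016)] (nat_lit 10936249)) p13_15_1 (nat_lit 4) (nat_lit 73) (nat_lit 74) = true := by decide +kernel
def p13_15_1_74 : pfC (piC [(nat_lit 36888796), (nat_lit 24534081), (nat_lit 18263511), (nat_lit 12310016)] (nat_lit 10936249)) p13_15_1 (nat_lit 4) (nat_lit 74) (nat_lit 75) = true := by decide +kernel
def p13_15_1_75 : pfC (piC [(nat_lit 36888796), (nat_lit 24534081), (nat_lit 18263511), (nat_lit 12310016)] (nat_lit 10936249)) p13_15_1 (nat_lit 4) (nat_lit 75) (nat_lit 76) = true := by decide +kernel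
def p13_15_1_76 : pfC (piC [(nat_lit 36888796), (nat_lit 24534081), (nat_lit 18263511), (nat_lit 12310016)] (nat_lit 10936249)) p13_15_1 (nat_lit 4) (nat_lit 76) (nat_lit 77) = true := by decide +kernel
def p13_15_1_77 : pfC (piC [(nat_lit 36888796), (nat_lit 24534081), (nat_lit 18263511), (nat_lit 12310016)] (nat_lit 10936249)) p13_15_1 (nat_lit 4) (nat_lit 77) (nat_lit 78) = true := by decide +kernel
def p13_15_1_78 : pfC (piC [(nat_lit 36888796), (nat_lit 24534081), (nat_lit 18263511), (nat_lit 12310016)] (nat_lit 10936249)) p13_15_1 (nat_lit 4) (nat_lit 78) (nat_lit 79) = true := by decide +kernel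
def p13_15_1_79 : pfC (piC [(nat_lit 36888796), (nat_lit 24534081), (nat_lit 18263511), (nat_lit 12310016)] (nat_lit 10936249)) p13_15_1 (nat_lit 4) (nat_lit 79) (nat_lit 80) = true := by decide +kernel
def p13_15_1_80 : pfC (piC [(nat_lit 36888796), (nat_lit 24534081), (nat_lit 18263511), (nat_lit 12310016)] (nat_lit 10936249)) p13_15_1 (nat_lit 4) (nat_lit 80) (nat_lit 81) = true := by decide +kernel
def p13_15_1_81 : pfC (piC [(nat_lit 36888796), (nat_lit 24534081), (nat_lit 18263511), (nat_lit 12310016)] (nat_lit 10936249)) p13_15_1 (nat_lit 4) (nat_lit 81) (nat_lit 82) = true := by decide +kernel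
def p13_15_1_82 : pfC (piC [(nat_lit 36888796), (nat_lit 24534081), (nat_lit 18263511), (nat_lit 12310016)] (nat_lit 10936249)) p13_15_1 (nat_lit 4) (nat_lit 82) (nat_lit 83) = true := by decide +kernel
def p13_15_1_83 : pfC (piC [(nat_lit 36888796), (nat_lit 24534081), (nat_lit 18263511), (nat_lit 12310016)] (nat_lit 10936249)) p13_15_1 (nat_lit 4) (nat_lit 83) (nat_lit 84) = true := by decide +kernel
def p13_15_1_84 : pfC (piC [(nat_lit 36888796), (nat_lit 24534081), (nat_lit 18263511), (nat_lit 12310016)] (nat_lit 10936249)) p13_15_1 (nat_lit 4) (nat_lit 84) (nat_lit 85) = true := by decide +kernel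
def p13_15_1_85 : pfC (piC [(nat_lit 36888796), (nat_lit 24534081), (nat_lit 18263511), (nat_lit 12310016)] (nat_lit 10936249)) p13_15_1 (nat_lit 4) (nat_lit 85) (nat_lit 86) = true := by decide +kernel
def p13_15_1_86 : pfC (piC [(nat_lit 36888796), (nat_lit 24534081), (nat_lit 18263511), (nat_lit 12310016)] (nat_lit 10936249)) p13_15_1 (nat_lit 4) (nat_lit 86) (nat_lit 87) = true := by decide +kernel
def p13_15_1_87 : pfC (piC [(nat_lit 36888796), (nat_lit 24534081), (nat_lit 18263511), (nat_lit 12310016)] (nat_lit 10936249)) p13_15_1 (nat_lit 4) (nat_lit 87) (nat_lit 88) = true := by decide +kernel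
def p13_15_1_88 : pfC (piC [(nat_lit 36888796), (nat_lit 24534081), (nat_lit 18263511), (nat_lit 12310016)] (nat_lit 10936249)) p13_15_1 (nat_lit 4) (nat_lit 88) (nat_lit 89) = true := by decide +kernel
def p13_15_1_89 : pfC (piC [(nat_lit 36888796), (nat_lit 24534081), (nat_lit 18263511), (nat_lit 12310016)] (nat_lit 10936249)) p13_15_1 (nat_lit 4) (nat_lit 89) (nat_lit 90) = true := by decide +kernel
def p13_15_1_90 : pfC (piC [(nat_lit 36888796), (nat_lit 24534081), (nat_lit 18263511), (nat_lit 12310016)] (nat_lit 10936249)) p13_15_1 (nat_lit 4) (nat_lit 90) (nat_lit 91) = true := by decide +kernel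
def p13_15_1_91 : pfC (piC [(nat_lit 36888796), (nat_lit 24534081), (nat_lit 18263511), (nat_lit 12310016)] (nat_lit 10936249)) p13_15_1 (nat_lit 4) (nat_lit 91) (nat_lit 92) = true := by decide +kernel
def p13_15_1_92 : pfC (piC [(nat_lit 36888796), (nat_lit 24534081), (nat_lit 18263511), (nat_lit 12310016)] (nat_lit 10936249)) p13_15_1 (nat_lit 4) (nat_lit 92) (nat_lit 93) = true := by decide +kernel
def p13_15_1_93 : pfC (piC [(nat_lit 36888796), (nat_lit 24534081), (nat_lit 18263511), (nat_lit 12310016)] (nat_lit 10936249)) p13_15_1 (nat_lit 4) (nat_lit 93) (nat_lit 94) = true := by decide +kernel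
def p13_15_1_94 : pfC (piC [(nat_lit 36888796), (nat_lit 24534081), (nat_lit 18263511), (nat_lit 12310016)] (nat_lit 10936249)) p13_15_1 (nat_lit 4) (nat_lit 94) (nat_lit 95) = true := by decide +kernel
def p13_15_1_95 : pfC (piC [(nat_lit 36888796), (nat_lit 24534081), (nat_lit 18263511), (nat_lit 12310016)] (nat_lit 10936249)) p13_15_1 (nat_lit 4) (nat_lit 95) (nat_lit 96) = true := by decide +kernel
def p13_15_1_96 : pfC (piC [(nat_lit 36888796), (nat_lit 24534081), (nat_lit 18263511), (nat_lit 12310016)] (nat_lit 10936249)) p13_15_1 (nat_lit 4) (nat_lit 96) (nat_lit 97) = true := by decide +kernel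
def p13_15_1_97 : pfC (piC [(nat_lit 36888796), (nat_lit 24534081), (nat_lit 18263511), (nat_lit 12310016)] (nat_lit 10936249)) p13_15_1 (nat_lit 4) (nat_lit 97) (nat_lit 98) = true := by decide +kernel
def p13_15_1_98 : pfC (piC [(nat_lit 36888796), (nat_lit 24534081), (nat_lit 18263511), (nat_lit 12310016)] (nat_lit 10936249)) p13_15_1 (nat_lit 4) (nat_lit 98) (nat_lit 99) = true := by decide +kernel
def p13_15_1_99 : pfC (piC [(nat_lit 36888796), (nat_lit 24534081), (nat_lit 18263511), (nat_lit 12310016)] (nat_lit 10936249)) p13_15_1 (nat_lit 4) (nat_lit 99) (nat_lit 100) = true := by decide +kernel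
def p13_15_1_100 : pfC (piC [(nat_lit 36888796), (nat_lit 24534081), (nat_lit 18263511), (nat_lit 12310016)] (nat_lit 10936249)) p13_15_1 (nat_lit 4) (nat_lit 100) (nat_lit 101) = true := by decide +kernel
def p13_15_1_101 : pfC (piC [(nat_lit 36888796), (nat_lit 24534081), (nat_lit 18263511), (nat_lit 12310016)] (nat_lit 10936249)) p13_15_1 (nat_lit 4) (nat_lit 101) (nat_lit 102) = true := by decide +kernel
def p13_15_1_102 : pfC (piC [(nat_lit 36888796), (nat_lit 24534081), (nat_lit 18263511), (nat_lit 12310016)] (nat_lit 10936249)) p13_15_1 (nat_lit 4) (nat_lit 102) (nat_lit 103) = true := by decide +kernel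
def p13_15_1_103 : pfC (piC [(nat_lit 36888796), (nat_lit 24534081), (nat_lit 18263511), (nat_lit 12310016)] (nat_lit 10936249)) p13_15_1 (nat_lit 4) (nat_lit 103) (nat_lit 104) = true := by decide +kernel
def p13_15_1_104 : pfC (piC [(nat_lit 36888796), (nat_lit 24534081), (nat_lit 18263511), (nat_lit 12310016)] (nat_lit 10936249)) p13_15_1 (nat_lit 4) (nat_lit 104) (nat_lit 105) = true := by decide +kernel
def p13_15_1_105 : pfC (piC [(nat_lit 36888796), (nat_lit 24534081), (nat_lit 18263511), (nat_lit 12310016)] (nat_lit 10936249)) p13_15_1 (nat_lit 4) (nat_lit 105) (nat_lit 106) = true := by decide +kernel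
def p13_15_1_106 : pfC (piC [(nat_lit 36888796), (nat_lit 24534081), (nat_lit 18263511), (nat_lit 12310016)] (nat_lit 10936249)) p13_15_1 (nat_lit 4) (nat_lit 106) (nat_lit 107) = true := by decide +kernel
def p13_15_1_107 : pfC (piC [(nat_lit 36888796), (nat_lit 24534081), (nat_lit 18263511), (nat_lit 12310016)] (nat_lit 10936249)) p13_15_1 (nat_lit 4) (nat_lit 107) (nat_lit 108) = true := by decide +kernel
def p13_15_1_108 : pfC (piC [(nat_lit 36888796), (nat_lit 24534081), (nat_lit 18263511), (nat_lit 12310016)] (nat_lit 10936249)) p13_15_1 (nat_lit 4) (nat_lit 108) (nat_lit 109) = true := by decide +kernel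
def p13_15_1_109 : pfC (piC [(nat_lit 36888796), (nat_lit 24534081), (nat_lit 18263511), (nat_lit 12310016)] (nat_lit 10936249)) p13_15_1 (nat_lit 4) (nat_lit 109) (nat_lit 110) = true := by decide +kernel
def p13_15_1_110 : pfC (piC [(nat_lit 36888796), (nat_lit 24534081), (nat_lit 18263511), (nat_lit 12310016)] (nat_lit 10936249)) p13_15_1 (nat_lit 4) (nat_lit 110) (nat_lit 111) = true := by decide +kernel
def p13_15_1_111 : pfC (piC [(nat_lit 36888796), (nat_lit 24534081), (nat_lit 18263511), (nat_lit 12310016)] (nat_lit 10936249)) p13_15_1 (nat_lit 4) (nat_lit 111) (nat_lit 112) = true := by decide +kernel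
def p13_15_1_112 : pfC (piC [(nat_lit 36888796), (nat_lit 24534081), (nat_lit 18263511), (nat_lit 12310016)] (nat_lit 10936249)) p13_15_1 (nat_lit 4) (nat_lit 112) (nat_lit 113) = true := by decide +kernel
def p13_15_1_113 : pfC (piC [(nat_lit 36888796), (nat_lit 24534081), (nat_lit 18263511), (nat_lit 12310016)] (nat_lit 10936249)) p13_15_1 (nat_lit 4) (nat_lit 113) (nat_lit 114) = true := by decide +kernel
def p13_15_1_114 : pfC (piC [(nat_lit 36888796), (nat_lit 24534081), (nat_lit 18263511), (nat_lit 12310016)] (nat_lit 10936249)) p13_15_1 (nat_lit 4) (nat_lit 114) (nat_lit 115) = true := by decide +kernel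
def p13_15_1_115 : pfC (piC [(nat_lit 36888796), (nat_lit 24534081), (nat_lit 18263511), (nat_lit 12310016)] (nat_lit 10936249)) p13_15_1 (nat_lit 4) (nat_lit 115) (nat_lit 116) = true := by decide +kernel
def p13_15_1_116 : pfC (piC [(nat_lit 36888796), (nat_lit 24534081), (nat_lit 18263511), (nat_lit 12310016)] (nat_lit 10936249)) p13_15_1 (nat_lit 4) (nat_lit 116) (nat_lit 117) = true := by decide +kernel
def p13_15_1_117 : pfC (piC [(nat_lit 36888796), (nat_lit 24534081), (nat_lit 18263511), (nat_lit 12310016)] (nat_lit 10936249)) p13_15_1 (nat_lit 4) (nat_lit 117) (nat_lit 118) = true := by decide +kernel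
def p13_15_1_118 : pfC (piC [(nat_lit 36888796), (nat_lit 24534081), (nat_lit 18263511), (nat_lit 12310016)] (nat_lit 10936249)) p13_15_1 (nat_lit 4) (nat_lit 118) (nat_lit 119) = true := by decide +kernel
def p13_15_1_119 : pfC (piC [(nat_lit 36888796), (nat_lit 24534081), (nat_lit 18263511), (nat_lit 12310016)] (nat_lit 10936249)) p13_15_1 (nat_lit 4) (nat_lit 119) (nat_lit 120) = true := by decide +kernel
def p13_15_1_120 : pfC (piC [(nat_lit 36888796), (nat_lit 24534081), (nat_lit 18263511), (nat_lit 12310016)] (nat_lit 10936249)) p13_15_1 (nat_lit 4) (nat_lit 120) (nat_lit 121) = true := by decide +kernel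
def p13_15_1_121 : pfC (piC [(nat_lit 36888796), (nat_lit 24534081), (nat_lit 18263511), (nat_lit 12310016)] (nat_lit 10936249)) p13_15_1 (nat_lit 4) (nat_lit 121) (nat_lit 122) = true := by decide +kernel
def p13_15_1_122 : pfC (piC [(nat_lit 36888796), (nat_lit 24534081), (nat_lit 18263511), (nat_lit 12310016)] (nat_lit 10936249)) p13_15_1 (nat_lit 4) (nat_lit 122) (nat_lit 123) = true := by decide +kernel
def p13_15_1_123 : pfC (piC [(nat_lit 36888796), (nat_lit 24534081), (nat_lit 18263511), (nat_lit 12310016)] (nat_lit 10936249)) p13_15_1 (nat_lit 4) (nat_lit 123) (nat_lit 124) = true := by decide +kernel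
def p13_15_1_124 : pfC (piC [(nat_lit 36888796), (nat_lit 24534081), (nat_lit 18263511), (nat_lit 12310016)] (nat_lit 10936249)) p13_15_1 (nat_lit 4) (nat_lit 124) (nat_lit 125) = true := by decide +kernel
def p13_15_1_125 : pfC (piC [(nat_lit 36888796), (nat_lit 24534081), (nat_lit 18263511), (nat_lit 12310016)] (nat_lit 10936249)) p13_15_1 (nat_lit 4) (nat_lit 125) (nat_lit 126) = true := by decide +kernel
def p13_15_1_126 : pfC (piC [(nat_lit 36888796), (nat_lit 24534081), (nat_lit 18263511), (nat_lit 12310016)] (nat_lit 10936249)) p13_15_1 (nat_lit 4) (nat_lit 126) (nat_lit 127) = true := by decide +kernel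
def p13_15_1_127 : pfC (piC [(nat_lit 36888796), (nat_lit 24534081), (nat_lit 18263511), (nat_lit 12310016)] (nat_lit 10936249)) p13_15_1 (nat_lit 4) (nat_lit 127) (nat_lit 128) = true := by decide +kernel
def p13_15_1_128 : pfC (piC [(nat_lit 36888796), (nat_lit 24534081), (nat_lit 18263511), (nat_lit 12310016)] (nat_lit 10936249)) p13_15_1 (nat_lit 4) (nat_lit 128) (nat_lit 129) = true := by decide +kernel
def p13_15_1_129 : pfC (piC [(nat_lit 36888796), (nat_lit 24534081), (nat_lit 18263511), (nat_lit 12310016)] (nat_lit 10936249)) p13_15_1 (nat_lit 4) (nat_lit 129) (nat_lit 130) = true := by decide +kernel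
def p13_15_1_130 : pfC (piC [(nat_lit 36888796), (nat_lit 24534081), (nat_lit 18263511), (nat_lit 12310016)] (nat_lit 10936249)) p13_15_1 (nat_lit 4) (nat_lit 130) (nat_lit 131) = true := by decide +kernel
def p13_15_1_131 : pfC (piC [(nat_lit 36888796), (nat_lit 24534081), (nat_lit 18263511), (nat_lit 12310016)] (nat_lit 10936249)) p13_15_1 (nat_lit 4) (nat_lit 131) (nat_lit 132) = true := by decide +kernel
def p13_15_1_132 : pfC (piC [(nat_lit 36888796), (nat_lit 24534081), (nat_lit 18263511), (nat_lit 12310016)] (nat_lit 10936249)) p13_15_1 (nat_lit 4) (nat_lit 132) (nat_lit 133) = true := by decide +kernel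
def p13_15_1_133 : pfC (piC [(nat_lit 36888796), (nat_lit 24534081), (nat_lit 18263511), (nat_lit 12310016)] (nat_lit 10936249)) p13_15_1 (nat_lit 4) (nat_lit 133) (nat_lit 134) = true := by decide +kernel
def p13_15_1_134 : pfC (piC [(nat_lit 36888796), (nat_lit 24534081), (nat_lit 18263511), (nat_lit 12310016)] (nat_lit 10936249)) p13_15_1 (nat_lit 4) (nat_lit 134) (nat_lit 135) = true := by decide +kernel
def p13_15_1_135 : pfC (piC [(nat_lit 36888796), (nat_lit 24534081), (nat_lit 18263511), (nat_lit 12310016)] (nat_lit 10936249)) p13_15_1 (nat_lit 4) (nat_lit 135) (nat_lit 136) = true := by decide +kernel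
def p13_15_1_136 : pfC (piC [(nat_lit 36888796), (nat_lit 24534081), (nat_lit 18263511), (nat_lit 12310016)] (nat_lit 10936249)) p13_15_1 (nat_lit 4) (nat_lit 136) (nat_lit 137) = true := by decide +kernel
def p13_15_1_137 : pfC (piC [(nat_lit 36888796), (nat_lit 24534081), (nat_lit 18263511), (nat_lit 12310016)] (nat_lit 10936249)) p13_15_1 (nat_lit 4) (nat_lit 137) (nat_lit 138) = true := by decide +kernel
def p13_15_1_138 : pfC (piC [(nat_lit 36888796), (nat_lit 24534081), (nat_lit 18263511), (nat_lit 12310016)] (nat_lit 10936249)) p13_15_1 (nat_lit 4) (nat_lit 138) (nat_lit 139) = true := by decide +kernel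
def p13_15_1_139 : pfC (piC [(nat_lit 36888796), (nat_lit 24534081), (nat_lit 18263511), (nat_lit 12310016)] (nat_lit 10936249)) p13_15_1 (nat_lit 4) (nat_lit 139) (nat_lit 140) = true := by decide +kernel
def p13_15_1_140 : pfC (piC [(nat_lit 36888796), (nat_lit 24534081), (nat_lit 18263511), (nat_lit 12310016)] (nat_lit 10936249)) p13_15_1 (nat_lit 4) (nat_lit 140) (nat_lit 141) = true := by decide +kernel
def p13_15_1_141 : pfC (piC [(nat_lit 36888796), (nat_lit 24534081), (nat_lit 18263511), (nat_lit 12310016)] (nat_lit 10936249)) p13_15_1 (nat_lit 4) (nat_lit 141) (nat_lit 142) = true := by decide +kernel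
def p13_15_1_142 : pfC (piC [(nat_lit 36888796), (nat_lit 24534081), (nat_lit 18263511), (nat_lit 12310016)] (nat_lit 10936249)) p13_15_1 (nat_lit 4) (nat_lit 142) (nat_lit 143) = true := by decide +kernel
def p13_15_1_143 : pfC (piC [(nat_lit 36888796), (nat_lit 24534081), (nat_lit 18263511), (nat_lit 12310016)] (nat_lit 10936249)) p13_15_1 (nat_lit 4) (nat_lit 143) (nat_lit 144) = true := by decide +kernel
def p13_15_1_144 : pfC (piC [(nat_lit 36888796), (nat_lit 24534081), (nat_lit 18263511), (nat_lit 12310016)] (nat_lit 10936249)) p13_15_1 (nat_lit 4) (nat_lit 144) (nat_lit 145) = true := by decide +kernel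
def p13_15_1_145 : pfC (piC [(nat_lit 36888796), (nat_lit 24534081), (nat_lit 18263511), (nat_lit 12310016)] (nat_lit 10936249)) p13_15_1 (nat_lit 4) (nat_lit 145) (nat_lit 146) = true := by decide +kernel
def p13_15_1_146 : pfC (piC [(nat_lit 36888796), (nat_lit 24534081), (nat_lit 18263511), (nat_lit 12310016)] (nat_lit 10936249)) p13_15_1 (nat_lit 4) (nat_lit 146) (nat_lit 147) = true := by decide +kernel
def p13_15_1_147 : pfC (piC [(nat_lit 36888796), (nat_lit 24534081), (nat_lit 18263511), (nat_lit 12310016)] (nat_lit 10936249)) p13_15_1 (nat_lit 4) (nat_lit 147) (nat_lit 148) = true := by decide +kernel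
def p13_15_1_148 : pfC (piC [(nat_lit 36888796), (nat_lit 24534081), (nat_lit 18263511), (nat_lit 12310016)] (nat_lit 10936249)) p13_15_1 (nat_lit 4) (nat_lit 148) (nat_lit 149) = true := by decide +kernel
def p13_15_1_149 : pfC (piC [(nat_lit 36888796), (nat_lit 24534081), (nat_lit 18263511), (nat_lit 12310016)] (nat_lit 10936249)) p13_15_1 (nat_lit 4) (nat_lit 149) (nat_lit 150) = true := by decide +kernel
def p13_15_1_150 : pfC (piC [(nat_lit 36888796), (nat_lit 24534081), (nat_lit 18263511), (nat_lit 12310016)] (nat_lit 10936249)) p13_15_1 (nat_lit 4) (nat_lit 150) (nat_lit 151) = true := by decide +kernel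
def p13_15_1_151 : pfC (piC [(nat_lit 36888796), (nat_lit 24534081), (nat_lit 18263511), (nat_lit 12310016)] (nat_lit 10936249)) p13_15_1 (nat_lit 4) (nat_lit 151) (nat_lit 152) = true := by decide +kernel
def p13_15_1_152 : pfC (piC [(nat_lit 36888796), (nat_lit 24534081), (nat_lit 18263511), (nat_lit 12310016)] (nat_lit 10936249)) p13_15_1 (nat_lit 4) (nat_lit 152) (nat_lit 153) = true := by decide +kernel
def p13_15_1_153 : pfC (piC [(nat_lit 36888796), (nat_lit 24534081), (nat_lit 18263511), (nat_lit 12310016)] (nat_lit 10936249)) p13_15_1 (nat_lit 4) (nat_lit 153) (nat_lit 154) = true := by decide +kernel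
def p13_15_1_154 : pfC (piC [(nat_lit 36888796), (nat_lit 24534081), (nat_lit 18263511), (nat_lit 12310016)] (nat_lit 10936249)) p13_15_1 (nat_lit 4) (nat_lit 154) (nat_lit 155) = true := by decide +kernel
def p13_15_1_155 : pfC (piC [(nat_lit 36888796), (nat_lit 24534081), (nat_lit 18263511), (nat_lit 12310016)] (nat_lit 10936249)) p13_15_1 (nat_lit 4) (nat_lit 155) (nat_lit 156) = true := by decide +kernel
def p13_15_1_156 : pfC (piC [(nat_lit 36888796), (nat_lit 24534081), (nat_lit 18263511), (nat_lit 12310016)] (nat_lit 10936249)) p13_15_1 (nat_lit 4) (nat_lit 156) (nat_lit 157) = true := by decide +kernel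
def p13_15_1_157 : pfC (piC [(nat_lit 36888796), (nat_lit 24534081), (nat_lit 18263511), (nat_lit 12310016)] (nat_lit 10936249)) p13_15_1 (nat_lit 4) (nat_lit 157) (nat_lit 158) = true := by decide +kernel
def p13_15_1_158 : pfC (piC [(nat_lit 36888796), (nat_lit 24534081), (nat_lit 18263511), (nat_lit 12310016)] (nat_lit 10936249)) p13_15_1 (nat_lit 4) (nat_lit 158) (nat_lit 159) = true := by decide +kernel
def p13_15_1_159 : pfC (piC [(nat_lit 36888796), (nat_lit 24534081), (nat_lit 18263511), (nat_lit 12310016)] (nat_lit 10936249)) p13_15_1 (nat_lit 4) (nat_lit 159) (nat_lit 160) = true := by decide +kernel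
def p13_15_1_160 : pfC (piC [(nat_lit 36888796), (nat_lit 24534081), (nat_lit 18263511), (nat_lit 12310016)] (nat_lit 10936249)) p13_15_1 (nat_lit 4) (nat_lit 160) (nat_lit 161) = true := by decide +kernel
def p13_15_1_161 : pfC (piC [(nat_lit 36888796), (nat_lit 24534081), (nat_lit 18263511), (nat_lit 12310016)] (nat_lit 10936249)) p13_15_1 (nat_lit 4) (nat_lit 161) (nat_lit 162) = true := by decide +kernel
def p13_15_1_162 : pfC (piC [(nat_lit 36888796), (nat_lit 24534081), (nat_lit 18263511), (nat_lit 12310016)] (nat_lit 10936249)) p13_15_1 (nat_lit 4) (nat_lit 162) (nat_lit 163) = true := by decide +kernel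
def p13_15_1_163 : pfC (piC [(nat_lit 36888796), (nat_lit 24534081), (nat_lit 18263511), (nat_lit 12310016)] (nat_lit 10936249)) p13_15_1 (nat_lit 4) (nat_lit 163) (nat_lit 164) = true := by decide +kernel
def p13_15_1_164 : pfC (piC [(nat_lit 36888796), (nat_lit 24534081), (nat_lit 18263511), (nat_lit 12310016)] (nat_lit 10936249)) p13_15_1 (nat_lit 4) (nat_lit 164) (nat_lit 165) = true := by decide +kernel
def p13_15_1_165 : pfC (piC [(nat_lit 36888796), (nat_lit 24534081), (nat_lit 18263511), (nat_lit 12310016)] (nat_lit 10936249)) p13_15_1 (nat_lit 4) (nat_lit 165) (nat_lit 166) = true := by decide +kernel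
def p13_15_1_166 : pfC (piC [(nat_lit 36888796), (nat_lit 24534081), (nat_lit 18263511), (nat_lit 12310016)] (nat_lit 10936249)) p13_15_1 (nat_lit 4) (nat_lit 166) (nat_lit 167) = true := by decide +kernel
def p13_15_1_167 : pfC (piC [(nat_lit 36888796), (nat_lit 24534081), (nat_lit 18263511), (nat_lit 12310016)] (nat_lit 10936249)) p13_15_1 (nat_lit 4) (nat_lit 167) (nat_lit 168) = true := by decide +kernel
def p13_15_1_168 : pfC (piC [(nat_lit 36888796), (nat_lit 24534081), (nat_lit 18263511), (nat_lit 12310016)] (nat_lit 10936249)) p13_15_1 (nat_lit 4) (nat_lit 168) (nat_lit 169) = true := by decide +kernel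
def p13_15_1_169 : pfC (piC [(nat_lit 36888796), (nat_lit 24534081), (nat_lit 18263511), (nat_lit 12310016)] (nat_lit 10936249)) p13_15_1 (nat_lit 4) (nat_lit 169) (nat_lit 170) = true := by decide +kernel
def p13_15_1_170 : pfC (piC [(nat_lit 36888796), (nat_lit 24534081), (nat_lit 18263511), (nat_lit 12310016)] (nat_lit 10936249)) p13_15_1 (nat_lit 4) (nat_lit 170) (nat_lit 171) = true := by decide +kernel
def p13_15_1_171 : pfC (piC [(nat_lit 36888796), (nat_lit 24534081), (nat_lit 18263511), (nat_lit 12310016)] (nat_lit 10936249)) p13_15_1 (nat_lit 4) (nat_lit 171) (nat_lit 172) = true := by decide +kernel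
def p13_15_1_172 : pfC (piC [(nat_lit 36888796), (nat_lit 24534081), (nat_lit 18263511), (nat_lit 12310016)] (nat_lit 10936249)) p13_15_1 (nat_lit 4) (nat_lit 172) (nat_lit 173) = true := by decide +kernel
def p13_15_1_173 : pfC (piC [(nat_lit 36888796), (nat_lit 24534081), (nat_lit 18263511), (nat_lit 12310016)] (nat_lit 10936249)) p13_15_1 (nat_lit 4) (nat_lit 173) (nat_lit 174) = true := by decide +kernel
def p13_15_1_174 : pfC (piC [(nat_lit 36888796), (nat_lit 24534081), (nat_lit 18263511), (nat_lit 12310016)] (nat_lit 10936249)) p13_15_1 (nat_lit 4) (nat_lit 174) (nat_lit 175) = true := by decide +kernel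
def p13_15_1_175 : pfC (piC [(nat_lit 36888796), (nat_lit 24534081), (nat_lit 18263511), (nat_lit 12310016)] (nat_lit 10936249)) p13_15_1 (nat_lit 4) (nat_lit 175) (nat_lit 176) = true := by decide +kernel
def p13_15_1_176 : pfC (piC [(nat_lit 36888796), (nat_lit 24534081), (nat_lit 18263511), (nat_lit 12310016)] (nat_lit 10936249)) p13_15_1 (nat_lit 4) (nat_lit 176) (nat_lit 177) = true := by decide +kernel
def p13_15_1_177 : pfC (piC [(nat_lit 36888796), (nat_lit 24534081), (nat_lit 18263511), (nat_lit 12310016)] (nat_lit 10936249)) p13_15_1 (nat_lit 4) (nat_lit 177) (nat_lit 178) = true := by decide +kernel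
def p13_15_1_178 : pfC (piC [(nat_lit 36888796), (nat_lit 24534081), (nat_lit 18263511), (nat_lit 12310016)] (nat_lit 10936249)) p13_15_1 (nat_lit 4) (nat_lit 178) (nat_lit 179) = true := by decide +kernel
def p13_15_1_179 : pfC (piC [(nat_lit 36888796), (nat_lit 24534081), (nat_lit 18263511), (nat_lit 12310016)] (nat_lit 10936249)) p13_15_1 (nat_lit 4) (nat_lit 179) (nat_lit 180) = true := by decide +kernel
def p13_15_1_180 : pfC (piC [(nat_lit 36888796), (nat_lit 24534081), (nat_lit 18263511), (nat_lit 12310016)] (nat_lit 10936249)) p13_15_1 (nat_lit 4) (nat_lit 180) (nat_lit 181) = true := by decide +kernel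
def p13_15_1_181 : pfC (piC [(nat_lit 36888796), (nat_lit 24534081), (nat_lit 18263511), (nat_lit 12310016)] (nat_lit 10936249)) p13_15_1 (nat_lit 4) (nat_lit 181) (nat_lit 182) = true := by decide +kernel
def p13_15_1_182 : pfC (piC [(nat_lit 36888796), (nat_lit 24534081), (nat_lit 18263511), (nat_lit 12310016)] (nat_lit 10936249)) p13_15_1 (nat_lit 4) (nat_lit 182) (nat_lit 183) = true := by decide +kernel
def p13_15_1_183 : pfC (piC [(nat_lit 36888796), (nat_lit 24534081), (nat_lit 18263511), (nat_lit 12310016)] (nat_lit 10936249)) p13_15_1 (nat_lit 4) (nat_lit 183) (nat_lit 184) = true := by decide +kernel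
def p13_15_1_184 : pfC (piC [(nat_lit 36888796), (nat_lit 24534081), (nat_lit 18263511), (nat_lit 12310016)] (nat_lit 10936249)) p13_15_1 (nat_lit 4) (nat_lit 184) (nat_lit 185) = true := by decide +kernel
def p13_15_1_185 : pfC (piC [(nat_lit 36888796), (nat_lit 24534081), (nat_lit 18263511), (nat_lit 12310016)] (nat_lit 10936249)) p13_15_1 (nat_lit 4) (nat_lit 185) (nat_lit 186) = true := by decide +kernel
def p13_15_1_186 : pfC (piC [(nat_lit 36888796), (nat_lit 24534081), (nat_lit 18263511), (nat_lit 12310016)] (nat_lit 10936249)) p13_15_1 (nat_lit 4) (nat_lit 186) (nat_lit 187) = true := by decide +kernel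
def p13_15_1_187 : pfC (piC [(nat_lit 36888796), (nat_lit 24534081), (nat_lit 18263511), (nat_lit 12310016)] (nat_lit 10936249)) p13_15_1 (nat_lit 4) (nat_lit 187) (nat_lit 188) = true := by decide +kernel
def p13_15_1_188 : pfC (piC [(nat_lit 36888796), (nat_lit 24534081), (nat_lit 18263511), (nat_lit 12310016)] (nat_lit 10936249)) p13_15_1 (nat_lit 4) (nat_lit 188) (nat_lit 189) = true := by decide +kernel
def p13_15_1_189 : pfC (piC [(nat_lit 36888796), (nat_lit 24534081), (nat_lit 18263511), (nat_lit 12310016)] (nat_lit 10936249)) p13_15_1 (nat_lit 4) (nat_lit 189) (nat_lit 190) = true := by decide +kernel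
def p13_15_1_190 : pfC (piC [(nat_lit 36888796), (nat_lit 24534081), (nat_lit 18263511), (nat_lit 12310016)] (nat_lit 10936249)) p13_15_1 (nat_lit 4) (nat_lit 190) (nat_lit 191) = true := by decide +kernel
def p13_15_1_191 : pfC (piC [(nat_lit 36888796), (nat_lit 24534081), (nat_lit 18263511), (nat_lit 12310016)] (nat_lit 10936249)) p13_15_1 (nat_lit 4) (nat_lit 191) (nat_lit 192) = true := by decide +kernel
def p13_15_1_192 : pfC (piC [(nat_lit 36888796), (nat_lit 24534081), (nat_lit 18263511), (nat_lit 12310016)] (nat_lit 10936249)) p13_15_1 (nat_lit 4) (nat_lit 192) (nat_lit 193) = true := by decide +kernel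
def p13_15_1_193 : pfC (piC [(nat_lit 36888796), (nat_lit 24534081), (nat_lit 18263511), (nat_lit 12310016)] (nat_lit 10936249)) p13_15_1 (nat_lit 4) (nat_lit 193) (nat_lit 194) = true := by decide +kernel
def p13_15_1_194 : pfC (piC [(nat_lit 36888796), (nat_lit 24534081), (nat_lit 18263511), (nat_lit 12310016)] (nat_lit 10936249)) p13_15_1 (nat_lit 4) (nat_lit 194) (nat_lit 195) = true := by decide +kernel
def p13_15_1_195 : pfC (piC [(nat_lit 36888796), (nat_lit 24534081), (nat_lit 18263511), (nat_lit 12310016)] (nat_lit 10936249)) p13_15_1 (nat_lit 4) (nat_lit 195) (nat_lit 196) = true := by decide +kernel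
def p13_15_1_196 : pfC (piC [(nat_lit 36888796), (nat_lit 24534081), (nat_lit 18263511), (nat_lit 12310016)] (nat_lit 10936249)) p13_15_1 (nat_lit 4) (nat_lit 196) (nat_lit 197) = true := by decide +kernel
def p13_15_1_197 : pfC (piC [(nat_lit 36888796), (nat_lit 24534081), (nat_lit 18263511), (nat_lit 12310016)] (nat_lit 10936249)) p13_15_1 (nat_lit 4) (nat_lit 197) (nat_lit 198) = true := by decide +kernel
def p13_15_1_198 : pfC (piC [(nat_lit 36888796), (nat_lit 24534081), (nat_lit 18263511), (nat_lit 12310016)] (nat_lit 10936249)) p13_15_1 (nat_lit 4) (nat_lit 198) (nat_lit 199) = true := by decide +kernel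
def p13_15_1_199 : pfC (piC [(nat_lit 36888796), (nat_lit 24534081), (nat_lit 18263511), (nat_lit 12310016)] (nat_lit 10936249)) p13_15_1 (nat_lit 4) (nat_lit 199) (nat_lit 200) = true := by decide +kernel
def p13_15_1_200 : pfC (piC [(nat_lit 36888796), (nat_lit 24534081), (nat_lit 18263511), (nat_lit 12310016)] (nat_lit 10936249)) p13_15_1 (nat_lit 4) (nat_lit 200) (nat_lit 201) = true := by decide +kernel
def p13_15_1_201 : pfC (piC [(nat_lit 36888796), (nat_lit 24534081), (nat_lit 18263511), (nat_lit 12310016)] (nat_lit 10936249)) p13_15_1 (nat_lit 4) (nat_lit 201) (nat_lit 202) = true := by decide +kernel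
def p13_15_1_202 : pfC (piC [(nat_lit 36888796), (nat_lit 24534081), (nat_lit 18263511), (nat_lit 12310016)] (nat_lit 10936249)) p13_15_1 (nat_lit 4) (nat_lit 202) (nat_lit 203) = true := by decide +kernel
def p13_15_1_203 : pfC (piC [(nat_lit 36888796), (nat_lit 24534081), (nat_lit 18263511), (nat_lit 12310016)] (nat_lit 10936249)) p13_15_1 (nat_lit 4) (nat_lit 203) (nat_lit 204) = true := by decide +kernel
def p13_15_1_204 : pfC (piC [(nat_lit 36888796), (nat_lit 24534081), (nat_lit 18263511), (nat_lit 12310016)] (nat_lit 10936249)) p13_15_1 (nat_lit 4) (nat_lit 204) (nat_lit 205) = true := by decide +kernel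
def p13_15_1_205 : pfC (piC [(nat_lit 36888796), (nat_lit 24534081), (nat_lit 18263511), (nat_lit 12310016)] (nat_lit 10936249)) p13_15_1 (nat_lit 4) (nat_lit 205) (nat_lit 206) = true := by decide +kernel
theorem p13_15_1_T : PfS (PiF n13_15.reverse (nat_lit 10936249)) p13_15_1 (nat_lit 4) [] 0 :=
  pftab_of (los := [(nat_lit 36888796), (nat_lit 24534081), (nat_lit 18263511), (nat_lit 12310016)]) (by decide +kernel) (hi := (nat_lit 206)) (PfP.trans (PfP.trans (PfP.trans (PfP.trans (PfP.trans (PfP.trans (PfP.trans (PfP.trans (PfP.trans (PfP.trans (PfP.trans (PfP.trans (PfP.trans (PfP.trans (PfP.trans (PfP.trans (PfP.trans (PfP.trans (PfP.trans (PfP.trans (PfP.trans (PfP.trans (PfP.trans (PfP.trans (PfP.trans (PfP.trans (PfP.trans (PfP.trans (PfP.trans (PfP.trans (PfP.trans (PfP.trans (PfP.trans (PfP.trans (PfP.trans (PfP.trans (PfP.trans (PfP.trans (PfP.trans (PfP.trans (PfP.trans (PfP.trans (PfP.trans (PfP.trans (PfP.trans (PfP.trans (PfP.trans (PfP.trans (PfP.trans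 (PfP.trans (PfP.trans (PfP.trans (PfP.trans (PfP.trans (PfP.trans (PfP.trans (PfP.trans (PfP.trans (PfP.trans (PfP.trans (PfP.trans (PfP.trans (PfP.trans (PfP.trans (PfP.trans (PfP.trans (PfP.trans (PfP.trans (PfP.trans (PfP.trans (PfP.trans (PfP.trans (PfP.trans (PfP.trans (PfP.trans (PfP.trans (PfP.trans (PfP.trans (PfP.trans (PfP.trans (PfP.trans (PfP.trans (PfP.trans (PfP.trans (PfP.trans (PfP.trans (PfP.trans (PfP.trans (PfP.trans (PfP.trans (PfP.trans (PfP.trans (PfP.trans (PfP.trans (PfP.trans (PfP.trans (PfP.trans (PfP.trans (PfP.trans (PfP.trans (PfP.trans (PfP.trans (PfP.trans (PfP.trans (PfP.trans (PfP.trans (PfP.trans (PfP.trans (PfP.trans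
 (PfP.trans (PfP.trans (PfP.trans (PfP.trans (PfP.trans (PfP.trans (PfP.trans (PfP.trans (PfP.trans (PfP.trans (PfP.trans (PfP.trans (PfP.trans (PfP.trans (PfP.trans (PfP.trans (PfP.trans (PfP.trans (PfP.trans (PfP.trans (PfP.trans (PfP.trans (PfP.trans (PfP.trans (PfP.trans (PfP.trans (PfP.trans (PfP.trans (PfP.trans (PfP.trans (PfP.trans (PfP.trans (PfP.trans (PfP.trans (PfP.trans (PfP.trans (PfP.trans (PfP.trans (PfP.trans (PfP.trans (PfP.trans (PfP.trans (PfP.trans (PfP.trans (PfP.trans (PfP.trans (PfP.trans (PfP.trans (PfP.trans (PfP.trans (PfP.trans (PfP.trans (PfP.trans (PfP.trans (PfP.trans (PfP.trans (PfP.trans (PfP.trans (PfP.trans (PfP.trans (PfP.trans (PfP.trans (PfP.trans (PfP.trans (PfP.trans (PfP.trans (PfP.trans (PfP.trans (PfP.trans (PfP.trans (PfP.trans (PfP.trans (PfP.trans (PfP.trans (PfP.trans (PfP.trans (PfP.trans (PfP.trans (PfP.trans (PfP.trans (PfP.trans (PfP.trans (PfP.trans (PfP.trans (PfP.trans (PfP.trans (PfP.trans (PfP.trans (PfP.trans (PfP.trans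 (PfP.trans (PfP.trans (PfP.trans (PfP.trans (PfP.trans (PfP.trans (pfC_sound p13_15_1_0) (pfC_sound p13_15_1_1)) (pfC_sound p13_15_1_2)) (pfC_sound p13_15_1_3)) (pfC_sound p13_15_1_4)) (pfC_sound p13_15_1_5))
 (pfC_sound p13_15_1_6)) (pfC_sound p13_15_1_7)) (pfC_sound p13_15_1_8)) (pfC_sound p13_15_1_9)) (pfC_sound p13_15_1_10)) (pfC_sound p13_15_1_11)) (pfC_sound p13_15_1_12)) (pfC_sound p13_15_1_13)) (pfC_sound p13_15_1_14)) (pfC_sound p13_15_1_15)) (pfC_sound p13_15_1_16)) (pfC_sound p13_15_1_17)) (pfC_sound p13_15_1_18)) (pfC_sound p13_15_1_19)) (pfC_sound p13_15_1_20)) (pfC_sound p13_15_1_21)) (pfC_sound p13_15_1_22)) (pfC_sound p13_15_1_23)) (pfC_sound p13_15_1_24)) (pfC_sound p13_15_1_25)) (pfC_sound p13_15_1_26)) (pfC_sound p13_15_1_27)) (pfC_sound p13_15_1_28)) (pfC_sound p13_15_1_29)) (pfC_sound p13_15_1_30)) (pfC_sound p13_15_1_31)) (pfC_sound p13_15_1_32)) (pfC_sound p13_15_1_33)) (pfC_sound p13_15_1_34)) (pfC_sound p13_15_1_35)) (pfC_sound p13_15_1_36))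 (pfC_sound p13_15_1_37)) (pfC_sound p13_15_1_38)) (pfC_sound p13_15_1_39)) (pfC_sound p13_15_1_40)) (pfC_sound p13_15_1_41)) (pfC_sound p13_15_1_42)) (pfC_sound p13_15_1_43)) (pfC_sound p13_15_1_44)) (pfC_sound p13_15_1_45)) (pfC_sound p13_15_1_46)) (pfC_sound p13_15_1_47)) (pfC_sound p13_15_1_48)) (pfC_sound p13_15_1_49)) (pfC_sound p13_15_1_50)) (pfC_sound p13_15_1_51)) (pfC_sound p13_15_1_52)) (pfC_sound p13_15_1_53))
 (pfC_sound p13_15_1_54)) (pfC_sound p13_15_1_55)) (pfC_sound p13_15_1_56)) (pfC_sound p13_15_1_57)) (pfC_sound p13_15_1_58)) (pfC_sound p13_15_1_59)) (pfC_sound p13_15_1_60)) (pfC_sound p13_15_1_61)) (pfC_sound p13_15_1_62)) (pfC_sound p13_15_1_63)) (pfC_sound p13_15_1_64)) (pfC_sound p13_15_1_65)) (pfC_sound p13_15_1_66)) (pfC_sound p13_15_1_67)) (pfC_sound p13_15_1_68)) (pfC_sound p13_15_1_69)) (pfC_sound p13_15_1_70)) (pfC_sound p13_15_1_71)) (pfC_sound p13_15_1_72)) (pfC_sound p13_15_1_73)) (pfC_sound p13_15_1_74)) (pfC_sound p13_15_1_75)) (pfC_sound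 p13_15_1_76)) (pfC_sound p13_15_1_77)) (pfC_sound p13_15_1_78)) (pfC_sound p13_15_1_79)) (pfC_sound p13_15_1_80)) (pfC_sound p13_15_1_81)) (pfC_sound p13_15_1_82)) (pfC_sound p13_15_1_83)) (pfC_sound p13_15_1_84)) (pfC_sound p13_15_1_85)) (pfC_sound p13_15_1_86)) (pfC_sound p13_15_1_87)) (pfC_sound p13_15_1_88)) (pfC_sound p13_15_1_89)) (pfC_sound p13_15_1_90)) (pfC_sound p13_15_1_91)) (pfC_sound p13_15_1_92)) (pfC_sound p13_15_1_93)) (pfC_sound p13_15_1_94)) (pfC_sound p13_15_1_95)) (pfC_sound p13_15_1_96)) (pfC_sound p13_15_1_97)) (pfC_sound p13_15_1_98)) (pfC_sound p13_15_1_99)) (pfC_sound p13_15_1_100)) (pfC_sound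
 p13_15_1_101)) (pfC_sound p13_15_1_102)) (pfC_sound p13_15_1_103)) (pfC_sound p13_15_1_104)) (pfC_sound p13_15_1_105)) (pfC_sound p13_15_1_106)) (pfC_sound p13_15_1_107)) (pfC_sound p13_15_1_108)) (pfC_sound p13_15_1_109)) (pfC_sound p13_15_1_110)) (pfC_sound p13_15_1_111)) (pfC_sound p13_15_1_112)) (pfC_sound p13_15_1_113)) (pfC_sound p13_15_1_114)) (pfC_sound p13_15_1_115)) (pfC_sound p13_15_1_116)) (pfC_sound p13_15_1_117)) (pfC_sound p13_15_1_118)) (pfC_sound p13_15_1_119)) (pfC_sound p13_15_1_120)) (pfC_sound p13_15_1_121)) (pfC_sound p13_15_1_122)) (pfC_sound p13_15_1_123)) (pfC_sound p13_15_1_124)) (pfC_sound p13_15_1_125)) (pfC_sound p13_15_1_126)) (pfC_sound p13_15_1_127)) (pfC_sound p13_15_1_128)) (pfC_sound p13_15_1_129)) (pfC_sound p13_15_1_130)) (pfC_sound p13_15_1_131)) (pfC_sound p13_15_1_132)) (pfC_sound p13_15_1_133)) (pfC_sound p13_15_1_134)) (pfC_sound p13_15_1_135)) (pfC_sound p13_15_1_136)) (pfC_sound p13_15_1_137)) (pfC_sound p13_15_1_138)) (pfC_sound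 p13_15_1_139)) (pfC_sound p13_15_1_140)) (pfC_sound p13_15_1_141)) (pfC_sound p13_15_1_142)) (pfC_sound p13_15_1_143)) (pfC_sound p13_15_1_144)) (pfC_sound p13_15_1_145)) (pfC_sound p13_15_1_146)) (pfC_sound
 p13_15_1_147)) (pfC_sound p13_15_1_148)) (pfC_sound p13_15_1_149)) (pfC_sound p13_15_1_150)) (pfC_sound p13_15_1_151)) (pfC_sound p13_15_1_152)) (pfC_sound p13_15_1_153)) (pfC_sound p13_15_1_154)) (pfC_sound p13_15_1_155)) (pfC_sound p13_15_1_156)) (pfC_sound p13_15_1_157)) (pfC_sound p13_15_1_158)) (pfC_sound p13_15_1_159)) (pfC_sound p13_15_1_160)) (pfC_sound p13_15_1_161)) (pfC_sound p13_15_1_162)) (pfC_sound p13_15_1_163)) (pfC_sound p13_15_1_164)) (pfC_sound p13_15_1_165)) (pfC_sound p13_15_1_166)) (pfC_sound p13_15_1_167)) (pfC_sound p13_15_1_168)) (pfC_sound p13_15_1_169)) (pfC_sound p13_15_1_170)) (pfC_sound p13_15_1_171)) (pfC_sound p13_15_1_172)) (pfC_sound p13_15_1_173)) (pfC_sound p13_15_1_174)) (pfC_sound p13_15_1_175)) (pfC_sound p13_15_1_176)) (pfC_sound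 p13_15_1_177)) (pfC_sound p13_15_1_178)) (pfC_sound p13_15_1_179)) (pfC_sound p13_15_1_180)) (pfC_sound p13_15_1_181)) (pfC_sound p13_15_1_182)) (pfC_sound p13_15_1_183)) (pfC_sound p13_15_1_184)) (pfC_sound p13_15_1_185)) (pfC_sound p13_15_1_186)) (pfC_sound p13_15_1_187)) (pfC_sound p13_15_1_188)) (pfC_sound p13_15_1_189)) (pfC_sound p13_15_1_190)) (pfC_sound p13_15_1_191)) (pfC_sound p13_15_1_192)) (pfC_sound
 p13_15_1_193)) (pfC_sound p13_15_1_194)) (pfC_sound p13_15_1_195)) (pfC_sound p13_15_1_196)) (pfC_sound p13_15_1_197)) (pfC_sound p13_15_1_198)) (pfC_sound p13_15_1_199)) (pfC_sound p13_15_1_200)) (pfC_sound p13_15_1_201)) (pfC_sound p13_15_1_202)) (pfC_sound p13_15_1_203)) (pfC_sound p13_15_1_204)) (pfC_sound p13_15_1_205)) (by decide +kernel)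

def z13_15_1 : zOK yB13_15 (nat_lit 1) (nat_lit 400) (nat_lit 600) (nat_lit 10936249) (nat_lit 7360548) = true := by decide +kernel
def g13_15_1 : gOK yB13_15.x P13_15 (nat_lit 1413) (q13_15 :: r13_15) (nat_lit 1) (nat_lit 400) (nat_lit 2) (nat_lit 600) (nat_lit 11000000) (nat_lit 17850000) (nat_lit 12712500) (nat_lit 12712500) [(nat_lit 800), (nat_lit 1130)] = true := by decide +kernel
def v13_15_1 : ivC P13_15 s13_15 w13_15 n13_15 (nat_lit 4) (nat_lit 4960) (nat_lit 1) (nat_lit 400) f168_1_400 f176_1_400 (nat_lit 2) (nat_lit 600) f168_1_600 f176_1_600 (nat_lit 10936249) (nat_lit 7360548) p13_15_1 = true := by decide +kernel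
def p13_15_2 : PF := (PF.cons (PF.cons (PF.cons (PF.cons (PF.leaf (nat_lit 2629297) (nat_lit 14708463) (nat_lit 52400349) (nat_lit 14708463) [(nat_lit 0), (nat_lit 0), (nat_lit 0), (nat_lit 0)]) (PF.cons (PF.leaf (nat_lit 2826824) (nat_lit 358169) (nat_lit 52054992) (nat_lit 14695650) [(nat_lit 358169), (nat_lit 0), (nat_lit 0), (nat_lit 0)]) (PF.cons (PF.leaf (nat_lit 3059156) (nat_lit 388855) (nat_lit 51652647) (nat_lit 14678453) [(nat_lit 388855), (nat_lit 0), (nat_lit 0), (nat_lit 0)]) (PF.cons (PF.leaf (nat_lit 3319222) (nat_lit 415824) (nat_lit 51204794) (nat_lit 14656543) [(nat_lit 415824), (nat_lit 0), (nat_lit 0), (nat_lit 0)]) (PF.cons (PF.leaf (nat_lit 3602689) (nat_lit 439874) (nat_lit 50719685) (nat_lit 14629631) [(nat_lit 439874), (nat_lit 0), (nat_lit 0), (nat_lit 0)]) (PF.cons (PF.leaf (nat_lit 3906160) (nat_lit 461514) (nat_lit 50203747) (nat_lit 14597493) [(nat_lit 461514), (nat_lit 0), (nat_lit 0), (nat_lit 0)]) (PF.cons (PF.leaf (nat_lit 4226846)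 (nat_lit 481098) (nat_lit 49662238) (nat_lit 14559985) [(nat_lit 481098), (nat_lit 0), (nat_lit 0), (nat_lit 0)]) (PF.cons (PF.leaf (nat_lit 4562398) (nat_lit 498882) (nat_lit 49099597) (nat_lit 14517039) [(nat_lit 498882), (nat_lit 0),
 (nat_lit 0), (nat_lit 0)]) (PF.cons (PF.leaf (nat_lit 4910774) (nat_lit 515063) (nat_lit 48519648) (nat_lit 14468654) [(nat_lit 515063), (nat_lit 0), (nat_lit 0), (nat_lit 0)]) (PF.cons (PF.leaf (nat_lit 5270160) (nat_lit 529798) (nat_lit 47925729) (nat_lit 14414896) [(nat_lit 529798), (nat_lit 0), (nat_lit 0), (nat_lit 0)]) (PF.cons PF.nil (PF.cons PF.nil PF.nil)))))))))))) (PF.cons (PF.cons (PF.leaf (nat_lit 3228753) (nat_lit 1448897) (nat_lit 51018901) (nat_lit 14641013) [(nat_lit 0), (nat_lit 1448897), (nat_lit 0), (nat_lit 0)]) (PF.cons (PF.leaf (nat_lit 3479242) (nat_lit 424691) (nat_lit 50581134) (nat_lit 14615700) [(nat_lit 424691), (nat_lit 1487286), (nat_lit 0), (nat_lit 0)]) (PF.cons (PF.leaf (nat_lit 3755418) (nat_lit 447965)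 (nat_lit 50103687) (nat_lit 14585164) [(nat_lit 447965), (nat_lit 1524029), (nat_lit 0), (nat_lit 0)]) (PF.cons (PF.leaf (nat_lit 4052559) (nat_lit 468826) (nat_lit 49594396) (nat_lit 14549316) [(nat_lit 468826), (nat_lit 1558619), (nat_lit 0), (nat_lit 0)]) (PF.cons (PF.leaf (nat_lit 4367463) (nat_lit 487657) (nat_lit 49059234) (nat_lit 14508104) [(nat_lit 487657), (nat_lit 1590843), (nat_lit 0), (nat_lit 0)]) (PF.cons (PF.leaf (nat_lit 4697546)
 (nat_lit 504727) (nat_lit 48503013) (nat_lit 14461526) [(nat_lit 504727), (nat_lit 1620633), (nat_lit 0), (nat_lit 0)]) (PF.cons (PF.leaf (nat_lit 5040624) (nat_lit 520237) (nat_lit 47929755) (nat_lit 14409633) [(nat_lit 520237), (nat_lit 1648000), (nat_lit 0), (nat_lit 0)]) (PF.cons (PF.leaf (nat_lit 5394783) (nat_lit 534341) (nat_lit 47342896) (nat_lit 14352527) [(nat_lit 534341), (nat_lit 1672996), (nat_lit 0), (nat_lit 0)]) (PF.cons (PF.leaf (nat_lit 5758354) (nat_lit 547168) (nat_lit 46745415) (nat_lit 14290353) [(nat_lit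 547168), (nat_lit 1695699), (nat_lit 0), (nat_lit 0)]) (PF.cons PF.nil PF.nil)))))))))) (PF.cons (PF.cons (PF.leaf (nat_lit 3911559) (nat_lit 1549065) (nat_lit 49475766) (nat_lit 14534915) [(nat_lit 0), (nat_lit 1549065), (nat_lit 0), (nat_lit 0)]) (PF.cons (PF.leaf (nat_lit 4200232) (nat_lit 474937) (nat_lit 48977452) (nat_lit 14495912) [(nat_lit 474937), (nat_lit 1580254), (nat_lit 0), (nat_lit 0)]) (PF.cons (PF.leaf (nat_lit 4508220) (nat_lit 493218) (nat_lit 48451783) (nat_lit 14451478) [(nat_lit 493218), (nat_lit 1609557), (nat_lit 0), (nat_lit 0)]) (PF.cons (PF.leaf (nat_lit 4832028) (nat_lit 509722) (nat_lit 47904368) (nat_lit 14401702) [(nat_lit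
 509722), (nat_lit 1636787), (nat_lit 0), (nat_lit 0)]) (PF.cons (PF.leaf (nat_lit 5169221) (nat_lit 524672) (nat_lit 47339662) (nat_lit 14346700) [(nat_lit 524672), (nat_lit 1661879), (nat_lit 0), (nat_lit 0)]) (PF.cons (PF.leaf (nat_lit 5517753) (nat_lit 538237) (nat_lit 46761341) (nat_lit 14286618) [(nat_lit 538237), (nat_lit 1684833), (nat_lit 0), (nat_lit 0)]) (PF.cons (PF.leaf (nat_lit 5875856) (nat_lit 550547) (nat_lit 46172516) (nat_lit 14221632) [(nat_lit 550547), (nat_lit 1705689), (nat_lit 0), (nat_lit 0)]) (PF.cons PF.nil (PF.cons PF.nil PF.nil))))))))) (PF.cons (PF.cons (PF.leaf (nat_lit 4650702) (nat_lit 1626549) (nat_lit 47839075) (nat_lit 14390088) [(nat_lit 0), (nat_lit 1626549), (nat_lit 0), (nat_lit 0)]) (PF.cons (PF.leaf (nat_lit 4966769) (nat_lit 513866) (nat_lit 47303234) (nat_lit 14337617) [(nat_lit 513866), (nat_lit 1651364), (nat_lit 0), (nat_lit 0)]) (PF.cons (PF.leaf (nat_lit 5297315) (nat_lit 528379) (nat_lit 46749151) (nat_lit 14279947) [(nat_lit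 528379), (nat_lit 1674318), (nat_lit 0), (nat_lit 0)]) (PF.cons (PF.leaf (nat_lit 5639663) (nat_lit 541497) (nat_lit 46180963) (nat_lit 14217285) [(nat_lit 541497), (nat_lit 1695356), (nat_lit 0), (nat_lit 0)])
 (PF.cons (PF.leaf (nat_lit 5991892) (nat_lit 553367) (nat_lit 45602047) (nat_lit 14149850) [(nat_lit 553367), (nat_lit 1714482), (nat_lit 0), (nat_lit 0)]) (PF.cons (PF.leaf (nat_lit 6352340) (nat_lit 564103) (nat_lit 45015226) (nat_lit 14077874) [(nat_lit 564103), (nat_lit 1731730), (nat_lit 0), (nat_lit 0)]) (PF.cons PF.nil PF.nil))))))) (PF.cons (PF.cons (PF.leaf (nat_lit 5426077) (nat_lit 1685434) (nat_lit 46157663) (nat_lit 14209411) [(nat_lit 0), (nat_lit 1685434), (nat_lit 0), (nat_lit 0)]) (PF.cons (PF.leaf (nat_lit 5761193) (nat_lit 544123) (nat_lit 45601428) (nat_lit 14144606) [(nat_lit 544123), (nat_lit 1704663), (nat_lit 0), (nat_lit 0)]) (PF.cons (PF.leaf (nat_lit 6107013) (nat_lit 555632) (nat_lit 45033801) (nat_lit 14075108) [(nat_lit 555632),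 (nat_lit 1722159), (nat_lit 0), (nat_lit 0)]) (PF.cons (PF.leaf (nat_lit 6461432) (nat_lit 566007) (nat_lit 44457886) (nat_lit 14001186) [(nat_lit 566007), (nat_lit 1737929), (nat_lit 0), (nat_lit 0)]) (PF.cons (PF.leaf (nat_lit 6822898) (nat_lit 575352) (nat_lit 43876252) (nat_lit 13923113) [(nat_lit 575352), (nat_lit 1752009), (nat_lit 0), (nat_lit 0)]) PF.nil))))) (PF.cons (PF.cons (PF.leaf (nat_lit 6222161) (nat_lit
 1728797) (nat_lit 44467361) (nat_lit 13997463) [(nat_lit 0), (nat_lit 1728797), (nat_lit 0), (nat_lit 0)]) (PF.cons (PF.leaf (nat_lit 6569760) (nat_lit 567423) (nat_lit 43903555) (nat_lit 13921966) [(nat_lit 567423), (nat_lit 1743173), (nat_lit 0), (nat_lit 0)]) (PF.cons (PF.leaf (nat_lit 6925082) (nat_lit 576470) (nat_lit 43333523) (nat_lit 13842419) [(nat_lit 576470), (nat_lit 1755986), (nat_lit 0), (nat_lit 0)]) (PF.cons PF.nil PF.nil)))) (PF.cons (PF.cons (PF.leaf (nat_lit 7026901) (nat_lit 1759141) (nat_lit 42794382) (nat_lit 13759583) [(nat_lit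 0), (nat_lit 1759141), (nat_lit 0), (nat_lit 0)]) (PF.cons (PF.leaf (nat_lit 7381790) (nat_lit 585018) (nat_lit 42232524) (nat_lit 13675240) [(nat_lit 585018), (nat_lit 1769338), (nat_lit 0), (nat_lit 0)]) PF.nil)) (PF.cons PF.nil (PF.cons PF.nil PF.nil))))))))) (PF.cons (PF.cons (PF.cons (PF.leaf (nat_lit 3790501) (nat_lit 3615754) (nat_lit 49019346) (nat_lit 14473712) [(nat_lit 0), (nat_lit 0), (nat_lit 3615754), (nat_lit 0)]) (PF.cons (PF.leaf (nat_lit 4049731) (nat_lit 450636) (nat_lit 48575080) (nat_lit 14437179) [(nat_lit 450636), (nat_lit 0), (nat_lit 3645915), (nat_lit 0)]) (PF.cons (PF.leaf (nat_lit 4332992) (nat_lit 471962)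
 (nat_lit 48094688) (nat_lit 14394994) [(nat_lit 471962), (nat_lit 0), (nat_lit 3675205), (nat_lit 0)]) (PF.cons (PF.leaf (nat_lit 4635473) (nat_lit 490805) (nat_lit 47586167) (nat_lit 14347375) [(nat_lit 490805), (nat_lit 0), (nat_lit 3702855), (nat_lit 0)]) (PF.cons (PF.leaf (nat_lit 4953969) (nat_lit 507617) (nat_lit 47055446) (nat_lit 14294502) [(nat_lit 507617), (nat_lit 0), (nat_lit 3728393), (nat_lit 0)]) (PF.cons (PF.leaf (nat_lit 5285934) (nat_lit 522707) (nat_lit 46507183) (nat_lit 14236552) [(nat_lit 522707), (nat_lit 0), (nat_lit 3751540), (nat_lit 0)]) (PF.cons (PF.leaf (nat_lit 5629249) (nat_lit 536296) (nat_lit 45945180) (nat_lit 14173714) [(nat_lit 536296), (nat_lit 0), (nat_lit 3772138), (nat_lit 0)]) (PF.cons (PF.leaf (nat_lit 5982088) (nat_lit 548554) (nat_lit 45372618) (nat_lit 14106197) [(nat_lit 548554), (nat_lit 0), (nat_lit 3790117), (nat_lit 0)]) (PF.cons (PF.leaf (nat_lit 6342942) (nat_lit 559614) (nat_lit 44792208) (nat_lit 14034223) [(nat_lit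 559614), (nat_lit 0), (nat_lit 3805464), (nat_lit 0)]) (PF.cons PF.nil PF.nil)))))))))) (PF.cons (PF.cons (PF.leaf (nat_lit 4481725) (nat_lit 1600931) (nat_lit 47479226) (nat_lit 14331676) [(nat_lit 0), (nat_lit
 1600931), (nat_lit 3696978), (nat_lit 0)]) (PF.cons (PF.leaf (nat_lit 4774926) (nat_lit 494749) (nat_lit 46984533) (nat_lit 14281919) [(nat_lit 494749), (nat_lit 1626680), (nat_lit 3720930), (nat_lit 0)]) (PF.cons (PF.leaf (nat_lit 5085814) (nat_lit 511224) (nat_lit 46465779) (nat_lit 14226800) [(nat_lit 511224), (nat_lit 1650655), (nat_lit 3743129), (nat_lit 0)]) (PF.cons (PF.leaf (nat_lit 5410971) (nat_lit 525929) (nat_lit 45928458) (nat_lit 14166600) [(nat_lit 525929), (nat_lit 1672735), (nat_lit 3763230), (nat_lit 0)]) (PF.cons (PF.leaf (nat_lit 5747994) (nat_lit 539117) (nat_lit 45376838) (nat_lit 14101574) [(nat_lit 539117), (nat_lit 1692889), (nat_lit 3781039), (nat_lit 0)]) (PF.cons (PF.leaf (nat_lit 6094933) (nat_lit 550975) (nat_lit 44814372) (nat_lit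 14031972) [(nat_lit 550975), (nat_lit 1711138), (nat_lit 3796454), (nat_lit 0)]) (PF.cons (PF.leaf (nat_lit 6450093) (nat_lit 561644) (nat_lit 44243925) (nat_lit 13958048) [(nat_lit 561644), (nat_lit 1727532), (nat_lit 3809441), (nat_lit 0)]) (PF.cons PF.nil (PF.cons PF.nil PF.nil))))))))) (PF.cons (PF.cons (PF.leaf (nat_lit 5219609) (nat_lit 1662596) (nat_lit 45873000) (nat_lit 14155096) [(nat_lit 0), (nat_lit 1662596),
 (nat_lit 3755522), (nat_lit 0)]) (PF.cons (PF.leaf (nat_lit 5536555) (nat_lit 528417) (nat_lit 45349022) (nat_lit 14093148) [(nat_lit 528417), (nat_lit 1682733), (nat_lit 3772757), (nat_lit 0)]) (PF.cons (PF.leaf (nat_lit 5866560) (nat_lit 541315) (nat_lit 44809542) (nat_lit 14026359) [(nat_lit 541315), (nat_lit 1701165), (nat_lit 3787950), (nat_lit 0)]) (PF.cons (PF.leaf (nat_lit 6207036) (nat_lit 552855) (nat_lit 44258494) (nat_lit 13955044) [(nat_lit 552855), (nat_lit 1717869), (nat_lit 3800967), (nat_lit 0)]) (PF.cons (PF.leaf (nat_lit 6556137)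 (nat_lit 563200) (nat_lit 43699028) (nat_lit 13879500) [(nat_lit 563200), (nat_lit 1732865), (nat_lit 3811752), (nat_lit 0)]) (PF.cons (PF.leaf (nat_lit 6912304) (nat_lit 572473) (nat_lit 43133737) (nat_lit 13800011) [(nat_lit 572473), (nat_lit 1746198), (nat_lit 3820298), (nat_lit 0)]) (PF.cons PF.nil PF.nil))))))) (PF.cons (PF.cons (PF.leaf (nat_lit 5986051) (nat_lit 1708381) (nat_lit 44242607) (nat_lit 13948068) [(nat_lit 0), (nat_lit 1708381), (nat_lit 3792991), (nat_lit 0)]) (PF.cons (PF.leaf (nat_lit 6319065) (nat_lit 554187) (nat_lit 43704535) (nat_lit 13875454) [(nat_lit 554187), (nat_lit 1723623), (nat_lit 3803765), (nat_lit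
 0)]) (PF.cons (PF.leaf (nat_lit 6661598) (nat_lit 564280) (nat_lit 43157206) (nat_lit 13798646) [(nat_lit 564280), (nat_lit 1737301), (nat_lit 3812493), (nat_lit 0)]) (PF.cons (PF.leaf (nat_lit 7011635) (nat_lit 573291) (nat_lit 42603501) (nat_lit 13717969) [(nat_lit 573291), (nat_lit 1749438), (nat_lit 3819151), (nat_lit 0)]) (PF.cons PF.nil PF.nil))))) (PF.cons (PF.cons (PF.leaf (nat_lit 6767373) (nat_lit 1740898) (nat_lit 42617957) (nat_lit 13715508) [(nat_lit 0), (nat_lit 1740898), (nat_lit 3811751), (nat_lit 0)]) (PF.cons (PF.leaf (nat_lit 7110530) (nat_lit 573686) (nat_lit 42076857) (nat_lit 13633981) [(nat_lit 573686), (nat_lit 1751909), (nat_lit 3816651), (nat_lit 0)]) (PF.cons (PF.leaf (nat_lit 7460448) (nat_lit 581512) (nat_lit 41531100) (nat_lit 13548950) [(nat_lit 581512), (nat_lit 1761524), (nat_lit 3819640), (nat_lit 0)]) (PF.cons PF.nil PF.nil)))) (PF.cons (PF.cons (PF.leaf (nat_lit 7553118) (nat_lit 1762304) (nat_lit 41020381) (nat_lit 13462546) [(nat_lit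 0), (nat_lit 1762304), (nat_lit 3814361), (nat_lit 0)]) (PF.cons PF.nil PF.nil)) (PF.cons PF.nil (PF.cons PF.nil PF.nil)))))))) (PF.cons (PF.cons (PF.cons (PF.leaf (nat_lit 5035990) (nat_lit 3731619) (nat_lit
 45549679) (nat_lit 14095893) [(nat_lit 0), (nat_lit 0), (nat_lit 3731619), (nat_lit 0)]) (PF.cons (PF.leaf (nat_lit 5331386) (nat_lit 509825) (nat_lit 45064403) (nat_lit 14037526) [(nat_lit 509825), (nat_lit 0), (nat_lit 3748528), (nat_lit 0)]) (PF.cons (PF.leaf (nat_lit 5643085) (nat_lit 524717) (nat_lit 44557889) (nat_lit 13973985) [(nat_lit 524717), (nat_lit 0), (nat_lit 3763751), (nat_lit 0)]) (PF.cons (PF.leaf (nat_lit 5967694) (nat_lit 537860) (nat_lit 44035447) (nat_lit 13905692) [(nat_lit 537860), (nat_lit 0), (nat_lit 3777045), (nat_lit 0)]) (PF.cons (PF.leaf (nat_lit 6302890) (nat_lit 549528) (nat_lit 43501129) (nat_lit 13833003) [(nat_lit 549528), (nat_lit 0), (nat_lit 3788283), (nat_lit 0)]) (PF.cons (PF.leaf (nat_lit 6646777) (nat_lit 559920) (nat_lit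 42958156) (nat_lit 13756240) [(nat_lit 559920), (nat_lit 0), (nat_lit 3797407), (nat_lit 0)]) (PF.cons (PF.leaf (nat_lit 6997771) (nat_lit 569186) (nat_lit 42409166) (nat_lit 13675706) [(nat_lit 569186), (nat_lit 0), (nat_lit 3804412), (nat_lit 0)]) (PF.cons PF.nil (PF.cons PF.nil PF.nil))))))))) (PF.cons (PF.cons (PF.leaf (nat_lit 5768285) (nat_lit 1686457) (nat_lit 43988932) (nat_lit 13894690) [(nat_lit 0), (nat_lit
 1686457), (nat_lit 3769366), (nat_lit 0)]) (PF.cons (PF.leaf (nat_lit 6084389) (nat_lit 539015) (nat_lit 43480861) (nat_lit 13825466) [(nat_lit 539015), (nat_lit 1702700), (nat_lit 3780384), (nat_lit 0)]) (PF.cons (PF.leaf (nat_lit 6412343) (nat_lit 550509) (nat_lit 42959545) (nat_lit 13751786) [(nat_lit 550509), (nat_lit 1717373), (nat_lit 3789543), (nat_lit 0)]) (PF.cons (PF.leaf (nat_lit 6749632) (nat_lit 560689) (nat_lit 42428696) (nat_lit 13674042) [(nat_lit 560689), (nat_lit 1730480), (nat_lit 3796762), (nat_lit 0)]) (PF.cons (PF.leaf (nat_lit 7094492)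 (nat_lit 569724) (nat_lit 41891243) (nat_lit 13592580) [(nat_lit 569724), (nat_lit 1742054), (nat_lit 3802018), (nat_lit 0)]) (PF.cons PF.nil (PF.cons PF.nil PF.nil))))))) (PF.cons (PF.cons (PF.leaf (nat_lit 6522970) (nat_lit 1721473) (nat_lit 42419192) (nat_lit 13668090) [(nat_lit 0), (nat_lit 1721473), (nat_lit 3789291), (nat_lit 0)]) (PF.cons (PF.leaf (nat_lit 6852687) (nat_lit 560976) (nat_lit 41901818) (nat_lit 13589749) [(nat_lit 560976), (nat_lit 1733397), (nat_lit 3794737), (nat_lit 0)]) (PF.cons (PF.leaf (nat_lit 7190924) (nat_lit 569849) (nat_lit 41376885) (nat_lit 13507683) [(nat_lit 569849), (nat_lit 1743905),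
 (nat_lit 3798367), (nat_lit 0)]) (PF.cons (PF.leaf (nat_lit 7535747) (nat_lit 577688) (nat_lit 40847062) (nat_lit 13422253) [(nat_lit 577688), (nat_lit 1753031), (nat_lit 3800183), (nat_lit 0)]) (PF.cons PF.nil PF.nil))))) (PF.cons (PF.cons (PF.leaf (nat_lit 7287922) (nat_lit 1745073) (nat_lit 40865542) (nat_lit 13421010) [(nat_lit 0), (nat_lit 1745073), (nat_lit 3793520), (nat_lit 0)]) (PF.cons (PF.leaf (nat_lit 7625877) (nat_lit 577262) (nat_lit 40348451) (nat_lit 13335317) [(nat_lit 577262), (nat_lit 1753290), (nat_lit 3793955), (nat_lit 0)]) (PF.cons PF.nil (PF.cons PF.nil PF.nil)))) (PF.cons (PF.cons (PF.leaf (nat_lit 8054037) (nat_lit 1759149) (nat_lit 39345409) (nat_lit 13158217) [(nat_lit 0), (nat_lit 1759149), (nat_lit 3784294), (nat_lit 0)]) (PF.cons PF.nil PF.nil)) (PF.cons PF.nil PF.nil)))))) (PF.cons (PF.cons (PF.cons (PF.leaf (nat_lit 6296203) (nat_lit 3766264) (nat_lit 42193466) (nat_lit 13616552) [(nat_lit 0), (nat_lit 0), (nat_lit 3766264), (nat_lit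 0)]) (PF.cons (PF.leaf (nat_lit 6610153) (nat_lit 546380) (nat_lit 41703870) (nat_lit 13541942) [(nat_lit 546380), (nat_lit 0), (nat_lit 3772206), (nat_lit 0)]) (PF.cons (PF.leaf (nat_lit 6934917) (nat_lit 556651)
 (nat_lit 41202889) (nat_lit 13463258) [(nat_lit 556651), (nat_lit 0), (nat_lit 3776454), (nat_lit 0)]) (PF.cons (PF.leaf (nat_lit 7268066) (nat_lit 565650) (nat_lit 40694008) (nat_lit 13380946) [(nat_lit 565650), (nat_lit 0), (nat_lit 3778968), (nat_lit 0)]) (PF.cons (PF.leaf (nat_lit 7607888) (nat_lit 573557) (nat_lit 40179945) (nat_lit 13295381) [(nat_lit 573557), (nat_lit 0), (nat_lit 3779752), (nat_lit 0)]) (PF.cons PF.nil (PF.cons PF.nil PF.nil))))))) (PF.cons (PF.cons (PF.leaf (nat_lit 7037166) (nat_lit 1726678) (nat_lit 40689939) (nat_lit 13376063) [(nat_lit 0), (nat_lit 1726678), (nat_lit 3772043), (nat_lit 0)]) (PF.cons (PF.leaf (nat_lit 7362710) (nat_lit 565093) (nat_lit 40194661) (nat_lit 13293726) [(nat_lit 565093), (nat_lit 1735831), (nat_lit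 3773166), (nat_lit 0)]) (PF.cons (PF.leaf (nat_lit 7695931) (nat_lit 572911) (nat_lit 39693173) (nat_lit 13208092) [(nat_lit 572911), (nat_lit 1743699), (nat_lit 3772674), (nat_lit 0)]) (PF.cons PF.nil (PF.cons PF.nil PF.nil))))) (PF.cons (PF.cons (PF.leaf (nat_lit 7784785) (nat_lit 1742928) (nat_lit 39209631) (nat_lit 13119437) [(nat_lit 0), (nat_lit 1742928), (nat_lit 3764629), (nat_lit 0)]) (PF.cons (PF.leaf (nat_lit 8117027)
 (nat_lit 578655) (nat_lit 38717005) (nat_lit 13031092) [(nat_lit 578655), (nat_lit 1748823), (nat_lit 3761470), (nat_lit 0)]) (PF.cons PF.nil (PF.cons PF.nil PF.nil)))) (PF.cons (PF.cons (PF.leaf (nat_lit 8531070) (nat_lit 1750989) (nat_lit 37766834) (nat_lit 12851015) [(nat_lit 0), (nat_lit 1750989), (nat_lit 3745998), (nat_lit 0)]) (PF.cons PF.nil PF.nil)) (PF.cons PF.nil PF.nil))))) (PF.cons (PF.cons (PF.cons (PF.leaf (nat_lit 7529319) (nat_lit 3744251) (nat_lit 39054575) (nat_lit 13077231) [(nat_lit 0), (nat_lit 0), (nat_lit 3744251), (nat_lit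 0)]) (PF.cons (PF.leaf (nat_lit 7850068) (nat_lit 567031) (nat_lit 38581970) (nat_lit 12992315) [(nat_lit 567031), (nat_lit 0), (nat_lit 3741873), (nat_lit 0)]) (PF.cons (PF.leaf (nat_lit 8177787) (nat_lit 573933) (nat_lit 38104231) (nat_lit 12904484) [(nat_lit 573933), (nat_lit 0), (nat_lit 3738057), (nat_lit 0)]) (PF.cons PF.nil PF.nil)))) (PF.cons (PF.cons (PF.leaf (nat_lit 8259097) (nat_lit 1735756) (nat_lit 37647835) (nat_lit 12815061) [(nat_lit 0), (nat_lit 1735756), (nat_lit 3727539), (nat_lit 0)]) (PF.cons (PF.leaf (nat_lit 8585303) (nat_lit 578279) (nat_lit 37179542) (nat_lit 12725280) [(nat_lit 578279), (nat_lit 1739720),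
 (nat_lit 3721497), (nat_lit 0)]) PF.nil)) (PF.cons PF.nil PF.nil))) (PF.cons (PF.cons (PF.cons (PF.leaf (nat_lit 8712111) (nat_lit 3684216) (nat_lit 36176556) (nat_lit 12511175) [(nat_lit 0), (nat_lit 0), (nat_lit 3684216), (nat_lit 0)]) (PF.cons PF.nil PF.nil)) (PF.cons PF.nil PF.nil)) (PF.cons PF.nil (PF.cons PF.nil PF.nil)))))))) (PF.cons (PF.cons (PF.cons (PF.cons (PF.leaf (nat_lit 4645898) (nat_lit 8807090) (nat_lit 44457062) (nat_lit 13844660) [(nat_lit 0), (nat_lit 0), (nat_lit 0), (nat_lit 8807090)]) (PF.cons (PF.leaf (nat_lit 4901223) (nat_lit 459984) (nat_lit 44056260) (nat_lit 13795798) [(nat_lit 459984), (nat_lit 0), (nat_lit 0), (nat_lit 8796770)]) (PF.cons (PF.leaf (nat_lit 5178661) (nat_lit 479599) (nat_lit 43624778) (nat_lit 13741236) [(nat_lit 479599), (nat_lit 0), (nat_lit 0), (nat_lit 8783598)]) (PF.cons (PF.leaf (nat_lit 5473393) (nat_lit 496600) (nat_lit 43169953) (nat_lit 13681570) [(nat_lit 496600), (nat_lit 0), (nat_lit 0), (nat_lit 8767488)])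 (PF.cons (PF.leaf (nat_lit 5782242) (nat_lit 511503) (nat_lit 42697145) (nat_lit 13617247) [(nat_lit 511503), (nat_lit 0), (nat_lit 0), (nat_lit 8748404)]) (PF.cons (PF.leaf (nat_lit 6102734) (nat_lit 524665) (nat_lit
 42210495) (nat_lit 13548636) [(nat_lit 524665), (nat_lit 0), (nat_lit 0), (nat_lit 8726352)]) (PF.cons (PF.leaf (nat_lit 6432882) (nat_lit 536341) (nat_lit 41713321) (nat_lit 13476066) [(nat_lit 536341), (nat_lit 0), (nat_lit 0), (nat_lit 8701375)]) (PF.cons (PF.leaf (nat_lit 6770998) (nat_lit 546725) (nat_lit 41208351) (nat_lit 13399836) [(nat_lit 546725), (nat_lit 0), (nat_lit 0), (nat_lit 8673546)]) (PF.cons (PF.leaf (nat_lit 7115669) (nat_lit 555968) (nat_lit 40697867) (nat_lit 13320232) [(nat_lit 555968), (nat_lit 0), (nat_lit 0), (nat_lit 8642961)]) (PF.cons PF.nil PF.nil)))))))))) (PF.cons (PF.cons (PF.leaf (nat_lit 5312591) (nat_lit 1606002) (nat_lit 43080086) (nat_lit 13664881) [(nat_lit 0), (nat_lit 1606002), (nat_lit 0), (nat_lit 8757842)])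 (PF.cons (PF.leaf (nat_lit 5597570) (nat_lit 498528) (nat_lit 42639354) (nat_lit 13604630) [(nat_lit 498528), (nat_lit 1626450), (nat_lit 0), (nat_lit 8739848)]) (PF.cons (PF.leaf (nat_lit 5898465) (nat_lit 513233) (nat_lit 42178775) (nat_lit 13539537) [(nat_lit 513233), (nat_lit 1645124), (nat_lit 0), (nat_lit 8718908)]) (PF.cons (PF.leaf (nat_lit 6211933) (nat_lit 526143) (nat_lit 41703242) (nat_lit 13470084) [(nat_lit 526143),
 (nat_lit 1661990), (nat_lit 0), (nat_lit 8695064)]) (PF.cons (PF.leaf (nat_lit 6535678) (nat_lit 537546) (nat_lit 41216497) (nat_lit 13396667) [(nat_lit 537546), (nat_lit 1677079), (nat_lit 0), (nat_lit 8668383)]) (PF.cons (PF.leaf (nat_lit 6867851) (nat_lit 547651) (nat_lit 40721519) (nat_lit 13319628) [(nat_lit 547651), (nat_lit 1690457), (nat_lit 0), (nat_lit 8638950)]) (PF.cons (PF.leaf (nat_lit 7206918) (nat_lit 556619) (nat_lit 40220741) (nat_lit 13239281) [(nat_lit 556619), (nat_lit 1702201), (nat_lit 0), (nat_lit 8606869)]) (PF.cons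 PF.nil (PF.cons PF.nil PF.nil))))))))) (PF.cons (PF.cons (PF.leaf (nat_lit 6016899) (nat_lit 1651902) (nat_lit 41658940) (nat_lit 13459070) [(nat_lit 0), (nat_lit 1651902), (nat_lit 0), (nat_lit 8686996)]) (PF.cons (PF.leaf (nat_lit 6322022) (nat_lit 527002) (nat_lit 41196434) (nat_lit 13389221) [(nat_lit 527002), (nat_lit 1667258), (nat_lit 0), (nat_lit 8661638)]) (PF.cons (PF.leaf (nat_lit 6638691) (nat_lit 538234) (nat_lit 40721481) (nat_lit 13315318) [(nat_lit 538234), (nat_lit 1681025), (nat_lit 0), (nat_lit 8633491)]) (PF.cons (PF.leaf (nat_lit 6964450) (nat_lit 548138) (nat_lit 40237495) (nat_lit 13237774) [(nat_lit 548138), (nat_lit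
 1693230), (nat_lit 0), (nat_lit 8602666)]) (PF.cons (PF.leaf (nat_lit 7297577) (nat_lit 556892) (nat_lit 39747171) (nat_lit 13156943) [(nat_lit 556892), (nat_lit 1703924), (nat_lit 0), (nat_lit 8569280)]) (PF.cons (PF.leaf (nat_lit 7636653) (nat_lit 564634) (nat_lit 39252692) (nat_lit 13073141) [(nat_lit 564634), (nat_lit 1713174), (nat_lit 0), (nat_lit 8533459)]) (PF.cons PF.nil PF.nil))))))) (PF.cons (PF.cons (PF.leaf (nat_lit 6743008) (nat_lit 1684189) (nat_lit 40227556) (nat_lit 13231965) [(nat_lit 0), (nat_lit 1684189), (nat_lit 0), (nat_lit 8596721)]) (PF.cons (PF.leaf (nat_lit 7061398) (nat_lit 548172) (nat_lit 39755780) (nat_lit 13154258) [(nat_lit 548172), (nat_lit 1695290), (nat_lit 0), (nat_lit 8564731)]) (PF.cons (PF.leaf (nat_lit 7388125) (nat_lit 556779) (nat_lit 39276791) (nat_lit 13073227) [(nat_lit 556779), (nat_lit 1704998), (nat_lit 0), (nat_lit 8530239)]) (PF.cons (PF.leaf (nat_lit 7721288) (nat_lit 564355) (nat_lit 38793037) (nat_lit 12989234) [(nat_lit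 564355), (nat_lit 1713362), (nat_lit 0), (nat_lit 8493385)]) (PF.cons PF.nil PF.nil))))) (PF.cons (PF.cons (PF.leaf (nat_lit 7479410) (nat_lit 1705463) (nat_lit 38809079) (nat_lit 12988108) [(nat_lit 0),
 (nat_lit 1705463), (nat_lit 0), (nat_lit 8489771)]) (PF.cons (PF.leaf (nat_lit 7805937) (nat_lit 563735) (nat_lit 38336835) (nat_lit 12904190) [(nat_lit 563735), (nat_lit 1712995), (nat_lit 0), (nat_lit 8452069)]) (PF.cons (PF.leaf (nat_lit 8138351) (nat_lit 570278) (nat_lit 37861141) (nat_lit 12817617) [(nat_lit 570278), (nat_lit 1719322), (nat_lit 0), (nat_lit 8412205)]) (PF.cons PF.nil PF.nil)))) (PF.cons (PF.cons (PF.leaf (nat_lit 8217535) (nat_lit 1717728) (nat_lit 37419409) (nat_lit 12731716) [(nat_lit 0), (nat_lit 1717728), (nat_lit 0), (nat_lit 8369046)]) (PF.cons PF.nil PF.nil)) (PF.cons PF.nil (PF.cons PF.nil PF.nil)))))))) (PF.cons (PF.cons (PF.cons (PF.leaf (nat_lit 5823164) (nat_lit 3666134) (nat_lit 41391235) (nat_lit 13401128) [(nat_lit 0), (nat_lit 0),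 (nat_lit 3666134), (nat_lit 8650315)]) (PF.cons (PF.leaf (nat_lit 6108562) (nat_lit 508673) (nat_lit 40962402) (nat_lit 13335801) [(nat_lit 508673), (nat_lit 0), (nat_lit 3675324), (nat_lit 8626610)]) (PF.cons (PF.leaf (nat_lit 6408704) (nat_lit 521998) (nat_lit 40515933) (nat_lit 13265877) [(nat_lit 521998), (nat_lit 0), (nat_lit 3682949), (nat_lit 8600055)]) (PF.cons (PF.leaf (nat_lit 6720325) (nat_lit 533577)
 (nat_lit 40056501) (nat_lit 13191915) [(nat_lit 533577), (nat_lit 0), (nat_lit 3688880), (nat_lit 8570782)]) (PF.cons (PF.leaf (nat_lit 7041197) (nat_lit 543708) (nat_lit 39587628) (nat_lit 13114361) [(nat_lit 543708), (nat_lit 0), (nat_lit 3693067), (nat_lit 8538920)]) (PF.cons (PF.leaf (nat_lit 7369555) (nat_lit 552607) (nat_lit 39112078) (nat_lit 13033593) [(nat_lit 552607), (nat_lit 0), (nat_lit 3695506), (nat_lit 8504597)]) (PF.cons (PF.leaf (nat_lit 7703947) (nat_lit 560436) (nat_lit 38632081) (nat_lit 12949939) [(nat_lit 560436), (nat_lit 0), (nat_lit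 3696226), (nat_lit 8467947)]) (PF.cons PF.nil (PF.cons PF.nil PF.nil))))))))) (PF.cons (PF.cons (PF.leaf (nat_lit 6519424) (nat_lit 1662880) (nat_lit 40019716) (nat_lit 13181766) [(nat_lit 0), (nat_lit 1662880), (nat_lit 3681385), (nat_lit 8563063)]) (PF.cons (PF.leaf (nat_lit 6822594) (nat_lit 533442) (nat_lit 39573716) (nat_lit 13107955) [(nat_lit 533442), (nat_lit 1675189), (nat_lit 3685721), (nat_lit 8532787)]) (PF.cons (PF.leaf (nat_lit 7136334) (nat_lit 543500) (nat_lit 39116942) (nat_lit 13030425) [(nat_lit 543500), (nat_lit 1686047), (nat_lit 3688459), (nat_lit 8499936)]) (PF.cons (PF.leaf (nat_lit 7458267) (nat_lit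
 552282) (nat_lit 38652598) (nat_lit 12949626) [(nat_lit 552282), (nat_lit 1695494), (nat_lit 3689578), (nat_lit 8464667)]) (PF.cons (PF.leaf (nat_lit 7786750) (nat_lit 559972) (nat_lit 38183181) (nat_lit 12865934) [(nat_lit 559972), (nat_lit 1703587), (nat_lit 3689092), (nat_lit 8427129)]) (PF.cons PF.nil (PF.cons PF.nil PF.nil))))))) (PF.cons (PF.cons (PF.leaf (nat_lit 7232989) (nat_lit 1686988) (nat_lit 38647768) (nat_lit 12944873) [(nat_lit 0), (nat_lit 1686988), (nat_lit 3682777), (nat_lit 8459416)]) (PF.cons (PF.leaf (nat_lit 7547565) (nat_lit 551555) (nat_lit 38195707) (nat_lit 12864362) [(nat_lit 551555), (nat_lit 1695547), (nat_lit 3682681), (nat_lit 8423410)]) (PF.cons (PF.leaf (nat_lit 7869685) (nat_lit 559168) (nat_lit 37737636) (nat_lit 12780891) [(nat_lit 559168), (nat_lit 1702848), (nat_lit 3681086), (nat_lit 8385163)]) (PF.cons (PF.leaf (nat_lit 8197527) (nat_lit 565802) (nat_lit 37275823) (nat_lit 12694831) [(nat_lit 565802), (nat_lit 1708943), (nat_lit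 3678022), (nat_lit 8344839)]) (PF.cons PF.nil PF.nil))))) (PF.cons (PF.cons (PF.leaf (nat_lit 7953572) (nat_lit 1701611) (nat_lit 37294910) (nat_lit 12694764) [(nat_lit 0), (nat_lit 1701611), (nat_lit 3672245),
 (nat_lit 8342056)]) (PF.cons (PF.leaf (nat_lit 8274862) (nat_lit 564594) (nat_lit 36844459) (nat_lit 12609146) [(nat_lit 564594), (nat_lit 1707039), (nat_lit 3668256), (nat_lit 8301236)]) (PF.cons PF.nil (PF.cons PF.nil PF.nil)))) (PF.cons (PF.cons (PF.leaf (nat_lit 8673621) (nat_lit 1708490) (nat_lit 35974264) (nat_lit 12435276) [(nat_lit 0), (nat_lit 1708490), (nat_lit 3651668), (nat_lit 8213640)]) (PF.cons PF.nil PF.nil)) (PF.cons PF.nil PF.nil)))))) (PF.cons (PF.cons (PF.cons (PF.leaf (nat_lit 7003177) (nat_lit 3660684) (nat_lit 38462931) (nat_lit 12897428) [(nat_lit 0), (nat_lit 0), (nat_lit 3660684), (nat_lit 8427083)]) (PF.cons (PF.leaf (nat_lit 7303517) (nat_lit 537500) (nat_lit 38034628) (nat_lit 12820904) [(nat_lit 537500), (nat_lit 0), (nat_lit 3661391),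 (nat_lit 8392995)]) (PF.cons (PF.leaf (nat_lit 7613607) (nat_lit 546533) (nat_lit 37596938) (nat_lit 12740980) [(nat_lit 546533), (nat_lit 0), (nat_lit 3660644), (nat_lit 8356537)]) (PF.cons (PF.leaf (nat_lit 7931119) (nat_lit 554342) (nat_lit 37152861) (nat_lit 12658127) [(nat_lit 554342), (nat_lit 0), (nat_lit 3658447), (nat_lit 8317901)]) (PF.cons (PF.leaf (nat_lit 8254483) (nat_lit 561112) (nat_lit 36704710)
 (nat_lit 12572732) [(nat_lit 561112), (nat_lit 0), (nat_lit 3654830), (nat_lit 8277257)]) PF.nil))))) (PF.cons (PF.cons (PF.leaf (nat_lit 7703091) (nat_lit 1684283) (nat_lit 37152352) (nat_lit 12654400) [(nat_lit 0), (nat_lit 1684283), (nat_lit 3652209), (nat_lit 8313357)]) (PF.cons (PF.leaf (nat_lit 8013305) (nat_lit 553003) (nat_lit 36720416) (nat_lit 12572195) [(nat_lit 553003), (nat_lit 1690718), (nat_lit 3649072), (nat_lit 8274333)]) (PF.cons (PF.leaf (nat_lit 8330389) (nat_lit 559754) (nat_lit 36283437) (nat_lit 12487354) [(nat_lit 559754), (nat_lit 1696010),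 (nat_lit 3644598), (nat_lit 8233304)]) (PF.cons PF.nil PF.nil)))) (PF.cons (PF.cons (PF.leaf (nat_lit 8407440) (nat_lit 1693419) (nat_lit 35865010) (nat_lit 12401149) [(nat_lit 0), (nat_lit 1693419), (nat_lit 3633686), (nat_lit 8188440)]) (PF.cons (PF.leaf (nat_lit 8723205) (nat_lit 563895) (nat_lit 35436164) (nat_lit 12314776) [(nat_lit 563895), (nat_lit 1697093), (nat_lit 3627208), (nat_lit 8145372)]) PF.nil)) (PF.cons PF.nil (PF.cons PF.nil PF.nil))))) (PF.cons (PF.cons (PF.cons (PF.leaf (nat_lit 8154106) (nat_lit 3614883) (nat_lit 35739008) (nat_lit 12363665) [(nat_lit 0), (nat_lit 0), (nat_lit 3614883), (nat_lit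
 8161487)]) (PF.cons (PF.leaf (nat_lit 8459559) (nat_lit 552870) (nat_lit 35327145) (nat_lit 12280662) [(nat_lit 552870), (nat_lit 0), (nat_lit 3609290), (nat_lit 8120264)]) (PF.cons (PF.leaf (nat_lit 8771327) (nat_lit 558871) (nat_lit 34911016) (nat_lit 12195309) [(nat_lit 558871), (nat_lit 0), (nat_lit 3602498), (nat_lit 8077246)]) (PF.cons PF.nil PF.nil)))) (PF.cons (PF.cons (PF.leaf (nat_lit 8842069) (nat_lit 1681787) (nat_lit 34515939) (nat_lit 12109742) [(nat_lit 0), (nat_lit 1681787), (nat_lit 3590006), (nat_lit 8031324)]) (PF.cons PF.nil PF.nil)) (PF.cons PF.nil PF.nil))) (PF.cons (PF.cons (PF.cons (PF.leaf (nat_lit 9258558) (nat_lit 3542514) (nat_lit 33243742) (nat_lit 11822417) [(nat_lit 0), (nat_lit 0), (nat_lit 3542514), (nat_lit 7872594)]) (PF.cons PF.nil PF.nil)) (PF.cons PF.nil PF.nil)) (PF.cons PF.nil PF.nil)))))) (PF.cons (PF.cons (PF.cons (PF.cons (PF.leaf (nat_lit 6525004) (nat_lit 8290870) (nat_lit 37819027) (nat_lit 12708044) [(nat_lit 0), (nat_lit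 0), (nat_lit 0), (nat_lit 8290870)]) (PF.cons (PF.leaf (nat_lit 6800021) (nat_lit 502394) (nat_lit 37441262) (nat_lit 12640871) [(nat_lit 502394), (nat_lit 0), (nat_lit 0), (nat_lit 8262141)]) (PF.cons (PF.leaf
 (nat_lit 7088555) (nat_lit 514454) (nat_lit 37048599) (nat_lit 12569608) [(nat_lit 514454), (nat_lit 0), (nat_lit 0), (nat_lit 8230847)]) (PF.cons (PF.leaf (nat_lit 7387450) (nat_lit 524800) (nat_lit 36645125) (nat_lit 12494873) [(nat_lit 524800), (nat_lit 0), (nat_lit 0), (nat_lit 8197206)]) (PF.cons (PF.leaf (nat_lit 7694587) (nat_lit 533741) (nat_lit 36233893) (nat_lit 12417142) [(nat_lit 533741), (nat_lit 0), (nat_lit 0), (nat_lit 8161404)]) (PF.cons (PF.leaf (nat_lit 8008319) (nat_lit 541502) (nat_lit 35817279) (nat_lit 12336807) [(nat_lit 541502), (nat_lit 0), (nat_lit 0), (nat_lit 8123605)]) (PF.cons PF.nil PF.nil))))))) (PF.cons (PF.cons (PF.leaf (nat_lit 7187359) (nat_lit 1626715) (nat_lit 36616078) (nat_lit 12485832) [(nat_lit 0), (nat_lit 1626715),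 (nat_lit 0), (nat_lit 8190093)]) (PF.cons (PF.leaf (nat_lit 7477980) (nat_lit 523805) (nat_lit 36224758) (nat_lit 12411861) [(nat_lit 523805), (nat_lit 1636220), (nat_lit 0), (nat_lit 8156083)]) (PF.cons (PF.leaf (nat_lit 7778217) (nat_lit 532748) (nat_lit 35824432) (nat_lit 12334729) [(nat_lit 532748), (nat_lit 1644387), (nat_lit 0), (nat_lit 8119883)]) (PF.cons (PF.leaf (nat_lit 8085764) (nat_lit 540463) (nat_lit 35417866)
 (nat_lit 12254901) [(nat_lit 540463), (nat_lit 1651278), (nat_lit 0), (nat_lit 8081688)]) (PF.cons (PF.leaf (nat_lit 8399119) (nat_lit 547138) (nat_lit 35007200) (nat_lit 12172754) [(nat_lit 547138), (nat_lit 1656963), (nat_lit 0), (nat_lit 8041669)]) PF.nil))))) (PF.cons (PF.cons (PF.leaf (nat_lit 7863630) (nat_lit 1643300) (nat_lit 35416404) (nat_lit 12251228) [(nat_lit 0), (nat_lit 1643300), (nat_lit 0), (nat_lit 8077290)]) (PF.cons (PF.leaf (nat_lit 8164097) (nat_lit 539079) (nat_lit 35020774) (nat_lit 12172176) [(nat_lit 539079), (nat_lit 1649516),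 (nat_lit 0), (nat_lit 8038875)]) (PF.cons (PF.leaf (nat_lit 8471387) (nat_lit 545739) (nat_lit 34620164) (nat_lit 12090702) [(nat_lit 545739), (nat_lit 1654604), (nat_lit 0), (nat_lit 7998628)]) (PF.cons PF.nil PF.nil)))) (PF.cons (PF.cons (PF.leaf (nat_lit 8544898) (nat_lit 1651874) (nat_lit 34235572) (nat_lit 12007976) [(nat_lit 0), (nat_lit 1651874), (nat_lit 0), (nat_lit 7954819)]) (PF.cons (PF.leaf (nat_lit 8851052) (nat_lit 549776) (nat_lit 33841902) (nat_lit 11925260) [(nat_lit 549776), (nat_lit 1655401), (nat_lit 0), (nat_lit 7912834)]) PF.nil)) (PF.cons PF.nil PF.nil))))) (PF.cons (PF.cons (PF.cons (PF.leaf (nat_lit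
 7633906) (nat_lit 3540968) (nat_lit 35264239) (nat_lit 12208539) [(nat_lit 0), (nat_lit 0), (nat_lit 3540968), (nat_lit 8047532)]) (PF.cons (PF.leaf (nat_lit 7921415) (nat_lit 525671) (nat_lit 34888939) (nat_lit 12133436) [(nat_lit 525671), (nat_lit 0), (nat_lit 3538373), (nat_lit 8011196)]) (PF.cons (PF.leaf (nat_lit 8217846) (nat_lit 533743) (nat_lit 34505697) (nat_lit 12055435) [(nat_lit 533743), (nat_lit 0), (nat_lit 3534512), (nat_lit 7972840)]) (PF.cons (PF.leaf (nat_lit 8520961) (nat_lit 540640) (nat_lit 34117103) (nat_lit 11975009) [(nat_lit 540640), (nat_lit 0), (nat_lit 3529416), (nat_lit 7932680)]) (PF.cons PF.nil PF.nil))))) (PF.cons (PF.cons (PF.leaf (nat_lit 8297091) (nat_lit 1635729) (nat_lit 34119090) (nat_lit 11972270) [(nat_lit 0), (nat_lit 1635729), (nat_lit 3523821), (nat_lit 7928950)]) (PF.cons (PF.leaf (nat_lit 8593231) (nat_lit 538804) (nat_lit 33741182) (nat_lit 11892845) [(nat_lit 538804), (nat_lit 1640279), (nat_lit 3518090), (nat_lit 7888805)])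 (PF.cons (PF.leaf (nat_lit 8895645) (nat_lit 544747) (nat_lit 33359014) (nat_lit 11811248) [(nat_lit 544747), (nat_lit 1643805), (nat_lit 3511228), (nat_lit 7847010)]) (PF.cons PF.nil PF.nil)))) (PF.cons (PF.cons
 (PF.leaf (nat_lit 8963360) (nat_lit 1640113) (nat_lit 32995279) (nat_lit 11729455) [(nat_lit 0), (nat_lit 1640113), (nat_lit 3498835), (nat_lit 7802507)]) (PF.cons PF.nil PF.nil)) PF.nil))) (PF.cons (PF.cons (PF.cons (PF.leaf (nat_lit 8713958) (nat_lit 3481681) (nat_lit 32892149) (nat_lit 11696501) [(nat_lit 0), (nat_lit 0), (nat_lit 3481681), (nat_lit 7778399)]) (PF.cons (PF.leaf (nat_lit 9005513) (nat_lit 537360) (nat_lit 32531646) (nat_lit 11617275) [(nat_lit 537360), (nat_lit 0), (nat_lit 3474191), (nat_lit 7737073)]) (PF.cons PF.nil PF.nil))) (PF.cons (PF.cons (PF.leaf (nat_lit 9365257) (nat_lit 1625962) (nat_lit 31823609) (nat_lit 11455658) [(nat_lit 0), (nat_lit 1625962), (nat_lit 3452284), (nat_lit 7649507)]) PF.nil) PF.nil)) (PF.cons PF.nil (PF.cons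 PF.nil PF.nil))))) (PF.cons (PF.cons (PF.cons (PF.cons (PF.leaf (nat_lit 8203522) (nat_lit 7679349) (nat_lit 32507622) (nat_lit 11563140) [(nat_lit 0), (nat_lit 0), (nat_lit 0), (nat_lit 7679349)]) (PF.cons (PF.leaf (nat_lit 8479087) (nat_lit 512331) (nat_lit 32177521) (nat_lit 11491144) [(nat_lit 512331), (nat_lit 0), (nat_lit 0), (nat_lit 7642604)]) (PF.cons (PF.leaf (nat_lit 8762930) (nat_lit 519637) (nat_lit 31840571)
 (nat_lit 11416638) [(nat_lit 519637), (nat_lit 0), (nat_lit 0), (nat_lit 7604109)]) (PF.cons (PF.leaf (nat_lit 9052897) (nat_lit 525819) (nat_lit 31499018) (nat_lit 11340075) [(nat_lit 525819), (nat_lit 0), (nat_lit 0), (nat_lit 7564087)]) (PF.cons PF.nil PF.nil))))) (PF.cons (PF.cons (PF.leaf (nat_lit 8833860) (nat_lit 1584752) (nat_lit 31502737) (nat_lit 11338156) [(nat_lit 0), (nat_lit 1584752), (nat_lit 0), (nat_lit 7561055)]) (PF.cons (PF.leaf (nat_lit 9117144) (nat_lit 523672) (nat_lit 31170542) (nat_lit 11262763) [(nat_lit 523672), (nat_lit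 1587973), (nat_lit 0), (nat_lit 7521286)]) (PF.cons PF.nil (PF.cons PF.nil PF.nil)))) (PF.cons (PF.cons (PF.leaf (nat_lit 9466451) (nat_lit 1585931) (nat_lit 30516681) (nat_lit 11108940) [(nat_lit 0), (nat_lit 1585931), (nat_lit 0), (nat_lit 7437109)]) (PF.cons PF.nil PF.nil)) PF.nil))) (PF.cons (PF.cons (PF.cons (PF.leaf (nat_lit 9222008) (nat_lit 3350041) (nat_lit 30431631) (nat_lit 11080090) [(nat_lit 0), (nat_lit 0), (nat_lit 3350041), (nat_lit 7415682)]) (PF.cons (PF.leaf (nat_lit 9500937) (nat_lit 521401) (nat_lit 30114400) (nat_lit 11005442) [(nat_lit 521401), (nat_lit 0), (nat_lit 3341482), (nat_lit 7375361)]) PF.nil)) (PF.cons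
 PF.nil PF.nil)) (PF.cons PF.nil PF.nil))) (PF.cons (PF.cons (PF.cons (PF.cons (PF.leaf (nat_lit 9687988) (nat_lit 7076158) (nat_lit 28290333) (nat_lit 10513845) [(nat_lit 0), (nat_lit 0), (nat_lit 0), (nat_lit 7076158)]) (PF.cons (PF.leaf (nat_lit 9955418) (nat_lit 505521) (nat_lit 28009603) (nat_lit 10443999) [(nat_lit 505521), (nat_lit 0), (nat_lit 0), (nat_lit 7037422)]) PF.nil)) (PF.cons PF.nil PF.nil)) (PF.cons PF.nil PF.nil)) (PF.cons PF.nil (PF.cons PF.nil (PF.cons PF.nil PF.nil))))))))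

def p13_15_2_0 : pfC (piC [(nat_lit 36888796), (nat_lit 24534081), (nat_lit 18263511), (nat_lit 12310016)] (nat_lit 7360548)) p13_15_2 (nat_lit 4) (nat_lit 0) (nat_lit 1) = true := by decide +kernel
def p13_15_2_1 : pfC (piC [(nat_lit 36888796), (nat_lit 24534081), (nat_lit 18263511), (nat_lit 12310016)] (nat_lit 7360548)) p13_15_2 (nat_lit 4) (nat_lit 1) (nat_lit 2) = true := by decide +kernel
def p13_15_2_2 : pfC (piC [(nat_lit 36888796), (nat_lit 24534081), (nat_lit 18263511), (nat_lit 12310016)] (nat_lit 7360548)) p13_15_2 (nat_lit 4) (nat_lit 2) (nat_lit 3) = true := by decide +kernel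
def p13_15_2_3 : pfC (piC [(nat_lit 36888796), (nat_lit 24534081), (nat_lit 18263511), (nat_lit 12310016)] (nat_lit 7360548)) p13_15_2 (nat_lit 4) (nat_lit 3) (nat_lit 4) = true := by decide +kernel
def p13_15_2_4 : pfC (piC [(nat_lit 36888796), (nat_lit 24534081), (nat_lit 18263511), (nat_lit 12310016)] (nat_lit 7360548)) p13_15_2 (nat_lit 4) (nat_lit 4) (nat_lit 5) = true := by decide +kernel
def p13_15_2_5 : pfC (piC [(nat_lit 36888796), (nat_lit 24534081), (nat_lit 18263511), (nat_lit 12310016)] (nat_lit 7360548)) p13_15_2 (nat_lit 4) (nat_lit 5) (nat_lit 6) = true := by decide +kernel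
def p13_15_2_6 : pfC (piC [(nat_lit 36888796), (nat_lit 24534081), (nat_lit 18263511), (nat_lit 12310016)] (nat_lit 7360548)) p13_15_2 (nat_lit 4) (nat_lit 6) (nat_lit 7) = true := by decide +kernel
def p13_15_2_7 : pfC (piC [(nat_lit 36888796), (nat_lit 24534081), (nat_lit 18263511), (nat_lit 12310016)] (nat_lit 7360548)) p13_15_2 (nat_lit 4) (nat_lit 7) (nat_lit 8) = true := by decide +kernel
def p13_15_2_8 : pfC (piC [(nat_lit 36888796), (nat_lit 24534081), (nat_lit 18263511), (nat_lit 12310016)] (nat_lit 7360548)) p13_15_2 (nat_lit 4) (nat_lit 8) (nat_lit 9) = true := by decide +kernel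
def p13_15_2_9 : pfC (piC [(nat_lit 36888796), (nat_lit 24534081), (nat_lit 18263511), (nat_lit 12310016)] (nat_lit 7360548)) p13_15_2 (nat_lit 4) (nat_lit 9) (nat_lit 10) = true := by decide +kernel
def p13_15_2_10 : pfC (piC [(nat_lit 36888796), (nat_lit 24534081), (nat_lit 18263511), (nat_lit 12310016)] (nat_lit 7360548)) p13_15_2 (nat_lit 4) (nat_lit 10) (nat_lit 11) = true := by decide +kernel
def p13_15_2_11 : pfC (piC [(nat_lit 36888796), (nat_lit 24534081), (nat_lit 18263511), (nat_lit 12310016)] (nat_lit 7360548)) p13_15_2 (nat_lit 4) (nat_lit 11) (nat_lit 12) = true := by decide +kernel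
def p13_15_2_12 : pfC (piC [(nat_lit 36888796), (nat_lit 24534081), (nat_lit 18263511), (nat_lit 12310016)] (nat_lit 7360548)) p13_15_2 (nat_lit 4) (nat_lit 12) (nat_lit 13) = true := by decide +kernel
def p13_15_2_13 : pfC (piC [(nat_lit 36888796), (nat_lit 24534081), (nat_lit 18263511), (nat_lit 12310016)] (nat_lit 7360548)) p13_15_2 (nat_lit 4) (nat_lit 13) (nat_lit 14) = true := by decide +kernel
def p13_15_2_14 : pfC (piC [(nat_lit 36888796), (nat_lit 24534081), (nat_lit 18263511), (nat_lit 12310016)] (nat_lit 7360548)) p13_15_2 (nat_lit 4) (nat_lit 14) (nat_lit 15) = true := by decide +kernel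
def p13_15_2_15 : pfC (piC [(nat_lit 36888796), (nat_lit 24534081), (nat_lit 18263511), (nat_lit 12310016)] (nat_lit 7360548)) p13_15_2 (nat_lit 4) (nat_lit 15) (nat_lit 16) = true := by decide +kernel
def p13_15_2_16 : pfC (piC [(nat_lit 36888796), (nat_lit 24534081), (nat_lit 18263511), (nat_lit 12310016)] (nat_lit 7360548)) p13_15_2 (nat_lit 4) (nat_lit 16) (nat_lit 17) = true := by decide +kernel
def p13_15_2_17 : pfC (piC [(nat_lit 36888796), (nat_lit 24534081), (nat_lit 18263511), (nat_lit 12310016)] (nat_lit 7360548)) p13_15_2 (nat_lit 4) (nat_lit 17) (nat_lit 18) = true := by decide +kernel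
def p13_15_2_18 : pfC (piC [(nat_lit 36888796), (nat_lit 24534081), (nat_lit 18263511), (nat_lit 12310016)] (nat_lit 7360548)) p13_15_2 (nat_lit 4) (nat_lit 18) (nat_lit 19) = true := by decide +kernel
def p13_15_2_19 : pfC (piC [(nat_lit 36888796), (nat_lit 24534081), (nat_lit 18263511), (nat_lit 12310016)] (nat_lit 7360548)) p13_15_2 (nat_lit 4) (nat_lit 19) (nat_lit 20) = true := by decide +kernel
def p13_15_2_20 : pfC (piC [(nat_lit 36888796), (nat_lit 24534081), (nat_lit 18263511), (nat_lit 12310016)] (nat_lit 7360548)) p13_15_2 (nat_lit 4) (nat_lit 20) (nat_lit 21) = true := by decide +kernel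
def p13_15_2_21 : pfC (piC [(nat_lit 36888796), (nat_lit 24534081), (nat_lit 18263511), (nat_lit 12310016)] (nat_lit 7360548)) p13_15_2 (nat_lit 4) (nat_lit 21) (nat_lit 22) = true := by decide +kernel
def p13_15_2_22 : pfC (piC [(nat_lit 36888796), (nat_lit 24534081), (nat_lit 18263511), (nat_lit 12310016)] (nat_lit 7360548)) p13_15_2 (nat_lit 4) (nat_lit 22) (nat_lit 23) = true := by decide +kernel
def p13_15_2_23 : pfC (piC [(nat_lit 36888796), (nat_lit 24534081), (nat_lit 18263511), (nat_lit 12310016)] (nat_lit 7360548)) p13_15_2 (nat_lit 4) (nat_lit 23) (nat_lit 24) = true := by decide +kernel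
def p13_15_2_24 : pfC (piC [(nat_lit 36888796), (nat_lit 24534081), (nat_lit 18263511), (nat_lit 12310016)] (nat_lit 7360548)) p13_15_2 (nat_lit 4) (nat_lit 24) (nat_lit 25) = true := by decide +kernel
def p13_15_2_25 : pfC (piC [(nat_lit 36888796), (nat_lit 24534081), (nat_lit 18263511), (nat_lit 12310016)] (nat_lit 7360548)) p13_15_2 (nat_lit 4) (nat_lit 25) (nat_lit 26) = true := by decide +kernel
def p13_15_2_26 : pfC (piC [(nat_lit 36888796), (nat_lit 24534081), (nat_lit 18263511), (nat_lit 12310016)] (nat_lit 7360548)) p13_15_2 (nat_lit 4) (nat_lit 26) (nat_lit 27) = true := by decide +kernel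
def p13_15_2_27 : pfC (piC [(nat_lit 36888796), (nat_lit 24534081), (nat_lit 18263511), (nat_lit 12310016)] (nat_lit 7360548)) p13_15_2 (nat_lit 4) (nat_lit 27) (nat_lit 28) = true := by decide +kernel
def p13_15_2_28 : pfC (piC [(nat_lit 36888796), (nat_lit 24534081), (nat_lit 18263511), (nat_lit 12310016)] (nat_lit 7360548)) p13_15_2 (nat_lit 4) (nat_lit 28) (nat_lit 29) = true := by decide +kernel
def p13_15_2_29 : pfC (piC [(nat_lit 36888796), (nat_lit 24534081), (nat_lit 18263511), (nat_lit 12310016)] (nat_lit 7360548)) p13_15_2 (nat_lit 4) (nat_lit 29) (nat_lit 30) = true := by decide +kernel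
def p13_15_2_30 : pfC (piC [(nat_lit 36888796), (nat_lit 24534081), (nat_lit 18263511), (nat_lit 12310016)] (nat_lit 7360548)) p13_15_2 (nat_lit 4) (nat_lit 30) (nat_lit 31) = true := by decide +kernel
def p13_15_2_31 : pfC (piC [(nat_lit 36888796), (nat_lit 24534081), (nat_lit 18263511), (nat_lit 12310016)] (nat_lit 7360548)) p13_15_2 (nat_lit 4) (nat_lit 31) (nat_lit 32) = true := by decide +kernel
def p13_15_2_32 : pfC (piC [(nat_lit 36888796), (nat_lit 24534081), (nat_lit 18263511), (nat_lit 12310016)] (nat_lit 7360548)) p13_15_2 (nat_lit 4) (nat_lit 32) (nat_lit 33) = true := by decide +kernel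
def p13_15_2_33 : pfC (piC [(nat_lit 36888796), (nat_lit 24534081), (nat_lit 18263511), (nat_lit 12310016)] (nat_lit 7360548)) p13_15_2 (nat_lit 4) (nat_lit 33) (nat_lit 34) = true := by decide +kernel
def p13_15_2_34 : pfC (piC [(nat_lit 36888796), (nat_lit 24534081), (nat_lit 18263511), (nat_lit 12310016)] (nat_lit 7360548)) p13_15_2 (nat_lit 4) (nat_lit 34) (nat_lit 35) = true := by decide +kernel
def p13_15_2_35 : pfC (piC [(nat_lit 36888796), (nat_lit 24534081), (nat_lit 18263511), (nat_lit 12310016)] (nat_lit 7360548)) p13_15_2 (nat_lit 4) (nat_lit 35) (nat_lit 36) = true := by decide +kernel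
def p13_15_2_36 : pfC (piC [(nat_lit 36888796), (nat_lit 24534081), (nat_lit 18263511), (nat_lit 12310016)] (nat_lit 7360548)) p13_15_2 (nat_lit 4) (nat_lit 36) (nat_lit 37) = true := by decide +kernel
def p13_15_2_37 : pfC (piC [(nat_lit 36888796), (nat_lit 24534081), (nat_lit 18263511), (nat_lit 12310016)] (nat_lit 7360548)) p13_15_2 (nat_lit 4) (nat_lit 37) (nat_lit 38) = true := by decide +kernel
def p13_15_2_38 : pfC (piC [(nat_lit 36888796), (nat_lit 24534081), (nat_lit 18263511), (nat_lit 12310016)] (nat_lit 7360548)) p13_15_2 (nat_lit 4) (nat_lit 38) (nat_lit 39) = true := by decide +kernel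
def p13_15_2_39 : pfC (piC [(nat_lit 36888796), (nat_lit 24534081), (nat_lit 18263511), (nat_lit 12310016)] (nat_lit 7360548)) p13_15_2 (nat_lit 4) (nat_lit 39) (nat_lit 40) = true := by decide +kernel
def p13_15_2_40 : pfC (piC [(nat_lit 36888796), (nat_lit 24534081), (nat_lit 18263511), (nat_lit 12310016)] (nat_lit 7360548)) p13_15_2 (nat_lit 4) (nat_lit 40) (nat_lit 41) = true := by decide +kernel
def p13_15_2_41 : pfC (piC [(nat_lit 36888796), (nat_lit 24534081), (nat_lit 18263511), (nat_lit 12310016)] (nat_lit 7360548)) p13_15_2 (nat_lit 4) (nat_lit 41) (nat_lit 42) = true := by decide +kernel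
def p13_15_2_42 : pfC (piC [(nat_lit 36888796), (nat_lit 24534081), (nat_lit 18263511), (nat_lit 12310016)] (nat_lit 7360548)) p13_15_2 (nat_lit 4) (nat_lit 42) (nat_lit 43) = true := by decide +kernel
def p13_15_2_43 : pfC (piC [(nat_lit 36888796), (nat_lit 24534081), (nat_lit 18263511), (nat_lit 12310016)] (nat_lit 7360548)) p13_15_2 (nat_lit 4) (nat_lit 43) (nat_lit 44) = true := by decide +kernel
def p13_15_2_44 : pfC (piC [(nat_lit 36888796), (nat_lit 24534081), (nat_lit 18263511), (nat_lit 12310016)] (nat_lit 7360548)) p13_15_2 (nat_lit 4) (nat_lit 44) (nat_lit 45) = true := by decide +kernel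
def p13_15_2_45 : pfC (piC [(nat_lit 36888796), (nat_lit 24534081), (nat_lit 18263511), (nat_lit 12310016)] (nat_lit 7360548)) p13_15_2 (nat_lit 4) (nat_lit 45) (nat_lit 46) = true := by decide +kernel
def p13_15_2_46 : pfC (piC [(nat_lit 36888796), (nat_lit 24534081), (nat_lit 18263511), (nat_lit 12310016)] (nat_lit 7360548)) p13_15_2 (nat_lit 4) (nat_lit 46) (nat_lit 47) = true := by decide +kernel
def p13_15_2_47 : pfC (piC [(nat_lit 36888796), (nat_lit 24534081), (nat_lit 18263511), (nat_lit 12310016)] (nat_lit 7360548)) p13_15_2 (nat_lit 4) (nat_lit 47) (nat_lit 48) = true := by decide +kernel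
def p13_15_2_48 : pfC (piC [(nat_lit 36888796), (nat_lit 24534081), (nat_lit 18263511), (nat_lit 12310016)] (nat_lit 7360548)) p13_15_2 (nat_lit 4) (nat_lit 48) (nat_lit 49) = true := by decide +kernel
def p13_15_2_49 : pfC (piC [(nat_lit 36888796), (nat_lit 24534081), (nat_lit 18263511), (nat_lit 12310016)] (nat_lit 7360548)) p13_15_2 (nat_lit 4) (nat_lit 49) (nat_lit 50) = true := by decide +kernel
def p13_15_2_50 : pfC (piC [(nat_lit 36888796), (nat_lit 24534081), (nat_lit 18263511), (nat_lit 12310016)] (nat_lit 7360548)) p13_15_2 (nat_lit 4) (nat_lit 50) (nat_lit 51) = true := by decide +kernel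
def p13_15_2_51 : pfC (piC [(nat_lit 36888796), (nat_lit 24534081), (nat_lit 18263511), (nat_lit 12310016)] (nat_lit 7360548)) p13_15_2 (nat_lit 4) (nat_lit 51) (nat_lit 52) = true := by decide +kernel
def p13_15_2_52 : pfC (piC [(nat_lit 36888796), (nat_lit 24534081), (nat_lit 18263511), (nat_lit 12310016)] (nat_lit 7360548)) p13_15_2 (nat_lit 4) (nat_lit 52) (nat_lit 53) = true := by decide +kernel
def p13_15_2_53 : pfC (piC [(nat_lit 36888796), (nat_lit 24534081), (nat_lit 18263511), (nat_lit 12310016)] (nat_lit 7360548)) p13_15_2 (nat_lit 4) (nat_lit 53) (nat_lit 54) = true := by decide +kernel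
def p13_15_2_54 : pfC (piC [(nat_lit 36888796), (nat_lit 24534081), (nat_lit 18263511), (nat_lit 12310016)] (nat_lit 7360548)) p13_15_2 (nat_lit 4) (nat_lit 54) (nat_lit 55) = true := by decide +kernel
def p13_15_2_55 : pfC (piC [(nat_lit 36888796), (nat_lit 24534081), (nat_lit 18263511), (nat_lit 12310016)] (nat_lit 7360548)) p13_15_2 (nat_lit 4) (nat_lit 55) (nat_lit 56) = true := by decide +kernel
def p13_15_2_56 : pfC (piC [(nat_lit 36888796), (nat_lit 24534081), (nat_lit 18263511), (nat_lit 12310016)] (nat_lit 7360548)) p13_15_2 (nat_lit 4) (nat_lit 56) (nat_lit 57) = true := by decide +kernel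
def p13_15_2_57 : pfC (piC [(nat_lit 36888796), (nat_lit 24534081), (nat_lit 18263511), (nat_lit 12310016)] (nat_lit 7360548)) p13_15_2 (nat_lit 4) (nat_lit 57) (nat_lit 58) = true := by decide +kernel
def p13_15_2_58 : pfC (piC [(nat_lit 36888796), (nat_lit 24534081), (nat_lit 18263511), (nat_lit 12310016)] (nat_lit 7360548)) p13_15_2 (nat_lit 4) (nat_lit 58) (nat_lit 59) = true := by decide +kernel
def p13_15_2_59 : pfC (piC [(nat_lit 36888796), (nat_lit 24534081), (nat_lit 18263511), (nat_lit 12310016)] (nat_lit 7360548)) p13_15_2 (nat_lit 4) (nat_lit 59) (nat_lit 60) = true := by decide +kernel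
def p13_15_2_60 : pfC (piC [(nat_lit 36888796), (nat_lit 24534081), (nat_lit 18263511), (nat_lit 12310016)] (nat_lit 7360548)) p13_15_2 (nat_lit 4) (nat_lit 60) (nat_lit 61) = true := by decide +kernel
def p13_15_2_61 : pfC (piC [(nat_lit 36888796), (nat_lit 24534081), (nat_lit 18263511), (nat_lit 12310016)] (nat_lit 7360548)) p13_15_2 (nat_lit 4) (nat_lit 61) (nat_lit 62) = true := by decide +kernel
def p13_15_2_62 : pfC (piC [(nat_lit 36888796), (nat_lit 24534081), (nat_lit 18263511), (nat_lit 12310016)] (nat_lit 7360548)) p13_15_2 (nat_lit 4) (nat_lit 62) (nat_lit 63) = true := by decide +kernel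
def p13_15_2_63 : pfC (piC [(nat_lit 36888796), (nat_lit 24534081), (nat_lit 18263511), (nat_lit 12310016)] (nat_lit 7360548)) p13_15_2 (nat_lit 4) (nat_lit 63) (nat_lit 64) = true := by decide +kernel
def p13_15_2_64 : pfC (piC [(nat_lit 36888796), (nat_lit 24534081), (nat_lit 18263511), (nat_lit 12310016)] (nat_lit 7360548)) p13_15_2 (nat_lit 4) (nat_lit 64) (nat_lit 65) = true := by decide +kernel
def p13_15_2_65 : pfC (piC [(nat_lit 36888796), (nat_lit 24534081), (nat_lit 18263511), (nat_lit 12310016)] (nat_lit 7360548)) p13_15_2 (nat_lit 4) (nat_lit 65) (nat_lit 66) = true := by decide +kernel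
def p13_15_2_66 : pfC (piC [(nat_lit 36888796), (nat_lit 24534081), (nat_lit 18263511), (nat_lit 12310016)] (nat_lit 7360548)) p13_15_2 (nat_lit 4) (nat_lit 66) (nat_lit 67) = true := by decide +kernel
def p13_15_2_67 : pfC (piC [(nat_lit 36888796), (nat_lit 24534081), (nat_lit 18263511), (nat_lit 12310016)] (nat_lit 7360548)) p13_15_2 (nat_lit 4) (nat_lit 67) (nat_lit 68) = true := by decide +kernel
def p13_15_2_68 : pfC (piC [(nat_lit 36888796), (nat_lit 24534081), (nat_lit 18263511), (nat_lit 12310016)] (nat_lit 7360548)) p13_15_2 (nat_lit 4) (nat_lit 68) (nat_lit 69) = true := by decide +kernel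
def p13_15_2_69 : pfC (piC [(nat_lit 36888796), (nat_lit 24534081), (nat_lit 18263511), (nat_lit 12310016)] (nat_lit 7360548)) p13_15_2 (nat_lit 4) (nat_lit 69) (nat_lit 70) = true := by decide +kernel
def p13_15_2_70 : pfC (piC [(nat_lit 36888796), (nat_lit 24534081), (nat_lit 18263511), (nat_lit 12310016)] (nat_lit 7360548)) p13_15_2 (nat_lit 4) (nat_lit 70) (nat_lit 71) = true := by decide +kernel
def p13_15_2_71 : pfC (piC [(nat_lit 36888796), (nat_lit 24534081), (nat_lit 18263511), (nat_lit 12310016)] (nat_lit 7360548)) p13_15_2 (nat_lit 4) (nat_lit 71) (nat_lit 72) = true := by decide +kernel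
def p13_15_2_72 : pfC (piC [(nat_lit 36888796), (nat_lit 24534081), (nat_lit 18263511), (nat_lit 12310016)] (nat_lit 7360548)) p13_15_2 (nat_lit 4) (nat_lit 72) (nat_lit 73) = true := by decide +kernel
def p13_15_2_73 : pfC (piC [(nat_lit 36888796), (nat_lit 24534081), (nat_lit 18263511), (nat_lit 12310016)] (nat_lit 7360548)) p13_15_2 (nat_lit 4) (nat_lit 73) (nat_lit 74) = true := by decide +kernel
def p13_15_2_74 : pfC (piC [(nat_lit 36888796), (nat_lit 24534081), (nat_lit 18263511), (nat_lit 12310016)] (nat_lit 7360548)) p13_15_2 (nat_lit 4) (nat_lit 74) (nat_lit 75) = true := by decide +kernel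
def p13_15_2_75 : pfC (piC [(nat_lit 36888796), (nat_lit 24534081), (nat_lit 18263511), (nat_lit 12310016)] (nat_lit 7360548)) p13_15_2 (nat_lit 4) (nat_lit 75) (nat_lit 76) = true := by decide +kernel
def p13_15_2_76 : pfC (piC [(nat_lit 36888796), (nat_lit 24534081), (nat_lit 18263511), (nat_lit 12310016)] (nat_lit 7360548)) p13_15_2 (nat_lit 4) (nat_lit 76) (nat_lit 77) = true := by decide +kernel
def p13_15_2_77 : pfC (piC [(nat_lit 36888796), (nat_lit 24534081), (nat_lit 18263511), (nat_lit 12310016)] (nat_lit 7360548)) p13_15_2 (nat_lit 4) (nat_lit 77) (nat_lit 78) = true := by decide +kernel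
def p13_15_2_78 : pfC (piC [(nat_lit 36888796), (nat_lit 24534081), (nat_lit 18263511), (nat_lit 12310016)] (nat_lit 7360548)) p13_15_2 (nat_lit 4) (nat_lit 78) (nat_lit 79) = true := by decide +kernel
def p13_15_2_79 : pfC (piC [(nat_lit 36888796), (nat_lit 24534081), (nat_lit 18263511), (nat_lit 12310016)] (nat_lit 7360548)) p13_15_2 (nat_lit 4) (nat_lit 79) (nat_lit 80) = true := by decide +kernel
def p13_15_2_80 : pfC (piC [(nat_lit 36888796), (nat_lit 24534081), (nat_lit 18263511), (nat_lit 12310016)] (nat_lit 7360548)) p13_15_2 (nat_lit 4) (nat_lit 80) (nat_lit 81) = true := by decide +kernel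
def p13_15_2_81 : pfC (piC [(nat_lit 36888796), (nat_lit 24534081), (nat_lit 18263511), (nat_lit 12310016)] (nat_lit 7360548)) p13_15_2 (nat_lit 4) (nat_lit 81) (nat_lit 82) = true := by decide +kernel
def p13_15_2_82 : pfC (piC [(nat_lit 36888796), (nat_lit 24534081), (nat_lit 18263511), (nat_lit 12310016)] (nat_lit 7360548)) p13_15_2 (nat_lit 4) (nat_lit 82) (nat_lit 83) = true := by decide +kernel
def p13_15_2_83 : pfC (piC [(nat_lit 36888796), (nat_lit 24534081), (nat_lit 18263511), (nat_lit 12310016)] (nat_lit 7360548)) p13_15_2 (nat_lit 4) (nat_lit 83) (nat_lit 84) = true := by decide +kernel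
def p13_15_2_84 : pfC (piC [(nat_lit 36888796), (nat_lit 24534081), (nat_lit 18263511), (nat_lit 12310016)] (nat_lit 7360548)) p13_15_2 (nat_lit 4) (nat_lit 84) (nat_lit 85) = true := by decide +kernel
def p13_15_2_85 : pfC (piC [(nat_lit 36888796), (nat_lit 24534081), (nat_lit 18263511), (nat_lit 12310016)] (nat_lit 7360548)) p13_15_2 (nat_lit 4) (nat_lit 85) (nat_lit 86) = true := by decide +kernel
def p13_15_2_86 : pfC (piC [(nat_lit 36888796), (nat_lit 24534081), (nat_lit 18263511), (nat_lit 12310016)] (nat_lit 7360548)) p13_15_2 (nat_lit 4) (nat_lit 86) (nat_lit 87) = true := by decide +kernel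
def p13_15_2_87 : pfC (piC [(nat_lit 36888796), (nat_lit 24534081), (nat_lit 18263511), (nat_lit 12310016)] (nat_lit 7360548)) p13_15_2 (nat_lit 4) (nat_lit 87) (nat_lit 88) = true := by decide +kernel
def p13_15_2_88 : pfC (piC [(nat_lit 36888796), (nat_lit 24534081), (nat_lit 18263511), (nat_lit 12310016)] (nat_lit 7360548)) p13_15_2 (nat_lit 4) (nat_lit 88) (nat_lit 89) = true := by decide +kernel
def p13_15_2_89 : pfC (piC [(nat_lit 36888796), (nat_lit 24534081), (nat_lit 18263511), (nat_lit 12310016)] (nat_lit 7360548)) p13_15_2 (nat_lit 4) (nat_lit 89) (nat_lit 90) = true := by decide +kernel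
def p13_15_2_90 : pfC (piC [(nat_lit 36888796), (nat_lit 24534081), (nat_lit 18263511), (nat_lit 12310016)] (nat_lit 7360548)) p13_15_2 (nat_lit 4) (nat_lit 90) (nat_lit 91) = true := by decide +kernel
def p13_15_2_91 : pfC (piC [(nat_lit 36888796), (nat_lit 24534081), (nat_lit 18263511), (nat_lit 12310016)] (nat_lit 7360548)) p13_15_2 (nat_lit 4) (nat_lit 91) (nat_lit 92) = true := by decide +kernel
def p13_15_2_92 : pfC (piC [(nat_lit 36888796), (nat_lit 24534081), (nat_lit 18263511), (nat_lit 12310016)] (nat_lit 7360548)) p13_15_2 (nat_lit 4) (nat_lit 92) (nat_lit 93) = true := by decide +kernel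
def p13_15_2_93 : pfC (piC [(nat_lit 36888796), (nat_lit 24534081), (nat_lit 18263511), (nat_lit 12310016)] (nat_lit 7360548)) p13_15_2 (nat_lit 4) (nat_lit 93) (nat_lit 94) = true := by decide +kernel
def p13_15_2_94 : pfC (piC [(nat_lit 36888796), (nat_lit 24534081), (nat_lit 18263511), (nat_lit 12310016)] (nat_lit 7360548)) p13_15_2 (nat_lit 4) (nat_lit 94) (nat_lit 95) = true := by decide +kernel
def p13_15_2_95 : pfC (piC [(nat_lit 36888796), (nat_lit 24534081), (nat_lit 18263511), (nat_lit 12310016)] (nat_lit 7360548)) p13_15_2 (nat_lit 4) (nat_lit 95) (nat_lit 96) = true := by decide +kernel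
def p13_15_2_96 : pfC (piC [(nat_lit 36888796), (nat_lit 24534081), (nat_lit 18263511), (nat_lit 12310016)] (nat_lit 7360548)) p13_15_2 (nat_lit 4) (nat_lit 96) (nat_lit 97) = true := by decide +kernel
def p13_15_2_97 : pfC (piC [(nat_lit 36888796), (nat_lit 24534081), (nat_lit 18263511), (nat_lit 12310016)] (nat_lit 7360548)) p13_15_2 (nat_lit 4) (nat_lit 97) (nat_lit 98) = true := by decide +kernel
def p13_15_2_98 : pfC (piC [(nat_lit 36888796), (nat_lit 24534081), (nat_lit 18263511), (nat_lit 12310016)] (nat_lit 7360548)) p13_15_2 (nat_lit 4) (nat_lit 98) (nat_lit 99) = true := by decide +kernel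
def p13_15_2_99 : pfC (piC [(nat_lit 36888796), (nat_lit 24534081), (nat_lit 18263511), (nat_lit 12310016)] (nat_lit 7360548)) p13_15_2 (nat_lit 4) (nat_lit 99) (nat_lit 100) = true := by decide +kernel
def p13_15_2_100 : pfC (piC [(nat_lit 36888796), (nat_lit 24534081), (nat_lit 18263511), (nat_lit 12310016)] (nat_lit 7360548)) p13_15_2 (nat_lit 4) (nat_lit 100) (nat_lit 101) = true := by decide +kernel
def p13_15_2_101 : pfC (piC [(nat_lit 36888796), (nat_lit 24534081), (nat_lit 18263511), (nat_lit 12310016)] (nat_lit 7360548)) p13_15_2 (nat_lit 4) (nat_lit 101) (nat_lit 102) = true := by decide +kernel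
def p13_15_2_102 : pfC (piC [(nat_lit 36888796), (nat_lit 24534081), (nat_lit 18263511), (nat_lit 12310016)] (nat_lit 7360548)) p13_15_2 (nat_lit 4) (nat_lit 102) (nat_lit 103) = true := by decide +kernel
def p13_15_2_103 : pfC (piC [(nat_lit 36888796), (nat_lit 24534081), (nat_lit 18263511), (nat_lit 12310016)] (nat_lit 7360548)) p13_15_2 (nat_lit 4) (nat_lit 103) (nat_lit 104) = true := by decide +kernel
def p13_15_2_104 : pfC (piC [(nat_lit 36888796), (nat_lit 24534081), (nat_lit 18263511), (nat_lit 12310016)] (nat_lit 7360548)) p13_15_2 (nat_lit 4) (nat_lit 104) (nat_lit 105) = true := by decide +kernel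
def p13_15_2_105 : pfC (piC [(nat_lit 36888796), (nat_lit 24534081), (nat_lit 18263511), (nat_lit 12310016)] (nat_lit 7360548)) p13_15_2 (nat_lit 4) (nat_lit 105) (nat_lit 106) = true := by decide +kernel
def p13_15_2_106 : pfC (piC [(nat_lit 36888796), (nat_lit 24534081), (nat_lit 18263511), (nat_lit 12310016)] (nat_lit 7360548)) p13_15_2 (nat_lit 4) (nat_lit 106) (nat_lit 107) = true := by decide +kernel
def p13_15_2_107 : pfC (piC [(nat_lit 36888796), (nat_lit 24534081), (nat_lit 18263511), (nat_lit 12310016)] (nat_lit 7360548)) p13_15_2 (nat_lit 4) (nat_lit 107) (nat_lit 108) = true := by decide +kernel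
def p13_15_2_108 : pfC (piC [(nat_lit 36888796), (nat_lit 24534081), (nat_lit 18263511), (nat_lit 12310016)] (nat_lit 7360548)) p13_15_2 (nat_lit 4) (nat_lit 108) (nat_lit 109) = true := by decide +kernel
def p13_15_2_109 : pfC (piC [(nat_lit 36888796), (nat_lit 24534081), (nat_lit 18263511), (nat_lit 12310016)] (nat_lit 7360548)) p13_15_2 (nat_lit 4) (nat_lit 109) (nat_lit 110) = true := by decide +kernel
def p13_15_2_110 : pfC (piC [(nat_lit 36888796), (nat_lit 24534081), (nat_lit 18263511), (nat_lit 12310016)] (nat_lit 7360548)) p13_15_2 (nat_lit 4) (nat_lit 110) (nat_lit 111) = true := by decide +kernel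
def p13_15_2_111 : pfC (piC [(nat_lit 36888796), (nat_lit 24534081), (nat_lit 18263511), (nat_lit 12310016)] (nat_lit 7360548)) p13_15_2 (nat_lit 4) (nat_lit 111) (nat_lit 112) = true := by decide +kernel
def p13_15_2_112 : pfC (piC [(nat_lit 36888796), (nat_lit 24534081), (nat_lit 18263511), (nat_lit 12310016)] (nat_lit 7360548)) p13_15_2 (nat_lit 4) (nat_lit 112) (nat_lit 113) = true := by decide +kernel
def p13_15_2_113 : pfC (piC [(nat_lit 36888796), (nat_lit 24534081), (nat_lit 18263511), (nat_lit 12310016)] (nat_lit 7360548)) p13_15_2 (nat_lit 4) (nat_lit 113) (nat_lit 114) = true := by decide +kernel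
def p13_15_2_114 : pfC (piC [(nat_lit 36888796), (nat_lit 24534081), (nat_lit 18263511), (nat_lit 12310016)] (nat_lit 7360548)) p13_15_2 (nat_lit 4) (nat_lit 114) (nat_lit 115) = true := by decide +kernel
def p13_15_2_115 : pfC (piC [(nat_lit 36888796), (nat_lit 24534081), (nat_lit 18263511), (nat_lit 12310016)] (nat_lit 7360548)) p13_15_2 (nat_lit 4) (nat_lit 115) (nat_lit 116) = true := by decide +kernel
def p13_15_2_116 : pfC (piC [(nat_lit 36888796), (nat_lit 24534081), (nat_lit 18263511), (nat_lit 12310016)] (nat_lit 7360548)) p13_15_2 (nat_lit 4) (nat_lit 116) (nat_lit 117) = true := by decide +kernel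
def p13_15_2_117 : pfC (piC [(nat_lit 36888796), (nat_lit 24534081), (nat_lit 18263511), (nat_lit 12310016)] (nat_lit 7360548)) p13_15_2 (nat_lit 4) (nat_lit 117) (nat_lit 118) = true := by decide +kernel
def p13_15_2_118 : pfC (piC [(nat_lit 36888796), (nat_lit 24534081), (nat_lit 18263511), (nat_lit 12310016)] (nat_lit 7360548)) p13_15_2 (nat_lit 4) (nat_lit 118) (nat_lit 119) = true := by decide +kernel
def p13_15_2_119 : pfC (piC [(nat_lit 36888796), (nat_lit 24534081), (nat_lit 18263511), (nat_lit 12310016)] (nat_lit 7360548)) p13_15_2 (nat_lit 4) (nat_lit 119) (nat_lit 120) = true := by decide +kernel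
def p13_15_2_120 : pfC (piC [(nat_lit 36888796), (nat_lit 24534081), (nat_lit 18263511), (nat_lit 12310016)] (nat_lit 7360548)) p13_15_2 (nat_lit 4) (nat_lit 120) (nat_lit 121) = true := by decide +kernel
def p13_15_2_121 : pfC (piC [(nat_lit 36888796), (nat_lit 24534081), (nat_lit 18263511), (nat_lit 12310016)] (nat_lit 7360548)) p13_15_2 (nat_lit 4) (nat_lit 121) (nat_lit 122) = true := by decide +kernel
def p13_15_2_122 : pfC (piC [(nat_lit 36888796), (nat_lit 24534081), (nat_lit 18263511), (nat_lit 12310016)] (nat_lit 7360548)) p13_15_2 (nat_lit 4) (nat_lit 122) (nat_lit 123) = true := by decide +kernel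
def p13_15_2_123 : pfC (piC [(nat_lit 36888796), (nat_lit 24534081), (nat_lit 18263511), (nat_lit 12310016)] (nat_lit 7360548)) p13_15_2 (nat_lit 4) (nat_lit 123) (nat_lit 124) = true := by decide +kernel
def p13_15_2_124 : pfC (piC [(nat_lit 36888796), (nat_lit 24534081), (nat_lit 18263511), (nat_lit 12310016)] (nat_lit 7360548)) p13_15_2 (nat_lit 4) (nat_lit 124) (nat_lit 125) = true := by decide +kernel
def p13_15_2_125 : pfC (piC [(nat_lit 36888796), (nat_lit 24534081), (nat_lit 18263511), (nat_lit 12310016)] (nat_lit 7360548)) p13_15_2 (nat_lit 4) (nat_lit 125) (nat_lit 126) = true := by decide +kernel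
def p13_15_2_126 : pfC (piC [(nat_lit 36888796), (nat_lit 24534081), (nat_lit 18263511), (nat_lit 12310016)] (nat_lit 7360548)) p13_15_2 (nat_lit 4) (nat_lit 126) (nat_lit 127) = true := by decide +kernel
def p13_15_2_127 : pfC (piC [(nat_lit 36888796), (nat_lit 24534081), (nat_lit 18263511), (nat_lit 12310016)] (nat_lit 7360548)) p13_15_2 (nat_lit 4) (nat_lit 127) (nat_lit 128) = true := by decide +kernel
def p13_15_2_128 : pfC (piC [(nat_lit 36888796), (nat_lit 24534081), (nat_lit 18263511), (nat_lit 12310016)] (nat_lit 7360548)) p13_15_2 (nat_lit 4) (nat_lit 128) (nat_lit 129) = true := by decide +kernel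
def p13_15_2_129 : pfC (piC [(nat_lit 36888796), (nat_lit 24534081), (nat_lit 18263511), (nat_lit 12310016)] (nat_lit 7360548)) p13_15_2 (nat_lit 4) (nat_lit 129) (nat_lit 130) = true := by decide +kernel
def p13_15_2_130 : pfC (piC [(nat_lit 36888796), (nat_lit 24534081), (nat_lit 18263511), (nat_lit 12310016)] (nat_lit 7360548)) p13_15_2 (nat_lit 4) (nat_lit 130) (nat_lit 131) = true := by decide +kernel
def p13_15_2_131 : pfC (piC [(nat_lit 36888796), (nat_lit 24534081), (nat_lit 18263511), (nat_lit 12310016)] (nat_lit 7360548)) p13_15_2 (nat_lit 4) (nat_lit 131) (nat_lit 132) = true := by decide +kernel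
def p13_15_2_132 : pfC (piC [(nat_lit 36888796), (nat_lit 24534081), (nat_lit 18263511), (nat_lit 12310016)] (nat_lit 7360548)) p13_15_2 (nat_lit 4) (nat_lit 132) (nat_lit 133) = true := by decide +kernel
def p13_15_2_133 : pfC (piC [(nat_lit 36888796), (nat_lit 24534081), (nat_lit 18263511), (nat_lit 12310016)] (nat_lit 7360548)) p13_15_2 (nat_lit 4) (nat_lit 133) (nat_lit 134) = true := by decide +kernel
def p13_15_2_134 : pfC (piC [(nat_lit 36888796), (nat_lit 24534081), (nat_lit 18263511), (nat_lit 12310016)] (nat_lit 7360548)) p13_15_2 (nat_lit 4) (nat_lit 134) (nat_lit 135) = true := by decide +kernel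
def p13_15_2_135 : pfC (piC [(nat_lit 36888796), (nat_lit 24534081), (nat_lit 18263511), (nat_lit 12310016)] (nat_lit 7360548)) p13_15_2 (nat_lit 4) (nat_lit 135) (nat_lit 136) = true := by decide +kernel
def p13_15_2_136 : pfC (piC [(nat_lit 36888796), (nat_lit 24534081), (nat_lit 18263511), (nat_lit 12310016)] (nat_lit 7360548)) p13_15_2 (nat_lit 4) (nat_lit 136) (nat_lit 137) = true := by decide +kernel
def p13_15_2_137 : pfC (piC [(nat_lit 36888796), (nat_lit 24534081), (nat_lit 18263511), (nat_lit 12310016)] (nat_lit 7360548)) p13_15_2 (nat_lit 4) (nat_lit 137) (nat_lit 138) = true := by decide +kernel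
def p13_15_2_138 : pfC (piC [(nat_lit 36888796), (nat_lit 24534081), (nat_lit 18263511), (nat_lit 12310016)] (nat_lit 7360548)) p13_15_2 (nat_lit 4) (nat_lit 138) (nat_lit 139) = true := by decide +kernel
def p13_15_2_139 : pfC (piC [(nat_lit 36888796), (nat_lit 24534081), (nat_lit 18263511), (nat_lit 12310016)] (nat_lit 7360548)) p13_15_2 (nat_lit 4) (nat_lit 139) (nat_lit 140) = true := by decide +kernel
def p13_15_2_140 : pfC (piC [(nat_lit 36888796), (nat_lit 24534081), (nat_lit 18263511), (nat_lit 12310016)] (nat_lit 7360548)) p13_15_2 (nat_lit 4) (nat_lit 140) (nat_lit 141) = true := by decide +kernel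
def p13_15_2_141 : pfC (piC [(nat_lit 36888796), (nat_lit 24534081), (nat_lit 18263511), (nat_lit 12310016)] (nat_lit 7360548)) p13_15_2 (nat_lit 4) (nat_lit 141) (nat_lit 142) = true := by decide +kernel
def p13_15_2_142 : pfC (piC [(nat_lit 36888796), (nat_lit 24534081), (nat_lit 18263511), (nat_lit 12310016)] (nat_lit 7360548)) p13_15_2 (nat_lit 4) (nat_lit 142) (nat_lit 143) = true := by decide +kernel
def p13_15_2_143 : pfC (piC [(nat_lit 36888796), (nat_lit 24534081), (nat_lit 18263511), (nat_lit 12310016)] (nat_lit 7360548)) p13_15_2 (nat_lit 4) (nat_lit 143) (nat_lit 144) = true := by decide +kernel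
def p13_15_2_144 : pfC (piC [(nat_lit 36888796), (nat_lit 24534081), (nat_lit 18263511), (nat_lit 12310016)] (nat_lit 7360548)) p13_15_2 (nat_lit 4) (nat_lit 144) (nat_lit 145) = true := by decide +kernel
def p13_15_2_145 : pfC (piC [(nat_lit 36888796), (nat_lit 24534081), (nat_lit 18263511), (nat_lit 12310016)] (nat_lit 7360548)) p13_15_2 (nat_lit 4) (nat_lit 145) (nat_lit 146) = true := by decide +kernel
def p13_15_2_146 : pfC (piC [(nat_lit 36888796), (nat_lit 24534081), (nat_lit 18263511), (nat_lit 12310016)] (nat_lit 7360548)) p13_15_2 (nat_lit 4) (nat_lit 146) (nat_lit 147) = true := by decide +kernel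
def p13_15_2_147 : pfC (piC [(nat_lit 36888796), (nat_lit 24534081), (nat_lit 18263511), (nat_lit 12310016)] (nat_lit 7360548)) p13_15_2 (nat_lit 4) (nat_lit 147) (nat_lit 148) = true := by decide +kernel
def p13_15_2_148 : pfC (piC [(nat_lit 36888796), (nat_lit 24534081), (nat_lit 18263511), (nat_lit 12310016)] (nat_lit 7360548)) p13_15_2 (nat_lit 4) (nat_lit 148) (nat_lit 149) = true := by decide +kernel
def p13_15_2_149 : pfC (piC [(nat_lit 36888796), (nat_lit 24534081), (nat_lit 18263511), (nat_lit 12310016)] (nat_lit 7360548)) p13_15_2 (nat_lit 4) (nat_lit 149) (nat_lit 150) = true := by decide +kernel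
def p13_15_2_150 : pfC (piC [(nat_lit 36888796), (nat_lit 24534081), (nat_lit 18263511), (nat_lit 12310016)] (nat_lit 7360548)) p13_15_2 (nat_lit 4) (nat_lit 150) (nat_lit 151) = true := by decide +kernel
def p13_15_2_151 : pfC (piC [(nat_lit 36888796), (nat_lit 24534081), (nat_lit 18263511), (nat_lit 12310016)] (nat_lit 7360548)) p13_15_2 (nat_lit 4) (nat_lit 151) (nat_lit 152) = true := by decide +kernel
def p13_15_2_152 : pfC (piC [(nat_lit 36888796), (nat_lit 24534081), (nat_lit 18263511), (nat_lit 12310016)] (nat_lit 7360548)) p13_15_2 (nat_lit 4) (nat_lit 152) (nat_lit 153) = true := by decide +kernel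
def p13_15_2_153 : pfC (piC [(nat_lit 36888796), (nat_lit 24534081), (nat_lit 18263511), (nat_lit 12310016)] (nat_lit 7360548)) p13_15_2 (nat_lit 4) (nat_lit 153) (nat_lit 154) = true := by decide +kernel
def p13_15_2_154 : pfC (piC [(nat_lit 36888796), (nat_lit 24534081), (nat_lit 18263511), (nat_lit 12310016)] (nat_lit 7360548)) p13_15_2 (nat_lit 4) (nat_lit 154) (nat_lit 155) = true := by decide +kernel
def p13_15_2_155 : pfC (piC [(nat_lit 36888796), (nat_lit 24534081), (nat_lit 18263511), (nat_lit 12310016)] (nat_lit 7360548)) p13_15_2 (nat_lit 4) (nat_lit 155) (nat_lit 156) = true := by decide +kernel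
def p13_15_2_156 : pfC (piC [(nat_lit 36888796), (nat_lit 24534081), (nat_lit 18263511), (nat_lit 12310016)] (nat_lit 7360548)) p13_15_2 (nat_lit 4) (nat_lit 156) (nat_lit 157) = true := by decide +kernel
def p13_15_2_157 : pfC (piC [(nat_lit 36888796), (nat_lit 24534081), (nat_lit 18263511), (nat_lit 12310016)] (nat_lit 7360548)) p13_15_2 (nat_lit 4) (nat_lit 157) (nat_lit 158) = true := by decide +kernel
def p13_15_2_158 : pfC (piC [(nat_lit 36888796), (nat_lit 24534081), (nat_lit 18263511), (nat_lit 12310016)] (nat_lit 7360548)) p13_15_2 (nat_lit 4) (nat_lit 158) (nat_lit 159) = true := by decide +kernel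
def p13_15_2_159 : pfC (piC [(nat_lit 36888796), (nat_lit 24534081), (nat_lit 18263511), (nat_lit 12310016)] (nat_lit 7360548)) p13_15_2 (nat_lit 4) (nat_lit 159) (nat_lit 160) = true := by decide +kernel
def p13_15_2_160 : pfC (piC [(nat_lit 36888796), (nat_lit 24534081), (nat_lit 18263511), (nat_lit 12310016)] (nat_lit 7360548)) p13_15_2 (nat_lit 4) (nat_lit 160) (nat_lit 161) = true := by decide +kernel
def p13_15_2_161 : pfC (piC [(nat_lit 36888796), (nat_lit 24534081), (nat_lit 18263511), (nat_lit 12310016)] (nat_lit 7360548)) p13_15_2 (nat_lit 4) (nat_lit 161) (nat_lit 162) = true := by decide +kernel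
def p13_15_2_162 : pfC (piC [(nat_lit 36888796), (nat_lit 24534081), (nat_lit 18263511), (nat_lit 12310016)] (nat_lit 7360548)) p13_15_2 (nat_lit 4) (nat_lit 162) (nat_lit 163) = true := by decide +kernel
def p13_15_2_163 : pfC (piC [(nat_lit 36888796), (nat_lit 24534081), (nat_lit 18263511), (nat_lit 12310016)] (nat_lit 7360548)) p13_15_2 (nat_lit 4) (nat_lit 163) (nat_lit 164) = true := by decide +kernel
def p13_15_2_164 : pfC (piC [(nat_lit 36888796), (nat_lit 24534081), (nat_lit 18263511), (nat_lit 12310016)] (nat_lit 7360548)) p13_15_2 (nat_lit 4) (nat_lit 164) (nat_lit 165) = true := by decide +kernel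
def p13_15_2_165 : pfC (piC [(nat_lit 36888796), (nat_lit 24534081), (nat_lit 18263511), (nat_lit 12310016)] (nat_lit 7360548)) p13_15_2 (nat_lit 4) (nat_lit 165) (nat_lit 166) = true := by decide +kernel
def p13_15_2_166 : pfC (piC [(nat_lit 36888796), (nat_lit 24534081), (nat_lit 18263511), (nat_lit 12310016)] (nat_lit 7360548)) p13_15_2 (nat_lit 4) (nat_lit 166) (nat_lit 167) = true := by decide +kernel
def p13_15_2_167 : pfC (piC [(nat_lit 36888796), (nat_lit 24534081), (nat_lit 18263511), (nat_lit 12310016)] (nat_lit 7360548)) p13_15_2 (nat_lit 4) (nat_lit 167) (nat_lit 168) = true := by decide +kernel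
def p13_15_2_168 : pfC (piC [(nat_lit 36888796), (nat_lit 24534081), (nat_lit 18263511), (nat_lit 12310016)] (nat_lit 7360548)) p13_15_2 (nat_lit 4) (nat_lit 168) (nat_lit 169) = true := by decide +kernel
def p13_15_2_169 : pfC (piC [(nat_lit 36888796), (nat_lit 24534081), (nat_lit 18263511), (nat_lit 12310016)] (nat_lit 7360548)) p13_15_2 (nat_lit 4) (nat_lit 169) (nat_lit 170) = true := by decide +kernel
def p13_15_2_170 : pfC (piC [(nat_lit 36888796), (nat_lit 24534081), (nat_lit 18263511), (nat_lit 12310016)] (nat_lit 7360548)) p13_15_2 (nat_lit 4) (nat_lit 170) (nat_lit 171) = true := by decide +kernel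
def p13_15_2_171 : pfC (piC [(nat_lit 36888796), (nat_lit 24534081), (nat_lit 18263511), (nat_lit 12310016)] (nat_lit 7360548)) p13_15_2 (nat_lit 4) (nat_lit 171) (nat_lit 172) = true := by decide +kernel
def p13_15_2_172 : pfC (piC [(nat_lit 36888796), (nat_lit 24534081), (nat_lit 18263511), (nat_lit 12310016)] (nat_lit 7360548)) p13_15_2 (nat_lit 4) (nat_lit 172) (nat_lit 173) = true := by decide +kernel
def p13_15_2_173 : pfC (piC [(nat_lit 36888796), (nat_lit 24534081), (nat_lit 18263511), (nat_lit 12310016)] (nat_lit 7360548)) p13_15_2 (nat_lit 4) (nat_lit 173) (nat_lit 174) = true := by decide +kernel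
def p13_15_2_174 : pfC (piC [(nat_lit 36888796), (nat_lit 24534081), (nat_lit 18263511), (nat_lit 12310016)] (nat_lit 7360548)) p13_15_2 (nat_lit 4) (nat_lit 174) (nat_lit 175) = true := by decide +kernel
def p13_15_2_175 : pfC (piC [(nat_lit 36888796), (nat_lit 24534081), (nat_lit 18263511), (nat_lit 12310016)] (nat_lit 7360548)) p13_15_2 (nat_lit 4) (nat_lit 175) (nat_lit 176) = true := by decide +kernel
def p13_15_2_176 : pfC (piC [(nat_lit 36888796), (nat_lit 24534081), (nat_lit 18263511), (nat_lit 12310016)] (nat_lit 7360548)) p13_15_2 (nat_lit 4) (nat_lit 176) (nat_lit 177) = true := by decide +kernel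
def p13_15_2_177 : pfC (piC [(nat_lit 36888796), (nat_lit 24534081), (nat_lit 18263511), (nat_lit 12310016)] (nat_lit 7360548)) p13_15_2 (nat_lit 4) (nat_lit 177) (nat_lit 178) = true := by decide +kernel
def p13_15_2_178 : pfC (piC [(nat_lit 36888796), (nat_lit 24534081), (nat_lit 18263511), (nat_lit 12310016)] (nat_lit 7360548)) p13_15_2 (nat_lit 4) (nat_lit 178) (nat_lit 179) = true := by decide +kernel
def p13_15_2_179 : pfC (piC [(nat_lit 36888796), (nat_lit 24534081), (nat_lit 18263511), (nat_lit 12310016)] (nat_lit 7360548)) p13_15_2 (nat_lit 4) (nat_lit 179) (nat_lit 180) = true := by decide +kernel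
def p13_15_2_180 : pfC (piC [(nat_lit 36888796), (nat_lit 24534081), (nat_lit 18263511), (nat_lit 12310016)] (nat_lit 7360548)) p13_15_2 (nat_lit 4) (nat_lit 180) (nat_lit 181) = true := by decide +kernel
def p13_15_2_181 : pfC (piC [(nat_lit 36888796), (nat_lit 24534081), (nat_lit 18263511), (nat_lit 12310016)] (nat_lit 7360548)) p13_15_2 (nat_lit 4) (nat_lit 181) (nat_lit 182) = true := by decide +kernel
def p13_15_2_182 : pfC (piC [(nat_lit 36888796), (nat_lit 24534081), (nat_lit 18263511), (nat_lit 12310016)] (nat_lit 7360548)) p13_15_2 (nat_lit 4) (nat_lit 182) (nat_lit 183) = true := by decide +kernel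
def p13_15_2_183 : pfC (piC [(nat_lit 36888796), (nat_lit 24534081), (nat_lit 18263511), (nat_lit 12310016)] (nat_lit 7360548)) p13_15_2 (nat_lit 4) (nat_lit 183) (nat_lit 184) = true := by decide +kernel
def p13_15_2_184 : pfC (piC [(nat_lit 36888796), (nat_lit 24534081), (nat_lit 18263511), (nat_lit 12310016)] (nat_lit 7360548)) p13_15_2 (nat_lit 4) (nat_lit 184) (nat_lit 185) = true := by decide +kernel
def p13_15_2_185 : pfC (piC [(nat_lit 36888796), (nat_lit 24534081), (nat_lit 18263511), (nat_lit 12310016)] (nat_lit 7360548)) p13_15_2 (nat_lit 4) (nat_lit 185) (nat_lit 186) = true := by decide +kernel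
def p13_15_2_186 : pfC (piC [(nat_lit 36888796), (nat_lit 24534081), (nat_lit 18263511), (nat_lit 12310016)] (nat_lit 7360548)) p13_15_2 (nat_lit 4) (nat_lit 186) (nat_lit 187) = true := by decide +kernel
def p13_15_2_187 : pfC (piC [(nat_lit 36888796), (nat_lit 24534081), (nat_lit 18263511), (nat_lit 12310016)] (nat_lit 7360548)) p13_15_2 (nat_lit 4) (nat_lit 187) (nat_lit 188) = true := by decide +kernel
def p13_15_2_188 : pfC (piC [(nat_lit 36888796), (nat_lit 24534081), (nat_lit 18263511), (nat_lit 12310016)] (nat_lit 7360548)) p13_15_2 (nat_lit 4) (nat_lit 188) (nat_lit 189) = true := by decide +kernel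
def p13_15_2_189 : pfC (piC [(nat_lit 36888796), (nat_lit 24534081), (nat_lit 18263511), (nat_lit 12310016)] (nat_lit 7360548)) p13_15_2 (nat_lit 4) (nat_lit 189) (nat_lit 190) = true := by decide +kernel
def p13_15_2_190 : pfC (piC [(nat_lit 36888796), (nat_lit 24534081), (nat_lit 18263511), (nat_lit 12310016)] (nat_lit 7360548)) p13_15_2 (nat_lit 4) (nat_lit 190) (nat_lit 191) = true := by decide +kernel
def p13_15_2_191 : pfC (piC [(nat_lit 36888796), (nat_lit 24534081), (nat_lit 18263511), (nat_lit 12310016)] (nat_lit 7360548)) p13_15_2 (nat_lit 4) (nat_lit 191) (nat_lit 192) = true := by decide +kernel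
def p13_15_2_192 : pfC (piC [(nat_lit 36888796), (nat_lit 24534081), (nat_lit 18263511), (nat_lit 12310016)] (nat_lit 7360548)) p13_15_2 (nat_lit 4) (nat_lit 192) (nat_lit 193) = true := by decide +kernel
def p13_15_2_193 : pfC (piC [(nat_lit 36888796), (nat_lit 24534081), (nat_lit 18263511), (nat_lit 12310016)] (nat_lit 7360548)) p13_15_2 (nat_lit 4) (nat_lit 193) (nat_lit 194) = true := by decide +kernel
def p13_15_2_194 : pfC (piC [(nat_lit 36888796), (nat_lit 24534081), (nat_lit 18263511), (nat_lit 12310016)] (nat_lit 7360548)) p13_15_2 (nat_lit 4) (nat_lit 194) (nat_lit 195) = true := by decide +kernel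
def p13_15_2_195 : pfC (piC [(nat_lit 36888796), (nat_lit 24534081), (nat_lit 18263511), (nat_lit 12310016)] (nat_lit 7360548)) p13_15_2 (nat_lit 4) (nat_lit 195) (nat_lit 196) = true := by decide +kernel
def p13_15_2_196 : pfC (piC [(nat_lit 36888796), (nat_lit 24534081), (nat_lit 18263511), (nat_lit 12310016)] (nat_lit 7360548)) p13_15_2 (nat_lit 4) (nat_lit 196) (nat_lit 197) = true := by decide +kernel
def p13_15_2_197 : pfC (piC [(nat_lit 36888796), (nat_lit 24534081), (nat_lit 18263511), (nat_lit 12310016)] (nat_lit 7360548)) p13_15_2 (nat_lit 4) (nat_lit 197) (nat_lit 198) = true := by decide +kernel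
def p13_15_2_198 : pfC (piC [(nat_lit 36888796), (nat_lit 24534081), (nat_lit 18263511), (nat_lit 12310016)] (nat_lit 7360548)) p13_15_2 (nat_lit 4) (nat_lit 198) (nat_lit 199) = true := by decide +kernel
def p13_15_2_199 : pfC (piC [(nat_lit 36888796), (nat_lit 24534081), (nat_lit 18263511), (nat_lit 12310016)] (nat_lit 7360548)) p13_15_2 (nat_lit 4) (nat_lit 199) (nat_lit 200) = true := by decide +kernel
def p13_15_2_200 : pfC (piC [(nat_lit 36888796), (nat_lit 24534081), (nat_lit 18263511), (nat_lit 12310016)] (nat_lit 7360548)) p13_15_2 (nat_lit 4) (nat_lit 200) (nat_lit 201) = true := by decide +kernel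
def p13_15_2_201 : pfC (piC [(nat_lit 36888796), (nat_lit 24534081), (nat_lit 18263511), (nat_lit 12310016)] (nat_lit 7360548)) p13_15_2 (nat_lit 4) (nat_lit 201) (nat_lit 202) = true := by decide +kernel
def p13_15_2_202 : pfC (piC [(nat_lit 36888796), (nat_lit 24534081), (nat_lit 18263511), (nat_lit 12310016)] (nat_lit 7360548)) p13_15_2 (nat_lit 4) (nat_lit 202) (nat_lit 203) = true := by decide +kernel
def p13_15_2_203 : pfC (piC [(nat_lit 36888796), (nat_lit 24534081), (nat_lit 18263511), (nat_lit 12310016)] (nat_lit 7360548)) p13_15_2 (nat_lit 4) (nat_lit 203) (nat_lit 204) = true := by decide +kernel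
def p13_15_2_204 : pfC (piC [(nat_lit 36888796), (nat_lit 24534081), (nat_lit 18263511), (nat_lit 12310016)] (nat_lit 7360548)) p13_15_2 (nat_lit 4) (nat_lit 204) (nat_lit 205) = true := by decide +kernel
def p13_15_2_205 : pfC (piC [(nat_lit 36888796), (nat_lit 24534081), (nat_lit 18263511), (nat_lit 12310016)] (nat_lit 7360548)) p13_15_2 (nat_lit 4) (nat_lit 205) (nat_lit 206) = true := by decide +kernel
def p13_15_2_206 : pfC (piC [(nat_lit 36888796), (nat_lit 24534081), (nat_lit 18263511), (nat_lit 12310016)] (nat_lit 7360548)) p13_15_2 (nat_lit 4) (nat_lit 206) (nat_lit 207) = true := by decide +kernel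
def p13_15_2_207 : pfC (piC [(nat_lit 36888796), (nat_lit 24534081), (nat_lit 18263511), (nat_lit 12310016)] (nat_lit 7360548)) p13_15_2 (nat_lit 4) (nat_lit 207) (nat_lit 208) = true := by decide +kernel
def p13_15_2_208 : pfC (piC [(nat_lit 36888796), (nat_lit 24534081), (nat_lit 18263511), (nat_lit 12310016)] (nat_lit 7360548)) p13_15_2 (nat_lit 4) (nat_lit 208) (nat_lit 209) = true := by decide +kernel
def p13_15_2_209 : pfC (piC [(nat_lit 36888796), (nat_lit 24534081), (nat_lit 18263511), (nat_lit 12310016)] (nat_lit 7360548)) p13_15_2 (nat_lit 4) (nat_lit 209) (nat_lit 210) = true := by decide +kernel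
theorem p13_15_2_T : PfS (PiF n13_15.reverse (nat_lit 7360548)) p13_15_2 (nat_lit 4) [] 0 :=
  pftab_of (los := [(nat_lit 36888796), (nat_lit 24534081), (nat_lit 18263511), (nat_lit 12310016)]) (by decide +kernel) (hi := (nat_lit 210)) (PfP.trans (PfP.trans (PfP.trans (PfP.trans (PfP.trans (PfP.trans (PfP.trans (PfP.trans (PfP.trans (PfP.trans (PfP.trans (PfP.trans (PfP.trans (PfP.trans (PfP.trans (PfP.trans (PfP.trans (PfP.trans (PfP.trans (PfP.trans (PfP.trans (PfP.trans (PfP.trans (PfP.trans (PfP.trans (PfP.trans (PfP.trans (PfP.trans (PfP.trans (PfP.trans (PfP.trans (PfP.trans (PfP.trans (PfP.trans (PfP.trans (PfP.trans (PfP.trans (PfP.trans (PfP.trans (PfP.trans (PfP.trans (PfP.trans (PfP.trans (PfP.trans (PfP.trans (PfP.trans (PfP.trans (PfP.trans (PfP.trans (PfP.trans (PfP.trans (PfP.trans (PfP.trans (PfP.trans (PfP.trans (PfP.trans (PfP.trans (PfP.trans (PfP.trans (PfP.trans (PfP.trans (PfP.trans (PfP.trans (PfP.trans (PfP.trans (PfP.trans (PfP.trans (PfP.trans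 (PfP.trans (PfP.trans (PfP.trans (PfP.trans (PfP.trans (PfP.trans (PfP.trans (PfP.trans (PfP.trans (PfP.trans (PfP.trans (PfP.trans (PfP.trans (PfP.trans (PfP.trans (PfP.trans (PfP.trans (PfP.trans (PfP.trans (PfP.trans (PfP.trans (PfP.trans (PfP.trans (PfP.trans (PfP.trans (PfP.trans (PfP.trans (PfP.trans (PfP.trans (PfP.trans (PfP.trans (PfP.trans (PfP.trans (PfP.trans (PfP.trans (PfP.trans (PfP.trans (PfP.trans (PfP.trans (PfP.trans (PfP.trans
 (PfP.trans (PfP.trans (PfP.trans (PfP.trans (PfP.trans (PfP.trans (PfP.trans (PfP.trans (PfP.trans (PfP.trans (PfP.trans (PfP.trans (PfP.trans (PfP.trans (PfP.trans (PfP.trans (PfP.trans (PfP.trans (PfP.trans (PfP.trans (PfP.trans (PfP.trans (PfP.trans (PfP.trans (PfP.trans (PfP.trans (PfP.trans (PfP.trans (PfP.trans (PfP.trans (PfP.trans (PfP.trans (PfP.trans (PfP.trans (PfP.trans (PfP.trans (PfP.trans (PfP.trans (PfP.trans (PfP.trans (PfP.trans (PfP.trans (PfP.trans (PfP.trans (PfP.trans (PfP.trans (PfP.trans (PfP.trans (PfP.trans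 (PfP.trans (PfP.trans (PfP.trans (PfP.trans (PfP.trans (PfP.trans (PfP.trans (PfP.trans (PfP.trans (PfP.trans (PfP.trans (PfP.trans (PfP.trans (PfP.trans (PfP.trans (PfP.trans (PfP.trans (PfP.trans (PfP.trans (PfP.trans (PfP.trans (PfP.trans (PfP.trans (PfP.trans (PfP.trans (PfP.trans (PfP.trans (PfP.trans (PfP.trans (PfP.trans (PfP.trans (PfP.trans (PfP.trans (PfP.trans (PfP.trans (PfP.trans (PfP.trans (PfP.trans (PfP.trans (PfP.trans (PfP.trans (PfP.trans (PfP.trans (PfP.trans (PfP.trans (PfP.trans (PfP.trans (PfP.trans (PfP.trans (PfP.trans (PfP.trans (pfC_sound p13_15_2_0) (pfC_sound p13_15_2_1)) (pfC_sound p13_15_2_2)) (pfC_sound p13_15_2_3))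
 (pfC_sound p13_15_2_4)) (pfC_sound p13_15_2_5)) (pfC_sound p13_15_2_6)) (pfC_sound p13_15_2_7)) (pfC_sound p13_15_2_8)) (pfC_sound p13_15_2_9)) (pfC_sound p13_15_2_10)) (pfC_sound p13_15_2_11)) (pfC_sound p13_15_2_12)) (pfC_sound p13_15_2_13)) (pfC_sound p13_15_2_14)) (pfC_sound p13_15_2_15)) (pfC_sound p13_15_2_16)) (pfC_sound p13_15_2_17)) (pfC_sound p13_15_2_18)) (pfC_sound p13_15_2_19)) (pfC_sound p13_15_2_20)) (pfC_sound p13_15_2_21)) (pfC_sound p13_15_2_22)) (pfC_sound p13_15_2_23)) (pfC_sound p13_15_2_24)) (pfC_sound p13_15_2_25)) (pfC_sound p13_15_2_26)) (pfC_sound p13_15_2_27)) (pfC_sound p13_15_2_28)) (pfC_sound p13_15_2_29)) (pfC_sound p13_15_2_30)) (pfC_sound p13_15_2_31)) (pfC_sound p13_15_2_32)) (pfC_sound p13_15_2_33)) (pfC_sound p13_15_2_34)) (pfC_sound p13_15_2_35)) (pfC_sound p13_15_2_36)) (pfC_sound p13_15_2_37)) (pfC_sound p13_15_2_38)) (pfC_sound p13_15_2_39)) (pfC_sound p13_15_2_40)) (pfC_sound p13_15_2_41)) (pfC_sound p13_15_2_42)) (pfC_sound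 p13_15_2_43)) (pfC_sound p13_15_2_44)) (pfC_sound p13_15_2_45)) (pfC_sound p13_15_2_46)) (pfC_sound p13_15_2_47)) (pfC_sound p13_15_2_48)) (pfC_sound p13_15_2_49)) (pfC_sound p13_15_2_50)) (pfC_sound p13_15_2_51))
 (pfC_sound p13_15_2_52)) (pfC_sound p13_15_2_53)) (pfC_sound p13_15_2_54)) (pfC_sound p13_15_2_55)) (pfC_sound p13_15_2_56)) (pfC_sound p13_15_2_57)) (pfC_sound p13_15_2_58)) (pfC_sound p13_15_2_59)) (pfC_sound p13_15_2_60)) (pfC_sound p13_15_2_61)) (pfC_sound p13_15_2_62)) (pfC_sound p13_15_2_63)) (pfC_sound p13_15_2_64)) (pfC_sound p13_15_2_65)) (pfC_sound p13_15_2_66)) (pfC_sound p13_15_2_67)) (pfC_sound p13_15_2_68)) (pfC_sound p13_15_2_69)) (pfC_sound p13_15_2_70)) (pfC_sound p13_15_2_71)) (pfC_sound p13_15_2_72)) (pfC_sound p13_15_2_73)) (pfC_sound p13_15_2_74)) (pfC_sound p13_15_2_75)) (pfC_sound p13_15_2_76)) (pfC_sound p13_15_2_77)) (pfC_sound p13_15_2_78)) (pfC_sound p13_15_2_79)) (pfC_sound p13_15_2_80)) (pfC_sound p13_15_2_81)) (pfC_sound p13_15_2_82))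 (pfC_sound p13_15_2_83)) (pfC_sound p13_15_2_84)) (pfC_sound p13_15_2_85)) (pfC_sound p13_15_2_86)) (pfC_sound p13_15_2_87)) (pfC_sound p13_15_2_88)) (pfC_sound p13_15_2_89)) (pfC_sound p13_15_2_90)) (pfC_sound p13_15_2_91)) (pfC_sound p13_15_2_92)) (pfC_sound p13_15_2_93)) (pfC_sound p13_15_2_94)) (pfC_sound p13_15_2_95)) (pfC_sound p13_15_2_96)) (pfC_sound p13_15_2_97)) (pfC_sound p13_15_2_98)) (pfC_sound p13_15_2_99))
 (pfC_sound p13_15_2_100)) (pfC_sound p13_15_2_101)) (pfC_sound p13_15_2_102)) (pfC_sound p13_15_2_103)) (pfC_sound p13_15_2_104)) (pfC_sound p13_15_2_105)) (pfC_sound p13_15_2_106)) (pfC_sound p13_15_2_107)) (pfC_sound p13_15_2_108)) (pfC_sound p13_15_2_109)) (pfC_sound p13_15_2_110)) (pfC_sound p13_15_2_111)) (pfC_sound p13_15_2_112)) (pfC_sound p13_15_2_113)) (pfC_sound p13_15_2_114)) (pfC_sound p13_15_2_115)) (pfC_sound p13_15_2_116)) (pfC_sound p13_15_2_117)) (pfC_sound p13_15_2_118)) (pfC_sound p13_15_2_119)) (pfC_sound p13_15_2_120)) (pfC_sound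 p13_15_2_121)) (pfC_sound p13_15_2_122)) (pfC_sound p13_15_2_123)) (pfC_sound p13_15_2_124)) (pfC_sound p13_15_2_125)) (pfC_sound p13_15_2_126)) (pfC_sound p13_15_2_127)) (pfC_sound p13_15_2_128)) (pfC_sound p13_15_2_129)) (pfC_sound p13_15_2_130)) (pfC_sound p13_15_2_131)) (pfC_sound p13_15_2_132)) (pfC_sound p13_15_2_133)) (pfC_sound p13_15_2_134)) (pfC_sound p13_15_2_135)) (pfC_sound p13_15_2_136)) (pfC_sound p13_15_2_137)) (pfC_sound p13_15_2_138)) (pfC_sound p13_15_2_139)) (pfC_sound p13_15_2_140)) (pfC_sound p13_15_2_141)) (pfC_sound p13_15_2_142)) (pfC_sound p13_15_2_143)) (pfC_sound p13_15_2_144)) (pfC_sound p13_15_2_145))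
 (pfC_sound p13_15_2_146)) (pfC_sound p13_15_2_147)) (pfC_sound p13_15_2_148)) (pfC_sound p13_15_2_149)) (pfC_sound p13_15_2_150)) (pfC_sound p13_15_2_151)) (pfC_sound p13_15_2_152)) (pfC_sound p13_15_2_153)) (pfC_sound p13_15_2_154)) (pfC_sound p13_15_2_155)) (pfC_sound p13_15_2_156)) (pfC_sound p13_15_2_157)) (pfC_sound p13_15_2_158)) (pfC_sound p13_15_2_159)) (pfC_sound p13_15_2_160)) (pfC_sound p13_15_2_161)) (pfC_sound p13_15_2_162)) (pfC_sound p13_15_2_163)) (pfC_sound p13_15_2_164)) (pfC_sound p13_15_2_165)) (pfC_sound p13_15_2_166)) (pfC_sound p13_15_2_167)) (pfC_sound p13_15_2_168)) (pfC_sound p13_15_2_169)) (pfC_sound p13_15_2_170)) (pfC_sound p13_15_2_171)) (pfC_sound p13_15_2_172)) (pfC_sound p13_15_2_173)) (pfC_sound p13_15_2_174)) (pfC_sound p13_15_2_175)) (pfC_sound p13_15_2_176)) (pfC_sound p13_15_2_177)) (pfC_sound p13_15_2_178)) (pfC_sound p13_15_2_179)) (pfC_sound p13_15_2_180)) (pfC_sound p13_15_2_181)) (pfC_sound p13_15_2_182)) (pfC_sound p13_15_2_183))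 (pfC_sound p13_15_2_184)) (pfC_sound p13_15_2_185)) (pfC_sound p13_15_2_186)) (pfC_sound p13_15_2_187)) (pfC_sound p13_15_2_188)) (pfC_sound p13_15_2_189)) (pfC_sound p13_15_2_190)) (pfC_sound p13_15_2_191))
 (pfC_sound p13_15_2_192)) (pfC_sound p13_15_2_193)) (pfC_sound p13_15_2_194)) (pfC_sound p13_15_2_195)) (pfC_sound p13_15_2_196)) (pfC_sound p13_15_2_197)) (pfC_sound p13_15_2_198)) (pfC_sound p13_15_2_199)) (pfC_sound p13_15_2_200)) (pfC_sound p13_15_2_201)) (pfC_sound p13_15_2_202)) (pfC_sound p13_15_2_203)) (pfC_sound p13_15_2_204)) (pfC_sound p13_15_2_205)) (pfC_sound p13_15_2_206)) (pfC_sound p13_15_2_207)) (pfC_sound p13_15_2_208)) (pfC_sound p13_15_2_209)) (by decide +kernel)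

def z13_15_2 : zOK yB13_15 (nat_lit 2) (nat_lit 600) (nat_lit 750) (nat_lit 7360548) (nat_lit 5344356) = true := by decide +kernel
def g13_15_2 : gOK yB13_15.x P13_15 (nat_lit 1413) (q13_15 :: r13_15) (nat_lit 2) (nat_lit 600) (nat_lit 3) (nat_lit 750) (nat_lit 12712500) (nat_lit 12712500) (nat_lit 12712500) (nat_lit 12712500) [(nat_lit 800), (nat_lit 1600)] = true := by decide +kernel
def v13_15_2 : ivC P13_15 s13_15 w13_15 n13_15 (nat_lit 4) (nat_lit 4760) (nat_lit 2) (nat_lit 600) f168_1_600 f176_1_600 (nat_lit 3) (nat_lit 750) f168_1_750 f176_1_750 (nat_lit 7360548) (nat_lit 5344356) p13_15_2 = true := by decide +kernel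
def p13_15_3 : PF := (PF.cons (PF.cons (PF.cons (PF.cons (PF.leaf (nat_lit 2854158) (nat_lit 17306280) (nat_lit 49802532) (nat_lit 17306280) [(nat_lit 0), (nat_lit 0), (nat_lit 0), (nat_lit 0)]) (PF.cons (PF.leaf (nat_lit 3047913) (nat_lit 354163) (nat_lit 49483571) (nat_lit 17271078) [(nat_lit 354163), (nat_lit 0), (nat_lit 0), (nat_lit 0)]) (PF.cons (PF.leaf (nat_lit 3275593) (nat_lit 384230) (nat_lit 49112117) (nat_lit 17228234) [(nat_lit 384230), (nat_lit 0), (nat_lit 0), (nat_lit 0)]) (PF.cons (PF.leaf (nat_lit 3530282) (nat_lit 410571) (nat_lit 48698802) (nat_lit 17178297) [(nat_lit 410571), (nat_lit 0), (nat_lit 0), (nat_lit 0)]) (PF.cons (PF.leaf (nat_lit 3807580) (nat_lit 433986) (nat_lit 48251261) (nat_lit 17121605) [(nat_lit 433986), (nat_lit 0), (nat_lit 0), (nat_lit 0)]) (PF.cons (PF.leaf (nat_lit 4104232) (nat_lit 454993) (nat_lit 47775429) (nat_lit 17058418) [(nat_lit 454993), (nat_lit 0), (nat_lit 0), (nat_lit 0)]) (PF.cons (PF.leaf (nat_lit 4417437)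 (nat_lit 473948) (nat_lit 47276149) (nat_lit 16988970) [(nat_lit 473948), (nat_lit 0), (nat_lit 0), (nat_lit 0)]) (PF.cons (PF.leaf (nat_lit 4744930) (nat_lit 491116) (nat_lit 46757499) (nat_lit 16913496) [(nat_lit 491116), (nat_lit 0),
 (nat_lit 0), (nat_lit 0)]) (PF.cons (PF.leaf (nat_lit 5084718) (nat_lit 506698) (nat_lit 46222979) (nat_lit 16832241) [(nat_lit 506698), (nat_lit 0), (nat_lit 0), (nat_lit 0)]) (PF.cons (PF.leaf (nat_lit 5435043) (nat_lit 520856) (nat_lit 45675638) (nat_lit 16745469) [(nat_lit 520856), (nat_lit 0), (nat_lit 0), (nat_lit 0)]) (PF.cons (PF.leaf (nat_lit 5794307) (nat_lit 533719) (nat_lit 45118154) (nat_lit 16653460) [(nat_lit 533719), (nat_lit 0), (nat_lit 0), (nat_lit 0)]) (PF.cons PF.nil PF.nil)))))))))))) (PF.cons (PF.cons (PF.leaf (nat_lit 3439637) (nat_lit 1428541) (nat_lit 48527883) (nat_lit 17152388) [(nat_lit 0), (nat_lit 1428541), (nat_lit 0), (nat_lit 0)]) (PF.cons (PF.leaf (nat_lit 3684701) (nat_lit 418913) (nat_lit 48124064)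 (nat_lit 17100375) [(nat_lit 418913), (nat_lit 1465459), (nat_lit 0), (nat_lit 0)]) (PF.cons (PF.leaf (nat_lit 3954686) (nat_lit 441569) (nat_lit 47683761) (nat_lit 17041232) [(nat_lit 441569), (nat_lit 1500680), (nat_lit 0), (nat_lit 0)]) (PF.cons (PF.leaf (nat_lit 4244979) (nat_lit 461816) (nat_lit 47214202) (nat_lit 16975427) [(nat_lit 461816), (nat_lit 1533732), (nat_lit 0), (nat_lit 0)]) (PF.cons (PF.leaf (nat_lit 4552406) (nat_lit 480043)
 (nat_lit 46720887) (nat_lit 16903322) [(nat_lit 480043), (nat_lit 1564430), (nat_lit 0), (nat_lit 0)]) (PF.cons (PF.leaf (nat_lit 4874454) (nat_lit 496523) (nat_lit 46208233) (nat_lit 16825232) [(nat_lit 496523), (nat_lit 1592728), (nat_lit 0), (nat_lit 0)]) (PF.cons (PF.leaf (nat_lit 5208990) (nat_lit 511462) (nat_lit 45679925) (nat_lit 16741460) [(nat_lit 511462), (nat_lit 1618654), (nat_lit 0), (nat_lit 0)]) (PF.cons (PF.leaf (nat_lit 5554161) (nat_lit 525018) (nat_lit 45139099) (nat_lit 16652309) [(nat_lit 525018), (nat_lit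 1642274), (nat_lit 0), (nat_lit 0)]) (PF.cons (PF.leaf (nat_lit 5908373) (nat_lit 537322) (nat_lit 44588469) (nat_lit 16558086) [(nat_lit 537322), (nat_lit 1663676), (nat_lit 0), (nat_lit 0)]) (PF.cons PF.nil PF.nil)))))))))) (PF.cons (PF.cons (PF.leaf (nat_lit 4105124) (nat_lit 1524100) (nat_lit 47105422) (nat_lit 16955189) [(nat_lit 0), (nat_lit 1524100), (nat_lit 0), (nat_lit 0)]) (PF.cons (PF.leaf (nat_lit 4386997) (nat_lit 467474) (nat_lit 46646085) (nat_lit 16887509) [(nat_lit 467474), (nat_lit 1553871), (nat_lit 0), (nat_lit 0)]) (PF.cons (PF.leaf (nat_lit 4687549) (nat_lit 485173) (nat_lit 46161591) (nat_lit 16813346) [(nat_lit 485173), (nat_lit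
 1581763), (nat_lit 0), (nat_lit 0)]) (PF.cons (PF.leaf (nat_lit 5003389) (nat_lit 501113) (nat_lit 45657094) (nat_lit 16733149) [(nat_lit 501113), (nat_lit 1607614), (nat_lit 0), (nat_lit 0)]) (PF.cons (PF.leaf (nat_lit 5332119) (nat_lit 515520) (nat_lit 45136675) (nat_lit 16647306) [(nat_lit 515520), (nat_lit 1631374), (nat_lit 0), (nat_lit 0)]) (PF.cons (PF.leaf (nat_lit 5671789) (nat_lit 528565) (nat_lit 44603694) (nat_lit 16556173) [(nat_lit 528565), (nat_lit 1653059), (nat_lit 0), (nat_lit 0)]) (PF.cons (PF.leaf (nat_lit 6020639) (nat_lit 540382) (nat_lit 44060986) (nat_lit 16460095) [(nat_lit 540382), (nat_lit 1672717), (nat_lit 0), (nat_lit 0)]) (PF.cons (PF.leaf (nat_lit 6377239) (nat_lit 551082) (nat_lit 43510984) (nat_lit 16359409) [(nat_lit 551082), (nat_lit 1690420), (nat_lit 0), (nat_lit 0)]) (PF.cons PF.nil PF.nil))))))))) (PF.cons (PF.cons (PF.leaf (nat_lit 4824449) (nat_lit 1597463) (nat_lit 45597476) (nat_lit 16718944) [(nat_lit 0), (nat_lit 1597463),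 (nat_lit 0), (nat_lit 0)]) (PF.cons (PF.leaf (nat_lit 5132655) (nat_lit 504887) (nat_lit 45103651) (nat_lit 16637236) [(nat_lit 504887), (nat_lit 1621012), (nat_lit 0), (nat_lit 0)]) (PF.cons (PF.leaf (nat_lit
 5454875) (nat_lit 518883) (nat_lit 44592997) (nat_lit 16549819) [(nat_lit 518883), (nat_lit 1642743), (nat_lit 0), (nat_lit 0)]) (PF.cons (PF.leaf (nat_lit 5788478) (nat_lit 531509) (nat_lit 44069301) (nat_lit 16457134) [(nat_lit 531509), (nat_lit 1662616), (nat_lit 0), (nat_lit 0)]) (PF.cons (PF.leaf (nat_lit 6131635) (nat_lit 542913) (nat_lit 43535642) (nat_lit 16359582) [(nat_lit 542913), (nat_lit 1680644), (nat_lit 0), (nat_lit 0)]) (PF.cons (PF.leaf (nat_lit 6482728) (nat_lit 553213) (nat_lit 42994596) (nat_lit 16257533) [(nat_lit 553213), (nat_lit 1696871), (nat_lit 0), (nat_lit 0)]) (PF.cons PF.nil PF.nil))))))) (PF.cons (PF.cons (PF.leaf (nat_lit 5578389) (nat_lit 1652874) (nat_lit 44048343) (nat_lit 16448972) [(nat_lit 0), (nat_lit 1652874), (nat_lit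 0), (nat_lit 0)]) (PF.cons (PF.leaf (nat_lit 5904932) (nat_lit 533849) (nat_lit 43535582) (nat_lit 16355218) [(nat_lit 533849), (nat_lit 1671040), (nat_lit 0), (nat_lit 0)]) (PF.cons (PF.leaf (nat_lit 6241854) (nat_lit 544919) (nat_lit 43012223) (nat_lit 16256602) [(nat_lit 544919), (nat_lit 1687536), (nat_lit 0), (nat_lit 0)]) (PF.cons (PF.leaf (nat_lit 6587095) (nat_lit 554884) (nat_lit 42481099) (nat_lit 16153549)
 [(nat_lit 554884), (nat_lit 1702377), (nat_lit 0), (nat_lit 0)]) (PF.cons (PF.leaf (nat_lit 6939170) (nat_lit 563848) (nat_lit 41944551) (nat_lit 16046451) [(nat_lit 563848), (nat_lit 1715603), (nat_lit 0), (nat_lit 0)]) PF.nil))))) (PF.cons (PF.cons (PF.leaf (nat_lit 6352240) (nat_lit 1693465) (nat_lit 42490320) (nat_lit 16151162) [(nat_lit 0), (nat_lit 1693465), (nat_lit 0), (nat_lit 0)]) (PF.cons (PF.leaf (nat_lit 6690860) (nat_lit 556094) (nat_lit 41970212) (nat_lit 16047496) [(nat_lit 556094), (nat_lit 1707002), (nat_lit 0), (nat_lit 0)]) (PF.cons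 (PF.leaf (nat_lit 7037004) (nat_lit 564784) (nat_lit 41444194) (nat_lit 15939824) [(nat_lit 564784), (nat_lit 1719044), (nat_lit 0), (nat_lit 0)]) (PF.cons PF.nil PF.nil)))) (PF.cons (PF.cons (PF.leaf (nat_lit 7134651) (nat_lit 1721729) (nat_lit 40946952) (nat_lit 15831483) [(nat_lit 0), (nat_lit 1721729), (nat_lit 0), (nat_lit 0)]) (PF.cons (PF.leaf (nat_lit 7480433) (nat_lit 572871) (nat_lit 40428088) (nat_lit 15720018) [(nat_lit 572871), (nat_lit 1731305), (nat_lit 0), (nat_lit 0)]) PF.nil)) (PF.cons PF.nil (PF.cons PF.nil PF.nil))))))))) (PF.cons (PF.cons (PF.cons (PF.leaf (nat_lit 3982883) (nat_lit 3548802) (nat_lit 46687440)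
 (nat_lit 16872570) [(nat_lit 0), (nat_lit 0), (nat_lit 3548802), (nat_lit 0)]) (PF.cons (PF.leaf (nat_lit 4236111) (nat_lit 443414) (nat_lit 46277891) (nat_lit 16810680) [(nat_lit 443414), (nat_lit 0), (nat_lit 3576826), (nat_lit 0)]) (PF.cons (PF.leaf (nat_lit 4512694) (nat_lit 464150) (nat_lit 45835075) (nat_lit 16741495) [(nat_lit 464150), (nat_lit 0), (nat_lit 3603940), (nat_lit 0)]) (PF.cons (PF.leaf (nat_lit 4807899) (nat_lit 482427) (nat_lit 45366352) (nat_lit 16665745) [(nat_lit 482427), (nat_lit 0), (nat_lit 3629433), (nat_lit 0)]) (PF.cons (PF.leaf (nat_lit 5118592) (nat_lit 498696) (nat_lit 44877165) (nat_lit 16583978) [(nat_lit 498696), (nat_lit 0), (nat_lit 3652881), (nat_lit 0)]) (PF.cons (PF.leaf (nat_lit 5442294) (nat_lit 513268) (nat_lit 44371784) (nat_lit 16496649) [(nat_lit 513268), (nat_lit 0), (nat_lit 3674035), (nat_lit 0)]) (PF.cons (PF.leaf (nat_lit 5776943) (nat_lit 526366) (nat_lit 43853687) (nat_lit 16404165) [(nat_lit 526366), (nat_lit 0),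 (nat_lit 3692763), (nat_lit 0)]) (PF.cons (PF.leaf (nat_lit 6120795) (nat_lit 538160) (nat_lit 43325776) (nat_lit 16306900) [(nat_lit 538160), (nat_lit 0), (nat_lit 3709009), (nat_lit 0)]) (PF.cons (PF.leaf (nat_lit
 6472342) (nat_lit 548787) (nat_lit 42790524) (nat_lit 16205214) [(nat_lit 548787), (nat_lit 0), (nat_lit 3722773), (nat_lit 0)]) (PF.cons PF.nil PF.nil)))))))))) (PF.cons (PF.cons (PF.leaf (nat_lit 4655959) (nat_lit 1571948) (nat_lit 45268315) (nat_lit 16645173) [(nat_lit 0), (nat_lit 1571948), (nat_lit 3623375), (nat_lit 0)]) (PF.cons (PF.leaf (nat_lit 4942013) (nat_lit 486024) (nat_lit 44812329) (nat_lit 16568539) [(nat_lit 486024), (nat_lit 1596516), (nat_lit 3645403), (nat_lit 0)]) (PF.cons (PF.leaf (nat_lit 5245234) (nat_lit 501977) (nat_lit 44334138) (nat_lit 16485650) [(nat_lit 501977), (nat_lit 1619338), (nat_lit 3665730), (nat_lit 0)]) (PF.cons (PF.leaf (nat_lit 5562265) (nat_lit 516188) (nat_lit 43838783) (nat_lit 16397108) [(nat_lit 516188), (nat_lit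 1640307), (nat_lit 3684048), (nat_lit 0)]) (PF.cons (PF.leaf (nat_lit 5890785) (nat_lit 528910) (nat_lit 43330171) (nat_lit 16303406) [(nat_lit 528910), (nat_lit 1659407), (nat_lit 3700186), (nat_lit 0)]) (PF.cons (PF.leaf (nat_lit 6228869) (nat_lit 540329) (nat_lit 42811457) (nat_lit 16204978) [(nat_lit 540329), (nat_lit 1676667), (nat_lit 3714060), (nat_lit 0)]) (PF.cons (PF.leaf (nat_lit 6574942) (nat_lit 550590)
 (nat_lit 42285257) (nat_lit 16102219) [(nat_lit 550590), (nat_lit 1692143), (nat_lit 3725647), (nat_lit 0)]) (PF.cons PF.nil (PF.cons PF.nil PF.nil))))))))) (PF.cons (PF.cons (PF.leaf (nat_lit 5373884) (nat_lit 1630310) (nat_lit 43788157) (nat_lit 16383624) [(nat_lit 0), (nat_lit 1630310), (nat_lit 3676410), (nat_lit 0)]) (PF.cons (PF.leaf (nat_lit 5682878) (nat_lit 518406) (nat_lit 43305017) (nat_lit 16294447) [(nat_lit 518406), (nat_lit 1649437), (nat_lit 3692067), (nat_lit 0)]) (PF.cons (PF.leaf (nat_lit 6004546) (nat_lit 530860) (nat_lit 42807489) (nat_lit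 16200000) [(nat_lit 530860), (nat_lit 1666909), (nat_lit 3705782), (nat_lit 0)]) (PF.cons (PF.leaf (nat_lit 6336379) (nat_lit 541986) (nat_lit 42299173) (nat_lit 16100807) [(nat_lit 541986), (nat_lit 1682714), (nat_lit 3717442), (nat_lit 0)]) (PF.cons (PF.leaf (nat_lit 6676576) (nat_lit 551946) (nat_lit 41782948) (nat_lit 15997320) [(nat_lit 551946), (nat_lit 1696878), (nat_lit 3727000), (nat_lit 0)]) (PF.cons (PF.leaf (nat_lit 7023641) (nat_lit 560865) (nat_lit 41261179) (nat_lit 15889945) [(nat_lit 560865), (nat_lit 1709450), (nat_lit 3734459), (nat_lit 0)]) (PF.cons PF.nil PF.nil))))))) (PF.cons (PF.cons (PF.leaf (nat_lit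
 6119357) (nat_lit 1673425) (nat_lit 42284985) (nat_lit 16093885) [(nat_lit 0), (nat_lit 1673425), (nat_lit 3709664), (nat_lit 0)]) (PF.cons (PF.leaf (nat_lit 6443922) (nat_lit 543121) (nat_lit 41788489) (nat_lit 15994378) [(nat_lit 543121), (nat_lit 1687855), (nat_lit 3719255), (nat_lit 0)]) (PF.cons (PF.leaf (nat_lit 6777767) (nat_lit 552852) (nat_lit 41283293) (nat_lit 15890539) [(nat_lit 552852), (nat_lit 1700784), (nat_lit 3726922), (nat_lit 0)]) (PF.cons (PF.leaf (nat_lit 7118911) (nat_lit 561530) (nat_lit 40772031) (nat_lit 15782830) [(nat_lit 561530), (nat_lit 1712237), (nat_lit 3732646), (nat_lit 0)]) (PF.cons PF.nil PF.nil))))) (PF.cons (PF.cons (PF.leaf (nat_lit 6879394) (nat_lit 1703913) (nat_lit 40785814) (nat_lit 15781854) [(nat_lit 0), (nat_lit 1703913), (nat_lit 3725490), (nat_lit 0)]) (PF.cons (PF.leaf (nat_lit 7213877) (nat_lit 561795) (nat_lit 40285991) (nat_lit 15674165) [(nat_lit 561795), (nat_lit 1714314), (nat_lit 3729602), (nat_lit 0)]) (PF.cons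 (PF.leaf (nat_lit 7554998) (nat_lit 569338) (nat_lit 39781656) (nat_lit 15563017) [(nat_lit 569338), (nat_lit 1723383), (nat_lit 3731927), (nat_lit 0)]) (PF.cons PF.nil PF.nil)))) (PF.cons (PF.cons (PF.leaf (nat_lit
 7644116) (nat_lit 1723892) (nat_lit 39309890) (nat_lit 15453116) [(nat_lit 0), (nat_lit 1723892), (nat_lit 3726346), (nat_lit 0)]) (PF.cons (PF.leaf (nat_lit 7984124) (nat_lit 575588) (nat_lit 38814022) (nat_lit 15339247) [(nat_lit 575588), (nat_lit 1730858), (nat_lit 3725662), (nat_lit 0)]) PF.nil)) (PF.cons PF.nil (PF.cons PF.nil PF.nil)))))))) (PF.cons (PF.cons (PF.cons (PF.leaf (nat_lit 5191749) (nat_lit 3652598) (nat_lit 43492218) (nat_lit 16311397) [(nat_lit 0), (nat_lit 0), (nat_lit 3652598), (nat_lit 0)]) (PF.cons (PF.leaf (nat_lit 5479867) (nat_lit 500125) (nat_lit 43044647) (nat_lit 16227868) [(nat_lit 500125), (nat_lit 0), (nat_lit 3668085), (nat_lit 0)]) (PF.cons (PF.leaf (nat_lit 5783837) (nat_lit 514558) (nat_lit 42577399) (nat_lit 16138388)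 [(nat_lit 514558), (nat_lit 0), (nat_lit 3681953), (nat_lit 0)]) (PF.cons (PF.leaf (nat_lit 6100360) (nat_lit 527275) (nat_lit 42095345) (nat_lit 16043669) [(nat_lit 527275), (nat_lit 0), (nat_lit 3693985), (nat_lit 0)]) (PF.cons (PF.leaf (nat_lit 6427148) (nat_lit 538549) (nat_lit 41602195) (nat_lit 15944280) [(nat_lit 538549), (nat_lit 0), (nat_lit 3704070), (nat_lit 0)]) (PF.cons (PF.leaf (nat_lit 6762375) (nat_lit 548577)
 (nat_lit 41100898) (nat_lit 15840702) [(nat_lit 548577), (nat_lit 0), (nat_lit 3712161), (nat_lit 0)]) (PF.cons (PF.leaf (nat_lit 7104541) (nat_lit 557511) (nat_lit 40593863) (nat_lit 15733361) [(nat_lit 557511), (nat_lit 0), (nat_lit 3718260), (nat_lit 0)]) (PF.cons PF.nil (PF.cons PF.nil PF.nil))))))))) (PF.cons (PF.cons (PF.leaf (nat_lit 5904398) (nat_lit 1651882) (nat_lit 42052876) (nat_lit 16031176) [(nat_lit 0), (nat_lit 1651882), (nat_lit 3686438), (nat_lit 0)]) (PF.cons (PF.leaf (nat_lit 6212620) (nat_lit 528245) (nat_lit 41583934) (nat_lit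 15936562) [(nat_lit 528245), (nat_lit 1667343), (nat_lit 3696363), (nat_lit 0)]) (PF.cons (PF.leaf (nat_lit 6532376) (nat_lit 539364) (nat_lit 41102619) (nat_lit 15837120) [(nat_lit 539364), (nat_lit 1681287), (nat_lit 3704527), (nat_lit 0)]) (PF.cons (PF.leaf (nat_lit 6861235) (nat_lit 549200) (nat_lit 40612331) (nat_lit 15733429) [(nat_lit 549200), (nat_lit 1693723), (nat_lit 3710863), (nat_lit 0)]) (PF.cons (PF.leaf (nat_lit 7197472) (nat_lit 557922) (nat_lit 40115752) (nat_lit 15625972) [(nat_lit 557922), (nat_lit 1704689), (nat_lit 3715353), (nat_lit 0)]) (PF.cons PF.nil (PF.cons PF.nil PF.nil))))))) (PF.cons (PF.cons (PF.leaf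
 (nat_lit 6638892) (nat_lit 1684921) (nat_lit 40603974) (nat_lit 15727794) [(nat_lit 0), (nat_lit 1684921), (nat_lit 3703600), (nat_lit 0)]) (PF.cons (PF.leaf (nat_lit 6960397) (nat_lit 549364) (nat_lit 40125938) (nat_lit 15624408) [(nat_lit 549364), (nat_lit 1696247), (nat_lit 3708303), (nat_lit 0)]) (PF.cons (PF.leaf (nat_lit 7290239) (nat_lit 557942) (nat_lit 39640719) (nat_lit 15517177) [(nat_lit 557942), (nat_lit 1706215), (nat_lit 3711299), (nat_lit 0)]) (PF.cons (PF.leaf (nat_lit 7626526) (nat_lit 565516) (nat_lit 39150764) (nat_lit 15406585) [(nat_lit 565516), (nat_lit 1714863), (nat_lit 3712593), (nat_lit 0)]) (PF.cons PF.nil PF.nil))))) (PF.cons (PF.cons (PF.leaf (nat_lit 7383689) (nat_lit 1707110) (nat_lit 39168246) (nat_lit 15406929) [(nat_lit 0), (nat_lit 1707110), (nat_lit 3706153), (nat_lit 0)]) (PF.cons (PF.leaf (nat_lit 7713331) (nat_lit 565022) (nat_lit 38689837) (nat_lit 15296865) [(nat_lit 565022), (nat_lit 1714908), (nat_lit 3706181), (nat_lit 0)])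 (PF.cons (PF.leaf (nat_lit 8048870) (nat_lit 571579) (nat_lit 38207996) (nat_lit 15183819) [(nat_lit 571579), (nat_lit 1721514), (nat_lit 3704647), (nat_lit 0)]) (PF.cons PF.nil PF.nil)))) (PF.cons (PF.cons (PF.leaf
 (nat_lit 8130135) (nat_lit 1720290) (nat_lit 37761506) (nat_lit 15073696) [(nat_lit 0), (nat_lit 1720290), (nat_lit 3696223), (nat_lit 0)]) (PF.cons PF.nil PF.nil)) (PF.cons PF.nil PF.nil)))))) (PF.cons (PF.cons (PF.cons (PF.leaf (nat_lit 6415602) (nat_lit 3681120) (nat_lit 40397147) (nat_lit 15668303) [(nat_lit 0), (nat_lit 0), (nat_lit 3681120), (nat_lit 0)]) (PF.cons (PF.leaf (nat_lit 6721845) (nat_lit 535082) (nat_lit 39944644) (nat_lit 15569970) [(nat_lit 535082), (nat_lit 0), (nat_lit 3686371), (nat_lit 0)]) (PF.cons (PF.leaf (nat_lit 7038666) (nat_lit 545039) (nat_lit 39481434) (nat_lit 15467236) [(nat_lit 545039), (nat_lit 0), (nat_lit 3690020), (nat_lit 0)]) (PF.cons (PF.leaf (nat_lit 7363671) (nat_lit 553757) (nat_lit 39010719) (nat_lit 15360710)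 [(nat_lit 553757), (nat_lit 0), (nat_lit 3692036), (nat_lit 0)]) (PF.cons (PF.leaf (nat_lit 7695225) (nat_lit 561413) (nat_lit 38534990) (nat_lit 15250894) [(nat_lit 561413), (nat_lit 0), (nat_lit 3692425), (nat_lit 0)]) (PF.cons PF.nil (PF.cons PF.nil PF.nil))))))) (PF.cons (PF.cons (PF.leaf (nat_lit 7137338) (nat_lit 1689177) (nat_lit 39007335) (nat_lit 15356347) [(nat_lit 0), (nat_lit 1689177), (nat_lit 3685317), (nat_lit
 0)]) (PF.cons (PF.leaf (nat_lit 7454982) (nat_lit 553138) (nat_lit 38548982) (nat_lit 15250622) [(nat_lit 553138), (nat_lit 1697911), (nat_lit 3686052), (nat_lit 0)]) (PF.cons (PF.leaf (nat_lit 7780166) (nat_lit 560718) (nat_lit 38084661) (nat_lit 15141494) [(nat_lit 560718), (nat_lit 1705414), (nat_lit 3685268), (nat_lit 0)]) (PF.cons (PF.leaf (nat_lit 8111071) (nat_lit 567341) (nat_lit 37616642) (nat_lit 15029451) [(nat_lit 567341), (nat_lit 1711728), (nat_lit 3682988), (nat_lit 0)]) (PF.cons PF.nil PF.nil))))) (PF.cons (PF.cons (PF.leaf (nat_lit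 7866012) (nat_lit 1704523) (nat_lit 37637083) (nat_lit 15031001) [(nat_lit 0), (nat_lit 1704523), (nat_lit 3677227), (nat_lit 0)]) (PF.cons (PF.leaf (nat_lit 8190351) (nat_lit 566235) (nat_lit 37180497) (nat_lit 14919883) [(nat_lit 566235), (nat_lit 1710154), (nat_lit 3673962), (nat_lit 0)]) (PF.cons PF.nil (PF.cons PF.nil PF.nil)))) (PF.cons (PF.cons (PF.leaf (nat_lit 8593991) (nat_lit 1712114) (nat_lit 36299452) (nat_lit 14696883) [(nat_lit 0), (nat_lit 1712114), (nat_lit 3658710), (nat_lit 0)]) (PF.cons PF.nil PF.nil)) (PF.cons PF.nil PF.nil))))) (PF.cons (PF.cons (PF.cons (PF.leaf (nat_lit 7615325) (nat_lit 3657519) (nat_lit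
 37494748) (nat_lit 14983984) [(nat_lit 0), (nat_lit 0), (nat_lit 3657519), (nat_lit 0)]) (PF.cons (PF.leaf (nat_lit 7928511) (nat_lit 554894) (nat_lit 37056601) (nat_lit 14877169) [(nat_lit 554894), (nat_lit 0), (nat_lit 3655036), (nat_lit 0)]) (PF.cons (PF.leaf (nat_lit 8248582) (nat_lit 561608) (nat_lit 36613461) (nat_lit 14767341) [(nat_lit 561608), (nat_lit 0), (nat_lit 3651198), (nat_lit 0)]) (PF.cons PF.nil PF.nil)))) (PF.cons (PF.cons (PF.leaf (nat_lit 8327390) (nat_lit 1697328) (nat_lit 36190207) (nat_lit 14657619) [(nat_lit 0), (nat_lit 1697328), (nat_lit 3640914), (nat_lit 0)]) (PF.cons (PF.leaf (nat_lit 8646105) (nat_lit 565812) (nat_lit 35755349) (nat_lit 14546496) [(nat_lit 565812), (nat_lit 1701154), (nat_lit 3634999), (nat_lit 0)]) PF.nil)) (PF.cons PF.nil PF.nil))) (PF.cons (PF.cons (PF.cons (PF.leaf (nat_lit 8768936) (nat_lit 3598973) (nat_lit 34824479) (nat_lit 14289465) [(nat_lit 0), (nat_lit 0), (nat_lit 3598973), (nat_lit 0)]) (PF.cons PF.nil PF.nil))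 (PF.cons PF.nil PF.nil)) (PF.cons PF.nil (PF.cons PF.nil PF.nil)))))))) (PF.cons (PF.cons (PF.cons (PF.cons (PF.leaf (nat_lit 4804377) (nat_lit 8587205) (nat_lit 42497021) (nat_lit 16024586) [(nat_lit 0),
 (nat_lit 0), (nat_lit 0), (nat_lit 8587205)]) (PF.cons (PF.leaf (nat_lit 5053810) (nat_lit 451385) (nat_lit 42126746) (nat_lit 15954609) [(nat_lit 451385), (nat_lit 0), (nat_lit 0), (nat_lit 8576070)]) (PF.cons (PF.leaf (nat_lit 5324809) (nat_lit 470495) (nat_lit 41728061) (nat_lit 15877572) [(nat_lit 470495), (nat_lit 0), (nat_lit 0), (nat_lit 8562189)]) (PF.cons (PF.leaf (nat_lit 5612633) (nat_lit 487031) (nat_lit 41307719) (nat_lit 15794484) [(nat_lit 487031), (nat_lit 0), (nat_lit 0), (nat_lit 8545513)]) (PF.cons (PF.leaf (nat_lit 5914185) (nat_lit 501509) (nat_lit 40870648) (nat_lit 15706090) [(nat_lit 501509), (nat_lit 0), (nat_lit 0), (nat_lit 8526034)]) (PF.cons (PF.leaf (nat_lit 6227055) (nat_lit 514279) (nat_lit 40420653) (nat_lit 15612982) [(nat_lit 514279),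 (nat_lit 0), (nat_lit 0), (nat_lit 8503778)]) (PF.cons (PF.leaf (nat_lit 6549322) (nat_lit 525596) (nat_lit 39960776) (nat_lit 15515658) [(nat_lit 525596), (nat_lit 0), (nat_lit 0), (nat_lit 8478797)]) (PF.cons (PF.leaf (nat_lit 6879354) (nat_lit 535652) (nat_lit 39493520) (nat_lit 15414553) [(nat_lit 535652), (nat_lit 0), (nat_lit 0), (nat_lit 8451171)]) (PF.cons (PF.leaf (nat_lit 7215774) (nat_lit 544597) (nat_lit
 39020975) (nat_lit 15310058) [(nat_lit 544597), (nat_lit 0), (nat_lit 0), (nat_lit 8420996)]) (PF.cons PF.nil PF.nil)))))))))) (PF.cons (PF.cons (PF.leaf (nat_lit 5454361) (nat_lit 1573649) (nat_lit 41225080) (nat_lit 15774056) [(nat_lit 0), (nat_lit 1573649), (nat_lit 0), (nat_lit 8536026)]) (PF.cons (PF.leaf (nat_lit 5732631) (nat_lit 488776) (nat_lit 40817637) (nat_lit 15691388) [(nat_lit 488776), (nat_lit 1593316), (nat_lit 0), (nat_lit 8517694)]) (PF.cons (PF.leaf (nat_lit 6026420) (nat_lit 503070) (nat_lit 40391729) (nat_lit 15603114) [(nat_lit 503070),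 (nat_lit 1611249), (nat_lit 0), (nat_lit 8496578)]) (PF.cons (PF.leaf (nat_lit 6332439) (nat_lit 515605) (nat_lit 39951855) (nat_lit 15509976) [(nat_lit 515605), (nat_lit 1627423), (nat_lit 0), (nat_lit 8472739)]) (PF.cons (PF.leaf (nat_lit 6648495) (nat_lit 526666) (nat_lit 39501455) (nat_lit 15412561) [(nat_lit 526666), (nat_lit 1641876), (nat_lit 0), (nat_lit 8446252)]) (PF.cons (PF.leaf (nat_lit 6972763) (nat_lit 536461) (nat_lit 39043260) (nat_lit 15311359) [(nat_lit 536461), (nat_lit 1654675), (nat_lit 0), (nat_lit 8417209)]) (PF.cons (PF.leaf (nat_lit 7303765) (nat_lit 545149) (nat_lit 38579502) (nat_lit 15206796)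
 [(nat_lit 545149), (nat_lit 1665902), (nat_lit 0), (nat_lit 8385714)]) (PF.cons PF.nil (PF.cons PF.nil PF.nil))))))))) (PF.cons (PF.cons (PF.leaf (nat_lit 6140911) (nat_lit 1617528) (nat_lit 39911267) (nat_lit 15497560) [(nat_lit 0), (nat_lit 1617528), (nat_lit 0), (nat_lit 8464927)]) (PF.cons (PF.leaf (nat_lit 6438799) (nat_lit 516337) (nat_lit 39483276) (nat_lit 15404904) [(nat_lit 516337), (nat_lit 1632264), (nat_lit 0), (nat_lit 8439764)]) (PF.cons (PF.leaf (nat_lit 6747972) (nat_lit 527243) (nat_lit 39043606) (nat_lit 15307799) [(nat_lit 527243), (nat_lit 1645462), (nat_lit 0), (nat_lit 8411993)]) (PF.cons (PF.leaf (nat_lit 7066020) (nat_lit 536852) (nat_lit 38595395) (nat_lit 15206827) [(nat_lit 536852), (nat_lit 1657151), (nat_lit 0), (nat_lit 8381729)]) (PF.cons (PF.leaf (nat_lit 7391275) (nat_lit 545341) (nat_lit 38141115) (nat_lit 15102470) [(nat_lit 545341), (nat_lit 1667386), (nat_lit 0), (nat_lit 8349088)]) (PF.cons (PF.leaf (nat_lit 7722357) (nat_lit 552846)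 (nat_lit 37682775) (nat_lit 14995142) [(nat_lit 552846), (nat_lit 1676234), (nat_lit 0), (nat_lit 8314194)]) (PF.cons PF.nil PF.nil))))))) (PF.cons (PF.cons (PF.leaf (nat_lit 6848826) (nat_lit 1648317) (nat_lit
 38586557) (nat_lit 15201267) [(nat_lit 0), (nat_lit 1648317), (nat_lit 0), (nat_lit 8376035)]) (PF.cons (PF.leaf (nat_lit 7159711) (nat_lit 536809) (nat_lit 38149454) (nat_lit 15100904) [(nat_lit 536809), (nat_lit 1658961), (nat_lit 0), (nat_lit 8344760)]) (PF.cons (PF.leaf (nat_lit 7478771) (nat_lit 545165) (nat_lit 37705469) (nat_lit 14997058) [(nat_lit 545165), (nat_lit 1668265), (nat_lit 0), (nat_lit 8311157)]) (PF.cons (PF.leaf (nat_lit 7804143) (nat_lit 552519) (nat_lit 37256855) (nat_lit 14890200) [(nat_lit 552519), (nat_lit 1676277), (nat_lit 0), (nat_lit 8275363)]) (PF.cons PF.nil PF.nil))))) (PF.cons (PF.cons (PF.leaf (nat_lit 7567094) (nat_lit 1668575) (nat_lit 37272075) (nat_lit 14890496) [(nat_lit 0), (nat_lit 1668575), (nat_lit 0), (nat_lit 8271939)])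 (PF.cons (PF.leaf (nat_lit 7886039) (nat_lit 551866) (nat_lit 36833916) (nat_lit 14784395) [(nat_lit 551866), (nat_lit 1675804), (nat_lit 0), (nat_lit 8235416)]) (PF.cons (PF.leaf (nat_lit 8210790) (nat_lit 558225) (nat_lit 36392329) (nat_lit 14675630) [(nat_lit 558225), (nat_lit 1681878), (nat_lit 0), (nat_lit 8196887)]) (PF.cons PF.nil PF.nil)))) (PF.cons (PF.cons (PF.leaf (nat_lit 8287523) (nat_lit 1680255) (nat_lit
 35982371) (nat_lit 14569854) [(nat_lit 0), (nat_lit 1680255), (nat_lit 0), (nat_lit 8155310)]) (PF.cons PF.nil PF.nil)) (PF.cons PF.nil (PF.cons PF.nil PF.nil)))))))) (PF.cons (PF.cons (PF.cons (PF.leaf (nat_lit 5949822) (nat_lit 3584633) (nat_lit 39665219) (nat_lit 15429530) [(nat_lit 0), (nat_lit 0), (nat_lit 3584633), (nat_lit 8429429)]) (PF.cons (PF.leaf (nat_lit 6228539) (nat_lit 498385) (nat_lit 39268257) (nat_lit 15343044) [(nat_lit 498385), (nat_lit 0), (nat_lit 3593159), (nat_lit 8405966)]) (PF.cons (PF.leaf (nat_lit 6521687) (nat_lit 511352)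 (nat_lit 38854826) (nat_lit 15251282) [(nat_lit 511352), (nat_lit 0), (nat_lit 3600185), (nat_lit 8379814)]) (PF.cons (PF.leaf (nat_lit 6826019) (nat_lit 522611) (nat_lit 38429227) (nat_lit 15155041) [(nat_lit 522611), (nat_lit 0), (nat_lit 3605595), (nat_lit 8351113)]) (PF.cons (PF.leaf (nat_lit 7139393) (nat_lit 532457) (nat_lit 37994700) (nat_lit 15054942) [(nat_lit 532457), (nat_lit 0), (nat_lit 3609346), (nat_lit 8319994)]) (PF.cons (PF.leaf (nat_lit 7460113) (nat_lit 541101) (nat_lit 37553787) (nat_lit 14951492) [(nat_lit 541101), (nat_lit 0), (nat_lit 3611440), (nat_lit 8286585)]) (PF.cons (PF.leaf (nat_lit 7786732) (nat_lit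
 548704) (nat_lit 37108540) (nat_lit 14845121) [(nat_lit 548704), (nat_lit 0), (nat_lit 3611907), (nat_lit 8251015)]) (PF.cons PF.nil (PF.cons PF.nil PF.nil))))))))) (PF.cons (PF.cons (PF.leaf (nat_lit 6628900) (nat_lit 1627503) (nat_lit 38395504) (nat_lit 15143844) [(nat_lit 0), (nat_lit 1627503), (nat_lit 3598280), (nat_lit 8343679)]) (PF.cons (PF.leaf (nat_lit 6925000) (nat_lit 522407) (nat_lit 37982157) (nat_lit 15048576) [(nat_lit 522407), (nat_lit 1639353), (nat_lit 3602200), (nat_lit 8314116)]) (PF.cons (PF.leaf (nat_lit 7231462) (nat_lit 532191) (nat_lit 37558643) (nat_lit 14949242) [(nat_lit 532191), (nat_lit 1649801), (nat_lit 3604601), (nat_lit 8282141)]) (PF.cons (PF.leaf (nat_lit 7545961) (nat_lit 540731) (nat_lit 37127912) (nat_lit 14846442) [(nat_lit 540731), (nat_lit 1658887), (nat_lit 3605465), (nat_lit 8247910)]) (PF.cons (PF.leaf (nat_lit 7866874) (nat_lit 548207) (nat_lit 36692263) (nat_lit 14740668) [(nat_lit 548207), (nat_lit 1666671), (nat_lit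 3604811), (nat_lit 8211568)]) (PF.cons PF.nil (PF.cons PF.nil PF.nil))))))) (PF.cons (PF.cons (PF.leaf (nat_lit 7325126) (nat_lit 1650582) (nat_lit 37123765) (nat_lit 14842127) [(nat_lit 0), (nat_lit 1650582), (nat_lit
 3598861), (nat_lit 8242893)]) (PF.cons (PF.leaf (nat_lit 7632460) (nat_lit 539974) (nat_lit 36704217) (nat_lit 14740330) [(nat_lit 539974), (nat_lit 1658829), (nat_lit 3598596), (nat_lit 8208035)]) (PF.cons (PF.leaf (nat_lit 7947231) (nat_lit 547385) (nat_lit 36278881) (nat_lit 14635431) [(nat_lit 547385), (nat_lit 1665865), (nat_lit 3596912), (nat_lit 8171086)]) (PF.cons (PF.leaf (nat_lit 8267643) (nat_lit 553844) (nat_lit 35849847) (nat_lit 14527903) [(nat_lit 553844), (nat_lit 1671743), (nat_lit 3593838), (nat_lit 8132203)]) (PF.cons PF.nil PF.nil))))) (PF.cons (PF.cons (PF.leaf (nat_lit 8028622) (nat_lit 1664594) (nat_lit 35867891) (nat_lit 14529329) [(nat_lit 0), (nat_lit 1664594), (nat_lit 3588241), (nat_lit 8129568)]) (PF.cons (PF.leaf (nat_lit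 8342682) (nat_lit 552642) (nat_lit 35449192) (nat_lit 14422869) [(nat_lit 552642), (nat_lit 1669842), (nat_lit 3584309), (nat_lit 8090271)]) (PF.cons PF.nil (PF.cons PF.nil PF.nil)))) (PF.cons (PF.cons (PF.leaf (nat_lit 8732142) (nat_lit 1671224) (nat_lit 34639963) (nat_lit 14209603) [(nat_lit 0), (nat_lit 1671224), (nat_lit 3568201), (nat_lit 8006146)]) (PF.cons PF.nil PF.nil)) (PF.cons PF.nil PF.nil)))))) (PF.cons (PF.cons (PF.cons
 (PF.leaf (nat_lit 7099371) (nat_lit 3577442) (nat_lit 36953563) (nat_lit 14788437) [(nat_lit 0), (nat_lit 0), (nat_lit 3577442), (nat_lit 8211926)]) (PF.cons (PF.leaf (nat_lit 7392877) (nat_lit 526244) (nat_lit 36555946) (nat_lit 14691700) [(nat_lit 526244), (nat_lit 0), (nat_lit 3577986), (nat_lit 8178948)]) (PF.cons (PF.leaf (nat_lit 7695963) (nat_lit 535050) (nat_lit 36149422) (nat_lit 14591249) [(nat_lit 535050), (nat_lit 0), (nat_lit 3577147), (nat_lit 8143747)]) (PF.cons (PF.leaf (nat_lit 8006341) (nat_lit 542662) (nat_lit 35736758)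 (nat_lit 14487695) [(nat_lit 542662), (nat_lit 0), (nat_lit 3574932), (nat_lit 8106507)]) (PF.cons (PF.leaf (nat_lit 8322481) (nat_lit 549262) (nat_lit 35320091) (nat_lit 14381529) [(nat_lit 549262), (nat_lit 0), (nat_lit 3571373), (nat_lit 8067393)]) PF.nil))))) (PF.cons (PF.cons (PF.leaf (nat_lit 7782869) (nat_lit 1647741) (nat_lit 35736587) (nat_lit 14484553) [(nat_lit 0), (nat_lit 1647741), (nat_lit 3568879), (nat_lit 8102172)]) (PF.cons (PF.leaf (nat_lit 8086158) (nat_lit 541331) (nat_lit 35334991) (nat_lit 14382309) [(nat_lit 541331), (nat_lit 1653982), (nat_lit 3565790), (nat_lit 8064617)]) (PF.cons (PF.leaf (nat_lit 8396225) (nat_lit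
 547921) (nat_lit 34928493) (nat_lit 14277301) [(nat_lit 547921), (nat_lit 1659124), (nat_lit 3561433), (nat_lit 8025185)]) (PF.cons PF.nil PF.nil)))) (PF.cons (PF.cons (PF.leaf (nat_lit 8471191) (nat_lit 1656592) (nat_lit 34539321) (nat_lit 14172434) [(nat_lit 0), (nat_lit 1656592), (nat_lit 3550863), (nat_lit 7982145)]) (PF.cons (PF.leaf (nat_lit 8780089) (nat_lit 551963) (nat_lit 34139951) (nat_lit 14066436) [(nat_lit 551963), (nat_lit 1660187), (nat_lit 3544620), (nat_lit 7940844)]) PF.nil)) (PF.cons PF.nil (PF.cons PF.nil PF.nil))))) (PF.cons (PF.cons (PF.cons (PF.leaf (nat_lit 8222772) (nat_lit 3532720) (nat_lit 34423053) (nat_lit 14131144) [(nat_lit 0), (nat_lit 0), (nat_lit 3532720), (nat_lit 7956453)]) (PF.cons (PF.leaf (nat_lit 8521623) (nat_lit 541209) (nat_lit 34039402) (nat_lit 14029237) [(nat_lit 541209), (nat_lit 0), (nat_lit 3527344), (nat_lit 7916930)]) (PF.cons (PF.leaf (nat_lit 8826724) (nat_lit 547084) (nat_lit 33651567) (nat_lit 13924865) [(nat_lit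 547084), (nat_lit 0), (nat_lit 3520830), (nat_lit 7875721)]) (PF.cons PF.nil PF.nil)))) (PF.cons (PF.cons (PF.leaf (nat_lit 8895745) (nat_lit 1645395) (nat_lit 33283400) (nat_lit 13821817) [(nat_lit 0), (nat_lit
 1645395), (nat_lit 3508807), (nat_lit 7831775)]) (PF.cons PF.nil PF.nil)) (PF.cons PF.nil PF.nil))) (PF.cons (PF.cons (PF.cons (PF.leaf (nat_lit 9303278) (nat_lit 3463259) (nat_lit 32096708) (nat_lit 13478948) [(nat_lit 0), (nat_lit 0), (nat_lit 3463259), (nat_lit 7680118)]) (PF.cons PF.nil PF.nil)) (PF.cons PF.nil PF.nil)) (PF.cons PF.nil PF.nil)))))) (PF.cons (PF.cons (PF.cons (PF.cons (PF.leaf (nat_lit 6629872) (nat_lit 8082572) (nat_lit 36362881) (nat_lit 14580787) [(nat_lit 0), (nat_lit 0), (nat_lit 0), (nat_lit 8082572)]) (PF.cons (PF.leaf (nat_lit 6898857) (nat_lit 492112) (nat_lit 36011678) (nat_lit 14495429) [(nat_lit 492112), (nat_lit 0), (nat_lit 0), (nat_lit 8054796)]) (PF.cons (PF.leaf (nat_lit 7181102) (nat_lit 503888) (nat_lit 35646473) (nat_lit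 14405382) [(nat_lit 503888), (nat_lit 0), (nat_lit 0), (nat_lit 8024590)]) (PF.cons (PF.leaf (nat_lit 7473490) (nat_lit 513988) (nat_lit 35271045) (nat_lit 14311465) [(nat_lit 513988), (nat_lit 0), (nat_lit 0), (nat_lit 7992168)]) (PF.cons (PF.leaf (nat_lit 7773977) (nat_lit 522717) (nat_lit 34888219) (nat_lit 14214300) [(nat_lit 522717), (nat_lit 0), (nat_lit 0), (nat_lit 7957711)]) (PF.cons (PF.leaf (nat_lit 8080957)
 (nat_lit 530295) (nat_lit 34500190) (nat_lit 14114389) [(nat_lit 530295), (nat_lit 0), (nat_lit 0), (nat_lit 7921376)]) (PF.cons PF.nil PF.nil))))))) (PF.cons (PF.cons (PF.leaf (nat_lit 7277253) (nat_lit 1592147) (nat_lit 35244300) (nat_lit 14301675) [(nat_lit 0), (nat_lit 1592147), (nat_lit 0), (nat_lit 7985344)]) (PF.cons (PF.leaf (nat_lit 7561584) (nat_lit 512992) (nat_lit 34879996) (nat_lit 14209198) [(nat_lit 512992), (nat_lit 1601394), (nat_lit 0), (nat_lit 7952616)]) (PF.cons (PF.leaf (nat_lit 7855363) (nat_lit 521729) (nat_lit 34507130) (nat_lit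 14113237) [(nat_lit 521729), (nat_lit 1609346), (nat_lit 0), (nat_lit 7917820)]) (PF.cons (PF.leaf (nat_lit 8156354) (nat_lit 529268) (nat_lit 34128265) (nat_lit 14014386) [(nat_lit 529268), (nat_lit 1616063), (nat_lit 0), (nat_lit 7881145)]) (PF.cons (PF.leaf (nat_lit 8463063) (nat_lit 535795) (nat_lit 33745381) (nat_lit 13913119) [(nat_lit 535795), (nat_lit 1621617), (nat_lit 0), (nat_lit 7842757)]) PF.nil))))) (PF.cons (PF.cons (PF.leaf (nat_lit 7938581) (nat_lit 1608271) (nat_lit 34127169) (nat_lit 14011217) [(nat_lit 0), (nat_lit 1608271), (nat_lit 0), (nat_lit 7876940)]) (PF.cons (PF.leaf (nat_lit 8232670) (nat_lit 527908)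
 (nat_lit 33758301) (nat_lit 13913727) [(nat_lit 527908), (nat_lit 1614346), (nat_lit 0), (nat_lit 7840091)]) (PF.cons (PF.leaf (nat_lit 8533504) (nat_lit 534426) (nat_lit 33384596) (nat_lit 13813667) [(nat_lit 534426), (nat_lit 1619332), (nat_lit 0), (nat_lit 7801515)]) (PF.cons PF.nil PF.nil)))) (PF.cons (PF.cons (PF.leaf (nat_lit 8605239) (nat_lit 1616698) (nat_lit 33025891) (nat_lit 13713695) [(nat_lit 0), (nat_lit 1616698), (nat_lit 0), (nat_lit 7759565)]) (PF.cons (PF.leaf (nat_lit 8905053) (nat_lit 538391) (nat_lit 32658266) (nat_lit 13612844) [(nat_lit 538391), (nat_lit 1620185), (nat_lit 0), (nat_lit 7719377)]) PF.nil)) (PF.cons PF.nil (PF.cons PF.nil PF.nil)))))) (PF.cons (PF.cons (PF.cons (PF.leaf (nat_lit 7713124) (nat_lit 3461930) (nat_lit 33986351) (nat_lit 13963492) [(nat_lit 0), (nat_lit 0), (nat_lit 3461930), (nat_lit 7848519)]) (PF.cons (PF.leaf (nat_lit 7994564) (nat_lit 514815) (nat_lit 33636337) (nat_lit 13870846) [(nat_lit 514815), (nat_lit 0),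 (nat_lit 3459463), (nat_lit 7813674)]) (PF.cons (PF.leaf (nat_lit 8284809) (nat_lit 522716) (nat_lit 33278741) (nat_lit 13775010) [(nat_lit 522716), (nat_lit 0), (nat_lit 3455786), (nat_lit 7776921)]) (PF.cons (PF.leaf
 (nat_lit 8581662) (nat_lit 529471) (nat_lit 32915965) (nat_lit 13676573) [(nat_lit 529471), (nat_lit 0), (nat_lit 3450931), (nat_lit 7738463)]) (PF.cons PF.nil PF.nil))))) (PF.cons (PF.cons (PF.leaf (nat_lit 8362192) (nat_lit 1601004) (nat_lit 32918063) (nat_lit 13674452) [(nat_lit 0), (nat_lit 1601004), (nat_lit 3445496), (nat_lit 7734897)]) (PF.cons (PF.leaf (nat_lit 8652240) (nat_lit 527684) (nat_lit 32565073) (nat_lit 13577564) [(nat_lit 527684), (nat_lit 1605493), (nat_lit 3440043), (nat_lit 7696476)]) (PF.cons (PF.leaf (nat_lit 8948502) (nat_lit 533514) (nat_lit 32207915) (nat_lit 13478370) [(nat_lit 533514), (nat_lit 1608992), (nat_lit 3433511), (nat_lit 7656496)]) (PF.cons PF.nil PF.nil)))) (PF.cons (PF.cons (PF.leaf (nat_lit 9014752) (nat_lit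 1605454) (nat_lit 31868027) (nat_lit 13380362) [(nat_lit 0), (nat_lit 1605454), (nat_lit 3421621), (nat_lit 7613947)]) (PF.cons PF.nil PF.nil)) (PF.cons PF.nil (PF.cons PF.nil PF.nil))))) (PF.cons (PF.cons (PF.cons (PF.leaf (nat_lit 8770189) (nat_lit 3405074) (nat_lit 31772389) (nat_lit 13344332) [(nat_lit 0), (nat_lit 0), (nat_lit 3405074), (nat_lit 7590970)]) (PF.cons (PF.leaf (nat_lit 9055938) (nat_lit 526353) (nat_lit 31435038)
 (nat_lit 13248543) [(nat_lit 526353), (nat_lit 0), (nat_lit 3397964), (nat_lit 7551474)]) (PF.cons PF.nil (PF.cons PF.nil PF.nil)))) (PF.cons (PF.cons (PF.leaf (nat_lit 9408646) (nat_lit 1591961) (nat_lit 30772149) (nat_lit 13054965) [(nat_lit 0), (nat_lit 1591961), (nat_lit 3377052), (nat_lit 7467815)]) (PF.cons PF.nil PF.nil)) (PF.cons PF.nil PF.nil))) (PF.cons (PF.cons (PF.cons (PF.leaf (nat_lit 9787781) (nat_lit 3330358) (nat_lit 29735033) (nat_lit 12738271) [(nat_lit 0), (nat_lit 0), (nat_lit 3330358), (nat_lit 7322216)]) (PF.cons PF.nil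 PF.nil)) (PF.cons PF.nil PF.nil)) (PF.cons PF.nil PF.nil))))) (PF.cons (PF.cons (PF.cons (PF.cons (PF.leaf (nat_lit 8270145) (nat_lit 7497057) (nat_lit 31416842) (nat_lit 13200798) [(nat_lit 0), (nat_lit 0), (nat_lit 0), (nat_lit 7497057)]) (PF.cons (PF.leaf (nat_lit 8540320) (nat_lit 502043) (nat_lit 31107617) (nat_lit 13113366) [(nat_lit 502043), (nat_lit 0), (nat_lit 0), (nat_lit 7461928)]) (PF.cons (PF.leaf (nat_lit 8818674) (nat_lit 509216) (nat_lit 30791824) (nat_lit 13023154) [(nat_lit 509216), (nat_lit 0), (nat_lit 0), (nat_lit 7425133)]) (PF.cons (PF.leaf (nat_lit 9103074) (nat_lit 515293) (nat_lit 30471557) (nat_lit 12930717)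
 [(nat_lit 515293), (nat_lit 0), (nat_lit 0), (nat_lit 7386886)]) (PF.cons PF.nil PF.nil))))) (PF.cons (PF.cons (PF.leaf (nat_lit 8888237) (nat_lit 1552199) (nat_lit 30475242) (nat_lit 12929428) [(nat_lit 0), (nat_lit 1552199), (nat_lit 0), (nat_lit 7383981)]) (PF.cons (PF.leaf (nat_lit 9166127) (nat_lit 513216) (nat_lit 30163589) (nat_lit 12838623) [(nat_lit 513216), (nat_lit 1555435), (nat_lit 0), (nat_lit 7345982)]) (PF.cons PF.nil (PF.cons PF.nil PF.nil)))) (PF.cons (PF.cons (PF.leaf (nat_lit 9508972) (nat_lit 1553634) (nat_lit 29549879) (nat_lit 12654990) [(nat_lit 0), (nat_lit 1553634), (nat_lit 0), (nat_lit 7265558)]) (PF.cons PF.nil PF.nil)) PF.nil))) (PF.cons (PF.cons (PF.cons (PF.leaf (nat_lit 9269178) (nat_lit 3279198) (nat_lit 29470645) (nat_lit 12623618) [(nat_lit 0), (nat_lit 0), (nat_lit 3279198), (nat_lit 7245116)]) (PF.cons (PF.leaf (nat_lit 9542964) (nat_lit 511111) (nat_lit 29172513) (nat_lit 12534291) [(nat_lit 511111), (nat_lit 0), (nat_lit 3271092),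 (nat_lit 7206601)]) (PF.cons PF.nil PF.nil))) (PF.cons (PF.cons (PF.leaf (nat_lit 9876966) (nat_lit 1538918) (nat_lit 28588093) (nat_lit 12354768) [(nat_lit 0), (nat_lit 1538918), (nat_lit 3249069), (nat_lit
 7125987)]) PF.nil) PF.nil)) (PF.cons PF.nil PF.nil))) (PF.cons (PF.cons (PF.cons (PF.cons (PF.leaf (nat_lit 9728451) (nat_lit 6921140) (nat_lit 27458824) (nat_lit 11965424) [(nat_lit 0), (nat_lit 0), (nat_lit 0), (nat_lit 6921140)]) (PF.cons (PF.leaf (nat_lit 9991291) (nat_lit 495947) (nat_lit 27193955) (nat_lit 11882454) [(nat_lit 495947), (nat_lit 0), (nat_lit 0), (nat_lit 6884113)]) PF.nil)) (PF.cons PF.nil PF.nil)) (PF.cons PF.nil PF.nil)) (PF.cons PF.nil (PF.cons PF.nil (PF.cons PF.nil PF.nil))))))))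

def p13_15_3_0 : pfC (piC [(nat_lit 36888796), (nat_lit 24534081), (nat_lit 18263511), (nat_lit 12310016)] (nat_lit 5344356)) p13_15_3 (nat_lit 4) (nat_lit 0) (nat_lit 1) = true := by decide +kernel
def p13_15_3_1 : pfC (piC [(nat_lit 36888796), (nat_lit 24534081), (nat_lit 18263511), (nat_lit 12310016)] (nat_lit 5344356)) p13_15_3 (nat_lit 4) (nat_lit 1) (nat_lit 2) = true := by decide +kernel
def p13_15_3_2 : pfC (piC [(nat_lit 36888796), (nat_lit 24534081), (nat_lit 18263511), (nat_lit 12310016)] (nat_lit 5344356)) p13_15_3 (nat_lit 4) (nat_lit 2) (nat_lit 3) = true := by decide +kernel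
def p13_15_3_3 : pfC (piC [(nat_lit 36888796), (nat_lit 24534081), (nat_lit 18263511), (nat_lit 12310016)] (nat_lit 5344356)) p13_15_3 (nat_lit 4) (nat_lit 3) (nat_lit 4) = true := by decide +kernel
def p13_15_3_4 : pfC (piC [(nat_lit 36888796), (nat_lit 24534081), (nat_lit 18263511), (nat_lit 12310016)] (nat_lit 5344356)) p13_15_3 (nat_lit 4) (nat_lit 4) (nat_lit 5) = true := by decide +kernel
def p13_15_3_5 : pfC (piC [(nat_lit 36888796), (nat_lit 24534081), (nat_lit 18263511), (nat_lit 12310016)] (nat_lit 5344356)) p13_15_3 (nat_lit 4) (nat_lit 5) (nat_lit 6) = true := by decide +kernel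
def p13_15_3_6 : pfC (piC [(nat_lit 36888796), (nat_lit 24534081), (nat_lit 18263511), (nat_lit 12310016)] (nat_lit 5344356)) p13_15_3 (nat_lit 4) (nat_lit 6) (nat_lit 7) = true := by decide +kernel
def p13_15_3_7 : pfC (piC [(nat_lit 36888796), (nat_lit 24534081), (nat_lit 18263511), (nat_lit 12310016)] (nat_lit 5344356)) p13_15_3 (nat_lit 4) (nat_lit 7) (nat_lit 8) = true := by decide +kernel
def p13_15_3_8 : pfC (piC [(nat_lit 36888796), (nat_lit 24534081), (nat_lit 18263511), (nat_lit 12310016)] (nat_lit 5344356)) p13_15_3 (nat_lit 4) (nat_lit 8) (nat_lit 9) = true := by decide +kernel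
def p13_15_3_9 : pfC (piC [(nat_lit 36888796), (nat_lit 24534081), (nat_lit 18263511), (nat_lit 12310016)] (nat_lit 5344356)) p13_15_3 (nat_lit 4) (nat_lit 9) (nat_lit 10) = true := by decide +kernel
def p13_15_3_10 : pfC (piC [(nat_lit 36888796), (nat_lit 24534081), (nat_lit 18263511), (nat_lit 12310016)] (nat_lit 5344356)) p13_15_3 (nat_lit 4) (nat_lit 10) (nat_lit 11) = true := by decide +kernel
def p13_15_3_11 : pfC (piC [(nat_lit 36888796), (nat_lit 24534081), (nat_lit 18263511), (nat_lit 12310016)] (nat_lit 5344356)) p13_15_3 (nat_lit 4) (nat_lit 11) (nat_lit 12) = true := by decide +kernel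
def p13_15_3_12 : pfC (piC [(nat_lit 36888796), (nat_lit 24534081), (nat_lit 18263511), (nat_lit 12310016)] (nat_lit 5344356)) p13_15_3 (nat_lit 4) (nat_lit 12) (nat_lit 13) = true := by decide +kernel
def p13_15_3_13 : pfC (piC [(nat_lit 36888796), (nat_lit 24534081), (nat_lit 18263511), (nat_lit 12310016)] (nat_lit 5344356)) p13_15_3 (nat_lit 4) (nat_lit 13) (nat_lit 14) = true := by decide +kernel
def p13_15_3_14 : pfC (piC [(nat_lit 36888796), (nat_lit 24534081), (nat_lit 18263511), (nat_lit 12310016)] (nat_lit 5344356)) p13_15_3 (nat_lit 4) (nat_lit 14) (nat_lit 15) = true := by decide +kernel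
def p13_15_3_15 : pfC (piC [(nat_lit 36888796), (nat_lit 24534081), (nat_lit 18263511), (nat_lit 12310016)] (nat_lit 5344356)) p13_15_3 (nat_lit 4) (nat_lit 15) (nat_lit 16) = true := by decide +kernel
def p13_15_3_16 : pfC (piC [(nat_lit 36888796), (nat_lit 24534081), (nat_lit 18263511), (nat_lit 12310016)] (nat_lit 5344356)) p13_15_3 (nat_lit 4) (nat_lit 16) (nat_lit 17) = true := by decide +kernel
def p13_15_3_17 : pfC (piC [(nat_lit 36888796), (nat_lit 24534081), (nat_lit 18263511), (nat_lit 12310016)] (nat_lit 5344356)) p13_15_3 (nat_lit 4) (nat_lit 17) (nat_lit 18) = true := by decide +kernel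
def p13_15_3_18 : pfC (piC [(nat_lit 36888796), (nat_lit 24534081), (nat_lit 18263511), (nat_lit 12310016)] (nat_lit 5344356)) p13_15_3 (nat_lit 4) (nat_lit 18) (nat_lit 19) = true := by decide +kernel
def p13_15_3_19 : pfC (piC [(nat_lit 36888796), (nat_lit 24534081), (nat_lit 18263511), (nat_lit 12310016)] (nat_lit 5344356)) p13_15_3 (nat_lit 4) (nat_lit 19) (nat_lit 20) = true := by decide +kernel
def p13_15_3_20 : pfC (piC [(nat_lit 36888796), (nat_lit 24534081), (nat_lit 18263511), (nat_lit 12310016)] (nat_lit 5344356)) p13_15_3 (nat_lit 4) (nat_lit 20) (nat_lit 21) = true := by decide +kernel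
def p13_15_3_21 : pfC (piC [(nat_lit 36888796), (nat_lit 24534081), (nat_lit 18263511), (nat_lit 12310016)] (nat_lit 5344356)) p13_15_3 (nat_lit 4) (nat_lit 21) (nat_lit 22) = true := by decide +kernel
def p13_15_3_22 : pfC (piC [(nat_lit 36888796), (nat_lit 24534081), (nat_lit 18263511), (nat_lit 12310016)] (nat_lit 5344356)) p13_15_3 (nat_lit 4) (nat_lit 22) (nat_lit 23) = true := by decide +kernel
def p13_15_3_23 : pfC (piC [(nat_lit 36888796), (nat_lit 24534081), (nat_lit 18263511), (nat_lit 12310016)] (nat_lit 5344356)) p13_15_3 (nat_lit 4) (nat_lit 23) (nat_lit 24) = true := by decide +kernel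
def p13_15_3_24 : pfC (piC [(nat_lit 36888796), (nat_lit 24534081), (nat_lit 18263511), (nat_lit 12310016)] (nat_lit 5344356)) p13_15_3 (nat_lit 4) (nat_lit 24) (nat_lit 25) = true := by decide +kernel
def p13_15_3_25 : pfC (piC [(nat_lit 36888796), (nat_lit 24534081), (nat_lit 18263511), (nat_lit 12310016)] (nat_lit 5344356)) p13_15_3 (nat_lit 4) (nat_lit 25) (nat_lit 26) = true := by decide +kernel
def p13_15_3_26 : pfC (piC [(nat_lit 36888796), (nat_lit 24534081), (nat_lit 18263511), (nat_lit 12310016)] (nat_lit 5344356)) p13_15_3 (nat_lit 4) (nat_lit 26) (nat_lit 27) = true := by decide +kernel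
def p13_15_3_27 : pfC (piC [(nat_lit 36888796), (nat_lit 24534081), (nat_lit 18263511), (nat_lit 12310016)] (nat_lit 5344356)) p13_15_3 (nat_lit 4) (nat_lit 27) (nat_lit 28) = true := by decide +kernel
def p13_15_3_28 : pfC (piC [(nat_lit 36888796), (nat_lit 24534081), (nat_lit 18263511), (nat_lit 12310016)] (nat_lit 5344356)) p13_15_3 (nat_lit 4) (nat_lit 28) (nat_lit 29) = true := by decide +kernel
def p13_15_3_29 : pfC (piC [(nat_lit 36888796), (nat_lit 24534081), (nat_lit 18263511), (nat_lit 12310016)] (nat_lit 5344356)) p13_15_3 (nat_lit 4) (nat_lit 29) (nat_lit 30) = true := by decide +kernel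
def p13_15_3_30 : pfC (piC [(nat_lit 36888796), (nat_lit 24534081), (nat_lit 18263511), (nat_lit 12310016)] (nat_lit 5344356)) p13_15_3 (nat_lit 4) (nat_lit 30) (nat_lit 31) = true := by decide +kernel
def p13_15_3_31 : pfC (piC [(nat_lit 36888796), (nat_lit 24534081), (nat_lit 18263511), (nat_lit 12310016)] (nat_lit 5344356)) p13_15_3 (nat_lit 4) (nat_lit 31) (nat_lit 32) = true := by decide +kernel
def p13_15_3_32 : pfC (piC [(nat_lit 36888796), (nat_lit 24534081), (nat_lit 18263511), (nat_lit 12310016)] (nat_lit 5344356)) p13_15_3 (nat_lit 4) (nat_lit 32) (nat_lit 33) = true := by decide +kernel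
def p13_15_3_33 : pfC (piC [(nat_lit 36888796), (nat_lit 24534081), (nat_lit 18263511), (nat_lit 12310016)] (nat_lit 5344356)) p13_15_3 (nat_lit 4) (nat_lit 33) (nat_lit 34) = true := by decide +kernel
def p13_15_3_34 : pfC (piC [(nat_lit 36888796), (nat_lit 24534081), (nat_lit 18263511), (nat_lit 12310016)] (nat_lit 5344356)) p13_15_3 (nat_lit 4) (nat_lit 34) (nat_lit 35) = true := by decide +kernel
def p13_15_3_35 : pfC (piC [(nat_lit 36888796), (nat_lit 24534081), (nat_lit 18263511), (nat_lit 12310016)] (nat_lit 5344356)) p13_15_3 (nat_lit 4) (nat_lit 35) (nat_lit 36) = true := by decide +kernel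
def p13_15_3_36 : pfC (piC [(nat_lit 36888796), (nat_lit 24534081), (nat_lit 18263511), (nat_lit 12310016)] (nat_lit 5344356)) p13_15_3 (nat_lit 4) (nat_lit 36) (nat_lit 37) = true := by decide +kernel
def p13_15_3_37 : pfC (piC [(nat_lit 36888796), (nat_lit 24534081), (nat_lit 18263511), (nat_lit 12310016)] (nat_lit 5344356)) p13_15_3 (nat_lit 4) (nat_lit 37) (nat_lit 38) = true := by decide +kernel
def p13_15_3_38 : pfC (piC [(nat_lit 36888796), (nat_lit 24534081), (nat_lit 18263511), (nat_lit 12310016)] (nat_lit 5344356)) p13_15_3 (nat_lit 4) (nat_lit 38) (nat_lit 39) = true := by decide +kernel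
def p13_15_3_39 : pfC (piC [(nat_lit 36888796), (nat_lit 24534081), (nat_lit 18263511), (nat_lit 12310016)] (nat_lit 5344356)) p13_15_3 (nat_lit 4) (nat_lit 39) (nat_lit 40) = true := by decide +kernel
def p13_15_3_40 : pfC (piC [(nat_lit 36888796), (nat_lit 24534081), (nat_lit 18263511), (nat_lit 12310016)] (nat_lit 5344356)) p13_15_3 (nat_lit 4) (nat_lit 40) (nat_lit 41) = true := by decide +kernel
def p13_15_3_41 : pfC (piC [(nat_lit 36888796), (nat_lit 24534081), (nat_lit 18263511), (nat_lit 12310016)] (nat_lit 5344356)) p13_15_3 (nat_lit 4) (nat_lit 41) (nat_lit 42) = true := by decide +kernel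
def p13_15_3_42 : pfC (piC [(nat_lit 36888796), (nat_lit 24534081), (nat_lit 18263511), (nat_lit 12310016)] (nat_lit 5344356)) p13_15_3 (nat_lit 4) (nat_lit 42) (nat_lit 43) = true := by decide +kernel
def p13_15_3_43 : pfC (piC [(nat_lit 36888796), (nat_lit 24534081), (nat_lit 18263511), (nat_lit 12310016)] (nat_lit 5344356)) p13_15_3 (nat_lit 4) (nat_lit 43) (nat_lit 44) = true := by decide +kernel
def p13_15_3_44 : pfC (piC [(nat_lit 36888796), (nat_lit 24534081), (nat_lit 18263511), (nat_lit 12310016)] (nat_lit 5344356)) p13_15_3 (nat_lit 4) (nat_lit 44) (nat_lit 45) = true := by decide +kernel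
def p13_15_3_45 : pfC (piC [(nat_lit 36888796), (nat_lit 24534081), (nat_lit 18263511), (nat_lit 12310016)] (nat_lit 5344356)) p13_15_3 (nat_lit 4) (nat_lit 45) (nat_lit 46) = true := by decide +kernel
def p13_15_3_46 : pfC (piC [(nat_lit 36888796), (nat_lit 24534081), (nat_lit 18263511), (nat_lit 12310016)] (nat_lit 5344356)) p13_15_3 (nat_lit 4) (nat_lit 46) (nat_lit 47) = true := by decide +kernel
def p13_15_3_47 : pfC (piC [(nat_lit 36888796), (nat_lit 24534081), (nat_lit 18263511), (nat_lit 12310016)] (nat_lit 5344356)) p13_15_3 (nat_lit 4) (nat_lit 47) (nat_lit 48) = true := by decide +kernel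
def p13_15_3_48 : pfC (piC [(nat_lit 36888796), (nat_lit 24534081), (nat_lit 18263511), (nat_lit 12310016)] (nat_lit 5344356)) p13_15_3 (nat_lit 4) (nat_lit 48) (nat_lit 49) = true := by decide +kernel
def p13_15_3_49 : pfC (piC [(nat_lit 36888796), (nat_lit 24534081), (nat_lit 18263511), (nat_lit 12310016)] (nat_lit 5344356)) p13_15_3 (nat_lit 4) (nat_lit 49) (nat_lit 50) = true := by decide +kernel
def p13_15_3_50 : pfC (piC [(nat_lit 36888796), (nat_lit 24534081), (nat_lit 18263511), (nat_lit 12310016)] (nat_lit 5344356)) p13_15_3 (nat_lit 4) (nat_lit 50) (nat_lit 51) = true := by decide +kernel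
def p13_15_3_51 : pfC (piC [(nat_lit 36888796), (nat_lit 24534081), (nat_lit 18263511), (nat_lit 12310016)] (nat_lit 5344356)) p13_15_3 (nat_lit 4) (nat_lit 51) (nat_lit 52) = true := by decide +kernel
def p13_15_3_52 : pfC (piC [(nat_lit 36888796), (nat_lit 24534081), (nat_lit 18263511), (nat_lit 12310016)] (nat_lit 5344356)) p13_15_3 (nat_lit 4) (nat_lit 52) (nat_lit 53) = true := by decide +kernel
def p13_15_3_53 : pfC (piC [(nat_lit 36888796), (nat_lit 24534081), (nat_lit 18263511), (nat_lit 12310016)] (nat_lit 5344356)) p13_15_3 (nat_lit 4) (nat_lit 53) (nat_lit 54) = true := by decide +kernel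
def p13_15_3_54 : pfC (piC [(nat_lit 36888796), (nat_lit 24534081), (nat_lit 18263511), (nat_lit 12310016)] (nat_lit 5344356)) p13_15_3 (nat_lit 4) (nat_lit 54) (nat_lit 55) = true := by decide +kernel
def p13_15_3_55 : pfC (piC [(nat_lit 36888796), (nat_lit 24534081), (nat_lit 18263511), (nat_lit 12310016)] (nat_lit 5344356)) p13_15_3 (nat_lit 4) (nat_lit 55) (nat_lit 56) = true := by decide +kernel
def p13_15_3_56 : pfC (piC [(nat_lit 36888796), (nat_lit 24534081), (nat_lit 18263511), (nat_lit 12310016)] (nat_lit 5344356)) p13_15_3 (nat_lit 4) (nat_lit 56) (nat_lit 57) = true := by decide +kernel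
def p13_15_3_57 : pfC (piC [(nat_lit 36888796), (nat_lit 24534081), (nat_lit 18263511), (nat_lit 12310016)] (nat_lit 5344356)) p13_15_3 (nat_lit 4) (nat_lit 57) (nat_lit 58) = true := by decide +kernel
def p13_15_3_58 : pfC (piC [(nat_lit 36888796), (nat_lit 24534081), (nat_lit 18263511), (nat_lit 12310016)] (nat_lit 5344356)) p13_15_3 (nat_lit 4) (nat_lit 58) (nat_lit 59) = true := by decide +kernel
def p13_15_3_59 : pfC (piC [(nat_lit 36888796), (nat_lit 24534081), (nat_lit 18263511), (nat_lit 12310016)] (nat_lit 5344356)) p13_15_3 (nat_lit 4) (nat_lit 59) (nat_lit 60) = true := by decide +kernel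
def p13_15_3_60 : pfC (piC [(nat_lit 36888796), (nat_lit 24534081), (nat_lit 18263511), (nat_lit 12310016)] (nat_lit 5344356)) p13_15_3 (nat_lit 4) (nat_lit 60) (nat_lit 61) = true := by decide +kernel
def p13_15_3_61 : pfC (piC [(nat_lit 36888796), (nat_lit 24534081), (nat_lit 18263511), (nat_lit 12310016)] (nat_lit 5344356)) p13_15_3 (nat_lit 4) (nat_lit 61) (nat_lit 62) = true := by decide +kernel
def p13_15_3_62 : pfC (piC [(nat_lit 36888796), (nat_lit 24534081), (nat_lit 18263511), (nat_lit 12310016)] (nat_lit 5344356)) p13_15_3 (nat_lit 4) (nat_lit 62) (nat_lit 63) = true := by decide +kernel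
def p13_15_3_63 : pfC (piC [(nat_lit 36888796), (nat_lit 24534081), (nat_lit 18263511), (nat_lit 12310016)] (nat_lit 5344356)) p13_15_3 (nat_lit 4) (nat_lit 63) (nat_lit 64) = true := by decide +kernel
def p13_15_3_64 : pfC (piC [(nat_lit 36888796), (nat_lit 24534081), (nat_lit 18263511), (nat_lit 12310016)] (nat_lit 5344356)) p13_15_3 (nat_lit 4) (nat_lit 64) (nat_lit 65) = true := by decide +kernel
def p13_15_3_65 : pfC (piC [(nat_lit 36888796), (nat_lit 24534081), (nat_lit 18263511), (nat_lit 12310016)] (nat_lit 5344356)) p13_15_3 (nat_lit 4) (nat_lit 65) (nat_lit 66) = true := by decide +kernel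
def p13_15_3_66 : pfC (piC [(nat_lit 36888796), (nat_lit 24534081), (nat_lit 18263511), (nat_lit 12310016)] (nat_lit 5344356)) p13_15_3 (nat_lit 4) (nat_lit 66) (nat_lit 67) = true := by decide +kernel
def p13_15_3_67 : pfC (piC [(nat_lit 36888796), (nat_lit 24534081), (nat_lit 18263511), (nat_lit 12310016)] (nat_lit 5344356)) p13_15_3 (nat_lit 4) (nat_lit 67) (nat_lit 68) = true := by decide +kernel
def p13_15_3_68 : pfC (piC [(nat_lit 36888796), (nat_lit 24534081), (nat_lit 18263511), (nat_lit 12310016)] (nat_lit 5344356)) p13_15_3 (nat_lit 4) (nat_lit 68) (nat_lit 69) = true := by decide +kernel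
def p13_15_3_69 : pfC (piC [(nat_lit 36888796), (nat_lit 24534081), (nat_lit 18263511), (nat_lit 12310016)] (nat_lit 5344356)) p13_15_3 (nat_lit 4) (nat_lit 69) (nat_lit 70) = true := by decide +kernel
def p13_15_3_70 : pfC (piC [(nat_lit 36888796), (nat_lit 24534081), (nat_lit 18263511), (nat_lit 12310016)] (nat_lit 5344356)) p13_15_3 (nat_lit 4) (nat_lit 70) (nat_lit 71) = true := by decide +kernel
def p13_15_3_71 : pfC (piC [(nat_lit 36888796), (nat_lit 24534081), (nat_lit 18263511), (nat_lit 12310016)] (nat_lit 5344356)) p13_15_3 (nat_lit 4) (nat_lit 71) (nat_lit 72) = true := by decide +kernel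
def p13_15_3_72 : pfC (piC [(nat_lit 36888796), (nat_lit 24534081), (nat_lit 18263511), (nat_lit 12310016)] (nat_lit 5344356)) p13_15_3 (nat_lit 4) (nat_lit 72) (nat_lit 73) = true := by decide +kernel
def p13_15_3_73 : pfC (piC [(nat_lit 36888796), (nat_lit 24534081), (nat_lit 18263511), (nat_lit 12310016)] (nat_lit 5344356)) p13_15_3 (nat_lit 4) (nat_lit 73) (nat_lit 74) = true := by decide +kernel
def p13_15_3_74 : pfC (piC [(nat_lit 36888796), (nat_lit 24534081), (nat_lit 18263511), (nat_lit 12310016)] (nat_lit 5344356)) p13_15_3 (nat_lit 4) (nat_lit 74) (nat_lit 75) = true := by decide +kernel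
def p13_15_3_75 : pfC (piC [(nat_lit 36888796), (nat_lit 24534081), (nat_lit 18263511), (nat_lit 12310016)] (nat_lit 5344356)) p13_15_3 (nat_lit 4) (nat_lit 75) (nat_lit 76) = true := by decide +kernel
def p13_15_3_76 : pfC (piC [(nat_lit 36888796), (nat_lit 24534081), (nat_lit 18263511), (nat_lit 12310016)] (nat_lit 5344356)) p13_15_3 (nat_lit 4) (nat_lit 76) (nat_lit 77) = true := by decide +kernel
def p13_15_3_77 : pfC (piC [(nat_lit 36888796), (nat_lit 24534081), (nat_lit 18263511), (nat_lit 12310016)] (nat_lit 5344356)) p13_15_3 (nat_lit 4) (nat_lit 77) (nat_lit 78) = true := by decide +kernel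
def p13_15_3_78 : pfC (piC [(nat_lit 36888796), (nat_lit 24534081), (nat_lit 18263511), (nat_lit 12310016)] (nat_lit 5344356)) p13_15_3 (nat_lit 4) (nat_lit 78) (nat_lit 79) = true := by decide +kernel
def p13_15_3_79 : pfC (piC [(nat_lit 36888796), (nat_lit 24534081), (nat_lit 18263511), (nat_lit 12310016)] (nat_lit 5344356)) p13_15_3 (nat_lit 4) (nat_lit 79) (nat_lit 80) = true := by decide +kernel
def p13_15_3_80 : pfC (piC [(nat_lit 36888796), (nat_lit 24534081), (nat_lit 18263511), (nat_lit 12310016)] (nat_lit 5344356)) p13_15_3 (nat_lit 4) (nat_lit 80) (nat_lit 81) = true := by decide +kernel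
def p13_15_3_81 : pfC (piC [(nat_lit 36888796), (nat_lit 24534081), (nat_lit 18263511), (nat_lit 12310016)] (nat_lit 5344356)) p13_15_3 (nat_lit 4) (nat_lit 81) (nat_lit 82) = true := by decide +kernel
def p13_15_3_82 : pfC (piC [(nat_lit 36888796), (nat_lit 24534081), (nat_lit 18263511), (nat_lit 12310016)] (nat_lit 5344356)) p13_15_3 (nat_lit 4) (nat_lit 82) (nat_lit 83) = true := by decide +kernel
def p13_15_3_83 : pfC (piC [(nat_lit 36888796), (nat_lit 24534081), (nat_lit 18263511), (nat_lit 12310016)] (nat_lit 5344356)) p13_15_3 (nat_lit 4) (nat_lit 83) (nat_lit 84) = true := by decide +kernel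
def p13_15_3_84 : pfC (piC [(nat_lit 36888796), (nat_lit 24534081), (nat_lit 18263511), (nat_lit 12310016)] (nat_lit 5344356)) p13_15_3 (nat_lit 4) (nat_lit 84) (nat_lit 85) = true := by decide +kernel
def p13_15_3_85 : pfC (piC [(nat_lit 36888796), (nat_lit 24534081), (nat_lit 18263511), (nat_lit 12310016)] (nat_lit 5344356)) p13_15_3 (nat_lit 4) (nat_lit 85) (nat_lit 86) = true := by decide +kernel
def p13_15_3_86 : pfC (piC [(nat_lit 36888796), (nat_lit 24534081), (nat_lit 18263511), (nat_lit 12310016)] (nat_lit 5344356)) p13_15_3 (nat_lit 4) (nat_lit 86) (nat_lit 87) = true := by decide +kernel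
def p13_15_3_87 : pfC (piC [(nat_lit 36888796), (nat_lit 24534081), (nat_lit 18263511), (nat_lit 12310016)] (nat_lit 5344356)) p13_15_3 (nat_lit 4) (nat_lit 87) (nat_lit 88) = true := by decide +kernel
def p13_15_3_88 : pfC (piC [(nat_lit 36888796), (nat_lit 24534081), (nat_lit 18263511), (nat_lit 12310016)] (nat_lit 5344356)) p13_15_3 (nat_lit 4) (nat_lit 88) (nat_lit 89) = true := by decide +kernel
def p13_15_3_89 : pfC (piC [(nat_lit 36888796), (nat_lit 24534081), (nat_lit 18263511), (nat_lit 12310016)] (nat_lit 5344356)) p13_15_3 (nat_lit 4) (nat_lit 89) (nat_lit 90) = true := by decide +kernel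
def p13_15_3_90 : pfC (piC [(nat_lit 36888796), (nat_lit 24534081), (nat_lit 18263511), (nat_lit 12310016)] (nat_lit 5344356)) p13_15_3 (nat_lit 4) (nat_lit 90) (nat_lit 91) = true := by decide +kernel
def p13_15_3_91 : pfC (piC [(nat_lit 36888796), (nat_lit 24534081), (nat_lit 18263511), (nat_lit 12310016)] (nat_lit 5344356)) p13_15_3 (nat_lit 4) (nat_lit 91) (nat_lit 92) = true := by decide +kernel
def p13_15_3_92 : pfC (piC [(nat_lit 36888796), (nat_lit 24534081), (nat_lit 18263511), (nat_lit 12310016)] (nat_lit 5344356)) p13_15_3 (nat_lit 4) (nat_lit 92) (nat_lit 93) = true := by decide +kernel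
def p13_15_3_93 : pfC (piC [(nat_lit 36888796), (nat_lit 24534081), (nat_lit 18263511), (nat_lit 12310016)] (nat_lit 5344356)) p13_15_3 (nat_lit 4) (nat_lit 93) (nat_lit 94) = true := by decide +kernel
def p13_15_3_94 : pfC (piC [(nat_lit 36888796), (nat_lit 24534081), (nat_lit 18263511), (nat_lit 12310016)] (nat_lit 5344356)) p13_15_3 (nat_lit 4) (nat_lit 94) (nat_lit 95) = true := by decide +kernel
def p13_15_3_95 : pfC (piC [(nat_lit 36888796), (nat_lit 24534081), (nat_lit 18263511), (nat_lit 12310016)] (nat_lit 5344356)) p13_15_3 (nat_lit 4) (nat_lit 95) (nat_lit 96) = true := by decide +kernel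
def p13_15_3_96 : pfC (piC [(nat_lit 36888796), (nat_lit 24534081), (nat_lit 18263511), (nat_lit 12310016)] (nat_lit 5344356)) p13_15_3 (nat_lit 4) (nat_lit 96) (nat_lit 97) = true := by decide +kernel
def p13_15_3_97 : pfC (piC [(nat_lit 36888796), (nat_lit 24534081), (nat_lit 18263511), (nat_lit 12310016)] (nat_lit 5344356)) p13_15_3 (nat_lit 4) (nat_lit 97) (nat_lit 98) = true := by decide +kernel
def p13_15_3_98 : pfC (piC [(nat_lit 36888796), (nat_lit 24534081), (nat_lit 18263511), (nat_lit 12310016)] (nat_lit 5344356)) p13_15_3 (nat_lit 4) (nat_lit 98) (nat_lit 99) = true := by decide +kernel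
def p13_15_3_99 : pfC (piC [(nat_lit 36888796), (nat_lit 24534081), (nat_lit 18263511), (nat_lit 12310016)] (nat_lit 5344356)) p13_15_3 (nat_lit 4) (nat_lit 99) (nat_lit 100) = true := by decide +kernel
def p13_15_3_100 : pfC (piC [(nat_lit 36888796), (nat_lit 24534081), (nat_lit 18263511), (nat_lit 12310016)] (nat_lit 5344356)) p13_15_3 (nat_lit 4) (nat_lit 100) (nat_lit 101) = true := by decide +kernel
def p13_15_3_101 : pfC (piC [(nat_lit 36888796), (nat_lit 24534081), (nat_lit 18263511), (nat_lit 12310016)] (nat_lit 5344356)) p13_15_3 (nat_lit 4) (nat_lit 101) (nat_lit 102) = true := by decide +kernel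
def p13_15_3_102 : pfC (piC [(nat_lit 36888796), (nat_lit 24534081), (nat_lit 18263511), (nat_lit 12310016)] (nat_lit 5344356)) p13_15_3 (nat_lit 4) (nat_lit 102) (nat_lit 103) = true := by decide +kernel
def p13_15_3_103 : pfC (piC [(nat_lit 36888796), (nat_lit 24534081), (nat_lit 18263511), (nat_lit 12310016)] (nat_lit 5344356)) p13_15_3 (nat_lit 4) (nat_lit 103) (nat_lit 104) = true := by decide +kernel
def p13_15_3_104 : pfC (piC [(nat_lit 36888796), (nat_lit 24534081), (nat_lit 18263511), (nat_lit 12310016)] (nat_lit 5344356)) p13_15_3 (nat_lit 4) (nat_lit 104) (nat_lit 105) = true := by decide +kernel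
def p13_15_3_105 : pfC (piC [(nat_lit 36888796), (nat_lit 24534081), (nat_lit 18263511), (nat_lit 12310016)] (nat_lit 5344356)) p13_15_3 (nat_lit 4) (nat_lit 105) (nat_lit 106) = true := by decide +kernel
def p13_15_3_106 : pfC (piC [(nat_lit 36888796), (nat_lit 24534081), (nat_lit 18263511), (nat_lit 12310016)] (nat_lit 5344356)) p13_15_3 (nat_lit 4) (nat_lit 106) (nat_lit 107) = true := by decide +kernel
def p13_15_3_107 : pfC (piC [(nat_lit 36888796), (nat_lit 24534081), (nat_lit 18263511), (nat_lit 12310016)] (nat_lit 5344356)) p13_15_3 (nat_lit 4) (nat_lit 107) (nat_lit 108) = true := by decide +kernel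
def p13_15_3_108 : pfC (piC [(nat_lit 36888796), (nat_lit 24534081), (nat_lit 18263511), (nat_lit 12310016)] (nat_lit 5344356)) p13_15_3 (nat_lit 4) (nat_lit 108) (nat_lit 109) = true := by decide +kernel
def p13_15_3_109 : pfC (piC [(nat_lit 36888796), (nat_lit 24534081), (nat_lit 18263511), (nat_lit 12310016)] (nat_lit 5344356)) p13_15_3 (nat_lit 4) (nat_lit 109) (nat_lit 110) = true := by decide +kernel
def p13_15_3_110 : pfC (piC [(nat_lit 36888796), (nat_lit 24534081), (nat_lit 18263511), (nat_lit 12310016)] (nat_lit 5344356)) p13_15_3 (nat_lit 4) (nat_lit 110) (nat_lit 111) = true := by decide +kernel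
def p13_15_3_111 : pfC (piC [(nat_lit 36888796), (nat_lit 24534081), (nat_lit 18263511), (nat_lit 12310016)] (nat_lit 5344356)) p13_15_3 (nat_lit 4) (nat_lit 111) (nat_lit 112) = true := by decide +kernel
def p13_15_3_112 : pfC (piC [(nat_lit 36888796), (nat_lit 24534081), (nat_lit 18263511), (nat_lit 12310016)] (nat_lit 5344356)) p13_15_3 (nat_lit 4) (nat_lit 112) (nat_lit 113) = true := by decide +kernel
def p13_15_3_113 : pfC (piC [(nat_lit 36888796), (nat_lit 24534081), (nat_lit 18263511), (nat_lit 12310016)] (nat_lit 5344356)) p13_15_3 (nat_lit 4) (nat_lit 113) (nat_lit 114) = true := by decide +kernel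
def p13_15_3_114 : pfC (piC [(nat_lit 36888796), (nat_lit 24534081), (nat_lit 18263511), (nat_lit 12310016)] (nat_lit 5344356)) p13_15_3 (nat_lit 4) (nat_lit 114) (nat_lit 115) = true := by decide +kernel
def p13_15_3_115 : pfC (piC [(nat_lit 36888796), (nat_lit 24534081), (nat_lit 18263511), (nat_lit 12310016)] (nat_lit 5344356)) p13_15_3 (nat_lit 4) (nat_lit 115) (nat_lit 116) = true := by decide +kernel
def p13_15_3_116 : pfC (piC [(nat_lit 36888796), (nat_lit 24534081), (nat_lit 18263511), (nat_lit 12310016)] (nat_lit 5344356)) p13_15_3 (nat_lit 4) (nat_lit 116) (nat_lit 117) = true := by decide +kernel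
def p13_15_3_117 : pfC (piC [(nat_lit 36888796), (nat_lit 24534081), (nat_lit 18263511), (nat_lit 12310016)] (nat_lit 5344356)) p13_15_3 (nat_lit 4) (nat_lit 117) (nat_lit 118) = true := by decide +kernel
def p13_15_3_118 : pfC (piC [(nat_lit 36888796), (nat_lit 24534081), (nat_lit 18263511), (nat_lit 12310016)] (nat_lit 5344356)) p13_15_3 (nat_lit 4) (nat_lit 118) (nat_lit 119) = true := by decide +kernel
def p13_15_3_119 : pfC (piC [(nat_lit 36888796), (nat_lit 24534081), (nat_lit 18263511), (nat_lit 12310016)] (nat_lit 5344356)) p13_15_3 (nat_lit 4) (nat_lit 119) (nat_lit 120) = true := by decide +kernel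
def p13_15_3_120 : pfC (piC [(nat_lit 36888796), (nat_lit 24534081), (nat_lit 18263511), (nat_lit 12310016)] (nat_lit 5344356)) p13_15_3 (nat_lit 4) (nat_lit 120) (nat_lit 121) = true := by decide +kernel
def p13_15_3_121 : pfC (piC [(nat_lit 36888796), (nat_lit 24534081), (nat_lit 18263511), (nat_lit 12310016)] (nat_lit 5344356)) p13_15_3 (nat_lit 4) (nat_lit 121) (nat_lit 122) = true := by decide +kernel
def p13_15_3_122 : pfC (piC [(nat_lit 36888796), (nat_lit 24534081), (nat_lit 18263511), (nat_lit 12310016)] (nat_lit 5344356)) p13_15_3 (nat_lit 4) (nat_lit 122) (nat_lit 123) = true := by decide +kernel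
def p13_15_3_123 : pfC (piC [(nat_lit 36888796), (nat_lit 24534081), (nat_lit 18263511), (nat_lit 12310016)] (nat_lit 5344356)) p13_15_3 (nat_lit 4) (nat_lit 123) (nat_lit 124) = true := by decide +kernel
def p13_15_3_124 : pfC (piC [(nat_lit 36888796), (nat_lit 24534081), (nat_lit 18263511), (nat_lit 12310016)] (nat_lit 5344356)) p13_15_3 (nat_lit 4) (nat_lit 124) (nat_lit 125) = true := by decide +kernel
def p13_15_3_125 : pfC (piC [(nat_lit 36888796), (nat_lit 24534081), (nat_lit 18263511), (nat_lit 12310016)] (nat_lit 5344356)) p13_15_3 (nat_lit 4) (nat_lit 125) (nat_lit 126) = true := by decide +kernel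
def p13_15_3_126 : pfC (piC [(nat_lit 36888796), (nat_lit 24534081), (nat_lit 18263511), (nat_lit 12310016)] (nat_lit 5344356)) p13_15_3 (nat_lit 4) (nat_lit 126) (nat_lit 127) = true := by decide +kernel
def p13_15_3_127 : pfC (piC [(nat_lit 36888796), (nat_lit 24534081), (nat_lit 18263511), (nat_lit 12310016)] (nat_lit 5344356)) p13_15_3 (nat_lit 4) (nat_lit 127) (nat_lit 128) = true := by decide +kernel
def p13_15_3_128 : pfC (piC [(nat_lit 36888796), (nat_lit 24534081), (nat_lit 18263511), (nat_lit 12310016)] (nat_lit 5344356)) p13_15_3 (nat_lit 4) (nat_lit 128) (nat_lit 129) = true := by decide +kernel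
def p13_15_3_129 : pfC (piC [(nat_lit 36888796), (nat_lit 24534081), (nat_lit 18263511), (nat_lit 12310016)] (nat_lit 5344356)) p13_15_3 (nat_lit 4) (nat_lit 129) (nat_lit 130) = true := by decide +kernel
def p13_15_3_130 : pfC (piC [(nat_lit 36888796), (nat_lit 24534081), (nat_lit 18263511), (nat_lit 12310016)] (nat_lit 5344356)) p13_15_3 (nat_lit 4) (nat_lit 130) (nat_lit 131) = true := by decide +kernel
def p13_15_3_131 : pfC (piC [(nat_lit 36888796), (nat_lit 24534081), (nat_lit 18263511), (nat_lit 12310016)] (nat_lit 5344356)) p13_15_3 (nat_lit 4) (nat_lit 131) (nat_lit 132) = true := by decide +kernel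
def p13_15_3_132 : pfC (piC [(nat_lit 36888796), (nat_lit 24534081), (nat_lit 18263511), (nat_lit 12310016)] (nat_lit 5344356)) p13_15_3 (nat_lit 4) (nat_lit 132) (nat_lit 133) = true := by decide +kernel
def p13_15_3_133 : pfC (piC [(nat_lit 36888796), (nat_lit 24534081), (nat_lit 18263511), (nat_lit 12310016)] (nat_lit 5344356)) p13_15_3 (nat_lit 4) (nat_lit 133) (nat_lit 134) = true := by decide +kernel
def p13_15_3_134 : pfC (piC [(nat_lit 36888796), (nat_lit 24534081), (nat_lit 18263511), (nat_lit 12310016)] (nat_lit 5344356)) p13_15_3 (nat_lit 4) (nat_lit 134) (nat_lit 135) = true := by decide +kernel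
def p13_15_3_135 : pfC (piC [(nat_lit 36888796), (nat_lit 24534081), (nat_lit 18263511), (nat_lit 12310016)] (nat_lit 5344356)) p13_15_3 (nat_lit 4) (nat_lit 135) (nat_lit 136) = true := by decide +kernel
def p13_15_3_136 : pfC (piC [(nat_lit 36888796), (nat_lit 24534081), (nat_lit 18263511), (nat_lit 12310016)] (nat_lit 5344356)) p13_15_3 (nat_lit 4) (nat_lit 136) (nat_lit 137) = true := by decide +kernel
def p13_15_3_137 : pfC (piC [(nat_lit 36888796), (nat_lit 24534081), (nat_lit 18263511), (nat_lit 12310016)] (nat_lit 5344356)) p13_15_3 (nat_lit 4) (nat_lit 137) (nat_lit 138) = true := by decide +kernel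
def p13_15_3_138 : pfC (piC [(nat_lit 36888796), (nat_lit 24534081), (nat_lit 18263511), (nat_lit 12310016)] (nat_lit 5344356)) p13_15_3 (nat_lit 4) (nat_lit 138) (nat_lit 139) = true := by decide +kernel
def p13_15_3_139 : pfC (piC [(nat_lit 36888796), (nat_lit 24534081), (nat_lit 18263511), (nat_lit 12310016)] (nat_lit 5344356)) p13_15_3 (nat_lit 4) (nat_lit 139) (nat_lit 140) = true := by decide +kernel
def p13_15_3_140 : pfC (piC [(nat_lit 36888796), (nat_lit 24534081), (nat_lit 18263511), (nat_lit 12310016)] (nat_lit 5344356)) p13_15_3 (nat_lit 4) (nat_lit 140) (nat_lit 141) = true := by decide +kernel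
def p13_15_3_141 : pfC (piC [(nat_lit 36888796), (nat_lit 24534081), (nat_lit 18263511), (nat_lit 12310016)] (nat_lit 5344356)) p13_15_3 (nat_lit 4) (nat_lit 141) (nat_lit 142) = true := by decide +kernel
def p13_15_3_142 : pfC (piC [(nat_lit 36888796), (nat_lit 24534081), (nat_lit 18263511), (nat_lit 12310016)] (nat_lit 5344356)) p13_15_3 (nat_lit 4) (nat_lit 142) (nat_lit 143) = true := by decide +kernel
def p13_15_3_143 : pfC (piC [(nat_lit 36888796), (nat_lit 24534081), (nat_lit 18263511), (nat_lit 12310016)] (nat_lit 5344356)) p13_15_3 (nat_lit 4) (nat_lit 143) (nat_lit 144) = true := by decide +kernel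
def p13_15_3_144 : pfC (piC [(nat_lit 36888796), (nat_lit 24534081), (nat_lit 18263511), (nat_lit 12310016)] (nat_lit 5344356)) p13_15_3 (nat_lit 4) (nat_lit 144) (nat_lit 145) = true := by decide +kernel
def p13_15_3_145 : pfC (piC [(nat_lit 36888796), (nat_lit 24534081), (nat_lit 18263511), (nat_lit 12310016)] (nat_lit 5344356)) p13_15_3 (nat_lit 4) (nat_lit 145) (nat_lit 146) = true := by decide +kernel
def p13_15_3_146 : pfC (piC [(nat_lit 36888796), (nat_lit 24534081), (nat_lit 18263511), (nat_lit 12310016)] (nat_lit 5344356)) p13_15_3 (nat_lit 4) (nat_lit 146) (nat_lit 147) = true := by decide +kernel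
def p13_15_3_147 : pfC (piC [(nat_lit 36888796), (nat_lit 24534081), (nat_lit 18263511), (nat_lit 12310016)] (nat_lit 5344356)) p13_15_3 (nat_lit 4) (nat_lit 147) (nat_lit 148) = true := by decide +kernel
def p13_15_3_148 : pfC (piC [(nat_lit 36888796), (nat_lit 24534081), (nat_lit 18263511), (nat_lit 12310016)] (nat_lit 5344356)) p13_15_3 (nat_lit 4) (nat_lit 148) (nat_lit 149) = true := by decide +kernel
def p13_15_3_149 : pfC (piC [(nat_lit 36888796), (nat_lit 24534081), (nat_lit 18263511), (nat_lit 12310016)] (nat_lit 5344356)) p13_15_3 (nat_lit 4) (nat_lit 149) (nat_lit 150) = true := by decide +kernel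
def p13_15_3_150 : pfC (piC [(nat_lit 36888796), (nat_lit 24534081), (nat_lit 18263511), (nat_lit 12310016)] (nat_lit 5344356)) p13_15_3 (nat_lit 4) (nat_lit 150) (nat_lit 151) = true := by decide +kernel
def p13_15_3_151 : pfC (piC [(nat_lit 36888796), (nat_lit 24534081), (nat_lit 18263511), (nat_lit 12310016)] (nat_lit 5344356)) p13_15_3 (nat_lit 4) (nat_lit 151) (nat_lit 152) = true := by decide +kernel
def p13_15_3_152 : pfC (piC [(nat_lit 36888796), (nat_lit 24534081), (nat_lit 18263511), (nat_lit 12310016)] (nat_lit 5344356)) p13_15_3 (nat_lit 4) (nat_lit 152) (nat_lit 153) = true := by decide +kernel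
def p13_15_3_153 : pfC (piC [(nat_lit 36888796), (nat_lit 24534081), (nat_lit 18263511), (nat_lit 12310016)] (nat_lit 5344356)) p13_15_3 (nat_lit 4) (nat_lit 153) (nat_lit 154) = true := by decide +kernel
def p13_15_3_154 : pfC (piC [(nat_lit 36888796), (nat_lit 24534081), (nat_lit 18263511), (nat_lit 12310016)] (nat_lit 5344356)) p13_15_3 (nat_lit 4) (nat_lit 154) (nat_lit 155) = true := by decide +kernel
def p13_15_3_155 : pfC (piC [(nat_lit 36888796), (nat_lit 24534081), (nat_lit 18263511), (nat_lit 12310016)] (nat_lit 5344356)) p13_15_3 (nat_lit 4) (nat_lit 155) (nat_lit 156) = true := by decide +kernel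
def p13_15_3_156 : pfC (piC [(nat_lit 36888796), (nat_lit 24534081), (nat_lit 18263511), (nat_lit 12310016)] (nat_lit 5344356)) p13_15_3 (nat_lit 4) (nat_lit 156) (nat_lit 157) = true := by decide +kernel
def p13_15_3_157 : pfC (piC [(nat_lit 36888796), (nat_lit 24534081), (nat_lit 18263511), (nat_lit 12310016)] (nat_lit 5344356)) p13_15_3 (nat_lit 4) (nat_lit 157) (nat_lit 158) = true := by decide +kernel
def p13_15_3_158 : pfC (piC [(nat_lit 36888796), (nat_lit 24534081), (nat_lit 18263511), (nat_lit 12310016)] (nat_lit 5344356)) p13_15_3 (nat_lit 4) (nat_lit 158) (nat_lit 159) = true := by decide +kernel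
def p13_15_3_159 : pfC (piC [(nat_lit 36888796), (nat_lit 24534081), (nat_lit 18263511), (nat_lit 12310016)] (nat_lit 5344356)) p13_15_3 (nat_lit 4) (nat_lit 159) (nat_lit 160) = true := by decide +kernel
def p13_15_3_160 : pfC (piC [(nat_lit 36888796), (nat_lit 24534081), (nat_lit 18263511), (nat_lit 12310016)] (nat_lit 5344356)) p13_15_3 (nat_lit 4) (nat_lit 160) (nat_lit 161) = true := by decide +kernel
def p13_15_3_161 : pfC (piC [(nat_lit 36888796), (nat_lit 24534081), (nat_lit 18263511), (nat_lit 12310016)] (nat_lit 5344356)) p13_15_3 (nat_lit 4) (nat_lit 161) (nat_lit 162) = true := by decide +kernel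
def p13_15_3_162 : pfC (piC [(nat_lit 36888796), (nat_lit 24534081), (nat_lit 18263511), (nat_lit 12310016)] (nat_lit 5344356)) p13_15_3 (nat_lit 4) (nat_lit 162) (nat_lit 163) = true := by decide +kernel
def p13_15_3_163 : pfC (piC [(nat_lit 36888796), (nat_lit 24534081), (nat_lit 18263511), (nat_lit 12310016)] (nat_lit 5344356)) p13_15_3 (nat_lit 4) (nat_lit 163) (nat_lit 164) = true := by decide +kernel
def p13_15_3_164 : pfC (piC [(nat_lit 36888796), (nat_lit 24534081), (nat_lit 18263511), (nat_lit 12310016)] (nat_lit 5344356)) p13_15_3 (nat_lit 4) (nat_lit 164) (nat_lit 165) = true := by decide +kernel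
def p13_15_3_165 : pfC (piC [(nat_lit 36888796), (nat_lit 24534081), (nat_lit 18263511), (nat_lit 12310016)] (nat_lit 5344356)) p13_15_3 (nat_lit 4) (nat_lit 165) (nat_lit 166) = true := by decide +kernel
def p13_15_3_166 : pfC (piC [(nat_lit 36888796), (nat_lit 24534081), (nat_lit 18263511), (nat_lit 12310016)] (nat_lit 5344356)) p13_15_3 (nat_lit 4) (nat_lit 166) (nat_lit 167) = true := by decide +kernel
def p13_15_3_167 : pfC (piC [(nat_lit 36888796), (nat_lit 24534081), (nat_lit 18263511), (nat_lit 12310016)] (nat_lit 5344356)) p13_15_3 (nat_lit 4) (nat_lit 167) (nat_lit 168) = true := by decide +kernel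
def p13_15_3_168 : pfC (piC [(nat_lit 36888796), (nat_lit 24534081), (nat_lit 18263511), (nat_lit 12310016)] (nat_lit 5344356)) p13_15_3 (nat_lit 4) (nat_lit 168) (nat_lit 169) = true := by decide +kernel
def p13_15_3_169 : pfC (piC [(nat_lit 36888796), (nat_lit 24534081), (nat_lit 18263511), (nat_lit 12310016)] (nat_lit 5344356)) p13_15_3 (nat_lit 4) (nat_lit 169) (nat_lit 170) = true := by decide +kernel
def p13_15_3_170 : pfC (piC [(nat_lit 36888796), (nat_lit 24534081), (nat_lit 18263511), (nat_lit 12310016)] (nat_lit 5344356)) p13_15_3 (nat_lit 4) (nat_lit 170) (nat_lit 171) = true := by decide +kernel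
def p13_15_3_171 : pfC (piC [(nat_lit 36888796), (nat_lit 24534081), (nat_lit 18263511), (nat_lit 12310016)] (nat_lit 5344356)) p13_15_3 (nat_lit 4) (nat_lit 171) (nat_lit 172) = true := by decide +kernel
def p13_15_3_172 : pfC (piC [(nat_lit 36888796), (nat_lit 24534081), (nat_lit 18263511), (nat_lit 12310016)] (nat_lit 5344356)) p13_15_3 (nat_lit 4) (nat_lit 172) (nat_lit 173) = true := by decide +kernel
def p13_15_3_173 : pfC (piC [(nat_lit 36888796), (nat_lit 24534081), (nat_lit 18263511), (nat_lit 12310016)] (nat_lit 5344356)) p13_15_3 (nat_lit 4) (nat_lit 173) (nat_lit 174) = true := by decide +kernel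
def p13_15_3_174 : pfC (piC [(nat_lit 36888796), (nat_lit 24534081), (nat_lit 18263511), (nat_lit 12310016)] (nat_lit 5344356)) p13_15_3 (nat_lit 4) (nat_lit 174) (nat_lit 175) = true := by decide +kernel
def p13_15_3_175 : pfC (piC [(nat_lit 36888796), (nat_lit 24534081), (nat_lit 18263511), (nat_lit 12310016)] (nat_lit 5344356)) p13_15_3 (nat_lit 4) (nat_lit 175) (nat_lit 176) = true := by decide +kernel
def p13_15_3_176 : pfC (piC [(nat_lit 36888796), (nat_lit 24534081), (nat_lit 18263511), (nat_lit 12310016)] (nat_lit 5344356)) p13_15_3 (nat_lit 4) (nat_lit 176) (nat_lit 177) = true := by decide +kernel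
def p13_15_3_177 : pfC (piC [(nat_lit 36888796), (nat_lit 24534081), (nat_lit 18263511), (nat_lit 12310016)] (nat_lit 5344356)) p13_15_3 (nat_lit 4) (nat_lit 177) (nat_lit 178) = true := by decide +kernel
def p13_15_3_178 : pfC (piC [(nat_lit 36888796), (nat_lit 24534081), (nat_lit 18263511), (nat_lit 12310016)] (nat_lit 5344356)) p13_15_3 (nat_lit 4) (nat_lit 178) (nat_lit 179) = true := by decide +kernel
def p13_15_3_179 : pfC (piC [(nat_lit 36888796), (nat_lit 24534081), (nat_lit 18263511), (nat_lit 12310016)] (nat_lit 5344356)) p13_15_3 (nat_lit 4) (nat_lit 179) (nat_lit 180) = true := by decide +kernel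
def p13_15_3_180 : pfC (piC [(nat_lit 36888796), (nat_lit 24534081), (nat_lit 18263511), (nat_lit 12310016)] (nat_lit 5344356)) p13_15_3 (nat_lit 4) (nat_lit 180) (nat_lit 181) = true := by decide +kernel
def p13_15_3_181 : pfC (piC [(nat_lit 36888796), (nat_lit 24534081), (nat_lit 18263511), (nat_lit 12310016)] (nat_lit 5344356)) p13_15_3 (nat_lit 4) (nat_lit 181) (nat_lit 182) = true := by decide +kernel
def p13_15_3_182 : pfC (piC [(nat_lit 36888796), (nat_lit 24534081), (nat_lit 18263511), (nat_lit 12310016)] (nat_lit 5344356)) p13_15_3 (nat_lit 4) (nat_lit 182) (nat_lit 183) = true := by decide +kernel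
def p13_15_3_183 : pfC (piC [(nat_lit 36888796), (nat_lit 24534081), (nat_lit 18263511), (nat_lit 12310016)] (nat_lit 5344356)) p13_15_3 (nat_lit 4) (nat_lit 183) (nat_lit 184) = true := by decide +kernel
def p13_15_3_184 : pfC (piC [(nat_lit 36888796), (nat_lit 24534081), (nat_lit 18263511), (nat_lit 12310016)] (nat_lit 5344356)) p13_15_3 (nat_lit 4) (nat_lit 184) (nat_lit 185) = true := by decide +kernel
def p13_15_3_185 : pfC (piC [(nat_lit 36888796), (nat_lit 24534081), (nat_lit 18263511), (nat_lit 12310016)] (nat_lit 5344356)) p13_15_3 (nat_lit 4) (nat_lit 185) (nat_lit 186) = true := by decide +kernel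
def p13_15_3_186 : pfC (piC [(nat_lit 36888796), (nat_lit 24534081), (nat_lit 18263511), (nat_lit 12310016)] (nat_lit 5344356)) p13_15_3 (nat_lit 4) (nat_lit 186) (nat_lit 187) = true := by decide +kernel
def p13_15_3_187 : pfC (piC [(nat_lit 36888796), (nat_lit 24534081), (nat_lit 18263511), (nat_lit 12310016)] (nat_lit 5344356)) p13_15_3 (nat_lit 4) (nat_lit 187) (nat_lit 188) = true := by decide +kernel
def p13_15_3_188 : pfC (piC [(nat_lit 36888796), (nat_lit 24534081), (nat_lit 18263511), (nat_lit 12310016)] (nat_lit 5344356)) p13_15_3 (nat_lit 4) (nat_lit 188) (nat_lit 189) = true := by decide +kernel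
def p13_15_3_189 : pfC (piC [(nat_lit 36888796), (nat_lit 24534081), (nat_lit 18263511), (nat_lit 12310016)] (nat_lit 5344356)) p13_15_3 (nat_lit 4) (nat_lit 189) (nat_lit 190) = true := by decide +kernel
def p13_15_3_190 : pfC (piC [(nat_lit 36888796), (nat_lit 24534081), (nat_lit 18263511), (nat_lit 12310016)] (nat_lit 5344356)) p13_15_3 (nat_lit 4) (nat_lit 190) (nat_lit 191) = true := by decide +kernel
def p13_15_3_191 : pfC (piC [(nat_lit 36888796), (nat_lit 24534081), (nat_lit 18263511), (nat_lit 12310016)] (nat_lit 5344356)) p13_15_3 (nat_lit 4) (nat_lit 191) (nat_lit 192) = true := by decide +kernel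
def p13_15_3_192 : pfC (piC [(nat_lit 36888796), (nat_lit 24534081), (nat_lit 18263511), (nat_lit 12310016)] (nat_lit 5344356)) p13_15_3 (nat_lit 4) (nat_lit 192) (nat_lit 193) = true := by decide +kernel
def p13_15_3_193 : pfC (piC [(nat_lit 36888796), (nat_lit 24534081), (nat_lit 18263511), (nat_lit 12310016)] (nat_lit 5344356)) p13_15_3 (nat_lit 4) (nat_lit 193) (nat_lit 194) = true := by decide +kernel
def p13_15_3_194 : pfC (piC [(nat_lit 36888796), (nat_lit 24534081), (nat_lit 18263511), (nat_lit 12310016)] (nat_lit 5344356)) p13_15_3 (nat_lit 4) (nat_lit 194) (nat_lit 195) = true := by decide +kernel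
def p13_15_3_195 : pfC (piC [(nat_lit 36888796), (nat_lit 24534081), (nat_lit 18263511), (nat_lit 12310016)] (nat_lit 5344356)) p13_15_3 (nat_lit 4) (nat_lit 195) (nat_lit 196) = true := by decide +kernel
def p13_15_3_196 : pfC (piC [(nat_lit 36888796), (nat_lit 24534081), (nat_lit 18263511), (nat_lit 12310016)] (nat_lit 5344356)) p13_15_3 (nat_lit 4) (nat_lit 196) (nat_lit 197) = true := by decide +kernel
def p13_15_3_197 : pfC (piC [(nat_lit 36888796), (nat_lit 24534081), (nat_lit 18263511), (nat_lit 12310016)] (nat_lit 5344356)) p13_15_3 (nat_lit 4) (nat_lit 197) (nat_lit 198) = true := by decide +kernel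
def p13_15_3_198 : pfC (piC [(nat_lit 36888796), (nat_lit 24534081), (nat_lit 18263511), (nat_lit 12310016)] (nat_lit 5344356)) p13_15_3 (nat_lit 4) (nat_lit 198) (nat_lit 199) = true := by decide +kernel
def p13_15_3_199 : pfC (piC [(nat_lit 36888796), (nat_lit 24534081), (nat_lit 18263511), (nat_lit 12310016)] (nat_lit 5344356)) p13_15_3 (nat_lit 4) (nat_lit 199) (nat_lit 200) = true := by decide +kernel
def p13_15_3_200 : pfC (piC [(nat_lit 36888796), (nat_lit 24534081), (nat_lit 18263511), (nat_lit 12310016)] (nat_lit 5344356)) p13_15_3 (nat_lit 4) (nat_lit 200) (nat_lit 201) = true := by decide +kernel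
def p13_15_3_201 : pfC (piC [(nat_lit 36888796), (nat_lit 24534081), (nat_lit 18263511), (nat_lit 12310016)] (nat_lit 5344356)) p13_15_3 (nat_lit 4) (nat_lit 201) (nat_lit 202) = true := by decide +kernel
def p13_15_3_202 : pfC (piC [(nat_lit 36888796), (nat_lit 24534081), (nat_lit 18263511), (nat_lit 12310016)] (nat_lit 5344356)) p13_15_3 (nat_lit 4) (nat_lit 202) (nat_lit 203) = true := by decide +kernel
def p13_15_3_203 : pfC (piC [(nat_lit 36888796), (nat_lit 24534081), (nat_lit 18263511), (nat_lit 12310016)] (nat_lit 5344356)) p13_15_3 (nat_lit 4) (nat_lit 203) (nat_lit 204) = true := by decide +kernel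
def p13_15_3_204 : pfC (piC [(nat_lit 36888796), (nat_lit 24534081), (nat_lit 18263511), (nat_lit 12310016)] (nat_lit 5344356)) p13_15_3 (nat_lit 4) (nat_lit 204) (nat_lit 205) = true := by decide +kernel
def p13_15_3_205 : pfC (piC [(nat_lit 36888796), (nat_lit 24534081), (nat_lit 18263511), (nat_lit 12310016)] (nat_lit 5344356)) p13_15_3 (nat_lit 4) (nat_lit 205) (nat_lit 206) = true := by decide +kernel
def p13_15_3_206 : pfC (piC [(nat_lit 36888796), (nat_lit 24534081), (nat_lit 18263511), (nat_lit 12310016)] (nat_lit 5344356)) p13_15_3 (nat_lit 4) (nat_lit 206) (nat_lit 207) = true := by decide +kernel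
def p13_15_3_207 : pfC (piC [(nat_lit 36888796), (nat_lit 24534081), (nat_lit 18263511), (nat_lit 12310016)] (nat_lit 5344356)) p13_15_3 (nat_lit 4) (nat_lit 207) (nat_lit 208) = true := by decide +kernel
def p13_15_3_208 : pfC (piC [(nat_lit 36888796), (nat_lit 24534081), (nat_lit 18263511), (nat_lit 12310016)] (nat_lit 5344356)) p13_15_3 (nat_lit 4) (nat_lit 208) (nat_lit 209) = true := by decide +kernel
def p13_15_3_209 : pfC (piC [(nat_lit 36888796), (nat_lit 24534081), (nat_lit 18263511), (nat_lit 12310016)] (nat_lit 5344356)) p13_15_3 (nat_lit 4) (nat_lit 209) (nat_lit 210) = true := by decide +kernel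
def p13_15_3_210 : pfC (piC [(nat_lit 36888796), (nat_lit 24534081), (nat_lit 18263511), (nat_lit 12310016)] (nat_lit 5344356)) p13_15_3 (nat_lit 4) (nat_lit 210) (nat_lit 211) = true := by decide +kernel
def p13_15_3_211 : pfC (piC [(nat_lit 36888796), (nat_lit 24534081), (nat_lit 18263511), (nat_lit 12310016)] (nat_lit 5344356)) p13_15_3 (nat_lit 4) (nat_lit 211) (nat_lit 212) = true := by decide +kernel
def p13_15_3_212 : pfC (piC [(nat_lit 36888796), (nat_lit 24534081), (nat_lit 18263511), (nat_lit 12310016)] (nat_lit 5344356)) p13_15_3 (nat_lit 4) (nat_lit 212) (nat_lit 213) = true := by decide +kernel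
def p13_15_3_213 : pfC (piC [(nat_lit 36888796), (nat_lit 24534081), (nat_lit 18263511), (nat_lit 12310016)] (nat_lit 5344356)) p13_15_3 (nat_lit 4) (nat_lit 213) (nat_lit 214) = true := by decide +kernel
def p13_15_3_214 : pfC (piC [(nat_lit 36888796), (nat_lit 24534081), (nat_lit 18263511), (nat_lit 12310016)] (nat_lit 5344356)) p13_15_3 (nat_lit 4) (nat_lit 214) (nat_lit 215) = true := by decide +kernel
def p13_15_3_215 : pfC (piC [(nat_lit 36888796), (nat_lit 24534081), (nat_lit 18263511), (nat_lit 12310016)] (nat_lit 5344356)) p13_15_3 (nat_lit 4) (nat_lit 215) (nat_lit 216) = true := by decide +kernel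
def p13_15_3_216 : pfC (piC [(nat_lit 36888796), (nat_lit 24534081), (nat_lit 18263511), (nat_lit 12310016)] (nat_lit 5344356)) p13_15_3 (nat_lit 4) (nat_lit 216) (nat_lit 217) = true := by decide +kernel
theorem p13_15_3_T : PfS (PiF n13_15.reverse (nat_lit 5344356)) p13_15_3 (nat_lit 4) [] 0 :=
  pftab_of (los := [(nat_lit 36888796), (nat_lit 24534081), (nat_lit 18263511), (nat_lit 12310016)]) (by decide +kernel) (hi := (nat_lit 217)) (PfP.trans (PfP.trans (PfP.trans (PfP.trans (PfP.trans (PfP.trans (PfP.trans (PfP.trans (PfP.trans (PfP.trans (PfP.trans (PfP.trans (PfP.trans (PfP.trans (PfP.trans (PfP.trans (PfP.trans (PfP.trans (PfP.trans (PfP.trans (PfP.trans (PfP.trans (PfP.trans (PfP.trans (PfP.trans (PfP.trans (PfP.trans (PfP.trans (PfP.trans (PfP.trans (PfP.trans (PfP.trans (PfP.trans (PfP.trans (PfP.trans (PfP.trans (PfP.trans (PfP.trans (PfP.trans (PfP.trans (PfP.trans (PfP.trans (PfP.trans (PfP.trans (PfP.trans (PfP.trans (PfP.trans (PfP.trans (PfP.trans (PfP.trans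 (PfP.trans (PfP.trans (PfP.trans (PfP.trans (PfP.trans (PfP.trans (PfP.trans (PfP.trans (PfP.trans (PfP.trans (PfP.trans (PfP.trans (PfP.trans (PfP.trans (PfP.trans (PfP.trans (PfP.trans (PfP.trans (PfP.trans (PfP.trans (PfP.trans (PfP.trans (PfP.trans (PfP.trans (PfP.trans (PfP.trans (PfP.trans (PfP.trans (PfP.trans (PfP.trans (PfP.trans (PfP.trans (PfP.trans (PfP.trans (PfP.trans (PfP.trans (PfP.trans (PfP.trans (PfP.trans (PfP.trans (PfP.trans (PfP.trans (PfP.trans (PfP.trans (PfP.trans (PfP.trans (PfP.trans (PfP.trans (PfP.trans (PfP.trans (PfP.trans (PfP.trans (PfP.trans (PfP.trans (PfP.trans (PfP.trans (PfP.trans (PfP.trans (PfP.trans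
 (PfP.trans (PfP.trans (PfP.trans (PfP.trans (PfP.trans (PfP.trans (PfP.trans (PfP.trans (PfP.trans (PfP.trans (PfP.trans (PfP.trans (PfP.trans (PfP.trans (PfP.trans (PfP.trans (PfP.trans (PfP.trans (PfP.trans (PfP.trans (PfP.trans (PfP.trans (PfP.trans (PfP.trans (PfP.trans (PfP.trans (PfP.trans (PfP.trans (PfP.trans (PfP.trans (PfP.trans (PfP.trans (PfP.trans (PfP.trans (PfP.trans (PfP.trans (PfP.trans (PfP.trans (PfP.trans (PfP.trans (PfP.trans (PfP.trans (PfP.trans (PfP.trans (PfP.trans (PfP.trans (PfP.trans (PfP.trans (PfP.trans (PfP.trans (PfP.trans (PfP.trans (PfP.trans (PfP.trans (PfP.trans (PfP.trans (PfP.trans (PfP.trans (PfP.trans (PfP.trans (PfP.trans (PfP.trans (PfP.trans (PfP.trans (PfP.trans (PfP.trans (PfP.trans (PfP.trans (PfP.trans (PfP.trans (PfP.trans (PfP.trans (PfP.trans (PfP.trans (PfP.trans (PfP.trans (PfP.trans (PfP.trans (PfP.trans (PfP.trans (PfP.trans (PfP.trans (PfP.trans (PfP.trans (PfP.trans (PfP.trans (PfP.trans (PfP.trans (PfP.trans (PfP.trans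 (PfP.trans (PfP.trans (PfP.trans (PfP.trans (PfP.trans (PfP.trans (PfP.trans (PfP.trans (PfP.trans (PfP.trans (PfP.trans (PfP.trans (PfP.trans (PfP.trans (PfP.trans (PfP.trans (PfP.trans (pfC_sound p13_15_3_0)
 (pfC_sound p13_15_3_1)) (pfC_sound p13_15_3_2)) (pfC_sound p13_15_3_3)) (pfC_sound p13_15_3_4)) (pfC_sound p13_15_3_5)) (pfC_sound p13_15_3_6)) (pfC_sound p13_15_3_7)) (pfC_sound p13_15_3_8)) (pfC_sound p13_15_3_9)) (pfC_sound p13_15_3_10)) (pfC_sound p13_15_3_11)) (pfC_sound p13_15_3_12)) (pfC_sound p13_15_3_13)) (pfC_sound p13_15_3_14)) (pfC_sound p13_15_3_15)) (pfC_sound p13_15_3_16)) (pfC_sound p13_15_3_17)) (pfC_sound p13_15_3_18)) (pfC_sound p13_15_3_19)) (pfC_sound p13_15_3_20)) (pfC_sound p13_15_3_21)) (pfC_sound p13_15_3_22)) (pfC_sound p13_15_3_23)) (pfC_sound p13_15_3_24)) (pfC_sound p13_15_3_25)) (pfC_sound p13_15_3_26)) (pfC_sound p13_15_3_27)) (pfC_sound p13_15_3_28)) (pfC_sound p13_15_3_29)) (pfC_sound p13_15_3_30)) (pfC_sound p13_15_3_31)) (pfC_sound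 p13_15_3_32)) (pfC_sound p13_15_3_33)) (pfC_sound p13_15_3_34)) (pfC_sound p13_15_3_35)) (pfC_sound p13_15_3_36)) (pfC_sound p13_15_3_37)) (pfC_sound p13_15_3_38)) (pfC_sound p13_15_3_39)) (pfC_sound p13_15_3_40)) (pfC_sound p13_15_3_41)) (pfC_sound p13_15_3_42)) (pfC_sound p13_15_3_43)) (pfC_sound p13_15_3_44)) (pfC_sound p13_15_3_45)) (pfC_sound p13_15_3_46)) (pfC_sound p13_15_3_47)) (pfC_sound p13_15_3_48))
 (pfC_sound p13_15_3_49)) (pfC_sound p13_15_3_50)) (pfC_sound p13_15_3_51)) (pfC_sound p13_15_3_52)) (pfC_sound p13_15_3_53)) (pfC_sound p13_15_3_54)) (pfC_sound p13_15_3_55)) (pfC_sound p13_15_3_56)) (pfC_sound p13_15_3_57)) (pfC_sound p13_15_3_58)) (pfC_sound p13_15_3_59)) (pfC_sound p13_15_3_60)) (pfC_sound p13_15_3_61)) (pfC_sound p13_15_3_62)) (pfC_sound p13_15_3_63)) (pfC_sound p13_15_3_64)) (pfC_sound p13_15_3_65)) (pfC_sound p13_15_3_66)) (pfC_sound p13_15_3_67)) (pfC_sound p13_15_3_68)) (pfC_sound p13_15_3_69)) (pfC_sound p13_15_3_70)) (pfC_sound p13_15_3_71))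 (pfC_sound p13_15_3_72)) (pfC_sound p13_15_3_73)) (pfC_sound p13_15_3_74)) (pfC_sound p13_15_3_75)) (pfC_sound p13_15_3_76)) (pfC_sound p13_15_3_77)) (pfC_sound p13_15_3_78)) (pfC_sound p13_15_3_79)) (pfC_sound p13_15_3_80)) (pfC_sound p13_15_3_81)) (pfC_sound p13_15_3_82)) (pfC_sound p13_15_3_83)) (pfC_sound p13_15_3_84)) (pfC_sound p13_15_3_85)) (pfC_sound p13_15_3_86)) (pfC_sound p13_15_3_87)) (pfC_sound p13_15_3_88)) (pfC_sound p13_15_3_89)) (pfC_sound p13_15_3_90)) (pfC_sound p13_15_3_91)) (pfC_sound p13_15_3_92)) (pfC_sound p13_15_3_93)) (pfC_sound p13_15_3_94)) (pfC_sound p13_15_3_95)) (pfC_sound p13_15_3_96))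
 (pfC_sound p13_15_3_97)) (pfC_sound p13_15_3_98)) (pfC_sound p13_15_3_99)) (pfC_sound p13_15_3_100)) (pfC_sound p13_15_3_101)) (pfC_sound p13_15_3_102)) (pfC_sound p13_15_3_103)) (pfC_sound p13_15_3_104)) (pfC_sound p13_15_3_105)) (pfC_sound p13_15_3_106)) (pfC_sound p13_15_3_107)) (pfC_sound p13_15_3_108)) (pfC_sound p13_15_3_109)) (pfC_sound p13_15_3_110)) (pfC_sound p13_15_3_111)) (pfC_sound p13_15_3_112)) (pfC_sound p13_15_3_113)) (pfC_sound p13_15_3_114)) (pfC_sound p13_15_3_115)) (pfC_sound p13_15_3_116)) (pfC_sound p13_15_3_117)) (pfC_sound p13_15_3_118)) (pfC_sound p13_15_3_119)) (pfC_sound p13_15_3_120)) (pfC_sound p13_15_3_121)) (pfC_sound p13_15_3_122)) (pfC_sound p13_15_3_123)) (pfC_sound p13_15_3_124)) (pfC_sound p13_15_3_125)) (pfC_sound p13_15_3_126)) (pfC_sound p13_15_3_127)) (pfC_sound p13_15_3_128)) (pfC_sound p13_15_3_129)) (pfC_sound p13_15_3_130)) (pfC_sound p13_15_3_131)) (pfC_sound p13_15_3_132)) (pfC_sound p13_15_3_133)) (pfC_sound p13_15_3_134))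 (pfC_sound p13_15_3_135)) (pfC_sound p13_15_3_136)) (pfC_sound p13_15_3_137)) (pfC_sound p13_15_3_138)) (pfC_sound p13_15_3_139)) (pfC_sound p13_15_3_140)) (pfC_sound p13_15_3_141)) (pfC_sound p13_15_3_142))
 (pfC_sound p13_15_3_143)) (pfC_sound p13_15_3_144)) (pfC_sound p13_15_3_145)) (pfC_sound p13_15_3_146)) (pfC_sound p13_15_3_147)) (pfC_sound p13_15_3_148)) (pfC_sound p13_15_3_149)) (pfC_sound p13_15_3_150)) (pfC_sound p13_15_3_151)) (pfC_sound p13_15_3_152)) (pfC_sound p13_15_3_153)) (pfC_sound p13_15_3_154)) (pfC_sound p13_15_3_155)) (pfC_sound p13_15_3_156)) (pfC_sound p13_15_3_157)) (pfC_sound p13_15_3_158)) (pfC_sound p13_15_3_159)) (pfC_sound p13_15_3_160)) (pfC_sound p13_15_3_161)) (pfC_sound p13_15_3_162)) (pfC_sound p13_15_3_163)) (pfC_sound p13_15_3_164)) (pfC_sound p13_15_3_165)) (pfC_sound p13_15_3_166)) (pfC_sound p13_15_3_167)) (pfC_sound p13_15_3_168)) (pfC_sound p13_15_3_169)) (pfC_sound p13_15_3_170)) (pfC_sound p13_15_3_171)) (pfC_sound p13_15_3_172))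 (pfC_sound p13_15_3_173)) (pfC_sound p13_15_3_174)) (pfC_sound p13_15_3_175)) (pfC_sound p13_15_3_176)) (pfC_sound p13_15_3_177)) (pfC_sound p13_15_3_178)) (pfC_sound p13_15_3_179)) (pfC_sound p13_15_3_180)) (pfC_sound p13_15_3_181)) (pfC_sound p13_15_3_182)) (pfC_sound p13_15_3_183)) (pfC_sound p13_15_3_184)) (pfC_sound p13_15_3_185)) (pfC_sound p13_15_3_186)) (pfC_sound p13_15_3_187)) (pfC_sound p13_15_3_188))
 (pfC_sound p13_15_3_189)) (pfC_sound p13_15_3_190)) (pfC_sound p13_15_3_191)) (pfC_sound p13_15_3_192)) (pfC_sound p13_15_3_193)) (pfC_sound p13_15_3_194)) (pfC_sound p13_15_3_195)) (pfC_sound p13_15_3_196)) (pfC_sound p13_15_3_197)) (pfC_sound p13_15_3_198)) (pfC_sound p13_15_3_199)) (pfC_sound p13_15_3_200)) (pfC_sound p13_15_3_201)) (pfC_sound p13_15_3_202)) (pfC_sound p13_15_3_203)) (pfC_sound p13_15_3_204)) (pfC_sound p13_15_3_205)) (pfC_sound p13_15_3_206)) (pfC_sound p13_15_3_207)) (pfC_sound p13_15_3_208)) (pfC_sound p13_15_3_209)) (pfC_sound p13_15_3_210))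 (pfC_sound p13_15_3_211)) (pfC_sound p13_15_3_212)) (pfC_sound p13_15_3_213)) (pfC_sound p13_15_3_214)) (pfC_sound p13_15_3_215)) (pfC_sound p13_15_3_216)) (by decide +kernel)

def z13_15_3 : zOK yB13_15 (nat_lit 3) (nat_lit 750) (nat_lit 792) (nat_lit 5344356) (nat_lit 5225610) = true := by decide +kernel
def g13_15_3 : gOK yB13_15.x P13_15 (nat_lit 1413) (q13_15 :: r13_15) (nat_lit 3) (nat_lit 750) (nat_lit 4) (nat_lit 792) (nat_lit 12712500) (nat_lit 12712500) (nat_lit 12712500) (nat_lit 12712500) [(nat_lit 800)] = true := by decide +kernel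
def v13_15_3 : ivC P13_15 s13_15 w13_15 n13_15 (nat_lit 4) (nat_lit 4610) (nat_lit 3) (nat_lit 750) f168_1_750 f176_1_750 (nat_lit 4) (nat_lit 792) f168_1_792 f176_1_792 (nat_lit 5344356) (nat_lit 5225610) p13_15_3 = true := by decide +kernel
end CB
end Pool.Agent.Lib.MP_6947cd_al
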