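import Pool.Agent.Lib.MP_6947cd_al.L.BoxDataB
import Pool.Agent.Lib.MP_6947cd_al.L.TeD5
import Pool.Agent.Lib.MP_6947cd_al.L.TeD6

/-!
Problem MP_6947cd_al (Chollet).  CASE B, rows `j`: boxes (generated).
-/

set_option autoImplicit false
set_option linter.defProp false
set_option maxRecDepth 20000

namespace Pool.Agent.Lib.MP_6947cd_al
namespace CB

open Ent Ent.Pk Fr Fr.WT CA

/-! box `yB13_16` -/

def P13_16 : BQ := ⟨(nat_lit 8), (nat_lit 4), (nat_lit 4), (nat_lit 0), (nat_lit 8), (nat_lit 860), (nat_lit 880), (nat_lit 120), [(nat_lit 200), (nat_lit 300), (nat_lit 450), (nat_lit 800)], (nat_lit 130304000), (nat_lit 16000000), (nat_lit 16000000000)⟩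
def q13_16 : PC := ⟨(nat_lit 1000), [(nat_lit 120000), (nat_lit 200000), (nat_lit 300000), (nat_lit 450000), (nat_lit 800000)], (nat_lit 340282367000166625996085689103316680705000000), (nat_lit 15869696000000), (nat_lit 15869696000000), (nat_lit 10000000)⟩
def r13_16 : List PC := [⟨(nat_lit 1317), [(nat_lit 120645), (nat_lit 200946), (nat_lit 301117), (nat_lit 451895), (nat_lit 801153)], (nat_lit 238197656924305946956451956526797297711794904), (nat_lit 16322760700160), (nat_lit 16333610012480), (nat_lit 10053750)⟩, ⟨(nat_lit 2584), [(nat_lit 124325), (nat_lit 204649), (nat_lit 306388), (nat_lit 465413), (nat_lit 811994)], (nat_lit 238197656925994061415543515093665966512368929), (nat_lit 17869481656320), (nat_lit 17923693992960), (nat_lit 10360417)⟩]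
def s13_16 : List PB := [⟨(nat_lit 26340), (nat_lit 1930320000000), [(nat_lit 200946), (nat_lit 301117), (nat_lit 451895), (nat_lit 801153)], (nat_lit 238197656924305946956451956526797297711794904), (nat_lit 1142222667542784), (nat_lit 1142233516855104), (nat_lit 50720)⟩, ⟨(nat_lit 51680), (nat_lit 1989200000000), [(nat_lit 204649), (nat_lit 306388), (nat_lit 465413), (nat_lit 811994)], (nat_lit 238197656925994061415543515093665966512368929), (nat_lit 1143769388498944), (nat_lit 1143823600835584), (nat_lit 253440)⟩]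
def n13_16 : List KN := [⟨(nat_lit 800), (nat_lit 450), (nat_lit 12073119), (nat_lit 6481740)⟩, ⟨(nat_lit 450), (nat_lit 300), (nat_lit 17897616), (nat_lit 12073119)⟩, ⟨(nat_lit 300), (nat_lit 200), (nat_lit 23968959), (nat_lit 17897616)⟩, ⟨(nat_lit 200), (nat_lit 120), (nat_lit 35755509), (nat_lit 23968959)⟩]
def w13_16 : List ℕ := [(nat_lit 50720), (nat_lit 253440)]
def par13_16 : parC yB13_16 P13_16 s13_16 r13_16 q13_16 n13_16 w13_16 = true := by decide +kernel

def p13_16_0 : PF := (PF.cons (PF.cons (PF.cons (PF.cons (PF.leaf (nat_lit 752155) (nat_lit 2322961) (nat_lit 64785851) (nat_lit 2322961) [(nat_lit 0), (nat_lit 0), (nat_lit 0), (nat_lit 0)]) (PF.cons (PF.leaf (nat_lit 949791) (nat_lit 328379) (nat_lit 64375646) (nat_lit 2404787) [(nat_lit 328379), (nat_lit 0), (nat_lit 0), (nat_lit 0)]) (PF.cons (PF.leaf (nat_lit 1188921) (nat_lit 364833) (nat_lit 63886383) (nat_lit 2492762) [(nat_lit 364833), (nat_lit 0), (nat_lit 0), (nat_lit 0)]) (PF.cons (PF.leaf (nat_lit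 1463777) (nat_lit 399010) (nat_lit 63329002) (nat_lit 2582777) [(nat_lit 399010), (nat_lit 0), (nat_lit 0), (nat_lit 0)]) (PF.cons (PF.leaf (nat_lit 1770743) (nat_lit 431213) (nat_lit 62711780) (nat_lit 2672179) [(nat_lit 431213), (nat_lit 0), (nat_lit 0), (nat_lit 0)]) (PF.cons (PF.leaf (nat_lit 2106679) (nat_lit 461579) (nat_lit 62041721) (nat_lit 2759195) [(nat_lit 461579), (nat_lit 0), (nat_lit 0), (nat_lit 0)]) (PF.cons (PF.leaf (nat_lit 2468678) (nat_lit 490176) (nat_lit 61325132) (nat_lit 2842621) [(nat_lit 490176), (nat_lit 0), (nat_lit 0), (nat_lit 0)]) (PF.cons (PF.leaf (nat_lit 2854040) (nat_lit 517042) (nat_lit 60567868) (nat_lit 2921643) [(nat_lit 517042), (nat_lit 0), (nat_lit 0),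
 (nat_lit 0)]) (PF.cons (PF.leaf (nat_lit 3260119) (nat_lit 542205) (nat_lit 59775440) (nat_lit 2995724) [(nat_lit 542205), (nat_lit 0), (nat_lit 0), (nat_lit 0)]) (PF.cons (PF.leaf (nat_lit 3684396) (nat_lit 565691) (nat_lit 58953057) (nat_lit 3064530) [(nat_lit 565691), (nat_lit 0), (nat_lit 0), (nat_lit 0)]) (PF.cons (PF.leaf (nat_lit 4124484) (nat_lit 587530) (nat_lit 58105634) (nat_lit 3127875) [(nat_lit 587530), (nat_lit 0), (nat_lit 0), (nat_lit 0)]) (PF.cons (PF.leaf (nat_lit 4578069) (nat_lit 607756) (nat_lit 57237794) (nat_lit 3185692) [(nat_lit 607756), (nat_lit 0), (nat_lit 0), (nat_lit 0)]) (PF.cons PF.nil (PF.cons PF.nil PF.nil)))))))))))))) (PF.cons (PF.cons (PF.leaf (nat_lit 1367453) (nat_lit 1352744) (nat_lit 63168588) (nat_lit 2587479) [(nat_lit 0), (nat_lit 1352744), (nat_lit 0), (nat_lit 0)]) (PF.cons (PF.leaf (nat_lit 1635906) (nat_lit 415394) (nat_lit 62611633) (nat_lit 2667521) [(nat_lit 415394), (nat_lit 1414263), (nat_lit 0), (nat_lit 0)]) (PF.cons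 (PF.leaf (nat_lit 1938245) (nat_lit 446497) (nat_lit 61992483) (nat_lit 2748073) [(nat_lit 446497), (nat_lit 1475262), (nat_lit 0), (nat_lit 0)]) (PF.cons (PF.leaf (nat_lit 2269930) (nat_lit 475712) (nat_lit
 61320072) (nat_lit 2827074) [(nat_lit 475712), (nat_lit 1534529), (nat_lit 0), (nat_lit 0)]) (PF.cons (PF.leaf (nat_lit 2627668) (nat_lit 503152) (nat_lit 60601719) (nat_lit 2903161) [(nat_lit 503152), (nat_lit 1591321), (nat_lit 0), (nat_lit 0)]) (PF.cons (PF.leaf (nat_lit 3008511) (nat_lit 528879) (nat_lit 59843826) (nat_lit 2975420) [(nat_lit 528879), (nat_lit 1645166), (nat_lit 0), (nat_lit 0)]) (PF.cons (PF.leaf (nat_lit 3409737) (nat_lit 552934) (nat_lit 59052185) (nat_lit 3043246) [(nat_lit 552934), (nat_lit 1695773), (nat_lit 0), (nat_lit 0)]) (PF.cons (PF.leaf (nat_lit 3828781) (nat_lit 575351) (nat_lit 58232128) (nat_lit 3106255) [(nat_lit 575351), (nat_lit 1742970), (nat_lit 0), (nat_lit 0)]) (PF.cons (PF.leaf (nat_lit 4263232) (nat_lit 596165) (nat_lit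 57388592) (nat_lit 3164229) [(nat_lit 596165), (nat_lit 1786670), (nat_lit 0), (nat_lit 0)]) (PF.cons (PF.leaf (nat_lit 4710823) (nat_lit 615414) (nat_lit 56526157) (nat_lit 3217067) [(nat_lit 615414), (nat_lit 1826853), (nat_lit 0), (nat_lit 0)]) (PF.cons PF.nil (PF.cons PF.nil PF.nil)))))))))))) (PF.cons (PF.cons (PF.leaf (nat_lit 2110185) (nat_lit 1522223) (nat_lit 61245418) (nat_lit 2818947) [(nat_lit 0), (nat_lit
 1522223), (nat_lit 0), (nat_lit 0)]) (PF.cons (PF.leaf (nat_lit 2434922) (nat_lit 488348) (nat_lit 60577612) (nat_lit 2890128) [(nat_lit 488348), (nat_lit 1576362), (nat_lit 0), (nat_lit 0)]) (PF.cons (PF.leaf (nat_lit 2786763) (nat_lit 514815) (nat_lit 59862842) (nat_lit 2959145) [(nat_lit 514815), (nat_lit 1628597), (nat_lit 0), (nat_lit 0)]) (PF.cons (PF.leaf (nat_lit 3161912) (nat_lit 539545) (nat_lit 59108592) (nat_lit 3024936) [(nat_lit 539545), (nat_lit 1678323), (nat_lit 0), (nat_lit 0)]) (PF.cons (PF.leaf (nat_lit 3557408) (nat_lit 562609) (nat_lit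 58321239) (nat_lit 3086808) [(nat_lit 562609), (nat_lit 1725163), (nat_lit 0), (nat_lit 0)]) (PF.cons (PF.leaf (nat_lit 3970559) (nat_lit 584056) (nat_lit 57506421) (nat_lit 3144319) [(nat_lit 584056), (nat_lit 1768895), (nat_lit 0), (nat_lit 0)]) (PF.cons (PF.leaf (nat_lit 4398895) (nat_lit 603931) (nat_lit 56669219) (nat_lit 3197206) [(nat_lit 603931), (nat_lit 1809398), (nat_lit 0), (nat_lit 0)]) (PF.cons (PF.leaf (nat_lit 4840133) (nat_lit 622281) (nat_lit 55814251) (nat_lit 3245339) [(nat_lit 622281), (nat_lit 1846625), (nat_lit 0), (nat_lit 0)]) (PF.cons (PF.leaf (nat_lit 5292169) (nat_lit 639153) (nat_lit 54945730)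
 (nat_lit 3288688) [(nat_lit 639153), (nat_lit 1880584), (nat_lit 0), (nat_lit 0)]) (PF.cons PF.nil PF.nil)))))))))) (PF.cons (PF.cons (PF.leaf (nat_lit 2947693) (nat_lit 1663343) (nat_lit 59107810) (nat_lit 3010971) [(nat_lit 0), (nat_lit 1663343), (nat_lit 0), (nat_lit 0)]) (PF.cons (PF.leaf (nat_lit 3315318) (nat_lit 549047) (nat_lit 58362022) (nat_lit 3070519) [(nat_lit 549047), (nat_lit 1709074), (nat_lit 0), (nat_lit 0)]) (PF.cons (PF.leaf (nat_lit 3703974) (nat_lit 571246) (nat_lit 57582743) (nat_lit 3126690) [(nat_lit 571246), (nat_lit 1752295), (nat_lit 0), (nat_lit 0)]) (PF.cons (PF.leaf (nat_lit 4110432) (nat_lit 591827) (nat_lit 56776218) (nat_lit 3178962) [(nat_lit 591827), (nat_lit 1792716), (nat_lit 0), (nat_lit 0)]) (PF.cons (PF.leaf (nat_lit 4532075) (nat_lit 610854) (nat_lit 55947852) (nat_lit 3227020) [(nat_lit 610854), (nat_lit 1830174), (nat_lit 0), (nat_lit 0)]) (PF.cons (PF.leaf (nat_lit 4966551) (nat_lit 628382) (nat_lit 55102423) (nat_lit 3270698)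 [(nat_lit 628382), (nat_lit 1864593), (nat_lit 0), (nat_lit 0)]) (PF.cons (PF.leaf (nat_lit 5411711) (nat_lit 644465) (nat_lit 54244202) (nat_lit 3309937) [(nat_lit 644465), (nat_lit 1895959), (nat_lit 0),
 (nat_lit 0)]) (PF.cons PF.nil (PF.cons PF.nil PF.nil))))))))) (PF.cons (PF.cons (PF.leaf (nat_lit 3850726) (nat_lit 1777338) (nat_lit 56836308) (nat_lit 3163151) [(nat_lit 0), (nat_lit 1777338), (nat_lit 0), (nat_lit 0)]) (PF.cons (PF.leaf (nat_lit 4249224) (nat_lit 598672) (nat_lit 56041431) (nat_lit 3210409) [(nat_lit 598672), (nat_lit 1814574), (nat_lit 0), (nat_lit 0)]) (PF.cons (PF.leaf (nat_lit 4663443) (nat_lit 616946) (nat_lit 55224562) (nat_lit 3253871) [(nat_lit 616946), (nat_lit 1849121), (nat_lit 0), (nat_lit 0)]) (PF.cons (PF.leaf (nat_lit 5090629) (nat_lit 633734) (nat_lit 54390818) (nat_lit 3293324) [(nat_lit 633734), (nat_lit 1880866), (nat_lit 0), (nat_lit 0)]) (PF.cons (PF.leaf (nat_lit 5528552) (nat_lit 649100) (nat_lit 53544642) (nat_lit 3328675)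 [(nat_lit 649100), (nat_lit 1909773), (nat_lit 0), (nat_lit 0)]) (PF.cons (PF.leaf (nat_lit 5975199) (nat_lit 663107) (nat_lit 52689942) (nat_lit 3359918) [(nat_lit 663107), (nat_lit 1935853), (nat_lit 0), (nat_lit 0)]) (PF.cons PF.nil PF.nil))))))) (PF.cons (PF.cons (PF.leaf (nat_lit 4794022) (nat_lit 1866357) (nat_lit 54499078) (nat_lit 3277945) [(nat_lit 0), (nat_lit 1866357), (nat_lit 0), (nat_lit 0)]) (PF.cons
 (PF.leaf (nat_lit 5213038) (nat_lit 638346) (nat_lit 53679331) (nat_lit 3313382) [(nat_lit 638346), (nat_lit 1895550), (nat_lit 0), (nat_lit 0)]) (PF.cons (PF.leaf (nat_lit 5643261) (nat_lit 653071) (nat_lit 52847035) (nat_lit 3345052) [(nat_lit 653071), (nat_lit 1922116), (nat_lit 0), (nat_lit 0)]) (PF.cons (PF.leaf (nat_lit 6082376) (nat_lit 666457) (nat_lit 52006284) (nat_lit 3372917) [(nat_lit 666457), (nat_lit 1946047), (nat_lit 0), (nat_lit 0)]) (PF.cons (PF.leaf (nat_lit 6528508) (nat_lit 678570) (nat_lit 51160626) (nat_lit 3397011) [(nat_lit 678570),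 (nat_lit 1967378), (nat_lit 0), (nat_lit 0)]) PF.nil))))) (PF.cons (PF.cons (PF.leaf (nat_lit 5756681) (nat_lit 1933077) (nat_lit 52151143) (nat_lit 3359206) [(nat_lit 0), (nat_lit 1933077), (nat_lit 0), (nat_lit 0)]) (PF.cons (PF.leaf (nat_lit 6187638) (nat_lit 669218) (nat_lit 51325905) (nat_lit 3383880) [(nat_lit 669218), (nat_lit 1954968), (nat_lit 0), (nat_lit 0)]) (PF.cons (PF.leaf (nat_lit 6626058) (nat_lit 680796) (nat_lit 50495584) (nat_lit 3405054) [(nat_lit 680796), (nat_lit 1974430), (nat_lit 0), (nat_lit 0)]) (PF.cons PF.nil PF.nil)))) (PF.cons (PF.cons (PF.leaf (nat_lit 6722126) (nat_lit 1980379) (nat_lit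
 49834807) (nat_lit 3411347) [(nat_lit 0), (nat_lit 1980379), (nat_lit 0), (nat_lit 0)]) (PF.cons (PF.leaf (nat_lit 7158141) (nat_lit 692437) (nat_lit 49018895) (nat_lit 3426575) [(nat_lit 692437), (nat_lit 1995843), (nat_lit 0), (nat_lit 0)]) PF.nil)) (PF.cons PF.nil (PF.cons PF.nil (PF.cons PF.nil PF.nil))))))))))) (PF.cons (PF.cons (PF.cons (PF.leaf (nat_lit 2012008) (nat_lit 2811470) (nat_lit 60681835) (nat_lit 2811470) [(nat_lit 0), (nat_lit 0), (nat_lit 3615506), (nat_lit 0)]) (PF.cons (PF.leaf (nat_lit 2300933) (nat_lit 465003) (nat_lit 60083354) (nat_lit 2876068) [(nat_lit 465003), (nat_lit 0), (nat_lit 3684386), (nat_lit 0)]) (PF.cons (PF.leaf (nat_lit 2621454) (nat_lit 493706) (nat_lit 59427802) (nat_lit 2940425) [(nat_lit 493706), (nat_lit 0), (nat_lit 3753172), (nat_lit 0)]) (PF.cons (PF.leaf (nat_lit 2968555) (nat_lit 520141) (nat_lit 58725449) (nat_lit 3002924) [(nat_lit 520141), (nat_lit 0), (nat_lit 3820015), (nat_lit 0)]) (PF.cons (PF.leaf (nat_lit 3338655)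 (nat_lit 544572) (nat_lit 57984315) (nat_lit 3062520) [(nat_lit 544572), (nat_lit 0), (nat_lit 3883686), (nat_lit 0)]) (PF.cons (PF.leaf (nat_lit 3728691) (nat_lit 567166) (nat_lit 57211087) (nat_lit 3118529)
 [(nat_lit 567166), (nat_lit 0), (nat_lit 3943364), (nat_lit 0)]) (PF.cons (PF.leaf (nat_lit 4135938) (nat_lit 588037) (nat_lit 56411554) (nat_lit 3170516) [(nat_lit 588037), (nat_lit 0), (nat_lit 3998515), (nat_lit 0)]) (PF.cons (PF.leaf (nat_lit 4557943) (nat_lit 607275) (nat_lit 55590846) (nat_lit 3218223) [(nat_lit 607275), (nat_lit 0), (nat_lit 4048811), (nat_lit 0)]) (PF.cons (PF.leaf (nat_lit 4992441) (nat_lit 624957) (nat_lit 54753555) (nat_lit 3261519) [(nat_lit 624957), (nat_lit 0), (nat_lit 4094078), (nat_lit 0)]) (PF.cons (PF.leaf (nat_lit 5437343) (nat_lit 641151) (nat_lit 53903817) (nat_lit 3300370) [(nat_lit 641151), (nat_lit 0), (nat_lit 4134258), (nat_lit 0)]) (PF.cons PF.nil (PF.cons PF.nil PF.nil)))))))))))) (PF.cons (PF.cons (PF.leaf (nat_lit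 2786673) (nat_lit 1639789) (nat_lit 58664578) (nat_lit 2992968) [(nat_lit 0), (nat_lit 1639789), (nat_lit 3811476), (nat_lit 0)]) (PF.cons (PF.leaf (nat_lit 3124714) (nat_lit 529184) (nat_lit 57974620) (nat_lit 3049103) [(nat_lit 529184), (nat_lit 1684771), (nat_lit 3871133), (nat_lit 0)]) (PF.cons (PF.leaf (nat_lit 3487129) (nat_lit 552906) (nat_lit 57244058) (nat_lit 3102958) [(nat_lit 552906), (nat_lit 1727722), (nat_lit
 3928261), (nat_lit 0)]) (PF.cons (PF.leaf (nat_lit 3870002) (nat_lit 574742) (nat_lit 56480731) (nat_lit 3153727) [(nat_lit 574742), (nat_lit 1768199), (nat_lit 3981925), (nat_lit 0)]) (PF.cons (PF.leaf (nat_lit 4270333) (nat_lit 594843) (nat_lit 55691064) (nat_lit 3200901) [(nat_lit 594843), (nat_lit 1805948), (nat_lit 4031522), (nat_lit 0)]) (PF.cons (PF.leaf (nat_lit 4685499) (nat_lit 613319) (nat_lit 54880530) (nat_lit 3244173) [(nat_lit 613319), (nat_lit 1840831), (nat_lit 4076682), (nat_lit 0)]) (PF.cons (PF.leaf (nat_lit 5113161) (nat_lit 630257)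 (nat_lit 54053899) (nat_lit 3283378) [(nat_lit 630257), (nat_lit 1872792), (nat_lit 4117198), (nat_lit 0)]) (PF.cons (PF.leaf (nat_lit 5551203) (nat_lit 645735) (nat_lit 53215387) (nat_lit 3318454) [(nat_lit 645735), (nat_lit 1901831), (nat_lit 4152988), (nat_lit 0)]) (PF.cons (PF.leaf (nat_lit 5997700) (nat_lit 659826) (nat_lit 52368735) (nat_lit 3349417) [(nat_lit 659826), (nat_lit 1927989), (nat_lit 4184061), (nat_lit 0)]) (PF.cons PF.nil PF.nil)))))))))) (PF.cons (PF.cons (PF.leaf (nat_lit 3637517) (nat_lit 1753452) (nat_lit 56492948) (nat_lit 3140088) [(nat_lit 0), (nat_lit 1753452), (nat_lit 3968870), (nat_lit 0)]) (PF.cons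
 (PF.leaf (nat_lit 4011526) (nat_lit 581308) (nat_lit 55743674) (nat_lit 3185796) [(nat_lit 581308), (nat_lit 1790645), (nat_lit 4016741), (nat_lit 0)]) (PF.cons (PF.leaf (nat_lit 4403941) (nat_lit 600760) (nat_lit 54967041) (nat_lit 3228361) [(nat_lit 600760), (nat_lit 1825427), (nat_lit 4061033), (nat_lit 0)]) (PF.cons (PF.leaf (nat_lit 4811561) (nat_lit 618570) (nat_lit 54169169) (nat_lit 3267409) [(nat_lit 618570), (nat_lit 1857605), (nat_lit 4101313), (nat_lit 0)]) (PF.cons (PF.leaf (nat_lit 5231883) (nat_lit 634846) (nat_lit 53355187) (nat_lit 3302732) [(nat_lit 634846), (nat_lit 1887086), (nat_lit 4137332), (nat_lit 0)]) (PF.cons (PF.leaf (nat_lit 5662695) (nat_lit 649679) (nat_lit 52529503) (nat_lit 3334238) [(nat_lit 649679), (nat_lit 1913845), (nat_lit 4168980), (nat_lit 0)]) (PF.cons (PF.leaf (nat_lit 6102012) (nat_lit 663148) (nat_lit 51695952) (nat_lit 3361918) [(nat_lit 663148), (nat_lit 1937905), (nat_lit 4196240), (nat_lit 0)]) (PF.cons PF.nil (PF.cons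 PF.nil PF.nil))))))))) (PF.cons (PF.cons (PF.leaf (nat_lit 4538002) (nat_lit 1843221) (nat_lit 54238799) (nat_lit 3253086) [(nat_lit 0), (nat_lit 1843221), (nat_lit 4087263), (nat_lit 0)]) (PF.cons (PF.leaf (nat_lit
 4936911) (nat_lit 623024) (nat_lit 53456395) (nat_lit 3288098) [(nat_lit 623024), (nat_lit 1872799), (nat_lit 4122896), (nat_lit 0)]) (PF.cons (PF.leaf (nat_lit 5349224) (nat_lit 638729) (nat_lit 52657229) (nat_lit 3319732) [(nat_lit 638729), (nat_lit 1899911), (nat_lit 4154656), (nat_lit 0)]) (PF.cons (PF.leaf (nat_lit 5772349) (nat_lit 652992) (nat_lit 51846075) (nat_lit 3347858) [(nat_lit 652992), (nat_lit 1924502), (nat_lit 4182393), (nat_lit 0)]) (PF.cons (PF.leaf (nat_lit 6204197) (nat_lit 665904) (nat_lit 51026974) (nat_lit 3372437) [(nat_lit 665904), (nat_lit 1946573), (nat_lit 4206062), (nat_lit 0)]) (PF.cons (PF.leaf (nat_lit 6642925) (nat_lit 677544) (nat_lit 50203397) (nat_lit 3393499) [(nat_lit 677544), (nat_lit 1966163), (nat_lit 4225699), (nat_lit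 0)]) (PF.cons PF.nil PF.nil))))))) (PF.cons (PF.cons (PF.leaf (nat_lit 5466194) (nat_lit 1911357) (nat_lit 51959535) (nat_lit 3334516) [(nat_lit 0), (nat_lit 1911357), (nat_lit 4169328), (nat_lit 0)]) (PF.cons (PF.leaf (nat_lit 5880815) (nat_lit 655675) (nat_lit 51164796) (nat_lit 3359437) [(nat_lit 655675), (nat_lit 1933883), (nat_lit 4193371), (nat_lit 0)]) (PF.cons (PF.leaf (nat_lit 6304756) (nat_lit 668099) (nat_lit
 50361598) (nat_lit 3381087) [(nat_lit 668099), (nat_lit 1954066), (nat_lit 4213661), (nat_lit 0)]) (PF.cons (PF.leaf (nat_lit 6735866) (nat_lit 679263) (nat_lit 49553628) (nat_lit 3399472) [(nat_lit 679263), (nat_lit 1971928), (nat_lit 4230206), (nat_lit 0)]) (PF.cons PF.nil PF.nil))))) (PF.cons (PF.cons (PF.leaf (nat_lit 6404499) (nat_lit 1960449) (nat_lit 49699430) (nat_lit 3387975) [(nat_lit 0), (nat_lit 1960449), (nat_lit 4219160), (nat_lit 0)]) (PF.cons (PF.leaf (nat_lit 6827427) (nat_lit 680484) (nat_lit 48908309) (nat_lit 3403836) [(nat_lit 680484),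 (nat_lit 1976675), (nat_lit 4232803), (nat_lit 0)]) (PF.cons (PF.leaf (nat_lit 7256365) (nat_lit 690064) (nat_lit 48115069) (nat_lit 3416711) [(nat_lit 690064), (nat_lit 1990775), (nat_lit 4243025), (nat_lit 0)]) (PF.cons PF.nil PF.nil)))) (PF.cons (PF.cons (PF.leaf (nat_lit 7339288) (nat_lit 1993149) (nat_lit 47491174) (nat_lit 3417396) [(nat_lit 0), (nat_lit 1993149), (nat_lit 4241342), (nat_lit 0)]) (PF.cons PF.nil PF.nil)) (PF.cons PF.nil (PF.cons PF.nil PF.nil))))))))) (PF.cons (PF.cons (PF.cons (PF.leaf (nat_lit 3450793) (nat_lit 3118072) (nat_lit 56093704) (nat_lit 3118072) [(nat_lit 0), (nat_lit 0), (nat_lit 3948517),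
 (nat_lit 0)]) (PF.cons (PF.leaf (nat_lit 3796847) (nat_lit 561068) (nat_lit 55398994) (nat_lit 3161715) [(nat_lit 561068), (nat_lit 0), (nat_lit 3993516), (nat_lit 0)]) (PF.cons (PF.leaf (nat_lit 4164873) (nat_lit 582298) (nat_lit 54669317) (nat_lit 3203038) [(nat_lit 582298), (nat_lit 0), (nat_lit 4035930), (nat_lit 0)]) (PF.cons (PF.leaf (nat_lit 4550903) (nat_lit 601557) (nat_lit 53912554) (nat_lit 3241442) [(nat_lit 601557), (nat_lit 0), (nat_lit 4075071), (nat_lit 0)]) (PF.cons (PF.leaf (nat_lit 4951963) (nat_lit 619058) (nat_lit 53134971) (nat_lit 3276567) [(nat_lit 619058), (nat_lit 0), (nat_lit 4110518), (nat_lit 0)]) (PF.cons (PF.leaf (nat_lit 5365532) (nat_lit 634956) (nat_lit 52341759) (nat_lit 3308213) [(nat_lit 634956), (nat_lit 0), (nat_lit 4142029), (nat_lit 0)]) (PF.cons (PF.leaf (nat_lit 5789394) (nat_lit 649369) (nat_lit 51537320) (nat_lit 3336290) [(nat_lit 649369), (nat_lit 0), (nat_lit 4169491), (nat_lit 0)]) (PF.cons (PF.leaf (nat_lit 6221596) (nat_lit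 662400) (nat_lit 50725451) (nat_lit 3360789) [(nat_lit 662400), (nat_lit 0), (nat_lit 4192885), (nat_lit 0)]) (PF.cons PF.nil (PF.cons PF.nil PF.nil)))))))))) (PF.cons (PF.cons (PF.leaf (nat_lit 4304003)
 (nat_lit 1818967) (nat_lit 53935855) (nat_lit 3228503) [(nat_lit 0), (nat_lit 1818967), (nat_lit 4062743), (nat_lit 0)]) (PF.cons (PF.leaf (nat_lit 4680294) (nat_lit 605730) (nat_lit 53196855) (nat_lit 3262810) [(nat_lit 605730), (nat_lit 1848958), (nat_lit 4097228), (nat_lit 0)]) (PF.cons (PF.leaf (nat_lit 5072747) (nat_lit 622766) (nat_lit 52435547) (nat_lit 3294215) [(nat_lit 622766), (nat_lit 1876664), (nat_lit 4128425), (nat_lit 0)]) (PF.cons (PF.leaf (nat_lit 5478253) (nat_lit 638168) (nat_lit 51657793) (nat_lit 3322464) [(nat_lit 638168), (nat_lit 1901967), (nat_lit 4156041), (nat_lit 0)]) (PF.cons (PF.leaf (nat_lit 5894434) (nat_lit 652078) (nat_lit 50868382) (nat_lit 3347430) [(nat_lit 652078), (nat_lit 1924830), (nat_lit 4179926), (nat_lit 0)]) (PF.cons (PF.leaf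 (nat_lit 6319210) (nat_lit 664612) (nat_lit 50071332) (nat_lit 3369078) [(nat_lit 664612), (nat_lit 1945264), (nat_lit 4200038), (nat_lit 0)]) (PF.cons (PF.leaf (nat_lit 6750776) (nat_lit 675865) (nat_lit 49270062) (nat_lit 3387435) [(nat_lit 675865), (nat_lit 1963317), (nat_lit 4216402), (nat_lit 0)]) (PF.cons PF.nil (PF.cons PF.nil PF.nil))))))))) (PF.cons (PF.cons (PF.leaf (nat_lit 5194304) (nat_lit 1888648)
 (nat_lit 51734463) (nat_lit 3309662) [(nat_lit 0), (nat_lit 1888648), (nat_lit 4143695), (nat_lit 0)]) (PF.cons (PF.leaf (nat_lit 5590670) (nat_lit 640689) (nat_lit 50974534) (nat_lit 3334676) [(nat_lit 640689), (nat_lit 1911838), (nat_lit 4167617), (nat_lit 0)]) (PF.cons (PF.leaf (nat_lit 5998546) (nat_lit 654182) (nat_lit 50201930) (nat_lit 3356694) [(nat_lit 654182), (nat_lit 1932783), (nat_lit 4188128), (nat_lit 0)]) (PF.cons (PF.leaf (nat_lit 6415473) (nat_lit 666288) (nat_lit 49421056) (nat_lit 3375650) [(nat_lit 666288), (nat_lit 1951467), (nat_lit 4205151),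 (nat_lit 0)]) (PF.cons (PF.leaf (nat_lit 6839504) (nat_lit 677118) (nat_lit 48635563) (nat_lit 3391546) [(nat_lit 677118), (nat_lit 1967921), (nat_lit 4218692), (nat_lit 0)]) (PF.cons PF.nil (PF.cons PF.nil PF.nil))))))) (PF.cons (PF.cons (PF.leaf (nat_lit 6102681) (nat_lit 1939621) (nat_lit 49537329) (nat_lit 3364186) [(nat_lit 0), (nat_lit 1939621), (nat_lit 4194215), (nat_lit 0)]) (PF.cons (PF.leaf (nat_lit 6510988) (nat_lit 667424) (nat_lit 48774185) (nat_lit 3380599) [(nat_lit 667424), (nat_lit 1956643), (nat_lit 4208336), (nat_lit 0)]) (PF.cons (PF.leaf (nat_lit 6927100) (nat_lit 677896) (nat_lit 48005632)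
 (nat_lit 3394179) [(nat_lit 677896), (nat_lit 1971583), (nat_lit 4219229), (nat_lit 0)]) (PF.cons (PF.leaf (nat_lit 7349025) (nat_lit 687187) (nat_lit 47234976) (nat_lit 3404958) [(nat_lit 687187), (nat_lit 1984481), (nat_lit 4226936), (nat_lit 0)]) (PF.cons PF.nil PF.nil))))) (PF.cons (PF.cons (PF.leaf (nat_lit 7014322) (nat_lit 1974353) (nat_lit 47379774) (nat_lit 3395412) [(nat_lit 0), (nat_lit 1974353), (nat_lit 4218105), (nat_lit 0)]) (PF.cons (PF.leaf (nat_lit 7428164) (nat_lit 687185) (nat_lit 46626505) (nat_lit 3404211) [(nat_lit 687185), (nat_lit 1985948), (nat_lit 4223559), (nat_lit 0)]) (PF.cons (PF.leaf (nat_lit 7846874) (nat_lit 695087) (nat_lit 45873208) (nat_lit 3410463) [(nat_lit 695087), (nat_lit 1995682), (nat_lit 4226118), (nat_lit 0)]) (PF.cons PF.nil PF.nil)))) (PF.cons (PF.cons (PF.leaf (nat_lit 7918000) (nat_lit 1995261) (nat_lit 45286846) (nat_lit 3406830) [(nat_lit 0), (nat_lit 1995261), (nat_lit 4219413), (nat_lit 0)]) (PF.cons PF.nil PF.nil))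 (PF.cons PF.nil (PF.cons PF.nil PF.nil)))))))) (PF.cons (PF.cons (PF.cons (PF.leaf (nat_lit 4943785) (nat_lit 3284673) (nat_lit 51469300) (nat_lit 3284673) [(nat_lit 0), (nat_lit 0), (nat_lit 4118279), (nat_lit 0)])
 (PF.cons (PF.leaf (nat_lit 5319308) (nat_lit 623717) (nat_lit 50750046) (nat_lit 3309587) [(nat_lit 623717), (nat_lit 0), (nat_lit 4141820), (nat_lit 0)]) (PF.cons (PF.leaf (nat_lit 5709104) (nat_lit 638637) (nat_lit 50012586) (nat_lit 3331847) [(nat_lit 638637), (nat_lit 0), (nat_lit 4162367), (nat_lit 0)]) (PF.cons (PF.leaf (nat_lit 6110189) (nat_lit 651953) (nat_lit 49262454) (nat_lit 3351289) [(nat_lit 651953), (nat_lit 0), (nat_lit 4179736), (nat_lit 0)]) (PF.cons (PF.leaf (nat_lit 6520271) (nat_lit 663833) (nat_lit 48504073) (nat_lit 3367849) [(nat_lit 663833), (nat_lit 0), (nat_lit 4193852), (nat_lit 0)]) (PF.cons (PF.leaf (nat_lit 6937436) (nat_lit 674408) (nat_lit 47741082) (nat_lit 3381531) [(nat_lit 674408), (nat_lit 0), (nat_lit 4204718), (nat_lit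 0)]) (PF.cons (PF.leaf (nat_lit 7360015) (nat_lit 683788) (nat_lit 46976518) (nat_lit 3392387) [(nat_lit 683788), (nat_lit 0), (nat_lit 4212392), (nat_lit 0)]) (PF.cons PF.nil (PF.cons PF.nil PF.nil))))))))) (PF.cons (PF.cons (PF.leaf (nat_lit 5818667) (nat_lit 1917706) (nat_lit 49344023) (nat_lit 3339967) [(nat_lit 0), (nat_lit 1917706), (nat_lit 4169038), (nat_lit 0)]) (PF.cons (PF.leaf (nat_lit 6210409) (nat_lit 652916)
 (nat_lit 48612989) (nat_lit 3356835) [(nat_lit 652916), (nat_lit 1935580), (nat_lit 4183497), (nat_lit 0)]) (PF.cons (PF.leaf (nat_lit 6612107) (nat_lit 664508) (nat_lit 47872435) (nat_lit 3371056) [(nat_lit 664508), (nat_lit 1951418), (nat_lit 4194961), (nat_lit 0)]) (PF.cons (PF.leaf (nat_lit 7021421) (nat_lit 674777) (nat_lit 47126402) (nat_lit 3382609) [(nat_lit 674777), (nat_lit 1965236), (nat_lit 4203410), (nat_lit 0)]) (PF.cons (PF.leaf (nat_lit 7436557) (nat_lit 683845) (nat_lit 46378173) (nat_lit 3391526) [(nat_lit 683845), (nat_lit 1977082),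 (nat_lit 4208882), (nat_lit 0)]) (PF.cons PF.nil (PF.cons PF.nil PF.nil))))))) (PF.cons (PF.cons (PF.leaf (nat_lit 6704337) (nat_lit 1954600) (nat_lit 47243615) (nat_lit 3372844) [(nat_lit 0), (nat_lit 1954600), (nat_lit 4194383), (nat_lit 0)]) (PF.cons (PF.leaf (nat_lit 7105075) (nat_lit 674677) (nat_lit 46515835) (nat_lit 3382396) [(nat_lit 674677), (nat_lit 1967090), (nat_lit 4200574), (nat_lit 0)]) (PF.cons (PF.leaf (nat_lit 7512402) (nat_lit 683496) (nat_lit 45784885) (nat_lit 3389496) [(nat_lit 683496), (nat_lit 1977731), (nat_lit 4203992), (nat_lit 0)]) (PF.cons (PF.leaf (nat_lit 7924460) (nat_lit 691210) (nat_lit 45053727)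
 (nat_lit 3394196) [(nat_lit 691210), (nat_lit 1986577), (nat_lit 4204700), (nat_lit 0)]) (PF.cons PF.nil PF.nil))))) (PF.cons (PF.cons (PF.leaf (nat_lit 7588272) (nat_lit 1977663) (nat_lit 45196101) (nat_lit 3386354) [(nat_lit 0), (nat_lit 1977663), (nat_lit 4197788), (nat_lit 0)]) (PF.cons (PF.leaf (nat_lit 7992437) (nat_lit 690241) (nat_lit 44482313) (nat_lit 3389514) [(nat_lit 690241), (nat_lit 1985479), (nat_lit 4196768), (nat_lit 0)]) (PF.cons PF.nil (PF.cons PF.nil PF.nil)))) (PF.cons (PF.cons (PF.leaf (nat_lit 8461166) (nat_lit 1989074) (nat_lit 43220548) (nat_lit 3383571) [(nat_lit 0), (nat_lit 1989074), (nat_lit 4182797), (nat_lit 0)]) (PF.cons PF.nil PF.nil)) (PF.cons PF.nil PF.nil)))))) (PF.cons (PF.cons (PF.cons (PF.leaf (nat_lit 6411316) (nat_lit 3349650) (nat_lit 47078499) (nat_lit 3349650) [(nat_lit 0), (nat_lit 0), (nat_lit 4170165), (nat_lit 0)]) (PF.cons (PF.leaf (nat_lit 6796993) (nat_lit 660732) (nat_lit 46380135) (nat_lit 3359903) [(nat_lit 660732),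 (nat_lit 0), (nat_lit 4177010), (nat_lit 0)]) (PF.cons (PF.leaf (nat_lit 7191357) (nat_lit 670696) (nat_lit 45674664) (nat_lit 3367823) [(nat_lit 670696), (nat_lit 0), (nat_lit 4181232), (nat_lit 0)]) (PF.cons
 (PF.leaf (nat_lit 7592182) (nat_lit 679402) (nat_lit 44965777) (nat_lit 3373423) [(nat_lit 679402), (nat_lit 0), (nat_lit 4182851), (nat_lit 0)]) (PF.cons (PF.leaf (nat_lit 7997802) (nat_lit 686982) (nat_lit 44256426) (nat_lit 3376752) [(nat_lit 686982), (nat_lit 0), (nat_lit 4181926), (nat_lit 0)]) (PF.cons PF.nil (PF.cons PF.nil PF.nil))))))) (PF.cons (PF.cons (PF.leaf (nat_lit 7272684) (nat_lit 1959075) (nat_lit 45082498) (nat_lit 3365175) [(nat_lit 0), (nat_lit 1959075), (nat_lit 4175515), (nat_lit 0)]) (PF.cons (PF.leaf (nat_lit 7665074) (nat_lit 678322) (nat_lit 44391837) (nat_lit 3369215) [(nat_lit 678322), (nat_lit 1967842), (nat_lit 4175398), (nat_lit 0)]) (PF.cons (PF.leaf (nat_lit 8063075) (nat_lit 685741) (nat_lit 43699624) (nat_lit 3371134) [(nat_lit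 685741), (nat_lit 1974967), (nat_lit 4172900), (nat_lit 0)]) (PF.cons PF.nil (PF.cons PF.nil PF.nil))))) (PF.cons (PF.cons (PF.leaf (nat_lit 8128730) (nat_lit 1972682) (nat_lit 43147463) (nat_lit 3364633) [(nat_lit 0), (nat_lit 1972682), (nat_lit 4162837), (nat_lit 0)]) (PF.cons (PF.leaf (nat_lit 8522957) (nat_lit 690401) (nat_lit 42473337) (nat_lit 3363311) [(nat_lit 690401), (nat_lit 1977423), (nat_lit 4156728),
 (nat_lit 0)]) (PF.cons PF.nil (PF.cons PF.nil PF.nil)))) (PF.cons (PF.cons (PF.leaf (nat_lit 8971687) (nat_lit 1976470) (nat_lit 41287839) (nat_lit 3350710) [(nat_lit 0), (nat_lit 1976470), (nat_lit 4135212), (nat_lit 0)]) (PF.cons PF.nil PF.nil)) (PF.cons PF.nil PF.nil))))) (PF.cons (PF.cons (PF.cons (PF.leaf (nat_lit 7809634) (nat_lit 3344912) (nat_lit 43053322) (nat_lit 3344912) [(nat_lit 0), (nat_lit 0), (nat_lit 4142115), (nat_lit 0)]) (PF.cons (PF.leaf (nat_lit 8193235) (nat_lit 679081) (nat_lit 42400132) (nat_lit 3344544) [(nat_lit 679081), (nat_lit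 0), (nat_lit 4137011), (nat_lit 0)]) (PF.cons (PF.leaf (nat_lit 8581673) (nat_lit 685317) (nat_lit 41746537) (nat_lit 3342338) [(nat_lit 685317), (nat_lit 0), (nat_lit 4129860), (nat_lit 0)]) (PF.cons PF.nil PF.nil)))) (PF.cons (PF.cons (PF.leaf (nat_lit 8638180) (nat_lit 1961256) (nat_lit 41229771) (nat_lit 3333284) [(nat_lit 0), (nat_lit 1961256), (nat_lit 4116900), (nat_lit 0)]) (PF.cons (PF.leaf (nat_lit 9022433) (nat_lit 688271) (nat_lit 40594520) (nat_lit 3328417) [(nat_lit 688271), (nat_lit 1963501), (nat_lit 4106820), (nat_lit 0)]) PF.nil)) (PF.cons PF.nil PF.nil))) (PF.cons (PF.cons (PF.cons (PF.leaf (nat_lit 9119080)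
 (nat_lit 3294708) (nat_lit 39437023) (nat_lit 3294708) [(nat_lit 0), (nat_lit 0), (nat_lit 4062846), (nat_lit 0)]) (PF.cons PF.nil PF.nil)) (PF.cons PF.nil PF.nil)) (PF.cons PF.nil (PF.cons PF.nil PF.nil))))))))) (PF.cons (PF.cons (PF.cons (PF.cons (PF.leaf (nat_lit 3039845) (nat_lit 2988445) (nat_lit 54866626) (nat_lit 2988445) [(nat_lit 0), (nat_lit 0), (nat_lit 0), (nat_lit 9253740)]) (PF.cons (PF.leaf (nat_lit 3333304) (nat_lit 502661) (nat_lit 54294646) (nat_lit 3033935) [(nat_lit 502661), (nat_lit 0), (nat_lit 0), (nat_lit 9277569)]) (PF.cons (PF.leaf (nat_lit 3655192) (nat_lit 528673) (nat_lit 53674616) (nat_lit 3078290) [(nat_lit 528673), (nat_lit 0), (nat_lit 0), (nat_lit 9298559)]) (PF.cons (PF.leaf (nat_lit 4000204) (nat_lit 551935) (nat_lit 53016977) (nat_lit 3120439) [(nat_lit 551935), (nat_lit 0), (nat_lit 0), (nat_lit 9315589)]) (PF.cons (PF.leaf (nat_lit 4364579) (nat_lit 572886) (nat_lit 52329623) (nat_lit 3159742) [(nat_lit 572886), (nat_lit 0), (nat_lit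 0), (nat_lit 9327902)]) (PF.cons (PF.leaf (nat_lit 4745285) (nat_lit 591819) (nat_lit 51618880) (nat_lit 3195822) [(nat_lit 591819), (nat_lit 0), (nat_lit 0), (nat_lit 9335011)]) (PF.cons (PF.leaf (nat_lit
 5139701) (nat_lit 608951) (nat_lit 50890006) (nat_lit 3228474) [(nat_lit 608951), (nat_lit 0), (nat_lit 0), (nat_lit 9336624)]) (PF.cons (PF.leaf (nat_lit 5545564) (nat_lit 624445) (nat_lit 50147475) (nat_lit 3257609) [(nat_lit 624445), (nat_lit 0), (nat_lit 0), (nat_lit 9332608)]) (PF.cons (PF.leaf (nat_lit 5960866) (nat_lit 638436) (nat_lit 49395146) (nat_lit 3283220) [(nat_lit 638436), (nat_lit 0), (nat_lit 0), (nat_lit 9322950)]) (PF.cons (PF.leaf (nat_lit 6383852) (nat_lit 651038) (nat_lit 48636378) (nat_lit 3305354) [(nat_lit 651038), (nat_lit 0), (nat_lit 0), (nat_lit 9307732)]) (PF.cons (PF.leaf (nat_lit 6812864) (nat_lit 662349) (nat_lit 47874106) (nat_lit 3324101) [(nat_lit 662349), (nat_lit 0), (nat_lit 0), (nat_lit 9287106)]) (PF.cons PF.nil (PF.cons PF.nil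 (PF.cons PF.nil PF.nil)))))))))))))) (PF.cons (PF.cons (PF.leaf (nat_lit 3801450) (nat_lit 1722424) (nat_lit 52969455) (nat_lit 3109087) [(nat_lit 0), (nat_lit 1722424), (nat_lit 0), (nat_lit 9307845)]) (PF.cons (PF.leaf (nat_lit 4135781) (nat_lit 556944) (nat_lit 52329362) (nat_lit 3146542) [(nat_lit 556944), (nat_lit 1756673), (nat_lit 0), (nat_lit 9319289)]) (PF.cons (PF.leaf (nat_lit 4491174) (nat_lit 577428)
 (nat_lit 51657276) (nat_lit 3181674) [(nat_lit 577428), (nat_lit 1788679), (nat_lit 0), (nat_lit 9326324)]) (PF.cons (PF.leaf (nat_lit 4863712) (nat_lit 595846) (nat_lit 50960593) (nat_lit 3214001) [(nat_lit 595846), (nat_lit 1818220), (nat_lit 0), (nat_lit 9328456)]) (PF.cons (PF.leaf (nat_lit 5250503) (nat_lit 612446) (nat_lit 50245163) (nat_lit 3243250) [(nat_lit 612446), (nat_lit 1845210), (nat_lit 0), (nat_lit 9325401)]) (PF.cons (PF.leaf (nat_lit 5649103) (nat_lit 627412) (nat_lit 49515793) (nat_lit 3269287) [(nat_lit 627412), (nat_lit 1869638), (nat_lit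 0), (nat_lit 9317030)]) (PF.cons (PF.leaf (nat_lit 6057392) (nat_lit 640889) (nat_lit 48776530) (nat_lit 3292070) [(nat_lit 640889), (nat_lit 1891541), (nat_lit 0), (nat_lit 9303331)]) (PF.cons (PF.leaf (nat_lit 6473523) (nat_lit 652998) (nat_lit 48030830) (nat_lit 3311622) [(nat_lit 652998), (nat_lit 1910987), (nat_lit 0), (nat_lit 9284385)]) (PF.cons (PF.leaf (nat_lit 6895842) (nat_lit 663840) (nat_lit 47281674) (nat_lit 3328010) [(nat_lit 663840), (nat_lit 1928064), (nat_lit 0), (nat_lit 9260340)]) (PF.cons (PF.leaf (nat_lit 7322904) (nat_lit 673507) (nat_lit 46531643) (nat_lit 3341335) [(nat_lit 673507), (nat_lit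
 1942871), (nat_lit 0), (nat_lit 9231398)]) (PF.cons PF.nil (PF.cons PF.nil PF.nil)))))))))))) (PF.cons (PF.cons (PF.leaf (nat_lit 4619979) (nat_lit 1803887) (nat_lit 50979476) (nat_lit 3201280) [(nat_lit 0), (nat_lit 1803887), (nat_lit 0), (nat_lit 9320281)]) (PF.cons (PF.leaf (nat_lit 4982871) (nat_lit 599044) (nat_lit 50300017) (nat_lit 3230015) [(nat_lit 599044), (nat_lit 1830958), (nat_lit 0), (nat_lit 9317818)]) (PF.cons (PF.leaf (nat_lit 5361185) (nat_lit 615232) (nat_lit 49600349) (nat_lit 3256030) [(nat_lit 615232), (nat_lit 1855753), (nat_lit 0), (nat_lit 9310460)]) (PF.cons (PF.leaf (nat_lit 5751909) (nat_lit 629763) (nat_lit 48885888) (nat_lit 3279134) [(nat_lit 629763), (nat_lit 1878209), (nat_lit 0), (nat_lit 9298080)]) (PF.cons (PF.leaf (nat_lit 6152761) (nat_lit 642801) (nat_lit 48161033) (nat_lit 3299249) [(nat_lit 642801), (nat_lit 1898328), (nat_lit 0), (nat_lit 9280668)]) (PF.cons (PF.leaf (nat_lit 6561748) (nat_lit 654478) (nat_lit 47429442) (nat_lit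 3316368) [(nat_lit 654478), (nat_lit 1916153), (nat_lit 0), (nat_lit 9258303)]) (PF.cons (PF.leaf (nat_lit 6977181) (nat_lit 664904) (nat_lit 46694212) (nat_lit 3330538) [(nat_lit 664904), (nat_lit 1931753),
 (nat_lit 0), (nat_lit 9231129)]) (PF.cons (PF.leaf (nat_lit 7397538) (nat_lit 674174) (nat_lit 45957982) (nat_lit 3341841) [(nat_lit 674174), (nat_lit 1945215), (nat_lit 0), (nat_lit 9199339)]) (PF.cons PF.nil (PF.cons PF.nil PF.nil)))))))))) (PF.cons (PF.cons (PF.leaf (nat_lit 5472908) (nat_lit 1865101) (nat_lit 48954660) (nat_lit 3266935) [(nat_lit 0), (nat_lit 1865101), (nat_lit 0), (nat_lit 9291912)]) (PF.cons (PF.leaf (nat_lit 5854737) (nat_lit 631483) (nat_lit 48257166) (nat_lit 3287257) [(nat_lit 631483), (nat_lit 1885674), (nat_lit 0), (nat_lit 9275881)]) (PF.cons (PF.leaf (nat_lit 6247573) (nat_lit 644166) (nat_lit 47548243) (nat_lit 3304849) [(nat_lit 644166), (nat_lit 1904099), (nat_lit 0), (nat_lit 9255089)]) (PF.cons (PF.leaf (nat_lit 6649036) (nat_lit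 655479) (nat_lit 46831912) (nat_lit 3319677) [(nat_lit 655479), (nat_lit 1920390), (nat_lit 0), (nat_lit 9229613)]) (PF.cons (PF.leaf (nat_lit 7057296) (nat_lit 665545) (nat_lit 46111483) (nat_lit 3331762) [(nat_lit 665545), (nat_lit 1934597), (nat_lit 0), (nat_lit 9199593)]) (PF.cons (PF.leaf (nat_lit 7470765) (nat_lit 674465) (nat_lit 45389724) (nat_lit 3341168) [(nat_lit 674465), (nat_lit 1946790), (nat_lit 0),
 (nat_lit 9165219)]) (PF.cons (PF.leaf (nat_lit 7888064) (nat_lit 682330) (nat_lit 44668973) (nat_lit 3347986) [(nat_lit 682330), (nat_lit 1957053), (nat_lit 0), (nat_lit 9126709)]) (PF.cons PF.nil (PF.cons PF.nil PF.nil))))))))) (PF.cons (PF.cons (PF.leaf (nat_lit 6342744) (nat_lit 1908913) (nat_lit 46937508) (nat_lit 3308959) [(nat_lit 0), (nat_lit 1908913), (nat_lit 0), (nat_lit 9226690)]) (PF.cons (PF.leaf (nat_lit 6735944) (nat_lit 655994) (nat_lit 46237774) (nat_lit 3321627) [(nat_lit 655994), (nat_lit 1923750), (nat_lit 0), (nat_lit 9198415)]) (PF.cons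 (PF.leaf (nat_lit 7136661) (nat_lit 665761) (nat_lit 45533137) (nat_lit 3331753) [(nat_lit 665761), (nat_lit 1936640), (nat_lit 0), (nat_lit 9165836)]) (PF.cons (PF.leaf (nat_lit 7542992) (nat_lit 674384) (nat_lit 44826587) (nat_lit 3339380) [(nat_lit 674384), (nat_lit 1947638), (nat_lit 0), (nat_lit 9129137)]) (PF.cons (PF.leaf (nat_lit 7953473) (nat_lit 681957) (nat_lit 44120599) (nat_lit 3344584) [(nat_lit 681957), (nat_lit 1956816), (nat_lit 0), (nat_lit 9088534)]) (PF.cons PF.nil (PF.cons PF.nil PF.nil))))))) (PF.cons (PF.cons (PF.leaf (nat_lit 7216014) (nat_lit 1937925) (nat_lit 44958669) (nat_lit 3330575) [(nat_lit 0),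
 (nat_lit 1937925), (nat_lit 0), (nat_lit 9129938)]) (PF.cons (PF.leaf (nat_lit 7614666) (nat_lit 673925) (nat_lit 44268184) (nat_lit 3336536) [(nat_lit 673925), (nat_lit 1947797), (nat_lit 0), (nat_lit 9091178)]) (PF.cons (PF.leaf (nat_lit 8018091) (nat_lit 681254) (nat_lit 43577584) (nat_lit 3340230) [(nat_lit 681254), (nat_lit 1955954), (nat_lit 0), (nat_lit 9048717)]) (PF.cons (PF.leaf (nat_lit 8424748) (nat_lit 687622) (nat_lit 42889077) (nat_lit 3341739) [(nat_lit 687622), (nat_lit 1962468), (nat_lit 0), (nat_lit 9002786)]) (PF.cons PF.nil PF.nil))))) (PF.cons (PF.cons (PF.leaf (nat_lit 8082530) (nat_lit 1954500) (nat_lit 43039515) (nat_lit 3334973) [(nat_lit 0), (nat_lit 1954500), (nat_lit 0), (nat_lit 9007323)]) (PF.cons (PF.leaf (nat_lit 8482077) (nat_lit 686387) (nat_lit 42366392) (nat_lit 3335209) [(nat_lit 686387), (nat_lit 1960145), (nat_lit 0), (nat_lit 8959949)]) (PF.cons PF.nil (PF.cons PF.nil PF.nil)))) (PF.cons (PF.cons (PF.leaf (nat_lit 8934802) (nat_lit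 1960744) (nat_lit 41194192) (nat_lit 3325119) [(nat_lit 0), (nat_lit 1960744), (nat_lit 0), (nat_lit 8864285)]) (PF.cons PF.nil PF.nil)) (PF.cons PF.nil PF.nil))))))))) (PF.cons (PF.cons (PF.cons (PF.leaf
 (nat_lit 4409960) (nat_lit 3174627) (nat_lit 50647408) (nat_lit 3174627) [(nat_lit 0), (nat_lit 0), (nat_lit 3999736), (nat_lit 9287040)]) (PF.cons (PF.leaf (nat_lit 4747550) (nat_lit 578031) (nat_lit 50017377) (nat_lit 3202968) [(nat_lit 578031), (nat_lit 0), (nat_lit 4026346), (nat_lit 9284089)]) (PF.cons (PF.leaf (nat_lit 5104262) (nat_lit 596367) (nat_lit 49359684) (nat_lit 3229074) [(nat_lit 596367), (nat_lit 0), (nat_lit 4050542), (nat_lit 9276776)]) (PF.cons (PF.leaf (nat_lit 5476234) (nat_lit 612640) (nat_lit 48681495) (nat_lit 3252598) [(nat_lit 612640), (nat_lit 0), (nat_lit 4071933), (nat_lit 9264865)]) (PF.cons (PF.leaf (nat_lit 5860643) (nat_lit 627133) (nat_lit 47988353) (nat_lit 3273361) [(nat_lit 627133), (nat_lit 0), (nat_lit 4090304), (nat_lit 9248258)])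 (PF.cons (PF.leaf (nat_lit 6255152) (nat_lit 640056) (nat_lit 47284721) (nat_lit 3291289) [(nat_lit 640056), (nat_lit 0), (nat_lit 4105558), (nat_lit 9226963)]) (PF.cons (PF.leaf (nat_lit 6657787) (nat_lit 651568) (nat_lit 46574282) (nat_lit 3306377) [(nat_lit 651568), (nat_lit 0), (nat_lit 4117680), (nat_lit 9201062)]) (PF.cons (PF.leaf (nat_lit 7066830) (nat_lit 661800) (nat_lit 45860125) (nat_lit 3318673)
 [(nat_lit 661800), (nat_lit 0), (nat_lit 4126711), (nat_lit 9170700)]) (PF.cons (PF.leaf (nat_lit 7480787) (nat_lit 670860) (nat_lit 45144872) (nat_lit 3328257) [(nat_lit 670860), (nat_lit 0), (nat_lit 4132732), (nat_lit 9136064)]) (PF.cons PF.nil (PF.cons PF.nil (PF.cons PF.nil PF.nil)))))))))))) (PF.cons (PF.cons (PF.leaf (nat_lit 5222666) (nat_lit 1840093) (nat_lit 48708983) (nat_lit 3240838) [(nat_lit 0), (nat_lit 1840093), (nat_lit 4060996), (nat_lit 9257900)]) (PF.cons (PF.leaf (nat_lit 5584594) (nat_lit 614124) (nat_lit 48049678) (nat_lit 3261490) [(nat_lit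 614124), (nat_lit 1861725), (nat_lit 4079232), (nat_lit 9242560)]) (PF.cons (PF.leaf (nat_lit 5960258) (nat_lit 628358) (nat_lit 47373681) (nat_lit 3279671) [(nat_lit 628358), (nat_lit 1881252), (nat_lit 4094743), (nat_lit 9222747)]) (PF.cons (PF.leaf (nat_lit 6346748) (nat_lit 640982) (nat_lit 46686080) (nat_lit 3295262) [(nat_lit 640982), (nat_lit 1898653), (nat_lit 4107395), (nat_lit 9198475)]) (PF.cons (PF.leaf (nat_lit 6741879) (nat_lit 652179) (nat_lit 45990927) (nat_lit 3308229) [(nat_lit 652179), (nat_lit 1913959), (nat_lit 4117145), (nat_lit 9169832)]) (PF.cons (PF.leaf (nat_lit 7143811) (nat_lit 662093)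
 (nat_lit 45291535) (nat_lit 3318597) [(nat_lit 662093), (nat_lit 1927230), (nat_lit 4124015), (nat_lit 9136963)]) (PF.cons (PF.leaf (nat_lit 7550974) (nat_lit 670843) (nat_lit 44590659) (nat_lit 3326428) [(nat_lit 670843), (nat_lit 1938544), (nat_lit 4128069), (nat_lit 9100050)]) (PF.cons (PF.leaf (nat_lit 7961995) (nat_lit 678527) (nat_lit 43890614) (nat_lit 3331810) [(nat_lit 678527), (nat_lit 1947989), (nat_lit 4129403), (nat_lit 9059305)]) (PF.cons PF.nil (PF.cons PF.nil PF.nil)))))))))) (PF.cons (PF.cons (PF.leaf (nat_lit 6061239) (nat_lit 1886621) (nat_lit 46759388) (nat_lit 3284470) [(nat_lit 0), (nat_lit 1886621), (nat_lit 4097393), (nat_lit 9194317)]) (PF.cons (PF.leaf (nat_lit 6438710) (nat_lit 641355) (nat_lit 46089585) (nat_lit 3297852) [(nat_lit 641355), (nat_lit 1902510), (nat_lit 4107601), (nat_lit 9167397)]) (PF.cons (PF.leaf (nat_lit 6825795) (nat_lit 652316) (nat_lit 45410998) (nat_lit 3308822) [(nat_lit 652316), (nat_lit 1916457), (nat_lit 4115132),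 (nat_lit 9136309)]) (PF.cons (PF.leaf (nat_lit 7220245) (nat_lit 661976) (nat_lit 44727313) (nat_lit 3317381) [(nat_lit 661976), (nat_lit 1928501), (nat_lit 4119984), (nat_lit 9101200)]) (PF.cons (PF.leaf (nat_lit
 7620350) (nat_lit 670466) (nat_lit 44041513) (nat_lit 3323570) [(nat_lit 670466), (nat_lit 1938702), (nat_lit 4122205), (nat_lit 9062254)]) (PF.cons (PF.leaf (nat_lit 8024654) (nat_lit 677893) (nat_lit 43356055) (nat_lit 3327462) [(nat_lit 677893), (nat_lit 1947137), (nat_lit 4121874), (nat_lit 9019679)]) (PF.cons PF.nil (PF.cons PF.nil (PF.cons PF.nil PF.nil))))))))) (PF.cons (PF.cons (PF.leaf (nat_lit 6910416) (nat_lit 1918181) (nat_lit 44833788) (nat_lit 3308220) [(nat_lit 0), (nat_lit 1918181), (nat_lit 4111709), (nat_lit 9100550)]) (PF.cons (PF.leaf (nat_lit 7296667) (nat_lit 661436) (nat_lit 44166940) (nat_lit 3315081) [(nat_lit 661436), (nat_lit 1929064), (nat_lit 4114682), (nat_lit 9063478)]) (PF.cons (PF.leaf (nat_lit 7689355) (nat_lit 669723) (nat_lit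 43497033) (nat_lit 3319733) [(nat_lit 669723), (nat_lit 1938218), (nat_lit 4115197), (nat_lit 9022746)]) (PF.cons (PF.leaf (nat_lit 8086696) (nat_lit 676940) (nat_lit 42826755) (nat_lit 3322235) [(nat_lit 676940), (nat_lit 1945704), (nat_lit 4113322), (nat_lit 8978564)]) (PF.cons (PF.leaf (nat_lit 8487343) (nat_lit 683187) (nat_lit 42158298) (nat_lit 3322666) [(nat_lit 683187), (nat_lit 1951598), (nat_lit 4109147), (nat_lit
 8931154)]) (PF.cons PF.nil (PF.cons PF.nil PF.nil))))))) (PF.cons (PF.cons (PF.leaf (nat_lit 7758697) (nat_lit 1937123) (nat_lit 42956679) (nat_lit 3314965) [(nat_lit 0), (nat_lit 1937123), (nat_lit 4107098), (nat_lit 8981576)]) (PF.cons (PF.leaf (nat_lit 8148545) (nat_lit 675662) (nat_lit 42302294) (nat_lit 3316171) [(nat_lit 675662), (nat_lit 1943719), (nat_lit 4103795), (nat_lit 8936012)]) (PF.cons (PF.leaf (nat_lit 8542359) (nat_lit 681742) (nat_lit 41648957) (nat_lit 3315433) [(nat_lit 681742), (nat_lit 1948808), (nat_lit 4098330), (nat_lit 8887372)])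 (PF.cons PF.nil (PF.cons PF.nil PF.nil))))) (PF.cons (PF.cons (PF.leaf (nat_lit 8597533) (nat_lit 1945543) (nat_lit 41144529) (nat_lit 3307486) [(nat_lit 0), (nat_lit 1945543), (nat_lit 4086683), (nat_lit 8842394)]) (PF.cons (PF.leaf (nat_lit 8987033) (nat_lit 685072) (nat_lit 40509132) (nat_lit 3303910) [(nat_lit 685072), (nat_lit 1948520), (nat_lit 4078088), (nat_lit 8790006)]) (PF.cons PF.nil (PF.cons PF.nil PF.nil)))) (PF.cons (PF.cons (PF.leaf (nat_lit 9420736) (nat_lit 1945287) (nat_lit 39407742) (nat_lit 3288332) [(nat_lit 0), (nat_lit 1945287), (nat_lit 4053362), (nat_lit 8687648)]) (PF.cons PF.nil PF.nil)) (PF.cons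
 PF.nil PF.nil)))))))) (PF.cons (PF.cons (PF.cons (PF.leaf (nat_lit 5799962) (nat_lit 3259265) (nat_lit 46546038) (nat_lit 3259265) [(nat_lit 0), (nat_lit 0), (nat_lit 4071530), (nat_lit 9160446)]) (PF.cons (PF.leaf (nat_lit 6159075) (nat_lit 624649) (nat_lit 45911448) (nat_lit 3273285) [(nat_lit 624649), (nat_lit 0), (nat_lit 4082246), (nat_lit 9134935)]) (PF.cons (PF.leaf (nat_lit 6530489) (nat_lit 637183) (nat_lit 45263004) (nat_lit 3285066) [(nat_lit 637183), (nat_lit 0), (nat_lit 4090498), (nat_lit 9105378)]) (PF.cons (PF.leaf (nat_lit 6911405) (nat_lit 648161) (nat_lit 44605453) (nat_lit 3294543) [(nat_lit 648161), (nat_lit 0), (nat_lit 4096218), (nat_lit 9071893)]) (PF.cons (PF.leaf (nat_lit 7299752) (nat_lit 657782) (nat_lit 43942513) (nat_lit 3301720) [(nat_lit 657782), (nat_lit 0), (nat_lit 4099406), (nat_lit 9034635)]) (PF.cons (PF.leaf (nat_lit 7693811) (nat_lit 666196) (nat_lit 43277180) (nat_lit 3306641) [(nat_lit 666196), (nat_lit 0), (nat_lit 4100109),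 (nat_lit 8993788)]) (PF.cons (PF.leaf (nat_lit 8092125) (nat_lit 673526) (nat_lit 42611908) (nat_lit 3309377) [(nat_lit 673526), (nat_lit 0), (nat_lit 4098405), (nat_lit 8949557)]) (PF.cons PF.nil (PF.cons PF.nil
 PF.nil))))))))) (PF.cons (PF.cons (PF.leaf (nat_lit 6621390) (nat_lit 1897144) (nat_lit 44681735) (nat_lit 3285066) [(nat_lit 0), (nat_lit 1897144), (nat_lit 4087638), (nat_lit 9069589)]) (PF.cons (PF.leaf (nat_lit 6993306) (nat_lit 647456) (nat_lit 44042215) (nat_lit 3292805) [(nat_lit 647456), (nat_lit 1909140), (nat_lit 4091459), (nat_lit 9034276)]) (PF.cons (PF.leaf (nat_lit 7373683) (nat_lit 656939) (nat_lit 43395950) (nat_lit 3298413) [(nat_lit 656939), (nat_lit 1919384), (nat_lit 4092925), (nat_lit 8995332)]) (PF.cons (PF.leaf (nat_lit 7760386) (nat_lit 665189) (nat_lit 42746313) (nat_lit 3301916) [(nat_lit 665189), (nat_lit 1927928), (nat_lit 4092068), (nat_lit 8952949)]) (PF.cons (PF.leaf (nat_lit 8151818) (nat_lit 672342) (nat_lit 42095993) (nat_lit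 3303370) [(nat_lit 672342), (nat_lit 1934842), (nat_lit 4088950), (nat_lit 8907337)]) (PF.cons (PF.leaf (nat_lit 8546634) (nat_lit 678508) (nat_lit 41447177) (nat_lit 3302853) [(nat_lit 678508), (nat_lit 1940205), (nat_lit 4083660), (nat_lit 8858712)]) (PF.cons PF.nil PF.nil))))))) (PF.cons (PF.cons (PF.leaf (nat_lit 7448624) (nat_lit 1918666) (nat_lit 42852445) (nat_lit 3294145) [(nat_lit 0), (nat_lit 1918666), (nat_lit
 4085314), (nat_lit 8954261)]) (PF.cons (PF.leaf (nat_lit 7827276) (nat_lit 663811) (nat_lit 42219474) (nat_lit 3296326) [(nat_lit 663811), (nat_lit 1926292), (nat_lit 4083014), (nat_lit 8910586)]) (PF.cons (PF.leaf (nat_lit 8211474) (nat_lit 670840) (nat_lit 41584793) (nat_lit 3296587) [(nat_lit 670840), (nat_lit 1932378), (nat_lit 4078593), (nat_lit 8863806)]) (PF.cons (PF.leaf (nat_lit 8599557) (nat_lit 676870) (nat_lit 40950823) (nat_lit 3294995) [(nat_lit 676870), (nat_lit 1936994), (nat_lit 4072126), (nat_lit 8814143)]) (PF.cons PF.nil PF.nil)))))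 (PF.cons (PF.cons (PF.leaf (nat_lit 8271779) (nat_lit 1929421) (nat_lit 41077754) (nat_lit 3289062) [(nat_lit 0), (nat_lit 1929421), (nat_lit 4067369), (nat_lit 8818991)]) (PF.cons (PF.leaf (nat_lit 8652595) (nat_lit 674947) (nat_lit 40459233) (nat_lit 3286475) [(nat_lit 674947), (nat_lit 1933340), (nat_lit 4059825), (nat_lit 8768485)]) (PF.cons (PF.leaf (nat_lit 9036730) (nat_lit 679975) (nat_lit 39842548) (nat_lit 3282215) [(nat_lit 679975), (nat_lit 1935932), (nat_lit 4050437), (nat_lit 8715424)]) (PF.cons PF.nil PF.nil)))) (PF.cons (PF.cons (PF.leaf (nat_lit 9083639) (nat_lit 1931269) (nat_lit 39370331) (nat_lit 3272238)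
 [(nat_lit 0), (nat_lit 1931269), (nat_lit 4036516), (nat_lit 8668131)]) (PF.cons (PF.leaf (nat_lit 9463185) (nat_lit 681832) (nat_lit 38771539) (nat_lit 3265654) [(nat_lit 681832), (nat_lit 1932082), (nat_lit 4024596), (nat_lit 8612265)]) PF.nil)) (PF.cons PF.nil PF.nil)))))) (PF.cons (PF.cons (PF.cons (PF.leaf (nat_lit 7154262) (nat_lit 3272431) (nat_lit 42723126) (nat_lit 3272431) [(nat_lit 0), (nat_lit 0), (nat_lit 4062704), (nat_lit 8925140)]) (PF.cons (PF.leaf (nat_lit 7519802) (nat_lit 650504) (nat_lit 42115039) (nat_lit 3275594) [(nat_lit 650504), (nat_lit 0), (nat_lit 4061398), (nat_lit 8883479)]) (PF.cons (PF.leaf (nat_lit 7892860) (nat_lit 658718) (nat_lit 41501775) (nat_lit 3276874) [(nat_lit 658718), (nat_lit 0), (nat_lit 4058021), (nat_lit 8838661)]) (PF.cons (PF.leaf (nat_lit 8271390) (nat_lit 665765) (nat_lit 40886414) (nat_lit 3276314) [(nat_lit 665765), (nat_lit 0), (nat_lit 4052626), (nat_lit 8790907)]) (PF.cons (PF.leaf (nat_lit 8653896) (nat_lit 671783)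 (nat_lit 40271387) (nat_lit 3273981) [(nat_lit 671783), (nat_lit 0), (nat_lit 4045289), (nat_lit 8740441)]) (PF.cons (PF.leaf (nat_lit 9039144) (nat_lit 676886) (nat_lit 39658644) (nat_lit 3269954) [(nat_lit
 676886), (nat_lit 0), (nat_lit 4036100), (nat_lit 8687479)]) (PF.cons PF.nil PF.nil))))))) (PF.cons (PF.cons (PF.leaf (nat_lit 7958984) (nat_lit 1912229) (nat_lit 40991285) (nat_lit 3269775) [(nat_lit 0), (nat_lit 1912229), (nat_lit 4047210), (nat_lit 8793889)]) (PF.cons (PF.leaf (nat_lit 8329663) (nat_lit 663725) (nat_lit 40392145) (nat_lit 3268200) [(nat_lit 663725), (nat_lit 1917174), (nat_lit 4040729), (nat_lit 8745378)]) (PF.cons (PF.leaf (nat_lit 8705166) (nat_lit 669686) (nat_lit 39792269) (nat_lit 3264952) [(nat_lit 669686), (nat_lit 1920748), (nat_lit 4032412), (nat_lit 8694233)]) (PF.cons (PF.leaf (nat_lit 9083920) (nat_lit 674711) (nat_lit 39193841) (nat_lit 3260105) [(nat_lit 674711), (nat_lit 1923021), (nat_lit 4022342), (nat_lit 8640682)]) (PF.cons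 PF.nil PF.nil))))) (PF.cons (PF.cons (PF.leaf (nat_lit 8757342) (nat_lit 1916345) (nat_lit 39317209) (nat_lit 3255332) [(nat_lit 0), (nat_lit 1916345), (nat_lit 4018847), (nat_lit 8647037)]) (PF.cons (PF.leaf (nat_lit 9129086) (nat_lit 672286) (nat_lit 38733617) (nat_lit 3249733) [(nat_lit 672286), (nat_lit 1918079), (nat_lit 4007982), (nat_lit 8593067)]) (PF.cons (PF.leaf (nat_lit 9503625) (nat_lit 676427) (nat_lit
 38152368) (nat_lit 3242694) [(nat_lit 676427), (nat_lit 1918642), (nat_lit 3995544), (nat_lit 8536977)]) (PF.cons PF.nil PF.nil)))) (PF.cons (PF.cons (PF.leaf (nat_lit 9543181) (nat_lit 1912911) (nat_lit 37710637) (nat_lit 3231205) [(nat_lit 0), (nat_lit 1912911), (nat_lit 3979963), (nat_lit 8488344)]) (PF.cons PF.nil PF.nil)) (PF.cons PF.nil PF.nil))))) (PF.cons (PF.cons (PF.cons (PF.leaf (nat_lit 8443263) (nat_lit 3237537) (nat_lit 39245972) (nat_lit 3237537) [(nat_lit 0), (nat_lit 0), (nat_lit 4000283), (nat_lit 8624169)]) (PF.cons (PF.leaf (nat_lit 8805778)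 (nat_lit 661674) (nat_lit 38679918) (nat_lit 3232959) [(nat_lit 661674), (nat_lit 0), (nat_lit 3990506), (nat_lit 8572233)]) (PF.cons (PF.leaf (nat_lit 9172547) (nat_lit 666725) (nat_lit 38113819) (nat_lit 3226923) [(nat_lit 666725), (nat_lit 0), (nat_lit 3979139), (nat_lit 8518062)]) (PF.cons (PF.leaf (nat_lit 9542045) (nat_lit 670900) (nat_lit 37549652) (nat_lit 3219502) [(nat_lit 670900), (nat_lit 0), (nat_lit 3966267), (nat_lit 8461884)]) (PF.cons PF.nil PF.nil))))) (PF.cons (PF.cons (PF.leaf (nat_lit 9217438) (nat_lit 1899117) (nat_lit 37669089) (nat_lit 3215734) [(nat_lit 0), (nat_lit 1899117), (nat_lit 3963852),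
 (nat_lit 8469463)]) (PF.cons (PF.leaf (nat_lit 9580195) (nat_lit 668088) (nat_lit 37119046) (nat_lit 3207758) [(nat_lit 668088), (nat_lit 1899073), (nat_lit 3950412), (nat_lit 8413195)]) (PF.cons PF.nil (PF.cons PF.nil PF.nil)))) (PF.cons (PF.cons (PF.leaf (nat_lit 9978348) (nat_lit 1891456) (nat_lit 36158534) (nat_lit 3185952) [(nat_lit 0), (nat_lit 1891456), (nat_lit 3918868), (nat_lit 8305939)]) (PF.cons PF.nil PF.nil)) PF.nil))) (PF.cons (PF.cons (PF.cons (PF.leaf (nat_lit 9654049) (nat_lit 3171820) (nat_lit 36126780) (nat_lit 3171820) [(nat_lit 0), (nat_lit 0), (nat_lit 3904214), (nat_lit 8289137)]) (PF.cons (PF.leaf (nat_lit 10007976) (nat_lit 662685) (nat_lit 35608644) (nat_lit 3161984) [(nat_lit 662685), (nat_lit 0), (nat_lit 3888802), (nat_lit 8231487)]) PF.nil)) (PF.cons PF.nil PF.nil)) (PF.cons PF.nil (PF.cons PF.nil PF.nil)))))))) (PF.cons (PF.cons (PF.cons (PF.cons (PF.leaf (nat_lit 5247948) (nat_lit 3159640) (nat_lit 45914682) (nat_lit 3159640) [(nat_lit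 0), (nat_lit 0), (nat_lit 0), (nat_lit 9017245)]) (PF.cons (PF.leaf (nat_lit 5574386) (nat_lit 581804) (nat_lit 45354429) (nat_lit 3177844) [(nat_lit 581804), (nat_lit 0), (nat_lit 0), (nat_lit 8997367)]) (PF.cons
 (PF.leaf (nat_lit 5917814) (nat_lit 597912) (nat_lit 44771707) (nat_lit 3193961) [(nat_lit 597912), (nat_lit 0), (nat_lit 0), (nat_lit 8973659)]) (PF.cons (PF.leaf (nat_lit 6274530) (nat_lit 611944) (nat_lit 44172849) (nat_lit 3207804) [(nat_lit 611944), (nat_lit 0), (nat_lit 0), (nat_lit 8946162)]) (PF.cons (PF.leaf (nat_lit 6641855) (nat_lit 624227) (nat_lit 43562669) (nat_lit 3219302) [(nat_lit 624227), (nat_lit 0), (nat_lit 0), (nat_lit 8914965)]) (PF.cons (PF.leaf (nat_lit 7017641) (nat_lit 634999) (nat_lit 42944970) (nat_lit 3228453) [(nat_lit 634999), (nat_lit 0), (nat_lit 0), (nat_lit 8880195)]) (PF.cons (PF.leaf (nat_lit 7400096) (nat_lit 644443) (nat_lit 42322832) (nat_lit 3235302) [(nat_lit 644443), (nat_lit 0), (nat_lit 0), (nat_lit 8842007)]) (PF.cons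 (PF.leaf (nat_lit 7787706) (nat_lit 652704) (nat_lit 41698795) (nat_lit 3239924) [(nat_lit 652704), (nat_lit 0), (nat_lit 0), (nat_lit 8800579)]) (PF.cons (PF.leaf (nat_lit 8179164) (nat_lit 659902) (nat_lit 41074977) (nat_lit 3242410) [(nat_lit 659902), (nat_lit 0), (nat_lit 0), (nat_lit 8756103)]) (PF.cons PF.nil PF.nil)))))))))) (PF.cons (PF.cons (PF.leaf (nat_lit 6019448) (nat_lit 1827226) (nat_lit 44202282) (nat_lit
 3197238) [(nat_lit 0), (nat_lit 1827226), (nat_lit 0), (nat_lit 8941032)]) (PF.cons (PF.leaf (nat_lit 6366205) (nat_lit 611684) (nat_lit 43621481) (nat_lit 3209045) [(nat_lit 611684), (nat_lit 1843127), (nat_lit 0), (nat_lit 8911736)]) (PF.cons (PF.leaf (nat_lit 6724968) (nat_lit 623856) (nat_lit 43027591) (nat_lit 3218728) [(nat_lit 623856), (nat_lit 1857103), (nat_lit 0), (nat_lit 8878838)]) (PF.cons (PF.leaf (nat_lit 7093001) (nat_lit 634469) (nat_lit 42424984) (nat_lit 3226252) [(nat_lit 634469), (nat_lit 1869194), (nat_lit 0), (nat_lit 8842485)])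 (PF.cons (PF.leaf (nat_lit 7468307) (nat_lit 643731) (nat_lit 41817087) (nat_lit 3231637) [(nat_lit 643731), (nat_lit 1879468), (nat_lit 0), (nat_lit 8802846)]) (PF.cons (PF.leaf (nat_lit 7849230) (nat_lit 651800) (nat_lit 41206653) (nat_lit 3234938) [(nat_lit 651800), (nat_lit 1888011), (nat_lit 0), (nat_lit 8760104)]) (PF.cons (PF.leaf (nat_lit 8234370) (nat_lit 658804) (nat_lit 40595935) (nat_lit 3236233) [(nat_lit 658804), (nat_lit 1894914), (nat_lit 0), (nat_lit 8714452)]) (PF.cons (PF.leaf (nat_lit 8622520) (nat_lit 664848) (nat_lit 39986799) (nat_lit 3235614) [(nat_lit 664848), (nat_lit 1900271), (nat_lit 0), (nat_lit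
 8666092)]) (PF.cons PF.nil PF.nil))))))))) (PF.cons (PF.cons (PF.leaf (nat_lit 6809902) (nat_lit 1858315) (nat_lit 42493568) (nat_lit 3217092) [(nat_lit 0), (nat_lit 1858315), (nat_lit 0), (nat_lit 8840760)]) (PF.cons (PF.leaf (nat_lit 7169241) (nat_lit 633484) (nat_lit 41907438) (nat_lit 3223091) [(nat_lit 633484), (nat_lit 1869309), (nat_lit 0), (nat_lit 8803089)]) (PF.cons (PF.leaf (nat_lit 7536893) (nat_lit 642636) (nat_lit 41314759) (nat_lit 3227107) [(nat_lit 642636), (nat_lit 1878609), (nat_lit 0), (nat_lit 8762227)]) (PF.cons (PF.leaf (nat_lit 7910776) (nat_lit 650569) (nat_lit 40718627) (nat_lit 3229177) [(nat_lit 650569), (nat_lit 1886279), (nat_lit 0), (nat_lit 8718370)]) (PF.cons (PF.leaf (nat_lit 8289352) (nat_lit 657424) (nat_lit 40121513) (nat_lit 3229364) [(nat_lit 657424), (nat_lit 1892398), (nat_lit 0), (nat_lit 8671720)]) (PF.cons (PF.leaf (nat_lit 8671324) (nat_lit 663316) (nat_lit 39525423) (nat_lit 3227747) [(nat_lit 663316), (nat_lit 1897049),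 (nat_lit 0), (nat_lit 8622479)]) (PF.cons PF.nil PF.nil))))))) (PF.cons (PF.cons (PF.leaf (nat_lit 7606681) (nat_lit 1877198) (nat_lit 40815152) (nat_lit 3221751) [(nat_lit 0), (nat_lit 1877198), (nat_lit 0), (nat_lit
 8720156)]) (PF.cons (PF.leaf (nat_lit 7972836) (nat_lit 648995) (nat_lit 40234197) (nat_lit 3222676) [(nat_lit 648995), (nat_lit 1884049), (nat_lit 0), (nat_lit 8675398)]) (PF.cons (PF.leaf (nat_lit 8344512) (nat_lit 655753) (nat_lit 39651303) (nat_lit 3221834) [(nat_lit 655753), (nat_lit 1889433), (nat_lit 0), (nat_lit 8627933)]) (PF.cons (PF.leaf (nat_lit 8720075) (nat_lit 661534) (nat_lit 39068693) (nat_lit 3219292) [(nat_lit 661534), (nat_lit 1893425), (nat_lit 0), (nat_lit 8577973)]) (PF.cons (PF.leaf (nat_lit 9098346) (nat_lit 666442) (nat_lit 38488156) (nat_lit 3215132) [(nat_lit 666442), (nat_lit 1896102), (nat_lit 0), (nat_lit 8525723)]) PF.nil))))) (PF.cons (PF.cons (PF.leaf (nat_lit 8400507) (nat_lit 1886039) (nat_lit 39184781) (nat_lit 3213668)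 [(nat_lit 0), (nat_lit 1886039), (nat_lit 0), (nat_lit 8583102)]) (PF.cons (PF.leaf (nat_lit 8769138) (nat_lit 659492) (nat_lit 38616198) (nat_lit 3210273) [(nat_lit 659492), (nat_lit 1889416), (nat_lit 0), (nat_lit 8532591)]) (PF.cons (PF.leaf (nat_lit 9141153) (nat_lit 664320) (nat_lit 38048923) (nat_lit 3205349) [(nat_lit 664320), (nat_lit 1891541), (nat_lit 0), (nat_lit 8479866)]) (PF.cons PF.nil PF.nil)))) (PF.cons (PF.cons
 (PF.leaf (nat_lit 9184594) (nat_lit 1886650) (nat_lit 37613895) (nat_lit 3195085) [(nat_lit 0), (nat_lit 1886650), (nat_lit 0), (nat_lit 8433289)]) (PF.cons (PF.leaf (nat_lit 9552438) (nat_lit 665946) (nat_lit 37062499) (nat_lit 3188086) [(nat_lit 665946), (nat_lit 1887139), (nat_lit 0), (nat_lit 8378292)]) PF.nil)) (PF.cons PF.nil (PF.cons PF.nil PF.nil)))))))) (PF.cons (PF.cons (PF.cons (PF.leaf (nat_lit 6544488) (nat_lit 3192984) (nat_lit 42322281) (nat_lit 3192984) [(nat_lit 0), (nat_lit 0), (nat_lit 3976551), (nat_lit 8808497)]) (PF.cons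 (PF.leaf (nat_lit 6887468) (nat_lit 617392) (nat_lit 41766266) (nat_lit 3200005) [(nat_lit 617392), (nat_lit 0), (nat_lit 3979261), (nat_lit 8772943)]) (PF.cons (PF.leaf (nat_lit 7241331) (nat_lit 628171) (nat_lit 41199195) (nat_lit 3205109) [(nat_lit 628171), (nat_lit 0), (nat_lit 3979905), (nat_lit 8734129)]) (PF.cons (PF.leaf (nat_lit 7603441) (nat_lit 637458) (nat_lit 40625130) (nat_lit 3208295) [(nat_lit 637458), (nat_lit 0), (nat_lit 3978485), (nat_lit 8692262)]) (PF.cons (PF.leaf (nat_lit 7971906) (nat_lit 645467) (nat_lit 40047210) (nat_lit 3209602) [(nat_lit 645467), (nat_lit 0), (nat_lit 3975042), (nat_lit 8647544)]) (PF.cons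
 (PF.leaf (nat_lit 8345174) (nat_lit 652357) (nat_lit 39467930) (nat_lit 3209095) [(nat_lit 652357), (nat_lit 0), (nat_lit 3969645), (nat_lit 8600177)]) (PF.cons (PF.leaf (nat_lit 8721938) (nat_lit 658256) (nat_lit 38889308) (nat_lit 3206854) [(nat_lit 658256), (nat_lit 0), (nat_lit 3962379), (nat_lit 8550364)]) (PF.cons PF.nil (PF.cons PF.nil PF.nil))))))))) (PF.cons (PF.cons (PF.leaf (nat_lit 7317813) (nat_lit 1857479) (nat_lit 40695503) (nat_lit 3200285) [(nat_lit 0), (nat_lit 1857479), (nat_lit 3971535), (nat_lit 8692004)]) (PF.cons (PF.leaf (nat_lit 7671352) (nat_lit 635715) (nat_lit 40137680) (nat_lit 3202286) [(nat_lit 635715), (nat_lit 1865555), (nat_lit 3968871), (nat_lit 8649352)]) (PF.cons (PF.leaf (nat_lit 8032316) (nat_lit 643689) (nat_lit 39574691) (nat_lit 3202531) [(nat_lit 643689), (nat_lit 1872101), (nat_lit 3964307), (nat_lit 8603901)]) (PF.cons (PF.leaf (nat_lit 8398726) (nat_lit 650511) (nat_lit 39009371) (nat_lit 3201070) [(nat_lit 650511), (nat_lit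 1877190), (nat_lit 3957900), (nat_lit 8555872)]) (PF.cons (PF.leaf (nat_lit 8769136) (nat_lit 656324) (nat_lit 38443958) (nat_lit 3197974) [(nat_lit 656324), (nat_lit 1880903), (nat_lit 3949725), (nat_lit
 8505476)]) (PF.cons (PF.leaf (nat_lit 9142350) (nat_lit 661242) (nat_lit 37880249) (nat_lit 3193321) [(nat_lit 661242), (nat_lit 1883321), (nat_lit 3939873), (nat_lit 8452916)]) (PF.cons PF.nil PF.nil))))))) (PF.cons (PF.cons (PF.leaf (nat_lit 8094169) (nat_lit 1869033) (nat_lit 39104952) (nat_lit 3194791) [(nat_lit 0), (nat_lit 1869033), (nat_lit 3952794), (nat_lit 8559104)]) (PF.cons (PF.leaf (nat_lit 8453042) (nat_lit 648360) (nat_lit 38554363) (nat_lit 3192452) [(nat_lit 648360), (nat_lit 1873481), (nat_lit 3945468), (nat_lit 8510603)]) (PF.cons (PF.leaf (nat_lit 8816760) (nat_lit 654135) (nat_lit 38002693) (nat_lit 3188568) [(nat_lit 654135), (nat_lit 1876620), (nat_lit 3936468), (nat_lit 8459785)]) (PF.cons (PF.leaf (nat_lit 9183797) (nat_lit 658995) (nat_lit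 37451957) (nat_lit 3183210) [(nat_lit 658995), (nat_lit 1878524), (nat_lit 3925876), (nat_lit 8406866)]) (PF.cons PF.nil PF.nil))))) (PF.cons (PF.cons (PF.leaf (nat_lit 8865458) (nat_lit 1871988) (nat_lit 37564998) (nat_lit 3178653) [(nat_lit 0), (nat_lit 1871988), (nat_lit 3922624), (nat_lit 8413286)]) (PF.cons (PF.leaf (nat_lit 9225788) (nat_lit 656518) (nat_lit 37027711) (nat_lit 3172652) [(nat_lit 656518), (nat_lit
 1873416), (nat_lit 3911368), (nat_lit 8360155)]) (PF.cons (PF.leaf (nat_lit 9589015) (nat_lit 660534) (nat_lit 36492182) (nat_lit 3165326) [(nat_lit 660534), (nat_lit 1873737), (nat_lit 3898682), (nat_lit 8305170)]) (PF.cons PF.nil PF.nil)))) (PF.cons (PF.cons (PF.leaf (nat_lit 9625846) (nat_lit 1867938) (nat_lit 36084579) (nat_lit 3153814) [(nat_lit 0), (nat_lit 1867938), (nat_lit 3883149), (nat_lit 8257758)]) (PF.cons PF.nil PF.nil)) (PF.cons PF.nil PF.nil)))))) (PF.cons (PF.cons (PF.cons (PF.leaf (nat_lit 7802354) (nat_lit 3174879) (nat_lit 39003423)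 (nat_lit 3174879) [(nat_lit 0), (nat_lit 0), (nat_lit 3932169), (nat_lit 8533085)]) (PF.cons (PF.leaf (nat_lit 8149619) (nat_lit 635782) (nat_lit 38473871) (nat_lit 3173642) [(nat_lit 635782), (nat_lit 0), (nat_lit 3925981), (nat_lit 8486776)]) (PF.cons (PF.leaf (nat_lit 8503579) (nat_lit 642742) (nat_lit 37940225) (nat_lit 3170846) [(nat_lit 642742), (nat_lit 0), (nat_lit 3918113), (nat_lit 8438014)]) (PF.cons (PF.leaf (nat_lit 8862326) (nat_lit 648613) (nat_lit 37405085) (nat_lit 3166552) [(nat_lit 648613), (nat_lit 0), (nat_lit 3908635), (nat_lit 8387032)]) (PF.cons (PF.leaf (nat_lit 9224504) (nat_lit 653538) (nat_lit 36870480)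
 (nat_lit 3160832) [(nat_lit 653538), (nat_lit 0), (nat_lit 3897628), (nat_lit 8334045)]) (PF.cons PF.nil (PF.cons PF.nil PF.nil))))))) (PF.cons (PF.cons (PF.leaf (nat_lit 8558218) (nat_lit 1856228) (nat_lit 37499117) (nat_lit 3161285) [(nat_lit 0), (nat_lit 1856228), (nat_lit 3904604), (nat_lit 8391486)]) (PF.cons (PF.leaf (nat_lit 8909642) (nat_lit 646010) (nat_lit 36978127) (nat_lit 3156329) [(nat_lit 646010), (nat_lit 1858695), (nat_lit 3894454), (nat_lit 8340371)]) (PF.cons (PF.leaf (nat_lit 9265366) (nat_lit 650944) (nat_lit 36456679) (nat_lit 3150018) [(nat_lit 650944), (nat_lit 1859989), (nat_lit 3882845), (nat_lit 8287272)]) (PF.cons (PF.leaf (nat_lit 9623912) (nat_lit 655022) (nat_lit 35936602) (nat_lit 3142426) [(nat_lit 655022), (nat_lit 1860186), (nat_lit 3869861), (nat_lit 8232402)]) (PF.cons PF.nil PF.nil))))) (PF.cons (PF.cons (PF.leaf (nat_lit 9307490) (nat_lit 1854404) (nat_lit 36046265) (nat_lit 3138796) [(nat_lit 0), (nat_lit 1854404), (nat_lit 3867594),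 (nat_lit 8239876)]) (PF.cons (PF.leaf (nat_lit 9659579) (nat_lit 652209) (nat_lit 35538989) (nat_lit 3130730) [(nat_lit 652209), (nat_lit 1854240), (nat_lit 3854140), (nat_lit 8185061)]) (PF.cons PF.nil (PF.cons
 PF.nil PF.nil)))) (PF.cons (PF.cons (PF.leaf (nat_lit 10045105) (nat_lit 1846607) (nat_lit 34651873) (nat_lit 3109098) [(nat_lit 0), (nat_lit 1846607), (nat_lit 3822976), (nat_lit 8081033)]) (PF.cons PF.nil PF.nil)) (PF.cons PF.nil PF.nil))))) (PF.cons (PF.cons (PF.cons (PF.leaf (nat_lit 9000355) (nat_lit 3122846) (nat_lit 35992323) (nat_lit 3122846) [(nat_lit 0), (nat_lit 0), (nat_lit 3851089), (nat_lit 8220186)]) (PF.cons (PF.leaf (nat_lit 9344282) (nat_lit 642291) (nat_lit 35499822) (nat_lit 3115803) [(nat_lit 642291), (nat_lit 0), (nat_lit 3838726), (nat_lit 8167357)]) (PF.cons (PF.leaf (nat_lit 9692050) (nat_lit 646506) (nat_lit 35007309) (nat_lit 3107568) [(nat_lit 646506), (nat_lit 0), (nat_lit 3825088), (nat_lit 8112827)]) (PF.cons PF.nil PF.nil)))) (PF.cons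 (PF.cons (PF.leaf (nat_lit 9728275) (nat_lit 1834121) (nat_lit 34622532) (nat_lit 3095390) [(nat_lit 0), (nat_lit 1834121), (nat_lit 3808836), (nat_lit 8065129)]) (PF.cons (PF.leaf (nat_lit 10072259) (nat_lit 646849) (nat_lit 34143790) (nat_lit 3085701) [(nat_lit 646849), (nat_lit 1832655), (nat_lit 3793694), (nat_lit 8009366)]) PF.nil)) (PF.cons PF.nil PF.nil))) (PF.cons (PF.cons (PF.cons (PF.leaf (nat_lit 10129412)
 (nat_lit 3049463) (nat_lit 33287635) (nat_lit 3049463) [(nat_lit 0), (nat_lit 0), (nat_lit 3747547), (nat_lit 7890762)]) (PF.cons PF.nil PF.nil)) (PF.cons PF.nil PF.nil)) (PF.cons PF.nil PF.nil)))))) (PF.cons (PF.cons (PF.cons (PF.cons (PF.leaf (nat_lit 7201796) (nat_lit 3105528) (nat_lit 38700572) (nat_lit 3105528) [(nat_lit 0), (nat_lit 0), (nat_lit 0), (nat_lit 8434237)]) (PF.cons (PF.leaf (nat_lit 7529543) (nat_lit 605516) (nat_lit 38213700) (nat_lit 3108004) [(nat_lit 605516), (nat_lit 0), (nat_lit 0), (nat_lit 8393863)]) (PF.cons (PF.leaf (nat_lit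 7867122) (nat_lit 614969) (nat_lit 37717673) (nat_lit 3108818) [(nat_lit 614969), (nat_lit 0), (nat_lit 0), (nat_lit 8350794)]) (PF.cons (PF.leaf (nat_lit 8212025) (nat_lit 622999) (nat_lit 37215975) (nat_lit 3108005) [(nat_lit 622999), (nat_lit 0), (nat_lit 0), (nat_lit 8305277)]) (PF.cons (PF.leaf (nat_lit 8562505) (nat_lit 629825) (nat_lit 36711276) (nat_lit 3105625) [(nat_lit 629825), (nat_lit 0), (nat_lit 0), (nat_lit 8257536)]) (PF.cons (PF.leaf (nat_lit 8917157) (nat_lit 635610) (nat_lit 36205679) (nat_lit 3101753) [(nat_lit 635610), (nat_lit 0), (nat_lit 0), (nat_lit 8207776)]) (PF.cons (PF.leaf (nat_lit 9274787) (nat_lit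
 640485) (nat_lit 35700869) (nat_lit 3096470) [(nat_lit 640485), (nat_lit 0), (nat_lit 0), (nat_lit 8156187)]) (PF.cons PF.nil (PF.cons PF.nil PF.nil))))))))) (PF.cons (PF.cons (PF.leaf (nat_lit 7932341) (nat_lit 1807928) (nat_lit 37280497) (nat_lit 3101168) [(nat_lit 0), (nat_lit 1807928), (nat_lit 0), (nat_lit 8306405)]) (PF.cons (PF.leaf (nat_lit 8269112) (nat_lit 620612) (nat_lit 36793132) (nat_lit 3099544) [(nat_lit 620612), (nat_lit 1813340), (nat_lit 0), (nat_lit 8260727)]) (PF.cons (PF.leaf (nat_lit 8612556) (nat_lit 627475) (nat_lit 36301549) (nat_lit 3096442) [(nat_lit 627475), (nat_lit 1817400), (nat_lit 0), (nat_lit 8212823)]) (PF.cons (PF.leaf (nat_lit 8960814) (nat_lit 633259) (nat_lit 35808158) (nat_lit 3091927) [(nat_lit 633259), (nat_lit 1820192), (nat_lit 0), (nat_lit 8162918)]) (PF.cons (PF.leaf (nat_lit 9312563) (nat_lit 638109) (nat_lit 35314843) (nat_lit 3086072) [(nat_lit 638109), (nat_lit 1821799), (nat_lit 0), (nat_lit 8111219)]) (PF.cons PF.nil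 (PF.cons PF.nil PF.nil))))))) (PF.cons (PF.cons (PF.leaf (nat_lit 8664351) (nat_lit 1812935) (nat_lit 35894168) (nat_lit 3086781) [(nat_lit 0), (nat_lit 1812935), (nat_lit 0), (nat_lit 8167330)]) (PF.cons (PF.leaf
 (nat_lit 9005542) (nat_lit 630649) (nat_lit 35413619) (nat_lit 3081683) [(nat_lit 630649), (nat_lit 1815276), (nat_lit 0), (nat_lit 8117435)]) (PF.cons (PF.leaf (nat_lit 9351100) (nat_lit 635520) (nat_lit 34932238) (nat_lit 3075309) [(nat_lit 635520), (nat_lit 1816483), (nat_lit 0), (nat_lit 8065752)]) (PF.cons (PF.leaf (nat_lit 9699571) (nat_lit 639547) (nat_lit 34451721) (nat_lit 3067734) [(nat_lit 639547), (nat_lit 1816633), (nat_lit 0), (nat_lit 8012482)]) (PF.cons PF.nil PF.nil))))) (PF.cons (PF.cons (PF.leaf (nat_lit 9390993) (nat_lit 1810914) (nat_lit 34552587) (nat_lit 3064189) [(nat_lit 0), (nat_lit 1810914), (nat_lit 0), (nat_lit 8019764)]) (PF.cons (PF.leaf (nat_lit 9733242) (nat_lit 636760) (nat_lit 34083687) (nat_lit 3056201) [(nat_lit 636760),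 (nat_lit 1810739), (nat_lit 0), (nat_lit 7966648)]) (PF.cons PF.nil (PF.cons PF.nil PF.nil)))) (PF.cons (PF.cons (PF.leaf (nat_lit 10107394) (nat_lit 1803245) (nat_lit 33262419) (nat_lit 3034978) [(nat_lit 0), (nat_lit 1803245), (nat_lit 0), (nat_lit 7866144)]) (PF.cons PF.nil PF.nil)) (PF.cons PF.nil PF.nil)))))) (PF.cons (PF.cons (PF.cons (PF.leaf (nat_lit 8377321) (nat_lit 3068702) (nat_lit 35814108) (nat_lit 3068702)
 [(nat_lit 0), (nat_lit 0), (nat_lit 3792708), (nat_lit 8144431)]) (PF.cons (PF.leaf (nat_lit 8708099) (nat_lit 618814) (nat_lit 35351420) (nat_lit 3064736) [(nat_lit 618814), (nat_lit 0), (nat_lit 3783642), (nat_lit 8096733)]) (PF.cons (PF.leaf (nat_lit 9044966) (nat_lit 624847) (nat_lit 34885286) (nat_lit 3059452) [(nat_lit 624847), (nat_lit 0), (nat_lit 3773179), (nat_lit 8047066)]) (PF.cons (PF.leaf (nat_lit 9386117) (nat_lit 629860) (nat_lit 34417923) (nat_lit 3052920) [(nat_lit 629860), (nat_lit 0), (nat_lit 3761398), (nat_lit 7995662)]) (PF.cons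 (PF.leaf (nat_lit 9730331) (nat_lit 633997) (nat_lit 33951051) (nat_lit 3045214) [(nat_lit 633997), (nat_lit 0), (nat_lit 3748381), (nat_lit 7942725)]) PF.nil))))) (PF.cons (PF.cons (PF.leaf (nat_lit 9090777) (nat_lit 1796518) (nat_lit 34502333) (nat_lit 3048618) [(nat_lit 0), (nat_lit 1796518), (nat_lit 3758383), (nat_lit 8000986)]) (PF.cons (PF.leaf (nat_lit 9425088) (nat_lit 626938) (nat_lit 34047226) (nat_lit 3041659) [(nat_lit 626938), (nat_lit 1797358), (nat_lit 3746200), (nat_lit 7949809)]) (PF.cons (PF.leaf (nat_lit 9763314) (nat_lit 631131) (nat_lit 33591709) (nat_lit 3033575) [(nat_lit 631131), (nat_lit 1797179), (nat_lit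
 3732826), (nat_lit 7897086)]) (PF.cons PF.nil PF.nil)))) (PF.cons (PF.cons (PF.leaf (nat_lit 9797808) (nat_lit 1790978) (nat_lit 33235128) (nat_lit 3021648) [(nat_lit 0), (nat_lit 1790978), (nat_lit 3716943), (nat_lit 7851045)]) (PF.cons (PF.leaf (nat_lit 10132576) (nat_lit 631520) (nat_lit 32791764) (nat_lit 3012220) [(nat_lit 631520), (nat_lit 1789612), (nat_lit 3702199), (nat_lit 7797294)]) PF.nil)) (PF.cons PF.nil (PF.cons PF.nil PF.nil))))) (PF.cons (PF.cons (PF.cons (PF.leaf (nat_lit 9498569) (nat_lit 3007382) (nat_lit 33194291) (nat_lit 3007382) [(nat_lit 0), (nat_lit 0), (nat_lit 3702307), (nat_lit 7834174)]) (PF.cons (PF.leaf (nat_lit 9826000) (nat_lit 622255) (nat_lit 32763468) (nat_lit 2998944) [(nat_lit 622255), (nat_lit 0), (nat_lit 3688617), (nat_lit 7782303)]) (PF.cons (PF.leaf (nat_lit 10157000) (nat_lit 625865) (nat_lit 32332543) (nat_lit 2989508) [(nat_lit 625865), (nat_lit 0), (nat_lit 3673879), (nat_lit 7729090)]) (PF.cons PF.nil PF.nil)))) (PF.cons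 (PF.cons (PF.leaf (nat_lit 10186626) (nat_lit 1769278) (nat_lit 31997548) (nat_lit 2977013) [(nat_lit 0), (nat_lit 1769278), (nat_lit 3657447), (nat_lit 7683359)]) (PF.cons PF.nil PF.nil)) (PF.cons PF.nil PF.nil)))
 (PF.cons (PF.cons (PF.cons (PF.leaf (nat_lit 10558744) (nat_lit 2930981) (nat_lit 30834468) (nat_lit 2930981) [(nat_lit 0), (nat_lit 0), (nat_lit 3596713), (nat_lit 7517740)]) (PF.cons PF.nil PF.nil)) (PF.cons PF.nil PF.nil)) (PF.cons PF.nil PF.nil))))) (PF.cons (PF.cons (PF.cons (PF.cons (PF.leaf (nat_lit 8894826) (nat_lit 2960492) (nat_lit 33063622) (nat_lit 2960492) [(nat_lit 0), (nat_lit 0), (nat_lit 0), (nat_lit 7771174)]) (PF.cons (PF.leaf (nat_lit 9210730) (nat_lit 600915) (nat_lit 32657404) (nat_lit 2954854) [(nat_lit 600915), (nat_lit 0), (nat_lit 0), (nat_lit 7723909)]) (PF.cons (PF.leaf (nat_lit 9532254) (nat_lit 606243) (nat_lit 32248163) (nat_lit 2948083) [(nat_lit 606243), (nat_lit 0), (nat_lit 0), (nat_lit 7675020)]) (PF.cons (PF.leaf (nat_lit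 9857698) (nat_lit 610614) (nat_lit 31837803) (nat_lit 2940250) [(nat_lit 610614), (nat_lit 0), (nat_lit 0), (nat_lit 7624728)]) (PF.cons PF.nil PF.nil))))) (PF.cons (PF.cons (PF.leaf (nat_lit 9571172) (nat_lit 1736190) (nat_lit 31913788) (nat_lit 2936694) [(nat_lit 0), (nat_lit 1736190), (nat_lit 0), (nat_lit 7630535)]) (PF.cons (PF.leaf (nat_lit 9890188) (nat_lit 607526) (nat_lit 31514033) (nat_lit 2928593) [(nat_lit 607526),
 (nat_lit 1735955), (nat_lit 0), (nat_lit 7580676)]) (PF.cons (PF.leaf (nat_lit 10212832) (nat_lit 611168) (nat_lit 31113829) (nat_lit 2919538) [(nat_lit 611168), (nat_lit 1734819), (nat_lit 0), (nat_lit 7529571)]) (PF.cons PF.nil PF.nil)))) (PF.cons (PF.cons (PF.leaf (nat_lit 10241433) (nat_lit 1728349) (nat_lit 30802079) (nat_lit 2907436) [(nat_lit 0), (nat_lit 1728349), (nat_lit 0), (nat_lit 7485649)]) (PF.cons PF.nil PF.nil)) (PF.cons PF.nil (PF.cons PF.nil PF.nil))))) (PF.cons (PF.cons (PF.cons (PF.leaf (nat_lit 9950474) (nat_lit 2894672) (nat_lit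 30771234) (nat_lit 2894672) [(nat_lit 0), (nat_lit 0), (nat_lit 3558036), (nat_lit 7471217)]) (PF.cons (PF.leaf (nat_lit 10263182) (nat_lit 602319) (nat_lit 30392125) (nat_lit 2885504) [(nat_lit 602319), (nat_lit 0), (nat_lit 3543787), (nat_lit 7421268)]) (PF.cons PF.nil (PF.cons PF.nil PF.nil)))) (PF.cons (PF.cons (PF.leaf (nat_lit 10603759) (nat_lit 1706217) (nat_lit 29719240) (nat_lit 2863065) [(nat_lit 0), (nat_lit 1706217), (nat_lit 3512490), (nat_lit 7326949)]) (PF.cons PF.nil PF.nil)) (PF.cons PF.nil PF.nil))) (PF.cons (PF.cons (PF.cons (PF.leaf (nat_lit 10951690) (nat_lit 2818007) (nat_lit 28699048) (nat_lit 2818007)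
 [(nat_lit 0), (nat_lit 0), (nat_lit 3453527), (nat_lit 7171175)]) (PF.cons PF.nil PF.nil)) (PF.cons PF.nil PF.nil)) PF.nil))) (PF.cons (PF.cons (PF.cons (PF.cons (PF.leaf (nat_lit 10365194) (nat_lit 2786535) (nat_lit 28658039) (nat_lit 2786535) [(nat_lit 0), (nat_lit 0), (nat_lit 0), (nat_lit 7132847)]) (PF.cons (PF.leaf (nat_lit 10664662) (nat_lit 582900) (nat_lit 28322434) (nat_lit 2777055) [(nat_lit 582900), (nat_lit 0), (nat_lit 0), (nat_lit 7085284)]) (PF.cons PF.nil PF.nil))) (PF.cons (PF.cons (PF.leaf (nat_lit 10987816) (nat_lit 1645773) (nat_lit 27727601) (nat_lit 2754718) [(nat_lit 0), (nat_lit 1645773), (nat_lit 0), (nat_lit 6996143)]) PF.nil) PF.nil)) (PF.cons PF.nil PF.nil)) (PF.cons PF.nil (PF.cons PF.nil (PF.cons PF.nil PF.nil)))))))))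

def p13_16_0_0 : pfC (piC [(nat_lit 35755509), (nat_lit 23968959), (nat_lit 17897616), (nat_lit 12073119)] (nat_lit 22256242)) p13_16_0 (nat_lit 4) (nat_lit 0) (nat_lit 1) = true := by decide +kernel
def p13_16_0_1 : pfC (piC [(nat_lit 35755509), (nat_lit 23968959), (nat_lit 17897616), (nat_lit 12073119)] (nat_lit 22256242)) p13_16_0 (nat_lit 4) (nat_lit 1) (nat_lit 2) = true := by decide +kernel
def p13_16_0_2 : pfC (piC [(nat_lit 35755509), (nat_lit 23968959), (nat_lit 17897616), (nat_lit 12073119)] (nat_lit 22256242)) p13_16_0 (nat_lit 4) (nat_lit 2) (nat_lit 3) = true := by decide +kernel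
def p13_16_0_3 : pfC (piC [(nat_lit 35755509), (nat_lit 23968959), (nat_lit 17897616), (nat_lit 12073119)] (nat_lit 22256242)) p13_16_0 (nat_lit 4) (nat_lit 3) (nat_lit 4) = true := by decide +kernel
def p13_16_0_4 : pfC (piC [(nat_lit 35755509), (nat_lit 23968959), (nat_lit 17897616), (nat_lit 12073119)] (nat_lit 22256242)) p13_16_0 (nat_lit 4) (nat_lit 4) (nat_lit 5) = true := by decide +kernel
def p13_16_0_5 : pfC (piC [(nat_lit 35755509), (nat_lit 23968959), (nat_lit 17897616), (nat_lit 12073119)] (nat_lit 22256242)) p13_16_0 (nat_lit 4) (nat_lit 5) (nat_lit 6) = true := by decide +kernel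
def p13_16_0_6 : pfC (piC [(nat_lit 35755509), (nat_lit 23968959), (nat_lit 17897616), (nat_lit 12073119)] (nat_lit 22256242)) p13_16_0 (nat_lit 4) (nat_lit 6) (nat_lit 7) = true := by decide +kernel
def p13_16_0_7 : pfC (piC [(nat_lit 35755509), (nat_lit 23968959), (nat_lit 17897616), (nat_lit 12073119)] (nat_lit 22256242)) p13_16_0 (nat_lit 4) (nat_lit 7) (nat_lit 8) = true := by decide +kernel
def p13_16_0_8 : pfC (piC [(nat_lit 35755509), (nat_lit 23968959), (nat_lit 17897616), (nat_lit 12073119)] (nat_lit 22256242)) p13_16_0 (nat_lit 4) (nat_lit 8) (nat_lit 9) = true := by decide +kernel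
def p13_16_0_9 : pfC (piC [(nat_lit 35755509), (nat_lit 23968959), (nat_lit 17897616), (nat_lit 12073119)] (nat_lit 22256242)) p13_16_0 (nat_lit 4) (nat_lit 9) (nat_lit 10) = true := by decide +kernel
def p13_16_0_10 : pfC (piC [(nat_lit 35755509), (nat_lit 23968959), (nat_lit 17897616), (nat_lit 12073119)] (nat_lit 22256242)) p13_16_0 (nat_lit 4) (nat_lit 10) (nat_lit 11) = true := by decide +kernel
def p13_16_0_11 : pfC (piC [(nat_lit 35755509), (nat_lit 23968959), (nat_lit 17897616), (nat_lit 12073119)] (nat_lit 22256242)) p13_16_0 (nat_lit 4) (nat_lit 11) (nat_lit 12) = true := by decide +kernel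
def p13_16_0_12 : pfC (piC [(nat_lit 35755509), (nat_lit 23968959), (nat_lit 17897616), (nat_lit 12073119)] (nat_lit 22256242)) p13_16_0 (nat_lit 4) (nat_lit 12) (nat_lit 13) = true := by decide +kernel
def p13_16_0_13 : pfC (piC [(nat_lit 35755509), (nat_lit 23968959), (nat_lit 17897616), (nat_lit 12073119)] (nat_lit 22256242)) p13_16_0 (nat_lit 4) (nat_lit 13) (nat_lit 14) = true := by decide +kernel
def p13_16_0_14 : pfC (piC [(nat_lit 35755509), (nat_lit 23968959), (nat_lit 17897616), (nat_lit 12073119)] (nat_lit 22256242)) p13_16_0 (nat_lit 4) (nat_lit 14) (nat_lit 15) = true := by decide +kernel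
def p13_16_0_15 : pfC (piC [(nat_lit 35755509), (nat_lit 23968959), (nat_lit 17897616), (nat_lit 12073119)] (nat_lit 22256242)) p13_16_0 (nat_lit 4) (nat_lit 15) (nat_lit 16) = true := by decide +kernel
def p13_16_0_16 : pfC (piC [(nat_lit 35755509), (nat_lit 23968959), (nat_lit 17897616), (nat_lit 12073119)] (nat_lit 22256242)) p13_16_0 (nat_lit 4) (nat_lit 16) (nat_lit 17) = true := by decide +kernel
def p13_16_0_17 : pfC (piC [(nat_lit 35755509), (nat_lit 23968959), (nat_lit 17897616), (nat_lit 12073119)] (nat_lit 22256242)) p13_16_0 (nat_lit 4) (nat_lit 17) (nat_lit 18) = true := by decide +kernel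
def p13_16_0_18 : pfC (piC [(nat_lit 35755509), (nat_lit 23968959), (nat_lit 17897616), (nat_lit 12073119)] (nat_lit 22256242)) p13_16_0 (nat_lit 4) (nat_lit 18) (nat_lit 19) = true := by decide +kernel
def p13_16_0_19 : pfC (piC [(nat_lit 35755509), (nat_lit 23968959), (nat_lit 17897616), (nat_lit 12073119)] (nat_lit 22256242)) p13_16_0 (nat_lit 4) (nat_lit 19) (nat_lit 20) = true := by decide +kernel
def p13_16_0_20 : pfC (piC [(nat_lit 35755509), (nat_lit 23968959), (nat_lit 17897616), (nat_lit 12073119)] (nat_lit 22256242)) p13_16_0 (nat_lit 4) (nat_lit 20) (nat_lit 21) = true := by decide +kernel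
def p13_16_0_21 : pfC (piC [(nat_lit 35755509), (nat_lit 23968959), (nat_lit 17897616), (nat_lit 12073119)] (nat_lit 22256242)) p13_16_0 (nat_lit 4) (nat_lit 21) (nat_lit 22) = true := by decide +kernel
def p13_16_0_22 : pfC (piC [(nat_lit 35755509), (nat_lit 23968959), (nat_lit 17897616), (nat_lit 12073119)] (nat_lit 22256242)) p13_16_0 (nat_lit 4) (nat_lit 22) (nat_lit 23) = true := by decide +kernel
def p13_16_0_23 : pfC (piC [(nat_lit 35755509), (nat_lit 23968959), (nat_lit 17897616), (nat_lit 12073119)] (nat_lit 22256242)) p13_16_0 (nat_lit 4) (nat_lit 23) (nat_lit 24) = true := by decide +kernel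
def p13_16_0_24 : pfC (piC [(nat_lit 35755509), (nat_lit 23968959), (nat_lit 17897616), (nat_lit 12073119)] (nat_lit 22256242)) p13_16_0 (nat_lit 4) (nat_lit 24) (nat_lit 25) = true := by decide +kernel
def p13_16_0_25 : pfC (piC [(nat_lit 35755509), (nat_lit 23968959), (nat_lit 17897616), (nat_lit 12073119)] (nat_lit 22256242)) p13_16_0 (nat_lit 4) (nat_lit 25) (nat_lit 26) = true := by decide +kernel
def p13_16_0_26 : pfC (piC [(nat_lit 35755509), (nat_lit 23968959), (nat_lit 17897616), (nat_lit 12073119)] (nat_lit 22256242)) p13_16_0 (nat_lit 4) (nat_lit 26) (nat_lit 27) = true := by decide +kernel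
def p13_16_0_27 : pfC (piC [(nat_lit 35755509), (nat_lit 23968959), (nat_lit 17897616), (nat_lit 12073119)] (nat_lit 22256242)) p13_16_0 (nat_lit 4) (nat_lit 27) (nat_lit 28) = true := by decide +kernel
def p13_16_0_28 : pfC (piC [(nat_lit 35755509), (nat_lit 23968959), (nat_lit 17897616), (nat_lit 12073119)] (nat_lit 22256242)) p13_16_0 (nat_lit 4) (nat_lit 28) (nat_lit 29) = true := by decide +kernel
def p13_16_0_29 : pfC (piC [(nat_lit 35755509), (nat_lit 23968959), (nat_lit 17897616), (nat_lit 12073119)] (nat_lit 22256242)) p13_16_0 (nat_lit 4) (nat_lit 29) (nat_lit 30) = true := by decide +kernel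
def p13_16_0_30 : pfC (piC [(nat_lit 35755509), (nat_lit 23968959), (nat_lit 17897616), (nat_lit 12073119)] (nat_lit 22256242)) p13_16_0 (nat_lit 4) (nat_lit 30) (nat_lit 31) = true := by decide +kernel
def p13_16_0_31 : pfC (piC [(nat_lit 35755509), (nat_lit 23968959), (nat_lit 17897616), (nat_lit 12073119)] (nat_lit 22256242)) p13_16_0 (nat_lit 4) (nat_lit 31) (nat_lit 32) = true := by decide +kernel
def p13_16_0_32 : pfC (piC [(nat_lit 35755509), (nat_lit 23968959), (nat_lit 17897616), (nat_lit 12073119)] (nat_lit 22256242)) p13_16_0 (nat_lit 4) (nat_lit 32) (nat_lit 33) = true := by decide +kernel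
def p13_16_0_33 : pfC (piC [(nat_lit 35755509), (nat_lit 23968959), (nat_lit 17897616), (nat_lit 12073119)] (nat_lit 22256242)) p13_16_0 (nat_lit 4) (nat_lit 33) (nat_lit 34) = true := by decide +kernel
def p13_16_0_34 : pfC (piC [(nat_lit 35755509), (nat_lit 23968959), (nat_lit 17897616), (nat_lit 12073119)] (nat_lit 22256242)) p13_16_0 (nat_lit 4) (nat_lit 34) (nat_lit 35) = true := by decide +kernel
def p13_16_0_35 : pfC (piC [(nat_lit 35755509), (nat_lit 23968959), (nat_lit 17897616), (nat_lit 12073119)] (nat_lit 22256242)) p13_16_0 (nat_lit 4) (nat_lit 35) (nat_lit 36) = true := by decide +kernel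
def p13_16_0_36 : pfC (piC [(nat_lit 35755509), (nat_lit 23968959), (nat_lit 17897616), (nat_lit 12073119)] (nat_lit 22256242)) p13_16_0 (nat_lit 4) (nat_lit 36) (nat_lit 37) = true := by decide +kernel
def p13_16_0_37 : pfC (piC [(nat_lit 35755509), (nat_lit 23968959), (nat_lit 17897616), (nat_lit 12073119)] (nat_lit 22256242)) p13_16_0 (nat_lit 4) (nat_lit 37) (nat_lit 38) = true := by decide +kernel
def p13_16_0_38 : pfC (piC [(nat_lit 35755509), (nat_lit 23968959), (nat_lit 17897616), (nat_lit 12073119)] (nat_lit 22256242)) p13_16_0 (nat_lit 4) (nat_lit 38) (nat_lit 39) = true := by decide +kernel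
def p13_16_0_39 : pfC (piC [(nat_lit 35755509), (nat_lit 23968959), (nat_lit 17897616), (nat_lit 12073119)] (nat_lit 22256242)) p13_16_0 (nat_lit 4) (nat_lit 39) (nat_lit 40) = true := by decide +kernel
def p13_16_0_40 : pfC (piC [(nat_lit 35755509), (nat_lit 23968959), (nat_lit 17897616), (nat_lit 12073119)] (nat_lit 22256242)) p13_16_0 (nat_lit 4) (nat_lit 40) (nat_lit 41) = true := by decide +kernel
def p13_16_0_41 : pfC (piC [(nat_lit 35755509), (nat_lit 23968959), (nat_lit 17897616), (nat_lit 12073119)] (nat_lit 22256242)) p13_16_0 (nat_lit 4) (nat_lit 41) (nat_lit 42) = true := by decide +kernel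
def p13_16_0_42 : pfC (piC [(nat_lit 35755509), (nat_lit 23968959), (nat_lit 17897616), (nat_lit 12073119)] (nat_lit 22256242)) p13_16_0 (nat_lit 4) (nat_lit 42) (nat_lit 43) = true := by decide +kernel
def p13_16_0_43 : pfC (piC [(nat_lit 35755509), (nat_lit 23968959), (nat_lit 17897616), (nat_lit 12073119)] (nat_lit 22256242)) p13_16_0 (nat_lit 4) (nat_lit 43) (nat_lit 44) = true := by decide +kernel
def p13_16_0_44 : pfC (piC [(nat_lit 35755509), (nat_lit 23968959), (nat_lit 17897616), (nat_lit 12073119)] (nat_lit 22256242)) p13_16_0 (nat_lit 4) (nat_lit 44) (nat_lit 45) = true := by decide +kernel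
def p13_16_0_45 : pfC (piC [(nat_lit 35755509), (nat_lit 23968959), (nat_lit 17897616), (nat_lit 12073119)] (nat_lit 22256242)) p13_16_0 (nat_lit 4) (nat_lit 45) (nat_lit 46) = true := by decide +kernel
def p13_16_0_46 : pfC (piC [(nat_lit 35755509), (nat_lit 23968959), (nat_lit 17897616), (nat_lit 12073119)] (nat_lit 22256242)) p13_16_0 (nat_lit 4) (nat_lit 46) (nat_lit 47) = true := by decide +kernel
def p13_16_0_47 : pfC (piC [(nat_lit 35755509), (nat_lit 23968959), (nat_lit 17897616), (nat_lit 12073119)] (nat_lit 22256242)) p13_16_0 (nat_lit 4) (nat_lit 47) (nat_lit 48) = true := by decide +kernel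
def p13_16_0_48 : pfC (piC [(nat_lit 35755509), (nat_lit 23968959), (nat_lit 17897616), (nat_lit 12073119)] (nat_lit 22256242)) p13_16_0 (nat_lit 4) (nat_lit 48) (nat_lit 49) = true := by decide +kernel
def p13_16_0_49 : pfC (piC [(nat_lit 35755509), (nat_lit 23968959), (nat_lit 17897616), (nat_lit 12073119)] (nat_lit 22256242)) p13_16_0 (nat_lit 4) (nat_lit 49) (nat_lit 50) = true := by decide +kernel
def p13_16_0_50 : pfC (piC [(nat_lit 35755509), (nat_lit 23968959), (nat_lit 17897616), (nat_lit 12073119)] (nat_lit 22256242)) p13_16_0 (nat_lit 4) (nat_lit 50) (nat_lit 51) = true := by decide +kernel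
def p13_16_0_51 : pfC (piC [(nat_lit 35755509), (nat_lit 23968959), (nat_lit 17897616), (nat_lit 12073119)] (nat_lit 22256242)) p13_16_0 (nat_lit 4) (nat_lit 51) (nat_lit 52) = true := by decide +kernel
def p13_16_0_52 : pfC (piC [(nat_lit 35755509), (nat_lit 23968959), (nat_lit 17897616), (nat_lit 12073119)] (nat_lit 22256242)) p13_16_0 (nat_lit 4) (nat_lit 52) (nat_lit 53) = true := by decide +kernel
def p13_16_0_53 : pfC (piC [(nat_lit 35755509), (nat_lit 23968959), (nat_lit 17897616), (nat_lit 12073119)] (nat_lit 22256242)) p13_16_0 (nat_lit 4) (nat_lit 53) (nat_lit 54) = true := by decide +kernel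
def p13_16_0_54 : pfC (piC [(nat_lit 35755509), (nat_lit 23968959), (nat_lit 17897616), (nat_lit 12073119)] (nat_lit 22256242)) p13_16_0 (nat_lit 4) (nat_lit 54) (nat_lit 55) = true := by decide +kernel
def p13_16_0_55 : pfC (piC [(nat_lit 35755509), (nat_lit 23968959), (nat_lit 17897616), (nat_lit 12073119)] (nat_lit 22256242)) p13_16_0 (nat_lit 4) (nat_lit 55) (nat_lit 56) = true := by decide +kernel
def p13_16_0_56 : pfC (piC [(nat_lit 35755509), (nat_lit 23968959), (nat_lit 17897616), (nat_lit 12073119)] (nat_lit 22256242)) p13_16_0 (nat_lit 4) (nat_lit 56) (nat_lit 57) = true := by decide +kernel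
def p13_16_0_57 : pfC (piC [(nat_lit 35755509), (nat_lit 23968959), (nat_lit 17897616), (nat_lit 12073119)] (nat_lit 22256242)) p13_16_0 (nat_lit 4) (nat_lit 57) (nat_lit 58) = true := by decide +kernel
def p13_16_0_58 : pfC (piC [(nat_lit 35755509), (nat_lit 23968959), (nat_lit 17897616), (nat_lit 12073119)] (nat_lit 22256242)) p13_16_0 (nat_lit 4) (nat_lit 58) (nat_lit 59) = true := by decide +kernel
def p13_16_0_59 : pfC (piC [(nat_lit 35755509), (nat_lit 23968959), (nat_lit 17897616), (nat_lit 12073119)] (nat_lit 22256242)) p13_16_0 (nat_lit 4) (nat_lit 59) (nat_lit 60) = true := by decide +kernel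
def p13_16_0_60 : pfC (piC [(nat_lit 35755509), (nat_lit 23968959), (nat_lit 17897616), (nat_lit 12073119)] (nat_lit 22256242)) p13_16_0 (nat_lit 4) (nat_lit 60) (nat_lit 61) = true := by decide +kernel
def p13_16_0_61 : pfC (piC [(nat_lit 35755509), (nat_lit 23968959), (nat_lit 17897616), (nat_lit 12073119)] (nat_lit 22256242)) p13_16_0 (nat_lit 4) (nat_lit 61) (nat_lit 62) = true := by decide +kernel
def p13_16_0_62 : pfC (piC [(nat_lit 35755509), (nat_lit 23968959), (nat_lit 17897616), (nat_lit 12073119)] (nat_lit 22256242)) p13_16_0 (nat_lit 4) (nat_lit 62) (nat_lit 63) = true := by decide +kernel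
def p13_16_0_63 : pfC (piC [(nat_lit 35755509), (nat_lit 23968959), (nat_lit 17897616), (nat_lit 12073119)] (nat_lit 22256242)) p13_16_0 (nat_lit 4) (nat_lit 63) (nat_lit 64) = true := by decide +kernel
def p13_16_0_64 : pfC (piC [(nat_lit 35755509), (nat_lit 23968959), (nat_lit 17897616), (nat_lit 12073119)] (nat_lit 22256242)) p13_16_0 (nat_lit 4) (nat_lit 64) (nat_lit 65) = true := by decide +kernel
def p13_16_0_65 : pfC (piC [(nat_lit 35755509), (nat_lit 23968959), (nat_lit 17897616), (nat_lit 12073119)] (nat_lit 22256242)) p13_16_0 (nat_lit 4) (nat_lit 65) (nat_lit 66) = true := by decide +kernel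
def p13_16_0_66 : pfC (piC [(nat_lit 35755509), (nat_lit 23968959), (nat_lit 17897616), (nat_lit 12073119)] (nat_lit 22256242)) p13_16_0 (nat_lit 4) (nat_lit 66) (nat_lit 67) = true := by decide +kernel
def p13_16_0_67 : pfC (piC [(nat_lit 35755509), (nat_lit 23968959), (nat_lit 17897616), (nat_lit 12073119)] (nat_lit 22256242)) p13_16_0 (nat_lit 4) (nat_lit 67) (nat_lit 68) = true := by decide +kernel
def p13_16_0_68 : pfC (piC [(nat_lit 35755509), (nat_lit 23968959), (nat_lit 17897616), (nat_lit 12073119)] (nat_lit 22256242)) p13_16_0 (nat_lit 4) (nat_lit 68) (nat_lit 69) = true := by decide +kernel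
def p13_16_0_69 : pfC (piC [(nat_lit 35755509), (nat_lit 23968959), (nat_lit 17897616), (nat_lit 12073119)] (nat_lit 22256242)) p13_16_0 (nat_lit 4) (nat_lit 69) (nat_lit 70) = true := by decide +kernel
def p13_16_0_70 : pfC (piC [(nat_lit 35755509), (nat_lit 23968959), (nat_lit 17897616), (nat_lit 12073119)] (nat_lit 22256242)) p13_16_0 (nat_lit 4) (nat_lit 70) (nat_lit 71) = true := by decide +kernel
def p13_16_0_71 : pfC (piC [(nat_lit 35755509), (nat_lit 23968959), (nat_lit 17897616), (nat_lit 12073119)] (nat_lit 22256242)) p13_16_0 (nat_lit 4) (nat_lit 71) (nat_lit 72) = true := by decide +kernel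
def p13_16_0_72 : pfC (piC [(nat_lit 35755509), (nat_lit 23968959), (nat_lit 17897616), (nat_lit 12073119)] (nat_lit 22256242)) p13_16_0 (nat_lit 4) (nat_lit 72) (nat_lit 73) = true := by decide +kernel
def p13_16_0_73 : pfC (piC [(nat_lit 35755509), (nat_lit 23968959), (nat_lit 17897616), (nat_lit 12073119)] (nat_lit 22256242)) p13_16_0 (nat_lit 4) (nat_lit 73) (nat_lit 74) = true := by decide +kernel
def p13_16_0_74 : pfC (piC [(nat_lit 35755509), (nat_lit 23968959), (nat_lit 17897616), (nat_lit 12073119)] (nat_lit 22256242)) p13_16_0 (nat_lit 4) (nat_lit 74) (nat_lit 75) = true := by decide +kernel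
def p13_16_0_75 : pfC (piC [(nat_lit 35755509), (nat_lit 23968959), (nat_lit 17897616), (nat_lit 12073119)] (nat_lit 22256242)) p13_16_0 (nat_lit 4) (nat_lit 75) (nat_lit 76) = true := by decide +kernel
def p13_16_0_76 : pfC (piC [(nat_lit 35755509), (nat_lit 23968959), (nat_lit 17897616), (nat_lit 12073119)] (nat_lit 22256242)) p13_16_0 (nat_lit 4) (nat_lit 76) (nat_lit 77) = true := by decide +kernel
def p13_16_0_77 : pfC (piC [(nat_lit 35755509), (nat_lit 23968959), (nat_lit 17897616), (nat_lit 12073119)] (nat_lit 22256242)) p13_16_0 (nat_lit 4) (nat_lit 77) (nat_lit 78) = true := by decide +kernel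
def p13_16_0_78 : pfC (piC [(nat_lit 35755509), (nat_lit 23968959), (nat_lit 17897616), (nat_lit 12073119)] (nat_lit 22256242)) p13_16_0 (nat_lit 4) (nat_lit 78) (nat_lit 79) = true := by decide +kernel
def p13_16_0_79 : pfC (piC [(nat_lit 35755509), (nat_lit 23968959), (nat_lit 17897616), (nat_lit 12073119)] (nat_lit 22256242)) p13_16_0 (nat_lit 4) (nat_lit 79) (nat_lit 80) = true := by decide +kernel
def p13_16_0_80 : pfC (piC [(nat_lit 35755509), (nat_lit 23968959), (nat_lit 17897616), (nat_lit 12073119)] (nat_lit 22256242)) p13_16_0 (nat_lit 4) (nat_lit 80) (nat_lit 81) = true := by decide +kernel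
def p13_16_0_81 : pfC (piC [(nat_lit 35755509), (nat_lit 23968959), (nat_lit 17897616), (nat_lit 12073119)] (nat_lit 22256242)) p13_16_0 (nat_lit 4) (nat_lit 81) (nat_lit 82) = true := by decide +kernel
def p13_16_0_82 : pfC (piC [(nat_lit 35755509), (nat_lit 23968959), (nat_lit 17897616), (nat_lit 12073119)] (nat_lit 22256242)) p13_16_0 (nat_lit 4) (nat_lit 82) (nat_lit 83) = true := by decide +kernel
def p13_16_0_83 : pfC (piC [(nat_lit 35755509), (nat_lit 23968959), (nat_lit 17897616), (nat_lit 12073119)] (nat_lit 22256242)) p13_16_0 (nat_lit 4) (nat_lit 83) (nat_lit 84) = true := by decide +kernel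
def p13_16_0_84 : pfC (piC [(nat_lit 35755509), (nat_lit 23968959), (nat_lit 17897616), (nat_lit 12073119)] (nat_lit 22256242)) p13_16_0 (nat_lit 4) (nat_lit 84) (nat_lit 85) = true := by decide +kernel
def p13_16_0_85 : pfC (piC [(nat_lit 35755509), (nat_lit 23968959), (nat_lit 17897616), (nat_lit 12073119)] (nat_lit 22256242)) p13_16_0 (nat_lit 4) (nat_lit 85) (nat_lit 86) = true := by decide +kernel
def p13_16_0_86 : pfC (piC [(nat_lit 35755509), (nat_lit 23968959), (nat_lit 17897616), (nat_lit 12073119)] (nat_lit 22256242)) p13_16_0 (nat_lit 4) (nat_lit 86) (nat_lit 87) = true := by decide +kernel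
def p13_16_0_87 : pfC (piC [(nat_lit 35755509), (nat_lit 23968959), (nat_lit 17897616), (nat_lit 12073119)] (nat_lit 22256242)) p13_16_0 (nat_lit 4) (nat_lit 87) (nat_lit 88) = true := by decide +kernel
def p13_16_0_88 : pfC (piC [(nat_lit 35755509), (nat_lit 23968959), (nat_lit 17897616), (nat_lit 12073119)] (nat_lit 22256242)) p13_16_0 (nat_lit 4) (nat_lit 88) (nat_lit 89) = true := by decide +kernel
def p13_16_0_89 : pfC (piC [(nat_lit 35755509), (nat_lit 23968959), (nat_lit 17897616), (nat_lit 12073119)] (nat_lit 22256242)) p13_16_0 (nat_lit 4) (nat_lit 89) (nat_lit 90) = true := by decide +kernel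
def p13_16_0_90 : pfC (piC [(nat_lit 35755509), (nat_lit 23968959), (nat_lit 17897616), (nat_lit 12073119)] (nat_lit 22256242)) p13_16_0 (nat_lit 4) (nat_lit 90) (nat_lit 91) = true := by decide +kernel
def p13_16_0_91 : pfC (piC [(nat_lit 35755509), (nat_lit 23968959), (nat_lit 17897616), (nat_lit 12073119)] (nat_lit 22256242)) p13_16_0 (nat_lit 4) (nat_lit 91) (nat_lit 92) = true := by decide +kernel
def p13_16_0_92 : pfC (piC [(nat_lit 35755509), (nat_lit 23968959), (nat_lit 17897616), (nat_lit 12073119)] (nat_lit 22256242)) p13_16_0 (nat_lit 4) (nat_lit 92) (nat_lit 93) = true := by decide +kernel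
def p13_16_0_93 : pfC (piC [(nat_lit 35755509), (nat_lit 23968959), (nat_lit 17897616), (nat_lit 12073119)] (nat_lit 22256242)) p13_16_0 (nat_lit 4) (nat_lit 93) (nat_lit 94) = true := by decide +kernel
def p13_16_0_94 : pfC (piC [(nat_lit 35755509), (nat_lit 23968959), (nat_lit 17897616), (nat_lit 12073119)] (nat_lit 22256242)) p13_16_0 (nat_lit 4) (nat_lit 94) (nat_lit 95) = true := by decide +kernel
def p13_16_0_95 : pfC (piC [(nat_lit 35755509), (nat_lit 23968959), (nat_lit 17897616), (nat_lit 12073119)] (nat_lit 22256242)) p13_16_0 (nat_lit 4) (nat_lit 95) (nat_lit 96) = true := by decide +kernel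
def p13_16_0_96 : pfC (piC [(nat_lit 35755509), (nat_lit 23968959), (nat_lit 17897616), (nat_lit 12073119)] (nat_lit 22256242)) p13_16_0 (nat_lit 4) (nat_lit 96) (nat_lit 97) = true := by decide +kernel
def p13_16_0_97 : pfC (piC [(nat_lit 35755509), (nat_lit 23968959), (nat_lit 17897616), (nat_lit 12073119)] (nat_lit 22256242)) p13_16_0 (nat_lit 4) (nat_lit 97) (nat_lit 98) = true := by decide +kernel
def p13_16_0_98 : pfC (piC [(nat_lit 35755509), (nat_lit 23968959), (nat_lit 17897616), (nat_lit 12073119)] (nat_lit 22256242)) p13_16_0 (nat_lit 4) (nat_lit 98) (nat_lit 99) = true := by decide +kernel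
def p13_16_0_99 : pfC (piC [(nat_lit 35755509), (nat_lit 23968959), (nat_lit 17897616), (nat_lit 12073119)] (nat_lit 22256242)) p13_16_0 (nat_lit 4) (nat_lit 99) (nat_lit 100) = true := by decide +kernel
def p13_16_0_100 : pfC (piC [(nat_lit 35755509), (nat_lit 23968959), (nat_lit 17897616), (nat_lit 12073119)] (nat_lit 22256242)) p13_16_0 (nat_lit 4) (nat_lit 100) (nat_lit 101) = true := by decide +kernel
def p13_16_0_101 : pfC (piC [(nat_lit 35755509), (nat_lit 23968959), (nat_lit 17897616), (nat_lit 12073119)] (nat_lit 22256242)) p13_16_0 (nat_lit 4) (nat_lit 101) (nat_lit 102) = true := by decide +kernel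
def p13_16_0_102 : pfC (piC [(nat_lit 35755509), (nat_lit 23968959), (nat_lit 17897616), (nat_lit 12073119)] (nat_lit 22256242)) p13_16_0 (nat_lit 4) (nat_lit 102) (nat_lit 103) = true := by decide +kernel
def p13_16_0_103 : pfC (piC [(nat_lit 35755509), (nat_lit 23968959), (nat_lit 17897616), (nat_lit 12073119)] (nat_lit 22256242)) p13_16_0 (nat_lit 4) (nat_lit 103) (nat_lit 104) = true := by decide +kernel
def p13_16_0_104 : pfC (piC [(nat_lit 35755509), (nat_lit 23968959), (nat_lit 17897616), (nat_lit 12073119)] (nat_lit 22256242)) p13_16_0 (nat_lit 4) (nat_lit 104) (nat_lit 105) = true := by decide +kernel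
def p13_16_0_105 : pfC (piC [(nat_lit 35755509), (nat_lit 23968959), (nat_lit 17897616), (nat_lit 12073119)] (nat_lit 22256242)) p13_16_0 (nat_lit 4) (nat_lit 105) (nat_lit 106) = true := by decide +kernel
def p13_16_0_106 : pfC (piC [(nat_lit 35755509), (nat_lit 23968959), (nat_lit 17897616), (nat_lit 12073119)] (nat_lit 22256242)) p13_16_0 (nat_lit 4) (nat_lit 106) (nat_lit 107) = true := by decide +kernel
def p13_16_0_107 : pfC (piC [(nat_lit 35755509), (nat_lit 23968959), (nat_lit 17897616), (nat_lit 12073119)] (nat_lit 22256242)) p13_16_0 (nat_lit 4) (nat_lit 107) (nat_lit 108) = true := by decide +kernel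
def p13_16_0_108 : pfC (piC [(nat_lit 35755509), (nat_lit 23968959), (nat_lit 17897616), (nat_lit 12073119)] (nat_lit 22256242)) p13_16_0 (nat_lit 4) (nat_lit 108) (nat_lit 109) = true := by decide +kernel
def p13_16_0_109 : pfC (piC [(nat_lit 35755509), (nat_lit 23968959), (nat_lit 17897616), (nat_lit 12073119)] (nat_lit 22256242)) p13_16_0 (nat_lit 4) (nat_lit 109) (nat_lit 110) = true := by decide +kernel
def p13_16_0_110 : pfC (piC [(nat_lit 35755509), (nat_lit 23968959), (nat_lit 17897616), (nat_lit 12073119)] (nat_lit 22256242)) p13_16_0 (nat_lit 4) (nat_lit 110) (nat_lit 111) = true := by decide +kernel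
def p13_16_0_111 : pfC (piC [(nat_lit 35755509), (nat_lit 23968959), (nat_lit 17897616), (nat_lit 12073119)] (nat_lit 22256242)) p13_16_0 (nat_lit 4) (nat_lit 111) (nat_lit 112) = true := by decide +kernel
def p13_16_0_112 : pfC (piC [(nat_lit 35755509), (nat_lit 23968959), (nat_lit 17897616), (nat_lit 12073119)] (nat_lit 22256242)) p13_16_0 (nat_lit 4) (nat_lit 112) (nat_lit 113) = true := by decide +kernel
def p13_16_0_113 : pfC (piC [(nat_lit 35755509), (nat_lit 23968959), (nat_lit 17897616), (nat_lit 12073119)] (nat_lit 22256242)) p13_16_0 (nat_lit 4) (nat_lit 113) (nat_lit 114) = true := by decide +kernel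
def p13_16_0_114 : pfC (piC [(nat_lit 35755509), (nat_lit 23968959), (nat_lit 17897616), (nat_lit 12073119)] (nat_lit 22256242)) p13_16_0 (nat_lit 4) (nat_lit 114) (nat_lit 115) = true := by decide +kernel
def p13_16_0_115 : pfC (piC [(nat_lit 35755509), (nat_lit 23968959), (nat_lit 17897616), (nat_lit 12073119)] (nat_lit 22256242)) p13_16_0 (nat_lit 4) (nat_lit 115) (nat_lit 116) = true := by decide +kernel
def p13_16_0_116 : pfC (piC [(nat_lit 35755509), (nat_lit 23968959), (nat_lit 17897616), (nat_lit 12073119)] (nat_lit 22256242)) p13_16_0 (nat_lit 4) (nat_lit 116) (nat_lit 117) = true := by decide +kernel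
def p13_16_0_117 : pfC (piC [(nat_lit 35755509), (nat_lit 23968959), (nat_lit 17897616), (nat_lit 12073119)] (nat_lit 22256242)) p13_16_0 (nat_lit 4) (nat_lit 117) (nat_lit 118) = true := by decide +kernel
def p13_16_0_118 : pfC (piC [(nat_lit 35755509), (nat_lit 23968959), (nat_lit 17897616), (nat_lit 12073119)] (nat_lit 22256242)) p13_16_0 (nat_lit 4) (nat_lit 118) (nat_lit 119) = true := by decide +kernel
def p13_16_0_119 : pfC (piC [(nat_lit 35755509), (nat_lit 23968959), (nat_lit 17897616), (nat_lit 12073119)] (nat_lit 22256242)) p13_16_0 (nat_lit 4) (nat_lit 119) (nat_lit 120) = true := by decide +kernel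
def p13_16_0_120 : pfC (piC [(nat_lit 35755509), (nat_lit 23968959), (nat_lit 17897616), (nat_lit 12073119)] (nat_lit 22256242)) p13_16_0 (nat_lit 4) (nat_lit 120) (nat_lit 121) = true := by decide +kernel
def p13_16_0_121 : pfC (piC [(nat_lit 35755509), (nat_lit 23968959), (nat_lit 17897616), (nat_lit 12073119)] (nat_lit 22256242)) p13_16_0 (nat_lit 4) (nat_lit 121) (nat_lit 122) = true := by decide +kernel
def p13_16_0_122 : pfC (piC [(nat_lit 35755509), (nat_lit 23968959), (nat_lit 17897616), (nat_lit 12073119)] (nat_lit 22256242)) p13_16_0 (nat_lit 4) (nat_lit 122) (nat_lit 123) = true := by decide +kernel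
def p13_16_0_123 : pfC (piC [(nat_lit 35755509), (nat_lit 23968959), (nat_lit 17897616), (nat_lit 12073119)] (nat_lit 22256242)) p13_16_0 (nat_lit 4) (nat_lit 123) (nat_lit 124) = true := by decide +kernel
def p13_16_0_124 : pfC (piC [(nat_lit 35755509), (nat_lit 23968959), (nat_lit 17897616), (nat_lit 12073119)] (nat_lit 22256242)) p13_16_0 (nat_lit 4) (nat_lit 124) (nat_lit 125) = true := by decide +kernel
def p13_16_0_125 : pfC (piC [(nat_lit 35755509), (nat_lit 23968959), (nat_lit 17897616), (nat_lit 12073119)] (nat_lit 22256242)) p13_16_0 (nat_lit 4) (nat_lit 125) (nat_lit 126) = true := by decide +kernel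
def p13_16_0_126 : pfC (piC [(nat_lit 35755509), (nat_lit 23968959), (nat_lit 17897616), (nat_lit 12073119)] (nat_lit 22256242)) p13_16_0 (nat_lit 4) (nat_lit 126) (nat_lit 127) = true := by decide +kernel
def p13_16_0_127 : pfC (piC [(nat_lit 35755509), (nat_lit 23968959), (nat_lit 17897616), (nat_lit 12073119)] (nat_lit 22256242)) p13_16_0 (nat_lit 4) (nat_lit 127) (nat_lit 128) = true := by decide +kernel
def p13_16_0_128 : pfC (piC [(nat_lit 35755509), (nat_lit 23968959), (nat_lit 17897616), (nat_lit 12073119)] (nat_lit 22256242)) p13_16_0 (nat_lit 4) (nat_lit 128) (nat_lit 129) = true := by decide +kernel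
def p13_16_0_129 : pfC (piC [(nat_lit 35755509), (nat_lit 23968959), (nat_lit 17897616), (nat_lit 12073119)] (nat_lit 22256242)) p13_16_0 (nat_lit 4) (nat_lit 129) (nat_lit 130) = true := by decide +kernel
def p13_16_0_130 : pfC (piC [(nat_lit 35755509), (nat_lit 23968959), (nat_lit 17897616), (nat_lit 12073119)] (nat_lit 22256242)) p13_16_0 (nat_lit 4) (nat_lit 130) (nat_lit 131) = true := by decide +kernel
def p13_16_0_131 : pfC (piC [(nat_lit 35755509), (nat_lit 23968959), (nat_lit 17897616), (nat_lit 12073119)] (nat_lit 22256242)) p13_16_0 (nat_lit 4) (nat_lit 131) (nat_lit 132) = true := by decide +kernel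
def p13_16_0_132 : pfC (piC [(nat_lit 35755509), (nat_lit 23968959), (nat_lit 17897616), (nat_lit 12073119)] (nat_lit 22256242)) p13_16_0 (nat_lit 4) (nat_lit 132) (nat_lit 133) = true := by decide +kernel
def p13_16_0_133 : pfC (piC [(nat_lit 35755509), (nat_lit 23968959), (nat_lit 17897616), (nat_lit 12073119)] (nat_lit 22256242)) p13_16_0 (nat_lit 4) (nat_lit 133) (nat_lit 134) = true := by decide +kernel
def p13_16_0_134 : pfC (piC [(nat_lit 35755509), (nat_lit 23968959), (nat_lit 17897616), (nat_lit 12073119)] (nat_lit 22256242)) p13_16_0 (nat_lit 4) (nat_lit 134) (nat_lit 135) = true := by decide +kernel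
def p13_16_0_135 : pfC (piC [(nat_lit 35755509), (nat_lit 23968959), (nat_lit 17897616), (nat_lit 12073119)] (nat_lit 22256242)) p13_16_0 (nat_lit 4) (nat_lit 135) (nat_lit 136) = true := by decide +kernel
def p13_16_0_136 : pfC (piC [(nat_lit 35755509), (nat_lit 23968959), (nat_lit 17897616), (nat_lit 12073119)] (nat_lit 22256242)) p13_16_0 (nat_lit 4) (nat_lit 136) (nat_lit 137) = true := by decide +kernel
def p13_16_0_137 : pfC (piC [(nat_lit 35755509), (nat_lit 23968959), (nat_lit 17897616), (nat_lit 12073119)] (nat_lit 22256242)) p13_16_0 (nat_lit 4) (nat_lit 137) (nat_lit 138) = true := by decide +kernel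
def p13_16_0_138 : pfC (piC [(nat_lit 35755509), (nat_lit 23968959), (nat_lit 17897616), (nat_lit 12073119)] (nat_lit 22256242)) p13_16_0 (nat_lit 4) (nat_lit 138) (nat_lit 139) = true := by decide +kernel
def p13_16_0_139 : pfC (piC [(nat_lit 35755509), (nat_lit 23968959), (nat_lit 17897616), (nat_lit 12073119)] (nat_lit 22256242)) p13_16_0 (nat_lit 4) (nat_lit 139) (nat_lit 140) = true := by decide +kernel
def p13_16_0_140 : pfC (piC [(nat_lit 35755509), (nat_lit 23968959), (nat_lit 17897616), (nat_lit 12073119)] (nat_lit 22256242)) p13_16_0 (nat_lit 4) (nat_lit 140) (nat_lit 141) = true := by decide +kernel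
def p13_16_0_141 : pfC (piC [(nat_lit 35755509), (nat_lit 23968959), (nat_lit 17897616), (nat_lit 12073119)] (nat_lit 22256242)) p13_16_0 (nat_lit 4) (nat_lit 141) (nat_lit 142) = true := by decide +kernel
def p13_16_0_142 : pfC (piC [(nat_lit 35755509), (nat_lit 23968959), (nat_lit 17897616), (nat_lit 12073119)] (nat_lit 22256242)) p13_16_0 (nat_lit 4) (nat_lit 142) (nat_lit 143) = true := by decide +kernel
def p13_16_0_143 : pfC (piC [(nat_lit 35755509), (nat_lit 23968959), (nat_lit 17897616), (nat_lit 12073119)] (nat_lit 22256242)) p13_16_0 (nat_lit 4) (nat_lit 143) (nat_lit 144) = true := by decide +kernel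
def p13_16_0_144 : pfC (piC [(nat_lit 35755509), (nat_lit 23968959), (nat_lit 17897616), (nat_lit 12073119)] (nat_lit 22256242)) p13_16_0 (nat_lit 4) (nat_lit 144) (nat_lit 145) = true := by decide +kernel
def p13_16_0_145 : pfC (piC [(nat_lit 35755509), (nat_lit 23968959), (nat_lit 17897616), (nat_lit 12073119)] (nat_lit 22256242)) p13_16_0 (nat_lit 4) (nat_lit 145) (nat_lit 146) = true := by decide +kernel
def p13_16_0_146 : pfC (piC [(nat_lit 35755509), (nat_lit 23968959), (nat_lit 17897616), (nat_lit 12073119)] (nat_lit 22256242)) p13_16_0 (nat_lit 4) (nat_lit 146) (nat_lit 147) = true := by decide +kernel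
def p13_16_0_147 : pfC (piC [(nat_lit 35755509), (nat_lit 23968959), (nat_lit 17897616), (nat_lit 12073119)] (nat_lit 22256242)) p13_16_0 (nat_lit 4) (nat_lit 147) (nat_lit 148) = true := by decide +kernel
def p13_16_0_148 : pfC (piC [(nat_lit 35755509), (nat_lit 23968959), (nat_lit 17897616), (nat_lit 12073119)] (nat_lit 22256242)) p13_16_0 (nat_lit 4) (nat_lit 148) (nat_lit 149) = true := by decide +kernel
def p13_16_0_149 : pfC (piC [(nat_lit 35755509), (nat_lit 23968959), (nat_lit 17897616), (nat_lit 12073119)] (nat_lit 22256242)) p13_16_0 (nat_lit 4) (nat_lit 149) (nat_lit 150) = true := by decide +kernel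
def p13_16_0_150 : pfC (piC [(nat_lit 35755509), (nat_lit 23968959), (nat_lit 17897616), (nat_lit 12073119)] (nat_lit 22256242)) p13_16_0 (nat_lit 4) (nat_lit 150) (nat_lit 151) = true := by decide +kernel
def p13_16_0_151 : pfC (piC [(nat_lit 35755509), (nat_lit 23968959), (nat_lit 17897616), (nat_lit 12073119)] (nat_lit 22256242)) p13_16_0 (nat_lit 4) (nat_lit 151) (nat_lit 152) = true := by decide +kernel
def p13_16_0_152 : pfC (piC [(nat_lit 35755509), (nat_lit 23968959), (nat_lit 17897616), (nat_lit 12073119)] (nat_lit 22256242)) p13_16_0 (nat_lit 4) (nat_lit 152) (nat_lit 153) = true := by decide +kernel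
def p13_16_0_153 : pfC (piC [(nat_lit 35755509), (nat_lit 23968959), (nat_lit 17897616), (nat_lit 12073119)] (nat_lit 22256242)) p13_16_0 (nat_lit 4) (nat_lit 153) (nat_lit 154) = true := by decide +kernel
def p13_16_0_154 : pfC (piC [(nat_lit 35755509), (nat_lit 23968959), (nat_lit 17897616), (nat_lit 12073119)] (nat_lit 22256242)) p13_16_0 (nat_lit 4) (nat_lit 154) (nat_lit 155) = true := by decide +kernel
def p13_16_0_155 : pfC (piC [(nat_lit 35755509), (nat_lit 23968959), (nat_lit 17897616), (nat_lit 12073119)] (nat_lit 22256242)) p13_16_0 (nat_lit 4) (nat_lit 155) (nat_lit 156) = true := by decide +kernel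
def p13_16_0_156 : pfC (piC [(nat_lit 35755509), (nat_lit 23968959), (nat_lit 17897616), (nat_lit 12073119)] (nat_lit 22256242)) p13_16_0 (nat_lit 4) (nat_lit 156) (nat_lit 157) = true := by decide +kernel
def p13_16_0_157 : pfC (piC [(nat_lit 35755509), (nat_lit 23968959), (nat_lit 17897616), (nat_lit 12073119)] (nat_lit 22256242)) p13_16_0 (nat_lit 4) (nat_lit 157) (nat_lit 158) = true := by decide +kernel
def p13_16_0_158 : pfC (piC [(nat_lit 35755509), (nat_lit 23968959), (nat_lit 17897616), (nat_lit 12073119)] (nat_lit 22256242)) p13_16_0 (nat_lit 4) (nat_lit 158) (nat_lit 159) = true := by decide +kernel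
def p13_16_0_159 : pfC (piC [(nat_lit 35755509), (nat_lit 23968959), (nat_lit 17897616), (nat_lit 12073119)] (nat_lit 22256242)) p13_16_0 (nat_lit 4) (nat_lit 159) (nat_lit 160) = true := by decide +kernel
def p13_16_0_160 : pfC (piC [(nat_lit 35755509), (nat_lit 23968959), (nat_lit 17897616), (nat_lit 12073119)] (nat_lit 22256242)) p13_16_0 (nat_lit 4) (nat_lit 160) (nat_lit 161) = true := by decide +kernel
def p13_16_0_161 : pfC (piC [(nat_lit 35755509), (nat_lit 23968959), (nat_lit 17897616), (nat_lit 12073119)] (nat_lit 22256242)) p13_16_0 (nat_lit 4) (nat_lit 161) (nat_lit 162) = true := by decide +kernel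
def p13_16_0_162 : pfC (piC [(nat_lit 35755509), (nat_lit 23968959), (nat_lit 17897616), (nat_lit 12073119)] (nat_lit 22256242)) p13_16_0 (nat_lit 4) (nat_lit 162) (nat_lit 163) = true := by decide +kernel
def p13_16_0_163 : pfC (piC [(nat_lit 35755509), (nat_lit 23968959), (nat_lit 17897616), (nat_lit 12073119)] (nat_lit 22256242)) p13_16_0 (nat_lit 4) (nat_lit 163) (nat_lit 164) = true := by decide +kernel
def p13_16_0_164 : pfC (piC [(nat_lit 35755509), (nat_lit 23968959), (nat_lit 17897616), (nat_lit 12073119)] (nat_lit 22256242)) p13_16_0 (nat_lit 4) (nat_lit 164) (nat_lit 165) = true := by decide +kernel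
def p13_16_0_165 : pfC (piC [(nat_lit 35755509), (nat_lit 23968959), (nat_lit 17897616), (nat_lit 12073119)] (nat_lit 22256242)) p13_16_0 (nat_lit 4) (nat_lit 165) (nat_lit 166) = true := by decide +kernel
def p13_16_0_166 : pfC (piC [(nat_lit 35755509), (nat_lit 23968959), (nat_lit 17897616), (nat_lit 12073119)] (nat_lit 22256242)) p13_16_0 (nat_lit 4) (nat_lit 166) (nat_lit 167) = true := by decide +kernel
def p13_16_0_167 : pfC (piC [(nat_lit 35755509), (nat_lit 23968959), (nat_lit 17897616), (nat_lit 12073119)] (nat_lit 22256242)) p13_16_0 (nat_lit 4) (nat_lit 167) (nat_lit 168) = true := by decide +kernel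
def p13_16_0_168 : pfC (piC [(nat_lit 35755509), (nat_lit 23968959), (nat_lit 17897616), (nat_lit 12073119)] (nat_lit 22256242)) p13_16_0 (nat_lit 4) (nat_lit 168) (nat_lit 169) = true := by decide +kernel
def p13_16_0_169 : pfC (piC [(nat_lit 35755509), (nat_lit 23968959), (nat_lit 17897616), (nat_lit 12073119)] (nat_lit 22256242)) p13_16_0 (nat_lit 4) (nat_lit 169) (nat_lit 170) = true := by decide +kernel
def p13_16_0_170 : pfC (piC [(nat_lit 35755509), (nat_lit 23968959), (nat_lit 17897616), (nat_lit 12073119)] (nat_lit 22256242)) p13_16_0 (nat_lit 4) (nat_lit 170) (nat_lit 171) = true := by decide +kernel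
def p13_16_0_171 : pfC (piC [(nat_lit 35755509), (nat_lit 23968959), (nat_lit 17897616), (nat_lit 12073119)] (nat_lit 22256242)) p13_16_0 (nat_lit 4) (nat_lit 171) (nat_lit 172) = true := by decide +kernel
def p13_16_0_172 : pfC (piC [(nat_lit 35755509), (nat_lit 23968959), (nat_lit 17897616), (nat_lit 12073119)] (nat_lit 22256242)) p13_16_0 (nat_lit 4) (nat_lit 172) (nat_lit 173) = true := by decide +kernel
def p13_16_0_173 : pfC (piC [(nat_lit 35755509), (nat_lit 23968959), (nat_lit 17897616), (nat_lit 12073119)] (nat_lit 22256242)) p13_16_0 (nat_lit 4) (nat_lit 173) (nat_lit 174) = true := by decide +kernel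
def p13_16_0_174 : pfC (piC [(nat_lit 35755509), (nat_lit 23968959), (nat_lit 17897616), (nat_lit 12073119)] (nat_lit 22256242)) p13_16_0 (nat_lit 4) (nat_lit 174) (nat_lit 175) = true := by decide +kernel
def p13_16_0_175 : pfC (piC [(nat_lit 35755509), (nat_lit 23968959), (nat_lit 17897616), (nat_lit 12073119)] (nat_lit 22256242)) p13_16_0 (nat_lit 4) (nat_lit 175) (nat_lit 176) = true := by decide +kernel
def p13_16_0_176 : pfC (piC [(nat_lit 35755509), (nat_lit 23968959), (nat_lit 17897616), (nat_lit 12073119)] (nat_lit 22256242)) p13_16_0 (nat_lit 4) (nat_lit 176) (nat_lit 177) = true := by decide +kernel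
def p13_16_0_177 : pfC (piC [(nat_lit 35755509), (nat_lit 23968959), (nat_lit 17897616), (nat_lit 12073119)] (nat_lit 22256242)) p13_16_0 (nat_lit 4) (nat_lit 177) (nat_lit 178) = true := by decide +kernel
def p13_16_0_178 : pfC (piC [(nat_lit 35755509), (nat_lit 23968959), (nat_lit 17897616), (nat_lit 12073119)] (nat_lit 22256242)) p13_16_0 (nat_lit 4) (nat_lit 178) (nat_lit 179) = true := by decide +kernel
def p13_16_0_179 : pfC (piC [(nat_lit 35755509), (nat_lit 23968959), (nat_lit 17897616), (nat_lit 12073119)] (nat_lit 22256242)) p13_16_0 (nat_lit 4) (nat_lit 179) (nat_lit 180) = true := by decide +kernel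
def p13_16_0_180 : pfC (piC [(nat_lit 35755509), (nat_lit 23968959), (nat_lit 17897616), (nat_lit 12073119)] (nat_lit 22256242)) p13_16_0 (nat_lit 4) (nat_lit 180) (nat_lit 181) = true := by decide +kernel
def p13_16_0_181 : pfC (piC [(nat_lit 35755509), (nat_lit 23968959), (nat_lit 17897616), (nat_lit 12073119)] (nat_lit 22256242)) p13_16_0 (nat_lit 4) (nat_lit 181) (nat_lit 182) = true := by decide +kernel
def p13_16_0_182 : pfC (piC [(nat_lit 35755509), (nat_lit 23968959), (nat_lit 17897616), (nat_lit 12073119)] (nat_lit 22256242)) p13_16_0 (nat_lit 4) (nat_lit 182) (nat_lit 183) = true := by decide +kernel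
def p13_16_0_183 : pfC (piC [(nat_lit 35755509), (nat_lit 23968959), (nat_lit 17897616), (nat_lit 12073119)] (nat_lit 22256242)) p13_16_0 (nat_lit 4) (nat_lit 183) (nat_lit 184) = true := by decide +kernel
def p13_16_0_184 : pfC (piC [(nat_lit 35755509), (nat_lit 23968959), (nat_lit 17897616), (nat_lit 12073119)] (nat_lit 22256242)) p13_16_0 (nat_lit 4) (nat_lit 184) (nat_lit 185) = true := by decide +kernel
def p13_16_0_185 : pfC (piC [(nat_lit 35755509), (nat_lit 23968959), (nat_lit 17897616), (nat_lit 12073119)] (nat_lit 22256242)) p13_16_0 (nat_lit 4) (nat_lit 185) (nat_lit 186) = true := by decide +kernel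
def p13_16_0_186 : pfC (piC [(nat_lit 35755509), (nat_lit 23968959), (nat_lit 17897616), (nat_lit 12073119)] (nat_lit 22256242)) p13_16_0 (nat_lit 4) (nat_lit 186) (nat_lit 187) = true := by decide +kernel
def p13_16_0_187 : pfC (piC [(nat_lit 35755509), (nat_lit 23968959), (nat_lit 17897616), (nat_lit 12073119)] (nat_lit 22256242)) p13_16_0 (nat_lit 4) (nat_lit 187) (nat_lit 188) = true := by decide +kernel
def p13_16_0_188 : pfC (piC [(nat_lit 35755509), (nat_lit 23968959), (nat_lit 17897616), (nat_lit 12073119)] (nat_lit 22256242)) p13_16_0 (nat_lit 4) (nat_lit 188) (nat_lit 189) = true := by decide +kernel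
def p13_16_0_189 : pfC (piC [(nat_lit 35755509), (nat_lit 23968959), (nat_lit 17897616), (nat_lit 12073119)] (nat_lit 22256242)) p13_16_0 (nat_lit 4) (nat_lit 189) (nat_lit 190) = true := by decide +kernel
def p13_16_0_190 : pfC (piC [(nat_lit 35755509), (nat_lit 23968959), (nat_lit 17897616), (nat_lit 12073119)] (nat_lit 22256242)) p13_16_0 (nat_lit 4) (nat_lit 190) (nat_lit 191) = true := by decide +kernel
def p13_16_0_191 : pfC (piC [(nat_lit 35755509), (nat_lit 23968959), (nat_lit 17897616), (nat_lit 12073119)] (nat_lit 22256242)) p13_16_0 (nat_lit 4) (nat_lit 191) (nat_lit 192) = true := by decide +kernel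
def p13_16_0_192 : pfC (piC [(nat_lit 35755509), (nat_lit 23968959), (nat_lit 17897616), (nat_lit 12073119)] (nat_lit 22256242)) p13_16_0 (nat_lit 4) (nat_lit 192) (nat_lit 193) = true := by decide +kernel
def p13_16_0_193 : pfC (piC [(nat_lit 35755509), (nat_lit 23968959), (nat_lit 17897616), (nat_lit 12073119)] (nat_lit 22256242)) p13_16_0 (nat_lit 4) (nat_lit 193) (nat_lit 194) = true := by decide +kernel
def p13_16_0_194 : pfC (piC [(nat_lit 35755509), (nat_lit 23968959), (nat_lit 17897616), (nat_lit 12073119)] (nat_lit 22256242)) p13_16_0 (nat_lit 4) (nat_lit 194) (nat_lit 195) = true := by decide +kernel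
def p13_16_0_195 : pfC (piC [(nat_lit 35755509), (nat_lit 23968959), (nat_lit 17897616), (nat_lit 12073119)] (nat_lit 22256242)) p13_16_0 (nat_lit 4) (nat_lit 195) (nat_lit 196) = true := by decide +kernel
def p13_16_0_196 : pfC (piC [(nat_lit 35755509), (nat_lit 23968959), (nat_lit 17897616), (nat_lit 12073119)] (nat_lit 22256242)) p13_16_0 (nat_lit 4) (nat_lit 196) (nat_lit 197) = true := by decide +kernel
def p13_16_0_197 : pfC (piC [(nat_lit 35755509), (nat_lit 23968959), (nat_lit 17897616), (nat_lit 12073119)] (nat_lit 22256242)) p13_16_0 (nat_lit 4) (nat_lit 197) (nat_lit 198) = true := by decide +kernel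
def p13_16_0_198 : pfC (piC [(nat_lit 35755509), (nat_lit 23968959), (nat_lit 17897616), (nat_lit 12073119)] (nat_lit 22256242)) p13_16_0 (nat_lit 4) (nat_lit 198) (nat_lit 199) = true := by decide +kernel
def p13_16_0_199 : pfC (piC [(nat_lit 35755509), (nat_lit 23968959), (nat_lit 17897616), (nat_lit 12073119)] (nat_lit 22256242)) p13_16_0 (nat_lit 4) (nat_lit 199) (nat_lit 200) = true := by decide +kernel
def p13_16_0_200 : pfC (piC [(nat_lit 35755509), (nat_lit 23968959), (nat_lit 17897616), (nat_lit 12073119)] (nat_lit 22256242)) p13_16_0 (nat_lit 4) (nat_lit 200) (nat_lit 201) = true := by decide +kernel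
def p13_16_0_201 : pfC (piC [(nat_lit 35755509), (nat_lit 23968959), (nat_lit 17897616), (nat_lit 12073119)] (nat_lit 22256242)) p13_16_0 (nat_lit 4) (nat_lit 201) (nat_lit 202) = true := by decide +kernel
def p13_16_0_202 : pfC (piC [(nat_lit 35755509), (nat_lit 23968959), (nat_lit 17897616), (nat_lit 12073119)] (nat_lit 22256242)) p13_16_0 (nat_lit 4) (nat_lit 202) (nat_lit 203) = true := by decide +kernel
def p13_16_0_203 : pfC (piC [(nat_lit 35755509), (nat_lit 23968959), (nat_lit 17897616), (nat_lit 12073119)] (nat_lit 22256242)) p13_16_0 (nat_lit 4) (nat_lit 203) (nat_lit 204) = true := by decide +kernel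
def p13_16_0_204 : pfC (piC [(nat_lit 35755509), (nat_lit 23968959), (nat_lit 17897616), (nat_lit 12073119)] (nat_lit 22256242)) p13_16_0 (nat_lit 4) (nat_lit 204) (nat_lit 205) = true := by decide +kernel
def p13_16_0_205 : pfC (piC [(nat_lit 35755509), (nat_lit 23968959), (nat_lit 17897616), (nat_lit 12073119)] (nat_lit 22256242)) p13_16_0 (nat_lit 4) (nat_lit 205) (nat_lit 206) = true := by decide +kernel
def p13_16_0_206 : pfC (piC [(nat_lit 35755509), (nat_lit 23968959), (nat_lit 17897616), (nat_lit 12073119)] (nat_lit 22256242)) p13_16_0 (nat_lit 4) (nat_lit 206) (nat_lit 207) = true := by decide +kernel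
def p13_16_0_207 : pfC (piC [(nat_lit 35755509), (nat_lit 23968959), (nat_lit 17897616), (nat_lit 12073119)] (nat_lit 22256242)) p13_16_0 (nat_lit 4) (nat_lit 207) (nat_lit 208) = true := by decide +kernel
def p13_16_0_208 : pfC (piC [(nat_lit 35755509), (nat_lit 23968959), (nat_lit 17897616), (nat_lit 12073119)] (nat_lit 22256242)) p13_16_0 (nat_lit 4) (nat_lit 208) (nat_lit 209) = true := by decide +kernel
def p13_16_0_209 : pfC (piC [(nat_lit 35755509), (nat_lit 23968959), (nat_lit 17897616), (nat_lit 12073119)] (nat_lit 22256242)) p13_16_0 (nat_lit 4) (nat_lit 209) (nat_lit 210) = true := by decide +kernel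
def p13_16_0_210 : pfC (piC [(nat_lit 35755509), (nat_lit 23968959), (nat_lit 17897616), (nat_lit 12073119)] (nat_lit 22256242)) p13_16_0 (nat_lit 4) (nat_lit 210) (nat_lit 211) = true := by decide +kernel
def p13_16_0_211 : pfC (piC [(nat_lit 35755509), (nat_lit 23968959), (nat_lit 17897616), (nat_lit 12073119)] (nat_lit 22256242)) p13_16_0 (nat_lit 4) (nat_lit 211) (nat_lit 212) = true := by decide +kernel
def p13_16_0_212 : pfC (piC [(nat_lit 35755509), (nat_lit 23968959), (nat_lit 17897616), (nat_lit 12073119)] (nat_lit 22256242)) p13_16_0 (nat_lit 4) (nat_lit 212) (nat_lit 213) = true := by decide +kernel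
def p13_16_0_213 : pfC (piC [(nat_lit 35755509), (nat_lit 23968959), (nat_lit 17897616), (nat_lit 12073119)] (nat_lit 22256242)) p13_16_0 (nat_lit 4) (nat_lit 213) (nat_lit 214) = true := by decide +kernel
def p13_16_0_214 : pfC (piC [(nat_lit 35755509), (nat_lit 23968959), (nat_lit 17897616), (nat_lit 12073119)] (nat_lit 22256242)) p13_16_0 (nat_lit 4) (nat_lit 214) (nat_lit 215) = true := by decide +kernel
def p13_16_0_215 : pfC (piC [(nat_lit 35755509), (nat_lit 23968959), (nat_lit 17897616), (nat_lit 12073119)] (nat_lit 22256242)) p13_16_0 (nat_lit 4) (nat_lit 215) (nat_lit 216) = true := by decide +kernel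
def p13_16_0_216 : pfC (piC [(nat_lit 35755509), (nat_lit 23968959), (nat_lit 17897616), (nat_lit 12073119)] (nat_lit 22256242)) p13_16_0 (nat_lit 4) (nat_lit 216) (nat_lit 217) = true := by decide +kernel
def p13_16_0_217 : pfC (piC [(nat_lit 35755509), (nat_lit 23968959), (nat_lit 17897616), (nat_lit 12073119)] (nat_lit 22256242)) p13_16_0 (nat_lit 4) (nat_lit 217) (nat_lit 218) = true := by decide +kernel
def p13_16_0_218 : pfC (piC [(nat_lit 35755509), (nat_lit 23968959), (nat_lit 17897616), (nat_lit 12073119)] (nat_lit 22256242)) p13_16_0 (nat_lit 4) (nat_lit 218) (nat_lit 219) = true := by decide +kernel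
def p13_16_0_219 : pfC (piC [(nat_lit 35755509), (nat_lit 23968959), (nat_lit 17897616), (nat_lit 12073119)] (nat_lit 22256242)) p13_16_0 (nat_lit 4) (nat_lit 219) (nat_lit 220) = true := by decide +kernel
def p13_16_0_220 : pfC (piC [(nat_lit 35755509), (nat_lit 23968959), (nat_lit 17897616), (nat_lit 12073119)] (nat_lit 22256242)) p13_16_0 (nat_lit 4) (nat_lit 220) (nat_lit 221) = true := by decide +kernel
def p13_16_0_221 : pfC (piC [(nat_lit 35755509), (nat_lit 23968959), (nat_lit 17897616), (nat_lit 12073119)] (nat_lit 22256242)) p13_16_0 (nat_lit 4) (nat_lit 221) (nat_lit 222) = true := by decide +kernel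
def p13_16_0_222 : pfC (piC [(nat_lit 35755509), (nat_lit 23968959), (nat_lit 17897616), (nat_lit 12073119)] (nat_lit 22256242)) p13_16_0 (nat_lit 4) (nat_lit 222) (nat_lit 223) = true := by decide +kernel
def p13_16_0_223 : pfC (piC [(nat_lit 35755509), (nat_lit 23968959), (nat_lit 17897616), (nat_lit 12073119)] (nat_lit 22256242)) p13_16_0 (nat_lit 4) (nat_lit 223) (nat_lit 224) = true := by decide +kernel
def p13_16_0_224 : pfC (piC [(nat_lit 35755509), (nat_lit 23968959), (nat_lit 17897616), (nat_lit 12073119)] (nat_lit 22256242)) p13_16_0 (nat_lit 4) (nat_lit 224) (nat_lit 225) = true := by decide +kernel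
def p13_16_0_225 : pfC (piC [(nat_lit 35755509), (nat_lit 23968959), (nat_lit 17897616), (nat_lit 12073119)] (nat_lit 22256242)) p13_16_0 (nat_lit 4) (nat_lit 225) (nat_lit 226) = true := by decide +kernel
def p13_16_0_226 : pfC (piC [(nat_lit 35755509), (nat_lit 23968959), (nat_lit 17897616), (nat_lit 12073119)] (nat_lit 22256242)) p13_16_0 (nat_lit 4) (nat_lit 226) (nat_lit 227) = true := by decide +kernel
def p13_16_0_227 : pfC (piC [(nat_lit 35755509), (nat_lit 23968959), (nat_lit 17897616), (nat_lit 12073119)] (nat_lit 22256242)) p13_16_0 (nat_lit 4) (nat_lit 227) (nat_lit 228) = true := by decide +kernel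
def p13_16_0_228 : pfC (piC [(nat_lit 35755509), (nat_lit 23968959), (nat_lit 17897616), (nat_lit 12073119)] (nat_lit 22256242)) p13_16_0 (nat_lit 4) (nat_lit 228) (nat_lit 229) = true := by decide +kernel
def p13_16_0_229 : pfC (piC [(nat_lit 35755509), (nat_lit 23968959), (nat_lit 17897616), (nat_lit 12073119)] (nat_lit 22256242)) p13_16_0 (nat_lit 4) (nat_lit 229) (nat_lit 230) = true := by decide +kernel
def p13_16_0_230 : pfC (piC [(nat_lit 35755509), (nat_lit 23968959), (nat_lit 17897616), (nat_lit 12073119)] (nat_lit 22256242)) p13_16_0 (nat_lit 4) (nat_lit 230) (nat_lit 231) = true := by decide +kernel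
def p13_16_0_231 : pfC (piC [(nat_lit 35755509), (nat_lit 23968959), (nat_lit 17897616), (nat_lit 12073119)] (nat_lit 22256242)) p13_16_0 (nat_lit 4) (nat_lit 231) (nat_lit 232) = true := by decide +kernel
def p13_16_0_232 : pfC (piC [(nat_lit 35755509), (nat_lit 23968959), (nat_lit 17897616), (nat_lit 12073119)] (nat_lit 22256242)) p13_16_0 (nat_lit 4) (nat_lit 232) (nat_lit 233) = true := by decide +kernel
def p13_16_0_233 : pfC (piC [(nat_lit 35755509), (nat_lit 23968959), (nat_lit 17897616), (nat_lit 12073119)] (nat_lit 22256242)) p13_16_0 (nat_lit 4) (nat_lit 233) (nat_lit 234) = true := by decide +kernel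
def p13_16_0_234 : pfC (piC [(nat_lit 35755509), (nat_lit 23968959), (nat_lit 17897616), (nat_lit 12073119)] (nat_lit 22256242)) p13_16_0 (nat_lit 4) (nat_lit 234) (nat_lit 235) = true := by decide +kernel
def p13_16_0_235 : pfC (piC [(nat_lit 35755509), (nat_lit 23968959), (nat_lit 17897616), (nat_lit 12073119)] (nat_lit 22256242)) p13_16_0 (nat_lit 4) (nat_lit 235) (nat_lit 236) = true := by decide +kernel
def p13_16_0_236 : pfC (piC [(nat_lit 35755509), (nat_lit 23968959), (nat_lit 17897616), (nat_lit 12073119)] (nat_lit 22256242)) p13_16_0 (nat_lit 4) (nat_lit 236) (nat_lit 237) = true := by decide +kernel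
def p13_16_0_237 : pfC (piC [(nat_lit 35755509), (nat_lit 23968959), (nat_lit 17897616), (nat_lit 12073119)] (nat_lit 22256242)) p13_16_0 (nat_lit 4) (nat_lit 237) (nat_lit 238) = true := by decide +kernel
def p13_16_0_238 : pfC (piC [(nat_lit 35755509), (nat_lit 23968959), (nat_lit 17897616), (nat_lit 12073119)] (nat_lit 22256242)) p13_16_0 (nat_lit 4) (nat_lit 238) (nat_lit 239) = true := by decide +kernel
def p13_16_0_239 : pfC (piC [(nat_lit 35755509), (nat_lit 23968959), (nat_lit 17897616), (nat_lit 12073119)] (nat_lit 22256242)) p13_16_0 (nat_lit 4) (nat_lit 239) (nat_lit 240) = true := by decide +kernel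
def p13_16_0_240 : pfC (piC [(nat_lit 35755509), (nat_lit 23968959), (nat_lit 17897616), (nat_lit 12073119)] (nat_lit 22256242)) p13_16_0 (nat_lit 4) (nat_lit 240) (nat_lit 241) = true := by decide +kernel
def p13_16_0_241 : pfC (piC [(nat_lit 35755509), (nat_lit 23968959), (nat_lit 17897616), (nat_lit 12073119)] (nat_lit 22256242)) p13_16_0 (nat_lit 4) (nat_lit 241) (nat_lit 242) = true := by decide +kernel
def p13_16_0_242 : pfC (piC [(nat_lit 35755509), (nat_lit 23968959), (nat_lit 17897616), (nat_lit 12073119)] (nat_lit 22256242)) p13_16_0 (nat_lit 4) (nat_lit 242) (nat_lit 243) = true := by decide +kernel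
def p13_16_0_243 : pfC (piC [(nat_lit 35755509), (nat_lit 23968959), (nat_lit 17897616), (nat_lit 12073119)] (nat_lit 22256242)) p13_16_0 (nat_lit 4) (nat_lit 243) (nat_lit 244) = true := by decide +kernel
def p13_16_0_244 : pfC (piC [(nat_lit 35755509), (nat_lit 23968959), (nat_lit 17897616), (nat_lit 12073119)] (nat_lit 22256242)) p13_16_0 (nat_lit 4) (nat_lit 244) (nat_lit 245) = true := by decide +kernel
def p13_16_0_245 : pfC (piC [(nat_lit 35755509), (nat_lit 23968959), (nat_lit 17897616), (nat_lit 12073119)] (nat_lit 22256242)) p13_16_0 (nat_lit 4) (nat_lit 245) (nat_lit 246) = true := by decide +kernel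
def p13_16_0_246 : pfC (piC [(nat_lit 35755509), (nat_lit 23968959), (nat_lit 17897616), (nat_lit 12073119)] (nat_lit 22256242)) p13_16_0 (nat_lit 4) (nat_lit 246) (nat_lit 247) = true := by decide +kernel
def p13_16_0_247 : pfC (piC [(nat_lit 35755509), (nat_lit 23968959), (nat_lit 17897616), (nat_lit 12073119)] (nat_lit 22256242)) p13_16_0 (nat_lit 4) (nat_lit 247) (nat_lit 248) = true := by decide +kernel
def p13_16_0_248 : pfC (piC [(nat_lit 35755509), (nat_lit 23968959), (nat_lit 17897616), (nat_lit 12073119)] (nat_lit 22256242)) p13_16_0 (nat_lit 4) (nat_lit 248) (nat_lit 249) = true := by decide +kernel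
def p13_16_0_249 : pfC (piC [(nat_lit 35755509), (nat_lit 23968959), (nat_lit 17897616), (nat_lit 12073119)] (nat_lit 22256242)) p13_16_0 (nat_lit 4) (nat_lit 249) (nat_lit 250) = true := by decide +kernel
def p13_16_0_250 : pfC (piC [(nat_lit 35755509), (nat_lit 23968959), (nat_lit 17897616), (nat_lit 12073119)] (nat_lit 22256242)) p13_16_0 (nat_lit 4) (nat_lit 250) (nat_lit 251) = true := by decide +kernel
def p13_16_0_251 : pfC (piC [(nat_lit 35755509), (nat_lit 23968959), (nat_lit 17897616), (nat_lit 12073119)] (nat_lit 22256242)) p13_16_0 (nat_lit 4) (nat_lit 251) (nat_lit 252) = true := by decide +kernel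
def p13_16_0_252 : pfC (piC [(nat_lit 35755509), (nat_lit 23968959), (nat_lit 17897616), (nat_lit 12073119)] (nat_lit 22256242)) p13_16_0 (nat_lit 4) (nat_lit 252) (nat_lit 253) = true := by decide +kernel
def p13_16_0_253 : pfC (piC [(nat_lit 35755509), (nat_lit 23968959), (nat_lit 17897616), (nat_lit 12073119)] (nat_lit 22256242)) p13_16_0 (nat_lit 4) (nat_lit 253) (nat_lit 254) = true := by decide +kernel
def p13_16_0_254 : pfC (piC [(nat_lit 35755509), (nat_lit 23968959), (nat_lit 17897616), (nat_lit 12073119)] (nat_lit 22256242)) p13_16_0 (nat_lit 4) (nat_lit 254) (nat_lit 255) = true := by decide +kernel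
def p13_16_0_255 : pfC (piC [(nat_lit 35755509), (nat_lit 23968959), (nat_lit 17897616), (nat_lit 12073119)] (nat_lit 22256242)) p13_16_0 (nat_lit 4) (nat_lit 255) (nat_lit 256) = true := by decide +kernel
def p13_16_0_256 : pfC (piC [(nat_lit 35755509), (nat_lit 23968959), (nat_lit 17897616), (nat_lit 12073119)] (nat_lit 22256242)) p13_16_0 (nat_lit 4) (nat_lit 256) (nat_lit 257) = true := by decide +kernel
def p13_16_0_257 : pfC (piC [(nat_lit 35755509), (nat_lit 23968959), (nat_lit 17897616), (nat_lit 12073119)] (nat_lit 22256242)) p13_16_0 (nat_lit 4) (nat_lit 257) (nat_lit 258) = true := by decide +kernel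
def p13_16_0_258 : pfC (piC [(nat_lit 35755509), (nat_lit 23968959), (nat_lit 17897616), (nat_lit 12073119)] (nat_lit 22256242)) p13_16_0 (nat_lit 4) (nat_lit 258) (nat_lit 259) = true := by decide +kernel
def p13_16_0_259 : pfC (piC [(nat_lit 35755509), (nat_lit 23968959), (nat_lit 17897616), (nat_lit 12073119)] (nat_lit 22256242)) p13_16_0 (nat_lit 4) (nat_lit 259) (nat_lit 260) = true := by decide +kernel
def p13_16_0_260 : pfC (piC [(nat_lit 35755509), (nat_lit 23968959), (nat_lit 17897616), (nat_lit 12073119)] (nat_lit 22256242)) p13_16_0 (nat_lit 4) (nat_lit 260) (nat_lit 261) = true := by decide +kernel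
def p13_16_0_261 : pfC (piC [(nat_lit 35755509), (nat_lit 23968959), (nat_lit 17897616), (nat_lit 12073119)] (nat_lit 22256242)) p13_16_0 (nat_lit 4) (nat_lit 261) (nat_lit 262) = true := by decide +kernel
def p13_16_0_262 : pfC (piC [(nat_lit 35755509), (nat_lit 23968959), (nat_lit 17897616), (nat_lit 12073119)] (nat_lit 22256242)) p13_16_0 (nat_lit 4) (nat_lit 262) (nat_lit 263) = true := by decide +kernel
def p13_16_0_263 : pfC (piC [(nat_lit 35755509), (nat_lit 23968959), (nat_lit 17897616), (nat_lit 12073119)] (nat_lit 22256242)) p13_16_0 (nat_lit 4) (nat_lit 263) (nat_lit 264) = true := by decide +kernel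
def p13_16_0_264 : pfC (piC [(nat_lit 35755509), (nat_lit 23968959), (nat_lit 17897616), (nat_lit 12073119)] (nat_lit 22256242)) p13_16_0 (nat_lit 4) (nat_lit 264) (nat_lit 265) = true := by decide +kernel
def p13_16_0_265 : pfC (piC [(nat_lit 35755509), (nat_lit 23968959), (nat_lit 17897616), (nat_lit 12073119)] (nat_lit 22256242)) p13_16_0 (nat_lit 4) (nat_lit 265) (nat_lit 266) = true := by decide +kernel
def p13_16_0_266 : pfC (piC [(nat_lit 35755509), (nat_lit 23968959), (nat_lit 17897616), (nat_lit 12073119)] (nat_lit 22256242)) p13_16_0 (nat_lit 4) (nat_lit 266) (nat_lit 267) = true := by decide +kernel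
def p13_16_0_267 : pfC (piC [(nat_lit 35755509), (nat_lit 23968959), (nat_lit 17897616), (nat_lit 12073119)] (nat_lit 22256242)) p13_16_0 (nat_lit 4) (nat_lit 267) (nat_lit 268) = true := by decide +kernel
def p13_16_0_268 : pfC (piC [(nat_lit 35755509), (nat_lit 23968959), (nat_lit 17897616), (nat_lit 12073119)] (nat_lit 22256242)) p13_16_0 (nat_lit 4) (nat_lit 268) (nat_lit 269) = true := by decide +kernel
def p13_16_0_269 : pfC (piC [(nat_lit 35755509), (nat_lit 23968959), (nat_lit 17897616), (nat_lit 12073119)] (nat_lit 22256242)) p13_16_0 (nat_lit 4) (nat_lit 269) (nat_lit 270) = true := by decide +kernel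
def p13_16_0_270 : pfC (piC [(nat_lit 35755509), (nat_lit 23968959), (nat_lit 17897616), (nat_lit 12073119)] (nat_lit 22256242)) p13_16_0 (nat_lit 4) (nat_lit 270) (nat_lit 271) = true := by decide +kernel
def p13_16_0_271 : pfC (piC [(nat_lit 35755509), (nat_lit 23968959), (nat_lit 17897616), (nat_lit 12073119)] (nat_lit 22256242)) p13_16_0 (nat_lit 4) (nat_lit 271) (nat_lit 272) = true := by decide +kernel
def p13_16_0_272 : pfC (piC [(nat_lit 35755509), (nat_lit 23968959), (nat_lit 17897616), (nat_lit 12073119)] (nat_lit 22256242)) p13_16_0 (nat_lit 4) (nat_lit 272) (nat_lit 273) = true := by decide +kernel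
def p13_16_0_273 : pfC (piC [(nat_lit 35755509), (nat_lit 23968959), (nat_lit 17897616), (nat_lit 12073119)] (nat_lit 22256242)) p13_16_0 (nat_lit 4) (nat_lit 273) (nat_lit 274) = true := by decide +kernel
def p13_16_0_274 : pfC (piC [(nat_lit 35755509), (nat_lit 23968959), (nat_lit 17897616), (nat_lit 12073119)] (nat_lit 22256242)) p13_16_0 (nat_lit 4) (nat_lit 274) (nat_lit 275) = true := by decide +kernel
def p13_16_0_275 : pfC (piC [(nat_lit 35755509), (nat_lit 23968959), (nat_lit 17897616), (nat_lit 12073119)] (nat_lit 22256242)) p13_16_0 (nat_lit 4) (nat_lit 275) (nat_lit 276) = true := by decide +kernel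
def p13_16_0_276 : pfC (piC [(nat_lit 35755509), (nat_lit 23968959), (nat_lit 17897616), (nat_lit 12073119)] (nat_lit 22256242)) p13_16_0 (nat_lit 4) (nat_lit 276) (nat_lit 277) = true := by decide +kernel
def p13_16_0_277 : pfC (piC [(nat_lit 35755509), (nat_lit 23968959), (nat_lit 17897616), (nat_lit 12073119)] (nat_lit 22256242)) p13_16_0 (nat_lit 4) (nat_lit 277) (nat_lit 278) = true := by decide +kernel
def p13_16_0_278 : pfC (piC [(nat_lit 35755509), (nat_lit 23968959), (nat_lit 17897616), (nat_lit 12073119)] (nat_lit 22256242)) p13_16_0 (nat_lit 4) (nat_lit 278) (nat_lit 279) = true := by decide +kernel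
def p13_16_0_279 : pfC (piC [(nat_lit 35755509), (nat_lit 23968959), (nat_lit 17897616), (nat_lit 12073119)] (nat_lit 22256242)) p13_16_0 (nat_lit 4) (nat_lit 279) (nat_lit 280) = true := by decide +kernel
def p13_16_0_280 : pfC (piC [(nat_lit 35755509), (nat_lit 23968959), (nat_lit 17897616), (nat_lit 12073119)] (nat_lit 22256242)) p13_16_0 (nat_lit 4) (nat_lit 280) (nat_lit 281) = true := by decide +kernel
def p13_16_0_281 : pfC (piC [(nat_lit 35755509), (nat_lit 23968959), (nat_lit 17897616), (nat_lit 12073119)] (nat_lit 22256242)) p13_16_0 (nat_lit 4) (nat_lit 281) (nat_lit 282) = true := by decide +kernel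
def p13_16_0_282 : pfC (piC [(nat_lit 35755509), (nat_lit 23968959), (nat_lit 17897616), (nat_lit 12073119)] (nat_lit 22256242)) p13_16_0 (nat_lit 4) (nat_lit 282) (nat_lit 283) = true := by decide +kernel
def p13_16_0_283 : pfC (piC [(nat_lit 35755509), (nat_lit 23968959), (nat_lit 17897616), (nat_lit 12073119)] (nat_lit 22256242)) p13_16_0 (nat_lit 4) (nat_lit 283) (nat_lit 284) = true := by decide +kernel
def p13_16_0_284 : pfC (piC [(nat_lit 35755509), (nat_lit 23968959), (nat_lit 17897616), (nat_lit 12073119)] (nat_lit 22256242)) p13_16_0 (nat_lit 4) (nat_lit 284) (nat_lit 285) = true := by decide +kernel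
def p13_16_0_285 : pfC (piC [(nat_lit 35755509), (nat_lit 23968959), (nat_lit 17897616), (nat_lit 12073119)] (nat_lit 22256242)) p13_16_0 (nat_lit 4) (nat_lit 285) (nat_lit 286) = true := by decide +kernel
def p13_16_0_286 : pfC (piC [(nat_lit 35755509), (nat_lit 23968959), (nat_lit 17897616), (nat_lit 12073119)] (nat_lit 22256242)) p13_16_0 (nat_lit 4) (nat_lit 286) (nat_lit 287) = true := by decide +kernel
def p13_16_0_287 : pfC (piC [(nat_lit 35755509), (nat_lit 23968959), (nat_lit 17897616), (nat_lit 12073119)] (nat_lit 22256242)) p13_16_0 (nat_lit 4) (nat_lit 287) (nat_lit 288) = true := by decide +kernel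
def p13_16_0_288 : pfC (piC [(nat_lit 35755509), (nat_lit 23968959), (nat_lit 17897616), (nat_lit 12073119)] (nat_lit 22256242)) p13_16_0 (nat_lit 4) (nat_lit 288) (nat_lit 289) = true := by decide +kernel
def p13_16_0_289 : pfC (piC [(nat_lit 35755509), (nat_lit 23968959), (nat_lit 17897616), (nat_lit 12073119)] (nat_lit 22256242)) p13_16_0 (nat_lit 4) (nat_lit 289) (nat_lit 290) = true := by decide +kernel
def p13_16_0_290 : pfC (piC [(nat_lit 35755509), (nat_lit 23968959), (nat_lit 17897616), (nat_lit 12073119)] (nat_lit 22256242)) p13_16_0 (nat_lit 4) (nat_lit 290) (nat_lit 291) = true := by decide +kernel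
def p13_16_0_291 : pfC (piC [(nat_lit 35755509), (nat_lit 23968959), (nat_lit 17897616), (nat_lit 12073119)] (nat_lit 22256242)) p13_16_0 (nat_lit 4) (nat_lit 291) (nat_lit 292) = true := by decide +kernel
def p13_16_0_292 : pfC (piC [(nat_lit 35755509), (nat_lit 23968959), (nat_lit 17897616), (nat_lit 12073119)] (nat_lit 22256242)) p13_16_0 (nat_lit 4) (nat_lit 292) (nat_lit 293) = true := by decide +kernel
def p13_16_0_293 : pfC (piC [(nat_lit 35755509), (nat_lit 23968959), (nat_lit 17897616), (nat_lit 12073119)] (nat_lit 22256242)) p13_16_0 (nat_lit 4) (nat_lit 293) (nat_lit 294) = true := by decide +kernel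
def p13_16_0_294 : pfC (piC [(nat_lit 35755509), (nat_lit 23968959), (nat_lit 17897616), (nat_lit 12073119)] (nat_lit 22256242)) p13_16_0 (nat_lit 4) (nat_lit 294) (nat_lit 295) = true := by decide +kernel
def p13_16_0_295 : pfC (piC [(nat_lit 35755509), (nat_lit 23968959), (nat_lit 17897616), (nat_lit 12073119)] (nat_lit 22256242)) p13_16_0 (nat_lit 4) (nat_lit 295) (nat_lit 296) = true := by decide +kernel
def p13_16_0_296 : pfC (piC [(nat_lit 35755509), (nat_lit 23968959), (nat_lit 17897616), (nat_lit 12073119)] (nat_lit 22256242)) p13_16_0 (nat_lit 4) (nat_lit 296) (nat_lit 297) = true := by decide +kernel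
def p13_16_0_297 : pfC (piC [(nat_lit 35755509), (nat_lit 23968959), (nat_lit 17897616), (nat_lit 12073119)] (nat_lit 22256242)) p13_16_0 (nat_lit 4) (nat_lit 297) (nat_lit 298) = true := by decide +kernel
def p13_16_0_298 : pfC (piC [(nat_lit 35755509), (nat_lit 23968959), (nat_lit 17897616), (nat_lit 12073119)] (nat_lit 22256242)) p13_16_0 (nat_lit 4) (nat_lit 298) (nat_lit 299) = true := by decide +kernel
def p13_16_0_299 : pfC (piC [(nat_lit 35755509), (nat_lit 23968959), (nat_lit 17897616), (nat_lit 12073119)] (nat_lit 22256242)) p13_16_0 (nat_lit 4) (nat_lit 299) (nat_lit 300) = true := by decide +kernel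
def p13_16_0_300 : pfC (piC [(nat_lit 35755509), (nat_lit 23968959), (nat_lit 17897616), (nat_lit 12073119)] (nat_lit 22256242)) p13_16_0 (nat_lit 4) (nat_lit 300) (nat_lit 301) = true := by decide +kernel
def p13_16_0_301 : pfC (piC [(nat_lit 35755509), (nat_lit 23968959), (nat_lit 17897616), (nat_lit 12073119)] (nat_lit 22256242)) p13_16_0 (nat_lit 4) (nat_lit 301) (nat_lit 302) = true := by decide +kernel
def p13_16_0_302 : pfC (piC [(nat_lit 35755509), (nat_lit 23968959), (nat_lit 17897616), (nat_lit 12073119)] (nat_lit 22256242)) p13_16_0 (nat_lit 4) (nat_lit 302) (nat_lit 303) = true := by decide +kernel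
def p13_16_0_303 : pfC (piC [(nat_lit 35755509), (nat_lit 23968959), (nat_lit 17897616), (nat_lit 12073119)] (nat_lit 22256242)) p13_16_0 (nat_lit 4) (nat_lit 303) (nat_lit 304) = true := by decide +kernel
def p13_16_0_304 : pfC (piC [(nat_lit 35755509), (nat_lit 23968959), (nat_lit 17897616), (nat_lit 12073119)] (nat_lit 22256242)) p13_16_0 (nat_lit 4) (nat_lit 304) (nat_lit 305) = true := by decide +kernel
def p13_16_0_305 : pfC (piC [(nat_lit 35755509), (nat_lit 23968959), (nat_lit 17897616), (nat_lit 12073119)] (nat_lit 22256242)) p13_16_0 (nat_lit 4) (nat_lit 305) (nat_lit 306) = true := by decide +kernel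
def p13_16_0_306 : pfC (piC [(nat_lit 35755509), (nat_lit 23968959), (nat_lit 17897616), (nat_lit 12073119)] (nat_lit 22256242)) p13_16_0 (nat_lit 4) (nat_lit 306) (nat_lit 307) = true := by decide +kernel
def p13_16_0_307 : pfC (piC [(nat_lit 35755509), (nat_lit 23968959), (nat_lit 17897616), (nat_lit 12073119)] (nat_lit 22256242)) p13_16_0 (nat_lit 4) (nat_lit 307) (nat_lit 308) = true := by decide +kernel
def p13_16_0_308 : pfC (piC [(nat_lit 35755509), (nat_lit 23968959), (nat_lit 17897616), (nat_lit 12073119)] (nat_lit 22256242)) p13_16_0 (nat_lit 4) (nat_lit 308) (nat_lit 309) = true := by decide +kernel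
def p13_16_0_309 : pfC (piC [(nat_lit 35755509), (nat_lit 23968959), (nat_lit 17897616), (nat_lit 12073119)] (nat_lit 22256242)) p13_16_0 (nat_lit 4) (nat_lit 309) (nat_lit 310) = true := by decide +kernel
def p13_16_0_310 : pfC (piC [(nat_lit 35755509), (nat_lit 23968959), (nat_lit 17897616), (nat_lit 12073119)] (nat_lit 22256242)) p13_16_0 (nat_lit 4) (nat_lit 310) (nat_lit 311) = true := by decide +kernel
def p13_16_0_311 : pfC (piC [(nat_lit 35755509), (nat_lit 23968959), (nat_lit 17897616), (nat_lit 12073119)] (nat_lit 22256242)) p13_16_0 (nat_lit 4) (nat_lit 311) (nat_lit 312) = true := by decide +kernel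
def p13_16_0_312 : pfC (piC [(nat_lit 35755509), (nat_lit 23968959), (nat_lit 17897616), (nat_lit 12073119)] (nat_lit 22256242)) p13_16_0 (nat_lit 4) (nat_lit 312) (nat_lit 313) = true := by decide +kernel
def p13_16_0_313 : pfC (piC [(nat_lit 35755509), (nat_lit 23968959), (nat_lit 17897616), (nat_lit 12073119)] (nat_lit 22256242)) p13_16_0 (nat_lit 4) (nat_lit 313) (nat_lit 314) = true := by decide +kernel
def p13_16_0_314 : pfC (piC [(nat_lit 35755509), (nat_lit 23968959), (nat_lit 17897616), (nat_lit 12073119)] (nat_lit 22256242)) p13_16_0 (nat_lit 4) (nat_lit 314) (nat_lit 315) = true := by decide +kernel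
def p13_16_0_315 : pfC (piC [(nat_lit 35755509), (nat_lit 23968959), (nat_lit 17897616), (nat_lit 12073119)] (nat_lit 22256242)) p13_16_0 (nat_lit 4) (nat_lit 315) (nat_lit 316) = true := by decide +kernel
def p13_16_0_316 : pfC (piC [(nat_lit 35755509), (nat_lit 23968959), (nat_lit 17897616), (nat_lit 12073119)] (nat_lit 22256242)) p13_16_0 (nat_lit 4) (nat_lit 316) (nat_lit 317) = true := by decide +kernel
def p13_16_0_317 : pfC (piC [(nat_lit 35755509), (nat_lit 23968959), (nat_lit 17897616), (nat_lit 12073119)] (nat_lit 22256242)) p13_16_0 (nat_lit 4) (nat_lit 317) (nat_lit 318) = true := by decide +kernel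
def p13_16_0_318 : pfC (piC [(nat_lit 35755509), (nat_lit 23968959), (nat_lit 17897616), (nat_lit 12073119)] (nat_lit 22256242)) p13_16_0 (nat_lit 4) (nat_lit 318) (nat_lit 319) = true := by decide +kernel
def p13_16_0_319 : pfC (piC [(nat_lit 35755509), (nat_lit 23968959), (nat_lit 17897616), (nat_lit 12073119)] (nat_lit 22256242)) p13_16_0 (nat_lit 4) (nat_lit 319) (nat_lit 320) = true := by decide +kernel
def p13_16_0_320 : pfC (piC [(nat_lit 35755509), (nat_lit 23968959), (nat_lit 17897616), (nat_lit 12073119)] (nat_lit 22256242)) p13_16_0 (nat_lit 4) (nat_lit 320) (nat_lit 321) = true := by decide +kernel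
def p13_16_0_321 : pfC (piC [(nat_lit 35755509), (nat_lit 23968959), (nat_lit 17897616), (nat_lit 12073119)] (nat_lit 22256242)) p13_16_0 (nat_lit 4) (nat_lit 321) (nat_lit 322) = true := by decide +kernel
def p13_16_0_322 : pfC (piC [(nat_lit 35755509), (nat_lit 23968959), (nat_lit 17897616), (nat_lit 12073119)] (nat_lit 22256242)) p13_16_0 (nat_lit 4) (nat_lit 322) (nat_lit 323) = true := by decide +kernel
def p13_16_0_323 : pfC (piC [(nat_lit 35755509), (nat_lit 23968959), (nat_lit 17897616), (nat_lit 12073119)] (nat_lit 22256242)) p13_16_0 (nat_lit 4) (nat_lit 323) (nat_lit 324) = true := by decide +kernel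
def p13_16_0_324 : pfC (piC [(nat_lit 35755509), (nat_lit 23968959), (nat_lit 17897616), (nat_lit 12073119)] (nat_lit 22256242)) p13_16_0 (nat_lit 4) (nat_lit 324) (nat_lit 325) = true := by decide +kernel
def p13_16_0_325 : pfC (piC [(nat_lit 35755509), (nat_lit 23968959), (nat_lit 17897616), (nat_lit 12073119)] (nat_lit 22256242)) p13_16_0 (nat_lit 4) (nat_lit 325) (nat_lit 326) = true := by decide +kernel
def p13_16_0_326 : pfC (piC [(nat_lit 35755509), (nat_lit 23968959), (nat_lit 17897616), (nat_lit 12073119)] (nat_lit 22256242)) p13_16_0 (nat_lit 4) (nat_lit 326) (nat_lit 327) = true := by decide +kernel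
def p13_16_0_327 : pfC (piC [(nat_lit 35755509), (nat_lit 23968959), (nat_lit 17897616), (nat_lit 12073119)] (nat_lit 22256242)) p13_16_0 (nat_lit 4) (nat_lit 327) (nat_lit 328) = true := by decide +kernel
def p13_16_0_328 : pfC (piC [(nat_lit 35755509), (nat_lit 23968959), (nat_lit 17897616), (nat_lit 12073119)] (nat_lit 22256242)) p13_16_0 (nat_lit 4) (nat_lit 328) (nat_lit 329) = true := by decide +kernel
def p13_16_0_329 : pfC (piC [(nat_lit 35755509), (nat_lit 23968959), (nat_lit 17897616), (nat_lit 12073119)] (nat_lit 22256242)) p13_16_0 (nat_lit 4) (nat_lit 329) (nat_lit 330) = true := by decide +kernel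
def p13_16_0_330 : pfC (piC [(nat_lit 35755509), (nat_lit 23968959), (nat_lit 17897616), (nat_lit 12073119)] (nat_lit 22256242)) p13_16_0 (nat_lit 4) (nat_lit 330) (nat_lit 331) = true := by decide +kernel
def p13_16_0_331 : pfC (piC [(nat_lit 35755509), (nat_lit 23968959), (nat_lit 17897616), (nat_lit 12073119)] (nat_lit 22256242)) p13_16_0 (nat_lit 4) (nat_lit 331) (nat_lit 332) = true := by decide +kernel
def p13_16_0_332 : pfC (piC [(nat_lit 35755509), (nat_lit 23968959), (nat_lit 17897616), (nat_lit 12073119)] (nat_lit 22256242)) p13_16_0 (nat_lit 4) (nat_lit 332) (nat_lit 333) = true := by decide +kernel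
def p13_16_0_333 : pfC (piC [(nat_lit 35755509), (nat_lit 23968959), (nat_lit 17897616), (nat_lit 12073119)] (nat_lit 22256242)) p13_16_0 (nat_lit 4) (nat_lit 333) (nat_lit 334) = true := by decide +kernel
def p13_16_0_334 : pfC (piC [(nat_lit 35755509), (nat_lit 23968959), (nat_lit 17897616), (nat_lit 12073119)] (nat_lit 22256242)) p13_16_0 (nat_lit 4) (nat_lit 334) (nat_lit 335) = true := by decide +kernel
def p13_16_0_335 : pfC (piC [(nat_lit 35755509), (nat_lit 23968959), (nat_lit 17897616), (nat_lit 12073119)] (nat_lit 22256242)) p13_16_0 (nat_lit 4) (nat_lit 335) (nat_lit 336) = true := by decide +kernel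
def p13_16_0_336 : pfC (piC [(nat_lit 35755509), (nat_lit 23968959), (nat_lit 17897616), (nat_lit 12073119)] (nat_lit 22256242)) p13_16_0 (nat_lit 4) (nat_lit 336) (nat_lit 337) = true := by decide +kernel
def p13_16_0_337 : pfC (piC [(nat_lit 35755509), (nat_lit 23968959), (nat_lit 17897616), (nat_lit 12073119)] (nat_lit 22256242)) p13_16_0 (nat_lit 4) (nat_lit 337) (nat_lit 338) = true := by decide +kernel
def p13_16_0_338 : pfC (piC [(nat_lit 35755509), (nat_lit 23968959), (nat_lit 17897616), (nat_lit 12073119)] (nat_lit 22256242)) p13_16_0 (nat_lit 4) (nat_lit 338) (nat_lit 339) = true := by decide +kernel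
def p13_16_0_339 : pfC (piC [(nat_lit 35755509), (nat_lit 23968959), (nat_lit 17897616), (nat_lit 12073119)] (nat_lit 22256242)) p13_16_0 (nat_lit 4) (nat_lit 339) (nat_lit 340) = true := by decide +kernel
def p13_16_0_340 : pfC (piC [(nat_lit 35755509), (nat_lit 23968959), (nat_lit 17897616), (nat_lit 12073119)] (nat_lit 22256242)) p13_16_0 (nat_lit 4) (nat_lit 340) (nat_lit 341) = true := by decide +kernel
def p13_16_0_341 : pfC (piC [(nat_lit 35755509), (nat_lit 23968959), (nat_lit 17897616), (nat_lit 12073119)] (nat_lit 22256242)) p13_16_0 (nat_lit 4) (nat_lit 341) (nat_lit 342) = true := by decide +kernel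
def p13_16_0_342 : pfC (piC [(nat_lit 35755509), (nat_lit 23968959), (nat_lit 17897616), (nat_lit 12073119)] (nat_lit 22256242)) p13_16_0 (nat_lit 4) (nat_lit 342) (nat_lit 343) = true := by decide +kernel
def p13_16_0_343 : pfC (piC [(nat_lit 35755509), (nat_lit 23968959), (nat_lit 17897616), (nat_lit 12073119)] (nat_lit 22256242)) p13_16_0 (nat_lit 4) (nat_lit 343) (nat_lit 344) = true := by decide +kernel
def p13_16_0_344 : pfC (piC [(nat_lit 35755509), (nat_lit 23968959), (nat_lit 17897616), (nat_lit 12073119)] (nat_lit 22256242)) p13_16_0 (nat_lit 4) (nat_lit 344) (nat_lit 345) = true := by decide +kernel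
def p13_16_0_345 : pfC (piC [(nat_lit 35755509), (nat_lit 23968959), (nat_lit 17897616), (nat_lit 12073119)] (nat_lit 22256242)) p13_16_0 (nat_lit 4) (nat_lit 345) (nat_lit 346) = true := by decide +kernel
def p13_16_0_346 : pfC (piC [(nat_lit 35755509), (nat_lit 23968959), (nat_lit 17897616), (nat_lit 12073119)] (nat_lit 22256242)) p13_16_0 (nat_lit 4) (nat_lit 346) (nat_lit 347) = true := by decide +kernel
def p13_16_0_347 : pfC (piC [(nat_lit 35755509), (nat_lit 23968959), (nat_lit 17897616), (nat_lit 12073119)] (nat_lit 22256242)) p13_16_0 (nat_lit 4) (nat_lit 347) (nat_lit 348) = true := by decide +kernel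
def p13_16_0_348 : pfC (piC [(nat_lit 35755509), (nat_lit 23968959), (nat_lit 17897616), (nat_lit 12073119)] (nat_lit 22256242)) p13_16_0 (nat_lit 4) (nat_lit 348) (nat_lit 349) = true := by decide +kernel
def p13_16_0_349 : pfC (piC [(nat_lit 35755509), (nat_lit 23968959), (nat_lit 17897616), (nat_lit 12073119)] (nat_lit 22256242)) p13_16_0 (nat_lit 4) (nat_lit 349) (nat_lit 350) = true := by decide +kernel
def p13_16_0_350 : pfC (piC [(nat_lit 35755509), (nat_lit 23968959), (nat_lit 17897616), (nat_lit 12073119)] (nat_lit 22256242)) p13_16_0 (nat_lit 4) (nat_lit 350) (nat_lit 351) = true := by decide +kernel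
def p13_16_0_351 : pfC (piC [(nat_lit 35755509), (nat_lit 23968959), (nat_lit 17897616), (nat_lit 12073119)] (nat_lit 22256242)) p13_16_0 (nat_lit 4) (nat_lit 351) (nat_lit 352) = true := by decide +kernel
def p13_16_0_352 : pfC (piC [(nat_lit 35755509), (nat_lit 23968959), (nat_lit 17897616), (nat_lit 12073119)] (nat_lit 22256242)) p13_16_0 (nat_lit 4) (nat_lit 352) (nat_lit 353) = true := by decide +kernel
def p13_16_0_353 : pfC (piC [(nat_lit 35755509), (nat_lit 23968959), (nat_lit 17897616), (nat_lit 12073119)] (nat_lit 22256242)) p13_16_0 (nat_lit 4) (nat_lit 353) (nat_lit 354) = true := by decide +kernel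
def p13_16_0_354 : pfC (piC [(nat_lit 35755509), (nat_lit 23968959), (nat_lit 17897616), (nat_lit 12073119)] (nat_lit 22256242)) p13_16_0 (nat_lit 4) (nat_lit 354) (nat_lit 355) = true := by decide +kernel
def p13_16_0_355 : pfC (piC [(nat_lit 35755509), (nat_lit 23968959), (nat_lit 17897616), (nat_lit 12073119)] (nat_lit 22256242)) p13_16_0 (nat_lit 4) (nat_lit 355) (nat_lit 356) = true := by decide +kernel
def p13_16_0_356 : pfC (piC [(nat_lit 35755509), (nat_lit 23968959), (nat_lit 17897616), (nat_lit 12073119)] (nat_lit 22256242)) p13_16_0 (nat_lit 4) (nat_lit 356) (nat_lit 357) = true := by decide +kernel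
def p13_16_0_357 : pfC (piC [(nat_lit 35755509), (nat_lit 23968959), (nat_lit 17897616), (nat_lit 12073119)] (nat_lit 22256242)) p13_16_0 (nat_lit 4) (nat_lit 357) (nat_lit 358) = true := by decide +kernel
def p13_16_0_358 : pfC (piC [(nat_lit 35755509), (nat_lit 23968959), (nat_lit 17897616), (nat_lit 12073119)] (nat_lit 22256242)) p13_16_0 (nat_lit 4) (nat_lit 358) (nat_lit 359) = true := by decide +kernel
def p13_16_0_359 : pfC (piC [(nat_lit 35755509), (nat_lit 23968959), (nat_lit 17897616), (nat_lit 12073119)] (nat_lit 22256242)) p13_16_0 (nat_lit 4) (nat_lit 359) (nat_lit 360) = true := by decide +kernel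
def p13_16_0_360 : pfC (piC [(nat_lit 35755509), (nat_lit 23968959), (nat_lit 17897616), (nat_lit 12073119)] (nat_lit 22256242)) p13_16_0 (nat_lit 4) (nat_lit 360) (nat_lit 361) = true := by decide +kernel
def p13_16_0_361 : pfC (piC [(nat_lit 35755509), (nat_lit 23968959), (nat_lit 17897616), (nat_lit 12073119)] (nat_lit 22256242)) p13_16_0 (nat_lit 4) (nat_lit 361) (nat_lit 362) = true := by decide +kernel
def p13_16_0_362 : pfC (piC [(nat_lit 35755509), (nat_lit 23968959), (nat_lit 17897616), (nat_lit 12073119)] (nat_lit 22256242)) p13_16_0 (nat_lit 4) (nat_lit 362) (nat_lit 363) = true := by decide +kernel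
def p13_16_0_363 : pfC (piC [(nat_lit 35755509), (nat_lit 23968959), (nat_lit 17897616), (nat_lit 12073119)] (nat_lit 22256242)) p13_16_0 (nat_lit 4) (nat_lit 363) (nat_lit 364) = true := by decide +kernel
def p13_16_0_364 : pfC (piC [(nat_lit 35755509), (nat_lit 23968959), (nat_lit 17897616), (nat_lit 12073119)] (nat_lit 22256242)) p13_16_0 (nat_lit 4) (nat_lit 364) (nat_lit 365) = true := by decide +kernel
def p13_16_0_365 : pfC (piC [(nat_lit 35755509), (nat_lit 23968959), (nat_lit 17897616), (nat_lit 12073119)] (nat_lit 22256242)) p13_16_0 (nat_lit 4) (nat_lit 365) (nat_lit 366) = true := by decide +kernel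
def p13_16_0_366 : pfC (piC [(nat_lit 35755509), (nat_lit 23968959), (nat_lit 17897616), (nat_lit 12073119)] (nat_lit 22256242)) p13_16_0 (nat_lit 4) (nat_lit 366) (nat_lit 367) = true := by decide +kernel
def p13_16_0_367 : pfC (piC [(nat_lit 35755509), (nat_lit 23968959), (nat_lit 17897616), (nat_lit 12073119)] (nat_lit 22256242)) p13_16_0 (nat_lit 4) (nat_lit 367) (nat_lit 368) = true := by decide +kernel
def p13_16_0_368 : pfC (piC [(nat_lit 35755509), (nat_lit 23968959), (nat_lit 17897616), (nat_lit 12073119)] (nat_lit 22256242)) p13_16_0 (nat_lit 4) (nat_lit 368) (nat_lit 369) = true := by decide +kernel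
def p13_16_0_369 : pfC (piC [(nat_lit 35755509), (nat_lit 23968959), (nat_lit 17897616), (nat_lit 12073119)] (nat_lit 22256242)) p13_16_0 (nat_lit 4) (nat_lit 369) (nat_lit 370) = true := by decide +kernel
def p13_16_0_370 : pfC (piC [(nat_lit 35755509), (nat_lit 23968959), (nat_lit 17897616), (nat_lit 12073119)] (nat_lit 22256242)) p13_16_0 (nat_lit 4) (nat_lit 370) (nat_lit 371) = true := by decide +kernel
def p13_16_0_371 : pfC (piC [(nat_lit 35755509), (nat_lit 23968959), (nat_lit 17897616), (nat_lit 12073119)] (nat_lit 22256242)) p13_16_0 (nat_lit 4) (nat_lit 371) (nat_lit 372) = true := by decide +kernel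
def p13_16_0_372 : pfC (piC [(nat_lit 35755509), (nat_lit 23968959), (nat_lit 17897616), (nat_lit 12073119)] (nat_lit 22256242)) p13_16_0 (nat_lit 4) (nat_lit 372) (nat_lit 373) = true := by decide +kernel
def p13_16_0_373 : pfC (piC [(nat_lit 35755509), (nat_lit 23968959), (nat_lit 17897616), (nat_lit 12073119)] (nat_lit 22256242)) p13_16_0 (nat_lit 4) (nat_lit 373) (nat_lit 374) = true := by decide +kernel
def p13_16_0_374 : pfC (piC [(nat_lit 35755509), (nat_lit 23968959), (nat_lit 17897616), (nat_lit 12073119)] (nat_lit 22256242)) p13_16_0 (nat_lit 4) (nat_lit 374) (nat_lit 375) = true := by decide +kernel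
def p13_16_0_375 : pfC (piC [(nat_lit 35755509), (nat_lit 23968959), (nat_lit 17897616), (nat_lit 12073119)] (nat_lit 22256242)) p13_16_0 (nat_lit 4) (nat_lit 375) (nat_lit 376) = true := by decide +kernel
def p13_16_0_376 : pfC (piC [(nat_lit 35755509), (nat_lit 23968959), (nat_lit 17897616), (nat_lit 12073119)] (nat_lit 22256242)) p13_16_0 (nat_lit 4) (nat_lit 376) (nat_lit 377) = true := by decide +kernel
def p13_16_0_377 : pfC (piC [(nat_lit 35755509), (nat_lit 23968959), (nat_lit 17897616), (nat_lit 12073119)] (nat_lit 22256242)) p13_16_0 (nat_lit 4) (nat_lit 377) (nat_lit 378) = true := by decide +kernel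
def p13_16_0_378 : pfC (piC [(nat_lit 35755509), (nat_lit 23968959), (nat_lit 17897616), (nat_lit 12073119)] (nat_lit 22256242)) p13_16_0 (nat_lit 4) (nat_lit 378) (nat_lit 379) = true := by decide +kernel
def p13_16_0_379 : pfC (piC [(nat_lit 35755509), (nat_lit 23968959), (nat_lit 17897616), (nat_lit 12073119)] (nat_lit 22256242)) p13_16_0 (nat_lit 4) (nat_lit 379) (nat_lit 380) = true := by decide +kernel
def p13_16_0_380 : pfC (piC [(nat_lit 35755509), (nat_lit 23968959), (nat_lit 17897616), (nat_lit 12073119)] (nat_lit 22256242)) p13_16_0 (nat_lit 4) (nat_lit 380) (nat_lit 381) = true := by decide +kernel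
def p13_16_0_381 : pfC (piC [(nat_lit 35755509), (nat_lit 23968959), (nat_lit 17897616), (nat_lit 12073119)] (nat_lit 22256242)) p13_16_0 (nat_lit 4) (nat_lit 381) (nat_lit 382) = true := by decide +kernel
def p13_16_0_382 : pfC (piC [(nat_lit 35755509), (nat_lit 23968959), (nat_lit 17897616), (nat_lit 12073119)] (nat_lit 22256242)) p13_16_0 (nat_lit 4) (nat_lit 382) (nat_lit 383) = true := by decide +kernel
def p13_16_0_383 : pfC (piC [(nat_lit 35755509), (nat_lit 23968959), (nat_lit 17897616), (nat_lit 12073119)] (nat_lit 22256242)) p13_16_0 (nat_lit 4) (nat_lit 383) (nat_lit 384) = true := by decide +kernel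
def p13_16_0_384 : pfC (piC [(nat_lit 35755509), (nat_lit 23968959), (nat_lit 17897616), (nat_lit 12073119)] (nat_lit 22256242)) p13_16_0 (nat_lit 4) (nat_lit 384) (nat_lit 385) = true := by decide +kernel
def p13_16_0_385 : pfC (piC [(nat_lit 35755509), (nat_lit 23968959), (nat_lit 17897616), (nat_lit 12073119)] (nat_lit 22256242)) p13_16_0 (nat_lit 4) (nat_lit 385) (nat_lit 386) = true := by decide +kernel
def p13_16_0_386 : pfC (piC [(nat_lit 35755509), (nat_lit 23968959), (nat_lit 17897616), (nat_lit 12073119)] (nat_lit 22256242)) p13_16_0 (nat_lit 4) (nat_lit 386) (nat_lit 387) = true := by decide +kernel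
def p13_16_0_387 : pfC (piC [(nat_lit 35755509), (nat_lit 23968959), (nat_lit 17897616), (nat_lit 12073119)] (nat_lit 22256242)) p13_16_0 (nat_lit 4) (nat_lit 387) (nat_lit 388) = true := by decide +kernel
def p13_16_0_388 : pfC (piC [(nat_lit 35755509), (nat_lit 23968959), (nat_lit 17897616), (nat_lit 12073119)] (nat_lit 22256242)) p13_16_0 (nat_lit 4) (nat_lit 388) (nat_lit 389) = true := by decide +kernel
def p13_16_0_389 : pfC (piC [(nat_lit 35755509), (nat_lit 23968959), (nat_lit 17897616), (nat_lit 12073119)] (nat_lit 22256242)) p13_16_0 (nat_lit 4) (nat_lit 389) (nat_lit 390) = true := by decide +kernel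
def p13_16_0_390 : pfC (piC [(nat_lit 35755509), (nat_lit 23968959), (nat_lit 17897616), (nat_lit 12073119)] (nat_lit 22256242)) p13_16_0 (nat_lit 4) (nat_lit 390) (nat_lit 391) = true := by decide +kernel
def p13_16_0_391 : pfC (piC [(nat_lit 35755509), (nat_lit 23968959), (nat_lit 17897616), (nat_lit 12073119)] (nat_lit 22256242)) p13_16_0 (nat_lit 4) (nat_lit 391) (nat_lit 392) = true := by decide +kernel
def p13_16_0_392 : pfC (piC [(nat_lit 35755509), (nat_lit 23968959), (nat_lit 17897616), (nat_lit 12073119)] (nat_lit 22256242)) p13_16_0 (nat_lit 4) (nat_lit 392) (nat_lit 393) = true := by decide +kernel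
def p13_16_0_393 : pfC (piC [(nat_lit 35755509), (nat_lit 23968959), (nat_lit 17897616), (nat_lit 12073119)] (nat_lit 22256242)) p13_16_0 (nat_lit 4) (nat_lit 393) (nat_lit 394) = true := by decide +kernel
def p13_16_0_394 : pfC (piC [(nat_lit 35755509), (nat_lit 23968959), (nat_lit 17897616), (nat_lit 12073119)] (nat_lit 22256242)) p13_16_0 (nat_lit 4) (nat_lit 394) (nat_lit 395) = true := by decide +kernel
def p13_16_0_395 : pfC (piC [(nat_lit 35755509), (nat_lit 23968959), (nat_lit 17897616), (nat_lit 12073119)] (nat_lit 22256242)) p13_16_0 (nat_lit 4) (nat_lit 395) (nat_lit 396) = true := by decide +kernel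
def p13_16_0_396 : pfC (piC [(nat_lit 35755509), (nat_lit 23968959), (nat_lit 17897616), (nat_lit 12073119)] (nat_lit 22256242)) p13_16_0 (nat_lit 4) (nat_lit 396) (nat_lit 397) = true := by decide +kernel
def p13_16_0_397 : pfC (piC [(nat_lit 35755509), (nat_lit 23968959), (nat_lit 17897616), (nat_lit 12073119)] (nat_lit 22256242)) p13_16_0 (nat_lit 4) (nat_lit 397) (nat_lit 398) = true := by decide +kernel
def p13_16_0_398 : pfC (piC [(nat_lit 35755509), (nat_lit 23968959), (nat_lit 17897616), (nat_lit 12073119)] (nat_lit 22256242)) p13_16_0 (nat_lit 4) (nat_lit 398) (nat_lit 399) = true := by decide +kernel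
def p13_16_0_399 : pfC (piC [(nat_lit 35755509), (nat_lit 23968959), (nat_lit 17897616), (nat_lit 12073119)] (nat_lit 22256242)) p13_16_0 (nat_lit 4) (nat_lit 399) (nat_lit 400) = true := by decide +kernel
def p13_16_0_400 : pfC (piC [(nat_lit 35755509), (nat_lit 23968959), (nat_lit 17897616), (nat_lit 12073119)] (nat_lit 22256242)) p13_16_0 (nat_lit 4) (nat_lit 400) (nat_lit 401) = true := by decide +kernel
def p13_16_0_401 : pfC (piC [(nat_lit 35755509), (nat_lit 23968959), (nat_lit 17897616), (nat_lit 12073119)] (nat_lit 22256242)) p13_16_0 (nat_lit 4) (nat_lit 401) (nat_lit 402) = true := by decide +kernel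
def p13_16_0_402 : pfC (piC [(nat_lit 35755509), (nat_lit 23968959), (nat_lit 17897616), (nat_lit 12073119)] (nat_lit 22256242)) p13_16_0 (nat_lit 4) (nat_lit 402) (nat_lit 403) = true := by decide +kernel
def p13_16_0_403 : pfC (piC [(nat_lit 35755509), (nat_lit 23968959), (nat_lit 17897616), (nat_lit 12073119)] (nat_lit 22256242)) p13_16_0 (nat_lit 4) (nat_lit 403) (nat_lit 404) = true := by decide +kernel
def p13_16_0_404 : pfC (piC [(nat_lit 35755509), (nat_lit 23968959), (nat_lit 17897616), (nat_lit 12073119)] (nat_lit 22256242)) p13_16_0 (nat_lit 4) (nat_lit 404) (nat_lit 405) = true := by decide +kernel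
def p13_16_0_405 : pfC (piC [(nat_lit 35755509), (nat_lit 23968959), (nat_lit 17897616), (nat_lit 12073119)] (nat_lit 22256242)) p13_16_0 (nat_lit 4) (nat_lit 405) (nat_lit 406) = true := by decide +kernel
theorem p13_16_0_T : PfS (PiF n13_16.reverse (nat_lit 22256242)) p13_16_0 (nat_lit 4) [] 0 :=
  pftab_of (los := [(nat_lit 35755509), (nat_lit 23968959), (nat_lit 17897616), (nat_lit 12073119)]) (by decide +kernel) (hi := (nat_lit 406)) (PfP.trans (PfP.trans (PfP.trans (PfP.trans (PfP.trans (PfP.trans (PfP.trans (PfP.trans (PfP.trans (PfP.trans (PfP.trans (PfP.trans (PfP.trans (PfP.trans (PfP.trans (PfP.trans (PfP.trans (PfP.trans (PfP.trans (PfP.trans (PfP.trans (PfP.trans (PfP.trans (PfP.trans (PfP.trans (PfP.trans (PfP.trans (PfP.trans (PfP.trans (PfP.trans (PfP.trans (PfP.trans (PfP.trans (PfP.trans (PfP.trans (PfP.trans (PfP.trans (PfP.trans (PfP.trans (PfP.trans (PfP.trans (PfP.trans (PfP.trans (PfP.trans (PfP.trans (PfP.trans (PfP.trans (PfP.trans (PfP.trans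 (PfP.trans (PfP.trans (PfP.trans (PfP.trans (PfP.trans (PfP.trans (PfP.trans (PfP.trans (PfP.trans (PfP.trans (PfP.trans (PfP.trans (PfP.trans (PfP.trans (PfP.trans (PfP.trans (PfP.trans (PfP.trans (PfP.trans (PfP.trans (PfP.trans (PfP.trans (PfP.trans (PfP.trans (PfP.trans (PfP.trans (PfP.trans (PfP.trans (PfP.trans (PfP.trans (PfP.trans (PfP.trans (PfP.trans (PfP.trans (PfP.trans (PfP.trans (PfP.trans (PfP.trans (PfP.trans (PfP.trans (PfP.trans (PfP.trans (PfP.trans (PfP.trans (PfP.trans (PfP.trans (PfP.trans (PfP.trans (PfP.trans (PfP.trans (PfP.trans (PfP.trans (PfP.trans (PfP.trans (PfP.trans (PfP.trans (PfP.trans (PfP.trans (PfP.trans (PfP.trans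
 (PfP.trans (PfP.trans (PfP.trans (PfP.trans (PfP.trans (PfP.trans (PfP.trans (PfP.trans (PfP.trans (PfP.trans (PfP.trans (PfP.trans (PfP.trans (PfP.trans (PfP.trans (PfP.trans (PfP.trans (PfP.trans (PfP.trans (PfP.trans (PfP.trans (PfP.trans (PfP.trans (PfP.trans (PfP.trans (PfP.trans (PfP.trans (PfP.trans (PfP.trans (PfP.trans (PfP.trans (PfP.trans (PfP.trans (PfP.trans (PfP.trans (PfP.trans (PfP.trans (PfP.trans (PfP.trans (PfP.trans (PfP.trans (PfP.trans (PfP.trans (PfP.trans (PfP.trans (PfP.trans (PfP.trans (PfP.trans (PfP.trans (PfP.trans (PfP.trans (PfP.trans (PfP.trans (PfP.trans (PfP.trans (PfP.trans (PfP.trans (PfP.trans (PfP.trans (PfP.trans (PfP.trans (PfP.trans (PfP.trans (PfP.trans (PfP.trans (PfP.trans (PfP.trans (PfP.trans (PfP.trans (PfP.trans (PfP.trans (PfP.trans (PfP.trans (PfP.trans (PfP.trans (PfP.trans (PfP.trans (PfP.trans (PfP.trans (PfP.trans (PfP.trans (PfP.trans (PfP.trans (PfP.trans (PfP.trans (PfP.trans (PfP.trans (PfP.trans (PfP.trans (PfP.trans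 (PfP.trans (PfP.trans (PfP.trans (PfP.trans (PfP.trans (PfP.trans (PfP.trans (PfP.trans (PfP.trans (PfP.trans (PfP.trans (PfP.trans (PfP.trans (PfP.trans (PfP.trans (PfP.trans (PfP.trans (PfP.trans (PfP.trans
 (PfP.trans (PfP.trans (PfP.trans (PfP.trans (PfP.trans (PfP.trans (PfP.trans (PfP.trans (PfP.trans (PfP.trans (PfP.trans (PfP.trans (PfP.trans (PfP.trans (PfP.trans (PfP.trans (PfP.trans (PfP.trans (PfP.trans (PfP.trans (PfP.trans (PfP.trans (PfP.trans (PfP.trans (PfP.trans (PfP.trans (PfP.trans (PfP.trans (PfP.trans (PfP.trans (PfP.trans (PfP.trans (PfP.trans (PfP.trans (PfP.trans (PfP.trans (PfP.trans (PfP.trans (PfP.trans (PfP.trans (PfP.trans (PfP.trans (PfP.trans (PfP.trans (PfP.trans (PfP.trans (PfP.trans (PfP.trans (PfP.trans (PfP.trans (PfP.trans (PfP.trans (PfP.trans (PfP.trans (PfP.trans (PfP.trans (PfP.trans (PfP.trans (PfP.trans (PfP.trans (PfP.trans (PfP.trans (PfP.trans (PfP.trans (PfP.trans (PfP.trans (PfP.trans (PfP.trans (PfP.trans (PfP.trans (PfP.trans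 (PfP.trans (PfP.trans (PfP.trans (PfP.trans (PfP.trans (PfP.trans (PfP.trans (PfP.trans (PfP.trans (PfP.trans (PfP.trans (PfP.trans (PfP.trans (PfP.trans (PfP.trans (PfP.trans (PfP.trans (PfP.trans (PfP.trans (PfP.trans (PfP.trans (PfP.trans (PfP.trans (PfP.trans (PfP.trans (PfP.trans (PfP.trans (PfP.trans (PfP.trans (PfP.trans (PfP.trans (PfP.trans (PfP.trans (PfP.trans (PfP.trans (PfP.trans (PfP.trans (PfP.trans
 (PfP.trans (PfP.trans (PfP.trans (PfP.trans (PfP.trans (PfP.trans (PfP.trans (PfP.trans (PfP.trans (PfP.trans (PfP.trans (PfP.trans (PfP.trans (PfP.trans (PfP.trans (PfP.trans (PfP.trans (PfP.trans (PfP.trans (PfP.trans (PfP.trans (PfP.trans (PfP.trans (PfP.trans (PfP.trans (PfP.trans (PfP.trans (PfP.trans (PfP.trans (PfP.trans (PfP.trans (PfP.trans (PfP.trans (PfP.trans (PfP.trans (PfP.trans (PfP.trans (PfP.trans (PfP.trans (PfP.trans (PfP.trans (PfP.trans (PfP.trans (PfP.trans (PfP.trans (PfP.trans (PfP.trans (PfP.trans (PfP.trans (PfP.trans (PfP.trans (PfP.trans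 (PfP.trans (PfP.trans (PfP.trans (PfP.trans (PfP.trans (PfP.trans (PfP.trans (PfP.trans (PfP.trans (PfP.trans (PfP.trans (PfP.trans (PfP.trans (PfP.trans (PfP.trans (PfP.trans (PfP.trans (PfP.trans (PfP.trans (PfP.trans (PfP.trans (PfP.trans (PfP.trans (PfP.trans (PfP.trans (PfP.trans (pfC_sound p13_16_0_0) (pfC_sound p13_16_0_1)) (pfC_sound p13_16_0_2)) (pfC_sound p13_16_0_3)) (pfC_sound p13_16_0_4)) (pfC_sound p13_16_0_5)) (pfC_sound p13_16_0_6)) (pfC_sound p13_16_0_7)) (pfC_sound p13_16_0_8)) (pfC_sound p13_16_0_9)) (pfC_sound p13_16_0_10)) (pfC_sound p13_16_0_11)) (pfC_sound p13_16_0_12)) (pfC_sound p13_16_0_13))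
 (pfC_sound p13_16_0_14)) (pfC_sound p13_16_0_15)) (pfC_sound p13_16_0_16)) (pfC_sound p13_16_0_17)) (pfC_sound p13_16_0_18)) (pfC_sound p13_16_0_19)) (pfC_sound p13_16_0_20)) (pfC_sound p13_16_0_21)) (pfC_sound p13_16_0_22)) (pfC_sound p13_16_0_23)) (pfC_sound p13_16_0_24)) (pfC_sound p13_16_0_25)) (pfC_sound p13_16_0_26)) (pfC_sound p13_16_0_27)) (pfC_sound p13_16_0_28)) (pfC_sound p13_16_0_29)) (pfC_sound p13_16_0_30)) (pfC_sound p13_16_0_31)) (pfC_sound p13_16_0_32)) (pfC_sound p13_16_0_33)) (pfC_sound p13_16_0_34)) (pfC_sound p13_16_0_35)) (pfC_sound p13_16_0_36)) (pfC_sound p13_16_0_37)) (pfC_sound p13_16_0_38)) (pfC_sound p13_16_0_39)) (pfC_sound p13_16_0_40)) (pfC_sound p13_16_0_41)) (pfC_sound p13_16_0_42)) (pfC_sound p13_16_0_43)) (pfC_sound p13_16_0_44)) (pfC_sound p13_16_0_45)) (pfC_sound p13_16_0_46)) (pfC_sound p13_16_0_47)) (pfC_sound p13_16_0_48)) (pfC_sound p13_16_0_49)) (pfC_sound p13_16_0_50)) (pfC_sound p13_16_0_51)) (pfC_sound p13_16_0_52)) (pfC_sound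 p13_16_0_53)) (pfC_sound p13_16_0_54)) (pfC_sound p13_16_0_55)) (pfC_sound p13_16_0_56)) (pfC_sound p13_16_0_57)) (pfC_sound p13_16_0_58)) (pfC_sound p13_16_0_59)) (pfC_sound p13_16_0_60)) (pfC_sound p13_16_0_61))
 (pfC_sound p13_16_0_62)) (pfC_sound p13_16_0_63)) (pfC_sound p13_16_0_64)) (pfC_sound p13_16_0_65)) (pfC_sound p13_16_0_66)) (pfC_sound p13_16_0_67)) (pfC_sound p13_16_0_68)) (pfC_sound p13_16_0_69)) (pfC_sound p13_16_0_70)) (pfC_sound p13_16_0_71)) (pfC_sound p13_16_0_72)) (pfC_sound p13_16_0_73)) (pfC_sound p13_16_0_74)) (pfC_sound p13_16_0_75)) (pfC_sound p13_16_0_76)) (pfC_sound p13_16_0_77)) (pfC_sound p13_16_0_78)) (pfC_sound p13_16_0_79)) (pfC_sound p13_16_0_80)) (pfC_sound p13_16_0_81)) (pfC_sound p13_16_0_82)) (pfC_sound p13_16_0_83)) (pfC_sound p13_16_0_84)) (pfC_sound p13_16_0_85)) (pfC_sound p13_16_0_86)) (pfC_sound p13_16_0_87)) (pfC_sound p13_16_0_88)) (pfC_sound p13_16_0_89)) (pfC_sound p13_16_0_90)) (pfC_sound p13_16_0_91)) (pfC_sound p13_16_0_92))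 (pfC_sound p13_16_0_93)) (pfC_sound p13_16_0_94)) (pfC_sound p13_16_0_95)) (pfC_sound p13_16_0_96)) (pfC_sound p13_16_0_97)) (pfC_sound p13_16_0_98)) (pfC_sound p13_16_0_99)) (pfC_sound p13_16_0_100)) (pfC_sound p13_16_0_101)) (pfC_sound p13_16_0_102)) (pfC_sound p13_16_0_103)) (pfC_sound p13_16_0_104)) (pfC_sound p13_16_0_105)) (pfC_sound p13_16_0_106)) (pfC_sound p13_16_0_107)) (pfC_sound p13_16_0_108)) (pfC_sound
 p13_16_0_109)) (pfC_sound p13_16_0_110)) (pfC_sound p13_16_0_111)) (pfC_sound p13_16_0_112)) (pfC_sound p13_16_0_113)) (pfC_sound p13_16_0_114)) (pfC_sound p13_16_0_115)) (pfC_sound p13_16_0_116)) (pfC_sound p13_16_0_117)) (pfC_sound p13_16_0_118)) (pfC_sound p13_16_0_119)) (pfC_sound p13_16_0_120)) (pfC_sound p13_16_0_121)) (pfC_sound p13_16_0_122)) (pfC_sound p13_16_0_123)) (pfC_sound p13_16_0_124)) (pfC_sound p13_16_0_125)) (pfC_sound p13_16_0_126)) (pfC_sound p13_16_0_127)) (pfC_sound p13_16_0_128)) (pfC_sound p13_16_0_129)) (pfC_sound p13_16_0_130))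 (pfC_sound p13_16_0_131)) (pfC_sound p13_16_0_132)) (pfC_sound p13_16_0_133)) (pfC_sound p13_16_0_134)) (pfC_sound p13_16_0_135)) (pfC_sound p13_16_0_136)) (pfC_sound p13_16_0_137)) (pfC_sound p13_16_0_138)) (pfC_sound p13_16_0_139)) (pfC_sound p13_16_0_140)) (pfC_sound p13_16_0_141)) (pfC_sound p13_16_0_142)) (pfC_sound p13_16_0_143)) (pfC_sound p13_16_0_144)) (pfC_sound p13_16_0_145)) (pfC_sound p13_16_0_146)) (pfC_sound p13_16_0_147)) (pfC_sound p13_16_0_148)) (pfC_sound p13_16_0_149)) (pfC_sound p13_16_0_150)) (pfC_sound p13_16_0_151)) (pfC_sound p13_16_0_152)) (pfC_sound p13_16_0_153)) (pfC_sound p13_16_0_154)) (pfC_sound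
 p13_16_0_155)) (pfC_sound p13_16_0_156)) (pfC_sound p13_16_0_157)) (pfC_sound p13_16_0_158)) (pfC_sound p13_16_0_159)) (pfC_sound p13_16_0_160)) (pfC_sound p13_16_0_161)) (pfC_sound p13_16_0_162)) (pfC_sound p13_16_0_163)) (pfC_sound p13_16_0_164)) (pfC_sound p13_16_0_165)) (pfC_sound p13_16_0_166)) (pfC_sound p13_16_0_167)) (pfC_sound p13_16_0_168)) (pfC_sound p13_16_0_169)) (pfC_sound p13_16_0_170)) (pfC_sound p13_16_0_171)) (pfC_sound p13_16_0_172)) (pfC_sound p13_16_0_173)) (pfC_sound p13_16_0_174)) (pfC_sound p13_16_0_175)) (pfC_sound p13_16_0_176)) (pfC_sound p13_16_0_177)) (pfC_sound p13_16_0_178)) (pfC_sound p13_16_0_179)) (pfC_sound p13_16_0_180)) (pfC_sound p13_16_0_181)) (pfC_sound p13_16_0_182)) (pfC_sound p13_16_0_183)) (pfC_sound p13_16_0_184)) (pfC_sound p13_16_0_185)) (pfC_sound p13_16_0_186)) (pfC_sound p13_16_0_187)) (pfC_sound p13_16_0_188)) (pfC_sound p13_16_0_189)) (pfC_sound p13_16_0_190)) (pfC_sound p13_16_0_191)) (pfC_sound p13_16_0_192)) (pfC_sound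 p13_16_0_193)) (pfC_sound p13_16_0_194)) (pfC_sound p13_16_0_195)) (pfC_sound p13_16_0_196)) (pfC_sound p13_16_0_197)) (pfC_sound p13_16_0_198)) (pfC_sound p13_16_0_199)) (pfC_sound p13_16_0_200)) (pfC_sound
 p13_16_0_201)) (pfC_sound p13_16_0_202)) (pfC_sound p13_16_0_203)) (pfC_sound p13_16_0_204)) (pfC_sound p13_16_0_205)) (pfC_sound p13_16_0_206)) (pfC_sound p13_16_0_207)) (pfC_sound p13_16_0_208)) (pfC_sound p13_16_0_209)) (pfC_sound p13_16_0_210)) (pfC_sound p13_16_0_211)) (pfC_sound p13_16_0_212)) (pfC_sound p13_16_0_213)) (pfC_sound p13_16_0_214)) (pfC_sound p13_16_0_215)) (pfC_sound p13_16_0_216)) (pfC_sound p13_16_0_217)) (pfC_sound p13_16_0_218)) (pfC_sound p13_16_0_219)) (pfC_sound p13_16_0_220)) (pfC_sound p13_16_0_221)) (pfC_sound p13_16_0_222)) (pfC_sound p13_16_0_223)) (pfC_sound p13_16_0_224)) (pfC_sound p13_16_0_225)) (pfC_sound p13_16_0_226)) (pfC_sound p13_16_0_227)) (pfC_sound p13_16_0_228)) (pfC_sound p13_16_0_229)) (pfC_sound p13_16_0_230)) (pfC_sound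 p13_16_0_231)) (pfC_sound p13_16_0_232)) (pfC_sound p13_16_0_233)) (pfC_sound p13_16_0_234)) (pfC_sound p13_16_0_235)) (pfC_sound p13_16_0_236)) (pfC_sound p13_16_0_237)) (pfC_sound p13_16_0_238)) (pfC_sound p13_16_0_239)) (pfC_sound p13_16_0_240)) (pfC_sound p13_16_0_241)) (pfC_sound p13_16_0_242)) (pfC_sound p13_16_0_243)) (pfC_sound p13_16_0_244)) (pfC_sound p13_16_0_245)) (pfC_sound p13_16_0_246)) (pfC_sound
 p13_16_0_247)) (pfC_sound p13_16_0_248)) (pfC_sound p13_16_0_249)) (pfC_sound p13_16_0_250)) (pfC_sound p13_16_0_251)) (pfC_sound p13_16_0_252)) (pfC_sound p13_16_0_253)) (pfC_sound p13_16_0_254)) (pfC_sound p13_16_0_255)) (pfC_sound p13_16_0_256)) (pfC_sound p13_16_0_257)) (pfC_sound p13_16_0_258)) (pfC_sound p13_16_0_259)) (pfC_sound p13_16_0_260)) (pfC_sound p13_16_0_261)) (pfC_sound p13_16_0_262)) (pfC_sound p13_16_0_263)) (pfC_sound p13_16_0_264)) (pfC_sound p13_16_0_265)) (pfC_sound p13_16_0_266)) (pfC_sound p13_16_0_267)) (pfC_sound p13_16_0_268)) (pfC_sound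 p13_16_0_269)) (pfC_sound p13_16_0_270)) (pfC_sound p13_16_0_271)) (pfC_sound p13_16_0_272)) (pfC_sound p13_16_0_273)) (pfC_sound p13_16_0_274)) (pfC_sound p13_16_0_275)) (pfC_sound p13_16_0_276)) (pfC_sound p13_16_0_277)) (pfC_sound p13_16_0_278)) (pfC_sound p13_16_0_279)) (pfC_sound p13_16_0_280)) (pfC_sound p13_16_0_281)) (pfC_sound p13_16_0_282)) (pfC_sound p13_16_0_283)) (pfC_sound p13_16_0_284)) (pfC_sound p13_16_0_285)) (pfC_sound p13_16_0_286)) (pfC_sound p13_16_0_287)) (pfC_sound p13_16_0_288)) (pfC_sound p13_16_0_289)) (pfC_sound p13_16_0_290)) (pfC_sound p13_16_0_291)) (pfC_sound p13_16_0_292)) (pfC_sound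
 p13_16_0_293)) (pfC_sound p13_16_0_294)) (pfC_sound p13_16_0_295)) (pfC_sound p13_16_0_296)) (pfC_sound p13_16_0_297)) (pfC_sound p13_16_0_298)) (pfC_sound p13_16_0_299)) (pfC_sound p13_16_0_300)) (pfC_sound p13_16_0_301)) (pfC_sound p13_16_0_302)) (pfC_sound p13_16_0_303)) (pfC_sound p13_16_0_304)) (pfC_sound p13_16_0_305)) (pfC_sound p13_16_0_306)) (pfC_sound p13_16_0_307)) (pfC_sound p13_16_0_308)) (pfC_sound p13_16_0_309)) (pfC_sound p13_16_0_310)) (pfC_sound p13_16_0_311)) (pfC_sound p13_16_0_312)) (pfC_sound p13_16_0_313)) (pfC_sound p13_16_0_314)) (pfC_sound p13_16_0_315)) (pfC_sound p13_16_0_316)) (pfC_sound p13_16_0_317)) (pfC_sound p13_16_0_318)) (pfC_sound p13_16_0_319)) (pfC_sound p13_16_0_320)) (pfC_sound p13_16_0_321)) (pfC_sound p13_16_0_322)) (pfC_sound p13_16_0_323)) (pfC_sound p13_16_0_324)) (pfC_sound p13_16_0_325)) (pfC_sound p13_16_0_326)) (pfC_sound p13_16_0_327)) (pfC_sound p13_16_0_328)) (pfC_sound p13_16_0_329)) (pfC_sound p13_16_0_330)) (pfC_sound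 p13_16_0_331)) (pfC_sound p13_16_0_332)) (pfC_sound p13_16_0_333)) (pfC_sound p13_16_0_334)) (pfC_sound p13_16_0_335)) (pfC_sound p13_16_0_336)) (pfC_sound p13_16_0_337)) (pfC_sound p13_16_0_338)) (pfC_sound
 p13_16_0_339)) (pfC_sound p13_16_0_340)) (pfC_sound p13_16_0_341)) (pfC_sound p13_16_0_342)) (pfC_sound p13_16_0_343)) (pfC_sound p13_16_0_344)) (pfC_sound p13_16_0_345)) (pfC_sound p13_16_0_346)) (pfC_sound p13_16_0_347)) (pfC_sound p13_16_0_348)) (pfC_sound p13_16_0_349)) (pfC_sound p13_16_0_350)) (pfC_sound p13_16_0_351)) (pfC_sound p13_16_0_352)) (pfC_sound p13_16_0_353)) (pfC_sound p13_16_0_354)) (pfC_sound p13_16_0_355)) (pfC_sound p13_16_0_356)) (pfC_sound p13_16_0_357)) (pfC_sound p13_16_0_358)) (pfC_sound p13_16_0_359)) (pfC_sound p13_16_0_360)) (pfC_sound p13_16_0_361)) (pfC_sound p13_16_0_362)) (pfC_sound p13_16_0_363)) (pfC_sound p13_16_0_364)) (pfC_sound p13_16_0_365)) (pfC_sound p13_16_0_366)) (pfC_sound p13_16_0_367)) (pfC_sound p13_16_0_368)) (pfC_sound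 p13_16_0_369)) (pfC_sound p13_16_0_370)) (pfC_sound p13_16_0_371)) (pfC_sound p13_16_0_372)) (pfC_sound p13_16_0_373)) (pfC_sound p13_16_0_374)) (pfC_sound p13_16_0_375)) (pfC_sound p13_16_0_376)) (pfC_sound p13_16_0_377)) (pfC_sound p13_16_0_378)) (pfC_sound p13_16_0_379)) (pfC_sound p13_16_0_380)) (pfC_sound p13_16_0_381)) (pfC_sound p13_16_0_382)) (pfC_sound p13_16_0_383)) (pfC_sound p13_16_0_384)) (pfC_sound
 p13_16_0_385)) (pfC_sound p13_16_0_386)) (pfC_sound p13_16_0_387)) (pfC_sound p13_16_0_388)) (pfC_sound p13_16_0_389)) (pfC_sound p13_16_0_390)) (pfC_sound p13_16_0_391)) (pfC_sound p13_16_0_392)) (pfC_sound p13_16_0_393)) (pfC_sound p13_16_0_394)) (pfC_sound p13_16_0_395)) (pfC_sound p13_16_0_396)) (pfC_sound p13_16_0_397)) (pfC_sound p13_16_0_398)) (pfC_sound p13_16_0_399)) (pfC_sound p13_16_0_400)) (pfC_sound p13_16_0_401)) (pfC_sound p13_16_0_402)) (pfC_sound p13_16_0_403)) (pfC_sound p13_16_0_404)) (pfC_sound p13_16_0_405)) (by decide +kernel)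

def z13_16_0 : zOK yB13_16 (nat_lit 0) (nat_lit 0) (nat_lit 400) (nat_lit 22256242) (nat_lit 11026205) = true := by decide +kernel
def g13_16_0 : gOK yB13_16.x P13_16 (nat_lit 1405) (q13_16 :: r13_16) (nat_lit 0) (nat_lit 0) (nat_lit 1) (nat_lit 400) (nat_lit 0) (nat_lit 11000000) (nat_lit 12712500) (nat_lit 12712500) [(nat_lit 800), (nat_lit 1600)] = true := by decide +kernel
def v13_16_0 : ivC P13_16 s13_16 w13_16 n13_16 (nat_lit 4) (nat_lit 5340) (nat_lit 0) (nat_lit 0) f168_1_0 f176_1_0 (nat_lit 1) (nat_lit 400) f168_1_400 f176_1_400 (nat_lit 22256242) (nat_lit 11026205) p13_16_0 = true := by decide +kernel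
def p13_16_1 : PF := (PF.cons (PF.cons (PF.cons (PF.cons (PF.leaf (nat_lit 2010624) (nat_lit 9290680) (nat_lit 57818132) (nat_lit 9290680) [(nat_lit 0), (nat_lit 0), (nat_lit 0), (nat_lit 0)]) (PF.cons (PF.leaf (nat_lit 2234039) (nat_lit 402152) (nat_lit 57377846) (nat_lit 9328814) [(nat_lit 402152), (nat_lit 0), (nat_lit 0), (nat_lit 0)]) (PF.cons (PF.leaf (nat_lit 2497295) (nat_lit 437851) (nat_lit 56864260) (nat_lit 9368849) [(nat_lit 437851), (nat_lit 0), (nat_lit 0), (nat_lit 0)]) (PF.cons (PF.leaf (nat_lit 2792915) (nat_lit 469550) (nat_lit 56291969) (nat_lit 9408191) [(nat_lit 469550), (nat_lit 0), (nat_lit 0), (nat_lit 0)]) (PF.cons (PF.leaf (nat_lit 3115992) (nat_lit 498071) (nat_lit 55671568) (nat_lit 9444960) [(nat_lit 498071), (nat_lit 0), (nat_lit 0), (nat_lit 0)]) (PF.cons (PF.leaf (nat_lit 3462666) (nat_lit 523923) (nat_lit 55011419) (nat_lit 9477775) [(nat_lit 523923), (nat_lit 0), (nat_lit 0), (nat_lit 0)]) (PF.cons (PF.leaf (nat_lit 3829701) (nat_lit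 547452) (nat_lit 54318461) (nat_lit 9505638) [(nat_lit 547452), (nat_lit 0), (nat_lit 0), (nat_lit 0)]) (PF.cons (PF.leaf (nat_lit 4214262) (nat_lit 568904) (nat_lit 53598635) (nat_lit 9527848) [(nat_lit 568904), (nat_lit 0), (nat_lit
 0), (nat_lit 0)]) (PF.cons (PF.leaf (nat_lit 4613817) (nat_lit 588467) (nat_lit 52857122) (nat_lit 9543948) [(nat_lit 588467), (nat_lit 0), (nat_lit 0), (nat_lit 0)]) (PF.cons (PF.leaf (nat_lit 5026131) (nat_lit 606293) (nat_lit 52098502) (nat_lit 9553673) [(nat_lit 606293), (nat_lit 0), (nat_lit 0), (nat_lit 0)]) (PF.cons PF.nil (PF.cons PF.nil PF.nil)))))))))))) (PF.cons (PF.cons (PF.leaf (nat_lit 2664403) (nat_lit 1554048) (nat_lit 56146943) (nat_lit 9407820) [(nat_lit 0), (nat_lit 1554048), (nat_lit 0), (nat_lit 0)]) (PF.cons (PF.leaf (nat_lit 2948929) (nat_lit 479124) (nat_lit 55588533) (nat_lit 9439998) [(nat_lit 479124), (nat_lit 1601157), (nat_lit 0), (nat_lit 0)]) (PF.cons (PF.leaf (nat_lit 3263269) (nat_lit 506827) (nat_lit 54978867)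 (nat_lit 9469883) [(nat_lit 506827), (nat_lit 1646406), (nat_lit 0), (nat_lit 0)]) (PF.cons (PF.leaf (nat_lit 3602254) (nat_lit 531835) (nat_lit 54328116) (nat_lit 9496067) [(nat_lit 531835), (nat_lit 1689121), (nat_lit 0), (nat_lit 0)]) (PF.cons (PF.leaf (nat_lit 3962169) (nat_lit 554531) (nat_lit 53644144) (nat_lit 9517566) [(nat_lit 554531), (nat_lit 1728976), (nat_lit 0), (nat_lit 0)]) (PF.cons (PF.leaf (nat_lit 4339919) (nat_lit 575179)
 (nat_lit 52933380) (nat_lit 9533703) [(nat_lit 575179), (nat_lit 1765833), (nat_lit 0), (nat_lit 0)]) (PF.cons (PF.leaf (nat_lit 4732842) (nat_lit 593974) (nat_lit 52201266) (nat_lit 9544046) [(nat_lit 593974), (nat_lit 1799652), (nat_lit 0), (nat_lit 0)]) (PF.cons (PF.leaf (nat_lit 5138589) (nat_lit 611071) (nat_lit 51452503) (nat_lit 9548349) [(nat_lit 611071), (nat_lit 1830459), (nat_lit 0), (nat_lit 0)]) (PF.cons (PF.leaf (nat_lit 5555062) (nat_lit 626596) (nat_lit 50691202) (nat_lit 9546517) [(nat_lit 626596), (nat_lit 1858318),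 (nat_lit 0), (nat_lit 0)]) (PF.cons PF.nil PF.nil)))))))))) (PF.cons (PF.cons (PF.leaf (nat_lit 3414531) (nat_lit 1674391) (nat_lit 54270998) (nat_lit 9489030) [(nat_lit 0), (nat_lit 1674391), (nat_lit 0), (nat_lit 0)]) (PF.cons (PF.leaf (nat_lit 3743559) (nat_lit 538513) (nat_lit 53634984) (nat_lit 9508874) [(nat_lit 538513), (nat_lit 1713220), (nat_lit 0), (nat_lit 0)]) (PF.cons (PF.leaf (nat_lit 4095048) (nat_lit 560575) (nat_lit 52963865) (nat_lit 9524347) [(nat_lit 560575), (nat_lit 1749724), (nat_lit 0), (nat_lit 0)]) (PF.cons (PF.leaf (nat_lit 4465070) (nat_lit 580565) (nat_lit 52265086) (nat_lit 9534773) [(nat_lit 580565), (nat_lit 1783627),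
 (nat_lit 0), (nat_lit 0)]) (PF.cons (PF.leaf (nat_lit 4850704) (nat_lit 598706) (nat_lit 51544640) (nat_lit 9539727) [(nat_lit 598706), (nat_lit 1814808), (nat_lit 0), (nat_lit 0)]) (PF.cons (PF.leaf (nat_lit 5249419) (nat_lit 615166) (nat_lit 50807529) (nat_lit 9538974) [(nat_lit 615166), (nat_lit 1843237), (nat_lit 0), (nat_lit 0)]) (PF.cons (PF.leaf (nat_lit 5659021) (nat_lit 630080) (nat_lit 50058025) (nat_lit 9532426) [(nat_lit 630080), (nat_lit 1868940), (nat_lit 0), (nat_lit 0)]) (PF.cons PF.nil (PF.cons PF.nil PF.nil))))))))) (PF.cons (PF.cons (PF.leaf (nat_lit 4229967) (nat_lit 1768758) (nat_lit 52276405) (nat_lit 9526131) [(nat_lit 0), (nat_lit 1768758), (nat_lit 0), (nat_lit 0)]) (PF.cons (PF.leaf (nat_lit 4590752) (nat_lit 585049) (nat_lit 51593055) (nat_lit 9531224) [(nat_lit 585049), (nat_lit 1799827), (nat_lit 0), (nat_lit 0)]) (PF.cons (PF.leaf (nat_lit 4968213) (nat_lit 602661) (nat_lit 50886840) (nat_lit 9531167) [(nat_lit 602661), (nat_lit 1828493),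 (nat_lit 0), (nat_lit 0)]) (PF.cons (PF.leaf (nat_lit 5359284) (nat_lit 618582) (nat_lit 50163343) (nat_lit 9525726) [(nat_lit 618582), (nat_lit 1854664), (nat_lit 0), (nat_lit 0)]) (PF.cons (PF.leaf (nat_lit
 5761590) (nat_lit 632964) (nat_lit 49427164) (nat_lit 9514815) [(nat_lit 632964), (nat_lit 1878325), (nat_lit 0), (nat_lit 0)]) (PF.cons (PF.leaf (nat_lit 6173070) (nat_lit 645929) (nat_lit 48682184) (nat_lit 9498459) [(nat_lit 645929), (nat_lit 1899507), (nat_lit 0), (nat_lit 0)]) (PF.cons PF.nil PF.nil))))))) (PF.cons (PF.cons (PF.leaf (nat_lit 5086574) (nat_lit 1840814) (nat_lit 50227050) (nat_lit 9518506) [(nat_lit 0), (nat_lit 1840814), (nat_lit 0), (nat_lit 0)]) (PF.cons (PF.leaf (nat_lit 5468931) (nat_lit 621311) (nat_lit 49519431) (nat_lit 9508753) [(nat_lit 621311), (nat_lit 1864829), (nat_lit 0), (nat_lit 0)]) (PF.cons (PF.leaf (nat_lit 5863356) (nat_lit 635249) (nat_lit 48798283) (nat_lit 9493835) [(nat_lit 635249), (nat_lit 1886549), (nat_lit 0), (nat_lit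 0)]) (PF.cons (PF.leaf (nat_lit 6267375) (nat_lit 647770) (nat_lit 48067829) (nat_lit 9473777) [(nat_lit 647770), (nat_lit 1905973), (nat_lit 0), (nat_lit 0)]) (PF.cons (PF.leaf (nat_lit 6679081) (nat_lit 658990) (nat_lit 47331588) (nat_lit 9448686) [(nat_lit 658990), (nat_lit 1923143), (nat_lit 0), (nat_lit 0)]) PF.nil))))) (PF.cons (PF.cons (PF.leaf (nat_lit 5965268) (nat_lit 1893683) (nat_lit 48170787) (nat_lit
 9469608) [(nat_lit 0), (nat_lit 1893683), (nat_lit 0), (nat_lit 0)]) (PF.cons (PF.leaf (nat_lit 6361068) (nat_lit 649079) (nat_lit 47456349) (nat_lit 9446186) [(nat_lit 649079), (nat_lit 1911439), (nat_lit 0), (nat_lit 0)]) (PF.cons (PF.leaf (nat_lit 6765230) (nat_lit 659931) (nat_lit 46735451) (nat_lit 9418007) [(nat_lit 659931), (nat_lit 1927098), (nat_lit 0), (nat_lit 0)]) (PF.cons PF.nil PF.nil)))) (PF.cons (PF.cons (PF.leaf (nat_lit 6851146) (nat_lit 1930189) (nat_lit 46142841) (nat_lit 9384836) [(nat_lit 0), (nat_lit 1930189), (nat_lit 0), (nat_lit 0)])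 (PF.cons (PF.leaf (nat_lit 7253944) (nat_lit 669750) (nat_lit 45434515) (nat_lit 9349537) [(nat_lit 669750), (nat_lit 1942501), (nat_lit 0), (nat_lit 0)]) PF.nil)) (PF.cons PF.nil (PF.cons PF.nil PF.nil))))))))) (PF.cons (PF.cons (PF.cons (PF.leaf (nat_lit 3271124) (nat_lit 3848805) (nat_lit 53795091) (nat_lit 9464916) [(nat_lit 0), (nat_lit 0), (nat_lit 3848805), (nat_lit 0)]) (PF.cons (PF.leaf (nat_lit 3566427) (nat_lit 511621) (nat_lit 53226553) (nat_lit 9480960) [(nat_lit 511621), (nat_lit 0), (nat_lit 3889678), (nat_lit 0)]) (PF.cons (PF.leaf (nat_lit 3889455) (nat_lit 536919) (nat_lit 52611795) (nat_lit 9493812)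
 [(nat_lit 536919), (nat_lit 0), (nat_lit 3929366), (nat_lit 0)]) (PF.cons (PF.leaf (nat_lit 4234845) (nat_lit 559398) (nat_lit 51961271) (nat_lit 9502554) [(nat_lit 559398), (nat_lit 0), (nat_lit 3966792), (nat_lit 0)]) (PF.cons (PF.leaf (nat_lit 4598825) (nat_lit 579530) (nat_lit 51282816) (nat_lit 9506581) [(nat_lit 579530), (nat_lit 0), (nat_lit 4001291), (nat_lit 0)]) (PF.cons (PF.leaf (nat_lit 4978355) (nat_lit 597635) (nat_lit 50582657) (nat_lit 9505516) [(nat_lit 597635), (nat_lit 0), (nat_lit 4032460), (nat_lit 0)]) (PF.cons (PF.leaf (nat_lit 5370881) (nat_lit 613943) (nat_lit 49865924) (nat_lit 9499152) [(nat_lit 613943), (nat_lit 0), (nat_lit 4060072), (nat_lit 0)]) (PF.cons (PF.leaf (nat_lit 5774192) (nat_lit 628632) (nat_lit 49136947) (nat_lit 9487418) [(nat_lit 628632), (nat_lit 0), (nat_lit 4084021), (nat_lit 0)]) (PF.cons PF.nil (PF.cons PF.nil PF.nil)))))))))) (PF.cons (PF.cons (PF.leaf (nat_lit 4031883) (nat_lit 1740168) (nat_lit 51917539) (nat_lit 9494549)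 [(nat_lit 0), (nat_lit 1740168), (nat_lit 3956555), (nat_lit 0)]) (PF.cons (PF.leaf (nat_lit 4366291) (nat_lit 563562) (nat_lit 51285525) (nat_lit 9498312) [(nat_lit 563562), (nat_lit 1772114), (nat_lit
 3989297), (nat_lit 0)]) (PF.cons (PF.leaf (nat_lit 4721047) (nat_lit 583298) (nat_lit 50623183) (nat_lit 9497626) [(nat_lit 583298), (nat_lit 1801821), (nat_lit 4019584), (nat_lit 0)]) (PF.cons (PF.leaf (nat_lit 5092258) (nat_lit 600951) (nat_lit 49937806) (nat_lit 9492116) [(nat_lit 600951), (nat_lit 1829105), (nat_lit 4046930), (nat_lit 0)]) (PF.cons (PF.leaf (nat_lit 5477049) (nat_lit 616786) (nat_lit 49235119) (nat_lit 9481588) [(nat_lit 616786), (nat_lit 1853906), (nat_lit 4071054), (nat_lit 0)]) (PF.cons (PF.leaf (nat_lit 5873009) (nat_lit 630999) (nat_lit 48519790) (nat_lit 9465975) [(nat_lit 630999), (nat_lit 1876232), (nat_lit 4091814), (nat_lit 0)]) (PF.cons (PF.leaf (nat_lit 6278097) (nat_lit 643746) (nat_lit 47795720) (nat_lit 9445312) [(nat_lit 643746), (nat_lit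 1896133), (nat_lit 4109167), (nat_lit 0)]) (PF.cons PF.nil (PF.cons PF.nil PF.nil))))))))) (PF.cons (PF.cons (PF.leaf (nat_lit 4845584) (nat_lit 1814994) (nat_lit 49958961) (nat_lit 9484511) [(nat_lit 0), (nat_lit 1814994), (nat_lit 4035351), (nat_lit 0)]) (PF.cons (PF.leaf (nat_lit 5206999) (nat_lit 603476) (nat_lit 49291356) (nat_lit 9474940) [(nat_lit 603476), (nat_lit 1839989), (nat_lit 4059060), (nat_lit
 0)]) (PF.cons (PF.leaf (nat_lit 5583218) (nat_lit 618955) (nat_lit 48604887) (nat_lit 9460606) [(nat_lit 618955), (nat_lit 1862760), (nat_lit 4079886), (nat_lit 0)]) (PF.cons (PF.leaf (nat_lit 5971268) (nat_lit 632785) (nat_lit 47904829) (nat_lit 9441450) [(nat_lit 632785), (nat_lit 1883266), (nat_lit 4097642), (nat_lit 0)]) (PF.cons (PF.leaf (nat_lit 6368892) (nat_lit 645141) (nat_lit 47195438) (nat_lit 9417511) [(nat_lit 645141), (nat_lit 1901521), (nat_lit 4112253), (nat_lit 0)]) (PF.cons (PF.leaf (nat_lit 6774178) (nat_lit 656160) (nat_lit 46480232) (nat_lit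 9388899) [(nat_lit 656160), (nat_lit 1917580), (nat_lit 4123719), (nat_lit 0)]) (PF.cons PF.nil PF.nil))))))) (PF.cons (PF.cons (PF.leaf (nat_lit 5690566) (nat_lit 1870513) (nat_lit 47974292) (nat_lit 9436296) [(nat_lit 0), (nat_lit 1870513), (nat_lit 4086684), (nat_lit 0)]) (PF.cons (PF.leaf (nat_lit 6069683) (nat_lit 633973) (nat_lit 47291436) (nat_lit 9413947) [(nat_lit 633973), (nat_lit 1889282), (nat_lit 4101609), (nat_lit 0)]) (PF.cons (PF.leaf (nat_lit 6459297) (nat_lit 646019) (nat_lit 46598143) (nat_lit 9387051) [(nat_lit 646019), (nat_lit 1905977), (nat_lit 4113646), (nat_lit 0)]) (PF.cons (PF.leaf (nat_lit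
 6857088) (nat_lit 656717) (nat_lit 45898293) (nat_lit 9355722) [(nat_lit 656717), (nat_lit 1920625), (nat_lit 4122767), (nat_lit 0)]) (PF.cons PF.nil PF.nil))))) (PF.cons (PF.cons (PF.leaf (nat_lit 6550210) (nat_lit 1909552) (nat_lit 46003160) (nat_lit 9354011) [(nat_lit 0), (nat_lit 1909552), (nat_lit 4113429), (nat_lit 0)]) (PF.cons (PF.leaf (nat_lit 6939775) (nat_lit 656815) (nat_lit 45319914) (nat_lit 9320266) [(nat_lit 656815), (nat_lit 1922864), (nat_lit 4120357), (nat_lit 0)]) (PF.cons (PF.leaf (nat_lit 7336470) (nat_lit 666031) (nat_lit 44632430) (nat_lit 9282463) [(nat_lit 666031), (nat_lit 1934313), (nat_lit 4124604), (nat_lit 0)]) (PF.cons PF.nil PF.nil)))) (PF.cons (PF.cons (PF.leaf (nat_lit 7411817) (nat_lit 1934649) (nat_lit 44073756) (nat_lit 9242858) [(nat_lit 0), (nat_lit 1934649), (nat_lit 4118949), (nat_lit 0)]) (PF.cons PF.nil PF.nil)) (PF.cons PF.nil (PF.cons PF.nil PF.nil)))))))) (PF.cons (PF.cons (PF.cons (PF.leaf (nat_lit 4630427) (nat_lit 4008740)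 (nat_lit 49641759) (nat_lit 9449572) [(nat_lit 0), (nat_lit 0), (nat_lit 4008740), (nat_lit 0)]) (PF.cons (PF.leaf (nat_lit 4967147) (nat_lit 582527) (nat_lit 49022341) (nat_lit 9440129) [(nat_lit 582527),
 (nat_lit 0), (nat_lit 4031907), (nat_lit 0)]) (PF.cons (PF.leaf (nat_lit 5322380) (nat_lit 600204) (nat_lit 48376663) (nat_lit 9426330) [(nat_lit 600204), (nat_lit 0), (nat_lit 4052705), (nat_lit 0)]) (PF.cons (PF.leaf (nat_lit 5692282) (nat_lit 615811) (nat_lit 47711752) (nat_lit 9408035) [(nat_lit 615811), (nat_lit 0), (nat_lit 4070795), (nat_lit 0)]) (PF.cons (PF.leaf (nat_lit 6074059) (nat_lit 629647) (nat_lit 47033010) (nat_lit 9385213) [(nat_lit 629647), (nat_lit 0), (nat_lit 4086000), (nat_lit 0)]) (PF.cons (PF.leaf (nat_lit 6465438) (nat_lit 641929) (nat_lit 46344757) (nat_lit 9357919) [(nat_lit 641929), (nat_lit 0), (nat_lit 4098244), (nat_lit 0)]) (PF.cons (PF.leaf (nat_lit 6864470) (nat_lit 652824) (nat_lit 45650539) (nat_lit 9326269) [(nat_lit 652824),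 (nat_lit 0), (nat_lit 4107529), (nat_lit 0)]) (PF.cons PF.nil (PF.cons PF.nil PF.nil))))))))) (PF.cons (PF.cons (PF.leaf (nat_lit 5436684) (nat_lit 1845733) (nat_lit 47740918) (nat_lit 9401697) [(nat_lit 0), (nat_lit 1845733), (nat_lit 4060231), (nat_lit 0)]) (PF.cons (PF.leaf (nat_lit 5796490) (nat_lit 616757) (nat_lit 47095093) (nat_lit 9380428) [(nat_lit 616757), (nat_lit 1865643), (nat_lit 4075445), (nat_lit 0)])
 (PF.cons (PF.leaf (nat_lit 6169495) (nat_lit 630380) (nat_lit 46433643) (nat_lit 9354818) [(nat_lit 630380), (nat_lit 1883500), (nat_lit 4088044), (nat_lit 0)]) (PF.cons (PF.leaf (nat_lit 6552861) (nat_lit 642406) (nat_lit 45761511) (nat_lit 9324936) [(nat_lit 642406), (nat_lit 1899300), (nat_lit 4097921), (nat_lit 0)]) (PF.cons (PF.leaf (nat_lit 6944427) (nat_lit 653026) (nat_lit 45082610) (nat_lit 9290906) [(nat_lit 653026), (nat_lit 1913085), (nat_lit 4105052), (nat_lit 0)]) (PF.cons PF.nil (PF.cons PF.nil PF.nil))))))) (PF.cons (PF.cons (PF.leaf (nat_lit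 6266423) (nat_lit 1887611) (nat_lit 45834965) (nat_lit 9321731) [(nat_lit 0), (nat_lit 1887611), (nat_lit 4088446), (nat_lit 0)]) (PF.cons (PF.leaf (nat_lit 6640786) (nat_lit 642357) (nat_lit 45180619) (nat_lit 9289582) [(nat_lit 642357), (nat_lit 1902019), (nat_lit 4096107), (nat_lit 0)]) (PF.cons (PF.leaf (nat_lit 7024354) (nat_lit 652779) (nat_lit 44518235) (nat_lit 9253456) [(nat_lit 652779), (nat_lit 1914555), (nat_lit 4101225), (nat_lit 0)]) (PF.cons (PF.leaf (nat_lit 7414915) (nat_lit 661921) (nat_lit 43851363) (nat_lit 9213529) [(nat_lit 661921), (nat_lit 1925263), (nat_lit 4103813), (nat_lit 0)]) (PF.cons PF.nil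
 PF.nil))))) (PF.cons (PF.cons (PF.leaf (nat_lit 7105114) (nat_lit 1915311) (nat_lit 43956696) (nat_lit 9213962) [(nat_lit 0), (nat_lit 1915311), (nat_lit 4096109), (nat_lit 0)]) (PF.cons (PF.leaf (nat_lit 7487551) (nat_lit 661054) (nat_lit 43306500) (nat_lit 9172385) [(nat_lit 661054), (nat_lit 1924957), (nat_lit 4097000), (nat_lit 0)]) (PF.cons PF.nil (PF.cons PF.nil PF.nil)))) (PF.cons (PF.cons (PF.leaf (nat_lit 7941892) (nat_lit 1931119) (nat_lit 42128664) (nat_lit 9083213) [(nat_lit 0), (nat_lit 1931119), (nat_lit 4086229), (nat_lit 0)]) (PF.cons PF.nil PF.nil)) (PF.cons PF.nil PF.nil)))))) (PF.cons (PF.cons (PF.cons (PF.leaf (nat_lit 6002545) (nat_lit 4062860) (nat_lit 45632534) (nat_lit 9287695) [(nat_lit 0), (nat_lit 0), (nat_lit 4062860), (nat_lit 0)]) (PF.cons (PF.leaf (nat_lit 6359079) (nat_lit 625830) (nat_lit 45012260) (nat_lit 9257245) [(nat_lit 625830), (nat_lit 0), (nat_lit 4071158), (nat_lit 0)]) (PF.cons (PF.leaf (nat_lit 6727484) (nat_lit 637839) (nat_lit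 44378975) (nat_lit 9222876) [(nat_lit 637839), (nat_lit 0), (nat_lit 4077094), (nat_lit 0)]) (PF.cons (PF.leaf (nat_lit 7105000) (nat_lit 648309) (nat_lit 43737281) (nat_lit 9184747) [(nat_lit 648309), (nat_lit
 0), (nat_lit 4080619), (nat_lit 0)]) (PF.cons (PF.leaf (nat_lit 7489590) (nat_lit 657441) (nat_lit 43090767) (nat_lit 9143039) [(nat_lit 657441), (nat_lit 0), (nat_lit 4081746), (nat_lit 0)]) (PF.cons PF.nil (PF.cons PF.nil PF.nil))))))) (PF.cons (PF.cons (PF.leaf (nat_lit 6814670) (nat_lit 1894661) (nat_lit 43813281) (nat_lit 9183321) [(nat_lit 0), (nat_lit 1894661), (nat_lit 4072516), (nat_lit 0)]) (PF.cons (PF.leaf (nat_lit 7183240) (nat_lit 647271) (nat_lit 43189439) (nat_lit 9143679) [(nat_lit 647271), (nat_lit 1905447), (nat_lit 4074325), (nat_lit 0)]) (PF.cons (PF.leaf (nat_lit 7559936) (nat_lit 656298) (nat_lit 42559405) (nat_lit 9100572) [(nat_lit 656298), (nat_lit 1914542), (nat_lit 4073898), (nat_lit 0)]) (PF.cons PF.nil (PF.cons PF.nil PF.nil)))))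 (PF.cons (PF.cons (PF.leaf (nat_lit 7631406) (nat_lit 1913074) (nat_lit 42031125) (nat_lit 9056490) [(nat_lit 0), (nat_lit 1913074), (nat_lit 4065015), (nat_lit 0)]) (PF.cons (PF.leaf (nat_lit 8006171) (nat_lit 662480) (nat_lit 41414544) (nat_lit 9009098) [(nat_lit 662480), (nat_lit 1919699), (nat_lit 4061097), (nat_lit 0)]) (PF.cons PF.nil (PF.cons PF.nil PF.nil)))) (PF.cons (PF.cons (PF.leaf (nat_lit 8443385) (nat_lit
 1921333) (nat_lit 40304132) (nat_lit 8911567) [(nat_lit 0), (nat_lit 1921333), (nat_lit 4043037), (nat_lit 0)]) (PF.cons PF.nil PF.nil)) (PF.cons PF.nil PF.nil))))) (PF.cons (PF.cons (PF.cons (PF.leaf (nat_lit 7336327) (nat_lit 4042927) (nat_lit 41909274) (nat_lit 9027827) [(nat_lit 0), (nat_lit 0), (nat_lit 4042927), (nat_lit 0)]) (PF.cons (PF.leaf (nat_lit 7698394) (nat_lit 649376) (nat_lit 41316674) (nat_lit 8982575) [(nat_lit 649376), (nat_lit 0), (nat_lit 4040046), (nat_lit 0)]) (PF.cons (PF.leaf (nat_lit 8067708) (nat_lit 657205) (nat_lit 40719302)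 (nat_lit 8934310) [(nat_lit 657205), (nat_lit 0), (nat_lit 4035197), (nat_lit 0)]) (PF.cons PF.nil PF.nil)))) (PF.cons (PF.cons (PF.leaf (nat_lit 8130728) (nat_lit 1904546) (nat_lit 40223367) (nat_lit 8887105) [(nat_lit 0), (nat_lit 1904546), (nat_lit 4023448), (nat_lit 0)]) (PF.cons (PF.leaf (nat_lit 8497525) (nat_lit 661651) (nat_lit 39640076) (nat_lit 8835516) [(nat_lit 661651), (nat_lit 1908684), (nat_lit 4015720), (nat_lit 0)]) PF.nil)) (PF.cons PF.nil PF.nil))) (PF.cons (PF.cons (PF.cons (PF.leaf (nat_lit 8604836) (nat_lit 3974028) (nat_lit 38528572) (nat_lit 8710096) [(nat_lit 0), (nat_lit 0), (nat_lit 3974028), (nat_lit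
 0)]) (PF.cons PF.nil PF.nil)) (PF.cons PF.nil PF.nil)) (PF.cons PF.nil (PF.cons PF.nil PF.nil)))))))) (PF.cons (PF.cons (PF.cons (PF.cons (PF.leaf (nat_lit 4164212) (nat_lit 9091162) (nat_lit 48731340) (nat_lit 9286309) [(nat_lit 0), (nat_lit 0), (nat_lit 0), (nat_lit 9091162)]) (PF.cons (PF.leaf (nat_lit 4455656) (nat_lit 526882) (nat_lit 48214204) (nat_lit 9280717) [(nat_lit 526882), (nat_lit 0), (nat_lit 0), (nat_lit 9087009)]) (PF.cons (PF.leaf (nat_lit 4772326) (nat_lit 549902) (nat_lit 47658160) (nat_lit 9271503) [(nat_lit 549902), (nat_lit 0), (nat_lit 0), (nat_lit 9079343)]) (PF.cons (PF.leaf (nat_lit 5108815) (nat_lit 569901) (nat_lit 47072911) (nat_lit 9258361) [(nat_lit 569901), (nat_lit 0), (nat_lit 0), (nat_lit 9067834)]) (PF.cons (PF.leaf (nat_lit 5461406) (nat_lit 587451) (nat_lit 46465591) (nat_lit 9241121) [(nat_lit 587451), (nat_lit 0), (nat_lit 0), (nat_lit 9052294)]) (PF.cons (PF.leaf (nat_lit 5827176) (nat_lit 602941) (nat_lit 45841743) (nat_lit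 9219716) [(nat_lit 602941), (nat_lit 0), (nat_lit 0), (nat_lit 9032647)]) (PF.cons (PF.leaf (nat_lit 6203714) (nat_lit 616652) (nat_lit 45205828) (nat_lit 9194165) [(nat_lit 616652), (nat_lit 0), (nat_lit 0), (nat_lit
 9008900)]) (PF.cons (PF.leaf (nat_lit 6588998) (nat_lit 628801) (nat_lit 44561527) (nat_lit 9164548) [(nat_lit 628801), (nat_lit 0), (nat_lit 0), (nat_lit 8981125)]) (PF.cons (PF.leaf (nat_lit 6981297) (nat_lit 639557) (nat_lit 43911917) (nat_lit 9130991) [(nat_lit 639557), (nat_lit 0), (nat_lit 0), (nat_lit 8949444)]) (PF.cons PF.nil PF.nil)))))))))) (PF.cons (PF.cons (PF.leaf (nat_lit 4897939) (nat_lit 1758621) (nat_lit 47040442) (nat_lit 9250135) [(nat_lit 0), (nat_lit 1758621), (nat_lit 0), (nat_lit 9059614)]) (PF.cons (PF.leaf (nat_lit 5222932) (nat_lit 571561) (nat_lit 46474385) (nat_lit 9234172) [(nat_lit 571561), (nat_lit 1783448), (nat_lit 0), (nat_lit 9045244)]) (PF.cons (PF.leaf (nat_lit 5565937) (nat_lit 588901) (nat_lit 45883776) (nat_lit 9214229)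 [(nat_lit 588901), (nat_lit 1806031), (nat_lit 0), (nat_lit 9026971)]) (PF.cons (PF.leaf (nat_lit 5923190) (nat_lit 604117) (nat_lit 45275132) (nat_lit 9190270) [(nat_lit 604117), (nat_lit 1826314), (nat_lit 0), (nat_lit 9004743)]) (PF.cons (PF.leaf (nat_lit 6291957) (nat_lit 617525) (nat_lit 44653464) (nat_lit 9162330) [(nat_lit 617525), (nat_lit 1844329), (nat_lit 0), (nat_lit 8978585)]) (PF.cons (PF.leaf (nat_lit 6670003)
 (nat_lit 629362) (nat_lit 44022771) (nat_lit 9130500) [(nat_lit 629362), (nat_lit 1860148), (nat_lit 0), (nat_lit 8948579)]) (PF.cons (PF.leaf (nat_lit 7055479) (nat_lit 639809) (nat_lit 43386327) (nat_lit 9094914) [(nat_lit 639809), (nat_lit 1873865), (nat_lit 0), (nat_lit 8914849)]) (PF.cons (PF.leaf (nat_lit 7446779) (nat_lit 649011) (nat_lit 42746854) (nat_lit 9055737) [(nat_lit 649011), (nat_lit 1885586), (nat_lit 0), (nat_lit 8877557)]) (PF.cons PF.nil PF.nil))))))))) (PF.cons (PF.cons (PF.leaf (nat_lit 5673146) (nat_lit 1812979) (nat_lit 45299577)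 (nat_lit 9184469) [(nat_lit 0), (nat_lit 1812979), (nat_lit 0), (nat_lit 8998806)]) (PF.cons (PF.leaf (nat_lit 6020520) (nat_lit 604629) (nat_lit 44708500) (nat_lit 9158291) [(nat_lit 604629), (nat_lit 1831531), (nat_lit 0), (nat_lit 8974327)]) (PF.cons (PF.leaf (nat_lit 6380757) (nat_lit 617847) (nat_lit 44102744) (nat_lit 9128257) [(nat_lit 617847), (nat_lit 1848033), (nat_lit 0), (nat_lit 8946049)]) (PF.cons (PF.leaf (nat_lit 6751044) (nat_lit 629456) (nat_lit 43486868) (nat_lit 9094478) [(nat_lit 629456), (nat_lit 1862513), (nat_lit 0), (nat_lit 8914069)]) (PF.cons (PF.leaf (nat_lit 7129324) (nat_lit 639659) (nat_lit 42864481)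
 (nat_lit 9057099) [(nat_lit 639659), (nat_lit 1875034), (nat_lit 0), (nat_lit 8878525)]) (PF.cons (PF.leaf (nat_lit 7513862) (nat_lit 648614) (nat_lit 42238507) (nat_lit 9016289) [(nat_lit 648614), (nat_lit 1885680), (nat_lit 0), (nat_lit 8839580)]) (PF.cons PF.nil PF.nil))))))) (PF.cons (PF.cons (PF.leaf (nat_lit 6471209) (nat_lit 1850941) (nat_lit 43552712) (nat_lit 9091965) [(nat_lit 0), (nat_lit 1850941), (nat_lit 0), (nat_lit 8911310)]) (PF.cons (PF.leaf (nat_lit 6832787) (nat_lit 629060) (nat_lit 42953148) (nat_lit 9056519) [(nat_lit 629060), (nat_lit 1864150), (nat_lit 0), (nat_lit 8877635)]) (PF.cons (PF.leaf (nat_lit 7203364) (nat_lit 639095) (nat_lit 42345884) (nat_lit 9017593) [(nat_lit 639095), (nat_lit 1875541), (nat_lit 0), (nat_lit 8840519)]) (PF.cons (PF.leaf (nat_lit 7580788) (nat_lit 647863) (nat_lit 41734185) (nat_lit 8975369) [(nat_lit 647863), (nat_lit 1885177), (nat_lit 0), (nat_lit 8800137)]) (PF.cons (PF.leaf (nat_lit 7963454) (nat_lit 655503)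 (nat_lit 41120677) (nat_lit 8930044) [(nat_lit 655503), (nat_lit 1893133), (nat_lit 0), (nat_lit 8756677)]) PF.nil))))) (PF.cons (PF.cons (PF.leaf (nat_lit 7278443) (nat_lit 1875423) (nat_lit 41829851) (nat_lit
 8976415) [(nat_lit 0), (nat_lit 1875423), (nat_lit 0), (nat_lit 8800852)]) (PF.cons (PF.leaf (nat_lit 7648054) (nat_lit 646741) (nat_lit 41233376) (nat_lit 8933009) [(nat_lit 646741), (nat_lit 1884106), (nat_lit 0), (nat_lit 8759260)]) (PF.cons (PF.leaf (nat_lit 8023723) (nat_lit 654240) (nat_lit 40634182) (nat_lit 8886610) [(nat_lit 654240), (nat_lit 1891209), (nat_lit 0), (nat_lit 8714701)]) (PF.cons PF.nil PF.nil)))) (PF.cons (PF.cons (PF.leaf (nat_lit 8084678) (nat_lit 1888797) (nat_lit 40151360) (nat_lit 8841956) [(nat_lit 0), (nat_lit 1888797), (nat_lit 0), (nat_lit 8671510)]) (PF.cons (PF.leaf (nat_lit 8457649) (nat_lit 659020) (nat_lit 39566023) (nat_lit 8792002) [(nat_lit 659020), (nat_lit 1893675), (nat_lit 0), (nat_lit 8623389)]) PF.nil)) (PF.cons PF.nil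 (PF.cons PF.nil PF.nil)))))))) (PF.cons (PF.cons (PF.cons (PF.leaf (nat_lit 5446310) (nat_lit 3959341) (nat_lit 45039614) (nat_lit 9147489) [(nat_lit 0), (nat_lit 0), (nat_lit 3959341), (nat_lit 8962367)]) (PF.cons (PF.leaf (nat_lit 5771298) (nat_lit 583944) (nat_lit 44490557) (nat_lit 9123043) [(nat_lit 583944), (nat_lit 0), (nat_lit 3971739), (nat_lit 8939527)]) (PF.cons (PF.leaf (nat_lit 6112805) (nat_lit 599513)
 (nat_lit 43920069) (nat_lit 9094786) [(nat_lit 599513), (nat_lit 0), (nat_lit 3981980), (nat_lit 8912949)]) (PF.cons (PF.leaf (nat_lit 6467130) (nat_lit 613013) (nat_lit 43334334) (nat_lit 9062823) [(nat_lit 613013), (nat_lit 0), (nat_lit 3989893), (nat_lit 8882720)]) (PF.cons (PF.leaf (nat_lit 6831662) (nat_lit 624780) (nat_lit 42738028) (nat_lit 9027287) [(nat_lit 624780), (nat_lit 0), (nat_lit 3995409), (nat_lit 8848964)]) (PF.cons (PF.leaf (nat_lit 7204276) (nat_lit 635058) (nat_lit 42134829) (nat_lit 8988334) [(nat_lit 635058), (nat_lit 0), (nat_lit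 3998531), (nat_lit 8811825)]) (PF.cons (PF.leaf (nat_lit 7583227) (nat_lit 644032) (nat_lit 41527702) (nat_lit 8946139) [(nat_lit 644032), (nat_lit 0), (nat_lit 3999303), (nat_lit 8771474)]) (PF.cons PF.nil (PF.cons PF.nil PF.nil))))))))) (PF.cons (PF.cons (PF.leaf (nat_lit 6210989) (nat_lit 1826953) (nat_lit 43364905) (nat_lit 9058276) [(nat_lit 0), (nat_lit 1826953), (nat_lit 3980653), (nat_lit 8878024)]) (PF.cons (PF.leaf (nat_lit 6555378) (nat_lit 612379) (nat_lit 42797137) (nat_lit 9024828) [(nat_lit 612379), (nat_lit 1841589), (nat_lit 3986604), (nat_lit 8846274)]) (PF.cons (PF.leaf (nat_lit 6911376) (nat_lit 624071)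
 (nat_lit 42217013) (nat_lit 8987877) [(nat_lit 624071), (nat_lit 1854351), (nat_lit 3990355), (nat_lit 8811071)]) (PF.cons (PF.leaf (nat_lit 7276288) (nat_lit 634223) (nat_lit 41628777) (nat_lit 8947604) [(nat_lit 634223), (nat_lit 1865289), (nat_lit 3991884), (nat_lit 8772587)]) (PF.cons (PF.leaf (nat_lit 7648154) (nat_lit 643044) (nat_lit 41035735) (nat_lit 8904202) [(nat_lit 643044), (nat_lit 1874477), (nat_lit 3991217), (nat_lit 8731003)]) (PF.cons (PF.leaf (nat_lit 8025356) (nat_lit 650695) (nat_lit 40440538) (nat_lit 8857867) [(nat_lit 650695), (nat_lit 1882003), (nat_lit 3988415), (nat_lit 8686509)]) (PF.cons PF.nil PF.nil))))))) (PF.cons (PF.cons (PF.leaf (nat_lit 6993010) (nat_lit 1854721) (nat_lit 41697169) (nat_lit 8946659) [(nat_lit 0), (nat_lit 1854721), (nat_lit 3984154), (nat_lit 8771387)]) (PF.cons (PF.leaf (nat_lit 7349286) (nat_lit 632951) (nat_lit 41125212) (nat_lit 8905326) [(nat_lit 632951), (nat_lit 1864651), (nat_lit 3984209), (nat_lit 8731809)])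 (PF.cons (PF.leaf (nat_lit 7713568) (nat_lit 641690) (nat_lit 40547181) (nat_lit 8860937) [(nat_lit 641690), (nat_lit 1872944), (nat_lit 3982213), (nat_lit 8689210)]) (PF.cons (PF.leaf (nat_lit 8083814) (nat_lit
 649232) (nat_lit 39966063) (nat_lit 8813705) [(nat_lit 649232), (nat_lit 1879670), (nat_lit 3978212), (nat_lit 8643793)]) (PF.cons PF.nil PF.nil))))) (PF.cons (PF.cons (PF.leaf (nat_lit 7780284) (nat_lit 1870901) (nat_lit 40061347) (nat_lit 8816342) [(nat_lit 0), (nat_lit 1870901), (nat_lit 3972323), (nat_lit 8646094)]) (PF.cons (PF.leaf (nat_lit 8142888) (nat_lit 647442) (nat_lit 39495139) (nat_lit 8768419) [(nat_lit 647442), (nat_lit 1876877), (nat_lit 3967223), (nat_lit 8599956)]) (PF.cons (PF.leaf (nat_lit 8510786) (nat_lit 653854) (nat_lit 38927259) (nat_lit 8717934) [(nat_lit 653854), (nat_lit 1881444), (nat_lit 3960300), (nat_lit 8551277)]) (PF.cons PF.nil PF.nil)))) (PF.cons (PF.cons (PF.leaf (nat_lit 8563988) (nat_lit 1877584) (nat_lit 38473897) (nat_lit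 8671080) [(nat_lit 0), (nat_lit 1877584), (nat_lit 3947648), (nat_lit 8505849)]) (PF.cons PF.nil PF.nil)) (PF.cons PF.nil PF.nil)))))) (PF.cons (PF.cons (PF.cons (PF.leaf (nat_lit 6726194) (nat_lit 3959871) (nat_lit 41534688) (nat_lit 8914641) [(nat_lit 0), (nat_lit 0), (nat_lit 3959871), (nat_lit 8739739)]) (PF.cons (PF.leaf (nat_lit 7066551) (nat_lit 617082) (nat_lit 40991824) (nat_lit 8875598) [(nat_lit 617082),
 (nat_lit 0), (nat_lit 3960962), (nat_lit 8702380)]) (PF.cons (PF.leaf (nat_lit 7417460) (nat_lit 627449) (nat_lit 40438489) (nat_lit 8833387) [(nat_lit 627449), (nat_lit 0), (nat_lit 3960069), (nat_lit 8661898)]) (PF.cons (PF.leaf (nat_lit 7776321) (nat_lit 636343) (nat_lit 39878617) (nat_lit 8788241) [(nat_lit 636343), (nat_lit 0), (nat_lit 3957204), (nat_lit 8618514)]) (PF.cons (PF.leaf (nat_lit 8141275) (nat_lit 643978) (nat_lit 39315243) (nat_lit 8740379) [(nat_lit 643978), (nat_lit 0), (nat_lit 3952416), (nat_lit 8572441)]) (PF.cons PF.nil (PF.cons PF.nil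 PF.nil))))))) (PF.cons (PF.cons (PF.leaf (nat_lit 7490938) (nat_lit 1851611) (nat_lit 39948508) (nat_lit 8788698) [(nat_lit 0), (nat_lit 1851611), (nat_lit 3950641), (nat_lit 8618710)]) (PF.cons (PF.leaf (nat_lit 7841304) (nat_lit 634376) (nat_lit 39404600) (nat_lit 8742980) [(nat_lit 634376), (nat_lit 1858817), (nat_lit 3946658), (nat_lit 8574720)]) (PF.cons (PF.leaf (nat_lit 8198842) (nat_lit 642000) (nat_lit 38855879) (nat_lit 8694581) [(nat_lit 642000), (nat_lit 1864545), (nat_lit 3940863), (nat_lit 8528078)]) (PF.cons (PF.leaf (nat_lit 8561604) (nat_lit 648492) (nat_lit 38305084) (nat_lit 8643733) [(nat_lit 648492),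
 (nat_lit 1868870), (nat_lit 3933318), (nat_lit 8479008)]) (PF.cons PF.nil PF.nil))))) (PF.cons (PF.cons (PF.leaf (nat_lit 8257937) (nat_lit 1860991) (nat_lit 38399251) (nat_lit 8647725) [(nat_lit 0), (nat_lit 1860991), (nat_lit 3928594), (nat_lit 8482662)]) (PF.cons (PF.leaf (nat_lit 8613256) (nat_lit 646175) (nat_lit 37862872) (nat_lit 8596577) [(nat_lit 646175), (nat_lit 1864732), (nat_lit 3920230), (nat_lit 8433261)]) (PF.cons PF.nil (PF.cons PF.nil PF.nil)))) (PF.cons (PF.cons (PF.leaf (nat_lit 9019466) (nat_lit 1862232) (nat_lit 36900279) (nat_lit 8495085) [(nat_lit 0), (nat_lit 1862232), (nat_lit 3895919), (nat_lit 8334913)]) (PF.cons PF.nil PF.nil)) (PF.cons PF.nil PF.nil))))) (PF.cons (PF.cons (PF.cons (PF.leaf (nat_lit 7966128) (nat_lit 3908516) (nat_lit 38303576) (nat_lit 8622260) [(nat_lit 0), (nat_lit 0), (nat_lit 3908516), (nat_lit 8457426)]) (PF.cons (PF.leaf (nat_lit 8310175) (nat_lit 633807) (nat_lit 37787477) (nat_lit 8573376) [(nat_lit 633807), (nat_lit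 0), (nat_lit 3901305), (nat_lit 8410234)]) (PF.cons (PF.leaf (nat_lit 8660709) (nat_lit 640470) (nat_lit 37267545) (nat_lit 8522139) [(nat_lit 640470), (nat_lit 0), (nat_lit 3892490), (nat_lit 8360713)]) (PF.cons
 PF.nil PF.nil)))) (PF.cons (PF.cons (PF.leaf (nat_lit 8712883) (nat_lit 1846864) (nat_lit 36838800) (nat_lit 8473925) [(nat_lit 0), (nat_lit 1846864), (nat_lit 3878442), (nat_lit 8313895)]) (PF.cons (PF.leaf (nat_lit 9060804) (nat_lit 643333) (nat_lit 36331358) (nat_lit 8420587) [(nat_lit 643333), (nat_lit 1848761), (nat_lit 3867504), (nat_lit 8262258)]) PF.nil)) (PF.cons PF.nil PF.nil))) (PF.cons (PF.cons (PF.cons (PF.leaf (nat_lit 9146621) (nat_lit 3823587) (nat_lit 35374527) (nat_lit 8297551) [(nat_lit 0), (nat_lit 0), (nat_lit 3823587), (nat_lit 8142385)]) (PF.cons PF.nil PF.nil)) (PF.cons PF.nil PF.nil)) (PF.cons PF.nil PF.nil)))))) (PF.cons (PF.cons (PF.cons (PF.cons (PF.leaf (nat_lit 6167916) (nat_lit 8618948) (nat_lit 41078179) (nat_lit 8792737) [(nat_lit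 0), (nat_lit 0), (nat_lit 0), (nat_lit 8618948)]) (PF.cons (PF.leaf (nat_lit 6480653) (nat_lit 578319) (nat_lit 40594304) (nat_lit 8760219) [(nat_lit 578319), (nat_lit 0), (nat_lit 0), (nat_lit 8587984)]) (PF.cons (PF.leaf (nat_lit 6808375) (nat_lit 592228) (nat_lit 40092546) (nat_lit 8724348) [(nat_lit 592228), (nat_lit 0), (nat_lit 0), (nat_lit 8553730)]) (PF.cons (PF.leaf (nat_lit 7147524) (nat_lit 604107) (nat_lit
 39578298) (nat_lit 8685366) [(nat_lit 604107), (nat_lit 0), (nat_lit 0), (nat_lit 8516411)]) (PF.cons (PF.leaf (nat_lit 7495635) (nat_lit 614313) (nat_lit 39055598) (nat_lit 8643491) [(nat_lit 614313), (nat_lit 0), (nat_lit 0), (nat_lit 8476234)]) (PF.cons (PF.leaf (nat_lit 7850768) (nat_lit 623101) (nat_lit 38527580) (nat_lit 8598929) [(nat_lit 623101), (nat_lit 0), (nat_lit 0), (nat_lit 8433397)]) (PF.cons (PF.leaf (nat_lit 8211297) (nat_lit 630666) (nat_lit 37996745) (nat_lit 8551880) [(nat_lit 630666), (nat_lit 0), (nat_lit 0), (nat_lit 8388093)]) (PF.cons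 PF.nil (PF.cons PF.nil PF.nil))))))))) (PF.cons (PF.cons (PF.leaf (nat_lit 6893596) (nat_lit 1791267) (nat_lit 39609013) (nat_lit 8682249) [(nat_lit 0), (nat_lit 1791267), (nat_lit 0), (nat_lit 8513141)]) (PF.cons (PF.leaf (nat_lit 7223114) (nat_lit 602446) (nat_lit 39111043) (nat_lit 8642694) [(nat_lit 602446), (nat_lit 1802211), (nat_lit 0), (nat_lit 8475208)]) (PF.cons (PF.leaf (nat_lit 7563043) (nat_lit 612676) (nat_lit 38602934) (nat_lit 8600242) [(nat_lit 612676), (nat_lit 1811446), (nat_lit 0), (nat_lit 8434419)]) (PF.cons (PF.leaf (nat_lit 7910845) (nat_lit 621431) (nat_lit 38088329) (nat_lit 8555132) [(nat_lit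
 621431), (nat_lit 1819051), (nat_lit 0), (nat_lit 8391002)]) (PF.cons (PF.leaf (nat_lit 8264711) (nat_lit 628930) (nat_lit 37570041) (nat_lit 8507586) [(nat_lit 628930), (nat_lit 1825120), (nat_lit 0), (nat_lit 8345171)]) (PF.cons PF.nil (PF.cons PF.nil PF.nil))))))) (PF.cons (PF.cons (PF.leaf (nat_lit 7632688) (nat_lit 1809462) (nat_lit 38151436) (nat_lit 8555738) [(nat_lit 0), (nat_lit 1809462), (nat_lit 0), (nat_lit 8391356)]) (PF.cons (PF.leaf (nat_lit 7972261) (nat_lit 619388) (nat_lit 37651324) (nat_lit 8510295) [(nat_lit 619388), (nat_lit 1816330), (nat_lit 0), (nat_lit 8347571)]) (PF.cons (PF.leaf (nat_lit 8318978) (nat_lit 626887) (nat_lit 37146330) (nat_lit 8462427) [(nat_lit 626887), (nat_lit 1821752), (nat_lit 0), (nat_lit 8301387)]) (PF.cons (PF.leaf (nat_lit 8670923) (nat_lit 633264) (nat_lit 36638990) (nat_lit 8412362) [(nat_lit 633264), (nat_lit 1825809), (nat_lit 0), (nat_lit 8253023)]) (PF.cons PF.nil PF.nil))))) (PF.cons (PF.cons (PF.leaf (nat_lit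 8374879) (nat_lit 1818011) (nat_lit 36724975) (nat_lit 8416376) [(nat_lit 0), (nat_lit 1818011), (nat_lit 0), (nat_lit 8256713)]) (PF.cons (PF.leaf (nat_lit 8719646) (nat_lit 630912) (nat_lit 36230717) (nat_lit
 8366188) [(nat_lit 630912), (nat_lit 1821534), (nat_lit 0), (nat_lit 8208195)]) (PF.cons PF.nil (PF.cons PF.nil PF.nil)))) (PF.cons (PF.cons (PF.leaf (nat_lit 9112777) (nat_lit 1818804) (nat_lit 35342149) (nat_lit 8267143) [(nat_lit 0), (nat_lit 1818804), (nat_lit 0), (nat_lit 8112150)]) (PF.cons PF.nil PF.nil)) (PF.cons PF.nil PF.nil)))))) (PF.cons (PF.cons (PF.cons (PF.leaf (nat_lit 7366599) (nat_lit 3836597) (nat_lit 38020551) (nat_lit 8526597) [(nat_lit 0), (nat_lit 0), (nat_lit 3836597), (nat_lit 8362533)]) (PF.cons (PF.leaf (nat_lit 7691801) (nat_lit 604298) (nat_lit 37545266) (nat_lit 8483669) [(nat_lit 604298), (nat_lit 0), (nat_lit 3833189), (nat_lit 8321194)]) (PF.cons (PF.leaf (nat_lit 8026566) (nat_lit 613420) (nat_lit 37061247) (nat_lit 8438112) [(nat_lit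 613420), (nat_lit 0), (nat_lit 3828085), (nat_lit 8277263)]) (PF.cons (PF.leaf (nat_lit 8368433) (nat_lit 621138) (nat_lit 36571876) (nat_lit 8390192) [(nat_lit 621138), (nat_lit 0), (nat_lit 3821333), (nat_lit 8230997)]) (PF.cons (PF.leaf (nat_lit 8715682) (nat_lit 627671) (nat_lit 36079735) (nat_lit 8340145) [(nat_lit 627671), (nat_lit 0), (nat_lit 3813004), (nat_lit 8182621)]) PF.nil))))) (PF.cons (PF.cons
 (PF.leaf (nat_lit 8089337) (nat_lit 1800168) (nat_lit 36635839) (nat_lit 8391912) [(nat_lit 0), (nat_lit 1800168), (nat_lit 3815967), (nat_lit 8232462)]) (PF.cons (PF.leaf (nat_lit 8423152) (nat_lit 618599) (nat_lit 36160504) (nat_lit 8343980) [(nat_lit 618599), (nat_lit 1804940), (nat_lit 3808493), (nat_lit 8186146)]) (PF.cons (PF.leaf (nat_lit 8763444) (nat_lit 625187) (nat_lit 35681191) (nat_lit 8293905) [(nat_lit 625187), (nat_lit 1808404), (nat_lit 3799516), (nat_lit 8137710)]) (PF.cons PF.nil PF.nil)))) (PF.cons (PF.cons (PF.leaf (nat_lit 8813016) (nat_lit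 1803624) (nat_lit 35284925) (nat_lit 8246949) [(nat_lit 0), (nat_lit 1803624), (nat_lit 3785519), (nat_lit 8092085)]) (PF.cons (PF.leaf (nat_lit 9150980) (nat_lit 627995) (nat_lit 34816503) (nat_lit 8195095) [(nat_lit 627995), (nat_lit 1805454), (nat_lit 3774604), (nat_lit 8041852)]) PF.nil)) (PF.cons PF.nil (PF.cons PF.nil PF.nil))))) (PF.cons (PF.cons (PF.cons (PF.leaf (nat_lit 8526438) (nat_lit 3767437) (nat_lit 35209460) (nat_lit 8224613) [(nat_lit 0), (nat_lit 0), (nat_lit 3767437), (nat_lit 8069932)]) (PF.cons (PF.leaf (nat_lit 8854259) (nat_lit 616365) (nat_lit 34758272) (nat_lit 8174997) [(nat_lit 616365), (nat_lit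
 0), (nat_lit 3757701), (nat_lit 8021887)]) (PF.cons (PF.leaf (nat_lit 9187996) (nat_lit 622163) (nat_lit 34303819) (nat_lit 8123483) [(nat_lit 622163), (nat_lit 0), (nat_lit 3746626), (nat_lit 7971964)]) (PF.cons PF.nil PF.nil)))) (PF.cons (PF.cons (PF.leaf (nat_lit 9231824) (nat_lit 1786372) (nat_lit 33931279) (nat_lit 8076186) [(nat_lit 0), (nat_lit 1786372), (nat_lit 3731536), (nat_lit 7925949)]) (PF.cons PF.nil PF.nil)) (PF.cons PF.nil PF.nil))) (PF.cons (PF.cons (PF.cons (PF.leaf (nat_lit 9632570) (nat_lit 3674817) (nat_lit 32658860) (nat_lit 7905689) [(nat_lit 0), (nat_lit 0), (nat_lit 3674817), (nat_lit 7759904)]) (PF.cons PF.nil PF.nil)) (PF.cons PF.nil PF.nil)) (PF.cons PF.nil PF.nil))))) (PF.cons (PF.cons (PF.cons (PF.cons (PF.leaf (nat_lit 7941078) (nat_lit 7989985) (nat_lit 34994784) (nat_lit 8144073) [(nat_lit 0), (nat_lit 0), (nat_lit 0), (nat_lit 7989985)]) (PF.cons (PF.leaf (nat_lit 8252278) (nat_lit 589392) (nat_lit 34577363) (nat_lit 8099971) [(nat_lit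 589392), (nat_lit 0), (nat_lit 0), (nat_lit 7947362)]) (PF.cons (PF.leaf (nat_lit 8572276) (nat_lit 597545) (nat_lit 34152467) (nat_lit 8053637) [(nat_lit 597545), (nat_lit 0), (nat_lit 0), (nat_lit 7902539)])
 (PF.cons (PF.leaf (nat_lit 8898724) (nat_lit 604361) (nat_lit 33723013) (nat_lit 8005353) [(nat_lit 604361), (nat_lit 0), (nat_lit 0), (nat_lit 7855786)]) (PF.cons PF.nil PF.nil))))) (PF.cons (PF.cons (PF.leaf (nat_lit 8626564) (nat_lit 1745110) (nat_lit 33781478) (nat_lit 8007914) [(nat_lit 0), (nat_lit 1745110), (nat_lit 0), (nat_lit 7858103)]) (PF.cons (PF.leaf (nat_lit 8945382) (nat_lit 601481) (nat_lit 33364288) (nat_lit 7959947) [(nat_lit 601481), (nat_lit 1748201), (nat_lit 0), (nat_lit 7811631)]) (PF.cons (PF.leaf (nat_lit 9270141) (nat_lit 607280) (nat_lit 32943664) (nat_lit 7910217) [(nat_lit 607280), (nat_lit 1750121), (nat_lit 0), (nat_lit 7763415)]) (PF.cons PF.nil PF.nil)))) (PF.cons (PF.cons (PF.leaf (nat_lit 9312271) (nat_lit 1744650) (nat_lit 32597939)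 (nat_lit 7864579) [(nat_lit 0), (nat_lit 1744650), (nat_lit 0), (nat_lit 7718997)]) (PF.cons (PF.leaf (nat_lit 9634692) (nat_lit 609143) (nat_lit 32186757) (nat_lit 7813693) [(nat_lit 609143), (nat_lit 1745201), (nat_lit 0), (nat_lit 7669605)]) PF.nil)) (PF.cons PF.nil (PF.cons PF.nil PF.nil))))) (PF.cons (PF.cons (PF.cons (PF.leaf (nat_lit 9031994) (nat_lit 3626577) (nat_lit 32538130) (nat_lit 7845103) [(nat_lit
 0), (nat_lit 0), (nat_lit 3626577), (nat_lit 7699667)]) (PF.cons (PF.leaf (nat_lit 9345184) (nat_lit 598220) (nat_lit 32141689) (nat_lit 7796357) [(nat_lit 598220), (nat_lit 0), (nat_lit 3615438), (nat_lit 7652369)]) (PF.cons (PF.leaf (nat_lit 9663861) (nat_lit 603358) (nat_lit 31742357) (nat_lit 7746038) [(nat_lit 603358), (nat_lit 0), (nat_lit 3603158), (nat_lit 7603513)]) (PF.cons PF.nil PF.nil)))) (PF.cons (PF.cons (PF.leaf (nat_lit 9701149) (nat_lit 1725794) (nat_lit 31416740) (nat_lit 7700641) [(nat_lit 0), (nat_lit 1725794), (nat_lit 3587771), (nat_lit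 7559288)]) (PF.cons PF.nil PF.nil)) (PF.cons PF.nil PF.nil))) (PF.cons (PF.cons (PF.cons (PF.leaf (nat_lit 10074452) (nat_lit 3531250) (nat_lit 30304055) (nat_lit 7538535) [(nat_lit 0), (nat_lit 0), (nat_lit 3531250), (nat_lit 7401240)]) (PF.cons PF.nil PF.nil)) (PF.cons PF.nil PF.nil)) PF.nil))) (PF.cons (PF.cons (PF.cons (PF.cons (PF.leaf (nat_lit 9493587) (nat_lit 7351070) (nat_lit 30216406) (nat_lit 7488125) [(nat_lit 0), (nat_lit 0), (nat_lit 0), (nat_lit 7351070)]) (PF.cons (PF.leaf (nat_lit 9793529) (nat_lit 580055) (nat_lit 29866135) (nat_lit 7441103) [(nat_lit 580055), (nat_lit 0), (nat_lit 0), (nat_lit 7305379)])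
 (PF.cons PF.nil PF.nil))) (PF.cons (PF.cons (PF.leaf (nat_lit 10130724) (nat_lit 1666642) (nat_lit 29226889) (nat_lit 7349706) [(nat_lit 0), (nat_lit 1666642), (nat_lit 0), (nat_lit 7216393)]) PF.nil) PF.nil)) (PF.cons PF.nil PF.nil)) (PF.cons PF.nil (PF.cons PF.nil (PF.cons PF.nil (PF.cons PF.nil PF.nil)))))))))

def p13_16_1_0 : pfC (piC [(nat_lit 35755509), (nat_lit 23968959), (nat_lit 17897616), (nat_lit 12073119)] (nat_lit 11026205)) p13_16_1 (nat_lit 4) (nat_lit 0) (nat_lit 1) = true := by decide +kernel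
def p13_16_1_1 : pfC (piC [(nat_lit 35755509), (nat_lit 23968959), (nat_lit 17897616), (nat_lit 12073119)] (nat_lit 11026205)) p13_16_1 (nat_lit 4) (nat_lit 1) (nat_lit 2) = true := by decide +kernel
def p13_16_1_2 : pfC (piC [(nat_lit 35755509), (nat_lit 23968959), (nat_lit 17897616), (nat_lit 12073119)] (nat_lit 11026205)) p13_16_1 (nat_lit 4) (nat_lit 2) (nat_lit 3) = true := by decide +kernel
def p13_16_1_3 : pfC (piC [(nat_lit 35755509), (nat_lit 23968959), (nat_lit 17897616), (nat_lit 12073119)] (nat_lit 11026205)) p13_16_1 (nat_lit 4) (nat_lit 3) (nat_lit 4) = true := by decide +kernel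
def p13_16_1_4 : pfC (piC [(nat_lit 35755509), (nat_lit 23968959), (nat_lit 17897616), (nat_lit 12073119)] (nat_lit 11026205)) p13_16_1 (nat_lit 4) (nat_lit 4) (nat_lit 5) = true := by decide +kernel
def p13_16_1_5 : pfC (piC [(nat_lit 35755509), (nat_lit 23968959), (nat_lit 17897616), (nat_lit 12073119)] (nat_lit 11026205)) p13_16_1 (nat_lit 4) (nat_lit 5) (nat_lit 6) = true := by decide +kernel
def p13_16_1_6 : pfC (piC [(nat_lit 35755509), (nat_lit 23968959), (nat_lit 17897616), (nat_lit 12073119)] (nat_lit 11026205)) p13_16_1 (nat_lit 4) (nat_lit 6) (nat_lit 7) = true := by decide +kernel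
def p13_16_1_7 : pfC (piC [(nat_lit 35755509), (nat_lit 23968959), (nat_lit 17897616), (nat_lit 12073119)] (nat_lit 11026205)) p13_16_1 (nat_lit 4) (nat_lit 7) (nat_lit 8) = true := by decide +kernel
def p13_16_1_8 : pfC (piC [(nat_lit 35755509), (nat_lit 23968959), (nat_lit 17897616), (nat_lit 12073119)] (nat_lit 11026205)) p13_16_1 (nat_lit 4) (nat_lit 8) (nat_lit 9) = true := by decide +kernel
def p13_16_1_9 : pfC (piC [(nat_lit 35755509), (nat_lit 23968959), (nat_lit 17897616), (nat_lit 12073119)] (nat_lit 11026205)) p13_16_1 (nat_lit 4) (nat_lit 9) (nat_lit 10) = true := by decide +kernel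
def p13_16_1_10 : pfC (piC [(nat_lit 35755509), (nat_lit 23968959), (nat_lit 17897616), (nat_lit 12073119)] (nat_lit 11026205)) p13_16_1 (nat_lit 4) (nat_lit 10) (nat_lit 11) = true := by decide +kernel
def p13_16_1_11 : pfC (piC [(nat_lit 35755509), (nat_lit 23968959), (nat_lit 17897616), (nat_lit 12073119)] (nat_lit 11026205)) p13_16_1 (nat_lit 4) (nat_lit 11) (nat_lit 12) = true := by decide +kernel
def p13_16_1_12 : pfC (piC [(nat_lit 35755509), (nat_lit 23968959), (nat_lit 17897616), (nat_lit 12073119)] (nat_lit 11026205)) p13_16_1 (nat_lit 4) (nat_lit 12) (nat_lit 13) = true := by decide +kernel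
def p13_16_1_13 : pfC (piC [(nat_lit 35755509), (nat_lit 23968959), (nat_lit 17897616), (nat_lit 12073119)] (nat_lit 11026205)) p13_16_1 (nat_lit 4) (nat_lit 13) (nat_lit 14) = true := by decide +kernel
def p13_16_1_14 : pfC (piC [(nat_lit 35755509), (nat_lit 23968959), (nat_lit 17897616), (nat_lit 12073119)] (nat_lit 11026205)) p13_16_1 (nat_lit 4) (nat_lit 14) (nat_lit 15) = true := by decide +kernel
def p13_16_1_15 : pfC (piC [(nat_lit 35755509), (nat_lit 23968959), (nat_lit 17897616), (nat_lit 12073119)] (nat_lit 11026205)) p13_16_1 (nat_lit 4) (nat_lit 15) (nat_lit 16) = true := by decide +kernel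
def p13_16_1_16 : pfC (piC [(nat_lit 35755509), (nat_lit 23968959), (nat_lit 17897616), (nat_lit 12073119)] (nat_lit 11026205)) p13_16_1 (nat_lit 4) (nat_lit 16) (nat_lit 17) = true := by decide +kernel
def p13_16_1_17 : pfC (piC [(nat_lit 35755509), (nat_lit 23968959), (nat_lit 17897616), (nat_lit 12073119)] (nat_lit 11026205)) p13_16_1 (nat_lit 4) (nat_lit 17) (nat_lit 18) = true := by decide +kernel
def p13_16_1_18 : pfC (piC [(nat_lit 35755509), (nat_lit 23968959), (nat_lit 17897616), (nat_lit 12073119)] (nat_lit 11026205)) p13_16_1 (nat_lit 4) (nat_lit 18) (nat_lit 19) = true := by decide +kernel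
def p13_16_1_19 : pfC (piC [(nat_lit 35755509), (nat_lit 23968959), (nat_lit 17897616), (nat_lit 12073119)] (nat_lit 11026205)) p13_16_1 (nat_lit 4) (nat_lit 19) (nat_lit 20) = true := by decide +kernel
def p13_16_1_20 : pfC (piC [(nat_lit 35755509), (nat_lit 23968959), (nat_lit 17897616), (nat_lit 12073119)] (nat_lit 11026205)) p13_16_1 (nat_lit 4) (nat_lit 20) (nat_lit 21) = true := by decide +kernel
def p13_16_1_21 : pfC (piC [(nat_lit 35755509), (nat_lit 23968959), (nat_lit 17897616), (nat_lit 12073119)] (nat_lit 11026205)) p13_16_1 (nat_lit 4) (nat_lit 21) (nat_lit 22) = true := by decide +kernel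
def p13_16_1_22 : pfC (piC [(nat_lit 35755509), (nat_lit 23968959), (nat_lit 17897616), (nat_lit 12073119)] (nat_lit 11026205)) p13_16_1 (nat_lit 4) (nat_lit 22) (nat_lit 23) = true := by decide +kernel
def p13_16_1_23 : pfC (piC [(nat_lit 35755509), (nat_lit 23968959), (nat_lit 17897616), (nat_lit 12073119)] (nat_lit 11026205)) p13_16_1 (nat_lit 4) (nat_lit 23) (nat_lit 24) = true := by decide +kernel
def p13_16_1_24 : pfC (piC [(nat_lit 35755509), (nat_lit 23968959), (nat_lit 17897616), (nat_lit 12073119)] (nat_lit 11026205)) p13_16_1 (nat_lit 4) (nat_lit 24) (nat_lit 25) = true := by decide +kernel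
def p13_16_1_25 : pfC (piC [(nat_lit 35755509), (nat_lit 23968959), (nat_lit 17897616), (nat_lit 12073119)] (nat_lit 11026205)) p13_16_1 (nat_lit 4) (nat_lit 25) (nat_lit 26) = true := by decide +kernel
def p13_16_1_26 : pfC (piC [(nat_lit 35755509), (nat_lit 23968959), (nat_lit 17897616), (nat_lit 12073119)] (nat_lit 11026205)) p13_16_1 (nat_lit 4) (nat_lit 26) (nat_lit 27) = true := by decide +kernel
def p13_16_1_27 : pfC (piC [(nat_lit 35755509), (nat_lit 23968959), (nat_lit 17897616), (nat_lit 12073119)] (nat_lit 11026205)) p13_16_1 (nat_lit 4) (nat_lit 27) (nat_lit 28) = true := by decide +kernel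
def p13_16_1_28 : pfC (piC [(nat_lit 35755509), (nat_lit 23968959), (nat_lit 17897616), (nat_lit 12073119)] (nat_lit 11026205)) p13_16_1 (nat_lit 4) (nat_lit 28) (nat_lit 29) = true := by decide +kernel
def p13_16_1_29 : pfC (piC [(nat_lit 35755509), (nat_lit 23968959), (nat_lit 17897616), (nat_lit 12073119)] (nat_lit 11026205)) p13_16_1 (nat_lit 4) (nat_lit 29) (nat_lit 30) = true := by decide +kernel
def p13_16_1_30 : pfC (piC [(nat_lit 35755509), (nat_lit 23968959), (nat_lit 17897616), (nat_lit 12073119)] (nat_lit 11026205)) p13_16_1 (nat_lit 4) (nat_lit 30) (nat_lit 31) = true := by decide +kernel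
def p13_16_1_31 : pfC (piC [(nat_lit 35755509), (nat_lit 23968959), (nat_lit 17897616), (nat_lit 12073119)] (nat_lit 11026205)) p13_16_1 (nat_lit 4) (nat_lit 31) (nat_lit 32) = true := by decide +kernel
def p13_16_1_32 : pfC (piC [(nat_lit 35755509), (nat_lit 23968959), (nat_lit 17897616), (nat_lit 12073119)] (nat_lit 11026205)) p13_16_1 (nat_lit 4) (nat_lit 32) (nat_lit 33) = true := by decide +kernel
def p13_16_1_33 : pfC (piC [(nat_lit 35755509), (nat_lit 23968959), (nat_lit 17897616), (nat_lit 12073119)] (nat_lit 11026205)) p13_16_1 (nat_lit 4) (nat_lit 33) (nat_lit 34) = true := by decide +kernel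
def p13_16_1_34 : pfC (piC [(nat_lit 35755509), (nat_lit 23968959), (nat_lit 17897616), (nat_lit 12073119)] (nat_lit 11026205)) p13_16_1 (nat_lit 4) (nat_lit 34) (nat_lit 35) = true := by decide +kernel
def p13_16_1_35 : pfC (piC [(nat_lit 35755509), (nat_lit 23968959), (nat_lit 17897616), (nat_lit 12073119)] (nat_lit 11026205)) p13_16_1 (nat_lit 4) (nat_lit 35) (nat_lit 36) = true := by decide +kernel
def p13_16_1_36 : pfC (piC [(nat_lit 35755509), (nat_lit 23968959), (nat_lit 17897616), (nat_lit 12073119)] (nat_lit 11026205)) p13_16_1 (nat_lit 4) (nat_lit 36) (nat_lit 37) = true := by decide +kernel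
def p13_16_1_37 : pfC (piC [(nat_lit 35755509), (nat_lit 23968959), (nat_lit 17897616), (nat_lit 12073119)] (nat_lit 11026205)) p13_16_1 (nat_lit 4) (nat_lit 37) (nat_lit 38) = true := by decide +kernel
def p13_16_1_38 : pfC (piC [(nat_lit 35755509), (nat_lit 23968959), (nat_lit 17897616), (nat_lit 12073119)] (nat_lit 11026205)) p13_16_1 (nat_lit 4) (nat_lit 38) (nat_lit 39) = true := by decide +kernel
def p13_16_1_39 : pfC (piC [(nat_lit 35755509), (nat_lit 23968959), (nat_lit 17897616), (nat_lit 12073119)] (nat_lit 11026205)) p13_16_1 (nat_lit 4) (nat_lit 39) (nat_lit 40) = true := by decide +kernel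
def p13_16_1_40 : pfC (piC [(nat_lit 35755509), (nat_lit 23968959), (nat_lit 17897616), (nat_lit 12073119)] (nat_lit 11026205)) p13_16_1 (nat_lit 4) (nat_lit 40) (nat_lit 41) = true := by decide +kernel
def p13_16_1_41 : pfC (piC [(nat_lit 35755509), (nat_lit 23968959), (nat_lit 17897616), (nat_lit 12073119)] (nat_lit 11026205)) p13_16_1 (nat_lit 4) (nat_lit 41) (nat_lit 42) = true := by decide +kernel
def p13_16_1_42 : pfC (piC [(nat_lit 35755509), (nat_lit 23968959), (nat_lit 17897616), (nat_lit 12073119)] (nat_lit 11026205)) p13_16_1 (nat_lit 4) (nat_lit 42) (nat_lit 43) = true := by decide +kernel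
def p13_16_1_43 : pfC (piC [(nat_lit 35755509), (nat_lit 23968959), (nat_lit 17897616), (nat_lit 12073119)] (nat_lit 11026205)) p13_16_1 (nat_lit 4) (nat_lit 43) (nat_lit 44) = true := by decide +kernel
def p13_16_1_44 : pfC (piC [(nat_lit 35755509), (nat_lit 23968959), (nat_lit 17897616), (nat_lit 12073119)] (nat_lit 11026205)) p13_16_1 (nat_lit 4) (nat_lit 44) (nat_lit 45) = true := by decide +kernel
def p13_16_1_45 : pfC (piC [(nat_lit 35755509), (nat_lit 23968959), (nat_lit 17897616), (nat_lit 12073119)] (nat_lit 11026205)) p13_16_1 (nat_lit 4) (nat_lit 45) (nat_lit 46) = true := by decide +kernel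
def p13_16_1_46 : pfC (piC [(nat_lit 35755509), (nat_lit 23968959), (nat_lit 17897616), (nat_lit 12073119)] (nat_lit 11026205)) p13_16_1 (nat_lit 4) (nat_lit 46) (nat_lit 47) = true := by decide +kernel
def p13_16_1_47 : pfC (piC [(nat_lit 35755509), (nat_lit 23968959), (nat_lit 17897616), (nat_lit 12073119)] (nat_lit 11026205)) p13_16_1 (nat_lit 4) (nat_lit 47) (nat_lit 48) = true := by decide +kernel
def p13_16_1_48 : pfC (piC [(nat_lit 35755509), (nat_lit 23968959), (nat_lit 17897616), (nat_lit 12073119)] (nat_lit 11026205)) p13_16_1 (nat_lit 4) (nat_lit 48) (nat_lit 49) = true := by decide +kernel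
def p13_16_1_49 : pfC (piC [(nat_lit 35755509), (nat_lit 23968959), (nat_lit 17897616), (nat_lit 12073119)] (nat_lit 11026205)) p13_16_1 (nat_lit 4) (nat_lit 49) (nat_lit 50) = true := by decide +kernel
def p13_16_1_50 : pfC (piC [(nat_lit 35755509), (nat_lit 23968959), (nat_lit 17897616), (nat_lit 12073119)] (nat_lit 11026205)) p13_16_1 (nat_lit 4) (nat_lit 50) (nat_lit 51) = true := by decide +kernel
def p13_16_1_51 : pfC (piC [(nat_lit 35755509), (nat_lit 23968959), (nat_lit 17897616), (nat_lit 12073119)] (nat_lit 11026205)) p13_16_1 (nat_lit 4) (nat_lit 51) (nat_lit 52) = true := by decide +kernel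
def p13_16_1_52 : pfC (piC [(nat_lit 35755509), (nat_lit 23968959), (nat_lit 17897616), (nat_lit 12073119)] (nat_lit 11026205)) p13_16_1 (nat_lit 4) (nat_lit 52) (nat_lit 53) = true := by decide +kernel
def p13_16_1_53 : pfC (piC [(nat_lit 35755509), (nat_lit 23968959), (nat_lit 17897616), (nat_lit 12073119)] (nat_lit 11026205)) p13_16_1 (nat_lit 4) (nat_lit 53) (nat_lit 54) = true := by decide +kernel
def p13_16_1_54 : pfC (piC [(nat_lit 35755509), (nat_lit 23968959), (nat_lit 17897616), (nat_lit 12073119)] (nat_lit 11026205)) p13_16_1 (nat_lit 4) (nat_lit 54) (nat_lit 55) = true := by decide +kernel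
def p13_16_1_55 : pfC (piC [(nat_lit 35755509), (nat_lit 23968959), (nat_lit 17897616), (nat_lit 12073119)] (nat_lit 11026205)) p13_16_1 (nat_lit 4) (nat_lit 55) (nat_lit 56) = true := by decide +kernel
def p13_16_1_56 : pfC (piC [(nat_lit 35755509), (nat_lit 23968959), (nat_lit 17897616), (nat_lit 12073119)] (nat_lit 11026205)) p13_16_1 (nat_lit 4) (nat_lit 56) (nat_lit 57) = true := by decide +kernel
def p13_16_1_57 : pfC (piC [(nat_lit 35755509), (nat_lit 23968959), (nat_lit 17897616), (nat_lit 12073119)] (nat_lit 11026205)) p13_16_1 (nat_lit 4) (nat_lit 57) (nat_lit 58) = true := by decide +kernel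
def p13_16_1_58 : pfC (piC [(nat_lit 35755509), (nat_lit 23968959), (nat_lit 17897616), (nat_lit 12073119)] (nat_lit 11026205)) p13_16_1 (nat_lit 4) (nat_lit 58) (nat_lit 59) = true := by decide +kernel
def p13_16_1_59 : pfC (piC [(nat_lit 35755509), (nat_lit 23968959), (nat_lit 17897616), (nat_lit 12073119)] (nat_lit 11026205)) p13_16_1 (nat_lit 4) (nat_lit 59) (nat_lit 60) = true := by decide +kernel
def p13_16_1_60 : pfC (piC [(nat_lit 35755509), (nat_lit 23968959), (nat_lit 17897616), (nat_lit 12073119)] (nat_lit 11026205)) p13_16_1 (nat_lit 4) (nat_lit 60) (nat_lit 61) = true := by decide +kernel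
def p13_16_1_61 : pfC (piC [(nat_lit 35755509), (nat_lit 23968959), (nat_lit 17897616), (nat_lit 12073119)] (nat_lit 11026205)) p13_16_1 (nat_lit 4) (nat_lit 61) (nat_lit 62) = true := by decide +kernel
def p13_16_1_62 : pfC (piC [(nat_lit 35755509), (nat_lit 23968959), (nat_lit 17897616), (nat_lit 12073119)] (nat_lit 11026205)) p13_16_1 (nat_lit 4) (nat_lit 62) (nat_lit 63) = true := by decide +kernel
def p13_16_1_63 : pfC (piC [(nat_lit 35755509), (nat_lit 23968959), (nat_lit 17897616), (nat_lit 12073119)] (nat_lit 11026205)) p13_16_1 (nat_lit 4) (nat_lit 63) (nat_lit 64) = true := by decide +kernel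
def p13_16_1_64 : pfC (piC [(nat_lit 35755509), (nat_lit 23968959), (nat_lit 17897616), (nat_lit 12073119)] (nat_lit 11026205)) p13_16_1 (nat_lit 4) (nat_lit 64) (nat_lit 65) = true := by decide +kernel
def p13_16_1_65 : pfC (piC [(nat_lit 35755509), (nat_lit 23968959), (nat_lit 17897616), (nat_lit 12073119)] (nat_lit 11026205)) p13_16_1 (nat_lit 4) (nat_lit 65) (nat_lit 66) = true := by decide +kernel
def p13_16_1_66 : pfC (piC [(nat_lit 35755509), (nat_lit 23968959), (nat_lit 17897616), (nat_lit 12073119)] (nat_lit 11026205)) p13_16_1 (nat_lit 4) (nat_lit 66) (nat_lit 67) = true := by decide +kernel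
def p13_16_1_67 : pfC (piC [(nat_lit 35755509), (nat_lit 23968959), (nat_lit 17897616), (nat_lit 12073119)] (nat_lit 11026205)) p13_16_1 (nat_lit 4) (nat_lit 67) (nat_lit 68) = true := by decide +kernel
def p13_16_1_68 : pfC (piC [(nat_lit 35755509), (nat_lit 23968959), (nat_lit 17897616), (nat_lit 12073119)] (nat_lit 11026205)) p13_16_1 (nat_lit 4) (nat_lit 68) (nat_lit 69) = true := by decide +kernel
def p13_16_1_69 : pfC (piC [(nat_lit 35755509), (nat_lit 23968959), (nat_lit 17897616), (nat_lit 12073119)] (nat_lit 11026205)) p13_16_1 (nat_lit 4) (nat_lit 69) (nat_lit 70) = true := by decide +kernel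
def p13_16_1_70 : pfC (piC [(nat_lit 35755509), (nat_lit 23968959), (nat_lit 17897616), (nat_lit 12073119)] (nat_lit 11026205)) p13_16_1 (nat_lit 4) (nat_lit 70) (nat_lit 71) = true := by decide +kernel
def p13_16_1_71 : pfC (piC [(nat_lit 35755509), (nat_lit 23968959), (nat_lit 17897616), (nat_lit 12073119)] (nat_lit 11026205)) p13_16_1 (nat_lit 4) (nat_lit 71) (nat_lit 72) = true := by decide +kernel
def p13_16_1_72 : pfC (piC [(nat_lit 35755509), (nat_lit 23968959), (nat_lit 17897616), (nat_lit 12073119)] (nat_lit 11026205)) p13_16_1 (nat_lit 4) (nat_lit 72) (nat_lit 73) = true := by decide +kernel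
def p13_16_1_73 : pfC (piC [(nat_lit 35755509), (nat_lit 23968959), (nat_lit 17897616), (nat_lit 12073119)] (nat_lit 11026205)) p13_16_1 (nat_lit 4) (nat_lit 73) (nat_lit 74) = true := by decide +kernel
def p13_16_1_74 : pfC (piC [(nat_lit 35755509), (nat_lit 23968959), (nat_lit 17897616), (nat_lit 12073119)] (nat_lit 11026205)) p13_16_1 (nat_lit 4) (nat_lit 74) (nat_lit 75) = true := by decide +kernel
def p13_16_1_75 : pfC (piC [(nat_lit 35755509), (nat_lit 23968959), (nat_lit 17897616), (nat_lit 12073119)] (nat_lit 11026205)) p13_16_1 (nat_lit 4) (nat_lit 75) (nat_lit 76) = true := by decide +kernel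
def p13_16_1_76 : pfC (piC [(nat_lit 35755509), (nat_lit 23968959), (nat_lit 17897616), (nat_lit 12073119)] (nat_lit 11026205)) p13_16_1 (nat_lit 4) (nat_lit 76) (nat_lit 77) = true := by decide +kernel
def p13_16_1_77 : pfC (piC [(nat_lit 35755509), (nat_lit 23968959), (nat_lit 17897616), (nat_lit 12073119)] (nat_lit 11026205)) p13_16_1 (nat_lit 4) (nat_lit 77) (nat_lit 78) = true := by decide +kernel
def p13_16_1_78 : pfC (piC [(nat_lit 35755509), (nat_lit 23968959), (nat_lit 17897616), (nat_lit 12073119)] (nat_lit 11026205)) p13_16_1 (nat_lit 4) (nat_lit 78) (nat_lit 79) = true := by decide +kernel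
def p13_16_1_79 : pfC (piC [(nat_lit 35755509), (nat_lit 23968959), (nat_lit 17897616), (nat_lit 12073119)] (nat_lit 11026205)) p13_16_1 (nat_lit 4) (nat_lit 79) (nat_lit 80) = true := by decide +kernel
def p13_16_1_80 : pfC (piC [(nat_lit 35755509), (nat_lit 23968959), (nat_lit 17897616), (nat_lit 12073119)] (nat_lit 11026205)) p13_16_1 (nat_lit 4) (nat_lit 80) (nat_lit 81) = true := by decide +kernel
def p13_16_1_81 : pfC (piC [(nat_lit 35755509), (nat_lit 23968959), (nat_lit 17897616), (nat_lit 12073119)] (nat_lit 11026205)) p13_16_1 (nat_lit 4) (nat_lit 81) (nat_lit 82) = true := by decide +kernel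
def p13_16_1_82 : pfC (piC [(nat_lit 35755509), (nat_lit 23968959), (nat_lit 17897616), (nat_lit 12073119)] (nat_lit 11026205)) p13_16_1 (nat_lit 4) (nat_lit 82) (nat_lit 83) = true := by decide +kernel
def p13_16_1_83 : pfC (piC [(nat_lit 35755509), (nat_lit 23968959), (nat_lit 17897616), (nat_lit 12073119)] (nat_lit 11026205)) p13_16_1 (nat_lit 4) (nat_lit 83) (nat_lit 84) = true := by decide +kernel
def p13_16_1_84 : pfC (piC [(nat_lit 35755509), (nat_lit 23968959), (nat_lit 17897616), (nat_lit 12073119)] (nat_lit 11026205)) p13_16_1 (nat_lit 4) (nat_lit 84) (nat_lit 85) = true := by decide +kernel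
def p13_16_1_85 : pfC (piC [(nat_lit 35755509), (nat_lit 23968959), (nat_lit 17897616), (nat_lit 12073119)] (nat_lit 11026205)) p13_16_1 (nat_lit 4) (nat_lit 85) (nat_lit 86) = true := by decide +kernel
def p13_16_1_86 : pfC (piC [(nat_lit 35755509), (nat_lit 23968959), (nat_lit 17897616), (nat_lit 12073119)] (nat_lit 11026205)) p13_16_1 (nat_lit 4) (nat_lit 86) (nat_lit 87) = true := by decide +kernel
def p13_16_1_87 : pfC (piC [(nat_lit 35755509), (nat_lit 23968959), (nat_lit 17897616), (nat_lit 12073119)] (nat_lit 11026205)) p13_16_1 (nat_lit 4) (nat_lit 87) (nat_lit 88) = true := by decide +kernel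
def p13_16_1_88 : pfC (piC [(nat_lit 35755509), (nat_lit 23968959), (nat_lit 17897616), (nat_lit 12073119)] (nat_lit 11026205)) p13_16_1 (nat_lit 4) (nat_lit 88) (nat_lit 89) = true := by decide +kernel
def p13_16_1_89 : pfC (piC [(nat_lit 35755509), (nat_lit 23968959), (nat_lit 17897616), (nat_lit 12073119)] (nat_lit 11026205)) p13_16_1 (nat_lit 4) (nat_lit 89) (nat_lit 90) = true := by decide +kernel
def p13_16_1_90 : pfC (piC [(nat_lit 35755509), (nat_lit 23968959), (nat_lit 17897616), (nat_lit 12073119)] (nat_lit 11026205)) p13_16_1 (nat_lit 4) (nat_lit 90) (nat_lit 91) = true := by decide +kernel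
def p13_16_1_91 : pfC (piC [(nat_lit 35755509), (nat_lit 23968959), (nat_lit 17897616), (nat_lit 12073119)] (nat_lit 11026205)) p13_16_1 (nat_lit 4) (nat_lit 91) (nat_lit 92) = true := by decide +kernel
def p13_16_1_92 : pfC (piC [(nat_lit 35755509), (nat_lit 23968959), (nat_lit 17897616), (nat_lit 12073119)] (nat_lit 11026205)) p13_16_1 (nat_lit 4) (nat_lit 92) (nat_lit 93) = true := by decide +kernel
def p13_16_1_93 : pfC (piC [(nat_lit 35755509), (nat_lit 23968959), (nat_lit 17897616), (nat_lit 12073119)] (nat_lit 11026205)) p13_16_1 (nat_lit 4) (nat_lit 93) (nat_lit 94) = true := by decide +kernel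
def p13_16_1_94 : pfC (piC [(nat_lit 35755509), (nat_lit 23968959), (nat_lit 17897616), (nat_lit 12073119)] (nat_lit 11026205)) p13_16_1 (nat_lit 4) (nat_lit 94) (nat_lit 95) = true := by decide +kernel
def p13_16_1_95 : pfC (piC [(nat_lit 35755509), (nat_lit 23968959), (nat_lit 17897616), (nat_lit 12073119)] (nat_lit 11026205)) p13_16_1 (nat_lit 4) (nat_lit 95) (nat_lit 96) = true := by decide +kernel
def p13_16_1_96 : pfC (piC [(nat_lit 35755509), (nat_lit 23968959), (nat_lit 17897616), (nat_lit 12073119)] (nat_lit 11026205)) p13_16_1 (nat_lit 4) (nat_lit 96) (nat_lit 97) = true := by decide +kernel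
def p13_16_1_97 : pfC (piC [(nat_lit 35755509), (nat_lit 23968959), (nat_lit 17897616), (nat_lit 12073119)] (nat_lit 11026205)) p13_16_1 (nat_lit 4) (nat_lit 97) (nat_lit 98) = true := by decide +kernel
def p13_16_1_98 : pfC (piC [(nat_lit 35755509), (nat_lit 23968959), (nat_lit 17897616), (nat_lit 12073119)] (nat_lit 11026205)) p13_16_1 (nat_lit 4) (nat_lit 98) (nat_lit 99) = true := by decide +kernel
def p13_16_1_99 : pfC (piC [(nat_lit 35755509), (nat_lit 23968959), (nat_lit 17897616), (nat_lit 12073119)] (nat_lit 11026205)) p13_16_1 (nat_lit 4) (nat_lit 99) (nat_lit 100) = true := by decide +kernel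
def p13_16_1_100 : pfC (piC [(nat_lit 35755509), (nat_lit 23968959), (nat_lit 17897616), (nat_lit 12073119)] (nat_lit 11026205)) p13_16_1 (nat_lit 4) (nat_lit 100) (nat_lit 101) = true := by decide +kernel
def p13_16_1_101 : pfC (piC [(nat_lit 35755509), (nat_lit 23968959), (nat_lit 17897616), (nat_lit 12073119)] (nat_lit 11026205)) p13_16_1 (nat_lit 4) (nat_lit 101) (nat_lit 102) = true := by decide +kernel
def p13_16_1_102 : pfC (piC [(nat_lit 35755509), (nat_lit 23968959), (nat_lit 17897616), (nat_lit 12073119)] (nat_lit 11026205)) p13_16_1 (nat_lit 4) (nat_lit 102) (nat_lit 103) = true := by decide +kernel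
def p13_16_1_103 : pfC (piC [(nat_lit 35755509), (nat_lit 23968959), (nat_lit 17897616), (nat_lit 12073119)] (nat_lit 11026205)) p13_16_1 (nat_lit 4) (nat_lit 103) (nat_lit 104) = true := by decide +kernel
def p13_16_1_104 : pfC (piC [(nat_lit 35755509), (nat_lit 23968959), (nat_lit 17897616), (nat_lit 12073119)] (nat_lit 11026205)) p13_16_1 (nat_lit 4) (nat_lit 104) (nat_lit 105) = true := by decide +kernel
def p13_16_1_105 : pfC (piC [(nat_lit 35755509), (nat_lit 23968959), (nat_lit 17897616), (nat_lit 12073119)] (nat_lit 11026205)) p13_16_1 (nat_lit 4) (nat_lit 105) (nat_lit 106) = true := by decide +kernel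
def p13_16_1_106 : pfC (piC [(nat_lit 35755509), (nat_lit 23968959), (nat_lit 17897616), (nat_lit 12073119)] (nat_lit 11026205)) p13_16_1 (nat_lit 4) (nat_lit 106) (nat_lit 107) = true := by decide +kernel
def p13_16_1_107 : pfC (piC [(nat_lit 35755509), (nat_lit 23968959), (nat_lit 17897616), (nat_lit 12073119)] (nat_lit 11026205)) p13_16_1 (nat_lit 4) (nat_lit 107) (nat_lit 108) = true := by decide +kernel
def p13_16_1_108 : pfC (piC [(nat_lit 35755509), (nat_lit 23968959), (nat_lit 17897616), (nat_lit 12073119)] (nat_lit 11026205)) p13_16_1 (nat_lit 4) (nat_lit 108) (nat_lit 109) = true := by decide +kernel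
def p13_16_1_109 : pfC (piC [(nat_lit 35755509), (nat_lit 23968959), (nat_lit 17897616), (nat_lit 12073119)] (nat_lit 11026205)) p13_16_1 (nat_lit 4) (nat_lit 109) (nat_lit 110) = true := by decide +kernel
def p13_16_1_110 : pfC (piC [(nat_lit 35755509), (nat_lit 23968959), (nat_lit 17897616), (nat_lit 12073119)] (nat_lit 11026205)) p13_16_1 (nat_lit 4) (nat_lit 110) (nat_lit 111) = true := by decide +kernel
def p13_16_1_111 : pfC (piC [(nat_lit 35755509), (nat_lit 23968959), (nat_lit 17897616), (nat_lit 12073119)] (nat_lit 11026205)) p13_16_1 (nat_lit 4) (nat_lit 111) (nat_lit 112) = true := by decide +kernel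
def p13_16_1_112 : pfC (piC [(nat_lit 35755509), (nat_lit 23968959), (nat_lit 17897616), (nat_lit 12073119)] (nat_lit 11026205)) p13_16_1 (nat_lit 4) (nat_lit 112) (nat_lit 113) = true := by decide +kernel
def p13_16_1_113 : pfC (piC [(nat_lit 35755509), (nat_lit 23968959), (nat_lit 17897616), (nat_lit 12073119)] (nat_lit 11026205)) p13_16_1 (nat_lit 4) (nat_lit 113) (nat_lit 114) = true := by decide +kernel
def p13_16_1_114 : pfC (piC [(nat_lit 35755509), (nat_lit 23968959), (nat_lit 17897616), (nat_lit 12073119)] (nat_lit 11026205)) p13_16_1 (nat_lit 4) (nat_lit 114) (nat_lit 115) = true := by decide +kernel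
def p13_16_1_115 : pfC (piC [(nat_lit 35755509), (nat_lit 23968959), (nat_lit 17897616), (nat_lit 12073119)] (nat_lit 11026205)) p13_16_1 (nat_lit 4) (nat_lit 115) (nat_lit 116) = true := by decide +kernel
def p13_16_1_116 : pfC (piC [(nat_lit 35755509), (nat_lit 23968959), (nat_lit 17897616), (nat_lit 12073119)] (nat_lit 11026205)) p13_16_1 (nat_lit 4) (nat_lit 116) (nat_lit 117) = true := by decide +kernel
def p13_16_1_117 : pfC (piC [(nat_lit 35755509), (nat_lit 23968959), (nat_lit 17897616), (nat_lit 12073119)] (nat_lit 11026205)) p13_16_1 (nat_lit 4) (nat_lit 117) (nat_lit 118) = true := by decide +kernel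
def p13_16_1_118 : pfC (piC [(nat_lit 35755509), (nat_lit 23968959), (nat_lit 17897616), (nat_lit 12073119)] (nat_lit 11026205)) p13_16_1 (nat_lit 4) (nat_lit 118) (nat_lit 119) = true := by decide +kernel
def p13_16_1_119 : pfC (piC [(nat_lit 35755509), (nat_lit 23968959), (nat_lit 17897616), (nat_lit 12073119)] (nat_lit 11026205)) p13_16_1 (nat_lit 4) (nat_lit 119) (nat_lit 120) = true := by decide +kernel
def p13_16_1_120 : pfC (piC [(nat_lit 35755509), (nat_lit 23968959), (nat_lit 17897616), (nat_lit 12073119)] (nat_lit 11026205)) p13_16_1 (nat_lit 4) (nat_lit 120) (nat_lit 121) = true := by decide +kernel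
def p13_16_1_121 : pfC (piC [(nat_lit 35755509), (nat_lit 23968959), (nat_lit 17897616), (nat_lit 12073119)] (nat_lit 11026205)) p13_16_1 (nat_lit 4) (nat_lit 121) (nat_lit 122) = true := by decide +kernel
def p13_16_1_122 : pfC (piC [(nat_lit 35755509), (nat_lit 23968959), (nat_lit 17897616), (nat_lit 12073119)] (nat_lit 11026205)) p13_16_1 (nat_lit 4) (nat_lit 122) (nat_lit 123) = true := by decide +kernel
def p13_16_1_123 : pfC (piC [(nat_lit 35755509), (nat_lit 23968959), (nat_lit 17897616), (nat_lit 12073119)] (nat_lit 11026205)) p13_16_1 (nat_lit 4) (nat_lit 123) (nat_lit 124) = true := by decide +kernel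
def p13_16_1_124 : pfC (piC [(nat_lit 35755509), (nat_lit 23968959), (nat_lit 17897616), (nat_lit 12073119)] (nat_lit 11026205)) p13_16_1 (nat_lit 4) (nat_lit 124) (nat_lit 125) = true := by decide +kernel
def p13_16_1_125 : pfC (piC [(nat_lit 35755509), (nat_lit 23968959), (nat_lit 17897616), (nat_lit 12073119)] (nat_lit 11026205)) p13_16_1 (nat_lit 4) (nat_lit 125) (nat_lit 126) = true := by decide +kernel
def p13_16_1_126 : pfC (piC [(nat_lit 35755509), (nat_lit 23968959), (nat_lit 17897616), (nat_lit 12073119)] (nat_lit 11026205)) p13_16_1 (nat_lit 4) (nat_lit 126) (nat_lit 127) = true := by decide +kernel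
def p13_16_1_127 : pfC (piC [(nat_lit 35755509), (nat_lit 23968959), (nat_lit 17897616), (nat_lit 12073119)] (nat_lit 11026205)) p13_16_1 (nat_lit 4) (nat_lit 127) (nat_lit 128) = true := by decide +kernel
def p13_16_1_128 : pfC (piC [(nat_lit 35755509), (nat_lit 23968959), (nat_lit 17897616), (nat_lit 12073119)] (nat_lit 11026205)) p13_16_1 (nat_lit 4) (nat_lit 128) (nat_lit 129) = true := by decide +kernel
def p13_16_1_129 : pfC (piC [(nat_lit 35755509), (nat_lit 23968959), (nat_lit 17897616), (nat_lit 12073119)] (nat_lit 11026205)) p13_16_1 (nat_lit 4) (nat_lit 129) (nat_lit 130) = true := by decide +kernel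
def p13_16_1_130 : pfC (piC [(nat_lit 35755509), (nat_lit 23968959), (nat_lit 17897616), (nat_lit 12073119)] (nat_lit 11026205)) p13_16_1 (nat_lit 4) (nat_lit 130) (nat_lit 131) = true := by decide +kernel
def p13_16_1_131 : pfC (piC [(nat_lit 35755509), (nat_lit 23968959), (nat_lit 17897616), (nat_lit 12073119)] (nat_lit 11026205)) p13_16_1 (nat_lit 4) (nat_lit 131) (nat_lit 132) = true := by decide +kernel
def p13_16_1_132 : pfC (piC [(nat_lit 35755509), (nat_lit 23968959), (nat_lit 17897616), (nat_lit 12073119)] (nat_lit 11026205)) p13_16_1 (nat_lit 4) (nat_lit 132) (nat_lit 133) = true := by decide +kernel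
def p13_16_1_133 : pfC (piC [(nat_lit 35755509), (nat_lit 23968959), (nat_lit 17897616), (nat_lit 12073119)] (nat_lit 11026205)) p13_16_1 (nat_lit 4) (nat_lit 133) (nat_lit 134) = true := by decide +kernel
def p13_16_1_134 : pfC (piC [(nat_lit 35755509), (nat_lit 23968959), (nat_lit 17897616), (nat_lit 12073119)] (nat_lit 11026205)) p13_16_1 (nat_lit 4) (nat_lit 134) (nat_lit 135) = true := by decide +kernel
def p13_16_1_135 : pfC (piC [(nat_lit 35755509), (nat_lit 23968959), (nat_lit 17897616), (nat_lit 12073119)] (nat_lit 11026205)) p13_16_1 (nat_lit 4) (nat_lit 135) (nat_lit 136) = true := by decide +kernel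
def p13_16_1_136 : pfC (piC [(nat_lit 35755509), (nat_lit 23968959), (nat_lit 17897616), (nat_lit 12073119)] (nat_lit 11026205)) p13_16_1 (nat_lit 4) (nat_lit 136) (nat_lit 137) = true := by decide +kernel
def p13_16_1_137 : pfC (piC [(nat_lit 35755509), (nat_lit 23968959), (nat_lit 17897616), (nat_lit 12073119)] (nat_lit 11026205)) p13_16_1 (nat_lit 4) (nat_lit 137) (nat_lit 138) = true := by decide +kernel
def p13_16_1_138 : pfC (piC [(nat_lit 35755509), (nat_lit 23968959), (nat_lit 17897616), (nat_lit 12073119)] (nat_lit 11026205)) p13_16_1 (nat_lit 4) (nat_lit 138) (nat_lit 139) = true := by decide +kernel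
def p13_16_1_139 : pfC (piC [(nat_lit 35755509), (nat_lit 23968959), (nat_lit 17897616), (nat_lit 12073119)] (nat_lit 11026205)) p13_16_1 (nat_lit 4) (nat_lit 139) (nat_lit 140) = true := by decide +kernel
def p13_16_1_140 : pfC (piC [(nat_lit 35755509), (nat_lit 23968959), (nat_lit 17897616), (nat_lit 12073119)] (nat_lit 11026205)) p13_16_1 (nat_lit 4) (nat_lit 140) (nat_lit 141) = true := by decide +kernel
def p13_16_1_141 : pfC (piC [(nat_lit 35755509), (nat_lit 23968959), (nat_lit 17897616), (nat_lit 12073119)] (nat_lit 11026205)) p13_16_1 (nat_lit 4) (nat_lit 141) (nat_lit 142) = true := by decide +kernel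
def p13_16_1_142 : pfC (piC [(nat_lit 35755509), (nat_lit 23968959), (nat_lit 17897616), (nat_lit 12073119)] (nat_lit 11026205)) p13_16_1 (nat_lit 4) (nat_lit 142) (nat_lit 143) = true := by decide +kernel
def p13_16_1_143 : pfC (piC [(nat_lit 35755509), (nat_lit 23968959), (nat_lit 17897616), (nat_lit 12073119)] (nat_lit 11026205)) p13_16_1 (nat_lit 4) (nat_lit 143) (nat_lit 144) = true := by decide +kernel
def p13_16_1_144 : pfC (piC [(nat_lit 35755509), (nat_lit 23968959), (nat_lit 17897616), (nat_lit 12073119)] (nat_lit 11026205)) p13_16_1 (nat_lit 4) (nat_lit 144) (nat_lit 145) = true := by decide +kernel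
def p13_16_1_145 : pfC (piC [(nat_lit 35755509), (nat_lit 23968959), (nat_lit 17897616), (nat_lit 12073119)] (nat_lit 11026205)) p13_16_1 (nat_lit 4) (nat_lit 145) (nat_lit 146) = true := by decide +kernel
def p13_16_1_146 : pfC (piC [(nat_lit 35755509), (nat_lit 23968959), (nat_lit 17897616), (nat_lit 12073119)] (nat_lit 11026205)) p13_16_1 (nat_lit 4) (nat_lit 146) (nat_lit 147) = true := by decide +kernel
def p13_16_1_147 : pfC (piC [(nat_lit 35755509), (nat_lit 23968959), (nat_lit 17897616), (nat_lit 12073119)] (nat_lit 11026205)) p13_16_1 (nat_lit 4) (nat_lit 147) (nat_lit 148) = true := by decide +kernel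
def p13_16_1_148 : pfC (piC [(nat_lit 35755509), (nat_lit 23968959), (nat_lit 17897616), (nat_lit 12073119)] (nat_lit 11026205)) p13_16_1 (nat_lit 4) (nat_lit 148) (nat_lit 149) = true := by decide +kernel
def p13_16_1_149 : pfC (piC [(nat_lit 35755509), (nat_lit 23968959), (nat_lit 17897616), (nat_lit 12073119)] (nat_lit 11026205)) p13_16_1 (nat_lit 4) (nat_lit 149) (nat_lit 150) = true := by decide +kernel
def p13_16_1_150 : pfC (piC [(nat_lit 35755509), (nat_lit 23968959), (nat_lit 17897616), (nat_lit 12073119)] (nat_lit 11026205)) p13_16_1 (nat_lit 4) (nat_lit 150) (nat_lit 151) = true := by decide +kernel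
def p13_16_1_151 : pfC (piC [(nat_lit 35755509), (nat_lit 23968959), (nat_lit 17897616), (nat_lit 12073119)] (nat_lit 11026205)) p13_16_1 (nat_lit 4) (nat_lit 151) (nat_lit 152) = true := by decide +kernel
def p13_16_1_152 : pfC (piC [(nat_lit 35755509), (nat_lit 23968959), (nat_lit 17897616), (nat_lit 12073119)] (nat_lit 11026205)) p13_16_1 (nat_lit 4) (nat_lit 152) (nat_lit 153) = true := by decide +kernel
def p13_16_1_153 : pfC (piC [(nat_lit 35755509), (nat_lit 23968959), (nat_lit 17897616), (nat_lit 12073119)] (nat_lit 11026205)) p13_16_1 (nat_lit 4) (nat_lit 153) (nat_lit 154) = true := by decide +kernel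
def p13_16_1_154 : pfC (piC [(nat_lit 35755509), (nat_lit 23968959), (nat_lit 17897616), (nat_lit 12073119)] (nat_lit 11026205)) p13_16_1 (nat_lit 4) (nat_lit 154) (nat_lit 155) = true := by decide +kernel
def p13_16_1_155 : pfC (piC [(nat_lit 35755509), (nat_lit 23968959), (nat_lit 17897616), (nat_lit 12073119)] (nat_lit 11026205)) p13_16_1 (nat_lit 4) (nat_lit 155) (nat_lit 156) = true := by decide +kernel
def p13_16_1_156 : pfC (piC [(nat_lit 35755509), (nat_lit 23968959), (nat_lit 17897616), (nat_lit 12073119)] (nat_lit 11026205)) p13_16_1 (nat_lit 4) (nat_lit 156) (nat_lit 157) = true := by decide +kernel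
def p13_16_1_157 : pfC (piC [(nat_lit 35755509), (nat_lit 23968959), (nat_lit 17897616), (nat_lit 12073119)] (nat_lit 11026205)) p13_16_1 (nat_lit 4) (nat_lit 157) (nat_lit 158) = true := by decide +kernel
def p13_16_1_158 : pfC (piC [(nat_lit 35755509), (nat_lit 23968959), (nat_lit 17897616), (nat_lit 12073119)] (nat_lit 11026205)) p13_16_1 (nat_lit 4) (nat_lit 158) (nat_lit 159) = true := by decide +kernel
def p13_16_1_159 : pfC (piC [(nat_lit 35755509), (nat_lit 23968959), (nat_lit 17897616), (nat_lit 12073119)] (nat_lit 11026205)) p13_16_1 (nat_lit 4) (nat_lit 159) (nat_lit 160) = true := by decide +kernel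
def p13_16_1_160 : pfC (piC [(nat_lit 35755509), (nat_lit 23968959), (nat_lit 17897616), (nat_lit 12073119)] (nat_lit 11026205)) p13_16_1 (nat_lit 4) (nat_lit 160) (nat_lit 161) = true := by decide +kernel
def p13_16_1_161 : pfC (piC [(nat_lit 35755509), (nat_lit 23968959), (nat_lit 17897616), (nat_lit 12073119)] (nat_lit 11026205)) p13_16_1 (nat_lit 4) (nat_lit 161) (nat_lit 162) = true := by decide +kernel
def p13_16_1_162 : pfC (piC [(nat_lit 35755509), (nat_lit 23968959), (nat_lit 17897616), (nat_lit 12073119)] (nat_lit 11026205)) p13_16_1 (nat_lit 4) (nat_lit 162) (nat_lit 163) = true := by decide +kernel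
def p13_16_1_163 : pfC (piC [(nat_lit 35755509), (nat_lit 23968959), (nat_lit 17897616), (nat_lit 12073119)] (nat_lit 11026205)) p13_16_1 (nat_lit 4) (nat_lit 163) (nat_lit 164) = true := by decide +kernel
def p13_16_1_164 : pfC (piC [(nat_lit 35755509), (nat_lit 23968959), (nat_lit 17897616), (nat_lit 12073119)] (nat_lit 11026205)) p13_16_1 (nat_lit 4) (nat_lit 164) (nat_lit 165) = true := by decide +kernel
def p13_16_1_165 : pfC (piC [(nat_lit 35755509), (nat_lit 23968959), (nat_lit 17897616), (nat_lit 12073119)] (nat_lit 11026205)) p13_16_1 (nat_lit 4) (nat_lit 165) (nat_lit 166) = true := by decide +kernel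
def p13_16_1_166 : pfC (piC [(nat_lit 35755509), (nat_lit 23968959), (nat_lit 17897616), (nat_lit 12073119)] (nat_lit 11026205)) p13_16_1 (nat_lit 4) (nat_lit 166) (nat_lit 167) = true := by decide +kernel
def p13_16_1_167 : pfC (piC [(nat_lit 35755509), (nat_lit 23968959), (nat_lit 17897616), (nat_lit 12073119)] (nat_lit 11026205)) p13_16_1 (nat_lit 4) (nat_lit 167) (nat_lit 168) = true := by decide +kernel
def p13_16_1_168 : pfC (piC [(nat_lit 35755509), (nat_lit 23968959), (nat_lit 17897616), (nat_lit 12073119)] (nat_lit 11026205)) p13_16_1 (nat_lit 4) (nat_lit 168) (nat_lit 169) = true := by decide +kernel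
def p13_16_1_169 : pfC (piC [(nat_lit 35755509), (nat_lit 23968959), (nat_lit 17897616), (nat_lit 12073119)] (nat_lit 11026205)) p13_16_1 (nat_lit 4) (nat_lit 169) (nat_lit 170) = true := by decide +kernel
def p13_16_1_170 : pfC (piC [(nat_lit 35755509), (nat_lit 23968959), (nat_lit 17897616), (nat_lit 12073119)] (nat_lit 11026205)) p13_16_1 (nat_lit 4) (nat_lit 170) (nat_lit 171) = true := by decide +kernel
def p13_16_1_171 : pfC (piC [(nat_lit 35755509), (nat_lit 23968959), (nat_lit 17897616), (nat_lit 12073119)] (nat_lit 11026205)) p13_16_1 (nat_lit 4) (nat_lit 171) (nat_lit 172) = true := by decide +kernel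
def p13_16_1_172 : pfC (piC [(nat_lit 35755509), (nat_lit 23968959), (nat_lit 17897616), (nat_lit 12073119)] (nat_lit 11026205)) p13_16_1 (nat_lit 4) (nat_lit 172) (nat_lit 173) = true := by decide +kernel
def p13_16_1_173 : pfC (piC [(nat_lit 35755509), (nat_lit 23968959), (nat_lit 17897616), (nat_lit 12073119)] (nat_lit 11026205)) p13_16_1 (nat_lit 4) (nat_lit 173) (nat_lit 174) = true := by decide +kernel
def p13_16_1_174 : pfC (piC [(nat_lit 35755509), (nat_lit 23968959), (nat_lit 17897616), (nat_lit 12073119)] (nat_lit 11026205)) p13_16_1 (nat_lit 4) (nat_lit 174) (nat_lit 175) = true := by decide +kernel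
def p13_16_1_175 : pfC (piC [(nat_lit 35755509), (nat_lit 23968959), (nat_lit 17897616), (nat_lit 12073119)] (nat_lit 11026205)) p13_16_1 (nat_lit 4) (nat_lit 175) (nat_lit 176) = true := by decide +kernel
def p13_16_1_176 : pfC (piC [(nat_lit 35755509), (nat_lit 23968959), (nat_lit 17897616), (nat_lit 12073119)] (nat_lit 11026205)) p13_16_1 (nat_lit 4) (nat_lit 176) (nat_lit 177) = true := by decide +kernel
def p13_16_1_177 : pfC (piC [(nat_lit 35755509), (nat_lit 23968959), (nat_lit 17897616), (nat_lit 12073119)] (nat_lit 11026205)) p13_16_1 (nat_lit 4) (nat_lit 177) (nat_lit 178) = true := by decide +kernel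
def p13_16_1_178 : pfC (piC [(nat_lit 35755509), (nat_lit 23968959), (nat_lit 17897616), (nat_lit 12073119)] (nat_lit 11026205)) p13_16_1 (nat_lit 4) (nat_lit 178) (nat_lit 179) = true := by decide +kernel
def p13_16_1_179 : pfC (piC [(nat_lit 35755509), (nat_lit 23968959), (nat_lit 17897616), (nat_lit 12073119)] (nat_lit 11026205)) p13_16_1 (nat_lit 4) (nat_lit 179) (nat_lit 180) = true := by decide +kernel
def p13_16_1_180 : pfC (piC [(nat_lit 35755509), (nat_lit 23968959), (nat_lit 17897616), (nat_lit 12073119)] (nat_lit 11026205)) p13_16_1 (nat_lit 4) (nat_lit 180) (nat_lit 181) = true := by decide +kernel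
def p13_16_1_181 : pfC (piC [(nat_lit 35755509), (nat_lit 23968959), (nat_lit 17897616), (nat_lit 12073119)] (nat_lit 11026205)) p13_16_1 (nat_lit 4) (nat_lit 181) (nat_lit 182) = true := by decide +kernel
def p13_16_1_182 : pfC (piC [(nat_lit 35755509), (nat_lit 23968959), (nat_lit 17897616), (nat_lit 12073119)] (nat_lit 11026205)) p13_16_1 (nat_lit 4) (nat_lit 182) (nat_lit 183) = true := by decide +kernel
def p13_16_1_183 : pfC (piC [(nat_lit 35755509), (nat_lit 23968959), (nat_lit 17897616), (nat_lit 12073119)] (nat_lit 11026205)) p13_16_1 (nat_lit 4) (nat_lit 183) (nat_lit 184) = true := by decide +kernel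
def p13_16_1_184 : pfC (piC [(nat_lit 35755509), (nat_lit 23968959), (nat_lit 17897616), (nat_lit 12073119)] (nat_lit 11026205)) p13_16_1 (nat_lit 4) (nat_lit 184) (nat_lit 185) = true := by decide +kernel
def p13_16_1_185 : pfC (piC [(nat_lit 35755509), (nat_lit 23968959), (nat_lit 17897616), (nat_lit 12073119)] (nat_lit 11026205)) p13_16_1 (nat_lit 4) (nat_lit 185) (nat_lit 186) = true := by decide +kernel
def p13_16_1_186 : pfC (piC [(nat_lit 35755509), (nat_lit 23968959), (nat_lit 17897616), (nat_lit 12073119)] (nat_lit 11026205)) p13_16_1 (nat_lit 4) (nat_lit 186) (nat_lit 187) = true := by decide +kernel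
def p13_16_1_187 : pfC (piC [(nat_lit 35755509), (nat_lit 23968959), (nat_lit 17897616), (nat_lit 12073119)] (nat_lit 11026205)) p13_16_1 (nat_lit 4) (nat_lit 187) (nat_lit 188) = true := by decide +kernel
def p13_16_1_188 : pfC (piC [(nat_lit 35755509), (nat_lit 23968959), (nat_lit 17897616), (nat_lit 12073119)] (nat_lit 11026205)) p13_16_1 (nat_lit 4) (nat_lit 188) (nat_lit 189) = true := by decide +kernel
def p13_16_1_189 : pfC (piC [(nat_lit 35755509), (nat_lit 23968959), (nat_lit 17897616), (nat_lit 12073119)] (nat_lit 11026205)) p13_16_1 (nat_lit 4) (nat_lit 189) (nat_lit 190) = true := by decide +kernel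
def p13_16_1_190 : pfC (piC [(nat_lit 35755509), (nat_lit 23968959), (nat_lit 17897616), (nat_lit 12073119)] (nat_lit 11026205)) p13_16_1 (nat_lit 4) (nat_lit 190) (nat_lit 191) = true := by decide +kernel
def p13_16_1_191 : pfC (piC [(nat_lit 35755509), (nat_lit 23968959), (nat_lit 17897616), (nat_lit 12073119)] (nat_lit 11026205)) p13_16_1 (nat_lit 4) (nat_lit 191) (nat_lit 192) = true := by decide +kernel
def p13_16_1_192 : pfC (piC [(nat_lit 35755509), (nat_lit 23968959), (nat_lit 17897616), (nat_lit 12073119)] (nat_lit 11026205)) p13_16_1 (nat_lit 4) (nat_lit 192) (nat_lit 193) = true := by decide +kernel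
def p13_16_1_193 : pfC (piC [(nat_lit 35755509), (nat_lit 23968959), (nat_lit 17897616), (nat_lit 12073119)] (nat_lit 11026205)) p13_16_1 (nat_lit 4) (nat_lit 193) (nat_lit 194) = true := by decide +kernel
def p13_16_1_194 : pfC (piC [(nat_lit 35755509), (nat_lit 23968959), (nat_lit 17897616), (nat_lit 12073119)] (nat_lit 11026205)) p13_16_1 (nat_lit 4) (nat_lit 194) (nat_lit 195) = true := by decide +kernel
def p13_16_1_195 : pfC (piC [(nat_lit 35755509), (nat_lit 23968959), (nat_lit 17897616), (nat_lit 12073119)] (nat_lit 11026205)) p13_16_1 (nat_lit 4) (nat_lit 195) (nat_lit 196) = true := by decide +kernel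
def p13_16_1_196 : pfC (piC [(nat_lit 35755509), (nat_lit 23968959), (nat_lit 17897616), (nat_lit 12073119)] (nat_lit 11026205)) p13_16_1 (nat_lit 4) (nat_lit 196) (nat_lit 197) = true := by decide +kernel
def p13_16_1_197 : pfC (piC [(nat_lit 35755509), (nat_lit 23968959), (nat_lit 17897616), (nat_lit 12073119)] (nat_lit 11026205)) p13_16_1 (nat_lit 4) (nat_lit 197) (nat_lit 198) = true := by decide +kernel
def p13_16_1_198 : pfC (piC [(nat_lit 35755509), (nat_lit 23968959), (nat_lit 17897616), (nat_lit 12073119)] (nat_lit 11026205)) p13_16_1 (nat_lit 4) (nat_lit 198) (nat_lit 199) = true := by decide +kernel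
def p13_16_1_199 : pfC (piC [(nat_lit 35755509), (nat_lit 23968959), (nat_lit 17897616), (nat_lit 12073119)] (nat_lit 11026205)) p13_16_1 (nat_lit 4) (nat_lit 199) (nat_lit 200) = true := by decide +kernel
def p13_16_1_200 : pfC (piC [(nat_lit 35755509), (nat_lit 23968959), (nat_lit 17897616), (nat_lit 12073119)] (nat_lit 11026205)) p13_16_1 (nat_lit 4) (nat_lit 200) (nat_lit 201) = true := by decide +kernel
def p13_16_1_201 : pfC (piC [(nat_lit 35755509), (nat_lit 23968959), (nat_lit 17897616), (nat_lit 12073119)] (nat_lit 11026205)) p13_16_1 (nat_lit 4) (nat_lit 201) (nat_lit 202) = true := by decide +kernel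
def p13_16_1_202 : pfC (piC [(nat_lit 35755509), (nat_lit 23968959), (nat_lit 17897616), (nat_lit 12073119)] (nat_lit 11026205)) p13_16_1 (nat_lit 4) (nat_lit 202) (nat_lit 203) = true := by decide +kernel
def p13_16_1_203 : pfC (piC [(nat_lit 35755509), (nat_lit 23968959), (nat_lit 17897616), (nat_lit 12073119)] (nat_lit 11026205)) p13_16_1 (nat_lit 4) (nat_lit 203) (nat_lit 204) = true := by decide +kernel
def p13_16_1_204 : pfC (piC [(nat_lit 35755509), (nat_lit 23968959), (nat_lit 17897616), (nat_lit 12073119)] (nat_lit 11026205)) p13_16_1 (nat_lit 4) (nat_lit 204) (nat_lit 205) = true := by decide +kernel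
def p13_16_1_205 : pfC (piC [(nat_lit 35755509), (nat_lit 23968959), (nat_lit 17897616), (nat_lit 12073119)] (nat_lit 11026205)) p13_16_1 (nat_lit 4) (nat_lit 205) (nat_lit 206) = true := by decide +kernel
def p13_16_1_206 : pfC (piC [(nat_lit 35755509), (nat_lit 23968959), (nat_lit 17897616), (nat_lit 12073119)] (nat_lit 11026205)) p13_16_1 (nat_lit 4) (nat_lit 206) (nat_lit 207) = true := by decide +kernel
def p13_16_1_207 : pfC (piC [(nat_lit 35755509), (nat_lit 23968959), (nat_lit 17897616), (nat_lit 12073119)] (nat_lit 11026205)) p13_16_1 (nat_lit 4) (nat_lit 207) (nat_lit 208) = true := by decide +kernel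
def p13_16_1_208 : pfC (piC [(nat_lit 35755509), (nat_lit 23968959), (nat_lit 17897616), (nat_lit 12073119)] (nat_lit 11026205)) p13_16_1 (nat_lit 4) (nat_lit 208) (nat_lit 209) = true := by decide +kernel
def p13_16_1_209 : pfC (piC [(nat_lit 35755509), (nat_lit 23968959), (nat_lit 17897616), (nat_lit 12073119)] (nat_lit 11026205)) p13_16_1 (nat_lit 4) (nat_lit 209) (nat_lit 210) = true := by decide +kernel
def p13_16_1_210 : pfC (piC [(nat_lit 35755509), (nat_lit 23968959), (nat_lit 17897616), (nat_lit 12073119)] (nat_lit 11026205)) p13_16_1 (nat_lit 4) (nat_lit 210) (nat_lit 211) = true := by decide +kernel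
def p13_16_1_211 : pfC (piC [(nat_lit 35755509), (nat_lit 23968959), (nat_lit 17897616), (nat_lit 12073119)] (nat_lit 11026205)) p13_16_1 (nat_lit 4) (nat_lit 211) (nat_lit 212) = true := by decide +kernel
def p13_16_1_212 : pfC (piC [(nat_lit 35755509), (nat_lit 23968959), (nat_lit 17897616), (nat_lit 12073119)] (nat_lit 11026205)) p13_16_1 (nat_lit 4) (nat_lit 212) (nat_lit 213) = true := by decide +kernel
def p13_16_1_213 : pfC (piC [(nat_lit 35755509), (nat_lit 23968959), (nat_lit 17897616), (nat_lit 12073119)] (nat_lit 11026205)) p13_16_1 (nat_lit 4) (nat_lit 213) (nat_lit 214) = true := by decide +kernel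
def p13_16_1_214 : pfC (piC [(nat_lit 35755509), (nat_lit 23968959), (nat_lit 17897616), (nat_lit 12073119)] (nat_lit 11026205)) p13_16_1 (nat_lit 4) (nat_lit 214) (nat_lit 215) = true := by decide +kernel
def p13_16_1_215 : pfC (piC [(nat_lit 35755509), (nat_lit 23968959), (nat_lit 17897616), (nat_lit 12073119)] (nat_lit 11026205)) p13_16_1 (nat_lit 4) (nat_lit 215) (nat_lit 216) = true := by decide +kernel
def p13_16_1_216 : pfC (piC [(nat_lit 35755509), (nat_lit 23968959), (nat_lit 17897616), (nat_lit 12073119)] (nat_lit 11026205)) p13_16_1 (nat_lit 4) (nat_lit 216) (nat_lit 217) = true := by decide +kernel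
def p13_16_1_217 : pfC (piC [(nat_lit 35755509), (nat_lit 23968959), (nat_lit 17897616), (nat_lit 12073119)] (nat_lit 11026205)) p13_16_1 (nat_lit 4) (nat_lit 217) (nat_lit 218) = true := by decide +kernel
def p13_16_1_218 : pfC (piC [(nat_lit 35755509), (nat_lit 23968959), (nat_lit 17897616), (nat_lit 12073119)] (nat_lit 11026205)) p13_16_1 (nat_lit 4) (nat_lit 218) (nat_lit 219) = true := by decide +kernel
def p13_16_1_219 : pfC (piC [(nat_lit 35755509), (nat_lit 23968959), (nat_lit 17897616), (nat_lit 12073119)] (nat_lit 11026205)) p13_16_1 (nat_lit 4) (nat_lit 219) (nat_lit 220) = true := by decide +kernel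
def p13_16_1_220 : pfC (piC [(nat_lit 35755509), (nat_lit 23968959), (nat_lit 17897616), (nat_lit 12073119)] (nat_lit 11026205)) p13_16_1 (nat_lit 4) (nat_lit 220) (nat_lit 221) = true := by decide +kernel
def p13_16_1_221 : pfC (piC [(nat_lit 35755509), (nat_lit 23968959), (nat_lit 17897616), (nat_lit 12073119)] (nat_lit 11026205)) p13_16_1 (nat_lit 4) (nat_lit 221) (nat_lit 222) = true := by decide +kernel
def p13_16_1_222 : pfC (piC [(nat_lit 35755509), (nat_lit 23968959), (nat_lit 17897616), (nat_lit 12073119)] (nat_lit 11026205)) p13_16_1 (nat_lit 4) (nat_lit 222) (nat_lit 223) = true := by decide +kernel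
def p13_16_1_223 : pfC (piC [(nat_lit 35755509), (nat_lit 23968959), (nat_lit 17897616), (nat_lit 12073119)] (nat_lit 11026205)) p13_16_1 (nat_lit 4) (nat_lit 223) (nat_lit 224) = true := by decide +kernel
def p13_16_1_224 : pfC (piC [(nat_lit 35755509), (nat_lit 23968959), (nat_lit 17897616), (nat_lit 12073119)] (nat_lit 11026205)) p13_16_1 (nat_lit 4) (nat_lit 224) (nat_lit 225) = true := by decide +kernel
def p13_16_1_225 : pfC (piC [(nat_lit 35755509), (nat_lit 23968959), (nat_lit 17897616), (nat_lit 12073119)] (nat_lit 11026205)) p13_16_1 (nat_lit 4) (nat_lit 225) (nat_lit 226) = true := by decide +kernel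
def p13_16_1_226 : pfC (piC [(nat_lit 35755509), (nat_lit 23968959), (nat_lit 17897616), (nat_lit 12073119)] (nat_lit 11026205)) p13_16_1 (nat_lit 4) (nat_lit 226) (nat_lit 227) = true := by decide +kernel
def p13_16_1_227 : pfC (piC [(nat_lit 35755509), (nat_lit 23968959), (nat_lit 17897616), (nat_lit 12073119)] (nat_lit 11026205)) p13_16_1 (nat_lit 4) (nat_lit 227) (nat_lit 228) = true := by decide +kernel
def p13_16_1_228 : pfC (piC [(nat_lit 35755509), (nat_lit 23968959), (nat_lit 17897616), (nat_lit 12073119)] (nat_lit 11026205)) p13_16_1 (nat_lit 4) (nat_lit 228) (nat_lit 229) = true := by decide +kernel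
def p13_16_1_229 : pfC (piC [(nat_lit 35755509), (nat_lit 23968959), (nat_lit 17897616), (nat_lit 12073119)] (nat_lit 11026205)) p13_16_1 (nat_lit 4) (nat_lit 229) (nat_lit 230) = true := by decide +kernel
theorem p13_16_1_T : PfS (PiF n13_16.reverse (nat_lit 11026205)) p13_16_1 (nat_lit 4) [] 0 :=
  pftab_of (los := [(nat_lit 35755509), (nat_lit 23968959), (nat_lit 17897616), (nat_lit 12073119)]) (by decide +kernel) (hi := (nat_lit 230)) (PfP.trans (PfP.trans (PfP.trans (PfP.trans (PfP.trans (PfP.trans (PfP.trans (PfP.trans (PfP.trans (PfP.trans (PfP.trans (PfP.trans (PfP.trans (PfP.trans (PfP.trans (PfP.trans (PfP.trans (PfP.trans (PfP.trans (PfP.trans (PfP.trans (PfP.trans (PfP.trans (PfP.trans (PfP.trans (PfP.trans (PfP.trans (PfP.trans (PfP.trans (PfP.trans (PfP.trans (PfP.trans (PfP.trans (PfP.trans (PfP.trans (PfP.trans (PfP.trans (PfP.trans (PfP.trans (PfP.trans (PfP.trans (PfP.trans (PfP.trans (PfP.trans (PfP.trans (PfP.trans (PfP.trans (PfP.trans (PfP.trans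 (PfP.trans (PfP.trans (PfP.trans (PfP.trans (PfP.trans (PfP.trans (PfP.trans (PfP.trans (PfP.trans (PfP.trans (PfP.trans (PfP.trans (PfP.trans (PfP.trans (PfP.trans (PfP.trans (PfP.trans (PfP.trans (PfP.trans (PfP.trans (PfP.trans (PfP.trans (PfP.trans (PfP.trans (PfP.trans (PfP.trans (PfP.trans (PfP.trans (PfP.trans (PfP.trans (PfP.trans (PfP.trans (PfP.trans (PfP.trans (PfP.trans (PfP.trans (PfP.trans (PfP.trans (PfP.trans (PfP.trans (PfP.trans (PfP.trans (PfP.trans (PfP.trans (PfP.trans (PfP.trans (PfP.trans (PfP.trans (PfP.trans (PfP.trans (PfP.trans (PfP.trans (PfP.trans (PfP.trans (PfP.trans (PfP.trans (PfP.trans (PfP.trans (PfP.trans (PfP.trans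
 (PfP.trans (PfP.trans (PfP.trans (PfP.trans (PfP.trans (PfP.trans (PfP.trans (PfP.trans (PfP.trans (PfP.trans (PfP.trans (PfP.trans (PfP.trans (PfP.trans (PfP.trans (PfP.trans (PfP.trans (PfP.trans (PfP.trans (PfP.trans (PfP.trans (PfP.trans (PfP.trans (PfP.trans (PfP.trans (PfP.trans (PfP.trans (PfP.trans (PfP.trans (PfP.trans (PfP.trans (PfP.trans (PfP.trans (PfP.trans (PfP.trans (PfP.trans (PfP.trans (PfP.trans (PfP.trans (PfP.trans (PfP.trans (PfP.trans (PfP.trans (PfP.trans (PfP.trans (PfP.trans (PfP.trans (PfP.trans (PfP.trans (PfP.trans (PfP.trans (PfP.trans (PfP.trans (PfP.trans (PfP.trans (PfP.trans (PfP.trans (PfP.trans (PfP.trans (PfP.trans (PfP.trans (PfP.trans (PfP.trans (PfP.trans (PfP.trans (PfP.trans (PfP.trans (PfP.trans (PfP.trans (PfP.trans (PfP.trans (PfP.trans (PfP.trans (PfP.trans (PfP.trans (PfP.trans (PfP.trans (PfP.trans (PfP.trans (PfP.trans (PfP.trans (PfP.trans (PfP.trans (PfP.trans (PfP.trans (PfP.trans (PfP.trans (PfP.trans (PfP.trans (PfP.trans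 (PfP.trans (PfP.trans (PfP.trans (PfP.trans (PfP.trans (PfP.trans (PfP.trans (PfP.trans (PfP.trans (PfP.trans (PfP.trans (PfP.trans (PfP.trans (PfP.trans (PfP.trans (PfP.trans (PfP.trans (PfP.trans (PfP.trans
 (PfP.trans (PfP.trans (PfP.trans (PfP.trans (PfP.trans (PfP.trans (PfP.trans (PfP.trans (PfP.trans (PfP.trans (PfP.trans (pfC_sound p13_16_1_0) (pfC_sound p13_16_1_1)) (pfC_sound p13_16_1_2)) (pfC_sound p13_16_1_3)) (pfC_sound p13_16_1_4)) (pfC_sound p13_16_1_5)) (pfC_sound p13_16_1_6)) (pfC_sound p13_16_1_7)) (pfC_sound p13_16_1_8)) (pfC_sound p13_16_1_9)) (pfC_sound p13_16_1_10)) (pfC_sound p13_16_1_11)) (pfC_sound p13_16_1_12)) (pfC_sound p13_16_1_13)) (pfC_sound p13_16_1_14)) (pfC_sound p13_16_1_15)) (pfC_sound p13_16_1_16)) (pfC_sound p13_16_1_17)) (pfC_sound p13_16_1_18)) (pfC_sound p13_16_1_19)) (pfC_sound p13_16_1_20)) (pfC_sound p13_16_1_21)) (pfC_sound p13_16_1_22)) (pfC_sound p13_16_1_23)) (pfC_sound p13_16_1_24)) (pfC_sound p13_16_1_25)) (pfC_sound p13_16_1_26))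 (pfC_sound p13_16_1_27)) (pfC_sound p13_16_1_28)) (pfC_sound p13_16_1_29)) (pfC_sound p13_16_1_30)) (pfC_sound p13_16_1_31)) (pfC_sound p13_16_1_32)) (pfC_sound p13_16_1_33)) (pfC_sound p13_16_1_34)) (pfC_sound p13_16_1_35)) (pfC_sound p13_16_1_36)) (pfC_sound p13_16_1_37)) (pfC_sound p13_16_1_38)) (pfC_sound p13_16_1_39)) (pfC_sound p13_16_1_40)) (pfC_sound p13_16_1_41)) (pfC_sound p13_16_1_42)) (pfC_sound
 p13_16_1_43)) (pfC_sound p13_16_1_44)) (pfC_sound p13_16_1_45)) (pfC_sound p13_16_1_46)) (pfC_sound p13_16_1_47)) (pfC_sound p13_16_1_48)) (pfC_sound p13_16_1_49)) (pfC_sound p13_16_1_50)) (pfC_sound p13_16_1_51)) (pfC_sound p13_16_1_52)) (pfC_sound p13_16_1_53)) (pfC_sound p13_16_1_54)) (pfC_sound p13_16_1_55)) (pfC_sound p13_16_1_56)) (pfC_sound p13_16_1_57)) (pfC_sound p13_16_1_58)) (pfC_sound p13_16_1_59)) (pfC_sound p13_16_1_60)) (pfC_sound p13_16_1_61)) (pfC_sound p13_16_1_62)) (pfC_sound p13_16_1_63)) (pfC_sound p13_16_1_64)) (pfC_sound p13_16_1_65)) (pfC_sound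 p13_16_1_66)) (pfC_sound p13_16_1_67)) (pfC_sound p13_16_1_68)) (pfC_sound p13_16_1_69)) (pfC_sound p13_16_1_70)) (pfC_sound p13_16_1_71)) (pfC_sound p13_16_1_72)) (pfC_sound p13_16_1_73)) (pfC_sound p13_16_1_74)) (pfC_sound p13_16_1_75)) (pfC_sound p13_16_1_76)) (pfC_sound p13_16_1_77)) (pfC_sound p13_16_1_78)) (pfC_sound p13_16_1_79)) (pfC_sound p13_16_1_80)) (pfC_sound p13_16_1_81)) (pfC_sound p13_16_1_82)) (pfC_sound p13_16_1_83)) (pfC_sound p13_16_1_84)) (pfC_sound p13_16_1_85)) (pfC_sound p13_16_1_86)) (pfC_sound p13_16_1_87)) (pfC_sound p13_16_1_88)) (pfC_sound p13_16_1_89)) (pfC_sound p13_16_1_90)) (pfC_sound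
 p13_16_1_91)) (pfC_sound p13_16_1_92)) (pfC_sound p13_16_1_93)) (pfC_sound p13_16_1_94)) (pfC_sound p13_16_1_95)) (pfC_sound p13_16_1_96)) (pfC_sound p13_16_1_97)) (pfC_sound p13_16_1_98)) (pfC_sound p13_16_1_99)) (pfC_sound p13_16_1_100)) (pfC_sound p13_16_1_101)) (pfC_sound p13_16_1_102)) (pfC_sound p13_16_1_103)) (pfC_sound p13_16_1_104)) (pfC_sound p13_16_1_105)) (pfC_sound p13_16_1_106)) (pfC_sound p13_16_1_107)) (pfC_sound p13_16_1_108)) (pfC_sound p13_16_1_109)) (pfC_sound p13_16_1_110)) (pfC_sound p13_16_1_111)) (pfC_sound p13_16_1_112)) (pfC_sound p13_16_1_113)) (pfC_sound p13_16_1_114)) (pfC_sound p13_16_1_115)) (pfC_sound p13_16_1_116)) (pfC_sound p13_16_1_117)) (pfC_sound p13_16_1_118)) (pfC_sound p13_16_1_119)) (pfC_sound p13_16_1_120)) (pfC_sound p13_16_1_121)) (pfC_sound p13_16_1_122)) (pfC_sound p13_16_1_123)) (pfC_sound p13_16_1_124)) (pfC_sound p13_16_1_125)) (pfC_sound p13_16_1_126)) (pfC_sound p13_16_1_127)) (pfC_sound p13_16_1_128)) (pfC_sound p13_16_1_129))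 (pfC_sound p13_16_1_130)) (pfC_sound p13_16_1_131)) (pfC_sound p13_16_1_132)) (pfC_sound p13_16_1_133)) (pfC_sound p13_16_1_134)) (pfC_sound p13_16_1_135)) (pfC_sound p13_16_1_136)) (pfC_sound
 p13_16_1_137)) (pfC_sound p13_16_1_138)) (pfC_sound p13_16_1_139)) (pfC_sound p13_16_1_140)) (pfC_sound p13_16_1_141)) (pfC_sound p13_16_1_142)) (pfC_sound p13_16_1_143)) (pfC_sound p13_16_1_144)) (pfC_sound p13_16_1_145)) (pfC_sound p13_16_1_146)) (pfC_sound p13_16_1_147)) (pfC_sound p13_16_1_148)) (pfC_sound p13_16_1_149)) (pfC_sound p13_16_1_150)) (pfC_sound p13_16_1_151)) (pfC_sound p13_16_1_152)) (pfC_sound p13_16_1_153)) (pfC_sound p13_16_1_154)) (pfC_sound p13_16_1_155)) (pfC_sound p13_16_1_156)) (pfC_sound p13_16_1_157)) (pfC_sound p13_16_1_158)) (pfC_sound p13_16_1_159)) (pfC_sound p13_16_1_160)) (pfC_sound p13_16_1_161)) (pfC_sound p13_16_1_162)) (pfC_sound p13_16_1_163)) (pfC_sound p13_16_1_164)) (pfC_sound p13_16_1_165)) (pfC_sound p13_16_1_166)) (pfC_sound p13_16_1_167))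 (pfC_sound p13_16_1_168)) (pfC_sound p13_16_1_169)) (pfC_sound p13_16_1_170)) (pfC_sound p13_16_1_171)) (pfC_sound p13_16_1_172)) (pfC_sound p13_16_1_173)) (pfC_sound p13_16_1_174)) (pfC_sound p13_16_1_175)) (pfC_sound p13_16_1_176)) (pfC_sound p13_16_1_177)) (pfC_sound p13_16_1_178)) (pfC_sound p13_16_1_179)) (pfC_sound p13_16_1_180)) (pfC_sound p13_16_1_181)) (pfC_sound p13_16_1_182)) (pfC_sound
 p13_16_1_183)) (pfC_sound p13_16_1_184)) (pfC_sound p13_16_1_185)) (pfC_sound p13_16_1_186)) (pfC_sound p13_16_1_187)) (pfC_sound p13_16_1_188)) (pfC_sound p13_16_1_189)) (pfC_sound p13_16_1_190)) (pfC_sound p13_16_1_191)) (pfC_sound p13_16_1_192)) (pfC_sound p13_16_1_193)) (pfC_sound p13_16_1_194)) (pfC_sound p13_16_1_195)) (pfC_sound p13_16_1_196)) (pfC_sound p13_16_1_197)) (pfC_sound p13_16_1_198)) (pfC_sound p13_16_1_199)) (pfC_sound p13_16_1_200)) (pfC_sound p13_16_1_201)) (pfC_sound p13_16_1_202)) (pfC_sound p13_16_1_203)) (pfC_sound p13_16_1_204)) (pfC_sound p13_16_1_205))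 (pfC_sound p13_16_1_206)) (pfC_sound p13_16_1_207)) (pfC_sound p13_16_1_208)) (pfC_sound p13_16_1_209)) (pfC_sound p13_16_1_210)) (pfC_sound p13_16_1_211)) (pfC_sound p13_16_1_212)) (pfC_sound p13_16_1_213)) (pfC_sound p13_16_1_214)) (pfC_sound p13_16_1_215)) (pfC_sound p13_16_1_216)) (pfC_sound p13_16_1_217)) (pfC_sound p13_16_1_218)) (pfC_sound p13_16_1_219)) (pfC_sound p13_16_1_220)) (pfC_sound p13_16_1_221)) (pfC_sound p13_16_1_222)) (pfC_sound p13_16_1_223)) (pfC_sound p13_16_1_224)) (pfC_sound p13_16_1_225)) (pfC_sound p13_16_1_226)) (pfC_sound p13_16_1_227)) (pfC_sound p13_16_1_228)) (pfC_sound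
 p13_16_1_229)) (by decide +kernel)

def z13_16_1 : zOK yB13_16 (nat_lit 1) (nat_lit 400) (nat_lit 600) (nat_lit 11026205) (nat_lit 7256705) = true := by decide +kernel
def g13_16_1 : gOK yB13_16.x P13_16 (nat_lit 1405) (q13_16 :: r13_16) (nat_lit 1) (nat_lit 400) (nat_lit 2) (nat_lit 600) (nat_lit 11000000) (nat_lit 17850000) (nat_lit 12712500) (nat_lit 12712500) [(nat_lit 800), (nat_lit 1130)] = true := by decide +kernel
def v13_16_1 : ivC P13_16 s13_16 w13_16 n13_16 (nat_lit 4) (nat_lit 4940) (nat_lit 1) (nat_lit 400) f168_1_400 f176_1_400 (nat_lit 2) (nat_lit 600) f168_1_600 f176_1_600 (nat_lit 11026205) (nat_lit 7256705) p13_16_1 = true := by decide +kernel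
def p13_16_2 : PF := (PF.cons (PF.cons (PF.cons (PF.cons (PF.leaf (nat_lit 2619976) (nat_lit 14610328) (nat_lit 52498484) (nat_lit 14610328) [(nat_lit 0), (nat_lit 0), (nat_lit 0), (nat_lit 0)]) (PF.cons (PF.leaf (nat_lit 2839590) (nat_lit 406953) (nat_lit 52105321) (nat_lit 14596537) [(nat_lit 406953), (nat_lit 0), (nat_lit 0), (nat_lit 0)]) (PF.cons (PF.leaf (nat_lit 3097259) (nat_lit 441557) (nat_lit 51648121) (nat_lit 14577575) [(nat_lit 441557), (nat_lit 0), (nat_lit 0), (nat_lit 0)]) (PF.cons (PF.leaf (nat_lit 3385342) (nat_lit 471847) (nat_lit 51140296) (nat_lit 14552973) [(nat_lit 471847), (nat_lit 0), (nat_lit 0), (nat_lit 0)]) (PF.cons (PF.leaf (nat_lit 3698822) (nat_lit 498730) (nat_lit 50591537) (nat_lit 14522354) [(nat_lit 498730), (nat_lit 0), (nat_lit 0), (nat_lit 0)]) (PF.cons (PF.leaf (nat_lit 4033836) (nat_lit 522788) (nat_lit 50009420) (nat_lit 14485451) [(nat_lit 522788), (nat_lit 0), (nat_lit 0), (nat_lit 0)]) (PF.cons (PF.leaf (nat_lit 4387174) (nat_lit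 544423) (nat_lit 49400154) (nat_lit 14442115) [(nat_lit 544423), (nat_lit 0), (nat_lit 0), (nat_lit 0)]) (PF.cons (PF.leaf (nat_lit 4756090) (nat_lit 563933) (nat_lit 48768971) (nat_lit 14392305) [(nat_lit 563933), (nat_lit 0),
 (nat_lit 0), (nat_lit 0)]) (PF.cons (PF.leaf (nat_lit 5138221) (nat_lit 581545) (nat_lit 48120371) (nat_lit 14336073) [(nat_lit 581545), (nat_lit 0), (nat_lit 0), (nat_lit 0)]) (PF.cons (PF.leaf (nat_lit 5531484) (nat_lit 597443) (nat_lit 47458264) (nat_lit 14273557) [(nat_lit 597443), (nat_lit 0), (nat_lit 0), (nat_lit 0)]) (PF.cons (PF.leaf (nat_lit 5933995) (nat_lit 611777) (nat_lit 46786074) (nat_lit 14204959) [(nat_lit 611777), (nat_lit 0), (nat_lit 0), (nat_lit 0)]) (PF.cons PF.nil (PF.cons PF.nil (PF.cons PF.nil PF.nil)))))))))))))) (PF.cons (PF.cons (PF.leaf (nat_lit 3252399) (nat_lit 1554280) (nat_lit 51014523) (nat_lit 14540008) [(nat_lit 0), (nat_lit 1554280), (nat_lit 0), (nat_lit 0)]) (PF.cons (PF.leaf (nat_lit 3528731) (nat_lit 479556)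 (nat_lit 50520848) (nat_lit 14511764) [(nat_lit 479556), (nat_lit 1596643), (nat_lit 0), (nat_lit 0)]) (PF.cons (PF.leaf (nat_lit 3832911) (nat_lit 505670) (nat_lit 49983347) (nat_lit 14477329) [(nat_lit 505670), (nat_lit 1636795), (nat_lit 0), (nat_lit 0)]) (PF.cons (PF.leaf (nat_lit 4159776) (nat_lit 528950) (nat_lit 49411164) (nat_lit 14436581) [(nat_lit 528950), (nat_lit 1674216), (nat_lit 0), (nat_lit 0)]) (PF.cons (PF.leaf
 (nat_lit 4505661) (nat_lit 549833) (nat_lit 48811299) (nat_lit 14389470) [(nat_lit 549833), (nat_lit 1708709), (nat_lit 0), (nat_lit 0)]) (PF.cons (PF.leaf (nat_lit 4867586) (nat_lit 568630) (nat_lit 48189405) (nat_lit 14336020) [(nat_lit 568630), (nat_lit 1740234), (nat_lit 0), (nat_lit 0)]) (PF.cons (PF.leaf (nat_lit 5243018) (nat_lit 585573) (nat_lit 47550200) (nat_lit 14276336) [(nat_lit 585573), (nat_lit 1768836), (nat_lit 0), (nat_lit 0)]) (PF.cons (PF.leaf (nat_lit 5629765) (nat_lit 600845) (nat_lit 46897702) (nat_lit 14210587) [(nat_lit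 600845), (nat_lit 1794602), (nat_lit 0), (nat_lit 0)]) (PF.cons (PF.leaf (nat_lit 6025894) (nat_lit 614598) (nat_lit 46235380) (nat_lit 14139001) [(nat_lit 614598), (nat_lit 1817646), (nat_lit 0), (nat_lit 0)]) (PF.cons PF.nil (PF.cons PF.nil (PF.cons PF.nil PF.nil)))))))))))) (PF.cons (PF.cons (PF.leaf (nat_lit 3970803) (nat_lit 1659270) (nat_lit 49363492) (nat_lit 14426778) [(nat_lit 0), (nat_lit 1659270), (nat_lit 0), (nat_lit 0)]) (PF.cons (PF.leaf (nat_lit 4287439) (nat_lit 533962) (nat_lit 48805702) (nat_lit 14382803) [(nat_lit 533962), (nat_lit 1693171), (nat_lit 0), (nat_lit 0)]) (PF.cons (PF.leaf (nat_lit 4624716) (nat_lit 554298)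
 (nat_lit 48218416) (nat_lit 14332445) [(nat_lit 554298), (nat_lit 1724676), (nat_lit 0), (nat_lit 0)]) (PF.cons (PF.leaf (nat_lit 4978839) (nat_lit 572531) (nat_lit 47608169) (nat_lit 14275828) [(nat_lit 572531), (nat_lit 1753609), (nat_lit 0), (nat_lit 0)]) (PF.cons (PF.leaf (nat_lit 5347005) (nat_lit 588918) (nat_lit 46980158) (nat_lit 14213118) [(nat_lit 588918), (nat_lit 1779929), (nat_lit 0), (nat_lit 0)]) (PF.cons (PF.leaf (nat_lit 5726859) (nat_lit 603655) (nat_lit 46338669) (nat_lit 14144527) [(nat_lit 603655), (nat_lit 1803667), (nat_lit 0), (nat_lit 0)]) (PF.cons (PF.leaf (nat_lit 6116362) (nat_lit 616899) (nat_lit 45687315) (nat_lit 14070311) [(nat_lit 616899), (nat_lit 1824895), (nat_lit 0), (nat_lit 0)]) (PF.cons (PF.leaf (nat_lit 6513729) (nat_lit 628778) (nat_lit 45029186) (nat_lit 13990759) [(nat_lit 628778), (nat_lit 1843707), (nat_lit 0), (nat_lit 0)]) (PF.cons PF.nil (PF.cons PF.nil PF.nil)))))))))) (PF.cons (PF.cons (PF.leaf (nat_lit 4745946) (nat_lit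 1739173) (nat_lit 47620312) (nat_lit 14270979) [(nat_lit 0), (nat_lit 1739173), (nat_lit 0), (nat_lit 0)]) (PF.cons (PF.leaf (nat_lit 5090869) (nat_lit 575621) (nat_lit 47024532) (nat_lit 14211736) [(nat_lit
 575621), (nat_lit 1765640), (nat_lit 0), (nat_lit 0)]) (PF.cons (PF.leaf (nat_lit 5450995) (nat_lit 591578) (nat_lit 46409780) (nat_lit 14146469) [(nat_lit 591578), (nat_lit 1789802), (nat_lit 0), (nat_lit 0)]) (PF.cons (PF.leaf (nat_lit 5823393) (nat_lit 605875) (nat_lit 45780853) (nat_lit 14075452) [(nat_lit 605875), (nat_lit 1811626), (nat_lit 0), (nat_lit 0)]) (PF.cons (PF.leaf (nat_lit 6205884) (nat_lit 618686) (nat_lit 45141658) (nat_lit 13998980) [(nat_lit 618686), (nat_lit 1831142), (nat_lit 0), (nat_lit 0)]) (PF.cons (PF.leaf (nat_lit 6596549) (nat_lit 630149) (nat_lit 44495453) (nat_lit 13917365) [(nat_lit 630149), (nat_lit 1848415), (nat_lit 0), (nat_lit 0)]) (PF.cons (PF.leaf (nat_lit 6993781) (nat_lit 640379) (nat_lit 43844998) (nat_lit 13830940) [(nat_lit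 640379), (nat_lit 1863532), (nat_lit 0), (nat_lit 0)]) (PF.cons PF.nil (PF.cons PF.nil PF.nil))))))))) (PF.cons (PF.cons (PF.leaf (nat_lit 5556133) (nat_lit 1798546) (nat_lit 45838247) (nat_lit 14076377) [(nat_lit 0), (nat_lit 1798546), (nat_lit 0), (nat_lit 0)]) (PF.cons (PF.leaf (nat_lit 5920105) (nat_lit 607494) (nat_lit 45223710) (nat_lit 14003392) [(nat_lit 607494), (nat_lit 1818553), (nat_lit 0), (nat_lit 0)])
 (PF.cons (PF.leaf (nat_lit 6295047) (nat_lit 619957) (nat_lit 44598029) (nat_lit 13925062) [(nat_lit 619957), (nat_lit 1836451), (nat_lit 0), (nat_lit 0)]) (PF.cons (PF.leaf (nat_lit 6678654) (nat_lit 631069) (nat_lit 43964772) (nat_lit 13841738) [(nat_lit 631069), (nat_lit 1852273), (nat_lit 0), (nat_lit 0)]) (PF.cons (PF.leaf (nat_lit 7069176) (nat_lit 640958) (nat_lit 43326881) (nat_lit 13753774) [(nat_lit 640958), (nat_lit 1866081), (nat_lit 0), (nat_lit 0)]) (PF.cons PF.nil (PF.cons PF.nil PF.nil))))))) (PF.cons (PF.cons (PF.leaf (nat_lit 6384763) (nat_lit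 1840881) (nat_lit 44055833) (nat_lit 13848571) [(nat_lit 0), (nat_lit 1840881), (nat_lit 0), (nat_lit 0)]) (PF.cons (PF.leaf (nat_lit 6760585) (nat_lit 631534) (nat_lit 43436714) (nat_lit 13763915) [(nat_lit 631534), (nat_lit 1855329), (nat_lit 0), (nat_lit 0)]) (PF.cons (PF.leaf (nat_lit 7144043) (nat_lit 641140) (nat_lit 42812272) (nat_lit 13674740) [(nat_lit 641140), (nat_lit 1867903), (nat_lit 0), (nat_lit 0)]) (PF.cons (PF.leaf (nat_lit 7533302) (nat_lit 649631) (nat_lit 42185167) (nat_lit 13581423) [(nat_lit 649631), (nat_lit 1878665), (nat_lit 0), (nat_lit 0)]) (PF.cons PF.nil PF.nil))))) (PF.cons (PF.cons (PF.leaf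
 (nat_lit 7219117) (nat_lit 1869040) (nat_lit 42300712) (nat_lit 13593858) [(nat_lit 0), (nat_lit 1869040), (nat_lit 0), (nat_lit 0)]) (PF.cons (PF.leaf (nat_lit 7601170) (nat_lit 649184) (nat_lit 41687329) (nat_lit 13499779) [(nat_lit 649184), (nat_lit 1878753), (nat_lit 0), (nat_lit 0)]) (PF.cons PF.nil (PF.cons PF.nil PF.nil)))) (PF.cons (PF.cons (PF.leaf (nat_lit 8049557) (nat_lit 1885441) (nat_lit 40592227) (nat_lit 13318495) [(nat_lit 0), (nat_lit 1885441), (nat_lit 0), (nat_lit 0)]) (PF.cons PF.nil PF.nil)) (PF.cons PF.nil PF.nil))))))))) (PF.cons (PF.cons (PF.cons (PF.leaf (nat_lit 3818376) (nat_lit 3783920) (nat_lit 48957009) (nat_lit 14367883) [(nat_lit 0), (nat_lit 0), (nat_lit 3783920), (nat_lit 0)]) (PF.cons (PF.leaf (nat_lit 4103123) (nat_lit 506812) (nat_lit 48458681) (nat_lit 14327040) [(nat_lit 506812), (nat_lit 0), (nat_lit 3816277), (nat_lit 0)]) (PF.cons (PF.leaf (nat_lit 4413786) (nat_lit 530555) (nat_lit 47920864) (nat_lit 14279626) [(nat_lit 530555),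 (nat_lit 0), (nat_lit 3847210), (nat_lit 0)]) (PF.cons (PF.leaf (nat_lit 4745097) (nat_lit 551420) (nat_lit 47352782) (nat_lit 14225885) [(nat_lit 551420), (nat_lit 0), (nat_lit 3875885), (nat_lit 0)]) (PF.cons
 (PF.leaf (nat_lit 5093402) (nat_lit 569916) (nat_lit 46761295) (nat_lit 14166035) [(nat_lit 569916), (nat_lit 0), (nat_lit 3901815), (nat_lit 0)]) (PF.cons (PF.leaf (nat_lit 5455808) (nat_lit 586395) (nat_lit 46151801) (nat_lit 14100307) [(nat_lit 586395), (nat_lit 0), (nat_lit 3924728), (nat_lit 0)]) (PF.cons (PF.leaf (nat_lit 5829902) (nat_lit 601110) (nat_lit 45528697) (nat_lit 14028959) [(nat_lit 601110), (nat_lit 0), (nat_lit 3944495), (nat_lit 0)]) (PF.cons (PF.leaf (nat_lit 6213606) (nat_lit 614257) (nat_lit 44895658) (nat_lit 13952270) [(nat_lit 614257), (nat_lit 0), (nat_lit 3961079), (nat_lit 0)]) (PF.cons (PF.leaf (nat_lit 6605192) (nat_lit 625995) (nat_lit 44255793) (nat_lit 13870548) [(nat_lit 625995), (nat_lit 0), (nat_lit 3974510), (nat_lit 0)])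 (PF.cons PF.nil PF.nil)))))))))) (PF.cons (PF.cons (PF.leaf (nat_lit 4543183) (nat_lit 1709917) (nat_lit 47316837) (nat_lit 14216479) [(nat_lit 0), (nat_lit 1709917), (nat_lit 3865578), (nat_lit 0)]) (PF.cons (PF.leaf (nat_lit 4863559) (nat_lit 554255) (nat_lit 46765808) (nat_lit 14160674) [(nat_lit 554255), (nat_lit 1737694), (nat_lit 3890379), (nat_lit 0)]) (PF.cons (PF.leaf (nat_lit 5202739) (nat_lit 572441) (nat_lit
 46189146) (nat_lit 14098681) [(nat_lit 572441), (nat_lit 1763242), (nat_lit 3912859), (nat_lit 0)]) (PF.cons (PF.leaf (nat_lit 5556986) (nat_lit 588555) (nat_lit 45593179) (nat_lit 14030839) [(nat_lit 588555), (nat_lit 1786455), (nat_lit 3932672), (nat_lit 0)]) (PF.cons (PF.leaf (nat_lit 5923582) (nat_lit 602886) (nat_lit 44982828) (nat_lit 13957471) [(nat_lit 602886), (nat_lit 1807330), (nat_lit 3949635), (nat_lit 0)]) (PF.cons (PF.leaf (nat_lit 6300273) (nat_lit 615650) (nat_lit 44362065) (nat_lit 13878901) [(nat_lit 615650), (nat_lit 1825916), (nat_lit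 3963678), (nat_lit 0)]) (PF.cons (PF.leaf (nat_lit 6685162) (nat_lit 627012) (nat_lit 43734179) (nat_lit 13795461) [(nat_lit 627012), (nat_lit 1842294), (nat_lit 3974803), (nat_lit 0)]) (PF.cons (PF.leaf (nat_lit 7076604) (nat_lit 637110) (nat_lit 43101935) (nat_lit 13707488) [(nat_lit 637110), (nat_lit 1856558), (nat_lit 3983060), (nat_lit 0)]) (PF.cons PF.nil PF.nil))))))))) (PF.cons (PF.cons (PF.leaf (nat_lit 5314585) (nat_lit 1772889) (nat_lit 45613568) (nat_lit 14027599) [(nat_lit 0), (nat_lit 1772889), (nat_lit 3921865), (nat_lit 0)]) (PF.cons (PF.leaf (nat_lit 5659298) (nat_lit 590008) (nat_lit 45033595) (nat_lit 13958175)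
 [(nat_lit 590008), (nat_lit 1794141), (nat_lit 3938751), (nat_lit 0)]) (PF.cons (PF.leaf (nat_lit 6017624) (nat_lit 604071) (nat_lit 44437762) (nat_lit 13883233) [(nat_lit 604071), (nat_lit 1813296), (nat_lit 3953081), (nat_lit 0)]) (PF.cons (PF.leaf (nat_lit 6386759) (nat_lit 616537) (nat_lit 43830578) (nat_lit 13803165) [(nat_lit 616537), (nat_lit 1830357), (nat_lit 3964743), (nat_lit 0)]) (PF.cons (PF.leaf (nat_lit 6764596) (nat_lit 627593) (nat_lit 43215647) (nat_lit 13718342) [(nat_lit 627593), (nat_lit 1845369), (nat_lit 3973710), (nat_lit 0)]) (PF.cons (PF.leaf (nat_lit 7149374) (nat_lit 637387) (nat_lit 42595925) (nat_lit 13629129) [(nat_lit 637387), (nat_lit 1858405), (nat_lit 3980010), (nat_lit 0)]) (PF.cons PF.nil PF.nil))))))) (PF.cons (PF.cons (PF.leaf (nat_lit 6113151) (nat_lit 1818361) (nat_lit 43892609) (nat_lit 13806196) [(nat_lit 0), (nat_lit 1818361), (nat_lit 3954922), (nat_lit 0)]) (PF.cons (PF.leaf (nat_lit 6473757) (nat_lit 616900) (nat_lit 43300582)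 (nat_lit 13725057) [(nat_lit 616900), (nat_lit 1833972), (nat_lit 3964354), (nat_lit 0)]) (PF.cons (PF.leaf (nat_lit 6844033) (nat_lit 627728) (nat_lit 42699754) (nat_lit 13639216) [(nat_lit 627728), (nat_lit
 1847693), (nat_lit 3971304), (nat_lit 0)]) (PF.cons (PF.leaf (nat_lit 7221791) (nat_lit 637278) (nat_lit 42093401) (nat_lit 13549077) [(nat_lit 637278), (nat_lit 1859572), (nat_lit 3975778), (nat_lit 0)]) (PF.cons (PF.leaf (nat_lit 7605401) (nat_lit 645685) (nat_lit 41484187) (nat_lit 13455022) [(nat_lit 645685), (nat_lit 1869678), (nat_lit 3977827), (nat_lit 0)]) PF.nil))))) (PF.cons (PF.cons (PF.leaf (nat_lit 6924342) (nat_lit 1849311) (nat_lit 42185858) (nat_lit 13558063) [(nat_lit 0), (nat_lit 1849311), (nat_lit 3967646), (nat_lit 0)]) (PF.cons (PF.leaf (nat_lit 7294375) (nat_lit 636774) (nat_lit 41593892) (nat_lit 13467338) [(nat_lit 636774), (nat_lit 1860096), (nat_lit 3970421), (nat_lit 0)]) (PF.cons (PF.leaf (nat_lit 7671036) (nat_lit 644990) (nat_lit 40998252)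 (nat_lit 13372764) [(nat_lit 644990), (nat_lit 1869220), (nat_lit 3970932), (nat_lit 0)]) (PF.cons PF.nil PF.nil)))) (PF.cons (PF.cons (PF.leaf (nat_lit 7737185) (nat_lit 1868209) (nat_lit 40515586) (nat_lit 13289104) [(nat_lit 0), (nat_lit 1868209), (nat_lit 3963073), (nat_lit 0)]) (PF.cons (PF.leaf (nat_lit 8111692) (nat_lit 650972) (nat_lit 39932290) (nat_lit 13190914) [(nat_lit 650972), (nat_lit 1874907),
 (nat_lit 3960100), (nat_lit 0)]) PF.nil)) (PF.cons PF.nil (PF.cons PF.nil PF.nil)))))))) (PF.cons (PF.cons (PF.cons (PF.leaf (nat_lit 5097875) (nat_lit 3894562) (nat_lit 45346066) (nat_lit 13973622) [(nat_lit 0), (nat_lit 0), (nat_lit 3894562), (nat_lit 0)]) (PF.cons (PF.leaf (nat_lit 5419624) (nat_lit 569428) (nat_lit 44807799) (nat_lit 13908485) [(nat_lit 569428), (nat_lit 0), (nat_lit 3911549), (nat_lit 0)]) (PF.cons (PF.leaf (nat_lit 5758594) (nat_lit 585740) (nat_lit 44247161) (nat_lit 13837466) [(nat_lit 585740), (nat_lit 0), (nat_lit 3926351), (nat_lit 0)])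 (PF.cons (PF.leaf (nat_lit 6111103) (nat_lit 600025) (nat_lit 43670207) (nat_lit 13761061) [(nat_lit 600025), (nat_lit 0), (nat_lit 3938734), (nat_lit 0)]) (PF.cons (PF.leaf (nat_lit 6474515) (nat_lit 612593) (nat_lit 43081561) (nat_lit 13679704) [(nat_lit 612593), (nat_lit 0), (nat_lit 3948587), (nat_lit 0)]) (PF.cons (PF.leaf (nat_lit 6846711) (nat_lit 623671) (nat_lit 42484891) (nat_lit 13593791) [(nat_lit 623671), (nat_lit 0), (nat_lit 3955885), (nat_lit 0)]) (PF.cons (PF.leaf (nat_lit 7225904) (nat_lit 633435) (nat_lit 41883188) (nat_lit 13503698) [(nat_lit 633435), (nat_lit 0), (nat_lit 3960657), (nat_lit 0)])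
 (PF.cons PF.nil (PF.cons PF.nil PF.nil))))))))) (PF.cons (PF.cons (PF.leaf (nat_lit 5861391) (nat_lit 1794130) (nat_lit 43697279) (nat_lit 13759480) [(nat_lit 0), (nat_lit 1794130), (nat_lit 3928961), (nat_lit 0)]) (PF.cons (PF.leaf (nat_lit 6204201) (nat_lit 600173) (nat_lit 43137104) (nat_lit 13682373) [(nat_lit 600173), (nat_lit 1811056), (nat_lit 3939052), (nat_lit 0)]) (PF.cons (PF.leaf (nat_lit 6559270) (nat_lit 612601) (nat_lit 42563591) (nat_lit 13600260) [(nat_lit 612601), (nat_lit 1826067), (nat_lit 3946844), (nat_lit 0)]) (PF.cons (PF.leaf (nat_lit 6923901) (nat_lit 623496) (nat_lit 41980957) (nat_lit 13513613) [(nat_lit 623496), (nat_lit 1839192), (nat_lit 3952280), (nat_lit 0)]) (PF.cons (PF.leaf (nat_lit 7296096) (nat_lit 633055) (nat_lit 41392517) (nat_lit 13422851) [(nat_lit 633055), (nat_lit 1850490), (nat_lit 3955365), (nat_lit 0)]) (PF.cons (PF.leaf (nat_lit 7674204) (nat_lit 641430) (nat_lit 40800953) (nat_lit 13328366) [(nat_lit 641430), (nat_lit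 1860040), (nat_lit 3956149), (nat_lit 0)]) (PF.cons PF.nil PF.nil))))))) (PF.cons (PF.cons (PF.leaf (nat_lit 6645795) (nat_lit 1828217) (nat_lit 42046212) (nat_lit 13518550) [(nat_lit 0), (nat_lit 1828217), (nat_lit
 3943807), (nat_lit 0)]) (PF.cons (PF.leaf (nat_lit 7001910) (nat_lit 622858) (nat_lit 41478995) (nat_lit 13431564) [(nat_lit 622858), (nat_lit 1840188), (nat_lit 3947508), (nat_lit 0)]) (PF.cons (PF.leaf (nat_lit 7366606) (nat_lit 632284) (nat_lit 40904805) (nat_lit 13340462) [(nat_lit 632284), (nat_lit 1850459), (nat_lit 3949028), (nat_lit 0)]) (PF.cons (PF.leaf (nat_lit 7737808) (nat_lit 640504) (nat_lit 40326651) (nat_lit 13245678) [(nat_lit 640504), (nat_lit 1859089), (nat_lit 3948395), (nat_lit 0)]) (PF.cons PF.nil PF.nil))))) (PF.cons (PF.cons (PF.leaf (nat_lit 7438267) (nat_lit 1849855) (nat_lit 40419393) (nat_lit 13256484) [(nat_lit 0), (nat_lit 1849855), (nat_lit 3941684), (nat_lit 0)]) (PF.cons (PF.leaf (nat_lit 7801870) (nat_lit 639229) (nat_lit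 39855531) (nat_lit 13161709) [(nat_lit 639229), (nat_lit 1857618), (nat_lit 3939744), (nat_lit 0)]) (PF.cons (PF.leaf (nat_lit 8171249) (nat_lit 646262) (nat_lit 39289230) (nat_lit 13063666) [(nat_lit 646262), (nat_lit 1863902), (nat_lit 3935841), (nat_lit 0)]) (PF.cons PF.nil PF.nil)))) (PF.cons (PF.cons (PF.leaf (nat_lit 8229309) (nat_lit 1861206) (nat_lit 38834832) (nat_lit 12978674) [(nat_lit 0), (nat_lit 1861206), (nat_lit
 3925239), (nat_lit 0)]) (PF.cons PF.nil PF.nil)) (PF.cons PF.nil PF.nil)))))) (PF.cons (PF.cons (PF.cons (PF.leaf (nat_lit 6386169) (nat_lit 3919168) (nat_lit 41876783) (nat_lit 13474525) [(nat_lit 0), (nat_lit 0), (nat_lit 3919168), (nat_lit 0)]) (PF.cons (PF.leaf (nat_lit 6725801) (nat_lit 606905) (nat_lit 41338820) (nat_lit 13391843) [(nat_lit 606905), (nat_lit 0), (nat_lit 3923747), (nat_lit 0)]) (PF.cons (PF.leaf (nat_lit 7076560) (nat_lit 617916) (nat_lit 40789567) (nat_lit 13304647) [(nat_lit 617916), (nat_lit 0), (nat_lit 3926254), (nat_lit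 0)]) (PF.cons (PF.leaf (nat_lit 7435818) (nat_lit 627458) (nat_lit 40232950) (nat_lit 13213457) [(nat_lit 627458), (nat_lit 0), (nat_lit 3926676), (nat_lit 0)]) (PF.cons (PF.leaf (nat_lit 7801691) (nat_lit 635735) (nat_lit 39672020) (nat_lit 13118722) [(nat_lit 635735), (nat_lit 0), (nat_lit 3925043), (nat_lit 0)]) (PF.cons PF.nil (PF.cons PF.nil PF.nil))))))) (PF.cons (PF.cons (PF.leaf (nat_lit 7154712) (nat_lit 1830158) (nat_lit 40300281) (nat_lit 13220074) [(nat_lit 0), (nat_lit 1830158), (nat_lit 3919432), (nat_lit 0)]) (PF.cons (PF.leaf (nat_lit 7505547) (nat_lit 626022) (nat_lit 39758990) (nat_lit 13129131) [(nat_lit 626022),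
 (nat_lit 1839106), (nat_lit 3918520), (nat_lit 0)]) (PF.cons (PF.leaf (nat_lit 7864049) (nat_lit 634245) (nat_lit 39212153) (nat_lit 13034594) [(nat_lit 634245), (nat_lit 1846521), (nat_lit 3915684), (nat_lit 0)]) (PF.cons (PF.leaf (nat_lit 8228239) (nat_lit 641325) (nat_lit 38662533) (nat_lit 12936911) [(nat_lit 641325), (nat_lit 1852469), (nat_lit 3910973), (nat_lit 0)]) (PF.cons PF.nil PF.nil))))) (PF.cons (PF.cons (PF.leaf (nat_lit 7927801) (nat_lit 1844165) (nat_lit 38754710) (nat_lit 12949227) [(nat_lit 0), (nat_lit 1844165), (nat_lit 3905514), (nat_lit 0)]) (PF.cons (PF.leaf (nat_lit 8284560) (nat_lit 639440) (nat_lit 38219055) (nat_lit 12852018) [(nat_lit 639440), (nat_lit 1849431), (nat_lit 3899811), (nat_lit 0)]) (PF.cons PF.nil (PF.cons PF.nil PF.nil)))) (PF.cons (PF.cons (PF.leaf (nat_lit 8697140) (nat_lit 1849365) (nat_lit 37254697) (nat_lit 12666822) [(nat_lit 0), (nat_lit 1849365), (nat_lit 3879731), (nat_lit 0)]) (PF.cons PF.nil PF.nil)) (PF.cons PF.nil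 PF.nil))))) (PF.cons (PF.cons (PF.cons (PF.leaf (nat_lit 7640846) (nat_lit 3884852) (nat_lit 38653421) (nat_lit 12915981) [(nat_lit 0), (nat_lit 0), (nat_lit 3884852), (nat_lit 0)]) (PF.cons (PF.leaf (nat_lit
 7985848) (nat_lit 626923) (nat_lit 38138337) (nat_lit 12822607) [(nat_lit 626923), (nat_lit 0), (nat_lit 3880236), (nat_lit 0)]) (PF.cons (PF.leaf (nat_lit 8337766) (nat_lit 634108) (nat_lit 37618821) (nat_lit 12726096) [(nat_lit 634108), (nat_lit 0), (nat_lit 3873919), (nat_lit 0)]) (PF.cons PF.nil (PF.cons PF.nil PF.nil))))) (PF.cons (PF.cons (PF.leaf (nat_lit 8394310) (nat_lit 1833565) (nat_lit 37188382) (nat_lit 12640446) [(nat_lit 0), (nat_lit 1833565), (nat_lit 3861604), (nat_lit 0)]) (PF.cons (PF.leaf (nat_lit 8743992) (nat_lit 637848) (nat_lit 36680462) (nat_lit 12542082) [(nat_lit 637848), (nat_lit 1836768), (nat_lit 3852912), (nat_lit 0)]) (PF.cons PF.nil (PF.cons PF.nil PF.nil)))) (PF.cons (PF.cons (PF.leaf (nat_lit 9142321) (nat_lit 1833757) (nat_lit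 35770418) (nat_lit 12356764) [(nat_lit 0), (nat_lit 1833757), (nat_lit 3828528), (nat_lit 0)]) (PF.cons PF.nil PF.nil)) PF.nil))) (PF.cons (PF.cons (PF.cons (PF.leaf (nat_lit 8839220) (nat_lit 3811913) (nat_lit 35715948) (nat_lit 12333295) [(nat_lit 0), (nat_lit 0), (nat_lit 3811913), (nat_lit 0)]) (PF.cons (PF.leaf (nat_lit 9181715) (nat_lit 634810) (nat_lit 35234905) (nat_lit 12234776) [(nat_lit 634810), (nat_lit 0),
 (nat_lit 3800864), (nat_lit 0)]) PF.nil)) (PF.cons PF.nil PF.nil)) (PF.cons PF.nil (PF.cons PF.nil PF.nil)))))))) (PF.cons (PF.cons (PF.cons (PF.cons (PF.leaf (nat_lit 4629798) (nat_lit 8739516) (nat_lit 44596109) (nat_lit 13773186) [(nat_lit 0), (nat_lit 0), (nat_lit 0), (nat_lit 8739516)]) (PF.cons (PF.leaf (nat_lit 4909816) (nat_lit 515801) (nat_lit 44145203) (nat_lit 13719273) [(nat_lit 515801), (nat_lit 0), (nat_lit 0), (nat_lit 8728534)]) (PF.cons (PF.leaf (nat_lit 5213611) (nat_lit 537511) (nat_lit 43660748) (nat_lit 13658886) [(nat_lit 537511),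 (nat_lit 0), (nat_lit 0), (nat_lit 8714155)]) (PF.cons (PF.leaf (nat_lit 5535912) (nat_lit 556223) (nat_lit 43151195) (nat_lit 13592679) [(nat_lit 556223), (nat_lit 0), (nat_lit 0), (nat_lit 8696268)]) (PF.cons (PF.leaf (nat_lit 5873166) (nat_lit 572521) (nat_lit 42622728) (nat_lit 13521161) [(nat_lit 572521), (nat_lit 0), (nat_lit 0), (nat_lit 8674835)]) (PF.cons (PF.leaf (nat_lit 6222594) (nat_lit 586808) (nat_lit 42080123) (nat_lit 13444763) [(nat_lit 586808), (nat_lit 0), (nat_lit 0), (nat_lit 8649884)]) (PF.cons (PF.leaf (nat_lit 6581921) (nat_lit 599374) (nat_lit 41527199) (nat_lit 13363878) [(nat_lit 599374), (nat_lit 0),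
 (nat_lit 0), (nat_lit 8621487)]) (PF.cons (PF.leaf (nat_lit 6949274) (nat_lit 610442) (nat_lit 40967088) (nat_lit 13278872) [(nat_lit 610442), (nat_lit 0), (nat_lit 0), (nat_lit 8589756)]) (PF.cons (PF.leaf (nat_lit 7323030) (nat_lit 620185) (nat_lit 40402397) (nat_lit 13190095) [(nat_lit 620185), (nat_lit 0), (nat_lit 0), (nat_lit 8554831)]) (PF.cons PF.nil PF.nil)))))))))) (PF.cons (PF.cons (PF.leaf (nat_lit 5328691) (nat_lit 1711751) (nat_lit 43124673) (nat_lit 13583995) [(nat_lit 0), (nat_lit 1711751), (nat_lit 0), (nat_lit 8688392)]) (PF.cons (PF.leaf (nat_lit 5639800) (nat_lit 557085) (nat_lit 42632065) (nat_lit 13517354) [(nat_lit 557085), (nat_lit 1733755), (nat_lit 0), (nat_lit 8668551)]) (PF.cons (PF.leaf (nat_lit 5967769) (nat_lit 573236) (nat_lit 42118310) (nat_lit 13445217) [(nat_lit 573236), (nat_lit 1753580), (nat_lit 0), (nat_lit 8645232)]) (PF.cons (PF.leaf (nat_lit 6309005) (nat_lit 587312) (nat_lit 41589031) (nat_lit 13368136) [(nat_lit 587312), (nat_lit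 1771216), (nat_lit 0), (nat_lit 8618492)]) (PF.cons (PF.leaf (nat_lit 6660910) (nat_lit 599638) (nat_lit 41048532) (nat_lit 13286575) [(nat_lit 599638), (nat_lit 1786725), (nat_lit 0), (nat_lit 8588424)])
 (PF.cons (PF.leaf (nat_lit 7021398) (nat_lit 610456) (nat_lit 40500228) (nat_lit 13200945) [(nat_lit 610456), (nat_lit 1800201), (nat_lit 0), (nat_lit 8555152)]) (PF.cons (PF.leaf (nat_lit 7388734) (nat_lit 619952) (nat_lit 39946901) (nat_lit 13111623) [(nat_lit 619952), (nat_lit 1811753), (nat_lit 0), (nat_lit 8518819)]) (PF.cons (PF.leaf (nat_lit 7761446) (nat_lit 628273) (nat_lit 39390851) (nat_lit 13018963) [(nat_lit 628273), (nat_lit 1821492), (nat_lit 0), (nat_lit 8479588)]) (PF.cons PF.nil PF.nil))))))))) (PF.cons (PF.cons (PF.leaf (nat_lit 6065194) (nat_lit 1758465) (nat_lit 41611853) (nat_lit 13366628) [(nat_lit 0), (nat_lit 1758465), (nat_lit 0), (nat_lit 8613401)]) (PF.cons (PF.leaf (nat_lit 6396931) (nat_lit 587214) (nat_lit 41097896) (nat_lit 13289335)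 [(nat_lit 587214), (nat_lit 1774601), (nat_lit 0), (nat_lit 8585162)]) (PF.cons (PF.leaf (nat_lit 6740706) (nat_lit 599409) (nat_lit 40571217) (nat_lit 13207475) [(nat_lit 599409), (nat_lit 1788814), (nat_lit 0), (nat_lit 8553672)]) (PF.cons (PF.leaf (nat_lit 7093843) (nat_lit 610058) (nat_lit 40035727) (nat_lit 13121532) [(nat_lit 610058), (nat_lit 1801151), (nat_lit 0), (nat_lit 8519074)]) (PF.cons (PF.leaf (nat_lit
 7454411) (nat_lit 619367) (nat_lit 39494500) (nat_lit 13031928) [(nat_lit 619367), (nat_lit 1811695), (nat_lit 0), (nat_lit 8481524)]) (PF.cons (PF.leaf (nat_lit 7820805) (nat_lit 627497) (nat_lit 38950022) (nat_lit 12939044) [(nat_lit 627497), (nat_lit 1820535), (nat_lit 0), (nat_lit 8441189)]) (PF.cons PF.nil PF.nil))))))) (PF.cons (PF.cons (PF.leaf (nat_lit 6822373) (nat_lit 1790240) (nat_lit 40094385) (nat_lit 13126482) [(nat_lit 0), (nat_lit 1790240), (nat_lit 0), (nat_lit 8517223)]) (PF.cons (PF.leaf (nat_lit 7167235) (nat_lit 609222) (nat_lit 39572967)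 (nat_lit 13040584) [(nat_lit 609222), (nat_lit 1801501), (nat_lit 0), (nat_lit 8481533)]) (PF.cons (PF.leaf (nat_lit 7520554) (nat_lit 618416) (nat_lit 39044736) (nat_lit 12950989) [(nat_lit 618416), (nat_lit 1811095), (nat_lit 0), (nat_lit 8442966)]) (PF.cons (PF.leaf (nat_lit 7880292) (nat_lit 626409) (nat_lit 38512478) (nat_lit 12858126) [(nat_lit 626409), (nat_lit 1819091), (nat_lit 0), (nat_lit 8401704)]) (PF.cons (PF.leaf (nat_lit 8244961) (nat_lit 633342) (nat_lit 37978422) (nat_lit 12762372) [(nat_lit 633342), (nat_lit 1825573), (nat_lit 0), (nat_lit 8357929)]) PF.nil))))) (PF.cons (PF.cons (PF.leaf (nat_lit 7587986)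
 (nat_lit 1809981) (nat_lit 38596989) (nat_lit 12868748) [(nat_lit 0), (nat_lit 1809981), (nat_lit 0), (nat_lit 8403147)]) (PF.cons (PF.leaf (nat_lit 7940382) (nat_lit 624995) (nat_lit 38077753) (nat_lit 12776178) [(nat_lit 624995), (nat_lit 1817184), (nat_lit 0), (nat_lit 8361145)]) (PF.cons (PF.leaf (nat_lit 8298527) (nat_lit 631832) (nat_lit 37555902) (nat_lit 12680709) [(nat_lit 631832), (nat_lit 1822959), (nat_lit 0), (nat_lit 8316698)]) (PF.cons PF.nil PF.nil)))) (PF.cons (PF.cons (PF.leaf (nat_lit 8353021) (nat_lit 1819948) (nat_lit 37136308) (nat_lit 12598203) [(nat_lit 0), (nat_lit 1819948), (nat_lit 0), (nat_lit 8274556)]) (PF.cons (PF.leaf (nat_lit 8708728) (nat_lit 635844) (nat_lit 36625937) (nat_lit 12500721) [(nat_lit 635844), (nat_lit 1823779), (nat_lit 0), (nat_lit 8227410)]) PF.nil)) (PF.cons PF.nil (PF.cons PF.nil PF.nil)))))))) (PF.cons (PF.cons (PF.cons (PF.leaf (nat_lit 5840560) (nat_lit 3823539) (nat_lit 41391947) (nat_lit 13315094) [(nat_lit 0),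 (nat_lit 0), (nat_lit 3823539), (nat_lit 8578232)]) (PF.cons (PF.leaf (nat_lit 6151353) (nat_lit 567159) (nat_lit 40914267) (nat_lit 13242909) [(nat_lit 567159), (nat_lit 0), (nat_lit 3832413), (nat_lit 8552062)])
 (PF.cons (PF.leaf (nat_lit 6477702) (nat_lit 581692) (nat_lit 40417979) (nat_lit 13165563) [(nat_lit 581692), (nat_lit 0), (nat_lit 3839303), (nat_lit 8522581)]) (PF.cons (PF.leaf (nat_lit 6816064) (nat_lit 594221) (nat_lit 39908413) (nat_lit 13083694) [(nat_lit 594221), (nat_lit 0), (nat_lit 3844096), (nat_lit 8489945)]) (PF.cons (PF.leaf (nat_lit 7163955) (nat_lit 605082) (nat_lit 39389583) (nat_lit 12997819) [(nat_lit 605082), (nat_lit 0), (nat_lit 3846764), (nat_lit 8454317)]) (PF.cons (PF.leaf (nat_lit 7519408) (nat_lit 614521) (nat_lit 38864633) (nat_lit 12908382) [(nat_lit 614521), (nat_lit 0), (nat_lit 3847329), (nat_lit 8415862)]) (PF.cons (PF.leaf (nat_lit 7880782) (nat_lit 622723) (nat_lit 38336092) (nat_lit 12815775) [(nat_lit 622723), (nat_lit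 0), (nat_lit 3845850), (nat_lit 8374752)]) (PF.cons PF.nil (PF.cons PF.nil PF.nil))))))))) (PF.cons (PF.cons (PF.leaf (nat_lit 6567151) (nat_lit 1767175) (nat_lit 39936400) (nat_lit 13083701) [(nat_lit 0), (nat_lit 1767175), (nat_lit 3835531), (nat_lit 8486002)]) (PF.cons (PF.leaf (nat_lit 6896023) (nat_lit 593162) (nat_lit 39442359) (nat_lit 13002203) [(nat_lit 593162), (nat_lit 1779926), (nat_lit 3838736), (nat_lit 8452424)])
 (PF.cons (PF.leaf (nat_lit 7235835) (nat_lit 603995) (nat_lit 38937460) (nat_lit 12916566) [(nat_lit 603995), (nat_lit 1790928), (nat_lit 3839983), (nat_lit 8415883)]) (PF.cons (PF.leaf (nat_lit 7584026) (nat_lit 613354) (nat_lit 38425345) (nat_lit 12827311) [(nat_lit 613354), (nat_lit 1800245), (nat_lit 3839272), (nat_lit 8376574)]) (PF.cons (PF.leaf (nat_lit 7938765) (nat_lit 621450) (nat_lit 37908842) (nat_lit 12734878) [(nat_lit 621450), (nat_lit 1807962), (nat_lit 3836646), (nat_lit 8334681)]) (PF.cons (PF.leaf (nat_lit 8298542) (nat_lit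 628442) (nat_lit 37390209) (nat_lit 12639655) [(nat_lit 628442), (nat_lit 1814170), (nat_lit 3832173), (nat_lit 8290391)]) (PF.cons PF.nil PF.nil))))))) (PF.cons (PF.cons (PF.leaf (nat_lit 7309822) (nat_lit 1790283) (nat_lit 38486143) (nat_lit 12833768) [(nat_lit 0), (nat_lit 1790283), (nat_lit 3832275), (nat_lit 8376057)]) (PF.cons (PF.leaf (nat_lit 7649845) (nat_lit 611796) (nat_lit 37987986) (nat_lit 12745026) [(nat_lit 611796), (nat_lit 1798751), (nat_lit 3830392), (nat_lit 8336107)]) (PF.cons (PF.leaf (nat_lit 7997469) (nat_lit 619852) (nat_lit 37484310) (nat_lit 12653033) [(nat_lit 619852), (nat_lit 1805718), (nat_lit 3826713), (nat_lit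
 8293613)]) (PF.cons (PF.leaf (nat_lit 8350750) (nat_lit 626774) (nat_lit 36977672) (nat_lit 12558225) [(nat_lit 626774), (nat_lit 1811260), (nat_lit 3821293), (nat_lit 8248777)]) (PF.cons PF.nil PF.nil))))) (PF.cons (PF.cons (PF.leaf (nat_lit 8057681) (nat_lit 1803056) (nat_lit 37061877) (nat_lit 12570165) [(nat_lit 0), (nat_lit 1803056), (nat_lit 3816070), (nat_lit 8251530)]) (PF.cons (PF.leaf (nat_lit 8403786) (nat_lit 624815) (nat_lit 36567947) (nat_lit 12476020) [(nat_lit 624815), (nat_lit 1807974), (nat_lit 3809788), (nat_lit 8206316)]) (PF.cons (PF.leaf (nat_lit 8754978) (nat_lit 630706) (nat_lit 36072233) (nat_lit 12379396) [(nat_lit 630706), (nat_lit 1811618), (nat_lit 3801926), (nat_lit 8158989)]) (PF.cons PF.nil PF.nil)))) (PF.cons (PF.cons (PF.leaf (nat_lit 8802821) (nat_lit 1807453) (nat_lit 35677219) (nat_lit 12297188) [(nat_lit 0), (nat_lit 1807453), (nat_lit 3789113), (nat_lit 8115475)]) (PF.cons PF.nil PF.nil)) (PF.cons PF.nil PF.nil)))))) (PF.cons (PF.cons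 (PF.cons (PF.leaf (nat_lit 7049339) (nat_lit 3809309) (nat_lit 38349275) (nat_lit 12794176) [(nat_lit 0), (nat_lit 0), (nat_lit 3809309), (nat_lit 8346741)]) (PF.cons (PF.leaf (nat_lit 7374497) (nat_lit 596570)
 (nat_lit 37876193) (nat_lit 12709875) [(nat_lit 596570), (nat_lit 0), (nat_lit 3808551), (nat_lit 8309069)]) (PF.cons (PF.leaf (nat_lit 7709689) (nat_lit 606222) (nat_lit 37393777) (nat_lit 12621831) [(nat_lit 606222), (nat_lit 0), (nat_lit 3806026), (nat_lit 8268705)]) (PF.cons (PF.leaf (nat_lit 8052415) (nat_lit 614469) (nat_lit 36905414) (nat_lit 12530586) [(nat_lit 614469), (nat_lit 0), (nat_lit 3801763), (nat_lit 8225877)]) (PF.cons (PF.leaf (nat_lit 8400932) (nat_lit 621521) (nat_lit 36413706) (nat_lit 12436588) [(nat_lit 621521), (nat_lit 0), (nat_lit 3795819), (nat_lit 8180791)]) (PF.cons PF.nil (PF.cons PF.nil PF.nil))))))) (PF.cons (PF.cons (PF.leaf (nat_lit 7776580) (nat_lit 1784777) (nat_lit 36967500) (nat_lit 12538348) [(nat_lit 0), (nat_lit 1784777),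 (nat_lit 3795818), (nat_lit 8226549)]) (PF.cons (PF.leaf (nat_lit 8111281) (nat_lit 612337) (nat_lit 36492783) (nat_lit 12447983) [(nat_lit 612337), (nat_lit 1790920), (nat_lit 3790671), (nat_lit 8183444)]) (PF.cons (PF.leaf (nat_lit 8452856) (nat_lit 619411) (nat_lit 36013564) (nat_lit 12354759) [(nat_lit 619411), (nat_lit 1795708), (nat_lit 3783934), (nat_lit 8138089)]) (PF.cons (PF.leaf (nat_lit 8799445) (nat_lit
 625415) (nat_lit 35532198) (nat_lit 12259112) [(nat_lit 625415), (nat_lit 1799218), (nat_lit 3775670), (nat_lit 8090697)]) (PF.cons PF.nil PF.nil))))) (PF.cons (PF.cons (PF.leaf (nat_lit 8506476) (nat_lit 1791829) (nat_lit 35615509) (nat_lit 12272128) [(nat_lit 0), (nat_lit 1791829), (nat_lit 3771472), (nat_lit 8094569)]) (PF.cons (PF.leaf (nat_lit 8846076) (nat_lit 623026) (nat_lit 35146415) (nat_lit 12177427) [(nat_lit 623026), (nat_lit 1794856), (nat_lit 3762571), (nat_lit 8047088)]) (PF.cons PF.nil (PF.cons PF.nil PF.nil)))) (PF.cons (PF.cons (PF.leaf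 (nat_lit 9232030) (nat_lit 1791680) (nat_lit 34304512) (nat_lit 11999345) [(nat_lit 0), (nat_lit 1791680), (nat_lit 3738188), (nat_lit 7953536)]) (PF.cons PF.nil PF.nil)) (PF.cons PF.nil PF.nil))))) (PF.cons (PF.cons (PF.cons (PF.leaf (nat_lit 8223616) (nat_lit 3752798) (nat_lit 35535387) (nat_lit 12243360) [(nat_lit 0), (nat_lit 0), (nat_lit 3752798), (nat_lit 8071671)]) (PF.cons (PF.leaf (nat_lit 8552659) (nat_lit 611232) (nat_lit 35083813) (nat_lit 12152345) [(nat_lit 611232), (nat_lit 0), (nat_lit 3745037), (nat_lit 8026309)]) (PF.cons (PF.leaf (nat_lit 8887974) (nat_lit 617457) (nat_lit 34628543) (nat_lit 12058815) [(nat_lit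
 617457), (nat_lit 0), (nat_lit 3735861), (nat_lit 7978955)]) (PF.cons PF.nil PF.nil)))) (PF.cons (PF.cons (PF.leaf (nat_lit 8935587) (nat_lit 1777231) (nat_lit 34253723) (nat_lit 11977075) [(nat_lit 0), (nat_lit 1777231), (nat_lit 3722044), (nat_lit 7934647)]) (PF.cons (PF.leaf (nat_lit 9268581) (nat_lit 619945) (nat_lit 33808687) (nat_lit 11882617) [(nat_lit 619945), (nat_lit 1778689), (nat_lit 3711071), (nat_lit 7885658)]) PF.nil)) (PF.cons PF.nil PF.nil))) (PF.cons (PF.cons (PF.cons (PF.leaf (nat_lit 9346243) (nat_lit 3669105) (nat_lit 32971948) (nat_lit 11686825) [(nat_lit 0), (nat_lit 0), (nat_lit 3669105), (nat_lit 7773614)]) (PF.cons PF.nil PF.nil)) (PF.cons PF.nil PF.nil)) (PF.cons PF.nil PF.nil)))))) (PF.cons (PF.cons (PF.cons (PF.cons (PF.leaf (nat_lit 6505882) (nat_lit 8238532) (nat_lit 37973170) (nat_lit 12658578) [(nat_lit 0), (nat_lit 0), (nat_lit 0), (nat_lit 8238532)]) (PF.cons (PF.leaf (nat_lit 6805504) (nat_lit 559900) (nat_lit 37550312) (nat_lit 12584447)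 [(nat_lit 559900), (nat_lit 0), (nat_lit 0), (nat_lit 8207076)]) (PF.cons (PF.leaf (nat_lit 7119362) (nat_lit 573005) (nat_lit 37111690) (nat_lit 12505760) [(nat_lit 573005), (nat_lit 0), (nat_lit 0), (nat_lit
 8172675)]) (PF.cons (PF.leaf (nat_lit 7444066) (nat_lit 584153) (nat_lit 36661977) (nat_lit 12423217) [(nat_lit 584153), (nat_lit 0), (nat_lit 0), (nat_lit 8135579)]) (PF.cons (PF.leaf (nat_lit 7777254) (nat_lit 593695) (nat_lit 36204659) (nat_lit 12337361) [(nat_lit 593695), (nat_lit 0), (nat_lit 0), (nat_lit 8096004)]) (PF.cons (PF.leaf (nat_lit 8117090) (nat_lit 601884) (nat_lit 35742440) (nat_lit 12248645) [(nat_lit 601884), (nat_lit 0), (nat_lit 0), (nat_lit 8054151)]) (PF.cons (PF.leaf (nat_lit 8462076) (nat_lit 608913) (nat_lit 35277471) (nat_lit 12157454) [(nat_lit 608913), (nat_lit 0), (nat_lit 0), (nat_lit 8010203)]) (PF.cons PF.nil (PF.cons PF.nil PF.nil))))))))) (PF.cons (PF.cons (PF.leaf (nat_lit 7197933) (nat_lit 1728761) (nat_lit 36689951) (nat_lit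 12424426) [(nat_lit 0), (nat_lit 1728761), (nat_lit 0), (nat_lit 8132837)]) (PF.cons (PF.leaf (nat_lit 7513439) (nat_lit 582295) (nat_lit 36254249) (nat_lit 12342867) [(nat_lit 582295), (nat_lit 1738518), (nat_lit 0), (nat_lit 8095441)]) (PF.cons (PF.leaf (nat_lit 7838870) (nat_lit 591890) (nat_lit 35809451) (nat_lit 12257815) [(nat_lit 591890), (nat_lit 1746673), (nat_lit 0), (nat_lit 8055545)]) (PF.cons (PF.leaf
 (nat_lit 8171798) (nat_lit 600076) (nat_lit 35358706) (nat_lit 12169801) [(nat_lit 600076), (nat_lit 1753315), (nat_lit 0), (nat_lit 8013378)]) (PF.cons (PF.leaf (nat_lit 8510511) (nat_lit 607068) (nat_lit 34904444) (nat_lit 12079260) [(nat_lit 607068), (nat_lit 1758540), (nat_lit 0), (nat_lit 7969146)]) (PF.cons PF.nil (PF.cons PF.nil PF.nil))))))) (PF.cons (PF.cons (PF.leaf (nat_lit 7902846) (nat_lit 1744240) (nat_lit 35414991) (nat_lit 12177175) [(nat_lit 0), (nat_lit 1744240), (nat_lit 0), (nat_lit 8014082)]) (PF.cons (PF.leaf (nat_lit 8227965) (nat_lit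 597929) (nat_lit 34976664) (nat_lit 12090145) [(nat_lit 597929), (nat_lit 1750251), (nat_lit 0), (nat_lit 7971785)]) (PF.cons (PF.leaf (nat_lit 8559952) (nat_lit 604946) (nat_lit 34533760) (nat_lit 12000473) [(nat_lit 604946), (nat_lit 1754924), (nat_lit 0), (nat_lit 7927417)]) (PF.cons (PF.leaf (nat_lit 8896973) (nat_lit 610898) (nat_lit 34088474) (nat_lit 11908578) [(nat_lit 610898), (nat_lit 1758344), (nat_lit 0), (nat_lit 7881187)]) (PF.cons PF.nil PF.nil))))) (PF.cons (PF.cons (PF.leaf (nat_lit 8611172) (nat_lit 1750995) (nat_lit 34164856) (nat_lit 11921005) [(nat_lit 0), (nat_lit 1750995), (nat_lit 0), (nat_lit 7884981)])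
 (PF.cons (PF.leaf (nat_lit 8941415) (nat_lit 608518) (nat_lit 33730741) (nat_lit 11830121) [(nat_lit 608518), (nat_lit 1753964), (nat_lit 0), (nat_lit 7838769)]) (PF.cons PF.nil (PF.cons PF.nil PF.nil)))) (PF.cons (PF.cons (PF.leaf (nat_lit 9316161) (nat_lit 1750798) (nat_lit 32950201) (nat_lit 11659394) [(nat_lit 0), (nat_lit 1750798), (nat_lit 0), (nat_lit 7748010)]) (PF.cons PF.nil PF.nil)) (PF.cons PF.nil PF.nil)))))) (PF.cons (PF.cons (PF.cons (PF.leaf (nat_lit 7644131) (nat_lit 3687426) (nat_lit 35303909) (nat_lit 12142169) [(nat_lit 0), (nat_lit 0), (nat_lit 3687426), (nat_lit 7987653)]) (PF.cons (PF.leaf (nat_lit 7955729) (nat_lit 583485) (nat_lit 34887115) (nat_lit 12059473) [(nat_lit 583485), (nat_lit 0), (nat_lit 3683272), (nat_lit 7947733)]) (PF.cons (PF.leaf (nat_lit 8276496) (nat_lit 592079) (nat_lit 34462394) (nat_lit 11973605) [(nat_lit 592079), (nat_lit 0), (nat_lit 3677589), (nat_lit 7905532)]) (PF.cons (PF.leaf (nat_lit 8604071) (nat_lit 599334) (nat_lit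 34032677) (nat_lit 11885101) [(nat_lit 599334), (nat_lit 0), (nat_lit 3670430), (nat_lit 7861300)]) (PF.cons (PF.leaf (nat_lit 8936819) (nat_lit 605461) (nat_lit 33600203) (nat_lit 11794391) [(nat_lit 605461),
 (nat_lit 0), (nat_lit 3661868), (nat_lit 7815250)]) PF.nil))))) (PF.cons (PF.cons (PF.leaf (nat_lit 8334415) (nat_lit 1734129) (nat_lit 34089748) (nat_lit 11893495) [(nat_lit 0), (nat_lit 1734129), (nat_lit 3665509), (nat_lit 7862964)]) (PF.cons (PF.leaf (nat_lit 8654356) (nat_lit 596770) (nat_lit 33672058) (nat_lit 11806203) [(nat_lit 596770), (nat_lit 1738315), (nat_lit 3657772), (nat_lit 7818846)]) (PF.cons (PF.leaf (nat_lit 8980569) (nat_lit 602971) (nat_lit 33250549) (nat_lit 11716570) [(nat_lit 602971), (nat_lit 1741291), (nat_lit 3648692), (nat_lit 7772883)]) (PF.cons PF.nil PF.nil)))) (PF.cons (PF.cons (PF.leaf (nat_lit 9026228) (nat_lit 1736508) (nat_lit 32902607) (nat_lit 11638209) [(nat_lit 0), (nat_lit 1736508), (nat_lit 3635095), (nat_lit 7729941)])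 (PF.cons (PF.leaf (nat_lit 9350363) (nat_lit 605480) (nat_lit 32490022) (nat_lit 11547828) [(nat_lit 605480), (nat_lit 1738011), (nat_lit 3624347), (nat_lit 7682555)]) PF.nil)) (PF.cons PF.nil (PF.cons PF.nil PF.nil))))) (PF.cons (PF.cons (PF.cons (PF.leaf (nat_lit 8748819) (nat_lit 3618306) (nat_lit 32838942) (nat_lit 11613488) [(nat_lit 0), (nat_lit 0), (nat_lit 3618306), (nat_lit 7709884)]) (PF.cons (PF.leaf (nat_lit
 9063372) (nat_lit 594389) (nat_lit 32441364) (nat_lit 11526563) [(nat_lit 594389), (nat_lit 0), (nat_lit 3608692), (nat_lit 7664554)]) (PF.cons (PF.leaf (nat_lit 9383703) (nat_lit 599881) (nat_lit 32040575) (nat_lit 11437558) [(nat_lit 599881), (nat_lit 0), (nat_lit 3597878), (nat_lit 7617579)]) (PF.cons PF.nil PF.nil)))) (PF.cons (PF.cons (PF.leaf (nat_lit 9424295) (nat_lit 1719678) (nat_lit 31712477) (nat_lit 11360690) [(nat_lit 0), (nat_lit 1719678), (nat_lit 3583437), (nat_lit 7574545)]) (PF.cons PF.nil PF.nil)) (PF.cons PF.nil PF.nil))) (PF.cons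 (PF.cons (PF.cons (PF.leaf (nat_lit 9806417) (nat_lit 3529719) (nat_lit 30590257) (nat_lit 11089472) [(nat_lit 0), (nat_lit 0), (nat_lit 3529719), (nat_lit 7419961)]) (PF.cons PF.nil PF.nil)) (PF.cons PF.nil PF.nil)) (PF.cons PF.nil PF.nil))))) (PF.cons (PF.cons (PF.cons (PF.cons (PF.leaf (nat_lit 8183656) (nat_lit 7639000) (nat_lit 32662209) (nat_lit 11529600) [(nat_lit 0), (nat_lit 0), (nat_lit 0), (nat_lit 7639000)]) (PF.cons (PF.leaf (nat_lit 8482658) (nat_lit 568983) (nat_lit 32293685) (nat_lit 11450180) [(nat_lit 568983), (nat_lit 0), (nat_lit 0), (nat_lit 7598654)]) (PF.cons (PF.leaf (nat_lit 8790158) (nat_lit 576737) (nat_lit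
 31918290) (nat_lit 11368024) [(nat_lit 576737), (nat_lit 0), (nat_lit 0), (nat_lit 7556341)]) (PF.cons (PF.leaf (nat_lit 9103886) (nat_lit 583212) (nat_lit 31538577) (nat_lit 11283645) [(nat_lit 583212), (nat_lit 0), (nat_lit 0), (nat_lit 7512317)]) (PF.cons PF.nil PF.nil))))) (PF.cons (PF.cons (PF.leaf (nat_lit 8840840) (nat_lit 1681488) (nat_lit 31591009) (nat_lit 11292336) [(nat_lit 0), (nat_lit 1681488), (nat_lit 0), (nat_lit 7514659)]) (PF.cons (PF.leaf (nat_lit 9147304) (nat_lit 580387) (nat_lit 31221860) (nat_lit 11209326) [(nat_lit 580387), (nat_lit 1684288), (nat_lit 0), (nat_lit 7470983)]) (PF.cons (PF.leaf (nat_lit 9459571) (nat_lit 585909) (nat_lit 30849368) (nat_lit 11124349) [(nat_lit 585909), (nat_lit 1685996), (nat_lit 0), (nat_lit 7425760)]) (PF.cons PF.nil PF.nil)))) (PF.cons (PF.cons (PF.leaf (nat_lit 9498888) (nat_lit 1680705) (nat_lit 30543615) (nat_lit 11050867) [(nat_lit 0), (nat_lit 1680705), (nat_lit 0), (nat_lit 7384306)]) (PF.cons PF.nil PF.nil))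 PF.nil))) (PF.cons (PF.cons (PF.cons (PF.leaf (nat_lit 9227658) (nat_lit 3485922) (nat_lit 30492810) (nat_lit 11029688) [(nat_lit 0), (nat_lit 0), (nat_lit 3485922), (nat_lit 7366797)]) (PF.cons (PF.leaf
 (nat_lit 9529039) (nat_lit 577206) (nat_lit 30141025) (nat_lit 10947607) [(nat_lit 577206), (nat_lit 0), (nat_lit 3475277), (nat_lit 7322565)]) (PF.cons PF.nil PF.nil))) (PF.cons (PF.cons (PF.leaf (nat_lit 9870797) (nat_lit 1662751) (nat_lit 29497542) (nat_lit 10792048) [(nat_lit 0), (nat_lit 1662751), (nat_lit 3449061), (nat_lit 7235803)]) PF.nil) PF.nil)) (PF.cons PF.nil PF.nil))) (PF.cons (PF.cons (PF.cons (PF.cons (PF.leaf (nat_lit 9668533) (nat_lit 7044738) (nat_lit 28438504) (nat_lit 10491354) [(nat_lit 0), (nat_lit 0), (nat_lit 0), (nat_lit 7044738)]) (PF.cons (PF.leaf (nat_lit 9957900) (nat_lit 560164) (nat_lit 28125611) (nat_lit 10414334) [(nat_lit 560164), (nat_lit 0), (nat_lit 0), (nat_lit 7002175)]) PF.nil)) (PF.cons PF.nil PF.nil)) (PF.cons PF.nil PF.nil))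 (PF.cons PF.nil (PF.cons PF.nil (PF.cons PF.nil PF.nil))))))))

def p13_16_2_0 : pfC (piC [(nat_lit 35755509), (nat_lit 23968959), (nat_lit 17897616), (nat_lit 12073119)] (nat_lit 7256705)) p13_16_2 (nat_lit 4) (nat_lit 0) (nat_lit 1) = true := by decide +kernel
def p13_16_2_1 : pfC (piC [(nat_lit 35755509), (nat_lit 23968959), (nat_lit 17897616), (nat_lit 12073119)] (nat_lit 7256705)) p13_16_2 (nat_lit 4) (nat_lit 1) (nat_lit 2) = true := by decide +kernel
def p13_16_2_2 : pfC (piC [(nat_lit 35755509), (nat_lit 23968959), (nat_lit 17897616), (nat_lit 12073119)] (nat_lit 7256705)) p13_16_2 (nat_lit 4) (nat_lit 2) (nat_lit 3) = true := by decide +kernel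
def p13_16_2_3 : pfC (piC [(nat_lit 35755509), (nat_lit 23968959), (nat_lit 17897616), (nat_lit 12073119)] (nat_lit 7256705)) p13_16_2 (nat_lit 4) (nat_lit 3) (nat_lit 4) = true := by decide +kernel
def p13_16_2_4 : pfC (piC [(nat_lit 35755509), (nat_lit 23968959), (nat_lit 17897616), (nat_lit 12073119)] (nat_lit 7256705)) p13_16_2 (nat_lit 4) (nat_lit 4) (nat_lit 5) = true := by decide +kernel
def p13_16_2_5 : pfC (piC [(nat_lit 35755509), (nat_lit 23968959), (nat_lit 17897616), (nat_lit 12073119)] (nat_lit 7256705)) p13_16_2 (nat_lit 4) (nat_lit 5) (nat_lit 6) = true := by decide +kernel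
def p13_16_2_6 : pfC (piC [(nat_lit 35755509), (nat_lit 23968959), (nat_lit 17897616), (nat_lit 12073119)] (nat_lit 7256705)) p13_16_2 (nat_lit 4) (nat_lit 6) (nat_lit 7) = true := by decide +kernel
def p13_16_2_7 : pfC (piC [(nat_lit 35755509), (nat_lit 23968959), (nat_lit 17897616), (nat_lit 12073119)] (nat_lit 7256705)) p13_16_2 (nat_lit 4) (nat_lit 7) (nat_lit 8) = true := by decide +kernel
def p13_16_2_8 : pfC (piC [(nat_lit 35755509), (nat_lit 23968959), (nat_lit 17897616), (nat_lit 12073119)] (nat_lit 7256705)) p13_16_2 (nat_lit 4) (nat_lit 8) (nat_lit 9) = true := by decide +kernel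
def p13_16_2_9 : pfC (piC [(nat_lit 35755509), (nat_lit 23968959), (nat_lit 17897616), (nat_lit 12073119)] (nat_lit 7256705)) p13_16_2 (nat_lit 4) (nat_lit 9) (nat_lit 10) = true := by decide +kernel
def p13_16_2_10 : pfC (piC [(nat_lit 35755509), (nat_lit 23968959), (nat_lit 17897616), (nat_lit 12073119)] (nat_lit 7256705)) p13_16_2 (nat_lit 4) (nat_lit 10) (nat_lit 11) = true := by decide +kernel
def p13_16_2_11 : pfC (piC [(nat_lit 35755509), (nat_lit 23968959), (nat_lit 17897616), (nat_lit 12073119)] (nat_lit 7256705)) p13_16_2 (nat_lit 4) (nat_lit 11) (nat_lit 12) = true := by decide +kernel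
def p13_16_2_12 : pfC (piC [(nat_lit 35755509), (nat_lit 23968959), (nat_lit 17897616), (nat_lit 12073119)] (nat_lit 7256705)) p13_16_2 (nat_lit 4) (nat_lit 12) (nat_lit 13) = true := by decide +kernel
def p13_16_2_13 : pfC (piC [(nat_lit 35755509), (nat_lit 23968959), (nat_lit 17897616), (nat_lit 12073119)] (nat_lit 7256705)) p13_16_2 (nat_lit 4) (nat_lit 13) (nat_lit 14) = true := by decide +kernel
def p13_16_2_14 : pfC (piC [(nat_lit 35755509), (nat_lit 23968959), (nat_lit 17897616), (nat_lit 12073119)] (nat_lit 7256705)) p13_16_2 (nat_lit 4) (nat_lit 14) (nat_lit 15) = true := by decide +kernel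
def p13_16_2_15 : pfC (piC [(nat_lit 35755509), (nat_lit 23968959), (nat_lit 17897616), (nat_lit 12073119)] (nat_lit 7256705)) p13_16_2 (nat_lit 4) (nat_lit 15) (nat_lit 16) = true := by decide +kernel
def p13_16_2_16 : pfC (piC [(nat_lit 35755509), (nat_lit 23968959), (nat_lit 17897616), (nat_lit 12073119)] (nat_lit 7256705)) p13_16_2 (nat_lit 4) (nat_lit 16) (nat_lit 17) = true := by decide +kernel
def p13_16_2_17 : pfC (piC [(nat_lit 35755509), (nat_lit 23968959), (nat_lit 17897616), (nat_lit 12073119)] (nat_lit 7256705)) p13_16_2 (nat_lit 4) (nat_lit 17) (nat_lit 18) = true := by decide +kernel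
def p13_16_2_18 : pfC (piC [(nat_lit 35755509), (nat_lit 23968959), (nat_lit 17897616), (nat_lit 12073119)] (nat_lit 7256705)) p13_16_2 (nat_lit 4) (nat_lit 18) (nat_lit 19) = true := by decide +kernel
def p13_16_2_19 : pfC (piC [(nat_lit 35755509), (nat_lit 23968959), (nat_lit 17897616), (nat_lit 12073119)] (nat_lit 7256705)) p13_16_2 (nat_lit 4) (nat_lit 19) (nat_lit 20) = true := by decide +kernel
def p13_16_2_20 : pfC (piC [(nat_lit 35755509), (nat_lit 23968959), (nat_lit 17897616), (nat_lit 12073119)] (nat_lit 7256705)) p13_16_2 (nat_lit 4) (nat_lit 20) (nat_lit 21) = true := by decide +kernel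
def p13_16_2_21 : pfC (piC [(nat_lit 35755509), (nat_lit 23968959), (nat_lit 17897616), (nat_lit 12073119)] (nat_lit 7256705)) p13_16_2 (nat_lit 4) (nat_lit 21) (nat_lit 22) = true := by decide +kernel
def p13_16_2_22 : pfC (piC [(nat_lit 35755509), (nat_lit 23968959), (nat_lit 17897616), (nat_lit 12073119)] (nat_lit 7256705)) p13_16_2 (nat_lit 4) (nat_lit 22) (nat_lit 23) = true := by decide +kernel
def p13_16_2_23 : pfC (piC [(nat_lit 35755509), (nat_lit 23968959), (nat_lit 17897616), (nat_lit 12073119)] (nat_lit 7256705)) p13_16_2 (nat_lit 4) (nat_lit 23) (nat_lit 24) = true := by decide +kernel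
def p13_16_2_24 : pfC (piC [(nat_lit 35755509), (nat_lit 23968959), (nat_lit 17897616), (nat_lit 12073119)] (nat_lit 7256705)) p13_16_2 (nat_lit 4) (nat_lit 24) (nat_lit 25) = true := by decide +kernel
def p13_16_2_25 : pfC (piC [(nat_lit 35755509), (nat_lit 23968959), (nat_lit 17897616), (nat_lit 12073119)] (nat_lit 7256705)) p13_16_2 (nat_lit 4) (nat_lit 25) (nat_lit 26) = true := by decide +kernel
def p13_16_2_26 : pfC (piC [(nat_lit 35755509), (nat_lit 23968959), (nat_lit 17897616), (nat_lit 12073119)] (nat_lit 7256705)) p13_16_2 (nat_lit 4) (nat_lit 26) (nat_lit 27) = true := by decide +kernel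
def p13_16_2_27 : pfC (piC [(nat_lit 35755509), (nat_lit 23968959), (nat_lit 17897616), (nat_lit 12073119)] (nat_lit 7256705)) p13_16_2 (nat_lit 4) (nat_lit 27) (nat_lit 28) = true := by decide +kernel
def p13_16_2_28 : pfC (piC [(nat_lit 35755509), (nat_lit 23968959), (nat_lit 17897616), (nat_lit 12073119)] (nat_lit 7256705)) p13_16_2 (nat_lit 4) (nat_lit 28) (nat_lit 29) = true := by decide +kernel
def p13_16_2_29 : pfC (piC [(nat_lit 35755509), (nat_lit 23968959), (nat_lit 17897616), (nat_lit 12073119)] (nat_lit 7256705)) p13_16_2 (nat_lit 4) (nat_lit 29) (nat_lit 30) = true := by decide +kernel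
def p13_16_2_30 : pfC (piC [(nat_lit 35755509), (nat_lit 23968959), (nat_lit 17897616), (nat_lit 12073119)] (nat_lit 7256705)) p13_16_2 (nat_lit 4) (nat_lit 30) (nat_lit 31) = true := by decide +kernel
def p13_16_2_31 : pfC (piC [(nat_lit 35755509), (nat_lit 23968959), (nat_lit 17897616), (nat_lit 12073119)] (nat_lit 7256705)) p13_16_2 (nat_lit 4) (nat_lit 31) (nat_lit 32) = true := by decide +kernel
def p13_16_2_32 : pfC (piC [(nat_lit 35755509), (nat_lit 23968959), (nat_lit 17897616), (nat_lit 12073119)] (nat_lit 7256705)) p13_16_2 (nat_lit 4) (nat_lit 32) (nat_lit 33) = true := by decide +kernel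
def p13_16_2_33 : pfC (piC [(nat_lit 35755509), (nat_lit 23968959), (nat_lit 17897616), (nat_lit 12073119)] (nat_lit 7256705)) p13_16_2 (nat_lit 4) (nat_lit 33) (nat_lit 34) = true := by decide +kernel
def p13_16_2_34 : pfC (piC [(nat_lit 35755509), (nat_lit 23968959), (nat_lit 17897616), (nat_lit 12073119)] (nat_lit 7256705)) p13_16_2 (nat_lit 4) (nat_lit 34) (nat_lit 35) = true := by decide +kernel
def p13_16_2_35 : pfC (piC [(nat_lit 35755509), (nat_lit 23968959), (nat_lit 17897616), (nat_lit 12073119)] (nat_lit 7256705)) p13_16_2 (nat_lit 4) (nat_lit 35) (nat_lit 36) = true := by decide +kernel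
def p13_16_2_36 : pfC (piC [(nat_lit 35755509), (nat_lit 23968959), (nat_lit 17897616), (nat_lit 12073119)] (nat_lit 7256705)) p13_16_2 (nat_lit 4) (nat_lit 36) (nat_lit 37) = true := by decide +kernel
def p13_16_2_37 : pfC (piC [(nat_lit 35755509), (nat_lit 23968959), (nat_lit 17897616), (nat_lit 12073119)] (nat_lit 7256705)) p13_16_2 (nat_lit 4) (nat_lit 37) (nat_lit 38) = true := by decide +kernel
def p13_16_2_38 : pfC (piC [(nat_lit 35755509), (nat_lit 23968959), (nat_lit 17897616), (nat_lit 12073119)] (nat_lit 7256705)) p13_16_2 (nat_lit 4) (nat_lit 38) (nat_lit 39) = true := by decide +kernel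
def p13_16_2_39 : pfC (piC [(nat_lit 35755509), (nat_lit 23968959), (nat_lit 17897616), (nat_lit 12073119)] (nat_lit 7256705)) p13_16_2 (nat_lit 4) (nat_lit 39) (nat_lit 40) = true := by decide +kernel
def p13_16_2_40 : pfC (piC [(nat_lit 35755509), (nat_lit 23968959), (nat_lit 17897616), (nat_lit 12073119)] (nat_lit 7256705)) p13_16_2 (nat_lit 4) (nat_lit 40) (nat_lit 41) = true := by decide +kernel
def p13_16_2_41 : pfC (piC [(nat_lit 35755509), (nat_lit 23968959), (nat_lit 17897616), (nat_lit 12073119)] (nat_lit 7256705)) p13_16_2 (nat_lit 4) (nat_lit 41) (nat_lit 42) = true := by decide +kernel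
def p13_16_2_42 : pfC (piC [(nat_lit 35755509), (nat_lit 23968959), (nat_lit 17897616), (nat_lit 12073119)] (nat_lit 7256705)) p13_16_2 (nat_lit 4) (nat_lit 42) (nat_lit 43) = true := by decide +kernel
def p13_16_2_43 : pfC (piC [(nat_lit 35755509), (nat_lit 23968959), (nat_lit 17897616), (nat_lit 12073119)] (nat_lit 7256705)) p13_16_2 (nat_lit 4) (nat_lit 43) (nat_lit 44) = true := by decide +kernel
def p13_16_2_44 : pfC (piC [(nat_lit 35755509), (nat_lit 23968959), (nat_lit 17897616), (nat_lit 12073119)] (nat_lit 7256705)) p13_16_2 (nat_lit 4) (nat_lit 44) (nat_lit 45) = true := by decide +kernel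
def p13_16_2_45 : pfC (piC [(nat_lit 35755509), (nat_lit 23968959), (nat_lit 17897616), (nat_lit 12073119)] (nat_lit 7256705)) p13_16_2 (nat_lit 4) (nat_lit 45) (nat_lit 46) = true := by decide +kernel
def p13_16_2_46 : pfC (piC [(nat_lit 35755509), (nat_lit 23968959), (nat_lit 17897616), (nat_lit 12073119)] (nat_lit 7256705)) p13_16_2 (nat_lit 4) (nat_lit 46) (nat_lit 47) = true := by decide +kernel
def p13_16_2_47 : pfC (piC [(nat_lit 35755509), (nat_lit 23968959), (nat_lit 17897616), (nat_lit 12073119)] (nat_lit 7256705)) p13_16_2 (nat_lit 4) (nat_lit 47) (nat_lit 48) = true := by decide +kernel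
def p13_16_2_48 : pfC (piC [(nat_lit 35755509), (nat_lit 23968959), (nat_lit 17897616), (nat_lit 12073119)] (nat_lit 7256705)) p13_16_2 (nat_lit 4) (nat_lit 48) (nat_lit 49) = true := by decide +kernel
def p13_16_2_49 : pfC (piC [(nat_lit 35755509), (nat_lit 23968959), (nat_lit 17897616), (nat_lit 12073119)] (nat_lit 7256705)) p13_16_2 (nat_lit 4) (nat_lit 49) (nat_lit 50) = true := by decide +kernel
def p13_16_2_50 : pfC (piC [(nat_lit 35755509), (nat_lit 23968959), (nat_lit 17897616), (nat_lit 12073119)] (nat_lit 7256705)) p13_16_2 (nat_lit 4) (nat_lit 50) (nat_lit 51) = true := by decide +kernel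
def p13_16_2_51 : pfC (piC [(nat_lit 35755509), (nat_lit 23968959), (nat_lit 17897616), (nat_lit 12073119)] (nat_lit 7256705)) p13_16_2 (nat_lit 4) (nat_lit 51) (nat_lit 52) = true := by decide +kernel
def p13_16_2_52 : pfC (piC [(nat_lit 35755509), (nat_lit 23968959), (nat_lit 17897616), (nat_lit 12073119)] (nat_lit 7256705)) p13_16_2 (nat_lit 4) (nat_lit 52) (nat_lit 53) = true := by decide +kernel
def p13_16_2_53 : pfC (piC [(nat_lit 35755509), (nat_lit 23968959), (nat_lit 17897616), (nat_lit 12073119)] (nat_lit 7256705)) p13_16_2 (nat_lit 4) (nat_lit 53) (nat_lit 54) = true := by decide +kernel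
def p13_16_2_54 : pfC (piC [(nat_lit 35755509), (nat_lit 23968959), (nat_lit 17897616), (nat_lit 12073119)] (nat_lit 7256705)) p13_16_2 (nat_lit 4) (nat_lit 54) (nat_lit 55) = true := by decide +kernel
def p13_16_2_55 : pfC (piC [(nat_lit 35755509), (nat_lit 23968959), (nat_lit 17897616), (nat_lit 12073119)] (nat_lit 7256705)) p13_16_2 (nat_lit 4) (nat_lit 55) (nat_lit 56) = true := by decide +kernel
def p13_16_2_56 : pfC (piC [(nat_lit 35755509), (nat_lit 23968959), (nat_lit 17897616), (nat_lit 12073119)] (nat_lit 7256705)) p13_16_2 (nat_lit 4) (nat_lit 56) (nat_lit 57) = true := by decide +kernel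
def p13_16_2_57 : pfC (piC [(nat_lit 35755509), (nat_lit 23968959), (nat_lit 17897616), (nat_lit 12073119)] (nat_lit 7256705)) p13_16_2 (nat_lit 4) (nat_lit 57) (nat_lit 58) = true := by decide +kernel
def p13_16_2_58 : pfC (piC [(nat_lit 35755509), (nat_lit 23968959), (nat_lit 17897616), (nat_lit 12073119)] (nat_lit 7256705)) p13_16_2 (nat_lit 4) (nat_lit 58) (nat_lit 59) = true := by decide +kernel
def p13_16_2_59 : pfC (piC [(nat_lit 35755509), (nat_lit 23968959), (nat_lit 17897616), (nat_lit 12073119)] (nat_lit 7256705)) p13_16_2 (nat_lit 4) (nat_lit 59) (nat_lit 60) = true := by decide +kernel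
def p13_16_2_60 : pfC (piC [(nat_lit 35755509), (nat_lit 23968959), (nat_lit 17897616), (nat_lit 12073119)] (nat_lit 7256705)) p13_16_2 (nat_lit 4) (nat_lit 60) (nat_lit 61) = true := by decide +kernel
def p13_16_2_61 : pfC (piC [(nat_lit 35755509), (nat_lit 23968959), (nat_lit 17897616), (nat_lit 12073119)] (nat_lit 7256705)) p13_16_2 (nat_lit 4) (nat_lit 61) (nat_lit 62) = true := by decide +kernel
def p13_16_2_62 : pfC (piC [(nat_lit 35755509), (nat_lit 23968959), (nat_lit 17897616), (nat_lit 12073119)] (nat_lit 7256705)) p13_16_2 (nat_lit 4) (nat_lit 62) (nat_lit 63) = true := by decide +kernel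
def p13_16_2_63 : pfC (piC [(nat_lit 35755509), (nat_lit 23968959), (nat_lit 17897616), (nat_lit 12073119)] (nat_lit 7256705)) p13_16_2 (nat_lit 4) (nat_lit 63) (nat_lit 64) = true := by decide +kernel
def p13_16_2_64 : pfC (piC [(nat_lit 35755509), (nat_lit 23968959), (nat_lit 17897616), (nat_lit 12073119)] (nat_lit 7256705)) p13_16_2 (nat_lit 4) (nat_lit 64) (nat_lit 65) = true := by decide +kernel
def p13_16_2_65 : pfC (piC [(nat_lit 35755509), (nat_lit 23968959), (nat_lit 17897616), (nat_lit 12073119)] (nat_lit 7256705)) p13_16_2 (nat_lit 4) (nat_lit 65) (nat_lit 66) = true := by decide +kernel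
def p13_16_2_66 : pfC (piC [(nat_lit 35755509), (nat_lit 23968959), (nat_lit 17897616), (nat_lit 12073119)] (nat_lit 7256705)) p13_16_2 (nat_lit 4) (nat_lit 66) (nat_lit 67) = true := by decide +kernel
def p13_16_2_67 : pfC (piC [(nat_lit 35755509), (nat_lit 23968959), (nat_lit 17897616), (nat_lit 12073119)] (nat_lit 7256705)) p13_16_2 (nat_lit 4) (nat_lit 67) (nat_lit 68) = true := by decide +kernel
def p13_16_2_68 : pfC (piC [(nat_lit 35755509), (nat_lit 23968959), (nat_lit 17897616), (nat_lit 12073119)] (nat_lit 7256705)) p13_16_2 (nat_lit 4) (nat_lit 68) (nat_lit 69) = true := by decide +kernel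
def p13_16_2_69 : pfC (piC [(nat_lit 35755509), (nat_lit 23968959), (nat_lit 17897616), (nat_lit 12073119)] (nat_lit 7256705)) p13_16_2 (nat_lit 4) (nat_lit 69) (nat_lit 70) = true := by decide +kernel
def p13_16_2_70 : pfC (piC [(nat_lit 35755509), (nat_lit 23968959), (nat_lit 17897616), (nat_lit 12073119)] (nat_lit 7256705)) p13_16_2 (nat_lit 4) (nat_lit 70) (nat_lit 71) = true := by decide +kernel
def p13_16_2_71 : pfC (piC [(nat_lit 35755509), (nat_lit 23968959), (nat_lit 17897616), (nat_lit 12073119)] (nat_lit 7256705)) p13_16_2 (nat_lit 4) (nat_lit 71) (nat_lit 72) = true := by decide +kernel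
def p13_16_2_72 : pfC (piC [(nat_lit 35755509), (nat_lit 23968959), (nat_lit 17897616), (nat_lit 12073119)] (nat_lit 7256705)) p13_16_2 (nat_lit 4) (nat_lit 72) (nat_lit 73) = true := by decide +kernel
def p13_16_2_73 : pfC (piC [(nat_lit 35755509), (nat_lit 23968959), (nat_lit 17897616), (nat_lit 12073119)] (nat_lit 7256705)) p13_16_2 (nat_lit 4) (nat_lit 73) (nat_lit 74) = true := by decide +kernel
def p13_16_2_74 : pfC (piC [(nat_lit 35755509), (nat_lit 23968959), (nat_lit 17897616), (nat_lit 12073119)] (nat_lit 7256705)) p13_16_2 (nat_lit 4) (nat_lit 74) (nat_lit 75) = true := by decide +kernel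
def p13_16_2_75 : pfC (piC [(nat_lit 35755509), (nat_lit 23968959), (nat_lit 17897616), (nat_lit 12073119)] (nat_lit 7256705)) p13_16_2 (nat_lit 4) (nat_lit 75) (nat_lit 76) = true := by decide +kernel
def p13_16_2_76 : pfC (piC [(nat_lit 35755509), (nat_lit 23968959), (nat_lit 17897616), (nat_lit 12073119)] (nat_lit 7256705)) p13_16_2 (nat_lit 4) (nat_lit 76) (nat_lit 77) = true := by decide +kernel
def p13_16_2_77 : pfC (piC [(nat_lit 35755509), (nat_lit 23968959), (nat_lit 17897616), (nat_lit 12073119)] (nat_lit 7256705)) p13_16_2 (nat_lit 4) (nat_lit 77) (nat_lit 78) = true := by decide +kernel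
def p13_16_2_78 : pfC (piC [(nat_lit 35755509), (nat_lit 23968959), (nat_lit 17897616), (nat_lit 12073119)] (nat_lit 7256705)) p13_16_2 (nat_lit 4) (nat_lit 78) (nat_lit 79) = true := by decide +kernel
def p13_16_2_79 : pfC (piC [(nat_lit 35755509), (nat_lit 23968959), (nat_lit 17897616), (nat_lit 12073119)] (nat_lit 7256705)) p13_16_2 (nat_lit 4) (nat_lit 79) (nat_lit 80) = true := by decide +kernel
def p13_16_2_80 : pfC (piC [(nat_lit 35755509), (nat_lit 23968959), (nat_lit 17897616), (nat_lit 12073119)] (nat_lit 7256705)) p13_16_2 (nat_lit 4) (nat_lit 80) (nat_lit 81) = true := by decide +kernel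
def p13_16_2_81 : pfC (piC [(nat_lit 35755509), (nat_lit 23968959), (nat_lit 17897616), (nat_lit 12073119)] (nat_lit 7256705)) p13_16_2 (nat_lit 4) (nat_lit 81) (nat_lit 82) = true := by decide +kernel
def p13_16_2_82 : pfC (piC [(nat_lit 35755509), (nat_lit 23968959), (nat_lit 17897616), (nat_lit 12073119)] (nat_lit 7256705)) p13_16_2 (nat_lit 4) (nat_lit 82) (nat_lit 83) = true := by decide +kernel
def p13_16_2_83 : pfC (piC [(nat_lit 35755509), (nat_lit 23968959), (nat_lit 17897616), (nat_lit 12073119)] (nat_lit 7256705)) p13_16_2 (nat_lit 4) (nat_lit 83) (nat_lit 84) = true := by decide +kernel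
def p13_16_2_84 : pfC (piC [(nat_lit 35755509), (nat_lit 23968959), (nat_lit 17897616), (nat_lit 12073119)] (nat_lit 7256705)) p13_16_2 (nat_lit 4) (nat_lit 84) (nat_lit 85) = true := by decide +kernel
def p13_16_2_85 : pfC (piC [(nat_lit 35755509), (nat_lit 23968959), (nat_lit 17897616), (nat_lit 12073119)] (nat_lit 7256705)) p13_16_2 (nat_lit 4) (nat_lit 85) (nat_lit 86) = true := by decide +kernel
def p13_16_2_86 : pfC (piC [(nat_lit 35755509), (nat_lit 23968959), (nat_lit 17897616), (nat_lit 12073119)] (nat_lit 7256705)) p13_16_2 (nat_lit 4) (nat_lit 86) (nat_lit 87) = true := by decide +kernel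
def p13_16_2_87 : pfC (piC [(nat_lit 35755509), (nat_lit 23968959), (nat_lit 17897616), (nat_lit 12073119)] (nat_lit 7256705)) p13_16_2 (nat_lit 4) (nat_lit 87) (nat_lit 88) = true := by decide +kernel
def p13_16_2_88 : pfC (piC [(nat_lit 35755509), (nat_lit 23968959), (nat_lit 17897616), (nat_lit 12073119)] (nat_lit 7256705)) p13_16_2 (nat_lit 4) (nat_lit 88) (nat_lit 89) = true := by decide +kernel
def p13_16_2_89 : pfC (piC [(nat_lit 35755509), (nat_lit 23968959), (nat_lit 17897616), (nat_lit 12073119)] (nat_lit 7256705)) p13_16_2 (nat_lit 4) (nat_lit 89) (nat_lit 90) = true := by decide +kernel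
def p13_16_2_90 : pfC (piC [(nat_lit 35755509), (nat_lit 23968959), (nat_lit 17897616), (nat_lit 12073119)] (nat_lit 7256705)) p13_16_2 (nat_lit 4) (nat_lit 90) (nat_lit 91) = true := by decide +kernel
def p13_16_2_91 : pfC (piC [(nat_lit 35755509), (nat_lit 23968959), (nat_lit 17897616), (nat_lit 12073119)] (nat_lit 7256705)) p13_16_2 (nat_lit 4) (nat_lit 91) (nat_lit 92) = true := by decide +kernel
def p13_16_2_92 : pfC (piC [(nat_lit 35755509), (nat_lit 23968959), (nat_lit 17897616), (nat_lit 12073119)] (nat_lit 7256705)) p13_16_2 (nat_lit 4) (nat_lit 92) (nat_lit 93) = true := by decide +kernel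
def p13_16_2_93 : pfC (piC [(nat_lit 35755509), (nat_lit 23968959), (nat_lit 17897616), (nat_lit 12073119)] (nat_lit 7256705)) p13_16_2 (nat_lit 4) (nat_lit 93) (nat_lit 94) = true := by decide +kernel
def p13_16_2_94 : pfC (piC [(nat_lit 35755509), (nat_lit 23968959), (nat_lit 17897616), (nat_lit 12073119)] (nat_lit 7256705)) p13_16_2 (nat_lit 4) (nat_lit 94) (nat_lit 95) = true := by decide +kernel
def p13_16_2_95 : pfC (piC [(nat_lit 35755509), (nat_lit 23968959), (nat_lit 17897616), (nat_lit 12073119)] (nat_lit 7256705)) p13_16_2 (nat_lit 4) (nat_lit 95) (nat_lit 96) = true := by decide +kernel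
def p13_16_2_96 : pfC (piC [(nat_lit 35755509), (nat_lit 23968959), (nat_lit 17897616), (nat_lit 12073119)] (nat_lit 7256705)) p13_16_2 (nat_lit 4) (nat_lit 96) (nat_lit 97) = true := by decide +kernel
def p13_16_2_97 : pfC (piC [(nat_lit 35755509), (nat_lit 23968959), (nat_lit 17897616), (nat_lit 12073119)] (nat_lit 7256705)) p13_16_2 (nat_lit 4) (nat_lit 97) (nat_lit 98) = true := by decide +kernel
def p13_16_2_98 : pfC (piC [(nat_lit 35755509), (nat_lit 23968959), (nat_lit 17897616), (nat_lit 12073119)] (nat_lit 7256705)) p13_16_2 (nat_lit 4) (nat_lit 98) (nat_lit 99) = true := by decide +kernel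
def p13_16_2_99 : pfC (piC [(nat_lit 35755509), (nat_lit 23968959), (nat_lit 17897616), (nat_lit 12073119)] (nat_lit 7256705)) p13_16_2 (nat_lit 4) (nat_lit 99) (nat_lit 100) = true := by decide +kernel
def p13_16_2_100 : pfC (piC [(nat_lit 35755509), (nat_lit 23968959), (nat_lit 17897616), (nat_lit 12073119)] (nat_lit 7256705)) p13_16_2 (nat_lit 4) (nat_lit 100) (nat_lit 101) = true := by decide +kernel
def p13_16_2_101 : pfC (piC [(nat_lit 35755509), (nat_lit 23968959), (nat_lit 17897616), (nat_lit 12073119)] (nat_lit 7256705)) p13_16_2 (nat_lit 4) (nat_lit 101) (nat_lit 102) = true := by decide +kernel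
def p13_16_2_102 : pfC (piC [(nat_lit 35755509), (nat_lit 23968959), (nat_lit 17897616), (nat_lit 12073119)] (nat_lit 7256705)) p13_16_2 (nat_lit 4) (nat_lit 102) (nat_lit 103) = true := by decide +kernel
def p13_16_2_103 : pfC (piC [(nat_lit 35755509), (nat_lit 23968959), (nat_lit 17897616), (nat_lit 12073119)] (nat_lit 7256705)) p13_16_2 (nat_lit 4) (nat_lit 103) (nat_lit 104) = true := by decide +kernel
def p13_16_2_104 : pfC (piC [(nat_lit 35755509), (nat_lit 23968959), (nat_lit 17897616), (nat_lit 12073119)] (nat_lit 7256705)) p13_16_2 (nat_lit 4) (nat_lit 104) (nat_lit 105) = true := by decide +kernel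
def p13_16_2_105 : pfC (piC [(nat_lit 35755509), (nat_lit 23968959), (nat_lit 17897616), (nat_lit 12073119)] (nat_lit 7256705)) p13_16_2 (nat_lit 4) (nat_lit 105) (nat_lit 106) = true := by decide +kernel
def p13_16_2_106 : pfC (piC [(nat_lit 35755509), (nat_lit 23968959), (nat_lit 17897616), (nat_lit 12073119)] (nat_lit 7256705)) p13_16_2 (nat_lit 4) (nat_lit 106) (nat_lit 107) = true := by decide +kernel
def p13_16_2_107 : pfC (piC [(nat_lit 35755509), (nat_lit 23968959), (nat_lit 17897616), (nat_lit 12073119)] (nat_lit 7256705)) p13_16_2 (nat_lit 4) (nat_lit 107) (nat_lit 108) = true := by decide +kernel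
def p13_16_2_108 : pfC (piC [(nat_lit 35755509), (nat_lit 23968959), (nat_lit 17897616), (nat_lit 12073119)] (nat_lit 7256705)) p13_16_2 (nat_lit 4) (nat_lit 108) (nat_lit 109) = true := by decide +kernel
def p13_16_2_109 : pfC (piC [(nat_lit 35755509), (nat_lit 23968959), (nat_lit 17897616), (nat_lit 12073119)] (nat_lit 7256705)) p13_16_2 (nat_lit 4) (nat_lit 109) (nat_lit 110) = true := by decide +kernel
def p13_16_2_110 : pfC (piC [(nat_lit 35755509), (nat_lit 23968959), (nat_lit 17897616), (nat_lit 12073119)] (nat_lit 7256705)) p13_16_2 (nat_lit 4) (nat_lit 110) (nat_lit 111) = true := by decide +kernel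
def p13_16_2_111 : pfC (piC [(nat_lit 35755509), (nat_lit 23968959), (nat_lit 17897616), (nat_lit 12073119)] (nat_lit 7256705)) p13_16_2 (nat_lit 4) (nat_lit 111) (nat_lit 112) = true := by decide +kernel
def p13_16_2_112 : pfC (piC [(nat_lit 35755509), (nat_lit 23968959), (nat_lit 17897616), (nat_lit 12073119)] (nat_lit 7256705)) p13_16_2 (nat_lit 4) (nat_lit 112) (nat_lit 113) = true := by decide +kernel
def p13_16_2_113 : pfC (piC [(nat_lit 35755509), (nat_lit 23968959), (nat_lit 17897616), (nat_lit 12073119)] (nat_lit 7256705)) p13_16_2 (nat_lit 4) (nat_lit 113) (nat_lit 114) = true := by decide +kernel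
def p13_16_2_114 : pfC (piC [(nat_lit 35755509), (nat_lit 23968959), (nat_lit 17897616), (nat_lit 12073119)] (nat_lit 7256705)) p13_16_2 (nat_lit 4) (nat_lit 114) (nat_lit 115) = true := by decide +kernel
def p13_16_2_115 : pfC (piC [(nat_lit 35755509), (nat_lit 23968959), (nat_lit 17897616), (nat_lit 12073119)] (nat_lit 7256705)) p13_16_2 (nat_lit 4) (nat_lit 115) (nat_lit 116) = true := by decide +kernel
def p13_16_2_116 : pfC (piC [(nat_lit 35755509), (nat_lit 23968959), (nat_lit 17897616), (nat_lit 12073119)] (nat_lit 7256705)) p13_16_2 (nat_lit 4) (nat_lit 116) (nat_lit 117) = true := by decide +kernel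
def p13_16_2_117 : pfC (piC [(nat_lit 35755509), (nat_lit 23968959), (nat_lit 17897616), (nat_lit 12073119)] (nat_lit 7256705)) p13_16_2 (nat_lit 4) (nat_lit 117) (nat_lit 118) = true := by decide +kernel
def p13_16_2_118 : pfC (piC [(nat_lit 35755509), (nat_lit 23968959), (nat_lit 17897616), (nat_lit 12073119)] (nat_lit 7256705)) p13_16_2 (nat_lit 4) (nat_lit 118) (nat_lit 119) = true := by decide +kernel
def p13_16_2_119 : pfC (piC [(nat_lit 35755509), (nat_lit 23968959), (nat_lit 17897616), (nat_lit 12073119)] (nat_lit 7256705)) p13_16_2 (nat_lit 4) (nat_lit 119) (nat_lit 120) = true := by decide +kernel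
def p13_16_2_120 : pfC (piC [(nat_lit 35755509), (nat_lit 23968959), (nat_lit 17897616), (nat_lit 12073119)] (nat_lit 7256705)) p13_16_2 (nat_lit 4) (nat_lit 120) (nat_lit 121) = true := by decide +kernel
def p13_16_2_121 : pfC (piC [(nat_lit 35755509), (nat_lit 23968959), (nat_lit 17897616), (nat_lit 12073119)] (nat_lit 7256705)) p13_16_2 (nat_lit 4) (nat_lit 121) (nat_lit 122) = true := by decide +kernel
def p13_16_2_122 : pfC (piC [(nat_lit 35755509), (nat_lit 23968959), (nat_lit 17897616), (nat_lit 12073119)] (nat_lit 7256705)) p13_16_2 (nat_lit 4) (nat_lit 122) (nat_lit 123) = true := by decide +kernel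
def p13_16_2_123 : pfC (piC [(nat_lit 35755509), (nat_lit 23968959), (nat_lit 17897616), (nat_lit 12073119)] (nat_lit 7256705)) p13_16_2 (nat_lit 4) (nat_lit 123) (nat_lit 124) = true := by decide +kernel
def p13_16_2_124 : pfC (piC [(nat_lit 35755509), (nat_lit 23968959), (nat_lit 17897616), (nat_lit 12073119)] (nat_lit 7256705)) p13_16_2 (nat_lit 4) (nat_lit 124) (nat_lit 125) = true := by decide +kernel
def p13_16_2_125 : pfC (piC [(nat_lit 35755509), (nat_lit 23968959), (nat_lit 17897616), (nat_lit 12073119)] (nat_lit 7256705)) p13_16_2 (nat_lit 4) (nat_lit 125) (nat_lit 126) = true := by decide +kernel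
def p13_16_2_126 : pfC (piC [(nat_lit 35755509), (nat_lit 23968959), (nat_lit 17897616), (nat_lit 12073119)] (nat_lit 7256705)) p13_16_2 (nat_lit 4) (nat_lit 126) (nat_lit 127) = true := by decide +kernel
def p13_16_2_127 : pfC (piC [(nat_lit 35755509), (nat_lit 23968959), (nat_lit 17897616), (nat_lit 12073119)] (nat_lit 7256705)) p13_16_2 (nat_lit 4) (nat_lit 127) (nat_lit 128) = true := by decide +kernel
def p13_16_2_128 : pfC (piC [(nat_lit 35755509), (nat_lit 23968959), (nat_lit 17897616), (nat_lit 12073119)] (nat_lit 7256705)) p13_16_2 (nat_lit 4) (nat_lit 128) (nat_lit 129) = true := by decide +kernel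
def p13_16_2_129 : pfC (piC [(nat_lit 35755509), (nat_lit 23968959), (nat_lit 17897616), (nat_lit 12073119)] (nat_lit 7256705)) p13_16_2 (nat_lit 4) (nat_lit 129) (nat_lit 130) = true := by decide +kernel
def p13_16_2_130 : pfC (piC [(nat_lit 35755509), (nat_lit 23968959), (nat_lit 17897616), (nat_lit 12073119)] (nat_lit 7256705)) p13_16_2 (nat_lit 4) (nat_lit 130) (nat_lit 131) = true := by decide +kernel
def p13_16_2_131 : pfC (piC [(nat_lit 35755509), (nat_lit 23968959), (nat_lit 17897616), (nat_lit 12073119)] (nat_lit 7256705)) p13_16_2 (nat_lit 4) (nat_lit 131) (nat_lit 132) = true := by decide +kernel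
def p13_16_2_132 : pfC (piC [(nat_lit 35755509), (nat_lit 23968959), (nat_lit 17897616), (nat_lit 12073119)] (nat_lit 7256705)) p13_16_2 (nat_lit 4) (nat_lit 132) (nat_lit 133) = true := by decide +kernel
def p13_16_2_133 : pfC (piC [(nat_lit 35755509), (nat_lit 23968959), (nat_lit 17897616), (nat_lit 12073119)] (nat_lit 7256705)) p13_16_2 (nat_lit 4) (nat_lit 133) (nat_lit 134) = true := by decide +kernel
def p13_16_2_134 : pfC (piC [(nat_lit 35755509), (nat_lit 23968959), (nat_lit 17897616), (nat_lit 12073119)] (nat_lit 7256705)) p13_16_2 (nat_lit 4) (nat_lit 134) (nat_lit 135) = true := by decide +kernel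
def p13_16_2_135 : pfC (piC [(nat_lit 35755509), (nat_lit 23968959), (nat_lit 17897616), (nat_lit 12073119)] (nat_lit 7256705)) p13_16_2 (nat_lit 4) (nat_lit 135) (nat_lit 136) = true := by decide +kernel
def p13_16_2_136 : pfC (piC [(nat_lit 35755509), (nat_lit 23968959), (nat_lit 17897616), (nat_lit 12073119)] (nat_lit 7256705)) p13_16_2 (nat_lit 4) (nat_lit 136) (nat_lit 137) = true := by decide +kernel
def p13_16_2_137 : pfC (piC [(nat_lit 35755509), (nat_lit 23968959), (nat_lit 17897616), (nat_lit 12073119)] (nat_lit 7256705)) p13_16_2 (nat_lit 4) (nat_lit 137) (nat_lit 138) = true := by decide +kernel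
def p13_16_2_138 : pfC (piC [(nat_lit 35755509), (nat_lit 23968959), (nat_lit 17897616), (nat_lit 12073119)] (nat_lit 7256705)) p13_16_2 (nat_lit 4) (nat_lit 138) (nat_lit 139) = true := by decide +kernel
def p13_16_2_139 : pfC (piC [(nat_lit 35755509), (nat_lit 23968959), (nat_lit 17897616), (nat_lit 12073119)] (nat_lit 7256705)) p13_16_2 (nat_lit 4) (nat_lit 139) (nat_lit 140) = true := by decide +kernel
def p13_16_2_140 : pfC (piC [(nat_lit 35755509), (nat_lit 23968959), (nat_lit 17897616), (nat_lit 12073119)] (nat_lit 7256705)) p13_16_2 (nat_lit 4) (nat_lit 140) (nat_lit 141) = true := by decide +kernel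
def p13_16_2_141 : pfC (piC [(nat_lit 35755509), (nat_lit 23968959), (nat_lit 17897616), (nat_lit 12073119)] (nat_lit 7256705)) p13_16_2 (nat_lit 4) (nat_lit 141) (nat_lit 142) = true := by decide +kernel
def p13_16_2_142 : pfC (piC [(nat_lit 35755509), (nat_lit 23968959), (nat_lit 17897616), (nat_lit 12073119)] (nat_lit 7256705)) p13_16_2 (nat_lit 4) (nat_lit 142) (nat_lit 143) = true := by decide +kernel
def p13_16_2_143 : pfC (piC [(nat_lit 35755509), (nat_lit 23968959), (nat_lit 17897616), (nat_lit 12073119)] (nat_lit 7256705)) p13_16_2 (nat_lit 4) (nat_lit 143) (nat_lit 144) = true := by decide +kernel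
def p13_16_2_144 : pfC (piC [(nat_lit 35755509), (nat_lit 23968959), (nat_lit 17897616), (nat_lit 12073119)] (nat_lit 7256705)) p13_16_2 (nat_lit 4) (nat_lit 144) (nat_lit 145) = true := by decide +kernel
def p13_16_2_145 : pfC (piC [(nat_lit 35755509), (nat_lit 23968959), (nat_lit 17897616), (nat_lit 12073119)] (nat_lit 7256705)) p13_16_2 (nat_lit 4) (nat_lit 145) (nat_lit 146) = true := by decide +kernel
def p13_16_2_146 : pfC (piC [(nat_lit 35755509), (nat_lit 23968959), (nat_lit 17897616), (nat_lit 12073119)] (nat_lit 7256705)) p13_16_2 (nat_lit 4) (nat_lit 146) (nat_lit 147) = true := by decide +kernel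
def p13_16_2_147 : pfC (piC [(nat_lit 35755509), (nat_lit 23968959), (nat_lit 17897616), (nat_lit 12073119)] (nat_lit 7256705)) p13_16_2 (nat_lit 4) (nat_lit 147) (nat_lit 148) = true := by decide +kernel
def p13_16_2_148 : pfC (piC [(nat_lit 35755509), (nat_lit 23968959), (nat_lit 17897616), (nat_lit 12073119)] (nat_lit 7256705)) p13_16_2 (nat_lit 4) (nat_lit 148) (nat_lit 149) = true := by decide +kernel
def p13_16_2_149 : pfC (piC [(nat_lit 35755509), (nat_lit 23968959), (nat_lit 17897616), (nat_lit 12073119)] (nat_lit 7256705)) p13_16_2 (nat_lit 4) (nat_lit 149) (nat_lit 150) = true := by decide +kernel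
def p13_16_2_150 : pfC (piC [(nat_lit 35755509), (nat_lit 23968959), (nat_lit 17897616), (nat_lit 12073119)] (nat_lit 7256705)) p13_16_2 (nat_lit 4) (nat_lit 150) (nat_lit 151) = true := by decide +kernel
def p13_16_2_151 : pfC (piC [(nat_lit 35755509), (nat_lit 23968959), (nat_lit 17897616), (nat_lit 12073119)] (nat_lit 7256705)) p13_16_2 (nat_lit 4) (nat_lit 151) (nat_lit 152) = true := by decide +kernel
def p13_16_2_152 : pfC (piC [(nat_lit 35755509), (nat_lit 23968959), (nat_lit 17897616), (nat_lit 12073119)] (nat_lit 7256705)) p13_16_2 (nat_lit 4) (nat_lit 152) (nat_lit 153) = true := by decide +kernel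
def p13_16_2_153 : pfC (piC [(nat_lit 35755509), (nat_lit 23968959), (nat_lit 17897616), (nat_lit 12073119)] (nat_lit 7256705)) p13_16_2 (nat_lit 4) (nat_lit 153) (nat_lit 154) = true := by decide +kernel
def p13_16_2_154 : pfC (piC [(nat_lit 35755509), (nat_lit 23968959), (nat_lit 17897616), (nat_lit 12073119)] (nat_lit 7256705)) p13_16_2 (nat_lit 4) (nat_lit 154) (nat_lit 155) = true := by decide +kernel
def p13_16_2_155 : pfC (piC [(nat_lit 35755509), (nat_lit 23968959), (nat_lit 17897616), (nat_lit 12073119)] (nat_lit 7256705)) p13_16_2 (nat_lit 4) (nat_lit 155) (nat_lit 156) = true := by decide +kernel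
def p13_16_2_156 : pfC (piC [(nat_lit 35755509), (nat_lit 23968959), (nat_lit 17897616), (nat_lit 12073119)] (nat_lit 7256705)) p13_16_2 (nat_lit 4) (nat_lit 156) (nat_lit 157) = true := by decide +kernel
def p13_16_2_157 : pfC (piC [(nat_lit 35755509), (nat_lit 23968959), (nat_lit 17897616), (nat_lit 12073119)] (nat_lit 7256705)) p13_16_2 (nat_lit 4) (nat_lit 157) (nat_lit 158) = true := by decide +kernel
def p13_16_2_158 : pfC (piC [(nat_lit 35755509), (nat_lit 23968959), (nat_lit 17897616), (nat_lit 12073119)] (nat_lit 7256705)) p13_16_2 (nat_lit 4) (nat_lit 158) (nat_lit 159) = true := by decide +kernel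
def p13_16_2_159 : pfC (piC [(nat_lit 35755509), (nat_lit 23968959), (nat_lit 17897616), (nat_lit 12073119)] (nat_lit 7256705)) p13_16_2 (nat_lit 4) (nat_lit 159) (nat_lit 160) = true := by decide +kernel
def p13_16_2_160 : pfC (piC [(nat_lit 35755509), (nat_lit 23968959), (nat_lit 17897616), (nat_lit 12073119)] (nat_lit 7256705)) p13_16_2 (nat_lit 4) (nat_lit 160) (nat_lit 161) = true := by decide +kernel
def p13_16_2_161 : pfC (piC [(nat_lit 35755509), (nat_lit 23968959), (nat_lit 17897616), (nat_lit 12073119)] (nat_lit 7256705)) p13_16_2 (nat_lit 4) (nat_lit 161) (nat_lit 162) = true := by decide +kernel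
def p13_16_2_162 : pfC (piC [(nat_lit 35755509), (nat_lit 23968959), (nat_lit 17897616), (nat_lit 12073119)] (nat_lit 7256705)) p13_16_2 (nat_lit 4) (nat_lit 162) (nat_lit 163) = true := by decide +kernel
def p13_16_2_163 : pfC (piC [(nat_lit 35755509), (nat_lit 23968959), (nat_lit 17897616), (nat_lit 12073119)] (nat_lit 7256705)) p13_16_2 (nat_lit 4) (nat_lit 163) (nat_lit 164) = true := by decide +kernel
def p13_16_2_164 : pfC (piC [(nat_lit 35755509), (nat_lit 23968959), (nat_lit 17897616), (nat_lit 12073119)] (nat_lit 7256705)) p13_16_2 (nat_lit 4) (nat_lit 164) (nat_lit 165) = true := by decide +kernel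
def p13_16_2_165 : pfC (piC [(nat_lit 35755509), (nat_lit 23968959), (nat_lit 17897616), (nat_lit 12073119)] (nat_lit 7256705)) p13_16_2 (nat_lit 4) (nat_lit 165) (nat_lit 166) = true := by decide +kernel
def p13_16_2_166 : pfC (piC [(nat_lit 35755509), (nat_lit 23968959), (nat_lit 17897616), (nat_lit 12073119)] (nat_lit 7256705)) p13_16_2 (nat_lit 4) (nat_lit 166) (nat_lit 167) = true := by decide +kernel
def p13_16_2_167 : pfC (piC [(nat_lit 35755509), (nat_lit 23968959), (nat_lit 17897616), (nat_lit 12073119)] (nat_lit 7256705)) p13_16_2 (nat_lit 4) (nat_lit 167) (nat_lit 168) = true := by decide +kernel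
def p13_16_2_168 : pfC (piC [(nat_lit 35755509), (nat_lit 23968959), (nat_lit 17897616), (nat_lit 12073119)] (nat_lit 7256705)) p13_16_2 (nat_lit 4) (nat_lit 168) (nat_lit 169) = true := by decide +kernel
def p13_16_2_169 : pfC (piC [(nat_lit 35755509), (nat_lit 23968959), (nat_lit 17897616), (nat_lit 12073119)] (nat_lit 7256705)) p13_16_2 (nat_lit 4) (nat_lit 169) (nat_lit 170) = true := by decide +kernel
def p13_16_2_170 : pfC (piC [(nat_lit 35755509), (nat_lit 23968959), (nat_lit 17897616), (nat_lit 12073119)] (nat_lit 7256705)) p13_16_2 (nat_lit 4) (nat_lit 170) (nat_lit 171) = true := by decide +kernel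
def p13_16_2_171 : pfC (piC [(nat_lit 35755509), (nat_lit 23968959), (nat_lit 17897616), (nat_lit 12073119)] (nat_lit 7256705)) p13_16_2 (nat_lit 4) (nat_lit 171) (nat_lit 172) = true := by decide +kernel
def p13_16_2_172 : pfC (piC [(nat_lit 35755509), (nat_lit 23968959), (nat_lit 17897616), (nat_lit 12073119)] (nat_lit 7256705)) p13_16_2 (nat_lit 4) (nat_lit 172) (nat_lit 173) = true := by decide +kernel
def p13_16_2_173 : pfC (piC [(nat_lit 35755509), (nat_lit 23968959), (nat_lit 17897616), (nat_lit 12073119)] (nat_lit 7256705)) p13_16_2 (nat_lit 4) (nat_lit 173) (nat_lit 174) = true := by decide +kernel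
def p13_16_2_174 : pfC (piC [(nat_lit 35755509), (nat_lit 23968959), (nat_lit 17897616), (nat_lit 12073119)] (nat_lit 7256705)) p13_16_2 (nat_lit 4) (nat_lit 174) (nat_lit 175) = true := by decide +kernel
def p13_16_2_175 : pfC (piC [(nat_lit 35755509), (nat_lit 23968959), (nat_lit 17897616), (nat_lit 12073119)] (nat_lit 7256705)) p13_16_2 (nat_lit 4) (nat_lit 175) (nat_lit 176) = true := by decide +kernel
def p13_16_2_176 : pfC (piC [(nat_lit 35755509), (nat_lit 23968959), (nat_lit 17897616), (nat_lit 12073119)] (nat_lit 7256705)) p13_16_2 (nat_lit 4) (nat_lit 176) (nat_lit 177) = true := by decide +kernel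
def p13_16_2_177 : pfC (piC [(nat_lit 35755509), (nat_lit 23968959), (nat_lit 17897616), (nat_lit 12073119)] (nat_lit 7256705)) p13_16_2 (nat_lit 4) (nat_lit 177) (nat_lit 178) = true := by decide +kernel
def p13_16_2_178 : pfC (piC [(nat_lit 35755509), (nat_lit 23968959), (nat_lit 17897616), (nat_lit 12073119)] (nat_lit 7256705)) p13_16_2 (nat_lit 4) (nat_lit 178) (nat_lit 179) = true := by decide +kernel
def p13_16_2_179 : pfC (piC [(nat_lit 35755509), (nat_lit 23968959), (nat_lit 17897616), (nat_lit 12073119)] (nat_lit 7256705)) p13_16_2 (nat_lit 4) (nat_lit 179) (nat_lit 180) = true := by decide +kernel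
def p13_16_2_180 : pfC (piC [(nat_lit 35755509), (nat_lit 23968959), (nat_lit 17897616), (nat_lit 12073119)] (nat_lit 7256705)) p13_16_2 (nat_lit 4) (nat_lit 180) (nat_lit 181) = true := by decide +kernel
def p13_16_2_181 : pfC (piC [(nat_lit 35755509), (nat_lit 23968959), (nat_lit 17897616), (nat_lit 12073119)] (nat_lit 7256705)) p13_16_2 (nat_lit 4) (nat_lit 181) (nat_lit 182) = true := by decide +kernel
def p13_16_2_182 : pfC (piC [(nat_lit 35755509), (nat_lit 23968959), (nat_lit 17897616), (nat_lit 12073119)] (nat_lit 7256705)) p13_16_2 (nat_lit 4) (nat_lit 182) (nat_lit 183) = true := by decide +kernel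
def p13_16_2_183 : pfC (piC [(nat_lit 35755509), (nat_lit 23968959), (nat_lit 17897616), (nat_lit 12073119)] (nat_lit 7256705)) p13_16_2 (nat_lit 4) (nat_lit 183) (nat_lit 184) = true := by decide +kernel
def p13_16_2_184 : pfC (piC [(nat_lit 35755509), (nat_lit 23968959), (nat_lit 17897616), (nat_lit 12073119)] (nat_lit 7256705)) p13_16_2 (nat_lit 4) (nat_lit 184) (nat_lit 185) = true := by decide +kernel
def p13_16_2_185 : pfC (piC [(nat_lit 35755509), (nat_lit 23968959), (nat_lit 17897616), (nat_lit 12073119)] (nat_lit 7256705)) p13_16_2 (nat_lit 4) (nat_lit 185) (nat_lit 186) = true := by decide +kernel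
def p13_16_2_186 : pfC (piC [(nat_lit 35755509), (nat_lit 23968959), (nat_lit 17897616), (nat_lit 12073119)] (nat_lit 7256705)) p13_16_2 (nat_lit 4) (nat_lit 186) (nat_lit 187) = true := by decide +kernel
def p13_16_2_187 : pfC (piC [(nat_lit 35755509), (nat_lit 23968959), (nat_lit 17897616), (nat_lit 12073119)] (nat_lit 7256705)) p13_16_2 (nat_lit 4) (nat_lit 187) (nat_lit 188) = true := by decide +kernel
def p13_16_2_188 : pfC (piC [(nat_lit 35755509), (nat_lit 23968959), (nat_lit 17897616), (nat_lit 12073119)] (nat_lit 7256705)) p13_16_2 (nat_lit 4) (nat_lit 188) (nat_lit 189) = true := by decide +kernel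
def p13_16_2_189 : pfC (piC [(nat_lit 35755509), (nat_lit 23968959), (nat_lit 17897616), (nat_lit 12073119)] (nat_lit 7256705)) p13_16_2 (nat_lit 4) (nat_lit 189) (nat_lit 190) = true := by decide +kernel
def p13_16_2_190 : pfC (piC [(nat_lit 35755509), (nat_lit 23968959), (nat_lit 17897616), (nat_lit 12073119)] (nat_lit 7256705)) p13_16_2 (nat_lit 4) (nat_lit 190) (nat_lit 191) = true := by decide +kernel
def p13_16_2_191 : pfC (piC [(nat_lit 35755509), (nat_lit 23968959), (nat_lit 17897616), (nat_lit 12073119)] (nat_lit 7256705)) p13_16_2 (nat_lit 4) (nat_lit 191) (nat_lit 192) = true := by decide +kernel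
def p13_16_2_192 : pfC (piC [(nat_lit 35755509), (nat_lit 23968959), (nat_lit 17897616), (nat_lit 12073119)] (nat_lit 7256705)) p13_16_2 (nat_lit 4) (nat_lit 192) (nat_lit 193) = true := by decide +kernel
def p13_16_2_193 : pfC (piC [(nat_lit 35755509), (nat_lit 23968959), (nat_lit 17897616), (nat_lit 12073119)] (nat_lit 7256705)) p13_16_2 (nat_lit 4) (nat_lit 193) (nat_lit 194) = true := by decide +kernel
def p13_16_2_194 : pfC (piC [(nat_lit 35755509), (nat_lit 23968959), (nat_lit 17897616), (nat_lit 12073119)] (nat_lit 7256705)) p13_16_2 (nat_lit 4) (nat_lit 194) (nat_lit 195) = true := by decide +kernel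
def p13_16_2_195 : pfC (piC [(nat_lit 35755509), (nat_lit 23968959), (nat_lit 17897616), (nat_lit 12073119)] (nat_lit 7256705)) p13_16_2 (nat_lit 4) (nat_lit 195) (nat_lit 196) = true := by decide +kernel
def p13_16_2_196 : pfC (piC [(nat_lit 35755509), (nat_lit 23968959), (nat_lit 17897616), (nat_lit 12073119)] (nat_lit 7256705)) p13_16_2 (nat_lit 4) (nat_lit 196) (nat_lit 197) = true := by decide +kernel
def p13_16_2_197 : pfC (piC [(nat_lit 35755509), (nat_lit 23968959), (nat_lit 17897616), (nat_lit 12073119)] (nat_lit 7256705)) p13_16_2 (nat_lit 4) (nat_lit 197) (nat_lit 198) = true := by decide +kernel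
def p13_16_2_198 : pfC (piC [(nat_lit 35755509), (nat_lit 23968959), (nat_lit 17897616), (nat_lit 12073119)] (nat_lit 7256705)) p13_16_2 (nat_lit 4) (nat_lit 198) (nat_lit 199) = true := by decide +kernel
def p13_16_2_199 : pfC (piC [(nat_lit 35755509), (nat_lit 23968959), (nat_lit 17897616), (nat_lit 12073119)] (nat_lit 7256705)) p13_16_2 (nat_lit 4) (nat_lit 199) (nat_lit 200) = true := by decide +kernel
def p13_16_2_200 : pfC (piC [(nat_lit 35755509), (nat_lit 23968959), (nat_lit 17897616), (nat_lit 12073119)] (nat_lit 7256705)) p13_16_2 (nat_lit 4) (nat_lit 200) (nat_lit 201) = true := by decide +kernel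
def p13_16_2_201 : pfC (piC [(nat_lit 35755509), (nat_lit 23968959), (nat_lit 17897616), (nat_lit 12073119)] (nat_lit 7256705)) p13_16_2 (nat_lit 4) (nat_lit 201) (nat_lit 202) = true := by decide +kernel
def p13_16_2_202 : pfC (piC [(nat_lit 35755509), (nat_lit 23968959), (nat_lit 17897616), (nat_lit 12073119)] (nat_lit 7256705)) p13_16_2 (nat_lit 4) (nat_lit 202) (nat_lit 203) = true := by decide +kernel
def p13_16_2_203 : pfC (piC [(nat_lit 35755509), (nat_lit 23968959), (nat_lit 17897616), (nat_lit 12073119)] (nat_lit 7256705)) p13_16_2 (nat_lit 4) (nat_lit 203) (nat_lit 204) = true := by decide +kernel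
def p13_16_2_204 : pfC (piC [(nat_lit 35755509), (nat_lit 23968959), (nat_lit 17897616), (nat_lit 12073119)] (nat_lit 7256705)) p13_16_2 (nat_lit 4) (nat_lit 204) (nat_lit 205) = true := by decide +kernel
def p13_16_2_205 : pfC (piC [(nat_lit 35755509), (nat_lit 23968959), (nat_lit 17897616), (nat_lit 12073119)] (nat_lit 7256705)) p13_16_2 (nat_lit 4) (nat_lit 205) (nat_lit 206) = true := by decide +kernel
def p13_16_2_206 : pfC (piC [(nat_lit 35755509), (nat_lit 23968959), (nat_lit 17897616), (nat_lit 12073119)] (nat_lit 7256705)) p13_16_2 (nat_lit 4) (nat_lit 206) (nat_lit 207) = true := by decide +kernel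
def p13_16_2_207 : pfC (piC [(nat_lit 35755509), (nat_lit 23968959), (nat_lit 17897616), (nat_lit 12073119)] (nat_lit 7256705)) p13_16_2 (nat_lit 4) (nat_lit 207) (nat_lit 208) = true := by decide +kernel
def p13_16_2_208 : pfC (piC [(nat_lit 35755509), (nat_lit 23968959), (nat_lit 17897616), (nat_lit 12073119)] (nat_lit 7256705)) p13_16_2 (nat_lit 4) (nat_lit 208) (nat_lit 209) = true := by decide +kernel
def p13_16_2_209 : pfC (piC [(nat_lit 35755509), (nat_lit 23968959), (nat_lit 17897616), (nat_lit 12073119)] (nat_lit 7256705)) p13_16_2 (nat_lit 4) (nat_lit 209) (nat_lit 210) = true := by decide +kernel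
def p13_16_2_210 : pfC (piC [(nat_lit 35755509), (nat_lit 23968959), (nat_lit 17897616), (nat_lit 12073119)] (nat_lit 7256705)) p13_16_2 (nat_lit 4) (nat_lit 210) (nat_lit 211) = true := by decide +kernel
def p13_16_2_211 : pfC (piC [(nat_lit 35755509), (nat_lit 23968959), (nat_lit 17897616), (nat_lit 12073119)] (nat_lit 7256705)) p13_16_2 (nat_lit 4) (nat_lit 211) (nat_lit 212) = true := by decide +kernel
def p13_16_2_212 : pfC (piC [(nat_lit 35755509), (nat_lit 23968959), (nat_lit 17897616), (nat_lit 12073119)] (nat_lit 7256705)) p13_16_2 (nat_lit 4) (nat_lit 212) (nat_lit 213) = true := by decide +kernel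
def p13_16_2_213 : pfC (piC [(nat_lit 35755509), (nat_lit 23968959), (nat_lit 17897616), (nat_lit 12073119)] (nat_lit 7256705)) p13_16_2 (nat_lit 4) (nat_lit 213) (nat_lit 214) = true := by decide +kernel
def p13_16_2_214 : pfC (piC [(nat_lit 35755509), (nat_lit 23968959), (nat_lit 17897616), (nat_lit 12073119)] (nat_lit 7256705)) p13_16_2 (nat_lit 4) (nat_lit 214) (nat_lit 215) = true := by decide +kernel
def p13_16_2_215 : pfC (piC [(nat_lit 35755509), (nat_lit 23968959), (nat_lit 17897616), (nat_lit 12073119)] (nat_lit 7256705)) p13_16_2 (nat_lit 4) (nat_lit 215) (nat_lit 216) = true := by decide +kernel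
def p13_16_2_216 : pfC (piC [(nat_lit 35755509), (nat_lit 23968959), (nat_lit 17897616), (nat_lit 12073119)] (nat_lit 7256705)) p13_16_2 (nat_lit 4) (nat_lit 216) (nat_lit 217) = true := by decide +kernel
def p13_16_2_217 : pfC (piC [(nat_lit 35755509), (nat_lit 23968959), (nat_lit 17897616), (nat_lit 12073119)] (nat_lit 7256705)) p13_16_2 (nat_lit 4) (nat_lit 217) (nat_lit 218) = true := by decide +kernel
def p13_16_2_218 : pfC (piC [(nat_lit 35755509), (nat_lit 23968959), (nat_lit 17897616), (nat_lit 12073119)] (nat_lit 7256705)) p13_16_2 (nat_lit 4) (nat_lit 218) (nat_lit 219) = true := by decide +kernel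
def p13_16_2_219 : pfC (piC [(nat_lit 35755509), (nat_lit 23968959), (nat_lit 17897616), (nat_lit 12073119)] (nat_lit 7256705)) p13_16_2 (nat_lit 4) (nat_lit 219) (nat_lit 220) = true := by decide +kernel
def p13_16_2_220 : pfC (piC [(nat_lit 35755509), (nat_lit 23968959), (nat_lit 17897616), (nat_lit 12073119)] (nat_lit 7256705)) p13_16_2 (nat_lit 4) (nat_lit 220) (nat_lit 221) = true := by decide +kernel
def p13_16_2_221 : pfC (piC [(nat_lit 35755509), (nat_lit 23968959), (nat_lit 17897616), (nat_lit 12073119)] (nat_lit 7256705)) p13_16_2 (nat_lit 4) (nat_lit 221) (nat_lit 222) = true := by decide +kernel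
def p13_16_2_222 : pfC (piC [(nat_lit 35755509), (nat_lit 23968959), (nat_lit 17897616), (nat_lit 12073119)] (nat_lit 7256705)) p13_16_2 (nat_lit 4) (nat_lit 222) (nat_lit 223) = true := by decide +kernel
def p13_16_2_223 : pfC (piC [(nat_lit 35755509), (nat_lit 23968959), (nat_lit 17897616), (nat_lit 12073119)] (nat_lit 7256705)) p13_16_2 (nat_lit 4) (nat_lit 223) (nat_lit 224) = true := by decide +kernel
def p13_16_2_224 : pfC (piC [(nat_lit 35755509), (nat_lit 23968959), (nat_lit 17897616), (nat_lit 12073119)] (nat_lit 7256705)) p13_16_2 (nat_lit 4) (nat_lit 224) (nat_lit 225) = true := by decide +kernel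
def p13_16_2_225 : pfC (piC [(nat_lit 35755509), (nat_lit 23968959), (nat_lit 17897616), (nat_lit 12073119)] (nat_lit 7256705)) p13_16_2 (nat_lit 4) (nat_lit 225) (nat_lit 226) = true := by decide +kernel
def p13_16_2_226 : pfC (piC [(nat_lit 35755509), (nat_lit 23968959), (nat_lit 17897616), (nat_lit 12073119)] (nat_lit 7256705)) p13_16_2 (nat_lit 4) (nat_lit 226) (nat_lit 227) = true := by decide +kernel
def p13_16_2_227 : pfC (piC [(nat_lit 35755509), (nat_lit 23968959), (nat_lit 17897616), (nat_lit 12073119)] (nat_lit 7256705)) p13_16_2 (nat_lit 4) (nat_lit 227) (nat_lit 228) = true := by decide +kernel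
def p13_16_2_228 : pfC (piC [(nat_lit 35755509), (nat_lit 23968959), (nat_lit 17897616), (nat_lit 12073119)] (nat_lit 7256705)) p13_16_2 (nat_lit 4) (nat_lit 228) (nat_lit 229) = true := by decide +kernel
def p13_16_2_229 : pfC (piC [(nat_lit 35755509), (nat_lit 23968959), (nat_lit 17897616), (nat_lit 12073119)] (nat_lit 7256705)) p13_16_2 (nat_lit 4) (nat_lit 229) (nat_lit 230) = true := by decide +kernel
def p13_16_2_230 : pfC (piC [(nat_lit 35755509), (nat_lit 23968959), (nat_lit 17897616), (nat_lit 12073119)] (nat_lit 7256705)) p13_16_2 (nat_lit 4) (nat_lit 230) (nat_lit 231) = true := by decide +kernel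
def p13_16_2_231 : pfC (piC [(nat_lit 35755509), (nat_lit 23968959), (nat_lit 17897616), (nat_lit 12073119)] (nat_lit 7256705)) p13_16_2 (nat_lit 4) (nat_lit 231) (nat_lit 232) = true := by decide +kernel
def p13_16_2_232 : pfC (piC [(nat_lit 35755509), (nat_lit 23968959), (nat_lit 17897616), (nat_lit 12073119)] (nat_lit 7256705)) p13_16_2 (nat_lit 4) (nat_lit 232) (nat_lit 233) = true := by decide +kernel
def p13_16_2_233 : pfC (piC [(nat_lit 35755509), (nat_lit 23968959), (nat_lit 17897616), (nat_lit 12073119)] (nat_lit 7256705)) p13_16_2 (nat_lit 4) (nat_lit 233) (nat_lit 234) = true := by decide +kernel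
def p13_16_2_234 : pfC (piC [(nat_lit 35755509), (nat_lit 23968959), (nat_lit 17897616), (nat_lit 12073119)] (nat_lit 7256705)) p13_16_2 (nat_lit 4) (nat_lit 234) (nat_lit 235) = true := by decide +kernel
def p13_16_2_235 : pfC (piC [(nat_lit 35755509), (nat_lit 23968959), (nat_lit 17897616), (nat_lit 12073119)] (nat_lit 7256705)) p13_16_2 (nat_lit 4) (nat_lit 235) (nat_lit 236) = true := by decide +kernel
def p13_16_2_236 : pfC (piC [(nat_lit 35755509), (nat_lit 23968959), (nat_lit 17897616), (nat_lit 12073119)] (nat_lit 7256705)) p13_16_2 (nat_lit 4) (nat_lit 236) (nat_lit 237) = true := by decide +kernel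
def p13_16_2_237 : pfC (piC [(nat_lit 35755509), (nat_lit 23968959), (nat_lit 17897616), (nat_lit 12073119)] (nat_lit 7256705)) p13_16_2 (nat_lit 4) (nat_lit 237) (nat_lit 238) = true := by decide +kernel
def p13_16_2_238 : pfC (piC [(nat_lit 35755509), (nat_lit 23968959), (nat_lit 17897616), (nat_lit 12073119)] (nat_lit 7256705)) p13_16_2 (nat_lit 4) (nat_lit 238) (nat_lit 239) = true := by decide +kernel
def p13_16_2_239 : pfC (piC [(nat_lit 35755509), (nat_lit 23968959), (nat_lit 17897616), (nat_lit 12073119)] (nat_lit 7256705)) p13_16_2 (nat_lit 4) (nat_lit 239) (nat_lit 240) = true := by decide +kernel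
theorem p13_16_2_T : PfS (PiF n13_16.reverse (nat_lit 7256705)) p13_16_2 (nat_lit 4) [] 0 :=
  pftab_of (los := [(nat_lit 35755509), (nat_lit 23968959), (nat_lit 17897616), (nat_lit 12073119)]) (by decide +kernel) (hi := (nat_lit 240)) (PfP.trans (PfP.trans (PfP.trans (PfP.trans (PfP.trans (PfP.trans (PfP.trans (PfP.trans (PfP.trans (PfP.trans (PfP.trans (PfP.trans (PfP.trans (PfP.trans (PfP.trans (PfP.trans (PfP.trans (PfP.trans (PfP.trans (PfP.trans (PfP.trans (PfP.trans (PfP.trans (PfP.trans (PfP.trans (PfP.trans (PfP.trans (PfP.trans (PfP.trans (PfP.trans (PfP.trans (PfP.trans (PfP.trans (PfP.trans (PfP.trans (PfP.trans (PfP.trans (PfP.trans (PfP.trans (PfP.trans (PfP.trans (PfP.trans (PfP.trans (PfP.trans (PfP.trans (PfP.trans (PfP.trans (PfP.trans (PfP.trans (PfP.trans (PfP.trans (PfP.trans (PfP.trans (PfP.trans (PfP.trans (PfP.trans (PfP.trans (PfP.trans (PfP.trans (PfP.trans (PfP.trans (PfP.trans (PfP.trans (PfP.trans (PfP.trans (PfP.trans (PfP.trans (PfP.trans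 (PfP.trans (PfP.trans (PfP.trans (PfP.trans (PfP.trans (PfP.trans (PfP.trans (PfP.trans (PfP.trans (PfP.trans (PfP.trans (PfP.trans (PfP.trans (PfP.trans (PfP.trans (PfP.trans (PfP.trans (PfP.trans (PfP.trans (PfP.trans (PfP.trans (PfP.trans (PfP.trans (PfP.trans (PfP.trans (PfP.trans (PfP.trans (PfP.trans (PfP.trans (PfP.trans (PfP.trans (PfP.trans (PfP.trans (PfP.trans (PfP.trans (PfP.trans (PfP.trans (PfP.trans (PfP.trans (PfP.trans (PfP.trans
 (PfP.trans (PfP.trans (PfP.trans (PfP.trans (PfP.trans (PfP.trans (PfP.trans (PfP.trans (PfP.trans (PfP.trans (PfP.trans (PfP.trans (PfP.trans (PfP.trans (PfP.trans (PfP.trans (PfP.trans (PfP.trans (PfP.trans (PfP.trans (PfP.trans (PfP.trans (PfP.trans (PfP.trans (PfP.trans (PfP.trans (PfP.trans (PfP.trans (PfP.trans (PfP.trans (PfP.trans (PfP.trans (PfP.trans (PfP.trans (PfP.trans (PfP.trans (PfP.trans (PfP.trans (PfP.trans (PfP.trans (PfP.trans (PfP.trans (PfP.trans (PfP.trans (PfP.trans (PfP.trans (PfP.trans (PfP.trans (PfP.trans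 (PfP.trans (PfP.trans (PfP.trans (PfP.trans (PfP.trans (PfP.trans (PfP.trans (PfP.trans (PfP.trans (PfP.trans (PfP.trans (PfP.trans (PfP.trans (PfP.trans (PfP.trans (PfP.trans (PfP.trans (PfP.trans (PfP.trans (PfP.trans (PfP.trans (PfP.trans (PfP.trans (PfP.trans (PfP.trans (PfP.trans (PfP.trans (PfP.trans (PfP.trans (PfP.trans (PfP.trans (PfP.trans (PfP.trans (PfP.trans (PfP.trans (PfP.trans (PfP.trans (PfP.trans (PfP.trans (PfP.trans (PfP.trans (PfP.trans (PfP.trans (PfP.trans (PfP.trans (PfP.trans (PfP.trans (PfP.trans (PfP.trans (PfP.trans (PfP.trans (PfP.trans (PfP.trans (PfP.trans (PfP.trans (PfP.trans (PfP.trans (PfP.trans (PfP.trans (PfP.trans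
 (PfP.trans (PfP.trans (PfP.trans (PfP.trans (PfP.trans (PfP.trans (PfP.trans (PfP.trans (PfP.trans (PfP.trans (PfP.trans (PfP.trans (PfP.trans (PfP.trans (PfP.trans (PfP.trans (PfP.trans (PfP.trans (PfP.trans (PfP.trans (PfP.trans (pfC_sound p13_16_2_0) (pfC_sound p13_16_2_1)) (pfC_sound p13_16_2_2)) (pfC_sound p13_16_2_3)) (pfC_sound p13_16_2_4)) (pfC_sound p13_16_2_5)) (pfC_sound p13_16_2_6)) (pfC_sound p13_16_2_7)) (pfC_sound p13_16_2_8)) (pfC_sound p13_16_2_9)) (pfC_sound p13_16_2_10)) (pfC_sound p13_16_2_11)) (pfC_sound p13_16_2_12)) (pfC_sound p13_16_2_13)) (pfC_sound p13_16_2_14)) (pfC_sound p13_16_2_15)) (pfC_sound p13_16_2_16)) (pfC_sound p13_16_2_17)) (pfC_sound p13_16_2_18)) (pfC_sound p13_16_2_19)) (pfC_sound p13_16_2_20)) (pfC_sound p13_16_2_21)) (pfC_sound p13_16_2_22)) (pfC_sound p13_16_2_23)) (pfC_sound p13_16_2_24)) (pfC_sound p13_16_2_25)) (pfC_sound p13_16_2_26)) (pfC_sound p13_16_2_27)) (pfC_sound p13_16_2_28)) (pfC_sound p13_16_2_29)) (pfC_sound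 p13_16_2_30)) (pfC_sound p13_16_2_31)) (pfC_sound p13_16_2_32)) (pfC_sound p13_16_2_33)) (pfC_sound p13_16_2_34)) (pfC_sound p13_16_2_35)) (pfC_sound p13_16_2_36)) (pfC_sound p13_16_2_37)) (pfC_sound p13_16_2_38))
 (pfC_sound p13_16_2_39)) (pfC_sound p13_16_2_40)) (pfC_sound p13_16_2_41)) (pfC_sound p13_16_2_42)) (pfC_sound p13_16_2_43)) (pfC_sound p13_16_2_44)) (pfC_sound p13_16_2_45)) (pfC_sound p13_16_2_46)) (pfC_sound p13_16_2_47)) (pfC_sound p13_16_2_48)) (pfC_sound p13_16_2_49)) (pfC_sound p13_16_2_50)) (pfC_sound p13_16_2_51)) (pfC_sound p13_16_2_52)) (pfC_sound p13_16_2_53)) (pfC_sound p13_16_2_54)) (pfC_sound p13_16_2_55)) (pfC_sound p13_16_2_56)) (pfC_sound p13_16_2_57)) (pfC_sound p13_16_2_58)) (pfC_sound p13_16_2_59)) (pfC_sound p13_16_2_60)) (pfC_sound p13_16_2_61)) (pfC_sound p13_16_2_62)) (pfC_sound p13_16_2_63)) (pfC_sound p13_16_2_64)) (pfC_sound p13_16_2_65)) (pfC_sound p13_16_2_66)) (pfC_sound p13_16_2_67)) (pfC_sound p13_16_2_68)) (pfC_sound p13_16_2_69))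 (pfC_sound p13_16_2_70)) (pfC_sound p13_16_2_71)) (pfC_sound p13_16_2_72)) (pfC_sound p13_16_2_73)) (pfC_sound p13_16_2_74)) (pfC_sound p13_16_2_75)) (pfC_sound p13_16_2_76)) (pfC_sound p13_16_2_77)) (pfC_sound p13_16_2_78)) (pfC_sound p13_16_2_79)) (pfC_sound p13_16_2_80)) (pfC_sound p13_16_2_81)) (pfC_sound p13_16_2_82)) (pfC_sound p13_16_2_83)) (pfC_sound p13_16_2_84)) (pfC_sound p13_16_2_85)) (pfC_sound p13_16_2_86))
 (pfC_sound p13_16_2_87)) (pfC_sound p13_16_2_88)) (pfC_sound p13_16_2_89)) (pfC_sound p13_16_2_90)) (pfC_sound p13_16_2_91)) (pfC_sound p13_16_2_92)) (pfC_sound p13_16_2_93)) (pfC_sound p13_16_2_94)) (pfC_sound p13_16_2_95)) (pfC_sound p13_16_2_96)) (pfC_sound p13_16_2_97)) (pfC_sound p13_16_2_98)) (pfC_sound p13_16_2_99)) (pfC_sound p13_16_2_100)) (pfC_sound p13_16_2_101)) (pfC_sound p13_16_2_102)) (pfC_sound p13_16_2_103)) (pfC_sound p13_16_2_104)) (pfC_sound p13_16_2_105)) (pfC_sound p13_16_2_106)) (pfC_sound p13_16_2_107)) (pfC_sound p13_16_2_108))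 (pfC_sound p13_16_2_109)) (pfC_sound p13_16_2_110)) (pfC_sound p13_16_2_111)) (pfC_sound p13_16_2_112)) (pfC_sound p13_16_2_113)) (pfC_sound p13_16_2_114)) (pfC_sound p13_16_2_115)) (pfC_sound p13_16_2_116)) (pfC_sound p13_16_2_117)) (pfC_sound p13_16_2_118)) (pfC_sound p13_16_2_119)) (pfC_sound p13_16_2_120)) (pfC_sound p13_16_2_121)) (pfC_sound p13_16_2_122)) (pfC_sound p13_16_2_123)) (pfC_sound p13_16_2_124)) (pfC_sound p13_16_2_125)) (pfC_sound p13_16_2_126)) (pfC_sound p13_16_2_127)) (pfC_sound p13_16_2_128)) (pfC_sound p13_16_2_129)) (pfC_sound p13_16_2_130)) (pfC_sound p13_16_2_131)) (pfC_sound p13_16_2_132)) (pfC_sound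
 p13_16_2_133)) (pfC_sound p13_16_2_134)) (pfC_sound p13_16_2_135)) (pfC_sound p13_16_2_136)) (pfC_sound p13_16_2_137)) (pfC_sound p13_16_2_138)) (pfC_sound p13_16_2_139)) (pfC_sound p13_16_2_140)) (pfC_sound p13_16_2_141)) (pfC_sound p13_16_2_142)) (pfC_sound p13_16_2_143)) (pfC_sound p13_16_2_144)) (pfC_sound p13_16_2_145)) (pfC_sound p13_16_2_146)) (pfC_sound p13_16_2_147)) (pfC_sound p13_16_2_148)) (pfC_sound p13_16_2_149)) (pfC_sound p13_16_2_150)) (pfC_sound p13_16_2_151)) (pfC_sound p13_16_2_152)) (pfC_sound p13_16_2_153)) (pfC_sound p13_16_2_154)) (pfC_sound p13_16_2_155)) (pfC_sound p13_16_2_156)) (pfC_sound p13_16_2_157)) (pfC_sound p13_16_2_158)) (pfC_sound p13_16_2_159)) (pfC_sound p13_16_2_160)) (pfC_sound p13_16_2_161)) (pfC_sound p13_16_2_162)) (pfC_sound p13_16_2_163)) (pfC_sound p13_16_2_164)) (pfC_sound p13_16_2_165)) (pfC_sound p13_16_2_166)) (pfC_sound p13_16_2_167)) (pfC_sound p13_16_2_168)) (pfC_sound p13_16_2_169)) (pfC_sound p13_16_2_170)) (pfC_sound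 p13_16_2_171)) (pfC_sound p13_16_2_172)) (pfC_sound p13_16_2_173)) (pfC_sound p13_16_2_174)) (pfC_sound p13_16_2_175)) (pfC_sound p13_16_2_176)) (pfC_sound p13_16_2_177)) (pfC_sound p13_16_2_178)) (pfC_sound
 p13_16_2_179)) (pfC_sound p13_16_2_180)) (pfC_sound p13_16_2_181)) (pfC_sound p13_16_2_182)) (pfC_sound p13_16_2_183)) (pfC_sound p13_16_2_184)) (pfC_sound p13_16_2_185)) (pfC_sound p13_16_2_186)) (pfC_sound p13_16_2_187)) (pfC_sound p13_16_2_188)) (pfC_sound p13_16_2_189)) (pfC_sound p13_16_2_190)) (pfC_sound p13_16_2_191)) (pfC_sound p13_16_2_192)) (pfC_sound p13_16_2_193)) (pfC_sound p13_16_2_194)) (pfC_sound p13_16_2_195)) (pfC_sound p13_16_2_196)) (pfC_sound p13_16_2_197)) (pfC_sound p13_16_2_198)) (pfC_sound p13_16_2_199)) (pfC_sound p13_16_2_200)) (pfC_sound p13_16_2_201)) (pfC_sound p13_16_2_202)) (pfC_sound p13_16_2_203)) (pfC_sound p13_16_2_204)) (pfC_sound p13_16_2_205)) (pfC_sound p13_16_2_206)) (pfC_sound p13_16_2_207)) (pfC_sound p13_16_2_208)) (pfC_sound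 p13_16_2_209)) (pfC_sound p13_16_2_210)) (pfC_sound p13_16_2_211)) (pfC_sound p13_16_2_212)) (pfC_sound p13_16_2_213)) (pfC_sound p13_16_2_214)) (pfC_sound p13_16_2_215)) (pfC_sound p13_16_2_216)) (pfC_sound p13_16_2_217)) (pfC_sound p13_16_2_218)) (pfC_sound p13_16_2_219)) (pfC_sound p13_16_2_220)) (pfC_sound p13_16_2_221)) (pfC_sound p13_16_2_222)) (pfC_sound p13_16_2_223)) (pfC_sound p13_16_2_224)) (pfC_sound
 p13_16_2_225)) (pfC_sound p13_16_2_226)) (pfC_sound p13_16_2_227)) (pfC_sound p13_16_2_228)) (pfC_sound p13_16_2_229)) (pfC_sound p13_16_2_230)) (pfC_sound p13_16_2_231)) (pfC_sound p13_16_2_232)) (pfC_sound p13_16_2_233)) (pfC_sound p13_16_2_234)) (pfC_sound p13_16_2_235)) (pfC_sound p13_16_2_236)) (pfC_sound p13_16_2_237)) (pfC_sound p13_16_2_238)) (pfC_sound p13_16_2_239)) (by decide +kernel)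

def z13_16_2 : zOK yB13_16 (nat_lit 2) (nat_lit 600) (nat_lit 750) (nat_lit 7256705) (nat_lit 5533854) = true := by decide +kernel
def g13_16_2 : gOK yB13_16.x P13_16 (nat_lit 1405) (q13_16 :: r13_16) (nat_lit 2) (nat_lit 600) (nat_lit 3) (nat_lit 750) (nat_lit 12712500) (nat_lit 12712500) (nat_lit 12712500) (nat_lit 12712500) [(nat_lit 800), (nat_lit 1600)] = true := by decide +kernel
def v13_16_2 : ivC P13_16 s13_16 w13_16 n13_16 (nat_lit 4) (nat_lit 4740) (nat_lit 2) (nat_lit 600) f168_1_600 f176_1_600 (nat_lit 3) (nat_lit 750) f168_1_750 f176_1_750 (nat_lit 7256705) (nat_lit 5533854) p13_16_2 = true := by decide +kernel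
def p13_16_3 : PF := (PF.cons (PF.cons (PF.cons (PF.cons (PF.leaf (nat_lit 2803258) (nat_lit 16674759) (nat_lit 50434053) (nat_lit 16674759) [(nat_lit 0), (nat_lit 0), (nat_lit 0), (nat_lit 0)]) (PF.cons (PF.leaf (nat_lit 3019616) (nat_lit 403677) (nat_lit 50064415) (nat_lit 16640719) [(nat_lit 403677), (nat_lit 0), (nat_lit 0), (nat_lit 0)]) (PF.cons (PF.leaf (nat_lit 3273266) (nat_lit 437705) (nat_lit 49634739) (nat_lit 16598662) [(nat_lit 437705), (nat_lit 0), (nat_lit 0), (nat_lit 0)]) (PF.cons (PF.leaf (nat_lit 3556605) (nat_lit 467402) (nat_lit 49157666) (nat_lit 16548938) [(nat_lit 467402), (nat_lit 0), (nat_lit 0), (nat_lit 0)]) (PF.cons (PF.leaf (nat_lit 3864683) (nat_lit 493682) (nat_lit 48642323) (nat_lit 16491758) [(nat_lit 493682), (nat_lit 0), (nat_lit 0), (nat_lit 0)]) (PF.cons (PF.leaf (nat_lit 4193656) (nat_lit 517136) (nat_lit 48095830) (nat_lit 16427300) [(nat_lit 517136), (nat_lit 0), (nat_lit 0), (nat_lit 0)]) (PF.cons (PF.leaf (nat_lit 4540371) (nat_lit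 538174) (nat_lit 47524002) (nat_lit 16355760) [(nat_lit 538174), (nat_lit 0), (nat_lit 0), (nat_lit 0)]) (PF.cons (PF.leaf (nat_lit 4902156) (nat_lit 557101) (nat_lit 46931735) (nat_lit 16277370) [(nat_lit 557101), (nat_lit 0),
 (nat_lit 0), (nat_lit 0)]) (PF.cons (PF.leaf (nat_lit 5276699) (nat_lit 574149) (nat_lit 46323219) (nat_lit 16192400) [(nat_lit 574149), (nat_lit 0), (nat_lit 0), (nat_lit 0)]) (PF.cons (PF.leaf (nat_lit 5661944) (nat_lit 589507) (nat_lit 45702090) (nat_lit 16101155) [(nat_lit 589507), (nat_lit 0), (nat_lit 0), (nat_lit 0)]) (PF.cons (PF.leaf (nat_lit 6056120) (nat_lit 603331) (nat_lit 45071523) (nat_lit 16003978) [(nat_lit 603331), (nat_lit 0), (nat_lit 0), (nat_lit 0)]) (PF.cons PF.nil (PF.cons PF.nil (PF.cons PF.nil PF.nil)))))))))))))) (PF.cons (PF.cons (PF.leaf (nat_lit 3424028) (nat_lit 1537884) (nat_lit 49040102) (nat_lit 16530825) [(nat_lit 0), (nat_lit 1537884), (nat_lit 0), (nat_lit 0)]) (PF.cons (PF.leaf (nat_lit 3695620) (nat_lit 474657)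 (nat_lit 48576517) (nat_lit 16478774) [(nat_lit 474657), (nat_lit 1578863), (nat_lit 0), (nat_lit 0)]) (PF.cons (PF.leaf (nat_lit 3994412) (nat_lit 500187) (nat_lit 48071917) (nat_lit 16418931) [(nat_lit 500187), (nat_lit 1617587), (nat_lit 0), (nat_lit 0)]) (PF.cons (PF.leaf (nat_lit 4315249) (nat_lit 522885) (nat_lit 47534892) (nat_lit 16351689) [(nat_lit 522885), (nat_lit 1653573), (nat_lit 0), (nat_lit 0)]) (PF.cons (PF.leaf
 (nat_lit 4654569) (nat_lit 543197) (nat_lit 46971999) (nat_lit 16277372) [(nat_lit 543197), (nat_lit 1686651), (nat_lit 0), (nat_lit 0)]) (PF.cons (PF.leaf (nat_lit 5009419) (nat_lit 561437) (nat_lit 46388523) (nat_lit 16196295) [(nat_lit 561437), (nat_lit 1716804), (nat_lit 0), (nat_lit 0)]) (PF.cons (PF.leaf (nat_lit 5377342) (nat_lit 577845) (nat_lit 45788863) (nat_lit 16108783) [(nat_lit 577845), (nat_lit 1744094), (nat_lit 0), (nat_lit 0)]) (PF.cons (PF.leaf (nat_lit 5756202) (nat_lit 592607) (nat_lit 45176756) (nat_lit 16015182) [(nat_lit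 592607), (nat_lit 1768620), (nat_lit 0), (nat_lit 0)]) (PF.cons (PF.leaf (nat_lit 6144120) (nat_lit 605878) (nat_lit 44555421) (nat_lit 15915856) [(nat_lit 605878), (nat_lit 1790505), (nat_lit 0), (nat_lit 0)]) (PF.cons (PF.leaf (nat_lit 6539488) (nat_lit 617788) (nat_lit 43927650) (nat_lit 15811185) [(nat_lit 617788), (nat_lit 1809882), (nat_lit 0), (nat_lit 0)]) (PF.cons PF.nil (PF.cons PF.nil PF.nil)))))))))))) (PF.cons (PF.cons (PF.leaf (nat_lit 4127901) (nat_lit 1638733) (nat_lit 47490699) (nat_lit 16340645) [(nat_lit 0), (nat_lit 1638733), (nat_lit 0), (nat_lit 0)]) (PF.cons (PF.leaf (nat_lit 4438590) (nat_lit 527516) (nat_lit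
 46967286) (nat_lit 16271381) [(nat_lit 527516), (nat_lit 1671313), (nat_lit 0), (nat_lit 0)]) (PF.cons (PF.leaf (nat_lit 4769378) (nat_lit 547305) (nat_lit 46416272) (nat_lit 16194905) [(nat_lit 547305), (nat_lit 1701512), (nat_lit 0), (nat_lit 0)]) (PF.cons (PF.leaf (nat_lit 5116528) (nat_lit 565008) (nat_lit 45843766) (nat_lit 16111664) [(nat_lit 565008), (nat_lit 1729178), (nat_lit 0), (nat_lit 0)]) (PF.cons (PF.leaf (nat_lit 5477302) (nat_lit 580887) (nat_lit 45254619) (nat_lit 16022068) [(nat_lit 580887), (nat_lit 1754288), (nat_lit 0), (nat_lit 0)]) (PF.cons (PF.leaf (nat_lit 5849404) (nat_lit 595142) (nat_lit 44652818) (nat_lit 15926515) [(nat_lit 595142), (nat_lit 1776883), (nat_lit 0), (nat_lit 0)]) (PF.cons (PF.leaf (nat_lit 6230853) (nat_lit 607932) (nat_lit 44041722) (nat_lit 15825405) [(nat_lit 607932), (nat_lit 1797045), (nat_lit 0), (nat_lit 0)]) (PF.cons (PF.leaf (nat_lit 6619937) (nat_lit 619389) (nat_lit 43424194) (nat_lit 15719138) [(nat_lit 619389),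 (nat_lit 1814876), (nat_lit 0), (nat_lit 0)]) (PF.cons PF.nil (PF.cons PF.nil PF.nil)))))))))) (PF.cons (PF.cons (PF.leaf (nat_lit 4886408) (nat_lit 1714974) (nat_lit 45855671) (nat_lit 16108218) [(nat_lit 0),
 (nat_lit 1714974), (nat_lit 0), (nat_lit 0)]) (PF.cons (PF.leaf (nat_lit 5224486) (nat_lit 567796) (nat_lit 45296750) (nat_lit 16023427) [(nat_lit 567796), (nat_lit 1740279), (nat_lit 0), (nat_lit 0)]) (PF.cons (PF.leaf (nat_lit 5577361) (nat_lit 583270) (nat_lit 44720023) (nat_lit 15932257) [(nat_lit 583270), (nat_lit 1763330), (nat_lit 0), (nat_lit 0)]) (PF.cons (PF.leaf (nat_lit 5942163) (nat_lit 597112) (nat_lit 44129963) (nat_lit 15835191) [(nat_lit 597112), (nat_lit 1784106), (nat_lit 0), (nat_lit 0)]) (PF.cons (PF.leaf (nat_lit 6316768) (nat_lit 609496) (nat_lit 43530202) (nat_lit 15732680) [(nat_lit 609496), (nat_lit 1802647), (nat_lit 0), (nat_lit 0)]) (PF.cons (PF.leaf (nat_lit 6699329) (nat_lit 620563) (nat_lit 42923764) (nat_lit 15625157) [(nat_lit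 620563), (nat_lit 1819025), (nat_lit 0), (nat_lit 0)]) (PF.cons (PF.leaf (nat_lit 7088265) (nat_lit 630428) (nat_lit 42313210) (nat_lit 15513047) [(nat_lit 630428), (nat_lit 1833327), (nat_lit 0), (nat_lit 0)]) (PF.cons PF.nil (PF.cons PF.nil PF.nil))))))))) (PF.cons (PF.cons (PF.leaf (nat_lit 5678656) (nat_lit 1771310) (nat_lit 44184288) (nat_lit 15839283) [(nat_lit 0), (nat_lit 1771310), (nat_lit 0), (nat_lit 0)]) (PF.cons
 (PF.leaf (nat_lit 6035206) (nat_lit 598507) (nat_lit 43607660) (nat_lit 15741196) [(nat_lit 598507), (nat_lit 1790362), (nat_lit 0), (nat_lit 0)]) (PF.cons (PF.leaf (nat_lit 6402448) (nat_lit 610567) (nat_lit 43020487) (nat_lit 15637701) [(nat_lit 610567), (nat_lit 1807372), (nat_lit 0), (nat_lit 0)]) (PF.cons (PF.leaf (nat_lit 6778133) (nat_lit 621308) (nat_lit 42426085) (nat_lit 15529282) [(nat_lit 621308), (nat_lit 1822379), (nat_lit 0), (nat_lit 0)]) (PF.cons (PF.leaf (nat_lit 7160569) (nat_lit 630856) (nat_lit 41827189) (nat_lit 15416395) [(nat_lit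 630856), (nat_lit 1835450), (nat_lit 0), (nat_lit 0)]) (PF.cons PF.nil (PF.cons PF.nil PF.nil))))))) (PF.cons (PF.cons (PF.leaf (nat_lit 6488785) (nat_lit 1811274) (nat_lit 42512003) (nat_lit 15540437) [(nat_lit 0), (nat_lit 1811274), (nat_lit 0), (nat_lit 0)]) (PF.cons (PF.leaf (nat_lit 6856883) (nat_lit 621619) (nat_lit 41930742) (nat_lit 15431515) [(nat_lit 621619), (nat_lit 1824987), (nat_lit 0), (nat_lit 0)]) (PF.cons (PF.leaf (nat_lit 7232473) (nat_lit 630907) (nat_lit 41344324) (nat_lit 15318186) [(nat_lit 630907), (nat_lit 1836897), (nat_lit 0), (nat_lit 0)]) (PF.cons (PF.leaf (nat_lit 7613744) (nat_lit 639110) (nat_lit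
 40755220) (nat_lit 15200912) [(nat_lit 639110), (nat_lit 1847069), (nat_lit 0), (nat_lit 0)]) (PF.cons PF.nil PF.nil))))) (PF.cons (PF.cons (PF.leaf (nat_lit 7304695) (nat_lit 1837705) (nat_lit 40864173) (nat_lit 15218407) [(nat_lit 0), (nat_lit 1837705), (nat_lit 0), (nat_lit 0)]) (PF.cons (PF.leaf (nat_lit 7678968) (nat_lit 638570) (nat_lit 40287786) (nat_lit 15101095) [(nat_lit 638570), (nat_lit 1846893), (nat_lit 0), (nat_lit 0)]) (PF.cons PF.nil (PF.cons PF.nil PF.nil)))) (PF.cons (PF.cons (PF.leaf (nat_lit 8117219) (nat_lit 1852959) (nat_lit 39258546) (nat_lit 14879547) [(nat_lit 0), (nat_lit 1852959), (nat_lit 0), (nat_lit 0)]) (PF.cons PF.nil PF.nil)) (PF.cons PF.nil PF.nil))))))))) (PF.cons (PF.cons (PF.cons (PF.leaf (nat_lit 3974908) (nat_lit 3729708) (nat_lit 47111710) (nat_lit 16267394) [(nat_lit 0), (nat_lit 0), (nat_lit 3729708), (nat_lit 0)]) (PF.cons (PF.leaf (nat_lit 4254449) (nat_lit 500597) (nat_lit 46644060) (nat_lit 16204082) [(nat_lit 500597), (nat_lit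 0), (nat_lit 3760072), (nat_lit 0)]) (PF.cons (PF.leaf (nat_lit 4559280) (nat_lit 523792) (nat_lit 46139403) (nat_lit 16132833) [(nat_lit 523792), (nat_lit 0), (nat_lit 3788990), (nat_lit 0)]) (PF.cons (PF.leaf
 (nat_lit 4884241) (nat_lit 544128) (nat_lit 45606383) (nat_lit 16054352) [(nat_lit 544128), (nat_lit 0), (nat_lit 3815690), (nat_lit 0)]) (PF.cons (PF.leaf (nat_lit 5225734) (nat_lit 562120) (nat_lit 45051414) (nat_lit 15969190) [(nat_lit 562120), (nat_lit 0), (nat_lit 3839726), (nat_lit 0)]) (PF.cons (PF.leaf (nat_lit 5580929) (nat_lit 578118) (nat_lit 44479534) (nat_lit 15877828) [(nat_lit 578118), (nat_lit 0), (nat_lit 3860856), (nat_lit 0)]) (PF.cons (PF.leaf (nat_lit 5947475) (nat_lit 592381) (nat_lit 43894840) (nat_lit 15780711) [(nat_lit 592381), (nat_lit 0), (nat_lit 3878973), (nat_lit 0)]) (PF.cons (PF.leaf (nat_lit 6323362) (nat_lit 605105) (nat_lit 43300749) (nat_lit 15678267) [(nat_lit 605105), (nat_lit 0), (nat_lit 3894054), (nat_lit 0)]) (PF.cons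 (PF.leaf (nat_lit 6706895) (nat_lit 616451) (nat_lit 42700149) (nat_lit 15570915) [(nat_lit 616451), (nat_lit 0), (nat_lit 3906139), (nat_lit 0)]) (PF.cons PF.nil PF.nil)))))))))) (PF.cons (PF.cons (PF.leaf (nat_lit 4684543) (nat_lit 1685910) (nat_lit 45573154) (nat_lit 16044264) [(nat_lit 0), (nat_lit 1685910), (nat_lit 3805483), (nat_lit 0)]) (PF.cons (PF.leaf (nat_lit 4998713) (nat_lit 546679) (nat_lit 45056136) (nat_lit
 15964872) [(nat_lit 546679), (nat_lit 1712600), (nat_lit 3828523), (nat_lit 0)]) (PF.cons (PF.leaf (nat_lit 5331228) (nat_lit 564381) (nat_lit 44515054) (nat_lit 15878591) [(nat_lit 564381), (nat_lit 1737094), (nat_lit 3849309), (nat_lit 0)]) (PF.cons (PF.leaf (nat_lit 5678418) (nat_lit 580038) (nat_lit 43955819) (nat_lit 15786048) [(nat_lit 580038), (nat_lit 1759301), (nat_lit 3867528), (nat_lit 0)]) (PF.cons (PF.leaf (nat_lit 6037627) (nat_lit 593941) (nat_lit 43383019) (nat_lit 15687776) [(nat_lit 593941), (nat_lit 1779232), (nat_lit 3883019),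 (nat_lit 0)]) (PF.cons (PF.leaf (nat_lit 6406658) (nat_lit 606305) (nat_lit 42800353) (nat_lit 15584260) [(nat_lit 606305), (nat_lit 1796943), (nat_lit 3895727), (nat_lit 0)]) (PF.cons (PF.leaf (nat_lit 6783689) (nat_lit 617300) (nat_lit 42210878) (nat_lit 15475952) [(nat_lit 617300), (nat_lit 1812519), (nat_lit 3905662), (nat_lit 0)]) (PF.cons (PF.leaf (nat_lit 7167111) (nat_lit 627060) (nat_lit 41617162) (nat_lit 15363287) [(nat_lit 627060), (nat_lit 1826059), (nat_lit 3912880), (nat_lit 0)]) (PF.cons PF.nil PF.nil))))))))) (PF.cons (PF.cons (PF.leaf (nat_lit 5439279) (nat_lit 1745979) (nat_lit 43975415) (nat_lit 15784449) [(nat_lit 0),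
 (nat_lit 1745979), (nat_lit 3856987), (nat_lit 0)]) (PF.cons (PF.leaf (nat_lit 5777104) (nat_lit 581277) (nat_lit 43431118) (nat_lit 15691318) [(nat_lit 581277), (nat_lit 1766317), (nat_lit 3872463), (nat_lit 0)]) (PF.cons (PF.leaf (nat_lit 6128232) (nat_lit 594933) (nat_lit 42871852) (nat_lit 15592373) [(nat_lit 594933), (nat_lit 1784613), (nat_lit 3885492), (nat_lit 0)]) (PF.cons (PF.leaf (nat_lit 6489897) (nat_lit 607023) (nat_lit 42301819) (nat_lit 15488188) [(nat_lit 607023), (nat_lit 1800878), (nat_lit 3895979), (nat_lit 0)]) (PF.cons (PF.leaf (nat_lit 6860061) (nat_lit 617732) (nat_lit 41724375) (nat_lit 15379270) [(nat_lit 617732), (nat_lit 1815164), (nat_lit 3903905), (nat_lit 0)]) (PF.cons (PF.leaf (nat_lit 7237015) (nat_lit 627210) (nat_lit 41142269) (nat_lit 15266088) [(nat_lit 627210), (nat_lit 1827547), (nat_lit 3909306), (nat_lit 0)]) (PF.cons PF.nil PF.nil))))))) (PF.cons (PF.cons (PF.leaf (nat_lit 6220408) (nat_lit 1789149) (nat_lit 42360486) (nat_lit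 15494403) [(nat_lit 0), (nat_lit 1789149), (nat_lit 3886476), (nat_lit 0)]) (PF.cons (PF.leaf (nat_lit 6573740) (nat_lit 607238) (nat_lit 41804556) (nat_lit 15390007) [(nat_lit 607238), (nat_lit 1804041), (nat_lit
 3894884), (nat_lit 0)]) (PF.cons (PF.leaf (nat_lit 6936545) (nat_lit 617739) (nat_lit 41240210) (nat_lit 15280859) [(nat_lit 617739), (nat_lit 1817109), (nat_lit 3900936), (nat_lit 0)]) (PF.cons (PF.leaf (nat_lit 7306683) (nat_lit 626994) (nat_lit 40670502) (nat_lit 15167481) [(nat_lit 626994), (nat_lit 1828401), (nat_lit 3904641), (nat_lit 0)]) (PF.cons (PF.leaf (nat_lit 7682567) (nat_lit 635135) (nat_lit 40097908) (nat_lit 15050344) [(nat_lit 635135), (nat_lit 1837989), (nat_lit 3906052), (nat_lit 0)]) PF.nil))))) (PF.cons (PF.cons (PF.leaf (nat_lit 7013994) (nat_lit 1818392) (nat_lit 40757772) (nat_lit 15180661) [(nat_lit 0), (nat_lit 1818392), (nat_lit 3896809), (nat_lit 0)]) (PF.cons (PF.leaf (nat_lit 7376615) (nat_lit 626399) (nat_lit 40201411) (nat_lit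 15067443) [(nat_lit 626399), (nat_lit 1828655), (nat_lit 3898937), (nat_lit 0)]) (PF.cons (PF.leaf (nat_lit 7745761) (nat_lit 634367) (nat_lit 39641395) (nat_lit 14950475) [(nat_lit 634367), (nat_lit 1837320), (nat_lit 3898924), (nat_lit 0)]) (PF.cons PF.nil PF.nil)))) (PF.cons (PF.cons (PF.leaf (nat_lit 7809570) (nat_lit 1836136) (nat_lit 39187787) (nat_lit 14849437) [(nat_lit 0), (nat_lit 1836136), (nat_lit 3890907),
 (nat_lit 0)]) (PF.cons (PF.leaf (nat_lit 8176707) (nat_lit 640088) (nat_lit 38638966) (nat_lit 14729676) [(nat_lit 640088), (nat_lit 1842490), (nat_lit 3887627), (nat_lit 0)]) PF.nil)) (PF.cons PF.nil (PF.cons PF.nil PF.nil)))))))) (PF.cons (PF.cons (PF.cons (PF.leaf (nat_lit 5224287) (nat_lit 3829927) (nat_lit 43726284) (nat_lit 15722672) [(nat_lit 0), (nat_lit 0), (nat_lit 3829927), (nat_lit 0)]) (PF.cons (PF.leaf (nat_lit 5539746) (nat_lit 560990) (nat_lit 43221028) (nat_lit 15635534) [(nat_lit 560990), (nat_lit 0), (nat_lit 3845630), (nat_lit 0)])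 (PF.cons (PF.leaf (nat_lit 5872042) (nat_lit 576883) (nat_lit 42694691) (nat_lit 15541906) [(nat_lit 576883), (nat_lit 0), (nat_lit 3859224), (nat_lit 0)]) (PF.cons (PF.leaf (nat_lit 6217557) (nat_lit 590780) (nat_lit 42152932) (nat_lit 15442544) [(nat_lit 590780), (nat_lit 0), (nat_lit 3870497), (nat_lit 0)]) (PF.cons (PF.leaf (nat_lit 6573730) (nat_lit 602992) (nat_lit 41600065) (nat_lit 15338065) [(nat_lit 602992), (nat_lit 0), (nat_lit 3879357), (nat_lit 0)]) (PF.cons (PF.leaf (nat_lit 6938476) (nat_lit 613745) (nat_lit 41039509) (nat_lit 15229005) [(nat_lit 613745), (nat_lit 0), (nat_lit 3885784), (nat_lit 0)]) (PF.cons (PF.leaf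
 (nat_lit 7310089) (nat_lit 623215) (nat_lit 40474048) (nat_lit 15115847) [(nat_lit 623215), (nat_lit 0), (nat_lit 3889812), (nat_lit 0)]) (PF.cons PF.nil (PF.cons PF.nil PF.nil))))))))) (PF.cons (PF.cons (PF.leaf (nat_lit 5971480) (nat_lit 1765311) (nat_lit 42178772) (nat_lit 15442767) [(nat_lit 0), (nat_lit 1765311), (nat_lit 3860980), (nat_lit 0)]) (PF.cons (PF.leaf (nat_lit 6307504) (nat_lit 590788) (nat_lit 41652644) (nat_lit 15343615) [(nat_lit 590788), (nat_lit 1781539), (nat_lit 3870112), (nat_lit 0)]) (PF.cons (PF.leaf (nat_lit 6655535) (nat_lit 602878) (nat_lit 41113850) (nat_lit 15239202) [(nat_lit 602878), (nat_lit 1795907), (nat_lit 3877047), (nat_lit 0)]) (PF.cons (PF.leaf (nat_lit 7012919) (nat_lit 613466) (nat_lit 40566324) (nat_lit 15130160) [(nat_lit 613466), (nat_lit 1808449), (nat_lit 3881740), (nat_lit 0)]) (PF.cons (PF.leaf (nat_lit 7377733) (nat_lit 622748) (nat_lit 40013159) (nat_lit 15017029) [(nat_lit 622748), (nat_lit 1819229), (nat_lit 3884201),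 (nat_lit 0)]) (PF.cons (PF.leaf (nat_lit 7748362) (nat_lit 630876) (nat_lit 39456854) (nat_lit 14900290) [(nat_lit 630876), (nat_lit 1828326), (nat_lit 3884480), (nat_lit 0)]) (PF.cons PF.nil PF.nil)))))))
 (PF.cons (PF.cons (PF.leaf (nat_lit 6739180) (nat_lit 1797719) (nat_lit 40628037) (nat_lit 15138261) [(nat_lit 0), (nat_lit 1797719), (nat_lit 3873537), (nat_lit 0)]) (PF.cons (PF.leaf (nat_lit 7088260) (nat_lit 612741) (nat_lit 40094836) (nat_lit 15029661) [(nat_lit 612741), (nat_lit 1809170), (nat_lit 3876616), (nat_lit 0)]) (PF.cons (PF.leaf (nat_lit 7445782) (nat_lit 621907) (nat_lit 39554890) (nat_lit 14916902) [(nat_lit 621907), (nat_lit 1818981), (nat_lit 3877621), (nat_lit 0)]) (PF.cons (PF.leaf (nat_lit 7809710) (nat_lit 629895) (nat_lit 39011009) (nat_lit 14800522) [(nat_lit 629895), (nat_lit 1827210), (nat_lit 3876586), (nat_lit 0)]) (PF.cons PF.nil PF.nil))))) (PF.cons (PF.cons (PF.leaf (nat_lit 7515071) (nat_lit 1818196) (nat_lit 39098615) (nat_lit 14815385)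 [(nat_lit 0), (nat_lit 1818196), (nat_lit 3870111), (nat_lit 0)]) (PF.cons (PF.leaf (nat_lit 7871604) (nat_lit 628580) (nat_lit 38567989) (nat_lit 14699687) [(nat_lit 628580), (nat_lit 1825610), (nat_lit 3867862), (nat_lit 0)]) (PF.cons (PF.leaf (nat_lit 8233867) (nat_lit 635424) (nat_lit 38034841) (nat_lit 14580807) [(nat_lit 635424), (nat_lit 1831601), (nat_lit 3863754), (nat_lit 0)]) (PF.cons PF.nil PF.nil))))
 (PF.cons (PF.cons (PF.leaf (nat_lit 8290041) (nat_lit 1828852) (nat_lit 37607186) (nat_lit 14479763) [(nat_lit 0), (nat_lit 1828852), (nat_lit 3853225), (nat_lit 0)]) (PF.cons (PF.leaf (nat_lit 8649777) (nat_lit 639536) (nat_lit 37085857) (nat_lit 14359058) [(nat_lit 639536), (nat_lit 1832877), (nat_lit 3846425), (nat_lit 0)]) PF.nil)) (PF.cons PF.nil PF.nil)))))) (PF.cons (PF.cons (PF.cons (PF.leaf (nat_lit 6482897) (nat_lit 3849442) (nat_lit 40470267) (nat_lit 15090218) [(nat_lit 0), (nat_lit 0), (nat_lit 3849442), (nat_lit 0)]) (PF.cons (PF.leaf (nat_lit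 6815921) (nat_lit 597073) (nat_lit 39964461) (nat_lit 14986986) [(nat_lit 597073), (nat_lit 0), (nat_lit 3853430), (nat_lit 0)]) (PF.cons (PF.leaf (nat_lit 7159886) (nat_lit 607807) (nat_lit 39447864) (nat_lit 14879012) [(nat_lit 607807), (nat_lit 0), (nat_lit 3855440), (nat_lit 0)]) (PF.cons (PF.leaf (nat_lit 7512198) (nat_lit 617102) (nat_lit 38924149) (nat_lit 14766962) [(nat_lit 617102), (nat_lit 0), (nat_lit 3855464), (nat_lit 0)]) (PF.cons (PF.leaf (nat_lit 7871028) (nat_lit 625161) (nat_lit 38396165) (nat_lit 14651392) [(nat_lit 625161), (nat_lit 0), (nat_lit 3853536), (nat_lit 0)]) (PF.cons PF.nil (PF.cons PF.nil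
 PF.nil))))))) (PF.cons (PF.cons (PF.leaf (nat_lit 7235607) (nat_lit 1798924) (nat_lit 38987852) (nat_lit 14776701) [(nat_lit 0), (nat_lit 1798924), (nat_lit 3848444), (nat_lit 0)]) (PF.cons (PF.leaf (nat_lit 7579708) (nat_lit 615629) (nat_lit 38478372) (nat_lit 14665608) [(nat_lit 615629), (nat_lit 1807517), (nat_lit 3847228), (nat_lit 0)]) (PF.cons (PF.leaf (nat_lit 7931375) (nat_lit 623646) (nat_lit 37963461) (nat_lit 14550880) [(nat_lit 623646), (nat_lit 1814629), (nat_lit 3844182), (nat_lit 0)]) (PF.cons (PF.leaf (nat_lit 8288661) (nat_lit 630550) (nat_lit 37445704) (nat_lit 14433061) [(nat_lit 630550), (nat_lit 1820328), (nat_lit 3839355), (nat_lit 0)]) (PF.cons PF.nil PF.nil))))) (PF.cons (PF.cons (PF.leaf (nat_lit 7993181) (nat_lit 1812213) (nat_lit 37532864) (nat_lit 14449295) [(nat_lit 0), (nat_lit 1812213), (nat_lit 3834075), (nat_lit 0)]) (PF.cons (PF.leaf (nat_lit 8343242) (nat_lit 628664) (nat_lit 37028064) (nat_lit 14332558) [(nat_lit 628664), (nat_lit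 1817270), (nat_lit 3828328), (nat_lit 0)]) (PF.cons (PF.leaf (nat_lit 8698365) (nat_lit 634546) (nat_lit 36521594) (nat_lit 14213126) [(nat_lit 634546), (nat_lit 1821056), (nat_lit 3820961), (nat_lit 0)]) (PF.cons
 PF.nil PF.nil)))) (PF.cons (PF.cons (PF.leaf (nat_lit 8747625) (nat_lit 1817083) (nat_lit 36118934) (nat_lit 14113023) [(nat_lit 0), (nat_lit 1817083), (nat_lit 3808535), (nat_lit 0)]) (PF.cons PF.nil PF.nil)) (PF.cons PF.nil PF.nil))))) (PF.cons (PF.cons (PF.cons (PF.leaf (nat_lit 7710568) (nat_lit 3813991) (nat_lit 37438578) (nat_lit 14414267) [(nat_lit 0), (nat_lit 0), (nat_lit 3813991), (nat_lit 0)]) (PF.cons (PF.leaf (nat_lit 8049156) (nat_lit 616395) (nat_lit 36953079) (nat_lit 14302051) [(nat_lit 616395), (nat_lit 0), (nat_lit 3809321), (nat_lit 0)]) (PF.cons (PF.leaf (nat_lit 8394596) (nat_lit 623422) (nat_lit 36463181) (nat_lit 14186659) [(nat_lit 623422), (nat_lit 0), (nat_lit 3803031), (nat_lit 0)]) (PF.cons (PF.leaf (nat_lit 8745003) (nat_lit 629395)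 (nat_lit 35971266) (nat_lit 14068629) [(nat_lit 629395), (nat_lit 0), (nat_lit 3795182), (nat_lit 0)]) (PF.cons PF.nil PF.nil))))) (PF.cons (PF.cons (PF.leaf (nat_lit 8449579) (nat_lit 1801664) (nat_lit 36057386) (nat_lit 14085953) [(nat_lit 0), (nat_lit 1801664), (nat_lit 3790952), (nat_lit 0)]) (PF.cons (PF.leaf (nat_lit 8792946) (nat_lit 627059) (nat_lit 35577997) (nat_lit 13969308) [(nat_lit 627059), (nat_lit 1804769),
 (nat_lit 3782419), (nat_lit 0)]) (PF.cons PF.nil (PF.cons PF.nil PF.nil)))) (PF.cons (PF.cons (PF.leaf (nat_lit 9183820) (nat_lit 1801812) (nat_lit 34718727) (nat_lit 13751919) [(nat_lit 0), (nat_lit 1801812), (nat_lit 3758635), (nat_lit 0)]) (PF.cons PF.nil PF.nil)) PF.nil))) (PF.cons (PF.cons (PF.cons (PF.leaf (nat_lit 8885568) (nat_lit 3742526) (nat_lit 34668156) (nat_lit 13728021) [(nat_lit 0), (nat_lit 0), (nat_lit 3742526), (nat_lit 0)]) (PF.cons (PF.leaf (nat_lit 9222118) (nat_lit 624097) (nat_lit 34213424) (nat_lit 13612340) [(nat_lit 624097),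 (nat_lit 0), (nat_lit 3731790), (nat_lit 0)]) PF.nil)) (PF.cons PF.nil PF.nil)) (PF.cons PF.nil (PF.cons PF.nil PF.nil)))))))) (PF.cons (PF.cons (PF.cons (PF.cons (PF.leaf (nat_lit 4760234) (nat_lit 8569596) (nat_lit 43032209) (nat_lit 15507007) [(nat_lit 0), (nat_lit 0), (nat_lit 0), (nat_lit 8569596)]) (PF.cons (PF.leaf (nat_lit 5035149) (nat_lit 508368) (nat_lit 42608465) (nat_lit 15434243) [(nat_lit 508368), (nat_lit 0), (nat_lit 0), (nat_lit 8557735)]) (PF.cons (PF.leaf (nat_lit 5333332) (nat_lit 529615) (nat_lit 42153140) (nat_lit 15353858) [(nat_lit 529615), (nat_lit 0), (nat_lit 0), (nat_lit 8542583)]) (PF.cons (PF.leaf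
 (nat_lit 5649623) (nat_lit 547902) (nat_lit 41674149) (nat_lit 15266888) [(nat_lit 547902), (nat_lit 0), (nat_lit 0), (nat_lit 8524068)]) (PF.cons (PF.leaf (nat_lit 5980531) (nat_lit 563810) (nat_lit 41177282) (nat_lit 15174108) [(nat_lit 563810), (nat_lit 0), (nat_lit 0), (nat_lit 8502180)]) (PF.cons (PF.leaf (nat_lit 6323335) (nat_lit 577739) (nat_lit 40667002) (nat_lit 15076149) [(nat_lit 577739), (nat_lit 0), (nat_lit 0), (nat_lit 8476962)]) (PF.cons (PF.leaf (nat_lit 6675814) (nat_lit 589979) (nat_lit 40146880) (nat_lit 14973556) [(nat_lit 589979), (nat_lit 0), (nat_lit 0), (nat_lit 8448498)]) (PF.cons (PF.leaf (nat_lit 7036157) (nat_lit 600751) (nat_lit 39619837) (nat_lit 14866813) [(nat_lit 600751), (nat_lit 0), (nat_lit 0), (nat_lit 8416903)]) (PF.cons (PF.leaf (nat_lit 7402781) (nat_lit 610228) (nat_lit 39088305) (nat_lit 14756361) [(nat_lit 610228), (nat_lit 0), (nat_lit 0), (nat_lit 8382315)]) (PF.cons PF.nil PF.nil)))))))))) (PF.cons (PF.cons (PF.leaf (nat_lit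 5445149) (nat_lit 1684921) (nat_lit 41649613) (nat_lit 15257890) [(nat_lit 0), (nat_lit 1684921), (nat_lit 0), (nat_lit 8516387)]) (PF.cons (PF.leaf (nat_lit 5750427) (nat_lit 548616) (nat_lit 41186451) (nat_lit
 15171413) [(nat_lit 548616), (nat_lit 1706205), (nat_lit 0), (nat_lit 8496125)]) (PF.cons (PF.leaf (nat_lit 6072241) (nat_lit 564392) (nat_lit 40703299) (nat_lit 15078830) [(nat_lit 564392), (nat_lit 1725351), (nat_lit 0), (nat_lit 8472546)]) (PF.cons (PF.leaf (nat_lit 6407030) (nat_lit 578126) (nat_lit 40205423) (nat_lit 14980926) [(nat_lit 578126), (nat_lit 1742360), (nat_lit 0), (nat_lit 8445723)]) (PF.cons (PF.leaf (nat_lit 6752263) (nat_lit 590143) (nat_lit 39696844) (nat_lit 14878336) [(nat_lit 590143), (nat_lit 1757298), (nat_lit 0), (nat_lit 8415759)]) (PF.cons (PF.leaf (nat_lit 7105913) (nat_lit 600681) (nat_lit 39180756) (nat_lit 14771601) [(nat_lit 600681), (nat_lit 1770264), (nat_lit 0), (nat_lit 8382781)]) (PF.cons (PF.leaf (nat_lit 7466287) (nat_lit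 609926) (nat_lit 38659756) (nat_lit 14661198) [(nat_lit 609926), (nat_lit 1781365), (nat_lit 0), (nat_lit 8346931)]) (PF.cons (PF.leaf (nat_lit 7831954) (nat_lit 618025) (nat_lit 38135992) (nat_lit 14547556) [(nat_lit 618025), (nat_lit 1790714), (nat_lit 0), (nat_lit 8308368)]) (PF.cons PF.nil PF.nil))))))))) (PF.cons (PF.cons (PF.leaf (nat_lit 6166806) (nat_lit 1729847) (nat_lit 40227262) (nat_lit 14981005) [(nat_lit 0),
 (nat_lit 1729847), (nat_lit 0), (nat_lit 8440851)]) (PF.cons (PF.leaf (nat_lit 6492288) (nat_lit 577932) (nat_lit 39743658) (nat_lit 14883681) [(nat_lit 577932), (nat_lit 1745421), (nat_lit 0), (nat_lit 8412698)]) (PF.cons (PF.leaf (nat_lit 6829581) (nat_lit 589831) (nat_lit 39247934) (nat_lit 14781504) [(nat_lit 589831), (nat_lit 1759121), (nat_lit 0), (nat_lit 8381468)]) (PF.cons (PF.leaf (nat_lit 7176062) (nat_lit 600214) (nat_lit 38743745) (nat_lit 14675108) [(nat_lit 600214), (nat_lit 1771002), (nat_lit 0), (nat_lit 8347309)]) (PF.cons (PF.leaf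 (nat_lit 7529848) (nat_lit 609287) (nat_lit 38233968) (nat_lit 14565027) [(nat_lit 609287), (nat_lit 1781145), (nat_lit 0), (nat_lit 8310375)]) (PF.cons (PF.leaf (nat_lit 7889375) (nat_lit 617208) (nat_lit 37720925) (nat_lit 14451726) [(nat_lit 617208), (nat_lit 1789642), (nat_lit 0), (nat_lit 8270830)]) (PF.cons PF.nil PF.nil))))))) (PF.cons (PF.cons (PF.leaf (nat_lit 6908824) (nat_lit 1760319) (nat_lit 38799321) (nat_lit 14682920) [(nat_lit 0), (nat_lit 1760319), (nat_lit 0), (nat_lit 8345612)]) (PF.cons (PF.leaf (nat_lit 7247222) (nat_lit 599327) (nat_lit 38308216) (nat_lit 14577250) [(nat_lit 599327), (nat_lit 1771175), (nat_lit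
 0), (nat_lit 8310492)]) (PF.cons (PF.leaf (nat_lit 7593948) (nat_lit 608297) (nat_lit 37810505) (nat_lit 14467801) [(nat_lit 608297), (nat_lit 1780416), (nat_lit 0), (nat_lit 8272662)]) (PF.cons (PF.leaf (nat_lit 7947002) (nat_lit 616093) (nat_lit 37308796) (nat_lit 14355096) [(nat_lit 616093), (nat_lit 1788113), (nat_lit 0), (nat_lit 8232298)]) (PF.cons (PF.leaf (nat_lit 8304934) (nat_lit 622856) (nat_lit 36805176) (nat_lit 14239588) [(nat_lit 622856), (nat_lit 1794348), (nat_lit 0), (nat_lit 8189577)]) PF.nil))))) (PF.cons (PF.cons (PF.leaf (nat_lit 7659398) (nat_lit 1779204) (nat_lit 37388779) (nat_lit 14369429) [(nat_lit 0), (nat_lit 1779204), (nat_lit 0), (nat_lit 8233787)]) (PF.cons (PF.leaf (nat_lit 8005294) (nat_lit 614665) (nat_lit 36899162) (nat_lit 14257609) [(nat_lit 614665), (nat_lit 1786148), (nat_lit 0), (nat_lit 8192781)]) (PF.cons (PF.leaf (nat_lit 8356888) (nat_lit 621342) (nat_lit 36406863) (nat_lit 14142932) [(nat_lit 621342), (nat_lit 1791714), (nat_lit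 0), (nat_lit 8149476)]) (PF.cons PF.nil PF.nil)))) (PF.cons (PF.cons (PF.leaf (nat_lit 8409840) (nat_lit 1788707) (nat_lit 36011147) (nat_lit 14045592) [(nat_lit 0), (nat_lit 1788707), (nat_lit 0), (nat_lit
 8108538)]) (PF.cons (PF.leaf (nat_lit 8759154) (nat_lit 625235) (nat_lit 35529265) (nat_lit 13929524) [(nat_lit 625235), (nat_lit 1792409), (nat_lit 0), (nat_lit 8062740)]) PF.nil)) (PF.cons PF.nil (PF.cons PF.nil PF.nil)))))))) (PF.cons (PF.cons (PF.cons (PF.leaf (nat_lit 5944735) (nat_lit 3756845) (nat_lit 40021829) (nat_lit 14923507) [(nat_lit 0), (nat_lit 0), (nat_lit 3756845), (nat_lit 8406630)]) (PF.cons (PF.leaf (nat_lit 6249760) (nat_lit 558211) (nat_lit 39572254) (nat_lit 14832664) [(nat_lit 558211), (nat_lit 0), (nat_lit 3765104), (nat_lit 8380577)]) (PF.cons (PF.leaf (nat_lit 6570046) (nat_lit 572422) (nat_lit 39105031) (nat_lit 14736120) [(nat_lit 572422), (nat_lit 0), (nat_lit 3771448), (nat_lit 8351368)]) (PF.cons (PF.leaf (nat_lit 6902129) (nat_lit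 584663) (nat_lit 38625151) (nat_lit 14634725) [(nat_lit 584663), (nat_lit 0), (nat_lit 3775777), (nat_lit 8319166)]) (PF.cons (PF.leaf (nat_lit 7243568) (nat_lit 595270) (nat_lit 38136375) (nat_lit 14529152) [(nat_lit 595270), (nat_lit 0), (nat_lit 3778067), (nat_lit 8284137)]) (PF.cons (PF.leaf (nat_lit 7592435) (nat_lit 604483) (nat_lit 37641646) (nat_lit 14419956) [(nat_lit 604483), (nat_lit 0), (nat_lit 3778347),
 (nat_lit 8246443)]) (PF.cons (PF.leaf (nat_lit 7947153) (nat_lit 612489) (nat_lit 37143329) (nat_lit 14307619) [(nat_lit 612489), (nat_lit 0), (nat_lit 3776675), (nat_lit 8206253)]) (PF.cons PF.nil (PF.cons PF.nil PF.nil))))))))) (PF.cons (PF.cons (PF.leaf (nat_lit 6657013) (nat_lit 1737706) (nat_lit 38651844) (nat_lit 14636434) [(nat_lit 0), (nat_lit 1737706), (nat_lit 3767424), (nat_lit 8315402)]) (PF.cons (PF.leaf (nat_lit 6979801) (nat_lit 583557) (nat_lit 38186425) (nat_lit 14536145) [(nat_lit 583557), (nat_lit 1750045), (nat_lit 3770257), (nat_lit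 8282380)]) (PF.cons (PF.leaf (nat_lit 7313352) (nat_lit 594146) (nat_lit 37710606) (nat_lit 14431465) [(nat_lit 594146), (nat_lit 1760685), (nat_lit 3771211), (nat_lit 8246551)]) (PF.cons (PF.leaf (nat_lit 7655152) (nat_lit 603291) (nat_lit 37227798) (nat_lit 14323049) [(nat_lit 603291), (nat_lit 1769690), (nat_lit 3770293), (nat_lit 8208106)]) (PF.cons (PF.leaf (nat_lit 8003410) (nat_lit 611200) (nat_lit 36740650) (nat_lit 14211439) [(nat_lit 611200), (nat_lit 1777145), (nat_lit 3767545), (nat_lit 8167229)]) (PF.cons (PF.leaf (nat_lit 8356657) (nat_lit 618032) (nat_lit 36251279) (nat_lit 14097097) [(nat_lit 618032), (nat_lit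
 1783142), (nat_lit 3763034), (nat_lit 8124095)]) (PF.cons PF.nil PF.nil))))))) (PF.cons (PF.cons (PF.leaf (nat_lit 7385290) (nat_lit 1759934) (nat_lit 37285430) (nat_lit 14332349) [(nat_lit 0), (nat_lit 1759934), (nat_lit 3763489), (nat_lit 8207675)]) (PF.cons (PF.leaf (nat_lit 7719110) (nat_lit 601720) (nat_lit 36815604) (nat_lit 14225072) [(nat_lit 601720), (nat_lit 1768130), (nat_lit 3761470), (nat_lit 8168682)]) (PF.cons (PF.leaf (nat_lit 8060441) (nat_lit 609599) (nat_lit 36340372) (nat_lit 14114471) [(nat_lit 609599), (nat_lit 1774874), (nat_lit 3757735), (nat_lit 8127285)]) (PF.cons (PF.leaf (nat_lit 8407371) (nat_lit 616370) (nat_lit 35862134) (nat_lit 14001068) [(nat_lit 616370), (nat_lit 1780239), (nat_lit 3752337), (nat_lit 8083681)]) (PF.cons PF.nil PF.nil))))) (PF.cons (PF.cons (PF.leaf (nat_lit 8119032) (nat_lit 1772207) (nat_lit 35941910) (nat_lit 14016611) [(nat_lit 0), (nat_lit 1772207), (nat_lit 3747262), (nat_lit 8086404)]) (PF.cons (PF.leaf (nat_lit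 8458965) (nat_lit 614428) (nat_lit 35475482) (nat_lit 13904412) [(nat_lit 614428), (nat_lit 1776981), (nat_lit 3741058), (nat_lit 8042486)]) (PF.cons (PF.leaf (nat_lit 8803969) (nat_lit 620200) (nat_lit 35007150)
 (nat_lit 13789771) [(nat_lit 620200), (nat_lit 1780523), (nat_lit 3733346), (nat_lit 7996574)]) (PF.cons PF.nil PF.nil)))) (PF.cons (PF.cons (PF.leaf (nat_lit 8850592) (nat_lit 1776435) (nat_lit 34634044) (nat_lit 13693744) [(nat_lit 0), (nat_lit 1776435), (nat_lit 3720844), (nat_lit 7954438)]) (PF.cons PF.nil PF.nil)) (PF.cons PF.nil PF.nil)))))) (PF.cons (PF.cons (PF.cons (PF.leaf (nat_lit 7128513) (nat_lit 3741109) (nat_lit 37157514) (nat_lit 14289697) [(nat_lit 0), (nat_lit 0), (nat_lit 3741109), (nat_lit 8179380)]) (PF.cons (PF.leaf (nat_lit 7447804) (nat_lit 586779) (nat_lit 36711246) (nat_lit 14187736) [(nat_lit 586779), (nat_lit 0), (nat_lit 3740213), (nat_lit 8142624)]) (PF.cons (PF.leaf (nat_lit 7776984) (nat_lit 596231) (nat_lit 36255990) (nat_lit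 14081804) [(nat_lit 596231), (nat_lit 0), (nat_lit 3737621), (nat_lit 8103311)]) (PF.cons (PF.leaf (nat_lit 8113607) (nat_lit 604307) (nat_lit 35794925) (nat_lit 13972567) [(nat_lit 604307), (nat_lit 0), (nat_lit 3733365), (nat_lit 8061664)]) (PF.cons (PF.leaf (nat_lit 8455971) (nat_lit 611216) (nat_lit 35330494) (nat_lit 13860564) [(nat_lit 611216), (nat_lit 0), (nat_lit 3727501), (nat_lit 8017884)]) (PF.cons PF.nil (PF.cons
 PF.nil PF.nil))))))) (PF.cons (PF.cons (PF.leaf (nat_lit 7842173) (nat_lit 1754340) (nat_lit 35853825) (nat_lit 13983135) [(nat_lit 0), (nat_lit 1754340), (nat_lit 3727575), (nat_lit 8062361)]) (PF.cons (PF.leaf (nat_lit 8170958) (nat_lit 602195) (nat_lit 35405463) (nat_lit 13875354) [(nat_lit 602195), (nat_lit 1760321), (nat_lit 3722490), (nat_lit 8020497)]) (PF.cons (PF.leaf (nat_lit 8506554) (nat_lit 609131) (nat_lit 34952646) (nat_lit 13764648) [(nat_lit 609131), (nat_lit 1764990), (nat_lit 3715882), (nat_lit 7976501)]) (PF.cons (PF.leaf (nat_lit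 8847128) (nat_lit 615021) (nat_lit 34497587) (nat_lit 13651530) [(nat_lit 615021), (nat_lit 1768422), (nat_lit 3707814), (nat_lit 7930578)]) (PF.cons PF.nil PF.nil))))) (PF.cons (PF.cons (PF.leaf (nat_lit 8558873) (nat_lit 1761181) (nat_lit 34576609) (nat_lit 13668039) [(nat_lit 0), (nat_lit 1761181), (nat_lit 3703722), (nat_lit 7934357)]) (PF.cons (PF.leaf (nat_lit 8892629) (nat_lit 612673) (nat_lit 34132968) (nat_lit 13556364) [(nat_lit 612673), (nat_lit 1764153), (nat_lit 3695057), (nat_lit 7888383)]) (PF.cons PF.nil (PF.cons PF.nil PF.nil)))) (PF.cons (PF.cons (PF.leaf (nat_lit 9271820) (nat_lit 1761092) (nat_lit 33336430)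
 (nat_lit 13348428) [(nat_lit 0), (nat_lit 1761092), (nat_lit 3671377), (nat_lit 7797922)]) (PF.cons PF.nil PF.nil)) (PF.cons PF.nil PF.nil))))) (PF.cons (PF.cons (PF.cons (PF.leaf (nat_lit 8280371) (nat_lit 3685582) (nat_lit 34501752) (nat_lit 13637973) [(nat_lit 0), (nat_lit 0), (nat_lit 3685582), (nat_lit 7912338)]) (PF.cons (PF.leaf (nat_lit 8603790) (nat_lit 601112) (nat_lit 34074614) (nat_lit 13530558) [(nat_lit 601112), (nat_lit 0), (nat_lit 3678035), (nat_lit 7868420)]) (PF.cons (PF.leaf (nat_lit 8933442) (nat_lit 607232) (nat_lit 33643779) (nat_lit 13420565) [(nat_lit 607232), (nat_lit 0), (nat_lit 3669132), (nat_lit 7822607)]) (PF.cons PF.nil PF.nil)))) (PF.cons (PF.cons (PF.leaf (nat_lit 8980039) (nat_lit 1746987) (nat_lit 33289144) (nat_lit 13325756) [(nat_lit 0), (nat_lit 1746987), (nat_lit 3655712), (nat_lit 7779786)]) (PF.cons (PF.leaf (nat_lit 9307520) (nat_lit 609696) (nat_lit 32867614) (nat_lit 13215302) [(nat_lit 609696), (nat_lit 1748463), (nat_lit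 3645096), (nat_lit 7732446)]) PF.nil)) (PF.cons PF.nil PF.nil))) (PF.cons (PF.cons (PF.cons (PF.leaf (nat_lit 9383658) (nat_lit 3604448) (nat_lit 32075420) (nat_lit 12991244) [(nat_lit 0), (nat_lit 0), (nat_lit
 3604448), (nat_lit 7624355)]) (PF.cons PF.nil PF.nil)) (PF.cons PF.nil PF.nil)) (PF.cons PF.nil PF.nil)))))) (PF.cons (PF.cons (PF.cons (PF.cons (PF.leaf (nat_lit 6593192) (nat_lit 8075773) (nat_lit 36808313) (nat_lit 14148951) [(nat_lit 0), (nat_lit 0), (nat_lit 0), (nat_lit 8075773)]) (PF.cons (PF.leaf (nat_lit 6887588) (nat_lit 550932) (nat_lit 36409073) (nat_lit 14058681) [(nat_lit 550932), (nat_lit 0), (nat_lit 0), (nat_lit 8045063)]) (PF.cons (PF.leaf (nat_lit 7195997) (nat_lit 563783) (nat_lit 35994804) (nat_lit 13963373) [(nat_lit 563783), (nat_lit 0), (nat_lit 0), (nat_lit 8011534)]) (PF.cons (PF.leaf (nat_lit 7515076) (nat_lit 574713) (nat_lit 35569900) (nat_lit 13863904) [(nat_lit 574713), (nat_lit 0), (nat_lit 0), (nat_lit 7975433)]) (PF.cons (PF.leaf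 (nat_lit 7842522) (nat_lit 584068) (nat_lit 35137637) (nat_lit 13760951) [(nat_lit 584068), (nat_lit 0), (nat_lit 0), (nat_lit 7936974)]) (PF.cons (PF.leaf (nat_lit 8176535) (nat_lit 592098) (nat_lit 34700557) (nat_lit 13655061) [(nat_lit 592098), (nat_lit 0), (nat_lit 0), (nat_lit 7896349)]) (PF.cons (PF.leaf (nat_lit 8515650) (nat_lit 598993) (nat_lit 34260684) (nat_lit 13546694) [(nat_lit 598993), (nat_lit 0), (nat_lit
 0), (nat_lit 7853737)]) (PF.cons PF.nil (PF.cons PF.nil PF.nil))))))))) (PF.cons (PF.cons (PF.leaf (nat_lit 7272720) (nat_lit 1699888) (nat_lit 35596603) (nat_lit 13866714) [(nat_lit 0), (nat_lit 1699888), (nat_lit 0), (nat_lit 7972803)]) (PF.cons (PF.leaf (nat_lit 7582784) (nat_lit 572863) (nat_lit 35184779) (nat_lit 13768838) [(nat_lit 572863), (nat_lit 1709414), (nat_lit 0), (nat_lit 7936458)]) (PF.cons (PF.leaf (nat_lit 7902658) (nat_lit 582277) (nat_lit 34764188) (nat_lit 13667229) [(nat_lit 582277), (nat_lit 1717381), (nat_lit 0), (nat_lit 7897729)])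 (PF.cons (PF.leaf (nat_lit 8229928) (nat_lit 590310) (nat_lit 34337794) (nat_lit 13562531) [(nat_lit 590310), (nat_lit 1723876), (nat_lit 0), (nat_lit 7856839)]) (PF.cons (PF.leaf (nat_lit 8562926) (nat_lit 597174) (nat_lit 33907881) (nat_lit 13455266) [(nat_lit 597174), (nat_lit 1728995), (nat_lit 0), (nat_lit 7813985)]) (PF.cons PF.nil (PF.cons PF.nil PF.nil))))))) (PF.cons (PF.cons (PF.leaf (nat_lit 7965178) (nat_lit 1714974) (nat_lit 34391292) (nat_lit 13572482) [(nat_lit 0), (nat_lit 1714974), (nat_lit 0), (nat_lit 7857544)]) (PF.cons (PF.leaf (nat_lit 8284810) (nat_lit 588192) (nat_lit 33976481) (nat_lit 13469286)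
 [(nat_lit 588192), (nat_lit 1720865), (nat_lit 0), (nat_lit 7816561)]) (PF.cons (PF.leaf (nat_lit 8611254) (nat_lit 595087) (nat_lit 33557152) (nat_lit 13363359) [(nat_lit 595087), (nat_lit 1725457), (nat_lit 0), (nat_lit 7773605)]) (PF.cons (PF.leaf (nat_lit 8942696) (nat_lit 600940) (nat_lit 33135374) (nat_lit 13255196) [(nat_lit 600940), (nat_lit 1728832), (nat_lit 0), (nat_lit 7728878)]) (PF.cons PF.nil PF.nil))))) (PF.cons (PF.cons (PF.leaf (nat_lit 8661376) (nat_lit 1721621) (nat_lit 33207961) (nat_lit 13270859) [(nat_lit 0), (nat_lit 1721621), (nat_lit 0), (nat_lit 7732563)]) (PF.cons (PF.leaf (nat_lit 8986198) (nat_lit 598607) (nat_lit 32796600) (nat_lit 13164155) [(nat_lit 598607), (nat_lit 1724565), (nat_lit 0), (nat_lit 7687876)]) (PF.cons PF.nil (PF.cons PF.nil PF.nil)))) (PF.cons (PF.cons (PF.leaf (nat_lit 9354752) (nat_lit 1721552) (nat_lit 32056684) (nat_lit 12965541) [(nat_lit 0), (nat_lit 1721552), (nat_lit 0), (nat_lit 7600188)]) (PF.cons PF.nil PF.nil))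 (PF.cons PF.nil PF.nil)))))) (PF.cons (PF.cons (PF.cons (PF.leaf (nat_lit 7710272) (nat_lit 3622478) (nat_lit 34287093) (nat_lit 13535092) [(nat_lit 0), (nat_lit 0), (nat_lit 3622478), (nat_lit 7832074)])
 (PF.cons (PF.leaf (nat_lit 8016649) (nat_lit 574019) (nat_lit 33892585) (nat_lit 13436965) [(nat_lit 574019), (nat_lit 0), (nat_lit 3618442), (nat_lit 7793400)]) (PF.cons (PF.leaf (nat_lit 8332095) (nat_lit 582466) (nat_lit 33490404) (nat_lit 13335448) [(nat_lit 582466), (nat_lit 0), (nat_lit 3612931), (nat_lit 7752547)]) (PF.cons (PF.leaf (nat_lit 8654273) (nat_lit 589600) (nat_lit 33083314) (nat_lit 13231183) [(nat_lit 589600), (nat_lit 0), (nat_lit 3606001), (nat_lit 7709756)]) (PF.cons (PF.leaf (nat_lit 8981613) (nat_lit 595630) (nat_lit 32673425) (nat_lit 13124679) [(nat_lit 595630), (nat_lit 0), (nat_lit 3597721), (nat_lit 7665232)]) PF.nil))))) (PF.cons (PF.cons (PF.leaf (nat_lit 8388821) (nat_lit 1705134) (nat_lit 33137612) (nat_lit 13242123) [(nat_lit 0), (nat_lit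 1705134), (nat_lit 3601186), (nat_lit 7711377)]) (PF.cons (PF.leaf (nat_lit 8703536) (nat_lit 587085) (nat_lit 32741755) (nat_lit 13139551) [(nat_lit 587085), (nat_lit 1709274), (nat_lit 3593708), (nat_lit 7668718)]) (PF.cons (PF.leaf (nat_lit 9024484) (nat_lit 593192) (nat_lit 32342097) (nat_lit 13034557) [(nat_lit 593192), (nat_lit 1712238), (nat_lit 3584938), (nat_lit 7624297)]) (PF.cons PF.nil PF.nil))))
 (PF.cons (PF.cons (PF.leaf (nat_lit 9069289) (nat_lit 1707593) (nat_lit 32012255) (nat_lit 12943971) [(nat_lit 0), (nat_lit 1707593), (nat_lit 3571758), (nat_lit 7582820)]) (PF.cons (PF.leaf (nat_lit 9388290) (nat_lit 595691) (nat_lit 31620718) (nat_lit 12838634) [(nat_lit 595691), (nat_lit 1709131), (nat_lit 3561389), (nat_lit 7537058)]) PF.nil)) (PF.cons PF.nil (PF.cons PF.nil PF.nil))))) (PF.cons (PF.cons (PF.cons (PF.leaf (nat_lit 8796115) (nat_lit 3555445) (nat_lit 31952569) (nat_lit 12918299) [(nat_lit 0), (nat_lit 0), (nat_lit 3555445), (nat_lit 7563526)])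 (PF.cons (PF.leaf (nat_lit 9105701) (nat_lit 584813) (nat_lit 31575222) (nat_lit 12816908) [(nat_lit 584813), (nat_lit 0), (nat_lit 3546182), (nat_lit 7519751)]) (PF.cons (PF.leaf (nat_lit 9421042) (nat_lit 590234) (nat_lit 31194653) (nat_lit 12713364) [(nat_lit 590234), (nat_lit 0), (nat_lit 3535763), (nat_lit 7474399)]) (PF.cons PF.nil PF.nil)))) (PF.cons (PF.cons (PF.leaf (nat_lit 9460991) (nat_lit 1691341) (nat_lit 30883158) (nat_lit 12625000) [(nat_lit 0), (nat_lit 1691341), (nat_lit 3521790), (nat_lit 7432866)]) (PF.cons PF.nil PF.nil)) (PF.cons PF.nil PF.nil))) (PF.cons (PF.cons (PF.cons (PF.leaf (nat_lit 9837452)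
 (nat_lit 3469888) (nat_lit 29816894) (nat_lit 12314731) [(nat_lit 0), (nat_lit 0), (nat_lit 3469888), (nat_lit 7283760)]) (PF.cons PF.nil PF.nil)) (PF.cons PF.nil PF.nil)) (PF.cons PF.nil PF.nil))))) (PF.cons (PF.cons (PF.cons (PF.cons (PF.leaf (nat_lit 8239986) (nat_lit 7495724) (nat_lit 31788173) (nat_lit 12833464) [(nat_lit 0), (nat_lit 0), (nat_lit 0), (nat_lit 7495724)]) (PF.cons (PF.leaf (nat_lit 8534330) (nat_lit 559982) (nat_lit 31438201) (nat_lit 12740393) [(nat_lit 559982), (nat_lit 0), (nat_lit 0), (nat_lit 7456745)]) (PF.cons (PF.leaf (nat_lit 8837093) (nat_lit 567623) (nat_lit 31081556) (nat_lit 12644381) [(nat_lit 567623), (nat_lit 0), (nat_lit 0), (nat_lit 7415876)]) (PF.cons (PF.leaf (nat_lit 9146034) (nat_lit 574011) (nat_lit 30720654) (nat_lit 12546032) [(nat_lit 574011), (nat_lit 0), (nat_lit 0), (nat_lit 7373364)]) (PF.cons PF.nil PF.nil))))) (PF.cons (PF.cons (PF.leaf (nat_lit 8886943) (nat_lit 1654210) (nat_lit 30770679) (nat_lit 12557048) [(nat_lit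 0), (nat_lit 1654210), (nat_lit 0), (nat_lit 7375624)]) (PF.cons (PF.leaf (nat_lit 9188764) (nat_lit 571251) (nat_lit 30419680) (nat_lit 12460478) [(nat_lit 571251), (nat_lit 1657033), (nat_lit 0), (nat_lit
 7333456)]) (PF.cons (PF.leaf (nat_lit 9496361) (nat_lit 576707) (nat_lit 30065348) (nat_lit 12361855) [(nat_lit 576707), (nat_lit 1658791), (nat_lit 0), (nat_lit 7289800)]) (PF.cons PF.nil PF.nil)))) (PF.cons (PF.cons (PF.leaf (nat_lit 9535131) (nat_lit 1653670) (nat_lit 29774547) (nat_lit 12277560) [(nat_lit 0), (nat_lit 1653670), (nat_lit 0), (nat_lit 7249787)]) (PF.cons PF.nil PF.nil)) PF.nil))) (PF.cons (PF.cons (PF.cons (PF.leaf (nat_lit 9267946) (nat_lit 3427571) (nat_lit 29726770) (nat_lit 12255687) [(nat_lit 0), (nat_lit 0), (nat_lit 3427571), (nat_lit 7232927)]) (PF.cons (PF.leaf (nat_lit 9564910) (nat_lit 568223) (nat_lit 29391817) (nat_lit 12160715) [(nat_lit 568223), (nat_lit 0), (nat_lit 3417341), (nat_lit 7190238)]) (PF.cons PF.nil PF.nil))) (PF.cons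 (PF.cons (PF.leaf (nat_lit 9901851) (nat_lit 1636370) (nat_lit 28778894) (nat_lit 11981974) [(nat_lit 0), (nat_lit 1636370), (nat_lit 3392060), (nat_lit 7106504)]) PF.nil) PF.nil)) (PF.cons PF.nil PF.nil))) (PF.cons (PF.cons (PF.cons (PF.cons (PF.leaf (nat_lit 9703552) (nat_lit 6922461) (nat_lit 27771483) (nat_lit 11647483) [(nat_lit 0), (nat_lit 0), (nat_lit 0), (nat_lit 6922461)]) (PF.cons (PF.leaf (nat_lit 9988962)
 (nat_lit 551776) (nat_lit 27472680) (nat_lit 11558882) [(nat_lit 551776), (nat_lit 0), (nat_lit 0), (nat_lit 6881368)]) PF.nil)) (PF.cons PF.nil PF.nil)) (PF.cons PF.nil PF.nil)) (PF.cons PF.nil (PF.cons PF.nil (PF.cons PF.nil PF.nil))))))))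

def p13_16_3_0 : pfC (piC [(nat_lit 35755509), (nat_lit 23968959), (nat_lit 17897616), (nat_lit 12073119)] (nat_lit 5533854)) p13_16_3 (nat_lit 4) (nat_lit 0) (nat_lit 1) = true := by decide +kernel
def p13_16_3_1 : pfC (piC [(nat_lit 35755509), (nat_lit 23968959), (nat_lit 17897616), (nat_lit 12073119)] (nat_lit 5533854)) p13_16_3 (nat_lit 4) (nat_lit 1) (nat_lit 2) = true := by decide +kernel
def p13_16_3_2 : pfC (piC [(nat_lit 35755509), (nat_lit 23968959), (nat_lit 17897616), (nat_lit 12073119)] (nat_lit 5533854)) p13_16_3 (nat_lit 4) (nat_lit 2) (nat_lit 3) = true := by decide +kernel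
def p13_16_3_3 : pfC (piC [(nat_lit 35755509), (nat_lit 23968959), (nat_lit 17897616), (nat_lit 12073119)] (nat_lit 5533854)) p13_16_3 (nat_lit 4) (nat_lit 3) (nat_lit 4) = true := by decide +kernel
def p13_16_3_4 : pfC (piC [(nat_lit 35755509), (nat_lit 23968959), (nat_lit 17897616), (nat_lit 12073119)] (nat_lit 5533854)) p13_16_3 (nat_lit 4) (nat_lit 4) (nat_lit 5) = true := by decide +kernel
def p13_16_3_5 : pfC (piC [(nat_lit 35755509), (nat_lit 23968959), (nat_lit 17897616), (nat_lit 12073119)] (nat_lit 5533854)) p13_16_3 (nat_lit 4) (nat_lit 5) (nat_lit 6) = true := by decide +kernel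
def p13_16_3_6 : pfC (piC [(nat_lit 35755509), (nat_lit 23968959), (nat_lit 17897616), (nat_lit 12073119)] (nat_lit 5533854)) p13_16_3 (nat_lit 4) (nat_lit 6) (nat_lit 7) = true := by decide +kernel
def p13_16_3_7 : pfC (piC [(nat_lit 35755509), (nat_lit 23968959), (nat_lit 17897616), (nat_lit 12073119)] (nat_lit 5533854)) p13_16_3 (nat_lit 4) (nat_lit 7) (nat_lit 8) = true := by decide +kernel
def p13_16_3_8 : pfC (piC [(nat_lit 35755509), (nat_lit 23968959), (nat_lit 17897616), (nat_lit 12073119)] (nat_lit 5533854)) p13_16_3 (nat_lit 4) (nat_lit 8) (nat_lit 9) = true := by decide +kernel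
def p13_16_3_9 : pfC (piC [(nat_lit 35755509), (nat_lit 23968959), (nat_lit 17897616), (nat_lit 12073119)] (nat_lit 5533854)) p13_16_3 (nat_lit 4) (nat_lit 9) (nat_lit 10) = true := by decide +kernel
def p13_16_3_10 : pfC (piC [(nat_lit 35755509), (nat_lit 23968959), (nat_lit 17897616), (nat_lit 12073119)] (nat_lit 5533854)) p13_16_3 (nat_lit 4) (nat_lit 10) (nat_lit 11) = true := by decide +kernel
def p13_16_3_11 : pfC (piC [(nat_lit 35755509), (nat_lit 23968959), (nat_lit 17897616), (nat_lit 12073119)] (nat_lit 5533854)) p13_16_3 (nat_lit 4) (nat_lit 11) (nat_lit 12) = true := by decide +kernel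
def p13_16_3_12 : pfC (piC [(nat_lit 35755509), (nat_lit 23968959), (nat_lit 17897616), (nat_lit 12073119)] (nat_lit 5533854)) p13_16_3 (nat_lit 4) (nat_lit 12) (nat_lit 13) = true := by decide +kernel
def p13_16_3_13 : pfC (piC [(nat_lit 35755509), (nat_lit 23968959), (nat_lit 17897616), (nat_lit 12073119)] (nat_lit 5533854)) p13_16_3 (nat_lit 4) (nat_lit 13) (nat_lit 14) = true := by decide +kernel
def p13_16_3_14 : pfC (piC [(nat_lit 35755509), (nat_lit 23968959), (nat_lit 17897616), (nat_lit 12073119)] (nat_lit 5533854)) p13_16_3 (nat_lit 4) (nat_lit 14) (nat_lit 15) = true := by decide +kernel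
def p13_16_3_15 : pfC (piC [(nat_lit 35755509), (nat_lit 23968959), (nat_lit 17897616), (nat_lit 12073119)] (nat_lit 5533854)) p13_16_3 (nat_lit 4) (nat_lit 15) (nat_lit 16) = true := by decide +kernel
def p13_16_3_16 : pfC (piC [(nat_lit 35755509), (nat_lit 23968959), (nat_lit 17897616), (nat_lit 12073119)] (nat_lit 5533854)) p13_16_3 (nat_lit 4) (nat_lit 16) (nat_lit 17) = true := by decide +kernel
def p13_16_3_17 : pfC (piC [(nat_lit 35755509), (nat_lit 23968959), (nat_lit 17897616), (nat_lit 12073119)] (nat_lit 5533854)) p13_16_3 (nat_lit 4) (nat_lit 17) (nat_lit 18) = true := by decide +kernel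
def p13_16_3_18 : pfC (piC [(nat_lit 35755509), (nat_lit 23968959), (nat_lit 17897616), (nat_lit 12073119)] (nat_lit 5533854)) p13_16_3 (nat_lit 4) (nat_lit 18) (nat_lit 19) = true := by decide +kernel
def p13_16_3_19 : pfC (piC [(nat_lit 35755509), (nat_lit 23968959), (nat_lit 17897616), (nat_lit 12073119)] (nat_lit 5533854)) p13_16_3 (nat_lit 4) (nat_lit 19) (nat_lit 20) = true := by decide +kernel
def p13_16_3_20 : pfC (piC [(nat_lit 35755509), (nat_lit 23968959), (nat_lit 17897616), (nat_lit 12073119)] (nat_lit 5533854)) p13_16_3 (nat_lit 4) (nat_lit 20) (nat_lit 21) = true := by decide +kernel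
def p13_16_3_21 : pfC (piC [(nat_lit 35755509), (nat_lit 23968959), (nat_lit 17897616), (nat_lit 12073119)] (nat_lit 5533854)) p13_16_3 (nat_lit 4) (nat_lit 21) (nat_lit 22) = true := by decide +kernel
def p13_16_3_22 : pfC (piC [(nat_lit 35755509), (nat_lit 23968959), (nat_lit 17897616), (nat_lit 12073119)] (nat_lit 5533854)) p13_16_3 (nat_lit 4) (nat_lit 22) (nat_lit 23) = true := by decide +kernel
def p13_16_3_23 : pfC (piC [(nat_lit 35755509), (nat_lit 23968959), (nat_lit 17897616), (nat_lit 12073119)] (nat_lit 5533854)) p13_16_3 (nat_lit 4) (nat_lit 23) (nat_lit 24) = true := by decide +kernel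
def p13_16_3_24 : pfC (piC [(nat_lit 35755509), (nat_lit 23968959), (nat_lit 17897616), (nat_lit 12073119)] (nat_lit 5533854)) p13_16_3 (nat_lit 4) (nat_lit 24) (nat_lit 25) = true := by decide +kernel
def p13_16_3_25 : pfC (piC [(nat_lit 35755509), (nat_lit 23968959), (nat_lit 17897616), (nat_lit 12073119)] (nat_lit 5533854)) p13_16_3 (nat_lit 4) (nat_lit 25) (nat_lit 26) = true := by decide +kernel
def p13_16_3_26 : pfC (piC [(nat_lit 35755509), (nat_lit 23968959), (nat_lit 17897616), (nat_lit 12073119)] (nat_lit 5533854)) p13_16_3 (nat_lit 4) (nat_lit 26) (nat_lit 27) = true := by decide +kernel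
def p13_16_3_27 : pfC (piC [(nat_lit 35755509), (nat_lit 23968959), (nat_lit 17897616), (nat_lit 12073119)] (nat_lit 5533854)) p13_16_3 (nat_lit 4) (nat_lit 27) (nat_lit 28) = true := by decide +kernel
def p13_16_3_28 : pfC (piC [(nat_lit 35755509), (nat_lit 23968959), (nat_lit 17897616), (nat_lit 12073119)] (nat_lit 5533854)) p13_16_3 (nat_lit 4) (nat_lit 28) (nat_lit 29) = true := by decide +kernel
def p13_16_3_29 : pfC (piC [(nat_lit 35755509), (nat_lit 23968959), (nat_lit 17897616), (nat_lit 12073119)] (nat_lit 5533854)) p13_16_3 (nat_lit 4) (nat_lit 29) (nat_lit 30) = true := by decide +kernel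
def p13_16_3_30 : pfC (piC [(nat_lit 35755509), (nat_lit 23968959), (nat_lit 17897616), (nat_lit 12073119)] (nat_lit 5533854)) p13_16_3 (nat_lit 4) (nat_lit 30) (nat_lit 31) = true := by decide +kernel
def p13_16_3_31 : pfC (piC [(nat_lit 35755509), (nat_lit 23968959), (nat_lit 17897616), (nat_lit 12073119)] (nat_lit 5533854)) p13_16_3 (nat_lit 4) (nat_lit 31) (nat_lit 32) = true := by decide +kernel
def p13_16_3_32 : pfC (piC [(nat_lit 35755509), (nat_lit 23968959), (nat_lit 17897616), (nat_lit 12073119)] (nat_lit 5533854)) p13_16_3 (nat_lit 4) (nat_lit 32) (nat_lit 33) = true := by decide +kernel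
def p13_16_3_33 : pfC (piC [(nat_lit 35755509), (nat_lit 23968959), (nat_lit 17897616), (nat_lit 12073119)] (nat_lit 5533854)) p13_16_3 (nat_lit 4) (nat_lit 33) (nat_lit 34) = true := by decide +kernel
def p13_16_3_34 : pfC (piC [(nat_lit 35755509), (nat_lit 23968959), (nat_lit 17897616), (nat_lit 12073119)] (nat_lit 5533854)) p13_16_3 (nat_lit 4) (nat_lit 34) (nat_lit 35) = true := by decide +kernel
def p13_16_3_35 : pfC (piC [(nat_lit 35755509), (nat_lit 23968959), (nat_lit 17897616), (nat_lit 12073119)] (nat_lit 5533854)) p13_16_3 (nat_lit 4) (nat_lit 35) (nat_lit 36) = true := by decide +kernel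
def p13_16_3_36 : pfC (piC [(nat_lit 35755509), (nat_lit 23968959), (nat_lit 17897616), (nat_lit 12073119)] (nat_lit 5533854)) p13_16_3 (nat_lit 4) (nat_lit 36) (nat_lit 37) = true := by decide +kernel
def p13_16_3_37 : pfC (piC [(nat_lit 35755509), (nat_lit 23968959), (nat_lit 17897616), (nat_lit 12073119)] (nat_lit 5533854)) p13_16_3 (nat_lit 4) (nat_lit 37) (nat_lit 38) = true := by decide +kernel
def p13_16_3_38 : pfC (piC [(nat_lit 35755509), (nat_lit 23968959), (nat_lit 17897616), (nat_lit 12073119)] (nat_lit 5533854)) p13_16_3 (nat_lit 4) (nat_lit 38) (nat_lit 39) = true := by decide +kernel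
def p13_16_3_39 : pfC (piC [(nat_lit 35755509), (nat_lit 23968959), (nat_lit 17897616), (nat_lit 12073119)] (nat_lit 5533854)) p13_16_3 (nat_lit 4) (nat_lit 39) (nat_lit 40) = true := by decide +kernel
def p13_16_3_40 : pfC (piC [(nat_lit 35755509), (nat_lit 23968959), (nat_lit 17897616), (nat_lit 12073119)] (nat_lit 5533854)) p13_16_3 (nat_lit 4) (nat_lit 40) (nat_lit 41) = true := by decide +kernel
def p13_16_3_41 : pfC (piC [(nat_lit 35755509), (nat_lit 23968959), (nat_lit 17897616), (nat_lit 12073119)] (nat_lit 5533854)) p13_16_3 (nat_lit 4) (nat_lit 41) (nat_lit 42) = true := by decide +kernel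
def p13_16_3_42 : pfC (piC [(nat_lit 35755509), (nat_lit 23968959), (nat_lit 17897616), (nat_lit 12073119)] (nat_lit 5533854)) p13_16_3 (nat_lit 4) (nat_lit 42) (nat_lit 43) = true := by decide +kernel
def p13_16_3_43 : pfC (piC [(nat_lit 35755509), (nat_lit 23968959), (nat_lit 17897616), (nat_lit 12073119)] (nat_lit 5533854)) p13_16_3 (nat_lit 4) (nat_lit 43) (nat_lit 44) = true := by decide +kernel
def p13_16_3_44 : pfC (piC [(nat_lit 35755509), (nat_lit 23968959), (nat_lit 17897616), (nat_lit 12073119)] (nat_lit 5533854)) p13_16_3 (nat_lit 4) (nat_lit 44) (nat_lit 45) = true := by decide +kernel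
def p13_16_3_45 : pfC (piC [(nat_lit 35755509), (nat_lit 23968959), (nat_lit 17897616), (nat_lit 12073119)] (nat_lit 5533854)) p13_16_3 (nat_lit 4) (nat_lit 45) (nat_lit 46) = true := by decide +kernel
def p13_16_3_46 : pfC (piC [(nat_lit 35755509), (nat_lit 23968959), (nat_lit 17897616), (nat_lit 12073119)] (nat_lit 5533854)) p13_16_3 (nat_lit 4) (nat_lit 46) (nat_lit 47) = true := by decide +kernel
def p13_16_3_47 : pfC (piC [(nat_lit 35755509), (nat_lit 23968959), (nat_lit 17897616), (nat_lit 12073119)] (nat_lit 5533854)) p13_16_3 (nat_lit 4) (nat_lit 47) (nat_lit 48) = true := by decide +kernel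
def p13_16_3_48 : pfC (piC [(nat_lit 35755509), (nat_lit 23968959), (nat_lit 17897616), (nat_lit 12073119)] (nat_lit 5533854)) p13_16_3 (nat_lit 4) (nat_lit 48) (nat_lit 49) = true := by decide +kernel
def p13_16_3_49 : pfC (piC [(nat_lit 35755509), (nat_lit 23968959), (nat_lit 17897616), (nat_lit 12073119)] (nat_lit 5533854)) p13_16_3 (nat_lit 4) (nat_lit 49) (nat_lit 50) = true := by decide +kernel
def p13_16_3_50 : pfC (piC [(nat_lit 35755509), (nat_lit 23968959), (nat_lit 17897616), (nat_lit 12073119)] (nat_lit 5533854)) p13_16_3 (nat_lit 4) (nat_lit 50) (nat_lit 51) = true := by decide +kernel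
def p13_16_3_51 : pfC (piC [(nat_lit 35755509), (nat_lit 23968959), (nat_lit 17897616), (nat_lit 12073119)] (nat_lit 5533854)) p13_16_3 (nat_lit 4) (nat_lit 51) (nat_lit 52) = true := by decide +kernel
def p13_16_3_52 : pfC (piC [(nat_lit 35755509), (nat_lit 23968959), (nat_lit 17897616), (nat_lit 12073119)] (nat_lit 5533854)) p13_16_3 (nat_lit 4) (nat_lit 52) (nat_lit 53) = true := by decide +kernel
def p13_16_3_53 : pfC (piC [(nat_lit 35755509), (nat_lit 23968959), (nat_lit 17897616), (nat_lit 12073119)] (nat_lit 5533854)) p13_16_3 (nat_lit 4) (nat_lit 53) (nat_lit 54) = true := by decide +kernel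
def p13_16_3_54 : pfC (piC [(nat_lit 35755509), (nat_lit 23968959), (nat_lit 17897616), (nat_lit 12073119)] (nat_lit 5533854)) p13_16_3 (nat_lit 4) (nat_lit 54) (nat_lit 55) = true := by decide +kernel
def p13_16_3_55 : pfC (piC [(nat_lit 35755509), (nat_lit 23968959), (nat_lit 17897616), (nat_lit 12073119)] (nat_lit 5533854)) p13_16_3 (nat_lit 4) (nat_lit 55) (nat_lit 56) = true := by decide +kernel
def p13_16_3_56 : pfC (piC [(nat_lit 35755509), (nat_lit 23968959), (nat_lit 17897616), (nat_lit 12073119)] (nat_lit 5533854)) p13_16_3 (nat_lit 4) (nat_lit 56) (nat_lit 57) = true := by decide +kernel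
def p13_16_3_57 : pfC (piC [(nat_lit 35755509), (nat_lit 23968959), (nat_lit 17897616), (nat_lit 12073119)] (nat_lit 5533854)) p13_16_3 (nat_lit 4) (nat_lit 57) (nat_lit 58) = true := by decide +kernel
def p13_16_3_58 : pfC (piC [(nat_lit 35755509), (nat_lit 23968959), (nat_lit 17897616), (nat_lit 12073119)] (nat_lit 5533854)) p13_16_3 (nat_lit 4) (nat_lit 58) (nat_lit 59) = true := by decide +kernel
def p13_16_3_59 : pfC (piC [(nat_lit 35755509), (nat_lit 23968959), (nat_lit 17897616), (nat_lit 12073119)] (nat_lit 5533854)) p13_16_3 (nat_lit 4) (nat_lit 59) (nat_lit 60) = true := by decide +kernel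
def p13_16_3_60 : pfC (piC [(nat_lit 35755509), (nat_lit 23968959), (nat_lit 17897616), (nat_lit 12073119)] (nat_lit 5533854)) p13_16_3 (nat_lit 4) (nat_lit 60) (nat_lit 61) = true := by decide +kernel
def p13_16_3_61 : pfC (piC [(nat_lit 35755509), (nat_lit 23968959), (nat_lit 17897616), (nat_lit 12073119)] (nat_lit 5533854)) p13_16_3 (nat_lit 4) (nat_lit 61) (nat_lit 62) = true := by decide +kernel
def p13_16_3_62 : pfC (piC [(nat_lit 35755509), (nat_lit 23968959), (nat_lit 17897616), (nat_lit 12073119)] (nat_lit 5533854)) p13_16_3 (nat_lit 4) (nat_lit 62) (nat_lit 63) = true := by decide +kernel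
def p13_16_3_63 : pfC (piC [(nat_lit 35755509), (nat_lit 23968959), (nat_lit 17897616), (nat_lit 12073119)] (nat_lit 5533854)) p13_16_3 (nat_lit 4) (nat_lit 63) (nat_lit 64) = true := by decide +kernel
def p13_16_3_64 : pfC (piC [(nat_lit 35755509), (nat_lit 23968959), (nat_lit 17897616), (nat_lit 12073119)] (nat_lit 5533854)) p13_16_3 (nat_lit 4) (nat_lit 64) (nat_lit 65) = true := by decide +kernel
def p13_16_3_65 : pfC (piC [(nat_lit 35755509), (nat_lit 23968959), (nat_lit 17897616), (nat_lit 12073119)] (nat_lit 5533854)) p13_16_3 (nat_lit 4) (nat_lit 65) (nat_lit 66) = true := by decide +kernel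
def p13_16_3_66 : pfC (piC [(nat_lit 35755509), (nat_lit 23968959), (nat_lit 17897616), (nat_lit 12073119)] (nat_lit 5533854)) p13_16_3 (nat_lit 4) (nat_lit 66) (nat_lit 67) = true := by decide +kernel
def p13_16_3_67 : pfC (piC [(nat_lit 35755509), (nat_lit 23968959), (nat_lit 17897616), (nat_lit 12073119)] (nat_lit 5533854)) p13_16_3 (nat_lit 4) (nat_lit 67) (nat_lit 68) = true := by decide +kernel
def p13_16_3_68 : pfC (piC [(nat_lit 35755509), (nat_lit 23968959), (nat_lit 17897616), (nat_lit 12073119)] (nat_lit 5533854)) p13_16_3 (nat_lit 4) (nat_lit 68) (nat_lit 69) = true := by decide +kernel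
def p13_16_3_69 : pfC (piC [(nat_lit 35755509), (nat_lit 23968959), (nat_lit 17897616), (nat_lit 12073119)] (nat_lit 5533854)) p13_16_3 (nat_lit 4) (nat_lit 69) (nat_lit 70) = true := by decide +kernel
def p13_16_3_70 : pfC (piC [(nat_lit 35755509), (nat_lit 23968959), (nat_lit 17897616), (nat_lit 12073119)] (nat_lit 5533854)) p13_16_3 (nat_lit 4) (nat_lit 70) (nat_lit 71) = true := by decide +kernel
def p13_16_3_71 : pfC (piC [(nat_lit 35755509), (nat_lit 23968959), (nat_lit 17897616), (nat_lit 12073119)] (nat_lit 5533854)) p13_16_3 (nat_lit 4) (nat_lit 71) (nat_lit 72) = true := by decide +kernel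
def p13_16_3_72 : pfC (piC [(nat_lit 35755509), (nat_lit 23968959), (nat_lit 17897616), (nat_lit 12073119)] (nat_lit 5533854)) p13_16_3 (nat_lit 4) (nat_lit 72) (nat_lit 73) = true := by decide +kernel
def p13_16_3_73 : pfC (piC [(nat_lit 35755509), (nat_lit 23968959), (nat_lit 17897616), (nat_lit 12073119)] (nat_lit 5533854)) p13_16_3 (nat_lit 4) (nat_lit 73) (nat_lit 74) = true := by decide +kernel
def p13_16_3_74 : pfC (piC [(nat_lit 35755509), (nat_lit 23968959), (nat_lit 17897616), (nat_lit 12073119)] (nat_lit 5533854)) p13_16_3 (nat_lit 4) (nat_lit 74) (nat_lit 75) = true := by decide +kernel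
def p13_16_3_75 : pfC (piC [(nat_lit 35755509), (nat_lit 23968959), (nat_lit 17897616), (nat_lit 12073119)] (nat_lit 5533854)) p13_16_3 (nat_lit 4) (nat_lit 75) (nat_lit 76) = true := by decide +kernel
def p13_16_3_76 : pfC (piC [(nat_lit 35755509), (nat_lit 23968959), (nat_lit 17897616), (nat_lit 12073119)] (nat_lit 5533854)) p13_16_3 (nat_lit 4) (nat_lit 76) (nat_lit 77) = true := by decide +kernel
def p13_16_3_77 : pfC (piC [(nat_lit 35755509), (nat_lit 23968959), (nat_lit 17897616), (nat_lit 12073119)] (nat_lit 5533854)) p13_16_3 (nat_lit 4) (nat_lit 77) (nat_lit 78) = true := by decide +kernel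
def p13_16_3_78 : pfC (piC [(nat_lit 35755509), (nat_lit 23968959), (nat_lit 17897616), (nat_lit 12073119)] (nat_lit 5533854)) p13_16_3 (nat_lit 4) (nat_lit 78) (nat_lit 79) = true := by decide +kernel
def p13_16_3_79 : pfC (piC [(nat_lit 35755509), (nat_lit 23968959), (nat_lit 17897616), (nat_lit 12073119)] (nat_lit 5533854)) p13_16_3 (nat_lit 4) (nat_lit 79) (nat_lit 80) = true := by decide +kernel
def p13_16_3_80 : pfC (piC [(nat_lit 35755509), (nat_lit 23968959), (nat_lit 17897616), (nat_lit 12073119)] (nat_lit 5533854)) p13_16_3 (nat_lit 4) (nat_lit 80) (nat_lit 81) = true := by decide +kernel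
def p13_16_3_81 : pfC (piC [(nat_lit 35755509), (nat_lit 23968959), (nat_lit 17897616), (nat_lit 12073119)] (nat_lit 5533854)) p13_16_3 (nat_lit 4) (nat_lit 81) (nat_lit 82) = true := by decide +kernel
def p13_16_3_82 : pfC (piC [(nat_lit 35755509), (nat_lit 23968959), (nat_lit 17897616), (nat_lit 12073119)] (nat_lit 5533854)) p13_16_3 (nat_lit 4) (nat_lit 82) (nat_lit 83) = true := by decide +kernel
def p13_16_3_83 : pfC (piC [(nat_lit 35755509), (nat_lit 23968959), (nat_lit 17897616), (nat_lit 12073119)] (nat_lit 5533854)) p13_16_3 (nat_lit 4) (nat_lit 83) (nat_lit 84) = true := by decide +kernel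
def p13_16_3_84 : pfC (piC [(nat_lit 35755509), (nat_lit 23968959), (nat_lit 17897616), (nat_lit 12073119)] (nat_lit 5533854)) p13_16_3 (nat_lit 4) (nat_lit 84) (nat_lit 85) = true := by decide +kernel
def p13_16_3_85 : pfC (piC [(nat_lit 35755509), (nat_lit 23968959), (nat_lit 17897616), (nat_lit 12073119)] (nat_lit 5533854)) p13_16_3 (nat_lit 4) (nat_lit 85) (nat_lit 86) = true := by decide +kernel
def p13_16_3_86 : pfC (piC [(nat_lit 35755509), (nat_lit 23968959), (nat_lit 17897616), (nat_lit 12073119)] (nat_lit 5533854)) p13_16_3 (nat_lit 4) (nat_lit 86) (nat_lit 87) = true := by decide +kernel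
def p13_16_3_87 : pfC (piC [(nat_lit 35755509), (nat_lit 23968959), (nat_lit 17897616), (nat_lit 12073119)] (nat_lit 5533854)) p13_16_3 (nat_lit 4) (nat_lit 87) (nat_lit 88) = true := by decide +kernel
def p13_16_3_88 : pfC (piC [(nat_lit 35755509), (nat_lit 23968959), (nat_lit 17897616), (nat_lit 12073119)] (nat_lit 5533854)) p13_16_3 (nat_lit 4) (nat_lit 88) (nat_lit 89) = true := by decide +kernel
def p13_16_3_89 : pfC (piC [(nat_lit 35755509), (nat_lit 23968959), (nat_lit 17897616), (nat_lit 12073119)] (nat_lit 5533854)) p13_16_3 (nat_lit 4) (nat_lit 89) (nat_lit 90) = true := by decide +kernel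
def p13_16_3_90 : pfC (piC [(nat_lit 35755509), (nat_lit 23968959), (nat_lit 17897616), (nat_lit 12073119)] (nat_lit 5533854)) p13_16_3 (nat_lit 4) (nat_lit 90) (nat_lit 91) = true := by decide +kernel
def p13_16_3_91 : pfC (piC [(nat_lit 35755509), (nat_lit 23968959), (nat_lit 17897616), (nat_lit 12073119)] (nat_lit 5533854)) p13_16_3 (nat_lit 4) (nat_lit 91) (nat_lit 92) = true := by decide +kernel
def p13_16_3_92 : pfC (piC [(nat_lit 35755509), (nat_lit 23968959), (nat_lit 17897616), (nat_lit 12073119)] (nat_lit 5533854)) p13_16_3 (nat_lit 4) (nat_lit 92) (nat_lit 93) = true := by decide +kernel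
def p13_16_3_93 : pfC (piC [(nat_lit 35755509), (nat_lit 23968959), (nat_lit 17897616), (nat_lit 12073119)] (nat_lit 5533854)) p13_16_3 (nat_lit 4) (nat_lit 93) (nat_lit 94) = true := by decide +kernel
def p13_16_3_94 : pfC (piC [(nat_lit 35755509), (nat_lit 23968959), (nat_lit 17897616), (nat_lit 12073119)] (nat_lit 5533854)) p13_16_3 (nat_lit 4) (nat_lit 94) (nat_lit 95) = true := by decide +kernel
def p13_16_3_95 : pfC (piC [(nat_lit 35755509), (nat_lit 23968959), (nat_lit 17897616), (nat_lit 12073119)] (nat_lit 5533854)) p13_16_3 (nat_lit 4) (nat_lit 95) (nat_lit 96) = true := by decide +kernel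
def p13_16_3_96 : pfC (piC [(nat_lit 35755509), (nat_lit 23968959), (nat_lit 17897616), (nat_lit 12073119)] (nat_lit 5533854)) p13_16_3 (nat_lit 4) (nat_lit 96) (nat_lit 97) = true := by decide +kernel
def p13_16_3_97 : pfC (piC [(nat_lit 35755509), (nat_lit 23968959), (nat_lit 17897616), (nat_lit 12073119)] (nat_lit 5533854)) p13_16_3 (nat_lit 4) (nat_lit 97) (nat_lit 98) = true := by decide +kernel
def p13_16_3_98 : pfC (piC [(nat_lit 35755509), (nat_lit 23968959), (nat_lit 17897616), (nat_lit 12073119)] (nat_lit 5533854)) p13_16_3 (nat_lit 4) (nat_lit 98) (nat_lit 99) = true := by decide +kernel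
def p13_16_3_99 : pfC (piC [(nat_lit 35755509), (nat_lit 23968959), (nat_lit 17897616), (nat_lit 12073119)] (nat_lit 5533854)) p13_16_3 (nat_lit 4) (nat_lit 99) (nat_lit 100) = true := by decide +kernel
def p13_16_3_100 : pfC (piC [(nat_lit 35755509), (nat_lit 23968959), (nat_lit 17897616), (nat_lit 12073119)] (nat_lit 5533854)) p13_16_3 (nat_lit 4) (nat_lit 100) (nat_lit 101) = true := by decide +kernel
def p13_16_3_101 : pfC (piC [(nat_lit 35755509), (nat_lit 23968959), (nat_lit 17897616), (nat_lit 12073119)] (nat_lit 5533854)) p13_16_3 (nat_lit 4) (nat_lit 101) (nat_lit 102) = true := by decide +kernel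
def p13_16_3_102 : pfC (piC [(nat_lit 35755509), (nat_lit 23968959), (nat_lit 17897616), (nat_lit 12073119)] (nat_lit 5533854)) p13_16_3 (nat_lit 4) (nat_lit 102) (nat_lit 103) = true := by decide +kernel
def p13_16_3_103 : pfC (piC [(nat_lit 35755509), (nat_lit 23968959), (nat_lit 17897616), (nat_lit 12073119)] (nat_lit 5533854)) p13_16_3 (nat_lit 4) (nat_lit 103) (nat_lit 104) = true := by decide +kernel
def p13_16_3_104 : pfC (piC [(nat_lit 35755509), (nat_lit 23968959), (nat_lit 17897616), (nat_lit 12073119)] (nat_lit 5533854)) p13_16_3 (nat_lit 4) (nat_lit 104) (nat_lit 105) = true := by decide +kernel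
def p13_16_3_105 : pfC (piC [(nat_lit 35755509), (nat_lit 23968959), (nat_lit 17897616), (nat_lit 12073119)] (nat_lit 5533854)) p13_16_3 (nat_lit 4) (nat_lit 105) (nat_lit 106) = true := by decide +kernel
def p13_16_3_106 : pfC (piC [(nat_lit 35755509), (nat_lit 23968959), (nat_lit 17897616), (nat_lit 12073119)] (nat_lit 5533854)) p13_16_3 (nat_lit 4) (nat_lit 106) (nat_lit 107) = true := by decide +kernel
def p13_16_3_107 : pfC (piC [(nat_lit 35755509), (nat_lit 23968959), (nat_lit 17897616), (nat_lit 12073119)] (nat_lit 5533854)) p13_16_3 (nat_lit 4) (nat_lit 107) (nat_lit 108) = true := by decide +kernel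
def p13_16_3_108 : pfC (piC [(nat_lit 35755509), (nat_lit 23968959), (nat_lit 17897616), (nat_lit 12073119)] (nat_lit 5533854)) p13_16_3 (nat_lit 4) (nat_lit 108) (nat_lit 109) = true := by decide +kernel
def p13_16_3_109 : pfC (piC [(nat_lit 35755509), (nat_lit 23968959), (nat_lit 17897616), (nat_lit 12073119)] (nat_lit 5533854)) p13_16_3 (nat_lit 4) (nat_lit 109) (nat_lit 110) = true := by decide +kernel
def p13_16_3_110 : pfC (piC [(nat_lit 35755509), (nat_lit 23968959), (nat_lit 17897616), (nat_lit 12073119)] (nat_lit 5533854)) p13_16_3 (nat_lit 4) (nat_lit 110) (nat_lit 111) = true := by decide +kernel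
def p13_16_3_111 : pfC (piC [(nat_lit 35755509), (nat_lit 23968959), (nat_lit 17897616), (nat_lit 12073119)] (nat_lit 5533854)) p13_16_3 (nat_lit 4) (nat_lit 111) (nat_lit 112) = true := by decide +kernel
def p13_16_3_112 : pfC (piC [(nat_lit 35755509), (nat_lit 23968959), (nat_lit 17897616), (nat_lit 12073119)] (nat_lit 5533854)) p13_16_3 (nat_lit 4) (nat_lit 112) (nat_lit 113) = true := by decide +kernel
def p13_16_3_113 : pfC (piC [(nat_lit 35755509), (nat_lit 23968959), (nat_lit 17897616), (nat_lit 12073119)] (nat_lit 5533854)) p13_16_3 (nat_lit 4) (nat_lit 113) (nat_lit 114) = true := by decide +kernel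
def p13_16_3_114 : pfC (piC [(nat_lit 35755509), (nat_lit 23968959), (nat_lit 17897616), (nat_lit 12073119)] (nat_lit 5533854)) p13_16_3 (nat_lit 4) (nat_lit 114) (nat_lit 115) = true := by decide +kernel
def p13_16_3_115 : pfC (piC [(nat_lit 35755509), (nat_lit 23968959), (nat_lit 17897616), (nat_lit 12073119)] (nat_lit 5533854)) p13_16_3 (nat_lit 4) (nat_lit 115) (nat_lit 116) = true := by decide +kernel
def p13_16_3_116 : pfC (piC [(nat_lit 35755509), (nat_lit 23968959), (nat_lit 17897616), (nat_lit 12073119)] (nat_lit 5533854)) p13_16_3 (nat_lit 4) (nat_lit 116) (nat_lit 117) = true := by decide +kernel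
def p13_16_3_117 : pfC (piC [(nat_lit 35755509), (nat_lit 23968959), (nat_lit 17897616), (nat_lit 12073119)] (nat_lit 5533854)) p13_16_3 (nat_lit 4) (nat_lit 117) (nat_lit 118) = true := by decide +kernel
def p13_16_3_118 : pfC (piC [(nat_lit 35755509), (nat_lit 23968959), (nat_lit 17897616), (nat_lit 12073119)] (nat_lit 5533854)) p13_16_3 (nat_lit 4) (nat_lit 118) (nat_lit 119) = true := by decide +kernel
def p13_16_3_119 : pfC (piC [(nat_lit 35755509), (nat_lit 23968959), (nat_lit 17897616), (nat_lit 12073119)] (nat_lit 5533854)) p13_16_3 (nat_lit 4) (nat_lit 119) (nat_lit 120) = true := by decide +kernel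
def p13_16_3_120 : pfC (piC [(nat_lit 35755509), (nat_lit 23968959), (nat_lit 17897616), (nat_lit 12073119)] (nat_lit 5533854)) p13_16_3 (nat_lit 4) (nat_lit 120) (nat_lit 121) = true := by decide +kernel
def p13_16_3_121 : pfC (piC [(nat_lit 35755509), (nat_lit 23968959), (nat_lit 17897616), (nat_lit 12073119)] (nat_lit 5533854)) p13_16_3 (nat_lit 4) (nat_lit 121) (nat_lit 122) = true := by decide +kernel
def p13_16_3_122 : pfC (piC [(nat_lit 35755509), (nat_lit 23968959), (nat_lit 17897616), (nat_lit 12073119)] (nat_lit 5533854)) p13_16_3 (nat_lit 4) (nat_lit 122) (nat_lit 123) = true := by decide +kernel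
def p13_16_3_123 : pfC (piC [(nat_lit 35755509), (nat_lit 23968959), (nat_lit 17897616), (nat_lit 12073119)] (nat_lit 5533854)) p13_16_3 (nat_lit 4) (nat_lit 123) (nat_lit 124) = true := by decide +kernel
def p13_16_3_124 : pfC (piC [(nat_lit 35755509), (nat_lit 23968959), (nat_lit 17897616), (nat_lit 12073119)] (nat_lit 5533854)) p13_16_3 (nat_lit 4) (nat_lit 124) (nat_lit 125) = true := by decide +kernel
def p13_16_3_125 : pfC (piC [(nat_lit 35755509), (nat_lit 23968959), (nat_lit 17897616), (nat_lit 12073119)] (nat_lit 5533854)) p13_16_3 (nat_lit 4) (nat_lit 125) (nat_lit 126) = true := by decide +kernel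
def p13_16_3_126 : pfC (piC [(nat_lit 35755509), (nat_lit 23968959), (nat_lit 17897616), (nat_lit 12073119)] (nat_lit 5533854)) p13_16_3 (nat_lit 4) (nat_lit 126) (nat_lit 127) = true := by decide +kernel
def p13_16_3_127 : pfC (piC [(nat_lit 35755509), (nat_lit 23968959), (nat_lit 17897616), (nat_lit 12073119)] (nat_lit 5533854)) p13_16_3 (nat_lit 4) (nat_lit 127) (nat_lit 128) = true := by decide +kernel
def p13_16_3_128 : pfC (piC [(nat_lit 35755509), (nat_lit 23968959), (nat_lit 17897616), (nat_lit 12073119)] (nat_lit 5533854)) p13_16_3 (nat_lit 4) (nat_lit 128) (nat_lit 129) = true := by decide +kernel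
def p13_16_3_129 : pfC (piC [(nat_lit 35755509), (nat_lit 23968959), (nat_lit 17897616), (nat_lit 12073119)] (nat_lit 5533854)) p13_16_3 (nat_lit 4) (nat_lit 129) (nat_lit 130) = true := by decide +kernel
def p13_16_3_130 : pfC (piC [(nat_lit 35755509), (nat_lit 23968959), (nat_lit 17897616), (nat_lit 12073119)] (nat_lit 5533854)) p13_16_3 (nat_lit 4) (nat_lit 130) (nat_lit 131) = true := by decide +kernel
def p13_16_3_131 : pfC (piC [(nat_lit 35755509), (nat_lit 23968959), (nat_lit 17897616), (nat_lit 12073119)] (nat_lit 5533854)) p13_16_3 (nat_lit 4) (nat_lit 131) (nat_lit 132) = true := by decide +kernel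
def p13_16_3_132 : pfC (piC [(nat_lit 35755509), (nat_lit 23968959), (nat_lit 17897616), (nat_lit 12073119)] (nat_lit 5533854)) p13_16_3 (nat_lit 4) (nat_lit 132) (nat_lit 133) = true := by decide +kernel
def p13_16_3_133 : pfC (piC [(nat_lit 35755509), (nat_lit 23968959), (nat_lit 17897616), (nat_lit 12073119)] (nat_lit 5533854)) p13_16_3 (nat_lit 4) (nat_lit 133) (nat_lit 134) = true := by decide +kernel
def p13_16_3_134 : pfC (piC [(nat_lit 35755509), (nat_lit 23968959), (nat_lit 17897616), (nat_lit 12073119)] (nat_lit 5533854)) p13_16_3 (nat_lit 4) (nat_lit 134) (nat_lit 135) = true := by decide +kernel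
def p13_16_3_135 : pfC (piC [(nat_lit 35755509), (nat_lit 23968959), (nat_lit 17897616), (nat_lit 12073119)] (nat_lit 5533854)) p13_16_3 (nat_lit 4) (nat_lit 135) (nat_lit 136) = true := by decide +kernel
def p13_16_3_136 : pfC (piC [(nat_lit 35755509), (nat_lit 23968959), (nat_lit 17897616), (nat_lit 12073119)] (nat_lit 5533854)) p13_16_3 (nat_lit 4) (nat_lit 136) (nat_lit 137) = true := by decide +kernel
def p13_16_3_137 : pfC (piC [(nat_lit 35755509), (nat_lit 23968959), (nat_lit 17897616), (nat_lit 12073119)] (nat_lit 5533854)) p13_16_3 (nat_lit 4) (nat_lit 137) (nat_lit 138) = true := by decide +kernel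
def p13_16_3_138 : pfC (piC [(nat_lit 35755509), (nat_lit 23968959), (nat_lit 17897616), (nat_lit 12073119)] (nat_lit 5533854)) p13_16_3 (nat_lit 4) (nat_lit 138) (nat_lit 139) = true := by decide +kernel
def p13_16_3_139 : pfC (piC [(nat_lit 35755509), (nat_lit 23968959), (nat_lit 17897616), (nat_lit 12073119)] (nat_lit 5533854)) p13_16_3 (nat_lit 4) (nat_lit 139) (nat_lit 140) = true := by decide +kernel
def p13_16_3_140 : pfC (piC [(nat_lit 35755509), (nat_lit 23968959), (nat_lit 17897616), (nat_lit 12073119)] (nat_lit 5533854)) p13_16_3 (nat_lit 4) (nat_lit 140) (nat_lit 141) = true := by decide +kernel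
def p13_16_3_141 : pfC (piC [(nat_lit 35755509), (nat_lit 23968959), (nat_lit 17897616), (nat_lit 12073119)] (nat_lit 5533854)) p13_16_3 (nat_lit 4) (nat_lit 141) (nat_lit 142) = true := by decide +kernel
def p13_16_3_142 : pfC (piC [(nat_lit 35755509), (nat_lit 23968959), (nat_lit 17897616), (nat_lit 12073119)] (nat_lit 5533854)) p13_16_3 (nat_lit 4) (nat_lit 142) (nat_lit 143) = true := by decide +kernel
def p13_16_3_143 : pfC (piC [(nat_lit 35755509), (nat_lit 23968959), (nat_lit 17897616), (nat_lit 12073119)] (nat_lit 5533854)) p13_16_3 (nat_lit 4) (nat_lit 143) (nat_lit 144) = true := by decide +kernel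
def p13_16_3_144 : pfC (piC [(nat_lit 35755509), (nat_lit 23968959), (nat_lit 17897616), (nat_lit 12073119)] (nat_lit 5533854)) p13_16_3 (nat_lit 4) (nat_lit 144) (nat_lit 145) = true := by decide +kernel
def p13_16_3_145 : pfC (piC [(nat_lit 35755509), (nat_lit 23968959), (nat_lit 17897616), (nat_lit 12073119)] (nat_lit 5533854)) p13_16_3 (nat_lit 4) (nat_lit 145) (nat_lit 146) = true := by decide +kernel
def p13_16_3_146 : pfC (piC [(nat_lit 35755509), (nat_lit 23968959), (nat_lit 17897616), (nat_lit 12073119)] (nat_lit 5533854)) p13_16_3 (nat_lit 4) (nat_lit 146) (nat_lit 147) = true := by decide +kernel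
def p13_16_3_147 : pfC (piC [(nat_lit 35755509), (nat_lit 23968959), (nat_lit 17897616), (nat_lit 12073119)] (nat_lit 5533854)) p13_16_3 (nat_lit 4) (nat_lit 147) (nat_lit 148) = true := by decide +kernel
def p13_16_3_148 : pfC (piC [(nat_lit 35755509), (nat_lit 23968959), (nat_lit 17897616), (nat_lit 12073119)] (nat_lit 5533854)) p13_16_3 (nat_lit 4) (nat_lit 148) (nat_lit 149) = true := by decide +kernel
def p13_16_3_149 : pfC (piC [(nat_lit 35755509), (nat_lit 23968959), (nat_lit 17897616), (nat_lit 12073119)] (nat_lit 5533854)) p13_16_3 (nat_lit 4) (nat_lit 149) (nat_lit 150) = true := by decide +kernel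
def p13_16_3_150 : pfC (piC [(nat_lit 35755509), (nat_lit 23968959), (nat_lit 17897616), (nat_lit 12073119)] (nat_lit 5533854)) p13_16_3 (nat_lit 4) (nat_lit 150) (nat_lit 151) = true := by decide +kernel
def p13_16_3_151 : pfC (piC [(nat_lit 35755509), (nat_lit 23968959), (nat_lit 17897616), (nat_lit 12073119)] (nat_lit 5533854)) p13_16_3 (nat_lit 4) (nat_lit 151) (nat_lit 152) = true := by decide +kernel
def p13_16_3_152 : pfC (piC [(nat_lit 35755509), (nat_lit 23968959), (nat_lit 17897616), (nat_lit 12073119)] (nat_lit 5533854)) p13_16_3 (nat_lit 4) (nat_lit 152) (nat_lit 153) = true := by decide +kernel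
def p13_16_3_153 : pfC (piC [(nat_lit 35755509), (nat_lit 23968959), (nat_lit 17897616), (nat_lit 12073119)] (nat_lit 5533854)) p13_16_3 (nat_lit 4) (nat_lit 153) (nat_lit 154) = true := by decide +kernel
def p13_16_3_154 : pfC (piC [(nat_lit 35755509), (nat_lit 23968959), (nat_lit 17897616), (nat_lit 12073119)] (nat_lit 5533854)) p13_16_3 (nat_lit 4) (nat_lit 154) (nat_lit 155) = true := by decide +kernel
def p13_16_3_155 : pfC (piC [(nat_lit 35755509), (nat_lit 23968959), (nat_lit 17897616), (nat_lit 12073119)] (nat_lit 5533854)) p13_16_3 (nat_lit 4) (nat_lit 155) (nat_lit 156) = true := by decide +kernel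
def p13_16_3_156 : pfC (piC [(nat_lit 35755509), (nat_lit 23968959), (nat_lit 17897616), (nat_lit 12073119)] (nat_lit 5533854)) p13_16_3 (nat_lit 4) (nat_lit 156) (nat_lit 157) = true := by decide +kernel
def p13_16_3_157 : pfC (piC [(nat_lit 35755509), (nat_lit 23968959), (nat_lit 17897616), (nat_lit 12073119)] (nat_lit 5533854)) p13_16_3 (nat_lit 4) (nat_lit 157) (nat_lit 158) = true := by decide +kernel
def p13_16_3_158 : pfC (piC [(nat_lit 35755509), (nat_lit 23968959), (nat_lit 17897616), (nat_lit 12073119)] (nat_lit 5533854)) p13_16_3 (nat_lit 4) (nat_lit 158) (nat_lit 159) = true := by decide +kernel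
def p13_16_3_159 : pfC (piC [(nat_lit 35755509), (nat_lit 23968959), (nat_lit 17897616), (nat_lit 12073119)] (nat_lit 5533854)) p13_16_3 (nat_lit 4) (nat_lit 159) (nat_lit 160) = true := by decide +kernel
def p13_16_3_160 : pfC (piC [(nat_lit 35755509), (nat_lit 23968959), (nat_lit 17897616), (nat_lit 12073119)] (nat_lit 5533854)) p13_16_3 (nat_lit 4) (nat_lit 160) (nat_lit 161) = true := by decide +kernel
def p13_16_3_161 : pfC (piC [(nat_lit 35755509), (nat_lit 23968959), (nat_lit 17897616), (nat_lit 12073119)] (nat_lit 5533854)) p13_16_3 (nat_lit 4) (nat_lit 161) (nat_lit 162) = true := by decide +kernel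
def p13_16_3_162 : pfC (piC [(nat_lit 35755509), (nat_lit 23968959), (nat_lit 17897616), (nat_lit 12073119)] (nat_lit 5533854)) p13_16_3 (nat_lit 4) (nat_lit 162) (nat_lit 163) = true := by decide +kernel
def p13_16_3_163 : pfC (piC [(nat_lit 35755509), (nat_lit 23968959), (nat_lit 17897616), (nat_lit 12073119)] (nat_lit 5533854)) p13_16_3 (nat_lit 4) (nat_lit 163) (nat_lit 164) = true := by decide +kernel
def p13_16_3_164 : pfC (piC [(nat_lit 35755509), (nat_lit 23968959), (nat_lit 17897616), (nat_lit 12073119)] (nat_lit 5533854)) p13_16_3 (nat_lit 4) (nat_lit 164) (nat_lit 165) = true := by decide +kernel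
def p13_16_3_165 : pfC (piC [(nat_lit 35755509), (nat_lit 23968959), (nat_lit 17897616), (nat_lit 12073119)] (nat_lit 5533854)) p13_16_3 (nat_lit 4) (nat_lit 165) (nat_lit 166) = true := by decide +kernel
def p13_16_3_166 : pfC (piC [(nat_lit 35755509), (nat_lit 23968959), (nat_lit 17897616), (nat_lit 12073119)] (nat_lit 5533854)) p13_16_3 (nat_lit 4) (nat_lit 166) (nat_lit 167) = true := by decide +kernel
def p13_16_3_167 : pfC (piC [(nat_lit 35755509), (nat_lit 23968959), (nat_lit 17897616), (nat_lit 12073119)] (nat_lit 5533854)) p13_16_3 (nat_lit 4) (nat_lit 167) (nat_lit 168) = true := by decide +kernel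
def p13_16_3_168 : pfC (piC [(nat_lit 35755509), (nat_lit 23968959), (nat_lit 17897616), (nat_lit 12073119)] (nat_lit 5533854)) p13_16_3 (nat_lit 4) (nat_lit 168) (nat_lit 169) = true := by decide +kernel
def p13_16_3_169 : pfC (piC [(nat_lit 35755509), (nat_lit 23968959), (nat_lit 17897616), (nat_lit 12073119)] (nat_lit 5533854)) p13_16_3 (nat_lit 4) (nat_lit 169) (nat_lit 170) = true := by decide +kernel
def p13_16_3_170 : pfC (piC [(nat_lit 35755509), (nat_lit 23968959), (nat_lit 17897616), (nat_lit 12073119)] (nat_lit 5533854)) p13_16_3 (nat_lit 4) (nat_lit 170) (nat_lit 171) = true := by decide +kernel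
def p13_16_3_171 : pfC (piC [(nat_lit 35755509), (nat_lit 23968959), (nat_lit 17897616), (nat_lit 12073119)] (nat_lit 5533854)) p13_16_3 (nat_lit 4) (nat_lit 171) (nat_lit 172) = true := by decide +kernel
def p13_16_3_172 : pfC (piC [(nat_lit 35755509), (nat_lit 23968959), (nat_lit 17897616), (nat_lit 12073119)] (nat_lit 5533854)) p13_16_3 (nat_lit 4) (nat_lit 172) (nat_lit 173) = true := by decide +kernel
def p13_16_3_173 : pfC (piC [(nat_lit 35755509), (nat_lit 23968959), (nat_lit 17897616), (nat_lit 12073119)] (nat_lit 5533854)) p13_16_3 (nat_lit 4) (nat_lit 173) (nat_lit 174) = true := by decide +kernel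
def p13_16_3_174 : pfC (piC [(nat_lit 35755509), (nat_lit 23968959), (nat_lit 17897616), (nat_lit 12073119)] (nat_lit 5533854)) p13_16_3 (nat_lit 4) (nat_lit 174) (nat_lit 175) = true := by decide +kernel
def p13_16_3_175 : pfC (piC [(nat_lit 35755509), (nat_lit 23968959), (nat_lit 17897616), (nat_lit 12073119)] (nat_lit 5533854)) p13_16_3 (nat_lit 4) (nat_lit 175) (nat_lit 176) = true := by decide +kernel
def p13_16_3_176 : pfC (piC [(nat_lit 35755509), (nat_lit 23968959), (nat_lit 17897616), (nat_lit 12073119)] (nat_lit 5533854)) p13_16_3 (nat_lit 4) (nat_lit 176) (nat_lit 177) = true := by decide +kernel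
def p13_16_3_177 : pfC (piC [(nat_lit 35755509), (nat_lit 23968959), (nat_lit 17897616), (nat_lit 12073119)] (nat_lit 5533854)) p13_16_3 (nat_lit 4) (nat_lit 177) (nat_lit 178) = true := by decide +kernel
def p13_16_3_178 : pfC (piC [(nat_lit 35755509), (nat_lit 23968959), (nat_lit 17897616), (nat_lit 12073119)] (nat_lit 5533854)) p13_16_3 (nat_lit 4) (nat_lit 178) (nat_lit 179) = true := by decide +kernel
def p13_16_3_179 : pfC (piC [(nat_lit 35755509), (nat_lit 23968959), (nat_lit 17897616), (nat_lit 12073119)] (nat_lit 5533854)) p13_16_3 (nat_lit 4) (nat_lit 179) (nat_lit 180) = true := by decide +kernel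
def p13_16_3_180 : pfC (piC [(nat_lit 35755509), (nat_lit 23968959), (nat_lit 17897616), (nat_lit 12073119)] (nat_lit 5533854)) p13_16_3 (nat_lit 4) (nat_lit 180) (nat_lit 181) = true := by decide +kernel
def p13_16_3_181 : pfC (piC [(nat_lit 35755509), (nat_lit 23968959), (nat_lit 17897616), (nat_lit 12073119)] (nat_lit 5533854)) p13_16_3 (nat_lit 4) (nat_lit 181) (nat_lit 182) = true := by decide +kernel
def p13_16_3_182 : pfC (piC [(nat_lit 35755509), (nat_lit 23968959), (nat_lit 17897616), (nat_lit 12073119)] (nat_lit 5533854)) p13_16_3 (nat_lit 4) (nat_lit 182) (nat_lit 183) = true := by decide +kernel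
def p13_16_3_183 : pfC (piC [(nat_lit 35755509), (nat_lit 23968959), (nat_lit 17897616), (nat_lit 12073119)] (nat_lit 5533854)) p13_16_3 (nat_lit 4) (nat_lit 183) (nat_lit 184) = true := by decide +kernel
def p13_16_3_184 : pfC (piC [(nat_lit 35755509), (nat_lit 23968959), (nat_lit 17897616), (nat_lit 12073119)] (nat_lit 5533854)) p13_16_3 (nat_lit 4) (nat_lit 184) (nat_lit 185) = true := by decide +kernel
def p13_16_3_185 : pfC (piC [(nat_lit 35755509), (nat_lit 23968959), (nat_lit 17897616), (nat_lit 12073119)] (nat_lit 5533854)) p13_16_3 (nat_lit 4) (nat_lit 185) (nat_lit 186) = true := by decide +kernel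
def p13_16_3_186 : pfC (piC [(nat_lit 35755509), (nat_lit 23968959), (nat_lit 17897616), (nat_lit 12073119)] (nat_lit 5533854)) p13_16_3 (nat_lit 4) (nat_lit 186) (nat_lit 187) = true := by decide +kernel
def p13_16_3_187 : pfC (piC [(nat_lit 35755509), (nat_lit 23968959), (nat_lit 17897616), (nat_lit 12073119)] (nat_lit 5533854)) p13_16_3 (nat_lit 4) (nat_lit 187) (nat_lit 188) = true := by decide +kernel
def p13_16_3_188 : pfC (piC [(nat_lit 35755509), (nat_lit 23968959), (nat_lit 17897616), (nat_lit 12073119)] (nat_lit 5533854)) p13_16_3 (nat_lit 4) (nat_lit 188) (nat_lit 189) = true := by decide +kernel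
def p13_16_3_189 : pfC (piC [(nat_lit 35755509), (nat_lit 23968959), (nat_lit 17897616), (nat_lit 12073119)] (nat_lit 5533854)) p13_16_3 (nat_lit 4) (nat_lit 189) (nat_lit 190) = true := by decide +kernel
def p13_16_3_190 : pfC (piC [(nat_lit 35755509), (nat_lit 23968959), (nat_lit 17897616), (nat_lit 12073119)] (nat_lit 5533854)) p13_16_3 (nat_lit 4) (nat_lit 190) (nat_lit 191) = true := by decide +kernel
def p13_16_3_191 : pfC (piC [(nat_lit 35755509), (nat_lit 23968959), (nat_lit 17897616), (nat_lit 12073119)] (nat_lit 5533854)) p13_16_3 (nat_lit 4) (nat_lit 191) (nat_lit 192) = true := by decide +kernel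
def p13_16_3_192 : pfC (piC [(nat_lit 35755509), (nat_lit 23968959), (nat_lit 17897616), (nat_lit 12073119)] (nat_lit 5533854)) p13_16_3 (nat_lit 4) (nat_lit 192) (nat_lit 193) = true := by decide +kernel
def p13_16_3_193 : pfC (piC [(nat_lit 35755509), (nat_lit 23968959), (nat_lit 17897616), (nat_lit 12073119)] (nat_lit 5533854)) p13_16_3 (nat_lit 4) (nat_lit 193) (nat_lit 194) = true := by decide +kernel
def p13_16_3_194 : pfC (piC [(nat_lit 35755509), (nat_lit 23968959), (nat_lit 17897616), (nat_lit 12073119)] (nat_lit 5533854)) p13_16_3 (nat_lit 4) (nat_lit 194) (nat_lit 195) = true := by decide +kernel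
def p13_16_3_195 : pfC (piC [(nat_lit 35755509), (nat_lit 23968959), (nat_lit 17897616), (nat_lit 12073119)] (nat_lit 5533854)) p13_16_3 (nat_lit 4) (nat_lit 195) (nat_lit 196) = true := by decide +kernel
def p13_16_3_196 : pfC (piC [(nat_lit 35755509), (nat_lit 23968959), (nat_lit 17897616), (nat_lit 12073119)] (nat_lit 5533854)) p13_16_3 (nat_lit 4) (nat_lit 196) (nat_lit 197) = true := by decide +kernel
def p13_16_3_197 : pfC (piC [(nat_lit 35755509), (nat_lit 23968959), (nat_lit 17897616), (nat_lit 12073119)] (nat_lit 5533854)) p13_16_3 (nat_lit 4) (nat_lit 197) (nat_lit 198) = true := by decide +kernel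
def p13_16_3_198 : pfC (piC [(nat_lit 35755509), (nat_lit 23968959), (nat_lit 17897616), (nat_lit 12073119)] (nat_lit 5533854)) p13_16_3 (nat_lit 4) (nat_lit 198) (nat_lit 199) = true := by decide +kernel
def p13_16_3_199 : pfC (piC [(nat_lit 35755509), (nat_lit 23968959), (nat_lit 17897616), (nat_lit 12073119)] (nat_lit 5533854)) p13_16_3 (nat_lit 4) (nat_lit 199) (nat_lit 200) = true := by decide +kernel
def p13_16_3_200 : pfC (piC [(nat_lit 35755509), (nat_lit 23968959), (nat_lit 17897616), (nat_lit 12073119)] (nat_lit 5533854)) p13_16_3 (nat_lit 4) (nat_lit 200) (nat_lit 201) = true := by decide +kernel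
def p13_16_3_201 : pfC (piC [(nat_lit 35755509), (nat_lit 23968959), (nat_lit 17897616), (nat_lit 12073119)] (nat_lit 5533854)) p13_16_3 (nat_lit 4) (nat_lit 201) (nat_lit 202) = true := by decide +kernel
def p13_16_3_202 : pfC (piC [(nat_lit 35755509), (nat_lit 23968959), (nat_lit 17897616), (nat_lit 12073119)] (nat_lit 5533854)) p13_16_3 (nat_lit 4) (nat_lit 202) (nat_lit 203) = true := by decide +kernel
def p13_16_3_203 : pfC (piC [(nat_lit 35755509), (nat_lit 23968959), (nat_lit 17897616), (nat_lit 12073119)] (nat_lit 5533854)) p13_16_3 (nat_lit 4) (nat_lit 203) (nat_lit 204) = true := by decide +kernel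
def p13_16_3_204 : pfC (piC [(nat_lit 35755509), (nat_lit 23968959), (nat_lit 17897616), (nat_lit 12073119)] (nat_lit 5533854)) p13_16_3 (nat_lit 4) (nat_lit 204) (nat_lit 205) = true := by decide +kernel
def p13_16_3_205 : pfC (piC [(nat_lit 35755509), (nat_lit 23968959), (nat_lit 17897616), (nat_lit 12073119)] (nat_lit 5533854)) p13_16_3 (nat_lit 4) (nat_lit 205) (nat_lit 206) = true := by decide +kernel
def p13_16_3_206 : pfC (piC [(nat_lit 35755509), (nat_lit 23968959), (nat_lit 17897616), (nat_lit 12073119)] (nat_lit 5533854)) p13_16_3 (nat_lit 4) (nat_lit 206) (nat_lit 207) = true := by decide +kernel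
def p13_16_3_207 : pfC (piC [(nat_lit 35755509), (nat_lit 23968959), (nat_lit 17897616), (nat_lit 12073119)] (nat_lit 5533854)) p13_16_3 (nat_lit 4) (nat_lit 207) (nat_lit 208) = true := by decide +kernel
def p13_16_3_208 : pfC (piC [(nat_lit 35755509), (nat_lit 23968959), (nat_lit 17897616), (nat_lit 12073119)] (nat_lit 5533854)) p13_16_3 (nat_lit 4) (nat_lit 208) (nat_lit 209) = true := by decide +kernel
def p13_16_3_209 : pfC (piC [(nat_lit 35755509), (nat_lit 23968959), (nat_lit 17897616), (nat_lit 12073119)] (nat_lit 5533854)) p13_16_3 (nat_lit 4) (nat_lit 209) (nat_lit 210) = true := by decide +kernel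
def p13_16_3_210 : pfC (piC [(nat_lit 35755509), (nat_lit 23968959), (nat_lit 17897616), (nat_lit 12073119)] (nat_lit 5533854)) p13_16_3 (nat_lit 4) (nat_lit 210) (nat_lit 211) = true := by decide +kernel
def p13_16_3_211 : pfC (piC [(nat_lit 35755509), (nat_lit 23968959), (nat_lit 17897616), (nat_lit 12073119)] (nat_lit 5533854)) p13_16_3 (nat_lit 4) (nat_lit 211) (nat_lit 212) = true := by decide +kernel
def p13_16_3_212 : pfC (piC [(nat_lit 35755509), (nat_lit 23968959), (nat_lit 17897616), (nat_lit 12073119)] (nat_lit 5533854)) p13_16_3 (nat_lit 4) (nat_lit 212) (nat_lit 213) = true := by decide +kernel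
def p13_16_3_213 : pfC (piC [(nat_lit 35755509), (nat_lit 23968959), (nat_lit 17897616), (nat_lit 12073119)] (nat_lit 5533854)) p13_16_3 (nat_lit 4) (nat_lit 213) (nat_lit 214) = true := by decide +kernel
def p13_16_3_214 : pfC (piC [(nat_lit 35755509), (nat_lit 23968959), (nat_lit 17897616), (nat_lit 12073119)] (nat_lit 5533854)) p13_16_3 (nat_lit 4) (nat_lit 214) (nat_lit 215) = true := by decide +kernel
def p13_16_3_215 : pfC (piC [(nat_lit 35755509), (nat_lit 23968959), (nat_lit 17897616), (nat_lit 12073119)] (nat_lit 5533854)) p13_16_3 (nat_lit 4) (nat_lit 215) (nat_lit 216) = true := by decide +kernel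
def p13_16_3_216 : pfC (piC [(nat_lit 35755509), (nat_lit 23968959), (nat_lit 17897616), (nat_lit 12073119)] (nat_lit 5533854)) p13_16_3 (nat_lit 4) (nat_lit 216) (nat_lit 217) = true := by decide +kernel
def p13_16_3_217 : pfC (piC [(nat_lit 35755509), (nat_lit 23968959), (nat_lit 17897616), (nat_lit 12073119)] (nat_lit 5533854)) p13_16_3 (nat_lit 4) (nat_lit 217) (nat_lit 218) = true := by decide +kernel
def p13_16_3_218 : pfC (piC [(nat_lit 35755509), (nat_lit 23968959), (nat_lit 17897616), (nat_lit 12073119)] (nat_lit 5533854)) p13_16_3 (nat_lit 4) (nat_lit 218) (nat_lit 219) = true := by decide +kernel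
def p13_16_3_219 : pfC (piC [(nat_lit 35755509), (nat_lit 23968959), (nat_lit 17897616), (nat_lit 12073119)] (nat_lit 5533854)) p13_16_3 (nat_lit 4) (nat_lit 219) (nat_lit 220) = true := by decide +kernel
def p13_16_3_220 : pfC (piC [(nat_lit 35755509), (nat_lit 23968959), (nat_lit 17897616), (nat_lit 12073119)] (nat_lit 5533854)) p13_16_3 (nat_lit 4) (nat_lit 220) (nat_lit 221) = true := by decide +kernel
def p13_16_3_221 : pfC (piC [(nat_lit 35755509), (nat_lit 23968959), (nat_lit 17897616), (nat_lit 12073119)] (nat_lit 5533854)) p13_16_3 (nat_lit 4) (nat_lit 221) (nat_lit 222) = true := by decide +kernel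
def p13_16_3_222 : pfC (piC [(nat_lit 35755509), (nat_lit 23968959), (nat_lit 17897616), (nat_lit 12073119)] (nat_lit 5533854)) p13_16_3 (nat_lit 4) (nat_lit 222) (nat_lit 223) = true := by decide +kernel
def p13_16_3_223 : pfC (piC [(nat_lit 35755509), (nat_lit 23968959), (nat_lit 17897616), (nat_lit 12073119)] (nat_lit 5533854)) p13_16_3 (nat_lit 4) (nat_lit 223) (nat_lit 224) = true := by decide +kernel
def p13_16_3_224 : pfC (piC [(nat_lit 35755509), (nat_lit 23968959), (nat_lit 17897616), (nat_lit 12073119)] (nat_lit 5533854)) p13_16_3 (nat_lit 4) (nat_lit 224) (nat_lit 225) = true := by decide +kernel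
def p13_16_3_225 : pfC (piC [(nat_lit 35755509), (nat_lit 23968959), (nat_lit 17897616), (nat_lit 12073119)] (nat_lit 5533854)) p13_16_3 (nat_lit 4) (nat_lit 225) (nat_lit 226) = true := by decide +kernel
def p13_16_3_226 : pfC (piC [(nat_lit 35755509), (nat_lit 23968959), (nat_lit 17897616), (nat_lit 12073119)] (nat_lit 5533854)) p13_16_3 (nat_lit 4) (nat_lit 226) (nat_lit 227) = true := by decide +kernel
def p13_16_3_227 : pfC (piC [(nat_lit 35755509), (nat_lit 23968959), (nat_lit 17897616), (nat_lit 12073119)] (nat_lit 5533854)) p13_16_3 (nat_lit 4) (nat_lit 227) (nat_lit 228) = true := by decide +kernel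
def p13_16_3_228 : pfC (piC [(nat_lit 35755509), (nat_lit 23968959), (nat_lit 17897616), (nat_lit 12073119)] (nat_lit 5533854)) p13_16_3 (nat_lit 4) (nat_lit 228) (nat_lit 229) = true := by decide +kernel
def p13_16_3_229 : pfC (piC [(nat_lit 35755509), (nat_lit 23968959), (nat_lit 17897616), (nat_lit 12073119)] (nat_lit 5533854)) p13_16_3 (nat_lit 4) (nat_lit 229) (nat_lit 230) = true := by decide +kernel
def p13_16_3_230 : pfC (piC [(nat_lit 35755509), (nat_lit 23968959), (nat_lit 17897616), (nat_lit 12073119)] (nat_lit 5533854)) p13_16_3 (nat_lit 4) (nat_lit 230) (nat_lit 231) = true := by decide +kernel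
def p13_16_3_231 : pfC (piC [(nat_lit 35755509), (nat_lit 23968959), (nat_lit 17897616), (nat_lit 12073119)] (nat_lit 5533854)) p13_16_3 (nat_lit 4) (nat_lit 231) (nat_lit 232) = true := by decide +kernel
def p13_16_3_232 : pfC (piC [(nat_lit 35755509), (nat_lit 23968959), (nat_lit 17897616), (nat_lit 12073119)] (nat_lit 5533854)) p13_16_3 (nat_lit 4) (nat_lit 232) (nat_lit 233) = true := by decide +kernel
def p13_16_3_233 : pfC (piC [(nat_lit 35755509), (nat_lit 23968959), (nat_lit 17897616), (nat_lit 12073119)] (nat_lit 5533854)) p13_16_3 (nat_lit 4) (nat_lit 233) (nat_lit 234) = true := by decide +kernel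
def p13_16_3_234 : pfC (piC [(nat_lit 35755509), (nat_lit 23968959), (nat_lit 17897616), (nat_lit 12073119)] (nat_lit 5533854)) p13_16_3 (nat_lit 4) (nat_lit 234) (nat_lit 235) = true := by decide +kernel
def p13_16_3_235 : pfC (piC [(nat_lit 35755509), (nat_lit 23968959), (nat_lit 17897616), (nat_lit 12073119)] (nat_lit 5533854)) p13_16_3 (nat_lit 4) (nat_lit 235) (nat_lit 236) = true := by decide +kernel
def p13_16_3_236 : pfC (piC [(nat_lit 35755509), (nat_lit 23968959), (nat_lit 17897616), (nat_lit 12073119)] (nat_lit 5533854)) p13_16_3 (nat_lit 4) (nat_lit 236) (nat_lit 237) = true := by decide +kernel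
def p13_16_3_237 : pfC (piC [(nat_lit 35755509), (nat_lit 23968959), (nat_lit 17897616), (nat_lit 12073119)] (nat_lit 5533854)) p13_16_3 (nat_lit 4) (nat_lit 237) (nat_lit 238) = true := by decide +kernel
def p13_16_3_238 : pfC (piC [(nat_lit 35755509), (nat_lit 23968959), (nat_lit 17897616), (nat_lit 12073119)] (nat_lit 5533854)) p13_16_3 (nat_lit 4) (nat_lit 238) (nat_lit 239) = true := by decide +kernel
def p13_16_3_239 : pfC (piC [(nat_lit 35755509), (nat_lit 23968959), (nat_lit 17897616), (nat_lit 12073119)] (nat_lit 5533854)) p13_16_3 (nat_lit 4) (nat_lit 239) (nat_lit 240) = true := by decide +kernel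
def p13_16_3_240 : pfC (piC [(nat_lit 35755509), (nat_lit 23968959), (nat_lit 17897616), (nat_lit 12073119)] (nat_lit 5533854)) p13_16_3 (nat_lit 4) (nat_lit 240) (nat_lit 241) = true := by decide +kernel
def p13_16_3_241 : pfC (piC [(nat_lit 35755509), (nat_lit 23968959), (nat_lit 17897616), (nat_lit 12073119)] (nat_lit 5533854)) p13_16_3 (nat_lit 4) (nat_lit 241) (nat_lit 242) = true := by decide +kernel
def p13_16_3_242 : pfC (piC [(nat_lit 35755509), (nat_lit 23968959), (nat_lit 17897616), (nat_lit 12073119)] (nat_lit 5533854)) p13_16_3 (nat_lit 4) (nat_lit 242) (nat_lit 243) = true := by decide +kernel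
def p13_16_3_243 : pfC (piC [(nat_lit 35755509), (nat_lit 23968959), (nat_lit 17897616), (nat_lit 12073119)] (nat_lit 5533854)) p13_16_3 (nat_lit 4) (nat_lit 243) (nat_lit 244) = true := by decide +kernel
theorem p13_16_3_T : PfS (PiF n13_16.reverse (nat_lit 5533854)) p13_16_3 (nat_lit 4) [] 0 :=
  pftab_of (los := [(nat_lit 35755509), (nat_lit 23968959), (nat_lit 17897616), (nat_lit 12073119)]) (by decide +kernel) (hi := (nat_lit 244)) (PfP.trans (PfP.trans (PfP.trans (PfP.trans (PfP.trans (PfP.trans (PfP.trans (PfP.trans (PfP.trans (PfP.trans (PfP.trans (PfP.trans (PfP.trans (PfP.trans (PfP.trans (PfP.trans (PfP.trans (PfP.trans (PfP.trans (PfP.trans (PfP.trans (PfP.trans (PfP.trans (PfP.trans (PfP.trans (PfP.trans (PfP.trans (PfP.trans (PfP.trans (PfP.trans (PfP.trans (PfP.trans (PfP.trans (PfP.trans (PfP.trans (PfP.trans (PfP.trans (PfP.trans (PfP.trans (PfP.trans (PfP.trans (PfP.trans (PfP.trans (PfP.trans (PfP.trans (PfP.trans (PfP.trans (PfP.trans (PfP.trans (PfP.trans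 (PfP.trans (PfP.trans (PfP.trans (PfP.trans (PfP.trans (PfP.trans (PfP.trans (PfP.trans (PfP.trans (PfP.trans (PfP.trans (PfP.trans (PfP.trans (PfP.trans (PfP.trans (PfP.trans (PfP.trans (PfP.trans (PfP.trans (PfP.trans (PfP.trans (PfP.trans (PfP.trans (PfP.trans (PfP.trans (PfP.trans (PfP.trans (PfP.trans (PfP.trans (PfP.trans (PfP.trans (PfP.trans (PfP.trans (PfP.trans (PfP.trans (PfP.trans (PfP.trans (PfP.trans (PfP.trans (PfP.trans (PfP.trans (PfP.trans (PfP.trans (PfP.trans (PfP.trans (PfP.trans (PfP.trans (PfP.trans (PfP.trans (PfP.trans (PfP.trans (PfP.trans (PfP.trans (PfP.trans (PfP.trans (PfP.trans (PfP.trans (PfP.trans (PfP.trans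
 (PfP.trans (PfP.trans (PfP.trans (PfP.trans (PfP.trans (PfP.trans (PfP.trans (PfP.trans (PfP.trans (PfP.trans (PfP.trans (PfP.trans (PfP.trans (PfP.trans (PfP.trans (PfP.trans (PfP.trans (PfP.trans (PfP.trans (PfP.trans (PfP.trans (PfP.trans (PfP.trans (PfP.trans (PfP.trans (PfP.trans (PfP.trans (PfP.trans (PfP.trans (PfP.trans (PfP.trans (PfP.trans (PfP.trans (PfP.trans (PfP.trans (PfP.trans (PfP.trans (PfP.trans (PfP.trans (PfP.trans (PfP.trans (PfP.trans (PfP.trans (PfP.trans (PfP.trans (PfP.trans (PfP.trans (PfP.trans (PfP.trans (PfP.trans (PfP.trans (PfP.trans (PfP.trans (PfP.trans (PfP.trans (PfP.trans (PfP.trans (PfP.trans (PfP.trans (PfP.trans (PfP.trans (PfP.trans (PfP.trans (PfP.trans (PfP.trans (PfP.trans (PfP.trans (PfP.trans (PfP.trans (PfP.trans (PfP.trans (PfP.trans (PfP.trans (PfP.trans (PfP.trans (PfP.trans (PfP.trans (PfP.trans (PfP.trans (PfP.trans (PfP.trans (PfP.trans (PfP.trans (PfP.trans (PfP.trans (PfP.trans (PfP.trans (PfP.trans (PfP.trans (PfP.trans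 (PfP.trans (PfP.trans (PfP.trans (PfP.trans (PfP.trans (PfP.trans (PfP.trans (PfP.trans (PfP.trans (PfP.trans (PfP.trans (PfP.trans (PfP.trans (PfP.trans (PfP.trans (PfP.trans (PfP.trans (PfP.trans (PfP.trans
 (PfP.trans (PfP.trans (PfP.trans (PfP.trans (PfP.trans (PfP.trans (PfP.trans (PfP.trans (PfP.trans (PfP.trans (PfP.trans (PfP.trans (PfP.trans (PfP.trans (PfP.trans (PfP.trans (PfP.trans (PfP.trans (PfP.trans (PfP.trans (PfP.trans (PfP.trans (PfP.trans (PfP.trans (PfP.trans (pfC_sound p13_16_3_0) (pfC_sound p13_16_3_1)) (pfC_sound p13_16_3_2)) (pfC_sound p13_16_3_3)) (pfC_sound p13_16_3_4)) (pfC_sound p13_16_3_5)) (pfC_sound p13_16_3_6)) (pfC_sound p13_16_3_7)) (pfC_sound p13_16_3_8)) (pfC_sound p13_16_3_9)) (pfC_sound p13_16_3_10)) (pfC_sound p13_16_3_11)) (pfC_sound p13_16_3_12)) (pfC_sound p13_16_3_13)) (pfC_sound p13_16_3_14)) (pfC_sound p13_16_3_15)) (pfC_sound p13_16_3_16)) (pfC_sound p13_16_3_17)) (pfC_sound p13_16_3_18)) (pfC_sound p13_16_3_19)) (pfC_sound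 p13_16_3_20)) (pfC_sound p13_16_3_21)) (pfC_sound p13_16_3_22)) (pfC_sound p13_16_3_23)) (pfC_sound p13_16_3_24)) (pfC_sound p13_16_3_25)) (pfC_sound p13_16_3_26)) (pfC_sound p13_16_3_27)) (pfC_sound p13_16_3_28)) (pfC_sound p13_16_3_29)) (pfC_sound p13_16_3_30)) (pfC_sound p13_16_3_31)) (pfC_sound p13_16_3_32)) (pfC_sound p13_16_3_33)) (pfC_sound p13_16_3_34)) (pfC_sound p13_16_3_35)) (pfC_sound p13_16_3_36)) (pfC_sound
 p13_16_3_37)) (pfC_sound p13_16_3_38)) (pfC_sound p13_16_3_39)) (pfC_sound p13_16_3_40)) (pfC_sound p13_16_3_41)) (pfC_sound p13_16_3_42)) (pfC_sound p13_16_3_43)) (pfC_sound p13_16_3_44)) (pfC_sound p13_16_3_45)) (pfC_sound p13_16_3_46)) (pfC_sound p13_16_3_47)) (pfC_sound p13_16_3_48)) (pfC_sound p13_16_3_49)) (pfC_sound p13_16_3_50)) (pfC_sound p13_16_3_51)) (pfC_sound p13_16_3_52)) (pfC_sound p13_16_3_53)) (pfC_sound p13_16_3_54)) (pfC_sound p13_16_3_55)) (pfC_sound p13_16_3_56)) (pfC_sound p13_16_3_57)) (pfC_sound p13_16_3_58)) (pfC_sound p13_16_3_59))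 (pfC_sound p13_16_3_60)) (pfC_sound p13_16_3_61)) (pfC_sound p13_16_3_62)) (pfC_sound p13_16_3_63)) (pfC_sound p13_16_3_64)) (pfC_sound p13_16_3_65)) (pfC_sound p13_16_3_66)) (pfC_sound p13_16_3_67)) (pfC_sound p13_16_3_68)) (pfC_sound p13_16_3_69)) (pfC_sound p13_16_3_70)) (pfC_sound p13_16_3_71)) (pfC_sound p13_16_3_72)) (pfC_sound p13_16_3_73)) (pfC_sound p13_16_3_74)) (pfC_sound p13_16_3_75)) (pfC_sound p13_16_3_76)) (pfC_sound p13_16_3_77)) (pfC_sound p13_16_3_78)) (pfC_sound p13_16_3_79)) (pfC_sound p13_16_3_80)) (pfC_sound p13_16_3_81)) (pfC_sound p13_16_3_82)) (pfC_sound p13_16_3_83)) (pfC_sound p13_16_3_84)) (pfC_sound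
 p13_16_3_85)) (pfC_sound p13_16_3_86)) (pfC_sound p13_16_3_87)) (pfC_sound p13_16_3_88)) (pfC_sound p13_16_3_89)) (pfC_sound p13_16_3_90)) (pfC_sound p13_16_3_91)) (pfC_sound p13_16_3_92)) (pfC_sound p13_16_3_93)) (pfC_sound p13_16_3_94)) (pfC_sound p13_16_3_95)) (pfC_sound p13_16_3_96)) (pfC_sound p13_16_3_97)) (pfC_sound p13_16_3_98)) (pfC_sound p13_16_3_99)) (pfC_sound p13_16_3_100)) (pfC_sound p13_16_3_101)) (pfC_sound p13_16_3_102)) (pfC_sound p13_16_3_103)) (pfC_sound p13_16_3_104)) (pfC_sound p13_16_3_105)) (pfC_sound p13_16_3_106)) (pfC_sound p13_16_3_107)) (pfC_sound p13_16_3_108)) (pfC_sound p13_16_3_109)) (pfC_sound p13_16_3_110)) (pfC_sound p13_16_3_111)) (pfC_sound p13_16_3_112)) (pfC_sound p13_16_3_113)) (pfC_sound p13_16_3_114)) (pfC_sound p13_16_3_115)) (pfC_sound p13_16_3_116)) (pfC_sound p13_16_3_117)) (pfC_sound p13_16_3_118)) (pfC_sound p13_16_3_119)) (pfC_sound p13_16_3_120)) (pfC_sound p13_16_3_121)) (pfC_sound p13_16_3_122)) (pfC_sound p13_16_3_123))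 (pfC_sound p13_16_3_124)) (pfC_sound p13_16_3_125)) (pfC_sound p13_16_3_126)) (pfC_sound p13_16_3_127)) (pfC_sound p13_16_3_128)) (pfC_sound p13_16_3_129)) (pfC_sound p13_16_3_130)) (pfC_sound p13_16_3_131))
 (pfC_sound p13_16_3_132)) (pfC_sound p13_16_3_133)) (pfC_sound p13_16_3_134)) (pfC_sound p13_16_3_135)) (pfC_sound p13_16_3_136)) (pfC_sound p13_16_3_137)) (pfC_sound p13_16_3_138)) (pfC_sound p13_16_3_139)) (pfC_sound p13_16_3_140)) (pfC_sound p13_16_3_141)) (pfC_sound p13_16_3_142)) (pfC_sound p13_16_3_143)) (pfC_sound p13_16_3_144)) (pfC_sound p13_16_3_145)) (pfC_sound p13_16_3_146)) (pfC_sound p13_16_3_147)) (pfC_sound p13_16_3_148)) (pfC_sound p13_16_3_149)) (pfC_sound p13_16_3_150)) (pfC_sound p13_16_3_151)) (pfC_sound p13_16_3_152)) (pfC_sound p13_16_3_153)) (pfC_sound p13_16_3_154)) (pfC_sound p13_16_3_155)) (pfC_sound p13_16_3_156)) (pfC_sound p13_16_3_157)) (pfC_sound p13_16_3_158)) (pfC_sound p13_16_3_159)) (pfC_sound p13_16_3_160)) (pfC_sound p13_16_3_161))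 (pfC_sound p13_16_3_162)) (pfC_sound p13_16_3_163)) (pfC_sound p13_16_3_164)) (pfC_sound p13_16_3_165)) (pfC_sound p13_16_3_166)) (pfC_sound p13_16_3_167)) (pfC_sound p13_16_3_168)) (pfC_sound p13_16_3_169)) (pfC_sound p13_16_3_170)) (pfC_sound p13_16_3_171)) (pfC_sound p13_16_3_172)) (pfC_sound p13_16_3_173)) (pfC_sound p13_16_3_174)) (pfC_sound p13_16_3_175)) (pfC_sound p13_16_3_176)) (pfC_sound p13_16_3_177))
 (pfC_sound p13_16_3_178)) (pfC_sound p13_16_3_179)) (pfC_sound p13_16_3_180)) (pfC_sound p13_16_3_181)) (pfC_sound p13_16_3_182)) (pfC_sound p13_16_3_183)) (pfC_sound p13_16_3_184)) (pfC_sound p13_16_3_185)) (pfC_sound p13_16_3_186)) (pfC_sound p13_16_3_187)) (pfC_sound p13_16_3_188)) (pfC_sound p13_16_3_189)) (pfC_sound p13_16_3_190)) (pfC_sound p13_16_3_191)) (pfC_sound p13_16_3_192)) (pfC_sound p13_16_3_193)) (pfC_sound p13_16_3_194)) (pfC_sound p13_16_3_195)) (pfC_sound p13_16_3_196)) (pfC_sound p13_16_3_197)) (pfC_sound p13_16_3_198)) (pfC_sound p13_16_3_199))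 (pfC_sound p13_16_3_200)) (pfC_sound p13_16_3_201)) (pfC_sound p13_16_3_202)) (pfC_sound p13_16_3_203)) (pfC_sound p13_16_3_204)) (pfC_sound p13_16_3_205)) (pfC_sound p13_16_3_206)) (pfC_sound p13_16_3_207)) (pfC_sound p13_16_3_208)) (pfC_sound p13_16_3_209)) (pfC_sound p13_16_3_210)) (pfC_sound p13_16_3_211)) (pfC_sound p13_16_3_212)) (pfC_sound p13_16_3_213)) (pfC_sound p13_16_3_214)) (pfC_sound p13_16_3_215)) (pfC_sound p13_16_3_216)) (pfC_sound p13_16_3_217)) (pfC_sound p13_16_3_218)) (pfC_sound p13_16_3_219)) (pfC_sound p13_16_3_220)) (pfC_sound p13_16_3_221)) (pfC_sound p13_16_3_222)) (pfC_sound p13_16_3_223))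
 (pfC_sound p13_16_3_224)) (pfC_sound p13_16_3_225)) (pfC_sound p13_16_3_226)) (pfC_sound p13_16_3_227)) (pfC_sound p13_16_3_228)) (pfC_sound p13_16_3_229)) (pfC_sound p13_16_3_230)) (pfC_sound p13_16_3_231)) (pfC_sound p13_16_3_232)) (pfC_sound p13_16_3_233)) (pfC_sound p13_16_3_234)) (pfC_sound p13_16_3_235)) (pfC_sound p13_16_3_236)) (pfC_sound p13_16_3_237)) (pfC_sound p13_16_3_238)) (pfC_sound p13_16_3_239)) (pfC_sound p13_16_3_240)) (pfC_sound p13_16_3_241)) (pfC_sound p13_16_3_242)) (pfC_sound p13_16_3_243)) (by decide +kernel)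

def z13_16_3 : zOK yB13_16 (nat_lit 3) (nat_lit 750) (nat_lit 792) (nat_lit 5533854) (nat_lit 5533854) = true := by decide +kernel
def g13_16_3 : gOK yB13_16.x P13_16 (nat_lit 1405) (q13_16 :: r13_16) (nat_lit 3) (nat_lit 750) (nat_lit 4) (nat_lit 792) (nat_lit 12712500) (nat_lit 12712500) (nat_lit 12712500) (nat_lit 12712500) [(nat_lit 800)] = true := by decide +kernel
def v13_16_3 : ivC P13_16 s13_16 w13_16 n13_16 (nat_lit 4) (nat_lit 4590) (nat_lit 3) (nat_lit 750) f168_1_750 f176_1_750 (nat_lit 4) (nat_lit 792) f168_1_792 f176_1_792 (nat_lit 5533854) (nat_lit 5533854) p13_16_3 = true := by decide +kernel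
end CB
end Pool.Agent.Lib.MP_6947cd_al
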