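import Pool.Agent.Lib.MP_6947cd_al.L.BoxDataB
import Pool.Agent.Lib.MP_6947cd_al.L.TeD1

/-!
Problem MP_6947cd_al (Chollet).  CASE B, rows `j`: boxes (generated).
-/

set_option autoImplicit false
set_option linter.defProp false
set_option maxRecDepth 20000

namespace Pool.Agent.Lib.MP_6947cd_al
namespace CB

open Ent Ent.Pk Fr Fr.WT CA

/-! box `yB13_17` -/

def P13_17 : BQ := ⟨(nat_lit 8), (nat_lit 8), (nat_lit 0), (nat_lit 4), (nat_lit 4), (nat_lit 880), (nat_lit 900), (nat_lit 90), [(nat_lit 180), (nat_lit 330), (nat_lit 650)], (nat_lit 134960000), (nat_lit 16000000), (nat_lit 16000000000)⟩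
def q13_17 : PC := ⟨(nat_lit 1000), [(nat_lit 90000), (nat_lit 180000), (nat_lit 330000), (nat_lit 650000)], (nat_lit 79228162532711081671548469249000000), (nat_lit 15865040000000), (nat_lit 15865040000000), (nat_lit 10000000)⟩
def r13_17 : List PC := [⟨(nat_lit 1349), [(nat_lit 90558), (nat_lit 180900), (nat_lit 331376), (nat_lit 652104)], (nat_lit 79671127189440139298881288461568861), (nat_lit 16370220234560), (nat_lit 16382038323840), (nat_lit 10062000)⟩]
def s13_17 : List PB := [⟨(nat_lit 26980), (nat_lit 1448928000000), [(nat_lit 180900), (nat_lit 331376), (nat_lit 652104)], (nat_lit 79671127189440139298881288461568861), (nat_lit 1142270127077184), (nat_lit 1142281945166464), (nat_lit 55840)⟩]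
def n13_17 : List KN := [⟨(nat_lit 650), (nat_lit 330), (nat_lit 16296408), (nat_lit 6991654)⟩, ⟨(nat_lit 330), (nat_lit 180), (nat_lit 25257288), (nat_lit 16296408)⟩, ⟨(nat_lit 180), (nat_lit 90), (nat_lit 40745421), (nat_lit 25257288)⟩]
def w13_17 : List ℕ := [(nat_lit 55840)]
def par13_17 : parC yB13_17 P13_17 s13_17 r13_17 q13_17 n13_17 w13_17 = true := by decide +kernel

def p13_17_0 : PF := (PF.cons (PF.cons (PF.cons (PF.leaf (nat_lit 790744) (nat_lit 2480188) (nat_lit 64628624) (nat_lit 2480188) [(nat_lit 0), (nat_lit 0), (nat_lit 0)]) (PF.cons (PF.leaf (nat_lit 922297) (nat_lit 205033) (nat_lit 64371213) (nat_lit 2532565) [(nat_lit 205033), (nat_lit 0), (nat_lit 0)]) (PF.cons (PF.leaf (nat_lit 1082610) (nat_lit 226317) (nat_lit 64065335) (nat_lit 2590842) [(nat_lit 226317), (nat_lit 0), (nat_lit 0)]) (PF.cons (PF.leaf (nat_lit 1266175) (nat_lit 246216) (nat_lit 63717567) (nat_lit 2652597) [(nat_lit 246216), (nat_lit 0), (nat_lit 0)]) (PF.cons (PF.leaf (nat_lit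 1470672) (nat_lit 265039) (nat_lit 63332509) (nat_lit 2716143) [(nat_lit 265039), (nat_lit 0), (nat_lit 0)]) (PF.cons (PF.leaf (nat_lit 1694534) (nat_lit 282958) (nat_lit 62913766) (nat_lit 2780254) [(nat_lit 282958), (nat_lit 0), (nat_lit 0)]) (PF.cons (PF.leaf (nat_lit 1936326) (nat_lit 300069) (nat_lit 62464381) (nat_lit 2844013) [(nat_lit 300069), (nat_lit 0), (nat_lit 0)]) (PF.cons (PF.leaf (nat_lit 2194754) (nat_lit 316431) (nat_lit 61987063) (nat_lit 2906726) [(nat_lit 316431), (nat_lit 0), (nat_lit 0)]) (PF.cons (PF.leaf (nat_lit 2468602) (nat_lit 332081) (nat_lit 61484295) (nat_lit 2967862) [(nat_lit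
 332081), (nat_lit 0), (nat_lit 0)]) (PF.cons (PF.leaf (nat_lit 2756702) (nat_lit 347042) (nat_lit 60958407) (nat_lit 3027020) [(nat_lit 347042), (nat_lit 0), (nat_lit 0)]) (PF.cons (PF.leaf (nat_lit 3057925) (nat_lit 361331) (nat_lit 60411608) (nat_lit 3083893) [(nat_lit 361331), (nat_lit 0), (nat_lit 0)]) (PF.cons (PF.leaf (nat_lit 3371190) (nat_lit 374959) (nat_lit 59846005) (nat_lit 3138252) [(nat_lit 374959), (nat_lit 0), (nat_lit 0)]) (PF.cons (PF.leaf (nat_lit 3695483) (nat_lit 387938) (nat_lit 59263617) (nat_lit 3189932) [(nat_lit 387938), (nat_lit 0), (nat_lit 0)]) (PF.cons (PF.leaf (nat_lit 4029703) (nat_lit 400278) (nat_lit 58666378) (nat_lit 3238817) [(nat_lit 400278), (nat_lit 0), (nat_lit 0)]) (PF.cons (PF.leaf (nat_lit 4372960) (nat_lit 411988) (nat_lit 58056139) (nat_lit 3284830) [(nat_lit 411988), (nat_lit 0), (nat_lit 0)]) (PF.cons PF.nil (PF.cons PF.nil (PF.cons PF.nil PF.nil)))))))))))))))))) (PF.cons (PF.cons (PF.leaf (nat_lit 1421730) (nat_lit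 1398473) (nat_lit 62959615) (nat_lit 2750724) [(nat_lit 0), (nat_lit 1398473), (nat_lit 0)]) (PF.cons (PF.leaf (nat_lit 1609472) (nat_lit 271151) (nat_lit 62593288) (nat_lit 2804353) [(nat_lit 271151), (nat_lit 1440019),
 (nat_lit 0)]) (PF.cons (PF.leaf (nat_lit 1820491) (nat_lit 289196) (nat_lit 62188019) (nat_lit 2859911) [(nat_lit 289196), (nat_lit 1482488), (nat_lit 0)]) (PF.cons (PF.leaf (nat_lit 2050981) (nat_lit 306217) (nat_lit 61749040) (nat_lit 2916108) [(nat_lit 306217), (nat_lit 1525010), (nat_lit 0)]) (PF.cons (PF.leaf (nat_lit 2299077) (nat_lit 322364) (nat_lit 61280325) (nat_lit 2972024) [(nat_lit 322364), (nat_lit 1567005), (nat_lit 0)]) (PF.cons (PF.leaf (nat_lit 2563218) (nat_lit 337722) (nat_lit 60785138) (nat_lit 3026986) [(nat_lit 337722), (nat_lit 1608074), (nat_lit 0)]) (PF.cons (PF.leaf (nat_lit 2842029) (nat_lit 352347) (nat_lit 60266306) (nat_lit 3080490) [(nat_lit 352347), (nat_lit 1647933), (nat_lit 0)]) (PF.cons (PF.leaf (nat_lit 3134257)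 (nat_lit 366273) (nat_lit 59726364) (nat_lit 3132155) [(nat_lit 366273), (nat_lit 1686378), (nat_lit 0)]) (PF.cons (PF.leaf (nat_lit 3438759) (nat_lit 379526) (nat_lit 59167636) (nat_lit 3181699) [(nat_lit 379526), (nat_lit 1723262), (nat_lit 0)]) (PF.cons (PF.leaf (nat_lit 3754369) (nat_lit 392126) (nat_lit 58592281) (nat_lit 3228913) [(nat_lit 392126), (nat_lit 1758482), (nat_lit 0)]) (PF.cons (PF.leaf (nat_lit 4080114) (nat_lit
 404087) (nat_lit 58002322) (nat_lit 3273646) [(nat_lit 404087), (nat_lit 1791967), (nat_lit 0)]) (PF.cons (PF.leaf (nat_lit 4414909) (nat_lit 415425) (nat_lit 57399663) (nat_lit 3315796) [(nat_lit 415425), (nat_lit 1823674), (nat_lit 0)]) (PF.cons (PF.leaf (nat_lit 4757824) (nat_lit 426153) (nat_lit 56786096) (nat_lit 3355298) [(nat_lit 426153), (nat_lit 1853578), (nat_lit 0)]) (PF.cons PF.nil (PF.cons PF.nil (PF.cons PF.nil PF.nil)))))))))))))))) (PF.cons (PF.cons (PF.leaf (nat_lit 2180889) (nat_lit 1569926) (nat_lit 60982740) (nat_lit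 2986219) [(nat_lit 0), (nat_lit 1569926), (nat_lit 0)]) (PF.cons (PF.leaf (nat_lit 2413544) (nat_lit 326516) (nat_lit 60533095) (nat_lit 3034893) [(nat_lit 326516), (nat_lit 1607154), (nat_lit 0)]) (PF.cons (PF.leaf (nat_lit 2665045) (nat_lit 341892) (nat_lit 60053343) (nat_lit 3083468) [(nat_lit 341892), (nat_lit 1644107), (nat_lit 0)]) (PF.cons (PF.leaf (nat_lit 2932428) (nat_lit 356404) (nat_lit 59547688) (nat_lit 3131242) [(nat_lit 356404), (nat_lit 1680334), (nat_lit 0)]) (PF.cons (PF.leaf (nat_lit 3214053) (nat_lit 370137) (nat_lit 59019510) (nat_lit 3177707) [(nat_lit 370137), (nat_lit 1715522), (nat_lit 0)]) (PF.cons (PF.leaf (nat_lit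
 3508495) (nat_lit 383148) (nat_lit 58471671) (nat_lit 3222494) [(nat_lit 383148), (nat_lit 1749453), (nat_lit 0)]) (PF.cons (PF.leaf (nat_lit 3814543) (nat_lit 395474) (nat_lit 57906687) (nat_lit 3265330) [(nat_lit 395474), (nat_lit 1781973), (nat_lit 0)]) (PF.cons (PF.leaf (nat_lit 4130988) (nat_lit 407145) (nat_lit 57326817) (nat_lit 3306020) [(nat_lit 407145), (nat_lit 1812976), (nat_lit 0)]) (PF.cons (PF.leaf (nat_lit 4456793) (nat_lit 418185) (nat_lit 56734123) (nat_lit 3344424) [(nat_lit 418185), (nat_lit 1842391), (nat_lit 0)]) (PF.cons (PF.leaf (nat_lit 4790945) (nat_lit 428612) (nat_lit 56130504) (nat_lit 3380450) [(nat_lit 428612), (nat_lit 1870171), (nat_lit 0)]) (PF.cons (PF.leaf (nat_lit 5132485) (nat_lit 438446) (nat_lit 55517719) (nat_lit 3414041) [(nat_lit 438446), (nat_lit 1896295), (nat_lit 0)]) (PF.cons (PF.leaf (nat_lit 5480516) (nat_lit 447702) (nat_lit 54897400) (nat_lit 3445171) [(nat_lit 447702), (nat_lit 1920756), (nat_lit 0)]) (PF.cons PF.nil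 (PF.cons PF.nil PF.nil)))))))))))))) (PF.cons (PF.cons (PF.leaf (nat_lit 3034310) (nat_lit 1711759) (nat_lit 58793553) (nat_lit 3179979) [(nat_lit 0), (nat_lit 1711759), (nat_lit 0)]) (PF.cons (PF.leaf (nat_lit
 3301661) (nat_lit 372669) (nat_lit 58284555) (nat_lit 3221060) [(nat_lit 372669), (nat_lit 1743509), (nat_lit 0)]) (PF.cons (PF.leaf (nat_lit 3583941) (nat_lit 385643) (nat_lit 57753305) (nat_lit 3261023) [(nat_lit 385643), (nat_lit 1774399), (nat_lit 0)]) (PF.cons (PF.leaf (nat_lit 3878757) (nat_lit 397852) (nat_lit 57203199) (nat_lit 3299487) [(nat_lit 397852), (nat_lit 1804189), (nat_lit 0)]) (PF.cons (PF.leaf (nat_lit 4184704) (nat_lit 409355) (nat_lit 56637062) (nat_lit 3336181) [(nat_lit 409355), (nat_lit 1832715), (nat_lit 0)]) (PF.cons (PF.leaf (nat_lit 4500590) (nat_lit 420195) (nat_lit 56057329) (nat_lit 3370915) [(nat_lit 420195), (nat_lit 1859864), (nat_lit 0)]) (PF.cons (PF.leaf (nat_lit 4825226) (nat_lit 430402) (nat_lit 55466149) (nat_lit 3403555)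 [(nat_lit 430402), (nat_lit 1885563), (nat_lit 0)]) (PF.cons (PF.leaf (nat_lit 5157613) (nat_lit 440006) (nat_lit 54865453) (nat_lit 3434016) [(nat_lit 440006), (nat_lit 1909766), (nat_lit 0)]) (PF.cons (PF.leaf (nat_lit 5496802) (nat_lit 449028) (nat_lit 54256991) (nat_lit 3462248) [(nat_lit 449028), (nat_lit 1932448), (nat_lit 0)]) (PF.cons (PF.leaf (nat_lit 5841922) (nat_lit 457490) (nat_lit 53642361) (nat_lit 3488226)
 [(nat_lit 457490), (nat_lit 1953604), (nat_lit 0)]) (PF.cons PF.nil (PF.cons PF.nil PF.nil)))))))))))) (PF.cons (PF.cons (PF.leaf (nat_lit 3951876) (nat_lit 1825419) (nat_lit 56475374) (nat_lit 3331760) [(nat_lit 0), (nat_lit 1825419), (nat_lit 0)]) (PF.cons (PF.leaf (nat_lit 4244665) (nat_lit 410538) (nat_lit 55928273) (nat_lit 3364414) [(nat_lit 410538), (nat_lit 1851396), (nat_lit 0)]) (PF.cons (PF.leaf (nat_lit 4548998) (nat_lit 421323) (nat_lit 55365645) (nat_lit 3395489) [(nat_lit 421323), (nat_lit 1876257), (nat_lit 0)]) (PF.cons (PF.leaf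 (nat_lit 4862930) (nat_lit 431426) (nat_lit 54790216) (nat_lit 3424793) [(nat_lit 431426), (nat_lit 1899881), (nat_lit 0)]) (PF.cons (PF.leaf (nat_lit 5185252) (nat_lit 440891) (nat_lit 54204301) (nat_lit 3452194) [(nat_lit 440891), (nat_lit 1922188), (nat_lit 0)]) (PF.cons (PF.leaf (nat_lit 5514894) (nat_lit 449754) (nat_lit 53609911) (nat_lit 3477609) [(nat_lit 449754), (nat_lit 1943130), (nat_lit 0)]) (PF.cons (PF.leaf (nat_lit 5850892) (nat_lit 458044) (nat_lit 53008824) (nat_lit 3500989) [(nat_lit 458044), (nat_lit 1962682), (nat_lit 0)]) (PF.cons (PF.leaf (nat_lit 6192368) (nat_lit 465788) (nat_lit 52402630) (nat_lit 3522314)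
 [(nat_lit 465788), (nat_lit 1980837), (nat_lit 0)]) (PF.cons PF.nil (PF.cons PF.nil PF.nil)))))))))) (PF.cons (PF.cons (PF.leaf (nat_lit 4907792) (nat_lit 1913288) (nat_lit 54098001) (nat_lit 3444371) [(nat_lit 0), (nat_lit 1913288), (nat_lit 0)]) (PF.cons (PF.leaf (nat_lit 5218008) (nat_lit 440971) (nat_lit 53530677) (nat_lit 3468735) [(nat_lit 440971), (nat_lit 1933685), (nat_lit 0)]) (PF.cons (PF.leaf (nat_lit 5536930) (nat_lit 449783) (nat_lit 52953372) (nat_lit 3491384) [(nat_lit 449783), (nat_lit 1952897), (nat_lit 0)]) (PF.cons (PF.leaf (nat_lit 5862913) (nat_lit 457988) (nat_lit 52368252) (nat_lit 3512232) [(nat_lit 457988), (nat_lit 1970872), (nat_lit 0)]) (PF.cons (PF.leaf (nat_lit 6194946) (nat_lit 465625) (nat_lit 51777174) (nat_lit 3531233) [(nat_lit 465625), (nat_lit 1987580), (nat_lit 0)]) (PF.cons (PF.leaf (nat_lit 6532127) (nat_lit 472725) (nat_lit 51181756) (nat_lit 3548366) [(nat_lit 472725), (nat_lit 2003012), (nat_lit 0)]) (PF.cons (PF.leaf (nat_lit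 6873636) (nat_lit 479314) (nat_lit 50583426) (nat_lit 3563632) [(nat_lit 479314), (nat_lit 2017172), (nat_lit 0)]) (PF.cons PF.nil PF.nil)))))))) (PF.cons (PF.cons (PF.leaf (nat_lit 5880913) (nat_lit 1978265)
 (nat_lit 51717148) (nat_lit 3522070) [(nat_lit 0), (nat_lit 1978265), (nat_lit 0)]) (PF.cons (PF.leaf (nat_lit 6201920) (nat_lit 464826) (nat_lit 51143932) (nat_lit 3538799) [(nat_lit 464826), (nat_lit 1993542), (nat_lit 0)]) (PF.cons (PF.leaf (nat_lit 6529258) (nat_lit 471887) (nat_lit 50565154) (nat_lit 3553857) [(nat_lit 471887), (nat_lit 2007671), (nat_lit 0)]) (PF.cons (PF.leaf (nat_lit 6861546) (nat_lit 478415) (nat_lit 49982511) (nat_lit 3567223) [(nat_lit 478415), (nat_lit 2020638), (nat_lit 0)]) (PF.cons (PF.leaf (nat_lit 7197936) (nat_lit 484442) (nat_lit 49397464) (nat_lit 3578895) [(nat_lit 484442), (nat_lit 2032447), (nat_lit 0)]) (PF.cons PF.nil PF.nil)))))) (PF.cons (PF.cons (PF.leaf (nat_lit 6854635) (nat_lit 2023433) (nat_lit 49375119) (nat_lit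 3569656) [(nat_lit 0), (nat_lit 2023433), (nat_lit 0)]) (PF.cons (PF.leaf (nat_lit 7181067) (nat_lit 482961) (nat_lit 48806978) (nat_lit 3579647) [(nat_lit 482961), (nat_lit 2034175), (nat_lit 0)]) (PF.cons (PF.leaf (nat_lit 7511905) (nat_lit 488492) (nat_lit 48236685) (nat_lit 3588106) [(nat_lit 488492), (nat_lit 2043862), (nat_lit 0)]) (PF.cons (PF.leaf (nat_lit 7845970) (nat_lit 493561) (nat_lit 47665548) (nat_lit
 3595048) [(nat_lit 493561), (nat_lit 2052504), (nat_lit 0)]) PF.nil)))) (PF.cons (PF.cons (PF.leaf (nat_lit 7816462) (nat_lit 2051817) (nat_lit 47102351) (nat_lit 3591925) [(nat_lit 0), (nat_lit 2051817), (nat_lit 0)]) (PF.cons (PF.leaf (nat_lit 8144132) (nat_lit 496198) (nat_lit 46547298) (nat_lit 3596149) [(nat_lit 496198), (nat_lit 2058645), (nat_lit 0)]) PF.nil)) (PF.cons PF.nil (PF.cons PF.nil (PF.cons PF.nil (PF.cons PF.nil PF.nil))))))))))))) (PF.cons (PF.cons (PF.cons (PF.leaf (nat_lit 2610933) (nat_lit 3097680) (nat_lit 57700955) (nat_lit 3097680)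 [(nat_lit 0), (nat_lit 0), (nat_lit 6310177)]) (PF.cons (PF.leaf (nat_lit 2818741) (nat_lit 321860) (nat_lit 57308349) (nat_lit 3133546) [(nat_lit 321860), (nat_lit 0), (nat_lit 6345055)]) (PF.cons (PF.leaf (nat_lit 3048172) (nat_lit 338909) (nat_lit 56880290) (nat_lit 3170152) [(nat_lit 338909), (nat_lit 0), (nat_lit 6380550)]) (PF.cons (PF.leaf (nat_lit 3295136) (nat_lit 354444) (nat_lit 56423159) (nat_lit 3206632) [(nat_lit 354444), (nat_lit 0), (nat_lit 6415687)]) (PF.cons (PF.leaf (nat_lit 3557336) (nat_lit 368748) (nat_lit 55941669) (nat_lit 3242390) [(nat_lit 368748), (nat_lit 0), (nat_lit 6449760)]) (PF.cons (PF.leaf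
 (nat_lit 3832942) (nat_lit 382004) (nat_lit 55439545) (nat_lit 3277005) [(nat_lit 382004), (nat_lit 0), (nat_lit 6482239)]) (PF.cons (PF.leaf (nat_lit 4120453) (nat_lit 394340) (nat_lit 54919868) (nat_lit 3310174) [(nat_lit 394340), (nat_lit 0), (nat_lit 6512728)]) (PF.cons (PF.leaf (nat_lit 4418521) (nat_lit 405847) (nat_lit 54385267) (nat_lit 3341681) [(nat_lit 405847), (nat_lit 0), (nat_lit 6540928)]) (PF.cons (PF.leaf (nat_lit 4725960) (nat_lit 416596) (nat_lit 53838043) (nat_lit 3371374) [(nat_lit 416596), (nat_lit 0), (nat_lit 6566622)]) (PF.cons (PF.leaf (nat_lit 5041745) (nat_lit 426641) (nat_lit 53280236) (nat_lit 3399147) [(nat_lit 426641), (nat_lit 0), (nat_lit 6589654)]) (PF.cons (PF.leaf (nat_lit 5364868) (nat_lit 436027) (nat_lit 52713677) (nat_lit 3424936) [(nat_lit 436027), (nat_lit 0), (nat_lit 6609920)]) (PF.cons (PF.leaf (nat_lit 5694434) (nat_lit 444793) (nat_lit 52140022) (nat_lit 3448703) [(nat_lit 444793), (nat_lit 0), (nat_lit 6627359)]) (PF.cons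 (PF.leaf (nat_lit 6029601) (nat_lit 452970) (nat_lit 51560779) (nat_lit 3470437) [(nat_lit 452970), (nat_lit 0), (nat_lit 6641945)]) (PF.cons (PF.leaf (nat_lit 6369600) (nat_lit 460589) (nat_lit 50977319) (nat_lit
 3490144) [(nat_lit 460589), (nat_lit 0), (nat_lit 6653680)]) (PF.cons PF.nil (PF.cons PF.nil PF.nil)))))))))))))))) (PF.cons (PF.cons (PF.leaf (nat_lit 3399639) (nat_lit 1743973) (nat_lit 55665426) (nat_lit 3244582) [(nat_lit 0), (nat_lit 1743973), (nat_lit 6454830)]) (PF.cons (PF.leaf (nat_lit 3644141) (nat_lit 368325) (nat_lit 55211021) (nat_lit 3275495) [(nat_lit 368325), (nat_lit 1770866), (nat_lit 6483103)]) (PF.cons (PF.leaf (nat_lit 3905205) (nat_lit 381961) (nat_lit 54731528) (nat_lit 3305872) [(nat_lit 381961), (nat_lit 1797136), (nat_lit 6510352)]) (PF.cons (PF.leaf (nat_lit 4179811) (nat_lit 394496) (nat_lit 54231500) (nat_lit 3335268) [(nat_lit 394496), (nat_lit 1822490), (nat_lit 6536064)]) (PF.cons (PF.leaf (nat_lit 4466171) (nat_lit 406086)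 (nat_lit 53714477) (nat_lit 3363374) [(nat_lit 406086), (nat_lit 1846745), (nat_lit 6559868)]) (PF.cons (PF.leaf (nat_lit 4762821) (nat_lit 416842) (nat_lit 53183348) (nat_lit 3389976) [(nat_lit 416842), (nat_lit 1869782), (nat_lit 6581494)]) (PF.cons (PF.leaf (nat_lit 5068531) (nat_lit 426842) (nat_lit 52640553) (nat_lit 3414924) [(nat_lit 426842), (nat_lit 1891529), (nat_lit 6600752)]) (PF.cons (PF.leaf (nat_lit 5382146)
 (nat_lit 436148) (nat_lit 52088195) (nat_lit 3438118) [(nat_lit 436148), (nat_lit 1911942), (nat_lit 6617514)]) (PF.cons (PF.leaf (nat_lit 5702682) (nat_lit 444811) (nat_lit 51528124) (nat_lit 3459497) [(nat_lit 444811), (nat_lit 1931002), (nat_lit 6631696)]) (PF.cons (PF.leaf (nat_lit 6029231) (nat_lit 452871) (nat_lit 50961980) (nat_lit 3479027) [(nat_lit 452871), (nat_lit 1948705), (nat_lit 6643256)]) (PF.cons (PF.leaf (nat_lit 6360965) (nat_lit 460363) (nat_lit 50391235) (nat_lit 3496698) [(nat_lit 460363), (nat_lit 1965059), (nat_lit 6652181)])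 (PF.cons (PF.leaf (nat_lit 6697122) (nat_lit 467319) (nat_lit 49817211) (nat_lit 3512517) [(nat_lit 467319), (nat_lit 1980083), (nat_lit 6658484)]) (PF.cons PF.nil (PF.cons PF.nil PF.nil)))))))))))))) (PF.cons (PF.cons (PF.leaf (nat_lit 4252436) (nat_lit 1838923) (nat_lit 53515632) (nat_lit 3359009) [(nat_lit 0), (nat_lit 1838923), (nat_lit 6556323)]) (PF.cons (PF.leaf (nat_lit 4523530) (nat_lit 405056) (nat_lit 53022686) (nat_lit 3383611) [(nat_lit 405056), (nat_lit 1860841), (nat_lit 6575774)]) (PF.cons (PF.leaf (nat_lit 4807220) (nat_lit 416044) (nat_lit 52512522) (nat_lit 3407092) [(nat_lit 416044), (nat_lit 1881836), (nat_lit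
 6593435)]) (PF.cons (PF.leaf (nat_lit 5101225) (nat_lit 426166) (nat_lit 51988493) (nat_lit 3429228) [(nat_lit 426166), (nat_lit 1901767), (nat_lit 6609055)]) (PF.cons (PF.leaf (nat_lit 5404101) (nat_lit 435521) (nat_lit 51453298) (nat_lit 3449869) [(nat_lit 435521), (nat_lit 1920547), (nat_lit 6622464)]) (PF.cons (PF.leaf (nat_lit 5714657) (nat_lit 444181) (nat_lit 50909184) (nat_lit 3468916) [(nat_lit 444181), (nat_lit 1938127), (nat_lit 6633548)]) (PF.cons (PF.leaf (nat_lit 6031848) (nat_lit 452205) (nat_lit 50358072) (nat_lit 3486309) [(nat_lit 452205), (nat_lit 1954479), (nat_lit 6642241)]) (PF.cons (PF.leaf (nat_lit 6354738) (nat_lit 459637) (nat_lit 49801627) (nat_lit 3502014) [(nat_lit 459637), (nat_lit 1969596), (nat_lit 6648514)]) (PF.cons (PF.leaf (nat_lit 6682485) (nat_lit 466517) (nat_lit 49241315) (nat_lit 3516024) [(nat_lit 466517), (nat_lit 1983484), (nat_lit 6652364)]) (PF.cons (PF.leaf (nat_lit 7014379) (nat_lit 472878) (nat_lit 48678434) (nat_lit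 3528346) [(nat_lit 472878), (nat_lit 1996156), (nat_lit 6653813)]) (PF.cons PF.nil (PF.cons PF.nil PF.nil)))))))))))) (PF.cons (PF.cons (PF.leaf (nat_lit 5144385) (nat_lit 1911343) (nat_lit 51317907) (nat_lit 3442245)
 [(nat_lit 0), (nat_lit 1911343), (nat_lit 6614630)]) (PF.cons (PF.leaf (nat_lit 5433883) (nat_lit 433940) (nat_lit 50804391) (nat_lit 3460324) [(nat_lit 433940), (nat_lit 1928445), (nat_lit 6624818)]) (PF.cons (PF.leaf (nat_lit 5732890) (nat_lit 442753) (nat_lit 50279690) (nat_lit 3477064) [(nat_lit 442753), (nat_lit 1944532), (nat_lit 6632953)]) (PF.cons (PF.leaf (nat_lit 6039512) (nat_lit 450858) (nat_lit 49746309) (nat_lit 3492363) [(nat_lit 450858), (nat_lit 1959542), (nat_lit 6638936)]) (PF.cons (PF.leaf (nat_lit 6352616) (nat_lit 458323) (nat_lit 49206314) (nat_lit 3506160) [(nat_lit 458323), (nat_lit 1973442), (nat_lit 6642713)]) (PF.cons (PF.leaf (nat_lit 6671266) (nat_lit 465203) (nat_lit 48661446) (nat_lit 3518423) [(nat_lit 465203), (nat_lit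 1986221), (nat_lit 6644263)]) (PF.cons (PF.leaf (nat_lit 6994568) (nat_lit 471539) (nat_lit 48113202) (nat_lit 3529143) [(nat_lit 471539), (nat_lit 1997879), (nat_lit 6643591)]) (PF.cons (PF.leaf (nat_lit 7321754) (nat_lit 477370) (nat_lit 47562880) (nat_lit 3538326) [(nat_lit 477370), (nat_lit 2008428), (nat_lit 6640724)]) (PF.cons PF.nil (PF.cons PF.nil PF.nil)))))))))) (PF.cons (PF.cons (PF.leaf (nat_lit 6055710) (nat_lit
 1963982) (nat_lit 49122273) (nat_lit 3497278) [(nat_lit 0), (nat_lit 1963982), (nat_lit 6633331)]) (PF.cons (PF.leaf (nat_lit 6357060) (nat_lit 456278) (nat_lit 48601910) (nat_lit 3509201) [(nat_lit 456278), (nat_lit 1976662), (nat_lit 6634771)]) (PF.cons (PF.leaf (nat_lit 6665401) (nat_lit 463267) (nat_lit 48074956) (nat_lit 3519766) [(nat_lit 463267), (nat_lit 1988344), (nat_lit 6634176)]) (PF.cons (PF.leaf (nat_lit 6979208) (nat_lit 469666) (nat_lit 47543298) (nat_lit 3528940) [(nat_lit 469666), (nat_lit 1999009), (nat_lit 6631536)]) (PF.cons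 (PF.leaf (nat_lit 7297569) (nat_lit 475527) (nat_lit 47008511) (nat_lit 3536711) [(nat_lit 475527), (nat_lit 2008655), (nat_lit 6626860)]) (PF.cons (PF.leaf (nat_lit 7619687) (nat_lit 480890) (nat_lit 46471932) (nat_lit 3543085) [(nat_lit 480890), (nat_lit 2017290), (nat_lit 6620180)]) (PF.cons (PF.leaf (nat_lit 7944867) (nat_lit 485790) (nat_lit 45934713) (nat_lit 3548081) [(nat_lit 485790), (nat_lit 2024933), (nat_lit 6611539)]) (PF.cons PF.nil PF.nil)))))))) (PF.cons (PF.cons (PF.leaf (nat_lit 6971030) (nat_lit 1999591) (nat_lit 46965481) (nat_lit 3527772) [(nat_lit 0), (nat_lit 1999591), (nat_lit 6617601)]) (PF.cons (PF.leaf (nat_lit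
 7279005) (nat_lit 473114) (nat_lit 46448492) (nat_lit 3534182) [(nat_lit 473114), (nat_lit 2008349), (nat_lit 6611273)]) (PF.cons (PF.leaf (nat_lit 7591981) (nat_lit 478564) (nat_lit 45928367) (nat_lit 3539320) [(nat_lit 478564), (nat_lit 2016183), (nat_lit 6603079)]) (PF.cons (PF.leaf (nat_lit 7908680) (nat_lit 483519) (nat_lit 45406526) (nat_lit 3543189) [(nat_lit 483519), (nat_lit 2023097), (nat_lit 6593054)]) (PF.cons (PF.leaf (nat_lit 8228374) (nat_lit 488018) (nat_lit 44884160) (nat_lit 3545807) [(nat_lit 488018), (nat_lit 2029105), (nat_lit 6581243)]) (PF.cons PF.nil PF.nil)))))) (PF.cons (PF.cons (PF.leaf (nat_lit 7878718) (nat_lit 2020797) (nat_lit 44873452) (nat_lit 3537505) [(nat_lit 0), (nat_lit 2020797), (nat_lit 6573067)]) (PF.cons (PF.leaf (nat_lit 8189255) (nat_lit 485331) (nat_lit 44367206) (nat_lit 3539149) [(nat_lit 485331), (nat_lit 2026165), (nat_lit 6560131)]) (PF.cons (PF.leaf (nat_lit 8503191) (nat_lit 489483) (nat_lit 43860374) (nat_lit 3539657)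 [(nat_lit 489483), (nat_lit 2030707), (nat_lit 6545565)]) (PF.cons PF.nil PF.nil)))) (PF.cons (PF.cons (PF.leaf (nat_lit 8770269) (nat_lit 2030015) (nat_lit 42863457) (nat_lit 3530067) [(nat_lit 0), (nat_lit
 2030015), (nat_lit 6505180)]) (PF.cons (PF.leaf (nat_lit 9080246) (nat_lit 493692) (nat_lit 42373045) (nat_lit 3527699) [(nat_lit 493692), (nat_lit 2032509), (nat_lit 6486809)]) PF.nil)) (PF.cons PF.nil (PF.cons PF.nil (PF.cons PF.nil PF.nil))))))))))) (PF.cons (PF.cons (PF.cons (PF.leaf (nat_lit 4522129) (nat_lit 3357931) (nat_lit 50706876) (nat_lit 3357931) [(nat_lit 0), (nat_lit 0), (nat_lit 6522002)]) (PF.cons (PF.leaf (nat_lit 4769217) (nat_lit 392821) (nat_lit 50275119) (nat_lit 3376603) [(nat_lit 392821), (nat_lit 0), (nat_lit 6532134)]) (PF.cons (PF.leaf (nat_lit 5031012) (nat_lit 404891) (nat_lit 49822597) (nat_lit 3394531) [(nat_lit 404891), (nat_lit 0), (nat_lit 6540950)]) (PF.cons (PF.leaf (nat_lit 5304468) (nat_lit 415742) (nat_lit 49353737) (nat_lit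 3411447) [(nat_lit 415742), (nat_lit 0), (nat_lit 6548200)]) (PF.cons (PF.leaf (nat_lit 5587805) (nat_lit 425574) (nat_lit 48871910) (nat_lit 3427173) [(nat_lit 425574), (nat_lit 0), (nat_lit 6553715)]) (PF.cons (PF.leaf (nat_lit 5879600) (nat_lit 434531) (nat_lit 48379798) (nat_lit 3441595) [(nat_lit 434531), (nat_lit 0), (nat_lit 6557380)]) (PF.cons (PF.leaf (nat_lit 6178596) (nat_lit 442718) (nat_lit 47879607) (nat_lit
 3454639) [(nat_lit 442718), (nat_lit 0), (nat_lit 6559127)]) (PF.cons (PF.leaf (nat_lit 6483753) (nat_lit 450216) (nat_lit 47373194) (nat_lit 3466264) [(nat_lit 450216), (nat_lit 0), (nat_lit 6558918)]) (PF.cons (PF.leaf (nat_lit 6794210) (nat_lit 457090) (nat_lit 46862148) (nat_lit 3476454) [(nat_lit 457090), (nat_lit 0), (nat_lit 6556742)]) (PF.cons (PF.leaf (nat_lit 7109128) (nat_lit 463392) (nat_lit 46347845) (nat_lit 3485209) [(nat_lit 463392), (nat_lit 0), (nat_lit 6552610)]) (PF.cons (PF.leaf (nat_lit 7427783) (nat_lit 469168) (nat_lit 45831492)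 (nat_lit 3492542) [(nat_lit 469168), (nat_lit 0), (nat_lit 6546548)]) (PF.cons PF.nil (PF.cons PF.nil (PF.cons PF.nil PF.nil)))))))))))))) (PF.cons (PF.cons (PF.leaf (nat_lit 5351696) (nat_lit 1896104) (nat_lit 48703299) (nat_lit 3419531) [(nat_lit 0), (nat_lit 1896104), (nat_lit 6544938)]) (PF.cons (PF.leaf (nat_lit 5619681) (nat_lit 422233) (nat_lit 48246470) (nat_lit 3433031) [(nat_lit 422233), (nat_lit 1911008), (nat_lit 6548034)]) (PF.cons (PF.leaf (nat_lit 5898528) (nat_lit 431614) (nat_lit 47776118) (nat_lit 3445480) [(nat_lit 431614), (nat_lit 1925009), (nat_lit 6549487)]) (PF.cons (PF.leaf (nat_lit 6186007) (nat_lit 440091)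
 (nat_lit 47295340) (nat_lit 3456759) [(nat_lit 440091), (nat_lit 1938032), (nat_lit 6549203)]) (PF.cons (PF.leaf (nat_lit 6480754) (nat_lit 447789) (nat_lit 46806574) (nat_lit 3466791) [(nat_lit 447789), (nat_lit 1950040), (nat_lit 6547124)]) (PF.cons (PF.leaf (nat_lit 6781635) (nat_lit 454797) (nat_lit 46311810) (nat_lit 3475534) [(nat_lit 454797), (nat_lit 1961021), (nat_lit 6543228)]) (PF.cons (PF.leaf (nat_lit 7087687) (nat_lit 461189) (nat_lit 45812702) (nat_lit 3482971) [(nat_lit 461189), (nat_lit 1970975), (nat_lit 6537512)]) (PF.cons (PF.leaf (nat_lit 7398065) (nat_lit 467021) (nat_lit 45310660) (nat_lit 3489101) [(nat_lit 467021), (nat_lit 1979915), (nat_lit 6529993)]) (PF.cons (PF.leaf (nat_lit 7712054) (nat_lit 472339) (nat_lit 44806893) (nat_lit 3493936) [(nat_lit 472339), (nat_lit 1987863), (nat_lit 6520703)]) (PF.cons PF.nil (PF.cons PF.nil (PF.cons PF.nil PF.nil)))))))))))) (PF.cons (PF.cons (PF.leaf (nat_lit 6204911) (nat_lit 1940215) (nat_lit 46696088)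 (nat_lit 3457932) [(nat_lit 0), (nat_lit 1940215), (nat_lit 6537180)]) (PF.cons (PF.leaf (nat_lit 6486644) (nat_lit 444460) (nat_lit 46228849) (nat_lit 3466391) [(nat_lit 444460), (nat_lit 1951152), (nat_lit
 6533403)]) (PF.cons (PF.leaf (nat_lit 6776377) (nat_lit 451764) (nat_lit 45753290) (nat_lit 3473725) [(nat_lit 451764), (nat_lit 1961188), (nat_lit 6527946)]) (PF.cons (PF.leaf (nat_lit 7072346) (nat_lit 458365) (nat_lit 45271634) (nat_lit 3479889) [(nat_lit 458365), (nat_lit 1970300), (nat_lit 6520795)]) (PF.cons (PF.leaf (nat_lit 7373540) (nat_lit 464346) (nat_lit 44785674) (nat_lit 3484866) [(nat_lit 464346), (nat_lit 1978484), (nat_lit 6511959)]) (PF.cons (PF.leaf (nat_lit 7679033) (nat_lit 469770) (nat_lit 44296892) (nat_lit 3488651) [(nat_lit 469770), (nat_lit 1985747), (nat_lit 6501460)]) (PF.cons (PF.leaf (nat_lit 7988038) (nat_lit 474689) (nat_lit 43806535) (nat_lit 3491258) [(nat_lit 474689), (nat_lit 1992105), (nat_lit 6489335)]) (PF.cons (PF.leaf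 (nat_lit 8299944) (nat_lit 479145) (nat_lit 43315668) (nat_lit 3492705) [(nat_lit 479145), (nat_lit 1997581), (nat_lit 6475628)]) (PF.cons PF.nil (PF.cons PF.nil PF.nil)))))))))) (PF.cons (PF.cons (PF.leaf (nat_lit 7066440) (nat_lit 1969172) (nat_lit 44720620) (nat_lit 3475978) [(nat_lit 0), (nat_lit 1969172), (nat_lit 6502347)]) (PF.cons (PF.leaf (nat_lit 7356457) (nat_lit 460991) (nat_lit 44253445) (nat_lit 3479845)
 [(nat_lit 460991), (nat_lit 1976605), (nat_lit 6492357)]) (PF.cons (PF.leaf (nat_lit 7652263) (nat_lit 466633) (nat_lit 43781722) (nat_lit 3482630) [(nat_lit 466633), (nat_lit 1983199), (nat_lit 6480798)]) (PF.cons (PF.leaf (nat_lit 7952483) (nat_lit 471712) (nat_lit 43307072) (nat_lit 3484330) [(nat_lit 471712), (nat_lit 1988956), (nat_lit 6467701)]) (PF.cons (PF.leaf (nat_lit 8256259) (nat_lit 476288) (nat_lit 42830821) (nat_lit 3484956) [(nat_lit 476288), (nat_lit 1993889), (nat_lit 6453106)]) (PF.cons (PF.leaf (nat_lit 8562883) (nat_lit 480407)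 (nat_lit 42354077) (nat_lit 3484526) [(nat_lit 480407), (nat_lit 1998016), (nat_lit 6437062)]) (PF.cons PF.nil (PF.cons PF.nil PF.nil)))))))) (PF.cons (PF.cons (PF.leaf (nat_lit 7924841) (nat_lit 1985408) (nat_lit 42801131) (nat_lit 3476705) [(nat_lit 0), (nat_lit 1985408), (nat_lit 6444671)]) (PF.cons (PF.leaf (nat_lit 8218948) (nat_lit 472908) (nat_lit 42341410) (nat_lit 3476559) [(nat_lit 472908), (nat_lit 1989816), (nat_lit 6429334)]) (PF.cons (PF.leaf (nat_lit 8517169) (nat_lit 477196) (nat_lit 41879871) (nat_lit 3475432) [(nat_lit 477196), (nat_lit 1993472), (nat_lit 6412612)]) (PF.cons (PF.leaf (nat_lit 8818306) (nat_lit 481027)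
 (nat_lit 41417705) (nat_lit 3473341) [(nat_lit 481027), (nat_lit 1996393), (nat_lit 6394555)]) (PF.cons PF.nil (PF.cons PF.nil PF.nil)))))) (PF.cons (PF.cons (PF.leaf (nat_lit 8771714) (nat_lit 1991089) (nat_lit 40953554) (nat_lit 3463045) [(nat_lit 0), (nat_lit 1991089), (nat_lit 6368382)]) (PF.cons (PF.leaf (nat_lit 9066733) (nat_lit 481056) (nat_lit 40506364) (nat_lit 3459494) [(nat_lit 481056), (nat_lit 1992933), (nat_lit 6348614)]) (PF.cons (PF.leaf (nat_lit 9364540) (nat_lit 484233) (nat_lit 40059314) (nat_lit 3455085) [(nat_lit 484233), (nat_lit 1994122), (nat_lit 6327667)]) (PF.cons PF.nil PF.nil)))) (PF.cons (PF.cons (PF.leaf (nat_lit 9601074) (nat_lit 1988120) (nat_lit 39187617) (nat_lit 3437676) [(nat_lit 0), (nat_lit 1988120), (nat_lit 6277398)]) (PF.cons PF.nil PF.nil)) (PF.cons PF.nil (PF.cons PF.nil (PF.cons PF.nil PF.nil)))))))))) (PF.cons (PF.cons (PF.cons (PF.leaf (nat_lit 6338653) (nat_lit 3407839) (nat_lit 44426172) (nat_lit 3407839) [(nat_lit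 0), (nat_lit 0), (nat_lit 6424933)]) (PF.cons (PF.leaf (nat_lit 6600004) (nat_lit 429371) (nat_lit 44012267) (nat_lit 3413879) [(nat_lit 429371), (nat_lit 0), (nat_lit 6417765)]) (PF.cons (PF.leaf (nat_lit 6870912)
 (nat_lit 437463) (nat_lit 43587515) (nat_lit 3418968) [(nat_lit 437463), (nat_lit 0), (nat_lit 6409133)]) (PF.cons (PF.leaf (nat_lit 7149209) (nat_lit 444651) (nat_lit 43154693) (nat_lit 3423050) [(nat_lit 444651), (nat_lit 0), (nat_lit 6399038)]) (PF.cons (PF.leaf (nat_lit 7433596) (nat_lit 451072) (nat_lit 42715952) (nat_lit 3426098) [(nat_lit 451072), (nat_lit 0), (nat_lit 6387490)]) (PF.cons (PF.leaf (nat_lit 7723018) (nat_lit 456828) (nat_lit 42273017) (nat_lit 3428103) [(nat_lit 456828), (nat_lit 0), (nat_lit 6374516)]) (PF.cons (PF.leaf (nat_lit 8016614) (nat_lit 461998) (nat_lit 41827305) (nat_lit 3429073) [(nat_lit 461998), (nat_lit 0), (nat_lit 6360148)]) (PF.cons (PF.leaf (nat_lit 8313579) (nat_lit 466644) (nat_lit 41379998) (nat_lit 3429022)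 [(nat_lit 466644), (nat_lit 0), (nat_lit 6344427)]) (PF.cons (PF.leaf (nat_lit 8613340) (nat_lit 470818) (nat_lit 40932096) (nat_lit 3427973) [(nat_lit 470818), (nat_lit 0), (nat_lit 6327399)]) (PF.cons PF.nil PF.nil)))))))))) (PF.cons (PF.cons (PF.leaf (nat_lit 7149010) (nat_lit 1933668) (nat_lit 42626871) (nat_lit 3417039) [(nat_lit 0), (nat_lit 1933668), (nat_lit 6377078)]) (PF.cons (PF.leaf (nat_lit 7420969) (nat_lit 446670)
 (nat_lit 42208219) (nat_lit 3419175) [(nat_lit 446670), (nat_lit 1940323), (nat_lit 6364808)]) (PF.cons (PF.leaf (nat_lit 7699864) (nat_lit 452815) (nat_lit 41783151) (nat_lit 3420367) [(nat_lit 452815), (nat_lit 1946189), (nat_lit 6351158)]) (PF.cons (PF.leaf (nat_lit 7984003) (nat_lit 458279) (nat_lit 41353608) (nat_lit 3420606) [(nat_lit 458279), (nat_lit 1951265), (nat_lit 6336164)]) (PF.cons (PF.leaf (nat_lit 8272458) (nat_lit 463152) (nat_lit 40921133) (nat_lit 3419898) [(nat_lit 463152), (nat_lit 1955563), (nat_lit 6319869)]) (PF.cons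 (PF.leaf (nat_lit 8564369) (nat_lit 467502) (nat_lit 40486985) (nat_lit 3418257) [(nat_lit 467502), (nat_lit 1959101), (nat_lit 6302318)]) (PF.cons (PF.leaf (nat_lit 8859066) (nat_lit 471385) (nat_lit 40052207) (nat_lit 3415704) [(nat_lit 471385), (nat_lit 1961903), (nat_lit 6283562)]) (PF.cons PF.nil PF.nil)))))))) (PF.cons (PF.cons (PF.leaf (nat_lit 7961327) (nat_lit 1946739) (nat_lit 40871412) (nat_lit 3411499) [(nat_lit 0), (nat_lit 1946739), (nat_lit 6310807)]) (PF.cons (PF.leaf (nat_lit 8239281) (nat_lit 459018) (nat_lit 40456100) (nat_lit 3410183) [(nat_lit 459018), (nat_lit 1950603), (nat_lit 6294101)]) (PF.cons (PF.leaf (nat_lit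
 8522205) (nat_lit 463656) (nat_lit 40037482) (nat_lit 3407998) [(nat_lit 463656), (nat_lit 1953759), (nat_lit 6276167)]) (PF.cons (PF.leaf (nat_lit 8808778) (nat_lit 467763) (nat_lit 39616945) (nat_lit 3404956) [(nat_lit 467763), (nat_lit 1956222), (nat_lit 6257059)]) (PF.cons (PF.leaf (nat_lit 9098230) (nat_lit 471401) (nat_lit 39195610) (nat_lit 3401078) [(nat_lit 471401), (nat_lit 1958011), (nat_lit 6236831)]) (PF.cons PF.nil PF.nil)))))) (PF.cons (PF.cons (PF.leaf (nat_lit 8766825) (nat_lit 1950232) (nat_lit 39176058) (nat_lit 3393672) [(nat_lit 0), (nat_lit 1950232), (nat_lit 6229461)]) (PF.cons (PF.leaf (nat_lit 9047327) (nat_lit 467468) (nat_lit 38769565) (nat_lit 3389405) [(nat_lit 467468), (nat_lit 1951738), (nat_lit 6209052)]) (PF.cons (PF.leaf (nat_lit 9331317) (nat_lit 470909) (nat_lit 38361963) (nat_lit 3384368) [(nat_lit 470909), (nat_lit 1952626), (nat_lit 6187594)]) (PF.cons (PF.leaf (nat_lit 9617688) (nat_lit 473927) (nat_lit 37954253) (nat_lit 3378588)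 [(nat_lit 473927), (nat_lit 1952916), (nat_lit 6165146)]) PF.nil)))) (PF.cons (PF.cons (PF.leaf (nat_lit 9559232) (nat_lit 1945910) (nat_lit 37550774) (nat_lit 3365816) [(nat_lit 0), (nat_lit 1945910), (nat_lit
 6136193)]) (PF.cons (PF.leaf (nat_lit 9839693) (nat_lit 472801) (nat_lit 37156727) (nat_lit 3359086) [(nat_lit 472801), (nat_lit 1945448), (nat_lit 6112800)]) PF.nil)) (PF.cons PF.nil (PF.cons PF.nil (PF.cons PF.nil PF.nil)))))))) (PF.cons (PF.cons (PF.cons (PF.leaf (nat_lit 7993709) (nat_lit 3343293) (nat_lit 39070216) (nat_lit 3343293) [(nat_lit 0), (nat_lit 0), (nat_lit 6173825)]) (PF.cons (PF.leaf (nat_lit 8255240) (nat_lit 443574) (nat_lit 38697631) (nat_lit 3341308) [(nat_lit 443574), (nat_lit 0), (nat_lit 6156574)]) (PF.cons (PF.leaf (nat_lit 8522908) (nat_lit 448823) (nat_lit 38319923) (nat_lit 3338527) [(nat_lit 448823), (nat_lit 0), (nat_lit 6138178)]) (PF.cons (PF.leaf (nat_lit 8795133) (nat_lit 453420) (nat_lit 37938778) (nat_lit 3334962) [(nat_lit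 453420), (nat_lit 0), (nat_lit 6118702)]) (PF.cons (PF.leaf (nat_lit 9070970) (nat_lit 457458) (nat_lit 37555526) (nat_lit 3330632) [(nat_lit 457458), (nat_lit 0), (nat_lit 6098205)]) (PF.cons (PF.leaf (nat_lit 9349713) (nat_lit 461007) (nat_lit 37171235) (nat_lit 3325561) [(nat_lit 461007), (nat_lit 0), (nat_lit 6076744)]) (PF.cons PF.nil (PF.cons PF.nil PF.nil)))))))) (PF.cons (PF.cons (PF.leaf (nat_lit 8759864) (nat_lit
 1907960) (nat_lit 37517874) (nat_lit 3322928) [(nat_lit 0), (nat_lit 1907960), (nat_lit 6090012)]) (PF.cons (PF.leaf (nat_lit 9025891) (nat_lit 452890) (nat_lit 37149949) (nat_lit 3318319) [(nat_lit 452890), (nat_lit 1909397), (nat_lit 6069563)]) (PF.cons (PF.leaf (nat_lit 9296293) (nat_lit 456770) (nat_lit 36779487) (nat_lit 3313000) [(nat_lit 456770), (nat_lit 1910232), (nat_lit 6048137)]) (PF.cons (PF.leaf (nat_lit 9569813) (nat_lit 460152) (nat_lit 36407681) (nat_lit 3306995) [(nat_lit 460152), (nat_lit 1910487), (nat_lit 6025797)]) (PF.cons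 (PF.leaf (nat_lit 9845734) (nat_lit 463098) (nat_lit 36035485) (nat_lit 3300331) [(nat_lit 463098), (nat_lit 1910183), (nat_lit 6002604)]) (PF.cons PF.nil PF.nil)))))) (PF.cons (PF.cons (PF.leaf (nat_lit 9517447) (nat_lit 1903122) (nat_lit 36023512) (nat_lit 3293782) [(nat_lit 0), (nat_lit 1903122), (nat_lit 5996318)]) (PF.cons (PF.leaf (nat_lit 9785059) (nat_lit 458878) (nat_lit 35664430) (nat_lit 3286973) [(nat_lit 458878), (nat_lit 1902695), (nat_lit 5973284)]) (PF.cons (PF.leaf (nat_lit 10055736) (nat_lit 461692) (nat_lit 35304609) (nat_lit 3279551) [(nat_lit 461692), (nat_lit 1901753), (nat_lit 5949439)]) (PF.cons PF.nil PF.nil))))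
 (PF.cons (PF.cons (PF.leaf (nat_lit 10261581) (nat_lit 1892423) (nat_lit 34593546) (nat_lit 3257598) [(nat_lit 0), (nat_lit 1892423), (nat_lit 5895099)]) (PF.cons PF.nil PF.nil)) (PF.cons PF.nil (PF.cons PF.nil PF.nil)))))) (PF.cons (PF.cons (PF.cons (PF.leaf (nat_lit 9478558) (nat_lit 3222013) (nat_lit 34594612) (nat_lit 3222013) [(nat_lit 0), (nat_lit 0), (nat_lit 5858437)]) (PF.cons (PF.leaf (nat_lit 9733182) (nat_lit 444247) (nat_lit 34268628) (nat_lit 3215355) [(nat_lit 444247), (nat_lit 0), (nat_lit 5836116)]) (PF.cons (PF.leaf (nat_lit 9991759) (nat_lit 447549) (nat_lit 33940602) (nat_lit 3208109) [(nat_lit 447549), (nat_lit 0), (nat_lit 5813000)]) (PF.cons (PF.leaf (nat_lit 10253035) (nat_lit 450382) (nat_lit 33611562) (nat_lit 3200304) [(nat_lit 450382), (nat_lit 0), (nat_lit 5789159)]) (PF.cons PF.nil (PF.cons PF.nil PF.nil)))))) (PF.cons (PF.cons (PF.leaf (nat_lit 10193173) (nat_lit 1849733) (nat_lit 33275977) (nat_lit 3186225) [(nat_lit 0), (nat_lit 1849733),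 (nat_lit 5759375)]) (PF.cons (PF.leaf (nat_lit 10448781) (nat_lit 448470) (nat_lit 32958247) (nat_lit 3177903) [(nat_lit 448470), (nat_lit 1848027), (nat_lit 5735232)]) (PF.cons PF.nil (PF.cons PF.nil PF.nil))))
 (PF.cons (PF.cons (PF.leaf (nat_lit 10894624) (nat_lit 1835050) (nat_lit 32014814) (nat_lit 3145467) [(nat_lit 0), (nat_lit 1835050), (nat_lit 5655685)]) (PF.cons PF.nil PF.nil)) (PF.cons PF.nil PF.nil)))) (PF.cons (PF.cons (PF.cons (PF.leaf (nat_lit 10807084) (nat_lit 3076557) (nat_lit 30872238) (nat_lit 3076557) [(nat_lit 0), (nat_lit 0), (nat_lit 5526669)]) (PF.cons (PF.leaf (nat_lit 11051604) (nat_lit 437102) (nat_lit 30590229) (nat_lit 3067394) [(nat_lit 437102), (nat_lit 0), (nat_lit 5502347)]) PF.nil)) (PF.cons PF.nil PF.nil)) (PF.cons PF.nil (PF.cons PF.nil (PF.cons PF.nil (PF.cons PF.nil (PF.cons PF.nil PF.nil))))))))))))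

def p13_17_0_0 : pfC (piC [(nat_lit 40745421), (nat_lit 25257288), (nat_lit 16296408)] (nat_lit 21455815)) p13_17_0 (nat_lit 3) (nat_lit 0) (nat_lit 1) = true := by decide +kernel
def p13_17_0_1 : pfC (piC [(nat_lit 40745421), (nat_lit 25257288), (nat_lit 16296408)] (nat_lit 21455815)) p13_17_0 (nat_lit 3) (nat_lit 1) (nat_lit 2) = true := by decide +kernel
def p13_17_0_2 : pfC (piC [(nat_lit 40745421), (nat_lit 25257288), (nat_lit 16296408)] (nat_lit 21455815)) p13_17_0 (nat_lit 3) (nat_lit 2) (nat_lit 3) = true := by decide +kernel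
def p13_17_0_3 : pfC (piC [(nat_lit 40745421), (nat_lit 25257288), (nat_lit 16296408)] (nat_lit 21455815)) p13_17_0 (nat_lit 3) (nat_lit 3) (nat_lit 4) = true := by decide +kernel
def p13_17_0_4 : pfC (piC [(nat_lit 40745421), (nat_lit 25257288), (nat_lit 16296408)] (nat_lit 21455815)) p13_17_0 (nat_lit 3) (nat_lit 4) (nat_lit 5) = true := by decide +kernel
def p13_17_0_5 : pfC (piC [(nat_lit 40745421), (nat_lit 25257288), (nat_lit 16296408)] (nat_lit 21455815)) p13_17_0 (nat_lit 3) (nat_lit 5) (nat_lit 6) = true := by decide +kernel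
def p13_17_0_6 : pfC (piC [(nat_lit 40745421), (nat_lit 25257288), (nat_lit 16296408)] (nat_lit 21455815)) p13_17_0 (nat_lit 3) (nat_lit 6) (nat_lit 7) = true := by decide +kernel
def p13_17_0_7 : pfC (piC [(nat_lit 40745421), (nat_lit 25257288), (nat_lit 16296408)] (nat_lit 21455815)) p13_17_0 (nat_lit 3) (nat_lit 7) (nat_lit 8) = true := by decide +kernel
def p13_17_0_8 : pfC (piC [(nat_lit 40745421), (nat_lit 25257288), (nat_lit 16296408)] (nat_lit 21455815)) p13_17_0 (nat_lit 3) (nat_lit 8) (nat_lit 9) = true := by decide +kernel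
def p13_17_0_9 : pfC (piC [(nat_lit 40745421), (nat_lit 25257288), (nat_lit 16296408)] (nat_lit 21455815)) p13_17_0 (nat_lit 3) (nat_lit 9) (nat_lit 10) = true := by decide +kernel
def p13_17_0_10 : pfC (piC [(nat_lit 40745421), (nat_lit 25257288), (nat_lit 16296408)] (nat_lit 21455815)) p13_17_0 (nat_lit 3) (nat_lit 10) (nat_lit 11) = true := by decide +kernel
def p13_17_0_11 : pfC (piC [(nat_lit 40745421), (nat_lit 25257288), (nat_lit 16296408)] (nat_lit 21455815)) p13_17_0 (nat_lit 3) (nat_lit 11) (nat_lit 12) = true := by decide +kernel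
def p13_17_0_12 : pfC (piC [(nat_lit 40745421), (nat_lit 25257288), (nat_lit 16296408)] (nat_lit 21455815)) p13_17_0 (nat_lit 3) (nat_lit 12) (nat_lit 13) = true := by decide +kernel
def p13_17_0_13 : pfC (piC [(nat_lit 40745421), (nat_lit 25257288), (nat_lit 16296408)] (nat_lit 21455815)) p13_17_0 (nat_lit 3) (nat_lit 13) (nat_lit 14) = true := by decide +kernel
def p13_17_0_14 : pfC (piC [(nat_lit 40745421), (nat_lit 25257288), (nat_lit 16296408)] (nat_lit 21455815)) p13_17_0 (nat_lit 3) (nat_lit 14) (nat_lit 15) = true := by decide +kernel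
def p13_17_0_15 : pfC (piC [(nat_lit 40745421), (nat_lit 25257288), (nat_lit 16296408)] (nat_lit 21455815)) p13_17_0 (nat_lit 3) (nat_lit 15) (nat_lit 16) = true := by decide +kernel
def p13_17_0_16 : pfC (piC [(nat_lit 40745421), (nat_lit 25257288), (nat_lit 16296408)] (nat_lit 21455815)) p13_17_0 (nat_lit 3) (nat_lit 16) (nat_lit 17) = true := by decide +kernel
def p13_17_0_17 : pfC (piC [(nat_lit 40745421), (nat_lit 25257288), (nat_lit 16296408)] (nat_lit 21455815)) p13_17_0 (nat_lit 3) (nat_lit 17) (nat_lit 18) = true := by decide +kernel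
def p13_17_0_18 : pfC (piC [(nat_lit 40745421), (nat_lit 25257288), (nat_lit 16296408)] (nat_lit 21455815)) p13_17_0 (nat_lit 3) (nat_lit 18) (nat_lit 19) = true := by decide +kernel
def p13_17_0_19 : pfC (piC [(nat_lit 40745421), (nat_lit 25257288), (nat_lit 16296408)] (nat_lit 21455815)) p13_17_0 (nat_lit 3) (nat_lit 19) (nat_lit 20) = true := by decide +kernel
def p13_17_0_20 : pfC (piC [(nat_lit 40745421), (nat_lit 25257288), (nat_lit 16296408)] (nat_lit 21455815)) p13_17_0 (nat_lit 3) (nat_lit 20) (nat_lit 21) = true := by decide +kernel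
def p13_17_0_21 : pfC (piC [(nat_lit 40745421), (nat_lit 25257288), (nat_lit 16296408)] (nat_lit 21455815)) p13_17_0 (nat_lit 3) (nat_lit 21) (nat_lit 22) = true := by decide +kernel
def p13_17_0_22 : pfC (piC [(nat_lit 40745421), (nat_lit 25257288), (nat_lit 16296408)] (nat_lit 21455815)) p13_17_0 (nat_lit 3) (nat_lit 22) (nat_lit 23) = true := by decide +kernel
def p13_17_0_23 : pfC (piC [(nat_lit 40745421), (nat_lit 25257288), (nat_lit 16296408)] (nat_lit 21455815)) p13_17_0 (nat_lit 3) (nat_lit 23) (nat_lit 24) = true := by decide +kernel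
def p13_17_0_24 : pfC (piC [(nat_lit 40745421), (nat_lit 25257288), (nat_lit 16296408)] (nat_lit 21455815)) p13_17_0 (nat_lit 3) (nat_lit 24) (nat_lit 25) = true := by decide +kernel
def p13_17_0_25 : pfC (piC [(nat_lit 40745421), (nat_lit 25257288), (nat_lit 16296408)] (nat_lit 21455815)) p13_17_0 (nat_lit 3) (nat_lit 25) (nat_lit 26) = true := by decide +kernel
def p13_17_0_26 : pfC (piC [(nat_lit 40745421), (nat_lit 25257288), (nat_lit 16296408)] (nat_lit 21455815)) p13_17_0 (nat_lit 3) (nat_lit 26) (nat_lit 27) = true := by decide +kernel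
def p13_17_0_27 : pfC (piC [(nat_lit 40745421), (nat_lit 25257288), (nat_lit 16296408)] (nat_lit 21455815)) p13_17_0 (nat_lit 3) (nat_lit 27) (nat_lit 28) = true := by decide +kernel
def p13_17_0_28 : pfC (piC [(nat_lit 40745421), (nat_lit 25257288), (nat_lit 16296408)] (nat_lit 21455815)) p13_17_0 (nat_lit 3) (nat_lit 28) (nat_lit 29) = true := by decide +kernel
def p13_17_0_29 : pfC (piC [(nat_lit 40745421), (nat_lit 25257288), (nat_lit 16296408)] (nat_lit 21455815)) p13_17_0 (nat_lit 3) (nat_lit 29) (nat_lit 30) = true := by decide +kernel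
def p13_17_0_30 : pfC (piC [(nat_lit 40745421), (nat_lit 25257288), (nat_lit 16296408)] (nat_lit 21455815)) p13_17_0 (nat_lit 3) (nat_lit 30) (nat_lit 31) = true := by decide +kernel
def p13_17_0_31 : pfC (piC [(nat_lit 40745421), (nat_lit 25257288), (nat_lit 16296408)] (nat_lit 21455815)) p13_17_0 (nat_lit 3) (nat_lit 31) (nat_lit 32) = true := by decide +kernel
def p13_17_0_32 : pfC (piC [(nat_lit 40745421), (nat_lit 25257288), (nat_lit 16296408)] (nat_lit 21455815)) p13_17_0 (nat_lit 3) (nat_lit 32) (nat_lit 33) = true := by decide +kernel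
def p13_17_0_33 : pfC (piC [(nat_lit 40745421), (nat_lit 25257288), (nat_lit 16296408)] (nat_lit 21455815)) p13_17_0 (nat_lit 3) (nat_lit 33) (nat_lit 34) = true := by decide +kernel
def p13_17_0_34 : pfC (piC [(nat_lit 40745421), (nat_lit 25257288), (nat_lit 16296408)] (nat_lit 21455815)) p13_17_0 (nat_lit 3) (nat_lit 34) (nat_lit 35) = true := by decide +kernel
def p13_17_0_35 : pfC (piC [(nat_lit 40745421), (nat_lit 25257288), (nat_lit 16296408)] (nat_lit 21455815)) p13_17_0 (nat_lit 3) (nat_lit 35) (nat_lit 36) = true := by decide +kernel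
def p13_17_0_36 : pfC (piC [(nat_lit 40745421), (nat_lit 25257288), (nat_lit 16296408)] (nat_lit 21455815)) p13_17_0 (nat_lit 3) (nat_lit 36) (nat_lit 37) = true := by decide +kernel
def p13_17_0_37 : pfC (piC [(nat_lit 40745421), (nat_lit 25257288), (nat_lit 16296408)] (nat_lit 21455815)) p13_17_0 (nat_lit 3) (nat_lit 37) (nat_lit 38) = true := by decide +kernel
def p13_17_0_38 : pfC (piC [(nat_lit 40745421), (nat_lit 25257288), (nat_lit 16296408)] (nat_lit 21455815)) p13_17_0 (nat_lit 3) (nat_lit 38) (nat_lit 39) = true := by decide +kernel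
def p13_17_0_39 : pfC (piC [(nat_lit 40745421), (nat_lit 25257288), (nat_lit 16296408)] (nat_lit 21455815)) p13_17_0 (nat_lit 3) (nat_lit 39) (nat_lit 40) = true := by decide +kernel
def p13_17_0_40 : pfC (piC [(nat_lit 40745421), (nat_lit 25257288), (nat_lit 16296408)] (nat_lit 21455815)) p13_17_0 (nat_lit 3) (nat_lit 40) (nat_lit 41) = true := by decide +kernel
def p13_17_0_41 : pfC (piC [(nat_lit 40745421), (nat_lit 25257288), (nat_lit 16296408)] (nat_lit 21455815)) p13_17_0 (nat_lit 3) (nat_lit 41) (nat_lit 42) = true := by decide +kernel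
def p13_17_0_42 : pfC (piC [(nat_lit 40745421), (nat_lit 25257288), (nat_lit 16296408)] (nat_lit 21455815)) p13_17_0 (nat_lit 3) (nat_lit 42) (nat_lit 43) = true := by decide +kernel
def p13_17_0_43 : pfC (piC [(nat_lit 40745421), (nat_lit 25257288), (nat_lit 16296408)] (nat_lit 21455815)) p13_17_0 (nat_lit 3) (nat_lit 43) (nat_lit 44) = true := by decide +kernel
def p13_17_0_44 : pfC (piC [(nat_lit 40745421), (nat_lit 25257288), (nat_lit 16296408)] (nat_lit 21455815)) p13_17_0 (nat_lit 3) (nat_lit 44) (nat_lit 45) = true := by decide +kernel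
def p13_17_0_45 : pfC (piC [(nat_lit 40745421), (nat_lit 25257288), (nat_lit 16296408)] (nat_lit 21455815)) p13_17_0 (nat_lit 3) (nat_lit 45) (nat_lit 46) = true := by decide +kernel
def p13_17_0_46 : pfC (piC [(nat_lit 40745421), (nat_lit 25257288), (nat_lit 16296408)] (nat_lit 21455815)) p13_17_0 (nat_lit 3) (nat_lit 46) (nat_lit 47) = true := by decide +kernel
def p13_17_0_47 : pfC (piC [(nat_lit 40745421), (nat_lit 25257288), (nat_lit 16296408)] (nat_lit 21455815)) p13_17_0 (nat_lit 3) (nat_lit 47) (nat_lit 48) = true := by decide +kernel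
def p13_17_0_48 : pfC (piC [(nat_lit 40745421), (nat_lit 25257288), (nat_lit 16296408)] (nat_lit 21455815)) p13_17_0 (nat_lit 3) (nat_lit 48) (nat_lit 49) = true := by decide +kernel
def p13_17_0_49 : pfC (piC [(nat_lit 40745421), (nat_lit 25257288), (nat_lit 16296408)] (nat_lit 21455815)) p13_17_0 (nat_lit 3) (nat_lit 49) (nat_lit 50) = true := by decide +kernel
def p13_17_0_50 : pfC (piC [(nat_lit 40745421), (nat_lit 25257288), (nat_lit 16296408)] (nat_lit 21455815)) p13_17_0 (nat_lit 3) (nat_lit 50) (nat_lit 51) = true := by decide +kernel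
def p13_17_0_51 : pfC (piC [(nat_lit 40745421), (nat_lit 25257288), (nat_lit 16296408)] (nat_lit 21455815)) p13_17_0 (nat_lit 3) (nat_lit 51) (nat_lit 52) = true := by decide +kernel
def p13_17_0_52 : pfC (piC [(nat_lit 40745421), (nat_lit 25257288), (nat_lit 16296408)] (nat_lit 21455815)) p13_17_0 (nat_lit 3) (nat_lit 52) (nat_lit 53) = true := by decide +kernel
def p13_17_0_53 : pfC (piC [(nat_lit 40745421), (nat_lit 25257288), (nat_lit 16296408)] (nat_lit 21455815)) p13_17_0 (nat_lit 3) (nat_lit 53) (nat_lit 54) = true := by decide +kernel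
def p13_17_0_54 : pfC (piC [(nat_lit 40745421), (nat_lit 25257288), (nat_lit 16296408)] (nat_lit 21455815)) p13_17_0 (nat_lit 3) (nat_lit 54) (nat_lit 55) = true := by decide +kernel
def p13_17_0_55 : pfC (piC [(nat_lit 40745421), (nat_lit 25257288), (nat_lit 16296408)] (nat_lit 21455815)) p13_17_0 (nat_lit 3) (nat_lit 55) (nat_lit 56) = true := by decide +kernel
def p13_17_0_56 : pfC (piC [(nat_lit 40745421), (nat_lit 25257288), (nat_lit 16296408)] (nat_lit 21455815)) p13_17_0 (nat_lit 3) (nat_lit 56) (nat_lit 57) = true := by decide +kernel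
def p13_17_0_57 : pfC (piC [(nat_lit 40745421), (nat_lit 25257288), (nat_lit 16296408)] (nat_lit 21455815)) p13_17_0 (nat_lit 3) (nat_lit 57) (nat_lit 58) = true := by decide +kernel
def p13_17_0_58 : pfC (piC [(nat_lit 40745421), (nat_lit 25257288), (nat_lit 16296408)] (nat_lit 21455815)) p13_17_0 (nat_lit 3) (nat_lit 58) (nat_lit 59) = true := by decide +kernel
def p13_17_0_59 : pfC (piC [(nat_lit 40745421), (nat_lit 25257288), (nat_lit 16296408)] (nat_lit 21455815)) p13_17_0 (nat_lit 3) (nat_lit 59) (nat_lit 60) = true := by decide +kernel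
def p13_17_0_60 : pfC (piC [(nat_lit 40745421), (nat_lit 25257288), (nat_lit 16296408)] (nat_lit 21455815)) p13_17_0 (nat_lit 3) (nat_lit 60) (nat_lit 61) = true := by decide +kernel
def p13_17_0_61 : pfC (piC [(nat_lit 40745421), (nat_lit 25257288), (nat_lit 16296408)] (nat_lit 21455815)) p13_17_0 (nat_lit 3) (nat_lit 61) (nat_lit 62) = true := by decide +kernel
def p13_17_0_62 : pfC (piC [(nat_lit 40745421), (nat_lit 25257288), (nat_lit 16296408)] (nat_lit 21455815)) p13_17_0 (nat_lit 3) (nat_lit 62) (nat_lit 63) = true := by decide +kernel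
def p13_17_0_63 : pfC (piC [(nat_lit 40745421), (nat_lit 25257288), (nat_lit 16296408)] (nat_lit 21455815)) p13_17_0 (nat_lit 3) (nat_lit 63) (nat_lit 64) = true := by decide +kernel
def p13_17_0_64 : pfC (piC [(nat_lit 40745421), (nat_lit 25257288), (nat_lit 16296408)] (nat_lit 21455815)) p13_17_0 (nat_lit 3) (nat_lit 64) (nat_lit 65) = true := by decide +kernel
def p13_17_0_65 : pfC (piC [(nat_lit 40745421), (nat_lit 25257288), (nat_lit 16296408)] (nat_lit 21455815)) p13_17_0 (nat_lit 3) (nat_lit 65) (nat_lit 66) = true := by decide +kernel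
def p13_17_0_66 : pfC (piC [(nat_lit 40745421), (nat_lit 25257288), (nat_lit 16296408)] (nat_lit 21455815)) p13_17_0 (nat_lit 3) (nat_lit 66) (nat_lit 67) = true := by decide +kernel
def p13_17_0_67 : pfC (piC [(nat_lit 40745421), (nat_lit 25257288), (nat_lit 16296408)] (nat_lit 21455815)) p13_17_0 (nat_lit 3) (nat_lit 67) (nat_lit 68) = true := by decide +kernel
def p13_17_0_68 : pfC (piC [(nat_lit 40745421), (nat_lit 25257288), (nat_lit 16296408)] (nat_lit 21455815)) p13_17_0 (nat_lit 3) (nat_lit 68) (nat_lit 69) = true := by decide +kernel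
def p13_17_0_69 : pfC (piC [(nat_lit 40745421), (nat_lit 25257288), (nat_lit 16296408)] (nat_lit 21455815)) p13_17_0 (nat_lit 3) (nat_lit 69) (nat_lit 70) = true := by decide +kernel
def p13_17_0_70 : pfC (piC [(nat_lit 40745421), (nat_lit 25257288), (nat_lit 16296408)] (nat_lit 21455815)) p13_17_0 (nat_lit 3) (nat_lit 70) (nat_lit 71) = true := by decide +kernel
def p13_17_0_71 : pfC (piC [(nat_lit 40745421), (nat_lit 25257288), (nat_lit 16296408)] (nat_lit 21455815)) p13_17_0 (nat_lit 3) (nat_lit 71) (nat_lit 72) = true := by decide +kernel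
def p13_17_0_72 : pfC (piC [(nat_lit 40745421), (nat_lit 25257288), (nat_lit 16296408)] (nat_lit 21455815)) p13_17_0 (nat_lit 3) (nat_lit 72) (nat_lit 73) = true := by decide +kernel
def p13_17_0_73 : pfC (piC [(nat_lit 40745421), (nat_lit 25257288), (nat_lit 16296408)] (nat_lit 21455815)) p13_17_0 (nat_lit 3) (nat_lit 73) (nat_lit 74) = true := by decide +kernel
def p13_17_0_74 : pfC (piC [(nat_lit 40745421), (nat_lit 25257288), (nat_lit 16296408)] (nat_lit 21455815)) p13_17_0 (nat_lit 3) (nat_lit 74) (nat_lit 75) = true := by decide +kernel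
def p13_17_0_75 : pfC (piC [(nat_lit 40745421), (nat_lit 25257288), (nat_lit 16296408)] (nat_lit 21455815)) p13_17_0 (nat_lit 3) (nat_lit 75) (nat_lit 76) = true := by decide +kernel
def p13_17_0_76 : pfC (piC [(nat_lit 40745421), (nat_lit 25257288), (nat_lit 16296408)] (nat_lit 21455815)) p13_17_0 (nat_lit 3) (nat_lit 76) (nat_lit 77) = true := by decide +kernel
def p13_17_0_77 : pfC (piC [(nat_lit 40745421), (nat_lit 25257288), (nat_lit 16296408)] (nat_lit 21455815)) p13_17_0 (nat_lit 3) (nat_lit 77) (nat_lit 78) = true := by decide +kernel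
def p13_17_0_78 : pfC (piC [(nat_lit 40745421), (nat_lit 25257288), (nat_lit 16296408)] (nat_lit 21455815)) p13_17_0 (nat_lit 3) (nat_lit 78) (nat_lit 79) = true := by decide +kernel
def p13_17_0_79 : pfC (piC [(nat_lit 40745421), (nat_lit 25257288), (nat_lit 16296408)] (nat_lit 21455815)) p13_17_0 (nat_lit 3) (nat_lit 79) (nat_lit 80) = true := by decide +kernel
def p13_17_0_80 : pfC (piC [(nat_lit 40745421), (nat_lit 25257288), (nat_lit 16296408)] (nat_lit 21455815)) p13_17_0 (nat_lit 3) (nat_lit 80) (nat_lit 81) = true := by decide +kernel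
def p13_17_0_81 : pfC (piC [(nat_lit 40745421), (nat_lit 25257288), (nat_lit 16296408)] (nat_lit 21455815)) p13_17_0 (nat_lit 3) (nat_lit 81) (nat_lit 82) = true := by decide +kernel
def p13_17_0_82 : pfC (piC [(nat_lit 40745421), (nat_lit 25257288), (nat_lit 16296408)] (nat_lit 21455815)) p13_17_0 (nat_lit 3) (nat_lit 82) (nat_lit 83) = true := by decide +kernel
def p13_17_0_83 : pfC (piC [(nat_lit 40745421), (nat_lit 25257288), (nat_lit 16296408)] (nat_lit 21455815)) p13_17_0 (nat_lit 3) (nat_lit 83) (nat_lit 84) = true := by decide +kernel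
def p13_17_0_84 : pfC (piC [(nat_lit 40745421), (nat_lit 25257288), (nat_lit 16296408)] (nat_lit 21455815)) p13_17_0 (nat_lit 3) (nat_lit 84) (nat_lit 85) = true := by decide +kernel
def p13_17_0_85 : pfC (piC [(nat_lit 40745421), (nat_lit 25257288), (nat_lit 16296408)] (nat_lit 21455815)) p13_17_0 (nat_lit 3) (nat_lit 85) (nat_lit 86) = true := by decide +kernel
def p13_17_0_86 : pfC (piC [(nat_lit 40745421), (nat_lit 25257288), (nat_lit 16296408)] (nat_lit 21455815)) p13_17_0 (nat_lit 3) (nat_lit 86) (nat_lit 87) = true := by decide +kernel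
def p13_17_0_87 : pfC (piC [(nat_lit 40745421), (nat_lit 25257288), (nat_lit 16296408)] (nat_lit 21455815)) p13_17_0 (nat_lit 3) (nat_lit 87) (nat_lit 88) = true := by decide +kernel
def p13_17_0_88 : pfC (piC [(nat_lit 40745421), (nat_lit 25257288), (nat_lit 16296408)] (nat_lit 21455815)) p13_17_0 (nat_lit 3) (nat_lit 88) (nat_lit 89) = true := by decide +kernel
def p13_17_0_89 : pfC (piC [(nat_lit 40745421), (nat_lit 25257288), (nat_lit 16296408)] (nat_lit 21455815)) p13_17_0 (nat_lit 3) (nat_lit 89) (nat_lit 90) = true := by decide +kernel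
def p13_17_0_90 : pfC (piC [(nat_lit 40745421), (nat_lit 25257288), (nat_lit 16296408)] (nat_lit 21455815)) p13_17_0 (nat_lit 3) (nat_lit 90) (nat_lit 91) = true := by decide +kernel
def p13_17_0_91 : pfC (piC [(nat_lit 40745421), (nat_lit 25257288), (nat_lit 16296408)] (nat_lit 21455815)) p13_17_0 (nat_lit 3) (nat_lit 91) (nat_lit 92) = true := by decide +kernel
def p13_17_0_92 : pfC (piC [(nat_lit 40745421), (nat_lit 25257288), (nat_lit 16296408)] (nat_lit 21455815)) p13_17_0 (nat_lit 3) (nat_lit 92) (nat_lit 93) = true := by decide +kernel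
def p13_17_0_93 : pfC (piC [(nat_lit 40745421), (nat_lit 25257288), (nat_lit 16296408)] (nat_lit 21455815)) p13_17_0 (nat_lit 3) (nat_lit 93) (nat_lit 94) = true := by decide +kernel
def p13_17_0_94 : pfC (piC [(nat_lit 40745421), (nat_lit 25257288), (nat_lit 16296408)] (nat_lit 21455815)) p13_17_0 (nat_lit 3) (nat_lit 94) (nat_lit 95) = true := by decide +kernel
def p13_17_0_95 : pfC (piC [(nat_lit 40745421), (nat_lit 25257288), (nat_lit 16296408)] (nat_lit 21455815)) p13_17_0 (nat_lit 3) (nat_lit 95) (nat_lit 96) = true := by decide +kernel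
def p13_17_0_96 : pfC (piC [(nat_lit 40745421), (nat_lit 25257288), (nat_lit 16296408)] (nat_lit 21455815)) p13_17_0 (nat_lit 3) (nat_lit 96) (nat_lit 97) = true := by decide +kernel
def p13_17_0_97 : pfC (piC [(nat_lit 40745421), (nat_lit 25257288), (nat_lit 16296408)] (nat_lit 21455815)) p13_17_0 (nat_lit 3) (nat_lit 97) (nat_lit 98) = true := by decide +kernel
def p13_17_0_98 : pfC (piC [(nat_lit 40745421), (nat_lit 25257288), (nat_lit 16296408)] (nat_lit 21455815)) p13_17_0 (nat_lit 3) (nat_lit 98) (nat_lit 99) = true := by decide +kernel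
def p13_17_0_99 : pfC (piC [(nat_lit 40745421), (nat_lit 25257288), (nat_lit 16296408)] (nat_lit 21455815)) p13_17_0 (nat_lit 3) (nat_lit 99) (nat_lit 100) = true := by decide +kernel
def p13_17_0_100 : pfC (piC [(nat_lit 40745421), (nat_lit 25257288), (nat_lit 16296408)] (nat_lit 21455815)) p13_17_0 (nat_lit 3) (nat_lit 100) (nat_lit 101) = true := by decide +kernel
def p13_17_0_101 : pfC (piC [(nat_lit 40745421), (nat_lit 25257288), (nat_lit 16296408)] (nat_lit 21455815)) p13_17_0 (nat_lit 3) (nat_lit 101) (nat_lit 102) = true := by decide +kernel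
def p13_17_0_102 : pfC (piC [(nat_lit 40745421), (nat_lit 25257288), (nat_lit 16296408)] (nat_lit 21455815)) p13_17_0 (nat_lit 3) (nat_lit 102) (nat_lit 103) = true := by decide +kernel
def p13_17_0_103 : pfC (piC [(nat_lit 40745421), (nat_lit 25257288), (nat_lit 16296408)] (nat_lit 21455815)) p13_17_0 (nat_lit 3) (nat_lit 103) (nat_lit 104) = true := by decide +kernel
def p13_17_0_104 : pfC (piC [(nat_lit 40745421), (nat_lit 25257288), (nat_lit 16296408)] (nat_lit 21455815)) p13_17_0 (nat_lit 3) (nat_lit 104) (nat_lit 105) = true := by decide +kernel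
def p13_17_0_105 : pfC (piC [(nat_lit 40745421), (nat_lit 25257288), (nat_lit 16296408)] (nat_lit 21455815)) p13_17_0 (nat_lit 3) (nat_lit 105) (nat_lit 106) = true := by decide +kernel
def p13_17_0_106 : pfC (piC [(nat_lit 40745421), (nat_lit 25257288), (nat_lit 16296408)] (nat_lit 21455815)) p13_17_0 (nat_lit 3) (nat_lit 106) (nat_lit 107) = true := by decide +kernel
def p13_17_0_107 : pfC (piC [(nat_lit 40745421), (nat_lit 25257288), (nat_lit 16296408)] (nat_lit 21455815)) p13_17_0 (nat_lit 3) (nat_lit 107) (nat_lit 108) = true := by decide +kernel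
def p13_17_0_108 : pfC (piC [(nat_lit 40745421), (nat_lit 25257288), (nat_lit 16296408)] (nat_lit 21455815)) p13_17_0 (nat_lit 3) (nat_lit 108) (nat_lit 109) = true := by decide +kernel
def p13_17_0_109 : pfC (piC [(nat_lit 40745421), (nat_lit 25257288), (nat_lit 16296408)] (nat_lit 21455815)) p13_17_0 (nat_lit 3) (nat_lit 109) (nat_lit 110) = true := by decide +kernel
def p13_17_0_110 : pfC (piC [(nat_lit 40745421), (nat_lit 25257288), (nat_lit 16296408)] (nat_lit 21455815)) p13_17_0 (nat_lit 3) (nat_lit 110) (nat_lit 111) = true := by decide +kernel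
def p13_17_0_111 : pfC (piC [(nat_lit 40745421), (nat_lit 25257288), (nat_lit 16296408)] (nat_lit 21455815)) p13_17_0 (nat_lit 3) (nat_lit 111) (nat_lit 112) = true := by decide +kernel
def p13_17_0_112 : pfC (piC [(nat_lit 40745421), (nat_lit 25257288), (nat_lit 16296408)] (nat_lit 21455815)) p13_17_0 (nat_lit 3) (nat_lit 112) (nat_lit 113) = true := by decide +kernel
def p13_17_0_113 : pfC (piC [(nat_lit 40745421), (nat_lit 25257288), (nat_lit 16296408)] (nat_lit 21455815)) p13_17_0 (nat_lit 3) (nat_lit 113) (nat_lit 114) = true := by decide +kernel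
def p13_17_0_114 : pfC (piC [(nat_lit 40745421), (nat_lit 25257288), (nat_lit 16296408)] (nat_lit 21455815)) p13_17_0 (nat_lit 3) (nat_lit 114) (nat_lit 115) = true := by decide +kernel
def p13_17_0_115 : pfC (piC [(nat_lit 40745421), (nat_lit 25257288), (nat_lit 16296408)] (nat_lit 21455815)) p13_17_0 (nat_lit 3) (nat_lit 115) (nat_lit 116) = true := by decide +kernel
def p13_17_0_116 : pfC (piC [(nat_lit 40745421), (nat_lit 25257288), (nat_lit 16296408)] (nat_lit 21455815)) p13_17_0 (nat_lit 3) (nat_lit 116) (nat_lit 117) = true := by decide +kernel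
def p13_17_0_117 : pfC (piC [(nat_lit 40745421), (nat_lit 25257288), (nat_lit 16296408)] (nat_lit 21455815)) p13_17_0 (nat_lit 3) (nat_lit 117) (nat_lit 118) = true := by decide +kernel
def p13_17_0_118 : pfC (piC [(nat_lit 40745421), (nat_lit 25257288), (nat_lit 16296408)] (nat_lit 21455815)) p13_17_0 (nat_lit 3) (nat_lit 118) (nat_lit 119) = true := by decide +kernel
def p13_17_0_119 : pfC (piC [(nat_lit 40745421), (nat_lit 25257288), (nat_lit 16296408)] (nat_lit 21455815)) p13_17_0 (nat_lit 3) (nat_lit 119) (nat_lit 120) = true := by decide +kernel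
def p13_17_0_120 : pfC (piC [(nat_lit 40745421), (nat_lit 25257288), (nat_lit 16296408)] (nat_lit 21455815)) p13_17_0 (nat_lit 3) (nat_lit 120) (nat_lit 121) = true := by decide +kernel
def p13_17_0_121 : pfC (piC [(nat_lit 40745421), (nat_lit 25257288), (nat_lit 16296408)] (nat_lit 21455815)) p13_17_0 (nat_lit 3) (nat_lit 121) (nat_lit 122) = true := by decide +kernel
def p13_17_0_122 : pfC (piC [(nat_lit 40745421), (nat_lit 25257288), (nat_lit 16296408)] (nat_lit 21455815)) p13_17_0 (nat_lit 3) (nat_lit 122) (nat_lit 123) = true := by decide +kernel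
def p13_17_0_123 : pfC (piC [(nat_lit 40745421), (nat_lit 25257288), (nat_lit 16296408)] (nat_lit 21455815)) p13_17_0 (nat_lit 3) (nat_lit 123) (nat_lit 124) = true := by decide +kernel
def p13_17_0_124 : pfC (piC [(nat_lit 40745421), (nat_lit 25257288), (nat_lit 16296408)] (nat_lit 21455815)) p13_17_0 (nat_lit 3) (nat_lit 124) (nat_lit 125) = true := by decide +kernel
def p13_17_0_125 : pfC (piC [(nat_lit 40745421), (nat_lit 25257288), (nat_lit 16296408)] (nat_lit 21455815)) p13_17_0 (nat_lit 3) (nat_lit 125) (nat_lit 126) = true := by decide +kernel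
def p13_17_0_126 : pfC (piC [(nat_lit 40745421), (nat_lit 25257288), (nat_lit 16296408)] (nat_lit 21455815)) p13_17_0 (nat_lit 3) (nat_lit 126) (nat_lit 127) = true := by decide +kernel
def p13_17_0_127 : pfC (piC [(nat_lit 40745421), (nat_lit 25257288), (nat_lit 16296408)] (nat_lit 21455815)) p13_17_0 (nat_lit 3) (nat_lit 127) (nat_lit 128) = true := by decide +kernel
def p13_17_0_128 : pfC (piC [(nat_lit 40745421), (nat_lit 25257288), (nat_lit 16296408)] (nat_lit 21455815)) p13_17_0 (nat_lit 3) (nat_lit 128) (nat_lit 129) = true := by decide +kernel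
def p13_17_0_129 : pfC (piC [(nat_lit 40745421), (nat_lit 25257288), (nat_lit 16296408)] (nat_lit 21455815)) p13_17_0 (nat_lit 3) (nat_lit 129) (nat_lit 130) = true := by decide +kernel
def p13_17_0_130 : pfC (piC [(nat_lit 40745421), (nat_lit 25257288), (nat_lit 16296408)] (nat_lit 21455815)) p13_17_0 (nat_lit 3) (nat_lit 130) (nat_lit 131) = true := by decide +kernel
def p13_17_0_131 : pfC (piC [(nat_lit 40745421), (nat_lit 25257288), (nat_lit 16296408)] (nat_lit 21455815)) p13_17_0 (nat_lit 3) (nat_lit 131) (nat_lit 132) = true := by decide +kernel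
def p13_17_0_132 : pfC (piC [(nat_lit 40745421), (nat_lit 25257288), (nat_lit 16296408)] (nat_lit 21455815)) p13_17_0 (nat_lit 3) (nat_lit 132) (nat_lit 133) = true := by decide +kernel
def p13_17_0_133 : pfC (piC [(nat_lit 40745421), (nat_lit 25257288), (nat_lit 16296408)] (nat_lit 21455815)) p13_17_0 (nat_lit 3) (nat_lit 133) (nat_lit 134) = true := by decide +kernel
def p13_17_0_134 : pfC (piC [(nat_lit 40745421), (nat_lit 25257288), (nat_lit 16296408)] (nat_lit 21455815)) p13_17_0 (nat_lit 3) (nat_lit 134) (nat_lit 135) = true := by decide +kernel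
def p13_17_0_135 : pfC (piC [(nat_lit 40745421), (nat_lit 25257288), (nat_lit 16296408)] (nat_lit 21455815)) p13_17_0 (nat_lit 3) (nat_lit 135) (nat_lit 136) = true := by decide +kernel
def p13_17_0_136 : pfC (piC [(nat_lit 40745421), (nat_lit 25257288), (nat_lit 16296408)] (nat_lit 21455815)) p13_17_0 (nat_lit 3) (nat_lit 136) (nat_lit 137) = true := by decide +kernel
def p13_17_0_137 : pfC (piC [(nat_lit 40745421), (nat_lit 25257288), (nat_lit 16296408)] (nat_lit 21455815)) p13_17_0 (nat_lit 3) (nat_lit 137) (nat_lit 138) = true := by decide +kernel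
def p13_17_0_138 : pfC (piC [(nat_lit 40745421), (nat_lit 25257288), (nat_lit 16296408)] (nat_lit 21455815)) p13_17_0 (nat_lit 3) (nat_lit 138) (nat_lit 139) = true := by decide +kernel
def p13_17_0_139 : pfC (piC [(nat_lit 40745421), (nat_lit 25257288), (nat_lit 16296408)] (nat_lit 21455815)) p13_17_0 (nat_lit 3) (nat_lit 139) (nat_lit 140) = true := by decide +kernel
def p13_17_0_140 : pfC (piC [(nat_lit 40745421), (nat_lit 25257288), (nat_lit 16296408)] (nat_lit 21455815)) p13_17_0 (nat_lit 3) (nat_lit 140) (nat_lit 141) = true := by decide +kernel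
def p13_17_0_141 : pfC (piC [(nat_lit 40745421), (nat_lit 25257288), (nat_lit 16296408)] (nat_lit 21455815)) p13_17_0 (nat_lit 3) (nat_lit 141) (nat_lit 142) = true := by decide +kernel
def p13_17_0_142 : pfC (piC [(nat_lit 40745421), (nat_lit 25257288), (nat_lit 16296408)] (nat_lit 21455815)) p13_17_0 (nat_lit 3) (nat_lit 142) (nat_lit 143) = true := by decide +kernel
def p13_17_0_143 : pfC (piC [(nat_lit 40745421), (nat_lit 25257288), (nat_lit 16296408)] (nat_lit 21455815)) p13_17_0 (nat_lit 3) (nat_lit 143) (nat_lit 144) = true := by decide +kernel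
def p13_17_0_144 : pfC (piC [(nat_lit 40745421), (nat_lit 25257288), (nat_lit 16296408)] (nat_lit 21455815)) p13_17_0 (nat_lit 3) (nat_lit 144) (nat_lit 145) = true := by decide +kernel
def p13_17_0_145 : pfC (piC [(nat_lit 40745421), (nat_lit 25257288), (nat_lit 16296408)] (nat_lit 21455815)) p13_17_0 (nat_lit 3) (nat_lit 145) (nat_lit 146) = true := by decide +kernel
def p13_17_0_146 : pfC (piC [(nat_lit 40745421), (nat_lit 25257288), (nat_lit 16296408)] (nat_lit 21455815)) p13_17_0 (nat_lit 3) (nat_lit 146) (nat_lit 147) = true := by decide +kernel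
def p13_17_0_147 : pfC (piC [(nat_lit 40745421), (nat_lit 25257288), (nat_lit 16296408)] (nat_lit 21455815)) p13_17_0 (nat_lit 3) (nat_lit 147) (nat_lit 148) = true := by decide +kernel
def p13_17_0_148 : pfC (piC [(nat_lit 40745421), (nat_lit 25257288), (nat_lit 16296408)] (nat_lit 21455815)) p13_17_0 (nat_lit 3) (nat_lit 148) (nat_lit 149) = true := by decide +kernel
def p13_17_0_149 : pfC (piC [(nat_lit 40745421), (nat_lit 25257288), (nat_lit 16296408)] (nat_lit 21455815)) p13_17_0 (nat_lit 3) (nat_lit 149) (nat_lit 150) = true := by decide +kernel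
def p13_17_0_150 : pfC (piC [(nat_lit 40745421), (nat_lit 25257288), (nat_lit 16296408)] (nat_lit 21455815)) p13_17_0 (nat_lit 3) (nat_lit 150) (nat_lit 151) = true := by decide +kernel
def p13_17_0_151 : pfC (piC [(nat_lit 40745421), (nat_lit 25257288), (nat_lit 16296408)] (nat_lit 21455815)) p13_17_0 (nat_lit 3) (nat_lit 151) (nat_lit 152) = true := by decide +kernel
def p13_17_0_152 : pfC (piC [(nat_lit 40745421), (nat_lit 25257288), (nat_lit 16296408)] (nat_lit 21455815)) p13_17_0 (nat_lit 3) (nat_lit 152) (nat_lit 153) = true := by decide +kernel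
def p13_17_0_153 : pfC (piC [(nat_lit 40745421), (nat_lit 25257288), (nat_lit 16296408)] (nat_lit 21455815)) p13_17_0 (nat_lit 3) (nat_lit 153) (nat_lit 154) = true := by decide +kernel
def p13_17_0_154 : pfC (piC [(nat_lit 40745421), (nat_lit 25257288), (nat_lit 16296408)] (nat_lit 21455815)) p13_17_0 (nat_lit 3) (nat_lit 154) (nat_lit 155) = true := by decide +kernel
def p13_17_0_155 : pfC (piC [(nat_lit 40745421), (nat_lit 25257288), (nat_lit 16296408)] (nat_lit 21455815)) p13_17_0 (nat_lit 3) (nat_lit 155) (nat_lit 156) = true := by decide +kernel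
def p13_17_0_156 : pfC (piC [(nat_lit 40745421), (nat_lit 25257288), (nat_lit 16296408)] (nat_lit 21455815)) p13_17_0 (nat_lit 3) (nat_lit 156) (nat_lit 157) = true := by decide +kernel
def p13_17_0_157 : pfC (piC [(nat_lit 40745421), (nat_lit 25257288), (nat_lit 16296408)] (nat_lit 21455815)) p13_17_0 (nat_lit 3) (nat_lit 157) (nat_lit 158) = true := by decide +kernel
def p13_17_0_158 : pfC (piC [(nat_lit 40745421), (nat_lit 25257288), (nat_lit 16296408)] (nat_lit 21455815)) p13_17_0 (nat_lit 3) (nat_lit 158) (nat_lit 159) = true := by decide +kernel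
def p13_17_0_159 : pfC (piC [(nat_lit 40745421), (nat_lit 25257288), (nat_lit 16296408)] (nat_lit 21455815)) p13_17_0 (nat_lit 3) (nat_lit 159) (nat_lit 160) = true := by decide +kernel
def p13_17_0_160 : pfC (piC [(nat_lit 40745421), (nat_lit 25257288), (nat_lit 16296408)] (nat_lit 21455815)) p13_17_0 (nat_lit 3) (nat_lit 160) (nat_lit 161) = true := by decide +kernel
def p13_17_0_161 : pfC (piC [(nat_lit 40745421), (nat_lit 25257288), (nat_lit 16296408)] (nat_lit 21455815)) p13_17_0 (nat_lit 3) (nat_lit 161) (nat_lit 162) = true := by decide +kernel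
def p13_17_0_162 : pfC (piC [(nat_lit 40745421), (nat_lit 25257288), (nat_lit 16296408)] (nat_lit 21455815)) p13_17_0 (nat_lit 3) (nat_lit 162) (nat_lit 163) = true := by decide +kernel
def p13_17_0_163 : pfC (piC [(nat_lit 40745421), (nat_lit 25257288), (nat_lit 16296408)] (nat_lit 21455815)) p13_17_0 (nat_lit 3) (nat_lit 163) (nat_lit 164) = true := by decide +kernel
def p13_17_0_164 : pfC (piC [(nat_lit 40745421), (nat_lit 25257288), (nat_lit 16296408)] (nat_lit 21455815)) p13_17_0 (nat_lit 3) (nat_lit 164) (nat_lit 165) = true := by decide +kernel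
def p13_17_0_165 : pfC (piC [(nat_lit 40745421), (nat_lit 25257288), (nat_lit 16296408)] (nat_lit 21455815)) p13_17_0 (nat_lit 3) (nat_lit 165) (nat_lit 166) = true := by decide +kernel
def p13_17_0_166 : pfC (piC [(nat_lit 40745421), (nat_lit 25257288), (nat_lit 16296408)] (nat_lit 21455815)) p13_17_0 (nat_lit 3) (nat_lit 166) (nat_lit 167) = true := by decide +kernel
def p13_17_0_167 : pfC (piC [(nat_lit 40745421), (nat_lit 25257288), (nat_lit 16296408)] (nat_lit 21455815)) p13_17_0 (nat_lit 3) (nat_lit 167) (nat_lit 168) = true := by decide +kernel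
def p13_17_0_168 : pfC (piC [(nat_lit 40745421), (nat_lit 25257288), (nat_lit 16296408)] (nat_lit 21455815)) p13_17_0 (nat_lit 3) (nat_lit 168) (nat_lit 169) = true := by decide +kernel
def p13_17_0_169 : pfC (piC [(nat_lit 40745421), (nat_lit 25257288), (nat_lit 16296408)] (nat_lit 21455815)) p13_17_0 (nat_lit 3) (nat_lit 169) (nat_lit 170) = true := by decide +kernel
def p13_17_0_170 : pfC (piC [(nat_lit 40745421), (nat_lit 25257288), (nat_lit 16296408)] (nat_lit 21455815)) p13_17_0 (nat_lit 3) (nat_lit 170) (nat_lit 171) = true := by decide +kernel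
def p13_17_0_171 : pfC (piC [(nat_lit 40745421), (nat_lit 25257288), (nat_lit 16296408)] (nat_lit 21455815)) p13_17_0 (nat_lit 3) (nat_lit 171) (nat_lit 172) = true := by decide +kernel
def p13_17_0_172 : pfC (piC [(nat_lit 40745421), (nat_lit 25257288), (nat_lit 16296408)] (nat_lit 21455815)) p13_17_0 (nat_lit 3) (nat_lit 172) (nat_lit 173) = true := by decide +kernel
def p13_17_0_173 : pfC (piC [(nat_lit 40745421), (nat_lit 25257288), (nat_lit 16296408)] (nat_lit 21455815)) p13_17_0 (nat_lit 3) (nat_lit 173) (nat_lit 174) = true := by decide +kernel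
def p13_17_0_174 : pfC (piC [(nat_lit 40745421), (nat_lit 25257288), (nat_lit 16296408)] (nat_lit 21455815)) p13_17_0 (nat_lit 3) (nat_lit 174) (nat_lit 175) = true := by decide +kernel
def p13_17_0_175 : pfC (piC [(nat_lit 40745421), (nat_lit 25257288), (nat_lit 16296408)] (nat_lit 21455815)) p13_17_0 (nat_lit 3) (nat_lit 175) (nat_lit 176) = true := by decide +kernel
def p13_17_0_176 : pfC (piC [(nat_lit 40745421), (nat_lit 25257288), (nat_lit 16296408)] (nat_lit 21455815)) p13_17_0 (nat_lit 3) (nat_lit 176) (nat_lit 177) = true := by decide +kernel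
def p13_17_0_177 : pfC (piC [(nat_lit 40745421), (nat_lit 25257288), (nat_lit 16296408)] (nat_lit 21455815)) p13_17_0 (nat_lit 3) (nat_lit 177) (nat_lit 178) = true := by decide +kernel
def p13_17_0_178 : pfC (piC [(nat_lit 40745421), (nat_lit 25257288), (nat_lit 16296408)] (nat_lit 21455815)) p13_17_0 (nat_lit 3) (nat_lit 178) (nat_lit 179) = true := by decide +kernel
def p13_17_0_179 : pfC (piC [(nat_lit 40745421), (nat_lit 25257288), (nat_lit 16296408)] (nat_lit 21455815)) p13_17_0 (nat_lit 3) (nat_lit 179) (nat_lit 180) = true := by decide +kernel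
def p13_17_0_180 : pfC (piC [(nat_lit 40745421), (nat_lit 25257288), (nat_lit 16296408)] (nat_lit 21455815)) p13_17_0 (nat_lit 3) (nat_lit 180) (nat_lit 181) = true := by decide +kernel
def p13_17_0_181 : pfC (piC [(nat_lit 40745421), (nat_lit 25257288), (nat_lit 16296408)] (nat_lit 21455815)) p13_17_0 (nat_lit 3) (nat_lit 181) (nat_lit 182) = true := by decide +kernel
def p13_17_0_182 : pfC (piC [(nat_lit 40745421), (nat_lit 25257288), (nat_lit 16296408)] (nat_lit 21455815)) p13_17_0 (nat_lit 3) (nat_lit 182) (nat_lit 183) = true := by decide +kernel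
def p13_17_0_183 : pfC (piC [(nat_lit 40745421), (nat_lit 25257288), (nat_lit 16296408)] (nat_lit 21455815)) p13_17_0 (nat_lit 3) (nat_lit 183) (nat_lit 184) = true := by decide +kernel
def p13_17_0_184 : pfC (piC [(nat_lit 40745421), (nat_lit 25257288), (nat_lit 16296408)] (nat_lit 21455815)) p13_17_0 (nat_lit 3) (nat_lit 184) (nat_lit 185) = true := by decide +kernel
def p13_17_0_185 : pfC (piC [(nat_lit 40745421), (nat_lit 25257288), (nat_lit 16296408)] (nat_lit 21455815)) p13_17_0 (nat_lit 3) (nat_lit 185) (nat_lit 186) = true := by decide +kernel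
def p13_17_0_186 : pfC (piC [(nat_lit 40745421), (nat_lit 25257288), (nat_lit 16296408)] (nat_lit 21455815)) p13_17_0 (nat_lit 3) (nat_lit 186) (nat_lit 187) = true := by decide +kernel
def p13_17_0_187 : pfC (piC [(nat_lit 40745421), (nat_lit 25257288), (nat_lit 16296408)] (nat_lit 21455815)) p13_17_0 (nat_lit 3) (nat_lit 187) (nat_lit 188) = true := by decide +kernel
def p13_17_0_188 : pfC (piC [(nat_lit 40745421), (nat_lit 25257288), (nat_lit 16296408)] (nat_lit 21455815)) p13_17_0 (nat_lit 3) (nat_lit 188) (nat_lit 189) = true := by decide +kernel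
def p13_17_0_189 : pfC (piC [(nat_lit 40745421), (nat_lit 25257288), (nat_lit 16296408)] (nat_lit 21455815)) p13_17_0 (nat_lit 3) (nat_lit 189) (nat_lit 190) = true := by decide +kernel
def p13_17_0_190 : pfC (piC [(nat_lit 40745421), (nat_lit 25257288), (nat_lit 16296408)] (nat_lit 21455815)) p13_17_0 (nat_lit 3) (nat_lit 190) (nat_lit 191) = true := by decide +kernel
def p13_17_0_191 : pfC (piC [(nat_lit 40745421), (nat_lit 25257288), (nat_lit 16296408)] (nat_lit 21455815)) p13_17_0 (nat_lit 3) (nat_lit 191) (nat_lit 192) = true := by decide +kernel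
def p13_17_0_192 : pfC (piC [(nat_lit 40745421), (nat_lit 25257288), (nat_lit 16296408)] (nat_lit 21455815)) p13_17_0 (nat_lit 3) (nat_lit 192) (nat_lit 193) = true := by decide +kernel
def p13_17_0_193 : pfC (piC [(nat_lit 40745421), (nat_lit 25257288), (nat_lit 16296408)] (nat_lit 21455815)) p13_17_0 (nat_lit 3) (nat_lit 193) (nat_lit 194) = true := by decide +kernel
def p13_17_0_194 : pfC (piC [(nat_lit 40745421), (nat_lit 25257288), (nat_lit 16296408)] (nat_lit 21455815)) p13_17_0 (nat_lit 3) (nat_lit 194) (nat_lit 195) = true := by decide +kernel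
def p13_17_0_195 : pfC (piC [(nat_lit 40745421), (nat_lit 25257288), (nat_lit 16296408)] (nat_lit 21455815)) p13_17_0 (nat_lit 3) (nat_lit 195) (nat_lit 196) = true := by decide +kernel
def p13_17_0_196 : pfC (piC [(nat_lit 40745421), (nat_lit 25257288), (nat_lit 16296408)] (nat_lit 21455815)) p13_17_0 (nat_lit 3) (nat_lit 196) (nat_lit 197) = true := by decide +kernel
def p13_17_0_197 : pfC (piC [(nat_lit 40745421), (nat_lit 25257288), (nat_lit 16296408)] (nat_lit 21455815)) p13_17_0 (nat_lit 3) (nat_lit 197) (nat_lit 198) = true := by decide +kernel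
def p13_17_0_198 : pfC (piC [(nat_lit 40745421), (nat_lit 25257288), (nat_lit 16296408)] (nat_lit 21455815)) p13_17_0 (nat_lit 3) (nat_lit 198) (nat_lit 199) = true := by decide +kernel
def p13_17_0_199 : pfC (piC [(nat_lit 40745421), (nat_lit 25257288), (nat_lit 16296408)] (nat_lit 21455815)) p13_17_0 (nat_lit 3) (nat_lit 199) (nat_lit 200) = true := by decide +kernel
def p13_17_0_200 : pfC (piC [(nat_lit 40745421), (nat_lit 25257288), (nat_lit 16296408)] (nat_lit 21455815)) p13_17_0 (nat_lit 3) (nat_lit 200) (nat_lit 201) = true := by decide +kernel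
def p13_17_0_201 : pfC (piC [(nat_lit 40745421), (nat_lit 25257288), (nat_lit 16296408)] (nat_lit 21455815)) p13_17_0 (nat_lit 3) (nat_lit 201) (nat_lit 202) = true := by decide +kernel
def p13_17_0_202 : pfC (piC [(nat_lit 40745421), (nat_lit 25257288), (nat_lit 16296408)] (nat_lit 21455815)) p13_17_0 (nat_lit 3) (nat_lit 202) (nat_lit 203) = true := by decide +kernel
def p13_17_0_203 : pfC (piC [(nat_lit 40745421), (nat_lit 25257288), (nat_lit 16296408)] (nat_lit 21455815)) p13_17_0 (nat_lit 3) (nat_lit 203) (nat_lit 204) = true := by decide +kernel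
def p13_17_0_204 : pfC (piC [(nat_lit 40745421), (nat_lit 25257288), (nat_lit 16296408)] (nat_lit 21455815)) p13_17_0 (nat_lit 3) (nat_lit 204) (nat_lit 205) = true := by decide +kernel
def p13_17_0_205 : pfC (piC [(nat_lit 40745421), (nat_lit 25257288), (nat_lit 16296408)] (nat_lit 21455815)) p13_17_0 (nat_lit 3) (nat_lit 205) (nat_lit 206) = true := by decide +kernel
def p13_17_0_206 : pfC (piC [(nat_lit 40745421), (nat_lit 25257288), (nat_lit 16296408)] (nat_lit 21455815)) p13_17_0 (nat_lit 3) (nat_lit 206) (nat_lit 207) = true := by decide +kernel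
def p13_17_0_207 : pfC (piC [(nat_lit 40745421), (nat_lit 25257288), (nat_lit 16296408)] (nat_lit 21455815)) p13_17_0 (nat_lit 3) (nat_lit 207) (nat_lit 208) = true := by decide +kernel
def p13_17_0_208 : pfC (piC [(nat_lit 40745421), (nat_lit 25257288), (nat_lit 16296408)] (nat_lit 21455815)) p13_17_0 (nat_lit 3) (nat_lit 208) (nat_lit 209) = true := by decide +kernel
def p13_17_0_209 : pfC (piC [(nat_lit 40745421), (nat_lit 25257288), (nat_lit 16296408)] (nat_lit 21455815)) p13_17_0 (nat_lit 3) (nat_lit 209) (nat_lit 210) = true := by decide +kernel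
def p13_17_0_210 : pfC (piC [(nat_lit 40745421), (nat_lit 25257288), (nat_lit 16296408)] (nat_lit 21455815)) p13_17_0 (nat_lit 3) (nat_lit 210) (nat_lit 211) = true := by decide +kernel
def p13_17_0_211 : pfC (piC [(nat_lit 40745421), (nat_lit 25257288), (nat_lit 16296408)] (nat_lit 21455815)) p13_17_0 (nat_lit 3) (nat_lit 211) (nat_lit 212) = true := by decide +kernel
def p13_17_0_212 : pfC (piC [(nat_lit 40745421), (nat_lit 25257288), (nat_lit 16296408)] (nat_lit 21455815)) p13_17_0 (nat_lit 3) (nat_lit 212) (nat_lit 213) = true := by decide +kernel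
def p13_17_0_213 : pfC (piC [(nat_lit 40745421), (nat_lit 25257288), (nat_lit 16296408)] (nat_lit 21455815)) p13_17_0 (nat_lit 3) (nat_lit 213) (nat_lit 214) = true := by decide +kernel
def p13_17_0_214 : pfC (piC [(nat_lit 40745421), (nat_lit 25257288), (nat_lit 16296408)] (nat_lit 21455815)) p13_17_0 (nat_lit 3) (nat_lit 214) (nat_lit 215) = true := by decide +kernel
def p13_17_0_215 : pfC (piC [(nat_lit 40745421), (nat_lit 25257288), (nat_lit 16296408)] (nat_lit 21455815)) p13_17_0 (nat_lit 3) (nat_lit 215) (nat_lit 216) = true := by decide +kernel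
def p13_17_0_216 : pfC (piC [(nat_lit 40745421), (nat_lit 25257288), (nat_lit 16296408)] (nat_lit 21455815)) p13_17_0 (nat_lit 3) (nat_lit 216) (nat_lit 217) = true := by decide +kernel
def p13_17_0_217 : pfC (piC [(nat_lit 40745421), (nat_lit 25257288), (nat_lit 16296408)] (nat_lit 21455815)) p13_17_0 (nat_lit 3) (nat_lit 217) (nat_lit 218) = true := by decide +kernel
def p13_17_0_218 : pfC (piC [(nat_lit 40745421), (nat_lit 25257288), (nat_lit 16296408)] (nat_lit 21455815)) p13_17_0 (nat_lit 3) (nat_lit 218) (nat_lit 219) = true := by decide +kernel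
def p13_17_0_219 : pfC (piC [(nat_lit 40745421), (nat_lit 25257288), (nat_lit 16296408)] (nat_lit 21455815)) p13_17_0 (nat_lit 3) (nat_lit 219) (nat_lit 220) = true := by decide +kernel
def p13_17_0_220 : pfC (piC [(nat_lit 40745421), (nat_lit 25257288), (nat_lit 16296408)] (nat_lit 21455815)) p13_17_0 (nat_lit 3) (nat_lit 220) (nat_lit 221) = true := by decide +kernel
def p13_17_0_221 : pfC (piC [(nat_lit 40745421), (nat_lit 25257288), (nat_lit 16296408)] (nat_lit 21455815)) p13_17_0 (nat_lit 3) (nat_lit 221) (nat_lit 222) = true := by decide +kernel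
def p13_17_0_222 : pfC (piC [(nat_lit 40745421), (nat_lit 25257288), (nat_lit 16296408)] (nat_lit 21455815)) p13_17_0 (nat_lit 3) (nat_lit 222) (nat_lit 223) = true := by decide +kernel
def p13_17_0_223 : pfC (piC [(nat_lit 40745421), (nat_lit 25257288), (nat_lit 16296408)] (nat_lit 21455815)) p13_17_0 (nat_lit 3) (nat_lit 223) (nat_lit 224) = true := by decide +kernel
def p13_17_0_224 : pfC (piC [(nat_lit 40745421), (nat_lit 25257288), (nat_lit 16296408)] (nat_lit 21455815)) p13_17_0 (nat_lit 3) (nat_lit 224) (nat_lit 225) = true := by decide +kernel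
def p13_17_0_225 : pfC (piC [(nat_lit 40745421), (nat_lit 25257288), (nat_lit 16296408)] (nat_lit 21455815)) p13_17_0 (nat_lit 3) (nat_lit 225) (nat_lit 226) = true := by decide +kernel
def p13_17_0_226 : pfC (piC [(nat_lit 40745421), (nat_lit 25257288), (nat_lit 16296408)] (nat_lit 21455815)) p13_17_0 (nat_lit 3) (nat_lit 226) (nat_lit 227) = true := by decide +kernel
def p13_17_0_227 : pfC (piC [(nat_lit 40745421), (nat_lit 25257288), (nat_lit 16296408)] (nat_lit 21455815)) p13_17_0 (nat_lit 3) (nat_lit 227) (nat_lit 228) = true := by decide +kernel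
def p13_17_0_228 : pfC (piC [(nat_lit 40745421), (nat_lit 25257288), (nat_lit 16296408)] (nat_lit 21455815)) p13_17_0 (nat_lit 3) (nat_lit 228) (nat_lit 229) = true := by decide +kernel
def p13_17_0_229 : pfC (piC [(nat_lit 40745421), (nat_lit 25257288), (nat_lit 16296408)] (nat_lit 21455815)) p13_17_0 (nat_lit 3) (nat_lit 229) (nat_lit 230) = true := by decide +kernel
theorem p13_17_0_T : PfS (PiF n13_17.reverse (nat_lit 21455815)) p13_17_0 (nat_lit 3) [] 0 :=
  pftab_of (los := [(nat_lit 40745421), (nat_lit 25257288), (nat_lit 16296408)]) (by decide +kernel) (hi := (nat_lit 230)) (PfP.trans (PfP.trans (PfP.trans (PfP.trans (PfP.trans (PfP.trans (PfP.trans (PfP.trans (PfP.trans (PfP.trans (PfP.trans (PfP.trans (PfP.trans (PfP.trans (PfP.trans (PfP.trans (PfP.trans (PfP.trans (PfP.trans (PfP.trans (PfP.trans (PfP.trans (PfP.trans (PfP.trans (PfP.trans (PfP.trans (PfP.trans (PfP.trans (PfP.trans (PfP.trans (PfP.trans (PfP.trans (PfP.trans (PfP.trans (PfP.trans (PfP.trans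 (PfP.trans (PfP.trans (PfP.trans (PfP.trans (PfP.trans (PfP.trans (PfP.trans (PfP.trans (PfP.trans (PfP.trans (PfP.trans (PfP.trans (PfP.trans (PfP.trans (PfP.trans (PfP.trans (PfP.trans (PfP.trans (PfP.trans (PfP.trans (PfP.trans (PfP.trans (PfP.trans (PfP.trans (PfP.trans (PfP.trans (PfP.trans (PfP.trans (PfP.trans (PfP.trans (PfP.trans (PfP.trans (PfP.trans (PfP.trans (PfP.trans (PfP.trans (PfP.trans (PfP.trans (PfP.trans (PfP.trans (PfP.trans (PfP.trans (PfP.trans (PfP.trans (PfP.trans (PfP.trans (PfP.trans (PfP.trans (PfP.trans (PfP.trans (PfP.trans (PfP.trans (PfP.trans (PfP.trans (PfP.trans (PfP.trans (PfP.trans (PfP.trans (PfP.trans (PfP.trans (PfP.trans (PfP.trans (PfP.trans (PfP.trans (PfP.trans (PfP.trans (PfP.trans (PfP.trans (PfP.trans (PfP.trans (PfP.trans (PfP.trans (PfP.trans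
 (PfP.trans (PfP.trans (PfP.trans (PfP.trans (PfP.trans (PfP.trans (PfP.trans (PfP.trans (PfP.trans (PfP.trans (PfP.trans (PfP.trans (PfP.trans (PfP.trans (PfP.trans (PfP.trans (PfP.trans (PfP.trans (PfP.trans (PfP.trans (PfP.trans (PfP.trans (PfP.trans (PfP.trans (PfP.trans (PfP.trans (PfP.trans (PfP.trans (PfP.trans (PfP.trans (PfP.trans (PfP.trans (PfP.trans (PfP.trans (PfP.trans (PfP.trans (PfP.trans (PfP.trans (PfP.trans (PfP.trans (PfP.trans (PfP.trans (PfP.trans (PfP.trans (PfP.trans (PfP.trans (PfP.trans (PfP.trans (PfP.trans (PfP.trans (PfP.trans (PfP.trans (PfP.trans (PfP.trans (PfP.trans (PfP.trans (PfP.trans (PfP.trans (PfP.trans (PfP.trans (PfP.trans (PfP.trans (PfP.trans (PfP.trans (PfP.trans (PfP.trans (PfP.trans (PfP.trans (PfP.trans (PfP.trans (PfP.trans (PfP.trans (PfP.trans (PfP.trans (PfP.trans (PfP.trans (PfP.trans (PfP.trans (PfP.trans (PfP.trans (PfP.trans (PfP.trans (PfP.trans (PfP.trans (PfP.trans (PfP.trans (PfP.trans (PfP.trans (PfP.trans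 (PfP.trans (PfP.trans (PfP.trans (PfP.trans (PfP.trans (PfP.trans (PfP.trans (PfP.trans (PfP.trans (PfP.trans (PfP.trans (PfP.trans (PfP.trans (PfP.trans (PfP.trans (PfP.trans (PfP.trans (PfP.trans (PfP.trans (PfP.trans
 (PfP.trans (PfP.trans (PfP.trans (PfP.trans (PfP.trans (PfP.trans (PfP.trans (PfP.trans (PfP.trans (PfP.trans (PfP.trans (pfC_sound p13_17_0_0) (pfC_sound p13_17_0_1)) (pfC_sound p13_17_0_2)) (pfC_sound p13_17_0_3)) (pfC_sound p13_17_0_4)) (pfC_sound p13_17_0_5)) (pfC_sound p13_17_0_6)) (pfC_sound p13_17_0_7)) (pfC_sound p13_17_0_8)) (pfC_sound p13_17_0_9)) (pfC_sound p13_17_0_10)) (pfC_sound p13_17_0_11)) (pfC_sound p13_17_0_12)) (pfC_sound p13_17_0_13)) (pfC_sound p13_17_0_14)) (pfC_sound p13_17_0_15)) (pfC_sound p13_17_0_16)) (pfC_sound p13_17_0_17)) (pfC_sound p13_17_0_18)) (pfC_sound p13_17_0_19)) (pfC_sound p13_17_0_20)) (pfC_sound p13_17_0_21)) (pfC_sound p13_17_0_22)) (pfC_sound p13_17_0_23)) (pfC_sound p13_17_0_24)) (pfC_sound p13_17_0_25))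 (pfC_sound p13_17_0_26)) (pfC_sound p13_17_0_27)) (pfC_sound p13_17_0_28)) (pfC_sound p13_17_0_29)) (pfC_sound p13_17_0_30)) (pfC_sound p13_17_0_31)) (pfC_sound p13_17_0_32)) (pfC_sound p13_17_0_33)) (pfC_sound p13_17_0_34)) (pfC_sound p13_17_0_35)) (pfC_sound p13_17_0_36)) (pfC_sound p13_17_0_37)) (pfC_sound p13_17_0_38)) (pfC_sound p13_17_0_39)) (pfC_sound p13_17_0_40)) (pfC_sound p13_17_0_41)) (pfC_sound p13_17_0_42)) (pfC_sound
 p13_17_0_43)) (pfC_sound p13_17_0_44)) (pfC_sound p13_17_0_45)) (pfC_sound p13_17_0_46)) (pfC_sound p13_17_0_47)) (pfC_sound p13_17_0_48)) (pfC_sound p13_17_0_49)) (pfC_sound p13_17_0_50)) (pfC_sound p13_17_0_51)) (pfC_sound p13_17_0_52)) (pfC_sound p13_17_0_53)) (pfC_sound p13_17_0_54)) (pfC_sound p13_17_0_55)) (pfC_sound p13_17_0_56)) (pfC_sound p13_17_0_57)) (pfC_sound p13_17_0_58)) (pfC_sound p13_17_0_59)) (pfC_sound p13_17_0_60)) (pfC_sound p13_17_0_61)) (pfC_sound p13_17_0_62)) (pfC_sound p13_17_0_63)) (pfC_sound p13_17_0_64)) (pfC_sound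 p13_17_0_65)) (pfC_sound p13_17_0_66)) (pfC_sound p13_17_0_67)) (pfC_sound p13_17_0_68)) (pfC_sound p13_17_0_69)) (pfC_sound p13_17_0_70)) (pfC_sound p13_17_0_71)) (pfC_sound p13_17_0_72)) (pfC_sound p13_17_0_73)) (pfC_sound p13_17_0_74)) (pfC_sound p13_17_0_75)) (pfC_sound p13_17_0_76)) (pfC_sound p13_17_0_77)) (pfC_sound p13_17_0_78)) (pfC_sound p13_17_0_79)) (pfC_sound p13_17_0_80)) (pfC_sound p13_17_0_81)) (pfC_sound p13_17_0_82)) (pfC_sound p13_17_0_83)) (pfC_sound p13_17_0_84)) (pfC_sound p13_17_0_85)) (pfC_sound p13_17_0_86)) (pfC_sound p13_17_0_87)) (pfC_sound p13_17_0_88)) (pfC_sound p13_17_0_89)) (pfC_sound p13_17_0_90)) (pfC_sound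
 p13_17_0_91)) (pfC_sound p13_17_0_92)) (pfC_sound p13_17_0_93)) (pfC_sound p13_17_0_94)) (pfC_sound p13_17_0_95)) (pfC_sound p13_17_0_96)) (pfC_sound p13_17_0_97)) (pfC_sound p13_17_0_98)) (pfC_sound p13_17_0_99)) (pfC_sound p13_17_0_100)) (pfC_sound p13_17_0_101)) (pfC_sound p13_17_0_102)) (pfC_sound p13_17_0_103)) (pfC_sound p13_17_0_104)) (pfC_sound p13_17_0_105)) (pfC_sound p13_17_0_106)) (pfC_sound p13_17_0_107)) (pfC_sound p13_17_0_108)) (pfC_sound p13_17_0_109)) (pfC_sound p13_17_0_110)) (pfC_sound p13_17_0_111)) (pfC_sound p13_17_0_112)) (pfC_sound p13_17_0_113)) (pfC_sound p13_17_0_114)) (pfC_sound p13_17_0_115)) (pfC_sound p13_17_0_116)) (pfC_sound p13_17_0_117)) (pfC_sound p13_17_0_118)) (pfC_sound p13_17_0_119)) (pfC_sound p13_17_0_120)) (pfC_sound p13_17_0_121)) (pfC_sound p13_17_0_122)) (pfC_sound p13_17_0_123)) (pfC_sound p13_17_0_124)) (pfC_sound p13_17_0_125)) (pfC_sound p13_17_0_126)) (pfC_sound p13_17_0_127)) (pfC_sound p13_17_0_128)) (pfC_sound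 p13_17_0_129)) (pfC_sound p13_17_0_130)) (pfC_sound p13_17_0_131)) (pfC_sound p13_17_0_132)) (pfC_sound p13_17_0_133)) (pfC_sound p13_17_0_134)) (pfC_sound p13_17_0_135)) (pfC_sound p13_17_0_136)) (pfC_sound
 p13_17_0_137)) (pfC_sound p13_17_0_138)) (pfC_sound p13_17_0_139)) (pfC_sound p13_17_0_140)) (pfC_sound p13_17_0_141)) (pfC_sound p13_17_0_142)) (pfC_sound p13_17_0_143)) (pfC_sound p13_17_0_144)) (pfC_sound p13_17_0_145)) (pfC_sound p13_17_0_146)) (pfC_sound p13_17_0_147)) (pfC_sound p13_17_0_148)) (pfC_sound p13_17_0_149)) (pfC_sound p13_17_0_150)) (pfC_sound p13_17_0_151)) (pfC_sound p13_17_0_152)) (pfC_sound p13_17_0_153)) (pfC_sound p13_17_0_154)) (pfC_sound p13_17_0_155)) (pfC_sound p13_17_0_156)) (pfC_sound p13_17_0_157)) (pfC_sound p13_17_0_158)) (pfC_sound p13_17_0_159)) (pfC_sound p13_17_0_160)) (pfC_sound p13_17_0_161)) (pfC_sound p13_17_0_162)) (pfC_sound p13_17_0_163)) (pfC_sound p13_17_0_164)) (pfC_sound p13_17_0_165)) (pfC_sound p13_17_0_166))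 (pfC_sound p13_17_0_167)) (pfC_sound p13_17_0_168)) (pfC_sound p13_17_0_169)) (pfC_sound p13_17_0_170)) (pfC_sound p13_17_0_171)) (pfC_sound p13_17_0_172)) (pfC_sound p13_17_0_173)) (pfC_sound p13_17_0_174)) (pfC_sound p13_17_0_175)) (pfC_sound p13_17_0_176)) (pfC_sound p13_17_0_177)) (pfC_sound p13_17_0_178)) (pfC_sound p13_17_0_179)) (pfC_sound p13_17_0_180)) (pfC_sound p13_17_0_181)) (pfC_sound p13_17_0_182)) (pfC_sound
 p13_17_0_183)) (pfC_sound p13_17_0_184)) (pfC_sound p13_17_0_185)) (pfC_sound p13_17_0_186)) (pfC_sound p13_17_0_187)) (pfC_sound p13_17_0_188)) (pfC_sound p13_17_0_189)) (pfC_sound p13_17_0_190)) (pfC_sound p13_17_0_191)) (pfC_sound p13_17_0_192)) (pfC_sound p13_17_0_193)) (pfC_sound p13_17_0_194)) (pfC_sound p13_17_0_195)) (pfC_sound p13_17_0_196)) (pfC_sound p13_17_0_197)) (pfC_sound p13_17_0_198)) (pfC_sound p13_17_0_199)) (pfC_sound p13_17_0_200)) (pfC_sound p13_17_0_201)) (pfC_sound p13_17_0_202)) (pfC_sound p13_17_0_203)) (pfC_sound p13_17_0_204))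 (pfC_sound p13_17_0_205)) (pfC_sound p13_17_0_206)) (pfC_sound p13_17_0_207)) (pfC_sound p13_17_0_208)) (pfC_sound p13_17_0_209)) (pfC_sound p13_17_0_210)) (pfC_sound p13_17_0_211)) (pfC_sound p13_17_0_212)) (pfC_sound p13_17_0_213)) (pfC_sound p13_17_0_214)) (pfC_sound p13_17_0_215)) (pfC_sound p13_17_0_216)) (pfC_sound p13_17_0_217)) (pfC_sound p13_17_0_218)) (pfC_sound p13_17_0_219)) (pfC_sound p13_17_0_220)) (pfC_sound p13_17_0_221)) (pfC_sound p13_17_0_222)) (pfC_sound p13_17_0_223)) (pfC_sound p13_17_0_224)) (pfC_sound p13_17_0_225)) (pfC_sound p13_17_0_226)) (pfC_sound p13_17_0_227)) (pfC_sound p13_17_0_228)) (pfC_sound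
 p13_17_0_229)) (by decide +kernel)

def z13_17_0 : zOK yB13_17 (nat_lit 0) (nat_lit 0) (nat_lit 400) (nat_lit 21455815) (nat_lit 11147418) = true := by decide +kernel
def g13_17_0 : gOK yB13_17.x P13_17 (nat_lit 1397) (q13_17 :: r13_17) (nat_lit 0) (nat_lit 0) (nat_lit 1) (nat_lit 400) (nat_lit 0) (nat_lit 11000000) (nat_lit 12712500) (nat_lit 12712500) [(nat_lit 800), (nat_lit 1600)] = true := by decide +kernel
def v13_17_0 : ivC P13_17 s13_17 w13_17 n13_17 (nat_lit 3) (nat_lit 5320) (nat_lit 0) (nat_lit 0) f176_0_0 f184_0_0 (nat_lit 1) (nat_lit 400) f176_0_400 f184_0_400 (nat_lit 21455815) (nat_lit 11147418) p13_17_0 = true := by decide +kernel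
def p13_17_1 : PF := (PF.cons (PF.cons (PF.cons (PF.leaf (nat_lit 1992918) (nat_lit 9161274) (nat_lit 57947538) (nat_lit 9161274) [(nat_lit 0), (nat_lit 0), (nat_lit 0)]) (PF.cons (PF.leaf (nat_lit 2142810) (nat_lit 250343) (nat_lit 57671955) (nat_lit 9186513) [(nat_lit 250343), (nat_lit 0), (nat_lit 0)]) (PF.cons (PF.leaf (nat_lit 2321379) (nat_lit 272798) (nat_lit 57348935) (nat_lit 9214280) [(nat_lit 272798), (nat_lit 0), (nat_lit 0)]) (PF.cons (PF.leaf (nat_lit 2522419) (nat_lit 292913) (nat_lit 56986890) (nat_lit 9243181) [(nat_lit 292913), (nat_lit 0), (nat_lit 0)]) (PF.cons (PF.leaf (nat_lit 2743016) (nat_lit 311220) (nat_lit 56591763) (nat_lit 9272167) [(nat_lit 311220), (nat_lit 0), (nat_lit 0)]) (PF.cons (PF.leaf (nat_lit 2980934) (nat_lit 328051) (nat_lit 56168143) (nat_lit 9300413) [(nat_lit 328051), (nat_lit 0), (nat_lit 0)]) (PF.cons (PF.leaf (nat_lit 3234159) (nat_lit 343630) (nat_lit 55719774) (nat_lit 9327258) [(nat_lit 343630), (nat_lit 0), (nat_lit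 0)]) (PF.cons (PF.leaf (nat_lit 3501241) (nat_lit 358115) (nat_lit 55249832) (nat_lit 9352173) [(nat_lit 358115), (nat_lit 0), (nat_lit 0)]) (PF.cons (PF.leaf (nat_lit 3780719) (nat_lit 371623) (nat_lit 54761084) (nat_lit 9374738)
 [(nat_lit 371623), (nat_lit 0), (nat_lit 0)]) (PF.cons (PF.leaf (nat_lit 4071305) (nat_lit 384245) (nat_lit 54255985) (nat_lit 9394622) [(nat_lit 384245), (nat_lit 0), (nat_lit 0)]) (PF.cons (PF.leaf (nat_lit 4371959) (nat_lit 396050) (nat_lit 53736741) (nat_lit 9411571) [(nat_lit 396050), (nat_lit 0), (nat_lit 0)]) (PF.cons (PF.leaf (nat_lit 4681528) (nat_lit 407096) (nat_lit 53205355) (nat_lit 9425397) [(nat_lit 407096), (nat_lit 0), (nat_lit 0)]) (PF.cons (PF.leaf (nat_lit 4999065) (nat_lit 417432) (nat_lit 52663656) (nat_lit 9435971) [(nat_lit 417432), (nat_lit 0), (nat_lit 0)]) (PF.cons PF.nil (PF.cons PF.nil (PF.cons PF.nil PF.nil)))))))))))))))) (PF.cons (PF.cons (PF.leaf (nat_lit 2658878) (nat_lit 1590464) (nat_lit 56233630) (nat_lit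 9284717) [(nat_lit 0), (nat_lit 1590464), (nat_lit 0)]) (PF.cons (PF.leaf (nat_lit 2859044) (nat_lit 312037) (nat_lit 55866467) (nat_lit 9307326) [(nat_lit 312037), (nat_lit 1622981), (nat_lit 0)]) (PF.cons (PF.leaf (nat_lit 3080772) (nat_lit 329335) (nat_lit 55464923) (nat_lit 9329730) [(nat_lit 329335), (nat_lit 1655487), (nat_lit 0)]) (PF.cons (PF.leaf (nat_lit 3320037) (nat_lit 345121) (nat_lit 55034957) (nat_lit 9351134) [(nat_lit
 345121), (nat_lit 1687357), (nat_lit 0)]) (PF.cons (PF.leaf (nat_lit 3574560) (nat_lit 359660) (nat_lit 54581019) (nat_lit 9370937) [(nat_lit 359660), (nat_lit 1718213), (nat_lit 0)]) (PF.cons (PF.leaf (nat_lit 3842622) (nat_lit 373129) (nat_lit 54106659) (nat_lit 9388680) [(nat_lit 373129), (nat_lit 1747826), (nat_lit 0)]) (PF.cons (PF.leaf (nat_lit 4122633) (nat_lit 385651) (nat_lit 53614837) (nat_lit 9404011) [(nat_lit 385651), (nat_lit 1776056), (nat_lit 0)]) (PF.cons (PF.leaf (nat_lit 4413295) (nat_lit 397319) (nat_lit 53108095)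 (nat_lit 9416661) [(nat_lit 397319), (nat_lit 1802817), (nat_lit 0)]) (PF.cons (PF.leaf (nat_lit 4713417) (nat_lit 408206) (nat_lit 52588665) (nat_lit 9426433) [(nat_lit 408206), (nat_lit 1828063), (nat_lit 0)]) (PF.cons (PF.leaf (nat_lit 5021975) (nat_lit 418368) (nat_lit 52058532) (nat_lit 9433188) [(nat_lit 418368), (nat_lit 1851775), (nat_lit 0)]) (PF.cons (PF.leaf (nat_lit 5337974) (nat_lit 427854) (nat_lit 51519481) (nat_lit 9436837) [(nat_lit 427854), (nat_lit 1873951), (nat_lit 0)]) (PF.cons (PF.leaf (nat_lit 5660511) (nat_lit 436704) (nat_lit 50973128) (nat_lit 9437331) [(nat_lit 436704), (nat_lit 1894604), (nat_lit 0)]) (PF.cons PF.nil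
 (PF.cons PF.nil PF.nil)))))))))))))) (PF.cons (PF.cons (PF.leaf (nat_lit 3422585) (nat_lit 1713462) (nat_lit 54311484) (nat_lit 9370403) [(nat_lit 0), (nat_lit 1713462), (nat_lit 0)]) (PF.cons (PF.leaf (nat_lit 3659775) (nat_lit 359470) (nat_lit 53882624) (nat_lit 9385153) [(nat_lit 359470), (nat_lit 1740782), (nat_lit 0)]) (PF.cons (PF.leaf (nat_lit 3913535) (nat_lit 373247) (nat_lit 53429270) (nat_lit 9398222) [(nat_lit 373247), (nat_lit 1767412), (nat_lit 0)]) (PF.cons (PF.leaf (nat_lit 4180857) (nat_lit 385917) (nat_lit 52955737) (nat_lit 9409193) [(nat_lit 385917), (nat_lit 1793064), (nat_lit 0)]) (PF.cons (PF.leaf (nat_lit 4459988) (nat_lit 397632) (nat_lit 52465402) (nat_lit 9417763) [(nat_lit 397632), (nat_lit 1817559), (nat_lit 0)]) (PF.cons (PF.leaf (nat_lit 4749475) (nat_lit 408498) (nat_lit 51961036) (nat_lit 9423710) [(nat_lit 408498), (nat_lit 1840787), (nat_lit 0)]) (PF.cons (PF.leaf (nat_lit 5048104) (nat_lit 418596) (nat_lit 51444986) (nat_lit 9426881)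 [(nat_lit 418596), (nat_lit 1862683), (nat_lit 0)]) (PF.cons (PF.leaf (nat_lit 5354732) (nat_lit 427989) (nat_lit 50919284) (nat_lit 9427174) [(nat_lit 427989), (nat_lit 1883215), (nat_lit 0)]) (PF.cons (PF.leaf
 (nat_lit 5668377) (nat_lit 436727) (nat_lit 50385721) (nat_lit 9424531) [(nat_lit 436727), (nat_lit 1902368), (nat_lit 0)]) (PF.cons (PF.leaf (nat_lit 5988150) (nat_lit 444855) (nat_lit 49845889) (nat_lit 9418930) [(nat_lit 444855), (nat_lit 1920148), (nat_lit 0)]) (PF.cons PF.nil (PF.cons PF.nil PF.nil)))))))))))) (PF.cons (PF.cons (PF.leaf (nat_lit 4252036) (nat_lit 1809458) (nat_lit 52270340) (nat_lit 9410096) [(nat_lit 0), (nat_lit 1809458), (nat_lit 0)]) (PF.cons (PF.leaf (nat_lit 4516165) (nat_lit 396695) (nat_lit 51802601) (nat_lit 9414817) [(nat_lit 396695), (nat_lit 1831566), (nat_lit 0)]) (PF.cons (PF.leaf (nat_lit 4792930) (nat_lit 407764) (nat_lit 51317937) (nat_lit 9417186) [(nat_lit 407764), (nat_lit 1852720), (nat_lit 0)]) (PF.cons (PF.leaf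 (nat_lit 5080061) (nat_lit 417963) (nat_lit 50819549) (nat_lit 9417022) [(nat_lit 417963), (nat_lit 1872784), (nat_lit 0)]) (PF.cons (PF.leaf (nat_lit 5376131) (nat_lit 427389) (nat_lit 50310020) (nat_lit 9414204) [(nat_lit 427389), (nat_lit 1891676), (nat_lit 0)]) (PF.cons (PF.leaf (nat_lit 5679972) (nat_lit 436116) (nat_lit 49791513) (nat_lit 9408662) [(nat_lit 436116), (nat_lit 1909352), (nat_lit 0)]) (PF.cons (PF.leaf
 (nat_lit 5990544) (nat_lit 444200) (nat_lit 49265877) (nat_lit 9400362) [(nat_lit 444200), (nat_lit 1925790), (nat_lit 0)]) (PF.cons (PF.leaf (nat_lit 6306929) (nat_lit 451689) (nat_lit 48734720) (nat_lit 9389305) [(nat_lit 451689), (nat_lit 1940987), (nat_lit 0)]) (PF.cons PF.nil (PF.cons PF.nil PF.nil)))))))))) (PF.cons (PF.cons (PF.leaf (nat_lit 5122343) (nat_lit 1882251) (nat_lit 50176339) (nat_lit 9403467) [(nat_lit 0), (nat_lit 1882251), (nat_lit 0)]) (PF.cons (PF.leaf (nat_lit 5405265) (nat_lit 425855) (nat_lit 49687290) (nat_lit 9397819)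 [(nat_lit 425855), (nat_lit 1899461), (nat_lit 0)]) (PF.cons (PF.leaf (nat_lit 5697776) (nat_lit 434722) (nat_lit 49187132) (nat_lit 9389643) [(nat_lit 434722), (nat_lit 1915648), (nat_lit 0)]) (PF.cons (PF.leaf (nat_lit 5997979) (nat_lit 442880) (nat_lit 48678268) (nat_lit 9378896) [(nat_lit 442880), (nat_lit 1930751), (nat_lit 0)]) (PF.cons (PF.leaf (nat_lit 6304757) (nat_lit 450396) (nat_lit 48162681) (nat_lit 9365566) [(nat_lit 450396), (nat_lit 1944744), (nat_lit 0)]) (PF.cons (PF.leaf (nat_lit 6617186) (nat_lit 457326) (nat_lit 47642047) (nat_lit 9349671) [(nat_lit 457326), (nat_lit 1957615), (nat_lit 0)]) (PF.cons (PF.leaf (nat_lit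
 6934394) (nat_lit 463712) (nat_lit 47117809) (nat_lit 9331248) [(nat_lit 463712), (nat_lit 1969369), (nat_lit 0)]) (PF.cons PF.nil PF.nil)))))))) (PF.cons (PF.cons (PF.leaf (nat_lit 6013893) (nat_lit 1935124) (nat_lit 48078824) (nat_lit 9354368) [(nat_lit 0), (nat_lit 1935124), (nat_lit 0)]) (PF.cons (PF.leaf (nat_lit 6309120) (nat_lit 448389) (nat_lit 47581844) (nat_lit 9339040) [(nat_lit 448389), (nat_lit 1947907), (nat_lit 0)]) (PF.cons (PF.leaf (nat_lit 6611441) (nat_lit 455423) (nat_lit 47078195) (nat_lit 9321291) [(nat_lit 455423), (nat_lit 1959695), (nat_lit 0)]) (PF.cons (PF.leaf (nat_lit 6919336) (nat_lit 461868) (nat_lit 46569689) (nat_lit 9301153) [(nat_lit 461868), (nat_lit 1970472), (nat_lit 0)]) (PF.cons (PF.leaf (nat_lit 7231894) (nat_lit 467776) (nat_lit 46057842) (nat_lit 9278679) [(nat_lit 467776), (nat_lit 1980236), (nat_lit 0)]) (PF.cons PF.nil PF.nil)))))) (PF.cons (PF.cons (PF.leaf (nat_lit 6911444) (nat_lit 1971057) (nat_lit 46013879) (nat_lit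 9268591) [(nat_lit 0), (nat_lit 1971057), (nat_lit 0)]) (PF.cons (PF.leaf (nat_lit 7213792) (nat_lit 465404) (nat_lit 45518937) (nat_lit 9244782) [(nat_lit 465404), (nat_lit 1979947), (nat_lit 0)]) (PF.cons (PF.leaf
 (nat_lit 7521268) (nat_lit 470901) (nat_lit 45020670) (nat_lit 9218805) [(nat_lit 470901), (nat_lit 1987922), (nat_lit 0)]) (PF.cons PF.nil PF.nil)))) (PF.cons (PF.cons (PF.leaf (nat_lit 7803423) (nat_lit 1992757) (nat_lit 44006979) (nat_lit 9152531) [(nat_lit 0), (nat_lit 1992757), (nat_lit 0)]) (PF.cons (PF.leaf (nat_lit 8108855) (nat_lit 477815) (nat_lit 43521282) (nat_lit 9121630) [(nat_lit 477815), (nat_lit 1998297), (nat_lit 0)]) PF.nil)) (PF.cons PF.nil (PF.cons PF.nil (PF.cons PF.nil PF.nil))))))))))) (PF.cons (PF.cons (PF.cons (PF.leaf (nat_lit 3748641) (nat_lit 6392182) (nat_lit 51411588) (nat_lit 9305042) [(nat_lit 0), (nat_lit 0), (nat_lit 6392182)]) (PF.cons (PF.leaf (nat_lit 3958398) (nat_lit 343933) (nat_lit 51048779) (nat_lit 9308595)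 [(nat_lit 343933), (nat_lit 0), (nat_lit 6407505)]) (PF.cons (PF.leaf (nat_lit 4188138) (nat_lit 359954) (nat_lit 50655743) (nat_lit 9310754) [(nat_lit 359954), (nat_lit 0), (nat_lit 6422406)]) (PF.cons (PF.leaf (nat_lit 4433631) (nat_lit 374188) (nat_lit 50238687) (nat_lit 9311182) [(nat_lit 374188), (nat_lit 0), (nat_lit 6436375)]) (PF.cons (PF.leaf (nat_lit 4692440) (nat_lit 386995) (nat_lit 49802145) (nat_lit 9309633) [(nat_lit
 386995), (nat_lit 0), (nat_lit 6449050)]) (PF.cons (PF.leaf (nat_lit 4962662) (nat_lit 398615) (nat_lit 49349635) (nat_lit 9305928) [(nat_lit 398615), (nat_lit 0), (nat_lit 6460169)]) (PF.cons (PF.leaf (nat_lit 5242768) (nat_lit 409219) (nat_lit 48884004) (nat_lit 9299944) [(nat_lit 409219), (nat_lit 0), (nat_lit 6469547)]) (PF.cons (PF.leaf (nat_lit 5531510) (nat_lit 418933) (nat_lit 48407625) (nat_lit 9291600) [(nat_lit 418933), (nat_lit 0), (nat_lit 6477054)]) (PF.cons (PF.leaf (nat_lit 5827703) (nat_lit 427854) (nat_lit 47922521) (nat_lit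 9280850) [(nat_lit 427854), (nat_lit 0), (nat_lit 6482604)]) (PF.cons (PF.leaf (nat_lit 6130384) (nat_lit 436060) (nat_lit 47430440) (nat_lit 9267678) [(nat_lit 436060), (nat_lit 0), (nat_lit 6486146)]) (PF.cons (PF.leaf (nat_lit 6438673) (nat_lit 443614) (nat_lit 46932914) (nat_lit 9252093) [(nat_lit 443614), (nat_lit 0), (nat_lit 6487659)]) (PF.cons PF.nil (PF.cons PF.nil (PF.cons PF.nil PF.nil)))))))))))))) (PF.cons (PF.cons (PF.leaf (nat_lit 4512648) (nat_lit 1801752) (nat_lit 49565023) (nat_lit 9298396) [(nat_lit 0), (nat_lit 1801752), (nat_lit 6443639)]) (PF.cons (PF.leaf (nat_lit 4753246) (nat_lit 383749) (nat_lit 49156199) (nat_lit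
 9294279) [(nat_lit 383749), (nat_lit 1821485), (nat_lit 6453099)]) (PF.cons (PF.leaf (nat_lit 5008582) (nat_lit 395962) (nat_lit 48727029) (nat_lit 9288150) [(nat_lit 395962), (nat_lit 1840399), (nat_lit 6461309)]) (PF.cons (PF.leaf (nat_lit 5275642) (nat_lit 406954) (nat_lit 48281722) (nat_lit 9279881) [(nat_lit 406954), (nat_lit 1858315), (nat_lit 6468028)]) (PF.cons (PF.leaf (nat_lit 5552678) (nat_lit 416923) (nat_lit 47823498) (nat_lit 9269389) [(nat_lit 416923), (nat_lit 1875137), (nat_lit 6473093)]) (PF.cons (PF.leaf (nat_lit 5838275) (nat_lit 426009) (nat_lit 47354932) (nat_lit 9256625) [(nat_lit 426009), (nat_lit 1890814), (nat_lit 6476393)]) (PF.cons (PF.leaf (nat_lit 6131193) (nat_lit 434317) (nat_lit 46878149) (nat_lit 9241572) [(nat_lit 434317), (nat_lit 1905326), (nat_lit 6477859)]) (PF.cons (PF.leaf (nat_lit 6430398) (nat_lit 441928) (nat_lit 46394945) (nat_lit 9224235) [(nat_lit 441928), (nat_lit 1918675), (nat_lit 6477453)]) (PF.cons (PF.leaf (nat_lit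 6735034) (nat_lit 448909) (nat_lit 45906860) (nat_lit 9204639) [(nat_lit 448909), (nat_lit 1930873), (nat_lit 6475166)]) (PF.cons PF.nil (PF.cons PF.nil (PF.cons PF.nil PF.nil)))))))))))) (PF.cons (PF.cons (PF.leaf
 (nat_lit 5322714) (nat_lit 1865217) (nat_lit 47657947) (nat_lit 9256260) [(nat_lit 0), (nat_lit 1865217), (nat_lit 6464169)]) (PF.cons (PF.leaf (nat_lit 5584634) (nat_lit 413714) (nat_lit 47223288) (nat_lit 9243967) [(nat_lit 413714), (nat_lit 1880452), (nat_lit 6466937)]) (PF.cons (PF.leaf (nat_lit 5857496) (nat_lit 423198) (nat_lit 46775251) (nat_lit 9229495) [(nat_lit 423198), (nat_lit 1894767), (nat_lit 6468136)]) (PF.cons (PF.leaf (nat_lit 6139075) (nat_lit 431778) (nat_lit 46316797) (nat_lit 9212832) [(nat_lit 431778), (nat_lit 1908087), (nat_lit 6467673)]) (PF.cons (PF.leaf (nat_lit 6428026) (nat_lit 439575) (nat_lit 45850269) (nat_lit 9193988) [(nat_lit 439575), (nat_lit 1920380), (nat_lit 6465493)]) (PF.cons (PF.leaf (nat_lit 6723229) (nat_lit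 446681) (nat_lit 45377580) (nat_lit 9172988) [(nat_lit 446681), (nat_lit 1931632), (nat_lit 6461571)]) (PF.cons (PF.leaf (nat_lit 7023724) (nat_lit 453166) (nat_lit 44900333) (nat_lit 9149873) [(nat_lit 453166), (nat_lit 1941850), (nat_lit 6455905)]) (PF.cons (PF.leaf (nat_lit 7328677) (nat_lit 459088) (nat_lit 44419889) (nat_lit 9124698) [(nat_lit 459088), (nat_lit 1951049), (nat_lit 6448510)]) (PF.cons PF.nil (PF.cons PF.nil
 PF.nil)))))))))) (PF.cons (PF.cons (PF.leaf (nat_lit 6158311) (nat_lit 1910399) (nat_lit 45740972) (nat_lit 9181150) [(nat_lit 0), (nat_lit 1910399), (nat_lit 6455490)]) (PF.cons (PF.leaf (nat_lit 6434438) (nat_lit 436340) (nat_lit 45294829) (nat_lit 9161116) [(nat_lit 436340), (nat_lit 1921609), (nat_lit 6451699)]) (PF.cons (PF.leaf (nat_lit 6718669) (nat_lit 443727) (nat_lit 44840336) (nat_lit 9138986) [(nat_lit 443727), (nat_lit 1931912), (nat_lit 6446297)]) (PF.cons (PF.leaf (nat_lit 7009235) (nat_lit 450412) (nat_lit 44379629) (nat_lit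 9114812) [(nat_lit 450412), (nat_lit 1941287), (nat_lit 6439270)]) (PF.cons (PF.leaf (nat_lit 7305144) (nat_lit 456477) (nat_lit 43914434) (nat_lit 9088652) [(nat_lit 456477), (nat_lit 1949730), (nat_lit 6430625)]) (PF.cons (PF.leaf (nat_lit 7605478) (nat_lit 461984) (nat_lit 43446184) (nat_lit 9060571) [(nat_lit 461984), (nat_lit 1957250), (nat_lit 6420382)]) (PF.cons PF.nil (PF.cons PF.nil PF.nil)))))))) (PF.cons (PF.cons (PF.leaf (nat_lit 7004112) (nat_lit 1940297) (nat_lit 43849259) (nat_lit 9077376) [(nat_lit 0), (nat_lit 1940297), (nat_lit 6420986)]) (PF.cons (PF.leaf (nat_lit 7289000) (nat_lit 453200) (nat_lit 43401905) (nat_lit 9050504)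
 [(nat_lit 453200), (nat_lit 1947988), (nat_lit 6411247)]) (PF.cons (PF.leaf (nat_lit 7579811) (nat_lit 458918) (nat_lit 42949862) (nat_lit 9021751) [(nat_lit 458918), (nat_lit 1954840), (nat_lit 6399998)]) (PF.cons (PF.leaf (nat_lit 7875118) (nat_lit 464074) (nat_lit 42494690) (nat_lit 8991197) [(nat_lit 464074), (nat_lit 1960857), (nat_lit 6387269)]) (PF.cons PF.nil (PF.cons PF.nil PF.nil)))))) (PF.cons (PF.cons (PF.leaf (nat_lit 7848653) (nat_lit 1957472) (nat_lit 42006947) (nat_lit 8949870) [(nat_lit 0), (nat_lit 1957472), (nat_lit 6364632)]) (PF.cons (PF.leaf (nat_lit 8138114) (nat_lit 465420) (nat_lit 41565662) (nat_lit 8917255) [(nat_lit 465420), (nat_lit 1962143), (nat_lit 6349757)]) (PF.cons (PF.leaf (nat_lit 8431812) (nat_lit 469782) (nat_lit 41122347) (nat_lit 8883028) [(nat_lit 469782), (nat_lit 1966065), (nat_lit 6333544)]) (PF.cons PF.nil PF.nil)))) (PF.cons (PF.cons (PF.leaf (nat_lit 8683475) (nat_lit 1964138) (nat_lit 40230033) (nat_lit 8803532) [(nat_lit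 0), (nat_lit 1964138), (nat_lit 6290415)]) (PF.cons PF.nil PF.nil)) (PF.cons PF.nil (PF.cons PF.nil (PF.cons PF.nil PF.nil)))))))))) (PF.cons (PF.cons (PF.cons (PF.leaf (nat_lit 5509093) (nat_lit 6368740) (nat_lit
 45287667) (nat_lit 9083664) [(nat_lit 0), (nat_lit 0), (nat_lit 6368740)]) (PF.cons (PF.leaf (nat_lit 5747959) (nat_lit 396752) (nat_lit 44910047) (nat_lit 9067592) [(nat_lit 396752), (nat_lit 0), (nat_lit 6367210)]) (PF.cons (PF.leaf (nat_lit 6000052) (nat_lit 407613) (nat_lit 44515456) (nat_lit 9049453) [(nat_lit 407613), (nat_lit 0), (nat_lit 6364337)]) (PF.cons (PF.leaf (nat_lit 6262447) (nat_lit 417209) (nat_lit 44107801) (nat_lit 9029299) [(nat_lit 417209), (nat_lit 0), (nat_lit 6360041)]) (PF.cons (PF.leaf (nat_lit 6533405) (nat_lit 425764) (nat_lit 43690018) (nat_lit 9007180) [(nat_lit 425764), (nat_lit 0), (nat_lit 6354277)]) (PF.cons (PF.leaf (nat_lit 6811547) (nat_lit 433439) (nat_lit 43264418) (nat_lit 8983147) [(nat_lit 433439), (nat_lit 0),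 (nat_lit 6347023)]) (PF.cons (PF.leaf (nat_lit 7095742) (nat_lit 440354) (nat_lit 42832873) (nat_lit 8957259) [(nat_lit 440354), (nat_lit 0), (nat_lit 6338277)]) (PF.cons (PF.leaf (nat_lit 7385024) (nat_lit 446599) (nat_lit 42396936) (nat_lit 8929575) [(nat_lit 446599), (nat_lit 0), (nat_lit 6328052)]) (PF.cons (PF.leaf (nat_lit 7678561) (nat_lit 452247) (nat_lit 41957915) (nat_lit 8900165) [(nat_lit 452247), (nat_lit 0), (nat_lit
 6316374)]) (PF.cons PF.nil PF.nil)))))))))) (PF.cons (PF.cons (PF.leaf (nat_lit 6289440) (nat_lit 1878627) (nat_lit 43551801) (nat_lit 8991927) [(nat_lit 0), (nat_lit 1878627), (nat_lit 6343228)]) (PF.cons (PF.leaf (nat_lit 6545617) (nat_lit 421108) (nat_lit 43156680) (nat_lit 8969356) [(nat_lit 421108), (nat_lit 1888945), (nat_lit 6336360)]) (PF.cons (PF.leaf (nat_lit 6811435) (nat_lit 429315) (nat_lit 42750778) (nat_lit 8944836) [(nat_lit 429315), (nat_lit 1898405), (nat_lit 6328081)]) (PF.cons (PF.leaf (nat_lit 7084741) (nat_lit 436618)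 (nat_lit 42336756) (nat_lit 8918454) [(nat_lit 436618), (nat_lit 1906977), (nat_lit 6318385)]) (PF.cons (PF.leaf (nat_lit 7364250) (nat_lit 443152) (nat_lit 41916688) (nat_lit 8890292) [(nat_lit 443152), (nat_lit 1914654), (nat_lit 6307284)]) (PF.cons (PF.leaf (nat_lit 7648911) (nat_lit 449019) (nat_lit 41492238) (nat_lit 8860428) [(nat_lit 449019), (nat_lit 1921446), (nat_lit 6294800)]) (PF.cons (PF.leaf (nat_lit 7937877) (nat_lit 454297) (nat_lit 41064780) (nat_lit 8828940) [(nat_lit 454297), (nat_lit 1927372), (nat_lit 6280966)]) (PF.cons PF.nil PF.nil)))))))) (PF.cons (PF.cons (PF.leaf (nat_lit 7085669) (nat_lit 1904771) (nat_lit 41828320)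
 (nat_lit 8877213) [(nat_lit 0), (nat_lit 1904771), (nat_lit 6296868)]) (PF.cons (PF.leaf (nat_lit 7352893) (nat_lit 438862) (nat_lit 41427344) (nat_lit 8848900) [(nat_lit 438862), (nat_lit 1911780), (nat_lit 6285071)]) (PF.cons (PF.leaf (nat_lit 7627167) (nat_lit 445105) (nat_lit 41019881) (nat_lit 8818854) [(nat_lit 445105), (nat_lit 1917993), (nat_lit 6271938)]) (PF.cons (PF.leaf (nat_lit 7906810) (nat_lit 450669) (nat_lit 40607800) (nat_lit 8787175) [(nat_lit 450669), (nat_lit 1923411), (nat_lit 6257502)]) (PF.cons (PF.leaf (nat_lit 8190850) (nat_lit 455640) (nat_lit 40192594) (nat_lit 8753957) [(nat_lit 455640), (nat_lit 1928046), (nat_lit 6241803)]) (PF.cons PF.nil PF.nil)))))) (PF.cons (PF.cons (PF.leaf (nat_lit 7885558) (nat_lit 1919121) (nat_lit 40142523) (nat_lit 8743482) [(nat_lit 0), (nat_lit 1919121), (nat_lit 6232721)]) (PF.cons (PF.leaf (nat_lit 8159228) (nat_lit 451601) (nat_lit 39743670) (nat_lit 8710344) [(nat_lit 451601), (nat_lit 1923314), (nat_lit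 6216626)]) (PF.cons (PF.leaf (nat_lit 8437983) (nat_lit 456328) (nat_lit 39341358) (nat_lit 8675727) [(nat_lit 456328), (nat_lit 1926797), (nat_lit 6199338)]) (PF.cons (PF.leaf (nat_lit 8720504) (nat_lit 460525)
 (nat_lit 38936928) (nat_lit 8639734) [(nat_lit 460525), (nat_lit 1929585), (nat_lit 6180907)]) PF.nil)))) (PF.cons (PF.cons (PF.leaf (nat_lit 8680252) (nat_lit 1923830) (nat_lit 38510847) (nat_lit 8594701) [(nat_lit 0), (nat_lit 1923830), (nat_lit 6153970)]) (PF.cons (PF.leaf (nat_lit 8956901) (nat_lit 460406) (nat_lit 38119559) (nat_lit 8557678) [(nat_lit 460406), (nat_lit 1925654), (nat_lit 6134275)]) PF.nil)) (PF.cons PF.nil (PF.cons PF.nil (PF.cons PF.nil PF.nil)))))))) (PF.cons (PF.cons (PF.cons (PF.leaf (nat_lit 7162779) (nat_lit 6166794) (nat_lit 39936667) (nat_lit 8671763) [(nat_lit 0), (nat_lit 0), (nat_lit 6166794)]) (PF.cons (PF.leaf (nat_lit 7411453) (nat_lit 422141) (nat_lit 39581415) (nat_lit 8643344) [(nat_lit 422141), (nat_lit 0), (nat_lit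 6153970)]) (PF.cons (PF.leaf (nat_lit 7668781) (nat_lit 429318) (nat_lit 39217300) (nat_lit 8613202) [(nat_lit 429318), (nat_lit 0), (nat_lit 6139891)]) (PF.cons (PF.leaf (nat_lit 7932656) (nat_lit 435611) (nat_lit 38846680) (nat_lit 8581479) [(nat_lit 435611), (nat_lit 0), (nat_lit 6124606)]) (PF.cons (PF.leaf (nat_lit 8201853) (nat_lit 441161) (nat_lit 38471372) (nat_lit 8548297) [(nat_lit 441161), (nat_lit 0), (nat_lit
 6108165)]) (PF.cons (PF.leaf (nat_lit 8475442) (nat_lit 446076) (nat_lit 38092819) (nat_lit 8513759) [(nat_lit 446076), (nat_lit 0), (nat_lit 6090617)]) (PF.cons PF.nil (PF.cons PF.nil PF.nil)))))))) (PF.cons (PF.cons (PF.leaf (nat_lit 7919285) (nat_lit 1878331) (nat_lit 38400248) (nat_lit 8535885) [(nat_lit 0), (nat_lit 1878331), (nat_lit 6098115)]) (PF.cons (PF.leaf (nat_lit 8176841) (nat_lit 436246) (nat_lit 38042286) (nat_lit 8503191) [(nat_lit 436246), (nat_lit 1882395), (nat_lit 6081564)]) (PF.cons (PF.leaf (nat_lit 8440625) (nat_lit 441598)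 (nat_lit 37679119) (nat_lit 8469050) [(nat_lit 441598), (nat_lit 1885762), (nat_lit 6063894)]) (PF.cons (PF.leaf (nat_lit 8709075) (nat_lit 446299) (nat_lit 37312378) (nat_lit 8433590) [(nat_lit 446299), (nat_lit 1888444), (nat_lit 6045167)]) (PF.cons (PF.leaf (nat_lit 8981236) (nat_lit 450439) (nat_lit 36943350) (nat_lit 8396920) [(nat_lit 450439), (nat_lit 1890464), (nat_lit 6025440)]) (PF.cons PF.nil PF.nil)))))) (PF.cons (PF.cons (PF.leaf (nat_lit 8675624) (nat_lit 1882178) (nat_lit 36905206) (nat_lit 8387587) [(nat_lit 0), (nat_lit 1882178), (nat_lit 6017220)]) (PF.cons (PF.leaf (nat_lit 8938059) (nat_lit 445968) (nat_lit 36550835)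
 (nat_lit 8351470) [(nat_lit 445968), (nat_lit 1883966), (nat_lit 5997534)]) (PF.cons (PF.leaf (nat_lit 9204980) (nat_lit 449942) (nat_lit 36193787) (nat_lit 8314170) [(nat_lit 449942), (nat_lit 1885150), (nat_lit 5976889)]) (PF.cons PF.nil PF.nil)))) (PF.cons (PF.cons (PF.leaf (nat_lit 9424742) (nat_lit 1878640) (nat_lit 35463034) (nat_lit 8229995) [(nat_lit 0), (nat_lit 1878640), (nat_lit 5926620)]) (PF.cons PF.nil PF.nil)) (PF.cons PF.nil (PF.cons PF.nil PF.nil)))))) (PF.cons (PF.cons (PF.cons (PF.leaf (nat_lit 8673193) (nat_lit 5881110) (nat_lit 35401156) (nat_lit 8183215) [(nat_lit 0), (nat_lit 0), (nat_lit 5881110)]) (PF.cons (PF.leaf (nat_lit 8920959) (nat_lit 430364) (nat_lit 35082252) (nat_lit 8148587) [(nat_lit 430364), (nat_lit 0), (nat_lit 5861902)]) (PF.cons (PF.leaf (nat_lit 9174390) (nat_lit 435014) (nat_lit 34759052) (nat_lit 8112738) [(nat_lit 435014), (nat_lit 0), (nat_lit 5841748)]) (PF.cons (PF.leaf (nat_lit 9431897) (nat_lit 439044) (nat_lit 34432979)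 (nat_lit 8075805) [(nat_lit 439044), (nat_lit 0), (nat_lit 5820723)]) PF.nil)))) (PF.cons (PF.cons (PF.leaf (nat_lit 9389277) (nat_lit 1836210) (nat_lit 34076323) (nat_lit 8029790) [(nat_lit 0), (nat_lit 1836210),
 (nat_lit 5791622)]) (PF.cons (PF.leaf (nat_lit 9640888) (nat_lit 437859) (nat_lit 33761486) (nat_lit 7992712) [(nat_lit 437859), (nat_lit 1836346), (nat_lit 5770101)]) PF.nil)) (PF.cons PF.nil (PF.cons PF.nil PF.nil)))) (PF.cons (PF.cons (PF.cons (PF.leaf (nat_lit 10038932) (nat_lit 5565995) (nat_lit 31597525) (nat_lit 7681311) [(nat_lit 0), (nat_lit 0), (nat_lit 5565995)]) (PF.cons PF.nil PF.nil)) (PF.cons PF.nil PF.nil)) (PF.cons PF.nil (PF.cons PF.nil (PF.cons PF.nil (PF.cons PF.nil PF.nil))))))))))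

def p13_17_1_0 : pfC (piC [(nat_lit 40745421), (nat_lit 25257288), (nat_lit 16296408)] (nat_lit 11147418)) p13_17_1 (nat_lit 3) (nat_lit 0) (nat_lit 1) = true := by decide +kernel
def p13_17_1_1 : pfC (piC [(nat_lit 40745421), (nat_lit 25257288), (nat_lit 16296408)] (nat_lit 11147418)) p13_17_1 (nat_lit 3) (nat_lit 1) (nat_lit 2) = true := by decide +kernel
def p13_17_1_2 : pfC (piC [(nat_lit 40745421), (nat_lit 25257288), (nat_lit 16296408)] (nat_lit 11147418)) p13_17_1 (nat_lit 3) (nat_lit 2) (nat_lit 3) = true := by decide +kernel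
def p13_17_1_3 : pfC (piC [(nat_lit 40745421), (nat_lit 25257288), (nat_lit 16296408)] (nat_lit 11147418)) p13_17_1 (nat_lit 3) (nat_lit 3) (nat_lit 4) = true := by decide +kernel
def p13_17_1_4 : pfC (piC [(nat_lit 40745421), (nat_lit 25257288), (nat_lit 16296408)] (nat_lit 11147418)) p13_17_1 (nat_lit 3) (nat_lit 4) (nat_lit 5) = true := by decide +kernel
def p13_17_1_5 : pfC (piC [(nat_lit 40745421), (nat_lit 25257288), (nat_lit 16296408)] (nat_lit 11147418)) p13_17_1 (nat_lit 3) (nat_lit 5) (nat_lit 6) = true := by decide +kernel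
def p13_17_1_6 : pfC (piC [(nat_lit 40745421), (nat_lit 25257288), (nat_lit 16296408)] (nat_lit 11147418)) p13_17_1 (nat_lit 3) (nat_lit 6) (nat_lit 7) = true := by decide +kernel
def p13_17_1_7 : pfC (piC [(nat_lit 40745421), (nat_lit 25257288), (nat_lit 16296408)] (nat_lit 11147418)) p13_17_1 (nat_lit 3) (nat_lit 7) (nat_lit 8) = true := by decide +kernel
def p13_17_1_8 : pfC (piC [(nat_lit 40745421), (nat_lit 25257288), (nat_lit 16296408)] (nat_lit 11147418)) p13_17_1 (nat_lit 3) (nat_lit 8) (nat_lit 9) = true := by decide +kernel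
def p13_17_1_9 : pfC (piC [(nat_lit 40745421), (nat_lit 25257288), (nat_lit 16296408)] (nat_lit 11147418)) p13_17_1 (nat_lit 3) (nat_lit 9) (nat_lit 10) = true := by decide +kernel
def p13_17_1_10 : pfC (piC [(nat_lit 40745421), (nat_lit 25257288), (nat_lit 16296408)] (nat_lit 11147418)) p13_17_1 (nat_lit 3) (nat_lit 10) (nat_lit 11) = true := by decide +kernel
def p13_17_1_11 : pfC (piC [(nat_lit 40745421), (nat_lit 25257288), (nat_lit 16296408)] (nat_lit 11147418)) p13_17_1 (nat_lit 3) (nat_lit 11) (nat_lit 12) = true := by decide +kernel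
def p13_17_1_12 : pfC (piC [(nat_lit 40745421), (nat_lit 25257288), (nat_lit 16296408)] (nat_lit 11147418)) p13_17_1 (nat_lit 3) (nat_lit 12) (nat_lit 13) = true := by decide +kernel
def p13_17_1_13 : pfC (piC [(nat_lit 40745421), (nat_lit 25257288), (nat_lit 16296408)] (nat_lit 11147418)) p13_17_1 (nat_lit 3) (nat_lit 13) (nat_lit 14) = true := by decide +kernel
def p13_17_1_14 : pfC (piC [(nat_lit 40745421), (nat_lit 25257288), (nat_lit 16296408)] (nat_lit 11147418)) p13_17_1 (nat_lit 3) (nat_lit 14) (nat_lit 15) = true := by decide +kernel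
def p13_17_1_15 : pfC (piC [(nat_lit 40745421), (nat_lit 25257288), (nat_lit 16296408)] (nat_lit 11147418)) p13_17_1 (nat_lit 3) (nat_lit 15) (nat_lit 16) = true := by decide +kernel
def p13_17_1_16 : pfC (piC [(nat_lit 40745421), (nat_lit 25257288), (nat_lit 16296408)] (nat_lit 11147418)) p13_17_1 (nat_lit 3) (nat_lit 16) (nat_lit 17) = true := by decide +kernel
def p13_17_1_17 : pfC (piC [(nat_lit 40745421), (nat_lit 25257288), (nat_lit 16296408)] (nat_lit 11147418)) p13_17_1 (nat_lit 3) (nat_lit 17) (nat_lit 18) = true := by decide +kernel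
def p13_17_1_18 : pfC (piC [(nat_lit 40745421), (nat_lit 25257288), (nat_lit 16296408)] (nat_lit 11147418)) p13_17_1 (nat_lit 3) (nat_lit 18) (nat_lit 19) = true := by decide +kernel
def p13_17_1_19 : pfC (piC [(nat_lit 40745421), (nat_lit 25257288), (nat_lit 16296408)] (nat_lit 11147418)) p13_17_1 (nat_lit 3) (nat_lit 19) (nat_lit 20) = true := by decide +kernel
def p13_17_1_20 : pfC (piC [(nat_lit 40745421), (nat_lit 25257288), (nat_lit 16296408)] (nat_lit 11147418)) p13_17_1 (nat_lit 3) (nat_lit 20) (nat_lit 21) = true := by decide +kernel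
def p13_17_1_21 : pfC (piC [(nat_lit 40745421), (nat_lit 25257288), (nat_lit 16296408)] (nat_lit 11147418)) p13_17_1 (nat_lit 3) (nat_lit 21) (nat_lit 22) = true := by decide +kernel
def p13_17_1_22 : pfC (piC [(nat_lit 40745421), (nat_lit 25257288), (nat_lit 16296408)] (nat_lit 11147418)) p13_17_1 (nat_lit 3) (nat_lit 22) (nat_lit 23) = true := by decide +kernel
def p13_17_1_23 : pfC (piC [(nat_lit 40745421), (nat_lit 25257288), (nat_lit 16296408)] (nat_lit 11147418)) p13_17_1 (nat_lit 3) (nat_lit 23) (nat_lit 24) = true := by decide +kernel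
def p13_17_1_24 : pfC (piC [(nat_lit 40745421), (nat_lit 25257288), (nat_lit 16296408)] (nat_lit 11147418)) p13_17_1 (nat_lit 3) (nat_lit 24) (nat_lit 25) = true := by decide +kernel
def p13_17_1_25 : pfC (piC [(nat_lit 40745421), (nat_lit 25257288), (nat_lit 16296408)] (nat_lit 11147418)) p13_17_1 (nat_lit 3) (nat_lit 25) (nat_lit 26) = true := by decide +kernel
def p13_17_1_26 : pfC (piC [(nat_lit 40745421), (nat_lit 25257288), (nat_lit 16296408)] (nat_lit 11147418)) p13_17_1 (nat_lit 3) (nat_lit 26) (nat_lit 27) = true := by decide +kernel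
def p13_17_1_27 : pfC (piC [(nat_lit 40745421), (nat_lit 25257288), (nat_lit 16296408)] (nat_lit 11147418)) p13_17_1 (nat_lit 3) (nat_lit 27) (nat_lit 28) = true := by decide +kernel
def p13_17_1_28 : pfC (piC [(nat_lit 40745421), (nat_lit 25257288), (nat_lit 16296408)] (nat_lit 11147418)) p13_17_1 (nat_lit 3) (nat_lit 28) (nat_lit 29) = true := by decide +kernel
def p13_17_1_29 : pfC (piC [(nat_lit 40745421), (nat_lit 25257288), (nat_lit 16296408)] (nat_lit 11147418)) p13_17_1 (nat_lit 3) (nat_lit 29) (nat_lit 30) = true := by decide +kernel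
def p13_17_1_30 : pfC (piC [(nat_lit 40745421), (nat_lit 25257288), (nat_lit 16296408)] (nat_lit 11147418)) p13_17_1 (nat_lit 3) (nat_lit 30) (nat_lit 31) = true := by decide +kernel
def p13_17_1_31 : pfC (piC [(nat_lit 40745421), (nat_lit 25257288), (nat_lit 16296408)] (nat_lit 11147418)) p13_17_1 (nat_lit 3) (nat_lit 31) (nat_lit 32) = true := by decide +kernel
def p13_17_1_32 : pfC (piC [(nat_lit 40745421), (nat_lit 25257288), (nat_lit 16296408)] (nat_lit 11147418)) p13_17_1 (nat_lit 3) (nat_lit 32) (nat_lit 33) = true := by decide +kernel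
def p13_17_1_33 : pfC (piC [(nat_lit 40745421), (nat_lit 25257288), (nat_lit 16296408)] (nat_lit 11147418)) p13_17_1 (nat_lit 3) (nat_lit 33) (nat_lit 34) = true := by decide +kernel
def p13_17_1_34 : pfC (piC [(nat_lit 40745421), (nat_lit 25257288), (nat_lit 16296408)] (nat_lit 11147418)) p13_17_1 (nat_lit 3) (nat_lit 34) (nat_lit 35) = true := by decide +kernel
def p13_17_1_35 : pfC (piC [(nat_lit 40745421), (nat_lit 25257288), (nat_lit 16296408)] (nat_lit 11147418)) p13_17_1 (nat_lit 3) (nat_lit 35) (nat_lit 36) = true := by decide +kernel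
def p13_17_1_36 : pfC (piC [(nat_lit 40745421), (nat_lit 25257288), (nat_lit 16296408)] (nat_lit 11147418)) p13_17_1 (nat_lit 3) (nat_lit 36) (nat_lit 37) = true := by decide +kernel
def p13_17_1_37 : pfC (piC [(nat_lit 40745421), (nat_lit 25257288), (nat_lit 16296408)] (nat_lit 11147418)) p13_17_1 (nat_lit 3) (nat_lit 37) (nat_lit 38) = true := by decide +kernel
def p13_17_1_38 : pfC (piC [(nat_lit 40745421), (nat_lit 25257288), (nat_lit 16296408)] (nat_lit 11147418)) p13_17_1 (nat_lit 3) (nat_lit 38) (nat_lit 39) = true := by decide +kernel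
def p13_17_1_39 : pfC (piC [(nat_lit 40745421), (nat_lit 25257288), (nat_lit 16296408)] (nat_lit 11147418)) p13_17_1 (nat_lit 3) (nat_lit 39) (nat_lit 40) = true := by decide +kernel
def p13_17_1_40 : pfC (piC [(nat_lit 40745421), (nat_lit 25257288), (nat_lit 16296408)] (nat_lit 11147418)) p13_17_1 (nat_lit 3) (nat_lit 40) (nat_lit 41) = true := by decide +kernel
def p13_17_1_41 : pfC (piC [(nat_lit 40745421), (nat_lit 25257288), (nat_lit 16296408)] (nat_lit 11147418)) p13_17_1 (nat_lit 3) (nat_lit 41) (nat_lit 42) = true := by decide +kernel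
def p13_17_1_42 : pfC (piC [(nat_lit 40745421), (nat_lit 25257288), (nat_lit 16296408)] (nat_lit 11147418)) p13_17_1 (nat_lit 3) (nat_lit 42) (nat_lit 43) = true := by decide +kernel
def p13_17_1_43 : pfC (piC [(nat_lit 40745421), (nat_lit 25257288), (nat_lit 16296408)] (nat_lit 11147418)) p13_17_1 (nat_lit 3) (nat_lit 43) (nat_lit 44) = true := by decide +kernel
def p13_17_1_44 : pfC (piC [(nat_lit 40745421), (nat_lit 25257288), (nat_lit 16296408)] (nat_lit 11147418)) p13_17_1 (nat_lit 3) (nat_lit 44) (nat_lit 45) = true := by decide +kernel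
def p13_17_1_45 : pfC (piC [(nat_lit 40745421), (nat_lit 25257288), (nat_lit 16296408)] (nat_lit 11147418)) p13_17_1 (nat_lit 3) (nat_lit 45) (nat_lit 46) = true := by decide +kernel
def p13_17_1_46 : pfC (piC [(nat_lit 40745421), (nat_lit 25257288), (nat_lit 16296408)] (nat_lit 11147418)) p13_17_1 (nat_lit 3) (nat_lit 46) (nat_lit 47) = true := by decide +kernel
def p13_17_1_47 : pfC (piC [(nat_lit 40745421), (nat_lit 25257288), (nat_lit 16296408)] (nat_lit 11147418)) p13_17_1 (nat_lit 3) (nat_lit 47) (nat_lit 48) = true := by decide +kernel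
def p13_17_1_48 : pfC (piC [(nat_lit 40745421), (nat_lit 25257288), (nat_lit 16296408)] (nat_lit 11147418)) p13_17_1 (nat_lit 3) (nat_lit 48) (nat_lit 49) = true := by decide +kernel
def p13_17_1_49 : pfC (piC [(nat_lit 40745421), (nat_lit 25257288), (nat_lit 16296408)] (nat_lit 11147418)) p13_17_1 (nat_lit 3) (nat_lit 49) (nat_lit 50) = true := by decide +kernel
def p13_17_1_50 : pfC (piC [(nat_lit 40745421), (nat_lit 25257288), (nat_lit 16296408)] (nat_lit 11147418)) p13_17_1 (nat_lit 3) (nat_lit 50) (nat_lit 51) = true := by decide +kernel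
def p13_17_1_51 : pfC (piC [(nat_lit 40745421), (nat_lit 25257288), (nat_lit 16296408)] (nat_lit 11147418)) p13_17_1 (nat_lit 3) (nat_lit 51) (nat_lit 52) = true := by decide +kernel
def p13_17_1_52 : pfC (piC [(nat_lit 40745421), (nat_lit 25257288), (nat_lit 16296408)] (nat_lit 11147418)) p13_17_1 (nat_lit 3) (nat_lit 52) (nat_lit 53) = true := by decide +kernel
def p13_17_1_53 : pfC (piC [(nat_lit 40745421), (nat_lit 25257288), (nat_lit 16296408)] (nat_lit 11147418)) p13_17_1 (nat_lit 3) (nat_lit 53) (nat_lit 54) = true := by decide +kernel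
def p13_17_1_54 : pfC (piC [(nat_lit 40745421), (nat_lit 25257288), (nat_lit 16296408)] (nat_lit 11147418)) p13_17_1 (nat_lit 3) (nat_lit 54) (nat_lit 55) = true := by decide +kernel
def p13_17_1_55 : pfC (piC [(nat_lit 40745421), (nat_lit 25257288), (nat_lit 16296408)] (nat_lit 11147418)) p13_17_1 (nat_lit 3) (nat_lit 55) (nat_lit 56) = true := by decide +kernel
def p13_17_1_56 : pfC (piC [(nat_lit 40745421), (nat_lit 25257288), (nat_lit 16296408)] (nat_lit 11147418)) p13_17_1 (nat_lit 3) (nat_lit 56) (nat_lit 57) = true := by decide +kernel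
def p13_17_1_57 : pfC (piC [(nat_lit 40745421), (nat_lit 25257288), (nat_lit 16296408)] (nat_lit 11147418)) p13_17_1 (nat_lit 3) (nat_lit 57) (nat_lit 58) = true := by decide +kernel
def p13_17_1_58 : pfC (piC [(nat_lit 40745421), (nat_lit 25257288), (nat_lit 16296408)] (nat_lit 11147418)) p13_17_1 (nat_lit 3) (nat_lit 58) (nat_lit 59) = true := by decide +kernel
def p13_17_1_59 : pfC (piC [(nat_lit 40745421), (nat_lit 25257288), (nat_lit 16296408)] (nat_lit 11147418)) p13_17_1 (nat_lit 3) (nat_lit 59) (nat_lit 60) = true := by decide +kernel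
def p13_17_1_60 : pfC (piC [(nat_lit 40745421), (nat_lit 25257288), (nat_lit 16296408)] (nat_lit 11147418)) p13_17_1 (nat_lit 3) (nat_lit 60) (nat_lit 61) = true := by decide +kernel
def p13_17_1_61 : pfC (piC [(nat_lit 40745421), (nat_lit 25257288), (nat_lit 16296408)] (nat_lit 11147418)) p13_17_1 (nat_lit 3) (nat_lit 61) (nat_lit 62) = true := by decide +kernel
def p13_17_1_62 : pfC (piC [(nat_lit 40745421), (nat_lit 25257288), (nat_lit 16296408)] (nat_lit 11147418)) p13_17_1 (nat_lit 3) (nat_lit 62) (nat_lit 63) = true := by decide +kernel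
def p13_17_1_63 : pfC (piC [(nat_lit 40745421), (nat_lit 25257288), (nat_lit 16296408)] (nat_lit 11147418)) p13_17_1 (nat_lit 3) (nat_lit 63) (nat_lit 64) = true := by decide +kernel
def p13_17_1_64 : pfC (piC [(nat_lit 40745421), (nat_lit 25257288), (nat_lit 16296408)] (nat_lit 11147418)) p13_17_1 (nat_lit 3) (nat_lit 64) (nat_lit 65) = true := by decide +kernel
def p13_17_1_65 : pfC (piC [(nat_lit 40745421), (nat_lit 25257288), (nat_lit 16296408)] (nat_lit 11147418)) p13_17_1 (nat_lit 3) (nat_lit 65) (nat_lit 66) = true := by decide +kernel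
def p13_17_1_66 : pfC (piC [(nat_lit 40745421), (nat_lit 25257288), (nat_lit 16296408)] (nat_lit 11147418)) p13_17_1 (nat_lit 3) (nat_lit 66) (nat_lit 67) = true := by decide +kernel
def p13_17_1_67 : pfC (piC [(nat_lit 40745421), (nat_lit 25257288), (nat_lit 16296408)] (nat_lit 11147418)) p13_17_1 (nat_lit 3) (nat_lit 67) (nat_lit 68) = true := by decide +kernel
def p13_17_1_68 : pfC (piC [(nat_lit 40745421), (nat_lit 25257288), (nat_lit 16296408)] (nat_lit 11147418)) p13_17_1 (nat_lit 3) (nat_lit 68) (nat_lit 69) = true := by decide +kernel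
def p13_17_1_69 : pfC (piC [(nat_lit 40745421), (nat_lit 25257288), (nat_lit 16296408)] (nat_lit 11147418)) p13_17_1 (nat_lit 3) (nat_lit 69) (nat_lit 70) = true := by decide +kernel
def p13_17_1_70 : pfC (piC [(nat_lit 40745421), (nat_lit 25257288), (nat_lit 16296408)] (nat_lit 11147418)) p13_17_1 (nat_lit 3) (nat_lit 70) (nat_lit 71) = true := by decide +kernel
def p13_17_1_71 : pfC (piC [(nat_lit 40745421), (nat_lit 25257288), (nat_lit 16296408)] (nat_lit 11147418)) p13_17_1 (nat_lit 3) (nat_lit 71) (nat_lit 72) = true := by decide +kernel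
def p13_17_1_72 : pfC (piC [(nat_lit 40745421), (nat_lit 25257288), (nat_lit 16296408)] (nat_lit 11147418)) p13_17_1 (nat_lit 3) (nat_lit 72) (nat_lit 73) = true := by decide +kernel
def p13_17_1_73 : pfC (piC [(nat_lit 40745421), (nat_lit 25257288), (nat_lit 16296408)] (nat_lit 11147418)) p13_17_1 (nat_lit 3) (nat_lit 73) (nat_lit 74) = true := by decide +kernel
def p13_17_1_74 : pfC (piC [(nat_lit 40745421), (nat_lit 25257288), (nat_lit 16296408)] (nat_lit 11147418)) p13_17_1 (nat_lit 3) (nat_lit 74) (nat_lit 75) = true := by decide +kernel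
def p13_17_1_75 : pfC (piC [(nat_lit 40745421), (nat_lit 25257288), (nat_lit 16296408)] (nat_lit 11147418)) p13_17_1 (nat_lit 3) (nat_lit 75) (nat_lit 76) = true := by decide +kernel
def p13_17_1_76 : pfC (piC [(nat_lit 40745421), (nat_lit 25257288), (nat_lit 16296408)] (nat_lit 11147418)) p13_17_1 (nat_lit 3) (nat_lit 76) (nat_lit 77) = true := by decide +kernel
def p13_17_1_77 : pfC (piC [(nat_lit 40745421), (nat_lit 25257288), (nat_lit 16296408)] (nat_lit 11147418)) p13_17_1 (nat_lit 3) (nat_lit 77) (nat_lit 78) = true := by decide +kernel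
def p13_17_1_78 : pfC (piC [(nat_lit 40745421), (nat_lit 25257288), (nat_lit 16296408)] (nat_lit 11147418)) p13_17_1 (nat_lit 3) (nat_lit 78) (nat_lit 79) = true := by decide +kernel
def p13_17_1_79 : pfC (piC [(nat_lit 40745421), (nat_lit 25257288), (nat_lit 16296408)] (nat_lit 11147418)) p13_17_1 (nat_lit 3) (nat_lit 79) (nat_lit 80) = true := by decide +kernel
def p13_17_1_80 : pfC (piC [(nat_lit 40745421), (nat_lit 25257288), (nat_lit 16296408)] (nat_lit 11147418)) p13_17_1 (nat_lit 3) (nat_lit 80) (nat_lit 81) = true := by decide +kernel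
def p13_17_1_81 : pfC (piC [(nat_lit 40745421), (nat_lit 25257288), (nat_lit 16296408)] (nat_lit 11147418)) p13_17_1 (nat_lit 3) (nat_lit 81) (nat_lit 82) = true := by decide +kernel
def p13_17_1_82 : pfC (piC [(nat_lit 40745421), (nat_lit 25257288), (nat_lit 16296408)] (nat_lit 11147418)) p13_17_1 (nat_lit 3) (nat_lit 82) (nat_lit 83) = true := by decide +kernel
def p13_17_1_83 : pfC (piC [(nat_lit 40745421), (nat_lit 25257288), (nat_lit 16296408)] (nat_lit 11147418)) p13_17_1 (nat_lit 3) (nat_lit 83) (nat_lit 84) = true := by decide +kernel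
def p13_17_1_84 : pfC (piC [(nat_lit 40745421), (nat_lit 25257288), (nat_lit 16296408)] (nat_lit 11147418)) p13_17_1 (nat_lit 3) (nat_lit 84) (nat_lit 85) = true := by decide +kernel
def p13_17_1_85 : pfC (piC [(nat_lit 40745421), (nat_lit 25257288), (nat_lit 16296408)] (nat_lit 11147418)) p13_17_1 (nat_lit 3) (nat_lit 85) (nat_lit 86) = true := by decide +kernel
def p13_17_1_86 : pfC (piC [(nat_lit 40745421), (nat_lit 25257288), (nat_lit 16296408)] (nat_lit 11147418)) p13_17_1 (nat_lit 3) (nat_lit 86) (nat_lit 87) = true := by decide +kernel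
def p13_17_1_87 : pfC (piC [(nat_lit 40745421), (nat_lit 25257288), (nat_lit 16296408)] (nat_lit 11147418)) p13_17_1 (nat_lit 3) (nat_lit 87) (nat_lit 88) = true := by decide +kernel
def p13_17_1_88 : pfC (piC [(nat_lit 40745421), (nat_lit 25257288), (nat_lit 16296408)] (nat_lit 11147418)) p13_17_1 (nat_lit 3) (nat_lit 88) (nat_lit 89) = true := by decide +kernel
def p13_17_1_89 : pfC (piC [(nat_lit 40745421), (nat_lit 25257288), (nat_lit 16296408)] (nat_lit 11147418)) p13_17_1 (nat_lit 3) (nat_lit 89) (nat_lit 90) = true := by decide +kernel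
def p13_17_1_90 : pfC (piC [(nat_lit 40745421), (nat_lit 25257288), (nat_lit 16296408)] (nat_lit 11147418)) p13_17_1 (nat_lit 3) (nat_lit 90) (nat_lit 91) = true := by decide +kernel
def p13_17_1_91 : pfC (piC [(nat_lit 40745421), (nat_lit 25257288), (nat_lit 16296408)] (nat_lit 11147418)) p13_17_1 (nat_lit 3) (nat_lit 91) (nat_lit 92) = true := by decide +kernel
def p13_17_1_92 : pfC (piC [(nat_lit 40745421), (nat_lit 25257288), (nat_lit 16296408)] (nat_lit 11147418)) p13_17_1 (nat_lit 3) (nat_lit 92) (nat_lit 93) = true := by decide +kernel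
def p13_17_1_93 : pfC (piC [(nat_lit 40745421), (nat_lit 25257288), (nat_lit 16296408)] (nat_lit 11147418)) p13_17_1 (nat_lit 3) (nat_lit 93) (nat_lit 94) = true := by decide +kernel
def p13_17_1_94 : pfC (piC [(nat_lit 40745421), (nat_lit 25257288), (nat_lit 16296408)] (nat_lit 11147418)) p13_17_1 (nat_lit 3) (nat_lit 94) (nat_lit 95) = true := by decide +kernel
def p13_17_1_95 : pfC (piC [(nat_lit 40745421), (nat_lit 25257288), (nat_lit 16296408)] (nat_lit 11147418)) p13_17_1 (nat_lit 3) (nat_lit 95) (nat_lit 96) = true := by decide +kernel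
def p13_17_1_96 : pfC (piC [(nat_lit 40745421), (nat_lit 25257288), (nat_lit 16296408)] (nat_lit 11147418)) p13_17_1 (nat_lit 3) (nat_lit 96) (nat_lit 97) = true := by decide +kernel
def p13_17_1_97 : pfC (piC [(nat_lit 40745421), (nat_lit 25257288), (nat_lit 16296408)] (nat_lit 11147418)) p13_17_1 (nat_lit 3) (nat_lit 97) (nat_lit 98) = true := by decide +kernel
def p13_17_1_98 : pfC (piC [(nat_lit 40745421), (nat_lit 25257288), (nat_lit 16296408)] (nat_lit 11147418)) p13_17_1 (nat_lit 3) (nat_lit 98) (nat_lit 99) = true := by decide +kernel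
def p13_17_1_99 : pfC (piC [(nat_lit 40745421), (nat_lit 25257288), (nat_lit 16296408)] (nat_lit 11147418)) p13_17_1 (nat_lit 3) (nat_lit 99) (nat_lit 100) = true := by decide +kernel
def p13_17_1_100 : pfC (piC [(nat_lit 40745421), (nat_lit 25257288), (nat_lit 16296408)] (nat_lit 11147418)) p13_17_1 (nat_lit 3) (nat_lit 100) (nat_lit 101) = true := by decide +kernel
def p13_17_1_101 : pfC (piC [(nat_lit 40745421), (nat_lit 25257288), (nat_lit 16296408)] (nat_lit 11147418)) p13_17_1 (nat_lit 3) (nat_lit 101) (nat_lit 102) = true := by decide +kernel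
def p13_17_1_102 : pfC (piC [(nat_lit 40745421), (nat_lit 25257288), (nat_lit 16296408)] (nat_lit 11147418)) p13_17_1 (nat_lit 3) (nat_lit 102) (nat_lit 103) = true := by decide +kernel
def p13_17_1_103 : pfC (piC [(nat_lit 40745421), (nat_lit 25257288), (nat_lit 16296408)] (nat_lit 11147418)) p13_17_1 (nat_lit 3) (nat_lit 103) (nat_lit 104) = true := by decide +kernel
def p13_17_1_104 : pfC (piC [(nat_lit 40745421), (nat_lit 25257288), (nat_lit 16296408)] (nat_lit 11147418)) p13_17_1 (nat_lit 3) (nat_lit 104) (nat_lit 105) = true := by decide +kernel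
def p13_17_1_105 : pfC (piC [(nat_lit 40745421), (nat_lit 25257288), (nat_lit 16296408)] (nat_lit 11147418)) p13_17_1 (nat_lit 3) (nat_lit 105) (nat_lit 106) = true := by decide +kernel
def p13_17_1_106 : pfC (piC [(nat_lit 40745421), (nat_lit 25257288), (nat_lit 16296408)] (nat_lit 11147418)) p13_17_1 (nat_lit 3) (nat_lit 106) (nat_lit 107) = true := by decide +kernel
def p13_17_1_107 : pfC (piC [(nat_lit 40745421), (nat_lit 25257288), (nat_lit 16296408)] (nat_lit 11147418)) p13_17_1 (nat_lit 3) (nat_lit 107) (nat_lit 108) = true := by decide +kernel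
def p13_17_1_108 : pfC (piC [(nat_lit 40745421), (nat_lit 25257288), (nat_lit 16296408)] (nat_lit 11147418)) p13_17_1 (nat_lit 3) (nat_lit 108) (nat_lit 109) = true := by decide +kernel
def p13_17_1_109 : pfC (piC [(nat_lit 40745421), (nat_lit 25257288), (nat_lit 16296408)] (nat_lit 11147418)) p13_17_1 (nat_lit 3) (nat_lit 109) (nat_lit 110) = true := by decide +kernel
def p13_17_1_110 : pfC (piC [(nat_lit 40745421), (nat_lit 25257288), (nat_lit 16296408)] (nat_lit 11147418)) p13_17_1 (nat_lit 3) (nat_lit 110) (nat_lit 111) = true := by decide +kernel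
def p13_17_1_111 : pfC (piC [(nat_lit 40745421), (nat_lit 25257288), (nat_lit 16296408)] (nat_lit 11147418)) p13_17_1 (nat_lit 3) (nat_lit 111) (nat_lit 112) = true := by decide +kernel
def p13_17_1_112 : pfC (piC [(nat_lit 40745421), (nat_lit 25257288), (nat_lit 16296408)] (nat_lit 11147418)) p13_17_1 (nat_lit 3) (nat_lit 112) (nat_lit 113) = true := by decide +kernel
def p13_17_1_113 : pfC (piC [(nat_lit 40745421), (nat_lit 25257288), (nat_lit 16296408)] (nat_lit 11147418)) p13_17_1 (nat_lit 3) (nat_lit 113) (nat_lit 114) = true := by decide +kernel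
def p13_17_1_114 : pfC (piC [(nat_lit 40745421), (nat_lit 25257288), (nat_lit 16296408)] (nat_lit 11147418)) p13_17_1 (nat_lit 3) (nat_lit 114) (nat_lit 115) = true := by decide +kernel
def p13_17_1_115 : pfC (piC [(nat_lit 40745421), (nat_lit 25257288), (nat_lit 16296408)] (nat_lit 11147418)) p13_17_1 (nat_lit 3) (nat_lit 115) (nat_lit 116) = true := by decide +kernel
def p13_17_1_116 : pfC (piC [(nat_lit 40745421), (nat_lit 25257288), (nat_lit 16296408)] (nat_lit 11147418)) p13_17_1 (nat_lit 3) (nat_lit 116) (nat_lit 117) = true := by decide +kernel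
def p13_17_1_117 : pfC (piC [(nat_lit 40745421), (nat_lit 25257288), (nat_lit 16296408)] (nat_lit 11147418)) p13_17_1 (nat_lit 3) (nat_lit 117) (nat_lit 118) = true := by decide +kernel
def p13_17_1_118 : pfC (piC [(nat_lit 40745421), (nat_lit 25257288), (nat_lit 16296408)] (nat_lit 11147418)) p13_17_1 (nat_lit 3) (nat_lit 118) (nat_lit 119) = true := by decide +kernel
def p13_17_1_119 : pfC (piC [(nat_lit 40745421), (nat_lit 25257288), (nat_lit 16296408)] (nat_lit 11147418)) p13_17_1 (nat_lit 3) (nat_lit 119) (nat_lit 120) = true := by decide +kernel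
def p13_17_1_120 : pfC (piC [(nat_lit 40745421), (nat_lit 25257288), (nat_lit 16296408)] (nat_lit 11147418)) p13_17_1 (nat_lit 3) (nat_lit 120) (nat_lit 121) = true := by decide +kernel
def p13_17_1_121 : pfC (piC [(nat_lit 40745421), (nat_lit 25257288), (nat_lit 16296408)] (nat_lit 11147418)) p13_17_1 (nat_lit 3) (nat_lit 121) (nat_lit 122) = true := by decide +kernel
def p13_17_1_122 : pfC (piC [(nat_lit 40745421), (nat_lit 25257288), (nat_lit 16296408)] (nat_lit 11147418)) p13_17_1 (nat_lit 3) (nat_lit 122) (nat_lit 123) = true := by decide +kernel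
def p13_17_1_123 : pfC (piC [(nat_lit 40745421), (nat_lit 25257288), (nat_lit 16296408)] (nat_lit 11147418)) p13_17_1 (nat_lit 3) (nat_lit 123) (nat_lit 124) = true := by decide +kernel
def p13_17_1_124 : pfC (piC [(nat_lit 40745421), (nat_lit 25257288), (nat_lit 16296408)] (nat_lit 11147418)) p13_17_1 (nat_lit 3) (nat_lit 124) (nat_lit 125) = true := by decide +kernel
def p13_17_1_125 : pfC (piC [(nat_lit 40745421), (nat_lit 25257288), (nat_lit 16296408)] (nat_lit 11147418)) p13_17_1 (nat_lit 3) (nat_lit 125) (nat_lit 126) = true := by decide +kernel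
def p13_17_1_126 : pfC (piC [(nat_lit 40745421), (nat_lit 25257288), (nat_lit 16296408)] (nat_lit 11147418)) p13_17_1 (nat_lit 3) (nat_lit 126) (nat_lit 127) = true := by decide +kernel
def p13_17_1_127 : pfC (piC [(nat_lit 40745421), (nat_lit 25257288), (nat_lit 16296408)] (nat_lit 11147418)) p13_17_1 (nat_lit 3) (nat_lit 127) (nat_lit 128) = true := by decide +kernel
def p13_17_1_128 : pfC (piC [(nat_lit 40745421), (nat_lit 25257288), (nat_lit 16296408)] (nat_lit 11147418)) p13_17_1 (nat_lit 3) (nat_lit 128) (nat_lit 129) = true := by decide +kernel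
def p13_17_1_129 : pfC (piC [(nat_lit 40745421), (nat_lit 25257288), (nat_lit 16296408)] (nat_lit 11147418)) p13_17_1 (nat_lit 3) (nat_lit 129) (nat_lit 130) = true := by decide +kernel
def p13_17_1_130 : pfC (piC [(nat_lit 40745421), (nat_lit 25257288), (nat_lit 16296408)] (nat_lit 11147418)) p13_17_1 (nat_lit 3) (nat_lit 130) (nat_lit 131) = true := by decide +kernel
def p13_17_1_131 : pfC (piC [(nat_lit 40745421), (nat_lit 25257288), (nat_lit 16296408)] (nat_lit 11147418)) p13_17_1 (nat_lit 3) (nat_lit 131) (nat_lit 132) = true := by decide +kernel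
def p13_17_1_132 : pfC (piC [(nat_lit 40745421), (nat_lit 25257288), (nat_lit 16296408)] (nat_lit 11147418)) p13_17_1 (nat_lit 3) (nat_lit 132) (nat_lit 133) = true := by decide +kernel
def p13_17_1_133 : pfC (piC [(nat_lit 40745421), (nat_lit 25257288), (nat_lit 16296408)] (nat_lit 11147418)) p13_17_1 (nat_lit 3) (nat_lit 133) (nat_lit 134) = true := by decide +kernel
def p13_17_1_134 : pfC (piC [(nat_lit 40745421), (nat_lit 25257288), (nat_lit 16296408)] (nat_lit 11147418)) p13_17_1 (nat_lit 3) (nat_lit 134) (nat_lit 135) = true := by decide +kernel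
def p13_17_1_135 : pfC (piC [(nat_lit 40745421), (nat_lit 25257288), (nat_lit 16296408)] (nat_lit 11147418)) p13_17_1 (nat_lit 3) (nat_lit 135) (nat_lit 136) = true := by decide +kernel
def p13_17_1_136 : pfC (piC [(nat_lit 40745421), (nat_lit 25257288), (nat_lit 16296408)] (nat_lit 11147418)) p13_17_1 (nat_lit 3) (nat_lit 136) (nat_lit 137) = true := by decide +kernel
def p13_17_1_137 : pfC (piC [(nat_lit 40745421), (nat_lit 25257288), (nat_lit 16296408)] (nat_lit 11147418)) p13_17_1 (nat_lit 3) (nat_lit 137) (nat_lit 138) = true := by decide +kernel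
def p13_17_1_138 : pfC (piC [(nat_lit 40745421), (nat_lit 25257288), (nat_lit 16296408)] (nat_lit 11147418)) p13_17_1 (nat_lit 3) (nat_lit 138) (nat_lit 139) = true := by decide +kernel
def p13_17_1_139 : pfC (piC [(nat_lit 40745421), (nat_lit 25257288), (nat_lit 16296408)] (nat_lit 11147418)) p13_17_1 (nat_lit 3) (nat_lit 139) (nat_lit 140) = true := by decide +kernel
def p13_17_1_140 : pfC (piC [(nat_lit 40745421), (nat_lit 25257288), (nat_lit 16296408)] (nat_lit 11147418)) p13_17_1 (nat_lit 3) (nat_lit 140) (nat_lit 141) = true := by decide +kernel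
def p13_17_1_141 : pfC (piC [(nat_lit 40745421), (nat_lit 25257288), (nat_lit 16296408)] (nat_lit 11147418)) p13_17_1 (nat_lit 3) (nat_lit 141) (nat_lit 142) = true := by decide +kernel
def p13_17_1_142 : pfC (piC [(nat_lit 40745421), (nat_lit 25257288), (nat_lit 16296408)] (nat_lit 11147418)) p13_17_1 (nat_lit 3) (nat_lit 142) (nat_lit 143) = true := by decide +kernel
def p13_17_1_143 : pfC (piC [(nat_lit 40745421), (nat_lit 25257288), (nat_lit 16296408)] (nat_lit 11147418)) p13_17_1 (nat_lit 3) (nat_lit 143) (nat_lit 144) = true := by decide +kernel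
def p13_17_1_144 : pfC (piC [(nat_lit 40745421), (nat_lit 25257288), (nat_lit 16296408)] (nat_lit 11147418)) p13_17_1 (nat_lit 3) (nat_lit 144) (nat_lit 145) = true := by decide +kernel
def p13_17_1_145 : pfC (piC [(nat_lit 40745421), (nat_lit 25257288), (nat_lit 16296408)] (nat_lit 11147418)) p13_17_1 (nat_lit 3) (nat_lit 145) (nat_lit 146) = true := by decide +kernel
def p13_17_1_146 : pfC (piC [(nat_lit 40745421), (nat_lit 25257288), (nat_lit 16296408)] (nat_lit 11147418)) p13_17_1 (nat_lit 3) (nat_lit 146) (nat_lit 147) = true := by decide +kernel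
def p13_17_1_147 : pfC (piC [(nat_lit 40745421), (nat_lit 25257288), (nat_lit 16296408)] (nat_lit 11147418)) p13_17_1 (nat_lit 3) (nat_lit 147) (nat_lit 148) = true := by decide +kernel
def p13_17_1_148 : pfC (piC [(nat_lit 40745421), (nat_lit 25257288), (nat_lit 16296408)] (nat_lit 11147418)) p13_17_1 (nat_lit 3) (nat_lit 148) (nat_lit 149) = true := by decide +kernel
def p13_17_1_149 : pfC (piC [(nat_lit 40745421), (nat_lit 25257288), (nat_lit 16296408)] (nat_lit 11147418)) p13_17_1 (nat_lit 3) (nat_lit 149) (nat_lit 150) = true := by decide +kernel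
def p13_17_1_150 : pfC (piC [(nat_lit 40745421), (nat_lit 25257288), (nat_lit 16296408)] (nat_lit 11147418)) p13_17_1 (nat_lit 3) (nat_lit 150) (nat_lit 151) = true := by decide +kernel
theorem p13_17_1_T : PfS (PiF n13_17.reverse (nat_lit 11147418)) p13_17_1 (nat_lit 3) [] 0 :=
  pftab_of (los := [(nat_lit 40745421), (nat_lit 25257288), (nat_lit 16296408)]) (by decide +kernel) (hi := (nat_lit 151)) (PfP.trans (PfP.trans (PfP.trans (PfP.trans (PfP.trans (PfP.trans (PfP.trans (PfP.trans (PfP.trans (PfP.trans (PfP.trans (PfP.trans (PfP.trans (PfP.trans (PfP.trans (PfP.trans (PfP.trans (PfP.trans (PfP.trans (PfP.trans (PfP.trans (PfP.trans (PfP.trans (PfP.trans (PfP.trans (PfP.trans (PfP.trans (PfP.trans (PfP.trans (PfP.trans (PfP.trans (PfP.trans (PfP.trans (PfP.trans (PfP.trans (PfP.trans (PfP.trans (PfP.trans (PfP.trans (PfP.trans (PfP.trans (PfP.trans (PfP.trans (PfP.trans (PfP.trans (PfP.trans (PfP.trans (PfP.trans (PfP.trans (PfP.trans (PfP.trans (PfP.trans (PfP.trans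 (PfP.trans (PfP.trans (PfP.trans (PfP.trans (PfP.trans (PfP.trans (PfP.trans (PfP.trans (PfP.trans (PfP.trans (PfP.trans (PfP.trans (PfP.trans (PfP.trans (PfP.trans (PfP.trans (PfP.trans (PfP.trans (PfP.trans (PfP.trans (PfP.trans (PfP.trans (PfP.trans (PfP.trans (PfP.trans (PfP.trans (PfP.trans (PfP.trans (PfP.trans (PfP.trans (PfP.trans (PfP.trans (PfP.trans (PfP.trans (PfP.trans (PfP.trans (PfP.trans (PfP.trans (PfP.trans (PfP.trans (PfP.trans (PfP.trans (PfP.trans (PfP.trans (PfP.trans (PfP.trans (PfP.trans (PfP.trans (PfP.trans (PfP.trans (PfP.trans (PfP.trans (PfP.trans (PfP.trans (PfP.trans (PfP.trans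
 (PfP.trans (PfP.trans (PfP.trans (PfP.trans (PfP.trans (PfP.trans (PfP.trans (PfP.trans (PfP.trans (PfP.trans (PfP.trans (PfP.trans (PfP.trans (PfP.trans (PfP.trans (PfP.trans (PfP.trans (PfP.trans (PfP.trans (PfP.trans (PfP.trans (PfP.trans (PfP.trans (PfP.trans (PfP.trans (PfP.trans (PfP.trans (PfP.trans (PfP.trans (PfP.trans (PfP.trans (PfP.trans (PfP.trans (PfP.trans (PfP.trans (PfP.trans (PfP.trans (PfP.trans (PfP.trans (PfP.trans (PfP.trans (pfC_sound p13_17_1_0) (pfC_sound p13_17_1_1)) (pfC_sound p13_17_1_2)) (pfC_sound p13_17_1_3)) (pfC_sound p13_17_1_4)) (pfC_sound p13_17_1_5)) (pfC_sound p13_17_1_6)) (pfC_sound p13_17_1_7)) (pfC_sound p13_17_1_8)) (pfC_sound p13_17_1_9)) (pfC_sound p13_17_1_10)) (pfC_sound p13_17_1_11)) (pfC_sound p13_17_1_12)) (pfC_sound p13_17_1_13)) (pfC_sound p13_17_1_14)) (pfC_sound p13_17_1_15)) (pfC_sound p13_17_1_16)) (pfC_sound p13_17_1_17)) (pfC_sound p13_17_1_18)) (pfC_sound p13_17_1_19)) (pfC_sound p13_17_1_20)) (pfC_sound p13_17_1_21))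 (pfC_sound p13_17_1_22)) (pfC_sound p13_17_1_23)) (pfC_sound p13_17_1_24)) (pfC_sound p13_17_1_25)) (pfC_sound p13_17_1_26)) (pfC_sound p13_17_1_27)) (pfC_sound p13_17_1_28)) (pfC_sound p13_17_1_29))
 (pfC_sound p13_17_1_30)) (pfC_sound p13_17_1_31)) (pfC_sound p13_17_1_32)) (pfC_sound p13_17_1_33)) (pfC_sound p13_17_1_34)) (pfC_sound p13_17_1_35)) (pfC_sound p13_17_1_36)) (pfC_sound p13_17_1_37)) (pfC_sound p13_17_1_38)) (pfC_sound p13_17_1_39)) (pfC_sound p13_17_1_40)) (pfC_sound p13_17_1_41)) (pfC_sound p13_17_1_42)) (pfC_sound p13_17_1_43)) (pfC_sound p13_17_1_44)) (pfC_sound p13_17_1_45)) (pfC_sound p13_17_1_46)) (pfC_sound p13_17_1_47)) (pfC_sound p13_17_1_48)) (pfC_sound p13_17_1_49)) (pfC_sound p13_17_1_50)) (pfC_sound p13_17_1_51)) (pfC_sound p13_17_1_52)) (pfC_sound p13_17_1_53)) (pfC_sound p13_17_1_54)) (pfC_sound p13_17_1_55)) (pfC_sound p13_17_1_56)) (pfC_sound p13_17_1_57)) (pfC_sound p13_17_1_58)) (pfC_sound p13_17_1_59)) (pfC_sound p13_17_1_60)) (pfC_sound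 p13_17_1_61)) (pfC_sound p13_17_1_62)) (pfC_sound p13_17_1_63)) (pfC_sound p13_17_1_64)) (pfC_sound p13_17_1_65)) (pfC_sound p13_17_1_66)) (pfC_sound p13_17_1_67)) (pfC_sound p13_17_1_68)) (pfC_sound p13_17_1_69)) (pfC_sound p13_17_1_70)) (pfC_sound p13_17_1_71)) (pfC_sound p13_17_1_72)) (pfC_sound p13_17_1_73)) (pfC_sound p13_17_1_74)) (pfC_sound p13_17_1_75)) (pfC_sound p13_17_1_76)) (pfC_sound p13_17_1_77))
 (pfC_sound p13_17_1_78)) (pfC_sound p13_17_1_79)) (pfC_sound p13_17_1_80)) (pfC_sound p13_17_1_81)) (pfC_sound p13_17_1_82)) (pfC_sound p13_17_1_83)) (pfC_sound p13_17_1_84)) (pfC_sound p13_17_1_85)) (pfC_sound p13_17_1_86)) (pfC_sound p13_17_1_87)) (pfC_sound p13_17_1_88)) (pfC_sound p13_17_1_89)) (pfC_sound p13_17_1_90)) (pfC_sound p13_17_1_91)) (pfC_sound p13_17_1_92)) (pfC_sound p13_17_1_93)) (pfC_sound p13_17_1_94)) (pfC_sound p13_17_1_95)) (pfC_sound p13_17_1_96)) (pfC_sound p13_17_1_97)) (pfC_sound p13_17_1_98)) (pfC_sound p13_17_1_99)) (pfC_sound p13_17_1_100))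 (pfC_sound p13_17_1_101)) (pfC_sound p13_17_1_102)) (pfC_sound p13_17_1_103)) (pfC_sound p13_17_1_104)) (pfC_sound p13_17_1_105)) (pfC_sound p13_17_1_106)) (pfC_sound p13_17_1_107)) (pfC_sound p13_17_1_108)) (pfC_sound p13_17_1_109)) (pfC_sound p13_17_1_110)) (pfC_sound p13_17_1_111)) (pfC_sound p13_17_1_112)) (pfC_sound p13_17_1_113)) (pfC_sound p13_17_1_114)) (pfC_sound p13_17_1_115)) (pfC_sound p13_17_1_116)) (pfC_sound p13_17_1_117)) (pfC_sound p13_17_1_118)) (pfC_sound p13_17_1_119)) (pfC_sound p13_17_1_120)) (pfC_sound p13_17_1_121)) (pfC_sound p13_17_1_122)) (pfC_sound p13_17_1_123)) (pfC_sound p13_17_1_124))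
 (pfC_sound p13_17_1_125)) (pfC_sound p13_17_1_126)) (pfC_sound p13_17_1_127)) (pfC_sound p13_17_1_128)) (pfC_sound p13_17_1_129)) (pfC_sound p13_17_1_130)) (pfC_sound p13_17_1_131)) (pfC_sound p13_17_1_132)) (pfC_sound p13_17_1_133)) (pfC_sound p13_17_1_134)) (pfC_sound p13_17_1_135)) (pfC_sound p13_17_1_136)) (pfC_sound p13_17_1_137)) (pfC_sound p13_17_1_138)) (pfC_sound p13_17_1_139)) (pfC_sound p13_17_1_140)) (pfC_sound p13_17_1_141)) (pfC_sound p13_17_1_142)) (pfC_sound p13_17_1_143)) (pfC_sound p13_17_1_144)) (pfC_sound p13_17_1_145)) (pfC_sound p13_17_1_146)) (pfC_sound p13_17_1_147)) (pfC_sound p13_17_1_148)) (pfC_sound p13_17_1_149)) (pfC_sound p13_17_1_150)) (by decide +kernel)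

def z13_17_1 : zOK yB13_17 (nat_lit 1) (nat_lit 400) (nat_lit 600) (nat_lit 11147418) (nat_lit 7298113) = true := by decide +kernel
def g13_17_1 : gOK yB13_17.x P13_17 (nat_lit 1397) (q13_17 :: r13_17) (nat_lit 1) (nat_lit 400) (nat_lit 2) (nat_lit 600) (nat_lit 11000000) (nat_lit 17850000) (nat_lit 12712500) (nat_lit 12712500) [(nat_lit 800), (nat_lit 1600)] = true := by decide +kernel
def v13_17_1 : ivC P13_17 s13_17 w13_17 n13_17 (nat_lit 3) (nat_lit 4920) (nat_lit 1) (nat_lit 400) f176_0_400 f184_0_400 (nat_lit 2) (nat_lit 600) f176_0_600 f184_0_600 (nat_lit 11147418) (nat_lit 7298113) p13_17_1 = true := by decide +kernel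
def p13_17_2 : PF := (PF.cons (PF.cons (PF.cons (PF.leaf (nat_lit 2574751) (nat_lit 14143280) (nat_lit 52965532) (nat_lit 14143280) [(nat_lit 0), (nat_lit 0), (nat_lit 0)]) (PF.cons (PF.leaf (nat_lit 2723122) (nat_lit 254302) (nat_lit 52716521) (nat_lit 14137989) [(nat_lit 254302), (nat_lit 0), (nat_lit 0)]) (PF.cons (PF.leaf (nat_lit 2899190) (nat_lit 276498) (nat_lit 52425232) (nat_lit 14130583) [(nat_lit 276498), (nat_lit 0), (nat_lit 0)]) (PF.cons (PF.leaf (nat_lit 3096969) (nat_lit 296186) (nat_lit 52099457) (nat_lit 14120796) [(nat_lit 296186), (nat_lit 0), (nat_lit 0)]) (PF.cons (PF.leaf (nat_lit 3313248) (nat_lit 313930) (nat_lit 51744711) (nat_lit 14108381) [(nat_lit 313930), (nat_lit 0), (nat_lit 0)]) (PF.cons (PF.leaf (nat_lit 3545723) (nat_lit 330088) (nat_lit 51365243) (nat_lit 14093126) [(nat_lit 330088), (nat_lit 0), (nat_lit 0)]) (PF.cons (PF.leaf (nat_lit 3792484) (nat_lit 344908) (nat_lit 50964508) (nat_lit 14074855) [(nat_lit 344908), (nat_lit 0),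 (nat_lit 0)]) (PF.cons (PF.leaf (nat_lit 4051906) (nat_lit 358566) (nat_lit 50545416) (nat_lit 14053434) [(nat_lit 358566), (nat_lit 0), (nat_lit 0)]) (PF.cons (PF.leaf (nat_lit 4322648) (nat_lit 371196) (nat_lit 50110476) (nat_lit
 14028762) [(nat_lit 371196), (nat_lit 0), (nat_lit 0)]) (PF.cons (PF.leaf (nat_lit 4603416) (nat_lit 382904) (nat_lit 49661897) (nat_lit 14000777) [(nat_lit 382904), (nat_lit 0), (nat_lit 0)]) (PF.cons (PF.leaf (nat_lit 4893148) (nat_lit 393772) (nat_lit 49201641) (nat_lit 13969446) [(nat_lit 393772), (nat_lit 0), (nat_lit 0)]) (PF.cons (PF.leaf (nat_lit 5190837) (nat_lit 403870) (nat_lit 48731470) (nat_lit 13934768) [(nat_lit 403870), (nat_lit 0), (nat_lit 0)]) (PF.cons (PF.leaf (nat_lit 5495545) (nat_lit 413255) (nat_lit 48252973) (nat_lit 13896768) [(nat_lit 413255), (nat_lit 0), (nat_lit 0)]) (PF.cons (PF.leaf (nat_lit 5806441) (nat_lit 421978) (nat_lit 47767596) (nat_lit 13855492) [(nat_lit 421978), (nat_lit 0), (nat_lit 0)]) (PF.cons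 PF.nil (PF.cons PF.nil PF.nil)))))))))))))))) (PF.cons (PF.cons (PF.leaf (nat_lit 3220939) (nat_lit 1593913) (nat_lit 51427005) (nat_lit 14087893) [(nat_lit 0), (nat_lit 1593913), (nat_lit 0)]) (PF.cons (PF.leaf (nat_lit 3416527) (nat_lit 313454) (nat_lit 51098654) (nat_lit 14073321) [(nat_lit 313454), (nat_lit 1623382), (nat_lit 0)]) (PF.cons (PF.leaf (nat_lit 3632653) (nat_lit 330126) (nat_lit 50740229) (nat_lit 14055755) [(nat_lit 330126),
 (nat_lit 1652575), (nat_lit 0)]) (PF.cons (PF.leaf (nat_lit 3865272) (nat_lit 345201) (nat_lit 50357159) (nat_lit 14035110) [(nat_lit 345201), (nat_lit 1680938), (nat_lit 0)]) (PF.cons (PF.leaf (nat_lit 4112102) (nat_lit 358963) (nat_lit 49953490) (nat_lit 14011308) [(nat_lit 358963), (nat_lit 1708159), (nat_lit 0)]) (PF.cons (PF.leaf (nat_lit 4371420) (nat_lit 371605) (nat_lit 49532431) (nat_lit 13984291) [(nat_lit 371605), (nat_lit 1734060), (nat_lit 0)]) (PF.cons (PF.leaf (nat_lit 4641654) (nat_lit 383267) (nat_lit 49096638)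 (nat_lit 13954024) [(nat_lit 383267), (nat_lit 1758544), (nat_lit 0)]) (PF.cons (PF.leaf (nat_lit 4921578) (nat_lit 394053) (nat_lit 48648372) (nat_lit 13920498) [(nat_lit 394053), (nat_lit 1781565), (nat_lit 0)]) (PF.cons (PF.leaf (nat_lit 5210028) (nat_lit 404046) (nat_lit 48189601) (nat_lit 13883725) [(nat_lit 404046), (nat_lit 1803111), (nat_lit 0)]) (PF.cons (PF.leaf (nat_lit 5505998) (nat_lit 413313) (nat_lit 47722058) (nat_lit 13843742) [(nat_lit 413313), (nat_lit 1823187), (nat_lit 0)]) (PF.cons (PF.leaf (nat_lit 5808581) (nat_lit 421910) (nat_lit 47247287) (nat_lit 13800604) [(nat_lit 421910), (nat_lit 1841816), (nat_lit 0)]) (PF.cons (PF.leaf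
 (nat_lit 6116946) (nat_lit 429884) (nat_lit 46766671) (nat_lit 13754383) [(nat_lit 429884), (nat_lit 1859029), (nat_lit 0)]) (PF.cons PF.nil (PF.cons PF.nil PF.nil)))))))))))))) (PF.cons (PF.cons (PF.leaf (nat_lit 3954644) (nat_lit 1701523) (nat_lit 49717081) (nat_lit 13988684) [(nat_lit 0), (nat_lit 1701523), (nat_lit 0)]) (PF.cons (PF.leaf (nat_lit 4184251) (nat_lit 357674) (nat_lit 49336719) (nat_lit 13963263) [(nat_lit 357674), (nat_lit 1725577), (nat_lit 0)]) (PF.cons (PF.leaf (nat_lit 4429410) (nat_lit 370681) (nat_lit 48935248) (nat_lit 13934524) [(nat_lit 370681), (nat_lit 1748838), (nat_lit 0)]) (PF.cons (PF.leaf (nat_lit 4687133) (nat_lit 382546) (nat_lit 48516533) (nat_lit 13902505) [(nat_lit 382546), (nat_lit 1771067), (nat_lit 0)]) (PF.cons (PF.leaf (nat_lit 4955758) (nat_lit 393433) (nat_lit 48083577) (nat_lit 13867243) [(nat_lit 393433), (nat_lit 1792128), (nat_lit 0)]) (PF.cons (PF.leaf (nat_lit 5233846) (nat_lit 403460) (nat_lit 47638829) (nat_lit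 13828783) [(nat_lit 403460), (nat_lit 1811947), (nat_lit 0)]) (PF.cons (PF.leaf (nat_lit 5520206) (nat_lit 412717) (nat_lit 47184347) (nat_lit 13787182) [(nat_lit 412717), (nat_lit 1830488), (nat_lit 0)]) (PF.cons
 (PF.leaf (nat_lit 5813792) (nat_lit 421274) (nat_lit 46721897) (nat_lit 13742511) [(nat_lit 421274), (nat_lit 1847739), (nat_lit 0)]) (PF.cons (PF.leaf (nat_lit 6113678) (nat_lit 429189) (nat_lit 46253023) (nat_lit 13694854) [(nat_lit 429189), (nat_lit 1863708), (nat_lit 0)]) (PF.cons (PF.leaf (nat_lit 6419030) (nat_lit 436510) (nat_lit 45779084) (nat_lit 13644303) [(nat_lit 436510), (nat_lit 1878415), (nat_lit 0)]) (PF.cons (PF.leaf (nat_lit 6729087) (nat_lit 443278) (nat_lit 45301292) (nat_lit 13590964) [(nat_lit 443278), (nat_lit 1891886), (nat_lit 0)]) (PF.cons PF.nil PF.nil)))))))))))) (PF.cons (PF.cons (PF.leaf (nat_lit 4745670) (nat_lit 1783078) (nat_lit 47914177) (nat_lit 13845401) [(nat_lit 0), (nat_lit 1783078), (nat_lit 0)]) (PF.cons (PF.leaf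 (nat_lit 4999613) (nat_lit 391621) (nat_lit 47501860) (nat_lit 13809074) [(nat_lit 391621), (nat_lit 1802085), (nat_lit 0)]) (PF.cons (PF.leaf (nat_lit 5265367) (nat_lit 401905) (nat_lit 47075107) (nat_lit 13769480) [(nat_lit 401905), (nat_lit 1820138), (nat_lit 0)]) (PF.cons (PF.leaf (nat_lit 5540626) (nat_lit 411315) (nat_lit 46636730) (nat_lit 13726733) [(nat_lit 411315), (nat_lit 1837133), (nat_lit 0)]) (PF.cons (PF.leaf
 (nat_lit 5824084) (nat_lit 419958) (nat_lit 46188990) (nat_lit 13680939) [(nat_lit 419958), (nat_lit 1853017), (nat_lit 0)]) (PF.cons (PF.leaf (nat_lit 6114611) (nat_lit 427911) (nat_lit 45733761) (nat_lit 13632204) [(nat_lit 427911), (nat_lit 1867763), (nat_lit 0)]) (PF.cons (PF.leaf (nat_lit 6411239) (nat_lit 435237) (nat_lit 45272636) (nat_lit 13580639) [(nat_lit 435237), (nat_lit 1881370), (nat_lit 0)]) (PF.cons (PF.leaf (nat_lit 6713095) (nat_lit 441989) (nat_lit 44806991) (nat_lit 13526359) [(nat_lit 441989), (nat_lit 1893845), (nat_lit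 0)]) (PF.cons (PF.leaf (nat_lit 7019475) (nat_lit 448209) (nat_lit 44338028) (nat_lit 13469484) [(nat_lit 448209), (nat_lit 1905209), (nat_lit 0)]) (PF.cons PF.nil PF.nil)))))))))) (PF.cons (PF.cons (PF.leaf (nat_lit 5571576) (nat_lit 1843269) (nat_lit 46073990) (nat_lit 13661745) [(nat_lit 0), (nat_lit 1843269), (nat_lit 0)]) (PF.cons (PF.leaf (nat_lit 5842377) (nat_lit 417761) (nat_lit 45644650) (nat_lit 13615394) [(nat_lit 417761), (nat_lit 1857751), (nat_lit 0)]) (PF.cons (PF.leaf (nat_lit 6122073) (nat_lit 425902) (nat_lit 45205876) (nat_lit 13566054) [(nat_lit 425902), (nat_lit 1871269), (nat_lit 0)]) (PF.cons (PF.leaf (nat_lit 6408855)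
 (nat_lit 433348) (nat_lit 44759752) (nat_lit 13513878) [(nat_lit 433348), (nat_lit 1883783), (nat_lit 0)]) (PF.cons (PF.leaf (nat_lit 6701679) (nat_lit 440172) (nat_lit 44307988) (nat_lit 13459007) [(nat_lit 440172), (nat_lit 1895281), (nat_lit 0)]) (PF.cons (PF.leaf (nat_lit 6999634) (nat_lit 446432) (nat_lit 43852018) (nat_lit 13401579) [(nat_lit 446432), (nat_lit 1905763), (nat_lit 0)]) (PF.cons (PF.leaf (nat_lit 7301922) (nat_lit 452172) (nat_lit 43393072) (nat_lit 13341729) [(nat_lit 452172), (nat_lit 1915243), (nat_lit 0)]) (PF.cons PF.nil PF.nil)))))))) (PF.cons (PF.cons (PF.leaf (nat_lit 6415223) (nat_lit 1885727) (nat_lit 44236674) (nat_lit 13443501) [(nat_lit 0), (nat_lit 1885727), (nat_lit 0)]) (PF.cons (PF.leaf (nat_lit 6697042) (nat_lit 437689) (nat_lit 43801392) (nat_lit 13388506) [(nat_lit 437689), (nat_lit 1896244), (nat_lit 0)]) (PF.cons (PF.leaf (nat_lit 6985465) (nat_lit 444092) (nat_lit 43360430) (nat_lit 13330917) [(nat_lit 444092), (nat_lit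 1905855), (nat_lit 0)]) (PF.cons (PF.leaf (nat_lit 7279006) (nat_lit 449931) (nat_lit 42915343) (nat_lit 13270900) [(nat_lit 449931), (nat_lit 1914554), (nat_lit 0)]) (PF.cons (PF.leaf (nat_lit 7576873) (nat_lit 455258)
 (nat_lit 42467427) (nat_lit 13208609) [(nat_lit 455258), (nat_lit 1922348), (nat_lit 0)]) (PF.cons (PF.leaf (nat_lit 7878298) (nat_lit 460115) (nat_lit 42017778) (nat_lit 13144192) [(nat_lit 460115), (nat_lit 1929252), (nat_lit 0)]) PF.nil)))))) (PF.cons (PF.cons (PF.leaf (nat_lit 7263526) (nat_lit 1913453) (nat_lit 42430855) (nat_lit 13197236) [(nat_lit 0), (nat_lit 1913453), (nat_lit 0)]) (PF.cons (PF.leaf (nat_lit 7551765) (nat_lit 452566) (nat_lit 41997742) (nat_lit 13135171) [(nat_lit 452566), (nat_lit 1920555), (nat_lit 0)]) (PF.cons (PF.leaf (nat_lit 7844794) (nat_lit 457541) (nat_lit 41561746) (nat_lit 13070949) [(nat_lit 457541), (nat_lit 1926839), (nat_lit 0)]) (PF.cons (PF.leaf (nat_lit 8141425) (nat_lit 462050) (nat_lit 41124033) (nat_lit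 13004732) [(nat_lit 462050), (nat_lit 1932316), (nat_lit 0)]) PF.nil)))) (PF.cons (PF.cons (PF.leaf (nat_lit 8106632) (nat_lit 1928993) (nat_lit 40676374) (nat_lit 12929480) [(nat_lit 0), (nat_lit 1928993), (nat_lit 0)]) (PF.cons (PF.leaf (nat_lit 8397717) (nat_lit 463300) (nat_lit 40251236) (nat_lit 12861919) [(nat_lit 463300), (nat_lit 1933193), (nat_lit 0)]) PF.nil)) (PF.cons PF.nil (PF.cons PF.nil (PF.cons PF.nil PF.nil)))))))))))
 (PF.cons (PF.cons (PF.cons (PF.leaf (nat_lit 4232513) (nat_lit 6222816) (nat_lit 47187653) (nat_lit 13698342) [(nat_lit 0), (nat_lit 0), (nat_lit 6222816)]) (PF.cons (PF.leaf (nat_lit 4435313) (nat_lit 339514) (nat_lit 46867490) (nat_lit 13669463) [(nat_lit 339514), (nat_lit 0), (nat_lit 6232344)]) (PF.cons (PF.leaf (nat_lit 4657128) (nat_lit 354864) (nat_lit 46520959) (nat_lit 13636899) [(nat_lit 354864), (nat_lit 0), (nat_lit 6241225)]) (PF.cons (PF.leaf (nat_lit 4893757) (nat_lit 368409) (nat_lit 46153568) (nat_lit 13600920) [(nat_lit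 368409), (nat_lit 0), (nat_lit 6249093)]) (PF.cons (PF.leaf (nat_lit 5142919) (nat_lit 380517) (nat_lit 45769330) (nat_lit 13561717) [(nat_lit 380517), (nat_lit 0), (nat_lit 6255694)]) (PF.cons (PF.leaf (nat_lit 5402691) (nat_lit 391434) (nat_lit 45371345) (nat_lit 13519441) [(nat_lit 391434), (nat_lit 0), (nat_lit 6260851)]) (PF.cons (PF.leaf (nat_lit 5671624) (nat_lit 401338) (nat_lit 44962113) (nat_lit 13474226) [(nat_lit 401338), (nat_lit 0), (nat_lit 6264441)]) (PF.cons (PF.leaf (nat_lit 5948518) (nat_lit 410360) (nat_lit 44543707) (nat_lit 13426196) [(nat_lit 410360), (nat_lit 0), (nat_lit 6266385)]) (PF.cons (PF.leaf (nat_lit 6232242)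
 (nat_lit 418602) (nat_lit 44117882) (nat_lit 13375471) [(nat_lit 418602), (nat_lit 0), (nat_lit 6266635)]) (PF.cons (PF.leaf (nat_lit 6521889) (nat_lit 426146) (nat_lit 43686149) (nat_lit 13322172) [(nat_lit 426146), (nat_lit 0), (nat_lit 6265169)]) (PF.cons (PF.leaf (nat_lit 6816642) (nat_lit 433058) (nat_lit 43249822) (nat_lit 13266420) [(nat_lit 433058), (nat_lit 0), (nat_lit 6261986)]) (PF.cons (PF.leaf (nat_lit 7115789) (nat_lit 439392) (nat_lit 42810055) (nat_lit 13208335) [(nat_lit 439392), (nat_lit 0), (nat_lit 6257100)]) (PF.cons PF.nil (PF.cons PF.nil PF.nil)))))))))))))) (PF.cons (PF.cons (PF.leaf (nat_lit 4961997) (nat_lit 1764760) (nat_lit 45563065) (nat_lit 13533164) [(nat_lit 0), (nat_lit 1764760), (nat_lit 6247822)]) (PF.cons (PF.leaf (nat_lit 5193414) (nat_lit 376663) (nat_lit 45203584) (nat_lit 13494312) [(nat_lit 376663), (nat_lit 1782199), (nat_lit 6252052)]) (PF.cons (PF.leaf (nat_lit 5438783) (nat_lit 388207) (nat_lit 44826446) (nat_lit 13452098)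 [(nat_lit 388207), (nat_lit 1798792), (nat_lit 6255060)]) (PF.cons (PF.leaf (nat_lit 5695131) (nat_lit 398534) (nat_lit 44435353) (nat_lit 13406771) [(nat_lit 398534), (nat_lit 1814396), (nat_lit 6256688)]) (PF.cons
 (PF.leaf (nat_lit 5960776) (nat_lit 407846) (nat_lit 44033124) (nat_lit 13358530) [(nat_lit 407846), (nat_lit 1828939), (nat_lit 6256832)]) (PF.cons (PF.leaf (nat_lit 6234350) (nat_lit 416288) (nat_lit 43622003) (nat_lit 13307543) [(nat_lit 416288), (nat_lit 1842392), (nat_lit 6255428)]) (PF.cons (PF.leaf (nat_lit 6514711) (nat_lit 423969) (nat_lit 43203836) (nat_lit 13253965) [(nat_lit 423969), (nat_lit 1854750), (nat_lit 6252442)]) (PF.cons (PF.leaf (nat_lit 6800883) (nat_lit 430973) (nat_lit 42780173) (nat_lit 13197937) [(nat_lit 430973), (nat_lit 1866026), (nat_lit 6247860)]) (PF.cons (PF.leaf (nat_lit 7092012) (nat_lit 437367) (nat_lit 42352338) (nat_lit 13139598) [(nat_lit 437367), (nat_lit 1876243), (nat_lit 6241690)]) (PF.cons (PF.leaf (nat_lit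 7387347) (nat_lit 443208) (nat_lit 41921477) (nat_lit 13079082) [(nat_lit 443208), (nat_lit 1885430), (nat_lit 6233950)]) (PF.cons PF.nil (PF.cons PF.nil PF.nil)))))))))))) (PF.cons (PF.cons (PF.leaf (nat_lit 5732764) (nat_lit 1818735) (nat_lit 43889940) (nat_lit 13334463) [(nat_lit 0), (nat_lit 1818735), (nat_lit 6246936)]) (PF.cons (PF.leaf (nat_lit 5983845) (nat_lit 404188) (nat_lit 43508574) (nat_lit 13286744) [(nat_lit 404188),
 (nat_lit 1831931), (nat_lit 6245442)]) (PF.cons (PF.leaf (nat_lit 6245245) (nat_lit 413059) (nat_lit 43115605) (nat_lit 13236075) [(nat_lit 413059), (nat_lit 1844238), (nat_lit 6242536)]) (PF.cons (PF.leaf (nat_lit 6514792) (nat_lit 421043) (nat_lit 42713616) (nat_lit 13182689) [(nat_lit 421043), (nat_lit 1855603), (nat_lit 6238170)]) (PF.cons (PF.leaf (nat_lit 6791199) (nat_lit 428263) (nat_lit 42304639) (nat_lit 13126779) [(nat_lit 428263), (nat_lit 1866008), (nat_lit 6232321)]) (PF.cons (PF.leaf (nat_lit 7073409) (nat_lit 434814) (nat_lit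 41890330) (nat_lit 13068520) [(nat_lit 434814), (nat_lit 1875451), (nat_lit 6224987)]) (PF.cons (PF.leaf (nat_lit 7360519) (nat_lit 440766) (nat_lit 41472068) (nat_lit 13008068) [(nat_lit 440766), (nat_lit 1883947), (nat_lit 6216180)]) (PF.cons (PF.leaf (nat_lit 7651787) (nat_lit 446180) (nat_lit 41051021) (nat_lit 12945572) [(nat_lit 446180), (nat_lit 1891515), (nat_lit 6205923)]) (PF.cons PF.nil (PF.cons PF.nil PF.nil)))))))))) (PF.cons (PF.cons (PF.leaf (nat_lit 6526227) (nat_lit 1856094) (nat_lit 42210707) (nat_lit 13107600) [(nat_lit 0), (nat_lit 1856094), (nat_lit 6222220)]) (PF.cons (PF.leaf (nat_lit 6790370) (nat_lit 424719) (nat_lit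
 41819629) (nat_lit 13052382) [(nat_lit 424719), (nat_lit 1865605), (nat_lit 6215264)]) (PF.cons (PF.leaf (nat_lit 7062188) (nat_lit 431577) (nat_lit 41421267) (nat_lit 12994663) [(nat_lit 431577), (nat_lit 1874272), (nat_lit 6206909)]) (PF.cons (PF.leaf (nat_lit 7339956) (nat_lit 437756) (nat_lit 41017469) (nat_lit 12934657) [(nat_lit 437756), (nat_lit 1882084), (nat_lit 6197164)]) (PF.cons (PF.leaf (nat_lit 7622682) (nat_lit 443338) (nat_lit 40609728) (nat_lit 12872548) [(nat_lit 443338), (nat_lit 1889044), (nat_lit 6186047)]) (PF.cons (PF.leaf (nat_lit 7909540) (nat_lit 448388) (nat_lit 40199274) (nat_lit 12808501) [(nat_lit 448388), (nat_lit 1895168), (nat_lit 6173589)]) (PF.cons (PF.leaf (nat_lit 8199834) (nat_lit 452956) (nat_lit 39787144) (nat_lit 12742670) [(nat_lit 452956), (nat_lit 1900477), (nat_lit 6159826)]) (PF.cons PF.nil PF.nil)))))))) (PF.cons (PF.cons (PF.leaf (nat_lit 7328766) (nat_lit 1879874) (nat_lit 40554264) (nat_lit 12858275) [(nat_lit 0),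 (nat_lit 1879874), (nat_lit 6176773)]) (PF.cons (PF.leaf (nat_lit 7601034) (nat_lit 439869) (nat_lit 40162078) (nat_lit 12797002) [(nat_lit 439869), (nat_lit 1886230), (nat_lit 6164940)]) (PF.cons (PF.leaf (nat_lit
 7878944) (nat_lit 445150) (nat_lit 39765726) (nat_lit 12733676) [(nat_lit 445150), (nat_lit 1891821), (nat_lit 6151822)]) (PF.cons (PF.leaf (nat_lit 8161079) (nat_lit 449895) (nat_lit 39366556) (nat_lit 12668489) [(nat_lit 449895), (nat_lit 1896656), (nat_lit 6137455)]) (PF.cons (PF.leaf (nat_lit 8446713) (nat_lit 454162) (nat_lit 38965671) (nat_lit 12601609) [(nat_lit 454162), (nat_lit 1900750), (nat_lit 6121878)]) (PF.cons PF.nil PF.nil)))))) (PF.cons (PF.cons (PF.leaf (nat_lit 8130291) (nat_lit 1892526) (nat_lit 38940191) (nat_lit 12592012) [(nat_lit 0), (nat_lit 1892526), (nat_lit 6113974)]) (PF.cons (PF.leaf (nat_lit 8406915) (nat_lit 450756) (nat_lit 38552948) (nat_lit 12526080) [(nat_lit 450756), (nat_lit 1896210), (nat_lit 6097972)]) (PF.cons (PF.leaf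 (nat_lit 8687592) (nat_lit 454773) (nat_lit 38163798) (nat_lit 12458517) [(nat_lit 454773), (nat_lit 1899221), (nat_lit 6080842)]) (PF.cons PF.nil PF.nil)))) (PF.cons (PF.cons (PF.leaf (nat_lit 8923388) (nat_lit 1896082) (nat_lit 37381365) (nat_lit 12313850) [(nat_lit 0), (nat_lit 1896082), (nat_lit 6037102)]) (PF.cons PF.nil PF.nil)) (PF.cons PF.nil (PF.cons PF.nil (PF.cons PF.nil PF.nil)))))))))) (PF.cons (PF.cons (PF.cons
 (PF.leaf (nat_lit 5887071) (nat_lit 6140744) (nat_lit 41832106) (nat_lit 12995217) [(nat_lit 0), (nat_lit 0), (nat_lit 6140744)]) (PF.cons (PF.leaf (nat_lit 6116392) (nat_lit 386495) (nat_lit 41500506) (nat_lit 12948707) [(nat_lit 386495), (nat_lit 0), (nat_lit 6136551)]) (PF.cons (PF.leaf (nat_lit 6358315) (nat_lit 396798) (nat_lit 41154039) (nat_lit 12898986) [(nat_lit 396798), (nat_lit 0), (nat_lit 6131094)]) (PF.cons (PF.leaf (nat_lit 6609977) (nat_lit 405861) (nat_lit 40796119) (nat_lit 12846429) [(nat_lit 405861), (nat_lit 0), (nat_lit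 6124340)]) (PF.cons (PF.leaf (nat_lit 6869712) (nat_lit 413908) (nat_lit 40429311) (nat_lit 12791321) [(nat_lit 413908), (nat_lit 0), (nat_lit 6116273)]) (PF.cons (PF.leaf (nat_lit 7136201) (nat_lit 421099) (nat_lit 40055624) (nat_lit 12733898) [(nat_lit 421099), (nat_lit 0), (nat_lit 6106895)]) (PF.cons (PF.leaf (nat_lit 7408366) (nat_lit 427554) (nat_lit 39676684) (nat_lit 12674358) [(nat_lit 427554), (nat_lit 0), (nat_lit 6096221)]) (PF.cons (PF.leaf (nat_lit 7685287) (nat_lit 433364) (nat_lit 39293833) (nat_lit 12612879) [(nat_lit 433364), (nat_lit 0), (nat_lit 6084275)]) (PF.cons (PF.leaf (nat_lit 7966250) (nat_lit 438602) (nat_lit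
 38908203) (nat_lit 12549618) [(nat_lit 438602), (nat_lit 0), (nat_lit 6071086)]) (PF.cons PF.nil (PF.cons PF.nil (PF.cons PF.nil PF.nil)))))))))))) (PF.cons (PF.cons (PF.leaf (nat_lit 6630349) (nat_lit 1821447) (nat_lit 40309604) (nat_lit 12767414) [(nat_lit 0), (nat_lit 1821447), (nat_lit 6105173)]) (PF.cons (PF.leaf (nat_lit 6875890) (nat_lit 409086) (nat_lit 39962632) (nat_lit 12713829) [(nat_lit 409086), (nat_lit 1830483), (nat_lit 6096390)]) (PF.cons (PF.leaf (nat_lit 7130637) (nat_lit 416820) (nat_lit 39606160) (nat_lit 12657630) [(nat_lit 416820), (nat_lit 1838703), (nat_lit 6086338)]) (PF.cons (PF.leaf (nat_lit 7392471) (nat_lit 423677) (nat_lit 39242507) (nat_lit 12599112) [(nat_lit 423677), (nat_lit 1846089), (nat_lit 6075035)]) (PF.cons (PF.leaf (nat_lit 7660171) (nat_lit 429791) (nat_lit 38873474) (nat_lit 12538514) [(nat_lit 429791), (nat_lit 1852642), (nat_lit 6062507)]) (PF.cons (PF.leaf (nat_lit 7932740) (nat_lit 435264) (nat_lit 38500508) (nat_lit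 12476036) [(nat_lit 435264), (nat_lit 1858378), (nat_lit 6048784)]) (PF.cons (PF.leaf (nat_lit 8209347) (nat_lit 440171) (nat_lit 38124795) (nat_lit 12411856) [(nat_lit 440171), (nat_lit 1863320), (nat_lit 6033904)])
 (PF.cons PF.nil (PF.cons PF.nil (PF.cons PF.nil PF.nil)))))))))) (PF.cons (PF.cons (PF.leaf (nat_lit 7388418) (nat_lit 1843018) (nat_lit 38797304) (nat_lit 12520575) [(nat_lit 0), (nat_lit 1843018), (nat_lit 6052448)]) (PF.cons (PF.leaf (nat_lit 7644376) (nat_lit 425416) (nat_lit 38444911) (nat_lit 12461416) [(nat_lit 425416), (nat_lit 1849025), (nat_lit 6039508)]) (PF.cons (PF.leaf (nat_lit 7907097) (nat_lit 431275) (nat_lit 38086722) (nat_lit 12400162) [(nat_lit 431275), (nat_lit 1854292), (nat_lit 6025396)]) (PF.cons (PF.leaf (nat_lit 8174919) (nat_lit 436480) (nat_lit 37724363) (nat_lit 12337052) [(nat_lit 436480), (nat_lit 1858825), (nat_lit 6010152)]) (PF.cons (PF.leaf (nat_lit 8446908) (nat_lit 441117) (nat_lit 37359130) (nat_lit 12272288) [(nat_lit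 441117), (nat_lit 1862641), (nat_lit 5993821)]) (PF.cons (PF.leaf (nat_lit 8722346) (nat_lit 445255) (nat_lit 36992078) (nat_lit 12206042) [(nat_lit 445255), (nat_lit 1865760), (nat_lit 5976447)]) (PF.cons PF.nil (PF.cons PF.nil PF.nil)))))))) (PF.cons (PF.cons (PF.leaf (nat_lit 8150226) (nat_lit 1854055) (nat_lit 37316386) (nat_lit 12259723) [(nat_lit 0), (nat_lit 1854055), (nat_lit 5985267)]) (PF.cons (PF.leaf (nat_lit
 8412359) (nat_lit 437059) (nat_lit 36965354) (nat_lit 12196344) [(nat_lit 437059), (nat_lit 1857520), (nat_lit 5968745)]) (PF.cons (PF.leaf (nat_lit 8679400) (nat_lit 441485) (nat_lit 36611135) (nat_lit 12131321) [(nat_lit 441485), (nat_lit 1860335), (nat_lit 5951189)]) (PF.cons (PF.leaf (nat_lit 8950060) (nat_lit 445405) (nat_lit 36254893) (nat_lit 12064852) [(nat_lit 445405), (nat_lit 1862515), (nat_lit 5932651)]) (PF.cons PF.nil (PF.cons PF.nil PF.nil)))))) (PF.cons (PF.cons (PF.leaf (nat_lit 8907801) (nat_lit 1856576) (nat_lit 35880561) (nat_lit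 11989302) [(nat_lit 0), (nat_lit 1856576), (nat_lit 5906321)]) (PF.cons (PF.leaf (nat_lit 9172922) (nat_lit 445065) (nat_lit 35535518) (nat_lit 11922896) [(nat_lit 445065), (nat_lit 1857922), (nat_lit 5886821)]) (PF.cons PF.nil (PF.cons PF.nil PF.nil)))) (PF.cons (PF.cons (PF.leaf (nat_lit 9655388) (nat_lit 1852215) (nat_lit 34498396) (nat_lit 11713134) [(nat_lit 0), (nat_lit 1852215), (nat_lit 5818101)]) (PF.cons PF.nil PF.nil)) (PF.cons PF.nil (PF.cons PF.nil PF.nil)))))))) (PF.cons (PF.cons (PF.cons (PF.leaf (nat_lit 7447731) (nat_lit 5925110) (nat_lit 37147341) (nat_lit 12186139) [(nat_lit 0), (nat_lit 0), (nat_lit 5925110)])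
 (PF.cons (PF.leaf (nat_lit 7686388) (nat_lit 408886) (nat_lit 36834227) (nat_lit 12130266) [(nat_lit 408886), (nat_lit 0), (nat_lit 5911810)]) (PF.cons (PF.leaf (nat_lit 7933385) (nat_lit 415699) (nat_lit 36513194) (nat_lit 12072086) [(nat_lit 415699), (nat_lit 0), (nat_lit 5897377)]) (PF.cons (PF.leaf (nat_lit 8186641) (nat_lit 421658) (nat_lit 36186306) (nat_lit 12011925) [(nat_lit 421658), (nat_lit 0), (nat_lit 5881868)]) (PF.cons (PF.leaf (nat_lit 8444995) (nat_lit 426903) (nat_lit 35855147) (nat_lit 11950036) [(nat_lit 426903), (nat_lit 0), (nat_lit 5865338)]) (PF.cons (PF.leaf (nat_lit 8707518) (nat_lit 431537) (nat_lit 35520978) (nat_lit 11886630) [(nat_lit 431537), (nat_lit 0), (nat_lit 5847838)]) (PF.cons (PF.leaf (nat_lit 8973468) (nat_lit 435642) (nat_lit 35184822) (nat_lit 11821887) [(nat_lit 435642), (nat_lit 0), (nat_lit 5829416)]) (PF.cons PF.nil PF.nil)))))))) (PF.cons (PF.cons (PF.leaf (nat_lit 8170394) (nat_lit 1813927) (nat_lit 35793544) (nat_lit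 11933845) [(nat_lit 0), (nat_lit 1813927), (nat_lit 5855831)]) (PF.cons (PF.leaf (nat_lit 8417597) (nat_lit 422040) (nat_lit 35477498) (nat_lit 11873811) [(nat_lit 422040), (nat_lit 1817449), (nat_lit 5839337)])
 (PF.cons (PF.leaf (nat_lit 8670851) (nat_lit 427112) (nat_lit 35156713) (nat_lit 11812005) [(nat_lit 427112), (nat_lit 1820321), (nat_lit 5821849)]) (PF.cons (PF.leaf (nat_lit 8928551) (nat_lit 431558) (nat_lit 34832615) (nat_lit 11748675) [(nat_lit 431558), (nat_lit 1822559), (nat_lit 5803429)]) (PF.cons (PF.leaf (nat_lit 9189869) (nat_lit 435467) (nat_lit 34506330) (nat_lit 11684024) [(nat_lit 435467), (nat_lit 1824186), (nat_lit 5784133)]) (PF.cons PF.nil PF.nil)))))) (PF.cons (PF.cons (PF.leaf (nat_lit 8893541) (nat_lit 1816255) (nat_lit 34473638) (nat_lit 11673253) [(nat_lit 0), (nat_lit 1816255), (nat_lit 5776469)]) (PF.cons (PF.leaf (nat_lit 9145551) (nat_lit 431081) (nat_lit 34160102) (nat_lit 11610275) [(nat_lit 431081), (nat_lit 1817705), (nat_lit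 5757314)]) (PF.cons (PF.leaf (nat_lit 9401964) (nat_lit 434847) (nat_lit 33844026) (nat_lit 11545957) [(nat_lit 434847), (nat_lit 1818596), (nat_lit 5737313)]) (PF.cons PF.nil PF.nil)))) (PF.cons (PF.cons (PF.leaf (nat_lit 9610695) (nat_lit 1811982) (nat_lit 33197494) (nat_lit 11407888) [(nat_lit 0), (nat_lit 1811982), (nat_lit 5689160)]) (PF.cons (PF.leaf (nat_lit 9864798) (nat_lit 436985) (nat_lit 32890095) (nat_lit 11342976)
 [(nat_lit 436985), (nat_lit 1811728), (nat_lit 5667856)]) PF.nil)) (PF.cons PF.nil (PF.cons PF.nil PF.nil)))))) (PF.cons (PF.cons (PF.cons (PF.leaf (nat_lit 8883472) (nat_lit 5648062) (nat_lit 33150724) (nat_lit 11365838) [(nat_lit 0), (nat_lit 0), (nat_lit 5648062)]) (PF.cons (PF.leaf (nat_lit 9121817) (nat_lit 416049) (nat_lit 32867603) (nat_lit 11306768) [(nat_lit 416049), (nat_lit 0), (nat_lit 5629597)]) (PF.cons (PF.leaf (nat_lit 9365704) (nat_lit 420492) (nat_lit 32580515) (nat_lit 11246184) [(nat_lit 420492), (nat_lit 0), (nat_lit 5610281)])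 (PF.cons (PF.leaf (nat_lit 9613531) (nat_lit 424340) (nat_lit 32290710) (nat_lit 11184329) [(nat_lit 424340), (nat_lit 0), (nat_lit 5590187)]) (PF.cons PF.nil (PF.cons PF.nil PF.nil)))))) (PF.cons (PF.cons (PF.leaf (nat_lit 9570676) (nat_lit 1771609) (nat_lit 31974370) (nat_lit 11112327) [(nat_lit 0), (nat_lit 1771609), (nat_lit 5562626)]) (PF.cons (PF.leaf (nat_lit 9812905) (nat_lit 423139) (nat_lit 31694184) (nat_lit 11051196) [(nat_lit 423139), (nat_lit 1771652), (nat_lit 5542159)]) (PF.cons (PF.leaf (nat_lit 10059138) (nat_lit 426389) (nat_lit 31411903) (nat_lit 10988954) [(nat_lit 426389), (nat_lit 1771210), (nat_lit 5520991)])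
 (PF.cons PF.nil PF.nil)))) (PF.cons (PF.cons (PF.leaf (nat_lit 10251025) (nat_lit 1762815) (nat_lit 30838609) (nat_lit 10857118) [(nat_lit 0), (nat_lit 1762815), (nat_lit 5471863)]) (PF.cons PF.nil PF.nil)) (PF.cons PF.nil PF.nil)))) (PF.cons (PF.cons (PF.cons (PF.leaf (nat_lit 10191650) (nat_lit 5350988) (nat_lit 29770539) (nat_lit 10583332) [(nat_lit 0), (nat_lit 0), (nat_lit 5350988)]) (PF.cons (PF.leaf (nat_lit 10424558) (nat_lit 414034) (nat_lit 29519653) (nat_lit 10524830) [(nat_lit 414034), (nat_lit 0), (nat_lit 5330058)]) PF.nil)) (PF.cons PF.nil PF.nil)) (PF.cons PF.nil (PF.cons PF.nil (PF.cons PF.nil (PF.cons PF.nil PF.nil))))))))))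

def p13_17_2_0 : pfC (piC [(nat_lit 40745421), (nat_lit 25257288), (nat_lit 16296408)] (nat_lit 7298113)) p13_17_2 (nat_lit 3) (nat_lit 0) (nat_lit 1) = true := by decide +kernel
def p13_17_2_1 : pfC (piC [(nat_lit 40745421), (nat_lit 25257288), (nat_lit 16296408)] (nat_lit 7298113)) p13_17_2 (nat_lit 3) (nat_lit 1) (nat_lit 2) = true := by decide +kernel
def p13_17_2_2 : pfC (piC [(nat_lit 40745421), (nat_lit 25257288), (nat_lit 16296408)] (nat_lit 7298113)) p13_17_2 (nat_lit 3) (nat_lit 2) (nat_lit 3) = true := by decide +kernel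
def p13_17_2_3 : pfC (piC [(nat_lit 40745421), (nat_lit 25257288), (nat_lit 16296408)] (nat_lit 7298113)) p13_17_2 (nat_lit 3) (nat_lit 3) (nat_lit 4) = true := by decide +kernel
def p13_17_2_4 : pfC (piC [(nat_lit 40745421), (nat_lit 25257288), (nat_lit 16296408)] (nat_lit 7298113)) p13_17_2 (nat_lit 3) (nat_lit 4) (nat_lit 5) = true := by decide +kernel
def p13_17_2_5 : pfC (piC [(nat_lit 40745421), (nat_lit 25257288), (nat_lit 16296408)] (nat_lit 7298113)) p13_17_2 (nat_lit 3) (nat_lit 5) (nat_lit 6) = true := by decide +kernel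
def p13_17_2_6 : pfC (piC [(nat_lit 40745421), (nat_lit 25257288), (nat_lit 16296408)] (nat_lit 7298113)) p13_17_2 (nat_lit 3) (nat_lit 6) (nat_lit 7) = true := by decide +kernel
def p13_17_2_7 : pfC (piC [(nat_lit 40745421), (nat_lit 25257288), (nat_lit 16296408)] (nat_lit 7298113)) p13_17_2 (nat_lit 3) (nat_lit 7) (nat_lit 8) = true := by decide +kernel
def p13_17_2_8 : pfC (piC [(nat_lit 40745421), (nat_lit 25257288), (nat_lit 16296408)] (nat_lit 7298113)) p13_17_2 (nat_lit 3) (nat_lit 8) (nat_lit 9) = true := by decide +kernel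
def p13_17_2_9 : pfC (piC [(nat_lit 40745421), (nat_lit 25257288), (nat_lit 16296408)] (nat_lit 7298113)) p13_17_2 (nat_lit 3) (nat_lit 9) (nat_lit 10) = true := by decide +kernel
def p13_17_2_10 : pfC (piC [(nat_lit 40745421), (nat_lit 25257288), (nat_lit 16296408)] (nat_lit 7298113)) p13_17_2 (nat_lit 3) (nat_lit 10) (nat_lit 11) = true := by decide +kernel
def p13_17_2_11 : pfC (piC [(nat_lit 40745421), (nat_lit 25257288), (nat_lit 16296408)] (nat_lit 7298113)) p13_17_2 (nat_lit 3) (nat_lit 11) (nat_lit 12) = true := by decide +kernel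
def p13_17_2_12 : pfC (piC [(nat_lit 40745421), (nat_lit 25257288), (nat_lit 16296408)] (nat_lit 7298113)) p13_17_2 (nat_lit 3) (nat_lit 12) (nat_lit 13) = true := by decide +kernel
def p13_17_2_13 : pfC (piC [(nat_lit 40745421), (nat_lit 25257288), (nat_lit 16296408)] (nat_lit 7298113)) p13_17_2 (nat_lit 3) (nat_lit 13) (nat_lit 14) = true := by decide +kernel
def p13_17_2_14 : pfC (piC [(nat_lit 40745421), (nat_lit 25257288), (nat_lit 16296408)] (nat_lit 7298113)) p13_17_2 (nat_lit 3) (nat_lit 14) (nat_lit 15) = true := by decide +kernel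
def p13_17_2_15 : pfC (piC [(nat_lit 40745421), (nat_lit 25257288), (nat_lit 16296408)] (nat_lit 7298113)) p13_17_2 (nat_lit 3) (nat_lit 15) (nat_lit 16) = true := by decide +kernel
def p13_17_2_16 : pfC (piC [(nat_lit 40745421), (nat_lit 25257288), (nat_lit 16296408)] (nat_lit 7298113)) p13_17_2 (nat_lit 3) (nat_lit 16) (nat_lit 17) = true := by decide +kernel
def p13_17_2_17 : pfC (piC [(nat_lit 40745421), (nat_lit 25257288), (nat_lit 16296408)] (nat_lit 7298113)) p13_17_2 (nat_lit 3) (nat_lit 17) (nat_lit 18) = true := by decide +kernel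
def p13_17_2_18 : pfC (piC [(nat_lit 40745421), (nat_lit 25257288), (nat_lit 16296408)] (nat_lit 7298113)) p13_17_2 (nat_lit 3) (nat_lit 18) (nat_lit 19) = true := by decide +kernel
def p13_17_2_19 : pfC (piC [(nat_lit 40745421), (nat_lit 25257288), (nat_lit 16296408)] (nat_lit 7298113)) p13_17_2 (nat_lit 3) (nat_lit 19) (nat_lit 20) = true := by decide +kernel
def p13_17_2_20 : pfC (piC [(nat_lit 40745421), (nat_lit 25257288), (nat_lit 16296408)] (nat_lit 7298113)) p13_17_2 (nat_lit 3) (nat_lit 20) (nat_lit 21) = true := by decide +kernel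
def p13_17_2_21 : pfC (piC [(nat_lit 40745421), (nat_lit 25257288), (nat_lit 16296408)] (nat_lit 7298113)) p13_17_2 (nat_lit 3) (nat_lit 21) (nat_lit 22) = true := by decide +kernel
def p13_17_2_22 : pfC (piC [(nat_lit 40745421), (nat_lit 25257288), (nat_lit 16296408)] (nat_lit 7298113)) p13_17_2 (nat_lit 3) (nat_lit 22) (nat_lit 23) = true := by decide +kernel
def p13_17_2_23 : pfC (piC [(nat_lit 40745421), (nat_lit 25257288), (nat_lit 16296408)] (nat_lit 7298113)) p13_17_2 (nat_lit 3) (nat_lit 23) (nat_lit 24) = true := by decide +kernel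
def p13_17_2_24 : pfC (piC [(nat_lit 40745421), (nat_lit 25257288), (nat_lit 16296408)] (nat_lit 7298113)) p13_17_2 (nat_lit 3) (nat_lit 24) (nat_lit 25) = true := by decide +kernel
def p13_17_2_25 : pfC (piC [(nat_lit 40745421), (nat_lit 25257288), (nat_lit 16296408)] (nat_lit 7298113)) p13_17_2 (nat_lit 3) (nat_lit 25) (nat_lit 26) = true := by decide +kernel
def p13_17_2_26 : pfC (piC [(nat_lit 40745421), (nat_lit 25257288), (nat_lit 16296408)] (nat_lit 7298113)) p13_17_2 (nat_lit 3) (nat_lit 26) (nat_lit 27) = true := by decide +kernel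
def p13_17_2_27 : pfC (piC [(nat_lit 40745421), (nat_lit 25257288), (nat_lit 16296408)] (nat_lit 7298113)) p13_17_2 (nat_lit 3) (nat_lit 27) (nat_lit 28) = true := by decide +kernel
def p13_17_2_28 : pfC (piC [(nat_lit 40745421), (nat_lit 25257288), (nat_lit 16296408)] (nat_lit 7298113)) p13_17_2 (nat_lit 3) (nat_lit 28) (nat_lit 29) = true := by decide +kernel
def p13_17_2_29 : pfC (piC [(nat_lit 40745421), (nat_lit 25257288), (nat_lit 16296408)] (nat_lit 7298113)) p13_17_2 (nat_lit 3) (nat_lit 29) (nat_lit 30) = true := by decide +kernel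
def p13_17_2_30 : pfC (piC [(nat_lit 40745421), (nat_lit 25257288), (nat_lit 16296408)] (nat_lit 7298113)) p13_17_2 (nat_lit 3) (nat_lit 30) (nat_lit 31) = true := by decide +kernel
def p13_17_2_31 : pfC (piC [(nat_lit 40745421), (nat_lit 25257288), (nat_lit 16296408)] (nat_lit 7298113)) p13_17_2 (nat_lit 3) (nat_lit 31) (nat_lit 32) = true := by decide +kernel
def p13_17_2_32 : pfC (piC [(nat_lit 40745421), (nat_lit 25257288), (nat_lit 16296408)] (nat_lit 7298113)) p13_17_2 (nat_lit 3) (nat_lit 32) (nat_lit 33) = true := by decide +kernel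
def p13_17_2_33 : pfC (piC [(nat_lit 40745421), (nat_lit 25257288), (nat_lit 16296408)] (nat_lit 7298113)) p13_17_2 (nat_lit 3) (nat_lit 33) (nat_lit 34) = true := by decide +kernel
def p13_17_2_34 : pfC (piC [(nat_lit 40745421), (nat_lit 25257288), (nat_lit 16296408)] (nat_lit 7298113)) p13_17_2 (nat_lit 3) (nat_lit 34) (nat_lit 35) = true := by decide +kernel
def p13_17_2_35 : pfC (piC [(nat_lit 40745421), (nat_lit 25257288), (nat_lit 16296408)] (nat_lit 7298113)) p13_17_2 (nat_lit 3) (nat_lit 35) (nat_lit 36) = true := by decide +kernel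
def p13_17_2_36 : pfC (piC [(nat_lit 40745421), (nat_lit 25257288), (nat_lit 16296408)] (nat_lit 7298113)) p13_17_2 (nat_lit 3) (nat_lit 36) (nat_lit 37) = true := by decide +kernel
def p13_17_2_37 : pfC (piC [(nat_lit 40745421), (nat_lit 25257288), (nat_lit 16296408)] (nat_lit 7298113)) p13_17_2 (nat_lit 3) (nat_lit 37) (nat_lit 38) = true := by decide +kernel
def p13_17_2_38 : pfC (piC [(nat_lit 40745421), (nat_lit 25257288), (nat_lit 16296408)] (nat_lit 7298113)) p13_17_2 (nat_lit 3) (nat_lit 38) (nat_lit 39) = true := by decide +kernel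
def p13_17_2_39 : pfC (piC [(nat_lit 40745421), (nat_lit 25257288), (nat_lit 16296408)] (nat_lit 7298113)) p13_17_2 (nat_lit 3) (nat_lit 39) (nat_lit 40) = true := by decide +kernel
def p13_17_2_40 : pfC (piC [(nat_lit 40745421), (nat_lit 25257288), (nat_lit 16296408)] (nat_lit 7298113)) p13_17_2 (nat_lit 3) (nat_lit 40) (nat_lit 41) = true := by decide +kernel
def p13_17_2_41 : pfC (piC [(nat_lit 40745421), (nat_lit 25257288), (nat_lit 16296408)] (nat_lit 7298113)) p13_17_2 (nat_lit 3) (nat_lit 41) (nat_lit 42) = true := by decide +kernel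
def p13_17_2_42 : pfC (piC [(nat_lit 40745421), (nat_lit 25257288), (nat_lit 16296408)] (nat_lit 7298113)) p13_17_2 (nat_lit 3) (nat_lit 42) (nat_lit 43) = true := by decide +kernel
def p13_17_2_43 : pfC (piC [(nat_lit 40745421), (nat_lit 25257288), (nat_lit 16296408)] (nat_lit 7298113)) p13_17_2 (nat_lit 3) (nat_lit 43) (nat_lit 44) = true := by decide +kernel
def p13_17_2_44 : pfC (piC [(nat_lit 40745421), (nat_lit 25257288), (nat_lit 16296408)] (nat_lit 7298113)) p13_17_2 (nat_lit 3) (nat_lit 44) (nat_lit 45) = true := by decide +kernel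
def p13_17_2_45 : pfC (piC [(nat_lit 40745421), (nat_lit 25257288), (nat_lit 16296408)] (nat_lit 7298113)) p13_17_2 (nat_lit 3) (nat_lit 45) (nat_lit 46) = true := by decide +kernel
def p13_17_2_46 : pfC (piC [(nat_lit 40745421), (nat_lit 25257288), (nat_lit 16296408)] (nat_lit 7298113)) p13_17_2 (nat_lit 3) (nat_lit 46) (nat_lit 47) = true := by decide +kernel
def p13_17_2_47 : pfC (piC [(nat_lit 40745421), (nat_lit 25257288), (nat_lit 16296408)] (nat_lit 7298113)) p13_17_2 (nat_lit 3) (nat_lit 47) (nat_lit 48) = true := by decide +kernel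
def p13_17_2_48 : pfC (piC [(nat_lit 40745421), (nat_lit 25257288), (nat_lit 16296408)] (nat_lit 7298113)) p13_17_2 (nat_lit 3) (nat_lit 48) (nat_lit 49) = true := by decide +kernel
def p13_17_2_49 : pfC (piC [(nat_lit 40745421), (nat_lit 25257288), (nat_lit 16296408)] (nat_lit 7298113)) p13_17_2 (nat_lit 3) (nat_lit 49) (nat_lit 50) = true := by decide +kernel
def p13_17_2_50 : pfC (piC [(nat_lit 40745421), (nat_lit 25257288), (nat_lit 16296408)] (nat_lit 7298113)) p13_17_2 (nat_lit 3) (nat_lit 50) (nat_lit 51) = true := by decide +kernel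
def p13_17_2_51 : pfC (piC [(nat_lit 40745421), (nat_lit 25257288), (nat_lit 16296408)] (nat_lit 7298113)) p13_17_2 (nat_lit 3) (nat_lit 51) (nat_lit 52) = true := by decide +kernel
def p13_17_2_52 : pfC (piC [(nat_lit 40745421), (nat_lit 25257288), (nat_lit 16296408)] (nat_lit 7298113)) p13_17_2 (nat_lit 3) (nat_lit 52) (nat_lit 53) = true := by decide +kernel
def p13_17_2_53 : pfC (piC [(nat_lit 40745421), (nat_lit 25257288), (nat_lit 16296408)] (nat_lit 7298113)) p13_17_2 (nat_lit 3) (nat_lit 53) (nat_lit 54) = true := by decide +kernel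
def p13_17_2_54 : pfC (piC [(nat_lit 40745421), (nat_lit 25257288), (nat_lit 16296408)] (nat_lit 7298113)) p13_17_2 (nat_lit 3) (nat_lit 54) (nat_lit 55) = true := by decide +kernel
def p13_17_2_55 : pfC (piC [(nat_lit 40745421), (nat_lit 25257288), (nat_lit 16296408)] (nat_lit 7298113)) p13_17_2 (nat_lit 3) (nat_lit 55) (nat_lit 56) = true := by decide +kernel
def p13_17_2_56 : pfC (piC [(nat_lit 40745421), (nat_lit 25257288), (nat_lit 16296408)] (nat_lit 7298113)) p13_17_2 (nat_lit 3) (nat_lit 56) (nat_lit 57) = true := by decide +kernel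
def p13_17_2_57 : pfC (piC [(nat_lit 40745421), (nat_lit 25257288), (nat_lit 16296408)] (nat_lit 7298113)) p13_17_2 (nat_lit 3) (nat_lit 57) (nat_lit 58) = true := by decide +kernel
def p13_17_2_58 : pfC (piC [(nat_lit 40745421), (nat_lit 25257288), (nat_lit 16296408)] (nat_lit 7298113)) p13_17_2 (nat_lit 3) (nat_lit 58) (nat_lit 59) = true := by decide +kernel
def p13_17_2_59 : pfC (piC [(nat_lit 40745421), (nat_lit 25257288), (nat_lit 16296408)] (nat_lit 7298113)) p13_17_2 (nat_lit 3) (nat_lit 59) (nat_lit 60) = true := by decide +kernel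
def p13_17_2_60 : pfC (piC [(nat_lit 40745421), (nat_lit 25257288), (nat_lit 16296408)] (nat_lit 7298113)) p13_17_2 (nat_lit 3) (nat_lit 60) (nat_lit 61) = true := by decide +kernel
def p13_17_2_61 : pfC (piC [(nat_lit 40745421), (nat_lit 25257288), (nat_lit 16296408)] (nat_lit 7298113)) p13_17_2 (nat_lit 3) (nat_lit 61) (nat_lit 62) = true := by decide +kernel
def p13_17_2_62 : pfC (piC [(nat_lit 40745421), (nat_lit 25257288), (nat_lit 16296408)] (nat_lit 7298113)) p13_17_2 (nat_lit 3) (nat_lit 62) (nat_lit 63) = true := by decide +kernel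
def p13_17_2_63 : pfC (piC [(nat_lit 40745421), (nat_lit 25257288), (nat_lit 16296408)] (nat_lit 7298113)) p13_17_2 (nat_lit 3) (nat_lit 63) (nat_lit 64) = true := by decide +kernel
def p13_17_2_64 : pfC (piC [(nat_lit 40745421), (nat_lit 25257288), (nat_lit 16296408)] (nat_lit 7298113)) p13_17_2 (nat_lit 3) (nat_lit 64) (nat_lit 65) = true := by decide +kernel
def p13_17_2_65 : pfC (piC [(nat_lit 40745421), (nat_lit 25257288), (nat_lit 16296408)] (nat_lit 7298113)) p13_17_2 (nat_lit 3) (nat_lit 65) (nat_lit 66) = true := by decide +kernel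
def p13_17_2_66 : pfC (piC [(nat_lit 40745421), (nat_lit 25257288), (nat_lit 16296408)] (nat_lit 7298113)) p13_17_2 (nat_lit 3) (nat_lit 66) (nat_lit 67) = true := by decide +kernel
def p13_17_2_67 : pfC (piC [(nat_lit 40745421), (nat_lit 25257288), (nat_lit 16296408)] (nat_lit 7298113)) p13_17_2 (nat_lit 3) (nat_lit 67) (nat_lit 68) = true := by decide +kernel
def p13_17_2_68 : pfC (piC [(nat_lit 40745421), (nat_lit 25257288), (nat_lit 16296408)] (nat_lit 7298113)) p13_17_2 (nat_lit 3) (nat_lit 68) (nat_lit 69) = true := by decide +kernel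
def p13_17_2_69 : pfC (piC [(nat_lit 40745421), (nat_lit 25257288), (nat_lit 16296408)] (nat_lit 7298113)) p13_17_2 (nat_lit 3) (nat_lit 69) (nat_lit 70) = true := by decide +kernel
def p13_17_2_70 : pfC (piC [(nat_lit 40745421), (nat_lit 25257288), (nat_lit 16296408)] (nat_lit 7298113)) p13_17_2 (nat_lit 3) (nat_lit 70) (nat_lit 71) = true := by decide +kernel
def p13_17_2_71 : pfC (piC [(nat_lit 40745421), (nat_lit 25257288), (nat_lit 16296408)] (nat_lit 7298113)) p13_17_2 (nat_lit 3) (nat_lit 71) (nat_lit 72) = true := by decide +kernel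
def p13_17_2_72 : pfC (piC [(nat_lit 40745421), (nat_lit 25257288), (nat_lit 16296408)] (nat_lit 7298113)) p13_17_2 (nat_lit 3) (nat_lit 72) (nat_lit 73) = true := by decide +kernel
def p13_17_2_73 : pfC (piC [(nat_lit 40745421), (nat_lit 25257288), (nat_lit 16296408)] (nat_lit 7298113)) p13_17_2 (nat_lit 3) (nat_lit 73) (nat_lit 74) = true := by decide +kernel
def p13_17_2_74 : pfC (piC [(nat_lit 40745421), (nat_lit 25257288), (nat_lit 16296408)] (nat_lit 7298113)) p13_17_2 (nat_lit 3) (nat_lit 74) (nat_lit 75) = true := by decide +kernel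
def p13_17_2_75 : pfC (piC [(nat_lit 40745421), (nat_lit 25257288), (nat_lit 16296408)] (nat_lit 7298113)) p13_17_2 (nat_lit 3) (nat_lit 75) (nat_lit 76) = true := by decide +kernel
def p13_17_2_76 : pfC (piC [(nat_lit 40745421), (nat_lit 25257288), (nat_lit 16296408)] (nat_lit 7298113)) p13_17_2 (nat_lit 3) (nat_lit 76) (nat_lit 77) = true := by decide +kernel
def p13_17_2_77 : pfC (piC [(nat_lit 40745421), (nat_lit 25257288), (nat_lit 16296408)] (nat_lit 7298113)) p13_17_2 (nat_lit 3) (nat_lit 77) (nat_lit 78) = true := by decide +kernel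
def p13_17_2_78 : pfC (piC [(nat_lit 40745421), (nat_lit 25257288), (nat_lit 16296408)] (nat_lit 7298113)) p13_17_2 (nat_lit 3) (nat_lit 78) (nat_lit 79) = true := by decide +kernel
def p13_17_2_79 : pfC (piC [(nat_lit 40745421), (nat_lit 25257288), (nat_lit 16296408)] (nat_lit 7298113)) p13_17_2 (nat_lit 3) (nat_lit 79) (nat_lit 80) = true := by decide +kernel
def p13_17_2_80 : pfC (piC [(nat_lit 40745421), (nat_lit 25257288), (nat_lit 16296408)] (nat_lit 7298113)) p13_17_2 (nat_lit 3) (nat_lit 80) (nat_lit 81) = true := by decide +kernel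
def p13_17_2_81 : pfC (piC [(nat_lit 40745421), (nat_lit 25257288), (nat_lit 16296408)] (nat_lit 7298113)) p13_17_2 (nat_lit 3) (nat_lit 81) (nat_lit 82) = true := by decide +kernel
def p13_17_2_82 : pfC (piC [(nat_lit 40745421), (nat_lit 25257288), (nat_lit 16296408)] (nat_lit 7298113)) p13_17_2 (nat_lit 3) (nat_lit 82) (nat_lit 83) = true := by decide +kernel
def p13_17_2_83 : pfC (piC [(nat_lit 40745421), (nat_lit 25257288), (nat_lit 16296408)] (nat_lit 7298113)) p13_17_2 (nat_lit 3) (nat_lit 83) (nat_lit 84) = true := by decide +kernel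
def p13_17_2_84 : pfC (piC [(nat_lit 40745421), (nat_lit 25257288), (nat_lit 16296408)] (nat_lit 7298113)) p13_17_2 (nat_lit 3) (nat_lit 84) (nat_lit 85) = true := by decide +kernel
def p13_17_2_85 : pfC (piC [(nat_lit 40745421), (nat_lit 25257288), (nat_lit 16296408)] (nat_lit 7298113)) p13_17_2 (nat_lit 3) (nat_lit 85) (nat_lit 86) = true := by decide +kernel
def p13_17_2_86 : pfC (piC [(nat_lit 40745421), (nat_lit 25257288), (nat_lit 16296408)] (nat_lit 7298113)) p13_17_2 (nat_lit 3) (nat_lit 86) (nat_lit 87) = true := by decide +kernel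
def p13_17_2_87 : pfC (piC [(nat_lit 40745421), (nat_lit 25257288), (nat_lit 16296408)] (nat_lit 7298113)) p13_17_2 (nat_lit 3) (nat_lit 87) (nat_lit 88) = true := by decide +kernel
def p13_17_2_88 : pfC (piC [(nat_lit 40745421), (nat_lit 25257288), (nat_lit 16296408)] (nat_lit 7298113)) p13_17_2 (nat_lit 3) (nat_lit 88) (nat_lit 89) = true := by decide +kernel
def p13_17_2_89 : pfC (piC [(nat_lit 40745421), (nat_lit 25257288), (nat_lit 16296408)] (nat_lit 7298113)) p13_17_2 (nat_lit 3) (nat_lit 89) (nat_lit 90) = true := by decide +kernel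
def p13_17_2_90 : pfC (piC [(nat_lit 40745421), (nat_lit 25257288), (nat_lit 16296408)] (nat_lit 7298113)) p13_17_2 (nat_lit 3) (nat_lit 90) (nat_lit 91) = true := by decide +kernel
def p13_17_2_91 : pfC (piC [(nat_lit 40745421), (nat_lit 25257288), (nat_lit 16296408)] (nat_lit 7298113)) p13_17_2 (nat_lit 3) (nat_lit 91) (nat_lit 92) = true := by decide +kernel
def p13_17_2_92 : pfC (piC [(nat_lit 40745421), (nat_lit 25257288), (nat_lit 16296408)] (nat_lit 7298113)) p13_17_2 (nat_lit 3) (nat_lit 92) (nat_lit 93) = true := by decide +kernel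
def p13_17_2_93 : pfC (piC [(nat_lit 40745421), (nat_lit 25257288), (nat_lit 16296408)] (nat_lit 7298113)) p13_17_2 (nat_lit 3) (nat_lit 93) (nat_lit 94) = true := by decide +kernel
def p13_17_2_94 : pfC (piC [(nat_lit 40745421), (nat_lit 25257288), (nat_lit 16296408)] (nat_lit 7298113)) p13_17_2 (nat_lit 3) (nat_lit 94) (nat_lit 95) = true := by decide +kernel
def p13_17_2_95 : pfC (piC [(nat_lit 40745421), (nat_lit 25257288), (nat_lit 16296408)] (nat_lit 7298113)) p13_17_2 (nat_lit 3) (nat_lit 95) (nat_lit 96) = true := by decide +kernel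
def p13_17_2_96 : pfC (piC [(nat_lit 40745421), (nat_lit 25257288), (nat_lit 16296408)] (nat_lit 7298113)) p13_17_2 (nat_lit 3) (nat_lit 96) (nat_lit 97) = true := by decide +kernel
def p13_17_2_97 : pfC (piC [(nat_lit 40745421), (nat_lit 25257288), (nat_lit 16296408)] (nat_lit 7298113)) p13_17_2 (nat_lit 3) (nat_lit 97) (nat_lit 98) = true := by decide +kernel
def p13_17_2_98 : pfC (piC [(nat_lit 40745421), (nat_lit 25257288), (nat_lit 16296408)] (nat_lit 7298113)) p13_17_2 (nat_lit 3) (nat_lit 98) (nat_lit 99) = true := by decide +kernel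
def p13_17_2_99 : pfC (piC [(nat_lit 40745421), (nat_lit 25257288), (nat_lit 16296408)] (nat_lit 7298113)) p13_17_2 (nat_lit 3) (nat_lit 99) (nat_lit 100) = true := by decide +kernel
def p13_17_2_100 : pfC (piC [(nat_lit 40745421), (nat_lit 25257288), (nat_lit 16296408)] (nat_lit 7298113)) p13_17_2 (nat_lit 3) (nat_lit 100) (nat_lit 101) = true := by decide +kernel
def p13_17_2_101 : pfC (piC [(nat_lit 40745421), (nat_lit 25257288), (nat_lit 16296408)] (nat_lit 7298113)) p13_17_2 (nat_lit 3) (nat_lit 101) (nat_lit 102) = true := by decide +kernel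
def p13_17_2_102 : pfC (piC [(nat_lit 40745421), (nat_lit 25257288), (nat_lit 16296408)] (nat_lit 7298113)) p13_17_2 (nat_lit 3) (nat_lit 102) (nat_lit 103) = true := by decide +kernel
def p13_17_2_103 : pfC (piC [(nat_lit 40745421), (nat_lit 25257288), (nat_lit 16296408)] (nat_lit 7298113)) p13_17_2 (nat_lit 3) (nat_lit 103) (nat_lit 104) = true := by decide +kernel
def p13_17_2_104 : pfC (piC [(nat_lit 40745421), (nat_lit 25257288), (nat_lit 16296408)] (nat_lit 7298113)) p13_17_2 (nat_lit 3) (nat_lit 104) (nat_lit 105) = true := by decide +kernel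
def p13_17_2_105 : pfC (piC [(nat_lit 40745421), (nat_lit 25257288), (nat_lit 16296408)] (nat_lit 7298113)) p13_17_2 (nat_lit 3) (nat_lit 105) (nat_lit 106) = true := by decide +kernel
def p13_17_2_106 : pfC (piC [(nat_lit 40745421), (nat_lit 25257288), (nat_lit 16296408)] (nat_lit 7298113)) p13_17_2 (nat_lit 3) (nat_lit 106) (nat_lit 107) = true := by decide +kernel
def p13_17_2_107 : pfC (piC [(nat_lit 40745421), (nat_lit 25257288), (nat_lit 16296408)] (nat_lit 7298113)) p13_17_2 (nat_lit 3) (nat_lit 107) (nat_lit 108) = true := by decide +kernel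
def p13_17_2_108 : pfC (piC [(nat_lit 40745421), (nat_lit 25257288), (nat_lit 16296408)] (nat_lit 7298113)) p13_17_2 (nat_lit 3) (nat_lit 108) (nat_lit 109) = true := by decide +kernel
def p13_17_2_109 : pfC (piC [(nat_lit 40745421), (nat_lit 25257288), (nat_lit 16296408)] (nat_lit 7298113)) p13_17_2 (nat_lit 3) (nat_lit 109) (nat_lit 110) = true := by decide +kernel
def p13_17_2_110 : pfC (piC [(nat_lit 40745421), (nat_lit 25257288), (nat_lit 16296408)] (nat_lit 7298113)) p13_17_2 (nat_lit 3) (nat_lit 110) (nat_lit 111) = true := by decide +kernel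
def p13_17_2_111 : pfC (piC [(nat_lit 40745421), (nat_lit 25257288), (nat_lit 16296408)] (nat_lit 7298113)) p13_17_2 (nat_lit 3) (nat_lit 111) (nat_lit 112) = true := by decide +kernel
def p13_17_2_112 : pfC (piC [(nat_lit 40745421), (nat_lit 25257288), (nat_lit 16296408)] (nat_lit 7298113)) p13_17_2 (nat_lit 3) (nat_lit 112) (nat_lit 113) = true := by decide +kernel
def p13_17_2_113 : pfC (piC [(nat_lit 40745421), (nat_lit 25257288), (nat_lit 16296408)] (nat_lit 7298113)) p13_17_2 (nat_lit 3) (nat_lit 113) (nat_lit 114) = true := by decide +kernel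
def p13_17_2_114 : pfC (piC [(nat_lit 40745421), (nat_lit 25257288), (nat_lit 16296408)] (nat_lit 7298113)) p13_17_2 (nat_lit 3) (nat_lit 114) (nat_lit 115) = true := by decide +kernel
def p13_17_2_115 : pfC (piC [(nat_lit 40745421), (nat_lit 25257288), (nat_lit 16296408)] (nat_lit 7298113)) p13_17_2 (nat_lit 3) (nat_lit 115) (nat_lit 116) = true := by decide +kernel
def p13_17_2_116 : pfC (piC [(nat_lit 40745421), (nat_lit 25257288), (nat_lit 16296408)] (nat_lit 7298113)) p13_17_2 (nat_lit 3) (nat_lit 116) (nat_lit 117) = true := by decide +kernel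
def p13_17_2_117 : pfC (piC [(nat_lit 40745421), (nat_lit 25257288), (nat_lit 16296408)] (nat_lit 7298113)) p13_17_2 (nat_lit 3) (nat_lit 117) (nat_lit 118) = true := by decide +kernel
def p13_17_2_118 : pfC (piC [(nat_lit 40745421), (nat_lit 25257288), (nat_lit 16296408)] (nat_lit 7298113)) p13_17_2 (nat_lit 3) (nat_lit 118) (nat_lit 119) = true := by decide +kernel
def p13_17_2_119 : pfC (piC [(nat_lit 40745421), (nat_lit 25257288), (nat_lit 16296408)] (nat_lit 7298113)) p13_17_2 (nat_lit 3) (nat_lit 119) (nat_lit 120) = true := by decide +kernel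
def p13_17_2_120 : pfC (piC [(nat_lit 40745421), (nat_lit 25257288), (nat_lit 16296408)] (nat_lit 7298113)) p13_17_2 (nat_lit 3) (nat_lit 120) (nat_lit 121) = true := by decide +kernel
def p13_17_2_121 : pfC (piC [(nat_lit 40745421), (nat_lit 25257288), (nat_lit 16296408)] (nat_lit 7298113)) p13_17_2 (nat_lit 3) (nat_lit 121) (nat_lit 122) = true := by decide +kernel
def p13_17_2_122 : pfC (piC [(nat_lit 40745421), (nat_lit 25257288), (nat_lit 16296408)] (nat_lit 7298113)) p13_17_2 (nat_lit 3) (nat_lit 122) (nat_lit 123) = true := by decide +kernel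
def p13_17_2_123 : pfC (piC [(nat_lit 40745421), (nat_lit 25257288), (nat_lit 16296408)] (nat_lit 7298113)) p13_17_2 (nat_lit 3) (nat_lit 123) (nat_lit 124) = true := by decide +kernel
def p13_17_2_124 : pfC (piC [(nat_lit 40745421), (nat_lit 25257288), (nat_lit 16296408)] (nat_lit 7298113)) p13_17_2 (nat_lit 3) (nat_lit 124) (nat_lit 125) = true := by decide +kernel
def p13_17_2_125 : pfC (piC [(nat_lit 40745421), (nat_lit 25257288), (nat_lit 16296408)] (nat_lit 7298113)) p13_17_2 (nat_lit 3) (nat_lit 125) (nat_lit 126) = true := by decide +kernel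
def p13_17_2_126 : pfC (piC [(nat_lit 40745421), (nat_lit 25257288), (nat_lit 16296408)] (nat_lit 7298113)) p13_17_2 (nat_lit 3) (nat_lit 126) (nat_lit 127) = true := by decide +kernel
def p13_17_2_127 : pfC (piC [(nat_lit 40745421), (nat_lit 25257288), (nat_lit 16296408)] (nat_lit 7298113)) p13_17_2 (nat_lit 3) (nat_lit 127) (nat_lit 128) = true := by decide +kernel
def p13_17_2_128 : pfC (piC [(nat_lit 40745421), (nat_lit 25257288), (nat_lit 16296408)] (nat_lit 7298113)) p13_17_2 (nat_lit 3) (nat_lit 128) (nat_lit 129) = true := by decide +kernel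
def p13_17_2_129 : pfC (piC [(nat_lit 40745421), (nat_lit 25257288), (nat_lit 16296408)] (nat_lit 7298113)) p13_17_2 (nat_lit 3) (nat_lit 129) (nat_lit 130) = true := by decide +kernel
def p13_17_2_130 : pfC (piC [(nat_lit 40745421), (nat_lit 25257288), (nat_lit 16296408)] (nat_lit 7298113)) p13_17_2 (nat_lit 3) (nat_lit 130) (nat_lit 131) = true := by decide +kernel
def p13_17_2_131 : pfC (piC [(nat_lit 40745421), (nat_lit 25257288), (nat_lit 16296408)] (nat_lit 7298113)) p13_17_2 (nat_lit 3) (nat_lit 131) (nat_lit 132) = true := by decide +kernel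
def p13_17_2_132 : pfC (piC [(nat_lit 40745421), (nat_lit 25257288), (nat_lit 16296408)] (nat_lit 7298113)) p13_17_2 (nat_lit 3) (nat_lit 132) (nat_lit 133) = true := by decide +kernel
def p13_17_2_133 : pfC (piC [(nat_lit 40745421), (nat_lit 25257288), (nat_lit 16296408)] (nat_lit 7298113)) p13_17_2 (nat_lit 3) (nat_lit 133) (nat_lit 134) = true := by decide +kernel
def p13_17_2_134 : pfC (piC [(nat_lit 40745421), (nat_lit 25257288), (nat_lit 16296408)] (nat_lit 7298113)) p13_17_2 (nat_lit 3) (nat_lit 134) (nat_lit 135) = true := by decide +kernel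
def p13_17_2_135 : pfC (piC [(nat_lit 40745421), (nat_lit 25257288), (nat_lit 16296408)] (nat_lit 7298113)) p13_17_2 (nat_lit 3) (nat_lit 135) (nat_lit 136) = true := by decide +kernel
def p13_17_2_136 : pfC (piC [(nat_lit 40745421), (nat_lit 25257288), (nat_lit 16296408)] (nat_lit 7298113)) p13_17_2 (nat_lit 3) (nat_lit 136) (nat_lit 137) = true := by decide +kernel
def p13_17_2_137 : pfC (piC [(nat_lit 40745421), (nat_lit 25257288), (nat_lit 16296408)] (nat_lit 7298113)) p13_17_2 (nat_lit 3) (nat_lit 137) (nat_lit 138) = true := by decide +kernel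
def p13_17_2_138 : pfC (piC [(nat_lit 40745421), (nat_lit 25257288), (nat_lit 16296408)] (nat_lit 7298113)) p13_17_2 (nat_lit 3) (nat_lit 138) (nat_lit 139) = true := by decide +kernel
def p13_17_2_139 : pfC (piC [(nat_lit 40745421), (nat_lit 25257288), (nat_lit 16296408)] (nat_lit 7298113)) p13_17_2 (nat_lit 3) (nat_lit 139) (nat_lit 140) = true := by decide +kernel
def p13_17_2_140 : pfC (piC [(nat_lit 40745421), (nat_lit 25257288), (nat_lit 16296408)] (nat_lit 7298113)) p13_17_2 (nat_lit 3) (nat_lit 140) (nat_lit 141) = true := by decide +kernel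
def p13_17_2_141 : pfC (piC [(nat_lit 40745421), (nat_lit 25257288), (nat_lit 16296408)] (nat_lit 7298113)) p13_17_2 (nat_lit 3) (nat_lit 141) (nat_lit 142) = true := by decide +kernel
def p13_17_2_142 : pfC (piC [(nat_lit 40745421), (nat_lit 25257288), (nat_lit 16296408)] (nat_lit 7298113)) p13_17_2 (nat_lit 3) (nat_lit 142) (nat_lit 143) = true := by decide +kernel
def p13_17_2_143 : pfC (piC [(nat_lit 40745421), (nat_lit 25257288), (nat_lit 16296408)] (nat_lit 7298113)) p13_17_2 (nat_lit 3) (nat_lit 143) (nat_lit 144) = true := by decide +kernel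
def p13_17_2_144 : pfC (piC [(nat_lit 40745421), (nat_lit 25257288), (nat_lit 16296408)] (nat_lit 7298113)) p13_17_2 (nat_lit 3) (nat_lit 144) (nat_lit 145) = true := by decide +kernel
def p13_17_2_145 : pfC (piC [(nat_lit 40745421), (nat_lit 25257288), (nat_lit 16296408)] (nat_lit 7298113)) p13_17_2 (nat_lit 3) (nat_lit 145) (nat_lit 146) = true := by decide +kernel
def p13_17_2_146 : pfC (piC [(nat_lit 40745421), (nat_lit 25257288), (nat_lit 16296408)] (nat_lit 7298113)) p13_17_2 (nat_lit 3) (nat_lit 146) (nat_lit 147) = true := by decide +kernel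
def p13_17_2_147 : pfC (piC [(nat_lit 40745421), (nat_lit 25257288), (nat_lit 16296408)] (nat_lit 7298113)) p13_17_2 (nat_lit 3) (nat_lit 147) (nat_lit 148) = true := by decide +kernel
def p13_17_2_148 : pfC (piC [(nat_lit 40745421), (nat_lit 25257288), (nat_lit 16296408)] (nat_lit 7298113)) p13_17_2 (nat_lit 3) (nat_lit 148) (nat_lit 149) = true := by decide +kernel
def p13_17_2_149 : pfC (piC [(nat_lit 40745421), (nat_lit 25257288), (nat_lit 16296408)] (nat_lit 7298113)) p13_17_2 (nat_lit 3) (nat_lit 149) (nat_lit 150) = true := by decide +kernel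
def p13_17_2_150 : pfC (piC [(nat_lit 40745421), (nat_lit 25257288), (nat_lit 16296408)] (nat_lit 7298113)) p13_17_2 (nat_lit 3) (nat_lit 150) (nat_lit 151) = true := by decide +kernel
def p13_17_2_151 : pfC (piC [(nat_lit 40745421), (nat_lit 25257288), (nat_lit 16296408)] (nat_lit 7298113)) p13_17_2 (nat_lit 3) (nat_lit 151) (nat_lit 152) = true := by decide +kernel
def p13_17_2_152 : pfC (piC [(nat_lit 40745421), (nat_lit 25257288), (nat_lit 16296408)] (nat_lit 7298113)) p13_17_2 (nat_lit 3) (nat_lit 152) (nat_lit 153) = true := by decide +kernel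
def p13_17_2_153 : pfC (piC [(nat_lit 40745421), (nat_lit 25257288), (nat_lit 16296408)] (nat_lit 7298113)) p13_17_2 (nat_lit 3) (nat_lit 153) (nat_lit 154) = true := by decide +kernel
def p13_17_2_154 : pfC (piC [(nat_lit 40745421), (nat_lit 25257288), (nat_lit 16296408)] (nat_lit 7298113)) p13_17_2 (nat_lit 3) (nat_lit 154) (nat_lit 155) = true := by decide +kernel
def p13_17_2_155 : pfC (piC [(nat_lit 40745421), (nat_lit 25257288), (nat_lit 16296408)] (nat_lit 7298113)) p13_17_2 (nat_lit 3) (nat_lit 155) (nat_lit 156) = true := by decide +kernel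
def p13_17_2_156 : pfC (piC [(nat_lit 40745421), (nat_lit 25257288), (nat_lit 16296408)] (nat_lit 7298113)) p13_17_2 (nat_lit 3) (nat_lit 156) (nat_lit 157) = true := by decide +kernel
def p13_17_2_157 : pfC (piC [(nat_lit 40745421), (nat_lit 25257288), (nat_lit 16296408)] (nat_lit 7298113)) p13_17_2 (nat_lit 3) (nat_lit 157) (nat_lit 158) = true := by decide +kernel
def p13_17_2_158 : pfC (piC [(nat_lit 40745421), (nat_lit 25257288), (nat_lit 16296408)] (nat_lit 7298113)) p13_17_2 (nat_lit 3) (nat_lit 158) (nat_lit 159) = true := by decide +kernel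
def p13_17_2_159 : pfC (piC [(nat_lit 40745421), (nat_lit 25257288), (nat_lit 16296408)] (nat_lit 7298113)) p13_17_2 (nat_lit 3) (nat_lit 159) (nat_lit 160) = true := by decide +kernel
def p13_17_2_160 : pfC (piC [(nat_lit 40745421), (nat_lit 25257288), (nat_lit 16296408)] (nat_lit 7298113)) p13_17_2 (nat_lit 3) (nat_lit 160) (nat_lit 161) = true := by decide +kernel
def p13_17_2_161 : pfC (piC [(nat_lit 40745421), (nat_lit 25257288), (nat_lit 16296408)] (nat_lit 7298113)) p13_17_2 (nat_lit 3) (nat_lit 161) (nat_lit 162) = true := by decide +kernel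
def p13_17_2_162 : pfC (piC [(nat_lit 40745421), (nat_lit 25257288), (nat_lit 16296408)] (nat_lit 7298113)) p13_17_2 (nat_lit 3) (nat_lit 162) (nat_lit 163) = true := by decide +kernel
def p13_17_2_163 : pfC (piC [(nat_lit 40745421), (nat_lit 25257288), (nat_lit 16296408)] (nat_lit 7298113)) p13_17_2 (nat_lit 3) (nat_lit 163) (nat_lit 164) = true := by decide +kernel
def p13_17_2_164 : pfC (piC [(nat_lit 40745421), (nat_lit 25257288), (nat_lit 16296408)] (nat_lit 7298113)) p13_17_2 (nat_lit 3) (nat_lit 164) (nat_lit 165) = true := by decide +kernel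
def p13_17_2_165 : pfC (piC [(nat_lit 40745421), (nat_lit 25257288), (nat_lit 16296408)] (nat_lit 7298113)) p13_17_2 (nat_lit 3) (nat_lit 165) (nat_lit 166) = true := by decide +kernel
def p13_17_2_166 : pfC (piC [(nat_lit 40745421), (nat_lit 25257288), (nat_lit 16296408)] (nat_lit 7298113)) p13_17_2 (nat_lit 3) (nat_lit 166) (nat_lit 167) = true := by decide +kernel
theorem p13_17_2_T : PfS (PiF n13_17.reverse (nat_lit 7298113)) p13_17_2 (nat_lit 3) [] 0 :=
  pftab_of (los := [(nat_lit 40745421), (nat_lit 25257288), (nat_lit 16296408)]) (by decide +kernel) (hi := (nat_lit 167)) (PfP.trans (PfP.trans (PfP.trans (PfP.trans (PfP.trans (PfP.trans (PfP.trans (PfP.trans (PfP.trans (PfP.trans (PfP.trans (PfP.trans (PfP.trans (PfP.trans (PfP.trans (PfP.trans (PfP.trans (PfP.trans (PfP.trans (PfP.trans (PfP.trans (PfP.trans (PfP.trans (PfP.trans (PfP.trans (PfP.trans (PfP.trans (PfP.trans (PfP.trans (PfP.trans (PfP.trans (PfP.trans (PfP.trans (PfP.trans (PfP.trans (PfP.trans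 (PfP.trans (PfP.trans (PfP.trans (PfP.trans (PfP.trans (PfP.trans (PfP.trans (PfP.trans (PfP.trans (PfP.trans (PfP.trans (PfP.trans (PfP.trans (PfP.trans (PfP.trans (PfP.trans (PfP.trans (PfP.trans (PfP.trans (PfP.trans (PfP.trans (PfP.trans (PfP.trans (PfP.trans (PfP.trans (PfP.trans (PfP.trans (PfP.trans (PfP.trans (PfP.trans (PfP.trans (PfP.trans (PfP.trans (PfP.trans (PfP.trans (PfP.trans (PfP.trans (PfP.trans (PfP.trans (PfP.trans (PfP.trans (PfP.trans (PfP.trans (PfP.trans (PfP.trans (PfP.trans (PfP.trans (PfP.trans (PfP.trans (PfP.trans (PfP.trans (PfP.trans (PfP.trans (PfP.trans (PfP.trans (PfP.trans (PfP.trans (PfP.trans (PfP.trans (PfP.trans (PfP.trans (PfP.trans (PfP.trans (PfP.trans (PfP.trans (PfP.trans (PfP.trans (PfP.trans (PfP.trans (PfP.trans (PfP.trans (PfP.trans (PfP.trans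
 (PfP.trans (PfP.trans (PfP.trans (PfP.trans (PfP.trans (PfP.trans (PfP.trans (PfP.trans (PfP.trans (PfP.trans (PfP.trans (PfP.trans (PfP.trans (PfP.trans (PfP.trans (PfP.trans (PfP.trans (PfP.trans (PfP.trans (PfP.trans (PfP.trans (PfP.trans (PfP.trans (PfP.trans (PfP.trans (PfP.trans (PfP.trans (PfP.trans (PfP.trans (PfP.trans (PfP.trans (PfP.trans (PfP.trans (PfP.trans (PfP.trans (PfP.trans (PfP.trans (PfP.trans (PfP.trans (PfP.trans (PfP.trans (PfP.trans (PfP.trans (PfP.trans (PfP.trans (PfP.trans (PfP.trans (PfP.trans (PfP.trans (PfP.trans (PfP.trans (PfP.trans (PfP.trans (PfP.trans (PfP.trans (PfP.trans (PfP.trans (pfC_sound p13_17_2_0) (pfC_sound p13_17_2_1)) (pfC_sound p13_17_2_2)) (pfC_sound p13_17_2_3)) (pfC_sound p13_17_2_4)) (pfC_sound p13_17_2_5)) (pfC_sound p13_17_2_6)) (pfC_sound p13_17_2_7)) (pfC_sound p13_17_2_8)) (pfC_sound p13_17_2_9)) (pfC_sound p13_17_2_10)) (pfC_sound p13_17_2_11)) (pfC_sound p13_17_2_12)) (pfC_sound p13_17_2_13)) (pfC_sound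 p13_17_2_14)) (pfC_sound p13_17_2_15)) (pfC_sound p13_17_2_16)) (pfC_sound p13_17_2_17)) (pfC_sound p13_17_2_18)) (pfC_sound p13_17_2_19)) (pfC_sound p13_17_2_20)) (pfC_sound p13_17_2_21)) (pfC_sound p13_17_2_22))
 (pfC_sound p13_17_2_23)) (pfC_sound p13_17_2_24)) (pfC_sound p13_17_2_25)) (pfC_sound p13_17_2_26)) (pfC_sound p13_17_2_27)) (pfC_sound p13_17_2_28)) (pfC_sound p13_17_2_29)) (pfC_sound p13_17_2_30)) (pfC_sound p13_17_2_31)) (pfC_sound p13_17_2_32)) (pfC_sound p13_17_2_33)) (pfC_sound p13_17_2_34)) (pfC_sound p13_17_2_35)) (pfC_sound p13_17_2_36)) (pfC_sound p13_17_2_37)) (pfC_sound p13_17_2_38)) (pfC_sound p13_17_2_39)) (pfC_sound p13_17_2_40)) (pfC_sound p13_17_2_41)) (pfC_sound p13_17_2_42)) (pfC_sound p13_17_2_43)) (pfC_sound p13_17_2_44)) (pfC_sound p13_17_2_45)) (pfC_sound p13_17_2_46)) (pfC_sound p13_17_2_47)) (pfC_sound p13_17_2_48)) (pfC_sound p13_17_2_49)) (pfC_sound p13_17_2_50)) (pfC_sound p13_17_2_51)) (pfC_sound p13_17_2_52)) (pfC_sound p13_17_2_53))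 (pfC_sound p13_17_2_54)) (pfC_sound p13_17_2_55)) (pfC_sound p13_17_2_56)) (pfC_sound p13_17_2_57)) (pfC_sound p13_17_2_58)) (pfC_sound p13_17_2_59)) (pfC_sound p13_17_2_60)) (pfC_sound p13_17_2_61)) (pfC_sound p13_17_2_62)) (pfC_sound p13_17_2_63)) (pfC_sound p13_17_2_64)) (pfC_sound p13_17_2_65)) (pfC_sound p13_17_2_66)) (pfC_sound p13_17_2_67)) (pfC_sound p13_17_2_68)) (pfC_sound p13_17_2_69)) (pfC_sound p13_17_2_70))
 (pfC_sound p13_17_2_71)) (pfC_sound p13_17_2_72)) (pfC_sound p13_17_2_73)) (pfC_sound p13_17_2_74)) (pfC_sound p13_17_2_75)) (pfC_sound p13_17_2_76)) (pfC_sound p13_17_2_77)) (pfC_sound p13_17_2_78)) (pfC_sound p13_17_2_79)) (pfC_sound p13_17_2_80)) (pfC_sound p13_17_2_81)) (pfC_sound p13_17_2_82)) (pfC_sound p13_17_2_83)) (pfC_sound p13_17_2_84)) (pfC_sound p13_17_2_85)) (pfC_sound p13_17_2_86)) (pfC_sound p13_17_2_87)) (pfC_sound p13_17_2_88)) (pfC_sound p13_17_2_89)) (pfC_sound p13_17_2_90)) (pfC_sound p13_17_2_91)) (pfC_sound p13_17_2_92)) (pfC_sound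 p13_17_2_93)) (pfC_sound p13_17_2_94)) (pfC_sound p13_17_2_95)) (pfC_sound p13_17_2_96)) (pfC_sound p13_17_2_97)) (pfC_sound p13_17_2_98)) (pfC_sound p13_17_2_99)) (pfC_sound p13_17_2_100)) (pfC_sound p13_17_2_101)) (pfC_sound p13_17_2_102)) (pfC_sound p13_17_2_103)) (pfC_sound p13_17_2_104)) (pfC_sound p13_17_2_105)) (pfC_sound p13_17_2_106)) (pfC_sound p13_17_2_107)) (pfC_sound p13_17_2_108)) (pfC_sound p13_17_2_109)) (pfC_sound p13_17_2_110)) (pfC_sound p13_17_2_111)) (pfC_sound p13_17_2_112)) (pfC_sound p13_17_2_113)) (pfC_sound p13_17_2_114)) (pfC_sound p13_17_2_115)) (pfC_sound p13_17_2_116)) (pfC_sound p13_17_2_117))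
 (pfC_sound p13_17_2_118)) (pfC_sound p13_17_2_119)) (pfC_sound p13_17_2_120)) (pfC_sound p13_17_2_121)) (pfC_sound p13_17_2_122)) (pfC_sound p13_17_2_123)) (pfC_sound p13_17_2_124)) (pfC_sound p13_17_2_125)) (pfC_sound p13_17_2_126)) (pfC_sound p13_17_2_127)) (pfC_sound p13_17_2_128)) (pfC_sound p13_17_2_129)) (pfC_sound p13_17_2_130)) (pfC_sound p13_17_2_131)) (pfC_sound p13_17_2_132)) (pfC_sound p13_17_2_133)) (pfC_sound p13_17_2_134)) (pfC_sound p13_17_2_135)) (pfC_sound p13_17_2_136)) (pfC_sound p13_17_2_137)) (pfC_sound p13_17_2_138)) (pfC_sound p13_17_2_139)) (pfC_sound p13_17_2_140)) (pfC_sound p13_17_2_141)) (pfC_sound p13_17_2_142)) (pfC_sound p13_17_2_143)) (pfC_sound p13_17_2_144)) (pfC_sound p13_17_2_145)) (pfC_sound p13_17_2_146)) (pfC_sound p13_17_2_147)) (pfC_sound p13_17_2_148)) (pfC_sound p13_17_2_149)) (pfC_sound p13_17_2_150)) (pfC_sound p13_17_2_151)) (pfC_sound p13_17_2_152)) (pfC_sound p13_17_2_153)) (pfC_sound p13_17_2_154)) (pfC_sound p13_17_2_155))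 (pfC_sound p13_17_2_156)) (pfC_sound p13_17_2_157)) (pfC_sound p13_17_2_158)) (pfC_sound p13_17_2_159)) (pfC_sound p13_17_2_160)) (pfC_sound p13_17_2_161)) (pfC_sound p13_17_2_162)) (pfC_sound p13_17_2_163))
 (pfC_sound p13_17_2_164)) (pfC_sound p13_17_2_165)) (pfC_sound p13_17_2_166)) (by decide +kernel)

def z13_17_2 : zOK yB13_17 (nat_lit 2) (nat_lit 600) (nat_lit 743) (nat_lit 7298113) (nat_lit 5905907) = true := by decide +kernel
def g13_17_2 : gOK yB13_17.x P13_17 (nat_lit 1397) (q13_17 :: r13_17) (nat_lit 2) (nat_lit 600) (nat_lit 3) (nat_lit 743) (nat_lit 12712500) (nat_lit 12712500) (nat_lit 12712500) (nat_lit 12712500) [(nat_lit 800)] = true := by decide +kernel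
def v13_17_2 : ivC P13_17 s13_17 w13_17 n13_17 (nat_lit 3) (nat_lit 4720) (nat_lit 2) (nat_lit 600) f176_0_600 f184_0_600 (nat_lit 3) (nat_lit 743) f176_0_743 f184_0_743 (nat_lit 7298113) (nat_lit 5905907) p13_17_2 = true := by decide +kernel
end CB
end Pool.Agent.Lib.MP_6947cd_al
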