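import Pool.Agent.Lib.MP_6947cd_al.L.BoxDataB
import Pool.Agent.Lib.MP_6947cd_al.L.TeD3
import Pool.Agent.Lib.MP_6947cd_al.L.TeD4

/-!
Problem MP_6947cd_al (Chollet).  CASE B, rows `j`: boxes (generated).
-/

set_option autoImplicit false
set_option linter.defProp false
set_option maxRecDepth 20000

namespace Pool.Agent.Lib.MP_6947cd_al
namespace CB

open Ent Ent.Pk Fr Fr.WT CA

/-! box `yB12_10` -/

def P12_10 : BQ := ⟨(nat_lit 8), (nat_lit 4), (nat_lit 4), (nat_lit 0), (nat_lit 8), (nat_lit 740), (nat_lit 760), (nat_lit 120), [(nat_lit 200), (nat_lit 300), (nat_lit 450), (nat_lit 800)], (nat_lit 89744000), (nat_lit 16000000), (nat_lit 16000000000)⟩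
def q12_10 : PC := ⟨(nat_lit 1000), [(nat_lit 120000), (nat_lit 200000), (nat_lit 300000), (nat_lit 450000), (nat_lit 800000)], (nat_lit 340282367000166625996085689103316680705000000), (nat_lit 15910256000000), (nat_lit 15910256000000), (nat_lit 10000000)⟩
def r12_10 : List PC := [⟨(nat_lit 1338), [(nat_lit 120626), (nat_lit 201163), (nat_lit 301631), (nat_lit 451921), (nat_lit 801090)], (nat_lit 342105940205002916233798033510544979960744942), (nat_lit 16351338070080), (nat_lit 16363699352000), (nat_lit 10058150)⟩]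
def s12_10 : List PB := [⟨(nat_lit 26760), (nat_lit 1930016000000), [(nat_lit 201163), (nat_lit 301631), (nat_lit 451921), (nat_lit 801090)], (nat_lit 342105940205002916233798033510544979960744942), (nat_lit 1142251244912704), (nat_lit 1142263606194624), (nat_lit 54080)⟩]
def n12_10 : List KN := [⟨(nat_lit 800), (nat_lit 450), (nat_lit 13318063), (nat_lit 5568697)⟩, ⟨(nat_lit 450), (nat_lit 300), (nat_lit 19805017), (nat_lit 13318063)⟩, ⟨(nat_lit 300), (nat_lit 200), (nat_lit 26592602), (nat_lit 19805017)⟩, ⟨(nat_lit 200), (nat_lit 120), (nat_lit 41997052), (nat_lit 26592602)⟩]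
def w12_10 : List ℕ := [(nat_lit 54080)]
def par12_10 : parC yB12_10 P12_10 s12_10 r12_10 q12_10 n12_10 w12_10 = true := by decide +kernel

def p12_10_0 : PF := (PF.cons (PF.cons (PF.cons (PF.cons (PF.leaf (nat_lit 444690) (nat_lit 1187894) (nat_lit 65920918) (nat_lit 1187894) [(nat_lit 0), (nat_lit 0), (nat_lit 0), (nat_lit 0)]) (PF.cons (PF.leaf (nat_lit 540665) (nat_lit 145110) (nat_lit 65735144) (nat_lit 1228557) [(nat_lit 145110), (nat_lit 0), (nat_lit 0), (nat_lit 0)]) (PF.cons (PF.leaf (nat_lit 663129) (nat_lit 161593) (nat_lit 65512048) (nat_lit 1273576) [(nat_lit 161593), (nat_lit 0), (nat_lit 0), (nat_lit 0)]) (PF.cons (PF.leaf (nat_lit 804487) (nat_lit 177336) (nat_lit 65255639) (nat_lit 1321164) [(nat_lit 177336), (nat_lit 0), (nat_lit 0), (nat_lit 0)]) (PF.cons (PF.leaf (nat_lit 963493) (nat_lit 192505) (nat_lit 64968654) (nat_lit 1370134) [(nat_lit 192505), (nat_lit 0), (nat_lit 0), (nat_lit 0)]) (PF.cons (PF.leaf (nat_lit 1139150) (nat_lit 207183)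 (nat_lit 64653227) (nat_lit 1419666) [(nat_lit 207183), (nat_lit 0), (nat_lit 0), (nat_lit 0)]) (PF.cons (PF.leaf (nat_lit 1330579) (nat_lit 221411) (nat_lit 64311177) (nat_lit 1469166) [(nat_lit 221411), (nat_lit 0), (nat_lit 0), (nat_lit 0)]) (PF.cons (PF.leaf (nat_lit 1536903) (nat_lit 235208) (nat_lit 63944152) (nat_lit 1518199) [(nat_lit 235208), (nat_lit 0), (nat_lit 0),
 (nat_lit 0)]) (PF.cons PF.nil (PF.cons PF.nil PF.nil)))))))))) (PF.cons (PF.cons (PF.leaf (nat_lit 874275) (nat_lit 855814) (nat_lit 64884303) (nat_lit 1368695) [(nat_lit 0), (nat_lit 855814), (nat_lit 0), (nat_lit 0)]) (PF.cons (PF.leaf (nat_lit 1016937) (nat_lit 194316) (nat_lit 64613019) (nat_lit 1411403) [(nat_lit 194316), (nat_lit 890073), (nat_lit 0), (nat_lit 0)]) (PF.cons (PF.leaf (nat_lit 1181005) (nat_lit 209067) (nat_lit 64309477) (nat_lit 1455858) [(nat_lit 209067), (nat_lit 925341), (nat_lit 0), (nat_lit 0)]) (PF.cons (PF.leaf (nat_lit 1362008) (nat_lit 223256) (nat_lit 63976969)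 (nat_lit 1501124) [(nat_lit 223256), (nat_lit 960948), (nat_lit 0), (nat_lit 0)]) (PF.cons (PF.leaf (nat_lit 1558638) (nat_lit 236955) (nat_lit 63617985) (nat_lit 1546553) [(nat_lit 236955), (nat_lit 996453), (nat_lit 0), (nat_lit 0)]) (PF.cons (PF.leaf (nat_lit 1770167) (nat_lit 250199) (nat_lit 63234589) (nat_lit 1591676) [(nat_lit 250199), (nat_lit 1031548), (nat_lit 0), (nat_lit 0)]) (PF.cons PF.nil (PF.cons PF.nil (PF.cons PF.nil PF.nil))))))))) (PF.cons (PF.cons (PF.leaf (nat_lit 1409245) (nat_lit 983932) (nat_lit 63605555) (nat_lit 1535391) [(nat_lit 0), (nat_lit 983932), (nat_lit 0),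
 (nat_lit 0)]) (PF.cons (PF.leaf (nat_lit 1591659) (nat_lit 237923) (nat_lit 63261474) (nat_lit 1576550) [(nat_lit 237923), (nat_lit 1016432), (nat_lit 0), (nat_lit 0)]) (PF.cons (PF.leaf (nat_lit 1791886) (nat_lit 251204) (nat_lit 62890182) (nat_lit 1618108) [(nat_lit 251204), (nat_lit 1049056), (nat_lit 0), (nat_lit 0)]) (PF.cons (PF.leaf (nat_lit 2007009) (nat_lit 263981) (nat_lit 62494458) (nat_lit 1659536) [(nat_lit 263981), (nat_lit 1081436), (nat_lit 0), (nat_lit 0)]) (PF.cons (PF.leaf (nat_lit 2235741) (nat_lit 276293) (nat_lit 62076558) (nat_lit 1700451) [(nat_lit 276293), (nat_lit 1113314), (nat_lit 0), (nat_lit 0)]) (PF.cons PF.nil (PF.cons PF.nil PF.nil))))))) (PF.cons (PF.cons (PF.leaf (nat_lit 2031643) (nat_lit 1097938) (nat_lit 62130571) (nat_lit 1684424) [(nat_lit 0), (nat_lit 1097938), (nat_lit 0), (nat_lit 0)]) (PF.cons (PF.leaf (nat_lit 2247419) (nat_lit 276611) (nat_lit 61726774) (nat_lit 1722292) [(nat_lit 276611), (nat_lit 1127711), (nat_lit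 0), (nat_lit 0)]) (PF.cons (PF.leaf (nat_lit 2478332) (nat_lit 288495) (nat_lit 61300645) (nat_lit 1759811) [(nat_lit 288495), (nat_lit 1157121), (nat_lit 0), (nat_lit 0)]) (PF.cons (PF.leaf (nat_lit 2721807) (nat_lit
 299903) (nat_lit 60854577) (nat_lit 1796666) [(nat_lit 299903), (nat_lit 1185953), (nat_lit 0), (nat_lit 0)]) (PF.cons PF.nil PF.nil))))) (PF.cons (PF.cons (PF.leaf (nat_lit 2724252) (nat_lit 1197713) (nat_lit 60503351) (nat_lit 1814607) [(nat_lit 0), (nat_lit 1197713), (nat_lit 0), (nat_lit 0)]) (PF.cons (PF.leaf (nat_lit 2967503) (nat_lit 310658) (nat_lit 60052707) (nat_lit 1848328) [(nat_lit 310658), (nat_lit 1224279), (nat_lit 0), (nat_lit 0)]) (PF.cons PF.nil (PF.cons PF.nil PF.nil)))) (PF.cons (PF.cons (PF.leaf (nat_lit 3470793) (nat_lit 1283550) (nat_lit 58765133) (nat_lit 1925926) [(nat_lit 0), (nat_lit 1283550), (nat_lit 0), (nat_lit 0)]) (PF.cons PF.nil PF.nil)) (PF.cons PF.nil (PF.cons PF.nil PF.nil)))))))) (PF.cons (PF.cons (PF.cons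 (PF.leaf (nat_lit 1445751) (nat_lit 1557251) (nat_lit 62900117) (nat_lit 1557251) [(nat_lit 0), (nat_lit 0), (nat_lit 2651443), (nat_lit 0)]) (PF.cons (PF.leaf (nat_lit 1607744) (nat_lit 228489) (nat_lit 62590570) (nat_lit 1593785) [(nat_lit 228489), (nat_lit 0), (nat_lit 2695967), (nat_lit 0)]) (PF.cons (PF.leaf (nat_lit 1790297) (nat_lit 242985) (nat_lit 62248790) (nat_lit 1631591) [(nat_lit 242985), (nat_lit 0), (nat_lit 2742459),
 (nat_lit 0)]) (PF.cons (PF.leaf (nat_lit 1989222) (nat_lit 256640) (nat_lit 61879107) (nat_lit 1669886) [(nat_lit 256640), (nat_lit 0), (nat_lit 2789897), (nat_lit 0)]) (PF.cons (PF.leaf (nat_lit 2202905) (nat_lit 269602) (nat_lit 61484722) (nat_lit 1708133) [(nat_lit 269602), (nat_lit 0), (nat_lit 2837545), (nat_lit 0)]) (PF.cons (PF.leaf (nat_lit 2430310) (nat_lit 281961) (nat_lit 61068201) (nat_lit 1745949) [(nat_lit 281961), (nat_lit 0), (nat_lit 2884855), (nat_lit 0)]) (PF.cons PF.nil (PF.cons PF.nil (PF.cons PF.nil PF.nil)))))))))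 (PF.cons (PF.cons (PF.leaf (nat_lit 2026696) (nat_lit 1099510) (nat_lit 61486095) (nat_lit 1696048) [(nat_lit 0), (nat_lit 1099510), (nat_lit 2827158), (nat_lit 0)]) (PF.cons (PF.leaf (nat_lit 2224971) (nat_lit 268800) (nat_lit 61111268) (nat_lit 1730820) [(nat_lit 268800), (nat_lit 1127757), (nat_lit 2870166), (nat_lit 0)]) (PF.cons (PF.leaf (nat_lit 2440080) (nat_lit 281403) (nat_lit 60710774) (nat_lit 1765753) [(nat_lit 281403), (nat_lit 1155927), (nat_lit 2913551), (nat_lit 0)]) (PF.cons (PF.leaf (nat_lit 2668921) (nat_lit 293352) (nat_lit 60287915) (nat_lit 1800406) [(nat_lit 293352), (nat_lit 1183718), (nat_lit 2956715), (nat_lit 0)])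
 (PF.cons (PF.leaf (nat_lit 2910350) (nat_lit 304724) (nat_lit 59845305) (nat_lit 1834467) [(nat_lit 304724), (nat_lit 1210925), (nat_lit 2999218), (nat_lit 0)]) (PF.cons PF.nil (PF.cons PF.nil PF.nil))))))) (PF.cons (PF.cons (PF.leaf (nat_lit 2681930) (nat_lit 1195857) (nat_lit 59914479) (nat_lit 1819059) [(nat_lit 0), (nat_lit 1195857), (nat_lit 2983559), (nat_lit 0)]) (PF.cons (PF.leaf (nat_lit 2909809) (nat_lit 303713) (nat_lit 59489078) (nat_lit 1850643) [(nat_lit 303713), (nat_lit 1221359), (nat_lit 3022658), (nat_lit 0)]) (PF.cons (PF.leaf (nat_lit 3151466) (nat_lit 314715) (nat_lit 59043556) (nat_lit 1881778) [(nat_lit 314715), (nat_lit 1246406), (nat_lit 3061233), (nat_lit 0)]) (PF.cons PF.nil (PF.cons PF.nil PF.nil))))) (PF.cons (PF.cons (PF.leaf (nat_lit 3394663) (nat_lit 1279163) (nat_lit 58228257) (nat_lit 1925263) [(nat_lit 0), (nat_lit 1279163), (nat_lit 3117801), (nat_lit 0)]) (PF.cons (PF.leaf (nat_lit 3646131) (nat_lit 333869) (nat_lit 57765329)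 (nat_lit 1952993) [(nat_lit 333869), (nat_lit 1301599), (nat_lit 3151822), (nat_lit 0)]) (PF.cons PF.nil (PF.cons PF.nil PF.nil)))) (PF.cons (PF.cons (PF.leaf (nat_lit 4149829) (nat_lit 1349862) (nat_lit 56465280) (nat_lit
 2014764) [(nat_lit 0), (nat_lit 1349862), (nat_lit 3229316), (nat_lit 0)]) (PF.cons PF.nil PF.nil)) (PF.cons PF.nil PF.nil)))))) (PF.cons (PF.cons (PF.cons (PF.leaf (nat_lit 2653553) (nat_lit 1823113) (nat_lit 59287952) (nat_lit 1823113) [(nat_lit 0), (nat_lit 0), (nat_lit 2998873), (nat_lit 0)]) (PF.cons (PF.leaf (nat_lit 2863639) (nat_lit 294499) (nat_lit 58893971) (nat_lit 1852401) [(nat_lit 294499), (nat_lit 0), (nat_lit 3033970), (nat_lit 0)]) (PF.cons (PF.leaf (nat_lit 3089568) (nat_lit 306403) (nat_lit 58476062) (nat_lit 1881649) [(nat_lit 306403), (nat_lit 0), (nat_lit 3069147), (nat_lit 0)]) (PF.cons (PF.leaf (nat_lit 3328268) (nat_lit 317537) (nat_lit 58037868) (nat_lit 1910496) [(nat_lit 317537), (nat_lit 0), (nat_lit 3103918), (nat_lit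 0)]) (PF.cons (PF.leaf (nat_lit 3578444) (nat_lit 328011) (nat_lit 57582219) (nat_lit 1938687) [(nat_lit 328011), (nat_lit 0), (nat_lit 3137930), (nat_lit 0)]) PF.nil))))) (PF.cons (PF.cons (PF.leaf (nat_lit 3329930) (nat_lit 1273712) (nat_lit 57663988) (nat_lit 1924165) [(nat_lit 0), (nat_lit 1273712), (nat_lit 3123473), (nat_lit 0)]) (PF.cons (PF.leaf (nat_lit 3566193) (nat_lit 325931) (nat_lit 57227613) (nat_lit 1950338) [(nat_lit
 325931), (nat_lit 1295462), (nat_lit 3154733), (nat_lit 0)]) (PF.cons (PF.leaf (nat_lit 3815190) (nat_lit 336091) (nat_lit 56773223) (nat_lit 1975988) [(nat_lit 336091), (nat_lit 1316689), (nat_lit 3185364), (nat_lit 0)]) (PF.cons PF.nil PF.nil)))) (PF.cons (PF.cons (PF.leaf (nat_lit 4053060) (nat_lit 1342838) (nat_lit 55956736) (nat_lit 2010036) [(nat_lit 0), (nat_lit 1342838), (nat_lit 3228182), (nat_lit 0)]) (PF.cons (PF.leaf (nat_lit 4309646) (nat_lit 352578) (nat_lit 55490747) (nat_lit 2032623) [(nat_lit 352578), (nat_lit 1361670),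 (nat_lit 3254760), (nat_lit 0)]) PF.nil)) (PF.cons PF.nil (PF.cons PF.nil PF.nil))))) (PF.cons (PF.cons (PF.cons (PF.leaf (nat_lit 3968385) (nat_lit 2004876) (nat_lit 55422574) (nat_lit 2004876) [(nat_lit 0), (nat_lit 0), (nat_lit 3227120), (nat_lit 0)]) (PF.cons (PF.leaf (nat_lit 4210103) (nat_lit 343960) (nat_lit 54983507) (nat_lit 2026355) [(nat_lit 343960), (nat_lit 0), (nat_lit 3251663), (nat_lit 0)]) (PF.cons (PF.leaf (nat_lit 4463588) (nat_lit 353323) (nat_lit 54528369) (nat_lit 2047264) [(nat_lit 353323), (nat_lit 0), (nat_lit 3275510), (nat_lit 0)]) (PF.cons PF.nil PF.nil)))) (PF.cons (PF.cons (PF.leaf (nat_lit 4694340) (nat_lit 1391658)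
 (nat_lit 53723082) (nat_lit 2073391) [(nat_lit 0), (nat_lit 1391658), (nat_lit 3306893), (nat_lit 0)]) (PF.cons PF.nil PF.nil)) (PF.cons PF.nil PF.nil))) (PF.cons (PF.cons (PF.cons (PF.leaf (nat_lit 5315166) (nat_lit 2118981) (nat_lit 51551393) (nat_lit 2118981) [(nat_lit 0), (nat_lit 0), (nat_lit 3359609), (nat_lit 0)]) (PF.cons PF.nil PF.nil)) (PF.cons PF.nil PF.nil)) (PF.cons PF.nil (PF.cons PF.nil (PF.cons PF.nil PF.nil)))))))) (PF.cons (PF.cons (PF.cons (PF.cons (PF.leaf (nat_lit 2667292) (nat_lit 1765128) (nat_lit 56380746) (nat_lit 1765128) [(nat_lit 0), (nat_lit 0), (nat_lit 0), (nat_lit 8962937)]) (PF.cons (PF.leaf (nat_lit 2841088) (nat_lit 263500) (nat_lit 56068727) (nat_lit 1793172) [(nat_lit 263500), (nat_lit 0), (nat_lit 0), (nat_lit 8983413)]) (PF.cons (PF.leaf (nat_lit 3033935) (nat_lit 277717) (nat_lit 55727579) (nat_lit 1821674) [(nat_lit 277717), (nat_lit 0), (nat_lit 0), (nat_lit 9004124)]) (PF.cons (PF.leaf (nat_lit 3241978) (nat_lit 290706)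 (nat_lit 55362216) (nat_lit 1850048) [(nat_lit 290706), (nat_lit 0), (nat_lit 0), (nat_lit 9024430)]) (PF.cons (PF.leaf (nat_lit 3463183) (nat_lit 302699) (nat_lit 54976251) (nat_lit 1877919) [(nat_lit 302699), (nat_lit
 0), (nat_lit 0), (nat_lit 9043844)]) (PF.cons (PF.leaf (nat_lit 3696236) (nat_lit 313851) (nat_lit 54572530) (nat_lit 1905039) [(nat_lit 313851), (nat_lit 0), (nat_lit 0), (nat_lit 9061986)]) (PF.cons (PF.leaf (nat_lit 3939777) (nat_lit 324269) (nat_lit 54153400) (nat_lit 1931239) [(nat_lit 324269), (nat_lit 0), (nat_lit 0), (nat_lit 9078556)]) (PF.cons (PF.leaf (nat_lit 4192804) (nat_lit 334032) (nat_lit 53720859) (nat_lit 1956406) [(nat_lit 334032), (nat_lit 0), (nat_lit 0), (nat_lit 9093316)]) (PF.cons PF.nil (PF.cons PF.nil PF.nil)))))))))) (PF.cons (PF.cons (PF.leaf (nat_lit 3261193) (nat_lit 1219649) (nat_lit 54986251) (nat_lit 1865197) [(nat_lit 0), (nat_lit 1219649), (nat_lit 0), (nat_lit 9037714)]) (PF.cons (PF.leaf (nat_lit 3466102)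 (nat_lit 299610) (nat_lit 54622515) (nat_lit 1890513) [(nat_lit 299610), (nat_lit 1241965), (nat_lit 0), (nat_lit 9054207)]) (PF.cons (PF.leaf (nat_lit 3685984) (nat_lit 311225) (nat_lit 54237195) (nat_lit 1915560) [(nat_lit 311225), (nat_lit 1263821), (nat_lit 0), (nat_lit 9069783)]) (PF.cons (PF.leaf (nat_lit 3918024) (nat_lit 321967) (nat_lit 53833788) (nat_lit 1940039) [(nat_lit 321967), (nat_lit 1285015), (nat_lit 0), (nat_lit 9084066)])
 (PF.cons (PF.leaf (nat_lit 4160675) (nat_lit 331963) (nat_lit 53415011) (nat_lit 1963751) [(nat_lit 331963), (nat_lit 1305429), (nat_lit 0), (nat_lit 9096767)]) (PF.cons (PF.leaf (nat_lit 4412808) (nat_lit 341302) (nat_lit 52983082) (nat_lit 1986561) [(nat_lit 341302), (nat_lit 1324989), (nat_lit 0), (nat_lit 9107668)]) (PF.cons PF.nil (PF.cons PF.nil (PF.cons PF.nil PF.nil))))))))) (PF.cons (PF.cons (PF.leaf (nat_lit 3911387) (nat_lit 1290976) (nat_lit 53487895) (nat_lit 1949760) [(nat_lit 0), (nat_lit 1290976), (nat_lit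 0), (nat_lit 9089203)]) (PF.cons (PF.leaf (nat_lit 4140307) (nat_lit 329146) (nat_lit 53087775) (nat_lit 1971754) [(nat_lit 329146), (nat_lit 1310194), (nat_lit 0), (nat_lit 9099748)]) (PF.cons (PF.leaf (nat_lit 4381130) (nat_lit 338809) (nat_lit 52671770) (nat_lit 1993133) [(nat_lit 338809), (nat_lit 1328778), (nat_lit 0), (nat_lit 9108731)]) (PF.cons (PF.leaf (nat_lit 4631614) (nat_lit 347796) (nat_lit 52242486) (nat_lit 2013737) [(nat_lit 347796), (nat_lit 1346628), (nat_lit 0), (nat_lit 9115944)]) (PF.cons (PF.leaf (nat_lit 4890615) (nat_lit 356182) (nat_lit 51802027) (nat_lit 2033460) [(nat_lit 356182), (nat_lit 1363681), (nat_lit 0), (nat_lit 9121232)])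
 (PF.cons PF.nil (PF.cons PF.nil PF.nil))))))) (PF.cons (PF.cons (PF.leaf (nat_lit 4602339) (nat_lit 1349987) (nat_lit 51924540) (nat_lit 2019637) [(nat_lit 0), (nat_lit 1349987), (nat_lit 0), (nat_lit 9114674)]) (PF.cons (PF.leaf (nat_lit 4849569) (nat_lit 353543) (nat_lit 51500023) (nat_lit 2038163) [(nat_lit 353543), (nat_lit 1366228), (nat_lit 0), (nat_lit 9118398)]) (PF.cons (PF.leaf (nat_lit 5106271) (nat_lit 361628) (nat_lit 51064074) (nat_lit 2055918) [(nat_lit 361628), (nat_lit 1381771), (nat_lit 0), (nat_lit 9120250)]) (PF.cons (PF.leaf (nat_lit 5370610) (nat_lit 369160) (nat_lit 50618689) (nat_lit 2072815) [(nat_lit 369160), (nat_lit 1396565), (nat_lit 0), (nat_lit 9120131)]) (PF.cons PF.nil PF.nil))))) (PF.cons (PF.cons (PF.leaf (nat_lit 5321385) (nat_lit 1398065) (nat_lit 50326690) (nat_lit 2075939) [(nat_lit 0), (nat_lit 1398065), (nat_lit 0), (nat_lit 9113922)]) (PF.cons (PF.leaf (nat_lit 5582224) (nat_lit 373679) (nat_lit 49887330) (nat_lit 2091076)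 [(nat_lit 373679), (nat_lit 1411516), (nat_lit 0), (nat_lit 9110661)]) (PF.cons PF.nil (PF.cons PF.nil PF.nil)))) (PF.cons (PF.cons (PF.leaf (nat_lit 6058051) (nat_lit 1436423) (nat_lit 48718503) (nat_lit 2119904)
 [(nat_lit 0), (nat_lit 1436423), (nat_lit 0), (nat_lit 9088286)]) (PF.cons PF.nil PF.nil)) (PF.cons PF.nil (PF.cons PF.nil PF.nil)))))))) (PF.cons (PF.cons (PF.cons (PF.leaf (nat_lit 3847617) (nat_lit 1941752) (nat_lit 52935111) (nat_lit 1941752) [(nat_lit 0), (nat_lit 0), (nat_lit 3155121), (nat_lit 9076826)]) (PF.cons (PF.leaf (nat_lit 4059214) (nat_lit 317448) (nat_lit 52566699) (nat_lit 1962709) [(nat_lit 317448), (nat_lit 0), (nat_lit 3177177), (nat_lit 9084778)]) (PF.cons (PF.leaf (nat_lit 4284976) (nat_lit 328311) (nat_lit 52178429) (nat_lit 1983319) [(nat_lit 328311), (nat_lit 0), (nat_lit 3198950), (nat_lit 9091490)]) (PF.cons (PF.leaf (nat_lit 4521931) (nat_lit 338244) (nat_lit 51773895) (nat_lit 2003341) [(nat_lit 338244), (nat_lit 0), (nat_lit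 3220134), (nat_lit 9096708)]) (PF.cons (PF.leaf (nat_lit 4768643) (nat_lit 347397) (nat_lit 51355848) (nat_lit 2022616) [(nat_lit 347397), (nat_lit 0), (nat_lit 3240513), (nat_lit 9100247)]) (PF.cons (PF.leaf (nat_lit 5023912) (nat_lit 355874) (nat_lit 50926497) (nat_lit 2041040) [(nat_lit 355874), (nat_lit 0), (nat_lit 3259933), (nat_lit 9101968)]) (PF.cons PF.nil PF.nil))))))) (PF.cons (PF.cons (PF.leaf (nat_lit 4505508)
 (nat_lit 1338409) (nat_lit 51437343) (nat_lit 2009744) [(nat_lit 0), (nat_lit 1338409), (nat_lit 3228793), (nat_lit 9094521)]) (PF.cons (PF.leaf (nat_lit 4738453) (nat_lit 343868) (nat_lit 51038663) (nat_lit 2027657) [(nat_lit 343868), (nat_lit 1354628), (nat_lit 3247431), (nat_lit 9096563)]) (PF.cons (PF.leaf (nat_lit 4982478) (nat_lit 352760) (nat_lit 50625797) (nat_lit 2044953) [(nat_lit 352760), (nat_lit 1370213), (nat_lit 3265375), (nat_lit 9096952)]) (PF.cons (PF.leaf (nat_lit 5235282) (nat_lit 360950) (nat_lit 50201340) (nat_lit 2061507)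 [(nat_lit 360950), (nat_lit 1385088), (nat_lit 3282459), (nat_lit 9095563)]) (PF.cons (PF.leaf (nat_lit 5495726) (nat_lit 368530) (nat_lit 49767361) (nat_lit 2077236) [(nat_lit 368530), (nat_lit 1399211), (nat_lit 3298567), (nat_lit 9092312)]) PF.nil))))) (PF.cons (PF.cons (PF.leaf (nat_lit 5196680) (nat_lit 1386649) (nat_lit 49895115) (nat_lit 2064884) [(nat_lit 0), (nat_lit 1386649), (nat_lit 3287006), (nat_lit 9088508)]) (PF.cons (PF.leaf (nat_lit 5445535) (nat_lit 365370) (nat_lit 49477357) (nat_lit 2079675) [(nat_lit 365370), (nat_lit 1400147), (nat_lit 3301884), (nat_lit 9084230)]) (PF.cons (PF.leaf (nat_lit 5703054) (nat_lit 372707)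
 (nat_lit 49049687) (nat_lit 2093735) [(nat_lit 372707), (nat_lit 1412976), (nat_lit 3315879), (nat_lit 9078140)]) (PF.cons PF.nil PF.nil)))) (PF.cons (PF.cons (PF.leaf (nat_lit 5909642) (nat_lit 1425230) (nat_lit 48335013) (nat_lit 2108193) [(nat_lit 0), (nat_lit 1425230), (nat_lit 3330412), (nat_lit 9059501)]) (PF.cons (PF.leaf (nat_lit 6170024) (nat_lit 382868) (nat_lit 47906804) (nat_lit 2119969) [(nat_lit 382868), (nat_lit 1436210), (nat_lit 3341534), (nat_lit 9049006)]) PF.nil)) (PF.cons PF.nil (PF.cons PF.nil PF.nil)))))) (PF.cons (PF.cons (PF.cons (PF.leaf (nat_lit 5085031) (nat_lit 2053279) (nat_lit 49441460) (nat_lit 2053279) [(nat_lit 0), (nat_lit 0), (nat_lit 3276101), (nat_lit 9061869)]) (PF.cons (PF.leaf (nat_lit 5320199) (nat_lit 355538) (nat_lit 49048722) (nat_lit 2067709) [(nat_lit 355538), (nat_lit 0), (nat_lit 3290073), (nat_lit 9056695)]) (PF.cons (PF.leaf (nat_lit 5565619) (nat_lit 363723) (nat_lit 48643303) (nat_lit 2081527) [(nat_lit 363723),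 (nat_lit 0), (nat_lit 3303345), (nat_lit 9049844)]) (PF.cons (PF.leaf (nat_lit 5819109) (nat_lit 371194) (nat_lit 48227750) (nat_lit 2094636) [(nat_lit 371194), (nat_lit 0), (nat_lit 3315790), (nat_lit 9041261)])
 (PF.cons PF.nil PF.nil))))) (PF.cons (PF.cons (PF.leaf (nat_lit 5772104) (nat_lit 1413219) (nat_lit 47934975) (nat_lit 2095998) [(nat_lit 0), (nat_lit 1413219), (nat_lit 3317478), (nat_lit 9029662)]) (PF.cons (PF.leaf (nat_lit 6021119) (nat_lit 374487) (nat_lit 47527469) (nat_lit 2107612) [(nat_lit 374487), (nat_lit 1424356), (nat_lit 3328071), (nat_lit 9018744)]) (PF.cons (PF.leaf (nat_lit 6278081) (nat_lit 381151) (nat_lit 47111344) (nat_lit 2118537) [(nat_lit 381151), (nat_lit 1434858), (nat_lit 3337832), (nat_lit 9006104)]) (PF.cons PF.nil PF.nil)))) (PF.cons (PF.cons (PF.leaf (nat_lit 6475854) (nat_lit 1443737) (nat_lit 46423310) (nat_lit 2128383) [(nat_lit 0), (nat_lit 1443737), (nat_lit 3346019), (nat_lit 8977604)]) (PF.cons PF.nil PF.nil)) (PF.cons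 PF.nil (PF.cons PF.nil PF.nil))))) (PF.cons (PF.cons (PF.cons (PF.leaf (nat_lit 6327403) (nat_lit 2115473) (nat_lit 46053570) (nat_lit 2115473) [(nat_lit 0), (nat_lit 0), (nat_lit 3331635), (nat_lit 8944863)]) (PF.cons (PF.leaf (nat_lit 6575418) (nat_lit 381313) (nat_lit 45658720) (nat_lit 2124385) [(nat_lit 381313), (nat_lit 0), (nat_lit 3338626), (nat_lit 8928516)]) (PF.cons PF.nil (PF.cons PF.nil PF.nil)))) (PF.cons (PF.cons
 (PF.leaf (nat_lit 7019677) (nat_lit 1455085) (nat_lit 44597292) (nat_lit 2138680) [(nat_lit 0), (nat_lit 1455085), (nat_lit 3347824), (nat_lit 8874281)]) (PF.cons PF.nil PF.nil)) (PF.cons PF.nil PF.nil))) (PF.cons (PF.cons (PF.cons (PF.leaf (nat_lit 7541294) (nat_lit 2140887) (nat_lit 42859431) (nat_lit 2140887) [(nat_lit 0), (nat_lit 0), (nat_lit 3338482), (nat_lit 8754562)]) (PF.cons PF.nil PF.nil)) (PF.cons PF.nil PF.nil)) (PF.cons PF.nil PF.nil)))))) (PF.cons (PF.cons (PF.cons (PF.cons (PF.leaf (nat_lit 4885288) (nat_lit 1978607) (nat_lit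 47395783) (nat_lit 1978607) [(nat_lit 0), (nat_lit 0), (nat_lit 0), (nat_lit 8867211)]) (PF.cons (PF.leaf (nat_lit 5093129) (nat_lit 327162) (nat_lit 47065959) (nat_lit 1993865) [(nat_lit 327162), (nat_lit 0), (nat_lit 0), (nat_lit 8860912)]) (PF.cons (PF.leaf (nat_lit 5313871) (nat_lit 337110) (nat_lit 46719634) (nat_lit 2008627) [(nat_lit 337110), (nat_lit 0), (nat_lit 0), (nat_lit 8853165)]) (PF.cons (PF.leaf (nat_lit 5544563) (nat_lit 346048) (nat_lit 46360100) (nat_lit 2022731) [(nat_lit 346048), (nat_lit 0), (nat_lit 0), (nat_lit 8843917)]) (PF.cons (PF.leaf (nat_lit 5783770) (nat_lit 354151) (nat_lit 45989848) (nat_lit 2036083)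
 [(nat_lit 354151), (nat_lit 0), (nat_lit 0), (nat_lit 8833136)]) (PF.cons (PF.leaf (nat_lit 6030313) (nat_lit 361544) (nat_lit 45610855) (nat_lit 2048625) [(nat_lit 361544), (nat_lit 0), (nat_lit 0), (nat_lit 8820803)]) (PF.cons PF.nil PF.nil))))))) (PF.cons (PF.cons (PF.leaf (nat_lit 5515271) (nat_lit 1355067) (nat_lit 46067000) (nat_lit 2024727) [(nat_lit 0), (nat_lit 1355067), (nat_lit 0), (nat_lit 8831008)]) (PF.cons (PF.leaf (nat_lit 5741151) (nat_lit 349787) (nat_lit 45714640) (nat_lit 2037164) [(nat_lit 349787), (nat_lit 1367456), (nat_lit 0), (nat_lit 8819882)]) (PF.cons (PF.leaf (nat_lit 5976867) (nat_lit 357683) (nat_lit 45350857) (nat_lit 2048968) [(nat_lit 357683), (nat_lit 1379177), (nat_lit 0), (nat_lit 8807221)]) (PF.cons (PF.leaf (nat_lit 6220257) (nat_lit 364845) (nat_lit 44977965) (nat_lit 2060062) [(nat_lit 364845), (nat_lit 1390193), (nat_lit 0), (nat_lit 8793027)]) (PF.cons (PF.leaf (nat_lit 6470209) (nat_lit 371379) (nat_lit 44597781) (nat_lit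 2070404) [(nat_lit 371379), (nat_lit 1400491), (nat_lit 0), (nat_lit 8777309)]) PF.nil))))) (PF.cons (PF.cons (PF.leaf (nat_lit 6170184) (nat_lit 1389357) (nat_lit 44714032) (nat_lit 2060055) [(nat_lit 0), (nat_lit
 1389357), (nat_lit 0), (nat_lit 8778004)]) (PF.cons (PF.leaf (nat_lit 6409058) (nat_lit 367597) (nat_lit 44348575) (nat_lit 2069803) [(nat_lit 367597), (nat_lit 1399273), (nat_lit 0), (nat_lit 8762144)]) (PF.cons (PF.leaf (nat_lit 6655555) (nat_lit 373946) (nat_lit 43975375) (nat_lit 2078880) [(nat_lit 373946), (nat_lit 1408550), (nat_lit 0), (nat_lit 8744780)]) (PF.cons PF.nil PF.nil)))) (PF.cons (PF.cons (PF.leaf (nat_lit 6840333) (nat_lit 1415477) (nat_lit 43357541) (nat_lit 2085874) [(nat_lit 0), (nat_lit 1415477), (nat_lit 0), (nat_lit 8709481)]) (PF.cons (PF.leaf (nat_lit 7088379) (nat_lit 381667) (nat_lit 42985929) (nat_lit 2093143) [(nat_lit 381667), (nat_lit 1423215), (nat_lit 0), (nat_lit 8689213)]) PF.nil)) (PF.cons PF.nil (PF.cons PF.nil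 PF.nil)))))) (PF.cons (PF.cons (PF.cons (PF.leaf (nat_lit 6041839) (nat_lit 2045604) (nat_lit 44335355) (nat_lit 2045604) [(nat_lit 0), (nat_lit 0), (nat_lit 3240783), (nat_lit 8743534)]) (PF.cons (PF.leaf (nat_lit 6268170) (nat_lit 357351) (nat_lit 43991889) (nat_lit 2055418) [(nat_lit 357351), (nat_lit 0), (nat_lit 3248202), (nat_lit 8727975)]) (PF.cons (PF.leaf (nat_lit 6503716) (nat_lit 364628) (nat_lit 43638156) (nat_lit 2064628)
 [(nat_lit 364628), (nat_lit 0), (nat_lit 3254955), (nat_lit 8710907)]) (PF.cons (PF.leaf (nat_lit 6746333) (nat_lit 371175) (nat_lit 43276387) (nat_lit 2073177) [(nat_lit 371175), (nat_lit 0), (nat_lit 3260973), (nat_lit 8692374)]) (PF.cons PF.nil PF.nil))))) (PF.cons (PF.cons (PF.leaf (nat_lit 6689625) (nat_lit 1402298) (nat_lit 43025854) (nat_lit 2071883) [(nat_lit 0), (nat_lit 1402298), (nat_lit 3258868), (nat_lit 8674953)]) (PF.cons (PF.leaf (nat_lit 6927441) (nat_lit 373078) (nat_lit 42672176) (nat_lit 2079300) [(nat_lit 373078),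 (nat_lit 1410409), (nat_lit 3263580), (nat_lit 8655133)]) (PF.cons (PF.leaf (nat_lit 7172304) (nat_lit 378867) (nat_lit 42311686) (nat_lit 2086097) [(nat_lit 378867), (nat_lit 1417922), (nat_lit 3267576), (nat_lit 8633897)]) (PF.cons PF.nil PF.nil)))) (PF.cons (PF.cons (PF.leaf (nat_lit 7349136) (nat_lit 1422459) (nat_lit 41720408) (nat_lit 2089920) [(nat_lit 0), (nat_lit 1422459), (nat_lit 3267331), (nat_lit 8593116)]) (PF.cons (PF.leaf (nat_lit 7594846) (nat_lit 385330) (nat_lit 41362740) (nat_lit 2095145) [(nat_lit 385330), (nat_lit 1428618), (nat_lit 3269486), (nat_lit 8569435)]) PF.nil)) (PF.cons PF.nil (PF.cons PF.nil PF.nil))))) (PF.cons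
 (PF.cons (PF.cons (PF.leaf (nat_lit 7190709) (nat_lit 2075928) (nat_lit 41414650) (nat_lit 2075928) [(nat_lit 0), (nat_lit 0), (nat_lit 3251183), (nat_lit 8557934)]) (PF.cons (PF.leaf (nat_lit 7426730) (nat_lit 376917) (nat_lit 41073816) (nat_lit 2081374) [(nat_lit 376917), (nat_lit 0), (nat_lit 3253411), (nat_lit 8534940)]) (PF.cons (PF.leaf (nat_lit 7669297) (nat_lit 382207) (nat_lit 40726958) (nat_lit 2086245) [(nat_lit 382207), (nat_lit 0), (nat_lit 3254973), (nat_lit 8510623)]) (PF.cons PF.nil PF.nil)))) (PF.cons (PF.cons (PF.leaf (nat_lit 7838372) (nat_lit 1424599) (nat_lit 40162772) (nat_lit 2087457) [(nat_lit 0), (nat_lit 1424599), (nat_lit 3251338), (nat_lit 8465653)]) (PF.cons PF.nil PF.nil)) (PF.cons PF.nil PF.nil))) (PF.cons (PF.cons (PF.cons (PF.leaf (nat_lit 8308559) (nat_lit 2079703) (nat_lit 38683709) (nat_lit 2079703) [(nat_lit 0), (nat_lit 0), (nat_lit 3228396), (nat_lit 8330105)]) (PF.cons PF.nil PF.nil)) (PF.cons PF.nil PF.nil)) (PF.cons PF.nil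 PF.nil))))) (PF.cons (PF.cons (PF.cons (PF.cons (PF.leaf (nat_lit 6873422) (nat_lit 2007670) (nat_lit 40013544) (nat_lit 2007670) [(nat_lit 0), (nat_lit 0), (nat_lit 0), (nat_lit 8362532)]) (PF.cons (PF.leaf (nat_lit
 7090356) (nat_lit 353631) (nat_lit 39715395) (nat_lit 2014407) [(nat_lit 353631), (nat_lit 0), (nat_lit 0), (nat_lit 8341793)]) (PF.cons (PF.leaf (nat_lit 7315664) (nat_lit 360193) (nat_lit 39408745) (nat_lit 2020565) [(nat_lit 360193), (nat_lit 0), (nat_lit 0), (nat_lit 8319705)]) (PF.cons (PF.leaf (nat_lit 7547344) (nat_lit 366028) (nat_lit 39095526) (nat_lit 2026116) [(nat_lit 366028), (nat_lit 0), (nat_lit 0), (nat_lit 8296361)]) (PF.cons PF.nil PF.nil))))) (PF.cons (PF.cons (PF.leaf (nat_lit 7484443) (nat_lit 1373939) (nat_lit 38881843) (nat_lit 2023302) [(nat_lit 0), (nat_lit 1373939), (nat_lit 0), (nat_lit 8276575)]) (PF.cons (PF.leaf (nat_lit 7711198) (nat_lit 367009) (nat_lit 38576105) (nat_lit 2027982) [(nat_lit 367009), (nat_lit 1379991),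 (nat_lit 0), (nat_lit 8252574)]) (PF.cons (PF.leaf (nat_lit 7944366) (nat_lit 372137) (nat_lit 38264792) (nat_lit 2032103) [(nat_lit 372137), (nat_lit 1385487), (nat_lit 0), (nat_lit 8227384)]) (PF.cons PF.nil PF.nil)))) (PF.cons (PF.cons (PF.leaf (nat_lit 8104180) (nat_lit 1387283) (nat_lit 37757436) (nat_lit 2032241) [(nat_lit 0), (nat_lit 1387283), (nat_lit 0), (nat_lit 8181522)]) (PF.cons PF.nil PF.nil)) PF.nil))) (PF.cons (PF.cons
 (PF.cons (PF.leaf (nat_lit 7940910) (nat_lit 2018216) (nat_lit 37503869) (nat_lit 2018216) [(nat_lit 0), (nat_lit 0), (nat_lit 3145784), (nat_lit 8146981)]) (PF.cons (PF.leaf (nat_lit 8165532) (nat_lit 368952) (nat_lit 37209873) (nat_lit 2021423) [(nat_lit 368952), (nat_lit 0), (nat_lit 3145129), (nat_lit 8121144)]) (PF.cons PF.nil PF.nil))) (PF.cons (PF.cons (PF.leaf (nat_lit 8549210) (nat_lit 1383939) (nat_lit 36427317) (nat_lit 2022427) [(nat_lit 0), (nat_lit 1383939), (nat_lit 3136522), (nat_lit 8046201)]) PF.nil) PF.nil))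 (PF.cons PF.nil PF.nil))) (PF.cons (PF.cons (PF.cons (PF.cons (PF.leaf (nat_lit 8603934) (nat_lit 1952240) (nat_lit 34192193) (nat_lit 1952240) [(nat_lit 0), (nat_lit 0), (nat_lit 0), (nat_lit 7741094)]) (PF.cons (PF.leaf (nat_lit 8817973) (nat_lit 359176) (nat_lit 33937713) (nat_lit 1953977) [(nat_lit 359176), (nat_lit 0), (nat_lit 0), (nat_lit 7714486)]) PF.nil)) (PF.cons PF.nil PF.nil)) (PF.cons PF.nil PF.nil)) (PF.cons PF.nil (PF.cons PF.nil (PF.cons PF.nil (PF.cons PF.nil PF.nil)))))))))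

def p12_10_0_0 : pfC (piC [(nat_lit 41997052), (nat_lit 26592602), (nat_lit 19805017), (nat_lit 13318063)] (nat_lit 29374635)) p12_10_0 (nat_lit 4) (nat_lit 0) (nat_lit 1) = true := by decide +kernel
def p12_10_0_1 : pfC (piC [(nat_lit 41997052), (nat_lit 26592602), (nat_lit 19805017), (nat_lit 13318063)] (nat_lit 29374635)) p12_10_0 (nat_lit 4) (nat_lit 1) (nat_lit 2) = true := by decide +kernel
def p12_10_0_2 : pfC (piC [(nat_lit 41997052), (nat_lit 26592602), (nat_lit 19805017), (nat_lit 13318063)] (nat_lit 29374635)) p12_10_0 (nat_lit 4) (nat_lit 2) (nat_lit 3) = true := by decide +kernel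
def p12_10_0_3 : pfC (piC [(nat_lit 41997052), (nat_lit 26592602), (nat_lit 19805017), (nat_lit 13318063)] (nat_lit 29374635)) p12_10_0 (nat_lit 4) (nat_lit 3) (nat_lit 4) = true := by decide +kernel
def p12_10_0_4 : pfC (piC [(nat_lit 41997052), (nat_lit 26592602), (nat_lit 19805017), (nat_lit 13318063)] (nat_lit 29374635)) p12_10_0 (nat_lit 4) (nat_lit 4) (nat_lit 5) = true := by decide +kernel
def p12_10_0_5 : pfC (piC [(nat_lit 41997052), (nat_lit 26592602), (nat_lit 19805017), (nat_lit 13318063)] (nat_lit 29374635)) p12_10_0 (nat_lit 4) (nat_lit 5) (nat_lit 6) = true := by decide +kernel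
def p12_10_0_6 : pfC (piC [(nat_lit 41997052), (nat_lit 26592602), (nat_lit 19805017), (nat_lit 13318063)] (nat_lit 29374635)) p12_10_0 (nat_lit 4) (nat_lit 6) (nat_lit 7) = true := by decide +kernel
def p12_10_0_7 : pfC (piC [(nat_lit 41997052), (nat_lit 26592602), (nat_lit 19805017), (nat_lit 13318063)] (nat_lit 29374635)) p12_10_0 (nat_lit 4) (nat_lit 7) (nat_lit 8) = true := by decide +kernel
def p12_10_0_8 : pfC (piC [(nat_lit 41997052), (nat_lit 26592602), (nat_lit 19805017), (nat_lit 13318063)] (nat_lit 29374635)) p12_10_0 (nat_lit 4) (nat_lit 8) (nat_lit 9) = true := by decide +kernel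
def p12_10_0_9 : pfC (piC [(nat_lit 41997052), (nat_lit 26592602), (nat_lit 19805017), (nat_lit 13318063)] (nat_lit 29374635)) p12_10_0 (nat_lit 4) (nat_lit 9) (nat_lit 10) = true := by decide +kernel
def p12_10_0_10 : pfC (piC [(nat_lit 41997052), (nat_lit 26592602), (nat_lit 19805017), (nat_lit 13318063)] (nat_lit 29374635)) p12_10_0 (nat_lit 4) (nat_lit 10) (nat_lit 11) = true := by decide +kernel
def p12_10_0_11 : pfC (piC [(nat_lit 41997052), (nat_lit 26592602), (nat_lit 19805017), (nat_lit 13318063)] (nat_lit 29374635)) p12_10_0 (nat_lit 4) (nat_lit 11) (nat_lit 12) = true := by decide +kernel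
def p12_10_0_12 : pfC (piC [(nat_lit 41997052), (nat_lit 26592602), (nat_lit 19805017), (nat_lit 13318063)] (nat_lit 29374635)) p12_10_0 (nat_lit 4) (nat_lit 12) (nat_lit 13) = true := by decide +kernel
def p12_10_0_13 : pfC (piC [(nat_lit 41997052), (nat_lit 26592602), (nat_lit 19805017), (nat_lit 13318063)] (nat_lit 29374635)) p12_10_0 (nat_lit 4) (nat_lit 13) (nat_lit 14) = true := by decide +kernel
def p12_10_0_14 : pfC (piC [(nat_lit 41997052), (nat_lit 26592602), (nat_lit 19805017), (nat_lit 13318063)] (nat_lit 29374635)) p12_10_0 (nat_lit 4) (nat_lit 14) (nat_lit 15) = true := by decide +kernel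
def p12_10_0_15 : pfC (piC [(nat_lit 41997052), (nat_lit 26592602), (nat_lit 19805017), (nat_lit 13318063)] (nat_lit 29374635)) p12_10_0 (nat_lit 4) (nat_lit 15) (nat_lit 16) = true := by decide +kernel
def p12_10_0_16 : pfC (piC [(nat_lit 41997052), (nat_lit 26592602), (nat_lit 19805017), (nat_lit 13318063)] (nat_lit 29374635)) p12_10_0 (nat_lit 4) (nat_lit 16) (nat_lit 17) = true := by decide +kernel
def p12_10_0_17 : pfC (piC [(nat_lit 41997052), (nat_lit 26592602), (nat_lit 19805017), (nat_lit 13318063)] (nat_lit 29374635)) p12_10_0 (nat_lit 4) (nat_lit 17) (nat_lit 18) = true := by decide +kernel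
def p12_10_0_18 : pfC (piC [(nat_lit 41997052), (nat_lit 26592602), (nat_lit 19805017), (nat_lit 13318063)] (nat_lit 29374635)) p12_10_0 (nat_lit 4) (nat_lit 18) (nat_lit 19) = true := by decide +kernel
def p12_10_0_19 : pfC (piC [(nat_lit 41997052), (nat_lit 26592602), (nat_lit 19805017), (nat_lit 13318063)] (nat_lit 29374635)) p12_10_0 (nat_lit 4) (nat_lit 19) (nat_lit 20) = true := by decide +kernel
def p12_10_0_20 : pfC (piC [(nat_lit 41997052), (nat_lit 26592602), (nat_lit 19805017), (nat_lit 13318063)] (nat_lit 29374635)) p12_10_0 (nat_lit 4) (nat_lit 20) (nat_lit 21) = true := by decide +kernel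
def p12_10_0_21 : pfC (piC [(nat_lit 41997052), (nat_lit 26592602), (nat_lit 19805017), (nat_lit 13318063)] (nat_lit 29374635)) p12_10_0 (nat_lit 4) (nat_lit 21) (nat_lit 22) = true := by decide +kernel
def p12_10_0_22 : pfC (piC [(nat_lit 41997052), (nat_lit 26592602), (nat_lit 19805017), (nat_lit 13318063)] (nat_lit 29374635)) p12_10_0 (nat_lit 4) (nat_lit 22) (nat_lit 23) = true := by decide +kernel
def p12_10_0_23 : pfC (piC [(nat_lit 41997052), (nat_lit 26592602), (nat_lit 19805017), (nat_lit 13318063)] (nat_lit 29374635)) p12_10_0 (nat_lit 4) (nat_lit 23) (nat_lit 24) = true := by decide +kernel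
def p12_10_0_24 : pfC (piC [(nat_lit 41997052), (nat_lit 26592602), (nat_lit 19805017), (nat_lit 13318063)] (nat_lit 29374635)) p12_10_0 (nat_lit 4) (nat_lit 24) (nat_lit 25) = true := by decide +kernel
def p12_10_0_25 : pfC (piC [(nat_lit 41997052), (nat_lit 26592602), (nat_lit 19805017), (nat_lit 13318063)] (nat_lit 29374635)) p12_10_0 (nat_lit 4) (nat_lit 25) (nat_lit 26) = true := by decide +kernel
def p12_10_0_26 : pfC (piC [(nat_lit 41997052), (nat_lit 26592602), (nat_lit 19805017), (nat_lit 13318063)] (nat_lit 29374635)) p12_10_0 (nat_lit 4) (nat_lit 26) (nat_lit 27) = true := by decide +kernel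
def p12_10_0_27 : pfC (piC [(nat_lit 41997052), (nat_lit 26592602), (nat_lit 19805017), (nat_lit 13318063)] (nat_lit 29374635)) p12_10_0 (nat_lit 4) (nat_lit 27) (nat_lit 28) = true := by decide +kernel
def p12_10_0_28 : pfC (piC [(nat_lit 41997052), (nat_lit 26592602), (nat_lit 19805017), (nat_lit 13318063)] (nat_lit 29374635)) p12_10_0 (nat_lit 4) (nat_lit 28) (nat_lit 29) = true := by decide +kernel
def p12_10_0_29 : pfC (piC [(nat_lit 41997052), (nat_lit 26592602), (nat_lit 19805017), (nat_lit 13318063)] (nat_lit 29374635)) p12_10_0 (nat_lit 4) (nat_lit 29) (nat_lit 30) = true := by decide +kernel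
def p12_10_0_30 : pfC (piC [(nat_lit 41997052), (nat_lit 26592602), (nat_lit 19805017), (nat_lit 13318063)] (nat_lit 29374635)) p12_10_0 (nat_lit 4) (nat_lit 30) (nat_lit 31) = true := by decide +kernel
def p12_10_0_31 : pfC (piC [(nat_lit 41997052), (nat_lit 26592602), (nat_lit 19805017), (nat_lit 13318063)] (nat_lit 29374635)) p12_10_0 (nat_lit 4) (nat_lit 31) (nat_lit 32) = true := by decide +kernel
def p12_10_0_32 : pfC (piC [(nat_lit 41997052), (nat_lit 26592602), (nat_lit 19805017), (nat_lit 13318063)] (nat_lit 29374635)) p12_10_0 (nat_lit 4) (nat_lit 32) (nat_lit 33) = true := by decide +kernel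
def p12_10_0_33 : pfC (piC [(nat_lit 41997052), (nat_lit 26592602), (nat_lit 19805017), (nat_lit 13318063)] (nat_lit 29374635)) p12_10_0 (nat_lit 4) (nat_lit 33) (nat_lit 34) = true := by decide +kernel
def p12_10_0_34 : pfC (piC [(nat_lit 41997052), (nat_lit 26592602), (nat_lit 19805017), (nat_lit 13318063)] (nat_lit 29374635)) p12_10_0 (nat_lit 4) (nat_lit 34) (nat_lit 35) = true := by decide +kernel
def p12_10_0_35 : pfC (piC [(nat_lit 41997052), (nat_lit 26592602), (nat_lit 19805017), (nat_lit 13318063)] (nat_lit 29374635)) p12_10_0 (nat_lit 4) (nat_lit 35) (nat_lit 36) = true := by decide +kernel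
def p12_10_0_36 : pfC (piC [(nat_lit 41997052), (nat_lit 26592602), (nat_lit 19805017), (nat_lit 13318063)] (nat_lit 29374635)) p12_10_0 (nat_lit 4) (nat_lit 36) (nat_lit 37) = true := by decide +kernel
def p12_10_0_37 : pfC (piC [(nat_lit 41997052), (nat_lit 26592602), (nat_lit 19805017), (nat_lit 13318063)] (nat_lit 29374635)) p12_10_0 (nat_lit 4) (nat_lit 37) (nat_lit 38) = true := by decide +kernel
def p12_10_0_38 : pfC (piC [(nat_lit 41997052), (nat_lit 26592602), (nat_lit 19805017), (nat_lit 13318063)] (nat_lit 29374635)) p12_10_0 (nat_lit 4) (nat_lit 38) (nat_lit 39) = true := by decide +kernel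
def p12_10_0_39 : pfC (piC [(nat_lit 41997052), (nat_lit 26592602), (nat_lit 19805017), (nat_lit 13318063)] (nat_lit 29374635)) p12_10_0 (nat_lit 4) (nat_lit 39) (nat_lit 40) = true := by decide +kernel
def p12_10_0_40 : pfC (piC [(nat_lit 41997052), (nat_lit 26592602), (nat_lit 19805017), (nat_lit 13318063)] (nat_lit 29374635)) p12_10_0 (nat_lit 4) (nat_lit 40) (nat_lit 41) = true := by decide +kernel
def p12_10_0_41 : pfC (piC [(nat_lit 41997052), (nat_lit 26592602), (nat_lit 19805017), (nat_lit 13318063)] (nat_lit 29374635)) p12_10_0 (nat_lit 4) (nat_lit 41) (nat_lit 42) = true := by decide +kernel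
def p12_10_0_42 : pfC (piC [(nat_lit 41997052), (nat_lit 26592602), (nat_lit 19805017), (nat_lit 13318063)] (nat_lit 29374635)) p12_10_0 (nat_lit 4) (nat_lit 42) (nat_lit 43) = true := by decide +kernel
def p12_10_0_43 : pfC (piC [(nat_lit 41997052), (nat_lit 26592602), (nat_lit 19805017), (nat_lit 13318063)] (nat_lit 29374635)) p12_10_0 (nat_lit 4) (nat_lit 43) (nat_lit 44) = true := by decide +kernel
def p12_10_0_44 : pfC (piC [(nat_lit 41997052), (nat_lit 26592602), (nat_lit 19805017), (nat_lit 13318063)] (nat_lit 29374635)) p12_10_0 (nat_lit 4) (nat_lit 44) (nat_lit 45) = true := by decide +kernel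
def p12_10_0_45 : pfC (piC [(nat_lit 41997052), (nat_lit 26592602), (nat_lit 19805017), (nat_lit 13318063)] (nat_lit 29374635)) p12_10_0 (nat_lit 4) (nat_lit 45) (nat_lit 46) = true := by decide +kernel
def p12_10_0_46 : pfC (piC [(nat_lit 41997052), (nat_lit 26592602), (nat_lit 19805017), (nat_lit 13318063)] (nat_lit 29374635)) p12_10_0 (nat_lit 4) (nat_lit 46) (nat_lit 47) = true := by decide +kernel
def p12_10_0_47 : pfC (piC [(nat_lit 41997052), (nat_lit 26592602), (nat_lit 19805017), (nat_lit 13318063)] (nat_lit 29374635)) p12_10_0 (nat_lit 4) (nat_lit 47) (nat_lit 48) = true := by decide +kernel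
def p12_10_0_48 : pfC (piC [(nat_lit 41997052), (nat_lit 26592602), (nat_lit 19805017), (nat_lit 13318063)] (nat_lit 29374635)) p12_10_0 (nat_lit 4) (nat_lit 48) (nat_lit 49) = true := by decide +kernel
def p12_10_0_49 : pfC (piC [(nat_lit 41997052), (nat_lit 26592602), (nat_lit 19805017), (nat_lit 13318063)] (nat_lit 29374635)) p12_10_0 (nat_lit 4) (nat_lit 49) (nat_lit 50) = true := by decide +kernel
def p12_10_0_50 : pfC (piC [(nat_lit 41997052), (nat_lit 26592602), (nat_lit 19805017), (nat_lit 13318063)] (nat_lit 29374635)) p12_10_0 (nat_lit 4) (nat_lit 50) (nat_lit 51) = true := by decide +kernel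
def p12_10_0_51 : pfC (piC [(nat_lit 41997052), (nat_lit 26592602), (nat_lit 19805017), (nat_lit 13318063)] (nat_lit 29374635)) p12_10_0 (nat_lit 4) (nat_lit 51) (nat_lit 52) = true := by decide +kernel
def p12_10_0_52 : pfC (piC [(nat_lit 41997052), (nat_lit 26592602), (nat_lit 19805017), (nat_lit 13318063)] (nat_lit 29374635)) p12_10_0 (nat_lit 4) (nat_lit 52) (nat_lit 53) = true := by decide +kernel
def p12_10_0_53 : pfC (piC [(nat_lit 41997052), (nat_lit 26592602), (nat_lit 19805017), (nat_lit 13318063)] (nat_lit 29374635)) p12_10_0 (nat_lit 4) (nat_lit 53) (nat_lit 54) = true := by decide +kernel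
def p12_10_0_54 : pfC (piC [(nat_lit 41997052), (nat_lit 26592602), (nat_lit 19805017), (nat_lit 13318063)] (nat_lit 29374635)) p12_10_0 (nat_lit 4) (nat_lit 54) (nat_lit 55) = true := by decide +kernel
def p12_10_0_55 : pfC (piC [(nat_lit 41997052), (nat_lit 26592602), (nat_lit 19805017), (nat_lit 13318063)] (nat_lit 29374635)) p12_10_0 (nat_lit 4) (nat_lit 55) (nat_lit 56) = true := by decide +kernel
def p12_10_0_56 : pfC (piC [(nat_lit 41997052), (nat_lit 26592602), (nat_lit 19805017), (nat_lit 13318063)] (nat_lit 29374635)) p12_10_0 (nat_lit 4) (nat_lit 56) (nat_lit 57) = true := by decide +kernel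
def p12_10_0_57 : pfC (piC [(nat_lit 41997052), (nat_lit 26592602), (nat_lit 19805017), (nat_lit 13318063)] (nat_lit 29374635)) p12_10_0 (nat_lit 4) (nat_lit 57) (nat_lit 58) = true := by decide +kernel
def p12_10_0_58 : pfC (piC [(nat_lit 41997052), (nat_lit 26592602), (nat_lit 19805017), (nat_lit 13318063)] (nat_lit 29374635)) p12_10_0 (nat_lit 4) (nat_lit 58) (nat_lit 59) = true := by decide +kernel
def p12_10_0_59 : pfC (piC [(nat_lit 41997052), (nat_lit 26592602), (nat_lit 19805017), (nat_lit 13318063)] (nat_lit 29374635)) p12_10_0 (nat_lit 4) (nat_lit 59) (nat_lit 60) = true := by decide +kernel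
def p12_10_0_60 : pfC (piC [(nat_lit 41997052), (nat_lit 26592602), (nat_lit 19805017), (nat_lit 13318063)] (nat_lit 29374635)) p12_10_0 (nat_lit 4) (nat_lit 60) (nat_lit 61) = true := by decide +kernel
def p12_10_0_61 : pfC (piC [(nat_lit 41997052), (nat_lit 26592602), (nat_lit 19805017), (nat_lit 13318063)] (nat_lit 29374635)) p12_10_0 (nat_lit 4) (nat_lit 61) (nat_lit 62) = true := by decide +kernel
def p12_10_0_62 : pfC (piC [(nat_lit 41997052), (nat_lit 26592602), (nat_lit 19805017), (nat_lit 13318063)] (nat_lit 29374635)) p12_10_0 (nat_lit 4) (nat_lit 62) (nat_lit 63) = true := by decide +kernel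
def p12_10_0_63 : pfC (piC [(nat_lit 41997052), (nat_lit 26592602), (nat_lit 19805017), (nat_lit 13318063)] (nat_lit 29374635)) p12_10_0 (nat_lit 4) (nat_lit 63) (nat_lit 64) = true := by decide +kernel
def p12_10_0_64 : pfC (piC [(nat_lit 41997052), (nat_lit 26592602), (nat_lit 19805017), (nat_lit 13318063)] (nat_lit 29374635)) p12_10_0 (nat_lit 4) (nat_lit 64) (nat_lit 65) = true := by decide +kernel
def p12_10_0_65 : pfC (piC [(nat_lit 41997052), (nat_lit 26592602), (nat_lit 19805017), (nat_lit 13318063)] (nat_lit 29374635)) p12_10_0 (nat_lit 4) (nat_lit 65) (nat_lit 66) = true := by decide +kernel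
def p12_10_0_66 : pfC (piC [(nat_lit 41997052), (nat_lit 26592602), (nat_lit 19805017), (nat_lit 13318063)] (nat_lit 29374635)) p12_10_0 (nat_lit 4) (nat_lit 66) (nat_lit 67) = true := by decide +kernel
def p12_10_0_67 : pfC (piC [(nat_lit 41997052), (nat_lit 26592602), (nat_lit 19805017), (nat_lit 13318063)] (nat_lit 29374635)) p12_10_0 (nat_lit 4) (nat_lit 67) (nat_lit 68) = true := by decide +kernel
def p12_10_0_68 : pfC (piC [(nat_lit 41997052), (nat_lit 26592602), (nat_lit 19805017), (nat_lit 13318063)] (nat_lit 29374635)) p12_10_0 (nat_lit 4) (nat_lit 68) (nat_lit 69) = true := by decide +kernel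
def p12_10_0_69 : pfC (piC [(nat_lit 41997052), (nat_lit 26592602), (nat_lit 19805017), (nat_lit 13318063)] (nat_lit 29374635)) p12_10_0 (nat_lit 4) (nat_lit 69) (nat_lit 70) = true := by decide +kernel
def p12_10_0_70 : pfC (piC [(nat_lit 41997052), (nat_lit 26592602), (nat_lit 19805017), (nat_lit 13318063)] (nat_lit 29374635)) p12_10_0 (nat_lit 4) (nat_lit 70) (nat_lit 71) = true := by decide +kernel
def p12_10_0_71 : pfC (piC [(nat_lit 41997052), (nat_lit 26592602), (nat_lit 19805017), (nat_lit 13318063)] (nat_lit 29374635)) p12_10_0 (nat_lit 4) (nat_lit 71) (nat_lit 72) = true := by decide +kernel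
def p12_10_0_72 : pfC (piC [(nat_lit 41997052), (nat_lit 26592602), (nat_lit 19805017), (nat_lit 13318063)] (nat_lit 29374635)) p12_10_0 (nat_lit 4) (nat_lit 72) (nat_lit 73) = true := by decide +kernel
def p12_10_0_73 : pfC (piC [(nat_lit 41997052), (nat_lit 26592602), (nat_lit 19805017), (nat_lit 13318063)] (nat_lit 29374635)) p12_10_0 (nat_lit 4) (nat_lit 73) (nat_lit 74) = true := by decide +kernel
def p12_10_0_74 : pfC (piC [(nat_lit 41997052), (nat_lit 26592602), (nat_lit 19805017), (nat_lit 13318063)] (nat_lit 29374635)) p12_10_0 (nat_lit 4) (nat_lit 74) (nat_lit 75) = true := by decide +kernel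
def p12_10_0_75 : pfC (piC [(nat_lit 41997052), (nat_lit 26592602), (nat_lit 19805017), (nat_lit 13318063)] (nat_lit 29374635)) p12_10_0 (nat_lit 4) (nat_lit 75) (nat_lit 76) = true := by decide +kernel
def p12_10_0_76 : pfC (piC [(nat_lit 41997052), (nat_lit 26592602), (nat_lit 19805017), (nat_lit 13318063)] (nat_lit 29374635)) p12_10_0 (nat_lit 4) (nat_lit 76) (nat_lit 77) = true := by decide +kernel
def p12_10_0_77 : pfC (piC [(nat_lit 41997052), (nat_lit 26592602), (nat_lit 19805017), (nat_lit 13318063)] (nat_lit 29374635)) p12_10_0 (nat_lit 4) (nat_lit 77) (nat_lit 78) = true := by decide +kernel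
def p12_10_0_78 : pfC (piC [(nat_lit 41997052), (nat_lit 26592602), (nat_lit 19805017), (nat_lit 13318063)] (nat_lit 29374635)) p12_10_0 (nat_lit 4) (nat_lit 78) (nat_lit 79) = true := by decide +kernel
def p12_10_0_79 : pfC (piC [(nat_lit 41997052), (nat_lit 26592602), (nat_lit 19805017), (nat_lit 13318063)] (nat_lit 29374635)) p12_10_0 (nat_lit 4) (nat_lit 79) (nat_lit 80) = true := by decide +kernel
def p12_10_0_80 : pfC (piC [(nat_lit 41997052), (nat_lit 26592602), (nat_lit 19805017), (nat_lit 13318063)] (nat_lit 29374635)) p12_10_0 (nat_lit 4) (nat_lit 80) (nat_lit 81) = true := by decide +kernel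
def p12_10_0_81 : pfC (piC [(nat_lit 41997052), (nat_lit 26592602), (nat_lit 19805017), (nat_lit 13318063)] (nat_lit 29374635)) p12_10_0 (nat_lit 4) (nat_lit 81) (nat_lit 82) = true := by decide +kernel
def p12_10_0_82 : pfC (piC [(nat_lit 41997052), (nat_lit 26592602), (nat_lit 19805017), (nat_lit 13318063)] (nat_lit 29374635)) p12_10_0 (nat_lit 4) (nat_lit 82) (nat_lit 83) = true := by decide +kernel
def p12_10_0_83 : pfC (piC [(nat_lit 41997052), (nat_lit 26592602), (nat_lit 19805017), (nat_lit 13318063)] (nat_lit 29374635)) p12_10_0 (nat_lit 4) (nat_lit 83) (nat_lit 84) = true := by decide +kernel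
def p12_10_0_84 : pfC (piC [(nat_lit 41997052), (nat_lit 26592602), (nat_lit 19805017), (nat_lit 13318063)] (nat_lit 29374635)) p12_10_0 (nat_lit 4) (nat_lit 84) (nat_lit 85) = true := by decide +kernel
def p12_10_0_85 : pfC (piC [(nat_lit 41997052), (nat_lit 26592602), (nat_lit 19805017), (nat_lit 13318063)] (nat_lit 29374635)) p12_10_0 (nat_lit 4) (nat_lit 85) (nat_lit 86) = true := by decide +kernel
def p12_10_0_86 : pfC (piC [(nat_lit 41997052), (nat_lit 26592602), (nat_lit 19805017), (nat_lit 13318063)] (nat_lit 29374635)) p12_10_0 (nat_lit 4) (nat_lit 86) (nat_lit 87) = true := by decide +kernel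
def p12_10_0_87 : pfC (piC [(nat_lit 41997052), (nat_lit 26592602), (nat_lit 19805017), (nat_lit 13318063)] (nat_lit 29374635)) p12_10_0 (nat_lit 4) (nat_lit 87) (nat_lit 88) = true := by decide +kernel
def p12_10_0_88 : pfC (piC [(nat_lit 41997052), (nat_lit 26592602), (nat_lit 19805017), (nat_lit 13318063)] (nat_lit 29374635)) p12_10_0 (nat_lit 4) (nat_lit 88) (nat_lit 89) = true := by decide +kernel
def p12_10_0_89 : pfC (piC [(nat_lit 41997052), (nat_lit 26592602), (nat_lit 19805017), (nat_lit 13318063)] (nat_lit 29374635)) p12_10_0 (nat_lit 4) (nat_lit 89) (nat_lit 90) = true := by decide +kernel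
def p12_10_0_90 : pfC (piC [(nat_lit 41997052), (nat_lit 26592602), (nat_lit 19805017), (nat_lit 13318063)] (nat_lit 29374635)) p12_10_0 (nat_lit 4) (nat_lit 90) (nat_lit 91) = true := by decide +kernel
def p12_10_0_91 : pfC (piC [(nat_lit 41997052), (nat_lit 26592602), (nat_lit 19805017), (nat_lit 13318063)] (nat_lit 29374635)) p12_10_0 (nat_lit 4) (nat_lit 91) (nat_lit 92) = true := by decide +kernel
def p12_10_0_92 : pfC (piC [(nat_lit 41997052), (nat_lit 26592602), (nat_lit 19805017), (nat_lit 13318063)] (nat_lit 29374635)) p12_10_0 (nat_lit 4) (nat_lit 92) (nat_lit 93) = true := by decide +kernel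
def p12_10_0_93 : pfC (piC [(nat_lit 41997052), (nat_lit 26592602), (nat_lit 19805017), (nat_lit 13318063)] (nat_lit 29374635)) p12_10_0 (nat_lit 4) (nat_lit 93) (nat_lit 94) = true := by decide +kernel
def p12_10_0_94 : pfC (piC [(nat_lit 41997052), (nat_lit 26592602), (nat_lit 19805017), (nat_lit 13318063)] (nat_lit 29374635)) p12_10_0 (nat_lit 4) (nat_lit 94) (nat_lit 95) = true := by decide +kernel
def p12_10_0_95 : pfC (piC [(nat_lit 41997052), (nat_lit 26592602), (nat_lit 19805017), (nat_lit 13318063)] (nat_lit 29374635)) p12_10_0 (nat_lit 4) (nat_lit 95) (nat_lit 96) = true := by decide +kernel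
def p12_10_0_96 : pfC (piC [(nat_lit 41997052), (nat_lit 26592602), (nat_lit 19805017), (nat_lit 13318063)] (nat_lit 29374635)) p12_10_0 (nat_lit 4) (nat_lit 96) (nat_lit 97) = true := by decide +kernel
def p12_10_0_97 : pfC (piC [(nat_lit 41997052), (nat_lit 26592602), (nat_lit 19805017), (nat_lit 13318063)] (nat_lit 29374635)) p12_10_0 (nat_lit 4) (nat_lit 97) (nat_lit 98) = true := by decide +kernel
def p12_10_0_98 : pfC (piC [(nat_lit 41997052), (nat_lit 26592602), (nat_lit 19805017), (nat_lit 13318063)] (nat_lit 29374635)) p12_10_0 (nat_lit 4) (nat_lit 98) (nat_lit 99) = true := by decide +kernel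
def p12_10_0_99 : pfC (piC [(nat_lit 41997052), (nat_lit 26592602), (nat_lit 19805017), (nat_lit 13318063)] (nat_lit 29374635)) p12_10_0 (nat_lit 4) (nat_lit 99) (nat_lit 100) = true := by decide +kernel
def p12_10_0_100 : pfC (piC [(nat_lit 41997052), (nat_lit 26592602), (nat_lit 19805017), (nat_lit 13318063)] (nat_lit 29374635)) p12_10_0 (nat_lit 4) (nat_lit 100) (nat_lit 101) = true := by decide +kernel
def p12_10_0_101 : pfC (piC [(nat_lit 41997052), (nat_lit 26592602), (nat_lit 19805017), (nat_lit 13318063)] (nat_lit 29374635)) p12_10_0 (nat_lit 4) (nat_lit 101) (nat_lit 102) = true := by decide +kernel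
def p12_10_0_102 : pfC (piC [(nat_lit 41997052), (nat_lit 26592602), (nat_lit 19805017), (nat_lit 13318063)] (nat_lit 29374635)) p12_10_0 (nat_lit 4) (nat_lit 102) (nat_lit 103) = true := by decide +kernel
def p12_10_0_103 : pfC (piC [(nat_lit 41997052), (nat_lit 26592602), (nat_lit 19805017), (nat_lit 13318063)] (nat_lit 29374635)) p12_10_0 (nat_lit 4) (nat_lit 103) (nat_lit 104) = true := by decide +kernel
def p12_10_0_104 : pfC (piC [(nat_lit 41997052), (nat_lit 26592602), (nat_lit 19805017), (nat_lit 13318063)] (nat_lit 29374635)) p12_10_0 (nat_lit 4) (nat_lit 104) (nat_lit 105) = true := by decide +kernel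
def p12_10_0_105 : pfC (piC [(nat_lit 41997052), (nat_lit 26592602), (nat_lit 19805017), (nat_lit 13318063)] (nat_lit 29374635)) p12_10_0 (nat_lit 4) (nat_lit 105) (nat_lit 106) = true := by decide +kernel
def p12_10_0_106 : pfC (piC [(nat_lit 41997052), (nat_lit 26592602), (nat_lit 19805017), (nat_lit 13318063)] (nat_lit 29374635)) p12_10_0 (nat_lit 4) (nat_lit 106) (nat_lit 107) = true := by decide +kernel
def p12_10_0_107 : pfC (piC [(nat_lit 41997052), (nat_lit 26592602), (nat_lit 19805017), (nat_lit 13318063)] (nat_lit 29374635)) p12_10_0 (nat_lit 4) (nat_lit 107) (nat_lit 108) = true := by decide +kernel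
def p12_10_0_108 : pfC (piC [(nat_lit 41997052), (nat_lit 26592602), (nat_lit 19805017), (nat_lit 13318063)] (nat_lit 29374635)) p12_10_0 (nat_lit 4) (nat_lit 108) (nat_lit 109) = true := by decide +kernel
def p12_10_0_109 : pfC (piC [(nat_lit 41997052), (nat_lit 26592602), (nat_lit 19805017), (nat_lit 13318063)] (nat_lit 29374635)) p12_10_0 (nat_lit 4) (nat_lit 109) (nat_lit 110) = true := by decide +kernel
def p12_10_0_110 : pfC (piC [(nat_lit 41997052), (nat_lit 26592602), (nat_lit 19805017), (nat_lit 13318063)] (nat_lit 29374635)) p12_10_0 (nat_lit 4) (nat_lit 110) (nat_lit 111) = true := by decide +kernel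
def p12_10_0_111 : pfC (piC [(nat_lit 41997052), (nat_lit 26592602), (nat_lit 19805017), (nat_lit 13318063)] (nat_lit 29374635)) p12_10_0 (nat_lit 4) (nat_lit 111) (nat_lit 112) = true := by decide +kernel
def p12_10_0_112 : pfC (piC [(nat_lit 41997052), (nat_lit 26592602), (nat_lit 19805017), (nat_lit 13318063)] (nat_lit 29374635)) p12_10_0 (nat_lit 4) (nat_lit 112) (nat_lit 113) = true := by decide +kernel
def p12_10_0_113 : pfC (piC [(nat_lit 41997052), (nat_lit 26592602), (nat_lit 19805017), (nat_lit 13318063)] (nat_lit 29374635)) p12_10_0 (nat_lit 4) (nat_lit 113) (nat_lit 114) = true := by decide +kernel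
def p12_10_0_114 : pfC (piC [(nat_lit 41997052), (nat_lit 26592602), (nat_lit 19805017), (nat_lit 13318063)] (nat_lit 29374635)) p12_10_0 (nat_lit 4) (nat_lit 114) (nat_lit 115) = true := by decide +kernel
def p12_10_0_115 : pfC (piC [(nat_lit 41997052), (nat_lit 26592602), (nat_lit 19805017), (nat_lit 13318063)] (nat_lit 29374635)) p12_10_0 (nat_lit 4) (nat_lit 115) (nat_lit 116) = true := by decide +kernel
def p12_10_0_116 : pfC (piC [(nat_lit 41997052), (nat_lit 26592602), (nat_lit 19805017), (nat_lit 13318063)] (nat_lit 29374635)) p12_10_0 (nat_lit 4) (nat_lit 116) (nat_lit 117) = true := by decide +kernel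
def p12_10_0_117 : pfC (piC [(nat_lit 41997052), (nat_lit 26592602), (nat_lit 19805017), (nat_lit 13318063)] (nat_lit 29374635)) p12_10_0 (nat_lit 4) (nat_lit 117) (nat_lit 118) = true := by decide +kernel
def p12_10_0_118 : pfC (piC [(nat_lit 41997052), (nat_lit 26592602), (nat_lit 19805017), (nat_lit 13318063)] (nat_lit 29374635)) p12_10_0 (nat_lit 4) (nat_lit 118) (nat_lit 119) = true := by decide +kernel
def p12_10_0_119 : pfC (piC [(nat_lit 41997052), (nat_lit 26592602), (nat_lit 19805017), (nat_lit 13318063)] (nat_lit 29374635)) p12_10_0 (nat_lit 4) (nat_lit 119) (nat_lit 120) = true := by decide +kernel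
def p12_10_0_120 : pfC (piC [(nat_lit 41997052), (nat_lit 26592602), (nat_lit 19805017), (nat_lit 13318063)] (nat_lit 29374635)) p12_10_0 (nat_lit 4) (nat_lit 120) (nat_lit 121) = true := by decide +kernel
def p12_10_0_121 : pfC (piC [(nat_lit 41997052), (nat_lit 26592602), (nat_lit 19805017), (nat_lit 13318063)] (nat_lit 29374635)) p12_10_0 (nat_lit 4) (nat_lit 121) (nat_lit 122) = true := by decide +kernel
def p12_10_0_122 : pfC (piC [(nat_lit 41997052), (nat_lit 26592602), (nat_lit 19805017), (nat_lit 13318063)] (nat_lit 29374635)) p12_10_0 (nat_lit 4) (nat_lit 122) (nat_lit 123) = true := by decide +kernel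
def p12_10_0_123 : pfC (piC [(nat_lit 41997052), (nat_lit 26592602), (nat_lit 19805017), (nat_lit 13318063)] (nat_lit 29374635)) p12_10_0 (nat_lit 4) (nat_lit 123) (nat_lit 124) = true := by decide +kernel
def p12_10_0_124 : pfC (piC [(nat_lit 41997052), (nat_lit 26592602), (nat_lit 19805017), (nat_lit 13318063)] (nat_lit 29374635)) p12_10_0 (nat_lit 4) (nat_lit 124) (nat_lit 125) = true := by decide +kernel
def p12_10_0_125 : pfC (piC [(nat_lit 41997052), (nat_lit 26592602), (nat_lit 19805017), (nat_lit 13318063)] (nat_lit 29374635)) p12_10_0 (nat_lit 4) (nat_lit 125) (nat_lit 126) = true := by decide +kernel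
def p12_10_0_126 : pfC (piC [(nat_lit 41997052), (nat_lit 26592602), (nat_lit 19805017), (nat_lit 13318063)] (nat_lit 29374635)) p12_10_0 (nat_lit 4) (nat_lit 126) (nat_lit 127) = true := by decide +kernel
def p12_10_0_127 : pfC (piC [(nat_lit 41997052), (nat_lit 26592602), (nat_lit 19805017), (nat_lit 13318063)] (nat_lit 29374635)) p12_10_0 (nat_lit 4) (nat_lit 127) (nat_lit 128) = true := by decide +kernel
def p12_10_0_128 : pfC (piC [(nat_lit 41997052), (nat_lit 26592602), (nat_lit 19805017), (nat_lit 13318063)] (nat_lit 29374635)) p12_10_0 (nat_lit 4) (nat_lit 128) (nat_lit 129) = true := by decide +kernel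
def p12_10_0_129 : pfC (piC [(nat_lit 41997052), (nat_lit 26592602), (nat_lit 19805017), (nat_lit 13318063)] (nat_lit 29374635)) p12_10_0 (nat_lit 4) (nat_lit 129) (nat_lit 130) = true := by decide +kernel
def p12_10_0_130 : pfC (piC [(nat_lit 41997052), (nat_lit 26592602), (nat_lit 19805017), (nat_lit 13318063)] (nat_lit 29374635)) p12_10_0 (nat_lit 4) (nat_lit 130) (nat_lit 131) = true := by decide +kernel
def p12_10_0_131 : pfC (piC [(nat_lit 41997052), (nat_lit 26592602), (nat_lit 19805017), (nat_lit 13318063)] (nat_lit 29374635)) p12_10_0 (nat_lit 4) (nat_lit 131) (nat_lit 132) = true := by decide +kernel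
def p12_10_0_132 : pfC (piC [(nat_lit 41997052), (nat_lit 26592602), (nat_lit 19805017), (nat_lit 13318063)] (nat_lit 29374635)) p12_10_0 (nat_lit 4) (nat_lit 132) (nat_lit 133) = true := by decide +kernel
def p12_10_0_133 : pfC (piC [(nat_lit 41997052), (nat_lit 26592602), (nat_lit 19805017), (nat_lit 13318063)] (nat_lit 29374635)) p12_10_0 (nat_lit 4) (nat_lit 133) (nat_lit 134) = true := by decide +kernel
def p12_10_0_134 : pfC (piC [(nat_lit 41997052), (nat_lit 26592602), (nat_lit 19805017), (nat_lit 13318063)] (nat_lit 29374635)) p12_10_0 (nat_lit 4) (nat_lit 134) (nat_lit 135) = true := by decide +kernel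
def p12_10_0_135 : pfC (piC [(nat_lit 41997052), (nat_lit 26592602), (nat_lit 19805017), (nat_lit 13318063)] (nat_lit 29374635)) p12_10_0 (nat_lit 4) (nat_lit 135) (nat_lit 136) = true := by decide +kernel
def p12_10_0_136 : pfC (piC [(nat_lit 41997052), (nat_lit 26592602), (nat_lit 19805017), (nat_lit 13318063)] (nat_lit 29374635)) p12_10_0 (nat_lit 4) (nat_lit 136) (nat_lit 137) = true := by decide +kernel
def p12_10_0_137 : pfC (piC [(nat_lit 41997052), (nat_lit 26592602), (nat_lit 19805017), (nat_lit 13318063)] (nat_lit 29374635)) p12_10_0 (nat_lit 4) (nat_lit 137) (nat_lit 138) = true := by decide +kernel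
def p12_10_0_138 : pfC (piC [(nat_lit 41997052), (nat_lit 26592602), (nat_lit 19805017), (nat_lit 13318063)] (nat_lit 29374635)) p12_10_0 (nat_lit 4) (nat_lit 138) (nat_lit 139) = true := by decide +kernel
def p12_10_0_139 : pfC (piC [(nat_lit 41997052), (nat_lit 26592602), (nat_lit 19805017), (nat_lit 13318063)] (nat_lit 29374635)) p12_10_0 (nat_lit 4) (nat_lit 139) (nat_lit 140) = true := by decide +kernel
def p12_10_0_140 : pfC (piC [(nat_lit 41997052), (nat_lit 26592602), (nat_lit 19805017), (nat_lit 13318063)] (nat_lit 29374635)) p12_10_0 (nat_lit 4) (nat_lit 140) (nat_lit 141) = true := by decide +kernel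
def p12_10_0_141 : pfC (piC [(nat_lit 41997052), (nat_lit 26592602), (nat_lit 19805017), (nat_lit 13318063)] (nat_lit 29374635)) p12_10_0 (nat_lit 4) (nat_lit 141) (nat_lit 142) = true := by decide +kernel
def p12_10_0_142 : pfC (piC [(nat_lit 41997052), (nat_lit 26592602), (nat_lit 19805017), (nat_lit 13318063)] (nat_lit 29374635)) p12_10_0 (nat_lit 4) (nat_lit 142) (nat_lit 143) = true := by decide +kernel
def p12_10_0_143 : pfC (piC [(nat_lit 41997052), (nat_lit 26592602), (nat_lit 19805017), (nat_lit 13318063)] (nat_lit 29374635)) p12_10_0 (nat_lit 4) (nat_lit 143) (nat_lit 144) = true := by decide +kernel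
def p12_10_0_144 : pfC (piC [(nat_lit 41997052), (nat_lit 26592602), (nat_lit 19805017), (nat_lit 13318063)] (nat_lit 29374635)) p12_10_0 (nat_lit 4) (nat_lit 144) (nat_lit 145) = true := by decide +kernel
def p12_10_0_145 : pfC (piC [(nat_lit 41997052), (nat_lit 26592602), (nat_lit 19805017), (nat_lit 13318063)] (nat_lit 29374635)) p12_10_0 (nat_lit 4) (nat_lit 145) (nat_lit 146) = true := by decide +kernel
def p12_10_0_146 : pfC (piC [(nat_lit 41997052), (nat_lit 26592602), (nat_lit 19805017), (nat_lit 13318063)] (nat_lit 29374635)) p12_10_0 (nat_lit 4) (nat_lit 146) (nat_lit 147) = true := by decide +kernel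
def p12_10_0_147 : pfC (piC [(nat_lit 41997052), (nat_lit 26592602), (nat_lit 19805017), (nat_lit 13318063)] (nat_lit 29374635)) p12_10_0 (nat_lit 4) (nat_lit 147) (nat_lit 148) = true := by decide +kernel
def p12_10_0_148 : pfC (piC [(nat_lit 41997052), (nat_lit 26592602), (nat_lit 19805017), (nat_lit 13318063)] (nat_lit 29374635)) p12_10_0 (nat_lit 4) (nat_lit 148) (nat_lit 149) = true := by decide +kernel
def p12_10_0_149 : pfC (piC [(nat_lit 41997052), (nat_lit 26592602), (nat_lit 19805017), (nat_lit 13318063)] (nat_lit 29374635)) p12_10_0 (nat_lit 4) (nat_lit 149) (nat_lit 150) = true := by decide +kernel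
def p12_10_0_150 : pfC (piC [(nat_lit 41997052), (nat_lit 26592602), (nat_lit 19805017), (nat_lit 13318063)] (nat_lit 29374635)) p12_10_0 (nat_lit 4) (nat_lit 150) (nat_lit 151) = true := by decide +kernel
def p12_10_0_151 : pfC (piC [(nat_lit 41997052), (nat_lit 26592602), (nat_lit 19805017), (nat_lit 13318063)] (nat_lit 29374635)) p12_10_0 (nat_lit 4) (nat_lit 151) (nat_lit 152) = true := by decide +kernel
def p12_10_0_152 : pfC (piC [(nat_lit 41997052), (nat_lit 26592602), (nat_lit 19805017), (nat_lit 13318063)] (nat_lit 29374635)) p12_10_0 (nat_lit 4) (nat_lit 152) (nat_lit 153) = true := by decide +kernel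
def p12_10_0_153 : pfC (piC [(nat_lit 41997052), (nat_lit 26592602), (nat_lit 19805017), (nat_lit 13318063)] (nat_lit 29374635)) p12_10_0 (nat_lit 4) (nat_lit 153) (nat_lit 154) = true := by decide +kernel
def p12_10_0_154 : pfC (piC [(nat_lit 41997052), (nat_lit 26592602), (nat_lit 19805017), (nat_lit 13318063)] (nat_lit 29374635)) p12_10_0 (nat_lit 4) (nat_lit 154) (nat_lit 155) = true := by decide +kernel
theorem p12_10_0_T : PfS (PiF n12_10.reverse (nat_lit 29374635)) p12_10_0 (nat_lit 4) [] 0 :=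
  pftab_of (los := [(nat_lit 41997052), (nat_lit 26592602), (nat_lit 19805017), (nat_lit 13318063)]) (by decide +kernel) (hi := (nat_lit 155)) (PfP.trans (PfP.trans (PfP.trans (PfP.trans (PfP.trans (PfP.trans (PfP.trans (PfP.trans (PfP.trans (PfP.trans (PfP.trans (PfP.trans (PfP.trans (PfP.trans (PfP.trans (PfP.trans (PfP.trans (PfP.trans (PfP.trans (PfP.trans (PfP.trans (PfP.trans (PfP.trans (PfP.trans (PfP.trans (PfP.trans (PfP.trans (PfP.trans (PfP.trans (PfP.trans (PfP.trans (PfP.trans (PfP.trans (PfP.trans (PfP.trans (PfP.trans (PfP.trans (PfP.trans (PfP.trans (PfP.trans (PfP.trans (PfP.trans (PfP.trans (PfP.trans (PfP.trans (PfP.trans (PfP.trans (PfP.trans (PfP.trans (PfP.trans (PfP.trans (PfP.trans (PfP.trans (PfP.trans (PfP.trans (PfP.trans (PfP.trans (PfP.trans (PfP.trans (PfP.trans (PfP.trans (PfP.trans (PfP.trans (PfP.trans (PfP.trans (PfP.trans (PfP.trans (PfP.trans (PfP.trans (PfP.trans (PfP.trans (PfP.trans (PfP.trans (PfP.trans (PfP.trans (PfP.trans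 (PfP.trans (PfP.trans (PfP.trans (PfP.trans (PfP.trans (PfP.trans (PfP.trans (PfP.trans (PfP.trans (PfP.trans (PfP.trans (PfP.trans (PfP.trans (PfP.trans (PfP.trans (PfP.trans (PfP.trans (PfP.trans (PfP.trans (PfP.trans (PfP.trans (PfP.trans (PfP.trans (PfP.trans (PfP.trans (PfP.trans (PfP.trans (PfP.trans (PfP.trans (PfP.trans (PfP.trans (PfP.trans (PfP.trans
 (PfP.trans (PfP.trans (PfP.trans (PfP.trans (PfP.trans (PfP.trans (PfP.trans (PfP.trans (PfP.trans (PfP.trans (PfP.trans (PfP.trans (PfP.trans (PfP.trans (PfP.trans (PfP.trans (PfP.trans (PfP.trans (PfP.trans (PfP.trans (PfP.trans (PfP.trans (PfP.trans (PfP.trans (PfP.trans (PfP.trans (PfP.trans (PfP.trans (PfP.trans (PfP.trans (PfP.trans (PfP.trans (PfP.trans (PfP.trans (PfP.trans (PfP.trans (PfP.trans (PfP.trans (PfP.trans (PfP.trans (PfP.trans (PfP.trans (PfP.trans (PfP.trans (PfP.trans (pfC_sound p12_10_0_0) (pfC_sound p12_10_0_1)) (pfC_sound p12_10_0_2)) (pfC_sound p12_10_0_3)) (pfC_sound p12_10_0_4))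 (pfC_sound p12_10_0_5)) (pfC_sound p12_10_0_6)) (pfC_sound p12_10_0_7)) (pfC_sound p12_10_0_8)) (pfC_sound p12_10_0_9)) (pfC_sound p12_10_0_10)) (pfC_sound p12_10_0_11)) (pfC_sound p12_10_0_12)) (pfC_sound p12_10_0_13)) (pfC_sound p12_10_0_14)) (pfC_sound p12_10_0_15)) (pfC_sound p12_10_0_16)) (pfC_sound p12_10_0_17)) (pfC_sound p12_10_0_18)) (pfC_sound p12_10_0_19)) (pfC_sound p12_10_0_20)) (pfC_sound p12_10_0_21)) (pfC_sound p12_10_0_22)) (pfC_sound p12_10_0_23)) (pfC_sound p12_10_0_24)) (pfC_sound p12_10_0_25)) (pfC_sound p12_10_0_26)) (pfC_sound p12_10_0_27)) (pfC_sound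
 p12_10_0_28)) (pfC_sound p12_10_0_29)) (pfC_sound p12_10_0_30)) (pfC_sound p12_10_0_31)) (pfC_sound p12_10_0_32)) (pfC_sound p12_10_0_33)) (pfC_sound p12_10_0_34)) (pfC_sound p12_10_0_35)) (pfC_sound p12_10_0_36)) (pfC_sound p12_10_0_37)) (pfC_sound p12_10_0_38)) (pfC_sound p12_10_0_39)) (pfC_sound p12_10_0_40)) (pfC_sound p12_10_0_41)) (pfC_sound p12_10_0_42)) (pfC_sound p12_10_0_43)) (pfC_sound p12_10_0_44)) (pfC_sound p12_10_0_45)) (pfC_sound p12_10_0_46)) (pfC_sound p12_10_0_47)) (pfC_sound p12_10_0_48)) (pfC_sound p12_10_0_49)) (pfC_sound p12_10_0_50)) (pfC_sound p12_10_0_51)) (pfC_sound p12_10_0_52)) (pfC_sound p12_10_0_53)) (pfC_sound p12_10_0_54)) (pfC_sound p12_10_0_55)) (pfC_sound p12_10_0_56)) (pfC_sound p12_10_0_57)) (pfC_sound p12_10_0_58)) (pfC_sound p12_10_0_59)) (pfC_sound p12_10_0_60)) (pfC_sound p12_10_0_61)) (pfC_sound p12_10_0_62)) (pfC_sound p12_10_0_63)) (pfC_sound p12_10_0_64)) (pfC_sound p12_10_0_65)) (pfC_sound p12_10_0_66)) (pfC_sound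 p12_10_0_67)) (pfC_sound p12_10_0_68)) (pfC_sound p12_10_0_69)) (pfC_sound p12_10_0_70)) (pfC_sound p12_10_0_71)) (pfC_sound p12_10_0_72)) (pfC_sound p12_10_0_73)) (pfC_sound p12_10_0_74)) (pfC_sound p12_10_0_75)) (pfC_sound
 p12_10_0_76)) (pfC_sound p12_10_0_77)) (pfC_sound p12_10_0_78)) (pfC_sound p12_10_0_79)) (pfC_sound p12_10_0_80)) (pfC_sound p12_10_0_81)) (pfC_sound p12_10_0_82)) (pfC_sound p12_10_0_83)) (pfC_sound p12_10_0_84)) (pfC_sound p12_10_0_85)) (pfC_sound p12_10_0_86)) (pfC_sound p12_10_0_87)) (pfC_sound p12_10_0_88)) (pfC_sound p12_10_0_89)) (pfC_sound p12_10_0_90)) (pfC_sound p12_10_0_91)) (pfC_sound p12_10_0_92)) (pfC_sound p12_10_0_93)) (pfC_sound p12_10_0_94)) (pfC_sound p12_10_0_95)) (pfC_sound p12_10_0_96)) (pfC_sound p12_10_0_97)) (pfC_sound p12_10_0_98)) (pfC_sound p12_10_0_99)) (pfC_sound p12_10_0_100)) (pfC_sound p12_10_0_101)) (pfC_sound p12_10_0_102)) (pfC_sound p12_10_0_103)) (pfC_sound p12_10_0_104)) (pfC_sound p12_10_0_105)) (pfC_sound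 p12_10_0_106)) (pfC_sound p12_10_0_107)) (pfC_sound p12_10_0_108)) (pfC_sound p12_10_0_109)) (pfC_sound p12_10_0_110)) (pfC_sound p12_10_0_111)) (pfC_sound p12_10_0_112)) (pfC_sound p12_10_0_113)) (pfC_sound p12_10_0_114)) (pfC_sound p12_10_0_115)) (pfC_sound p12_10_0_116)) (pfC_sound p12_10_0_117)) (pfC_sound p12_10_0_118)) (pfC_sound p12_10_0_119)) (pfC_sound p12_10_0_120)) (pfC_sound p12_10_0_121)) (pfC_sound p12_10_0_122)) (pfC_sound
 p12_10_0_123)) (pfC_sound p12_10_0_124)) (pfC_sound p12_10_0_125)) (pfC_sound p12_10_0_126)) (pfC_sound p12_10_0_127)) (pfC_sound p12_10_0_128)) (pfC_sound p12_10_0_129)) (pfC_sound p12_10_0_130)) (pfC_sound p12_10_0_131)) (pfC_sound p12_10_0_132)) (pfC_sound p12_10_0_133)) (pfC_sound p12_10_0_134)) (pfC_sound p12_10_0_135)) (pfC_sound p12_10_0_136)) (pfC_sound p12_10_0_137)) (pfC_sound p12_10_0_138)) (pfC_sound p12_10_0_139)) (pfC_sound p12_10_0_140)) (pfC_sound p12_10_0_141)) (pfC_sound p12_10_0_142)) (pfC_sound p12_10_0_143))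 (pfC_sound p12_10_0_144)) (pfC_sound p12_10_0_145)) (pfC_sound p12_10_0_146)) (pfC_sound p12_10_0_147)) (pfC_sound p12_10_0_148)) (pfC_sound p12_10_0_149)) (pfC_sound p12_10_0_150)) (pfC_sound p12_10_0_151)) (pfC_sound p12_10_0_152)) (pfC_sound p12_10_0_153)) (pfC_sound p12_10_0_154)) (by decide +kernel)

def z12_10_0 : zOK yB12_10 (nat_lit 0) (nat_lit 0) (nat_lit 400) (nat_lit 29374635) (nat_lit 10788098) = true := by decide +kernel
def g12_10_0 : gOK yB12_10.x P12_10 (nat_lit 1424) (q12_10 :: r12_10) (nat_lit 0) (nat_lit 0) (nat_lit 1) (nat_lit 400) (nat_lit 0) (nat_lit 11000000) (nat_lit 12712500) (nat_lit 12712500) [(nat_lit 800), (nat_lit 1400), (nat_lit 1530)] = true := by decide +kernel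
def v12_10_0 : ivC P12_10 s12_10 w12_10 n12_10 (nat_lit 4) (nat_lit 5460) (nat_lit 0) (nat_lit 0) f144_1_0 f152_1_0 (nat_lit 1) (nat_lit 400) f144_1_400 f152_1_400 (nat_lit 29374635) (nat_lit 10788098) p12_10_0 = true := by decide +kernel
def p12_10_1 : PF := (PF.cons (PF.cons (PF.cons (PF.cons (PF.leaf (nat_lit 2036639) (nat_lit 9482917) (nat_lit 57625895) (nat_lit 9482917) [(nat_lit 0), (nat_lit 0), (nat_lit 0), (nat_lit 0)]) (PF.cons (PF.leaf (nat_lit 2163190) (nat_lit 206650) (nat_lit 57399850) (nat_lit 9502312) [(nat_lit 206650), (nat_lit 0), (nat_lit 0), (nat_lit 0)]) (PF.cons (PF.leaf (nat_lit 2315137) (nat_lit 225185) (nat_lit 57134583) (nat_lit 9523859) [(nat_lit 225185), (nat_lit 0), (nat_lit 0), (nat_lit 0)]) (PF.cons (PF.leaf (nat_lit 2486333) (nat_lit 241808) (nat_lit 56836839) (nat_lit 9546549) [(nat_lit 241808), (nat_lit 0), (nat_lit 0), (nat_lit 0)]) (PF.cons (PF.leaf (nat_lit 2674292) (nat_lit 256964) (nat_lit 56511343) (nat_lit 9569612) [(nat_lit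 256964), (nat_lit 0), (nat_lit 0), (nat_lit 0)]) (PF.cons (PF.leaf (nat_lit 2877124) (nat_lit 270933) (nat_lit 56161711) (nat_lit 9592435) [(nat_lit 270933), (nat_lit 0), (nat_lit 0), (nat_lit 0)]) (PF.cons (PF.leaf (nat_lit 3093283) (nat_lit 283904) (nat_lit 55790869) (nat_lit 9614515) [(nat_lit 283904), (nat_lit 0), (nat_lit 0), (nat_lit 0)]) (PF.cons PF.nil (PF.cons PF.nil PF.nil))))))))) (PF.cons (PF.cons (PF.leaf (nat_lit 2538235) (nat_lit 1102707) (nat_lit 56436916)
 (nat_lit 9569189) [(nat_lit 0), (nat_lit 1102707), (nat_lit 0), (nat_lit 0)]) (PF.cons (PF.leaf (nat_lit 2706600) (nat_lit 254032) (nat_lit 56136739) (nat_lit 9588491) [(nat_lit 254032), (nat_lit 1129549), (nat_lit 0), (nat_lit 0)]) (PF.cons (PF.leaf (nat_lit 2894235) (nat_lit 268574) (nat_lit 55807289) (nat_lit 9608040) [(nat_lit 268574), (nat_lit 1156332), (nat_lit 0), (nat_lit 0)]) (PF.cons (PF.leaf (nat_lit 3097320) (nat_lit 281917) (nat_lit 55453248) (nat_lit 9627204) [(nat_lit 281917),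 (nat_lit 1182606), (nat_lit 0), (nat_lit 0)]) (PF.cons (PF.leaf (nat_lit 3313865) (nat_lit 294274) (nat_lit 55078104) (nat_lit 9645493) [(nat_lit 294274), (nat_lit 1208119), (nat_lit 0), (nat_lit 0)]) (PF.cons PF.nil (PF.cons PF.nil PF.nil))))))) (PF.cons (PF.cons (PF.leaf (nat_lit 3119562) (nat_lit 1193485) (nat_lit 55081982) (nat_lit 9639860) [(nat_lit 0), (nat_lit 1193485), (nat_lit 0), (nat_lit 0)]) (PF.cons (PF.leaf (nat_lit 3319949) (nat_lit 291533) (nat_lit 54728057) (nat_lit 9655272) [(nat_lit 291533), (nat_lit 1216974), (nat_lit 0), (nat_lit 0)]) (PF.cons (PF.leaf (nat_lit 3535662) (nat_lit 303449) (nat_lit 54352190) (nat_lit 9669752) [(nat_lit 303449), (nat_lit 1239985), (nat_lit 0),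
 (nat_lit 0)]) (PF.cons (PF.leaf (nat_lit 3763690) (nat_lit 314500) (nat_lit 53957780) (nat_lit 9682916) [(nat_lit 314500), (nat_lit 1262307), (nat_lit 0), (nat_lit 0)]) (PF.cons PF.nil PF.nil))))) (PF.cons (PF.cons (PF.leaf (nat_lit 3760131) (nat_lit 1269004) (nat_lit 53614432) (nat_lit 9687367) [(nat_lit 0), (nat_lit 1269004), (nat_lit 0), (nat_lit 0)]) (PF.cons (PF.leaf (nat_lit 3985420) (nat_lit 322215) (nat_lit 53222183) (nat_lit 9696770) [(nat_lit 322215), (nat_lit 1289214), (nat_lit 0), (nat_lit 0)]) (PF.cons PF.nil (PF.cons PF.nil PF.nil)))) (PF.cons (PF.cons (PF.leaf (nat_lit 4444037) (nat_lit 1331449) (nat_lit 52074568) (nat_lit 9708445) [(nat_lit 0), (nat_lit 1331449), (nat_lit 0), (nat_lit 0)]) (PF.cons PF.nil PF.nil)) (PF.cons PF.nil PF.nil)))))) (PF.cons (PF.cons (PF.cons (PF.leaf (nat_lit 3101780) (nat_lit 3027112) (nat_lit 54443833) (nat_lit 9637867) [(nat_lit 0), (nat_lit 0), (nat_lit 3027112), (nat_lit 0)]) (PF.cons (PF.leaf (nat_lit 3280387)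 (nat_lit 276375) (nat_lit 54130150) (nat_lit 9649379) [(nat_lit 276375), (nat_lit 0), (nat_lit 3052907), (nat_lit 0)]) (PF.cons (PF.leaf (nat_lit 3477648) (nat_lit 290247) (nat_lit 53788566) (nat_lit 9660427) [(nat_lit
 290247), (nat_lit 0), (nat_lit 3079325), (nat_lit 0)]) (PF.cons (PF.leaf (nat_lit 3689401) (nat_lit 302783) (nat_lit 53424152) (nat_lit 9670551) [(nat_lit 302783), (nat_lit 0), (nat_lit 3105758), (nat_lit 0)]) (PF.cons (PF.leaf (nat_lit 3913841) (nat_lit 314251) (nat_lit 53040611) (nat_lit 9679406) [(nat_lit 314251), (nat_lit 0), (nat_lit 3131790), (nat_lit 0)]) (PF.cons PF.nil (PF.cons PF.nil PF.nil))))))) (PF.cons (PF.cons (PF.leaf (nat_lit 3701832) (nat_lit 1257201) (nat_lit 53056313) (nat_lit 9673856) [(nat_lit 0), (nat_lit 1257201), (nat_lit 3121441), (nat_lit 0)]) (PF.cons (PF.leaf (nat_lit 3909690) (nat_lit 310424) (nat_lit 52695688) (nat_lit 9680621) [(nat_lit 310424), (nat_lit 1277274), (nat_lit 3144804), (nat_lit 0)]) (PF.cons (PF.leaf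 (nat_lit 4131966) (nat_lit 321558) (nat_lit 52314863) (nat_lit 9686087) [(nat_lit 321558), (nat_lit 1296823), (nat_lit 3167920), (nat_lit 0)]) (PF.cons (PF.leaf (nat_lit 4365674) (nat_lit 331768) (nat_lit 51917362) (nat_lit 9690000) [(nat_lit 331768), (nat_lit 1315682), (nat_lit 3190462), (nat_lit 0)]) (PF.cons PF.nil PF.nil))))) (PF.cons (PF.cons (PF.leaf (nat_lit 4352183) (nat_lit 1319828) (nat_lit 51582162) (nat_lit 9686840) [(nat_lit
 0), (nat_lit 1319828), (nat_lit 3200152), (nat_lit 0)]) (PF.cons (PF.leaf (nat_lit 4582188) (nat_lit 337842) (nat_lit 51189613) (nat_lit 9687528) [(nat_lit 337842), (nat_lit 1336894), (nat_lit 3220038), (nat_lit 0)]) (PF.cons PF.nil (PF.cons PF.nil PF.nil)))) (PF.cons (PF.cons (PF.leaf (nat_lit 5038020) (nat_lit 1370973) (nat_lit 50057528) (nat_lit 9675454) [(nat_lit 0), (nat_lit 1370973), (nat_lit 3262909), (nat_lit 0)]) (PF.cons PF.nil PF.nil)) (PF.cons PF.nil PF.nil))))) (PF.cons (PF.cons (PF.cons (PF.leaf (nat_lit 4276681)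 (nat_lit 3193192) (nat_lit 51058863) (nat_lit 9663564) [(nat_lit 0), (nat_lit 0), (nat_lit 3193192), (nat_lit 0)]) (PF.cons (PF.leaf (nat_lit 4489698) (nat_lit 325755) (nat_lit 50697409) (nat_lit 9662696) [(nat_lit 325755), (nat_lit 0), (nat_lit 3211475), (nat_lit 0)]) (PF.cons (PF.leaf (nat_lit 4716312) (nat_lit 336160) (nat_lit 50317404) (nat_lit 9660294) [(nat_lit 336160), (nat_lit 0), (nat_lit 3229395), (nat_lit 0)]) (PF.cons PF.nil PF.nil)))) (PF.cons (PF.cons (PF.leaf (nat_lit 4930883) (nat_lit 1358391) (nat_lit 49598580) (nat_lit 9646915) [(nat_lit 0), (nat_lit 1358391), (nat_lit 3252463), (nat_lit 0)]) (PF.cons (PF.leaf (nat_lit 5163652) (nat_lit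
 350284) (nat_lit 49210569) (nat_lit 9640159) [(nat_lit 350284), (nat_lit 1372754), (nat_lit 3267522), (nat_lit 0)]) PF.nil)) (PF.cons PF.nil PF.nil))) (PF.cons (PF.cons (PF.cons (PF.leaf (nat_lit 5493695) (nat_lit 3284924) (nat_lit 47679010) (nat_lit 9575029) [(nat_lit 0), (nat_lit 0), (nat_lit 3284924), (nat_lit 0)]) (PF.cons (PF.leaf (nat_lit 5727661) (nat_lit 360031) (nat_lit 47299057) (nat_lit 9562038) [(nat_lit 360031), (nat_lit 0), (nat_lit 3295895), (nat_lit 0)]) PF.nil)) (PF.cons PF.nil PF.nil)) (PF.cons PF.nil (PF.cons PF.nil PF.nil)))))) (PF.cons (PF.cons (PF.cons (PF.cons (PF.leaf (nat_lit 4156336) (nat_lit 8862042) (nat_lit 48782514) (nat_lit 9464256) [(nat_lit 0), (nat_lit 0), (nat_lit 0), (nat_lit 8862042)]) (PF.cons (PF.leaf (nat_lit 4335748) (nat_lit 290796) (nat_lit 48495474) (nat_lit 9461143) [(nat_lit 290796), (nat_lit 0), (nat_lit 0), (nat_lit 8861397)]) (PF.cons (PF.leaf (nat_lit 4532599) (nat_lit 304029) (nat_lit 48184336) (nat_lit 9456745)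 [(nat_lit 304029), (nat_lit 0), (nat_lit 0), (nat_lit 8859672)]) (PF.cons (PF.leaf (nat_lit 4742764) (nat_lit 315749) (nat_lit 47853923) (nat_lit 9450938) [(nat_lit 315749), (nat_lit 0), (nat_lit 0), (nat_lit 8856703)])
 (PF.cons (PF.leaf (nat_lit 4964241) (nat_lit 326272) (nat_lit 47507732) (nat_lit 9443626) [(nat_lit 326272), (nat_lit 0), (nat_lit 0), (nat_lit 8852365)]) (PF.cons (PF.leaf (nat_lit 5195460) (nat_lit 335809) (nat_lit 47148457) (nat_lit 9434739) [(nat_lit 335809), (nat_lit 0), (nat_lit 0), (nat_lit 8846569)]) (PF.cons PF.nil PF.nil))))))) (PF.cons (PF.cons (PF.leaf (nat_lit 4741488) (nat_lit 1293536) (nat_lit 47527883) (nat_lit 9439502) [(nat_lit 0), (nat_lit 1293536), (nat_lit 0), (nat_lit 8847890)]) (PF.cons (PF.leaf (nat_lit 4946569) (nat_lit 321259) (nat_lit 47203466) (nat_lit 9431633) [(nat_lit 321259), (nat_lit 1309633), (nat_lit 0), (nat_lit 8842819)]) (PF.cons (PF.leaf (nat_lit 5164697) (nat_lit 331485) (nat_lit 46862223) (nat_lit 9422212)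 [(nat_lit 331485), (nat_lit 1325056), (nat_lit 0), (nat_lit 8836348)]) (PF.cons (PF.leaf (nat_lit 5393050) (nat_lit 340699) (nat_lit 46507402) (nat_lit 9411200) [(nat_lit 340699), (nat_lit 1339701), (nat_lit 0), (nat_lit 8828408)]) (PF.cons PF.nil PF.nil))))) (PF.cons (PF.cons (PF.leaf (nat_lit 5366546) (nat_lit 1340585) (nat_lit 46214442) (nat_lit 9396798) [(nat_lit 0), (nat_lit 1340585), (nat_lit 0), (nat_lit 8816401)]) (PF.cons
 (PF.leaf (nat_lit 5590302) (nat_lit 344831) (nat_lit 45866139) (nat_lit 9383871) [(nat_lit 344831), (nat_lit 1353727), (nat_lit 0), (nat_lit 8806515)]) (PF.cons (PF.leaf (nat_lit 5824099) (nat_lit 352965) (nat_lit 45506094) (nat_lit 9369314) [(nat_lit 352965), (nat_lit 1366179), (nat_lit 0), (nat_lit 8795114)]) (PF.cons PF.nil PF.nil)))) (PF.cons (PF.cons (PF.leaf (nat_lit 6018260) (nat_lit 1377360) (nat_lit 44872233) (nat_lit 9336619) [(nat_lit 0), (nat_lit 1377360), (nat_lit 0), (nat_lit 8767879)]) (PF.cons (PF.leaf (nat_lit 6255591)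 (nat_lit 363421) (nat_lit 44509694) (nat_lit 9318734) [(nat_lit 363421), (nat_lit 1387915), (nat_lit 0), (nat_lit 8753215)]) PF.nil)) (PF.cons PF.nil PF.nil))))) (PF.cons (PF.cons (PF.cons (PF.leaf (nat_lit 5270169) (nat_lit 3192051) (nat_lit 45772704) (nat_lit 9360574) [(nat_lit 0), (nat_lit 0), (nat_lit 3192051), (nat_lit 8783481)]) (PF.cons (PF.leaf (nat_lit 5477977) (nat_lit 331966) (nat_lit 45452311) (nat_lit 9347826) [(nat_lit 331966), (nat_lit 0), (nat_lit 3203131), (nat_lit 8773577)]) (PF.cons (PF.leaf (nat_lit 5698153) (nat_lit 341495) (nat_lit 45116488) (nat_lit 9333435) [(nat_lit 341495), (nat_lit 0), (nat_lit 3213720), (nat_lit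
 8762177)]) (PF.cons (PF.leaf (nat_lit 5927859) (nat_lit 350000) (nat_lit 44768439) (nat_lit 9317430) [(nat_lit 350000), (nat_lit 0), (nat_lit 3223661), (nat_lit 8749280)]) (PF.cons PF.nil PF.nil))))) (PF.cons (PF.cons (PF.leaf (nat_lit 5893745) (nat_lit 1362743) (nat_lit 44488400) (nat_lit 9299641) [(nat_lit 0), (nat_lit 1362743), (nat_lit 3224155), (nat_lit 8733871)]) (PF.cons (PF.leaf (nat_lit 6118381) (nat_lit 353041) (nat_lit 44148017) (nat_lit 9282131) [(nat_lit 353041), (nat_lit 1373732), (nat_lit 3232460), (nat_lit 8719429)]) (PF.cons (PF.leaf (nat_lit 6352390) (nat_lit 360532) (nat_lit 43797083) (nat_lit 9263013) [(nat_lit 360532), (nat_lit 1384067), (nat_lit 3240094), (nat_lit 8703488)]) (PF.cons PF.nil PF.nil)))) (PF.cons (PF.cons (PF.leaf (nat_lit 6539320) (nat_lit 1392193) (nat_lit 43186534) (nat_lit 9223319) [(nat_lit 0), (nat_lit 1392193), (nat_lit 3245326), (nat_lit 8669244)]) (PF.cons PF.nil PF.nil)) PF.nil))) (PF.cons (PF.cons (PF.cons (PF.leaf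 (nat_lit 6405026) (nat_lit 3229262) (nat_lit 42831952) (nat_lit 9184761) [(nat_lit 0), (nat_lit 0), (nat_lit 3229262), (nat_lit 8633573)]) (PF.cons (PF.leaf (nat_lit 6629481) (nat_lit 359259) (nat_lit 42501331) (nat_lit
 9163496) [(nat_lit 359259), (nat_lit 0), (nat_lit 3234672), (nat_lit 8615382)]) (PF.cons PF.nil PF.nil))) (PF.cons (PF.cons (PF.leaf (nat_lit 7042423) (nat_lit 1400974) (nat_lit 41575636) (nat_lit 9095501) [(nat_lit 0), (nat_lit 1400974), (nat_lit 3240365), (nat_lit 8555970)]) PF.nil) PF.nil)) (PF.cons PF.nil (PF.cons PF.nil PF.nil))))) (PF.cons (PF.cons (PF.cons (PF.cons (PF.leaf (nat_lit 6139834) (nat_lit 8432224) (nat_lit 41274245) (nat_lit 8970118) [(nat_lit 0), (nat_lit 0), (nat_lit 0), (nat_lit 8432224)]) (PF.cons (PF.leaf (nat_lit 6340801) (nat_lit 331628) (nat_lit 40993830) (nat_lit 8951200) [(nat_lit 331628), (nat_lit 0), (nat_lit 0), (nat_lit 8416076)]) (PF.cons (PF.leaf (nat_lit 6553204) (nat_lit 340408) (nat_lit 40700456) (nat_lit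 8930661) [(nat_lit 340408), (nat_lit 0), (nat_lit 0), (nat_lit 8398438)]) (PF.cons (PF.leaf (nat_lit 6774241) (nat_lit 348146) (nat_lit 40396944) (nat_lit 8908620) [(nat_lit 348146), (nat_lit 0), (nat_lit 0), (nat_lit 8379404)]) (PF.cons PF.nil PF.nil))))) (PF.cons (PF.cons (PF.leaf (nat_lit 6732192) (nat_lit 1344931) (nat_lit 40156655) (nat_lit 8887042) [(nat_lit 0), (nat_lit 1344931), (nat_lit 0), (nat_lit 8360091)]) (PF.cons (PF.leaf
 (nat_lit 6947850) (nat_lit 350057) (nat_lit 39860555) (nat_lit 8864218) [(nat_lit 350057), (nat_lit 1353545), (nat_lit 0), (nat_lit 8340218)]) (PF.cons (PF.leaf (nat_lit 7172097) (nat_lit 356818) (nat_lit 39555722) (nat_lit 8839949) [(nat_lit 356818), (nat_lit 1361516), (nat_lit 0), (nat_lit 8318993)]) (PF.cons PF.nil PF.nil)))) (PF.cons (PF.cons (PF.leaf (nat_lit 7342035) (nat_lit 1366154) (nat_lit 39029449) (nat_lit 8792871) [(nat_lit 0), (nat_lit 1366154), (nat_lit 0), (nat_lit 8277091)]) (PF.cons PF.nil PF.nil)) PF.nil)))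 (PF.cons (PF.cons (PF.cons (PF.leaf (nat_lit 7199724) (nat_lit 3139375) (nat_lit 38734409) (nat_lit 8753764) [(nat_lit 0), (nat_lit 0), (nat_lit 3139375), (nat_lit 8240632)]) (PF.cons (PF.leaf (nat_lit 7414520) (nat_lit 353962) (nat_lit 38447907) (nat_lit 8728688) [(nat_lit 353962), (nat_lit 0), (nat_lit 3141308), (nat_lit 8218472)]) (PF.cons PF.nil PF.nil))) (PF.cons (PF.cons (PF.leaf (nat_lit 7800759) (nat_lit 1367870) (nat_lit 37650011) (nat_lit 8652211) [(nat_lit 0), (nat_lit 1367870), (nat_lit 3138573), (nat_lit 8150072)]) PF.nil) PF.nil)) (PF.cons PF.nil PF.nil))) (PF.cons (PF.cons (PF.cons (PF.cons (PF.leaf (nat_lit 7903077) (nat_lit 7842160) (nat_lit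
 35261987) (nat_lit 8320343) [(nat_lit 0), (nat_lit 0), (nat_lit 0), (nat_lit 7842160)]) (PF.cons (PF.leaf (nat_lit 8108541) (nat_lit 346203) (nat_lit 35013343) (nat_lit 8293923) [(nat_lit 346203), (nat_lit 0), (nat_lit 0), (nat_lit 7818447)]) PF.nil)) (PF.cons PF.nil PF.nil)) (PF.cons PF.nil PF.nil)) (PF.cons PF.nil (PF.cons PF.nil (PF.cons PF.nil (PF.cons PF.nil PF.nil))))))))

def p12_10_1_0 : pfC (piC [(nat_lit 41997052), (nat_lit 26592602), (nat_lit 19805017), (nat_lit 13318063)] (nat_lit 10788098)) p12_10_1 (nat_lit 4) (nat_lit 0) (nat_lit 1) = true := by decide +kernel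
def p12_10_1_1 : pfC (piC [(nat_lit 41997052), (nat_lit 26592602), (nat_lit 19805017), (nat_lit 13318063)] (nat_lit 10788098)) p12_10_1 (nat_lit 4) (nat_lit 1) (nat_lit 2) = true := by decide +kernel
def p12_10_1_2 : pfC (piC [(nat_lit 41997052), (nat_lit 26592602), (nat_lit 19805017), (nat_lit 13318063)] (nat_lit 10788098)) p12_10_1 (nat_lit 4) (nat_lit 2) (nat_lit 3) = true := by decide +kernel
def p12_10_1_3 : pfC (piC [(nat_lit 41997052), (nat_lit 26592602), (nat_lit 19805017), (nat_lit 13318063)] (nat_lit 10788098)) p12_10_1 (nat_lit 4) (nat_lit 3) (nat_lit 4) = true := by decide +kernel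
def p12_10_1_4 : pfC (piC [(nat_lit 41997052), (nat_lit 26592602), (nat_lit 19805017), (nat_lit 13318063)] (nat_lit 10788098)) p12_10_1 (nat_lit 4) (nat_lit 4) (nat_lit 5) = true := by decide +kernel
def p12_10_1_5 : pfC (piC [(nat_lit 41997052), (nat_lit 26592602), (nat_lit 19805017), (nat_lit 13318063)] (nat_lit 10788098)) p12_10_1 (nat_lit 4) (nat_lit 5) (nat_lit 6) = true := by decide +kernel
def p12_10_1_6 : pfC (piC [(nat_lit 41997052), (nat_lit 26592602), (nat_lit 19805017), (nat_lit 13318063)] (nat_lit 10788098)) p12_10_1 (nat_lit 4) (nat_lit 6) (nat_lit 7) = true := by decide +kernel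
def p12_10_1_7 : pfC (piC [(nat_lit 41997052), (nat_lit 26592602), (nat_lit 19805017), (nat_lit 13318063)] (nat_lit 10788098)) p12_10_1 (nat_lit 4) (nat_lit 7) (nat_lit 8) = true := by decide +kernel
def p12_10_1_8 : pfC (piC [(nat_lit 41997052), (nat_lit 26592602), (nat_lit 19805017), (nat_lit 13318063)] (nat_lit 10788098)) p12_10_1 (nat_lit 4) (nat_lit 8) (nat_lit 9) = true := by decide +kernel
def p12_10_1_9 : pfC (piC [(nat_lit 41997052), (nat_lit 26592602), (nat_lit 19805017), (nat_lit 13318063)] (nat_lit 10788098)) p12_10_1 (nat_lit 4) (nat_lit 9) (nat_lit 10) = true := by decide +kernel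
def p12_10_1_10 : pfC (piC [(nat_lit 41997052), (nat_lit 26592602), (nat_lit 19805017), (nat_lit 13318063)] (nat_lit 10788098)) p12_10_1 (nat_lit 4) (nat_lit 10) (nat_lit 11) = true := by decide +kernel
def p12_10_1_11 : pfC (piC [(nat_lit 41997052), (nat_lit 26592602), (nat_lit 19805017), (nat_lit 13318063)] (nat_lit 10788098)) p12_10_1 (nat_lit 4) (nat_lit 11) (nat_lit 12) = true := by decide +kernel
def p12_10_1_12 : pfC (piC [(nat_lit 41997052), (nat_lit 26592602), (nat_lit 19805017), (nat_lit 13318063)] (nat_lit 10788098)) p12_10_1 (nat_lit 4) (nat_lit 12) (nat_lit 13) = true := by decide +kernel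
def p12_10_1_13 : pfC (piC [(nat_lit 41997052), (nat_lit 26592602), (nat_lit 19805017), (nat_lit 13318063)] (nat_lit 10788098)) p12_10_1 (nat_lit 4) (nat_lit 13) (nat_lit 14) = true := by decide +kernel
def p12_10_1_14 : pfC (piC [(nat_lit 41997052), (nat_lit 26592602), (nat_lit 19805017), (nat_lit 13318063)] (nat_lit 10788098)) p12_10_1 (nat_lit 4) (nat_lit 14) (nat_lit 15) = true := by decide +kernel
def p12_10_1_15 : pfC (piC [(nat_lit 41997052), (nat_lit 26592602), (nat_lit 19805017), (nat_lit 13318063)] (nat_lit 10788098)) p12_10_1 (nat_lit 4) (nat_lit 15) (nat_lit 16) = true := by decide +kernel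
def p12_10_1_16 : pfC (piC [(nat_lit 41997052), (nat_lit 26592602), (nat_lit 19805017), (nat_lit 13318063)] (nat_lit 10788098)) p12_10_1 (nat_lit 4) (nat_lit 16) (nat_lit 17) = true := by decide +kernel
def p12_10_1_17 : pfC (piC [(nat_lit 41997052), (nat_lit 26592602), (nat_lit 19805017), (nat_lit 13318063)] (nat_lit 10788098)) p12_10_1 (nat_lit 4) (nat_lit 17) (nat_lit 18) = true := by decide +kernel
def p12_10_1_18 : pfC (piC [(nat_lit 41997052), (nat_lit 26592602), (nat_lit 19805017), (nat_lit 13318063)] (nat_lit 10788098)) p12_10_1 (nat_lit 4) (nat_lit 18) (nat_lit 19) = true := by decide +kernel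
def p12_10_1_19 : pfC (piC [(nat_lit 41997052), (nat_lit 26592602), (nat_lit 19805017), (nat_lit 13318063)] (nat_lit 10788098)) p12_10_1 (nat_lit 4) (nat_lit 19) (nat_lit 20) = true := by decide +kernel
def p12_10_1_20 : pfC (piC [(nat_lit 41997052), (nat_lit 26592602), (nat_lit 19805017), (nat_lit 13318063)] (nat_lit 10788098)) p12_10_1 (nat_lit 4) (nat_lit 20) (nat_lit 21) = true := by decide +kernel
def p12_10_1_21 : pfC (piC [(nat_lit 41997052), (nat_lit 26592602), (nat_lit 19805017), (nat_lit 13318063)] (nat_lit 10788098)) p12_10_1 (nat_lit 4) (nat_lit 21) (nat_lit 22) = true := by decide +kernel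
def p12_10_1_22 : pfC (piC [(nat_lit 41997052), (nat_lit 26592602), (nat_lit 19805017), (nat_lit 13318063)] (nat_lit 10788098)) p12_10_1 (nat_lit 4) (nat_lit 22) (nat_lit 23) = true := by decide +kernel
def p12_10_1_23 : pfC (piC [(nat_lit 41997052), (nat_lit 26592602), (nat_lit 19805017), (nat_lit 13318063)] (nat_lit 10788098)) p12_10_1 (nat_lit 4) (nat_lit 23) (nat_lit 24) = true := by decide +kernel
def p12_10_1_24 : pfC (piC [(nat_lit 41997052), (nat_lit 26592602), (nat_lit 19805017), (nat_lit 13318063)] (nat_lit 10788098)) p12_10_1 (nat_lit 4) (nat_lit 24) (nat_lit 25) = true := by decide +kernel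
def p12_10_1_25 : pfC (piC [(nat_lit 41997052), (nat_lit 26592602), (nat_lit 19805017), (nat_lit 13318063)] (nat_lit 10788098)) p12_10_1 (nat_lit 4) (nat_lit 25) (nat_lit 26) = true := by decide +kernel
def p12_10_1_26 : pfC (piC [(nat_lit 41997052), (nat_lit 26592602), (nat_lit 19805017), (nat_lit 13318063)] (nat_lit 10788098)) p12_10_1 (nat_lit 4) (nat_lit 26) (nat_lit 27) = true := by decide +kernel
def p12_10_1_27 : pfC (piC [(nat_lit 41997052), (nat_lit 26592602), (nat_lit 19805017), (nat_lit 13318063)] (nat_lit 10788098)) p12_10_1 (nat_lit 4) (nat_lit 27) (nat_lit 28) = true := by decide +kernel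
def p12_10_1_28 : pfC (piC [(nat_lit 41997052), (nat_lit 26592602), (nat_lit 19805017), (nat_lit 13318063)] (nat_lit 10788098)) p12_10_1 (nat_lit 4) (nat_lit 28) (nat_lit 29) = true := by decide +kernel
def p12_10_1_29 : pfC (piC [(nat_lit 41997052), (nat_lit 26592602), (nat_lit 19805017), (nat_lit 13318063)] (nat_lit 10788098)) p12_10_1 (nat_lit 4) (nat_lit 29) (nat_lit 30) = true := by decide +kernel
def p12_10_1_30 : pfC (piC [(nat_lit 41997052), (nat_lit 26592602), (nat_lit 19805017), (nat_lit 13318063)] (nat_lit 10788098)) p12_10_1 (nat_lit 4) (nat_lit 30) (nat_lit 31) = true := by decide +kernel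
def p12_10_1_31 : pfC (piC [(nat_lit 41997052), (nat_lit 26592602), (nat_lit 19805017), (nat_lit 13318063)] (nat_lit 10788098)) p12_10_1 (nat_lit 4) (nat_lit 31) (nat_lit 32) = true := by decide +kernel
def p12_10_1_32 : pfC (piC [(nat_lit 41997052), (nat_lit 26592602), (nat_lit 19805017), (nat_lit 13318063)] (nat_lit 10788098)) p12_10_1 (nat_lit 4) (nat_lit 32) (nat_lit 33) = true := by decide +kernel
def p12_10_1_33 : pfC (piC [(nat_lit 41997052), (nat_lit 26592602), (nat_lit 19805017), (nat_lit 13318063)] (nat_lit 10788098)) p12_10_1 (nat_lit 4) (nat_lit 33) (nat_lit 34) = true := by decide +kernel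
def p12_10_1_34 : pfC (piC [(nat_lit 41997052), (nat_lit 26592602), (nat_lit 19805017), (nat_lit 13318063)] (nat_lit 10788098)) p12_10_1 (nat_lit 4) (nat_lit 34) (nat_lit 35) = true := by decide +kernel
def p12_10_1_35 : pfC (piC [(nat_lit 41997052), (nat_lit 26592602), (nat_lit 19805017), (nat_lit 13318063)] (nat_lit 10788098)) p12_10_1 (nat_lit 4) (nat_lit 35) (nat_lit 36) = true := by decide +kernel
def p12_10_1_36 : pfC (piC [(nat_lit 41997052), (nat_lit 26592602), (nat_lit 19805017), (nat_lit 13318063)] (nat_lit 10788098)) p12_10_1 (nat_lit 4) (nat_lit 36) (nat_lit 37) = true := by decide +kernel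
def p12_10_1_37 : pfC (piC [(nat_lit 41997052), (nat_lit 26592602), (nat_lit 19805017), (nat_lit 13318063)] (nat_lit 10788098)) p12_10_1 (nat_lit 4) (nat_lit 37) (nat_lit 38) = true := by decide +kernel
def p12_10_1_38 : pfC (piC [(nat_lit 41997052), (nat_lit 26592602), (nat_lit 19805017), (nat_lit 13318063)] (nat_lit 10788098)) p12_10_1 (nat_lit 4) (nat_lit 38) (nat_lit 39) = true := by decide +kernel
def p12_10_1_39 : pfC (piC [(nat_lit 41997052), (nat_lit 26592602), (nat_lit 19805017), (nat_lit 13318063)] (nat_lit 10788098)) p12_10_1 (nat_lit 4) (nat_lit 39) (nat_lit 40) = true := by decide +kernel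
def p12_10_1_40 : pfC (piC [(nat_lit 41997052), (nat_lit 26592602), (nat_lit 19805017), (nat_lit 13318063)] (nat_lit 10788098)) p12_10_1 (nat_lit 4) (nat_lit 40) (nat_lit 41) = true := by decide +kernel
def p12_10_1_41 : pfC (piC [(nat_lit 41997052), (nat_lit 26592602), (nat_lit 19805017), (nat_lit 13318063)] (nat_lit 10788098)) p12_10_1 (nat_lit 4) (nat_lit 41) (nat_lit 42) = true := by decide +kernel
def p12_10_1_42 : pfC (piC [(nat_lit 41997052), (nat_lit 26592602), (nat_lit 19805017), (nat_lit 13318063)] (nat_lit 10788098)) p12_10_1 (nat_lit 4) (nat_lit 42) (nat_lit 43) = true := by decide +kernel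
def p12_10_1_43 : pfC (piC [(nat_lit 41997052), (nat_lit 26592602), (nat_lit 19805017), (nat_lit 13318063)] (nat_lit 10788098)) p12_10_1 (nat_lit 4) (nat_lit 43) (nat_lit 44) = true := by decide +kernel
def p12_10_1_44 : pfC (piC [(nat_lit 41997052), (nat_lit 26592602), (nat_lit 19805017), (nat_lit 13318063)] (nat_lit 10788098)) p12_10_1 (nat_lit 4) (nat_lit 44) (nat_lit 45) = true := by decide +kernel
def p12_10_1_45 : pfC (piC [(nat_lit 41997052), (nat_lit 26592602), (nat_lit 19805017), (nat_lit 13318063)] (nat_lit 10788098)) p12_10_1 (nat_lit 4) (nat_lit 45) (nat_lit 46) = true := by decide +kernel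
def p12_10_1_46 : pfC (piC [(nat_lit 41997052), (nat_lit 26592602), (nat_lit 19805017), (nat_lit 13318063)] (nat_lit 10788098)) p12_10_1 (nat_lit 4) (nat_lit 46) (nat_lit 47) = true := by decide +kernel
def p12_10_1_47 : pfC (piC [(nat_lit 41997052), (nat_lit 26592602), (nat_lit 19805017), (nat_lit 13318063)] (nat_lit 10788098)) p12_10_1 (nat_lit 4) (nat_lit 47) (nat_lit 48) = true := by decide +kernel
def p12_10_1_48 : pfC (piC [(nat_lit 41997052), (nat_lit 26592602), (nat_lit 19805017), (nat_lit 13318063)] (nat_lit 10788098)) p12_10_1 (nat_lit 4) (nat_lit 48) (nat_lit 49) = true := by decide +kernel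
def p12_10_1_49 : pfC (piC [(nat_lit 41997052), (nat_lit 26592602), (nat_lit 19805017), (nat_lit 13318063)] (nat_lit 10788098)) p12_10_1 (nat_lit 4) (nat_lit 49) (nat_lit 50) = true := by decide +kernel
def p12_10_1_50 : pfC (piC [(nat_lit 41997052), (nat_lit 26592602), (nat_lit 19805017), (nat_lit 13318063)] (nat_lit 10788098)) p12_10_1 (nat_lit 4) (nat_lit 50) (nat_lit 51) = true := by decide +kernel
def p12_10_1_51 : pfC (piC [(nat_lit 41997052), (nat_lit 26592602), (nat_lit 19805017), (nat_lit 13318063)] (nat_lit 10788098)) p12_10_1 (nat_lit 4) (nat_lit 51) (nat_lit 52) = true := by decide +kernel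
def p12_10_1_52 : pfC (piC [(nat_lit 41997052), (nat_lit 26592602), (nat_lit 19805017), (nat_lit 13318063)] (nat_lit 10788098)) p12_10_1 (nat_lit 4) (nat_lit 52) (nat_lit 53) = true := by decide +kernel
def p12_10_1_53 : pfC (piC [(nat_lit 41997052), (nat_lit 26592602), (nat_lit 19805017), (nat_lit 13318063)] (nat_lit 10788098)) p12_10_1 (nat_lit 4) (nat_lit 53) (nat_lit 54) = true := by decide +kernel
def p12_10_1_54 : pfC (piC [(nat_lit 41997052), (nat_lit 26592602), (nat_lit 19805017), (nat_lit 13318063)] (nat_lit 10788098)) p12_10_1 (nat_lit 4) (nat_lit 54) (nat_lit 55) = true := by decide +kernel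
def p12_10_1_55 : pfC (piC [(nat_lit 41997052), (nat_lit 26592602), (nat_lit 19805017), (nat_lit 13318063)] (nat_lit 10788098)) p12_10_1 (nat_lit 4) (nat_lit 55) (nat_lit 56) = true := by decide +kernel
def p12_10_1_56 : pfC (piC [(nat_lit 41997052), (nat_lit 26592602), (nat_lit 19805017), (nat_lit 13318063)] (nat_lit 10788098)) p12_10_1 (nat_lit 4) (nat_lit 56) (nat_lit 57) = true := by decide +kernel
def p12_10_1_57 : pfC (piC [(nat_lit 41997052), (nat_lit 26592602), (nat_lit 19805017), (nat_lit 13318063)] (nat_lit 10788098)) p12_10_1 (nat_lit 4) (nat_lit 57) (nat_lit 58) = true := by decide +kernel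
def p12_10_1_58 : pfC (piC [(nat_lit 41997052), (nat_lit 26592602), (nat_lit 19805017), (nat_lit 13318063)] (nat_lit 10788098)) p12_10_1 (nat_lit 4) (nat_lit 58) (nat_lit 59) = true := by decide +kernel
def p12_10_1_59 : pfC (piC [(nat_lit 41997052), (nat_lit 26592602), (nat_lit 19805017), (nat_lit 13318063)] (nat_lit 10788098)) p12_10_1 (nat_lit 4) (nat_lit 59) (nat_lit 60) = true := by decide +kernel
def p12_10_1_60 : pfC (piC [(nat_lit 41997052), (nat_lit 26592602), (nat_lit 19805017), (nat_lit 13318063)] (nat_lit 10788098)) p12_10_1 (nat_lit 4) (nat_lit 60) (nat_lit 61) = true := by decide +kernel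
def p12_10_1_61 : pfC (piC [(nat_lit 41997052), (nat_lit 26592602), (nat_lit 19805017), (nat_lit 13318063)] (nat_lit 10788098)) p12_10_1 (nat_lit 4) (nat_lit 61) (nat_lit 62) = true := by decide +kernel
def p12_10_1_62 : pfC (piC [(nat_lit 41997052), (nat_lit 26592602), (nat_lit 19805017), (nat_lit 13318063)] (nat_lit 10788098)) p12_10_1 (nat_lit 4) (nat_lit 62) (nat_lit 63) = true := by decide +kernel
def p12_10_1_63 : pfC (piC [(nat_lit 41997052), (nat_lit 26592602), (nat_lit 19805017), (nat_lit 13318063)] (nat_lit 10788098)) p12_10_1 (nat_lit 4) (nat_lit 63) (nat_lit 64) = true := by decide +kernel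
def p12_10_1_64 : pfC (piC [(nat_lit 41997052), (nat_lit 26592602), (nat_lit 19805017), (nat_lit 13318063)] (nat_lit 10788098)) p12_10_1 (nat_lit 4) (nat_lit 64) (nat_lit 65) = true := by decide +kernel
def p12_10_1_65 : pfC (piC [(nat_lit 41997052), (nat_lit 26592602), (nat_lit 19805017), (nat_lit 13318063)] (nat_lit 10788098)) p12_10_1 (nat_lit 4) (nat_lit 65) (nat_lit 66) = true := by decide +kernel
def p12_10_1_66 : pfC (piC [(nat_lit 41997052), (nat_lit 26592602), (nat_lit 19805017), (nat_lit 13318063)] (nat_lit 10788098)) p12_10_1 (nat_lit 4) (nat_lit 66) (nat_lit 67) = true := by decide +kernel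
def p12_10_1_67 : pfC (piC [(nat_lit 41997052), (nat_lit 26592602), (nat_lit 19805017), (nat_lit 13318063)] (nat_lit 10788098)) p12_10_1 (nat_lit 4) (nat_lit 67) (nat_lit 68) = true := by decide +kernel
def p12_10_1_68 : pfC (piC [(nat_lit 41997052), (nat_lit 26592602), (nat_lit 19805017), (nat_lit 13318063)] (nat_lit 10788098)) p12_10_1 (nat_lit 4) (nat_lit 68) (nat_lit 69) = true := by decide +kernel
def p12_10_1_69 : pfC (piC [(nat_lit 41997052), (nat_lit 26592602), (nat_lit 19805017), (nat_lit 13318063)] (nat_lit 10788098)) p12_10_1 (nat_lit 4) (nat_lit 69) (nat_lit 70) = true := by decide +kernel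
def p12_10_1_70 : pfC (piC [(nat_lit 41997052), (nat_lit 26592602), (nat_lit 19805017), (nat_lit 13318063)] (nat_lit 10788098)) p12_10_1 (nat_lit 4) (nat_lit 70) (nat_lit 71) = true := by decide +kernel
def p12_10_1_71 : pfC (piC [(nat_lit 41997052), (nat_lit 26592602), (nat_lit 19805017), (nat_lit 13318063)] (nat_lit 10788098)) p12_10_1 (nat_lit 4) (nat_lit 71) (nat_lit 72) = true := by decide +kernel
def p12_10_1_72 : pfC (piC [(nat_lit 41997052), (nat_lit 26592602), (nat_lit 19805017), (nat_lit 13318063)] (nat_lit 10788098)) p12_10_1 (nat_lit 4) (nat_lit 72) (nat_lit 73) = true := by decide +kernel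
def p12_10_1_73 : pfC (piC [(nat_lit 41997052), (nat_lit 26592602), (nat_lit 19805017), (nat_lit 13318063)] (nat_lit 10788098)) p12_10_1 (nat_lit 4) (nat_lit 73) (nat_lit 74) = true := by decide +kernel
def p12_10_1_74 : pfC (piC [(nat_lit 41997052), (nat_lit 26592602), (nat_lit 19805017), (nat_lit 13318063)] (nat_lit 10788098)) p12_10_1 (nat_lit 4) (nat_lit 74) (nat_lit 75) = true := by decide +kernel
def p12_10_1_75 : pfC (piC [(nat_lit 41997052), (nat_lit 26592602), (nat_lit 19805017), (nat_lit 13318063)] (nat_lit 10788098)) p12_10_1 (nat_lit 4) (nat_lit 75) (nat_lit 76) = true := by decide +kernel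
def p12_10_1_76 : pfC (piC [(nat_lit 41997052), (nat_lit 26592602), (nat_lit 19805017), (nat_lit 13318063)] (nat_lit 10788098)) p12_10_1 (nat_lit 4) (nat_lit 76) (nat_lit 77) = true := by decide +kernel
theorem p12_10_1_T : PfS (PiF n12_10.reverse (nat_lit 10788098)) p12_10_1 (nat_lit 4) [] 0 :=
  pftab_of (los := [(nat_lit 41997052), (nat_lit 26592602), (nat_lit 19805017), (nat_lit 13318063)]) (by decide +kernel) (hi := (nat_lit 77)) (PfP.trans (PfP.trans (PfP.trans (PfP.trans (PfP.trans (PfP.trans (PfP.trans (PfP.trans (PfP.trans (PfP.trans (PfP.trans (PfP.trans (PfP.trans (PfP.trans (PfP.trans (PfP.trans (PfP.trans (PfP.trans (PfP.trans (PfP.trans (PfP.trans (PfP.trans (PfP.trans (PfP.trans (PfP.trans (PfP.trans (PfP.trans (PfP.trans (PfP.trans (PfP.trans (PfP.trans (PfP.trans (PfP.trans (PfP.trans (PfP.trans (PfP.trans (PfP.trans (PfP.trans (PfP.trans (PfP.trans (PfP.trans (PfP.trans (PfP.trans (PfP.trans (PfP.trans (PfP.trans (PfP.trans (PfP.trans (PfP.trans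 (PfP.trans (PfP.trans (PfP.trans (PfP.trans (PfP.trans (PfP.trans (PfP.trans (PfP.trans (PfP.trans (PfP.trans (PfP.trans (PfP.trans (PfP.trans (PfP.trans (PfP.trans (PfP.trans (PfP.trans (PfP.trans (PfP.trans (PfP.trans (PfP.trans (PfP.trans (PfP.trans (PfP.trans (PfP.trans (PfP.trans (PfP.trans (pfC_sound p12_10_1_0) (pfC_sound p12_10_1_1)) (pfC_sound p12_10_1_2)) (pfC_sound p12_10_1_3)) (pfC_sound p12_10_1_4)) (pfC_sound p12_10_1_5)) (pfC_sound p12_10_1_6)) (pfC_sound p12_10_1_7)) (pfC_sound p12_10_1_8)) (pfC_sound p12_10_1_9)) (pfC_sound p12_10_1_10)) (pfC_sound p12_10_1_11)) (pfC_sound p12_10_1_12)) (pfC_sound p12_10_1_13)) (pfC_sound p12_10_1_14))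
 (pfC_sound p12_10_1_15)) (pfC_sound p12_10_1_16)) (pfC_sound p12_10_1_17)) (pfC_sound p12_10_1_18)) (pfC_sound p12_10_1_19)) (pfC_sound p12_10_1_20)) (pfC_sound p12_10_1_21)) (pfC_sound p12_10_1_22)) (pfC_sound p12_10_1_23)) (pfC_sound p12_10_1_24)) (pfC_sound p12_10_1_25)) (pfC_sound p12_10_1_26)) (pfC_sound p12_10_1_27)) (pfC_sound p12_10_1_28)) (pfC_sound p12_10_1_29)) (pfC_sound p12_10_1_30)) (pfC_sound p12_10_1_31)) (pfC_sound p12_10_1_32)) (pfC_sound p12_10_1_33)) (pfC_sound p12_10_1_34)) (pfC_sound p12_10_1_35)) (pfC_sound p12_10_1_36)) (pfC_sound p12_10_1_37)) (pfC_sound p12_10_1_38)) (pfC_sound p12_10_1_39)) (pfC_sound p12_10_1_40)) (pfC_sound p12_10_1_41)) (pfC_sound p12_10_1_42)) (pfC_sound p12_10_1_43)) (pfC_sound p12_10_1_44)) (pfC_sound p12_10_1_45)) (pfC_sound p12_10_1_46)) (pfC_sound p12_10_1_47)) (pfC_sound p12_10_1_48)) (pfC_sound p12_10_1_49)) (pfC_sound p12_10_1_50)) (pfC_sound p12_10_1_51)) (pfC_sound p12_10_1_52)) (pfC_sound p12_10_1_53))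 (pfC_sound p12_10_1_54)) (pfC_sound p12_10_1_55)) (pfC_sound p12_10_1_56)) (pfC_sound p12_10_1_57)) (pfC_sound p12_10_1_58)) (pfC_sound p12_10_1_59)) (pfC_sound p12_10_1_60)) (pfC_sound p12_10_1_61)) (pfC_sound p12_10_1_62))
 (pfC_sound p12_10_1_63)) (pfC_sound p12_10_1_64)) (pfC_sound p12_10_1_65)) (pfC_sound p12_10_1_66)) (pfC_sound p12_10_1_67)) (pfC_sound p12_10_1_68)) (pfC_sound p12_10_1_69)) (pfC_sound p12_10_1_70)) (pfC_sound p12_10_1_71)) (pfC_sound p12_10_1_72)) (pfC_sound p12_10_1_73)) (pfC_sound p12_10_1_74)) (pfC_sound p12_10_1_75)) (pfC_sound p12_10_1_76)) (by decide +kernel)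

def z12_10_1 : zOK yB12_10 (nat_lit 1) (nat_lit 400) (nat_lit 600) (nat_lit 10788098) (nat_lit 7256705) = true := by decide +kernel
def g12_10_1 : gOK yB12_10.x P12_10 (nat_lit 1424) (q12_10 :: r12_10) (nat_lit 1) (nat_lit 400) (nat_lit 2) (nat_lit 600) (nat_lit 11000000) (nat_lit 17850000) (nat_lit 12712500) (nat_lit 12712500) [(nat_lit 800), (nat_lit 1040)] = true := by decide +kernel
def v12_10_1 : ivC P12_10 s12_10 w12_10 n12_10 (nat_lit 4) (nat_lit 5060) (nat_lit 1) (nat_lit 400) f144_1_400 f152_1_400 (nat_lit 2) (nat_lit 600) f144_1_600 f152_1_600 (nat_lit 10788098) (nat_lit 7256705) p12_10_1 = true := by decide +kernel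
def p12_10_2 : PF := (PF.cons (PF.cons (PF.cons (PF.cons (PF.leaf (nat_lit 2647945) (nat_lit 14906805) (nat_lit 52202007) (nat_lit 14906805) [(nat_lit 0), (nat_lit 0), (nat_lit 0), (nat_lit 0)]) (PF.cons (PF.leaf (nat_lit 2772644) (nat_lit 209097) (nat_lit 52001082) (nat_lit 14898633) [(nat_lit 209097), (nat_lit 0), (nat_lit 0), (nat_lit 0)]) (PF.cons (PF.leaf (nat_lit 2922042) (nat_lit 227431) (nat_lit 51765674) (nat_lit 14888274) [(nat_lit 227431), (nat_lit 0), (nat_lit 0), (nat_lit 0)]) (PF.cons (PF.leaf (nat_lit 3089930) (nat_lit 243737) (nat_lit 51501908) (nat_lit 14875691) [(nat_lit 243737), (nat_lit 0), (nat_lit 0), (nat_lit 0)]) (PF.cons (PF.leaf (nat_lit 3273764) (nat_lit 258479) (nat_lit 51214086) (nat_lit 14860809) [(nat_lit 258479), (nat_lit 0), (nat_lit 0), (nat_lit 0)]) (PF.cons (PF.leaf (nat_lit 3471602) (nat_lit 271953) (nat_lit 50905501) (nat_lit 14843546) [(nat_lit 271953), (nat_lit 0), (nat_lit 0), (nat_lit 0)]) (PF.cons (PF.leaf (nat_lit 3681845)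 (nat_lit 284361) (nat_lit 50578813) (nat_lit 14823828) [(nat_lit 284361), (nat_lit 0), (nat_lit 0), (nat_lit 0)]) (PF.cons PF.nil (PF.cons PF.nil PF.nil))))))))) (PF.cons (PF.cons (PF.leaf (nat_lit 3134723) (nat_lit 1105188) (nat_lit
 51149860) (nat_lit 14853763) [(nat_lit 0), (nat_lit 1105188), (nat_lit 0), (nat_lit 0)]) (PF.cons (PF.leaf (nat_lit 3299035) (nat_lit 254936) (nat_lit 50885005) (nat_lit 14838732) [(nat_lit 254936), (nat_lit 1130138), (nat_lit 0), (nat_lit 0)]) (PF.cons (PF.leaf (nat_lit 3481761) (nat_lit 269021) (nat_lit 50594794) (nat_lit 14821152) [(nat_lit 269021), (nat_lit 1154824), (nat_lit 0), (nat_lit 0)]) (PF.cons (PF.leaf (nat_lit 3679064) (nat_lit 281835) (nat_lit 50283444) (nat_lit 14801023) [(nat_lit 281835), (nat_lit 1178838), (nat_lit 0), (nat_lit 0)]) (PF.cons (PF.leaf (nat_lit 3888941) (nat_lit 293607) (nat_lit 49954088) (nat_lit 14778328) [(nat_lit 293607), (nat_lit 1201966), (nat_lit 0), (nat_lit 0)]) (PF.cons (PF.leaf (nat_lit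 4110080) (nat_lit 304491) (nat_lit 49609214) (nat_lit 14753046) [(nat_lit 304491), (nat_lit 1224093), (nat_lit 0), (nat_lit 0)]) (PF.cons PF.nil PF.nil))))))) (PF.cons (PF.cons (PF.leaf (nat_lit 3694184) (nat_lit 1187407) (nat_lit 49958980) (nat_lit 14775016) [(nat_lit 0), (nat_lit 1187407), (nat_lit 0), (nat_lit 0)]) (PF.cons (PF.leaf (nat_lit 3888165) (nat_lit 290354) (nat_lit 49648739) (nat_lit 14752324) [(nat_lit 290354), (nat_lit 1208697), (nat_lit
 0), (nat_lit 0)]) (PF.cons (PF.leaf (nat_lit 4096529) (nat_lit 301676) (nat_lit 49319750) (nat_lit 14726919) [(nat_lit 301676), (nat_lit 1229395), (nat_lit 0), (nat_lit 0)]) (PF.cons (PF.leaf (nat_lit 4316439) (nat_lit 312095) (nat_lit 48975036) (nat_lit 14698840) [(nat_lit 312095), (nat_lit 1249324), (nat_lit 0), (nat_lit 0)]) (PF.cons (PF.leaf (nat_lit 4546396) (nat_lit 321741) (nat_lit 48616953) (nat_lit 14668118) [(nat_lit 321741), (nat_lit 1268387), (nat_lit 0), (nat_lit 0)]) PF.nil))))) (PF.cons (PF.cons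 (PF.leaf (nat_lit 4306332) (nat_lit 1254119) (nat_lit 48676781) (nat_lit 14669674) [(nat_lit 0), (nat_lit 1254119), (nat_lit 0), (nat_lit 0)]) (PF.cons (PF.leaf (nat_lit 4522938) (nat_lit 318739) (nat_lit 48334813) (nat_lit 14639109) [(nat_lit 318739), (nat_lit 1272050), (nat_lit 0), (nat_lit 0)]) (PF.cons (PF.leaf (nat_lit 4750996) (nat_lit 328027) (nat_lit 47979071) (nat_lit 14605832) [(nat_lit 328027), (nat_lit 1289284), (nat_lit 0), (nat_lit 0)]) (PF.cons PF.nil PF.nil)))) (PF.cons (PF.cons (PF.leaf (nat_lit 4956265) (nat_lit 1308102) (nat_lit 47337941) (nat_lit 14538460) [(nat_lit 0), (nat_lit 1308102), (nat_lit 0), (nat_lit 0)]) (PF.cons (PF.leaf (nat_lit 5190068)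
 (nat_lit 341810) (nat_lit 46974729) (nat_lit 14500267) [(nat_lit 341810), (nat_lit 1323001), (nat_lit 0), (nat_lit 0)]) PF.nil)) (PF.cons PF.nil PF.nil)))))) (PF.cons (PF.cons (PF.cons (PF.leaf (nat_lit 3664003) (nat_lit 2986447) (nat_lit 49407808) (nat_lit 14714556) [(nat_lit 0), (nat_lit 0), (nat_lit 2986447), (nat_lit 0)]) (PF.cons (PF.leaf (nat_lit 3836927) (nat_lit 274606) (nat_lit 49133354) (nat_lit 14692835) [(nat_lit 274606), (nat_lit 0), (nat_lit 3008016), (nat_lit 0)]) (PF.cons (PF.leaf (nat_lit 4027601) (nat_lit 287941) (nat_lit 48834850) (nat_lit 14668143) [(nat_lit 287941), (nat_lit 0), (nat_lit 3029936), (nat_lit 0)]) (PF.cons (PF.leaf (nat_lit 4231916) (nat_lit 299900) (nat_lit 48516787) (nat_lit 14640628) [(nat_lit 299900), (nat_lit 0), (nat_lit 3051694), (nat_lit 0)]) (PF.cons (PF.leaf (nat_lit 4447995) (nat_lit 310761) (nat_lit 48182436) (nat_lit 14610386) [(nat_lit 310761), (nat_lit 0), (nat_lit 3072946), (nat_lit 0)]) (PF.cons (PF.leaf (nat_lit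 4674406) (nat_lit 320707) (nat_lit 47834336) (nat_lit 14577487) [(nat_lit 320707), (nat_lit 0), (nat_lit 3093453), (nat_lit 0)]) (PF.cons PF.nil PF.nil))))))) (PF.cons (PF.cons (PF.leaf (nat_lit 4237750) (nat_lit
 1240099) (nat_lit 48197496) (nat_lit 14608201) [(nat_lit 0), (nat_lit 1240099), (nat_lit 3063015), (nat_lit 0)]) (PF.cons (PF.leaf (nat_lit 4437776) (nat_lit 306553) (nat_lit 47883453) (nat_lit 14578624) [(nat_lit 306553), (nat_lit 1258151), (nat_lit 3082029), (nat_lit 0)]) (PF.cons (PF.leaf (nat_lit 4651322) (nat_lit 317085) (nat_lit 47552166) (nat_lit 14546172) [(nat_lit 317085), (nat_lit 1275609), (nat_lit 3100692), (nat_lit 0)]) (PF.cons (PF.leaf (nat_lit 4875548) (nat_lit 326676) (nat_lit 47206724) (nat_lit 14510985) [(nat_lit 326676), (nat_lit 1292335), (nat_lit 3118738), (nat_lit 0)]) (PF.cons PF.nil PF.nil))))) (PF.cons (PF.cons (PF.leaf (nat_lit 4856465) (nat_lit 1294949) (nat_lit 46916996) (nat_lit 14476879) [(nat_lit 0), (nat_lit 1294949),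 (nat_lit 3125037), (nat_lit 0)]) (PF.cons (PF.leaf (nat_lit 5076700) (nat_lit 331828) (nat_lit 46576424) (nat_lit 14439750) [(nat_lit 331828), (nat_lit 1310015), (nat_lit 3140778), (nat_lit 0)]) (PF.cons (PF.leaf (nat_lit 5307505) (nat_lit 340354) (nat_lit 46223506) (nat_lit 14399922) [(nat_lit 340354), (nat_lit 1324417), (nat_lit 3155840), (nat_lit 0)]) (PF.cons PF.nil PF.nil)))) (PF.cons (PF.cons (PF.leaf (nat_lit 5506440) (nat_lit
 1338884) (nat_lit 45596927) (nat_lit 14322393) [(nat_lit 0), (nat_lit 1338884), (nat_lit 3172839), (nat_lit 0)]) (PF.cons PF.nil PF.nil)) (PF.cons PF.nil PF.nil))))) (PF.cons (PF.cons (PF.cons (PF.leaf (nat_lit 4772950) (nat_lit 3114252) (nat_lit 46469335) (nat_lit 14410972) [(nat_lit 0), (nat_lit 0), (nat_lit 3114252), (nat_lit 0)]) (PF.cons (PF.leaf (nat_lit 4977119) (nat_lit 319567) (nat_lit 46155914) (nat_lit 14375539) [(nat_lit 319567), (nat_lit 0), (nat_lit 3128895), (nat_lit 0)]) (PF.cons (PF.leaf (nat_lit 5194067) (nat_lit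 329387) (nat_lit 45826634) (nat_lit 14337159) [(nat_lit 329387), (nat_lit 0), (nat_lit 3143121), (nat_lit 0)]) (PF.cons (PF.leaf (nat_lit 5420964) (nat_lit 338239) (nat_lit 45484589) (nat_lit 14296055) [(nat_lit 338239), (nat_lit 0), (nat_lit 3156725), (nat_lit 0)]) (PF.cons PF.nil PF.nil))))) (PF.cons (PF.cons (PF.leaf (nat_lit 5393676) (nat_lit 1325331) (nat_lit 45205521) (nat_lit 14258207) [(nat_lit 0), (nat_lit 1325331), (nat_lit 3159876), (nat_lit 0)]) (PF.cons (PF.leaf (nat_lit 5615975) (nat_lit 342153) (nat_lit 44869860) (nat_lit 14215686) [(nat_lit 342153), (nat_lit 1337981), (nat_lit 3171565), (nat_lit 0)]) (PF.cons (PF.leaf (nat_lit 5848129)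
 (nat_lit 350000) (nat_lit 44523104) (nat_lit 14170530) [(nat_lit 350000), (nat_lit 1349995), (nat_lit 3182591), (nat_lit 0)]) (PF.cons PF.nil PF.nil)))) (PF.cons (PF.cons (PF.leaf (nat_lit 6040269) (nat_lit 1360890) (nat_lit 43915398) (nat_lit 14085126) [(nat_lit 0), (nat_lit 1360890), (nat_lit 3193253), (nat_lit 0)]) (PF.cons PF.nil PF.nil)) PF.nil))) (PF.cons (PF.cons (PF.cons (PF.leaf (nat_lit 5916367) (nat_lit 3178872) (nat_lit 43552416) (nat_lit 14019778) [(nat_lit 0), (nat_lit 0), (nat_lit 3178872), (nat_lit 0)]) (PF.cons (PF.leaf (nat_lit 6139474) (nat_lit 350173) (nat_lit 43224178) (nat_lit 13972950) [(nat_lit 350173), (nat_lit 0), (nat_lit 3187170), (nat_lit 0)]) (PF.cons PF.nil PF.nil))) (PF.cons (PF.cons (PF.leaf (nat_lit 6556927) (nat_lit 1375702) (nat_lit 42299892) (nat_lit 13832295) [(nat_lit 0), (nat_lit 1375702), (nat_lit 3200307), (nat_lit 0)]) PF.nil) PF.nil)) (PF.cons PF.nil (PF.cons PF.nil PF.nil)))))) (PF.cons (PF.cons (PF.cons (PF.cons (PF.leaf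 (nat_lit 4624298) (nat_lit 8511435) (nat_lit 44545272) (nat_lit 14052105) [(nat_lit 0), (nat_lit 0), (nat_lit 0), (nat_lit 8511435)]) (PF.cons (PF.leaf (nat_lit 4796836) (nat_lit 284649) (nat_lit 44295978) (nat_lit
 14021276) [(nat_lit 284649), (nat_lit 0), (nat_lit 0), (nat_lit 8506909)]) (PF.cons (PF.leaf (nat_lit 4986079) (nat_lit 297332) (nat_lit 44025874) (nat_lit 13987098) [(nat_lit 297332), (nat_lit 0), (nat_lit 0), (nat_lit 8501173)]) (PF.cons (PF.leaf (nat_lit 5187895) (nat_lit 308510) (nat_lit 43739162) (nat_lit 13949951) [(nat_lit 308510), (nat_lit 0), (nat_lit 0), (nat_lit 8494166)]) (PF.cons (PF.leaf (nat_lit 5400355) (nat_lit 318497) (nat_lit 43438881) (nat_lit 13910100) [(nat_lit 318497), (nat_lit 0), (nat_lit 0), (nat_lit 8485839)]) (PF.cons (PF.leaf (nat_lit 5621946) (nat_lit 327507) (nat_lit 43127367) (nat_lit 13867749) [(nat_lit 327507), (nat_lit 0), (nat_lit 0), (nat_lit 8476159)]) (PF.cons PF.nil PF.nil))))))) (PF.cons (PF.cons (PF.leaf (nat_lit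 5182413) (nat_lit 1259957) (nat_lit 43457429) (nat_lit 13909441) [(nat_lit 0), (nat_lit 1259957), (nat_lit 0), (nat_lit 8481984)]) (PF.cons (PF.leaf (nat_lit 5379022) (nat_lit 313365) (nat_lit 43176118) (nat_lit 13871297) [(nat_lit 313365), (nat_lit 1274641), (nat_lit 0), (nat_lit 8473390)]) (PF.cons (PF.leaf (nat_lit 5588047) (nat_lit 323070) (nat_lit 42880306) (nat_lit 13830294) [(nat_lit 323070), (nat_lit 1288632), (nat_lit 0),
 (nat_lit 8463438)]) (PF.cons (PF.leaf (nat_lit 5806682) (nat_lit 331773) (nat_lit 42572811) (nat_lit 13786711) [(nat_lit 331773), (nat_lit 1301847), (nat_lit 0), (nat_lit 8452121)]) (PF.cons (PF.leaf (nat_lit 6033516) (nat_lit 339647) (nat_lit 42255771) (nat_lit 13740761) [(nat_lit 339647), (nat_lit 1314252), (nat_lit 0), (nat_lit 8439438)]) PF.nil))))) (PF.cons (PF.cons (PF.leaf (nat_lit 5777102) (nat_lit 1301916) (nat_lit 42319989) (nat_lit 13747072) [(nat_lit 0), (nat_lit 1301916), (nat_lit 0), (nat_lit 8437918)]) (PF.cons (PF.leaf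 (nat_lit 5991060) (nat_lit 335329) (nat_lit 42018247) (nat_lit 13702599) [(nat_lit 335329), (nat_lit 1313741), (nat_lit 0), (nat_lit 8425152)]) (PF.cons (PF.leaf (nat_lit 6214586) (nat_lit 342983) (nat_lit 41706381) (nat_lit 13655673) [(nat_lit 342983), (nat_lit 1324889), (nat_lit 0), (nat_lit 8411011)]) (PF.cons PF.nil PF.nil)))) (PF.cons (PF.cons (PF.leaf (nat_lit 6396071) (nat_lit 1334206) (nat_lit 41158361) (nat_lit 13567888) [(nat_lit 0), (nat_lit 1334206), (nat_lit 0), (nat_lit 8379943)]) (PF.cons (PF.leaf (nat_lit 6622664) (nat_lit 352484) (nat_lit 40844386) (nat_lit 13517997) [(nat_lit 352484), (nat_lit 1343589), (nat_lit 0), (nat_lit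
 8363175)]) PF.nil)) (PF.cons PF.nil (PF.cons PF.nil PF.nil)))))) (PF.cons (PF.cons (PF.cons (PF.leaf (nat_lit 5677332) (nat_lit 3086117) (nat_lit 41941942) (nat_lit 13677229) [(nat_lit 0), (nat_lit 0), (nat_lit 3086117), (nat_lit 8403523)]) (PF.cons (PF.leaf (nat_lit 5876223) (nat_lit 322646) (nat_lit 41664314) (nat_lit 13635515) [(nat_lit 322646), (nat_lit 0), (nat_lit 3095129), (nat_lit 8391206)]) (PF.cons (PF.leaf (nat_lit 6086904) (nat_lit 331685) (nat_lit 41373348) (nat_lit 13590970) [(nat_lit 331685), (nat_lit 0), (nat_lit 3103645), (nat_lit 8377477)]) (PF.cons (PF.leaf (nat_lit 6306568) (nat_lit 339718) (nat_lit 41071813) (nat_lit 13543922) [(nat_lit 339718), (nat_lit 0), (nat_lit 3111539), (nat_lit 8362381)]) (PF.cons PF.nil PF.nil))))) (PF.cons (PF.cons (PF.leaf (nat_lit 6270178) (nat_lit 1319504) (nat_lit 40830126) (nat_lit 13502643) [(nat_lit 0), (nat_lit 1319504), (nat_lit 3110781), (nat_lit 8345757)]) (PF.cons (PF.leaf (nat_lit 6484793) (nat_lit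 342297) (nat_lit 40535230) (nat_lit 13455094) [(nat_lit 342297), (nat_lit 1329396), (nat_lit 3117258), (nat_lit 8329536)]) (PF.cons (PF.leaf (nat_lit 6708367) (nat_lit 349353) (nat_lit 40231185) (nat_lit 13405192) [(nat_lit
 349353), (nat_lit 1338652), (nat_lit 3123107), (nat_lit 8311967)]) (PF.cons PF.nil PF.nil)))) (PF.cons (PF.cons (PF.leaf (nat_lit 6883331) (nat_lit 1345327) (nat_lit 39703014) (nat_lit 13313587) [(nat_lit 0), (nat_lit 1345327), (nat_lit 3125778), (nat_lit 8275778)]) (PF.cons PF.nil PF.nil)) (PF.cons PF.nil (PF.cons PF.nil PF.nil))))) (PF.cons (PF.cons (PF.cons (PF.leaf (nat_lit 6749090) (nat_lit 3109569) (nat_lit 39399411) (nat_lit 13249348) [(nat_lit 0), (nat_lit 0), (nat_lit 3109569), (nat_lit 8240914)]) (PF.cons (PF.leaf (nat_lit 6963497) (nat_lit 347537) (nat_lit 39112734) (nat_lit 13199475) [(nat_lit 347537), (nat_lit 0), (nat_lit 3113599), (nat_lit 8221866)]) (PF.cons PF.nil (PF.cons PF.nil PF.nil)))) (PF.cons (PF.cons (PF.leaf (nat_lit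 7354798) (nat_lit 1351369) (nat_lit 38310566) (nat_lit 13053206) [(nat_lit 0), (nat_lit 1351369), (nat_lit 3116169), (nat_lit 8161331)]) (PF.cons PF.nil PF.nil)) (PF.cons PF.nil PF.nil))) (PF.cons (PF.cons (PF.cons (PF.leaf (nat_lit 7810582) (nat_lit 3099504) (nat_lit 36981464) (nat_lit 12789619) [(nat_lit 0), (nat_lit 0), (nat_lit 3099504), (nat_lit 8039213)]) (PF.cons PF.nil PF.nil)) (PF.cons PF.nil PF.nil)) (PF.cons PF.nil PF.nil)))))
 (PF.cons (PF.cons (PF.cons (PF.cons (PF.leaf (nat_lit 6479541) (nat_lit 8051884) (nat_lit 38073754) (nat_lit 12931290) [(nat_lit 0), (nat_lit 0), (nat_lit 0), (nat_lit 8051884)]) (PF.cons (PF.leaf (nat_lit 6672078) (nat_lit 320909) (nat_lit 37829670) (nat_lit 12887563) [(nat_lit 320909), (nat_lit 0), (nat_lit 0), (nat_lit 8035334)]) (PF.cons (PF.leaf (nat_lit 6875590) (nat_lit 329276) (nat_lit 37574260) (nat_lit 12841194) [(nat_lit 329276), (nat_lit 0), (nat_lit 0), (nat_lit 8017402)]) (PF.cons (PF.leaf (nat_lit 7087303) (nat_lit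 336630) (nat_lit 37309970) (nat_lit 12792559) [(nat_lit 336630), (nat_lit 0), (nat_lit 0), (nat_lit 7998196)]) (PF.cons PF.nil PF.nil))))) (PF.cons (PF.cons (PF.leaf (nat_lit 7044531) (nat_lit 1297854) (nat_lit 37101405) (nat_lit 12751175) [(nat_lit 0), (nat_lit 1297854), (nat_lit 0), (nat_lit 7979188)]) (PF.cons (PF.leaf (nat_lit 7251001) (nat_lit 338271) (nat_lit 36843444) (nat_lit 12702584) [(nat_lit 338271), (nat_lit 1305760), (nat_lit 0), (nat_lit 7959375)]) (PF.cons PF.nil (PF.cons PF.nil PF.nil)))) (PF.cons (PF.cons (PF.leaf (nat_lit 7626074) (nat_lit 1316911) (nat_lit 36119662) (nat_lit 12560516) [(nat_lit 0), (nat_lit 1316911), (nat_lit 0),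
 (nat_lit 7897405)]) (PF.cons PF.nil PF.nil)) PF.nil))) (PF.cons (PF.cons (PF.cons (PF.leaf (nat_lit 7485924) (nat_lit 3017491) (nat_lit 35865116) (nat_lit 12500219) [(nat_lit 0), (nat_lit 0), (nat_lit 3017491), (nat_lit 7862992)]) (PF.cons (PF.leaf (nat_lit 7691583) (nat_lit 341646) (nat_lit 35615060) (nat_lit 12450484) [(nat_lit 341646), (nat_lit 0), (nat_lit 3018791), (nat_lit 7841414)]) (PF.cons PF.nil PF.nil))) (PF.cons (PF.cons (PF.leaf (nat_lit 8059574) (nat_lit 1317428) (nat_lit 34918788) (nat_lit 12306713) [(nat_lit 0), (nat_lit 1317428), (nat_lit 3014868), (nat_lit 7775506)]) PF.nil) PF.nil)) (PF.cons PF.nil PF.nil))) (PF.cons (PF.cons (PF.cons (PF.cons (PF.leaf (nat_lit 8146111) (nat_lit 7489393) (nat_lit 32845420) (nat_lit 11795212) [(nat_lit 0), (nat_lit 0), (nat_lit 0), (nat_lit 7489393)]) (PF.cons (PF.leaf (nat_lit 8343348) (nat_lit 333967) (nat_lit 32626762) (nat_lit 11747236) [(nat_lit 333967), (nat_lit 0), (nat_lit 0), (nat_lit 7466948)]) PF.nil))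 (PF.cons PF.nil PF.nil)) (PF.cons PF.nil PF.nil)) (PF.cons PF.nil (PF.cons PF.nil (PF.cons PF.nil (PF.cons PF.nil PF.nil))))))))

def p12_10_2_0 : pfC (piC [(nat_lit 41997052), (nat_lit 26592602), (nat_lit 19805017), (nat_lit 13318063)] (nat_lit 7256705)) p12_10_2 (nat_lit 4) (nat_lit 0) (nat_lit 1) = true := by decide +kernel
def p12_10_2_1 : pfC (piC [(nat_lit 41997052), (nat_lit 26592602), (nat_lit 19805017), (nat_lit 13318063)] (nat_lit 7256705)) p12_10_2 (nat_lit 4) (nat_lit 1) (nat_lit 2) = true := by decide +kernel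
def p12_10_2_2 : pfC (piC [(nat_lit 41997052), (nat_lit 26592602), (nat_lit 19805017), (nat_lit 13318063)] (nat_lit 7256705)) p12_10_2 (nat_lit 4) (nat_lit 2) (nat_lit 3) = true := by decide +kernel
def p12_10_2_3 : pfC (piC [(nat_lit 41997052), (nat_lit 26592602), (nat_lit 19805017), (nat_lit 13318063)] (nat_lit 7256705)) p12_10_2 (nat_lit 4) (nat_lit 3) (nat_lit 4) = true := by decide +kernel
def p12_10_2_4 : pfC (piC [(nat_lit 41997052), (nat_lit 26592602), (nat_lit 19805017), (nat_lit 13318063)] (nat_lit 7256705)) p12_10_2 (nat_lit 4) (nat_lit 4) (nat_lit 5) = true := by decide +kernel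
def p12_10_2_5 : pfC (piC [(nat_lit 41997052), (nat_lit 26592602), (nat_lit 19805017), (nat_lit 13318063)] (nat_lit 7256705)) p12_10_2 (nat_lit 4) (nat_lit 5) (nat_lit 6) = true := by decide +kernel
def p12_10_2_6 : pfC (piC [(nat_lit 41997052), (nat_lit 26592602), (nat_lit 19805017), (nat_lit 13318063)] (nat_lit 7256705)) p12_10_2 (nat_lit 4) (nat_lit 6) (nat_lit 7) = true := by decide +kernel
def p12_10_2_7 : pfC (piC [(nat_lit 41997052), (nat_lit 26592602), (nat_lit 19805017), (nat_lit 13318063)] (nat_lit 7256705)) p12_10_2 (nat_lit 4) (nat_lit 7) (nat_lit 8) = true := by decide +kernel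
def p12_10_2_8 : pfC (piC [(nat_lit 41997052), (nat_lit 26592602), (nat_lit 19805017), (nat_lit 13318063)] (nat_lit 7256705)) p12_10_2 (nat_lit 4) (nat_lit 8) (nat_lit 9) = true := by decide +kernel
def p12_10_2_9 : pfC (piC [(nat_lit 41997052), (nat_lit 26592602), (nat_lit 19805017), (nat_lit 13318063)] (nat_lit 7256705)) p12_10_2 (nat_lit 4) (nat_lit 9) (nat_lit 10) = true := by decide +kernel
def p12_10_2_10 : pfC (piC [(nat_lit 41997052), (nat_lit 26592602), (nat_lit 19805017), (nat_lit 13318063)] (nat_lit 7256705)) p12_10_2 (nat_lit 4) (nat_lit 10) (nat_lit 11) = true := by decide +kernel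
def p12_10_2_11 : pfC (piC [(nat_lit 41997052), (nat_lit 26592602), (nat_lit 19805017), (nat_lit 13318063)] (nat_lit 7256705)) p12_10_2 (nat_lit 4) (nat_lit 11) (nat_lit 12) = true := by decide +kernel
def p12_10_2_12 : pfC (piC [(nat_lit 41997052), (nat_lit 26592602), (nat_lit 19805017), (nat_lit 13318063)] (nat_lit 7256705)) p12_10_2 (nat_lit 4) (nat_lit 12) (nat_lit 13) = true := by decide +kernel
def p12_10_2_13 : pfC (piC [(nat_lit 41997052), (nat_lit 26592602), (nat_lit 19805017), (nat_lit 13318063)] (nat_lit 7256705)) p12_10_2 (nat_lit 4) (nat_lit 13) (nat_lit 14) = true := by decide +kernel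
def p12_10_2_14 : pfC (piC [(nat_lit 41997052), (nat_lit 26592602), (nat_lit 19805017), (nat_lit 13318063)] (nat_lit 7256705)) p12_10_2 (nat_lit 4) (nat_lit 14) (nat_lit 15) = true := by decide +kernel
def p12_10_2_15 : pfC (piC [(nat_lit 41997052), (nat_lit 26592602), (nat_lit 19805017), (nat_lit 13318063)] (nat_lit 7256705)) p12_10_2 (nat_lit 4) (nat_lit 15) (nat_lit 16) = true := by decide +kernel
def p12_10_2_16 : pfC (piC [(nat_lit 41997052), (nat_lit 26592602), (nat_lit 19805017), (nat_lit 13318063)] (nat_lit 7256705)) p12_10_2 (nat_lit 4) (nat_lit 16) (nat_lit 17) = true := by decide +kernel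
def p12_10_2_17 : pfC (piC [(nat_lit 41997052), (nat_lit 26592602), (nat_lit 19805017), (nat_lit 13318063)] (nat_lit 7256705)) p12_10_2 (nat_lit 4) (nat_lit 17) (nat_lit 18) = true := by decide +kernel
def p12_10_2_18 : pfC (piC [(nat_lit 41997052), (nat_lit 26592602), (nat_lit 19805017), (nat_lit 13318063)] (nat_lit 7256705)) p12_10_2 (nat_lit 4) (nat_lit 18) (nat_lit 19) = true := by decide +kernel
def p12_10_2_19 : pfC (piC [(nat_lit 41997052), (nat_lit 26592602), (nat_lit 19805017), (nat_lit 13318063)] (nat_lit 7256705)) p12_10_2 (nat_lit 4) (nat_lit 19) (nat_lit 20) = true := by decide +kernel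
def p12_10_2_20 : pfC (piC [(nat_lit 41997052), (nat_lit 26592602), (nat_lit 19805017), (nat_lit 13318063)] (nat_lit 7256705)) p12_10_2 (nat_lit 4) (nat_lit 20) (nat_lit 21) = true := by decide +kernel
def p12_10_2_21 : pfC (piC [(nat_lit 41997052), (nat_lit 26592602), (nat_lit 19805017), (nat_lit 13318063)] (nat_lit 7256705)) p12_10_2 (nat_lit 4) (nat_lit 21) (nat_lit 22) = true := by decide +kernel
def p12_10_2_22 : pfC (piC [(nat_lit 41997052), (nat_lit 26592602), (nat_lit 19805017), (nat_lit 13318063)] (nat_lit 7256705)) p12_10_2 (nat_lit 4) (nat_lit 22) (nat_lit 23) = true := by decide +kernel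
def p12_10_2_23 : pfC (piC [(nat_lit 41997052), (nat_lit 26592602), (nat_lit 19805017), (nat_lit 13318063)] (nat_lit 7256705)) p12_10_2 (nat_lit 4) (nat_lit 23) (nat_lit 24) = true := by decide +kernel
def p12_10_2_24 : pfC (piC [(nat_lit 41997052), (nat_lit 26592602), (nat_lit 19805017), (nat_lit 13318063)] (nat_lit 7256705)) p12_10_2 (nat_lit 4) (nat_lit 24) (nat_lit 25) = true := by decide +kernel
def p12_10_2_25 : pfC (piC [(nat_lit 41997052), (nat_lit 26592602), (nat_lit 19805017), (nat_lit 13318063)] (nat_lit 7256705)) p12_10_2 (nat_lit 4) (nat_lit 25) (nat_lit 26) = true := by decide +kernel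
def p12_10_2_26 : pfC (piC [(nat_lit 41997052), (nat_lit 26592602), (nat_lit 19805017), (nat_lit 13318063)] (nat_lit 7256705)) p12_10_2 (nat_lit 4) (nat_lit 26) (nat_lit 27) = true := by decide +kernel
def p12_10_2_27 : pfC (piC [(nat_lit 41997052), (nat_lit 26592602), (nat_lit 19805017), (nat_lit 13318063)] (nat_lit 7256705)) p12_10_2 (nat_lit 4) (nat_lit 27) (nat_lit 28) = true := by decide +kernel
def p12_10_2_28 : pfC (piC [(nat_lit 41997052), (nat_lit 26592602), (nat_lit 19805017), (nat_lit 13318063)] (nat_lit 7256705)) p12_10_2 (nat_lit 4) (nat_lit 28) (nat_lit 29) = true := by decide +kernel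
def p12_10_2_29 : pfC (piC [(nat_lit 41997052), (nat_lit 26592602), (nat_lit 19805017), (nat_lit 13318063)] (nat_lit 7256705)) p12_10_2 (nat_lit 4) (nat_lit 29) (nat_lit 30) = true := by decide +kernel
def p12_10_2_30 : pfC (piC [(nat_lit 41997052), (nat_lit 26592602), (nat_lit 19805017), (nat_lit 13318063)] (nat_lit 7256705)) p12_10_2 (nat_lit 4) (nat_lit 30) (nat_lit 31) = true := by decide +kernel
def p12_10_2_31 : pfC (piC [(nat_lit 41997052), (nat_lit 26592602), (nat_lit 19805017), (nat_lit 13318063)] (nat_lit 7256705)) p12_10_2 (nat_lit 4) (nat_lit 31) (nat_lit 32) = true := by decide +kernel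
def p12_10_2_32 : pfC (piC [(nat_lit 41997052), (nat_lit 26592602), (nat_lit 19805017), (nat_lit 13318063)] (nat_lit 7256705)) p12_10_2 (nat_lit 4) (nat_lit 32) (nat_lit 33) = true := by decide +kernel
def p12_10_2_33 : pfC (piC [(nat_lit 41997052), (nat_lit 26592602), (nat_lit 19805017), (nat_lit 13318063)] (nat_lit 7256705)) p12_10_2 (nat_lit 4) (nat_lit 33) (nat_lit 34) = true := by decide +kernel
def p12_10_2_34 : pfC (piC [(nat_lit 41997052), (nat_lit 26592602), (nat_lit 19805017), (nat_lit 13318063)] (nat_lit 7256705)) p12_10_2 (nat_lit 4) (nat_lit 34) (nat_lit 35) = true := by decide +kernel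
def p12_10_2_35 : pfC (piC [(nat_lit 41997052), (nat_lit 26592602), (nat_lit 19805017), (nat_lit 13318063)] (nat_lit 7256705)) p12_10_2 (nat_lit 4) (nat_lit 35) (nat_lit 36) = true := by decide +kernel
def p12_10_2_36 : pfC (piC [(nat_lit 41997052), (nat_lit 26592602), (nat_lit 19805017), (nat_lit 13318063)] (nat_lit 7256705)) p12_10_2 (nat_lit 4) (nat_lit 36) (nat_lit 37) = true := by decide +kernel
def p12_10_2_37 : pfC (piC [(nat_lit 41997052), (nat_lit 26592602), (nat_lit 19805017), (nat_lit 13318063)] (nat_lit 7256705)) p12_10_2 (nat_lit 4) (nat_lit 37) (nat_lit 38) = true := by decide +kernel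
def p12_10_2_38 : pfC (piC [(nat_lit 41997052), (nat_lit 26592602), (nat_lit 19805017), (nat_lit 13318063)] (nat_lit 7256705)) p12_10_2 (nat_lit 4) (nat_lit 38) (nat_lit 39) = true := by decide +kernel
def p12_10_2_39 : pfC (piC [(nat_lit 41997052), (nat_lit 26592602), (nat_lit 19805017), (nat_lit 13318063)] (nat_lit 7256705)) p12_10_2 (nat_lit 4) (nat_lit 39) (nat_lit 40) = true := by decide +kernel
def p12_10_2_40 : pfC (piC [(nat_lit 41997052), (nat_lit 26592602), (nat_lit 19805017), (nat_lit 13318063)] (nat_lit 7256705)) p12_10_2 (nat_lit 4) (nat_lit 40) (nat_lit 41) = true := by decide +kernel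
def p12_10_2_41 : pfC (piC [(nat_lit 41997052), (nat_lit 26592602), (nat_lit 19805017), (nat_lit 13318063)] (nat_lit 7256705)) p12_10_2 (nat_lit 4) (nat_lit 41) (nat_lit 42) = true := by decide +kernel
def p12_10_2_42 : pfC (piC [(nat_lit 41997052), (nat_lit 26592602), (nat_lit 19805017), (nat_lit 13318063)] (nat_lit 7256705)) p12_10_2 (nat_lit 4) (nat_lit 42) (nat_lit 43) = true := by decide +kernel
def p12_10_2_43 : pfC (piC [(nat_lit 41997052), (nat_lit 26592602), (nat_lit 19805017), (nat_lit 13318063)] (nat_lit 7256705)) p12_10_2 (nat_lit 4) (nat_lit 43) (nat_lit 44) = true := by decide +kernel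
def p12_10_2_44 : pfC (piC [(nat_lit 41997052), (nat_lit 26592602), (nat_lit 19805017), (nat_lit 13318063)] (nat_lit 7256705)) p12_10_2 (nat_lit 4) (nat_lit 44) (nat_lit 45) = true := by decide +kernel
def p12_10_2_45 : pfC (piC [(nat_lit 41997052), (nat_lit 26592602), (nat_lit 19805017), (nat_lit 13318063)] (nat_lit 7256705)) p12_10_2 (nat_lit 4) (nat_lit 45) (nat_lit 46) = true := by decide +kernel
def p12_10_2_46 : pfC (piC [(nat_lit 41997052), (nat_lit 26592602), (nat_lit 19805017), (nat_lit 13318063)] (nat_lit 7256705)) p12_10_2 (nat_lit 4) (nat_lit 46) (nat_lit 47) = true := by decide +kernel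
def p12_10_2_47 : pfC (piC [(nat_lit 41997052), (nat_lit 26592602), (nat_lit 19805017), (nat_lit 13318063)] (nat_lit 7256705)) p12_10_2 (nat_lit 4) (nat_lit 47) (nat_lit 48) = true := by decide +kernel
def p12_10_2_48 : pfC (piC [(nat_lit 41997052), (nat_lit 26592602), (nat_lit 19805017), (nat_lit 13318063)] (nat_lit 7256705)) p12_10_2 (nat_lit 4) (nat_lit 48) (nat_lit 49) = true := by decide +kernel
def p12_10_2_49 : pfC (piC [(nat_lit 41997052), (nat_lit 26592602), (nat_lit 19805017), (nat_lit 13318063)] (nat_lit 7256705)) p12_10_2 (nat_lit 4) (nat_lit 49) (nat_lit 50) = true := by decide +kernel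
def p12_10_2_50 : pfC (piC [(nat_lit 41997052), (nat_lit 26592602), (nat_lit 19805017), (nat_lit 13318063)] (nat_lit 7256705)) p12_10_2 (nat_lit 4) (nat_lit 50) (nat_lit 51) = true := by decide +kernel
def p12_10_2_51 : pfC (piC [(nat_lit 41997052), (nat_lit 26592602), (nat_lit 19805017), (nat_lit 13318063)] (nat_lit 7256705)) p12_10_2 (nat_lit 4) (nat_lit 51) (nat_lit 52) = true := by decide +kernel
def p12_10_2_52 : pfC (piC [(nat_lit 41997052), (nat_lit 26592602), (nat_lit 19805017), (nat_lit 13318063)] (nat_lit 7256705)) p12_10_2 (nat_lit 4) (nat_lit 52) (nat_lit 53) = true := by decide +kernel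
def p12_10_2_53 : pfC (piC [(nat_lit 41997052), (nat_lit 26592602), (nat_lit 19805017), (nat_lit 13318063)] (nat_lit 7256705)) p12_10_2 (nat_lit 4) (nat_lit 53) (nat_lit 54) = true := by decide +kernel
def p12_10_2_54 : pfC (piC [(nat_lit 41997052), (nat_lit 26592602), (nat_lit 19805017), (nat_lit 13318063)] (nat_lit 7256705)) p12_10_2 (nat_lit 4) (nat_lit 54) (nat_lit 55) = true := by decide +kernel
def p12_10_2_55 : pfC (piC [(nat_lit 41997052), (nat_lit 26592602), (nat_lit 19805017), (nat_lit 13318063)] (nat_lit 7256705)) p12_10_2 (nat_lit 4) (nat_lit 55) (nat_lit 56) = true := by decide +kernel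
def p12_10_2_56 : pfC (piC [(nat_lit 41997052), (nat_lit 26592602), (nat_lit 19805017), (nat_lit 13318063)] (nat_lit 7256705)) p12_10_2 (nat_lit 4) (nat_lit 56) (nat_lit 57) = true := by decide +kernel
def p12_10_2_57 : pfC (piC [(nat_lit 41997052), (nat_lit 26592602), (nat_lit 19805017), (nat_lit 13318063)] (nat_lit 7256705)) p12_10_2 (nat_lit 4) (nat_lit 57) (nat_lit 58) = true := by decide +kernel
def p12_10_2_58 : pfC (piC [(nat_lit 41997052), (nat_lit 26592602), (nat_lit 19805017), (nat_lit 13318063)] (nat_lit 7256705)) p12_10_2 (nat_lit 4) (nat_lit 58) (nat_lit 59) = true := by decide +kernel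
def p12_10_2_59 : pfC (piC [(nat_lit 41997052), (nat_lit 26592602), (nat_lit 19805017), (nat_lit 13318063)] (nat_lit 7256705)) p12_10_2 (nat_lit 4) (nat_lit 59) (nat_lit 60) = true := by decide +kernel
def p12_10_2_60 : pfC (piC [(nat_lit 41997052), (nat_lit 26592602), (nat_lit 19805017), (nat_lit 13318063)] (nat_lit 7256705)) p12_10_2 (nat_lit 4) (nat_lit 60) (nat_lit 61) = true := by decide +kernel
def p12_10_2_61 : pfC (piC [(nat_lit 41997052), (nat_lit 26592602), (nat_lit 19805017), (nat_lit 13318063)] (nat_lit 7256705)) p12_10_2 (nat_lit 4) (nat_lit 61) (nat_lit 62) = true := by decide +kernel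
def p12_10_2_62 : pfC (piC [(nat_lit 41997052), (nat_lit 26592602), (nat_lit 19805017), (nat_lit 13318063)] (nat_lit 7256705)) p12_10_2 (nat_lit 4) (nat_lit 62) (nat_lit 63) = true := by decide +kernel
def p12_10_2_63 : pfC (piC [(nat_lit 41997052), (nat_lit 26592602), (nat_lit 19805017), (nat_lit 13318063)] (nat_lit 7256705)) p12_10_2 (nat_lit 4) (nat_lit 63) (nat_lit 64) = true := by decide +kernel
def p12_10_2_64 : pfC (piC [(nat_lit 41997052), (nat_lit 26592602), (nat_lit 19805017), (nat_lit 13318063)] (nat_lit 7256705)) p12_10_2 (nat_lit 4) (nat_lit 64) (nat_lit 65) = true := by decide +kernel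
def p12_10_2_65 : pfC (piC [(nat_lit 41997052), (nat_lit 26592602), (nat_lit 19805017), (nat_lit 13318063)] (nat_lit 7256705)) p12_10_2 (nat_lit 4) (nat_lit 65) (nat_lit 66) = true := by decide +kernel
def p12_10_2_66 : pfC (piC [(nat_lit 41997052), (nat_lit 26592602), (nat_lit 19805017), (nat_lit 13318063)] (nat_lit 7256705)) p12_10_2 (nat_lit 4) (nat_lit 66) (nat_lit 67) = true := by decide +kernel
def p12_10_2_67 : pfC (piC [(nat_lit 41997052), (nat_lit 26592602), (nat_lit 19805017), (nat_lit 13318063)] (nat_lit 7256705)) p12_10_2 (nat_lit 4) (nat_lit 67) (nat_lit 68) = true := by decide +kernel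
def p12_10_2_68 : pfC (piC [(nat_lit 41997052), (nat_lit 26592602), (nat_lit 19805017), (nat_lit 13318063)] (nat_lit 7256705)) p12_10_2 (nat_lit 4) (nat_lit 68) (nat_lit 69) = true := by decide +kernel
def p12_10_2_69 : pfC (piC [(nat_lit 41997052), (nat_lit 26592602), (nat_lit 19805017), (nat_lit 13318063)] (nat_lit 7256705)) p12_10_2 (nat_lit 4) (nat_lit 69) (nat_lit 70) = true := by decide +kernel
def p12_10_2_70 : pfC (piC [(nat_lit 41997052), (nat_lit 26592602), (nat_lit 19805017), (nat_lit 13318063)] (nat_lit 7256705)) p12_10_2 (nat_lit 4) (nat_lit 70) (nat_lit 71) = true := by decide +kernel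
def p12_10_2_71 : pfC (piC [(nat_lit 41997052), (nat_lit 26592602), (nat_lit 19805017), (nat_lit 13318063)] (nat_lit 7256705)) p12_10_2 (nat_lit 4) (nat_lit 71) (nat_lit 72) = true := by decide +kernel
def p12_10_2_72 : pfC (piC [(nat_lit 41997052), (nat_lit 26592602), (nat_lit 19805017), (nat_lit 13318063)] (nat_lit 7256705)) p12_10_2 (nat_lit 4) (nat_lit 72) (nat_lit 73) = true := by decide +kernel
def p12_10_2_73 : pfC (piC [(nat_lit 41997052), (nat_lit 26592602), (nat_lit 19805017), (nat_lit 13318063)] (nat_lit 7256705)) p12_10_2 (nat_lit 4) (nat_lit 73) (nat_lit 74) = true := by decide +kernel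
def p12_10_2_74 : pfC (piC [(nat_lit 41997052), (nat_lit 26592602), (nat_lit 19805017), (nat_lit 13318063)] (nat_lit 7256705)) p12_10_2 (nat_lit 4) (nat_lit 74) (nat_lit 75) = true := by decide +kernel
def p12_10_2_75 : pfC (piC [(nat_lit 41997052), (nat_lit 26592602), (nat_lit 19805017), (nat_lit 13318063)] (nat_lit 7256705)) p12_10_2 (nat_lit 4) (nat_lit 75) (nat_lit 76) = true := by decide +kernel
def p12_10_2_76 : pfC (piC [(nat_lit 41997052), (nat_lit 26592602), (nat_lit 19805017), (nat_lit 13318063)] (nat_lit 7256705)) p12_10_2 (nat_lit 4) (nat_lit 76) (nat_lit 77) = true := by decide +kernel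
def p12_10_2_77 : pfC (piC [(nat_lit 41997052), (nat_lit 26592602), (nat_lit 19805017), (nat_lit 13318063)] (nat_lit 7256705)) p12_10_2 (nat_lit 4) (nat_lit 77) (nat_lit 78) = true := by decide +kernel
def p12_10_2_78 : pfC (piC [(nat_lit 41997052), (nat_lit 26592602), (nat_lit 19805017), (nat_lit 13318063)] (nat_lit 7256705)) p12_10_2 (nat_lit 4) (nat_lit 78) (nat_lit 79) = true := by decide +kernel
def p12_10_2_79 : pfC (piC [(nat_lit 41997052), (nat_lit 26592602), (nat_lit 19805017), (nat_lit 13318063)] (nat_lit 7256705)) p12_10_2 (nat_lit 4) (nat_lit 79) (nat_lit 80) = true := by decide +kernel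
def p12_10_2_80 : pfC (piC [(nat_lit 41997052), (nat_lit 26592602), (nat_lit 19805017), (nat_lit 13318063)] (nat_lit 7256705)) p12_10_2 (nat_lit 4) (nat_lit 80) (nat_lit 81) = true := by decide +kernel
def p12_10_2_81 : pfC (piC [(nat_lit 41997052), (nat_lit 26592602), (nat_lit 19805017), (nat_lit 13318063)] (nat_lit 7256705)) p12_10_2 (nat_lit 4) (nat_lit 81) (nat_lit 82) = true := by decide +kernel
def p12_10_2_82 : pfC (piC [(nat_lit 41997052), (nat_lit 26592602), (nat_lit 19805017), (nat_lit 13318063)] (nat_lit 7256705)) p12_10_2 (nat_lit 4) (nat_lit 82) (nat_lit 83) = true := by decide +kernel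
def p12_10_2_83 : pfC (piC [(nat_lit 41997052), (nat_lit 26592602), (nat_lit 19805017), (nat_lit 13318063)] (nat_lit 7256705)) p12_10_2 (nat_lit 4) (nat_lit 83) (nat_lit 84) = true := by decide +kernel
def p12_10_2_84 : pfC (piC [(nat_lit 41997052), (nat_lit 26592602), (nat_lit 19805017), (nat_lit 13318063)] (nat_lit 7256705)) p12_10_2 (nat_lit 4) (nat_lit 84) (nat_lit 85) = true := by decide +kernel
def p12_10_2_85 : pfC (piC [(nat_lit 41997052), (nat_lit 26592602), (nat_lit 19805017), (nat_lit 13318063)] (nat_lit 7256705)) p12_10_2 (nat_lit 4) (nat_lit 85) (nat_lit 86) = true := by decide +kernel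
def p12_10_2_86 : pfC (piC [(nat_lit 41997052), (nat_lit 26592602), (nat_lit 19805017), (nat_lit 13318063)] (nat_lit 7256705)) p12_10_2 (nat_lit 4) (nat_lit 86) (nat_lit 87) = true := by decide +kernel
def p12_10_2_87 : pfC (piC [(nat_lit 41997052), (nat_lit 26592602), (nat_lit 19805017), (nat_lit 13318063)] (nat_lit 7256705)) p12_10_2 (nat_lit 4) (nat_lit 87) (nat_lit 88) = true := by decide +kernel
theorem p12_10_2_T : PfS (PiF n12_10.reverse (nat_lit 7256705)) p12_10_2 (nat_lit 4) [] 0 :=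
  pftab_of (los := [(nat_lit 41997052), (nat_lit 26592602), (nat_lit 19805017), (nat_lit 13318063)]) (by decide +kernel) (hi := (nat_lit 88)) (PfP.trans (PfP.trans (PfP.trans (PfP.trans (PfP.trans (PfP.trans (PfP.trans (PfP.trans (PfP.trans (PfP.trans (PfP.trans (PfP.trans (PfP.trans (PfP.trans (PfP.trans (PfP.trans (PfP.trans (PfP.trans (PfP.trans (PfP.trans (PfP.trans (PfP.trans (PfP.trans (PfP.trans (PfP.trans (PfP.trans (PfP.trans (PfP.trans (PfP.trans (PfP.trans (PfP.trans (PfP.trans (PfP.trans (PfP.trans (PfP.trans (PfP.trans (PfP.trans (PfP.trans (PfP.trans (PfP.trans (PfP.trans (PfP.trans (PfP.trans (PfP.trans (PfP.trans (PfP.trans (PfP.trans (PfP.trans (PfP.trans (PfP.trans (PfP.trans (PfP.trans (PfP.trans (PfP.trans (PfP.trans (PfP.trans (PfP.trans (PfP.trans (PfP.trans (PfP.trans (PfP.trans (PfP.trans (PfP.trans (PfP.trans (PfP.trans (PfP.trans (PfP.trans (PfP.trans (PfP.trans (PfP.trans (PfP.trans (PfP.trans (PfP.trans (PfP.trans (PfP.trans (PfP.trans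 (PfP.trans (PfP.trans (PfP.trans (PfP.trans (PfP.trans (PfP.trans (PfP.trans (PfP.trans (PfP.trans (PfP.trans (PfP.trans (pfC_sound p12_10_2_0) (pfC_sound p12_10_2_1)) (pfC_sound p12_10_2_2)) (pfC_sound p12_10_2_3)) (pfC_sound p12_10_2_4)) (pfC_sound p12_10_2_5)) (pfC_sound p12_10_2_6)) (pfC_sound p12_10_2_7)) (pfC_sound p12_10_2_8)) (pfC_sound p12_10_2_9))
 (pfC_sound p12_10_2_10)) (pfC_sound p12_10_2_11)) (pfC_sound p12_10_2_12)) (pfC_sound p12_10_2_13)) (pfC_sound p12_10_2_14)) (pfC_sound p12_10_2_15)) (pfC_sound p12_10_2_16)) (pfC_sound p12_10_2_17)) (pfC_sound p12_10_2_18)) (pfC_sound p12_10_2_19)) (pfC_sound p12_10_2_20)) (pfC_sound p12_10_2_21)) (pfC_sound p12_10_2_22)) (pfC_sound p12_10_2_23)) (pfC_sound p12_10_2_24)) (pfC_sound p12_10_2_25)) (pfC_sound p12_10_2_26)) (pfC_sound p12_10_2_27)) (pfC_sound p12_10_2_28)) (pfC_sound p12_10_2_29)) (pfC_sound p12_10_2_30)) (pfC_sound p12_10_2_31)) (pfC_sound p12_10_2_32)) (pfC_sound p12_10_2_33)) (pfC_sound p12_10_2_34))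 (pfC_sound p12_10_2_35)) (pfC_sound p12_10_2_36)) (pfC_sound p12_10_2_37)) (pfC_sound p12_10_2_38)) (pfC_sound p12_10_2_39)) (pfC_sound p12_10_2_40)) (pfC_sound p12_10_2_41)) (pfC_sound p12_10_2_42)) (pfC_sound p12_10_2_43)) (pfC_sound p12_10_2_44)) (pfC_sound p12_10_2_45)) (pfC_sound p12_10_2_46)) (pfC_sound p12_10_2_47)) (pfC_sound p12_10_2_48)) (pfC_sound p12_10_2_49)) (pfC_sound p12_10_2_50)) (pfC_sound p12_10_2_51)) (pfC_sound p12_10_2_52)) (pfC_sound p12_10_2_53)) (pfC_sound p12_10_2_54)) (pfC_sound p12_10_2_55)) (pfC_sound p12_10_2_56)) (pfC_sound p12_10_2_57))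
 (pfC_sound p12_10_2_58)) (pfC_sound p12_10_2_59)) (pfC_sound p12_10_2_60)) (pfC_sound p12_10_2_61)) (pfC_sound p12_10_2_62)) (pfC_sound p12_10_2_63)) (pfC_sound p12_10_2_64)) (pfC_sound p12_10_2_65)) (pfC_sound p12_10_2_66)) (pfC_sound p12_10_2_67)) (pfC_sound p12_10_2_68)) (pfC_sound p12_10_2_69)) (pfC_sound p12_10_2_70)) (pfC_sound p12_10_2_71)) (pfC_sound p12_10_2_72)) (pfC_sound p12_10_2_73)) (pfC_sound p12_10_2_74)) (pfC_sound p12_10_2_75)) (pfC_sound p12_10_2_76)) (pfC_sound p12_10_2_77)) (pfC_sound p12_10_2_78)) (pfC_sound p12_10_2_79)) (pfC_sound p12_10_2_80)) (pfC_sound p12_10_2_81)) (pfC_sound p12_10_2_82)) (pfC_sound p12_10_2_83)) (pfC_sound p12_10_2_84)) (pfC_sound p12_10_2_85)) (pfC_sound p12_10_2_86)) (pfC_sound p12_10_2_87)) (by decide +kernel)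

def z12_10_2 : zOK yB12_10 (nat_lit 2) (nat_lit 600) (nat_lit 750) (nat_lit 7256705) (nat_lit 5276329) = true := by decide +kernel
def g12_10_2 : gOK yB12_10.x P12_10 (nat_lit 1424) (q12_10 :: r12_10) (nat_lit 2) (nat_lit 600) (nat_lit 3) (nat_lit 750) (nat_lit 12712500) (nat_lit 12712500) (nat_lit 12712500) (nat_lit 12712500) [(nat_lit 800), (nat_lit 1600)] = true := by decide +kernel
def v12_10_2 : ivC P12_10 s12_10 w12_10 n12_10 (nat_lit 4) (nat_lit 4860) (nat_lit 2) (nat_lit 600) f144_1_600 f152_1_600 (nat_lit 3) (nat_lit 750) f144_1_750 f152_1_750 (nat_lit 7256705) (nat_lit 5276329) p12_10_2 = true := by decide +kernel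
def p12_10_3 : PF := (PF.cons (PF.cons (PF.cons (PF.cons (PF.leaf (nat_lit 2964572) (nat_lit 18787723) (nat_lit 48321089) (nat_lit 18787723) [(nat_lit 0), (nat_lit 0), (nat_lit 0), (nat_lit 0)]) (PF.cons (PF.leaf (nat_lit 3085539) (nat_lit 204907) (nat_lit 48143790) (nat_lit 18760114) [(nat_lit 204907), (nat_lit 0), (nat_lit 0), (nat_lit 0)]) (PF.cons (PF.leaf (nat_lit 3230452) (nat_lit 222748) (nat_lit 47936110) (nat_lit 18727204) [(nat_lit 222748), (nat_lit 0), (nat_lit 0), (nat_lit 0)]) (PF.cons (PF.leaf (nat_lit 3393166) (nat_lit 238574) (nat_lit 47703466) (nat_lit 18689623) [(nat_lit 238574), (nat_lit 0), (nat_lit 0), (nat_lit 0)]) (PF.cons (PF.leaf (nat_lit 3571093) (nat_lit 252843) (nat_lit 47449664) (nat_lit 18647775) [(nat_lit 252843), (nat_lit 0), (nat_lit 0), (nat_lit 0)]) (PF.cons (PF.leaf (nat_lit 3762555) (nat_lit 265849) (nat_lit 47177612) (nat_lit 18601952) [(nat_lit 265849), (nat_lit 0), (nat_lit 0), (nat_lit 0)]) (PF.cons (PF.leaf (nat_lit 3965814)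 (nat_lit 277796) (nat_lit 46889658) (nat_lit 18552377) [(nat_lit 277796), (nat_lit 0), (nat_lit 0), (nat_lit 0)]) (PF.cons (PF.leaf (nat_lit 4179804) (nat_lit 288829) (nat_lit 46587767) (nat_lit 18499235) [(nat_lit 288829), (nat_lit 0),
 (nat_lit 0), (nat_lit 0)]) (PF.cons PF.nil (PF.cons PF.nil PF.nil)))))))))) (PF.cons (PF.cons (PF.leaf (nat_lit 3434386) (nat_lit 1079489) (nat_lit 47393531) (nat_lit 18635792) [(nat_lit 0), (nat_lit 1079489), (nat_lit 0), (nat_lit 0)]) (PF.cons (PF.leaf (nat_lit 3593273) (nat_lit 249193) (nat_lit 47160045) (nat_lit 18596300) [(nat_lit 249193), (nat_lit 1103273), (nat_lit 0), (nat_lit 0)]) (PF.cons (PF.leaf (nat_lit 3770088) (nat_lit 262808) (nat_lit 46904249) (nat_lit 18552208) [(nat_lit 262808), (nat_lit 1126738), (nat_lit 0), (nat_lit 0)]) (PF.cons (PF.leaf (nat_lit 3960711) (nat_lit 275162) (nat_lit 46629862) (nat_lit 18503963) [(nat_lit 275162), (nat_lit 1149500), (nat_lit 0), (nat_lit 0)]) (PF.cons (PF.leaf (nat_lit 4163412)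 (nat_lit 286481) (nat_lit 46339647) (nat_lit 18451882) [(nat_lit 286481), (nat_lit 1171359), (nat_lit 0), (nat_lit 0)]) (PF.cons (PF.leaf (nat_lit 4376871) (nat_lit 296920) (nat_lit 46035789) (nat_lit 18396205) [(nat_lit 296920), (nat_lit 1192216), (nat_lit 0), (nat_lit 0)]) (PF.cons (PF.leaf (nat_lit 4599754) (nat_lit 306592) (nat_lit 45720098) (nat_lit 18337133) [(nat_lit 306592), (nat_lit 1212026), (nat_lit 0), (nat_lit 0)]) (PF.cons PF.nil (PF.cons
 PF.nil PF.nil))))))))) (PF.cons (PF.cons (PF.leaf (nat_lit 3973077) (nat_lit 1157155) (nat_lit 46344457) (nat_lit 18450043) [(nat_lit 0), (nat_lit 1157155), (nat_lit 0), (nat_lit 0)]) (PF.cons (PF.leaf (nat_lit 4160271) (nat_lit 283147) (nat_lit 46071116) (nat_lit 18399991) [(nat_lit 283147), (nat_lit 1177279), (nat_lit 0), (nat_lit 0)]) (PF.cons (PF.leaf (nat_lit 4361341) (nat_lit 294024) (nat_lit 45781276) (nat_lit 18345898) [(nat_lit 294024), (nat_lit 1196793), (nat_lit 0), (nat_lit 0)]) (PF.cons (PF.leaf (nat_lit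 4573441) (nat_lit 304010) (nat_lit 45477596) (nat_lit 18288110) [(nat_lit 304010), (nat_lit 1215537), (nat_lit 0), (nat_lit 0)]) (PF.cons (PF.leaf (nat_lit 4795100) (nat_lit 313233) (nat_lit 45162143) (nat_lit 18226889) [(nat_lit 313233), (nat_lit 1233422), (nat_lit 0), (nat_lit 0)]) (PF.cons (PF.leaf (nat_lit 5025266) (nat_lit 321788) (nat_lit 44836605) (nat_lit 18162453) [(nat_lit 321788), (nat_lit 1250406), (nat_lit 0), (nat_lit 0)]) (PF.cons PF.nil PF.nil))))))) (PF.cons (PF.cons (PF.leaf (nat_lit 4561388) (nat_lit 1219642) (nat_lit 45215345) (nat_lit 18234538) [(nat_lit 0), (nat_lit 1219642), (nat_lit 0), (nat_lit 0)]) (PF.cons (PF.leaf (nat_lit 4770076) (nat_lit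
 310178) (nat_lit 44914085) (nat_lit 18175122) [(nat_lit 310178), (nat_lit 1236475), (nat_lit 0), (nat_lit 0)]) (PF.cons (PF.leaf (nat_lit 4989747) (nat_lit 319057) (nat_lit 44600677) (nat_lit 18112164) [(nat_lit 319057), (nat_lit 1252619), (nat_lit 0), (nat_lit 0)]) (PF.cons (PF.leaf (nat_lit 5218109) (nat_lit 327257) (nat_lit 44277087) (nat_lit 18045947) [(nat_lit 327257), (nat_lit 1268001), (nat_lit 0), (nat_lit 0)]) (PF.cons PF.nil PF.nil))))) (PF.cons (PF.cons (PF.leaf (nat_lit 5185198) (nat_lit 1269861) (nat_lit 44036259) (nat_lit 17993108) [(nat_lit 0), (nat_lit 1269861), (nat_lit 0), (nat_lit 0)]) (PF.cons (PF.leaf (nat_lit 5410203) (nat_lit 332034) (nat_lit 43716175) (nat_lit 17925511) [(nat_lit 332034), (nat_lit 1283772), (nat_lit 0), (nat_lit 0)]) (PF.cons (PF.leaf (nat_lit 5643924) (nat_lit 339352) (nat_lit 43387286) (nat_lit 17854839) [(nat_lit 339352), (nat_lit 1296995), (nat_lit 0), (nat_lit 0)]) (PF.cons PF.nil PF.nil)))) (PF.cons (PF.cons (PF.leaf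 (nat_lit 5833502) (nat_lit 1309858) (nat_lit 42829950) (nat_lit 17729568) [(nat_lit 0), (nat_lit 1309858), (nat_lit 0), (nat_lit 0)]) (PF.cons PF.nil PF.nil)) (PF.cons PF.nil (PF.cons PF.nil PF.nil)))))))) (PF.cons
 (PF.cons (PF.cons (PF.leaf (nat_lit 3939124) (nat_lit 2900608) (nat_lit 45861552) (nat_lit 18346651) [(nat_lit 0), (nat_lit 0), (nat_lit 2900608), (nat_lit 0)]) (PF.cons (PF.leaf (nat_lit 4106000) (nat_lit 267590) (nat_lit 45619729) (nat_lit 18301084) [(nat_lit 267590), (nat_lit 0), (nat_lit 2920408), (nat_lit 0)]) (PF.cons (PF.leaf (nat_lit 4290066) (nat_lit 280452) (nat_lit 45356722) (nat_lit 18250708) [(nat_lit 280452), (nat_lit 0), (nat_lit 2940477), (nat_lit 0)]) (PF.cons (PF.leaf (nat_lit 4487187) (nat_lit 291960) (nat_lit 45076482) (nat_lit 18196108) [(nat_lit 291960), (nat_lit 0), (nat_lit 2960342), (nat_lit 0)]) (PF.cons (PF.leaf (nat_lit 4695554) (nat_lit 302385) (nat_lit 44781883) (nat_lit 18137695) [(nat_lit 302385), (nat_lit 0), (nat_lit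 2979690), (nat_lit 0)]) (PF.cons (PF.leaf (nat_lit 4913784) (nat_lit 311913) (nat_lit 44475154) (nat_lit 18075782) [(nat_lit 311913), (nat_lit 0), (nat_lit 2998307), (nat_lit 0)]) (PF.cons (PF.leaf (nat_lit 5140588) (nat_lit 320673) (nat_lit 44158100) (nat_lit 18010626) [(nat_lit 320673), (nat_lit 0), (nat_lit 3016048), (nat_lit 0)]) (PF.cons PF.nil (PF.cons PF.nil PF.nil))))))))) (PF.cons (PF.cons (PF.leaf (nat_lit 4490724) (nat_lit
 1205302) (nat_lit 44795630) (nat_lit 18137767) [(nat_lit 0), (nat_lit 1205302), (nat_lit 2970113), (nat_lit 0)]) (PF.cons (PF.leaf (nat_lit 4683496) (nat_lit 298163) (nat_lit 44518912) (nat_lit 18081987) [(nat_lit 298163), (nat_lit 1222336), (nat_lit 2987412), (nat_lit 0)]) (PF.cons (PF.leaf (nat_lit 4889313) (nat_lit 308272) (nat_lit 44226978) (nat_lit 18022168) [(nat_lit 308272), (nat_lit 1238772), (nat_lit 3004347), (nat_lit 0)]) (PF.cons (PF.leaf (nat_lit 5105340) (nat_lit 317457) (nat_lit 43922537) (nat_lit 17958734) [(nat_lit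 317457), (nat_lit 1254486), (nat_lit 3020680), (nat_lit 0)]) (PF.cons (PF.leaf (nat_lit 5330207) (nat_lit 325868) (nat_lit 43607665) (nat_lit 17892008) [(nat_lit 325868), (nat_lit 1269416), (nat_lit 3036249), (nat_lit 0)]) (PF.cons PF.nil (PF.cons PF.nil PF.nil))))))) (PF.cons (PF.cons (PF.leaf (nat_lit 5084887) (nat_lit 1256594) (nat_lit 43667633) (nat_lit 17902121) [(nat_lit 0), (nat_lit 1256594), (nat_lit 3025869), (nat_lit 0)]) (PF.cons (PF.leaf (nat_lit 5296920) (nat_lit 322223) (nat_lit 43367402) (nat_lit 17837644) [(nat_lit 322223), (nat_lit 1270733), (nat_lit 3040074), (nat_lit 0)]) (PF.cons (PF.leaf (nat_lit 5519144) (nat_lit 330375) (nat_lit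
 43056231) (nat_lit 17769749) [(nat_lit 330375), (nat_lit 1284226), (nat_lit 3053628), (nat_lit 0)]) (PF.cons (PF.leaf (nat_lit 5749359) (nat_lit 337842) (nat_lit 42736068) (nat_lit 17698768) [(nat_lit 337842), (nat_lit 1297018), (nat_lit 3066411), (nat_lit 0)]) (PF.cons PF.nil PF.nil))))) (PF.cons (PF.cons (PF.leaf (nat_lit 5708659) (nat_lit 1297460) (nat_lit 42504050) (nat_lit 17643967) [(nat_lit 0), (nat_lit 1297460), (nat_lit 3068414), (nat_lit 0)]) (PF.cons (PF.leaf (nat_lit 5935026) (nat_lit 341481) (nat_lit 42188685) (nat_lit 17572146) [(nat_lit 341481), (nat_lit 1309026), (nat_lit 3079419), (nat_lit 0)]) (PF.cons PF.nil (PF.cons PF.nil PF.nil)))) (PF.cons (PF.cons (PF.leaf (nat_lit 6352138) (nat_lit 1329561) (nat_lit 41324492) (nat_lit 17367249) [(nat_lit 0), (nat_lit 1329561), (nat_lit 3098823), (nat_lit 0)]) (PF.cons PF.nil PF.nil)) (PF.cons PF.nil PF.nil)))))) (PF.cons (PF.cons (PF.cons (PF.leaf (nat_lit 5000492) (nat_lit 3014337) (nat_lit 43275261)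 (nat_lit 17804877) [(nat_lit 0), (nat_lit 0), (nat_lit 3014337), (nat_lit 0)]) (PF.cons (PF.leaf (nat_lit 5197077) (nat_lit 310208) (nat_lit 42998861) (nat_lit 17744485) [(nat_lit 310208), (nat_lit 0), (nat_lit 3027628),
 (nat_lit 0)]) (PF.cons (PF.leaf (nat_lit 5406100) (nat_lit 319632) (nat_lit 42708418) (nat_lit 17680111) [(nat_lit 319632), (nat_lit 0), (nat_lit 3040508), (nat_lit 0)]) (PF.cons (PF.leaf (nat_lit 5624607) (nat_lit 328112) (nat_lit 42406645) (nat_lit 17612242) [(nat_lit 328112), (nat_lit 0), (nat_lit 3052793), (nat_lit 0)]) (PF.cons (PF.leaf (nat_lit 5851221) (nat_lit 335811) (nat_lit 42095595) (nat_lit 17541249) [(nat_lit 335811), (nat_lit 0), (nat_lit 3064361), (nat_lit 0)]) PF.nil))))) (PF.cons (PF.cons (PF.leaf (nat_lit 5596528) (nat_lit 1283995) (nat_lit 42160813) (nat_lit 17553636) [(nat_lit 0), (nat_lit 1283995), (nat_lit 3055183), (nat_lit 0)]) (PF.cons (PF.leaf (nat_lit 5810514) (nat_lit 331723) (nat_lit 41864528) (nat_lit 17485249)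 [(nat_lit 331723), (nat_lit 1295883), (nat_lit 3065713), (nat_lit 0)]) (PF.cons (PF.leaf (nat_lit 6034025) (nat_lit 339233) (nat_lit 41558359) (nat_lit 17413594) [(nat_lit 339233), (nat_lit 1307157), (nat_lit 3075617), (nat_lit 0)]) (PF.cons PF.nil PF.nil)))) (PF.cons (PF.cons (PF.leaf (nat_lit 6217314) (nat_lit 1317124) (nat_lit 41021955) (nat_lit 17283125) [(nat_lit 0), (nat_lit 1317124), (nat_lit 3084741), (nat_lit 0)]) (PF.cons (PF.leaf
 (nat_lit 6443982) (nat_lit 348750) (nat_lit 40713509) (nat_lit 17208201) [(nat_lit 348750), (nat_lit 1326716), (nat_lit 3092459), (nat_lit 0)]) PF.nil)) (PF.cons PF.nil (PF.cons PF.nil PF.nil))))) (PF.cons (PF.cons (PF.cons (PF.leaf (nat_lit 6095057) (nat_lit 3070454) (nat_lit 40703043) (nat_lit 17194405) [(nat_lit 0), (nat_lit 0), (nat_lit 3070454), (nat_lit 0)]) (PF.cons (PF.leaf (nat_lit 6309868) (nat_lit 339115) (nat_lit 40412796) (nat_lit 17123129) [(nat_lit 339115), (nat_lit 0), (nat_lit 3077923), (nat_lit 0)]) (PF.cons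 (PF.leaf (nat_lit 6533649) (nat_lit 346051) (nat_lit 40113592) (nat_lit 17048746) [(nat_lit 346051), (nat_lit 0), (nat_lit 3084790), (nat_lit 0)]) (PF.cons PF.nil PF.nil)))) (PF.cons (PF.cons (PF.leaf (nat_lit 6710534) (nat_lit 1330313) (nat_lit 39595262) (nat_lit 16915319) [(nat_lit 0), (nat_lit 1330313), (nat_lit 3089305), (nat_lit 0)]) (PF.cons (PF.leaf (nat_lit 6936656) (nat_lit 354206) (nat_lit 39295258) (nat_lit 16838262) [(nat_lit 354206), (nat_lit 1338226), (nat_lit 3094286), (nat_lit 0)]) PF.nil)) (PF.cons PF.nil PF.nil))) (PF.cons (PF.cons (PF.cons (PF.leaf (nat_lit 7188073) (nat_lit 3084369) (nat_lit 38226867) (nat_lit 16544465) [(nat_lit 0),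
 (nat_lit 0), (nat_lit 3084369), (nat_lit 0)]) (PF.cons PF.nil PF.nil)) (PF.cons PF.nil PF.nil)) (PF.cons PF.nil PF.nil)))))) (PF.cons (PF.cons (PF.cons (PF.cons (PF.leaf (nat_lit 4845585) (nat_lit 8184310) (nat_lit 41595353) (nat_lit 17329149) [(nat_lit 0), (nat_lit 0), (nat_lit 0), (nat_lit 8184310)]) (PF.cons (PF.leaf (nat_lit 5012052) (nat_lit 276230) (nat_lit 41374814) (nat_lit 17278595) [(nat_lit 276230), (nat_lit 0), (nat_lit 0), (nat_lit 8179173)]) (PF.cons (PF.leaf (nat_lit 5194735) (nat_lit 288467) (nat_lit 41135815) (nat_lit 17223196) [(nat_lit 288467), (nat_lit 0), (nat_lit 0), (nat_lit 8172867)]) (PF.cons (PF.leaf (nat_lit 5389505) (nat_lit 299237) (nat_lit 40882058) (nat_lit 17163686) [(nat_lit 299237), (nat_lit 0), (nat_lit 0), (nat_lit 8165357)]) (PF.cons (PF.leaf (nat_lit 5594510) (nat_lit 308848) (nat_lit 40616218) (nat_lit 17100587) [(nat_lit 308848), (nat_lit 0), (nat_lit 0), (nat_lit 8156614)]) (PF.cons (PF.leaf (nat_lit 5808287) (nat_lit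 317508) (nat_lit 40340349) (nat_lit 17034300) [(nat_lit 317508), (nat_lit 0), (nat_lit 0), (nat_lit 8146622)]) (PF.cons (PF.leaf (nat_lit 6029662) (nat_lit 325366) (nat_lit 40056097) (nat_lit 16965143) [(nat_lit 325366),
 (nat_lit 0), (nat_lit 0), (nat_lit 8135371)]) (PF.cons PF.nil (PF.cons PF.nil PF.nil))))))))) (PF.cons (PF.cons (PF.leaf (nat_lit 5382932) (nat_lit 1220542) (nat_lit 40633023) (nat_lit 17102222) [(nat_lit 0), (nat_lit 1220542), (nat_lit 0), (nat_lit 8153025)]) (PF.cons (PF.leaf (nat_lit 5572557) (nat_lit 303808) (nat_lit 40383908) (nat_lit 17042440) [(nat_lit 303808), (nat_lit 1234517), (nat_lit 0), (nat_lit 8144138)]) (PF.cons (PF.leaf (nat_lit 5774216) (nat_lit 313149) (nat_lit 40121874) (nat_lit 16978839) [(nat_lit 313149), (nat_lit 1247816), (nat_lit 0), (nat_lit 8133984)]) (PF.cons (PF.leaf (nat_lit 5985122) (nat_lit 321517) (nat_lit 39849399) (nat_lit 16911929) [(nat_lit 321517), (nat_lit 1260363), (nat_lit 0), (nat_lit 8122569)]) (PF.cons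 (PF.leaf (nat_lit 6203908) (nat_lit 329079) (nat_lit 39568365) (nat_lit 16842098) [(nat_lit 329079), (nat_lit 1272128), (nat_lit 0), (nat_lit 8109902)]) (PF.cons PF.nil (PF.cons PF.nil PF.nil))))))) (PF.cons (PF.cons (PF.leaf (nat_lit 5955378) (nat_lit 1260235) (nat_lit 39625668) (nat_lit 16854059) [(nat_lit 0), (nat_lit 1260235), (nat_lit 0), (nat_lit 8108613)]) (PF.cons (PF.leaf (nat_lit 6161698) (nat_lit 324848) (nat_lit 39358114)
 (nat_lit 16786971) [(nat_lit 324848), (nat_lit 1271464), (nat_lit 0), (nat_lit 8095949)]) (PF.cons (PF.leaf (nat_lit 6377307) (nat_lit 332203) (nat_lit 39081475) (nat_lit 16716824) [(nat_lit 332203), (nat_lit 1282040), (nat_lit 0), (nat_lit 8082023)]) (PF.cons (PF.leaf (nat_lit 6600031) (nat_lit 338858) (nat_lit 38797498) (nat_lit 16643995) [(nat_lit 338858), (nat_lit 1291939), (nat_lit 0), (nat_lit 8066866)]) (PF.cons PF.nil PF.nil))))) (PF.cons (PF.cons (PF.leaf (nat_lit 6551257) (nat_lit 1290719) (nat_lit 38595438) (nat_lit 16589375)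 [(nat_lit 0), (nat_lit 1290719), (nat_lit 0), (nat_lit 8051839)]) (PF.cons (PF.leaf (nat_lit 6769745) (nat_lit 341259) (nat_lit 38316603) (nat_lit 16516497) [(nat_lit 341259), (nat_lit 1299622), (nat_lit 0), (nat_lit 8035586)]) (PF.cons PF.nil (PF.cons PF.nil PF.nil)))) (PF.cons (PF.cons (PF.leaf (nat_lit 7162003) (nat_lit 1313720) (nat_lit 37558032) (nat_lit 16312039) [(nat_lit 0), (nat_lit 1313720), (nat_lit 0), (nat_lit 7983861)]) (PF.cons PF.nil PF.nil)) (PF.cons PF.nil PF.nil)))))) (PF.cons (PF.cons (PF.cons (PF.leaf (nat_lit 5856781) (nat_lit 2981451) (nat_lit 39292170) (nat_lit 16759617) [(nat_lit 0), (nat_lit 0), (nat_lit 2981451), (nat_lit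
 8075573)]) (PF.cons (PF.leaf (nat_lit 6048627) (nat_lit 312530) (nat_lit 39045852) (nat_lit 16697174) [(nat_lit 312530), (nat_lit 0), (nat_lit 2989803), (nat_lit 8063452)]) (PF.cons (PF.leaf (nat_lit 6251923) (nat_lit 321235) (nat_lit 38787604) (nat_lit 16631033) [(nat_lit 321235), (nat_lit 0), (nat_lit 2997683), (nat_lit 8050020)]) (PF.cons (PF.leaf (nat_lit 6463875) (nat_lit 328965) (nat_lit 38519869) (nat_lit 16561739) [(nat_lit 328965), (nat_lit 0), (nat_lit 3004975), (nat_lit 8035330)]) (PF.cons (PF.leaf (nat_lit 6683128) (nat_lit 335899) (nat_lit 38244479) (nat_lit 16489703) [(nat_lit 335899), (nat_lit 0), (nat_lit 3011606), (nat_lit 8019423)]) PF.nil))))) (PF.cons (PF.cons (PF.leaf (nat_lit 6427775) (nat_lit 1276422) (nat_lit 38305536) (nat_lit 16503495) [(nat_lit 0), (nat_lit 1276422), (nat_lit 3004020), (nat_lit 8019339)]) (PF.cons (PF.leaf (nat_lit 6634811) (nat_lit 331383) (nat_lit 38043493) (nat_lit 16434407) [(nat_lit 331383), (nat_lit 1285841),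 (nat_lit 3010001), (nat_lit 8003686)]) (PF.cons (PF.leaf (nat_lit 6850565) (nat_lit 338173) (nat_lit 37773200) (nat_lit 16362420) [(nat_lit 338173), (nat_lit 1294652), (nat_lit 3015395), (nat_lit 7986797)]) (PF.cons PF.nil
 PF.nil)))) (PF.cons (PF.cons (PF.leaf (nat_lit 7018554) (nat_lit 1300895) (nat_lit 37303689) (nat_lit 16233461) [(nat_lit 0), (nat_lit 1300895), (nat_lit 3017624), (nat_lit 7952246)]) (PF.cons (PF.leaf (nat_lit 7236462) (nat_lit 345941) (nat_lit 37032481) (nat_lit 16159249) [(nat_lit 345941), (nat_lit 1308246), (nat_lit 3021301), (nat_lit 7933347)]) PF.nil)) (PF.cons PF.nil (PF.cons PF.nil PF.nil))))) (PF.cons (PF.cons (PF.cons (PF.leaf (nat_lit 6887394) (nat_lit 3002009) (nat_lit 37034879) (nat_lit 16150543) [(nat_lit 0), (nat_lit 0), (nat_lit 3002009), (nat_lit 7919372)]) (PF.cons (PF.leaf (nat_lit 7094352) (nat_lit 336323) (nat_lit 36779538) (nat_lit 16080162) [(nat_lit 336323), (nat_lit 0), (nat_lit 3005757), (nat_lit 7901272)]) (PF.cons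 (PF.leaf (nat_lit 7309522) (nat_lit 342610) (nat_lit 36516681) (nat_lit 16007043) [(nat_lit 342610), (nat_lit 0), (nat_lit 3008946), (nat_lit 7881974)]) (PF.cons PF.nil PF.nil)))) (PF.cons (PF.cons (PF.leaf (nat_lit 7471597) (nat_lit 1306445) (nat_lit 36064697) (nat_lit 15877672) [(nat_lit 0), (nat_lit 1306445), (nat_lit 3007989), (nat_lit 7844019)]) (PF.cons PF.nil PF.nil)) (PF.cons PF.nil PF.nil))) (PF.cons (PF.cons (PF.cons (PF.leaf
 (nat_lit 7910476) (nat_lit 2992047) (nat_lit 34878971) (nat_lit 15524345) [(nat_lit 0), (nat_lit 0), (nat_lit 2992047), (nat_lit 7729352)]) (PF.cons PF.nil PF.nil)) (PF.cons PF.nil PF.nil)) (PF.cons PF.nil PF.nil))))) (PF.cons (PF.cons (PF.cons (PF.cons (PF.leaf (nat_lit 6623310) (nat_lit 7743339) (nat_lit 35863594) (nat_lit 15758539) [(nat_lit 0), (nat_lit 0), (nat_lit 0), (nat_lit 7743339)]) (PF.cons (PF.leaf (nat_lit 6809372) (nat_lit 310739) (nat_lit 35645460) (nat_lit 15697169) [(nat_lit 310739), (nat_lit 0), (nat_lit 0),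 (nat_lit 7727721)]) (PF.cons (PF.leaf (nat_lit 7006193) (nat_lit 318822) (nat_lit 35417107) (nat_lit 15632415) [(nat_lit 318822), (nat_lit 0), (nat_lit 0), (nat_lit 7710822)]) (PF.cons (PF.leaf (nat_lit 7210965) (nat_lit 325926) (nat_lit 35180703) (nat_lit 15564833) [(nat_lit 325926), (nat_lit 0), (nat_lit 0), (nat_lit 7692748)]) (PF.cons PF.nil PF.nil))))) (PF.cons (PF.cons (PF.leaf (nat_lit 7169200) (nat_lit 1255503) (nat_lit 34994338) (nat_lit 15509213) [(nat_lit 0), (nat_lit 1255503), (nat_lit 0), (nat_lit 7674879)]) (PF.cons (PF.leaf (nat_lit 7368820) (nat_lit 327494) (nat_lit 34763394) (nat_lit 15442251) [(nat_lit 327494), (nat_lit 1263120), (nat_lit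
 0), (nat_lit 7656276)]) (PF.cons (PF.leaf (nat_lit 7576555) (nat_lit 333696) (nat_lit 34525457) (nat_lit 15372717) [(nat_lit 333696), (nat_lit 1270147), (nat_lit 0), (nat_lit 7636549)]) (PF.cons PF.nil PF.nil)))) (PF.cons (PF.cons (PF.leaf (nat_lit 7731433) (nat_lit 1273866) (nat_lit 34115070) (nat_lit 15249611) [(nat_lit 0), (nat_lit 1273866), (nat_lit 0), (nat_lit 7598198)]) (PF.cons PF.nil PF.nil)) PF.nil))) (PF.cons (PF.cons (PF.cons (PF.leaf (nat_lit 7595112) (nat_lit 2914910) (nat_lit 33887869) (nat_lit 15173944) [(nat_lit 0), (nat_lit 0), (nat_lit 2914910), (nat_lit 7566044)]) (PF.cons (PF.leaf (nat_lit 7794134) (nat_lit 330760) (nat_lit 33663440) (nat_lit 15106622) [(nat_lit 330760), (nat_lit 0), (nat_lit 2916231), (nat_lit 7545878)]) (PF.cons PF.nil PF.nil))) (PF.cons (PF.cons (PF.leaf (nat_lit 8150297) (nat_lit 1274510) (nat_lit 33038161) (nat_lit 14914733) [(nat_lit 0), (nat_lit 1274510), (nat_lit 2912725), (nat_lit 7484341)]) PF.nil) PF.nil)) (PF.cons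 PF.nil PF.nil))) (PF.cons (PF.cons (PF.cons (PF.cons (PF.leaf (nat_lit 8234096) (nat_lit 7218642) (nat_lit 31177463) (nat_lit 14275422) [(nat_lit 0), (nat_lit 0), (nat_lit 0), (nat_lit 7218642)]) (PF.cons (PF.leaf
 (nat_lit 8425424) (nat_lit 323640) (nat_lit 30979757) (nat_lit 14212117) [(nat_lit 323640), (nat_lit 0), (nat_lit 0), (nat_lit 7197765)]) PF.nil)) (PF.cons PF.nil PF.nil)) (PF.cons PF.nil PF.nil)) (PF.cons PF.nil (PF.cons PF.nil (PF.cons PF.nil (PF.cons PF.nil PF.nil))))))))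

def p12_10_3_0 : pfC (piC [(nat_lit 41997052), (nat_lit 26592602), (nat_lit 19805017), (nat_lit 13318063)] (nat_lit 5276329)) p12_10_3 (nat_lit 4) (nat_lit 0) (nat_lit 1) = true := by decide +kernel
def p12_10_3_1 : pfC (piC [(nat_lit 41997052), (nat_lit 26592602), (nat_lit 19805017), (nat_lit 13318063)] (nat_lit 5276329)) p12_10_3 (nat_lit 4) (nat_lit 1) (nat_lit 2) = true := by decide +kernel
def p12_10_3_2 : pfC (piC [(nat_lit 41997052), (nat_lit 26592602), (nat_lit 19805017), (nat_lit 13318063)] (nat_lit 5276329)) p12_10_3 (nat_lit 4) (nat_lit 2) (nat_lit 3) = true := by decide +kernel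
def p12_10_3_3 : pfC (piC [(nat_lit 41997052), (nat_lit 26592602), (nat_lit 19805017), (nat_lit 13318063)] (nat_lit 5276329)) p12_10_3 (nat_lit 4) (nat_lit 3) (nat_lit 4) = true := by decide +kernel
def p12_10_3_4 : pfC (piC [(nat_lit 41997052), (nat_lit 26592602), (nat_lit 19805017), (nat_lit 13318063)] (nat_lit 5276329)) p12_10_3 (nat_lit 4) (nat_lit 4) (nat_lit 5) = true := by decide +kernel
def p12_10_3_5 : pfC (piC [(nat_lit 41997052), (nat_lit 26592602), (nat_lit 19805017), (nat_lit 13318063)] (nat_lit 5276329)) p12_10_3 (nat_lit 4) (nat_lit 5) (nat_lit 6) = true := by decide +kernel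
def p12_10_3_6 : pfC (piC [(nat_lit 41997052), (nat_lit 26592602), (nat_lit 19805017), (nat_lit 13318063)] (nat_lit 5276329)) p12_10_3 (nat_lit 4) (nat_lit 6) (nat_lit 7) = true := by decide +kernel
def p12_10_3_7 : pfC (piC [(nat_lit 41997052), (nat_lit 26592602), (nat_lit 19805017), (nat_lit 13318063)] (nat_lit 5276329)) p12_10_3 (nat_lit 4) (nat_lit 7) (nat_lit 8) = true := by decide +kernel
def p12_10_3_8 : pfC (piC [(nat_lit 41997052), (nat_lit 26592602), (nat_lit 19805017), (nat_lit 13318063)] (nat_lit 5276329)) p12_10_3 (nat_lit 4) (nat_lit 8) (nat_lit 9) = true := by decide +kernel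
def p12_10_3_9 : pfC (piC [(nat_lit 41997052), (nat_lit 26592602), (nat_lit 19805017), (nat_lit 13318063)] (nat_lit 5276329)) p12_10_3 (nat_lit 4) (nat_lit 9) (nat_lit 10) = true := by decide +kernel
def p12_10_3_10 : pfC (piC [(nat_lit 41997052), (nat_lit 26592602), (nat_lit 19805017), (nat_lit 13318063)] (nat_lit 5276329)) p12_10_3 (nat_lit 4) (nat_lit 10) (nat_lit 11) = true := by decide +kernel
def p12_10_3_11 : pfC (piC [(nat_lit 41997052), (nat_lit 26592602), (nat_lit 19805017), (nat_lit 13318063)] (nat_lit 5276329)) p12_10_3 (nat_lit 4) (nat_lit 11) (nat_lit 12) = true := by decide +kernel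
def p12_10_3_12 : pfC (piC [(nat_lit 41997052), (nat_lit 26592602), (nat_lit 19805017), (nat_lit 13318063)] (nat_lit 5276329)) p12_10_3 (nat_lit 4) (nat_lit 12) (nat_lit 13) = true := by decide +kernel
def p12_10_3_13 : pfC (piC [(nat_lit 41997052), (nat_lit 26592602), (nat_lit 19805017), (nat_lit 13318063)] (nat_lit 5276329)) p12_10_3 (nat_lit 4) (nat_lit 13) (nat_lit 14) = true := by decide +kernel
def p12_10_3_14 : pfC (piC [(nat_lit 41997052), (nat_lit 26592602), (nat_lit 19805017), (nat_lit 13318063)] (nat_lit 5276329)) p12_10_3 (nat_lit 4) (nat_lit 14) (nat_lit 15) = true := by decide +kernel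
def p12_10_3_15 : pfC (piC [(nat_lit 41997052), (nat_lit 26592602), (nat_lit 19805017), (nat_lit 13318063)] (nat_lit 5276329)) p12_10_3 (nat_lit 4) (nat_lit 15) (nat_lit 16) = true := by decide +kernel
def p12_10_3_16 : pfC (piC [(nat_lit 41997052), (nat_lit 26592602), (nat_lit 19805017), (nat_lit 13318063)] (nat_lit 5276329)) p12_10_3 (nat_lit 4) (nat_lit 16) (nat_lit 17) = true := by decide +kernel
def p12_10_3_17 : pfC (piC [(nat_lit 41997052), (nat_lit 26592602), (nat_lit 19805017), (nat_lit 13318063)] (nat_lit 5276329)) p12_10_3 (nat_lit 4) (nat_lit 17) (nat_lit 18) = true := by decide +kernel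
def p12_10_3_18 : pfC (piC [(nat_lit 41997052), (nat_lit 26592602), (nat_lit 19805017), (nat_lit 13318063)] (nat_lit 5276329)) p12_10_3 (nat_lit 4) (nat_lit 18) (nat_lit 19) = true := by decide +kernel
def p12_10_3_19 : pfC (piC [(nat_lit 41997052), (nat_lit 26592602), (nat_lit 19805017), (nat_lit 13318063)] (nat_lit 5276329)) p12_10_3 (nat_lit 4) (nat_lit 19) (nat_lit 20) = true := by decide +kernel
def p12_10_3_20 : pfC (piC [(nat_lit 41997052), (nat_lit 26592602), (nat_lit 19805017), (nat_lit 13318063)] (nat_lit 5276329)) p12_10_3 (nat_lit 4) (nat_lit 20) (nat_lit 21) = true := by decide +kernel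
def p12_10_3_21 : pfC (piC [(nat_lit 41997052), (nat_lit 26592602), (nat_lit 19805017), (nat_lit 13318063)] (nat_lit 5276329)) p12_10_3 (nat_lit 4) (nat_lit 21) (nat_lit 22) = true := by decide +kernel
def p12_10_3_22 : pfC (piC [(nat_lit 41997052), (nat_lit 26592602), (nat_lit 19805017), (nat_lit 13318063)] (nat_lit 5276329)) p12_10_3 (nat_lit 4) (nat_lit 22) (nat_lit 23) = true := by decide +kernel
def p12_10_3_23 : pfC (piC [(nat_lit 41997052), (nat_lit 26592602), (nat_lit 19805017), (nat_lit 13318063)] (nat_lit 5276329)) p12_10_3 (nat_lit 4) (nat_lit 23) (nat_lit 24) = true := by decide +kernel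
def p12_10_3_24 : pfC (piC [(nat_lit 41997052), (nat_lit 26592602), (nat_lit 19805017), (nat_lit 13318063)] (nat_lit 5276329)) p12_10_3 (nat_lit 4) (nat_lit 24) (nat_lit 25) = true := by decide +kernel
def p12_10_3_25 : pfC (piC [(nat_lit 41997052), (nat_lit 26592602), (nat_lit 19805017), (nat_lit 13318063)] (nat_lit 5276329)) p12_10_3 (nat_lit 4) (nat_lit 25) (nat_lit 26) = true := by decide +kernel
def p12_10_3_26 : pfC (piC [(nat_lit 41997052), (nat_lit 26592602), (nat_lit 19805017), (nat_lit 13318063)] (nat_lit 5276329)) p12_10_3 (nat_lit 4) (nat_lit 26) (nat_lit 27) = true := by decide +kernel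
def p12_10_3_27 : pfC (piC [(nat_lit 41997052), (nat_lit 26592602), (nat_lit 19805017), (nat_lit 13318063)] (nat_lit 5276329)) p12_10_3 (nat_lit 4) (nat_lit 27) (nat_lit 28) = true := by decide +kernel
def p12_10_3_28 : pfC (piC [(nat_lit 41997052), (nat_lit 26592602), (nat_lit 19805017), (nat_lit 13318063)] (nat_lit 5276329)) p12_10_3 (nat_lit 4) (nat_lit 28) (nat_lit 29) = true := by decide +kernel
def p12_10_3_29 : pfC (piC [(nat_lit 41997052), (nat_lit 26592602), (nat_lit 19805017), (nat_lit 13318063)] (nat_lit 5276329)) p12_10_3 (nat_lit 4) (nat_lit 29) (nat_lit 30) = true := by decide +kernel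
def p12_10_3_30 : pfC (piC [(nat_lit 41997052), (nat_lit 26592602), (nat_lit 19805017), (nat_lit 13318063)] (nat_lit 5276329)) p12_10_3 (nat_lit 4) (nat_lit 30) (nat_lit 31) = true := by decide +kernel
def p12_10_3_31 : pfC (piC [(nat_lit 41997052), (nat_lit 26592602), (nat_lit 19805017), (nat_lit 13318063)] (nat_lit 5276329)) p12_10_3 (nat_lit 4) (nat_lit 31) (nat_lit 32) = true := by decide +kernel
def p12_10_3_32 : pfC (piC [(nat_lit 41997052), (nat_lit 26592602), (nat_lit 19805017), (nat_lit 13318063)] (nat_lit 5276329)) p12_10_3 (nat_lit 4) (nat_lit 32) (nat_lit 33) = true := by decide +kernel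
def p12_10_3_33 : pfC (piC [(nat_lit 41997052), (nat_lit 26592602), (nat_lit 19805017), (nat_lit 13318063)] (nat_lit 5276329)) p12_10_3 (nat_lit 4) (nat_lit 33) (nat_lit 34) = true := by decide +kernel
def p12_10_3_34 : pfC (piC [(nat_lit 41997052), (nat_lit 26592602), (nat_lit 19805017), (nat_lit 13318063)] (nat_lit 5276329)) p12_10_3 (nat_lit 4) (nat_lit 34) (nat_lit 35) = true := by decide +kernel
def p12_10_3_35 : pfC (piC [(nat_lit 41997052), (nat_lit 26592602), (nat_lit 19805017), (nat_lit 13318063)] (nat_lit 5276329)) p12_10_3 (nat_lit 4) (nat_lit 35) (nat_lit 36) = true := by decide +kernel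
def p12_10_3_36 : pfC (piC [(nat_lit 41997052), (nat_lit 26592602), (nat_lit 19805017), (nat_lit 13318063)] (nat_lit 5276329)) p12_10_3 (nat_lit 4) (nat_lit 36) (nat_lit 37) = true := by decide +kernel
def p12_10_3_37 : pfC (piC [(nat_lit 41997052), (nat_lit 26592602), (nat_lit 19805017), (nat_lit 13318063)] (nat_lit 5276329)) p12_10_3 (nat_lit 4) (nat_lit 37) (nat_lit 38) = true := by decide +kernel
def p12_10_3_38 : pfC (piC [(nat_lit 41997052), (nat_lit 26592602), (nat_lit 19805017), (nat_lit 13318063)] (nat_lit 5276329)) p12_10_3 (nat_lit 4) (nat_lit 38) (nat_lit 39) = true := by decide +kernel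
def p12_10_3_39 : pfC (piC [(nat_lit 41997052), (nat_lit 26592602), (nat_lit 19805017), (nat_lit 13318063)] (nat_lit 5276329)) p12_10_3 (nat_lit 4) (nat_lit 39) (nat_lit 40) = true := by decide +kernel
def p12_10_3_40 : pfC (piC [(nat_lit 41997052), (nat_lit 26592602), (nat_lit 19805017), (nat_lit 13318063)] (nat_lit 5276329)) p12_10_3 (nat_lit 4) (nat_lit 40) (nat_lit 41) = true := by decide +kernel
def p12_10_3_41 : pfC (piC [(nat_lit 41997052), (nat_lit 26592602), (nat_lit 19805017), (nat_lit 13318063)] (nat_lit 5276329)) p12_10_3 (nat_lit 4) (nat_lit 41) (nat_lit 42) = true := by decide +kernel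
def p12_10_3_42 : pfC (piC [(nat_lit 41997052), (nat_lit 26592602), (nat_lit 19805017), (nat_lit 13318063)] (nat_lit 5276329)) p12_10_3 (nat_lit 4) (nat_lit 42) (nat_lit 43) = true := by decide +kernel
def p12_10_3_43 : pfC (piC [(nat_lit 41997052), (nat_lit 26592602), (nat_lit 19805017), (nat_lit 13318063)] (nat_lit 5276329)) p12_10_3 (nat_lit 4) (nat_lit 43) (nat_lit 44) = true := by decide +kernel
def p12_10_3_44 : pfC (piC [(nat_lit 41997052), (nat_lit 26592602), (nat_lit 19805017), (nat_lit 13318063)] (nat_lit 5276329)) p12_10_3 (nat_lit 4) (nat_lit 44) (nat_lit 45) = true := by decide +kernel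
def p12_10_3_45 : pfC (piC [(nat_lit 41997052), (nat_lit 26592602), (nat_lit 19805017), (nat_lit 13318063)] (nat_lit 5276329)) p12_10_3 (nat_lit 4) (nat_lit 45) (nat_lit 46) = true := by decide +kernel
def p12_10_3_46 : pfC (piC [(nat_lit 41997052), (nat_lit 26592602), (nat_lit 19805017), (nat_lit 13318063)] (nat_lit 5276329)) p12_10_3 (nat_lit 4) (nat_lit 46) (nat_lit 47) = true := by decide +kernel
def p12_10_3_47 : pfC (piC [(nat_lit 41997052), (nat_lit 26592602), (nat_lit 19805017), (nat_lit 13318063)] (nat_lit 5276329)) p12_10_3 (nat_lit 4) (nat_lit 47) (nat_lit 48) = true := by decide +kernel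
def p12_10_3_48 : pfC (piC [(nat_lit 41997052), (nat_lit 26592602), (nat_lit 19805017), (nat_lit 13318063)] (nat_lit 5276329)) p12_10_3 (nat_lit 4) (nat_lit 48) (nat_lit 49) = true := by decide +kernel
def p12_10_3_49 : pfC (piC [(nat_lit 41997052), (nat_lit 26592602), (nat_lit 19805017), (nat_lit 13318063)] (nat_lit 5276329)) p12_10_3 (nat_lit 4) (nat_lit 49) (nat_lit 50) = true := by decide +kernel
def p12_10_3_50 : pfC (piC [(nat_lit 41997052), (nat_lit 26592602), (nat_lit 19805017), (nat_lit 13318063)] (nat_lit 5276329)) p12_10_3 (nat_lit 4) (nat_lit 50) (nat_lit 51) = true := by decide +kernel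
def p12_10_3_51 : pfC (piC [(nat_lit 41997052), (nat_lit 26592602), (nat_lit 19805017), (nat_lit 13318063)] (nat_lit 5276329)) p12_10_3 (nat_lit 4) (nat_lit 51) (nat_lit 52) = true := by decide +kernel
def p12_10_3_52 : pfC (piC [(nat_lit 41997052), (nat_lit 26592602), (nat_lit 19805017), (nat_lit 13318063)] (nat_lit 5276329)) p12_10_3 (nat_lit 4) (nat_lit 52) (nat_lit 53) = true := by decide +kernel
def p12_10_3_53 : pfC (piC [(nat_lit 41997052), (nat_lit 26592602), (nat_lit 19805017), (nat_lit 13318063)] (nat_lit 5276329)) p12_10_3 (nat_lit 4) (nat_lit 53) (nat_lit 54) = true := by decide +kernel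
def p12_10_3_54 : pfC (piC [(nat_lit 41997052), (nat_lit 26592602), (nat_lit 19805017), (nat_lit 13318063)] (nat_lit 5276329)) p12_10_3 (nat_lit 4) (nat_lit 54) (nat_lit 55) = true := by decide +kernel
def p12_10_3_55 : pfC (piC [(nat_lit 41997052), (nat_lit 26592602), (nat_lit 19805017), (nat_lit 13318063)] (nat_lit 5276329)) p12_10_3 (nat_lit 4) (nat_lit 55) (nat_lit 56) = true := by decide +kernel
def p12_10_3_56 : pfC (piC [(nat_lit 41997052), (nat_lit 26592602), (nat_lit 19805017), (nat_lit 13318063)] (nat_lit 5276329)) p12_10_3 (nat_lit 4) (nat_lit 56) (nat_lit 57) = true := by decide +kernel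
def p12_10_3_57 : pfC (piC [(nat_lit 41997052), (nat_lit 26592602), (nat_lit 19805017), (nat_lit 13318063)] (nat_lit 5276329)) p12_10_3 (nat_lit 4) (nat_lit 57) (nat_lit 58) = true := by decide +kernel
def p12_10_3_58 : pfC (piC [(nat_lit 41997052), (nat_lit 26592602), (nat_lit 19805017), (nat_lit 13318063)] (nat_lit 5276329)) p12_10_3 (nat_lit 4) (nat_lit 58) (nat_lit 59) = true := by decide +kernel
def p12_10_3_59 : pfC (piC [(nat_lit 41997052), (nat_lit 26592602), (nat_lit 19805017), (nat_lit 13318063)] (nat_lit 5276329)) p12_10_3 (nat_lit 4) (nat_lit 59) (nat_lit 60) = true := by decide +kernel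
def p12_10_3_60 : pfC (piC [(nat_lit 41997052), (nat_lit 26592602), (nat_lit 19805017), (nat_lit 13318063)] (nat_lit 5276329)) p12_10_3 (nat_lit 4) (nat_lit 60) (nat_lit 61) = true := by decide +kernel
def p12_10_3_61 : pfC (piC [(nat_lit 41997052), (nat_lit 26592602), (nat_lit 19805017), (nat_lit 13318063)] (nat_lit 5276329)) p12_10_3 (nat_lit 4) (nat_lit 61) (nat_lit 62) = true := by decide +kernel
def p12_10_3_62 : pfC (piC [(nat_lit 41997052), (nat_lit 26592602), (nat_lit 19805017), (nat_lit 13318063)] (nat_lit 5276329)) p12_10_3 (nat_lit 4) (nat_lit 62) (nat_lit 63) = true := by decide +kernel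
def p12_10_3_63 : pfC (piC [(nat_lit 41997052), (nat_lit 26592602), (nat_lit 19805017), (nat_lit 13318063)] (nat_lit 5276329)) p12_10_3 (nat_lit 4) (nat_lit 63) (nat_lit 64) = true := by decide +kernel
def p12_10_3_64 : pfC (piC [(nat_lit 41997052), (nat_lit 26592602), (nat_lit 19805017), (nat_lit 13318063)] (nat_lit 5276329)) p12_10_3 (nat_lit 4) (nat_lit 64) (nat_lit 65) = true := by decide +kernel
def p12_10_3_65 : pfC (piC [(nat_lit 41997052), (nat_lit 26592602), (nat_lit 19805017), (nat_lit 13318063)] (nat_lit 5276329)) p12_10_3 (nat_lit 4) (nat_lit 65) (nat_lit 66) = true := by decide +kernel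
def p12_10_3_66 : pfC (piC [(nat_lit 41997052), (nat_lit 26592602), (nat_lit 19805017), (nat_lit 13318063)] (nat_lit 5276329)) p12_10_3 (nat_lit 4) (nat_lit 66) (nat_lit 67) = true := by decide +kernel
def p12_10_3_67 : pfC (piC [(nat_lit 41997052), (nat_lit 26592602), (nat_lit 19805017), (nat_lit 13318063)] (nat_lit 5276329)) p12_10_3 (nat_lit 4) (nat_lit 67) (nat_lit 68) = true := by decide +kernel
def p12_10_3_68 : pfC (piC [(nat_lit 41997052), (nat_lit 26592602), (nat_lit 19805017), (nat_lit 13318063)] (nat_lit 5276329)) p12_10_3 (nat_lit 4) (nat_lit 68) (nat_lit 69) = true := by decide +kernel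
def p12_10_3_69 : pfC (piC [(nat_lit 41997052), (nat_lit 26592602), (nat_lit 19805017), (nat_lit 13318063)] (nat_lit 5276329)) p12_10_3 (nat_lit 4) (nat_lit 69) (nat_lit 70) = true := by decide +kernel
def p12_10_3_70 : pfC (piC [(nat_lit 41997052), (nat_lit 26592602), (nat_lit 19805017), (nat_lit 13318063)] (nat_lit 5276329)) p12_10_3 (nat_lit 4) (nat_lit 70) (nat_lit 71) = true := by decide +kernel
def p12_10_3_71 : pfC (piC [(nat_lit 41997052), (nat_lit 26592602), (nat_lit 19805017), (nat_lit 13318063)] (nat_lit 5276329)) p12_10_3 (nat_lit 4) (nat_lit 71) (nat_lit 72) = true := by decide +kernel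
def p12_10_3_72 : pfC (piC [(nat_lit 41997052), (nat_lit 26592602), (nat_lit 19805017), (nat_lit 13318063)] (nat_lit 5276329)) p12_10_3 (nat_lit 4) (nat_lit 72) (nat_lit 73) = true := by decide +kernel
def p12_10_3_73 : pfC (piC [(nat_lit 41997052), (nat_lit 26592602), (nat_lit 19805017), (nat_lit 13318063)] (nat_lit 5276329)) p12_10_3 (nat_lit 4) (nat_lit 73) (nat_lit 74) = true := by decide +kernel
def p12_10_3_74 : pfC (piC [(nat_lit 41997052), (nat_lit 26592602), (nat_lit 19805017), (nat_lit 13318063)] (nat_lit 5276329)) p12_10_3 (nat_lit 4) (nat_lit 74) (nat_lit 75) = true := by decide +kernel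
def p12_10_3_75 : pfC (piC [(nat_lit 41997052), (nat_lit 26592602), (nat_lit 19805017), (nat_lit 13318063)] (nat_lit 5276329)) p12_10_3 (nat_lit 4) (nat_lit 75) (nat_lit 76) = true := by decide +kernel
def p12_10_3_76 : pfC (piC [(nat_lit 41997052), (nat_lit 26592602), (nat_lit 19805017), (nat_lit 13318063)] (nat_lit 5276329)) p12_10_3 (nat_lit 4) (nat_lit 76) (nat_lit 77) = true := by decide +kernel
def p12_10_3_77 : pfC (piC [(nat_lit 41997052), (nat_lit 26592602), (nat_lit 19805017), (nat_lit 13318063)] (nat_lit 5276329)) p12_10_3 (nat_lit 4) (nat_lit 77) (nat_lit 78) = true := by decide +kernel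
def p12_10_3_78 : pfC (piC [(nat_lit 41997052), (nat_lit 26592602), (nat_lit 19805017), (nat_lit 13318063)] (nat_lit 5276329)) p12_10_3 (nat_lit 4) (nat_lit 78) (nat_lit 79) = true := by decide +kernel
def p12_10_3_79 : pfC (piC [(nat_lit 41997052), (nat_lit 26592602), (nat_lit 19805017), (nat_lit 13318063)] (nat_lit 5276329)) p12_10_3 (nat_lit 4) (nat_lit 79) (nat_lit 80) = true := by decide +kernel
def p12_10_3_80 : pfC (piC [(nat_lit 41997052), (nat_lit 26592602), (nat_lit 19805017), (nat_lit 13318063)] (nat_lit 5276329)) p12_10_3 (nat_lit 4) (nat_lit 80) (nat_lit 81) = true := by decide +kernel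
def p12_10_3_81 : pfC (piC [(nat_lit 41997052), (nat_lit 26592602), (nat_lit 19805017), (nat_lit 13318063)] (nat_lit 5276329)) p12_10_3 (nat_lit 4) (nat_lit 81) (nat_lit 82) = true := by decide +kernel
def p12_10_3_82 : pfC (piC [(nat_lit 41997052), (nat_lit 26592602), (nat_lit 19805017), (nat_lit 13318063)] (nat_lit 5276329)) p12_10_3 (nat_lit 4) (nat_lit 82) (nat_lit 83) = true := by decide +kernel
def p12_10_3_83 : pfC (piC [(nat_lit 41997052), (nat_lit 26592602), (nat_lit 19805017), (nat_lit 13318063)] (nat_lit 5276329)) p12_10_3 (nat_lit 4) (nat_lit 83) (nat_lit 84) = true := by decide +kernel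
def p12_10_3_84 : pfC (piC [(nat_lit 41997052), (nat_lit 26592602), (nat_lit 19805017), (nat_lit 13318063)] (nat_lit 5276329)) p12_10_3 (nat_lit 4) (nat_lit 84) (nat_lit 85) = true := by decide +kernel
def p12_10_3_85 : pfC (piC [(nat_lit 41997052), (nat_lit 26592602), (nat_lit 19805017), (nat_lit 13318063)] (nat_lit 5276329)) p12_10_3 (nat_lit 4) (nat_lit 85) (nat_lit 86) = true := by decide +kernel
def p12_10_3_86 : pfC (piC [(nat_lit 41997052), (nat_lit 26592602), (nat_lit 19805017), (nat_lit 13318063)] (nat_lit 5276329)) p12_10_3 (nat_lit 4) (nat_lit 86) (nat_lit 87) = true := by decide +kernel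
def p12_10_3_87 : pfC (piC [(nat_lit 41997052), (nat_lit 26592602), (nat_lit 19805017), (nat_lit 13318063)] (nat_lit 5276329)) p12_10_3 (nat_lit 4) (nat_lit 87) (nat_lit 88) = true := by decide +kernel
def p12_10_3_88 : pfC (piC [(nat_lit 41997052), (nat_lit 26592602), (nat_lit 19805017), (nat_lit 13318063)] (nat_lit 5276329)) p12_10_3 (nat_lit 4) (nat_lit 88) (nat_lit 89) = true := by decide +kernel
def p12_10_3_89 : pfC (piC [(nat_lit 41997052), (nat_lit 26592602), (nat_lit 19805017), (nat_lit 13318063)] (nat_lit 5276329)) p12_10_3 (nat_lit 4) (nat_lit 89) (nat_lit 90) = true := by decide +kernel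
def p12_10_3_90 : pfC (piC [(nat_lit 41997052), (nat_lit 26592602), (nat_lit 19805017), (nat_lit 13318063)] (nat_lit 5276329)) p12_10_3 (nat_lit 4) (nat_lit 90) (nat_lit 91) = true := by decide +kernel
def p12_10_3_91 : pfC (piC [(nat_lit 41997052), (nat_lit 26592602), (nat_lit 19805017), (nat_lit 13318063)] (nat_lit 5276329)) p12_10_3 (nat_lit 4) (nat_lit 91) (nat_lit 92) = true := by decide +kernel
def p12_10_3_92 : pfC (piC [(nat_lit 41997052), (nat_lit 26592602), (nat_lit 19805017), (nat_lit 13318063)] (nat_lit 5276329)) p12_10_3 (nat_lit 4) (nat_lit 92) (nat_lit 93) = true := by decide +kernel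
def p12_10_3_93 : pfC (piC [(nat_lit 41997052), (nat_lit 26592602), (nat_lit 19805017), (nat_lit 13318063)] (nat_lit 5276329)) p12_10_3 (nat_lit 4) (nat_lit 93) (nat_lit 94) = true := by decide +kernel
def p12_10_3_94 : pfC (piC [(nat_lit 41997052), (nat_lit 26592602), (nat_lit 19805017), (nat_lit 13318063)] (nat_lit 5276329)) p12_10_3 (nat_lit 4) (nat_lit 94) (nat_lit 95) = true := by decide +kernel
def p12_10_3_95 : pfC (piC [(nat_lit 41997052), (nat_lit 26592602), (nat_lit 19805017), (nat_lit 13318063)] (nat_lit 5276329)) p12_10_3 (nat_lit 4) (nat_lit 95) (nat_lit 96) = true := by decide +kernel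
def p12_10_3_96 : pfC (piC [(nat_lit 41997052), (nat_lit 26592602), (nat_lit 19805017), (nat_lit 13318063)] (nat_lit 5276329)) p12_10_3 (nat_lit 4) (nat_lit 96) (nat_lit 97) = true := by decide +kernel
def p12_10_3_97 : pfC (piC [(nat_lit 41997052), (nat_lit 26592602), (nat_lit 19805017), (nat_lit 13318063)] (nat_lit 5276329)) p12_10_3 (nat_lit 4) (nat_lit 97) (nat_lit 98) = true := by decide +kernel
def p12_10_3_98 : pfC (piC [(nat_lit 41997052), (nat_lit 26592602), (nat_lit 19805017), (nat_lit 13318063)] (nat_lit 5276329)) p12_10_3 (nat_lit 4) (nat_lit 98) (nat_lit 99) = true := by decide +kernel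
def p12_10_3_99 : pfC (piC [(nat_lit 41997052), (nat_lit 26592602), (nat_lit 19805017), (nat_lit 13318063)] (nat_lit 5276329)) p12_10_3 (nat_lit 4) (nat_lit 99) (nat_lit 100) = true := by decide +kernel
def p12_10_3_100 : pfC (piC [(nat_lit 41997052), (nat_lit 26592602), (nat_lit 19805017), (nat_lit 13318063)] (nat_lit 5276329)) p12_10_3 (nat_lit 4) (nat_lit 100) (nat_lit 101) = true := by decide +kernel
def p12_10_3_101 : pfC (piC [(nat_lit 41997052), (nat_lit 26592602), (nat_lit 19805017), (nat_lit 13318063)] (nat_lit 5276329)) p12_10_3 (nat_lit 4) (nat_lit 101) (nat_lit 102) = true := by decide +kernel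
def p12_10_3_102 : pfC (piC [(nat_lit 41997052), (nat_lit 26592602), (nat_lit 19805017), (nat_lit 13318063)] (nat_lit 5276329)) p12_10_3 (nat_lit 4) (nat_lit 102) (nat_lit 103) = true := by decide +kernel
def p12_10_3_103 : pfC (piC [(nat_lit 41997052), (nat_lit 26592602), (nat_lit 19805017), (nat_lit 13318063)] (nat_lit 5276329)) p12_10_3 (nat_lit 4) (nat_lit 103) (nat_lit 104) = true := by decide +kernel
def p12_10_3_104 : pfC (piC [(nat_lit 41997052), (nat_lit 26592602), (nat_lit 19805017), (nat_lit 13318063)] (nat_lit 5276329)) p12_10_3 (nat_lit 4) (nat_lit 104) (nat_lit 105) = true := by decide +kernel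
def p12_10_3_105 : pfC (piC [(nat_lit 41997052), (nat_lit 26592602), (nat_lit 19805017), (nat_lit 13318063)] (nat_lit 5276329)) p12_10_3 (nat_lit 4) (nat_lit 105) (nat_lit 106) = true := by decide +kernel
def p12_10_3_106 : pfC (piC [(nat_lit 41997052), (nat_lit 26592602), (nat_lit 19805017), (nat_lit 13318063)] (nat_lit 5276329)) p12_10_3 (nat_lit 4) (nat_lit 106) (nat_lit 107) = true := by decide +kernel
def p12_10_3_107 : pfC (piC [(nat_lit 41997052), (nat_lit 26592602), (nat_lit 19805017), (nat_lit 13318063)] (nat_lit 5276329)) p12_10_3 (nat_lit 4) (nat_lit 107) (nat_lit 108) = true := by decide +kernel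
def p12_10_3_108 : pfC (piC [(nat_lit 41997052), (nat_lit 26592602), (nat_lit 19805017), (nat_lit 13318063)] (nat_lit 5276329)) p12_10_3 (nat_lit 4) (nat_lit 108) (nat_lit 109) = true := by decide +kernel
def p12_10_3_109 : pfC (piC [(nat_lit 41997052), (nat_lit 26592602), (nat_lit 19805017), (nat_lit 13318063)] (nat_lit 5276329)) p12_10_3 (nat_lit 4) (nat_lit 109) (nat_lit 110) = true := by decide +kernel
def p12_10_3_110 : pfC (piC [(nat_lit 41997052), (nat_lit 26592602), (nat_lit 19805017), (nat_lit 13318063)] (nat_lit 5276329)) p12_10_3 (nat_lit 4) (nat_lit 110) (nat_lit 111) = true := by decide +kernel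
theorem p12_10_3_T : PfS (PiF n12_10.reverse (nat_lit 5276329)) p12_10_3 (nat_lit 4) [] 0 :=
  pftab_of (los := [(nat_lit 41997052), (nat_lit 26592602), (nat_lit 19805017), (nat_lit 13318063)]) (by decide +kernel) (hi := (nat_lit 111)) (PfP.trans (PfP.trans (PfP.trans (PfP.trans (PfP.trans (PfP.trans (PfP.trans (PfP.trans (PfP.trans (PfP.trans (PfP.trans (PfP.trans (PfP.trans (PfP.trans (PfP.trans (PfP.trans (PfP.trans (PfP.trans (PfP.trans (PfP.trans (PfP.trans (PfP.trans (PfP.trans (PfP.trans (PfP.trans (PfP.trans (PfP.trans (PfP.trans (PfP.trans (PfP.trans (PfP.trans (PfP.trans (PfP.trans (PfP.trans (PfP.trans (PfP.trans (PfP.trans (PfP.trans (PfP.trans (PfP.trans (PfP.trans (PfP.trans (PfP.trans (PfP.trans (PfP.trans (PfP.trans (PfP.trans (PfP.trans (PfP.trans (PfP.trans (PfP.trans (PfP.trans (PfP.trans (PfP.trans (PfP.trans (PfP.trans (PfP.trans (PfP.trans (PfP.trans (PfP.trans (PfP.trans (PfP.trans (PfP.trans (PfP.trans (PfP.trans (PfP.trans (PfP.trans (PfP.trans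 (PfP.trans (PfP.trans (PfP.trans (PfP.trans (PfP.trans (PfP.trans (PfP.trans (PfP.trans (PfP.trans (PfP.trans (PfP.trans (PfP.trans (PfP.trans (PfP.trans (PfP.trans (PfP.trans (PfP.trans (PfP.trans (PfP.trans (PfP.trans (PfP.trans (PfP.trans (PfP.trans (PfP.trans (PfP.trans (PfP.trans (PfP.trans (PfP.trans (PfP.trans (PfP.trans (PfP.trans (PfP.trans (PfP.trans (PfP.trans (PfP.trans (PfP.trans (PfP.trans (PfP.trans (PfP.trans (PfP.trans (PfP.trans
 (PfP.trans (pfC_sound p12_10_3_0) (pfC_sound p12_10_3_1)) (pfC_sound p12_10_3_2)) (pfC_sound p12_10_3_3)) (pfC_sound p12_10_3_4)) (pfC_sound p12_10_3_5)) (pfC_sound p12_10_3_6)) (pfC_sound p12_10_3_7)) (pfC_sound p12_10_3_8)) (pfC_sound p12_10_3_9)) (pfC_sound p12_10_3_10)) (pfC_sound p12_10_3_11)) (pfC_sound p12_10_3_12)) (pfC_sound p12_10_3_13)) (pfC_sound p12_10_3_14)) (pfC_sound p12_10_3_15)) (pfC_sound p12_10_3_16)) (pfC_sound p12_10_3_17)) (pfC_sound p12_10_3_18)) (pfC_sound p12_10_3_19)) (pfC_sound p12_10_3_20))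 (pfC_sound p12_10_3_21)) (pfC_sound p12_10_3_22)) (pfC_sound p12_10_3_23)) (pfC_sound p12_10_3_24)) (pfC_sound p12_10_3_25)) (pfC_sound p12_10_3_26)) (pfC_sound p12_10_3_27)) (pfC_sound p12_10_3_28)) (pfC_sound p12_10_3_29)) (pfC_sound p12_10_3_30)) (pfC_sound p12_10_3_31)) (pfC_sound p12_10_3_32)) (pfC_sound p12_10_3_33)) (pfC_sound p12_10_3_34)) (pfC_sound p12_10_3_35)) (pfC_sound p12_10_3_36)) (pfC_sound p12_10_3_37)) (pfC_sound p12_10_3_38)) (pfC_sound p12_10_3_39)) (pfC_sound p12_10_3_40)) (pfC_sound p12_10_3_41)) (pfC_sound p12_10_3_42)) (pfC_sound p12_10_3_43)) (pfC_sound p12_10_3_44)) (pfC_sound p12_10_3_45)) (pfC_sound p12_10_3_46)) (pfC_sound p12_10_3_47))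
 (pfC_sound p12_10_3_48)) (pfC_sound p12_10_3_49)) (pfC_sound p12_10_3_50)) (pfC_sound p12_10_3_51)) (pfC_sound p12_10_3_52)) (pfC_sound p12_10_3_53)) (pfC_sound p12_10_3_54)) (pfC_sound p12_10_3_55)) (pfC_sound p12_10_3_56)) (pfC_sound p12_10_3_57)) (pfC_sound p12_10_3_58)) (pfC_sound p12_10_3_59)) (pfC_sound p12_10_3_60)) (pfC_sound p12_10_3_61)) (pfC_sound p12_10_3_62)) (pfC_sound p12_10_3_63)) (pfC_sound p12_10_3_64)) (pfC_sound p12_10_3_65)) (pfC_sound p12_10_3_66)) (pfC_sound p12_10_3_67)) (pfC_sound p12_10_3_68)) (pfC_sound p12_10_3_69)) (pfC_sound p12_10_3_70)) (pfC_sound p12_10_3_71)) (pfC_sound p12_10_3_72)) (pfC_sound p12_10_3_73)) (pfC_sound p12_10_3_74)) (pfC_sound p12_10_3_75)) (pfC_sound p12_10_3_76)) (pfC_sound p12_10_3_77)) (pfC_sound p12_10_3_78)) (pfC_sound p12_10_3_79)) (pfC_sound p12_10_3_80)) (pfC_sound p12_10_3_81)) (pfC_sound p12_10_3_82)) (pfC_sound p12_10_3_83)) (pfC_sound p12_10_3_84)) (pfC_sound p12_10_3_85)) (pfC_sound p12_10_3_86))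 (pfC_sound p12_10_3_87)) (pfC_sound p12_10_3_88)) (pfC_sound p12_10_3_89)) (pfC_sound p12_10_3_90)) (pfC_sound p12_10_3_91)) (pfC_sound p12_10_3_92)) (pfC_sound p12_10_3_93)) (pfC_sound p12_10_3_94)) (pfC_sound p12_10_3_95))
 (pfC_sound p12_10_3_96)) (pfC_sound p12_10_3_97)) (pfC_sound p12_10_3_98)) (pfC_sound p12_10_3_99)) (pfC_sound p12_10_3_100)) (pfC_sound p12_10_3_101)) (pfC_sound p12_10_3_102)) (pfC_sound p12_10_3_103)) (pfC_sound p12_10_3_104)) (pfC_sound p12_10_3_105)) (pfC_sound p12_10_3_106)) (pfC_sound p12_10_3_107)) (pfC_sound p12_10_3_108)) (pfC_sound p12_10_3_109)) (pfC_sound p12_10_3_110)) (by decide +kernel)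

def z12_10_3 : zOK yB12_10 (nat_lit 3) (nat_lit 750) (nat_lit 896) (nat_lit 5276329) (nat_lit 4170319) = true := by decide +kernel
def g12_10_3 : gOK yB12_10.x P12_10 (nat_lit 1424) (q12_10 :: r12_10) (nat_lit 3) (nat_lit 750) (nat_lit 4) (nat_lit 896) (nat_lit 12712500) (nat_lit 12712500) (nat_lit 12712500) (nat_lit 12712500) [(nat_lit 800)] = true := by decide +kernel
def v12_10_3 : ivC P12_10 s12_10 w12_10 n12_10 (nat_lit 4) (nat_lit 4710) (nat_lit 3) (nat_lit 750) f144_1_750 f152_1_750 (nat_lit 4) (nat_lit 896) f144_1_896 f152_1_896 (nat_lit 5276329) (nat_lit 4170319) p12_10_3 = true := by decide +kernel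
/-! box `yB12_11` -/

def P12_11 : BQ := ⟨(nat_lit 8), (nat_lit 8), (nat_lit 0), (nat_lit 4), (nat_lit 4), (nat_lit 760), (nat_lit 780), (nat_lit 120), [(nat_lit 200), (nat_lit 300), (nat_lit 450), (nat_lit 800)], (nat_lit 96896000), (nat_lit 16000000), (nat_lit 16000000000)⟩
def q12_11 : PC := ⟨(nat_lit 1000), [(nat_lit 120000), (nat_lit 200000), (nat_lit 300000), (nat_lit 450000), (nat_lit 800000)], (nat_lit 340282367000166625996085689103316680705000000), (nat_lit 15903104000000), (nat_lit 15903104000000), (nat_lit 10000000)⟩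
def r12_11 : List PC := [⟨(nat_lit 1331), [(nat_lit 120659), (nat_lit 201116), (nat_lit 301585), (nat_lit 451844), (nat_lit 801888)], (nat_lit 342047411637855198353535956306002875480230685), (nat_lit 16340636324000), (nat_lit 16352604807360), (nat_lit 10055800)⟩]
def s12_11 : List PB := [⟨(nat_lit 26620), (nat_lit 1930544000000), [(nat_lit 201116), (nat_lit 301585), (nat_lit 451844), (nat_lit 801888)], (nat_lit 342047411637855198353535956306002875480230685), (nat_lit 1142240543166624), (nat_lit 1142252511649984), (nat_lit 52960)⟩]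
def n12_11 : List KN := [⟨(nat_lit 800), (nat_lit 450), (nat_lit 13318063), (nat_lit 4942965)⟩, ⟨(nat_lit 450), (nat_lit 300), (nat_lit 19519284), (nat_lit 13318063)⟩, ⟨(nat_lit 300), (nat_lit 200), (nat_lit 26310893), (nat_lit 19519284)⟩, ⟨(nat_lit 200), (nat_lit 120), (nat_lit 41351667), (nat_lit 26310893)⟩]
def w12_11 : List ℕ := [(nat_lit 52960)]
def par12_11 : parC yB12_11 P12_11 s12_11 r12_11 q12_11 n12_11 w12_11 = true := by decide +kernel

def p12_11_0 : PF := (PF.cons (PF.cons (PF.cons (PF.cons (PF.leaf (nat_lit 487743) (nat_lit 1333914) (nat_lit 65774898) (nat_lit 1333914) [(nat_lit 0), (nat_lit 0), (nat_lit 0), (nat_lit 0)]) (PF.cons (PF.leaf (nat_lit 593014) (nat_lit 159619) (nat_lit 65571053) (nat_lit 1378139) [(nat_lit 159619), (nat_lit 0), (nat_lit 0), (nat_lit 0)]) (PF.cons (PF.leaf (nat_lit 725271) (nat_lit 177599) (nat_lit 65326559) (nat_lit 1427054) [(nat_lit 177599), (nat_lit 0), (nat_lit 0), (nat_lit 0)]) (PF.cons (PF.leaf (nat_lit 877891)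 (nat_lit 194728) (nat_lit 65045938) (nat_lit 1478688) [(nat_lit 194728), (nat_lit 0), (nat_lit 0), (nat_lit 0)]) (PF.cons (PF.leaf (nat_lit 1049439) (nat_lit 211193) (nat_lit 64732309) (nat_lit 1531730) [(nat_lit 211193), (nat_lit 0), (nat_lit 0), (nat_lit 0)]) (PF.cons (PF.leaf (nat_lit 1238767) (nat_lit 227084) (nat_lit 64388120) (nat_lit 1585267) [(nat_lit 227084), (nat_lit 0), (nat_lit 0), (nat_lit 0)]) (PF.cons (PF.leaf (nat_lit 1444865) (nat_lit 242449) (nat_lit 64015472) (nat_lit 1638642) [(nat_lit 242449), (nat_lit 0), (nat_lit 0), (nat_lit 0)]) (PF.cons (PF.leaf (nat_lit 1666785) (nat_lit 257309) (nat_lit 63616274) (nat_lit 1691370) [(nat_lit 257309), (nat_lit 0), (nat_lit 0),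
 (nat_lit 0)]) (PF.cons PF.nil (PF.cons PF.nil PF.nil)))))))))) (PF.cons (PF.cons (PF.leaf (nat_lit 939510) (nat_lit 910795) (nat_lit 64672139) (nat_lit 1525878) [(nat_lit 0), (nat_lit 910795), (nat_lit 0), (nat_lit 0)]) (PF.cons (PF.leaf (nat_lit 1093404) (nat_lit 212147) (nat_lit 64377230) (nat_lit 1572157) [(nat_lit 212147), (nat_lit 947278), (nat_lit 0), (nat_lit 0)]) (PF.cons (PF.leaf (nat_lit 1269511) (nat_lit 228135) (nat_lit 64047583) (nat_lit 1620237) [(nat_lit 228135), (nat_lit 984721), (nat_lit 0), (nat_lit 0)]) (PF.cons (PF.leaf (nat_lit 1463663) (nat_lit 243476) (nat_lit 63686887) (nat_lit 1669084) [(nat_lit 243476), (nat_lit 1022410), (nat_lit 0), (nat_lit 0)]) (PF.cons (PF.leaf (nat_lit 1674518) (nat_lit 258251) (nat_lit 63297953) (nat_lit 1717980) [(nat_lit 258251), (nat_lit 1059874), (nat_lit 0), (nat_lit 0)]) (PF.cons (PF.leaf (nat_lit 1900924) (nat_lit 272497) (nat_lit 62883129) (nat_lit 1766406) [(nat_lit 272497), (nat_lit 1096789), (nat_lit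 0), (nat_lit 0)]) (PF.cons (PF.leaf (nat_lit 2141785) (nat_lit 286236) (nat_lit 62444492) (nat_lit 1813978) [(nat_lit 286236), (nat_lit 1132920), (nat_lit 0), (nat_lit 0)]) (PF.cons PF.nil (PF.cons PF.nil PF.nil)))))))))
 (PF.cons (PF.cons (PF.leaf (nat_lit 1499424) (nat_lit 1043568) (nat_lit 63319400) (nat_lit 1702275) [(nat_lit 0), (nat_lit 1043568), (nat_lit 0), (nat_lit 0)]) (PF.cons (PF.leaf (nat_lit 1694626) (nat_lit 258399) (nat_lit 62947979) (nat_lit 1746592) [(nat_lit 258399), (nat_lit 1077920), (nat_lit 0), (nat_lit 0)]) (PF.cons (PF.leaf (nat_lit 1908447) (nat_lit 272702) (nat_lit 62547594) (nat_lit 1791218) [(nat_lit 272702), (nat_lit 1112297), (nat_lit 0), (nat_lit 0)]) (PF.cons (PF.leaf (nat_lit 2137791) (nat_lit 286427) (nat_lit 62121347) (nat_lit 1835572) [(nat_lit 286427), (nat_lit 1146305), (nat_lit 0), (nat_lit 0)]) (PF.cons (PF.leaf (nat_lit 2381583) (nat_lit 299615) (nat_lit 61671774) (nat_lit 1879231) [(nat_lit 299615), (nat_lit 1179673),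 (nat_lit 0), (nat_lit 0)]) (PF.cons (PF.leaf (nat_lit 2638608) (nat_lit 312288) (nat_lit 61201070) (nat_lit 1921887) [(nat_lit 312288), (nat_lit 1212205), (nat_lit 0), (nat_lit 0)]) (PF.cons PF.nil PF.nil))))))) (PF.cons (PF.cons (PF.leaf (nat_lit 2148029) (nat_lit 1160938) (nat_lit 61767043) (nat_lit 1858953) [(nat_lit 0), (nat_lit 1160938), (nat_lit 0), (nat_lit 0)]) (PF.cons (PF.leaf (nat_lit 2377682) (nat_lit 299154) (nat_lit 61333805)
 (nat_lit 1899383) [(nat_lit 299154), (nat_lit 1192156), (nat_lit 0), (nat_lit 0)]) (PF.cons (PF.leaf (nat_lit 2622914) (nat_lit 311866) (nat_lit 60877109) (nat_lit 1939304) [(nat_lit 311866), (nat_lit 1222888), (nat_lit 0), (nat_lit 0)]) (PF.cons (PF.leaf (nat_lit 2881271) (nat_lit 324033) (nat_lit 60399618) (nat_lit 1978373) [(nat_lit 324033), (nat_lit 1252907), (nat_lit 0), (nat_lit 0)]) (PF.cons PF.nil PF.nil))))) (PF.cons (PF.cons (PF.leaf (nat_lit 2866819) (nat_lit 1262845) (nat_lit 60062838) (nat_lit 1994594) [(nat_lit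 0), (nat_lit 1262845), (nat_lit 0), (nat_lit 0)]) (PF.cons (PF.leaf (nat_lit 3124429) (nat_lit 334750) (nat_lit 59582026) (nat_lit 2030225) [(nat_lit 334750), (nat_lit 1290452), (nat_lit 0), (nat_lit 0)]) (PF.cons (PF.leaf (nat_lit 3394923) (nat_lit 345928) (nat_lit 59082874) (nat_lit 2064897) [(nat_lit 345928), (nat_lit 1317295), (nat_lit 0), (nat_lit 0)]) (PF.cons PF.nil PF.nil)))) (PF.cons (PF.cons (PF.leaf (nat_lit 3638478) (nat_lit 1349699) (nat_lit 58251035) (nat_lit 2109282) [(nat_lit 0), (nat_lit 1349699), (nat_lit 0), (nat_lit 0)]) (PF.cons PF.nil PF.nil)) (PF.cons PF.nil (PF.cons PF.nil PF.nil)))))))) (PF.cons (PF.cons (PF.cons (PF.leaf (nat_lit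
 1515200) (nat_lit 1720482) (nat_lit 62650089) (nat_lit 1720482) [(nat_lit 0), (nat_lit 0), (nat_lit 2738241), (nat_lit 0)]) (PF.cons (PF.leaf (nat_lit 1688443) (nat_lit 247333) (nat_lit 62316795) (nat_lit 1759863) [(nat_lit 247333), (nat_lit 0), (nat_lit 2784820), (nat_lit 0)]) (PF.cons (PF.leaf (nat_lit 1882952) (nat_lit 262943) (nat_lit 61949107) (nat_lit 1800530) [(nat_lit 262943), (nat_lit 0), (nat_lit 2833287), (nat_lit 0)]) (PF.cons (PF.leaf (nat_lit 2094712) (nat_lit 277619) (nat_lit 61551776) (nat_lit 1841621) [(nat_lit 277619), (nat_lit 0), (nat_lit 2882555), (nat_lit 0)]) (PF.cons (PF.leaf (nat_lit 2322209) (nat_lit 291520) (nat_lit 61128338) (nat_lit 1882544) [(nat_lit 291520), (nat_lit 0), (nat_lit 2931845), (nat_lit 0)]) (PF.cons (PF.leaf (nat_lit 2563971) (nat_lit 304742) (nat_lit 60681639) (nat_lit 1922878) [(nat_lit 304742), (nat_lit 0), (nat_lit 2980580), (nat_lit 0)]) (PF.cons (PF.leaf (nat_lit 2818790) (nat_lit 317346) (nat_lit 60214100) (nat_lit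 1962310) [(nat_lit 317346), (nat_lit 0), (nat_lit 3028323), (nat_lit 0)]) (PF.cons PF.nil (PF.cons PF.nil PF.nil))))))))) (PF.cons (PF.cons (PF.leaf (nat_lit 2119344) (nat_lit 1158694) (nat_lit 61166693) (nat_lit
 1866646) [(nat_lit 0), (nat_lit 1158694), (nat_lit 2916778), (nat_lit 0)]) (PF.cons (PF.leaf (nat_lit 2330150) (nat_lit 289905) (nat_lit 60765298) (nat_lit 1903859) [(nat_lit 289905), (nat_lit 1188457), (nat_lit 2961292), (nat_lit 0)]) (PF.cons (PF.leaf (nat_lit 2558347) (nat_lit 303405) (nat_lit 60336803) (nat_lit 1941133) [(nat_lit 303405), (nat_lit 1218039), (nat_lit 3006023), (nat_lit 0)]) (PF.cons (PF.leaf (nat_lit 2800977) (nat_lit 316175) (nat_lit 59884834) (nat_lit 1977987) [(nat_lit 316175), (nat_lit 1247122), (nat_lit 3050341), (nat_lit 0)]) (PF.cons (PF.leaf (nat_lit 3056707) (nat_lit 328296) (nat_lit 59412271) (nat_lit 2014079) [(nat_lit 328296), (nat_lit 1275490), (nat_lit 3093786), (nat_lit 0)]) (PF.cons PF.nil (PF.cons PF.nil PF.nil)))))))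 (PF.cons (PF.cons (PF.leaf (nat_lit 2798514) (nat_lit 1257569) (nat_lit 59524356) (nat_lit 1995184) [(nat_lit 0), (nat_lit 1257569), (nat_lit 3074132), (nat_lit 0)]) (PF.cons (PF.leaf (nat_lit 3039635) (nat_lit 326536) (nat_lit 59071043) (nat_lit 2028669) [(nat_lit 326536), (nat_lit 1284211), (nat_lit 3114139), (nat_lit 0)]) (PF.cons (PF.leaf (nat_lit 3295023) (nat_lit 338249) (nat_lit 58596763) (nat_lit 2061553) [(nat_lit
 338249), (nat_lit 1310280), (nat_lit 3153434), (nat_lit 0)]) (PF.cons (PF.leaf (nat_lit 3562270) (nat_lit 349336) (nat_lit 58104402) (nat_lit 2093561) [(nat_lit 349336), (nat_lit 1335596), (nat_lit 3191647), (nat_lit 0)]) (PF.cons PF.nil PF.nil))))) (PF.cons (PF.cons (PF.leaf (nat_lit 3534817) (nat_lit 1342315) (nat_lit 57769214) (nat_lit 2105024) [(nat_lit 0), (nat_lit 1342315), (nat_lit 3207626), (nat_lit 0)]) (PF.cons (PF.leaf (nat_lit 3799892) (nat_lit 357939) (nat_lit 57278212) (nat_lit 2134082) [(nat_lit 357939), (nat_lit 1365531), (nat_lit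 3241984), (nat_lit 0)]) (PF.cons (PF.leaf (nat_lit 4076477) (nat_lit 368048) (nat_lit 56771479) (nat_lit 2162193) [(nat_lit 368048), (nat_lit 1387970), (nat_lit 3275132), (nat_lit 0)]) (PF.cons PF.nil PF.nil)))) (PF.cons (PF.cons (PF.leaf (nat_lit 4312357) (nat_lit 1413497) (nat_lit 55941484) (nat_lit 2196389) [(nat_lit 0), (nat_lit 1413497), (nat_lit 3316949), (nat_lit 0)]) (PF.cons PF.nil PF.nil)) (PF.cons PF.nil PF.nil)))))) (PF.cons (PF.cons (PF.cons (PF.leaf (nat_lit 2746003) (nat_lit 1995806) (nat_lit 58946198) (nat_lit 1995806) [(nat_lit 0), (nat_lit 0), (nat_lit 3083403), (nat_lit 0)]) (PF.cons (PF.leaf (nat_lit 2968243) (nat_lit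
 316027) (nat_lit 58526732) (nat_lit 2026928) [(nat_lit 316027), (nat_lit 0), (nat_lit 3119561), (nat_lit 0)]) (PF.cons (PF.leaf (nat_lit 3206821) (nat_lit 328717) (nat_lit 58082179) (nat_lit 2057906) [(nat_lit 328717), (nat_lit 0), (nat_lit 3155646), (nat_lit 0)]) (PF.cons (PF.leaf (nat_lit 3458750) (nat_lit 340559) (nat_lit 57616491) (nat_lit 2088347) [(nat_lit 340559), (nat_lit 0), (nat_lit 3191147), (nat_lit 0)]) (PF.cons (PF.leaf (nat_lit 3722540) (nat_lit 351670) (nat_lit 57132751) (nat_lit 2117976) [(nat_lit 351670), (nat_lit 0), (nat_lit 3225700), (nat_lit 0)]) (PF.cons PF.nil (PF.cons PF.nil PF.nil))))))) (PF.cons (PF.cons (PF.leaf (nat_lit 3444239) (nat_lit 1333990) (nat_lit 57258032) (nat_lit 2100623) [(nat_lit 0), (nat_lit 1333990), (nat_lit 3208082), (nat_lit 0)]) (PF.cons (PF.leaf (nat_lit 3693233) (nat_lit 348876) (nat_lit 56795408) (nat_lit 2128146) [(nat_lit 348876), (nat_lit 1356622), (nat_lit 3239879), (nat_lit 0)]) (PF.cons (PF.leaf (nat_lit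 3955245) (nat_lit 359645) (nat_lit 56314144) (nat_lit 2155004) [(nat_lit 359645), (nat_lit 1378620), (nat_lit 3270876), (nat_lit 0)]) (PF.cons (PF.leaf (nat_lit 4228044) (nat_lit 369728) (nat_lit 55817237) (nat_lit 2180978)
 [(nat_lit 369728), (nat_lit 1399845), (nat_lit 3300782), (nat_lit 0)]) (PF.cons PF.nil PF.nil))))) (PF.cons (PF.cons (PF.leaf (nat_lit 4188651) (nat_lit 1403988) (nat_lit 55489299) (nat_lit 2188642) [(nat_lit 0), (nat_lit 1403988), (nat_lit 3311446), (nat_lit 0)]) (PF.cons (PF.leaf (nat_lit 4458108) (nat_lit 376516) (nat_lit 54997297) (nat_lit 2212082) [(nat_lit 376516), (nat_lit 1423384), (nat_lit 3338073), (nat_lit 0)]) (PF.cons PF.nil (PF.cons PF.nil PF.nil)))) (PF.cons (PF.cons (PF.leaf (nat_lit 4964728) (nat_lit 1461763) (nat_lit 53675917) (nat_lit 2260328) [(nat_lit 0), (nat_lit 1461763), (nat_lit 3393638), (nat_lit 0)]) (PF.cons PF.nil PF.nil)) (PF.cons PF.nil PF.nil))))) (PF.cons (PF.cons (PF.cons (PF.leaf (nat_lit 4078544) (nat_lit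 2180674) (nat_lit 55009375) (nat_lit 2180674) [(nat_lit 0), (nat_lit 0), (nat_lit 3306254), (nat_lit 0)]) (PF.cons (PF.leaf (nat_lit 4332450) (nat_lit 366901) (nat_lit 54545755) (nat_lit 2203049) [(nat_lit 366901), (nat_lit 0), (nat_lit 3331035), (nat_lit 0)]) (PF.cons (PF.leaf (nat_lit 4598349) (nat_lit 376784) (nat_lit 54065613) (nat_lit 2224723) [(nat_lit 376784), (nat_lit 0), (nat_lit 3354968), (nat_lit 0)]) (PF.cons PF.nil (PF.cons PF.nil
 PF.nil))))) (PF.cons (PF.cons (PF.leaf (nat_lit 4823794) (nat_lit 1450821) (nat_lit 53255108) (nat_lit 2250143) [(nat_lit 0), (nat_lit 1450821), (nat_lit 3384246), (nat_lit 0)]) (PF.cons (PF.leaf (nat_lit 5095258) (nat_lit 391170) (nat_lit 52768979) (nat_lit 2268774) [(nat_lit 391170), (nat_lit 1466898), (nat_lit 3404330), (nat_lit 0)]) (PF.cons PF.nil (PF.cons PF.nil PF.nil)))) (PF.cons (PF.cons (PF.leaf (nat_lit 5592957) (nat_lit 1497129) (nat_lit 51478062) (nat_lit 2305210) [(nat_lit 0), (nat_lit 1497129), (nat_lit 3443760),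 (nat_lit 0)]) (PF.cons PF.nil PF.nil)) PF.nil))) (PF.cons (PF.cons (PF.cons (PF.leaf (nat_lit 5437387) (nat_lit 2293370) (nat_lit 51088819) (nat_lit 2293370) [(nat_lit 0), (nat_lit 0), (nat_lit 3431655), (nat_lit 0)]) (PF.cons (PF.leaf (nat_lit 5708987) (nat_lit 402495) (nat_lit 50613545) (nat_lit 2307897) [(nat_lit 402495), (nat_lit 0), (nat_lit 3446218), (nat_lit 0)]) PF.nil)) (PF.cons PF.nil PF.nil)) (PF.cons PF.nil (PF.cons PF.nil (PF.cons PF.nil PF.nil)))))))) (PF.cons (PF.cons (PF.cons (PF.cons (PF.leaf (nat_lit 2783997) (nat_lit 1935961) (nat_lit 55730458) (nat_lit 1935961) [(nat_lit 0), (nat_lit 0), (nat_lit 0), (nat_lit 9442392)]) (PF.cons (PF.leaf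
 (nat_lit 2968135) (nat_lit 283568) (nat_lit 55399701) (nat_lit 1965247) [(nat_lit 283568), (nat_lit 0), (nat_lit 0), (nat_lit 9460294)]) (PF.cons (PF.leaf (nat_lit 3172067) (nat_lit 298684) (nat_lit 55038488) (nat_lit 1994927) [(nat_lit 298684), (nat_lit 0), (nat_lit 0), (nat_lit 9478027)]) (PF.cons (PF.leaf (nat_lit 3391747) (nat_lit 312452) (nat_lit 54652113) (nat_lit 2024374) [(nat_lit 312452), (nat_lit 0), (nat_lit 0), (nat_lit 9494965)]) (PF.cons (PF.leaf (nat_lit 3625133) (nat_lit 325125) (nat_lit 54244482) (nat_lit 2053191) [(nat_lit 325125), (nat_lit 0), (nat_lit 0), (nat_lit 9510635)]) (PF.cons (PF.leaf (nat_lit 3870706) (nat_lit 336871) (nat_lit 53818671) (nat_lit 2081113) [(nat_lit 336871), (nat_lit 0), (nat_lit 0), (nat_lit 9524668)]) (PF.cons (PF.leaf (nat_lit 4127081) (nat_lit 347807) (nat_lit 53377221) (nat_lit 2107962) [(nat_lit 347807), (nat_lit 0), (nat_lit 0), (nat_lit 9536780)]) (PF.cons (PF.leaf (nat_lit 4393131) (nat_lit 358020) (nat_lit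 52922294) (nat_lit 2133622) [(nat_lit 358020), (nat_lit 0), (nat_lit 0), (nat_lit 9546748)]) (PF.cons PF.nil (PF.cons PF.nil PF.nil)))))))))) (PF.cons (PF.cons (PF.leaf (nat_lit 3396378) (nat_lit 1277518) (nat_lit 54290282)
 (nat_lit 2037841) [(nat_lit 0), (nat_lit 1277518), (nat_lit 0), (nat_lit 9503170)]) (PF.cons (PF.leaf (nat_lit 3612405) (nat_lit 321156) (nat_lit 53906875) (nat_lit 2064038) [(nat_lit 321156), (nat_lit 1300596), (nat_lit 0), (nat_lit 9516146)]) (PF.cons (PF.leaf (nat_lit 3843797) (nat_lit 333429) (nat_lit 53501169) (nat_lit 2089855) [(nat_lit 333429), (nat_lit 1323095), (nat_lit 0), (nat_lit 9527833)]) (PF.cons (PF.leaf (nat_lit 4087727) (nat_lit 344742) (nat_lit 53076923) (nat_lit 2114974) [(nat_lit 344742), (nat_lit 1344813), (nat_lit 0), (nat_lit 9537873)]) (PF.cons (PF.leaf (nat_lit 4342592) (nat_lit 355233) (nat_lit 52637060) (nat_lit 2139185) [(nat_lit 355233), (nat_lit 1365633), (nat_lit 0), (nat_lit 9545999)]) (PF.cons (PF.leaf (nat_lit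 4607142) (nat_lit 364999) (nat_lit 52183968) (nat_lit 2162351) [(nat_lit 364999), (nat_lit 1385484), (nat_lit 0), (nat_lit 9552009)]) (PF.cons (PF.leaf (nat_lit 4880293) (nat_lit 374114) (nat_lit 51719664) (nat_lit 2184377) [(nat_lit 374114), (nat_lit 1404328), (nat_lit 0), (nat_lit 9555753)]) (PF.cons PF.nil (PF.cons PF.nil PF.nil))))))))) (PF.cons (PF.cons (PF.leaf (nat_lit 4064600) (nat_lit 1349135) (nat_lit 52749021) (nat_lit 2123022)
 [(nat_lit 0), (nat_lit 1349135), (nat_lit 0), (nat_lit 9538498)]) (PF.cons (PF.leaf (nat_lit 4304873) (nat_lit 351661) (nat_lit 52329325) (nat_lit 2145503) [(nat_lit 351661), (nat_lit 1368800), (nat_lit 0), (nat_lit 9544720)]) (PF.cons (PF.leaf (nat_lit 4557333) (nat_lit 361802) (nat_lit 51893457) (nat_lit 2167244) [(nat_lit 361802), (nat_lit 1387724), (nat_lit 0), (nat_lit 9549056)]) (PF.cons (PF.leaf (nat_lit 4819647) (nat_lit 371197) (nat_lit 51444205) (nat_lit 2188077) [(nat_lit 371197), (nat_lit 1405808), (nat_lit 0), (nat_lit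 9551319)]) (PF.cons (PF.leaf (nat_lit 5090623) (nat_lit 379932) (nat_lit 50983822) (nat_lit 2207892) [(nat_lit 379932), (nat_lit 1422994), (nat_lit 0), (nat_lit 9551377)]) (PF.cons PF.nil (PF.cons PF.nil PF.nil))))))) (PF.cons (PF.cons (PF.leaf (nat_lit 4772475) (nat_lit 1407711) (nat_lit 51147099) (nat_lit 2192389) [(nat_lit 0), (nat_lit 1407711), (nat_lit 0), (nat_lit 9546191)]) (PF.cons (PF.leaf (nat_lit 5031021) (nat_lit 376641) (nat_lit 50703792) (nat_lit 2211028) [(nat_lit 376641), (nat_lit 1424135), (nat_lit 0), (nat_lit 9544945)]) (PF.cons (PF.leaf (nat_lit 5299171) (nat_lit 385061) (nat_lit 50249061) (nat_lit 2228770) [(nat_lit 385061),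
 (nat_lit 1439766), (nat_lit 0), (nat_lit 9541558)]) (PF.cons (PF.leaf (nat_lit 5575000) (nat_lit 392872) (nat_lit 49785034) (nat_lit 2245530) [(nat_lit 392872), (nat_lit 1454558), (nat_lit 0), (nat_lit 9535953)]) (PF.cons PF.nil PF.nil))))) (PF.cons (PF.cons (PF.leaf (nat_lit 5506922) (nat_lit 1454784) (nat_lit 49515908) (nat_lit 2247198) [(nat_lit 0), (nat_lit 1454784), (nat_lit 0), (nat_lit 9526569)]) (PF.cons (PF.leaf (nat_lit 5778837) (nat_lit 397058) (nat_lit 49058985) (nat_lit 2262112) [(nat_lit 397058), (nat_lit 1468200), (nat_lit 0), (nat_lit 9517853)]) (PF.cons (PF.leaf (nat_lit 6058223) (nat_lit 404035) (nat_lit 48594370) (nat_lit 2276086) [(nat_lit 404035), (nat_lit 1480831), (nat_lit 0), (nat_lit 9506961)]) (PF.cons PF.nil PF.nil)))) (PF.cons (PF.cons (PF.leaf (nat_lit 6257224) (nat_lit 1491703) (nat_lit 47879994) (nat_lit 2288854) [(nat_lit 0), (nat_lit 1491703), (nat_lit 0), (nat_lit 9481448)]) (PF.cons PF.nil PF.nil)) (PF.cons PF.nil (PF.cons PF.nil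 PF.nil)))))))) (PF.cons (PF.cons (PF.cons (PF.leaf (nat_lit 3976889) (nat_lit 2112149) (nat_lit 52249523) (nat_lit 2112149) [(nat_lit 0), (nat_lit 0), (nat_lit 3227306), (nat_lit 9519833)]) (PF.cons (PF.leaf (nat_lit
 4199102) (nat_lit 338838) (nat_lit 51862987) (nat_lit 2133652) [(nat_lit 338838), (nat_lit 0), (nat_lit 3249344), (nat_lit 9523989)]) (PF.cons (PF.leaf (nat_lit 4435769) (nat_lit 350273) (nat_lit 51456039) (nat_lit 2154703) [(nat_lit 350273), (nat_lit 0), (nat_lit 3270962), (nat_lit 9526561)]) (PF.cons (PF.leaf (nat_lit 4684040) (nat_lit 360695) (nat_lit 51032508) (nat_lit 2175047) [(nat_lit 360695), (nat_lit 0), (nat_lit 3291845), (nat_lit 9527324)]) (PF.cons (PF.leaf (nat_lit 4942284) (nat_lit 370266) (nat_lit 50595328) (nat_lit 2194521) [(nat_lit 370266), (nat_lit 0), (nat_lit 3311781), (nat_lit 9526115)]) (PF.cons (PF.leaf (nat_lit 5209243) (nat_lit 379099) (nat_lit 50146855) (nat_lit 2213018) [(nat_lit 379099), (nat_lit 0), (nat_lit 3330619),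 (nat_lit 9522819)]) (PF.cons (PF.leaf (nat_lit 5483845) (nat_lit 387280) (nat_lit 49689047) (nat_lit 2230470) [(nat_lit 387280), (nat_lit 0), (nat_lit 3348257), (nat_lit 9517357)]) (PF.cons PF.nil (PF.cons PF.nil PF.nil))))))))) (PF.cons (PF.cons (PF.leaf (nat_lit 4650928) (nat_lit 1393993) (nat_lit 50715212) (nat_lit 2179953) [(nat_lit 0), (nat_lit 1393993), (nat_lit 3298320), (nat_lit 9521333)]) (PF.cons (PF.leaf (nat_lit 4894687)
 (nat_lit 366040) (nat_lit 50298693) (nat_lit 2198070) [(nat_lit 366040), (nat_lit 1410524), (nat_lit 3316583), (nat_lit 9518899)]) (PF.cons (PF.leaf (nat_lit 5149654) (nat_lit 375339) (nat_lit 49867802) (nat_lit 2215457) [(nat_lit 375339), (nat_lit 1426325), (nat_lit 3334024), (nat_lit 9514524)]) (PF.cons (PF.leaf (nat_lit 5413622) (nat_lit 383873) (nat_lit 49425295) (nat_lit 2231985) [(nat_lit 383873), (nat_lit 1441322), (nat_lit 3350477), (nat_lit 9508111)]) (PF.cons (PF.leaf (nat_lit 5685373) (nat_lit 391741) (nat_lit 48973369)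 (nat_lit 2247570) [(nat_lit 391741), (nat_lit 1455476), (nat_lit 3365831), (nat_lit 9499597)]) (PF.cons PF.nil (PF.cons PF.nil PF.nil))))))) (PF.cons (PF.cons (PF.leaf (nat_lit 5357196) (nat_lit 1441619) (nat_lit 49140572) (nat_lit 2233964) [(nat_lit 0), (nat_lit 1441619), (nat_lit 3353126), (nat_lit 9497910)]) (PF.cons (PF.leaf (nat_lit 5616782) (nat_lit 387986) (nat_lit 48705816) (nat_lit 2248639) [(nat_lit 387986), (nat_lit 1455200), (nat_lit 3367336), (nat_lit 9488631)]) (PF.cons (PF.leaf (nat_lit 5885074) (nat_lit 395602) (nat_lit 48261212) (nat_lit 2262475) [(nat_lit 395602), (nat_lit 1468031), (nat_lit 3380548), (nat_lit 9477309)]) (PF.cons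
 (PF.leaf (nat_lit 6160299) (nat_lit 402609) (nat_lit 47808811) (nat_lit 2275409) [(nat_lit 402609), (nat_lit 1480078), (nat_lit 3392681), (nat_lit 9463924)]) (PF.cons PF.nil PF.nil))))) (PF.cons (PF.cons (PF.leaf (nat_lit 6083872) (nat_lit 1479112) (nat_lit 47552809) (nat_lit 2275335) [(nat_lit 0), (nat_lit 1479112), (nat_lit 3392593), (nat_lit 9450734)]) (PF.cons (PF.leaf (nat_lit 6354707) (nat_lit 405665) (nat_lit 47108788) (nat_lit 2286714) [(nat_lit 405665), (nat_lit 1489989), (nat_lit 3402812), (nat_lit 9434862)]) (PF.cons PF.nil (PF.cons PF.nil PF.nil)))) (PF.cons (PF.cons (PF.leaf (nat_lit 6821495) (nat_lit 1507712) (nat_lit 45972619) (nat_lit 2305348) [(nat_lit 0), (nat_lit 1507712), (nat_lit 3418040), (nat_lit 9381955)]) (PF.cons PF.nil PF.nil)) (PF.cons PF.nil PF.nil)))))) (PF.cons (PF.cons (PF.cons (PF.leaf (nat_lit 5221673) (nat_lit 2220265) (nat_lit 48741285) (nat_lit 2220265) [(nat_lit 0), (nat_lit 0), (nat_lit 3339601), (nat_lit 9468058)]) (PF.cons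 (PF.leaf (nat_lit 5467130) (nat_lit 377346) (nat_lit 48332246) (nat_lit 2234671) [(nat_lit 377346), (nat_lit 0), (nat_lit 3353104), (nat_lit 9458339)]) (PF.cons (PF.leaf (nat_lit 5722978) (nat_lit 385879) (nat_lit
 47910414) (nat_lit 2248363) [(nat_lit 385879), (nat_lit 0), (nat_lit 3365793), (nat_lit 9446689)]) (PF.cons (PF.leaf (nat_lit 5987043) (nat_lit 393639) (nat_lit 47478478) (nat_lit 2261245) [(nat_lit 393639), (nat_lit 0), (nat_lit 3377545), (nat_lit 9433080)]) (PF.cons (PF.leaf (nat_lit 6258095) (nat_lit 400733) (nat_lit 47038556) (nat_lit 2273254) [(nat_lit 400733), (nat_lit 0), (nat_lit 3388280), (nat_lit 9417506)]) PF.nil))))) (PF.cons (PF.cons (PF.leaf (nat_lit 5922348) (nat_lit 1465694) (nat_lit 47207399) (nat_lit 2261379) [(nat_lit 0), (nat_lit 1465694), (nat_lit 3377688), (nat_lit 9418962)]) (PF.cons (PF.leaf (nat_lit 6181554) (nat_lit 396625) (nat_lit 46784447) (nat_lit 2272696) [(nat_lit 396625), (nat_lit 1476837), (nat_lit 3387565), (nat_lit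 9403074)]) (PF.cons (PF.leaf (nat_lit 6448729) (nat_lit 403522) (nat_lit 46352973) (nat_lit 2283230) [(nat_lit 403522), (nat_lit 1487270), (nat_lit 3396513), (nat_lit 9385266)]) (PF.cons PF.nil PF.nil)))) (PF.cons (PF.cons (PF.leaf (nat_lit 6638449) (nat_lit 1495076) (nat_lit 45672610) (nat_lit 2291495) [(nat_lit 0), (nat_lit 1495076), (nat_lit 3402520), (nat_lit 9349511)]) (PF.cons (PF.leaf (nat_lit 6907160) (nat_lit 411918) (nat_lit
 45243775) (nat_lit 2299894) [(nat_lit 411918), (nat_lit 1503786), (nat_lit 3408892), (nat_lit 9327867)]) PF.nil)) (PF.cons PF.nil (PF.cons PF.nil PF.nil))))) (PF.cons (PF.cons (PF.cons (PF.leaf (nat_lit 6467046) (nat_lit 2277176) (nat_lit 45355479) (nat_lit 2277176) [(nat_lit 0), (nat_lit 0), (nat_lit 3386750), (nat_lit 9315904)]) (PF.cons (PF.leaf (nat_lit 6724779) (nat_lit 402985) (nat_lit 44946519) (nat_lit 2285650) [(nat_lit 402985), (nat_lit 0), (nat_lit 3392998), (nat_lit 9294661)]) (PF.cons (PF.leaf (nat_lit 6989835) (nat_lit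 409241) (nat_lit 44530157) (nat_lit 2293395) [(nat_lit 409241), (nat_lit 0), (nat_lit 3398381), (nat_lit 9271633)]) (PF.cons PF.nil PF.nil)))) (PF.cons (PF.cons (PF.leaf (nat_lit 7170577) (nat_lit 1504144) (nat_lit 43879676) (nat_lit 2297874) [(nat_lit 0), (nat_lit 1504144), (nat_lit 3399462), (nat_lit 9228731)]) (PF.cons PF.nil PF.nil)) (PF.cons PF.nil PF.nil))) (PF.cons (PF.cons (PF.cons (PF.leaf (nat_lit 7680633) (nat_lit 2296291) (nat_lit 42175474) (nat_lit 2296291) [(nat_lit 0), (nat_lit 0), (nat_lit 3385956), (nat_lit 9093219)]) (PF.cons PF.nil PF.nil)) (PF.cons PF.nil PF.nil)) (PF.cons PF.nil PF.nil)))))) (PF.cons (PF.cons (PF.cons (PF.cons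
 (PF.leaf (nat_lit 5034486) (nat_lit 2138131) (nat_lit 46497935) (nat_lit 2138131) [(nat_lit 0), (nat_lit 0), (nat_lit 0), (nat_lit 9236373)]) (PF.cons (PF.leaf (nat_lit 5251440) (nat_lit 347228) (nat_lit 46156546) (nat_lit 2153278) [(nat_lit 347228), (nat_lit 0), (nat_lit 0), (nat_lit 9225879)]) (PF.cons (PF.leaf (nat_lit 5481452) (nat_lit 357599) (nat_lit 45798445) (nat_lit 2167837) [(nat_lit 357599), (nat_lit 0), (nat_lit 0), (nat_lit 9213665)]) (PF.cons (PF.leaf (nat_lit 5721674) (nat_lit 366883) (nat_lit 45427079) (nat_lit 2181643) [(nat_lit 366883), (nat_lit 0), (nat_lit 0), (nat_lit 9199718)]) (PF.cons (PF.leaf (nat_lit 5970552) (nat_lit 375268) (nat_lit 45045060) (nat_lit 2194603) [(nat_lit 375268), (nat_lit 0), (nat_lit 0), (nat_lit 9184036)]) (PF.cons (PF.leaf (nat_lit 6226842) (nat_lit 382887) (nat_lit 44654456) (nat_lit 2206662) [(nat_lit 382887), (nat_lit 0), (nat_lit 0), (nat_lit 9166628)]) (PF.cons (PF.leaf (nat_lit 6489516) (nat_lit 389840) (nat_lit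 44256959) (nat_lit 2217793) [(nat_lit 389840), (nat_lit 0), (nat_lit 0), (nat_lit 9147509)]) (PF.cons PF.nil (PF.cons PF.nil PF.nil))))))))) (PF.cons (PF.cons (PF.leaf (nat_lit 5676053) (nat_lit 1403385) (nat_lit
 45154880) (nat_lit 2182279) [(nat_lit 0), (nat_lit 1403385), (nat_lit 0), (nat_lit 9184134)]) (PF.cons (PF.leaf (nat_lit 5911059) (nat_lit 370268) (nat_lit 44791558) (nat_lit 2194373) [(nat_lit 370268), (nat_lit 1415806), (nat_lit 0), (nat_lit 9168402)]) (PF.cons (PF.leaf (nat_lit 6155973) (nat_lit 378445) (nat_lit 44416830) (nat_lit 2205745) [(nat_lit 378445), (nat_lit 1427479), (nat_lit 0), (nat_lit 9150932)]) (PF.cons (PF.leaf (nat_lit 6408662) (nat_lit 385833) (nat_lit 44033107) (nat_lit 2216321) [(nat_lit 385833), (nat_lit 1438373), (nat_lit 0), (nat_lit 9131755)]) (PF.cons (PF.leaf (nat_lit 6667928) (nat_lit 392543) (nat_lit 43642288) (nat_lit 2226062) [(nat_lit 392543), (nat_lit 1448478), (nat_lit 0), (nat_lit 9110905)]) (PF.cons PF.nil (PF.cons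 PF.nil PF.nil))))))) (PF.cons (PF.cons (PF.leaf (nat_lit 6341475) (nat_lit 1436491) (nat_lit 43791290) (nat_lit 2215121) [(nat_lit 0), (nat_lit 1436491), (nat_lit 0), (nat_lit 9114709)]) (PF.cons (PF.leaf (nat_lit 6589310) (nat_lit 388234) (nat_lit 43415748) (nat_lit 2224320) [(nat_lit 388234), (nat_lit 1446276), (nat_lit 0), (nat_lit 9093977)]) (PF.cons (PF.leaf (nat_lit 6844747) (nat_lit 394761) (nat_lit 43032617) (nat_lit
 2232772) [(nat_lit 394761), (nat_lit 1455358), (nat_lit 0), (nat_lit 9071591)]) (PF.cons (PF.leaf (nat_lit 7106049) (nat_lit 400680) (nat_lit 42643649) (nat_lit 2240447) [(nat_lit 400680), (nat_lit 1463729), (nat_lit 0), (nat_lit 9047607)]) (PF.cons PF.nil PF.nil))))) (PF.cons (PF.cons (PF.leaf (nat_lit 7020909) (nat_lit 1461160) (nat_lit 42427873) (nat_lit 2238034) [(nat_lit 0), (nat_lit 1461160), (nat_lit 0), (nat_lit 9029712)]) (PF.cons (PF.leaf (nat_lit 7277618) (nat_lit 402272) (nat_lit 42047185) (nat_lit 2244584) [(nat_lit 402272),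 (nat_lit 1468643), (nat_lit 0), (nat_lit 9004419)]) (PF.cons PF.nil (PF.cons PF.nil PF.nil)))) (PF.cons (PF.cons (PF.leaf (nat_lit 7706783) (nat_lit 1478684) (nat_lit 41079596) (nat_lit 2252301) [(nat_lit 0), (nat_lit 1478684), (nat_lit 0), (nat_lit 8931088)]) (PF.cons PF.nil PF.nil)) (PF.cons PF.nil PF.nil)))))) (PF.cons (PF.cons (PF.cons (PF.leaf (nat_lit 6191400) (nat_lit 2199254) (nat_lit 43464048) (nat_lit 2199254) [(nat_lit 0), (nat_lit 0), (nat_lit 3286927), (nat_lit 9079291)]) (PF.cons (PF.leaf (nat_lit 6426435) (nat_lit 377363) (nat_lit 43110671) (nat_lit 2208619) [(nat_lit 377363), (nat_lit 0), (nat_lit 3293655), (nat_lit 9059251)])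
 (PF.cons (PF.leaf (nat_lit 6670712) (nat_lit 384882) (nat_lit 42747066) (nat_lit 2217301) [(nat_lit 384882), (nat_lit 0), (nat_lit 3299631), (nat_lit 9037524)]) (PF.cons (PF.leaf (nat_lit 6922180) (nat_lit 391619) (nat_lit 42375552) (nat_lit 2225247) [(nat_lit 391619), (nat_lit 0), (nat_lit 3304794), (nat_lit 9014180)]) (PF.cons (PF.leaf (nat_lit 7179660) (nat_lit 397691) (nat_lit 41997936) (nat_lit 2232431) [(nat_lit 397691), (nat_lit 0), (nat_lit 3309108), (nat_lit 8989285)]) PF.nil))))) (PF.cons (PF.cons (PF.leaf (nat_lit 6848681) (nat_lit 1447084) (nat_lit 42146751) (nat_lit 2222923) [(nat_lit 0), (nat_lit 1447084), (nat_lit 3301599), (nat_lit 8995227)]) (PF.cons (PF.leaf (nat_lit 7095012) (nat_lit 393189) (nat_lit 41783968) (nat_lit 2229717) [(nat_lit 393189), (nat_lit 1455037), (nat_lit 3305469), (nat_lit 8970714)]) (PF.cons (PF.leaf (nat_lit 7348398) (nat_lit 399127) (nat_lit 41414529) (nat_lit 2235822) [(nat_lit 399127), (nat_lit 1462334), (nat_lit 3308555),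 (nat_lit 8944658)]) (PF.cons PF.nil PF.nil)))) (PF.cons (PF.cons (PF.leaf (nat_lit 7516612) (nat_lit 1465864) (nat_lit 40836676) (nat_lit 2238009) [(nat_lit 0), (nat_lit 1465864), (nat_lit 3306494), (nat_lit 8897951)])
 (PF.cons (PF.leaf (nat_lit 7770576) (nat_lit 405376) (nat_lit 40470811) (nat_lit 2242468) [(nat_lit 405376), (nat_lit 1471758), (nat_lit 3307701), (nat_lit 8869469)]) PF.nil)) (PF.cons PF.nil (PF.cons PF.nil PF.nil))))) (PF.cons (PF.cons (PF.cons (PF.leaf (nat_lit 7337667) (nat_lit 2223160) (nat_lit 40579032) (nat_lit 2223160) [(nat_lit 0), (nat_lit 0), (nat_lit 3289803), (nat_lit 8863506)]) (PF.cons (PF.leaf (nat_lit 7581853) (nat_lit 396541) (nat_lit 40229900) (nat_lit 2227927) [(nat_lit 396541), (nat_lit 0), (nat_lit 3291217), (nat_lit 8836004)]) (PF.cons (PF.leaf (nat_lit 7832598) (nat_lit 401955) (nat_lit 39874898) (nat_lit 2232058) [(nat_lit 401955), (nat_lit 0), (nat_lit 3291907), (nat_lit 8807065)]) (PF.cons PF.nil PF.nil)))) (PF.cons (PF.cons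 (PF.leaf (nat_lit 7993078) (nat_lit 1466003) (nat_lit 39324163) (nat_lit 2231723) [(nat_lit 0), (nat_lit 1466003), (nat_lit 3286711), (nat_lit 8756749)]) (PF.cons (PF.leaf (nat_lit 8243844) (nat_lit 407120) (nat_lit 38973529) (nat_lit 2234426) [(nat_lit 407120), (nat_lit 1470543), (nat_lit 3285788), (nat_lit 8725807)]) PF.nil)) (PF.cons PF.nil PF.nil))) (PF.cons (PF.cons (PF.cons (PF.leaf (nat_lit 8450922) (nat_lit 2220373) (nat_lit
 37888879) (nat_lit 2220373) [(nat_lit 0), (nat_lit 0), (nat_lit 3260589), (nat_lit 8608896)]) (PF.cons PF.nil PF.nil)) (PF.cons PF.nil PF.nil)) (PF.cons PF.nil PF.nil))))) (PF.cons (PF.cons (PF.cons (PF.cons (PF.leaf (nat_lit 7028584) (nat_lit 2147342) (nat_lit 39050208) (nat_lit 2147342) [(nat_lit 0), (nat_lit 0), (nat_lit 0), (nat_lit 8637087)]) (PF.cons (PF.leaf (nat_lit 7252923) (nat_lit 371742) (nat_lit 38746596) (nat_lit 2153449) [(nat_lit 371742), (nat_lit 0), (nat_lit 0), (nat_lit 8612341)]) (PF.cons (PF.leaf (nat_lit 7485711)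 (nat_lit 378477) (nat_lit 38434588) (nat_lit 2158918) [(nat_lit 378477), (nat_lit 0), (nat_lit 0), (nat_lit 8586116)]) (PF.cons (PF.leaf (nat_lit 7724846) (nat_lit 384441) (nat_lit 38116168) (nat_lit 2163724) [(nat_lit 384441), (nat_lit 0), (nat_lit 0), (nat_lit 8558532)]) (PF.cons PF.nil PF.nil))))) (PF.cons (PF.cons (PF.leaf (nat_lit 7646197) (nat_lit 1411481) (nat_lit 37923274) (nat_lit 2160081) [(nat_lit 0), (nat_lit 1411481), (nat_lit 0), (nat_lit 8537992)]) (PF.cons (PF.leaf (nat_lit 7880215) (nat_lit 385101) (nat_lit 37612740) (nat_lit 2164020) [(nat_lit 385101), (nat_lit 1417313), (nat_lit 0), (nat_lit 8509879)]) (PF.cons (PF.leaf (nat_lit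
 8120570) (nat_lit 390326) (nat_lit 37296796) (nat_lit 2167350) [(nat_lit 390326), (nat_lit 1422544), (nat_lit 0), (nat_lit 8480489)]) (PF.cons PF.nil PF.nil)))) (PF.cons (PF.cons (PF.leaf (nat_lit 8271642) (nat_lit 1423463) (nat_lit 36805790) (nat_lit 2165968) [(nat_lit 0), (nat_lit 1423463), (nat_lit 0), (nat_lit 8430042)]) (PF.cons (PF.leaf (nat_lit 8512043) (nat_lit 395132) (nat_lit 36493406) (nat_lit 2167996) [(nat_lit 395132), (nat_lit 1427528), (nat_lit 0), (nat_lit 8399073)]) PF.nil)) (PF.cons PF.nil (PF.cons PF.nil PF.nil))))) (PF.cons (PF.cons (PF.cons (PF.leaf (nat_lit 8090093) (nat_lit 2151500) (nat_lit 36595406) (nat_lit 2151500) [(nat_lit 0), (nat_lit 0), (nat_lit 3170140), (nat_lit 8397254)]) (PF.cons (PF.leaf (nat_lit 8321692) (nat_lit 386597) (nat_lit 36297027) (nat_lit 2153952) [(nat_lit 386597), (nat_lit 0), (nat_lit 3168729), (nat_lit 8367502)]) (PF.cons (PF.leaf (nat_lit 8559256) (nat_lit 391386) (nat_lit 35993816) (nat_lit 2155844) [(nat_lit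 391386), (nat_lit 0), (nat_lit 3166698), (nat_lit 8336560)]) (PF.cons PF.nil PF.nil)))) (PF.cons (PF.cons (PF.leaf (nat_lit 8703721) (nat_lit 1418486) (nat_lit 35526103) (nat_lit 2152740) [(nat_lit 0), (nat_lit 1418486),
 (nat_lit 3158127), (nat_lit 8284451)]) (PF.cons PF.nil PF.nil)) (PF.cons PF.nil PF.nil))) (PF.cons (PF.cons (PF.cons (PF.leaf (nat_lit 9120023) (nat_lit 2136224) (nat_lit 34311260) (nat_lit 2136224) [(nat_lit 0), (nat_lit 0), (nat_lit 3125883), (nat_lit 8136520)]) (PF.cons PF.nil PF.nil)) (PF.cons PF.nil PF.nil)) PF.nil))) (PF.cons (PF.cons (PF.cons (PF.cons (PF.leaf (nat_lit 8752915) (nat_lit 2072896) (nat_lit 33252059) (nat_lit 2072896) [(nat_lit 0), (nat_lit 0), (nat_lit 0), (nat_lit 7945964)]) (PF.cons (PF.leaf (nat_lit 8973002) (nat_lit 375031) (nat_lit 32995760) (nat_lit 2073879) [(nat_lit 375031), (nat_lit 0), (nat_lit 0), (nat_lit 7916035)]) (PF.cons PF.nil PF.nil))) (PF.cons (PF.cons (PF.leaf (nat_lit 9330219) (nat_lit 1367498) (nat_lit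 32335674) (nat_lit 2069691) [(nat_lit 0), (nat_lit 1367498), (nat_lit 0), (nat_lit 7833986)]) PF.nil) PF.nil)) (PF.cons PF.nil PF.nil)) (PF.cons PF.nil (PF.cons PF.nil (PF.cons PF.nil (PF.cons PF.nil PF.nil)))))))))

def p12_11_0_0 : pfC (piC [(nat_lit 41351667), (nat_lit 26310893), (nat_lit 19519284), (nat_lit 13318063)] (nat_lit 28134109)) p12_11_0 (nat_lit 4) (nat_lit 0) (nat_lit 1) = true := by decide +kernel
def p12_11_0_1 : pfC (piC [(nat_lit 41351667), (nat_lit 26310893), (nat_lit 19519284), (nat_lit 13318063)] (nat_lit 28134109)) p12_11_0 (nat_lit 4) (nat_lit 1) (nat_lit 2) = true := by decide +kernel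
def p12_11_0_2 : pfC (piC [(nat_lit 41351667), (nat_lit 26310893), (nat_lit 19519284), (nat_lit 13318063)] (nat_lit 28134109)) p12_11_0 (nat_lit 4) (nat_lit 2) (nat_lit 3) = true := by decide +kernel
def p12_11_0_3 : pfC (piC [(nat_lit 41351667), (nat_lit 26310893), (nat_lit 19519284), (nat_lit 13318063)] (nat_lit 28134109)) p12_11_0 (nat_lit 4) (nat_lit 3) (nat_lit 4) = true := by decide +kernel
def p12_11_0_4 : pfC (piC [(nat_lit 41351667), (nat_lit 26310893), (nat_lit 19519284), (nat_lit 13318063)] (nat_lit 28134109)) p12_11_0 (nat_lit 4) (nat_lit 4) (nat_lit 5) = true := by decide +kernel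
def p12_11_0_5 : pfC (piC [(nat_lit 41351667), (nat_lit 26310893), (nat_lit 19519284), (nat_lit 13318063)] (nat_lit 28134109)) p12_11_0 (nat_lit 4) (nat_lit 5) (nat_lit 6) = true := by decide +kernel
def p12_11_0_6 : pfC (piC [(nat_lit 41351667), (nat_lit 26310893), (nat_lit 19519284), (nat_lit 13318063)] (nat_lit 28134109)) p12_11_0 (nat_lit 4) (nat_lit 6) (nat_lit 7) = true := by decide +kernel
def p12_11_0_7 : pfC (piC [(nat_lit 41351667), (nat_lit 26310893), (nat_lit 19519284), (nat_lit 13318063)] (nat_lit 28134109)) p12_11_0 (nat_lit 4) (nat_lit 7) (nat_lit 8) = true := by decide +kernel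
def p12_11_0_8 : pfC (piC [(nat_lit 41351667), (nat_lit 26310893), (nat_lit 19519284), (nat_lit 13318063)] (nat_lit 28134109)) p12_11_0 (nat_lit 4) (nat_lit 8) (nat_lit 9) = true := by decide +kernel
def p12_11_0_9 : pfC (piC [(nat_lit 41351667), (nat_lit 26310893), (nat_lit 19519284), (nat_lit 13318063)] (nat_lit 28134109)) p12_11_0 (nat_lit 4) (nat_lit 9) (nat_lit 10) = true := by decide +kernel
def p12_11_0_10 : pfC (piC [(nat_lit 41351667), (nat_lit 26310893), (nat_lit 19519284), (nat_lit 13318063)] (nat_lit 28134109)) p12_11_0 (nat_lit 4) (nat_lit 10) (nat_lit 11) = true := by decide +kernel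
def p12_11_0_11 : pfC (piC [(nat_lit 41351667), (nat_lit 26310893), (nat_lit 19519284), (nat_lit 13318063)] (nat_lit 28134109)) p12_11_0 (nat_lit 4) (nat_lit 11) (nat_lit 12) = true := by decide +kernel
def p12_11_0_12 : pfC (piC [(nat_lit 41351667), (nat_lit 26310893), (nat_lit 19519284), (nat_lit 13318063)] (nat_lit 28134109)) p12_11_0 (nat_lit 4) (nat_lit 12) (nat_lit 13) = true := by decide +kernel
def p12_11_0_13 : pfC (piC [(nat_lit 41351667), (nat_lit 26310893), (nat_lit 19519284), (nat_lit 13318063)] (nat_lit 28134109)) p12_11_0 (nat_lit 4) (nat_lit 13) (nat_lit 14) = true := by decide +kernel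
def p12_11_0_14 : pfC (piC [(nat_lit 41351667), (nat_lit 26310893), (nat_lit 19519284), (nat_lit 13318063)] (nat_lit 28134109)) p12_11_0 (nat_lit 4) (nat_lit 14) (nat_lit 15) = true := by decide +kernel
def p12_11_0_15 : pfC (piC [(nat_lit 41351667), (nat_lit 26310893), (nat_lit 19519284), (nat_lit 13318063)] (nat_lit 28134109)) p12_11_0 (nat_lit 4) (nat_lit 15) (nat_lit 16) = true := by decide +kernel
def p12_11_0_16 : pfC (piC [(nat_lit 41351667), (nat_lit 26310893), (nat_lit 19519284), (nat_lit 13318063)] (nat_lit 28134109)) p12_11_0 (nat_lit 4) (nat_lit 16) (nat_lit 17) = true := by decide +kernel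
def p12_11_0_17 : pfC (piC [(nat_lit 41351667), (nat_lit 26310893), (nat_lit 19519284), (nat_lit 13318063)] (nat_lit 28134109)) p12_11_0 (nat_lit 4) (nat_lit 17) (nat_lit 18) = true := by decide +kernel
def p12_11_0_18 : pfC (piC [(nat_lit 41351667), (nat_lit 26310893), (nat_lit 19519284), (nat_lit 13318063)] (nat_lit 28134109)) p12_11_0 (nat_lit 4) (nat_lit 18) (nat_lit 19) = true := by decide +kernel
def p12_11_0_19 : pfC (piC [(nat_lit 41351667), (nat_lit 26310893), (nat_lit 19519284), (nat_lit 13318063)] (nat_lit 28134109)) p12_11_0 (nat_lit 4) (nat_lit 19) (nat_lit 20) = true := by decide +kernel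
def p12_11_0_20 : pfC (piC [(nat_lit 41351667), (nat_lit 26310893), (nat_lit 19519284), (nat_lit 13318063)] (nat_lit 28134109)) p12_11_0 (nat_lit 4) (nat_lit 20) (nat_lit 21) = true := by decide +kernel
def p12_11_0_21 : pfC (piC [(nat_lit 41351667), (nat_lit 26310893), (nat_lit 19519284), (nat_lit 13318063)] (nat_lit 28134109)) p12_11_0 (nat_lit 4) (nat_lit 21) (nat_lit 22) = true := by decide +kernel
def p12_11_0_22 : pfC (piC [(nat_lit 41351667), (nat_lit 26310893), (nat_lit 19519284), (nat_lit 13318063)] (nat_lit 28134109)) p12_11_0 (nat_lit 4) (nat_lit 22) (nat_lit 23) = true := by decide +kernel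
def p12_11_0_23 : pfC (piC [(nat_lit 41351667), (nat_lit 26310893), (nat_lit 19519284), (nat_lit 13318063)] (nat_lit 28134109)) p12_11_0 (nat_lit 4) (nat_lit 23) (nat_lit 24) = true := by decide +kernel
def p12_11_0_24 : pfC (piC [(nat_lit 41351667), (nat_lit 26310893), (nat_lit 19519284), (nat_lit 13318063)] (nat_lit 28134109)) p12_11_0 (nat_lit 4) (nat_lit 24) (nat_lit 25) = true := by decide +kernel
def p12_11_0_25 : pfC (piC [(nat_lit 41351667), (nat_lit 26310893), (nat_lit 19519284), (nat_lit 13318063)] (nat_lit 28134109)) p12_11_0 (nat_lit 4) (nat_lit 25) (nat_lit 26) = true := by decide +kernel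
def p12_11_0_26 : pfC (piC [(nat_lit 41351667), (nat_lit 26310893), (nat_lit 19519284), (nat_lit 13318063)] (nat_lit 28134109)) p12_11_0 (nat_lit 4) (nat_lit 26) (nat_lit 27) = true := by decide +kernel
def p12_11_0_27 : pfC (piC [(nat_lit 41351667), (nat_lit 26310893), (nat_lit 19519284), (nat_lit 13318063)] (nat_lit 28134109)) p12_11_0 (nat_lit 4) (nat_lit 27) (nat_lit 28) = true := by decide +kernel
def p12_11_0_28 : pfC (piC [(nat_lit 41351667), (nat_lit 26310893), (nat_lit 19519284), (nat_lit 13318063)] (nat_lit 28134109)) p12_11_0 (nat_lit 4) (nat_lit 28) (nat_lit 29) = true := by decide +kernel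
def p12_11_0_29 : pfC (piC [(nat_lit 41351667), (nat_lit 26310893), (nat_lit 19519284), (nat_lit 13318063)] (nat_lit 28134109)) p12_11_0 (nat_lit 4) (nat_lit 29) (nat_lit 30) = true := by decide +kernel
def p12_11_0_30 : pfC (piC [(nat_lit 41351667), (nat_lit 26310893), (nat_lit 19519284), (nat_lit 13318063)] (nat_lit 28134109)) p12_11_0 (nat_lit 4) (nat_lit 30) (nat_lit 31) = true := by decide +kernel
def p12_11_0_31 : pfC (piC [(nat_lit 41351667), (nat_lit 26310893), (nat_lit 19519284), (nat_lit 13318063)] (nat_lit 28134109)) p12_11_0 (nat_lit 4) (nat_lit 31) (nat_lit 32) = true := by decide +kernel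
def p12_11_0_32 : pfC (piC [(nat_lit 41351667), (nat_lit 26310893), (nat_lit 19519284), (nat_lit 13318063)] (nat_lit 28134109)) p12_11_0 (nat_lit 4) (nat_lit 32) (nat_lit 33) = true := by decide +kernel
def p12_11_0_33 : pfC (piC [(nat_lit 41351667), (nat_lit 26310893), (nat_lit 19519284), (nat_lit 13318063)] (nat_lit 28134109)) p12_11_0 (nat_lit 4) (nat_lit 33) (nat_lit 34) = true := by decide +kernel
def p12_11_0_34 : pfC (piC [(nat_lit 41351667), (nat_lit 26310893), (nat_lit 19519284), (nat_lit 13318063)] (nat_lit 28134109)) p12_11_0 (nat_lit 4) (nat_lit 34) (nat_lit 35) = true := by decide +kernel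
def p12_11_0_35 : pfC (piC [(nat_lit 41351667), (nat_lit 26310893), (nat_lit 19519284), (nat_lit 13318063)] (nat_lit 28134109)) p12_11_0 (nat_lit 4) (nat_lit 35) (nat_lit 36) = true := by decide +kernel
def p12_11_0_36 : pfC (piC [(nat_lit 41351667), (nat_lit 26310893), (nat_lit 19519284), (nat_lit 13318063)] (nat_lit 28134109)) p12_11_0 (nat_lit 4) (nat_lit 36) (nat_lit 37) = true := by decide +kernel
def p12_11_0_37 : pfC (piC [(nat_lit 41351667), (nat_lit 26310893), (nat_lit 19519284), (nat_lit 13318063)] (nat_lit 28134109)) p12_11_0 (nat_lit 4) (nat_lit 37) (nat_lit 38) = true := by decide +kernel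
def p12_11_0_38 : pfC (piC [(nat_lit 41351667), (nat_lit 26310893), (nat_lit 19519284), (nat_lit 13318063)] (nat_lit 28134109)) p12_11_0 (nat_lit 4) (nat_lit 38) (nat_lit 39) = true := by decide +kernel
def p12_11_0_39 : pfC (piC [(nat_lit 41351667), (nat_lit 26310893), (nat_lit 19519284), (nat_lit 13318063)] (nat_lit 28134109)) p12_11_0 (nat_lit 4) (nat_lit 39) (nat_lit 40) = true := by decide +kernel
def p12_11_0_40 : pfC (piC [(nat_lit 41351667), (nat_lit 26310893), (nat_lit 19519284), (nat_lit 13318063)] (nat_lit 28134109)) p12_11_0 (nat_lit 4) (nat_lit 40) (nat_lit 41) = true := by decide +kernel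
def p12_11_0_41 : pfC (piC [(nat_lit 41351667), (nat_lit 26310893), (nat_lit 19519284), (nat_lit 13318063)] (nat_lit 28134109)) p12_11_0 (nat_lit 4) (nat_lit 41) (nat_lit 42) = true := by decide +kernel
def p12_11_0_42 : pfC (piC [(nat_lit 41351667), (nat_lit 26310893), (nat_lit 19519284), (nat_lit 13318063)] (nat_lit 28134109)) p12_11_0 (nat_lit 4) (nat_lit 42) (nat_lit 43) = true := by decide +kernel
def p12_11_0_43 : pfC (piC [(nat_lit 41351667), (nat_lit 26310893), (nat_lit 19519284), (nat_lit 13318063)] (nat_lit 28134109)) p12_11_0 (nat_lit 4) (nat_lit 43) (nat_lit 44) = true := by decide +kernel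
def p12_11_0_44 : pfC (piC [(nat_lit 41351667), (nat_lit 26310893), (nat_lit 19519284), (nat_lit 13318063)] (nat_lit 28134109)) p12_11_0 (nat_lit 4) (nat_lit 44) (nat_lit 45) = true := by decide +kernel
def p12_11_0_45 : pfC (piC [(nat_lit 41351667), (nat_lit 26310893), (nat_lit 19519284), (nat_lit 13318063)] (nat_lit 28134109)) p12_11_0 (nat_lit 4) (nat_lit 45) (nat_lit 46) = true := by decide +kernel
def p12_11_0_46 : pfC (piC [(nat_lit 41351667), (nat_lit 26310893), (nat_lit 19519284), (nat_lit 13318063)] (nat_lit 28134109)) p12_11_0 (nat_lit 4) (nat_lit 46) (nat_lit 47) = true := by decide +kernel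
def p12_11_0_47 : pfC (piC [(nat_lit 41351667), (nat_lit 26310893), (nat_lit 19519284), (nat_lit 13318063)] (nat_lit 28134109)) p12_11_0 (nat_lit 4) (nat_lit 47) (nat_lit 48) = true := by decide +kernel
def p12_11_0_48 : pfC (piC [(nat_lit 41351667), (nat_lit 26310893), (nat_lit 19519284), (nat_lit 13318063)] (nat_lit 28134109)) p12_11_0 (nat_lit 4) (nat_lit 48) (nat_lit 49) = true := by decide +kernel
def p12_11_0_49 : pfC (piC [(nat_lit 41351667), (nat_lit 26310893), (nat_lit 19519284), (nat_lit 13318063)] (nat_lit 28134109)) p12_11_0 (nat_lit 4) (nat_lit 49) (nat_lit 50) = true := by decide +kernel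
def p12_11_0_50 : pfC (piC [(nat_lit 41351667), (nat_lit 26310893), (nat_lit 19519284), (nat_lit 13318063)] (nat_lit 28134109)) p12_11_0 (nat_lit 4) (nat_lit 50) (nat_lit 51) = true := by decide +kernel
def p12_11_0_51 : pfC (piC [(nat_lit 41351667), (nat_lit 26310893), (nat_lit 19519284), (nat_lit 13318063)] (nat_lit 28134109)) p12_11_0 (nat_lit 4) (nat_lit 51) (nat_lit 52) = true := by decide +kernel
def p12_11_0_52 : pfC (piC [(nat_lit 41351667), (nat_lit 26310893), (nat_lit 19519284), (nat_lit 13318063)] (nat_lit 28134109)) p12_11_0 (nat_lit 4) (nat_lit 52) (nat_lit 53) = true := by decide +kernel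
def p12_11_0_53 : pfC (piC [(nat_lit 41351667), (nat_lit 26310893), (nat_lit 19519284), (nat_lit 13318063)] (nat_lit 28134109)) p12_11_0 (nat_lit 4) (nat_lit 53) (nat_lit 54) = true := by decide +kernel
def p12_11_0_54 : pfC (piC [(nat_lit 41351667), (nat_lit 26310893), (nat_lit 19519284), (nat_lit 13318063)] (nat_lit 28134109)) p12_11_0 (nat_lit 4) (nat_lit 54) (nat_lit 55) = true := by decide +kernel
def p12_11_0_55 : pfC (piC [(nat_lit 41351667), (nat_lit 26310893), (nat_lit 19519284), (nat_lit 13318063)] (nat_lit 28134109)) p12_11_0 (nat_lit 4) (nat_lit 55) (nat_lit 56) = true := by decide +kernel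
def p12_11_0_56 : pfC (piC [(nat_lit 41351667), (nat_lit 26310893), (nat_lit 19519284), (nat_lit 13318063)] (nat_lit 28134109)) p12_11_0 (nat_lit 4) (nat_lit 56) (nat_lit 57) = true := by decide +kernel
def p12_11_0_57 : pfC (piC [(nat_lit 41351667), (nat_lit 26310893), (nat_lit 19519284), (nat_lit 13318063)] (nat_lit 28134109)) p12_11_0 (nat_lit 4) (nat_lit 57) (nat_lit 58) = true := by decide +kernel
def p12_11_0_58 : pfC (piC [(nat_lit 41351667), (nat_lit 26310893), (nat_lit 19519284), (nat_lit 13318063)] (nat_lit 28134109)) p12_11_0 (nat_lit 4) (nat_lit 58) (nat_lit 59) = true := by decide +kernel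
def p12_11_0_59 : pfC (piC [(nat_lit 41351667), (nat_lit 26310893), (nat_lit 19519284), (nat_lit 13318063)] (nat_lit 28134109)) p12_11_0 (nat_lit 4) (nat_lit 59) (nat_lit 60) = true := by decide +kernel
def p12_11_0_60 : pfC (piC [(nat_lit 41351667), (nat_lit 26310893), (nat_lit 19519284), (nat_lit 13318063)] (nat_lit 28134109)) p12_11_0 (nat_lit 4) (nat_lit 60) (nat_lit 61) = true := by decide +kernel
def p12_11_0_61 : pfC (piC [(nat_lit 41351667), (nat_lit 26310893), (nat_lit 19519284), (nat_lit 13318063)] (nat_lit 28134109)) p12_11_0 (nat_lit 4) (nat_lit 61) (nat_lit 62) = true := by decide +kernel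
def p12_11_0_62 : pfC (piC [(nat_lit 41351667), (nat_lit 26310893), (nat_lit 19519284), (nat_lit 13318063)] (nat_lit 28134109)) p12_11_0 (nat_lit 4) (nat_lit 62) (nat_lit 63) = true := by decide +kernel
def p12_11_0_63 : pfC (piC [(nat_lit 41351667), (nat_lit 26310893), (nat_lit 19519284), (nat_lit 13318063)] (nat_lit 28134109)) p12_11_0 (nat_lit 4) (nat_lit 63) (nat_lit 64) = true := by decide +kernel
def p12_11_0_64 : pfC (piC [(nat_lit 41351667), (nat_lit 26310893), (nat_lit 19519284), (nat_lit 13318063)] (nat_lit 28134109)) p12_11_0 (nat_lit 4) (nat_lit 64) (nat_lit 65) = true := by decide +kernel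
def p12_11_0_65 : pfC (piC [(nat_lit 41351667), (nat_lit 26310893), (nat_lit 19519284), (nat_lit 13318063)] (nat_lit 28134109)) p12_11_0 (nat_lit 4) (nat_lit 65) (nat_lit 66) = true := by decide +kernel
def p12_11_0_66 : pfC (piC [(nat_lit 41351667), (nat_lit 26310893), (nat_lit 19519284), (nat_lit 13318063)] (nat_lit 28134109)) p12_11_0 (nat_lit 4) (nat_lit 66) (nat_lit 67) = true := by decide +kernel
def p12_11_0_67 : pfC (piC [(nat_lit 41351667), (nat_lit 26310893), (nat_lit 19519284), (nat_lit 13318063)] (nat_lit 28134109)) p12_11_0 (nat_lit 4) (nat_lit 67) (nat_lit 68) = true := by decide +kernel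
def p12_11_0_68 : pfC (piC [(nat_lit 41351667), (nat_lit 26310893), (nat_lit 19519284), (nat_lit 13318063)] (nat_lit 28134109)) p12_11_0 (nat_lit 4) (nat_lit 68) (nat_lit 69) = true := by decide +kernel
def p12_11_0_69 : pfC (piC [(nat_lit 41351667), (nat_lit 26310893), (nat_lit 19519284), (nat_lit 13318063)] (nat_lit 28134109)) p12_11_0 (nat_lit 4) (nat_lit 69) (nat_lit 70) = true := by decide +kernel
def p12_11_0_70 : pfC (piC [(nat_lit 41351667), (nat_lit 26310893), (nat_lit 19519284), (nat_lit 13318063)] (nat_lit 28134109)) p12_11_0 (nat_lit 4) (nat_lit 70) (nat_lit 71) = true := by decide +kernel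
def p12_11_0_71 : pfC (piC [(nat_lit 41351667), (nat_lit 26310893), (nat_lit 19519284), (nat_lit 13318063)] (nat_lit 28134109)) p12_11_0 (nat_lit 4) (nat_lit 71) (nat_lit 72) = true := by decide +kernel
def p12_11_0_72 : pfC (piC [(nat_lit 41351667), (nat_lit 26310893), (nat_lit 19519284), (nat_lit 13318063)] (nat_lit 28134109)) p12_11_0 (nat_lit 4) (nat_lit 72) (nat_lit 73) = true := by decide +kernel
def p12_11_0_73 : pfC (piC [(nat_lit 41351667), (nat_lit 26310893), (nat_lit 19519284), (nat_lit 13318063)] (nat_lit 28134109)) p12_11_0 (nat_lit 4) (nat_lit 73) (nat_lit 74) = true := by decide +kernel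
def p12_11_0_74 : pfC (piC [(nat_lit 41351667), (nat_lit 26310893), (nat_lit 19519284), (nat_lit 13318063)] (nat_lit 28134109)) p12_11_0 (nat_lit 4) (nat_lit 74) (nat_lit 75) = true := by decide +kernel
def p12_11_0_75 : pfC (piC [(nat_lit 41351667), (nat_lit 26310893), (nat_lit 19519284), (nat_lit 13318063)] (nat_lit 28134109)) p12_11_0 (nat_lit 4) (nat_lit 75) (nat_lit 76) = true := by decide +kernel
def p12_11_0_76 : pfC (piC [(nat_lit 41351667), (nat_lit 26310893), (nat_lit 19519284), (nat_lit 13318063)] (nat_lit 28134109)) p12_11_0 (nat_lit 4) (nat_lit 76) (nat_lit 77) = true := by decide +kernel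
def p12_11_0_77 : pfC (piC [(nat_lit 41351667), (nat_lit 26310893), (nat_lit 19519284), (nat_lit 13318063)] (nat_lit 28134109)) p12_11_0 (nat_lit 4) (nat_lit 77) (nat_lit 78) = true := by decide +kernel
def p12_11_0_78 : pfC (piC [(nat_lit 41351667), (nat_lit 26310893), (nat_lit 19519284), (nat_lit 13318063)] (nat_lit 28134109)) p12_11_0 (nat_lit 4) (nat_lit 78) (nat_lit 79) = true := by decide +kernel
def p12_11_0_79 : pfC (piC [(nat_lit 41351667), (nat_lit 26310893), (nat_lit 19519284), (nat_lit 13318063)] (nat_lit 28134109)) p12_11_0 (nat_lit 4) (nat_lit 79) (nat_lit 80) = true := by decide +kernel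
def p12_11_0_80 : pfC (piC [(nat_lit 41351667), (nat_lit 26310893), (nat_lit 19519284), (nat_lit 13318063)] (nat_lit 28134109)) p12_11_0 (nat_lit 4) (nat_lit 80) (nat_lit 81) = true := by decide +kernel
def p12_11_0_81 : pfC (piC [(nat_lit 41351667), (nat_lit 26310893), (nat_lit 19519284), (nat_lit 13318063)] (nat_lit 28134109)) p12_11_0 (nat_lit 4) (nat_lit 81) (nat_lit 82) = true := by decide +kernel
def p12_11_0_82 : pfC (piC [(nat_lit 41351667), (nat_lit 26310893), (nat_lit 19519284), (nat_lit 13318063)] (nat_lit 28134109)) p12_11_0 (nat_lit 4) (nat_lit 82) (nat_lit 83) = true := by decide +kernel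
def p12_11_0_83 : pfC (piC [(nat_lit 41351667), (nat_lit 26310893), (nat_lit 19519284), (nat_lit 13318063)] (nat_lit 28134109)) p12_11_0 (nat_lit 4) (nat_lit 83) (nat_lit 84) = true := by decide +kernel
def p12_11_0_84 : pfC (piC [(nat_lit 41351667), (nat_lit 26310893), (nat_lit 19519284), (nat_lit 13318063)] (nat_lit 28134109)) p12_11_0 (nat_lit 4) (nat_lit 84) (nat_lit 85) = true := by decide +kernel
def p12_11_0_85 : pfC (piC [(nat_lit 41351667), (nat_lit 26310893), (nat_lit 19519284), (nat_lit 13318063)] (nat_lit 28134109)) p12_11_0 (nat_lit 4) (nat_lit 85) (nat_lit 86) = true := by decide +kernel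
def p12_11_0_86 : pfC (piC [(nat_lit 41351667), (nat_lit 26310893), (nat_lit 19519284), (nat_lit 13318063)] (nat_lit 28134109)) p12_11_0 (nat_lit 4) (nat_lit 86) (nat_lit 87) = true := by decide +kernel
def p12_11_0_87 : pfC (piC [(nat_lit 41351667), (nat_lit 26310893), (nat_lit 19519284), (nat_lit 13318063)] (nat_lit 28134109)) p12_11_0 (nat_lit 4) (nat_lit 87) (nat_lit 88) = true := by decide +kernel
def p12_11_0_88 : pfC (piC [(nat_lit 41351667), (nat_lit 26310893), (nat_lit 19519284), (nat_lit 13318063)] (nat_lit 28134109)) p12_11_0 (nat_lit 4) (nat_lit 88) (nat_lit 89) = true := by decide +kernel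
def p12_11_0_89 : pfC (piC [(nat_lit 41351667), (nat_lit 26310893), (nat_lit 19519284), (nat_lit 13318063)] (nat_lit 28134109)) p12_11_0 (nat_lit 4) (nat_lit 89) (nat_lit 90) = true := by decide +kernel
def p12_11_0_90 : pfC (piC [(nat_lit 41351667), (nat_lit 26310893), (nat_lit 19519284), (nat_lit 13318063)] (nat_lit 28134109)) p12_11_0 (nat_lit 4) (nat_lit 90) (nat_lit 91) = true := by decide +kernel
def p12_11_0_91 : pfC (piC [(nat_lit 41351667), (nat_lit 26310893), (nat_lit 19519284), (nat_lit 13318063)] (nat_lit 28134109)) p12_11_0 (nat_lit 4) (nat_lit 91) (nat_lit 92) = true := by decide +kernel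
def p12_11_0_92 : pfC (piC [(nat_lit 41351667), (nat_lit 26310893), (nat_lit 19519284), (nat_lit 13318063)] (nat_lit 28134109)) p12_11_0 (nat_lit 4) (nat_lit 92) (nat_lit 93) = true := by decide +kernel
def p12_11_0_93 : pfC (piC [(nat_lit 41351667), (nat_lit 26310893), (nat_lit 19519284), (nat_lit 13318063)] (nat_lit 28134109)) p12_11_0 (nat_lit 4) (nat_lit 93) (nat_lit 94) = true := by decide +kernel
def p12_11_0_94 : pfC (piC [(nat_lit 41351667), (nat_lit 26310893), (nat_lit 19519284), (nat_lit 13318063)] (nat_lit 28134109)) p12_11_0 (nat_lit 4) (nat_lit 94) (nat_lit 95) = true := by decide +kernel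
def p12_11_0_95 : pfC (piC [(nat_lit 41351667), (nat_lit 26310893), (nat_lit 19519284), (nat_lit 13318063)] (nat_lit 28134109)) p12_11_0 (nat_lit 4) (nat_lit 95) (nat_lit 96) = true := by decide +kernel
def p12_11_0_96 : pfC (piC [(nat_lit 41351667), (nat_lit 26310893), (nat_lit 19519284), (nat_lit 13318063)] (nat_lit 28134109)) p12_11_0 (nat_lit 4) (nat_lit 96) (nat_lit 97) = true := by decide +kernel
def p12_11_0_97 : pfC (piC [(nat_lit 41351667), (nat_lit 26310893), (nat_lit 19519284), (nat_lit 13318063)] (nat_lit 28134109)) p12_11_0 (nat_lit 4) (nat_lit 97) (nat_lit 98) = true := by decide +kernel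
def p12_11_0_98 : pfC (piC [(nat_lit 41351667), (nat_lit 26310893), (nat_lit 19519284), (nat_lit 13318063)] (nat_lit 28134109)) p12_11_0 (nat_lit 4) (nat_lit 98) (nat_lit 99) = true := by decide +kernel
def p12_11_0_99 : pfC (piC [(nat_lit 41351667), (nat_lit 26310893), (nat_lit 19519284), (nat_lit 13318063)] (nat_lit 28134109)) p12_11_0 (nat_lit 4) (nat_lit 99) (nat_lit 100) = true := by decide +kernel
def p12_11_0_100 : pfC (piC [(nat_lit 41351667), (nat_lit 26310893), (nat_lit 19519284), (nat_lit 13318063)] (nat_lit 28134109)) p12_11_0 (nat_lit 4) (nat_lit 100) (nat_lit 101) = true := by decide +kernel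
def p12_11_0_101 : pfC (piC [(nat_lit 41351667), (nat_lit 26310893), (nat_lit 19519284), (nat_lit 13318063)] (nat_lit 28134109)) p12_11_0 (nat_lit 4) (nat_lit 101) (nat_lit 102) = true := by decide +kernel
def p12_11_0_102 : pfC (piC [(nat_lit 41351667), (nat_lit 26310893), (nat_lit 19519284), (nat_lit 13318063)] (nat_lit 28134109)) p12_11_0 (nat_lit 4) (nat_lit 102) (nat_lit 103) = true := by decide +kernel
def p12_11_0_103 : pfC (piC [(nat_lit 41351667), (nat_lit 26310893), (nat_lit 19519284), (nat_lit 13318063)] (nat_lit 28134109)) p12_11_0 (nat_lit 4) (nat_lit 103) (nat_lit 104) = true := by decide +kernel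
def p12_11_0_104 : pfC (piC [(nat_lit 41351667), (nat_lit 26310893), (nat_lit 19519284), (nat_lit 13318063)] (nat_lit 28134109)) p12_11_0 (nat_lit 4) (nat_lit 104) (nat_lit 105) = true := by decide +kernel
def p12_11_0_105 : pfC (piC [(nat_lit 41351667), (nat_lit 26310893), (nat_lit 19519284), (nat_lit 13318063)] (nat_lit 28134109)) p12_11_0 (nat_lit 4) (nat_lit 105) (nat_lit 106) = true := by decide +kernel
def p12_11_0_106 : pfC (piC [(nat_lit 41351667), (nat_lit 26310893), (nat_lit 19519284), (nat_lit 13318063)] (nat_lit 28134109)) p12_11_0 (nat_lit 4) (nat_lit 106) (nat_lit 107) = true := by decide +kernel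
def p12_11_0_107 : pfC (piC [(nat_lit 41351667), (nat_lit 26310893), (nat_lit 19519284), (nat_lit 13318063)] (nat_lit 28134109)) p12_11_0 (nat_lit 4) (nat_lit 107) (nat_lit 108) = true := by decide +kernel
def p12_11_0_108 : pfC (piC [(nat_lit 41351667), (nat_lit 26310893), (nat_lit 19519284), (nat_lit 13318063)] (nat_lit 28134109)) p12_11_0 (nat_lit 4) (nat_lit 108) (nat_lit 109) = true := by decide +kernel
def p12_11_0_109 : pfC (piC [(nat_lit 41351667), (nat_lit 26310893), (nat_lit 19519284), (nat_lit 13318063)] (nat_lit 28134109)) p12_11_0 (nat_lit 4) (nat_lit 109) (nat_lit 110) = true := by decide +kernel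
def p12_11_0_110 : pfC (piC [(nat_lit 41351667), (nat_lit 26310893), (nat_lit 19519284), (nat_lit 13318063)] (nat_lit 28134109)) p12_11_0 (nat_lit 4) (nat_lit 110) (nat_lit 111) = true := by decide +kernel
def p12_11_0_111 : pfC (piC [(nat_lit 41351667), (nat_lit 26310893), (nat_lit 19519284), (nat_lit 13318063)] (nat_lit 28134109)) p12_11_0 (nat_lit 4) (nat_lit 111) (nat_lit 112) = true := by decide +kernel
def p12_11_0_112 : pfC (piC [(nat_lit 41351667), (nat_lit 26310893), (nat_lit 19519284), (nat_lit 13318063)] (nat_lit 28134109)) p12_11_0 (nat_lit 4) (nat_lit 112) (nat_lit 113) = true := by decide +kernel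
def p12_11_0_113 : pfC (piC [(nat_lit 41351667), (nat_lit 26310893), (nat_lit 19519284), (nat_lit 13318063)] (nat_lit 28134109)) p12_11_0 (nat_lit 4) (nat_lit 113) (nat_lit 114) = true := by decide +kernel
def p12_11_0_114 : pfC (piC [(nat_lit 41351667), (nat_lit 26310893), (nat_lit 19519284), (nat_lit 13318063)] (nat_lit 28134109)) p12_11_0 (nat_lit 4) (nat_lit 114) (nat_lit 115) = true := by decide +kernel
def p12_11_0_115 : pfC (piC [(nat_lit 41351667), (nat_lit 26310893), (nat_lit 19519284), (nat_lit 13318063)] (nat_lit 28134109)) p12_11_0 (nat_lit 4) (nat_lit 115) (nat_lit 116) = true := by decide +kernel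
def p12_11_0_116 : pfC (piC [(nat_lit 41351667), (nat_lit 26310893), (nat_lit 19519284), (nat_lit 13318063)] (nat_lit 28134109)) p12_11_0 (nat_lit 4) (nat_lit 116) (nat_lit 117) = true := by decide +kernel
def p12_11_0_117 : pfC (piC [(nat_lit 41351667), (nat_lit 26310893), (nat_lit 19519284), (nat_lit 13318063)] (nat_lit 28134109)) p12_11_0 (nat_lit 4) (nat_lit 117) (nat_lit 118) = true := by decide +kernel
def p12_11_0_118 : pfC (piC [(nat_lit 41351667), (nat_lit 26310893), (nat_lit 19519284), (nat_lit 13318063)] (nat_lit 28134109)) p12_11_0 (nat_lit 4) (nat_lit 118) (nat_lit 119) = true := by decide +kernel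
def p12_11_0_119 : pfC (piC [(nat_lit 41351667), (nat_lit 26310893), (nat_lit 19519284), (nat_lit 13318063)] (nat_lit 28134109)) p12_11_0 (nat_lit 4) (nat_lit 119) (nat_lit 120) = true := by decide +kernel
def p12_11_0_120 : pfC (piC [(nat_lit 41351667), (nat_lit 26310893), (nat_lit 19519284), (nat_lit 13318063)] (nat_lit 28134109)) p12_11_0 (nat_lit 4) (nat_lit 120) (nat_lit 121) = true := by decide +kernel
def p12_11_0_121 : pfC (piC [(nat_lit 41351667), (nat_lit 26310893), (nat_lit 19519284), (nat_lit 13318063)] (nat_lit 28134109)) p12_11_0 (nat_lit 4) (nat_lit 121) (nat_lit 122) = true := by decide +kernel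
def p12_11_0_122 : pfC (piC [(nat_lit 41351667), (nat_lit 26310893), (nat_lit 19519284), (nat_lit 13318063)] (nat_lit 28134109)) p12_11_0 (nat_lit 4) (nat_lit 122) (nat_lit 123) = true := by decide +kernel
def p12_11_0_123 : pfC (piC [(nat_lit 41351667), (nat_lit 26310893), (nat_lit 19519284), (nat_lit 13318063)] (nat_lit 28134109)) p12_11_0 (nat_lit 4) (nat_lit 123) (nat_lit 124) = true := by decide +kernel
def p12_11_0_124 : pfC (piC [(nat_lit 41351667), (nat_lit 26310893), (nat_lit 19519284), (nat_lit 13318063)] (nat_lit 28134109)) p12_11_0 (nat_lit 4) (nat_lit 124) (nat_lit 125) = true := by decide +kernel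
def p12_11_0_125 : pfC (piC [(nat_lit 41351667), (nat_lit 26310893), (nat_lit 19519284), (nat_lit 13318063)] (nat_lit 28134109)) p12_11_0 (nat_lit 4) (nat_lit 125) (nat_lit 126) = true := by decide +kernel
def p12_11_0_126 : pfC (piC [(nat_lit 41351667), (nat_lit 26310893), (nat_lit 19519284), (nat_lit 13318063)] (nat_lit 28134109)) p12_11_0 (nat_lit 4) (nat_lit 126) (nat_lit 127) = true := by decide +kernel
def p12_11_0_127 : pfC (piC [(nat_lit 41351667), (nat_lit 26310893), (nat_lit 19519284), (nat_lit 13318063)] (nat_lit 28134109)) p12_11_0 (nat_lit 4) (nat_lit 127) (nat_lit 128) = true := by decide +kernel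
def p12_11_0_128 : pfC (piC [(nat_lit 41351667), (nat_lit 26310893), (nat_lit 19519284), (nat_lit 13318063)] (nat_lit 28134109)) p12_11_0 (nat_lit 4) (nat_lit 128) (nat_lit 129) = true := by decide +kernel
def p12_11_0_129 : pfC (piC [(nat_lit 41351667), (nat_lit 26310893), (nat_lit 19519284), (nat_lit 13318063)] (nat_lit 28134109)) p12_11_0 (nat_lit 4) (nat_lit 129) (nat_lit 130) = true := by decide +kernel
def p12_11_0_130 : pfC (piC [(nat_lit 41351667), (nat_lit 26310893), (nat_lit 19519284), (nat_lit 13318063)] (nat_lit 28134109)) p12_11_0 (nat_lit 4) (nat_lit 130) (nat_lit 131) = true := by decide +kernel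
def p12_11_0_131 : pfC (piC [(nat_lit 41351667), (nat_lit 26310893), (nat_lit 19519284), (nat_lit 13318063)] (nat_lit 28134109)) p12_11_0 (nat_lit 4) (nat_lit 131) (nat_lit 132) = true := by decide +kernel
def p12_11_0_132 : pfC (piC [(nat_lit 41351667), (nat_lit 26310893), (nat_lit 19519284), (nat_lit 13318063)] (nat_lit 28134109)) p12_11_0 (nat_lit 4) (nat_lit 132) (nat_lit 133) = true := by decide +kernel
def p12_11_0_133 : pfC (piC [(nat_lit 41351667), (nat_lit 26310893), (nat_lit 19519284), (nat_lit 13318063)] (nat_lit 28134109)) p12_11_0 (nat_lit 4) (nat_lit 133) (nat_lit 134) = true := by decide +kernel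
def p12_11_0_134 : pfC (piC [(nat_lit 41351667), (nat_lit 26310893), (nat_lit 19519284), (nat_lit 13318063)] (nat_lit 28134109)) p12_11_0 (nat_lit 4) (nat_lit 134) (nat_lit 135) = true := by decide +kernel
def p12_11_0_135 : pfC (piC [(nat_lit 41351667), (nat_lit 26310893), (nat_lit 19519284), (nat_lit 13318063)] (nat_lit 28134109)) p12_11_0 (nat_lit 4) (nat_lit 135) (nat_lit 136) = true := by decide +kernel
def p12_11_0_136 : pfC (piC [(nat_lit 41351667), (nat_lit 26310893), (nat_lit 19519284), (nat_lit 13318063)] (nat_lit 28134109)) p12_11_0 (nat_lit 4) (nat_lit 136) (nat_lit 137) = true := by decide +kernel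
def p12_11_0_137 : pfC (piC [(nat_lit 41351667), (nat_lit 26310893), (nat_lit 19519284), (nat_lit 13318063)] (nat_lit 28134109)) p12_11_0 (nat_lit 4) (nat_lit 137) (nat_lit 138) = true := by decide +kernel
def p12_11_0_138 : pfC (piC [(nat_lit 41351667), (nat_lit 26310893), (nat_lit 19519284), (nat_lit 13318063)] (nat_lit 28134109)) p12_11_0 (nat_lit 4) (nat_lit 138) (nat_lit 139) = true := by decide +kernel
def p12_11_0_139 : pfC (piC [(nat_lit 41351667), (nat_lit 26310893), (nat_lit 19519284), (nat_lit 13318063)] (nat_lit 28134109)) p12_11_0 (nat_lit 4) (nat_lit 139) (nat_lit 140) = true := by decide +kernel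
def p12_11_0_140 : pfC (piC [(nat_lit 41351667), (nat_lit 26310893), (nat_lit 19519284), (nat_lit 13318063)] (nat_lit 28134109)) p12_11_0 (nat_lit 4) (nat_lit 140) (nat_lit 141) = true := by decide +kernel
def p12_11_0_141 : pfC (piC [(nat_lit 41351667), (nat_lit 26310893), (nat_lit 19519284), (nat_lit 13318063)] (nat_lit 28134109)) p12_11_0 (nat_lit 4) (nat_lit 141) (nat_lit 142) = true := by decide +kernel
def p12_11_0_142 : pfC (piC [(nat_lit 41351667), (nat_lit 26310893), (nat_lit 19519284), (nat_lit 13318063)] (nat_lit 28134109)) p12_11_0 (nat_lit 4) (nat_lit 142) (nat_lit 143) = true := by decide +kernel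
def p12_11_0_143 : pfC (piC [(nat_lit 41351667), (nat_lit 26310893), (nat_lit 19519284), (nat_lit 13318063)] (nat_lit 28134109)) p12_11_0 (nat_lit 4) (nat_lit 143) (nat_lit 144) = true := by decide +kernel
def p12_11_0_144 : pfC (piC [(nat_lit 41351667), (nat_lit 26310893), (nat_lit 19519284), (nat_lit 13318063)] (nat_lit 28134109)) p12_11_0 (nat_lit 4) (nat_lit 144) (nat_lit 145) = true := by decide +kernel
def p12_11_0_145 : pfC (piC [(nat_lit 41351667), (nat_lit 26310893), (nat_lit 19519284), (nat_lit 13318063)] (nat_lit 28134109)) p12_11_0 (nat_lit 4) (nat_lit 145) (nat_lit 146) = true := by decide +kernel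
def p12_11_0_146 : pfC (piC [(nat_lit 41351667), (nat_lit 26310893), (nat_lit 19519284), (nat_lit 13318063)] (nat_lit 28134109)) p12_11_0 (nat_lit 4) (nat_lit 146) (nat_lit 147) = true := by decide +kernel
def p12_11_0_147 : pfC (piC [(nat_lit 41351667), (nat_lit 26310893), (nat_lit 19519284), (nat_lit 13318063)] (nat_lit 28134109)) p12_11_0 (nat_lit 4) (nat_lit 147) (nat_lit 148) = true := by decide +kernel
def p12_11_0_148 : pfC (piC [(nat_lit 41351667), (nat_lit 26310893), (nat_lit 19519284), (nat_lit 13318063)] (nat_lit 28134109)) p12_11_0 (nat_lit 4) (nat_lit 148) (nat_lit 149) = true := by decide +kernel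
def p12_11_0_149 : pfC (piC [(nat_lit 41351667), (nat_lit 26310893), (nat_lit 19519284), (nat_lit 13318063)] (nat_lit 28134109)) p12_11_0 (nat_lit 4) (nat_lit 149) (nat_lit 150) = true := by decide +kernel
def p12_11_0_150 : pfC (piC [(nat_lit 41351667), (nat_lit 26310893), (nat_lit 19519284), (nat_lit 13318063)] (nat_lit 28134109)) p12_11_0 (nat_lit 4) (nat_lit 150) (nat_lit 151) = true := by decide +kernel
def p12_11_0_151 : pfC (piC [(nat_lit 41351667), (nat_lit 26310893), (nat_lit 19519284), (nat_lit 13318063)] (nat_lit 28134109)) p12_11_0 (nat_lit 4) (nat_lit 151) (nat_lit 152) = true := by decide +kernel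
def p12_11_0_152 : pfC (piC [(nat_lit 41351667), (nat_lit 26310893), (nat_lit 19519284), (nat_lit 13318063)] (nat_lit 28134109)) p12_11_0 (nat_lit 4) (nat_lit 152) (nat_lit 153) = true := by decide +kernel
def p12_11_0_153 : pfC (piC [(nat_lit 41351667), (nat_lit 26310893), (nat_lit 19519284), (nat_lit 13318063)] (nat_lit 28134109)) p12_11_0 (nat_lit 4) (nat_lit 153) (nat_lit 154) = true := by decide +kernel
def p12_11_0_154 : pfC (piC [(nat_lit 41351667), (nat_lit 26310893), (nat_lit 19519284), (nat_lit 13318063)] (nat_lit 28134109)) p12_11_0 (nat_lit 4) (nat_lit 154) (nat_lit 155) = true := by decide +kernel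
def p12_11_0_155 : pfC (piC [(nat_lit 41351667), (nat_lit 26310893), (nat_lit 19519284), (nat_lit 13318063)] (nat_lit 28134109)) p12_11_0 (nat_lit 4) (nat_lit 155) (nat_lit 156) = true := by decide +kernel
def p12_11_0_156 : pfC (piC [(nat_lit 41351667), (nat_lit 26310893), (nat_lit 19519284), (nat_lit 13318063)] (nat_lit 28134109)) p12_11_0 (nat_lit 4) (nat_lit 156) (nat_lit 157) = true := by decide +kernel
def p12_11_0_157 : pfC (piC [(nat_lit 41351667), (nat_lit 26310893), (nat_lit 19519284), (nat_lit 13318063)] (nat_lit 28134109)) p12_11_0 (nat_lit 4) (nat_lit 157) (nat_lit 158) = true := by decide +kernel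
def p12_11_0_158 : pfC (piC [(nat_lit 41351667), (nat_lit 26310893), (nat_lit 19519284), (nat_lit 13318063)] (nat_lit 28134109)) p12_11_0 (nat_lit 4) (nat_lit 158) (nat_lit 159) = true := by decide +kernel
def p12_11_0_159 : pfC (piC [(nat_lit 41351667), (nat_lit 26310893), (nat_lit 19519284), (nat_lit 13318063)] (nat_lit 28134109)) p12_11_0 (nat_lit 4) (nat_lit 159) (nat_lit 160) = true := by decide +kernel
def p12_11_0_160 : pfC (piC [(nat_lit 41351667), (nat_lit 26310893), (nat_lit 19519284), (nat_lit 13318063)] (nat_lit 28134109)) p12_11_0 (nat_lit 4) (nat_lit 160) (nat_lit 161) = true := by decide +kernel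
def p12_11_0_161 : pfC (piC [(nat_lit 41351667), (nat_lit 26310893), (nat_lit 19519284), (nat_lit 13318063)] (nat_lit 28134109)) p12_11_0 (nat_lit 4) (nat_lit 161) (nat_lit 162) = true := by decide +kernel
def p12_11_0_162 : pfC (piC [(nat_lit 41351667), (nat_lit 26310893), (nat_lit 19519284), (nat_lit 13318063)] (nat_lit 28134109)) p12_11_0 (nat_lit 4) (nat_lit 162) (nat_lit 163) = true := by decide +kernel
def p12_11_0_163 : pfC (piC [(nat_lit 41351667), (nat_lit 26310893), (nat_lit 19519284), (nat_lit 13318063)] (nat_lit 28134109)) p12_11_0 (nat_lit 4) (nat_lit 163) (nat_lit 164) = true := by decide +kernel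
def p12_11_0_164 : pfC (piC [(nat_lit 41351667), (nat_lit 26310893), (nat_lit 19519284), (nat_lit 13318063)] (nat_lit 28134109)) p12_11_0 (nat_lit 4) (nat_lit 164) (nat_lit 165) = true := by decide +kernel
def p12_11_0_165 : pfC (piC [(nat_lit 41351667), (nat_lit 26310893), (nat_lit 19519284), (nat_lit 13318063)] (nat_lit 28134109)) p12_11_0 (nat_lit 4) (nat_lit 165) (nat_lit 166) = true := by decide +kernel
def p12_11_0_166 : pfC (piC [(nat_lit 41351667), (nat_lit 26310893), (nat_lit 19519284), (nat_lit 13318063)] (nat_lit 28134109)) p12_11_0 (nat_lit 4) (nat_lit 166) (nat_lit 167) = true := by decide +kernel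
def p12_11_0_167 : pfC (piC [(nat_lit 41351667), (nat_lit 26310893), (nat_lit 19519284), (nat_lit 13318063)] (nat_lit 28134109)) p12_11_0 (nat_lit 4) (nat_lit 167) (nat_lit 168) = true := by decide +kernel
def p12_11_0_168 : pfC (piC [(nat_lit 41351667), (nat_lit 26310893), (nat_lit 19519284), (nat_lit 13318063)] (nat_lit 28134109)) p12_11_0 (nat_lit 4) (nat_lit 168) (nat_lit 169) = true := by decide +kernel
def p12_11_0_169 : pfC (piC [(nat_lit 41351667), (nat_lit 26310893), (nat_lit 19519284), (nat_lit 13318063)] (nat_lit 28134109)) p12_11_0 (nat_lit 4) (nat_lit 169) (nat_lit 170) = true := by decide +kernel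
def p12_11_0_170 : pfC (piC [(nat_lit 41351667), (nat_lit 26310893), (nat_lit 19519284), (nat_lit 13318063)] (nat_lit 28134109)) p12_11_0 (nat_lit 4) (nat_lit 170) (nat_lit 171) = true := by decide +kernel
def p12_11_0_171 : pfC (piC [(nat_lit 41351667), (nat_lit 26310893), (nat_lit 19519284), (nat_lit 13318063)] (nat_lit 28134109)) p12_11_0 (nat_lit 4) (nat_lit 171) (nat_lit 172) = true := by decide +kernel
def p12_11_0_172 : pfC (piC [(nat_lit 41351667), (nat_lit 26310893), (nat_lit 19519284), (nat_lit 13318063)] (nat_lit 28134109)) p12_11_0 (nat_lit 4) (nat_lit 172) (nat_lit 173) = true := by decide +kernel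
def p12_11_0_173 : pfC (piC [(nat_lit 41351667), (nat_lit 26310893), (nat_lit 19519284), (nat_lit 13318063)] (nat_lit 28134109)) p12_11_0 (nat_lit 4) (nat_lit 173) (nat_lit 174) = true := by decide +kernel
def p12_11_0_174 : pfC (piC [(nat_lit 41351667), (nat_lit 26310893), (nat_lit 19519284), (nat_lit 13318063)] (nat_lit 28134109)) p12_11_0 (nat_lit 4) (nat_lit 174) (nat_lit 175) = true := by decide +kernel
def p12_11_0_175 : pfC (piC [(nat_lit 41351667), (nat_lit 26310893), (nat_lit 19519284), (nat_lit 13318063)] (nat_lit 28134109)) p12_11_0 (nat_lit 4) (nat_lit 175) (nat_lit 176) = true := by decide +kernel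
def p12_11_0_176 : pfC (piC [(nat_lit 41351667), (nat_lit 26310893), (nat_lit 19519284), (nat_lit 13318063)] (nat_lit 28134109)) p12_11_0 (nat_lit 4) (nat_lit 176) (nat_lit 177) = true := by decide +kernel
def p12_11_0_177 : pfC (piC [(nat_lit 41351667), (nat_lit 26310893), (nat_lit 19519284), (nat_lit 13318063)] (nat_lit 28134109)) p12_11_0 (nat_lit 4) (nat_lit 177) (nat_lit 178) = true := by decide +kernel
def p12_11_0_178 : pfC (piC [(nat_lit 41351667), (nat_lit 26310893), (nat_lit 19519284), (nat_lit 13318063)] (nat_lit 28134109)) p12_11_0 (nat_lit 4) (nat_lit 178) (nat_lit 179) = true := by decide +kernel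
def p12_11_0_179 : pfC (piC [(nat_lit 41351667), (nat_lit 26310893), (nat_lit 19519284), (nat_lit 13318063)] (nat_lit 28134109)) p12_11_0 (nat_lit 4) (nat_lit 179) (nat_lit 180) = true := by decide +kernel
def p12_11_0_180 : pfC (piC [(nat_lit 41351667), (nat_lit 26310893), (nat_lit 19519284), (nat_lit 13318063)] (nat_lit 28134109)) p12_11_0 (nat_lit 4) (nat_lit 180) (nat_lit 181) = true := by decide +kernel
def p12_11_0_181 : pfC (piC [(nat_lit 41351667), (nat_lit 26310893), (nat_lit 19519284), (nat_lit 13318063)] (nat_lit 28134109)) p12_11_0 (nat_lit 4) (nat_lit 181) (nat_lit 182) = true := by decide +kernel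
def p12_11_0_182 : pfC (piC [(nat_lit 41351667), (nat_lit 26310893), (nat_lit 19519284), (nat_lit 13318063)] (nat_lit 28134109)) p12_11_0 (nat_lit 4) (nat_lit 182) (nat_lit 183) = true := by decide +kernel
theorem p12_11_0_T : PfS (PiF n12_11.reverse (nat_lit 28134109)) p12_11_0 (nat_lit 4) [] 0 :=
  pftab_of (los := [(nat_lit 41351667), (nat_lit 26310893), (nat_lit 19519284), (nat_lit 13318063)]) (by decide +kernel) (hi := (nat_lit 183)) (PfP.trans (PfP.trans (PfP.trans (PfP.trans (PfP.trans (PfP.trans (PfP.trans (PfP.trans (PfP.trans (PfP.trans (PfP.trans (PfP.trans (PfP.trans (PfP.trans (PfP.trans (PfP.trans (PfP.trans (PfP.trans (PfP.trans (PfP.trans (PfP.trans (PfP.trans (PfP.trans (PfP.trans (PfP.trans (PfP.trans (PfP.trans (PfP.trans (PfP.trans (PfP.trans (PfP.trans (PfP.trans (PfP.trans (PfP.trans (PfP.trans (PfP.trans (PfP.trans (PfP.trans (PfP.trans (PfP.trans (PfP.trans (PfP.trans (PfP.trans (PfP.trans (PfP.trans (PfP.trans (PfP.trans (PfP.trans (PfP.trans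 (PfP.trans (PfP.trans (PfP.trans (PfP.trans (PfP.trans (PfP.trans (PfP.trans (PfP.trans (PfP.trans (PfP.trans (PfP.trans (PfP.trans (PfP.trans (PfP.trans (PfP.trans (PfP.trans (PfP.trans (PfP.trans (PfP.trans (PfP.trans (PfP.trans (PfP.trans (PfP.trans (PfP.trans (PfP.trans (PfP.trans (PfP.trans (PfP.trans (PfP.trans (PfP.trans (PfP.trans (PfP.trans (PfP.trans (PfP.trans (PfP.trans (PfP.trans (PfP.trans (PfP.trans (PfP.trans (PfP.trans (PfP.trans (PfP.trans (PfP.trans (PfP.trans (PfP.trans (PfP.trans (PfP.trans (PfP.trans (PfP.trans (PfP.trans (PfP.trans (PfP.trans (PfP.trans (PfP.trans (PfP.trans (PfP.trans (PfP.trans (PfP.trans (PfP.trans (PfP.trans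
 (PfP.trans (PfP.trans (PfP.trans (PfP.trans (PfP.trans (PfP.trans (PfP.trans (PfP.trans (PfP.trans (PfP.trans (PfP.trans (PfP.trans (PfP.trans (PfP.trans (PfP.trans (PfP.trans (PfP.trans (PfP.trans (PfP.trans (PfP.trans (PfP.trans (PfP.trans (PfP.trans (PfP.trans (PfP.trans (PfP.trans (PfP.trans (PfP.trans (PfP.trans (PfP.trans (PfP.trans (PfP.trans (PfP.trans (PfP.trans (PfP.trans (PfP.trans (PfP.trans (PfP.trans (PfP.trans (PfP.trans (PfP.trans (PfP.trans (PfP.trans (PfP.trans (PfP.trans (PfP.trans (PfP.trans (PfP.trans (PfP.trans (PfP.trans (PfP.trans (PfP.trans (PfP.trans (PfP.trans (PfP.trans (PfP.trans (PfP.trans (PfP.trans (PfP.trans (PfP.trans (PfP.trans (PfP.trans (PfP.trans (PfP.trans (PfP.trans (PfP.trans (PfP.trans (PfP.trans (PfP.trans (PfP.trans (PfP.trans (PfP.trans (PfP.trans (pfC_sound p12_11_0_0) (pfC_sound p12_11_0_1)) (pfC_sound p12_11_0_2)) (pfC_sound p12_11_0_3)) (pfC_sound p12_11_0_4)) (pfC_sound p12_11_0_5)) (pfC_sound p12_11_0_6)) (pfC_sound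 p12_11_0_7)) (pfC_sound p12_11_0_8)) (pfC_sound p12_11_0_9)) (pfC_sound p12_11_0_10)) (pfC_sound p12_11_0_11)) (pfC_sound p12_11_0_12)) (pfC_sound p12_11_0_13)) (pfC_sound p12_11_0_14)) (pfC_sound p12_11_0_15))
 (pfC_sound p12_11_0_16)) (pfC_sound p12_11_0_17)) (pfC_sound p12_11_0_18)) (pfC_sound p12_11_0_19)) (pfC_sound p12_11_0_20)) (pfC_sound p12_11_0_21)) (pfC_sound p12_11_0_22)) (pfC_sound p12_11_0_23)) (pfC_sound p12_11_0_24)) (pfC_sound p12_11_0_25)) (pfC_sound p12_11_0_26)) (pfC_sound p12_11_0_27)) (pfC_sound p12_11_0_28)) (pfC_sound p12_11_0_29)) (pfC_sound p12_11_0_30)) (pfC_sound p12_11_0_31)) (pfC_sound p12_11_0_32)) (pfC_sound p12_11_0_33)) (pfC_sound p12_11_0_34)) (pfC_sound p12_11_0_35)) (pfC_sound p12_11_0_36)) (pfC_sound p12_11_0_37)) (pfC_sound p12_11_0_38)) (pfC_sound p12_11_0_39)) (pfC_sound p12_11_0_40)) (pfC_sound p12_11_0_41)) (pfC_sound p12_11_0_42)) (pfC_sound p12_11_0_43)) (pfC_sound p12_11_0_44)) (pfC_sound p12_11_0_45)) (pfC_sound p12_11_0_46))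 (pfC_sound p12_11_0_47)) (pfC_sound p12_11_0_48)) (pfC_sound p12_11_0_49)) (pfC_sound p12_11_0_50)) (pfC_sound p12_11_0_51)) (pfC_sound p12_11_0_52)) (pfC_sound p12_11_0_53)) (pfC_sound p12_11_0_54)) (pfC_sound p12_11_0_55)) (pfC_sound p12_11_0_56)) (pfC_sound p12_11_0_57)) (pfC_sound p12_11_0_58)) (pfC_sound p12_11_0_59)) (pfC_sound p12_11_0_60)) (pfC_sound p12_11_0_61)) (pfC_sound p12_11_0_62)) (pfC_sound p12_11_0_63))
 (pfC_sound p12_11_0_64)) (pfC_sound p12_11_0_65)) (pfC_sound p12_11_0_66)) (pfC_sound p12_11_0_67)) (pfC_sound p12_11_0_68)) (pfC_sound p12_11_0_69)) (pfC_sound p12_11_0_70)) (pfC_sound p12_11_0_71)) (pfC_sound p12_11_0_72)) (pfC_sound p12_11_0_73)) (pfC_sound p12_11_0_74)) (pfC_sound p12_11_0_75)) (pfC_sound p12_11_0_76)) (pfC_sound p12_11_0_77)) (pfC_sound p12_11_0_78)) (pfC_sound p12_11_0_79)) (pfC_sound p12_11_0_80)) (pfC_sound p12_11_0_81)) (pfC_sound p12_11_0_82)) (pfC_sound p12_11_0_83)) (pfC_sound p12_11_0_84)) (pfC_sound p12_11_0_85))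 (pfC_sound p12_11_0_86)) (pfC_sound p12_11_0_87)) (pfC_sound p12_11_0_88)) (pfC_sound p12_11_0_89)) (pfC_sound p12_11_0_90)) (pfC_sound p12_11_0_91)) (pfC_sound p12_11_0_92)) (pfC_sound p12_11_0_93)) (pfC_sound p12_11_0_94)) (pfC_sound p12_11_0_95)) (pfC_sound p12_11_0_96)) (pfC_sound p12_11_0_97)) (pfC_sound p12_11_0_98)) (pfC_sound p12_11_0_99)) (pfC_sound p12_11_0_100)) (pfC_sound p12_11_0_101)) (pfC_sound p12_11_0_102)) (pfC_sound p12_11_0_103)) (pfC_sound p12_11_0_104)) (pfC_sound p12_11_0_105)) (pfC_sound p12_11_0_106)) (pfC_sound p12_11_0_107)) (pfC_sound p12_11_0_108)) (pfC_sound p12_11_0_109)) (pfC_sound p12_11_0_110)) (pfC_sound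
 p12_11_0_111)) (pfC_sound p12_11_0_112)) (pfC_sound p12_11_0_113)) (pfC_sound p12_11_0_114)) (pfC_sound p12_11_0_115)) (pfC_sound p12_11_0_116)) (pfC_sound p12_11_0_117)) (pfC_sound p12_11_0_118)) (pfC_sound p12_11_0_119)) (pfC_sound p12_11_0_120)) (pfC_sound p12_11_0_121)) (pfC_sound p12_11_0_122)) (pfC_sound p12_11_0_123)) (pfC_sound p12_11_0_124)) (pfC_sound p12_11_0_125)) (pfC_sound p12_11_0_126)) (pfC_sound p12_11_0_127)) (pfC_sound p12_11_0_128)) (pfC_sound p12_11_0_129)) (pfC_sound p12_11_0_130)) (pfC_sound p12_11_0_131)) (pfC_sound p12_11_0_132)) (pfC_sound p12_11_0_133)) (pfC_sound p12_11_0_134)) (pfC_sound p12_11_0_135)) (pfC_sound p12_11_0_136)) (pfC_sound p12_11_0_137)) (pfC_sound p12_11_0_138)) (pfC_sound p12_11_0_139)) (pfC_sound p12_11_0_140)) (pfC_sound p12_11_0_141)) (pfC_sound p12_11_0_142)) (pfC_sound p12_11_0_143)) (pfC_sound p12_11_0_144)) (pfC_sound p12_11_0_145)) (pfC_sound p12_11_0_146)) (pfC_sound p12_11_0_147)) (pfC_sound p12_11_0_148))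 (pfC_sound p12_11_0_149)) (pfC_sound p12_11_0_150)) (pfC_sound p12_11_0_151)) (pfC_sound p12_11_0_152)) (pfC_sound p12_11_0_153)) (pfC_sound p12_11_0_154)) (pfC_sound p12_11_0_155)) (pfC_sound p12_11_0_156)) (pfC_sound
 p12_11_0_157)) (pfC_sound p12_11_0_158)) (pfC_sound p12_11_0_159)) (pfC_sound p12_11_0_160)) (pfC_sound p12_11_0_161)) (pfC_sound p12_11_0_162)) (pfC_sound p12_11_0_163)) (pfC_sound p12_11_0_164)) (pfC_sound p12_11_0_165)) (pfC_sound p12_11_0_166)) (pfC_sound p12_11_0_167)) (pfC_sound p12_11_0_168)) (pfC_sound p12_11_0_169)) (pfC_sound p12_11_0_170)) (pfC_sound p12_11_0_171)) (pfC_sound p12_11_0_172)) (pfC_sound p12_11_0_173)) (pfC_sound p12_11_0_174)) (pfC_sound p12_11_0_175)) (pfC_sound p12_11_0_176)) (pfC_sound p12_11_0_177)) (pfC_sound p12_11_0_178)) (pfC_sound p12_11_0_179)) (pfC_sound p12_11_0_180)) (pfC_sound p12_11_0_181)) (pfC_sound p12_11_0_182)) (by decide +kernel)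

def z12_11_0 : zOK yB12_11 (nat_lit 0) (nat_lit 0) (nat_lit 400) (nat_lit 28134109) (nat_lit 10847095) = true := by decide +kernel
def g12_11_0 : gOK yB12_11.x P12_11 (nat_lit 1422) (q12_11 :: r12_11) (nat_lit 0) (nat_lit 0) (nat_lit 1) (nat_lit 400) (nat_lit 0) (nat_lit 11000000) (nat_lit 12712500) (nat_lit 12712500) [(nat_lit 800), (nat_lit 1400), (nat_lit 2200)] = true := by decide +kernel
def v12_11_0 : ivC P12_11 s12_11 w12_11 n12_11 (nat_lit 4) (nat_lit 5440) (nat_lit 0) (nat_lit 0) f152_1_0 f160_1_0 (nat_lit 1) (nat_lit 400) f152_1_400 f160_1_400 (nat_lit 28134109) (nat_lit 10847095) p12_11_0 = true := by decide +kernel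
def p12_11_1 : PF := (PF.cons (PF.cons (PF.cons (PF.cons (PF.leaf (nat_lit 2025656) (nat_lit 9401452) (nat_lit 57707360) (nat_lit 9401452) [(nat_lit 0), (nat_lit 0), (nat_lit 0), (nat_lit 0)]) (PF.cons (PF.leaf (nat_lit 2160243) (nat_lit 221421) (nat_lit 57464781) (nat_lit 9422610) [(nat_lit 221421), (nat_lit 0), (nat_lit 0), (nat_lit 0)]) (PF.cons (PF.leaf (nat_lit 2321221) (nat_lit 241275) (nat_lit 57180230) (nat_lit 9446030) [(nat_lit 241275), (nat_lit 0), (nat_lit 0), (nat_lit 0)]) (PF.cons (PF.leaf (nat_lit 2502579) (nat_lit 259074) (nat_lit 56861004) (nat_lit 9470585) [(nat_lit 259074), (nat_lit 0), (nat_lit 0), (nat_lit 0)]) (PF.cons (PF.leaf (nat_lit 2701659) (nat_lit 275290) (nat_lit 56512230) (nat_lit 9495419) [(nat_lit 275290), (nat_lit 0), (nat_lit 0), (nat_lit 0)]) (PF.cons (PF.leaf (nat_lit 2916442) (nat_lit 290223) (nat_lit 56137841) (nat_lit 9519851) [(nat_lit 290223), (nat_lit 0), (nat_lit 0), (nat_lit 0)]) (PF.cons (PF.leaf (nat_lit 3145283)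 (nat_lit 304075) (nat_lit 55741032) (nat_lit 9543329) [(nat_lit 304075), (nat_lit 0), (nat_lit 0), (nat_lit 0)]) (PF.cons PF.nil (PF.cons PF.nil PF.nil))))))))) (PF.cons (PF.cons (PF.leaf (nat_lit 2544406) (nat_lit 1150670) (nat_lit 56465452)
 (nat_lit 9492690) [(nat_lit 0), (nat_lit 1150670), (nat_lit 0), (nat_lit 0)]) (PF.cons (PF.leaf (nat_lit 2722586) (nat_lit 271502) (nat_lit 56144605) (nat_lit 9513478) [(nat_lit 271502), (nat_lit 1179227), (nat_lit 0), (nat_lit 0)]) (PF.cons (PF.leaf (nat_lit 2920928) (nat_lit 287071) (nat_lit 55792600) (nat_lit 9534425) [(nat_lit 287071), (nat_lit 1207644), (nat_lit 0), (nat_lit 0)]) (PF.cons (PF.leaf (nat_lit 3135416) (nat_lit 301342) (nat_lit 55414505) (nat_lit 9554834) [(nat_lit 301342), (nat_lit 1235446), (nat_lit 0), (nat_lit 0)]) (PF.cons (PF.leaf (nat_lit 3364211) (nat_lit 314542) (nat_lit 55014105) (nat_lit 9574168) [(nat_lit 314542), (nat_lit 1262367), (nat_lit 0), (nat_lit 0)]) (PF.cons (PF.leaf (nat_lit 3605625)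 (nat_lit 326825) (nat_lit 54594424) (nat_lit 9592003) [(nat_lit 326825), (nat_lit 1288256), (nat_lit 0), (nat_lit 0)]) (PF.cons PF.nil PF.nil))))))) (PF.cons (PF.cons (PF.leaf (nat_lit 3145077) (nat_lit 1244998) (nat_lit 55052271) (nat_lit 9566545) [(nat_lit 0), (nat_lit 1244998), (nat_lit 0), (nat_lit 0)]) (PF.cons (PF.leaf (nat_lit 3356550) (nat_lit 311062) (nat_lit 54675158) (nat_lit 9582872) [(nat_lit 311062), (nat_lit 1269859), (nat_lit 0), (nat_lit 0)])
 (PF.cons (PF.leaf (nat_lit 3583965) (nat_lit 323791) (nat_lit 54274860) (nat_lit 9598080) [(nat_lit 323791), (nat_lit 1294144), (nat_lit 0), (nat_lit 0)]) (PF.cons (PF.leaf (nat_lit 3824290) (nat_lit 335580) (nat_lit 53855059) (nat_lit 9611754) [(nat_lit 335580), (nat_lit 1317629), (nat_lit 0), (nat_lit 0)]) (PF.cons PF.nil PF.nil))))) (PF.cons (PF.cons (PF.leaf (nat_lit 3806118) (nat_lit 1323058) (nat_lit 53524455) (nat_lit 9615181) [(nat_lit 0), (nat_lit 1323058), (nat_lit 0), (nat_lit 0)]) (PF.cons (PF.leaf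 (nat_lit 4043299) (nat_lit 343310) (nat_lit 53107731) (nat_lit 9624828) [(nat_lit 343310), (nat_lit 1344313), (nat_lit 0), (nat_lit 0)]) (PF.cons (PF.leaf (nat_lit 4293141) (nat_lit 353888) (nat_lit 52673954) (nat_lit 9632642) [(nat_lit 353888), (nat_lit 1364812), (nat_lit 0), (nat_lit 0)]) (PF.cons PF.nil PF.nil)))) (PF.cons (PF.cons (PF.leaf (nat_lit 4510740) (nat_lit 1387147) (nat_lit 51924794) (nat_lit 9635427) [(nat_lit 0), (nat_lit 1387147), (nat_lit 0), (nat_lit 0)]) (PF.cons (PF.leaf (nat_lit 4767494) (nat_lit 369842) (nat_lit 51481587) (nat_lit 9637424) [(nat_lit 369842), (nat_lit 1404989), (nat_lit 0), (nat_lit 0)]) PF.nil)) (PF.cons PF.nil PF.nil)))))) (PF.cons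
 (PF.cons (PF.cons (PF.leaf (nat_lit 3107892) (nat_lit 3093445) (nat_lit 54453068) (nat_lit 9562299) [(nat_lit 0), (nat_lit 0), (nat_lit 3093445), (nat_lit 0)]) (PF.cons (PF.leaf (nat_lit 3296382) (nat_lit 294632) (nat_lit 54118759) (nat_lit 9574715) [(nat_lit 294632), (nat_lit 0), (nat_lit 3120706), (nat_lit 0)]) (PF.cons (PF.leaf (nat_lit 3504276) (nat_lit 309430) (nat_lit 53754884) (nat_lit 9586547) [(nat_lit 309430), (nat_lit 0), (nat_lit 3148519), (nat_lit 0)]) (PF.cons (PF.leaf (nat_lit 3727473) (nat_lit 322793) (nat_lit 53366905) (nat_lit 9597292) [(nat_lit 322793), (nat_lit 0), (nat_lit 3176234), (nat_lit 0)]) (PF.cons (PF.leaf (nat_lit 3963835) (nat_lit 335004) (nat_lit 52958817) (nat_lit 9606571) [(nat_lit 335004), (nat_lit 0), (nat_lit 3203407), (nat_lit 0)]) (PF.cons (PF.leaf (nat_lit 4211837) (nat_lit 346249) (nat_lit 52533741) (nat_lit 9614096) [(nat_lit 346249), (nat_lit 0), (nat_lit 3229725), (nat_lit 0)]) (PF.cons PF.nil PF.nil))))))) (PF.cons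 (PF.cons (PF.leaf (nat_lit 3726595) (nat_lit 1308994) (nat_lit 53009543) (nat_lit 9599919) [(nat_lit 0), (nat_lit 1308994), (nat_lit 3190355), (nat_lit 0)]) (PF.cons (PF.leaf (nat_lit 3945463) (nat_lit 330458) (nat_lit
 52626321) (nat_lit 9607050) [(nat_lit 330458), (nat_lit 1330197), (nat_lit 3214785), (nat_lit 0)]) (PF.cons (PF.leaf (nat_lit 4179191) (nat_lit 342314) (nat_lit 52221855) (nat_lit 9612699) [(nat_lit 342314), (nat_lit 1350780), (nat_lit 3238848), (nat_lit 0)]) (PF.cons (PF.leaf (nat_lit 4424957) (nat_lit 353170) (nat_lit 51799940) (nat_lit 9616593) [(nat_lit 353170), (nat_lit 1370569), (nat_lit 3262199), (nat_lit 0)]) (PF.cons PF.nil PF.nil))))) (PF.cons (PF.cons (PF.leaf (nat_lit 4396383) (nat_lit 1373574) (nat_lit 51478517) (nat_lit 9612802) [(nat_lit 0), (nat_lit 1373574), (nat_lit 3270344), (nat_lit 0)]) (PF.cons (PF.leaf (nat_lit 4637999) (nat_lit 359200) (nat_lit 51062516) (nat_lit 9613273) [(nat_lit 359200), (nat_lit 1391472), (nat_lit 3290878),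 (nat_lit 0)]) (PF.cons (PF.leaf (nat_lit 4891280) (nat_lit 368896) (nat_lit 50631360) (nat_lit 9611815) [(nat_lit 368896), (nat_lit 1408625), (nat_lit 3310592), (nat_lit 0)]) (PF.cons PF.nil PF.nil)))) (PF.cons (PF.cons (PF.leaf (nat_lit 5101675) (nat_lit 1425878) (nat_lit 49898245) (nat_lit 9599731) [(nat_lit 0), (nat_lit 1425878), (nat_lit 3333201), (nat_lit 0)]) (PF.cons PF.nil PF.nil)) (PF.cons PF.nil PF.nil))))) (PF.cons
 (PF.cons (PF.cons (PF.leaf (nat_lit 4299747) (nat_lit 3260612) (nat_lit 50998687) (nat_lit 9588899) [(nat_lit 0), (nat_lit 0), (nat_lit 3260612), (nat_lit 0)]) (PF.cons (PF.leaf (nat_lit 4523598) (nat_lit 346148) (nat_lit 50615409) (nat_lit 9587965) [(nat_lit 346148), (nat_lit 0), (nat_lit 3279644), (nat_lit 0)]) (PF.cons (PF.leaf (nat_lit 4761447) (nat_lit 357193) (nat_lit 50212702) (nat_lit 9585323) [(nat_lit 357193), (nat_lit 0), (nat_lit 3298200), (nat_lit 0)]) (PF.cons (PF.leaf (nat_lit 5010408) (nat_lit 367195) (nat_lit 49794388) (nat_lit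 9580818) [(nat_lit 367195), (nat_lit 0), (nat_lit 3316009), (nat_lit 0)]) (PF.cons PF.nil PF.nil))))) (PF.cons (PF.cons (PF.leaf (nat_lit 4972401) (nat_lit 1411645) (nat_lit 49484984) (nat_lit 9571264) [(nat_lit 0), (nat_lit 1411645), (nat_lit 3320459), (nat_lit 0)]) (PF.cons (PF.leaf (nat_lit 5216512) (nat_lit 371789) (nat_lit 49074627) (nat_lit 9563942) [(nat_lit 371789), (nat_lit 1426659), (nat_lit 3335896), (nat_lit 0)]) (PF.cons PF.nil (PF.cons PF.nil PF.nil)))) (PF.cons (PF.cons (PF.leaf (nat_lit 5673888) (nat_lit 1453965) (nat_lit 47939764) (nat_lit 9530483) [(nat_lit 0), (nat_lit 1453965), (nat_lit 3365316), (nat_lit 0)]) (PF.cons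
 PF.nil PF.nil)) PF.nil))) (PF.cons (PF.cons (PF.cons (PF.leaf (nat_lit 5531835) (nat_lit 3350732) (nat_lit 47558514) (nat_lit 9498101) [(nat_lit 0), (nat_lit 0), (nat_lit 3350732), (nat_lit 0)]) (PF.cons (PF.leaf (nat_lit 5776842) (nat_lit 381587) (nat_lit 47157355) (nat_lit 9484280) [(nat_lit 381587), (nat_lit 0), (nat_lit 3361863), (nat_lit 0)]) (PF.cons PF.nil PF.nil))) (PF.cons (PF.cons (PF.leaf (nat_lit 6226130) (nat_lit 1473244) (nat_lit 46059197) (nat_lit 9434661) [(nat_lit 0), (nat_lit 1473244), (nat_lit 3380569), (nat_lit 0)]) PF.nil) PF.nil)) (PF.cons PF.nil (PF.cons PF.nil PF.nil)))))) (PF.cons (PF.cons (PF.cons (PF.cons (PF.leaf (nat_lit 4201649) (nat_lit 9283443) (nat_lit 48457513) (nat_lit 9367856) [(nat_lit 0), (nat_lit 0), (nat_lit 0), (nat_lit 9283443)]) (PF.cons (PF.leaf (nat_lit 4390172) (nat_lit 309330) (nat_lit 48154918) (nat_lit 9364301) [(nat_lit 309330), (nat_lit 0), (nat_lit 0), (nat_lit 9280262)]) (PF.cons (PF.leaf (nat_lit 4596719)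 (nat_lit 323327) (nat_lit 47827156) (nat_lit 9359317) [(nat_lit 323327), (nat_lit 0), (nat_lit 0), (nat_lit 9275683)]) (PF.cons (PF.leaf (nat_lit 4817121) (nat_lit 335701) (nat_lit 47479365) (nat_lit 9352773) [(nat_lit
 335701), (nat_lit 0), (nat_lit 0), (nat_lit 9269569)]) (PF.cons (PF.leaf (nat_lit 5049318) (nat_lit 346786) (nat_lit 47115273) (nat_lit 9344573) [(nat_lit 346786), (nat_lit 0), (nat_lit 0), (nat_lit 9261818)]) (PF.cons (PF.leaf (nat_lit 5291540) (nat_lit 356810) (nat_lit 46737757) (nat_lit 9334644) [(nat_lit 356810), (nat_lit 0), (nat_lit 0), (nat_lit 9252357)]) (PF.cons PF.nil (PF.cons PF.nil (PF.cons PF.nil PF.nil))))))))) (PF.cons (PF.cons (PF.leaf (nat_lit 4801962) (nat_lit 1343013) (nat_lit 47166772) (nat_lit 9340935) [(nat_lit 0), (nat_lit 1343013), (nat_lit 0), (nat_lit 9258091)]) (PF.cons (PF.leaf (nat_lit 5016832) (nat_lit 341038) (nat_lit 46825936) (nat_lit 9332253) [(nat_lit 341038), (nat_lit 1359752), (nat_lit 0), (nat_lit 9249832)])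 (PF.cons (PF.leaf (nat_lit 5245130) (nat_lit 351819) (nat_lit 46467681) (nat_lit 9321875) [(nat_lit 351819), (nat_lit 1375718), (nat_lit 0), (nat_lit 9239898)]) (PF.cons (PF.leaf (nat_lit 5484047) (nat_lit 361509) (nat_lit 46095466) (nat_lit 9309760) [(nat_lit 361509), (nat_lit 1390808), (nat_lit 0), (nat_lit 9228247)]) (PF.cons (PF.leaf (nat_lit 5731947) (nat_lit 370291) (nat_lit 45711928) (nat_lit 9295885) [(nat_lit 370291), (nat_lit
 1404980), (nat_lit 0), (nat_lit 9214851)]) (PF.cons PF.nil (PF.cons PF.nil PF.nil))))))) (PF.cons (PF.cons (PF.leaf (nat_lit 5442240) (nat_lit 1390595) (nat_lit 45818360) (nat_lit 9295224) [(nat_lit 0), (nat_lit 1390595), (nat_lit 0), (nat_lit 9214036)]) (PF.cons (PF.leaf (nat_lit 5676125) (nat_lit 365442) (nat_lit 45453531) (nat_lit 9281154) [(nat_lit 365442), (nat_lit 1404130), (nat_lit 0), (nat_lit 9200423)]) (PF.cons (PF.leaf (nat_lit 5920278) (nat_lit 373977) (nat_lit 45076690) (nat_lit 9265321) [(nat_lit 373977), (nat_lit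 1416889), (nat_lit 0), (nat_lit 9185065)]) (PF.cons PF.nil (PF.cons PF.nil PF.nil))))) (PF.cons (PF.cons (PF.leaf (nat_lit 6108741) (nat_lit 1427347) (nat_lit 44443447) (nat_lit 9231398) [(nat_lit 0), (nat_lit 1427347), (nat_lit 0), (nat_lit 9151925)]) (PF.cons (PF.leaf (nat_lit 6356282) (nat_lit 384555) (nat_lit 44064777) (nat_lit 9212097) [(nat_lit 384555), (nat_lit 1438091), (nat_lit 0), (nat_lit 9133108)]) (PF.cons PF.nil (PF.cons PF.nil PF.nil)))) (PF.cons (PF.cons (PF.leaf (nat_lit 6791155) (nat_lit 1455076) (nat_lit 43064292) (nat_lit 9150964) [(nat_lit 0), (nat_lit 1455076), (nat_lit 0), (nat_lit 9073248)]) (PF.cons PF.nil PF.nil)) (PF.cons PF.nil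
 PF.nil)))))) (PF.cons (PF.cons (PF.cons (PF.leaf (nat_lit 5325461) (nat_lit 3249412) (nat_lit 45420192) (nat_lit 9259987) [(nat_lit 0), (nat_lit 0), (nat_lit 3249412), (nat_lit 9179221)]) (PF.cons (PF.leaf (nat_lit 5542808) (nat_lit 351735) (nat_lit 45084252) (nat_lit 9246295) [(nat_lit 351735), (nat_lit 0), (nat_lit 3260572), (nat_lit 9165957)]) (PF.cons (PF.leaf (nat_lit 5772893) (nat_lit 361755) (nat_lit 44732390) (nat_lit 9230830) [(nat_lit 361755), (nat_lit 0), (nat_lit 3271139), (nat_lit 9150942)]) (PF.cons (PF.leaf (nat_lit 6012785) (nat_lit 370675) (nat_lit 44368003) (nat_lit 9213624) [(nat_lit 370675), (nat_lit 0), (nat_lit 3280954), (nat_lit 9134203)]) (PF.cons (PF.leaf (nat_lit 6260961) (nat_lit 378692) (nat_lit 43993650) (nat_lit 9194709) [(nat_lit 378692), (nat_lit 0), (nat_lit 3289912), (nat_lit 9115769)]) PF.nil))))) (PF.cons (PF.cons (PF.leaf (nat_lit 5963342) (nat_lit 1411490) (nat_lit 44103975) (nat_lit 9196059) [(nat_lit 0), (nat_lit 1411490),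 (nat_lit 3280328), (nat_lit 9116958)]) (PF.cons (PF.leaf (nat_lit 6197787) (nat_lit 373502) (nat_lit 43748069) (nat_lit 9177330) [(nat_lit 373502), (nat_lit 1422768), (nat_lit 3288450), (nat_lit 9098690)]) (PF.cons
 (PF.leaf (nat_lit 6441803) (nat_lit 381343) (nat_lit 43381408) (nat_lit 9156879) [(nat_lit 381343), (nat_lit 1433313), (nat_lit 3295808), (nat_lit 9078715)]) (PF.cons PF.nil PF.nil)))) (PF.cons (PF.cons (PF.leaf (nat_lit 6622769) (nat_lit 1440748) (nat_lit 42772452) (nat_lit 9116258) [(nat_lit 0), (nat_lit 1440748), (nat_lit 3299730), (nat_lit 9038874)]) (PF.cons (PF.leaf (nat_lit 6869225) (nat_lit 390333) (nat_lit 42405828) (nat_lit 9092831) [(nat_lit 390333), (nat_lit 1449523), (nat_lit 3304843), (nat_lit 9015929)]) PF.nil)) (PF.cons PF.nil (PF.cons PF.nil PF.nil))))) (PF.cons (PF.cons (PF.cons (PF.leaf (nat_lit 6468240) (nat_lit 3282640) (nat_lit 42460629) (nat_lit 9079963) [(nat_lit 0), (nat_lit 0), (nat_lit 3282640), (nat_lit 9002938)]) (PF.cons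 (PF.leaf (nat_lit 6702239) (nat_lit 379540) (nat_lit 42115418) (nat_lit 9057436) [(nat_lit 379540), (nat_lit 0), (nat_lit 3287773), (nat_lit 8980870)]) (PF.cons (PF.leaf (nat_lit 6945215) (nat_lit 386758) (nat_lit 41760543) (nat_lit 9033246) [(nat_lit 386758), (nat_lit 0), (nat_lit 3292174), (nat_lit 8957156)]) (PF.cons PF.nil PF.nil)))) (PF.cons (PF.cons (PF.leaf (nat_lit 7118685) (nat_lit 1448182) (nat_lit 41177281) (nat_lit
 8987423) [(nat_lit 0), (nat_lit 1448182), (nat_lit 3291911), (nat_lit 8912103)]) (PF.cons PF.nil PF.nil)) (PF.cons PF.nil PF.nil))) (PF.cons (PF.cons (PF.cons (PF.leaf (nat_lit 7596618) (nat_lit 3275579) (nat_lit 39658598) (nat_lit 8848383) [(nat_lit 0), (nat_lit 0), (nat_lit 3275579), (nat_lit 8775093)]) (PF.cons PF.nil PF.nil)) (PF.cons PF.nil PF.nil)) (PF.cons PF.nil PF.nil))))) (PF.cons (PF.cons (PF.cons (PF.cons (PF.leaf (nat_lit 6215521) (nat_lit 8767788) (nat_lit 40730554) (nat_lit 8842681) [(nat_lit 0), (nat_lit 0), (nat_lit 0),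 (nat_lit 8767788)]) (PF.cons (PF.leaf (nat_lit 6424862) (nat_lit 350147) (nat_lit 40439627) (nat_lit 8822666) [(nat_lit 350147), (nat_lit 0), (nat_lit 0), (nat_lit 8748185)]) (PF.cons (PF.leaf (nat_lit 6645872) (nat_lit 359310) (nat_lit 40135482) (nat_lit 8800935) [(nat_lit 359310), (nat_lit 0), (nat_lit 0), (nat_lit 8726886)]) (PF.cons (PF.leaf (nat_lit 6875740) (nat_lit 367361) (nat_lit 39821073) (nat_lit 8777619) [(nat_lit 367361), (nat_lit 0), (nat_lit 0), (nat_lit 8704017)]) (PF.cons (PF.leaf (nat_lit 7112970) (nat_lit 374507) (nat_lit 39498608) (nat_lit 8752820) [(nat_lit 374507), (nat_lit 0), (nat_lit 0), (nat_lit 8679676)]) PF.nil)))))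
 (PF.cons (PF.cons (PF.leaf (nat_lit 6818878) (nat_lit 1387879) (nat_lit 39597264) (nat_lit 8756757) [(nat_lit 0), (nat_lit 1387879), (nat_lit 0), (nat_lit 8683455)]) (PF.cons (PF.leaf (nat_lit 7043075) (nat_lit 369010) (nat_lit 39290876) (nat_lit 8732687) [(nat_lit 369010), (nat_lit 1396590), (nat_lit 0), (nat_lit 8659823)]) (PF.cons (PF.leaf (nat_lit 7275919) (nat_lit 376031) (nat_lit 38975686) (nat_lit 8707099) [(nat_lit 376031), (nat_lit 1404591), (nat_lit 0), (nat_lit 8634686)]) (PF.cons PF.nil PF.nil)))) (PF.cons (PF.cons (PF.leaf (nat_lit 7439195) (nat_lit 1408497) (nat_lit 38456331) (nat_lit 8659615) [(nat_lit 0), (nat_lit 1408497), (nat_lit 0), (nat_lit 8587935)]) (PF.cons (PF.leaf (nat_lit 7673583) (nat_lit 383215) (nat_lit 38142090) (nat_lit 8631997) [(nat_lit 383215), (nat_lit 1414984), (nat_lit 0), (nat_lit 8560770)]) PF.nil)) (PF.cons PF.nil (PF.cons PF.nil PF.nil))))) (PF.cons (PF.cons (PF.cons (PF.leaf (nat_lit 7278332) (nat_lit 3179683) (nat_lit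 38200957) (nat_lit 8623628) [(nat_lit 0), (nat_lit 0), (nat_lit 3179683), (nat_lit 8552271)]) (PF.cons (PF.leaf (nat_lit 7501386) (nat_lit 372653) (nat_lit 37904802) (nat_lit 8597341) [(nat_lit 372653), (nat_lit 0),
 (nat_lit 3181183), (nat_lit 8526416)]) (PF.cons (PF.leaf (nat_lit 7732654) (nat_lit 379136) (nat_lit 37600674) (nat_lit 8569602) [(nat_lit 379136), (nat_lit 0), (nat_lit 3182020), (nat_lit 8499121)]) (PF.cons PF.nil PF.nil)))) (PF.cons (PF.cons (PF.leaf (nat_lit 7889278) (nat_lit 1408878) (nat_lit 37104269) (nat_lit 8519443) [(nat_lit 0), (nat_lit 1408878), (nat_lit 3176865), (nat_lit 8449677)]) (PF.cons PF.nil PF.nil)) (PF.cons PF.nil PF.nil))) (PF.cons (PF.cons (PF.cons (PF.leaf (nat_lit 8323780) (nat_lit 3151138) (nat_lit 35818049) (nat_lit 8374762) [(nat_lit 0), (nat_lit 0), (nat_lit 3151138), (nat_lit 8306861)]) (PF.cons PF.nil PF.nil)) (PF.cons PF.nil PF.nil)) PF.nil))) (PF.cons (PF.cons (PF.cons (PF.cons (PF.leaf (nat_lit 7991389) (nat_lit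 8103731) (nat_lit 34627677) (nat_lit 8169940) [(nat_lit 0), (nat_lit 0), (nat_lit 0), (nat_lit 8103731)]) (PF.cons (PF.leaf (nat_lit 8204082) (nat_lit 363283) (nat_lit 34372882) (nat_lit 8142521) [(nat_lit 363283), (nat_lit 0), (nat_lit 0), (nat_lit 8076708)]) (PF.cons PF.nil PF.nil))) (PF.cons (PF.cons (PF.leaf (nat_lit 8567256) (nat_lit 1363138) (nat_lit 33687033) (nat_lit 8063225) [(nat_lit 0), (nat_lit 1363138), (nat_lit 0), (nat_lit
 7998471)]) PF.nil) PF.nil)) (PF.cons PF.nil PF.nil)) (PF.cons PF.nil (PF.cons PF.nil (PF.cons PF.nil (PF.cons PF.nil PF.nil))))))))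

def p12_11_1_0 : pfC (piC [(nat_lit 41351667), (nat_lit 26310893), (nat_lit 19519284), (nat_lit 13318063)] (nat_lit 10847095)) p12_11_1 (nat_lit 4) (nat_lit 0) (nat_lit 1) = true := by decide +kernel
def p12_11_1_1 : pfC (piC [(nat_lit 41351667), (nat_lit 26310893), (nat_lit 19519284), (nat_lit 13318063)] (nat_lit 10847095)) p12_11_1 (nat_lit 4) (nat_lit 1) (nat_lit 2) = true := by decide +kernel
def p12_11_1_2 : pfC (piC [(nat_lit 41351667), (nat_lit 26310893), (nat_lit 19519284), (nat_lit 13318063)] (nat_lit 10847095)) p12_11_1 (nat_lit 4) (nat_lit 2) (nat_lit 3) = true := by decide +kernel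
def p12_11_1_3 : pfC (piC [(nat_lit 41351667), (nat_lit 26310893), (nat_lit 19519284), (nat_lit 13318063)] (nat_lit 10847095)) p12_11_1 (nat_lit 4) (nat_lit 3) (nat_lit 4) = true := by decide +kernel
def p12_11_1_4 : pfC (piC [(nat_lit 41351667), (nat_lit 26310893), (nat_lit 19519284), (nat_lit 13318063)] (nat_lit 10847095)) p12_11_1 (nat_lit 4) (nat_lit 4) (nat_lit 5) = true := by decide +kernel
def p12_11_1_5 : pfC (piC [(nat_lit 41351667), (nat_lit 26310893), (nat_lit 19519284), (nat_lit 13318063)] (nat_lit 10847095)) p12_11_1 (nat_lit 4) (nat_lit 5) (nat_lit 6) = true := by decide +kernel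
def p12_11_1_6 : pfC (piC [(nat_lit 41351667), (nat_lit 26310893), (nat_lit 19519284), (nat_lit 13318063)] (nat_lit 10847095)) p12_11_1 (nat_lit 4) (nat_lit 6) (nat_lit 7) = true := by decide +kernel
def p12_11_1_7 : pfC (piC [(nat_lit 41351667), (nat_lit 26310893), (nat_lit 19519284), (nat_lit 13318063)] (nat_lit 10847095)) p12_11_1 (nat_lit 4) (nat_lit 7) (nat_lit 8) = true := by decide +kernel
def p12_11_1_8 : pfC (piC [(nat_lit 41351667), (nat_lit 26310893), (nat_lit 19519284), (nat_lit 13318063)] (nat_lit 10847095)) p12_11_1 (nat_lit 4) (nat_lit 8) (nat_lit 9) = true := by decide +kernel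
def p12_11_1_9 : pfC (piC [(nat_lit 41351667), (nat_lit 26310893), (nat_lit 19519284), (nat_lit 13318063)] (nat_lit 10847095)) p12_11_1 (nat_lit 4) (nat_lit 9) (nat_lit 10) = true := by decide +kernel
def p12_11_1_10 : pfC (piC [(nat_lit 41351667), (nat_lit 26310893), (nat_lit 19519284), (nat_lit 13318063)] (nat_lit 10847095)) p12_11_1 (nat_lit 4) (nat_lit 10) (nat_lit 11) = true := by decide +kernel
def p12_11_1_11 : pfC (piC [(nat_lit 41351667), (nat_lit 26310893), (nat_lit 19519284), (nat_lit 13318063)] (nat_lit 10847095)) p12_11_1 (nat_lit 4) (nat_lit 11) (nat_lit 12) = true := by decide +kernel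
def p12_11_1_12 : pfC (piC [(nat_lit 41351667), (nat_lit 26310893), (nat_lit 19519284), (nat_lit 13318063)] (nat_lit 10847095)) p12_11_1 (nat_lit 4) (nat_lit 12) (nat_lit 13) = true := by decide +kernel
def p12_11_1_13 : pfC (piC [(nat_lit 41351667), (nat_lit 26310893), (nat_lit 19519284), (nat_lit 13318063)] (nat_lit 10847095)) p12_11_1 (nat_lit 4) (nat_lit 13) (nat_lit 14) = true := by decide +kernel
def p12_11_1_14 : pfC (piC [(nat_lit 41351667), (nat_lit 26310893), (nat_lit 19519284), (nat_lit 13318063)] (nat_lit 10847095)) p12_11_1 (nat_lit 4) (nat_lit 14) (nat_lit 15) = true := by decide +kernel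
def p12_11_1_15 : pfC (piC [(nat_lit 41351667), (nat_lit 26310893), (nat_lit 19519284), (nat_lit 13318063)] (nat_lit 10847095)) p12_11_1 (nat_lit 4) (nat_lit 15) (nat_lit 16) = true := by decide +kernel
def p12_11_1_16 : pfC (piC [(nat_lit 41351667), (nat_lit 26310893), (nat_lit 19519284), (nat_lit 13318063)] (nat_lit 10847095)) p12_11_1 (nat_lit 4) (nat_lit 16) (nat_lit 17) = true := by decide +kernel
def p12_11_1_17 : pfC (piC [(nat_lit 41351667), (nat_lit 26310893), (nat_lit 19519284), (nat_lit 13318063)] (nat_lit 10847095)) p12_11_1 (nat_lit 4) (nat_lit 17) (nat_lit 18) = true := by decide +kernel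
def p12_11_1_18 : pfC (piC [(nat_lit 41351667), (nat_lit 26310893), (nat_lit 19519284), (nat_lit 13318063)] (nat_lit 10847095)) p12_11_1 (nat_lit 4) (nat_lit 18) (nat_lit 19) = true := by decide +kernel
def p12_11_1_19 : pfC (piC [(nat_lit 41351667), (nat_lit 26310893), (nat_lit 19519284), (nat_lit 13318063)] (nat_lit 10847095)) p12_11_1 (nat_lit 4) (nat_lit 19) (nat_lit 20) = true := by decide +kernel
def p12_11_1_20 : pfC (piC [(nat_lit 41351667), (nat_lit 26310893), (nat_lit 19519284), (nat_lit 13318063)] (nat_lit 10847095)) p12_11_1 (nat_lit 4) (nat_lit 20) (nat_lit 21) = true := by decide +kernel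
def p12_11_1_21 : pfC (piC [(nat_lit 41351667), (nat_lit 26310893), (nat_lit 19519284), (nat_lit 13318063)] (nat_lit 10847095)) p12_11_1 (nat_lit 4) (nat_lit 21) (nat_lit 22) = true := by decide +kernel
def p12_11_1_22 : pfC (piC [(nat_lit 41351667), (nat_lit 26310893), (nat_lit 19519284), (nat_lit 13318063)] (nat_lit 10847095)) p12_11_1 (nat_lit 4) (nat_lit 22) (nat_lit 23) = true := by decide +kernel
def p12_11_1_23 : pfC (piC [(nat_lit 41351667), (nat_lit 26310893), (nat_lit 19519284), (nat_lit 13318063)] (nat_lit 10847095)) p12_11_1 (nat_lit 4) (nat_lit 23) (nat_lit 24) = true := by decide +kernel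
def p12_11_1_24 : pfC (piC [(nat_lit 41351667), (nat_lit 26310893), (nat_lit 19519284), (nat_lit 13318063)] (nat_lit 10847095)) p12_11_1 (nat_lit 4) (nat_lit 24) (nat_lit 25) = true := by decide +kernel
def p12_11_1_25 : pfC (piC [(nat_lit 41351667), (nat_lit 26310893), (nat_lit 19519284), (nat_lit 13318063)] (nat_lit 10847095)) p12_11_1 (nat_lit 4) (nat_lit 25) (nat_lit 26) = true := by decide +kernel
def p12_11_1_26 : pfC (piC [(nat_lit 41351667), (nat_lit 26310893), (nat_lit 19519284), (nat_lit 13318063)] (nat_lit 10847095)) p12_11_1 (nat_lit 4) (nat_lit 26) (nat_lit 27) = true := by decide +kernel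
def p12_11_1_27 : pfC (piC [(nat_lit 41351667), (nat_lit 26310893), (nat_lit 19519284), (nat_lit 13318063)] (nat_lit 10847095)) p12_11_1 (nat_lit 4) (nat_lit 27) (nat_lit 28) = true := by decide +kernel
def p12_11_1_28 : pfC (piC [(nat_lit 41351667), (nat_lit 26310893), (nat_lit 19519284), (nat_lit 13318063)] (nat_lit 10847095)) p12_11_1 (nat_lit 4) (nat_lit 28) (nat_lit 29) = true := by decide +kernel
def p12_11_1_29 : pfC (piC [(nat_lit 41351667), (nat_lit 26310893), (nat_lit 19519284), (nat_lit 13318063)] (nat_lit 10847095)) p12_11_1 (nat_lit 4) (nat_lit 29) (nat_lit 30) = true := by decide +kernel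
def p12_11_1_30 : pfC (piC [(nat_lit 41351667), (nat_lit 26310893), (nat_lit 19519284), (nat_lit 13318063)] (nat_lit 10847095)) p12_11_1 (nat_lit 4) (nat_lit 30) (nat_lit 31) = true := by decide +kernel
def p12_11_1_31 : pfC (piC [(nat_lit 41351667), (nat_lit 26310893), (nat_lit 19519284), (nat_lit 13318063)] (nat_lit 10847095)) p12_11_1 (nat_lit 4) (nat_lit 31) (nat_lit 32) = true := by decide +kernel
def p12_11_1_32 : pfC (piC [(nat_lit 41351667), (nat_lit 26310893), (nat_lit 19519284), (nat_lit 13318063)] (nat_lit 10847095)) p12_11_1 (nat_lit 4) (nat_lit 32) (nat_lit 33) = true := by decide +kernel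
def p12_11_1_33 : pfC (piC [(nat_lit 41351667), (nat_lit 26310893), (nat_lit 19519284), (nat_lit 13318063)] (nat_lit 10847095)) p12_11_1 (nat_lit 4) (nat_lit 33) (nat_lit 34) = true := by decide +kernel
def p12_11_1_34 : pfC (piC [(nat_lit 41351667), (nat_lit 26310893), (nat_lit 19519284), (nat_lit 13318063)] (nat_lit 10847095)) p12_11_1 (nat_lit 4) (nat_lit 34) (nat_lit 35) = true := by decide +kernel
def p12_11_1_35 : pfC (piC [(nat_lit 41351667), (nat_lit 26310893), (nat_lit 19519284), (nat_lit 13318063)] (nat_lit 10847095)) p12_11_1 (nat_lit 4) (nat_lit 35) (nat_lit 36) = true := by decide +kernel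
def p12_11_1_36 : pfC (piC [(nat_lit 41351667), (nat_lit 26310893), (nat_lit 19519284), (nat_lit 13318063)] (nat_lit 10847095)) p12_11_1 (nat_lit 4) (nat_lit 36) (nat_lit 37) = true := by decide +kernel
def p12_11_1_37 : pfC (piC [(nat_lit 41351667), (nat_lit 26310893), (nat_lit 19519284), (nat_lit 13318063)] (nat_lit 10847095)) p12_11_1 (nat_lit 4) (nat_lit 37) (nat_lit 38) = true := by decide +kernel
def p12_11_1_38 : pfC (piC [(nat_lit 41351667), (nat_lit 26310893), (nat_lit 19519284), (nat_lit 13318063)] (nat_lit 10847095)) p12_11_1 (nat_lit 4) (nat_lit 38) (nat_lit 39) = true := by decide +kernel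
def p12_11_1_39 : pfC (piC [(nat_lit 41351667), (nat_lit 26310893), (nat_lit 19519284), (nat_lit 13318063)] (nat_lit 10847095)) p12_11_1 (nat_lit 4) (nat_lit 39) (nat_lit 40) = true := by decide +kernel
def p12_11_1_40 : pfC (piC [(nat_lit 41351667), (nat_lit 26310893), (nat_lit 19519284), (nat_lit 13318063)] (nat_lit 10847095)) p12_11_1 (nat_lit 4) (nat_lit 40) (nat_lit 41) = true := by decide +kernel
def p12_11_1_41 : pfC (piC [(nat_lit 41351667), (nat_lit 26310893), (nat_lit 19519284), (nat_lit 13318063)] (nat_lit 10847095)) p12_11_1 (nat_lit 4) (nat_lit 41) (nat_lit 42) = true := by decide +kernel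
def p12_11_1_42 : pfC (piC [(nat_lit 41351667), (nat_lit 26310893), (nat_lit 19519284), (nat_lit 13318063)] (nat_lit 10847095)) p12_11_1 (nat_lit 4) (nat_lit 42) (nat_lit 43) = true := by decide +kernel
def p12_11_1_43 : pfC (piC [(nat_lit 41351667), (nat_lit 26310893), (nat_lit 19519284), (nat_lit 13318063)] (nat_lit 10847095)) p12_11_1 (nat_lit 4) (nat_lit 43) (nat_lit 44) = true := by decide +kernel
def p12_11_1_44 : pfC (piC [(nat_lit 41351667), (nat_lit 26310893), (nat_lit 19519284), (nat_lit 13318063)] (nat_lit 10847095)) p12_11_1 (nat_lit 4) (nat_lit 44) (nat_lit 45) = true := by decide +kernel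
def p12_11_1_45 : pfC (piC [(nat_lit 41351667), (nat_lit 26310893), (nat_lit 19519284), (nat_lit 13318063)] (nat_lit 10847095)) p12_11_1 (nat_lit 4) (nat_lit 45) (nat_lit 46) = true := by decide +kernel
def p12_11_1_46 : pfC (piC [(nat_lit 41351667), (nat_lit 26310893), (nat_lit 19519284), (nat_lit 13318063)] (nat_lit 10847095)) p12_11_1 (nat_lit 4) (nat_lit 46) (nat_lit 47) = true := by decide +kernel
def p12_11_1_47 : pfC (piC [(nat_lit 41351667), (nat_lit 26310893), (nat_lit 19519284), (nat_lit 13318063)] (nat_lit 10847095)) p12_11_1 (nat_lit 4) (nat_lit 47) (nat_lit 48) = true := by decide +kernel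
def p12_11_1_48 : pfC (piC [(nat_lit 41351667), (nat_lit 26310893), (nat_lit 19519284), (nat_lit 13318063)] (nat_lit 10847095)) p12_11_1 (nat_lit 4) (nat_lit 48) (nat_lit 49) = true := by decide +kernel
def p12_11_1_49 : pfC (piC [(nat_lit 41351667), (nat_lit 26310893), (nat_lit 19519284), (nat_lit 13318063)] (nat_lit 10847095)) p12_11_1 (nat_lit 4) (nat_lit 49) (nat_lit 50) = true := by decide +kernel
def p12_11_1_50 : pfC (piC [(nat_lit 41351667), (nat_lit 26310893), (nat_lit 19519284), (nat_lit 13318063)] (nat_lit 10847095)) p12_11_1 (nat_lit 4) (nat_lit 50) (nat_lit 51) = true := by decide +kernel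
def p12_11_1_51 : pfC (piC [(nat_lit 41351667), (nat_lit 26310893), (nat_lit 19519284), (nat_lit 13318063)] (nat_lit 10847095)) p12_11_1 (nat_lit 4) (nat_lit 51) (nat_lit 52) = true := by decide +kernel
def p12_11_1_52 : pfC (piC [(nat_lit 41351667), (nat_lit 26310893), (nat_lit 19519284), (nat_lit 13318063)] (nat_lit 10847095)) p12_11_1 (nat_lit 4) (nat_lit 52) (nat_lit 53) = true := by decide +kernel
def p12_11_1_53 : pfC (piC [(nat_lit 41351667), (nat_lit 26310893), (nat_lit 19519284), (nat_lit 13318063)] (nat_lit 10847095)) p12_11_1 (nat_lit 4) (nat_lit 53) (nat_lit 54) = true := by decide +kernel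
def p12_11_1_54 : pfC (piC [(nat_lit 41351667), (nat_lit 26310893), (nat_lit 19519284), (nat_lit 13318063)] (nat_lit 10847095)) p12_11_1 (nat_lit 4) (nat_lit 54) (nat_lit 55) = true := by decide +kernel
def p12_11_1_55 : pfC (piC [(nat_lit 41351667), (nat_lit 26310893), (nat_lit 19519284), (nat_lit 13318063)] (nat_lit 10847095)) p12_11_1 (nat_lit 4) (nat_lit 55) (nat_lit 56) = true := by decide +kernel
def p12_11_1_56 : pfC (piC [(nat_lit 41351667), (nat_lit 26310893), (nat_lit 19519284), (nat_lit 13318063)] (nat_lit 10847095)) p12_11_1 (nat_lit 4) (nat_lit 56) (nat_lit 57) = true := by decide +kernel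
def p12_11_1_57 : pfC (piC [(nat_lit 41351667), (nat_lit 26310893), (nat_lit 19519284), (nat_lit 13318063)] (nat_lit 10847095)) p12_11_1 (nat_lit 4) (nat_lit 57) (nat_lit 58) = true := by decide +kernel
def p12_11_1_58 : pfC (piC [(nat_lit 41351667), (nat_lit 26310893), (nat_lit 19519284), (nat_lit 13318063)] (nat_lit 10847095)) p12_11_1 (nat_lit 4) (nat_lit 58) (nat_lit 59) = true := by decide +kernel
def p12_11_1_59 : pfC (piC [(nat_lit 41351667), (nat_lit 26310893), (nat_lit 19519284), (nat_lit 13318063)] (nat_lit 10847095)) p12_11_1 (nat_lit 4) (nat_lit 59) (nat_lit 60) = true := by decide +kernel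
def p12_11_1_60 : pfC (piC [(nat_lit 41351667), (nat_lit 26310893), (nat_lit 19519284), (nat_lit 13318063)] (nat_lit 10847095)) p12_11_1 (nat_lit 4) (nat_lit 60) (nat_lit 61) = true := by decide +kernel
def p12_11_1_61 : pfC (piC [(nat_lit 41351667), (nat_lit 26310893), (nat_lit 19519284), (nat_lit 13318063)] (nat_lit 10847095)) p12_11_1 (nat_lit 4) (nat_lit 61) (nat_lit 62) = true := by decide +kernel
def p12_11_1_62 : pfC (piC [(nat_lit 41351667), (nat_lit 26310893), (nat_lit 19519284), (nat_lit 13318063)] (nat_lit 10847095)) p12_11_1 (nat_lit 4) (nat_lit 62) (nat_lit 63) = true := by decide +kernel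
def p12_11_1_63 : pfC (piC [(nat_lit 41351667), (nat_lit 26310893), (nat_lit 19519284), (nat_lit 13318063)] (nat_lit 10847095)) p12_11_1 (nat_lit 4) (nat_lit 63) (nat_lit 64) = true := by decide +kernel
def p12_11_1_64 : pfC (piC [(nat_lit 41351667), (nat_lit 26310893), (nat_lit 19519284), (nat_lit 13318063)] (nat_lit 10847095)) p12_11_1 (nat_lit 4) (nat_lit 64) (nat_lit 65) = true := by decide +kernel
def p12_11_1_65 : pfC (piC [(nat_lit 41351667), (nat_lit 26310893), (nat_lit 19519284), (nat_lit 13318063)] (nat_lit 10847095)) p12_11_1 (nat_lit 4) (nat_lit 65) (nat_lit 66) = true := by decide +kernel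
def p12_11_1_66 : pfC (piC [(nat_lit 41351667), (nat_lit 26310893), (nat_lit 19519284), (nat_lit 13318063)] (nat_lit 10847095)) p12_11_1 (nat_lit 4) (nat_lit 66) (nat_lit 67) = true := by decide +kernel
def p12_11_1_67 : pfC (piC [(nat_lit 41351667), (nat_lit 26310893), (nat_lit 19519284), (nat_lit 13318063)] (nat_lit 10847095)) p12_11_1 (nat_lit 4) (nat_lit 67) (nat_lit 68) = true := by decide +kernel
def p12_11_1_68 : pfC (piC [(nat_lit 41351667), (nat_lit 26310893), (nat_lit 19519284), (nat_lit 13318063)] (nat_lit 10847095)) p12_11_1 (nat_lit 4) (nat_lit 68) (nat_lit 69) = true := by decide +kernel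
def p12_11_1_69 : pfC (piC [(nat_lit 41351667), (nat_lit 26310893), (nat_lit 19519284), (nat_lit 13318063)] (nat_lit 10847095)) p12_11_1 (nat_lit 4) (nat_lit 69) (nat_lit 70) = true := by decide +kernel
def p12_11_1_70 : pfC (piC [(nat_lit 41351667), (nat_lit 26310893), (nat_lit 19519284), (nat_lit 13318063)] (nat_lit 10847095)) p12_11_1 (nat_lit 4) (nat_lit 70) (nat_lit 71) = true := by decide +kernel
def p12_11_1_71 : pfC (piC [(nat_lit 41351667), (nat_lit 26310893), (nat_lit 19519284), (nat_lit 13318063)] (nat_lit 10847095)) p12_11_1 (nat_lit 4) (nat_lit 71) (nat_lit 72) = true := by decide +kernel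
def p12_11_1_72 : pfC (piC [(nat_lit 41351667), (nat_lit 26310893), (nat_lit 19519284), (nat_lit 13318063)] (nat_lit 10847095)) p12_11_1 (nat_lit 4) (nat_lit 72) (nat_lit 73) = true := by decide +kernel
def p12_11_1_73 : pfC (piC [(nat_lit 41351667), (nat_lit 26310893), (nat_lit 19519284), (nat_lit 13318063)] (nat_lit 10847095)) p12_11_1 (nat_lit 4) (nat_lit 73) (nat_lit 74) = true := by decide +kernel
def p12_11_1_74 : pfC (piC [(nat_lit 41351667), (nat_lit 26310893), (nat_lit 19519284), (nat_lit 13318063)] (nat_lit 10847095)) p12_11_1 (nat_lit 4) (nat_lit 74) (nat_lit 75) = true := by decide +kernel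
def p12_11_1_75 : pfC (piC [(nat_lit 41351667), (nat_lit 26310893), (nat_lit 19519284), (nat_lit 13318063)] (nat_lit 10847095)) p12_11_1 (nat_lit 4) (nat_lit 75) (nat_lit 76) = true := by decide +kernel
def p12_11_1_76 : pfC (piC [(nat_lit 41351667), (nat_lit 26310893), (nat_lit 19519284), (nat_lit 13318063)] (nat_lit 10847095)) p12_11_1 (nat_lit 4) (nat_lit 76) (nat_lit 77) = true := by decide +kernel
def p12_11_1_77 : pfC (piC [(nat_lit 41351667), (nat_lit 26310893), (nat_lit 19519284), (nat_lit 13318063)] (nat_lit 10847095)) p12_11_1 (nat_lit 4) (nat_lit 77) (nat_lit 78) = true := by decide +kernel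
def p12_11_1_78 : pfC (piC [(nat_lit 41351667), (nat_lit 26310893), (nat_lit 19519284), (nat_lit 13318063)] (nat_lit 10847095)) p12_11_1 (nat_lit 4) (nat_lit 78) (nat_lit 79) = true := by decide +kernel
def p12_11_1_79 : pfC (piC [(nat_lit 41351667), (nat_lit 26310893), (nat_lit 19519284), (nat_lit 13318063)] (nat_lit 10847095)) p12_11_1 (nat_lit 4) (nat_lit 79) (nat_lit 80) = true := by decide +kernel
def p12_11_1_80 : pfC (piC [(nat_lit 41351667), (nat_lit 26310893), (nat_lit 19519284), (nat_lit 13318063)] (nat_lit 10847095)) p12_11_1 (nat_lit 4) (nat_lit 80) (nat_lit 81) = true := by decide +kernel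
def p12_11_1_81 : pfC (piC [(nat_lit 41351667), (nat_lit 26310893), (nat_lit 19519284), (nat_lit 13318063)] (nat_lit 10847095)) p12_11_1 (nat_lit 4) (nat_lit 81) (nat_lit 82) = true := by decide +kernel
def p12_11_1_82 : pfC (piC [(nat_lit 41351667), (nat_lit 26310893), (nat_lit 19519284), (nat_lit 13318063)] (nat_lit 10847095)) p12_11_1 (nat_lit 4) (nat_lit 82) (nat_lit 83) = true := by decide +kernel
def p12_11_1_83 : pfC (piC [(nat_lit 41351667), (nat_lit 26310893), (nat_lit 19519284), (nat_lit 13318063)] (nat_lit 10847095)) p12_11_1 (nat_lit 4) (nat_lit 83) (nat_lit 84) = true := by decide +kernel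
def p12_11_1_84 : pfC (piC [(nat_lit 41351667), (nat_lit 26310893), (nat_lit 19519284), (nat_lit 13318063)] (nat_lit 10847095)) p12_11_1 (nat_lit 4) (nat_lit 84) (nat_lit 85) = true := by decide +kernel
def p12_11_1_85 : pfC (piC [(nat_lit 41351667), (nat_lit 26310893), (nat_lit 19519284), (nat_lit 13318063)] (nat_lit 10847095)) p12_11_1 (nat_lit 4) (nat_lit 85) (nat_lit 86) = true := by decide +kernel
def p12_11_1_86 : pfC (piC [(nat_lit 41351667), (nat_lit 26310893), (nat_lit 19519284), (nat_lit 13318063)] (nat_lit 10847095)) p12_11_1 (nat_lit 4) (nat_lit 86) (nat_lit 87) = true := by decide +kernel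
def p12_11_1_87 : pfC (piC [(nat_lit 41351667), (nat_lit 26310893), (nat_lit 19519284), (nat_lit 13318063)] (nat_lit 10847095)) p12_11_1 (nat_lit 4) (nat_lit 87) (nat_lit 88) = true := by decide +kernel
def p12_11_1_88 : pfC (piC [(nat_lit 41351667), (nat_lit 26310893), (nat_lit 19519284), (nat_lit 13318063)] (nat_lit 10847095)) p12_11_1 (nat_lit 4) (nat_lit 88) (nat_lit 89) = true := by decide +kernel
def p12_11_1_89 : pfC (piC [(nat_lit 41351667), (nat_lit 26310893), (nat_lit 19519284), (nat_lit 13318063)] (nat_lit 10847095)) p12_11_1 (nat_lit 4) (nat_lit 89) (nat_lit 90) = true := by decide +kernel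
def p12_11_1_90 : pfC (piC [(nat_lit 41351667), (nat_lit 26310893), (nat_lit 19519284), (nat_lit 13318063)] (nat_lit 10847095)) p12_11_1 (nat_lit 4) (nat_lit 90) (nat_lit 91) = true := by decide +kernel
def p12_11_1_91 : pfC (piC [(nat_lit 41351667), (nat_lit 26310893), (nat_lit 19519284), (nat_lit 13318063)] (nat_lit 10847095)) p12_11_1 (nat_lit 4) (nat_lit 91) (nat_lit 92) = true := by decide +kernel
def p12_11_1_92 : pfC (piC [(nat_lit 41351667), (nat_lit 26310893), (nat_lit 19519284), (nat_lit 13318063)] (nat_lit 10847095)) p12_11_1 (nat_lit 4) (nat_lit 92) (nat_lit 93) = true := by decide +kernel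
def p12_11_1_93 : pfC (piC [(nat_lit 41351667), (nat_lit 26310893), (nat_lit 19519284), (nat_lit 13318063)] (nat_lit 10847095)) p12_11_1 (nat_lit 4) (nat_lit 93) (nat_lit 94) = true := by decide +kernel
def p12_11_1_94 : pfC (piC [(nat_lit 41351667), (nat_lit 26310893), (nat_lit 19519284), (nat_lit 13318063)] (nat_lit 10847095)) p12_11_1 (nat_lit 4) (nat_lit 94) (nat_lit 95) = true := by decide +kernel
def p12_11_1_95 : pfC (piC [(nat_lit 41351667), (nat_lit 26310893), (nat_lit 19519284), (nat_lit 13318063)] (nat_lit 10847095)) p12_11_1 (nat_lit 4) (nat_lit 95) (nat_lit 96) = true := by decide +kernel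
theorem p12_11_1_T : PfS (PiF n12_11.reverse (nat_lit 10847095)) p12_11_1 (nat_lit 4) [] 0 :=
  pftab_of (los := [(nat_lit 41351667), (nat_lit 26310893), (nat_lit 19519284), (nat_lit 13318063)]) (by decide +kernel) (hi := (nat_lit 96)) (PfP.trans (PfP.trans (PfP.trans (PfP.trans (PfP.trans (PfP.trans (PfP.trans (PfP.trans (PfP.trans (PfP.trans (PfP.trans (PfP.trans (PfP.trans (PfP.trans (PfP.trans (PfP.trans (PfP.trans (PfP.trans (PfP.trans (PfP.trans (PfP.trans (PfP.trans (PfP.trans (PfP.trans (PfP.trans (PfP.trans (PfP.trans (PfP.trans (PfP.trans (PfP.trans (PfP.trans (PfP.trans (PfP.trans (PfP.trans (PfP.trans (PfP.trans (PfP.trans (PfP.trans (PfP.trans (PfP.trans (PfP.trans (PfP.trans (PfP.trans (PfP.trans (PfP.trans (PfP.trans (PfP.trans (PfP.trans (PfP.trans (PfP.trans (PfP.trans (PfP.trans (PfP.trans (PfP.trans (PfP.trans (PfP.trans (PfP.trans (PfP.trans (PfP.trans (PfP.trans (PfP.trans (PfP.trans (PfP.trans (PfP.trans (PfP.trans (PfP.trans (PfP.trans (PfP.trans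 (PfP.trans (PfP.trans (PfP.trans (PfP.trans (PfP.trans (PfP.trans (PfP.trans (PfP.trans (PfP.trans (PfP.trans (PfP.trans (PfP.trans (PfP.trans (PfP.trans (PfP.trans (PfP.trans (PfP.trans (PfP.trans (PfP.trans (PfP.trans (PfP.trans (PfP.trans (PfP.trans (PfP.trans (PfP.trans (PfP.trans (PfP.trans (pfC_sound p12_11_1_0) (pfC_sound p12_11_1_1)) (pfC_sound p12_11_1_2)) (pfC_sound p12_11_1_3)) (pfC_sound p12_11_1_4)) (pfC_sound p12_11_1_5)) (pfC_sound
 p12_11_1_6)) (pfC_sound p12_11_1_7)) (pfC_sound p12_11_1_8)) (pfC_sound p12_11_1_9)) (pfC_sound p12_11_1_10)) (pfC_sound p12_11_1_11)) (pfC_sound p12_11_1_12)) (pfC_sound p12_11_1_13)) (pfC_sound p12_11_1_14)) (pfC_sound p12_11_1_15)) (pfC_sound p12_11_1_16)) (pfC_sound p12_11_1_17)) (pfC_sound p12_11_1_18)) (pfC_sound p12_11_1_19)) (pfC_sound p12_11_1_20)) (pfC_sound p12_11_1_21)) (pfC_sound p12_11_1_22)) (pfC_sound p12_11_1_23)) (pfC_sound p12_11_1_24)) (pfC_sound p12_11_1_25)) (pfC_sound p12_11_1_26)) (pfC_sound p12_11_1_27))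 (pfC_sound p12_11_1_28)) (pfC_sound p12_11_1_29)) (pfC_sound p12_11_1_30)) (pfC_sound p12_11_1_31)) (pfC_sound p12_11_1_32)) (pfC_sound p12_11_1_33)) (pfC_sound p12_11_1_34)) (pfC_sound p12_11_1_35)) (pfC_sound p12_11_1_36)) (pfC_sound p12_11_1_37)) (pfC_sound p12_11_1_38)) (pfC_sound p12_11_1_39)) (pfC_sound p12_11_1_40)) (pfC_sound p12_11_1_41)) (pfC_sound p12_11_1_42)) (pfC_sound p12_11_1_43)) (pfC_sound p12_11_1_44)) (pfC_sound p12_11_1_45)) (pfC_sound p12_11_1_46)) (pfC_sound p12_11_1_47)) (pfC_sound p12_11_1_48)) (pfC_sound p12_11_1_49)) (pfC_sound p12_11_1_50)) (pfC_sound p12_11_1_51)) (pfC_sound p12_11_1_52)) (pfC_sound p12_11_1_53)) (pfC_sound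
 p12_11_1_54)) (pfC_sound p12_11_1_55)) (pfC_sound p12_11_1_56)) (pfC_sound p12_11_1_57)) (pfC_sound p12_11_1_58)) (pfC_sound p12_11_1_59)) (pfC_sound p12_11_1_60)) (pfC_sound p12_11_1_61)) (pfC_sound p12_11_1_62)) (pfC_sound p12_11_1_63)) (pfC_sound p12_11_1_64)) (pfC_sound p12_11_1_65)) (pfC_sound p12_11_1_66)) (pfC_sound p12_11_1_67)) (pfC_sound p12_11_1_68)) (pfC_sound p12_11_1_69)) (pfC_sound p12_11_1_70)) (pfC_sound p12_11_1_71)) (pfC_sound p12_11_1_72)) (pfC_sound p12_11_1_73)) (pfC_sound p12_11_1_74)) (pfC_sound p12_11_1_75)) (pfC_sound p12_11_1_76)) (pfC_sound p12_11_1_77)) (pfC_sound p12_11_1_78)) (pfC_sound p12_11_1_79)) (pfC_sound p12_11_1_80)) (pfC_sound p12_11_1_81)) (pfC_sound p12_11_1_82)) (pfC_sound p12_11_1_83)) (pfC_sound p12_11_1_84)) (pfC_sound p12_11_1_85)) (pfC_sound p12_11_1_86)) (pfC_sound p12_11_1_87)) (pfC_sound p12_11_1_88)) (pfC_sound p12_11_1_89)) (pfC_sound p12_11_1_90)) (pfC_sound p12_11_1_91)) (pfC_sound p12_11_1_92)) (pfC_sound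 p12_11_1_93)) (pfC_sound p12_11_1_94)) (pfC_sound p12_11_1_95)) (by decide +kernel)

def z12_11_1 : zOK yB12_11 (nat_lit 1) (nat_lit 400) (nat_lit 600) (nat_lit 10847095) (nat_lit 7298113) = true := by decide +kernel
def g12_11_1 : gOK yB12_11.x P12_11 (nat_lit 1422) (q12_11 :: r12_11) (nat_lit 1) (nat_lit 400) (nat_lit 2) (nat_lit 600) (nat_lit 11000000) (nat_lit 17850000) (nat_lit 12712500) (nat_lit 12712500) [(nat_lit 800), (nat_lit 1040)] = true := by decide +kernel
def v12_11_1 : ivC P12_11 s12_11 w12_11 n12_11 (nat_lit 4) (nat_lit 5040) (nat_lit 1) (nat_lit 400) f152_1_400 f160_1_400 (nat_lit 2) (nat_lit 600) f152_1_600 f160_1_600 (nat_lit 10847095) (nat_lit 7298113) p12_11_1 = true := by decide +kernel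
def p12_11_2 : PF := (PF.cons (PF.cons (PF.cons (PF.cons (PF.leaf (nat_lit 2636080) (nat_lit 14780294) (nat_lit 52328518) (nat_lit 14780294) [(nat_lit 0), (nat_lit 0), (nat_lit 0), (nat_lit 0)]) (PF.cons (PF.leaf (nat_lit 2768770) (nat_lit 224231) (nat_lit 52112388) (nat_lit 14772193) [(nat_lit 224231), (nat_lit 0), (nat_lit 0), (nat_lit 0)]) (PF.cons (PF.leaf (nat_lit 2927093) (nat_lit 243852) (nat_lit 51859307) (nat_lit 14761799) [(nat_lit 243852), (nat_lit 0), (nat_lit 0), (nat_lit 0)]) (PF.cons (PF.leaf (nat_lit 3104965) (nat_lit 261285) (nat_lit 51575923) (nat_lit 14749033) [(nat_lit 261285), (nat_lit 0), (nat_lit 0), (nat_lit 0)]) (PF.cons (PF.leaf (nat_lit 3299663) (nat_lit 277026) (nat_lit 51266920) (nat_lit 14733787) [(nat_lit 277026), (nat_lit 0), (nat_lit 0), (nat_lit 0)]) (PF.cons (PF.leaf (nat_lit 3509113) (nat_lit 291393) (nat_lit 50935892) (nat_lit 14715954) [(nat_lit 291393), (nat_lit 0), (nat_lit 0), (nat_lit 0)]) (PF.cons (PF.leaf (nat_lit 3731626)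 (nat_lit 304604) (nat_lit 50585746) (nat_lit 14695439) [(nat_lit 304604), (nat_lit 0), (nat_lit 0), (nat_lit 0)]) (PF.cons (PF.leaf (nat_lit 3965786) (nat_lit 316817) (nat_lit 50218927) (nat_lit 14672166) [(nat_lit 316817), (nat_lit 0),
 (nat_lit 0), (nat_lit 0)]) (PF.cons PF.nil (PF.cons PF.nil PF.nil)))))))))) (PF.cons (PF.cons (PF.leaf (nat_lit 3139620) (nat_lit 1153792) (nat_lit 51227170) (nat_lit 14727849) [(nat_lit 0), (nat_lit 1153792), (nat_lit 0), (nat_lit 0)]) (PF.cons (PF.leaf (nat_lit 3313536) (nat_lit 272594) (nat_lit 50943520) (nat_lit 14712446) [(nat_lit 272594), (nat_lit 1180251), (nat_lit 0), (nat_lit 0)]) (PF.cons (PF.leaf (nat_lit 3506686) (nat_lit 287644) (nat_lit 50632868) (nat_lit 14694306) [(nat_lit 287644), (nat_lit 1206348), (nat_lit 0), (nat_lit 0)]) (PF.cons (PF.leaf (nat_lit 3715032) (nat_lit 301319) (nat_lit 50299788) (nat_lit 14673410) [(nat_lit 301319), (nat_lit 1231655), (nat_lit 0), (nat_lit 0)]) (PF.cons (PF.leaf (nat_lit 3936719)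 (nat_lit 313861) (nat_lit 49947688) (nat_lit 14649726) [(nat_lit 313861), (nat_lit 1255952), (nat_lit 0), (nat_lit 0)]) (PF.cons (PF.leaf (nat_lit 4170067) (nat_lit 325437) (nat_lit 49579281) (nat_lit 14623222) [(nat_lit 325437), (nat_lit 1279122), (nat_lit 0), (nat_lit 0)]) (PF.cons (PF.leaf (nat_lit 4413853) (nat_lit 336166) (nat_lit 49196818) (nat_lit 14593879) [(nat_lit 336166), (nat_lit 1301112), (nat_lit 0), (nat_lit 0)]) (PF.cons PF.nil (PF.cons
 PF.nil PF.nil))))))))) (PF.cons (PF.cons (PF.leaf (nat_lit 3717671) (nat_lit 1238889) (nat_lit 49982834) (nat_lit 14648199) [(nat_lit 0), (nat_lit 1238889), (nat_lit 0), (nat_lit 0)]) (PF.cons (PF.leaf (nat_lit 3922366) (nat_lit 309859) (nat_lit 49651710) (nat_lit 14624570) [(nat_lit 309859), (nat_lit 1261336), (nat_lit 0), (nat_lit 0)]) (PF.cons (PF.leaf (nat_lit 4142045) (nat_lit 321925) (nat_lit 49300777) (nat_lit 14598008) [(nat_lit 321925), (nat_lit 1283088), (nat_lit 0), (nat_lit 0)]) (PF.cons (PF.leaf (nat_lit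 4373702) (nat_lit 333009) (nat_lit 48933314) (nat_lit 14568546) [(nat_lit 333009), (nat_lit 1303961), (nat_lit 0), (nat_lit 0)]) (PF.cons (PF.leaf (nat_lit 4615886) (nat_lit 343250) (nat_lit 48551883) (nat_lit 14536213) [(nat_lit 343250), (nat_lit 1323856), (nat_lit 0), (nat_lit 0)]) (PF.cons PF.nil (PF.cons PF.nil PF.nil))))))) (PF.cons (PF.cons (PF.leaf (nat_lit 4349261) (nat_lit 1307530) (nat_lit 48645853) (nat_lit 14540368) [(nat_lit 0), (nat_lit 1307530), (nat_lit 0), (nat_lit 0)]) (PF.cons (PF.leaf (nat_lit 4577314) (nat_lit 339603) (nat_lit 48281997) (nat_lit 14508287) [(nat_lit 339603), (nat_lit 1326308), (nat_lit 0), (nat_lit 0)]) (PF.cons (PF.leaf (nat_lit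
 4817100) (nat_lit 349464) (nat_lit 47903739) (nat_lit 14473273) [(nat_lit 349464), (nat_lit 1344290), (nat_lit 0), (nat_lit 0)]) (PF.cons (PF.leaf (nat_lit 5066371) (nat_lit 358570) (nat_lit 47513514) (nat_lit 14435403) [(nat_lit 358570), (nat_lit 1361394), (nat_lit 0), (nat_lit 0)]) (PF.cons PF.nil PF.nil))))) (PF.cons (PF.cons (PF.leaf (nat_lit 5018738) (nat_lit 1362651) (nat_lit 47252980) (nat_lit 14405224) [(nat_lit 0), (nat_lit 1362651), (nat_lit 0), (nat_lit 0)]) (PF.cons (PF.leaf (nat_lit 5264325) (nat_lit 363650) (nat_lit 46867672) (nat_lit 14364987) [(nat_lit 363650), (nat_lit 1378125), (nat_lit 0), (nat_lit 0)]) (PF.cons PF.nil (PF.cons PF.nil PF.nil)))) (PF.cons (PF.cons (PF.leaf (nat_lit 5713770) (nat_lit 1406356) (nat_lit 45832128) (nat_lit 14244900) [(nat_lit 0), (nat_lit 1406356), (nat_lit 0), (nat_lit 0)]) (PF.cons PF.nil PF.nil)) (PF.cons PF.nil (PF.cons PF.nil PF.nil)))))))) (PF.cons (PF.cons (PF.cons (PF.leaf (nat_lit 3668744) (nat_lit 3052993)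 (nat_lit 49465069) (nat_lit 14590750) [(nat_lit 0), (nat_lit 0), (nat_lit 3052993), (nat_lit 0)]) (PF.cons (PF.leaf (nat_lit 3851275) (nat_lit 292868) (nat_lit 49172018) (nat_lit 14568234) [(nat_lit 292868), (nat_lit 0),
 (nat_lit 3075691), (nat_lit 0)]) (PF.cons (PF.leaf (nat_lit 4052247) (nat_lit 307072) (nat_lit 48853464) (nat_lit 14542544) [(nat_lit 307072), (nat_lit 0), (nat_lit 3098659), (nat_lit 0)]) (PF.cons (PF.leaf (nat_lit 4267578) (nat_lit 319795) (nat_lit 48514251) (nat_lit 14513824) [(nat_lit 319795), (nat_lit 0), (nat_lit 3121350), (nat_lit 0)]) (PF.cons (PF.leaf (nat_lit 4495198) (nat_lit 331332) (nat_lit 48157916) (nat_lit 14482164) [(nat_lit 331332), (nat_lit 0), (nat_lit 3143403), (nat_lit 0)]) (PF.cons (PF.leaf (nat_lit 4733520) (nat_lit 341879) (nat_lit 47787212) (nat_lit 14447632) [(nat_lit 341879), (nat_lit 0), (nat_lit 3164567), (nat_lit 0)]) (PF.cons PF.nil (PF.cons PF.nil (PF.cons PF.nil PF.nil))))))))) (PF.cons (PF.cons (PF.leaf (nat_lit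 4260368) (nat_lit 1291459) (nat_lit 48203671) (nat_lit 14482456) [(nat_lit 0), (nat_lit 1291459), (nat_lit 3131225), (nat_lit 0)]) (PF.cons (PF.leaf (nat_lit 4470952) (nat_lit 326408) (nat_lit 47869385) (nat_lit 14451556) [(nat_lit 326408), (nat_lit 1310462), (nat_lit 3151000), (nat_lit 0)]) (PF.cons (PF.leaf (nat_lit 4695588) (nat_lit 337600) (nat_lit 47516957) (nat_lit 14417570) [(nat_lit 337600), (nat_lit 1328773), (nat_lit 3170310),
 (nat_lit 0)]) (PF.cons (PF.leaf (nat_lit 4931333) (nat_lit 347773) (nat_lit 47149719) (nat_lit 14380641) [(nat_lit 347773), (nat_lit 1346252), (nat_lit 3188877), (nat_lit 0)]) (PF.cons (PF.leaf (nat_lit 5176705) (nat_lit 357088) (nat_lit 46770233) (nat_lit 14340882) [(nat_lit 357088), (nat_lit 1362827), (nat_lit 3206515), (nat_lit 0)]) (PF.cons PF.nil (PF.cons PF.nil PF.nil))))))) (PF.cons (PF.cons (PF.leaf (nat_lit 4897565) (nat_lit 1347778) (nat_lit 46871605) (nat_lit 14347849) [(nat_lit 0), (nat_lit 1347778), (nat_lit 3193800),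 (nat_lit 0)]) (PF.cons (PF.leaf (nat_lit 5128958) (nat_lit 352833) (nat_lit 46510112) (nat_lit 14308893) [(nat_lit 352833), (nat_lit 1363517), (nat_lit 3209938), (nat_lit 0)]) (PF.cons (PF.leaf (nat_lit 5371201) (nat_lit 361860) (nat_lit 46135770) (nat_lit 14267041) [(nat_lit 361860), (nat_lit 1378501), (nat_lit 3225277), (nat_lit 0)]) (PF.cons PF.nil (PF.cons PF.nil PF.nil))))) (PF.cons (PF.cons (PF.leaf (nat_lit 5565967) (nat_lit 1392487) (nat_lit 45501235) (nat_lit 14188922) [(nat_lit 0), (nat_lit 1392487), (nat_lit 3241192), (nat_lit 0)]) (PF.cons (PF.leaf (nat_lit 5812649) (nat_lit 373949) (nat_lit 45122889) (nat_lit 14142545) [(nat_lit 373949),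
 (nat_lit 1405291), (nat_lit 3253555), (nat_lit 0)]) (PF.cons PF.nil (PF.cons PF.nil PF.nil)))) (PF.cons (PF.cons (PF.leaf (nat_lit 6254494) (nat_lit 1427332) (nat_lit 44116542) (nat_lit 14008379) [(nat_lit 0), (nat_lit 1427332), (nat_lit 3274561), (nat_lit 0)]) (PF.cons PF.nil PF.nil)) (PF.cons PF.nil PF.nil)))))) (PF.cons (PF.cons (PF.cons (PF.leaf (nat_lit 4793922) (nat_lit 3180727) (nat_lit 46461099) (nat_lit 14286257) [(nat_lit 0), (nat_lit 0), (nat_lit 3180727), (nat_lit 0)]) (PF.cons (PF.leaf (nat_lit 5008476) (nat_lit 339660) (nat_lit 46128186) (nat_lit 14249201) [(nat_lit 339660), (nat_lit 0), (nat_lit 3195882), (nat_lit 0)]) (PF.cons (PF.leaf (nat_lit 5236237) (nat_lit 350066) (nat_lit 45778651) (nat_lit 14209002) [(nat_lit 350066), (nat_lit 0), (nat_lit 3210513), (nat_lit 0)]) (PF.cons (PF.leaf (nat_lit 5474352) (nat_lit 359428) (nat_lit 45415819) (nat_lit 14165890) [(nat_lit 359428), (nat_lit 0), (nat_lit 3224408), (nat_lit 0)]) (PF.cons PF.nil PF.nil)))))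 (PF.cons (PF.cons (PF.leaf (nat_lit 5432234) (nat_lit 1377487) (nat_lit 45148877) (nat_lit 14129652) [(nat_lit 0), (nat_lit 1377487), (nat_lit 3226397), (nat_lit 0)]) (PF.cons (PF.leaf (nat_lit 5665408) (nat_lit
 363216) (nat_lit 44793298) (nat_lit 14085077) [(nat_lit 363216), (nat_lit 1390662), (nat_lit 3238279), (nat_lit 0)]) (PF.cons (PF.leaf (nat_lit 5908674) (nat_lit 371501) (nat_lit 44426221) (nat_lit 14037692) [(nat_lit 371501), (nat_lit 1403118), (nat_lit 3249388), (nat_lit 0)]) (PF.cons PF.nil PF.nil)))) (PF.cons (PF.cons (PF.leaf (nat_lit 6096240) (nat_lit 1413513) (nat_lit 43811964) (nat_lit 13951819) [(nat_lit 0), (nat_lit 1413513), (nat_lit 3259000), (nat_lit 0)]) (PF.cons (PF.leaf (nat_lit 6342811) (nat_lit 381798) (nat_lit 43443217) (nat_lit 13900588) [(nat_lit 381798), (nat_lit 1424055), (nat_lit 3267548), (nat_lit 0)]) PF.nil)) (PF.cons PF.nil (PF.cons PF.nil PF.nil))))) (PF.cons (PF.cons (PF.cons (PF.leaf (nat_lit 5951823) (nat_lit 3243233) (nat_lit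 43487161) (nat_lit 13891950) [(nat_lit 0), (nat_lit 0), (nat_lit 3243233), (nat_lit 0)]) (PF.cons (PF.leaf (nat_lit 6185524) (nat_lit 371224) (nat_lit 43140015) (nat_lit 13842909) [(nat_lit 371224), (nat_lit 0), (nat_lit 3251554), (nat_lit 0)]) (PF.cons (PF.leaf (nat_lit 6428675) (nat_lit 378843) (nat_lit 42782549) (nat_lit 13791175) [(nat_lit 378843), (nat_lit 0), (nat_lit 3259133), (nat_lit 0)]) (PF.cons PF.nil PF.nil))))
 (PF.cons (PF.cons (PF.leaf (nat_lit 6608876) (nat_lit 1427319) (nat_lit 42191126) (nat_lit 13699552) [(nat_lit 0), (nat_lit 1427319), (nat_lit 3263604), (nat_lit 0)]) (PF.cons PF.nil PF.nil)) (PF.cons PF.nil PF.nil))) (PF.cons (PF.cons (PF.cons (PF.leaf (nat_lit 7103670) (nat_lit 3257544) (nat_lit 40641779) (nat_lit 13436853) [(nat_lit 0), (nat_lit 0), (nat_lit 3257544), (nat_lit 0)]) (PF.cons PF.nil PF.nil)) (PF.cons PF.nil PF.nil)) (PF.cons PF.nil PF.nil)))))) (PF.cons (PF.cons (PF.cons (PF.cons (PF.leaf (nat_lit 4664323) (nat_lit 8911431)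 (nat_lit 44308649) (nat_lit 13888732) [(nat_lit 0), (nat_lit 0), (nat_lit 0), (nat_lit 8911431)]) (PF.cons (PF.leaf (nat_lit 4845699) (nat_lit 302809) (nat_lit 44045332) (nat_lit 13856335) [(nat_lit 302809), (nat_lit 0), (nat_lit 0), (nat_lit 8904335)]) (PF.cons (PF.leaf (nat_lit 5044317) (nat_lit 316215) (nat_lit 43760246) (nat_lit 13820398) [(nat_lit 316215), (nat_lit 0), (nat_lit 0), (nat_lit 8895737)]) (PF.cons (PF.leaf (nat_lit 5256063) (nat_lit 328005) (nat_lit 43457871) (nat_lit 13781319) [(nat_lit 328005), (nat_lit 0), (nat_lit 0), (nat_lit 8885606)]) (PF.cons (PF.leaf (nat_lit 5478820) (nat_lit 338514) (nat_lit 43141452) (nat_lit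
 13739379) [(nat_lit 338514), (nat_lit 0), (nat_lit 0), (nat_lit 8873921)]) (PF.cons (PF.leaf (nat_lit 5711003) (nat_lit 347972) (nat_lit 42813488) (nat_lit 13694795) [(nat_lit 347972), (nat_lit 0), (nat_lit 0), (nat_lit 8860666)]) (PF.cons (PF.leaf (nat_lit 5951316) (nat_lit 356541) (nat_lit 42475980) (nat_lit 13647743) [(nat_lit 356541), (nat_lit 0), (nat_lit 0), (nat_lit 8845838)]) (PF.cons PF.nil (PF.cons PF.nil PF.nil))))))))) (PF.cons (PF.cons (PF.leaf (nat_lit 5237137) (nat_lit 1308152) (nat_lit 43187335) (nat_lit 13742164) [(nat_lit 0), (nat_lit 1308152), (nat_lit 0), (nat_lit 8871160)]) (PF.cons (PF.leaf (nat_lit 5443213) (nat_lit 332670) (nat_lit 42891203) (nat_lit 13702105) [(nat_lit 332670), (nat_lit 1323397), (nat_lit 0), (nat_lit 8859435)]) (PF.cons (PF.leaf (nat_lit 5662049) (nat_lit 342892) (nat_lit 42580032) (nat_lit 13659028) [(nat_lit 342892), (nat_lit 1337855), (nat_lit 0), (nat_lit 8846111)]) (PF.cons (PF.leaf (nat_lit 5890830) (nat_lit 352036)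 (nat_lit 42256823) (nat_lit 13613228) [(nat_lit 352036), (nat_lit 1351443), (nat_lit 0), (nat_lit 8831207)]) (PF.cons (PF.leaf (nat_lit 6128058) (nat_lit 360286) (nat_lit 41923857) (nat_lit 13564933) [(nat_lit 360286),
 (nat_lit 1364134), (nat_lit 0), (nat_lit 8814741)]) (PF.cons PF.nil (PF.cons PF.nil PF.nil))))))) (PF.cons (PF.cons (PF.leaf (nat_lit 5846580) (nat_lit 1350492) (nat_lit 42017311) (nat_lit 13575326) [(nat_lit 0), (nat_lit 1350492), (nat_lit 0), (nat_lit 8815189)]) (PF.cons (PF.leaf (nat_lit 6070359) (nat_lit 355385) (nat_lit 41700612) (nat_lit 13528667) [(nat_lit 355385), (nat_lit 1362650), (nat_lit 0), (nat_lit 8798847)]) (PF.cons (PF.leaf (nat_lit 6303867) (nat_lit 363410) (nat_lit 41373532) (nat_lit 13479427) [(nat_lit 363410), (nat_lit 1374049), (nat_lit 0), (nat_lit 8780933)]) (PF.cons (PF.leaf (nat_lit 6544964) (nat_lit 370655) (nat_lit 41038179) (nat_lit 13427843) [(nat_lit 370655), (nat_lit 1384665), (nat_lit 0), (nat_lit 8761492)]) (PF.cons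 PF.nil PF.nil))))) (PF.cons (PF.cons (PF.leaf (nat_lit 6479917) (nat_lit 1382672) (nat_lit 40824957) (nat_lit 13391308) [(nat_lit 0), (nat_lit 1382672), (nat_lit 0), (nat_lit 8744529)]) (PF.cons (PF.leaf (nat_lit 6716374) (nat_lit 373005) (nat_lit 40496322) (nat_lit 13339033) [(nat_lit 373005), (nat_lit 1392203), (nat_lit 0), (nat_lit 8723842)]) (PF.cons PF.nil (PF.cons PF.nil PF.nil)))) (PF.cons (PF.cons (PF.leaf (nat_lit 7127760)
 (nat_lit 1406555) (nat_lit 39628874) (nat_lit 13193043) [(nat_lit 0), (nat_lit 1406555), (nat_lit 0), (nat_lit 8660672)]) (PF.cons PF.nil PF.nil)) (PF.cons PF.nil PF.nil)))))) (PF.cons (PF.cons (PF.cons (PF.leaf (nat_lit 5727502) (nat_lit 3142008) (nat_lit 41676323) (nat_lit 13510887) [(nat_lit 0), (nat_lit 0), (nat_lit 3142008), (nat_lit 8779593)]) (PF.cons (PF.leaf (nat_lit 5935628) (nat_lit 341915) (nat_lit 41384620) (nat_lit 13467200) [(nat_lit 341915), (nat_lit 0), (nat_lit 3151038), (nat_lit 8764037)]) (PF.cons (PF.leaf (nat_lit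 6155850) (nat_lit 351412) (nat_lit 41079123) (nat_lit 13420539) [(nat_lit 351412), (nat_lit 0), (nat_lit 3159480), (nat_lit 8746843)]) (PF.cons (PF.leaf (nat_lit 6385350) (nat_lit 359833) (nat_lit 40762772) (nat_lit 13371252) [(nat_lit 359833), (nat_lit 0), (nat_lit 3167204), (nat_lit 8728084)]) (PF.cons (PF.leaf (nat_lit 6622641) (nat_lit 367370) (nat_lit 40437776) (nat_lit 13319601) [(nat_lit 367370), (nat_lit 0), (nat_lit 3174131), (nat_lit 8707820)]) PF.nil))))) (PF.cons (PF.cons (PF.leaf (nat_lit 6334288) (nat_lit 1366888) (nat_lit 40534519) (nat_lit 13331977) [(nat_lit 0), (nat_lit 1366888), (nat_lit 3165474), (nat_lit 8709952)]) (PF.cons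
 (PF.leaf (nat_lit 6558428) (nat_lit 362195) (nat_lit 40225519) (nat_lit 13282233) [(nat_lit 362195), (nat_lit 1377023), (nat_lit 3171738), (nat_lit 8690103)]) (PF.cons (PF.leaf (nat_lit 6791665) (nat_lit 369577) (nat_lit 39907166) (nat_lit 13230025) [(nat_lit 369577), (nat_lit 1386450), (nat_lit 3177288), (nat_lit 8668727)]) (PF.cons PF.nil PF.nil)))) (PF.cons (PF.cons (PF.leaf (nat_lit 6960979) (nat_lit 1392469) (nat_lit 39379269) (nat_lit 13138348) [(nat_lit 0), (nat_lit 1392469), (nat_lit 3178776), (nat_lit 8627480)]) (PF.cons (PF.leaf (nat_lit 7196364) (nat_lit 377751) (nat_lit 39060833) (nat_lit 13083609) [(nat_lit 377751), (nat_lit 1400264), (nat_lit 3182363), (nat_lit 8603726)]) PF.nil)) (PF.cons PF.nil (PF.cons PF.nil PF.nil))))) (PF.cons (PF.cons (PF.cons (PF.leaf (nat_lit 6807587) (nat_lit 3161783) (nat_lit 39112126) (nat_lit 13080358) [(nat_lit 0), (nat_lit 0), (nat_lit 3161783), (nat_lit 8592761)]) (PF.cons (PF.leaf (nat_lit 7031218) (nat_lit 367255)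 (nat_lit 38812141) (nat_lit 13028300) [(nat_lit 367255), (nat_lit 0), (nat_lit 3165523), (nat_lit 8570067)]) (PF.cons (PF.leaf (nat_lit 7263454) (nat_lit 374064) (nat_lit 38503699) (nat_lit 12973904) [(nat_lit 374064),
 (nat_lit 0), (nat_lit 3168588), (nat_lit 8545904)]) (PF.cons PF.nil PF.nil)))) (PF.cons (PF.cons (PF.leaf (nat_lit 7426118) (nat_lit 1397269) (nat_lit 37997404) (nat_lit 12879907) [(nat_lit 0), (nat_lit 1397269), (nat_lit 3166648), (nat_lit 8500935)]) (PF.cons PF.nil PF.nil)) (PF.cons PF.nil PF.nil))) (PF.cons (PF.cons (PF.cons (PF.leaf (nat_lit 7875522) (nat_lit 3147724) (nat_lit 36679435) (nat_lit 12618749) [(nat_lit 0), (nat_lit 0), (nat_lit 3147724), (nat_lit 8367452)]) (PF.cons PF.nil PF.nil)) (PF.cons PF.nil PF.nil)) (PF.cons PF.nil PF.nil))))) (PF.cons (PF.cons (PF.cons (PF.cons (PF.leaf (nat_lit 6549260) (nat_lit 8372568) (nat_lit 37635306) (nat_lit 12728370) [(nat_lit 0), (nat_lit 0), (nat_lit 0), (nat_lit 8372568)]) (PF.cons (PF.leaf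 (nat_lit 6749977) (nat_lit 338938) (nat_lit 37381403) (nat_lit 12682846) [(nat_lit 338938), (nat_lit 0), (nat_lit 0), (nat_lit 8352812)]) (PF.cons (PF.leaf (nat_lit 6961889) (nat_lit 347670) (nat_lit 37115913) (nat_lit 12634580) [(nat_lit 347670), (nat_lit 0), (nat_lit 0), (nat_lit 8331488)]) (PF.cons (PF.leaf (nat_lit 7182225) (nat_lit 355323) (nat_lit 36841401) (nat_lit 12583968) [(nat_lit 355323), (nat_lit 0), (nat_lit 0), (nat_lit
 8308736)]) (PF.cons PF.nil PF.nil))))) (PF.cons (PF.cons (PF.leaf (nat_lit 7125244) (nat_lit 1339729) (nat_lit 36646692) (nat_lit 12544968) [(nat_lit 0), (nat_lit 1339729), (nat_lit 0), (nat_lit 8288711)]) (PF.cons (PF.leaf (nat_lit 7340035) (nat_lit 356712) (nat_lit 36379048) (nat_lit 12494473) [(nat_lit 356712), (nat_lit 1347723), (nat_lit 0), (nat_lit 8265427)]) (PF.cons (PF.leaf (nat_lit 7563183) (nat_lit 363377) (nat_lit 36103633) (nat_lit 12441816) [(nat_lit 363377), (nat_lit 1355037), (nat_lit 0), (nat_lit 8240785)]) (PF.cons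 PF.nil PF.nil)))) (PF.cons (PF.cons (PF.leaf (nat_lit 7717319) (nat_lit 1358221) (nat_lit 35650305) (nat_lit 12351063) [(nat_lit 0), (nat_lit 1358221), (nat_lit 0), (nat_lit 8195500)]) (PF.cons PF.nil PF.nil)) (PF.cons PF.nil (PF.cons PF.nil PF.nil))))) (PF.cons (PF.cons (PF.cons (PF.leaf (nat_lit 7559522) (nat_lit 3057584) (nat_lit 35429706) (nat_lit 12297423) [(nat_lit 0), (nat_lit 0), (nat_lit 3057584), (nat_lit 8162049)]) (PF.cons (PF.leaf (nat_lit 7773272) (nat_lit 359844) (nat_lit 35170519) (nat_lit 12245851) [(nat_lit 359844), (nat_lit 0), (nat_lit 3058478), (nat_lit 8137059)]) (PF.cons PF.nil (PF.cons PF.nil PF.nil)))) (PF.cons (PF.cons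
 (PF.leaf (nat_lit 8143180) (nat_lit 1357529) (nat_lit 34470042) (nat_lit 12101015) [(nat_lit 0), (nat_lit 1357529), (nat_lit 3053117), (nat_lit 8063554)]) (PF.cons PF.nil PF.nil)) (PF.cons PF.nil PF.nil))) (PF.cons (PF.cons (PF.cons (PF.leaf (nat_lit 8555272) (nat_lit 3027376) (nat_lit 33344582) (nat_lit 11852200) [(nat_lit 0), (nat_lit 0), (nat_lit 3027376), (nat_lit 7928638)]) (PF.cons PF.nil PF.nil)) (PF.cons PF.nil PF.nil)) PF.nil))) (PF.cons (PF.cons (PF.cons (PF.cons (PF.leaf (nat_lit 8229891) (nat_lit 7742816) (nat_lit 32313612) (nat_lit 11566750) [(nat_lit 0), (nat_lit 0), (nat_lit 0), (nat_lit 7742816)]) (PF.cons (PF.leaf (nat_lit 8434279) (nat_lit 350660) (nat_lit 32088839) (nat_lit 11517350) [(nat_lit 350660), (nat_lit 0), (nat_lit 0), (nat_lit 7717320)]) (PF.cons PF.nil PF.nil))) (PF.cons (PF.cons (PF.leaf (nat_lit 8782295) (nat_lit 1313552) (nat_lit 31483790) (nat_lit 11380011) [(nat_lit 0), (nat_lit 1313552), (nat_lit 0), (nat_lit 7643819)]) PF.nil)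 PF.nil)) (PF.cons PF.nil PF.nil)) (PF.cons PF.nil (PF.cons PF.nil (PF.cons PF.nil (PF.cons PF.nil PF.nil))))))))

def p12_11_2_0 : pfC (piC [(nat_lit 41351667), (nat_lit 26310893), (nat_lit 19519284), (nat_lit 13318063)] (nat_lit 7298113)) p12_11_2 (nat_lit 4) (nat_lit 0) (nat_lit 1) = true := by decide +kernel
def p12_11_2_1 : pfC (piC [(nat_lit 41351667), (nat_lit 26310893), (nat_lit 19519284), (nat_lit 13318063)] (nat_lit 7298113)) p12_11_2 (nat_lit 4) (nat_lit 1) (nat_lit 2) = true := by decide +kernel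
def p12_11_2_2 : pfC (piC [(nat_lit 41351667), (nat_lit 26310893), (nat_lit 19519284), (nat_lit 13318063)] (nat_lit 7298113)) p12_11_2 (nat_lit 4) (nat_lit 2) (nat_lit 3) = true := by decide +kernel
def p12_11_2_3 : pfC (piC [(nat_lit 41351667), (nat_lit 26310893), (nat_lit 19519284), (nat_lit 13318063)] (nat_lit 7298113)) p12_11_2 (nat_lit 4) (nat_lit 3) (nat_lit 4) = true := by decide +kernel
def p12_11_2_4 : pfC (piC [(nat_lit 41351667), (nat_lit 26310893), (nat_lit 19519284), (nat_lit 13318063)] (nat_lit 7298113)) p12_11_2 (nat_lit 4) (nat_lit 4) (nat_lit 5) = true := by decide +kernel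
def p12_11_2_5 : pfC (piC [(nat_lit 41351667), (nat_lit 26310893), (nat_lit 19519284), (nat_lit 13318063)] (nat_lit 7298113)) p12_11_2 (nat_lit 4) (nat_lit 5) (nat_lit 6) = true := by decide +kernel
def p12_11_2_6 : pfC (piC [(nat_lit 41351667), (nat_lit 26310893), (nat_lit 19519284), (nat_lit 13318063)] (nat_lit 7298113)) p12_11_2 (nat_lit 4) (nat_lit 6) (nat_lit 7) = true := by decide +kernel
def p12_11_2_7 : pfC (piC [(nat_lit 41351667), (nat_lit 26310893), (nat_lit 19519284), (nat_lit 13318063)] (nat_lit 7298113)) p12_11_2 (nat_lit 4) (nat_lit 7) (nat_lit 8) = true := by decide +kernel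
def p12_11_2_8 : pfC (piC [(nat_lit 41351667), (nat_lit 26310893), (nat_lit 19519284), (nat_lit 13318063)] (nat_lit 7298113)) p12_11_2 (nat_lit 4) (nat_lit 8) (nat_lit 9) = true := by decide +kernel
def p12_11_2_9 : pfC (piC [(nat_lit 41351667), (nat_lit 26310893), (nat_lit 19519284), (nat_lit 13318063)] (nat_lit 7298113)) p12_11_2 (nat_lit 4) (nat_lit 9) (nat_lit 10) = true := by decide +kernel
def p12_11_2_10 : pfC (piC [(nat_lit 41351667), (nat_lit 26310893), (nat_lit 19519284), (nat_lit 13318063)] (nat_lit 7298113)) p12_11_2 (nat_lit 4) (nat_lit 10) (nat_lit 11) = true := by decide +kernel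
def p12_11_2_11 : pfC (piC [(nat_lit 41351667), (nat_lit 26310893), (nat_lit 19519284), (nat_lit 13318063)] (nat_lit 7298113)) p12_11_2 (nat_lit 4) (nat_lit 11) (nat_lit 12) = true := by decide +kernel
def p12_11_2_12 : pfC (piC [(nat_lit 41351667), (nat_lit 26310893), (nat_lit 19519284), (nat_lit 13318063)] (nat_lit 7298113)) p12_11_2 (nat_lit 4) (nat_lit 12) (nat_lit 13) = true := by decide +kernel
def p12_11_2_13 : pfC (piC [(nat_lit 41351667), (nat_lit 26310893), (nat_lit 19519284), (nat_lit 13318063)] (nat_lit 7298113)) p12_11_2 (nat_lit 4) (nat_lit 13) (nat_lit 14) = true := by decide +kernel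
def p12_11_2_14 : pfC (piC [(nat_lit 41351667), (nat_lit 26310893), (nat_lit 19519284), (nat_lit 13318063)] (nat_lit 7298113)) p12_11_2 (nat_lit 4) (nat_lit 14) (nat_lit 15) = true := by decide +kernel
def p12_11_2_15 : pfC (piC [(nat_lit 41351667), (nat_lit 26310893), (nat_lit 19519284), (nat_lit 13318063)] (nat_lit 7298113)) p12_11_2 (nat_lit 4) (nat_lit 15) (nat_lit 16) = true := by decide +kernel
def p12_11_2_16 : pfC (piC [(nat_lit 41351667), (nat_lit 26310893), (nat_lit 19519284), (nat_lit 13318063)] (nat_lit 7298113)) p12_11_2 (nat_lit 4) (nat_lit 16) (nat_lit 17) = true := by decide +kernel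
def p12_11_2_17 : pfC (piC [(nat_lit 41351667), (nat_lit 26310893), (nat_lit 19519284), (nat_lit 13318063)] (nat_lit 7298113)) p12_11_2 (nat_lit 4) (nat_lit 17) (nat_lit 18) = true := by decide +kernel
def p12_11_2_18 : pfC (piC [(nat_lit 41351667), (nat_lit 26310893), (nat_lit 19519284), (nat_lit 13318063)] (nat_lit 7298113)) p12_11_2 (nat_lit 4) (nat_lit 18) (nat_lit 19) = true := by decide +kernel
def p12_11_2_19 : pfC (piC [(nat_lit 41351667), (nat_lit 26310893), (nat_lit 19519284), (nat_lit 13318063)] (nat_lit 7298113)) p12_11_2 (nat_lit 4) (nat_lit 19) (nat_lit 20) = true := by decide +kernel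
def p12_11_2_20 : pfC (piC [(nat_lit 41351667), (nat_lit 26310893), (nat_lit 19519284), (nat_lit 13318063)] (nat_lit 7298113)) p12_11_2 (nat_lit 4) (nat_lit 20) (nat_lit 21) = true := by decide +kernel
def p12_11_2_21 : pfC (piC [(nat_lit 41351667), (nat_lit 26310893), (nat_lit 19519284), (nat_lit 13318063)] (nat_lit 7298113)) p12_11_2 (nat_lit 4) (nat_lit 21) (nat_lit 22) = true := by decide +kernel
def p12_11_2_22 : pfC (piC [(nat_lit 41351667), (nat_lit 26310893), (nat_lit 19519284), (nat_lit 13318063)] (nat_lit 7298113)) p12_11_2 (nat_lit 4) (nat_lit 22) (nat_lit 23) = true := by decide +kernel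
def p12_11_2_23 : pfC (piC [(nat_lit 41351667), (nat_lit 26310893), (nat_lit 19519284), (nat_lit 13318063)] (nat_lit 7298113)) p12_11_2 (nat_lit 4) (nat_lit 23) (nat_lit 24) = true := by decide +kernel
def p12_11_2_24 : pfC (piC [(nat_lit 41351667), (nat_lit 26310893), (nat_lit 19519284), (nat_lit 13318063)] (nat_lit 7298113)) p12_11_2 (nat_lit 4) (nat_lit 24) (nat_lit 25) = true := by decide +kernel
def p12_11_2_25 : pfC (piC [(nat_lit 41351667), (nat_lit 26310893), (nat_lit 19519284), (nat_lit 13318063)] (nat_lit 7298113)) p12_11_2 (nat_lit 4) (nat_lit 25) (nat_lit 26) = true := by decide +kernel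
def p12_11_2_26 : pfC (piC [(nat_lit 41351667), (nat_lit 26310893), (nat_lit 19519284), (nat_lit 13318063)] (nat_lit 7298113)) p12_11_2 (nat_lit 4) (nat_lit 26) (nat_lit 27) = true := by decide +kernel
def p12_11_2_27 : pfC (piC [(nat_lit 41351667), (nat_lit 26310893), (nat_lit 19519284), (nat_lit 13318063)] (nat_lit 7298113)) p12_11_2 (nat_lit 4) (nat_lit 27) (nat_lit 28) = true := by decide +kernel
def p12_11_2_28 : pfC (piC [(nat_lit 41351667), (nat_lit 26310893), (nat_lit 19519284), (nat_lit 13318063)] (nat_lit 7298113)) p12_11_2 (nat_lit 4) (nat_lit 28) (nat_lit 29) = true := by decide +kernel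
def p12_11_2_29 : pfC (piC [(nat_lit 41351667), (nat_lit 26310893), (nat_lit 19519284), (nat_lit 13318063)] (nat_lit 7298113)) p12_11_2 (nat_lit 4) (nat_lit 29) (nat_lit 30) = true := by decide +kernel
def p12_11_2_30 : pfC (piC [(nat_lit 41351667), (nat_lit 26310893), (nat_lit 19519284), (nat_lit 13318063)] (nat_lit 7298113)) p12_11_2 (nat_lit 4) (nat_lit 30) (nat_lit 31) = true := by decide +kernel
def p12_11_2_31 : pfC (piC [(nat_lit 41351667), (nat_lit 26310893), (nat_lit 19519284), (nat_lit 13318063)] (nat_lit 7298113)) p12_11_2 (nat_lit 4) (nat_lit 31) (nat_lit 32) = true := by decide +kernel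
def p12_11_2_32 : pfC (piC [(nat_lit 41351667), (nat_lit 26310893), (nat_lit 19519284), (nat_lit 13318063)] (nat_lit 7298113)) p12_11_2 (nat_lit 4) (nat_lit 32) (nat_lit 33) = true := by decide +kernel
def p12_11_2_33 : pfC (piC [(nat_lit 41351667), (nat_lit 26310893), (nat_lit 19519284), (nat_lit 13318063)] (nat_lit 7298113)) p12_11_2 (nat_lit 4) (nat_lit 33) (nat_lit 34) = true := by decide +kernel
def p12_11_2_34 : pfC (piC [(nat_lit 41351667), (nat_lit 26310893), (nat_lit 19519284), (nat_lit 13318063)] (nat_lit 7298113)) p12_11_2 (nat_lit 4) (nat_lit 34) (nat_lit 35) = true := by decide +kernel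
def p12_11_2_35 : pfC (piC [(nat_lit 41351667), (nat_lit 26310893), (nat_lit 19519284), (nat_lit 13318063)] (nat_lit 7298113)) p12_11_2 (nat_lit 4) (nat_lit 35) (nat_lit 36) = true := by decide +kernel
def p12_11_2_36 : pfC (piC [(nat_lit 41351667), (nat_lit 26310893), (nat_lit 19519284), (nat_lit 13318063)] (nat_lit 7298113)) p12_11_2 (nat_lit 4) (nat_lit 36) (nat_lit 37) = true := by decide +kernel
def p12_11_2_37 : pfC (piC [(nat_lit 41351667), (nat_lit 26310893), (nat_lit 19519284), (nat_lit 13318063)] (nat_lit 7298113)) p12_11_2 (nat_lit 4) (nat_lit 37) (nat_lit 38) = true := by decide +kernel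
def p12_11_2_38 : pfC (piC [(nat_lit 41351667), (nat_lit 26310893), (nat_lit 19519284), (nat_lit 13318063)] (nat_lit 7298113)) p12_11_2 (nat_lit 4) (nat_lit 38) (nat_lit 39) = true := by decide +kernel
def p12_11_2_39 : pfC (piC [(nat_lit 41351667), (nat_lit 26310893), (nat_lit 19519284), (nat_lit 13318063)] (nat_lit 7298113)) p12_11_2 (nat_lit 4) (nat_lit 39) (nat_lit 40) = true := by decide +kernel
def p12_11_2_40 : pfC (piC [(nat_lit 41351667), (nat_lit 26310893), (nat_lit 19519284), (nat_lit 13318063)] (nat_lit 7298113)) p12_11_2 (nat_lit 4) (nat_lit 40) (nat_lit 41) = true := by decide +kernel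
def p12_11_2_41 : pfC (piC [(nat_lit 41351667), (nat_lit 26310893), (nat_lit 19519284), (nat_lit 13318063)] (nat_lit 7298113)) p12_11_2 (nat_lit 4) (nat_lit 41) (nat_lit 42) = true := by decide +kernel
def p12_11_2_42 : pfC (piC [(nat_lit 41351667), (nat_lit 26310893), (nat_lit 19519284), (nat_lit 13318063)] (nat_lit 7298113)) p12_11_2 (nat_lit 4) (nat_lit 42) (nat_lit 43) = true := by decide +kernel
def p12_11_2_43 : pfC (piC [(nat_lit 41351667), (nat_lit 26310893), (nat_lit 19519284), (nat_lit 13318063)] (nat_lit 7298113)) p12_11_2 (nat_lit 4) (nat_lit 43) (nat_lit 44) = true := by decide +kernel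
def p12_11_2_44 : pfC (piC [(nat_lit 41351667), (nat_lit 26310893), (nat_lit 19519284), (nat_lit 13318063)] (nat_lit 7298113)) p12_11_2 (nat_lit 4) (nat_lit 44) (nat_lit 45) = true := by decide +kernel
def p12_11_2_45 : pfC (piC [(nat_lit 41351667), (nat_lit 26310893), (nat_lit 19519284), (nat_lit 13318063)] (nat_lit 7298113)) p12_11_2 (nat_lit 4) (nat_lit 45) (nat_lit 46) = true := by decide +kernel
def p12_11_2_46 : pfC (piC [(nat_lit 41351667), (nat_lit 26310893), (nat_lit 19519284), (nat_lit 13318063)] (nat_lit 7298113)) p12_11_2 (nat_lit 4) (nat_lit 46) (nat_lit 47) = true := by decide +kernel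
def p12_11_2_47 : pfC (piC [(nat_lit 41351667), (nat_lit 26310893), (nat_lit 19519284), (nat_lit 13318063)] (nat_lit 7298113)) p12_11_2 (nat_lit 4) (nat_lit 47) (nat_lit 48) = true := by decide +kernel
def p12_11_2_48 : pfC (piC [(nat_lit 41351667), (nat_lit 26310893), (nat_lit 19519284), (nat_lit 13318063)] (nat_lit 7298113)) p12_11_2 (nat_lit 4) (nat_lit 48) (nat_lit 49) = true := by decide +kernel
def p12_11_2_49 : pfC (piC [(nat_lit 41351667), (nat_lit 26310893), (nat_lit 19519284), (nat_lit 13318063)] (nat_lit 7298113)) p12_11_2 (nat_lit 4) (nat_lit 49) (nat_lit 50) = true := by decide +kernel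
def p12_11_2_50 : pfC (piC [(nat_lit 41351667), (nat_lit 26310893), (nat_lit 19519284), (nat_lit 13318063)] (nat_lit 7298113)) p12_11_2 (nat_lit 4) (nat_lit 50) (nat_lit 51) = true := by decide +kernel
def p12_11_2_51 : pfC (piC [(nat_lit 41351667), (nat_lit 26310893), (nat_lit 19519284), (nat_lit 13318063)] (nat_lit 7298113)) p12_11_2 (nat_lit 4) (nat_lit 51) (nat_lit 52) = true := by decide +kernel
def p12_11_2_52 : pfC (piC [(nat_lit 41351667), (nat_lit 26310893), (nat_lit 19519284), (nat_lit 13318063)] (nat_lit 7298113)) p12_11_2 (nat_lit 4) (nat_lit 52) (nat_lit 53) = true := by decide +kernel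
def p12_11_2_53 : pfC (piC [(nat_lit 41351667), (nat_lit 26310893), (nat_lit 19519284), (nat_lit 13318063)] (nat_lit 7298113)) p12_11_2 (nat_lit 4) (nat_lit 53) (nat_lit 54) = true := by decide +kernel
def p12_11_2_54 : pfC (piC [(nat_lit 41351667), (nat_lit 26310893), (nat_lit 19519284), (nat_lit 13318063)] (nat_lit 7298113)) p12_11_2 (nat_lit 4) (nat_lit 54) (nat_lit 55) = true := by decide +kernel
def p12_11_2_55 : pfC (piC [(nat_lit 41351667), (nat_lit 26310893), (nat_lit 19519284), (nat_lit 13318063)] (nat_lit 7298113)) p12_11_2 (nat_lit 4) (nat_lit 55) (nat_lit 56) = true := by decide +kernel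
def p12_11_2_56 : pfC (piC [(nat_lit 41351667), (nat_lit 26310893), (nat_lit 19519284), (nat_lit 13318063)] (nat_lit 7298113)) p12_11_2 (nat_lit 4) (nat_lit 56) (nat_lit 57) = true := by decide +kernel
def p12_11_2_57 : pfC (piC [(nat_lit 41351667), (nat_lit 26310893), (nat_lit 19519284), (nat_lit 13318063)] (nat_lit 7298113)) p12_11_2 (nat_lit 4) (nat_lit 57) (nat_lit 58) = true := by decide +kernel
def p12_11_2_58 : pfC (piC [(nat_lit 41351667), (nat_lit 26310893), (nat_lit 19519284), (nat_lit 13318063)] (nat_lit 7298113)) p12_11_2 (nat_lit 4) (nat_lit 58) (nat_lit 59) = true := by decide +kernel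
def p12_11_2_59 : pfC (piC [(nat_lit 41351667), (nat_lit 26310893), (nat_lit 19519284), (nat_lit 13318063)] (nat_lit 7298113)) p12_11_2 (nat_lit 4) (nat_lit 59) (nat_lit 60) = true := by decide +kernel
def p12_11_2_60 : pfC (piC [(nat_lit 41351667), (nat_lit 26310893), (nat_lit 19519284), (nat_lit 13318063)] (nat_lit 7298113)) p12_11_2 (nat_lit 4) (nat_lit 60) (nat_lit 61) = true := by decide +kernel
def p12_11_2_61 : pfC (piC [(nat_lit 41351667), (nat_lit 26310893), (nat_lit 19519284), (nat_lit 13318063)] (nat_lit 7298113)) p12_11_2 (nat_lit 4) (nat_lit 61) (nat_lit 62) = true := by decide +kernel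
def p12_11_2_62 : pfC (piC [(nat_lit 41351667), (nat_lit 26310893), (nat_lit 19519284), (nat_lit 13318063)] (nat_lit 7298113)) p12_11_2 (nat_lit 4) (nat_lit 62) (nat_lit 63) = true := by decide +kernel
def p12_11_2_63 : pfC (piC [(nat_lit 41351667), (nat_lit 26310893), (nat_lit 19519284), (nat_lit 13318063)] (nat_lit 7298113)) p12_11_2 (nat_lit 4) (nat_lit 63) (nat_lit 64) = true := by decide +kernel
def p12_11_2_64 : pfC (piC [(nat_lit 41351667), (nat_lit 26310893), (nat_lit 19519284), (nat_lit 13318063)] (nat_lit 7298113)) p12_11_2 (nat_lit 4) (nat_lit 64) (nat_lit 65) = true := by decide +kernel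
def p12_11_2_65 : pfC (piC [(nat_lit 41351667), (nat_lit 26310893), (nat_lit 19519284), (nat_lit 13318063)] (nat_lit 7298113)) p12_11_2 (nat_lit 4) (nat_lit 65) (nat_lit 66) = true := by decide +kernel
def p12_11_2_66 : pfC (piC [(nat_lit 41351667), (nat_lit 26310893), (nat_lit 19519284), (nat_lit 13318063)] (nat_lit 7298113)) p12_11_2 (nat_lit 4) (nat_lit 66) (nat_lit 67) = true := by decide +kernel
def p12_11_2_67 : pfC (piC [(nat_lit 41351667), (nat_lit 26310893), (nat_lit 19519284), (nat_lit 13318063)] (nat_lit 7298113)) p12_11_2 (nat_lit 4) (nat_lit 67) (nat_lit 68) = true := by decide +kernel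
def p12_11_2_68 : pfC (piC [(nat_lit 41351667), (nat_lit 26310893), (nat_lit 19519284), (nat_lit 13318063)] (nat_lit 7298113)) p12_11_2 (nat_lit 4) (nat_lit 68) (nat_lit 69) = true := by decide +kernel
def p12_11_2_69 : pfC (piC [(nat_lit 41351667), (nat_lit 26310893), (nat_lit 19519284), (nat_lit 13318063)] (nat_lit 7298113)) p12_11_2 (nat_lit 4) (nat_lit 69) (nat_lit 70) = true := by decide +kernel
def p12_11_2_70 : pfC (piC [(nat_lit 41351667), (nat_lit 26310893), (nat_lit 19519284), (nat_lit 13318063)] (nat_lit 7298113)) p12_11_2 (nat_lit 4) (nat_lit 70) (nat_lit 71) = true := by decide +kernel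
def p12_11_2_71 : pfC (piC [(nat_lit 41351667), (nat_lit 26310893), (nat_lit 19519284), (nat_lit 13318063)] (nat_lit 7298113)) p12_11_2 (nat_lit 4) (nat_lit 71) (nat_lit 72) = true := by decide +kernel
def p12_11_2_72 : pfC (piC [(nat_lit 41351667), (nat_lit 26310893), (nat_lit 19519284), (nat_lit 13318063)] (nat_lit 7298113)) p12_11_2 (nat_lit 4) (nat_lit 72) (nat_lit 73) = true := by decide +kernel
def p12_11_2_73 : pfC (piC [(nat_lit 41351667), (nat_lit 26310893), (nat_lit 19519284), (nat_lit 13318063)] (nat_lit 7298113)) p12_11_2 (nat_lit 4) (nat_lit 73) (nat_lit 74) = true := by decide +kernel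
def p12_11_2_74 : pfC (piC [(nat_lit 41351667), (nat_lit 26310893), (nat_lit 19519284), (nat_lit 13318063)] (nat_lit 7298113)) p12_11_2 (nat_lit 4) (nat_lit 74) (nat_lit 75) = true := by decide +kernel
def p12_11_2_75 : pfC (piC [(nat_lit 41351667), (nat_lit 26310893), (nat_lit 19519284), (nat_lit 13318063)] (nat_lit 7298113)) p12_11_2 (nat_lit 4) (nat_lit 75) (nat_lit 76) = true := by decide +kernel
def p12_11_2_76 : pfC (piC [(nat_lit 41351667), (nat_lit 26310893), (nat_lit 19519284), (nat_lit 13318063)] (nat_lit 7298113)) p12_11_2 (nat_lit 4) (nat_lit 76) (nat_lit 77) = true := by decide +kernel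
def p12_11_2_77 : pfC (piC [(nat_lit 41351667), (nat_lit 26310893), (nat_lit 19519284), (nat_lit 13318063)] (nat_lit 7298113)) p12_11_2 (nat_lit 4) (nat_lit 77) (nat_lit 78) = true := by decide +kernel
def p12_11_2_78 : pfC (piC [(nat_lit 41351667), (nat_lit 26310893), (nat_lit 19519284), (nat_lit 13318063)] (nat_lit 7298113)) p12_11_2 (nat_lit 4) (nat_lit 78) (nat_lit 79) = true := by decide +kernel
def p12_11_2_79 : pfC (piC [(nat_lit 41351667), (nat_lit 26310893), (nat_lit 19519284), (nat_lit 13318063)] (nat_lit 7298113)) p12_11_2 (nat_lit 4) (nat_lit 79) (nat_lit 80) = true := by decide +kernel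
def p12_11_2_80 : pfC (piC [(nat_lit 41351667), (nat_lit 26310893), (nat_lit 19519284), (nat_lit 13318063)] (nat_lit 7298113)) p12_11_2 (nat_lit 4) (nat_lit 80) (nat_lit 81) = true := by decide +kernel
def p12_11_2_81 : pfC (piC [(nat_lit 41351667), (nat_lit 26310893), (nat_lit 19519284), (nat_lit 13318063)] (nat_lit 7298113)) p12_11_2 (nat_lit 4) (nat_lit 81) (nat_lit 82) = true := by decide +kernel
def p12_11_2_82 : pfC (piC [(nat_lit 41351667), (nat_lit 26310893), (nat_lit 19519284), (nat_lit 13318063)] (nat_lit 7298113)) p12_11_2 (nat_lit 4) (nat_lit 82) (nat_lit 83) = true := by decide +kernel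
def p12_11_2_83 : pfC (piC [(nat_lit 41351667), (nat_lit 26310893), (nat_lit 19519284), (nat_lit 13318063)] (nat_lit 7298113)) p12_11_2 (nat_lit 4) (nat_lit 83) (nat_lit 84) = true := by decide +kernel
def p12_11_2_84 : pfC (piC [(nat_lit 41351667), (nat_lit 26310893), (nat_lit 19519284), (nat_lit 13318063)] (nat_lit 7298113)) p12_11_2 (nat_lit 4) (nat_lit 84) (nat_lit 85) = true := by decide +kernel
def p12_11_2_85 : pfC (piC [(nat_lit 41351667), (nat_lit 26310893), (nat_lit 19519284), (nat_lit 13318063)] (nat_lit 7298113)) p12_11_2 (nat_lit 4) (nat_lit 85) (nat_lit 86) = true := by decide +kernel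
def p12_11_2_86 : pfC (piC [(nat_lit 41351667), (nat_lit 26310893), (nat_lit 19519284), (nat_lit 13318063)] (nat_lit 7298113)) p12_11_2 (nat_lit 4) (nat_lit 86) (nat_lit 87) = true := by decide +kernel
def p12_11_2_87 : pfC (piC [(nat_lit 41351667), (nat_lit 26310893), (nat_lit 19519284), (nat_lit 13318063)] (nat_lit 7298113)) p12_11_2 (nat_lit 4) (nat_lit 87) (nat_lit 88) = true := by decide +kernel
def p12_11_2_88 : pfC (piC [(nat_lit 41351667), (nat_lit 26310893), (nat_lit 19519284), (nat_lit 13318063)] (nat_lit 7298113)) p12_11_2 (nat_lit 4) (nat_lit 88) (nat_lit 89) = true := by decide +kernel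
def p12_11_2_89 : pfC (piC [(nat_lit 41351667), (nat_lit 26310893), (nat_lit 19519284), (nat_lit 13318063)] (nat_lit 7298113)) p12_11_2 (nat_lit 4) (nat_lit 89) (nat_lit 90) = true := by decide +kernel
def p12_11_2_90 : pfC (piC [(nat_lit 41351667), (nat_lit 26310893), (nat_lit 19519284), (nat_lit 13318063)] (nat_lit 7298113)) p12_11_2 (nat_lit 4) (nat_lit 90) (nat_lit 91) = true := by decide +kernel
def p12_11_2_91 : pfC (piC [(nat_lit 41351667), (nat_lit 26310893), (nat_lit 19519284), (nat_lit 13318063)] (nat_lit 7298113)) p12_11_2 (nat_lit 4) (nat_lit 91) (nat_lit 92) = true := by decide +kernel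
def p12_11_2_92 : pfC (piC [(nat_lit 41351667), (nat_lit 26310893), (nat_lit 19519284), (nat_lit 13318063)] (nat_lit 7298113)) p12_11_2 (nat_lit 4) (nat_lit 92) (nat_lit 93) = true := by decide +kernel
def p12_11_2_93 : pfC (piC [(nat_lit 41351667), (nat_lit 26310893), (nat_lit 19519284), (nat_lit 13318063)] (nat_lit 7298113)) p12_11_2 (nat_lit 4) (nat_lit 93) (nat_lit 94) = true := by decide +kernel
def p12_11_2_94 : pfC (piC [(nat_lit 41351667), (nat_lit 26310893), (nat_lit 19519284), (nat_lit 13318063)] (nat_lit 7298113)) p12_11_2 (nat_lit 4) (nat_lit 94) (nat_lit 95) = true := by decide +kernel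
def p12_11_2_95 : pfC (piC [(nat_lit 41351667), (nat_lit 26310893), (nat_lit 19519284), (nat_lit 13318063)] (nat_lit 7298113)) p12_11_2 (nat_lit 4) (nat_lit 95) (nat_lit 96) = true := by decide +kernel
def p12_11_2_96 : pfC (piC [(nat_lit 41351667), (nat_lit 26310893), (nat_lit 19519284), (nat_lit 13318063)] (nat_lit 7298113)) p12_11_2 (nat_lit 4) (nat_lit 96) (nat_lit 97) = true := by decide +kernel
def p12_11_2_97 : pfC (piC [(nat_lit 41351667), (nat_lit 26310893), (nat_lit 19519284), (nat_lit 13318063)] (nat_lit 7298113)) p12_11_2 (nat_lit 4) (nat_lit 97) (nat_lit 98) = true := by decide +kernel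
def p12_11_2_98 : pfC (piC [(nat_lit 41351667), (nat_lit 26310893), (nat_lit 19519284), (nat_lit 13318063)] (nat_lit 7298113)) p12_11_2 (nat_lit 4) (nat_lit 98) (nat_lit 99) = true := by decide +kernel
def p12_11_2_99 : pfC (piC [(nat_lit 41351667), (nat_lit 26310893), (nat_lit 19519284), (nat_lit 13318063)] (nat_lit 7298113)) p12_11_2 (nat_lit 4) (nat_lit 99) (nat_lit 100) = true := by decide +kernel
def p12_11_2_100 : pfC (piC [(nat_lit 41351667), (nat_lit 26310893), (nat_lit 19519284), (nat_lit 13318063)] (nat_lit 7298113)) p12_11_2 (nat_lit 4) (nat_lit 100) (nat_lit 101) = true := by decide +kernel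
def p12_11_2_101 : pfC (piC [(nat_lit 41351667), (nat_lit 26310893), (nat_lit 19519284), (nat_lit 13318063)] (nat_lit 7298113)) p12_11_2 (nat_lit 4) (nat_lit 101) (nat_lit 102) = true := by decide +kernel
def p12_11_2_102 : pfC (piC [(nat_lit 41351667), (nat_lit 26310893), (nat_lit 19519284), (nat_lit 13318063)] (nat_lit 7298113)) p12_11_2 (nat_lit 4) (nat_lit 102) (nat_lit 103) = true := by decide +kernel
def p12_11_2_103 : pfC (piC [(nat_lit 41351667), (nat_lit 26310893), (nat_lit 19519284), (nat_lit 13318063)] (nat_lit 7298113)) p12_11_2 (nat_lit 4) (nat_lit 103) (nat_lit 104) = true := by decide +kernel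
def p12_11_2_104 : pfC (piC [(nat_lit 41351667), (nat_lit 26310893), (nat_lit 19519284), (nat_lit 13318063)] (nat_lit 7298113)) p12_11_2 (nat_lit 4) (nat_lit 104) (nat_lit 105) = true := by decide +kernel
def p12_11_2_105 : pfC (piC [(nat_lit 41351667), (nat_lit 26310893), (nat_lit 19519284), (nat_lit 13318063)] (nat_lit 7298113)) p12_11_2 (nat_lit 4) (nat_lit 105) (nat_lit 106) = true := by decide +kernel
def p12_11_2_106 : pfC (piC [(nat_lit 41351667), (nat_lit 26310893), (nat_lit 19519284), (nat_lit 13318063)] (nat_lit 7298113)) p12_11_2 (nat_lit 4) (nat_lit 106) (nat_lit 107) = true := by decide +kernel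
theorem p12_11_2_T : PfS (PiF n12_11.reverse (nat_lit 7298113)) p12_11_2 (nat_lit 4) [] 0 :=
  pftab_of (los := [(nat_lit 41351667), (nat_lit 26310893), (nat_lit 19519284), (nat_lit 13318063)]) (by decide +kernel) (hi := (nat_lit 107)) (PfP.trans (PfP.trans (PfP.trans (PfP.trans (PfP.trans (PfP.trans (PfP.trans (PfP.trans (PfP.trans (PfP.trans (PfP.trans (PfP.trans (PfP.trans (PfP.trans (PfP.trans (PfP.trans (PfP.trans (PfP.trans (PfP.trans (PfP.trans (PfP.trans (PfP.trans (PfP.trans (PfP.trans (PfP.trans (PfP.trans (PfP.trans (PfP.trans (PfP.trans (PfP.trans (PfP.trans (PfP.trans (PfP.trans (PfP.trans (PfP.trans (PfP.trans (PfP.trans (PfP.trans (PfP.trans (PfP.trans (PfP.trans (PfP.trans (PfP.trans (PfP.trans (PfP.trans (PfP.trans (PfP.trans (PfP.trans (PfP.trans (PfP.trans (PfP.trans (PfP.trans (PfP.trans (PfP.trans (PfP.trans (PfP.trans (PfP.trans (PfP.trans (PfP.trans (PfP.trans (PfP.trans (PfP.trans (PfP.trans (PfP.trans (PfP.trans (PfP.trans (PfP.trans (PfP.trans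 (PfP.trans (PfP.trans (PfP.trans (PfP.trans (PfP.trans (PfP.trans (PfP.trans (PfP.trans (PfP.trans (PfP.trans (PfP.trans (PfP.trans (PfP.trans (PfP.trans (PfP.trans (PfP.trans (PfP.trans (PfP.trans (PfP.trans (PfP.trans (PfP.trans (PfP.trans (PfP.trans (PfP.trans (PfP.trans (PfP.trans (PfP.trans (PfP.trans (PfP.trans (PfP.trans (PfP.trans (PfP.trans (PfP.trans (PfP.trans (PfP.trans (PfP.trans (PfP.trans (PfP.trans (pfC_sound p12_11_2_0) (pfC_sound
 p12_11_2_1)) (pfC_sound p12_11_2_2)) (pfC_sound p12_11_2_3)) (pfC_sound p12_11_2_4)) (pfC_sound p12_11_2_5)) (pfC_sound p12_11_2_6)) (pfC_sound p12_11_2_7)) (pfC_sound p12_11_2_8)) (pfC_sound p12_11_2_9)) (pfC_sound p12_11_2_10)) (pfC_sound p12_11_2_11)) (pfC_sound p12_11_2_12)) (pfC_sound p12_11_2_13)) (pfC_sound p12_11_2_14)) (pfC_sound p12_11_2_15)) (pfC_sound p12_11_2_16)) (pfC_sound p12_11_2_17)) (pfC_sound p12_11_2_18)) (pfC_sound p12_11_2_19)) (pfC_sound p12_11_2_20)) (pfC_sound p12_11_2_21)) (pfC_sound p12_11_2_22))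 (pfC_sound p12_11_2_23)) (pfC_sound p12_11_2_24)) (pfC_sound p12_11_2_25)) (pfC_sound p12_11_2_26)) (pfC_sound p12_11_2_27)) (pfC_sound p12_11_2_28)) (pfC_sound p12_11_2_29)) (pfC_sound p12_11_2_30)) (pfC_sound p12_11_2_31)) (pfC_sound p12_11_2_32)) (pfC_sound p12_11_2_33)) (pfC_sound p12_11_2_34)) (pfC_sound p12_11_2_35)) (pfC_sound p12_11_2_36)) (pfC_sound p12_11_2_37)) (pfC_sound p12_11_2_38)) (pfC_sound p12_11_2_39)) (pfC_sound p12_11_2_40)) (pfC_sound p12_11_2_41)) (pfC_sound p12_11_2_42)) (pfC_sound p12_11_2_43)) (pfC_sound p12_11_2_44)) (pfC_sound p12_11_2_45)) (pfC_sound p12_11_2_46)) (pfC_sound p12_11_2_47)) (pfC_sound p12_11_2_48)) (pfC_sound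
 p12_11_2_49)) (pfC_sound p12_11_2_50)) (pfC_sound p12_11_2_51)) (pfC_sound p12_11_2_52)) (pfC_sound p12_11_2_53)) (pfC_sound p12_11_2_54)) (pfC_sound p12_11_2_55)) (pfC_sound p12_11_2_56)) (pfC_sound p12_11_2_57)) (pfC_sound p12_11_2_58)) (pfC_sound p12_11_2_59)) (pfC_sound p12_11_2_60)) (pfC_sound p12_11_2_61)) (pfC_sound p12_11_2_62)) (pfC_sound p12_11_2_63)) (pfC_sound p12_11_2_64)) (pfC_sound p12_11_2_65)) (pfC_sound p12_11_2_66)) (pfC_sound p12_11_2_67)) (pfC_sound p12_11_2_68)) (pfC_sound p12_11_2_69)) (pfC_sound p12_11_2_70)) (pfC_sound p12_11_2_71)) (pfC_sound p12_11_2_72)) (pfC_sound p12_11_2_73)) (pfC_sound p12_11_2_74)) (pfC_sound p12_11_2_75)) (pfC_sound p12_11_2_76)) (pfC_sound p12_11_2_77)) (pfC_sound p12_11_2_78)) (pfC_sound p12_11_2_79)) (pfC_sound p12_11_2_80)) (pfC_sound p12_11_2_81)) (pfC_sound p12_11_2_82)) (pfC_sound p12_11_2_83)) (pfC_sound p12_11_2_84)) (pfC_sound p12_11_2_85)) (pfC_sound p12_11_2_86)) (pfC_sound p12_11_2_87)) (pfC_sound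 p12_11_2_88)) (pfC_sound p12_11_2_89)) (pfC_sound p12_11_2_90)) (pfC_sound p12_11_2_91)) (pfC_sound p12_11_2_92)) (pfC_sound p12_11_2_93)) (pfC_sound p12_11_2_94)) (pfC_sound p12_11_2_95)) (pfC_sound p12_11_2_96)) (pfC_sound
 p12_11_2_97)) (pfC_sound p12_11_2_98)) (pfC_sound p12_11_2_99)) (pfC_sound p12_11_2_100)) (pfC_sound p12_11_2_101)) (pfC_sound p12_11_2_102)) (pfC_sound p12_11_2_103)) (pfC_sound p12_11_2_104)) (pfC_sound p12_11_2_105)) (pfC_sound p12_11_2_106)) (by decide +kernel)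

def z12_11_2 : zOK yB12_11 (nat_lit 2) (nat_lit 600) (nat_lit 750) (nat_lit 7298113) (nat_lit 5344356) = true := by decide +kernel
def g12_11_2 : gOK yB12_11.x P12_11 (nat_lit 1422) (q12_11 :: r12_11) (nat_lit 2) (nat_lit 600) (nat_lit 3) (nat_lit 750) (nat_lit 12712500) (nat_lit 12712500) (nat_lit 12712500) (nat_lit 12712500) [(nat_lit 800), (nat_lit 1600)] = true := by decide +kernel
def v12_11_2 : ivC P12_11 s12_11 w12_11 n12_11 (nat_lit 4) (nat_lit 4840) (nat_lit 2) (nat_lit 600) f152_1_600 f160_1_600 (nat_lit 3) (nat_lit 750) f152_1_750 f160_1_750 (nat_lit 7298113) (nat_lit 5344356) p12_11_2 = true := by decide +kernel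
def p12_11_3 : PF := (PF.cons (PF.cons (PF.cons (PF.cons (PF.leaf (nat_lit 2932898) (nat_lit 18345386) (nat_lit 48763426) (nat_lit 18345386) [(nat_lit 0), (nat_lit 0), (nat_lit 0), (nat_lit 0)]) (PF.cons (PF.leaf (nat_lit 3061892) (nat_lit 220364) (nat_lit 48570372) (nat_lit 18318076) [(nat_lit 220364), (nat_lit 0), (nat_lit 0), (nat_lit 0)]) (PF.cons (PF.leaf (nat_lit 3216075) (nat_lit 239508) (nat_lit 48344370) (nat_lit 18285426) [(nat_lit 239508), (nat_lit 0), (nat_lit 0), (nat_lit 0)]) (PF.cons (PF.leaf (nat_lit 3388997) (nat_lit 256470) (nat_lit 48091376) (nat_lit 18248026) [(nat_lit 256470), (nat_lit 0), (nat_lit 0), (nat_lit 0)]) (PF.cons (PF.leaf (nat_lit 3578108) (nat_lit 271743) (nat_lit 47815584) (nat_lit 18206252) [(nat_lit 271743), (nat_lit 0), (nat_lit 0), (nat_lit 0)]) (PF.cons (PF.leaf (nat_lit 3781313) (nat_lit 285646) (nat_lit 47520208) (nat_lit 18160371) [(nat_lit 285646), (nat_lit 0), (nat_lit 0), (nat_lit 0)]) (PF.cons (PF.leaf (nat_lit 3997124)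 (nat_lit 298396) (nat_lit 47207847) (nat_lit 18110588) [(nat_lit 298396), (nat_lit 0), (nat_lit 0), (nat_lit 0)]) (PF.cons (PF.leaf (nat_lit 4224001) (nat_lit 310150) (nat_lit 46880680) (nat_lit 18057075) [(nat_lit 310150), (nat_lit 0),
 (nat_lit 0), (nat_lit 0)]) (PF.cons (PF.leaf (nat_lit 4460920) (nat_lit 321030) (nat_lit 46540581) (nat_lit 17999983) [(nat_lit 321030), (nat_lit 0), (nat_lit 0), (nat_lit 0)]) (PF.cons PF.nil PF.nil)))))))))) (PF.cons (PF.cons (PF.leaf (nat_lit 3420471) (nat_lit 1130223) (nat_lit 47780625) (nat_lit 18197963) [(nat_lit 0), (nat_lit 1130223), (nat_lit 0), (nat_lit 0)]) (PF.cons (PF.leaf (nat_lit 3589201) (nat_lit 267212) (nat_lit 47527534) (nat_lit 18158551) [(nat_lit 267212), (nat_lit 1155514), (nat_lit 0), (nat_lit 0)]) (PF.cons (PF.leaf (nat_lit 3776601) (nat_lit 281798) (nat_lit 47250406) (nat_lit 18114423) [(nat_lit 281798), (nat_lit 1180386), (nat_lit 0), (nat_lit 0)]) (PF.cons (PF.leaf (nat_lit 3978639) (nat_lit 295014)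 (nat_lit 46953325) (nat_lit 18066007) [(nat_lit 295014), (nat_lit 1204436), (nat_lit 0), (nat_lit 0)]) (PF.cons (PF.leaf (nat_lit 4193366) (nat_lit 307104) (nat_lit 46639332) (nat_lit 18013602) [(nat_lit 307104), (nat_lit 1227459), (nat_lit 0), (nat_lit 0)]) (PF.cons (PF.leaf (nat_lit 4419277) (nat_lit 318235) (nat_lit 46310842) (nat_lit 17957440) [(nat_lit 318235), (nat_lit 1249354), (nat_lit 0), (nat_lit 0)]) (PF.cons (PF.leaf (nat_lit 4655160) (nat_lit
 328526) (nat_lit 45969856) (nat_lit 17897714) [(nat_lit 328526), (nat_lit 1270081), (nat_lit 0), (nat_lit 0)]) (PF.cons PF.nil (PF.cons PF.nil PF.nil))))))))) (PF.cons (PF.cons (PF.leaf (nat_lit 3978881) (nat_lit 1210831) (nat_lit 46671190) (nat_lit 18015959) [(nat_lit 0), (nat_lit 1210831), (nat_lit 0), (nat_lit 0)]) (PF.cons (PF.leaf (nat_lit 4177057) (nat_lit 303031) (nat_lit 46375940) (nat_lit 17965623) [(nat_lit 303031), (nat_lit 1232108), (nat_lit 0), (nat_lit 0)]) (PF.cons (PF.leaf (nat_lit 4389715) (nat_lit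 314654) (nat_lit 46063060) (nat_lit 17911096) [(nat_lit 314654), (nat_lit 1252673), (nat_lit 0), (nat_lit 0)]) (PF.cons (PF.leaf (nat_lit 4613834) (nat_lit 325305) (nat_lit 45735465) (nat_lit 17852714) [(nat_lit 325305), (nat_lit 1272357), (nat_lit 0), (nat_lit 0)]) (PF.cons (PF.leaf (nat_lit 4848009) (nat_lit 335123) (nat_lit 45395434) (nat_lit 17790736) [(nat_lit 335123), (nat_lit 1291073), (nat_lit 0), (nat_lit 0)]) (PF.cons (PF.leaf (nat_lit 5091088) (nat_lit 344209) (nat_lit 45044826) (nat_lit 17725377) [(nat_lit 344209), (nat_lit 1308780), (nat_lit 0), (nat_lit 0)]) (PF.cons PF.nil PF.nil))))))) (PF.cons (PF.cons (PF.leaf (nat_lit 4587882) (nat_lit 1275309)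
 (nat_lit 45479714) (nat_lit 17803170) [(nat_lit 0), (nat_lit 1275309), (nat_lit 0), (nat_lit 0)]) (PF.cons (PF.leaf (nat_lit 4808318) (nat_lit 331435) (nat_lit 45155352) (nat_lit 17743062) [(nat_lit 331435), (nat_lit 1292987), (nat_lit 0), (nat_lit 0)]) (PF.cons (PF.leaf (nat_lit 5040062) (nat_lit 340887) (nat_lit 44818145) (nat_lit 17679253) [(nat_lit 340887), (nat_lit 1309879), (nat_lit 0), (nat_lit 0)]) (PF.cons (PF.leaf (nat_lit 5280872) (nat_lit 349598) (nat_lit 44470252) (nat_lit 17612028) [(nat_lit 349598), (nat_lit 1325911), (nat_lit 0), (nat_lit 0)]) (PF.cons PF.nil PF.nil))))) (PF.cons (PF.cons (PF.leaf (nat_lit 5232592) (nat_lit 1326734) (nat_lit 44238461) (nat_lit 17563413) [(nat_lit 0), (nat_lit 1326734), (nat_lit 0), (nat_lit 0)]) (PF.cons (PF.leaf (nat_lit 5469716) (nat_lit 354281) (nat_lit 43894894) (nat_lit 17494733) [(nat_lit 354281), (nat_lit 1341225), (nat_lit 0), (nat_lit 0)]) (PF.cons (PF.leaf (nat_lit 5715749) (nat_lit 362035) (nat_lit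 43542152) (nat_lit 17422831) [(nat_lit 362035), (nat_lit 1354939), (nat_lit 0), (nat_lit 0)]) (PF.cons PF.nil PF.nil)))) (PF.cons (PF.cons (PF.leaf (nat_lit 5901445) (nat_lit 1367287) (nat_lit 42971743) (nat_lit 17300630)
 [(nat_lit 0), (nat_lit 1367287), (nat_lit 0), (nat_lit 0)]) (PF.cons (PF.leaf (nat_lit 6150829) (nat_lit 372715) (nat_lit 42616637) (nat_lit 17224617) [(nat_lit 372715), (nat_lit 1378968), (nat_lit 0), (nat_lit 0)]) PF.nil)) (PF.cons PF.nil (PF.cons PF.nil PF.nil)))))))) (PF.cons (PF.cons (PF.cons (PF.leaf (nat_lit 3926892) (nat_lit 2974556) (nat_lit 46212191) (nat_lit 17922064) [(nat_lit 0), (nat_lit 0), (nat_lit 2974556), (nat_lit 0)]) (PF.cons (PF.leaf (nat_lit 4103631) (nat_lit 286231) (nat_lit 45950885) (nat_lit 17876226) [(nat_lit 286231), (nat_lit 0), (nat_lit 2995469), (nat_lit 0)]) (PF.cons (PF.leaf (nat_lit 4298250) (nat_lit 299968) (nat_lit 45666855) (nat_lit 17825450) [(nat_lit 299968), (nat_lit 0), (nat_lit 3016570), (nat_lit 0)])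 (PF.cons (PF.leaf (nat_lit 4506667) (nat_lit 312243) (nat_lit 45364413) (nat_lit 17770309) [(nat_lit 312243), (nat_lit 0), (nat_lit 3037358), (nat_lit 0)]) (PF.cons (PF.leaf (nat_lit 4726858) (nat_lit 323349) (nat_lit 45046708) (nat_lit 17711207) [(nat_lit 323349), (nat_lit 0), (nat_lit 3057500), (nat_lit 0)]) (PF.cons (PF.leaf (nat_lit 4957295) (nat_lit 333479) (nat_lit 44716184) (nat_lit 17648454) [(nat_lit 333479), (nat_lit 0), (nat_lit
 3076774), (nat_lit 0)]) (PF.cons (PF.leaf (nat_lit 5196720) (nat_lit 342776) (nat_lit 44374821) (nat_lit 17582304) [(nat_lit 342776), (nat_lit 0), (nat_lit 3095029), (nat_lit 0)]) (PF.cons PF.nil (PF.cons PF.nil PF.nil))))))))) (PF.cons (PF.cons (PF.leaf (nat_lit 4497581) (nat_lit 1259006) (nat_lit 45087994) (nat_lit 17715989) [(nat_lit 0), (nat_lit 1259006), (nat_lit 3045821), (nat_lit 0)]) (PF.cons (PF.leaf (nat_lit 4701200) (nat_lit 318419) (nat_lit 44789942) (nat_lit 17659585) [(nat_lit 318419), (nat_lit 1276989), (nat_lit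 3063875), (nat_lit 0)]) (PF.cons (PF.leaf (nat_lit 4918403) (nat_lit 329191) (nat_lit 44475700) (nat_lit 17598995) [(nat_lit 329191), (nat_lit 1294279), (nat_lit 3081455), (nat_lit 0)]) (PF.cons (PF.leaf (nat_lit 5146253) (nat_lit 338961) (nat_lit 44148226) (nat_lit 17534642) [(nat_lit 338961), (nat_lit 1310748), (nat_lit 3098310), (nat_lit 0)]) (PF.cons (PF.leaf (nat_lit 5383325) (nat_lit 347890) (nat_lit 43809794) (nat_lit 17466850) [(nat_lit 347890), (nat_lit 1326332), (nat_lit 3114275), (nat_lit 0)]) (PF.cons (PF.leaf (nat_lit 5628425) (nat_lit 356090) (nat_lit 43462228) (nat_lit 17395883) [(nat_lit 356090), (nat_lit 1341007), (nat_lit 3129239), (nat_lit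
 0)]) (PF.cons PF.nil PF.nil))))))) (PF.cons (PF.cons (PF.leaf (nat_lit 5111545) (nat_lit 1311828) (nat_lit 43900680) (nat_lit 17482225) [(nat_lit 0), (nat_lit 1311828), (nat_lit 3102250), (nat_lit 0)]) (PF.cons (PF.leaf (nat_lit 5335022) (nat_lit 343646) (nat_lit 43578261) (nat_lit 17416762) [(nat_lit 343646), (nat_lit 1326643), (nat_lit 3116856), (nat_lit 0)]) (PF.cons (PF.leaf (nat_lit 5569049) (nat_lit 352301) (nat_lit 43244328) (nat_lit 17347738) [(nat_lit 352301), (nat_lit 1340721), (nat_lit 3130698), (nat_lit 0)]) (PF.cons (PF.leaf (nat_lit 5811318) (nat_lit 360211) (nat_lit 42901012) (nat_lit 17275490) [(nat_lit 360211), (nat_lit 1354011), (nat_lit 3143651), (nat_lit 0)]) (PF.cons PF.nil PF.nil))))) (PF.cons (PF.cons (PF.leaf (nat_lit 5755166) (nat_lit 1353535) (nat_lit 42678601) (nat_lit 17225082) [(nat_lit 0), (nat_lit 1353535), (nat_lit 3144523), (nat_lit 0)]) (PF.cons (PF.leaf (nat_lit 5993305) (nat_lit 363727) (nat_lit 42340902) (nat_lit 17151949)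 [(nat_lit 363727), (nat_lit 1365540), (nat_lit 3155610), (nat_lit 0)]) (PF.cons (PF.leaf (nat_lit 6239643) (nat_lit 370756) (nat_lit 41995171) (nat_lit 17075808) [(nat_lit 370756), (nat_lit 1376831), (nat_lit 3165825),
 (nat_lit 0)]) (PF.cons PF.nil PF.nil)))) (PF.cons (PF.cons (PF.leaf (nat_lit 6418044) (nat_lit 1385908) (nat_lit 41442652) (nat_lit 16948653) [(nat_lit 0), (nat_lit 1385908), (nat_lit 3173872), (nat_lit 0)]) (PF.cons PF.nil PF.nil)) (PF.cons PF.nil PF.nil)))))) (PF.cons (PF.cons (PF.cons (PF.leaf (nat_lit 5007632) (nat_lit 3088612) (nat_lit 43536762) (nat_lit 17394826) [(nat_lit 0), (nat_lit 0), (nat_lit 3088612), (nat_lit 0)]) (PF.cons (PF.leaf (nat_lit 5214957) (nat_lit 330721) (nat_lit 43239740) (nat_lit 17333529) [(nat_lit 330721), (nat_lit 0), (nat_lit 3102411), (nat_lit 0)]) (PF.cons (PF.leaf (nat_lit 5435061) (nat_lit 340735) (nat_lit 42927835) (nat_lit 17268111) [(nat_lit 340735), (nat_lit 0), (nat_lit 3115697), (nat_lit 0)]) (PF.cons (PF.leaf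 (nat_lit 5665118) (nat_lit 349730) (nat_lit 42604000) (nat_lit 17199064) [(nat_lit 349730), (nat_lit 0), (nat_lit 3128277), (nat_lit 0)]) (PF.cons (PF.leaf (nat_lit 5903656) (nat_lit 357880) (nat_lit 42270470) (nat_lit 17126764) [(nat_lit 357880), (nat_lit 0), (nat_lit 3140027), (nat_lit 0)]) (PF.cons PF.nil (PF.cons PF.nil PF.nil))))))) (PF.cons (PF.cons (PF.leaf (nat_lit 5622616) (nat_lit 1338678) (nat_lit 42366145) (nat_lit
 17144785) [(nat_lit 0), (nat_lit 1338678), (nat_lit 3129601), (nat_lit 0)]) (PF.cons (PF.leaf (nat_lit 5847814) (nat_lit 353226) (nat_lit 42048650) (nat_lit 17075181) [(nat_lit 353226), (nat_lit 1351096), (nat_lit 3140328), (nat_lit 0)]) (PF.cons (PF.leaf (nat_lit 6082781) (nat_lit 361177) (nat_lit 41720800) (nat_lit 17002183) [(nat_lit 361177), (nat_lit 1362818), (nat_lit 3150327), (nat_lit 0)]) (PF.cons (PF.leaf (nat_lit 6325363) (nat_lit 368384) (nat_lit 41384674) (nat_lit 16926165) [(nat_lit 368384), (nat_lit 1373808), (nat_lit 3159505),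 (nat_lit 0)]) (PF.cons PF.nil PF.nil))))) (PF.cons (PF.cons (PF.leaf (nat_lit 6262259) (nat_lit 1372335) (nat_lit 41172385) (nat_lit 16874771) [(nat_lit 0), (nat_lit 1372335), (nat_lit 3158492), (nat_lit 0)]) (PF.cons (PF.leaf (nat_lit 6500354) (nat_lit 370931) (nat_lit 40842760) (nat_lit 16798365) [(nat_lit 370931), (nat_lit 1382246), (nat_lit 3166130), (nat_lit 0)]) (PF.cons PF.nil (PF.cons PF.nil PF.nil)))) (PF.cons (PF.cons (PF.leaf (nat_lit 6917128) (nat_lit 1397885) (nat_lit 39973555) (nat_lit 16588868) [(nat_lit 0), (nat_lit 1397885), (nat_lit 3176366), (nat_lit 0)]) (PF.cons PF.nil PF.nil)) (PF.cons PF.nil PF.nil))))) (PF.cons (PF.cons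
 (PF.cons (PF.leaf (nat_lit 6119950) (nat_lit 3142900) (nat_lit 40883882) (nat_lit 16796227) [(nat_lit 0), (nat_lit 0), (nat_lit 3142900), (nat_lit 0)]) (PF.cons (PF.leaf (nat_lit 6345702) (nat_lit 360624) (nat_lit 40573433) (nat_lit 16723558) [(nat_lit 360624), (nat_lit 0), (nat_lit 3150398), (nat_lit 0)]) (PF.cons (PF.leaf (nat_lit 6580600) (nat_lit 367947) (nat_lit 40253641) (nat_lit 16647673) [(nat_lit 367947), (nat_lit 0), (nat_lit 3157200), (nat_lit 0)]) (PF.cons PF.nil PF.nil)))) (PF.cons (PF.cons (PF.leaf (nat_lit 6753362) (nat_lit 1384604) (nat_lit 39724665) (nat_lit 16517249) [(nat_lit 0), (nat_lit 1384604), (nat_lit 3160764), (nat_lit 0)]) (PF.cons (PF.leaf (nat_lit 6990544) (nat_lit 376269) (nat_lit 39404620) (nat_lit 16438588) [(nat_lit 376269), (nat_lit 1392736), (nat_lit 3165532), (nat_lit 0)]) PF.nil)) (PF.cons PF.nil PF.nil))) (PF.cons (PF.cons (PF.cons (PF.leaf (nat_lit 7228335) (nat_lit 3153602) (nat_lit 38337955) (nat_lit 16156446) [(nat_lit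 0), (nat_lit 0), (nat_lit 3153602), (nat_lit 0)]) (PF.cons PF.nil PF.nil)) (PF.cons PF.nil PF.nil)) (PF.cons PF.nil PF.nil)))))) (PF.cons (PF.cons (PF.cons (PF.cons (PF.leaf (nat_lit 4870395) (nat_lit 8597377) (nat_lit
 41633995) (nat_lit 16877440) [(nat_lit 0), (nat_lit 0), (nat_lit 0), (nat_lit 8597377)]) (PF.cons (PF.leaf (nat_lit 5045985) (nat_lit 294742) (nat_lit 41398320) (nat_lit 16825992) [(nat_lit 294742), (nat_lit 0), (nat_lit 0), (nat_lit 8589756)]) (PF.cons (PF.leaf (nat_lit 5238340) (nat_lit 307715) (nat_lit 41143112) (nat_lit 16769582) [(nat_lit 307715), (nat_lit 0), (nat_lit 0), (nat_lit 8580687)]) (PF.cons (PF.leaf (nat_lit 5443312) (nat_lit 319108) (nat_lit 40872366) (nat_lit 16708955) [(nat_lit 319108), (nat_lit 0), (nat_lit 0), (nat_lit 8570164)]) (PF.cons (PF.leaf (nat_lit 5658993) (nat_lit 329253) (nat_lit 40588974) (nat_lit 16644641) [(nat_lit 329253), (nat_lit 0), (nat_lit 0), (nat_lit 8558184)]) (PF.cons (PF.leaf (nat_lit 5883713) (nat_lit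 338371) (nat_lit 40295158) (nat_lit 16577048) [(nat_lit 338371), (nat_lit 0), (nat_lit 0), (nat_lit 8544748)]) (PF.cons (PF.leaf (nat_lit 6116268) (nat_lit 346624) (nat_lit 39992697) (nat_lit 16506505) [(nat_lit 346624), (nat_lit 0), (nat_lit 0), (nat_lit 8529864)]) (PF.cons PF.nil (PF.cons PF.nil PF.nil))))))))) (PF.cons (PF.cons (PF.leaf (nat_lit 5423768) (nat_lit 1271147) (nat_lit 40630459) (nat_lit 16651506) [(nat_lit 0), (nat_lit
 1271147), (nat_lit 0), (nat_lit 8555698)]) (PF.cons (PF.leaf (nat_lit 5623190) (nat_lit 323509) (nat_lit 40365174) (nat_lit 16590634) [(nat_lit 323509), (nat_lit 1285703), (nat_lit 0), (nat_lit 8543791)]) (PF.cons (PF.leaf (nat_lit 5835009) (nat_lit 333377) (nat_lit 40086337) (nat_lit 16525843) [(nat_lit 333377), (nat_lit 1299491), (nat_lit 0), (nat_lit 8530384)]) (PF.cons (PF.leaf (nat_lit 6056426) (nat_lit 342196) (nat_lit 39796623) (nat_lit 16457654) [(nat_lit 342196), (nat_lit 1312434), (nat_lit 0), (nat_lit 8515510)]) (PF.cons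 (PF.leaf (nat_lit 6285995) (nat_lit 350145) (nat_lit 39498062) (nat_lit 16386462) [(nat_lit 350145), (nat_lit 1324510), (nat_lit 0), (nat_lit 8499196)]) (PF.cons (PF.leaf (nat_lit 6522554) (nat_lit 357352) (nat_lit 39192269) (nat_lit 16312585) [(nat_lit 357352), (nat_lit 1335722), (nat_lit 0), (nat_lit 8481473)]) (PF.cons PF.nil PF.nil))))))) (PF.cons (PF.cons (PF.leaf (nat_lit 6012406) (nat_lit 1311334) (nat_lit 39582241) (nat_lit 16404071) [(nat_lit 0), (nat_lit 1311334), (nat_lit 0), (nat_lit 8499829)]) (PF.cons (PF.leaf (nat_lit 6228918) (nat_lit 345338) (nat_lit 39298193) (nat_lit 16335733) [(nat_lit 345338), (nat_lit 1322916), (nat_lit 0),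
 (nat_lit 8483714)]) (PF.cons (PF.leaf (nat_lit 6454890) (nat_lit 353074) (nat_lit 39004728) (nat_lit 16264254) [(nat_lit 353074), (nat_lit 1333766), (nat_lit 0), (nat_lit 8466147)]) (PF.cons (PF.leaf (nat_lit 6688165) (nat_lit 360053) (nat_lit 38703723) (nat_lit 16190023) [(nat_lit 360053), (nat_lit 1343863), (nat_lit 0), (nat_lit 8447179)]) (PF.cons PF.nil PF.nil))))) (PF.cons (PF.cons (PF.leaf (nat_lit 6624179) (nat_lit 1341813) (nat_lit 38512630) (nat_lit 16139926) [(nat_lit 0), (nat_lit 1341813), (nat_lit 0), (nat_lit 8430815)]) (PF.cons (PF.leaf (nat_lit 6852973) (nat_lit 362249) (nat_lit 38217453) (nat_lit 16065680) [(nat_lit 362249), (nat_lit 1350884), (nat_lit 0), (nat_lit 8410776)]) (PF.cons (PF.leaf (nat_lit 7089049) (nat_lit 368403) (nat_lit 37915838) (nat_lit 15988912) [(nat_lit 368403), (nat_lit 1359288), (nat_lit 0), (nat_lit 8389388)]) (PF.cons PF.nil PF.nil)))) (PF.cons (PF.cons (PF.leaf (nat_lit 7250201) (nat_lit 1364419) (nat_lit 37438035) (nat_lit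 15863036) [(nat_lit 0), (nat_lit 1364419), (nat_lit 0), (nat_lit 8350061)]) (PF.cons PF.nil PF.nil)) (PF.cons PF.nil PF.nil)))))) (PF.cons (PF.cons (PF.cons (PF.leaf (nat_lit 5894965) (nat_lit 3045384) (nat_lit
 39278062) (nat_lit 16319742) [(nat_lit 0), (nat_lit 0), (nat_lit 3045384), (nat_lit 8465623)]) (PF.cons (PF.leaf (nat_lit 6096393) (nat_lit 332225) (nat_lit 39016303) (nat_lit 16256142) [(nat_lit 332225), (nat_lit 0), (nat_lit 3053777), (nat_lit 8450363)]) (PF.cons (PF.leaf (nat_lit 6309589) (nat_lit 341400) (nat_lit 38742071) (nat_lit 16188754) [(nat_lit 341400), (nat_lit 0), (nat_lit 3061609), (nat_lit 8433576)]) (PF.cons (PF.leaf (nat_lit 6531759) (nat_lit 349528) (nat_lit 38457988) (nat_lit 16118136) [(nat_lit 349528), (nat_lit 0), (nat_lit 3068761), (nat_lit 8415341)]) (PF.cons (PF.leaf (nat_lit 6761466) (nat_lit 356799) (nat_lit 38166025) (nat_lit 16044709) [(nat_lit 356799), (nat_lit 0), (nat_lit 3075161), (nat_lit 8395720)]) (PF.cons PF.nil (PF.cons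 PF.nil PF.nil))))))) (PF.cons (PF.cons (PF.leaf (nat_lit 6481344) (nat_lit 1326448) (nat_lit 38253292) (nat_lit 16064303) [(nat_lit 0), (nat_lit 1326448), (nat_lit 3066887), (nat_lit 8397881)]) (PF.cons (PF.leaf (nat_lit 6698253) (nat_lit 351744) (nat_lit 37975616) (nat_lit 15993928) [(nat_lit 351744), (nat_lit 1336130), (nat_lit 3072681), (nat_lit 8378711)]) (PF.cons (PF.leaf (nat_lit 6924069) (nat_lit 358869) (nat_lit
 37689417) (nat_lit 15920587) [(nat_lit 358869), (nat_lit 1345131), (nat_lit 3077804), (nat_lit 8358133)]) (PF.cons (PF.leaf (nat_lit 7156679) (nat_lit 365248) (nat_lit 37396508) (nat_lit 15844684) [(nat_lit 365248), (nat_lit 1353441), (nat_lit 3082206), (nat_lit 8336226)]) (PF.cons PF.nil PF.nil))))) (PF.cons (PF.cons (PF.leaf (nat_lit 7087177) (nat_lit 1350765) (nat_lit 37214885) (nat_lit 15794829) [(nat_lit 0), (nat_lit 1350765), (nat_lit 3078916), (nat_lit 8318650)]) (PF.cons (PF.leaf (nat_lit 7315040) (nat_lit 366708) (nat_lit 36928265) (nat_lit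 15719243) [(nat_lit 366708), (nat_lit 1358216), (nat_lit 3082212), (nat_lit 8295948)]) (PF.cons PF.nil (PF.cons PF.nil PF.nil)))) (PF.cons (PF.cons (PF.leaf (nat_lit 7704361) (nat_lit 1368251) (nat_lit 36177057) (nat_lit 15515074) [(nat_lit 0), (nat_lit 1368251), (nat_lit 3082537), (nat_lit 8229389)]) (PF.cons PF.nil PF.nil)) (PF.cons PF.nil PF.nil))))) (PF.cons (PF.cons (PF.cons (PF.leaf (nat_lit 6937157) (nat_lit 3062513) (nat_lit 36975815) (nat_lit 15722170) [(nat_lit 0), (nat_lit 0), (nat_lit 3062513), (nat_lit 8285798)]) (PF.cons (PF.leaf (nat_lit 7153727) (nat_lit 356526) (nat_lit 36705670) (nat_lit 15650482) [(nat_lit 356526),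
 (nat_lit 0), (nat_lit 3065991), (nat_lit 8264150)]) (PF.cons (PF.leaf (nat_lit 7378703) (nat_lit 363108) (nat_lit 36427781) (nat_lit 15575998) [(nat_lit 363108), (nat_lit 0), (nat_lit 3068834), (nat_lit 8241146)]) (PF.cons PF.nil PF.nil)))) (PF.cons (PF.cons (PF.leaf (nat_lit 7535664) (nat_lit 1355141) (nat_lit 35971648) (nat_lit 15449882) [(nat_lit 0), (nat_lit 1355141), (nat_lit 3066833), (nat_lit 8198473)]) (PF.cons (PF.leaf (nat_lit 7762076) (nat_lit 369804) (nat_lit 35694319) (nat_lit 15373611) [(nat_lit 369804), (nat_lit 1361214), (nat_lit 3068102), (nat_lit 8173657)]) PF.nil)) (PF.cons PF.nil PF.nil))) (PF.cons (PF.cons (PF.cons (PF.leaf (nat_lit 7969809) (nat_lit 3048637) (nat_lit 34783091) (nat_lit 15107353) [(nat_lit 0), (nat_lit 0), (nat_lit 3048637), (nat_lit 8072456)]) (PF.cons PF.nil PF.nil)) (PF.cons PF.nil PF.nil)) (PF.cons PF.nil PF.nil))))) (PF.cons (PF.cons (PF.cons (PF.cons (PF.leaf (nat_lit 6683122) (nat_lit 8079605) (nat_lit 35655406) (nat_lit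 15294196) [(nat_lit 0), (nat_lit 0), (nat_lit 0), (nat_lit 8079605)]) (PF.cons (PF.leaf (nat_lit 6877783) (nat_lit 329235) (nat_lit 35425975) (nat_lit 15231858) [(nat_lit 329235), (nat_lit 0), (nat_lit 0), (nat_lit
 8060871)]) (PF.cons (PF.leaf (nat_lit 7083384) (nat_lit 337698) (nat_lit 35185977) (nat_lit 15166086) [(nat_lit 337698), (nat_lit 0), (nat_lit 0), (nat_lit 8040675)]) (PF.cons (PF.leaf (nat_lit 7297168) (nat_lit 345114) (nat_lit 34937714) (nat_lit 15097450) [(nat_lit 345114), (nat_lit 0), (nat_lit 0), (nat_lit 8019152)]) (PF.cons (PF.leaf (nat_lit 7517714) (nat_lit 351679) (nat_lit 34682906) (nat_lit 15026376) [(nat_lit 351679), (nat_lit 0), (nat_lit 0), (nat_lit 7996406)]) PF.nil))))) (PF.cons (PF.cons (PF.leaf (nat_lit 7241449) (nat_lit 1300174) (nat_lit 34761825) (nat_lit 15046349) [(nat_lit 0), (nat_lit 1300174), (nat_lit 0), (nat_lit 8000232)]) (PF.cons (PF.leaf (nat_lit 7449838) (nat_lit 346442) (nat_lit 34519582) (nat_lit 14978393) [(nat_lit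 346442), (nat_lit 1307900), (nat_lit 0), (nat_lit 7978247)]) (PF.cons (PF.leaf (nat_lit 7666410) (nat_lit 352904) (nat_lit 34270190) (nat_lit 14907835) [(nat_lit 352904), (nat_lit 1314974), (nat_lit 0), (nat_lit 7955001)]) (PF.cons PF.nil PF.nil)))) (PF.cons (PF.cons (PF.leaf (nat_lit 7815705) (nat_lit 1318050) (nat_lit 33859687) (nat_lit 14788360) [(nat_lit 0), (nat_lit 1318050), (nat_lit 0), (nat_lit 7912331)]) (PF.cons (PF.leaf
 (nat_lit 8033606) (nat_lit 359357) (nat_lit 33610480) (nat_lit 14716292) [(nat_lit 359357), (nat_lit 1323781), (nat_lit 0), (nat_lit 7887559)]) PF.nil)) (PF.cons PF.nil (PF.cons PF.nil PF.nil))))) (PF.cons (PF.cons (PF.cons (PF.leaf (nat_lit 7661874) (nat_lit 2963445) (nat_lit 33660730) (nat_lit 14722817) [(nat_lit 0), (nat_lit 0), (nat_lit 2963445), (nat_lit 7880910)]) (PF.cons (PF.leaf (nat_lit 7869389) (nat_lit 349484) (nat_lit 33425612) (nat_lit 14654533) [(nat_lit 349484), (nat_lit 0), (nat_lit 2964375), (nat_lit 7857403)]) (PF.cons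 (PF.leaf (nat_lit 8084708) (nat_lit 355472) (nat_lit 33183958) (nat_lit 14583801) [(nat_lit 355472), (nat_lit 0), (nat_lit 2964728), (nat_lit 7832690)]) (PF.cons PF.nil PF.nil)))) (PF.cons (PF.cons (PF.leaf (nat_lit 8228506) (nat_lit 1317517) (nat_lit 32789853) (nat_lit 14465339) [(nat_lit 0), (nat_lit 1317517), (nat_lit 2959447), (nat_lit 7788327)]) (PF.cons PF.nil PF.nil)) (PF.cons PF.nil PF.nil))) (PF.cons (PF.cons (PF.cons (PF.leaf (nat_lit 8628638) (nat_lit 2935278) (nat_lit 31767275) (nat_lit 14147425) [(nat_lit 0), (nat_lit 0), (nat_lit 2935278), (nat_lit 7661778)]) (PF.cons PF.nil PF.nil)) (PF.cons PF.nil PF.nil)) PF.nil))) (PF.cons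
 (PF.cons (PF.cons (PF.cons (PF.leaf (nat_lit 8312761) (nat_lit 7488531) (nat_lit 30833912) (nat_lit 13809305) [(nat_lit 0), (nat_lit 0), (nat_lit 0), (nat_lit 7488531)]) (PF.cons (PF.leaf (nat_lit 8511636) (nat_lit 340890) (nat_lit 30628576) (nat_lit 13745426) [(nat_lit 340890), (nat_lit 0), (nat_lit 0), (nat_lit 7464639)]) (PF.cons PF.nil PF.nil))) (PF.cons (PF.cons (PF.leaf (nat_lit 8850568) (nat_lit 1276261) (nat_lit 30075557) (nat_lit 13569734) [(nat_lit 0), (nat_lit 1276261), (nat_lit 0), (nat_lit 7395753)]) PF.nil) PF.nil)) (PF.cons PF.nil PF.nil)) (PF.cons PF.nil (PF.cons PF.nil (PF.cons PF.nil (PF.cons PF.nil PF.nil))))))))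

def p12_11_3_0 : pfC (piC [(nat_lit 41351667), (nat_lit 26310893), (nat_lit 19519284), (nat_lit 13318063)] (nat_lit 5344356)) p12_11_3 (nat_lit 4) (nat_lit 0) (nat_lit 1) = true := by decide +kernel
def p12_11_3_1 : pfC (piC [(nat_lit 41351667), (nat_lit 26310893), (nat_lit 19519284), (nat_lit 13318063)] (nat_lit 5344356)) p12_11_3 (nat_lit 4) (nat_lit 1) (nat_lit 2) = true := by decide +kernel
def p12_11_3_2 : pfC (piC [(nat_lit 41351667), (nat_lit 26310893), (nat_lit 19519284), (nat_lit 13318063)] (nat_lit 5344356)) p12_11_3 (nat_lit 4) (nat_lit 2) (nat_lit 3) = true := by decide +kernel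
def p12_11_3_3 : pfC (piC [(nat_lit 41351667), (nat_lit 26310893), (nat_lit 19519284), (nat_lit 13318063)] (nat_lit 5344356)) p12_11_3 (nat_lit 4) (nat_lit 3) (nat_lit 4) = true := by decide +kernel
def p12_11_3_4 : pfC (piC [(nat_lit 41351667), (nat_lit 26310893), (nat_lit 19519284), (nat_lit 13318063)] (nat_lit 5344356)) p12_11_3 (nat_lit 4) (nat_lit 4) (nat_lit 5) = true := by decide +kernel
def p12_11_3_5 : pfC (piC [(nat_lit 41351667), (nat_lit 26310893), (nat_lit 19519284), (nat_lit 13318063)] (nat_lit 5344356)) p12_11_3 (nat_lit 4) (nat_lit 5) (nat_lit 6) = true := by decide +kernel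
def p12_11_3_6 : pfC (piC [(nat_lit 41351667), (nat_lit 26310893), (nat_lit 19519284), (nat_lit 13318063)] (nat_lit 5344356)) p12_11_3 (nat_lit 4) (nat_lit 6) (nat_lit 7) = true := by decide +kernel
def p12_11_3_7 : pfC (piC [(nat_lit 41351667), (nat_lit 26310893), (nat_lit 19519284), (nat_lit 13318063)] (nat_lit 5344356)) p12_11_3 (nat_lit 4) (nat_lit 7) (nat_lit 8) = true := by decide +kernel
def p12_11_3_8 : pfC (piC [(nat_lit 41351667), (nat_lit 26310893), (nat_lit 19519284), (nat_lit 13318063)] (nat_lit 5344356)) p12_11_3 (nat_lit 4) (nat_lit 8) (nat_lit 9) = true := by decide +kernel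
def p12_11_3_9 : pfC (piC [(nat_lit 41351667), (nat_lit 26310893), (nat_lit 19519284), (nat_lit 13318063)] (nat_lit 5344356)) p12_11_3 (nat_lit 4) (nat_lit 9) (nat_lit 10) = true := by decide +kernel
def p12_11_3_10 : pfC (piC [(nat_lit 41351667), (nat_lit 26310893), (nat_lit 19519284), (nat_lit 13318063)] (nat_lit 5344356)) p12_11_3 (nat_lit 4) (nat_lit 10) (nat_lit 11) = true := by decide +kernel
def p12_11_3_11 : pfC (piC [(nat_lit 41351667), (nat_lit 26310893), (nat_lit 19519284), (nat_lit 13318063)] (nat_lit 5344356)) p12_11_3 (nat_lit 4) (nat_lit 11) (nat_lit 12) = true := by decide +kernel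
def p12_11_3_12 : pfC (piC [(nat_lit 41351667), (nat_lit 26310893), (nat_lit 19519284), (nat_lit 13318063)] (nat_lit 5344356)) p12_11_3 (nat_lit 4) (nat_lit 12) (nat_lit 13) = true := by decide +kernel
def p12_11_3_13 : pfC (piC [(nat_lit 41351667), (nat_lit 26310893), (nat_lit 19519284), (nat_lit 13318063)] (nat_lit 5344356)) p12_11_3 (nat_lit 4) (nat_lit 13) (nat_lit 14) = true := by decide +kernel
def p12_11_3_14 : pfC (piC [(nat_lit 41351667), (nat_lit 26310893), (nat_lit 19519284), (nat_lit 13318063)] (nat_lit 5344356)) p12_11_3 (nat_lit 4) (nat_lit 14) (nat_lit 15) = true := by decide +kernel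
def p12_11_3_15 : pfC (piC [(nat_lit 41351667), (nat_lit 26310893), (nat_lit 19519284), (nat_lit 13318063)] (nat_lit 5344356)) p12_11_3 (nat_lit 4) (nat_lit 15) (nat_lit 16) = true := by decide +kernel
def p12_11_3_16 : pfC (piC [(nat_lit 41351667), (nat_lit 26310893), (nat_lit 19519284), (nat_lit 13318063)] (nat_lit 5344356)) p12_11_3 (nat_lit 4) (nat_lit 16) (nat_lit 17) = true := by decide +kernel
def p12_11_3_17 : pfC (piC [(nat_lit 41351667), (nat_lit 26310893), (nat_lit 19519284), (nat_lit 13318063)] (nat_lit 5344356)) p12_11_3 (nat_lit 4) (nat_lit 17) (nat_lit 18) = true := by decide +kernel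
def p12_11_3_18 : pfC (piC [(nat_lit 41351667), (nat_lit 26310893), (nat_lit 19519284), (nat_lit 13318063)] (nat_lit 5344356)) p12_11_3 (nat_lit 4) (nat_lit 18) (nat_lit 19) = true := by decide +kernel
def p12_11_3_19 : pfC (piC [(nat_lit 41351667), (nat_lit 26310893), (nat_lit 19519284), (nat_lit 13318063)] (nat_lit 5344356)) p12_11_3 (nat_lit 4) (nat_lit 19) (nat_lit 20) = true := by decide +kernel
def p12_11_3_20 : pfC (piC [(nat_lit 41351667), (nat_lit 26310893), (nat_lit 19519284), (nat_lit 13318063)] (nat_lit 5344356)) p12_11_3 (nat_lit 4) (nat_lit 20) (nat_lit 21) = true := by decide +kernel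
def p12_11_3_21 : pfC (piC [(nat_lit 41351667), (nat_lit 26310893), (nat_lit 19519284), (nat_lit 13318063)] (nat_lit 5344356)) p12_11_3 (nat_lit 4) (nat_lit 21) (nat_lit 22) = true := by decide +kernel
def p12_11_3_22 : pfC (piC [(nat_lit 41351667), (nat_lit 26310893), (nat_lit 19519284), (nat_lit 13318063)] (nat_lit 5344356)) p12_11_3 (nat_lit 4) (nat_lit 22) (nat_lit 23) = true := by decide +kernel
def p12_11_3_23 : pfC (piC [(nat_lit 41351667), (nat_lit 26310893), (nat_lit 19519284), (nat_lit 13318063)] (nat_lit 5344356)) p12_11_3 (nat_lit 4) (nat_lit 23) (nat_lit 24) = true := by decide +kernel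
def p12_11_3_24 : pfC (piC [(nat_lit 41351667), (nat_lit 26310893), (nat_lit 19519284), (nat_lit 13318063)] (nat_lit 5344356)) p12_11_3 (nat_lit 4) (nat_lit 24) (nat_lit 25) = true := by decide +kernel
def p12_11_3_25 : pfC (piC [(nat_lit 41351667), (nat_lit 26310893), (nat_lit 19519284), (nat_lit 13318063)] (nat_lit 5344356)) p12_11_3 (nat_lit 4) (nat_lit 25) (nat_lit 26) = true := by decide +kernel
def p12_11_3_26 : pfC (piC [(nat_lit 41351667), (nat_lit 26310893), (nat_lit 19519284), (nat_lit 13318063)] (nat_lit 5344356)) p12_11_3 (nat_lit 4) (nat_lit 26) (nat_lit 27) = true := by decide +kernel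
def p12_11_3_27 : pfC (piC [(nat_lit 41351667), (nat_lit 26310893), (nat_lit 19519284), (nat_lit 13318063)] (nat_lit 5344356)) p12_11_3 (nat_lit 4) (nat_lit 27) (nat_lit 28) = true := by decide +kernel
def p12_11_3_28 : pfC (piC [(nat_lit 41351667), (nat_lit 26310893), (nat_lit 19519284), (nat_lit 13318063)] (nat_lit 5344356)) p12_11_3 (nat_lit 4) (nat_lit 28) (nat_lit 29) = true := by decide +kernel
def p12_11_3_29 : pfC (piC [(nat_lit 41351667), (nat_lit 26310893), (nat_lit 19519284), (nat_lit 13318063)] (nat_lit 5344356)) p12_11_3 (nat_lit 4) (nat_lit 29) (nat_lit 30) = true := by decide +kernel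
def p12_11_3_30 : pfC (piC [(nat_lit 41351667), (nat_lit 26310893), (nat_lit 19519284), (nat_lit 13318063)] (nat_lit 5344356)) p12_11_3 (nat_lit 4) (nat_lit 30) (nat_lit 31) = true := by decide +kernel
def p12_11_3_31 : pfC (piC [(nat_lit 41351667), (nat_lit 26310893), (nat_lit 19519284), (nat_lit 13318063)] (nat_lit 5344356)) p12_11_3 (nat_lit 4) (nat_lit 31) (nat_lit 32) = true := by decide +kernel
def p12_11_3_32 : pfC (piC [(nat_lit 41351667), (nat_lit 26310893), (nat_lit 19519284), (nat_lit 13318063)] (nat_lit 5344356)) p12_11_3 (nat_lit 4) (nat_lit 32) (nat_lit 33) = true := by decide +kernel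
def p12_11_3_33 : pfC (piC [(nat_lit 41351667), (nat_lit 26310893), (nat_lit 19519284), (nat_lit 13318063)] (nat_lit 5344356)) p12_11_3 (nat_lit 4) (nat_lit 33) (nat_lit 34) = true := by decide +kernel
def p12_11_3_34 : pfC (piC [(nat_lit 41351667), (nat_lit 26310893), (nat_lit 19519284), (nat_lit 13318063)] (nat_lit 5344356)) p12_11_3 (nat_lit 4) (nat_lit 34) (nat_lit 35) = true := by decide +kernel
def p12_11_3_35 : pfC (piC [(nat_lit 41351667), (nat_lit 26310893), (nat_lit 19519284), (nat_lit 13318063)] (nat_lit 5344356)) p12_11_3 (nat_lit 4) (nat_lit 35) (nat_lit 36) = true := by decide +kernel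
def p12_11_3_36 : pfC (piC [(nat_lit 41351667), (nat_lit 26310893), (nat_lit 19519284), (nat_lit 13318063)] (nat_lit 5344356)) p12_11_3 (nat_lit 4) (nat_lit 36) (nat_lit 37) = true := by decide +kernel
def p12_11_3_37 : pfC (piC [(nat_lit 41351667), (nat_lit 26310893), (nat_lit 19519284), (nat_lit 13318063)] (nat_lit 5344356)) p12_11_3 (nat_lit 4) (nat_lit 37) (nat_lit 38) = true := by decide +kernel
def p12_11_3_38 : pfC (piC [(nat_lit 41351667), (nat_lit 26310893), (nat_lit 19519284), (nat_lit 13318063)] (nat_lit 5344356)) p12_11_3 (nat_lit 4) (nat_lit 38) (nat_lit 39) = true := by decide +kernel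
def p12_11_3_39 : pfC (piC [(nat_lit 41351667), (nat_lit 26310893), (nat_lit 19519284), (nat_lit 13318063)] (nat_lit 5344356)) p12_11_3 (nat_lit 4) (nat_lit 39) (nat_lit 40) = true := by decide +kernel
def p12_11_3_40 : pfC (piC [(nat_lit 41351667), (nat_lit 26310893), (nat_lit 19519284), (nat_lit 13318063)] (nat_lit 5344356)) p12_11_3 (nat_lit 4) (nat_lit 40) (nat_lit 41) = true := by decide +kernel
def p12_11_3_41 : pfC (piC [(nat_lit 41351667), (nat_lit 26310893), (nat_lit 19519284), (nat_lit 13318063)] (nat_lit 5344356)) p12_11_3 (nat_lit 4) (nat_lit 41) (nat_lit 42) = true := by decide +kernel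
def p12_11_3_42 : pfC (piC [(nat_lit 41351667), (nat_lit 26310893), (nat_lit 19519284), (nat_lit 13318063)] (nat_lit 5344356)) p12_11_3 (nat_lit 4) (nat_lit 42) (nat_lit 43) = true := by decide +kernel
def p12_11_3_43 : pfC (piC [(nat_lit 41351667), (nat_lit 26310893), (nat_lit 19519284), (nat_lit 13318063)] (nat_lit 5344356)) p12_11_3 (nat_lit 4) (nat_lit 43) (nat_lit 44) = true := by decide +kernel
def p12_11_3_44 : pfC (piC [(nat_lit 41351667), (nat_lit 26310893), (nat_lit 19519284), (nat_lit 13318063)] (nat_lit 5344356)) p12_11_3 (nat_lit 4) (nat_lit 44) (nat_lit 45) = true := by decide +kernel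
def p12_11_3_45 : pfC (piC [(nat_lit 41351667), (nat_lit 26310893), (nat_lit 19519284), (nat_lit 13318063)] (nat_lit 5344356)) p12_11_3 (nat_lit 4) (nat_lit 45) (nat_lit 46) = true := by decide +kernel
def p12_11_3_46 : pfC (piC [(nat_lit 41351667), (nat_lit 26310893), (nat_lit 19519284), (nat_lit 13318063)] (nat_lit 5344356)) p12_11_3 (nat_lit 4) (nat_lit 46) (nat_lit 47) = true := by decide +kernel
def p12_11_3_47 : pfC (piC [(nat_lit 41351667), (nat_lit 26310893), (nat_lit 19519284), (nat_lit 13318063)] (nat_lit 5344356)) p12_11_3 (nat_lit 4) (nat_lit 47) (nat_lit 48) = true := by decide +kernel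
def p12_11_3_48 : pfC (piC [(nat_lit 41351667), (nat_lit 26310893), (nat_lit 19519284), (nat_lit 13318063)] (nat_lit 5344356)) p12_11_3 (nat_lit 4) (nat_lit 48) (nat_lit 49) = true := by decide +kernel
def p12_11_3_49 : pfC (piC [(nat_lit 41351667), (nat_lit 26310893), (nat_lit 19519284), (nat_lit 13318063)] (nat_lit 5344356)) p12_11_3 (nat_lit 4) (nat_lit 49) (nat_lit 50) = true := by decide +kernel
def p12_11_3_50 : pfC (piC [(nat_lit 41351667), (nat_lit 26310893), (nat_lit 19519284), (nat_lit 13318063)] (nat_lit 5344356)) p12_11_3 (nat_lit 4) (nat_lit 50) (nat_lit 51) = true := by decide +kernel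
def p12_11_3_51 : pfC (piC [(nat_lit 41351667), (nat_lit 26310893), (nat_lit 19519284), (nat_lit 13318063)] (nat_lit 5344356)) p12_11_3 (nat_lit 4) (nat_lit 51) (nat_lit 52) = true := by decide +kernel
def p12_11_3_52 : pfC (piC [(nat_lit 41351667), (nat_lit 26310893), (nat_lit 19519284), (nat_lit 13318063)] (nat_lit 5344356)) p12_11_3 (nat_lit 4) (nat_lit 52) (nat_lit 53) = true := by decide +kernel
def p12_11_3_53 : pfC (piC [(nat_lit 41351667), (nat_lit 26310893), (nat_lit 19519284), (nat_lit 13318063)] (nat_lit 5344356)) p12_11_3 (nat_lit 4) (nat_lit 53) (nat_lit 54) = true := by decide +kernel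
def p12_11_3_54 : pfC (piC [(nat_lit 41351667), (nat_lit 26310893), (nat_lit 19519284), (nat_lit 13318063)] (nat_lit 5344356)) p12_11_3 (nat_lit 4) (nat_lit 54) (nat_lit 55) = true := by decide +kernel
def p12_11_3_55 : pfC (piC [(nat_lit 41351667), (nat_lit 26310893), (nat_lit 19519284), (nat_lit 13318063)] (nat_lit 5344356)) p12_11_3 (nat_lit 4) (nat_lit 55) (nat_lit 56) = true := by decide +kernel
def p12_11_3_56 : pfC (piC [(nat_lit 41351667), (nat_lit 26310893), (nat_lit 19519284), (nat_lit 13318063)] (nat_lit 5344356)) p12_11_3 (nat_lit 4) (nat_lit 56) (nat_lit 57) = true := by decide +kernel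
def p12_11_3_57 : pfC (piC [(nat_lit 41351667), (nat_lit 26310893), (nat_lit 19519284), (nat_lit 13318063)] (nat_lit 5344356)) p12_11_3 (nat_lit 4) (nat_lit 57) (nat_lit 58) = true := by decide +kernel
def p12_11_3_58 : pfC (piC [(nat_lit 41351667), (nat_lit 26310893), (nat_lit 19519284), (nat_lit 13318063)] (nat_lit 5344356)) p12_11_3 (nat_lit 4) (nat_lit 58) (nat_lit 59) = true := by decide +kernel
def p12_11_3_59 : pfC (piC [(nat_lit 41351667), (nat_lit 26310893), (nat_lit 19519284), (nat_lit 13318063)] (nat_lit 5344356)) p12_11_3 (nat_lit 4) (nat_lit 59) (nat_lit 60) = true := by decide +kernel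
def p12_11_3_60 : pfC (piC [(nat_lit 41351667), (nat_lit 26310893), (nat_lit 19519284), (nat_lit 13318063)] (nat_lit 5344356)) p12_11_3 (nat_lit 4) (nat_lit 60) (nat_lit 61) = true := by decide +kernel
def p12_11_3_61 : pfC (piC [(nat_lit 41351667), (nat_lit 26310893), (nat_lit 19519284), (nat_lit 13318063)] (nat_lit 5344356)) p12_11_3 (nat_lit 4) (nat_lit 61) (nat_lit 62) = true := by decide +kernel
def p12_11_3_62 : pfC (piC [(nat_lit 41351667), (nat_lit 26310893), (nat_lit 19519284), (nat_lit 13318063)] (nat_lit 5344356)) p12_11_3 (nat_lit 4) (nat_lit 62) (nat_lit 63) = true := by decide +kernel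
def p12_11_3_63 : pfC (piC [(nat_lit 41351667), (nat_lit 26310893), (nat_lit 19519284), (nat_lit 13318063)] (nat_lit 5344356)) p12_11_3 (nat_lit 4) (nat_lit 63) (nat_lit 64) = true := by decide +kernel
def p12_11_3_64 : pfC (piC [(nat_lit 41351667), (nat_lit 26310893), (nat_lit 19519284), (nat_lit 13318063)] (nat_lit 5344356)) p12_11_3 (nat_lit 4) (nat_lit 64) (nat_lit 65) = true := by decide +kernel
def p12_11_3_65 : pfC (piC [(nat_lit 41351667), (nat_lit 26310893), (nat_lit 19519284), (nat_lit 13318063)] (nat_lit 5344356)) p12_11_3 (nat_lit 4) (nat_lit 65) (nat_lit 66) = true := by decide +kernel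
def p12_11_3_66 : pfC (piC [(nat_lit 41351667), (nat_lit 26310893), (nat_lit 19519284), (nat_lit 13318063)] (nat_lit 5344356)) p12_11_3 (nat_lit 4) (nat_lit 66) (nat_lit 67) = true := by decide +kernel
def p12_11_3_67 : pfC (piC [(nat_lit 41351667), (nat_lit 26310893), (nat_lit 19519284), (nat_lit 13318063)] (nat_lit 5344356)) p12_11_3 (nat_lit 4) (nat_lit 67) (nat_lit 68) = true := by decide +kernel
def p12_11_3_68 : pfC (piC [(nat_lit 41351667), (nat_lit 26310893), (nat_lit 19519284), (nat_lit 13318063)] (nat_lit 5344356)) p12_11_3 (nat_lit 4) (nat_lit 68) (nat_lit 69) = true := by decide +kernel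
def p12_11_3_69 : pfC (piC [(nat_lit 41351667), (nat_lit 26310893), (nat_lit 19519284), (nat_lit 13318063)] (nat_lit 5344356)) p12_11_3 (nat_lit 4) (nat_lit 69) (nat_lit 70) = true := by decide +kernel
def p12_11_3_70 : pfC (piC [(nat_lit 41351667), (nat_lit 26310893), (nat_lit 19519284), (nat_lit 13318063)] (nat_lit 5344356)) p12_11_3 (nat_lit 4) (nat_lit 70) (nat_lit 71) = true := by decide +kernel
def p12_11_3_71 : pfC (piC [(nat_lit 41351667), (nat_lit 26310893), (nat_lit 19519284), (nat_lit 13318063)] (nat_lit 5344356)) p12_11_3 (nat_lit 4) (nat_lit 71) (nat_lit 72) = true := by decide +kernel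
def p12_11_3_72 : pfC (piC [(nat_lit 41351667), (nat_lit 26310893), (nat_lit 19519284), (nat_lit 13318063)] (nat_lit 5344356)) p12_11_3 (nat_lit 4) (nat_lit 72) (nat_lit 73) = true := by decide +kernel
def p12_11_3_73 : pfC (piC [(nat_lit 41351667), (nat_lit 26310893), (nat_lit 19519284), (nat_lit 13318063)] (nat_lit 5344356)) p12_11_3 (nat_lit 4) (nat_lit 73) (nat_lit 74) = true := by decide +kernel
def p12_11_3_74 : pfC (piC [(nat_lit 41351667), (nat_lit 26310893), (nat_lit 19519284), (nat_lit 13318063)] (nat_lit 5344356)) p12_11_3 (nat_lit 4) (nat_lit 74) (nat_lit 75) = true := by decide +kernel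
def p12_11_3_75 : pfC (piC [(nat_lit 41351667), (nat_lit 26310893), (nat_lit 19519284), (nat_lit 13318063)] (nat_lit 5344356)) p12_11_3 (nat_lit 4) (nat_lit 75) (nat_lit 76) = true := by decide +kernel
def p12_11_3_76 : pfC (piC [(nat_lit 41351667), (nat_lit 26310893), (nat_lit 19519284), (nat_lit 13318063)] (nat_lit 5344356)) p12_11_3 (nat_lit 4) (nat_lit 76) (nat_lit 77) = true := by decide +kernel
def p12_11_3_77 : pfC (piC [(nat_lit 41351667), (nat_lit 26310893), (nat_lit 19519284), (nat_lit 13318063)] (nat_lit 5344356)) p12_11_3 (nat_lit 4) (nat_lit 77) (nat_lit 78) = true := by decide +kernel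
def p12_11_3_78 : pfC (piC [(nat_lit 41351667), (nat_lit 26310893), (nat_lit 19519284), (nat_lit 13318063)] (nat_lit 5344356)) p12_11_3 (nat_lit 4) (nat_lit 78) (nat_lit 79) = true := by decide +kernel
def p12_11_3_79 : pfC (piC [(nat_lit 41351667), (nat_lit 26310893), (nat_lit 19519284), (nat_lit 13318063)] (nat_lit 5344356)) p12_11_3 (nat_lit 4) (nat_lit 79) (nat_lit 80) = true := by decide +kernel
def p12_11_3_80 : pfC (piC [(nat_lit 41351667), (nat_lit 26310893), (nat_lit 19519284), (nat_lit 13318063)] (nat_lit 5344356)) p12_11_3 (nat_lit 4) (nat_lit 80) (nat_lit 81) = true := by decide +kernel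
def p12_11_3_81 : pfC (piC [(nat_lit 41351667), (nat_lit 26310893), (nat_lit 19519284), (nat_lit 13318063)] (nat_lit 5344356)) p12_11_3 (nat_lit 4) (nat_lit 81) (nat_lit 82) = true := by decide +kernel
def p12_11_3_82 : pfC (piC [(nat_lit 41351667), (nat_lit 26310893), (nat_lit 19519284), (nat_lit 13318063)] (nat_lit 5344356)) p12_11_3 (nat_lit 4) (nat_lit 82) (nat_lit 83) = true := by decide +kernel
def p12_11_3_83 : pfC (piC [(nat_lit 41351667), (nat_lit 26310893), (nat_lit 19519284), (nat_lit 13318063)] (nat_lit 5344356)) p12_11_3 (nat_lit 4) (nat_lit 83) (nat_lit 84) = true := by decide +kernel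
def p12_11_3_84 : pfC (piC [(nat_lit 41351667), (nat_lit 26310893), (nat_lit 19519284), (nat_lit 13318063)] (nat_lit 5344356)) p12_11_3 (nat_lit 4) (nat_lit 84) (nat_lit 85) = true := by decide +kernel
def p12_11_3_85 : pfC (piC [(nat_lit 41351667), (nat_lit 26310893), (nat_lit 19519284), (nat_lit 13318063)] (nat_lit 5344356)) p12_11_3 (nat_lit 4) (nat_lit 85) (nat_lit 86) = true := by decide +kernel
def p12_11_3_86 : pfC (piC [(nat_lit 41351667), (nat_lit 26310893), (nat_lit 19519284), (nat_lit 13318063)] (nat_lit 5344356)) p12_11_3 (nat_lit 4) (nat_lit 86) (nat_lit 87) = true := by decide +kernel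
def p12_11_3_87 : pfC (piC [(nat_lit 41351667), (nat_lit 26310893), (nat_lit 19519284), (nat_lit 13318063)] (nat_lit 5344356)) p12_11_3 (nat_lit 4) (nat_lit 87) (nat_lit 88) = true := by decide +kernel
def p12_11_3_88 : pfC (piC [(nat_lit 41351667), (nat_lit 26310893), (nat_lit 19519284), (nat_lit 13318063)] (nat_lit 5344356)) p12_11_3 (nat_lit 4) (nat_lit 88) (nat_lit 89) = true := by decide +kernel
def p12_11_3_89 : pfC (piC [(nat_lit 41351667), (nat_lit 26310893), (nat_lit 19519284), (nat_lit 13318063)] (nat_lit 5344356)) p12_11_3 (nat_lit 4) (nat_lit 89) (nat_lit 90) = true := by decide +kernel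
def p12_11_3_90 : pfC (piC [(nat_lit 41351667), (nat_lit 26310893), (nat_lit 19519284), (nat_lit 13318063)] (nat_lit 5344356)) p12_11_3 (nat_lit 4) (nat_lit 90) (nat_lit 91) = true := by decide +kernel
def p12_11_3_91 : pfC (piC [(nat_lit 41351667), (nat_lit 26310893), (nat_lit 19519284), (nat_lit 13318063)] (nat_lit 5344356)) p12_11_3 (nat_lit 4) (nat_lit 91) (nat_lit 92) = true := by decide +kernel
def p12_11_3_92 : pfC (piC [(nat_lit 41351667), (nat_lit 26310893), (nat_lit 19519284), (nat_lit 13318063)] (nat_lit 5344356)) p12_11_3 (nat_lit 4) (nat_lit 92) (nat_lit 93) = true := by decide +kernel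
def p12_11_3_93 : pfC (piC [(nat_lit 41351667), (nat_lit 26310893), (nat_lit 19519284), (nat_lit 13318063)] (nat_lit 5344356)) p12_11_3 (nat_lit 4) (nat_lit 93) (nat_lit 94) = true := by decide +kernel
def p12_11_3_94 : pfC (piC [(nat_lit 41351667), (nat_lit 26310893), (nat_lit 19519284), (nat_lit 13318063)] (nat_lit 5344356)) p12_11_3 (nat_lit 4) (nat_lit 94) (nat_lit 95) = true := by decide +kernel
def p12_11_3_95 : pfC (piC [(nat_lit 41351667), (nat_lit 26310893), (nat_lit 19519284), (nat_lit 13318063)] (nat_lit 5344356)) p12_11_3 (nat_lit 4) (nat_lit 95) (nat_lit 96) = true := by decide +kernel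
def p12_11_3_96 : pfC (piC [(nat_lit 41351667), (nat_lit 26310893), (nat_lit 19519284), (nat_lit 13318063)] (nat_lit 5344356)) p12_11_3 (nat_lit 4) (nat_lit 96) (nat_lit 97) = true := by decide +kernel
def p12_11_3_97 : pfC (piC [(nat_lit 41351667), (nat_lit 26310893), (nat_lit 19519284), (nat_lit 13318063)] (nat_lit 5344356)) p12_11_3 (nat_lit 4) (nat_lit 97) (nat_lit 98) = true := by decide +kernel
def p12_11_3_98 : pfC (piC [(nat_lit 41351667), (nat_lit 26310893), (nat_lit 19519284), (nat_lit 13318063)] (nat_lit 5344356)) p12_11_3 (nat_lit 4) (nat_lit 98) (nat_lit 99) = true := by decide +kernel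
def p12_11_3_99 : pfC (piC [(nat_lit 41351667), (nat_lit 26310893), (nat_lit 19519284), (nat_lit 13318063)] (nat_lit 5344356)) p12_11_3 (nat_lit 4) (nat_lit 99) (nat_lit 100) = true := by decide +kernel
def p12_11_3_100 : pfC (piC [(nat_lit 41351667), (nat_lit 26310893), (nat_lit 19519284), (nat_lit 13318063)] (nat_lit 5344356)) p12_11_3 (nat_lit 4) (nat_lit 100) (nat_lit 101) = true := by decide +kernel
def p12_11_3_101 : pfC (piC [(nat_lit 41351667), (nat_lit 26310893), (nat_lit 19519284), (nat_lit 13318063)] (nat_lit 5344356)) p12_11_3 (nat_lit 4) (nat_lit 101) (nat_lit 102) = true := by decide +kernel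
def p12_11_3_102 : pfC (piC [(nat_lit 41351667), (nat_lit 26310893), (nat_lit 19519284), (nat_lit 13318063)] (nat_lit 5344356)) p12_11_3 (nat_lit 4) (nat_lit 102) (nat_lit 103) = true := by decide +kernel
def p12_11_3_103 : pfC (piC [(nat_lit 41351667), (nat_lit 26310893), (nat_lit 19519284), (nat_lit 13318063)] (nat_lit 5344356)) p12_11_3 (nat_lit 4) (nat_lit 103) (nat_lit 104) = true := by decide +kernel
def p12_11_3_104 : pfC (piC [(nat_lit 41351667), (nat_lit 26310893), (nat_lit 19519284), (nat_lit 13318063)] (nat_lit 5344356)) p12_11_3 (nat_lit 4) (nat_lit 104) (nat_lit 105) = true := by decide +kernel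
def p12_11_3_105 : pfC (piC [(nat_lit 41351667), (nat_lit 26310893), (nat_lit 19519284), (nat_lit 13318063)] (nat_lit 5344356)) p12_11_3 (nat_lit 4) (nat_lit 105) (nat_lit 106) = true := by decide +kernel
def p12_11_3_106 : pfC (piC [(nat_lit 41351667), (nat_lit 26310893), (nat_lit 19519284), (nat_lit 13318063)] (nat_lit 5344356)) p12_11_3 (nat_lit 4) (nat_lit 106) (nat_lit 107) = true := by decide +kernel
def p12_11_3_107 : pfC (piC [(nat_lit 41351667), (nat_lit 26310893), (nat_lit 19519284), (nat_lit 13318063)] (nat_lit 5344356)) p12_11_3 (nat_lit 4) (nat_lit 107) (nat_lit 108) = true := by decide +kernel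
def p12_11_3_108 : pfC (piC [(nat_lit 41351667), (nat_lit 26310893), (nat_lit 19519284), (nat_lit 13318063)] (nat_lit 5344356)) p12_11_3 (nat_lit 4) (nat_lit 108) (nat_lit 109) = true := by decide +kernel
def p12_11_3_109 : pfC (piC [(nat_lit 41351667), (nat_lit 26310893), (nat_lit 19519284), (nat_lit 13318063)] (nat_lit 5344356)) p12_11_3 (nat_lit 4) (nat_lit 109) (nat_lit 110) = true := by decide +kernel
def p12_11_3_110 : pfC (piC [(nat_lit 41351667), (nat_lit 26310893), (nat_lit 19519284), (nat_lit 13318063)] (nat_lit 5344356)) p12_11_3 (nat_lit 4) (nat_lit 110) (nat_lit 111) = true := by decide +kernel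
def p12_11_3_111 : pfC (piC [(nat_lit 41351667), (nat_lit 26310893), (nat_lit 19519284), (nat_lit 13318063)] (nat_lit 5344356)) p12_11_3 (nat_lit 4) (nat_lit 111) (nat_lit 112) = true := by decide +kernel
def p12_11_3_112 : pfC (piC [(nat_lit 41351667), (nat_lit 26310893), (nat_lit 19519284), (nat_lit 13318063)] (nat_lit 5344356)) p12_11_3 (nat_lit 4) (nat_lit 112) (nat_lit 113) = true := by decide +kernel
def p12_11_3_113 : pfC (piC [(nat_lit 41351667), (nat_lit 26310893), (nat_lit 19519284), (nat_lit 13318063)] (nat_lit 5344356)) p12_11_3 (nat_lit 4) (nat_lit 113) (nat_lit 114) = true := by decide +kernel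
def p12_11_3_114 : pfC (piC [(nat_lit 41351667), (nat_lit 26310893), (nat_lit 19519284), (nat_lit 13318063)] (nat_lit 5344356)) p12_11_3 (nat_lit 4) (nat_lit 114) (nat_lit 115) = true := by decide +kernel
def p12_11_3_115 : pfC (piC [(nat_lit 41351667), (nat_lit 26310893), (nat_lit 19519284), (nat_lit 13318063)] (nat_lit 5344356)) p12_11_3 (nat_lit 4) (nat_lit 115) (nat_lit 116) = true := by decide +kernel
def p12_11_3_116 : pfC (piC [(nat_lit 41351667), (nat_lit 26310893), (nat_lit 19519284), (nat_lit 13318063)] (nat_lit 5344356)) p12_11_3 (nat_lit 4) (nat_lit 116) (nat_lit 117) = true := by decide +kernel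
def p12_11_3_117 : pfC (piC [(nat_lit 41351667), (nat_lit 26310893), (nat_lit 19519284), (nat_lit 13318063)] (nat_lit 5344356)) p12_11_3 (nat_lit 4) (nat_lit 117) (nat_lit 118) = true := by decide +kernel
def p12_11_3_118 : pfC (piC [(nat_lit 41351667), (nat_lit 26310893), (nat_lit 19519284), (nat_lit 13318063)] (nat_lit 5344356)) p12_11_3 (nat_lit 4) (nat_lit 118) (nat_lit 119) = true := by decide +kernel
def p12_11_3_119 : pfC (piC [(nat_lit 41351667), (nat_lit 26310893), (nat_lit 19519284), (nat_lit 13318063)] (nat_lit 5344356)) p12_11_3 (nat_lit 4) (nat_lit 119) (nat_lit 120) = true := by decide +kernel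
def p12_11_3_120 : pfC (piC [(nat_lit 41351667), (nat_lit 26310893), (nat_lit 19519284), (nat_lit 13318063)] (nat_lit 5344356)) p12_11_3 (nat_lit 4) (nat_lit 120) (nat_lit 121) = true := by decide +kernel
def p12_11_3_121 : pfC (piC [(nat_lit 41351667), (nat_lit 26310893), (nat_lit 19519284), (nat_lit 13318063)] (nat_lit 5344356)) p12_11_3 (nat_lit 4) (nat_lit 121) (nat_lit 122) = true := by decide +kernel
def p12_11_3_122 : pfC (piC [(nat_lit 41351667), (nat_lit 26310893), (nat_lit 19519284), (nat_lit 13318063)] (nat_lit 5344356)) p12_11_3 (nat_lit 4) (nat_lit 122) (nat_lit 123) = true := by decide +kernel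
def p12_11_3_123 : pfC (piC [(nat_lit 41351667), (nat_lit 26310893), (nat_lit 19519284), (nat_lit 13318063)] (nat_lit 5344356)) p12_11_3 (nat_lit 4) (nat_lit 123) (nat_lit 124) = true := by decide +kernel
def p12_11_3_124 : pfC (piC [(nat_lit 41351667), (nat_lit 26310893), (nat_lit 19519284), (nat_lit 13318063)] (nat_lit 5344356)) p12_11_3 (nat_lit 4) (nat_lit 124) (nat_lit 125) = true := by decide +kernel
def p12_11_3_125 : pfC (piC [(nat_lit 41351667), (nat_lit 26310893), (nat_lit 19519284), (nat_lit 13318063)] (nat_lit 5344356)) p12_11_3 (nat_lit 4) (nat_lit 125) (nat_lit 126) = true := by decide +kernel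
def p12_11_3_126 : pfC (piC [(nat_lit 41351667), (nat_lit 26310893), (nat_lit 19519284), (nat_lit 13318063)] (nat_lit 5344356)) p12_11_3 (nat_lit 4) (nat_lit 126) (nat_lit 127) = true := by decide +kernel
theorem p12_11_3_T : PfS (PiF n12_11.reverse (nat_lit 5344356)) p12_11_3 (nat_lit 4) [] 0 :=
  pftab_of (los := [(nat_lit 41351667), (nat_lit 26310893), (nat_lit 19519284), (nat_lit 13318063)]) (by decide +kernel) (hi := (nat_lit 127)) (PfP.trans (PfP.trans (PfP.trans (PfP.trans (PfP.trans (PfP.trans (PfP.trans (PfP.trans (PfP.trans (PfP.trans (PfP.trans (PfP.trans (PfP.trans (PfP.trans (PfP.trans (PfP.trans (PfP.trans (PfP.trans (PfP.trans (PfP.trans (PfP.trans (PfP.trans (PfP.trans (PfP.trans (PfP.trans (PfP.trans (PfP.trans (PfP.trans (PfP.trans (PfP.trans (PfP.trans (PfP.trans (PfP.trans (PfP.trans (PfP.trans (PfP.trans (PfP.trans (PfP.trans (PfP.trans (PfP.trans (PfP.trans (PfP.trans (PfP.trans (PfP.trans (PfP.trans (PfP.trans (PfP.trans (PfP.trans (PfP.trans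 (PfP.trans (PfP.trans (PfP.trans (PfP.trans (PfP.trans (PfP.trans (PfP.trans (PfP.trans (PfP.trans (PfP.trans (PfP.trans (PfP.trans (PfP.trans (PfP.trans (PfP.trans (PfP.trans (PfP.trans (PfP.trans (PfP.trans (PfP.trans (PfP.trans (PfP.trans (PfP.trans (PfP.trans (PfP.trans (PfP.trans (PfP.trans (PfP.trans (PfP.trans (PfP.trans (PfP.trans (PfP.trans (PfP.trans (PfP.trans (PfP.trans (PfP.trans (PfP.trans (PfP.trans (PfP.trans (PfP.trans (PfP.trans (PfP.trans (PfP.trans (PfP.trans (PfP.trans (PfP.trans (PfP.trans (PfP.trans (PfP.trans (PfP.trans (PfP.trans (PfP.trans (PfP.trans (PfP.trans (PfP.trans (PfP.trans (PfP.trans (PfP.trans (PfP.trans (PfP.trans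
 (PfP.trans (PfP.trans (PfP.trans (PfP.trans (PfP.trans (PfP.trans (PfP.trans (PfP.trans (PfP.trans (PfP.trans (PfP.trans (PfP.trans (PfP.trans (PfP.trans (PfP.trans (PfP.trans (PfP.trans (pfC_sound p12_11_3_0) (pfC_sound p12_11_3_1)) (pfC_sound p12_11_3_2)) (pfC_sound p12_11_3_3)) (pfC_sound p12_11_3_4)) (pfC_sound p12_11_3_5)) (pfC_sound p12_11_3_6)) (pfC_sound p12_11_3_7)) (pfC_sound p12_11_3_8)) (pfC_sound p12_11_3_9)) (pfC_sound p12_11_3_10)) (pfC_sound p12_11_3_11)) (pfC_sound p12_11_3_12)) (pfC_sound p12_11_3_13)) (pfC_sound p12_11_3_14)) (pfC_sound p12_11_3_15)) (pfC_sound p12_11_3_16)) (pfC_sound p12_11_3_17)) (pfC_sound p12_11_3_18)) (pfC_sound p12_11_3_19)) (pfC_sound p12_11_3_20)) (pfC_sound p12_11_3_21)) (pfC_sound p12_11_3_22)) (pfC_sound p12_11_3_23)) (pfC_sound p12_11_3_24)) (pfC_sound p12_11_3_25)) (pfC_sound p12_11_3_26)) (pfC_sound p12_11_3_27)) (pfC_sound p12_11_3_28)) (pfC_sound p12_11_3_29)) (pfC_sound p12_11_3_30)) (pfC_sound p12_11_3_31))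 (pfC_sound p12_11_3_32)) (pfC_sound p12_11_3_33)) (pfC_sound p12_11_3_34)) (pfC_sound p12_11_3_35)) (pfC_sound p12_11_3_36)) (pfC_sound p12_11_3_37)) (pfC_sound p12_11_3_38)) (pfC_sound p12_11_3_39)) (pfC_sound
 p12_11_3_40)) (pfC_sound p12_11_3_41)) (pfC_sound p12_11_3_42)) (pfC_sound p12_11_3_43)) (pfC_sound p12_11_3_44)) (pfC_sound p12_11_3_45)) (pfC_sound p12_11_3_46)) (pfC_sound p12_11_3_47)) (pfC_sound p12_11_3_48)) (pfC_sound p12_11_3_49)) (pfC_sound p12_11_3_50)) (pfC_sound p12_11_3_51)) (pfC_sound p12_11_3_52)) (pfC_sound p12_11_3_53)) (pfC_sound p12_11_3_54)) (pfC_sound p12_11_3_55)) (pfC_sound p12_11_3_56)) (pfC_sound p12_11_3_57)) (pfC_sound p12_11_3_58)) (pfC_sound p12_11_3_59)) (pfC_sound p12_11_3_60)) (pfC_sound p12_11_3_61)) (pfC_sound p12_11_3_62)) (pfC_sound p12_11_3_63)) (pfC_sound p12_11_3_64)) (pfC_sound p12_11_3_65)) (pfC_sound p12_11_3_66)) (pfC_sound p12_11_3_67)) (pfC_sound p12_11_3_68)) (pfC_sound p12_11_3_69)) (pfC_sound p12_11_3_70))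 (pfC_sound p12_11_3_71)) (pfC_sound p12_11_3_72)) (pfC_sound p12_11_3_73)) (pfC_sound p12_11_3_74)) (pfC_sound p12_11_3_75)) (pfC_sound p12_11_3_76)) (pfC_sound p12_11_3_77)) (pfC_sound p12_11_3_78)) (pfC_sound p12_11_3_79)) (pfC_sound p12_11_3_80)) (pfC_sound p12_11_3_81)) (pfC_sound p12_11_3_82)) (pfC_sound p12_11_3_83)) (pfC_sound p12_11_3_84)) (pfC_sound p12_11_3_85)) (pfC_sound p12_11_3_86)) (pfC_sound p12_11_3_87)) (pfC_sound
 p12_11_3_88)) (pfC_sound p12_11_3_89)) (pfC_sound p12_11_3_90)) (pfC_sound p12_11_3_91)) (pfC_sound p12_11_3_92)) (pfC_sound p12_11_3_93)) (pfC_sound p12_11_3_94)) (pfC_sound p12_11_3_95)) (pfC_sound p12_11_3_96)) (pfC_sound p12_11_3_97)) (pfC_sound p12_11_3_98)) (pfC_sound p12_11_3_99)) (pfC_sound p12_11_3_100)) (pfC_sound p12_11_3_101)) (pfC_sound p12_11_3_102)) (pfC_sound p12_11_3_103)) (pfC_sound p12_11_3_104)) (pfC_sound p12_11_3_105)) (pfC_sound p12_11_3_106)) (pfC_sound p12_11_3_107)) (pfC_sound p12_11_3_108)) (pfC_sound p12_11_3_109))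 (pfC_sound p12_11_3_110)) (pfC_sound p12_11_3_111)) (pfC_sound p12_11_3_112)) (pfC_sound p12_11_3_113)) (pfC_sound p12_11_3_114)) (pfC_sound p12_11_3_115)) (pfC_sound p12_11_3_116)) (pfC_sound p12_11_3_117)) (pfC_sound p12_11_3_118)) (pfC_sound p12_11_3_119)) (pfC_sound p12_11_3_120)) (pfC_sound p12_11_3_121)) (pfC_sound p12_11_3_122)) (pfC_sound p12_11_3_123)) (pfC_sound p12_11_3_124)) (pfC_sound p12_11_3_125)) (pfC_sound p12_11_3_126)) (by decide +kernel)

def z12_11_3 : zOK yB12_11 (nat_lit 3) (nat_lit 750) (nat_lit 867) (nat_lit 5344356) (nat_lit 4431671) = true := by decide +kernel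
def g12_11_3 : gOK yB12_11.x P12_11 (nat_lit 1422) (q12_11 :: r12_11) (nat_lit 3) (nat_lit 750) (nat_lit 4) (nat_lit 867) (nat_lit 12712500) (nat_lit 12712500) (nat_lit 12712500) (nat_lit 12712500) [(nat_lit 800)] = true := by decide +kernel
def v12_11_3 : ivC P12_11 s12_11 w12_11 n12_11 (nat_lit 4) (nat_lit 4690) (nat_lit 3) (nat_lit 750) f152_1_750 f160_1_750 (nat_lit 4) (nat_lit 867) f152_1_867 f160_1_867 (nat_lit 5344356) (nat_lit 4431671) p12_11_3 = true := by decide +kernel
end CB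
end Pool.Agent.Lib.MP_6947cd_al
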