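import Pool.Agent.Lib.MP_6947cd_al.L.BoxDataB
import Pool.Agent.Lib.MP_6947cd_al.L.TeD1

/-!
Problem MP_6947cd_al (Chollet).  CASE B, rows `j`: boxes (generated).
-/

set_option autoImplicit false
set_option linter.defProp false
set_option maxRecDepth 20000

namespace Pool.Agent.Lib.MP_6947cd_al
namespace CB

open Ent Ent.Pk Fr Fr.WT CA

/-! box `yB13_18` -/

def P13_18 : BQ := ⟨(nat_lit 8), (nat_lit 4), (nat_lit 4), (nat_lit 0), (nat_lit 8), (nat_lit 900), (nat_lit 920), (nat_lit 90), [(nat_lit 180), (nat_lit 330), (nat_lit 650)], (nat_lit 139360000), (nat_lit 16000000), (nat_lit 16000000000)⟩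
def q13_18 : PC := ⟨(nat_lit 1000), [(nat_lit 90000), (nat_lit 180000), (nat_lit 330000), (nat_lit 650000)], (nat_lit 79228162532711081671548469249000000), (nat_lit 15860640000000), (nat_lit 15860640000000), (nat_lit 10000000)⟩
def r13_18 : List PC := [⟨(nat_lit 1357), [(nat_lit 90564), (nat_lit 180839), (nat_lit 331480), (nat_lit 651845)], (nat_lit 79641337400335569117941611864476464), (nat_lit 16377029781120), (nat_lit 16388992194240), (nat_lit 10062667)⟩]
def s13_18 : List PB := [⟨(nat_lit 27140), (nat_lit 1449024000000), [(nat_lit 180839), (nat_lit 331480), (nat_lit 651845)], (nat_lit 79641337400335569117941611864476464), (nat_lit 1142276936623744), (nat_lit 1142288899036864), (nat_lit 57120)⟩]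
def n13_18 : List KN := [⟨(nat_lit 650), (nat_lit 330), (nat_lit 15702173), (nat_lit 7360548)⟩, ⟨(nat_lit 330), (nat_lit 180), (nat_lit 24534081), (nat_lit 15702173)⟩, ⟨(nat_lit 180), (nat_lit 90), (nat_lit 38632330), (nat_lit 24534081)⟩]
def w13_18 : List ℕ := [(nat_lit 57120)]
def par13_18 : parC yB13_18 P13_18 s13_18 r13_18 q13_18 n13_18 w13_18 = true := by decide +kernel

def p13_18_0 : PF := (PF.cons (PF.cons (PF.cons (PF.leaf (nat_lit 821725) (nat_lit 2608768) (nat_lit 64500044) (nat_lit 2608768) [(nat_lit 0), (nat_lit 0), (nat_lit 0)]) (PF.cons (PF.leaf (nat_lit 981979) (nat_lit 257261) (nat_lit 64178609) (nat_lit 2672941) [(nat_lit 257261), (nat_lit 0), (nat_lit 0)]) (PF.cons (PF.leaf (nat_lit 1175878) (nat_lit 284365) (nat_lit 63796610) (nat_lit 2743470) [(nat_lit 284365), (nat_lit 0), (nat_lit 0)]) (PF.cons (PF.leaf (nat_lit 1397917) (nat_lit 309693) (nat_lit 63362492) (nat_lit 2817239) [(nat_lit 309693), (nat_lit 0), (nat_lit 0)]) (PF.cons (PF.leaf (nat_lit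 1645378) (nat_lit 333591) (nat_lit 62882328) (nat_lit 2892119) [(nat_lit 333591), (nat_lit 0), (nat_lit 0)]) (PF.cons (PF.leaf (nat_lit 1916033) (nat_lit 356239) (nat_lit 62361015) (nat_lit 2966602) [(nat_lit 356239), (nat_lit 0), (nat_lit 0)]) (PF.cons (PF.leaf (nat_lit 2207899) (nat_lit 377738) (nat_lit 61802792) (nat_lit 3039590) [(nat_lit 377738), (nat_lit 0), (nat_lit 0)]) (PF.cons (PF.leaf (nat_lit 2519172) (nat_lit 398147) (nat_lit 61211496) (nat_lit 3110286) [(nat_lit 398147), (nat_lit 0), (nat_lit 0)]) (PF.cons (PF.leaf (nat_lit 2848109) (nat_lit 417502) (nat_lit 60590691) (nat_lit 3178103) [(nat_lit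
 417502), (nat_lit 0), (nat_lit 0)]) (PF.cons (PF.leaf (nat_lit 3193137) (nat_lit 435829) (nat_lit 59943729) (nat_lit 3242622) [(nat_lit 435829), (nat_lit 0), (nat_lit 0)]) (PF.cons (PF.leaf (nat_lit 3552589) (nat_lit 453148) (nat_lit 59273787) (nat_lit 3303545) [(nat_lit 453148), (nat_lit 0), (nat_lit 0)]) (PF.cons (PF.leaf (nat_lit 3924955) (nat_lit 469477) (nat_lit 58583882) (nat_lit 3360675) [(nat_lit 469477), (nat_lit 0), (nat_lit 0)]) (PF.cons (PF.leaf (nat_lit 4308765) (nat_lit 484836) (nat_lit 57876878) (nat_lit 3413891) [(nat_lit 484836), (nat_lit 0), (nat_lit 0)]) (PF.cons (PF.leaf (nat_lit 4702601) (nat_lit 499245) (nat_lit 57155487) (nat_lit 3463134) [(nat_lit 499245), (nat_lit 0), (nat_lit 0)]) (PF.cons (PF.leaf (nat_lit 5105180) (nat_lit 512725) (nat_lit 56422266) (nat_lit 3508395) [(nat_lit 512725), (nat_lit 0), (nat_lit 0)]) (PF.cons (PF.leaf (nat_lit 5515134) (nat_lit 525299) (nat_lit 55679620) (nat_lit 3549705) [(nat_lit 525299), (nat_lit 0), (nat_lit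 0)]) (PF.cons PF.nil (PF.cons PF.nil (PF.cons PF.nil (PF.cons PF.nil PF.nil)))))))))))))))))))) (PF.cons (PF.cons (PF.leaf (nat_lit 1508963) (nat_lit 1565520) (nat_lit 62641741) (nat_lit 2901550) [(nat_lit 0),
 (nat_lit 1565520), (nat_lit 0)]) (PF.cons (PF.leaf (nat_lit 1733554) (nat_lit 336376) (nat_lit 62191539) (nat_lit 2964900) [(nat_lit 336376), (nat_lit 1615997), (nat_lit 0)]) (PF.cons (PF.leaf (nat_lit 1985260) (nat_lit 359152) (nat_lit 61693751) (nat_lit 3029726) [(nat_lit 359152), (nat_lit 1667029), (nat_lit 0)]) (PF.cons (PF.leaf (nat_lit 2260163) (nat_lit 380552) (nat_lit 61155187) (nat_lit 3094433) [(nat_lit 380552), (nat_lit 1717535), (nat_lit 0)]) (PF.cons (PF.leaf (nat_lit 2555753) (nat_lit 400737) (nat_lit 60581143) (nat_lit 3157911) [(nat_lit 400737), (nat_lit 1766810), (nat_lit 0)]) (PF.cons (PF.leaf (nat_lit 2870021) (nat_lit 419800) (nat_lit 59976063) (nat_lit 3219367) [(nat_lit 419800), (nat_lit 1814378), (nat_lit 0)]) (PF.cons (PF.leaf (nat_lit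 3201043) (nat_lit 437801) (nat_lit 59343853) (nat_lit 3278233) [(nat_lit 437801), (nat_lit 1859917), (nat_lit 0)]) (PF.cons (PF.leaf (nat_lit 3547113) (nat_lit 454779) (nat_lit 58688044) (nat_lit 3334105) [(nat_lit 454779), (nat_lit 1903204), (nat_lit 0)]) (PF.cons (PF.leaf (nat_lit 3906623) (nat_lit 470767) (nat_lit 58011879) (nat_lit 3386701) [(nat_lit 470767), (nat_lit 1944095), (nat_lit 0)]) (PF.cons (PF.leaf (nat_lit
 4278039) (nat_lit 485790) (nat_lit 57318367) (nat_lit 3435835) [(nat_lit 485790), (nat_lit 1982498), (nat_lit 0)]) (PF.cons (PF.leaf (nat_lit 4659912) (nat_lit 499874) (nat_lit 56610306) (nat_lit 3481395) [(nat_lit 499874), (nat_lit 2018369), (nat_lit 0)]) (PF.cons (PF.leaf (nat_lit 5050913) (nat_lit 513043) (nat_lit 55890307) (nat_lit 3523328) [(nat_lit 513043), (nat_lit 2051692), (nat_lit 0)]) (PF.cons (PF.leaf (nat_lit 5449720) (nat_lit 525325) (nat_lit 55160800) (nat_lit 3561629) [(nat_lit 525325), (nat_lit 2082483), (nat_lit 0)]) (PF.cons (PF.leaf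 (nat_lit 5855139) (nat_lit 536743) (nat_lit 54424041) (nat_lit 3596328) [(nat_lit 536743), (nat_lit 2110774), (nat_lit 0)]) (PF.cons PF.nil (PF.cons PF.nil (PF.cons PF.nil (PF.cons PF.nil PF.nil)))))))))))))))))) (PF.cons (PF.cons (PF.leaf (nat_lit 2331823) (nat_lit 1752977) (nat_lit 60453072) (nat_lit 3149786) [(nat_lit 0), (nat_lit 1752977), (nat_lit 0)]) (PF.cons (PF.leaf (nat_lit 2606705) (nat_lit 401590) (nat_lit 59907837) (nat_lit 3205372) [(nat_lit 401590), (nat_lit 1797006), (nat_lit 0)]) (PF.cons (PF.leaf (nat_lit 2903125) (nat_lit 420706) (nat_lit 59326971) (nat_lit 3260077) [(nat_lit 420706), (nat_lit 1840175), (nat_lit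
 0)]) (PF.cons (PF.leaf (nat_lit 3217918) (nat_lit 438626) (nat_lit 58715980) (nat_lit 3313069) [(nat_lit 438626), (nat_lit 1881941), (nat_lit 0)]) (PF.cons (PF.leaf (nat_lit 3548949) (nat_lit 455447) (nat_lit 58079366) (nat_lit 3363770) [(nat_lit 455447), (nat_lit 1921943), (nat_lit 0)]) (PF.cons (PF.leaf (nat_lit 3894342) (nat_lit 471233) (nat_lit 57420987) (nat_lit 3411778) [(nat_lit 471233), (nat_lit 1959940), (nat_lit 0)]) (PF.cons (PF.leaf (nat_lit 4252408) (nat_lit 486032) (nat_lit 56744250) (nat_lit 3456817) [(nat_lit 486032), (nat_lit 1995776), (nat_lit 0)]) (PF.cons (PF.leaf (nat_lit 4621585) (nat_lit 499882) (nat_lit 56052220) (nat_lit 3498709) [(nat_lit 499882), (nat_lit 2029354), (nat_lit 0)]) (PF.cons (PF.leaf (nat_lit 5000463) (nat_lit 512817) (nat_lit 55347683) (nat_lit 3537346) [(nat_lit 512817), (nat_lit 2060623), (nat_lit 0)]) (PF.cons (PF.leaf (nat_lit 5387671) (nat_lit 524868) (nat_lit 54633186) (nat_lit 3572680) [(nat_lit 524868), (nat_lit 2089566),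 (nat_lit 0)]) (PF.cons (PF.leaf (nat_lit 5781995) (nat_lit 536065) (nat_lit 53911064) (nat_lit 3604706) [(nat_lit 536065), (nat_lit 2116194), (nat_lit 0)]) (PF.cons (PF.leaf (nat_lit 6182234) (nat_lit 546438)
 (nat_lit 53183458) (nat_lit 3633455) [(nat_lit 546438), (nat_lit 2140536), (nat_lit 0)]) (PF.cons PF.nil (PF.cons PF.nil (PF.cons PF.nil (PF.cons PF.nil PF.nil)))))))))))))))) (PF.cons (PF.cons (PF.leaf (nat_lit 3250539) (nat_lit 1904124) (nat_lit 58048663) (nat_lit 3347774) [(nat_lit 0), (nat_lit 1904124), (nat_lit 0)]) (PF.cons (PF.leaf (nat_lit 3562880) (nat_lit 454830) (nat_lit 57439349) (nat_lit 3392975) [(nat_lit 454830), (nat_lit 1940552), (nat_lit 0)]) (PF.cons (PF.leaf (nat_lit 3891860) (nat_lit 470643) (nat_lit 56804859) (nat_lit 3436208) [(nat_lit 470643), (nat_lit 1975485), (nat_lit 0)]) (PF.cons (PF.leaf (nat_lit 4234870) (nat_lit 485388) (nat_lit 56149627) (nat_lit 3477053) [(nat_lit 485388), (nat_lit 2008654), (nat_lit 0)]) (PF.cons (PF.leaf (nat_lit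 4590055) (nat_lit 499136) (nat_lit 55477372) (nat_lit 3515231) [(nat_lit 499136), (nat_lit 2039887), (nat_lit 0)]) (PF.cons (PF.leaf (nat_lit 4955833) (nat_lit 511940) (nat_lit 54791309) (nat_lit 3550563) [(nat_lit 511940), (nat_lit 2069078), (nat_lit 0)]) (PF.cons (PF.leaf (nat_lit 5330681) (nat_lit 523846) (nat_lit 54094280) (nat_lit 3582944) [(nat_lit 523846), (nat_lit 2096170), (nat_lit 0)]) (PF.cons (PF.leaf
 (nat_lit 5713317) (nat_lit 534891) (nat_lit 53388817) (nat_lit 3612325) [(nat_lit 534891), (nat_lit 2121142), (nat_lit 0)]) (PF.cons (PF.leaf (nat_lit 6102471) (nat_lit 545112) (nat_lit 52677202) (nat_lit 3638701) [(nat_lit 545112), (nat_lit 2144001), (nat_lit 0)]) (PF.cons (PF.leaf (nat_lit 6497020) (nat_lit 554543) (nat_lit 51961492) (nat_lit 3662102) [(nat_lit 554543), (nat_lit 2164774), (nat_lit 0)]) (PF.cons (PF.leaf (nat_lit 6895929) (nat_lit 563217) (nat_lit 51243546) (nat_lit 3682582) [(nat_lit 563217), (nat_lit 2183504), (nat_lit 0)]) (PF.cons PF.nil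 (PF.cons PF.nil (PF.cons PF.nil PF.nil)))))))))))))) (PF.cons (PF.cons (PF.leaf (nat_lit 4230460) (nat_lit 2021398) (nat_lit 55526364) (nat_lit 3496855) [(nat_lit 0), (nat_lit 2021398), (nat_lit 0)]) (PF.cons (PF.leaf (nat_lit 4568969) (nat_lit 497411) (nat_lit 54879634) (nat_lit 3531175) [(nat_lit 497411), (nat_lit 2050147), (nat_lit 0)]) (PF.cons (PF.leaf (nat_lit 4919912) (nat_lit 510245) (nat_lit 54216464) (nat_lit 3563128) [(nat_lit 510245), (nat_lit 2077182), (nat_lit 0)]) (PF.cons (PF.leaf (nat_lit 5281111) (nat_lit 522129) (nat_lit 53540369) (nat_lit 3592525) [(nat_lit 522129), (nat_lit 2102382), (nat_lit 0)])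
 (PF.cons (PF.leaf (nat_lit 5651043) (nat_lit 533121) (nat_lit 52854335) (nat_lit 3619259) [(nat_lit 533121), (nat_lit 2125683), (nat_lit 0)]) (PF.cons (PF.leaf (nat_lit 6028323) (nat_lit 543269) (nat_lit 52160953) (nat_lit 3643279) [(nat_lit 543269), (nat_lit 2147058), (nat_lit 0)]) (PF.cons (PF.leaf (nat_lit 6411721) (nat_lit 552616) (nat_lit 51462497) (nat_lit 3664577) [(nat_lit 552616), (nat_lit 2166509), (nat_lit 0)]) (PF.cons (PF.leaf (nat_lit 6800118) (nat_lit 561202) (nat_lit 50760982) (nat_lit 3683179) [(nat_lit 561202), (nat_lit 2184058), (nat_lit 0)]) (PF.cons (PF.leaf (nat_lit 7192495) (nat_lit 569062) (nat_lit 50058201) (nat_lit 3699134) [(nat_lit 569062), (nat_lit 2199744), (nat_lit 0)]) (PF.cons PF.nil (PF.cons PF.nil (PF.cons PF.nil PF.nil)))))))))))) (PF.cons (PF.cons (PF.leaf (nat_lit 5242757) (nat_lit 2108333) (nat_lit 52965580) (nat_lit 3601566) [(nat_lit 0), (nat_lit 2108333), (nat_lit 0)]) (PF.cons (PF.leaf (nat_lit 5597930) (nat_lit 530588) (nat_lit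 52303098) (nat_lit 3625605) [(nat_lit 530588), (nat_lit 2129904), (nat_lit 0)]) (PF.cons (PF.leaf (nat_lit 5962031) (nat_lit 540781) (nat_lit 51631163) (nat_lit 3647253) [(nat_lit 540781), (nat_lit 2149766),
 (nat_lit 0)]) (PF.cons (PF.leaf (nat_lit 6333261) (nat_lit 550138) (nat_lit 50952511) (nat_lit 3666455) [(nat_lit 550138), (nat_lit 2167886), (nat_lit 0)]) (PF.cons (PF.leaf (nat_lit 6710350) (nat_lit 558710) (nat_lit 50269479) (nat_lit 3683198) [(nat_lit 558710), (nat_lit 2184258), (nat_lit 0)]) (PF.cons (PF.leaf (nat_lit 7092170) (nat_lit 566543) (nat_lit 49584088) (nat_lit 3697502) [(nat_lit 566543), (nat_lit 2198900), (nat_lit 0)]) (PF.cons (PF.leaf (nat_lit 7477704) (nat_lit 573677) (nat_lit 48898102) (nat_lit 3709414) [(nat_lit 573677), (nat_lit 2211846), (nat_lit 0)]) (PF.cons PF.nil (PF.cons PF.nil (PF.cons PF.nil PF.nil)))))))))) (PF.cons (PF.cons (PF.leaf (nat_lit 6264597) (nat_lit 2168965) (nat_lit 50427232) (nat_lit 3667789) [(nat_lit 0), (nat_lit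 2168965), (nat_lit 0)]) (PF.cons (PF.leaf (nat_lit 6628772) (nat_lit 555618) (nat_lit 49765664) (nat_lit 3682673) [(nat_lit 555618), (nat_lit 2184142), (nat_lit 0)]) (PF.cons (PF.leaf (nat_lit 6999023) (nat_lit 563512) (nat_lit 49100015) (nat_lit 3695341) [(nat_lit 563512), (nat_lit 2197738), (nat_lit 0)]) (PF.cons (PF.leaf (nat_lit 7373878) (nat_lit 570681) (nat_lit 48432376) (nat_lit 3705808) [(nat_lit 570681), (nat_lit
 2209763), (nat_lit 0)]) (PF.cons (PF.leaf (nat_lit 7752306) (nat_lit 577172) (nat_lit 47764527) (nat_lit 3714114) [(nat_lit 577172), (nat_lit 2220247), (nat_lit 0)]) (PF.cons (PF.leaf (nat_lit 8133386) (nat_lit 583024) (nat_lit 47098004) (nat_lit 3720316) [(nat_lit 583024), (nat_lit 2229227), (nat_lit 0)]) (PF.cons PF.nil (PF.cons PF.nil PF.nil)))))))) (PF.cons (PF.cons (PF.leaf (nat_lit 7278753) (nat_lit 2207389) (nat_lit 47955379) (nat_lit 3701704) [(nat_lit 0), (nat_lit 2207389), (nat_lit 0)]) (PF.cons (PF.leaf (nat_lit 7645974) (nat_lit 573717)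 (nat_lit 47306890) (nat_lit 3708756) [(nat_lit 573717), (nat_lit 2217064), (nat_lit 0)]) (PF.cons (PF.leaf (nat_lit 8017007) (nat_lit 579645) (nat_lit 46658296) (nat_lit 3713858) [(nat_lit 579645), (nat_lit 2225337), (nat_lit 0)]) (PF.cons (PF.leaf (nat_lit 8390664) (nat_lit 584954) (nat_lit 46011162) (nat_lit 3717061) [(nat_lit 584954), (nat_lit 2232246), (nat_lit 0)]) (PF.cons PF.nil (PF.cons PF.nil PF.nil)))))) (PF.cons (PF.cons (PF.leaf (nat_lit 8272840) (nat_lit 2227473) (nat_lit 45579825) (nat_lit 3709202) [(nat_lit 0), (nat_lit 2227473), (nat_lit 0)]) (PF.cons (PF.leaf (nat_lit 8638620) (nat_lit 586020) (nat_lit 44952797)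
 (nat_lit 3709753) [(nat_lit 586020), (nat_lit 2232530), (nat_lit 0)]) (PF.cons (PF.leaf (nat_lit 9006474) (nat_lit 590292) (nat_lit 44328496) (nat_lit 3708647) [(nat_lit 590292), (nat_lit 2236385), (nat_lit 0)]) (PF.cons PF.nil PF.nil)))) (PF.cons (PF.cons (PF.leaf (nat_lit 9238436) (nat_lit 2232691) (nat_lit 43319004) (nat_lit 3695580) [(nat_lit 0), (nat_lit 2232691), (nat_lit 0)]) (PF.cons PF.nil PF.nil)) (PF.cons PF.nil (PF.cons PF.nil (PF.cons PF.nil PF.nil))))))))))))) (PF.cons (PF.cons (PF.cons (PF.leaf (nat_lit 2664806) (nat_lit 3231251) (nat_lit 57441777) (nat_lit 3231251) [(nat_lit 0), (nat_lit 0), (nat_lit 6435783)]) (PF.cons (PF.leaf (nat_lit 2909153) (nat_lit 392195) (nat_lit 56967190) (nat_lit 3273460) [(nat_lit 392195), (nat_lit 0), (nat_lit 6475966)]) (PF.cons (PF.leaf (nat_lit 3178320) (nat_lit 413103) (nat_lit 56450561) (nat_lit 3315922) [(nat_lit 413103), (nat_lit 0), (nat_lit 6516122)]) (PF.cons (PF.leaf (nat_lit 3467802) (nat_lit 432085) (nat_lit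 55899927) (nat_lit 3357582) [(nat_lit 432085), (nat_lit 0), (nat_lit 6555045)]) (PF.cons (PF.leaf (nat_lit 3774782) (nat_lit 449473) (nat_lit 55321300) (nat_lit 3397738) [(nat_lit 449473), (nat_lit 0), (nat_lit
 6591880)]) (PF.cons (PF.leaf (nat_lit 4096960) (nat_lit 465481) (nat_lit 54719481) (nat_lit 3435912) [(nat_lit 465481), (nat_lit 0), (nat_lit 6626011)]) (PF.cons (PF.leaf (nat_lit 4432387) (nat_lit 480260) (nat_lit 54098473) (nat_lit 3471778) [(nat_lit 480260), (nat_lit 0), (nat_lit 6656999)]) (PF.cons (PF.leaf (nat_lit 4779339) (nat_lit 493920) (nat_lit 53461708) (nat_lit 3505119) [(nat_lit 493920), (nat_lit 0), (nat_lit 6684538)]) (PF.cons (PF.leaf (nat_lit 5136284) (nat_lit 506548) (nat_lit 52812192) (nat_lit 3535802) [(nat_lit 506548), (nat_lit 0), (nat_lit 6708429)]) (PF.cons (PF.leaf (nat_lit 5501871) (nat_lit 518213) (nat_lit 52152584) (nat_lit 3563750) [(nat_lit 518213), (nat_lit 0), (nat_lit 6728554)]) (PF.cons (PF.leaf (nat_lit 5874806) (nat_lit 528974)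 (nat_lit 51485261) (nat_lit 3588938) [(nat_lit 528974), (nat_lit 0), (nat_lit 6744863)]) (PF.cons (PF.leaf (nat_lit 6253933) (nat_lit 538884) (nat_lit 50812356) (nat_lit 3611374) [(nat_lit 538884), (nat_lit 0), (nat_lit 6757356)]) (PF.cons (PF.leaf (nat_lit 6638187) (nat_lit 547987) (nat_lit 50135787) (nat_lit 3631092) [(nat_lit 547987), (nat_lit 0), (nat_lit 6766080)]) (PF.cons (PF.leaf (nat_lit 7026601) (nat_lit 556328)
 (nat_lit 49457284) (nat_lit 3648152) [(nat_lit 556328), (nat_lit 0), (nat_lit 6771111)]) (PF.cons PF.nil (PF.cons PF.nil (PF.cons PF.nil (PF.cons PF.nil PF.nil)))))))))))))))))) (PF.cons (PF.cons (PF.leaf (nat_lit 3509428) (nat_lit 1920437) (nat_lit 55220113) (nat_lit 3385299) [(nat_lit 0), (nat_lit 1920437), (nat_lit 6582961)]) (PF.cons (PF.leaf (nat_lit 3794224) (nat_lit 445843) (nat_lit 54677124) (nat_lit 3420348) [(nat_lit 445843), (nat_lit 1951820), (nat_lit 6613675)]) (PF.cons (PF.leaf (nat_lit 4097639) (nat_lit 462385) (nat_lit 54105320) (nat_lit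 3454203) [(nat_lit 462385), (nat_lit 1982047), (nat_lit 6642472)]) (PF.cons (PF.leaf (nat_lit 4416400) (nat_lit 477491) (nat_lit 53510448) (nat_lit 3486351) [(nat_lit 477491), (nat_lit 2010783), (nat_lit 6668753)]) (PF.cons (PF.leaf (nat_lit 4748263) (nat_lit 491348) (nat_lit 52897023) (nat_lit 3516454) [(nat_lit 491348), (nat_lit 2037830), (nat_lit 6692109)]) (PF.cons (PF.leaf (nat_lit 5091417) (nat_lit 504087) (nat_lit 52268748) (nat_lit 3544290) [(nat_lit 504087), (nat_lit 2063069), (nat_lit 6712264)]) (PF.cons (PF.leaf (nat_lit 5444192) (nat_lit 515807) (nat_lit 51628758) (nat_lit 3569723) [(nat_lit 515807), (nat_lit 2086441),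
 (nat_lit 6729045)]) (PF.cons (PF.leaf (nat_lit 5805224) (nat_lit 526585) (nat_lit 50979758) (nat_lit 3592678) [(nat_lit 526585), (nat_lit 2107920), (nat_lit 6742356)]) (PF.cons (PF.leaf (nat_lit 6173194) (nat_lit 536486) (nat_lit 50324114) (nat_lit 3613125) [(nat_lit 536486), (nat_lit 2127513), (nat_lit 6752165)]) (PF.cons (PF.leaf (nat_lit 6546964) (nat_lit 545566) (nat_lit 49663915) (nat_lit 3631072) [(nat_lit 545566), (nat_lit 2145243), (nat_lit 6758485)]) (PF.cons (PF.leaf (nat_lit 6925490) (nat_lit 553873) (nat_lit 49001013) (nat_lit 3646550) [(nat_lit 553873), (nat_lit 2161150), (nat_lit 6761367)]) (PF.cons (PF.leaf (nat_lit 7307816) (nat_lit 561451) (nat_lit 48337058) (nat_lit 3659613) [(nat_lit 561451), (nat_lit 2175283), (nat_lit 6760893)]) (PF.cons PF.nil (PF.cons PF.nil (PF.cons PF.nil (PF.cons PF.nil PF.nil)))))))))))))))) (PF.cons (PF.cons (PF.leaf (nat_lit 4418230) (nat_lit 2020208) (nat_lit 52888614) (nat_lit 3500785) [(nat_lit 0), (nat_lit 2020208),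 (nat_lit 6678995)]) (PF.cons (PF.leaf (nat_lit 4731295) (nat_lit 487471) (nat_lit 52305848) (nat_lit 3527442) [(nat_lit 487471), (nat_lit 2044960), (nat_lit 6698130)]) (PF.cons (PF.leaf (nat_lit 5058189) (nat_lit
 500577) (nat_lit 51704235) (nat_lit 3552318) [(nat_lit 500577), (nat_lit 2068263), (nat_lit 6714576)]) (PF.cons (PF.leaf (nat_lit 5396368) (nat_lit 512538) (nat_lit 51087994) (nat_lit 3575176) [(nat_lit 512538), (nat_lit 2089974), (nat_lit 6728076)]) (PF.cons (PF.leaf (nat_lit 5744068) (nat_lit 523474) (nat_lit 50460537) (nat_lit 3595874) [(nat_lit 523474), (nat_lit 2110013), (nat_lit 6738473)]) (PF.cons (PF.leaf (nat_lit 6099801) (nat_lit 533477) (nat_lit 49824708) (nat_lit 3614333) [(nat_lit 533477), (nat_lit 2128345), (nat_lit 6745689)]) (PF.cons (PF.leaf (nat_lit 6462228) (nat_lit 542620) (nat_lit 49182934) (nat_lit 3630521) [(nat_lit 542620), (nat_lit 2144966), (nat_lit 6749699)]) (PF.cons (PF.leaf (nat_lit 6830186) (nat_lit 550964) (nat_lit 48537305)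 (nat_lit 3644440) [(nat_lit 550964), (nat_lit 2159893), (nat_lit 6750527)]) (PF.cons (PF.leaf (nat_lit 7202629) (nat_lit 558562) (nat_lit 47889650) (nat_lit 3656119) [(nat_lit 558562), (nat_lit 2173158), (nat_lit 6748228)]) (PF.cons (PF.leaf (nat_lit 7578611) (nat_lit 565460) (nat_lit 47241568) (nat_lit 3665607) [(nat_lit 565460), (nat_lit 2184806), (nat_lit 6742883)]) (PF.cons (PF.leaf (nat_lit 7957296) (nat_lit 571700)
 (nat_lit 46594469) (nat_lit 3672968) [(nat_lit 571700), (nat_lit 2194889), (nat_lit 6734595)]) (PF.cons PF.nil (PF.cons PF.nil (PF.cons PF.nil PF.nil)))))))))))))) (PF.cons (PF.cons (PF.leaf (nat_lit 5363163) (nat_lit 2093380) (nat_lit 50522816) (nat_lit 3580249) [(nat_lit 0), (nat_lit 2093380), (nat_lit 6725603)]) (PF.cons (PF.leaf (nat_lit 5694812) (nat_lit 519390) (nat_lit 49921983) (nat_lit 3598615) [(nat_lit 519390), (nat_lit 2111888), (nat_lit 6733156)]) (PF.cons (PF.leaf (nat_lit 6036489) (nat_lit 529669) (nat_lit 49309822) (nat_lit 3615051)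 [(nat_lit 529669), (nat_lit 2128911), (nat_lit 6737866)]) (PF.cons (PF.leaf (nat_lit 6386185) (nat_lit 539007) (nat_lit 48689457) (nat_lit 3629472) [(nat_lit 539007), (nat_lit 2144398), (nat_lit 6739663)]) (PF.cons (PF.leaf (nat_lit 6742499) (nat_lit 547491) (nat_lit 48063460) (nat_lit 3641840) [(nat_lit 547491), (nat_lit 2158337), (nat_lit 6738534)]) (PF.cons (PF.leaf (nat_lit 7104209) (nat_lit 555189) (nat_lit 47433992) (nat_lit 3652154) [(nat_lit 555189), (nat_lit 2170737), (nat_lit 6734504)]) (PF.cons (PF.leaf (nat_lit 7470257) (nat_lit 562160) (nat_lit 46802898) (nat_lit 3660438) [(nat_lit 562160), (nat_lit 2181625), (nat_lit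
 6727633)]) (PF.cons (PF.leaf (nat_lit 7839688) (nat_lit 568455) (nat_lit 46171768) (nat_lit 3666736) [(nat_lit 568455), (nat_lit 2191039), (nat_lit 6718002)]) (PF.cons (PF.leaf (nat_lit 8211648) (nat_lit 574117) (nat_lit 45541979) (nat_lit 3671106) [(nat_lit 574117), (nat_lit 2199026), (nat_lit 6705709)]) (PF.cons PF.nil (PF.cons PF.nil (PF.cons PF.nil PF.nil)))))))))))) (PF.cons (PF.cons (PF.leaf (nat_lit 6322470) (nat_lit 2143602) (nat_lit 48178168) (nat_lit 3627967) [(nat_lit 0), (nat_lit 2143602), (nat_lit 6728265)]) (PF.cons (PF.leaf (nat_lit 6665052) (nat_lit 543273) (nat_lit 47575392) (nat_lit 3638772) [(nat_lit 543273), (nat_lit 2156522), (nat_lit 6725287)]) (PF.cons (PF.leaf (nat_lit 7014666) (nat_lit 551196) (nat_lit 46966883) (nat_lit 3647725) [(nat_lit 551196), (nat_lit 2168044), (nat_lit 6719634)]) (PF.cons (PF.leaf (nat_lit 7369693) (nat_lit 558337) (nat_lit 46354956) (nat_lit 3654822) [(nat_lit 558337), (nat_lit 2178170), (nat_lit 6711338)]) (PF.cons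 (PF.leaf (nat_lit 7729007) (nat_lit 564762) (nat_lit 45741534) (nat_lit 3660081) [(nat_lit 564762), (nat_lit 2186922), (nat_lit 6700459)]) (PF.cons (PF.leaf (nat_lit 8091663) (nat_lit 570526) (nat_lit 45128236) (nat_lit
 3663540) [(nat_lit 570526), (nat_lit 2194330), (nat_lit 6687078)]) (PF.cons (PF.leaf (nat_lit 8456783) (nat_lit 575678) (nat_lit 44516442) (nat_lit 3665253) [(nat_lit 575678), (nat_lit 2200438), (nat_lit 6671290)]) (PF.cons PF.nil (PF.cons PF.nil (PF.cons PF.nil PF.nil)))))))))) (PF.cons (PF.cons (PF.leaf (nat_lit 7279716) (nat_lit 2174460) (nat_lit 45893888) (nat_lit 3648752) [(nat_lit 0), (nat_lit 2174460), (nat_lit 6693866)]) (PF.cons (PF.leaf (nat_lit 7627306) (nat_lit 560490) (nat_lit 45300749) (nat_lit 3652988) [(nat_lit 560490), (nat_lit 2182545), (nat_lit 6681855)]) (PF.cons (PF.leaf (nat_lit 7979581) (nat_lit 566447) (nat_lit 44705960) (nat_lit 3655561) [(nat_lit 566447), (nat_lit 2189381), (nat_lit 6667490)]) (PF.cons (PF.leaf (nat_lit 8335217)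 (nat_lit 571753) (nat_lit 44111226) (nat_lit 3656503) [(nat_lit 571753), (nat_lit 2194993), (nat_lit 6650853)]) (PF.cons (PF.leaf (nat_lit 8693352) (nat_lit 576460) (nat_lit 43517969) (nat_lit 3655863) [(nat_lit 576460), (nat_lit 2199420), (nat_lit 6632037)]) (PF.cons (PF.leaf (nat_lit 9053177) (nat_lit 580613) (nat_lit 42927383) (nat_lit 3653698) [(nat_lit 580613), (nat_lit 2202703), (nat_lit 6611144)]) (PF.cons PF.nil (PF.cons
 PF.nil PF.nil)))))))) (PF.cons (PF.cons (PF.leaf (nat_lit 8222922) (nat_lit 2189300) (nat_lit 43696243) (nat_lit 3647338) [(nat_lit 0), (nat_lit 2189300), (nat_lit 6629425)]) (PF.cons (PF.leaf (nat_lit 8571032) (nat_lit 572203) (nat_lit 43120708) (nat_lit 3646058) [(nat_lit 572203), (nat_lit 2193309), (nat_lit 6609987)]) (PF.cons (PF.leaf (nat_lit 8922015) (nat_lit 576528) (nat_lit 42546426) (nat_lit 3643344) [(nat_lit 576528), (nat_lit 2196235), (nat_lit 6588571)]) (PF.cons (PF.leaf (nat_lit 9274776) (nat_lit 580311) (nat_lit 41974644) (nat_lit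 3639246) [(nat_lit 580311), (nat_lit 2198118), (nat_lit 6565275)]) (PF.cons PF.nil (PF.cons PF.nil PF.nil)))))) (PF.cons (PF.cons (PF.leaf (nat_lit 9143717) (nat_lit 2191120) (nat_lit 41601465) (nat_lit 3628057) [(nat_lit 0), (nat_lit 2191120), (nat_lit 6541444)]) (PF.cons (PF.leaf (nat_lit 9489039) (nat_lit 579408) (nat_lit 41048703) (nat_lit 3622267) [(nat_lit 579408), (nat_lit 2191759), (nat_lit 6516114)]) (PF.cons PF.nil (PF.cons PF.nil PF.nil)))) (PF.cons (PF.cons (PF.leaf (nat_lit 10036556) (nat_lit 2182527) (nat_lit 39618264) (nat_lit 3594706) [(nat_lit 0), (nat_lit 2182527), (nat_lit 6435625)]) (PF.cons PF.nil PF.nil)) (PF.cons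
 PF.nil (PF.cons PF.nil PF.nil))))))))))) (PF.cons (PF.cons (PF.cons (PF.leaf (nat_lit 4588969) (nat_lit 3484101) (nat_lit 50369670) (nat_lit 3484101) [(nat_lit 0), (nat_lit 0), (nat_lit 6627520)]) (PF.cons (PF.leaf (nat_lit 4874492) (nat_lit 471204) (nat_lit 49857276) (nat_lit 3505035) [(nat_lit 471204), (nat_lit 0), (nat_lit 6637648)]) (PF.cons (PF.leaf (nat_lit 5176316) (nat_lit 485557) (nat_lit 49321529) (nat_lit 3524676) [(nat_lit 485557), (nat_lit 0), (nat_lit 6645745)]) (PF.cons (PF.leaf (nat_lit 5491150) (nat_lit 498369) (nat_lit 48767913) (nat_lit 3542726) [(nat_lit 498369), (nat_lit 0), (nat_lit 6651532)]) (PF.cons (PF.leaf (nat_lit 5816830) (nat_lit 509880) (nat_lit 48200620) (nat_lit 3558999) [(nat_lit 509880), (nat_lit 0), (nat_lit 6654834)]) (PF.cons (PF.leaf (nat_lit 6151551) (nat_lit 520264) (nat_lit 47622995) (nat_lit 3573390) [(nat_lit 520264), (nat_lit 0), (nat_lit 6655552)]) (PF.cons (PF.leaf (nat_lit 6493819) (nat_lit 529648) (nat_lit 47037790)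 (nat_lit 3585846) [(nat_lit 529648), (nat_lit 0), (nat_lit 6653641)]) (PF.cons (PF.leaf (nat_lit 6842353) (nat_lit 538133) (nat_lit 46447316) (nat_lit 3596352) [(nat_lit 538133), (nat_lit 0), (nat_lit 6649103)]) (PF.cons
 (PF.leaf (nat_lit 7196030) (nat_lit 545801) (nat_lit 45853540) (nat_lit 3604921) [(nat_lit 545801), (nat_lit 0), (nat_lit 6641968)]) (PF.cons (PF.leaf (nat_lit 7553854) (nat_lit 552720) (nat_lit 45258155) (nat_lit 3611588) [(nat_lit 552720), (nat_lit 0), (nat_lit 6632293)]) (PF.cons (PF.leaf (nat_lit 7914924) (nat_lit 558946) (nat_lit 44662630) (nat_lit 3616401) [(nat_lit 558946), (nat_lit 0), (nat_lit 6620156)]) (PF.cons (PF.leaf (nat_lit 8278449) (nat_lit 564532) (nat_lit 44068241) (nat_lit 3619420) [(nat_lit 564532), (nat_lit 0), (nat_lit 6605646)]) (PF.cons PF.nil (PF.cons PF.nil PF.nil)))))))))))))) (PF.cons (PF.cons (PF.leaf (nat_lit 5468338) (nat_lit 2068434) (nat_lit 48209002) (nat_lit 3544725) [(nat_lit 0), (nat_lit 2068434), (nat_lit 6643325)])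 (PF.cons (PF.leaf (nat_lit 5775767) (nat_lit 503991) (nat_lit 47672063) (nat_lit 3558920) [(nat_lit 503991), (nat_lit 2084930), (nat_lit 6644453)]) (PF.cons (PF.leaf (nat_lit 6094943) (nat_lit 514970) (nat_lit 47120697) (nat_lit 3571547) [(nat_lit 514970), (nat_lit 2100090), (nat_lit 6643268)]) (PF.cons (PF.leaf (nat_lit 6423454) (nat_lit 524793) (nat_lit 46558722) (nat_lit 3582488) [(nat_lit 524793), (nat_lit 2113848), (nat_lit
 6639686)]) (PF.cons (PF.leaf (nat_lit 6759620) (nat_lit 533609) (nat_lit 45989151) (nat_lit 3591682) [(nat_lit 533609), (nat_lit 2126181), (nat_lit 6633679)]) (PF.cons (PF.leaf (nat_lit 7102061) (nat_lit 541531) (nat_lit 45414435) (nat_lit 3599112) [(nat_lit 541531), (nat_lit 2137097), (nat_lit 6625254)]) (PF.cons (PF.leaf (nat_lit 7449589) (nat_lit 548649) (nat_lit 44836610) (nat_lit 3604784) [(nat_lit 548649), (nat_lit 2146618), (nat_lit 6614450)]) (PF.cons (PF.leaf (nat_lit 7801213) (nat_lit 555035) (nat_lit 44257396) (nat_lit 3608729)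 [(nat_lit 555035), (nat_lit 2154782), (nat_lit 6601327)]) (PF.cons (PF.leaf (nat_lit 8156007) (nat_lit 560750) (nat_lit 43678257) (nat_lit 3610991) [(nat_lit 560750), (nat_lit 2161633), (nat_lit 6585961)]) (PF.cons (PF.leaf (nat_lit 8513163) (nat_lit 565847) (nat_lit 43100451) (nat_lit 3611623) [(nat_lit 565847), (nat_lit 2167221), (nat_lit 6568442)]) (PF.cons PF.nil (PF.cons PF.nil PF.nil)))))))))))) (PF.cons (PF.cons (PF.leaf (nat_lit 6368485) (nat_lit 2111525) (nat_lit 46058406) (nat_lit 3578734) [(nat_lit 0), (nat_lit 2111525), (nat_lit 6624310)]) (PF.cons (PF.leaf (nat_lit 6689513) (nat_lit 528116) (nat_lit 45514222) (nat_lit 3586594)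
 [(nat_lit 528116), (nat_lit 2122968), (nat_lit 6616971)]) (PF.cons (PF.leaf (nat_lit 7018891) (nat_lit 536475) (nat_lit 44961938) (nat_lit 3592882) [(nat_lit 536475), (nat_lit 2133138), (nat_lit 6607381)]) (PF.cons (PF.leaf (nat_lit 7354740) (nat_lit 543929) (nat_lit 44404269) (nat_lit 3597571) [(nat_lit 543929), (nat_lit 2142028), (nat_lit 6595562)]) (PF.cons (PF.leaf (nat_lit 7695780) (nat_lit 550580) (nat_lit 43843402) (nat_lit 3600667) [(nat_lit 550580), (nat_lit 2149652), (nat_lit 6581557)]) (PF.cons (PF.leaf (nat_lit 8040917) (nat_lit 556508) (nat_lit 43281136) (nat_lit 3602193) [(nat_lit 556508), (nat_lit 2156040), (nat_lit 6565431)]) (PF.cons (PF.leaf (nat_lit 8389252) (nat_lit 561778) (nat_lit 42718971) (nat_lit 3602190) [(nat_lit 561778), (nat_lit 2161230), (nat_lit 6547259)]) (PF.cons (PF.leaf (nat_lit 8739936) (nat_lit 566447) (nat_lit 42158177) (nat_lit 3600707) [(nat_lit 566447), (nat_lit 2165266), (nat_lit 6527131)]) (PF.cons PF.nil (PF.cons PF.nil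 PF.nil)))))))))) (PF.cons (PF.cons (PF.leaf (nat_lit 7272710) (nat_lit 2137209) (nat_lit 43956385) (nat_lit 3589927) [(nat_lit 0), (nat_lit 2137209), (nat_lit 6575436)]) (PF.cons (PF.leaf (nat_lit 7601079) (nat_lit
 545395) (nat_lit 43417008) (nat_lit 3592188) [(nat_lit 545395), (nat_lit 2144282), (nat_lit 6560687)]) (PF.cons (PF.leaf (nat_lit 7935207) (nat_lit 551662) (nat_lit 42874026) (nat_lit 3593001) [(nat_lit 551662), (nat_lit 2150206), (nat_lit 6543920)]) (PF.cons (PF.leaf (nat_lit 8273597) (nat_lit 557203) (nat_lit 42329390) (nat_lit 3592387) [(nat_lit 557203), (nat_lit 2155005), (nat_lit 6525203)]) (PF.cons (PF.leaf (nat_lit 8615266) (nat_lit 562094) (nat_lit 41784691) (nat_lit 3590381) [(nat_lit 562094), (nat_lit 2158710), (nat_lit 6504616)]) (PF.cons (PF.leaf (nat_lit 8959355) (nat_lit 566393) (nat_lit 41241243) (nat_lit 3587030) [(nat_lit 566393), (nat_lit 2161360), (nat_lit 6482245)]) (PF.cons (PF.leaf (nat_lit 9305133) (nat_lit 570152) (nat_lit 40700145)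 (nat_lit 3582386) [(nat_lit 570152), (nat_lit 2162999), (nat_lit 6458183)]) (PF.cons PF.nil PF.nil)))))))) (PF.cons (PF.cons (PF.leaf (nat_lit 8168874) (nat_lit 2148540) (nat_lit 41928288) (nat_lit 3582171) [(nat_lit 0), (nat_lit 2148540), (nat_lit 6502096)]) (PF.cons (PF.leaf (nat_lit 8499885) (nat_lit 557178) (nat_lit 41401928) (nat_lit 3579673) [(nat_lit 557178), (nat_lit 2151920), (nat_lit 6481175)]) (PF.cons (PF.leaf
 (nat_lit 8834662) (nat_lit 561752) (nat_lit 40875129) (nat_lit 3575906) [(nat_lit 561752), (nat_lit 2154301), (nat_lit 6458533)]) (PF.cons (PF.leaf (nat_lit 9172016) (nat_lit 565739) (nat_lit 40349298) (nat_lit 3570913) [(nat_lit 565739), (nat_lit 2155716), (nat_lit 6434258)]) (PF.cons (PF.leaf (nat_lit 9511166) (nat_lit 569193) (nat_lit 39825588) (nat_lit 3564743) [(nat_lit 569193), (nat_lit 2156205), (nat_lit 6408442)]) (PF.cons PF.nil PF.nil)))))) (PF.cons (PF.cons (PF.leaf (nat_lit 9048365) (nat_lit 2148205) (nat_lit 39989806) (nat_lit 3559068)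 [(nat_lit 0), (nat_lit 2148205), (nat_lit 6409455)]) (PF.cons (PF.leaf (nat_lit 9378515) (nat_lit 564530) (nat_lit 39481838) (nat_lit 3552642) [(nat_lit 564530), (nat_lit 2148524), (nat_lit 6383589)]) (PF.cons (PF.leaf (nat_lit 9710938) (nat_lit 567729) (nat_lit 38975622) (nat_lit 3545140) [(nat_lit 567729), (nat_lit 2147994), (nat_lit 6356309)]) (PF.cons PF.nil PF.nil)))) (PF.cons (PF.cons (PF.leaf (nat_lit 9905296) (nat_lit 2138523) (nat_lit 38149593) (nat_lit 3523814) [(nat_lit 0), (nat_lit 2138523), (nat_lit 6302131)]) (PF.cons (PF.leaf (nat_lit 10232054) (nat_lit 568313) (nat_lit 37663309) (nat_lit 3514222) [(nat_lit 568313),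
 (nat_lit 2136346), (nat_lit 6272443)]) PF.nil)) (PF.cons PF.nil (PF.cons PF.nil (PF.cons PF.nil PF.nil)))))))))) (PF.cons (PF.cons (PF.cons (PF.leaf (nat_lit 6410322) (nat_lit 3522261) (nat_lit 44056359) (nat_lit 3522261) [(nat_lit 0), (nat_lit 0), (nat_lit 6510063)]) (PF.cons (PF.leaf (nat_lit 6708970) (nat_lit 509919) (nat_lit 43571016) (nat_lit 3528098) [(nat_lit 509919), (nat_lit 0), (nat_lit 6499926)]) (PF.cons (PF.leaf (nat_lit 7017829) (nat_lit 519231) (nat_lit 43074327) (nat_lit 3532573) [(nat_lit 519231), (nat_lit 0), (nat_lit 6487816)]) (PF.cons (PF.leaf (nat_lit 7334576) (nat_lit 527410) (nat_lit 42569669) (nat_lit 3535641) [(nat_lit 527410), (nat_lit 0), (nat_lit 6473756)]) (PF.cons (PF.leaf (nat_lit 7657658) (nat_lit 534623) (nat_lit 42059661) (nat_lit 3537294) [(nat_lit 534623), (nat_lit 0), (nat_lit 6457788)]) (PF.cons (PF.leaf (nat_lit 7985802) (nat_lit 540992) (nat_lit 41546396) (nat_lit 3537546) [(nat_lit 540992), (nat_lit 0), (nat_lit 6439968)])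 (PF.cons (PF.leaf (nat_lit 8317960) (nat_lit 546617) (nat_lit 41031586) (nat_lit 3536427) [(nat_lit 546617), (nat_lit 0), (nat_lit 6420364)]) (PF.cons (PF.leaf (nat_lit 8653221) (nat_lit 551574) (nat_lit 40516647)
 (nat_lit 3533979) [(nat_lit 551574), (nat_lit 0), (nat_lit 6399053)]) (PF.cons (PF.leaf (nat_lit 8990783) (nat_lit 555929) (nat_lit 40002770) (nat_lit 3530251) [(nat_lit 555929), (nat_lit 0), (nat_lit 6376118)]) (PF.cons PF.nil (PF.cons PF.nil (PF.cons PF.nil PF.nil)))))))))))) (PF.cons (PF.cons (PF.leaf (nat_lit 7263500) (nat_lit 2096408) (nat_lit 42131579) (nat_lit 3526715) [(nat_lit 0), (nat_lit 2096408), (nat_lit 6451370)]) (PF.cons (PF.leaf (nat_lit 7572442) (nat_lit 528334) (nat_lit 41644759) (nat_lit 3527687) [(nat_lit 528334), (nat_lit 2102976), (nat_lit 6435018)]) (PF.cons (PF.leaf (nat_lit 7888526) (nat_lit 535242) (nat_lit 41151894) (nat_lit 3527369) [(nat_lit 535242), (nat_lit 2108454), (nat_lit 6416869)]) (PF.cons (PF.leaf (nat_lit 8209986)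 (nat_lit 541292) (nat_lit 40655325) (nat_lit 3525773) [(nat_lit 541292), (nat_lit 2112859), (nat_lit 6396991)]) (PF.cons (PF.leaf (nat_lit 8535656) (nat_lit 546593) (nat_lit 40156909) (nat_lit 3522925) [(nat_lit 546593), (nat_lit 2116223), (nat_lit 6375460)]) (PF.cons (PF.leaf (nat_lit 8864570) (nat_lit 551229) (nat_lit 39658151) (nat_lit 3518863) [(nat_lit 551229), (nat_lit 2118584), (nat_lit 6352354)]) (PF.cons (PF.leaf (nat_lit
 9195886) (nat_lit 555271) (nat_lit 39160287) (nat_lit 3513632) [(nat_lit 555271), (nat_lit 2119985), (nat_lit 6327758)]) (PF.cons (PF.leaf (nat_lit 9528915) (nat_lit 558776) (nat_lit 38664347) (nat_lit 3507283) [(nat_lit 558776), (nat_lit 2120471), (nat_lit 6301757)]) (PF.cons PF.nil (PF.cons PF.nil PF.nil)))))))))) (PF.cons (PF.cons (PF.leaf (nat_lit 8114992) (nat_lit 2105720) (nat_lit 40265310) (nat_lit 3514692) [(nat_lit 0), (nat_lit 2105720), (nat_lit 6372456)]) (PF.cons (PF.leaf (nat_lit 8428999) (nat_lit 540895) (nat_lit 39786181)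 (nat_lit 3511477) [(nat_lit 540895), (nat_lit 2108840), (nat_lit 6350859)]) (PF.cons (PF.leaf (nat_lit 8747865) (nat_lit 545941) (nat_lit 39304658) (nat_lit 3507114) [(nat_lit 545941), (nat_lit 2111008), (nat_lit 6327713)]) (PF.cons (PF.leaf (nat_lit 9070220) (nat_lit 550317) (nat_lit 38822394) (nat_lit 3501638) [(nat_lit 550317), (nat_lit 2112257), (nat_lit 6303103)]) (PF.cons (PF.leaf (nat_lit 9395160) (nat_lit 554099) (nat_lit 38340718) (nat_lit 3495093) [(nat_lit 554099), (nat_lit 2112624), (nat_lit 6277117)]) (PF.cons (PF.leaf (nat_lit 9721936) (nat_lit 557350) (nat_lit 37860711) (nat_lit 3487525) [(nat_lit 557350), (nat_lit 2112151), (nat_lit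
 6249841)]) (PF.cons PF.nil (PF.cons PF.nil PF.nil)))))))) (PF.cons (PF.cons (PF.leaf (nat_lit 8955530) (nat_lit 2104291) (nat_lit 38474251) (nat_lit 3489251) [(nat_lit 0), (nat_lit 2104291), (nat_lit 6277478)]) (PF.cons (PF.leaf (nat_lit 9270760) (nat_lit 548874) (nat_lit 38008808) (nat_lit 3482547) [(nat_lit 548874), (nat_lit 2104554), (nat_lit 6251639)]) (PF.cons (PF.leaf (nat_lit 9589145) (nat_lit 552449) (nat_lit 37543486) (nat_lit 3474859) [(nat_lit 552449), (nat_lit 2104006), (nat_lit 6224515)]) (PF.cons (PF.leaf (nat_lit 9909569) (nat_lit 555491) (nat_lit 37079460) (nat_lit 3466233) [(nat_lit 555491), (nat_lit 2102683), (nat_lit 6196197)]) (PF.cons PF.nil (PF.cons PF.nil PF.nil)))))) (PF.cons (PF.cons (PF.leaf (nat_lit 9778694) (nat_lit 2094268) (nat_lit 36767907) (nat_lit 3453133) [(nat_lit 0), (nat_lit 2094268), (nat_lit 6170232)]) (PF.cons (PF.leaf (nat_lit 10092338) (nat_lit 553230) (nat_lit 36319919) (nat_lit 3443597) [(nat_lit 553230), (nat_lit 2092198),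 (nat_lit 6141090)]) (PF.cons (PF.leaf (nat_lit 10407844) (nat_lit 555629) (nat_lit 35873761) (nat_lit 3433239) [(nat_lit 555629), (nat_lit 2089447), (nat_lit 6110920)]) (PF.cons PF.nil PF.nil)))) (PF.cons (PF.cons
 (PF.leaf (nat_lit 10580177) (nat_lit 2077453) (nat_lit 35150768) (nat_lit 3408713) [(nat_lit 0), (nat_lit 2077453), (nat_lit 6054021)]) (PF.cons PF.nil PF.nil)) (PF.cons PF.nil (PF.cons PF.nil PF.nil)))))))) (PF.cons (PF.cons (PF.cons (PF.leaf (nat_lit 8065198) (nat_lit 3445584) (nat_lit 38696647) (nat_lit 3445584) [(nat_lit 0), (nat_lit 0), (nat_lit 6241645)]) (PF.cons (PF.leaf (nat_lit 8361757) (nat_lit 523152) (nat_lit 38263378) (nat_lit 3442078) [(nat_lit 523152), (nat_lit 0), (nat_lit 6220050)]) (PF.cons (PF.leaf (nat_lit 8664593) (nat_lit 528954) (nat_lit 37825398) (nat_lit 3437504) [(nat_lit 528954), (nat_lit 0), (nat_lit 6196999)]) (PF.cons (PF.leaf (nat_lit 8972013) (nat_lit 533947) (nat_lit 37384728) (nat_lit 3431894) [(nat_lit 533947), (nat_lit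 0), (nat_lit 6172587)]) (PF.cons (PF.leaf (nat_lit 9282945) (nat_lit 538242) (nat_lit 36942951) (nat_lit 3425286) [(nat_lit 538242), (nat_lit 0), (nat_lit 6146901)]) (PF.cons (PF.leaf (nat_lit 9596517) (nat_lit 541927) (nat_lit 36501336) (nat_lit 3417725) [(nat_lit 541927), (nat_lit 0), (nat_lit 6120028)]) (PF.cons (PF.leaf (nat_lit 9911986) (nat_lit 545072) (nat_lit 36060914) (nat_lit 3409258) [(nat_lit 545072), (nat_lit 0),
 (nat_lit 6092051)]) (PF.cons PF.nil PF.nil)))))))) (PF.cons (PF.cons (PF.leaf (nat_lit 8868024) (nat_lit 2059572) (nat_lit 37045379) (nat_lit 3419035) [(nat_lit 0), (nat_lit 2059572), (nat_lit 6146206)]) (PF.cons (PF.leaf (nat_lit 9168185) (nat_lit 532318) (nat_lit 36620656) (nat_lit 3412360) [(nat_lit 532318), (nat_lit 2060023), (nat_lit 6120863)]) (PF.cons (PF.leaf (nat_lit 9472593) (nat_lit 536455) (nat_lit 36194233) (nat_lit 3404760) [(nat_lit 536455), (nat_lit 2059675), (nat_lit 6094308)]) (PF.cons (PF.leaf (nat_lit 9779913) (nat_lit 539970)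 (nat_lit 35767519) (nat_lit 3396277) [(nat_lit 539970), (nat_lit 2058565), (nat_lit 6066634)]) (PF.cons (PF.leaf (nat_lit 10089368) (nat_lit 542942) (nat_lit 35341635) (nat_lit 3386958) [(nat_lit 542942), (nat_lit 2056735), (nat_lit 6037927)]) (PF.cons PF.nil PF.nil)))))) (PF.cons (PF.cons (PF.leaf (nat_lit 9658721) (nat_lit 2049873) (nat_lit 35464929) (nat_lit 3382913) [(nat_lit 0), (nat_lit 2049873), (nat_lit 6040305)]) (PF.cons (PF.leaf (nat_lit 9959264) (nat_lit 537616) (nat_lit 35053279) (nat_lit 3373646) [(nat_lit 537616), (nat_lit 2048080), (nat_lit 6012027)]) (PF.cons (PF.leaf (nat_lit 10262538) (nat_lit 540459) (nat_lit 34641970)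
 (nat_lit 3363601) [(nat_lit 540459), (nat_lit 2045618), (nat_lit 5982770)]) (PF.cons PF.nil PF.nil)))) (PF.cons (PF.cons (PF.leaf (nat_lit 10432313) (nat_lit 2033761) (nat_lit 33961192) (nat_lit 3339319) [(nat_lit 0), (nat_lit 2033761), (nat_lit 5926754)]) (PF.cons (PF.leaf (nat_lit 10730905) (nat_lit 539901) (nat_lit 33565369) (nat_lit 3327982) [(nat_lit 539901), (nat_lit 2030160), (nat_lit 5896269)]) PF.nil)) (PF.cons PF.nil (PF.cons PF.nil PF.nil)))))) (PF.cons (PF.cons (PF.cons (PF.leaf (nat_lit 9547269) (nat_lit 3313291) (nat_lit 34232779) (nat_lit 3313291) [(nat_lit 0), (nat_lit 0), (nat_lit 5912548)]) (PF.cons (PF.leaf (nat_lit 9834403) (nat_lit 521313) (nat_lit 33855961) (nat_lit 3304483) [(nat_lit 521313), (nat_lit 0), (nat_lit 5885410)]) (PF.cons (PF.leaf (nat_lit 10125325) (nat_lit 524762) (nat_lit 33477843) (nat_lit 3294918) [(nat_lit 524762), (nat_lit 0), (nat_lit 5857305)]) (PF.cons (PF.leaf (nat_lit 10418771) (nat_lit 527634) (nat_lit 33099637) (nat_lit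 3284642) [(nat_lit 527634), (nat_lit 0), (nat_lit 5828326)]) (PF.cons PF.nil (PF.cons PF.nil PF.nil)))))) (PF.cons (PF.cons (PF.leaf (nat_lit 10293540) (nat_lit 1990375) (nat_lit 32835760) (nat_lit 3271020) [(nat_lit
 0), (nat_lit 1990375), (nat_lit 5802331)]) (PF.cons (PF.leaf (nat_lit 10580568) (nat_lit 524707) (nat_lit 32470863) (nat_lit 3260259) [(nat_lit 524707), (nat_lit 1987239), (nat_lit 5773148)]) (PF.cons (PF.leaf (nat_lit 10870024) (nat_lit 527006) (nat_lit 32106359) (nat_lit 3248872) [(nat_lit 527006), (nat_lit 1983542), (nat_lit 5743205)]) (PF.cons PF.nil PF.nil)))) (PF.cons (PF.cons (PF.leaf (nat_lit 11023455) (nat_lit 1970546) (nat_lit 31506704) (nat_lit 3223491) [(nat_lit 0), (nat_lit 1970546), (nat_lit 5687504)]) (PF.cons PF.nil PF.nil)) (PF.cons PF.nil PF.nil)))) (PF.cons (PF.cons (PF.cons (PF.leaf (nat_lit 10871881) (nat_lit 3158315) (nat_lit 30529301) (nat_lit 3158315) [(nat_lit 0), (nat_lit 0), (nat_lit 5570199)]) (PF.cons (PF.leaf (nat_lit 11146488)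 (nat_lit 510980) (nat_lit 30204755) (nat_lit 3146759) [(nat_lit 510980), (nat_lit 0), (nat_lit 5541053)]) PF.nil)) (PF.cons PF.nil PF.nil)) (PF.cons PF.nil (PF.cons PF.nil (PF.cons PF.nil (PF.cons PF.nil (PF.cons PF.nil PF.nil))))))))))))

def p13_18_0_0 : pfC (piC [(nat_lit 38632330), (nat_lit 24534081), (nat_lit 15702173)] (nat_lit 20714735)) p13_18_0 (nat_lit 3) (nat_lit 0) (nat_lit 1) = true := by decide +kernel
def p13_18_0_1 : pfC (piC [(nat_lit 38632330), (nat_lit 24534081), (nat_lit 15702173)] (nat_lit 20714735)) p13_18_0 (nat_lit 3) (nat_lit 1) (nat_lit 2) = true := by decide +kernel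
def p13_18_0_2 : pfC (piC [(nat_lit 38632330), (nat_lit 24534081), (nat_lit 15702173)] (nat_lit 20714735)) p13_18_0 (nat_lit 3) (nat_lit 2) (nat_lit 3) = true := by decide +kernel
def p13_18_0_3 : pfC (piC [(nat_lit 38632330), (nat_lit 24534081), (nat_lit 15702173)] (nat_lit 20714735)) p13_18_0 (nat_lit 3) (nat_lit 3) (nat_lit 4) = true := by decide +kernel
def p13_18_0_4 : pfC (piC [(nat_lit 38632330), (nat_lit 24534081), (nat_lit 15702173)] (nat_lit 20714735)) p13_18_0 (nat_lit 3) (nat_lit 4) (nat_lit 5) = true := by decide +kernel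
def p13_18_0_5 : pfC (piC [(nat_lit 38632330), (nat_lit 24534081), (nat_lit 15702173)] (nat_lit 20714735)) p13_18_0 (nat_lit 3) (nat_lit 5) (nat_lit 6) = true := by decide +kernel
def p13_18_0_6 : pfC (piC [(nat_lit 38632330), (nat_lit 24534081), (nat_lit 15702173)] (nat_lit 20714735)) p13_18_0 (nat_lit 3) (nat_lit 6) (nat_lit 7) = true := by decide +kernel
def p13_18_0_7 : pfC (piC [(nat_lit 38632330), (nat_lit 24534081), (nat_lit 15702173)] (nat_lit 20714735)) p13_18_0 (nat_lit 3) (nat_lit 7) (nat_lit 8) = true := by decide +kernel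
def p13_18_0_8 : pfC (piC [(nat_lit 38632330), (nat_lit 24534081), (nat_lit 15702173)] (nat_lit 20714735)) p13_18_0 (nat_lit 3) (nat_lit 8) (nat_lit 9) = true := by decide +kernel
def p13_18_0_9 : pfC (piC [(nat_lit 38632330), (nat_lit 24534081), (nat_lit 15702173)] (nat_lit 20714735)) p13_18_0 (nat_lit 3) (nat_lit 9) (nat_lit 10) = true := by decide +kernel
def p13_18_0_10 : pfC (piC [(nat_lit 38632330), (nat_lit 24534081), (nat_lit 15702173)] (nat_lit 20714735)) p13_18_0 (nat_lit 3) (nat_lit 10) (nat_lit 11) = true := by decide +kernel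
def p13_18_0_11 : pfC (piC [(nat_lit 38632330), (nat_lit 24534081), (nat_lit 15702173)] (nat_lit 20714735)) p13_18_0 (nat_lit 3) (nat_lit 11) (nat_lit 12) = true := by decide +kernel
def p13_18_0_12 : pfC (piC [(nat_lit 38632330), (nat_lit 24534081), (nat_lit 15702173)] (nat_lit 20714735)) p13_18_0 (nat_lit 3) (nat_lit 12) (nat_lit 13) = true := by decide +kernel
def p13_18_0_13 : pfC (piC [(nat_lit 38632330), (nat_lit 24534081), (nat_lit 15702173)] (nat_lit 20714735)) p13_18_0 (nat_lit 3) (nat_lit 13) (nat_lit 14) = true := by decide +kernel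
def p13_18_0_14 : pfC (piC [(nat_lit 38632330), (nat_lit 24534081), (nat_lit 15702173)] (nat_lit 20714735)) p13_18_0 (nat_lit 3) (nat_lit 14) (nat_lit 15) = true := by decide +kernel
def p13_18_0_15 : pfC (piC [(nat_lit 38632330), (nat_lit 24534081), (nat_lit 15702173)] (nat_lit 20714735)) p13_18_0 (nat_lit 3) (nat_lit 15) (nat_lit 16) = true := by decide +kernel
def p13_18_0_16 : pfC (piC [(nat_lit 38632330), (nat_lit 24534081), (nat_lit 15702173)] (nat_lit 20714735)) p13_18_0 (nat_lit 3) (nat_lit 16) (nat_lit 17) = true := by decide +kernel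
def p13_18_0_17 : pfC (piC [(nat_lit 38632330), (nat_lit 24534081), (nat_lit 15702173)] (nat_lit 20714735)) p13_18_0 (nat_lit 3) (nat_lit 17) (nat_lit 18) = true := by decide +kernel
def p13_18_0_18 : pfC (piC [(nat_lit 38632330), (nat_lit 24534081), (nat_lit 15702173)] (nat_lit 20714735)) p13_18_0 (nat_lit 3) (nat_lit 18) (nat_lit 19) = true := by decide +kernel
def p13_18_0_19 : pfC (piC [(nat_lit 38632330), (nat_lit 24534081), (nat_lit 15702173)] (nat_lit 20714735)) p13_18_0 (nat_lit 3) (nat_lit 19) (nat_lit 20) = true := by decide +kernel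
def p13_18_0_20 : pfC (piC [(nat_lit 38632330), (nat_lit 24534081), (nat_lit 15702173)] (nat_lit 20714735)) p13_18_0 (nat_lit 3) (nat_lit 20) (nat_lit 21) = true := by decide +kernel
def p13_18_0_21 : pfC (piC [(nat_lit 38632330), (nat_lit 24534081), (nat_lit 15702173)] (nat_lit 20714735)) p13_18_0 (nat_lit 3) (nat_lit 21) (nat_lit 22) = true := by decide +kernel
def p13_18_0_22 : pfC (piC [(nat_lit 38632330), (nat_lit 24534081), (nat_lit 15702173)] (nat_lit 20714735)) p13_18_0 (nat_lit 3) (nat_lit 22) (nat_lit 23) = true := by decide +kernel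
def p13_18_0_23 : pfC (piC [(nat_lit 38632330), (nat_lit 24534081), (nat_lit 15702173)] (nat_lit 20714735)) p13_18_0 (nat_lit 3) (nat_lit 23) (nat_lit 24) = true := by decide +kernel
def p13_18_0_24 : pfC (piC [(nat_lit 38632330), (nat_lit 24534081), (nat_lit 15702173)] (nat_lit 20714735)) p13_18_0 (nat_lit 3) (nat_lit 24) (nat_lit 25) = true := by decide +kernel
def p13_18_0_25 : pfC (piC [(nat_lit 38632330), (nat_lit 24534081), (nat_lit 15702173)] (nat_lit 20714735)) p13_18_0 (nat_lit 3) (nat_lit 25) (nat_lit 26) = true := by decide +kernel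
def p13_18_0_26 : pfC (piC [(nat_lit 38632330), (nat_lit 24534081), (nat_lit 15702173)] (nat_lit 20714735)) p13_18_0 (nat_lit 3) (nat_lit 26) (nat_lit 27) = true := by decide +kernel
def p13_18_0_27 : pfC (piC [(nat_lit 38632330), (nat_lit 24534081), (nat_lit 15702173)] (nat_lit 20714735)) p13_18_0 (nat_lit 3) (nat_lit 27) (nat_lit 28) = true := by decide +kernel
def p13_18_0_28 : pfC (piC [(nat_lit 38632330), (nat_lit 24534081), (nat_lit 15702173)] (nat_lit 20714735)) p13_18_0 (nat_lit 3) (nat_lit 28) (nat_lit 29) = true := by decide +kernel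
def p13_18_0_29 : pfC (piC [(nat_lit 38632330), (nat_lit 24534081), (nat_lit 15702173)] (nat_lit 20714735)) p13_18_0 (nat_lit 3) (nat_lit 29) (nat_lit 30) = true := by decide +kernel
def p13_18_0_30 : pfC (piC [(nat_lit 38632330), (nat_lit 24534081), (nat_lit 15702173)] (nat_lit 20714735)) p13_18_0 (nat_lit 3) (nat_lit 30) (nat_lit 31) = true := by decide +kernel
def p13_18_0_31 : pfC (piC [(nat_lit 38632330), (nat_lit 24534081), (nat_lit 15702173)] (nat_lit 20714735)) p13_18_0 (nat_lit 3) (nat_lit 31) (nat_lit 32) = true := by decide +kernel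
def p13_18_0_32 : pfC (piC [(nat_lit 38632330), (nat_lit 24534081), (nat_lit 15702173)] (nat_lit 20714735)) p13_18_0 (nat_lit 3) (nat_lit 32) (nat_lit 33) = true := by decide +kernel
def p13_18_0_33 : pfC (piC [(nat_lit 38632330), (nat_lit 24534081), (nat_lit 15702173)] (nat_lit 20714735)) p13_18_0 (nat_lit 3) (nat_lit 33) (nat_lit 34) = true := by decide +kernel
def p13_18_0_34 : pfC (piC [(nat_lit 38632330), (nat_lit 24534081), (nat_lit 15702173)] (nat_lit 20714735)) p13_18_0 (nat_lit 3) (nat_lit 34) (nat_lit 35) = true := by decide +kernel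
def p13_18_0_35 : pfC (piC [(nat_lit 38632330), (nat_lit 24534081), (nat_lit 15702173)] (nat_lit 20714735)) p13_18_0 (nat_lit 3) (nat_lit 35) (nat_lit 36) = true := by decide +kernel
def p13_18_0_36 : pfC (piC [(nat_lit 38632330), (nat_lit 24534081), (nat_lit 15702173)] (nat_lit 20714735)) p13_18_0 (nat_lit 3) (nat_lit 36) (nat_lit 37) = true := by decide +kernel
def p13_18_0_37 : pfC (piC [(nat_lit 38632330), (nat_lit 24534081), (nat_lit 15702173)] (nat_lit 20714735)) p13_18_0 (nat_lit 3) (nat_lit 37) (nat_lit 38) = true := by decide +kernel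
def p13_18_0_38 : pfC (piC [(nat_lit 38632330), (nat_lit 24534081), (nat_lit 15702173)] (nat_lit 20714735)) p13_18_0 (nat_lit 3) (nat_lit 38) (nat_lit 39) = true := by decide +kernel
def p13_18_0_39 : pfC (piC [(nat_lit 38632330), (nat_lit 24534081), (nat_lit 15702173)] (nat_lit 20714735)) p13_18_0 (nat_lit 3) (nat_lit 39) (nat_lit 40) = true := by decide +kernel
def p13_18_0_40 : pfC (piC [(nat_lit 38632330), (nat_lit 24534081), (nat_lit 15702173)] (nat_lit 20714735)) p13_18_0 (nat_lit 3) (nat_lit 40) (nat_lit 41) = true := by decide +kernel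
def p13_18_0_41 : pfC (piC [(nat_lit 38632330), (nat_lit 24534081), (nat_lit 15702173)] (nat_lit 20714735)) p13_18_0 (nat_lit 3) (nat_lit 41) (nat_lit 42) = true := by decide +kernel
def p13_18_0_42 : pfC (piC [(nat_lit 38632330), (nat_lit 24534081), (nat_lit 15702173)] (nat_lit 20714735)) p13_18_0 (nat_lit 3) (nat_lit 42) (nat_lit 43) = true := by decide +kernel
def p13_18_0_43 : pfC (piC [(nat_lit 38632330), (nat_lit 24534081), (nat_lit 15702173)] (nat_lit 20714735)) p13_18_0 (nat_lit 3) (nat_lit 43) (nat_lit 44) = true := by decide +kernel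
def p13_18_0_44 : pfC (piC [(nat_lit 38632330), (nat_lit 24534081), (nat_lit 15702173)] (nat_lit 20714735)) p13_18_0 (nat_lit 3) (nat_lit 44) (nat_lit 45) = true := by decide +kernel
def p13_18_0_45 : pfC (piC [(nat_lit 38632330), (nat_lit 24534081), (nat_lit 15702173)] (nat_lit 20714735)) p13_18_0 (nat_lit 3) (nat_lit 45) (nat_lit 46) = true := by decide +kernel
def p13_18_0_46 : pfC (piC [(nat_lit 38632330), (nat_lit 24534081), (nat_lit 15702173)] (nat_lit 20714735)) p13_18_0 (nat_lit 3) (nat_lit 46) (nat_lit 47) = true := by decide +kernel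
def p13_18_0_47 : pfC (piC [(nat_lit 38632330), (nat_lit 24534081), (nat_lit 15702173)] (nat_lit 20714735)) p13_18_0 (nat_lit 3) (nat_lit 47) (nat_lit 48) = true := by decide +kernel
def p13_18_0_48 : pfC (piC [(nat_lit 38632330), (nat_lit 24534081), (nat_lit 15702173)] (nat_lit 20714735)) p13_18_0 (nat_lit 3) (nat_lit 48) (nat_lit 49) = true := by decide +kernel
def p13_18_0_49 : pfC (piC [(nat_lit 38632330), (nat_lit 24534081), (nat_lit 15702173)] (nat_lit 20714735)) p13_18_0 (nat_lit 3) (nat_lit 49) (nat_lit 50) = true := by decide +kernel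
def p13_18_0_50 : pfC (piC [(nat_lit 38632330), (nat_lit 24534081), (nat_lit 15702173)] (nat_lit 20714735)) p13_18_0 (nat_lit 3) (nat_lit 50) (nat_lit 51) = true := by decide +kernel
def p13_18_0_51 : pfC (piC [(nat_lit 38632330), (nat_lit 24534081), (nat_lit 15702173)] (nat_lit 20714735)) p13_18_0 (nat_lit 3) (nat_lit 51) (nat_lit 52) = true := by decide +kernel
def p13_18_0_52 : pfC (piC [(nat_lit 38632330), (nat_lit 24534081), (nat_lit 15702173)] (nat_lit 20714735)) p13_18_0 (nat_lit 3) (nat_lit 52) (nat_lit 53) = true := by decide +kernel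
def p13_18_0_53 : pfC (piC [(nat_lit 38632330), (nat_lit 24534081), (nat_lit 15702173)] (nat_lit 20714735)) p13_18_0 (nat_lit 3) (nat_lit 53) (nat_lit 54) = true := by decide +kernel
def p13_18_0_54 : pfC (piC [(nat_lit 38632330), (nat_lit 24534081), (nat_lit 15702173)] (nat_lit 20714735)) p13_18_0 (nat_lit 3) (nat_lit 54) (nat_lit 55) = true := by decide +kernel
def p13_18_0_55 : pfC (piC [(nat_lit 38632330), (nat_lit 24534081), (nat_lit 15702173)] (nat_lit 20714735)) p13_18_0 (nat_lit 3) (nat_lit 55) (nat_lit 56) = true := by decide +kernel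
def p13_18_0_56 : pfC (piC [(nat_lit 38632330), (nat_lit 24534081), (nat_lit 15702173)] (nat_lit 20714735)) p13_18_0 (nat_lit 3) (nat_lit 56) (nat_lit 57) = true := by decide +kernel
def p13_18_0_57 : pfC (piC [(nat_lit 38632330), (nat_lit 24534081), (nat_lit 15702173)] (nat_lit 20714735)) p13_18_0 (nat_lit 3) (nat_lit 57) (nat_lit 58) = true := by decide +kernel
def p13_18_0_58 : pfC (piC [(nat_lit 38632330), (nat_lit 24534081), (nat_lit 15702173)] (nat_lit 20714735)) p13_18_0 (nat_lit 3) (nat_lit 58) (nat_lit 59) = true := by decide +kernel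
def p13_18_0_59 : pfC (piC [(nat_lit 38632330), (nat_lit 24534081), (nat_lit 15702173)] (nat_lit 20714735)) p13_18_0 (nat_lit 3) (nat_lit 59) (nat_lit 60) = true := by decide +kernel
def p13_18_0_60 : pfC (piC [(nat_lit 38632330), (nat_lit 24534081), (nat_lit 15702173)] (nat_lit 20714735)) p13_18_0 (nat_lit 3) (nat_lit 60) (nat_lit 61) = true := by decide +kernel
def p13_18_0_61 : pfC (piC [(nat_lit 38632330), (nat_lit 24534081), (nat_lit 15702173)] (nat_lit 20714735)) p13_18_0 (nat_lit 3) (nat_lit 61) (nat_lit 62) = true := by decide +kernel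
def p13_18_0_62 : pfC (piC [(nat_lit 38632330), (nat_lit 24534081), (nat_lit 15702173)] (nat_lit 20714735)) p13_18_0 (nat_lit 3) (nat_lit 62) (nat_lit 63) = true := by decide +kernel
def p13_18_0_63 : pfC (piC [(nat_lit 38632330), (nat_lit 24534081), (nat_lit 15702173)] (nat_lit 20714735)) p13_18_0 (nat_lit 3) (nat_lit 63) (nat_lit 64) = true := by decide +kernel
def p13_18_0_64 : pfC (piC [(nat_lit 38632330), (nat_lit 24534081), (nat_lit 15702173)] (nat_lit 20714735)) p13_18_0 (nat_lit 3) (nat_lit 64) (nat_lit 65) = true := by decide +kernel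
def p13_18_0_65 : pfC (piC [(nat_lit 38632330), (nat_lit 24534081), (nat_lit 15702173)] (nat_lit 20714735)) p13_18_0 (nat_lit 3) (nat_lit 65) (nat_lit 66) = true := by decide +kernel
def p13_18_0_66 : pfC (piC [(nat_lit 38632330), (nat_lit 24534081), (nat_lit 15702173)] (nat_lit 20714735)) p13_18_0 (nat_lit 3) (nat_lit 66) (nat_lit 67) = true := by decide +kernel
def p13_18_0_67 : pfC (piC [(nat_lit 38632330), (nat_lit 24534081), (nat_lit 15702173)] (nat_lit 20714735)) p13_18_0 (nat_lit 3) (nat_lit 67) (nat_lit 68) = true := by decide +kernel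
def p13_18_0_68 : pfC (piC [(nat_lit 38632330), (nat_lit 24534081), (nat_lit 15702173)] (nat_lit 20714735)) p13_18_0 (nat_lit 3) (nat_lit 68) (nat_lit 69) = true := by decide +kernel
def p13_18_0_69 : pfC (piC [(nat_lit 38632330), (nat_lit 24534081), (nat_lit 15702173)] (nat_lit 20714735)) p13_18_0 (nat_lit 3) (nat_lit 69) (nat_lit 70) = true := by decide +kernel
def p13_18_0_70 : pfC (piC [(nat_lit 38632330), (nat_lit 24534081), (nat_lit 15702173)] (nat_lit 20714735)) p13_18_0 (nat_lit 3) (nat_lit 70) (nat_lit 71) = true := by decide +kernel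
def p13_18_0_71 : pfC (piC [(nat_lit 38632330), (nat_lit 24534081), (nat_lit 15702173)] (nat_lit 20714735)) p13_18_0 (nat_lit 3) (nat_lit 71) (nat_lit 72) = true := by decide +kernel
def p13_18_0_72 : pfC (piC [(nat_lit 38632330), (nat_lit 24534081), (nat_lit 15702173)] (nat_lit 20714735)) p13_18_0 (nat_lit 3) (nat_lit 72) (nat_lit 73) = true := by decide +kernel
def p13_18_0_73 : pfC (piC [(nat_lit 38632330), (nat_lit 24534081), (nat_lit 15702173)] (nat_lit 20714735)) p13_18_0 (nat_lit 3) (nat_lit 73) (nat_lit 74) = true := by decide +kernel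
def p13_18_0_74 : pfC (piC [(nat_lit 38632330), (nat_lit 24534081), (nat_lit 15702173)] (nat_lit 20714735)) p13_18_0 (nat_lit 3) (nat_lit 74) (nat_lit 75) = true := by decide +kernel
def p13_18_0_75 : pfC (piC [(nat_lit 38632330), (nat_lit 24534081), (nat_lit 15702173)] (nat_lit 20714735)) p13_18_0 (nat_lit 3) (nat_lit 75) (nat_lit 76) = true := by decide +kernel
def p13_18_0_76 : pfC (piC [(nat_lit 38632330), (nat_lit 24534081), (nat_lit 15702173)] (nat_lit 20714735)) p13_18_0 (nat_lit 3) (nat_lit 76) (nat_lit 77) = true := by decide +kernel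
def p13_18_0_77 : pfC (piC [(nat_lit 38632330), (nat_lit 24534081), (nat_lit 15702173)] (nat_lit 20714735)) p13_18_0 (nat_lit 3) (nat_lit 77) (nat_lit 78) = true := by decide +kernel
def p13_18_0_78 : pfC (piC [(nat_lit 38632330), (nat_lit 24534081), (nat_lit 15702173)] (nat_lit 20714735)) p13_18_0 (nat_lit 3) (nat_lit 78) (nat_lit 79) = true := by decide +kernel
def p13_18_0_79 : pfC (piC [(nat_lit 38632330), (nat_lit 24534081), (nat_lit 15702173)] (nat_lit 20714735)) p13_18_0 (nat_lit 3) (nat_lit 79) (nat_lit 80) = true := by decide +kernel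
def p13_18_0_80 : pfC (piC [(nat_lit 38632330), (nat_lit 24534081), (nat_lit 15702173)] (nat_lit 20714735)) p13_18_0 (nat_lit 3) (nat_lit 80) (nat_lit 81) = true := by decide +kernel
def p13_18_0_81 : pfC (piC [(nat_lit 38632330), (nat_lit 24534081), (nat_lit 15702173)] (nat_lit 20714735)) p13_18_0 (nat_lit 3) (nat_lit 81) (nat_lit 82) = true := by decide +kernel
def p13_18_0_82 : pfC (piC [(nat_lit 38632330), (nat_lit 24534081), (nat_lit 15702173)] (nat_lit 20714735)) p13_18_0 (nat_lit 3) (nat_lit 82) (nat_lit 83) = true := by decide +kernel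
def p13_18_0_83 : pfC (piC [(nat_lit 38632330), (nat_lit 24534081), (nat_lit 15702173)] (nat_lit 20714735)) p13_18_0 (nat_lit 3) (nat_lit 83) (nat_lit 84) = true := by decide +kernel
def p13_18_0_84 : pfC (piC [(nat_lit 38632330), (nat_lit 24534081), (nat_lit 15702173)] (nat_lit 20714735)) p13_18_0 (nat_lit 3) (nat_lit 84) (nat_lit 85) = true := by decide +kernel
def p13_18_0_85 : pfC (piC [(nat_lit 38632330), (nat_lit 24534081), (nat_lit 15702173)] (nat_lit 20714735)) p13_18_0 (nat_lit 3) (nat_lit 85) (nat_lit 86) = true := by decide +kernel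
def p13_18_0_86 : pfC (piC [(nat_lit 38632330), (nat_lit 24534081), (nat_lit 15702173)] (nat_lit 20714735)) p13_18_0 (nat_lit 3) (nat_lit 86) (nat_lit 87) = true := by decide +kernel
def p13_18_0_87 : pfC (piC [(nat_lit 38632330), (nat_lit 24534081), (nat_lit 15702173)] (nat_lit 20714735)) p13_18_0 (nat_lit 3) (nat_lit 87) (nat_lit 88) = true := by decide +kernel
def p13_18_0_88 : pfC (piC [(nat_lit 38632330), (nat_lit 24534081), (nat_lit 15702173)] (nat_lit 20714735)) p13_18_0 (nat_lit 3) (nat_lit 88) (nat_lit 89) = true := by decide +kernel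
def p13_18_0_89 : pfC (piC [(nat_lit 38632330), (nat_lit 24534081), (nat_lit 15702173)] (nat_lit 20714735)) p13_18_0 (nat_lit 3) (nat_lit 89) (nat_lit 90) = true := by decide +kernel
def p13_18_0_90 : pfC (piC [(nat_lit 38632330), (nat_lit 24534081), (nat_lit 15702173)] (nat_lit 20714735)) p13_18_0 (nat_lit 3) (nat_lit 90) (nat_lit 91) = true := by decide +kernel
def p13_18_0_91 : pfC (piC [(nat_lit 38632330), (nat_lit 24534081), (nat_lit 15702173)] (nat_lit 20714735)) p13_18_0 (nat_lit 3) (nat_lit 91) (nat_lit 92) = true := by decide +kernel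
def p13_18_0_92 : pfC (piC [(nat_lit 38632330), (nat_lit 24534081), (nat_lit 15702173)] (nat_lit 20714735)) p13_18_0 (nat_lit 3) (nat_lit 92) (nat_lit 93) = true := by decide +kernel
def p13_18_0_93 : pfC (piC [(nat_lit 38632330), (nat_lit 24534081), (nat_lit 15702173)] (nat_lit 20714735)) p13_18_0 (nat_lit 3) (nat_lit 93) (nat_lit 94) = true := by decide +kernel
def p13_18_0_94 : pfC (piC [(nat_lit 38632330), (nat_lit 24534081), (nat_lit 15702173)] (nat_lit 20714735)) p13_18_0 (nat_lit 3) (nat_lit 94) (nat_lit 95) = true := by decide +kernel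
def p13_18_0_95 : pfC (piC [(nat_lit 38632330), (nat_lit 24534081), (nat_lit 15702173)] (nat_lit 20714735)) p13_18_0 (nat_lit 3) (nat_lit 95) (nat_lit 96) = true := by decide +kernel
def p13_18_0_96 : pfC (piC [(nat_lit 38632330), (nat_lit 24534081), (nat_lit 15702173)] (nat_lit 20714735)) p13_18_0 (nat_lit 3) (nat_lit 96) (nat_lit 97) = true := by decide +kernel
def p13_18_0_97 : pfC (piC [(nat_lit 38632330), (nat_lit 24534081), (nat_lit 15702173)] (nat_lit 20714735)) p13_18_0 (nat_lit 3) (nat_lit 97) (nat_lit 98) = true := by decide +kernel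
def p13_18_0_98 : pfC (piC [(nat_lit 38632330), (nat_lit 24534081), (nat_lit 15702173)] (nat_lit 20714735)) p13_18_0 (nat_lit 3) (nat_lit 98) (nat_lit 99) = true := by decide +kernel
def p13_18_0_99 : pfC (piC [(nat_lit 38632330), (nat_lit 24534081), (nat_lit 15702173)] (nat_lit 20714735)) p13_18_0 (nat_lit 3) (nat_lit 99) (nat_lit 100) = true := by decide +kernel
def p13_18_0_100 : pfC (piC [(nat_lit 38632330), (nat_lit 24534081), (nat_lit 15702173)] (nat_lit 20714735)) p13_18_0 (nat_lit 3) (nat_lit 100) (nat_lit 101) = true := by decide +kernel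
def p13_18_0_101 : pfC (piC [(nat_lit 38632330), (nat_lit 24534081), (nat_lit 15702173)] (nat_lit 20714735)) p13_18_0 (nat_lit 3) (nat_lit 101) (nat_lit 102) = true := by decide +kernel
def p13_18_0_102 : pfC (piC [(nat_lit 38632330), (nat_lit 24534081), (nat_lit 15702173)] (nat_lit 20714735)) p13_18_0 (nat_lit 3) (nat_lit 102) (nat_lit 103) = true := by decide +kernel
def p13_18_0_103 : pfC (piC [(nat_lit 38632330), (nat_lit 24534081), (nat_lit 15702173)] (nat_lit 20714735)) p13_18_0 (nat_lit 3) (nat_lit 103) (nat_lit 104) = true := by decide +kernel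
def p13_18_0_104 : pfC (piC [(nat_lit 38632330), (nat_lit 24534081), (nat_lit 15702173)] (nat_lit 20714735)) p13_18_0 (nat_lit 3) (nat_lit 104) (nat_lit 105) = true := by decide +kernel
def p13_18_0_105 : pfC (piC [(nat_lit 38632330), (nat_lit 24534081), (nat_lit 15702173)] (nat_lit 20714735)) p13_18_0 (nat_lit 3) (nat_lit 105) (nat_lit 106) = true := by decide +kernel
def p13_18_0_106 : pfC (piC [(nat_lit 38632330), (nat_lit 24534081), (nat_lit 15702173)] (nat_lit 20714735)) p13_18_0 (nat_lit 3) (nat_lit 106) (nat_lit 107) = true := by decide +kernel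
def p13_18_0_107 : pfC (piC [(nat_lit 38632330), (nat_lit 24534081), (nat_lit 15702173)] (nat_lit 20714735)) p13_18_0 (nat_lit 3) (nat_lit 107) (nat_lit 108) = true := by decide +kernel
def p13_18_0_108 : pfC (piC [(nat_lit 38632330), (nat_lit 24534081), (nat_lit 15702173)] (nat_lit 20714735)) p13_18_0 (nat_lit 3) (nat_lit 108) (nat_lit 109) = true := by decide +kernel
def p13_18_0_109 : pfC (piC [(nat_lit 38632330), (nat_lit 24534081), (nat_lit 15702173)] (nat_lit 20714735)) p13_18_0 (nat_lit 3) (nat_lit 109) (nat_lit 110) = true := by decide +kernel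
def p13_18_0_110 : pfC (piC [(nat_lit 38632330), (nat_lit 24534081), (nat_lit 15702173)] (nat_lit 20714735)) p13_18_0 (nat_lit 3) (nat_lit 110) (nat_lit 111) = true := by decide +kernel
def p13_18_0_111 : pfC (piC [(nat_lit 38632330), (nat_lit 24534081), (nat_lit 15702173)] (nat_lit 20714735)) p13_18_0 (nat_lit 3) (nat_lit 111) (nat_lit 112) = true := by decide +kernel
def p13_18_0_112 : pfC (piC [(nat_lit 38632330), (nat_lit 24534081), (nat_lit 15702173)] (nat_lit 20714735)) p13_18_0 (nat_lit 3) (nat_lit 112) (nat_lit 113) = true := by decide +kernel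
def p13_18_0_113 : pfC (piC [(nat_lit 38632330), (nat_lit 24534081), (nat_lit 15702173)] (nat_lit 20714735)) p13_18_0 (nat_lit 3) (nat_lit 113) (nat_lit 114) = true := by decide +kernel
def p13_18_0_114 : pfC (piC [(nat_lit 38632330), (nat_lit 24534081), (nat_lit 15702173)] (nat_lit 20714735)) p13_18_0 (nat_lit 3) (nat_lit 114) (nat_lit 115) = true := by decide +kernel
def p13_18_0_115 : pfC (piC [(nat_lit 38632330), (nat_lit 24534081), (nat_lit 15702173)] (nat_lit 20714735)) p13_18_0 (nat_lit 3) (nat_lit 115) (nat_lit 116) = true := by decide +kernel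
def p13_18_0_116 : pfC (piC [(nat_lit 38632330), (nat_lit 24534081), (nat_lit 15702173)] (nat_lit 20714735)) p13_18_0 (nat_lit 3) (nat_lit 116) (nat_lit 117) = true := by decide +kernel
def p13_18_0_117 : pfC (piC [(nat_lit 38632330), (nat_lit 24534081), (nat_lit 15702173)] (nat_lit 20714735)) p13_18_0 (nat_lit 3) (nat_lit 117) (nat_lit 118) = true := by decide +kernel
def p13_18_0_118 : pfC (piC [(nat_lit 38632330), (nat_lit 24534081), (nat_lit 15702173)] (nat_lit 20714735)) p13_18_0 (nat_lit 3) (nat_lit 118) (nat_lit 119) = true := by decide +kernel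
def p13_18_0_119 : pfC (piC [(nat_lit 38632330), (nat_lit 24534081), (nat_lit 15702173)] (nat_lit 20714735)) p13_18_0 (nat_lit 3) (nat_lit 119) (nat_lit 120) = true := by decide +kernel
def p13_18_0_120 : pfC (piC [(nat_lit 38632330), (nat_lit 24534081), (nat_lit 15702173)] (nat_lit 20714735)) p13_18_0 (nat_lit 3) (nat_lit 120) (nat_lit 121) = true := by decide +kernel
def p13_18_0_121 : pfC (piC [(nat_lit 38632330), (nat_lit 24534081), (nat_lit 15702173)] (nat_lit 20714735)) p13_18_0 (nat_lit 3) (nat_lit 121) (nat_lit 122) = true := by decide +kernel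
def p13_18_0_122 : pfC (piC [(nat_lit 38632330), (nat_lit 24534081), (nat_lit 15702173)] (nat_lit 20714735)) p13_18_0 (nat_lit 3) (nat_lit 122) (nat_lit 123) = true := by decide +kernel
def p13_18_0_123 : pfC (piC [(nat_lit 38632330), (nat_lit 24534081), (nat_lit 15702173)] (nat_lit 20714735)) p13_18_0 (nat_lit 3) (nat_lit 123) (nat_lit 124) = true := by decide +kernel
def p13_18_0_124 : pfC (piC [(nat_lit 38632330), (nat_lit 24534081), (nat_lit 15702173)] (nat_lit 20714735)) p13_18_0 (nat_lit 3) (nat_lit 124) (nat_lit 125) = true := by decide +kernel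
def p13_18_0_125 : pfC (piC [(nat_lit 38632330), (nat_lit 24534081), (nat_lit 15702173)] (nat_lit 20714735)) p13_18_0 (nat_lit 3) (nat_lit 125) (nat_lit 126) = true := by decide +kernel
def p13_18_0_126 : pfC (piC [(nat_lit 38632330), (nat_lit 24534081), (nat_lit 15702173)] (nat_lit 20714735)) p13_18_0 (nat_lit 3) (nat_lit 126) (nat_lit 127) = true := by decide +kernel
def p13_18_0_127 : pfC (piC [(nat_lit 38632330), (nat_lit 24534081), (nat_lit 15702173)] (nat_lit 20714735)) p13_18_0 (nat_lit 3) (nat_lit 127) (nat_lit 128) = true := by decide +kernel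
def p13_18_0_128 : pfC (piC [(nat_lit 38632330), (nat_lit 24534081), (nat_lit 15702173)] (nat_lit 20714735)) p13_18_0 (nat_lit 3) (nat_lit 128) (nat_lit 129) = true := by decide +kernel
def p13_18_0_129 : pfC (piC [(nat_lit 38632330), (nat_lit 24534081), (nat_lit 15702173)] (nat_lit 20714735)) p13_18_0 (nat_lit 3) (nat_lit 129) (nat_lit 130) = true := by decide +kernel
def p13_18_0_130 : pfC (piC [(nat_lit 38632330), (nat_lit 24534081), (nat_lit 15702173)] (nat_lit 20714735)) p13_18_0 (nat_lit 3) (nat_lit 130) (nat_lit 131) = true := by decide +kernel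
def p13_18_0_131 : pfC (piC [(nat_lit 38632330), (nat_lit 24534081), (nat_lit 15702173)] (nat_lit 20714735)) p13_18_0 (nat_lit 3) (nat_lit 131) (nat_lit 132) = true := by decide +kernel
def p13_18_0_132 : pfC (piC [(nat_lit 38632330), (nat_lit 24534081), (nat_lit 15702173)] (nat_lit 20714735)) p13_18_0 (nat_lit 3) (nat_lit 132) (nat_lit 133) = true := by decide +kernel
def p13_18_0_133 : pfC (piC [(nat_lit 38632330), (nat_lit 24534081), (nat_lit 15702173)] (nat_lit 20714735)) p13_18_0 (nat_lit 3) (nat_lit 133) (nat_lit 134) = true := by decide +kernel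
def p13_18_0_134 : pfC (piC [(nat_lit 38632330), (nat_lit 24534081), (nat_lit 15702173)] (nat_lit 20714735)) p13_18_0 (nat_lit 3) (nat_lit 134) (nat_lit 135) = true := by decide +kernel
def p13_18_0_135 : pfC (piC [(nat_lit 38632330), (nat_lit 24534081), (nat_lit 15702173)] (nat_lit 20714735)) p13_18_0 (nat_lit 3) (nat_lit 135) (nat_lit 136) = true := by decide +kernel
def p13_18_0_136 : pfC (piC [(nat_lit 38632330), (nat_lit 24534081), (nat_lit 15702173)] (nat_lit 20714735)) p13_18_0 (nat_lit 3) (nat_lit 136) (nat_lit 137) = true := by decide +kernel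
def p13_18_0_137 : pfC (piC [(nat_lit 38632330), (nat_lit 24534081), (nat_lit 15702173)] (nat_lit 20714735)) p13_18_0 (nat_lit 3) (nat_lit 137) (nat_lit 138) = true := by decide +kernel
def p13_18_0_138 : pfC (piC [(nat_lit 38632330), (nat_lit 24534081), (nat_lit 15702173)] (nat_lit 20714735)) p13_18_0 (nat_lit 3) (nat_lit 138) (nat_lit 139) = true := by decide +kernel
def p13_18_0_139 : pfC (piC [(nat_lit 38632330), (nat_lit 24534081), (nat_lit 15702173)] (nat_lit 20714735)) p13_18_0 (nat_lit 3) (nat_lit 139) (nat_lit 140) = true := by decide +kernel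
def p13_18_0_140 : pfC (piC [(nat_lit 38632330), (nat_lit 24534081), (nat_lit 15702173)] (nat_lit 20714735)) p13_18_0 (nat_lit 3) (nat_lit 140) (nat_lit 141) = true := by decide +kernel
def p13_18_0_141 : pfC (piC [(nat_lit 38632330), (nat_lit 24534081), (nat_lit 15702173)] (nat_lit 20714735)) p13_18_0 (nat_lit 3) (nat_lit 141) (nat_lit 142) = true := by decide +kernel
def p13_18_0_142 : pfC (piC [(nat_lit 38632330), (nat_lit 24534081), (nat_lit 15702173)] (nat_lit 20714735)) p13_18_0 (nat_lit 3) (nat_lit 142) (nat_lit 143) = true := by decide +kernel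
def p13_18_0_143 : pfC (piC [(nat_lit 38632330), (nat_lit 24534081), (nat_lit 15702173)] (nat_lit 20714735)) p13_18_0 (nat_lit 3) (nat_lit 143) (nat_lit 144) = true := by decide +kernel
def p13_18_0_144 : pfC (piC [(nat_lit 38632330), (nat_lit 24534081), (nat_lit 15702173)] (nat_lit 20714735)) p13_18_0 (nat_lit 3) (nat_lit 144) (nat_lit 145) = true := by decide +kernel
def p13_18_0_145 : pfC (piC [(nat_lit 38632330), (nat_lit 24534081), (nat_lit 15702173)] (nat_lit 20714735)) p13_18_0 (nat_lit 3) (nat_lit 145) (nat_lit 146) = true := by decide +kernel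
def p13_18_0_146 : pfC (piC [(nat_lit 38632330), (nat_lit 24534081), (nat_lit 15702173)] (nat_lit 20714735)) p13_18_0 (nat_lit 3) (nat_lit 146) (nat_lit 147) = true := by decide +kernel
def p13_18_0_147 : pfC (piC [(nat_lit 38632330), (nat_lit 24534081), (nat_lit 15702173)] (nat_lit 20714735)) p13_18_0 (nat_lit 3) (nat_lit 147) (nat_lit 148) = true := by decide +kernel
def p13_18_0_148 : pfC (piC [(nat_lit 38632330), (nat_lit 24534081), (nat_lit 15702173)] (nat_lit 20714735)) p13_18_0 (nat_lit 3) (nat_lit 148) (nat_lit 149) = true := by decide +kernel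
def p13_18_0_149 : pfC (piC [(nat_lit 38632330), (nat_lit 24534081), (nat_lit 15702173)] (nat_lit 20714735)) p13_18_0 (nat_lit 3) (nat_lit 149) (nat_lit 150) = true := by decide +kernel
def p13_18_0_150 : pfC (piC [(nat_lit 38632330), (nat_lit 24534081), (nat_lit 15702173)] (nat_lit 20714735)) p13_18_0 (nat_lit 3) (nat_lit 150) (nat_lit 151) = true := by decide +kernel
def p13_18_0_151 : pfC (piC [(nat_lit 38632330), (nat_lit 24534081), (nat_lit 15702173)] (nat_lit 20714735)) p13_18_0 (nat_lit 3) (nat_lit 151) (nat_lit 152) = true := by decide +kernel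
def p13_18_0_152 : pfC (piC [(nat_lit 38632330), (nat_lit 24534081), (nat_lit 15702173)] (nat_lit 20714735)) p13_18_0 (nat_lit 3) (nat_lit 152) (nat_lit 153) = true := by decide +kernel
def p13_18_0_153 : pfC (piC [(nat_lit 38632330), (nat_lit 24534081), (nat_lit 15702173)] (nat_lit 20714735)) p13_18_0 (nat_lit 3) (nat_lit 153) (nat_lit 154) = true := by decide +kernel
def p13_18_0_154 : pfC (piC [(nat_lit 38632330), (nat_lit 24534081), (nat_lit 15702173)] (nat_lit 20714735)) p13_18_0 (nat_lit 3) (nat_lit 154) (nat_lit 155) = true := by decide +kernel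
def p13_18_0_155 : pfC (piC [(nat_lit 38632330), (nat_lit 24534081), (nat_lit 15702173)] (nat_lit 20714735)) p13_18_0 (nat_lit 3) (nat_lit 155) (nat_lit 156) = true := by decide +kernel
def p13_18_0_156 : pfC (piC [(nat_lit 38632330), (nat_lit 24534081), (nat_lit 15702173)] (nat_lit 20714735)) p13_18_0 (nat_lit 3) (nat_lit 156) (nat_lit 157) = true := by decide +kernel
def p13_18_0_157 : pfC (piC [(nat_lit 38632330), (nat_lit 24534081), (nat_lit 15702173)] (nat_lit 20714735)) p13_18_0 (nat_lit 3) (nat_lit 157) (nat_lit 158) = true := by decide +kernel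
def p13_18_0_158 : pfC (piC [(nat_lit 38632330), (nat_lit 24534081), (nat_lit 15702173)] (nat_lit 20714735)) p13_18_0 (nat_lit 3) (nat_lit 158) (nat_lit 159) = true := by decide +kernel
def p13_18_0_159 : pfC (piC [(nat_lit 38632330), (nat_lit 24534081), (nat_lit 15702173)] (nat_lit 20714735)) p13_18_0 (nat_lit 3) (nat_lit 159) (nat_lit 160) = true := by decide +kernel
def p13_18_0_160 : pfC (piC [(nat_lit 38632330), (nat_lit 24534081), (nat_lit 15702173)] (nat_lit 20714735)) p13_18_0 (nat_lit 3) (nat_lit 160) (nat_lit 161) = true := by decide +kernel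
def p13_18_0_161 : pfC (piC [(nat_lit 38632330), (nat_lit 24534081), (nat_lit 15702173)] (nat_lit 20714735)) p13_18_0 (nat_lit 3) (nat_lit 161) (nat_lit 162) = true := by decide +kernel
def p13_18_0_162 : pfC (piC [(nat_lit 38632330), (nat_lit 24534081), (nat_lit 15702173)] (nat_lit 20714735)) p13_18_0 (nat_lit 3) (nat_lit 162) (nat_lit 163) = true := by decide +kernel
def p13_18_0_163 : pfC (piC [(nat_lit 38632330), (nat_lit 24534081), (nat_lit 15702173)] (nat_lit 20714735)) p13_18_0 (nat_lit 3) (nat_lit 163) (nat_lit 164) = true := by decide +kernel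
def p13_18_0_164 : pfC (piC [(nat_lit 38632330), (nat_lit 24534081), (nat_lit 15702173)] (nat_lit 20714735)) p13_18_0 (nat_lit 3) (nat_lit 164) (nat_lit 165) = true := by decide +kernel
def p13_18_0_165 : pfC (piC [(nat_lit 38632330), (nat_lit 24534081), (nat_lit 15702173)] (nat_lit 20714735)) p13_18_0 (nat_lit 3) (nat_lit 165) (nat_lit 166) = true := by decide +kernel
def p13_18_0_166 : pfC (piC [(nat_lit 38632330), (nat_lit 24534081), (nat_lit 15702173)] (nat_lit 20714735)) p13_18_0 (nat_lit 3) (nat_lit 166) (nat_lit 167) = true := by decide +kernel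
def p13_18_0_167 : pfC (piC [(nat_lit 38632330), (nat_lit 24534081), (nat_lit 15702173)] (nat_lit 20714735)) p13_18_0 (nat_lit 3) (nat_lit 167) (nat_lit 168) = true := by decide +kernel
def p13_18_0_168 : pfC (piC [(nat_lit 38632330), (nat_lit 24534081), (nat_lit 15702173)] (nat_lit 20714735)) p13_18_0 (nat_lit 3) (nat_lit 168) (nat_lit 169) = true := by decide +kernel
def p13_18_0_169 : pfC (piC [(nat_lit 38632330), (nat_lit 24534081), (nat_lit 15702173)] (nat_lit 20714735)) p13_18_0 (nat_lit 3) (nat_lit 169) (nat_lit 170) = true := by decide +kernel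
def p13_18_0_170 : pfC (piC [(nat_lit 38632330), (nat_lit 24534081), (nat_lit 15702173)] (nat_lit 20714735)) p13_18_0 (nat_lit 3) (nat_lit 170) (nat_lit 171) = true := by decide +kernel
def p13_18_0_171 : pfC (piC [(nat_lit 38632330), (nat_lit 24534081), (nat_lit 15702173)] (nat_lit 20714735)) p13_18_0 (nat_lit 3) (nat_lit 171) (nat_lit 172) = true := by decide +kernel
def p13_18_0_172 : pfC (piC [(nat_lit 38632330), (nat_lit 24534081), (nat_lit 15702173)] (nat_lit 20714735)) p13_18_0 (nat_lit 3) (nat_lit 172) (nat_lit 173) = true := by decide +kernel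
def p13_18_0_173 : pfC (piC [(nat_lit 38632330), (nat_lit 24534081), (nat_lit 15702173)] (nat_lit 20714735)) p13_18_0 (nat_lit 3) (nat_lit 173) (nat_lit 174) = true := by decide +kernel
def p13_18_0_174 : pfC (piC [(nat_lit 38632330), (nat_lit 24534081), (nat_lit 15702173)] (nat_lit 20714735)) p13_18_0 (nat_lit 3) (nat_lit 174) (nat_lit 175) = true := by decide +kernel
def p13_18_0_175 : pfC (piC [(nat_lit 38632330), (nat_lit 24534081), (nat_lit 15702173)] (nat_lit 20714735)) p13_18_0 (nat_lit 3) (nat_lit 175) (nat_lit 176) = true := by decide +kernel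
def p13_18_0_176 : pfC (piC [(nat_lit 38632330), (nat_lit 24534081), (nat_lit 15702173)] (nat_lit 20714735)) p13_18_0 (nat_lit 3) (nat_lit 176) (nat_lit 177) = true := by decide +kernel
def p13_18_0_177 : pfC (piC [(nat_lit 38632330), (nat_lit 24534081), (nat_lit 15702173)] (nat_lit 20714735)) p13_18_0 (nat_lit 3) (nat_lit 177) (nat_lit 178) = true := by decide +kernel
def p13_18_0_178 : pfC (piC [(nat_lit 38632330), (nat_lit 24534081), (nat_lit 15702173)] (nat_lit 20714735)) p13_18_0 (nat_lit 3) (nat_lit 178) (nat_lit 179) = true := by decide +kernel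
def p13_18_0_179 : pfC (piC [(nat_lit 38632330), (nat_lit 24534081), (nat_lit 15702173)] (nat_lit 20714735)) p13_18_0 (nat_lit 3) (nat_lit 179) (nat_lit 180) = true := by decide +kernel
def p13_18_0_180 : pfC (piC [(nat_lit 38632330), (nat_lit 24534081), (nat_lit 15702173)] (nat_lit 20714735)) p13_18_0 (nat_lit 3) (nat_lit 180) (nat_lit 181) = true := by decide +kernel
def p13_18_0_181 : pfC (piC [(nat_lit 38632330), (nat_lit 24534081), (nat_lit 15702173)] (nat_lit 20714735)) p13_18_0 (nat_lit 3) (nat_lit 181) (nat_lit 182) = true := by decide +kernel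
def p13_18_0_182 : pfC (piC [(nat_lit 38632330), (nat_lit 24534081), (nat_lit 15702173)] (nat_lit 20714735)) p13_18_0 (nat_lit 3) (nat_lit 182) (nat_lit 183) = true := by decide +kernel
def p13_18_0_183 : pfC (piC [(nat_lit 38632330), (nat_lit 24534081), (nat_lit 15702173)] (nat_lit 20714735)) p13_18_0 (nat_lit 3) (nat_lit 183) (nat_lit 184) = true := by decide +kernel
def p13_18_0_184 : pfC (piC [(nat_lit 38632330), (nat_lit 24534081), (nat_lit 15702173)] (nat_lit 20714735)) p13_18_0 (nat_lit 3) (nat_lit 184) (nat_lit 185) = true := by decide +kernel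
def p13_18_0_185 : pfC (piC [(nat_lit 38632330), (nat_lit 24534081), (nat_lit 15702173)] (nat_lit 20714735)) p13_18_0 (nat_lit 3) (nat_lit 185) (nat_lit 186) = true := by decide +kernel
def p13_18_0_186 : pfC (piC [(nat_lit 38632330), (nat_lit 24534081), (nat_lit 15702173)] (nat_lit 20714735)) p13_18_0 (nat_lit 3) (nat_lit 186) (nat_lit 187) = true := by decide +kernel
def p13_18_0_187 : pfC (piC [(nat_lit 38632330), (nat_lit 24534081), (nat_lit 15702173)] (nat_lit 20714735)) p13_18_0 (nat_lit 3) (nat_lit 187) (nat_lit 188) = true := by decide +kernel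
def p13_18_0_188 : pfC (piC [(nat_lit 38632330), (nat_lit 24534081), (nat_lit 15702173)] (nat_lit 20714735)) p13_18_0 (nat_lit 3) (nat_lit 188) (nat_lit 189) = true := by decide +kernel
def p13_18_0_189 : pfC (piC [(nat_lit 38632330), (nat_lit 24534081), (nat_lit 15702173)] (nat_lit 20714735)) p13_18_0 (nat_lit 3) (nat_lit 189) (nat_lit 190) = true := by decide +kernel
def p13_18_0_190 : pfC (piC [(nat_lit 38632330), (nat_lit 24534081), (nat_lit 15702173)] (nat_lit 20714735)) p13_18_0 (nat_lit 3) (nat_lit 190) (nat_lit 191) = true := by decide +kernel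
def p13_18_0_191 : pfC (piC [(nat_lit 38632330), (nat_lit 24534081), (nat_lit 15702173)] (nat_lit 20714735)) p13_18_0 (nat_lit 3) (nat_lit 191) (nat_lit 192) = true := by decide +kernel
def p13_18_0_192 : pfC (piC [(nat_lit 38632330), (nat_lit 24534081), (nat_lit 15702173)] (nat_lit 20714735)) p13_18_0 (nat_lit 3) (nat_lit 192) (nat_lit 193) = true := by decide +kernel
def p13_18_0_193 : pfC (piC [(nat_lit 38632330), (nat_lit 24534081), (nat_lit 15702173)] (nat_lit 20714735)) p13_18_0 (nat_lit 3) (nat_lit 193) (nat_lit 194) = true := by decide +kernel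
def p13_18_0_194 : pfC (piC [(nat_lit 38632330), (nat_lit 24534081), (nat_lit 15702173)] (nat_lit 20714735)) p13_18_0 (nat_lit 3) (nat_lit 194) (nat_lit 195) = true := by decide +kernel
def p13_18_0_195 : pfC (piC [(nat_lit 38632330), (nat_lit 24534081), (nat_lit 15702173)] (nat_lit 20714735)) p13_18_0 (nat_lit 3) (nat_lit 195) (nat_lit 196) = true := by decide +kernel
def p13_18_0_196 : pfC (piC [(nat_lit 38632330), (nat_lit 24534081), (nat_lit 15702173)] (nat_lit 20714735)) p13_18_0 (nat_lit 3) (nat_lit 196) (nat_lit 197) = true := by decide +kernel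
def p13_18_0_197 : pfC (piC [(nat_lit 38632330), (nat_lit 24534081), (nat_lit 15702173)] (nat_lit 20714735)) p13_18_0 (nat_lit 3) (nat_lit 197) (nat_lit 198) = true := by decide +kernel
def p13_18_0_198 : pfC (piC [(nat_lit 38632330), (nat_lit 24534081), (nat_lit 15702173)] (nat_lit 20714735)) p13_18_0 (nat_lit 3) (nat_lit 198) (nat_lit 199) = true := by decide +kernel
def p13_18_0_199 : pfC (piC [(nat_lit 38632330), (nat_lit 24534081), (nat_lit 15702173)] (nat_lit 20714735)) p13_18_0 (nat_lit 3) (nat_lit 199) (nat_lit 200) = true := by decide +kernel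
def p13_18_0_200 : pfC (piC [(nat_lit 38632330), (nat_lit 24534081), (nat_lit 15702173)] (nat_lit 20714735)) p13_18_0 (nat_lit 3) (nat_lit 200) (nat_lit 201) = true := by decide +kernel
def p13_18_0_201 : pfC (piC [(nat_lit 38632330), (nat_lit 24534081), (nat_lit 15702173)] (nat_lit 20714735)) p13_18_0 (nat_lit 3) (nat_lit 201) (nat_lit 202) = true := by decide +kernel
def p13_18_0_202 : pfC (piC [(nat_lit 38632330), (nat_lit 24534081), (nat_lit 15702173)] (nat_lit 20714735)) p13_18_0 (nat_lit 3) (nat_lit 202) (nat_lit 203) = true := by decide +kernel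
def p13_18_0_203 : pfC (piC [(nat_lit 38632330), (nat_lit 24534081), (nat_lit 15702173)] (nat_lit 20714735)) p13_18_0 (nat_lit 3) (nat_lit 203) (nat_lit 204) = true := by decide +kernel
def p13_18_0_204 : pfC (piC [(nat_lit 38632330), (nat_lit 24534081), (nat_lit 15702173)] (nat_lit 20714735)) p13_18_0 (nat_lit 3) (nat_lit 204) (nat_lit 205) = true := by decide +kernel
def p13_18_0_205 : pfC (piC [(nat_lit 38632330), (nat_lit 24534081), (nat_lit 15702173)] (nat_lit 20714735)) p13_18_0 (nat_lit 3) (nat_lit 205) (nat_lit 206) = true := by decide +kernel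
def p13_18_0_206 : pfC (piC [(nat_lit 38632330), (nat_lit 24534081), (nat_lit 15702173)] (nat_lit 20714735)) p13_18_0 (nat_lit 3) (nat_lit 206) (nat_lit 207) = true := by decide +kernel
def p13_18_0_207 : pfC (piC [(nat_lit 38632330), (nat_lit 24534081), (nat_lit 15702173)] (nat_lit 20714735)) p13_18_0 (nat_lit 3) (nat_lit 207) (nat_lit 208) = true := by decide +kernel
def p13_18_0_208 : pfC (piC [(nat_lit 38632330), (nat_lit 24534081), (nat_lit 15702173)] (nat_lit 20714735)) p13_18_0 (nat_lit 3) (nat_lit 208) (nat_lit 209) = true := by decide +kernel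
def p13_18_0_209 : pfC (piC [(nat_lit 38632330), (nat_lit 24534081), (nat_lit 15702173)] (nat_lit 20714735)) p13_18_0 (nat_lit 3) (nat_lit 209) (nat_lit 210) = true := by decide +kernel
def p13_18_0_210 : pfC (piC [(nat_lit 38632330), (nat_lit 24534081), (nat_lit 15702173)] (nat_lit 20714735)) p13_18_0 (nat_lit 3) (nat_lit 210) (nat_lit 211) = true := by decide +kernel
def p13_18_0_211 : pfC (piC [(nat_lit 38632330), (nat_lit 24534081), (nat_lit 15702173)] (nat_lit 20714735)) p13_18_0 (nat_lit 3) (nat_lit 211) (nat_lit 212) = true := by decide +kernel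
def p13_18_0_212 : pfC (piC [(nat_lit 38632330), (nat_lit 24534081), (nat_lit 15702173)] (nat_lit 20714735)) p13_18_0 (nat_lit 3) (nat_lit 212) (nat_lit 213) = true := by decide +kernel
def p13_18_0_213 : pfC (piC [(nat_lit 38632330), (nat_lit 24534081), (nat_lit 15702173)] (nat_lit 20714735)) p13_18_0 (nat_lit 3) (nat_lit 213) (nat_lit 214) = true := by decide +kernel
def p13_18_0_214 : pfC (piC [(nat_lit 38632330), (nat_lit 24534081), (nat_lit 15702173)] (nat_lit 20714735)) p13_18_0 (nat_lit 3) (nat_lit 214) (nat_lit 215) = true := by decide +kernel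
def p13_18_0_215 : pfC (piC [(nat_lit 38632330), (nat_lit 24534081), (nat_lit 15702173)] (nat_lit 20714735)) p13_18_0 (nat_lit 3) (nat_lit 215) (nat_lit 216) = true := by decide +kernel
def p13_18_0_216 : pfC (piC [(nat_lit 38632330), (nat_lit 24534081), (nat_lit 15702173)] (nat_lit 20714735)) p13_18_0 (nat_lit 3) (nat_lit 216) (nat_lit 217) = true := by decide +kernel
def p13_18_0_217 : pfC (piC [(nat_lit 38632330), (nat_lit 24534081), (nat_lit 15702173)] (nat_lit 20714735)) p13_18_0 (nat_lit 3) (nat_lit 217) (nat_lit 218) = true := by decide +kernel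
def p13_18_0_218 : pfC (piC [(nat_lit 38632330), (nat_lit 24534081), (nat_lit 15702173)] (nat_lit 20714735)) p13_18_0 (nat_lit 3) (nat_lit 218) (nat_lit 219) = true := by decide +kernel
def p13_18_0_219 : pfC (piC [(nat_lit 38632330), (nat_lit 24534081), (nat_lit 15702173)] (nat_lit 20714735)) p13_18_0 (nat_lit 3) (nat_lit 219) (nat_lit 220) = true := by decide +kernel
def p13_18_0_220 : pfC (piC [(nat_lit 38632330), (nat_lit 24534081), (nat_lit 15702173)] (nat_lit 20714735)) p13_18_0 (nat_lit 3) (nat_lit 220) (nat_lit 221) = true := by decide +kernel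
def p13_18_0_221 : pfC (piC [(nat_lit 38632330), (nat_lit 24534081), (nat_lit 15702173)] (nat_lit 20714735)) p13_18_0 (nat_lit 3) (nat_lit 221) (nat_lit 222) = true := by decide +kernel
def p13_18_0_222 : pfC (piC [(nat_lit 38632330), (nat_lit 24534081), (nat_lit 15702173)] (nat_lit 20714735)) p13_18_0 (nat_lit 3) (nat_lit 222) (nat_lit 223) = true := by decide +kernel
def p13_18_0_223 : pfC (piC [(nat_lit 38632330), (nat_lit 24534081), (nat_lit 15702173)] (nat_lit 20714735)) p13_18_0 (nat_lit 3) (nat_lit 223) (nat_lit 224) = true := by decide +kernel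
def p13_18_0_224 : pfC (piC [(nat_lit 38632330), (nat_lit 24534081), (nat_lit 15702173)] (nat_lit 20714735)) p13_18_0 (nat_lit 3) (nat_lit 224) (nat_lit 225) = true := by decide +kernel
def p13_18_0_225 : pfC (piC [(nat_lit 38632330), (nat_lit 24534081), (nat_lit 15702173)] (nat_lit 20714735)) p13_18_0 (nat_lit 3) (nat_lit 225) (nat_lit 226) = true := by decide +kernel
def p13_18_0_226 : pfC (piC [(nat_lit 38632330), (nat_lit 24534081), (nat_lit 15702173)] (nat_lit 20714735)) p13_18_0 (nat_lit 3) (nat_lit 226) (nat_lit 227) = true := by decide +kernel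
def p13_18_0_227 : pfC (piC [(nat_lit 38632330), (nat_lit 24534081), (nat_lit 15702173)] (nat_lit 20714735)) p13_18_0 (nat_lit 3) (nat_lit 227) (nat_lit 228) = true := by decide +kernel
def p13_18_0_228 : pfC (piC [(nat_lit 38632330), (nat_lit 24534081), (nat_lit 15702173)] (nat_lit 20714735)) p13_18_0 (nat_lit 3) (nat_lit 228) (nat_lit 229) = true := by decide +kernel
def p13_18_0_229 : pfC (piC [(nat_lit 38632330), (nat_lit 24534081), (nat_lit 15702173)] (nat_lit 20714735)) p13_18_0 (nat_lit 3) (nat_lit 229) (nat_lit 230) = true := by decide +kernel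
def p13_18_0_230 : pfC (piC [(nat_lit 38632330), (nat_lit 24534081), (nat_lit 15702173)] (nat_lit 20714735)) p13_18_0 (nat_lit 3) (nat_lit 230) (nat_lit 231) = true := by decide +kernel
def p13_18_0_231 : pfC (piC [(nat_lit 38632330), (nat_lit 24534081), (nat_lit 15702173)] (nat_lit 20714735)) p13_18_0 (nat_lit 3) (nat_lit 231) (nat_lit 232) = true := by decide +kernel
def p13_18_0_232 : pfC (piC [(nat_lit 38632330), (nat_lit 24534081), (nat_lit 15702173)] (nat_lit 20714735)) p13_18_0 (nat_lit 3) (nat_lit 232) (nat_lit 233) = true := by decide +kernel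
def p13_18_0_233 : pfC (piC [(nat_lit 38632330), (nat_lit 24534081), (nat_lit 15702173)] (nat_lit 20714735)) p13_18_0 (nat_lit 3) (nat_lit 233) (nat_lit 234) = true := by decide +kernel
def p13_18_0_234 : pfC (piC [(nat_lit 38632330), (nat_lit 24534081), (nat_lit 15702173)] (nat_lit 20714735)) p13_18_0 (nat_lit 3) (nat_lit 234) (nat_lit 235) = true := by decide +kernel
def p13_18_0_235 : pfC (piC [(nat_lit 38632330), (nat_lit 24534081), (nat_lit 15702173)] (nat_lit 20714735)) p13_18_0 (nat_lit 3) (nat_lit 235) (nat_lit 236) = true := by decide +kernel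
def p13_18_0_236 : pfC (piC [(nat_lit 38632330), (nat_lit 24534081), (nat_lit 15702173)] (nat_lit 20714735)) p13_18_0 (nat_lit 3) (nat_lit 236) (nat_lit 237) = true := by decide +kernel
def p13_18_0_237 : pfC (piC [(nat_lit 38632330), (nat_lit 24534081), (nat_lit 15702173)] (nat_lit 20714735)) p13_18_0 (nat_lit 3) (nat_lit 237) (nat_lit 238) = true := by decide +kernel
def p13_18_0_238 : pfC (piC [(nat_lit 38632330), (nat_lit 24534081), (nat_lit 15702173)] (nat_lit 20714735)) p13_18_0 (nat_lit 3) (nat_lit 238) (nat_lit 239) = true := by decide +kernel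
def p13_18_0_239 : pfC (piC [(nat_lit 38632330), (nat_lit 24534081), (nat_lit 15702173)] (nat_lit 20714735)) p13_18_0 (nat_lit 3) (nat_lit 239) (nat_lit 240) = true := by decide +kernel
def p13_18_0_240 : pfC (piC [(nat_lit 38632330), (nat_lit 24534081), (nat_lit 15702173)] (nat_lit 20714735)) p13_18_0 (nat_lit 3) (nat_lit 240) (nat_lit 241) = true := by decide +kernel
def p13_18_0_241 : pfC (piC [(nat_lit 38632330), (nat_lit 24534081), (nat_lit 15702173)] (nat_lit 20714735)) p13_18_0 (nat_lit 3) (nat_lit 241) (nat_lit 242) = true := by decide +kernel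
def p13_18_0_242 : pfC (piC [(nat_lit 38632330), (nat_lit 24534081), (nat_lit 15702173)] (nat_lit 20714735)) p13_18_0 (nat_lit 3) (nat_lit 242) (nat_lit 243) = true := by decide +kernel
def p13_18_0_243 : pfC (piC [(nat_lit 38632330), (nat_lit 24534081), (nat_lit 15702173)] (nat_lit 20714735)) p13_18_0 (nat_lit 3) (nat_lit 243) (nat_lit 244) = true := by decide +kernel
def p13_18_0_244 : pfC (piC [(nat_lit 38632330), (nat_lit 24534081), (nat_lit 15702173)] (nat_lit 20714735)) p13_18_0 (nat_lit 3) (nat_lit 244) (nat_lit 245) = true := by decide +kernel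
def p13_18_0_245 : pfC (piC [(nat_lit 38632330), (nat_lit 24534081), (nat_lit 15702173)] (nat_lit 20714735)) p13_18_0 (nat_lit 3) (nat_lit 245) (nat_lit 246) = true := by decide +kernel
def p13_18_0_246 : pfC (piC [(nat_lit 38632330), (nat_lit 24534081), (nat_lit 15702173)] (nat_lit 20714735)) p13_18_0 (nat_lit 3) (nat_lit 246) (nat_lit 247) = true := by decide +kernel
def p13_18_0_247 : pfC (piC [(nat_lit 38632330), (nat_lit 24534081), (nat_lit 15702173)] (nat_lit 20714735)) p13_18_0 (nat_lit 3) (nat_lit 247) (nat_lit 248) = true := by decide +kernel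
def p13_18_0_248 : pfC (piC [(nat_lit 38632330), (nat_lit 24534081), (nat_lit 15702173)] (nat_lit 20714735)) p13_18_0 (nat_lit 3) (nat_lit 248) (nat_lit 249) = true := by decide +kernel
def p13_18_0_249 : pfC (piC [(nat_lit 38632330), (nat_lit 24534081), (nat_lit 15702173)] (nat_lit 20714735)) p13_18_0 (nat_lit 3) (nat_lit 249) (nat_lit 250) = true := by decide +kernel
def p13_18_0_250 : pfC (piC [(nat_lit 38632330), (nat_lit 24534081), (nat_lit 15702173)] (nat_lit 20714735)) p13_18_0 (nat_lit 3) (nat_lit 250) (nat_lit 251) = true := by decide +kernel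
def p13_18_0_251 : pfC (piC [(nat_lit 38632330), (nat_lit 24534081), (nat_lit 15702173)] (nat_lit 20714735)) p13_18_0 (nat_lit 3) (nat_lit 251) (nat_lit 252) = true := by decide +kernel
def p13_18_0_252 : pfC (piC [(nat_lit 38632330), (nat_lit 24534081), (nat_lit 15702173)] (nat_lit 20714735)) p13_18_0 (nat_lit 3) (nat_lit 252) (nat_lit 253) = true := by decide +kernel
def p13_18_0_253 : pfC (piC [(nat_lit 38632330), (nat_lit 24534081), (nat_lit 15702173)] (nat_lit 20714735)) p13_18_0 (nat_lit 3) (nat_lit 253) (nat_lit 254) = true := by decide +kernel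
theorem p13_18_0_T : PfS (PiF n13_18.reverse (nat_lit 20714735)) p13_18_0 (nat_lit 3) [] 0 :=
  pftab_of (los := [(nat_lit 38632330), (nat_lit 24534081), (nat_lit 15702173)]) (by decide +kernel) (hi := (nat_lit 254)) (PfP.trans (PfP.trans (PfP.trans (PfP.trans (PfP.trans (PfP.trans (PfP.trans (PfP.trans (PfP.trans (PfP.trans (PfP.trans (PfP.trans (PfP.trans (PfP.trans (PfP.trans (PfP.trans (PfP.trans (PfP.trans (PfP.trans (PfP.trans (PfP.trans (PfP.trans (PfP.trans (PfP.trans (PfP.trans (PfP.trans (PfP.trans (PfP.trans (PfP.trans (PfP.trans (PfP.trans (PfP.trans (PfP.trans (PfP.trans (PfP.trans (PfP.trans (PfP.trans (PfP.trans (PfP.trans (PfP.trans (PfP.trans (PfP.trans (PfP.trans (PfP.trans (PfP.trans (PfP.trans (PfP.trans (PfP.trans (PfP.trans (PfP.trans (PfP.trans (PfP.trans (PfP.trans (PfP.trans (PfP.trans (PfP.trans (PfP.trans (PfP.trans (PfP.trans (PfP.trans (PfP.trans (PfP.trans (PfP.trans (PfP.trans (PfP.trans (PfP.trans (PfP.trans (PfP.trans (PfP.trans (PfP.trans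 (PfP.trans (PfP.trans (PfP.trans (PfP.trans (PfP.trans (PfP.trans (PfP.trans (PfP.trans (PfP.trans (PfP.trans (PfP.trans (PfP.trans (PfP.trans (PfP.trans (PfP.trans (PfP.trans (PfP.trans (PfP.trans (PfP.trans (PfP.trans (PfP.trans (PfP.trans (PfP.trans (PfP.trans (PfP.trans (PfP.trans (PfP.trans (PfP.trans (PfP.trans (PfP.trans (PfP.trans (PfP.trans (PfP.trans (PfP.trans (PfP.trans (PfP.trans (PfP.trans (PfP.trans (PfP.trans
 (PfP.trans (PfP.trans (PfP.trans (PfP.trans (PfP.trans (PfP.trans (PfP.trans (PfP.trans (PfP.trans (PfP.trans (PfP.trans (PfP.trans (PfP.trans (PfP.trans (PfP.trans (PfP.trans (PfP.trans (PfP.trans (PfP.trans (PfP.trans (PfP.trans (PfP.trans (PfP.trans (PfP.trans (PfP.trans (PfP.trans (PfP.trans (PfP.trans (PfP.trans (PfP.trans (PfP.trans (PfP.trans (PfP.trans (PfP.trans (PfP.trans (PfP.trans (PfP.trans (PfP.trans (PfP.trans (PfP.trans (PfP.trans (PfP.trans (PfP.trans (PfP.trans (PfP.trans (PfP.trans (PfP.trans (PfP.trans (PfP.trans (PfP.trans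 (PfP.trans (PfP.trans (PfP.trans (PfP.trans (PfP.trans (PfP.trans (PfP.trans (PfP.trans (PfP.trans (PfP.trans (PfP.trans (PfP.trans (PfP.trans (PfP.trans (PfP.trans (PfP.trans (PfP.trans (PfP.trans (PfP.trans (PfP.trans (PfP.trans (PfP.trans (PfP.trans (PfP.trans (PfP.trans (PfP.trans (PfP.trans (PfP.trans (PfP.trans (PfP.trans (PfP.trans (PfP.trans (PfP.trans (PfP.trans (PfP.trans (PfP.trans (PfP.trans (PfP.trans (PfP.trans (PfP.trans (PfP.trans (PfP.trans (PfP.trans (PfP.trans (PfP.trans (PfP.trans (PfP.trans (PfP.trans (PfP.trans (PfP.trans (PfP.trans (PfP.trans (PfP.trans (PfP.trans (PfP.trans (PfP.trans (PfP.trans (PfP.trans (PfP.trans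
 (PfP.trans (PfP.trans (PfP.trans (PfP.trans (PfP.trans (PfP.trans (PfP.trans (PfP.trans (PfP.trans (PfP.trans (PfP.trans (PfP.trans (PfP.trans (PfP.trans (PfP.trans (PfP.trans (PfP.trans (PfP.trans (PfP.trans (PfP.trans (PfP.trans (PfP.trans (PfP.trans (PfP.trans (PfP.trans (PfP.trans (PfP.trans (PfP.trans (PfP.trans (PfP.trans (PfP.trans (PfP.trans (PfP.trans (PfP.trans (PfP.trans (pfC_sound p13_18_0_0) (pfC_sound p13_18_0_1)) (pfC_sound p13_18_0_2)) (pfC_sound p13_18_0_3)) (pfC_sound p13_18_0_4)) (pfC_sound p13_18_0_5)) (pfC_sound p13_18_0_6)) (pfC_sound p13_18_0_7)) (pfC_sound p13_18_0_8)) (pfC_sound p13_18_0_9)) (pfC_sound p13_18_0_10)) (pfC_sound p13_18_0_11)) (pfC_sound p13_18_0_12)) (pfC_sound p13_18_0_13)) (pfC_sound p13_18_0_14)) (pfC_sound p13_18_0_15)) (pfC_sound p13_18_0_16)) (pfC_sound p13_18_0_17)) (pfC_sound p13_18_0_18)) (pfC_sound p13_18_0_19)) (pfC_sound p13_18_0_20)) (pfC_sound p13_18_0_21)) (pfC_sound p13_18_0_22)) (pfC_sound p13_18_0_23)) (pfC_sound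 p13_18_0_24)) (pfC_sound p13_18_0_25)) (pfC_sound p13_18_0_26)) (pfC_sound p13_18_0_27)) (pfC_sound p13_18_0_28)) (pfC_sound p13_18_0_29)) (pfC_sound p13_18_0_30)) (pfC_sound p13_18_0_31)) (pfC_sound p13_18_0_32))
 (pfC_sound p13_18_0_33)) (pfC_sound p13_18_0_34)) (pfC_sound p13_18_0_35)) (pfC_sound p13_18_0_36)) (pfC_sound p13_18_0_37)) (pfC_sound p13_18_0_38)) (pfC_sound p13_18_0_39)) (pfC_sound p13_18_0_40)) (pfC_sound p13_18_0_41)) (pfC_sound p13_18_0_42)) (pfC_sound p13_18_0_43)) (pfC_sound p13_18_0_44)) (pfC_sound p13_18_0_45)) (pfC_sound p13_18_0_46)) (pfC_sound p13_18_0_47)) (pfC_sound p13_18_0_48)) (pfC_sound p13_18_0_49)) (pfC_sound p13_18_0_50)) (pfC_sound p13_18_0_51)) (pfC_sound p13_18_0_52)) (pfC_sound p13_18_0_53)) (pfC_sound p13_18_0_54)) (pfC_sound p13_18_0_55)) (pfC_sound p13_18_0_56)) (pfC_sound p13_18_0_57)) (pfC_sound p13_18_0_58)) (pfC_sound p13_18_0_59)) (pfC_sound p13_18_0_60)) (pfC_sound p13_18_0_61)) (pfC_sound p13_18_0_62)) (pfC_sound p13_18_0_63))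 (pfC_sound p13_18_0_64)) (pfC_sound p13_18_0_65)) (pfC_sound p13_18_0_66)) (pfC_sound p13_18_0_67)) (pfC_sound p13_18_0_68)) (pfC_sound p13_18_0_69)) (pfC_sound p13_18_0_70)) (pfC_sound p13_18_0_71)) (pfC_sound p13_18_0_72)) (pfC_sound p13_18_0_73)) (pfC_sound p13_18_0_74)) (pfC_sound p13_18_0_75)) (pfC_sound p13_18_0_76)) (pfC_sound p13_18_0_77)) (pfC_sound p13_18_0_78)) (pfC_sound p13_18_0_79)) (pfC_sound p13_18_0_80))
 (pfC_sound p13_18_0_81)) (pfC_sound p13_18_0_82)) (pfC_sound p13_18_0_83)) (pfC_sound p13_18_0_84)) (pfC_sound p13_18_0_85)) (pfC_sound p13_18_0_86)) (pfC_sound p13_18_0_87)) (pfC_sound p13_18_0_88)) (pfC_sound p13_18_0_89)) (pfC_sound p13_18_0_90)) (pfC_sound p13_18_0_91)) (pfC_sound p13_18_0_92)) (pfC_sound p13_18_0_93)) (pfC_sound p13_18_0_94)) (pfC_sound p13_18_0_95)) (pfC_sound p13_18_0_96)) (pfC_sound p13_18_0_97)) (pfC_sound p13_18_0_98)) (pfC_sound p13_18_0_99)) (pfC_sound p13_18_0_100)) (pfC_sound p13_18_0_101)) (pfC_sound p13_18_0_102))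 (pfC_sound p13_18_0_103)) (pfC_sound p13_18_0_104)) (pfC_sound p13_18_0_105)) (pfC_sound p13_18_0_106)) (pfC_sound p13_18_0_107)) (pfC_sound p13_18_0_108)) (pfC_sound p13_18_0_109)) (pfC_sound p13_18_0_110)) (pfC_sound p13_18_0_111)) (pfC_sound p13_18_0_112)) (pfC_sound p13_18_0_113)) (pfC_sound p13_18_0_114)) (pfC_sound p13_18_0_115)) (pfC_sound p13_18_0_116)) (pfC_sound p13_18_0_117)) (pfC_sound p13_18_0_118)) (pfC_sound p13_18_0_119)) (pfC_sound p13_18_0_120)) (pfC_sound p13_18_0_121)) (pfC_sound p13_18_0_122)) (pfC_sound p13_18_0_123)) (pfC_sound p13_18_0_124)) (pfC_sound p13_18_0_125)) (pfC_sound p13_18_0_126)) (pfC_sound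
 p13_18_0_127)) (pfC_sound p13_18_0_128)) (pfC_sound p13_18_0_129)) (pfC_sound p13_18_0_130)) (pfC_sound p13_18_0_131)) (pfC_sound p13_18_0_132)) (pfC_sound p13_18_0_133)) (pfC_sound p13_18_0_134)) (pfC_sound p13_18_0_135)) (pfC_sound p13_18_0_136)) (pfC_sound p13_18_0_137)) (pfC_sound p13_18_0_138)) (pfC_sound p13_18_0_139)) (pfC_sound p13_18_0_140)) (pfC_sound p13_18_0_141)) (pfC_sound p13_18_0_142)) (pfC_sound p13_18_0_143)) (pfC_sound p13_18_0_144)) (pfC_sound p13_18_0_145)) (pfC_sound p13_18_0_146)) (pfC_sound p13_18_0_147)) (pfC_sound p13_18_0_148)) (pfC_sound p13_18_0_149)) (pfC_sound p13_18_0_150)) (pfC_sound p13_18_0_151)) (pfC_sound p13_18_0_152)) (pfC_sound p13_18_0_153)) (pfC_sound p13_18_0_154)) (pfC_sound p13_18_0_155)) (pfC_sound p13_18_0_156)) (pfC_sound p13_18_0_157)) (pfC_sound p13_18_0_158)) (pfC_sound p13_18_0_159)) (pfC_sound p13_18_0_160)) (pfC_sound p13_18_0_161)) (pfC_sound p13_18_0_162)) (pfC_sound p13_18_0_163)) (pfC_sound p13_18_0_164)) (pfC_sound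 p13_18_0_165)) (pfC_sound p13_18_0_166)) (pfC_sound p13_18_0_167)) (pfC_sound p13_18_0_168)) (pfC_sound p13_18_0_169)) (pfC_sound p13_18_0_170)) (pfC_sound p13_18_0_171)) (pfC_sound p13_18_0_172)) (pfC_sound
 p13_18_0_173)) (pfC_sound p13_18_0_174)) (pfC_sound p13_18_0_175)) (pfC_sound p13_18_0_176)) (pfC_sound p13_18_0_177)) (pfC_sound p13_18_0_178)) (pfC_sound p13_18_0_179)) (pfC_sound p13_18_0_180)) (pfC_sound p13_18_0_181)) (pfC_sound p13_18_0_182)) (pfC_sound p13_18_0_183)) (pfC_sound p13_18_0_184)) (pfC_sound p13_18_0_185)) (pfC_sound p13_18_0_186)) (pfC_sound p13_18_0_187)) (pfC_sound p13_18_0_188)) (pfC_sound p13_18_0_189)) (pfC_sound p13_18_0_190)) (pfC_sound p13_18_0_191)) (pfC_sound p13_18_0_192)) (pfC_sound p13_18_0_193)) (pfC_sound p13_18_0_194)) (pfC_sound p13_18_0_195)) (pfC_sound p13_18_0_196)) (pfC_sound p13_18_0_197)) (pfC_sound p13_18_0_198)) (pfC_sound p13_18_0_199)) (pfC_sound p13_18_0_200)) (pfC_sound p13_18_0_201)) (pfC_sound p13_18_0_202)) (pfC_sound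 p13_18_0_203)) (pfC_sound p13_18_0_204)) (pfC_sound p13_18_0_205)) (pfC_sound p13_18_0_206)) (pfC_sound p13_18_0_207)) (pfC_sound p13_18_0_208)) (pfC_sound p13_18_0_209)) (pfC_sound p13_18_0_210)) (pfC_sound p13_18_0_211)) (pfC_sound p13_18_0_212)) (pfC_sound p13_18_0_213)) (pfC_sound p13_18_0_214)) (pfC_sound p13_18_0_215)) (pfC_sound p13_18_0_216)) (pfC_sound p13_18_0_217)) (pfC_sound p13_18_0_218)) (pfC_sound
 p13_18_0_219)) (pfC_sound p13_18_0_220)) (pfC_sound p13_18_0_221)) (pfC_sound p13_18_0_222)) (pfC_sound p13_18_0_223)) (pfC_sound p13_18_0_224)) (pfC_sound p13_18_0_225)) (pfC_sound p13_18_0_226)) (pfC_sound p13_18_0_227)) (pfC_sound p13_18_0_228)) (pfC_sound p13_18_0_229)) (pfC_sound p13_18_0_230)) (pfC_sound p13_18_0_231)) (pfC_sound p13_18_0_232)) (pfC_sound p13_18_0_233)) (pfC_sound p13_18_0_234)) (pfC_sound p13_18_0_235)) (pfC_sound p13_18_0_236)) (pfC_sound p13_18_0_237)) (pfC_sound p13_18_0_238)) (pfC_sound p13_18_0_239)) (pfC_sound p13_18_0_240)) (pfC_sound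 p13_18_0_241)) (pfC_sound p13_18_0_242)) (pfC_sound p13_18_0_243)) (pfC_sound p13_18_0_244)) (pfC_sound p13_18_0_245)) (pfC_sound p13_18_0_246)) (pfC_sound p13_18_0_247)) (pfC_sound p13_18_0_248)) (pfC_sound p13_18_0_249)) (pfC_sound p13_18_0_250)) (pfC_sound p13_18_0_251)) (pfC_sound p13_18_0_252)) (pfC_sound p13_18_0_253)) (by decide +kernel)

def z13_18_0 : zOK yB13_18 (nat_lit 0) (nat_lit 0) (nat_lit 400) (nat_lit 20714735) (nat_lit 11363143) = true := by decide +kernel
def g13_18_0 : gOK yB13_18.x P13_18 (nat_lit 1388) (q13_18 :: r13_18) (nat_lit 0) (nat_lit 0) (nat_lit 1) (nat_lit 400) (nat_lit 0) (nat_lit 11000000) (nat_lit 12712500) (nat_lit 12712500) [(nat_lit 800), (nat_lit 1600)] = true := by decide +kernel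
def v13_18_0 : ivC P13_18 s13_18 w13_18 n13_18 (nat_lit 3) (nat_lit 5300) (nat_lit 0) (nat_lit 0) f176_0_0 f184_0_0 (nat_lit 1) (nat_lit 400) f176_0_400 f184_0_400 (nat_lit 20714735) (nat_lit 11363143) p13_18_0 = true := by decide +kernel
def p13_18_1 : PF := (PF.cons (PF.cons (PF.cons (PF.leaf (nat_lit 1965013) (nat_lit 8959626) (nat_lit 58149186) (nat_lit 8959626) [(nat_lit 0), (nat_lit 0), (nat_lit 0)]) (PF.cons (PF.leaf (nat_lit 2144775) (nat_lit 309360) (nat_lit 57807489) (nat_lit 8991962) [(nat_lit 309360), (nat_lit 0), (nat_lit 0)]) (PF.cons (PF.leaf (nat_lit 2357714) (nat_lit 337079) (nat_lit 57407644) (nat_lit 9027010) [(nat_lit 337079), (nat_lit 0), (nat_lit 0)]) (PF.cons (PF.leaf (nat_lit 2597311) (nat_lit 361852) (nat_lit 56960403) (nat_lit 9062852) [(nat_lit 361852), (nat_lit 0), (nat_lit 0)]) (PF.cons (PF.leaf (nat_lit 2859878) (nat_lit 384324) (nat_lit 56473456) (nat_lit 9098059) [(nat_lit 384324), (nat_lit 0), (nat_lit 0)]) (PF.cons (PF.leaf (nat_lit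 3142604) (nat_lit 404895) (nat_lit 55952799) (nat_lit 9131535) [(nat_lit 404895), (nat_lit 0), (nat_lit 0)]) (PF.cons (PF.leaf (nat_lit 3443034) (nat_lit 423834) (nat_lit 55403371) (nat_lit 9162434) [(nat_lit 423834), (nat_lit 0), (nat_lit 0)]) (PF.cons (PF.leaf (nat_lit 3759150) (nat_lit 441331) (nat_lit 54829389) (nat_lit 9190106) [(nat_lit 441331), (nat_lit 0), (nat_lit 0)]) (PF.cons (PF.leaf (nat_lit 4089140) (nat_lit 457526) (nat_lit 54234541) (nat_lit 9214063)
 [(nat_lit 457526), (nat_lit 0), (nat_lit 0)]) (PF.cons (PF.leaf (nat_lit 4431362) (nat_lit 472528) (nat_lit 53622101) (nat_lit 9233951) [(nat_lit 472528), (nat_lit 0), (nat_lit 0)]) (PF.cons (PF.leaf (nat_lit 4784311) (nat_lit 486427) (nat_lit 52995012) (nat_lit 9249526) [(nat_lit 486427), (nat_lit 0), (nat_lit 0)]) (PF.cons (PF.leaf (nat_lit 5146572) (nat_lit 499294) (nat_lit 52355932) (nat_lit 9260638) [(nat_lit 499294), (nat_lit 0), (nat_lit 0)]) (PF.cons (PF.leaf (nat_lit 5516959) (nat_lit 511193)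 (nat_lit 51707273) (nat_lit 9267212) [(nat_lit 511193), (nat_lit 0), (nat_lit 0)]) (PF.cons (PF.leaf (nat_lit 5894204) (nat_lit 522180) (nat_lit 51051228) (nat_lit 9269239) [(nat_lit 522180), (nat_lit 0), (nat_lit 0)]) (PF.cons PF.nil (PF.cons PF.nil PF.nil)))))))))))))))) (PF.cons (PF.cons (PF.leaf (nat_lit 2683788) (nat_lit 1756576) (nat_lit 56253204) (nat_lit 9099032) [(nat_lit 0), (nat_lit 1756576), (nat_lit 0)]) (PF.cons (PF.leaf (nat_lit 2920251) (nat_lit 381391) (nat_lit 55805218) (nat_lit 9126679) [(nat_lit 381391), (nat_lit 1795523), (nat_lit 0)]) (PF.cons (PF.leaf (nat_lit 3181540) (nat_lit 402644) (nat_lit 55316046) (nat_lit 9153483) [(nat_lit 402644), (nat_lit 1833995),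
 (nat_lit 0)]) (PF.cons (PF.leaf (nat_lit 3463242) (nat_lit 421959) (nat_lit 54793286) (nat_lit 9178399) [(nat_lit 421959), (nat_lit 1871249), (nat_lit 0)]) (PF.cons (PF.leaf (nat_lit 3762569) (nat_lit 439651) (nat_lit 54242687) (nat_lit 9200663) [(nat_lit 439651), (nat_lit 1906855), (nat_lit 0)]) (PF.cons (PF.leaf (nat_lit 4077244) (nat_lit 455931) (nat_lit 53668879) (nat_lit 9219712) [(nat_lit 455931), (nat_lit 1940562), (nat_lit 0)]) (PF.cons (PF.leaf (nat_lit 4405322) (nat_lit 470949) (nat_lit 53075748) (nat_lit 9235139) [(nat_lit 470949), (nat_lit 1972225), (nat_lit 0)]) (PF.cons (PF.leaf (nat_lit 4745090) (nat_lit 484819) (nat_lit 52466643) (nat_lit 9246662) [(nat_lit 484819), (nat_lit 2001772), (nat_lit 0)]) (PF.cons (PF.leaf (nat_lit 5095023) (nat_lit 497629) (nat_lit 51844503) (nat_lit 9254095) [(nat_lit 497629), (nat_lit 2029175), (nat_lit 0)]) (PF.cons (PF.leaf (nat_lit 5453757) (nat_lit 509455) (nat_lit 51211937) (nat_lit 9257337) [(nat_lit 509455), (nat_lit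 2054436), (nat_lit 0)]) (PF.cons (PF.leaf (nat_lit 5820025) (nat_lit 520359) (nat_lit 50571277) (nat_lit 9256353) [(nat_lit 520359), (nat_lit 2077583), (nat_lit 0)]) (PF.cons (PF.leaf (nat_lit 6192660) (nat_lit
 530397) (nat_lit 49924619) (nat_lit 9251162) [(nat_lit 530397), (nat_lit 2098659), (nat_lit 0)]) (PF.cons PF.nil (PF.cons PF.nil PF.nil)))))))))))))) (PF.cons (PF.cons (PF.leaf (nat_lit 3505201) (nat_lit 1889671) (nat_lit 54137848) (nat_lit 9191622) [(nat_lit 0), (nat_lit 1889671), (nat_lit 0)]) (PF.cons (PF.leaf (nat_lit 3782645) (nat_lit 436202) (nat_lit 53620904) (nat_lit 9208462) [(nat_lit 436202), (nat_lit 1921622), (nat_lit 0)]) (PF.cons (PF.leaf (nat_lit 4078786) (nat_lit 452953) (nat_lit 53075525) (nat_lit 9222685) [(nat_lit 452953), (nat_lit 1952347), (nat_lit 0)]) (PF.cons (PF.leaf (nat_lit 4390375) (nat_lit 468257) (nat_lit 52507220) (nat_lit 9233785) [(nat_lit 468257), (nat_lit 1981517), (nat_lit 0)]) (PF.cons (PF.leaf (nat_lit 4715204) (nat_lit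 482295) (nat_lit 51920337) (nat_lit 9241412) [(nat_lit 482295), (nat_lit 2008940), (nat_lit 0)]) (PF.cons (PF.leaf (nat_lit 5051464) (nat_lit 495198) (nat_lit 51318464) (nat_lit 9245335) [(nat_lit 495198), (nat_lit 2034510), (nat_lit 0)]) (PF.cons (PF.leaf (nat_lit 5397508) (nat_lit 507067) (nat_lit 50704646) (nat_lit 9245414) [(nat_lit 507067), (nat_lit 2058174), (nat_lit 0)]) (PF.cons (PF.leaf (nat_lit 5751971) (nat_lit
 517980) (nat_lit 50081521) (nat_lit 9241586) [(nat_lit 517980), (nat_lit 2079919), (nat_lit 0)]) (PF.cons (PF.leaf (nat_lit 6113556) (nat_lit 528006) (nat_lit 49451401) (nat_lit 9233842) [(nat_lit 528006), (nat_lit 2099758), (nat_lit 0)]) (PF.cons (PF.leaf (nat_lit 6481119) (nat_lit 537201) (nat_lit 48816328) (nat_lit 9222224) [(nat_lit 537201), (nat_lit 2117722), (nat_lit 0)]) (PF.cons (PF.leaf (nat_lit 6853625) (nat_lit 545616) (nat_lit 48178119) (nat_lit 9206810) [(nat_lit 545616), (nat_lit 2133857), (nat_lit 0)]) (PF.cons PF.nil PF.nil))))))))))))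 (PF.cons (PF.cons (PF.leaf (nat_lit 4392947) (nat_lit 1990966) (nat_lit 51906216) (nat_lit 9229697) [(nat_lit 0), (nat_lit 1990966), (nat_lit 0)]) (PF.cons (PF.leaf (nat_lit 4699203) (nat_lit 478495) (nat_lit 51348553) (nat_lit 9233596) [(nat_lit 478495), (nat_lit 2016055), (nat_lit 0)]) (PF.cons (PF.leaf (nat_lit 5019400) (nat_lit 491741) (nat_lit 50772133) (nat_lit 9234192) [(nat_lit 491741), (nat_lit 2039668), (nat_lit 0)]) (PF.cons (PF.leaf (nat_lit 5351013) (nat_lit 503834) (nat_lit 50181020) (nat_lit 9231297) [(nat_lit 503834), (nat_lit 2061663), (nat_lit 0)]) (PF.cons (PF.leaf (nat_lit 5692292) (nat_lit 514896) (nat_lit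
 49578517) (nat_lit 9224807) [(nat_lit 514896), (nat_lit 2081967), (nat_lit 0)]) (PF.cons (PF.leaf (nat_lit 6041765) (nat_lit 525017) (nat_lit 48967383) (nat_lit 9214685) [(nat_lit 525017), (nat_lit 2100551), (nat_lit 0)]) (PF.cons (PF.leaf (nat_lit 6398104) (nat_lit 534272) (nat_lit 48349979) (nat_lit 9200948) [(nat_lit 534272), (nat_lit 2117416), (nat_lit 0)]) (PF.cons (PF.leaf (nat_lit 6760154) (nat_lit 542723) (nat_lit 47728346) (nat_lit 9183651) [(nat_lit 542723), (nat_lit 2132583), (nat_lit 0)]) (PF.cons (PF.leaf (nat_lit 7126874) (nat_lit 550424) (nat_lit 47104269) (nat_lit 9162884) [(nat_lit 550424), (nat_lit 2146088), (nat_lit 0)]) (PF.cons PF.nil PF.nil)))))))))) (PF.cons (PF.cons (PF.leaf (nat_lit 5318976) (nat_lit 2065059) (nat_lit 49633861) (nat_lit 9214714) [(nat_lit 0), (nat_lit 2065059), (nat_lit 0)]) (PF.cons (PF.leaf (nat_lit 5644391) (nat_lit 510858) (nat_lit 49056851) (nat_lit 9205787) [(nat_lit 510858), (nat_lit 2083828), (nat_lit 0)]) (PF.cons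 (PF.leaf (nat_lit 5979974) (nat_lit 521245) (nat_lit 48468400) (nat_lit 9193497) [(nat_lit 521245), (nat_lit 2101105), (nat_lit 0)]) (PF.cons (PF.leaf (nat_lit 6323729) (nat_lit 530689) (nat_lit 47871532) (nat_lit
 9177834) [(nat_lit 530689), (nat_lit 2116844), (nat_lit 0)]) (PF.cons (PF.leaf (nat_lit 6674260) (nat_lit 539276) (nat_lit 47268742) (nat_lit 9158833) [(nat_lit 539276), (nat_lit 2131032), (nat_lit 0)]) (PF.cons (PF.leaf (nat_lit 7030369) (nat_lit 547076) (nat_lit 46662131) (nat_lit 9136564) [(nat_lit 547076), (nat_lit 2143683), (nat_lit 0)]) (PF.cons (PF.leaf (nat_lit 7390991) (nat_lit 554147) (nat_lit 46053499) (nat_lit 9111125) [(nat_lit 554147), (nat_lit 2154826), (nat_lit 0)]) (PF.cons PF.nil PF.nil)))))))) (PF.cons (PF.cons (PF.leaf (nat_lit 6261584) (nat_lit 2116071) (nat_lit 47375853) (nat_lit 9152601) [(nat_lit 0), (nat_lit 2116071), (nat_lit 0)]) (PF.cons (PF.leaf (nat_lit 6598537) (nat_lit 535100) (nat_lit 46795356) (nat_lit 9132123) [(nat_lit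 535100), (nat_lit 2129246), (nat_lit 0)]) (PF.cons (PF.leaf (nat_lit 6942685) (nat_lit 543120) (nat_lit 46208880) (nat_lit 9108553) [(nat_lit 543120), (nat_lit 2141027), (nat_lit 0)]) (PF.cons (PF.leaf (nat_lit 7292411) (nat_lit 550357) (nat_lit 45618671) (nat_lit 9081977) [(nat_lit 550357), (nat_lit 2151418), (nat_lit 0)]) (PF.cons (PF.leaf (nat_lit 7646594) (nat_lit 556880) (nat_lit 45026598) (nat_lit 9052499) [(nat_lit 556880),
 (nat_lit 2160438), (nat_lit 0)]) (PF.cons (PF.leaf (nat_lit 8004302) (nat_lit 562741) (nat_lit 44434242) (nat_lit 9020241) [(nat_lit 562741), (nat_lit 2168123), (nat_lit 0)]) PF.nil)))))) (PF.cons (PF.cons (PF.leaf (nat_lit 7204351) (nat_lit 2147776) (nat_lit 45171097) (nat_lit 9051058) [(nat_lit 0), (nat_lit 2147776), (nat_lit 0)]) (PF.cons (PF.leaf (nat_lit 7546930) (nat_lit 552651) (nat_lit 44598534) (nat_lit 9020801) [(nat_lit 552651), (nat_lit 2156137), (nat_lit 0)]) (PF.cons (PF.leaf (nat_lit 7894366) (nat_lit 558704) (nat_lit 44023989)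 (nat_lit 8987878) [(nat_lit 558704), (nat_lit 2163256), (nat_lit 0)]) (PF.cons (PF.leaf (nat_lit 8245335) (nat_lit 564106) (nat_lit 43449123) (nat_lit 8952414) [(nat_lit 564106), (nat_lit 2169159), (nat_lit 0)]) PF.nil)))) (PF.cons (PF.cons (PF.leaf (nat_lit 8135235) (nat_lit 2163572) (nat_lit 43045775) (nat_lit 8918032) [(nat_lit 0), (nat_lit 2163572), (nat_lit 0)]) (PF.cons (PF.leaf (nat_lit 8478942) (nat_lit 564701) (nat_lit 42489047) (nat_lit 8879882) [(nat_lit 564701), (nat_lit 2167883), (nat_lit 0)]) PF.nil)) (PF.cons PF.nil (PF.cons PF.nil (PF.cons PF.nil PF.nil))))))))))) (PF.cons (PF.cons (PF.cons (PF.leaf (nat_lit 3742945) (nat_lit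
 6505741) (nat_lit 51480881) (nat_lit 9122189) [(nat_lit 0), (nat_lit 0), (nat_lit 6505741)]) (PF.cons (PF.leaf (nat_lit 3988432) (nat_lit 416339) (nat_lit 51041613) (nat_lit 9127318) [(nat_lit 416339), (nat_lit 0), (nat_lit 6523542)]) (PF.cons (PF.leaf (nat_lit 4256570) (nat_lit 435621) (nat_lit 50566809) (nat_lit 9130417) [(nat_lit 435621), (nat_lit 0), (nat_lit 6540342)]) (PF.cons (PF.leaf (nat_lit 4542715) (nat_lit 452675) (nat_lit 50064254) (nat_lit 9131028) [(nat_lit 452675), (nat_lit 0), (nat_lit 6555501)]) (PF.cons (PF.leaf (nat_lit 4843929) (nat_lit 467930) (nat_lit 49539669) (nat_lit 9128834) [(nat_lit 467930), (nat_lit 0), (nat_lit 6568584)]) (PF.cons (PF.leaf (nat_lit 5157889) (nat_lit 481675) (nat_lit 48997515) (nat_lit 9123624) [(nat_lit 481675), (nat_lit 0), (nat_lit 6579293)]) (PF.cons (PF.leaf (nat_lit 5482712) (nat_lit 494116) (nat_lit 48441414) (nat_lit 9115265) [(nat_lit 494116), (nat_lit 0), (nat_lit 6587432)]) (PF.cons (PF.leaf (nat_lit 5816751)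 (nat_lit 505407) (nat_lit 47874388) (nat_lit 9103690) [(nat_lit 505407), (nat_lit 0), (nat_lit 6592881)]) (PF.cons (PF.leaf (nat_lit 6158605) (nat_lit 515667) (nat_lit 47299005) (nat_lit 9088885) [(nat_lit 515667),
 (nat_lit 0), (nat_lit 6595580)]) (PF.cons (PF.leaf (nat_lit 6507076) (nat_lit 524993) (nat_lit 46717481) (nat_lit 9070873) [(nat_lit 524993), (nat_lit 0), (nat_lit 6595516)]) (PF.cons (PF.leaf (nat_lit 6861026) (nat_lit 533464) (nat_lit 46131742) (nat_lit 9049714) [(nat_lit 533464), (nat_lit 0), (nat_lit 6592707)]) (PF.cons (PF.leaf (nat_lit 7219475) (nat_lit 541148) (nat_lit 45543478) (nat_lit 9025491) [(nat_lit 541148), (nat_lit 0), (nat_lit 6587205)]) (PF.cons PF.nil (PF.cons PF.nil PF.nil)))))))))))))) (PF.cons (PF.cons (PF.leaf (nat_lit 4559407) (nat_lit 1973163) (nat_lit 49461227) (nat_lit 9117149) [(nat_lit 0), (nat_lit 1973163), (nat_lit 6557272)]) (PF.cons (PF.leaf (nat_lit 4838555) (nat_lit 461622) (nat_lit 48971777) (nat_lit 9112400) [(nat_lit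 461622), (nat_lit 1995932), (nat_lit 6567080)]) (PF.cons (PF.leaf (nat_lit 5134103) (nat_lit 476188) (nat_lit 48459192) (nat_lit 9104895) [(nat_lit 476188), (nat_lit 2017403), (nat_lit 6574944)]) (PF.cons (PF.leaf (nat_lit 5442804) (nat_lit 489206) (nat_lit 47928739) (nat_lit 9094476) [(nat_lit 489206), (nat_lit 2037388), (nat_lit 6580588)]) (PF.cons (PF.leaf (nat_lit 5762506) (nat_lit 500913) (nat_lit 47384467) (nat_lit 9081057)
 [(nat_lit 500913), (nat_lit 2055794), (nat_lit 6583839)]) (PF.cons (PF.leaf (nat_lit 6091424) (nat_lit 511480) (nat_lit 46829623) (nat_lit 9064605) [(nat_lit 511480), (nat_lit 2072586), (nat_lit 6584596)]) (PF.cons (PF.leaf (nat_lit 6428071) (nat_lit 521036) (nat_lit 46266884) (nat_lit 9045131) [(nat_lit 521036), (nat_lit 2087763), (nat_lit 6582813)]) (PF.cons (PF.leaf (nat_lit 6771166) (nat_lit 529683) (nat_lit 45698508) (nat_lit 9022680) [(nat_lit 529683), (nat_lit 2101350), (nat_lit 6578487)]) (PF.cons (PF.leaf (nat_lit 7119590) (nat_lit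 537504) (nat_lit 45126423) (nat_lit 8997323) [(nat_lit 537504), (nat_lit 2113385), (nat_lit 6571645)]) (PF.cons (PF.leaf (nat_lit 7472346) (nat_lit 544567) (nat_lit 44552291) (nat_lit 8969154) [(nat_lit 544567), (nat_lit 2123915), (nat_lit 6562340)]) (PF.cons PF.nil (PF.cons PF.nil PF.nil)))))))))))) (PF.cons (PF.cons (PF.leaf (nat_lit 5421596) (nat_lit 2038960) (nat_lit 47387634) (nat_lit 9070991) [(nat_lit 0), (nat_lit 2038960), (nat_lit 6572265)]) (PF.cons (PF.leaf (nat_lit 5723230) (nat_lit 495126) (nat_lit 46872393) (nat_lit 9056039) [(nat_lit 495126), (nat_lit 2055919), (nat_lit 6573415)]) (PF.cons (PF.leaf (nat_lit 6036753) (nat_lit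
 506267) (nat_lit 46342692) (nat_lit 9038209) [(nat_lit 506267), (nat_lit 2071521), (nat_lit 6572333)]) (PF.cons (PF.leaf (nat_lit 6359759) (nat_lit 516247) (nat_lit 45802219) (nat_lit 9017505) [(nat_lit 516247), (nat_lit 2085704), (nat_lit 6568937)]) (PF.cons (PF.leaf (nat_lit 6690585) (nat_lit 525215) (nat_lit 45253898) (nat_lit 8993967) [(nat_lit 525215), (nat_lit 2098446), (nat_lit 6563193)]) (PF.cons (PF.leaf (nat_lit 7027860) (nat_lit 533283) (nat_lit 44700112) (nat_lit 8967658) [(nat_lit 533283), (nat_lit 2109758), (nat_lit 6555107)]) (PF.cons (PF.leaf (nat_lit 7370396) (nat_lit 540541) (nat_lit 44142851) (nat_lit 8938663) [(nat_lit 540541), (nat_lit 2119666), (nat_lit 6544714)]) (PF.cons (PF.leaf (nat_lit 7717211) (nat_lit 547063) (nat_lit 43583798) (nat_lit 8907084) [(nat_lit 547063), (nat_lit 2128209), (nat_lit 6532068)]) (PF.cons PF.nil (PF.cons PF.nil PF.nil)))))))))) (PF.cons (PF.cons (PF.leaf (nat_lit 6306691) (nat_lit 2083515) (nat_lit 45316991) (nat_lit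 8987576) [(nat_lit 0), (nat_lit 2083515), (nat_lit 6553700)]) (PF.cons (PF.leaf (nat_lit 6622513) (nat_lit 519796) (nat_lit 44793037) (nat_lit 8963240) [(nat_lit 519796), (nat_lit 2095356), (nat_lit 6546669)])
 (PF.cons (PF.leaf (nat_lit 6946839) (nat_lit 528291) (nat_lit 44260799) (nat_lit 8936222) [(nat_lit 528291), (nat_lit 2105916), (nat_lit 6537459)]) (PF.cons (PF.leaf (nat_lit 7277796) (nat_lit 535878) (nat_lit 43722912) (nat_lit 8906610) [(nat_lit 535878), (nat_lit 2115189), (nat_lit 6526086)]) (PF.cons (PF.leaf (nat_lit 7614107) (nat_lit 542659) (nat_lit 43181504) (nat_lit 8874505) [(nat_lit 542659), (nat_lit 2123191), (nat_lit 6512590)]) (PF.cons (PF.leaf (nat_lit 7954683) (nat_lit 548714) (nat_lit 42638331) (nat_lit 8840016) [(nat_lit 548714), (nat_lit 2129953), (nat_lit 6497031)]) (PF.cons (PF.leaf (nat_lit 8298639) (nat_lit 554110) (nat_lit 42094863) (nat_lit 8803262) [(nat_lit 554110), (nat_lit 2135514), (nat_lit 6479481)]) (PF.cons PF.nil PF.nil))))))))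 (PF.cons (PF.cons (PF.leaf (nat_lit 7197914) (nat_lit 2110507) (nat_lit 43287878) (nat_lit 8872635) [(nat_lit 0), (nat_lit 2110507), (nat_lit 6506268)]) (PF.cons (PF.leaf (nat_lit 7521654) (nat_lit 537538) (nat_lit 42767148) (nat_lit 8840254) [(nat_lit 537538), (nat_lit 2117954), (nat_lit 6492054)]) (PF.cons (PF.leaf (nat_lit 7851314) (nat_lit 543926) (nat_lit 42242540) (nat_lit 8805536) [(nat_lit 543926), (nat_lit 2124251),
 (nat_lit 6475876)]) (PF.cons (PF.leaf (nat_lit 8185397) (nat_lit 549589) (nat_lit 41715955) (nat_lit 8768605) [(nat_lit 549589), (nat_lit 2129420), (nat_lit 6457800)]) (PF.cons (PF.leaf (nat_lit 8522919) (nat_lit 554599) (nat_lit 41188947) (nat_lit 8729587) [(nat_lit 554599), (nat_lit 2133495), (nat_lit 6437900)]) (PF.cons PF.nil PF.nil)))))) (PF.cons (PF.cons (PF.leaf (nat_lit 8083012) (nat_lit 2123103) (nat_lit 41325823) (nat_lit 8732364) [(nat_lit 0), (nat_lit 2123103), (nat_lit 6435106)]) (PF.cons (PF.leaf (nat_lit 8409951) (nat_lit 549743)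 (nat_lit 40816495) (nat_lit 8693434) [(nat_lit 549743), (nat_lit 2126851), (nat_lit 6414884)]) (PF.cons (PF.leaf (nat_lit 8740813) (nat_lit 554431) (nat_lit 40306408) (nat_lit 8652562) [(nat_lit 554431), (nat_lit 2129599), (nat_lit 6392981)]) (PF.cons PF.nil PF.nil)))) (PF.cons (PF.cons (PF.leaf (nat_lit 8953237) (nat_lit 2124028) (nat_lit 39446823) (nat_lit 8572671) [(nat_lit 0), (nat_lit 2124028), (nat_lit 6345148)]) (PF.cons PF.nil PF.nil)) (PF.cons PF.nil (PF.cons PF.nil (PF.cons PF.nil PF.nil)))))))))) (PF.cons (PF.cons (PF.cons (PF.leaf (nat_lit 5520908) (nat_lit 6472806) (nat_lit 45253850) (nat_lit 8909349) [(nat_lit 0), (nat_lit 0),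
 (nat_lit 6472806)]) (PF.cons (PF.leaf (nat_lit 5796646) (nat_lit 474680) (nat_lit 44803238) (nat_lit 8890960) [(nat_lit 474680), (nat_lit 0), (nat_lit 6469966)]) (PF.cons (PF.leaf (nat_lit 6086980) (nat_lit 487423) (nat_lit 44333615) (nat_lit 8869911) [(nat_lit 487423), (nat_lit 0), (nat_lit 6465219)]) (PF.cons (PF.leaf (nat_lit 6388689) (nat_lit 498592) (nat_lit 43849810) (nat_lit 8846261) [(nat_lit 498592), (nat_lit 0), (nat_lit 6458481)]) (PF.cons (PF.leaf (nat_lit 6699708) (nat_lit 508457) (nat_lit 43355465) (nat_lit 8820078) [(nat_lit 508457), (nat_lit 0), (nat_lit 6449718)]) (PF.cons (PF.leaf (nat_lit 7018350) (nat_lit 517213) (nat_lit 42853442) (nat_lit 8791440) [(nat_lit 517213), (nat_lit 0), (nat_lit 6438930)]) (PF.cons (PF.leaf (nat_lit 7343247) (nat_lit 525006) (nat_lit 42346054) (nat_lit 8760438) [(nat_lit 525006), (nat_lit 0), (nat_lit 6426141)]) (PF.cons (PF.leaf (nat_lit 7673222) (nat_lit 531946) (nat_lit 41835215) (nat_lit 8727171) [(nat_lit 531946),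 (nat_lit 0), (nat_lit 6411398)]) (PF.cons (PF.leaf (nat_lit 8007316) (nat_lit 538126) (nat_lit 41322528) (nat_lit 8691746) [(nat_lit 538126), (nat_lit 0), (nat_lit 6394761)]) (PF.cons PF.nil (PF.cons PF.nil (PF.cons
 PF.nil PF.nil)))))))))))) (PF.cons (PF.cons (PF.leaf (nat_lit 6348866) (nat_lit 2045539) (nat_lit 43370896) (nat_lit 8812202) [(nat_lit 0), (nat_lit 2045539), (nat_lit 6440087)]) (PF.cons (PF.leaf (nat_lit 6642648) (nat_lit 501485) (nat_lit 42903759) (nat_lit 8785887) [(nat_lit 501485), (nat_lit 2056718), (nat_lit 6430480)]) (PF.cons (PF.leaf (nat_lit 6946778) (nat_lit 510967) (nat_lit 42425190) (nat_lit 8757103) [(nat_lit 510967), (nat_lit 2066675), (nat_lit 6418954)]) (PF.cons (PF.leaf (nat_lit 7258945) (nat_lit 519312) (nat_lit 41938464) (nat_lit 8725964) [(nat_lit 519312), (nat_lit 2075395), (nat_lit 6405525)]) (PF.cons (PF.leaf (nat_lit 7577607) (nat_lit 526684) (nat_lit 41446128) (nat_lit 8692587) [(nat_lit 526684), (nat_lit 2082892), (nat_lit 6390232)])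 (PF.cons (PF.leaf (nat_lit 7901502) (nat_lit 533210) (nat_lit 40950226) (nat_lit 8657085) [(nat_lit 533210), (nat_lit 2089195), (nat_lit 6373127)]) (PF.cons (PF.leaf (nat_lit 8229569) (nat_lit 538984) (nat_lit 40452430) (nat_lit 8619577) [(nat_lit 538984), (nat_lit 2094345), (nat_lit 6354275)]) (PF.cons PF.nil (PF.cons PF.nil (PF.cons PF.nil PF.nil)))))))))) (PF.cons (PF.cons (PF.leaf (nat_lit 7190177) (nat_lit 2069827)
 (nat_lit 41512678) (nat_lit 8689305) [(nat_lit 0), (nat_lit 2069827), (nat_lit 6383587)]) (PF.cons (PF.leaf (nat_lit 7494788) (nat_lit 520479) (nat_lit 41042667) (nat_lit 8656141) [(nat_lit 520479), (nat_lit 2076848), (nat_lit 6367913)]) (PF.cons (PF.leaf (nat_lit 7806694) (nat_lit 527533) (nat_lit 40566416) (nat_lit 8620824) [(nat_lit 527533), (nat_lit 2082770), (nat_lit 6350482)]) (PF.cons (PF.leaf (nat_lit 8124127) (nat_lit 533725) (nat_lit 40086204) (nat_lit 8583492) [(nat_lit 533725), (nat_lit 2087610), (nat_lit 6331359)]) (PF.cons (PF.leaf (nat_lit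 8445921) (nat_lit 539165) (nat_lit 39603843) (nat_lit 8544276) [(nat_lit 539165), (nat_lit 2091401), (nat_lit 6310614)]) (PF.cons (PF.leaf (nat_lit 8771121) (nat_lit 543937) (nat_lit 39120807) (nat_lit 8503303) [(nat_lit 543937), (nat_lit 2094181), (nat_lit 6288324)]) (PF.cons PF.nil (PF.cons PF.nil PF.nil)))))))) (PF.cons (PF.cons (PF.leaf (nat_lit 8031566) (nat_lit 2080655) (nat_lit 39706582) (nat_lit 8545621) [(nat_lit 0), (nat_lit 2080655), (nat_lit 6307321)]) (PF.cons (PF.leaf (nat_lit 8341760) (nat_lit 533537) (nat_lit 39242831) (nat_lit 8506849) [(nat_lit 533537), (nat_lit 2084193), (nat_lit 6286507)]) (PF.cons (PF.leaf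
 (nat_lit 8656962) (nat_lit 538714) (nat_lit 38776432) (nat_lit 8466283) [(nat_lit 538714), (nat_lit 2086774), (nat_lit 6264172)]) (PF.cons (PF.leaf (nat_lit 8975801) (nat_lit 543218) (nat_lit 38309002) (nat_lit 8424064) [(nat_lit 543218), (nat_lit 2088430), (nat_lit 6240400)]) (PF.cons PF.nil (PF.cons PF.nil PF.nil)))))) (PF.cons (PF.cons (PF.leaf (nat_lit 8863628) (nat_lit 2080641) (nat_lit 37969682) (nat_lit 8385979) [(nat_lit 0), (nat_lit 2080641), (nat_lit 6215292)]) (PF.cons (PF.leaf (nat_lit 9175527) (nat_lit 541964) (nat_lit 37518211) (nat_lit 8342827) [(nat_lit 541964), (nat_lit 2081301), (nat_lit 6190302)]) (PF.cons PF.nil (PF.cons PF.nil PF.nil)))) (PF.cons (PF.cons (PF.leaf (nat_lit 9679784) (nat_lit 2071967) (nat_lit 36311909) (nat_lit 8214738) [(nat_lit 0), (nat_lit 2071967), (nat_lit 6111164)]) (PF.cons PF.nil PF.nil)) (PF.cons PF.nil (PF.cons PF.nil PF.nil)))))))) (PF.cons (PF.cons (PF.cons (PF.leaf (nat_lit 7186330) (nat_lit 6257359) (nat_lit 39833793)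 (nat_lit 8502940) [(nat_lit 0), (nat_lit 0), (nat_lit 6257359)]) (PF.cons (PF.leaf (nat_lit 7470758) (nat_lit 501088) (nat_lit 39414176) (nat_lit 8470157) [(nat_lit 501088), (nat_lit 0), (nat_lit 6241130)]) (PF.cons
 (PF.leaf (nat_lit 7764368) (nat_lit 509256) (nat_lit 38985292) (nat_lit 8435257) [(nat_lit 509256), (nat_lit 0), (nat_lit 6223250)]) (PF.cons (PF.leaf (nat_lit 8064934) (nat_lit 516328) (nat_lit 38550019) (nat_lit 8398416) [(nat_lit 516328), (nat_lit 0), (nat_lit 6203796)]) (PF.cons (PF.leaf (nat_lit 8371018) (nat_lit 522477) (nat_lit 38110569) (nat_lit 8359789) [(nat_lit 522477), (nat_lit 0), (nat_lit 6182847)]) (PF.cons (PF.leaf (nat_lit 8681473) (nat_lit 527833) (nat_lit 37668691) (nat_lit 8319515) [(nat_lit 527833), (nat_lit 0), (nat_lit 6160479)]) (PF.cons (PF.leaf (nat_lit 8995311) (nat_lit 532495) (nat_lit 37225801) (nat_lit 8277722) [(nat_lit 532495), (nat_lit 0), (nat_lit 6136772)]) (PF.cons PF.nil PF.nil)))))))) (PF.cons (PF.cons (PF.leaf (nat_lit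 7984638) (nat_lit 2036479) (nat_lit 38177774) (nat_lit 8358980) [(nat_lit 0), (nat_lit 2036479), (nat_lit 6178526)]) (PF.cons (PF.leaf (nat_lit 8277598) (nat_lit 515869) (nat_lit 37758346) (nat_lit 8321171) [(nat_lit 515869), (nat_lit 2040142), (nat_lit 6157761)]) (PF.cons (PF.leaf (nat_lit 8576964) (nat_lit 521815) (nat_lit 37334027) (nat_lit 8281610) [(nat_lit 521815), (nat_lit 2042857), (nat_lit 6135561)]) (PF.cons (PF.leaf
 (nat_lit 8881056) (nat_lit 526949) (nat_lit 36906790) (nat_lit 8240461) [(nat_lit 526949), (nat_lit 2044657), (nat_lit 6112018)]) (PF.cons (PF.leaf (nat_lit 9188791) (nat_lit 531382) (nat_lit 36478185) (nat_lit 8197865) [(nat_lit 531382), (nat_lit 2045581), (nat_lit 6087217)]) (PF.cons PF.nil PF.nil)))))) (PF.cons (PF.cons (PF.leaf (nat_lit 8779605) (nat_lit 2036458) (nat_lit 36575795) (nat_lit 8201521) [(nat_lit 0), (nat_lit 2036458), (nat_lit 6086193)]) (PF.cons (PF.leaf (nat_lit 9076613) (nat_lit 525527) (nat_lit 36163693) (nat_lit 8159784)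 [(nat_lit 525527), (nat_lit 2037328), (nat_lit 6061716)]) (PF.cons (PF.leaf (nat_lit 9377985) (nat_lit 529792) (nat_lit 35749670) (nat_lit 8116644) [(nat_lit 529792), (nat_lit 2037393), (nat_lit 6036041)]) (PF.cons PF.nil PF.nil)))) (PF.cons (PF.cons (PF.leaf (nat_lit 9563772) (nat_lit 2028178) (nat_lit 35039598) (nat_lit 8034291) [(nat_lit 0), (nat_lit 2028178), (nat_lit 5983462)]) (PF.cons (PF.leaf (nat_lit 9861560) (nat_lit 531265) (nat_lit 34639394) (nat_lit 7989630) [(nat_lit 531265), (nat_lit 2026776), (nat_lit 5956063)]) PF.nil)) (PF.cons PF.nil (PF.cons PF.nil PF.nil)))))) (PF.cons (PF.cons (PF.cons (PF.leaf (nat_lit 8703813)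
 (nat_lit 5958217) (nat_lit 35256305) (nat_lit 8019637) [(nat_lit 0), (nat_lit 0), (nat_lit 5958217)]) (PF.cons (PF.leaf (nat_lit 8985298) (nat_lit 507925) (nat_lit 34882467) (nat_lit 7979810) [(nat_lit 507925), (nat_lit 0), (nat_lit 5934652)]) (PF.cons (PF.leaf (nat_lit 9272506) (nat_lit 513010) (nat_lit 34504658) (nat_lit 7938537) [(nat_lit 513010), (nat_lit 0), (nat_lit 5909899)]) (PF.cons (PF.leaf (nat_lit 9563844) (nat_lit 517330) (nat_lit 34124589) (nat_lit 7895987) [(nat_lit 517330), (nat_lit 0), (nat_lit 5884060)]) (PF.cons PF.nil (PF.cons PF.nil PF.nil)))))) (PF.cons (PF.cons (PF.leaf (nat_lit 9456313) (nat_lit 1984242) (nat_lit 33835437) (nat_lit 7857589) [(nat_lit 0), (nat_lit 1984242), (nat_lit 5857885)]) (PF.cons (PF.leaf (nat_lit 9740816) (nat_lit 515094) (nat_lit 33468981) (nat_lit 7814993) [(nat_lit 515094), (nat_lit 1983295), (nat_lit 5831611)]) (PF.cons (PF.leaf (nat_lit 10029224) (nat_lit 518665) (nat_lit 33101042) (nat_lit 7771276) [(nat_lit 518665),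 (nat_lit 1981663), (nat_lit 5804374)]) (PF.cons PF.nil PF.nil)))) (PF.cons (PF.cons (PF.leaf (nat_lit 10197529) (nat_lit 1970612) (nat_lit 32474628) (nat_lit 7689842) [(nat_lit 0), (nat_lit 1970612), (nat_lit
 5750779)]) (PF.cons PF.nil PF.nil)) (PF.cons PF.nil PF.nil)))) (PF.cons (PF.cons (PF.cons (PF.leaf (nat_lit 10073377) (nat_lit 5631194) (nat_lit 31429384) (nat_lit 7523458) [(nat_lit 0), (nat_lit 0), (nat_lit 5631194)]) (PF.cons (PF.leaf (nat_lit 10346170) (nat_lit 503274) (nat_lit 31102766) (nat_lit 7481274) [(nat_lit 503274), (nat_lit 0), (nat_lit 5604299)]) PF.nil)) (PF.cons PF.nil PF.nil)) (PF.cons PF.nil (PF.cons PF.nil (PF.cons PF.nil (PF.cons PF.nil PF.nil))))))))))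

def p13_18_1_0 : pfC (piC [(nat_lit 38632330), (nat_lit 24534081), (nat_lit 15702173)] (nat_lit 11363143)) p13_18_1 (nat_lit 3) (nat_lit 0) (nat_lit 1) = true := by decide +kernel
def p13_18_1_1 : pfC (piC [(nat_lit 38632330), (nat_lit 24534081), (nat_lit 15702173)] (nat_lit 11363143)) p13_18_1 (nat_lit 3) (nat_lit 1) (nat_lit 2) = true := by decide +kernel
def p13_18_1_2 : pfC (piC [(nat_lit 38632330), (nat_lit 24534081), (nat_lit 15702173)] (nat_lit 11363143)) p13_18_1 (nat_lit 3) (nat_lit 2) (nat_lit 3) = true := by decide +kernel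
def p13_18_1_3 : pfC (piC [(nat_lit 38632330), (nat_lit 24534081), (nat_lit 15702173)] (nat_lit 11363143)) p13_18_1 (nat_lit 3) (nat_lit 3) (nat_lit 4) = true := by decide +kernel
def p13_18_1_4 : pfC (piC [(nat_lit 38632330), (nat_lit 24534081), (nat_lit 15702173)] (nat_lit 11363143)) p13_18_1 (nat_lit 3) (nat_lit 4) (nat_lit 5) = true := by decide +kernel
def p13_18_1_5 : pfC (piC [(nat_lit 38632330), (nat_lit 24534081), (nat_lit 15702173)] (nat_lit 11363143)) p13_18_1 (nat_lit 3) (nat_lit 5) (nat_lit 6) = true := by decide +kernel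
def p13_18_1_6 : pfC (piC [(nat_lit 38632330), (nat_lit 24534081), (nat_lit 15702173)] (nat_lit 11363143)) p13_18_1 (nat_lit 3) (nat_lit 6) (nat_lit 7) = true := by decide +kernel
def p13_18_1_7 : pfC (piC [(nat_lit 38632330), (nat_lit 24534081), (nat_lit 15702173)] (nat_lit 11363143)) p13_18_1 (nat_lit 3) (nat_lit 7) (nat_lit 8) = true := by decide +kernel
def p13_18_1_8 : pfC (piC [(nat_lit 38632330), (nat_lit 24534081), (nat_lit 15702173)] (nat_lit 11363143)) p13_18_1 (nat_lit 3) (nat_lit 8) (nat_lit 9) = true := by decide +kernel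
def p13_18_1_9 : pfC (piC [(nat_lit 38632330), (nat_lit 24534081), (nat_lit 15702173)] (nat_lit 11363143)) p13_18_1 (nat_lit 3) (nat_lit 9) (nat_lit 10) = true := by decide +kernel
def p13_18_1_10 : pfC (piC [(nat_lit 38632330), (nat_lit 24534081), (nat_lit 15702173)] (nat_lit 11363143)) p13_18_1 (nat_lit 3) (nat_lit 10) (nat_lit 11) = true := by decide +kernel
def p13_18_1_11 : pfC (piC [(nat_lit 38632330), (nat_lit 24534081), (nat_lit 15702173)] (nat_lit 11363143)) p13_18_1 (nat_lit 3) (nat_lit 11) (nat_lit 12) = true := by decide +kernel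
def p13_18_1_12 : pfC (piC [(nat_lit 38632330), (nat_lit 24534081), (nat_lit 15702173)] (nat_lit 11363143)) p13_18_1 (nat_lit 3) (nat_lit 12) (nat_lit 13) = true := by decide +kernel
def p13_18_1_13 : pfC (piC [(nat_lit 38632330), (nat_lit 24534081), (nat_lit 15702173)] (nat_lit 11363143)) p13_18_1 (nat_lit 3) (nat_lit 13) (nat_lit 14) = true := by decide +kernel
def p13_18_1_14 : pfC (piC [(nat_lit 38632330), (nat_lit 24534081), (nat_lit 15702173)] (nat_lit 11363143)) p13_18_1 (nat_lit 3) (nat_lit 14) (nat_lit 15) = true := by decide +kernel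
def p13_18_1_15 : pfC (piC [(nat_lit 38632330), (nat_lit 24534081), (nat_lit 15702173)] (nat_lit 11363143)) p13_18_1 (nat_lit 3) (nat_lit 15) (nat_lit 16) = true := by decide +kernel
def p13_18_1_16 : pfC (piC [(nat_lit 38632330), (nat_lit 24534081), (nat_lit 15702173)] (nat_lit 11363143)) p13_18_1 (nat_lit 3) (nat_lit 16) (nat_lit 17) = true := by decide +kernel
def p13_18_1_17 : pfC (piC [(nat_lit 38632330), (nat_lit 24534081), (nat_lit 15702173)] (nat_lit 11363143)) p13_18_1 (nat_lit 3) (nat_lit 17) (nat_lit 18) = true := by decide +kernel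
def p13_18_1_18 : pfC (piC [(nat_lit 38632330), (nat_lit 24534081), (nat_lit 15702173)] (nat_lit 11363143)) p13_18_1 (nat_lit 3) (nat_lit 18) (nat_lit 19) = true := by decide +kernel
def p13_18_1_19 : pfC (piC [(nat_lit 38632330), (nat_lit 24534081), (nat_lit 15702173)] (nat_lit 11363143)) p13_18_1 (nat_lit 3) (nat_lit 19) (nat_lit 20) = true := by decide +kernel
def p13_18_1_20 : pfC (piC [(nat_lit 38632330), (nat_lit 24534081), (nat_lit 15702173)] (nat_lit 11363143)) p13_18_1 (nat_lit 3) (nat_lit 20) (nat_lit 21) = true := by decide +kernel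
def p13_18_1_21 : pfC (piC [(nat_lit 38632330), (nat_lit 24534081), (nat_lit 15702173)] (nat_lit 11363143)) p13_18_1 (nat_lit 3) (nat_lit 21) (nat_lit 22) = true := by decide +kernel
def p13_18_1_22 : pfC (piC [(nat_lit 38632330), (nat_lit 24534081), (nat_lit 15702173)] (nat_lit 11363143)) p13_18_1 (nat_lit 3) (nat_lit 22) (nat_lit 23) = true := by decide +kernel
def p13_18_1_23 : pfC (piC [(nat_lit 38632330), (nat_lit 24534081), (nat_lit 15702173)] (nat_lit 11363143)) p13_18_1 (nat_lit 3) (nat_lit 23) (nat_lit 24) = true := by decide +kernel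
def p13_18_1_24 : pfC (piC [(nat_lit 38632330), (nat_lit 24534081), (nat_lit 15702173)] (nat_lit 11363143)) p13_18_1 (nat_lit 3) (nat_lit 24) (nat_lit 25) = true := by decide +kernel
def p13_18_1_25 : pfC (piC [(nat_lit 38632330), (nat_lit 24534081), (nat_lit 15702173)] (nat_lit 11363143)) p13_18_1 (nat_lit 3) (nat_lit 25) (nat_lit 26) = true := by decide +kernel
def p13_18_1_26 : pfC (piC [(nat_lit 38632330), (nat_lit 24534081), (nat_lit 15702173)] (nat_lit 11363143)) p13_18_1 (nat_lit 3) (nat_lit 26) (nat_lit 27) = true := by decide +kernel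
def p13_18_1_27 : pfC (piC [(nat_lit 38632330), (nat_lit 24534081), (nat_lit 15702173)] (nat_lit 11363143)) p13_18_1 (nat_lit 3) (nat_lit 27) (nat_lit 28) = true := by decide +kernel
def p13_18_1_28 : pfC (piC [(nat_lit 38632330), (nat_lit 24534081), (nat_lit 15702173)] (nat_lit 11363143)) p13_18_1 (nat_lit 3) (nat_lit 28) (nat_lit 29) = true := by decide +kernel
def p13_18_1_29 : pfC (piC [(nat_lit 38632330), (nat_lit 24534081), (nat_lit 15702173)] (nat_lit 11363143)) p13_18_1 (nat_lit 3) (nat_lit 29) (nat_lit 30) = true := by decide +kernel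
def p13_18_1_30 : pfC (piC [(nat_lit 38632330), (nat_lit 24534081), (nat_lit 15702173)] (nat_lit 11363143)) p13_18_1 (nat_lit 3) (nat_lit 30) (nat_lit 31) = true := by decide +kernel
def p13_18_1_31 : pfC (piC [(nat_lit 38632330), (nat_lit 24534081), (nat_lit 15702173)] (nat_lit 11363143)) p13_18_1 (nat_lit 3) (nat_lit 31) (nat_lit 32) = true := by decide +kernel
def p13_18_1_32 : pfC (piC [(nat_lit 38632330), (nat_lit 24534081), (nat_lit 15702173)] (nat_lit 11363143)) p13_18_1 (nat_lit 3) (nat_lit 32) (nat_lit 33) = true := by decide +kernel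
def p13_18_1_33 : pfC (piC [(nat_lit 38632330), (nat_lit 24534081), (nat_lit 15702173)] (nat_lit 11363143)) p13_18_1 (nat_lit 3) (nat_lit 33) (nat_lit 34) = true := by decide +kernel
def p13_18_1_34 : pfC (piC [(nat_lit 38632330), (nat_lit 24534081), (nat_lit 15702173)] (nat_lit 11363143)) p13_18_1 (nat_lit 3) (nat_lit 34) (nat_lit 35) = true := by decide +kernel
def p13_18_1_35 : pfC (piC [(nat_lit 38632330), (nat_lit 24534081), (nat_lit 15702173)] (nat_lit 11363143)) p13_18_1 (nat_lit 3) (nat_lit 35) (nat_lit 36) = true := by decide +kernel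
def p13_18_1_36 : pfC (piC [(nat_lit 38632330), (nat_lit 24534081), (nat_lit 15702173)] (nat_lit 11363143)) p13_18_1 (nat_lit 3) (nat_lit 36) (nat_lit 37) = true := by decide +kernel
def p13_18_1_37 : pfC (piC [(nat_lit 38632330), (nat_lit 24534081), (nat_lit 15702173)] (nat_lit 11363143)) p13_18_1 (nat_lit 3) (nat_lit 37) (nat_lit 38) = true := by decide +kernel
def p13_18_1_38 : pfC (piC [(nat_lit 38632330), (nat_lit 24534081), (nat_lit 15702173)] (nat_lit 11363143)) p13_18_1 (nat_lit 3) (nat_lit 38) (nat_lit 39) = true := by decide +kernel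
def p13_18_1_39 : pfC (piC [(nat_lit 38632330), (nat_lit 24534081), (nat_lit 15702173)] (nat_lit 11363143)) p13_18_1 (nat_lit 3) (nat_lit 39) (nat_lit 40) = true := by decide +kernel
def p13_18_1_40 : pfC (piC [(nat_lit 38632330), (nat_lit 24534081), (nat_lit 15702173)] (nat_lit 11363143)) p13_18_1 (nat_lit 3) (nat_lit 40) (nat_lit 41) = true := by decide +kernel
def p13_18_1_41 : pfC (piC [(nat_lit 38632330), (nat_lit 24534081), (nat_lit 15702173)] (nat_lit 11363143)) p13_18_1 (nat_lit 3) (nat_lit 41) (nat_lit 42) = true := by decide +kernel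
def p13_18_1_42 : pfC (piC [(nat_lit 38632330), (nat_lit 24534081), (nat_lit 15702173)] (nat_lit 11363143)) p13_18_1 (nat_lit 3) (nat_lit 42) (nat_lit 43) = true := by decide +kernel
def p13_18_1_43 : pfC (piC [(nat_lit 38632330), (nat_lit 24534081), (nat_lit 15702173)] (nat_lit 11363143)) p13_18_1 (nat_lit 3) (nat_lit 43) (nat_lit 44) = true := by decide +kernel
def p13_18_1_44 : pfC (piC [(nat_lit 38632330), (nat_lit 24534081), (nat_lit 15702173)] (nat_lit 11363143)) p13_18_1 (nat_lit 3) (nat_lit 44) (nat_lit 45) = true := by decide +kernel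
def p13_18_1_45 : pfC (piC [(nat_lit 38632330), (nat_lit 24534081), (nat_lit 15702173)] (nat_lit 11363143)) p13_18_1 (nat_lit 3) (nat_lit 45) (nat_lit 46) = true := by decide +kernel
def p13_18_1_46 : pfC (piC [(nat_lit 38632330), (nat_lit 24534081), (nat_lit 15702173)] (nat_lit 11363143)) p13_18_1 (nat_lit 3) (nat_lit 46) (nat_lit 47) = true := by decide +kernel
def p13_18_1_47 : pfC (piC [(nat_lit 38632330), (nat_lit 24534081), (nat_lit 15702173)] (nat_lit 11363143)) p13_18_1 (nat_lit 3) (nat_lit 47) (nat_lit 48) = true := by decide +kernel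
def p13_18_1_48 : pfC (piC [(nat_lit 38632330), (nat_lit 24534081), (nat_lit 15702173)] (nat_lit 11363143)) p13_18_1 (nat_lit 3) (nat_lit 48) (nat_lit 49) = true := by decide +kernel
def p13_18_1_49 : pfC (piC [(nat_lit 38632330), (nat_lit 24534081), (nat_lit 15702173)] (nat_lit 11363143)) p13_18_1 (nat_lit 3) (nat_lit 49) (nat_lit 50) = true := by decide +kernel
def p13_18_1_50 : pfC (piC [(nat_lit 38632330), (nat_lit 24534081), (nat_lit 15702173)] (nat_lit 11363143)) p13_18_1 (nat_lit 3) (nat_lit 50) (nat_lit 51) = true := by decide +kernel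
def p13_18_1_51 : pfC (piC [(nat_lit 38632330), (nat_lit 24534081), (nat_lit 15702173)] (nat_lit 11363143)) p13_18_1 (nat_lit 3) (nat_lit 51) (nat_lit 52) = true := by decide +kernel
def p13_18_1_52 : pfC (piC [(nat_lit 38632330), (nat_lit 24534081), (nat_lit 15702173)] (nat_lit 11363143)) p13_18_1 (nat_lit 3) (nat_lit 52) (nat_lit 53) = true := by decide +kernel
def p13_18_1_53 : pfC (piC [(nat_lit 38632330), (nat_lit 24534081), (nat_lit 15702173)] (nat_lit 11363143)) p13_18_1 (nat_lit 3) (nat_lit 53) (nat_lit 54) = true := by decide +kernel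
def p13_18_1_54 : pfC (piC [(nat_lit 38632330), (nat_lit 24534081), (nat_lit 15702173)] (nat_lit 11363143)) p13_18_1 (nat_lit 3) (nat_lit 54) (nat_lit 55) = true := by decide +kernel
def p13_18_1_55 : pfC (piC [(nat_lit 38632330), (nat_lit 24534081), (nat_lit 15702173)] (nat_lit 11363143)) p13_18_1 (nat_lit 3) (nat_lit 55) (nat_lit 56) = true := by decide +kernel
def p13_18_1_56 : pfC (piC [(nat_lit 38632330), (nat_lit 24534081), (nat_lit 15702173)] (nat_lit 11363143)) p13_18_1 (nat_lit 3) (nat_lit 56) (nat_lit 57) = true := by decide +kernel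
def p13_18_1_57 : pfC (piC [(nat_lit 38632330), (nat_lit 24534081), (nat_lit 15702173)] (nat_lit 11363143)) p13_18_1 (nat_lit 3) (nat_lit 57) (nat_lit 58) = true := by decide +kernel
def p13_18_1_58 : pfC (piC [(nat_lit 38632330), (nat_lit 24534081), (nat_lit 15702173)] (nat_lit 11363143)) p13_18_1 (nat_lit 3) (nat_lit 58) (nat_lit 59) = true := by decide +kernel
def p13_18_1_59 : pfC (piC [(nat_lit 38632330), (nat_lit 24534081), (nat_lit 15702173)] (nat_lit 11363143)) p13_18_1 (nat_lit 3) (nat_lit 59) (nat_lit 60) = true := by decide +kernel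
def p13_18_1_60 : pfC (piC [(nat_lit 38632330), (nat_lit 24534081), (nat_lit 15702173)] (nat_lit 11363143)) p13_18_1 (nat_lit 3) (nat_lit 60) (nat_lit 61) = true := by decide +kernel
def p13_18_1_61 : pfC (piC [(nat_lit 38632330), (nat_lit 24534081), (nat_lit 15702173)] (nat_lit 11363143)) p13_18_1 (nat_lit 3) (nat_lit 61) (nat_lit 62) = true := by decide +kernel
def p13_18_1_62 : pfC (piC [(nat_lit 38632330), (nat_lit 24534081), (nat_lit 15702173)] (nat_lit 11363143)) p13_18_1 (nat_lit 3) (nat_lit 62) (nat_lit 63) = true := by decide +kernel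
def p13_18_1_63 : pfC (piC [(nat_lit 38632330), (nat_lit 24534081), (nat_lit 15702173)] (nat_lit 11363143)) p13_18_1 (nat_lit 3) (nat_lit 63) (nat_lit 64) = true := by decide +kernel
def p13_18_1_64 : pfC (piC [(nat_lit 38632330), (nat_lit 24534081), (nat_lit 15702173)] (nat_lit 11363143)) p13_18_1 (nat_lit 3) (nat_lit 64) (nat_lit 65) = true := by decide +kernel
def p13_18_1_65 : pfC (piC [(nat_lit 38632330), (nat_lit 24534081), (nat_lit 15702173)] (nat_lit 11363143)) p13_18_1 (nat_lit 3) (nat_lit 65) (nat_lit 66) = true := by decide +kernel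
def p13_18_1_66 : pfC (piC [(nat_lit 38632330), (nat_lit 24534081), (nat_lit 15702173)] (nat_lit 11363143)) p13_18_1 (nat_lit 3) (nat_lit 66) (nat_lit 67) = true := by decide +kernel
def p13_18_1_67 : pfC (piC [(nat_lit 38632330), (nat_lit 24534081), (nat_lit 15702173)] (nat_lit 11363143)) p13_18_1 (nat_lit 3) (nat_lit 67) (nat_lit 68) = true := by decide +kernel
def p13_18_1_68 : pfC (piC [(nat_lit 38632330), (nat_lit 24534081), (nat_lit 15702173)] (nat_lit 11363143)) p13_18_1 (nat_lit 3) (nat_lit 68) (nat_lit 69) = true := by decide +kernel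
def p13_18_1_69 : pfC (piC [(nat_lit 38632330), (nat_lit 24534081), (nat_lit 15702173)] (nat_lit 11363143)) p13_18_1 (nat_lit 3) (nat_lit 69) (nat_lit 70) = true := by decide +kernel
def p13_18_1_70 : pfC (piC [(nat_lit 38632330), (nat_lit 24534081), (nat_lit 15702173)] (nat_lit 11363143)) p13_18_1 (nat_lit 3) (nat_lit 70) (nat_lit 71) = true := by decide +kernel
def p13_18_1_71 : pfC (piC [(nat_lit 38632330), (nat_lit 24534081), (nat_lit 15702173)] (nat_lit 11363143)) p13_18_1 (nat_lit 3) (nat_lit 71) (nat_lit 72) = true := by decide +kernel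
def p13_18_1_72 : pfC (piC [(nat_lit 38632330), (nat_lit 24534081), (nat_lit 15702173)] (nat_lit 11363143)) p13_18_1 (nat_lit 3) (nat_lit 72) (nat_lit 73) = true := by decide +kernel
def p13_18_1_73 : pfC (piC [(nat_lit 38632330), (nat_lit 24534081), (nat_lit 15702173)] (nat_lit 11363143)) p13_18_1 (nat_lit 3) (nat_lit 73) (nat_lit 74) = true := by decide +kernel
def p13_18_1_74 : pfC (piC [(nat_lit 38632330), (nat_lit 24534081), (nat_lit 15702173)] (nat_lit 11363143)) p13_18_1 (nat_lit 3) (nat_lit 74) (nat_lit 75) = true := by decide +kernel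
def p13_18_1_75 : pfC (piC [(nat_lit 38632330), (nat_lit 24534081), (nat_lit 15702173)] (nat_lit 11363143)) p13_18_1 (nat_lit 3) (nat_lit 75) (nat_lit 76) = true := by decide +kernel
def p13_18_1_76 : pfC (piC [(nat_lit 38632330), (nat_lit 24534081), (nat_lit 15702173)] (nat_lit 11363143)) p13_18_1 (nat_lit 3) (nat_lit 76) (nat_lit 77) = true := by decide +kernel
def p13_18_1_77 : pfC (piC [(nat_lit 38632330), (nat_lit 24534081), (nat_lit 15702173)] (nat_lit 11363143)) p13_18_1 (nat_lit 3) (nat_lit 77) (nat_lit 78) = true := by decide +kernel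
def p13_18_1_78 : pfC (piC [(nat_lit 38632330), (nat_lit 24534081), (nat_lit 15702173)] (nat_lit 11363143)) p13_18_1 (nat_lit 3) (nat_lit 78) (nat_lit 79) = true := by decide +kernel
def p13_18_1_79 : pfC (piC [(nat_lit 38632330), (nat_lit 24534081), (nat_lit 15702173)] (nat_lit 11363143)) p13_18_1 (nat_lit 3) (nat_lit 79) (nat_lit 80) = true := by decide +kernel
def p13_18_1_80 : pfC (piC [(nat_lit 38632330), (nat_lit 24534081), (nat_lit 15702173)] (nat_lit 11363143)) p13_18_1 (nat_lit 3) (nat_lit 80) (nat_lit 81) = true := by decide +kernel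
def p13_18_1_81 : pfC (piC [(nat_lit 38632330), (nat_lit 24534081), (nat_lit 15702173)] (nat_lit 11363143)) p13_18_1 (nat_lit 3) (nat_lit 81) (nat_lit 82) = true := by decide +kernel
def p13_18_1_82 : pfC (piC [(nat_lit 38632330), (nat_lit 24534081), (nat_lit 15702173)] (nat_lit 11363143)) p13_18_1 (nat_lit 3) (nat_lit 82) (nat_lit 83) = true := by decide +kernel
def p13_18_1_83 : pfC (piC [(nat_lit 38632330), (nat_lit 24534081), (nat_lit 15702173)] (nat_lit 11363143)) p13_18_1 (nat_lit 3) (nat_lit 83) (nat_lit 84) = true := by decide +kernel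
def p13_18_1_84 : pfC (piC [(nat_lit 38632330), (nat_lit 24534081), (nat_lit 15702173)] (nat_lit 11363143)) p13_18_1 (nat_lit 3) (nat_lit 84) (nat_lit 85) = true := by decide +kernel
def p13_18_1_85 : pfC (piC [(nat_lit 38632330), (nat_lit 24534081), (nat_lit 15702173)] (nat_lit 11363143)) p13_18_1 (nat_lit 3) (nat_lit 85) (nat_lit 86) = true := by decide +kernel
def p13_18_1_86 : pfC (piC [(nat_lit 38632330), (nat_lit 24534081), (nat_lit 15702173)] (nat_lit 11363143)) p13_18_1 (nat_lit 3) (nat_lit 86) (nat_lit 87) = true := by decide +kernel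
def p13_18_1_87 : pfC (piC [(nat_lit 38632330), (nat_lit 24534081), (nat_lit 15702173)] (nat_lit 11363143)) p13_18_1 (nat_lit 3) (nat_lit 87) (nat_lit 88) = true := by decide +kernel
def p13_18_1_88 : pfC (piC [(nat_lit 38632330), (nat_lit 24534081), (nat_lit 15702173)] (nat_lit 11363143)) p13_18_1 (nat_lit 3) (nat_lit 88) (nat_lit 89) = true := by decide +kernel
def p13_18_1_89 : pfC (piC [(nat_lit 38632330), (nat_lit 24534081), (nat_lit 15702173)] (nat_lit 11363143)) p13_18_1 (nat_lit 3) (nat_lit 89) (nat_lit 90) = true := by decide +kernel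
def p13_18_1_90 : pfC (piC [(nat_lit 38632330), (nat_lit 24534081), (nat_lit 15702173)] (nat_lit 11363143)) p13_18_1 (nat_lit 3) (nat_lit 90) (nat_lit 91) = true := by decide +kernel
def p13_18_1_91 : pfC (piC [(nat_lit 38632330), (nat_lit 24534081), (nat_lit 15702173)] (nat_lit 11363143)) p13_18_1 (nat_lit 3) (nat_lit 91) (nat_lit 92) = true := by decide +kernel
def p13_18_1_92 : pfC (piC [(nat_lit 38632330), (nat_lit 24534081), (nat_lit 15702173)] (nat_lit 11363143)) p13_18_1 (nat_lit 3) (nat_lit 92) (nat_lit 93) = true := by decide +kernel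
def p13_18_1_93 : pfC (piC [(nat_lit 38632330), (nat_lit 24534081), (nat_lit 15702173)] (nat_lit 11363143)) p13_18_1 (nat_lit 3) (nat_lit 93) (nat_lit 94) = true := by decide +kernel
def p13_18_1_94 : pfC (piC [(nat_lit 38632330), (nat_lit 24534081), (nat_lit 15702173)] (nat_lit 11363143)) p13_18_1 (nat_lit 3) (nat_lit 94) (nat_lit 95) = true := by decide +kernel
def p13_18_1_95 : pfC (piC [(nat_lit 38632330), (nat_lit 24534081), (nat_lit 15702173)] (nat_lit 11363143)) p13_18_1 (nat_lit 3) (nat_lit 95) (nat_lit 96) = true := by decide +kernel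
def p13_18_1_96 : pfC (piC [(nat_lit 38632330), (nat_lit 24534081), (nat_lit 15702173)] (nat_lit 11363143)) p13_18_1 (nat_lit 3) (nat_lit 96) (nat_lit 97) = true := by decide +kernel
def p13_18_1_97 : pfC (piC [(nat_lit 38632330), (nat_lit 24534081), (nat_lit 15702173)] (nat_lit 11363143)) p13_18_1 (nat_lit 3) (nat_lit 97) (nat_lit 98) = true := by decide +kernel
def p13_18_1_98 : pfC (piC [(nat_lit 38632330), (nat_lit 24534081), (nat_lit 15702173)] (nat_lit 11363143)) p13_18_1 (nat_lit 3) (nat_lit 98) (nat_lit 99) = true := by decide +kernel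
def p13_18_1_99 : pfC (piC [(nat_lit 38632330), (nat_lit 24534081), (nat_lit 15702173)] (nat_lit 11363143)) p13_18_1 (nat_lit 3) (nat_lit 99) (nat_lit 100) = true := by decide +kernel
def p13_18_1_100 : pfC (piC [(nat_lit 38632330), (nat_lit 24534081), (nat_lit 15702173)] (nat_lit 11363143)) p13_18_1 (nat_lit 3) (nat_lit 100) (nat_lit 101) = true := by decide +kernel
def p13_18_1_101 : pfC (piC [(nat_lit 38632330), (nat_lit 24534081), (nat_lit 15702173)] (nat_lit 11363143)) p13_18_1 (nat_lit 3) (nat_lit 101) (nat_lit 102) = true := by decide +kernel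
def p13_18_1_102 : pfC (piC [(nat_lit 38632330), (nat_lit 24534081), (nat_lit 15702173)] (nat_lit 11363143)) p13_18_1 (nat_lit 3) (nat_lit 102) (nat_lit 103) = true := by decide +kernel
def p13_18_1_103 : pfC (piC [(nat_lit 38632330), (nat_lit 24534081), (nat_lit 15702173)] (nat_lit 11363143)) p13_18_1 (nat_lit 3) (nat_lit 103) (nat_lit 104) = true := by decide +kernel
def p13_18_1_104 : pfC (piC [(nat_lit 38632330), (nat_lit 24534081), (nat_lit 15702173)] (nat_lit 11363143)) p13_18_1 (nat_lit 3) (nat_lit 104) (nat_lit 105) = true := by decide +kernel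
def p13_18_1_105 : pfC (piC [(nat_lit 38632330), (nat_lit 24534081), (nat_lit 15702173)] (nat_lit 11363143)) p13_18_1 (nat_lit 3) (nat_lit 105) (nat_lit 106) = true := by decide +kernel
def p13_18_1_106 : pfC (piC [(nat_lit 38632330), (nat_lit 24534081), (nat_lit 15702173)] (nat_lit 11363143)) p13_18_1 (nat_lit 3) (nat_lit 106) (nat_lit 107) = true := by decide +kernel
def p13_18_1_107 : pfC (piC [(nat_lit 38632330), (nat_lit 24534081), (nat_lit 15702173)] (nat_lit 11363143)) p13_18_1 (nat_lit 3) (nat_lit 107) (nat_lit 108) = true := by decide +kernel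
def p13_18_1_108 : pfC (piC [(nat_lit 38632330), (nat_lit 24534081), (nat_lit 15702173)] (nat_lit 11363143)) p13_18_1 (nat_lit 3) (nat_lit 108) (nat_lit 109) = true := by decide +kernel
def p13_18_1_109 : pfC (piC [(nat_lit 38632330), (nat_lit 24534081), (nat_lit 15702173)] (nat_lit 11363143)) p13_18_1 (nat_lit 3) (nat_lit 109) (nat_lit 110) = true := by decide +kernel
def p13_18_1_110 : pfC (piC [(nat_lit 38632330), (nat_lit 24534081), (nat_lit 15702173)] (nat_lit 11363143)) p13_18_1 (nat_lit 3) (nat_lit 110) (nat_lit 111) = true := by decide +kernel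
def p13_18_1_111 : pfC (piC [(nat_lit 38632330), (nat_lit 24534081), (nat_lit 15702173)] (nat_lit 11363143)) p13_18_1 (nat_lit 3) (nat_lit 111) (nat_lit 112) = true := by decide +kernel
def p13_18_1_112 : pfC (piC [(nat_lit 38632330), (nat_lit 24534081), (nat_lit 15702173)] (nat_lit 11363143)) p13_18_1 (nat_lit 3) (nat_lit 112) (nat_lit 113) = true := by decide +kernel
def p13_18_1_113 : pfC (piC [(nat_lit 38632330), (nat_lit 24534081), (nat_lit 15702173)] (nat_lit 11363143)) p13_18_1 (nat_lit 3) (nat_lit 113) (nat_lit 114) = true := by decide +kernel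
def p13_18_1_114 : pfC (piC [(nat_lit 38632330), (nat_lit 24534081), (nat_lit 15702173)] (nat_lit 11363143)) p13_18_1 (nat_lit 3) (nat_lit 114) (nat_lit 115) = true := by decide +kernel
def p13_18_1_115 : pfC (piC [(nat_lit 38632330), (nat_lit 24534081), (nat_lit 15702173)] (nat_lit 11363143)) p13_18_1 (nat_lit 3) (nat_lit 115) (nat_lit 116) = true := by decide +kernel
def p13_18_1_116 : pfC (piC [(nat_lit 38632330), (nat_lit 24534081), (nat_lit 15702173)] (nat_lit 11363143)) p13_18_1 (nat_lit 3) (nat_lit 116) (nat_lit 117) = true := by decide +kernel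
def p13_18_1_117 : pfC (piC [(nat_lit 38632330), (nat_lit 24534081), (nat_lit 15702173)] (nat_lit 11363143)) p13_18_1 (nat_lit 3) (nat_lit 117) (nat_lit 118) = true := by decide +kernel
def p13_18_1_118 : pfC (piC [(nat_lit 38632330), (nat_lit 24534081), (nat_lit 15702173)] (nat_lit 11363143)) p13_18_1 (nat_lit 3) (nat_lit 118) (nat_lit 119) = true := by decide +kernel
def p13_18_1_119 : pfC (piC [(nat_lit 38632330), (nat_lit 24534081), (nat_lit 15702173)] (nat_lit 11363143)) p13_18_1 (nat_lit 3) (nat_lit 119) (nat_lit 120) = true := by decide +kernel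
def p13_18_1_120 : pfC (piC [(nat_lit 38632330), (nat_lit 24534081), (nat_lit 15702173)] (nat_lit 11363143)) p13_18_1 (nat_lit 3) (nat_lit 120) (nat_lit 121) = true := by decide +kernel
def p13_18_1_121 : pfC (piC [(nat_lit 38632330), (nat_lit 24534081), (nat_lit 15702173)] (nat_lit 11363143)) p13_18_1 (nat_lit 3) (nat_lit 121) (nat_lit 122) = true := by decide +kernel
def p13_18_1_122 : pfC (piC [(nat_lit 38632330), (nat_lit 24534081), (nat_lit 15702173)] (nat_lit 11363143)) p13_18_1 (nat_lit 3) (nat_lit 122) (nat_lit 123) = true := by decide +kernel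
def p13_18_1_123 : pfC (piC [(nat_lit 38632330), (nat_lit 24534081), (nat_lit 15702173)] (nat_lit 11363143)) p13_18_1 (nat_lit 3) (nat_lit 123) (nat_lit 124) = true := by decide +kernel
def p13_18_1_124 : pfC (piC [(nat_lit 38632330), (nat_lit 24534081), (nat_lit 15702173)] (nat_lit 11363143)) p13_18_1 (nat_lit 3) (nat_lit 124) (nat_lit 125) = true := by decide +kernel
def p13_18_1_125 : pfC (piC [(nat_lit 38632330), (nat_lit 24534081), (nat_lit 15702173)] (nat_lit 11363143)) p13_18_1 (nat_lit 3) (nat_lit 125) (nat_lit 126) = true := by decide +kernel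
def p13_18_1_126 : pfC (piC [(nat_lit 38632330), (nat_lit 24534081), (nat_lit 15702173)] (nat_lit 11363143)) p13_18_1 (nat_lit 3) (nat_lit 126) (nat_lit 127) = true := by decide +kernel
def p13_18_1_127 : pfC (piC [(nat_lit 38632330), (nat_lit 24534081), (nat_lit 15702173)] (nat_lit 11363143)) p13_18_1 (nat_lit 3) (nat_lit 127) (nat_lit 128) = true := by decide +kernel
def p13_18_1_128 : pfC (piC [(nat_lit 38632330), (nat_lit 24534081), (nat_lit 15702173)] (nat_lit 11363143)) p13_18_1 (nat_lit 3) (nat_lit 128) (nat_lit 129) = true := by decide +kernel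
def p13_18_1_129 : pfC (piC [(nat_lit 38632330), (nat_lit 24534081), (nat_lit 15702173)] (nat_lit 11363143)) p13_18_1 (nat_lit 3) (nat_lit 129) (nat_lit 130) = true := by decide +kernel
def p13_18_1_130 : pfC (piC [(nat_lit 38632330), (nat_lit 24534081), (nat_lit 15702173)] (nat_lit 11363143)) p13_18_1 (nat_lit 3) (nat_lit 130) (nat_lit 131) = true := by decide +kernel
def p13_18_1_131 : pfC (piC [(nat_lit 38632330), (nat_lit 24534081), (nat_lit 15702173)] (nat_lit 11363143)) p13_18_1 (nat_lit 3) (nat_lit 131) (nat_lit 132) = true := by decide +kernel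
def p13_18_1_132 : pfC (piC [(nat_lit 38632330), (nat_lit 24534081), (nat_lit 15702173)] (nat_lit 11363143)) p13_18_1 (nat_lit 3) (nat_lit 132) (nat_lit 133) = true := by decide +kernel
def p13_18_1_133 : pfC (piC [(nat_lit 38632330), (nat_lit 24534081), (nat_lit 15702173)] (nat_lit 11363143)) p13_18_1 (nat_lit 3) (nat_lit 133) (nat_lit 134) = true := by decide +kernel
def p13_18_1_134 : pfC (piC [(nat_lit 38632330), (nat_lit 24534081), (nat_lit 15702173)] (nat_lit 11363143)) p13_18_1 (nat_lit 3) (nat_lit 134) (nat_lit 135) = true := by decide +kernel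
def p13_18_1_135 : pfC (piC [(nat_lit 38632330), (nat_lit 24534081), (nat_lit 15702173)] (nat_lit 11363143)) p13_18_1 (nat_lit 3) (nat_lit 135) (nat_lit 136) = true := by decide +kernel
def p13_18_1_136 : pfC (piC [(nat_lit 38632330), (nat_lit 24534081), (nat_lit 15702173)] (nat_lit 11363143)) p13_18_1 (nat_lit 3) (nat_lit 136) (nat_lit 137) = true := by decide +kernel
def p13_18_1_137 : pfC (piC [(nat_lit 38632330), (nat_lit 24534081), (nat_lit 15702173)] (nat_lit 11363143)) p13_18_1 (nat_lit 3) (nat_lit 137) (nat_lit 138) = true := by decide +kernel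
def p13_18_1_138 : pfC (piC [(nat_lit 38632330), (nat_lit 24534081), (nat_lit 15702173)] (nat_lit 11363143)) p13_18_1 (nat_lit 3) (nat_lit 138) (nat_lit 139) = true := by decide +kernel
def p13_18_1_139 : pfC (piC [(nat_lit 38632330), (nat_lit 24534081), (nat_lit 15702173)] (nat_lit 11363143)) p13_18_1 (nat_lit 3) (nat_lit 139) (nat_lit 140) = true := by decide +kernel
def p13_18_1_140 : pfC (piC [(nat_lit 38632330), (nat_lit 24534081), (nat_lit 15702173)] (nat_lit 11363143)) p13_18_1 (nat_lit 3) (nat_lit 140) (nat_lit 141) = true := by decide +kernel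
def p13_18_1_141 : pfC (piC [(nat_lit 38632330), (nat_lit 24534081), (nat_lit 15702173)] (nat_lit 11363143)) p13_18_1 (nat_lit 3) (nat_lit 141) (nat_lit 142) = true := by decide +kernel
def p13_18_1_142 : pfC (piC [(nat_lit 38632330), (nat_lit 24534081), (nat_lit 15702173)] (nat_lit 11363143)) p13_18_1 (nat_lit 3) (nat_lit 142) (nat_lit 143) = true := by decide +kernel
def p13_18_1_143 : pfC (piC [(nat_lit 38632330), (nat_lit 24534081), (nat_lit 15702173)] (nat_lit 11363143)) p13_18_1 (nat_lit 3) (nat_lit 143) (nat_lit 144) = true := by decide +kernel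
def p13_18_1_144 : pfC (piC [(nat_lit 38632330), (nat_lit 24534081), (nat_lit 15702173)] (nat_lit 11363143)) p13_18_1 (nat_lit 3) (nat_lit 144) (nat_lit 145) = true := by decide +kernel
def p13_18_1_145 : pfC (piC [(nat_lit 38632330), (nat_lit 24534081), (nat_lit 15702173)] (nat_lit 11363143)) p13_18_1 (nat_lit 3) (nat_lit 145) (nat_lit 146) = true := by decide +kernel
def p13_18_1_146 : pfC (piC [(nat_lit 38632330), (nat_lit 24534081), (nat_lit 15702173)] (nat_lit 11363143)) p13_18_1 (nat_lit 3) (nat_lit 146) (nat_lit 147) = true := by decide +kernel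
def p13_18_1_147 : pfC (piC [(nat_lit 38632330), (nat_lit 24534081), (nat_lit 15702173)] (nat_lit 11363143)) p13_18_1 (nat_lit 3) (nat_lit 147) (nat_lit 148) = true := by decide +kernel
def p13_18_1_148 : pfC (piC [(nat_lit 38632330), (nat_lit 24534081), (nat_lit 15702173)] (nat_lit 11363143)) p13_18_1 (nat_lit 3) (nat_lit 148) (nat_lit 149) = true := by decide +kernel
def p13_18_1_149 : pfC (piC [(nat_lit 38632330), (nat_lit 24534081), (nat_lit 15702173)] (nat_lit 11363143)) p13_18_1 (nat_lit 3) (nat_lit 149) (nat_lit 150) = true := by decide +kernel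
def p13_18_1_150 : pfC (piC [(nat_lit 38632330), (nat_lit 24534081), (nat_lit 15702173)] (nat_lit 11363143)) p13_18_1 (nat_lit 3) (nat_lit 150) (nat_lit 151) = true := by decide +kernel
def p13_18_1_151 : pfC (piC [(nat_lit 38632330), (nat_lit 24534081), (nat_lit 15702173)] (nat_lit 11363143)) p13_18_1 (nat_lit 3) (nat_lit 151) (nat_lit 152) = true := by decide +kernel
def p13_18_1_152 : pfC (piC [(nat_lit 38632330), (nat_lit 24534081), (nat_lit 15702173)] (nat_lit 11363143)) p13_18_1 (nat_lit 3) (nat_lit 152) (nat_lit 153) = true := by decide +kernel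
def p13_18_1_153 : pfC (piC [(nat_lit 38632330), (nat_lit 24534081), (nat_lit 15702173)] (nat_lit 11363143)) p13_18_1 (nat_lit 3) (nat_lit 153) (nat_lit 154) = true := by decide +kernel
def p13_18_1_154 : pfC (piC [(nat_lit 38632330), (nat_lit 24534081), (nat_lit 15702173)] (nat_lit 11363143)) p13_18_1 (nat_lit 3) (nat_lit 154) (nat_lit 155) = true := by decide +kernel
def p13_18_1_155 : pfC (piC [(nat_lit 38632330), (nat_lit 24534081), (nat_lit 15702173)] (nat_lit 11363143)) p13_18_1 (nat_lit 3) (nat_lit 155) (nat_lit 156) = true := by decide +kernel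
def p13_18_1_156 : pfC (piC [(nat_lit 38632330), (nat_lit 24534081), (nat_lit 15702173)] (nat_lit 11363143)) p13_18_1 (nat_lit 3) (nat_lit 156) (nat_lit 157) = true := by decide +kernel
def p13_18_1_157 : pfC (piC [(nat_lit 38632330), (nat_lit 24534081), (nat_lit 15702173)] (nat_lit 11363143)) p13_18_1 (nat_lit 3) (nat_lit 157) (nat_lit 158) = true := by decide +kernel
def p13_18_1_158 : pfC (piC [(nat_lit 38632330), (nat_lit 24534081), (nat_lit 15702173)] (nat_lit 11363143)) p13_18_1 (nat_lit 3) (nat_lit 158) (nat_lit 159) = true := by decide +kernel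
def p13_18_1_159 : pfC (piC [(nat_lit 38632330), (nat_lit 24534081), (nat_lit 15702173)] (nat_lit 11363143)) p13_18_1 (nat_lit 3) (nat_lit 159) (nat_lit 160) = true := by decide +kernel
def p13_18_1_160 : pfC (piC [(nat_lit 38632330), (nat_lit 24534081), (nat_lit 15702173)] (nat_lit 11363143)) p13_18_1 (nat_lit 3) (nat_lit 160) (nat_lit 161) = true := by decide +kernel
def p13_18_1_161 : pfC (piC [(nat_lit 38632330), (nat_lit 24534081), (nat_lit 15702173)] (nat_lit 11363143)) p13_18_1 (nat_lit 3) (nat_lit 161) (nat_lit 162) = true := by decide +kernel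
def p13_18_1_162 : pfC (piC [(nat_lit 38632330), (nat_lit 24534081), (nat_lit 15702173)] (nat_lit 11363143)) p13_18_1 (nat_lit 3) (nat_lit 162) (nat_lit 163) = true := by decide +kernel
def p13_18_1_163 : pfC (piC [(nat_lit 38632330), (nat_lit 24534081), (nat_lit 15702173)] (nat_lit 11363143)) p13_18_1 (nat_lit 3) (nat_lit 163) (nat_lit 164) = true := by decide +kernel
def p13_18_1_164 : pfC (piC [(nat_lit 38632330), (nat_lit 24534081), (nat_lit 15702173)] (nat_lit 11363143)) p13_18_1 (nat_lit 3) (nat_lit 164) (nat_lit 165) = true := by decide +kernel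
def p13_18_1_165 : pfC (piC [(nat_lit 38632330), (nat_lit 24534081), (nat_lit 15702173)] (nat_lit 11363143)) p13_18_1 (nat_lit 3) (nat_lit 165) (nat_lit 166) = true := by decide +kernel
def p13_18_1_166 : pfC (piC [(nat_lit 38632330), (nat_lit 24534081), (nat_lit 15702173)] (nat_lit 11363143)) p13_18_1 (nat_lit 3) (nat_lit 166) (nat_lit 167) = true := by decide +kernel
theorem p13_18_1_T : PfS (PiF n13_18.reverse (nat_lit 11363143)) p13_18_1 (nat_lit 3) [] 0 :=
  pftab_of (los := [(nat_lit 38632330), (nat_lit 24534081), (nat_lit 15702173)]) (by decide +kernel) (hi := (nat_lit 167)) (PfP.trans (PfP.trans (PfP.trans (PfP.trans (PfP.trans (PfP.trans (PfP.trans (PfP.trans (PfP.trans (PfP.trans (PfP.trans (PfP.trans (PfP.trans (PfP.trans (PfP.trans (PfP.trans (PfP.trans (PfP.trans (PfP.trans (PfP.trans (PfP.trans (PfP.trans (PfP.trans (PfP.trans (PfP.trans (PfP.trans (PfP.trans (PfP.trans (PfP.trans (PfP.trans (PfP.trans (PfP.trans (PfP.trans (PfP.trans (PfP.trans (PfP.trans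 (PfP.trans (PfP.trans (PfP.trans (PfP.trans (PfP.trans (PfP.trans (PfP.trans (PfP.trans (PfP.trans (PfP.trans (PfP.trans (PfP.trans (PfP.trans (PfP.trans (PfP.trans (PfP.trans (PfP.trans (PfP.trans (PfP.trans (PfP.trans (PfP.trans (PfP.trans (PfP.trans (PfP.trans (PfP.trans (PfP.trans (PfP.trans (PfP.trans (PfP.trans (PfP.trans (PfP.trans (PfP.trans (PfP.trans (PfP.trans (PfP.trans (PfP.trans (PfP.trans (PfP.trans (PfP.trans (PfP.trans (PfP.trans (PfP.trans (PfP.trans (PfP.trans (PfP.trans (PfP.trans (PfP.trans (PfP.trans (PfP.trans (PfP.trans (PfP.trans (PfP.trans (PfP.trans (PfP.trans (PfP.trans (PfP.trans (PfP.trans (PfP.trans (PfP.trans (PfP.trans (PfP.trans (PfP.trans (PfP.trans (PfP.trans (PfP.trans (PfP.trans (PfP.trans (PfP.trans (PfP.trans (PfP.trans (PfP.trans (PfP.trans (PfP.trans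
 (PfP.trans (PfP.trans (PfP.trans (PfP.trans (PfP.trans (PfP.trans (PfP.trans (PfP.trans (PfP.trans (PfP.trans (PfP.trans (PfP.trans (PfP.trans (PfP.trans (PfP.trans (PfP.trans (PfP.trans (PfP.trans (PfP.trans (PfP.trans (PfP.trans (PfP.trans (PfP.trans (PfP.trans (PfP.trans (PfP.trans (PfP.trans (PfP.trans (PfP.trans (PfP.trans (PfP.trans (PfP.trans (PfP.trans (PfP.trans (PfP.trans (PfP.trans (PfP.trans (PfP.trans (PfP.trans (PfP.trans (PfP.trans (PfP.trans (PfP.trans (PfP.trans (PfP.trans (PfP.trans (PfP.trans (PfP.trans (PfP.trans (PfP.trans (PfP.trans (PfP.trans (PfP.trans (PfP.trans (PfP.trans (PfP.trans (PfP.trans (pfC_sound p13_18_1_0) (pfC_sound p13_18_1_1)) (pfC_sound p13_18_1_2)) (pfC_sound p13_18_1_3)) (pfC_sound p13_18_1_4)) (pfC_sound p13_18_1_5)) (pfC_sound p13_18_1_6)) (pfC_sound p13_18_1_7)) (pfC_sound p13_18_1_8)) (pfC_sound p13_18_1_9)) (pfC_sound p13_18_1_10)) (pfC_sound p13_18_1_11)) (pfC_sound p13_18_1_12)) (pfC_sound p13_18_1_13)) (pfC_sound p13_18_1_14))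 (pfC_sound p13_18_1_15)) (pfC_sound p13_18_1_16)) (pfC_sound p13_18_1_17)) (pfC_sound p13_18_1_18)) (pfC_sound p13_18_1_19)) (pfC_sound p13_18_1_20)) (pfC_sound p13_18_1_21)) (pfC_sound p13_18_1_22))
 (pfC_sound p13_18_1_23)) (pfC_sound p13_18_1_24)) (pfC_sound p13_18_1_25)) (pfC_sound p13_18_1_26)) (pfC_sound p13_18_1_27)) (pfC_sound p13_18_1_28)) (pfC_sound p13_18_1_29)) (pfC_sound p13_18_1_30)) (pfC_sound p13_18_1_31)) (pfC_sound p13_18_1_32)) (pfC_sound p13_18_1_33)) (pfC_sound p13_18_1_34)) (pfC_sound p13_18_1_35)) (pfC_sound p13_18_1_36)) (pfC_sound p13_18_1_37)) (pfC_sound p13_18_1_38)) (pfC_sound p13_18_1_39)) (pfC_sound p13_18_1_40)) (pfC_sound p13_18_1_41)) (pfC_sound p13_18_1_42)) (pfC_sound p13_18_1_43)) (pfC_sound p13_18_1_44)) (pfC_sound p13_18_1_45)) (pfC_sound p13_18_1_46)) (pfC_sound p13_18_1_47)) (pfC_sound p13_18_1_48)) (pfC_sound p13_18_1_49)) (pfC_sound p13_18_1_50)) (pfC_sound p13_18_1_51)) (pfC_sound p13_18_1_52)) (pfC_sound p13_18_1_53)) (pfC_sound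 p13_18_1_54)) (pfC_sound p13_18_1_55)) (pfC_sound p13_18_1_56)) (pfC_sound p13_18_1_57)) (pfC_sound p13_18_1_58)) (pfC_sound p13_18_1_59)) (pfC_sound p13_18_1_60)) (pfC_sound p13_18_1_61)) (pfC_sound p13_18_1_62)) (pfC_sound p13_18_1_63)) (pfC_sound p13_18_1_64)) (pfC_sound p13_18_1_65)) (pfC_sound p13_18_1_66)) (pfC_sound p13_18_1_67)) (pfC_sound p13_18_1_68)) (pfC_sound p13_18_1_69)) (pfC_sound p13_18_1_70))
 (pfC_sound p13_18_1_71)) (pfC_sound p13_18_1_72)) (pfC_sound p13_18_1_73)) (pfC_sound p13_18_1_74)) (pfC_sound p13_18_1_75)) (pfC_sound p13_18_1_76)) (pfC_sound p13_18_1_77)) (pfC_sound p13_18_1_78)) (pfC_sound p13_18_1_79)) (pfC_sound p13_18_1_80)) (pfC_sound p13_18_1_81)) (pfC_sound p13_18_1_82)) (pfC_sound p13_18_1_83)) (pfC_sound p13_18_1_84)) (pfC_sound p13_18_1_85)) (pfC_sound p13_18_1_86)) (pfC_sound p13_18_1_87)) (pfC_sound p13_18_1_88)) (pfC_sound p13_18_1_89)) (pfC_sound p13_18_1_90)) (pfC_sound p13_18_1_91)) (pfC_sound p13_18_1_92)) (pfC_sound p13_18_1_93))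 (pfC_sound p13_18_1_94)) (pfC_sound p13_18_1_95)) (pfC_sound p13_18_1_96)) (pfC_sound p13_18_1_97)) (pfC_sound p13_18_1_98)) (pfC_sound p13_18_1_99)) (pfC_sound p13_18_1_100)) (pfC_sound p13_18_1_101)) (pfC_sound p13_18_1_102)) (pfC_sound p13_18_1_103)) (pfC_sound p13_18_1_104)) (pfC_sound p13_18_1_105)) (pfC_sound p13_18_1_106)) (pfC_sound p13_18_1_107)) (pfC_sound p13_18_1_108)) (pfC_sound p13_18_1_109)) (pfC_sound p13_18_1_110)) (pfC_sound p13_18_1_111)) (pfC_sound p13_18_1_112)) (pfC_sound p13_18_1_113)) (pfC_sound p13_18_1_114)) (pfC_sound p13_18_1_115)) (pfC_sound p13_18_1_116)) (pfC_sound p13_18_1_117))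
 (pfC_sound p13_18_1_118)) (pfC_sound p13_18_1_119)) (pfC_sound p13_18_1_120)) (pfC_sound p13_18_1_121)) (pfC_sound p13_18_1_122)) (pfC_sound p13_18_1_123)) (pfC_sound p13_18_1_124)) (pfC_sound p13_18_1_125)) (pfC_sound p13_18_1_126)) (pfC_sound p13_18_1_127)) (pfC_sound p13_18_1_128)) (pfC_sound p13_18_1_129)) (pfC_sound p13_18_1_130)) (pfC_sound p13_18_1_131)) (pfC_sound p13_18_1_132)) (pfC_sound p13_18_1_133)) (pfC_sound p13_18_1_134)) (pfC_sound p13_18_1_135)) (pfC_sound p13_18_1_136)) (pfC_sound p13_18_1_137)) (pfC_sound p13_18_1_138)) (pfC_sound p13_18_1_139)) (pfC_sound p13_18_1_140)) (pfC_sound p13_18_1_141)) (pfC_sound p13_18_1_142)) (pfC_sound p13_18_1_143)) (pfC_sound p13_18_1_144)) (pfC_sound p13_18_1_145)) (pfC_sound p13_18_1_146)) (pfC_sound p13_18_1_147)) (pfC_sound p13_18_1_148)) (pfC_sound p13_18_1_149)) (pfC_sound p13_18_1_150)) (pfC_sound p13_18_1_151)) (pfC_sound p13_18_1_152)) (pfC_sound p13_18_1_153)) (pfC_sound p13_18_1_154)) (pfC_sound p13_18_1_155))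 (pfC_sound p13_18_1_156)) (pfC_sound p13_18_1_157)) (pfC_sound p13_18_1_158)) (pfC_sound p13_18_1_159)) (pfC_sound p13_18_1_160)) (pfC_sound p13_18_1_161)) (pfC_sound p13_18_1_162)) (pfC_sound p13_18_1_163))
 (pfC_sound p13_18_1_164)) (pfC_sound p13_18_1_165)) (pfC_sound p13_18_1_166)) (by decide +kernel)

def z13_18_1 : zOK yB13_18 (nat_lit 1) (nat_lit 400) (nat_lit 600) (nat_lit 11363143) (nat_lit 7339693) = true := by decide +kernel
def g13_18_1 : gOK yB13_18.x P13_18 (nat_lit 1388) (q13_18 :: r13_18) (nat_lit 1) (nat_lit 400) (nat_lit 2) (nat_lit 600) (nat_lit 11000000) (nat_lit 17850000) (nat_lit 12712500) (nat_lit 12712500) [(nat_lit 800), (nat_lit 1600)] = true := by decide +kernel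
def v13_18_1 : ivC P13_18 s13_18 w13_18 n13_18 (nat_lit 3) (nat_lit 4900) (nat_lit 1) (nat_lit 400) f176_0_400 f184_0_400 (nat_lit 2) (nat_lit 600) f176_0_600 f184_0_600 (nat_lit 11363143) (nat_lit 7339693) p13_18_1 = true := by decide +kernel
def p13_18_2 : PF := (PF.cons (PF.cons (PF.cons (PF.leaf (nat_lit 2527582) (nat_lit 13671422) (nat_lit 53437390) (nat_lit 13671422) [(nat_lit 0), (nat_lit 0), (nat_lit 0)]) (PF.cons (PF.leaf (nat_lit 2705737) (nat_lit 314818) (nat_lit 53125701) (nat_lit 13668293) [(nat_lit 314818), (nat_lit 0), (nat_lit 0)]) (PF.cons (PF.leaf (nat_lit 2915945) (nat_lit 342101) (nat_lit 52761878) (nat_lit 13662731) [(nat_lit 342101), (nat_lit 0), (nat_lit 0)]) (PF.cons (PF.leaf (nat_lit 3151676) (nat_lit 366206) (nat_lit 52356005) (nat_lit 13654189) [(nat_lit 366206), (nat_lit 0), (nat_lit 0)]) (PF.cons (PF.leaf (nat_lit 3409099) (nat_lit 387826) (nat_lit 51915291) (nat_lit 13642213) [(nat_lit 387826), (nat_lit 0), (nat_lit 0)]) (PF.cons (PF.leaf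 (nat_lit 3685239) (nat_lit 407406) (nat_lit 51445333) (nat_lit 13626445) [(nat_lit 407406), (nat_lit 0), (nat_lit 0)]) (PF.cons (PF.leaf (nat_lit 3977710) (nat_lit 425249) (nat_lit 50950706) (nat_lit 13606611) [(nat_lit 425249), (nat_lit 0), (nat_lit 0)]) (PF.cons (PF.leaf (nat_lit 4284474) (nat_lit 441575) (nat_lit 50435272) (nat_lit 13582515) [(nat_lit 441575), (nat_lit 0), (nat_lit 0)]) (PF.cons (PF.leaf (nat_lit 4603748) (nat_lit 456550) (nat_lit 49902372) (nat_lit
 13554035) [(nat_lit 456550), (nat_lit 0), (nat_lit 0)]) (PF.cons (PF.leaf (nat_lit 4933944) (nat_lit 470307) (nat_lit 49354935) (nat_lit 13521111) [(nat_lit 470307), (nat_lit 0), (nat_lit 0)]) (PF.cons (PF.leaf (nat_lit 5273602) (nat_lit 482951) (nat_lit 48795559) (nat_lit 13483740) [(nat_lit 482951), (nat_lit 0), (nat_lit 0)]) (PF.cons (PF.leaf (nat_lit 5621523) (nat_lit 494571) (nat_lit 48226562) (nat_lit 13441965) [(nat_lit 494571), (nat_lit 0), (nat_lit 0)]) (PF.cons (PF.leaf (nat_lit 5976452) (nat_lit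 505243) (nat_lit 47650022) (nat_lit 13395869) [(nat_lit 505243), (nat_lit 0), (nat_lit 0)]) (PF.cons (PF.leaf (nat_lit 6337335) (nat_lit 515033) (nat_lit 47067808) (nat_lit 13345573) [(nat_lit 515033), (nat_lit 0), (nat_lit 0)]) (PF.cons (PF.leaf (nat_lit 6703197) (nat_lit 523999) (nat_lit 46481602) (nat_lit 13291220) [(nat_lit 523999), (nat_lit 0), (nat_lit 0)]) (PF.cons PF.nil (PF.cons PF.nil (PF.cons PF.nil PF.nil)))))))))))))))))) (PF.cons (PF.cons (PF.leaf (nat_lit 3226107) (nat_lit 1762282) (nat_lit 51720052) (nat_lit 13626477) [(nat_lit 0), (nat_lit 1762282), (nat_lit 0)]) (PF.cons (PF.leaf (nat_lit 3457361) (nat_lit 383483) (nat_lit 51316016) (nat_lit 13612008) [(nat_lit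
 383483), (nat_lit 1797304), (nat_lit 0)]) (PF.cons (PF.leaf (nat_lit 3712164) (nat_lit 403846) (nat_lit 50875817) (nat_lit 13593760) [(nat_lit 403846), (nat_lit 1831541), (nat_lit 0)]) (PF.cons (PF.leaf (nat_lit 3986074) (nat_lit 422162) (nat_lit 50406437) (nat_lit 13571527) [(nat_lit 422162), (nat_lit 1864361), (nat_lit 0)]) (PF.cons (PF.leaf (nat_lit 4276313) (nat_lit 438776) (nat_lit 49913129) (nat_lit 13545155) [(nat_lit 438776), (nat_lit 1895420), (nat_lit 0)]) (PF.cons (PF.leaf (nat_lit 4580628) (nat_lit 453926) (nat_lit 49400092) (nat_lit 13514546) [(nat_lit 453926), (nat_lit 1924541), (nat_lit 0)]) (PF.cons (PF.leaf (nat_lit 4897116) (nat_lit 467784) (nat_lit 48870810) (nat_lit 13479656) [(nat_lit 467784), (nat_lit 1951641), (nat_lit 0)]) (PF.cons (PF.leaf (nat_lit 5224147) (nat_lit 480481) (nat_lit 48328259) (nat_lit 13440488) [(nat_lit 480481), (nat_lit 1976696), (nat_lit 0)]) (PF.cons (PF.leaf (nat_lit 5560269) (nat_lit 492122) (nat_lit 47775019) (nat_lit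 13397091) [(nat_lit 492122), (nat_lit 1999719), (nat_lit 0)]) (PF.cons (PF.leaf (nat_lit 5904214) (nat_lit 502795) (nat_lit 47213355) (nat_lit 13349548) [(nat_lit 502795), (nat_lit 2020746), (nat_lit 0)]) (PF.cons
 (PF.leaf (nat_lit 6254796) (nat_lit 512573) (nat_lit 46645273) (nat_lit 13297973) [(nat_lit 512573), (nat_lit 2039831), (nat_lit 0)]) (PF.cons (PF.leaf (nat_lit 6610969) (nat_lit 521519) (nat_lit 46072554) (nat_lit 13242509) [(nat_lit 521519), (nat_lit 2057035), (nat_lit 0)]) (PF.cons (PF.leaf (nat_lit 6971777) (nat_lit 529689) (nat_lit 45496789) (nat_lit 13183318) [(nat_lit 529689), (nat_lit 2072428), (nat_lit 0)]) (PF.cons PF.nil (PF.cons PF.nil (PF.cons PF.nil PF.nil)))))))))))))))) (PF.cons (PF.cons (PF.leaf (nat_lit 4016195) (nat_lit 1877685) (nat_lit 49822696) (nat_lit 13530745) [(nat_lit 0), (nat_lit 1877685), (nat_lit 0)]) (PF.cons (PF.leaf (nat_lit 4284957) (nat_lit 434241) (nat_lit 49360555) (nat_lit 13502855) [(nat_lit 434241), (nat_lit 1905580),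 (nat_lit 0)]) (PF.cons (PF.leaf (nat_lit 4571174) (nat_lit 449955) (nat_lit 48873848) (nat_lit 13470731) [(nat_lit 449955), (nat_lit 1932160), (nat_lit 0)]) (PF.cons (PF.leaf (nat_lit 4871698) (nat_lit 464186) (nat_lit 48367529) (nat_lit 13434386) [(nat_lit 464186), (nat_lit 1957169), (nat_lit 0)]) (PF.cons (PF.leaf (nat_lit 5184367) (nat_lit 477133) (nat_lit 47845477) (nat_lit 13393859) [(nat_lit 477133), (nat_lit 1980470),
 (nat_lit 0)]) (PF.cons (PF.leaf (nat_lit 5507406) (nat_lit 488945) (nat_lit 47310865) (nat_lit 13349217) [(nat_lit 488945), (nat_lit 2002001), (nat_lit 0)]) (PF.cons (PF.leaf (nat_lit 5839310) (nat_lit 499733) (nat_lit 46766361) (nat_lit 13300555) [(nat_lit 499733), (nat_lit 2021746), (nat_lit 0)]) (PF.cons (PF.leaf (nat_lit 6178763) (nat_lit 509589) (nat_lit 46214250) (nat_lit 13247994) [(nat_lit 509589), (nat_lit 2039719), (nat_lit 0)]) (PF.cons (PF.leaf (nat_lit 6524583) (nat_lit 518588) (nat_lit 45656519) (nat_lit 13191676) [(nat_lit 518588),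 (nat_lit 2055955), (nat_lit 0)]) (PF.cons (PF.leaf (nat_lit 6875718) (nat_lit 526793) (nat_lit 45094909) (nat_lit 13131761) [(nat_lit 526793), (nat_lit 2070501), (nat_lit 0)]) (PF.cons (PF.leaf (nat_lit 7231223) (nat_lit 534261) (nat_lit 44530952) (nat_lit 13068423) [(nat_lit 534261), (nat_lit 2083413), (nat_lit 0)]) (PF.cons PF.nil (PF.cons PF.nil (PF.cons PF.nil PF.nil)))))))))))))) (PF.cons (PF.cons (PF.leaf (nat_lit 4863871) (nat_lit 1962853) (nat_lit 47835945) (nat_lit 13384306) [(nat_lit 0), (nat_lit 1962853), (nat_lit 0)]) (PF.cons (PF.leaf (nat_lit 5158591) (nat_lit 472549) (nat_lit 47340516) (nat_lit 13343085) [(nat_lit 472549),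
 (nat_lit 1984220), (nat_lit 0)]) (PF.cons (PF.leaf (nat_lit 5466257) (nat_lit 484779) (nat_lit 46829053) (nat_lit 13297739) [(nat_lit 484779), (nat_lit 2004154), (nat_lit 0)]) (PF.cons (PF.leaf (nat_lit 5784402) (nat_lit 495864) (nat_lit 46305143) (nat_lit 13248407) [(nat_lit 495864), (nat_lit 2022555), (nat_lit 0)]) (PF.cons (PF.leaf (nat_lit 6111381) (nat_lit 505934) (nat_lit 45771676) (nat_lit 13195239) [(nat_lit 505934), (nat_lit 2039385), (nat_lit 0)]) (PF.cons (PF.leaf (nat_lit 6445792) (nat_lit 515091) (nat_lit 45231048) (nat_lit 13138393) [(nat_lit 515091), (nat_lit 2054638), (nat_lit 0)]) (PF.cons (PF.leaf (nat_lit 6786419) (nat_lit 523414) (nat_lit 44685291) (nat_lit 13078038) [(nat_lit 523414), (nat_lit 2068332), (nat_lit 0)]) (PF.cons (PF.leaf (nat_lit 7132196) (nat_lit 530972) (nat_lit 44136146) (nat_lit 13014351) [(nat_lit 530972), (nat_lit 2080503), (nat_lit 0)]) (PF.cons (PF.leaf (nat_lit 7482170) (nat_lit 537821) (nat_lit 43585128) (nat_lit 12947519)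 [(nat_lit 537821), (nat_lit 2091196), (nat_lit 0)]) (PF.cons (PF.leaf (nat_lit 7835490) (nat_lit 544014) (nat_lit 43033557) (nat_lit 12877733) [(nat_lit 544014), (nat_lit 2100463), (nat_lit 0)]) (PF.cons PF.nil
 (PF.cons PF.nil PF.nil)))))))))))) (PF.cons (PF.cons (PF.leaf (nat_lit 5744017) (nat_lit 2023299) (nat_lit 45823322) (nat_lit 13192290) [(nat_lit 0), (nat_lit 2023299), (nat_lit 0)]) (PF.cons (PF.leaf (nat_lit 6055882) (nat_lit 501363) (nat_lit 45312751) (nat_lit 13139073) [(nat_lit 501363), (nat_lit 2038906), (nat_lit 0)]) (PF.cons (PF.leaf (nat_lit 6377168) (nat_lit 510845) (nat_lit 44792444) (nat_lit 13082154) [(nat_lit 510845), (nat_lit 2053130), (nat_lit 0)]) (PF.cons (PF.leaf (nat_lit 6705961) (nat_lit 519413) (nat_lit 44265029) (nat_lit 13021737) [(nat_lit 519413), (nat_lit 2065951), (nat_lit 0)]) (PF.cons (PF.leaf (nat_lit 7040958) (nat_lit 527158) (nat_lit 43732662) (nat_lit 12958023) [(nat_lit 527158), (nat_lit 2077372), (nat_lit 0)]) (PF.cons (PF.leaf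 (nat_lit 7381038) (nat_lit 534155) (nat_lit 43197145) (nat_lit 12891210) [(nat_lit 534155), (nat_lit 2087419), (nat_lit 0)]) (PF.cons (PF.leaf (nat_lit 7725215) (nat_lit 540465) (nat_lit 42660012) (nat_lit 12821497) [(nat_lit 540465), (nat_lit 2096127), (nat_lit 0)]) (PF.cons (PF.leaf (nat_lit 8072672) (nat_lit 546141) (nat_lit 42122577) (nat_lit 12749080) [(nat_lit 546141), (nat_lit 2103541), (nat_lit 0)]) (PF.cons PF.nil
 (PF.cons PF.nil PF.nil)))))))))) (PF.cons (PF.cons (PF.leaf (nat_lit 6637744) (nat_lit 2063406) (nat_lit 43829574) (nat_lit 12962203) [(nat_lit 0), (nat_lit 2063406), (nat_lit 0)]) (PF.cons (PF.leaf (nat_lit 6959921) (nat_lit 522648) (nat_lit 43316997) (nat_lit 12898918) [(nat_lit 522648), (nat_lit 2074049), (nat_lit 0)]) (PF.cons (PF.leaf (nat_lit 7288801) (nat_lit 529909) (nat_lit 42799307) (nat_lit 12832498) [(nat_lit 529909), (nat_lit 2083437), (nat_lit 0)]) (PF.cons (PF.leaf (nat_lit 7622837) (nat_lit 536428) (nat_lit 42278440) (nat_lit 12763171)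 [(nat_lit 536428), (nat_lit 2091583), (nat_lit 0)]) (PF.cons (PF.leaf (nat_lit 7960997) (nat_lit 542272) (nat_lit 41755998) (nat_lit 12691150) [(nat_lit 542272), (nat_lit 2098515), (nat_lit 0)]) (PF.cons (PF.leaf (nat_lit 8302387) (nat_lit 547498) (nat_lit 41233329) (nat_lit 12616643) [(nat_lit 547498), (nat_lit 2104270), (nat_lit 0)]) (PF.cons PF.nil (PF.cons PF.nil PF.nil)))))))) (PF.cons (PF.cons (PF.leaf (nat_lit 7530965) (nat_lit 2086841) (nat_lit 41885534) (nat_lit 12702227) [(nat_lit 0), (nat_lit 2086841), (nat_lit 0)]) (PF.cons (PF.leaf (nat_lit 7858232) (nat_lit 537861) (nat_lit 41380257) (nat_lit 12630971) [(nat_lit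
 537861), (nat_lit 2093287), (nat_lit 0)]) (PF.cons (PF.leaf (nat_lit 8190075) (nat_lit 543310) (nat_lit 40873222) (nat_lit 12557184) [(nat_lit 543310), (nat_lit 2098630), (nat_lit 0)]) (PF.cons (PF.leaf (nat_lit 8525226) (nat_lit 548150) (nat_lit 40365852) (nat_lit 12481089) [(nat_lit 548150), (nat_lit 2102903), (nat_lit 0)]) (PF.cons PF.nil (PF.cons PF.nil PF.nil)))))) (PF.cons (PF.cons (PF.leaf (nat_lit 8413390) (nat_lit 2096716) (nat_lit 40011579) (nat_lit 12420216) [(nat_lit 0), (nat_lit 2096716), (nat_lit 0)]) (PF.cons (PF.leaf (nat_lit 8741778) (nat_lit 548153) (nat_lit 39519986) (nat_lit 12343007) [(nat_lit 548153), (nat_lit 2099666), (nat_lit 0)]) (PF.cons (PF.leaf (nat_lit 9073105) (nat_lit 552117) (nat_lit 39029025) (nat_lit 12263845) [(nat_lit 552117), (nat_lit 2101672), (nat_lit 0)]) (PF.cons PF.nil PF.nil)))) (PF.cons (PF.cons (PF.leaf (nat_lit 9277737) (nat_lit 2095668) (nat_lit 38220283) (nat_lit 12123182) [(nat_lit 0), (nat_lit 2095668), (nat_lit 0)])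 (PF.cons PF.nil PF.nil)) (PF.cons PF.nil (PF.cons PF.nil PF.nil))))))))))) (PF.cons (PF.cons (PF.cons (PF.leaf (nat_lit 4211657) (nat_lit 6348265) (nat_lit 47487520) (nat_lit 13273026) [(nat_lit 0), (nat_lit 0),
 (nat_lit 6348265)]) (PF.cons (PF.leaf (nat_lit 4449422) (nat_lit 411748) (nat_lit 47096454) (nat_lit 13241447) [(nat_lit 411748), (nat_lit 0), (nat_lit 6359162)]) (PF.cons (PF.leaf (nat_lit 4708680) (nat_lit 430158) (nat_lit 46674206) (nat_lit 13205423) [(nat_lit 430158), (nat_lit 0), (nat_lit 6368866)]) (PF.cons (PF.leaf (nat_lit 4984899) (nat_lit 446313) (nat_lit 46227742) (nat_lit 13165206) [(nat_lit 446313), (nat_lit 0), (nat_lit 6376923)]) (PF.cons (PF.leaf (nat_lit 5275201) (nat_lit 460658) (nat_lit 45762161) (nat_lit 13120984) [(nat_lit 460658), (nat_lit 0), (nat_lit 6383031)]) (PF.cons (PF.leaf (nat_lit 5577334) (nat_lit 473495) (nat_lit 45281418) (nat_lit 13072924) [(nat_lit 473495), (nat_lit 0), (nat_lit 6386993)]) (PF.cons (PF.leaf (nat_lit 5889493)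 (nat_lit 485038) (nat_lit 44788706) (nat_lit 13021185) [(nat_lit 485038), (nat_lit 0), (nat_lit 6388688)]) (PF.cons (PF.leaf (nat_lit 6210120) (nat_lit 495451) (nat_lit 44286668) (nat_lit 12965931) [(nat_lit 495451), (nat_lit 0), (nat_lit 6388053)]) (PF.cons (PF.leaf (nat_lit 6537894) (nat_lit 504859) (nat_lit 43777542) (nat_lit 12907325) [(nat_lit 504859), (nat_lit 0), (nat_lit 6385067)]) (PF.cons (PF.leaf (nat_lit 6871672)
 (nat_lit 513365) (nat_lit 43263240) (nat_lit 12845541) [(nat_lit 513365), (nat_lit 0), (nat_lit 6379743)]) (PF.cons (PF.leaf (nat_lit 7210428) (nat_lit 521051) (nat_lit 42745419) (nat_lit 12780754) [(nat_lit 521051), (nat_lit 0), (nat_lit 6372118)]) (PF.cons (PF.leaf (nat_lit 7553263) (nat_lit 527990) (nat_lit 42225521) (nat_lit 12713143) [(nat_lit 527990), (nat_lit 0), (nat_lit 6362251)]) (PF.cons PF.nil (PF.cons PF.nil PF.nil)))))))))))))) (PF.cons (PF.cons (PF.leaf (nat_lit 4992776) (nat_lit 1935751) (nat_lit 45695240) (nat_lit 13106303) [(nat_lit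 0), (nat_lit 1935751), (nat_lit 6371517)]) (PF.cons (PF.leaf (nat_lit 5261731) (nat_lit 453799) (nat_lit 45261199) (nat_lit 13062806) [(nat_lit 453799), (nat_lit 1955718), (nat_lit 6375289)]) (PF.cons (PF.leaf (nat_lit 5546154) (nat_lit 467509) (nat_lit 44806975) (nat_lit 13015205) [(nat_lit 467509), (nat_lit 1974384), (nat_lit 6377228)]) (PF.cons (PF.leaf (nat_lit 5842879) (nat_lit 479680) (nat_lit 44337229) (nat_lit 12963777) [(nat_lit 479680), (nat_lit 1991604), (nat_lit 6377159)]) (PF.cons (PF.leaf (nat_lit 6149823) (nat_lit 490557) (nat_lit 43855525) (nat_lit 12908755) [(nat_lit 490557), (nat_lit 2007321), (nat_lit 6374979)])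
 (PF.cons (PF.leaf (nat_lit 6465325) (nat_lit 500318) (nat_lit 43364706) (nat_lit 12850348) [(nat_lit 500318), (nat_lit 2021523), (nat_lit 6370640)]) (PF.cons (PF.leaf (nat_lit 6787952) (nat_lit 509097) (nat_lit 42867106) (nat_lit 12788759) [(nat_lit 509097), (nat_lit 2034229), (nat_lit 6364130)]) (PF.cons (PF.leaf (nat_lit 7116510) (nat_lit 517001) (nat_lit 42364677) (nat_lit 12724181) [(nat_lit 517001), (nat_lit 2045476), (nat_lit 6355469)]) (PF.cons (PF.leaf (nat_lit 7449939) (nat_lit 524114) (nat_lit 41859081) (nat_lit 12656806) [(nat_lit 524114), (nat_lit 2055313), (nat_lit 6344698)]) (PF.cons (PF.leaf (nat_lit 7787365) (nat_lit 530508) (nat_lit 41351743) (nat_lit 12586824) [(nat_lit 530508), (nat_lit 2063793), (nat_lit 6331877)]) (PF.cons PF.nil (PF.cons PF.nil PF.nil)))))))))))) (PF.cons (PF.cons (PF.leaf (nat_lit 5814761) (nat_lit 1991067) (nat_lit 43860683) (nat_lit 12901739) [(nat_lit 0), (nat_lit 1991067), (nat_lit 6364255)]) (PF.cons (PF.leaf (nat_lit 6104415)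 (nat_lit 484413) (nat_lit 43404822) (nat_lit 12847706) [(nat_lit 484413), (nat_lit 2005606), (nat_lit 6360657)]) (PF.cons (PF.leaf (nat_lit 6405254) (nat_lit 494789) (nat_lit 42936348) (nat_lit 12790086) [(nat_lit
 494789), (nat_lit 2018858), (nat_lit 6355081)]) (PF.cons (PF.leaf (nat_lit 6714940) (nat_lit 504031) (nat_lit 42458496) (nat_lit 12729162) [(nat_lit 504031), (nat_lit 2030782), (nat_lit 6347494)]) (PF.cons (PF.leaf (nat_lit 7031914) (nat_lit 512292) (nat_lit 41973814) (nat_lit 12665178) [(nat_lit 512292), (nat_lit 2041377), (nat_lit 6337896)]) (PF.cons (PF.leaf (nat_lit 7354882) (nat_lit 519688) (nat_lit 41484374) (nat_lit 12598359) [(nat_lit 519688), (nat_lit 2050663), (nat_lit 6326312)]) (PF.cons (PF.leaf (nat_lit 7682737) (nat_lit 526309) (nat_lit 40991894) (nat_lit 12528916) [(nat_lit 526309), (nat_lit 2058676), (nat_lit 6312789)]) (PF.cons (PF.leaf (nat_lit 8014525) (nat_lit 532233) (nat_lit 40497822) (nat_lit 12457050) [(nat_lit 532233), (nat_lit 2065460),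 (nat_lit 6297386)]) (PF.cons (PF.leaf (nat_lit 8349456) (nat_lit 537519) (nat_lit 40003392) (nat_lit 12382955) [(nat_lit 537519), (nat_lit 2071065), (nat_lit 6280175)]) (PF.cons PF.nil PF.nil)))))))))) (PF.cons (PF.cons (PF.leaf (nat_lit 6657011) (nat_lit 2027226) (nat_lit 42031652) (nat_lit 12665857) [(nat_lit 0), (nat_lit 2027226), (nat_lit 6329622)]) (PF.cons (PF.leaf (nat_lit 6959715) (nat_lit 506669) (nat_lit
 41568506) (nat_lit 12603055) [(nat_lit 506669), (nat_lit 2037119), (nat_lit 6319223)]) (PF.cons (PF.leaf (nat_lit 7270444) (nat_lit 514521) (nat_lit 41098072) (nat_lit 12537257) [(nat_lit 514521), (nat_lit 2045830), (nat_lit 6306946)]) (PF.cons (PF.leaf (nat_lit 7587391) (nat_lit 521501) (nat_lit 40622648) (nat_lit 12468730) [(nat_lit 521501), (nat_lit 2053367), (nat_lit 6292827)]) (PF.cons (PF.leaf (nat_lit 7909356) (nat_lit 527711) (nat_lit 40144078) (nat_lit 12397713) [(nat_lit 527711), (nat_lit 2059752), (nat_lit 6276916)]) (PF.cons (PF.leaf (nat_lit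 8235324) (nat_lit 533232) (nat_lit 39663880) (nat_lit 12324423) [(nat_lit 533232), (nat_lit 2065022), (nat_lit 6259277)]) (PF.cons (PF.leaf (nat_lit 8564446) (nat_lit 538132) (nat_lit 39183321) (nat_lit 12249065) [(nat_lit 538132), (nat_lit 2069217), (nat_lit 6239980)]) (PF.cons PF.nil PF.nil)))))))) (PF.cons (PF.cons (PF.leaf (nat_lit 7504638) (nat_lit 2047878) (nat_lit 40239926) (nat_lit 12405577) [(nat_lit 0), (nat_lit 2047878), (nat_lit 6271794)]) (PF.cons (PF.leaf (nat_lit 7814708) (nat_lit 522501) (nat_lit 39779526) (nat_lit 12335867) [(nat_lit 522501), (nat_lit 2053853), (nat_lit 6255504)]) (PF.cons (PF.leaf (nat_lit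
 8130409) (nat_lit 528378) (nat_lit 39315612) (nat_lit 12263751) [(nat_lit 528378), (nat_lit 2058786), (nat_lit 6237546)]) (PF.cons (PF.leaf (nat_lit 8450296) (nat_lit 533565) (nat_lit 38849835) (nat_lit 12189472) [(nat_lit 533565), (nat_lit 2062704), (nat_lit 6217989)]) (PF.cons (PF.leaf (nat_lit 8773443) (nat_lit 538135) (nat_lit 38383540) (nat_lit 12113251) [(nat_lit 538135), (nat_lit 2065643), (nat_lit 6196906)]) (PF.cons PF.nil PF.nil)))))) (PF.cons (PF.cons (PF.leaf (nat_lit 8346856) (nat_lit 2055994) (nat_lit 38506250) (nat_lit 12127502) [(nat_lit 0), (nat_lit 2055994), (nat_lit 6195089)]) (PF.cons (PF.leaf (nat_lit 8660030) (nat_lit 533276) (nat_lit 38055426) (nat_lit 12052653) [(nat_lit 533276), (nat_lit 2058708), (nat_lit 6173914)]) (PF.cons (PF.leaf (nat_lit 8976994) (nat_lit 537576) (nat_lit 37603754) (nat_lit 11975947) [(nat_lit 537576), (nat_lit 2060527), (nat_lit 6151322)]) (PF.cons (PF.leaf (nat_lit 9296591) (nat_lit 541323) (nat_lit 37152428) (nat_lit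 11897600) [(nat_lit 541323), (nat_lit 2061484), (nat_lit 6127393)]) PF.nil)))) (PF.cons (PF.cons (PF.leaf (nat_lit 9175960) (nat_lit 2054034) (nat_lit 36843529) (nat_lit 11837526) [(nat_lit 0), (nat_lit 2054034),
 (nat_lit 6103550)]) (PF.cons (PF.leaf (nat_lit 9489038) (nat_lit 540021) (nat_lit 36406795) (nat_lit 11759123) [(nat_lit 540021), (nat_lit 2054067), (nat_lit 6078466)]) PF.nil)) (PF.cons PF.nil (PF.cons PF.nil (PF.cons PF.nil PF.nil)))))))))) (PF.cons (PF.cons (PF.cons (PF.leaf (nat_lit 5887715) (nat_lit 6256406) (nat_lit 41993911) (nat_lit 12602088) [(nat_lit 0), (nat_lit 0), (nat_lit 6256406)]) (PF.cons (PF.leaf (nat_lit 6152981) (nat_lit 463353) (nat_lit 41594874) (nat_lit 12549669) [(nat_lit 463353), (nat_lit 0), (nat_lit 6250457)]) (PF.cons (PF.leaf (nat_lit 6432118) (nat_lit 475409) (nat_lit 41179064) (nat_lit 12493444) [(nat_lit 475409), (nat_lit 0), (nat_lit 6242742)]) (PF.cons (PF.leaf (nat_lit 6722015) (nat_lit 485924) (nat_lit 40750734) (nat_lit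 12433839) [(nat_lit 485924), (nat_lit 0), (nat_lit 6233233)]) (PF.cons (PF.leaf (nat_lit 7020674) (nat_lit 495168) (nat_lit 40313084) (nat_lit 12371191) [(nat_lit 495168), (nat_lit 0), (nat_lit 6221931)]) (PF.cons (PF.leaf (nat_lit 7326511) (nat_lit 503337) (nat_lit 39868617) (nat_lit 12305783) [(nat_lit 503337), (nat_lit 0), (nat_lit 6208862)]) (PF.cons (PF.leaf (nat_lit 7638224) (nat_lit 510577) (nat_lit 39419355) (nat_lit
 12237862) [(nat_lit 510577), (nat_lit 0), (nat_lit 6194064)]) (PF.cons (PF.leaf (nat_lit 7954714) (nat_lit 517001) (nat_lit 38966961) (nat_lit 12167654) [(nat_lit 517001), (nat_lit 0), (nat_lit 6177593)]) (PF.cons (PF.leaf (nat_lit 8275052) (nat_lit 522700) (nat_lit 38512826) (nat_lit 12095363) [(nat_lit 522700), (nat_lit 0), (nat_lit 6159511)]) (PF.cons (PF.leaf (nat_lit 8598440) (nat_lit 527747) (nat_lit 38058126) (nat_lit 12021181) [(nat_lit 527747), (nat_lit 0), (nat_lit 6139887)]) (PF.cons PF.nil (PF.cons PF.nil PF.nil)))))))))))) (PF.cons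 (PF.cons (PF.leaf (nat_lit 6678062) (nat_lit 1987147) (nat_lit 40328600) (nat_lit 12366839) [(nat_lit 0), (nat_lit 1987147), (nat_lit 6213112)]) (PF.cons (PF.leaf (nat_lit 6960241) (nat_lit 488110) (nat_lit 39914966) (nat_lit 12306199) [(nat_lit 488110), (nat_lit 1996818), (nat_lit 6201358)]) (PF.cons (PF.leaf (nat_lit 7252272) (nat_lit 497020) (nat_lit 39491173) (nat_lit 12242472) [(nat_lit 497020), (nat_lit 2005338), (nat_lit 6187894)]) (PF.cons (PF.leaf (nat_lit 7551914) (nat_lit 504829) (nat_lit 39060092) (nat_lit 12176008) [(nat_lit 504829), (nat_lit 2012704), (nat_lit 6172759)]) (PF.cons (PF.leaf (nat_lit 7857705) (nat_lit 511702)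
 (nat_lit 38623953) (nat_lit 12107096) [(nat_lit 511702), (nat_lit 2018940), (nat_lit 6156006)]) (PF.cons (PF.leaf (nat_lit 8168445) (nat_lit 517762) (nat_lit 38184539) (nat_lit 12035989) [(nat_lit 517762), (nat_lit 2024082), (nat_lit 6137695)]) (PF.cons (PF.leaf (nat_lit 8483132) (nat_lit 523106) (nat_lit 37743307) (nat_lit 11962907) [(nat_lit 523106), (nat_lit 2028172), (nat_lit 6117892)]) (PF.cons (PF.leaf (nat_lit 8800948) (nat_lit 527813) (nat_lit 37301469) (nat_lit 11888054) [(nat_lit 527813), (nat_lit 2031259), (nat_lit 6096668)]) (PF.cons PF.nil (PF.cons PF.nil PF.nil)))))))))) (PF.cons (PF.cons (PF.leaf (nat_lit 7480856) (nat_lit 2006560) (nat_lit 38684543) (nat_lit 12110671) [(nat_lit 0), (nat_lit 2006560), (nat_lit 6150238)]) (PF.cons (PF.leaf (nat_lit 7773260) (nat_lit 505493) (nat_lit 38268040) (nat_lit 12043650) [(nat_lit 505493), (nat_lit 2012443), (nat_lit 6133370)]) (PF.cons (PF.leaf (nat_lit 8072648) (nat_lit 512092) (nat_lit 37845882) (nat_lit 11974186)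 [(nat_lit 512092), (nat_lit 2017311), (nat_lit 6114967)]) (PF.cons (PF.leaf (nat_lit 8377300) (nat_lit 517866) (nat_lit 37420068) (nat_lit 11902572) [(nat_lit 517866), (nat_lit 2021186), (nat_lit 6095100)])
 (PF.cons (PF.leaf (nat_lit 8686111) (nat_lit 522921) (nat_lit 36992181) (nat_lit 11829055) [(nat_lit 522921), (nat_lit 2024105), (nat_lit 6073840)]) (PF.cons (PF.leaf (nat_lit 8998194) (nat_lit 527343) (nat_lit 36563505) (nat_lit 11753854) [(nat_lit 527343), (nat_lit 2026106), (nat_lit 6051261)]) (PF.cons PF.nil (PF.cons PF.nil PF.nil)))))))) (PF.cons (PF.cons (PF.leaf (nat_lit 8284096) (nat_lit 2014000) (nat_lit 37084765) (nat_lit 11839483) [(nat_lit 0), (nat_lit 2014000), (nat_lit 6071281)]) (PF.cons (PF.leaf (nat_lit 8581893) (nat_lit 517350) (nat_lit 36673200) (nat_lit 11767752) [(nat_lit 517350), (nat_lit 2016751), (nat_lit 6050127)]) (PF.cons (PF.leaf (nat_lit 8884532) (nat_lit 522183) (nat_lit 36259098) (nat_lit 11694145) [(nat_lit 522183), (nat_lit 2018628),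 (nat_lit 6027658)]) (PF.cons (PF.leaf (nat_lit 9190680) (nat_lit 526376) (nat_lit 35843872) (nat_lit 11618906) [(nat_lit 526376), (nat_lit 2019665), (nat_lit 6003954)]) (PF.cons (PF.leaf (nat_lit 9499476) (nat_lit 530004) (nat_lit 35428660) (nat_lit 11542245) [(nat_lit 530004), (nat_lit 2019900), (nat_lit 5979094)]) (PF.cons PF.nil PF.nil)))))) (PF.cons (PF.cons (PF.leaf (nat_lit 9079304) (nat_lit 2011892) (nat_lit
 35543565) (nat_lit 11558455) [(nat_lit 0), (nat_lit 2011892), (nat_lit 5979611)]) (PF.cons (PF.leaf (nat_lit 9378930) (nat_lit 524941) (nat_lit 35142095) (nat_lit 11483478) [(nat_lit 524941), (nat_lit 2012074), (nat_lit 5954999)]) (PF.cons (PF.leaf (nat_lit 9681801) (nat_lit 528390) (nat_lit 34740248) (nat_lit 11407112) [(nat_lit 528390), (nat_lit 2011517), (nat_lit 5929300)]) (PF.cons PF.nil PF.nil)))) (PF.cons (PF.cons (PF.leaf (nat_lit 9860526) (nat_lit 2002200) (nat_lit 34069305) (nat_lit 11271979) [(nat_lit 0), (nat_lit 2002200), (nat_lit 5878263)])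 (PF.cons PF.nil PF.nil)) (PF.cons PF.nil (PF.cons PF.nil PF.nil)))))))) (PF.cons (PF.cons (PF.cons (PF.leaf (nat_lit 7463802) (nat_lit 6027118) (nat_lit 37209155) (nat_lit 11818301) [(nat_lit 0), (nat_lit 0), (nat_lit 6027118)]) (PF.cons (PF.leaf (nat_lit 7737371) (nat_lit 486402) (nat_lit 36836353) (nat_lit 11755049) [(nat_lit 486402), (nat_lit 0), (nat_lit 6010335)]) (PF.cons (PF.leaf (nat_lit 8019768) (nat_lit 494142) (nat_lit 36455183) (nat_lit 11689134) [(nat_lit 494142), (nat_lit 0), (nat_lit 5992069)]) (PF.cons (PF.leaf (nat_lit 8308823) (nat_lit 500825) (nat_lit 36068182) (nat_lit 11620935) [(nat_lit 500825), (nat_lit 0),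
 (nat_lit 5972405)]) (PF.cons (PF.leaf (nat_lit 8603160) (nat_lit 506621) (nat_lit 35677293) (nat_lit 11550759) [(nat_lit 506621), (nat_lit 0), (nat_lit 5951424)]) (PF.cons (PF.leaf (nat_lit 8901704) (nat_lit 511657) (nat_lit 35284055) (nat_lit 11478859) [(nat_lit 511657), (nat_lit 0), (nat_lit 5929203)]) (PF.cons (PF.leaf (nat_lit 9203498) (nat_lit 516031) (nat_lit 34889710) (nat_lit 11405456) [(nat_lit 516031), (nat_lit 0), (nat_lit 5905819)]) (PF.cons PF.nil PF.nil)))))))) (PF.cons (PF.cons (PF.leaf (nat_lit 8228059) (nat_lit 1970819) (nat_lit 35738382) (nat_lit 11556529) [(nat_lit 0), (nat_lit 1970819), (nat_lit 5947693)]) (PF.cons (PF.leaf (nat_lit 8509876) (nat_lit 500128) (nat_lit 35365114) (nat_lit 11488613) [(nat_lit 500128), (nat_lit 1973876), (nat_lit 5927026)]) (PF.cons (PF.leaf (nat_lit 8797868) (nat_lit 505752) (nat_lit 34987310) (nat_lit 11418680) [(nat_lit 505752), (nat_lit 1976053), (nat_lit 5905087)]) (PF.cons (PF.leaf (nat_lit 9090430) (nat_lit 510598)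 (nat_lit 34606707) (nat_lit 11347025) [(nat_lit 510598), (nat_lit 1977385), (nat_lit 5881966)]) (PF.cons (PF.leaf (nat_lit 9386522) (nat_lit 514774) (nat_lit 34224671) (nat_lit 11273893) [(nat_lit 514774), (nat_lit
 1977911), (nat_lit 5857745)]) (PF.cons (PF.leaf (nat_lit 9685341) (nat_lit 518367) (nat_lit 33842297) (nat_lit 11199494) [(nat_lit 518367), (nat_lit 1977675), (nat_lit 5832503)]) PF.nil)))))) (PF.cons (PF.cons (PF.leaf (nat_lit 8989853) (nat_lit 1969290) (nat_lit 34312839) (nat_lit 11286025) [(nat_lit 0), (nat_lit 1969290), (nat_lit 5857122)]) (PF.cons (PF.leaf (nat_lit 9275713) (nat_lit 509059) (nat_lit 33945311) (nat_lit 11214908) [(nat_lit 509059), (nat_lit 1969810), (nat_lit 5833303)]) (PF.cons (PF.leaf (nat_lit 9565843) (nat_lit 513095) (nat_lit 33575852) (nat_lit 11142300) [(nat_lit 513095), (nat_lit 1969589), (nat_lit 5808430)]) (PF.cons (PF.leaf (nat_lit 9858970) (nat_lit 516536) (nat_lit 33205681) (nat_lit 11068437) [(nat_lit 516536), (nat_lit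 1968663), (nat_lit 5782586)]) PF.nil)))) (PF.cons (PF.cons (PF.leaf (nat_lit 9742323) (nat_lit 1960395) (nat_lit 32942674) (nat_lit 11010828) [(nat_lit 0), (nat_lit 1960395), (nat_lit 5758040)]) (PF.cons (PF.leaf (nat_lit 10029191) (nat_lit 514347) (nat_lit 32584888) (nat_lit 10937719) [(nat_lit 514347), (nat_lit 1958863), (nat_lit 5731755)]) PF.nil)) (PF.cons PF.nil (PF.cons PF.nil PF.nil)))))) (PF.cons (PF.cons (PF.cons (PF.leaf
 (nat_lit 8909788) (nat_lit 5736218) (nat_lit 33143939) (nat_lit 11019998) [(nat_lit 0), (nat_lit 0), (nat_lit 5736218)]) (PF.cons (PF.leaf (nat_lit 9181156) (nat_lit 492103) (nat_lit 32809558) (nat_lit 10953183) [(nat_lit 492103), (nat_lit 0), (nat_lit 5713491)]) (PF.cons (PF.leaf (nat_lit 9458110) (nat_lit 496959) (nat_lit 32471427) (nat_lit 10884678) [(nat_lit 496959), (nat_lit 0), (nat_lit 5689696)]) (PF.cons (PF.leaf (nat_lit 9739089) (nat_lit 501082) (nat_lit 32131064) (nat_lit 10814769) [(nat_lit 501082), (nat_lit 0), (nat_lit 5664932)])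 (PF.cons (PF.leaf (nat_lit 10023136) (nat_lit 504581) (nat_lit 31789651) (nat_lit 10743693) [(nat_lit 504581), (nat_lit 0), (nat_lit 5639285)]) (PF.cons PF.nil PF.nil)))))) (PF.cons (PF.cons (PF.leaf (nat_lit 9633439) (nat_lit 1918578) (nat_lit 31872898) (nat_lit 10756889) [(nat_lit 0), (nat_lit 1918578), (nat_lit 5640111)]) (PF.cons (PF.leaf (nat_lit 9907934) (nat_lit 498859) (nat_lit 31544325) (nat_lit 10687904) [(nat_lit 498859), (nat_lit 1917557), (nat_lit 5615041)]) (PF.cons (PF.leaf (nat_lit 10186286) (nat_lit 502278) (nat_lit 31214207) (nat_lit 10617711) [(nat_lit 502278), (nat_lit 1915899), (nat_lit 5589109)]) (PF.cons PF.nil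
 PF.nil)))) (PF.cons (PF.cons (PF.leaf (nat_lit 10347276) (nat_lit 1905235) (nat_lit 30652481) (nat_lit 10492371) [(nat_lit 0), (nat_lit 1905235), (nat_lit 5538372)]) (PF.cons PF.nil PF.nil)) (PF.cons PF.nil PF.nil)))) (PF.cons (PF.cons (PF.cons (PF.leaf (nat_lit 10224377) (nat_lit 5426610) (nat_lit 29718163) (nat_lit 10257596) [(nat_lit 0), (nat_lit 0), (nat_lit 5426610)]) (PF.cons (PF.leaf (nat_lit 10488173) (nat_lit 487567) (nat_lit 29423720) (nat_lit 10191566) [(nat_lit 487567), (nat_lit 0), (nat_lit 5401191)]) PF.nil)) (PF.cons PF.nil PF.nil)) (PF.cons PF.nil (PF.cons PF.nil (PF.cons PF.nil (PF.cons PF.nil PF.nil))))))))))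

def p13_18_2_0 : pfC (piC [(nat_lit 38632330), (nat_lit 24534081), (nat_lit 15702173)] (nat_lit 7339693)) p13_18_2 (nat_lit 3) (nat_lit 0) (nat_lit 1) = true := by decide +kernel
def p13_18_2_1 : pfC (piC [(nat_lit 38632330), (nat_lit 24534081), (nat_lit 15702173)] (nat_lit 7339693)) p13_18_2 (nat_lit 3) (nat_lit 1) (nat_lit 2) = true := by decide +kernel
def p13_18_2_2 : pfC (piC [(nat_lit 38632330), (nat_lit 24534081), (nat_lit 15702173)] (nat_lit 7339693)) p13_18_2 (nat_lit 3) (nat_lit 2) (nat_lit 3) = true := by decide +kernel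
def p13_18_2_3 : pfC (piC [(nat_lit 38632330), (nat_lit 24534081), (nat_lit 15702173)] (nat_lit 7339693)) p13_18_2 (nat_lit 3) (nat_lit 3) (nat_lit 4) = true := by decide +kernel
def p13_18_2_4 : pfC (piC [(nat_lit 38632330), (nat_lit 24534081), (nat_lit 15702173)] (nat_lit 7339693)) p13_18_2 (nat_lit 3) (nat_lit 4) (nat_lit 5) = true := by decide +kernel
def p13_18_2_5 : pfC (piC [(nat_lit 38632330), (nat_lit 24534081), (nat_lit 15702173)] (nat_lit 7339693)) p13_18_2 (nat_lit 3) (nat_lit 5) (nat_lit 6) = true := by decide +kernel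
def p13_18_2_6 : pfC (piC [(nat_lit 38632330), (nat_lit 24534081), (nat_lit 15702173)] (nat_lit 7339693)) p13_18_2 (nat_lit 3) (nat_lit 6) (nat_lit 7) = true := by decide +kernel
def p13_18_2_7 : pfC (piC [(nat_lit 38632330), (nat_lit 24534081), (nat_lit 15702173)] (nat_lit 7339693)) p13_18_2 (nat_lit 3) (nat_lit 7) (nat_lit 8) = true := by decide +kernel
def p13_18_2_8 : pfC (piC [(nat_lit 38632330), (nat_lit 24534081), (nat_lit 15702173)] (nat_lit 7339693)) p13_18_2 (nat_lit 3) (nat_lit 8) (nat_lit 9) = true := by decide +kernel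
def p13_18_2_9 : pfC (piC [(nat_lit 38632330), (nat_lit 24534081), (nat_lit 15702173)] (nat_lit 7339693)) p13_18_2 (nat_lit 3) (nat_lit 9) (nat_lit 10) = true := by decide +kernel
def p13_18_2_10 : pfC (piC [(nat_lit 38632330), (nat_lit 24534081), (nat_lit 15702173)] (nat_lit 7339693)) p13_18_2 (nat_lit 3) (nat_lit 10) (nat_lit 11) = true := by decide +kernel
def p13_18_2_11 : pfC (piC [(nat_lit 38632330), (nat_lit 24534081), (nat_lit 15702173)] (nat_lit 7339693)) p13_18_2 (nat_lit 3) (nat_lit 11) (nat_lit 12) = true := by decide +kernel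
def p13_18_2_12 : pfC (piC [(nat_lit 38632330), (nat_lit 24534081), (nat_lit 15702173)] (nat_lit 7339693)) p13_18_2 (nat_lit 3) (nat_lit 12) (nat_lit 13) = true := by decide +kernel
def p13_18_2_13 : pfC (piC [(nat_lit 38632330), (nat_lit 24534081), (nat_lit 15702173)] (nat_lit 7339693)) p13_18_2 (nat_lit 3) (nat_lit 13) (nat_lit 14) = true := by decide +kernel
def p13_18_2_14 : pfC (piC [(nat_lit 38632330), (nat_lit 24534081), (nat_lit 15702173)] (nat_lit 7339693)) p13_18_2 (nat_lit 3) (nat_lit 14) (nat_lit 15) = true := by decide +kernel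
def p13_18_2_15 : pfC (piC [(nat_lit 38632330), (nat_lit 24534081), (nat_lit 15702173)] (nat_lit 7339693)) p13_18_2 (nat_lit 3) (nat_lit 15) (nat_lit 16) = true := by decide +kernel
def p13_18_2_16 : pfC (piC [(nat_lit 38632330), (nat_lit 24534081), (nat_lit 15702173)] (nat_lit 7339693)) p13_18_2 (nat_lit 3) (nat_lit 16) (nat_lit 17) = true := by decide +kernel
def p13_18_2_17 : pfC (piC [(nat_lit 38632330), (nat_lit 24534081), (nat_lit 15702173)] (nat_lit 7339693)) p13_18_2 (nat_lit 3) (nat_lit 17) (nat_lit 18) = true := by decide +kernel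
def p13_18_2_18 : pfC (piC [(nat_lit 38632330), (nat_lit 24534081), (nat_lit 15702173)] (nat_lit 7339693)) p13_18_2 (nat_lit 3) (nat_lit 18) (nat_lit 19) = true := by decide +kernel
def p13_18_2_19 : pfC (piC [(nat_lit 38632330), (nat_lit 24534081), (nat_lit 15702173)] (nat_lit 7339693)) p13_18_2 (nat_lit 3) (nat_lit 19) (nat_lit 20) = true := by decide +kernel
def p13_18_2_20 : pfC (piC [(nat_lit 38632330), (nat_lit 24534081), (nat_lit 15702173)] (nat_lit 7339693)) p13_18_2 (nat_lit 3) (nat_lit 20) (nat_lit 21) = true := by decide +kernel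
def p13_18_2_21 : pfC (piC [(nat_lit 38632330), (nat_lit 24534081), (nat_lit 15702173)] (nat_lit 7339693)) p13_18_2 (nat_lit 3) (nat_lit 21) (nat_lit 22) = true := by decide +kernel
def p13_18_2_22 : pfC (piC [(nat_lit 38632330), (nat_lit 24534081), (nat_lit 15702173)] (nat_lit 7339693)) p13_18_2 (nat_lit 3) (nat_lit 22) (nat_lit 23) = true := by decide +kernel
def p13_18_2_23 : pfC (piC [(nat_lit 38632330), (nat_lit 24534081), (nat_lit 15702173)] (nat_lit 7339693)) p13_18_2 (nat_lit 3) (nat_lit 23) (nat_lit 24) = true := by decide +kernel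
def p13_18_2_24 : pfC (piC [(nat_lit 38632330), (nat_lit 24534081), (nat_lit 15702173)] (nat_lit 7339693)) p13_18_2 (nat_lit 3) (nat_lit 24) (nat_lit 25) = true := by decide +kernel
def p13_18_2_25 : pfC (piC [(nat_lit 38632330), (nat_lit 24534081), (nat_lit 15702173)] (nat_lit 7339693)) p13_18_2 (nat_lit 3) (nat_lit 25) (nat_lit 26) = true := by decide +kernel
def p13_18_2_26 : pfC (piC [(nat_lit 38632330), (nat_lit 24534081), (nat_lit 15702173)] (nat_lit 7339693)) p13_18_2 (nat_lit 3) (nat_lit 26) (nat_lit 27) = true := by decide +kernel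
def p13_18_2_27 : pfC (piC [(nat_lit 38632330), (nat_lit 24534081), (nat_lit 15702173)] (nat_lit 7339693)) p13_18_2 (nat_lit 3) (nat_lit 27) (nat_lit 28) = true := by decide +kernel
def p13_18_2_28 : pfC (piC [(nat_lit 38632330), (nat_lit 24534081), (nat_lit 15702173)] (nat_lit 7339693)) p13_18_2 (nat_lit 3) (nat_lit 28) (nat_lit 29) = true := by decide +kernel
def p13_18_2_29 : pfC (piC [(nat_lit 38632330), (nat_lit 24534081), (nat_lit 15702173)] (nat_lit 7339693)) p13_18_2 (nat_lit 3) (nat_lit 29) (nat_lit 30) = true := by decide +kernel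
def p13_18_2_30 : pfC (piC [(nat_lit 38632330), (nat_lit 24534081), (nat_lit 15702173)] (nat_lit 7339693)) p13_18_2 (nat_lit 3) (nat_lit 30) (nat_lit 31) = true := by decide +kernel
def p13_18_2_31 : pfC (piC [(nat_lit 38632330), (nat_lit 24534081), (nat_lit 15702173)] (nat_lit 7339693)) p13_18_2 (nat_lit 3) (nat_lit 31) (nat_lit 32) = true := by decide +kernel
def p13_18_2_32 : pfC (piC [(nat_lit 38632330), (nat_lit 24534081), (nat_lit 15702173)] (nat_lit 7339693)) p13_18_2 (nat_lit 3) (nat_lit 32) (nat_lit 33) = true := by decide +kernel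
def p13_18_2_33 : pfC (piC [(nat_lit 38632330), (nat_lit 24534081), (nat_lit 15702173)] (nat_lit 7339693)) p13_18_2 (nat_lit 3) (nat_lit 33) (nat_lit 34) = true := by decide +kernel
def p13_18_2_34 : pfC (piC [(nat_lit 38632330), (nat_lit 24534081), (nat_lit 15702173)] (nat_lit 7339693)) p13_18_2 (nat_lit 3) (nat_lit 34) (nat_lit 35) = true := by decide +kernel
def p13_18_2_35 : pfC (piC [(nat_lit 38632330), (nat_lit 24534081), (nat_lit 15702173)] (nat_lit 7339693)) p13_18_2 (nat_lit 3) (nat_lit 35) (nat_lit 36) = true := by decide +kernel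
def p13_18_2_36 : pfC (piC [(nat_lit 38632330), (nat_lit 24534081), (nat_lit 15702173)] (nat_lit 7339693)) p13_18_2 (nat_lit 3) (nat_lit 36) (nat_lit 37) = true := by decide +kernel
def p13_18_2_37 : pfC (piC [(nat_lit 38632330), (nat_lit 24534081), (nat_lit 15702173)] (nat_lit 7339693)) p13_18_2 (nat_lit 3) (nat_lit 37) (nat_lit 38) = true := by decide +kernel
def p13_18_2_38 : pfC (piC [(nat_lit 38632330), (nat_lit 24534081), (nat_lit 15702173)] (nat_lit 7339693)) p13_18_2 (nat_lit 3) (nat_lit 38) (nat_lit 39) = true := by decide +kernel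
def p13_18_2_39 : pfC (piC [(nat_lit 38632330), (nat_lit 24534081), (nat_lit 15702173)] (nat_lit 7339693)) p13_18_2 (nat_lit 3) (nat_lit 39) (nat_lit 40) = true := by decide +kernel
def p13_18_2_40 : pfC (piC [(nat_lit 38632330), (nat_lit 24534081), (nat_lit 15702173)] (nat_lit 7339693)) p13_18_2 (nat_lit 3) (nat_lit 40) (nat_lit 41) = true := by decide +kernel
def p13_18_2_41 : pfC (piC [(nat_lit 38632330), (nat_lit 24534081), (nat_lit 15702173)] (nat_lit 7339693)) p13_18_2 (nat_lit 3) (nat_lit 41) (nat_lit 42) = true := by decide +kernel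
def p13_18_2_42 : pfC (piC [(nat_lit 38632330), (nat_lit 24534081), (nat_lit 15702173)] (nat_lit 7339693)) p13_18_2 (nat_lit 3) (nat_lit 42) (nat_lit 43) = true := by decide +kernel
def p13_18_2_43 : pfC (piC [(nat_lit 38632330), (nat_lit 24534081), (nat_lit 15702173)] (nat_lit 7339693)) p13_18_2 (nat_lit 3) (nat_lit 43) (nat_lit 44) = true := by decide +kernel
def p13_18_2_44 : pfC (piC [(nat_lit 38632330), (nat_lit 24534081), (nat_lit 15702173)] (nat_lit 7339693)) p13_18_2 (nat_lit 3) (nat_lit 44) (nat_lit 45) = true := by decide +kernel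
def p13_18_2_45 : pfC (piC [(nat_lit 38632330), (nat_lit 24534081), (nat_lit 15702173)] (nat_lit 7339693)) p13_18_2 (nat_lit 3) (nat_lit 45) (nat_lit 46) = true := by decide +kernel
def p13_18_2_46 : pfC (piC [(nat_lit 38632330), (nat_lit 24534081), (nat_lit 15702173)] (nat_lit 7339693)) p13_18_2 (nat_lit 3) (nat_lit 46) (nat_lit 47) = true := by decide +kernel
def p13_18_2_47 : pfC (piC [(nat_lit 38632330), (nat_lit 24534081), (nat_lit 15702173)] (nat_lit 7339693)) p13_18_2 (nat_lit 3) (nat_lit 47) (nat_lit 48) = true := by decide +kernel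
def p13_18_2_48 : pfC (piC [(nat_lit 38632330), (nat_lit 24534081), (nat_lit 15702173)] (nat_lit 7339693)) p13_18_2 (nat_lit 3) (nat_lit 48) (nat_lit 49) = true := by decide +kernel
def p13_18_2_49 : pfC (piC [(nat_lit 38632330), (nat_lit 24534081), (nat_lit 15702173)] (nat_lit 7339693)) p13_18_2 (nat_lit 3) (nat_lit 49) (nat_lit 50) = true := by decide +kernel
def p13_18_2_50 : pfC (piC [(nat_lit 38632330), (nat_lit 24534081), (nat_lit 15702173)] (nat_lit 7339693)) p13_18_2 (nat_lit 3) (nat_lit 50) (nat_lit 51) = true := by decide +kernel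
def p13_18_2_51 : pfC (piC [(nat_lit 38632330), (nat_lit 24534081), (nat_lit 15702173)] (nat_lit 7339693)) p13_18_2 (nat_lit 3) (nat_lit 51) (nat_lit 52) = true := by decide +kernel
def p13_18_2_52 : pfC (piC [(nat_lit 38632330), (nat_lit 24534081), (nat_lit 15702173)] (nat_lit 7339693)) p13_18_2 (nat_lit 3) (nat_lit 52) (nat_lit 53) = true := by decide +kernel
def p13_18_2_53 : pfC (piC [(nat_lit 38632330), (nat_lit 24534081), (nat_lit 15702173)] (nat_lit 7339693)) p13_18_2 (nat_lit 3) (nat_lit 53) (nat_lit 54) = true := by decide +kernel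
def p13_18_2_54 : pfC (piC [(nat_lit 38632330), (nat_lit 24534081), (nat_lit 15702173)] (nat_lit 7339693)) p13_18_2 (nat_lit 3) (nat_lit 54) (nat_lit 55) = true := by decide +kernel
def p13_18_2_55 : pfC (piC [(nat_lit 38632330), (nat_lit 24534081), (nat_lit 15702173)] (nat_lit 7339693)) p13_18_2 (nat_lit 3) (nat_lit 55) (nat_lit 56) = true := by decide +kernel
def p13_18_2_56 : pfC (piC [(nat_lit 38632330), (nat_lit 24534081), (nat_lit 15702173)] (nat_lit 7339693)) p13_18_2 (nat_lit 3) (nat_lit 56) (nat_lit 57) = true := by decide +kernel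
def p13_18_2_57 : pfC (piC [(nat_lit 38632330), (nat_lit 24534081), (nat_lit 15702173)] (nat_lit 7339693)) p13_18_2 (nat_lit 3) (nat_lit 57) (nat_lit 58) = true := by decide +kernel
def p13_18_2_58 : pfC (piC [(nat_lit 38632330), (nat_lit 24534081), (nat_lit 15702173)] (nat_lit 7339693)) p13_18_2 (nat_lit 3) (nat_lit 58) (nat_lit 59) = true := by decide +kernel
def p13_18_2_59 : pfC (piC [(nat_lit 38632330), (nat_lit 24534081), (nat_lit 15702173)] (nat_lit 7339693)) p13_18_2 (nat_lit 3) (nat_lit 59) (nat_lit 60) = true := by decide +kernel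
def p13_18_2_60 : pfC (piC [(nat_lit 38632330), (nat_lit 24534081), (nat_lit 15702173)] (nat_lit 7339693)) p13_18_2 (nat_lit 3) (nat_lit 60) (nat_lit 61) = true := by decide +kernel
def p13_18_2_61 : pfC (piC [(nat_lit 38632330), (nat_lit 24534081), (nat_lit 15702173)] (nat_lit 7339693)) p13_18_2 (nat_lit 3) (nat_lit 61) (nat_lit 62) = true := by decide +kernel
def p13_18_2_62 : pfC (piC [(nat_lit 38632330), (nat_lit 24534081), (nat_lit 15702173)] (nat_lit 7339693)) p13_18_2 (nat_lit 3) (nat_lit 62) (nat_lit 63) = true := by decide +kernel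
def p13_18_2_63 : pfC (piC [(nat_lit 38632330), (nat_lit 24534081), (nat_lit 15702173)] (nat_lit 7339693)) p13_18_2 (nat_lit 3) (nat_lit 63) (nat_lit 64) = true := by decide +kernel
def p13_18_2_64 : pfC (piC [(nat_lit 38632330), (nat_lit 24534081), (nat_lit 15702173)] (nat_lit 7339693)) p13_18_2 (nat_lit 3) (nat_lit 64) (nat_lit 65) = true := by decide +kernel
def p13_18_2_65 : pfC (piC [(nat_lit 38632330), (nat_lit 24534081), (nat_lit 15702173)] (nat_lit 7339693)) p13_18_2 (nat_lit 3) (nat_lit 65) (nat_lit 66) = true := by decide +kernel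
def p13_18_2_66 : pfC (piC [(nat_lit 38632330), (nat_lit 24534081), (nat_lit 15702173)] (nat_lit 7339693)) p13_18_2 (nat_lit 3) (nat_lit 66) (nat_lit 67) = true := by decide +kernel
def p13_18_2_67 : pfC (piC [(nat_lit 38632330), (nat_lit 24534081), (nat_lit 15702173)] (nat_lit 7339693)) p13_18_2 (nat_lit 3) (nat_lit 67) (nat_lit 68) = true := by decide +kernel
def p13_18_2_68 : pfC (piC [(nat_lit 38632330), (nat_lit 24534081), (nat_lit 15702173)] (nat_lit 7339693)) p13_18_2 (nat_lit 3) (nat_lit 68) (nat_lit 69) = true := by decide +kernel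
def p13_18_2_69 : pfC (piC [(nat_lit 38632330), (nat_lit 24534081), (nat_lit 15702173)] (nat_lit 7339693)) p13_18_2 (nat_lit 3) (nat_lit 69) (nat_lit 70) = true := by decide +kernel
def p13_18_2_70 : pfC (piC [(nat_lit 38632330), (nat_lit 24534081), (nat_lit 15702173)] (nat_lit 7339693)) p13_18_2 (nat_lit 3) (nat_lit 70) (nat_lit 71) = true := by decide +kernel
def p13_18_2_71 : pfC (piC [(nat_lit 38632330), (nat_lit 24534081), (nat_lit 15702173)] (nat_lit 7339693)) p13_18_2 (nat_lit 3) (nat_lit 71) (nat_lit 72) = true := by decide +kernel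
def p13_18_2_72 : pfC (piC [(nat_lit 38632330), (nat_lit 24534081), (nat_lit 15702173)] (nat_lit 7339693)) p13_18_2 (nat_lit 3) (nat_lit 72) (nat_lit 73) = true := by decide +kernel
def p13_18_2_73 : pfC (piC [(nat_lit 38632330), (nat_lit 24534081), (nat_lit 15702173)] (nat_lit 7339693)) p13_18_2 (nat_lit 3) (nat_lit 73) (nat_lit 74) = true := by decide +kernel
def p13_18_2_74 : pfC (piC [(nat_lit 38632330), (nat_lit 24534081), (nat_lit 15702173)] (nat_lit 7339693)) p13_18_2 (nat_lit 3) (nat_lit 74) (nat_lit 75) = true := by decide +kernel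
def p13_18_2_75 : pfC (piC [(nat_lit 38632330), (nat_lit 24534081), (nat_lit 15702173)] (nat_lit 7339693)) p13_18_2 (nat_lit 3) (nat_lit 75) (nat_lit 76) = true := by decide +kernel
def p13_18_2_76 : pfC (piC [(nat_lit 38632330), (nat_lit 24534081), (nat_lit 15702173)] (nat_lit 7339693)) p13_18_2 (nat_lit 3) (nat_lit 76) (nat_lit 77) = true := by decide +kernel
def p13_18_2_77 : pfC (piC [(nat_lit 38632330), (nat_lit 24534081), (nat_lit 15702173)] (nat_lit 7339693)) p13_18_2 (nat_lit 3) (nat_lit 77) (nat_lit 78) = true := by decide +kernel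
def p13_18_2_78 : pfC (piC [(nat_lit 38632330), (nat_lit 24534081), (nat_lit 15702173)] (nat_lit 7339693)) p13_18_2 (nat_lit 3) (nat_lit 78) (nat_lit 79) = true := by decide +kernel
def p13_18_2_79 : pfC (piC [(nat_lit 38632330), (nat_lit 24534081), (nat_lit 15702173)] (nat_lit 7339693)) p13_18_2 (nat_lit 3) (nat_lit 79) (nat_lit 80) = true := by decide +kernel
def p13_18_2_80 : pfC (piC [(nat_lit 38632330), (nat_lit 24534081), (nat_lit 15702173)] (nat_lit 7339693)) p13_18_2 (nat_lit 3) (nat_lit 80) (nat_lit 81) = true := by decide +kernel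
def p13_18_2_81 : pfC (piC [(nat_lit 38632330), (nat_lit 24534081), (nat_lit 15702173)] (nat_lit 7339693)) p13_18_2 (nat_lit 3) (nat_lit 81) (nat_lit 82) = true := by decide +kernel
def p13_18_2_82 : pfC (piC [(nat_lit 38632330), (nat_lit 24534081), (nat_lit 15702173)] (nat_lit 7339693)) p13_18_2 (nat_lit 3) (nat_lit 82) (nat_lit 83) = true := by decide +kernel
def p13_18_2_83 : pfC (piC [(nat_lit 38632330), (nat_lit 24534081), (nat_lit 15702173)] (nat_lit 7339693)) p13_18_2 (nat_lit 3) (nat_lit 83) (nat_lit 84) = true := by decide +kernel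
def p13_18_2_84 : pfC (piC [(nat_lit 38632330), (nat_lit 24534081), (nat_lit 15702173)] (nat_lit 7339693)) p13_18_2 (nat_lit 3) (nat_lit 84) (nat_lit 85) = true := by decide +kernel
def p13_18_2_85 : pfC (piC [(nat_lit 38632330), (nat_lit 24534081), (nat_lit 15702173)] (nat_lit 7339693)) p13_18_2 (nat_lit 3) (nat_lit 85) (nat_lit 86) = true := by decide +kernel
def p13_18_2_86 : pfC (piC [(nat_lit 38632330), (nat_lit 24534081), (nat_lit 15702173)] (nat_lit 7339693)) p13_18_2 (nat_lit 3) (nat_lit 86) (nat_lit 87) = true := by decide +kernel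
def p13_18_2_87 : pfC (piC [(nat_lit 38632330), (nat_lit 24534081), (nat_lit 15702173)] (nat_lit 7339693)) p13_18_2 (nat_lit 3) (nat_lit 87) (nat_lit 88) = true := by decide +kernel
def p13_18_2_88 : pfC (piC [(nat_lit 38632330), (nat_lit 24534081), (nat_lit 15702173)] (nat_lit 7339693)) p13_18_2 (nat_lit 3) (nat_lit 88) (nat_lit 89) = true := by decide +kernel
def p13_18_2_89 : pfC (piC [(nat_lit 38632330), (nat_lit 24534081), (nat_lit 15702173)] (nat_lit 7339693)) p13_18_2 (nat_lit 3) (nat_lit 89) (nat_lit 90) = true := by decide +kernel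
def p13_18_2_90 : pfC (piC [(nat_lit 38632330), (nat_lit 24534081), (nat_lit 15702173)] (nat_lit 7339693)) p13_18_2 (nat_lit 3) (nat_lit 90) (nat_lit 91) = true := by decide +kernel
def p13_18_2_91 : pfC (piC [(nat_lit 38632330), (nat_lit 24534081), (nat_lit 15702173)] (nat_lit 7339693)) p13_18_2 (nat_lit 3) (nat_lit 91) (nat_lit 92) = true := by decide +kernel
def p13_18_2_92 : pfC (piC [(nat_lit 38632330), (nat_lit 24534081), (nat_lit 15702173)] (nat_lit 7339693)) p13_18_2 (nat_lit 3) (nat_lit 92) (nat_lit 93) = true := by decide +kernel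
def p13_18_2_93 : pfC (piC [(nat_lit 38632330), (nat_lit 24534081), (nat_lit 15702173)] (nat_lit 7339693)) p13_18_2 (nat_lit 3) (nat_lit 93) (nat_lit 94) = true := by decide +kernel
def p13_18_2_94 : pfC (piC [(nat_lit 38632330), (nat_lit 24534081), (nat_lit 15702173)] (nat_lit 7339693)) p13_18_2 (nat_lit 3) (nat_lit 94) (nat_lit 95) = true := by decide +kernel
def p13_18_2_95 : pfC (piC [(nat_lit 38632330), (nat_lit 24534081), (nat_lit 15702173)] (nat_lit 7339693)) p13_18_2 (nat_lit 3) (nat_lit 95) (nat_lit 96) = true := by decide +kernel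
def p13_18_2_96 : pfC (piC [(nat_lit 38632330), (nat_lit 24534081), (nat_lit 15702173)] (nat_lit 7339693)) p13_18_2 (nat_lit 3) (nat_lit 96) (nat_lit 97) = true := by decide +kernel
def p13_18_2_97 : pfC (piC [(nat_lit 38632330), (nat_lit 24534081), (nat_lit 15702173)] (nat_lit 7339693)) p13_18_2 (nat_lit 3) (nat_lit 97) (nat_lit 98) = true := by decide +kernel
def p13_18_2_98 : pfC (piC [(nat_lit 38632330), (nat_lit 24534081), (nat_lit 15702173)] (nat_lit 7339693)) p13_18_2 (nat_lit 3) (nat_lit 98) (nat_lit 99) = true := by decide +kernel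
def p13_18_2_99 : pfC (piC [(nat_lit 38632330), (nat_lit 24534081), (nat_lit 15702173)] (nat_lit 7339693)) p13_18_2 (nat_lit 3) (nat_lit 99) (nat_lit 100) = true := by decide +kernel
def p13_18_2_100 : pfC (piC [(nat_lit 38632330), (nat_lit 24534081), (nat_lit 15702173)] (nat_lit 7339693)) p13_18_2 (nat_lit 3) (nat_lit 100) (nat_lit 101) = true := by decide +kernel
def p13_18_2_101 : pfC (piC [(nat_lit 38632330), (nat_lit 24534081), (nat_lit 15702173)] (nat_lit 7339693)) p13_18_2 (nat_lit 3) (nat_lit 101) (nat_lit 102) = true := by decide +kernel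
def p13_18_2_102 : pfC (piC [(nat_lit 38632330), (nat_lit 24534081), (nat_lit 15702173)] (nat_lit 7339693)) p13_18_2 (nat_lit 3) (nat_lit 102) (nat_lit 103) = true := by decide +kernel
def p13_18_2_103 : pfC (piC [(nat_lit 38632330), (nat_lit 24534081), (nat_lit 15702173)] (nat_lit 7339693)) p13_18_2 (nat_lit 3) (nat_lit 103) (nat_lit 104) = true := by decide +kernel
def p13_18_2_104 : pfC (piC [(nat_lit 38632330), (nat_lit 24534081), (nat_lit 15702173)] (nat_lit 7339693)) p13_18_2 (nat_lit 3) (nat_lit 104) (nat_lit 105) = true := by decide +kernel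
def p13_18_2_105 : pfC (piC [(nat_lit 38632330), (nat_lit 24534081), (nat_lit 15702173)] (nat_lit 7339693)) p13_18_2 (nat_lit 3) (nat_lit 105) (nat_lit 106) = true := by decide +kernel
def p13_18_2_106 : pfC (piC [(nat_lit 38632330), (nat_lit 24534081), (nat_lit 15702173)] (nat_lit 7339693)) p13_18_2 (nat_lit 3) (nat_lit 106) (nat_lit 107) = true := by decide +kernel
def p13_18_2_107 : pfC (piC [(nat_lit 38632330), (nat_lit 24534081), (nat_lit 15702173)] (nat_lit 7339693)) p13_18_2 (nat_lit 3) (nat_lit 107) (nat_lit 108) = true := by decide +kernel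
def p13_18_2_108 : pfC (piC [(nat_lit 38632330), (nat_lit 24534081), (nat_lit 15702173)] (nat_lit 7339693)) p13_18_2 (nat_lit 3) (nat_lit 108) (nat_lit 109) = true := by decide +kernel
def p13_18_2_109 : pfC (piC [(nat_lit 38632330), (nat_lit 24534081), (nat_lit 15702173)] (nat_lit 7339693)) p13_18_2 (nat_lit 3) (nat_lit 109) (nat_lit 110) = true := by decide +kernel
def p13_18_2_110 : pfC (piC [(nat_lit 38632330), (nat_lit 24534081), (nat_lit 15702173)] (nat_lit 7339693)) p13_18_2 (nat_lit 3) (nat_lit 110) (nat_lit 111) = true := by decide +kernel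
def p13_18_2_111 : pfC (piC [(nat_lit 38632330), (nat_lit 24534081), (nat_lit 15702173)] (nat_lit 7339693)) p13_18_2 (nat_lit 3) (nat_lit 111) (nat_lit 112) = true := by decide +kernel
def p13_18_2_112 : pfC (piC [(nat_lit 38632330), (nat_lit 24534081), (nat_lit 15702173)] (nat_lit 7339693)) p13_18_2 (nat_lit 3) (nat_lit 112) (nat_lit 113) = true := by decide +kernel
def p13_18_2_113 : pfC (piC [(nat_lit 38632330), (nat_lit 24534081), (nat_lit 15702173)] (nat_lit 7339693)) p13_18_2 (nat_lit 3) (nat_lit 113) (nat_lit 114) = true := by decide +kernel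
def p13_18_2_114 : pfC (piC [(nat_lit 38632330), (nat_lit 24534081), (nat_lit 15702173)] (nat_lit 7339693)) p13_18_2 (nat_lit 3) (nat_lit 114) (nat_lit 115) = true := by decide +kernel
def p13_18_2_115 : pfC (piC [(nat_lit 38632330), (nat_lit 24534081), (nat_lit 15702173)] (nat_lit 7339693)) p13_18_2 (nat_lit 3) (nat_lit 115) (nat_lit 116) = true := by decide +kernel
def p13_18_2_116 : pfC (piC [(nat_lit 38632330), (nat_lit 24534081), (nat_lit 15702173)] (nat_lit 7339693)) p13_18_2 (nat_lit 3) (nat_lit 116) (nat_lit 117) = true := by decide +kernel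
def p13_18_2_117 : pfC (piC [(nat_lit 38632330), (nat_lit 24534081), (nat_lit 15702173)] (nat_lit 7339693)) p13_18_2 (nat_lit 3) (nat_lit 117) (nat_lit 118) = true := by decide +kernel
def p13_18_2_118 : pfC (piC [(nat_lit 38632330), (nat_lit 24534081), (nat_lit 15702173)] (nat_lit 7339693)) p13_18_2 (nat_lit 3) (nat_lit 118) (nat_lit 119) = true := by decide +kernel
def p13_18_2_119 : pfC (piC [(nat_lit 38632330), (nat_lit 24534081), (nat_lit 15702173)] (nat_lit 7339693)) p13_18_2 (nat_lit 3) (nat_lit 119) (nat_lit 120) = true := by decide +kernel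
def p13_18_2_120 : pfC (piC [(nat_lit 38632330), (nat_lit 24534081), (nat_lit 15702173)] (nat_lit 7339693)) p13_18_2 (nat_lit 3) (nat_lit 120) (nat_lit 121) = true := by decide +kernel
def p13_18_2_121 : pfC (piC [(nat_lit 38632330), (nat_lit 24534081), (nat_lit 15702173)] (nat_lit 7339693)) p13_18_2 (nat_lit 3) (nat_lit 121) (nat_lit 122) = true := by decide +kernel
def p13_18_2_122 : pfC (piC [(nat_lit 38632330), (nat_lit 24534081), (nat_lit 15702173)] (nat_lit 7339693)) p13_18_2 (nat_lit 3) (nat_lit 122) (nat_lit 123) = true := by decide +kernel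
def p13_18_2_123 : pfC (piC [(nat_lit 38632330), (nat_lit 24534081), (nat_lit 15702173)] (nat_lit 7339693)) p13_18_2 (nat_lit 3) (nat_lit 123) (nat_lit 124) = true := by decide +kernel
def p13_18_2_124 : pfC (piC [(nat_lit 38632330), (nat_lit 24534081), (nat_lit 15702173)] (nat_lit 7339693)) p13_18_2 (nat_lit 3) (nat_lit 124) (nat_lit 125) = true := by decide +kernel
def p13_18_2_125 : pfC (piC [(nat_lit 38632330), (nat_lit 24534081), (nat_lit 15702173)] (nat_lit 7339693)) p13_18_2 (nat_lit 3) (nat_lit 125) (nat_lit 126) = true := by decide +kernel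
def p13_18_2_126 : pfC (piC [(nat_lit 38632330), (nat_lit 24534081), (nat_lit 15702173)] (nat_lit 7339693)) p13_18_2 (nat_lit 3) (nat_lit 126) (nat_lit 127) = true := by decide +kernel
def p13_18_2_127 : pfC (piC [(nat_lit 38632330), (nat_lit 24534081), (nat_lit 15702173)] (nat_lit 7339693)) p13_18_2 (nat_lit 3) (nat_lit 127) (nat_lit 128) = true := by decide +kernel
def p13_18_2_128 : pfC (piC [(nat_lit 38632330), (nat_lit 24534081), (nat_lit 15702173)] (nat_lit 7339693)) p13_18_2 (nat_lit 3) (nat_lit 128) (nat_lit 129) = true := by decide +kernel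
def p13_18_2_129 : pfC (piC [(nat_lit 38632330), (nat_lit 24534081), (nat_lit 15702173)] (nat_lit 7339693)) p13_18_2 (nat_lit 3) (nat_lit 129) (nat_lit 130) = true := by decide +kernel
def p13_18_2_130 : pfC (piC [(nat_lit 38632330), (nat_lit 24534081), (nat_lit 15702173)] (nat_lit 7339693)) p13_18_2 (nat_lit 3) (nat_lit 130) (nat_lit 131) = true := by decide +kernel
def p13_18_2_131 : pfC (piC [(nat_lit 38632330), (nat_lit 24534081), (nat_lit 15702173)] (nat_lit 7339693)) p13_18_2 (nat_lit 3) (nat_lit 131) (nat_lit 132) = true := by decide +kernel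
def p13_18_2_132 : pfC (piC [(nat_lit 38632330), (nat_lit 24534081), (nat_lit 15702173)] (nat_lit 7339693)) p13_18_2 (nat_lit 3) (nat_lit 132) (nat_lit 133) = true := by decide +kernel
def p13_18_2_133 : pfC (piC [(nat_lit 38632330), (nat_lit 24534081), (nat_lit 15702173)] (nat_lit 7339693)) p13_18_2 (nat_lit 3) (nat_lit 133) (nat_lit 134) = true := by decide +kernel
def p13_18_2_134 : pfC (piC [(nat_lit 38632330), (nat_lit 24534081), (nat_lit 15702173)] (nat_lit 7339693)) p13_18_2 (nat_lit 3) (nat_lit 134) (nat_lit 135) = true := by decide +kernel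
def p13_18_2_135 : pfC (piC [(nat_lit 38632330), (nat_lit 24534081), (nat_lit 15702173)] (nat_lit 7339693)) p13_18_2 (nat_lit 3) (nat_lit 135) (nat_lit 136) = true := by decide +kernel
def p13_18_2_136 : pfC (piC [(nat_lit 38632330), (nat_lit 24534081), (nat_lit 15702173)] (nat_lit 7339693)) p13_18_2 (nat_lit 3) (nat_lit 136) (nat_lit 137) = true := by decide +kernel
def p13_18_2_137 : pfC (piC [(nat_lit 38632330), (nat_lit 24534081), (nat_lit 15702173)] (nat_lit 7339693)) p13_18_2 (nat_lit 3) (nat_lit 137) (nat_lit 138) = true := by decide +kernel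
def p13_18_2_138 : pfC (piC [(nat_lit 38632330), (nat_lit 24534081), (nat_lit 15702173)] (nat_lit 7339693)) p13_18_2 (nat_lit 3) (nat_lit 138) (nat_lit 139) = true := by decide +kernel
def p13_18_2_139 : pfC (piC [(nat_lit 38632330), (nat_lit 24534081), (nat_lit 15702173)] (nat_lit 7339693)) p13_18_2 (nat_lit 3) (nat_lit 139) (nat_lit 140) = true := by decide +kernel
def p13_18_2_140 : pfC (piC [(nat_lit 38632330), (nat_lit 24534081), (nat_lit 15702173)] (nat_lit 7339693)) p13_18_2 (nat_lit 3) (nat_lit 140) (nat_lit 141) = true := by decide +kernel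
def p13_18_2_141 : pfC (piC [(nat_lit 38632330), (nat_lit 24534081), (nat_lit 15702173)] (nat_lit 7339693)) p13_18_2 (nat_lit 3) (nat_lit 141) (nat_lit 142) = true := by decide +kernel
def p13_18_2_142 : pfC (piC [(nat_lit 38632330), (nat_lit 24534081), (nat_lit 15702173)] (nat_lit 7339693)) p13_18_2 (nat_lit 3) (nat_lit 142) (nat_lit 143) = true := by decide +kernel
def p13_18_2_143 : pfC (piC [(nat_lit 38632330), (nat_lit 24534081), (nat_lit 15702173)] (nat_lit 7339693)) p13_18_2 (nat_lit 3) (nat_lit 143) (nat_lit 144) = true := by decide +kernel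
def p13_18_2_144 : pfC (piC [(nat_lit 38632330), (nat_lit 24534081), (nat_lit 15702173)] (nat_lit 7339693)) p13_18_2 (nat_lit 3) (nat_lit 144) (nat_lit 145) = true := by decide +kernel
def p13_18_2_145 : pfC (piC [(nat_lit 38632330), (nat_lit 24534081), (nat_lit 15702173)] (nat_lit 7339693)) p13_18_2 (nat_lit 3) (nat_lit 145) (nat_lit 146) = true := by decide +kernel
def p13_18_2_146 : pfC (piC [(nat_lit 38632330), (nat_lit 24534081), (nat_lit 15702173)] (nat_lit 7339693)) p13_18_2 (nat_lit 3) (nat_lit 146) (nat_lit 147) = true := by decide +kernel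
def p13_18_2_147 : pfC (piC [(nat_lit 38632330), (nat_lit 24534081), (nat_lit 15702173)] (nat_lit 7339693)) p13_18_2 (nat_lit 3) (nat_lit 147) (nat_lit 148) = true := by decide +kernel
def p13_18_2_148 : pfC (piC [(nat_lit 38632330), (nat_lit 24534081), (nat_lit 15702173)] (nat_lit 7339693)) p13_18_2 (nat_lit 3) (nat_lit 148) (nat_lit 149) = true := by decide +kernel
def p13_18_2_149 : pfC (piC [(nat_lit 38632330), (nat_lit 24534081), (nat_lit 15702173)] (nat_lit 7339693)) p13_18_2 (nat_lit 3) (nat_lit 149) (nat_lit 150) = true := by decide +kernel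
def p13_18_2_150 : pfC (piC [(nat_lit 38632330), (nat_lit 24534081), (nat_lit 15702173)] (nat_lit 7339693)) p13_18_2 (nat_lit 3) (nat_lit 150) (nat_lit 151) = true := by decide +kernel
def p13_18_2_151 : pfC (piC [(nat_lit 38632330), (nat_lit 24534081), (nat_lit 15702173)] (nat_lit 7339693)) p13_18_2 (nat_lit 3) (nat_lit 151) (nat_lit 152) = true := by decide +kernel
def p13_18_2_152 : pfC (piC [(nat_lit 38632330), (nat_lit 24534081), (nat_lit 15702173)] (nat_lit 7339693)) p13_18_2 (nat_lit 3) (nat_lit 152) (nat_lit 153) = true := by decide +kernel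
def p13_18_2_153 : pfC (piC [(nat_lit 38632330), (nat_lit 24534081), (nat_lit 15702173)] (nat_lit 7339693)) p13_18_2 (nat_lit 3) (nat_lit 153) (nat_lit 154) = true := by decide +kernel
def p13_18_2_154 : pfC (piC [(nat_lit 38632330), (nat_lit 24534081), (nat_lit 15702173)] (nat_lit 7339693)) p13_18_2 (nat_lit 3) (nat_lit 154) (nat_lit 155) = true := by decide +kernel
def p13_18_2_155 : pfC (piC [(nat_lit 38632330), (nat_lit 24534081), (nat_lit 15702173)] (nat_lit 7339693)) p13_18_2 (nat_lit 3) (nat_lit 155) (nat_lit 156) = true := by decide +kernel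
def p13_18_2_156 : pfC (piC [(nat_lit 38632330), (nat_lit 24534081), (nat_lit 15702173)] (nat_lit 7339693)) p13_18_2 (nat_lit 3) (nat_lit 156) (nat_lit 157) = true := by decide +kernel
def p13_18_2_157 : pfC (piC [(nat_lit 38632330), (nat_lit 24534081), (nat_lit 15702173)] (nat_lit 7339693)) p13_18_2 (nat_lit 3) (nat_lit 157) (nat_lit 158) = true := by decide +kernel
def p13_18_2_158 : pfC (piC [(nat_lit 38632330), (nat_lit 24534081), (nat_lit 15702173)] (nat_lit 7339693)) p13_18_2 (nat_lit 3) (nat_lit 158) (nat_lit 159) = true := by decide +kernel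
def p13_18_2_159 : pfC (piC [(nat_lit 38632330), (nat_lit 24534081), (nat_lit 15702173)] (nat_lit 7339693)) p13_18_2 (nat_lit 3) (nat_lit 159) (nat_lit 160) = true := by decide +kernel
def p13_18_2_160 : pfC (piC [(nat_lit 38632330), (nat_lit 24534081), (nat_lit 15702173)] (nat_lit 7339693)) p13_18_2 (nat_lit 3) (nat_lit 160) (nat_lit 161) = true := by decide +kernel
def p13_18_2_161 : pfC (piC [(nat_lit 38632330), (nat_lit 24534081), (nat_lit 15702173)] (nat_lit 7339693)) p13_18_2 (nat_lit 3) (nat_lit 161) (nat_lit 162) = true := by decide +kernel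
def p13_18_2_162 : pfC (piC [(nat_lit 38632330), (nat_lit 24534081), (nat_lit 15702173)] (nat_lit 7339693)) p13_18_2 (nat_lit 3) (nat_lit 162) (nat_lit 163) = true := by decide +kernel
def p13_18_2_163 : pfC (piC [(nat_lit 38632330), (nat_lit 24534081), (nat_lit 15702173)] (nat_lit 7339693)) p13_18_2 (nat_lit 3) (nat_lit 163) (nat_lit 164) = true := by decide +kernel
def p13_18_2_164 : pfC (piC [(nat_lit 38632330), (nat_lit 24534081), (nat_lit 15702173)] (nat_lit 7339693)) p13_18_2 (nat_lit 3) (nat_lit 164) (nat_lit 165) = true := by decide +kernel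
def p13_18_2_165 : pfC (piC [(nat_lit 38632330), (nat_lit 24534081), (nat_lit 15702173)] (nat_lit 7339693)) p13_18_2 (nat_lit 3) (nat_lit 165) (nat_lit 166) = true := by decide +kernel
def p13_18_2_166 : pfC (piC [(nat_lit 38632330), (nat_lit 24534081), (nat_lit 15702173)] (nat_lit 7339693)) p13_18_2 (nat_lit 3) (nat_lit 166) (nat_lit 167) = true := by decide +kernel
def p13_18_2_167 : pfC (piC [(nat_lit 38632330), (nat_lit 24534081), (nat_lit 15702173)] (nat_lit 7339693)) p13_18_2 (nat_lit 3) (nat_lit 167) (nat_lit 168) = true := by decide +kernel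
def p13_18_2_168 : pfC (piC [(nat_lit 38632330), (nat_lit 24534081), (nat_lit 15702173)] (nat_lit 7339693)) p13_18_2 (nat_lit 3) (nat_lit 168) (nat_lit 169) = true := by decide +kernel
def p13_18_2_169 : pfC (piC [(nat_lit 38632330), (nat_lit 24534081), (nat_lit 15702173)] (nat_lit 7339693)) p13_18_2 (nat_lit 3) (nat_lit 169) (nat_lit 170) = true := by decide +kernel
def p13_18_2_170 : pfC (piC [(nat_lit 38632330), (nat_lit 24534081), (nat_lit 15702173)] (nat_lit 7339693)) p13_18_2 (nat_lit 3) (nat_lit 170) (nat_lit 171) = true := by decide +kernel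
def p13_18_2_171 : pfC (piC [(nat_lit 38632330), (nat_lit 24534081), (nat_lit 15702173)] (nat_lit 7339693)) p13_18_2 (nat_lit 3) (nat_lit 171) (nat_lit 172) = true := by decide +kernel
def p13_18_2_172 : pfC (piC [(nat_lit 38632330), (nat_lit 24534081), (nat_lit 15702173)] (nat_lit 7339693)) p13_18_2 (nat_lit 3) (nat_lit 172) (nat_lit 173) = true := by decide +kernel
def p13_18_2_173 : pfC (piC [(nat_lit 38632330), (nat_lit 24534081), (nat_lit 15702173)] (nat_lit 7339693)) p13_18_2 (nat_lit 3) (nat_lit 173) (nat_lit 174) = true := by decide +kernel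
def p13_18_2_174 : pfC (piC [(nat_lit 38632330), (nat_lit 24534081), (nat_lit 15702173)] (nat_lit 7339693)) p13_18_2 (nat_lit 3) (nat_lit 174) (nat_lit 175) = true := by decide +kernel
def p13_18_2_175 : pfC (piC [(nat_lit 38632330), (nat_lit 24534081), (nat_lit 15702173)] (nat_lit 7339693)) p13_18_2 (nat_lit 3) (nat_lit 175) (nat_lit 176) = true := by decide +kernel
def p13_18_2_176 : pfC (piC [(nat_lit 38632330), (nat_lit 24534081), (nat_lit 15702173)] (nat_lit 7339693)) p13_18_2 (nat_lit 3) (nat_lit 176) (nat_lit 177) = true := by decide +kernel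
def p13_18_2_177 : pfC (piC [(nat_lit 38632330), (nat_lit 24534081), (nat_lit 15702173)] (nat_lit 7339693)) p13_18_2 (nat_lit 3) (nat_lit 177) (nat_lit 178) = true := by decide +kernel
def p13_18_2_178 : pfC (piC [(nat_lit 38632330), (nat_lit 24534081), (nat_lit 15702173)] (nat_lit 7339693)) p13_18_2 (nat_lit 3) (nat_lit 178) (nat_lit 179) = true := by decide +kernel
def p13_18_2_179 : pfC (piC [(nat_lit 38632330), (nat_lit 24534081), (nat_lit 15702173)] (nat_lit 7339693)) p13_18_2 (nat_lit 3) (nat_lit 179) (nat_lit 180) = true := by decide +kernel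
def p13_18_2_180 : pfC (piC [(nat_lit 38632330), (nat_lit 24534081), (nat_lit 15702173)] (nat_lit 7339693)) p13_18_2 (nat_lit 3) (nat_lit 180) (nat_lit 181) = true := by decide +kernel
def p13_18_2_181 : pfC (piC [(nat_lit 38632330), (nat_lit 24534081), (nat_lit 15702173)] (nat_lit 7339693)) p13_18_2 (nat_lit 3) (nat_lit 181) (nat_lit 182) = true := by decide +kernel
def p13_18_2_182 : pfC (piC [(nat_lit 38632330), (nat_lit 24534081), (nat_lit 15702173)] (nat_lit 7339693)) p13_18_2 (nat_lit 3) (nat_lit 182) (nat_lit 183) = true := by decide +kernel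
theorem p13_18_2_T : PfS (PiF n13_18.reverse (nat_lit 7339693)) p13_18_2 (nat_lit 3) [] 0 :=
  pftab_of (los := [(nat_lit 38632330), (nat_lit 24534081), (nat_lit 15702173)]) (by decide +kernel) (hi := (nat_lit 183)) (PfP.trans (PfP.trans (PfP.trans (PfP.trans (PfP.trans (PfP.trans (PfP.trans (PfP.trans (PfP.trans (PfP.trans (PfP.trans (PfP.trans (PfP.trans (PfP.trans (PfP.trans (PfP.trans (PfP.trans (PfP.trans (PfP.trans (PfP.trans (PfP.trans (PfP.trans (PfP.trans (PfP.trans (PfP.trans (PfP.trans (PfP.trans (PfP.trans (PfP.trans (PfP.trans (PfP.trans (PfP.trans (PfP.trans (PfP.trans (PfP.trans (PfP.trans (PfP.trans (PfP.trans (PfP.trans (PfP.trans (PfP.trans (PfP.trans (PfP.trans (PfP.trans (PfP.trans (PfP.trans (PfP.trans (PfP.trans (PfP.trans (PfP.trans (PfP.trans (PfP.trans (PfP.trans (PfP.trans (PfP.trans (PfP.trans (PfP.trans (PfP.trans (PfP.trans (PfP.trans (PfP.trans (PfP.trans (PfP.trans (PfP.trans (PfP.trans (PfP.trans (PfP.trans (PfP.trans (PfP.trans (PfP.trans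 (PfP.trans (PfP.trans (PfP.trans (PfP.trans (PfP.trans (PfP.trans (PfP.trans (PfP.trans (PfP.trans (PfP.trans (PfP.trans (PfP.trans (PfP.trans (PfP.trans (PfP.trans (PfP.trans (PfP.trans (PfP.trans (PfP.trans (PfP.trans (PfP.trans (PfP.trans (PfP.trans (PfP.trans (PfP.trans (PfP.trans (PfP.trans (PfP.trans (PfP.trans (PfP.trans (PfP.trans (PfP.trans (PfP.trans (PfP.trans (PfP.trans (PfP.trans (PfP.trans (PfP.trans (PfP.trans
 (PfP.trans (PfP.trans (PfP.trans (PfP.trans (PfP.trans (PfP.trans (PfP.trans (PfP.trans (PfP.trans (PfP.trans (PfP.trans (PfP.trans (PfP.trans (PfP.trans (PfP.trans (PfP.trans (PfP.trans (PfP.trans (PfP.trans (PfP.trans (PfP.trans (PfP.trans (PfP.trans (PfP.trans (PfP.trans (PfP.trans (PfP.trans (PfP.trans (PfP.trans (PfP.trans (PfP.trans (PfP.trans (PfP.trans (PfP.trans (PfP.trans (PfP.trans (PfP.trans (PfP.trans (PfP.trans (PfP.trans (PfP.trans (PfP.trans (PfP.trans (PfP.trans (PfP.trans (PfP.trans (PfP.trans (PfP.trans (PfP.trans (PfP.trans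 (PfP.trans (PfP.trans (PfP.trans (PfP.trans (PfP.trans (PfP.trans (PfP.trans (PfP.trans (PfP.trans (PfP.trans (PfP.trans (PfP.trans (PfP.trans (PfP.trans (PfP.trans (PfP.trans (PfP.trans (PfP.trans (PfP.trans (PfP.trans (PfP.trans (PfP.trans (PfP.trans (pfC_sound p13_18_2_0) (pfC_sound p13_18_2_1)) (pfC_sound p13_18_2_2)) (pfC_sound p13_18_2_3)) (pfC_sound p13_18_2_4)) (pfC_sound p13_18_2_5)) (pfC_sound p13_18_2_6)) (pfC_sound p13_18_2_7)) (pfC_sound p13_18_2_8)) (pfC_sound p13_18_2_9)) (pfC_sound p13_18_2_10)) (pfC_sound p13_18_2_11)) (pfC_sound p13_18_2_12)) (pfC_sound p13_18_2_13)) (pfC_sound p13_18_2_14)) (pfC_sound p13_18_2_15))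
 (pfC_sound p13_18_2_16)) (pfC_sound p13_18_2_17)) (pfC_sound p13_18_2_18)) (pfC_sound p13_18_2_19)) (pfC_sound p13_18_2_20)) (pfC_sound p13_18_2_21)) (pfC_sound p13_18_2_22)) (pfC_sound p13_18_2_23)) (pfC_sound p13_18_2_24)) (pfC_sound p13_18_2_25)) (pfC_sound p13_18_2_26)) (pfC_sound p13_18_2_27)) (pfC_sound p13_18_2_28)) (pfC_sound p13_18_2_29)) (pfC_sound p13_18_2_30)) (pfC_sound p13_18_2_31)) (pfC_sound p13_18_2_32)) (pfC_sound p13_18_2_33)) (pfC_sound p13_18_2_34)) (pfC_sound p13_18_2_35)) (pfC_sound p13_18_2_36)) (pfC_sound p13_18_2_37)) (pfC_sound p13_18_2_38)) (pfC_sound p13_18_2_39)) (pfC_sound p13_18_2_40)) (pfC_sound p13_18_2_41)) (pfC_sound p13_18_2_42)) (pfC_sound p13_18_2_43)) (pfC_sound p13_18_2_44)) (pfC_sound p13_18_2_45)) (pfC_sound p13_18_2_46)) (pfC_sound p13_18_2_47)) (pfC_sound p13_18_2_48)) (pfC_sound p13_18_2_49)) (pfC_sound p13_18_2_50)) (pfC_sound p13_18_2_51)) (pfC_sound p13_18_2_52)) (pfC_sound p13_18_2_53)) (pfC_sound p13_18_2_54)) (pfC_sound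 p13_18_2_55)) (pfC_sound p13_18_2_56)) (pfC_sound p13_18_2_57)) (pfC_sound p13_18_2_58)) (pfC_sound p13_18_2_59)) (pfC_sound p13_18_2_60)) (pfC_sound p13_18_2_61)) (pfC_sound p13_18_2_62)) (pfC_sound p13_18_2_63))
 (pfC_sound p13_18_2_64)) (pfC_sound p13_18_2_65)) (pfC_sound p13_18_2_66)) (pfC_sound p13_18_2_67)) (pfC_sound p13_18_2_68)) (pfC_sound p13_18_2_69)) (pfC_sound p13_18_2_70)) (pfC_sound p13_18_2_71)) (pfC_sound p13_18_2_72)) (pfC_sound p13_18_2_73)) (pfC_sound p13_18_2_74)) (pfC_sound p13_18_2_75)) (pfC_sound p13_18_2_76)) (pfC_sound p13_18_2_77)) (pfC_sound p13_18_2_78)) (pfC_sound p13_18_2_79)) (pfC_sound p13_18_2_80)) (pfC_sound p13_18_2_81)) (pfC_sound p13_18_2_82)) (pfC_sound p13_18_2_83)) (pfC_sound p13_18_2_84)) (pfC_sound p13_18_2_85)) (pfC_sound p13_18_2_86)) (pfC_sound p13_18_2_87)) (pfC_sound p13_18_2_88)) (pfC_sound p13_18_2_89)) (pfC_sound p13_18_2_90)) (pfC_sound p13_18_2_91)) (pfC_sound p13_18_2_92)) (pfC_sound p13_18_2_93)) (pfC_sound p13_18_2_94))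 (pfC_sound p13_18_2_95)) (pfC_sound p13_18_2_96)) (pfC_sound p13_18_2_97)) (pfC_sound p13_18_2_98)) (pfC_sound p13_18_2_99)) (pfC_sound p13_18_2_100)) (pfC_sound p13_18_2_101)) (pfC_sound p13_18_2_102)) (pfC_sound p13_18_2_103)) (pfC_sound p13_18_2_104)) (pfC_sound p13_18_2_105)) (pfC_sound p13_18_2_106)) (pfC_sound p13_18_2_107)) (pfC_sound p13_18_2_108)) (pfC_sound p13_18_2_109)) (pfC_sound p13_18_2_110)) (pfC_sound
 p13_18_2_111)) (pfC_sound p13_18_2_112)) (pfC_sound p13_18_2_113)) (pfC_sound p13_18_2_114)) (pfC_sound p13_18_2_115)) (pfC_sound p13_18_2_116)) (pfC_sound p13_18_2_117)) (pfC_sound p13_18_2_118)) (pfC_sound p13_18_2_119)) (pfC_sound p13_18_2_120)) (pfC_sound p13_18_2_121)) (pfC_sound p13_18_2_122)) (pfC_sound p13_18_2_123)) (pfC_sound p13_18_2_124)) (pfC_sound p13_18_2_125)) (pfC_sound p13_18_2_126)) (pfC_sound p13_18_2_127)) (pfC_sound p13_18_2_128)) (pfC_sound p13_18_2_129)) (pfC_sound p13_18_2_130)) (pfC_sound p13_18_2_131)) (pfC_sound p13_18_2_132))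 (pfC_sound p13_18_2_133)) (pfC_sound p13_18_2_134)) (pfC_sound p13_18_2_135)) (pfC_sound p13_18_2_136)) (pfC_sound p13_18_2_137)) (pfC_sound p13_18_2_138)) (pfC_sound p13_18_2_139)) (pfC_sound p13_18_2_140)) (pfC_sound p13_18_2_141)) (pfC_sound p13_18_2_142)) (pfC_sound p13_18_2_143)) (pfC_sound p13_18_2_144)) (pfC_sound p13_18_2_145)) (pfC_sound p13_18_2_146)) (pfC_sound p13_18_2_147)) (pfC_sound p13_18_2_148)) (pfC_sound p13_18_2_149)) (pfC_sound p13_18_2_150)) (pfC_sound p13_18_2_151)) (pfC_sound p13_18_2_152)) (pfC_sound p13_18_2_153)) (pfC_sound p13_18_2_154)) (pfC_sound p13_18_2_155)) (pfC_sound p13_18_2_156)) (pfC_sound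
 p13_18_2_157)) (pfC_sound p13_18_2_158)) (pfC_sound p13_18_2_159)) (pfC_sound p13_18_2_160)) (pfC_sound p13_18_2_161)) (pfC_sound p13_18_2_162)) (pfC_sound p13_18_2_163)) (pfC_sound p13_18_2_164)) (pfC_sound p13_18_2_165)) (pfC_sound p13_18_2_166)) (pfC_sound p13_18_2_167)) (pfC_sound p13_18_2_168)) (pfC_sound p13_18_2_169)) (pfC_sound p13_18_2_170)) (pfC_sound p13_18_2_171)) (pfC_sound p13_18_2_172)) (pfC_sound p13_18_2_173)) (pfC_sound p13_18_2_174)) (pfC_sound p13_18_2_175)) (pfC_sound p13_18_2_176)) (pfC_sound p13_18_2_177)) (pfC_sound p13_18_2_178)) (pfC_sound p13_18_2_179)) (pfC_sound p13_18_2_180)) (pfC_sound p13_18_2_181)) (pfC_sound p13_18_2_182)) (by decide +kernel)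

def z13_18_2 : zOK yB13_18 (nat_lit 2) (nat_lit 600) (nat_lit 743) (nat_lit 7339693) (nat_lit 6292340) = true := by decide +kernel
def g13_18_2 : gOK yB13_18.x P13_18 (nat_lit 1388) (q13_18 :: r13_18) (nat_lit 2) (nat_lit 600) (nat_lit 3) (nat_lit 743) (nat_lit 12712500) (nat_lit 12712500) (nat_lit 12712500) (nat_lit 12712500) [(nat_lit 800)] = true := by decide +kernel
def v13_18_2 : ivC P13_18 s13_18 w13_18 n13_18 (nat_lit 3) (nat_lit 4700) (nat_lit 2) (nat_lit 600) f176_0_600 f184_0_600 (nat_lit 3) (nat_lit 743) f176_0_743 f184_0_743 (nat_lit 7339693) (nat_lit 6292340) p13_18_2 = true := by decide +kernel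
end CB
end Pool.Agent.Lib.MP_6947cd_al
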