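import Pool.Agent.Lib.MP_6947cd_al.L.BoxDataB
import Pool.Agent.Lib.MP_6947cd_al.L.TeD1
import Pool.Agent.Lib.MP_6947cd_al.L.TeD2

/-!
Problem MP_6947cd_al (Chollet).  CASE B, rows `j`: boxes (generated).
-/

set_option autoImplicit false
set_option linter.defProp false
set_option maxRecDepth 20000

namespace Pool.Agent.Lib.MP_6947cd_al
namespace CB

open Ent Ent.Pk Fr Fr.WT CA

/-! box `yB13_19` -/

def P13_19 : BQ := ⟨(nat_lit 8), (nat_lit 8), (nat_lit 0), (nat_lit 4), (nat_lit 4), (nat_lit 920), (nat_lit 940), (nat_lit 90), [(nat_lit 180), (nat_lit 330), (nat_lit 650)], (nat_lit 143504000), (nat_lit 16000000), (nat_lit 16000000000)⟩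
def q13_19 : PC := ⟨(nat_lit 1000), [(nat_lit 90000), (nat_lit 180000), (nat_lit 330000), (nat_lit 650000)], (nat_lit 79228162532711081671548469249000000), (nat_lit 15856496000000), (nat_lit 15856496000000), (nat_lit 10000000)⟩
def r13_19 : List PC := [⟨(nat_lit 1355), [(nat_lit 90553), (nat_lit 180726), (nat_lit 331017), (nat_lit 651435)], (nat_lit 79631433880013519996487241120565943), (nat_lit 16370449313600), (nat_lit 16382221454400), (nat_lit 10061445)⟩]
def s13_19 : List PB := [⟨(nat_lit 27100), (nat_lit 1448848000000), [(nat_lit 180726), (nat_lit 331017), (nat_lit 651435)], (nat_lit 79631433880013519996487241120565943), (nat_lit 1142270356156224), (nat_lit 1142282128297024), (nat_lit 56800)⟩]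
def n13_19 : List KN := [⟨(nat_lit 650), (nat_lit 330), (nat_lit 15232604), (nat_lit 7830720)⟩, ⟨(nat_lit 330), (nat_lit 180), (nat_lit 23751559), (nat_lit 15232604)⟩, ⟨(nat_lit 180), (nat_lit 90), (nat_lit 37297016), (nat_lit 23751559)⟩]
def w13_19 : List ℕ := [(nat_lit 56800)]
def par13_19 : parC yB13_19 P13_19 s13_19 r13_19 q13_19 n13_19 w13_19 = true := by decide +kernel

def p13_19_0 : PF := (PF.cons (PF.cons (PF.cons (PF.leaf (nat_lit 869863) (nat_lit 2812697) (nat_lit 64296115) (nat_lit 2812697) [(nat_lit 0), (nat_lit 0), (nat_lit 0)]) (PF.cons (PF.leaf (nat_lit 1055922) (nat_lit 306909) (nat_lit 63914745) (nat_lit 2887157) [(nat_lit 306909), (nat_lit 0), (nat_lit 0)]) (PF.cons (PF.leaf (nat_lit 1280169) (nat_lit 339378) (nat_lit 63461891) (nat_lit 2968165) [(nat_lit 339378), (nat_lit 0), (nat_lit 0)]) (PF.cons (PF.leaf (nat_lit 1536809) (nat_lit 369632) (nat_lit 62947946) (nat_lit 3051967) [(nat_lit 369632), (nat_lit 0), (nat_lit 0)]) (PF.cons (PF.leaf (nat_lit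 1822471) (nat_lit 398052) (nat_lit 62380562) (nat_lit 3136040) [(nat_lit 398052), (nat_lit 0), (nat_lit 0)]) (PF.cons (PF.leaf (nat_lit 2134350) (nat_lit 424830) (nat_lit 61766027) (nat_lit 3218631) [(nat_lit 424830), (nat_lit 0), (nat_lit 0)]) (PF.cons (PF.leaf (nat_lit 2469932) (nat_lit 450075) (nat_lit 61109861) (nat_lit 3298499) [(nat_lit 450075), (nat_lit 0), (nat_lit 0)]) (PF.cons (PF.leaf (nat_lit 2826864) (nat_lit 473849) (nat_lit 60417099) (nat_lit 3374769) [(nat_lit 473849), (nat_lit 0), (nat_lit 0)]) (PF.cons (PF.leaf (nat_lit 3202909) (nat_lit 496195) (nat_lit 59692418) (nat_lit 3446834)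
 [(nat_lit 496195), (nat_lit 0), (nat_lit 0)]) (PF.cons (PF.leaf (nat_lit 3595911) (nat_lit 517147) (nat_lit 58940209) (nat_lit 3514280) [(nat_lit 517147), (nat_lit 0), (nat_lit 0)]) (PF.cons (PF.leaf (nat_lit 4003862) (nat_lit 536736) (nat_lit 58164603) (nat_lit 3576849) [(nat_lit 536736), (nat_lit 0), (nat_lit 0)]) (PF.cons (PF.leaf (nat_lit 4424787) (nat_lit 554993) (nat_lit 57369484) (nat_lit 3634397) [(nat_lit 554993), (nat_lit 0), (nat_lit 0)]) (PF.cons (PF.leaf (nat_lit 4856864) (nat_lit 571953) (nat_lit 56558495) (nat_lit 3686873) [(nat_lit 571953), (nat_lit 0), (nat_lit 0)]) (PF.cons (PF.leaf (nat_lit 5298352) (nat_lit 587652) (nat_lit 55735035) (nat_lit 3734298) [(nat_lit 587652), (nat_lit 0), (nat_lit 0)]) (PF.cons (PF.leaf (nat_lit 5747595) (nat_lit 602128) (nat_lit 54902262) (nat_lit 3776746) [(nat_lit 602128), (nat_lit 0), (nat_lit 0)]) (PF.cons (PF.leaf (nat_lit 6203044) (nat_lit 615425) (nat_lit 54063091) (nat_lit 3814337) [(nat_lit 615425), (nat_lit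 0), (nat_lit 0)]) (PF.cons PF.nil (PF.cons PF.nil (PF.cons PF.nil (PF.cons PF.nil PF.nil)))))))))))))))))))) (PF.cons (PF.cons (PF.leaf (nat_lit 1615991) (nat_lit 1747408) (nat_lit 62233807) (nat_lit 3127596) [(nat_lit
 0), (nat_lit 1747408), (nat_lit 0)]) (PF.cons (PF.leaf (nat_lit 1873304) (nat_lit 397837) (nat_lit 61706746) (nat_lit 3198785) [(nat_lit 397837), (nat_lit 1805444), (nat_lit 0)]) (PF.cons (PF.leaf (nat_lit 2161071) (nat_lit 424780) (nat_lit 61124886) (nat_lit 3270823) [(nat_lit 424780), (nat_lit 1863543), (nat_lit 0)]) (PF.cons (PF.leaf (nat_lit 2474900) (nat_lit 449953) (nat_lit 60496667) (nat_lit 3341850) [(nat_lit 449953), (nat_lit 1920435), (nat_lit 0)]) (PF.cons (PF.leaf (nat_lit 2811775) (nat_lit 473533) (nat_lit 59828763) (nat_lit 3410603) [(nat_lit 473533), (nat_lit 1975312), (nat_lit 0)]) (PF.cons (PF.leaf (nat_lit 3169079) (nat_lit 495625) (nat_lit 59126831) (nat_lit 3476207) [(nat_lit 495625), (nat_lit 2027644), (nat_lit 0)]) (PF.cons (PF.leaf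 (nat_lit 3544433) (nat_lit 516299) (nat_lit 58395869) (nat_lit 3538062) [(nat_lit 516299), (nat_lit 2077086), (nat_lit 0)]) (PF.cons (PF.leaf (nat_lit 3935680) (nat_lit 535605) (nat_lit 57640390) (nat_lit 3595767) [(nat_lit 535605), (nat_lit 2123419), (nat_lit 0)]) (PF.cons (PF.leaf (nat_lit 4340765) (nat_lit 553587) (nat_lit 56864527) (nat_lit 3649069) [(nat_lit 553587), (nat_lit 2166516), (nat_lit 0)]) (PF.cons (PF.leaf (nat_lit
 4757790) (nat_lit 570286) (nat_lit 56072077) (nat_lit 3697831) [(nat_lit 570286), (nat_lit 2206321), (nat_lit 0)]) (PF.cons (PF.leaf (nat_lit 5184978) (nat_lit 585744) (nat_lit 55266540) (nat_lit 3742002) [(nat_lit 585744), (nat_lit 2242826), (nat_lit 0)]) (PF.cons (PF.leaf (nat_lit 5620639) (nat_lit 600000) (nat_lit 54451136) (nat_lit 3781599) [(nat_lit 600000), (nat_lit 2276066), (nat_lit 0)]) (PF.cons (PF.leaf (nat_lit 6063226) (nat_lit 613099) (nat_lit 53628819) (nat_lit 3816693) [(nat_lit 613099), (nat_lit 2306103), (nat_lit 0)]) (PF.cons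 (PF.leaf (nat_lit 6511313) (nat_lit 625084) (nat_lit 52802287) (nat_lit 3847394) [(nat_lit 625084), (nat_lit 2333026), (nat_lit 0)]) (PF.cons (PF.leaf (nat_lit 6963540) (nat_lit 636002) (nat_lit 51973997) (nat_lit 3873844) [(nat_lit 636002), (nat_lit 2356939), (nat_lit 0)]) (PF.cons PF.nil (PF.cons PF.nil (PF.cons PF.nil PF.nil)))))))))))))))))) (PF.cons (PF.cons (PF.leaf (nat_lit 2503575) (nat_lit 1949076) (nat_lit 59823505) (nat_lit 3387154) [(nat_lit 0), (nat_lit 1949076), (nat_lit 0)]) (PF.cons (PF.leaf (nat_lit 2815125) (nat_lit 471437) (nat_lit 59193179) (nat_lit 3447528) [(nat_lit 471437), (nat_lit 1998333), (nat_lit 0)]) (PF.cons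
 (PF.leaf (nat_lit 3150333) (nat_lit 493655) (nat_lit 58523229) (nat_lit 3506138) [(nat_lit 493655), (nat_lit 2046067), (nat_lit 0)]) (PF.cons (PF.leaf (nat_lit 3505613) (nat_lit 514317) (nat_lit 57820463) (nat_lit 3562064) [(nat_lit 514317), (nat_lit 2091666), (nat_lit 0)]) (PF.cons (PF.leaf (nat_lit 3878357) (nat_lit 533536) (nat_lit 57090491) (nat_lit 3614689) [(nat_lit 533536), (nat_lit 2134743), (nat_lit 0)]) (PF.cons (PF.leaf (nat_lit 4266235) (nat_lit 551393) (nat_lit 56338131) (nat_lit 3663608) [(nat_lit 551393), (nat_lit 2175053), (nat_lit 0)]) (PF.cons (PF.leaf (nat_lit 4667156) (nat_lit 567949) (nat_lit 55567633) (nat_lit 3708571) [(nat_lit 567949), (nat_lit 2212455), (nat_lit 0)]) (PF.cons (PF.leaf (nat_lit 5079215) (nat_lit 583259) (nat_lit 54782797) (nat_lit 3749437) [(nat_lit 583259), (nat_lit 2246880), (nat_lit 0)]) (PF.cons (PF.leaf (nat_lit 5500645) (nat_lit 597372) (nat_lit 53987047) (nat_lit 3786157) [(nat_lit 597372), (nat_lit 2278314), (nat_lit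 0)]) (PF.cons (PF.leaf (nat_lit 5929862) (nat_lit 610336) (nat_lit 53183478) (nat_lit 3818744) [(nat_lit 610336), (nat_lit 2306782), (nat_lit 0)]) (PF.cons (PF.leaf (nat_lit 6365311) (nat_lit 622198) (nat_lit 52374888)
 (nat_lit 3847261) [(nat_lit 622198), (nat_lit 2332340), (nat_lit 0)]) (PF.cons (PF.leaf (nat_lit 6805687) (nat_lit 633006) (nat_lit 51563801) (nat_lit 3871811) [(nat_lit 633006), (nat_lit 2355066), (nat_lit 0)]) (PF.cons (PF.leaf (nat_lit 7249675) (nat_lit 642806) (nat_lit 50752493) (nat_lit 3892523) [(nat_lit 642806), (nat_lit 2375057), (nat_lit 0)]) (PF.cons PF.nil (PF.cons PF.nil (PF.cons PF.nil PF.nil)))))))))))))))) (PF.cons (PF.cons (PF.leaf (nat_lit 3486593) (nat_lit 2107026) (nat_lit 57200819) (nat_lit 3586913) [(nat_lit 0), (nat_lit 2107026), (nat_lit 0)]) (PF.cons (PF.leaf (nat_lit 3837014) (nat_lit 530152) (nat_lit 56505212) (nat_lit 3634020) [(nat_lit 530152), (nat_lit 2146475), (nat_lit 0)]) (PF.cons (PF.leaf (nat_lit 4205160) (nat_lit 548135)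 (nat_lit 55782966) (nat_lit 3678281) [(nat_lit 548135), (nat_lit 2183764), (nat_lit 0)]) (PF.cons (PF.leaf (nat_lit 4588102) (nat_lit 564734) (nat_lit 55039493) (nat_lit 3719270) [(nat_lit 564734), (nat_lit 2218615), (nat_lit 0)]) (PF.cons (PF.leaf (nat_lit 4983612) (nat_lit 580037) (nat_lit 54279338) (nat_lit 3756724) [(nat_lit 580037), (nat_lit 2250866), (nat_lit 0)]) (PF.cons (PF.leaf (nat_lit 5389722) (nat_lit 594117)
 (nat_lit 53506418) (nat_lit 3790501) [(nat_lit 594117), (nat_lit 2280435), (nat_lit 0)]) (PF.cons (PF.leaf (nat_lit 5804646) (nat_lit 607034) (nat_lit 52724167) (nat_lit 3820543) [(nat_lit 607034), (nat_lit 2307298), (nat_lit 0)]) (PF.cons (PF.leaf (nat_lit 6226803) (nat_lit 618845) (nat_lit 51935622) (nat_lit 3846857) [(nat_lit 618845), (nat_lit 2331472), (nat_lit 0)]) (PF.cons (PF.leaf (nat_lit 6654712) (nat_lit 629602) (nat_lit 51143479) (nat_lit 3869501) [(nat_lit 629602), (nat_lit 2353004), (nat_lit 0)]) (PF.cons (PF.leaf (nat_lit 7087073) (nat_lit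 639357) (nat_lit 50350137) (nat_lit 3888566) [(nat_lit 639357), (nat_lit 2371965), (nat_lit 0)]) (PF.cons (PF.leaf (nat_lit 7522669) (nat_lit 648158) (nat_lit 49557729) (nat_lit 3904171) [(nat_lit 648158), (nat_lit 2388442), (nat_lit 0)]) (PF.cons PF.nil (PF.cons PF.nil (PF.cons PF.nil PF.nil)))))))))))))) (PF.cons (PF.cons (PF.leaf (nat_lit 4525916) (nat_lit 2225056) (nat_lit 54478379) (nat_lit 3730209) [(nat_lit 0), (nat_lit 2225056), (nat_lit 0)]) (PF.cons (PF.leaf (nat_lit 4902023) (nat_lit 575810) (nat_lit 53749168) (nat_lit 3764040) [(nat_lit 575810), (nat_lit 2254948), (nat_lit 0)]) (PF.cons (PF.leaf (nat_lit 5290865)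
 (nat_lit 590033) (nat_lit 53003855) (nat_lit 3794742) [(nat_lit 590033), (nat_lit 2282536), (nat_lit 0)]) (PF.cons (PF.leaf (nat_lit 5690047) (nat_lit 603038) (nat_lit 52246648) (nat_lit 3822160) [(nat_lit 603038), (nat_lit 2307722), (nat_lit 0)]) (PF.cons (PF.leaf (nat_lit 6097730) (nat_lit 614902) (nat_lit 51481105) (nat_lit 3846225) [(nat_lit 614902), (nat_lit 2330467), (nat_lit 0)]) (PF.cons (PF.leaf (nat_lit 6512294) (nat_lit 625693) (nat_lit 50710288) (nat_lit 3866939) [(nat_lit 625693), (nat_lit 2350779), (nat_lit 0)]) (PF.cons (PF.leaf (nat_lit 6932286) (nat_lit 635470) (nat_lit 49936856) (nat_lit 3884346) [(nat_lit 635470), (nat_lit 2368697), (nat_lit 0)]) (PF.cons (PF.leaf (nat_lit 7356403) (nat_lit 644288) (nat_lit 49163133) (nat_lit 3898531) [(nat_lit 644288), (nat_lit 2384282), (nat_lit 0)]) (PF.cons (PF.leaf (nat_lit 7783478) (nat_lit 652199) (nat_lit 48391156) (nat_lit 3909599) [(nat_lit 652199), (nat_lit 2397614), (nat_lit 0)]) (PF.cons (PF.leaf (nat_lit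 8212454) (nat_lit 659254) (nat_lit 47622708) (nat_lit 3917678) [(nat_lit 659254), (nat_lit 2408783), (nat_lit 0)]) (PF.cons PF.nil (PF.cons PF.nil PF.nil)))))))))))) (PF.cons (PF.cons (PF.leaf (nat_lit 5590019)
 (nat_lit 2308164) (nat_lit 51744285) (nat_lit 3823702) [(nat_lit 0), (nat_lit 2308164), (nat_lit 0)]) (PF.cons (PF.leaf (nat_lit 5981048) (nat_lit 610176) (nat_lit 51006233) (nat_lit 3845428) [(nat_lit 610176), (nat_lit 2329394), (nat_lit 0)]) (PF.cons (PF.leaf (nat_lit 6380755) (nat_lit 621128) (nat_lit 50260226) (nat_lit 3864158) [(nat_lit 621128), (nat_lit 2348434), (nat_lit 0)]) (PF.cons (PF.leaf (nat_lit 6787203) (nat_lit 631027) (nat_lit 49509458) (nat_lit 3879881) [(nat_lit 631027), (nat_lit 2365278), (nat_lit 0)]) (PF.cons (PF.leaf (nat_lit 7198905) (nat_lit 639941) (nat_lit 48756633) (nat_lit 3892632) [(nat_lit 639941), (nat_lit 2379956), (nat_lit 0)]) (PF.cons (PF.leaf (nat_lit 7614553) (nat_lit 647932) (nat_lit 48004060) (nat_lit 3902484) [(nat_lit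 647932), (nat_lit 2392521), (nat_lit 0)]) (PF.cons (PF.leaf (nat_lit 8032990) (nat_lit 655056) (nat_lit 47253726) (nat_lit 3909532) [(nat_lit 655056), (nat_lit 2403043), (nat_lit 0)]) (PF.cons (PF.leaf (nat_lit 8453200) (nat_lit 661365) (nat_lit 46507348) (nat_lit 3913891) [(nat_lit 661365), (nat_lit 2411603), (nat_lit 0)]) (PF.cons PF.nil (PF.cons PF.nil PF.nil)))))))))) (PF.cons (PF.cons (PF.leaf (nat_lit 6654878) (nat_lit
 2361748) (nat_lit 49063133) (nat_lit 3875190) [(nat_lit 0), (nat_lit 2361748), (nat_lit 0)]) (PF.cons (PF.leaf (nat_lit 7052433) (nat_lit 634971) (nat_lit 48334461) (nat_lit 3886479) [(nat_lit 634971), (nat_lit 2375483), (nat_lit 0)]) (PF.cons (PF.leaf (nat_lit 7455478) (nat_lit 643137) (nat_lit 47603857) (nat_lit 3895102) [(nat_lit 643137), (nat_lit 2387262), (nat_lit 0)]) (PF.cons (PF.leaf (nat_lit 7862436) (nat_lit 650406) (nat_lit 46873693) (nat_lit 3901118) [(nat_lit 650406), (nat_lit 2397130), (nat_lit 0)]) (PF.cons (PF.leaf (nat_lit 8272134)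 (nat_lit 656839) (nat_lit 46145963) (nat_lit 3904614) [(nat_lit 656839), (nat_lit 2405145), (nat_lit 0)]) (PF.cons (PF.leaf (nat_lit 8683541) (nat_lit 662492) (nat_lit 45422359) (nat_lit 3905692) [(nat_lit 662492), (nat_lit 2411382), (nat_lit 0)]) (PF.cons (PF.leaf (nat_lit 9095766) (nat_lit 667416) (nat_lit 44704317) (nat_lit 3904467) [(nat_lit 667416), (nat_lit 2415921), (nat_lit 0)]) (PF.cons PF.nil PF.nil)))))))) (PF.cons (PF.cons (PF.leaf (nat_lit 7703139) (nat_lit 2391046) (nat_lit 46479072) (nat_lit 3892416) [(nat_lit 0), (nat_lit 2391046), (nat_lit 0)]) (PF.cons (PF.leaf (nat_lit 8100941) (nat_lit 651814) (nat_lit 45772382)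
 (nat_lit 3895051) [(nat_lit 651814), (nat_lit 2398509), (nat_lit 0)]) (PF.cons (PF.leaf (nat_lit 8501772) (nat_lit 657649) (nat_lit 45068026) (nat_lit 3895419) [(nat_lit 657649), (nat_lit 2404295), (nat_lit 0)]) (PF.cons (PF.leaf (nat_lit 8904356) (nat_lit 662730) (nat_lit 44367722) (nat_lit 3893614) [(nat_lit 662730), (nat_lit 2408469), (nat_lit 0)]) (PF.cons (PF.leaf (nat_lit 9307808) (nat_lit 667112) (nat_lit 43672904) (nat_lit 3889737) [(nat_lit 667112), (nat_lit 2411103), (nat_lit 0)]) (PF.cons PF.nil PF.nil)))))) (PF.cons (PF.cons (PF.leaf (nat_lit 8722985) (nat_lit 2400825) (nat_lit 44019754) (nat_lit 3882457) [(nat_lit 0), (nat_lit 2400825), (nat_lit 0)]) (PF.cons (PF.leaf (nat_lit 9116496) (nat_lit 662159) (nat_lit 43343152) (nat_lit 3878128) [(nat_lit 662159), (nat_lit 2403171), (nat_lit 0)]) (PF.cons (PF.leaf (nat_lit 9511193) (nat_lit 666073) (nat_lit 42671761) (nat_lit 3871936) [(nat_lit 666073), (nat_lit 2404121), (nat_lit 0)]) (PF.cons PF.nil PF.nil))))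 (PF.cons (PF.cons (PF.leaf (nat_lit 9706923) (nat_lit 2395229) (nat_lit 41700293) (nat_lit 3851449) [(nat_lit 0), (nat_lit 2395229), (nat_lit 0)]) (PF.cons (PF.leaf (nat_lit 10093003) (nat_lit 667276) (nat_lit
 41058468) (nat_lit 3841658) [(nat_lit 667276), (nat_lit 2393489), (nat_lit 0)]) PF.nil)) (PF.cons PF.nil (PF.cons PF.nil (PF.cons PF.nil PF.nil))))))))))))) (PF.cons (PF.cons (PF.cons (PF.leaf (nat_lit 2715037) (nat_lit 3435807) (nat_lit 57225900) (nat_lit 3435807) [(nat_lit 0), (nat_lit 0), (nat_lit 6447104)]) (PF.cons (PF.leaf (nat_lit 2990736) (nat_lit 455303) (nat_lit 56678570) (nat_lit 3483291) [(nat_lit 455303), (nat_lit 0), (nat_lit 6491647)]) (PF.cons (PF.leaf (nat_lit 3293927) (nat_lit 479593) (nat_lit 56083739) (nat_lit 3530453) [(nat_lit 479593), (nat_lit 0), (nat_lit 6535433)]) (PF.cons (PF.leaf (nat_lit 3619690) (nat_lit 501550) (nat_lit 55451025) (nat_lit 3576074) [(nat_lit 501550), (nat_lit 0), (nat_lit 6577061)]) (PF.cons (PF.leaf (nat_lit 3964647)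 (nat_lit 521548) (nat_lit 54787688) (nat_lit 3619363) [(nat_lit 521548), (nat_lit 0), (nat_lit 6615567)]) (PF.cons (PF.leaf (nat_lit 4326046) (nat_lit 539832) (nat_lit 54099563) (nat_lit 3659799) [(nat_lit 539832), (nat_lit 0), (nat_lit 6650287)]) (PF.cons (PF.leaf (nat_lit 4701539) (nat_lit 556575) (nat_lit 53391535) (nat_lit 3697052) [(nat_lit 556575), (nat_lit 0), (nat_lit 6680774)]) (PF.cons (PF.leaf (nat_lit
 5089059) (nat_lit 571907) (nat_lit 52667792) (nat_lit 3730921) [(nat_lit 571907), (nat_lit 0), (nat_lit 6706748)]) (PF.cons (PF.leaf (nat_lit 5486750) (nat_lit 585932) (nat_lit 51931993) (nat_lit 3761304) [(nat_lit 585932), (nat_lit 0), (nat_lit 6728056)]) (PF.cons (PF.leaf (nat_lit 5892919) (nat_lit 598737) (nat_lit 51187361) (nat_lit 3788169) [(nat_lit 598737), (nat_lit 0), (nat_lit 6744644)]) (PF.cons (PF.leaf (nat_lit 6306084) (nat_lit 610398) (nat_lit 50436750) (nat_lit 3811540) [(nat_lit 610398), (nat_lit 0), (nat_lit 6756535)]) (PF.cons (PF.leaf (nat_lit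 6724826) (nat_lit 620983) (nat_lit 49682698) (nat_lit 3831482) [(nat_lit 620983), (nat_lit 0), (nat_lit 6763811)]) (PF.cons (PF.leaf (nat_lit 7147898) (nat_lit 630554) (nat_lit 48927462) (nat_lit 3848089) [(nat_lit 630554), (nat_lit 0), (nat_lit 6766601)]) (PF.cons (PF.leaf (nat_lit 7574175) (nat_lit 639170) (nat_lit 48173044) (nat_lit 3861477) [(nat_lit 639170), (nat_lit 0), (nat_lit 6765068)]) (PF.cons (PF.leaf (nat_lit 8002587) (nat_lit 646886) (nat_lit 47421219) (nat_lit 3871780) [(nat_lit 646886), (nat_lit 0), (nat_lit 6759400)]) (PF.cons PF.nil (PF.cons PF.nil (PF.cons PF.nil PF.nil)))))))))))))))))) (PF.cons (PF.cons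
 (PF.leaf (nat_lit 3616279) (nat_lit 2104993) (nat_lit 54809700) (nat_lit 3596837) [(nat_lit 0), (nat_lit 2104993), (nat_lit 6597281)]) (PF.cons (PF.leaf (nat_lit 3935257) (nat_lit 515215) (nat_lit 54189410) (nat_lit 3634796) [(nat_lit 515215), (nat_lit 2139917), (nat_lit 6629472)]) (PF.cons (PF.leaf (nat_lit 4274506) (nat_lit 534185) (nat_lit 53537610) (nat_lit 3670853) [(nat_lit 534185), (nat_lit 2173122), (nat_lit 6658856)]) (PF.cons (PF.leaf (nat_lit 4630359) (nat_lit 551385) (nat_lit 52861180) (nat_lit 3704446) [(nat_lit 551385), (nat_lit 2204244), (nat_lit 6684785)]) (PF.cons (PF.leaf (nat_lit 5000187) (nat_lit 567031) (nat_lit 52165543) (nat_lit 3735224) [(nat_lit 567031), (nat_lit 2233076), (nat_lit 6706842)]) (PF.cons (PF.leaf (nat_lit 5381756) (nat_lit 581277) (nat_lit 51455161) (nat_lit 3762977) [(nat_lit 581277), (nat_lit 2259511), (nat_lit 6724774)]) (PF.cons (PF.leaf (nat_lit 5773176) (nat_lit 594242) (nat_lit 50733804) (nat_lit 3787596) [(nat_lit 594242),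 (nat_lit 2283510), (nat_lit 6738449)]) (PF.cons (PF.leaf (nat_lit 6172693) (nat_lit 606021) (nat_lit 50004709) (nat_lit 3809043) [(nat_lit 606021), (nat_lit 2305077), (nat_lit 6747829)]) (PF.cons (PF.leaf (nat_lit
 6578853) (nat_lit 616698) (nat_lit 49270694) (nat_lit 3827335) [(nat_lit 616698), (nat_lit 2324250), (nat_lit 6752947)]) (PF.cons (PF.leaf (nat_lit 6990247) (nat_lit 626343) (nat_lit 48534218) (nat_lit 3842529) [(nat_lit 626343), (nat_lit 2341088), (nat_lit 6753887)]) (PF.cons (PF.leaf (nat_lit 7405658) (nat_lit 635021) (nat_lit 47797441) (nat_lit 3854709) [(nat_lit 635021), (nat_lit 2355667), (nat_lit 6750777)]) (PF.cons (PF.leaf (nat_lit 7823979) (nat_lit 642792) (nat_lit 47062257) (nat_lit 3863983) [(nat_lit 642792), (nat_lit 2368076), (nat_lit 6743772)]) (PF.cons (PF.leaf (nat_lit 8244211) (nat_lit 649712) (nat_lit 46330328) (nat_lit 3870471) [(nat_lit 649712), (nat_lit 2378410), (nat_lit 6733052)]) (PF.cons PF.nil (PF.cons PF.nil (PF.cons PF.nil PF.nil))))))))))))))))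 (PF.cons (PF.cons (PF.leaf (nat_lit 4580880) (nat_lit 2208584) (nat_lit 52291286) (nat_lit 3712278) [(nat_lit 0), (nat_lit 2208584), (nat_lit 6688078)]) (PF.cons (PF.leaf (nat_lit 4929013) (nat_lit 560760) (nat_lit 51631904) (nat_lit 3739687) [(nat_lit 560760), (nat_lit 2235173), (nat_lit 6706113)]) (PF.cons (PF.leaf (nat_lit 5291782) (nat_lit 575511) (nat_lit 50952948) (nat_lit 3764639) [(nat_lit 575511),
 (nat_lit 2259783), (nat_lit 6720635)]) (PF.cons (PF.leaf (nat_lit 5666368) (nat_lit 588841) (nat_lit 50259428) (nat_lit 3786905) [(nat_lit 588841), (nat_lit 2282273), (nat_lit 6731405)]) (PF.cons (PF.leaf (nat_lit 6050708) (nat_lit 600894) (nat_lit 49555397) (nat_lit 3806364) [(nat_lit 600894), (nat_lit 2302582), (nat_lit 6738306)]) (PF.cons (PF.leaf (nat_lit 6443001) (nat_lit 611782) (nat_lit 48844224) (nat_lit 3822971) [(nat_lit 611782), (nat_lit 2320698), (nat_lit 6741308)]) (PF.cons (PF.leaf (nat_lit 6841696) (nat_lit 621595) (nat_lit 48128764) (nat_lit 3836733)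 [(nat_lit 621595), (nat_lit 2336646), (nat_lit 6740448)]) (PF.cons (PF.leaf (nat_lit 7245428) (nat_lit 630411) (nat_lit 47411462) (nat_lit 3847699) [(nat_lit 630411), (nat_lit 2350477), (nat_lit 6735813)]) (PF.cons (PF.leaf (nat_lit 7652987) (nat_lit 638300) (nat_lit 46694428) (nat_lit 3855944) [(nat_lit 638300), (nat_lit 2362256), (nat_lit 6727523)]) (PF.cons (PF.leaf (nat_lit 8063280) (nat_lit 645322) (nat_lit 45979488) (nat_lit 3861565) [(nat_lit 645322), (nat_lit 2372062), (nat_lit 6715730)]) (PF.cons (PF.leaf (nat_lit 8475330) (nat_lit 651534) (nat_lit 45268226) (nat_lit 3864673) [(nat_lit 651534), (nat_lit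
 2379982), (nat_lit 6700599)]) (PF.cons PF.nil (PF.cons PF.nil (PF.cons PF.nil PF.nil)))))))))))))) (PF.cons (PF.cons (PF.leaf (nat_lit 5577605) (nat_lit 2281134) (nat_lit 49755788) (nat_lit 3786211) [(nat_lit 0), (nat_lit 2281134), (nat_lit 6723408)]) (PF.cons (PF.leaf (nat_lit 5943782) (nat_lit 594725) (nat_lit 49082472) (nat_lit 3803565) [(nat_lit 594725), (nat_lit 2300065), (nat_lit 6727854)]) (PF.cons (PF.leaf (nat_lit 6320184) (nat_lit 606016) (nat_lit 48398416) (nat_lit 3818417) [(nat_lit 606016), (nat_lit 2317052), (nat_lit 6728786)]) (PF.cons (PF.leaf (nat_lit 6704627) (nat_lit 616143) (nat_lit 47707281) (nat_lit 3830710) [(nat_lit 616143), (nat_lit 2332069), (nat_lit 6726182)]) (PF.cons (PF.leaf (nat_lit 7095445) (nat_lit 625210) (nat_lit 47012066) (nat_lit 3840442) [(nat_lit 625210), (nat_lit 2345127), (nat_lit 6720081)]) (PF.cons (PF.leaf (nat_lit 7491231) (nat_lit 633304) (nat_lit 46315274) (nat_lit 3847653) [(nat_lit 633304), (nat_lit 2356264), (nat_lit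 6710566)]) (PF.cons (PF.leaf (nat_lit 7890750) (nat_lit 640500) (nat_lit 45619022) (nat_lit 3852410) [(nat_lit 640500), (nat_lit 2365539), (nat_lit 6697757)]) (PF.cons (PF.leaf (nat_lit 8292910) (nat_lit 646863)
 (nat_lit 44925111) (nat_lit 3854798) [(nat_lit 646863), (nat_lit 2373021), (nat_lit 6681795)]) (PF.cons (PF.leaf (nat_lit 8696776) (nat_lit 652451) (nat_lit 44235081) (nat_lit 3854920) [(nat_lit 652451), (nat_lit 2378788), (nat_lit 6662836)]) (PF.cons (PF.leaf (nat_lit 9101457) (nat_lit 657317) (nat_lit 43550250) (nat_lit 3852884) [(nat_lit 657317), (nat_lit 2382922), (nat_lit 6641051)]) (PF.cons PF.nil (PF.cons PF.nil PF.nil)))))))))))) (PF.cons (PF.cons (PF.leaf (nat_lit 6582814) (nat_lit 2327402) (nat_lit 47263805) (nat_lit 3824473) [(nat_lit 0), (nat_lit 2327402), (nat_lit 6710925)]) (PF.cons (PF.leaf (nat_lit 6958460) (nat_lit 619208) (nat_lit 46594676) (nat_lit 3832935) [(nat_lit 619208), (nat_lit 2339639), (nat_lit 6703434)]) (PF.cons (PF.leaf (nat_lit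 7340912) (nat_lit 627645) (nat_lit 45921215) (nat_lit 3839096) [(nat_lit 627645), (nat_lit 2350109), (nat_lit 6692772)]) (PF.cons (PF.leaf (nat_lit 7728429) (nat_lit 635120) (nat_lit 45246081) (nat_lit 3842984) [(nat_lit 635120), (nat_lit 2358841), (nat_lit 6679020)]) (PF.cons (PF.leaf (nat_lit 8119723) (nat_lit 641717) (nat_lit 44571465) (nat_lit 3844657) [(nat_lit 641717), (nat_lit 2365881), (nat_lit 6662294)]) (PF.cons
 (PF.leaf (nat_lit 8513675) (nat_lit 647505) (nat_lit 43899195) (nat_lit 3844194) [(nat_lit 647505), (nat_lit 2371292), (nat_lit 6642728)]) (PF.cons (PF.leaf (nat_lit 8909328) (nat_lit 652547) (nat_lit 43230804) (nat_lit 3841685) [(nat_lit 652547), (nat_lit 2375142), (nat_lit 6620470)]) (PF.cons (PF.leaf (nat_lit 9305821) (nat_lit 656897) (nat_lit 42567588) (nat_lit 3837230) [(nat_lit 656897), (nat_lit 2377508), (nat_lit 6595678)]) (PF.cons PF.nil (PF.cons PF.nil PF.nil)))))))))) (PF.cons (PF.cons (PF.leaf (nat_lit 7579229) (nat_lit 2351967) (nat_lit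 44856374) (nat_lit 3833255) [(nat_lit 0), (nat_lit 2351967), (nat_lit 6659343)]) (PF.cons (PF.leaf (nat_lit 7957879) (nat_lit 635944) (nat_lit 44203935) (nat_lit 3834215) [(nat_lit 635944), (nat_lit 2358554), (nat_lit 6641947)]) (PF.cons (PF.leaf (nat_lit 8340716) (nat_lit 642033) (nat_lit 43551686) (nat_lit 3833176) [(nat_lit 642033), (nat_lit 2363605), (nat_lit 6621856)]) (PF.cons (PF.leaf (nat_lit 8726335) (nat_lit 647328) (nat_lit 42901543) (nat_lit 3830207) [(nat_lit 647328), (nat_lit 2367174), (nat_lit 6599202)]) (PF.cons (PF.leaf (nat_lit 9113753) (nat_lit 651898) (nat_lit 42255081) (nat_lit 3825390) [(nat_lit 651898), (nat_lit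
 2369324), (nat_lit 6574124)]) (PF.cons (PF.leaf (nat_lit 9502088) (nat_lit 655799) (nat_lit 41613606) (nat_lit 3818818) [(nat_lit 655799), (nat_lit 2370123), (nat_lit 6546771)]) (PF.cons PF.nil (PF.cons PF.nil PF.nil)))))))) (PF.cons (PF.cons (PF.leaf (nat_lit 8554762) (nat_lit 2359000) (nat_lit 42559330) (nat_lit 3818399) [(nat_lit 0), (nat_lit 2359000), (nat_lit 6577081)]) (PF.cons (PF.leaf (nat_lit 8931677) (nat_lit 646401) (nat_lit 41931730) (nat_lit 3813240) [(nat_lit 646401), (nat_lit 2360938), (nat_lit 6551809)]) (PF.cons (PF.leaf (nat_lit 9310793) (nat_lit 650569) (nat_lit 41307410) (nat_lit 3806411) [(nat_lit 650569), (nat_lit 2361583), (nat_lit 6524348)]) (PF.cons (PF.leaf (nat_lit 9690981) (nat_lit 654087) (nat_lit 40687730) (nat_lit 3797994) [(nat_lit 654087), (nat_lit 2360997), (nat_lit 6494839)]) (PF.cons (PF.leaf (nat_lit 10071480) (nat_lit 657007) (nat_lit 40073804) (nat_lit 3788079) [(nat_lit 657007), (nat_lit 2359245), (nat_lit 6463426)]) (PF.cons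 PF.nil PF.nil)))))) (PF.cons (PF.cons (PF.leaf (nat_lit 9501395) (nat_lit 2352141) (nat_lit 40387120) (nat_lit 3785077) [(nat_lit 0), (nat_lit 2352141), (nat_lit 6471627)]) (PF.cons (PF.leaf (nat_lit 9873203) (nat_lit
 651813) (nat_lit 39789248) (nat_lit 3775064) [(nat_lit 651813), (nat_lit 2350336), (nat_lit 6440329)]) (PF.cons (PF.leaf (nat_lit 10245725) (nat_lit 654425) (nat_lit 39196677) (nat_lit 3763695) [(nat_lit 654425), (nat_lit 2347467), (nat_lit 6407315)]) (PF.cons PF.nil PF.nil)))) (PF.cons (PF.cons (PF.leaf (nat_lit 10414195) (nat_lit 2334477) (nat_lit 38345984) (nat_lit 3737686) [(nat_lit 0), (nat_lit 2334477), (nat_lit 6349325)]) (PF.cons PF.nil PF.nil)) (PF.cons PF.nil (PF.cons PF.nil PF.nil))))))))))) (PF.cons (PF.cons (PF.cons (PF.leaf (nat_lit 4635221) (nat_lit 3681375) (nat_lit 50174231) (nat_lit 3681375) [(nat_lit 0), (nat_lit 0), (nat_lit 6626602)]) (PF.cons (PF.leaf (nat_lit 4953176) (nat_lit 540128) (nat_lit 49590839) (nat_lit 3703845) [(nat_lit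 540128), (nat_lit 0), (nat_lit 6636999)]) (PF.cons (PF.leaf (nat_lit 5288740) (nat_lit 556412) (nat_lit 48982188) (nat_lit 3724443) [(nat_lit 556412), (nat_lit 0), (nat_lit 6644677)]) (PF.cons (PF.leaf (nat_lit 5638306) (nat_lit 570846) (nat_lit 48354745) (nat_lit 3742850) [(nat_lit 570846), (nat_lit 0), (nat_lit 6649338)]) (PF.cons (PF.leaf (nat_lit 5999316) (nat_lit 583707) (nat_lit 47713466) (nat_lit 3758886) [(nat_lit 583707),
 (nat_lit 0), (nat_lit 6650815)]) (PF.cons (PF.leaf (nat_lit 6369685) (nat_lit 595195) (nat_lit 47062307) (nat_lit 3772460) [(nat_lit 595195), (nat_lit 0), (nat_lit 6649034)]) (PF.cons (PF.leaf (nat_lit 6747654) (nat_lit 605461) (nat_lit 46404516) (nat_lit 3783548) [(nat_lit 605461), (nat_lit 0), (nat_lit 6643989)]) (PF.cons (PF.leaf (nat_lit 7131733) (nat_lit 614625) (nat_lit 45742808) (nat_lit 3792170) [(nat_lit 614625), (nat_lit 0), (nat_lit 6635727)]) (PF.cons (PF.leaf (nat_lit 7520592) (nat_lit 622786) (nat_lit 45079482) (nat_lit 3798378)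 [(nat_lit 622786), (nat_lit 0), (nat_lit 6624331)]) (PF.cons (PF.leaf (nat_lit 7913071) (nat_lit 630027) (nat_lit 44416497) (nat_lit 3802244) [(nat_lit 630027), (nat_lit 0), (nat_lit 6609911)]) (PF.cons (PF.leaf (nat_lit 8308161) (nat_lit 636421) (nat_lit 43755535) (nat_lit 3803859) [(nat_lit 636421), (nat_lit 0), (nat_lit 6592600)]) (PF.cons (PF.leaf (nat_lit 8704931) (nat_lit 642033) (nat_lit 43098038) (nat_lit 3803324) [(nat_lit 642033), (nat_lit 0), (nat_lit 6572542)]) (PF.cons PF.nil (PF.cons PF.nil PF.nil)))))))))))))) (PF.cons (PF.cons (PF.leaf (nat_lit 5565452) (nat_lit 2247504) (nat_lit 47845383) (nat_lit 3740343) [(nat_lit 0),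
 (nat_lit 2247504), (nat_lit 6637791)]) (PF.cons (PF.leaf (nat_lit 5905854) (nat_lit 575715) (nat_lit 47239069) (nat_lit 3754429) [(nat_lit 575715), (nat_lit 2264989), (nat_lit 6637304)]) (PF.cons (PF.leaf (nat_lit 6258621) (nat_lit 587957) (nat_lit 46617995) (nat_lit 3766418) [(nat_lit 587957), (nat_lit 2280706), (nat_lit 6633888)]) (PF.cons (PF.leaf (nat_lit 6621100) (nat_lit 598800) (nat_lit 45986637) (nat_lit 3776206) [(nat_lit 598800), (nat_lit 2294600), (nat_lit 6627483)]) (PF.cons (PF.leaf (nat_lit 6991355) (nat_lit 608418) (nat_lit 45348521) (nat_lit 3783757) [(nat_lit 608418), (nat_lit 2306671), (nat_lit 6618093)]) (PF.cons (PF.leaf (nat_lit 7367779) (nat_lit 616946) (nat_lit 44706507) (nat_lit 3789081) [(nat_lit 616946), (nat_lit 2316947), (nat_lit 6605770)]) (PF.cons (PF.leaf (nat_lit 7749000) (nat_lit 624492) (nat_lit 44062960) (nat_lit 3792222) [(nat_lit 624492), (nat_lit 2325480), (nat_lit 6590598)]) (PF.cons (PF.leaf (nat_lit 8133828) (nat_lit 631143)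 (nat_lit 43419857) (nat_lit 3793245) [(nat_lit 631143), (nat_lit 2332332), (nat_lit 6572686)]) (PF.cons (PF.leaf (nat_lit 8521241) (nat_lit 636976) (nat_lit 42778869) (nat_lit 3792231) [(nat_lit 636976), (nat_lit
 2337577), (nat_lit 6552159)]) (PF.cons (PF.leaf (nat_lit 8910323) (nat_lit 642057) (nat_lit 42141413) (nat_lit 3789271) [(nat_lit 642057), (nat_lit 2341292), (nat_lit 6529157)]) (PF.cons (PF.leaf (nat_lit 9300246) (nat_lit 646444) (nat_lit 41508690) (nat_lit 3784466) [(nat_lit 646444), (nat_lit 2343557), (nat_lit 6503825)]) (PF.cons PF.nil PF.nil)))))))))))) (PF.cons (PF.cons (PF.leaf (nat_lit 6513021) (nat_lit 2288914) (nat_lit 45542685) (nat_lit 3768655) [(nat_lit 0), (nat_lit 2288914), (nat_lit 6609821)]) (PF.cons (PF.leaf (nat_lit 6866458) (nat_lit 601145) (nat_lit 44933227) (nat_lit 3775088) [(nat_lit 601145), (nat_lit 2300258), (nat_lit 6599416)]) (PF.cons (PF.leaf (nat_lit 7228363) (nat_lit 610245) (nat_lit 44316341) (nat_lit 3779508) [(nat_lit 610245),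 (nat_lit 2309966), (nat_lit 6586269)]) (PF.cons (PF.leaf (nat_lit 7596704) (nat_lit 618247) (nat_lit 43695173) (nat_lit 3781918) [(nat_lit 618247), (nat_lit 2318052), (nat_lit 6570437)]) (PF.cons (PF.leaf (nat_lit 7970004) (nat_lit 625272) (nat_lit 43072244) (nat_lit 3782352) [(nat_lit 625272), (nat_lit 2324555), (nat_lit 6552007)]) (PF.cons (PF.leaf (nat_lit 8347016) (nat_lit 631419) (nat_lit 42449615) (nat_lit 3780868)
 [(nat_lit 631419), (nat_lit 2329529), (nat_lit 6531087)]) (PF.cons (PF.leaf (nat_lit 8726673) (nat_lit 636767) (nat_lit 41828991) (nat_lit 3777539) [(nat_lit 636767), (nat_lit 2333037), (nat_lit 6507799)]) (PF.cons (PF.leaf (nat_lit 9108054) (nat_lit 641387) (nat_lit 41211795) (nat_lit 3772449) [(nat_lit 641387), (nat_lit 2335150), (nat_lit 6482276)]) (PF.cons (PF.leaf (nat_lit 9490336) (nat_lit 645338) (nat_lit 40599222) (nat_lit 3765688) [(nat_lit 645338), (nat_lit 2335939), (nat_lit 6454655)]) (PF.cons PF.nil PF.nil)))))))))) (PF.cons (PF.cons (PF.leaf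 (nat_lit 7459851) (nat_lit 2310443) (nat_lit 43307813) (nat_lit 3771285) [(nat_lit 0), (nat_lit 2310443), (nat_lit 6549190)]) (PF.cons (PF.leaf (nat_lit 7819350) (nat_lit 618594) (nat_lit 42708617) (nat_lit 3771133) [(nat_lit 618594), (nat_lit 2316578), (nat_lit 6530366)]) (PF.cons (PF.leaf (nat_lit 8184383) (nat_lit 625196) (nat_lit 42107087) (nat_lit 3769189) [(nat_lit 625196), (nat_lit 2321274), (nat_lit 6509158)]) (PF.cons (PF.leaf (nat_lit 8553359) (nat_lit 630921) (nat_lit 41505448) (nat_lit 3765506) [(nat_lit 630921), (nat_lit 2324578), (nat_lit 6485678)]) (PF.cons (PF.leaf (nat_lit 8925152) (nat_lit 635859) (nat_lit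
 40905498) (nat_lit 3760149) [(nat_lit 635859), (nat_lit 2326545), (nat_lit 6460045)]) (PF.cons (PF.leaf (nat_lit 9298794) (nat_lit 640084) (nat_lit 40308708) (nat_lit 3753194) [(nat_lit 640084), (nat_lit 2327237), (nat_lit 6432386)]) (PF.cons (PF.leaf (nat_lit 9673458) (nat_lit 643660) (nat_lit 39716294) (nat_lit 3744726) [(nat_lit 643660), (nat_lit 2326720), (nat_lit 6402835)]) (PF.cons PF.nil PF.nil)))))))) (PF.cons (PF.cons (PF.leaf (nat_lit 8393173) (nat_lit 2315893) (nat_lit 41166971) (nat_lit 3753107) [(nat_lit 0), (nat_lit 2315893), (nat_lit 6462581)]) (PF.cons (PF.leaf (nat_lit 8753606) (nat_lit 629706) (nat_lit 40586819) (nat_lit 3747506) [(nat_lit 629706), (nat_lit 2317717), (nat_lit 6436954)]) (PF.cons (PF.leaf (nat_lit 9117374) (nat_lit 634307) (nat_lit 40007816) (nat_lit 3740383) [(nat_lit 634307), (nat_lit 2318320), (nat_lit 6409358)]) (PF.cons (PF.leaf (nat_lit 9483201) (nat_lit 638201) (nat_lit 39431535) (nat_lit 3731808) [(nat_lit 638201), (nat_lit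 2317756), (nat_lit 6379917)]) (PF.cons (PF.leaf (nat_lit 9850239) (nat_lit 641458) (nat_lit 38859248) (nat_lit 3721858) [(nat_lit 641458), (nat_lit 2316087), (nat_lit 6348760)]) (PF.cons (PF.leaf (nat_lit 10217718)
 (nat_lit 644135) (nat_lit 38291994) (nat_lit 3710612) [(nat_lit 644135), (nat_lit 2313373), (nat_lit 6316015)]) PF.nil)))))) (PF.cons (PF.cons (PF.leaf (nat_lit 9304268) (nat_lit 2308557) (nat_lit 39135213) (nat_lit 3718528) [(nat_lit 0), (nat_lit 2308557), (nat_lit 6356141)]) (PF.cons (PF.leaf (nat_lit 9661949) (nat_lit 635783) (nat_lit 38579536) (nat_lit 3708555) [(nat_lit 635783), (nat_lit 2306889), (nat_lit 6325244)]) (PF.cons (PF.leaf (nat_lit 10021299) (nat_lit 638777) (nat_lit 38027327) (nat_lit 3697329) [(nat_lit 638777), (nat_lit 2304207), (nat_lit 6292780)]) (PF.cons (PF.leaf (nat_lit 10381324) (nat_lit 641201) (nat_lit 37479692) (nat_lit 3684924) [(nat_lit 641201), (nat_lit 2300568), (nat_lit 6258874)]) PF.nil)))) (PF.cons (PF.cons (PF.leaf (nat_lit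 10187492) (nat_lit 2291229) (nat_lit 37219688) (nat_lit 3671355) [(nat_lit 0), (nat_lit 2291229), (nat_lit 6235195)]) (PF.cons (PF.leaf (nat_lit 10539804) (nat_lit 637873) (nat_lit 36691517) (nat_lit 3657964) [(nat_lit 637873), (nat_lit 2286782), (nat_lit 6200379)]) PF.nil)) (PF.cons PF.nil (PF.cons PF.nil (PF.cons PF.nil PF.nil)))))))))) (PF.cons (PF.cons (PF.cons (PF.leaf (nat_lit 6450749) (nat_lit 3708554) (nat_lit
 43890717) (nat_lit 3708554) [(nat_lit 0), (nat_lit 0), (nat_lit 6503180)]) (PF.cons (PF.leaf (nat_lit 6780788) (nat_lit 580307) (nat_lit 43341947) (nat_lit 3713648) [(nat_lit 580307), (nat_lit 0), (nat_lit 6490969)]) (PF.cons (PF.leaf (nat_lit 7121530) (nat_lit 590599) (nat_lit 42781706) (nat_lit 3716957) [(nat_lit 590599), (nat_lit 0), (nat_lit 6476316)]) (PF.cons (PF.leaf (nat_lit 7470434) (nat_lit 599541) (nat_lit 42213928) (nat_lit 3718457) [(nat_lit 599541), (nat_lit 0), (nat_lit 6459267)]) (PF.cons (PF.leaf (nat_lit 7825724) (nat_lit 607326) (nat_lit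 41641658) (nat_lit 3718161) [(nat_lit 607326), (nat_lit 0), (nat_lit 6439896)]) (PF.cons (PF.leaf (nat_lit 8185934) (nat_lit 614099) (nat_lit 41067320) (nat_lit 3716111) [(nat_lit 614099), (nat_lit 0), (nat_lit 6418294)]) (PF.cons (PF.leaf (nat_lit 8549870) (nat_lit 619975) (nat_lit 40492883) (nat_lit 3712367) [(nat_lit 619975), (nat_lit 0), (nat_lit 6394568)]) (PF.cons (PF.leaf (nat_lit 8916471) (nat_lit 625049) (nat_lit 39919967) (nat_lit 3706999) [(nat_lit 625049), (nat_lit 0), (nat_lit 6368832)]) (PF.cons (PF.leaf (nat_lit 9284834) (nat_lit 629398) (nat_lit 39349915) (nat_lit 3700088) [(nat_lit 629398), (nat_lit 0), (nat_lit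
 6341207)]) (PF.cons (PF.leaf (nat_lit 9654206) (nat_lit 633088) (nat_lit 38783850) (nat_lit 3691717) [(nat_lit 633088), (nat_lit 0), (nat_lit 6311815)]) (PF.cons PF.nil (PF.cons PF.nil PF.nil)))))))))))) (PF.cons (PF.cons (PF.leaf (nat_lit 7348620) (nat_lit 2266631) (nat_lit 41825685) (nat_lit 3707003) [(nat_lit 0), (nat_lit 2266631), (nat_lit 6436497)]) (PF.cons (PF.leaf (nat_lit 7688380) (nat_lit 599484) (nat_lit 41279341) (nat_lit 3706231) [(nat_lit 599484), (nat_lit 2272722), (nat_lit 6417011)]) (PF.cons (PF.leaf (nat_lit 8035344) (nat_lit 606932) (nat_lit 40727622) (nat_lit 3703825) [(nat_lit 606932), (nat_lit 2277428), (nat_lit 6395357)]) (PF.cons (PF.leaf (nat_lit 8387620) (nat_lit 613354) (nat_lit 40173229) (nat_lit 3699821) [(nat_lit 613354), (nat_lit 2280789), (nat_lit 6371637)]) (PF.cons (PF.leaf (nat_lit 8743887) (nat_lit 618877) (nat_lit 39618291) (nat_lit 3694273) [(nat_lit 618877), (nat_lit 2282857), (nat_lit 6345960)]) (PF.cons (PF.leaf (nat_lit 9103017)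 (nat_lit 623604) (nat_lit 39064523) (nat_lit 3687246) [(nat_lit 623604), (nat_lit 2283693), (nat_lit 6318443)]) (PF.cons (PF.leaf (nat_lit 9464082) (nat_lit 627618) (nat_lit 38513319) (nat_lit 3678812) [(nat_lit
 627618), (nat_lit 2283361), (nat_lit 6289202)]) (PF.cons (PF.leaf (nat_lit 9826266) (nat_lit 630989) (nat_lit 37965830) (nat_lit 3669051) [(nat_lit 630989), (nat_lit 2281927), (nat_lit 6258358)]) (PF.cons PF.nil (PF.cons PF.nil PF.nil)))))))))) (PF.cons (PF.cons (PF.leaf (nat_lit 8240685) (nat_lit 2271585) (nat_lit 39836094) (nat_lit 3686861) [(nat_lit 0), (nat_lit 2271585), (nat_lit 6347561)]) (PF.cons (PF.leaf (nat_lit 8584355) (nat_lit 611897) (nat_lit 39302303) (nat_lit 3681162) [(nat_lit 611897), (nat_lit 2273578), (nat_lit 6322097)]) (PF.cons (PF.leaf (nat_lit 8932677) (nat_lit 617147) (nat_lit 38767253) (nat_lit 3674048) [(nat_lit 617147), (nat_lit 2274388), (nat_lit 6294813)]) (PF.cons (PF.leaf (nat_lit 9284175) (nat_lit 621596) (nat_lit 38232822) (nat_lit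 3665582) [(nat_lit 621596), (nat_lit 2274067), (nat_lit 6265828)]) (PF.cons (PF.leaf (nat_lit 9637859) (nat_lit 625335) (nat_lit 37700507) (nat_lit 3655832) [(nat_lit 625335), (nat_lit 2272673), (nat_lit 6235261)]) (PF.cons (PF.leaf (nat_lit 9992856) (nat_lit 628439) (nat_lit 37171517) (nat_lit 3644868) [(nat_lit 628439), (nat_lit 2270266), (nat_lit 6203231)]) (PF.cons PF.nil (PF.cons PF.nil PF.nil)))))))) (PF.cons
 (PF.cons (PF.leaf (nat_lit 9117194) (nat_lit 2264506) (nat_lit 37938970) (nat_lit 3651941) [(nat_lit 0), (nat_lit 2264506), (nat_lit 6241460)]) (PF.cons (PF.leaf (nat_lit 9460602) (nat_lit 619060) (nat_lit 37424097) (nat_lit 3642240) [(nat_lit 619060), (nat_lit 2263168), (nat_lit 6211302)]) (PF.cons (PF.leaf (nat_lit 9806755) (nat_lit 622584) (nat_lit 36910721) (nat_lit 3631360) [(nat_lit 622584), (nat_lit 2260842), (nat_lit 6179677)]) (PF.cons (PF.leaf (nat_lit 10154517) (nat_lit 625474) (nat_lit 36400154) (nat_lit 3619368) [(nat_lit 625474), (nat_lit 2257583),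 (nat_lit 6146705)]) (PF.cons (PF.leaf (nat_lit 10503090) (nat_lit 627797) (nat_lit 35893446) (nat_lit 3606335) [(nat_lit 627797), (nat_lit 2253448), (nat_lit 6112499)]) (PF.cons PF.nil PF.nil)))))) (PF.cons (PF.cons (PF.leaf (nat_lit 9971634) (nat_lit 2248001) (nat_lit 36143110) (nat_lit 3605584) [(nat_lit 0), (nat_lit 2248001), (nat_lit 6122704)]) (PF.cons (PF.leaf (nat_lit 10311797) (nat_lit 622120) (nat_lit 35650915) (nat_lit 3592723) [(nat_lit 622120), (nat_lit 2244000), (nat_lit 6089017)]) (PF.cons (PF.leaf (nat_lit 10653312) (nat_lit 624279) (nat_lit 35162022) (nat_lit 3578905) [(nat_lit 624279), (nat_lit 2239188),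
 (nat_lit 6054190)]) (PF.cons PF.nil PF.nil)))) (PF.cons (PF.cons (PF.leaf (nat_lit 10799863) (nat_lit 2224229) (nat_lit 34451708) (nat_lit 3550617) [(nat_lit 0), (nat_lit 2224229), (nat_lit 5995112)]) (PF.cons PF.nil PF.nil)) (PF.cons PF.nil (PF.cons PF.nil PF.nil)))))))) (PF.cons (PF.cons (PF.cons (PF.leaf (nat_lit 8099897) (nat_lit 3619808) (nat_lit 38559829) (nat_lit 3619808) [(nat_lit 0), (nat_lit 0), (nat_lit 6232293)]) (PF.cons (PF.leaf (nat_lit 8426003) (nat_lit 592660) (nat_lit 38071955) (nat_lit 3614327) [(nat_lit 592660), (nat_lit 0), (nat_lit 6207467)]) (PF.cons (PF.leaf (nat_lit 8758398) (nat_lit 598852) (nat_lit 37579999) (nat_lit 3607504) [(nat_lit 598852), (nat_lit 0), (nat_lit 6180901)]) (PF.cons (PF.leaf (nat_lit 9095297) (nat_lit 604084) (nat_lit 37086288) (nat_lit 3599393) [(nat_lit 604084), (nat_lit 0), (nat_lit 6152719)]) (PF.cons (PF.leaf (nat_lit 9435495) (nat_lit 608490) (nat_lit 36592634) (nat_lit 3590057) [(nat_lit 608490), (nat_lit 0), (nat_lit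 6123039)]) (PF.cons (PF.leaf (nat_lit 9777977) (nat_lit 612171) (nat_lit 36100478) (nat_lit 3579564) [(nat_lit 612171), (nat_lit 0), (nat_lit 6091977)]) (PF.cons (PF.leaf (nat_lit 10121918) (nat_lit 615212)
 (nat_lit 35610982) (nat_lit 3567982) [(nat_lit 615212), (nat_lit 0), (nat_lit 6059643)]) (PF.cons PF.nil (PF.cons PF.nil (PF.cons PF.nil PF.nil)))))))))) (PF.cons (PF.cons (PF.leaf (nat_lit 8941877) (nat_lit 2219935) (nat_lit 36792763) (nat_lit 3585369) [(nat_lit 0), (nat_lit 2219935), (nat_lit 6127686)]) (PF.cons (PF.leaf (nat_lit 9270534) (nat_lit 601443) (nat_lit 36317766) (nat_lit 3576157) [(nat_lit 601443), (nat_lit 2219124), (nat_lit 6098580)]) (PF.cons (PF.leaf (nat_lit 9603199) (nat_lit 605685) (nat_lit 35842072) (nat_lit 3565811) [(nat_lit 605685), (nat_lit 2217326), (nat_lit 6068057)]) (PF.cons (PF.leaf (nat_lit 9938527) (nat_lit 609191) (nat_lit 35367281) (nat_lit 3554396) [(nat_lit 609191), (nat_lit 2214597), (nat_lit 6036240)]) (PF.cons (PF.leaf (nat_lit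 10275584) (nat_lit 612054) (nat_lit 34894655) (nat_lit 3541978) [(nat_lit 612054), (nat_lit 2210993), (nat_lit 6003241)]) (PF.cons (PF.leaf (nat_lit 10613612) (nat_lit 614347) (nat_lit 34425204) (nat_lit 3528624) [(nat_lit 614347), (nat_lit 2206573), (nat_lit 5969167)]) (PF.cons PF.nil (PF.cons PF.nil PF.nil)))))))) (PF.cons (PF.cons (PF.leaf (nat_lit 9767717) (nat_lit 2204732) (nat_lit 35111600) (nat_lit 3540368)
 [(nat_lit 0), (nat_lit 2204732), (nat_lit 6011844)]) (PF.cons (PF.leaf (nat_lit 10095417) (nat_lit 605817) (nat_lit 34654256) (nat_lit 3528180) [(nat_lit 605817), (nat_lit 2201310), (nat_lit 5979484)]) (PF.cons (PF.leaf (nat_lit 10425481) (nat_lit 608552) (nat_lit 34198450) (nat_lit 3515062) [(nat_lit 608552), (nat_lit 2197075), (nat_lit 5946011)]) (PF.cons (PF.leaf (nat_lit 10756814) (nat_lit 610712) (nat_lit 33745290) (nat_lit 3501077) [(nat_lit 610712), (nat_lit 2192081), (nat_lit 5911535)]) (PF.cons PF.nil (PF.cons PF.nil PF.nil)))))) (PF.cons (PF.cons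 (PF.leaf (nat_lit 10572364) (nat_lit 2182499) (nat_lit 33521522) (nat_lit 3487357) [(nat_lit 0), (nat_lit 2182499), (nat_lit 5888109)]) (PF.cons (PF.leaf (nat_lit 10896649) (nat_lit 606792) (nat_lit 33084548) (nat_lit 3472859) [(nat_lit 606792), (nat_lit 2177013), (nat_lit 5853393)]) (PF.cons PF.nil (PF.cons PF.nil PF.nil)))) (PF.cons (PF.cons (PF.leaf (nat_lit 11352660) (nat_lit 2154922) (nat_lit 32023640) (nat_lit 3428463) [(nat_lit 0), (nat_lit 2154922), (nat_lit 5759254)]) (PF.cons PF.nil PF.nil)) (PF.cons PF.nil PF.nil)))))) (PF.cons (PF.cons (PF.cons (PF.leaf (nat_lit 9576992) (nat_lit 3475647) (nat_lit 34120487) (nat_lit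
 3475647) [(nat_lit 0), (nat_lit 0), (nat_lit 5902535)]) (PF.cons (PF.leaf (nat_lit 9891611) (nat_lit 588753) (nat_lit 33697289) (nat_lit 3464275) [(nat_lit 588753), (nat_lit 0), (nat_lit 5871698)]) (PF.cons (PF.leaf (nat_lit 10209804) (nat_lit 592234) (nat_lit 33273672) (nat_lit 3451979) [(nat_lit 592234), (nat_lit 0), (nat_lit 5839738)]) (PF.cons (PF.leaf (nat_lit 10530258) (nat_lit 595037) (nat_lit 32851012) (nat_lit 3438823) [(nat_lit 595037), (nat_lit 0), (nat_lit 5806773)]) (PF.cons (PF.leaf (nat_lit 10852141) (nat_lit 597252) (nat_lit 32430386) (nat_lit 3424871) [(nat_lit 597252), (nat_lit 0), (nat_lit 5772908)]) (PF.cons PF.nil PF.nil)))))) (PF.cons (PF.cons (PF.leaf (nat_lit 10357729) (nat_lit 2140938) (nat_lit 32627720) (nat_lit 3424915) [(nat_lit 0), (nat_lit 2140938), (nat_lit 5783047)]) (PF.cons (PF.leaf (nat_lit 10671034) (nat_lit 591146) (nat_lit 32220473) (nat_lit 3411301) [(nat_lit 591146), (nat_lit 2136161), (nat_lit 5749945)]) (PF.cons (PF.leaf (nat_lit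 10986413) (nat_lit 593297) (nat_lit 31814656) (nat_lit 3396941) [(nat_lit 593297), (nat_lit 2130705), (nat_lit 5715982)]) (PF.cons PF.nil PF.nil)))) (PF.cons (PF.cons (PF.leaf (nat_lit 11118473) (nat_lit 2115264)
 (nat_lit 31215551) (nat_lit 3368560) [(nat_lit 0), (nat_lit 2115264), (nat_lit 5658834)]) (PF.cons (PF.leaf (nat_lit 11428350) (nat_lit 590680) (nat_lit 30826302) (nat_lit 3353238) [(nat_lit 590680), (nat_lit 2108864), (nat_lit 5624172)]) PF.nil)) (PF.cons PF.nil PF.nil)))) (PF.cons (PF.cons (PF.cons (PF.leaf (nat_lit 10897479) (nat_lit 3309560) (nat_lit 30436866) (nat_lit 3309560) [(nat_lit 0), (nat_lit 0), (nat_lit 5560397)]) (PF.cons (PF.leaf (nat_lit 11197585) (nat_lit 575807) (nat_lit 30073016) (nat_lit 3295221) [(nat_lit 575807), (nat_lit 0), (nat_lit 5527461)]) (PF.cons (PF.leaf (nat_lit 11499578) (nat_lit 577518) (nat_lit 29710432) (nat_lit 3280271) [(nat_lit 577518), (nat_lit 0), (nat_lit 5493845)]) (PF.cons PF.nil PF.nil)))) (PF.cons (PF.cons (PF.leaf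 (nat_lit 11619307) (nat_lit 2048279) (nat_lit 29178000) (nat_lit 3251996) [(nat_lit 0), (nat_lit 2048279), (nat_lit 5438422)]) (PF.cons PF.nil PF.nil)) PF.nil)) (PF.cons PF.nil (PF.cons PF.nil (PF.cons PF.nil (PF.cons PF.nil (PF.cons PF.nil PF.nil))))))))))))

def p13_19_0_0 : pfC (piC [(nat_lit 37297016), (nat_lit 23751559), (nat_lit 15232604)] (nat_lit 19805017)) p13_19_0 (nat_lit 3) (nat_lit 0) (nat_lit 1) = true := by decide +kernel
def p13_19_0_1 : pfC (piC [(nat_lit 37297016), (nat_lit 23751559), (nat_lit 15232604)] (nat_lit 19805017)) p13_19_0 (nat_lit 3) (nat_lit 1) (nat_lit 2) = true := by decide +kernel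
def p13_19_0_2 : pfC (piC [(nat_lit 37297016), (nat_lit 23751559), (nat_lit 15232604)] (nat_lit 19805017)) p13_19_0 (nat_lit 3) (nat_lit 2) (nat_lit 3) = true := by decide +kernel
def p13_19_0_3 : pfC (piC [(nat_lit 37297016), (nat_lit 23751559), (nat_lit 15232604)] (nat_lit 19805017)) p13_19_0 (nat_lit 3) (nat_lit 3) (nat_lit 4) = true := by decide +kernel
def p13_19_0_4 : pfC (piC [(nat_lit 37297016), (nat_lit 23751559), (nat_lit 15232604)] (nat_lit 19805017)) p13_19_0 (nat_lit 3) (nat_lit 4) (nat_lit 5) = true := by decide +kernel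
def p13_19_0_5 : pfC (piC [(nat_lit 37297016), (nat_lit 23751559), (nat_lit 15232604)] (nat_lit 19805017)) p13_19_0 (nat_lit 3) (nat_lit 5) (nat_lit 6) = true := by decide +kernel
def p13_19_0_6 : pfC (piC [(nat_lit 37297016), (nat_lit 23751559), (nat_lit 15232604)] (nat_lit 19805017)) p13_19_0 (nat_lit 3) (nat_lit 6) (nat_lit 7) = true := by decide +kernel
def p13_19_0_7 : pfC (piC [(nat_lit 37297016), (nat_lit 23751559), (nat_lit 15232604)] (nat_lit 19805017)) p13_19_0 (nat_lit 3) (nat_lit 7) (nat_lit 8) = true := by decide +kernel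
def p13_19_0_8 : pfC (piC [(nat_lit 37297016), (nat_lit 23751559), (nat_lit 15232604)] (nat_lit 19805017)) p13_19_0 (nat_lit 3) (nat_lit 8) (nat_lit 9) = true := by decide +kernel
def p13_19_0_9 : pfC (piC [(nat_lit 37297016), (nat_lit 23751559), (nat_lit 15232604)] (nat_lit 19805017)) p13_19_0 (nat_lit 3) (nat_lit 9) (nat_lit 10) = true := by decide +kernel
def p13_19_0_10 : pfC (piC [(nat_lit 37297016), (nat_lit 23751559), (nat_lit 15232604)] (nat_lit 19805017)) p13_19_0 (nat_lit 3) (nat_lit 10) (nat_lit 11) = true := by decide +kernel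
def p13_19_0_11 : pfC (piC [(nat_lit 37297016), (nat_lit 23751559), (nat_lit 15232604)] (nat_lit 19805017)) p13_19_0 (nat_lit 3) (nat_lit 11) (nat_lit 12) = true := by decide +kernel
def p13_19_0_12 : pfC (piC [(nat_lit 37297016), (nat_lit 23751559), (nat_lit 15232604)] (nat_lit 19805017)) p13_19_0 (nat_lit 3) (nat_lit 12) (nat_lit 13) = true := by decide +kernel
def p13_19_0_13 : pfC (piC [(nat_lit 37297016), (nat_lit 23751559), (nat_lit 15232604)] (nat_lit 19805017)) p13_19_0 (nat_lit 3) (nat_lit 13) (nat_lit 14) = true := by decide +kernel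
def p13_19_0_14 : pfC (piC [(nat_lit 37297016), (nat_lit 23751559), (nat_lit 15232604)] (nat_lit 19805017)) p13_19_0 (nat_lit 3) (nat_lit 14) (nat_lit 15) = true := by decide +kernel
def p13_19_0_15 : pfC (piC [(nat_lit 37297016), (nat_lit 23751559), (nat_lit 15232604)] (nat_lit 19805017)) p13_19_0 (nat_lit 3) (nat_lit 15) (nat_lit 16) = true := by decide +kernel
def p13_19_0_16 : pfC (piC [(nat_lit 37297016), (nat_lit 23751559), (nat_lit 15232604)] (nat_lit 19805017)) p13_19_0 (nat_lit 3) (nat_lit 16) (nat_lit 17) = true := by decide +kernel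
def p13_19_0_17 : pfC (piC [(nat_lit 37297016), (nat_lit 23751559), (nat_lit 15232604)] (nat_lit 19805017)) p13_19_0 (nat_lit 3) (nat_lit 17) (nat_lit 18) = true := by decide +kernel
def p13_19_0_18 : pfC (piC [(nat_lit 37297016), (nat_lit 23751559), (nat_lit 15232604)] (nat_lit 19805017)) p13_19_0 (nat_lit 3) (nat_lit 18) (nat_lit 19) = true := by decide +kernel
def p13_19_0_19 : pfC (piC [(nat_lit 37297016), (nat_lit 23751559), (nat_lit 15232604)] (nat_lit 19805017)) p13_19_0 (nat_lit 3) (nat_lit 19) (nat_lit 20) = true := by decide +kernel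
def p13_19_0_20 : pfC (piC [(nat_lit 37297016), (nat_lit 23751559), (nat_lit 15232604)] (nat_lit 19805017)) p13_19_0 (nat_lit 3) (nat_lit 20) (nat_lit 21) = true := by decide +kernel
def p13_19_0_21 : pfC (piC [(nat_lit 37297016), (nat_lit 23751559), (nat_lit 15232604)] (nat_lit 19805017)) p13_19_0 (nat_lit 3) (nat_lit 21) (nat_lit 22) = true := by decide +kernel
def p13_19_0_22 : pfC (piC [(nat_lit 37297016), (nat_lit 23751559), (nat_lit 15232604)] (nat_lit 19805017)) p13_19_0 (nat_lit 3) (nat_lit 22) (nat_lit 23) = true := by decide +kernel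
def p13_19_0_23 : pfC (piC [(nat_lit 37297016), (nat_lit 23751559), (nat_lit 15232604)] (nat_lit 19805017)) p13_19_0 (nat_lit 3) (nat_lit 23) (nat_lit 24) = true := by decide +kernel
def p13_19_0_24 : pfC (piC [(nat_lit 37297016), (nat_lit 23751559), (nat_lit 15232604)] (nat_lit 19805017)) p13_19_0 (nat_lit 3) (nat_lit 24) (nat_lit 25) = true := by decide +kernel
def p13_19_0_25 : pfC (piC [(nat_lit 37297016), (nat_lit 23751559), (nat_lit 15232604)] (nat_lit 19805017)) p13_19_0 (nat_lit 3) (nat_lit 25) (nat_lit 26) = true := by decide +kernel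
def p13_19_0_26 : pfC (piC [(nat_lit 37297016), (nat_lit 23751559), (nat_lit 15232604)] (nat_lit 19805017)) p13_19_0 (nat_lit 3) (nat_lit 26) (nat_lit 27) = true := by decide +kernel
def p13_19_0_27 : pfC (piC [(nat_lit 37297016), (nat_lit 23751559), (nat_lit 15232604)] (nat_lit 19805017)) p13_19_0 (nat_lit 3) (nat_lit 27) (nat_lit 28) = true := by decide +kernel
def p13_19_0_28 : pfC (piC [(nat_lit 37297016), (nat_lit 23751559), (nat_lit 15232604)] (nat_lit 19805017)) p13_19_0 (nat_lit 3) (nat_lit 28) (nat_lit 29) = true := by decide +kernel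
def p13_19_0_29 : pfC (piC [(nat_lit 37297016), (nat_lit 23751559), (nat_lit 15232604)] (nat_lit 19805017)) p13_19_0 (nat_lit 3) (nat_lit 29) (nat_lit 30) = true := by decide +kernel
def p13_19_0_30 : pfC (piC [(nat_lit 37297016), (nat_lit 23751559), (nat_lit 15232604)] (nat_lit 19805017)) p13_19_0 (nat_lit 3) (nat_lit 30) (nat_lit 31) = true := by decide +kernel
def p13_19_0_31 : pfC (piC [(nat_lit 37297016), (nat_lit 23751559), (nat_lit 15232604)] (nat_lit 19805017)) p13_19_0 (nat_lit 3) (nat_lit 31) (nat_lit 32) = true := by decide +kernel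
def p13_19_0_32 : pfC (piC [(nat_lit 37297016), (nat_lit 23751559), (nat_lit 15232604)] (nat_lit 19805017)) p13_19_0 (nat_lit 3) (nat_lit 32) (nat_lit 33) = true := by decide +kernel
def p13_19_0_33 : pfC (piC [(nat_lit 37297016), (nat_lit 23751559), (nat_lit 15232604)] (nat_lit 19805017)) p13_19_0 (nat_lit 3) (nat_lit 33) (nat_lit 34) = true := by decide +kernel
def p13_19_0_34 : pfC (piC [(nat_lit 37297016), (nat_lit 23751559), (nat_lit 15232604)] (nat_lit 19805017)) p13_19_0 (nat_lit 3) (nat_lit 34) (nat_lit 35) = true := by decide +kernel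
def p13_19_0_35 : pfC (piC [(nat_lit 37297016), (nat_lit 23751559), (nat_lit 15232604)] (nat_lit 19805017)) p13_19_0 (nat_lit 3) (nat_lit 35) (nat_lit 36) = true := by decide +kernel
def p13_19_0_36 : pfC (piC [(nat_lit 37297016), (nat_lit 23751559), (nat_lit 15232604)] (nat_lit 19805017)) p13_19_0 (nat_lit 3) (nat_lit 36) (nat_lit 37) = true := by decide +kernel
def p13_19_0_37 : pfC (piC [(nat_lit 37297016), (nat_lit 23751559), (nat_lit 15232604)] (nat_lit 19805017)) p13_19_0 (nat_lit 3) (nat_lit 37) (nat_lit 38) = true := by decide +kernel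
def p13_19_0_38 : pfC (piC [(nat_lit 37297016), (nat_lit 23751559), (nat_lit 15232604)] (nat_lit 19805017)) p13_19_0 (nat_lit 3) (nat_lit 38) (nat_lit 39) = true := by decide +kernel
def p13_19_0_39 : pfC (piC [(nat_lit 37297016), (nat_lit 23751559), (nat_lit 15232604)] (nat_lit 19805017)) p13_19_0 (nat_lit 3) (nat_lit 39) (nat_lit 40) = true := by decide +kernel
def p13_19_0_40 : pfC (piC [(nat_lit 37297016), (nat_lit 23751559), (nat_lit 15232604)] (nat_lit 19805017)) p13_19_0 (nat_lit 3) (nat_lit 40) (nat_lit 41) = true := by decide +kernel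
def p13_19_0_41 : pfC (piC [(nat_lit 37297016), (nat_lit 23751559), (nat_lit 15232604)] (nat_lit 19805017)) p13_19_0 (nat_lit 3) (nat_lit 41) (nat_lit 42) = true := by decide +kernel
def p13_19_0_42 : pfC (piC [(nat_lit 37297016), (nat_lit 23751559), (nat_lit 15232604)] (nat_lit 19805017)) p13_19_0 (nat_lit 3) (nat_lit 42) (nat_lit 43) = true := by decide +kernel
def p13_19_0_43 : pfC (piC [(nat_lit 37297016), (nat_lit 23751559), (nat_lit 15232604)] (nat_lit 19805017)) p13_19_0 (nat_lit 3) (nat_lit 43) (nat_lit 44) = true := by decide +kernel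
def p13_19_0_44 : pfC (piC [(nat_lit 37297016), (nat_lit 23751559), (nat_lit 15232604)] (nat_lit 19805017)) p13_19_0 (nat_lit 3) (nat_lit 44) (nat_lit 45) = true := by decide +kernel
def p13_19_0_45 : pfC (piC [(nat_lit 37297016), (nat_lit 23751559), (nat_lit 15232604)] (nat_lit 19805017)) p13_19_0 (nat_lit 3) (nat_lit 45) (nat_lit 46) = true := by decide +kernel
def p13_19_0_46 : pfC (piC [(nat_lit 37297016), (nat_lit 23751559), (nat_lit 15232604)] (nat_lit 19805017)) p13_19_0 (nat_lit 3) (nat_lit 46) (nat_lit 47) = true := by decide +kernel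
def p13_19_0_47 : pfC (piC [(nat_lit 37297016), (nat_lit 23751559), (nat_lit 15232604)] (nat_lit 19805017)) p13_19_0 (nat_lit 3) (nat_lit 47) (nat_lit 48) = true := by decide +kernel
def p13_19_0_48 : pfC (piC [(nat_lit 37297016), (nat_lit 23751559), (nat_lit 15232604)] (nat_lit 19805017)) p13_19_0 (nat_lit 3) (nat_lit 48) (nat_lit 49) = true := by decide +kernel
def p13_19_0_49 : pfC (piC [(nat_lit 37297016), (nat_lit 23751559), (nat_lit 15232604)] (nat_lit 19805017)) p13_19_0 (nat_lit 3) (nat_lit 49) (nat_lit 50) = true := by decide +kernel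
def p13_19_0_50 : pfC (piC [(nat_lit 37297016), (nat_lit 23751559), (nat_lit 15232604)] (nat_lit 19805017)) p13_19_0 (nat_lit 3) (nat_lit 50) (nat_lit 51) = true := by decide +kernel
def p13_19_0_51 : pfC (piC [(nat_lit 37297016), (nat_lit 23751559), (nat_lit 15232604)] (nat_lit 19805017)) p13_19_0 (nat_lit 3) (nat_lit 51) (nat_lit 52) = true := by decide +kernel
def p13_19_0_52 : pfC (piC [(nat_lit 37297016), (nat_lit 23751559), (nat_lit 15232604)] (nat_lit 19805017)) p13_19_0 (nat_lit 3) (nat_lit 52) (nat_lit 53) = true := by decide +kernel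
def p13_19_0_53 : pfC (piC [(nat_lit 37297016), (nat_lit 23751559), (nat_lit 15232604)] (nat_lit 19805017)) p13_19_0 (nat_lit 3) (nat_lit 53) (nat_lit 54) = true := by decide +kernel
def p13_19_0_54 : pfC (piC [(nat_lit 37297016), (nat_lit 23751559), (nat_lit 15232604)] (nat_lit 19805017)) p13_19_0 (nat_lit 3) (nat_lit 54) (nat_lit 55) = true := by decide +kernel
def p13_19_0_55 : pfC (piC [(nat_lit 37297016), (nat_lit 23751559), (nat_lit 15232604)] (nat_lit 19805017)) p13_19_0 (nat_lit 3) (nat_lit 55) (nat_lit 56) = true := by decide +kernel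
def p13_19_0_56 : pfC (piC [(nat_lit 37297016), (nat_lit 23751559), (nat_lit 15232604)] (nat_lit 19805017)) p13_19_0 (nat_lit 3) (nat_lit 56) (nat_lit 57) = true := by decide +kernel
def p13_19_0_57 : pfC (piC [(nat_lit 37297016), (nat_lit 23751559), (nat_lit 15232604)] (nat_lit 19805017)) p13_19_0 (nat_lit 3) (nat_lit 57) (nat_lit 58) = true := by decide +kernel
def p13_19_0_58 : pfC (piC [(nat_lit 37297016), (nat_lit 23751559), (nat_lit 15232604)] (nat_lit 19805017)) p13_19_0 (nat_lit 3) (nat_lit 58) (nat_lit 59) = true := by decide +kernel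
def p13_19_0_59 : pfC (piC [(nat_lit 37297016), (nat_lit 23751559), (nat_lit 15232604)] (nat_lit 19805017)) p13_19_0 (nat_lit 3) (nat_lit 59) (nat_lit 60) = true := by decide +kernel
def p13_19_0_60 : pfC (piC [(nat_lit 37297016), (nat_lit 23751559), (nat_lit 15232604)] (nat_lit 19805017)) p13_19_0 (nat_lit 3) (nat_lit 60) (nat_lit 61) = true := by decide +kernel
def p13_19_0_61 : pfC (piC [(nat_lit 37297016), (nat_lit 23751559), (nat_lit 15232604)] (nat_lit 19805017)) p13_19_0 (nat_lit 3) (nat_lit 61) (nat_lit 62) = true := by decide +kernel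
def p13_19_0_62 : pfC (piC [(nat_lit 37297016), (nat_lit 23751559), (nat_lit 15232604)] (nat_lit 19805017)) p13_19_0 (nat_lit 3) (nat_lit 62) (nat_lit 63) = true := by decide +kernel
def p13_19_0_63 : pfC (piC [(nat_lit 37297016), (nat_lit 23751559), (nat_lit 15232604)] (nat_lit 19805017)) p13_19_0 (nat_lit 3) (nat_lit 63) (nat_lit 64) = true := by decide +kernel
def p13_19_0_64 : pfC (piC [(nat_lit 37297016), (nat_lit 23751559), (nat_lit 15232604)] (nat_lit 19805017)) p13_19_0 (nat_lit 3) (nat_lit 64) (nat_lit 65) = true := by decide +kernel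
def p13_19_0_65 : pfC (piC [(nat_lit 37297016), (nat_lit 23751559), (nat_lit 15232604)] (nat_lit 19805017)) p13_19_0 (nat_lit 3) (nat_lit 65) (nat_lit 66) = true := by decide +kernel
def p13_19_0_66 : pfC (piC [(nat_lit 37297016), (nat_lit 23751559), (nat_lit 15232604)] (nat_lit 19805017)) p13_19_0 (nat_lit 3) (nat_lit 66) (nat_lit 67) = true := by decide +kernel
def p13_19_0_67 : pfC (piC [(nat_lit 37297016), (nat_lit 23751559), (nat_lit 15232604)] (nat_lit 19805017)) p13_19_0 (nat_lit 3) (nat_lit 67) (nat_lit 68) = true := by decide +kernel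
def p13_19_0_68 : pfC (piC [(nat_lit 37297016), (nat_lit 23751559), (nat_lit 15232604)] (nat_lit 19805017)) p13_19_0 (nat_lit 3) (nat_lit 68) (nat_lit 69) = true := by decide +kernel
def p13_19_0_69 : pfC (piC [(nat_lit 37297016), (nat_lit 23751559), (nat_lit 15232604)] (nat_lit 19805017)) p13_19_0 (nat_lit 3) (nat_lit 69) (nat_lit 70) = true := by decide +kernel
def p13_19_0_70 : pfC (piC [(nat_lit 37297016), (nat_lit 23751559), (nat_lit 15232604)] (nat_lit 19805017)) p13_19_0 (nat_lit 3) (nat_lit 70) (nat_lit 71) = true := by decide +kernel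
def p13_19_0_71 : pfC (piC [(nat_lit 37297016), (nat_lit 23751559), (nat_lit 15232604)] (nat_lit 19805017)) p13_19_0 (nat_lit 3) (nat_lit 71) (nat_lit 72) = true := by decide +kernel
def p13_19_0_72 : pfC (piC [(nat_lit 37297016), (nat_lit 23751559), (nat_lit 15232604)] (nat_lit 19805017)) p13_19_0 (nat_lit 3) (nat_lit 72) (nat_lit 73) = true := by decide +kernel
def p13_19_0_73 : pfC (piC [(nat_lit 37297016), (nat_lit 23751559), (nat_lit 15232604)] (nat_lit 19805017)) p13_19_0 (nat_lit 3) (nat_lit 73) (nat_lit 74) = true := by decide +kernel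
def p13_19_0_74 : pfC (piC [(nat_lit 37297016), (nat_lit 23751559), (nat_lit 15232604)] (nat_lit 19805017)) p13_19_0 (nat_lit 3) (nat_lit 74) (nat_lit 75) = true := by decide +kernel
def p13_19_0_75 : pfC (piC [(nat_lit 37297016), (nat_lit 23751559), (nat_lit 15232604)] (nat_lit 19805017)) p13_19_0 (nat_lit 3) (nat_lit 75) (nat_lit 76) = true := by decide +kernel
def p13_19_0_76 : pfC (piC [(nat_lit 37297016), (nat_lit 23751559), (nat_lit 15232604)] (nat_lit 19805017)) p13_19_0 (nat_lit 3) (nat_lit 76) (nat_lit 77) = true := by decide +kernel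
def p13_19_0_77 : pfC (piC [(nat_lit 37297016), (nat_lit 23751559), (nat_lit 15232604)] (nat_lit 19805017)) p13_19_0 (nat_lit 3) (nat_lit 77) (nat_lit 78) = true := by decide +kernel
def p13_19_0_78 : pfC (piC [(nat_lit 37297016), (nat_lit 23751559), (nat_lit 15232604)] (nat_lit 19805017)) p13_19_0 (nat_lit 3) (nat_lit 78) (nat_lit 79) = true := by decide +kernel
def p13_19_0_79 : pfC (piC [(nat_lit 37297016), (nat_lit 23751559), (nat_lit 15232604)] (nat_lit 19805017)) p13_19_0 (nat_lit 3) (nat_lit 79) (nat_lit 80) = true := by decide +kernel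
def p13_19_0_80 : pfC (piC [(nat_lit 37297016), (nat_lit 23751559), (nat_lit 15232604)] (nat_lit 19805017)) p13_19_0 (nat_lit 3) (nat_lit 80) (nat_lit 81) = true := by decide +kernel
def p13_19_0_81 : pfC (piC [(nat_lit 37297016), (nat_lit 23751559), (nat_lit 15232604)] (nat_lit 19805017)) p13_19_0 (nat_lit 3) (nat_lit 81) (nat_lit 82) = true := by decide +kernel
def p13_19_0_82 : pfC (piC [(nat_lit 37297016), (nat_lit 23751559), (nat_lit 15232604)] (nat_lit 19805017)) p13_19_0 (nat_lit 3) (nat_lit 82) (nat_lit 83) = true := by decide +kernel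
def p13_19_0_83 : pfC (piC [(nat_lit 37297016), (nat_lit 23751559), (nat_lit 15232604)] (nat_lit 19805017)) p13_19_0 (nat_lit 3) (nat_lit 83) (nat_lit 84) = true := by decide +kernel
def p13_19_0_84 : pfC (piC [(nat_lit 37297016), (nat_lit 23751559), (nat_lit 15232604)] (nat_lit 19805017)) p13_19_0 (nat_lit 3) (nat_lit 84) (nat_lit 85) = true := by decide +kernel
def p13_19_0_85 : pfC (piC [(nat_lit 37297016), (nat_lit 23751559), (nat_lit 15232604)] (nat_lit 19805017)) p13_19_0 (nat_lit 3) (nat_lit 85) (nat_lit 86) = true := by decide +kernel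
def p13_19_0_86 : pfC (piC [(nat_lit 37297016), (nat_lit 23751559), (nat_lit 15232604)] (nat_lit 19805017)) p13_19_0 (nat_lit 3) (nat_lit 86) (nat_lit 87) = true := by decide +kernel
def p13_19_0_87 : pfC (piC [(nat_lit 37297016), (nat_lit 23751559), (nat_lit 15232604)] (nat_lit 19805017)) p13_19_0 (nat_lit 3) (nat_lit 87) (nat_lit 88) = true := by decide +kernel
def p13_19_0_88 : pfC (piC [(nat_lit 37297016), (nat_lit 23751559), (nat_lit 15232604)] (nat_lit 19805017)) p13_19_0 (nat_lit 3) (nat_lit 88) (nat_lit 89) = true := by decide +kernel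
def p13_19_0_89 : pfC (piC [(nat_lit 37297016), (nat_lit 23751559), (nat_lit 15232604)] (nat_lit 19805017)) p13_19_0 (nat_lit 3) (nat_lit 89) (nat_lit 90) = true := by decide +kernel
def p13_19_0_90 : pfC (piC [(nat_lit 37297016), (nat_lit 23751559), (nat_lit 15232604)] (nat_lit 19805017)) p13_19_0 (nat_lit 3) (nat_lit 90) (nat_lit 91) = true := by decide +kernel
def p13_19_0_91 : pfC (piC [(nat_lit 37297016), (nat_lit 23751559), (nat_lit 15232604)] (nat_lit 19805017)) p13_19_0 (nat_lit 3) (nat_lit 91) (nat_lit 92) = true := by decide +kernel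
def p13_19_0_92 : pfC (piC [(nat_lit 37297016), (nat_lit 23751559), (nat_lit 15232604)] (nat_lit 19805017)) p13_19_0 (nat_lit 3) (nat_lit 92) (nat_lit 93) = true := by decide +kernel
def p13_19_0_93 : pfC (piC [(nat_lit 37297016), (nat_lit 23751559), (nat_lit 15232604)] (nat_lit 19805017)) p13_19_0 (nat_lit 3) (nat_lit 93) (nat_lit 94) = true := by decide +kernel
def p13_19_0_94 : pfC (piC [(nat_lit 37297016), (nat_lit 23751559), (nat_lit 15232604)] (nat_lit 19805017)) p13_19_0 (nat_lit 3) (nat_lit 94) (nat_lit 95) = true := by decide +kernel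
def p13_19_0_95 : pfC (piC [(nat_lit 37297016), (nat_lit 23751559), (nat_lit 15232604)] (nat_lit 19805017)) p13_19_0 (nat_lit 3) (nat_lit 95) (nat_lit 96) = true := by decide +kernel
def p13_19_0_96 : pfC (piC [(nat_lit 37297016), (nat_lit 23751559), (nat_lit 15232604)] (nat_lit 19805017)) p13_19_0 (nat_lit 3) (nat_lit 96) (nat_lit 97) = true := by decide +kernel
def p13_19_0_97 : pfC (piC [(nat_lit 37297016), (nat_lit 23751559), (nat_lit 15232604)] (nat_lit 19805017)) p13_19_0 (nat_lit 3) (nat_lit 97) (nat_lit 98) = true := by decide +kernel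
def p13_19_0_98 : pfC (piC [(nat_lit 37297016), (nat_lit 23751559), (nat_lit 15232604)] (nat_lit 19805017)) p13_19_0 (nat_lit 3) (nat_lit 98) (nat_lit 99) = true := by decide +kernel
def p13_19_0_99 : pfC (piC [(nat_lit 37297016), (nat_lit 23751559), (nat_lit 15232604)] (nat_lit 19805017)) p13_19_0 (nat_lit 3) (nat_lit 99) (nat_lit 100) = true := by decide +kernel
def p13_19_0_100 : pfC (piC [(nat_lit 37297016), (nat_lit 23751559), (nat_lit 15232604)] (nat_lit 19805017)) p13_19_0 (nat_lit 3) (nat_lit 100) (nat_lit 101) = true := by decide +kernel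
def p13_19_0_101 : pfC (piC [(nat_lit 37297016), (nat_lit 23751559), (nat_lit 15232604)] (nat_lit 19805017)) p13_19_0 (nat_lit 3) (nat_lit 101) (nat_lit 102) = true := by decide +kernel
def p13_19_0_102 : pfC (piC [(nat_lit 37297016), (nat_lit 23751559), (nat_lit 15232604)] (nat_lit 19805017)) p13_19_0 (nat_lit 3) (nat_lit 102) (nat_lit 103) = true := by decide +kernel
def p13_19_0_103 : pfC (piC [(nat_lit 37297016), (nat_lit 23751559), (nat_lit 15232604)] (nat_lit 19805017)) p13_19_0 (nat_lit 3) (nat_lit 103) (nat_lit 104) = true := by decide +kernel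
def p13_19_0_104 : pfC (piC [(nat_lit 37297016), (nat_lit 23751559), (nat_lit 15232604)] (nat_lit 19805017)) p13_19_0 (nat_lit 3) (nat_lit 104) (nat_lit 105) = true := by decide +kernel
def p13_19_0_105 : pfC (piC [(nat_lit 37297016), (nat_lit 23751559), (nat_lit 15232604)] (nat_lit 19805017)) p13_19_0 (nat_lit 3) (nat_lit 105) (nat_lit 106) = true := by decide +kernel
def p13_19_0_106 : pfC (piC [(nat_lit 37297016), (nat_lit 23751559), (nat_lit 15232604)] (nat_lit 19805017)) p13_19_0 (nat_lit 3) (nat_lit 106) (nat_lit 107) = true := by decide +kernel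
def p13_19_0_107 : pfC (piC [(nat_lit 37297016), (nat_lit 23751559), (nat_lit 15232604)] (nat_lit 19805017)) p13_19_0 (nat_lit 3) (nat_lit 107) (nat_lit 108) = true := by decide +kernel
def p13_19_0_108 : pfC (piC [(nat_lit 37297016), (nat_lit 23751559), (nat_lit 15232604)] (nat_lit 19805017)) p13_19_0 (nat_lit 3) (nat_lit 108) (nat_lit 109) = true := by decide +kernel
def p13_19_0_109 : pfC (piC [(nat_lit 37297016), (nat_lit 23751559), (nat_lit 15232604)] (nat_lit 19805017)) p13_19_0 (nat_lit 3) (nat_lit 109) (nat_lit 110) = true := by decide +kernel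
def p13_19_0_110 : pfC (piC [(nat_lit 37297016), (nat_lit 23751559), (nat_lit 15232604)] (nat_lit 19805017)) p13_19_0 (nat_lit 3) (nat_lit 110) (nat_lit 111) = true := by decide +kernel
def p13_19_0_111 : pfC (piC [(nat_lit 37297016), (nat_lit 23751559), (nat_lit 15232604)] (nat_lit 19805017)) p13_19_0 (nat_lit 3) (nat_lit 111) (nat_lit 112) = true := by decide +kernel
def p13_19_0_112 : pfC (piC [(nat_lit 37297016), (nat_lit 23751559), (nat_lit 15232604)] (nat_lit 19805017)) p13_19_0 (nat_lit 3) (nat_lit 112) (nat_lit 113) = true := by decide +kernel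
def p13_19_0_113 : pfC (piC [(nat_lit 37297016), (nat_lit 23751559), (nat_lit 15232604)] (nat_lit 19805017)) p13_19_0 (nat_lit 3) (nat_lit 113) (nat_lit 114) = true := by decide +kernel
def p13_19_0_114 : pfC (piC [(nat_lit 37297016), (nat_lit 23751559), (nat_lit 15232604)] (nat_lit 19805017)) p13_19_0 (nat_lit 3) (nat_lit 114) (nat_lit 115) = true := by decide +kernel
def p13_19_0_115 : pfC (piC [(nat_lit 37297016), (nat_lit 23751559), (nat_lit 15232604)] (nat_lit 19805017)) p13_19_0 (nat_lit 3) (nat_lit 115) (nat_lit 116) = true := by decide +kernel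
def p13_19_0_116 : pfC (piC [(nat_lit 37297016), (nat_lit 23751559), (nat_lit 15232604)] (nat_lit 19805017)) p13_19_0 (nat_lit 3) (nat_lit 116) (nat_lit 117) = true := by decide +kernel
def p13_19_0_117 : pfC (piC [(nat_lit 37297016), (nat_lit 23751559), (nat_lit 15232604)] (nat_lit 19805017)) p13_19_0 (nat_lit 3) (nat_lit 117) (nat_lit 118) = true := by decide +kernel
def p13_19_0_118 : pfC (piC [(nat_lit 37297016), (nat_lit 23751559), (nat_lit 15232604)] (nat_lit 19805017)) p13_19_0 (nat_lit 3) (nat_lit 118) (nat_lit 119) = true := by decide +kernel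
def p13_19_0_119 : pfC (piC [(nat_lit 37297016), (nat_lit 23751559), (nat_lit 15232604)] (nat_lit 19805017)) p13_19_0 (nat_lit 3) (nat_lit 119) (nat_lit 120) = true := by decide +kernel
def p13_19_0_120 : pfC (piC [(nat_lit 37297016), (nat_lit 23751559), (nat_lit 15232604)] (nat_lit 19805017)) p13_19_0 (nat_lit 3) (nat_lit 120) (nat_lit 121) = true := by decide +kernel
def p13_19_0_121 : pfC (piC [(nat_lit 37297016), (nat_lit 23751559), (nat_lit 15232604)] (nat_lit 19805017)) p13_19_0 (nat_lit 3) (nat_lit 121) (nat_lit 122) = true := by decide +kernel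
def p13_19_0_122 : pfC (piC [(nat_lit 37297016), (nat_lit 23751559), (nat_lit 15232604)] (nat_lit 19805017)) p13_19_0 (nat_lit 3) (nat_lit 122) (nat_lit 123) = true := by decide +kernel
def p13_19_0_123 : pfC (piC [(nat_lit 37297016), (nat_lit 23751559), (nat_lit 15232604)] (nat_lit 19805017)) p13_19_0 (nat_lit 3) (nat_lit 123) (nat_lit 124) = true := by decide +kernel
def p13_19_0_124 : pfC (piC [(nat_lit 37297016), (nat_lit 23751559), (nat_lit 15232604)] (nat_lit 19805017)) p13_19_0 (nat_lit 3) (nat_lit 124) (nat_lit 125) = true := by decide +kernel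
def p13_19_0_125 : pfC (piC [(nat_lit 37297016), (nat_lit 23751559), (nat_lit 15232604)] (nat_lit 19805017)) p13_19_0 (nat_lit 3) (nat_lit 125) (nat_lit 126) = true := by decide +kernel
def p13_19_0_126 : pfC (piC [(nat_lit 37297016), (nat_lit 23751559), (nat_lit 15232604)] (nat_lit 19805017)) p13_19_0 (nat_lit 3) (nat_lit 126) (nat_lit 127) = true := by decide +kernel
def p13_19_0_127 : pfC (piC [(nat_lit 37297016), (nat_lit 23751559), (nat_lit 15232604)] (nat_lit 19805017)) p13_19_0 (nat_lit 3) (nat_lit 127) (nat_lit 128) = true := by decide +kernel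
def p13_19_0_128 : pfC (piC [(nat_lit 37297016), (nat_lit 23751559), (nat_lit 15232604)] (nat_lit 19805017)) p13_19_0 (nat_lit 3) (nat_lit 128) (nat_lit 129) = true := by decide +kernel
def p13_19_0_129 : pfC (piC [(nat_lit 37297016), (nat_lit 23751559), (nat_lit 15232604)] (nat_lit 19805017)) p13_19_0 (nat_lit 3) (nat_lit 129) (nat_lit 130) = true := by decide +kernel
def p13_19_0_130 : pfC (piC [(nat_lit 37297016), (nat_lit 23751559), (nat_lit 15232604)] (nat_lit 19805017)) p13_19_0 (nat_lit 3) (nat_lit 130) (nat_lit 131) = true := by decide +kernel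
def p13_19_0_131 : pfC (piC [(nat_lit 37297016), (nat_lit 23751559), (nat_lit 15232604)] (nat_lit 19805017)) p13_19_0 (nat_lit 3) (nat_lit 131) (nat_lit 132) = true := by decide +kernel
def p13_19_0_132 : pfC (piC [(nat_lit 37297016), (nat_lit 23751559), (nat_lit 15232604)] (nat_lit 19805017)) p13_19_0 (nat_lit 3) (nat_lit 132) (nat_lit 133) = true := by decide +kernel
def p13_19_0_133 : pfC (piC [(nat_lit 37297016), (nat_lit 23751559), (nat_lit 15232604)] (nat_lit 19805017)) p13_19_0 (nat_lit 3) (nat_lit 133) (nat_lit 134) = true := by decide +kernel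
def p13_19_0_134 : pfC (piC [(nat_lit 37297016), (nat_lit 23751559), (nat_lit 15232604)] (nat_lit 19805017)) p13_19_0 (nat_lit 3) (nat_lit 134) (nat_lit 135) = true := by decide +kernel
def p13_19_0_135 : pfC (piC [(nat_lit 37297016), (nat_lit 23751559), (nat_lit 15232604)] (nat_lit 19805017)) p13_19_0 (nat_lit 3) (nat_lit 135) (nat_lit 136) = true := by decide +kernel
def p13_19_0_136 : pfC (piC [(nat_lit 37297016), (nat_lit 23751559), (nat_lit 15232604)] (nat_lit 19805017)) p13_19_0 (nat_lit 3) (nat_lit 136) (nat_lit 137) = true := by decide +kernel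
def p13_19_0_137 : pfC (piC [(nat_lit 37297016), (nat_lit 23751559), (nat_lit 15232604)] (nat_lit 19805017)) p13_19_0 (nat_lit 3) (nat_lit 137) (nat_lit 138) = true := by decide +kernel
def p13_19_0_138 : pfC (piC [(nat_lit 37297016), (nat_lit 23751559), (nat_lit 15232604)] (nat_lit 19805017)) p13_19_0 (nat_lit 3) (nat_lit 138) (nat_lit 139) = true := by decide +kernel
def p13_19_0_139 : pfC (piC [(nat_lit 37297016), (nat_lit 23751559), (nat_lit 15232604)] (nat_lit 19805017)) p13_19_0 (nat_lit 3) (nat_lit 139) (nat_lit 140) = true := by decide +kernel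
def p13_19_0_140 : pfC (piC [(nat_lit 37297016), (nat_lit 23751559), (nat_lit 15232604)] (nat_lit 19805017)) p13_19_0 (nat_lit 3) (nat_lit 140) (nat_lit 141) = true := by decide +kernel
def p13_19_0_141 : pfC (piC [(nat_lit 37297016), (nat_lit 23751559), (nat_lit 15232604)] (nat_lit 19805017)) p13_19_0 (nat_lit 3) (nat_lit 141) (nat_lit 142) = true := by decide +kernel
def p13_19_0_142 : pfC (piC [(nat_lit 37297016), (nat_lit 23751559), (nat_lit 15232604)] (nat_lit 19805017)) p13_19_0 (nat_lit 3) (nat_lit 142) (nat_lit 143) = true := by decide +kernel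
def p13_19_0_143 : pfC (piC [(nat_lit 37297016), (nat_lit 23751559), (nat_lit 15232604)] (nat_lit 19805017)) p13_19_0 (nat_lit 3) (nat_lit 143) (nat_lit 144) = true := by decide +kernel
def p13_19_0_144 : pfC (piC [(nat_lit 37297016), (nat_lit 23751559), (nat_lit 15232604)] (nat_lit 19805017)) p13_19_0 (nat_lit 3) (nat_lit 144) (nat_lit 145) = true := by decide +kernel
def p13_19_0_145 : pfC (piC [(nat_lit 37297016), (nat_lit 23751559), (nat_lit 15232604)] (nat_lit 19805017)) p13_19_0 (nat_lit 3) (nat_lit 145) (nat_lit 146) = true := by decide +kernel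
def p13_19_0_146 : pfC (piC [(nat_lit 37297016), (nat_lit 23751559), (nat_lit 15232604)] (nat_lit 19805017)) p13_19_0 (nat_lit 3) (nat_lit 146) (nat_lit 147) = true := by decide +kernel
def p13_19_0_147 : pfC (piC [(nat_lit 37297016), (nat_lit 23751559), (nat_lit 15232604)] (nat_lit 19805017)) p13_19_0 (nat_lit 3) (nat_lit 147) (nat_lit 148) = true := by decide +kernel
def p13_19_0_148 : pfC (piC [(nat_lit 37297016), (nat_lit 23751559), (nat_lit 15232604)] (nat_lit 19805017)) p13_19_0 (nat_lit 3) (nat_lit 148) (nat_lit 149) = true := by decide +kernel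
def p13_19_0_149 : pfC (piC [(nat_lit 37297016), (nat_lit 23751559), (nat_lit 15232604)] (nat_lit 19805017)) p13_19_0 (nat_lit 3) (nat_lit 149) (nat_lit 150) = true := by decide +kernel
def p13_19_0_150 : pfC (piC [(nat_lit 37297016), (nat_lit 23751559), (nat_lit 15232604)] (nat_lit 19805017)) p13_19_0 (nat_lit 3) (nat_lit 150) (nat_lit 151) = true := by decide +kernel
def p13_19_0_151 : pfC (piC [(nat_lit 37297016), (nat_lit 23751559), (nat_lit 15232604)] (nat_lit 19805017)) p13_19_0 (nat_lit 3) (nat_lit 151) (nat_lit 152) = true := by decide +kernel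
def p13_19_0_152 : pfC (piC [(nat_lit 37297016), (nat_lit 23751559), (nat_lit 15232604)] (nat_lit 19805017)) p13_19_0 (nat_lit 3) (nat_lit 152) (nat_lit 153) = true := by decide +kernel
def p13_19_0_153 : pfC (piC [(nat_lit 37297016), (nat_lit 23751559), (nat_lit 15232604)] (nat_lit 19805017)) p13_19_0 (nat_lit 3) (nat_lit 153) (nat_lit 154) = true := by decide +kernel
def p13_19_0_154 : pfC (piC [(nat_lit 37297016), (nat_lit 23751559), (nat_lit 15232604)] (nat_lit 19805017)) p13_19_0 (nat_lit 3) (nat_lit 154) (nat_lit 155) = true := by decide +kernel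
def p13_19_0_155 : pfC (piC [(nat_lit 37297016), (nat_lit 23751559), (nat_lit 15232604)] (nat_lit 19805017)) p13_19_0 (nat_lit 3) (nat_lit 155) (nat_lit 156) = true := by decide +kernel
def p13_19_0_156 : pfC (piC [(nat_lit 37297016), (nat_lit 23751559), (nat_lit 15232604)] (nat_lit 19805017)) p13_19_0 (nat_lit 3) (nat_lit 156) (nat_lit 157) = true := by decide +kernel
def p13_19_0_157 : pfC (piC [(nat_lit 37297016), (nat_lit 23751559), (nat_lit 15232604)] (nat_lit 19805017)) p13_19_0 (nat_lit 3) (nat_lit 157) (nat_lit 158) = true := by decide +kernel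
def p13_19_0_158 : pfC (piC [(nat_lit 37297016), (nat_lit 23751559), (nat_lit 15232604)] (nat_lit 19805017)) p13_19_0 (nat_lit 3) (nat_lit 158) (nat_lit 159) = true := by decide +kernel
def p13_19_0_159 : pfC (piC [(nat_lit 37297016), (nat_lit 23751559), (nat_lit 15232604)] (nat_lit 19805017)) p13_19_0 (nat_lit 3) (nat_lit 159) (nat_lit 160) = true := by decide +kernel
def p13_19_0_160 : pfC (piC [(nat_lit 37297016), (nat_lit 23751559), (nat_lit 15232604)] (nat_lit 19805017)) p13_19_0 (nat_lit 3) (nat_lit 160) (nat_lit 161) = true := by decide +kernel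
def p13_19_0_161 : pfC (piC [(nat_lit 37297016), (nat_lit 23751559), (nat_lit 15232604)] (nat_lit 19805017)) p13_19_0 (nat_lit 3) (nat_lit 161) (nat_lit 162) = true := by decide +kernel
def p13_19_0_162 : pfC (piC [(nat_lit 37297016), (nat_lit 23751559), (nat_lit 15232604)] (nat_lit 19805017)) p13_19_0 (nat_lit 3) (nat_lit 162) (nat_lit 163) = true := by decide +kernel
def p13_19_0_163 : pfC (piC [(nat_lit 37297016), (nat_lit 23751559), (nat_lit 15232604)] (nat_lit 19805017)) p13_19_0 (nat_lit 3) (nat_lit 163) (nat_lit 164) = true := by decide +kernel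
def p13_19_0_164 : pfC (piC [(nat_lit 37297016), (nat_lit 23751559), (nat_lit 15232604)] (nat_lit 19805017)) p13_19_0 (nat_lit 3) (nat_lit 164) (nat_lit 165) = true := by decide +kernel
def p13_19_0_165 : pfC (piC [(nat_lit 37297016), (nat_lit 23751559), (nat_lit 15232604)] (nat_lit 19805017)) p13_19_0 (nat_lit 3) (nat_lit 165) (nat_lit 166) = true := by decide +kernel
def p13_19_0_166 : pfC (piC [(nat_lit 37297016), (nat_lit 23751559), (nat_lit 15232604)] (nat_lit 19805017)) p13_19_0 (nat_lit 3) (nat_lit 166) (nat_lit 167) = true := by decide +kernel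
def p13_19_0_167 : pfC (piC [(nat_lit 37297016), (nat_lit 23751559), (nat_lit 15232604)] (nat_lit 19805017)) p13_19_0 (nat_lit 3) (nat_lit 167) (nat_lit 168) = true := by decide +kernel
def p13_19_0_168 : pfC (piC [(nat_lit 37297016), (nat_lit 23751559), (nat_lit 15232604)] (nat_lit 19805017)) p13_19_0 (nat_lit 3) (nat_lit 168) (nat_lit 169) = true := by decide +kernel
def p13_19_0_169 : pfC (piC [(nat_lit 37297016), (nat_lit 23751559), (nat_lit 15232604)] (nat_lit 19805017)) p13_19_0 (nat_lit 3) (nat_lit 169) (nat_lit 170) = true := by decide +kernel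
def p13_19_0_170 : pfC (piC [(nat_lit 37297016), (nat_lit 23751559), (nat_lit 15232604)] (nat_lit 19805017)) p13_19_0 (nat_lit 3) (nat_lit 170) (nat_lit 171) = true := by decide +kernel
def p13_19_0_171 : pfC (piC [(nat_lit 37297016), (nat_lit 23751559), (nat_lit 15232604)] (nat_lit 19805017)) p13_19_0 (nat_lit 3) (nat_lit 171) (nat_lit 172) = true := by decide +kernel
def p13_19_0_172 : pfC (piC [(nat_lit 37297016), (nat_lit 23751559), (nat_lit 15232604)] (nat_lit 19805017)) p13_19_0 (nat_lit 3) (nat_lit 172) (nat_lit 173) = true := by decide +kernel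
def p13_19_0_173 : pfC (piC [(nat_lit 37297016), (nat_lit 23751559), (nat_lit 15232604)] (nat_lit 19805017)) p13_19_0 (nat_lit 3) (nat_lit 173) (nat_lit 174) = true := by decide +kernel
def p13_19_0_174 : pfC (piC [(nat_lit 37297016), (nat_lit 23751559), (nat_lit 15232604)] (nat_lit 19805017)) p13_19_0 (nat_lit 3) (nat_lit 174) (nat_lit 175) = true := by decide +kernel
def p13_19_0_175 : pfC (piC [(nat_lit 37297016), (nat_lit 23751559), (nat_lit 15232604)] (nat_lit 19805017)) p13_19_0 (nat_lit 3) (nat_lit 175) (nat_lit 176) = true := by decide +kernel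
def p13_19_0_176 : pfC (piC [(nat_lit 37297016), (nat_lit 23751559), (nat_lit 15232604)] (nat_lit 19805017)) p13_19_0 (nat_lit 3) (nat_lit 176) (nat_lit 177) = true := by decide +kernel
def p13_19_0_177 : pfC (piC [(nat_lit 37297016), (nat_lit 23751559), (nat_lit 15232604)] (nat_lit 19805017)) p13_19_0 (nat_lit 3) (nat_lit 177) (nat_lit 178) = true := by decide +kernel
def p13_19_0_178 : pfC (piC [(nat_lit 37297016), (nat_lit 23751559), (nat_lit 15232604)] (nat_lit 19805017)) p13_19_0 (nat_lit 3) (nat_lit 178) (nat_lit 179) = true := by decide +kernel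
def p13_19_0_179 : pfC (piC [(nat_lit 37297016), (nat_lit 23751559), (nat_lit 15232604)] (nat_lit 19805017)) p13_19_0 (nat_lit 3) (nat_lit 179) (nat_lit 180) = true := by decide +kernel
def p13_19_0_180 : pfC (piC [(nat_lit 37297016), (nat_lit 23751559), (nat_lit 15232604)] (nat_lit 19805017)) p13_19_0 (nat_lit 3) (nat_lit 180) (nat_lit 181) = true := by decide +kernel
def p13_19_0_181 : pfC (piC [(nat_lit 37297016), (nat_lit 23751559), (nat_lit 15232604)] (nat_lit 19805017)) p13_19_0 (nat_lit 3) (nat_lit 181) (nat_lit 182) = true := by decide +kernel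
def p13_19_0_182 : pfC (piC [(nat_lit 37297016), (nat_lit 23751559), (nat_lit 15232604)] (nat_lit 19805017)) p13_19_0 (nat_lit 3) (nat_lit 182) (nat_lit 183) = true := by decide +kernel
def p13_19_0_183 : pfC (piC [(nat_lit 37297016), (nat_lit 23751559), (nat_lit 15232604)] (nat_lit 19805017)) p13_19_0 (nat_lit 3) (nat_lit 183) (nat_lit 184) = true := by decide +kernel
def p13_19_0_184 : pfC (piC [(nat_lit 37297016), (nat_lit 23751559), (nat_lit 15232604)] (nat_lit 19805017)) p13_19_0 (nat_lit 3) (nat_lit 184) (nat_lit 185) = true := by decide +kernel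
def p13_19_0_185 : pfC (piC [(nat_lit 37297016), (nat_lit 23751559), (nat_lit 15232604)] (nat_lit 19805017)) p13_19_0 (nat_lit 3) (nat_lit 185) (nat_lit 186) = true := by decide +kernel
def p13_19_0_186 : pfC (piC [(nat_lit 37297016), (nat_lit 23751559), (nat_lit 15232604)] (nat_lit 19805017)) p13_19_0 (nat_lit 3) (nat_lit 186) (nat_lit 187) = true := by decide +kernel
def p13_19_0_187 : pfC (piC [(nat_lit 37297016), (nat_lit 23751559), (nat_lit 15232604)] (nat_lit 19805017)) p13_19_0 (nat_lit 3) (nat_lit 187) (nat_lit 188) = true := by decide +kernel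
def p13_19_0_188 : pfC (piC [(nat_lit 37297016), (nat_lit 23751559), (nat_lit 15232604)] (nat_lit 19805017)) p13_19_0 (nat_lit 3) (nat_lit 188) (nat_lit 189) = true := by decide +kernel
def p13_19_0_189 : pfC (piC [(nat_lit 37297016), (nat_lit 23751559), (nat_lit 15232604)] (nat_lit 19805017)) p13_19_0 (nat_lit 3) (nat_lit 189) (nat_lit 190) = true := by decide +kernel
def p13_19_0_190 : pfC (piC [(nat_lit 37297016), (nat_lit 23751559), (nat_lit 15232604)] (nat_lit 19805017)) p13_19_0 (nat_lit 3) (nat_lit 190) (nat_lit 191) = true := by decide +kernel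
def p13_19_0_191 : pfC (piC [(nat_lit 37297016), (nat_lit 23751559), (nat_lit 15232604)] (nat_lit 19805017)) p13_19_0 (nat_lit 3) (nat_lit 191) (nat_lit 192) = true := by decide +kernel
def p13_19_0_192 : pfC (piC [(nat_lit 37297016), (nat_lit 23751559), (nat_lit 15232604)] (nat_lit 19805017)) p13_19_0 (nat_lit 3) (nat_lit 192) (nat_lit 193) = true := by decide +kernel
def p13_19_0_193 : pfC (piC [(nat_lit 37297016), (nat_lit 23751559), (nat_lit 15232604)] (nat_lit 19805017)) p13_19_0 (nat_lit 3) (nat_lit 193) (nat_lit 194) = true := by decide +kernel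
def p13_19_0_194 : pfC (piC [(nat_lit 37297016), (nat_lit 23751559), (nat_lit 15232604)] (nat_lit 19805017)) p13_19_0 (nat_lit 3) (nat_lit 194) (nat_lit 195) = true := by decide +kernel
def p13_19_0_195 : pfC (piC [(nat_lit 37297016), (nat_lit 23751559), (nat_lit 15232604)] (nat_lit 19805017)) p13_19_0 (nat_lit 3) (nat_lit 195) (nat_lit 196) = true := by decide +kernel
def p13_19_0_196 : pfC (piC [(nat_lit 37297016), (nat_lit 23751559), (nat_lit 15232604)] (nat_lit 19805017)) p13_19_0 (nat_lit 3) (nat_lit 196) (nat_lit 197) = true := by decide +kernel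
def p13_19_0_197 : pfC (piC [(nat_lit 37297016), (nat_lit 23751559), (nat_lit 15232604)] (nat_lit 19805017)) p13_19_0 (nat_lit 3) (nat_lit 197) (nat_lit 198) = true := by decide +kernel
def p13_19_0_198 : pfC (piC [(nat_lit 37297016), (nat_lit 23751559), (nat_lit 15232604)] (nat_lit 19805017)) p13_19_0 (nat_lit 3) (nat_lit 198) (nat_lit 199) = true := by decide +kernel
def p13_19_0_199 : pfC (piC [(nat_lit 37297016), (nat_lit 23751559), (nat_lit 15232604)] (nat_lit 19805017)) p13_19_0 (nat_lit 3) (nat_lit 199) (nat_lit 200) = true := by decide +kernel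
def p13_19_0_200 : pfC (piC [(nat_lit 37297016), (nat_lit 23751559), (nat_lit 15232604)] (nat_lit 19805017)) p13_19_0 (nat_lit 3) (nat_lit 200) (nat_lit 201) = true := by decide +kernel
def p13_19_0_201 : pfC (piC [(nat_lit 37297016), (nat_lit 23751559), (nat_lit 15232604)] (nat_lit 19805017)) p13_19_0 (nat_lit 3) (nat_lit 201) (nat_lit 202) = true := by decide +kernel
def p13_19_0_202 : pfC (piC [(nat_lit 37297016), (nat_lit 23751559), (nat_lit 15232604)] (nat_lit 19805017)) p13_19_0 (nat_lit 3) (nat_lit 202) (nat_lit 203) = true := by decide +kernel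
def p13_19_0_203 : pfC (piC [(nat_lit 37297016), (nat_lit 23751559), (nat_lit 15232604)] (nat_lit 19805017)) p13_19_0 (nat_lit 3) (nat_lit 203) (nat_lit 204) = true := by decide +kernel
def p13_19_0_204 : pfC (piC [(nat_lit 37297016), (nat_lit 23751559), (nat_lit 15232604)] (nat_lit 19805017)) p13_19_0 (nat_lit 3) (nat_lit 204) (nat_lit 205) = true := by decide +kernel
def p13_19_0_205 : pfC (piC [(nat_lit 37297016), (nat_lit 23751559), (nat_lit 15232604)] (nat_lit 19805017)) p13_19_0 (nat_lit 3) (nat_lit 205) (nat_lit 206) = true := by decide +kernel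
def p13_19_0_206 : pfC (piC [(nat_lit 37297016), (nat_lit 23751559), (nat_lit 15232604)] (nat_lit 19805017)) p13_19_0 (nat_lit 3) (nat_lit 206) (nat_lit 207) = true := by decide +kernel
def p13_19_0_207 : pfC (piC [(nat_lit 37297016), (nat_lit 23751559), (nat_lit 15232604)] (nat_lit 19805017)) p13_19_0 (nat_lit 3) (nat_lit 207) (nat_lit 208) = true := by decide +kernel
def p13_19_0_208 : pfC (piC [(nat_lit 37297016), (nat_lit 23751559), (nat_lit 15232604)] (nat_lit 19805017)) p13_19_0 (nat_lit 3) (nat_lit 208) (nat_lit 209) = true := by decide +kernel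
def p13_19_0_209 : pfC (piC [(nat_lit 37297016), (nat_lit 23751559), (nat_lit 15232604)] (nat_lit 19805017)) p13_19_0 (nat_lit 3) (nat_lit 209) (nat_lit 210) = true := by decide +kernel
def p13_19_0_210 : pfC (piC [(nat_lit 37297016), (nat_lit 23751559), (nat_lit 15232604)] (nat_lit 19805017)) p13_19_0 (nat_lit 3) (nat_lit 210) (nat_lit 211) = true := by decide +kernel
def p13_19_0_211 : pfC (piC [(nat_lit 37297016), (nat_lit 23751559), (nat_lit 15232604)] (nat_lit 19805017)) p13_19_0 (nat_lit 3) (nat_lit 211) (nat_lit 212) = true := by decide +kernel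
def p13_19_0_212 : pfC (piC [(nat_lit 37297016), (nat_lit 23751559), (nat_lit 15232604)] (nat_lit 19805017)) p13_19_0 (nat_lit 3) (nat_lit 212) (nat_lit 213) = true := by decide +kernel
def p13_19_0_213 : pfC (piC [(nat_lit 37297016), (nat_lit 23751559), (nat_lit 15232604)] (nat_lit 19805017)) p13_19_0 (nat_lit 3) (nat_lit 213) (nat_lit 214) = true := by decide +kernel
def p13_19_0_214 : pfC (piC [(nat_lit 37297016), (nat_lit 23751559), (nat_lit 15232604)] (nat_lit 19805017)) p13_19_0 (nat_lit 3) (nat_lit 214) (nat_lit 215) = true := by decide +kernel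
def p13_19_0_215 : pfC (piC [(nat_lit 37297016), (nat_lit 23751559), (nat_lit 15232604)] (nat_lit 19805017)) p13_19_0 (nat_lit 3) (nat_lit 215) (nat_lit 216) = true := by decide +kernel
def p13_19_0_216 : pfC (piC [(nat_lit 37297016), (nat_lit 23751559), (nat_lit 15232604)] (nat_lit 19805017)) p13_19_0 (nat_lit 3) (nat_lit 216) (nat_lit 217) = true := by decide +kernel
def p13_19_0_217 : pfC (piC [(nat_lit 37297016), (nat_lit 23751559), (nat_lit 15232604)] (nat_lit 19805017)) p13_19_0 (nat_lit 3) (nat_lit 217) (nat_lit 218) = true := by decide +kernel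
def p13_19_0_218 : pfC (piC [(nat_lit 37297016), (nat_lit 23751559), (nat_lit 15232604)] (nat_lit 19805017)) p13_19_0 (nat_lit 3) (nat_lit 218) (nat_lit 219) = true := by decide +kernel
def p13_19_0_219 : pfC (piC [(nat_lit 37297016), (nat_lit 23751559), (nat_lit 15232604)] (nat_lit 19805017)) p13_19_0 (nat_lit 3) (nat_lit 219) (nat_lit 220) = true := by decide +kernel
def p13_19_0_220 : pfC (piC [(nat_lit 37297016), (nat_lit 23751559), (nat_lit 15232604)] (nat_lit 19805017)) p13_19_0 (nat_lit 3) (nat_lit 220) (nat_lit 221) = true := by decide +kernel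
def p13_19_0_221 : pfC (piC [(nat_lit 37297016), (nat_lit 23751559), (nat_lit 15232604)] (nat_lit 19805017)) p13_19_0 (nat_lit 3) (nat_lit 221) (nat_lit 222) = true := by decide +kernel
def p13_19_0_222 : pfC (piC [(nat_lit 37297016), (nat_lit 23751559), (nat_lit 15232604)] (nat_lit 19805017)) p13_19_0 (nat_lit 3) (nat_lit 222) (nat_lit 223) = true := by decide +kernel
def p13_19_0_223 : pfC (piC [(nat_lit 37297016), (nat_lit 23751559), (nat_lit 15232604)] (nat_lit 19805017)) p13_19_0 (nat_lit 3) (nat_lit 223) (nat_lit 224) = true := by decide +kernel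
def p13_19_0_224 : pfC (piC [(nat_lit 37297016), (nat_lit 23751559), (nat_lit 15232604)] (nat_lit 19805017)) p13_19_0 (nat_lit 3) (nat_lit 224) (nat_lit 225) = true := by decide +kernel
def p13_19_0_225 : pfC (piC [(nat_lit 37297016), (nat_lit 23751559), (nat_lit 15232604)] (nat_lit 19805017)) p13_19_0 (nat_lit 3) (nat_lit 225) (nat_lit 226) = true := by decide +kernel
def p13_19_0_226 : pfC (piC [(nat_lit 37297016), (nat_lit 23751559), (nat_lit 15232604)] (nat_lit 19805017)) p13_19_0 (nat_lit 3) (nat_lit 226) (nat_lit 227) = true := by decide +kernel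
def p13_19_0_227 : pfC (piC [(nat_lit 37297016), (nat_lit 23751559), (nat_lit 15232604)] (nat_lit 19805017)) p13_19_0 (nat_lit 3) (nat_lit 227) (nat_lit 228) = true := by decide +kernel
def p13_19_0_228 : pfC (piC [(nat_lit 37297016), (nat_lit 23751559), (nat_lit 15232604)] (nat_lit 19805017)) p13_19_0 (nat_lit 3) (nat_lit 228) (nat_lit 229) = true := by decide +kernel
def p13_19_0_229 : pfC (piC [(nat_lit 37297016), (nat_lit 23751559), (nat_lit 15232604)] (nat_lit 19805017)) p13_19_0 (nat_lit 3) (nat_lit 229) (nat_lit 230) = true := by decide +kernel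
def p13_19_0_230 : pfC (piC [(nat_lit 37297016), (nat_lit 23751559), (nat_lit 15232604)] (nat_lit 19805017)) p13_19_0 (nat_lit 3) (nat_lit 230) (nat_lit 231) = true := by decide +kernel
def p13_19_0_231 : pfC (piC [(nat_lit 37297016), (nat_lit 23751559), (nat_lit 15232604)] (nat_lit 19805017)) p13_19_0 (nat_lit 3) (nat_lit 231) (nat_lit 232) = true := by decide +kernel
def p13_19_0_232 : pfC (piC [(nat_lit 37297016), (nat_lit 23751559), (nat_lit 15232604)] (nat_lit 19805017)) p13_19_0 (nat_lit 3) (nat_lit 232) (nat_lit 233) = true := by decide +kernel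
def p13_19_0_233 : pfC (piC [(nat_lit 37297016), (nat_lit 23751559), (nat_lit 15232604)] (nat_lit 19805017)) p13_19_0 (nat_lit 3) (nat_lit 233) (nat_lit 234) = true := by decide +kernel
def p13_19_0_234 : pfC (piC [(nat_lit 37297016), (nat_lit 23751559), (nat_lit 15232604)] (nat_lit 19805017)) p13_19_0 (nat_lit 3) (nat_lit 234) (nat_lit 235) = true := by decide +kernel
def p13_19_0_235 : pfC (piC [(nat_lit 37297016), (nat_lit 23751559), (nat_lit 15232604)] (nat_lit 19805017)) p13_19_0 (nat_lit 3) (nat_lit 235) (nat_lit 236) = true := by decide +kernel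
def p13_19_0_236 : pfC (piC [(nat_lit 37297016), (nat_lit 23751559), (nat_lit 15232604)] (nat_lit 19805017)) p13_19_0 (nat_lit 3) (nat_lit 236) (nat_lit 237) = true := by decide +kernel
def p13_19_0_237 : pfC (piC [(nat_lit 37297016), (nat_lit 23751559), (nat_lit 15232604)] (nat_lit 19805017)) p13_19_0 (nat_lit 3) (nat_lit 237) (nat_lit 238) = true := by decide +kernel
def p13_19_0_238 : pfC (piC [(nat_lit 37297016), (nat_lit 23751559), (nat_lit 15232604)] (nat_lit 19805017)) p13_19_0 (nat_lit 3) (nat_lit 238) (nat_lit 239) = true := by decide +kernel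
def p13_19_0_239 : pfC (piC [(nat_lit 37297016), (nat_lit 23751559), (nat_lit 15232604)] (nat_lit 19805017)) p13_19_0 (nat_lit 3) (nat_lit 239) (nat_lit 240) = true := by decide +kernel
def p13_19_0_240 : pfC (piC [(nat_lit 37297016), (nat_lit 23751559), (nat_lit 15232604)] (nat_lit 19805017)) p13_19_0 (nat_lit 3) (nat_lit 240) (nat_lit 241) = true := by decide +kernel
def p13_19_0_241 : pfC (piC [(nat_lit 37297016), (nat_lit 23751559), (nat_lit 15232604)] (nat_lit 19805017)) p13_19_0 (nat_lit 3) (nat_lit 241) (nat_lit 242) = true := by decide +kernel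
def p13_19_0_242 : pfC (piC [(nat_lit 37297016), (nat_lit 23751559), (nat_lit 15232604)] (nat_lit 19805017)) p13_19_0 (nat_lit 3) (nat_lit 242) (nat_lit 243) = true := by decide +kernel
def p13_19_0_243 : pfC (piC [(nat_lit 37297016), (nat_lit 23751559), (nat_lit 15232604)] (nat_lit 19805017)) p13_19_0 (nat_lit 3) (nat_lit 243) (nat_lit 244) = true := by decide +kernel
def p13_19_0_244 : pfC (piC [(nat_lit 37297016), (nat_lit 23751559), (nat_lit 15232604)] (nat_lit 19805017)) p13_19_0 (nat_lit 3) (nat_lit 244) (nat_lit 245) = true := by decide +kernel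
def p13_19_0_245 : pfC (piC [(nat_lit 37297016), (nat_lit 23751559), (nat_lit 15232604)] (nat_lit 19805017)) p13_19_0 (nat_lit 3) (nat_lit 245) (nat_lit 246) = true := by decide +kernel
def p13_19_0_246 : pfC (piC [(nat_lit 37297016), (nat_lit 23751559), (nat_lit 15232604)] (nat_lit 19805017)) p13_19_0 (nat_lit 3) (nat_lit 246) (nat_lit 247) = true := by decide +kernel
def p13_19_0_247 : pfC (piC [(nat_lit 37297016), (nat_lit 23751559), (nat_lit 15232604)] (nat_lit 19805017)) p13_19_0 (nat_lit 3) (nat_lit 247) (nat_lit 248) = true := by decide +kernel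
def p13_19_0_248 : pfC (piC [(nat_lit 37297016), (nat_lit 23751559), (nat_lit 15232604)] (nat_lit 19805017)) p13_19_0 (nat_lit 3) (nat_lit 248) (nat_lit 249) = true := by decide +kernel
def p13_19_0_249 : pfC (piC [(nat_lit 37297016), (nat_lit 23751559), (nat_lit 15232604)] (nat_lit 19805017)) p13_19_0 (nat_lit 3) (nat_lit 249) (nat_lit 250) = true := by decide +kernel
def p13_19_0_250 : pfC (piC [(nat_lit 37297016), (nat_lit 23751559), (nat_lit 15232604)] (nat_lit 19805017)) p13_19_0 (nat_lit 3) (nat_lit 250) (nat_lit 251) = true := by decide +kernel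
def p13_19_0_251 : pfC (piC [(nat_lit 37297016), (nat_lit 23751559), (nat_lit 15232604)] (nat_lit 19805017)) p13_19_0 (nat_lit 3) (nat_lit 251) (nat_lit 252) = true := by decide +kernel
def p13_19_0_252 : pfC (piC [(nat_lit 37297016), (nat_lit 23751559), (nat_lit 15232604)] (nat_lit 19805017)) p13_19_0 (nat_lit 3) (nat_lit 252) (nat_lit 253) = true := by decide +kernel
def p13_19_0_253 : pfC (piC [(nat_lit 37297016), (nat_lit 23751559), (nat_lit 15232604)] (nat_lit 19805017)) p13_19_0 (nat_lit 3) (nat_lit 253) (nat_lit 254) = true := by decide +kernel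
def p13_19_0_254 : pfC (piC [(nat_lit 37297016), (nat_lit 23751559), (nat_lit 15232604)] (nat_lit 19805017)) p13_19_0 (nat_lit 3) (nat_lit 254) (nat_lit 255) = true := by decide +kernel
def p13_19_0_255 : pfC (piC [(nat_lit 37297016), (nat_lit 23751559), (nat_lit 15232604)] (nat_lit 19805017)) p13_19_0 (nat_lit 3) (nat_lit 255) (nat_lit 256) = true := by decide +kernel
def p13_19_0_256 : pfC (piC [(nat_lit 37297016), (nat_lit 23751559), (nat_lit 15232604)] (nat_lit 19805017)) p13_19_0 (nat_lit 3) (nat_lit 256) (nat_lit 257) = true := by decide +kernel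
def p13_19_0_257 : pfC (piC [(nat_lit 37297016), (nat_lit 23751559), (nat_lit 15232604)] (nat_lit 19805017)) p13_19_0 (nat_lit 3) (nat_lit 257) (nat_lit 258) = true := by decide +kernel
def p13_19_0_258 : pfC (piC [(nat_lit 37297016), (nat_lit 23751559), (nat_lit 15232604)] (nat_lit 19805017)) p13_19_0 (nat_lit 3) (nat_lit 258) (nat_lit 259) = true := by decide +kernel
def p13_19_0_259 : pfC (piC [(nat_lit 37297016), (nat_lit 23751559), (nat_lit 15232604)] (nat_lit 19805017)) p13_19_0 (nat_lit 3) (nat_lit 259) (nat_lit 260) = true := by decide +kernel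
def p13_19_0_260 : pfC (piC [(nat_lit 37297016), (nat_lit 23751559), (nat_lit 15232604)] (nat_lit 19805017)) p13_19_0 (nat_lit 3) (nat_lit 260) (nat_lit 261) = true := by decide +kernel
def p13_19_0_261 : pfC (piC [(nat_lit 37297016), (nat_lit 23751559), (nat_lit 15232604)] (nat_lit 19805017)) p13_19_0 (nat_lit 3) (nat_lit 261) (nat_lit 262) = true := by decide +kernel
def p13_19_0_262 : pfC (piC [(nat_lit 37297016), (nat_lit 23751559), (nat_lit 15232604)] (nat_lit 19805017)) p13_19_0 (nat_lit 3) (nat_lit 262) (nat_lit 263) = true := by decide +kernel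
def p13_19_0_263 : pfC (piC [(nat_lit 37297016), (nat_lit 23751559), (nat_lit 15232604)] (nat_lit 19805017)) p13_19_0 (nat_lit 3) (nat_lit 263) (nat_lit 264) = true := by decide +kernel
def p13_19_0_264 : pfC (piC [(nat_lit 37297016), (nat_lit 23751559), (nat_lit 15232604)] (nat_lit 19805017)) p13_19_0 (nat_lit 3) (nat_lit 264) (nat_lit 265) = true := by decide +kernel
def p13_19_0_265 : pfC (piC [(nat_lit 37297016), (nat_lit 23751559), (nat_lit 15232604)] (nat_lit 19805017)) p13_19_0 (nat_lit 3) (nat_lit 265) (nat_lit 266) = true := by decide +kernel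
def p13_19_0_266 : pfC (piC [(nat_lit 37297016), (nat_lit 23751559), (nat_lit 15232604)] (nat_lit 19805017)) p13_19_0 (nat_lit 3) (nat_lit 266) (nat_lit 267) = true := by decide +kernel
def p13_19_0_267 : pfC (piC [(nat_lit 37297016), (nat_lit 23751559), (nat_lit 15232604)] (nat_lit 19805017)) p13_19_0 (nat_lit 3) (nat_lit 267) (nat_lit 268) = true := by decide +kernel
def p13_19_0_268 : pfC (piC [(nat_lit 37297016), (nat_lit 23751559), (nat_lit 15232604)] (nat_lit 19805017)) p13_19_0 (nat_lit 3) (nat_lit 268) (nat_lit 269) = true := by decide +kernel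
def p13_19_0_269 : pfC (piC [(nat_lit 37297016), (nat_lit 23751559), (nat_lit 15232604)] (nat_lit 19805017)) p13_19_0 (nat_lit 3) (nat_lit 269) (nat_lit 270) = true := by decide +kernel
def p13_19_0_270 : pfC (piC [(nat_lit 37297016), (nat_lit 23751559), (nat_lit 15232604)] (nat_lit 19805017)) p13_19_0 (nat_lit 3) (nat_lit 270) (nat_lit 271) = true := by decide +kernel
def p13_19_0_271 : pfC (piC [(nat_lit 37297016), (nat_lit 23751559), (nat_lit 15232604)] (nat_lit 19805017)) p13_19_0 (nat_lit 3) (nat_lit 271) (nat_lit 272) = true := by decide +kernel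
def p13_19_0_272 : pfC (piC [(nat_lit 37297016), (nat_lit 23751559), (nat_lit 15232604)] (nat_lit 19805017)) p13_19_0 (nat_lit 3) (nat_lit 272) (nat_lit 273) = true := by decide +kernel
def p13_19_0_273 : pfC (piC [(nat_lit 37297016), (nat_lit 23751559), (nat_lit 15232604)] (nat_lit 19805017)) p13_19_0 (nat_lit 3) (nat_lit 273) (nat_lit 274) = true := by decide +kernel
def p13_19_0_274 : pfC (piC [(nat_lit 37297016), (nat_lit 23751559), (nat_lit 15232604)] (nat_lit 19805017)) p13_19_0 (nat_lit 3) (nat_lit 274) (nat_lit 275) = true := by decide +kernel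
def p13_19_0_275 : pfC (piC [(nat_lit 37297016), (nat_lit 23751559), (nat_lit 15232604)] (nat_lit 19805017)) p13_19_0 (nat_lit 3) (nat_lit 275) (nat_lit 276) = true := by decide +kernel
def p13_19_0_276 : pfC (piC [(nat_lit 37297016), (nat_lit 23751559), (nat_lit 15232604)] (nat_lit 19805017)) p13_19_0 (nat_lit 3) (nat_lit 276) (nat_lit 277) = true := by decide +kernel
def p13_19_0_277 : pfC (piC [(nat_lit 37297016), (nat_lit 23751559), (nat_lit 15232604)] (nat_lit 19805017)) p13_19_0 (nat_lit 3) (nat_lit 277) (nat_lit 278) = true := by decide +kernel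
def p13_19_0_278 : pfC (piC [(nat_lit 37297016), (nat_lit 23751559), (nat_lit 15232604)] (nat_lit 19805017)) p13_19_0 (nat_lit 3) (nat_lit 278) (nat_lit 279) = true := by decide +kernel
def p13_19_0_279 : pfC (piC [(nat_lit 37297016), (nat_lit 23751559), (nat_lit 15232604)] (nat_lit 19805017)) p13_19_0 (nat_lit 3) (nat_lit 279) (nat_lit 280) = true := by decide +kernel
theorem p13_19_0_T : PfS (PiF n13_19.reverse (nat_lit 19805017)) p13_19_0 (nat_lit 3) [] 0 :=
  pftab_of (los := [(nat_lit 37297016), (nat_lit 23751559), (nat_lit 15232604)]) (by decide +kernel) (hi := (nat_lit 280)) (PfP.trans (PfP.trans (PfP.trans (PfP.trans (PfP.trans (PfP.trans (PfP.trans (PfP.trans (PfP.trans (PfP.trans (PfP.trans (PfP.trans (PfP.trans (PfP.trans (PfP.trans (PfP.trans (PfP.trans (PfP.trans (PfP.trans (PfP.trans (PfP.trans (PfP.trans (PfP.trans (PfP.trans (PfP.trans (PfP.trans (PfP.trans (PfP.trans (PfP.trans (PfP.trans (PfP.trans (PfP.trans (PfP.trans (PfP.trans (PfP.trans (PfP.trans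 (PfP.trans (PfP.trans (PfP.trans (PfP.trans (PfP.trans (PfP.trans (PfP.trans (PfP.trans (PfP.trans (PfP.trans (PfP.trans (PfP.trans (PfP.trans (PfP.trans (PfP.trans (PfP.trans (PfP.trans (PfP.trans (PfP.trans (PfP.trans (PfP.trans (PfP.trans (PfP.trans (PfP.trans (PfP.trans (PfP.trans (PfP.trans (PfP.trans (PfP.trans (PfP.trans (PfP.trans (PfP.trans (PfP.trans (PfP.trans (PfP.trans (PfP.trans (PfP.trans (PfP.trans (PfP.trans (PfP.trans (PfP.trans (PfP.trans (PfP.trans (PfP.trans (PfP.trans (PfP.trans (PfP.trans (PfP.trans (PfP.trans (PfP.trans (PfP.trans (PfP.trans (PfP.trans (PfP.trans (PfP.trans (PfP.trans (PfP.trans (PfP.trans (PfP.trans (PfP.trans (PfP.trans (PfP.trans (PfP.trans (PfP.trans (PfP.trans (PfP.trans (PfP.trans (PfP.trans (PfP.trans (PfP.trans (PfP.trans (PfP.trans (PfP.trans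
 (PfP.trans (PfP.trans (PfP.trans (PfP.trans (PfP.trans (PfP.trans (PfP.trans (PfP.trans (PfP.trans (PfP.trans (PfP.trans (PfP.trans (PfP.trans (PfP.trans (PfP.trans (PfP.trans (PfP.trans (PfP.trans (PfP.trans (PfP.trans (PfP.trans (PfP.trans (PfP.trans (PfP.trans (PfP.trans (PfP.trans (PfP.trans (PfP.trans (PfP.trans (PfP.trans (PfP.trans (PfP.trans (PfP.trans (PfP.trans (PfP.trans (PfP.trans (PfP.trans (PfP.trans (PfP.trans (PfP.trans (PfP.trans (PfP.trans (PfP.trans (PfP.trans (PfP.trans (PfP.trans (PfP.trans (PfP.trans (PfP.trans (PfP.trans (PfP.trans (PfP.trans (PfP.trans (PfP.trans (PfP.trans (PfP.trans (PfP.trans (PfP.trans (PfP.trans (PfP.trans (PfP.trans (PfP.trans (PfP.trans (PfP.trans (PfP.trans (PfP.trans (PfP.trans (PfP.trans (PfP.trans (PfP.trans (PfP.trans (PfP.trans (PfP.trans (PfP.trans (PfP.trans (PfP.trans (PfP.trans (PfP.trans (PfP.trans (PfP.trans (PfP.trans (PfP.trans (PfP.trans (PfP.trans (PfP.trans (PfP.trans (PfP.trans (PfP.trans (PfP.trans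 (PfP.trans (PfP.trans (PfP.trans (PfP.trans (PfP.trans (PfP.trans (PfP.trans (PfP.trans (PfP.trans (PfP.trans (PfP.trans (PfP.trans (PfP.trans (PfP.trans (PfP.trans (PfP.trans (PfP.trans (PfP.trans (PfP.trans (PfP.trans
 (PfP.trans (PfP.trans (PfP.trans (PfP.trans (PfP.trans (PfP.trans (PfP.trans (PfP.trans (PfP.trans (PfP.trans (PfP.trans (PfP.trans (PfP.trans (PfP.trans (PfP.trans (PfP.trans (PfP.trans (PfP.trans (PfP.trans (PfP.trans (PfP.trans (PfP.trans (PfP.trans (PfP.trans (PfP.trans (PfP.trans (PfP.trans (PfP.trans (PfP.trans (PfP.trans (PfP.trans (PfP.trans (PfP.trans (PfP.trans (PfP.trans (PfP.trans (PfP.trans (PfP.trans (PfP.trans (PfP.trans (PfP.trans (PfP.trans (PfP.trans (PfP.trans (PfP.trans (PfP.trans (PfP.trans (PfP.trans (PfP.trans (PfP.trans (PfP.trans (PfP.trans (PfP.trans (PfP.trans (PfP.trans (PfP.trans (PfP.trans (PfP.trans (PfP.trans (PfP.trans (PfP.trans (pfC_sound p13_19_0_0) (pfC_sound p13_19_0_1)) (pfC_sound p13_19_0_2)) (pfC_sound p13_19_0_3))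 (pfC_sound p13_19_0_4)) (pfC_sound p13_19_0_5)) (pfC_sound p13_19_0_6)) (pfC_sound p13_19_0_7)) (pfC_sound p13_19_0_8)) (pfC_sound p13_19_0_9)) (pfC_sound p13_19_0_10)) (pfC_sound p13_19_0_11)) (pfC_sound p13_19_0_12)) (pfC_sound p13_19_0_13)) (pfC_sound p13_19_0_14)) (pfC_sound p13_19_0_15)) (pfC_sound p13_19_0_16)) (pfC_sound p13_19_0_17)) (pfC_sound p13_19_0_18)) (pfC_sound p13_19_0_19)) (pfC_sound p13_19_0_20)) (pfC_sound
 p13_19_0_21)) (pfC_sound p13_19_0_22)) (pfC_sound p13_19_0_23)) (pfC_sound p13_19_0_24)) (pfC_sound p13_19_0_25)) (pfC_sound p13_19_0_26)) (pfC_sound p13_19_0_27)) (pfC_sound p13_19_0_28)) (pfC_sound p13_19_0_29)) (pfC_sound p13_19_0_30)) (pfC_sound p13_19_0_31)) (pfC_sound p13_19_0_32)) (pfC_sound p13_19_0_33)) (pfC_sound p13_19_0_34)) (pfC_sound p13_19_0_35)) (pfC_sound p13_19_0_36)) (pfC_sound p13_19_0_37)) (pfC_sound p13_19_0_38)) (pfC_sound p13_19_0_39)) (pfC_sound p13_19_0_40)) (pfC_sound p13_19_0_41)) (pfC_sound p13_19_0_42)) (pfC_sound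 p13_19_0_43)) (pfC_sound p13_19_0_44)) (pfC_sound p13_19_0_45)) (pfC_sound p13_19_0_46)) (pfC_sound p13_19_0_47)) (pfC_sound p13_19_0_48)) (pfC_sound p13_19_0_49)) (pfC_sound p13_19_0_50)) (pfC_sound p13_19_0_51)) (pfC_sound p13_19_0_52)) (pfC_sound p13_19_0_53)) (pfC_sound p13_19_0_54)) (pfC_sound p13_19_0_55)) (pfC_sound p13_19_0_56)) (pfC_sound p13_19_0_57)) (pfC_sound p13_19_0_58)) (pfC_sound p13_19_0_59)) (pfC_sound p13_19_0_60)) (pfC_sound p13_19_0_61)) (pfC_sound p13_19_0_62)) (pfC_sound p13_19_0_63)) (pfC_sound p13_19_0_64)) (pfC_sound p13_19_0_65)) (pfC_sound p13_19_0_66)) (pfC_sound p13_19_0_67)) (pfC_sound p13_19_0_68)) (pfC_sound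
 p13_19_0_69)) (pfC_sound p13_19_0_70)) (pfC_sound p13_19_0_71)) (pfC_sound p13_19_0_72)) (pfC_sound p13_19_0_73)) (pfC_sound p13_19_0_74)) (pfC_sound p13_19_0_75)) (pfC_sound p13_19_0_76)) (pfC_sound p13_19_0_77)) (pfC_sound p13_19_0_78)) (pfC_sound p13_19_0_79)) (pfC_sound p13_19_0_80)) (pfC_sound p13_19_0_81)) (pfC_sound p13_19_0_82)) (pfC_sound p13_19_0_83)) (pfC_sound p13_19_0_84)) (pfC_sound p13_19_0_85)) (pfC_sound p13_19_0_86)) (pfC_sound p13_19_0_87)) (pfC_sound p13_19_0_88)) (pfC_sound p13_19_0_89)) (pfC_sound p13_19_0_90)) (pfC_sound p13_19_0_91)) (pfC_sound p13_19_0_92)) (pfC_sound p13_19_0_93)) (pfC_sound p13_19_0_94)) (pfC_sound p13_19_0_95)) (pfC_sound p13_19_0_96)) (pfC_sound p13_19_0_97)) (pfC_sound p13_19_0_98)) (pfC_sound p13_19_0_99)) (pfC_sound p13_19_0_100)) (pfC_sound p13_19_0_101)) (pfC_sound p13_19_0_102)) (pfC_sound p13_19_0_103)) (pfC_sound p13_19_0_104)) (pfC_sound p13_19_0_105)) (pfC_sound p13_19_0_106)) (pfC_sound p13_19_0_107)) (pfC_sound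 p13_19_0_108)) (pfC_sound p13_19_0_109)) (pfC_sound p13_19_0_110)) (pfC_sound p13_19_0_111)) (pfC_sound p13_19_0_112)) (pfC_sound p13_19_0_113)) (pfC_sound p13_19_0_114)) (pfC_sound p13_19_0_115)) (pfC_sound
 p13_19_0_116)) (pfC_sound p13_19_0_117)) (pfC_sound p13_19_0_118)) (pfC_sound p13_19_0_119)) (pfC_sound p13_19_0_120)) (pfC_sound p13_19_0_121)) (pfC_sound p13_19_0_122)) (pfC_sound p13_19_0_123)) (pfC_sound p13_19_0_124)) (pfC_sound p13_19_0_125)) (pfC_sound p13_19_0_126)) (pfC_sound p13_19_0_127)) (pfC_sound p13_19_0_128)) (pfC_sound p13_19_0_129)) (pfC_sound p13_19_0_130)) (pfC_sound p13_19_0_131)) (pfC_sound p13_19_0_132)) (pfC_sound p13_19_0_133)) (pfC_sound p13_19_0_134)) (pfC_sound p13_19_0_135)) (pfC_sound p13_19_0_136)) (pfC_sound p13_19_0_137)) (pfC_sound p13_19_0_138)) (pfC_sound p13_19_0_139)) (pfC_sound p13_19_0_140)) (pfC_sound p13_19_0_141)) (pfC_sound p13_19_0_142)) (pfC_sound p13_19_0_143)) (pfC_sound p13_19_0_144)) (pfC_sound p13_19_0_145)) (pfC_sound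 p13_19_0_146)) (pfC_sound p13_19_0_147)) (pfC_sound p13_19_0_148)) (pfC_sound p13_19_0_149)) (pfC_sound p13_19_0_150)) (pfC_sound p13_19_0_151)) (pfC_sound p13_19_0_152)) (pfC_sound p13_19_0_153)) (pfC_sound p13_19_0_154)) (pfC_sound p13_19_0_155)) (pfC_sound p13_19_0_156)) (pfC_sound p13_19_0_157)) (pfC_sound p13_19_0_158)) (pfC_sound p13_19_0_159)) (pfC_sound p13_19_0_160)) (pfC_sound p13_19_0_161)) (pfC_sound
 p13_19_0_162)) (pfC_sound p13_19_0_163)) (pfC_sound p13_19_0_164)) (pfC_sound p13_19_0_165)) (pfC_sound p13_19_0_166)) (pfC_sound p13_19_0_167)) (pfC_sound p13_19_0_168)) (pfC_sound p13_19_0_169)) (pfC_sound p13_19_0_170)) (pfC_sound p13_19_0_171)) (pfC_sound p13_19_0_172)) (pfC_sound p13_19_0_173)) (pfC_sound p13_19_0_174)) (pfC_sound p13_19_0_175)) (pfC_sound p13_19_0_176)) (pfC_sound p13_19_0_177)) (pfC_sound p13_19_0_178)) (pfC_sound p13_19_0_179)) (pfC_sound p13_19_0_180)) (pfC_sound p13_19_0_181)) (pfC_sound p13_19_0_182)) (pfC_sound p13_19_0_183)) (pfC_sound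 p13_19_0_184)) (pfC_sound p13_19_0_185)) (pfC_sound p13_19_0_186)) (pfC_sound p13_19_0_187)) (pfC_sound p13_19_0_188)) (pfC_sound p13_19_0_189)) (pfC_sound p13_19_0_190)) (pfC_sound p13_19_0_191)) (pfC_sound p13_19_0_192)) (pfC_sound p13_19_0_193)) (pfC_sound p13_19_0_194)) (pfC_sound p13_19_0_195)) (pfC_sound p13_19_0_196)) (pfC_sound p13_19_0_197)) (pfC_sound p13_19_0_198)) (pfC_sound p13_19_0_199)) (pfC_sound p13_19_0_200)) (pfC_sound p13_19_0_201)) (pfC_sound p13_19_0_202)) (pfC_sound p13_19_0_203)) (pfC_sound p13_19_0_204)) (pfC_sound p13_19_0_205)) (pfC_sound p13_19_0_206)) (pfC_sound p13_19_0_207)) (pfC_sound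
 p13_19_0_208)) (pfC_sound p13_19_0_209)) (pfC_sound p13_19_0_210)) (pfC_sound p13_19_0_211)) (pfC_sound p13_19_0_212)) (pfC_sound p13_19_0_213)) (pfC_sound p13_19_0_214)) (pfC_sound p13_19_0_215)) (pfC_sound p13_19_0_216)) (pfC_sound p13_19_0_217)) (pfC_sound p13_19_0_218)) (pfC_sound p13_19_0_219)) (pfC_sound p13_19_0_220)) (pfC_sound p13_19_0_221)) (pfC_sound p13_19_0_222)) (pfC_sound p13_19_0_223)) (pfC_sound p13_19_0_224)) (pfC_sound p13_19_0_225)) (pfC_sound p13_19_0_226)) (pfC_sound p13_19_0_227)) (pfC_sound p13_19_0_228)) (pfC_sound p13_19_0_229)) (pfC_sound p13_19_0_230)) (pfC_sound p13_19_0_231)) (pfC_sound p13_19_0_232)) (pfC_sound p13_19_0_233)) (pfC_sound p13_19_0_234)) (pfC_sound p13_19_0_235)) (pfC_sound p13_19_0_236)) (pfC_sound p13_19_0_237)) (pfC_sound p13_19_0_238)) (pfC_sound p13_19_0_239)) (pfC_sound p13_19_0_240)) (pfC_sound p13_19_0_241)) (pfC_sound p13_19_0_242)) (pfC_sound p13_19_0_243)) (pfC_sound p13_19_0_244)) (pfC_sound p13_19_0_245)) (pfC_sound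 p13_19_0_246)) (pfC_sound p13_19_0_247)) (pfC_sound p13_19_0_248)) (pfC_sound p13_19_0_249)) (pfC_sound p13_19_0_250)) (pfC_sound p13_19_0_251)) (pfC_sound p13_19_0_252)) (pfC_sound p13_19_0_253)) (pfC_sound
 p13_19_0_254)) (pfC_sound p13_19_0_255)) (pfC_sound p13_19_0_256)) (pfC_sound p13_19_0_257)) (pfC_sound p13_19_0_258)) (pfC_sound p13_19_0_259)) (pfC_sound p13_19_0_260)) (pfC_sound p13_19_0_261)) (pfC_sound p13_19_0_262)) (pfC_sound p13_19_0_263)) (pfC_sound p13_19_0_264)) (pfC_sound p13_19_0_265)) (pfC_sound p13_19_0_266)) (pfC_sound p13_19_0_267)) (pfC_sound p13_19_0_268)) (pfC_sound p13_19_0_269)) (pfC_sound p13_19_0_270)) (pfC_sound p13_19_0_271)) (pfC_sound p13_19_0_272)) (pfC_sound p13_19_0_273)) (pfC_sound p13_19_0_274)) (pfC_sound p13_19_0_275)) (pfC_sound p13_19_0_276)) (pfC_sound p13_19_0_277)) (pfC_sound p13_19_0_278)) (pfC_sound p13_19_0_279)) (by decide +kernel)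

def z13_19_0 : zOK yB13_19 (nat_lit 0) (nat_lit 0) (nat_lit 400) (nat_lit 19805017) (nat_lit 11488537) = true := by decide +kernel
def g13_19_0 : gOK yB13_19.x P13_19 (nat_lit 1378) (q13_19 :: r13_19) (nat_lit 0) (nat_lit 0) (nat_lit 1) (nat_lit 400) (nat_lit 0) (nat_lit 11000000) (nat_lit 12712500) (nat_lit 12712500) [(nat_lit 800), (nat_lit 1600)] = true := by decide +kernel
def v13_19_0 : ivC P13_19 s13_19 w13_19 n13_19 (nat_lit 3) (nat_lit 5280) (nat_lit 0) (nat_lit 0) f184_0_0 f192_0_0 (nat_lit 1) (nat_lit 400) f184_0_400 f192_0_400 (nat_lit 19805017) (nat_lit 11488537) p13_19_0 = true := by decide +kernel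
def p13_19_1 : PF := (PF.cons (PF.cons (PF.cons (PF.leaf (nat_lit 1951465) (nat_lit 8862724) (nat_lit 58246088) (nat_lit 8862724) [(nat_lit 0), (nat_lit 0), (nat_lit 0)]) (PF.cons (PF.leaf (nat_lit 2156963) (nat_lit 362557) (nat_lit 57845175) (nat_lit 8901080) [(nat_lit 362557), (nat_lit 0), (nat_lit 0)]) (PF.cons (PF.leaf (nat_lit 2399627) (nat_lit 394987) (nat_lit 57376758) (nat_lit 8942079) [(nat_lit 394987), (nat_lit 0), (nat_lit 0)]) (PF.cons (PF.leaf (nat_lit 2672466) (nat_lit 423898) (nat_lit 56853807) (nat_lit 8983309) [(nat_lit 423898), (nat_lit 0), (nat_lit 0)]) (PF.cons (PF.leaf (nat_lit 2971127) (nat_lit 450031) (nat_lit 56285685) (nat_lit 9023001) [(nat_lit 450031), (nat_lit 0), (nat_lit 0)]) (PF.cons (PF.leaf (nat_lit 3292179) (nat_lit 473844) (nat_lit 55679754) (nat_lit 9059835) [(nat_lit 473844), (nat_lit 0), (nat_lit 0)]) (PF.cons (PF.leaf (nat_lit 3632742) (nat_lit 495645) (nat_lit 55042114) (nat_lit 9092826) [(nat_lit 495645), (nat_lit 0), (nat_lit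 0)]) (PF.cons (PF.leaf (nat_lit 3990287) (nat_lit 515652) (nat_lit 54377993) (nat_lit 9121251) [(nat_lit 515652), (nat_lit 0), (nat_lit 0)]) (PF.cons (PF.leaf (nat_lit 4362651) (nat_lit 534030) (nat_lit 53691966) (nat_lit 9144605)
 [(nat_lit 534030), (nat_lit 0), (nat_lit 0)]) (PF.cons (PF.leaf (nat_lit 4747779) (nat_lit 550907) (nat_lit 52988090) (nat_lit 9162554) [(nat_lit 550907), (nat_lit 0), (nat_lit 0)]) (PF.cons (PF.leaf (nat_lit 5143847) (nat_lit 566391) (nat_lit 52269995) (nat_lit 9174906) [(nat_lit 566391), (nat_lit 0), (nat_lit 0)]) (PF.cons (PF.leaf (nat_lit 5549173) (nat_lit 580571) (nat_lit 51540940) (nat_lit 9181585) [(nat_lit 580571), (nat_lit 0), (nat_lit 0)]) (PF.cons (PF.leaf (nat_lit 5962244) (nat_lit 593529) (nat_lit 50803857) (nat_lit 9182607) [(nat_lit 593529), (nat_lit 0), (nat_lit 0)]) (PF.cons (PF.leaf (nat_lit 6381573) (nat_lit 605335) (nat_lit 50061385) (nat_lit 9178061) [(nat_lit 605335), (nat_lit 0), (nat_lit 0)]) (PF.cons (PF.leaf (nat_lit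 6805930) (nat_lit 616058) (nat_lit 49315895) (nat_lit 9168098) [(nat_lit 616058), (nat_lit 0), (nat_lit 0)]) (PF.cons PF.nil (PF.cons PF.nil (PF.cons PF.nil PF.nil)))))))))))))))))) (PF.cons (PF.cons (PF.leaf (nat_lit 2723693) (nat_lit 1931722) (nat_lit 56162284) (nat_lit 9014806) [(nat_lit 0), (nat_lit 1931722), (nat_lit 0)]) (PF.cons (PF.leaf (nat_lit 2991370) (nat_lit 443956) (nat_lit 55642751) (nat_lit 9045977) [(nat_lit 443956), (nat_lit
 1976128), (nat_lit 0)]) (PF.cons (PF.leaf (nat_lit 3286596) (nat_lit 468649) (nat_lit 55076448) (nat_lit 9075511) [(nat_lit 468649), (nat_lit 2019552), (nat_lit 0)]) (PF.cons (PF.leaf (nat_lit 3604522) (nat_lit 490985) (nat_lit 54472543) (nat_lit 9102163) [(nat_lit 490985), (nat_lit 2061149), (nat_lit 0)]) (PF.cons (PF.leaf (nat_lit 3941853) (nat_lit 511324) (nat_lit 53838026) (nat_lit 9125046) [(nat_lit 511324), (nat_lit 2100442), (nat_lit 0)]) (PF.cons (PF.leaf (nat_lit 4295808) (nat_lit 529908) (nat_lit 53178562) (nat_lit 9143543)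 [(nat_lit 529908), (nat_lit 2137164), (nat_lit 0)]) (PF.cons (PF.leaf (nat_lit 4664056) (nat_lit 546913) (nat_lit 52498916) (nat_lit 9157234) [(nat_lit 546913), (nat_lit 2171178), (nat_lit 0)]) (PF.cons (PF.leaf (nat_lit 5044541) (nat_lit 562476) (nat_lit 51803192) (nat_lit 9165860) [(nat_lit 562476), (nat_lit 2202426), (nat_lit 0)]) (PF.cons (PF.leaf (nat_lit 5435404) (nat_lit 576704) (nat_lit 51094982) (nat_lit 9169286) [(nat_lit 576704), (nat_lit 2230906), (nat_lit 0)]) (PF.cons (PF.leaf (nat_lit 5834962) (nat_lit 589691) (nat_lit 50377456) (nat_lit 9167481) [(nat_lit 589691), (nat_lit 2256655), (nat_lit 0)]) (PF.cons (PF.leaf (nat_lit 6241755)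
 (nat_lit 601515) (nat_lit 49653426) (nat_lit 9160491) [(nat_lit 601515), (nat_lit 2279736), (nat_lit 0)]) (PF.cons (PF.leaf (nat_lit 6654351) (nat_lit 612251) (nat_lit 48925392) (nat_lit 9148425) [(nat_lit 612251), (nat_lit 2300229), (nat_lit 0)]) (PF.cons (PF.leaf (nat_lit 7071507) (nat_lit 621963) (nat_lit 48195580) (nat_lit 9131442) [(nat_lit 621963), (nat_lit 2318230), (nat_lit 0)]) (PF.cons PF.nil (PF.cons PF.nil (PF.cons PF.nil PF.nil)))))))))))))))) (PF.cons (PF.cons (PF.leaf (nat_lit 3602595) (nat_lit 2074106) (nat_lit 53850834) (nat_lit 9109765) [(nat_lit 0), (nat_lit 2074106), (nat_lit 0)]) (PF.cons (PF.leaf (nat_lit 3914200) (nat_lit 505112) (nat_lit 53257405) (nat_lit 9127022) [(nat_lit 505112), (nat_lit 2109636), (nat_lit 0)]) (PF.cons (PF.leaf (nat_lit 4246193) (nat_lit 524329) (nat_lit 52632717) (nat_lit 9140682) [(nat_lit 524329), (nat_lit 2143377), (nat_lit 0)]) (PF.cons (PF.leaf (nat_lit 4594948) (nat_lit 541759) (nat_lit 51983399) (nat_lit 9150192)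 [(nat_lit 541759), (nat_lit 2174971), (nat_lit 0)]) (PF.cons (PF.leaf (nat_lit 4957857) (nat_lit 557616) (nat_lit 51314708) (nat_lit 9155194) [(nat_lit 557616), (nat_lit 2204222), (nat_lit 0)]) (PF.cons (PF.leaf
 (nat_lit 5332712) (nat_lit 572053) (nat_lit 50630986) (nat_lit 9155484) [(nat_lit 572053), (nat_lit 2231037), (nat_lit 0)]) (PF.cons (PF.leaf (nat_lit 5717614) (nat_lit 585193) (nat_lit 49935914) (nat_lit 9150969) [(nat_lit 585193), (nat_lit 2255384), (nat_lit 0)]) (PF.cons (PF.leaf (nat_lit 6110838) (nat_lit 597134) (nat_lit 49232663) (nat_lit 9141649) [(nat_lit 597134), (nat_lit 2277279), (nat_lit 0)]) (PF.cons (PF.leaf (nat_lit 6510918) (nat_lit 607961) (nat_lit 48523994) (nat_lit 9127591) [(nat_lit 607961), (nat_lit 2296767), (nat_lit 0)]) (PF.cons (PF.leaf (nat_lit 6916467) (nat_lit 617748) (nat_lit 47812326) (nat_lit 9108917) [(nat_lit 617748), (nat_lit 2313915), (nat_lit 0)]) (PF.cons (PF.leaf (nat_lit 7326267) (nat_lit 626562) (nat_lit 47099784) (nat_lit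 9085793) [(nat_lit 626562), (nat_lit 2328804), (nat_lit 0)]) (PF.cons PF.nil (PF.cons PF.nil (PF.cons PF.nil PF.nil)))))))))))))) (PF.cons (PF.cons (PF.leaf (nat_lit 4547274) (nat_lit 2179297) (nat_lit 51429772) (nat_lit 9141147) [(nat_lit 0), (nat_lit 2179297), (nat_lit 0)]) (PF.cons (PF.leaf (nat_lit 4888690) (nat_lit 551393) (nat_lit 50795927) (nat_lit 9142647) [(nat_lit 551393), (nat_lit 2206281), (nat_lit 0)])
 (PF.cons (PF.leaf (nat_lit 5244900) (nat_lit 566316) (nat_lit 50142460) (nat_lit 9139938) [(nat_lit 566316), (nat_lit 2231260), (nat_lit 0)]) (PF.cons (PF.leaf (nat_lit 5613107) (nat_lit 579810) (nat_lit 49474226) (nat_lit 9132856) [(nat_lit 579810), (nat_lit 2254099), (nat_lit 0)]) (PF.cons (PF.leaf (nat_lit 5991261) (nat_lit 592018) (nat_lit 48795164) (nat_lit 9121345) [(nat_lit 592018), (nat_lit 2274743), (nat_lit 0)]) (PF.cons (PF.leaf (nat_lit 6377575) (nat_lit 603053) (nat_lit 48108562) (nat_lit 9105426) [(nat_lit 603053), (nat_lit 2293185), (nat_lit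 0)]) (PF.cons (PF.leaf (nat_lit 6770509) (nat_lit 613007) (nat_lit 47417211) (nat_lit 9085185) [(nat_lit 613007), (nat_lit 2309456), (nat_lit 0)]) (PF.cons (PF.leaf (nat_lit 7168707) (nat_lit 621960) (nat_lit 46723507) (nat_lit 9060752) [(nat_lit 621960), (nat_lit 2323609), (nat_lit 0)]) (PF.cons (PF.leaf (nat_lit 7570954) (nat_lit 629981) (nat_lit 46029523) (nat_lit 9032293) [(nat_lit 629981), (nat_lit 2335714), (nat_lit 0)]) (PF.cons PF.nil (PF.cons PF.nil (PF.cons PF.nil PF.nil)))))))))))) (PF.cons (PF.cons (PF.leaf (nat_lit 5526483) (nat_lit 2252949) (nat_lit 48984228) (nat_lit 9112786) [(nat_lit 0), (nat_lit 2252949),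
 (nat_lit 0)]) (PF.cons (PF.leaf (nat_lit 5886629) (nat_lit 585880) (nat_lit 48334795) (nat_lit 9099275) [(nat_lit 585880), (nat_lit 2272215), (nat_lit 0)]) (PF.cons (PF.leaf (nat_lit 6257185) (nat_lit 597312) (nat_lit 47674376) (nat_lit 9081672) [(nat_lit 597312), (nat_lit 2289534), (nat_lit 0)]) (PF.cons (PF.leaf (nat_lit 6635973) (nat_lit 607576) (nat_lit 47006532) (nat_lit 9060022) [(nat_lit 607576), (nat_lit 2304882), (nat_lit 0)]) (PF.cons (PF.leaf (nat_lit 7021344) (nat_lit 616777) (nat_lit 46334187) (nat_lit 9034425) [(nat_lit 616777), (nat_lit 2318272), (nat_lit 0)]) (PF.cons (PF.leaf (nat_lit 7411902) (nat_lit 625003) (nat_lit 45659789) (nat_lit 9005017) [(nat_lit 625003), (nat_lit 2329747), (nat_lit 0)]) (PF.cons (PF.leaf (nat_lit 7806412) (nat_lit 632329) (nat_lit 44985414) (nat_lit 8971965) [(nat_lit 632329), (nat_lit 2339364), (nat_lit 0)]) (PF.cons (PF.leaf (nat_lit 8203780) (nat_lit 638820) (nat_lit 44312832) (nat_lit 8935456) [(nat_lit 638820), (nat_lit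 2347194), (nat_lit 0)]) (PF.cons PF.nil (PF.cons PF.nil PF.nil)))))))))) (PF.cons (PF.cons (PF.leaf (nat_lit 6516593) (nat_lit 2300245) (nat_lit 46574510) (nat_lit 9033076) [(nat_lit 0), (nat_lit 2300245), (nat_lit
 0)]) (PF.cons (PF.leaf (nat_lit 6886905) (nat_lit 610807) (nat_lit 45927384) (nat_lit 9006517) [(nat_lit 610807), (nat_lit 2312820), (nat_lit 0)]) (PF.cons (PF.leaf (nat_lit 7264227) (nat_lit 619373) (nat_lit 45275556) (nat_lit 8976337) [(nat_lit 619373), (nat_lit 2323634), (nat_lit 0)]) (PF.cons (PF.leaf (nat_lit 7646813) (nat_lit 626976) (nat_lit 44621623) (nat_lit 8942682) [(nat_lit 626976), (nat_lit 2332715), (nat_lit 0)]) (PF.cons (PF.leaf (nat_lit 8033386) (nat_lit 633701) (nat_lit 43967726) (nat_lit 8905722) [(nat_lit 633701), (nat_lit 2340111), (nat_lit 0)]) (PF.cons (PF.leaf (nat_lit 8422832) (nat_lit 639617) (nat_lit 43315661) (nat_lit 8865639) [(nat_lit 639617), (nat_lit 2345885), (nat_lit 0)]) (PF.cons PF.nil (PF.cons PF.nil PF.nil)))))))) (PF.cons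 (PF.cons (PF.leaf (nat_lit 7500263) (nat_lit 2325911) (nat_lit 44241516) (nat_lit 8911828) [(nat_lit 0), (nat_lit 2325911), (nat_lit 0)]) (PF.cons (PF.leaf (nat_lit 7874271) (nat_lit 627965) (nat_lit 43609094) (nat_lit 8874605) [(nat_lit 627965), (nat_lit 2332857), (nat_lit 0)]) (PF.cons (PF.leaf (nat_lit 8252667) (nat_lit 634179) (nat_lit 42976427) (nat_lit 8834367) [(nat_lit 634179), (nat_lit 2338276), (nat_lit 0)])
 (PF.cons (PF.leaf (nat_lit 8634050) (nat_lit 639601) (nat_lit 42345389) (nat_lit 8791298) [(nat_lit 639601), (nat_lit 2342220), (nat_lit 0)]) (PF.cons PF.nil (PF.cons PF.nil PF.nil)))))) (PF.cons (PF.cons (PF.leaf (nat_lit 8465268) (nat_lit 2334142) (nat_lit 42011207) (nat_lit 8758608) [(nat_lit 0), (nat_lit 2334142), (nat_lit 0)]) (PF.cons (PF.leaf (nat_lit 8838194) (nat_lit 638839) (nat_lit 41401639) (nat_lit 8713093) [(nat_lit 638839), (nat_lit 2336462), (nat_lit 0)]) (PF.cons (PF.leaf (nat_lit 9213523) (nat_lit 643133) (nat_lit 40794888) (nat_lit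 8665183) [(nat_lit 643133), (nat_lit 2337496), (nat_lit 0)]) (PF.cons PF.nil PF.nil)))) (PF.cons (PF.cons (PF.leaf (nat_lit 9403396) (nat_lit 2328559) (nat_lit 39898393) (nat_lit 8581947) [(nat_lit 0), (nat_lit 2328559), (nat_lit 0)]) (PF.cons PF.nil PF.nil)) (PF.cons PF.nil (PF.cons PF.nil PF.nil))))))))))) (PF.cons (PF.cons (PF.cons (PF.leaf (nat_lit 3731173) (nat_lit 6507344) (nat_lit 51565447) (nat_lit 9036021) [(nat_lit 0), (nat_lit 0), (nat_lit 6507344)]) (PF.cons (PF.leaf (nat_lit 4006903) (nat_lit 480069) (nat_lit 51058575) (nat_lit 9042439) [(nat_lit 480069), (nat_lit 0), (nat_lit 6527728)]) (PF.cons (PF.leaf (nat_lit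
 4307559) (nat_lit 502199) (nat_lit 50511759) (nat_lit 9046138) [(nat_lit 502199), (nat_lit 0), (nat_lit 6546515)]) (PF.cons (PF.leaf (nat_lit 4628055) (nat_lit 521686) (nat_lit 49934250) (nat_lit 9046555) [(nat_lit 521686), (nat_lit 0), (nat_lit 6562948)]) (PF.cons (PF.leaf (nat_lit 4964969) (nat_lit 539020) (nat_lit 49332882) (nat_lit 9043319) [(nat_lit 539020), (nat_lit 0), (nat_lit 6576528)]) (PF.cons (PF.leaf (nat_lit 5315589) (nat_lit 554533) (nat_lit 48713002) (nat_lit 9036203) [(nat_lit 554533), (nat_lit 0), (nat_lit 6586939)]) (PF.cons (PF.leaf (nat_lit 5677664) (nat_lit 568463) (nat_lit 48078953) (nat_lit 9025087) [(nat_lit 568463), (nat_lit 0), (nat_lit 6593992)]) (PF.cons (PF.leaf (nat_lit 6049262) (nat_lit 580989) (nat_lit 47434356) (nat_lit 9009936) [(nat_lit 580989), (nat_lit 0), (nat_lit 6597593)]) (PF.cons (PF.leaf (nat_lit 6428767) (nat_lit 592253) (nat_lit 46782282) (nat_lit 8990783) [(nat_lit 592253), (nat_lit 0), (nat_lit 6597722)]) (PF.cons (PF.leaf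 (nat_lit 6814676) (nat_lit 602369) (nat_lit 46125361) (nat_lit 8967709) [(nat_lit 602369), (nat_lit 0), (nat_lit 6594414)]) (PF.cons (PF.leaf (nat_lit 7205709) (nat_lit 611436) (nat_lit 45465868) (nat_lit 8940837)
 [(nat_lit 611436), (nat_lit 0), (nat_lit 6587744)]) (PF.cons (PF.leaf (nat_lit 7600708) (nat_lit 619536) (nat_lit 44805776) (nat_lit 8910318) [(nat_lit 619536), (nat_lit 0), (nat_lit 6577820)]) (PF.cons PF.nil (PF.cons PF.nil PF.nil)))))))))))))) (PF.cons (PF.cons (PF.leaf (nat_lit 4600380) (nat_lit 2150849) (nat_lit 49366320) (nat_lit 9030719) [(nat_lit 0), (nat_lit 2150849), (nat_lit 6560922)]) (PF.cons (PF.leaf (nat_lit 4911979) (nat_lit 530185) (nat_lit 48806496) (nat_lit 9024950) [(nat_lit 530185), (nat_lit 2176005), (nat_lit 6571175)]) (PF.cons (PF.leaf (nat_lit 5241333) (nat_lit 546724) (nat_lit 48221505) (nat_lit 9015668) [(nat_lit 546724), (nat_lit 2199379), (nat_lit 6578810)]) (PF.cons (PF.leaf (nat_lit 5584868) (nat_lit 561400) (nat_lit 47617597)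 (nat_lit 9002707) [(nat_lit 561400), (nat_lit 2220777), (nat_lit 6583528)]) (PF.cons (PF.leaf (nat_lit 5940050) (nat_lit 574490) (nat_lit 46999583) (nat_lit 8985994) [(nat_lit 574490), (nat_lit 2240113), (nat_lit 6585160)]) (PF.cons (PF.leaf (nat_lit 6304807) (nat_lit 586191) (nat_lit 46371321) (nat_lit 8965530) [(nat_lit 586191), (nat_lit 2257372), (nat_lit 6583630)]) (PF.cons (PF.leaf (nat_lit 6677381) (nat_lit 596657)
 (nat_lit 45735991) (nat_lit 8941368) [(nat_lit 596657), (nat_lit 2272577), (nat_lit 6578928)]) (PF.cons (PF.leaf (nat_lit 7056276) (nat_lit 606010) (nat_lit 45096257) (nat_lit 8913608) [(nat_lit 606010), (nat_lit 2285780), (nat_lit 6571093)]) (PF.cons (PF.leaf (nat_lit 7440180) (nat_lit 614350) (nat_lit 44454381) (nat_lit 8882379) [(nat_lit 614350), (nat_lit 2297046), (nat_lit 6560202)]) (PF.cons (PF.leaf (nat_lit 7827936) (nat_lit 621762) (nat_lit 43812298) (nat_lit 8847838) [(nat_lit 621762), (nat_lit 2306455), (nat_lit 6546363)]) (PF.cons PF.nil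 (PF.cons PF.nil PF.nil)))))))))))) (PF.cons (PF.cons (PF.leaf (nat_lit 5514442) (nat_lit 2218408) (nat_lit 47122027) (nat_lit 8977970) [(nat_lit 0), (nat_lit 2218408), (nat_lit 6571999)]) (PF.cons (PF.leaf (nat_lit 5849161) (nat_lit 566568) (nat_lit 46537706) (nat_lit 8959985) [(nat_lit 566568), (nat_lit 2236417), (nat_lit 6571718)]) (PF.cons (PF.leaf (nat_lit 6196425) (nat_lit 579006) (nat_lit 45938473) (nat_lit 8938454) [(nat_lit 579006), (nat_lit 2252637), (nat_lit 6568596)]) (PF.cons (PF.leaf (nat_lit 6553590) (nat_lit 590038) (nat_lit 45328675) (nat_lit 8913414) [(nat_lit 590038), (nat_lit 2267018), (nat_lit 6562570)]) (PF.cons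
 (PF.leaf (nat_lit 6918734) (nat_lit 599838) (nat_lit 44711749) (nat_lit 8884947) [(nat_lit 599838), (nat_lit 2279560), (nat_lit 6553640)]) (PF.cons (PF.leaf (nat_lit 7290255) (nat_lit 608541) (nat_lit 44090495) (nat_lit 8853167) [(nat_lit 608541), (nat_lit 2290295), (nat_lit 6541852)]) (PF.cons (PF.leaf (nat_lit 7666782) (nat_lit 616254) (nat_lit 43467231) (nat_lit 8818212) [(nat_lit 616254), (nat_lit 2299279), (nat_lit 6527283)]) (PF.cons (PF.leaf (nat_lit 8047132) (nat_lit 623068) (nat_lit 42843904) (nat_lit 8780241) [(nat_lit 623068), (nat_lit 2306575), (nat_lit 6510037)]) (PF.cons (PF.leaf (nat_lit 8430273) (nat_lit 629058) (nat_lit 42222164) (nat_lit 8739424) [(nat_lit 629058), (nat_lit 2312258), (nat_lit 6490235)]) (PF.cons PF.nil PF.nil)))))))))) (PF.cons (PF.cons (PF.leaf (nat_lit 6448132) (nat_lit 2261430) (nat_lit 44896057) (nat_lit 8883354) [(nat_lit 0), (nat_lit 2261430), (nat_lit 6545108)]) (PF.cons (PF.leaf (nat_lit 6796556) (nat_lit 592618) (nat_lit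 44306832) (nat_lit 8854458) [(nat_lit 592618), (nat_lit 2273238), (nat_lit 6535189)]) (PF.cons (PF.leaf (nat_lit 7153635) (nat_lit 601884) (nat_lit 43709885) (nat_lit 8822355) [(nat_lit 601884), (nat_lit 2283401),
 (nat_lit 6522598)]) (PF.cons (PF.leaf (nat_lit 7517342) (nat_lit 610048) (nat_lit 43108286) (nat_lit 8787181) [(nat_lit 610048), (nat_lit 2291936), (nat_lit 6507388)]) (PF.cons (PF.leaf (nat_lit 7886208) (nat_lit 617232) (nat_lit 42504502) (nat_lit 8749087) [(nat_lit 617232), (nat_lit 2298883), (nat_lit 6489640)]) (PF.cons (PF.leaf (nat_lit 8258986) (nat_lit 623534) (nat_lit 41900555) (nat_lit 8708235) [(nat_lit 623534), (nat_lit 2304297), (nat_lit 6469457)]) (PF.cons (PF.leaf (nat_lit 8634609) (nat_lit 629034) (nat_lit 41298125) (nat_lit 8664796) [(nat_lit 629034), (nat_lit 2308242), (nat_lit 6446955)]) (PF.cons PF.nil PF.nil)))))))) (PF.cons (PF.cons (PF.leaf (nat_lit 7383250) (nat_lit 2284436) (nat_lit 42730293) (nat_lit 8754322) [(nat_lit 0), (nat_lit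 2284436), (nat_lit 6486449)]) (PF.cons (PF.leaf (nat_lit 7738376) (nat_lit 610602) (nat_lit 42149498) (nat_lit 8716349) [(nat_lit 610602), (nat_lit 2291011), (nat_lit 6468317)]) (PF.cons (PF.leaf (nat_lit 8099227) (nat_lit 617354) (nat_lit 41566000) (nat_lit 8675664) [(nat_lit 617354), (nat_lit 2296146), (nat_lit 6447854)]) (PF.cons (PF.leaf (nat_lit 8464210) (nat_lit 623228) (nat_lit 40981981) (nat_lit 8632439) [(nat_lit
 623228), (nat_lit 2299885), (nat_lit 6425164)]) (PF.cons (PF.leaf (nat_lit 8832196) (nat_lit 628312) (nat_lit 40399204) (nat_lit 8586849) [(nat_lit 628312), (nat_lit 2302286), (nat_lit 6400363)]) (PF.cons PF.nil PF.nil)))))) (PF.cons (PF.cons (PF.leaf (nat_lit 8306864) (nat_lit 2291319) (nat_lit 40651268) (nat_lit 8598519) [(nat_lit 0), (nat_lit 2291319), (nat_lit 6402430)]) (PF.cons (PF.leaf (nat_lit 8663526) (nat_lit 622204) (nat_lit 40087701) (nat_lit 8553397) [(nat_lit 622204), (nat_lit 2293574), (nat_lit 6377635)]) (PF.cons (PF.leaf (nat_lit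 9023710) (nat_lit 626945) (nat_lit 39524885) (nat_lit 8506092) [(nat_lit 626945), (nat_lit 2294607), (nat_lit 6350905)]) (PF.cons (PF.leaf (nat_lit 9386135) (nat_lit 630980) (nat_lit 38964366) (nat_lit 8456780) [(nat_lit 630980), (nat_lit 2294473), (nat_lit 6322360)]) PF.nil)))) (PF.cons (PF.cons (PF.leaf (nat_lit 9210067) (nat_lit 2285397) (nat_lit 38674493) (nat_lit 8422965) [(nat_lit 0), (nat_lit 2285397), (nat_lit 6298968)]) (PF.cons (PF.leaf (nat_lit 9564533) (nat_lit 628743) (nat_lit 38133665) (nat_lit 8372494) [(nat_lit 628743), (nat_lit 2284154), (nat_lit 6268984)]) PF.nil)) (PF.cons PF.nil (PF.cons PF.nil (PF.cons PF.nil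
 PF.nil)))))))))) (PF.cons (PF.cons (PF.cons (PF.leaf (nat_lit 5511325) (nat_lit 6476309) (nat_lit 45323999) (nat_lit 8832193) [(nat_lit 0), (nat_lit 0), (nat_lit 6476309)]) (PF.cons (PF.leaf (nat_lit 5818193) (nat_lit 542785) (nat_lit 44808466) (nat_lit 8811725) [(nat_lit 542785), (nat_lit 0), (nat_lit 6472917)]) (PF.cons (PF.leaf (nat_lit 6140746) (nat_lit 557126) (nat_lit 44272396) (nat_lit 8788002) [(nat_lit 557126), (nat_lit 0), (nat_lit 6467080)]) (PF.cons (PF.leaf (nat_lit 6475498) (nat_lit 569603) (nat_lit 43721480) (nat_lit 8761095) [(nat_lit 569603), (nat_lit 0), (nat_lit 6458713)]) (PF.cons (PF.leaf (nat_lit 6820036) (nat_lit 580528) (nat_lit 43160009) (nat_lit 8731097) [(nat_lit 580528), (nat_lit 0), (nat_lit 6447796)]) (PF.cons (PF.leaf (nat_lit 7172443) (nat_lit 590125) (nat_lit 42591354) (nat_lit 8698122) [(nat_lit 590125), (nat_lit 0), (nat_lit 6434355)]) (PF.cons (PF.leaf (nat_lit 7531111) (nat_lit 598563) (nat_lit 42018234) (nat_lit 8662301) [(nat_lit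 598563), (nat_lit 0), (nat_lit 6418447)]) (PF.cons (PF.leaf (nat_lit 7894691) (nat_lit 605977) (nat_lit 41442883) (nat_lit 8623777) [(nat_lit 605977), (nat_lit 0), (nat_lit 6400155)]) (PF.cons (PF.leaf (nat_lit
 8262053) (nat_lit 612473) (nat_lit 40867162) (nat_lit 8582705) [(nat_lit 612473), (nat_lit 0), (nat_lit 6379579)]) (PF.cons (PF.leaf (nat_lit 8632170) (nat_lit 618140) (nat_lit 40292636) (nat_lit 8539245) [(nat_lit 618140), (nat_lit 0), (nat_lit 6356831)]) (PF.cons PF.nil (PF.cons PF.nil PF.nil)))))))))))) (PF.cons (PF.cons (PF.leaf (nat_lit 6387872) (nat_lit 2218791) (nat_lit 43283863) (nat_lit 8727928) [(nat_lit 0), (nat_lit 2218791), (nat_lit 6439115)]) (PF.cons (PF.leaf (nat_lit 6713148) (nat_lit 571649) (nat_lit 42753576) (nat_lit 8698071) [(nat_lit 571649), (nat_lit 2230403), (nat_lit 6427555)]) (PF.cons (PF.leaf (nat_lit 7049296) (nat_lit 582144) (nat_lit 42211634) (nat_lit 8665240) [(nat_lit 582144), (nat_lit 2240435), (nat_lit 6413607)]) (PF.cons (PF.leaf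 (nat_lit 7393790) (nat_lit 591282) (nat_lit 41661867) (nat_lit 8629586) [(nat_lit 591282), (nat_lit 2248887), (nat_lit 6397311)]) (PF.cons (PF.leaf (nat_lit 7744862) (nat_lit 599256) (nat_lit 41107252) (nat_lit 8591265) [(nat_lit 599256), (nat_lit 2255796), (nat_lit 6378736)]) (PF.cons (PF.leaf (nat_lit 8101052) (nat_lit 606211) (nat_lit 40550168) (nat_lit 8550434) [(nat_lit 606211), (nat_lit 2261213), (nat_lit
 6357968)]) (PF.cons (PF.leaf (nat_lit 8461153) (nat_lit 612264) (nat_lit 39992550) (nat_lit 8507254) [(nat_lit 612264), (nat_lit 2265202), (nat_lit 6335110)]) (PF.cons (PF.leaf (nat_lit 8824115) (nat_lit 617507) (nat_lit 39435998) (nat_lit 8461887) [(nat_lit 617507), (nat_lit 2267835), (nat_lit 6310270)]) (PF.cons PF.nil (PF.cons PF.nil PF.nil)))))))))) (PF.cons (PF.cons (PF.leaf (nat_lit 7274818) (nat_lit 2240711) (nat_lit 41282840) (nat_lit 8594684) [(nat_lit 0), (nat_lit 2240711), (nat_lit 6374932)]) (PF.cons (PF.leaf (nat_lit 7610413) (nat_lit 591475) (nat_lit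 40753346) (nat_lit 8556894) [(nat_lit 591475), (nat_lit 2247312), (nat_lit 6356235)]) (PF.cons (PF.leaf (nat_lit 7953393) (nat_lit 599097) (nat_lit 40218194) (nat_lit 8516566) [(nat_lit 599097), (nat_lit 2252519), (nat_lit 6335409)]) (PF.cons (PF.leaf (nat_lit 8301859) (nat_lit 605687) (nat_lit 39680024) (nat_lit 8473879) [(nat_lit 605687), (nat_lit 2256370), (nat_lit 6312551)]) (PF.cons (PF.leaf (nat_lit 8654499) (nat_lit 611375) (nat_lit 39140928) (nat_lit 8429006) [(nat_lit 611375), (nat_lit 2258920), (nat_lit 6287766)]) (PF.cons (PF.leaf (nat_lit 9010186) (nat_lit 616263) (nat_lit 38602590) (nat_lit 8382116)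
 [(nat_lit 616263), (nat_lit 2260229), (nat_lit 6261164)]) (PF.cons PF.nil (PF.cons PF.nil PF.nil)))))))) (PF.cons (PF.cons (PF.leaf (nat_lit 8157801) (nat_lit 2247307) (nat_lit 39350448) (nat_lit 8438666) [(nat_lit 0), (nat_lit 2247307), (nat_lit 6288888)]) (PF.cons (PF.leaf (nat_lit 8497869) (nat_lit 604448) (nat_lit 38831881) (nat_lit 8394555) [(nat_lit 604448), (nat_lit 2249773), (nat_lit 6264303)]) (PF.cons (PF.leaf (nat_lit 8842764) (nat_lit 609853) (nat_lit 38311726) (nat_lit 8348381) [(nat_lit 609853), (nat_lit 2251049), (nat_lit 6237924)]) (PF.cons (PF.leaf (nat_lit 9191006) (nat_lit 614454) (nat_lit 37791827) (nat_lit 8300324) [(nat_lit 614454), (nat_lit 2251188), (nat_lit 6209865)]) (PF.cons (PF.leaf (nat_lit 9541595) (nat_lit 618342) (nat_lit 37273659) (nat_lit 8250551) [(nat_lit 618342), (nat_lit 2250248), (nat_lit 6180242)]) (PF.cons PF.nil PF.nil)))))) (PF.cons (PF.cons (PF.leaf (nat_lit 9026889) (nat_lit 2241762) (nat_lit 37504209) (nat_lit 8265737)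 [(nat_lit 0), (nat_lit 2241762), (nat_lit 6185907)]) (PF.cons (PF.leaf (nat_lit 9367212) (nat_lit 612114) (nat_lit 37003002) (nat_lit 8216849) [(nat_lit 612114), (nat_lit 2240872), (nat_lit 6156678)]) (PF.cons (PF.leaf
 (nat_lit 9710452) (nat_lit 615781) (nat_lit 36502949) (nat_lit 8166353) [(nat_lit 615781), (nat_lit 2238988), (nat_lit 6125996)]) (PF.cons PF.nil PF.nil)))) (PF.cons (PF.cons (PF.leaf (nat_lit 9875381) (nat_lit 2226712) (nat_lit 35753465) (nat_lit 8081046) [(nat_lit 0), (nat_lit 2226712), (nat_lit 6070369)]) (PF.cons PF.nil PF.nil)) (PF.cons PF.nil (PF.cons PF.nil PF.nil)))))))) (PF.cons (PF.cons (PF.cons (PF.leaf (nat_lit 7178762) (nat_lit 6261541) (nat_lit 39890799) (nat_lit 8433388) [(nat_lit 0), (nat_lit 0), (nat_lit 6261541)]) (PF.cons (PF.leaf (nat_lit 7493398) (nat_lit 570041) (nat_lit 39413248) (nat_lit 8396672) [(nat_lit 570041), (nat_lit 0), (nat_lit 6242949)]) (PF.cons (PF.leaf (nat_lit 7817628) (nat_lit 579007) (nat_lit 38926328) (nat_lit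 8357450) [(nat_lit 579007), (nat_lit 0), (nat_lit 6222339)]) (PF.cons (PF.leaf (nat_lit 8149055) (nat_lit 586679) (nat_lit 38433396) (nat_lit 8315936) [(nat_lit 586679), (nat_lit 0), (nat_lit 6199814)]) (PF.cons (PF.leaf (nat_lit 8486036) (nat_lit 593257) (nat_lit 37937026) (nat_lit 8272321) [(nat_lit 593257), (nat_lit 0), (nat_lit 6175478)]) (PF.cons (PF.leaf (nat_lit 8827237) (nat_lit 598891) (nat_lit 37439248) (nat_lit 8226782)
 [(nat_lit 598891), (nat_lit 0), (nat_lit 6149440)]) (PF.cons (PF.leaf (nat_lit 9171570) (nat_lit 603701) (nat_lit 36941692) (nat_lit 8179483) [(nat_lit 603701), (nat_lit 0), (nat_lit 6121809)]) (PF.cons PF.nil (PF.cons PF.nil (PF.cons PF.nil PF.nil)))))))))) (PF.cons (PF.cons (PF.leaf (nat_lit 8020602) (nat_lit 2202035) (nat_lit 38102069) (nat_lit 8279263) [(nat_lit 0), (nat_lit 2202035), (nat_lit 6175148)]) (PF.cons (PF.leaf (nat_lit 8343247) (nat_lit 585246) (nat_lit 37628134) (nat_lit 8236749) [(nat_lit 585246), (nat_lit 2204998), (nat_lit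 6151227)]) (PF.cons (PF.leaf (nat_lit 8672335) (nat_lit 591608) (nat_lit 37149866) (nat_lit 8192195) [(nat_lit 591608), (nat_lit 2206770), (nat_lit 6125587)]) (PF.cons (PF.leaf (nat_lit 9006084) (nat_lit 597007) (nat_lit 36669543) (nat_lit 8145801) [(nat_lit 597007), (nat_lit 2207404), (nat_lit 6098346)]) (PF.cons (PF.leaf (nat_lit 9343297) (nat_lit 601574) (nat_lit 36188949) (nat_lit 8097746) [(nat_lit 601574), (nat_lit 2206958), (nat_lit 6069619)]) (PF.cons (PF.leaf (nat_lit 9682947) (nat_lit 605413) (nat_lit 35709505) (nat_lit 8048193) [(nat_lit 605413), (nat_lit 2205495), (nat_lit 6039517)]) (PF.cons PF.nil (PF.cons PF.nil PF.nil))))))))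
 (PF.cons (PF.cons (PF.leaf (nat_lit 8855525) (nat_lit 2197588) (nat_lit 36382090) (nat_lit 8110301) [(nat_lit 0), (nat_lit 2197588), (nat_lit 6073748)]) (PF.cons (PF.leaf (nat_lit 9181195) (nat_lit 594577) (nat_lit 35919652) (nat_lit 8063371) [(nat_lit 594577), (nat_lit 2197245), (nat_lit 6045573)]) (PF.cons (PF.leaf (nat_lit 9511036) (nat_lit 598971) (nat_lit 35456236) (nat_lit 8014842) [(nat_lit 598971), (nat_lit 2195907), (nat_lit 6015992)]) (PF.cons (PF.leaf (nat_lit 9843675) (nat_lit 602625) (nat_lit 34993416) (nat_lit 7964891) [(nat_lit 602625), (nat_lit 2193628), (nat_lit 5985123)]) (PF.cons PF.nil (PF.cons PF.nil PF.nil)))))) (PF.cons (PF.cons (PF.leaf (nat_lit 9675661) (nat_lit 2183897) (nat_lit 34742737) (nat_lit 7930985) [(nat_lit 0), (nat_lit 2183897), (nat_lit 5961132)]) (PF.cons (PF.leaf (nat_lit 10000819) (nat_lit 599439) (nat_lit 34296654) (nat_lit 7880879) [(nat_lit 599439), (nat_lit 2180909), (nat_lit 5929703)]) (PF.cons PF.nil (PF.cons PF.nil PF.nil))))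 (PF.cons (PF.cons (PF.leaf (nat_lit 10475795) (nat_lit 2163068) (nat_lit 33189715) (nat_lit 7745120) [(nat_lit 0), (nat_lit 2163068), (nat_lit 5840568)]) (PF.cons PF.nil PF.nil)) (PF.cons PF.nil PF.nil))))))
 (PF.cons (PF.cons (PF.cons (PF.leaf (nat_lit 8697903) (nat_lit 5962454) (nat_lit 35302457) (nat_lit 7956537) [(nat_lit 0), (nat_lit 0), (nat_lit 5962454)]) (PF.cons (PF.leaf (nat_lit 9007959) (nat_lit 575800) (nat_lit 34878533) (nat_lit 7911950) [(nat_lit 575800), (nat_lit 0), (nat_lit 5935631)]) (PF.cons (PF.leaf (nat_lit 9323749) (nat_lit 581185) (nat_lit 34451149) (nat_lit 7865698) [(nat_lit 581185), (nat_lit 0), (nat_lit 5907398)]) (PF.cons (PF.leaf (nat_lit 9643607) (nat_lit 585671) (nat_lit 34022280) (nat_lit 7817984) [(nat_lit 585671), (nat_lit 0), (nat_lit 5877882)]) (PF.cons (PF.leaf (nat_lit 9966385) (nat_lit 589389) (nat_lit 33593459) (nat_lit 7768986) [(nat_lit 589389), (nat_lit 0), (nat_lit 5847202)]) (PF.cons PF.nil PF.nil)))))) (PF.cons (PF.cons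 (PF.leaf (nat_lit 9489077) (nat_lit 2140892) (nat_lit 33770952) (nat_lit 7783362) [(nat_lit 0), (nat_lit 2140892), (nat_lit 5853401)]) (PF.cons (PF.leaf (nat_lit 9801219) (nat_lit 582464) (nat_lit 33358129) (nat_lit 7735679) [(nat_lit 582464), (nat_lit 2138637), (nat_lit 5823475)]) (PF.cons (PF.leaf (nat_lit 10117046) (nat_lit 586088) (nat_lit 32944652) (nat_lit 7686732) [(nat_lit 586088), (nat_lit 2135538), (nat_lit
 5792428)]) (PF.cons PF.nil PF.nil)))) (PF.cons (PF.cons (PF.leaf (nat_lit 10265413) (nat_lit 2121952) (nat_lit 32312612) (nat_lit 7604189) [(nat_lit 0), (nat_lit 2121952), (nat_lit 5737026)]) (PF.cons PF.nil PF.nil)) (PF.cons PF.nil PF.nil)))) (PF.cons (PF.cons (PF.cons (PF.leaf (nat_lit 10068768) (nat_lit 5635202) (nat_lit 31466933) (nat_lit 7465865) [(nat_lit 0), (nat_lit 0), (nat_lit 5635202)]) (PF.cons (PF.leaf (nat_lit 10368288) (nat_lit 569081) (nat_lit 31097522) (nat_lit 7418694) [(nat_lit 569081), (nat_lit 0), (nat_lit 5604702)]) (PF.cons PF.nil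 (PF.cons PF.nil PF.nil)))) (PF.cons (PF.cons (PF.leaf (nat_lit 10805873) (nat_lit 2058606) (nat_lit 30165802) (nat_lit 7290711) [(nat_lit 0), (nat_lit 2058606), (nat_lit 5518738)]) (PF.cons PF.nil PF.nil)) PF.nil)) (PF.cons PF.nil (PF.cons PF.nil (PF.cons PF.nil (PF.cons PF.nil PF.nil))))))))))

def p13_19_1_0 : pfC (piC [(nat_lit 37297016), (nat_lit 23751559), (nat_lit 15232604)] (nat_lit 11488537)) p13_19_1 (nat_lit 3) (nat_lit 0) (nat_lit 1) = true := by decide +kernel
def p13_19_1_1 : pfC (piC [(nat_lit 37297016), (nat_lit 23751559), (nat_lit 15232604)] (nat_lit 11488537)) p13_19_1 (nat_lit 3) (nat_lit 1) (nat_lit 2) = true := by decide +kernel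
def p13_19_1_2 : pfC (piC [(nat_lit 37297016), (nat_lit 23751559), (nat_lit 15232604)] (nat_lit 11488537)) p13_19_1 (nat_lit 3) (nat_lit 2) (nat_lit 3) = true := by decide +kernel
def p13_19_1_3 : pfC (piC [(nat_lit 37297016), (nat_lit 23751559), (nat_lit 15232604)] (nat_lit 11488537)) p13_19_1 (nat_lit 3) (nat_lit 3) (nat_lit 4) = true := by decide +kernel
def p13_19_1_4 : pfC (piC [(nat_lit 37297016), (nat_lit 23751559), (nat_lit 15232604)] (nat_lit 11488537)) p13_19_1 (nat_lit 3) (nat_lit 4) (nat_lit 5) = true := by decide +kernel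
def p13_19_1_5 : pfC (piC [(nat_lit 37297016), (nat_lit 23751559), (nat_lit 15232604)] (nat_lit 11488537)) p13_19_1 (nat_lit 3) (nat_lit 5) (nat_lit 6) = true := by decide +kernel
def p13_19_1_6 : pfC (piC [(nat_lit 37297016), (nat_lit 23751559), (nat_lit 15232604)] (nat_lit 11488537)) p13_19_1 (nat_lit 3) (nat_lit 6) (nat_lit 7) = true := by decide +kernel
def p13_19_1_7 : pfC (piC [(nat_lit 37297016), (nat_lit 23751559), (nat_lit 15232604)] (nat_lit 11488537)) p13_19_1 (nat_lit 3) (nat_lit 7) (nat_lit 8) = true := by decide +kernel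
def p13_19_1_8 : pfC (piC [(nat_lit 37297016), (nat_lit 23751559), (nat_lit 15232604)] (nat_lit 11488537)) p13_19_1 (nat_lit 3) (nat_lit 8) (nat_lit 9) = true := by decide +kernel
def p13_19_1_9 : pfC (piC [(nat_lit 37297016), (nat_lit 23751559), (nat_lit 15232604)] (nat_lit 11488537)) p13_19_1 (nat_lit 3) (nat_lit 9) (nat_lit 10) = true := by decide +kernel
def p13_19_1_10 : pfC (piC [(nat_lit 37297016), (nat_lit 23751559), (nat_lit 15232604)] (nat_lit 11488537)) p13_19_1 (nat_lit 3) (nat_lit 10) (nat_lit 11) = true := by decide +kernel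
def p13_19_1_11 : pfC (piC [(nat_lit 37297016), (nat_lit 23751559), (nat_lit 15232604)] (nat_lit 11488537)) p13_19_1 (nat_lit 3) (nat_lit 11) (nat_lit 12) = true := by decide +kernel
def p13_19_1_12 : pfC (piC [(nat_lit 37297016), (nat_lit 23751559), (nat_lit 15232604)] (nat_lit 11488537)) p13_19_1 (nat_lit 3) (nat_lit 12) (nat_lit 13) = true := by decide +kernel
def p13_19_1_13 : pfC (piC [(nat_lit 37297016), (nat_lit 23751559), (nat_lit 15232604)] (nat_lit 11488537)) p13_19_1 (nat_lit 3) (nat_lit 13) (nat_lit 14) = true := by decide +kernel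
def p13_19_1_14 : pfC (piC [(nat_lit 37297016), (nat_lit 23751559), (nat_lit 15232604)] (nat_lit 11488537)) p13_19_1 (nat_lit 3) (nat_lit 14) (nat_lit 15) = true := by decide +kernel
def p13_19_1_15 : pfC (piC [(nat_lit 37297016), (nat_lit 23751559), (nat_lit 15232604)] (nat_lit 11488537)) p13_19_1 (nat_lit 3) (nat_lit 15) (nat_lit 16) = true := by decide +kernel
def p13_19_1_16 : pfC (piC [(nat_lit 37297016), (nat_lit 23751559), (nat_lit 15232604)] (nat_lit 11488537)) p13_19_1 (nat_lit 3) (nat_lit 16) (nat_lit 17) = true := by decide +kernel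
def p13_19_1_17 : pfC (piC [(nat_lit 37297016), (nat_lit 23751559), (nat_lit 15232604)] (nat_lit 11488537)) p13_19_1 (nat_lit 3) (nat_lit 17) (nat_lit 18) = true := by decide +kernel
def p13_19_1_18 : pfC (piC [(nat_lit 37297016), (nat_lit 23751559), (nat_lit 15232604)] (nat_lit 11488537)) p13_19_1 (nat_lit 3) (nat_lit 18) (nat_lit 19) = true := by decide +kernel
def p13_19_1_19 : pfC (piC [(nat_lit 37297016), (nat_lit 23751559), (nat_lit 15232604)] (nat_lit 11488537)) p13_19_1 (nat_lit 3) (nat_lit 19) (nat_lit 20) = true := by decide +kernel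
def p13_19_1_20 : pfC (piC [(nat_lit 37297016), (nat_lit 23751559), (nat_lit 15232604)] (nat_lit 11488537)) p13_19_1 (nat_lit 3) (nat_lit 20) (nat_lit 21) = true := by decide +kernel
def p13_19_1_21 : pfC (piC [(nat_lit 37297016), (nat_lit 23751559), (nat_lit 15232604)] (nat_lit 11488537)) p13_19_1 (nat_lit 3) (nat_lit 21) (nat_lit 22) = true := by decide +kernel
def p13_19_1_22 : pfC (piC [(nat_lit 37297016), (nat_lit 23751559), (nat_lit 15232604)] (nat_lit 11488537)) p13_19_1 (nat_lit 3) (nat_lit 22) (nat_lit 23) = true := by decide +kernel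
def p13_19_1_23 : pfC (piC [(nat_lit 37297016), (nat_lit 23751559), (nat_lit 15232604)] (nat_lit 11488537)) p13_19_1 (nat_lit 3) (nat_lit 23) (nat_lit 24) = true := by decide +kernel
def p13_19_1_24 : pfC (piC [(nat_lit 37297016), (nat_lit 23751559), (nat_lit 15232604)] (nat_lit 11488537)) p13_19_1 (nat_lit 3) (nat_lit 24) (nat_lit 25) = true := by decide +kernel
def p13_19_1_25 : pfC (piC [(nat_lit 37297016), (nat_lit 23751559), (nat_lit 15232604)] (nat_lit 11488537)) p13_19_1 (nat_lit 3) (nat_lit 25) (nat_lit 26) = true := by decide +kernel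
def p13_19_1_26 : pfC (piC [(nat_lit 37297016), (nat_lit 23751559), (nat_lit 15232604)] (nat_lit 11488537)) p13_19_1 (nat_lit 3) (nat_lit 26) (nat_lit 27) = true := by decide +kernel
def p13_19_1_27 : pfC (piC [(nat_lit 37297016), (nat_lit 23751559), (nat_lit 15232604)] (nat_lit 11488537)) p13_19_1 (nat_lit 3) (nat_lit 27) (nat_lit 28) = true := by decide +kernel
def p13_19_1_28 : pfC (piC [(nat_lit 37297016), (nat_lit 23751559), (nat_lit 15232604)] (nat_lit 11488537)) p13_19_1 (nat_lit 3) (nat_lit 28) (nat_lit 29) = true := by decide +kernel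
def p13_19_1_29 : pfC (piC [(nat_lit 37297016), (nat_lit 23751559), (nat_lit 15232604)] (nat_lit 11488537)) p13_19_1 (nat_lit 3) (nat_lit 29) (nat_lit 30) = true := by decide +kernel
def p13_19_1_30 : pfC (piC [(nat_lit 37297016), (nat_lit 23751559), (nat_lit 15232604)] (nat_lit 11488537)) p13_19_1 (nat_lit 3) (nat_lit 30) (nat_lit 31) = true := by decide +kernel
def p13_19_1_31 : pfC (piC [(nat_lit 37297016), (nat_lit 23751559), (nat_lit 15232604)] (nat_lit 11488537)) p13_19_1 (nat_lit 3) (nat_lit 31) (nat_lit 32) = true := by decide +kernel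
def p13_19_1_32 : pfC (piC [(nat_lit 37297016), (nat_lit 23751559), (nat_lit 15232604)] (nat_lit 11488537)) p13_19_1 (nat_lit 3) (nat_lit 32) (nat_lit 33) = true := by decide +kernel
def p13_19_1_33 : pfC (piC [(nat_lit 37297016), (nat_lit 23751559), (nat_lit 15232604)] (nat_lit 11488537)) p13_19_1 (nat_lit 3) (nat_lit 33) (nat_lit 34) = true := by decide +kernel
def p13_19_1_34 : pfC (piC [(nat_lit 37297016), (nat_lit 23751559), (nat_lit 15232604)] (nat_lit 11488537)) p13_19_1 (nat_lit 3) (nat_lit 34) (nat_lit 35) = true := by decide +kernel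
def p13_19_1_35 : pfC (piC [(nat_lit 37297016), (nat_lit 23751559), (nat_lit 15232604)] (nat_lit 11488537)) p13_19_1 (nat_lit 3) (nat_lit 35) (nat_lit 36) = true := by decide +kernel
def p13_19_1_36 : pfC (piC [(nat_lit 37297016), (nat_lit 23751559), (nat_lit 15232604)] (nat_lit 11488537)) p13_19_1 (nat_lit 3) (nat_lit 36) (nat_lit 37) = true := by decide +kernel
def p13_19_1_37 : pfC (piC [(nat_lit 37297016), (nat_lit 23751559), (nat_lit 15232604)] (nat_lit 11488537)) p13_19_1 (nat_lit 3) (nat_lit 37) (nat_lit 38) = true := by decide +kernel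
def p13_19_1_38 : pfC (piC [(nat_lit 37297016), (nat_lit 23751559), (nat_lit 15232604)] (nat_lit 11488537)) p13_19_1 (nat_lit 3) (nat_lit 38) (nat_lit 39) = true := by decide +kernel
def p13_19_1_39 : pfC (piC [(nat_lit 37297016), (nat_lit 23751559), (nat_lit 15232604)] (nat_lit 11488537)) p13_19_1 (nat_lit 3) (nat_lit 39) (nat_lit 40) = true := by decide +kernel
def p13_19_1_40 : pfC (piC [(nat_lit 37297016), (nat_lit 23751559), (nat_lit 15232604)] (nat_lit 11488537)) p13_19_1 (nat_lit 3) (nat_lit 40) (nat_lit 41) = true := by decide +kernel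
def p13_19_1_41 : pfC (piC [(nat_lit 37297016), (nat_lit 23751559), (nat_lit 15232604)] (nat_lit 11488537)) p13_19_1 (nat_lit 3) (nat_lit 41) (nat_lit 42) = true := by decide +kernel
def p13_19_1_42 : pfC (piC [(nat_lit 37297016), (nat_lit 23751559), (nat_lit 15232604)] (nat_lit 11488537)) p13_19_1 (nat_lit 3) (nat_lit 42) (nat_lit 43) = true := by decide +kernel
def p13_19_1_43 : pfC (piC [(nat_lit 37297016), (nat_lit 23751559), (nat_lit 15232604)] (nat_lit 11488537)) p13_19_1 (nat_lit 3) (nat_lit 43) (nat_lit 44) = true := by decide +kernel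
def p13_19_1_44 : pfC (piC [(nat_lit 37297016), (nat_lit 23751559), (nat_lit 15232604)] (nat_lit 11488537)) p13_19_1 (nat_lit 3) (nat_lit 44) (nat_lit 45) = true := by decide +kernel
def p13_19_1_45 : pfC (piC [(nat_lit 37297016), (nat_lit 23751559), (nat_lit 15232604)] (nat_lit 11488537)) p13_19_1 (nat_lit 3) (nat_lit 45) (nat_lit 46) = true := by decide +kernel
def p13_19_1_46 : pfC (piC [(nat_lit 37297016), (nat_lit 23751559), (nat_lit 15232604)] (nat_lit 11488537)) p13_19_1 (nat_lit 3) (nat_lit 46) (nat_lit 47) = true := by decide +kernel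
def p13_19_1_47 : pfC (piC [(nat_lit 37297016), (nat_lit 23751559), (nat_lit 15232604)] (nat_lit 11488537)) p13_19_1 (nat_lit 3) (nat_lit 47) (nat_lit 48) = true := by decide +kernel
def p13_19_1_48 : pfC (piC [(nat_lit 37297016), (nat_lit 23751559), (nat_lit 15232604)] (nat_lit 11488537)) p13_19_1 (nat_lit 3) (nat_lit 48) (nat_lit 49) = true := by decide +kernel
def p13_19_1_49 : pfC (piC [(nat_lit 37297016), (nat_lit 23751559), (nat_lit 15232604)] (nat_lit 11488537)) p13_19_1 (nat_lit 3) (nat_lit 49) (nat_lit 50) = true := by decide +kernel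
def p13_19_1_50 : pfC (piC [(nat_lit 37297016), (nat_lit 23751559), (nat_lit 15232604)] (nat_lit 11488537)) p13_19_1 (nat_lit 3) (nat_lit 50) (nat_lit 51) = true := by decide +kernel
def p13_19_1_51 : pfC (piC [(nat_lit 37297016), (nat_lit 23751559), (nat_lit 15232604)] (nat_lit 11488537)) p13_19_1 (nat_lit 3) (nat_lit 51) (nat_lit 52) = true := by decide +kernel
def p13_19_1_52 : pfC (piC [(nat_lit 37297016), (nat_lit 23751559), (nat_lit 15232604)] (nat_lit 11488537)) p13_19_1 (nat_lit 3) (nat_lit 52) (nat_lit 53) = true := by decide +kernel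
def p13_19_1_53 : pfC (piC [(nat_lit 37297016), (nat_lit 23751559), (nat_lit 15232604)] (nat_lit 11488537)) p13_19_1 (nat_lit 3) (nat_lit 53) (nat_lit 54) = true := by decide +kernel
def p13_19_1_54 : pfC (piC [(nat_lit 37297016), (nat_lit 23751559), (nat_lit 15232604)] (nat_lit 11488537)) p13_19_1 (nat_lit 3) (nat_lit 54) (nat_lit 55) = true := by decide +kernel
def p13_19_1_55 : pfC (piC [(nat_lit 37297016), (nat_lit 23751559), (nat_lit 15232604)] (nat_lit 11488537)) p13_19_1 (nat_lit 3) (nat_lit 55) (nat_lit 56) = true := by decide +kernel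
def p13_19_1_56 : pfC (piC [(nat_lit 37297016), (nat_lit 23751559), (nat_lit 15232604)] (nat_lit 11488537)) p13_19_1 (nat_lit 3) (nat_lit 56) (nat_lit 57) = true := by decide +kernel
def p13_19_1_57 : pfC (piC [(nat_lit 37297016), (nat_lit 23751559), (nat_lit 15232604)] (nat_lit 11488537)) p13_19_1 (nat_lit 3) (nat_lit 57) (nat_lit 58) = true := by decide +kernel
def p13_19_1_58 : pfC (piC [(nat_lit 37297016), (nat_lit 23751559), (nat_lit 15232604)] (nat_lit 11488537)) p13_19_1 (nat_lit 3) (nat_lit 58) (nat_lit 59) = true := by decide +kernel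
def p13_19_1_59 : pfC (piC [(nat_lit 37297016), (nat_lit 23751559), (nat_lit 15232604)] (nat_lit 11488537)) p13_19_1 (nat_lit 3) (nat_lit 59) (nat_lit 60) = true := by decide +kernel
def p13_19_1_60 : pfC (piC [(nat_lit 37297016), (nat_lit 23751559), (nat_lit 15232604)] (nat_lit 11488537)) p13_19_1 (nat_lit 3) (nat_lit 60) (nat_lit 61) = true := by decide +kernel
def p13_19_1_61 : pfC (piC [(nat_lit 37297016), (nat_lit 23751559), (nat_lit 15232604)] (nat_lit 11488537)) p13_19_1 (nat_lit 3) (nat_lit 61) (nat_lit 62) = true := by decide +kernel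
def p13_19_1_62 : pfC (piC [(nat_lit 37297016), (nat_lit 23751559), (nat_lit 15232604)] (nat_lit 11488537)) p13_19_1 (nat_lit 3) (nat_lit 62) (nat_lit 63) = true := by decide +kernel
def p13_19_1_63 : pfC (piC [(nat_lit 37297016), (nat_lit 23751559), (nat_lit 15232604)] (nat_lit 11488537)) p13_19_1 (nat_lit 3) (nat_lit 63) (nat_lit 64) = true := by decide +kernel
def p13_19_1_64 : pfC (piC [(nat_lit 37297016), (nat_lit 23751559), (nat_lit 15232604)] (nat_lit 11488537)) p13_19_1 (nat_lit 3) (nat_lit 64) (nat_lit 65) = true := by decide +kernel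
def p13_19_1_65 : pfC (piC [(nat_lit 37297016), (nat_lit 23751559), (nat_lit 15232604)] (nat_lit 11488537)) p13_19_1 (nat_lit 3) (nat_lit 65) (nat_lit 66) = true := by decide +kernel
def p13_19_1_66 : pfC (piC [(nat_lit 37297016), (nat_lit 23751559), (nat_lit 15232604)] (nat_lit 11488537)) p13_19_1 (nat_lit 3) (nat_lit 66) (nat_lit 67) = true := by decide +kernel
def p13_19_1_67 : pfC (piC [(nat_lit 37297016), (nat_lit 23751559), (nat_lit 15232604)] (nat_lit 11488537)) p13_19_1 (nat_lit 3) (nat_lit 67) (nat_lit 68) = true := by decide +kernel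
def p13_19_1_68 : pfC (piC [(nat_lit 37297016), (nat_lit 23751559), (nat_lit 15232604)] (nat_lit 11488537)) p13_19_1 (nat_lit 3) (nat_lit 68) (nat_lit 69) = true := by decide +kernel
def p13_19_1_69 : pfC (piC [(nat_lit 37297016), (nat_lit 23751559), (nat_lit 15232604)] (nat_lit 11488537)) p13_19_1 (nat_lit 3) (nat_lit 69) (nat_lit 70) = true := by decide +kernel
def p13_19_1_70 : pfC (piC [(nat_lit 37297016), (nat_lit 23751559), (nat_lit 15232604)] (nat_lit 11488537)) p13_19_1 (nat_lit 3) (nat_lit 70) (nat_lit 71) = true := by decide +kernel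
def p13_19_1_71 : pfC (piC [(nat_lit 37297016), (nat_lit 23751559), (nat_lit 15232604)] (nat_lit 11488537)) p13_19_1 (nat_lit 3) (nat_lit 71) (nat_lit 72) = true := by decide +kernel
def p13_19_1_72 : pfC (piC [(nat_lit 37297016), (nat_lit 23751559), (nat_lit 15232604)] (nat_lit 11488537)) p13_19_1 (nat_lit 3) (nat_lit 72) (nat_lit 73) = true := by decide +kernel
def p13_19_1_73 : pfC (piC [(nat_lit 37297016), (nat_lit 23751559), (nat_lit 15232604)] (nat_lit 11488537)) p13_19_1 (nat_lit 3) (nat_lit 73) (nat_lit 74) = true := by decide +kernel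
def p13_19_1_74 : pfC (piC [(nat_lit 37297016), (nat_lit 23751559), (nat_lit 15232604)] (nat_lit 11488537)) p13_19_1 (nat_lit 3) (nat_lit 74) (nat_lit 75) = true := by decide +kernel
def p13_19_1_75 : pfC (piC [(nat_lit 37297016), (nat_lit 23751559), (nat_lit 15232604)] (nat_lit 11488537)) p13_19_1 (nat_lit 3) (nat_lit 75) (nat_lit 76) = true := by decide +kernel
def p13_19_1_76 : pfC (piC [(nat_lit 37297016), (nat_lit 23751559), (nat_lit 15232604)] (nat_lit 11488537)) p13_19_1 (nat_lit 3) (nat_lit 76) (nat_lit 77) = true := by decide +kernel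
def p13_19_1_77 : pfC (piC [(nat_lit 37297016), (nat_lit 23751559), (nat_lit 15232604)] (nat_lit 11488537)) p13_19_1 (nat_lit 3) (nat_lit 77) (nat_lit 78) = true := by decide +kernel
def p13_19_1_78 : pfC (piC [(nat_lit 37297016), (nat_lit 23751559), (nat_lit 15232604)] (nat_lit 11488537)) p13_19_1 (nat_lit 3) (nat_lit 78) (nat_lit 79) = true := by decide +kernel
def p13_19_1_79 : pfC (piC [(nat_lit 37297016), (nat_lit 23751559), (nat_lit 15232604)] (nat_lit 11488537)) p13_19_1 (nat_lit 3) (nat_lit 79) (nat_lit 80) = true := by decide +kernel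
def p13_19_1_80 : pfC (piC [(nat_lit 37297016), (nat_lit 23751559), (nat_lit 15232604)] (nat_lit 11488537)) p13_19_1 (nat_lit 3) (nat_lit 80) (nat_lit 81) = true := by decide +kernel
def p13_19_1_81 : pfC (piC [(nat_lit 37297016), (nat_lit 23751559), (nat_lit 15232604)] (nat_lit 11488537)) p13_19_1 (nat_lit 3) (nat_lit 81) (nat_lit 82) = true := by decide +kernel
def p13_19_1_82 : pfC (piC [(nat_lit 37297016), (nat_lit 23751559), (nat_lit 15232604)] (nat_lit 11488537)) p13_19_1 (nat_lit 3) (nat_lit 82) (nat_lit 83) = true := by decide +kernel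
def p13_19_1_83 : pfC (piC [(nat_lit 37297016), (nat_lit 23751559), (nat_lit 15232604)] (nat_lit 11488537)) p13_19_1 (nat_lit 3) (nat_lit 83) (nat_lit 84) = true := by decide +kernel
def p13_19_1_84 : pfC (piC [(nat_lit 37297016), (nat_lit 23751559), (nat_lit 15232604)] (nat_lit 11488537)) p13_19_1 (nat_lit 3) (nat_lit 84) (nat_lit 85) = true := by decide +kernel
def p13_19_1_85 : pfC (piC [(nat_lit 37297016), (nat_lit 23751559), (nat_lit 15232604)] (nat_lit 11488537)) p13_19_1 (nat_lit 3) (nat_lit 85) (nat_lit 86) = true := by decide +kernel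
def p13_19_1_86 : pfC (piC [(nat_lit 37297016), (nat_lit 23751559), (nat_lit 15232604)] (nat_lit 11488537)) p13_19_1 (nat_lit 3) (nat_lit 86) (nat_lit 87) = true := by decide +kernel
def p13_19_1_87 : pfC (piC [(nat_lit 37297016), (nat_lit 23751559), (nat_lit 15232604)] (nat_lit 11488537)) p13_19_1 (nat_lit 3) (nat_lit 87) (nat_lit 88) = true := by decide +kernel
def p13_19_1_88 : pfC (piC [(nat_lit 37297016), (nat_lit 23751559), (nat_lit 15232604)] (nat_lit 11488537)) p13_19_1 (nat_lit 3) (nat_lit 88) (nat_lit 89) = true := by decide +kernel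
def p13_19_1_89 : pfC (piC [(nat_lit 37297016), (nat_lit 23751559), (nat_lit 15232604)] (nat_lit 11488537)) p13_19_1 (nat_lit 3) (nat_lit 89) (nat_lit 90) = true := by decide +kernel
def p13_19_1_90 : pfC (piC [(nat_lit 37297016), (nat_lit 23751559), (nat_lit 15232604)] (nat_lit 11488537)) p13_19_1 (nat_lit 3) (nat_lit 90) (nat_lit 91) = true := by decide +kernel
def p13_19_1_91 : pfC (piC [(nat_lit 37297016), (nat_lit 23751559), (nat_lit 15232604)] (nat_lit 11488537)) p13_19_1 (nat_lit 3) (nat_lit 91) (nat_lit 92) = true := by decide +kernel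
def p13_19_1_92 : pfC (piC [(nat_lit 37297016), (nat_lit 23751559), (nat_lit 15232604)] (nat_lit 11488537)) p13_19_1 (nat_lit 3) (nat_lit 92) (nat_lit 93) = true := by decide +kernel
def p13_19_1_93 : pfC (piC [(nat_lit 37297016), (nat_lit 23751559), (nat_lit 15232604)] (nat_lit 11488537)) p13_19_1 (nat_lit 3) (nat_lit 93) (nat_lit 94) = true := by decide +kernel
def p13_19_1_94 : pfC (piC [(nat_lit 37297016), (nat_lit 23751559), (nat_lit 15232604)] (nat_lit 11488537)) p13_19_1 (nat_lit 3) (nat_lit 94) (nat_lit 95) = true := by decide +kernel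
def p13_19_1_95 : pfC (piC [(nat_lit 37297016), (nat_lit 23751559), (nat_lit 15232604)] (nat_lit 11488537)) p13_19_1 (nat_lit 3) (nat_lit 95) (nat_lit 96) = true := by decide +kernel
def p13_19_1_96 : pfC (piC [(nat_lit 37297016), (nat_lit 23751559), (nat_lit 15232604)] (nat_lit 11488537)) p13_19_1 (nat_lit 3) (nat_lit 96) (nat_lit 97) = true := by decide +kernel
def p13_19_1_97 : pfC (piC [(nat_lit 37297016), (nat_lit 23751559), (nat_lit 15232604)] (nat_lit 11488537)) p13_19_1 (nat_lit 3) (nat_lit 97) (nat_lit 98) = true := by decide +kernel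
def p13_19_1_98 : pfC (piC [(nat_lit 37297016), (nat_lit 23751559), (nat_lit 15232604)] (nat_lit 11488537)) p13_19_1 (nat_lit 3) (nat_lit 98) (nat_lit 99) = true := by decide +kernel
def p13_19_1_99 : pfC (piC [(nat_lit 37297016), (nat_lit 23751559), (nat_lit 15232604)] (nat_lit 11488537)) p13_19_1 (nat_lit 3) (nat_lit 99) (nat_lit 100) = true := by decide +kernel
def p13_19_1_100 : pfC (piC [(nat_lit 37297016), (nat_lit 23751559), (nat_lit 15232604)] (nat_lit 11488537)) p13_19_1 (nat_lit 3) (nat_lit 100) (nat_lit 101) = true := by decide +kernel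
def p13_19_1_101 : pfC (piC [(nat_lit 37297016), (nat_lit 23751559), (nat_lit 15232604)] (nat_lit 11488537)) p13_19_1 (nat_lit 3) (nat_lit 101) (nat_lit 102) = true := by decide +kernel
def p13_19_1_102 : pfC (piC [(nat_lit 37297016), (nat_lit 23751559), (nat_lit 15232604)] (nat_lit 11488537)) p13_19_1 (nat_lit 3) (nat_lit 102) (nat_lit 103) = true := by decide +kernel
def p13_19_1_103 : pfC (piC [(nat_lit 37297016), (nat_lit 23751559), (nat_lit 15232604)] (nat_lit 11488537)) p13_19_1 (nat_lit 3) (nat_lit 103) (nat_lit 104) = true := by decide +kernel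
def p13_19_1_104 : pfC (piC [(nat_lit 37297016), (nat_lit 23751559), (nat_lit 15232604)] (nat_lit 11488537)) p13_19_1 (nat_lit 3) (nat_lit 104) (nat_lit 105) = true := by decide +kernel
def p13_19_1_105 : pfC (piC [(nat_lit 37297016), (nat_lit 23751559), (nat_lit 15232604)] (nat_lit 11488537)) p13_19_1 (nat_lit 3) (nat_lit 105) (nat_lit 106) = true := by decide +kernel
def p13_19_1_106 : pfC (piC [(nat_lit 37297016), (nat_lit 23751559), (nat_lit 15232604)] (nat_lit 11488537)) p13_19_1 (nat_lit 3) (nat_lit 106) (nat_lit 107) = true := by decide +kernel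
def p13_19_1_107 : pfC (piC [(nat_lit 37297016), (nat_lit 23751559), (nat_lit 15232604)] (nat_lit 11488537)) p13_19_1 (nat_lit 3) (nat_lit 107) (nat_lit 108) = true := by decide +kernel
def p13_19_1_108 : pfC (piC [(nat_lit 37297016), (nat_lit 23751559), (nat_lit 15232604)] (nat_lit 11488537)) p13_19_1 (nat_lit 3) (nat_lit 108) (nat_lit 109) = true := by decide +kernel
def p13_19_1_109 : pfC (piC [(nat_lit 37297016), (nat_lit 23751559), (nat_lit 15232604)] (nat_lit 11488537)) p13_19_1 (nat_lit 3) (nat_lit 109) (nat_lit 110) = true := by decide +kernel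
def p13_19_1_110 : pfC (piC [(nat_lit 37297016), (nat_lit 23751559), (nat_lit 15232604)] (nat_lit 11488537)) p13_19_1 (nat_lit 3) (nat_lit 110) (nat_lit 111) = true := by decide +kernel
def p13_19_1_111 : pfC (piC [(nat_lit 37297016), (nat_lit 23751559), (nat_lit 15232604)] (nat_lit 11488537)) p13_19_1 (nat_lit 3) (nat_lit 111) (nat_lit 112) = true := by decide +kernel
def p13_19_1_112 : pfC (piC [(nat_lit 37297016), (nat_lit 23751559), (nat_lit 15232604)] (nat_lit 11488537)) p13_19_1 (nat_lit 3) (nat_lit 112) (nat_lit 113) = true := by decide +kernel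
def p13_19_1_113 : pfC (piC [(nat_lit 37297016), (nat_lit 23751559), (nat_lit 15232604)] (nat_lit 11488537)) p13_19_1 (nat_lit 3) (nat_lit 113) (nat_lit 114) = true := by decide +kernel
def p13_19_1_114 : pfC (piC [(nat_lit 37297016), (nat_lit 23751559), (nat_lit 15232604)] (nat_lit 11488537)) p13_19_1 (nat_lit 3) (nat_lit 114) (nat_lit 115) = true := by decide +kernel
def p13_19_1_115 : pfC (piC [(nat_lit 37297016), (nat_lit 23751559), (nat_lit 15232604)] (nat_lit 11488537)) p13_19_1 (nat_lit 3) (nat_lit 115) (nat_lit 116) = true := by decide +kernel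
def p13_19_1_116 : pfC (piC [(nat_lit 37297016), (nat_lit 23751559), (nat_lit 15232604)] (nat_lit 11488537)) p13_19_1 (nat_lit 3) (nat_lit 116) (nat_lit 117) = true := by decide +kernel
def p13_19_1_117 : pfC (piC [(nat_lit 37297016), (nat_lit 23751559), (nat_lit 15232604)] (nat_lit 11488537)) p13_19_1 (nat_lit 3) (nat_lit 117) (nat_lit 118) = true := by decide +kernel
def p13_19_1_118 : pfC (piC [(nat_lit 37297016), (nat_lit 23751559), (nat_lit 15232604)] (nat_lit 11488537)) p13_19_1 (nat_lit 3) (nat_lit 118) (nat_lit 119) = true := by decide +kernel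
def p13_19_1_119 : pfC (piC [(nat_lit 37297016), (nat_lit 23751559), (nat_lit 15232604)] (nat_lit 11488537)) p13_19_1 (nat_lit 3) (nat_lit 119) (nat_lit 120) = true := by decide +kernel
def p13_19_1_120 : pfC (piC [(nat_lit 37297016), (nat_lit 23751559), (nat_lit 15232604)] (nat_lit 11488537)) p13_19_1 (nat_lit 3) (nat_lit 120) (nat_lit 121) = true := by decide +kernel
def p13_19_1_121 : pfC (piC [(nat_lit 37297016), (nat_lit 23751559), (nat_lit 15232604)] (nat_lit 11488537)) p13_19_1 (nat_lit 3) (nat_lit 121) (nat_lit 122) = true := by decide +kernel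
def p13_19_1_122 : pfC (piC [(nat_lit 37297016), (nat_lit 23751559), (nat_lit 15232604)] (nat_lit 11488537)) p13_19_1 (nat_lit 3) (nat_lit 122) (nat_lit 123) = true := by decide +kernel
def p13_19_1_123 : pfC (piC [(nat_lit 37297016), (nat_lit 23751559), (nat_lit 15232604)] (nat_lit 11488537)) p13_19_1 (nat_lit 3) (nat_lit 123) (nat_lit 124) = true := by decide +kernel
def p13_19_1_124 : pfC (piC [(nat_lit 37297016), (nat_lit 23751559), (nat_lit 15232604)] (nat_lit 11488537)) p13_19_1 (nat_lit 3) (nat_lit 124) (nat_lit 125) = true := by decide +kernel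
def p13_19_1_125 : pfC (piC [(nat_lit 37297016), (nat_lit 23751559), (nat_lit 15232604)] (nat_lit 11488537)) p13_19_1 (nat_lit 3) (nat_lit 125) (nat_lit 126) = true := by decide +kernel
def p13_19_1_126 : pfC (piC [(nat_lit 37297016), (nat_lit 23751559), (nat_lit 15232604)] (nat_lit 11488537)) p13_19_1 (nat_lit 3) (nat_lit 126) (nat_lit 127) = true := by decide +kernel
def p13_19_1_127 : pfC (piC [(nat_lit 37297016), (nat_lit 23751559), (nat_lit 15232604)] (nat_lit 11488537)) p13_19_1 (nat_lit 3) (nat_lit 127) (nat_lit 128) = true := by decide +kernel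
def p13_19_1_128 : pfC (piC [(nat_lit 37297016), (nat_lit 23751559), (nat_lit 15232604)] (nat_lit 11488537)) p13_19_1 (nat_lit 3) (nat_lit 128) (nat_lit 129) = true := by decide +kernel
def p13_19_1_129 : pfC (piC [(nat_lit 37297016), (nat_lit 23751559), (nat_lit 15232604)] (nat_lit 11488537)) p13_19_1 (nat_lit 3) (nat_lit 129) (nat_lit 130) = true := by decide +kernel
def p13_19_1_130 : pfC (piC [(nat_lit 37297016), (nat_lit 23751559), (nat_lit 15232604)] (nat_lit 11488537)) p13_19_1 (nat_lit 3) (nat_lit 130) (nat_lit 131) = true := by decide +kernel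
def p13_19_1_131 : pfC (piC [(nat_lit 37297016), (nat_lit 23751559), (nat_lit 15232604)] (nat_lit 11488537)) p13_19_1 (nat_lit 3) (nat_lit 131) (nat_lit 132) = true := by decide +kernel
def p13_19_1_132 : pfC (piC [(nat_lit 37297016), (nat_lit 23751559), (nat_lit 15232604)] (nat_lit 11488537)) p13_19_1 (nat_lit 3) (nat_lit 132) (nat_lit 133) = true := by decide +kernel
def p13_19_1_133 : pfC (piC [(nat_lit 37297016), (nat_lit 23751559), (nat_lit 15232604)] (nat_lit 11488537)) p13_19_1 (nat_lit 3) (nat_lit 133) (nat_lit 134) = true := by decide +kernel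
def p13_19_1_134 : pfC (piC [(nat_lit 37297016), (nat_lit 23751559), (nat_lit 15232604)] (nat_lit 11488537)) p13_19_1 (nat_lit 3) (nat_lit 134) (nat_lit 135) = true := by decide +kernel
def p13_19_1_135 : pfC (piC [(nat_lit 37297016), (nat_lit 23751559), (nat_lit 15232604)] (nat_lit 11488537)) p13_19_1 (nat_lit 3) (nat_lit 135) (nat_lit 136) = true := by decide +kernel
def p13_19_1_136 : pfC (piC [(nat_lit 37297016), (nat_lit 23751559), (nat_lit 15232604)] (nat_lit 11488537)) p13_19_1 (nat_lit 3) (nat_lit 136) (nat_lit 137) = true := by decide +kernel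
def p13_19_1_137 : pfC (piC [(nat_lit 37297016), (nat_lit 23751559), (nat_lit 15232604)] (nat_lit 11488537)) p13_19_1 (nat_lit 3) (nat_lit 137) (nat_lit 138) = true := by decide +kernel
def p13_19_1_138 : pfC (piC [(nat_lit 37297016), (nat_lit 23751559), (nat_lit 15232604)] (nat_lit 11488537)) p13_19_1 (nat_lit 3) (nat_lit 138) (nat_lit 139) = true := by decide +kernel
def p13_19_1_139 : pfC (piC [(nat_lit 37297016), (nat_lit 23751559), (nat_lit 15232604)] (nat_lit 11488537)) p13_19_1 (nat_lit 3) (nat_lit 139) (nat_lit 140) = true := by decide +kernel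
def p13_19_1_140 : pfC (piC [(nat_lit 37297016), (nat_lit 23751559), (nat_lit 15232604)] (nat_lit 11488537)) p13_19_1 (nat_lit 3) (nat_lit 140) (nat_lit 141) = true := by decide +kernel
def p13_19_1_141 : pfC (piC [(nat_lit 37297016), (nat_lit 23751559), (nat_lit 15232604)] (nat_lit 11488537)) p13_19_1 (nat_lit 3) (nat_lit 141) (nat_lit 142) = true := by decide +kernel
def p13_19_1_142 : pfC (piC [(nat_lit 37297016), (nat_lit 23751559), (nat_lit 15232604)] (nat_lit 11488537)) p13_19_1 (nat_lit 3) (nat_lit 142) (nat_lit 143) = true := by decide +kernel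
def p13_19_1_143 : pfC (piC [(nat_lit 37297016), (nat_lit 23751559), (nat_lit 15232604)] (nat_lit 11488537)) p13_19_1 (nat_lit 3) (nat_lit 143) (nat_lit 144) = true := by decide +kernel
def p13_19_1_144 : pfC (piC [(nat_lit 37297016), (nat_lit 23751559), (nat_lit 15232604)] (nat_lit 11488537)) p13_19_1 (nat_lit 3) (nat_lit 144) (nat_lit 145) = true := by decide +kernel
def p13_19_1_145 : pfC (piC [(nat_lit 37297016), (nat_lit 23751559), (nat_lit 15232604)] (nat_lit 11488537)) p13_19_1 (nat_lit 3) (nat_lit 145) (nat_lit 146) = true := by decide +kernel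
def p13_19_1_146 : pfC (piC [(nat_lit 37297016), (nat_lit 23751559), (nat_lit 15232604)] (nat_lit 11488537)) p13_19_1 (nat_lit 3) (nat_lit 146) (nat_lit 147) = true := by decide +kernel
def p13_19_1_147 : pfC (piC [(nat_lit 37297016), (nat_lit 23751559), (nat_lit 15232604)] (nat_lit 11488537)) p13_19_1 (nat_lit 3) (nat_lit 147) (nat_lit 148) = true := by decide +kernel
def p13_19_1_148 : pfC (piC [(nat_lit 37297016), (nat_lit 23751559), (nat_lit 15232604)] (nat_lit 11488537)) p13_19_1 (nat_lit 3) (nat_lit 148) (nat_lit 149) = true := by decide +kernel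
def p13_19_1_149 : pfC (piC [(nat_lit 37297016), (nat_lit 23751559), (nat_lit 15232604)] (nat_lit 11488537)) p13_19_1 (nat_lit 3) (nat_lit 149) (nat_lit 150) = true := by decide +kernel
def p13_19_1_150 : pfC (piC [(nat_lit 37297016), (nat_lit 23751559), (nat_lit 15232604)] (nat_lit 11488537)) p13_19_1 (nat_lit 3) (nat_lit 150) (nat_lit 151) = true := by decide +kernel
def p13_19_1_151 : pfC (piC [(nat_lit 37297016), (nat_lit 23751559), (nat_lit 15232604)] (nat_lit 11488537)) p13_19_1 (nat_lit 3) (nat_lit 151) (nat_lit 152) = true := by decide +kernel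
def p13_19_1_152 : pfC (piC [(nat_lit 37297016), (nat_lit 23751559), (nat_lit 15232604)] (nat_lit 11488537)) p13_19_1 (nat_lit 3) (nat_lit 152) (nat_lit 153) = true := by decide +kernel
def p13_19_1_153 : pfC (piC [(nat_lit 37297016), (nat_lit 23751559), (nat_lit 15232604)] (nat_lit 11488537)) p13_19_1 (nat_lit 3) (nat_lit 153) (nat_lit 154) = true := by decide +kernel
def p13_19_1_154 : pfC (piC [(nat_lit 37297016), (nat_lit 23751559), (nat_lit 15232604)] (nat_lit 11488537)) p13_19_1 (nat_lit 3) (nat_lit 154) (nat_lit 155) = true := by decide +kernel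
def p13_19_1_155 : pfC (piC [(nat_lit 37297016), (nat_lit 23751559), (nat_lit 15232604)] (nat_lit 11488537)) p13_19_1 (nat_lit 3) (nat_lit 155) (nat_lit 156) = true := by decide +kernel
def p13_19_1_156 : pfC (piC [(nat_lit 37297016), (nat_lit 23751559), (nat_lit 15232604)] (nat_lit 11488537)) p13_19_1 (nat_lit 3) (nat_lit 156) (nat_lit 157) = true := by decide +kernel
def p13_19_1_157 : pfC (piC [(nat_lit 37297016), (nat_lit 23751559), (nat_lit 15232604)] (nat_lit 11488537)) p13_19_1 (nat_lit 3) (nat_lit 157) (nat_lit 158) = true := by decide +kernel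
def p13_19_1_158 : pfC (piC [(nat_lit 37297016), (nat_lit 23751559), (nat_lit 15232604)] (nat_lit 11488537)) p13_19_1 (nat_lit 3) (nat_lit 158) (nat_lit 159) = true := by decide +kernel
def p13_19_1_159 : pfC (piC [(nat_lit 37297016), (nat_lit 23751559), (nat_lit 15232604)] (nat_lit 11488537)) p13_19_1 (nat_lit 3) (nat_lit 159) (nat_lit 160) = true := by decide +kernel
def p13_19_1_160 : pfC (piC [(nat_lit 37297016), (nat_lit 23751559), (nat_lit 15232604)] (nat_lit 11488537)) p13_19_1 (nat_lit 3) (nat_lit 160) (nat_lit 161) = true := by decide +kernel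
def p13_19_1_161 : pfC (piC [(nat_lit 37297016), (nat_lit 23751559), (nat_lit 15232604)] (nat_lit 11488537)) p13_19_1 (nat_lit 3) (nat_lit 161) (nat_lit 162) = true := by decide +kernel
def p13_19_1_162 : pfC (piC [(nat_lit 37297016), (nat_lit 23751559), (nat_lit 15232604)] (nat_lit 11488537)) p13_19_1 (nat_lit 3) (nat_lit 162) (nat_lit 163) = true := by decide +kernel
def p13_19_1_163 : pfC (piC [(nat_lit 37297016), (nat_lit 23751559), (nat_lit 15232604)] (nat_lit 11488537)) p13_19_1 (nat_lit 3) (nat_lit 163) (nat_lit 164) = true := by decide +kernel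
def p13_19_1_164 : pfC (piC [(nat_lit 37297016), (nat_lit 23751559), (nat_lit 15232604)] (nat_lit 11488537)) p13_19_1 (nat_lit 3) (nat_lit 164) (nat_lit 165) = true := by decide +kernel
def p13_19_1_165 : pfC (piC [(nat_lit 37297016), (nat_lit 23751559), (nat_lit 15232604)] (nat_lit 11488537)) p13_19_1 (nat_lit 3) (nat_lit 165) (nat_lit 166) = true := by decide +kernel
def p13_19_1_166 : pfC (piC [(nat_lit 37297016), (nat_lit 23751559), (nat_lit 15232604)] (nat_lit 11488537)) p13_19_1 (nat_lit 3) (nat_lit 166) (nat_lit 167) = true := by decide +kernel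
def p13_19_1_167 : pfC (piC [(nat_lit 37297016), (nat_lit 23751559), (nat_lit 15232604)] (nat_lit 11488537)) p13_19_1 (nat_lit 3) (nat_lit 167) (nat_lit 168) = true := by decide +kernel
def p13_19_1_168 : pfC (piC [(nat_lit 37297016), (nat_lit 23751559), (nat_lit 15232604)] (nat_lit 11488537)) p13_19_1 (nat_lit 3) (nat_lit 168) (nat_lit 169) = true := by decide +kernel
def p13_19_1_169 : pfC (piC [(nat_lit 37297016), (nat_lit 23751559), (nat_lit 15232604)] (nat_lit 11488537)) p13_19_1 (nat_lit 3) (nat_lit 169) (nat_lit 170) = true := by decide +kernel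
def p13_19_1_170 : pfC (piC [(nat_lit 37297016), (nat_lit 23751559), (nat_lit 15232604)] (nat_lit 11488537)) p13_19_1 (nat_lit 3) (nat_lit 170) (nat_lit 171) = true := by decide +kernel
def p13_19_1_171 : pfC (piC [(nat_lit 37297016), (nat_lit 23751559), (nat_lit 15232604)] (nat_lit 11488537)) p13_19_1 (nat_lit 3) (nat_lit 171) (nat_lit 172) = true := by decide +kernel
def p13_19_1_172 : pfC (piC [(nat_lit 37297016), (nat_lit 23751559), (nat_lit 15232604)] (nat_lit 11488537)) p13_19_1 (nat_lit 3) (nat_lit 172) (nat_lit 173) = true := by decide +kernel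
def p13_19_1_173 : pfC (piC [(nat_lit 37297016), (nat_lit 23751559), (nat_lit 15232604)] (nat_lit 11488537)) p13_19_1 (nat_lit 3) (nat_lit 173) (nat_lit 174) = true := by decide +kernel
def p13_19_1_174 : pfC (piC [(nat_lit 37297016), (nat_lit 23751559), (nat_lit 15232604)] (nat_lit 11488537)) p13_19_1 (nat_lit 3) (nat_lit 174) (nat_lit 175) = true := by decide +kernel
def p13_19_1_175 : pfC (piC [(nat_lit 37297016), (nat_lit 23751559), (nat_lit 15232604)] (nat_lit 11488537)) p13_19_1 (nat_lit 3) (nat_lit 175) (nat_lit 176) = true := by decide +kernel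
def p13_19_1_176 : pfC (piC [(nat_lit 37297016), (nat_lit 23751559), (nat_lit 15232604)] (nat_lit 11488537)) p13_19_1 (nat_lit 3) (nat_lit 176) (nat_lit 177) = true := by decide +kernel
def p13_19_1_177 : pfC (piC [(nat_lit 37297016), (nat_lit 23751559), (nat_lit 15232604)] (nat_lit 11488537)) p13_19_1 (nat_lit 3) (nat_lit 177) (nat_lit 178) = true := by decide +kernel
def p13_19_1_178 : pfC (piC [(nat_lit 37297016), (nat_lit 23751559), (nat_lit 15232604)] (nat_lit 11488537)) p13_19_1 (nat_lit 3) (nat_lit 178) (nat_lit 179) = true := by decide +kernel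
def p13_19_1_179 : pfC (piC [(nat_lit 37297016), (nat_lit 23751559), (nat_lit 15232604)] (nat_lit 11488537)) p13_19_1 (nat_lit 3) (nat_lit 179) (nat_lit 180) = true := by decide +kernel
def p13_19_1_180 : pfC (piC [(nat_lit 37297016), (nat_lit 23751559), (nat_lit 15232604)] (nat_lit 11488537)) p13_19_1 (nat_lit 3) (nat_lit 180) (nat_lit 181) = true := by decide +kernel
def p13_19_1_181 : pfC (piC [(nat_lit 37297016), (nat_lit 23751559), (nat_lit 15232604)] (nat_lit 11488537)) p13_19_1 (nat_lit 3) (nat_lit 181) (nat_lit 182) = true := by decide +kernel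
def p13_19_1_182 : pfC (piC [(nat_lit 37297016), (nat_lit 23751559), (nat_lit 15232604)] (nat_lit 11488537)) p13_19_1 (nat_lit 3) (nat_lit 182) (nat_lit 183) = true := by decide +kernel
def p13_19_1_183 : pfC (piC [(nat_lit 37297016), (nat_lit 23751559), (nat_lit 15232604)] (nat_lit 11488537)) p13_19_1 (nat_lit 3) (nat_lit 183) (nat_lit 184) = true := by decide +kernel
theorem p13_19_1_T : PfS (PiF n13_19.reverse (nat_lit 11488537)) p13_19_1 (nat_lit 3) [] 0 :=
  pftab_of (los := [(nat_lit 37297016), (nat_lit 23751559), (nat_lit 15232604)]) (by decide +kernel) (hi := (nat_lit 184)) (PfP.trans (PfP.trans (PfP.trans (PfP.trans (PfP.trans (PfP.trans (PfP.trans (PfP.trans (PfP.trans (PfP.trans (PfP.trans (PfP.trans (PfP.trans (PfP.trans (PfP.trans (PfP.trans (PfP.trans (PfP.trans (PfP.trans (PfP.trans (PfP.trans (PfP.trans (PfP.trans (PfP.trans (PfP.trans (PfP.trans (PfP.trans (PfP.trans (PfP.trans (PfP.trans (PfP.trans (PfP.trans (PfP.trans (PfP.trans (PfP.trans (PfP.trans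 (PfP.trans (PfP.trans (PfP.trans (PfP.trans (PfP.trans (PfP.trans (PfP.trans (PfP.trans (PfP.trans (PfP.trans (PfP.trans (PfP.trans (PfP.trans (PfP.trans (PfP.trans (PfP.trans (PfP.trans (PfP.trans (PfP.trans (PfP.trans (PfP.trans (PfP.trans (PfP.trans (PfP.trans (PfP.trans (PfP.trans (PfP.trans (PfP.trans (PfP.trans (PfP.trans (PfP.trans (PfP.trans (PfP.trans (PfP.trans (PfP.trans (PfP.trans (PfP.trans (PfP.trans (PfP.trans (PfP.trans (PfP.trans (PfP.trans (PfP.trans (PfP.trans (PfP.trans (PfP.trans (PfP.trans (PfP.trans (PfP.trans (PfP.trans (PfP.trans (PfP.trans (PfP.trans (PfP.trans (PfP.trans (PfP.trans (PfP.trans (PfP.trans (PfP.trans (PfP.trans (PfP.trans (PfP.trans (PfP.trans (PfP.trans (PfP.trans (PfP.trans (PfP.trans (PfP.trans (PfP.trans (PfP.trans (PfP.trans (PfP.trans (PfP.trans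
 (PfP.trans (PfP.trans (PfP.trans (PfP.trans (PfP.trans (PfP.trans (PfP.trans (PfP.trans (PfP.trans (PfP.trans (PfP.trans (PfP.trans (PfP.trans (PfP.trans (PfP.trans (PfP.trans (PfP.trans (PfP.trans (PfP.trans (PfP.trans (PfP.trans (PfP.trans (PfP.trans (PfP.trans (PfP.trans (PfP.trans (PfP.trans (PfP.trans (PfP.trans (PfP.trans (PfP.trans (PfP.trans (PfP.trans (PfP.trans (PfP.trans (PfP.trans (PfP.trans (PfP.trans (PfP.trans (PfP.trans (PfP.trans (PfP.trans (PfP.trans (PfP.trans (PfP.trans (PfP.trans (PfP.trans (PfP.trans (PfP.trans (PfP.trans (PfP.trans (PfP.trans (PfP.trans (PfP.trans (PfP.trans (PfP.trans (PfP.trans (PfP.trans (PfP.trans (PfP.trans (PfP.trans (PfP.trans (PfP.trans (PfP.trans (PfP.trans (PfP.trans (PfP.trans (PfP.trans (PfP.trans (PfP.trans (PfP.trans (PfP.trans (PfP.trans (PfP.trans (pfC_sound p13_19_1_0) (pfC_sound p13_19_1_1)) (pfC_sound p13_19_1_2)) (pfC_sound p13_19_1_3)) (pfC_sound p13_19_1_4)) (pfC_sound p13_19_1_5)) (pfC_sound p13_19_1_6))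 (pfC_sound p13_19_1_7)) (pfC_sound p13_19_1_8)) (pfC_sound p13_19_1_9)) (pfC_sound p13_19_1_10)) (pfC_sound p13_19_1_11)) (pfC_sound p13_19_1_12)) (pfC_sound p13_19_1_13)) (pfC_sound p13_19_1_14)) (pfC_sound
 p13_19_1_15)) (pfC_sound p13_19_1_16)) (pfC_sound p13_19_1_17)) (pfC_sound p13_19_1_18)) (pfC_sound p13_19_1_19)) (pfC_sound p13_19_1_20)) (pfC_sound p13_19_1_21)) (pfC_sound p13_19_1_22)) (pfC_sound p13_19_1_23)) (pfC_sound p13_19_1_24)) (pfC_sound p13_19_1_25)) (pfC_sound p13_19_1_26)) (pfC_sound p13_19_1_27)) (pfC_sound p13_19_1_28)) (pfC_sound p13_19_1_29)) (pfC_sound p13_19_1_30)) (pfC_sound p13_19_1_31)) (pfC_sound p13_19_1_32)) (pfC_sound p13_19_1_33)) (pfC_sound p13_19_1_34)) (pfC_sound p13_19_1_35)) (pfC_sound p13_19_1_36)) (pfC_sound p13_19_1_37)) (pfC_sound p13_19_1_38)) (pfC_sound p13_19_1_39)) (pfC_sound p13_19_1_40)) (pfC_sound p13_19_1_41)) (pfC_sound p13_19_1_42)) (pfC_sound p13_19_1_43)) (pfC_sound p13_19_1_44)) (pfC_sound p13_19_1_45)) (pfC_sound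 p13_19_1_46)) (pfC_sound p13_19_1_47)) (pfC_sound p13_19_1_48)) (pfC_sound p13_19_1_49)) (pfC_sound p13_19_1_50)) (pfC_sound p13_19_1_51)) (pfC_sound p13_19_1_52)) (pfC_sound p13_19_1_53)) (pfC_sound p13_19_1_54)) (pfC_sound p13_19_1_55)) (pfC_sound p13_19_1_56)) (pfC_sound p13_19_1_57)) (pfC_sound p13_19_1_58)) (pfC_sound p13_19_1_59)) (pfC_sound p13_19_1_60)) (pfC_sound p13_19_1_61)) (pfC_sound p13_19_1_62)) (pfC_sound
 p13_19_1_63)) (pfC_sound p13_19_1_64)) (pfC_sound p13_19_1_65)) (pfC_sound p13_19_1_66)) (pfC_sound p13_19_1_67)) (pfC_sound p13_19_1_68)) (pfC_sound p13_19_1_69)) (pfC_sound p13_19_1_70)) (pfC_sound p13_19_1_71)) (pfC_sound p13_19_1_72)) (pfC_sound p13_19_1_73)) (pfC_sound p13_19_1_74)) (pfC_sound p13_19_1_75)) (pfC_sound p13_19_1_76)) (pfC_sound p13_19_1_77)) (pfC_sound p13_19_1_78)) (pfC_sound p13_19_1_79)) (pfC_sound p13_19_1_80)) (pfC_sound p13_19_1_81)) (pfC_sound p13_19_1_82)) (pfC_sound p13_19_1_83)) (pfC_sound p13_19_1_84)) (pfC_sound p13_19_1_85))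 (pfC_sound p13_19_1_86)) (pfC_sound p13_19_1_87)) (pfC_sound p13_19_1_88)) (pfC_sound p13_19_1_89)) (pfC_sound p13_19_1_90)) (pfC_sound p13_19_1_91)) (pfC_sound p13_19_1_92)) (pfC_sound p13_19_1_93)) (pfC_sound p13_19_1_94)) (pfC_sound p13_19_1_95)) (pfC_sound p13_19_1_96)) (pfC_sound p13_19_1_97)) (pfC_sound p13_19_1_98)) (pfC_sound p13_19_1_99)) (pfC_sound p13_19_1_100)) (pfC_sound p13_19_1_101)) (pfC_sound p13_19_1_102)) (pfC_sound p13_19_1_103)) (pfC_sound p13_19_1_104)) (pfC_sound p13_19_1_105)) (pfC_sound p13_19_1_106)) (pfC_sound p13_19_1_107)) (pfC_sound p13_19_1_108)) (pfC_sound p13_19_1_109)) (pfC_sound p13_19_1_110))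
 (pfC_sound p13_19_1_111)) (pfC_sound p13_19_1_112)) (pfC_sound p13_19_1_113)) (pfC_sound p13_19_1_114)) (pfC_sound p13_19_1_115)) (pfC_sound p13_19_1_116)) (pfC_sound p13_19_1_117)) (pfC_sound p13_19_1_118)) (pfC_sound p13_19_1_119)) (pfC_sound p13_19_1_120)) (pfC_sound p13_19_1_121)) (pfC_sound p13_19_1_122)) (pfC_sound p13_19_1_123)) (pfC_sound p13_19_1_124)) (pfC_sound p13_19_1_125)) (pfC_sound p13_19_1_126)) (pfC_sound p13_19_1_127)) (pfC_sound p13_19_1_128)) (pfC_sound p13_19_1_129)) (pfC_sound p13_19_1_130)) (pfC_sound p13_19_1_131)) (pfC_sound p13_19_1_132)) (pfC_sound p13_19_1_133)) (pfC_sound p13_19_1_134)) (pfC_sound p13_19_1_135)) (pfC_sound p13_19_1_136)) (pfC_sound p13_19_1_137)) (pfC_sound p13_19_1_138)) (pfC_sound p13_19_1_139)) (pfC_sound p13_19_1_140)) (pfC_sound p13_19_1_141)) (pfC_sound p13_19_1_142)) (pfC_sound p13_19_1_143)) (pfC_sound p13_19_1_144)) (pfC_sound p13_19_1_145)) (pfC_sound p13_19_1_146)) (pfC_sound p13_19_1_147)) (pfC_sound p13_19_1_148))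 (pfC_sound p13_19_1_149)) (pfC_sound p13_19_1_150)) (pfC_sound p13_19_1_151)) (pfC_sound p13_19_1_152)) (pfC_sound p13_19_1_153)) (pfC_sound p13_19_1_154)) (pfC_sound p13_19_1_155)) (pfC_sound p13_19_1_156))
 (pfC_sound p13_19_1_157)) (pfC_sound p13_19_1_158)) (pfC_sound p13_19_1_159)) (pfC_sound p13_19_1_160)) (pfC_sound p13_19_1_161)) (pfC_sound p13_19_1_162)) (pfC_sound p13_19_1_163)) (pfC_sound p13_19_1_164)) (pfC_sound p13_19_1_165)) (pfC_sound p13_19_1_166)) (pfC_sound p13_19_1_167)) (pfC_sound p13_19_1_168)) (pfC_sound p13_19_1_169)) (pfC_sound p13_19_1_170)) (pfC_sound p13_19_1_171)) (pfC_sound p13_19_1_172)) (pfC_sound p13_19_1_173)) (pfC_sound p13_19_1_174)) (pfC_sound p13_19_1_175)) (pfC_sound p13_19_1_176)) (pfC_sound p13_19_1_177)) (pfC_sound p13_19_1_178)) (pfC_sound p13_19_1_179)) (pfC_sound p13_19_1_180)) (pfC_sound p13_19_1_181)) (pfC_sound p13_19_1_182)) (pfC_sound p13_19_1_183)) (by decide +kernel)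

def z13_19_1 : zOK yB13_19 (nat_lit 1) (nat_lit 400) (nat_lit 600) (nat_lit 11488537) (nat_lit 7339693) = true := by decide +kernel
def g13_19_1 : gOK yB13_19.x P13_19 (nat_lit 1378) (q13_19 :: r13_19) (nat_lit 1) (nat_lit 400) (nat_lit 2) (nat_lit 600) (nat_lit 11000000) (nat_lit 17850000) (nat_lit 12712500) (nat_lit 12712500) [(nat_lit 800), (nat_lit 1600)] = true := by decide +kernel
def v13_19_1 : ivC P13_19 s13_19 w13_19 n13_19 (nat_lit 3) (nat_lit 4880) (nat_lit 1) (nat_lit 400) f184_0_400 f192_0_400 (nat_lit 2) (nat_lit 600) f184_0_600 f192_0_600 (nat_lit 11488537) (nat_lit 7339693) p13_19_1 = true := by decide +kernel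
def p13_19_2 : PF := (PF.cons (PF.cons (PF.cons (PF.leaf (nat_lit 2478671) (nat_lit 13197491) (nat_lit 53911321) (nat_lit 13197491) [(nat_lit 0), (nat_lit 0), (nat_lit 0)]) (PF.cons (PF.leaf (nat_lit 2682599) (nat_lit 369180) (nat_lit 53541778) (nat_lit 13197854) [(nat_lit 369180), (nat_lit 0), (nat_lit 0)]) (PF.cons (PF.leaf (nat_lit 2922437) (nat_lit 401001) (nat_lit 53111228) (nat_lit 13195581) [(nat_lit 401001), (nat_lit 0), (nat_lit 0)]) (PF.cons (PF.leaf (nat_lit 3191108) (nat_lit 429018) (nat_lit 52631971) (nat_lit 13189785) [(nat_lit 429018), (nat_lit 0), (nat_lit 0)]) (PF.cons (PF.leaf (nat_lit 3484053) (nat_lit 454043) (nat_lit 52112864) (nat_lit 13179775) [(nat_lit 454043), (nat_lit 0), (nat_lit 0)]) (PF.cons (PF.leaf (nat_lit 3797785) (nat_lit 476591) (nat_lit 51560824) (nat_lit 13165030) [(nat_lit 476591), (nat_lit 0), (nat_lit 0)]) (PF.cons (PF.leaf (nat_lit 4129420) (nat_lit 497018) (nat_lit 50981522) (nat_lit 13145179) [(nat_lit 497018), (nat_lit 0),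 (nat_lit 0)]) (PF.cons (PF.leaf (nat_lit 4476491) (nat_lit 515582) (nat_lit 50379757) (nat_lit 13119976) [(nat_lit 515582), (nat_lit 0), (nat_lit 0)]) (PF.cons (PF.leaf (nat_lit 4836874) (nat_lit 532481) (nat_lit 49759673) (nat_lit
 13089290) [(nat_lit 532481), (nat_lit 0), (nat_lit 0)]) (PF.cons (PF.leaf (nat_lit 5208629) (nat_lit 547870) (nat_lit 49124894) (nat_lit 13053084) [(nat_lit 547870), (nat_lit 0), (nat_lit 0)]) (PF.cons (PF.leaf (nat_lit 5590068) (nat_lit 561879) (nat_lit 48478618) (nat_lit 13011401) [(nat_lit 561879), (nat_lit 0), (nat_lit 0)]) (PF.cons (PF.leaf (nat_lit 5979601) (nat_lit 574616) (nat_lit 47823682) (nat_lit 12964350) [(nat_lit 574616), (nat_lit 0), (nat_lit 0)]) (PF.cons (PF.leaf (nat_lit 6375855) (nat_lit 586175) (nat_lit 47162607) (nat_lit 12912095) [(nat_lit 586175), (nat_lit 0), (nat_lit 0)]) (PF.cons (PF.leaf (nat_lit 6777522) (nat_lit 596641) (nat_lit 46497638) (nat_lit 12854840) [(nat_lit 596641), (nat_lit 0), (nat_lit 0)]) (PF.cons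 (PF.leaf (nat_lit 7183443) (nat_lit 606086) (nat_lit 45830772) (nat_lit 12792825) [(nat_lit 606086), (nat_lit 0), (nat_lit 0)]) (PF.cons PF.nil (PF.cons PF.nil (PF.cons PF.nil PF.nil)))))))))))))))))) (PF.cons (PF.cons (PF.leaf (nat_lit 3230598) (nat_lit 1938691) (nat_lit 52004525) (nat_lit 13165596) [(nat_lit 0), (nat_lit 1938691), (nat_lit 0)]) (PF.cons (PF.leaf (nat_lit 3492721) (nat_lit 446501) (nat_lit 51531296) (nat_lit 13152552) [(nat_lit
 446501), (nat_lit 1978462), (nat_lit 0)]) (PF.cons (PF.leaf (nat_lit 3780941) (nat_lit 470082) (nat_lit 51016714) (nat_lit 13135000) [(nat_lit 470082), (nat_lit 2016933), (nat_lit 0)]) (PF.cons (PF.leaf (nat_lit 4090387) (nat_lit 491182) (nat_lit 50469269) (nat_lit 13112599) [(nat_lit 491182), (nat_lit 2053394), (nat_lit 0)]) (PF.cons (PF.leaf (nat_lit 4417791) (nat_lit 510206) (nat_lit 49895390) (nat_lit 13085116) [(nat_lit 510206), (nat_lit 2087481), (nat_lit 0)]) (PF.cons (PF.leaf (nat_lit 4760425) (nat_lit 527428) (nat_lit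 49300230) (nat_lit 13052421) [(nat_lit 527428), (nat_lit 2119015), (nat_lit 0)]) (PF.cons (PF.leaf (nat_lit 5116037) (nat_lit 543055) (nat_lit 48688077) (nat_lit 13014472) [(nat_lit 543055), (nat_lit 2147931), (nat_lit 0)]) (PF.cons (PF.leaf (nat_lit 5482651) (nat_lit 557242) (nat_lit 48062582) (nat_lit 12971300) [(nat_lit 557242), (nat_lit 2174229), (nat_lit 0)]) (PF.cons (PF.leaf (nat_lit 5858562) (nat_lit 570119) (nat_lit 47426899) (nat_lit 12923004) [(nat_lit 570119), (nat_lit 2197951), (nat_lit 0)]) (PF.cons (PF.leaf (nat_lit 6242190) (nat_lit 581792) (nat_lit 46783784) (nat_lit 12869729) [(nat_lit 581792), (nat_lit 2219167), (nat_lit 0)]) (PF.cons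
 (PF.leaf (nat_lit 6632188) (nat_lit 592352) (nat_lit 46135655) (nat_lit 12811667) [(nat_lit 592352), (nat_lit 2237964), (nat_lit 0)]) (PF.cons (PF.leaf (nat_lit 7027276) (nat_lit 601880) (nat_lit 45484642) (nat_lit 12749039) [(nat_lit 601880), (nat_lit 2254441), (nat_lit 0)]) (PF.cons (PF.leaf (nat_lit 7426337) (nat_lit 610449) (nat_lit 44832624) (nat_lit 12682091) [(nat_lit 610449), (nat_lit 2268701), (nat_lit 0)]) (PF.cons PF.nil (PF.cons PF.nil (PF.cons PF.nil PF.nil)))))))))))))))) (PF.cons (PF.cons (PF.leaf (nat_lit 4077693) (nat_lit 2061623) (nat_lit 49910714) (nat_lit 13074852) [(nat_lit 0), (nat_lit 2061623), (nat_lit 0)]) (PF.cons (PF.leaf (nat_lit 4380017) (nat_lit 502961) (nat_lit 49374971) (nat_lit 13045820) [(nat_lit 502961), (nat_lit 2092529), (nat_lit 0)]) (PF.cons (PF.leaf (nat_lit 4701382) (nat_lit 520938) (nat_lit 48812041) (nat_lit 13011704) [(nat_lit 520938), (nat_lit 2121595), (nat_lit 0)]) (PF.cons (PF.leaf (nat_lit 5038257) (nat_lit 537100) (nat_lit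 48227921) (nat_lit 12972495) [(nat_lit 537100), (nat_lit 2148546), (nat_lit 0)]) (PF.cons (PF.leaf (nat_lit 5388116) (nat_lit 551683) (nat_lit 47627326) (nat_lit 12928243) [(nat_lit 551683), (nat_lit 2173254),
 (nat_lit 0)]) (PF.cons (PF.leaf (nat_lit 5748839) (nat_lit 564860) (nat_lit 47014109) (nat_lit 12879047) [(nat_lit 564860), (nat_lit 2195675), (nat_lit 0)]) (PF.cons (PF.leaf (nat_lit 6118668) (nat_lit 576770) (nat_lit 46391504) (nat_lit 12825052) [(nat_lit 576770), (nat_lit 2215817), (nat_lit 0)]) (PF.cons (PF.leaf (nat_lit 6495980) (nat_lit 587521) (nat_lit 45762270) (nat_lit 12766441) [(nat_lit 587521), (nat_lit 2233723), (nat_lit 0)]) (PF.cons (PF.leaf (nat_lit 6879404) (nat_lit 597210) (nat_lit 45128786) (nat_lit 12703426) [(nat_lit 597210), (nat_lit 2249458), (nat_lit 0)]) (PF.cons (PF.leaf (nat_lit 7267705) (nat_lit 605916) (nat_lit 44493119) (nat_lit 12636241) [(nat_lit 605916), (nat_lit 2263102), (nat_lit 0)]) (PF.cons (PF.leaf (nat_lit 7659778) (nat_lit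 613711) (nat_lit 43857071) (nat_lit 12565138) [(nat_lit 613711), (nat_lit 2274744), (nat_lit 0)]) (PF.cons PF.nil (PF.cons PF.nil (PF.cons PF.nil PF.nil)))))))))))))) (PF.cons (PF.cons (PF.leaf (nat_lit 4981902) (nat_lit 2149621) (nat_lit 47733895) (nat_lit 12926053) [(nat_lit 0), (nat_lit 2149621), (nat_lit 0)]) (PF.cons (PF.leaf (nat_lit 5311124) (nat_lit 544782) (nat_lit 47165144) (nat_lit 12881371) [(nat_lit 544782),
 (nat_lit 2172505), (nat_lit 0)]) (PF.cons (PF.leaf (nat_lit 5654087) (nat_lit 558537) (nat_lit 46579507) (nat_lit 12831797) [(nat_lit 558537), (nat_lit 2193478), (nat_lit 0)]) (PF.cons (PF.leaf (nat_lit 6008092) (nat_lit 570883) (nat_lit 45981291) (nat_lit 12777509) [(nat_lit 570883), (nat_lit 2212453), (nat_lit 0)]) (PF.cons (PF.leaf (nat_lit 6371201) (nat_lit 581977) (nat_lit 45373964) (nat_lit 12718706) [(nat_lit 581977), (nat_lit 2229411), (nat_lit 0)]) (PF.cons (PF.leaf (nat_lit 6741750) (nat_lit 591940) (nat_lit 44760394) (nat_lit 12655604) [(nat_lit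 591940), (nat_lit 2244369), (nat_lit 0)]) (PF.cons (PF.leaf (nat_lit 7118312) (nat_lit 600874) (nat_lit 44142995) (nat_lit 12588440) [(nat_lit 600874), (nat_lit 2257376), (nat_lit 0)]) (PF.cons (PF.leaf (nat_lit 7499625) (nat_lit 608862) (nat_lit 43523826) (nat_lit 12517460) [(nat_lit 608862), (nat_lit 2268495), (nat_lit 0)]) (PF.cons (PF.leaf (nat_lit 7884588) (nat_lit 615979) (nat_lit 42904652) (nat_lit 12442921) [(nat_lit 615979), (nat_lit 2277801), (nat_lit 0)]) (PF.cons (PF.leaf (nat_lit 8272201) (nat_lit 622288) (nat_lit 42287000) (nat_lit 12365085) [(nat_lit 622288), (nat_lit 2285377), (nat_lit 0)]) (PF.cons PF.nil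
 (PF.cons PF.nil PF.nil)))))))))))) (PF.cons (PF.cons (PF.leaf (nat_lit 5915317) (nat_lit 2209192) (nat_lit 45545849) (nat_lit 12726194) [(nat_lit 0), (nat_lit 2209192), (nat_lit 0)]) (PF.cons (PF.leaf (nat_lit 6261339) (nat_lit 575432) (nat_lit 44965255) (nat_lit 12667747) [(nat_lit 575432), (nat_lit 2225094), (nat_lit 0)]) (PF.cons (PF.leaf (nat_lit 6617030) (nat_lit 585858) (nat_lit 44375247) (nat_lit 12605001) [(nat_lit 585858), (nat_lit 2239211), (nat_lit 0)]) (PF.cons (PF.leaf (nat_lit 6980302) (nat_lit 595160) (nat_lit 43778941) (nat_lit 12538220) [(nat_lit 595160), (nat_lit 2251542), (nat_lit 0)]) (PF.cons (PF.leaf (nat_lit 7349638) (nat_lit 603450) (nat_lit 43178880) (nat_lit 12467666) [(nat_lit 603450), (nat_lit 2262116), (nat_lit 0)]) (PF.cons (PF.leaf (nat_lit 7723734) (nat_lit 610819) (nat_lit 42577179) (nat_lit 12393601) [(nat_lit 610819), (nat_lit 2270984), (nat_lit 0)]) (PF.cons (PF.leaf (nat_lit 8101452) (nat_lit 617344) (nat_lit 41975619) (nat_lit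 12316291) [(nat_lit 617344), (nat_lit 2278208), (nat_lit 0)]) (PF.cons (PF.leaf (nat_lit 8481802) (nat_lit 623094) (nat_lit 41375711) (nat_lit 12235996) [(nat_lit 623094), (nat_lit 2283861), (nat_lit 0)]) (PF.cons PF.nil
 (PF.cons PF.nil PF.nil)))))))))) (PF.cons (PF.cons (PF.leaf (nat_lit 6857329) (nat_lit 2245634) (nat_lit 43395791) (nat_lit 12484848) [(nat_lit 0), (nat_lit 2245634), (nat_lit 0)]) (PF.cons (PF.leaf (nat_lit 7212475) (nat_lit 597272) (nat_lit 42818266) (nat_lit 12415170) [(nat_lit 597272), (nat_lit 2255620), (nat_lit 0)]) (PF.cons (PF.leaf (nat_lit 7574175) (nat_lit 605025) (nat_lit 42236684) (nat_lit 12341945) [(nat_lit 605025), (nat_lit 2264026), (nat_lit 0)]) (PF.cons (PF.leaf (nat_lit 7940776) (nat_lit 611869) (nat_lit 41653302) (nat_lit 12265462) [(nat_lit 611869), (nat_lit 2270888), (nat_lit 0)]) (PF.cons (PF.leaf (nat_lit 8311087) (nat_lit 617887) (nat_lit 41069971) (nat_lit 12185996) [(nat_lit 617887), (nat_lit 2276258), (nat_lit 0)]) (PF.cons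 (PF.leaf (nat_lit 8684085) (nat_lit 623152) (nat_lit 40488235) (nat_lit 12103813) [(nat_lit 623152), (nat_lit 2280200), (nat_lit 0)]) (PF.cons PF.nil (PF.cons PF.nil PF.nil)))))))) (PF.cons (PF.cons (PF.leaf (nat_lit 7792983) (nat_lit 2263413) (nat_lit 41316320) (nat_lit 12212011) [(nat_lit 0), (nat_lit 2263413), (nat_lit 0)]) (PF.cons (PF.leaf (nat_lit 8151508) (nat_lit 612082) (nat_lit 40752047) (nat_lit 12133739) [(nat_lit
 612082), (nat_lit 2268490), (nat_lit 0)]) (PF.cons (PF.leaf (nat_lit 8514201) (nat_lit 617675) (nat_lit 40187492) (nat_lit 12052692) [(nat_lit 617675), (nat_lit 2272212), (nat_lit 0)]) (PF.cons (PF.leaf (nat_lit 8879722) (nat_lit 622527) (nat_lit 39624280) (nat_lit 11969146) [(nat_lit 622527), (nat_lit 2274633), (nat_lit 0)]) (PF.cons (PF.leaf (nat_lit 9247176) (nat_lit 626705) (nat_lit 39063748) (nat_lit 11883364) [(nat_lit 626705), (nat_lit 2275812), (nat_lit 0)]) (PF.cons PF.nil PF.nil)))))) (PF.cons (PF.cons (PF.leaf (nat_lit 8711739) (nat_lit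 2266301) (nat_lit 39327760) (nat_lit 11916941) [(nat_lit 0), (nat_lit 2266301), (nat_lit 0)]) (PF.cons (PF.leaf (nat_lit 9069402) (nat_lit 621273) (nat_lit 38783388) (nat_lit 11832525) [(nat_lit 621273), (nat_lit 2267375), (nat_lit 0)]) (PF.cons (PF.leaf (nat_lit 9429417) (nat_lit 625118) (nat_lit 38241326) (nat_lit 11746047) [(nat_lit 625118), (nat_lit 2267314), (nat_lit 0)]) (PF.cons PF.nil PF.nil)))) (PF.cons (PF.cons (PF.leaf (nat_lit 9606466) (nat_lit 2257458) (nat_lit 37441506) (nat_lit 11607638) [(nat_lit 0), (nat_lit 2257458), (nat_lit 0)]) (PF.cons PF.nil PF.nil)) (PF.cons PF.nil (PF.cons PF.nil PF.nil))))))))))) (PF.cons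
 (PF.cons (PF.cons (PF.leaf (nat_lit 4172312) (nat_lit 6368857) (nat_lit 47882451) (nat_lit 12857503) [(nat_lit 0), (nat_lit 0), (nat_lit 6368857)]) (PF.cons (PF.leaf (nat_lit 4440050) (nat_lit 475693) (nat_lit 47426230) (nat_lit 12825241) [(nat_lit 475693), (nat_lit 0), (nat_lit 6381646)]) (PF.cons (PF.leaf (nat_lit 4731450) (nat_lit 496791) (nat_lit 46934654) (nat_lit 12787879) [(nat_lit 496791), (nat_lit 0), (nat_lit 6392696)]) (PF.cons (PF.leaf (nat_lit 5041535) (nat_lit 515215) (nat_lit 46416085) (nat_lit 12745616) [(nat_lit 515215), (nat_lit 0), (nat_lit 6401462)]) (PF.cons (PF.leaf (nat_lit 5366969) (nat_lit 531479) (nat_lit 45876671) (nat_lit 12698624) [(nat_lit 531479), (nat_lit 0), (nat_lit 6407600)]) (PF.cons (PF.leaf (nat_lit 5705127) (nat_lit 545929) (nat_lit 45321188) (nat_lit 12647074) [(nat_lit 545929), (nat_lit 0), (nat_lit 6410902)]) (PF.cons (PF.leaf (nat_lit 6053852) (nat_lit 558818) (nat_lit 44753493) (nat_lit 12591150) [(nat_lit 558818), (nat_lit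 0), (nat_lit 6411258)]) (PF.cons (PF.leaf (nat_lit 6411336) (nat_lit 570335) (nat_lit 44176776) (nat_lit 12531054) [(nat_lit 570335), (nat_lit 0), (nat_lit 6408631)]) (PF.cons (PF.leaf (nat_lit 6776014) (nat_lit
 580631) (nat_lit 43593723) (nat_lit 12466999) [(nat_lit 580631), (nat_lit 0), (nat_lit 6403037)]) (PF.cons (PF.leaf (nat_lit 7146545) (nat_lit 589827) (nat_lit 43006621) (nat_lit 12399213) [(nat_lit 589827), (nat_lit 0), (nat_lit 6394531)]) (PF.cons (PF.leaf (nat_lit 7521722) (nat_lit 598024) (nat_lit 42417435) (nat_lit 12327933) [(nat_lit 598024), (nat_lit 0), (nat_lit 6383200)]) (PF.cons (PF.leaf (nat_lit 7900486) (nat_lit 605309) (nat_lit 41827859) (nat_lit 12253400) [(nat_lit 605309), (nat_lit 0), (nat_lit 6369151)]) (PF.cons PF.nil (PF.cons PF.nil (PF.cons PF.nil (PF.cons PF.nil PF.nil)))))))))))))))) (PF.cons (PF.cons (PF.leaf (nat_lit 5006352) (nat_lit 2114031) (nat_lit 45909610) (nat_lit 12691891) [(nat_lit 0), (nat_lit 2114031), (nat_lit 6393278)])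 (PF.cons (PF.leaf (nat_lit 5307352) (nat_lit 522145) (nat_lit 45407804) (nat_lit 12645784) [(nat_lit 522145), (nat_lit 2136005), (nat_lit 6397073)]) (PF.cons (PF.leaf (nat_lit 5625101) (nat_lit 537690) (nat_lit 44883860) (nat_lit 12594907) [(nat_lit 537690), (nat_lit 2156223), (nat_lit 6398440)]) (PF.cons (PF.leaf (nat_lit 5956127) (nat_lit 551389) (nat_lit 44343356) (nat_lit 12539552) [(nat_lit 551389), (nat_lit 2174544),
 (nat_lit 6397190)]) (PF.cons (PF.leaf (nat_lit 6297993) (nat_lit 563527) (nat_lit 43790565) (nat_lit 12479982) [(nat_lit 563527), (nat_lit 2190922), (nat_lit 6393231)]) (PF.cons (PF.leaf (nat_lit 6648750) (nat_lit 574314) (nat_lit 43228891) (nat_lit 12416446) [(nat_lit 574314), (nat_lit 2205368), (nat_lit 6386536)]) (PF.cons (PF.leaf (nat_lit 7006738) (nat_lit 583907) (nat_lit 42661122) (nat_lit 12349195) [(nat_lit 583907), (nat_lit 2217926), (nat_lit 6377126)]) (PF.cons (PF.leaf (nat_lit 7370545) (nat_lit 592433) (nat_lit 42089581) (nat_lit 12278477)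 [(nat_lit 592433), (nat_lit 2228659), (nat_lit 6365061)]) (PF.cons (PF.leaf (nat_lit 7738953) (nat_lit 599996) (nat_lit 41516230) (nat_lit 12204539) [(nat_lit 599996), (nat_lit 2237643), (nat_lit 6350424)]) (PF.cons (PF.leaf (nat_lit 8110888) (nat_lit 606684) (nat_lit 40942739) (nat_lit 12127630) [(nat_lit 606684), (nat_lit 2244959), (nat_lit 6333318)]) (PF.cons (PF.leaf (nat_lit 8485425) (nat_lit 612572) (nat_lit 40370536) (nat_lit 12047993) [(nat_lit 612572), (nat_lit 2250694), (nat_lit 6313862)]) (PF.cons PF.nil (PF.cons PF.nil (PF.cons PF.nil PF.nil)))))))))))))) (PF.cons (PF.cons (PF.leaf (nat_lit 5880465) (nat_lit 2170399)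
 (nat_lit 43902638) (nat_lit 12483348) [(nat_lit 0), (nat_lit 2170399), (nat_lit 6382027)]) (PF.cons (PF.leaf (nat_lit 6202767) (nat_lit 555327) (nat_lit 43380102) (nat_lit 12425069) [(nat_lit 555327), (nat_lit 2185741), (nat_lit 6376830)]) (PF.cons (PF.leaf (nat_lit 6536896) (nat_lit 566899) (nat_lit 42844446) (nat_lit 12362644) [(nat_lit 566899), (nat_lit 2199399), (nat_lit 6369124)]) (PF.cons (PF.leaf (nat_lit 6880281) (nat_lit 577102) (nat_lit 42299514) (nat_lit 12296395) [(nat_lit 577102), (nat_lit 2211350), (nat_lit 6358893)]) (PF.cons (PF.leaf (nat_lit 7231116) (nat_lit 586116) (nat_lit 41748330) (nat_lit 12226617) [(nat_lit 586116), (nat_lit 2221613), (nat_lit 6346170)]) (PF.cons (PF.leaf (nat_lit 7587894) (nat_lit 594079) (nat_lit 41193343) (nat_lit 12153587) [(nat_lit 594079), (nat_lit 2230233), (nat_lit 6331016)]) (PF.cons (PF.leaf (nat_lit 7949338) (nat_lit 601102) (nat_lit 40636574) (nat_lit 12077569) [(nat_lit 601102), (nat_lit 2237271), (nat_lit 6313514)])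 (PF.cons (PF.leaf (nat_lit 8314339) (nat_lit 607274) (nat_lit 40079713) (nat_lit 11998819) [(nat_lit 607274), (nat_lit 2242794), (nat_lit 6293766)]) (PF.cons (PF.leaf (nat_lit 8681952) (nat_lit 612675) (nat_lit
 39524184) (nat_lit 11917584) [(nat_lit 612675), (nat_lit 2246878), (nat_lit 6271883)]) (PF.cons PF.nil (PF.cons PF.nil (PF.cons PF.nil PF.nil)))))))))))) (PF.cons (PF.cons (PF.leaf (nat_lit 6771878) (nat_lit 2204728) (nat_lit 41915217) (nat_lit 12239833) [(nat_lit 0), (nat_lit 2204728), (nat_lit 6339577)]) (PF.cons (PF.leaf (nat_lit 7106828) (nat_lit 578777) (nat_lit 41388746) (nat_lit 12171594) [(nat_lit 578777), (nat_lit 2214459), (nat_lit 6326317)]) (PF.cons (PF.leaf (nat_lit 7449961) (nat_lit 587336) (nat_lit 40855405) (nat_lit 12099940) [(nat_lit 587336), (nat_lit 2222680), (nat_lit 6310749)]) (PF.cons (PF.leaf (nat_lit 7799332) (nat_lit 594840) (nat_lit 40317894) (nat_lit 12025191) [(nat_lit 594840), (nat_lit 2229421), (nat_lit 6292942)]) (PF.cons (PF.leaf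 (nat_lit 8153560) (nat_lit 601410) (nat_lit 39778371) (nat_lit 11947635) [(nat_lit 601410), (nat_lit 2234727), (nat_lit 6272982)]) (PF.cons (PF.leaf (nat_lit 8511477) (nat_lit 607146) (nat_lit 39238600) (nat_lit 11867543) [(nat_lit 607146), (nat_lit 2238656), (nat_lit 6250969)]) (PF.cons (PF.leaf (nat_lit 8872097) (nat_lit 612128) (nat_lit 38700042) (nat_lit 11785169) [(nat_lit 612128), (nat_lit 2241273), (nat_lit
 6227012)]) (PF.cons PF.nil (PF.cons PF.nil (PF.cons PF.nil PF.nil)))))))))) (PF.cons (PF.cons (PF.leaf (nat_lit 7664400) (nat_lit 2221410) (nat_lit 39982065) (nat_lit 11969736) [(nat_lit 0), (nat_lit 2221410), (nat_lit 6271368)]) (PF.cons (PF.leaf (nat_lit 8005628) (nat_lit 594772) (nat_lit 39462954) (nat_lit 11893843) [(nat_lit 594772), (nat_lit 2226481), (nat_lit 6251317)]) (PF.cons (PF.leaf (nat_lit 8352320) (nat_lit 600979) (nat_lit 38941312) (nat_lit 11815268) [(nat_lit 600979), (nat_lit 2230249), (nat_lit 6229276)]) (PF.cons (PF.leaf (nat_lit 8702949)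 (nat_lit 606354) (nat_lit 38419050) (nat_lit 11734302) [(nat_lit 606354), (nat_lit 2232762), (nat_lit 6205347)]) (PF.cons (PF.leaf (nat_lit 9056463) (nat_lit 610984) (nat_lit 37897712) (nat_lit 11651213) [(nat_lit 610984), (nat_lit 2234077), (nat_lit 6179638)]) (PF.cons (PF.leaf (nat_lit 9411953) (nat_lit 614944) (nat_lit 37378564) (nat_lit 11566247) [(nat_lit 614944), (nat_lit 2234253), (nat_lit 6152262)]) (PF.cons PF.nil (PF.cons PF.nil PF.nil)))))))) (PF.cons (PF.cons (PF.leaf (nat_lit 8546591) (nat_lit 2224045) (nat_lit 38124885) (nat_lit 11680912) [(nat_lit 0), (nat_lit 2224045), (nat_lit 6182785)]) (PF.cons (PF.leaf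
 (nat_lit 8889414) (nat_lit 604944) (nat_lit 37620552) (nat_lit 11599520) [(nat_lit 604944), (nat_lit 2225305), (nat_lit 6157266)]) (PF.cons (PF.leaf (nat_lit 9235660) (nat_lit 609289) (nat_lit 37116669) (nat_lit 11516117) [(nat_lit 609289), (nat_lit 2225468), (nat_lit 6130104)]) (PF.cons (PF.leaf (nat_lit 9584099) (nat_lit 612968) (nat_lit 36614593) (nat_lit 11430962) [(nat_lit 612968), (nat_lit 2224587), (nat_lit 6101411)]) (PF.cons PF.nil (PF.cons PF.nil PF.nil)))))) (PF.cons (PF.cons (PF.leaf (nat_lit 9410548) (nat_lit 2215604) (nat_lit 36356267) (nat_lit 11380213) [(nat_lit 0), (nat_lit 2215604), (nat_lit 6078705)]) (PF.cons (PF.leaf (nat_lit 9751568) (nat_lit 610533) (nat_lit 35871364) (nat_lit 11295209) [(nat_lit 610533), (nat_lit 2213792), (nat_lit 6048950)]) (PF.cons PF.nil (PF.cons PF.nil PF.nil)))) (PF.cons (PF.cons (PF.leaf (nat_lit 10251018) (nat_lit 2198530) (nat_lit 34682428) (nat_lit 11073345) [(nat_lit 0), (nat_lit 2198530), (nat_lit 5963323)]) (PF.cons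 PF.nil PF.nil)) (PF.cons PF.nil (PF.cons PF.nil PF.nil)))))))))) (PF.cons (PF.cons (PF.cons (PF.leaf (nat_lit 5858020) (nat_lit 6280606) (nat_lit 42313827) (nat_lit 12233772) [(nat_lit 0), (nat_lit 0), (nat_lit
 6280606)]) (PF.cons (PF.leaf (nat_lit 6154079) (nat_lit 531179) (nat_lit 41852396) (nat_lit 12177692) [(nat_lit 531179), (nat_lit 0), (nat_lit 6273772)]) (PF.cons (PF.leaf (nat_lit 6465074) (nat_lit 544739) (nat_lit 41372679) (nat_lit 12117277) [(nat_lit 544739), (nat_lit 0), (nat_lit 6264688)]) (PF.cons (PF.leaf (nat_lit 6787602) (nat_lit 556473) (nat_lit 40879738) (nat_lit 12052988) [(nat_lit 556473), (nat_lit 0), (nat_lit 6253333)]) (PF.cons (PF.leaf (nat_lit 7119388) (nat_lit 566696) (nat_lit 40377379) (nat_lit 11985201) [(nat_lit 566696), (nat_lit 0), (nat_lit 6239723)]) (PF.cons (PF.leaf (nat_lit 7458573) (nat_lit 575635) (nat_lit 39868579) (nat_lit 11914242) [(nat_lit 575635), (nat_lit 0), (nat_lit 6223907)]) (PF.cons (PF.leaf (nat_lit 7803654) (nat_lit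 583460) (nat_lit 39355731) (nat_lit 11840403) [(nat_lit 583460), (nat_lit 0), (nat_lit 6205957)]) (PF.cons (PF.leaf (nat_lit 8153363) (nat_lit 590305) (nat_lit 38840795) (nat_lit 11763956) [(nat_lit 590305), (nat_lit 0), (nat_lit 6185960)]) (PF.cons (PF.leaf (nat_lit 8506628) (nat_lit 596278) (nat_lit 38325401) (nat_lit 11685152) [(nat_lit 596278), (nat_lit 0), (nat_lit 6164013)]) (PF.cons (PF.leaf (nat_lit 8862519) (nat_lit
 601469) (nat_lit 37810914) (nat_lit 11604229) [(nat_lit 601469), (nat_lit 0), (nat_lit 6140222)]) (PF.cons PF.nil (PF.cons PF.nil PF.nil)))))))))))) (PF.cons (PF.cons (PF.leaf (nat_lit 6697370) (nat_lit 2160914) (nat_lit 40490232) (nat_lit 11992857) [(nat_lit 0), (nat_lit 2160914), (nat_lit 6232403)]) (PF.cons (PF.leaf (nat_lit 7010728) (nat_lit 557788) (nat_lit 40015696) (nat_lit 11927395) [(nat_lit 557788), (nat_lit 2170856), (nat_lit 6218537)]) (PF.cons (PF.leaf (nat_lit 7334434) (nat_lit 567644) (nat_lit 39530693) (nat_lit 11858426) [(nat_lit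 567644), (nat_lit 2179315), (nat_lit 6202544)]) (PF.cons (PF.leaf (nat_lit 7666066) (nat_lit 576188) (nat_lit 39038619) (nat_lit 11786345) [(nat_lit 576188), (nat_lit 2186307), (nat_lit 6184488)]) (PF.cons (PF.leaf (nat_lit 8003939) (nat_lit 583611) (nat_lit 38542102) (nat_lit 11711489) [(nat_lit 583611), (nat_lit 2191877), (nat_lit 6164449)]) (PF.cons (PF.leaf (nat_lit 8346674) (nat_lit 590060) (nat_lit 38043237) (nat_lit 11634154) [(nat_lit 590060), (nat_lit 2196083), (nat_lit 6142518)]) (PF.cons (PF.leaf (nat_lit 8693130) (nat_lit 595649) (nat_lit 37543725) (nat_lit 11554608) [(nat_lit 595649), (nat_lit 2198990), (nat_lit 6118794)])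
 (PF.cons (PF.leaf (nat_lit 9042332) (nat_lit 600473) (nat_lit 37044969) (nat_lit 11473096) [(nat_lit 600473), (nat_lit 2200669), (nat_lit 6093382)]) (PF.cons PF.nil (PF.cons PF.nil PF.nil)))))))))) (PF.cons (PF.cons (PF.leaf (nat_lit 7546431) (nat_lit 2177752) (nat_lit 38701076) (nat_lit 11728593) [(nat_lit 0), (nat_lit 2177752), (nat_lit 6161819)]) (PF.cons (PF.leaf (nat_lit 7869559) (nat_lit 575884) (nat_lit 38226900) (nat_lit 11655946) [(nat_lit 575884), (nat_lit 2183137), (nat_lit 6141903)]) (PF.cons (PF.leaf (nat_lit 8199764) (nat_lit 583011) (nat_lit 37747514) (nat_lit 11580559) [(nat_lit 583011), (nat_lit 2187236), (nat_lit 6120122)]) (PF.cons (PF.leaf (nat_lit 8535217) (nat_lit 589150) (nat_lit 37265252) (nat_lit 11502768) [(nat_lit 589150), (nat_lit 2190094), (nat_lit 6096576)]) (PF.cons (PF.leaf (nat_lit 8874679) (nat_lit 594429) (nat_lit 36781960) (nat_lit 11422866) [(nat_lit 594429), (nat_lit 2191766), (nat_lit 6071368)]) (PF.cons (PF.leaf (nat_lit 9217080)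 (nat_lit 598948) (nat_lit 36299122) (nat_lit 11341114) [(nat_lit 598948), (nat_lit 2192312), (nat_lit 6044603)]) (PF.cons (PF.leaf (nat_lit 9561552) (nat_lit 602791) (nat_lit 35817952) (nat_lit 11257747) [(nat_lit
 602791), (nat_lit 2191797), (nat_lit 6016385)]) (PF.cons PF.nil PF.nil)))))))) (PF.cons (PF.cons (PF.leaf (nat_lit 8392185) (nat_lit 2180968) (nat_lit 36971346) (nat_lit 11447952) [(nat_lit 0), (nat_lit 2180968), (nat_lit 6073304)]) (PF.cons (PF.leaf (nat_lit 8719693) (nat_lit 587610) (nat_lit 36506274) (nat_lit 11370130) [(nat_lit 587610), (nat_lit 2182635), (nat_lit 6048445)]) (PF.cons (PF.leaf (nat_lit 9051883) (nat_lit 592653) (nat_lit 36039555) (nat_lit 11290246) [(nat_lit 592653), (nat_lit 2183216), (nat_lit 6022027)]) (PF.cons (PF.leaf (nat_lit 9387323) (nat_lit 596931) (nat_lit 35572821) (nat_lit 11208585) [(nat_lit 596931), (nat_lit 2182763), (nat_lit 5994159)]) (PF.cons (PF.leaf (nat_lit 9725079) (nat_lit 600535) (nat_lit 35107376) (nat_lit 11125395)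 [(nat_lit 600535), (nat_lit 2181333), (nat_lit 5964949)]) (PF.cons PF.nil PF.nil)))))) (PF.cons (PF.cons (PF.leaf (nat_lit 9225645) (nat_lit 2173484) (nat_lit 35315826) (nat_lit 11157007) [(nat_lit 0), (nat_lit 2173484), (nat_lit 5971019)]) (PF.cons (PF.leaf (nat_lit 9553644) (nat_lit 594451) (nat_lit 34865418) (nat_lit 11075756) [(nat_lit 594451), (nat_lit 2172153), (nat_lit 5942286)]) (PF.cons (PF.leaf (nat_lit 9884527)
 (nat_lit 597870) (nat_lit 34415773) (nat_lit 10993025) [(nat_lit 597870), (nat_lit 2169919), (nat_lit 5912296)]) (PF.cons PF.nil PF.nil)))) (PF.cons (PF.cons (PF.leaf (nat_lit 10040707) (nat_lit 2157663) (nat_lit 33742436) (nat_lit 10860824) [(nat_lit 0), (nat_lit 2157663), (nat_lit 5858616)]) (PF.cons PF.nil PF.nil)) (PF.cons PF.nil (PF.cons PF.nil PF.nil)))))))) (PF.cons (PF.cons (PF.cons (PF.leaf (nat_lit 7442308) (nat_lit 6051463) (nat_lit 37465990) (nat_lit 11488433) [(nat_lit 0), (nat_lit 0), (nat_lit 6051463)]) (PF.cons (PF.leaf (nat_lit 7745809)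 (nat_lit 554862) (nat_lit 37037431) (nat_lit 11419949) [(nat_lit 554862), (nat_lit 0), (nat_lit 6032189)]) (PF.cons (PF.leaf (nat_lit 8058539) (nat_lit 563356) (nat_lit 36600313) (nat_lit 11348481) [(nat_lit 563356), (nat_lit 0), (nat_lit 6011101)]) (PF.cons (PF.leaf (nat_lit 8378174) (nat_lit 570601) (nat_lit 36157625) (nat_lit 11274456) [(nat_lit 570601), (nat_lit 0), (nat_lit 5988308)]) (PF.cons (PF.leaf (nat_lit 8703150) (nat_lit 576794) (nat_lit 35711652) (nat_lit 11198223) [(nat_lit 576794), (nat_lit 0), (nat_lit 5963919)]) (PF.cons (PF.leaf (nat_lit 9032197) (nat_lit 582085) (nat_lit 35264194) (nat_lit 11120076) [(nat_lit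
 582085), (nat_lit 0), (nat_lit 5938038)]) (PF.cons (PF.leaf (nat_lit 9364288) (nat_lit 586589) (nat_lit 34816695) (nat_lit 11040274) [(nat_lit 586589), (nat_lit 0), (nat_lit 5910768)]) (PF.cons (PF.leaf (nat_lit 9698531) (nat_lit 590399) (nat_lit 34370335) (nat_lit 10959045) [(nat_lit 590399), (nat_lit 0), (nat_lit 5882211)]) (PF.cons PF.nil (PF.cons PF.nil PF.nil)))))))))) (PF.cons (PF.cons (PF.leaf (nat_lit 8250640) (nat_lit 2136927) (nat_lit 35861378) (nat_lit 11217837) [(nat_lit 0), (nat_lit 2136927), (nat_lit 5964223)]) (PF.cons (PF.leaf (nat_lit 8561908) (nat_lit 568939) (nat_lit 35435376) (nat_lit 11144156) [(nat_lit 568939), (nat_lit 2139242), (nat_lit 5940365)]) (PF.cons (PF.leaf (nat_lit 8879419) (nat_lit 574955) (nat_lit 35005267) (nat_lit 11068242) [(nat_lit 574955), (nat_lit 2140452), (nat_lit 5914980)]) (PF.cons (PF.leaf (nat_lit 9201446) (nat_lit 580047) (nat_lit 34573080) (nat_lit 10990433) [(nat_lit 580047), (nat_lit 2140611), (nat_lit 5888181)]) (PF.cons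 (PF.leaf (nat_lit 9526851) (nat_lit 584345) (nat_lit 34140399) (nat_lit 10911011) [(nat_lit 584345), (nat_lit 2139778), (nat_lit 5860080)]) (PF.cons (PF.leaf (nat_lit 9854660) (nat_lit 587949) (nat_lit 33708489)
 (nat_lit 10830222) [(nat_lit 587949), (nat_lit 2138013), (nat_lit 5830780)]) (PF.cons PF.nil (PF.cons PF.nil PF.nil)))))))) (PF.cons (PF.cons (PF.leaf (nat_lit 9053146) (nat_lit 2130990) (nat_lit 34315545) (nat_lit 10937736) [(nat_lit 0), (nat_lit 2130990), (nat_lit 5864516)]) (PF.cons (PF.leaf (nat_lit 9367523) (nat_lit 577522) (nat_lit 33899018) (nat_lit 10860582) [(nat_lit 577522), (nat_lit 2130302), (nat_lit 5837028)]) (PF.cons (PF.leaf (nat_lit 9685994) (nat_lit 581677) (nat_lit 33481356) (nat_lit 10781814) [(nat_lit 581677), (nat_lit 2128696), (nat_lit 5808297)]) (PF.cons (PF.leaf (nat_lit 10007232) (nat_lit 585128) (nat_lit 33063964) (nat_lit 10701700) [(nat_lit 585128), (nat_lit 2126227), (nat_lit 5778435)]) (PF.cons PF.nil (PF.cons PF.nil PF.nil))))))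 (PF.cons (PF.cons (PF.leaf (nat_lit 9842563) (nat_lit 2116806) (nat_lit 32838843) (nat_lit 10652819) [(nat_lit 0), (nat_lit 2116806), (nat_lit 5755576)]) (PF.cons (PF.leaf (nat_lit 10156739) (nat_lit 581952) (nat_lit 32436085) (nat_lit 10573615) [(nat_lit 581952), (nat_lit 2113725), (nat_lit 5725327)]) (PF.cons PF.nil (PF.cons PF.nil PF.nil)))) (PF.cons (PF.cons (PF.leaf (nat_lit 10614037) (nat_lit 2096273) (nat_lit
 31436360) (nat_lit 10366859) [(nat_lit 0), (nat_lit 2096273), (nat_lit 5640166)]) (PF.cons PF.nil PF.nil)) (PF.cons PF.nil PF.nil)))))) (PF.cons (PF.cons (PF.cons (PF.leaf (nat_lit 8894738) (nat_lit 5759075) (nat_lit 33350558) (nat_lit 10721950) [(nat_lit 0), (nat_lit 0), (nat_lit 5759075)]) (PF.cons (PF.leaf (nat_lit 9194471) (nat_lit 559416) (nat_lit 32967834) (nat_lit 10649293) [(nat_lit 559416), (nat_lit 0), (nat_lit 5733067)]) (PF.cons (PF.leaf (nat_lit 9499810) (nat_lit 564560) (nat_lit 32581756) (nat_lit 10574788) [(nat_lit 564560), (nat_lit 0),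 (nat_lit 5705787)]) (PF.cons (PF.leaf (nat_lit 9809127) (nat_lit 568839) (nat_lit 32194096) (nat_lit 10498761) [(nat_lit 568839), (nat_lit 0), (nat_lit 5677359)]) (PF.cons (PF.leaf (nat_lit 10121329) (nat_lit 572383) (nat_lit 31806225) (nat_lit 10421480) [(nat_lit 572383), (nat_lit 0), (nat_lit 5647893)]) (PF.cons PF.nil PF.nil)))))) (PF.cons (PF.cons (PF.leaf (nat_lit 9657646) (nat_lit 2075814) (nat_lit 31967801) (nat_lit 10448921) [(nat_lit 0), (nat_lit 2075814), (nat_lit 5654068)]) (PF.cons (PF.leaf (nat_lit 9959638) (nat_lit 565665) (nat_lit 31594220) (nat_lit 10373957) [(nat_lit 565665), (nat_lit 2073501), (nat_lit 5625366)])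
 (PF.cons (PF.leaf (nat_lit 10265284) (nat_lit 569135) (nat_lit 31219798) (nat_lit 10297704) [(nat_lit 569135), (nat_lit 2070405), (nat_lit 5595658)]) (PF.cons PF.nil PF.nil)))) (PF.cons (PF.cons (PF.leaf (nat_lit 10407357) (nat_lit 2057270) (nat_lit 30647828) (nat_lit 10174607) [(nat_lit 0), (nat_lit 2057270), (nat_lit 5542958)]) (PF.cons (PF.leaf (nat_lit 10708725) (nat_lit 568341) (nat_lit 30286799) (nat_lit 10098506) [(nat_lit 568341), (nat_lit 2053022), (nat_lit 5512279)]) PF.nil)) (PF.cons PF.nil PF.nil)))) (PF.cons (PF.cons (PF.cons (PF.leaf (nat_lit 10214213) (nat_lit 5447371) (nat_lit 29885669) (nat_lit 9986287) [(nat_lit 0), (nat_lit 0), (nat_lit 5447371)]) (PF.cons (PF.leaf (nat_lit 10504593) (nat_lit 552812) (nat_lit 29549791) (nat_lit 9914356) [(nat_lit 552812), (nat_lit 0), (nat_lit 5418370)]) (PF.cons (PF.leaf (nat_lit 10798308) (nat_lit 555747) (nat_lit 29213238) (nat_lit 9841373) [(nat_lit 555747), (nat_lit 0), (nat_lit 5388541)]) (PF.cons PF.nil PF.nil))))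 (PF.cons (PF.cons (PF.leaf (nat_lit 10928090) (nat_lit 1996964) (nat_lit 28702332) (nat_lit 9724933) [(nat_lit 0), (nat_lit 1996964), (nat_lit 5336916)]) (PF.cons PF.nil PF.nil)) PF.nil)) (PF.cons PF.nil
 (PF.cons PF.nil (PF.cons PF.nil (PF.cons PF.nil PF.nil))))))))))

def p13_19_2_0 : pfC (piC [(nat_lit 37297016), (nat_lit 23751559), (nat_lit 15232604)] (nat_lit 7339693)) p13_19_2 (nat_lit 3) (nat_lit 0) (nat_lit 1) = true := by decide +kernel
def p13_19_2_1 : pfC (piC [(nat_lit 37297016), (nat_lit 23751559), (nat_lit 15232604)] (nat_lit 7339693)) p13_19_2 (nat_lit 3) (nat_lit 1) (nat_lit 2) = true := by decide +kernel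
def p13_19_2_2 : pfC (piC [(nat_lit 37297016), (nat_lit 23751559), (nat_lit 15232604)] (nat_lit 7339693)) p13_19_2 (nat_lit 3) (nat_lit 2) (nat_lit 3) = true := by decide +kernel
def p13_19_2_3 : pfC (piC [(nat_lit 37297016), (nat_lit 23751559), (nat_lit 15232604)] (nat_lit 7339693)) p13_19_2 (nat_lit 3) (nat_lit 3) (nat_lit 4) = true := by decide +kernel
def p13_19_2_4 : pfC (piC [(nat_lit 37297016), (nat_lit 23751559), (nat_lit 15232604)] (nat_lit 7339693)) p13_19_2 (nat_lit 3) (nat_lit 4) (nat_lit 5) = true := by decide +kernel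
def p13_19_2_5 : pfC (piC [(nat_lit 37297016), (nat_lit 23751559), (nat_lit 15232604)] (nat_lit 7339693)) p13_19_2 (nat_lit 3) (nat_lit 5) (nat_lit 6) = true := by decide +kernel
def p13_19_2_6 : pfC (piC [(nat_lit 37297016), (nat_lit 23751559), (nat_lit 15232604)] (nat_lit 7339693)) p13_19_2 (nat_lit 3) (nat_lit 6) (nat_lit 7) = true := by decide +kernel
def p13_19_2_7 : pfC (piC [(nat_lit 37297016), (nat_lit 23751559), (nat_lit 15232604)] (nat_lit 7339693)) p13_19_2 (nat_lit 3) (nat_lit 7) (nat_lit 8) = true := by decide +kernel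
def p13_19_2_8 : pfC (piC [(nat_lit 37297016), (nat_lit 23751559), (nat_lit 15232604)] (nat_lit 7339693)) p13_19_2 (nat_lit 3) (nat_lit 8) (nat_lit 9) = true := by decide +kernel
def p13_19_2_9 : pfC (piC [(nat_lit 37297016), (nat_lit 23751559), (nat_lit 15232604)] (nat_lit 7339693)) p13_19_2 (nat_lit 3) (nat_lit 9) (nat_lit 10) = true := by decide +kernel
def p13_19_2_10 : pfC (piC [(nat_lit 37297016), (nat_lit 23751559), (nat_lit 15232604)] (nat_lit 7339693)) p13_19_2 (nat_lit 3) (nat_lit 10) (nat_lit 11) = true := by decide +kernel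
def p13_19_2_11 : pfC (piC [(nat_lit 37297016), (nat_lit 23751559), (nat_lit 15232604)] (nat_lit 7339693)) p13_19_2 (nat_lit 3) (nat_lit 11) (nat_lit 12) = true := by decide +kernel
def p13_19_2_12 : pfC (piC [(nat_lit 37297016), (nat_lit 23751559), (nat_lit 15232604)] (nat_lit 7339693)) p13_19_2 (nat_lit 3) (nat_lit 12) (nat_lit 13) = true := by decide +kernel
def p13_19_2_13 : pfC (piC [(nat_lit 37297016), (nat_lit 23751559), (nat_lit 15232604)] (nat_lit 7339693)) p13_19_2 (nat_lit 3) (nat_lit 13) (nat_lit 14) = true := by decide +kernel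
def p13_19_2_14 : pfC (piC [(nat_lit 37297016), (nat_lit 23751559), (nat_lit 15232604)] (nat_lit 7339693)) p13_19_2 (nat_lit 3) (nat_lit 14) (nat_lit 15) = true := by decide +kernel
def p13_19_2_15 : pfC (piC [(nat_lit 37297016), (nat_lit 23751559), (nat_lit 15232604)] (nat_lit 7339693)) p13_19_2 (nat_lit 3) (nat_lit 15) (nat_lit 16) = true := by decide +kernel
def p13_19_2_16 : pfC (piC [(nat_lit 37297016), (nat_lit 23751559), (nat_lit 15232604)] (nat_lit 7339693)) p13_19_2 (nat_lit 3) (nat_lit 16) (nat_lit 17) = true := by decide +kernel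
def p13_19_2_17 : pfC (piC [(nat_lit 37297016), (nat_lit 23751559), (nat_lit 15232604)] (nat_lit 7339693)) p13_19_2 (nat_lit 3) (nat_lit 17) (nat_lit 18) = true := by decide +kernel
def p13_19_2_18 : pfC (piC [(nat_lit 37297016), (nat_lit 23751559), (nat_lit 15232604)] (nat_lit 7339693)) p13_19_2 (nat_lit 3) (nat_lit 18) (nat_lit 19) = true := by decide +kernel
def p13_19_2_19 : pfC (piC [(nat_lit 37297016), (nat_lit 23751559), (nat_lit 15232604)] (nat_lit 7339693)) p13_19_2 (nat_lit 3) (nat_lit 19) (nat_lit 20) = true := by decide +kernel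
def p13_19_2_20 : pfC (piC [(nat_lit 37297016), (nat_lit 23751559), (nat_lit 15232604)] (nat_lit 7339693)) p13_19_2 (nat_lit 3) (nat_lit 20) (nat_lit 21) = true := by decide +kernel
def p13_19_2_21 : pfC (piC [(nat_lit 37297016), (nat_lit 23751559), (nat_lit 15232604)] (nat_lit 7339693)) p13_19_2 (nat_lit 3) (nat_lit 21) (nat_lit 22) = true := by decide +kernel
def p13_19_2_22 : pfC (piC [(nat_lit 37297016), (nat_lit 23751559), (nat_lit 15232604)] (nat_lit 7339693)) p13_19_2 (nat_lit 3) (nat_lit 22) (nat_lit 23) = true := by decide +kernel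
def p13_19_2_23 : pfC (piC [(nat_lit 37297016), (nat_lit 23751559), (nat_lit 15232604)] (nat_lit 7339693)) p13_19_2 (nat_lit 3) (nat_lit 23) (nat_lit 24) = true := by decide +kernel
def p13_19_2_24 : pfC (piC [(nat_lit 37297016), (nat_lit 23751559), (nat_lit 15232604)] (nat_lit 7339693)) p13_19_2 (nat_lit 3) (nat_lit 24) (nat_lit 25) = true := by decide +kernel
def p13_19_2_25 : pfC (piC [(nat_lit 37297016), (nat_lit 23751559), (nat_lit 15232604)] (nat_lit 7339693)) p13_19_2 (nat_lit 3) (nat_lit 25) (nat_lit 26) = true := by decide +kernel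
def p13_19_2_26 : pfC (piC [(nat_lit 37297016), (nat_lit 23751559), (nat_lit 15232604)] (nat_lit 7339693)) p13_19_2 (nat_lit 3) (nat_lit 26) (nat_lit 27) = true := by decide +kernel
def p13_19_2_27 : pfC (piC [(nat_lit 37297016), (nat_lit 23751559), (nat_lit 15232604)] (nat_lit 7339693)) p13_19_2 (nat_lit 3) (nat_lit 27) (nat_lit 28) = true := by decide +kernel
def p13_19_2_28 : pfC (piC [(nat_lit 37297016), (nat_lit 23751559), (nat_lit 15232604)] (nat_lit 7339693)) p13_19_2 (nat_lit 3) (nat_lit 28) (nat_lit 29) = true := by decide +kernel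
def p13_19_2_29 : pfC (piC [(nat_lit 37297016), (nat_lit 23751559), (nat_lit 15232604)] (nat_lit 7339693)) p13_19_2 (nat_lit 3) (nat_lit 29) (nat_lit 30) = true := by decide +kernel
def p13_19_2_30 : pfC (piC [(nat_lit 37297016), (nat_lit 23751559), (nat_lit 15232604)] (nat_lit 7339693)) p13_19_2 (nat_lit 3) (nat_lit 30) (nat_lit 31) = true := by decide +kernel
def p13_19_2_31 : pfC (piC [(nat_lit 37297016), (nat_lit 23751559), (nat_lit 15232604)] (nat_lit 7339693)) p13_19_2 (nat_lit 3) (nat_lit 31) (nat_lit 32) = true := by decide +kernel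
def p13_19_2_32 : pfC (piC [(nat_lit 37297016), (nat_lit 23751559), (nat_lit 15232604)] (nat_lit 7339693)) p13_19_2 (nat_lit 3) (nat_lit 32) (nat_lit 33) = true := by decide +kernel
def p13_19_2_33 : pfC (piC [(nat_lit 37297016), (nat_lit 23751559), (nat_lit 15232604)] (nat_lit 7339693)) p13_19_2 (nat_lit 3) (nat_lit 33) (nat_lit 34) = true := by decide +kernel
def p13_19_2_34 : pfC (piC [(nat_lit 37297016), (nat_lit 23751559), (nat_lit 15232604)] (nat_lit 7339693)) p13_19_2 (nat_lit 3) (nat_lit 34) (nat_lit 35) = true := by decide +kernel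
def p13_19_2_35 : pfC (piC [(nat_lit 37297016), (nat_lit 23751559), (nat_lit 15232604)] (nat_lit 7339693)) p13_19_2 (nat_lit 3) (nat_lit 35) (nat_lit 36) = true := by decide +kernel
def p13_19_2_36 : pfC (piC [(nat_lit 37297016), (nat_lit 23751559), (nat_lit 15232604)] (nat_lit 7339693)) p13_19_2 (nat_lit 3) (nat_lit 36) (nat_lit 37) = true := by decide +kernel
def p13_19_2_37 : pfC (piC [(nat_lit 37297016), (nat_lit 23751559), (nat_lit 15232604)] (nat_lit 7339693)) p13_19_2 (nat_lit 3) (nat_lit 37) (nat_lit 38) = true := by decide +kernel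
def p13_19_2_38 : pfC (piC [(nat_lit 37297016), (nat_lit 23751559), (nat_lit 15232604)] (nat_lit 7339693)) p13_19_2 (nat_lit 3) (nat_lit 38) (nat_lit 39) = true := by decide +kernel
def p13_19_2_39 : pfC (piC [(nat_lit 37297016), (nat_lit 23751559), (nat_lit 15232604)] (nat_lit 7339693)) p13_19_2 (nat_lit 3) (nat_lit 39) (nat_lit 40) = true := by decide +kernel
def p13_19_2_40 : pfC (piC [(nat_lit 37297016), (nat_lit 23751559), (nat_lit 15232604)] (nat_lit 7339693)) p13_19_2 (nat_lit 3) (nat_lit 40) (nat_lit 41) = true := by decide +kernel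
def p13_19_2_41 : pfC (piC [(nat_lit 37297016), (nat_lit 23751559), (nat_lit 15232604)] (nat_lit 7339693)) p13_19_2 (nat_lit 3) (nat_lit 41) (nat_lit 42) = true := by decide +kernel
def p13_19_2_42 : pfC (piC [(nat_lit 37297016), (nat_lit 23751559), (nat_lit 15232604)] (nat_lit 7339693)) p13_19_2 (nat_lit 3) (nat_lit 42) (nat_lit 43) = true := by decide +kernel
def p13_19_2_43 : pfC (piC [(nat_lit 37297016), (nat_lit 23751559), (nat_lit 15232604)] (nat_lit 7339693)) p13_19_2 (nat_lit 3) (nat_lit 43) (nat_lit 44) = true := by decide +kernel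
def p13_19_2_44 : pfC (piC [(nat_lit 37297016), (nat_lit 23751559), (nat_lit 15232604)] (nat_lit 7339693)) p13_19_2 (nat_lit 3) (nat_lit 44) (nat_lit 45) = true := by decide +kernel
def p13_19_2_45 : pfC (piC [(nat_lit 37297016), (nat_lit 23751559), (nat_lit 15232604)] (nat_lit 7339693)) p13_19_2 (nat_lit 3) (nat_lit 45) (nat_lit 46) = true := by decide +kernel
def p13_19_2_46 : pfC (piC [(nat_lit 37297016), (nat_lit 23751559), (nat_lit 15232604)] (nat_lit 7339693)) p13_19_2 (nat_lit 3) (nat_lit 46) (nat_lit 47) = true := by decide +kernel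
def p13_19_2_47 : pfC (piC [(nat_lit 37297016), (nat_lit 23751559), (nat_lit 15232604)] (nat_lit 7339693)) p13_19_2 (nat_lit 3) (nat_lit 47) (nat_lit 48) = true := by decide +kernel
def p13_19_2_48 : pfC (piC [(nat_lit 37297016), (nat_lit 23751559), (nat_lit 15232604)] (nat_lit 7339693)) p13_19_2 (nat_lit 3) (nat_lit 48) (nat_lit 49) = true := by decide +kernel
def p13_19_2_49 : pfC (piC [(nat_lit 37297016), (nat_lit 23751559), (nat_lit 15232604)] (nat_lit 7339693)) p13_19_2 (nat_lit 3) (nat_lit 49) (nat_lit 50) = true := by decide +kernel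
def p13_19_2_50 : pfC (piC [(nat_lit 37297016), (nat_lit 23751559), (nat_lit 15232604)] (nat_lit 7339693)) p13_19_2 (nat_lit 3) (nat_lit 50) (nat_lit 51) = true := by decide +kernel
def p13_19_2_51 : pfC (piC [(nat_lit 37297016), (nat_lit 23751559), (nat_lit 15232604)] (nat_lit 7339693)) p13_19_2 (nat_lit 3) (nat_lit 51) (nat_lit 52) = true := by decide +kernel
def p13_19_2_52 : pfC (piC [(nat_lit 37297016), (nat_lit 23751559), (nat_lit 15232604)] (nat_lit 7339693)) p13_19_2 (nat_lit 3) (nat_lit 52) (nat_lit 53) = true := by decide +kernel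
def p13_19_2_53 : pfC (piC [(nat_lit 37297016), (nat_lit 23751559), (nat_lit 15232604)] (nat_lit 7339693)) p13_19_2 (nat_lit 3) (nat_lit 53) (nat_lit 54) = true := by decide +kernel
def p13_19_2_54 : pfC (piC [(nat_lit 37297016), (nat_lit 23751559), (nat_lit 15232604)] (nat_lit 7339693)) p13_19_2 (nat_lit 3) (nat_lit 54) (nat_lit 55) = true := by decide +kernel
def p13_19_2_55 : pfC (piC [(nat_lit 37297016), (nat_lit 23751559), (nat_lit 15232604)] (nat_lit 7339693)) p13_19_2 (nat_lit 3) (nat_lit 55) (nat_lit 56) = true := by decide +kernel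
def p13_19_2_56 : pfC (piC [(nat_lit 37297016), (nat_lit 23751559), (nat_lit 15232604)] (nat_lit 7339693)) p13_19_2 (nat_lit 3) (nat_lit 56) (nat_lit 57) = true := by decide +kernel
def p13_19_2_57 : pfC (piC [(nat_lit 37297016), (nat_lit 23751559), (nat_lit 15232604)] (nat_lit 7339693)) p13_19_2 (nat_lit 3) (nat_lit 57) (nat_lit 58) = true := by decide +kernel
def p13_19_2_58 : pfC (piC [(nat_lit 37297016), (nat_lit 23751559), (nat_lit 15232604)] (nat_lit 7339693)) p13_19_2 (nat_lit 3) (nat_lit 58) (nat_lit 59) = true := by decide +kernel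
def p13_19_2_59 : pfC (piC [(nat_lit 37297016), (nat_lit 23751559), (nat_lit 15232604)] (nat_lit 7339693)) p13_19_2 (nat_lit 3) (nat_lit 59) (nat_lit 60) = true := by decide +kernel
def p13_19_2_60 : pfC (piC [(nat_lit 37297016), (nat_lit 23751559), (nat_lit 15232604)] (nat_lit 7339693)) p13_19_2 (nat_lit 3) (nat_lit 60) (nat_lit 61) = true := by decide +kernel
def p13_19_2_61 : pfC (piC [(nat_lit 37297016), (nat_lit 23751559), (nat_lit 15232604)] (nat_lit 7339693)) p13_19_2 (nat_lit 3) (nat_lit 61) (nat_lit 62) = true := by decide +kernel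
def p13_19_2_62 : pfC (piC [(nat_lit 37297016), (nat_lit 23751559), (nat_lit 15232604)] (nat_lit 7339693)) p13_19_2 (nat_lit 3) (nat_lit 62) (nat_lit 63) = true := by decide +kernel
def p13_19_2_63 : pfC (piC [(nat_lit 37297016), (nat_lit 23751559), (nat_lit 15232604)] (nat_lit 7339693)) p13_19_2 (nat_lit 3) (nat_lit 63) (nat_lit 64) = true := by decide +kernel
def p13_19_2_64 : pfC (piC [(nat_lit 37297016), (nat_lit 23751559), (nat_lit 15232604)] (nat_lit 7339693)) p13_19_2 (nat_lit 3) (nat_lit 64) (nat_lit 65) = true := by decide +kernel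
def p13_19_2_65 : pfC (piC [(nat_lit 37297016), (nat_lit 23751559), (nat_lit 15232604)] (nat_lit 7339693)) p13_19_2 (nat_lit 3) (nat_lit 65) (nat_lit 66) = true := by decide +kernel
def p13_19_2_66 : pfC (piC [(nat_lit 37297016), (nat_lit 23751559), (nat_lit 15232604)] (nat_lit 7339693)) p13_19_2 (nat_lit 3) (nat_lit 66) (nat_lit 67) = true := by decide +kernel
def p13_19_2_67 : pfC (piC [(nat_lit 37297016), (nat_lit 23751559), (nat_lit 15232604)] (nat_lit 7339693)) p13_19_2 (nat_lit 3) (nat_lit 67) (nat_lit 68) = true := by decide +kernel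
def p13_19_2_68 : pfC (piC [(nat_lit 37297016), (nat_lit 23751559), (nat_lit 15232604)] (nat_lit 7339693)) p13_19_2 (nat_lit 3) (nat_lit 68) (nat_lit 69) = true := by decide +kernel
def p13_19_2_69 : pfC (piC [(nat_lit 37297016), (nat_lit 23751559), (nat_lit 15232604)] (nat_lit 7339693)) p13_19_2 (nat_lit 3) (nat_lit 69) (nat_lit 70) = true := by decide +kernel
def p13_19_2_70 : pfC (piC [(nat_lit 37297016), (nat_lit 23751559), (nat_lit 15232604)] (nat_lit 7339693)) p13_19_2 (nat_lit 3) (nat_lit 70) (nat_lit 71) = true := by decide +kernel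
def p13_19_2_71 : pfC (piC [(nat_lit 37297016), (nat_lit 23751559), (nat_lit 15232604)] (nat_lit 7339693)) p13_19_2 (nat_lit 3) (nat_lit 71) (nat_lit 72) = true := by decide +kernel
def p13_19_2_72 : pfC (piC [(nat_lit 37297016), (nat_lit 23751559), (nat_lit 15232604)] (nat_lit 7339693)) p13_19_2 (nat_lit 3) (nat_lit 72) (nat_lit 73) = true := by decide +kernel
def p13_19_2_73 : pfC (piC [(nat_lit 37297016), (nat_lit 23751559), (nat_lit 15232604)] (nat_lit 7339693)) p13_19_2 (nat_lit 3) (nat_lit 73) (nat_lit 74) = true := by decide +kernel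
def p13_19_2_74 : pfC (piC [(nat_lit 37297016), (nat_lit 23751559), (nat_lit 15232604)] (nat_lit 7339693)) p13_19_2 (nat_lit 3) (nat_lit 74) (nat_lit 75) = true := by decide +kernel
def p13_19_2_75 : pfC (piC [(nat_lit 37297016), (nat_lit 23751559), (nat_lit 15232604)] (nat_lit 7339693)) p13_19_2 (nat_lit 3) (nat_lit 75) (nat_lit 76) = true := by decide +kernel
def p13_19_2_76 : pfC (piC [(nat_lit 37297016), (nat_lit 23751559), (nat_lit 15232604)] (nat_lit 7339693)) p13_19_2 (nat_lit 3) (nat_lit 76) (nat_lit 77) = true := by decide +kernel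
def p13_19_2_77 : pfC (piC [(nat_lit 37297016), (nat_lit 23751559), (nat_lit 15232604)] (nat_lit 7339693)) p13_19_2 (nat_lit 3) (nat_lit 77) (nat_lit 78) = true := by decide +kernel
def p13_19_2_78 : pfC (piC [(nat_lit 37297016), (nat_lit 23751559), (nat_lit 15232604)] (nat_lit 7339693)) p13_19_2 (nat_lit 3) (nat_lit 78) (nat_lit 79) = true := by decide +kernel
def p13_19_2_79 : pfC (piC [(nat_lit 37297016), (nat_lit 23751559), (nat_lit 15232604)] (nat_lit 7339693)) p13_19_2 (nat_lit 3) (nat_lit 79) (nat_lit 80) = true := by decide +kernel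
def p13_19_2_80 : pfC (piC [(nat_lit 37297016), (nat_lit 23751559), (nat_lit 15232604)] (nat_lit 7339693)) p13_19_2 (nat_lit 3) (nat_lit 80) (nat_lit 81) = true := by decide +kernel
def p13_19_2_81 : pfC (piC [(nat_lit 37297016), (nat_lit 23751559), (nat_lit 15232604)] (nat_lit 7339693)) p13_19_2 (nat_lit 3) (nat_lit 81) (nat_lit 82) = true := by decide +kernel
def p13_19_2_82 : pfC (piC [(nat_lit 37297016), (nat_lit 23751559), (nat_lit 15232604)] (nat_lit 7339693)) p13_19_2 (nat_lit 3) (nat_lit 82) (nat_lit 83) = true := by decide +kernel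
def p13_19_2_83 : pfC (piC [(nat_lit 37297016), (nat_lit 23751559), (nat_lit 15232604)] (nat_lit 7339693)) p13_19_2 (nat_lit 3) (nat_lit 83) (nat_lit 84) = true := by decide +kernel
def p13_19_2_84 : pfC (piC [(nat_lit 37297016), (nat_lit 23751559), (nat_lit 15232604)] (nat_lit 7339693)) p13_19_2 (nat_lit 3) (nat_lit 84) (nat_lit 85) = true := by decide +kernel
def p13_19_2_85 : pfC (piC [(nat_lit 37297016), (nat_lit 23751559), (nat_lit 15232604)] (nat_lit 7339693)) p13_19_2 (nat_lit 3) (nat_lit 85) (nat_lit 86) = true := by decide +kernel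
def p13_19_2_86 : pfC (piC [(nat_lit 37297016), (nat_lit 23751559), (nat_lit 15232604)] (nat_lit 7339693)) p13_19_2 (nat_lit 3) (nat_lit 86) (nat_lit 87) = true := by decide +kernel
def p13_19_2_87 : pfC (piC [(nat_lit 37297016), (nat_lit 23751559), (nat_lit 15232604)] (nat_lit 7339693)) p13_19_2 (nat_lit 3) (nat_lit 87) (nat_lit 88) = true := by decide +kernel
def p13_19_2_88 : pfC (piC [(nat_lit 37297016), (nat_lit 23751559), (nat_lit 15232604)] (nat_lit 7339693)) p13_19_2 (nat_lit 3) (nat_lit 88) (nat_lit 89) = true := by decide +kernel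
def p13_19_2_89 : pfC (piC [(nat_lit 37297016), (nat_lit 23751559), (nat_lit 15232604)] (nat_lit 7339693)) p13_19_2 (nat_lit 3) (nat_lit 89) (nat_lit 90) = true := by decide +kernel
def p13_19_2_90 : pfC (piC [(nat_lit 37297016), (nat_lit 23751559), (nat_lit 15232604)] (nat_lit 7339693)) p13_19_2 (nat_lit 3) (nat_lit 90) (nat_lit 91) = true := by decide +kernel
def p13_19_2_91 : pfC (piC [(nat_lit 37297016), (nat_lit 23751559), (nat_lit 15232604)] (nat_lit 7339693)) p13_19_2 (nat_lit 3) (nat_lit 91) (nat_lit 92) = true := by decide +kernel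
def p13_19_2_92 : pfC (piC [(nat_lit 37297016), (nat_lit 23751559), (nat_lit 15232604)] (nat_lit 7339693)) p13_19_2 (nat_lit 3) (nat_lit 92) (nat_lit 93) = true := by decide +kernel
def p13_19_2_93 : pfC (piC [(nat_lit 37297016), (nat_lit 23751559), (nat_lit 15232604)] (nat_lit 7339693)) p13_19_2 (nat_lit 3) (nat_lit 93) (nat_lit 94) = true := by decide +kernel
def p13_19_2_94 : pfC (piC [(nat_lit 37297016), (nat_lit 23751559), (nat_lit 15232604)] (nat_lit 7339693)) p13_19_2 (nat_lit 3) (nat_lit 94) (nat_lit 95) = true := by decide +kernel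
def p13_19_2_95 : pfC (piC [(nat_lit 37297016), (nat_lit 23751559), (nat_lit 15232604)] (nat_lit 7339693)) p13_19_2 (nat_lit 3) (nat_lit 95) (nat_lit 96) = true := by decide +kernel
def p13_19_2_96 : pfC (piC [(nat_lit 37297016), (nat_lit 23751559), (nat_lit 15232604)] (nat_lit 7339693)) p13_19_2 (nat_lit 3) (nat_lit 96) (nat_lit 97) = true := by decide +kernel
def p13_19_2_97 : pfC (piC [(nat_lit 37297016), (nat_lit 23751559), (nat_lit 15232604)] (nat_lit 7339693)) p13_19_2 (nat_lit 3) (nat_lit 97) (nat_lit 98) = true := by decide +kernel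
def p13_19_2_98 : pfC (piC [(nat_lit 37297016), (nat_lit 23751559), (nat_lit 15232604)] (nat_lit 7339693)) p13_19_2 (nat_lit 3) (nat_lit 98) (nat_lit 99) = true := by decide +kernel
def p13_19_2_99 : pfC (piC [(nat_lit 37297016), (nat_lit 23751559), (nat_lit 15232604)] (nat_lit 7339693)) p13_19_2 (nat_lit 3) (nat_lit 99) (nat_lit 100) = true := by decide +kernel
def p13_19_2_100 : pfC (piC [(nat_lit 37297016), (nat_lit 23751559), (nat_lit 15232604)] (nat_lit 7339693)) p13_19_2 (nat_lit 3) (nat_lit 100) (nat_lit 101) = true := by decide +kernel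
def p13_19_2_101 : pfC (piC [(nat_lit 37297016), (nat_lit 23751559), (nat_lit 15232604)] (nat_lit 7339693)) p13_19_2 (nat_lit 3) (nat_lit 101) (nat_lit 102) = true := by decide +kernel
def p13_19_2_102 : pfC (piC [(nat_lit 37297016), (nat_lit 23751559), (nat_lit 15232604)] (nat_lit 7339693)) p13_19_2 (nat_lit 3) (nat_lit 102) (nat_lit 103) = true := by decide +kernel
def p13_19_2_103 : pfC (piC [(nat_lit 37297016), (nat_lit 23751559), (nat_lit 15232604)] (nat_lit 7339693)) p13_19_2 (nat_lit 3) (nat_lit 103) (nat_lit 104) = true := by decide +kernel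
def p13_19_2_104 : pfC (piC [(nat_lit 37297016), (nat_lit 23751559), (nat_lit 15232604)] (nat_lit 7339693)) p13_19_2 (nat_lit 3) (nat_lit 104) (nat_lit 105) = true := by decide +kernel
def p13_19_2_105 : pfC (piC [(nat_lit 37297016), (nat_lit 23751559), (nat_lit 15232604)] (nat_lit 7339693)) p13_19_2 (nat_lit 3) (nat_lit 105) (nat_lit 106) = true := by decide +kernel
def p13_19_2_106 : pfC (piC [(nat_lit 37297016), (nat_lit 23751559), (nat_lit 15232604)] (nat_lit 7339693)) p13_19_2 (nat_lit 3) (nat_lit 106) (nat_lit 107) = true := by decide +kernel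
def p13_19_2_107 : pfC (piC [(nat_lit 37297016), (nat_lit 23751559), (nat_lit 15232604)] (nat_lit 7339693)) p13_19_2 (nat_lit 3) (nat_lit 107) (nat_lit 108) = true := by decide +kernel
def p13_19_2_108 : pfC (piC [(nat_lit 37297016), (nat_lit 23751559), (nat_lit 15232604)] (nat_lit 7339693)) p13_19_2 (nat_lit 3) (nat_lit 108) (nat_lit 109) = true := by decide +kernel
def p13_19_2_109 : pfC (piC [(nat_lit 37297016), (nat_lit 23751559), (nat_lit 15232604)] (nat_lit 7339693)) p13_19_2 (nat_lit 3) (nat_lit 109) (nat_lit 110) = true := by decide +kernel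
def p13_19_2_110 : pfC (piC [(nat_lit 37297016), (nat_lit 23751559), (nat_lit 15232604)] (nat_lit 7339693)) p13_19_2 (nat_lit 3) (nat_lit 110) (nat_lit 111) = true := by decide +kernel
def p13_19_2_111 : pfC (piC [(nat_lit 37297016), (nat_lit 23751559), (nat_lit 15232604)] (nat_lit 7339693)) p13_19_2 (nat_lit 3) (nat_lit 111) (nat_lit 112) = true := by decide +kernel
def p13_19_2_112 : pfC (piC [(nat_lit 37297016), (nat_lit 23751559), (nat_lit 15232604)] (nat_lit 7339693)) p13_19_2 (nat_lit 3) (nat_lit 112) (nat_lit 113) = true := by decide +kernel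
def p13_19_2_113 : pfC (piC [(nat_lit 37297016), (nat_lit 23751559), (nat_lit 15232604)] (nat_lit 7339693)) p13_19_2 (nat_lit 3) (nat_lit 113) (nat_lit 114) = true := by decide +kernel
def p13_19_2_114 : pfC (piC [(nat_lit 37297016), (nat_lit 23751559), (nat_lit 15232604)] (nat_lit 7339693)) p13_19_2 (nat_lit 3) (nat_lit 114) (nat_lit 115) = true := by decide +kernel
def p13_19_2_115 : pfC (piC [(nat_lit 37297016), (nat_lit 23751559), (nat_lit 15232604)] (nat_lit 7339693)) p13_19_2 (nat_lit 3) (nat_lit 115) (nat_lit 116) = true := by decide +kernel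
def p13_19_2_116 : pfC (piC [(nat_lit 37297016), (nat_lit 23751559), (nat_lit 15232604)] (nat_lit 7339693)) p13_19_2 (nat_lit 3) (nat_lit 116) (nat_lit 117) = true := by decide +kernel
def p13_19_2_117 : pfC (piC [(nat_lit 37297016), (nat_lit 23751559), (nat_lit 15232604)] (nat_lit 7339693)) p13_19_2 (nat_lit 3) (nat_lit 117) (nat_lit 118) = true := by decide +kernel
def p13_19_2_118 : pfC (piC [(nat_lit 37297016), (nat_lit 23751559), (nat_lit 15232604)] (nat_lit 7339693)) p13_19_2 (nat_lit 3) (nat_lit 118) (nat_lit 119) = true := by decide +kernel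
def p13_19_2_119 : pfC (piC [(nat_lit 37297016), (nat_lit 23751559), (nat_lit 15232604)] (nat_lit 7339693)) p13_19_2 (nat_lit 3) (nat_lit 119) (nat_lit 120) = true := by decide +kernel
def p13_19_2_120 : pfC (piC [(nat_lit 37297016), (nat_lit 23751559), (nat_lit 15232604)] (nat_lit 7339693)) p13_19_2 (nat_lit 3) (nat_lit 120) (nat_lit 121) = true := by decide +kernel
def p13_19_2_121 : pfC (piC [(nat_lit 37297016), (nat_lit 23751559), (nat_lit 15232604)] (nat_lit 7339693)) p13_19_2 (nat_lit 3) (nat_lit 121) (nat_lit 122) = true := by decide +kernel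
def p13_19_2_122 : pfC (piC [(nat_lit 37297016), (nat_lit 23751559), (nat_lit 15232604)] (nat_lit 7339693)) p13_19_2 (nat_lit 3) (nat_lit 122) (nat_lit 123) = true := by decide +kernel
def p13_19_2_123 : pfC (piC [(nat_lit 37297016), (nat_lit 23751559), (nat_lit 15232604)] (nat_lit 7339693)) p13_19_2 (nat_lit 3) (nat_lit 123) (nat_lit 124) = true := by decide +kernel
def p13_19_2_124 : pfC (piC [(nat_lit 37297016), (nat_lit 23751559), (nat_lit 15232604)] (nat_lit 7339693)) p13_19_2 (nat_lit 3) (nat_lit 124) (nat_lit 125) = true := by decide +kernel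
def p13_19_2_125 : pfC (piC [(nat_lit 37297016), (nat_lit 23751559), (nat_lit 15232604)] (nat_lit 7339693)) p13_19_2 (nat_lit 3) (nat_lit 125) (nat_lit 126) = true := by decide +kernel
def p13_19_2_126 : pfC (piC [(nat_lit 37297016), (nat_lit 23751559), (nat_lit 15232604)] (nat_lit 7339693)) p13_19_2 (nat_lit 3) (nat_lit 126) (nat_lit 127) = true := by decide +kernel
def p13_19_2_127 : pfC (piC [(nat_lit 37297016), (nat_lit 23751559), (nat_lit 15232604)] (nat_lit 7339693)) p13_19_2 (nat_lit 3) (nat_lit 127) (nat_lit 128) = true := by decide +kernel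
def p13_19_2_128 : pfC (piC [(nat_lit 37297016), (nat_lit 23751559), (nat_lit 15232604)] (nat_lit 7339693)) p13_19_2 (nat_lit 3) (nat_lit 128) (nat_lit 129) = true := by decide +kernel
def p13_19_2_129 : pfC (piC [(nat_lit 37297016), (nat_lit 23751559), (nat_lit 15232604)] (nat_lit 7339693)) p13_19_2 (nat_lit 3) (nat_lit 129) (nat_lit 130) = true := by decide +kernel
def p13_19_2_130 : pfC (piC [(nat_lit 37297016), (nat_lit 23751559), (nat_lit 15232604)] (nat_lit 7339693)) p13_19_2 (nat_lit 3) (nat_lit 130) (nat_lit 131) = true := by decide +kernel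
def p13_19_2_131 : pfC (piC [(nat_lit 37297016), (nat_lit 23751559), (nat_lit 15232604)] (nat_lit 7339693)) p13_19_2 (nat_lit 3) (nat_lit 131) (nat_lit 132) = true := by decide +kernel
def p13_19_2_132 : pfC (piC [(nat_lit 37297016), (nat_lit 23751559), (nat_lit 15232604)] (nat_lit 7339693)) p13_19_2 (nat_lit 3) (nat_lit 132) (nat_lit 133) = true := by decide +kernel
def p13_19_2_133 : pfC (piC [(nat_lit 37297016), (nat_lit 23751559), (nat_lit 15232604)] (nat_lit 7339693)) p13_19_2 (nat_lit 3) (nat_lit 133) (nat_lit 134) = true := by decide +kernel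
def p13_19_2_134 : pfC (piC [(nat_lit 37297016), (nat_lit 23751559), (nat_lit 15232604)] (nat_lit 7339693)) p13_19_2 (nat_lit 3) (nat_lit 134) (nat_lit 135) = true := by decide +kernel
def p13_19_2_135 : pfC (piC [(nat_lit 37297016), (nat_lit 23751559), (nat_lit 15232604)] (nat_lit 7339693)) p13_19_2 (nat_lit 3) (nat_lit 135) (nat_lit 136) = true := by decide +kernel
def p13_19_2_136 : pfC (piC [(nat_lit 37297016), (nat_lit 23751559), (nat_lit 15232604)] (nat_lit 7339693)) p13_19_2 (nat_lit 3) (nat_lit 136) (nat_lit 137) = true := by decide +kernel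
def p13_19_2_137 : pfC (piC [(nat_lit 37297016), (nat_lit 23751559), (nat_lit 15232604)] (nat_lit 7339693)) p13_19_2 (nat_lit 3) (nat_lit 137) (nat_lit 138) = true := by decide +kernel
def p13_19_2_138 : pfC (piC [(nat_lit 37297016), (nat_lit 23751559), (nat_lit 15232604)] (nat_lit 7339693)) p13_19_2 (nat_lit 3) (nat_lit 138) (nat_lit 139) = true := by decide +kernel
def p13_19_2_139 : pfC (piC [(nat_lit 37297016), (nat_lit 23751559), (nat_lit 15232604)] (nat_lit 7339693)) p13_19_2 (nat_lit 3) (nat_lit 139) (nat_lit 140) = true := by decide +kernel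
def p13_19_2_140 : pfC (piC [(nat_lit 37297016), (nat_lit 23751559), (nat_lit 15232604)] (nat_lit 7339693)) p13_19_2 (nat_lit 3) (nat_lit 140) (nat_lit 141) = true := by decide +kernel
def p13_19_2_141 : pfC (piC [(nat_lit 37297016), (nat_lit 23751559), (nat_lit 15232604)] (nat_lit 7339693)) p13_19_2 (nat_lit 3) (nat_lit 141) (nat_lit 142) = true := by decide +kernel
def p13_19_2_142 : pfC (piC [(nat_lit 37297016), (nat_lit 23751559), (nat_lit 15232604)] (nat_lit 7339693)) p13_19_2 (nat_lit 3) (nat_lit 142) (nat_lit 143) = true := by decide +kernel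
def p13_19_2_143 : pfC (piC [(nat_lit 37297016), (nat_lit 23751559), (nat_lit 15232604)] (nat_lit 7339693)) p13_19_2 (nat_lit 3) (nat_lit 143) (nat_lit 144) = true := by decide +kernel
def p13_19_2_144 : pfC (piC [(nat_lit 37297016), (nat_lit 23751559), (nat_lit 15232604)] (nat_lit 7339693)) p13_19_2 (nat_lit 3) (nat_lit 144) (nat_lit 145) = true := by decide +kernel
def p13_19_2_145 : pfC (piC [(nat_lit 37297016), (nat_lit 23751559), (nat_lit 15232604)] (nat_lit 7339693)) p13_19_2 (nat_lit 3) (nat_lit 145) (nat_lit 146) = true := by decide +kernel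
def p13_19_2_146 : pfC (piC [(nat_lit 37297016), (nat_lit 23751559), (nat_lit 15232604)] (nat_lit 7339693)) p13_19_2 (nat_lit 3) (nat_lit 146) (nat_lit 147) = true := by decide +kernel
def p13_19_2_147 : pfC (piC [(nat_lit 37297016), (nat_lit 23751559), (nat_lit 15232604)] (nat_lit 7339693)) p13_19_2 (nat_lit 3) (nat_lit 147) (nat_lit 148) = true := by decide +kernel
def p13_19_2_148 : pfC (piC [(nat_lit 37297016), (nat_lit 23751559), (nat_lit 15232604)] (nat_lit 7339693)) p13_19_2 (nat_lit 3) (nat_lit 148) (nat_lit 149) = true := by decide +kernel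
def p13_19_2_149 : pfC (piC [(nat_lit 37297016), (nat_lit 23751559), (nat_lit 15232604)] (nat_lit 7339693)) p13_19_2 (nat_lit 3) (nat_lit 149) (nat_lit 150) = true := by decide +kernel
def p13_19_2_150 : pfC (piC [(nat_lit 37297016), (nat_lit 23751559), (nat_lit 15232604)] (nat_lit 7339693)) p13_19_2 (nat_lit 3) (nat_lit 150) (nat_lit 151) = true := by decide +kernel
def p13_19_2_151 : pfC (piC [(nat_lit 37297016), (nat_lit 23751559), (nat_lit 15232604)] (nat_lit 7339693)) p13_19_2 (nat_lit 3) (nat_lit 151) (nat_lit 152) = true := by decide +kernel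
def p13_19_2_152 : pfC (piC [(nat_lit 37297016), (nat_lit 23751559), (nat_lit 15232604)] (nat_lit 7339693)) p13_19_2 (nat_lit 3) (nat_lit 152) (nat_lit 153) = true := by decide +kernel
def p13_19_2_153 : pfC (piC [(nat_lit 37297016), (nat_lit 23751559), (nat_lit 15232604)] (nat_lit 7339693)) p13_19_2 (nat_lit 3) (nat_lit 153) (nat_lit 154) = true := by decide +kernel
def p13_19_2_154 : pfC (piC [(nat_lit 37297016), (nat_lit 23751559), (nat_lit 15232604)] (nat_lit 7339693)) p13_19_2 (nat_lit 3) (nat_lit 154) (nat_lit 155) = true := by decide +kernel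
def p13_19_2_155 : pfC (piC [(nat_lit 37297016), (nat_lit 23751559), (nat_lit 15232604)] (nat_lit 7339693)) p13_19_2 (nat_lit 3) (nat_lit 155) (nat_lit 156) = true := by decide +kernel
def p13_19_2_156 : pfC (piC [(nat_lit 37297016), (nat_lit 23751559), (nat_lit 15232604)] (nat_lit 7339693)) p13_19_2 (nat_lit 3) (nat_lit 156) (nat_lit 157) = true := by decide +kernel
def p13_19_2_157 : pfC (piC [(nat_lit 37297016), (nat_lit 23751559), (nat_lit 15232604)] (nat_lit 7339693)) p13_19_2 (nat_lit 3) (nat_lit 157) (nat_lit 158) = true := by decide +kernel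
def p13_19_2_158 : pfC (piC [(nat_lit 37297016), (nat_lit 23751559), (nat_lit 15232604)] (nat_lit 7339693)) p13_19_2 (nat_lit 3) (nat_lit 158) (nat_lit 159) = true := by decide +kernel
def p13_19_2_159 : pfC (piC [(nat_lit 37297016), (nat_lit 23751559), (nat_lit 15232604)] (nat_lit 7339693)) p13_19_2 (nat_lit 3) (nat_lit 159) (nat_lit 160) = true := by decide +kernel
def p13_19_2_160 : pfC (piC [(nat_lit 37297016), (nat_lit 23751559), (nat_lit 15232604)] (nat_lit 7339693)) p13_19_2 (nat_lit 3) (nat_lit 160) (nat_lit 161) = true := by decide +kernel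
def p13_19_2_161 : pfC (piC [(nat_lit 37297016), (nat_lit 23751559), (nat_lit 15232604)] (nat_lit 7339693)) p13_19_2 (nat_lit 3) (nat_lit 161) (nat_lit 162) = true := by decide +kernel
def p13_19_2_162 : pfC (piC [(nat_lit 37297016), (nat_lit 23751559), (nat_lit 15232604)] (nat_lit 7339693)) p13_19_2 (nat_lit 3) (nat_lit 162) (nat_lit 163) = true := by decide +kernel
def p13_19_2_163 : pfC (piC [(nat_lit 37297016), (nat_lit 23751559), (nat_lit 15232604)] (nat_lit 7339693)) p13_19_2 (nat_lit 3) (nat_lit 163) (nat_lit 164) = true := by decide +kernel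
def p13_19_2_164 : pfC (piC [(nat_lit 37297016), (nat_lit 23751559), (nat_lit 15232604)] (nat_lit 7339693)) p13_19_2 (nat_lit 3) (nat_lit 164) (nat_lit 165) = true := by decide +kernel
def p13_19_2_165 : pfC (piC [(nat_lit 37297016), (nat_lit 23751559), (nat_lit 15232604)] (nat_lit 7339693)) p13_19_2 (nat_lit 3) (nat_lit 165) (nat_lit 166) = true := by decide +kernel
def p13_19_2_166 : pfC (piC [(nat_lit 37297016), (nat_lit 23751559), (nat_lit 15232604)] (nat_lit 7339693)) p13_19_2 (nat_lit 3) (nat_lit 166) (nat_lit 167) = true := by decide +kernel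
def p13_19_2_167 : pfC (piC [(nat_lit 37297016), (nat_lit 23751559), (nat_lit 15232604)] (nat_lit 7339693)) p13_19_2 (nat_lit 3) (nat_lit 167) (nat_lit 168) = true := by decide +kernel
def p13_19_2_168 : pfC (piC [(nat_lit 37297016), (nat_lit 23751559), (nat_lit 15232604)] (nat_lit 7339693)) p13_19_2 (nat_lit 3) (nat_lit 168) (nat_lit 169) = true := by decide +kernel
def p13_19_2_169 : pfC (piC [(nat_lit 37297016), (nat_lit 23751559), (nat_lit 15232604)] (nat_lit 7339693)) p13_19_2 (nat_lit 3) (nat_lit 169) (nat_lit 170) = true := by decide +kernel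
def p13_19_2_170 : pfC (piC [(nat_lit 37297016), (nat_lit 23751559), (nat_lit 15232604)] (nat_lit 7339693)) p13_19_2 (nat_lit 3) (nat_lit 170) (nat_lit 171) = true := by decide +kernel
def p13_19_2_171 : pfC (piC [(nat_lit 37297016), (nat_lit 23751559), (nat_lit 15232604)] (nat_lit 7339693)) p13_19_2 (nat_lit 3) (nat_lit 171) (nat_lit 172) = true := by decide +kernel
def p13_19_2_172 : pfC (piC [(nat_lit 37297016), (nat_lit 23751559), (nat_lit 15232604)] (nat_lit 7339693)) p13_19_2 (nat_lit 3) (nat_lit 172) (nat_lit 173) = true := by decide +kernel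
def p13_19_2_173 : pfC (piC [(nat_lit 37297016), (nat_lit 23751559), (nat_lit 15232604)] (nat_lit 7339693)) p13_19_2 (nat_lit 3) (nat_lit 173) (nat_lit 174) = true := by decide +kernel
def p13_19_2_174 : pfC (piC [(nat_lit 37297016), (nat_lit 23751559), (nat_lit 15232604)] (nat_lit 7339693)) p13_19_2 (nat_lit 3) (nat_lit 174) (nat_lit 175) = true := by decide +kernel
def p13_19_2_175 : pfC (piC [(nat_lit 37297016), (nat_lit 23751559), (nat_lit 15232604)] (nat_lit 7339693)) p13_19_2 (nat_lit 3) (nat_lit 175) (nat_lit 176) = true := by decide +kernel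
def p13_19_2_176 : pfC (piC [(nat_lit 37297016), (nat_lit 23751559), (nat_lit 15232604)] (nat_lit 7339693)) p13_19_2 (nat_lit 3) (nat_lit 176) (nat_lit 177) = true := by decide +kernel
def p13_19_2_177 : pfC (piC [(nat_lit 37297016), (nat_lit 23751559), (nat_lit 15232604)] (nat_lit 7339693)) p13_19_2 (nat_lit 3) (nat_lit 177) (nat_lit 178) = true := by decide +kernel
def p13_19_2_178 : pfC (piC [(nat_lit 37297016), (nat_lit 23751559), (nat_lit 15232604)] (nat_lit 7339693)) p13_19_2 (nat_lit 3) (nat_lit 178) (nat_lit 179) = true := by decide +kernel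
def p13_19_2_179 : pfC (piC [(nat_lit 37297016), (nat_lit 23751559), (nat_lit 15232604)] (nat_lit 7339693)) p13_19_2 (nat_lit 3) (nat_lit 179) (nat_lit 180) = true := by decide +kernel
def p13_19_2_180 : pfC (piC [(nat_lit 37297016), (nat_lit 23751559), (nat_lit 15232604)] (nat_lit 7339693)) p13_19_2 (nat_lit 3) (nat_lit 180) (nat_lit 181) = true := by decide +kernel
def p13_19_2_181 : pfC (piC [(nat_lit 37297016), (nat_lit 23751559), (nat_lit 15232604)] (nat_lit 7339693)) p13_19_2 (nat_lit 3) (nat_lit 181) (nat_lit 182) = true := by decide +kernel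
def p13_19_2_182 : pfC (piC [(nat_lit 37297016), (nat_lit 23751559), (nat_lit 15232604)] (nat_lit 7339693)) p13_19_2 (nat_lit 3) (nat_lit 182) (nat_lit 183) = true := by decide +kernel
def p13_19_2_183 : pfC (piC [(nat_lit 37297016), (nat_lit 23751559), (nat_lit 15232604)] (nat_lit 7339693)) p13_19_2 (nat_lit 3) (nat_lit 183) (nat_lit 184) = true := by decide +kernel
def p13_19_2_184 : pfC (piC [(nat_lit 37297016), (nat_lit 23751559), (nat_lit 15232604)] (nat_lit 7339693)) p13_19_2 (nat_lit 3) (nat_lit 184) (nat_lit 185) = true := by decide +kernel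
def p13_19_2_185 : pfC (piC [(nat_lit 37297016), (nat_lit 23751559), (nat_lit 15232604)] (nat_lit 7339693)) p13_19_2 (nat_lit 3) (nat_lit 185) (nat_lit 186) = true := by decide +kernel
def p13_19_2_186 : pfC (piC [(nat_lit 37297016), (nat_lit 23751559), (nat_lit 15232604)] (nat_lit 7339693)) p13_19_2 (nat_lit 3) (nat_lit 186) (nat_lit 187) = true := by decide +kernel
def p13_19_2_187 : pfC (piC [(nat_lit 37297016), (nat_lit 23751559), (nat_lit 15232604)] (nat_lit 7339693)) p13_19_2 (nat_lit 3) (nat_lit 187) (nat_lit 188) = true := by decide +kernel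
def p13_19_2_188 : pfC (piC [(nat_lit 37297016), (nat_lit 23751559), (nat_lit 15232604)] (nat_lit 7339693)) p13_19_2 (nat_lit 3) (nat_lit 188) (nat_lit 189) = true := by decide +kernel
def p13_19_2_189 : pfC (piC [(nat_lit 37297016), (nat_lit 23751559), (nat_lit 15232604)] (nat_lit 7339693)) p13_19_2 (nat_lit 3) (nat_lit 189) (nat_lit 190) = true := by decide +kernel
def p13_19_2_190 : pfC (piC [(nat_lit 37297016), (nat_lit 23751559), (nat_lit 15232604)] (nat_lit 7339693)) p13_19_2 (nat_lit 3) (nat_lit 190) (nat_lit 191) = true := by decide +kernel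
def p13_19_2_191 : pfC (piC [(nat_lit 37297016), (nat_lit 23751559), (nat_lit 15232604)] (nat_lit 7339693)) p13_19_2 (nat_lit 3) (nat_lit 191) (nat_lit 192) = true := by decide +kernel
def p13_19_2_192 : pfC (piC [(nat_lit 37297016), (nat_lit 23751559), (nat_lit 15232604)] (nat_lit 7339693)) p13_19_2 (nat_lit 3) (nat_lit 192) (nat_lit 193) = true := by decide +kernel
theorem p13_19_2_T : PfS (PiF n13_19.reverse (nat_lit 7339693)) p13_19_2 (nat_lit 3) [] 0 :=
  pftab_of (los := [(nat_lit 37297016), (nat_lit 23751559), (nat_lit 15232604)]) (by decide +kernel) (hi := (nat_lit 193)) (PfP.trans (PfP.trans (PfP.trans (PfP.trans (PfP.trans (PfP.trans (PfP.trans (PfP.trans (PfP.trans (PfP.trans (PfP.trans (PfP.trans (PfP.trans (PfP.trans (PfP.trans (PfP.trans (PfP.trans (PfP.trans (PfP.trans (PfP.trans (PfP.trans (PfP.trans (PfP.trans (PfP.trans (PfP.trans (PfP.trans (PfP.trans (PfP.trans (PfP.trans (PfP.trans (PfP.trans (PfP.trans (PfP.trans (PfP.trans (PfP.trans (PfP.trans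 (PfP.trans (PfP.trans (PfP.trans (PfP.trans (PfP.trans (PfP.trans (PfP.trans (PfP.trans (PfP.trans (PfP.trans (PfP.trans (PfP.trans (PfP.trans (PfP.trans (PfP.trans (PfP.trans (PfP.trans (PfP.trans (PfP.trans (PfP.trans (PfP.trans (PfP.trans (PfP.trans (PfP.trans (PfP.trans (PfP.trans (PfP.trans (PfP.trans (PfP.trans (PfP.trans (PfP.trans (PfP.trans (PfP.trans (PfP.trans (PfP.trans (PfP.trans (PfP.trans (PfP.trans (PfP.trans (PfP.trans (PfP.trans (PfP.trans (PfP.trans (PfP.trans (PfP.trans (PfP.trans (PfP.trans (PfP.trans (PfP.trans (PfP.trans (PfP.trans (PfP.trans (PfP.trans (PfP.trans (PfP.trans (PfP.trans (PfP.trans (PfP.trans (PfP.trans (PfP.trans (PfP.trans (PfP.trans (PfP.trans (PfP.trans (PfP.trans (PfP.trans (PfP.trans (PfP.trans (PfP.trans (PfP.trans (PfP.trans (PfP.trans (PfP.trans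
 (PfP.trans (PfP.trans (PfP.trans (PfP.trans (PfP.trans (PfP.trans (PfP.trans (PfP.trans (PfP.trans (PfP.trans (PfP.trans (PfP.trans (PfP.trans (PfP.trans (PfP.trans (PfP.trans (PfP.trans (PfP.trans (PfP.trans (PfP.trans (PfP.trans (PfP.trans (PfP.trans (PfP.trans (PfP.trans (PfP.trans (PfP.trans (PfP.trans (PfP.trans (PfP.trans (PfP.trans (PfP.trans (PfP.trans (PfP.trans (PfP.trans (PfP.trans (PfP.trans (PfP.trans (PfP.trans (PfP.trans (PfP.trans (PfP.trans (PfP.trans (PfP.trans (PfP.trans (PfP.trans (PfP.trans (PfP.trans (PfP.trans (PfP.trans (PfP.trans (PfP.trans (PfP.trans (PfP.trans (PfP.trans (PfP.trans (PfP.trans (PfP.trans (PfP.trans (PfP.trans (PfP.trans (PfP.trans (PfP.trans (PfP.trans (PfP.trans (PfP.trans (PfP.trans (PfP.trans (PfP.trans (PfP.trans (PfP.trans (PfP.trans (PfP.trans (PfP.trans (PfP.trans (PfP.trans (PfP.trans (PfP.trans (PfP.trans (PfP.trans (PfP.trans (PfP.trans (PfP.trans (pfC_sound p13_19_2_0) (pfC_sound p13_19_2_1)) (pfC_sound p13_19_2_2))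 (pfC_sound p13_19_2_3)) (pfC_sound p13_19_2_4)) (pfC_sound p13_19_2_5)) (pfC_sound p13_19_2_6)) (pfC_sound p13_19_2_7)) (pfC_sound p13_19_2_8)) (pfC_sound p13_19_2_9)) (pfC_sound p13_19_2_10)) (pfC_sound
 p13_19_2_11)) (pfC_sound p13_19_2_12)) (pfC_sound p13_19_2_13)) (pfC_sound p13_19_2_14)) (pfC_sound p13_19_2_15)) (pfC_sound p13_19_2_16)) (pfC_sound p13_19_2_17)) (pfC_sound p13_19_2_18)) (pfC_sound p13_19_2_19)) (pfC_sound p13_19_2_20)) (pfC_sound p13_19_2_21)) (pfC_sound p13_19_2_22)) (pfC_sound p13_19_2_23)) (pfC_sound p13_19_2_24)) (pfC_sound p13_19_2_25)) (pfC_sound p13_19_2_26)) (pfC_sound p13_19_2_27)) (pfC_sound p13_19_2_28)) (pfC_sound p13_19_2_29)) (pfC_sound p13_19_2_30)) (pfC_sound p13_19_2_31)) (pfC_sound p13_19_2_32)) (pfC_sound p13_19_2_33)) (pfC_sound p13_19_2_34)) (pfC_sound p13_19_2_35)) (pfC_sound p13_19_2_36)) (pfC_sound p13_19_2_37)) (pfC_sound p13_19_2_38)) (pfC_sound p13_19_2_39)) (pfC_sound p13_19_2_40)) (pfC_sound p13_19_2_41)) (pfC_sound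 p13_19_2_42)) (pfC_sound p13_19_2_43)) (pfC_sound p13_19_2_44)) (pfC_sound p13_19_2_45)) (pfC_sound p13_19_2_46)) (pfC_sound p13_19_2_47)) (pfC_sound p13_19_2_48)) (pfC_sound p13_19_2_49)) (pfC_sound p13_19_2_50)) (pfC_sound p13_19_2_51)) (pfC_sound p13_19_2_52)) (pfC_sound p13_19_2_53)) (pfC_sound p13_19_2_54)) (pfC_sound p13_19_2_55)) (pfC_sound p13_19_2_56)) (pfC_sound p13_19_2_57)) (pfC_sound p13_19_2_58)) (pfC_sound
 p13_19_2_59)) (pfC_sound p13_19_2_60)) (pfC_sound p13_19_2_61)) (pfC_sound p13_19_2_62)) (pfC_sound p13_19_2_63)) (pfC_sound p13_19_2_64)) (pfC_sound p13_19_2_65)) (pfC_sound p13_19_2_66)) (pfC_sound p13_19_2_67)) (pfC_sound p13_19_2_68)) (pfC_sound p13_19_2_69)) (pfC_sound p13_19_2_70)) (pfC_sound p13_19_2_71)) (pfC_sound p13_19_2_72)) (pfC_sound p13_19_2_73)) (pfC_sound p13_19_2_74)) (pfC_sound p13_19_2_75)) (pfC_sound p13_19_2_76)) (pfC_sound p13_19_2_77)) (pfC_sound p13_19_2_78)) (pfC_sound p13_19_2_79)) (pfC_sound p13_19_2_80)) (pfC_sound p13_19_2_81))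 (pfC_sound p13_19_2_82)) (pfC_sound p13_19_2_83)) (pfC_sound p13_19_2_84)) (pfC_sound p13_19_2_85)) (pfC_sound p13_19_2_86)) (pfC_sound p13_19_2_87)) (pfC_sound p13_19_2_88)) (pfC_sound p13_19_2_89)) (pfC_sound p13_19_2_90)) (pfC_sound p13_19_2_91)) (pfC_sound p13_19_2_92)) (pfC_sound p13_19_2_93)) (pfC_sound p13_19_2_94)) (pfC_sound p13_19_2_95)) (pfC_sound p13_19_2_96)) (pfC_sound p13_19_2_97)) (pfC_sound p13_19_2_98)) (pfC_sound p13_19_2_99)) (pfC_sound p13_19_2_100)) (pfC_sound p13_19_2_101)) (pfC_sound p13_19_2_102)) (pfC_sound p13_19_2_103)) (pfC_sound p13_19_2_104)) (pfC_sound p13_19_2_105)) (pfC_sound p13_19_2_106))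
 (pfC_sound p13_19_2_107)) (pfC_sound p13_19_2_108)) (pfC_sound p13_19_2_109)) (pfC_sound p13_19_2_110)) (pfC_sound p13_19_2_111)) (pfC_sound p13_19_2_112)) (pfC_sound p13_19_2_113)) (pfC_sound p13_19_2_114)) (pfC_sound p13_19_2_115)) (pfC_sound p13_19_2_116)) (pfC_sound p13_19_2_117)) (pfC_sound p13_19_2_118)) (pfC_sound p13_19_2_119)) (pfC_sound p13_19_2_120)) (pfC_sound p13_19_2_121)) (pfC_sound p13_19_2_122)) (pfC_sound p13_19_2_123)) (pfC_sound p13_19_2_124)) (pfC_sound p13_19_2_125)) (pfC_sound p13_19_2_126)) (pfC_sound p13_19_2_127)) (pfC_sound p13_19_2_128)) (pfC_sound p13_19_2_129)) (pfC_sound p13_19_2_130)) (pfC_sound p13_19_2_131)) (pfC_sound p13_19_2_132)) (pfC_sound p13_19_2_133)) (pfC_sound p13_19_2_134)) (pfC_sound p13_19_2_135)) (pfC_sound p13_19_2_136)) (pfC_sound p13_19_2_137)) (pfC_sound p13_19_2_138)) (pfC_sound p13_19_2_139)) (pfC_sound p13_19_2_140)) (pfC_sound p13_19_2_141)) (pfC_sound p13_19_2_142)) (pfC_sound p13_19_2_143)) (pfC_sound p13_19_2_144))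 (pfC_sound p13_19_2_145)) (pfC_sound p13_19_2_146)) (pfC_sound p13_19_2_147)) (pfC_sound p13_19_2_148)) (pfC_sound p13_19_2_149)) (pfC_sound p13_19_2_150)) (pfC_sound p13_19_2_151)) (pfC_sound p13_19_2_152))
 (pfC_sound p13_19_2_153)) (pfC_sound p13_19_2_154)) (pfC_sound p13_19_2_155)) (pfC_sound p13_19_2_156)) (pfC_sound p13_19_2_157)) (pfC_sound p13_19_2_158)) (pfC_sound p13_19_2_159)) (pfC_sound p13_19_2_160)) (pfC_sound p13_19_2_161)) (pfC_sound p13_19_2_162)) (pfC_sound p13_19_2_163)) (pfC_sound p13_19_2_164)) (pfC_sound p13_19_2_165)) (pfC_sound p13_19_2_166)) (pfC_sound p13_19_2_167)) (pfC_sound p13_19_2_168)) (pfC_sound p13_19_2_169)) (pfC_sound p13_19_2_170)) (pfC_sound p13_19_2_171)) (pfC_sound p13_19_2_172)) (pfC_sound p13_19_2_173)) (pfC_sound p13_19_2_174)) (pfC_sound p13_19_2_175)) (pfC_sound p13_19_2_176)) (pfC_sound p13_19_2_177)) (pfC_sound p13_19_2_178)) (pfC_sound p13_19_2_179)) (pfC_sound p13_19_2_180)) (pfC_sound p13_19_2_181)) (pfC_sound p13_19_2_182))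 (pfC_sound p13_19_2_183)) (pfC_sound p13_19_2_184)) (pfC_sound p13_19_2_185)) (pfC_sound p13_19_2_186)) (pfC_sound p13_19_2_187)) (pfC_sound p13_19_2_188)) (pfC_sound p13_19_2_189)) (pfC_sound p13_19_2_190)) (pfC_sound p13_19_2_191)) (pfC_sound p13_19_2_192)) (by decide +kernel)

def z13_19_2 : zOK yB13_19 (nat_lit 2) (nat_lit 600) (nat_lit 682) (nat_lit 7339693) (nat_lit 6733447) = true := by decide +kernel
def g13_19_2 : gOK yB13_19.x P13_19 (nat_lit 1378) (q13_19 :: r13_19) (nat_lit 2) (nat_lit 600) (nat_lit 3) (nat_lit 682) (nat_lit 12712500) (nat_lit 12712500) (nat_lit 12712500) (nat_lit 12712500) [(nat_lit 800)] = true := by decide +kernel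
def v13_19_2 : ivC P13_19 s13_19 w13_19 n13_19 (nat_lit 3) (nat_lit 4680) (nat_lit 2) (nat_lit 600) f184_0_600 f192_0_600 (nat_lit 3) (nat_lit 682) f184_0_682 f192_0_682 (nat_lit 7339693) (nat_lit 6733447) p13_19_2 = true := by decide +kernel
end CB
end Pool.Agent.Lib.MP_6947cd_al
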