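import Pool.Agent.Lib.MP_6947cd_al.L.BoxDataB
import Pool.Agent.Lib.MP_6947cd_al.L.TeD1
import Pool.Agent.Lib.MP_6947cd_al.L.TeD2

/-!
Problem MP_6947cd_al (Chollet).  CASE B, rows `j`: boxes (generated).
-/

set_option autoImplicit false
set_option linter.defProp false
set_option maxRecDepth 20000

namespace Pool.Agent.Lib.MP_6947cd_al
namespace CB

open Ent Ent.Pk Fr Fr.WT CA

/-! box `yB13_20` -/

def P13_20 : BQ := ⟨(nat_lit 8), (nat_lit 4), (nat_lit 4), (nat_lit 0), (nat_lit 8), (nat_lit 940), (nat_lit 960), (nat_lit 90), [(nat_lit 180), (nat_lit 330), (nat_lit 650)], (nat_lit 147392000), (nat_lit 16000000), (nat_lit 16000000000)⟩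
def q13_20 : PC := ⟨(nat_lit 1000), [(nat_lit 90000), (nat_lit 180000), (nat_lit 330000), (nat_lit 650000)], (nat_lit 79228162532711081671548469249000000), (nat_lit 15852608000000), (nat_lit 15852608000000), (nat_lit 10000000)⟩
def r13_20 : List PC := [⟨(nat_lit 1356), [(nat_lit 90560), (nat_lit 180622), (nat_lit 331405), (nat_lit 651122)], (nat_lit 55459713778528441332448641938311698), (nat_lit 16373670055680), (nat_lit 16385354260480), (nat_lit 10062223)⟩]
def s13_20 : List PB := [⟨(nat_lit 27120), (nat_lit 1448960000000), [(nat_lit 180622), (nat_lit 331405), (nat_lit 651122)], (nat_lit 55459713778528441332448641938311698), (nat_lit 1142273576898304), (nat_lit 1142285261103104), (nat_lit 56960)⟩]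
def n13_20 : List KN := [⟨(nat_lit 650), (nat_lit 330), (nat_lit 14696761), (nat_lit 8416473)⟩, ⟨(nat_lit 330), (nat_lit 180), (nat_lit 22827826), (nat_lit 14696761)⟩, ⟨(nat_lit 180), (nat_lit 90), (nat_lit 35404596), (nat_lit 22827826)⟩]
def w13_20 : List ℕ := [(nat_lit 56960)]
def par13_20 : parC yB13_20 P13_20 s13_20 r13_20 q13_20 n13_20 w13_20 = true := by decide +kernel

def p13_20_0 : PF := (PF.cons (PF.cons (PF.cons (PF.leaf (nat_lit 928141) (nat_lit 3066352) (nat_lit 64042460) (nat_lit 3066352) [(nat_lit 0), (nat_lit 0), (nat_lit 0)]) (PF.cons (PF.leaf (nat_lit 1153808) (nat_lit 387049) (nat_lit 63565038) (nat_lit 3156725) [(nat_lit 387049), (nat_lit 0), (nat_lit 0)]) (PF.cons (PF.leaf (nat_lit 1424908) (nat_lit 428230) (nat_lit 62998900) (nat_lit 3253451) [(nat_lit 428230), (nat_lit 0), (nat_lit 0)]) (PF.cons (PF.leaf (nat_lit 1734802) (nat_lit 466398) (nat_lit 62357858) (nat_lit 3351759) [(nat_lit 466398), (nat_lit 0), (nat_lit 0)]) (PF.cons (PF.leaf (nat_lit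 2079031) (nat_lit 501970) (nat_lit 61652398) (nat_lit 3448533) [(nat_lit 501970), (nat_lit 0), (nat_lit 0)]) (PF.cons (PF.leaf (nat_lit 2453679) (nat_lit 535153) (nat_lit 60891354) (nat_lit 3541690) [(nat_lit 535153), (nat_lit 0), (nat_lit 0)]) (PF.cons (PF.leaf (nat_lit 2855223) (nat_lit 566065) (nat_lit 60082587) (nat_lit 3629830) [(nat_lit 566065), (nat_lit 0), (nat_lit 0)]) (PF.cons (PF.leaf (nat_lit 3280369) (nat_lit 594783) (nat_lit 59233291) (nat_lit 3712034) [(nat_lit 594783), (nat_lit 0), (nat_lit 0)]) (PF.cons (PF.leaf (nat_lit 3725982) (nat_lit 621370) (nat_lit 58350124) (nat_lit 3787728)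
 [(nat_lit 621370), (nat_lit 0), (nat_lit 0)]) (PF.cons (PF.leaf (nat_lit 4189125) (nat_lit 645883) (nat_lit 57439270) (nat_lit 3856589) [(nat_lit 645883), (nat_lit 0), (nat_lit 0)]) (PF.cons (PF.leaf (nat_lit 4667029) (nat_lit 668386) (nat_lit 56506459) (nat_lit 3918487) [(nat_lit 668386), (nat_lit 0), (nat_lit 0)]) (PF.cons (PF.leaf (nat_lit 5157066) (nat_lit 688945) (nat_lit 55556976) (nat_lit 3973433) [(nat_lit 688945), (nat_lit 0), (nat_lit 0)]) (PF.cons (PF.leaf (nat_lit 5656856) (nat_lit 707633) (nat_lit 54595667) (nat_lit 4021543) [(nat_lit 707633), (nat_lit 0), (nat_lit 0)]) (PF.cons (PF.leaf (nat_lit 6164138) (nat_lit 724527) (nat_lit 53626941) (nat_lit 4063016) [(nat_lit 724527), (nat_lit 0), (nat_lit 0)]) (PF.cons (PF.leaf (nat_lit 6676867) (nat_lit 739708) (nat_lit 52654785) (nat_lit 4098108) [(nat_lit 739708), (nat_lit 0), (nat_lit 0)]) (PF.cons (PF.leaf (nat_lit 7193167) (nat_lit 753261) (nat_lit 51682767) (nat_lit 4127116) [(nat_lit 753261), (nat_lit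 0), (nat_lit 0)]) (PF.cons (PF.leaf (nat_lit 7711412) (nat_lit 765273) (nat_lit 50714063) (nat_lit 4150366) [(nat_lit 765273), (nat_lit 0), (nat_lit 0)]) (PF.cons PF.nil (PF.cons PF.nil (PF.cons PF.nil
 PF.nil)))))))))))))))))))) (PF.cons (PF.cons (PF.leaf (nat_lit 1747819) (nat_lit 1984490) (nat_lit 61716968) (nat_lit 3407353) [(nat_lit 0), (nat_lit 1984490), (nat_lit 0)]) (PF.cons (PF.leaf (nat_lit 2054376) (nat_lit 495129) (nat_lit 61069881) (nat_lit 3490038) [(nat_lit 495129), (nat_lit 2053763), (nat_lit 0)]) (PF.cons (PF.leaf (nat_lit 2396407) (nat_lit 528680) (nat_lit 60357237) (nat_lit 3572208) [(nat_lit 528680), (nat_lit 2122005), (nat_lit 0)]) (PF.cons (PF.leaf (nat_lit 2768612) (nat_lit 559731) (nat_lit 59590312) (nat_lit 3651622) [(nat_lit 559731), (nat_lit 2187683), (nat_lit 0)]) (PF.cons (PF.leaf (nat_lit 3166949) (nat_lit 588483) (nat_lit 58778202) (nat_lit 3726818) [(nat_lit 588483), (nat_lit 2249858), (nat_lit 0)]) (PF.cons (PF.leaf (nat_lit 3587899)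 (nat_lit 615062) (nat_lit 57928694) (nat_lit 3796850) [(nat_lit 615062), (nat_lit 2307954), (nat_lit 0)]) (PF.cons (PF.leaf (nat_lit 4028243) (nat_lit 639562) (nat_lit 57048678) (nat_lit 3861125) [(nat_lit 639562), (nat_lit 2361636), (nat_lit 0)]) (PF.cons (PF.leaf (nat_lit 4485035) (nat_lit 662060) (nat_lit 56144344) (nat_lit 3919309) [(nat_lit 662060), (nat_lit 2410733), (nat_lit 0)]) (PF.cons (PF.leaf (nat_lit
 4955563) (nat_lit 682633) (nat_lit 55221291) (nat_lit 3971256) [(nat_lit 682633), (nat_lit 2455192), (nat_lit 0)]) (PF.cons (PF.leaf (nat_lit 5437303) (nat_lit 701357) (nat_lit 54284586) (nat_lit 4016959) [(nat_lit 701357), (nat_lit 2495046), (nat_lit 0)]) (PF.cons (PF.leaf (nat_lit 5927948) (nat_lit 718310) (nat_lit 53338804) (nat_lit 4056516) [(nat_lit 718310), (nat_lit 2530389), (nat_lit 0)]) (PF.cons (PF.leaf (nat_lit 6425383) (nat_lit 733571) (nat_lit 52388059) (nat_lit 4090101) [(nat_lit 733571), (nat_lit 2561365), (nat_lit 0)]) (PF.cons (PF.leaf (nat_lit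 6927666) (nat_lit 747224) (nat_lit 51436025) (nat_lit 4117944) [(nat_lit 747224), (nat_lit 2588146), (nat_lit 0)]) (PF.cons (PF.leaf (nat_lit 7433067) (nat_lit 759353) (nat_lit 50485967) (nat_lit 4140315) [(nat_lit 759353), (nat_lit 2610932), (nat_lit 0)]) (PF.cons (PF.leaf (nat_lit 7939984) (nat_lit 770043) (nat_lit 49540763) (nat_lit 4157507) [(nat_lit 770043), (nat_lit 2629934), (nat_lit 0)]) (PF.cons PF.nil (PF.cons PF.nil (PF.cons PF.nil PF.nil)))))))))))))))))) (PF.cons (PF.cons (PF.leaf (nat_lit 2714611) (nat_lit 2202165) (nat_lit 59026539) (nat_lit 3677942) [(nat_lit 0), (nat_lit 2202165), (nat_lit 0)]) (PF.cons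
 (PF.leaf (nat_lit 3080366) (nat_lit 580426) (nat_lit 58266047) (nat_lit 3744823) [(nat_lit 580426), (nat_lit 2258758), (nat_lit 0)]) (PF.cons (PF.leaf (nat_lit 3472760) (nat_lit 607400) (nat_lit 57460578) (nat_lit 3808310) [(nat_lit 607400), (nat_lit 2312561), (nat_lit 0)]) (PF.cons (PF.leaf (nat_lit 3887425) (nat_lit 632161) (nat_lit 56619161) (nat_lit 3867379) [(nat_lit 632161), (nat_lit 2362894), (nat_lit 0)]) (PF.cons (PF.leaf (nat_lit 4320898) (nat_lit 654852) (nat_lit 55749284) (nat_lit 3921401) [(nat_lit 654852), (nat_lit 2409357), (nat_lit 0)]) (PF.cons (PF.leaf (nat_lit 4770151) (nat_lit 675586) (nat_lit 54857379) (nat_lit 3970017) [(nat_lit 675586), (nat_lit 2451741), (nat_lit 0)]) (PF.cons (PF.leaf (nat_lit 5232416) (nat_lit 694457) (nat_lit 53949072) (nat_lit 4013063) [(nat_lit 694457), (nat_lit 2489965), (nat_lit 0)]) (PF.cons (PF.leaf (nat_lit 5705230) (nat_lit 711555) (nat_lit 53029335) (nat_lit 4050513) [(nat_lit 711555), (nat_lit 2524038), (nat_lit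 0)]) (PF.cons (PF.leaf (nat_lit 6186346) (nat_lit 726965) (nat_lit 52102571) (nat_lit 4082443) [(nat_lit 726965), (nat_lit 2554036), (nat_lit 0)]) (PF.cons (PF.leaf (nat_lit 6673726) (nat_lit 740774) (nat_lit 51172677)
 (nat_lit 4109007) [(nat_lit 740774), (nat_lit 2580081), (nat_lit 0)]) (PF.cons (PF.leaf (nat_lit 7165505) (nat_lit 753065) (nat_lit 50243093) (nat_lit 4130407) [(nat_lit 753065), (nat_lit 2602327), (nat_lit 0)]) (PF.cons (PF.leaf (nat_lit 7660073) (nat_lit 763925) (nat_lit 49316841) (nat_lit 4146887) [(nat_lit 763925), (nat_lit 2620953), (nat_lit 0)]) (PF.cons (PF.leaf (nat_lit 8155910) (nat_lit 773436) (nat_lit 48396559) (nat_lit 4158713) [(nat_lit 773436), (nat_lit 2636152), (nat_lit 0)]) (PF.cons (PF.leaf (nat_lit 8651697) (nat_lit 781681) (nat_lit 47484532) (nat_lit 4166166) [(nat_lit 781681), (nat_lit 2648124), (nat_lit 0)]) (PF.cons PF.nil (PF.cons PF.nil PF.nil)))))))))))))))) (PF.cons (PF.cons (PF.leaf (nat_lit 3774327) (nat_lit 2365919) (nat_lit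 56135020) (nat_lit 3876033) [(nat_lit 0), (nat_lit 2365919), (nat_lit 0)]) (PF.cons (PF.leaf (nat_lit 4180177) (nat_lit 646309) (nat_lit 55309721) (nat_lit 3925195) [(nat_lit 646309), (nat_lit 2409195), (nat_lit 0)]) (PF.cons (PF.leaf (nat_lit 4605113) (nat_lit 667470) (nat_lit 54456488) (nat_lit 3969996) [(nat_lit 667470), (nat_lit 2449129), (nat_lit 0)]) (PF.cons (PF.leaf (nat_lit 5045572) (nat_lit 686681) (nat_lit 53582351)
 (nat_lit 4010036) [(nat_lit 686681), (nat_lit 2485460), (nat_lit 0)]) (PF.cons (PF.leaf (nat_lit 5498696) (nat_lit 704067) (nat_lit 52693194) (nat_lit 4045123) [(nat_lit 704067), (nat_lit 2518074), (nat_lit 0)]) (PF.cons (PF.leaf (nat_lit 5961977) (nat_lit 719736) (nat_lit 51794047) (nat_lit 4075209) [(nat_lit 719736), (nat_lit 2546957), (nat_lit 0)]) (PF.cons (PF.leaf (nat_lit 6433178) (nat_lit 733786) (nat_lit 50889256) (nat_lit 4100348) [(nat_lit 733786), (nat_lit 2572162), (nat_lit 0)]) (PF.cons (PF.leaf (nat_lit 6910289) (nat_lit 746309)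 (nat_lit 49982595) (nat_lit 4120668) [(nat_lit 746309), (nat_lit 2593794), (nat_lit 0)]) (PF.cons (PF.leaf (nat_lit 7391542) (nat_lit 757394) (nat_lit 49077345) (nat_lit 4136351) [(nat_lit 757394), (nat_lit 2611987), (nat_lit 0)]) (PF.cons (PF.leaf (nat_lit 7875330) (nat_lit 767127) (nat_lit 48176350) (nat_lit 4147612) [(nat_lit 767127), (nat_lit 2626901), (nat_lit 0)]) (PF.cons (PF.leaf (nat_lit 8360238) (nat_lit 775591) (nat_lit 47282066) (nat_lit 4154693) [(nat_lit 775591), (nat_lit 2638711), (nat_lit 0)]) (PF.cons (PF.leaf (nat_lit 8845018) (nat_lit 782869) (nat_lit 46396599) (nat_lit 4157846) [(nat_lit 782869), (nat_lit 2647599),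
 (nat_lit 0)]) (PF.cons PF.nil (PF.cons PF.nil PF.nil)))))))))))))) (PF.cons (PF.cons (PF.leaf (nat_lit 4882417) (nat_lit 2481800) (nat_lit 53173442) (nat_lit 4008170) [(nat_lit 0), (nat_lit 2481800), (nat_lit 0)]) (PF.cons (PF.leaf (nat_lit 5312543) (nat_lit 695525) (nat_lit 52322099) (nat_lit 4040527) [(nat_lit 695525), (nat_lit 2512665), (nat_lit 0)]) (PF.cons (PF.leaf (nat_lit 5755578) (nat_lit 711641) (nat_lit 51456095) (nat_lit 4068506) [(nat_lit 711641), (nat_lit 2540231), (nat_lit 0)]) (PF.cons (PF.leaf (nat_lit 6208682) (nat_lit 726073) (nat_lit 50580736) (nat_lit 4092031) [(nat_lit 726073), (nat_lit 2564455), (nat_lit 0)]) (PF.cons (PF.leaf (nat_lit 6669556) (nat_lit 738936) (nat_lit 49700460) (nat_lit 4111132) [(nat_lit 738936), (nat_lit 2585368), (nat_lit 0)]) (PF.cons (PF.leaf (nat_lit 7136195) (nat_lit 750331) (nat_lit 48819026) (nat_lit 4125914) [(nat_lit 750331), (nat_lit 2603054), (nat_lit 0)]) (PF.cons (PF.leaf (nat_lit 7606829) (nat_lit 760353) (nat_lit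 47939639) (nat_lit 4136533) [(nat_lit 760353), (nat_lit 2617629), (nat_lit 0)]) (PF.cons (PF.leaf (nat_lit 8079906) (nat_lit 769092) (nat_lit 47065035) (nat_lit 4143182) [(nat_lit 769092), (nat_lit 2629236),
 (nat_lit 0)]) (PF.cons (PF.leaf (nat_lit 8554058) (nat_lit 776633) (nat_lit 46197544) (nat_lit 4146076) [(nat_lit 776633), (nat_lit 2638031), (nat_lit 0)]) (PF.cons (PF.leaf (nat_lit 9028068) (nat_lit 783056) (nat_lit 45339145) (nat_lit 4145445) [(nat_lit 783056), (nat_lit 2644179), (nat_lit 0)]) (PF.cons PF.nil (PF.cons PF.nil PF.nil)))))))))))) (PF.cons (PF.cons (PF.leaf (nat_lit 6004503) (nat_lit 2557068) (nat_lit 50239315) (nat_lit 4084157) [(nat_lit 0), (nat_lit 2557068), (nat_lit 0)]) (PF.cons (PF.leaf (nat_lit 6446526) (nat_lit 730709) (nat_lit 49390680) (nat_lit 4101852) [(nat_lit 730709), (nat_lit 2577114), (nat_lit 0)]) (PF.cons (PF.leaf (nat_lit 6896612) (nat_lit 742552) (nat_lit 48537169) (nat_lit 4115599) [(nat_lit 742552), (nat_lit 2594187), (nat_lit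 0)]) (PF.cons (PF.leaf (nat_lit 7352516) (nat_lit 752971) (nat_lit 47682667) (nat_lit 4125479) [(nat_lit 752971), (nat_lit 2608350), (nat_lit 0)]) (PF.cons (PF.leaf (nat_lit 7812450) (nat_lit 762068) (nat_lit 46830401) (nat_lit 4131626) [(nat_lit 762068), (nat_lit 2619701), (nat_lit 0)]) (PF.cons (PF.leaf (nat_lit 8274851) (nat_lit 769939) (nat_lit 45983074) (nat_lit 4134209) [(nat_lit 769939), (nat_lit 2628366),
 (nat_lit 0)]) (PF.cons (PF.leaf (nat_lit 8738372) (nat_lit 776669) (nat_lit 45142953) (nat_lit 4133420) [(nat_lit 776669), (nat_lit 2634484), (nat_lit 0)]) (PF.cons (PF.leaf (nat_lit 9201814) (nat_lit 782341) (nat_lit 44311938) (nat_lit 4129466) [(nat_lit 782341), (nat_lit 2638203), (nat_lit 0)]) (PF.cons (PF.leaf (nat_lit 9664134) (nat_lit 787030) (nat_lit 43491612) (nat_lit 4122559) [(nat_lit 787030), (nat_lit 2639678), (nat_lit 0)]) (PF.cons PF.nil PF.nil)))))))))) (PF.cons (PF.cons (PF.leaf (nat_lit 7115674) (nat_lit 2599092) (nat_lit 47399802) (nat_lit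 4114454) [(nat_lit 0), (nat_lit 2599092), (nat_lit 0)]) (PF.cons (PF.leaf (nat_lit 7560368) (nat_lit 754343) (nat_lit 46573752) (nat_lit 4120012) [(nat_lit 754343), (nat_lit 2610117), (nat_lit 0)]) (PF.cons (PF.leaf (nat_lit 8009447) (nat_lit 762647) (nat_lit 45749676) (nat_lit 4122223) [(nat_lit 762647), (nat_lit 2618602), (nat_lit 0)]) (PF.cons (PF.leaf (nat_lit 8461157) (nat_lit 769767) (nat_lit 44930334) (nat_lit 4121235) [(nat_lit 769767), (nat_lit 2624656), (nat_lit 0)]) (PF.cons (PF.leaf (nat_lit 8914134) (nat_lit 775795) (nat_lit 44117999) (nat_lit 4117218) [(nat_lit 775795), (nat_lit 2628402), (nat_lit 0)]) (PF.cons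
 (PF.leaf (nat_lit 9367178) (nat_lit 780812) (nat_lit 43314542) (nat_lit 4110358) [(nat_lit 780812), (nat_lit 2629974), (nat_lit 0)]) (PF.cons (PF.leaf (nat_lit 9819267) (nat_lit 784898) (nat_lit 42521504) (nat_lit 4100847) [(nat_lit 784898), (nat_lit 2629511), (nat_lit 0)]) (PF.cons PF.nil PF.nil)))))))) (PF.cons (PF.cons (PF.leaf (nat_lit 8199005) (nat_lit 2614685) (nat_lit 44697167) (nat_lit 4108849) [(nat_lit 0), (nat_lit 2614685), (nat_lit 0)]) (PF.cons (PF.leaf (nat_lit 8639800) (nat_lit 768666) (nat_lit 43906409) (nat_lit 4104739) [(nat_lit 768666), (nat_lit 2618428), (nat_lit 0)]) (PF.cons (PF.leaf (nat_lit 9082268) (nat_lit 774092) (nat_lit 43122165) (nat_lit 4097905) [(nat_lit 774092), (nat_lit 2620079), (nat_lit 0)]) (PF.cons (PF.leaf (nat_lit 9525043) (nat_lit 778548) (nat_lit 42346340) (nat_lit 4088516) [(nat_lit 778548), (nat_lit 2619758), (nat_lit 0)]) (PF.cons (PF.leaf (nat_lit 9967094) (nat_lit 782112) (nat_lit 41580480) (nat_lit 4076744) [(nat_lit 782112),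 (nat_lit 2617590), (nat_lit 0)]) (PF.cons PF.nil PF.nil)))))) (PF.cons (PF.cons (PF.leaf (nat_lit 9243825) (nat_lit 2609775) (nat_lit 42154739) (nat_lit 4075865) [(nat_lit 0), (nat_lit 2609775), (nat_lit 0)])
 (PF.cons (PF.leaf (nat_lit 9676254) (nat_lit 775613) (nat_lit 41406569) (nat_lit 4064288) [(nat_lit 775613), (nat_lit 2607792), (nat_lit 0)]) (PF.cons (PF.leaf (nat_lit 10108398) (nat_lit 778735) (nat_lit 40667725) (nat_lit 4050565) [(nat_lit 778735), (nat_lit 2604131), (nat_lit 0)]) (PF.cons (PF.leaf (nat_lit 10539205) (nat_lit 781070) (nat_lit 39939481) (nat_lit 4034859) [(nat_lit 781070), (nat_lit 2598907), (nat_lit 0)]) PF.nil)))) (PF.cons (PF.cons (PF.leaf (nat_lit 10244098) (nat_lit 2589322) (nat_lit 39782319) (nat_lit 4022587) [(nat_lit 0), (nat_lit 2589322), (nat_lit 0)]) (PF.cons (PF.leaf (nat_lit 10665279) (nat_lit 776810) (nat_lit 39080161) (nat_lit 4005407) [(nat_lit 776810), (nat_lit 2582937), (nat_lit 0)]) PF.nil)) (PF.cons PF.nil (PF.cons PF.nil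 (PF.cons PF.nil (PF.cons PF.nil (PF.cons PF.nil PF.nil))))))))))))))) (PF.cons (PF.cons (PF.cons (PF.leaf (nat_lit 2770458) (nat_lit 3686743) (nat_lit 56987946) (nat_lit 3686743) [(nat_lit 0), (nat_lit 0), (nat_lit 6434123)]) (PF.cons (PF.leaf (nat_lit 3093388) (nat_lit 554621) (nat_lit 56326598) (nat_lit 3742157) [(nat_lit 554621), (nat_lit 0), (nat_lit 6485435)]) (PF.cons (PF.leaf (nat_lit 3447853) (nat_lit 584221)
 (nat_lit 55609725) (nat_lit 3796069) [(nat_lit 584221), (nat_lit 0), (nat_lit 6534574)]) (PF.cons (PF.leaf (nat_lit 3828031) (nat_lit 610773) (nat_lit 54849616) (nat_lit 3847023) [(nat_lit 610773), (nat_lit 0), (nat_lit 6579851)]) (PF.cons (PF.leaf (nat_lit 4229674) (nat_lit 634715) (nat_lit 54055661) (nat_lit 3894119) [(nat_lit 634715), (nat_lit 0), (nat_lit 6620168)]) (PF.cons (PF.leaf (nat_lit 4649251) (nat_lit 656341) (nat_lit 53235461) (nat_lit 3936814) [(nat_lit 656341), (nat_lit 0), (nat_lit 6654830)]) (PF.cons (PF.leaf (nat_lit 5083734) (nat_lit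 675864) (nat_lit 52395384) (nat_lit 3974808) [(nat_lit 675864), (nat_lit 0), (nat_lit 6683434)]) (PF.cons (PF.leaf (nat_lit 5530445) (nat_lit 693452) (nat_lit 51540881) (nat_lit 4007969) [(nat_lit 693452), (nat_lit 0), (nat_lit 6705792)]) (PF.cons (PF.leaf (nat_lit 5987018) (nat_lit 709247) (nat_lit 50676667) (nat_lit 4036286) [(nat_lit 709247), (nat_lit 0), (nat_lit 6721877)]) (PF.cons (PF.leaf (nat_lit 6451319) (nat_lit 723371) (nat_lit 49806850) (nat_lit 4059836) [(nat_lit 723371), (nat_lit 0), (nat_lit 6731784)]) (PF.cons (PF.leaf (nat_lit 6921433) (nat_lit 735934) (nat_lit 48935008) (nat_lit 4078759) [(nat_lit 735934),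
 (nat_lit 0), (nat_lit 6735694)]) (PF.cons (PF.leaf (nat_lit 7395671) (nat_lit 747041) (nat_lit 48064264) (nat_lit 4093239) [(nat_lit 747041), (nat_lit 0), (nat_lit 6733855)]) (PF.cons (PF.leaf (nat_lit 7872485) (nat_lit 756786) (nat_lit 47197326) (nat_lit 4103489) [(nat_lit 756786), (nat_lit 0), (nat_lit 6726558)]) (PF.cons (PF.leaf (nat_lit 8350508) (nat_lit 765262) (nat_lit 46336537) (nat_lit 4109743) [(nat_lit 765262), (nat_lit 0), (nat_lit 6714123)]) (PF.cons (PF.leaf (nat_lit 8828520) (nat_lit 772554) (nat_lit 45483914) (nat_lit 4112247) [(nat_lit 772554), (nat_lit 0), (nat_lit 6696889)]) (PF.cons PF.nil (PF.cons PF.nil (PF.cons PF.nil PF.nil)))))))))))))))))) (PF.cons (PF.cons (PF.leaf (nat_lit 3741405) (nat_lit 2341688) (nat_lit 54324401) (nat_lit 3855215) [(nat_lit 0), (nat_lit 2341688), (nat_lit 6587506)]) (PF.cons (PF.leaf (nat_lit 4111231) (nat_lit 623279) (nat_lit 53584748) (nat_lit 3897220) [(nat_lit 623279), (nat_lit 2381668), (nat_lit 6621896)]) (PF.cons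 (PF.leaf (nat_lit 4503611) (nat_lit 645950) (nat_lit 52810102) (nat_lit 3936019) [(nat_lit 645950), (nat_lit 2418875), (nat_lit 6651914)]) (PF.cons (PF.leaf (nat_lit 4914222) (nat_lit 666260) (nat_lit 52009231)
 (nat_lit 3971007) [(nat_lit 666260), (nat_lit 2452920), (nat_lit 6676871)]) (PF.cons (PF.leaf (nat_lit 5339721) (nat_lit 684472) (nat_lit 51189084) (nat_lit 4001845) [(nat_lit 684472), (nat_lit 2483617), (nat_lit 6696374)]) (PF.cons (PF.leaf (nat_lit 5777298) (nat_lit 700783) (nat_lit 50355370) (nat_lit 4028376) [(nat_lit 700783), (nat_lit 2510900), (nat_lit 6710246)]) (PF.cons (PF.leaf (nat_lit 6224516) (nat_lit 715350) (nat_lit 49512885) (nat_lit 4050568) [(nat_lit 715350), (nat_lit 2534789), (nat_lit 6718464)]) (PF.cons (PF.leaf (nat_lit 6679228) (nat_lit 728306) (nat_lit 48665712) (nat_lit 4068477) [(nat_lit 728306), (nat_lit 2555358), (nat_lit 6721116)]) (PF.cons (PF.leaf (nat_lit 7139567) (nat_lit 739768) (nat_lit 47817346) (nat_lit 4082222) [(nat_lit 739768),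 (nat_lit 2572719), (nat_lit 6718375)]) (PF.cons (PF.leaf (nat_lit 7603836) (nat_lit 749842) (nat_lit 46970790) (nat_lit 4091965) [(nat_lit 749842), (nat_lit 2587009), (nat_lit 6710468)]) (PF.cons (PF.leaf (nat_lit 8070546) (nat_lit 758624) (nat_lit 46128621) (nat_lit 4097898) [(nat_lit 758624), (nat_lit 2598382), (nat_lit 6697667)]) (PF.cons (PF.leaf (nat_lit 8538386) (nat_lit 766206) (nat_lit 45293043) (nat_lit
 4100232) [(nat_lit 766206), (nat_lit 2607000), (nat_lit 6680265)]) (PF.cons (PF.leaf (nat_lit 9006184) (nat_lit 772673) (nat_lit 44465935) (nat_lit 4099189) [(nat_lit 772673), (nat_lit 2613034), (nat_lit 6658574)]) (PF.cons (PF.leaf (nat_lit 9472898) (nat_lit 778105) (nat_lit 43648886) (nat_lit 4094996) [(nat_lit 778105), (nat_lit 2616652), (nat_lit 6632912)]) (PF.cons PF.nil (PF.cons PF.nil PF.nil)))))))))))))))) (PF.cons (PF.cons (PF.leaf (nat_lit 4773521) (nat_lit 2448524) (nat_lit 51572428) (nat_lit 3968522) [(nat_lit 0), (nat_lit 2448524), (nat_lit 6670813)])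 (PF.cons (PF.leaf (nat_lit 5173192) (nat_lit 673953) (nat_lit 50796239) (nat_lit 3996588) [(nat_lit 673953), (nat_lit 2477438), (nat_lit 6687154)]) (PF.cons (PF.leaf (nat_lit 5588487) (nat_lit 691097) (nat_lit 50000124) (nat_lit 4021026) [(nat_lit 691097), (nat_lit 2503427), (nat_lit 6698610)]) (PF.cons (PF.leaf (nat_lit 6016082) (nat_lit 706335) (nat_lit 49190389) (nat_lit 4041644) [(nat_lit 706335), (nat_lit 2526384), (nat_lit 6705002)]) (PF.cons (PF.leaf (nat_lit 6453375) (nat_lit 719853) (nat_lit 48372120) (nat_lit 4058384) [(nat_lit 719853), (nat_lit 2546294), (nat_lit 6706304)]) (PF.cons (PF.leaf (nat_lit 6898164)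
 (nat_lit 731800) (nat_lit 47549514) (nat_lit 4071283) [(nat_lit 731800), (nat_lit 2563209), (nat_lit 6702596)]) (PF.cons (PF.leaf (nat_lit 7348516) (nat_lit 742302) (nat_lit 46726085) (nat_lit 4080437) [(nat_lit 742302), (nat_lit 2577219), (nat_lit 6694037)]) (PF.cons (PF.leaf (nat_lit 7802756) (nat_lit 751471) (nat_lit 45904795) (nat_lit 4085988) [(nat_lit 751471), (nat_lit 2588444), (nat_lit 6680840)]) (PF.cons (PF.leaf (nat_lit 8259420) (nat_lit 759407) (nat_lit 45088148) (nat_lit 4088107) [(nat_lit 759407), (nat_lit 2597020), (nat_lit 6663252)]) (PF.cons (PF.leaf (nat_lit 8717219) (nat_lit 766203) (nat_lit 44278262) (nat_lit 4086985) [(nat_lit 766203), (nat_lit 2603094), (nat_lit 6641546)]) (PF.cons (PF.leaf (nat_lit 9175002) (nat_lit 771942) (nat_lit 43476919) (nat_lit 4082821) [(nat_lit 771942), (nat_lit 2606819), (nat_lit 6616006)]) (PF.cons (PF.leaf (nat_lit 9631785) (nat_lit 776704) (nat_lit 42685617) (nat_lit 4075822) [(nat_lit 776704), (nat_lit 2608349),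 (nat_lit 6586924)]) (PF.cons PF.nil (PF.cons PF.nil PF.nil)))))))))))))) (PF.cons (PF.cons (PF.leaf (nat_lit 5831590) (nat_lit 2518333) (nat_lit 48829353) (nat_lit 4033183) [(nat_lit 0), (nat_lit 2518333), (nat_lit
 6691275)]) (PF.cons (PF.leaf (nat_lit 6248004) (nat_lit 710224) (nat_lit 48046713) (nat_lit 4048540) [(nat_lit 710224), (nat_lit 2537402), (nat_lit 6691126)]) (PF.cons (PF.leaf (nat_lit 6674709) (nat_lit 722872) (nat_lit 47254984) (nat_lit 4060444) [(nat_lit 722872), (nat_lit 2553749), (nat_lit 6686391)]) (PF.cons (PF.leaf (nat_lit 7109131) (nat_lit 733964) (nat_lit 46458676) (nat_lit 4068904) [(nat_lit 733964), (nat_lit 2567397), (nat_lit 6677144)]) (PF.cons (PF.leaf (nat_lit 7549264) (nat_lit 743644) (nat_lit 45661446) (nat_lit 4074000) [(nat_lit 743644), (nat_lit 2578418), (nat_lit 6663532)]) (PF.cons (PF.leaf (nat_lit 7993390) (nat_lit 752032) (nat_lit 44866309) (nat_lit 4075853) [(nat_lit 752032), (nat_lit 2586912), (nat_lit 6645749)]) (PF.cons (PF.leaf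 (nat_lit 8440027) (nat_lit 759233) (nat_lit 44075764) (nat_lit 4074614) [(nat_lit 759233), (nat_lit 2593001), (nat_lit 6624027)]) (PF.cons (PF.leaf (nat_lit 8887881) (nat_lit 765342) (nat_lit 43291895) (nat_lit 4070454) [(nat_lit 765342), (nat_lit 2596816), (nat_lit 6598614)]) (PF.cons (PF.leaf (nat_lit 9335825) (nat_lit 770445) (nat_lit 42516435) (nat_lit 4063555) [(nat_lit 770445), (nat_lit 2598494), (nat_lit 6569773)])
 (PF.cons (PF.leaf (nat_lit 9782902) (nat_lit 774620) (nat_lit 41750821) (nat_lit 4054102) [(nat_lit 774620), (nat_lit 2598178), (nat_lit 6537771)]) (PF.cons PF.nil (PF.cons PF.nil PF.nil)))))))))))) (PF.cons (PF.cons (PF.leaf (nat_lit 6889858) (nat_lit 2557580) (nat_lit 46161521) (nat_lit 4057370) [(nat_lit 0), (nat_lit 2557580), (nat_lit 6659596)]) (PF.cons (PF.leaf (nat_lit 7313214) (nat_lit 734894) (nat_lit 45393168) (nat_lit 4061918) [(nat_lit 734894), (nat_lit 2568315), (nat_lit 6645571)]) (PF.cons (PF.leaf (nat_lit 7742811) (nat_lit 743887) (nat_lit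 44623291) (nat_lit 4063441) [(nat_lit 743887), (nat_lit 2576674), (nat_lit 6627605)]) (PF.cons (PF.leaf (nat_lit 8176667) (nat_lit 751613) (nat_lit 43855072) (nat_lit 4062044) [(nat_lit 751613), (nat_lit 2582743), (nat_lit 6605883)]) (PF.cons (PF.leaf (nat_lit 8613244) (nat_lit 758185) (nat_lit 43091091) (nat_lit 4057860) [(nat_lit 758185), (nat_lit 2586625), (nat_lit 6580617)]) (PF.cons (PF.leaf (nat_lit 9051218) (nat_lit 763702) (nat_lit 42333458) (nat_lit 4051042) [(nat_lit 763702), (nat_lit 2588439), (nat_lit 6552040)]) (PF.cons (PF.leaf (nat_lit 9489465) (nat_lit 768254) (nat_lit 41583900) (nat_lit 4041754) [(nat_lit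
 768254), (nat_lit 2588309), (nat_lit 6520393)]) (PF.cons (PF.leaf (nat_lit 9927010) (nat_lit 771919) (nat_lit 40843835) (nat_lit 4030165) [(nat_lit 771919), (nat_lit 2586363), (nat_lit 6485921)]) (PF.cons (PF.leaf (nat_lit 10363003) (nat_lit 774770) (nat_lit 40114418) (nat_lit 4016446) [(nat_lit 774770), (nat_lit 2582729), (nat_lit 6448868)]) (PF.cons PF.nil PF.nil)))))))))) (PF.cons (PF.cons (PF.leaf (nat_lit 7930337) (nat_lit 2572307) (nat_lit 43611139) (nat_lit 4049225) [(nat_lit 0), (nat_lit 2572307), (nat_lit 6586911)]) (PF.cons (PF.leaf (nat_lit 8353523) (nat_lit 750285) (nat_lit 42870560) (nat_lit 4044988) [(nat_lit 750285), (nat_lit 2576227), (nat_lit 6561842)]) (PF.cons (PF.leaf (nat_lit 8779938) (nat_lit 756332) (nat_lit 42133544) (nat_lit 4038235) [(nat_lit 756332), (nat_lit 2578158), (nat_lit 6533574)]) (PF.cons (PF.leaf (nat_lit 9208043) (nat_lit 761349) (nat_lit 41402299) (nat_lit 4029103) [(nat_lit 761349), (nat_lit 2578207), (nat_lit 6502324)]) (PF.cons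 (PF.leaf (nat_lit 9636686) (nat_lit 765431) (nat_lit 40678604) (nat_lit 4017741) [(nat_lit 765431), (nat_lit 2576484), (nat_lit 6468318)]) (PF.cons (PF.leaf (nat_lit 10064847) (nat_lit 768660) (nat_lit 39963895)
 (nat_lit 4004303) [(nat_lit 768660), (nat_lit 2573106), (nat_lit 6431783)]) (PF.cons (PF.leaf (nat_lit 10491692) (nat_lit 771108) (nat_lit 39259329) (nat_lit 3988943) [(nat_lit 771108), (nat_lit 2568189), (nat_lit 6392944)]) (PF.cons PF.nil PF.nil)))))))) (PF.cons (PF.cons (PF.leaf (nat_lit 8941143) (nat_lit 2567836) (nat_lit 41202338) (nat_lit 4016080) [(nat_lit 0), (nat_lit 2567836), (nat_lit 6483374)]) (PF.cons (PF.leaf (nat_lit 9359171) (nat_lit 758339) (nat_lit 40497619) (nat_lit 4004949) [(nat_lit 758339), (nat_lit 2566333), (nat_lit 6449903)]) (PF.cons (PF.leaf (nat_lit 9778226) (nat_lit 762031) (nat_lit 39799724) (nat_lit 3991800) [(nat_lit 762031), (nat_lit 2563213), (nat_lit 6413946)]) (PF.cons (PF.leaf (nat_lit 10197121) (nat_lit 764892) (nat_lit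 39110153) (nat_lit 3976772) [(nat_lit 764892), (nat_lit 2558582), (nat_lit 6375715)]) (PF.cons (PF.leaf (nat_lit 10614968) (nat_lit 766999) (nat_lit 38430102) (nat_lit 3960009) [(nat_lit 766999), (nat_lit 2552546), (nat_lit 6335422)]) (PF.cons PF.nil PF.nil)))))) (PF.cons (PF.cons (PF.leaf (nat_lit 9914984) (nat_lit 2548669) (nat_lit 38946330) (nat_lit 3964177) [(nat_lit 0), (nat_lit 2548669), (nat_lit 6357618)]) (PF.cons
 (PF.leaf (nat_lit 10324496) (nat_lit 760658) (nat_lit 38281686) (nat_lit 3947798) [(nat_lit 760658), (nat_lit 2542948), (nat_lit 6318028)]) (PF.cons (PF.leaf (nat_lit 10733455) (nat_lit 762484) (nat_lit 37625816) (nat_lit 3929846) [(nat_lit 762484), (nat_lit 2535942), (nat_lit 6276582)]) (PF.cons PF.nil PF.nil)))) (PF.cons (PF.cons (PF.leaf (nat_lit 10847920) (nat_lit 2518501) (nat_lit 36845500) (nat_lit 3898631) [(nat_lit 0), (nat_lit 2518501), (nat_lit 6216665)]) (PF.cons (PF.leaf (nat_lit 11246761) (nat_lit 758545) (nat_lit 36222477) (nat_lit 3878376)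 [(nat_lit 758545), (nat_lit 2509571), (nat_lit 6172841)]) PF.nil)) (PF.cons PF.nil (PF.cons PF.nil (PF.cons PF.nil (PF.cons PF.nil PF.nil))))))))))))) (PF.cons (PF.cons (PF.cons (PF.leaf (nat_lit 4682187) (nat_lit 3922778) (nat_lit 49982232) (nat_lit 3922778) [(nat_lit 0), (nat_lit 0), (nat_lit 6601901)]) (PF.cons (PF.leaf (nat_lit 5048597) (nat_lit 647464) (nat_lit 49288221) (nat_lit 3947402) [(nat_lit 647464), (nat_lit 0), (nat_lit 6612862)]) (PF.cons (PF.leaf (nat_lit 5434433) (nat_lit 666660) (nat_lit 48566608) (nat_lit 3969100) [(nat_lit 666660), (nat_lit 0), (nat_lit 6619891)]) (PF.cons (PF.leaf (nat_lit 5835478) (nat_lit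
 683471) (nat_lit 47825490) (nat_lit 3987541) [(nat_lit 683471), (nat_lit 0), (nat_lit 6622683)]) (PF.cons (PF.leaf (nat_lit 6248590) (nat_lit 698233) (nat_lit 47071082) (nat_lit 4002573) [(nat_lit 698233), (nat_lit 0), (nat_lit 6621110)]) (PF.cons (PF.leaf (nat_lit 6671194) (nat_lit 711194) (nat_lit 46308340) (nat_lit 4014162) [(nat_lit 711194), (nat_lit 0), (nat_lit 6615167)]) (PF.cons (PF.leaf (nat_lit 7101130) (nat_lit 722546) (nat_lit 45541305) (nat_lit 4022352) [(nat_lit 722546), (nat_lit 0), (nat_lit 6604937)]) (PF.cons (PF.leaf (nat_lit 7536528) (nat_lit 732444) (nat_lit 44773323) (nat_lit 4027241) [(nat_lit 732444), (nat_lit 0), (nat_lit 6590567)]) (PF.cons (PF.leaf (nat_lit 7975777) (nat_lit 741021) (nat_lit 44007188) (nat_lit 4028960) [(nat_lit 741021), (nat_lit 0), (nat_lit 6572245)]) (PF.cons (PF.leaf (nat_lit 8417473) (nat_lit 748391) (nat_lit 43245242) (nat_lit 4027668) [(nat_lit 748391), (nat_lit 0), (nat_lit 6550190)]) (PF.cons (PF.leaf (nat_lit 8860380)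 (nat_lit 754654) (nat_lit 42489452) (nat_lit 4023537) [(nat_lit 754654), (nat_lit 0), (nat_lit 6524638)]) (PF.cons (PF.leaf (nat_lit 9303441) (nat_lit 759902) (nat_lit 41741466) (nat_lit 4016746) [(nat_lit 759902),
 (nat_lit 0), (nat_lit 6495838)]) (PF.cons (PF.leaf (nat_lit 9745702) (nat_lit 764216) (nat_lit 41002655) (nat_lit 4007479) [(nat_lit 764216), (nat_lit 0), (nat_lit 6464040)]) (PF.cons PF.nil (PF.cons PF.nil (PF.cons PF.nil PF.nil)))))))))))))))) (PF.cons (PF.cons (PF.leaf (nat_lit 5674845) (nat_lit 2475844) (nat_lit 47439295) (nat_lit 3978540) [(nat_lit 0), (nat_lit 2475844), (nat_lit 6607565)]) (PF.cons (PF.leaf (nat_lit 6064024) (nat_lit 686671) (nat_lit 46725985) (nat_lit 3992169) [(nat_lit 686671), (nat_lit 2494525), (nat_lit 6604730)]) (PF.cons (PF.leaf (nat_lit 6466313) (nat_lit 700723) (nat_lit 45998064) (nat_lit 4002778) [(nat_lit 700723), (nat_lit 2510669), (nat_lit 6597926)]) (PF.cons (PF.leaf (nat_lit 6878603) (nat_lit 712954) (nat_lit 45261076)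 (nat_lit 4010307) [(nat_lit 712954), (nat_lit 2524262), (nat_lit 6587151)]) (PF.cons (PF.leaf (nat_lit 7298543) (nat_lit 723582) (nat_lit 44519376) (nat_lit 4014780) [(nat_lit 723582), (nat_lit 2535349), (nat_lit 6572489)]) (PF.cons (PF.leaf (nat_lit 7724164) (nat_lit 732780) (nat_lit 43776466) (nat_lit 4016274) [(nat_lit 732780), (nat_lit 2544016), (nat_lit 6554076)]) (PF.cons (PF.leaf (nat_lit 8153799) (nat_lit 740690)
 (nat_lit 43035208) (nat_lit 4014906) [(nat_lit 740690), (nat_lit 2550370), (nat_lit 6532093)]) (PF.cons (PF.leaf (nat_lit 8586016) (nat_lit 747431) (nat_lit 42297959) (nat_lit 4010816) [(nat_lit 747431), (nat_lit 2554531), (nat_lit 6506743)]) (PF.cons (PF.leaf (nat_lit 9019573) (nat_lit 753107) (nat_lit 41566672) (nat_lit 4004159) [(nat_lit 753107), (nat_lit 2556628), (nat_lit 6478248)]) (PF.cons (PF.leaf (nat_lit 9453423) (nat_lit 757810) (nat_lit 40842962) (nat_lit 3995098) [(nat_lit 757810), (nat_lit 2556792), (nat_lit 6446835)]) (PF.cons (PF.leaf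 (nat_lit 9886585) (nat_lit 761621) (nat_lit 40128163) (nat_lit 3983799) [(nat_lit 761621), (nat_lit 2555156), (nat_lit 6412736)]) (PF.cons PF.nil (PF.cons PF.nil (PF.cons PF.nil PF.nil)))))))))))))) (PF.cons (PF.cons (PF.leaf (nat_lit 6679715) (nat_lit 2513809) (nat_lit 44945983) (nat_lit 3998232) [(nat_lit 0), (nat_lit 2513809), (nat_lit 6568489)]) (PF.cons (PF.leaf (nat_lit 7080693) (nat_lit 713467) (nat_lit 44236717) (nat_lit 4002185) [(nat_lit 713467), (nat_lit 2524645), (nat_lit 6553575)]) (PF.cons (PF.leaf (nat_lit 7490116) (nat_lit 723522) (nat_lit 43521702) (nat_lit 4003388) [(nat_lit 723522), (nat_lit 2533223), (nat_lit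
 6535114)]) (PF.cons (PF.leaf (nat_lit 7905648) (nat_lit 732148) (nat_lit 42804765) (nat_lit 4001902) [(nat_lit 732148), (nat_lit 2539605), (nat_lit 6513244)]) (PF.cons (PF.leaf (nat_lit 8325510) (nat_lit 739500) (nat_lit 42088947) (nat_lit 3997827) [(nat_lit 739500), (nat_lit 2543881), (nat_lit 6488136)]) (PF.cons (PF.leaf (nat_lit 8748201) (nat_lit 745709) (nat_lit 41376695) (nat_lit 3991288) [(nat_lit 745709), (nat_lit 2546157), (nat_lit 6459982)]) (PF.cons (PF.leaf (nat_lit 9172463) (nat_lit 750884) (nat_lit 40670003) (nat_lit 3982425) [(nat_lit 750884), (nat_lit 2546548), (nat_lit 6428990)]) (PF.cons (PF.leaf (nat_lit 9597188) (nat_lit 755118) (nat_lit 39970497) (nat_lit 3971386) [(nat_lit 755118), (nat_lit 2545174), (nat_lit 6395374)]) (PF.cons (PF.leaf (nat_lit 10021447) (nat_lit 758496) (nat_lit 39279505) (nat_lit 3958323) [(nat_lit 758496), (nat_lit 2542155), (nat_lit 6359348)]) (PF.cons PF.nil (PF.cons PF.nil (PF.cons PF.nil PF.nil)))))))))))) (PF.cons (PF.cons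 (PF.leaf (nat_lit 7677092) (nat_lit 2528625) (nat_lit 42547593) (nat_lit 3988592) [(nat_lit 0), (nat_lit 2528625), (nat_lit 6493375)]) (PF.cons (PF.leaf (nat_lit 8081929) (nat_lit 730605) (nat_lit 41857567)
 (nat_lit 3984506) [(nat_lit 730605), (nat_lit 2532982), (nat_lit 6468592)]) (PF.cons (PF.leaf (nat_lit 8491766) (nat_lit 737512) (nat_lit 41167744) (nat_lit 3978072) [(nat_lit 737512), (nat_lit 2535420), (nat_lit 6440854)]) (PF.cons (PF.leaf (nat_lit 8904823) (nat_lit 743284) (nat_lit 40480764) (nat_lit 3969404) [(nat_lit 743284), (nat_lit 2536031), (nat_lit 6410347)]) (PF.cons (PF.leaf (nat_lit 9319760) (nat_lit 748040) (nat_lit 39798727) (nat_lit 3958626) [(nat_lit 748040), (nat_lit 2534919), (nat_lit 6377269)]) (PF.cons (PF.leaf (nat_lit 9735431) (nat_lit 751879) (nat_lit 39123319) (nat_lit 3945875) [(nat_lit 751879), (nat_lit 2532192), (nat_lit 6341821)]) (PF.cons (PF.leaf (nat_lit 10150885) (nat_lit 754889) (nat_lit 38455899) (nat_lit 3931290) [(nat_lit 754889),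 (nat_lit 2527959), (nat_lit 6304204)]) (PF.cons (PF.leaf (nat_lit 10565292) (nat_lit 757145) (nat_lit 37797558) (nat_lit 3915012) [(nat_lit 757145), (nat_lit 2522330), (nat_lit 6264617)]) (PF.cons PF.nil (PF.cons PF.nil PF.nil)))))))))) (PF.cons (PF.cons (PF.leaf (nat_lit 8653614) (nat_lit 2525202) (nat_lit 40270728) (nat_lit 3955948) [(nat_lit 0), (nat_lit 2525202), (nat_lit 6390663)]) (PF.cons (PF.leaf (nat_lit
 9056666) (nat_lit 740199) (nat_lit 39609321) (nat_lit 3945443) [(nat_lit 740199), (nat_lit 2524351), (nat_lit 6358221)]) (PF.cons (PF.leaf (nat_lit 9462189) (nat_lit 744619) (nat_lit 38952006) (nat_lit 3933018) [(nat_lit 744619), (nat_lit 2521920), (nat_lit 6323433)]) (PF.cons (PF.leaf (nat_lit 9868823) (nat_lit 748136) (nat_lit 38300588) (nat_lit 3918798) [(nat_lit 748136), (nat_lit 2518007), (nat_lit 6286493)]) (PF.cons (PF.leaf (nat_lit 10275540) (nat_lit 750840) (nat_lit 37656497) (nat_lit 3902912) [(nat_lit 750840), (nat_lit 2512714), (nat_lit 6247592)])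 (PF.cons (PF.leaf (nat_lit 10681483) (nat_lit 752811) (nat_lit 37020871) (nat_lit 3885488) [(nat_lit 752811), (nat_lit 2506140), (nat_lit 6206918)]) (PF.cons PF.nil (PF.cons PF.nil PF.nil)))))))) (PF.cons (PF.cons (PF.leaf (nat_lit 9600657) (nat_lit 2507706) (nat_lit 38128889) (nat_lit 3905824) [(nat_lit 0), (nat_lit 2507706), (nat_lit 6267783)]) (PF.cons (PF.leaf (nat_lit 9998015) (nat_lit 743922) (nat_lit 37501383) (nat_lit 3890358) [(nat_lit 743922), (nat_lit 2502763), (nat_lit 6229665)]) (PF.cons (PF.leaf (nat_lit 10396012) (nat_lit 746382) (nat_lit 36880400) (nat_lit 3873372) [(nat_lit 746382), (nat_lit 2496550),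
 (nat_lit 6189762)]) (PF.cons (PF.leaf (nat_lit 10793579) (nat_lit 748123) (nat_lit 36267158) (nat_lit 3854985) [(nat_lit 748123), (nat_lit 2489159), (nat_lit 6148251)]) (PF.cons PF.nil (PF.cons PF.nil PF.nil)))))) (PF.cons (PF.cons (PF.leaf (nat_lit 10513068) (nat_lit 2479580) (nat_lit 36126646) (nat_lit 3842831) [(nat_lit 0), (nat_lit 2479580), (nat_lit 6130925)]) (PF.cons (PF.leaf (nat_lit 10902112) (nat_lit 743107) (nat_lit 35535494) (nat_lit 3823648) [(nat_lit 743107), (nat_lit 2471490), (nat_lit 6088810)]) (PF.cons (PF.leaf (nat_lit 11290475) (nat_lit 744030) (nat_lit 34952281) (nat_lit 3803295) [(nat_lit 744030), (nat_lit 2462398), (nat_lit 6045393)]) (PF.cons PF.nil PF.nil)))) (PF.cons (PF.cons (PF.leaf (nat_lit 11388167) (nat_lit 2443613) (nat_lit 34262696) (nat_lit 3770703) [(nat_lit 0), (nat_lit 2443613), (nat_lit 5985059)]) (PF.cons PF.nil PF.nil)) (PF.cons PF.nil (PF.cons PF.nil (PF.cons PF.nil PF.nil))))))))))) (PF.cons (PF.cons (PF.cons (PF.leaf (nat_lit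 6488739) (nat_lit 3936954) (nat_lit 43746537) (nat_lit 3936954) [(nat_lit 0), (nat_lit 0), (nat_lit 6475106)]) (PF.cons (PF.leaf (nat_lit 6865446) (nat_lit 689378) (nat_lit 43099011) (nat_lit 3940722) [(nat_lit
 689378), (nat_lit 0), (nat_lit 6459900)]) (PF.cons (PF.leaf (nat_lit 7253397) (nat_lit 701039) (nat_lit 42440413) (nat_lit 3941969) [(nat_lit 701039), (nat_lit 0), (nat_lit 6441450)]) (PF.cons (PF.leaf (nat_lit 7649691) (nat_lit 710978) (nat_lit 41775583) (nat_lit 3940715) [(nat_lit 710978), (nat_lit 0), (nat_lit 6419859)]) (PF.cons (PF.leaf (nat_lit 8052185) (nat_lit 719434) (nat_lit 41108245) (nat_lit 3937027) [(nat_lit 719434), (nat_lit 0), (nat_lit 6395267)]) (PF.cons (PF.leaf (nat_lit 8459119) (nat_lit 726588) (nat_lit 40441342) (nat_lit 3931006) [(nat_lit 726588), (nat_lit 0), (nat_lit 6367840)]) (PF.cons (PF.leaf (nat_lit 8869025) (nat_lit 732589) (nat_lit 39777232) (nat_lit 3922773) [(nat_lit 732589), (nat_lit 0), (nat_lit 6337755)]) (PF.cons (PF.leaf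 (nat_lit 9280651) (nat_lit 737559) (nat_lit 39117826) (nat_lit 3912458) [(nat_lit 737559), (nat_lit 0), (nat_lit 6305204)]) (PF.cons (PF.leaf (nat_lit 9692960) (nat_lit 741600) (nat_lit 38464679) (nat_lit 3900199) [(nat_lit 741600), (nat_lit 0), (nat_lit 6270377)]) (PF.cons (PF.leaf (nat_lit 10105004) (nat_lit 744801) (nat_lit 37819058) (nat_lit 3886136) [(nat_lit 744801), (nat_lit 0), (nat_lit 6233468)]) (PF.cons PF.nil
 (PF.cons PF.nil PF.nil)))))))))))) (PF.cons (PF.cons (PF.leaf (nat_lit 7441499) (nat_lit 2483388) (nat_lit 41501844) (nat_lit 3926840) [(nat_lit 0), (nat_lit 2483388), (nat_lit 6398913)]) (PF.cons (PF.leaf (nat_lit 7826722) (nat_lit 709206) (nat_lit 40863517) (nat_lit 3923185) [(nat_lit 709206), (nat_lit 2488476), (nat_lit 6374809)]) (PF.cons (PF.leaf (nat_lit 8219067) (nat_lit 717307) (nat_lit 40221427) (nat_lit 3917314) [(nat_lit 717307), (nat_lit 2491674), (nat_lit 6347926)]) (PF.cons (PF.leaf (nat_lit 8616395) (nat_lit 724095) (nat_lit 39578840)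 (nat_lit 3909318) [(nat_lit 724095), (nat_lit 2493067), (nat_lit 6318433)]) (PF.cons (PF.leaf (nat_lit 9017104) (nat_lit 729732) (nat_lit 38938307) (nat_lit 3899304) [(nat_lit 729732), (nat_lit 2492751), (nat_lit 6286506)]) (PF.cons (PF.leaf (nat_lit 9419882) (nat_lit 734349) (nat_lit 38301851) (nat_lit 3887392) [(nat_lit 734349), (nat_lit 2490832), (nat_lit 6252329)]) (PF.cons (PF.leaf (nat_lit 9823608) (nat_lit 738055) (nat_lit 37671091) (nat_lit 3873710) [(nat_lit 738055), (nat_lit 2487417), (nat_lit 6216086)]) (PF.cons (PF.leaf (nat_lit 10227352) (nat_lit 740943) (nat_lit 37047331) (nat_lit 3858386) [(nat_lit 740943), (nat_lit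
 2482611), (nat_lit 6177958)]) (PF.cons (PF.leaf (nat_lit 10630301) (nat_lit 743094) (nat_lit 36431619) (nat_lit 3841548) [(nat_lit 743094), (nat_lit 2476520), (nat_lit 6138124)]) (PF.cons PF.nil PF.nil)))))))))) (PF.cons (PF.cons (PF.leaf (nat_lit 8382679) (nat_lit 2481686) (nat_lit 39356490) (nat_lit 3895353) [(nat_lit 0), (nat_lit 2481686), (nat_lit 6297865)]) (PF.cons (PF.leaf (nat_lit 8769836) (nat_lit 720920) (nat_lit 38738760) (nat_lit 3885660) [(nat_lit 720920), (nat_lit 2481681), (nat_lit 6266702)]) (PF.cons (PF.leaf (nat_lit 9161132) (nat_lit 726284) (nat_lit 38122046) (nat_lit 3874119) [(nat_lit 726284), (nat_lit 2480105), (nat_lit 6233288)]) (PF.cons (PF.leaf (nat_lit 9554948) (nat_lit 730626) (nat_lit 37508568) (nat_lit 3860841) [(nat_lit 730626), (nat_lit 2477053), (nat_lit 6197805)]) (PF.cons (PF.leaf (nat_lit 9950088) (nat_lit 734065) (nat_lit 36900068) (nat_lit 3845944) [(nat_lit 734065), (nat_lit 2472622), (nat_lit 6160431)]) (PF.cons (PF.leaf (nat_lit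 10345551) (nat_lit 736698) (nat_lit 36297925) (nat_lit 3829547) [(nat_lit 736698), (nat_lit 2466911), (nat_lit 6121342)]) (PF.cons (PF.leaf (nat_lit 10740515) (nat_lit 738608) (nat_lit 35703233) (nat_lit 3811771)
 [(nat_lit 738608), (nat_lit 2460015), (nat_lit 6080707)]) (PF.cons PF.nil PF.nil)))))))) (PF.cons (PF.cons (PF.leaf (nat_lit 9302039) (nat_lit 2466287) (nat_lit 37327447) (nat_lit 3847418) [(nat_lit 0), (nat_lit 2466287), (nat_lit 6178361)]) (PF.cons (PF.leaf (nat_lit 9686529) (nat_lit 726417) (nat_lit 36737043) (nat_lit 3832987) [(nat_lit 726417), (nat_lit 2462251), (nat_lit 6141869)]) (PF.cons (PF.leaf (nat_lit 10072990) (nat_lit 729655) (nat_lit 36150716) (nat_lit 3817067) [(nat_lit 729655), (nat_lit 2456940), (nat_lit 6103632)]) (PF.cons (PF.leaf (nat_lit 10460178) (nat_lit 732090) (nat_lit 35569972) (nat_lit 3799771) [(nat_lit 732090), (nat_lit 2450445), (nat_lit 6063820)]) (PF.cons (PF.leaf (nat_lit 10847194) (nat_lit 733812) (nat_lit 34995990) (nat_lit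 3781212) [(nat_lit 733812), (nat_lit 2442855), (nat_lit 6022598)]) (PF.cons PF.nil PF.nil)))))) (PF.cons (PF.cons (PF.leaf (nat_lit 10193106) (nat_lit 2440473) (nat_lit 35422070) (nat_lit 3787224) [(nat_lit 0), (nat_lit 2440473), (nat_lit 6045874)]) (PF.cons (PF.leaf (nat_lit 10571763) (nat_lit 727142) (nat_lit 34862563) (nat_lit 3769190) [(nat_lit 727142), (nat_lit 2433307), (nat_lit 6005561)]) (PF.cons (PF.leaf (nat_lit
 10950823) (nat_lit 728724) (nat_lit 34309016) (nat_lit 3749992) [(nat_lit 728724), (nat_lit 2425127), (nat_lit 5963949)]) (PF.cons (PF.leaf (nat_lit 11329319) (nat_lit 729671) (nat_lit 33762441) (nat_lit 3729734) [(nat_lit 729671), (nat_lit 2416013), (nat_lit 5921189)]) PF.nil)))) (PF.cons (PF.cons (PF.leaf (nat_lit 11052091) (nat_lit 2406904) (nat_lit 33641405) (nat_lit 3718213) [(nat_lit 0), (nat_lit 2406904), (nat_lit 5904890)]) (PF.cons (PF.leaf (nat_lit 11422810) (nat_lit 724215) (nat_lit 33114245) (nat_lit 3697531) [(nat_lit 724215), (nat_lit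 2397358), (nat_lit 5862009)]) PF.nil)) (PF.cons PF.nil (PF.cons PF.nil (PF.cons PF.nil (PF.cons PF.nil PF.nil)))))))))) (PF.cons (PF.cons (PF.cons (PF.leaf (nat_lit 8130208) (nat_lit 3834120) (nat_lit 38455557) (nat_lit 3834120) [(nat_lit 0), (nat_lit 0), (nat_lit 6204783)]) (PF.cons (PF.leaf (nat_lit 8500071) (nat_lit 700094) (nat_lit 37882574) (nat_lit 3825442) [(nat_lit 700094), (nat_lit 0), (nat_lit 6175175)]) (PF.cons (PF.leaf (nat_lit 8876096) (nat_lit 706710) (nat_lit 37307005) (nat_lit 3814958) [(nat_lit 706710), (nat_lit 0), (nat_lit 6143357)]) (PF.cons (PF.leaf (nat_lit 9256284) (nat_lit 712115) (nat_lit 36731657) (nat_lit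
 3802769) [(nat_lit 712115), (nat_lit 0), (nat_lit 6109509)]) (PF.cons (PF.leaf (nat_lit 9639212) (nat_lit 716475) (nat_lit 36158695) (nat_lit 3788985) [(nat_lit 716475), (nat_lit 0), (nat_lit 6073807)]) (PF.cons (PF.leaf (nat_lit 10023669) (nat_lit 719918) (nat_lit 35589814) (nat_lit 3773720) [(nat_lit 719918), (nat_lit 0), (nat_lit 6036420)]) (PF.cons (PF.leaf (nat_lit 10408700) (nat_lit 722553) (nat_lit 35026358) (nat_lit 3757087) [(nat_lit 722553), (nat_lit 0), (nat_lit 5997511)]) (PF.cons (PF.leaf (nat_lit 10793461) (nat_lit 724467) (nat_lit 34469394) (nat_lit 3739198) [(nat_lit 724467), (nat_lit 0), (nat_lit 5957236)]) (PF.cons PF.nil (PF.cons PF.nil PF.nil)))))))))) (PF.cons (PF.cons (PF.leaf (nat_lit 9020331) (nat_lit 2424214) (nat_lit 36539091) (nat_lit 3788811) [(nat_lit 0), (nat_lit 2424214), (nat_lit 6089173)]) (PF.cons (PF.leaf (nat_lit 9390934) (nat_lit 707880) (nat_lit 35986206) (nat_lit 3775549) [(nat_lit 707880), (nat_lit 2421240), (nat_lit 6054483)])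 (PF.cons (PF.leaf (nat_lit 9765058) (nat_lit 712093) (nat_lit 35434652) (nat_lit 3760809) [(nat_lit 712093), (nat_lit 2416962), (nat_lit 6018050)]) (PF.cons (PF.leaf (nat_lit 10141222) (nat_lit 715378) (nat_lit
 34886319) (nat_lit 3744699) [(nat_lit 715378), (nat_lit 2411473), (nat_lit 5980046)]) (PF.cons (PF.leaf (nat_lit 10518343) (nat_lit 717853) (nat_lit 34342672) (nat_lit 3727328) [(nat_lit 717853), (nat_lit 2404864), (nat_lit 5940633)]) (PF.cons (PF.leaf (nat_lit 10895534) (nat_lit 719612) (nat_lit 33804864) (nat_lit 3708800) [(nat_lit 719612), (nat_lit 2397225), (nat_lit 5899965)]) (PF.cons PF.nil (PF.cons PF.nil PF.nil)))))))) (PF.cons (PF.cons (PF.leaf (nat_lit 9888808) (nat_lit 2401030) (nat_lit 34729631) (nat_lit 3731686) [(nat_lit 0), (nat_lit 2401030), (nat_lit 5961358)]) (PF.cons (PF.leaf (nat_lit 10256291) (nat_lit 710473) (nat_lit 34201844) (nat_lit 3714888) [(nat_lit 710473), (nat_lit 2394893), (nat_lit 5922955)]) (PF.cons (PF.leaf (nat_lit 10625408)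 (nat_lit 712843) (nat_lit 33677864) (nat_lit 3696919) [(nat_lit 712843), (nat_lit 2387710), (nat_lit 5883230)]) (PF.cons (PF.leaf (nat_lit 10995008) (nat_lit 714494) (nat_lit 33158965) (nat_lit 3677878) [(nat_lit 714494), (nat_lit 2379566), (nat_lit 5842338)]) (PF.cons (PF.leaf (nat_lit 11364288) (nat_lit 715509) (nat_lit 32646138) (nat_lit 3657864) [(nat_lit 715509), (nat_lit 2370542), (nat_lit 5800421)]) (PF.cons PF.nil
 PF.nil)))))) (PF.cons (PF.cons (PF.leaf (nat_lit 10730600) (nat_lit 2370061) (nat_lit 33031024) (nat_lit 3665952) [(nat_lit 0), (nat_lit 2370061), (nat_lit 5825413)]) (PF.cons (PF.leaf (nat_lit 11092336) (nat_lit 709124) (nat_lit 32530850) (nat_lit 3646516) [(nat_lit 709124), (nat_lit 2361497), (nat_lit 5784457)]) (PF.cons (PF.leaf (nat_lit 11454338) (nat_lit 710074) (nat_lit 32035989) (nat_lit 3626175) [(nat_lit 710074), (nat_lit 2352108), (nat_lit 5742543)]) (PF.cons PF.nil PF.nil)))) (PF.cons (PF.cons (PF.leaf (nat_lit 11542818) (nat_lit 2333388)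 (nat_lit 31442535) (nat_lit 3594214) [(nat_lit 0), (nat_lit 2333388), (nat_lit 5684626)]) (PF.cons PF.nil PF.nil)) (PF.cons PF.nil (PF.cons PF.nil (PF.cons PF.nil PF.nil)))))))) (PF.cons (PF.cons (PF.cons (PF.leaf (nat_lit 9601231) (nat_lit 3676056) (nat_lit 34046853) (nat_lit 3676056) [(nat_lit 0), (nat_lit 0), (nat_lit 5877180)]) (PF.cons (PF.leaf (nat_lit 9956463) (nat_lit 692846) (nat_lit 33551266) (nat_lit 3660602) [(nat_lit 692846), (nat_lit 0), (nat_lit 5840819)]) (PF.cons (PF.leaf (nat_lit 10314782) (nat_lit 696189) (nat_lit 33057058) (nat_lit 3643948) [(nat_lit 696189), (nat_lit 0), (nat_lit 5803085)]) (PF.cons (PF.leaf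
 (nat_lit 10674801) (nat_lit 698686) (nat_lit 32565856) (nat_lit 3626197) [(nat_lit 698686), (nat_lit 0), (nat_lit 5764140)]) (PF.cons (PF.leaf (nat_lit 11035530) (nat_lit 700449) (nat_lit 32078915) (nat_lit 3607447) [(nat_lit 700449), (nat_lit 0), (nat_lit 5724130)]) (PF.cons (PF.leaf (nat_lit 11396174) (nat_lit 701571) (nat_lit 31597211) (nat_lit 3587793) [(nat_lit 701571), (nat_lit 0), (nat_lit 5683190)]) PF.nil)))))) (PF.cons (PF.cons (PF.leaf (nat_lit 10424374) (nat_lit 2332938) (nat_lit 32429748) (nat_lit 3613791) [(nat_lit 0), (nat_lit 2332938), (nat_lit 5746466)]) (PF.cons (PF.leaf (nat_lit 10776307) (nat_lit 693373) (nat_lit 31956729) (nat_lit 3595671) [(nat_lit 693373), (nat_lit 2325443), (nat_lit 5707518)]) (PF.cons (PF.leaf (nat_lit 11129638) (nat_lit 695102) (nat_lit 31487139) (nat_lit 3576613) [(nat_lit 695102), (nat_lit 2317080), (nat_lit 5667554)]) (PF.cons (PF.leaf (nat_lit 11483296) (nat_lit 696179) (nat_lit 31022075) (nat_lit 3556708) [(nat_lit 696179),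 (nat_lit 2307924), (nat_lit 5626713)]) PF.nil)))) (PF.cons (PF.cons (PF.leaf (nat_lit 11222587) (nat_lit 2298947) (nat_lit 30910880) (nat_lit 3545491) [(nat_lit 0), (nat_lit 2298947), (nat_lit 5610909)]) (PF.cons
 (PF.leaf (nat_lit 11568975) (nat_lit 690599) (nat_lit 30462282) (nat_lit 3525423) [(nat_lit 690599), (nat_lit 2289546), (nat_lit 5570283)]) PF.nil)) (PF.cons PF.nil (PF.cons PF.nil (PF.cons PF.nil PF.nil)))))) (PF.cons (PF.cons (PF.cons (PF.leaf (nat_lit 10917046) (nat_lit 3496857) (nat_lit 30385985) (nat_lit 3496857) [(nat_lit 0), (nat_lit 0), (nat_lit 5537661)]) (PF.cons (PF.leaf (nat_lit 11254740) (nat_lit 675783) (nat_lit 29960706) (nat_lit 3478113) [(nat_lit 675783), (nat_lit 0), (nat_lit 5499035)]) (PF.cons (PF.leaf (nat_lit 11593683) (nat_lit 677033) (nat_lit 29538454) (nat_lit 3458605) [(nat_lit 677033), (nat_lit 0), (nat_lit 5459614)]) (PF.cons PF.nil PF.nil)))) (PF.cons (PF.cons (PF.leaf (nat_lit 11676492) (nat_lit 2228680) (nat_lit 29023070) (nat_lit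 3427933) [(nat_lit 0), (nat_lit 2228680), (nat_lit 5404854)]) (PF.cons PF.nil PF.nil)) (PF.cons PF.nil (PF.cons PF.nil PF.nil)))) (PF.cons (PF.cons (PF.cons (PF.leaf (nat_lit 12098196) (nat_lit 3314486) (nat_lit 27334871) (nat_lit 3314486) [(nat_lit 0), (nat_lit 0), (nat_lit 5208493)]) (PF.cons PF.nil PF.nil)) (PF.cons PF.nil PF.nil)) (PF.cons PF.nil (PF.cons PF.nil (PF.cons PF.nil (PF.cons PF.nil PF.nil))))))))))))

def p13_20_0_0 : pfC (piC [(nat_lit 35404596), (nat_lit 22827826), (nat_lit 14696761)] (nat_lit 18838749)) p13_20_0 (nat_lit 3) (nat_lit 0) (nat_lit 1) = true := by decide +kernel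
def p13_20_0_1 : pfC (piC [(nat_lit 35404596), (nat_lit 22827826), (nat_lit 14696761)] (nat_lit 18838749)) p13_20_0 (nat_lit 3) (nat_lit 1) (nat_lit 2) = true := by decide +kernel
def p13_20_0_2 : pfC (piC [(nat_lit 35404596), (nat_lit 22827826), (nat_lit 14696761)] (nat_lit 18838749)) p13_20_0 (nat_lit 3) (nat_lit 2) (nat_lit 3) = true := by decide +kernel
def p13_20_0_3 : pfC (piC [(nat_lit 35404596), (nat_lit 22827826), (nat_lit 14696761)] (nat_lit 18838749)) p13_20_0 (nat_lit 3) (nat_lit 3) (nat_lit 4) = true := by decide +kernel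
def p13_20_0_4 : pfC (piC [(nat_lit 35404596), (nat_lit 22827826), (nat_lit 14696761)] (nat_lit 18838749)) p13_20_0 (nat_lit 3) (nat_lit 4) (nat_lit 5) = true := by decide +kernel
def p13_20_0_5 : pfC (piC [(nat_lit 35404596), (nat_lit 22827826), (nat_lit 14696761)] (nat_lit 18838749)) p13_20_0 (nat_lit 3) (nat_lit 5) (nat_lit 6) = true := by decide +kernel
def p13_20_0_6 : pfC (piC [(nat_lit 35404596), (nat_lit 22827826), (nat_lit 14696761)] (nat_lit 18838749)) p13_20_0 (nat_lit 3) (nat_lit 6) (nat_lit 7) = true := by decide +kernel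
def p13_20_0_7 : pfC (piC [(nat_lit 35404596), (nat_lit 22827826), (nat_lit 14696761)] (nat_lit 18838749)) p13_20_0 (nat_lit 3) (nat_lit 7) (nat_lit 8) = true := by decide +kernel
def p13_20_0_8 : pfC (piC [(nat_lit 35404596), (nat_lit 22827826), (nat_lit 14696761)] (nat_lit 18838749)) p13_20_0 (nat_lit 3) (nat_lit 8) (nat_lit 9) = true := by decide +kernel
def p13_20_0_9 : pfC (piC [(nat_lit 35404596), (nat_lit 22827826), (nat_lit 14696761)] (nat_lit 18838749)) p13_20_0 (nat_lit 3) (nat_lit 9) (nat_lit 10) = true := by decide +kernel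
def p13_20_0_10 : pfC (piC [(nat_lit 35404596), (nat_lit 22827826), (nat_lit 14696761)] (nat_lit 18838749)) p13_20_0 (nat_lit 3) (nat_lit 10) (nat_lit 11) = true := by decide +kernel
def p13_20_0_11 : pfC (piC [(nat_lit 35404596), (nat_lit 22827826), (nat_lit 14696761)] (nat_lit 18838749)) p13_20_0 (nat_lit 3) (nat_lit 11) (nat_lit 12) = true := by decide +kernel
def p13_20_0_12 : pfC (piC [(nat_lit 35404596), (nat_lit 22827826), (nat_lit 14696761)] (nat_lit 18838749)) p13_20_0 (nat_lit 3) (nat_lit 12) (nat_lit 13) = true := by decide +kernel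
def p13_20_0_13 : pfC (piC [(nat_lit 35404596), (nat_lit 22827826), (nat_lit 14696761)] (nat_lit 18838749)) p13_20_0 (nat_lit 3) (nat_lit 13) (nat_lit 14) = true := by decide +kernel
def p13_20_0_14 : pfC (piC [(nat_lit 35404596), (nat_lit 22827826), (nat_lit 14696761)] (nat_lit 18838749)) p13_20_0 (nat_lit 3) (nat_lit 14) (nat_lit 15) = true := by decide +kernel
def p13_20_0_15 : pfC (piC [(nat_lit 35404596), (nat_lit 22827826), (nat_lit 14696761)] (nat_lit 18838749)) p13_20_0 (nat_lit 3) (nat_lit 15) (nat_lit 16) = true := by decide +kernel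
def p13_20_0_16 : pfC (piC [(nat_lit 35404596), (nat_lit 22827826), (nat_lit 14696761)] (nat_lit 18838749)) p13_20_0 (nat_lit 3) (nat_lit 16) (nat_lit 17) = true := by decide +kernel
def p13_20_0_17 : pfC (piC [(nat_lit 35404596), (nat_lit 22827826), (nat_lit 14696761)] (nat_lit 18838749)) p13_20_0 (nat_lit 3) (nat_lit 17) (nat_lit 18) = true := by decide +kernel
def p13_20_0_18 : pfC (piC [(nat_lit 35404596), (nat_lit 22827826), (nat_lit 14696761)] (nat_lit 18838749)) p13_20_0 (nat_lit 3) (nat_lit 18) (nat_lit 19) = true := by decide +kernel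
def p13_20_0_19 : pfC (piC [(nat_lit 35404596), (nat_lit 22827826), (nat_lit 14696761)] (nat_lit 18838749)) p13_20_0 (nat_lit 3) (nat_lit 19) (nat_lit 20) = true := by decide +kernel
def p13_20_0_20 : pfC (piC [(nat_lit 35404596), (nat_lit 22827826), (nat_lit 14696761)] (nat_lit 18838749)) p13_20_0 (nat_lit 3) (nat_lit 20) (nat_lit 21) = true := by decide +kernel
def p13_20_0_21 : pfC (piC [(nat_lit 35404596), (nat_lit 22827826), (nat_lit 14696761)] (nat_lit 18838749)) p13_20_0 (nat_lit 3) (nat_lit 21) (nat_lit 22) = true := by decide +kernel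
def p13_20_0_22 : pfC (piC [(nat_lit 35404596), (nat_lit 22827826), (nat_lit 14696761)] (nat_lit 18838749)) p13_20_0 (nat_lit 3) (nat_lit 22) (nat_lit 23) = true := by decide +kernel
def p13_20_0_23 : pfC (piC [(nat_lit 35404596), (nat_lit 22827826), (nat_lit 14696761)] (nat_lit 18838749)) p13_20_0 (nat_lit 3) (nat_lit 23) (nat_lit 24) = true := by decide +kernel
def p13_20_0_24 : pfC (piC [(nat_lit 35404596), (nat_lit 22827826), (nat_lit 14696761)] (nat_lit 18838749)) p13_20_0 (nat_lit 3) (nat_lit 24) (nat_lit 25) = true := by decide +kernel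
def p13_20_0_25 : pfC (piC [(nat_lit 35404596), (nat_lit 22827826), (nat_lit 14696761)] (nat_lit 18838749)) p13_20_0 (nat_lit 3) (nat_lit 25) (nat_lit 26) = true := by decide +kernel
def p13_20_0_26 : pfC (piC [(nat_lit 35404596), (nat_lit 22827826), (nat_lit 14696761)] (nat_lit 18838749)) p13_20_0 (nat_lit 3) (nat_lit 26) (nat_lit 27) = true := by decide +kernel
def p13_20_0_27 : pfC (piC [(nat_lit 35404596), (nat_lit 22827826), (nat_lit 14696761)] (nat_lit 18838749)) p13_20_0 (nat_lit 3) (nat_lit 27) (nat_lit 28) = true := by decide +kernel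
def p13_20_0_28 : pfC (piC [(nat_lit 35404596), (nat_lit 22827826), (nat_lit 14696761)] (nat_lit 18838749)) p13_20_0 (nat_lit 3) (nat_lit 28) (nat_lit 29) = true := by decide +kernel
def p13_20_0_29 : pfC (piC [(nat_lit 35404596), (nat_lit 22827826), (nat_lit 14696761)] (nat_lit 18838749)) p13_20_0 (nat_lit 3) (nat_lit 29) (nat_lit 30) = true := by decide +kernel
def p13_20_0_30 : pfC (piC [(nat_lit 35404596), (nat_lit 22827826), (nat_lit 14696761)] (nat_lit 18838749)) p13_20_0 (nat_lit 3) (nat_lit 30) (nat_lit 31) = true := by decide +kernel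
def p13_20_0_31 : pfC (piC [(nat_lit 35404596), (nat_lit 22827826), (nat_lit 14696761)] (nat_lit 18838749)) p13_20_0 (nat_lit 3) (nat_lit 31) (nat_lit 32) = true := by decide +kernel
def p13_20_0_32 : pfC (piC [(nat_lit 35404596), (nat_lit 22827826), (nat_lit 14696761)] (nat_lit 18838749)) p13_20_0 (nat_lit 3) (nat_lit 32) (nat_lit 33) = true := by decide +kernel
def p13_20_0_33 : pfC (piC [(nat_lit 35404596), (nat_lit 22827826), (nat_lit 14696761)] (nat_lit 18838749)) p13_20_0 (nat_lit 3) (nat_lit 33) (nat_lit 34) = true := by decide +kernel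
def p13_20_0_34 : pfC (piC [(nat_lit 35404596), (nat_lit 22827826), (nat_lit 14696761)] (nat_lit 18838749)) p13_20_0 (nat_lit 3) (nat_lit 34) (nat_lit 35) = true := by decide +kernel
def p13_20_0_35 : pfC (piC [(nat_lit 35404596), (nat_lit 22827826), (nat_lit 14696761)] (nat_lit 18838749)) p13_20_0 (nat_lit 3) (nat_lit 35) (nat_lit 36) = true := by decide +kernel
def p13_20_0_36 : pfC (piC [(nat_lit 35404596), (nat_lit 22827826), (nat_lit 14696761)] (nat_lit 18838749)) p13_20_0 (nat_lit 3) (nat_lit 36) (nat_lit 37) = true := by decide +kernel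
def p13_20_0_37 : pfC (piC [(nat_lit 35404596), (nat_lit 22827826), (nat_lit 14696761)] (nat_lit 18838749)) p13_20_0 (nat_lit 3) (nat_lit 37) (nat_lit 38) = true := by decide +kernel
def p13_20_0_38 : pfC (piC [(nat_lit 35404596), (nat_lit 22827826), (nat_lit 14696761)] (nat_lit 18838749)) p13_20_0 (nat_lit 3) (nat_lit 38) (nat_lit 39) = true := by decide +kernel
def p13_20_0_39 : pfC (piC [(nat_lit 35404596), (nat_lit 22827826), (nat_lit 14696761)] (nat_lit 18838749)) p13_20_0 (nat_lit 3) (nat_lit 39) (nat_lit 40) = true := by decide +kernel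
def p13_20_0_40 : pfC (piC [(nat_lit 35404596), (nat_lit 22827826), (nat_lit 14696761)] (nat_lit 18838749)) p13_20_0 (nat_lit 3) (nat_lit 40) (nat_lit 41) = true := by decide +kernel
def p13_20_0_41 : pfC (piC [(nat_lit 35404596), (nat_lit 22827826), (nat_lit 14696761)] (nat_lit 18838749)) p13_20_0 (nat_lit 3) (nat_lit 41) (nat_lit 42) = true := by decide +kernel
def p13_20_0_42 : pfC (piC [(nat_lit 35404596), (nat_lit 22827826), (nat_lit 14696761)] (nat_lit 18838749)) p13_20_0 (nat_lit 3) (nat_lit 42) (nat_lit 43) = true := by decide +kernel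
def p13_20_0_43 : pfC (piC [(nat_lit 35404596), (nat_lit 22827826), (nat_lit 14696761)] (nat_lit 18838749)) p13_20_0 (nat_lit 3) (nat_lit 43) (nat_lit 44) = true := by decide +kernel
def p13_20_0_44 : pfC (piC [(nat_lit 35404596), (nat_lit 22827826), (nat_lit 14696761)] (nat_lit 18838749)) p13_20_0 (nat_lit 3) (nat_lit 44) (nat_lit 45) = true := by decide +kernel
def p13_20_0_45 : pfC (piC [(nat_lit 35404596), (nat_lit 22827826), (nat_lit 14696761)] (nat_lit 18838749)) p13_20_0 (nat_lit 3) (nat_lit 45) (nat_lit 46) = true := by decide +kernel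
def p13_20_0_46 : pfC (piC [(nat_lit 35404596), (nat_lit 22827826), (nat_lit 14696761)] (nat_lit 18838749)) p13_20_0 (nat_lit 3) (nat_lit 46) (nat_lit 47) = true := by decide +kernel
def p13_20_0_47 : pfC (piC [(nat_lit 35404596), (nat_lit 22827826), (nat_lit 14696761)] (nat_lit 18838749)) p13_20_0 (nat_lit 3) (nat_lit 47) (nat_lit 48) = true := by decide +kernel
def p13_20_0_48 : pfC (piC [(nat_lit 35404596), (nat_lit 22827826), (nat_lit 14696761)] (nat_lit 18838749)) p13_20_0 (nat_lit 3) (nat_lit 48) (nat_lit 49) = true := by decide +kernel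
def p13_20_0_49 : pfC (piC [(nat_lit 35404596), (nat_lit 22827826), (nat_lit 14696761)] (nat_lit 18838749)) p13_20_0 (nat_lit 3) (nat_lit 49) (nat_lit 50) = true := by decide +kernel
def p13_20_0_50 : pfC (piC [(nat_lit 35404596), (nat_lit 22827826), (nat_lit 14696761)] (nat_lit 18838749)) p13_20_0 (nat_lit 3) (nat_lit 50) (nat_lit 51) = true := by decide +kernel
def p13_20_0_51 : pfC (piC [(nat_lit 35404596), (nat_lit 22827826), (nat_lit 14696761)] (nat_lit 18838749)) p13_20_0 (nat_lit 3) (nat_lit 51) (nat_lit 52) = true := by decide +kernel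
def p13_20_0_52 : pfC (piC [(nat_lit 35404596), (nat_lit 22827826), (nat_lit 14696761)] (nat_lit 18838749)) p13_20_0 (nat_lit 3) (nat_lit 52) (nat_lit 53) = true := by decide +kernel
def p13_20_0_53 : pfC (piC [(nat_lit 35404596), (nat_lit 22827826), (nat_lit 14696761)] (nat_lit 18838749)) p13_20_0 (nat_lit 3) (nat_lit 53) (nat_lit 54) = true := by decide +kernel
def p13_20_0_54 : pfC (piC [(nat_lit 35404596), (nat_lit 22827826), (nat_lit 14696761)] (nat_lit 18838749)) p13_20_0 (nat_lit 3) (nat_lit 54) (nat_lit 55) = true := by decide +kernel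
def p13_20_0_55 : pfC (piC [(nat_lit 35404596), (nat_lit 22827826), (nat_lit 14696761)] (nat_lit 18838749)) p13_20_0 (nat_lit 3) (nat_lit 55) (nat_lit 56) = true := by decide +kernel
def p13_20_0_56 : pfC (piC [(nat_lit 35404596), (nat_lit 22827826), (nat_lit 14696761)] (nat_lit 18838749)) p13_20_0 (nat_lit 3) (nat_lit 56) (nat_lit 57) = true := by decide +kernel
def p13_20_0_57 : pfC (piC [(nat_lit 35404596), (nat_lit 22827826), (nat_lit 14696761)] (nat_lit 18838749)) p13_20_0 (nat_lit 3) (nat_lit 57) (nat_lit 58) = true := by decide +kernel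
def p13_20_0_58 : pfC (piC [(nat_lit 35404596), (nat_lit 22827826), (nat_lit 14696761)] (nat_lit 18838749)) p13_20_0 (nat_lit 3) (nat_lit 58) (nat_lit 59) = true := by decide +kernel
def p13_20_0_59 : pfC (piC [(nat_lit 35404596), (nat_lit 22827826), (nat_lit 14696761)] (nat_lit 18838749)) p13_20_0 (nat_lit 3) (nat_lit 59) (nat_lit 60) = true := by decide +kernel
def p13_20_0_60 : pfC (piC [(nat_lit 35404596), (nat_lit 22827826), (nat_lit 14696761)] (nat_lit 18838749)) p13_20_0 (nat_lit 3) (nat_lit 60) (nat_lit 61) = true := by decide +kernel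
def p13_20_0_61 : pfC (piC [(nat_lit 35404596), (nat_lit 22827826), (nat_lit 14696761)] (nat_lit 18838749)) p13_20_0 (nat_lit 3) (nat_lit 61) (nat_lit 62) = true := by decide +kernel
def p13_20_0_62 : pfC (piC [(nat_lit 35404596), (nat_lit 22827826), (nat_lit 14696761)] (nat_lit 18838749)) p13_20_0 (nat_lit 3) (nat_lit 62) (nat_lit 63) = true := by decide +kernel
def p13_20_0_63 : pfC (piC [(nat_lit 35404596), (nat_lit 22827826), (nat_lit 14696761)] (nat_lit 18838749)) p13_20_0 (nat_lit 3) (nat_lit 63) (nat_lit 64) = true := by decide +kernel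
def p13_20_0_64 : pfC (piC [(nat_lit 35404596), (nat_lit 22827826), (nat_lit 14696761)] (nat_lit 18838749)) p13_20_0 (nat_lit 3) (nat_lit 64) (nat_lit 65) = true := by decide +kernel
def p13_20_0_65 : pfC (piC [(nat_lit 35404596), (nat_lit 22827826), (nat_lit 14696761)] (nat_lit 18838749)) p13_20_0 (nat_lit 3) (nat_lit 65) (nat_lit 66) = true := by decide +kernel
def p13_20_0_66 : pfC (piC [(nat_lit 35404596), (nat_lit 22827826), (nat_lit 14696761)] (nat_lit 18838749)) p13_20_0 (nat_lit 3) (nat_lit 66) (nat_lit 67) = true := by decide +kernel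
def p13_20_0_67 : pfC (piC [(nat_lit 35404596), (nat_lit 22827826), (nat_lit 14696761)] (nat_lit 18838749)) p13_20_0 (nat_lit 3) (nat_lit 67) (nat_lit 68) = true := by decide +kernel
def p13_20_0_68 : pfC (piC [(nat_lit 35404596), (nat_lit 22827826), (nat_lit 14696761)] (nat_lit 18838749)) p13_20_0 (nat_lit 3) (nat_lit 68) (nat_lit 69) = true := by decide +kernel
def p13_20_0_69 : pfC (piC [(nat_lit 35404596), (nat_lit 22827826), (nat_lit 14696761)] (nat_lit 18838749)) p13_20_0 (nat_lit 3) (nat_lit 69) (nat_lit 70) = true := by decide +kernel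
def p13_20_0_70 : pfC (piC [(nat_lit 35404596), (nat_lit 22827826), (nat_lit 14696761)] (nat_lit 18838749)) p13_20_0 (nat_lit 3) (nat_lit 70) (nat_lit 71) = true := by decide +kernel
def p13_20_0_71 : pfC (piC [(nat_lit 35404596), (nat_lit 22827826), (nat_lit 14696761)] (nat_lit 18838749)) p13_20_0 (nat_lit 3) (nat_lit 71) (nat_lit 72) = true := by decide +kernel
def p13_20_0_72 : pfC (piC [(nat_lit 35404596), (nat_lit 22827826), (nat_lit 14696761)] (nat_lit 18838749)) p13_20_0 (nat_lit 3) (nat_lit 72) (nat_lit 73) = true := by decide +kernel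
def p13_20_0_73 : pfC (piC [(nat_lit 35404596), (nat_lit 22827826), (nat_lit 14696761)] (nat_lit 18838749)) p13_20_0 (nat_lit 3) (nat_lit 73) (nat_lit 74) = true := by decide +kernel
def p13_20_0_74 : pfC (piC [(nat_lit 35404596), (nat_lit 22827826), (nat_lit 14696761)] (nat_lit 18838749)) p13_20_0 (nat_lit 3) (nat_lit 74) (nat_lit 75) = true := by decide +kernel
def p13_20_0_75 : pfC (piC [(nat_lit 35404596), (nat_lit 22827826), (nat_lit 14696761)] (nat_lit 18838749)) p13_20_0 (nat_lit 3) (nat_lit 75) (nat_lit 76) = true := by decide +kernel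
def p13_20_0_76 : pfC (piC [(nat_lit 35404596), (nat_lit 22827826), (nat_lit 14696761)] (nat_lit 18838749)) p13_20_0 (nat_lit 3) (nat_lit 76) (nat_lit 77) = true := by decide +kernel
def p13_20_0_77 : pfC (piC [(nat_lit 35404596), (nat_lit 22827826), (nat_lit 14696761)] (nat_lit 18838749)) p13_20_0 (nat_lit 3) (nat_lit 77) (nat_lit 78) = true := by decide +kernel
def p13_20_0_78 : pfC (piC [(nat_lit 35404596), (nat_lit 22827826), (nat_lit 14696761)] (nat_lit 18838749)) p13_20_0 (nat_lit 3) (nat_lit 78) (nat_lit 79) = true := by decide +kernel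
def p13_20_0_79 : pfC (piC [(nat_lit 35404596), (nat_lit 22827826), (nat_lit 14696761)] (nat_lit 18838749)) p13_20_0 (nat_lit 3) (nat_lit 79) (nat_lit 80) = true := by decide +kernel
def p13_20_0_80 : pfC (piC [(nat_lit 35404596), (nat_lit 22827826), (nat_lit 14696761)] (nat_lit 18838749)) p13_20_0 (nat_lit 3) (nat_lit 80) (nat_lit 81) = true := by decide +kernel
def p13_20_0_81 : pfC (piC [(nat_lit 35404596), (nat_lit 22827826), (nat_lit 14696761)] (nat_lit 18838749)) p13_20_0 (nat_lit 3) (nat_lit 81) (nat_lit 82) = true := by decide +kernel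
def p13_20_0_82 : pfC (piC [(nat_lit 35404596), (nat_lit 22827826), (nat_lit 14696761)] (nat_lit 18838749)) p13_20_0 (nat_lit 3) (nat_lit 82) (nat_lit 83) = true := by decide +kernel
def p13_20_0_83 : pfC (piC [(nat_lit 35404596), (nat_lit 22827826), (nat_lit 14696761)] (nat_lit 18838749)) p13_20_0 (nat_lit 3) (nat_lit 83) (nat_lit 84) = true := by decide +kernel
def p13_20_0_84 : pfC (piC [(nat_lit 35404596), (nat_lit 22827826), (nat_lit 14696761)] (nat_lit 18838749)) p13_20_0 (nat_lit 3) (nat_lit 84) (nat_lit 85) = true := by decide +kernel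
def p13_20_0_85 : pfC (piC [(nat_lit 35404596), (nat_lit 22827826), (nat_lit 14696761)] (nat_lit 18838749)) p13_20_0 (nat_lit 3) (nat_lit 85) (nat_lit 86) = true := by decide +kernel
def p13_20_0_86 : pfC (piC [(nat_lit 35404596), (nat_lit 22827826), (nat_lit 14696761)] (nat_lit 18838749)) p13_20_0 (nat_lit 3) (nat_lit 86) (nat_lit 87) = true := by decide +kernel
def p13_20_0_87 : pfC (piC [(nat_lit 35404596), (nat_lit 22827826), (nat_lit 14696761)] (nat_lit 18838749)) p13_20_0 (nat_lit 3) (nat_lit 87) (nat_lit 88) = true := by decide +kernel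
def p13_20_0_88 : pfC (piC [(nat_lit 35404596), (nat_lit 22827826), (nat_lit 14696761)] (nat_lit 18838749)) p13_20_0 (nat_lit 3) (nat_lit 88) (nat_lit 89) = true := by decide +kernel
def p13_20_0_89 : pfC (piC [(nat_lit 35404596), (nat_lit 22827826), (nat_lit 14696761)] (nat_lit 18838749)) p13_20_0 (nat_lit 3) (nat_lit 89) (nat_lit 90) = true := by decide +kernel
def p13_20_0_90 : pfC (piC [(nat_lit 35404596), (nat_lit 22827826), (nat_lit 14696761)] (nat_lit 18838749)) p13_20_0 (nat_lit 3) (nat_lit 90) (nat_lit 91) = true := by decide +kernel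
def p13_20_0_91 : pfC (piC [(nat_lit 35404596), (nat_lit 22827826), (nat_lit 14696761)] (nat_lit 18838749)) p13_20_0 (nat_lit 3) (nat_lit 91) (nat_lit 92) = true := by decide +kernel
def p13_20_0_92 : pfC (piC [(nat_lit 35404596), (nat_lit 22827826), (nat_lit 14696761)] (nat_lit 18838749)) p13_20_0 (nat_lit 3) (nat_lit 92) (nat_lit 93) = true := by decide +kernel
def p13_20_0_93 : pfC (piC [(nat_lit 35404596), (nat_lit 22827826), (nat_lit 14696761)] (nat_lit 18838749)) p13_20_0 (nat_lit 3) (nat_lit 93) (nat_lit 94) = true := by decide +kernel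
def p13_20_0_94 : pfC (piC [(nat_lit 35404596), (nat_lit 22827826), (nat_lit 14696761)] (nat_lit 18838749)) p13_20_0 (nat_lit 3) (nat_lit 94) (nat_lit 95) = true := by decide +kernel
def p13_20_0_95 : pfC (piC [(nat_lit 35404596), (nat_lit 22827826), (nat_lit 14696761)] (nat_lit 18838749)) p13_20_0 (nat_lit 3) (nat_lit 95) (nat_lit 96) = true := by decide +kernel
def p13_20_0_96 : pfC (piC [(nat_lit 35404596), (nat_lit 22827826), (nat_lit 14696761)] (nat_lit 18838749)) p13_20_0 (nat_lit 3) (nat_lit 96) (nat_lit 97) = true := by decide +kernel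
def p13_20_0_97 : pfC (piC [(nat_lit 35404596), (nat_lit 22827826), (nat_lit 14696761)] (nat_lit 18838749)) p13_20_0 (nat_lit 3) (nat_lit 97) (nat_lit 98) = true := by decide +kernel
def p13_20_0_98 : pfC (piC [(nat_lit 35404596), (nat_lit 22827826), (nat_lit 14696761)] (nat_lit 18838749)) p13_20_0 (nat_lit 3) (nat_lit 98) (nat_lit 99) = true := by decide +kernel
def p13_20_0_99 : pfC (piC [(nat_lit 35404596), (nat_lit 22827826), (nat_lit 14696761)] (nat_lit 18838749)) p13_20_0 (nat_lit 3) (nat_lit 99) (nat_lit 100) = true := by decide +kernel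
def p13_20_0_100 : pfC (piC [(nat_lit 35404596), (nat_lit 22827826), (nat_lit 14696761)] (nat_lit 18838749)) p13_20_0 (nat_lit 3) (nat_lit 100) (nat_lit 101) = true := by decide +kernel
def p13_20_0_101 : pfC (piC [(nat_lit 35404596), (nat_lit 22827826), (nat_lit 14696761)] (nat_lit 18838749)) p13_20_0 (nat_lit 3) (nat_lit 101) (nat_lit 102) = true := by decide +kernel
def p13_20_0_102 : pfC (piC [(nat_lit 35404596), (nat_lit 22827826), (nat_lit 14696761)] (nat_lit 18838749)) p13_20_0 (nat_lit 3) (nat_lit 102) (nat_lit 103) = true := by decide +kernel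
def p13_20_0_103 : pfC (piC [(nat_lit 35404596), (nat_lit 22827826), (nat_lit 14696761)] (nat_lit 18838749)) p13_20_0 (nat_lit 3) (nat_lit 103) (nat_lit 104) = true := by decide +kernel
def p13_20_0_104 : pfC (piC [(nat_lit 35404596), (nat_lit 22827826), (nat_lit 14696761)] (nat_lit 18838749)) p13_20_0 (nat_lit 3) (nat_lit 104) (nat_lit 105) = true := by decide +kernel
def p13_20_0_105 : pfC (piC [(nat_lit 35404596), (nat_lit 22827826), (nat_lit 14696761)] (nat_lit 18838749)) p13_20_0 (nat_lit 3) (nat_lit 105) (nat_lit 106) = true := by decide +kernel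
def p13_20_0_106 : pfC (piC [(nat_lit 35404596), (nat_lit 22827826), (nat_lit 14696761)] (nat_lit 18838749)) p13_20_0 (nat_lit 3) (nat_lit 106) (nat_lit 107) = true := by decide +kernel
def p13_20_0_107 : pfC (piC [(nat_lit 35404596), (nat_lit 22827826), (nat_lit 14696761)] (nat_lit 18838749)) p13_20_0 (nat_lit 3) (nat_lit 107) (nat_lit 108) = true := by decide +kernel
def p13_20_0_108 : pfC (piC [(nat_lit 35404596), (nat_lit 22827826), (nat_lit 14696761)] (nat_lit 18838749)) p13_20_0 (nat_lit 3) (nat_lit 108) (nat_lit 109) = true := by decide +kernel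
def p13_20_0_109 : pfC (piC [(nat_lit 35404596), (nat_lit 22827826), (nat_lit 14696761)] (nat_lit 18838749)) p13_20_0 (nat_lit 3) (nat_lit 109) (nat_lit 110) = true := by decide +kernel
def p13_20_0_110 : pfC (piC [(nat_lit 35404596), (nat_lit 22827826), (nat_lit 14696761)] (nat_lit 18838749)) p13_20_0 (nat_lit 3) (nat_lit 110) (nat_lit 111) = true := by decide +kernel
def p13_20_0_111 : pfC (piC [(nat_lit 35404596), (nat_lit 22827826), (nat_lit 14696761)] (nat_lit 18838749)) p13_20_0 (nat_lit 3) (nat_lit 111) (nat_lit 112) = true := by decide +kernel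
def p13_20_0_112 : pfC (piC [(nat_lit 35404596), (nat_lit 22827826), (nat_lit 14696761)] (nat_lit 18838749)) p13_20_0 (nat_lit 3) (nat_lit 112) (nat_lit 113) = true := by decide +kernel
def p13_20_0_113 : pfC (piC [(nat_lit 35404596), (nat_lit 22827826), (nat_lit 14696761)] (nat_lit 18838749)) p13_20_0 (nat_lit 3) (nat_lit 113) (nat_lit 114) = true := by decide +kernel
def p13_20_0_114 : pfC (piC [(nat_lit 35404596), (nat_lit 22827826), (nat_lit 14696761)] (nat_lit 18838749)) p13_20_0 (nat_lit 3) (nat_lit 114) (nat_lit 115) = true := by decide +kernel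
def p13_20_0_115 : pfC (piC [(nat_lit 35404596), (nat_lit 22827826), (nat_lit 14696761)] (nat_lit 18838749)) p13_20_0 (nat_lit 3) (nat_lit 115) (nat_lit 116) = true := by decide +kernel
def p13_20_0_116 : pfC (piC [(nat_lit 35404596), (nat_lit 22827826), (nat_lit 14696761)] (nat_lit 18838749)) p13_20_0 (nat_lit 3) (nat_lit 116) (nat_lit 117) = true := by decide +kernel
def p13_20_0_117 : pfC (piC [(nat_lit 35404596), (nat_lit 22827826), (nat_lit 14696761)] (nat_lit 18838749)) p13_20_0 (nat_lit 3) (nat_lit 117) (nat_lit 118) = true := by decide +kernel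
def p13_20_0_118 : pfC (piC [(nat_lit 35404596), (nat_lit 22827826), (nat_lit 14696761)] (nat_lit 18838749)) p13_20_0 (nat_lit 3) (nat_lit 118) (nat_lit 119) = true := by decide +kernel
def p13_20_0_119 : pfC (piC [(nat_lit 35404596), (nat_lit 22827826), (nat_lit 14696761)] (nat_lit 18838749)) p13_20_0 (nat_lit 3) (nat_lit 119) (nat_lit 120) = true := by decide +kernel
def p13_20_0_120 : pfC (piC [(nat_lit 35404596), (nat_lit 22827826), (nat_lit 14696761)] (nat_lit 18838749)) p13_20_0 (nat_lit 3) (nat_lit 120) (nat_lit 121) = true := by decide +kernel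
def p13_20_0_121 : pfC (piC [(nat_lit 35404596), (nat_lit 22827826), (nat_lit 14696761)] (nat_lit 18838749)) p13_20_0 (nat_lit 3) (nat_lit 121) (nat_lit 122) = true := by decide +kernel
def p13_20_0_122 : pfC (piC [(nat_lit 35404596), (nat_lit 22827826), (nat_lit 14696761)] (nat_lit 18838749)) p13_20_0 (nat_lit 3) (nat_lit 122) (nat_lit 123) = true := by decide +kernel
def p13_20_0_123 : pfC (piC [(nat_lit 35404596), (nat_lit 22827826), (nat_lit 14696761)] (nat_lit 18838749)) p13_20_0 (nat_lit 3) (nat_lit 123) (nat_lit 124) = true := by decide +kernel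
def p13_20_0_124 : pfC (piC [(nat_lit 35404596), (nat_lit 22827826), (nat_lit 14696761)] (nat_lit 18838749)) p13_20_0 (nat_lit 3) (nat_lit 124) (nat_lit 125) = true := by decide +kernel
def p13_20_0_125 : pfC (piC [(nat_lit 35404596), (nat_lit 22827826), (nat_lit 14696761)] (nat_lit 18838749)) p13_20_0 (nat_lit 3) (nat_lit 125) (nat_lit 126) = true := by decide +kernel
def p13_20_0_126 : pfC (piC [(nat_lit 35404596), (nat_lit 22827826), (nat_lit 14696761)] (nat_lit 18838749)) p13_20_0 (nat_lit 3) (nat_lit 126) (nat_lit 127) = true := by decide +kernel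
def p13_20_0_127 : pfC (piC [(nat_lit 35404596), (nat_lit 22827826), (nat_lit 14696761)] (nat_lit 18838749)) p13_20_0 (nat_lit 3) (nat_lit 127) (nat_lit 128) = true := by decide +kernel
def p13_20_0_128 : pfC (piC [(nat_lit 35404596), (nat_lit 22827826), (nat_lit 14696761)] (nat_lit 18838749)) p13_20_0 (nat_lit 3) (nat_lit 128) (nat_lit 129) = true := by decide +kernel
def p13_20_0_129 : pfC (piC [(nat_lit 35404596), (nat_lit 22827826), (nat_lit 14696761)] (nat_lit 18838749)) p13_20_0 (nat_lit 3) (nat_lit 129) (nat_lit 130) = true := by decide +kernel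
def p13_20_0_130 : pfC (piC [(nat_lit 35404596), (nat_lit 22827826), (nat_lit 14696761)] (nat_lit 18838749)) p13_20_0 (nat_lit 3) (nat_lit 130) (nat_lit 131) = true := by decide +kernel
def p13_20_0_131 : pfC (piC [(nat_lit 35404596), (nat_lit 22827826), (nat_lit 14696761)] (nat_lit 18838749)) p13_20_0 (nat_lit 3) (nat_lit 131) (nat_lit 132) = true := by decide +kernel
def p13_20_0_132 : pfC (piC [(nat_lit 35404596), (nat_lit 22827826), (nat_lit 14696761)] (nat_lit 18838749)) p13_20_0 (nat_lit 3) (nat_lit 132) (nat_lit 133) = true := by decide +kernel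
def p13_20_0_133 : pfC (piC [(nat_lit 35404596), (nat_lit 22827826), (nat_lit 14696761)] (nat_lit 18838749)) p13_20_0 (nat_lit 3) (nat_lit 133) (nat_lit 134) = true := by decide +kernel
def p13_20_0_134 : pfC (piC [(nat_lit 35404596), (nat_lit 22827826), (nat_lit 14696761)] (nat_lit 18838749)) p13_20_0 (nat_lit 3) (nat_lit 134) (nat_lit 135) = true := by decide +kernel
def p13_20_0_135 : pfC (piC [(nat_lit 35404596), (nat_lit 22827826), (nat_lit 14696761)] (nat_lit 18838749)) p13_20_0 (nat_lit 3) (nat_lit 135) (nat_lit 136) = true := by decide +kernel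
def p13_20_0_136 : pfC (piC [(nat_lit 35404596), (nat_lit 22827826), (nat_lit 14696761)] (nat_lit 18838749)) p13_20_0 (nat_lit 3) (nat_lit 136) (nat_lit 137) = true := by decide +kernel
def p13_20_0_137 : pfC (piC [(nat_lit 35404596), (nat_lit 22827826), (nat_lit 14696761)] (nat_lit 18838749)) p13_20_0 (nat_lit 3) (nat_lit 137) (nat_lit 138) = true := by decide +kernel
def p13_20_0_138 : pfC (piC [(nat_lit 35404596), (nat_lit 22827826), (nat_lit 14696761)] (nat_lit 18838749)) p13_20_0 (nat_lit 3) (nat_lit 138) (nat_lit 139) = true := by decide +kernel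
def p13_20_0_139 : pfC (piC [(nat_lit 35404596), (nat_lit 22827826), (nat_lit 14696761)] (nat_lit 18838749)) p13_20_0 (nat_lit 3) (nat_lit 139) (nat_lit 140) = true := by decide +kernel
def p13_20_0_140 : pfC (piC [(nat_lit 35404596), (nat_lit 22827826), (nat_lit 14696761)] (nat_lit 18838749)) p13_20_0 (nat_lit 3) (nat_lit 140) (nat_lit 141) = true := by decide +kernel
def p13_20_0_141 : pfC (piC [(nat_lit 35404596), (nat_lit 22827826), (nat_lit 14696761)] (nat_lit 18838749)) p13_20_0 (nat_lit 3) (nat_lit 141) (nat_lit 142) = true := by decide +kernel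
def p13_20_0_142 : pfC (piC [(nat_lit 35404596), (nat_lit 22827826), (nat_lit 14696761)] (nat_lit 18838749)) p13_20_0 (nat_lit 3) (nat_lit 142) (nat_lit 143) = true := by decide +kernel
def p13_20_0_143 : pfC (piC [(nat_lit 35404596), (nat_lit 22827826), (nat_lit 14696761)] (nat_lit 18838749)) p13_20_0 (nat_lit 3) (nat_lit 143) (nat_lit 144) = true := by decide +kernel
def p13_20_0_144 : pfC (piC [(nat_lit 35404596), (nat_lit 22827826), (nat_lit 14696761)] (nat_lit 18838749)) p13_20_0 (nat_lit 3) (nat_lit 144) (nat_lit 145) = true := by decide +kernel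
def p13_20_0_145 : pfC (piC [(nat_lit 35404596), (nat_lit 22827826), (nat_lit 14696761)] (nat_lit 18838749)) p13_20_0 (nat_lit 3) (nat_lit 145) (nat_lit 146) = true := by decide +kernel
def p13_20_0_146 : pfC (piC [(nat_lit 35404596), (nat_lit 22827826), (nat_lit 14696761)] (nat_lit 18838749)) p13_20_0 (nat_lit 3) (nat_lit 146) (nat_lit 147) = true := by decide +kernel
def p13_20_0_147 : pfC (piC [(nat_lit 35404596), (nat_lit 22827826), (nat_lit 14696761)] (nat_lit 18838749)) p13_20_0 (nat_lit 3) (nat_lit 147) (nat_lit 148) = true := by decide +kernel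
def p13_20_0_148 : pfC (piC [(nat_lit 35404596), (nat_lit 22827826), (nat_lit 14696761)] (nat_lit 18838749)) p13_20_0 (nat_lit 3) (nat_lit 148) (nat_lit 149) = true := by decide +kernel
def p13_20_0_149 : pfC (piC [(nat_lit 35404596), (nat_lit 22827826), (nat_lit 14696761)] (nat_lit 18838749)) p13_20_0 (nat_lit 3) (nat_lit 149) (nat_lit 150) = true := by decide +kernel
def p13_20_0_150 : pfC (piC [(nat_lit 35404596), (nat_lit 22827826), (nat_lit 14696761)] (nat_lit 18838749)) p13_20_0 (nat_lit 3) (nat_lit 150) (nat_lit 151) = true := by decide +kernel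
def p13_20_0_151 : pfC (piC [(nat_lit 35404596), (nat_lit 22827826), (nat_lit 14696761)] (nat_lit 18838749)) p13_20_0 (nat_lit 3) (nat_lit 151) (nat_lit 152) = true := by decide +kernel
def p13_20_0_152 : pfC (piC [(nat_lit 35404596), (nat_lit 22827826), (nat_lit 14696761)] (nat_lit 18838749)) p13_20_0 (nat_lit 3) (nat_lit 152) (nat_lit 153) = true := by decide +kernel
def p13_20_0_153 : pfC (piC [(nat_lit 35404596), (nat_lit 22827826), (nat_lit 14696761)] (nat_lit 18838749)) p13_20_0 (nat_lit 3) (nat_lit 153) (nat_lit 154) = true := by decide +kernel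
def p13_20_0_154 : pfC (piC [(nat_lit 35404596), (nat_lit 22827826), (nat_lit 14696761)] (nat_lit 18838749)) p13_20_0 (nat_lit 3) (nat_lit 154) (nat_lit 155) = true := by decide +kernel
def p13_20_0_155 : pfC (piC [(nat_lit 35404596), (nat_lit 22827826), (nat_lit 14696761)] (nat_lit 18838749)) p13_20_0 (nat_lit 3) (nat_lit 155) (nat_lit 156) = true := by decide +kernel
def p13_20_0_156 : pfC (piC [(nat_lit 35404596), (nat_lit 22827826), (nat_lit 14696761)] (nat_lit 18838749)) p13_20_0 (nat_lit 3) (nat_lit 156) (nat_lit 157) = true := by decide +kernel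
def p13_20_0_157 : pfC (piC [(nat_lit 35404596), (nat_lit 22827826), (nat_lit 14696761)] (nat_lit 18838749)) p13_20_0 (nat_lit 3) (nat_lit 157) (nat_lit 158) = true := by decide +kernel
def p13_20_0_158 : pfC (piC [(nat_lit 35404596), (nat_lit 22827826), (nat_lit 14696761)] (nat_lit 18838749)) p13_20_0 (nat_lit 3) (nat_lit 158) (nat_lit 159) = true := by decide +kernel
def p13_20_0_159 : pfC (piC [(nat_lit 35404596), (nat_lit 22827826), (nat_lit 14696761)] (nat_lit 18838749)) p13_20_0 (nat_lit 3) (nat_lit 159) (nat_lit 160) = true := by decide +kernel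
def p13_20_0_160 : pfC (piC [(nat_lit 35404596), (nat_lit 22827826), (nat_lit 14696761)] (nat_lit 18838749)) p13_20_0 (nat_lit 3) (nat_lit 160) (nat_lit 161) = true := by decide +kernel
def p13_20_0_161 : pfC (piC [(nat_lit 35404596), (nat_lit 22827826), (nat_lit 14696761)] (nat_lit 18838749)) p13_20_0 (nat_lit 3) (nat_lit 161) (nat_lit 162) = true := by decide +kernel
def p13_20_0_162 : pfC (piC [(nat_lit 35404596), (nat_lit 22827826), (nat_lit 14696761)] (nat_lit 18838749)) p13_20_0 (nat_lit 3) (nat_lit 162) (nat_lit 163) = true := by decide +kernel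
def p13_20_0_163 : pfC (piC [(nat_lit 35404596), (nat_lit 22827826), (nat_lit 14696761)] (nat_lit 18838749)) p13_20_0 (nat_lit 3) (nat_lit 163) (nat_lit 164) = true := by decide +kernel
def p13_20_0_164 : pfC (piC [(nat_lit 35404596), (nat_lit 22827826), (nat_lit 14696761)] (nat_lit 18838749)) p13_20_0 (nat_lit 3) (nat_lit 164) (nat_lit 165) = true := by decide +kernel
def p13_20_0_165 : pfC (piC [(nat_lit 35404596), (nat_lit 22827826), (nat_lit 14696761)] (nat_lit 18838749)) p13_20_0 (nat_lit 3) (nat_lit 165) (nat_lit 166) = true := by decide +kernel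
def p13_20_0_166 : pfC (piC [(nat_lit 35404596), (nat_lit 22827826), (nat_lit 14696761)] (nat_lit 18838749)) p13_20_0 (nat_lit 3) (nat_lit 166) (nat_lit 167) = true := by decide +kernel
def p13_20_0_167 : pfC (piC [(nat_lit 35404596), (nat_lit 22827826), (nat_lit 14696761)] (nat_lit 18838749)) p13_20_0 (nat_lit 3) (nat_lit 167) (nat_lit 168) = true := by decide +kernel
def p13_20_0_168 : pfC (piC [(nat_lit 35404596), (nat_lit 22827826), (nat_lit 14696761)] (nat_lit 18838749)) p13_20_0 (nat_lit 3) (nat_lit 168) (nat_lit 169) = true := by decide +kernel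
def p13_20_0_169 : pfC (piC [(nat_lit 35404596), (nat_lit 22827826), (nat_lit 14696761)] (nat_lit 18838749)) p13_20_0 (nat_lit 3) (nat_lit 169) (nat_lit 170) = true := by decide +kernel
def p13_20_0_170 : pfC (piC [(nat_lit 35404596), (nat_lit 22827826), (nat_lit 14696761)] (nat_lit 18838749)) p13_20_0 (nat_lit 3) (nat_lit 170) (nat_lit 171) = true := by decide +kernel
def p13_20_0_171 : pfC (piC [(nat_lit 35404596), (nat_lit 22827826), (nat_lit 14696761)] (nat_lit 18838749)) p13_20_0 (nat_lit 3) (nat_lit 171) (nat_lit 172) = true := by decide +kernel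
def p13_20_0_172 : pfC (piC [(nat_lit 35404596), (nat_lit 22827826), (nat_lit 14696761)] (nat_lit 18838749)) p13_20_0 (nat_lit 3) (nat_lit 172) (nat_lit 173) = true := by decide +kernel
def p13_20_0_173 : pfC (piC [(nat_lit 35404596), (nat_lit 22827826), (nat_lit 14696761)] (nat_lit 18838749)) p13_20_0 (nat_lit 3) (nat_lit 173) (nat_lit 174) = true := by decide +kernel
def p13_20_0_174 : pfC (piC [(nat_lit 35404596), (nat_lit 22827826), (nat_lit 14696761)] (nat_lit 18838749)) p13_20_0 (nat_lit 3) (nat_lit 174) (nat_lit 175) = true := by decide +kernel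
def p13_20_0_175 : pfC (piC [(nat_lit 35404596), (nat_lit 22827826), (nat_lit 14696761)] (nat_lit 18838749)) p13_20_0 (nat_lit 3) (nat_lit 175) (nat_lit 176) = true := by decide +kernel
def p13_20_0_176 : pfC (piC [(nat_lit 35404596), (nat_lit 22827826), (nat_lit 14696761)] (nat_lit 18838749)) p13_20_0 (nat_lit 3) (nat_lit 176) (nat_lit 177) = true := by decide +kernel
def p13_20_0_177 : pfC (piC [(nat_lit 35404596), (nat_lit 22827826), (nat_lit 14696761)] (nat_lit 18838749)) p13_20_0 (nat_lit 3) (nat_lit 177) (nat_lit 178) = true := by decide +kernel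
def p13_20_0_178 : pfC (piC [(nat_lit 35404596), (nat_lit 22827826), (nat_lit 14696761)] (nat_lit 18838749)) p13_20_0 (nat_lit 3) (nat_lit 178) (nat_lit 179) = true := by decide +kernel
def p13_20_0_179 : pfC (piC [(nat_lit 35404596), (nat_lit 22827826), (nat_lit 14696761)] (nat_lit 18838749)) p13_20_0 (nat_lit 3) (nat_lit 179) (nat_lit 180) = true := by decide +kernel
def p13_20_0_180 : pfC (piC [(nat_lit 35404596), (nat_lit 22827826), (nat_lit 14696761)] (nat_lit 18838749)) p13_20_0 (nat_lit 3) (nat_lit 180) (nat_lit 181) = true := by decide +kernel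
def p13_20_0_181 : pfC (piC [(nat_lit 35404596), (nat_lit 22827826), (nat_lit 14696761)] (nat_lit 18838749)) p13_20_0 (nat_lit 3) (nat_lit 181) (nat_lit 182) = true := by decide +kernel
def p13_20_0_182 : pfC (piC [(nat_lit 35404596), (nat_lit 22827826), (nat_lit 14696761)] (nat_lit 18838749)) p13_20_0 (nat_lit 3) (nat_lit 182) (nat_lit 183) = true := by decide +kernel
def p13_20_0_183 : pfC (piC [(nat_lit 35404596), (nat_lit 22827826), (nat_lit 14696761)] (nat_lit 18838749)) p13_20_0 (nat_lit 3) (nat_lit 183) (nat_lit 184) = true := by decide +kernel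
def p13_20_0_184 : pfC (piC [(nat_lit 35404596), (nat_lit 22827826), (nat_lit 14696761)] (nat_lit 18838749)) p13_20_0 (nat_lit 3) (nat_lit 184) (nat_lit 185) = true := by decide +kernel
def p13_20_0_185 : pfC (piC [(nat_lit 35404596), (nat_lit 22827826), (nat_lit 14696761)] (nat_lit 18838749)) p13_20_0 (nat_lit 3) (nat_lit 185) (nat_lit 186) = true := by decide +kernel
def p13_20_0_186 : pfC (piC [(nat_lit 35404596), (nat_lit 22827826), (nat_lit 14696761)] (nat_lit 18838749)) p13_20_0 (nat_lit 3) (nat_lit 186) (nat_lit 187) = true := by decide +kernel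
def p13_20_0_187 : pfC (piC [(nat_lit 35404596), (nat_lit 22827826), (nat_lit 14696761)] (nat_lit 18838749)) p13_20_0 (nat_lit 3) (nat_lit 187) (nat_lit 188) = true := by decide +kernel
def p13_20_0_188 : pfC (piC [(nat_lit 35404596), (nat_lit 22827826), (nat_lit 14696761)] (nat_lit 18838749)) p13_20_0 (nat_lit 3) (nat_lit 188) (nat_lit 189) = true := by decide +kernel
def p13_20_0_189 : pfC (piC [(nat_lit 35404596), (nat_lit 22827826), (nat_lit 14696761)] (nat_lit 18838749)) p13_20_0 (nat_lit 3) (nat_lit 189) (nat_lit 190) = true := by decide +kernel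
def p13_20_0_190 : pfC (piC [(nat_lit 35404596), (nat_lit 22827826), (nat_lit 14696761)] (nat_lit 18838749)) p13_20_0 (nat_lit 3) (nat_lit 190) (nat_lit 191) = true := by decide +kernel
def p13_20_0_191 : pfC (piC [(nat_lit 35404596), (nat_lit 22827826), (nat_lit 14696761)] (nat_lit 18838749)) p13_20_0 (nat_lit 3) (nat_lit 191) (nat_lit 192) = true := by decide +kernel
def p13_20_0_192 : pfC (piC [(nat_lit 35404596), (nat_lit 22827826), (nat_lit 14696761)] (nat_lit 18838749)) p13_20_0 (nat_lit 3) (nat_lit 192) (nat_lit 193) = true := by decide +kernel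
def p13_20_0_193 : pfC (piC [(nat_lit 35404596), (nat_lit 22827826), (nat_lit 14696761)] (nat_lit 18838749)) p13_20_0 (nat_lit 3) (nat_lit 193) (nat_lit 194) = true := by decide +kernel
def p13_20_0_194 : pfC (piC [(nat_lit 35404596), (nat_lit 22827826), (nat_lit 14696761)] (nat_lit 18838749)) p13_20_0 (nat_lit 3) (nat_lit 194) (nat_lit 195) = true := by decide +kernel
def p13_20_0_195 : pfC (piC [(nat_lit 35404596), (nat_lit 22827826), (nat_lit 14696761)] (nat_lit 18838749)) p13_20_0 (nat_lit 3) (nat_lit 195) (nat_lit 196) = true := by decide +kernel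
def p13_20_0_196 : pfC (piC [(nat_lit 35404596), (nat_lit 22827826), (nat_lit 14696761)] (nat_lit 18838749)) p13_20_0 (nat_lit 3) (nat_lit 196) (nat_lit 197) = true := by decide +kernel
def p13_20_0_197 : pfC (piC [(nat_lit 35404596), (nat_lit 22827826), (nat_lit 14696761)] (nat_lit 18838749)) p13_20_0 (nat_lit 3) (nat_lit 197) (nat_lit 198) = true := by decide +kernel
def p13_20_0_198 : pfC (piC [(nat_lit 35404596), (nat_lit 22827826), (nat_lit 14696761)] (nat_lit 18838749)) p13_20_0 (nat_lit 3) (nat_lit 198) (nat_lit 199) = true := by decide +kernel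
def p13_20_0_199 : pfC (piC [(nat_lit 35404596), (nat_lit 22827826), (nat_lit 14696761)] (nat_lit 18838749)) p13_20_0 (nat_lit 3) (nat_lit 199) (nat_lit 200) = true := by decide +kernel
def p13_20_0_200 : pfC (piC [(nat_lit 35404596), (nat_lit 22827826), (nat_lit 14696761)] (nat_lit 18838749)) p13_20_0 (nat_lit 3) (nat_lit 200) (nat_lit 201) = true := by decide +kernel
def p13_20_0_201 : pfC (piC [(nat_lit 35404596), (nat_lit 22827826), (nat_lit 14696761)] (nat_lit 18838749)) p13_20_0 (nat_lit 3) (nat_lit 201) (nat_lit 202) = true := by decide +kernel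
def p13_20_0_202 : pfC (piC [(nat_lit 35404596), (nat_lit 22827826), (nat_lit 14696761)] (nat_lit 18838749)) p13_20_0 (nat_lit 3) (nat_lit 202) (nat_lit 203) = true := by decide +kernel
def p13_20_0_203 : pfC (piC [(nat_lit 35404596), (nat_lit 22827826), (nat_lit 14696761)] (nat_lit 18838749)) p13_20_0 (nat_lit 3) (nat_lit 203) (nat_lit 204) = true := by decide +kernel
def p13_20_0_204 : pfC (piC [(nat_lit 35404596), (nat_lit 22827826), (nat_lit 14696761)] (nat_lit 18838749)) p13_20_0 (nat_lit 3) (nat_lit 204) (nat_lit 205) = true := by decide +kernel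
def p13_20_0_205 : pfC (piC [(nat_lit 35404596), (nat_lit 22827826), (nat_lit 14696761)] (nat_lit 18838749)) p13_20_0 (nat_lit 3) (nat_lit 205) (nat_lit 206) = true := by decide +kernel
def p13_20_0_206 : pfC (piC [(nat_lit 35404596), (nat_lit 22827826), (nat_lit 14696761)] (nat_lit 18838749)) p13_20_0 (nat_lit 3) (nat_lit 206) (nat_lit 207) = true := by decide +kernel
def p13_20_0_207 : pfC (piC [(nat_lit 35404596), (nat_lit 22827826), (nat_lit 14696761)] (nat_lit 18838749)) p13_20_0 (nat_lit 3) (nat_lit 207) (nat_lit 208) = true := by decide +kernel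
def p13_20_0_208 : pfC (piC [(nat_lit 35404596), (nat_lit 22827826), (nat_lit 14696761)] (nat_lit 18838749)) p13_20_0 (nat_lit 3) (nat_lit 208) (nat_lit 209) = true := by decide +kernel
def p13_20_0_209 : pfC (piC [(nat_lit 35404596), (nat_lit 22827826), (nat_lit 14696761)] (nat_lit 18838749)) p13_20_0 (nat_lit 3) (nat_lit 209) (nat_lit 210) = true := by decide +kernel
def p13_20_0_210 : pfC (piC [(nat_lit 35404596), (nat_lit 22827826), (nat_lit 14696761)] (nat_lit 18838749)) p13_20_0 (nat_lit 3) (nat_lit 210) (nat_lit 211) = true := by decide +kernel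
def p13_20_0_211 : pfC (piC [(nat_lit 35404596), (nat_lit 22827826), (nat_lit 14696761)] (nat_lit 18838749)) p13_20_0 (nat_lit 3) (nat_lit 211) (nat_lit 212) = true := by decide +kernel
def p13_20_0_212 : pfC (piC [(nat_lit 35404596), (nat_lit 22827826), (nat_lit 14696761)] (nat_lit 18838749)) p13_20_0 (nat_lit 3) (nat_lit 212) (nat_lit 213) = true := by decide +kernel
def p13_20_0_213 : pfC (piC [(nat_lit 35404596), (nat_lit 22827826), (nat_lit 14696761)] (nat_lit 18838749)) p13_20_0 (nat_lit 3) (nat_lit 213) (nat_lit 214) = true := by decide +kernel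
def p13_20_0_214 : pfC (piC [(nat_lit 35404596), (nat_lit 22827826), (nat_lit 14696761)] (nat_lit 18838749)) p13_20_0 (nat_lit 3) (nat_lit 214) (nat_lit 215) = true := by decide +kernel
def p13_20_0_215 : pfC (piC [(nat_lit 35404596), (nat_lit 22827826), (nat_lit 14696761)] (nat_lit 18838749)) p13_20_0 (nat_lit 3) (nat_lit 215) (nat_lit 216) = true := by decide +kernel
def p13_20_0_216 : pfC (piC [(nat_lit 35404596), (nat_lit 22827826), (nat_lit 14696761)] (nat_lit 18838749)) p13_20_0 (nat_lit 3) (nat_lit 216) (nat_lit 217) = true := by decide +kernel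
def p13_20_0_217 : pfC (piC [(nat_lit 35404596), (nat_lit 22827826), (nat_lit 14696761)] (nat_lit 18838749)) p13_20_0 (nat_lit 3) (nat_lit 217) (nat_lit 218) = true := by decide +kernel
def p13_20_0_218 : pfC (piC [(nat_lit 35404596), (nat_lit 22827826), (nat_lit 14696761)] (nat_lit 18838749)) p13_20_0 (nat_lit 3) (nat_lit 218) (nat_lit 219) = true := by decide +kernel
def p13_20_0_219 : pfC (piC [(nat_lit 35404596), (nat_lit 22827826), (nat_lit 14696761)] (nat_lit 18838749)) p13_20_0 (nat_lit 3) (nat_lit 219) (nat_lit 220) = true := by decide +kernel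
def p13_20_0_220 : pfC (piC [(nat_lit 35404596), (nat_lit 22827826), (nat_lit 14696761)] (nat_lit 18838749)) p13_20_0 (nat_lit 3) (nat_lit 220) (nat_lit 221) = true := by decide +kernel
def p13_20_0_221 : pfC (piC [(nat_lit 35404596), (nat_lit 22827826), (nat_lit 14696761)] (nat_lit 18838749)) p13_20_0 (nat_lit 3) (nat_lit 221) (nat_lit 222) = true := by decide +kernel
def p13_20_0_222 : pfC (piC [(nat_lit 35404596), (nat_lit 22827826), (nat_lit 14696761)] (nat_lit 18838749)) p13_20_0 (nat_lit 3) (nat_lit 222) (nat_lit 223) = true := by decide +kernel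
def p13_20_0_223 : pfC (piC [(nat_lit 35404596), (nat_lit 22827826), (nat_lit 14696761)] (nat_lit 18838749)) p13_20_0 (nat_lit 3) (nat_lit 223) (nat_lit 224) = true := by decide +kernel
def p13_20_0_224 : pfC (piC [(nat_lit 35404596), (nat_lit 22827826), (nat_lit 14696761)] (nat_lit 18838749)) p13_20_0 (nat_lit 3) (nat_lit 224) (nat_lit 225) = true := by decide +kernel
def p13_20_0_225 : pfC (piC [(nat_lit 35404596), (nat_lit 22827826), (nat_lit 14696761)] (nat_lit 18838749)) p13_20_0 (nat_lit 3) (nat_lit 225) (nat_lit 226) = true := by decide +kernel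
def p13_20_0_226 : pfC (piC [(nat_lit 35404596), (nat_lit 22827826), (nat_lit 14696761)] (nat_lit 18838749)) p13_20_0 (nat_lit 3) (nat_lit 226) (nat_lit 227) = true := by decide +kernel
def p13_20_0_227 : pfC (piC [(nat_lit 35404596), (nat_lit 22827826), (nat_lit 14696761)] (nat_lit 18838749)) p13_20_0 (nat_lit 3) (nat_lit 227) (nat_lit 228) = true := by decide +kernel
def p13_20_0_228 : pfC (piC [(nat_lit 35404596), (nat_lit 22827826), (nat_lit 14696761)] (nat_lit 18838749)) p13_20_0 (nat_lit 3) (nat_lit 228) (nat_lit 229) = true := by decide +kernel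
def p13_20_0_229 : pfC (piC [(nat_lit 35404596), (nat_lit 22827826), (nat_lit 14696761)] (nat_lit 18838749)) p13_20_0 (nat_lit 3) (nat_lit 229) (nat_lit 230) = true := by decide +kernel
def p13_20_0_230 : pfC (piC [(nat_lit 35404596), (nat_lit 22827826), (nat_lit 14696761)] (nat_lit 18838749)) p13_20_0 (nat_lit 3) (nat_lit 230) (nat_lit 231) = true := by decide +kernel
def p13_20_0_231 : pfC (piC [(nat_lit 35404596), (nat_lit 22827826), (nat_lit 14696761)] (nat_lit 18838749)) p13_20_0 (nat_lit 3) (nat_lit 231) (nat_lit 232) = true := by decide +kernel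
def p13_20_0_232 : pfC (piC [(nat_lit 35404596), (nat_lit 22827826), (nat_lit 14696761)] (nat_lit 18838749)) p13_20_0 (nat_lit 3) (nat_lit 232) (nat_lit 233) = true := by decide +kernel
def p13_20_0_233 : pfC (piC [(nat_lit 35404596), (nat_lit 22827826), (nat_lit 14696761)] (nat_lit 18838749)) p13_20_0 (nat_lit 3) (nat_lit 233) (nat_lit 234) = true := by decide +kernel
def p13_20_0_234 : pfC (piC [(nat_lit 35404596), (nat_lit 22827826), (nat_lit 14696761)] (nat_lit 18838749)) p13_20_0 (nat_lit 3) (nat_lit 234) (nat_lit 235) = true := by decide +kernel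
def p13_20_0_235 : pfC (piC [(nat_lit 35404596), (nat_lit 22827826), (nat_lit 14696761)] (nat_lit 18838749)) p13_20_0 (nat_lit 3) (nat_lit 235) (nat_lit 236) = true := by decide +kernel
def p13_20_0_236 : pfC (piC [(nat_lit 35404596), (nat_lit 22827826), (nat_lit 14696761)] (nat_lit 18838749)) p13_20_0 (nat_lit 3) (nat_lit 236) (nat_lit 237) = true := by decide +kernel
def p13_20_0_237 : pfC (piC [(nat_lit 35404596), (nat_lit 22827826), (nat_lit 14696761)] (nat_lit 18838749)) p13_20_0 (nat_lit 3) (nat_lit 237) (nat_lit 238) = true := by decide +kernel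
def p13_20_0_238 : pfC (piC [(nat_lit 35404596), (nat_lit 22827826), (nat_lit 14696761)] (nat_lit 18838749)) p13_20_0 (nat_lit 3) (nat_lit 238) (nat_lit 239) = true := by decide +kernel
def p13_20_0_239 : pfC (piC [(nat_lit 35404596), (nat_lit 22827826), (nat_lit 14696761)] (nat_lit 18838749)) p13_20_0 (nat_lit 3) (nat_lit 239) (nat_lit 240) = true := by decide +kernel
def p13_20_0_240 : pfC (piC [(nat_lit 35404596), (nat_lit 22827826), (nat_lit 14696761)] (nat_lit 18838749)) p13_20_0 (nat_lit 3) (nat_lit 240) (nat_lit 241) = true := by decide +kernel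
def p13_20_0_241 : pfC (piC [(nat_lit 35404596), (nat_lit 22827826), (nat_lit 14696761)] (nat_lit 18838749)) p13_20_0 (nat_lit 3) (nat_lit 241) (nat_lit 242) = true := by decide +kernel
def p13_20_0_242 : pfC (piC [(nat_lit 35404596), (nat_lit 22827826), (nat_lit 14696761)] (nat_lit 18838749)) p13_20_0 (nat_lit 3) (nat_lit 242) (nat_lit 243) = true := by decide +kernel
def p13_20_0_243 : pfC (piC [(nat_lit 35404596), (nat_lit 22827826), (nat_lit 14696761)] (nat_lit 18838749)) p13_20_0 (nat_lit 3) (nat_lit 243) (nat_lit 244) = true := by decide +kernel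
def p13_20_0_244 : pfC (piC [(nat_lit 35404596), (nat_lit 22827826), (nat_lit 14696761)] (nat_lit 18838749)) p13_20_0 (nat_lit 3) (nat_lit 244) (nat_lit 245) = true := by decide +kernel
def p13_20_0_245 : pfC (piC [(nat_lit 35404596), (nat_lit 22827826), (nat_lit 14696761)] (nat_lit 18838749)) p13_20_0 (nat_lit 3) (nat_lit 245) (nat_lit 246) = true := by decide +kernel
def p13_20_0_246 : pfC (piC [(nat_lit 35404596), (nat_lit 22827826), (nat_lit 14696761)] (nat_lit 18838749)) p13_20_0 (nat_lit 3) (nat_lit 246) (nat_lit 247) = true := by decide +kernel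
def p13_20_0_247 : pfC (piC [(nat_lit 35404596), (nat_lit 22827826), (nat_lit 14696761)] (nat_lit 18838749)) p13_20_0 (nat_lit 3) (nat_lit 247) (nat_lit 248) = true := by decide +kernel
def p13_20_0_248 : pfC (piC [(nat_lit 35404596), (nat_lit 22827826), (nat_lit 14696761)] (nat_lit 18838749)) p13_20_0 (nat_lit 3) (nat_lit 248) (nat_lit 249) = true := by decide +kernel
def p13_20_0_249 : pfC (piC [(nat_lit 35404596), (nat_lit 22827826), (nat_lit 14696761)] (nat_lit 18838749)) p13_20_0 (nat_lit 3) (nat_lit 249) (nat_lit 250) = true := by decide +kernel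
def p13_20_0_250 : pfC (piC [(nat_lit 35404596), (nat_lit 22827826), (nat_lit 14696761)] (nat_lit 18838749)) p13_20_0 (nat_lit 3) (nat_lit 250) (nat_lit 251) = true := by decide +kernel
def p13_20_0_251 : pfC (piC [(nat_lit 35404596), (nat_lit 22827826), (nat_lit 14696761)] (nat_lit 18838749)) p13_20_0 (nat_lit 3) (nat_lit 251) (nat_lit 252) = true := by decide +kernel
def p13_20_0_252 : pfC (piC [(nat_lit 35404596), (nat_lit 22827826), (nat_lit 14696761)] (nat_lit 18838749)) p13_20_0 (nat_lit 3) (nat_lit 252) (nat_lit 253) = true := by decide +kernel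
def p13_20_0_253 : pfC (piC [(nat_lit 35404596), (nat_lit 22827826), (nat_lit 14696761)] (nat_lit 18838749)) p13_20_0 (nat_lit 3) (nat_lit 253) (nat_lit 254) = true := by decide +kernel
def p13_20_0_254 : pfC (piC [(nat_lit 35404596), (nat_lit 22827826), (nat_lit 14696761)] (nat_lit 18838749)) p13_20_0 (nat_lit 3) (nat_lit 254) (nat_lit 255) = true := by decide +kernel
def p13_20_0_255 : pfC (piC [(nat_lit 35404596), (nat_lit 22827826), (nat_lit 14696761)] (nat_lit 18838749)) p13_20_0 (nat_lit 3) (nat_lit 255) (nat_lit 256) = true := by decide +kernel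
def p13_20_0_256 : pfC (piC [(nat_lit 35404596), (nat_lit 22827826), (nat_lit 14696761)] (nat_lit 18838749)) p13_20_0 (nat_lit 3) (nat_lit 256) (nat_lit 257) = true := by decide +kernel
def p13_20_0_257 : pfC (piC [(nat_lit 35404596), (nat_lit 22827826), (nat_lit 14696761)] (nat_lit 18838749)) p13_20_0 (nat_lit 3) (nat_lit 257) (nat_lit 258) = true := by decide +kernel
def p13_20_0_258 : pfC (piC [(nat_lit 35404596), (nat_lit 22827826), (nat_lit 14696761)] (nat_lit 18838749)) p13_20_0 (nat_lit 3) (nat_lit 258) (nat_lit 259) = true := by decide +kernel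
def p13_20_0_259 : pfC (piC [(nat_lit 35404596), (nat_lit 22827826), (nat_lit 14696761)] (nat_lit 18838749)) p13_20_0 (nat_lit 3) (nat_lit 259) (nat_lit 260) = true := by decide +kernel
def p13_20_0_260 : pfC (piC [(nat_lit 35404596), (nat_lit 22827826), (nat_lit 14696761)] (nat_lit 18838749)) p13_20_0 (nat_lit 3) (nat_lit 260) (nat_lit 261) = true := by decide +kernel
def p13_20_0_261 : pfC (piC [(nat_lit 35404596), (nat_lit 22827826), (nat_lit 14696761)] (nat_lit 18838749)) p13_20_0 (nat_lit 3) (nat_lit 261) (nat_lit 262) = true := by decide +kernel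
def p13_20_0_262 : pfC (piC [(nat_lit 35404596), (nat_lit 22827826), (nat_lit 14696761)] (nat_lit 18838749)) p13_20_0 (nat_lit 3) (nat_lit 262) (nat_lit 263) = true := by decide +kernel
def p13_20_0_263 : pfC (piC [(nat_lit 35404596), (nat_lit 22827826), (nat_lit 14696761)] (nat_lit 18838749)) p13_20_0 (nat_lit 3) (nat_lit 263) (nat_lit 264) = true := by decide +kernel
def p13_20_0_264 : pfC (piC [(nat_lit 35404596), (nat_lit 22827826), (nat_lit 14696761)] (nat_lit 18838749)) p13_20_0 (nat_lit 3) (nat_lit 264) (nat_lit 265) = true := by decide +kernel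
def p13_20_0_265 : pfC (piC [(nat_lit 35404596), (nat_lit 22827826), (nat_lit 14696761)] (nat_lit 18838749)) p13_20_0 (nat_lit 3) (nat_lit 265) (nat_lit 266) = true := by decide +kernel
def p13_20_0_266 : pfC (piC [(nat_lit 35404596), (nat_lit 22827826), (nat_lit 14696761)] (nat_lit 18838749)) p13_20_0 (nat_lit 3) (nat_lit 266) (nat_lit 267) = true := by decide +kernel
def p13_20_0_267 : pfC (piC [(nat_lit 35404596), (nat_lit 22827826), (nat_lit 14696761)] (nat_lit 18838749)) p13_20_0 (nat_lit 3) (nat_lit 267) (nat_lit 268) = true := by decide +kernel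
def p13_20_0_268 : pfC (piC [(nat_lit 35404596), (nat_lit 22827826), (nat_lit 14696761)] (nat_lit 18838749)) p13_20_0 (nat_lit 3) (nat_lit 268) (nat_lit 269) = true := by decide +kernel
def p13_20_0_269 : pfC (piC [(nat_lit 35404596), (nat_lit 22827826), (nat_lit 14696761)] (nat_lit 18838749)) p13_20_0 (nat_lit 3) (nat_lit 269) (nat_lit 270) = true := by decide +kernel
def p13_20_0_270 : pfC (piC [(nat_lit 35404596), (nat_lit 22827826), (nat_lit 14696761)] (nat_lit 18838749)) p13_20_0 (nat_lit 3) (nat_lit 270) (nat_lit 271) = true := by decide +kernel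
def p13_20_0_271 : pfC (piC [(nat_lit 35404596), (nat_lit 22827826), (nat_lit 14696761)] (nat_lit 18838749)) p13_20_0 (nat_lit 3) (nat_lit 271) (nat_lit 272) = true := by decide +kernel
def p13_20_0_272 : pfC (piC [(nat_lit 35404596), (nat_lit 22827826), (nat_lit 14696761)] (nat_lit 18838749)) p13_20_0 (nat_lit 3) (nat_lit 272) (nat_lit 273) = true := by decide +kernel
def p13_20_0_273 : pfC (piC [(nat_lit 35404596), (nat_lit 22827826), (nat_lit 14696761)] (nat_lit 18838749)) p13_20_0 (nat_lit 3) (nat_lit 273) (nat_lit 274) = true := by decide +kernel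
def p13_20_0_274 : pfC (piC [(nat_lit 35404596), (nat_lit 22827826), (nat_lit 14696761)] (nat_lit 18838749)) p13_20_0 (nat_lit 3) (nat_lit 274) (nat_lit 275) = true := by decide +kernel
def p13_20_0_275 : pfC (piC [(nat_lit 35404596), (nat_lit 22827826), (nat_lit 14696761)] (nat_lit 18838749)) p13_20_0 (nat_lit 3) (nat_lit 275) (nat_lit 276) = true := by decide +kernel
def p13_20_0_276 : pfC (piC [(nat_lit 35404596), (nat_lit 22827826), (nat_lit 14696761)] (nat_lit 18838749)) p13_20_0 (nat_lit 3) (nat_lit 276) (nat_lit 277) = true := by decide +kernel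
def p13_20_0_277 : pfC (piC [(nat_lit 35404596), (nat_lit 22827826), (nat_lit 14696761)] (nat_lit 18838749)) p13_20_0 (nat_lit 3) (nat_lit 277) (nat_lit 278) = true := by decide +kernel
def p13_20_0_278 : pfC (piC [(nat_lit 35404596), (nat_lit 22827826), (nat_lit 14696761)] (nat_lit 18838749)) p13_20_0 (nat_lit 3) (nat_lit 278) (nat_lit 279) = true := by decide +kernel
def p13_20_0_279 : pfC (piC [(nat_lit 35404596), (nat_lit 22827826), (nat_lit 14696761)] (nat_lit 18838749)) p13_20_0 (nat_lit 3) (nat_lit 279) (nat_lit 280) = true := by decide +kernel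
def p13_20_0_280 : pfC (piC [(nat_lit 35404596), (nat_lit 22827826), (nat_lit 14696761)] (nat_lit 18838749)) p13_20_0 (nat_lit 3) (nat_lit 280) (nat_lit 281) = true := by decide +kernel
def p13_20_0_281 : pfC (piC [(nat_lit 35404596), (nat_lit 22827826), (nat_lit 14696761)] (nat_lit 18838749)) p13_20_0 (nat_lit 3) (nat_lit 281) (nat_lit 282) = true := by decide +kernel
def p13_20_0_282 : pfC (piC [(nat_lit 35404596), (nat_lit 22827826), (nat_lit 14696761)] (nat_lit 18838749)) p13_20_0 (nat_lit 3) (nat_lit 282) (nat_lit 283) = true := by decide +kernel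
def p13_20_0_283 : pfC (piC [(nat_lit 35404596), (nat_lit 22827826), (nat_lit 14696761)] (nat_lit 18838749)) p13_20_0 (nat_lit 3) (nat_lit 283) (nat_lit 284) = true := by decide +kernel
def p13_20_0_284 : pfC (piC [(nat_lit 35404596), (nat_lit 22827826), (nat_lit 14696761)] (nat_lit 18838749)) p13_20_0 (nat_lit 3) (nat_lit 284) (nat_lit 285) = true := by decide +kernel
def p13_20_0_285 : pfC (piC [(nat_lit 35404596), (nat_lit 22827826), (nat_lit 14696761)] (nat_lit 18838749)) p13_20_0 (nat_lit 3) (nat_lit 285) (nat_lit 286) = true := by decide +kernel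
def p13_20_0_286 : pfC (piC [(nat_lit 35404596), (nat_lit 22827826), (nat_lit 14696761)] (nat_lit 18838749)) p13_20_0 (nat_lit 3) (nat_lit 286) (nat_lit 287) = true := by decide +kernel
def p13_20_0_287 : pfC (piC [(nat_lit 35404596), (nat_lit 22827826), (nat_lit 14696761)] (nat_lit 18838749)) p13_20_0 (nat_lit 3) (nat_lit 287) (nat_lit 288) = true := by decide +kernel
def p13_20_0_288 : pfC (piC [(nat_lit 35404596), (nat_lit 22827826), (nat_lit 14696761)] (nat_lit 18838749)) p13_20_0 (nat_lit 3) (nat_lit 288) (nat_lit 289) = true := by decide +kernel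
def p13_20_0_289 : pfC (piC [(nat_lit 35404596), (nat_lit 22827826), (nat_lit 14696761)] (nat_lit 18838749)) p13_20_0 (nat_lit 3) (nat_lit 289) (nat_lit 290) = true := by decide +kernel
def p13_20_0_290 : pfC (piC [(nat_lit 35404596), (nat_lit 22827826), (nat_lit 14696761)] (nat_lit 18838749)) p13_20_0 (nat_lit 3) (nat_lit 290) (nat_lit 291) = true := by decide +kernel
def p13_20_0_291 : pfC (piC [(nat_lit 35404596), (nat_lit 22827826), (nat_lit 14696761)] (nat_lit 18838749)) p13_20_0 (nat_lit 3) (nat_lit 291) (nat_lit 292) = true := by decide +kernel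
def p13_20_0_292 : pfC (piC [(nat_lit 35404596), (nat_lit 22827826), (nat_lit 14696761)] (nat_lit 18838749)) p13_20_0 (nat_lit 3) (nat_lit 292) (nat_lit 293) = true := by decide +kernel
def p13_20_0_293 : pfC (piC [(nat_lit 35404596), (nat_lit 22827826), (nat_lit 14696761)] (nat_lit 18838749)) p13_20_0 (nat_lit 3) (nat_lit 293) (nat_lit 294) = true := by decide +kernel
def p13_20_0_294 : pfC (piC [(nat_lit 35404596), (nat_lit 22827826), (nat_lit 14696761)] (nat_lit 18838749)) p13_20_0 (nat_lit 3) (nat_lit 294) (nat_lit 295) = true := by decide +kernel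
def p13_20_0_295 : pfC (piC [(nat_lit 35404596), (nat_lit 22827826), (nat_lit 14696761)] (nat_lit 18838749)) p13_20_0 (nat_lit 3) (nat_lit 295) (nat_lit 296) = true := by decide +kernel
def p13_20_0_296 : pfC (piC [(nat_lit 35404596), (nat_lit 22827826), (nat_lit 14696761)] (nat_lit 18838749)) p13_20_0 (nat_lit 3) (nat_lit 296) (nat_lit 297) = true := by decide +kernel
def p13_20_0_297 : pfC (piC [(nat_lit 35404596), (nat_lit 22827826), (nat_lit 14696761)] (nat_lit 18838749)) p13_20_0 (nat_lit 3) (nat_lit 297) (nat_lit 298) = true := by decide +kernel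
def p13_20_0_298 : pfC (piC [(nat_lit 35404596), (nat_lit 22827826), (nat_lit 14696761)] (nat_lit 18838749)) p13_20_0 (nat_lit 3) (nat_lit 298) (nat_lit 299) = true := by decide +kernel
def p13_20_0_299 : pfC (piC [(nat_lit 35404596), (nat_lit 22827826), (nat_lit 14696761)] (nat_lit 18838749)) p13_20_0 (nat_lit 3) (nat_lit 299) (nat_lit 300) = true := by decide +kernel
def p13_20_0_300 : pfC (piC [(nat_lit 35404596), (nat_lit 22827826), (nat_lit 14696761)] (nat_lit 18838749)) p13_20_0 (nat_lit 3) (nat_lit 300) (nat_lit 301) = true := by decide +kernel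
def p13_20_0_301 : pfC (piC [(nat_lit 35404596), (nat_lit 22827826), (nat_lit 14696761)] (nat_lit 18838749)) p13_20_0 (nat_lit 3) (nat_lit 301) (nat_lit 302) = true := by decide +kernel
def p13_20_0_302 : pfC (piC [(nat_lit 35404596), (nat_lit 22827826), (nat_lit 14696761)] (nat_lit 18838749)) p13_20_0 (nat_lit 3) (nat_lit 302) (nat_lit 303) = true := by decide +kernel
def p13_20_0_303 : pfC (piC [(nat_lit 35404596), (nat_lit 22827826), (nat_lit 14696761)] (nat_lit 18838749)) p13_20_0 (nat_lit 3) (nat_lit 303) (nat_lit 304) = true := by decide +kernel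
theorem p13_20_0_T : PfS (PiF n13_20.reverse (nat_lit 18838749)) p13_20_0 (nat_lit 3) [] 0 :=
  pftab_of (los := [(nat_lit 35404596), (nat_lit 22827826), (nat_lit 14696761)]) (by decide +kernel) (hi := (nat_lit 304)) (PfP.trans (PfP.trans (PfP.trans (PfP.trans (PfP.trans (PfP.trans (PfP.trans (PfP.trans (PfP.trans (PfP.trans (PfP.trans (PfP.trans (PfP.trans (PfP.trans (PfP.trans (PfP.trans (PfP.trans (PfP.trans (PfP.trans (PfP.trans (PfP.trans (PfP.trans (PfP.trans (PfP.trans (PfP.trans (PfP.trans (PfP.trans (PfP.trans (PfP.trans (PfP.trans (PfP.trans (PfP.trans (PfP.trans (PfP.trans (PfP.trans (PfP.trans (PfP.trans (PfP.trans (PfP.trans (PfP.trans (PfP.trans (PfP.trans (PfP.trans (PfP.trans (PfP.trans (PfP.trans (PfP.trans (PfP.trans (PfP.trans (PfP.trans (PfP.trans (PfP.trans (PfP.trans (PfP.trans (PfP.trans (PfP.trans (PfP.trans (PfP.trans (PfP.trans (PfP.trans (PfP.trans (PfP.trans (PfP.trans (PfP.trans (PfP.trans (PfP.trans (PfP.trans (PfP.trans (PfP.trans (PfP.trans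 (PfP.trans (PfP.trans (PfP.trans (PfP.trans (PfP.trans (PfP.trans (PfP.trans (PfP.trans (PfP.trans (PfP.trans (PfP.trans (PfP.trans (PfP.trans (PfP.trans (PfP.trans (PfP.trans (PfP.trans (PfP.trans (PfP.trans (PfP.trans (PfP.trans (PfP.trans (PfP.trans (PfP.trans (PfP.trans (PfP.trans (PfP.trans (PfP.trans (PfP.trans (PfP.trans (PfP.trans (PfP.trans (PfP.trans (PfP.trans (PfP.trans (PfP.trans (PfP.trans (PfP.trans (PfP.trans
 (PfP.trans (PfP.trans (PfP.trans (PfP.trans (PfP.trans (PfP.trans (PfP.trans (PfP.trans (PfP.trans (PfP.trans (PfP.trans (PfP.trans (PfP.trans (PfP.trans (PfP.trans (PfP.trans (PfP.trans (PfP.trans (PfP.trans (PfP.trans (PfP.trans (PfP.trans (PfP.trans (PfP.trans (PfP.trans (PfP.trans (PfP.trans (PfP.trans (PfP.trans (PfP.trans (PfP.trans (PfP.trans (PfP.trans (PfP.trans (PfP.trans (PfP.trans (PfP.trans (PfP.trans (PfP.trans (PfP.trans (PfP.trans (PfP.trans (PfP.trans (PfP.trans (PfP.trans (PfP.trans (PfP.trans (PfP.trans (PfP.trans (PfP.trans (PfP.trans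 (PfP.trans (PfP.trans (PfP.trans (PfP.trans (PfP.trans (PfP.trans (PfP.trans (PfP.trans (PfP.trans (PfP.trans (PfP.trans (PfP.trans (PfP.trans (PfP.trans (PfP.trans (PfP.trans (PfP.trans (PfP.trans (PfP.trans (PfP.trans (PfP.trans (PfP.trans (PfP.trans (PfP.trans (PfP.trans (PfP.trans (PfP.trans (PfP.trans (PfP.trans (PfP.trans (PfP.trans (PfP.trans (PfP.trans (PfP.trans (PfP.trans (PfP.trans (PfP.trans (PfP.trans (PfP.trans (PfP.trans (PfP.trans (PfP.trans (PfP.trans (PfP.trans (PfP.trans (PfP.trans (PfP.trans (PfP.trans (PfP.trans (PfP.trans (PfP.trans (PfP.trans (PfP.trans (PfP.trans (PfP.trans (PfP.trans (PfP.trans (PfP.trans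
 (PfP.trans (PfP.trans (PfP.trans (PfP.trans (PfP.trans (PfP.trans (PfP.trans (PfP.trans (PfP.trans (PfP.trans (PfP.trans (PfP.trans (PfP.trans (PfP.trans (PfP.trans (PfP.trans (PfP.trans (PfP.trans (PfP.trans (PfP.trans (PfP.trans (PfP.trans (PfP.trans (PfP.trans (PfP.trans (PfP.trans (PfP.trans (PfP.trans (PfP.trans (PfP.trans (PfP.trans (PfP.trans (PfP.trans (PfP.trans (PfP.trans (PfP.trans (PfP.trans (PfP.trans (PfP.trans (PfP.trans (PfP.trans (PfP.trans (PfP.trans (PfP.trans (PfP.trans (PfP.trans (PfP.trans (PfP.trans (PfP.trans (PfP.trans (PfP.trans (PfP.trans (PfP.trans (PfP.trans (PfP.trans (PfP.trans (PfP.trans (PfP.trans (PfP.trans (PfP.trans (PfP.trans (PfP.trans (PfP.trans (PfP.trans (PfP.trans (PfP.trans (PfP.trans (PfP.trans (PfP.trans (PfP.trans (PfP.trans (PfP.trans (PfP.trans (PfP.trans (PfP.trans (PfP.trans (PfP.trans (PfP.trans (PfP.trans (PfP.trans (PfP.trans (PfP.trans (PfP.trans (PfP.trans (PfP.trans (pfC_sound p13_20_0_0) (pfC_sound p13_20_0_1))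 (pfC_sound p13_20_0_2)) (pfC_sound p13_20_0_3)) (pfC_sound p13_20_0_4)) (pfC_sound p13_20_0_5)) (pfC_sound p13_20_0_6)) (pfC_sound p13_20_0_7)) (pfC_sound p13_20_0_8)) (pfC_sound p13_20_0_9)) (pfC_sound p13_20_0_10))
 (pfC_sound p13_20_0_11)) (pfC_sound p13_20_0_12)) (pfC_sound p13_20_0_13)) (pfC_sound p13_20_0_14)) (pfC_sound p13_20_0_15)) (pfC_sound p13_20_0_16)) (pfC_sound p13_20_0_17)) (pfC_sound p13_20_0_18)) (pfC_sound p13_20_0_19)) (pfC_sound p13_20_0_20)) (pfC_sound p13_20_0_21)) (pfC_sound p13_20_0_22)) (pfC_sound p13_20_0_23)) (pfC_sound p13_20_0_24)) (pfC_sound p13_20_0_25)) (pfC_sound p13_20_0_26)) (pfC_sound p13_20_0_27)) (pfC_sound p13_20_0_28)) (pfC_sound p13_20_0_29)) (pfC_sound p13_20_0_30)) (pfC_sound p13_20_0_31)) (pfC_sound p13_20_0_32)) (pfC_sound p13_20_0_33)) (pfC_sound p13_20_0_34)) (pfC_sound p13_20_0_35)) (pfC_sound p13_20_0_36)) (pfC_sound p13_20_0_37)) (pfC_sound p13_20_0_38)) (pfC_sound p13_20_0_39)) (pfC_sound p13_20_0_40)) (pfC_sound p13_20_0_41))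 (pfC_sound p13_20_0_42)) (pfC_sound p13_20_0_43)) (pfC_sound p13_20_0_44)) (pfC_sound p13_20_0_45)) (pfC_sound p13_20_0_46)) (pfC_sound p13_20_0_47)) (pfC_sound p13_20_0_48)) (pfC_sound p13_20_0_49)) (pfC_sound p13_20_0_50)) (pfC_sound p13_20_0_51)) (pfC_sound p13_20_0_52)) (pfC_sound p13_20_0_53)) (pfC_sound p13_20_0_54)) (pfC_sound p13_20_0_55)) (pfC_sound p13_20_0_56)) (pfC_sound p13_20_0_57)) (pfC_sound p13_20_0_58))
 (pfC_sound p13_20_0_59)) (pfC_sound p13_20_0_60)) (pfC_sound p13_20_0_61)) (pfC_sound p13_20_0_62)) (pfC_sound p13_20_0_63)) (pfC_sound p13_20_0_64)) (pfC_sound p13_20_0_65)) (pfC_sound p13_20_0_66)) (pfC_sound p13_20_0_67)) (pfC_sound p13_20_0_68)) (pfC_sound p13_20_0_69)) (pfC_sound p13_20_0_70)) (pfC_sound p13_20_0_71)) (pfC_sound p13_20_0_72)) (pfC_sound p13_20_0_73)) (pfC_sound p13_20_0_74)) (pfC_sound p13_20_0_75)) (pfC_sound p13_20_0_76)) (pfC_sound p13_20_0_77)) (pfC_sound p13_20_0_78)) (pfC_sound p13_20_0_79)) (pfC_sound p13_20_0_80)) (pfC_sound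 p13_20_0_81)) (pfC_sound p13_20_0_82)) (pfC_sound p13_20_0_83)) (pfC_sound p13_20_0_84)) (pfC_sound p13_20_0_85)) (pfC_sound p13_20_0_86)) (pfC_sound p13_20_0_87)) (pfC_sound p13_20_0_88)) (pfC_sound p13_20_0_89)) (pfC_sound p13_20_0_90)) (pfC_sound p13_20_0_91)) (pfC_sound p13_20_0_92)) (pfC_sound p13_20_0_93)) (pfC_sound p13_20_0_94)) (pfC_sound p13_20_0_95)) (pfC_sound p13_20_0_96)) (pfC_sound p13_20_0_97)) (pfC_sound p13_20_0_98)) (pfC_sound p13_20_0_99)) (pfC_sound p13_20_0_100)) (pfC_sound p13_20_0_101)) (pfC_sound p13_20_0_102)) (pfC_sound p13_20_0_103)) (pfC_sound p13_20_0_104)) (pfC_sound p13_20_0_105)) (pfC_sound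
 p13_20_0_106)) (pfC_sound p13_20_0_107)) (pfC_sound p13_20_0_108)) (pfC_sound p13_20_0_109)) (pfC_sound p13_20_0_110)) (pfC_sound p13_20_0_111)) (pfC_sound p13_20_0_112)) (pfC_sound p13_20_0_113)) (pfC_sound p13_20_0_114)) (pfC_sound p13_20_0_115)) (pfC_sound p13_20_0_116)) (pfC_sound p13_20_0_117)) (pfC_sound p13_20_0_118)) (pfC_sound p13_20_0_119)) (pfC_sound p13_20_0_120)) (pfC_sound p13_20_0_121)) (pfC_sound p13_20_0_122)) (pfC_sound p13_20_0_123)) (pfC_sound p13_20_0_124)) (pfC_sound p13_20_0_125)) (pfC_sound p13_20_0_126)) (pfC_sound p13_20_0_127)) (pfC_sound p13_20_0_128)) (pfC_sound p13_20_0_129)) (pfC_sound p13_20_0_130)) (pfC_sound p13_20_0_131)) (pfC_sound p13_20_0_132)) (pfC_sound p13_20_0_133)) (pfC_sound p13_20_0_134)) (pfC_sound p13_20_0_135)) (pfC_sound p13_20_0_136)) (pfC_sound p13_20_0_137)) (pfC_sound p13_20_0_138)) (pfC_sound p13_20_0_139)) (pfC_sound p13_20_0_140)) (pfC_sound p13_20_0_141)) (pfC_sound p13_20_0_142)) (pfC_sound p13_20_0_143)) (pfC_sound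 p13_20_0_144)) (pfC_sound p13_20_0_145)) (pfC_sound p13_20_0_146)) (pfC_sound p13_20_0_147)) (pfC_sound p13_20_0_148)) (pfC_sound p13_20_0_149)) (pfC_sound p13_20_0_150)) (pfC_sound p13_20_0_151)) (pfC_sound
 p13_20_0_152)) (pfC_sound p13_20_0_153)) (pfC_sound p13_20_0_154)) (pfC_sound p13_20_0_155)) (pfC_sound p13_20_0_156)) (pfC_sound p13_20_0_157)) (pfC_sound p13_20_0_158)) (pfC_sound p13_20_0_159)) (pfC_sound p13_20_0_160)) (pfC_sound p13_20_0_161)) (pfC_sound p13_20_0_162)) (pfC_sound p13_20_0_163)) (pfC_sound p13_20_0_164)) (pfC_sound p13_20_0_165)) (pfC_sound p13_20_0_166)) (pfC_sound p13_20_0_167)) (pfC_sound p13_20_0_168)) (pfC_sound p13_20_0_169)) (pfC_sound p13_20_0_170)) (pfC_sound p13_20_0_171)) (pfC_sound p13_20_0_172)) (pfC_sound p13_20_0_173)) (pfC_sound p13_20_0_174)) (pfC_sound p13_20_0_175)) (pfC_sound p13_20_0_176)) (pfC_sound p13_20_0_177)) (pfC_sound p13_20_0_178)) (pfC_sound p13_20_0_179)) (pfC_sound p13_20_0_180)) (pfC_sound p13_20_0_181)) (pfC_sound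 p13_20_0_182)) (pfC_sound p13_20_0_183)) (pfC_sound p13_20_0_184)) (pfC_sound p13_20_0_185)) (pfC_sound p13_20_0_186)) (pfC_sound p13_20_0_187)) (pfC_sound p13_20_0_188)) (pfC_sound p13_20_0_189)) (pfC_sound p13_20_0_190)) (pfC_sound p13_20_0_191)) (pfC_sound p13_20_0_192)) (pfC_sound p13_20_0_193)) (pfC_sound p13_20_0_194)) (pfC_sound p13_20_0_195)) (pfC_sound p13_20_0_196)) (pfC_sound p13_20_0_197)) (pfC_sound
 p13_20_0_198)) (pfC_sound p13_20_0_199)) (pfC_sound p13_20_0_200)) (pfC_sound p13_20_0_201)) (pfC_sound p13_20_0_202)) (pfC_sound p13_20_0_203)) (pfC_sound p13_20_0_204)) (pfC_sound p13_20_0_205)) (pfC_sound p13_20_0_206)) (pfC_sound p13_20_0_207)) (pfC_sound p13_20_0_208)) (pfC_sound p13_20_0_209)) (pfC_sound p13_20_0_210)) (pfC_sound p13_20_0_211)) (pfC_sound p13_20_0_212)) (pfC_sound p13_20_0_213)) (pfC_sound p13_20_0_214)) (pfC_sound p13_20_0_215)) (pfC_sound p13_20_0_216)) (pfC_sound p13_20_0_217)) (pfC_sound p13_20_0_218)) (pfC_sound p13_20_0_219)) (pfC_sound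 p13_20_0_220)) (pfC_sound p13_20_0_221)) (pfC_sound p13_20_0_222)) (pfC_sound p13_20_0_223)) (pfC_sound p13_20_0_224)) (pfC_sound p13_20_0_225)) (pfC_sound p13_20_0_226)) (pfC_sound p13_20_0_227)) (pfC_sound p13_20_0_228)) (pfC_sound p13_20_0_229)) (pfC_sound p13_20_0_230)) (pfC_sound p13_20_0_231)) (pfC_sound p13_20_0_232)) (pfC_sound p13_20_0_233)) (pfC_sound p13_20_0_234)) (pfC_sound p13_20_0_235)) (pfC_sound p13_20_0_236)) (pfC_sound p13_20_0_237)) (pfC_sound p13_20_0_238)) (pfC_sound p13_20_0_239)) (pfC_sound p13_20_0_240)) (pfC_sound p13_20_0_241)) (pfC_sound p13_20_0_242)) (pfC_sound p13_20_0_243)) (pfC_sound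
 p13_20_0_244)) (pfC_sound p13_20_0_245)) (pfC_sound p13_20_0_246)) (pfC_sound p13_20_0_247)) (pfC_sound p13_20_0_248)) (pfC_sound p13_20_0_249)) (pfC_sound p13_20_0_250)) (pfC_sound p13_20_0_251)) (pfC_sound p13_20_0_252)) (pfC_sound p13_20_0_253)) (pfC_sound p13_20_0_254)) (pfC_sound p13_20_0_255)) (pfC_sound p13_20_0_256)) (pfC_sound p13_20_0_257)) (pfC_sound p13_20_0_258)) (pfC_sound p13_20_0_259)) (pfC_sound p13_20_0_260)) (pfC_sound p13_20_0_261)) (pfC_sound p13_20_0_262)) (pfC_sound p13_20_0_263)) (pfC_sound p13_20_0_264)) (pfC_sound p13_20_0_265)) (pfC_sound p13_20_0_266)) (pfC_sound p13_20_0_267)) (pfC_sound p13_20_0_268)) (pfC_sound p13_20_0_269)) (pfC_sound p13_20_0_270)) (pfC_sound p13_20_0_271)) (pfC_sound p13_20_0_272)) (pfC_sound p13_20_0_273)) (pfC_sound p13_20_0_274)) (pfC_sound p13_20_0_275)) (pfC_sound p13_20_0_276)) (pfC_sound p13_20_0_277)) (pfC_sound p13_20_0_278)) (pfC_sound p13_20_0_279)) (pfC_sound p13_20_0_280)) (pfC_sound p13_20_0_281)) (pfC_sound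 p13_20_0_282)) (pfC_sound p13_20_0_283)) (pfC_sound p13_20_0_284)) (pfC_sound p13_20_0_285)) (pfC_sound p13_20_0_286)) (pfC_sound p13_20_0_287)) (pfC_sound p13_20_0_288)) (pfC_sound p13_20_0_289)) (pfC_sound
 p13_20_0_290)) (pfC_sound p13_20_0_291)) (pfC_sound p13_20_0_292)) (pfC_sound p13_20_0_293)) (pfC_sound p13_20_0_294)) (pfC_sound p13_20_0_295)) (pfC_sound p13_20_0_296)) (pfC_sound p13_20_0_297)) (pfC_sound p13_20_0_298)) (pfC_sound p13_20_0_299)) (pfC_sound p13_20_0_300)) (pfC_sound p13_20_0_301)) (pfC_sound p13_20_0_302)) (pfC_sound p13_20_0_303)) (by decide +kernel)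

def z13_20_0 : zOK yB13_20 (nat_lit 0) (nat_lit 0) (nat_lit 400) (nat_lit 18838749) (nat_lit 11551828) = true := by decide +kernel
def g13_20_0 : gOK yB13_20.x P13_20 (nat_lit 1368) (q13_20 :: r13_20) (nat_lit 0) (nat_lit 0) (nat_lit 1) (nat_lit 400) (nat_lit 0) (nat_lit 11000000) (nat_lit 12712500) (nat_lit 12712500) [(nat_lit 800), (nat_lit 1600)] = true := by decide +kernel
def v13_20_0 : ivC P13_20 s13_20 w13_20 n13_20 (nat_lit 3) (nat_lit 5260) (nat_lit 0) (nat_lit 0) f184_0_0 f192_0_0 (nat_lit 1) (nat_lit 400) f184_0_400 f192_0_400 (nat_lit 18838749) (nat_lit 11551828) p13_20_0 = true := by decide +kernel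
def p13_20_1 : PF := (PF.cons (PF.cons (PF.cons (PF.leaf (nat_lit 1955819) (nat_lit 8893798) (nat_lit 58215014) (nat_lit 8893798) [(nat_lit 0), (nat_lit 0), (nat_lit 0)]) (PF.cons (PF.leaf (nat_lit 2200833) (nat_lit 448497) (nat_lit 57720154) (nat_lit 8940161) [(nat_lit 448497), (nat_lit 0), (nat_lit 0)]) (PF.cons (PF.leaf (nat_lit 2489281) (nat_lit 488398) (nat_lit 57143515) (nat_lit 8988500) [(nat_lit 488398), (nat_lit 0), (nat_lit 0)]) (PF.cons (PF.leaf (nat_lit 2813015) (nat_lit 523779) (nat_lit 56501839) (nat_lit 9035634) [(nat_lit 523779), (nat_lit 0), (nat_lit 0)]) (PF.cons (PF.leaf (nat_lit 3166553) (nat_lit 555532) (nat_lit 55807374) (nat_lit 9079307) [(nat_lit 555532), (nat_lit 0), (nat_lit 0)]) (PF.cons (PF.leaf (nat_lit 3545483) (nat_lit 584210) (nat_lit 55069849) (nat_lit 9117909) [(nat_lit 584210), (nat_lit 0), (nat_lit 0)]) (PF.cons (PF.leaf (nat_lit 3946073) (nat_lit 610187) (nat_lit 54297370) (nat_lit 9150317) [(nat_lit 610187), (nat_lit 0), (nat_lit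 0)]) (PF.cons (PF.leaf (nat_lit 4365070) (nat_lit 633732) (nat_lit 53496892) (nat_lit 9175790) [(nat_lit 633732), (nat_lit 0), (nat_lit 0)]) (PF.cons (PF.leaf (nat_lit 4799561) (nat_lit 655056) (nat_lit 52674479) (nat_lit 9193883)
 [(nat_lit 655056), (nat_lit 0), (nat_lit 0)]) (PF.cons (PF.leaf (nat_lit 5246965) (nat_lit 674327) (nat_lit 51835473) (nat_lit 9204388) [(nat_lit 674327), (nat_lit 0), (nat_lit 0)]) (PF.cons (PF.leaf (nat_lit 5704879) (nat_lit 691693) (nat_lit 50984595) (nat_lit 9207281) [(nat_lit 691693), (nat_lit 0), (nat_lit 0)]) (PF.cons (PF.leaf (nat_lit 6171160) (nat_lit 707282) (nat_lit 50126023) (nat_lit 9202679) [(nat_lit 707282), (nat_lit 0), (nat_lit 0)]) (PF.cons (PF.leaf (nat_lit 6643853) (nat_lit 721212) (nat_lit 49263451) (nat_lit 9190808) [(nat_lit 721212), (nat_lit 0), (nat_lit 0)]) (PF.cons (PF.leaf (nat_lit 7121237) (nat_lit 733592) (nat_lit 48400133) (nat_lit 9171976) [(nat_lit 733592), (nat_lit 0), (nat_lit 0)]) (PF.cons (PF.leaf (nat_lit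 7601672) (nat_lit 744524) (nat_lit 47538925) (nat_lit 9146545) [(nat_lit 744524), (nat_lit 0), (nat_lit 0)]) (PF.cons PF.nil (PF.cons PF.nil (PF.cons PF.nil PF.nil)))))))))))))))))) (PF.cons (PF.cons (PF.leaf (nat_lit 2794338) (nat_lit 2159814) (nat_lit 55893856) (nat_lit 9055142) [(nat_lit 0), (nat_lit 2159814), (nat_lit 0)]) (PF.cons (PF.leaf (nat_lit 3108936) (nat_lit 543125) (nat_lit 55263775) (nat_lit 9089779) [(nat_lit 543125), (nat_lit
 2212132), (nat_lit 0)]) (PF.cons (PF.leaf (nat_lit 3455113) (nat_lit 573145) (nat_lit 54578964) (nat_lit 9121137) [(nat_lit 573145), (nat_lit 2262419), (nat_lit 0)]) (PF.cons (PF.leaf (nat_lit 3827150) (nat_lit 600058) (nat_lit 53851235) (nat_lit 9147701) [(nat_lit 600058), (nat_lit 2309701), (nat_lit 0)]) (PF.cons (PF.leaf (nat_lit 4220799) (nat_lit 624300) (nat_lit 53089684) (nat_lit 9168462) [(nat_lit 624300), (nat_lit 2353463), (nat_lit 0)]) (PF.cons (PF.leaf (nat_lit 4632556) (nat_lit 646172) (nat_lit 52301717) (nat_lit 9182781)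 [(nat_lit 646172), (nat_lit 2393452), (nat_lit 0)]) (PF.cons (PF.leaf (nat_lit 5059417) (nat_lit 665897) (nat_lit 51493560) (nat_lit 9190295) [(nat_lit 665897), (nat_lit 2429570), (nat_lit 0)]) (PF.cons (PF.leaf (nat_lit 5498710) (nat_lit 683654) (nat_lit 50670551) (nat_lit 9190856) [(nat_lit 683654), (nat_lit 2461823), (nat_lit 0)]) (PF.cons (PF.leaf (nat_lit 5948075) (nat_lit 699592) (nat_lit 49837314) (nat_lit 9184476) [(nat_lit 699592), (nat_lit 2490281), (nat_lit 0)]) (PF.cons (PF.leaf (nat_lit 6405396) (nat_lit 713841) (nat_lit 48997878) (nat_lit 9171295) [(nat_lit 713841), (nat_lit 2515060), (nat_lit 0)]) (PF.cons (PF.leaf (nat_lit 6868796)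
 (nat_lit 726520) (nat_lit 48155759) (nat_lit 9151545) [(nat_lit 726520), (nat_lit 2536306), (nat_lit 0)]) (PF.cons (PF.leaf (nat_lit 7336546) (nat_lit 737734) (nat_lit 47314022) (nat_lit 9125524) [(nat_lit 737734), (nat_lit 2554184), (nat_lit 0)]) (PF.cons (PF.leaf (nat_lit 7807162) (nat_lit 747585) (nat_lit 46475331) (nat_lit 9093582) [(nat_lit 747585), (nat_lit 2568872), (nat_lit 0)]) (PF.cons PF.nil (PF.cons PF.nil (PF.cons PF.nil PF.nil)))))))))))))))) (PF.cons (PF.cons (PF.leaf (nat_lit 3743016) (nat_lit 2311819) (nat_lit 53340036) (nat_lit 9145137) [(nat_lit 0), (nat_lit 2311819), (nat_lit 0)]) (PF.cons (PF.leaf (nat_lit 4105078) (nat_lit 612823) (nat_lit 52630846) (nat_lit 9160855) [(nat_lit 612823), (nat_lit 2352144), (nat_lit 0)]) (PF.cons (PF.leaf (nat_lit 4489821) (nat_lit 635716) (nat_lit 51886923) (nat_lit 9171205) [(nat_lit 635716), (nat_lit 2389625), (nat_lit 0)]) (PF.cons (PF.leaf (nat_lit 4892936) (nat_lit 656221) (nat_lit 51116751) (nat_lit 9175614)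 [(nat_lit 656221), (nat_lit 2423891), (nat_lit 0)]) (PF.cons (PF.leaf (nat_lit 5311127) (nat_lit 674602) (nat_lit 50327081) (nat_lit 9173775) [(nat_lit 674602), (nat_lit 2454772), (nat_lit 0)]) (PF.cons (PF.leaf
 (nat_lit 5741597) (nat_lit 691062) (nat_lit 49523475) (nat_lit 9165581) [(nat_lit 691062), (nat_lit 2482221), (nat_lit 0)]) (PF.cons (PF.leaf (nat_lit 6181925) (nat_lit 705762) (nat_lit 48710618) (nat_lit 9151072) [(nat_lit 705762), (nat_lit 2506272), (nat_lit 0)]) (PF.cons (PF.leaf (nat_lit 6629993) (nat_lit 718841) (nat_lit 47892502) (nat_lit 9130399) [(nat_lit 718841), (nat_lit 2527009), (nat_lit 0)]) (PF.cons (PF.leaf (nat_lit 7083921) (nat_lit 730420) (nat_lit 47072551) (nat_lit 9103793) [(nat_lit 730420), (nat_lit 2544552), (nat_lit 0)]) (PF.cons (PF.leaf (nat_lit 7542046) (nat_lit 740607) (nat_lit 46253711) (nat_lit 9071546) [(nat_lit 740607), (nat_lit 2559045), (nat_lit 0)]) (PF.cons (PF.leaf (nat_lit 8002878) (nat_lit 749502) (nat_lit 45438513) (nat_lit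 9033987) [(nat_lit 749502), (nat_lit 2570645), (nat_lit 0)]) (PF.cons (PF.leaf (nat_lit 8465108) (nat_lit 757197) (nat_lit 44629127) (nat_lit 8991474) [(nat_lit 757197), (nat_lit 2579517), (nat_lit 0)]) (PF.cons PF.nil (PF.cons PF.nil PF.nil)))))))))))))) (PF.cons (PF.cons (PF.leaf (nat_lit 4755037) (nat_lit 2419261) (nat_lit 50691051) (nat_lit 9159977) [(nat_lit 0), (nat_lit 2419261), (nat_lit 0)]) (PF.cons (PF.leaf
 (nat_lit 5147582) (nat_lit 664040) (nat_lit 49943930) (nat_lit 9155702) [(nat_lit 664040), (nat_lit 2448379), (nat_lit 0)]) (PF.cons (PF.leaf (nat_lit 5555916) (nat_lit 681329) (nat_lit 49176775) (nat_lit 9145691) [(nat_lit 681329), (nat_lit 2474561), (nat_lit 0)]) (PF.cons (PF.leaf (nat_lit 5976741) (nat_lit 696703) (nat_lit 48395705) (nat_lit 9129871) [(nat_lit 696703), (nat_lit 2497708), (nat_lit 0)]) (PF.cons (PF.leaf (nat_lit 6407484) (nat_lit 710348) (nat_lit 47605670) (nat_lit 9108302) [(nat_lit 710348), (nat_lit 2517814), (nat_lit 0)]) (PF.cons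 (PF.leaf (nat_lit 6845945) (nat_lit 722417) (nat_lit 46810766) (nat_lit 9081142) [(nat_lit 722417), (nat_lit 2534938), (nat_lit 0)]) (PF.cons (PF.leaf (nat_lit 7290219) (nat_lit 733039) (nat_lit 46014426) (nat_lit 9048624) [(nat_lit 733039), (nat_lit 2549175), (nat_lit 0)]) (PF.cons (PF.leaf (nat_lit 7738635) (nat_lit 742326) (nat_lit 45219552) (nat_lit 9011026) [(nat_lit 742326), (nat_lit 2560648), (nat_lit 0)]) (PF.cons (PF.leaf (nat_lit 8189737) (nat_lit 750382) (nat_lit 44428601) (nat_lit 8968664) [(nat_lit 750382), (nat_lit 2569495), (nat_lit 0)]) (PF.cons (PF.leaf (nat_lit 8642233) (nat_lit 757298) (nat_lit 43643657) (nat_lit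
 8921871) [(nat_lit 757298), (nat_lit 2575864), (nat_lit 0)]) (PF.cons PF.nil (PF.cons PF.nil PF.nil)))))))))))) (PF.cons (PF.cons (PF.leaf (nat_lit 5795349) (nat_lit 2489522) (nat_lit 48043474) (nat_lit 9107250) [(nat_lit 0), (nat_lit 2489522), (nat_lit 0)]) (PF.cons (PF.leaf (nat_lit 6205345) (nat_lit 700697) (nat_lit 47287996) (nat_lit 9084879) [(nat_lit 700697), (nat_lit 2508809), (nat_lit 0)]) (PF.cons (PF.leaf (nat_lit 6625834) (nat_lit 713468) (nat_lit 46523070) (nat_lit 9057254) [(nat_lit 713468), (nat_lit 2525387), (nat_lit 0)]) (PF.cons (PF.leaf (nat_lit 7054263) (nat_lit 724683) (nat_lit 45753084) (nat_lit 9024544) [(nat_lit 724683), (nat_lit 2539283), (nat_lit 0)]) (PF.cons (PF.leaf (nat_lit 7488640) (nat_lit 734485) (nat_lit 44981606) (nat_lit 8986981) [(nat_lit 734485), (nat_lit 2550571), (nat_lit 0)]) (PF.cons (PF.leaf (nat_lit 7927252) (nat_lit 742995) (nat_lit 44211584) (nat_lit 8944836) [(nat_lit 742995), (nat_lit 2559353), (nat_lit 0)]) (PF.cons (PF.leaf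 (nat_lit 8368627) (nat_lit 750321) (nat_lit 43445470) (nat_lit 8898410) [(nat_lit 750321), (nat_lit 2565750), (nat_lit 0)]) (PF.cons (PF.leaf (nat_lit 8811479) (nat_lit 756557) (nat_lit 42685312) (nat_lit
 8848016) [(nat_lit 756557), (nat_lit 2569895), (nat_lit 0)]) (PF.cons PF.nil (PF.cons PF.nil PF.nil)))))))))) (PF.cons (PF.cons (PF.leaf (nat_lit 6838311) (nat_lit 2529412) (nat_lit 45462867) (nat_lit 8998881) [(nat_lit 0), (nat_lit 2529412), (nat_lit 0)]) (PF.cons (PF.leaf (nat_lit 7255997) (nat_lit 725730) (nat_lit 44719436) (nat_lit 8961498) [(nat_lit 725730), (nat_lit 2540429), (nat_lit 0)]) (PF.cons (PF.leaf (nat_lit 7680150) (nat_lit 734847) (nat_lit 43973969) (nat_lit 8919695) [(nat_lit 734847), (nat_lit 2549090), (nat_lit 0)]) (PF.cons (PF.leaf (nat_lit 8108795) (nat_lit 742699) (nat_lit 43229572) (nat_lit 8873741) [(nat_lit 742699), (nat_lit 2555480), (nat_lit 0)]) (PF.cons (PF.leaf (nat_lit 8540403) (nat_lit 749400) (nat_lit 42488771) (nat_lit 8823925) [(nat_lit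 749400), (nat_lit 2559702), (nat_lit 0)]) (PF.cons (PF.leaf (nat_lit 8973654) (nat_lit 755048) (nat_lit 41753638) (nat_lit 8770548) [(nat_lit 755048), (nat_lit 2561876), (nat_lit 0)]) (PF.cons (PF.leaf (nat_lit 9407426) (nat_lit 759734) (nat_lit 41025877) (nat_lit 8713914) [(nat_lit 759734), (nat_lit 2562123), (nat_lit 0)]) (PF.cons PF.nil PF.nil)))))))) (PF.cons (PF.cons (PF.leaf (nat_lit 7865915) (nat_lit
 2545043) (nat_lit 42991065) (nat_lit 8847485) [(nat_lit 0), (nat_lit 2545043), (nat_lit 0)]) (PF.cons (PF.leaf (nat_lit 8284179) (nat_lit 741509) (nat_lit 42273023) (nat_lit 8798406) [(nat_lit 741509), (nat_lit 2549312), (nat_lit 0)]) (PF.cons (PF.leaf (nat_lit 8705905) (nat_lit 747686) (nat_lit 41557955) (nat_lit 8745822) [(nat_lit 747686), (nat_lit 2551610), (nat_lit 0)]) (PF.cons (PF.leaf (nat_lit 9129553) (nat_lit 752838) (nat_lit 40848026) (nat_lit 8690024) [(nat_lit 752838), (nat_lit 2552041), (nat_lit 0)]) (PF.cons (PF.leaf (nat_lit 9553970) (nat_lit 757057)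 (nat_lit 40144987) (nat_lit 8631302) [(nat_lit 757057), (nat_lit 2550715), (nat_lit 0)]) (PF.cons PF.nil PF.nil)))))) (PF.cons (PF.cons (PF.leaf (nat_lit 8866138) (nat_lit 2541700) (nat_lit 40652282) (nat_lit 8664625) [(nat_lit 0), (nat_lit 2541700), (nat_lit 0)]) (PF.cons (PF.leaf (nat_lit 9279958) (nat_lit 749980) (nat_lit 39967721) (nat_lit 8606924) [(nat_lit 749980), (nat_lit 2540598), (nat_lit 0)]) (PF.cons (PF.leaf (nat_lit 9695030) (nat_lit 753810) (nat_lit 39289373) (nat_lit 8546579) [(nat_lit 753810), (nat_lit 2537891), (nat_lit 0)]) (PF.cons PF.nil PF.nil)))) (PF.cons (PF.cons (PF.leaf (nat_lit 9831478)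
 (nat_lit 2523816) (nat_lit 38458156) (nat_lit 8460122) [(nat_lit 0), (nat_lit 2523816), (nat_lit 0)]) (PF.cons (PF.leaf (nat_lit 10237437) (nat_lit 752738) (nat_lit 37811401) (nat_lit 8396437) [(nat_lit 752738), (nat_lit 2518529), (nat_lit 0)]) PF.nil)) (PF.cons PF.nil (PF.cons PF.nil (PF.cons PF.nil (PF.cons PF.nil PF.nil))))))))))))) (PF.cons (PF.cons (PF.cons (PF.leaf (nat_lit 3730840) (nat_lit 6482289) (nat_lit 51562116) (nat_lit 9064406) [(nat_lit 0), (nat_lit 0), (nat_lit 6482289)]) (PF.cons (PF.leaf (nat_lit 4051929) (nat_lit 580336) (nat_lit 50950757) (nat_lit 9071341) [(nat_lit 580336), (nat_lit 0), (nat_lit 6506378)]) (PF.cons (PF.leaf (nat_lit 4401277) (nat_lit 606815) (nat_lit 50293280) (nat_lit 9074178) [(nat_lit 606815), (nat_lit 0), (nat_lit 6527722)]) (PF.cons (PF.leaf (nat_lit 4772944) (nat_lit 629940) (nat_lit 49601358) (nat_lit 9072227) [(nat_lit 629940), (nat_lit 0), (nat_lit 6545404)]) (PF.cons (PF.leaf (nat_lit 5162736) (nat_lit 650300) (nat_lit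 48883664) (nat_lit 9065079) [(nat_lit 650300), (nat_lit 0), (nat_lit 6558867)]) (PF.cons (PF.leaf (nat_lit 5567258) (nat_lit 668296) (nat_lit 48146996) (nat_lit 9052532) [(nat_lit 668296), (nat_lit 0), (nat_lit
 6567802)]) (PF.cons (PF.leaf (nat_lit 5983716) (nat_lit 684221) (nat_lit 47396873) (nat_lit 9034538) [(nat_lit 684221), (nat_lit 0), (nat_lit 6572071)]) (PF.cons (PF.leaf (nat_lit 6409716) (nat_lit 698301) (nat_lit 46637871) (nat_lit 9011163) [(nat_lit 698301), (nat_lit 0), (nat_lit 6571664)]) (PF.cons (PF.leaf (nat_lit 6843194) (nat_lit 710719) (nat_lit 45873837) (nat_lit 8982561) [(nat_lit 710719), (nat_lit 0), (nat_lit 6566661)]) (PF.cons (PF.leaf (nat_lit 7282329) (nat_lit 721624) (nat_lit 45108029) (nat_lit 8948949) [(nat_lit 721624), (nat_lit 0), (nat_lit 6557209)]) (PF.cons (PF.leaf (nat_lit 7725549) (nat_lit 731150) (nat_lit 44343222) (nat_lit 8910586) [(nat_lit 731150), (nat_lit 0), (nat_lit 6543500)]) (PF.cons (PF.leaf (nat_lit 8171430) (nat_lit 739410)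 (nat_lit 43581776) (nat_lit 8867765) [(nat_lit 739410), (nat_lit 0), (nat_lit 6525759)]) (PF.cons (PF.leaf (nat_lit 8618726) (nat_lit 746506) (nat_lit 42825701) (nat_lit 8820797) [(nat_lit 746506), (nat_lit 0), (nat_lit 6504231)]) (PF.cons PF.nil (PF.cons PF.nil (PF.cons PF.nil PF.nil)))))))))))))))) (PF.cons (PF.cons (PF.leaf (nat_lit 4664206) (nat_lit 2378047) (nat_lit 49140252) (nat_lit 9053233) [(nat_lit 0), (nat_lit
 2378047), (nat_lit 6537279)]) (PF.cons (PF.leaf (nat_lit 5023814) (nat_lit 636916) (nat_lit 48473408) (nat_lit 9044207) [(nat_lit 636916), (nat_lit 2406416), (nat_lit 6547864)]) (PF.cons (PF.leaf (nat_lit 5403009) (nat_lit 656364) (nat_lit 47779016) (nat_lit 9030300) [(nat_lit 656364), (nat_lit 2432117), (nat_lit 6554649)]) (PF.cons (PF.leaf (nat_lit 5797603) (nat_lit 673407) (nat_lit 47064920) (nat_lit 9011370) [(nat_lit 673407), (nat_lit 2454964), (nat_lit 6557334)]) (PF.cons (PF.leaf (nat_lit 6204478) (nat_lit 688383) (nat_lit 46337169) (nat_lit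 8987409) [(nat_lit 688383), (nat_lit 2474911), (nat_lit 6555787)]) (PF.cons (PF.leaf (nat_lit 6621081) (nat_lit 701541) (nat_lit 45600600) (nat_lit 8958510) [(nat_lit 701541), (nat_lit 2491993), (nat_lit 6550002)]) (PF.cons (PF.leaf (nat_lit 7045237) (nat_lit 713076) (nat_lit 44859168) (nat_lit 8924839) [(nat_lit 713076), (nat_lit 2506291), (nat_lit 6540054)]) (PF.cons (PF.leaf (nat_lit 7475108) (nat_lit 723148) (nat_lit 44116158) (nat_lit 8886614) [(nat_lit 723148), (nat_lit 2517918), (nat_lit 6526081)]) (PF.cons (PF.leaf (nat_lit 7909074) (nat_lit 731891) (nat_lit 43374320) (nat_lit 8844090) [(nat_lit 731891), (nat_lit 2527003),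
 (nat_lit 6508264)]) (PF.cons (PF.leaf (nat_lit 8345736) (nat_lit 739422) (nat_lit 42635963) (nat_lit 8797549) [(nat_lit 739422), (nat_lit 2533687), (nat_lit 6486813)]) (PF.cons (PF.leaf (nat_lit 8783856) (nat_lit 745842) (nat_lit 41903031) (nat_lit 8747284) [(nat_lit 745842), (nat_lit 2538115), (nat_lit 6461954)]) (PF.cons PF.nil (PF.cons PF.nil (PF.cons PF.nil PF.nil)))))))))))))) (PF.cons (PF.cons (PF.leaf (nat_lit 5640234) (nat_lit 2446127) (nat_lit 46688191) (nat_lit 8986238) [(nat_lit 0), (nat_lit 2446127), (nat_lit 6542127)]) (PF.cons (PF.leaf (nat_lit 6023300) (nat_lit 676815) (nat_lit 46000257) (nat_lit 8961902) [(nat_lit 676815), (nat_lit 2465231), (nat_lit 6539374)]) (PF.cons (PF.leaf (nat_lit 6419668) (nat_lit 691058) (nat_lit 45297470) (nat_lit 8932879) [(nat_lit 691058), (nat_lit 2481787), (nat_lit 6532771)]) (PF.cons (PF.leaf (nat_lit 6826245) (nat_lit 703470) (nat_lit 44585224) (nat_lit 8899293) [(nat_lit 703470), (nat_lit 2495784), (nat_lit 6522314)])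 (PF.cons (PF.leaf (nat_lit 7240699) (nat_lit 714272) (nat_lit 43867767) (nat_lit 8861328) [(nat_lit 714272), (nat_lit 2507274), (nat_lit 6508077)]) (PF.cons (PF.leaf (nat_lit 7661067) (nat_lit 723639) (nat_lit
 43148526) (nat_lit 8819208) [(nat_lit 723639), (nat_lit 2516345), (nat_lit 6490192)]) (PF.cons (PF.leaf (nat_lit 8085684) (nat_lit 731712) (nat_lit 42430312) (nat_lit 8773185) [(nat_lit 731712), (nat_lit 2523106), (nat_lit 6468828)]) (PF.cons (PF.leaf (nat_lit 8513124) (nat_lit 738613) (nat_lit 41715444) (nat_lit 8723531) [(nat_lit 738613), (nat_lit 2527680), (nat_lit 6444183)]) (PF.cons (PF.leaf (nat_lit 8942148) (nat_lit 744446) (nat_lit 41005849) (nat_lit 8670526) [(nat_lit 744446), (nat_lit 2530198), (nat_lit 6416466)]) (PF.cons PF.nil (PF.cons PF.nil (PF.cons PF.nil PF.nil)))))))))))) (PF.cons (PF.cons (PF.leaf (nat_lit 6630759) (nat_lit 2485302) (nat_lit 44277445) (nat_lit 8871731) [(nat_lit 0), (nat_lit 2485302), (nat_lit 6503729)]) (PF.cons (PF.leaf (nat_lit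 7026322) (nat_lit 704161) (nat_lit 43591479) (nat_lit 8834262) [(nat_lit 704161), (nat_lit 2496547), (nat_lit 6489265)]) (PF.cons (PF.leaf (nat_lit 7430548) (nat_lit 714382) (nat_lit 42899350) (nat_lit 8792736) [(nat_lit 714382), (nat_lit 2505537), (nat_lit 6471350)]) (PF.cons (PF.leaf (nat_lit 7841098) (nat_lit 723170) (nat_lit 42204794) (nat_lit 8747389) [(nat_lit 723170), (nat_lit 2512334), (nat_lit 6450114)])
 (PF.cons (PF.leaf (nat_lit 8256201) (nat_lit 730683) (nat_lit 41510787) (nat_lit 8698478) [(nat_lit 730683), (nat_lit 2517031), (nat_lit 6425718)]) (PF.cons (PF.leaf (nat_lit 8674361) (nat_lit 737050) (nat_lit 40819735) (nat_lit 8646268) [(nat_lit 737050), (nat_lit 2519734), (nat_lit 6398350)]) (PF.cons (PF.leaf (nat_lit 9094329) (nat_lit 742382) (nat_lit 40133601) (nat_lit 8591031) [(nat_lit 742382), (nat_lit 2520559), (nat_lit 6368207)]) (PF.cons (PF.leaf (nat_lit 9514985) (nat_lit 746772) (nat_lit 39453993) (nat_lit 8533039) [(nat_lit 746772), (nat_lit 2519625),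 (nat_lit 6335495)]) (PF.cons PF.nil (PF.cons PF.nil PF.nil)))))))))) (PF.cons (PF.cons (PF.leaf (nat_lit 7616010) (nat_lit 2501365) (nat_lit 41953275) (nat_lit 8719667) [(nat_lit 0), (nat_lit 2501365), (nat_lit 6430409)]) (PF.cons (PF.leaf (nat_lit 8016127) (nat_lit 721799) (nat_lit 41284353) (nat_lit 8671726) [(nat_lit 721799), (nat_lit 2506147), (nat_lit 6406345)]) (PF.cons (PF.leaf (nat_lit 8421455) (nat_lit 728862) (nat_lit 40615131) (nat_lit 8620496) [(nat_lit 728862), (nat_lit 2509016), (nat_lit 6379394)]) (PF.cons (PF.leaf (nat_lit 8830228) (nat_lit 734791) (nat_lit 39948197) (nat_lit 8566245) [(nat_lit 734791),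
 (nat_lit 2510064), (nat_lit 6349736)]) (PF.cons (PF.leaf (nat_lit 9241092) (nat_lit 739702) (nat_lit 39285616) (nat_lit 8509243) [(nat_lit 739702), (nat_lit 2509395), (nat_lit 6317561)]) (PF.cons (PF.leaf (nat_lit 9652912) (nat_lit 743697) (nat_lit 38629051) (nat_lit 8449749) [(nat_lit 743697), (nat_lit 2507116), (nat_lit 6283061)]) (PF.cons PF.nil (PF.cons PF.nil PF.nil)))))))) (PF.cons (PF.cons (PF.leaf (nat_lit 8582487) (nat_lit 2499269) (nat_lit 39742523) (nat_lit 8539686) [(nat_lit 0), (nat_lit 2499269), (nat_lit 6330252)]) (PF.cons (PF.leaf (nat_lit 8981478) (nat_lit 731878) (nat_lit 39100036) (nat_lit 8483878) [(nat_lit 731878), (nat_lit 2498862), (nat_lit 6298707)]) (PF.cons (PF.leaf (nat_lit 9383148) (nat_lit 736451) (nat_lit 38461105) (nat_lit 8425540) [(nat_lit 736451), (nat_lit 2496880), (nat_lit 6264861)]) (PF.cons (PF.leaf (nat_lit 9786134) (nat_lit 740121) (nat_lit 37827509) (nat_lit 8364931) [(nat_lit 740121), (nat_lit 2493421), (nat_lit 6228902)]) (PF.cons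 PF.nil (PF.cons PF.nil PF.nil)))))) (PF.cons (PF.cons (PF.leaf (nat_lit 9521383) (nat_lit 2483166) (nat_lit 37659170) (nat_lit 8340246) [(nat_lit 0), (nat_lit 2483166), (nat_lit 6210396)]) (PF.cons (PF.leaf
 (nat_lit 9915283) (nat_lit 736078) (nat_lit 37048498) (nat_lit 8278881) [(nat_lit 736078), (nat_lit 2478678), (nat_lit 6173280)]) (PF.cons (PF.leaf (nat_lit 10310019) (nat_lit 738690) (nat_lit 36443819) (nat_lit 8215668) [(nat_lit 738690), (nat_lit 2472923), (nat_lit 6134403)]) (PF.cons PF.nil PF.nil)))) (PF.cons (PF.cons (PF.leaf (nat_lit 10427322) (nat_lit 2456464) (nat_lit 35708411) (nat_lit 8128346) [(nat_lit 0), (nat_lit 2456464), (nat_lit 6076806)]) (PF.cons PF.nil PF.nil)) (PF.cons PF.nil (PF.cons PF.nil (PF.cons PF.nil PF.nil))))))))))) (PF.cons (PF.cons (PF.cons (PF.leaf (nat_lit 5507415) (nat_lit 6453647) (nat_lit 45341586) (nat_lit 8859931) [(nat_lit 0), (nat_lit 0), (nat_lit 6453647)]) (PF.cons (PF.leaf (nat_lit 5860405) (nat_lit 648591) (nat_lit 44726656)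 (nat_lit 8834868) [(nat_lit 648591), (nat_lit 0), (nat_lit 6449348)]) (PF.cons (PF.leaf (nat_lit 6230570) (nat_lit 665256) (nat_lit 44089493) (nat_lit 8805472) [(nat_lit 665256), (nat_lit 0), (nat_lit 6441667)]) (PF.cons (PF.leaf (nat_lit 6613878) (nat_lit 679564) (nat_lit 43437178) (nat_lit 8771865) [(nat_lit 679564), (nat_lit 0), (nat_lit 6430537)]) (PF.cons (PF.leaf (nat_lit 7007431) (nat_lit 691896) (nat_lit
 42775045) (nat_lit 8734212) [(nat_lit 691896), (nat_lit 0), (nat_lit 6415984)]) (PF.cons (PF.leaf (nat_lit 7408858) (nat_lit 702528) (nat_lit 42107268) (nat_lit 8692712) [(nat_lit 702528), (nat_lit 0), (nat_lit 6398095)]) (PF.cons (PF.leaf (nat_lit 7816228) (nat_lit 711671) (nat_lit 41437189) (nat_lit 8647591) [(nat_lit 711671), (nat_lit 0), (nat_lit 6377001)]) (PF.cons (PF.leaf (nat_lit 8227914) (nat_lit 719495) (nat_lit 40767528) (nat_lit 8599089) [(nat_lit 719495), (nat_lit 0), (nat_lit 6352864)]) (PF.cons (PF.leaf (nat_lit 8642518) (nat_lit 726138) (nat_lit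 40100516) (nat_lit 8547459) [(nat_lit 726138), (nat_lit 0), (nat_lit 6325864)]) (PF.cons (PF.leaf (nat_lit 9058832) (nat_lit 731718) (nat_lit 39437999) (nat_lit 8492957) [(nat_lit 731718), (nat_lit 0), (nat_lit 6296193)]) (PF.cons PF.nil (PF.cons PF.nil PF.nil)))))))))))) (PF.cons (PF.cons (PF.leaf (nat_lit 6442688) (nat_lit 2438548) (nat_lit 43106858) (nat_lit 8741986) [(nat_lit 0), (nat_lit 2438548), (nat_lit 6410709)]) (PF.cons (PF.leaf (nat_lit 6814187) (nat_lit 679896) (nat_lit 42480994) (nat_lit 8705240) [(nat_lit 679896), (nat_lit 2450465), (nat_lit 6396108)]) (PF.cons (PF.leaf (nat_lit 7197130) (nat_lit 691769)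
 (nat_lit 41843777) (nat_lit 8664652) [(nat_lit 691769), (nat_lit 2460171), (nat_lit 6378336)]) (PF.cons (PF.leaf (nat_lit 7588618) (nat_lit 701911) (nat_lit 41199923) (nat_lit 8620457) [(nat_lit 701911), (nat_lit 2467713), (nat_lit 6357492)]) (PF.cons (PF.leaf (nat_lit 7986518) (nat_lit 710561) (nat_lit 40553077) (nat_lit 8572900) [(nat_lit 710561), (nat_lit 2473172), (nat_lit 6333708)]) (PF.cons (PF.leaf (nat_lit 8389078) (nat_lit 717904) (nat_lit 39906127) (nat_lit 8522227) [(nat_lit 717904), (nat_lit 2476652), (nat_lit 6307142)]) (PF.cons (PF.leaf (nat_lit 8794826) (nat_lit 724087) (nat_lit 39261394) (nat_lit 8468692) [(nat_lit 724087), (nat_lit 2478264), (nat_lit 6277967)]) (PF.cons (PF.leaf (nat_lit 9202513) (nat_lit 729234) (nat_lit 38620767) (nat_lit 8412543) [(nat_lit 729234), (nat_lit 2478126), (nat_lit 6246367)]) (PF.cons (PF.leaf (nat_lit 9611096) (nat_lit 733447) (nat_lit 37985787) (nat_lit 8354029) [(nat_lit 733447), (nat_lit 2476357), (nat_lit 6212527)])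 (PF.cons PF.nil PF.nil)))))))))) (PF.cons (PF.cons (PF.leaf (nat_lit 7383911) (nat_lit 2456107) (nat_lit 40932140) (nat_lit 8590948) [(nat_lit 0), (nat_lit 2456107), (nat_lit 6336754)]) (PF.cons (PF.leaf (nat_lit
 7764574) (nat_lit 700348) (nat_lit 40313509) (nat_lit 8544662) [(nat_lit 700348), (nat_lit 2461695), (nat_lit 6313451)]) (PF.cons (PF.leaf (nat_lit 8152560) (nat_lit 708634) (nat_lit 39690712) (nat_lit 8495204) [(nat_lit 708634), (nat_lit 2465388), (nat_lit 6287425)]) (PF.cons (PF.leaf (nat_lit 8545729) (nat_lit 715601) (nat_lit 39066949) (nat_lit 8442841) [(nat_lit 715601), (nat_lit 2467272), (nat_lit 6258835)]) (PF.cons (PF.leaf (nat_lit 8942488) (nat_lit 721414) (nat_lit 38444723) (nat_lit 8387832) [(nat_lit 721414), (nat_lit 2467445), (nat_lit 6227854)]) (PF.cons (PF.leaf (nat_lit 9341521) (nat_lit 726203) (nat_lit 37826027) (nat_lit 8330427) [(nat_lit 726203), (nat_lit 2466012), (nat_lit 6194657)]) (PF.cons (PF.leaf (nat_lit 9741710) (nat_lit 730079) (nat_lit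 37212464) (nat_lit 8270867) [(nat_lit 730079), (nat_lit 2463080), (nat_lit 6159422)]) (PF.cons PF.nil PF.nil)))))))) (PF.cons (PF.cons (PF.leaf (nat_lit 8315470) (nat_lit 2455932) (nat_lit 38849151) (nat_lit 8414875) [(nat_lit 0), (nat_lit 2455932), (nat_lit 6238493)]) (PF.cons (PF.leaf (nat_lit 8698677) (nat_lit 712619) (nat_lit 38249140) (nat_lit 8361283) [(nat_lit 712619), (nat_lit 2456413), (nat_lit 6208263)])
 (PF.cons (PF.leaf (nat_lit 9086226) (nat_lit 718153) (nat_lit 37649692) (nat_lit 8305208) [(nat_lit 718153), (nat_lit 2455322), (nat_lit 6175818)]) (PF.cons (PF.leaf (nat_lit 9476485) (nat_lit 722662) (nat_lit 37052990) (nat_lit 8246910) [(nat_lit 722662), (nat_lit 2452753), (nat_lit 6141332)]) (PF.cons (PF.leaf (nat_lit 9868259) (nat_lit 726265) (nat_lit 36460750) (nat_lit 8186629) [(nat_lit 726265), (nat_lit 2448802), (nat_lit 6104980)]) (PF.cons PF.nil PF.nil)))))) (PF.cons (PF.cons (PF.leaf (nat_lit 9226957) (nat_lit 2442036) (nat_lit 36875355) (nat_lit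 8221093) [(nat_lit 0), (nat_lit 2442036), (nat_lit 6122109)]) (PF.cons (PF.leaf (nat_lit 9608066) (nat_lit 718636) (nat_lit 36300772) (nat_lit 8162245) [(nat_lit 718636), (nat_lit 2438477), (nat_lit 6086624)]) (PF.cons (PF.leaf (nat_lit 9991332) (nat_lit 722034) (nat_lit 35729803) (nat_lit 8101546) [(nat_lit 722034), (nat_lit 2433641), (nat_lit 6049414)]) (PF.cons PF.nil PF.nil)))) (PF.cons (PF.cons (PF.leaf (nat_lit 10111703) (nat_lit 2417698) (nat_lit 35018707) (nat_lit 8015811) [(nat_lit 0), (nat_lit 2417698), (nat_lit 5992901)]) (PF.cons (PF.leaf (nat_lit 10487490) (nat_lit 719853) (nat_lit 34473252) (nat_lit 7953462)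
 [(nat_lit 719853), (nat_lit 2410998), (nat_lit 5953625)]) PF.nil)) (PF.cons PF.nil (PF.cons PF.nil (PF.cons PF.nil (PF.cons PF.nil PF.nil)))))))))) (PF.cons (PF.cons (PF.cons (PF.leaf (nat_lit 7172541) (nat_lit 6242001) (nat_lit 39921852) (nat_lit 8460954) [(nat_lit 0), (nat_lit 0), (nat_lit 6242001)]) (PF.cons (PF.leaf (nat_lit 7531667) (nat_lit 676472) (nat_lit 39355835) (nat_lit 8416911) [(nat_lit 676472), (nat_lit 0), (nat_lit 6219864)]) (PF.cons (PF.leaf (nat_lit 7900819) (nat_lit 686488) (nat_lit 38780861) (nat_lit 8369691) [(nat_lit 686488), (nat_lit 0), (nat_lit 6195094)]) (PF.cons (PF.leaf (nat_lit 8277285) (nat_lit 694876) (nat_lit 38201050) (nat_lit 8319589) [(nat_lit 694876), (nat_lit 0), (nat_lit 6167847)]) (PF.cons (PF.leaf (nat_lit 8659104) (nat_lit 701884) (nat_lit 37619541) (nat_lit 8266872) [(nat_lit 701884), (nat_lit 0), (nat_lit 6138286)]) (PF.cons (PF.leaf (nat_lit 9044687) (nat_lit 707699) (nat_lit 37038784) (nat_lit 8211795) [(nat_lit 707699),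 (nat_lit 0), (nat_lit 6106578)]) (PF.cons (PF.leaf (nat_lit 9432710) (nat_lit 712469) (nat_lit 36460725) (nat_lit 8154596) [(nat_lit 712469), (nat_lit 0), (nat_lit 6072891)]) (PF.cons (PF.leaf (nat_lit 9822109)
 (nat_lit 716315) (nat_lit 35886924) (nat_lit 8095503) [(nat_lit 716315), (nat_lit 0), (nat_lit 6037391)]) (PF.cons PF.nil (PF.cons PF.nil PF.nil)))))))))) (PF.cons (PF.cons (PF.leaf (nat_lit 8066939) (nat_lit 2411396) (nat_lit 37968175) (nat_lit 8289882) [(nat_lit 0), (nat_lit 2411396), (nat_lit 6146452)]) (PF.cons (PF.leaf (nat_lit 8432953) (nat_lit 691789) (nat_lit 37411736) (nat_lit 8238878) [(nat_lit 691789), (nat_lit 2413002), (nat_lit 6117801)]) (PF.cons (PF.leaf (nat_lit 8805305) (nat_lit 698593) (nat_lit 36852352) (nat_lit 8185359) [(nat_lit 698593), (nat_lit 2413004), (nat_lit 6086970)]) (PF.cons (PF.leaf (nat_lit 9182004) (nat_lit 704182) (nat_lit 36292775) (nat_lit 8129599) [(nat_lit 704182), (nat_lit 2411495), (nat_lit 6054132)]) (PF.cons (PF.leaf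 (nat_lit 9561627) (nat_lit 708719) (nat_lit 35735134) (nat_lit 8071849) [(nat_lit 708719), (nat_lit 2408576), (nat_lit 6019458)]) (PF.cons (PF.leaf (nat_lit 9942963) (nat_lit 712337) (nat_lit 35181106) (nat_lit 8012339) [(nat_lit 712337), (nat_lit 2404345), (nat_lit 5983111)]) (PF.cons PF.nil (PF.cons PF.nil PF.nil)))))))) (PF.cons (PF.cons (PF.leaf (nat_lit 8949402) (nat_lit 2400218) (nat_lit 36103860) (nat_lit 8102403)
 [(nat_lit 0), (nat_lit 2400218), (nat_lit 6034037)]) (PF.cons (PF.leaf (nat_lit 9316683) (nat_lit 700143) (nat_lit 35565815) (nat_lit 8046302) [(nat_lit 700143), (nat_lit 2397744), (nat_lit 6000354)]) (PF.cons (PF.leaf (nat_lit 9687662) (nat_lit 704526) (nat_lit 35028710) (nat_lit 7988297) [(nat_lit 704526), (nat_lit 2393960), (nat_lit 5964943)]) (PF.cons (PF.leaf (nat_lit 10060848) (nat_lit 707978) (nat_lit 34494405) (nat_lit 7928630) [(nat_lit 707978), (nat_lit 2388958), (nat_lit 5927973)]) (PF.cons PF.nil (PF.cons PF.nil PF.nil)))))) (PF.cons (PF.cons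 (PF.leaf (nat_lit 9811663) (nat_lit 2378568) (nat_lit 34340504) (nat_lit 7904097) [(nat_lit 0), (nat_lit 2378568), (nat_lit 5909501)]) (PF.cons (PF.leaf (nat_lit 10176306) (nat_lit 703254) (nat_lit 33825951) (nat_lit 7844525) [(nat_lit 703254), (nat_lit 2372906), (nat_lit 5872120)]) (PF.cons (PF.leaf (nat_lit 10542748) (nat_lit 705782) (nat_lit 33314814) (nat_lit 7783579) [(nat_lit 705782), (nat_lit 2366194), (nat_lit 5833423)]) (PF.cons PF.nil PF.nil)))) (PF.cons (PF.cons (PF.leaf (nat_lit 10648511) (nat_lit 2349058) (nat_lit 32682545) (nat_lit 7699564) [(nat_lit 0), (nat_lit 2349058), (nat_lit 5776823)]) (PF.cons PF.nil PF.nil))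
 (PF.cons PF.nil (PF.cons PF.nil (PF.cons PF.nil PF.nil)))))))) (PF.cons (PF.cons (PF.cons (PF.leaf (nat_lit 8690360) (nat_lit 5945935) (nat_lit 35341250) (nat_lit 7983821) [(nat_lit 0), (nat_lit 0), (nat_lit 5945935)]) (PF.cons (PF.leaf (nat_lit 9042328) (nat_lit 680202) (nat_lit 34840818) (nat_lit 7930758) [(nat_lit 680202), (nat_lit 0), (nat_lit 5914258)]) (PF.cons (PF.leaf (nat_lit 9399898) (nat_lit 685858) (nat_lit 34338188) (nat_lit 7875667) [(nat_lit 685858), (nat_lit 0), (nat_lit 5880809)]) (PF.cons (PF.leaf (nat_lit 9761214) (nat_lit 690392) (nat_lit 33835746) (nat_lit 7818821) [(nat_lit 690392), (nat_lit 0), (nat_lit 5845767)]) (PF.cons (PF.leaf (nat_lit 10124944) (nat_lit 693964) (nat_lit 33335322) (nat_lit 7760456) [(nat_lit 693964), (nat_lit 0), (nat_lit 5809293)]) (PF.cons PF.nil PF.nil)))))) (PF.cons (PF.cons (PF.leaf (nat_lit 9528260) (nat_lit 2338871) (nat_lit 33671374) (nat_lit 7792929) [(nat_lit 0), (nat_lit 2338871), (nat_lit 5826409)]) (PF.cons (PF.leaf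 (nat_lit 9880682) (nat_lit 685679) (nat_lit 33188227) (nat_lit 7736312) [(nat_lit 685679), (nat_lit 2334379), (nat_lit 5791053)]) (PF.cons (PF.leaf (nat_lit 10236344) (nat_lit 689188) (nat_lit 32706130) (nat_lit
 7678210) [(nat_lit 689188), (nat_lit 2328784), (nat_lit 5754327)]) (PF.cons (PF.leaf (nat_lit 10593844) (nat_lit 691845) (nat_lit 32226687) (nat_lit 7618848) [(nat_lit 691845), (nat_lit 2322173), (nat_lit 5716391)]) PF.nil)))) (PF.cons (PF.cons (PF.leaf (nat_lit 10346469) (nat_lit 2312243) (nat_lit 32092811) (nat_lit 7595845) [(nat_lit 0), (nat_lit 2312243), (nat_lit 5698917)]) (PF.cons (PF.leaf (nat_lit 10695994) (nat_lit 686705) (nat_lit 31630893) (nat_lit 7536980) [(nat_lit 686705), (nat_lit 2305205), (nat_lit 5660955)]) PF.nil)) (PF.cons PF.nil (PF.cons PF.nil (PF.cons PF.nil PF.nil)))))) (PF.cons (PF.cons (PF.cons (PF.leaf (nat_lit 10060571) (nat_lit 5621311) (nat_lit 31509622) (nat_lit 7492632) [(nat_lit 0), (nat_lit 0), (nat_lit 5621311)]) (PF.cons (PF.leaf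 (nat_lit 10399193) (nat_lit 670107) (nat_lit 31074747) (nat_lit 7436746) [(nat_lit 670107), (nat_lit 0), (nat_lit 5585442)]) (PF.cons (PF.leaf (nat_lit 10740722) (nat_lit 672943) (nat_lit 30640891) (nat_lit 7379679) [(nat_lit 672943), (nat_lit 0), (nat_lit 5548470)]) (PF.cons PF.nil PF.nil)))) (PF.cons (PF.cons (PF.leaf (nat_lit 10839258) (nat_lit 2245232) (nat_lit 30092479) (nat_lit 7300246) [(nat_lit 0), (nat_lit
 2245232), (nat_lit 5494170)]) (PF.cons PF.nil PF.nil)) (PF.cons PF.nil (PF.cons PF.nil PF.nil)))) (PF.cons (PF.cons (PF.cons (PF.leaf (nat_lit 11296371) (nat_lit 5297396) (nat_lit 28305215) (nat_lit 7019220) [(nat_lit 0), (nat_lit 0), (nat_lit 5297396)]) (PF.cons PF.nil PF.nil)) (PF.cons PF.nil PF.nil)) (PF.cons PF.nil (PF.cons PF.nil (PF.cons PF.nil PF.nil))))))))))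

def p13_20_1_0 : pfC (piC [(nat_lit 35404596), (nat_lit 22827826), (nat_lit 14696761)] (nat_lit 11551828)) p13_20_1 (nat_lit 3) (nat_lit 0) (nat_lit 1) = true := by decide +kernel
def p13_20_1_1 : pfC (piC [(nat_lit 35404596), (nat_lit 22827826), (nat_lit 14696761)] (nat_lit 11551828)) p13_20_1 (nat_lit 3) (nat_lit 1) (nat_lit 2) = true := by decide +kernel
def p13_20_1_2 : pfC (piC [(nat_lit 35404596), (nat_lit 22827826), (nat_lit 14696761)] (nat_lit 11551828)) p13_20_1 (nat_lit 3) (nat_lit 2) (nat_lit 3) = true := by decide +kernel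
def p13_20_1_3 : pfC (piC [(nat_lit 35404596), (nat_lit 22827826), (nat_lit 14696761)] (nat_lit 11551828)) p13_20_1 (nat_lit 3) (nat_lit 3) (nat_lit 4) = true := by decide +kernel
def p13_20_1_4 : pfC (piC [(nat_lit 35404596), (nat_lit 22827826), (nat_lit 14696761)] (nat_lit 11551828)) p13_20_1 (nat_lit 3) (nat_lit 4) (nat_lit 5) = true := by decide +kernel
def p13_20_1_5 : pfC (piC [(nat_lit 35404596), (nat_lit 22827826), (nat_lit 14696761)] (nat_lit 11551828)) p13_20_1 (nat_lit 3) (nat_lit 5) (nat_lit 6) = true := by decide +kernel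
def p13_20_1_6 : pfC (piC [(nat_lit 35404596), (nat_lit 22827826), (nat_lit 14696761)] (nat_lit 11551828)) p13_20_1 (nat_lit 3) (nat_lit 6) (nat_lit 7) = true := by decide +kernel
def p13_20_1_7 : pfC (piC [(nat_lit 35404596), (nat_lit 22827826), (nat_lit 14696761)] (nat_lit 11551828)) p13_20_1 (nat_lit 3) (nat_lit 7) (nat_lit 8) = true := by decide +kernel
def p13_20_1_8 : pfC (piC [(nat_lit 35404596), (nat_lit 22827826), (nat_lit 14696761)] (nat_lit 11551828)) p13_20_1 (nat_lit 3) (nat_lit 8) (nat_lit 9) = true := by decide +kernel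
def p13_20_1_9 : pfC (piC [(nat_lit 35404596), (nat_lit 22827826), (nat_lit 14696761)] (nat_lit 11551828)) p13_20_1 (nat_lit 3) (nat_lit 9) (nat_lit 10) = true := by decide +kernel
def p13_20_1_10 : pfC (piC [(nat_lit 35404596), (nat_lit 22827826), (nat_lit 14696761)] (nat_lit 11551828)) p13_20_1 (nat_lit 3) (nat_lit 10) (nat_lit 11) = true := by decide +kernel
def p13_20_1_11 : pfC (piC [(nat_lit 35404596), (nat_lit 22827826), (nat_lit 14696761)] (nat_lit 11551828)) p13_20_1 (nat_lit 3) (nat_lit 11) (nat_lit 12) = true := by decide +kernel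
def p13_20_1_12 : pfC (piC [(nat_lit 35404596), (nat_lit 22827826), (nat_lit 14696761)] (nat_lit 11551828)) p13_20_1 (nat_lit 3) (nat_lit 12) (nat_lit 13) = true := by decide +kernel
def p13_20_1_13 : pfC (piC [(nat_lit 35404596), (nat_lit 22827826), (nat_lit 14696761)] (nat_lit 11551828)) p13_20_1 (nat_lit 3) (nat_lit 13) (nat_lit 14) = true := by decide +kernel
def p13_20_1_14 : pfC (piC [(nat_lit 35404596), (nat_lit 22827826), (nat_lit 14696761)] (nat_lit 11551828)) p13_20_1 (nat_lit 3) (nat_lit 14) (nat_lit 15) = true := by decide +kernel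
def p13_20_1_15 : pfC (piC [(nat_lit 35404596), (nat_lit 22827826), (nat_lit 14696761)] (nat_lit 11551828)) p13_20_1 (nat_lit 3) (nat_lit 15) (nat_lit 16) = true := by decide +kernel
def p13_20_1_16 : pfC (piC [(nat_lit 35404596), (nat_lit 22827826), (nat_lit 14696761)] (nat_lit 11551828)) p13_20_1 (nat_lit 3) (nat_lit 16) (nat_lit 17) = true := by decide +kernel
def p13_20_1_17 : pfC (piC [(nat_lit 35404596), (nat_lit 22827826), (nat_lit 14696761)] (nat_lit 11551828)) p13_20_1 (nat_lit 3) (nat_lit 17) (nat_lit 18) = true := by decide +kernel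
def p13_20_1_18 : pfC (piC [(nat_lit 35404596), (nat_lit 22827826), (nat_lit 14696761)] (nat_lit 11551828)) p13_20_1 (nat_lit 3) (nat_lit 18) (nat_lit 19) = true := by decide +kernel
def p13_20_1_19 : pfC (piC [(nat_lit 35404596), (nat_lit 22827826), (nat_lit 14696761)] (nat_lit 11551828)) p13_20_1 (nat_lit 3) (nat_lit 19) (nat_lit 20) = true := by decide +kernel
def p13_20_1_20 : pfC (piC [(nat_lit 35404596), (nat_lit 22827826), (nat_lit 14696761)] (nat_lit 11551828)) p13_20_1 (nat_lit 3) (nat_lit 20) (nat_lit 21) = true := by decide +kernel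
def p13_20_1_21 : pfC (piC [(nat_lit 35404596), (nat_lit 22827826), (nat_lit 14696761)] (nat_lit 11551828)) p13_20_1 (nat_lit 3) (nat_lit 21) (nat_lit 22) = true := by decide +kernel
def p13_20_1_22 : pfC (piC [(nat_lit 35404596), (nat_lit 22827826), (nat_lit 14696761)] (nat_lit 11551828)) p13_20_1 (nat_lit 3) (nat_lit 22) (nat_lit 23) = true := by decide +kernel
def p13_20_1_23 : pfC (piC [(nat_lit 35404596), (nat_lit 22827826), (nat_lit 14696761)] (nat_lit 11551828)) p13_20_1 (nat_lit 3) (nat_lit 23) (nat_lit 24) = true := by decide +kernel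
def p13_20_1_24 : pfC (piC [(nat_lit 35404596), (nat_lit 22827826), (nat_lit 14696761)] (nat_lit 11551828)) p13_20_1 (nat_lit 3) (nat_lit 24) (nat_lit 25) = true := by decide +kernel
def p13_20_1_25 : pfC (piC [(nat_lit 35404596), (nat_lit 22827826), (nat_lit 14696761)] (nat_lit 11551828)) p13_20_1 (nat_lit 3) (nat_lit 25) (nat_lit 26) = true := by decide +kernel
def p13_20_1_26 : pfC (piC [(nat_lit 35404596), (nat_lit 22827826), (nat_lit 14696761)] (nat_lit 11551828)) p13_20_1 (nat_lit 3) (nat_lit 26) (nat_lit 27) = true := by decide +kernel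
def p13_20_1_27 : pfC (piC [(nat_lit 35404596), (nat_lit 22827826), (nat_lit 14696761)] (nat_lit 11551828)) p13_20_1 (nat_lit 3) (nat_lit 27) (nat_lit 28) = true := by decide +kernel
def p13_20_1_28 : pfC (piC [(nat_lit 35404596), (nat_lit 22827826), (nat_lit 14696761)] (nat_lit 11551828)) p13_20_1 (nat_lit 3) (nat_lit 28) (nat_lit 29) = true := by decide +kernel
def p13_20_1_29 : pfC (piC [(nat_lit 35404596), (nat_lit 22827826), (nat_lit 14696761)] (nat_lit 11551828)) p13_20_1 (nat_lit 3) (nat_lit 29) (nat_lit 30) = true := by decide +kernel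
def p13_20_1_30 : pfC (piC [(nat_lit 35404596), (nat_lit 22827826), (nat_lit 14696761)] (nat_lit 11551828)) p13_20_1 (nat_lit 3) (nat_lit 30) (nat_lit 31) = true := by decide +kernel
def p13_20_1_31 : pfC (piC [(nat_lit 35404596), (nat_lit 22827826), (nat_lit 14696761)] (nat_lit 11551828)) p13_20_1 (nat_lit 3) (nat_lit 31) (nat_lit 32) = true := by decide +kernel
def p13_20_1_32 : pfC (piC [(nat_lit 35404596), (nat_lit 22827826), (nat_lit 14696761)] (nat_lit 11551828)) p13_20_1 (nat_lit 3) (nat_lit 32) (nat_lit 33) = true := by decide +kernel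
def p13_20_1_33 : pfC (piC [(nat_lit 35404596), (nat_lit 22827826), (nat_lit 14696761)] (nat_lit 11551828)) p13_20_1 (nat_lit 3) (nat_lit 33) (nat_lit 34) = true := by decide +kernel
def p13_20_1_34 : pfC (piC [(nat_lit 35404596), (nat_lit 22827826), (nat_lit 14696761)] (nat_lit 11551828)) p13_20_1 (nat_lit 3) (nat_lit 34) (nat_lit 35) = true := by decide +kernel
def p13_20_1_35 : pfC (piC [(nat_lit 35404596), (nat_lit 22827826), (nat_lit 14696761)] (nat_lit 11551828)) p13_20_1 (nat_lit 3) (nat_lit 35) (nat_lit 36) = true := by decide +kernel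
def p13_20_1_36 : pfC (piC [(nat_lit 35404596), (nat_lit 22827826), (nat_lit 14696761)] (nat_lit 11551828)) p13_20_1 (nat_lit 3) (nat_lit 36) (nat_lit 37) = true := by decide +kernel
def p13_20_1_37 : pfC (piC [(nat_lit 35404596), (nat_lit 22827826), (nat_lit 14696761)] (nat_lit 11551828)) p13_20_1 (nat_lit 3) (nat_lit 37) (nat_lit 38) = true := by decide +kernel
def p13_20_1_38 : pfC (piC [(nat_lit 35404596), (nat_lit 22827826), (nat_lit 14696761)] (nat_lit 11551828)) p13_20_1 (nat_lit 3) (nat_lit 38) (nat_lit 39) = true := by decide +kernel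
def p13_20_1_39 : pfC (piC [(nat_lit 35404596), (nat_lit 22827826), (nat_lit 14696761)] (nat_lit 11551828)) p13_20_1 (nat_lit 3) (nat_lit 39) (nat_lit 40) = true := by decide +kernel
def p13_20_1_40 : pfC (piC [(nat_lit 35404596), (nat_lit 22827826), (nat_lit 14696761)] (nat_lit 11551828)) p13_20_1 (nat_lit 3) (nat_lit 40) (nat_lit 41) = true := by decide +kernel
def p13_20_1_41 : pfC (piC [(nat_lit 35404596), (nat_lit 22827826), (nat_lit 14696761)] (nat_lit 11551828)) p13_20_1 (nat_lit 3) (nat_lit 41) (nat_lit 42) = true := by decide +kernel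
def p13_20_1_42 : pfC (piC [(nat_lit 35404596), (nat_lit 22827826), (nat_lit 14696761)] (nat_lit 11551828)) p13_20_1 (nat_lit 3) (nat_lit 42) (nat_lit 43) = true := by decide +kernel
def p13_20_1_43 : pfC (piC [(nat_lit 35404596), (nat_lit 22827826), (nat_lit 14696761)] (nat_lit 11551828)) p13_20_1 (nat_lit 3) (nat_lit 43) (nat_lit 44) = true := by decide +kernel
def p13_20_1_44 : pfC (piC [(nat_lit 35404596), (nat_lit 22827826), (nat_lit 14696761)] (nat_lit 11551828)) p13_20_1 (nat_lit 3) (nat_lit 44) (nat_lit 45) = true := by decide +kernel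
def p13_20_1_45 : pfC (piC [(nat_lit 35404596), (nat_lit 22827826), (nat_lit 14696761)] (nat_lit 11551828)) p13_20_1 (nat_lit 3) (nat_lit 45) (nat_lit 46) = true := by decide +kernel
def p13_20_1_46 : pfC (piC [(nat_lit 35404596), (nat_lit 22827826), (nat_lit 14696761)] (nat_lit 11551828)) p13_20_1 (nat_lit 3) (nat_lit 46) (nat_lit 47) = true := by decide +kernel
def p13_20_1_47 : pfC (piC [(nat_lit 35404596), (nat_lit 22827826), (nat_lit 14696761)] (nat_lit 11551828)) p13_20_1 (nat_lit 3) (nat_lit 47) (nat_lit 48) = true := by decide +kernel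
def p13_20_1_48 : pfC (piC [(nat_lit 35404596), (nat_lit 22827826), (nat_lit 14696761)] (nat_lit 11551828)) p13_20_1 (nat_lit 3) (nat_lit 48) (nat_lit 49) = true := by decide +kernel
def p13_20_1_49 : pfC (piC [(nat_lit 35404596), (nat_lit 22827826), (nat_lit 14696761)] (nat_lit 11551828)) p13_20_1 (nat_lit 3) (nat_lit 49) (nat_lit 50) = true := by decide +kernel
def p13_20_1_50 : pfC (piC [(nat_lit 35404596), (nat_lit 22827826), (nat_lit 14696761)] (nat_lit 11551828)) p13_20_1 (nat_lit 3) (nat_lit 50) (nat_lit 51) = true := by decide +kernel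
def p13_20_1_51 : pfC (piC [(nat_lit 35404596), (nat_lit 22827826), (nat_lit 14696761)] (nat_lit 11551828)) p13_20_1 (nat_lit 3) (nat_lit 51) (nat_lit 52) = true := by decide +kernel
def p13_20_1_52 : pfC (piC [(nat_lit 35404596), (nat_lit 22827826), (nat_lit 14696761)] (nat_lit 11551828)) p13_20_1 (nat_lit 3) (nat_lit 52) (nat_lit 53) = true := by decide +kernel
def p13_20_1_53 : pfC (piC [(nat_lit 35404596), (nat_lit 22827826), (nat_lit 14696761)] (nat_lit 11551828)) p13_20_1 (nat_lit 3) (nat_lit 53) (nat_lit 54) = true := by decide +kernel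
def p13_20_1_54 : pfC (piC [(nat_lit 35404596), (nat_lit 22827826), (nat_lit 14696761)] (nat_lit 11551828)) p13_20_1 (nat_lit 3) (nat_lit 54) (nat_lit 55) = true := by decide +kernel
def p13_20_1_55 : pfC (piC [(nat_lit 35404596), (nat_lit 22827826), (nat_lit 14696761)] (nat_lit 11551828)) p13_20_1 (nat_lit 3) (nat_lit 55) (nat_lit 56) = true := by decide +kernel
def p13_20_1_56 : pfC (piC [(nat_lit 35404596), (nat_lit 22827826), (nat_lit 14696761)] (nat_lit 11551828)) p13_20_1 (nat_lit 3) (nat_lit 56) (nat_lit 57) = true := by decide +kernel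
def p13_20_1_57 : pfC (piC [(nat_lit 35404596), (nat_lit 22827826), (nat_lit 14696761)] (nat_lit 11551828)) p13_20_1 (nat_lit 3) (nat_lit 57) (nat_lit 58) = true := by decide +kernel
def p13_20_1_58 : pfC (piC [(nat_lit 35404596), (nat_lit 22827826), (nat_lit 14696761)] (nat_lit 11551828)) p13_20_1 (nat_lit 3) (nat_lit 58) (nat_lit 59) = true := by decide +kernel
def p13_20_1_59 : pfC (piC [(nat_lit 35404596), (nat_lit 22827826), (nat_lit 14696761)] (nat_lit 11551828)) p13_20_1 (nat_lit 3) (nat_lit 59) (nat_lit 60) = true := by decide +kernel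
def p13_20_1_60 : pfC (piC [(nat_lit 35404596), (nat_lit 22827826), (nat_lit 14696761)] (nat_lit 11551828)) p13_20_1 (nat_lit 3) (nat_lit 60) (nat_lit 61) = true := by decide +kernel
def p13_20_1_61 : pfC (piC [(nat_lit 35404596), (nat_lit 22827826), (nat_lit 14696761)] (nat_lit 11551828)) p13_20_1 (nat_lit 3) (nat_lit 61) (nat_lit 62) = true := by decide +kernel
def p13_20_1_62 : pfC (piC [(nat_lit 35404596), (nat_lit 22827826), (nat_lit 14696761)] (nat_lit 11551828)) p13_20_1 (nat_lit 3) (nat_lit 62) (nat_lit 63) = true := by decide +kernel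
def p13_20_1_63 : pfC (piC [(nat_lit 35404596), (nat_lit 22827826), (nat_lit 14696761)] (nat_lit 11551828)) p13_20_1 (nat_lit 3) (nat_lit 63) (nat_lit 64) = true := by decide +kernel
def p13_20_1_64 : pfC (piC [(nat_lit 35404596), (nat_lit 22827826), (nat_lit 14696761)] (nat_lit 11551828)) p13_20_1 (nat_lit 3) (nat_lit 64) (nat_lit 65) = true := by decide +kernel
def p13_20_1_65 : pfC (piC [(nat_lit 35404596), (nat_lit 22827826), (nat_lit 14696761)] (nat_lit 11551828)) p13_20_1 (nat_lit 3) (nat_lit 65) (nat_lit 66) = true := by decide +kernel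
def p13_20_1_66 : pfC (piC [(nat_lit 35404596), (nat_lit 22827826), (nat_lit 14696761)] (nat_lit 11551828)) p13_20_1 (nat_lit 3) (nat_lit 66) (nat_lit 67) = true := by decide +kernel
def p13_20_1_67 : pfC (piC [(nat_lit 35404596), (nat_lit 22827826), (nat_lit 14696761)] (nat_lit 11551828)) p13_20_1 (nat_lit 3) (nat_lit 67) (nat_lit 68) = true := by decide +kernel
def p13_20_1_68 : pfC (piC [(nat_lit 35404596), (nat_lit 22827826), (nat_lit 14696761)] (nat_lit 11551828)) p13_20_1 (nat_lit 3) (nat_lit 68) (nat_lit 69) = true := by decide +kernel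
def p13_20_1_69 : pfC (piC [(nat_lit 35404596), (nat_lit 22827826), (nat_lit 14696761)] (nat_lit 11551828)) p13_20_1 (nat_lit 3) (nat_lit 69) (nat_lit 70) = true := by decide +kernel
def p13_20_1_70 : pfC (piC [(nat_lit 35404596), (nat_lit 22827826), (nat_lit 14696761)] (nat_lit 11551828)) p13_20_1 (nat_lit 3) (nat_lit 70) (nat_lit 71) = true := by decide +kernel
def p13_20_1_71 : pfC (piC [(nat_lit 35404596), (nat_lit 22827826), (nat_lit 14696761)] (nat_lit 11551828)) p13_20_1 (nat_lit 3) (nat_lit 71) (nat_lit 72) = true := by decide +kernel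
def p13_20_1_72 : pfC (piC [(nat_lit 35404596), (nat_lit 22827826), (nat_lit 14696761)] (nat_lit 11551828)) p13_20_1 (nat_lit 3) (nat_lit 72) (nat_lit 73) = true := by decide +kernel
def p13_20_1_73 : pfC (piC [(nat_lit 35404596), (nat_lit 22827826), (nat_lit 14696761)] (nat_lit 11551828)) p13_20_1 (nat_lit 3) (nat_lit 73) (nat_lit 74) = true := by decide +kernel
def p13_20_1_74 : pfC (piC [(nat_lit 35404596), (nat_lit 22827826), (nat_lit 14696761)] (nat_lit 11551828)) p13_20_1 (nat_lit 3) (nat_lit 74) (nat_lit 75) = true := by decide +kernel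
def p13_20_1_75 : pfC (piC [(nat_lit 35404596), (nat_lit 22827826), (nat_lit 14696761)] (nat_lit 11551828)) p13_20_1 (nat_lit 3) (nat_lit 75) (nat_lit 76) = true := by decide +kernel
def p13_20_1_76 : pfC (piC [(nat_lit 35404596), (nat_lit 22827826), (nat_lit 14696761)] (nat_lit 11551828)) p13_20_1 (nat_lit 3) (nat_lit 76) (nat_lit 77) = true := by decide +kernel
def p13_20_1_77 : pfC (piC [(nat_lit 35404596), (nat_lit 22827826), (nat_lit 14696761)] (nat_lit 11551828)) p13_20_1 (nat_lit 3) (nat_lit 77) (nat_lit 78) = true := by decide +kernel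
def p13_20_1_78 : pfC (piC [(nat_lit 35404596), (nat_lit 22827826), (nat_lit 14696761)] (nat_lit 11551828)) p13_20_1 (nat_lit 3) (nat_lit 78) (nat_lit 79) = true := by decide +kernel
def p13_20_1_79 : pfC (piC [(nat_lit 35404596), (nat_lit 22827826), (nat_lit 14696761)] (nat_lit 11551828)) p13_20_1 (nat_lit 3) (nat_lit 79) (nat_lit 80) = true := by decide +kernel
def p13_20_1_80 : pfC (piC [(nat_lit 35404596), (nat_lit 22827826), (nat_lit 14696761)] (nat_lit 11551828)) p13_20_1 (nat_lit 3) (nat_lit 80) (nat_lit 81) = true := by decide +kernel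
def p13_20_1_81 : pfC (piC [(nat_lit 35404596), (nat_lit 22827826), (nat_lit 14696761)] (nat_lit 11551828)) p13_20_1 (nat_lit 3) (nat_lit 81) (nat_lit 82) = true := by decide +kernel
def p13_20_1_82 : pfC (piC [(nat_lit 35404596), (nat_lit 22827826), (nat_lit 14696761)] (nat_lit 11551828)) p13_20_1 (nat_lit 3) (nat_lit 82) (nat_lit 83) = true := by decide +kernel
def p13_20_1_83 : pfC (piC [(nat_lit 35404596), (nat_lit 22827826), (nat_lit 14696761)] (nat_lit 11551828)) p13_20_1 (nat_lit 3) (nat_lit 83) (nat_lit 84) = true := by decide +kernel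
def p13_20_1_84 : pfC (piC [(nat_lit 35404596), (nat_lit 22827826), (nat_lit 14696761)] (nat_lit 11551828)) p13_20_1 (nat_lit 3) (nat_lit 84) (nat_lit 85) = true := by decide +kernel
def p13_20_1_85 : pfC (piC [(nat_lit 35404596), (nat_lit 22827826), (nat_lit 14696761)] (nat_lit 11551828)) p13_20_1 (nat_lit 3) (nat_lit 85) (nat_lit 86) = true := by decide +kernel
def p13_20_1_86 : pfC (piC [(nat_lit 35404596), (nat_lit 22827826), (nat_lit 14696761)] (nat_lit 11551828)) p13_20_1 (nat_lit 3) (nat_lit 86) (nat_lit 87) = true := by decide +kernel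
def p13_20_1_87 : pfC (piC [(nat_lit 35404596), (nat_lit 22827826), (nat_lit 14696761)] (nat_lit 11551828)) p13_20_1 (nat_lit 3) (nat_lit 87) (nat_lit 88) = true := by decide +kernel
def p13_20_1_88 : pfC (piC [(nat_lit 35404596), (nat_lit 22827826), (nat_lit 14696761)] (nat_lit 11551828)) p13_20_1 (nat_lit 3) (nat_lit 88) (nat_lit 89) = true := by decide +kernel
def p13_20_1_89 : pfC (piC [(nat_lit 35404596), (nat_lit 22827826), (nat_lit 14696761)] (nat_lit 11551828)) p13_20_1 (nat_lit 3) (nat_lit 89) (nat_lit 90) = true := by decide +kernel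
def p13_20_1_90 : pfC (piC [(nat_lit 35404596), (nat_lit 22827826), (nat_lit 14696761)] (nat_lit 11551828)) p13_20_1 (nat_lit 3) (nat_lit 90) (nat_lit 91) = true := by decide +kernel
def p13_20_1_91 : pfC (piC [(nat_lit 35404596), (nat_lit 22827826), (nat_lit 14696761)] (nat_lit 11551828)) p13_20_1 (nat_lit 3) (nat_lit 91) (nat_lit 92) = true := by decide +kernel
def p13_20_1_92 : pfC (piC [(nat_lit 35404596), (nat_lit 22827826), (nat_lit 14696761)] (nat_lit 11551828)) p13_20_1 (nat_lit 3) (nat_lit 92) (nat_lit 93) = true := by decide +kernel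
def p13_20_1_93 : pfC (piC [(nat_lit 35404596), (nat_lit 22827826), (nat_lit 14696761)] (nat_lit 11551828)) p13_20_1 (nat_lit 3) (nat_lit 93) (nat_lit 94) = true := by decide +kernel
def p13_20_1_94 : pfC (piC [(nat_lit 35404596), (nat_lit 22827826), (nat_lit 14696761)] (nat_lit 11551828)) p13_20_1 (nat_lit 3) (nat_lit 94) (nat_lit 95) = true := by decide +kernel
def p13_20_1_95 : pfC (piC [(nat_lit 35404596), (nat_lit 22827826), (nat_lit 14696761)] (nat_lit 11551828)) p13_20_1 (nat_lit 3) (nat_lit 95) (nat_lit 96) = true := by decide +kernel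
def p13_20_1_96 : pfC (piC [(nat_lit 35404596), (nat_lit 22827826), (nat_lit 14696761)] (nat_lit 11551828)) p13_20_1 (nat_lit 3) (nat_lit 96) (nat_lit 97) = true := by decide +kernel
def p13_20_1_97 : pfC (piC [(nat_lit 35404596), (nat_lit 22827826), (nat_lit 14696761)] (nat_lit 11551828)) p13_20_1 (nat_lit 3) (nat_lit 97) (nat_lit 98) = true := by decide +kernel
def p13_20_1_98 : pfC (piC [(nat_lit 35404596), (nat_lit 22827826), (nat_lit 14696761)] (nat_lit 11551828)) p13_20_1 (nat_lit 3) (nat_lit 98) (nat_lit 99) = true := by decide +kernel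
def p13_20_1_99 : pfC (piC [(nat_lit 35404596), (nat_lit 22827826), (nat_lit 14696761)] (nat_lit 11551828)) p13_20_1 (nat_lit 3) (nat_lit 99) (nat_lit 100) = true := by decide +kernel
def p13_20_1_100 : pfC (piC [(nat_lit 35404596), (nat_lit 22827826), (nat_lit 14696761)] (nat_lit 11551828)) p13_20_1 (nat_lit 3) (nat_lit 100) (nat_lit 101) = true := by decide +kernel
def p13_20_1_101 : pfC (piC [(nat_lit 35404596), (nat_lit 22827826), (nat_lit 14696761)] (nat_lit 11551828)) p13_20_1 (nat_lit 3) (nat_lit 101) (nat_lit 102) = true := by decide +kernel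
def p13_20_1_102 : pfC (piC [(nat_lit 35404596), (nat_lit 22827826), (nat_lit 14696761)] (nat_lit 11551828)) p13_20_1 (nat_lit 3) (nat_lit 102) (nat_lit 103) = true := by decide +kernel
def p13_20_1_103 : pfC (piC [(nat_lit 35404596), (nat_lit 22827826), (nat_lit 14696761)] (nat_lit 11551828)) p13_20_1 (nat_lit 3) (nat_lit 103) (nat_lit 104) = true := by decide +kernel
def p13_20_1_104 : pfC (piC [(nat_lit 35404596), (nat_lit 22827826), (nat_lit 14696761)] (nat_lit 11551828)) p13_20_1 (nat_lit 3) (nat_lit 104) (nat_lit 105) = true := by decide +kernel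
def p13_20_1_105 : pfC (piC [(nat_lit 35404596), (nat_lit 22827826), (nat_lit 14696761)] (nat_lit 11551828)) p13_20_1 (nat_lit 3) (nat_lit 105) (nat_lit 106) = true := by decide +kernel
def p13_20_1_106 : pfC (piC [(nat_lit 35404596), (nat_lit 22827826), (nat_lit 14696761)] (nat_lit 11551828)) p13_20_1 (nat_lit 3) (nat_lit 106) (nat_lit 107) = true := by decide +kernel
def p13_20_1_107 : pfC (piC [(nat_lit 35404596), (nat_lit 22827826), (nat_lit 14696761)] (nat_lit 11551828)) p13_20_1 (nat_lit 3) (nat_lit 107) (nat_lit 108) = true := by decide +kernel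
def p13_20_1_108 : pfC (piC [(nat_lit 35404596), (nat_lit 22827826), (nat_lit 14696761)] (nat_lit 11551828)) p13_20_1 (nat_lit 3) (nat_lit 108) (nat_lit 109) = true := by decide +kernel
def p13_20_1_109 : pfC (piC [(nat_lit 35404596), (nat_lit 22827826), (nat_lit 14696761)] (nat_lit 11551828)) p13_20_1 (nat_lit 3) (nat_lit 109) (nat_lit 110) = true := by decide +kernel
def p13_20_1_110 : pfC (piC [(nat_lit 35404596), (nat_lit 22827826), (nat_lit 14696761)] (nat_lit 11551828)) p13_20_1 (nat_lit 3) (nat_lit 110) (nat_lit 111) = true := by decide +kernel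
def p13_20_1_111 : pfC (piC [(nat_lit 35404596), (nat_lit 22827826), (nat_lit 14696761)] (nat_lit 11551828)) p13_20_1 (nat_lit 3) (nat_lit 111) (nat_lit 112) = true := by decide +kernel
def p13_20_1_112 : pfC (piC [(nat_lit 35404596), (nat_lit 22827826), (nat_lit 14696761)] (nat_lit 11551828)) p13_20_1 (nat_lit 3) (nat_lit 112) (nat_lit 113) = true := by decide +kernel
def p13_20_1_113 : pfC (piC [(nat_lit 35404596), (nat_lit 22827826), (nat_lit 14696761)] (nat_lit 11551828)) p13_20_1 (nat_lit 3) (nat_lit 113) (nat_lit 114) = true := by decide +kernel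
def p13_20_1_114 : pfC (piC [(nat_lit 35404596), (nat_lit 22827826), (nat_lit 14696761)] (nat_lit 11551828)) p13_20_1 (nat_lit 3) (nat_lit 114) (nat_lit 115) = true := by decide +kernel
def p13_20_1_115 : pfC (piC [(nat_lit 35404596), (nat_lit 22827826), (nat_lit 14696761)] (nat_lit 11551828)) p13_20_1 (nat_lit 3) (nat_lit 115) (nat_lit 116) = true := by decide +kernel
def p13_20_1_116 : pfC (piC [(nat_lit 35404596), (nat_lit 22827826), (nat_lit 14696761)] (nat_lit 11551828)) p13_20_1 (nat_lit 3) (nat_lit 116) (nat_lit 117) = true := by decide +kernel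
def p13_20_1_117 : pfC (piC [(nat_lit 35404596), (nat_lit 22827826), (nat_lit 14696761)] (nat_lit 11551828)) p13_20_1 (nat_lit 3) (nat_lit 117) (nat_lit 118) = true := by decide +kernel
def p13_20_1_118 : pfC (piC [(nat_lit 35404596), (nat_lit 22827826), (nat_lit 14696761)] (nat_lit 11551828)) p13_20_1 (nat_lit 3) (nat_lit 118) (nat_lit 119) = true := by decide +kernel
def p13_20_1_119 : pfC (piC [(nat_lit 35404596), (nat_lit 22827826), (nat_lit 14696761)] (nat_lit 11551828)) p13_20_1 (nat_lit 3) (nat_lit 119) (nat_lit 120) = true := by decide +kernel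
def p13_20_1_120 : pfC (piC [(nat_lit 35404596), (nat_lit 22827826), (nat_lit 14696761)] (nat_lit 11551828)) p13_20_1 (nat_lit 3) (nat_lit 120) (nat_lit 121) = true := by decide +kernel
def p13_20_1_121 : pfC (piC [(nat_lit 35404596), (nat_lit 22827826), (nat_lit 14696761)] (nat_lit 11551828)) p13_20_1 (nat_lit 3) (nat_lit 121) (nat_lit 122) = true := by decide +kernel
def p13_20_1_122 : pfC (piC [(nat_lit 35404596), (nat_lit 22827826), (nat_lit 14696761)] (nat_lit 11551828)) p13_20_1 (nat_lit 3) (nat_lit 122) (nat_lit 123) = true := by decide +kernel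
def p13_20_1_123 : pfC (piC [(nat_lit 35404596), (nat_lit 22827826), (nat_lit 14696761)] (nat_lit 11551828)) p13_20_1 (nat_lit 3) (nat_lit 123) (nat_lit 124) = true := by decide +kernel
def p13_20_1_124 : pfC (piC [(nat_lit 35404596), (nat_lit 22827826), (nat_lit 14696761)] (nat_lit 11551828)) p13_20_1 (nat_lit 3) (nat_lit 124) (nat_lit 125) = true := by decide +kernel
def p13_20_1_125 : pfC (piC [(nat_lit 35404596), (nat_lit 22827826), (nat_lit 14696761)] (nat_lit 11551828)) p13_20_1 (nat_lit 3) (nat_lit 125) (nat_lit 126) = true := by decide +kernel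
def p13_20_1_126 : pfC (piC [(nat_lit 35404596), (nat_lit 22827826), (nat_lit 14696761)] (nat_lit 11551828)) p13_20_1 (nat_lit 3) (nat_lit 126) (nat_lit 127) = true := by decide +kernel
def p13_20_1_127 : pfC (piC [(nat_lit 35404596), (nat_lit 22827826), (nat_lit 14696761)] (nat_lit 11551828)) p13_20_1 (nat_lit 3) (nat_lit 127) (nat_lit 128) = true := by decide +kernel
def p13_20_1_128 : pfC (piC [(nat_lit 35404596), (nat_lit 22827826), (nat_lit 14696761)] (nat_lit 11551828)) p13_20_1 (nat_lit 3) (nat_lit 128) (nat_lit 129) = true := by decide +kernel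
def p13_20_1_129 : pfC (piC [(nat_lit 35404596), (nat_lit 22827826), (nat_lit 14696761)] (nat_lit 11551828)) p13_20_1 (nat_lit 3) (nat_lit 129) (nat_lit 130) = true := by decide +kernel
def p13_20_1_130 : pfC (piC [(nat_lit 35404596), (nat_lit 22827826), (nat_lit 14696761)] (nat_lit 11551828)) p13_20_1 (nat_lit 3) (nat_lit 130) (nat_lit 131) = true := by decide +kernel
def p13_20_1_131 : pfC (piC [(nat_lit 35404596), (nat_lit 22827826), (nat_lit 14696761)] (nat_lit 11551828)) p13_20_1 (nat_lit 3) (nat_lit 131) (nat_lit 132) = true := by decide +kernel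
def p13_20_1_132 : pfC (piC [(nat_lit 35404596), (nat_lit 22827826), (nat_lit 14696761)] (nat_lit 11551828)) p13_20_1 (nat_lit 3) (nat_lit 132) (nat_lit 133) = true := by decide +kernel
def p13_20_1_133 : pfC (piC [(nat_lit 35404596), (nat_lit 22827826), (nat_lit 14696761)] (nat_lit 11551828)) p13_20_1 (nat_lit 3) (nat_lit 133) (nat_lit 134) = true := by decide +kernel
def p13_20_1_134 : pfC (piC [(nat_lit 35404596), (nat_lit 22827826), (nat_lit 14696761)] (nat_lit 11551828)) p13_20_1 (nat_lit 3) (nat_lit 134) (nat_lit 135) = true := by decide +kernel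
def p13_20_1_135 : pfC (piC [(nat_lit 35404596), (nat_lit 22827826), (nat_lit 14696761)] (nat_lit 11551828)) p13_20_1 (nat_lit 3) (nat_lit 135) (nat_lit 136) = true := by decide +kernel
def p13_20_1_136 : pfC (piC [(nat_lit 35404596), (nat_lit 22827826), (nat_lit 14696761)] (nat_lit 11551828)) p13_20_1 (nat_lit 3) (nat_lit 136) (nat_lit 137) = true := by decide +kernel
def p13_20_1_137 : pfC (piC [(nat_lit 35404596), (nat_lit 22827826), (nat_lit 14696761)] (nat_lit 11551828)) p13_20_1 (nat_lit 3) (nat_lit 137) (nat_lit 138) = true := by decide +kernel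
def p13_20_1_138 : pfC (piC [(nat_lit 35404596), (nat_lit 22827826), (nat_lit 14696761)] (nat_lit 11551828)) p13_20_1 (nat_lit 3) (nat_lit 138) (nat_lit 139) = true := by decide +kernel
def p13_20_1_139 : pfC (piC [(nat_lit 35404596), (nat_lit 22827826), (nat_lit 14696761)] (nat_lit 11551828)) p13_20_1 (nat_lit 3) (nat_lit 139) (nat_lit 140) = true := by decide +kernel
def p13_20_1_140 : pfC (piC [(nat_lit 35404596), (nat_lit 22827826), (nat_lit 14696761)] (nat_lit 11551828)) p13_20_1 (nat_lit 3) (nat_lit 140) (nat_lit 141) = true := by decide +kernel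
def p13_20_1_141 : pfC (piC [(nat_lit 35404596), (nat_lit 22827826), (nat_lit 14696761)] (nat_lit 11551828)) p13_20_1 (nat_lit 3) (nat_lit 141) (nat_lit 142) = true := by decide +kernel
def p13_20_1_142 : pfC (piC [(nat_lit 35404596), (nat_lit 22827826), (nat_lit 14696761)] (nat_lit 11551828)) p13_20_1 (nat_lit 3) (nat_lit 142) (nat_lit 143) = true := by decide +kernel
def p13_20_1_143 : pfC (piC [(nat_lit 35404596), (nat_lit 22827826), (nat_lit 14696761)] (nat_lit 11551828)) p13_20_1 (nat_lit 3) (nat_lit 143) (nat_lit 144) = true := by decide +kernel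
def p13_20_1_144 : pfC (piC [(nat_lit 35404596), (nat_lit 22827826), (nat_lit 14696761)] (nat_lit 11551828)) p13_20_1 (nat_lit 3) (nat_lit 144) (nat_lit 145) = true := by decide +kernel
def p13_20_1_145 : pfC (piC [(nat_lit 35404596), (nat_lit 22827826), (nat_lit 14696761)] (nat_lit 11551828)) p13_20_1 (nat_lit 3) (nat_lit 145) (nat_lit 146) = true := by decide +kernel
def p13_20_1_146 : pfC (piC [(nat_lit 35404596), (nat_lit 22827826), (nat_lit 14696761)] (nat_lit 11551828)) p13_20_1 (nat_lit 3) (nat_lit 146) (nat_lit 147) = true := by decide +kernel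
def p13_20_1_147 : pfC (piC [(nat_lit 35404596), (nat_lit 22827826), (nat_lit 14696761)] (nat_lit 11551828)) p13_20_1 (nat_lit 3) (nat_lit 147) (nat_lit 148) = true := by decide +kernel
def p13_20_1_148 : pfC (piC [(nat_lit 35404596), (nat_lit 22827826), (nat_lit 14696761)] (nat_lit 11551828)) p13_20_1 (nat_lit 3) (nat_lit 148) (nat_lit 149) = true := by decide +kernel
def p13_20_1_149 : pfC (piC [(nat_lit 35404596), (nat_lit 22827826), (nat_lit 14696761)] (nat_lit 11551828)) p13_20_1 (nat_lit 3) (nat_lit 149) (nat_lit 150) = true := by decide +kernel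
def p13_20_1_150 : pfC (piC [(nat_lit 35404596), (nat_lit 22827826), (nat_lit 14696761)] (nat_lit 11551828)) p13_20_1 (nat_lit 3) (nat_lit 150) (nat_lit 151) = true := by decide +kernel
def p13_20_1_151 : pfC (piC [(nat_lit 35404596), (nat_lit 22827826), (nat_lit 14696761)] (nat_lit 11551828)) p13_20_1 (nat_lit 3) (nat_lit 151) (nat_lit 152) = true := by decide +kernel
def p13_20_1_152 : pfC (piC [(nat_lit 35404596), (nat_lit 22827826), (nat_lit 14696761)] (nat_lit 11551828)) p13_20_1 (nat_lit 3) (nat_lit 152) (nat_lit 153) = true := by decide +kernel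
def p13_20_1_153 : pfC (piC [(nat_lit 35404596), (nat_lit 22827826), (nat_lit 14696761)] (nat_lit 11551828)) p13_20_1 (nat_lit 3) (nat_lit 153) (nat_lit 154) = true := by decide +kernel
def p13_20_1_154 : pfC (piC [(nat_lit 35404596), (nat_lit 22827826), (nat_lit 14696761)] (nat_lit 11551828)) p13_20_1 (nat_lit 3) (nat_lit 154) (nat_lit 155) = true := by decide +kernel
def p13_20_1_155 : pfC (piC [(nat_lit 35404596), (nat_lit 22827826), (nat_lit 14696761)] (nat_lit 11551828)) p13_20_1 (nat_lit 3) (nat_lit 155) (nat_lit 156) = true := by decide +kernel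
def p13_20_1_156 : pfC (piC [(nat_lit 35404596), (nat_lit 22827826), (nat_lit 14696761)] (nat_lit 11551828)) p13_20_1 (nat_lit 3) (nat_lit 156) (nat_lit 157) = true := by decide +kernel
def p13_20_1_157 : pfC (piC [(nat_lit 35404596), (nat_lit 22827826), (nat_lit 14696761)] (nat_lit 11551828)) p13_20_1 (nat_lit 3) (nat_lit 157) (nat_lit 158) = true := by decide +kernel
def p13_20_1_158 : pfC (piC [(nat_lit 35404596), (nat_lit 22827826), (nat_lit 14696761)] (nat_lit 11551828)) p13_20_1 (nat_lit 3) (nat_lit 158) (nat_lit 159) = true := by decide +kernel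
def p13_20_1_159 : pfC (piC [(nat_lit 35404596), (nat_lit 22827826), (nat_lit 14696761)] (nat_lit 11551828)) p13_20_1 (nat_lit 3) (nat_lit 159) (nat_lit 160) = true := by decide +kernel
def p13_20_1_160 : pfC (piC [(nat_lit 35404596), (nat_lit 22827826), (nat_lit 14696761)] (nat_lit 11551828)) p13_20_1 (nat_lit 3) (nat_lit 160) (nat_lit 161) = true := by decide +kernel
def p13_20_1_161 : pfC (piC [(nat_lit 35404596), (nat_lit 22827826), (nat_lit 14696761)] (nat_lit 11551828)) p13_20_1 (nat_lit 3) (nat_lit 161) (nat_lit 162) = true := by decide +kernel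
def p13_20_1_162 : pfC (piC [(nat_lit 35404596), (nat_lit 22827826), (nat_lit 14696761)] (nat_lit 11551828)) p13_20_1 (nat_lit 3) (nat_lit 162) (nat_lit 163) = true := by decide +kernel
def p13_20_1_163 : pfC (piC [(nat_lit 35404596), (nat_lit 22827826), (nat_lit 14696761)] (nat_lit 11551828)) p13_20_1 (nat_lit 3) (nat_lit 163) (nat_lit 164) = true := by decide +kernel
def p13_20_1_164 : pfC (piC [(nat_lit 35404596), (nat_lit 22827826), (nat_lit 14696761)] (nat_lit 11551828)) p13_20_1 (nat_lit 3) (nat_lit 164) (nat_lit 165) = true := by decide +kernel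
def p13_20_1_165 : pfC (piC [(nat_lit 35404596), (nat_lit 22827826), (nat_lit 14696761)] (nat_lit 11551828)) p13_20_1 (nat_lit 3) (nat_lit 165) (nat_lit 166) = true := by decide +kernel
def p13_20_1_166 : pfC (piC [(nat_lit 35404596), (nat_lit 22827826), (nat_lit 14696761)] (nat_lit 11551828)) p13_20_1 (nat_lit 3) (nat_lit 166) (nat_lit 167) = true := by decide +kernel
def p13_20_1_167 : pfC (piC [(nat_lit 35404596), (nat_lit 22827826), (nat_lit 14696761)] (nat_lit 11551828)) p13_20_1 (nat_lit 3) (nat_lit 167) (nat_lit 168) = true := by decide +kernel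
def p13_20_1_168 : pfC (piC [(nat_lit 35404596), (nat_lit 22827826), (nat_lit 14696761)] (nat_lit 11551828)) p13_20_1 (nat_lit 3) (nat_lit 168) (nat_lit 169) = true := by decide +kernel
def p13_20_1_169 : pfC (piC [(nat_lit 35404596), (nat_lit 22827826), (nat_lit 14696761)] (nat_lit 11551828)) p13_20_1 (nat_lit 3) (nat_lit 169) (nat_lit 170) = true := by decide +kernel
def p13_20_1_170 : pfC (piC [(nat_lit 35404596), (nat_lit 22827826), (nat_lit 14696761)] (nat_lit 11551828)) p13_20_1 (nat_lit 3) (nat_lit 170) (nat_lit 171) = true := by decide +kernel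
def p13_20_1_171 : pfC (piC [(nat_lit 35404596), (nat_lit 22827826), (nat_lit 14696761)] (nat_lit 11551828)) p13_20_1 (nat_lit 3) (nat_lit 171) (nat_lit 172) = true := by decide +kernel
def p13_20_1_172 : pfC (piC [(nat_lit 35404596), (nat_lit 22827826), (nat_lit 14696761)] (nat_lit 11551828)) p13_20_1 (nat_lit 3) (nat_lit 172) (nat_lit 173) = true := by decide +kernel
def p13_20_1_173 : pfC (piC [(nat_lit 35404596), (nat_lit 22827826), (nat_lit 14696761)] (nat_lit 11551828)) p13_20_1 (nat_lit 3) (nat_lit 173) (nat_lit 174) = true := by decide +kernel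
def p13_20_1_174 : pfC (piC [(nat_lit 35404596), (nat_lit 22827826), (nat_lit 14696761)] (nat_lit 11551828)) p13_20_1 (nat_lit 3) (nat_lit 174) (nat_lit 175) = true := by decide +kernel
def p13_20_1_175 : pfC (piC [(nat_lit 35404596), (nat_lit 22827826), (nat_lit 14696761)] (nat_lit 11551828)) p13_20_1 (nat_lit 3) (nat_lit 175) (nat_lit 176) = true := by decide +kernel
def p13_20_1_176 : pfC (piC [(nat_lit 35404596), (nat_lit 22827826), (nat_lit 14696761)] (nat_lit 11551828)) p13_20_1 (nat_lit 3) (nat_lit 176) (nat_lit 177) = true := by decide +kernel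
def p13_20_1_177 : pfC (piC [(nat_lit 35404596), (nat_lit 22827826), (nat_lit 14696761)] (nat_lit 11551828)) p13_20_1 (nat_lit 3) (nat_lit 177) (nat_lit 178) = true := by decide +kernel
def p13_20_1_178 : pfC (piC [(nat_lit 35404596), (nat_lit 22827826), (nat_lit 14696761)] (nat_lit 11551828)) p13_20_1 (nat_lit 3) (nat_lit 178) (nat_lit 179) = true := by decide +kernel
def p13_20_1_179 : pfC (piC [(nat_lit 35404596), (nat_lit 22827826), (nat_lit 14696761)] (nat_lit 11551828)) p13_20_1 (nat_lit 3) (nat_lit 179) (nat_lit 180) = true := by decide +kernel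
def p13_20_1_180 : pfC (piC [(nat_lit 35404596), (nat_lit 22827826), (nat_lit 14696761)] (nat_lit 11551828)) p13_20_1 (nat_lit 3) (nat_lit 180) (nat_lit 181) = true := by decide +kernel
def p13_20_1_181 : pfC (piC [(nat_lit 35404596), (nat_lit 22827826), (nat_lit 14696761)] (nat_lit 11551828)) p13_20_1 (nat_lit 3) (nat_lit 181) (nat_lit 182) = true := by decide +kernel
def p13_20_1_182 : pfC (piC [(nat_lit 35404596), (nat_lit 22827826), (nat_lit 14696761)] (nat_lit 11551828)) p13_20_1 (nat_lit 3) (nat_lit 182) (nat_lit 183) = true := by decide +kernel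
def p13_20_1_183 : pfC (piC [(nat_lit 35404596), (nat_lit 22827826), (nat_lit 14696761)] (nat_lit 11551828)) p13_20_1 (nat_lit 3) (nat_lit 183) (nat_lit 184) = true := by decide +kernel
def p13_20_1_184 : pfC (piC [(nat_lit 35404596), (nat_lit 22827826), (nat_lit 14696761)] (nat_lit 11551828)) p13_20_1 (nat_lit 3) (nat_lit 184) (nat_lit 185) = true := by decide +kernel
def p13_20_1_185 : pfC (piC [(nat_lit 35404596), (nat_lit 22827826), (nat_lit 14696761)] (nat_lit 11551828)) p13_20_1 (nat_lit 3) (nat_lit 185) (nat_lit 186) = true := by decide +kernel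
def p13_20_1_186 : pfC (piC [(nat_lit 35404596), (nat_lit 22827826), (nat_lit 14696761)] (nat_lit 11551828)) p13_20_1 (nat_lit 3) (nat_lit 186) (nat_lit 187) = true := by decide +kernel
def p13_20_1_187 : pfC (piC [(nat_lit 35404596), (nat_lit 22827826), (nat_lit 14696761)] (nat_lit 11551828)) p13_20_1 (nat_lit 3) (nat_lit 187) (nat_lit 188) = true := by decide +kernel
def p13_20_1_188 : pfC (piC [(nat_lit 35404596), (nat_lit 22827826), (nat_lit 14696761)] (nat_lit 11551828)) p13_20_1 (nat_lit 3) (nat_lit 188) (nat_lit 189) = true := by decide +kernel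
def p13_20_1_189 : pfC (piC [(nat_lit 35404596), (nat_lit 22827826), (nat_lit 14696761)] (nat_lit 11551828)) p13_20_1 (nat_lit 3) (nat_lit 189) (nat_lit 190) = true := by decide +kernel
def p13_20_1_190 : pfC (piC [(nat_lit 35404596), (nat_lit 22827826), (nat_lit 14696761)] (nat_lit 11551828)) p13_20_1 (nat_lit 3) (nat_lit 190) (nat_lit 191) = true := by decide +kernel
def p13_20_1_191 : pfC (piC [(nat_lit 35404596), (nat_lit 22827826), (nat_lit 14696761)] (nat_lit 11551828)) p13_20_1 (nat_lit 3) (nat_lit 191) (nat_lit 192) = true := by decide +kernel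
def p13_20_1_192 : pfC (piC [(nat_lit 35404596), (nat_lit 22827826), (nat_lit 14696761)] (nat_lit 11551828)) p13_20_1 (nat_lit 3) (nat_lit 192) (nat_lit 193) = true := by decide +kernel
def p13_20_1_193 : pfC (piC [(nat_lit 35404596), (nat_lit 22827826), (nat_lit 14696761)] (nat_lit 11551828)) p13_20_1 (nat_lit 3) (nat_lit 193) (nat_lit 194) = true := by decide +kernel
def p13_20_1_194 : pfC (piC [(nat_lit 35404596), (nat_lit 22827826), (nat_lit 14696761)] (nat_lit 11551828)) p13_20_1 (nat_lit 3) (nat_lit 194) (nat_lit 195) = true := by decide +kernel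
def p13_20_1_195 : pfC (piC [(nat_lit 35404596), (nat_lit 22827826), (nat_lit 14696761)] (nat_lit 11551828)) p13_20_1 (nat_lit 3) (nat_lit 195) (nat_lit 196) = true := by decide +kernel
def p13_20_1_196 : pfC (piC [(nat_lit 35404596), (nat_lit 22827826), (nat_lit 14696761)] (nat_lit 11551828)) p13_20_1 (nat_lit 3) (nat_lit 196) (nat_lit 197) = true := by decide +kernel
def p13_20_1_197 : pfC (piC [(nat_lit 35404596), (nat_lit 22827826), (nat_lit 14696761)] (nat_lit 11551828)) p13_20_1 (nat_lit 3) (nat_lit 197) (nat_lit 198) = true := by decide +kernel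
def p13_20_1_198 : pfC (piC [(nat_lit 35404596), (nat_lit 22827826), (nat_lit 14696761)] (nat_lit 11551828)) p13_20_1 (nat_lit 3) (nat_lit 198) (nat_lit 199) = true := by decide +kernel
def p13_20_1_199 : pfC (piC [(nat_lit 35404596), (nat_lit 22827826), (nat_lit 14696761)] (nat_lit 11551828)) p13_20_1 (nat_lit 3) (nat_lit 199) (nat_lit 200) = true := by decide +kernel
def p13_20_1_200 : pfC (piC [(nat_lit 35404596), (nat_lit 22827826), (nat_lit 14696761)] (nat_lit 11551828)) p13_20_1 (nat_lit 3) (nat_lit 200) (nat_lit 201) = true := by decide +kernel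
def p13_20_1_201 : pfC (piC [(nat_lit 35404596), (nat_lit 22827826), (nat_lit 14696761)] (nat_lit 11551828)) p13_20_1 (nat_lit 3) (nat_lit 201) (nat_lit 202) = true := by decide +kernel
def p13_20_1_202 : pfC (piC [(nat_lit 35404596), (nat_lit 22827826), (nat_lit 14696761)] (nat_lit 11551828)) p13_20_1 (nat_lit 3) (nat_lit 202) (nat_lit 203) = true := by decide +kernel
def p13_20_1_203 : pfC (piC [(nat_lit 35404596), (nat_lit 22827826), (nat_lit 14696761)] (nat_lit 11551828)) p13_20_1 (nat_lit 3) (nat_lit 203) (nat_lit 204) = true := by decide +kernel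
theorem p13_20_1_T : PfS (PiF n13_20.reverse (nat_lit 11551828)) p13_20_1 (nat_lit 3) [] 0 :=
  pftab_of (los := [(nat_lit 35404596), (nat_lit 22827826), (nat_lit 14696761)]) (by decide +kernel) (hi := (nat_lit 204)) (PfP.trans (PfP.trans (PfP.trans (PfP.trans (PfP.trans (PfP.trans (PfP.trans (PfP.trans (PfP.trans (PfP.trans (PfP.trans (PfP.trans (PfP.trans (PfP.trans (PfP.trans (PfP.trans (PfP.trans (PfP.trans (PfP.trans (PfP.trans (PfP.trans (PfP.trans (PfP.trans (PfP.trans (PfP.trans (PfP.trans (PfP.trans (PfP.trans (PfP.trans (PfP.trans (PfP.trans (PfP.trans (PfP.trans (PfP.trans (PfP.trans (PfP.trans (PfP.trans (PfP.trans (PfP.trans (PfP.trans (PfP.trans (PfP.trans (PfP.trans (PfP.trans (PfP.trans (PfP.trans (PfP.trans (PfP.trans (PfP.trans (PfP.trans (PfP.trans (PfP.trans (PfP.trans (PfP.trans (PfP.trans (PfP.trans (PfP.trans (PfP.trans (PfP.trans (PfP.trans (PfP.trans (PfP.trans (PfP.trans (PfP.trans (PfP.trans (PfP.trans (PfP.trans (PfP.trans (PfP.trans (PfP.trans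 (PfP.trans (PfP.trans (PfP.trans (PfP.trans (PfP.trans (PfP.trans (PfP.trans (PfP.trans (PfP.trans (PfP.trans (PfP.trans (PfP.trans (PfP.trans (PfP.trans (PfP.trans (PfP.trans (PfP.trans (PfP.trans (PfP.trans (PfP.trans (PfP.trans (PfP.trans (PfP.trans (PfP.trans (PfP.trans (PfP.trans (PfP.trans (PfP.trans (PfP.trans (PfP.trans (PfP.trans (PfP.trans (PfP.trans (PfP.trans (PfP.trans (PfP.trans (PfP.trans (PfP.trans (PfP.trans
 (PfP.trans (PfP.trans (PfP.trans (PfP.trans (PfP.trans (PfP.trans (PfP.trans (PfP.trans (PfP.trans (PfP.trans (PfP.trans (PfP.trans (PfP.trans (PfP.trans (PfP.trans (PfP.trans (PfP.trans (PfP.trans (PfP.trans (PfP.trans (PfP.trans (PfP.trans (PfP.trans (PfP.trans (PfP.trans (PfP.trans (PfP.trans (PfP.trans (PfP.trans (PfP.trans (PfP.trans (PfP.trans (PfP.trans (PfP.trans (PfP.trans (PfP.trans (PfP.trans (PfP.trans (PfP.trans (PfP.trans (PfP.trans (PfP.trans (PfP.trans (PfP.trans (PfP.trans (PfP.trans (PfP.trans (PfP.trans (PfP.trans (PfP.trans (PfP.trans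 (PfP.trans (PfP.trans (PfP.trans (PfP.trans (PfP.trans (PfP.trans (PfP.trans (PfP.trans (PfP.trans (PfP.trans (PfP.trans (PfP.trans (PfP.trans (PfP.trans (PfP.trans (PfP.trans (PfP.trans (PfP.trans (PfP.trans (PfP.trans (PfP.trans (PfP.trans (PfP.trans (PfP.trans (PfP.trans (PfP.trans (PfP.trans (PfP.trans (PfP.trans (PfP.trans (PfP.trans (PfP.trans (PfP.trans (PfP.trans (PfP.trans (PfP.trans (PfP.trans (PfP.trans (PfP.trans (PfP.trans (PfP.trans (PfP.trans (PfP.trans (pfC_sound p13_20_1_0) (pfC_sound p13_20_1_1)) (pfC_sound p13_20_1_2)) (pfC_sound p13_20_1_3)) (pfC_sound p13_20_1_4)) (pfC_sound p13_20_1_5)) (pfC_sound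
 p13_20_1_6)) (pfC_sound p13_20_1_7)) (pfC_sound p13_20_1_8)) (pfC_sound p13_20_1_9)) (pfC_sound p13_20_1_10)) (pfC_sound p13_20_1_11)) (pfC_sound p13_20_1_12)) (pfC_sound p13_20_1_13)) (pfC_sound p13_20_1_14)) (pfC_sound p13_20_1_15)) (pfC_sound p13_20_1_16)) (pfC_sound p13_20_1_17)) (pfC_sound p13_20_1_18)) (pfC_sound p13_20_1_19)) (pfC_sound p13_20_1_20)) (pfC_sound p13_20_1_21)) (pfC_sound p13_20_1_22)) (pfC_sound p13_20_1_23)) (pfC_sound p13_20_1_24)) (pfC_sound p13_20_1_25)) (pfC_sound p13_20_1_26)) (pfC_sound p13_20_1_27)) (pfC_sound p13_20_1_28)) (pfC_sound p13_20_1_29)) (pfC_sound p13_20_1_30)) (pfC_sound p13_20_1_31)) (pfC_sound p13_20_1_32)) (pfC_sound p13_20_1_33)) (pfC_sound p13_20_1_34)) (pfC_sound p13_20_1_35)) (pfC_sound p13_20_1_36)) (pfC_sound p13_20_1_37)) (pfC_sound p13_20_1_38)) (pfC_sound p13_20_1_39)) (pfC_sound p13_20_1_40)) (pfC_sound p13_20_1_41)) (pfC_sound p13_20_1_42)) (pfC_sound p13_20_1_43)) (pfC_sound p13_20_1_44)) (pfC_sound p13_20_1_45))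 (pfC_sound p13_20_1_46)) (pfC_sound p13_20_1_47)) (pfC_sound p13_20_1_48)) (pfC_sound p13_20_1_49)) (pfC_sound p13_20_1_50)) (pfC_sound p13_20_1_51)) (pfC_sound p13_20_1_52)) (pfC_sound p13_20_1_53)) (pfC_sound
 p13_20_1_54)) (pfC_sound p13_20_1_55)) (pfC_sound p13_20_1_56)) (pfC_sound p13_20_1_57)) (pfC_sound p13_20_1_58)) (pfC_sound p13_20_1_59)) (pfC_sound p13_20_1_60)) (pfC_sound p13_20_1_61)) (pfC_sound p13_20_1_62)) (pfC_sound p13_20_1_63)) (pfC_sound p13_20_1_64)) (pfC_sound p13_20_1_65)) (pfC_sound p13_20_1_66)) (pfC_sound p13_20_1_67)) (pfC_sound p13_20_1_68)) (pfC_sound p13_20_1_69)) (pfC_sound p13_20_1_70)) (pfC_sound p13_20_1_71)) (pfC_sound p13_20_1_72)) (pfC_sound p13_20_1_73)) (pfC_sound p13_20_1_74)) (pfC_sound p13_20_1_75)) (pfC_sound p13_20_1_76)) (pfC_sound p13_20_1_77)) (pfC_sound p13_20_1_78)) (pfC_sound p13_20_1_79)) (pfC_sound p13_20_1_80)) (pfC_sound p13_20_1_81)) (pfC_sound p13_20_1_82)) (pfC_sound p13_20_1_83)) (pfC_sound p13_20_1_84)) (pfC_sound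 p13_20_1_85)) (pfC_sound p13_20_1_86)) (pfC_sound p13_20_1_87)) (pfC_sound p13_20_1_88)) (pfC_sound p13_20_1_89)) (pfC_sound p13_20_1_90)) (pfC_sound p13_20_1_91)) (pfC_sound p13_20_1_92)) (pfC_sound p13_20_1_93)) (pfC_sound p13_20_1_94)) (pfC_sound p13_20_1_95)) (pfC_sound p13_20_1_96)) (pfC_sound p13_20_1_97)) (pfC_sound p13_20_1_98)) (pfC_sound p13_20_1_99)) (pfC_sound p13_20_1_100)) (pfC_sound p13_20_1_101))
 (pfC_sound p13_20_1_102)) (pfC_sound p13_20_1_103)) (pfC_sound p13_20_1_104)) (pfC_sound p13_20_1_105)) (pfC_sound p13_20_1_106)) (pfC_sound p13_20_1_107)) (pfC_sound p13_20_1_108)) (pfC_sound p13_20_1_109)) (pfC_sound p13_20_1_110)) (pfC_sound p13_20_1_111)) (pfC_sound p13_20_1_112)) (pfC_sound p13_20_1_113)) (pfC_sound p13_20_1_114)) (pfC_sound p13_20_1_115)) (pfC_sound p13_20_1_116)) (pfC_sound p13_20_1_117)) (pfC_sound p13_20_1_118)) (pfC_sound p13_20_1_119)) (pfC_sound p13_20_1_120)) (pfC_sound p13_20_1_121)) (pfC_sound p13_20_1_122)) (pfC_sound p13_20_1_123))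 (pfC_sound p13_20_1_124)) (pfC_sound p13_20_1_125)) (pfC_sound p13_20_1_126)) (pfC_sound p13_20_1_127)) (pfC_sound p13_20_1_128)) (pfC_sound p13_20_1_129)) (pfC_sound p13_20_1_130)) (pfC_sound p13_20_1_131)) (pfC_sound p13_20_1_132)) (pfC_sound p13_20_1_133)) (pfC_sound p13_20_1_134)) (pfC_sound p13_20_1_135)) (pfC_sound p13_20_1_136)) (pfC_sound p13_20_1_137)) (pfC_sound p13_20_1_138)) (pfC_sound p13_20_1_139)) (pfC_sound p13_20_1_140)) (pfC_sound p13_20_1_141)) (pfC_sound p13_20_1_142)) (pfC_sound p13_20_1_143)) (pfC_sound p13_20_1_144)) (pfC_sound p13_20_1_145)) (pfC_sound p13_20_1_146)) (pfC_sound p13_20_1_147))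
 (pfC_sound p13_20_1_148)) (pfC_sound p13_20_1_149)) (pfC_sound p13_20_1_150)) (pfC_sound p13_20_1_151)) (pfC_sound p13_20_1_152)) (pfC_sound p13_20_1_153)) (pfC_sound p13_20_1_154)) (pfC_sound p13_20_1_155)) (pfC_sound p13_20_1_156)) (pfC_sound p13_20_1_157)) (pfC_sound p13_20_1_158)) (pfC_sound p13_20_1_159)) (pfC_sound p13_20_1_160)) (pfC_sound p13_20_1_161)) (pfC_sound p13_20_1_162)) (pfC_sound p13_20_1_163)) (pfC_sound p13_20_1_164)) (pfC_sound p13_20_1_165)) (pfC_sound p13_20_1_166)) (pfC_sound p13_20_1_167)) (pfC_sound p13_20_1_168)) (pfC_sound p13_20_1_169)) (pfC_sound p13_20_1_170)) (pfC_sound p13_20_1_171)) (pfC_sound p13_20_1_172)) (pfC_sound p13_20_1_173)) (pfC_sound p13_20_1_174)) (pfC_sound p13_20_1_175)) (pfC_sound p13_20_1_176)) (pfC_sound p13_20_1_177)) (pfC_sound p13_20_1_178)) (pfC_sound p13_20_1_179)) (pfC_sound p13_20_1_180)) (pfC_sound p13_20_1_181)) (pfC_sound p13_20_1_182)) (pfC_sound p13_20_1_183)) (pfC_sound p13_20_1_184)) (pfC_sound p13_20_1_185))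 (pfC_sound p13_20_1_186)) (pfC_sound p13_20_1_187)) (pfC_sound p13_20_1_188)) (pfC_sound p13_20_1_189)) (pfC_sound p13_20_1_190)) (pfC_sound p13_20_1_191)) (pfC_sound p13_20_1_192)) (pfC_sound p13_20_1_193))
 (pfC_sound p13_20_1_194)) (pfC_sound p13_20_1_195)) (pfC_sound p13_20_1_196)) (pfC_sound p13_20_1_197)) (pfC_sound p13_20_1_198)) (pfC_sound p13_20_1_199)) (pfC_sound p13_20_1_200)) (pfC_sound p13_20_1_201)) (pfC_sound p13_20_1_202)) (pfC_sound p13_20_1_203)) (by decide +kernel)

def z13_20_1 : zOK yB13_20 (nat_lit 1) (nat_lit 400) (nat_lit 600) (nat_lit 11551828) (nat_lit 7236065) = true := by decide +kernel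
def g13_20_1 : gOK yB13_20.x P13_20 (nat_lit 1368) (q13_20 :: r13_20) (nat_lit 1) (nat_lit 400) (nat_lit 2) (nat_lit 600) (nat_lit 11000000) (nat_lit 17850000) (nat_lit 12712500) (nat_lit 12712500) [(nat_lit 800), (nat_lit 1600)] = true := by decide +kernel
def v13_20_1 : ivC P13_20 s13_20 w13_20 n13_20 (nat_lit 3) (nat_lit 4860) (nat_lit 1) (nat_lit 400) f184_0_400 f192_0_400 (nat_lit 2) (nat_lit 600) f184_0_600 f192_0_600 (nat_lit 11551828) (nat_lit 7236065) p13_20_1 = true := by decide +kernel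
def p13_20_2 : PF := (PF.cons (PF.cons (PF.cons (PF.leaf (nat_lit 2434234) (nat_lit 12779591) (nat_lit 54329221) (nat_lit 12779591) [(nat_lit 0), (nat_lit 0), (nat_lit 0)]) (PF.cons (PF.leaf (nat_lit 2677448) (nat_lit 456145) (nat_lit 53868487) (nat_lit 12784179) [(nat_lit 456145), (nat_lit 0), (nat_lit 0)]) (PF.cons (PF.leaf (nat_lit 2962575) (nat_lit 495083) (nat_lit 53333314) (nat_lit 12785332) [(nat_lit 495083), (nat_lit 0), (nat_lit 0)]) (PF.cons (PF.leaf (nat_lit 3281262) (nat_lit 529156) (nat_lit 52739717) (nat_lit 12781625) [(nat_lit 529156), (nat_lit 0), (nat_lit 0)]) (PF.cons (PF.leaf (nat_lit 3627894) (nat_lit 559360) (nat_lit 52099350) (nat_lit 12772022) [(nat_lit 559360), (nat_lit 0), (nat_lit 0)]) (PF.cons (PF.leaf (nat_lit 3998031) (nat_lit 586329) (nat_lit 51421369) (nat_lit 12755798) [(nat_lit 586329), (nat_lit 0), (nat_lit 0)]) (PF.cons (PF.leaf (nat_lit 4387999) (nat_lit 610502) (nat_lit 50713302) (nat_lit 12732494) [(nat_lit 610502), (nat_lit 0),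 (nat_lit 0)]) (PF.cons (PF.leaf (nat_lit 4794637) (nat_lit 632204) (nat_lit 49981516) (nat_lit 12701864) [(nat_lit 632204), (nat_lit 0), (nat_lit 0)]) (PF.cons (PF.leaf (nat_lit 5215194) (nat_lit 651686) (nat_lit 49231478) (nat_lit
 12663845) [(nat_lit 651686), (nat_lit 0), (nat_lit 0)]) (PF.cons (PF.leaf (nat_lit 5647206) (nat_lit 669151) (nat_lit 48467936) (nat_lit 12618516) [(nat_lit 669151), (nat_lit 0), (nat_lit 0)]) (PF.cons (PF.leaf (nat_lit 6088495) (nat_lit 684770) (nat_lit 47695033) (nat_lit 12566074) [(nat_lit 684770), (nat_lit 0), (nat_lit 0)]) (PF.cons (PF.leaf (nat_lit 6537098) (nat_lit 698692) (nat_lit 46916389) (nat_lit 12506801) [(nat_lit 698692), (nat_lit 0), (nat_lit 0)]) (PF.cons (PF.leaf (nat_lit 6991258) (nat_lit 711049) (nat_lit 46135172) (nat_lit 12441050) [(nat_lit 711049), (nat_lit 0), (nat_lit 0)]) (PF.cons (PF.leaf (nat_lit 7449401) (nat_lit 721957) (nat_lit 45354145) (nat_lit 12369219) [(nat_lit 721957), (nat_lit 0), (nat_lit 0)]) (PF.cons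 (PF.leaf (nat_lit 7910125) (nat_lit 731525) (nat_lit 44575711) (nat_lit 12291737) [(nat_lit 731525), (nat_lit 0), (nat_lit 0)]) (PF.cons PF.nil (PF.cons PF.nil (PF.cons PF.nil PF.nil)))))))))))))))))) (PF.cons (PF.cons (PF.leaf (nat_lit 3252124) (nat_lit 2165844) (nat_lit 52183636) (nat_lit 12759332) [(nat_lit 0), (nat_lit 2165844), (nat_lit 0)]) (PF.cons (PF.leaf (nat_lit 3560436) (nat_lit 545636) (nat_lit 51603956) (nat_lit 12746636) [(nat_lit
 545636), (nat_lit 2212583), (nat_lit 0)]) (PF.cons (PF.leaf (nat_lit 3898627) (nat_lit 574171) (nat_lit 50975554) (nat_lit 12727922) [(nat_lit 574171), (nat_lit 2256994), (nat_lit 0)]) (PF.cons (PF.leaf (nat_lit 4260963) (nat_lit 599474) (nat_lit 50309428) (nat_lit 12702676) [(nat_lit 599474), (nat_lit 2298284), (nat_lit 0)]) (PF.cons (PF.leaf (nat_lit 4643282) (nat_lit 622040) (nat_lit 49613967) (nat_lit 12670601) [(nat_lit 622040), (nat_lit 2336080), (nat_lit 0)]) (PF.cons (PF.leaf (nat_lit 5042208) (nat_lit 642216) (nat_lit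 48895917) (nat_lit 12631576) [(nat_lit 642216), (nat_lit 2370238), (nat_lit 0)]) (PF.cons (PF.leaf (nat_lit 5454826) (nat_lit 660259) (nat_lit 48160881) (nat_lit 12585627) [(nat_lit 660259), (nat_lit 2400744), (nat_lit 0)]) (PF.cons (PF.leaf (nat_lit 5878657) (nat_lit 676378) (nat_lit 47413601) (nat_lit 12532899) [(nat_lit 676378), (nat_lit 2427664), (nat_lit 0)]) (PF.cons (PF.leaf (nat_lit 6311498) (nat_lit 690741) (nat_lit 46658140) (nat_lit 12473628) [(nat_lit 690741), (nat_lit 2451111), (nat_lit 0)]) (PF.cons (PF.leaf (nat_lit 6751402) (nat_lit 703495) (nat_lit 45897998) (nat_lit 12408122) [(nat_lit 703495), (nat_lit 2471229), (nat_lit 0)]) (PF.cons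
 (PF.leaf (nat_lit 7196674) (nat_lit 714769) (nat_lit 45136199) (nat_lit 12336740) [(nat_lit 714769), (nat_lit 2488182), (nat_lit 0)]) (PF.cons (PF.leaf (nat_lit 7645750) (nat_lit 724675) (nat_lit 44375360) (nat_lit 12259875) [(nat_lit 724675), (nat_lit 2502141), (nat_lit 0)]) (PF.cons (PF.leaf (nat_lit 8097275) (nat_lit 733320) (nat_lit 43617736) (nat_lit 12177946) [(nat_lit 733320), (nat_lit 2513284), (nat_lit 0)]) (PF.cons (PF.leaf (nat_lit 8550029) (nat_lit 740797) (nat_lit 42865268) (nat_lit 12091382) [(nat_lit 740797), (nat_lit 2521788), (nat_lit 0)]) (PF.cons PF.nil (PF.cons PF.nil PF.nil)))))))))))))))) (PF.cons (PF.cons (PF.leaf (nat_lit 4168548) (nat_lit 2296848) (nat_lit 49846455) (nat_lit 12668659) [(nat_lit 0), (nat_lit 2296848), (nat_lit 0)]) (PF.cons (PF.leaf (nat_lit 4520353) (nat_lit 609795) (nat_lit 49199549) (nat_lit 12635729) [(nat_lit 609795), (nat_lit 2331869), (nat_lit 0)]) (PF.cons (PF.leaf (nat_lit 4893356) (nat_lit 631147) (nat_lit 48522216)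 (nat_lit 12596156) [(nat_lit 631147), (nat_lit 2364072), (nat_lit 0)]) (PF.cons (PF.leaf (nat_lit 5283374) (nat_lit 650102) (nat_lit 47822168) (nat_lit 12549953) [(nat_lit 650102), (nat_lit 2393192), (nat_lit 0)])
 (PF.cons (PF.leaf (nat_lit 5687245) (nat_lit 666957) (nat_lit 47105477) (nat_lit 12497237) [(nat_lit 666957), (nat_lit 2419133), (nat_lit 0)]) (PF.cons (PF.leaf (nat_lit 6102325) (nat_lit 681938) (nat_lit 46377095) (nat_lit 12438216) [(nat_lit 681938), (nat_lit 2441904), (nat_lit 0)]) (PF.cons (PF.leaf (nat_lit 6526349) (nat_lit 695224) (nat_lit 45641148) (nat_lit 12373163) [(nat_lit 695224), (nat_lit 2461575), (nat_lit 0)]) (PF.cons (PF.leaf (nat_lit 6957368) (nat_lit 706967) (nat_lit 44901120) (nat_lit 12302407) [(nat_lit 706967), (nat_lit 2478256), (nat_lit 0)]) (PF.cons (PF.leaf (nat_lit 7393639) (nat_lit 717295) (nat_lit 44159973) (nat_lit 12226313) [(nat_lit 717295), (nat_lit 2492078), (nat_lit 0)]) (PF.cons (PF.leaf (nat_lit 7833652) (nat_lit 726324)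 (nat_lit 43420236) (nat_lit 12145272) [(nat_lit 726324), (nat_lit 2503191), (nat_lit 0)]) (PF.cons (PF.leaf (nat_lit 8276066) (nat_lit 734155) (nat_lit 42684067) (nat_lit 12059688) [(nat_lit 734155), (nat_lit 2511749), (nat_lit 0)]) (PF.cons (PF.leaf (nat_lit 8719699) (nat_lit 740882) (nat_lit 41953306) (nat_lit 11969970) [(nat_lit 740882), (nat_lit 2517911), (nat_lit 0)]) (PF.cons PF.nil (PF.cons PF.nil PF.nil))))))))))))))
 (PF.cons (PF.cons (PF.leaf (nat_lit 5140152) (nat_lit 2386473) (nat_lit 47439134) (nat_lit 12510258) [(nat_lit 0), (nat_lit 2386473), (nat_lit 0)]) (PF.cons (PF.leaf (nat_lit 5519557) (nat_lit 656009) (nat_lit 46761385) (nat_lit 12458122) [(nat_lit 656009), (nat_lit 2411098), (nat_lit 0)]) (PF.cons (PF.leaf (nat_lit 5913656) (nat_lit 671920) (nat_lit 46066263) (nat_lit 12399790) [(nat_lit 671920), (nat_lit 2432972), (nat_lit 0)]) (PF.cons (PF.leaf (nat_lit 6319302) (nat_lit 685965) (nat_lit 45359230) (nat_lit 12335544) [(nat_lit 685965), (nat_lit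 2452047), (nat_lit 0)]) (PF.cons (PF.leaf (nat_lit 6734070) (nat_lit 698345) (nat_lit 44644666) (nat_lit 12265702) [(nat_lit 698345), (nat_lit 2468354), (nat_lit 0)]) (PF.cons (PF.leaf (nat_lit 7155905) (nat_lit 709223) (nat_lit 43926164) (nat_lit 12190618) [(nat_lit 709223), (nat_lit 2481971), (nat_lit 0)]) (PF.cons (PF.leaf (nat_lit 7583047) (nat_lit 718736) (nat_lit 43206711) (nat_lit 12110666) [(nat_lit 718736), (nat_lit 2493006), (nat_lit 0)]) (PF.cons (PF.leaf (nat_lit 8013963) (nat_lit 727000) (nat_lit 42488818) (nat_lit 12026234) [(nat_lit 727000), (nat_lit 2501584), (nat_lit 0)]) (PF.cons (PF.leaf (nat_lit 8447324) (nat_lit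
 734121) (nat_lit 41774597) (nat_lit 11937717) [(nat_lit 734121), (nat_lit 2507842), (nat_lit 0)]) (PF.cons (PF.leaf (nat_lit 8881949) (nat_lit 740190) (nat_lit 41065828) (nat_lit 11845508) [(nat_lit 740190), (nat_lit 2511919), (nat_lit 0)]) (PF.cons PF.nil (PF.cons PF.nil PF.nil)))))))))))) (PF.cons (PF.cons (PF.leaf (nat_lit 6135604) (nat_lit 2442765) (nat_lit 45043507) (nat_lit 12294242) [(nat_lit 0), (nat_lit 2442765), (nat_lit 0)]) (PF.cons (PF.leaf (nat_lit 6530741) (nat_lit 688559) (nat_lit 44360267) (nat_lit 12225817) [(nat_lit 688559), (nat_lit 2458542), (nat_lit 0)]) (PF.cons (PF.leaf (nat_lit 6935665) (nat_lit 700201) (nat_lit 43668870) (nat_lit 12152139) [(nat_lit 700201), (nat_lit 2471850), (nat_lit 0)]) (PF.cons (PF.leaf (nat_lit 7347959) (nat_lit 710358) (nat_lit 42973188) (nat_lit 12073596) [(nat_lit 710358), (nat_lit 2482738), (nat_lit 0)]) (PF.cons (PF.leaf (nat_lit 7765768) (nat_lit 719179) (nat_lit 42276350) (nat_lit 11990580) [(nat_lit 719179), (nat_lit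 2491291), (nat_lit 0)]) (PF.cons (PF.leaf (nat_lit 8187509) (nat_lit 726788) (nat_lit 41580923) (nat_lit 11903483) [(nat_lit 726788), (nat_lit 2497615), (nat_lit 0)]) (PF.cons (PF.leaf (nat_lit 8611824) (nat_lit
 733295) (nat_lit 40889032) (nat_lit 11812694) [(nat_lit 733295), (nat_lit 2501828), (nat_lit 0)]) (PF.cons (PF.leaf (nat_lit 9037520) (nat_lit 738792) (nat_lit 40202444) (nat_lit 11718595) [(nat_lit 738792), (nat_lit 2504055), (nat_lit 0)]) (PF.cons (PF.leaf (nat_lit 9463583) (nat_lit 743365) (nat_lit 39522629) (nat_lit 11621557) [(nat_lit 743365), (nat_lit 2504425), (nat_lit 0)]) (PF.cons PF.nil PF.nil)))))))))) (PF.cons (PF.cons (PF.leaf (nat_lit 7132412) (nat_lit 2472415) (nat_lit 42713503) (nat_lit 12033234) [(nat_lit 0), (nat_lit 2472415), (nat_lit 0)]) (PF.cons (PF.leaf (nat_lit 7534499) (nat_lit 710446) (nat_lit 42041924) (nat_lit 11952063) [(nat_lit 710446), (nat_lit 2480875), (nat_lit 0)]) (PF.cons (PF.leaf (nat_lit 7942684) (nat_lit 718697) (nat_lit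 41368569) (nat_lit 11866731) [(nat_lit 718697), (nat_lit 2487223), (nat_lit 0)]) (PF.cons (PF.leaf (nat_lit 8355097) (nat_lit 725758) (nat_lit 40696166) (nat_lit 11777644) [(nat_lit 725758), (nat_lit 2491545), (nat_lit 0)]) (PF.cons (PF.leaf (nat_lit 8770318) (nat_lit 731742) (nat_lit 40026922) (nat_lit 11685193) [(nat_lit 731742), (nat_lit 2493945), (nat_lit 0)]) (PF.cons (PF.leaf (nat_lit 9187122) (nat_lit 736750) (nat_lit
 39362639) (nat_lit 11589754) [(nat_lit 736750), (nat_lit 2494533), (nat_lit 0)]) (PF.cons (PF.leaf (nat_lit 9604489) (nat_lit 740866) (nat_lit 38704796) (nat_lit 11491686) [(nat_lit 740866), (nat_lit 2493425), (nat_lit 0)]) (PF.cons PF.nil PF.nil)))))))) (PF.cons (PF.cons (PF.leaf (nat_lit 8114868) (nat_lit 2481054) (nat_lit 40482794) (nat_lit 11739693) [(nat_lit 0), (nat_lit 2481054), (nat_lit 0)]) (PF.cons (PF.leaf (nat_lit 8517542) (nat_lit 723965) (nat_lit 39833968) (nat_lit 11649251) [(nat_lit 723965), (nat_lit 2483604), (nat_lit 0)]) (PF.cons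 (PF.leaf (nat_lit 8923556) (nat_lit 729518) (nat_lit 39187663) (nat_lit 11555704) [(nat_lit 729518), (nat_lit 2484401), (nat_lit 0)]) (PF.cons (PF.leaf (nat_lit 9331459) (nat_lit 734115) (nat_lit 38545781) (nat_lit 11459430) [(nat_lit 734115), (nat_lit 2483542), (nat_lit 0)]) (PF.cons (PF.leaf (nat_lit 9740166) (nat_lit 737845) (nat_lit 37909854) (nat_lit 11360784) [(nat_lit 737845), (nat_lit 2481132), (nat_lit 0)]) (PF.cons PF.nil PF.nil)))))) (PF.cons (PF.cons (PF.leaf (nat_lit 9072461) (nat_lit 2473380) (nat_lit 38370511) (nat_lit 11424639) [(nat_lit 0), (nat_lit 2473380), (nat_lit 0)]) (PF.cons (PF.leaf (nat_lit 9471207) (nat_lit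
 730930) (nat_lit 37751133) (nat_lit 11328002) [(nat_lit 730930), (nat_lit 2471249), (nat_lit 0)]) (PF.cons (PF.leaf (nat_lit 9871260) (nat_lit 734342) (nat_lit 37137062) (nat_lit 11229193) [(nat_lit 734342), (nat_lit 2467696), (nat_lit 0)]) (PF.cons (PF.leaf (nat_lit 10271484) (nat_lit 736985) (nat_lit 36529605) (nat_lit 11128543) [(nat_lit 736985), (nat_lit 2462815), (nat_lit 0)]) PF.nil)))) (PF.cons (PF.cons (PF.leaf (nat_lit 9998553) (nat_lit 2453250) (nat_lit 36385605) (nat_lit 11097199) [(nat_lit 0), (nat_lit 2453250), (nat_lit 0)]) (PF.cons (PF.leaf (nat_lit 10390263) (nat_lit 732791) (nat_lit 35799256) (nat_lit 10996927) [(nat_lit 732791), (nat_lit 2447479), (nat_lit 0)]) PF.nil)) (PF.cons PF.nil (PF.cons PF.nil PF.nil))))))))))) (PF.cons (PF.cons (PF.cons (PF.leaf (nat_lit 4132544) (nat_lit 6362967) (nat_lit 48252806) (nat_lit 12493038) [(nat_lit 0), (nat_lit 0), (nat_lit 6362967)]) (PF.cons (PF.leaf (nat_lit 4445102) (nat_lit 575802) (nat_lit 47696010) (nat_lit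 12458335) [(nat_lit 575802), (nat_lit 0), (nat_lit 6378664)]) (PF.cons (PF.leaf (nat_lit 4784499) (nat_lit 600983) (nat_lit 47098019) (nat_lit 12417239) [(nat_lit 600983), (nat_lit 0), (nat_lit 6391586)]) (PF.cons
 (PF.leaf (nat_lit 5144926) (nat_lit 622785) (nat_lit 46469489) (nat_lit 12369902) [(nat_lit 622785), (nat_lit 0), (nat_lit 6401063)]) (PF.cons (PF.leaf (nat_lit 5522290) (nat_lit 641828) (nat_lit 45818283) (nat_lit 12316507) [(nat_lit 641828), (nat_lit 0), (nat_lit 6406709)]) (PF.cons (PF.leaf (nat_lit 5913345) (nat_lit 658536) (nat_lit 45150520) (nat_lit 12257278) [(nat_lit 658536), (nat_lit 0), (nat_lit 6408333)]) (PF.cons (PF.leaf (nat_lit 6315421) (nat_lit 673220) (nat_lit 44471129) (nat_lit 12192485) [(nat_lit 673220), (nat_lit 0), (nat_lit 6405875)]) (PF.cons (PF.leaf (nat_lit 6726275) (nat_lit 686120) (nat_lit 43784165) (nat_lit 12122432) [(nat_lit 686120), (nat_lit 0), (nat_lit 6399372)]) (PF.cons (PF.leaf (nat_lit 7143971) (nat_lit 697426) (nat_lit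 43093010) (nat_lit 12047455) [(nat_lit 697426), (nat_lit 0), (nat_lit 6388930)]) (PF.cons (PF.leaf (nat_lit 7566841) (nat_lit 707298) (nat_lit 42400514) (nat_lit 11967909) [(nat_lit 707298), (nat_lit 0), (nat_lit 6374700)]) (PF.cons (PF.leaf (nat_lit 7993406) (nat_lit 715869) (nat_lit 41709086) (nat_lit 11884159) [(nat_lit 715869), (nat_lit 0), (nat_lit 6356869)]) (PF.cons (PF.leaf (nat_lit 8422383) (nat_lit 723256) (nat_lit
 41020766) (nat_lit 11796576) [(nat_lit 723256), (nat_lit 0), (nat_lit 6335644)]) (PF.cons (PF.leaf (nat_lit 8852635) (nat_lit 729562) (nat_lit 40337284) (nat_lit 11705531) [(nat_lit 729562), (nat_lit 0), (nat_lit 6311243)]) (PF.cons PF.nil (PF.cons PF.nil (PF.cons PF.nil PF.nil)))))))))))))))) (PF.cons (PF.cons (PF.leaf (nat_lit 5031234) (nat_lit 2341083) (nat_lit 46054225) (nat_lit 12324701) [(nat_lit 0), (nat_lit 2341083), (nat_lit 6388802)]) (PF.cons (PF.leaf (nat_lit 5379573) (nat_lit 628143) (nat_lit 45449400) (nat_lit 12272947) [(nat_lit 628143),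 (nat_lit 2365797), (nat_lit 6392524)]) (PF.cons (PF.leaf (nat_lit 5746401) (nat_lit 646389) (nat_lit 44820118) (nat_lit 12215213) [(nat_lit 646389), (nat_lit 2387929), (nat_lit 6392772)]) (PF.cons (PF.leaf (nat_lit 6127678) (nat_lit 662263) (nat_lit 44173444) (nat_lit 12151852) [(nat_lit 662263), (nat_lit 2407359), (nat_lit 6389364)]) (PF.cons (PF.leaf (nat_lit 6520428) (nat_lit 676120) (nat_lit 43514793) (nat_lit 12083211) [(nat_lit 676120), (nat_lit 2424084), (nat_lit 6382243)]) (PF.cons (PF.leaf (nat_lit 6922209) (nat_lit 688218) (nat_lit 42848462) (nat_lit 12009642) [(nat_lit 688218), (nat_lit 2438167), (nat_lit 6371447)])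
 (PF.cons (PF.leaf (nat_lit 7331012) (nat_lit 698762) (nat_lit 42177949) (nat_lit 11931507) [(nat_lit 698762), (nat_lit 2449709), (nat_lit 6357073)]) (PF.cons (PF.leaf (nat_lit 7745092) (nat_lit 707915) (nat_lit 41506137) (nat_lit 11849173) [(nat_lit 707915), (nat_lit 2458830), (nat_lit 6339266)]) (PF.cons (PF.leaf (nat_lit 8162961) (nat_lit 715814) (nat_lit 40835428) (nat_lit 11763007) [(nat_lit 715814), (nat_lit 2465663), (nat_lit 6318199)]) (PF.cons (PF.leaf (nat_lit 8583325) (nat_lit 722577) (nat_lit 40167833) (nat_lit 11673373) [(nat_lit 722577), (nat_lit 2470347), (nat_lit 6294063)]) (PF.cons (PF.leaf (nat_lit 9005050) (nat_lit 728305) (nat_lit 39505037) (nat_lit 11580631) [(nat_lit 728305), (nat_lit 2473021), (nat_lit 6267062)]) (PF.cons PF.nil (PF.cons PF.nil (PF.cons PF.nil PF.nil)))))))))))))) (PF.cons (PF.cons (PF.leaf (nat_lit 5968107) (nat_lit 2397485) (nat_lit 43835173) (nat_lit 12106522) [(nat_lit 0), (nat_lit 2397485), (nat_lit 6372146)]) (PF.cons (PF.leaf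 (nat_lit 6338129) (nat_lit 664475) (nat_lit 43212587) (nat_lit 12040041) [(nat_lit 664475), (nat_lit 2413651), (nat_lit 6364406)]) (PF.cons (PF.leaf (nat_lit 6720699) (nat_lit 677709) (nat_lit 42576799) (nat_lit
 11968449) [(nat_lit 677709), (nat_lit 2427438), (nat_lit 6353267)]) (PF.cons (PF.leaf (nat_lit 7112871) (nat_lit 689172) (nat_lit 41932621) (nat_lit 11892170) [(nat_lit 689172), (nat_lit 2438866), (nat_lit 6338769)]) (PF.cons (PF.leaf (nat_lit 7512424) (nat_lit 699090) (nat_lit 41283823) (nat_lit 11811608) [(nat_lit 699090), (nat_lit 2448004), (nat_lit 6321009)]) (PF.cons (PF.leaf (nat_lit 7917520) (nat_lit 707641) (nat_lit 40633434) (nat_lit 11727148) [(nat_lit 707641), (nat_lit 2454948), (nat_lit 6300124)]) (PF.cons (PF.leaf (nat_lit 8326608) (nat_lit 714970) (nat_lit 39983921) (nat_lit 11639167) [(nat_lit 714970), (nat_lit 2459810), (nat_lit 6276279)]) (PF.cons (PF.leaf (nat_lit 8738357) (nat_lit 721198) (nat_lit 39337318) (nat_lit 11548029) [(nat_lit 721198),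 (nat_lit 2462713), (nat_lit 6249652)]) (PF.cons (PF.leaf (nat_lit 9151635) (nat_lit 726428) (nat_lit 38695307) (nat_lit 11454085) [(nat_lit 726428), (nat_lit 2463779), (nat_lit 6220435)]) (PF.cons (PF.leaf (nat_lit 9565435) (nat_lit 730752) (nat_lit 38059283) (nat_lit 11357670) [(nat_lit 730752), (nat_lit 2463132), (nat_lit 6188821)]) (PF.cons PF.nil (PF.cons PF.nil PF.nil)))))))))))) (PF.cons (PF.cons (PF.leaf (nat_lit
 6917675) (nat_lit 2427967) (nat_lit 41656607) (nat_lit 11848797) [(nat_lit 0), (nat_lit 2427967), (nat_lit 6319503)]) (PF.cons (PF.leaf (nat_lit 7299292) (nat_lit 689039) (nat_lit 41036197) (nat_lit 11770607) [(nat_lit 689039), (nat_lit 2437035), (nat_lit 6301862)]) (PF.cons (PF.leaf (nat_lit 7689120) (nat_lit 698473) (nat_lit 40410209) (nat_lit 11688320) [(nat_lit 698473), (nat_lit 2444037), (nat_lit 6281223)]) (PF.cons (PF.leaf (nat_lit 8084942) (nat_lit 706539) (nat_lit 39781960) (nat_lit 11602364) [(nat_lit 706539), (nat_lit 2449048), (nat_lit 6257723)])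 (PF.cons (PF.leaf (nat_lit 8485092) (nat_lit 713396) (nat_lit 39154083) (nat_lit 11513132) [(nat_lit 713396), (nat_lit 2452163), (nat_lit 6231520)]) (PF.cons (PF.leaf (nat_lit 8888175) (nat_lit 719174) (nat_lit 38528697) (nat_lit 11420995) [(nat_lit 719174), (nat_lit 2453486), (nat_lit 6202787)]) (PF.cons (PF.leaf (nat_lit 9293008) (nat_lit 723981) (nat_lit 37907530) (nat_lit 11326302) [(nat_lit 723981), (nat_lit 2453128), (nat_lit 6171702)]) (PF.cons (PF.leaf (nat_lit 9698562) (nat_lit 727911) (nat_lit 37291993) (nat_lit 11229384) [(nat_lit 727911), (nat_lit 2451202), (nat_lit 6138448)]) (PF.cons PF.nil (PF.cons PF.nil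
 PF.nil)))))))))) (PF.cons (PF.cons (PF.leaf (nat_lit 7862256) (nat_lit 2438045) (nat_lit 39556390) (nat_lit 11562107) [(nat_lit 0), (nat_lit 2438045), (nat_lit 6238131)]) (PF.cons (PF.leaf (nat_lit 8248203) (nat_lit 704652) (nat_lit 38951060) (nat_lit 11475262) [(nat_lit 704652), (nat_lit 2441346), (nat_lit 6212449)]) (PF.cons (PF.leaf (nat_lit 8639166) (nat_lit 711138) (nat_lit 38345275) (nat_lit 11385314) [(nat_lit 711138), (nat_lit 2442915), (nat_lit 6184281)]) (PF.cons (PF.leaf (nat_lit 9033458) (nat_lit 716552) (nat_lit 37741330) (nat_lit 11292652) [(nat_lit 716552), (nat_lit 2442844), (nat_lit 6153794)]) (PF.cons (PF.leaf (nat_lit 9429802) (nat_lit 721009) (nat_lit 37141053) (nat_lit 11197632) [(nat_lit 721009), (nat_lit 2441231), (nat_lit 6121162)]) (PF.cons (PF.leaf (nat_lit 9827158) (nat_lit 724608) (nat_lit 36545915) (nat_lit 11100584) [(nat_lit 724608), (nat_lit 2438178), (nat_lit 6086559)]) (PF.cons PF.nil (PF.cons PF.nil PF.nil)))))))) (PF.cons (PF.cons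 (PF.leaf (nat_lit 8789796) (nat_lit 2432239) (nat_lit 37556694) (nat_lit 11256052) [(nat_lit 0), (nat_lit 2432239), (nat_lit 6134866)]) (PF.cons (PF.leaf (nat_lit 9174898) (nat_lit 713364) (nat_lit 36974456) (nat_lit
 11163317) [(nat_lit 713364), (nat_lit 2430943), (nat_lit 6102957)]) (PF.cons (PF.leaf (nat_lit 9562660) (nat_lit 717545) (nat_lit 36395138) (nat_lit 11068365) [(nat_lit 717545), (nat_lit 2428228), (nat_lit 6069074)]) (PF.cons (PF.leaf (nat_lit 9951766) (nat_lit 720876) (nat_lit 35820321) (nat_lit 10971535) [(nat_lit 720876), (nat_lit 2424187), (nat_lit 6033387)]) (PF.cons PF.nil (PF.cons PF.nil PF.nil)))))) (PF.cons (PF.cons (PF.leaf (nat_lit 9692382) (nat_lit 2414243) (nat_lit 35668954) (nat_lit 10938737) [(nat_lit 0), (nat_lit 2414243), (nat_lit 6015658)]) (PF.cons (PF.leaf (nat_lit 10072997) (nat_lit 716742) (nat_lit 35114419) (nat_lit 10842453) [(nat_lit 716742), (nat_lit 2409343), (nat_lit 5979136)]) (PF.cons (PF.leaf (nat_lit 10454552) (nat_lit 719113)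 (nat_lit 34564952) (nat_lit 10744702) [(nat_lit 719113), (nat_lit 2403304), (nat_lit 5941106)]) (PF.cons PF.nil PF.nil)))) (PF.cons (PF.cons (PF.leaf (nat_lit 10565107) (nat_lit 2387046) (nat_lit 33897357) (nat_lit 10616681) [(nat_lit 0), (nat_lit 2387046), (nat_lit 5885450)]) (PF.cons PF.nil PF.nil)) (PF.cons PF.nil (PF.cons PF.nil PF.nil)))))))))) (PF.cons (PF.cons (PF.cons (PF.leaf (nat_lit 5824201) (nat_lit 6281189)
 (nat_lit 42632597) (nat_lit 11913835) [(nat_lit 0), (nat_lit 0), (nat_lit 6281189)]) (PF.cons (PF.leaf (nat_lit 6165857) (nat_lit 636280) (nat_lit 42075560) (nat_lit 11850797) [(nat_lit 636280), (nat_lit 0), (nat_lit 6273087)]) (PF.cons (PF.leaf (nat_lit 6523878) (nat_lit 652017) (nat_lit 41498520) (nat_lit 11782467) [(nat_lit 652017), (nat_lit 0), (nat_lit 6261894)]) (PF.cons (PF.leaf (nat_lit 6894371) (nat_lit 665452) (nat_lit 40907840) (nat_lit 11709392) [(nat_lit 665452), (nat_lit 0), (nat_lit 6247610)]) (PF.cons (PF.leaf (nat_lit 7274546) (nat_lit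 676970) (nat_lit 40308299) (nat_lit 11632038) [(nat_lit 676970), (nat_lit 0), (nat_lit 6230297)]) (PF.cons (PF.leaf (nat_lit 7662168) (nat_lit 686849) (nat_lit 39703616) (nat_lit 11550826) [(nat_lit 686849), (nat_lit 0), (nat_lit 6210061)]) (PF.cons (PF.leaf (nat_lit 8055414) (nat_lit 695303) (nat_lit 39096762) (nat_lit 11466147) [(nat_lit 695303), (nat_lit 0), (nat_lit 6187040)]) (PF.cons (PF.leaf (nat_lit 8452748) (nat_lit 702502) (nat_lit 38490146) (nat_lit 11378368) [(nat_lit 702502), (nat_lit 0), (nat_lit 6161390)]) (PF.cons (PF.leaf (nat_lit 8852863) (nat_lit 708584) (nat_lit 37885740) (nat_lit 11287836) [(nat_lit 708584),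
 (nat_lit 0), (nat_lit 6133280)]) (PF.cons (PF.leaf (nat_lit 9254624) (nat_lit 713665) (nat_lit 37285169) (nat_lit 11194881) [(nat_lit 713665), (nat_lit 0), (nat_lit 6102885)]) (PF.cons (PF.leaf (nat_lit 9657091) (nat_lit 717845) (nat_lit 36689778) (nat_lit 11099813) [(nat_lit 717845), (nat_lit 0), (nat_lit 6070382)]) (PF.cons PF.nil PF.nil)))))))))))) (PF.cons (PF.cons (PF.leaf (nat_lit 6723202) (nat_lit 2381225) (nat_lit 40610930) (nat_lit 11662253) [(nat_lit 0), (nat_lit 2381225), (nat_lit 6227201)]) (PF.cons (PF.leaf (nat_lit 7082296) (nat_lit 665079) (nat_lit 40044125) (nat_lit 11587981) [(nat_lit 665079), (nat_lit 2391286), (nat_lit 6210169)]) (PF.cons (PF.leaf (nat_lit 7452305) (nat_lit 676217) (nat_lit 39466991) (nat_lit 11509478) [(nat_lit 676217), (nat_lit 2399282), (nat_lit 6190312)]) (PF.cons (PF.leaf (nat_lit 7830462) (nat_lit 685685) (nat_lit 38883751) (nat_lit 11427236) [(nat_lit 685685), (nat_lit 2405275), (nat_lit 6167746)]) (PF.cons (PF.leaf (nat_lit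 8214733) (nat_lit 693722) (nat_lit 38297656) (nat_lit 11341688) [(nat_lit 693722), (nat_lit 2409355), (nat_lit 6142610)]) (PF.cons (PF.leaf (nat_lit 8603463) (nat_lit 700513) (nat_lit 37711275) (nat_lit 11253223)
 [(nat_lit 700513), (nat_lit 2411626), (nat_lit 6115060)]) (PF.cons (PF.leaf (nat_lit 8995262) (nat_lit 706204) (nat_lit 37126671) (nat_lit 11162199) [(nat_lit 706204), (nat_lit 2412200), (nat_lit 6085257)]) (PF.cons (PF.leaf (nat_lit 9388965) (nat_lit 710916) (nat_lit 36545517) (nat_lit 11068948) [(nat_lit 710916), (nat_lit 2411189), (nat_lit 6053369)]) (PF.cons (PF.leaf (nat_lit 9783587) (nat_lit 714752) (nat_lit 35969181) (nat_lit 10973776) [(nat_lit 714752), (nat_lit 2408707), (nat_lit 6019565)]) (PF.cons PF.nil PF.nil)))))))))) (PF.cons (PF.cons (PF.leaf (nat_lit 7627807) (nat_lit 2393655) (nat_lit 38642996) (nat_lit 11384137) [(nat_lit 0), (nat_lit 2393655), (nat_lit 6147183)]) (PF.cons (PF.leaf (nat_lit 7995635) (nat_lit 683682) (nat_lit 38082314) (nat_lit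 11301475) [(nat_lit 683682), (nat_lit 2397962), (nat_lit 6122707)]) (PF.cons (PF.leaf (nat_lit 8370508) (nat_lit 691422) (nat_lit 37517669) (nat_lit 11215581) [(nat_lit 691422), (nat_lit 2400525), (nat_lit 6095833)]) (PF.cons (PF.leaf (nat_lit 8750376) (nat_lit 697901) (nat_lit 36951919) (nat_lit 11126887) [(nat_lit 697901), (nat_lit 2401430), (nat_lit 6066719)]) (PF.cons (PF.leaf (nat_lit 9133726) (nat_lit 703282)
 (nat_lit 36387298) (nat_lit 11035772) [(nat_lit 703282), (nat_lit 2400777), (nat_lit 6035528)]) (PF.cons (PF.leaf (nat_lit 9519327) (nat_lit 707695) (nat_lit 35825583) (nat_lit 10942578) [(nat_lit 707695), (nat_lit 2398665), (nat_lit 6002422)]) (PF.cons (PF.leaf (nat_lit 9906108) (nat_lit 711245) (nat_lit 35268201) (nat_lit 10847614) [(nat_lit 711245), (nat_lit 2395198), (nat_lit 5967563)]) (PF.cons PF.nil PF.nil)))))))) (PF.cons (PF.cons (PF.leaf (nat_lit 8523798) (nat_lit 2390293) (nat_lit 36755899) (nat_lit 11088089) [(nat_lit 0), (nat_lit 2390293), (nat_lit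 6046972)]) (PF.cons (PF.leaf (nat_lit 8894234) (nat_lit 694691) (nat_lit 36211270) (nat_lit 10999616) [(nat_lit 694691), (nat_lit 2390000), (nat_lit 6016616)]) (PF.cons (PF.leaf (nat_lit 9268916) (nat_lit 699846) (nat_lit 35666867) (nat_lit 10908796) [(nat_lit 699846), (nat_lit 2388270), (nat_lit 5984322)]) (PF.cons (PF.leaf (nat_lit 9646270) (nat_lit 704028) (nat_lit 35124642) (nat_lit 10815995) [(nat_lit 704028), (nat_lit 2385194), (nat_lit 5950253)]) (PF.cons (PF.leaf (nat_lit 10025190) (nat_lit 707353) (nat_lit 34586134) (nat_lit 10721533) [(nat_lit 707353), (nat_lit 2380864), (nat_lit 5914568)]) (PF.cons PF.nil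
 PF.nil)))))) (PF.cons (PF.cons (PF.leaf (nat_lit 9401682) (nat_lit 2374796) (nat_lit 34964510) (nat_lit 10781456) [(nat_lit 0), (nat_lit 2374796), (nat_lit 5931831)]) (PF.cons (PF.leaf (nat_lit 9770420) (nat_lit 699935) (nat_lit 34441894) (nat_lit 10689375) [(nat_lit 699935), (nat_lit 2370881), (nat_lit 5897041)]) (PF.cons (PF.leaf (nat_lit 10141347) (nat_lit 703095) (nat_lit 33922221) (nat_lit 10595694) [(nat_lit 703095), (nat_lit 2365803), (nat_lit 5860745)]) (PF.cons (PF.leaf (nat_lit 10513266) (nat_lit 705495) (nat_lit 33406827) (nat_lit 10500715) [(nat_lit 705495), (nat_lit 2359647), (nat_lit 5823096)]) PF.nil)))) (PF.cons (PF.cons (PF.leaf (nat_lit 10255323) (nat_lit 2350097) (nat_lit 33275644) (nat_lit 10470220) [(nat_lit 0), (nat_lit 2350097), (nat_lit 5806230)]) (PF.cons (PF.leaf (nat_lit 10619356) (nat_lit 700774) (nat_lit 32778326) (nat_lit 10376330) [(nat_lit 700774), (nat_lit 2343372), (nat_lit 5768258)]) PF.nil)) (PF.cons PF.nil (PF.cons PF.nil PF.nil))))))))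 (PF.cons (PF.cons (PF.cons (PF.leaf (nat_lit 7414237) (nat_lit 6055458) (nat_lit 37737379) (nat_lit 11205057) [(nat_lit 0), (nat_lit 0), (nat_lit 6055458)]) (PF.cons (PF.leaf (nat_lit 7761810) (nat_lit 660383)
 (nat_lit 37223558) (nat_lit 11127312) [(nat_lit 660383), (nat_lit 0), (nat_lit 6032519)]) (PF.cons (PF.leaf (nat_lit 8119047) (nat_lit 669864) (nat_lit 36701425) (nat_lit 11046033) [(nat_lit 669864), (nat_lit 0), (nat_lit 6007208)]) (PF.cons (PF.leaf (nat_lit 8483330) (nat_lit 677775) (nat_lit 36174683) (nat_lit 10961737) [(nat_lit 677775), (nat_lit 0), (nat_lit 5979687)]) (PF.cons (PF.leaf (nat_lit 8852791) (nat_lit 684362) (nat_lit 35646149) (nat_lit 10874860) [(nat_lit 684362), (nat_lit 0), (nat_lit 5950118)]) (PF.cons (PF.leaf (nat_lit 9225910) (nat_lit 689808) (nat_lit 35118020) (nat_lit 10785777) [(nat_lit 689808), (nat_lit 0), (nat_lit 5918657)]) (PF.cons (PF.leaf (nat_lit 9601449) (nat_lit 694259) (nat_lit 34592041) (nat_lit 10694820) [(nat_lit 694259),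 (nat_lit 0), (nat_lit 5885464)]) (PF.cons (PF.leaf (nat_lit 9978373) (nat_lit 697834) (nat_lit 34069610) (nat_lit 10602286) [(nat_lit 697834), (nat_lit 0), (nat_lit 5850690)]) (PF.cons PF.nil (PF.cons PF.nil PF.nil)))))))))) (PF.cons (PF.cons (PF.leaf (nat_lit 8276191) (nat_lit 2347241) (nat_lit 35964560) (nat_lit 10920213) [(nat_lit 0), (nat_lit 2347241), (nat_lit 5958932)]) (PF.cons (PF.leaf (nat_lit 8630507) (nat_lit
 674500) (nat_lit 35458647) (nat_lit 10836455) [(nat_lit 674500), (nat_lit 2348166), (nat_lit 5930347)]) (PF.cons (PF.leaf (nat_lit 8990988) (nat_lit 680928) (nat_lit 34949791) (nat_lit 10750111) [(nat_lit 680928), (nat_lit 2347604), (nat_lit 5899816)]) (PF.cons (PF.leaf (nat_lit 9355719) (nat_lit 686191) (nat_lit 34440470) (nat_lit 10661600) [(nat_lit 686191), (nat_lit 2345647), (nat_lit 5867507)]) (PF.cons (PF.leaf (nat_lit 9723333) (nat_lit 690451) (nat_lit 33932599) (nat_lit 10571277) [(nat_lit 690451), (nat_lit 2342393), (nat_lit 5833579)]) (PF.cons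 (PF.leaf (nat_lit 10092694) (nat_lit 693835) (nat_lit 33427687) (nat_lit 10479455) [(nat_lit 693835), (nat_lit 2337937), (nat_lit 5798184)]) (PF.cons PF.nil (PF.cons PF.nil PF.nil)))))))) (PF.cons (PF.cons (PF.leaf (nat_lit 9127577) (nat_lit 2334698) (nat_lit 34269740) (nat_lit 10624943) [(nat_lit 0), (nat_lit 2334698), (nat_lit 5848243)]) (PF.cons (PF.leaf (nat_lit 9483368) (nat_lit 682108) (nat_lit 33779556) (nat_lit 10537342) [(nat_lit 682108), (nat_lit 2331911), (nat_lit 5815327)]) (PF.cons (PF.leaf (nat_lit 9842823) (nat_lit 686248) (nat_lit 33289913) (nat_lit 10447939) [(nat_lit 686248), (nat_lit 2327916), (nat_lit 5780876)])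
 (PF.cons (PF.leaf (nat_lit 10204506) (nat_lit 689501) (nat_lit 32802490) (nat_lit 10357069) [(nat_lit 689501), (nat_lit 2322802), (nat_lit 5745048)]) (PF.cons (PF.leaf (nat_lit 10567385) (nat_lit 691980) (nat_lit 32318598) (nat_lit 10265024) [(nat_lit 691980), (nat_lit 2316654), (nat_lit 5707987)]) (PF.cons PF.nil PF.nil)))))) (PF.cons (PF.cons (PF.leaf (nat_lit 9960723) (nat_lit 2312788) (nat_lit 32663132) (nat_lit 10324891) [(nat_lit 0), (nat_lit 2312788), (nat_lit 5727474)]) (PF.cons (PF.leaf (nat_lit 10314322) (nat_lit 684840) (nat_lit 32193246) (nat_lit 10235215) [(nat_lit 684840), (nat_lit 2307111), (nat_lit 5691392)]) (PF.cons (PF.leaf (nat_lit 10669778) (nat_lit 687235) (nat_lit 31726137) (nat_lit 10144371) [(nat_lit 687235), (nat_lit 2300466), (nat_lit 5654144)]) (PF.cons PF.nil PF.nil)))) (PF.cons (PF.cons (PF.leaf (nat_lit 10770734) (nat_lit 2283865) (nat_lit 31148784) (nat_lit 10024503) [(nat_lit 0), (nat_lit 2283865), (nat_lit 5600020)]) (PF.cons PF.nil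 PF.nil)) (PF.cons PF.nil PF.nil)))))) (PF.cons (PF.cons (PF.cons (PF.leaf (nat_lit 8871639) (nat_lit 5764647) (nat_lit 33581570) (nat_lit 10468654) [(nat_lit 0), (nat_lit 0), (nat_lit 5764647)]) (PF.cons (PF.leaf
 (nat_lit 9212978) (nat_lit 662870) (nat_lit 33124900) (nat_lit 10385911) [(nat_lit 662870), (nat_lit 0), (nat_lit 5733782)]) (PF.cons (PF.leaf (nat_lit 9559824) (nat_lit 668270) (nat_lit 32665941) (nat_lit 10301063) [(nat_lit 668270), (nat_lit 0), (nat_lit 5701316)]) (PF.cons (PF.leaf (nat_lit 9910360) (nat_lit 672591) (nat_lit 32206854) (nat_lit 10214509) [(nat_lit 672591), (nat_lit 0), (nat_lit 5667418)]) (PF.cons (PF.leaf (nat_lit 10263327) (nat_lit 675992) (nat_lit 31749297) (nat_lit 10126583) [(nat_lit 675992), (nat_lit 0), (nat_lit 5632241)]) (PF.cons PF.nil PF.nil)))))) (PF.cons (PF.cons (PF.leaf (nat_lit 9682320) (nat_lit 2274919) (nat_lit 32057657) (nat_lit 10180286) [(nat_lit 0), (nat_lit 2274919), (nat_lit 5648987)]) (PF.cons (PF.leaf (nat_lit 10024395)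 (nat_lit 667950) (nat_lit 31615752) (nat_lit 10095056) [(nat_lit 667950), (nat_lit 2270413), (nat_lit 5614909)]) (PF.cons (PF.leaf (nat_lit 10369707) (nat_lit 671309) (nat_lit 31174498) (nat_lit 10008417) [(nat_lit 671309), (nat_lit 2264880), (nat_lit 5579599)]) (PF.cons (PF.leaf (nat_lit 10716914) (nat_lit 673854) (nat_lit 30735355) (nat_lit 9920678) [(nat_lit 673854), (nat_lit 2258404), (nat_lit 5543202)]) PF.nil))))
 (PF.cons (PF.cons (PF.leaf (nat_lit 10475155) (nat_lit 2248869) (nat_lit 30613586) (nat_lit 9890924) [(nat_lit 0), (nat_lit 2248869), (nat_lit 5526640)]) (PF.cons (PF.leaf (nat_lit 10814780) (nat_lit 668856) (nat_lit 30190050) (nat_lit 9804645) [(nat_lit 668856), (nat_lit 2242028), (nat_lit 5490300)]) PF.nil)) (PF.cons PF.nil PF.nil)))) (PF.cons (PF.cons (PF.cons (PF.leaf (nat_lit 10195202) (nat_lit 5453496) (nat_lit 30083380) (nat_lit 9757947) [(nat_lit 0), (nat_lit 0), (nat_lit 5453496)]) (PF.cons (PF.leaf (nat_lit 10524480) (nat_lit 652927) (nat_lit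 29684044) (nat_lit 9675942) [(nat_lit 652927), (nat_lit 0), (nat_lit 5419179)]) (PF.cons (PF.leaf (nat_lit 10856690) (nat_lit 655679) (nat_lit 29285360) (nat_lit 9592815) [(nat_lit 655679), (nat_lit 0), (nat_lit 5383855)]) (PF.cons PF.nil PF.nil)))) (PF.cons (PF.cons (PF.leaf (nat_lit 10951630) (nat_lit 2184758) (nat_lit 28781744) (nat_lit 9481455) [(nat_lit 0), (nat_lit 2184758), (nat_lit 5332170)]) (PF.cons PF.nil PF.nil)) PF.nil)) (PF.cons PF.nil (PF.cons PF.nil (PF.cons PF.nil (PF.cons PF.nil PF.nil))))))))))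

def p13_20_2_0 : pfC (piC [(nat_lit 35404596), (nat_lit 22827826), (nat_lit 14696761)] (nat_lit 7236065)) p13_20_2 (nat_lit 3) (nat_lit 0) (nat_lit 1) = true := by decide +kernel
def p13_20_2_1 : pfC (piC [(nat_lit 35404596), (nat_lit 22827826), (nat_lit 14696761)] (nat_lit 7236065)) p13_20_2 (nat_lit 3) (nat_lit 1) (nat_lit 2) = true := by decide +kernel
def p13_20_2_2 : pfC (piC [(nat_lit 35404596), (nat_lit 22827826), (nat_lit 14696761)] (nat_lit 7236065)) p13_20_2 (nat_lit 3) (nat_lit 2) (nat_lit 3) = true := by decide +kernel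
def p13_20_2_3 : pfC (piC [(nat_lit 35404596), (nat_lit 22827826), (nat_lit 14696761)] (nat_lit 7236065)) p13_20_2 (nat_lit 3) (nat_lit 3) (nat_lit 4) = true := by decide +kernel
def p13_20_2_4 : pfC (piC [(nat_lit 35404596), (nat_lit 22827826), (nat_lit 14696761)] (nat_lit 7236065)) p13_20_2 (nat_lit 3) (nat_lit 4) (nat_lit 5) = true := by decide +kernel
def p13_20_2_5 : pfC (piC [(nat_lit 35404596), (nat_lit 22827826), (nat_lit 14696761)] (nat_lit 7236065)) p13_20_2 (nat_lit 3) (nat_lit 5) (nat_lit 6) = true := by decide +kernel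
def p13_20_2_6 : pfC (piC [(nat_lit 35404596), (nat_lit 22827826), (nat_lit 14696761)] (nat_lit 7236065)) p13_20_2 (nat_lit 3) (nat_lit 6) (nat_lit 7) = true := by decide +kernel
def p13_20_2_7 : pfC (piC [(nat_lit 35404596), (nat_lit 22827826), (nat_lit 14696761)] (nat_lit 7236065)) p13_20_2 (nat_lit 3) (nat_lit 7) (nat_lit 8) = true := by decide +kernel
def p13_20_2_8 : pfC (piC [(nat_lit 35404596), (nat_lit 22827826), (nat_lit 14696761)] (nat_lit 7236065)) p13_20_2 (nat_lit 3) (nat_lit 8) (nat_lit 9) = true := by decide +kernel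
def p13_20_2_9 : pfC (piC [(nat_lit 35404596), (nat_lit 22827826), (nat_lit 14696761)] (nat_lit 7236065)) p13_20_2 (nat_lit 3) (nat_lit 9) (nat_lit 10) = true := by decide +kernel
def p13_20_2_10 : pfC (piC [(nat_lit 35404596), (nat_lit 22827826), (nat_lit 14696761)] (nat_lit 7236065)) p13_20_2 (nat_lit 3) (nat_lit 10) (nat_lit 11) = true := by decide +kernel
def p13_20_2_11 : pfC (piC [(nat_lit 35404596), (nat_lit 22827826), (nat_lit 14696761)] (nat_lit 7236065)) p13_20_2 (nat_lit 3) (nat_lit 11) (nat_lit 12) = true := by decide +kernel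
def p13_20_2_12 : pfC (piC [(nat_lit 35404596), (nat_lit 22827826), (nat_lit 14696761)] (nat_lit 7236065)) p13_20_2 (nat_lit 3) (nat_lit 12) (nat_lit 13) = true := by decide +kernel
def p13_20_2_13 : pfC (piC [(nat_lit 35404596), (nat_lit 22827826), (nat_lit 14696761)] (nat_lit 7236065)) p13_20_2 (nat_lit 3) (nat_lit 13) (nat_lit 14) = true := by decide +kernel
def p13_20_2_14 : pfC (piC [(nat_lit 35404596), (nat_lit 22827826), (nat_lit 14696761)] (nat_lit 7236065)) p13_20_2 (nat_lit 3) (nat_lit 14) (nat_lit 15) = true := by decide +kernel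
def p13_20_2_15 : pfC (piC [(nat_lit 35404596), (nat_lit 22827826), (nat_lit 14696761)] (nat_lit 7236065)) p13_20_2 (nat_lit 3) (nat_lit 15) (nat_lit 16) = true := by decide +kernel
def p13_20_2_16 : pfC (piC [(nat_lit 35404596), (nat_lit 22827826), (nat_lit 14696761)] (nat_lit 7236065)) p13_20_2 (nat_lit 3) (nat_lit 16) (nat_lit 17) = true := by decide +kernel
def p13_20_2_17 : pfC (piC [(nat_lit 35404596), (nat_lit 22827826), (nat_lit 14696761)] (nat_lit 7236065)) p13_20_2 (nat_lit 3) (nat_lit 17) (nat_lit 18) = true := by decide +kernel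
def p13_20_2_18 : pfC (piC [(nat_lit 35404596), (nat_lit 22827826), (nat_lit 14696761)] (nat_lit 7236065)) p13_20_2 (nat_lit 3) (nat_lit 18) (nat_lit 19) = true := by decide +kernel
def p13_20_2_19 : pfC (piC [(nat_lit 35404596), (nat_lit 22827826), (nat_lit 14696761)] (nat_lit 7236065)) p13_20_2 (nat_lit 3) (nat_lit 19) (nat_lit 20) = true := by decide +kernel
def p13_20_2_20 : pfC (piC [(nat_lit 35404596), (nat_lit 22827826), (nat_lit 14696761)] (nat_lit 7236065)) p13_20_2 (nat_lit 3) (nat_lit 20) (nat_lit 21) = true := by decide +kernel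
def p13_20_2_21 : pfC (piC [(nat_lit 35404596), (nat_lit 22827826), (nat_lit 14696761)] (nat_lit 7236065)) p13_20_2 (nat_lit 3) (nat_lit 21) (nat_lit 22) = true := by decide +kernel
def p13_20_2_22 : pfC (piC [(nat_lit 35404596), (nat_lit 22827826), (nat_lit 14696761)] (nat_lit 7236065)) p13_20_2 (nat_lit 3) (nat_lit 22) (nat_lit 23) = true := by decide +kernel
def p13_20_2_23 : pfC (piC [(nat_lit 35404596), (nat_lit 22827826), (nat_lit 14696761)] (nat_lit 7236065)) p13_20_2 (nat_lit 3) (nat_lit 23) (nat_lit 24) = true := by decide +kernel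
def p13_20_2_24 : pfC (piC [(nat_lit 35404596), (nat_lit 22827826), (nat_lit 14696761)] (nat_lit 7236065)) p13_20_2 (nat_lit 3) (nat_lit 24) (nat_lit 25) = true := by decide +kernel
def p13_20_2_25 : pfC (piC [(nat_lit 35404596), (nat_lit 22827826), (nat_lit 14696761)] (nat_lit 7236065)) p13_20_2 (nat_lit 3) (nat_lit 25) (nat_lit 26) = true := by decide +kernel
def p13_20_2_26 : pfC (piC [(nat_lit 35404596), (nat_lit 22827826), (nat_lit 14696761)] (nat_lit 7236065)) p13_20_2 (nat_lit 3) (nat_lit 26) (nat_lit 27) = true := by decide +kernel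
def p13_20_2_27 : pfC (piC [(nat_lit 35404596), (nat_lit 22827826), (nat_lit 14696761)] (nat_lit 7236065)) p13_20_2 (nat_lit 3) (nat_lit 27) (nat_lit 28) = true := by decide +kernel
def p13_20_2_28 : pfC (piC [(nat_lit 35404596), (nat_lit 22827826), (nat_lit 14696761)] (nat_lit 7236065)) p13_20_2 (nat_lit 3) (nat_lit 28) (nat_lit 29) = true := by decide +kernel
def p13_20_2_29 : pfC (piC [(nat_lit 35404596), (nat_lit 22827826), (nat_lit 14696761)] (nat_lit 7236065)) p13_20_2 (nat_lit 3) (nat_lit 29) (nat_lit 30) = true := by decide +kernel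
def p13_20_2_30 : pfC (piC [(nat_lit 35404596), (nat_lit 22827826), (nat_lit 14696761)] (nat_lit 7236065)) p13_20_2 (nat_lit 3) (nat_lit 30) (nat_lit 31) = true := by decide +kernel
def p13_20_2_31 : pfC (piC [(nat_lit 35404596), (nat_lit 22827826), (nat_lit 14696761)] (nat_lit 7236065)) p13_20_2 (nat_lit 3) (nat_lit 31) (nat_lit 32) = true := by decide +kernel
def p13_20_2_32 : pfC (piC [(nat_lit 35404596), (nat_lit 22827826), (nat_lit 14696761)] (nat_lit 7236065)) p13_20_2 (nat_lit 3) (nat_lit 32) (nat_lit 33) = true := by decide +kernel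
def p13_20_2_33 : pfC (piC [(nat_lit 35404596), (nat_lit 22827826), (nat_lit 14696761)] (nat_lit 7236065)) p13_20_2 (nat_lit 3) (nat_lit 33) (nat_lit 34) = true := by decide +kernel
def p13_20_2_34 : pfC (piC [(nat_lit 35404596), (nat_lit 22827826), (nat_lit 14696761)] (nat_lit 7236065)) p13_20_2 (nat_lit 3) (nat_lit 34) (nat_lit 35) = true := by decide +kernel
def p13_20_2_35 : pfC (piC [(nat_lit 35404596), (nat_lit 22827826), (nat_lit 14696761)] (nat_lit 7236065)) p13_20_2 (nat_lit 3) (nat_lit 35) (nat_lit 36) = true := by decide +kernel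
def p13_20_2_36 : pfC (piC [(nat_lit 35404596), (nat_lit 22827826), (nat_lit 14696761)] (nat_lit 7236065)) p13_20_2 (nat_lit 3) (nat_lit 36) (nat_lit 37) = true := by decide +kernel
def p13_20_2_37 : pfC (piC [(nat_lit 35404596), (nat_lit 22827826), (nat_lit 14696761)] (nat_lit 7236065)) p13_20_2 (nat_lit 3) (nat_lit 37) (nat_lit 38) = true := by decide +kernel
def p13_20_2_38 : pfC (piC [(nat_lit 35404596), (nat_lit 22827826), (nat_lit 14696761)] (nat_lit 7236065)) p13_20_2 (nat_lit 3) (nat_lit 38) (nat_lit 39) = true := by decide +kernel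
def p13_20_2_39 : pfC (piC [(nat_lit 35404596), (nat_lit 22827826), (nat_lit 14696761)] (nat_lit 7236065)) p13_20_2 (nat_lit 3) (nat_lit 39) (nat_lit 40) = true := by decide +kernel
def p13_20_2_40 : pfC (piC [(nat_lit 35404596), (nat_lit 22827826), (nat_lit 14696761)] (nat_lit 7236065)) p13_20_2 (nat_lit 3) (nat_lit 40) (nat_lit 41) = true := by decide +kernel
def p13_20_2_41 : pfC (piC [(nat_lit 35404596), (nat_lit 22827826), (nat_lit 14696761)] (nat_lit 7236065)) p13_20_2 (nat_lit 3) (nat_lit 41) (nat_lit 42) = true := by decide +kernel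
def p13_20_2_42 : pfC (piC [(nat_lit 35404596), (nat_lit 22827826), (nat_lit 14696761)] (nat_lit 7236065)) p13_20_2 (nat_lit 3) (nat_lit 42) (nat_lit 43) = true := by decide +kernel
def p13_20_2_43 : pfC (piC [(nat_lit 35404596), (nat_lit 22827826), (nat_lit 14696761)] (nat_lit 7236065)) p13_20_2 (nat_lit 3) (nat_lit 43) (nat_lit 44) = true := by decide +kernel
def p13_20_2_44 : pfC (piC [(nat_lit 35404596), (nat_lit 22827826), (nat_lit 14696761)] (nat_lit 7236065)) p13_20_2 (nat_lit 3) (nat_lit 44) (nat_lit 45) = true := by decide +kernel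
def p13_20_2_45 : pfC (piC [(nat_lit 35404596), (nat_lit 22827826), (nat_lit 14696761)] (nat_lit 7236065)) p13_20_2 (nat_lit 3) (nat_lit 45) (nat_lit 46) = true := by decide +kernel
def p13_20_2_46 : pfC (piC [(nat_lit 35404596), (nat_lit 22827826), (nat_lit 14696761)] (nat_lit 7236065)) p13_20_2 (nat_lit 3) (nat_lit 46) (nat_lit 47) = true := by decide +kernel
def p13_20_2_47 : pfC (piC [(nat_lit 35404596), (nat_lit 22827826), (nat_lit 14696761)] (nat_lit 7236065)) p13_20_2 (nat_lit 3) (nat_lit 47) (nat_lit 48) = true := by decide +kernel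
def p13_20_2_48 : pfC (piC [(nat_lit 35404596), (nat_lit 22827826), (nat_lit 14696761)] (nat_lit 7236065)) p13_20_2 (nat_lit 3) (nat_lit 48) (nat_lit 49) = true := by decide +kernel
def p13_20_2_49 : pfC (piC [(nat_lit 35404596), (nat_lit 22827826), (nat_lit 14696761)] (nat_lit 7236065)) p13_20_2 (nat_lit 3) (nat_lit 49) (nat_lit 50) = true := by decide +kernel
def p13_20_2_50 : pfC (piC [(nat_lit 35404596), (nat_lit 22827826), (nat_lit 14696761)] (nat_lit 7236065)) p13_20_2 (nat_lit 3) (nat_lit 50) (nat_lit 51) = true := by decide +kernel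
def p13_20_2_51 : pfC (piC [(nat_lit 35404596), (nat_lit 22827826), (nat_lit 14696761)] (nat_lit 7236065)) p13_20_2 (nat_lit 3) (nat_lit 51) (nat_lit 52) = true := by decide +kernel
def p13_20_2_52 : pfC (piC [(nat_lit 35404596), (nat_lit 22827826), (nat_lit 14696761)] (nat_lit 7236065)) p13_20_2 (nat_lit 3) (nat_lit 52) (nat_lit 53) = true := by decide +kernel
def p13_20_2_53 : pfC (piC [(nat_lit 35404596), (nat_lit 22827826), (nat_lit 14696761)] (nat_lit 7236065)) p13_20_2 (nat_lit 3) (nat_lit 53) (nat_lit 54) = true := by decide +kernel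
def p13_20_2_54 : pfC (piC [(nat_lit 35404596), (nat_lit 22827826), (nat_lit 14696761)] (nat_lit 7236065)) p13_20_2 (nat_lit 3) (nat_lit 54) (nat_lit 55) = true := by decide +kernel
def p13_20_2_55 : pfC (piC [(nat_lit 35404596), (nat_lit 22827826), (nat_lit 14696761)] (nat_lit 7236065)) p13_20_2 (nat_lit 3) (nat_lit 55) (nat_lit 56) = true := by decide +kernel
def p13_20_2_56 : pfC (piC [(nat_lit 35404596), (nat_lit 22827826), (nat_lit 14696761)] (nat_lit 7236065)) p13_20_2 (nat_lit 3) (nat_lit 56) (nat_lit 57) = true := by decide +kernel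
def p13_20_2_57 : pfC (piC [(nat_lit 35404596), (nat_lit 22827826), (nat_lit 14696761)] (nat_lit 7236065)) p13_20_2 (nat_lit 3) (nat_lit 57) (nat_lit 58) = true := by decide +kernel
def p13_20_2_58 : pfC (piC [(nat_lit 35404596), (nat_lit 22827826), (nat_lit 14696761)] (nat_lit 7236065)) p13_20_2 (nat_lit 3) (nat_lit 58) (nat_lit 59) = true := by decide +kernel
def p13_20_2_59 : pfC (piC [(nat_lit 35404596), (nat_lit 22827826), (nat_lit 14696761)] (nat_lit 7236065)) p13_20_2 (nat_lit 3) (nat_lit 59) (nat_lit 60) = true := by decide +kernel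
def p13_20_2_60 : pfC (piC [(nat_lit 35404596), (nat_lit 22827826), (nat_lit 14696761)] (nat_lit 7236065)) p13_20_2 (nat_lit 3) (nat_lit 60) (nat_lit 61) = true := by decide +kernel
def p13_20_2_61 : pfC (piC [(nat_lit 35404596), (nat_lit 22827826), (nat_lit 14696761)] (nat_lit 7236065)) p13_20_2 (nat_lit 3) (nat_lit 61) (nat_lit 62) = true := by decide +kernel
def p13_20_2_62 : pfC (piC [(nat_lit 35404596), (nat_lit 22827826), (nat_lit 14696761)] (nat_lit 7236065)) p13_20_2 (nat_lit 3) (nat_lit 62) (nat_lit 63) = true := by decide +kernel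
def p13_20_2_63 : pfC (piC [(nat_lit 35404596), (nat_lit 22827826), (nat_lit 14696761)] (nat_lit 7236065)) p13_20_2 (nat_lit 3) (nat_lit 63) (nat_lit 64) = true := by decide +kernel
def p13_20_2_64 : pfC (piC [(nat_lit 35404596), (nat_lit 22827826), (nat_lit 14696761)] (nat_lit 7236065)) p13_20_2 (nat_lit 3) (nat_lit 64) (nat_lit 65) = true := by decide +kernel
def p13_20_2_65 : pfC (piC [(nat_lit 35404596), (nat_lit 22827826), (nat_lit 14696761)] (nat_lit 7236065)) p13_20_2 (nat_lit 3) (nat_lit 65) (nat_lit 66) = true := by decide +kernel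
def p13_20_2_66 : pfC (piC [(nat_lit 35404596), (nat_lit 22827826), (nat_lit 14696761)] (nat_lit 7236065)) p13_20_2 (nat_lit 3) (nat_lit 66) (nat_lit 67) = true := by decide +kernel
def p13_20_2_67 : pfC (piC [(nat_lit 35404596), (nat_lit 22827826), (nat_lit 14696761)] (nat_lit 7236065)) p13_20_2 (nat_lit 3) (nat_lit 67) (nat_lit 68) = true := by decide +kernel
def p13_20_2_68 : pfC (piC [(nat_lit 35404596), (nat_lit 22827826), (nat_lit 14696761)] (nat_lit 7236065)) p13_20_2 (nat_lit 3) (nat_lit 68) (nat_lit 69) = true := by decide +kernel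
def p13_20_2_69 : pfC (piC [(nat_lit 35404596), (nat_lit 22827826), (nat_lit 14696761)] (nat_lit 7236065)) p13_20_2 (nat_lit 3) (nat_lit 69) (nat_lit 70) = true := by decide +kernel
def p13_20_2_70 : pfC (piC [(nat_lit 35404596), (nat_lit 22827826), (nat_lit 14696761)] (nat_lit 7236065)) p13_20_2 (nat_lit 3) (nat_lit 70) (nat_lit 71) = true := by decide +kernel
def p13_20_2_71 : pfC (piC [(nat_lit 35404596), (nat_lit 22827826), (nat_lit 14696761)] (nat_lit 7236065)) p13_20_2 (nat_lit 3) (nat_lit 71) (nat_lit 72) = true := by decide +kernel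
def p13_20_2_72 : pfC (piC [(nat_lit 35404596), (nat_lit 22827826), (nat_lit 14696761)] (nat_lit 7236065)) p13_20_2 (nat_lit 3) (nat_lit 72) (nat_lit 73) = true := by decide +kernel
def p13_20_2_73 : pfC (piC [(nat_lit 35404596), (nat_lit 22827826), (nat_lit 14696761)] (nat_lit 7236065)) p13_20_2 (nat_lit 3) (nat_lit 73) (nat_lit 74) = true := by decide +kernel
def p13_20_2_74 : pfC (piC [(nat_lit 35404596), (nat_lit 22827826), (nat_lit 14696761)] (nat_lit 7236065)) p13_20_2 (nat_lit 3) (nat_lit 74) (nat_lit 75) = true := by decide +kernel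
def p13_20_2_75 : pfC (piC [(nat_lit 35404596), (nat_lit 22827826), (nat_lit 14696761)] (nat_lit 7236065)) p13_20_2 (nat_lit 3) (nat_lit 75) (nat_lit 76) = true := by decide +kernel
def p13_20_2_76 : pfC (piC [(nat_lit 35404596), (nat_lit 22827826), (nat_lit 14696761)] (nat_lit 7236065)) p13_20_2 (nat_lit 3) (nat_lit 76) (nat_lit 77) = true := by decide +kernel
def p13_20_2_77 : pfC (piC [(nat_lit 35404596), (nat_lit 22827826), (nat_lit 14696761)] (nat_lit 7236065)) p13_20_2 (nat_lit 3) (nat_lit 77) (nat_lit 78) = true := by decide +kernel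
def p13_20_2_78 : pfC (piC [(nat_lit 35404596), (nat_lit 22827826), (nat_lit 14696761)] (nat_lit 7236065)) p13_20_2 (nat_lit 3) (nat_lit 78) (nat_lit 79) = true := by decide +kernel
def p13_20_2_79 : pfC (piC [(nat_lit 35404596), (nat_lit 22827826), (nat_lit 14696761)] (nat_lit 7236065)) p13_20_2 (nat_lit 3) (nat_lit 79) (nat_lit 80) = true := by decide +kernel
def p13_20_2_80 : pfC (piC [(nat_lit 35404596), (nat_lit 22827826), (nat_lit 14696761)] (nat_lit 7236065)) p13_20_2 (nat_lit 3) (nat_lit 80) (nat_lit 81) = true := by decide +kernel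
def p13_20_2_81 : pfC (piC [(nat_lit 35404596), (nat_lit 22827826), (nat_lit 14696761)] (nat_lit 7236065)) p13_20_2 (nat_lit 3) (nat_lit 81) (nat_lit 82) = true := by decide +kernel
def p13_20_2_82 : pfC (piC [(nat_lit 35404596), (nat_lit 22827826), (nat_lit 14696761)] (nat_lit 7236065)) p13_20_2 (nat_lit 3) (nat_lit 82) (nat_lit 83) = true := by decide +kernel
def p13_20_2_83 : pfC (piC [(nat_lit 35404596), (nat_lit 22827826), (nat_lit 14696761)] (nat_lit 7236065)) p13_20_2 (nat_lit 3) (nat_lit 83) (nat_lit 84) = true := by decide +kernel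
def p13_20_2_84 : pfC (piC [(nat_lit 35404596), (nat_lit 22827826), (nat_lit 14696761)] (nat_lit 7236065)) p13_20_2 (nat_lit 3) (nat_lit 84) (nat_lit 85) = true := by decide +kernel
def p13_20_2_85 : pfC (piC [(nat_lit 35404596), (nat_lit 22827826), (nat_lit 14696761)] (nat_lit 7236065)) p13_20_2 (nat_lit 3) (nat_lit 85) (nat_lit 86) = true := by decide +kernel
def p13_20_2_86 : pfC (piC [(nat_lit 35404596), (nat_lit 22827826), (nat_lit 14696761)] (nat_lit 7236065)) p13_20_2 (nat_lit 3) (nat_lit 86) (nat_lit 87) = true := by decide +kernel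
def p13_20_2_87 : pfC (piC [(nat_lit 35404596), (nat_lit 22827826), (nat_lit 14696761)] (nat_lit 7236065)) p13_20_2 (nat_lit 3) (nat_lit 87) (nat_lit 88) = true := by decide +kernel
def p13_20_2_88 : pfC (piC [(nat_lit 35404596), (nat_lit 22827826), (nat_lit 14696761)] (nat_lit 7236065)) p13_20_2 (nat_lit 3) (nat_lit 88) (nat_lit 89) = true := by decide +kernel
def p13_20_2_89 : pfC (piC [(nat_lit 35404596), (nat_lit 22827826), (nat_lit 14696761)] (nat_lit 7236065)) p13_20_2 (nat_lit 3) (nat_lit 89) (nat_lit 90) = true := by decide +kernel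
def p13_20_2_90 : pfC (piC [(nat_lit 35404596), (nat_lit 22827826), (nat_lit 14696761)] (nat_lit 7236065)) p13_20_2 (nat_lit 3) (nat_lit 90) (nat_lit 91) = true := by decide +kernel
def p13_20_2_91 : pfC (piC [(nat_lit 35404596), (nat_lit 22827826), (nat_lit 14696761)] (nat_lit 7236065)) p13_20_2 (nat_lit 3) (nat_lit 91) (nat_lit 92) = true := by decide +kernel
def p13_20_2_92 : pfC (piC [(nat_lit 35404596), (nat_lit 22827826), (nat_lit 14696761)] (nat_lit 7236065)) p13_20_2 (nat_lit 3) (nat_lit 92) (nat_lit 93) = true := by decide +kernel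
def p13_20_2_93 : pfC (piC [(nat_lit 35404596), (nat_lit 22827826), (nat_lit 14696761)] (nat_lit 7236065)) p13_20_2 (nat_lit 3) (nat_lit 93) (nat_lit 94) = true := by decide +kernel
def p13_20_2_94 : pfC (piC [(nat_lit 35404596), (nat_lit 22827826), (nat_lit 14696761)] (nat_lit 7236065)) p13_20_2 (nat_lit 3) (nat_lit 94) (nat_lit 95) = true := by decide +kernel
def p13_20_2_95 : pfC (piC [(nat_lit 35404596), (nat_lit 22827826), (nat_lit 14696761)] (nat_lit 7236065)) p13_20_2 (nat_lit 3) (nat_lit 95) (nat_lit 96) = true := by decide +kernel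
def p13_20_2_96 : pfC (piC [(nat_lit 35404596), (nat_lit 22827826), (nat_lit 14696761)] (nat_lit 7236065)) p13_20_2 (nat_lit 3) (nat_lit 96) (nat_lit 97) = true := by decide +kernel
def p13_20_2_97 : pfC (piC [(nat_lit 35404596), (nat_lit 22827826), (nat_lit 14696761)] (nat_lit 7236065)) p13_20_2 (nat_lit 3) (nat_lit 97) (nat_lit 98) = true := by decide +kernel
def p13_20_2_98 : pfC (piC [(nat_lit 35404596), (nat_lit 22827826), (nat_lit 14696761)] (nat_lit 7236065)) p13_20_2 (nat_lit 3) (nat_lit 98) (nat_lit 99) = true := by decide +kernel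
def p13_20_2_99 : pfC (piC [(nat_lit 35404596), (nat_lit 22827826), (nat_lit 14696761)] (nat_lit 7236065)) p13_20_2 (nat_lit 3) (nat_lit 99) (nat_lit 100) = true := by decide +kernel
def p13_20_2_100 : pfC (piC [(nat_lit 35404596), (nat_lit 22827826), (nat_lit 14696761)] (nat_lit 7236065)) p13_20_2 (nat_lit 3) (nat_lit 100) (nat_lit 101) = true := by decide +kernel
def p13_20_2_101 : pfC (piC [(nat_lit 35404596), (nat_lit 22827826), (nat_lit 14696761)] (nat_lit 7236065)) p13_20_2 (nat_lit 3) (nat_lit 101) (nat_lit 102) = true := by decide +kernel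
def p13_20_2_102 : pfC (piC [(nat_lit 35404596), (nat_lit 22827826), (nat_lit 14696761)] (nat_lit 7236065)) p13_20_2 (nat_lit 3) (nat_lit 102) (nat_lit 103) = true := by decide +kernel
def p13_20_2_103 : pfC (piC [(nat_lit 35404596), (nat_lit 22827826), (nat_lit 14696761)] (nat_lit 7236065)) p13_20_2 (nat_lit 3) (nat_lit 103) (nat_lit 104) = true := by decide +kernel
def p13_20_2_104 : pfC (piC [(nat_lit 35404596), (nat_lit 22827826), (nat_lit 14696761)] (nat_lit 7236065)) p13_20_2 (nat_lit 3) (nat_lit 104) (nat_lit 105) = true := by decide +kernel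
def p13_20_2_105 : pfC (piC [(nat_lit 35404596), (nat_lit 22827826), (nat_lit 14696761)] (nat_lit 7236065)) p13_20_2 (nat_lit 3) (nat_lit 105) (nat_lit 106) = true := by decide +kernel
def p13_20_2_106 : pfC (piC [(nat_lit 35404596), (nat_lit 22827826), (nat_lit 14696761)] (nat_lit 7236065)) p13_20_2 (nat_lit 3) (nat_lit 106) (nat_lit 107) = true := by decide +kernel
def p13_20_2_107 : pfC (piC [(nat_lit 35404596), (nat_lit 22827826), (nat_lit 14696761)] (nat_lit 7236065)) p13_20_2 (nat_lit 3) (nat_lit 107) (nat_lit 108) = true := by decide +kernel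
def p13_20_2_108 : pfC (piC [(nat_lit 35404596), (nat_lit 22827826), (nat_lit 14696761)] (nat_lit 7236065)) p13_20_2 (nat_lit 3) (nat_lit 108) (nat_lit 109) = true := by decide +kernel
def p13_20_2_109 : pfC (piC [(nat_lit 35404596), (nat_lit 22827826), (nat_lit 14696761)] (nat_lit 7236065)) p13_20_2 (nat_lit 3) (nat_lit 109) (nat_lit 110) = true := by decide +kernel
def p13_20_2_110 : pfC (piC [(nat_lit 35404596), (nat_lit 22827826), (nat_lit 14696761)] (nat_lit 7236065)) p13_20_2 (nat_lit 3) (nat_lit 110) (nat_lit 111) = true := by decide +kernel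
def p13_20_2_111 : pfC (piC [(nat_lit 35404596), (nat_lit 22827826), (nat_lit 14696761)] (nat_lit 7236065)) p13_20_2 (nat_lit 3) (nat_lit 111) (nat_lit 112) = true := by decide +kernel
def p13_20_2_112 : pfC (piC [(nat_lit 35404596), (nat_lit 22827826), (nat_lit 14696761)] (nat_lit 7236065)) p13_20_2 (nat_lit 3) (nat_lit 112) (nat_lit 113) = true := by decide +kernel
def p13_20_2_113 : pfC (piC [(nat_lit 35404596), (nat_lit 22827826), (nat_lit 14696761)] (nat_lit 7236065)) p13_20_2 (nat_lit 3) (nat_lit 113) (nat_lit 114) = true := by decide +kernel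
def p13_20_2_114 : pfC (piC [(nat_lit 35404596), (nat_lit 22827826), (nat_lit 14696761)] (nat_lit 7236065)) p13_20_2 (nat_lit 3) (nat_lit 114) (nat_lit 115) = true := by decide +kernel
def p13_20_2_115 : pfC (piC [(nat_lit 35404596), (nat_lit 22827826), (nat_lit 14696761)] (nat_lit 7236065)) p13_20_2 (nat_lit 3) (nat_lit 115) (nat_lit 116) = true := by decide +kernel
def p13_20_2_116 : pfC (piC [(nat_lit 35404596), (nat_lit 22827826), (nat_lit 14696761)] (nat_lit 7236065)) p13_20_2 (nat_lit 3) (nat_lit 116) (nat_lit 117) = true := by decide +kernel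
def p13_20_2_117 : pfC (piC [(nat_lit 35404596), (nat_lit 22827826), (nat_lit 14696761)] (nat_lit 7236065)) p13_20_2 (nat_lit 3) (nat_lit 117) (nat_lit 118) = true := by decide +kernel
def p13_20_2_118 : pfC (piC [(nat_lit 35404596), (nat_lit 22827826), (nat_lit 14696761)] (nat_lit 7236065)) p13_20_2 (nat_lit 3) (nat_lit 118) (nat_lit 119) = true := by decide +kernel
def p13_20_2_119 : pfC (piC [(nat_lit 35404596), (nat_lit 22827826), (nat_lit 14696761)] (nat_lit 7236065)) p13_20_2 (nat_lit 3) (nat_lit 119) (nat_lit 120) = true := by decide +kernel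
def p13_20_2_120 : pfC (piC [(nat_lit 35404596), (nat_lit 22827826), (nat_lit 14696761)] (nat_lit 7236065)) p13_20_2 (nat_lit 3) (nat_lit 120) (nat_lit 121) = true := by decide +kernel
def p13_20_2_121 : pfC (piC [(nat_lit 35404596), (nat_lit 22827826), (nat_lit 14696761)] (nat_lit 7236065)) p13_20_2 (nat_lit 3) (nat_lit 121) (nat_lit 122) = true := by decide +kernel
def p13_20_2_122 : pfC (piC [(nat_lit 35404596), (nat_lit 22827826), (nat_lit 14696761)] (nat_lit 7236065)) p13_20_2 (nat_lit 3) (nat_lit 122) (nat_lit 123) = true := by decide +kernel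
def p13_20_2_123 : pfC (piC [(nat_lit 35404596), (nat_lit 22827826), (nat_lit 14696761)] (nat_lit 7236065)) p13_20_2 (nat_lit 3) (nat_lit 123) (nat_lit 124) = true := by decide +kernel
def p13_20_2_124 : pfC (piC [(nat_lit 35404596), (nat_lit 22827826), (nat_lit 14696761)] (nat_lit 7236065)) p13_20_2 (nat_lit 3) (nat_lit 124) (nat_lit 125) = true := by decide +kernel
def p13_20_2_125 : pfC (piC [(nat_lit 35404596), (nat_lit 22827826), (nat_lit 14696761)] (nat_lit 7236065)) p13_20_2 (nat_lit 3) (nat_lit 125) (nat_lit 126) = true := by decide +kernel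
def p13_20_2_126 : pfC (piC [(nat_lit 35404596), (nat_lit 22827826), (nat_lit 14696761)] (nat_lit 7236065)) p13_20_2 (nat_lit 3) (nat_lit 126) (nat_lit 127) = true := by decide +kernel
def p13_20_2_127 : pfC (piC [(nat_lit 35404596), (nat_lit 22827826), (nat_lit 14696761)] (nat_lit 7236065)) p13_20_2 (nat_lit 3) (nat_lit 127) (nat_lit 128) = true := by decide +kernel
def p13_20_2_128 : pfC (piC [(nat_lit 35404596), (nat_lit 22827826), (nat_lit 14696761)] (nat_lit 7236065)) p13_20_2 (nat_lit 3) (nat_lit 128) (nat_lit 129) = true := by decide +kernel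
def p13_20_2_129 : pfC (piC [(nat_lit 35404596), (nat_lit 22827826), (nat_lit 14696761)] (nat_lit 7236065)) p13_20_2 (nat_lit 3) (nat_lit 129) (nat_lit 130) = true := by decide +kernel
def p13_20_2_130 : pfC (piC [(nat_lit 35404596), (nat_lit 22827826), (nat_lit 14696761)] (nat_lit 7236065)) p13_20_2 (nat_lit 3) (nat_lit 130) (nat_lit 131) = true := by decide +kernel
def p13_20_2_131 : pfC (piC [(nat_lit 35404596), (nat_lit 22827826), (nat_lit 14696761)] (nat_lit 7236065)) p13_20_2 (nat_lit 3) (nat_lit 131) (nat_lit 132) = true := by decide +kernel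
def p13_20_2_132 : pfC (piC [(nat_lit 35404596), (nat_lit 22827826), (nat_lit 14696761)] (nat_lit 7236065)) p13_20_2 (nat_lit 3) (nat_lit 132) (nat_lit 133) = true := by decide +kernel
def p13_20_2_133 : pfC (piC [(nat_lit 35404596), (nat_lit 22827826), (nat_lit 14696761)] (nat_lit 7236065)) p13_20_2 (nat_lit 3) (nat_lit 133) (nat_lit 134) = true := by decide +kernel
def p13_20_2_134 : pfC (piC [(nat_lit 35404596), (nat_lit 22827826), (nat_lit 14696761)] (nat_lit 7236065)) p13_20_2 (nat_lit 3) (nat_lit 134) (nat_lit 135) = true := by decide +kernel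
def p13_20_2_135 : pfC (piC [(nat_lit 35404596), (nat_lit 22827826), (nat_lit 14696761)] (nat_lit 7236065)) p13_20_2 (nat_lit 3) (nat_lit 135) (nat_lit 136) = true := by decide +kernel
def p13_20_2_136 : pfC (piC [(nat_lit 35404596), (nat_lit 22827826), (nat_lit 14696761)] (nat_lit 7236065)) p13_20_2 (nat_lit 3) (nat_lit 136) (nat_lit 137) = true := by decide +kernel
def p13_20_2_137 : pfC (piC [(nat_lit 35404596), (nat_lit 22827826), (nat_lit 14696761)] (nat_lit 7236065)) p13_20_2 (nat_lit 3) (nat_lit 137) (nat_lit 138) = true := by decide +kernel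
def p13_20_2_138 : pfC (piC [(nat_lit 35404596), (nat_lit 22827826), (nat_lit 14696761)] (nat_lit 7236065)) p13_20_2 (nat_lit 3) (nat_lit 138) (nat_lit 139) = true := by decide +kernel
def p13_20_2_139 : pfC (piC [(nat_lit 35404596), (nat_lit 22827826), (nat_lit 14696761)] (nat_lit 7236065)) p13_20_2 (nat_lit 3) (nat_lit 139) (nat_lit 140) = true := by decide +kernel
def p13_20_2_140 : pfC (piC [(nat_lit 35404596), (nat_lit 22827826), (nat_lit 14696761)] (nat_lit 7236065)) p13_20_2 (nat_lit 3) (nat_lit 140) (nat_lit 141) = true := by decide +kernel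
def p13_20_2_141 : pfC (piC [(nat_lit 35404596), (nat_lit 22827826), (nat_lit 14696761)] (nat_lit 7236065)) p13_20_2 (nat_lit 3) (nat_lit 141) (nat_lit 142) = true := by decide +kernel
def p13_20_2_142 : pfC (piC [(nat_lit 35404596), (nat_lit 22827826), (nat_lit 14696761)] (nat_lit 7236065)) p13_20_2 (nat_lit 3) (nat_lit 142) (nat_lit 143) = true := by decide +kernel
def p13_20_2_143 : pfC (piC [(nat_lit 35404596), (nat_lit 22827826), (nat_lit 14696761)] (nat_lit 7236065)) p13_20_2 (nat_lit 3) (nat_lit 143) (nat_lit 144) = true := by decide +kernel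
def p13_20_2_144 : pfC (piC [(nat_lit 35404596), (nat_lit 22827826), (nat_lit 14696761)] (nat_lit 7236065)) p13_20_2 (nat_lit 3) (nat_lit 144) (nat_lit 145) = true := by decide +kernel
def p13_20_2_145 : pfC (piC [(nat_lit 35404596), (nat_lit 22827826), (nat_lit 14696761)] (nat_lit 7236065)) p13_20_2 (nat_lit 3) (nat_lit 145) (nat_lit 146) = true := by decide +kernel
def p13_20_2_146 : pfC (piC [(nat_lit 35404596), (nat_lit 22827826), (nat_lit 14696761)] (nat_lit 7236065)) p13_20_2 (nat_lit 3) (nat_lit 146) (nat_lit 147) = true := by decide +kernel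
def p13_20_2_147 : pfC (piC [(nat_lit 35404596), (nat_lit 22827826), (nat_lit 14696761)] (nat_lit 7236065)) p13_20_2 (nat_lit 3) (nat_lit 147) (nat_lit 148) = true := by decide +kernel
def p13_20_2_148 : pfC (piC [(nat_lit 35404596), (nat_lit 22827826), (nat_lit 14696761)] (nat_lit 7236065)) p13_20_2 (nat_lit 3) (nat_lit 148) (nat_lit 149) = true := by decide +kernel
def p13_20_2_149 : pfC (piC [(nat_lit 35404596), (nat_lit 22827826), (nat_lit 14696761)] (nat_lit 7236065)) p13_20_2 (nat_lit 3) (nat_lit 149) (nat_lit 150) = true := by decide +kernel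
def p13_20_2_150 : pfC (piC [(nat_lit 35404596), (nat_lit 22827826), (nat_lit 14696761)] (nat_lit 7236065)) p13_20_2 (nat_lit 3) (nat_lit 150) (nat_lit 151) = true := by decide +kernel
def p13_20_2_151 : pfC (piC [(nat_lit 35404596), (nat_lit 22827826), (nat_lit 14696761)] (nat_lit 7236065)) p13_20_2 (nat_lit 3) (nat_lit 151) (nat_lit 152) = true := by decide +kernel
def p13_20_2_152 : pfC (piC [(nat_lit 35404596), (nat_lit 22827826), (nat_lit 14696761)] (nat_lit 7236065)) p13_20_2 (nat_lit 3) (nat_lit 152) (nat_lit 153) = true := by decide +kernel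
def p13_20_2_153 : pfC (piC [(nat_lit 35404596), (nat_lit 22827826), (nat_lit 14696761)] (nat_lit 7236065)) p13_20_2 (nat_lit 3) (nat_lit 153) (nat_lit 154) = true := by decide +kernel
def p13_20_2_154 : pfC (piC [(nat_lit 35404596), (nat_lit 22827826), (nat_lit 14696761)] (nat_lit 7236065)) p13_20_2 (nat_lit 3) (nat_lit 154) (nat_lit 155) = true := by decide +kernel
def p13_20_2_155 : pfC (piC [(nat_lit 35404596), (nat_lit 22827826), (nat_lit 14696761)] (nat_lit 7236065)) p13_20_2 (nat_lit 3) (nat_lit 155) (nat_lit 156) = true := by decide +kernel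
def p13_20_2_156 : pfC (piC [(nat_lit 35404596), (nat_lit 22827826), (nat_lit 14696761)] (nat_lit 7236065)) p13_20_2 (nat_lit 3) (nat_lit 156) (nat_lit 157) = true := by decide +kernel
def p13_20_2_157 : pfC (piC [(nat_lit 35404596), (nat_lit 22827826), (nat_lit 14696761)] (nat_lit 7236065)) p13_20_2 (nat_lit 3) (nat_lit 157) (nat_lit 158) = true := by decide +kernel
def p13_20_2_158 : pfC (piC [(nat_lit 35404596), (nat_lit 22827826), (nat_lit 14696761)] (nat_lit 7236065)) p13_20_2 (nat_lit 3) (nat_lit 158) (nat_lit 159) = true := by decide +kernel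
def p13_20_2_159 : pfC (piC [(nat_lit 35404596), (nat_lit 22827826), (nat_lit 14696761)] (nat_lit 7236065)) p13_20_2 (nat_lit 3) (nat_lit 159) (nat_lit 160) = true := by decide +kernel
def p13_20_2_160 : pfC (piC [(nat_lit 35404596), (nat_lit 22827826), (nat_lit 14696761)] (nat_lit 7236065)) p13_20_2 (nat_lit 3) (nat_lit 160) (nat_lit 161) = true := by decide +kernel
def p13_20_2_161 : pfC (piC [(nat_lit 35404596), (nat_lit 22827826), (nat_lit 14696761)] (nat_lit 7236065)) p13_20_2 (nat_lit 3) (nat_lit 161) (nat_lit 162) = true := by decide +kernel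
def p13_20_2_162 : pfC (piC [(nat_lit 35404596), (nat_lit 22827826), (nat_lit 14696761)] (nat_lit 7236065)) p13_20_2 (nat_lit 3) (nat_lit 162) (nat_lit 163) = true := by decide +kernel
def p13_20_2_163 : pfC (piC [(nat_lit 35404596), (nat_lit 22827826), (nat_lit 14696761)] (nat_lit 7236065)) p13_20_2 (nat_lit 3) (nat_lit 163) (nat_lit 164) = true := by decide +kernel
def p13_20_2_164 : pfC (piC [(nat_lit 35404596), (nat_lit 22827826), (nat_lit 14696761)] (nat_lit 7236065)) p13_20_2 (nat_lit 3) (nat_lit 164) (nat_lit 165) = true := by decide +kernel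
def p13_20_2_165 : pfC (piC [(nat_lit 35404596), (nat_lit 22827826), (nat_lit 14696761)] (nat_lit 7236065)) p13_20_2 (nat_lit 3) (nat_lit 165) (nat_lit 166) = true := by decide +kernel
def p13_20_2_166 : pfC (piC [(nat_lit 35404596), (nat_lit 22827826), (nat_lit 14696761)] (nat_lit 7236065)) p13_20_2 (nat_lit 3) (nat_lit 166) (nat_lit 167) = true := by decide +kernel
def p13_20_2_167 : pfC (piC [(nat_lit 35404596), (nat_lit 22827826), (nat_lit 14696761)] (nat_lit 7236065)) p13_20_2 (nat_lit 3) (nat_lit 167) (nat_lit 168) = true := by decide +kernel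
def p13_20_2_168 : pfC (piC [(nat_lit 35404596), (nat_lit 22827826), (nat_lit 14696761)] (nat_lit 7236065)) p13_20_2 (nat_lit 3) (nat_lit 168) (nat_lit 169) = true := by decide +kernel
def p13_20_2_169 : pfC (piC [(nat_lit 35404596), (nat_lit 22827826), (nat_lit 14696761)] (nat_lit 7236065)) p13_20_2 (nat_lit 3) (nat_lit 169) (nat_lit 170) = true := by decide +kernel
def p13_20_2_170 : pfC (piC [(nat_lit 35404596), (nat_lit 22827826), (nat_lit 14696761)] (nat_lit 7236065)) p13_20_2 (nat_lit 3) (nat_lit 170) (nat_lit 171) = true := by decide +kernel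
def p13_20_2_171 : pfC (piC [(nat_lit 35404596), (nat_lit 22827826), (nat_lit 14696761)] (nat_lit 7236065)) p13_20_2 (nat_lit 3) (nat_lit 171) (nat_lit 172) = true := by decide +kernel
def p13_20_2_172 : pfC (piC [(nat_lit 35404596), (nat_lit 22827826), (nat_lit 14696761)] (nat_lit 7236065)) p13_20_2 (nat_lit 3) (nat_lit 172) (nat_lit 173) = true := by decide +kernel
def p13_20_2_173 : pfC (piC [(nat_lit 35404596), (nat_lit 22827826), (nat_lit 14696761)] (nat_lit 7236065)) p13_20_2 (nat_lit 3) (nat_lit 173) (nat_lit 174) = true := by decide +kernel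
def p13_20_2_174 : pfC (piC [(nat_lit 35404596), (nat_lit 22827826), (nat_lit 14696761)] (nat_lit 7236065)) p13_20_2 (nat_lit 3) (nat_lit 174) (nat_lit 175) = true := by decide +kernel
def p13_20_2_175 : pfC (piC [(nat_lit 35404596), (nat_lit 22827826), (nat_lit 14696761)] (nat_lit 7236065)) p13_20_2 (nat_lit 3) (nat_lit 175) (nat_lit 176) = true := by decide +kernel
def p13_20_2_176 : pfC (piC [(nat_lit 35404596), (nat_lit 22827826), (nat_lit 14696761)] (nat_lit 7236065)) p13_20_2 (nat_lit 3) (nat_lit 176) (nat_lit 177) = true := by decide +kernel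
def p13_20_2_177 : pfC (piC [(nat_lit 35404596), (nat_lit 22827826), (nat_lit 14696761)] (nat_lit 7236065)) p13_20_2 (nat_lit 3) (nat_lit 177) (nat_lit 178) = true := by decide +kernel
def p13_20_2_178 : pfC (piC [(nat_lit 35404596), (nat_lit 22827826), (nat_lit 14696761)] (nat_lit 7236065)) p13_20_2 (nat_lit 3) (nat_lit 178) (nat_lit 179) = true := by decide +kernel
def p13_20_2_179 : pfC (piC [(nat_lit 35404596), (nat_lit 22827826), (nat_lit 14696761)] (nat_lit 7236065)) p13_20_2 (nat_lit 3) (nat_lit 179) (nat_lit 180) = true := by decide +kernel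
def p13_20_2_180 : pfC (piC [(nat_lit 35404596), (nat_lit 22827826), (nat_lit 14696761)] (nat_lit 7236065)) p13_20_2 (nat_lit 3) (nat_lit 180) (nat_lit 181) = true := by decide +kernel
def p13_20_2_181 : pfC (piC [(nat_lit 35404596), (nat_lit 22827826), (nat_lit 14696761)] (nat_lit 7236065)) p13_20_2 (nat_lit 3) (nat_lit 181) (nat_lit 182) = true := by decide +kernel
def p13_20_2_182 : pfC (piC [(nat_lit 35404596), (nat_lit 22827826), (nat_lit 14696761)] (nat_lit 7236065)) p13_20_2 (nat_lit 3) (nat_lit 182) (nat_lit 183) = true := by decide +kernel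
def p13_20_2_183 : pfC (piC [(nat_lit 35404596), (nat_lit 22827826), (nat_lit 14696761)] (nat_lit 7236065)) p13_20_2 (nat_lit 3) (nat_lit 183) (nat_lit 184) = true := by decide +kernel
def p13_20_2_184 : pfC (piC [(nat_lit 35404596), (nat_lit 22827826), (nat_lit 14696761)] (nat_lit 7236065)) p13_20_2 (nat_lit 3) (nat_lit 184) (nat_lit 185) = true := by decide +kernel
def p13_20_2_185 : pfC (piC [(nat_lit 35404596), (nat_lit 22827826), (nat_lit 14696761)] (nat_lit 7236065)) p13_20_2 (nat_lit 3) (nat_lit 185) (nat_lit 186) = true := by decide +kernel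
def p13_20_2_186 : pfC (piC [(nat_lit 35404596), (nat_lit 22827826), (nat_lit 14696761)] (nat_lit 7236065)) p13_20_2 (nat_lit 3) (nat_lit 186) (nat_lit 187) = true := by decide +kernel
def p13_20_2_187 : pfC (piC [(nat_lit 35404596), (nat_lit 22827826), (nat_lit 14696761)] (nat_lit 7236065)) p13_20_2 (nat_lit 3) (nat_lit 187) (nat_lit 188) = true := by decide +kernel
def p13_20_2_188 : pfC (piC [(nat_lit 35404596), (nat_lit 22827826), (nat_lit 14696761)] (nat_lit 7236065)) p13_20_2 (nat_lit 3) (nat_lit 188) (nat_lit 189) = true := by decide +kernel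
def p13_20_2_189 : pfC (piC [(nat_lit 35404596), (nat_lit 22827826), (nat_lit 14696761)] (nat_lit 7236065)) p13_20_2 (nat_lit 3) (nat_lit 189) (nat_lit 190) = true := by decide +kernel
def p13_20_2_190 : pfC (piC [(nat_lit 35404596), (nat_lit 22827826), (nat_lit 14696761)] (nat_lit 7236065)) p13_20_2 (nat_lit 3) (nat_lit 190) (nat_lit 191) = true := by decide +kernel
def p13_20_2_191 : pfC (piC [(nat_lit 35404596), (nat_lit 22827826), (nat_lit 14696761)] (nat_lit 7236065)) p13_20_2 (nat_lit 3) (nat_lit 191) (nat_lit 192) = true := by decide +kernel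
def p13_20_2_192 : pfC (piC [(nat_lit 35404596), (nat_lit 22827826), (nat_lit 14696761)] (nat_lit 7236065)) p13_20_2 (nat_lit 3) (nat_lit 192) (nat_lit 193) = true := by decide +kernel
def p13_20_2_193 : pfC (piC [(nat_lit 35404596), (nat_lit 22827826), (nat_lit 14696761)] (nat_lit 7236065)) p13_20_2 (nat_lit 3) (nat_lit 193) (nat_lit 194) = true := by decide +kernel
def p13_20_2_194 : pfC (piC [(nat_lit 35404596), (nat_lit 22827826), (nat_lit 14696761)] (nat_lit 7236065)) p13_20_2 (nat_lit 3) (nat_lit 194) (nat_lit 195) = true := by decide +kernel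
def p13_20_2_195 : pfC (piC [(nat_lit 35404596), (nat_lit 22827826), (nat_lit 14696761)] (nat_lit 7236065)) p13_20_2 (nat_lit 3) (nat_lit 195) (nat_lit 196) = true := by decide +kernel
def p13_20_2_196 : pfC (piC [(nat_lit 35404596), (nat_lit 22827826), (nat_lit 14696761)] (nat_lit 7236065)) p13_20_2 (nat_lit 3) (nat_lit 196) (nat_lit 197) = true := by decide +kernel
def p13_20_2_197 : pfC (piC [(nat_lit 35404596), (nat_lit 22827826), (nat_lit 14696761)] (nat_lit 7236065)) p13_20_2 (nat_lit 3) (nat_lit 197) (nat_lit 198) = true := by decide +kernel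
def p13_20_2_198 : pfC (piC [(nat_lit 35404596), (nat_lit 22827826), (nat_lit 14696761)] (nat_lit 7236065)) p13_20_2 (nat_lit 3) (nat_lit 198) (nat_lit 199) = true := by decide +kernel
def p13_20_2_199 : pfC (piC [(nat_lit 35404596), (nat_lit 22827826), (nat_lit 14696761)] (nat_lit 7236065)) p13_20_2 (nat_lit 3) (nat_lit 199) (nat_lit 200) = true := by decide +kernel
def p13_20_2_200 : pfC (piC [(nat_lit 35404596), (nat_lit 22827826), (nat_lit 14696761)] (nat_lit 7236065)) p13_20_2 (nat_lit 3) (nat_lit 200) (nat_lit 201) = true := by decide +kernel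
def p13_20_2_201 : pfC (piC [(nat_lit 35404596), (nat_lit 22827826), (nat_lit 14696761)] (nat_lit 7236065)) p13_20_2 (nat_lit 3) (nat_lit 201) (nat_lit 202) = true := by decide +kernel
def p13_20_2_202 : pfC (piC [(nat_lit 35404596), (nat_lit 22827826), (nat_lit 14696761)] (nat_lit 7236065)) p13_20_2 (nat_lit 3) (nat_lit 202) (nat_lit 203) = true := by decide +kernel
def p13_20_2_203 : pfC (piC [(nat_lit 35404596), (nat_lit 22827826), (nat_lit 14696761)] (nat_lit 7236065)) p13_20_2 (nat_lit 3) (nat_lit 203) (nat_lit 204) = true := by decide +kernel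
def p13_20_2_204 : pfC (piC [(nat_lit 35404596), (nat_lit 22827826), (nat_lit 14696761)] (nat_lit 7236065)) p13_20_2 (nat_lit 3) (nat_lit 204) (nat_lit 205) = true := by decide +kernel
def p13_20_2_205 : pfC (piC [(nat_lit 35404596), (nat_lit 22827826), (nat_lit 14696761)] (nat_lit 7236065)) p13_20_2 (nat_lit 3) (nat_lit 205) (nat_lit 206) = true := by decide +kernel
def p13_20_2_206 : pfC (piC [(nat_lit 35404596), (nat_lit 22827826), (nat_lit 14696761)] (nat_lit 7236065)) p13_20_2 (nat_lit 3) (nat_lit 206) (nat_lit 207) = true := by decide +kernel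
def p13_20_2_207 : pfC (piC [(nat_lit 35404596), (nat_lit 22827826), (nat_lit 14696761)] (nat_lit 7236065)) p13_20_2 (nat_lit 3) (nat_lit 207) (nat_lit 208) = true := by decide +kernel
def p13_20_2_208 : pfC (piC [(nat_lit 35404596), (nat_lit 22827826), (nat_lit 14696761)] (nat_lit 7236065)) p13_20_2 (nat_lit 3) (nat_lit 208) (nat_lit 209) = true := by decide +kernel
def p13_20_2_209 : pfC (piC [(nat_lit 35404596), (nat_lit 22827826), (nat_lit 14696761)] (nat_lit 7236065)) p13_20_2 (nat_lit 3) (nat_lit 209) (nat_lit 210) = true := by decide +kernel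
theorem p13_20_2_T : PfS (PiF n13_20.reverse (nat_lit 7236065)) p13_20_2 (nat_lit 3) [] 0 :=
  pftab_of (los := [(nat_lit 35404596), (nat_lit 22827826), (nat_lit 14696761)]) (by decide +kernel) (hi := (nat_lit 210)) (PfP.trans (PfP.trans (PfP.trans (PfP.trans (PfP.trans (PfP.trans (PfP.trans (PfP.trans (PfP.trans (PfP.trans (PfP.trans (PfP.trans (PfP.trans (PfP.trans (PfP.trans (PfP.trans (PfP.trans (PfP.trans (PfP.trans (PfP.trans (PfP.trans (PfP.trans (PfP.trans (PfP.trans (PfP.trans (PfP.trans (PfP.trans (PfP.trans (PfP.trans (PfP.trans (PfP.trans (PfP.trans (PfP.trans (PfP.trans (PfP.trans (PfP.trans (PfP.trans (PfP.trans (PfP.trans (PfP.trans (PfP.trans (PfP.trans (PfP.trans (PfP.trans (PfP.trans (PfP.trans (PfP.trans (PfP.trans (PfP.trans (PfP.trans (PfP.trans (PfP.trans (PfP.trans (PfP.trans (PfP.trans (PfP.trans (PfP.trans (PfP.trans (PfP.trans (PfP.trans (PfP.trans (PfP.trans (PfP.trans (PfP.trans (PfP.trans (PfP.trans (PfP.trans (PfP.trans (PfP.trans (PfP.trans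 (PfP.trans (PfP.trans (PfP.trans (PfP.trans (PfP.trans (PfP.trans (PfP.trans (PfP.trans (PfP.trans (PfP.trans (PfP.trans (PfP.trans (PfP.trans (PfP.trans (PfP.trans (PfP.trans (PfP.trans (PfP.trans (PfP.trans (PfP.trans (PfP.trans (PfP.trans (PfP.trans (PfP.trans (PfP.trans (PfP.trans (PfP.trans (PfP.trans (PfP.trans (PfP.trans (PfP.trans (PfP.trans (PfP.trans (PfP.trans (PfP.trans (PfP.trans (PfP.trans (PfP.trans (PfP.trans
 (PfP.trans (PfP.trans (PfP.trans (PfP.trans (PfP.trans (PfP.trans (PfP.trans (PfP.trans (PfP.trans (PfP.trans (PfP.trans (PfP.trans (PfP.trans (PfP.trans (PfP.trans (PfP.trans (PfP.trans (PfP.trans (PfP.trans (PfP.trans (PfP.trans (PfP.trans (PfP.trans (PfP.trans (PfP.trans (PfP.trans (PfP.trans (PfP.trans (PfP.trans (PfP.trans (PfP.trans (PfP.trans (PfP.trans (PfP.trans (PfP.trans (PfP.trans (PfP.trans (PfP.trans (PfP.trans (PfP.trans (PfP.trans (PfP.trans (PfP.trans (PfP.trans (PfP.trans (PfP.trans (PfP.trans (PfP.trans (PfP.trans (PfP.trans (PfP.trans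 (PfP.trans (PfP.trans (PfP.trans (PfP.trans (PfP.trans (PfP.trans (PfP.trans (PfP.trans (PfP.trans (PfP.trans (PfP.trans (PfP.trans (PfP.trans (PfP.trans (PfP.trans (PfP.trans (PfP.trans (PfP.trans (PfP.trans (PfP.trans (PfP.trans (PfP.trans (PfP.trans (PfP.trans (PfP.trans (PfP.trans (PfP.trans (PfP.trans (PfP.trans (PfP.trans (PfP.trans (PfP.trans (PfP.trans (PfP.trans (PfP.trans (PfP.trans (PfP.trans (PfP.trans (PfP.trans (PfP.trans (PfP.trans (PfP.trans (PfP.trans (PfP.trans (PfP.trans (PfP.trans (PfP.trans (PfP.trans (PfP.trans (pfC_sound p13_20_2_0) (pfC_sound p13_20_2_1)) (pfC_sound p13_20_2_2)) (pfC_sound p13_20_2_3))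
 (pfC_sound p13_20_2_4)) (pfC_sound p13_20_2_5)) (pfC_sound p13_20_2_6)) (pfC_sound p13_20_2_7)) (pfC_sound p13_20_2_8)) (pfC_sound p13_20_2_9)) (pfC_sound p13_20_2_10)) (pfC_sound p13_20_2_11)) (pfC_sound p13_20_2_12)) (pfC_sound p13_20_2_13)) (pfC_sound p13_20_2_14)) (pfC_sound p13_20_2_15)) (pfC_sound p13_20_2_16)) (pfC_sound p13_20_2_17)) (pfC_sound p13_20_2_18)) (pfC_sound p13_20_2_19)) (pfC_sound p13_20_2_20)) (pfC_sound p13_20_2_21)) (pfC_sound p13_20_2_22)) (pfC_sound p13_20_2_23)) (pfC_sound p13_20_2_24)) (pfC_sound p13_20_2_25)) (pfC_sound p13_20_2_26)) (pfC_sound p13_20_2_27)) (pfC_sound p13_20_2_28)) (pfC_sound p13_20_2_29)) (pfC_sound p13_20_2_30)) (pfC_sound p13_20_2_31)) (pfC_sound p13_20_2_32)) (pfC_sound p13_20_2_33)) (pfC_sound p13_20_2_34)) (pfC_sound p13_20_2_35)) (pfC_sound p13_20_2_36)) (pfC_sound p13_20_2_37)) (pfC_sound p13_20_2_38)) (pfC_sound p13_20_2_39)) (pfC_sound p13_20_2_40)) (pfC_sound p13_20_2_41)) (pfC_sound p13_20_2_42)) (pfC_sound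 p13_20_2_43)) (pfC_sound p13_20_2_44)) (pfC_sound p13_20_2_45)) (pfC_sound p13_20_2_46)) (pfC_sound p13_20_2_47)) (pfC_sound p13_20_2_48)) (pfC_sound p13_20_2_49)) (pfC_sound p13_20_2_50)) (pfC_sound p13_20_2_51))
 (pfC_sound p13_20_2_52)) (pfC_sound p13_20_2_53)) (pfC_sound p13_20_2_54)) (pfC_sound p13_20_2_55)) (pfC_sound p13_20_2_56)) (pfC_sound p13_20_2_57)) (pfC_sound p13_20_2_58)) (pfC_sound p13_20_2_59)) (pfC_sound p13_20_2_60)) (pfC_sound p13_20_2_61)) (pfC_sound p13_20_2_62)) (pfC_sound p13_20_2_63)) (pfC_sound p13_20_2_64)) (pfC_sound p13_20_2_65)) (pfC_sound p13_20_2_66)) (pfC_sound p13_20_2_67)) (pfC_sound p13_20_2_68)) (pfC_sound p13_20_2_69)) (pfC_sound p13_20_2_70)) (pfC_sound p13_20_2_71)) (pfC_sound p13_20_2_72)) (pfC_sound p13_20_2_73)) (pfC_sound p13_20_2_74)) (pfC_sound p13_20_2_75)) (pfC_sound p13_20_2_76)) (pfC_sound p13_20_2_77)) (pfC_sound p13_20_2_78)) (pfC_sound p13_20_2_79)) (pfC_sound p13_20_2_80)) (pfC_sound p13_20_2_81)) (pfC_sound p13_20_2_82))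 (pfC_sound p13_20_2_83)) (pfC_sound p13_20_2_84)) (pfC_sound p13_20_2_85)) (pfC_sound p13_20_2_86)) (pfC_sound p13_20_2_87)) (pfC_sound p13_20_2_88)) (pfC_sound p13_20_2_89)) (pfC_sound p13_20_2_90)) (pfC_sound p13_20_2_91)) (pfC_sound p13_20_2_92)) (pfC_sound p13_20_2_93)) (pfC_sound p13_20_2_94)) (pfC_sound p13_20_2_95)) (pfC_sound p13_20_2_96)) (pfC_sound p13_20_2_97)) (pfC_sound p13_20_2_98)) (pfC_sound p13_20_2_99))
 (pfC_sound p13_20_2_100)) (pfC_sound p13_20_2_101)) (pfC_sound p13_20_2_102)) (pfC_sound p13_20_2_103)) (pfC_sound p13_20_2_104)) (pfC_sound p13_20_2_105)) (pfC_sound p13_20_2_106)) (pfC_sound p13_20_2_107)) (pfC_sound p13_20_2_108)) (pfC_sound p13_20_2_109)) (pfC_sound p13_20_2_110)) (pfC_sound p13_20_2_111)) (pfC_sound p13_20_2_112)) (pfC_sound p13_20_2_113)) (pfC_sound p13_20_2_114)) (pfC_sound p13_20_2_115)) (pfC_sound p13_20_2_116)) (pfC_sound p13_20_2_117)) (pfC_sound p13_20_2_118)) (pfC_sound p13_20_2_119)) (pfC_sound p13_20_2_120)) (pfC_sound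 p13_20_2_121)) (pfC_sound p13_20_2_122)) (pfC_sound p13_20_2_123)) (pfC_sound p13_20_2_124)) (pfC_sound p13_20_2_125)) (pfC_sound p13_20_2_126)) (pfC_sound p13_20_2_127)) (pfC_sound p13_20_2_128)) (pfC_sound p13_20_2_129)) (pfC_sound p13_20_2_130)) (pfC_sound p13_20_2_131)) (pfC_sound p13_20_2_132)) (pfC_sound p13_20_2_133)) (pfC_sound p13_20_2_134)) (pfC_sound p13_20_2_135)) (pfC_sound p13_20_2_136)) (pfC_sound p13_20_2_137)) (pfC_sound p13_20_2_138)) (pfC_sound p13_20_2_139)) (pfC_sound p13_20_2_140)) (pfC_sound p13_20_2_141)) (pfC_sound p13_20_2_142)) (pfC_sound p13_20_2_143)) (pfC_sound p13_20_2_144)) (pfC_sound p13_20_2_145))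
 (pfC_sound p13_20_2_146)) (pfC_sound p13_20_2_147)) (pfC_sound p13_20_2_148)) (pfC_sound p13_20_2_149)) (pfC_sound p13_20_2_150)) (pfC_sound p13_20_2_151)) (pfC_sound p13_20_2_152)) (pfC_sound p13_20_2_153)) (pfC_sound p13_20_2_154)) (pfC_sound p13_20_2_155)) (pfC_sound p13_20_2_156)) (pfC_sound p13_20_2_157)) (pfC_sound p13_20_2_158)) (pfC_sound p13_20_2_159)) (pfC_sound p13_20_2_160)) (pfC_sound p13_20_2_161)) (pfC_sound p13_20_2_162)) (pfC_sound p13_20_2_163)) (pfC_sound p13_20_2_164)) (pfC_sound p13_20_2_165)) (pfC_sound p13_20_2_166)) (pfC_sound p13_20_2_167)) (pfC_sound p13_20_2_168)) (pfC_sound p13_20_2_169)) (pfC_sound p13_20_2_170)) (pfC_sound p13_20_2_171)) (pfC_sound p13_20_2_172)) (pfC_sound p13_20_2_173)) (pfC_sound p13_20_2_174)) (pfC_sound p13_20_2_175)) (pfC_sound p13_20_2_176)) (pfC_sound p13_20_2_177)) (pfC_sound p13_20_2_178)) (pfC_sound p13_20_2_179)) (pfC_sound p13_20_2_180)) (pfC_sound p13_20_2_181)) (pfC_sound p13_20_2_182)) (pfC_sound p13_20_2_183))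 (pfC_sound p13_20_2_184)) (pfC_sound p13_20_2_185)) (pfC_sound p13_20_2_186)) (pfC_sound p13_20_2_187)) (pfC_sound p13_20_2_188)) (pfC_sound p13_20_2_189)) (pfC_sound p13_20_2_190)) (pfC_sound p13_20_2_191))
 (pfC_sound p13_20_2_192)) (pfC_sound p13_20_2_193)) (pfC_sound p13_20_2_194)) (pfC_sound p13_20_2_195)) (pfC_sound p13_20_2_196)) (pfC_sound p13_20_2_197)) (pfC_sound p13_20_2_198)) (pfC_sound p13_20_2_199)) (pfC_sound p13_20_2_200)) (pfC_sound p13_20_2_201)) (pfC_sound p13_20_2_202)) (pfC_sound p13_20_2_203)) (pfC_sound p13_20_2_204)) (pfC_sound p13_20_2_205)) (pfC_sound p13_20_2_206)) (pfC_sound p13_20_2_207)) (pfC_sound p13_20_2_208)) (pfC_sound p13_20_2_209)) (by decide +kernel)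

def z13_20_2 : zOK yB13_20 (nat_lit 2) (nat_lit 600) (nat_lit 682) (nat_lit 7236065) (nat_lit 7236065) = true := by decide +kernel
def g13_20_2 : gOK yB13_20.x P13_20 (nat_lit 1368) (q13_20 :: r13_20) (nat_lit 2) (nat_lit 600) (nat_lit 3) (nat_lit 682) (nat_lit 12712500) (nat_lit 12712500) (nat_lit 12712500) (nat_lit 12712500) [(nat_lit 800)] = true := by decide +kernel
def v13_20_2 : ivC P13_20 s13_20 w13_20 n13_20 (nat_lit 3) (nat_lit 4660) (nat_lit 2) (nat_lit 600) f184_0_600 f192_0_600 (nat_lit 3) (nat_lit 682) f184_0_682 f192_0_682 (nat_lit 7236065) (nat_lit 7236065) p13_20_2 = true := by decide +kernel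
end CB
end Pool.Agent.Lib.MP_6947cd_al
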