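import Pool.Agent.Lib.MP_6947cd_al.L.BoxDataB
import Pool.Agent.Lib.MP_6947cd_al.L.TeD1
import Pool.Agent.Lib.MP_6947cd_al.L.TeD2

/-!
Problem MP_6947cd_al (Chollet).  CASE B, rows `j`: boxes (generated).
-/

set_option autoImplicit false
set_option linter.defProp false
set_option maxRecDepth 20000

namespace Pool.Agent.Lib.MP_6947cd_al
namespace CB

open Ent Ent.Pk Fr Fr.WT CA

/-! box `yB13_21` -/

def P13_21 : BQ := ⟨(nat_lit 8), (nat_lit 8), (nat_lit 0), (nat_lit 4), (nat_lit 4), (nat_lit 960), (nat_lit 980), (nat_lit 90), [(nat_lit 180), (nat_lit 330), (nat_lit 650)], (nat_lit 151056000), (nat_lit 16000000), (nat_lit 16000000000)⟩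
def q13_21 : PC := ⟨(nat_lit 1000), [(nat_lit 90000), (nat_lit 180000), (nat_lit 330000), (nat_lit 650000)], (nat_lit 18446744078004518913000000), (nat_lit 15848944000000), (nat_lit 15848944000000), (nat_lit 10000000)⟩
def r13_21 : List PC := [⟨(nat_lit 1302), [(nat_lit 90490), (nat_lit 180438), (nat_lit 331337), (nat_lit 650669)], (nat_lit 18525271867542866163091167), (nat_lit 16307453468160), (nat_lit 16317264699200), (nat_lit 10054445)⟩, ⟨(nat_lit 2090), [(nat_lit 92052), (nat_lit 181940), (nat_lit 337199), (nat_lit 654008)], (nat_lit 18723463685918080585650163), (nat_lit 17249086067200), (nat_lit 17284497464000), (nat_lit 10228000)⟩]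
def s13_21 : List PB := [⟨(nat_lit 26040), (nat_lit 1447840000000), [(nat_lit 180438), (nat_lit 331337), (nat_lit 650669)], (nat_lit 18525271867542866163091167), (nat_lit 1142207360310784), (nat_lit 1142217171541824), (nat_lit 48320)⟩, ⟨(nat_lit 41800), (nat_lit 1472832000000), [(nat_lit 181940), (nat_lit 337199), (nat_lit 654008)], (nat_lit 18723463685918080585650163), (nat_lit 1143148992909824), (nat_lit 1143184404306624), (nat_lit 174400)⟩]
def n13_21 : List KN := [⟨(nat_lit 650), (nat_lit 330), (nat_lit 14024239), (nat_lit 9088189)⟩, ⟨(nat_lit 330), (nat_lit 180), (nat_lit 21715570), (nat_lit 14024239)⟩, ⟨(nat_lit 180), (nat_lit 90), (nat_lit 33242365), (nat_lit 21715570)⟩]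
def w13_21 : List ℕ := [(nat_lit 48320), (nat_lit 174400)]
def par13_21 : parC yB13_21 P13_21 s13_21 r13_21 q13_21 n13_21 w13_21 = true := by decide +kernel

def p13_21_0 : PF := (PF.cons (PF.cons (PF.cons (PF.leaf (nat_lit 1001688) (nat_lit 3397108) (nat_lit 63711704) (nat_lit 3397108) [(nat_lit 0), (nat_lit 0), (nat_lit 0)]) (PF.cons (PF.leaf (nat_lit 1282987) (nat_lit 506956) (nat_lit 63092388) (nat_lit 3509468) [(nat_lit 506956), (nat_lit 0), (nat_lit 0)]) (PF.cons (PF.leaf (nat_lit 1619974) (nat_lit 560987) (nat_lit 62359922) (nat_lit 3626914) [(nat_lit 560987), (nat_lit 0), (nat_lit 0)]) (PF.cons (PF.leaf (nat_lit 2004177) (nat_lit 610564) (nat_lit 61533890) (nat_lit 3743229) [(nat_lit 610564), (nat_lit 0), (nat_lit 0)]) (PF.cons (PF.leaf (nat_lit 2429179) (nat_lit 656143) (nat_lit 60629694) (nat_lit 3854545) [(nat_lit 656143), (nat_lit 0), (nat_lit 0)]) (PF.cons (PF.leaf (nat_lit 2889318) (nat_lit 697959) (nat_lit 59660571) (nat_lit 3958445) [(nat_lit 697959),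 (nat_lit 0), (nat_lit 0)]) (PF.cons (PF.leaf (nat_lit 3379390) (nat_lit 736164) (nat_lit 58638364) (nat_lit 4053463) [(nat_lit 736164), (nat_lit 0), (nat_lit 0)]) (PF.cons (PF.leaf (nat_lit 3894579) (nat_lit 770885) (nat_lit 57573834) (nat_lit 4138781) [(nat_lit 770885), (nat_lit 0), (nat_lit 0)]) (PF.cons (PF.leaf (nat_lit 4430388) (nat_lit 802249) (nat_lit 56476781) (nat_lit 4214038)
 [(nat_lit 802249), (nat_lit 0), (nat_lit 0)]) (PF.cons (PF.leaf (nat_lit 4982690) (nat_lit 830391) (nat_lit 55356094) (nat_lit 4279197) [(nat_lit 830391), (nat_lit 0), (nat_lit 0)]) (PF.cons (PF.leaf (nat_lit 5547666) (nat_lit 855458) (nat_lit 54219776) (nat_lit 4334454) [(nat_lit 855458), (nat_lit 0), (nat_lit 0)]) (PF.cons (PF.leaf (nat_lit 6121865) (nat_lit 877607) (nat_lit 53074967) (nat_lit 4380167) [(nat_lit 877607), (nat_lit 0), (nat_lit 0)]) (PF.cons (PF.leaf (nat_lit 6702207) (nat_lit 897003) (nat_lit 51927967) (nat_lit 4416805) [(nat_lit 897003), (nat_lit 0), (nat_lit 0)]) (PF.cons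 (PF.leaf (nat_lit 7285906) (nat_lit 913816) (nat_lit 50784280) (nat_lit 4444911) [(nat_lit 913816), (nat_lit 0), (nat_lit 0)]) (PF.cons (PF.leaf (nat_lit 7870538) (nat_lit 928220) (nat_lit 49648653) (nat_lit 4465070) [(nat_lit 928220), (nat_lit 0), (nat_lit 0)]) (PF.cons (PF.leaf (nat_lit 8453971) (nat_lit 940386) (nat_lit 48525133) (nat_lit 4477886) [(nat_lit 940386), (nat_lit 0), (nat_lit 0)]) (PF.cons (PF.leaf (nat_lit 9034362) (nat_lit 950482) (nat_lit 47417119) (nat_lit 4483968) [(nat_lit 950482), (nat_lit 0), (nat_lit 0)]) (PF.cons (PF.leaf (nat_lit 9610160) (nat_lit 958674) (nat_lit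
 46327426) (nat_lit 4483914) [(nat_lit 958674), (nat_lit 0), (nat_lit 0)]) (PF.cons PF.nil (PF.cons PF.nil (PF.cons PF.nil (PF.cons PF.nil PF.nil)))))))))))))))))))))) (PF.cons (PF.cons (PF.leaf (nat_lit 1918571) (nat_lit 2315041) (nat_lit 61024026) (nat_lit 3769744) [(nat_lit 0), (nat_lit 2315041), (nat_lit 0)]) (PF.cons (PF.leaf (nat_lit 2292764) (nat_lit 638316) (nat_lit 60204790) (nat_lit 3866595) [(nat_lit 638316), (nat_lit 2399110), (nat_lit 0)]) (PF.cons (PF.leaf (nat_lit 2708867) (nat_lit 681106) (nat_lit 59306387) (nat_lit 3960236) [(nat_lit 681106), (nat_lit 2479975), (nat_lit 0)]) (PF.cons (PF.leaf (nat_lit 3159886) (nat_lit 720083) (nat_lit 58344803) (nat_lit 4047980) [(nat_lit 720083), (nat_lit 2555779), (nat_lit 0)]) (PF.cons (PF.leaf (nat_lit 3640174) (nat_lit 755499) (nat_lit 57333122) (nat_lit 4128213) [(nat_lit 755499), (nat_lit 2625479), (nat_lit 0)]) (PF.cons (PF.leaf (nat_lit 4144718) (nat_lit 787537) (nat_lit 56282573) (nat_lit 4200025) [(nat_lit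 787537), (nat_lit 2688526), (nat_lit 0)]) (PF.cons (PF.leaf (nat_lit 4669030) (nat_lit 816356) (nat_lit 55203000) (nat_lit 4262978) [(nat_lit 816356), (nat_lit 2744697), (nat_lit 0)]) (PF.cons (PF.leaf (nat_lit
 5209028) (nat_lit 842108) (nat_lit 54103093) (nat_lit 4316970) [(nat_lit 842108), (nat_lit 2793985), (nat_lit 0)]) (PF.cons (PF.leaf (nat_lit 5761051) (nat_lit 864952) (nat_lit 52990521) (nat_lit 4362133) [(nat_lit 864952), (nat_lit 2836535), (nat_lit 0)]) (PF.cons (PF.leaf (nat_lit 6321771) (nat_lit 885048) (nat_lit 51872019) (nat_lit 4398761) [(nat_lit 885048), (nat_lit 2872596), (nat_lit 0)]) (PF.cons (PF.leaf (nat_lit 6888257) (nat_lit 902560) (nat_lit 50753462) (nat_lit 4427258) [(nat_lit 902560), (nat_lit 2902484), (nat_lit 0)]) (PF.cons (PF.leaf (nat_lit 7457869) (nat_lit 917656) (nat_lit 49639928) (nat_lit 4448104) [(nat_lit 917656), (nat_lit 2926561), (nat_lit 0)]) (PF.cons (PF.leaf (nat_lit 8028333) (nat_lit 930501) (nat_lit 48535760) (nat_lit 4461817)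 [(nat_lit 930501), (nat_lit 2945217), (nat_lit 0)]) (PF.cons (PF.leaf (nat_lit 8597608) (nat_lit 941261) (nat_lit 47444627) (nat_lit 4468941) [(nat_lit 941261), (nat_lit 2958849), (nat_lit 0)]) (PF.cons (PF.leaf (nat_lit 9163985) (nat_lit 950095) (nat_lit 46369594) (nat_lit 4470021) [(nat_lit 950095), (nat_lit 2967858), (nat_lit 0)]) (PF.cons (PF.leaf (nat_lit 9725998) (nat_lit 957160) (nat_lit 45313174) (nat_lit 4465594)
 [(nat_lit 957160), (nat_lit 2972638), (nat_lit 0)]) (PF.cons PF.nil (PF.cons PF.nil (PF.cons PF.nil (PF.cons PF.nil PF.nil)))))))))))))))))))) (PF.cons (PF.cons (PF.leaf (nat_lit 2987206) (nat_lit 2550403) (nat_lit 57958618) (nat_lit 4049386) [(nat_lit 0), (nat_lit 2550403), (nat_lit 0)]) (PF.cons (PF.leaf (nat_lit 3425489) (nat_lit 738185) (nat_lit 57017332) (nat_lit 4122514) [(nat_lit 738185), (nat_lit 2615390), (nat_lit 0)]) (PF.cons (PF.leaf (nat_lit 3893639) (nat_lit 771306) (nat_lit 56026019) (nat_lit 4189463) [(nat_lit 771306), (nat_lit 2675358),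 (nat_lit 0)]) (PF.cons (PF.leaf (nat_lit 4385954) (nat_lit 801073) (nat_lit 54997205) (nat_lit 4249185) [(nat_lit 801073), (nat_lit 2729600), (nat_lit 0)]) (PF.cons (PF.leaf (nat_lit 4897717) (nat_lit 827701) (nat_lit 53941263) (nat_lit 4301155) [(nat_lit 827701), (nat_lit 2777794), (nat_lit 0)]) (PF.cons (PF.leaf (nat_lit 5424797) (nat_lit 851377) (nat_lit 52867004) (nat_lit 4345198) [(nat_lit 851377), (nat_lit 2819861), (nat_lit 0)]) (PF.cons (PF.leaf (nat_lit 5963551) (nat_lit 872276) (nat_lit 51781992) (nat_lit 4381384) [(nat_lit 872276), (nat_lit 2855889), (nat_lit 0)]) (PF.cons (PF.leaf (nat_lit 6510729) (nat_lit 890568)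
 (nat_lit 50692738) (nat_lit 4409944) [(nat_lit 890568), (nat_lit 2886076), (nat_lit 0)]) (PF.cons (PF.leaf (nat_lit 7063481) (nat_lit 906421) (nat_lit 49604830) (nat_lit 4431226) [(nat_lit 906421), (nat_lit 2910693), (nat_lit 0)]) (PF.cons (PF.leaf (nat_lit 7619285) (nat_lit 920000) (nat_lit 48523039) (nat_lit 4445647) [(nat_lit 920000), (nat_lit 2930059), (nat_lit 0)]) (PF.cons (PF.leaf (nat_lit 8175946) (nat_lit 931470) (nat_lit 47451402) (nat_lit 4453669) [(nat_lit 931470), (nat_lit 2944520), (nat_lit 0)]) (PF.cons (PF.leaf (nat_lit 8731539) (nat_lit 940987) (nat_lit 46393302) (nat_lit 4455777) [(nat_lit 940987), (nat_lit 2954433), (nat_lit 0)]) (PF.cons (PF.leaf (nat_lit 9284436) (nat_lit 948707) (nat_lit 45351537) (nat_lit 4452459) [(nat_lit 948707), (nat_lit 2960161), (nat_lit 0)]) (PF.cons (PF.leaf (nat_lit 9833226) (nat_lit 954777) (nat_lit 44328387) (nat_lit 4444200) [(nat_lit 954777), (nat_lit 2962058), (nat_lit 0)]) (PF.cons PF.nil (PF.cons PF.nil (PF.cons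 PF.nil (PF.cons PF.nil PF.nil)))))))))))))))))) (PF.cons (PF.cons (PF.leaf (nat_lit 4142188) (nat_lit 2716834) (nat_lit 54719580) (nat_lit 4238729) [(nat_lit 0), (nat_lit 2716834), (nat_lit 0)]) (PF.cons (PF.leaf
 (nat_lit 4620195) (nat_lit 811698) (nat_lit 53720162) (nat_lit 4287604) [(nat_lit 811698), (nat_lit 2763115), (nat_lit 0)]) (PF.cons (PF.leaf (nat_lit 5118159) (nat_lit 836488) (nat_lit 52693682) (nat_lit 4329762) [(nat_lit 836488), (nat_lit 2804130), (nat_lit 0)]) (PF.cons (PF.leaf (nat_lit 5631548) (nat_lit 858391) (nat_lit 51649534) (nat_lit 4364944) [(nat_lit 858391), (nat_lit 2839720), (nat_lit 0)]) (PF.cons (PF.leaf (nat_lit 6156609) (nat_lit 877610) (nat_lit 50595480) (nat_lit 4393153) [(nat_lit 877610), (nat_lit 2869912), (nat_lit 0)]) (PF.cons (PF.leaf (nat_lit 6690090) (nat_lit 894334) (nat_lit 49538015) (nat_lit 4414561) [(nat_lit 894334), (nat_lit 2894854), (nat_lit 0)]) (PF.cons (PF.leaf (nat_lit 7229157) (nat_lit 908738) (nat_lit 48482603) (nat_lit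 4429457) [(nat_lit 908738), (nat_lit 2914773), (nat_lit 0)]) (PF.cons (PF.leaf (nat_lit 7771362) (nat_lit 920990) (nat_lit 47433830) (nat_lit 4438205) [(nat_lit 920990), (nat_lit 2929947), (nat_lit 0)]) (PF.cons (PF.leaf (nat_lit 8314543) (nat_lit 931252) (nat_lit 46395532) (nat_lit 4441213) [(nat_lit 931252), (nat_lit 2940681), (nat_lit 0)]) (PF.cons (PF.leaf (nat_lit 8856867) (nat_lit 939680) (nat_lit 45370885) (nat_lit
 4438910) [(nat_lit 939680), (nat_lit 2947298), (nat_lit 0)]) (PF.cons (PF.leaf (nat_lit 9396740) (nat_lit 946421) (nat_lit 44362496) (nat_lit 4431737) [(nat_lit 946421), (nat_lit 2950122), (nat_lit 0)]) (PF.cons (PF.leaf (nat_lit 9932800) (nat_lit 951617) (nat_lit 43372468) (nat_lit 4420129) [(nat_lit 951617), (nat_lit 2949475), (nat_lit 0)]) (PF.cons (PF.leaf (nat_lit 10463916) (nat_lit 955401) (nat_lit 42402468) (nat_lit 4404508) [(nat_lit 955401), (nat_lit 2945670), (nat_lit 0)]) (PF.cons PF.nil (PF.cons PF.nil (PF.cons PF.nil PF.nil))))))))))))))))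 (PF.cons (PF.cons (PF.leaf (nat_lit 5332327) (nat_lit 2824431) (nat_lit 51461249) (nat_lit 4349837) [(nat_lit 0), (nat_lit 2824431), (nat_lit 0)]) (PF.cons (PF.leaf (nat_lit 5830903) (nat_lit 863302) (nat_lit 50451539) (nat_lit 4377137) [(nat_lit 863302), (nat_lit 2854208), (nat_lit 0)]) (PF.cons (PF.leaf (nat_lit 6341703) (nat_lit 881105) (nat_lit 49431609) (nat_lit 4398271) [(nat_lit 881105), (nat_lit 2879180), (nat_lit 0)]) (PF.cons (PF.leaf (nat_lit 6861219) (nat_lit 896489) (nat_lit 48408220) (nat_lit 4413351) [(nat_lit 896489), (nat_lit 2899443), (nat_lit 0)]) (PF.cons (PF.leaf (nat_lit 7386565) (nat_lit 909644) (nat_lit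
 47386899) (nat_lit 4422612) [(nat_lit 909644), (nat_lit 2915180), (nat_lit 0)]) (PF.cons (PF.leaf (nat_lit 7915281) (nat_lit 920746) (nat_lit 46372194) (nat_lit 4426364) [(nat_lit 920746), (nat_lit 2926630), (nat_lit 0)]) (PF.cons (PF.leaf (nat_lit 8445235) (nat_lit 929959) (nat_lit 45367843) (nat_lit 4424965) [(nat_lit 929959), (nat_lit 2934062), (nat_lit 0)]) (PF.cons (PF.leaf (nat_lit 8974610) (nat_lit 937436) (nat_lit 44376907) (nat_lit 4418798) [(nat_lit 937436), (nat_lit 2937762), (nat_lit 0)]) (PF.cons (PF.leaf (nat_lit 9501848) (nat_lit 943323) (nat_lit 43401866) (nat_lit 4408257) [(nat_lit 943323), (nat_lit 2938024), (nat_lit 0)]) (PF.cons (PF.leaf (nat_lit 10025637) (nat_lit 947757) (nat_lit 42444707) (nat_lit 4393732) [(nat_lit 947757), (nat_lit 2935137), (nat_lit 0)]) (PF.cons (PF.leaf (nat_lit 10544849) (nat_lit 950867) (nat_lit 41506990) (nat_lit 4375605) [(nat_lit 950867), (nat_lit 2929386), (nat_lit 0)]) (PF.cons PF.nil (PF.cons PF.nil (PF.cons PF.nil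 PF.nil)))))))))))))) (PF.cons (PF.cons (PF.leaf (nat_lit 6520476) (nat_lit 2884199) (nat_lit 48290349) (nat_lit 4397464) [(nat_lit 0), (nat_lit 2884199), (nat_lit 0)]) (PF.cons (PF.leaf (nat_lit 7025480) (nat_lit
 897145) (nat_lit 47303223) (nat_lit 4406965) [(nat_lit 897145), (nat_lit 2900295), (nat_lit 0)]) (PF.cons (PF.leaf (nat_lit 7536935) (nat_lit 909247) (nat_lit 46317455) (nat_lit 4411268) [(nat_lit 909247), (nat_lit 2912318), (nat_lit 0)]) (PF.cons (PF.leaf (nat_lit 8052183) (nat_lit 919369) (nat_lit 45337727) (nat_lit 4410635) [(nat_lit 919369), (nat_lit 2920467), (nat_lit 0)]) (PF.cons (PF.leaf (nat_lit 8569062) (nat_lit 927683) (nat_lit 44367805) (nat_lit 4405380) [(nat_lit 927683), (nat_lit 2924978), (nat_lit 0)]) (PF.cons (PF.leaf (nat_lit 9085744) (nat_lit 934342) (nat_lit 43410724) (nat_lit 4395842) [(nat_lit 934342), (nat_lit 2926106), (nat_lit 0)]) (PF.cons (PF.leaf (nat_lit 9600685) (nat_lit 939493) (nat_lit 42468913) (nat_lit 4382371) [(nat_lit 939493),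 (nat_lit 2924113), (nat_lit 0)]) (PF.cons (PF.leaf (nat_lit 10112567) (nat_lit 943269) (nat_lit 41544299) (nat_lit 4365320) [(nat_lit 943269), (nat_lit 2919261), (nat_lit 0)]) (PF.cons (PF.leaf (nat_lit 10620291) (nat_lit 945794) (nat_lit 40638379) (nat_lit 4345033) [(nat_lit 945794), (nat_lit 2911809), (nat_lit 0)]) (PF.cons PF.nil (PF.cons PF.nil (PF.cons PF.nil PF.nil)))))))))))) (PF.cons (PF.cons (PF.leaf (nat_lit
 7681641) (nat_lit 2906541) (nat_lit 45273635) (nat_lit 4395931) [(nat_lit 0), (nat_lit 2906541), (nat_lit 0)]) (PF.cons (PF.leaf (nat_lit 8183203) (nat_lit 916944) (nat_lit 44329749) (nat_lit 4391471) [(nat_lit 916944), (nat_lit 2911774), (nat_lit 0)]) (PF.cons (PF.leaf (nat_lit 8687058) (nat_lit 924502) (nat_lit 43394678) (nat_lit 4382858) [(nat_lit 924502), (nat_lit 2913711), (nat_lit 0)]) (PF.cons (PF.leaf (nat_lit 9191219) (nat_lit 930470) (nat_lit 42471540) (nat_lit 4370393) [(nat_lit 930470), (nat_lit 2912577), (nat_lit 0)]) (PF.cons (PF.leaf (nat_lit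 9694099) (nat_lit 934995) (nat_lit 41562792) (nat_lit 4354389) [(nat_lit 934995), (nat_lit 2908608), (nat_lit 0)]) (PF.cons (PF.leaf (nat_lit 10194381) (nat_lit 938210) (nat_lit 40670359) (nat_lit 4335164) [(nat_lit 938210), (nat_lit 2902039), (nat_lit 0)]) (PF.cons (PF.leaf (nat_lit 10690944) (nat_lit 940237) (nat_lit 39795725) (nat_lit 4313027) [(nat_lit 940237), (nat_lit 2893106), (nat_lit 0)]) (PF.cons (PF.leaf (nat_lit 11182865) (nat_lit 941189) (nat_lit 38940013) (nat_lit 4288279) [(nat_lit 941189), (nat_lit 2882032), (nat_lit 0)]) (PF.cons PF.nil (PF.cons PF.nil PF.nil)))))))))) (PF.cons (PF.cons (PF.leaf (nat_lit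
 8800344) (nat_lit 2900506) (nat_lit 42447523) (nat_lit 4357746) [(nat_lit 0), (nat_lit 2900506), (nat_lit 0)]) (PF.cons (PF.leaf (nat_lit 9291939) (nat_lit 925879) (nat_lit 41558415) (nat_lit 4342759) [(nat_lit 925879), (nat_lit 2897394), (nat_lit 0)]) (PF.cons (PF.leaf (nat_lit 9782920) (nat_lit 929884) (nat_lit 40682554) (nat_lit 4324582) [(nat_lit 929884), (nat_lit 2891700), (nat_lit 0)]) (PF.cons (PF.leaf (nat_lit 10271821) (nat_lit 932630) (nat_lit 39821933) (nat_lit 4303500) [(nat_lit 932630), (nat_lit 2883640), (nat_lit 0)]) (PF.cons (PF.leaf (nat_lit 10757505) (nat_lit 934240) (nat_lit 38978071) (nat_lit 4279795) [(nat_lit 934240), (nat_lit 2873426), (nat_lit 0)]) (PF.cons (PF.leaf (nat_lit 11239021) (nat_lit 934825) (nat_lit 38152112) (nat_lit 4253739) [(nat_lit 934825), (nat_lit 2861262), (nat_lit 0)]) (PF.cons PF.nil (PF.cons PF.nil PF.nil)))))))) (PF.cons (PF.cons (PF.leaf (nat_lit 9868061) (nat_lit 2873559) (nat_lit 39827153) (nat_lit 4293184) [(nat_lit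 0), (nat_lit 2873559), (nat_lit 0)]) (PF.cons (PF.leaf (nat_lit 10345632) (nat_lit 926571) (nat_lit 38998000) (nat_lit 4270536) [(nat_lit 926571), (nat_lit 2864213), (nat_lit 0)]) (PF.cons (PF.leaf (nat_lit 10820629)
 (nat_lit 927841) (nat_lit 38184419) (nat_lit 4245517) [(nat_lit 927841), (nat_lit 2852898), (nat_lit 0)]) (PF.cons (PF.leaf (nat_lit 11291975) (nat_lit 928126) (nat_lit 37387615) (nat_lit 4218378) [(nat_lit 928126), (nat_lit 2839804), (nat_lit 0)]) (PF.cons PF.nil (PF.cons PF.nil PF.nil)))))) (PF.cons (PF.cons (PF.leaf (nat_lit 10881050) (nat_lit 2831636) (nat_lit 37413729) (nat_lit 4210350) [(nat_lit 0), (nat_lit 2831636), (nat_lit 0)]) (PF.cons (PF.leaf (nat_lit 11342293) (nat_lit 921120) (nat_lit 36645524) (nat_lit 4182332) [(nat_lit 921120), (nat_lit 2817759), (nat_lit 0)]) (PF.cons (PF.leaf (nat_lit 11799692) (nat_lit 920314) (nat_lit 35893809) (nat_lit 4152611) [(nat_lit 920314), (nat_lit 2802418), (nat_lit 0)]) (PF.cons PF.nil PF.nil)))) (PF.cons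 (PF.cons (PF.leaf (nat_lit 11838702) (nat_lit 2779339) (nat_lit 35199954) (nat_lit 4115460) [(nat_lit 0), (nat_lit 2779339), (nat_lit 0)]) (PF.cons PF.nil PF.nil)) (PF.cons PF.nil (PF.cons PF.nil (PF.cons PF.nil (PF.cons PF.nil PF.nil))))))))))))))) (PF.cons (PF.cons (PF.cons (PF.leaf (nat_lit 2845193) (nat_lit 4010871) (nat_lit 56648370) (nat_lit 4010871) [(nat_lit 0), (nat_lit 0), (nat_lit 6449570)]) (PF.cons (PF.leaf (nat_lit
 3232326) (nat_lit 698134) (nat_lit 55825277) (nat_lit 4076273) [(nat_lit 698134), (nat_lit 0), (nat_lit 6509127)]) (PF.cons (PF.leaf (nat_lit 3656150) (nat_lit 735133) (nat_lit 54936706) (nat_lit 4137929) [(nat_lit 735133), (nat_lit 0), (nat_lit 6563908)]) (PF.cons (PF.leaf (nat_lit 4109339) (nat_lit 767872) (nat_lit 53999177) (nat_lit 4194111) [(nat_lit 767872), (nat_lit 0), (nat_lit 6611907)]) (PF.cons (PF.leaf (nat_lit 4586247) (nat_lit 796889) (nat_lit 53025444) (nat_lit 4243858) [(nat_lit 796889), (nat_lit 0), (nat_lit 6651951)]) (PF.cons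 (PF.leaf (nat_lit 5082158) (nat_lit 822566) (nat_lit 52025854) (nat_lit 4286692) [(nat_lit 822566), (nat_lit 0), (nat_lit 6683433)]) (PF.cons (PF.leaf (nat_lit 5593005) (nat_lit 845195) (nat_lit 51009033) (nat_lit 4322459) [(nat_lit 845195), (nat_lit 0), (nat_lit 6706144)]) (PF.cons (PF.leaf (nat_lit 6115255) (nat_lit 865024) (nat_lit 49982265) (nat_lit 4351223) [(nat_lit 865024), (nat_lit 0), (nat_lit 6720150)]) (PF.cons (PF.leaf (nat_lit 6645787) (nat_lit 882270) (nat_lit 48951735) (nat_lit 4373194) [(nat_lit 882270), (nat_lit 0), (nat_lit 6725717)]) (PF.cons (PF.leaf (nat_lit 7181878) (nat_lit 897132) (nat_lit 47922694) (nat_lit 4388685)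
 [(nat_lit 897132), (nat_lit 0), (nat_lit 6723242)]) (PF.cons (PF.leaf (nat_lit 7721115) (nat_lit 909794) (nat_lit 46899584) (nat_lit 4398067) [(nat_lit 909794), (nat_lit 0), (nat_lit 6713214)]) (PF.cons (PF.leaf (nat_lit 8261441) (nat_lit 920431) (nat_lit 45886136) (nat_lit 4401755) [(nat_lit 920431), (nat_lit 0), (nat_lit 6696171)]) (PF.cons (PF.leaf (nat_lit 8801018) (nat_lit 929207) (nat_lit 44885461) (nat_lit 4400178) [(nat_lit 929207), (nat_lit 0), (nat_lit 6672683)]) (PF.cons (PF.leaf (nat_lit 9338287) (nat_lit 936276) (nat_lit 43900117) (nat_lit 4393773) [(nat_lit 936276), (nat_lit 0), (nat_lit 6643325)]) (PF.cons (PF.leaf (nat_lit 9871906) (nat_lit 941785) (nat_lit 42932183) (nat_lit 4382969) [(nat_lit 941785), (nat_lit 0), (nat_lit 6608665)]) (PF.cons (PF.leaf (nat_lit 10400777) (nat_lit 945870) (nat_lit 41983317) (nat_lit 4368185) [(nat_lit 945870), (nat_lit 0), (nat_lit 6569258)]) (PF.cons PF.nil (PF.cons PF.nil (PF.cons PF.nil (PF.cons PF.nil PF.nil))))))))))))))))))))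 (PF.cons (PF.cons (PF.leaf (nat_lit 3906383) (nat_lit 2666751) (nat_lit 53652554) (nat_lit 4185750) [(nat_lit 0), (nat_lit 2666751), (nat_lit 6603756)]) (PF.cons (PF.leaf (nat_lit 4343982) (nat_lit
 777769) (nat_lit 52747676) (nat_lit 4231533) [(nat_lit 777769), (nat_lit 2712495), (nat_lit 6639338)]) (PF.cons (PF.leaf (nat_lit 4806662) (nat_lit 805221) (nat_lit 51804825) (nat_lit 4271897) [(nat_lit 805221), (nat_lit 2753639), (nat_lit 6668007)]) (PF.cons (PF.leaf (nat_lit 5288927) (nat_lit 829319) (nat_lit 50835667) (nat_lit 4306255) [(nat_lit 829319), (nat_lit 2789817), (nat_lit 6689112)]) (PF.cons (PF.leaf (nat_lit 5786418) (nat_lit 850415) (nat_lit 49849434) (nat_lit 4334377) [(nat_lit 850415), (nat_lit 2820928), (nat_lit 6702411)]) (PF.cons (PF.leaf (nat_lit 6295457) (nat_lit 868786) (nat_lit 48853646) (nat_lit 4356264) [(nat_lit 868786), (nat_lit 2847032), (nat_lit 6707936)]) (PF.cons (PF.leaf (nat_lit 6812881) (nat_lit 884667) (nat_lit 47854525) (nat_lit 4372076)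 [(nat_lit 884667), (nat_lit 2868292), (nat_lit 6705911)]) (PF.cons (PF.leaf (nat_lit 7335978) (nat_lit 898266) (nat_lit 46857248) (nat_lit 4382072) [(nat_lit 898266), (nat_lit 2884936), (nat_lit 6696687)]) (PF.cons (PF.leaf (nat_lit 7862356) (nat_lit 909771) (nat_lit 45866130) (nat_lit 4386577) [(nat_lit 909771), (nat_lit 2897230), (nat_lit 6680702)]) (PF.cons (PF.leaf (nat_lit 8389988) (nat_lit 919354)
 (nat_lit 44884752) (nat_lit 4385958) [(nat_lit 919354), (nat_lit 2905466), (nat_lit 6658442)]) (PF.cons (PF.leaf (nat_lit 8917095) (nat_lit 927178) (nat_lit 43916066) (nat_lit 4380598) [(nat_lit 927178), (nat_lit 2909942), (nat_lit 6630419)]) (PF.cons (PF.leaf (nat_lit 9442153) (nat_lit 933392) (nat_lit 42962484) (nat_lit 4370890) [(nat_lit 933392), (nat_lit 2910960), (nat_lit 6597154)]) (PF.cons (PF.leaf (nat_lit 9963894) (nat_lit 938138) (nat_lit 42025949) (nat_lit 4357222) [(nat_lit 938138), (nat_lit 2908815), (nat_lit 6559163)]) (PF.cons (PF.leaf (nat_lit 10481173)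 (nat_lit 941546) (nat_lit 41107995) (nat_lit 4339971) [(nat_lit 941546), (nat_lit 2903795), (nat_lit 6516945)]) (PF.cons PF.nil (PF.cons PF.nil (PF.cons PF.nil (PF.cons PF.nil PF.nil)))))))))))))))))) (PF.cons (PF.cons (PF.leaf (nat_lit 5023558) (nat_lit 2774331) (nat_lit 50595310) (nat_lit 4291708) [(nat_lit 0), (nat_lit 2774331), (nat_lit 6673131)]) (PF.cons (PF.leaf (nat_lit 5490475) (nat_lit 833876) (nat_lit 49661746) (nat_lit 4318502) [(nat_lit 833876), (nat_lit 2804781), (nat_lit 6685123)]) (PF.cons (PF.leaf (nat_lit 5973638) (nat_lit 853735) (nat_lit 48709792) (nat_lit 4339827) [(nat_lit 853735), (nat_lit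
 2830769), (nat_lit 6690182)]) (PF.cons (PF.leaf (nat_lit 6468901) (nat_lit 870896) (nat_lit 47747628) (nat_lit 4355619) [(nat_lit 870896), (nat_lit 2852286), (nat_lit 6688301)]) (PF.cons (PF.leaf (nat_lit 6972944) (nat_lit 885625) (nat_lit 46781773) (nat_lit 4365983) [(nat_lit 885625), (nat_lit 2869443), (nat_lit 6679665)]) (PF.cons (PF.leaf (nat_lit 7482963) (nat_lit 898145) (nat_lit 45817515) (nat_lit 4371131) [(nat_lit 898145), (nat_lit 2882427), (nat_lit 6664582)]) (PF.cons (PF.leaf (nat_lit 7996556) (nat_lit 908653) (nat_lit 44859168) (nat_lit 4371343) [(nat_lit 908653), (nat_lit 2891466), (nat_lit 6643442)]) (PF.cons (PF.leaf (nat_lit 8511688) (nat_lit 917326) (nat_lit 43910261) (nat_lit 4366942) [(nat_lit 917326), (nat_lit 2896819), (nat_lit 6616684)]) (PF.cons (PF.leaf (nat_lit 9026606) (nat_lit 924324) (nat_lit 42973669) (nat_lit 4358270) [(nat_lit 924324), (nat_lit 2898753), (nat_lit 6584770)]) (PF.cons (PF.leaf (nat_lit 9539808) (nat_lit 929796) (nat_lit 42051714)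 (nat_lit 4345680) [(nat_lit 929796), (nat_lit 2897540), (nat_lit 6548171)]) (PF.cons (PF.leaf (nat_lit 10049996) (nat_lit 933878) (nat_lit 41146252) (nat_lit 4329521) [(nat_lit 933878), (nat_lit 2893449),
 (nat_lit 6507356)]) (PF.cons (PF.leaf (nat_lit 10556140) (nat_lit 936698) (nat_lit 40258740) (nat_lit 4310136) [(nat_lit 936698), (nat_lit 2886740), (nat_lit 6462776)]) (PF.cons PF.nil (PF.cons PF.nil (PF.cons PF.nil (PF.cons PF.nil PF.nil)))))))))))))))) (PF.cons (PF.cons (PF.leaf (nat_lit 6156464) (nat_lit 2836436) (nat_lit 47589664) (nat_lit 4339488) [(nat_lit 0), (nat_lit 2836436), (nat_lit 6670349)]) (PF.cons (PF.leaf (nat_lit 6637015) (nat_lit 871445) (nat_lit 46663840) (nat_lit 4349897) [(nat_lit 871445), (nat_lit 2853855), (nat_lit 6662061)]) (PF.cons (PF.leaf (nat_lit 7127217) (nat_lit 885235) (nat_lit 45733081) (nat_lit 4355463) [(nat_lit 885235), (nat_lit 2867360), (nat_lit 6647716)]) (PF.cons (PF.leaf (nat_lit 7623964) (nat_lit 896858) (nat_lit 44803021)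 (nat_lit 4356351) [(nat_lit 896858), (nat_lit 2877092), (nat_lit 6627587)]) (PF.cons (PF.leaf (nat_lit 8124758) (nat_lit 906527) (nat_lit 43878138) (nat_lit 4352800) [(nat_lit 906527), (nat_lit 2883247), (nat_lit 6602022)]) (PF.cons (PF.leaf (nat_lit 8627506) (nat_lit 914425) (nat_lit 42962022) (nat_lit 4345092) [(nat_lit 914425), (nat_lit 2886051), (nat_lit 6571418)]) (PF.cons (PF.leaf (nat_lit 9130428) (nat_lit
 920717) (nat_lit 42057552) (nat_lit 4333533) [(nat_lit 920717), (nat_lit 2885743), (nat_lit 6536194)]) (PF.cons (PF.leaf (nat_lit 9632011) (nat_lit 925551) (nat_lit 41167028) (nat_lit 4318440) [(nat_lit 925551), (nat_lit 2882568), (nat_lit 6496778)]) (PF.cons (PF.leaf (nat_lit 10131010) (nat_lit 929063) (nat_lit 40292270) (nat_lit 4300128) [(nat_lit 929063), (nat_lit 2876770), (nat_lit 6453595)]) (PF.cons (PF.leaf (nat_lit 10626322) (nat_lit 931377) (nat_lit 39434696) (nat_lit 4278908) [(nat_lit 931377), (nat_lit 2868585), (nat_lit 6407056)]) (PF.cons (PF.leaf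 (nat_lit 11117050) (nat_lit 932605) (nat_lit 38595389) (nat_lit 4255077) [(nat_lit 932605), (nat_lit 2858243), (nat_lit 6357557)]) (PF.cons PF.nil (PF.cons PF.nil (PF.cons PF.nil PF.nil)))))))))))))) (PF.cons (PF.cons (PF.leaf (nat_lit 7277159) (nat_lit 2862378) (nat_lit 44707611) (nat_lit 4340991) [(nat_lit 0), (nat_lit 2862378), (nat_lit 6610694)]) (PF.cons (PF.leaf (nat_lit 7760145) (nat_lit 894473) (nat_lit 43812976) (nat_lit 4338157) [(nat_lit 894473), (nat_lit 2869233), (nat_lit 6586270)]) (PF.cons (PF.leaf (nat_lit 8247984) (nat_lit 903458) (nat_lit 42922248) (nat_lit 4331326) [(nat_lit 903458), (nat_lit 2872842),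
 (nat_lit 6556951)]) (PF.cons (PF.leaf (nat_lit 8738346) (nat_lit 910714) (nat_lit 42039220) (nat_lit 4320744) [(nat_lit 910714), (nat_lit 2873401), (nat_lit 6523096)]) (PF.cons (PF.leaf (nat_lit 9229390) (nat_lit 916416) (nat_lit 41166875) (nat_lit 4306685) [(nat_lit 916416), (nat_lit 2871123), (nat_lit 6485091)]) (PF.cons (PF.leaf (nat_lit 9719577) (nat_lit 920713) (nat_lit 40307562) (nat_lit 4289433) [(nat_lit 920713), (nat_lit 2866230), (nat_lit 6443326)]) (PF.cons (PF.leaf (nat_lit 10207600) (nat_lit 923743) (nat_lit 39463120) (nat_lit 4269274) [(nat_lit 923743), (nat_lit 2858942), (nat_lit 6398187)]) (PF.cons (PF.leaf (nat_lit 10692376) (nat_lit 925628) (nat_lit 38634970) (nat_lit 4246488) [(nat_lit 925628), (nat_lit 2849475), (nat_lit 6350053)]) (PF.cons (PF.leaf (nat_lit 11173006) (nat_lit 926479) (nat_lit 37824190) (nat_lit 4221347) [(nat_lit 926479), (nat_lit 2838038), (nat_lit 6299283)]) (PF.cons PF.nil (PF.cons PF.nil (PF.cons PF.nil PF.nil)))))))))))) (PF.cons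 (PF.cons (PF.leaf (nat_lit 8367405) (nat_lit 2860485) (nat_lit 41990469) (nat_lit 4307250) [(nat_lit 0), (nat_lit 2860485), (nat_lit 6508663)]) (PF.cons (PF.leaf (nat_lit 8845155) (nat_lit 906245) (nat_lit
 41140873) (nat_lit 4294193) [(nat_lit 906245), (nat_lit 2859078), (nat_lit 6472108)]) (PF.cons (PF.leaf (nat_lit 9324341) (nat_lit 911469) (nat_lit 40300679) (nat_lit 4277986) [(nat_lit 911469), (nat_lit 2855080), (nat_lit 6431806)]) (PF.cons (PF.leaf (nat_lit 9803225) (nat_lit 915328) (nat_lit 39472370) (nat_lit 4258888) [(nat_lit 915328), (nat_lit 2848690), (nat_lit 6388117)]) (PF.cons (PF.leaf (nat_lit 10280462) (nat_lit 917959) (nat_lit 38657865) (nat_lit 4237158) [(nat_lit 917959), (nat_lit 2840109), (nat_lit 6341399)]) (PF.cons (PF.leaf (nat_lit 10754938) (nat_lit 919489) (nat_lit 37858634) (nat_lit 4213051) [(nat_lit 919489), (nat_lit 2829536), (nat_lit 6291998)]) (PF.cons (PF.leaf (nat_lit 11225709) (nat_lit 920027) (nat_lit 37075785) (nat_lit 4186816) [(nat_lit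 920027), (nat_lit 2817160), (nat_lit 6240244)]) (PF.cons PF.nil (PF.cons PF.nil (PF.cons PF.nil PF.nil)))))))))) (PF.cons (PF.cons (PF.leaf (nat_lit 9416214) (nat_lit 2837773) (nat_lit 39457881) (nat_lit 4247660) [(nat_lit 0), (nat_lit 2837773), (nat_lit 6376632)]) (PF.cons (PF.leaf (nat_lit 9883707) (nat_lit 909429) (nat_lit 38660421) (nat_lit 4227003) [(nat_lit 909429), (nat_lit 2830090), (nat_lit 6331412)])
 (PF.cons (PF.leaf (nat_lit 10350257) (nat_lit 911746) (nat_lit 37875513) (nat_lit 4203956) [(nat_lit 911746), (nat_lit 2820398), (nat_lit 6283457)]) (PF.cons (PF.leaf (nat_lit 10814575) (nat_lit 912991) (nat_lit 37104728) (nat_lit 4178752) [(nat_lit 912991), (nat_lit 2808878), (nat_lit 6233088)]) (PF.cons (PF.leaf (nat_lit 11275690) (nat_lit 913278) (nat_lit 36349243) (nat_lit 4151619) [(nat_lit 913278), (nat_lit 2795704), (nat_lit 6180610)]) (PF.cons (PF.leaf (nat_lit 11732792) (nat_lit 912705) (nat_lit 35609919) (nat_lit 4122773) [(nat_lit 912705), (nat_lit 2781045),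 (nat_lit 6126315)]) (PF.cons PF.nil (PF.cons PF.nil PF.nil)))))))) (PF.cons (PF.cons (PF.leaf (nat_lit 10417741) (nat_lit 2799918) (nat_lit 37115014) (nat_lit 4169817) [(nat_lit 0), (nat_lit 2799918), (nat_lit 6224553)]) (PF.cons (PF.leaf (nat_lit 10871880) (nat_lit 906158) (nat_lit 36372258) (nat_lit 4143720) [(nat_lit 906158), (nat_lit 2787597), (nat_lit 6173491)]) (PF.cons (PF.leaf (nat_lit 11323465) (nat_lit 906253) (nat_lit 35643615) (nat_lit 4115868) [(nat_lit 906253), (nat_lit 2773756), (nat_lit 6120529)]) (PF.cons (PF.leaf (nat_lit 11771536) (nat_lit 905513) (nat_lit 34930031) (nat_lit 4086461) [(nat_lit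
 905513), (nat_lit 2758548), (nat_lit 6065938)]) (PF.cons PF.nil (PF.cons PF.nil PF.nil)))))) (PF.cons (PF.cons (PF.leaf (nat_lit 11369654) (nat_lit 2751386) (nat_lit 34957933) (nat_lit 4079662) [(nat_lit 0), (nat_lit 2751386), (nat_lit 6060121)]) (PF.cons (PF.leaf (nat_lit 11808694) (nat_lit 898113) (nat_lit 34269551) (nat_lit 4049838) [(nat_lit 898113), (nat_lit 2735735), (nat_lit 6005424)]) (PF.cons PF.nil (PF.cons PF.nil PF.nil)))) (PF.cons (PF.cons (PF.leaf (nat_lit 12271908) (nat_lit 2695621) (nat_lit 32977380) (nat_lit 3981729) [(nat_lit 0), (nat_lit 2695621), (nat_lit 5889113)]) (PF.cons PF.nil PF.nil)) (PF.cons PF.nil (PF.cons PF.nil (PF.cons PF.nil PF.nil))))))))))))) (PF.cons (PF.cons (PF.cons (PF.leaf (nat_lit 4750001) (nat_lit 4231352) (nat_lit 49678331) (nat_lit 4231352) [(nat_lit 0), (nat_lit 0), (nat_lit 6599564)]) (PF.cons (PF.leaf (nat_lit 5180885) (nat_lit 799656) (nat_lit 48830951) (nat_lit 4257729) [(nat_lit 799656), (nat_lit 0), (nat_lit 6610238)])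 (PF.cons (PF.leaf (nat_lit 5633194) (nat_lit 822596) (nat_lit 47954238) (nat_lit 4279391) [(nat_lit 822596), (nat_lit 0), (nat_lit 6614995)]) (PF.cons (PF.leaf (nat_lit 6101709) (nat_lit 842276) (nat_lit 47058742)
 (nat_lit 4296055) [(nat_lit 842276), (nat_lit 0), (nat_lit 6613592)]) (PF.cons (PF.leaf (nat_lit 6582428) (nat_lit 859131) (nat_lit 46152544) (nat_lit 4307677) [(nat_lit 859131), (nat_lit 0), (nat_lit 6606032)]) (PF.cons (PF.leaf (nat_lit 7072061) (nat_lit 873490) (nat_lit 45242027) (nat_lit 4314362) [(nat_lit 873490), (nat_lit 0), (nat_lit 6592485)]) (PF.cons (PF.leaf (nat_lit 7567840) (nat_lit 885620) (nat_lit 44332323) (nat_lit 4316312) [(nat_lit 885620), (nat_lit 0), (nat_lit 6573226)]) (PF.cons (PF.leaf (nat_lit 8067442) (nat_lit 895745) (nat_lit 43427595) (nat_lit 4313786) [(nat_lit 895745), (nat_lit 0), (nat_lit 6548605)]) (PF.cons (PF.leaf (nat_lit 8568865) (nat_lit 904060) (nat_lit 42531224) (nat_lit 4307081) [(nat_lit 904060), (nat_lit 0), (nat_lit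 6519011)]) (PF.cons (PF.leaf (nat_lit 9070404) (nat_lit 910736) (nat_lit 41645958) (nat_lit 4296510) [(nat_lit 910736), (nat_lit 0), (nat_lit 6484857)]) (PF.cons (PF.leaf (nat_lit 9570615) (nat_lit 915928) (nat_lit 40774008) (nat_lit 4282395) [(nat_lit 915928), (nat_lit 0), (nat_lit 6446561)]) (PF.cons (PF.leaf (nat_lit 10068261) (nat_lit 919776) (nat_lit 39917142) (nat_lit 4265053) [(nat_lit 919776), (nat_lit 0), (nat_lit
 6404537)]) (PF.cons (PF.leaf (nat_lit 10562287) (nat_lit 922407) (nat_lit 39076746) (nat_lit 4244794) [(nat_lit 922407), (nat_lit 0), (nat_lit 6359189)]) (PF.cons PF.nil (PF.cons PF.nil (PF.cons PF.nil PF.nil)))))))))))))))) (PF.cons (PF.cons (PF.leaf (nat_lit 5822086) (nat_lit 2785961) (nat_lit 46853178) (nat_lit 4279680) [(nat_lit 0), (nat_lit 2785961), (nat_lit 6594996)]) (PF.cons (PF.leaf (nat_lit 6275071) (nat_lit 842611) (nat_lit 45994835) (nat_lit 4291109) [(nat_lit 842611), (nat_lit 2805007), (nat_lit 6587624)]) (PF.cons (PF.leaf (nat_lit 6741589)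 (nat_lit 858680) (nat_lit 45123717) (nat_lit 4298059) [(nat_lit 858680), (nat_lit 2820266), (nat_lit 6574704)]) (PF.cons (PF.leaf (nat_lit 7217849) (nat_lit 872247) (nat_lit 44246902) (nat_lit 4300586) [(nat_lit 872247), (nat_lit 2831820), (nat_lit 6556380)]) (PF.cons (PF.leaf (nat_lit 7700880) (nat_lit 883611) (nat_lit 43369886) (nat_lit 4298849) [(nat_lit 883611), (nat_lit 2839825), (nat_lit 6532902)]) (PF.cons (PF.leaf (nat_lit 8188237) (nat_lit 893014) (nat_lit 42497012) (nat_lit 4293071) [(nat_lit 893014), (nat_lit 2844481), (nat_lit 6504587)]) (PF.cons (PF.leaf (nat_lit 8677858) (nat_lit 900659) (nat_lit 41631749) (nat_lit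
 4283513) [(nat_lit 900659), (nat_lit 2846008), (nat_lit 6471791)]) (PF.cons (PF.leaf (nat_lit 9168017) (nat_lit 906723) (nat_lit 40776867) (nat_lit 4270458) [(nat_lit 906723), (nat_lit 2844639), (nat_lit 6434890)]) (PF.cons (PF.leaf (nat_lit 9657231) (nat_lit 911362) (nat_lit 39934577) (nat_lit 4254193) [(nat_lit 911362), (nat_lit 2840606), (nat_lit 6394268)]) (PF.cons (PF.leaf (nat_lit 10144262) (nat_lit 914714) (nat_lit 39106628) (nat_lit 4235008) [(nat_lit 914714), (nat_lit 2834139), (nat_lit 6350304)]) (PF.cons (PF.leaf (nat_lit 10628052) (nat_lit 916905) (nat_lit 38294384) (nat_lit 4213184) [(nat_lit 916905), (nat_lit 2825461), (nat_lit 6303366)]) (PF.cons (PF.leaf (nat_lit 11107733) (nat_lit 918048) (nat_lit 37498891) (nat_lit 4188991) [(nat_lit 918048), (nat_lit 2814784), (nat_lit 6253806)]) (PF.cons PF.nil (PF.cons PF.nil PF.nil)))))))))))))) (PF.cons (PF.cons (PF.leaf (nat_lit 6897983) (nat_lit 2816183) (nat_lit 44115246) (nat_lit 4284505) [(nat_lit 0), (nat_lit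 2816183), (nat_lit 6538346)]) (PF.cons (PF.leaf (nat_lit 7360029) (nat_lit 869825) (nat_lit 43273890) (nat_lit 4283399) [(nat_lit 869825), (nat_lit 2824869), (nat_lit 6515979)]) (PF.cons (PF.leaf (nat_lit 7829913)
 (nat_lit 880600) (nat_lit 42430619) (nat_lit 4278449) [(nat_lit 880600), (nat_lit 2830336), (nat_lit 6488935)]) (PF.cons (PF.leaf (nat_lit 8304844) (nat_lit 889428) (nat_lit 41590170) (nat_lit 4269843) [(nat_lit 889428), (nat_lit 2832750), (nat_lit 6457506)]) (PF.cons (PF.leaf (nat_lit 8782636) (nat_lit 896528) (nat_lit 40756226) (nat_lit 4257813) [(nat_lit 896528), (nat_lit 2832305), (nat_lit 6422024)]) (PF.cons (PF.leaf (nat_lit 9261470) (nat_lit 902087) (nat_lit 39931679) (nat_lit 4242610) [(nat_lit 902087), (nat_lit 2829208), (nat_lit 6382834)]) (PF.cons (PF.leaf (nat_lit 9739838) (nat_lit 906264) (nat_lit 39118802) (nat_lit 4224497) [(nat_lit 906264), (nat_lit 2823671), (nat_lit 6340291)]) (PF.cons (PF.leaf (nat_lit 10216450) (nat_lit 909200) (nat_lit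 38319377) (nat_lit 4203734) [(nat_lit 909200), (nat_lit 2815903), (nat_lit 6294743)]) (PF.cons (PF.leaf (nat_lit 10690266) (nat_lit 911021) (nat_lit 37534782) (nat_lit 4180581) [(nat_lit 911021), (nat_lit 2806108), (nat_lit 6246528)]) (PF.cons (PF.leaf (nat_lit 11160369) (nat_lit 911839) (nat_lit 36766069) (nat_lit 4155283) [(nat_lit 911839), (nat_lit 2794482), (nat_lit 6195970)]) (PF.cons PF.nil (PF.cons PF.nil
 PF.nil)))))))))))) (PF.cons (PF.cons (PF.leaf (nat_lit 7956207) (nat_lit 2818870) (nat_lit 41513333) (nat_lit 4255421) [(nat_lit 0), (nat_lit 2818870), (nat_lit 6441722)]) (PF.cons (PF.leaf (nat_lit 8418240) (nat_lit 885024) (nat_lit 40706002) (nat_lit 4244381) [(nat_lit 885024), (nat_lit 2819318), (nat_lit 6407725)]) (PF.cons (PF.leaf (nat_lit 8884036) (nat_lit 891706) (nat_lit 39903659) (nat_lit 4230227) [(nat_lit 891706), (nat_lit 2817147), (nat_lit 6370034)]) (PF.cons (PF.leaf (nat_lit 9351534) (nat_lit 896865) (nat_lit 39109437) (nat_lit 4213187) [(nat_lit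 896865), (nat_lit 2812544), (nat_lit 6328977)]) (PF.cons (PF.leaf (nat_lit 9819117) (nat_lit 900672) (nat_lit 38325754) (nat_lit 4193499) [(nat_lit 900672), (nat_lit 2805700), (nat_lit 6284883)]) (PF.cons (PF.leaf (nat_lit 10285470) (nat_lit 903271) (nat_lit 37554479) (nat_lit 4171404) [(nat_lit 903271), (nat_lit 2796806), (nat_lit 6238076)]) (PF.cons (PF.leaf (nat_lit 10749471) (nat_lit 904789) (nat_lit 36797049) (nat_lit 4147135) [(nat_lit 904789), (nat_lit 2786050), (nat_lit 6188870)]) (PF.cons (PF.leaf (nat_lit 11210202) (nat_lit 905339) (nat_lit 36054552) (nat_lit 4120920) [(nat_lit 905339), (nat_lit 2773610), (nat_lit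
 6137563)]) (PF.cons PF.nil (PF.cons PF.nil PF.nil)))))))))) (PF.cons (PF.cons (PF.leaf (nat_lit 8983086) (nat_lit 2800692) (nat_lit 39072890) (nat_lit 4200967) [(nat_lit 0), (nat_lit 2800692), (nat_lit 6316093)]) (PF.cons (PF.leaf (nat_lit 9438980) (nat_lit 891086) (nat_lit 38309078) (nat_lit 4182378) [(nat_lit 891086), (nat_lit 2794786), (nat_lit 6273562)]) (PF.cons (PF.leaf (nat_lit 9895762) (nat_lit 894613) (nat_lit 37554432) (nat_lit 4161370) [(nat_lit 894613), (nat_lit 2786815), (nat_lit 6228260)]) (PF.cons (PF.leaf (nat_lit 10351894) (nat_lit 896952) (nat_lit 36810981) (nat_lit 4138163) [(nat_lit 896952), (nat_lit 2776955), (nat_lit 6180494)]) (PF.cons (PF.leaf (nat_lit 10806205) (nat_lit 898233) (nat_lit 36080268) (nat_lit 4112976) [(nat_lit 898233), (nat_lit 2765379), (nat_lit 6130556)]) (PF.cons (PF.leaf (nat_lit 11257723) (nat_lit 898573) (nat_lit 35363455) (nat_lit 4086017) [(nat_lit 898573), (nat_lit 2752253), (nat_lit 6078728)]) (PF.cons (PF.leaf (nat_lit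 11705653) (nat_lit 898072) (nat_lit 34661400) (nat_lit 4057488) [(nat_lit 898072), (nat_lit 2737735), (nat_lit 6025272)]) (PF.cons PF.nil PF.nil)))))))) (PF.cons (PF.cons (PF.leaf (nat_lit 9970572) (nat_lit 2767121)
 (nat_lit 36803751) (nat_lit 4128250) [(nat_lit 0), (nat_lit 2767121), (nat_lit 6170601)]) (PF.cons (PF.leaf (nat_lit 10416347) (nat_lit 890262) (nat_lit 36087876) (nat_lit 4104140) [(nat_lit 890262), (nat_lit 2756445), (nat_lit 6122154)]) (PF.cons (PF.leaf (nat_lit 10861006) (nat_lit 891373) (nat_lit 35383493) (nat_lit 4078215) [(nat_lit 891373), (nat_lit 2744180), (nat_lit 6071727)]) (PF.cons (PF.leaf (nat_lit 11303411) (nat_lit 891558) (nat_lit 34691881) (nat_lit 4050671) [(nat_lit 891558), (nat_lit 2730482), (nat_lit 6019586)]) (PF.cons (PF.leaf (nat_lit 11742706) (nat_lit 890921) (nat_lit 34013983) (nat_lit 4021693) [(nat_lit 890921), (nat_lit 2715498), (nat_lit 5965978)]) (PF.cons PF.nil PF.nil)))))) (PF.cons (PF.cons (PF.leaf (nat_lit 10914535) (nat_lit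 2722521) (nat_lit 34705743) (nat_lit 4042946) [(nat_lit 0), (nat_lit 2722521), (nat_lit 6012497)]) (PF.cons (PF.leaf (nat_lit 11347739) (nat_lit 884307) (nat_lit 34038916) (nat_lit 4014962) [(nat_lit 884307), (nat_lit 2708358), (nat_lit 5960237)]) (PF.cons (PF.leaf (nat_lit 11778473) (nat_lit 883582) (nat_lit 33384682) (nat_lit 3985664) [(nat_lit 883582), (nat_lit 2693002), (nat_lit 5906644)]) (PF.cons PF.nil PF.nil))))
 (PF.cons (PF.cons (PF.leaf (nat_lit 11813486) (nat_lit 2670293) (nat_lit 32772624) (nat_lit 3949461) [(nat_lit 0), (nat_lit 2670293), (nat_lit 5847337)]) (PF.cons PF.nil PF.nil)) (PF.cons PF.nil (PF.cons PF.nil (PF.cons PF.nil PF.nil))))))))))) (PF.cons (PF.cons (PF.cons (PF.leaf (nat_lit 6547403) (nat_lit 4226101) (nat_lit 43490106) (nat_lit 4226101) [(nat_lit 0), (nat_lit 0), (nat_lit 6464201)]) (PF.cons (PF.leaf (nat_lit 6985310) (nat_lit 842170) (nat_lit 42707664) (nat_lit 4226866) [(nat_lit 842170), (nat_lit 0), (nat_lit 6444037)]) (PF.cons (PF.leaf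 (nat_lit 7434747) (nat_lit 855310) (nat_lit 41916077) (nat_lit 4223936) [(nat_lit 855310), (nat_lit 0), (nat_lit 6419392)]) (PF.cons (PF.leaf (nat_lit 7892213) (nat_lit 866135) (nat_lit 41121475) (nat_lit 4217437) [(nat_lit 866135), (nat_lit 0), (nat_lit 6390498)]) (PF.cons (PF.leaf (nat_lit 8355046) (nat_lit 874961) (nat_lit 40328518) (nat_lit 4207553) [(nat_lit 874961), (nat_lit 0), (nat_lit 6357631)]) (PF.cons (PF.leaf (nat_lit 8821075) (nat_lit 882036) (nat_lit 39540825) (nat_lit 4194506) [(nat_lit 882036), (nat_lit 0), (nat_lit 6321100)]) (PF.cons (PF.leaf (nat_lit 9288499) (nat_lit 887563) (nat_lit 38761229) (nat_lit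
 4178532) [(nat_lit 887563), (nat_lit 0), (nat_lit 6281223)]) (PF.cons (PF.leaf (nat_lit 9755816) (nat_lit 891714) (nat_lit 37991957) (nat_lit 4159877) [(nat_lit 891714), (nat_lit 0), (nat_lit 6238325)]) (PF.cons (PF.leaf (nat_lit 10221781) (nat_lit 894637) (nat_lit 37234754) (nat_lit 4138785) [(nat_lit 894637), (nat_lit 0), (nat_lit 6192723)]) (PF.cons (PF.leaf (nat_lit 10685334) (nat_lit 896462) (nat_lit 36490977) (nat_lit 4115494) [(nat_lit 896462), (nat_lit 0), (nat_lit 6144725)]) (PF.cons (PF.leaf (nat_lit 11145590) (nat_lit 897304) (nat_lit 35761663) (nat_lit 4090232) [(nat_lit 897304), (nat_lit 0), (nat_lit 6094625)]) (PF.cons PF.nil (PF.cons PF.nil (PF.cons PF.nil PF.nil)))))))))))))) (PF.cons (PF.cons (PF.leaf (nat_lit 7569018) (nat_lit 2775268) (nat_lit 41012036) (nat_lit 4201984) [(nat_lit 0), (nat_lit 2775268), (nat_lit 6373174)]) (PF.cons (PF.leaf (nat_lit 8012955) (nat_lit 861710) (nat_lit 40250656) (nat_lit 4193082) [(nat_lit 861710), (nat_lit 2777782),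 (nat_lit 6341860)]) (PF.cons (PF.leaf (nat_lit 8463425) (nat_lit 870203) (nat_lit 39489022) (nat_lit 4181094) [(nat_lit 870203), (nat_lit 2777624), (nat_lit 6306888)]) (PF.cons (PF.leaf (nat_lit 8917897) (nat_lit
 876937) (nat_lit 38731155) (nat_lit 4166215) [(nat_lit 876937), (nat_lit 2774966), (nat_lit 6268554)]) (PF.cons (PF.leaf (nat_lit 9374429) (nat_lit 882132) (nat_lit 37980131) (nat_lit 4148661) [(nat_lit 882132), (nat_lit 2769996), (nat_lit 6227164)]) (PF.cons (PF.leaf (nat_lit 9831421) (nat_lit 885971) (nat_lit 37238327) (nat_lit 4128658) [(nat_lit 885971), (nat_lit 2762901), (nat_lit 6183022)]) (PF.cons (PF.leaf (nat_lit 10287560) (nat_lit 888608) (nat_lit 36507583) (nat_lit 4106429) [(nat_lit 888608), (nat_lit 2753867), (nat_lit 6136426)]) (PF.cons (PF.leaf (nat_lit 10741741) (nat_lit 890176) (nat_lit 35789317) (nat_lit 4082194) [(nat_lit 890176), (nat_lit 2743075), (nat_lit 6087663)]) (PF.cons (PF.leaf (nat_lit 11193048) (nat_lit 890789) (nat_lit 35084610)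 (nat_lit 4056163) [(nat_lit 890789), (nat_lit 2730697), (nat_lit 6037007)]) (PF.cons PF.nil (PF.cons PF.nil (PF.cons PF.nil PF.nil)))))))))))) (PF.cons (PF.cons (PF.leaf (nat_lit 8570330) (nat_lit 2762047) (nat_lit 38669481) (nat_lit 4152902) [(nat_lit 0), (nat_lit 2762047), (nat_lit 6254111)]) (PF.cons (PF.leaf (nat_lit 9012774) (nat_lit 871217) (nat_lit 37941844) (nat_lit 4136482) [(nat_lit 871217), (nat_lit 2758070),
 (nat_lit 6214376)]) (PF.cons (PF.leaf (nat_lit 9458226) (nat_lit 876185) (nat_lit 37219469) (nat_lit 4117605) [(nat_lit 876185), (nat_lit 2751953), (nat_lit 6171819)]) (PF.cons (PF.leaf (nat_lit 9904835) (nat_lit 879799) (nat_lit 36504985) (nat_lit 4096479) [(nat_lit 879799), (nat_lit 2743871), (nat_lit 6126735)]) (PF.cons (PF.leaf (nat_lit 10351169) (nat_lit 882223) (nat_lit 35800395) (nat_lit 4073311) [(nat_lit 882223), (nat_lit 2733993), (nat_lit 6079407)]) (PF.cons (PF.leaf (nat_lit 10796063) (nat_lit 883595) (nat_lit 35107225) (nat_lit 4048306) [(nat_lit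 883595), (nat_lit 2722488), (nat_lit 6030108)]) (PF.cons (PF.leaf (nat_lit 11238552) (nat_lit 884033) (nat_lit 34426631) (nat_lit 4021658) [(nat_lit 884033), (nat_lit 2709515), (nat_lit 5979096)]) (PF.cons PF.nil (PF.cons PF.nil (PF.cons PF.nil PF.nil)))))))))) (PF.cons (PF.cons (PF.leaf (nat_lit 9540789) (nat_lit 2733057) (nat_lit 36478090) (nat_lit 4085497) [(nat_lit 0), (nat_lit 2733057), (nat_lit 6115350)]) (PF.cons (PF.leaf (nat_lit 9976716) (nat_lit 873211) (nat_lit 35790893) (nat_lit 4063459) [(nat_lit 873211), (nat_lit 2724138), (nat_lit 6069611)]) (PF.cons (PF.leaf (nat_lit 10413182) (nat_lit 875496) (nat_lit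
 35112233) (nat_lit 4039537) [(nat_lit 875496), (nat_lit 2713550), (nat_lit 6021799)]) (PF.cons (PF.leaf (nat_lit 10848804) (nat_lit 876734) (nat_lit 34443804) (nat_lit 4013923) [(nat_lit 876734), (nat_lit 2701449), (nat_lit 5972177)]) (PF.cons (PF.leaf (nat_lit 11282544) (nat_lit 877050) (nat_lit 33786880) (nat_lit 3986800) [(nat_lit 877050), (nat_lit 2687984), (nat_lit 5920992)]) (PF.cons (PF.leaf (nat_lit 11713548) (nat_lit 876550) (nat_lit 33142407) (nat_lit 3958342) [(nat_lit 876550), (nat_lit 2673297), (nat_lit 5868472)]) (PF.cons PF.nil (PF.cons PF.nil PF.nil)))))))) (PF.cons (PF.cons (PF.leaf (nat_lit 10474307) (nat_lit 2692604) (nat_lit 34442078) (nat_lit 4005196) [(nat_lit 0), (nat_lit 2692604), (nat_lit 5963705)]) (PF.cons (PF.leaf (nat_lit 10900471) (nat_lit 869602) (nat_lit 33798124) (nat_lit 3979124) [(nat_lit 869602), (nat_lit 2680018), (nat_lit 5913963)]) (PF.cons (PF.leaf (nat_lit 11325458) (nat_lit 869849) (nat_lit 33164494) (nat_lit 3951656) [(nat_lit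 869849), (nat_lit 2666157), (nat_lit 5862776)]) (PF.cons (PF.leaf (nat_lit 11748228) (nat_lit 869286) (nat_lit 32542254) (nat_lit 3922958) [(nat_lit 869286), (nat_lit 2651158), (nat_lit 5810369)]) (PF.cons PF.nil
 (PF.cons PF.nil PF.nil)))))) (PF.cons (PF.cons (PF.leaf (nat_lit 11367863) (nat_lit 2644079) (nat_lit 32558586) (nat_lit 3916286) [(nat_lit 0), (nat_lit 2644079), (nat_lit 5804514)]) (PF.cons (PF.leaf (nat_lit 11782269) (nat_lit 861854) (nat_lit 31958200) (nat_lit 3887454) [(nat_lit 861854), (nat_lit 2628846), (nat_lit 5752357)]) (PF.cons PF.nil (PF.cons PF.nil PF.nil)))) (PF.cons (PF.cons (PF.leaf (nat_lit 12220487) (nat_lit 2590105) (nat_lit 30820606) (nat_lit 3822074) [(nat_lit 0), (nat_lit 2590105), (nat_lit 5641833)]) (PF.cons PF.nil PF.nil)) (PF.cons PF.nil (PF.cons PF.nil (PF.cons PF.nil PF.nil)))))))))) (PF.cons (PF.cons (PF.cons (PF.leaf (nat_lit 8180140) (nat_lit 4103196) (nat_lit 38243999) (nat_lit 4103196) [(nat_lit 0), (nat_lit 0), (nat_lit 6190404)])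 (PF.cons (PF.leaf (nat_lit 8606786) (nat_lit 849341) (nat_lit 37555907) (nat_lit 4089084) [(nat_lit 849341), (nat_lit 0), (nat_lit 6153619)]) (PF.cons (PF.leaf (nat_lit 9039019) (nat_lit 856093) (nat_lit 36868416) (nat_lit 4072462) [(nat_lit 856093), (nat_lit 0), (nat_lit 6113936)]) (PF.cons (PF.leaf (nat_lit 9474509) (nat_lit 861245) (nat_lit 36184974) (nat_lit 4053526) [(nat_lit 861245), (nat_lit 0), (nat_lit
 6071643)]) (PF.cons (PF.leaf (nat_lit 9911511) (nat_lit 865017) (nat_lit 35508189) (nat_lit 4032475) [(nat_lit 865017), (nat_lit 0), (nat_lit 6027019)]) (PF.cons (PF.leaf (nat_lit 10348593) (nat_lit 867584) (nat_lit 34840050) (nat_lit 4009510) [(nat_lit 867584), (nat_lit 0), (nat_lit 5980332)]) (PF.cons (PF.leaf (nat_lit 10784604) (nat_lit 869095) (nat_lit 34182078) (nat_lit 3984822) [(nat_lit 869095), (nat_lit 0), (nat_lit 5931834)]) (PF.cons (PF.leaf (nat_lit 11218573) (nat_lit 869672) (nat_lit 33535432) (nat_lit 3958597) [(nat_lit 869672), (nat_lit 0), (nat_lit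 5881768)]) (PF.cons PF.nil (PF.cons PF.nil PF.nil)))))))))) (PF.cons (PF.cons (PF.leaf (nat_lit 9129981) (nat_lit 2697471) (nat_lit 36135607) (nat_lit 4041361) [(nat_lit 0), (nat_lit 2697471), (nat_lit 6058593)]) (PF.cons (PF.leaf (nat_lit 9554267) (nat_lit 854695) (nat_lit 35479401) (nat_lit 4021507) [(nat_lit 854695), (nat_lit 2690463), (nat_lit 6015686)]) (PF.cons (PF.leaf (nat_lit 9981036) (nat_lit 858378) (nat_lit 34828304) (nat_lit 3999687) [(nat_lit 858378), (nat_lit 2681684), (nat_lit 5970594)]) (PF.cons (PF.leaf (nat_lit 10408592) (nat_lit 860846) (nat_lit 34184554) (nat_lit 3976090) [(nat_lit 860846), (nat_lit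
 2671295), (nat_lit 5923583)]) (PF.cons (PF.leaf (nat_lit 10835659) (nat_lit 862256) (nat_lit 33549841) (nat_lit 3950900) [(nat_lit 862256), (nat_lit 2659448), (nat_lit 5874899)]) (PF.cons (PF.leaf (nat_lit 11261194) (nat_lit 862738) (nat_lit 32925439) (nat_lit 3924291) [(nat_lit 862738), (nat_lit 2646292), (nat_lit 5824773)]) (PF.cons (PF.leaf (nat_lit 11684349) (nat_lit 862405) (nat_lit 32312303) (nat_lit 3896428) [(nat_lit 862405), (nat_lit 2631963), (nat_lit 5773421)]) (PF.cons PF.nil PF.nil)))))))) (PF.cons (PF.cons (PF.leaf (nat_lit 10050175) (nat_lit 2661458) (nat_lit 34165275) (nat_lit 3966264) [(nat_lit 0), (nat_lit 2661458), (nat_lit 5913589)]) (PF.cons (PF.leaf (nat_lit 10467879) (nat_lit 853789) (nat_lit 33545839) (nat_lit 3942195) [(nat_lit 853789), (nat_lit 2650561), (nat_lit 5866466)]) (PF.cons (PF.leaf (nat_lit 10885902) (nat_lit 855161) (nat_lit 32934152) (nat_lit 3916639) [(nat_lit 855161), (nat_lit 2638296), (nat_lit 5817776)]) (PF.cons (PF.leaf (nat_lit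 11302983) (nat_lit 855601) (nat_lit 32331657) (nat_lit 3889763) [(nat_lit 855601), (nat_lit 2624802), (nat_lit 5767745)]) (PF.cons (PF.leaf (nat_lit 11718190) (nat_lit 855227) (nat_lit 31739426) (nat_lit 3861725)
 [(nat_lit 855227), (nat_lit 2610210), (nat_lit 5716582)]) (PF.cons PF.nil PF.nil)))))) (PF.cons (PF.cons (PF.leaf (nat_lit 10935969) (nat_lit 2616849) (nat_lit 32334087) (nat_lit 3882092) [(nat_lit 0), (nat_lit 2616849), (nat_lit 5760520)]) (PF.cons (PF.leaf (nat_lit 11344371) (nat_lit 848262) (nat_lit 31753249) (nat_lit 3855062) [(nat_lit 848262), (nat_lit 2603101), (nat_lit 5710733)]) (PF.cons (PF.leaf (nat_lit 11751591) (nat_lit 847890) (nat_lit 31181585) (nat_lit 3826946) [(nat_lit 847890), (nat_lit 2588318), (nat_lit 5659886)]) (PF.cons PF.nil PF.nil)))) (PF.cons (PF.cons (PF.leaf (nat_lit 11785067) (nat_lit 2566312) (nat_lit 30637991) (nat_lit 3792121) [(nat_lit 0), (nat_lit 2566312), (nat_lit 5603362)]) (PF.cons (PF.leaf (nat_lit 12182501) (nat_lit 839346)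 (nat_lit 30095672) (nat_lit 3763130) [(nat_lit 839346), (nat_lit 2550536), (nat_lit 5552129)]) PF.nil)) (PF.cons PF.nil (PF.cons PF.nil (PF.cons PF.nil PF.nil)))))))) (PF.cons (PF.cons (PF.cons (PF.leaf (nat_lit 9643682) (nat_lit 3925961) (nat_lit 33873150) (nat_lit 3925961) [(nat_lit 0), (nat_lit 0), (nat_lit 5861940)]) (PF.cons (PF.leaf (nat_lit 10051193) (nat_lit 836576) (nat_lit 33280342) (nat_lit 3904014) [(nat_lit
 836576), (nat_lit 0), (nat_lit 5817575)]) (PF.cons (PF.leaf (nat_lit 10460820) (nat_lit 839288) (nat_lit 32692278) (nat_lit 3880472) [(nat_lit 839288), (nat_lit 0), (nat_lit 5771496)]) (PF.cons (PF.leaf (nat_lit 10870988) (nat_lit 840901) (nat_lit 32110892) (nat_lit 3855510) [(nat_lit 840901), (nat_lit 0), (nat_lit 5723941)]) (PF.cons (PF.leaf (nat_lit 11280540) (nat_lit 841564) (nat_lit 31537631) (nat_lit 3829287) [(nat_lit 841564), (nat_lit 0), (nat_lit 5675127)]) (PF.cons (PF.leaf (nat_lit 11688540) (nat_lit 841402) (nat_lit 30973579) (nat_lit 3801956)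 [(nat_lit 841402), (nat_lit 0), (nat_lit 5625252)]) (PF.cons PF.nil (PF.cons PF.nil PF.nil)))))))) (PF.cons (PF.cons (PF.leaf (nat_lit 10518966) (nat_lit 2588435) (nat_lit 32097623) (nat_lit 3846738) [(nat_lit 0), (nat_lit 2588435), (nat_lit 5715203)]) (PF.cons (PF.leaf (nat_lit 10920012) (nat_lit 833610) (nat_lit 31537835) (nat_lit 3821605) [(nat_lit 833610), (nat_lit 2576285), (nat_lit 5667895)]) (PF.cons (PF.leaf (nat_lit 11321245) (nat_lit 834308) (nat_lit 30984978) (nat_lit 3795282) [(nat_lit 834308), (nat_lit 2562998), (nat_lit 5619387)]) (PF.cons (PF.leaf (nat_lit 11721496) (nat_lit 834168) (nat_lit 30440297) (nat_lit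
 3767918) [(nat_lit 834168), (nat_lit 2548700), (nat_lit 5569878)]) (PF.cons PF.nil (PF.cons PF.nil PF.nil)))))) (PF.cons (PF.cons (PF.leaf (nat_lit 11362316) (nat_lit 2541544) (nat_lit 30445851) (nat_lit 3761176) [(nat_lit 0), (nat_lit 2541544), (nat_lit 5563739)]) (PF.cons (PF.leaf (nat_lit 11754564) (nat_lit 826780) (nat_lit 29920325) (nat_lit 3733864) [(nat_lit 826780), (nat_lit 2527153), (nat_lit 5514707)]) (PF.cons (PF.leaf (nat_lit 12145667) (nat_lit 825967) (nat_lit 29402903) (nat_lit 3705694) [(nat_lit 825967), (nat_lit 2511909), (nat_lit 5464891)]) (PF.cons PF.nil PF.nil)))) (PF.cons (PF.cons (PF.leaf (nat_lit 12171923) (nat_lit 2490291) (nat_lit 28913414) (nat_lit 3671813) [(nat_lit 0), (nat_lit 2490291), (nat_lit 5410542)]) (PF.cons PF.nil PF.nil)) (PF.cons PF.nil (PF.cons PF.nil PF.nil)))))) (PF.cons (PF.cons (PF.cons (PF.leaf (nat_lit 10953352) (nat_lit 3729105) (nat_lit 30242825) (nat_lit 3729105) [(nat_lit 0), (nat_lit 0), (nat_lit 5522813)]) (PF.cons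 (PF.leaf (nat_lit 11339134) (nat_lit 813201) (nat_lit 29735461) (nat_lit 3703567) [(nat_lit 813201), (nat_lit 0), (nat_lit 5476097)]) (PF.cons (PF.leaf (nat_lit 11725032) (nat_lit 813400) (nat_lit 29234241) (nat_lit
 3677064) [(nat_lit 813400), (nat_lit 0), (nat_lit 5428450)]) (PF.cons (PF.leaf (nat_lit 12109947) (nat_lit 812839) (nat_lit 28740255) (nat_lit 3649730) [(nat_lit 812839), (nat_lit 0), (nat_lit 5380051)]) PF.nil)))) (PF.cons (PF.cons (PF.leaf (nat_lit 11758725) (nat_lit 2467753) (nat_lit 28748142) (nat_lit 3643804) [(nat_lit 0), (nat_lit 2467753), (nat_lit 5374852)]) (PF.cons (PF.leaf (nat_lit 12136229) (nat_lit 805509) (nat_lit 28271116) (nat_lit 3616659) [(nat_lit 805509), (nat_lit 2453080), (nat_lit 5327074)]) PF.nil)) (PF.cons PF.nil (PF.cons PF.nil PF.nil)))) (PF.cons (PF.cons (PF.cons (PF.leaf (nat_lit 12129521) (nat_lit 3530751) (nat_lit 27215975) (nat_lit 3530751) [(nat_lit 0), (nat_lit 0), (nat_lit 5194583)]) (PF.cons PF.nil PF.nil)) (PF.cons PF.nil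 PF.nil)) (PF.cons PF.nil (PF.cons PF.nil (PF.cons PF.nil (PF.cons PF.nil PF.nil))))))))))))

def p13_21_0_0 : pfC (piC [(nat_lit 33242365), (nat_lit 21715570), (nat_lit 14024239)] (nat_lit 17602610)) p13_21_0 (nat_lit 3) (nat_lit 0) (nat_lit 1) = true := by decide +kernel
def p13_21_0_1 : pfC (piC [(nat_lit 33242365), (nat_lit 21715570), (nat_lit 14024239)] (nat_lit 17602610)) p13_21_0 (nat_lit 3) (nat_lit 1) (nat_lit 2) = true := by decide +kernel
def p13_21_0_2 : pfC (piC [(nat_lit 33242365), (nat_lit 21715570), (nat_lit 14024239)] (nat_lit 17602610)) p13_21_0 (nat_lit 3) (nat_lit 2) (nat_lit 3) = true := by decide +kernel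
def p13_21_0_3 : pfC (piC [(nat_lit 33242365), (nat_lit 21715570), (nat_lit 14024239)] (nat_lit 17602610)) p13_21_0 (nat_lit 3) (nat_lit 3) (nat_lit 4) = true := by decide +kernel
def p13_21_0_4 : pfC (piC [(nat_lit 33242365), (nat_lit 21715570), (nat_lit 14024239)] (nat_lit 17602610)) p13_21_0 (nat_lit 3) (nat_lit 4) (nat_lit 5) = true := by decide +kernel
def p13_21_0_5 : pfC (piC [(nat_lit 33242365), (nat_lit 21715570), (nat_lit 14024239)] (nat_lit 17602610)) p13_21_0 (nat_lit 3) (nat_lit 5) (nat_lit 6) = true := by decide +kernel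
def p13_21_0_6 : pfC (piC [(nat_lit 33242365), (nat_lit 21715570), (nat_lit 14024239)] (nat_lit 17602610)) p13_21_0 (nat_lit 3) (nat_lit 6) (nat_lit 7) = true := by decide +kernel
def p13_21_0_7 : pfC (piC [(nat_lit 33242365), (nat_lit 21715570), (nat_lit 14024239)] (nat_lit 17602610)) p13_21_0 (nat_lit 3) (nat_lit 7) (nat_lit 8) = true := by decide +kernel
def p13_21_0_8 : pfC (piC [(nat_lit 33242365), (nat_lit 21715570), (nat_lit 14024239)] (nat_lit 17602610)) p13_21_0 (nat_lit 3) (nat_lit 8) (nat_lit 9) = true := by decide +kernel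
def p13_21_0_9 : pfC (piC [(nat_lit 33242365), (nat_lit 21715570), (nat_lit 14024239)] (nat_lit 17602610)) p13_21_0 (nat_lit 3) (nat_lit 9) (nat_lit 10) = true := by decide +kernel
def p13_21_0_10 : pfC (piC [(nat_lit 33242365), (nat_lit 21715570), (nat_lit 14024239)] (nat_lit 17602610)) p13_21_0 (nat_lit 3) (nat_lit 10) (nat_lit 11) = true := by decide +kernel
def p13_21_0_11 : pfC (piC [(nat_lit 33242365), (nat_lit 21715570), (nat_lit 14024239)] (nat_lit 17602610)) p13_21_0 (nat_lit 3) (nat_lit 11) (nat_lit 12) = true := by decide +kernel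
def p13_21_0_12 : pfC (piC [(nat_lit 33242365), (nat_lit 21715570), (nat_lit 14024239)] (nat_lit 17602610)) p13_21_0 (nat_lit 3) (nat_lit 12) (nat_lit 13) = true := by decide +kernel
def p13_21_0_13 : pfC (piC [(nat_lit 33242365), (nat_lit 21715570), (nat_lit 14024239)] (nat_lit 17602610)) p13_21_0 (nat_lit 3) (nat_lit 13) (nat_lit 14) = true := by decide +kernel
def p13_21_0_14 : pfC (piC [(nat_lit 33242365), (nat_lit 21715570), (nat_lit 14024239)] (nat_lit 17602610)) p13_21_0 (nat_lit 3) (nat_lit 14) (nat_lit 15) = true := by decide +kernel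
def p13_21_0_15 : pfC (piC [(nat_lit 33242365), (nat_lit 21715570), (nat_lit 14024239)] (nat_lit 17602610)) p13_21_0 (nat_lit 3) (nat_lit 15) (nat_lit 16) = true := by decide +kernel
def p13_21_0_16 : pfC (piC [(nat_lit 33242365), (nat_lit 21715570), (nat_lit 14024239)] (nat_lit 17602610)) p13_21_0 (nat_lit 3) (nat_lit 16) (nat_lit 17) = true := by decide +kernel
def p13_21_0_17 : pfC (piC [(nat_lit 33242365), (nat_lit 21715570), (nat_lit 14024239)] (nat_lit 17602610)) p13_21_0 (nat_lit 3) (nat_lit 17) (nat_lit 18) = true := by decide +kernel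
def p13_21_0_18 : pfC (piC [(nat_lit 33242365), (nat_lit 21715570), (nat_lit 14024239)] (nat_lit 17602610)) p13_21_0 (nat_lit 3) (nat_lit 18) (nat_lit 19) = true := by decide +kernel
def p13_21_0_19 : pfC (piC [(nat_lit 33242365), (nat_lit 21715570), (nat_lit 14024239)] (nat_lit 17602610)) p13_21_0 (nat_lit 3) (nat_lit 19) (nat_lit 20) = true := by decide +kernel
def p13_21_0_20 : pfC (piC [(nat_lit 33242365), (nat_lit 21715570), (nat_lit 14024239)] (nat_lit 17602610)) p13_21_0 (nat_lit 3) (nat_lit 20) (nat_lit 21) = true := by decide +kernel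
def p13_21_0_21 : pfC (piC [(nat_lit 33242365), (nat_lit 21715570), (nat_lit 14024239)] (nat_lit 17602610)) p13_21_0 (nat_lit 3) (nat_lit 21) (nat_lit 22) = true := by decide +kernel
def p13_21_0_22 : pfC (piC [(nat_lit 33242365), (nat_lit 21715570), (nat_lit 14024239)] (nat_lit 17602610)) p13_21_0 (nat_lit 3) (nat_lit 22) (nat_lit 23) = true := by decide +kernel
def p13_21_0_23 : pfC (piC [(nat_lit 33242365), (nat_lit 21715570), (nat_lit 14024239)] (nat_lit 17602610)) p13_21_0 (nat_lit 3) (nat_lit 23) (nat_lit 24) = true := by decide +kernel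
def p13_21_0_24 : pfC (piC [(nat_lit 33242365), (nat_lit 21715570), (nat_lit 14024239)] (nat_lit 17602610)) p13_21_0 (nat_lit 3) (nat_lit 24) (nat_lit 25) = true := by decide +kernel
def p13_21_0_25 : pfC (piC [(nat_lit 33242365), (nat_lit 21715570), (nat_lit 14024239)] (nat_lit 17602610)) p13_21_0 (nat_lit 3) (nat_lit 25) (nat_lit 26) = true := by decide +kernel
def p13_21_0_26 : pfC (piC [(nat_lit 33242365), (nat_lit 21715570), (nat_lit 14024239)] (nat_lit 17602610)) p13_21_0 (nat_lit 3) (nat_lit 26) (nat_lit 27) = true := by decide +kernel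
def p13_21_0_27 : pfC (piC [(nat_lit 33242365), (nat_lit 21715570), (nat_lit 14024239)] (nat_lit 17602610)) p13_21_0 (nat_lit 3) (nat_lit 27) (nat_lit 28) = true := by decide +kernel
def p13_21_0_28 : pfC (piC [(nat_lit 33242365), (nat_lit 21715570), (nat_lit 14024239)] (nat_lit 17602610)) p13_21_0 (nat_lit 3) (nat_lit 28) (nat_lit 29) = true := by decide +kernel
def p13_21_0_29 : pfC (piC [(nat_lit 33242365), (nat_lit 21715570), (nat_lit 14024239)] (nat_lit 17602610)) p13_21_0 (nat_lit 3) (nat_lit 29) (nat_lit 30) = true := by decide +kernel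
def p13_21_0_30 : pfC (piC [(nat_lit 33242365), (nat_lit 21715570), (nat_lit 14024239)] (nat_lit 17602610)) p13_21_0 (nat_lit 3) (nat_lit 30) (nat_lit 31) = true := by decide +kernel
def p13_21_0_31 : pfC (piC [(nat_lit 33242365), (nat_lit 21715570), (nat_lit 14024239)] (nat_lit 17602610)) p13_21_0 (nat_lit 3) (nat_lit 31) (nat_lit 32) = true := by decide +kernel
def p13_21_0_32 : pfC (piC [(nat_lit 33242365), (nat_lit 21715570), (nat_lit 14024239)] (nat_lit 17602610)) p13_21_0 (nat_lit 3) (nat_lit 32) (nat_lit 33) = true := by decide +kernel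
def p13_21_0_33 : pfC (piC [(nat_lit 33242365), (nat_lit 21715570), (nat_lit 14024239)] (nat_lit 17602610)) p13_21_0 (nat_lit 3) (nat_lit 33) (nat_lit 34) = true := by decide +kernel
def p13_21_0_34 : pfC (piC [(nat_lit 33242365), (nat_lit 21715570), (nat_lit 14024239)] (nat_lit 17602610)) p13_21_0 (nat_lit 3) (nat_lit 34) (nat_lit 35) = true := by decide +kernel
def p13_21_0_35 : pfC (piC [(nat_lit 33242365), (nat_lit 21715570), (nat_lit 14024239)] (nat_lit 17602610)) p13_21_0 (nat_lit 3) (nat_lit 35) (nat_lit 36) = true := by decide +kernel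
def p13_21_0_36 : pfC (piC [(nat_lit 33242365), (nat_lit 21715570), (nat_lit 14024239)] (nat_lit 17602610)) p13_21_0 (nat_lit 3) (nat_lit 36) (nat_lit 37) = true := by decide +kernel
def p13_21_0_37 : pfC (piC [(nat_lit 33242365), (nat_lit 21715570), (nat_lit 14024239)] (nat_lit 17602610)) p13_21_0 (nat_lit 3) (nat_lit 37) (nat_lit 38) = true := by decide +kernel
def p13_21_0_38 : pfC (piC [(nat_lit 33242365), (nat_lit 21715570), (nat_lit 14024239)] (nat_lit 17602610)) p13_21_0 (nat_lit 3) (nat_lit 38) (nat_lit 39) = true := by decide +kernel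
def p13_21_0_39 : pfC (piC [(nat_lit 33242365), (nat_lit 21715570), (nat_lit 14024239)] (nat_lit 17602610)) p13_21_0 (nat_lit 3) (nat_lit 39) (nat_lit 40) = true := by decide +kernel
def p13_21_0_40 : pfC (piC [(nat_lit 33242365), (nat_lit 21715570), (nat_lit 14024239)] (nat_lit 17602610)) p13_21_0 (nat_lit 3) (nat_lit 40) (nat_lit 41) = true := by decide +kernel
def p13_21_0_41 : pfC (piC [(nat_lit 33242365), (nat_lit 21715570), (nat_lit 14024239)] (nat_lit 17602610)) p13_21_0 (nat_lit 3) (nat_lit 41) (nat_lit 42) = true := by decide +kernel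
def p13_21_0_42 : pfC (piC [(nat_lit 33242365), (nat_lit 21715570), (nat_lit 14024239)] (nat_lit 17602610)) p13_21_0 (nat_lit 3) (nat_lit 42) (nat_lit 43) = true := by decide +kernel
def p13_21_0_43 : pfC (piC [(nat_lit 33242365), (nat_lit 21715570), (nat_lit 14024239)] (nat_lit 17602610)) p13_21_0 (nat_lit 3) (nat_lit 43) (nat_lit 44) = true := by decide +kernel
def p13_21_0_44 : pfC (piC [(nat_lit 33242365), (nat_lit 21715570), (nat_lit 14024239)] (nat_lit 17602610)) p13_21_0 (nat_lit 3) (nat_lit 44) (nat_lit 45) = true := by decide +kernel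
def p13_21_0_45 : pfC (piC [(nat_lit 33242365), (nat_lit 21715570), (nat_lit 14024239)] (nat_lit 17602610)) p13_21_0 (nat_lit 3) (nat_lit 45) (nat_lit 46) = true := by decide +kernel
def p13_21_0_46 : pfC (piC [(nat_lit 33242365), (nat_lit 21715570), (nat_lit 14024239)] (nat_lit 17602610)) p13_21_0 (nat_lit 3) (nat_lit 46) (nat_lit 47) = true := by decide +kernel
def p13_21_0_47 : pfC (piC [(nat_lit 33242365), (nat_lit 21715570), (nat_lit 14024239)] (nat_lit 17602610)) p13_21_0 (nat_lit 3) (nat_lit 47) (nat_lit 48) = true := by decide +kernel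
def p13_21_0_48 : pfC (piC [(nat_lit 33242365), (nat_lit 21715570), (nat_lit 14024239)] (nat_lit 17602610)) p13_21_0 (nat_lit 3) (nat_lit 48) (nat_lit 49) = true := by decide +kernel
def p13_21_0_49 : pfC (piC [(nat_lit 33242365), (nat_lit 21715570), (nat_lit 14024239)] (nat_lit 17602610)) p13_21_0 (nat_lit 3) (nat_lit 49) (nat_lit 50) = true := by decide +kernel
def p13_21_0_50 : pfC (piC [(nat_lit 33242365), (nat_lit 21715570), (nat_lit 14024239)] (nat_lit 17602610)) p13_21_0 (nat_lit 3) (nat_lit 50) (nat_lit 51) = true := by decide +kernel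
def p13_21_0_51 : pfC (piC [(nat_lit 33242365), (nat_lit 21715570), (nat_lit 14024239)] (nat_lit 17602610)) p13_21_0 (nat_lit 3) (nat_lit 51) (nat_lit 52) = true := by decide +kernel
def p13_21_0_52 : pfC (piC [(nat_lit 33242365), (nat_lit 21715570), (nat_lit 14024239)] (nat_lit 17602610)) p13_21_0 (nat_lit 3) (nat_lit 52) (nat_lit 53) = true := by decide +kernel
def p13_21_0_53 : pfC (piC [(nat_lit 33242365), (nat_lit 21715570), (nat_lit 14024239)] (nat_lit 17602610)) p13_21_0 (nat_lit 3) (nat_lit 53) (nat_lit 54) = true := by decide +kernel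
def p13_21_0_54 : pfC (piC [(nat_lit 33242365), (nat_lit 21715570), (nat_lit 14024239)] (nat_lit 17602610)) p13_21_0 (nat_lit 3) (nat_lit 54) (nat_lit 55) = true := by decide +kernel
def p13_21_0_55 : pfC (piC [(nat_lit 33242365), (nat_lit 21715570), (nat_lit 14024239)] (nat_lit 17602610)) p13_21_0 (nat_lit 3) (nat_lit 55) (nat_lit 56) = true := by decide +kernel
def p13_21_0_56 : pfC (piC [(nat_lit 33242365), (nat_lit 21715570), (nat_lit 14024239)] (nat_lit 17602610)) p13_21_0 (nat_lit 3) (nat_lit 56) (nat_lit 57) = true := by decide +kernel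
def p13_21_0_57 : pfC (piC [(nat_lit 33242365), (nat_lit 21715570), (nat_lit 14024239)] (nat_lit 17602610)) p13_21_0 (nat_lit 3) (nat_lit 57) (nat_lit 58) = true := by decide +kernel
def p13_21_0_58 : pfC (piC [(nat_lit 33242365), (nat_lit 21715570), (nat_lit 14024239)] (nat_lit 17602610)) p13_21_0 (nat_lit 3) (nat_lit 58) (nat_lit 59) = true := by decide +kernel
def p13_21_0_59 : pfC (piC [(nat_lit 33242365), (nat_lit 21715570), (nat_lit 14024239)] (nat_lit 17602610)) p13_21_0 (nat_lit 3) (nat_lit 59) (nat_lit 60) = true := by decide +kernel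
def p13_21_0_60 : pfC (piC [(nat_lit 33242365), (nat_lit 21715570), (nat_lit 14024239)] (nat_lit 17602610)) p13_21_0 (nat_lit 3) (nat_lit 60) (nat_lit 61) = true := by decide +kernel
def p13_21_0_61 : pfC (piC [(nat_lit 33242365), (nat_lit 21715570), (nat_lit 14024239)] (nat_lit 17602610)) p13_21_0 (nat_lit 3) (nat_lit 61) (nat_lit 62) = true := by decide +kernel
def p13_21_0_62 : pfC (piC [(nat_lit 33242365), (nat_lit 21715570), (nat_lit 14024239)] (nat_lit 17602610)) p13_21_0 (nat_lit 3) (nat_lit 62) (nat_lit 63) = true := by decide +kernel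
def p13_21_0_63 : pfC (piC [(nat_lit 33242365), (nat_lit 21715570), (nat_lit 14024239)] (nat_lit 17602610)) p13_21_0 (nat_lit 3) (nat_lit 63) (nat_lit 64) = true := by decide +kernel
def p13_21_0_64 : pfC (piC [(nat_lit 33242365), (nat_lit 21715570), (nat_lit 14024239)] (nat_lit 17602610)) p13_21_0 (nat_lit 3) (nat_lit 64) (nat_lit 65) = true := by decide +kernel
def p13_21_0_65 : pfC (piC [(nat_lit 33242365), (nat_lit 21715570), (nat_lit 14024239)] (nat_lit 17602610)) p13_21_0 (nat_lit 3) (nat_lit 65) (nat_lit 66) = true := by decide +kernel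
def p13_21_0_66 : pfC (piC [(nat_lit 33242365), (nat_lit 21715570), (nat_lit 14024239)] (nat_lit 17602610)) p13_21_0 (nat_lit 3) (nat_lit 66) (nat_lit 67) = true := by decide +kernel
def p13_21_0_67 : pfC (piC [(nat_lit 33242365), (nat_lit 21715570), (nat_lit 14024239)] (nat_lit 17602610)) p13_21_0 (nat_lit 3) (nat_lit 67) (nat_lit 68) = true := by decide +kernel
def p13_21_0_68 : pfC (piC [(nat_lit 33242365), (nat_lit 21715570), (nat_lit 14024239)] (nat_lit 17602610)) p13_21_0 (nat_lit 3) (nat_lit 68) (nat_lit 69) = true := by decide +kernel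
def p13_21_0_69 : pfC (piC [(nat_lit 33242365), (nat_lit 21715570), (nat_lit 14024239)] (nat_lit 17602610)) p13_21_0 (nat_lit 3) (nat_lit 69) (nat_lit 70) = true := by decide +kernel
def p13_21_0_70 : pfC (piC [(nat_lit 33242365), (nat_lit 21715570), (nat_lit 14024239)] (nat_lit 17602610)) p13_21_0 (nat_lit 3) (nat_lit 70) (nat_lit 71) = true := by decide +kernel
def p13_21_0_71 : pfC (piC [(nat_lit 33242365), (nat_lit 21715570), (nat_lit 14024239)] (nat_lit 17602610)) p13_21_0 (nat_lit 3) (nat_lit 71) (nat_lit 72) = true := by decide +kernel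
def p13_21_0_72 : pfC (piC [(nat_lit 33242365), (nat_lit 21715570), (nat_lit 14024239)] (nat_lit 17602610)) p13_21_0 (nat_lit 3) (nat_lit 72) (nat_lit 73) = true := by decide +kernel
def p13_21_0_73 : pfC (piC [(nat_lit 33242365), (nat_lit 21715570), (nat_lit 14024239)] (nat_lit 17602610)) p13_21_0 (nat_lit 3) (nat_lit 73) (nat_lit 74) = true := by decide +kernel
def p13_21_0_74 : pfC (piC [(nat_lit 33242365), (nat_lit 21715570), (nat_lit 14024239)] (nat_lit 17602610)) p13_21_0 (nat_lit 3) (nat_lit 74) (nat_lit 75) = true := by decide +kernel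
def p13_21_0_75 : pfC (piC [(nat_lit 33242365), (nat_lit 21715570), (nat_lit 14024239)] (nat_lit 17602610)) p13_21_0 (nat_lit 3) (nat_lit 75) (nat_lit 76) = true := by decide +kernel
def p13_21_0_76 : pfC (piC [(nat_lit 33242365), (nat_lit 21715570), (nat_lit 14024239)] (nat_lit 17602610)) p13_21_0 (nat_lit 3) (nat_lit 76) (nat_lit 77) = true := by decide +kernel
def p13_21_0_77 : pfC (piC [(nat_lit 33242365), (nat_lit 21715570), (nat_lit 14024239)] (nat_lit 17602610)) p13_21_0 (nat_lit 3) (nat_lit 77) (nat_lit 78) = true := by decide +kernel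
def p13_21_0_78 : pfC (piC [(nat_lit 33242365), (nat_lit 21715570), (nat_lit 14024239)] (nat_lit 17602610)) p13_21_0 (nat_lit 3) (nat_lit 78) (nat_lit 79) = true := by decide +kernel
def p13_21_0_79 : pfC (piC [(nat_lit 33242365), (nat_lit 21715570), (nat_lit 14024239)] (nat_lit 17602610)) p13_21_0 (nat_lit 3) (nat_lit 79) (nat_lit 80) = true := by decide +kernel
def p13_21_0_80 : pfC (piC [(nat_lit 33242365), (nat_lit 21715570), (nat_lit 14024239)] (nat_lit 17602610)) p13_21_0 (nat_lit 3) (nat_lit 80) (nat_lit 81) = true := by decide +kernel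
def p13_21_0_81 : pfC (piC [(nat_lit 33242365), (nat_lit 21715570), (nat_lit 14024239)] (nat_lit 17602610)) p13_21_0 (nat_lit 3) (nat_lit 81) (nat_lit 82) = true := by decide +kernel
def p13_21_0_82 : pfC (piC [(nat_lit 33242365), (nat_lit 21715570), (nat_lit 14024239)] (nat_lit 17602610)) p13_21_0 (nat_lit 3) (nat_lit 82) (nat_lit 83) = true := by decide +kernel
def p13_21_0_83 : pfC (piC [(nat_lit 33242365), (nat_lit 21715570), (nat_lit 14024239)] (nat_lit 17602610)) p13_21_0 (nat_lit 3) (nat_lit 83) (nat_lit 84) = true := by decide +kernel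
def p13_21_0_84 : pfC (piC [(nat_lit 33242365), (nat_lit 21715570), (nat_lit 14024239)] (nat_lit 17602610)) p13_21_0 (nat_lit 3) (nat_lit 84) (nat_lit 85) = true := by decide +kernel
def p13_21_0_85 : pfC (piC [(nat_lit 33242365), (nat_lit 21715570), (nat_lit 14024239)] (nat_lit 17602610)) p13_21_0 (nat_lit 3) (nat_lit 85) (nat_lit 86) = true := by decide +kernel
def p13_21_0_86 : pfC (piC [(nat_lit 33242365), (nat_lit 21715570), (nat_lit 14024239)] (nat_lit 17602610)) p13_21_0 (nat_lit 3) (nat_lit 86) (nat_lit 87) = true := by decide +kernel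
def p13_21_0_87 : pfC (piC [(nat_lit 33242365), (nat_lit 21715570), (nat_lit 14024239)] (nat_lit 17602610)) p13_21_0 (nat_lit 3) (nat_lit 87) (nat_lit 88) = true := by decide +kernel
def p13_21_0_88 : pfC (piC [(nat_lit 33242365), (nat_lit 21715570), (nat_lit 14024239)] (nat_lit 17602610)) p13_21_0 (nat_lit 3) (nat_lit 88) (nat_lit 89) = true := by decide +kernel
def p13_21_0_89 : pfC (piC [(nat_lit 33242365), (nat_lit 21715570), (nat_lit 14024239)] (nat_lit 17602610)) p13_21_0 (nat_lit 3) (nat_lit 89) (nat_lit 90) = true := by decide +kernel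
def p13_21_0_90 : pfC (piC [(nat_lit 33242365), (nat_lit 21715570), (nat_lit 14024239)] (nat_lit 17602610)) p13_21_0 (nat_lit 3) (nat_lit 90) (nat_lit 91) = true := by decide +kernel
def p13_21_0_91 : pfC (piC [(nat_lit 33242365), (nat_lit 21715570), (nat_lit 14024239)] (nat_lit 17602610)) p13_21_0 (nat_lit 3) (nat_lit 91) (nat_lit 92) = true := by decide +kernel
def p13_21_0_92 : pfC (piC [(nat_lit 33242365), (nat_lit 21715570), (nat_lit 14024239)] (nat_lit 17602610)) p13_21_0 (nat_lit 3) (nat_lit 92) (nat_lit 93) = true := by decide +kernel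
def p13_21_0_93 : pfC (piC [(nat_lit 33242365), (nat_lit 21715570), (nat_lit 14024239)] (nat_lit 17602610)) p13_21_0 (nat_lit 3) (nat_lit 93) (nat_lit 94) = true := by decide +kernel
def p13_21_0_94 : pfC (piC [(nat_lit 33242365), (nat_lit 21715570), (nat_lit 14024239)] (nat_lit 17602610)) p13_21_0 (nat_lit 3) (nat_lit 94) (nat_lit 95) = true := by decide +kernel
def p13_21_0_95 : pfC (piC [(nat_lit 33242365), (nat_lit 21715570), (nat_lit 14024239)] (nat_lit 17602610)) p13_21_0 (nat_lit 3) (nat_lit 95) (nat_lit 96) = true := by decide +kernel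
def p13_21_0_96 : pfC (piC [(nat_lit 33242365), (nat_lit 21715570), (nat_lit 14024239)] (nat_lit 17602610)) p13_21_0 (nat_lit 3) (nat_lit 96) (nat_lit 97) = true := by decide +kernel
def p13_21_0_97 : pfC (piC [(nat_lit 33242365), (nat_lit 21715570), (nat_lit 14024239)] (nat_lit 17602610)) p13_21_0 (nat_lit 3) (nat_lit 97) (nat_lit 98) = true := by decide +kernel
def p13_21_0_98 : pfC (piC [(nat_lit 33242365), (nat_lit 21715570), (nat_lit 14024239)] (nat_lit 17602610)) p13_21_0 (nat_lit 3) (nat_lit 98) (nat_lit 99) = true := by decide +kernel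
def p13_21_0_99 : pfC (piC [(nat_lit 33242365), (nat_lit 21715570), (nat_lit 14024239)] (nat_lit 17602610)) p13_21_0 (nat_lit 3) (nat_lit 99) (nat_lit 100) = true := by decide +kernel
def p13_21_0_100 : pfC (piC [(nat_lit 33242365), (nat_lit 21715570), (nat_lit 14024239)] (nat_lit 17602610)) p13_21_0 (nat_lit 3) (nat_lit 100) (nat_lit 101) = true := by decide +kernel
def p13_21_0_101 : pfC (piC [(nat_lit 33242365), (nat_lit 21715570), (nat_lit 14024239)] (nat_lit 17602610)) p13_21_0 (nat_lit 3) (nat_lit 101) (nat_lit 102) = true := by decide +kernel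
def p13_21_0_102 : pfC (piC [(nat_lit 33242365), (nat_lit 21715570), (nat_lit 14024239)] (nat_lit 17602610)) p13_21_0 (nat_lit 3) (nat_lit 102) (nat_lit 103) = true := by decide +kernel
def p13_21_0_103 : pfC (piC [(nat_lit 33242365), (nat_lit 21715570), (nat_lit 14024239)] (nat_lit 17602610)) p13_21_0 (nat_lit 3) (nat_lit 103) (nat_lit 104) = true := by decide +kernel
def p13_21_0_104 : pfC (piC [(nat_lit 33242365), (nat_lit 21715570), (nat_lit 14024239)] (nat_lit 17602610)) p13_21_0 (nat_lit 3) (nat_lit 104) (nat_lit 105) = true := by decide +kernel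
def p13_21_0_105 : pfC (piC [(nat_lit 33242365), (nat_lit 21715570), (nat_lit 14024239)] (nat_lit 17602610)) p13_21_0 (nat_lit 3) (nat_lit 105) (nat_lit 106) = true := by decide +kernel
def p13_21_0_106 : pfC (piC [(nat_lit 33242365), (nat_lit 21715570), (nat_lit 14024239)] (nat_lit 17602610)) p13_21_0 (nat_lit 3) (nat_lit 106) (nat_lit 107) = true := by decide +kernel
def p13_21_0_107 : pfC (piC [(nat_lit 33242365), (nat_lit 21715570), (nat_lit 14024239)] (nat_lit 17602610)) p13_21_0 (nat_lit 3) (nat_lit 107) (nat_lit 108) = true := by decide +kernel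
def p13_21_0_108 : pfC (piC [(nat_lit 33242365), (nat_lit 21715570), (nat_lit 14024239)] (nat_lit 17602610)) p13_21_0 (nat_lit 3) (nat_lit 108) (nat_lit 109) = true := by decide +kernel
def p13_21_0_109 : pfC (piC [(nat_lit 33242365), (nat_lit 21715570), (nat_lit 14024239)] (nat_lit 17602610)) p13_21_0 (nat_lit 3) (nat_lit 109) (nat_lit 110) = true := by decide +kernel
def p13_21_0_110 : pfC (piC [(nat_lit 33242365), (nat_lit 21715570), (nat_lit 14024239)] (nat_lit 17602610)) p13_21_0 (nat_lit 3) (nat_lit 110) (nat_lit 111) = true := by decide +kernel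
def p13_21_0_111 : pfC (piC [(nat_lit 33242365), (nat_lit 21715570), (nat_lit 14024239)] (nat_lit 17602610)) p13_21_0 (nat_lit 3) (nat_lit 111) (nat_lit 112) = true := by decide +kernel
def p13_21_0_112 : pfC (piC [(nat_lit 33242365), (nat_lit 21715570), (nat_lit 14024239)] (nat_lit 17602610)) p13_21_0 (nat_lit 3) (nat_lit 112) (nat_lit 113) = true := by decide +kernel
def p13_21_0_113 : pfC (piC [(nat_lit 33242365), (nat_lit 21715570), (nat_lit 14024239)] (nat_lit 17602610)) p13_21_0 (nat_lit 3) (nat_lit 113) (nat_lit 114) = true := by decide +kernel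
def p13_21_0_114 : pfC (piC [(nat_lit 33242365), (nat_lit 21715570), (nat_lit 14024239)] (nat_lit 17602610)) p13_21_0 (nat_lit 3) (nat_lit 114) (nat_lit 115) = true := by decide +kernel
def p13_21_0_115 : pfC (piC [(nat_lit 33242365), (nat_lit 21715570), (nat_lit 14024239)] (nat_lit 17602610)) p13_21_0 (nat_lit 3) (nat_lit 115) (nat_lit 116) = true := by decide +kernel
def p13_21_0_116 : pfC (piC [(nat_lit 33242365), (nat_lit 21715570), (nat_lit 14024239)] (nat_lit 17602610)) p13_21_0 (nat_lit 3) (nat_lit 116) (nat_lit 117) = true := by decide +kernel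
def p13_21_0_117 : pfC (piC [(nat_lit 33242365), (nat_lit 21715570), (nat_lit 14024239)] (nat_lit 17602610)) p13_21_0 (nat_lit 3) (nat_lit 117) (nat_lit 118) = true := by decide +kernel
def p13_21_0_118 : pfC (piC [(nat_lit 33242365), (nat_lit 21715570), (nat_lit 14024239)] (nat_lit 17602610)) p13_21_0 (nat_lit 3) (nat_lit 118) (nat_lit 119) = true := by decide +kernel
def p13_21_0_119 : pfC (piC [(nat_lit 33242365), (nat_lit 21715570), (nat_lit 14024239)] (nat_lit 17602610)) p13_21_0 (nat_lit 3) (nat_lit 119) (nat_lit 120) = true := by decide +kernel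
def p13_21_0_120 : pfC (piC [(nat_lit 33242365), (nat_lit 21715570), (nat_lit 14024239)] (nat_lit 17602610)) p13_21_0 (nat_lit 3) (nat_lit 120) (nat_lit 121) = true := by decide +kernel
def p13_21_0_121 : pfC (piC [(nat_lit 33242365), (nat_lit 21715570), (nat_lit 14024239)] (nat_lit 17602610)) p13_21_0 (nat_lit 3) (nat_lit 121) (nat_lit 122) = true := by decide +kernel
def p13_21_0_122 : pfC (piC [(nat_lit 33242365), (nat_lit 21715570), (nat_lit 14024239)] (nat_lit 17602610)) p13_21_0 (nat_lit 3) (nat_lit 122) (nat_lit 123) = true := by decide +kernel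
def p13_21_0_123 : pfC (piC [(nat_lit 33242365), (nat_lit 21715570), (nat_lit 14024239)] (nat_lit 17602610)) p13_21_0 (nat_lit 3) (nat_lit 123) (nat_lit 124) = true := by decide +kernel
def p13_21_0_124 : pfC (piC [(nat_lit 33242365), (nat_lit 21715570), (nat_lit 14024239)] (nat_lit 17602610)) p13_21_0 (nat_lit 3) (nat_lit 124) (nat_lit 125) = true := by decide +kernel
def p13_21_0_125 : pfC (piC [(nat_lit 33242365), (nat_lit 21715570), (nat_lit 14024239)] (nat_lit 17602610)) p13_21_0 (nat_lit 3) (nat_lit 125) (nat_lit 126) = true := by decide +kernel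
def p13_21_0_126 : pfC (piC [(nat_lit 33242365), (nat_lit 21715570), (nat_lit 14024239)] (nat_lit 17602610)) p13_21_0 (nat_lit 3) (nat_lit 126) (nat_lit 127) = true := by decide +kernel
def p13_21_0_127 : pfC (piC [(nat_lit 33242365), (nat_lit 21715570), (nat_lit 14024239)] (nat_lit 17602610)) p13_21_0 (nat_lit 3) (nat_lit 127) (nat_lit 128) = true := by decide +kernel
def p13_21_0_128 : pfC (piC [(nat_lit 33242365), (nat_lit 21715570), (nat_lit 14024239)] (nat_lit 17602610)) p13_21_0 (nat_lit 3) (nat_lit 128) (nat_lit 129) = true := by decide +kernel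
def p13_21_0_129 : pfC (piC [(nat_lit 33242365), (nat_lit 21715570), (nat_lit 14024239)] (nat_lit 17602610)) p13_21_0 (nat_lit 3) (nat_lit 129) (nat_lit 130) = true := by decide +kernel
def p13_21_0_130 : pfC (piC [(nat_lit 33242365), (nat_lit 21715570), (nat_lit 14024239)] (nat_lit 17602610)) p13_21_0 (nat_lit 3) (nat_lit 130) (nat_lit 131) = true := by decide +kernel
def p13_21_0_131 : pfC (piC [(nat_lit 33242365), (nat_lit 21715570), (nat_lit 14024239)] (nat_lit 17602610)) p13_21_0 (nat_lit 3) (nat_lit 131) (nat_lit 132) = true := by decide +kernel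
def p13_21_0_132 : pfC (piC [(nat_lit 33242365), (nat_lit 21715570), (nat_lit 14024239)] (nat_lit 17602610)) p13_21_0 (nat_lit 3) (nat_lit 132) (nat_lit 133) = true := by decide +kernel
def p13_21_0_133 : pfC (piC [(nat_lit 33242365), (nat_lit 21715570), (nat_lit 14024239)] (nat_lit 17602610)) p13_21_0 (nat_lit 3) (nat_lit 133) (nat_lit 134) = true := by decide +kernel
def p13_21_0_134 : pfC (piC [(nat_lit 33242365), (nat_lit 21715570), (nat_lit 14024239)] (nat_lit 17602610)) p13_21_0 (nat_lit 3) (nat_lit 134) (nat_lit 135) = true := by decide +kernel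
def p13_21_0_135 : pfC (piC [(nat_lit 33242365), (nat_lit 21715570), (nat_lit 14024239)] (nat_lit 17602610)) p13_21_0 (nat_lit 3) (nat_lit 135) (nat_lit 136) = true := by decide +kernel
def p13_21_0_136 : pfC (piC [(nat_lit 33242365), (nat_lit 21715570), (nat_lit 14024239)] (nat_lit 17602610)) p13_21_0 (nat_lit 3) (nat_lit 136) (nat_lit 137) = true := by decide +kernel
def p13_21_0_137 : pfC (piC [(nat_lit 33242365), (nat_lit 21715570), (nat_lit 14024239)] (nat_lit 17602610)) p13_21_0 (nat_lit 3) (nat_lit 137) (nat_lit 138) = true := by decide +kernel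
def p13_21_0_138 : pfC (piC [(nat_lit 33242365), (nat_lit 21715570), (nat_lit 14024239)] (nat_lit 17602610)) p13_21_0 (nat_lit 3) (nat_lit 138) (nat_lit 139) = true := by decide +kernel
def p13_21_0_139 : pfC (piC [(nat_lit 33242365), (nat_lit 21715570), (nat_lit 14024239)] (nat_lit 17602610)) p13_21_0 (nat_lit 3) (nat_lit 139) (nat_lit 140) = true := by decide +kernel
def p13_21_0_140 : pfC (piC [(nat_lit 33242365), (nat_lit 21715570), (nat_lit 14024239)] (nat_lit 17602610)) p13_21_0 (nat_lit 3) (nat_lit 140) (nat_lit 141) = true := by decide +kernel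
def p13_21_0_141 : pfC (piC [(nat_lit 33242365), (nat_lit 21715570), (nat_lit 14024239)] (nat_lit 17602610)) p13_21_0 (nat_lit 3) (nat_lit 141) (nat_lit 142) = true := by decide +kernel
def p13_21_0_142 : pfC (piC [(nat_lit 33242365), (nat_lit 21715570), (nat_lit 14024239)] (nat_lit 17602610)) p13_21_0 (nat_lit 3) (nat_lit 142) (nat_lit 143) = true := by decide +kernel
def p13_21_0_143 : pfC (piC [(nat_lit 33242365), (nat_lit 21715570), (nat_lit 14024239)] (nat_lit 17602610)) p13_21_0 (nat_lit 3) (nat_lit 143) (nat_lit 144) = true := by decide +kernel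
def p13_21_0_144 : pfC (piC [(nat_lit 33242365), (nat_lit 21715570), (nat_lit 14024239)] (nat_lit 17602610)) p13_21_0 (nat_lit 3) (nat_lit 144) (nat_lit 145) = true := by decide +kernel
def p13_21_0_145 : pfC (piC [(nat_lit 33242365), (nat_lit 21715570), (nat_lit 14024239)] (nat_lit 17602610)) p13_21_0 (nat_lit 3) (nat_lit 145) (nat_lit 146) = true := by decide +kernel
def p13_21_0_146 : pfC (piC [(nat_lit 33242365), (nat_lit 21715570), (nat_lit 14024239)] (nat_lit 17602610)) p13_21_0 (nat_lit 3) (nat_lit 146) (nat_lit 147) = true := by decide +kernel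
def p13_21_0_147 : pfC (piC [(nat_lit 33242365), (nat_lit 21715570), (nat_lit 14024239)] (nat_lit 17602610)) p13_21_0 (nat_lit 3) (nat_lit 147) (nat_lit 148) = true := by decide +kernel
def p13_21_0_148 : pfC (piC [(nat_lit 33242365), (nat_lit 21715570), (nat_lit 14024239)] (nat_lit 17602610)) p13_21_0 (nat_lit 3) (nat_lit 148) (nat_lit 149) = true := by decide +kernel
def p13_21_0_149 : pfC (piC [(nat_lit 33242365), (nat_lit 21715570), (nat_lit 14024239)] (nat_lit 17602610)) p13_21_0 (nat_lit 3) (nat_lit 149) (nat_lit 150) = true := by decide +kernel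
def p13_21_0_150 : pfC (piC [(nat_lit 33242365), (nat_lit 21715570), (nat_lit 14024239)] (nat_lit 17602610)) p13_21_0 (nat_lit 3) (nat_lit 150) (nat_lit 151) = true := by decide +kernel
def p13_21_0_151 : pfC (piC [(nat_lit 33242365), (nat_lit 21715570), (nat_lit 14024239)] (nat_lit 17602610)) p13_21_0 (nat_lit 3) (nat_lit 151) (nat_lit 152) = true := by decide +kernel
def p13_21_0_152 : pfC (piC [(nat_lit 33242365), (nat_lit 21715570), (nat_lit 14024239)] (nat_lit 17602610)) p13_21_0 (nat_lit 3) (nat_lit 152) (nat_lit 153) = true := by decide +kernel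
def p13_21_0_153 : pfC (piC [(nat_lit 33242365), (nat_lit 21715570), (nat_lit 14024239)] (nat_lit 17602610)) p13_21_0 (nat_lit 3) (nat_lit 153) (nat_lit 154) = true := by decide +kernel
def p13_21_0_154 : pfC (piC [(nat_lit 33242365), (nat_lit 21715570), (nat_lit 14024239)] (nat_lit 17602610)) p13_21_0 (nat_lit 3) (nat_lit 154) (nat_lit 155) = true := by decide +kernel
def p13_21_0_155 : pfC (piC [(nat_lit 33242365), (nat_lit 21715570), (nat_lit 14024239)] (nat_lit 17602610)) p13_21_0 (nat_lit 3) (nat_lit 155) (nat_lit 156) = true := by decide +kernel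
def p13_21_0_156 : pfC (piC [(nat_lit 33242365), (nat_lit 21715570), (nat_lit 14024239)] (nat_lit 17602610)) p13_21_0 (nat_lit 3) (nat_lit 156) (nat_lit 157) = true := by decide +kernel
def p13_21_0_157 : pfC (piC [(nat_lit 33242365), (nat_lit 21715570), (nat_lit 14024239)] (nat_lit 17602610)) p13_21_0 (nat_lit 3) (nat_lit 157) (nat_lit 158) = true := by decide +kernel
def p13_21_0_158 : pfC (piC [(nat_lit 33242365), (nat_lit 21715570), (nat_lit 14024239)] (nat_lit 17602610)) p13_21_0 (nat_lit 3) (nat_lit 158) (nat_lit 159) = true := by decide +kernel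
def p13_21_0_159 : pfC (piC [(nat_lit 33242365), (nat_lit 21715570), (nat_lit 14024239)] (nat_lit 17602610)) p13_21_0 (nat_lit 3) (nat_lit 159) (nat_lit 160) = true := by decide +kernel
def p13_21_0_160 : pfC (piC [(nat_lit 33242365), (nat_lit 21715570), (nat_lit 14024239)] (nat_lit 17602610)) p13_21_0 (nat_lit 3) (nat_lit 160) (nat_lit 161) = true := by decide +kernel
def p13_21_0_161 : pfC (piC [(nat_lit 33242365), (nat_lit 21715570), (nat_lit 14024239)] (nat_lit 17602610)) p13_21_0 (nat_lit 3) (nat_lit 161) (nat_lit 162) = true := by decide +kernel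
def p13_21_0_162 : pfC (piC [(nat_lit 33242365), (nat_lit 21715570), (nat_lit 14024239)] (nat_lit 17602610)) p13_21_0 (nat_lit 3) (nat_lit 162) (nat_lit 163) = true := by decide +kernel
def p13_21_0_163 : pfC (piC [(nat_lit 33242365), (nat_lit 21715570), (nat_lit 14024239)] (nat_lit 17602610)) p13_21_0 (nat_lit 3) (nat_lit 163) (nat_lit 164) = true := by decide +kernel
def p13_21_0_164 : pfC (piC [(nat_lit 33242365), (nat_lit 21715570), (nat_lit 14024239)] (nat_lit 17602610)) p13_21_0 (nat_lit 3) (nat_lit 164) (nat_lit 165) = true := by decide +kernel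
def p13_21_0_165 : pfC (piC [(nat_lit 33242365), (nat_lit 21715570), (nat_lit 14024239)] (nat_lit 17602610)) p13_21_0 (nat_lit 3) (nat_lit 165) (nat_lit 166) = true := by decide +kernel
def p13_21_0_166 : pfC (piC [(nat_lit 33242365), (nat_lit 21715570), (nat_lit 14024239)] (nat_lit 17602610)) p13_21_0 (nat_lit 3) (nat_lit 166) (nat_lit 167) = true := by decide +kernel
def p13_21_0_167 : pfC (piC [(nat_lit 33242365), (nat_lit 21715570), (nat_lit 14024239)] (nat_lit 17602610)) p13_21_0 (nat_lit 3) (nat_lit 167) (nat_lit 168) = true := by decide +kernel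
def p13_21_0_168 : pfC (piC [(nat_lit 33242365), (nat_lit 21715570), (nat_lit 14024239)] (nat_lit 17602610)) p13_21_0 (nat_lit 3) (nat_lit 168) (nat_lit 169) = true := by decide +kernel
def p13_21_0_169 : pfC (piC [(nat_lit 33242365), (nat_lit 21715570), (nat_lit 14024239)] (nat_lit 17602610)) p13_21_0 (nat_lit 3) (nat_lit 169) (nat_lit 170) = true := by decide +kernel
def p13_21_0_170 : pfC (piC [(nat_lit 33242365), (nat_lit 21715570), (nat_lit 14024239)] (nat_lit 17602610)) p13_21_0 (nat_lit 3) (nat_lit 170) (nat_lit 171) = true := by decide +kernel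
def p13_21_0_171 : pfC (piC [(nat_lit 33242365), (nat_lit 21715570), (nat_lit 14024239)] (nat_lit 17602610)) p13_21_0 (nat_lit 3) (nat_lit 171) (nat_lit 172) = true := by decide +kernel
def p13_21_0_172 : pfC (piC [(nat_lit 33242365), (nat_lit 21715570), (nat_lit 14024239)] (nat_lit 17602610)) p13_21_0 (nat_lit 3) (nat_lit 172) (nat_lit 173) = true := by decide +kernel
def p13_21_0_173 : pfC (piC [(nat_lit 33242365), (nat_lit 21715570), (nat_lit 14024239)] (nat_lit 17602610)) p13_21_0 (nat_lit 3) (nat_lit 173) (nat_lit 174) = true := by decide +kernel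
def p13_21_0_174 : pfC (piC [(nat_lit 33242365), (nat_lit 21715570), (nat_lit 14024239)] (nat_lit 17602610)) p13_21_0 (nat_lit 3) (nat_lit 174) (nat_lit 175) = true := by decide +kernel
def p13_21_0_175 : pfC (piC [(nat_lit 33242365), (nat_lit 21715570), (nat_lit 14024239)] (nat_lit 17602610)) p13_21_0 (nat_lit 3) (nat_lit 175) (nat_lit 176) = true := by decide +kernel
def p13_21_0_176 : pfC (piC [(nat_lit 33242365), (nat_lit 21715570), (nat_lit 14024239)] (nat_lit 17602610)) p13_21_0 (nat_lit 3) (nat_lit 176) (nat_lit 177) = true := by decide +kernel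
def p13_21_0_177 : pfC (piC [(nat_lit 33242365), (nat_lit 21715570), (nat_lit 14024239)] (nat_lit 17602610)) p13_21_0 (nat_lit 3) (nat_lit 177) (nat_lit 178) = true := by decide +kernel
def p13_21_0_178 : pfC (piC [(nat_lit 33242365), (nat_lit 21715570), (nat_lit 14024239)] (nat_lit 17602610)) p13_21_0 (nat_lit 3) (nat_lit 178) (nat_lit 179) = true := by decide +kernel
def p13_21_0_179 : pfC (piC [(nat_lit 33242365), (nat_lit 21715570), (nat_lit 14024239)] (nat_lit 17602610)) p13_21_0 (nat_lit 3) (nat_lit 179) (nat_lit 180) = true := by decide +kernel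
def p13_21_0_180 : pfC (piC [(nat_lit 33242365), (nat_lit 21715570), (nat_lit 14024239)] (nat_lit 17602610)) p13_21_0 (nat_lit 3) (nat_lit 180) (nat_lit 181) = true := by decide +kernel
def p13_21_0_181 : pfC (piC [(nat_lit 33242365), (nat_lit 21715570), (nat_lit 14024239)] (nat_lit 17602610)) p13_21_0 (nat_lit 3) (nat_lit 181) (nat_lit 182) = true := by decide +kernel
def p13_21_0_182 : pfC (piC [(nat_lit 33242365), (nat_lit 21715570), (nat_lit 14024239)] (nat_lit 17602610)) p13_21_0 (nat_lit 3) (nat_lit 182) (nat_lit 183) = true := by decide +kernel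
def p13_21_0_183 : pfC (piC [(nat_lit 33242365), (nat_lit 21715570), (nat_lit 14024239)] (nat_lit 17602610)) p13_21_0 (nat_lit 3) (nat_lit 183) (nat_lit 184) = true := by decide +kernel
def p13_21_0_184 : pfC (piC [(nat_lit 33242365), (nat_lit 21715570), (nat_lit 14024239)] (nat_lit 17602610)) p13_21_0 (nat_lit 3) (nat_lit 184) (nat_lit 185) = true := by decide +kernel
def p13_21_0_185 : pfC (piC [(nat_lit 33242365), (nat_lit 21715570), (nat_lit 14024239)] (nat_lit 17602610)) p13_21_0 (nat_lit 3) (nat_lit 185) (nat_lit 186) = true := by decide +kernel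
def p13_21_0_186 : pfC (piC [(nat_lit 33242365), (nat_lit 21715570), (nat_lit 14024239)] (nat_lit 17602610)) p13_21_0 (nat_lit 3) (nat_lit 186) (nat_lit 187) = true := by decide +kernel
def p13_21_0_187 : pfC (piC [(nat_lit 33242365), (nat_lit 21715570), (nat_lit 14024239)] (nat_lit 17602610)) p13_21_0 (nat_lit 3) (nat_lit 187) (nat_lit 188) = true := by decide +kernel
def p13_21_0_188 : pfC (piC [(nat_lit 33242365), (nat_lit 21715570), (nat_lit 14024239)] (nat_lit 17602610)) p13_21_0 (nat_lit 3) (nat_lit 188) (nat_lit 189) = true := by decide +kernel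
def p13_21_0_189 : pfC (piC [(nat_lit 33242365), (nat_lit 21715570), (nat_lit 14024239)] (nat_lit 17602610)) p13_21_0 (nat_lit 3) (nat_lit 189) (nat_lit 190) = true := by decide +kernel
def p13_21_0_190 : pfC (piC [(nat_lit 33242365), (nat_lit 21715570), (nat_lit 14024239)] (nat_lit 17602610)) p13_21_0 (nat_lit 3) (nat_lit 190) (nat_lit 191) = true := by decide +kernel
def p13_21_0_191 : pfC (piC [(nat_lit 33242365), (nat_lit 21715570), (nat_lit 14024239)] (nat_lit 17602610)) p13_21_0 (nat_lit 3) (nat_lit 191) (nat_lit 192) = true := by decide +kernel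
def p13_21_0_192 : pfC (piC [(nat_lit 33242365), (nat_lit 21715570), (nat_lit 14024239)] (nat_lit 17602610)) p13_21_0 (nat_lit 3) (nat_lit 192) (nat_lit 193) = true := by decide +kernel
def p13_21_0_193 : pfC (piC [(nat_lit 33242365), (nat_lit 21715570), (nat_lit 14024239)] (nat_lit 17602610)) p13_21_0 (nat_lit 3) (nat_lit 193) (nat_lit 194) = true := by decide +kernel
def p13_21_0_194 : pfC (piC [(nat_lit 33242365), (nat_lit 21715570), (nat_lit 14024239)] (nat_lit 17602610)) p13_21_0 (nat_lit 3) (nat_lit 194) (nat_lit 195) = true := by decide +kernel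
def p13_21_0_195 : pfC (piC [(nat_lit 33242365), (nat_lit 21715570), (nat_lit 14024239)] (nat_lit 17602610)) p13_21_0 (nat_lit 3) (nat_lit 195) (nat_lit 196) = true := by decide +kernel
def p13_21_0_196 : pfC (piC [(nat_lit 33242365), (nat_lit 21715570), (nat_lit 14024239)] (nat_lit 17602610)) p13_21_0 (nat_lit 3) (nat_lit 196) (nat_lit 197) = true := by decide +kernel
def p13_21_0_197 : pfC (piC [(nat_lit 33242365), (nat_lit 21715570), (nat_lit 14024239)] (nat_lit 17602610)) p13_21_0 (nat_lit 3) (nat_lit 197) (nat_lit 198) = true := by decide +kernel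
def p13_21_0_198 : pfC (piC [(nat_lit 33242365), (nat_lit 21715570), (nat_lit 14024239)] (nat_lit 17602610)) p13_21_0 (nat_lit 3) (nat_lit 198) (nat_lit 199) = true := by decide +kernel
def p13_21_0_199 : pfC (piC [(nat_lit 33242365), (nat_lit 21715570), (nat_lit 14024239)] (nat_lit 17602610)) p13_21_0 (nat_lit 3) (nat_lit 199) (nat_lit 200) = true := by decide +kernel
def p13_21_0_200 : pfC (piC [(nat_lit 33242365), (nat_lit 21715570), (nat_lit 14024239)] (nat_lit 17602610)) p13_21_0 (nat_lit 3) (nat_lit 200) (nat_lit 201) = true := by decide +kernel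
def p13_21_0_201 : pfC (piC [(nat_lit 33242365), (nat_lit 21715570), (nat_lit 14024239)] (nat_lit 17602610)) p13_21_0 (nat_lit 3) (nat_lit 201) (nat_lit 202) = true := by decide +kernel
def p13_21_0_202 : pfC (piC [(nat_lit 33242365), (nat_lit 21715570), (nat_lit 14024239)] (nat_lit 17602610)) p13_21_0 (nat_lit 3) (nat_lit 202) (nat_lit 203) = true := by decide +kernel
def p13_21_0_203 : pfC (piC [(nat_lit 33242365), (nat_lit 21715570), (nat_lit 14024239)] (nat_lit 17602610)) p13_21_0 (nat_lit 3) (nat_lit 203) (nat_lit 204) = true := by decide +kernel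
def p13_21_0_204 : pfC (piC [(nat_lit 33242365), (nat_lit 21715570), (nat_lit 14024239)] (nat_lit 17602610)) p13_21_0 (nat_lit 3) (nat_lit 204) (nat_lit 205) = true := by decide +kernel
def p13_21_0_205 : pfC (piC [(nat_lit 33242365), (nat_lit 21715570), (nat_lit 14024239)] (nat_lit 17602610)) p13_21_0 (nat_lit 3) (nat_lit 205) (nat_lit 206) = true := by decide +kernel
def p13_21_0_206 : pfC (piC [(nat_lit 33242365), (nat_lit 21715570), (nat_lit 14024239)] (nat_lit 17602610)) p13_21_0 (nat_lit 3) (nat_lit 206) (nat_lit 207) = true := by decide +kernel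
def p13_21_0_207 : pfC (piC [(nat_lit 33242365), (nat_lit 21715570), (nat_lit 14024239)] (nat_lit 17602610)) p13_21_0 (nat_lit 3) (nat_lit 207) (nat_lit 208) = true := by decide +kernel
def p13_21_0_208 : pfC (piC [(nat_lit 33242365), (nat_lit 21715570), (nat_lit 14024239)] (nat_lit 17602610)) p13_21_0 (nat_lit 3) (nat_lit 208) (nat_lit 209) = true := by decide +kernel
def p13_21_0_209 : pfC (piC [(nat_lit 33242365), (nat_lit 21715570), (nat_lit 14024239)] (nat_lit 17602610)) p13_21_0 (nat_lit 3) (nat_lit 209) (nat_lit 210) = true := by decide +kernel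
def p13_21_0_210 : pfC (piC [(nat_lit 33242365), (nat_lit 21715570), (nat_lit 14024239)] (nat_lit 17602610)) p13_21_0 (nat_lit 3) (nat_lit 210) (nat_lit 211) = true := by decide +kernel
def p13_21_0_211 : pfC (piC [(nat_lit 33242365), (nat_lit 21715570), (nat_lit 14024239)] (nat_lit 17602610)) p13_21_0 (nat_lit 3) (nat_lit 211) (nat_lit 212) = true := by decide +kernel
def p13_21_0_212 : pfC (piC [(nat_lit 33242365), (nat_lit 21715570), (nat_lit 14024239)] (nat_lit 17602610)) p13_21_0 (nat_lit 3) (nat_lit 212) (nat_lit 213) = true := by decide +kernel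
def p13_21_0_213 : pfC (piC [(nat_lit 33242365), (nat_lit 21715570), (nat_lit 14024239)] (nat_lit 17602610)) p13_21_0 (nat_lit 3) (nat_lit 213) (nat_lit 214) = true := by decide +kernel
def p13_21_0_214 : pfC (piC [(nat_lit 33242365), (nat_lit 21715570), (nat_lit 14024239)] (nat_lit 17602610)) p13_21_0 (nat_lit 3) (nat_lit 214) (nat_lit 215) = true := by decide +kernel
def p13_21_0_215 : pfC (piC [(nat_lit 33242365), (nat_lit 21715570), (nat_lit 14024239)] (nat_lit 17602610)) p13_21_0 (nat_lit 3) (nat_lit 215) (nat_lit 216) = true := by decide +kernel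
def p13_21_0_216 : pfC (piC [(nat_lit 33242365), (nat_lit 21715570), (nat_lit 14024239)] (nat_lit 17602610)) p13_21_0 (nat_lit 3) (nat_lit 216) (nat_lit 217) = true := by decide +kernel
def p13_21_0_217 : pfC (piC [(nat_lit 33242365), (nat_lit 21715570), (nat_lit 14024239)] (nat_lit 17602610)) p13_21_0 (nat_lit 3) (nat_lit 217) (nat_lit 218) = true := by decide +kernel
def p13_21_0_218 : pfC (piC [(nat_lit 33242365), (nat_lit 21715570), (nat_lit 14024239)] (nat_lit 17602610)) p13_21_0 (nat_lit 3) (nat_lit 218) (nat_lit 219) = true := by decide +kernel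
def p13_21_0_219 : pfC (piC [(nat_lit 33242365), (nat_lit 21715570), (nat_lit 14024239)] (nat_lit 17602610)) p13_21_0 (nat_lit 3) (nat_lit 219) (nat_lit 220) = true := by decide +kernel
def p13_21_0_220 : pfC (piC [(nat_lit 33242365), (nat_lit 21715570), (nat_lit 14024239)] (nat_lit 17602610)) p13_21_0 (nat_lit 3) (nat_lit 220) (nat_lit 221) = true := by decide +kernel
def p13_21_0_221 : pfC (piC [(nat_lit 33242365), (nat_lit 21715570), (nat_lit 14024239)] (nat_lit 17602610)) p13_21_0 (nat_lit 3) (nat_lit 221) (nat_lit 222) = true := by decide +kernel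
def p13_21_0_222 : pfC (piC [(nat_lit 33242365), (nat_lit 21715570), (nat_lit 14024239)] (nat_lit 17602610)) p13_21_0 (nat_lit 3) (nat_lit 222) (nat_lit 223) = true := by decide +kernel
def p13_21_0_223 : pfC (piC [(nat_lit 33242365), (nat_lit 21715570), (nat_lit 14024239)] (nat_lit 17602610)) p13_21_0 (nat_lit 3) (nat_lit 223) (nat_lit 224) = true := by decide +kernel
def p13_21_0_224 : pfC (piC [(nat_lit 33242365), (nat_lit 21715570), (nat_lit 14024239)] (nat_lit 17602610)) p13_21_0 (nat_lit 3) (nat_lit 224) (nat_lit 225) = true := by decide +kernel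
def p13_21_0_225 : pfC (piC [(nat_lit 33242365), (nat_lit 21715570), (nat_lit 14024239)] (nat_lit 17602610)) p13_21_0 (nat_lit 3) (nat_lit 225) (nat_lit 226) = true := by decide +kernel
def p13_21_0_226 : pfC (piC [(nat_lit 33242365), (nat_lit 21715570), (nat_lit 14024239)] (nat_lit 17602610)) p13_21_0 (nat_lit 3) (nat_lit 226) (nat_lit 227) = true := by decide +kernel
def p13_21_0_227 : pfC (piC [(nat_lit 33242365), (nat_lit 21715570), (nat_lit 14024239)] (nat_lit 17602610)) p13_21_0 (nat_lit 3) (nat_lit 227) (nat_lit 228) = true := by decide +kernel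
def p13_21_0_228 : pfC (piC [(nat_lit 33242365), (nat_lit 21715570), (nat_lit 14024239)] (nat_lit 17602610)) p13_21_0 (nat_lit 3) (nat_lit 228) (nat_lit 229) = true := by decide +kernel
def p13_21_0_229 : pfC (piC [(nat_lit 33242365), (nat_lit 21715570), (nat_lit 14024239)] (nat_lit 17602610)) p13_21_0 (nat_lit 3) (nat_lit 229) (nat_lit 230) = true := by decide +kernel
def p13_21_0_230 : pfC (piC [(nat_lit 33242365), (nat_lit 21715570), (nat_lit 14024239)] (nat_lit 17602610)) p13_21_0 (nat_lit 3) (nat_lit 230) (nat_lit 231) = true := by decide +kernel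
def p13_21_0_231 : pfC (piC [(nat_lit 33242365), (nat_lit 21715570), (nat_lit 14024239)] (nat_lit 17602610)) p13_21_0 (nat_lit 3) (nat_lit 231) (nat_lit 232) = true := by decide +kernel
def p13_21_0_232 : pfC (piC [(nat_lit 33242365), (nat_lit 21715570), (nat_lit 14024239)] (nat_lit 17602610)) p13_21_0 (nat_lit 3) (nat_lit 232) (nat_lit 233) = true := by decide +kernel
def p13_21_0_233 : pfC (piC [(nat_lit 33242365), (nat_lit 21715570), (nat_lit 14024239)] (nat_lit 17602610)) p13_21_0 (nat_lit 3) (nat_lit 233) (nat_lit 234) = true := by decide +kernel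
def p13_21_0_234 : pfC (piC [(nat_lit 33242365), (nat_lit 21715570), (nat_lit 14024239)] (nat_lit 17602610)) p13_21_0 (nat_lit 3) (nat_lit 234) (nat_lit 235) = true := by decide +kernel
def p13_21_0_235 : pfC (piC [(nat_lit 33242365), (nat_lit 21715570), (nat_lit 14024239)] (nat_lit 17602610)) p13_21_0 (nat_lit 3) (nat_lit 235) (nat_lit 236) = true := by decide +kernel
def p13_21_0_236 : pfC (piC [(nat_lit 33242365), (nat_lit 21715570), (nat_lit 14024239)] (nat_lit 17602610)) p13_21_0 (nat_lit 3) (nat_lit 236) (nat_lit 237) = true := by decide +kernel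
def p13_21_0_237 : pfC (piC [(nat_lit 33242365), (nat_lit 21715570), (nat_lit 14024239)] (nat_lit 17602610)) p13_21_0 (nat_lit 3) (nat_lit 237) (nat_lit 238) = true := by decide +kernel
def p13_21_0_238 : pfC (piC [(nat_lit 33242365), (nat_lit 21715570), (nat_lit 14024239)] (nat_lit 17602610)) p13_21_0 (nat_lit 3) (nat_lit 238) (nat_lit 239) = true := by decide +kernel
def p13_21_0_239 : pfC (piC [(nat_lit 33242365), (nat_lit 21715570), (nat_lit 14024239)] (nat_lit 17602610)) p13_21_0 (nat_lit 3) (nat_lit 239) (nat_lit 240) = true := by decide +kernel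
def p13_21_0_240 : pfC (piC [(nat_lit 33242365), (nat_lit 21715570), (nat_lit 14024239)] (nat_lit 17602610)) p13_21_0 (nat_lit 3) (nat_lit 240) (nat_lit 241) = true := by decide +kernel
def p13_21_0_241 : pfC (piC [(nat_lit 33242365), (nat_lit 21715570), (nat_lit 14024239)] (nat_lit 17602610)) p13_21_0 (nat_lit 3) (nat_lit 241) (nat_lit 242) = true := by decide +kernel
def p13_21_0_242 : pfC (piC [(nat_lit 33242365), (nat_lit 21715570), (nat_lit 14024239)] (nat_lit 17602610)) p13_21_0 (nat_lit 3) (nat_lit 242) (nat_lit 243) = true := by decide +kernel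
def p13_21_0_243 : pfC (piC [(nat_lit 33242365), (nat_lit 21715570), (nat_lit 14024239)] (nat_lit 17602610)) p13_21_0 (nat_lit 3) (nat_lit 243) (nat_lit 244) = true := by decide +kernel
def p13_21_0_244 : pfC (piC [(nat_lit 33242365), (nat_lit 21715570), (nat_lit 14024239)] (nat_lit 17602610)) p13_21_0 (nat_lit 3) (nat_lit 244) (nat_lit 245) = true := by decide +kernel
def p13_21_0_245 : pfC (piC [(nat_lit 33242365), (nat_lit 21715570), (nat_lit 14024239)] (nat_lit 17602610)) p13_21_0 (nat_lit 3) (nat_lit 245) (nat_lit 246) = true := by decide +kernel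
def p13_21_0_246 : pfC (piC [(nat_lit 33242365), (nat_lit 21715570), (nat_lit 14024239)] (nat_lit 17602610)) p13_21_0 (nat_lit 3) (nat_lit 246) (nat_lit 247) = true := by decide +kernel
def p13_21_0_247 : pfC (piC [(nat_lit 33242365), (nat_lit 21715570), (nat_lit 14024239)] (nat_lit 17602610)) p13_21_0 (nat_lit 3) (nat_lit 247) (nat_lit 248) = true := by decide +kernel
def p13_21_0_248 : pfC (piC [(nat_lit 33242365), (nat_lit 21715570), (nat_lit 14024239)] (nat_lit 17602610)) p13_21_0 (nat_lit 3) (nat_lit 248) (nat_lit 249) = true := by decide +kernel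
def p13_21_0_249 : pfC (piC [(nat_lit 33242365), (nat_lit 21715570), (nat_lit 14024239)] (nat_lit 17602610)) p13_21_0 (nat_lit 3) (nat_lit 249) (nat_lit 250) = true := by decide +kernel
def p13_21_0_250 : pfC (piC [(nat_lit 33242365), (nat_lit 21715570), (nat_lit 14024239)] (nat_lit 17602610)) p13_21_0 (nat_lit 3) (nat_lit 250) (nat_lit 251) = true := by decide +kernel
def p13_21_0_251 : pfC (piC [(nat_lit 33242365), (nat_lit 21715570), (nat_lit 14024239)] (nat_lit 17602610)) p13_21_0 (nat_lit 3) (nat_lit 251) (nat_lit 252) = true := by decide +kernel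
def p13_21_0_252 : pfC (piC [(nat_lit 33242365), (nat_lit 21715570), (nat_lit 14024239)] (nat_lit 17602610)) p13_21_0 (nat_lit 3) (nat_lit 252) (nat_lit 253) = true := by decide +kernel
def p13_21_0_253 : pfC (piC [(nat_lit 33242365), (nat_lit 21715570), (nat_lit 14024239)] (nat_lit 17602610)) p13_21_0 (nat_lit 3) (nat_lit 253) (nat_lit 254) = true := by decide +kernel
def p13_21_0_254 : pfC (piC [(nat_lit 33242365), (nat_lit 21715570), (nat_lit 14024239)] (nat_lit 17602610)) p13_21_0 (nat_lit 3) (nat_lit 254) (nat_lit 255) = true := by decide +kernel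
def p13_21_0_255 : pfC (piC [(nat_lit 33242365), (nat_lit 21715570), (nat_lit 14024239)] (nat_lit 17602610)) p13_21_0 (nat_lit 3) (nat_lit 255) (nat_lit 256) = true := by decide +kernel
def p13_21_0_256 : pfC (piC [(nat_lit 33242365), (nat_lit 21715570), (nat_lit 14024239)] (nat_lit 17602610)) p13_21_0 (nat_lit 3) (nat_lit 256) (nat_lit 257) = true := by decide +kernel
def p13_21_0_257 : pfC (piC [(nat_lit 33242365), (nat_lit 21715570), (nat_lit 14024239)] (nat_lit 17602610)) p13_21_0 (nat_lit 3) (nat_lit 257) (nat_lit 258) = true := by decide +kernel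
def p13_21_0_258 : pfC (piC [(nat_lit 33242365), (nat_lit 21715570), (nat_lit 14024239)] (nat_lit 17602610)) p13_21_0 (nat_lit 3) (nat_lit 258) (nat_lit 259) = true := by decide +kernel
def p13_21_0_259 : pfC (piC [(nat_lit 33242365), (nat_lit 21715570), (nat_lit 14024239)] (nat_lit 17602610)) p13_21_0 (nat_lit 3) (nat_lit 259) (nat_lit 260) = true := by decide +kernel
def p13_21_0_260 : pfC (piC [(nat_lit 33242365), (nat_lit 21715570), (nat_lit 14024239)] (nat_lit 17602610)) p13_21_0 (nat_lit 3) (nat_lit 260) (nat_lit 261) = true := by decide +kernel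
def p13_21_0_261 : pfC (piC [(nat_lit 33242365), (nat_lit 21715570), (nat_lit 14024239)] (nat_lit 17602610)) p13_21_0 (nat_lit 3) (nat_lit 261) (nat_lit 262) = true := by decide +kernel
def p13_21_0_262 : pfC (piC [(nat_lit 33242365), (nat_lit 21715570), (nat_lit 14024239)] (nat_lit 17602610)) p13_21_0 (nat_lit 3) (nat_lit 262) (nat_lit 263) = true := by decide +kernel
def p13_21_0_263 : pfC (piC [(nat_lit 33242365), (nat_lit 21715570), (nat_lit 14024239)] (nat_lit 17602610)) p13_21_0 (nat_lit 3) (nat_lit 263) (nat_lit 264) = true := by decide +kernel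
def p13_21_0_264 : pfC (piC [(nat_lit 33242365), (nat_lit 21715570), (nat_lit 14024239)] (nat_lit 17602610)) p13_21_0 (nat_lit 3) (nat_lit 264) (nat_lit 265) = true := by decide +kernel
def p13_21_0_265 : pfC (piC [(nat_lit 33242365), (nat_lit 21715570), (nat_lit 14024239)] (nat_lit 17602610)) p13_21_0 (nat_lit 3) (nat_lit 265) (nat_lit 266) = true := by decide +kernel
def p13_21_0_266 : pfC (piC [(nat_lit 33242365), (nat_lit 21715570), (nat_lit 14024239)] (nat_lit 17602610)) p13_21_0 (nat_lit 3) (nat_lit 266) (nat_lit 267) = true := by decide +kernel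
def p13_21_0_267 : pfC (piC [(nat_lit 33242365), (nat_lit 21715570), (nat_lit 14024239)] (nat_lit 17602610)) p13_21_0 (nat_lit 3) (nat_lit 267) (nat_lit 268) = true := by decide +kernel
def p13_21_0_268 : pfC (piC [(nat_lit 33242365), (nat_lit 21715570), (nat_lit 14024239)] (nat_lit 17602610)) p13_21_0 (nat_lit 3) (nat_lit 268) (nat_lit 269) = true := by decide +kernel
def p13_21_0_269 : pfC (piC [(nat_lit 33242365), (nat_lit 21715570), (nat_lit 14024239)] (nat_lit 17602610)) p13_21_0 (nat_lit 3) (nat_lit 269) (nat_lit 270) = true := by decide +kernel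
def p13_21_0_270 : pfC (piC [(nat_lit 33242365), (nat_lit 21715570), (nat_lit 14024239)] (nat_lit 17602610)) p13_21_0 (nat_lit 3) (nat_lit 270) (nat_lit 271) = true := by decide +kernel
def p13_21_0_271 : pfC (piC [(nat_lit 33242365), (nat_lit 21715570), (nat_lit 14024239)] (nat_lit 17602610)) p13_21_0 (nat_lit 3) (nat_lit 271) (nat_lit 272) = true := by decide +kernel
def p13_21_0_272 : pfC (piC [(nat_lit 33242365), (nat_lit 21715570), (nat_lit 14024239)] (nat_lit 17602610)) p13_21_0 (nat_lit 3) (nat_lit 272) (nat_lit 273) = true := by decide +kernel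
def p13_21_0_273 : pfC (piC [(nat_lit 33242365), (nat_lit 21715570), (nat_lit 14024239)] (nat_lit 17602610)) p13_21_0 (nat_lit 3) (nat_lit 273) (nat_lit 274) = true := by decide +kernel
def p13_21_0_274 : pfC (piC [(nat_lit 33242365), (nat_lit 21715570), (nat_lit 14024239)] (nat_lit 17602610)) p13_21_0 (nat_lit 3) (nat_lit 274) (nat_lit 275) = true := by decide +kernel
def p13_21_0_275 : pfC (piC [(nat_lit 33242365), (nat_lit 21715570), (nat_lit 14024239)] (nat_lit 17602610)) p13_21_0 (nat_lit 3) (nat_lit 275) (nat_lit 276) = true := by decide +kernel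
def p13_21_0_276 : pfC (piC [(nat_lit 33242365), (nat_lit 21715570), (nat_lit 14024239)] (nat_lit 17602610)) p13_21_0 (nat_lit 3) (nat_lit 276) (nat_lit 277) = true := by decide +kernel
def p13_21_0_277 : pfC (piC [(nat_lit 33242365), (nat_lit 21715570), (nat_lit 14024239)] (nat_lit 17602610)) p13_21_0 (nat_lit 3) (nat_lit 277) (nat_lit 278) = true := by decide +kernel
def p13_21_0_278 : pfC (piC [(nat_lit 33242365), (nat_lit 21715570), (nat_lit 14024239)] (nat_lit 17602610)) p13_21_0 (nat_lit 3) (nat_lit 278) (nat_lit 279) = true := by decide +kernel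
def p13_21_0_279 : pfC (piC [(nat_lit 33242365), (nat_lit 21715570), (nat_lit 14024239)] (nat_lit 17602610)) p13_21_0 (nat_lit 3) (nat_lit 279) (nat_lit 280) = true := by decide +kernel
def p13_21_0_280 : pfC (piC [(nat_lit 33242365), (nat_lit 21715570), (nat_lit 14024239)] (nat_lit 17602610)) p13_21_0 (nat_lit 3) (nat_lit 280) (nat_lit 281) = true := by decide +kernel
def p13_21_0_281 : pfC (piC [(nat_lit 33242365), (nat_lit 21715570), (nat_lit 14024239)] (nat_lit 17602610)) p13_21_0 (nat_lit 3) (nat_lit 281) (nat_lit 282) = true := by decide +kernel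
def p13_21_0_282 : pfC (piC [(nat_lit 33242365), (nat_lit 21715570), (nat_lit 14024239)] (nat_lit 17602610)) p13_21_0 (nat_lit 3) (nat_lit 282) (nat_lit 283) = true := by decide +kernel
def p13_21_0_283 : pfC (piC [(nat_lit 33242365), (nat_lit 21715570), (nat_lit 14024239)] (nat_lit 17602610)) p13_21_0 (nat_lit 3) (nat_lit 283) (nat_lit 284) = true := by decide +kernel
def p13_21_0_284 : pfC (piC [(nat_lit 33242365), (nat_lit 21715570), (nat_lit 14024239)] (nat_lit 17602610)) p13_21_0 (nat_lit 3) (nat_lit 284) (nat_lit 285) = true := by decide +kernel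
def p13_21_0_285 : pfC (piC [(nat_lit 33242365), (nat_lit 21715570), (nat_lit 14024239)] (nat_lit 17602610)) p13_21_0 (nat_lit 3) (nat_lit 285) (nat_lit 286) = true := by decide +kernel
def p13_21_0_286 : pfC (piC [(nat_lit 33242365), (nat_lit 21715570), (nat_lit 14024239)] (nat_lit 17602610)) p13_21_0 (nat_lit 3) (nat_lit 286) (nat_lit 287) = true := by decide +kernel
def p13_21_0_287 : pfC (piC [(nat_lit 33242365), (nat_lit 21715570), (nat_lit 14024239)] (nat_lit 17602610)) p13_21_0 (nat_lit 3) (nat_lit 287) (nat_lit 288) = true := by decide +kernel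
def p13_21_0_288 : pfC (piC [(nat_lit 33242365), (nat_lit 21715570), (nat_lit 14024239)] (nat_lit 17602610)) p13_21_0 (nat_lit 3) (nat_lit 288) (nat_lit 289) = true := by decide +kernel
def p13_21_0_289 : pfC (piC [(nat_lit 33242365), (nat_lit 21715570), (nat_lit 14024239)] (nat_lit 17602610)) p13_21_0 (nat_lit 3) (nat_lit 289) (nat_lit 290) = true := by decide +kernel
def p13_21_0_290 : pfC (piC [(nat_lit 33242365), (nat_lit 21715570), (nat_lit 14024239)] (nat_lit 17602610)) p13_21_0 (nat_lit 3) (nat_lit 290) (nat_lit 291) = true := by decide +kernel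
def p13_21_0_291 : pfC (piC [(nat_lit 33242365), (nat_lit 21715570), (nat_lit 14024239)] (nat_lit 17602610)) p13_21_0 (nat_lit 3) (nat_lit 291) (nat_lit 292) = true := by decide +kernel
def p13_21_0_292 : pfC (piC [(nat_lit 33242365), (nat_lit 21715570), (nat_lit 14024239)] (nat_lit 17602610)) p13_21_0 (nat_lit 3) (nat_lit 292) (nat_lit 293) = true := by decide +kernel
def p13_21_0_293 : pfC (piC [(nat_lit 33242365), (nat_lit 21715570), (nat_lit 14024239)] (nat_lit 17602610)) p13_21_0 (nat_lit 3) (nat_lit 293) (nat_lit 294) = true := by decide +kernel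
def p13_21_0_294 : pfC (piC [(nat_lit 33242365), (nat_lit 21715570), (nat_lit 14024239)] (nat_lit 17602610)) p13_21_0 (nat_lit 3) (nat_lit 294) (nat_lit 295) = true := by decide +kernel
def p13_21_0_295 : pfC (piC [(nat_lit 33242365), (nat_lit 21715570), (nat_lit 14024239)] (nat_lit 17602610)) p13_21_0 (nat_lit 3) (nat_lit 295) (nat_lit 296) = true := by decide +kernel
def p13_21_0_296 : pfC (piC [(nat_lit 33242365), (nat_lit 21715570), (nat_lit 14024239)] (nat_lit 17602610)) p13_21_0 (nat_lit 3) (nat_lit 296) (nat_lit 297) = true := by decide +kernel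
def p13_21_0_297 : pfC (piC [(nat_lit 33242365), (nat_lit 21715570), (nat_lit 14024239)] (nat_lit 17602610)) p13_21_0 (nat_lit 3) (nat_lit 297) (nat_lit 298) = true := by decide +kernel
def p13_21_0_298 : pfC (piC [(nat_lit 33242365), (nat_lit 21715570), (nat_lit 14024239)] (nat_lit 17602610)) p13_21_0 (nat_lit 3) (nat_lit 298) (nat_lit 299) = true := by decide +kernel
def p13_21_0_299 : pfC (piC [(nat_lit 33242365), (nat_lit 21715570), (nat_lit 14024239)] (nat_lit 17602610)) p13_21_0 (nat_lit 3) (nat_lit 299) (nat_lit 300) = true := by decide +kernel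
def p13_21_0_300 : pfC (piC [(nat_lit 33242365), (nat_lit 21715570), (nat_lit 14024239)] (nat_lit 17602610)) p13_21_0 (nat_lit 3) (nat_lit 300) (nat_lit 301) = true := by decide +kernel
def p13_21_0_301 : pfC (piC [(nat_lit 33242365), (nat_lit 21715570), (nat_lit 14024239)] (nat_lit 17602610)) p13_21_0 (nat_lit 3) (nat_lit 301) (nat_lit 302) = true := by decide +kernel
def p13_21_0_302 : pfC (piC [(nat_lit 33242365), (nat_lit 21715570), (nat_lit 14024239)] (nat_lit 17602610)) p13_21_0 (nat_lit 3) (nat_lit 302) (nat_lit 303) = true := by decide +kernel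
def p13_21_0_303 : pfC (piC [(nat_lit 33242365), (nat_lit 21715570), (nat_lit 14024239)] (nat_lit 17602610)) p13_21_0 (nat_lit 3) (nat_lit 303) (nat_lit 304) = true := by decide +kernel
def p13_21_0_304 : pfC (piC [(nat_lit 33242365), (nat_lit 21715570), (nat_lit 14024239)] (nat_lit 17602610)) p13_21_0 (nat_lit 3) (nat_lit 304) (nat_lit 305) = true := by decide +kernel
def p13_21_0_305 : pfC (piC [(nat_lit 33242365), (nat_lit 21715570), (nat_lit 14024239)] (nat_lit 17602610)) p13_21_0 (nat_lit 3) (nat_lit 305) (nat_lit 306) = true := by decide +kernel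
def p13_21_0_306 : pfC (piC [(nat_lit 33242365), (nat_lit 21715570), (nat_lit 14024239)] (nat_lit 17602610)) p13_21_0 (nat_lit 3) (nat_lit 306) (nat_lit 307) = true := by decide +kernel
def p13_21_0_307 : pfC (piC [(nat_lit 33242365), (nat_lit 21715570), (nat_lit 14024239)] (nat_lit 17602610)) p13_21_0 (nat_lit 3) (nat_lit 307) (nat_lit 308) = true := by decide +kernel
def p13_21_0_308 : pfC (piC [(nat_lit 33242365), (nat_lit 21715570), (nat_lit 14024239)] (nat_lit 17602610)) p13_21_0 (nat_lit 3) (nat_lit 308) (nat_lit 309) = true := by decide +kernel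
def p13_21_0_309 : pfC (piC [(nat_lit 33242365), (nat_lit 21715570), (nat_lit 14024239)] (nat_lit 17602610)) p13_21_0 (nat_lit 3) (nat_lit 309) (nat_lit 310) = true := by decide +kernel
def p13_21_0_310 : pfC (piC [(nat_lit 33242365), (nat_lit 21715570), (nat_lit 14024239)] (nat_lit 17602610)) p13_21_0 (nat_lit 3) (nat_lit 310) (nat_lit 311) = true := by decide +kernel
def p13_21_0_311 : pfC (piC [(nat_lit 33242365), (nat_lit 21715570), (nat_lit 14024239)] (nat_lit 17602610)) p13_21_0 (nat_lit 3) (nat_lit 311) (nat_lit 312) = true := by decide +kernel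
def p13_21_0_312 : pfC (piC [(nat_lit 33242365), (nat_lit 21715570), (nat_lit 14024239)] (nat_lit 17602610)) p13_21_0 (nat_lit 3) (nat_lit 312) (nat_lit 313) = true := by decide +kernel
def p13_21_0_313 : pfC (piC [(nat_lit 33242365), (nat_lit 21715570), (nat_lit 14024239)] (nat_lit 17602610)) p13_21_0 (nat_lit 3) (nat_lit 313) (nat_lit 314) = true := by decide +kernel
def p13_21_0_314 : pfC (piC [(nat_lit 33242365), (nat_lit 21715570), (nat_lit 14024239)] (nat_lit 17602610)) p13_21_0 (nat_lit 3) (nat_lit 314) (nat_lit 315) = true := by decide +kernel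
def p13_21_0_315 : pfC (piC [(nat_lit 33242365), (nat_lit 21715570), (nat_lit 14024239)] (nat_lit 17602610)) p13_21_0 (nat_lit 3) (nat_lit 315) (nat_lit 316) = true := by decide +kernel
def p13_21_0_316 : pfC (piC [(nat_lit 33242365), (nat_lit 21715570), (nat_lit 14024239)] (nat_lit 17602610)) p13_21_0 (nat_lit 3) (nat_lit 316) (nat_lit 317) = true := by decide +kernel
def p13_21_0_317 : pfC (piC [(nat_lit 33242365), (nat_lit 21715570), (nat_lit 14024239)] (nat_lit 17602610)) p13_21_0 (nat_lit 3) (nat_lit 317) (nat_lit 318) = true := by decide +kernel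
def p13_21_0_318 : pfC (piC [(nat_lit 33242365), (nat_lit 21715570), (nat_lit 14024239)] (nat_lit 17602610)) p13_21_0 (nat_lit 3) (nat_lit 318) (nat_lit 319) = true := by decide +kernel
def p13_21_0_319 : pfC (piC [(nat_lit 33242365), (nat_lit 21715570), (nat_lit 14024239)] (nat_lit 17602610)) p13_21_0 (nat_lit 3) (nat_lit 319) (nat_lit 320) = true := by decide +kernel
def p13_21_0_320 : pfC (piC [(nat_lit 33242365), (nat_lit 21715570), (nat_lit 14024239)] (nat_lit 17602610)) p13_21_0 (nat_lit 3) (nat_lit 320) (nat_lit 321) = true := by decide +kernel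
def p13_21_0_321 : pfC (piC [(nat_lit 33242365), (nat_lit 21715570), (nat_lit 14024239)] (nat_lit 17602610)) p13_21_0 (nat_lit 3) (nat_lit 321) (nat_lit 322) = true := by decide +kernel
def p13_21_0_322 : pfC (piC [(nat_lit 33242365), (nat_lit 21715570), (nat_lit 14024239)] (nat_lit 17602610)) p13_21_0 (nat_lit 3) (nat_lit 322) (nat_lit 323) = true := by decide +kernel
def p13_21_0_323 : pfC (piC [(nat_lit 33242365), (nat_lit 21715570), (nat_lit 14024239)] (nat_lit 17602610)) p13_21_0 (nat_lit 3) (nat_lit 323) (nat_lit 324) = true := by decide +kernel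
def p13_21_0_324 : pfC (piC [(nat_lit 33242365), (nat_lit 21715570), (nat_lit 14024239)] (nat_lit 17602610)) p13_21_0 (nat_lit 3) (nat_lit 324) (nat_lit 325) = true := by decide +kernel
def p13_21_0_325 : pfC (piC [(nat_lit 33242365), (nat_lit 21715570), (nat_lit 14024239)] (nat_lit 17602610)) p13_21_0 (nat_lit 3) (nat_lit 325) (nat_lit 326) = true := by decide +kernel
def p13_21_0_326 : pfC (piC [(nat_lit 33242365), (nat_lit 21715570), (nat_lit 14024239)] (nat_lit 17602610)) p13_21_0 (nat_lit 3) (nat_lit 326) (nat_lit 327) = true := by decide +kernel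
def p13_21_0_327 : pfC (piC [(nat_lit 33242365), (nat_lit 21715570), (nat_lit 14024239)] (nat_lit 17602610)) p13_21_0 (nat_lit 3) (nat_lit 327) (nat_lit 328) = true := by decide +kernel
def p13_21_0_328 : pfC (piC [(nat_lit 33242365), (nat_lit 21715570), (nat_lit 14024239)] (nat_lit 17602610)) p13_21_0 (nat_lit 3) (nat_lit 328) (nat_lit 329) = true := by decide +kernel
def p13_21_0_329 : pfC (piC [(nat_lit 33242365), (nat_lit 21715570), (nat_lit 14024239)] (nat_lit 17602610)) p13_21_0 (nat_lit 3) (nat_lit 329) (nat_lit 330) = true := by decide +kernel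
theorem p13_21_0_T : PfS (PiF n13_21.reverse (nat_lit 17602610)) p13_21_0 (nat_lit 3) [] 0 :=
  pftab_of (los := [(nat_lit 33242365), (nat_lit 21715570), (nat_lit 14024239)]) (by decide +kernel) (hi := (nat_lit 330)) (PfP.trans (PfP.trans (PfP.trans (PfP.trans (PfP.trans (PfP.trans (PfP.trans (PfP.trans (PfP.trans (PfP.trans (PfP.trans (PfP.trans (PfP.trans (PfP.trans (PfP.trans (PfP.trans (PfP.trans (PfP.trans (PfP.trans (PfP.trans (PfP.trans (PfP.trans (PfP.trans (PfP.trans (PfP.trans (PfP.trans (PfP.trans (PfP.trans (PfP.trans (PfP.trans (PfP.trans (PfP.trans (PfP.trans (PfP.trans (PfP.trans (PfP.trans (PfP.trans (PfP.trans (PfP.trans (PfP.trans (PfP.trans (PfP.trans (PfP.trans (PfP.trans (PfP.trans (PfP.trans (PfP.trans (PfP.trans (PfP.trans (PfP.trans (PfP.trans (PfP.trans (PfP.trans (PfP.trans (PfP.trans (PfP.trans (PfP.trans (PfP.trans (PfP.trans (PfP.trans (PfP.trans (PfP.trans (PfP.trans (PfP.trans (PfP.trans (PfP.trans (PfP.trans (PfP.trans (PfP.trans (PfP.trans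 (PfP.trans (PfP.trans (PfP.trans (PfP.trans (PfP.trans (PfP.trans (PfP.trans (PfP.trans (PfP.trans (PfP.trans (PfP.trans (PfP.trans (PfP.trans (PfP.trans (PfP.trans (PfP.trans (PfP.trans (PfP.trans (PfP.trans (PfP.trans (PfP.trans (PfP.trans (PfP.trans (PfP.trans (PfP.trans (PfP.trans (PfP.trans (PfP.trans (PfP.trans (PfP.trans (PfP.trans (PfP.trans (PfP.trans (PfP.trans (PfP.trans (PfP.trans (PfP.trans (PfP.trans (PfP.trans
 (PfP.trans (PfP.trans (PfP.trans (PfP.trans (PfP.trans (PfP.trans (PfP.trans (PfP.trans (PfP.trans (PfP.trans (PfP.trans (PfP.trans (PfP.trans (PfP.trans (PfP.trans (PfP.trans (PfP.trans (PfP.trans (PfP.trans (PfP.trans (PfP.trans (PfP.trans (PfP.trans (PfP.trans (PfP.trans (PfP.trans (PfP.trans (PfP.trans (PfP.trans (PfP.trans (PfP.trans (PfP.trans (PfP.trans (PfP.trans (PfP.trans (PfP.trans (PfP.trans (PfP.trans (PfP.trans (PfP.trans (PfP.trans (PfP.trans (PfP.trans (PfP.trans (PfP.trans (PfP.trans (PfP.trans (PfP.trans (PfP.trans (PfP.trans (PfP.trans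 (PfP.trans (PfP.trans (PfP.trans (PfP.trans (PfP.trans (PfP.trans (PfP.trans (PfP.trans (PfP.trans (PfP.trans (PfP.trans (PfP.trans (PfP.trans (PfP.trans (PfP.trans (PfP.trans (PfP.trans (PfP.trans (PfP.trans (PfP.trans (PfP.trans (PfP.trans (PfP.trans (PfP.trans (PfP.trans (PfP.trans (PfP.trans (PfP.trans (PfP.trans (PfP.trans (PfP.trans (PfP.trans (PfP.trans (PfP.trans (PfP.trans (PfP.trans (PfP.trans (PfP.trans (PfP.trans (PfP.trans (PfP.trans (PfP.trans (PfP.trans (PfP.trans (PfP.trans (PfP.trans (PfP.trans (PfP.trans (PfP.trans (PfP.trans (PfP.trans (PfP.trans (PfP.trans (PfP.trans (PfP.trans (PfP.trans (PfP.trans (PfP.trans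
 (PfP.trans (PfP.trans (PfP.trans (PfP.trans (PfP.trans (PfP.trans (PfP.trans (PfP.trans (PfP.trans (PfP.trans (PfP.trans (PfP.trans (PfP.trans (PfP.trans (PfP.trans (PfP.trans (PfP.trans (PfP.trans (PfP.trans (PfP.trans (PfP.trans (PfP.trans (PfP.trans (PfP.trans (PfP.trans (PfP.trans (PfP.trans (PfP.trans (PfP.trans (PfP.trans (PfP.trans (PfP.trans (PfP.trans (PfP.trans (PfP.trans (PfP.trans (PfP.trans (PfP.trans (PfP.trans (PfP.trans (PfP.trans (PfP.trans (PfP.trans (PfP.trans (PfP.trans (PfP.trans (PfP.trans (PfP.trans (PfP.trans (PfP.trans (PfP.trans (PfP.trans (PfP.trans (PfP.trans (PfP.trans (PfP.trans (PfP.trans (PfP.trans (PfP.trans (PfP.trans (PfP.trans (PfP.trans (PfP.trans (PfP.trans (PfP.trans (PfP.trans (PfP.trans (PfP.trans (PfP.trans (PfP.trans (PfP.trans (PfP.trans (PfP.trans (PfP.trans (PfP.trans (PfP.trans (PfP.trans (PfP.trans (PfP.trans (PfP.trans (PfP.trans (PfP.trans (PfP.trans (PfP.trans (PfP.trans (PfP.trans (PfP.trans (PfP.trans (PfP.trans (PfP.trans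 (PfP.trans (PfP.trans (PfP.trans (PfP.trans (PfP.trans (PfP.trans (PfP.trans (PfP.trans (PfP.trans (PfP.trans (PfP.trans (PfP.trans (PfP.trans (PfP.trans (PfP.trans (PfP.trans (PfP.trans (PfP.trans (PfP.trans
 (PfP.trans (PfP.trans (pfC_sound p13_21_0_0) (pfC_sound p13_21_0_1)) (pfC_sound p13_21_0_2)) (pfC_sound p13_21_0_3)) (pfC_sound p13_21_0_4)) (pfC_sound p13_21_0_5)) (pfC_sound p13_21_0_6)) (pfC_sound p13_21_0_7)) (pfC_sound p13_21_0_8)) (pfC_sound p13_21_0_9)) (pfC_sound p13_21_0_10)) (pfC_sound p13_21_0_11)) (pfC_sound p13_21_0_12)) (pfC_sound p13_21_0_13)) (pfC_sound p13_21_0_14)) (pfC_sound p13_21_0_15)) (pfC_sound p13_21_0_16)) (pfC_sound p13_21_0_17)) (pfC_sound p13_21_0_18)) (pfC_sound p13_21_0_19)) (pfC_sound p13_21_0_20)) (pfC_sound p13_21_0_21)) (pfC_sound p13_21_0_22)) (pfC_sound p13_21_0_23)) (pfC_sound p13_21_0_24)) (pfC_sound p13_21_0_25)) (pfC_sound p13_21_0_26)) (pfC_sound p13_21_0_27)) (pfC_sound p13_21_0_28)) (pfC_sound p13_21_0_29)) (pfC_sound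 p13_21_0_30)) (pfC_sound p13_21_0_31)) (pfC_sound p13_21_0_32)) (pfC_sound p13_21_0_33)) (pfC_sound p13_21_0_34)) (pfC_sound p13_21_0_35)) (pfC_sound p13_21_0_36)) (pfC_sound p13_21_0_37)) (pfC_sound p13_21_0_38)) (pfC_sound p13_21_0_39)) (pfC_sound p13_21_0_40)) (pfC_sound p13_21_0_41)) (pfC_sound p13_21_0_42)) (pfC_sound p13_21_0_43)) (pfC_sound p13_21_0_44)) (pfC_sound p13_21_0_45)) (pfC_sound p13_21_0_46)) (pfC_sound
 p13_21_0_47)) (pfC_sound p13_21_0_48)) (pfC_sound p13_21_0_49)) (pfC_sound p13_21_0_50)) (pfC_sound p13_21_0_51)) (pfC_sound p13_21_0_52)) (pfC_sound p13_21_0_53)) (pfC_sound p13_21_0_54)) (pfC_sound p13_21_0_55)) (pfC_sound p13_21_0_56)) (pfC_sound p13_21_0_57)) (pfC_sound p13_21_0_58)) (pfC_sound p13_21_0_59)) (pfC_sound p13_21_0_60)) (pfC_sound p13_21_0_61)) (pfC_sound p13_21_0_62)) (pfC_sound p13_21_0_63)) (pfC_sound p13_21_0_64)) (pfC_sound p13_21_0_65)) (pfC_sound p13_21_0_66)) (pfC_sound p13_21_0_67)) (pfC_sound p13_21_0_68)) (pfC_sound p13_21_0_69))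 (pfC_sound p13_21_0_70)) (pfC_sound p13_21_0_71)) (pfC_sound p13_21_0_72)) (pfC_sound p13_21_0_73)) (pfC_sound p13_21_0_74)) (pfC_sound p13_21_0_75)) (pfC_sound p13_21_0_76)) (pfC_sound p13_21_0_77)) (pfC_sound p13_21_0_78)) (pfC_sound p13_21_0_79)) (pfC_sound p13_21_0_80)) (pfC_sound p13_21_0_81)) (pfC_sound p13_21_0_82)) (pfC_sound p13_21_0_83)) (pfC_sound p13_21_0_84)) (pfC_sound p13_21_0_85)) (pfC_sound p13_21_0_86)) (pfC_sound p13_21_0_87)) (pfC_sound p13_21_0_88)) (pfC_sound p13_21_0_89)) (pfC_sound p13_21_0_90)) (pfC_sound p13_21_0_91)) (pfC_sound p13_21_0_92)) (pfC_sound p13_21_0_93)) (pfC_sound p13_21_0_94)) (pfC_sound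
 p13_21_0_95)) (pfC_sound p13_21_0_96)) (pfC_sound p13_21_0_97)) (pfC_sound p13_21_0_98)) (pfC_sound p13_21_0_99)) (pfC_sound p13_21_0_100)) (pfC_sound p13_21_0_101)) (pfC_sound p13_21_0_102)) (pfC_sound p13_21_0_103)) (pfC_sound p13_21_0_104)) (pfC_sound p13_21_0_105)) (pfC_sound p13_21_0_106)) (pfC_sound p13_21_0_107)) (pfC_sound p13_21_0_108)) (pfC_sound p13_21_0_109)) (pfC_sound p13_21_0_110)) (pfC_sound p13_21_0_111)) (pfC_sound p13_21_0_112)) (pfC_sound p13_21_0_113)) (pfC_sound p13_21_0_114)) (pfC_sound p13_21_0_115)) (pfC_sound p13_21_0_116)) (pfC_sound p13_21_0_117)) (pfC_sound p13_21_0_118)) (pfC_sound p13_21_0_119)) (pfC_sound p13_21_0_120)) (pfC_sound p13_21_0_121)) (pfC_sound p13_21_0_122)) (pfC_sound p13_21_0_123)) (pfC_sound p13_21_0_124)) (pfC_sound p13_21_0_125)) (pfC_sound p13_21_0_126)) (pfC_sound p13_21_0_127)) (pfC_sound p13_21_0_128)) (pfC_sound p13_21_0_129)) (pfC_sound p13_21_0_130)) (pfC_sound p13_21_0_131)) (pfC_sound p13_21_0_132)) (pfC_sound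 p13_21_0_133)) (pfC_sound p13_21_0_134)) (pfC_sound p13_21_0_135)) (pfC_sound p13_21_0_136)) (pfC_sound p13_21_0_137)) (pfC_sound p13_21_0_138)) (pfC_sound p13_21_0_139)) (pfC_sound p13_21_0_140)) (pfC_sound
 p13_21_0_141)) (pfC_sound p13_21_0_142)) (pfC_sound p13_21_0_143)) (pfC_sound p13_21_0_144)) (pfC_sound p13_21_0_145)) (pfC_sound p13_21_0_146)) (pfC_sound p13_21_0_147)) (pfC_sound p13_21_0_148)) (pfC_sound p13_21_0_149)) (pfC_sound p13_21_0_150)) (pfC_sound p13_21_0_151)) (pfC_sound p13_21_0_152)) (pfC_sound p13_21_0_153)) (pfC_sound p13_21_0_154)) (pfC_sound p13_21_0_155)) (pfC_sound p13_21_0_156)) (pfC_sound p13_21_0_157)) (pfC_sound p13_21_0_158)) (pfC_sound p13_21_0_159)) (pfC_sound p13_21_0_160)) (pfC_sound p13_21_0_161)) (pfC_sound p13_21_0_162)) (pfC_sound p13_21_0_163)) (pfC_sound p13_21_0_164)) (pfC_sound p13_21_0_165)) (pfC_sound p13_21_0_166)) (pfC_sound p13_21_0_167)) (pfC_sound p13_21_0_168)) (pfC_sound p13_21_0_169)) (pfC_sound p13_21_0_170)) (pfC_sound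 p13_21_0_171)) (pfC_sound p13_21_0_172)) (pfC_sound p13_21_0_173)) (pfC_sound p13_21_0_174)) (pfC_sound p13_21_0_175)) (pfC_sound p13_21_0_176)) (pfC_sound p13_21_0_177)) (pfC_sound p13_21_0_178)) (pfC_sound p13_21_0_179)) (pfC_sound p13_21_0_180)) (pfC_sound p13_21_0_181)) (pfC_sound p13_21_0_182)) (pfC_sound p13_21_0_183)) (pfC_sound p13_21_0_184)) (pfC_sound p13_21_0_185)) (pfC_sound p13_21_0_186)) (pfC_sound
 p13_21_0_187)) (pfC_sound p13_21_0_188)) (pfC_sound p13_21_0_189)) (pfC_sound p13_21_0_190)) (pfC_sound p13_21_0_191)) (pfC_sound p13_21_0_192)) (pfC_sound p13_21_0_193)) (pfC_sound p13_21_0_194)) (pfC_sound p13_21_0_195)) (pfC_sound p13_21_0_196)) (pfC_sound p13_21_0_197)) (pfC_sound p13_21_0_198)) (pfC_sound p13_21_0_199)) (pfC_sound p13_21_0_200)) (pfC_sound p13_21_0_201)) (pfC_sound p13_21_0_202)) (pfC_sound p13_21_0_203)) (pfC_sound p13_21_0_204)) (pfC_sound p13_21_0_205)) (pfC_sound p13_21_0_206)) (pfC_sound p13_21_0_207)) (pfC_sound p13_21_0_208)) (pfC_sound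 p13_21_0_209)) (pfC_sound p13_21_0_210)) (pfC_sound p13_21_0_211)) (pfC_sound p13_21_0_212)) (pfC_sound p13_21_0_213)) (pfC_sound p13_21_0_214)) (pfC_sound p13_21_0_215)) (pfC_sound p13_21_0_216)) (pfC_sound p13_21_0_217)) (pfC_sound p13_21_0_218)) (pfC_sound p13_21_0_219)) (pfC_sound p13_21_0_220)) (pfC_sound p13_21_0_221)) (pfC_sound p13_21_0_222)) (pfC_sound p13_21_0_223)) (pfC_sound p13_21_0_224)) (pfC_sound p13_21_0_225)) (pfC_sound p13_21_0_226)) (pfC_sound p13_21_0_227)) (pfC_sound p13_21_0_228)) (pfC_sound p13_21_0_229)) (pfC_sound p13_21_0_230)) (pfC_sound p13_21_0_231)) (pfC_sound p13_21_0_232)) (pfC_sound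
 p13_21_0_233)) (pfC_sound p13_21_0_234)) (pfC_sound p13_21_0_235)) (pfC_sound p13_21_0_236)) (pfC_sound p13_21_0_237)) (pfC_sound p13_21_0_238)) (pfC_sound p13_21_0_239)) (pfC_sound p13_21_0_240)) (pfC_sound p13_21_0_241)) (pfC_sound p13_21_0_242)) (pfC_sound p13_21_0_243)) (pfC_sound p13_21_0_244)) (pfC_sound p13_21_0_245)) (pfC_sound p13_21_0_246)) (pfC_sound p13_21_0_247)) (pfC_sound p13_21_0_248)) (pfC_sound p13_21_0_249)) (pfC_sound p13_21_0_250)) (pfC_sound p13_21_0_251)) (pfC_sound p13_21_0_252)) (pfC_sound p13_21_0_253)) (pfC_sound p13_21_0_254)) (pfC_sound p13_21_0_255)) (pfC_sound p13_21_0_256)) (pfC_sound p13_21_0_257)) (pfC_sound p13_21_0_258)) (pfC_sound p13_21_0_259)) (pfC_sound p13_21_0_260)) (pfC_sound p13_21_0_261)) (pfC_sound p13_21_0_262)) (pfC_sound p13_21_0_263)) (pfC_sound p13_21_0_264)) (pfC_sound p13_21_0_265)) (pfC_sound p13_21_0_266)) (pfC_sound p13_21_0_267)) (pfC_sound p13_21_0_268)) (pfC_sound p13_21_0_269)) (pfC_sound p13_21_0_270)) (pfC_sound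 p13_21_0_271)) (pfC_sound p13_21_0_272)) (pfC_sound p13_21_0_273)) (pfC_sound p13_21_0_274)) (pfC_sound p13_21_0_275)) (pfC_sound p13_21_0_276)) (pfC_sound p13_21_0_277)) (pfC_sound p13_21_0_278)) (pfC_sound
 p13_21_0_279)) (pfC_sound p13_21_0_280)) (pfC_sound p13_21_0_281)) (pfC_sound p13_21_0_282)) (pfC_sound p13_21_0_283)) (pfC_sound p13_21_0_284)) (pfC_sound p13_21_0_285)) (pfC_sound p13_21_0_286)) (pfC_sound p13_21_0_287)) (pfC_sound p13_21_0_288)) (pfC_sound p13_21_0_289)) (pfC_sound p13_21_0_290)) (pfC_sound p13_21_0_291)) (pfC_sound p13_21_0_292)) (pfC_sound p13_21_0_293)) (pfC_sound p13_21_0_294)) (pfC_sound p13_21_0_295)) (pfC_sound p13_21_0_296)) (pfC_sound p13_21_0_297)) (pfC_sound p13_21_0_298)) (pfC_sound p13_21_0_299)) (pfC_sound p13_21_0_300)) (pfC_sound p13_21_0_301)) (pfC_sound p13_21_0_302)) (pfC_sound p13_21_0_303)) (pfC_sound p13_21_0_304)) (pfC_sound p13_21_0_305)) (pfC_sound p13_21_0_306)) (pfC_sound p13_21_0_307)) (pfC_sound p13_21_0_308)) (pfC_sound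 p13_21_0_309)) (pfC_sound p13_21_0_310)) (pfC_sound p13_21_0_311)) (pfC_sound p13_21_0_312)) (pfC_sound p13_21_0_313)) (pfC_sound p13_21_0_314)) (pfC_sound p13_21_0_315)) (pfC_sound p13_21_0_316)) (pfC_sound p13_21_0_317)) (pfC_sound p13_21_0_318)) (pfC_sound p13_21_0_319)) (pfC_sound p13_21_0_320)) (pfC_sound p13_21_0_321)) (pfC_sound p13_21_0_322)) (pfC_sound p13_21_0_323)) (pfC_sound p13_21_0_324)) (pfC_sound
 p13_21_0_325)) (pfC_sound p13_21_0_326)) (pfC_sound p13_21_0_327)) (pfC_sound p13_21_0_328)) (pfC_sound p13_21_0_329)) (by decide +kernel)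

def z13_21_0 : zOK yB13_21 (nat_lit 0) (nat_lit 0) (nat_lit 400) (nat_lit 17602610) (nat_lit 11711831) = true := by decide +kernel
def g13_21_0 : gOK yB13_21.x P13_21 (nat_lit 1357) (q13_21 :: r13_21) (nat_lit 0) (nat_lit 0) (nat_lit 1) (nat_lit 400) (nat_lit 0) (nat_lit 11000000) (nat_lit 12712500) (nat_lit 12712500) [(nat_lit 800), (nat_lit 1600)] = true := by decide +kernel
def v13_21_0 : ivC P13_21 s13_21 w13_21 n13_21 (nat_lit 3) (nat_lit 5240) (nat_lit 0) (nat_lit 0) f192_0_0 f200_0_0 (nat_lit 1) (nat_lit 400) f192_0_400 f200_0_400 (nat_lit 17602610) (nat_lit 11711831) p13_21_0 = true := by decide +kernel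
def p13_21_1 : PF := (PF.cons (PF.cons (PF.cons (PF.leaf (nat_lit 1872651) (nat_lit 8311577) (nat_lit 58797235) (nat_lit 8311577) [(nat_lit 0), (nat_lit 0), (nat_lit 0)]) (PF.cons (PF.leaf (nat_lit 2172205) (nat_lit 571085) (nat_lit 58160719) (nat_lit 8377008) [(nat_lit 571085), (nat_lit 0), (nat_lit 0)]) (PF.cons (PF.leaf (nat_lit 2524144) (nat_lit 622013) (nat_lit 57421218) (nat_lit 8443568) [(nat_lit 622013), (nat_lit 0), (nat_lit 0)]) (PF.cons (PF.leaf (nat_lit 2918440) (nat_lit 666909) (nat_lit 56601494) (nat_lit 8506591) [(nat_lit 666909), (nat_lit 0), (nat_lit 0)]) (PF.cons (PF.leaf (nat_lit 3347830) (nat_lit 706836) (nat_lit 55718505) (nat_lit 8562962) [(nat_lit 706836), (nat_lit 0), (nat_lit 0)]) (PF.cons (PF.leaf (nat_lit 3806386) (nat_lit 742455) (nat_lit 54785893) (nat_lit 8610641) [(nat_lit 742455), (nat_lit 0), (nat_lit 0)]) (PF.cons (PF.leaf (nat_lit 4289024) (nat_lit 774224) (nat_lit 53815093) (nat_lit 8648374) [(nat_lit 774224), (nat_lit 0), (nat_lit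 0)]) (PF.cons (PF.leaf (nat_lit 4791254) (nat_lit 802487) (nat_lit 52815901) (nat_lit 8675501) [(nat_lit 802487), (nat_lit 0), (nat_lit 0)]) (PF.cons (PF.leaf (nat_lit 5309115) (nat_lit 827527) (nat_lit 51796794) (nat_lit 8691796)
 [(nat_lit 827527), (nat_lit 0), (nat_lit 0)]) (PF.cons (PF.leaf (nat_lit 5839055) (nat_lit 849591) (nat_lit 50765129) (nat_lit 8697361) [(nat_lit 849591), (nat_lit 0), (nat_lit 0)]) (PF.cons (PF.leaf (nat_lit 6377886) (nat_lit 868899) (nat_lit 49727282) (nat_lit 8692534) [(nat_lit 868899), (nat_lit 0), (nat_lit 0)]) (PF.cons (PF.leaf (nat_lit 6922817) (nat_lit 885658) (nat_lit 48688756) (nat_lit 8677818) [(nat_lit 885658), (nat_lit 0), (nat_lit 0)]) (PF.cons (PF.leaf (nat_lit 7471344) (nat_lit 900059) (nat_lit 47654270) (nat_lit 8653828) [(nat_lit 900059), (nat_lit 0), (nat_lit 0)]) (PF.cons (PF.leaf (nat_lit 8021299) (nat_lit 912286) (nat_lit 46627837) (nat_lit 8621249) [(nat_lit 912286), (nat_lit 0), (nat_lit 0)]) (PF.cons (PF.leaf (nat_lit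 8570759) (nat_lit 922512) (nat_lit 45612840) (nat_lit 8580799) [(nat_lit 922512), (nat_lit 0), (nat_lit 0)]) (PF.cons (PF.leaf (nat_lit 9118077) (nat_lit 930900) (nat_lit 44612092) (nat_lit 8533211) [(nat_lit 930900), (nat_lit 0), (nat_lit 0)]) (PF.cons PF.nil (PF.cons PF.nil PF.nil)))))))))))))))))) (PF.cons (PF.cons (PF.leaf (nat_lit 2801476) (nat_lit 2469443) (nat_lit 56125575) (nat_lit 8513793) [(nat_lit 0), (nat_lit 2469443), (nat_lit
 0)]) (PF.cons (PF.leaf (nat_lit 3180855) (nat_lit 684857) (nat_lit 55329786) (nat_lit 8560514) [(nat_lit 684857), (nat_lit 2533655), (nat_lit 0)]) (PF.cons (PF.leaf (nat_lit 3597360) (nat_lit 722631) (nat_lit 54468143) (nat_lit 8601437) [(nat_lit 722631), (nat_lit 2593968), (nat_lit 0)]) (PF.cons (PF.leaf (nat_lit 4043720) (nat_lit 756081) (nat_lit 53556768) (nat_lit 8634581) [(nat_lit 756081), (nat_lit 2649218), (nat_lit 0)]) (PF.cons (PF.leaf (nat_lit 4514305) (nat_lit 785744) (nat_lit 52608213) (nat_lit 8658769) [(nat_lit 785744),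 (nat_lit 2698851), (nat_lit 0)]) (PF.cons (PF.leaf (nat_lit 5004404) (nat_lit 812004) (nat_lit 51632726) (nat_lit 8673396) [(nat_lit 812004), (nat_lit 2742666), (nat_lit 0)]) (PF.cons (PF.leaf (nat_lit 5509933) (nat_lit 835165) (nat_lit 50638884) (nat_lit 8678267) [(nat_lit 835165), (nat_lit 2780670), (nat_lit 0)]) (PF.cons (PF.leaf (nat_lit 6027347) (nat_lit 855480) (nat_lit 49633958) (nat_lit 8673486) [(nat_lit 855480), (nat_lit 2813006), (nat_lit 0)]) (PF.cons (PF.leaf (nat_lit 6553499) (nat_lit 873175) (nat_lit 48624134) (nat_lit 8659372) [(nat_lit 873175), (nat_lit 2839902), (nat_lit 0)]) (PF.cons (PF.leaf (nat_lit 7085648) (nat_lit 888455)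
 (nat_lit 47614682) (nat_lit 8636394) [(nat_lit 888455), (nat_lit 2861640), (nat_lit 0)]) (PF.cons (PF.leaf (nat_lit 7621367) (nat_lit 901509) (nat_lit 46610069) (nat_lit 8605117) [(nat_lit 901509), (nat_lit 2878535), (nat_lit 0)]) (PF.cons (PF.leaf (nat_lit 8158574) (nat_lit 912515) (nat_lit 45614059) (nat_lit 8566168) [(nat_lit 912515), (nat_lit 2890919), (nat_lit 0)]) (PF.cons (PF.leaf (nat_lit 8695406) (nat_lit 921639) (nat_lit 44629798) (nat_lit 8520206) [(nat_lit 921639), (nat_lit 2899130), (nat_lit 0)]) (PF.cons (PF.leaf (nat_lit 9230292) (nat_lit 929040) (nat_lit 43659886) (nat_lit 8467896) [(nat_lit 929040), (nat_lit 2903504), (nat_lit 0)]) (PF.cons PF.nil (PF.cons PF.nil PF.nil)))))))))))))))) (PF.cons (PF.cons (PF.leaf (nat_lit 3845899) (nat_lit 2637077) (nat_lit 53211590) (nat_lit 8623066) [(nat_lit 0), (nat_lit 2637077), (nat_lit 0)]) (PF.cons (PF.leaf (nat_lit 4277128) (nat_lit 766552) (nat_lit 52330661) (nat_lit 8643323) [(nat_lit 766552), (nat_lit 2684137),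 (nat_lit 0)]) (PF.cons (PF.leaf (nat_lit 4733871) (nat_lit 794561) (nat_lit 51411078) (nat_lit 8655576) [(nat_lit 794561), (nat_lit 2726517), (nat_lit 0)]) (PF.cons (PF.leaf (nat_lit 5210662) (nat_lit 819178)
 (nat_lit 50464324) (nat_lit 8659239) [(nat_lit 819178), (nat_lit 2763856), (nat_lit 0)]) (PF.cons (PF.leaf (nat_lit 5703147) (nat_lit 840757) (nat_lit 49499531) (nat_lit 8654127) [(nat_lit 840757), (nat_lit 2796061), (nat_lit 0)]) (PF.cons (PF.leaf (nat_lit 6207620) (nat_lit 859579) (nat_lit 48524175) (nat_lit 8640338) [(nat_lit 859579), (nat_lit 2823201), (nat_lit 0)]) (PF.cons (PF.leaf (nat_lit 6720923) (nat_lit 875882) (nat_lit 47544457) (nat_lit 8618168) [(nat_lit 875882), (nat_lit 2845446), (nat_lit 0)]) (PF.cons (PF.leaf (nat_lit 7240312) (nat_lit 889877) (nat_lit 46565560) (nat_lit 8588048) [(nat_lit 889877), (nat_lit 2863031), (nat_lit 0)]) (PF.cons (PF.leaf (nat_lit 7763383) (nat_lit 901755) (nat_lit 45591811) (nat_lit 8550501) [(nat_lit 901755), (nat_lit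 2876228), (nat_lit 0)]) (PF.cons (PF.leaf (nat_lit 8288090) (nat_lit 911692) (nat_lit 44626817) (nat_lit 8506099) [(nat_lit 911692), (nat_lit 2885330), (nat_lit 0)]) (PF.cons (PF.leaf (nat_lit 8812629) (nat_lit 919852) (nat_lit 43673562) (nat_lit 8455445) [(nat_lit 919852), (nat_lit 2890640), (nat_lit 0)]) (PF.cons (PF.leaf (nat_lit 9335458) (nat_lit 926386) (nat_lit 42734494) (nat_lit 8399144) [(nat_lit 926386),
 (nat_lit 2892462), (nat_lit 0)]) (PF.cons PF.nil (PF.cons PF.nil PF.nil)))))))))))))) (PF.cons (PF.cons (PF.leaf (nat_lit 4950021) (nat_lit 2748243) (nat_lit 50223964) (nat_lit 8640119) [(nat_lit 0), (nat_lit 2748243), (nat_lit 0)]) (PF.cons (PF.leaf (nat_lit 5411813) (nat_lit 824135) (nat_lit 49311136) (nat_lit 8634275) [(nat_lit 824135), (nat_lit 2779755), (nat_lit 0)]) (PF.cons (PF.leaf (nat_lit 5890269) (nat_lit 844435) (nat_lit 48379125) (nat_lit 8620530) [(nat_lit 844435), (nat_lit 2806762), (nat_lit 0)]) (PF.cons (PF.leaf (nat_lit 6381246) (nat_lit 862015)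 (nat_lit 47436025) (nat_lit 8598972) [(nat_lit 862015), (nat_lit 2829256), (nat_lit 0)]) (PF.cons (PF.leaf (nat_lit 6881410) (nat_lit 877140) (nat_lit 46488318) (nat_lit 8569876) [(nat_lit 877140), (nat_lit 2847352), (nat_lit 0)]) (PF.cons (PF.leaf (nat_lit 7387947) (nat_lit 890036) (nat_lit 45541275) (nat_lit 8533641) [(nat_lit 890036), (nat_lit 2861238), (nat_lit 0)]) (PF.cons (PF.leaf (nat_lit 7898434) (nat_lit 900900) (nat_lit 44599218) (nat_lit 8490747) [(nat_lit 900900), (nat_lit 2871147), (nat_lit 0)]) (PF.cons (PF.leaf (nat_lit 8410824) (nat_lit 909912) (nat_lit 43665691) (nat_lit 8441722) [(nat_lit 909912),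
 (nat_lit 2877336), (nat_lit 0)]) (PF.cons (PF.leaf (nat_lit 8923328) (nat_lit 917233) (nat_lit 42743594) (nat_lit 8387115) [(nat_lit 917233), (nat_lit 2880077), (nat_lit 0)]) (PF.cons (PF.leaf (nat_lit 9434445) (nat_lit 923013) (nat_lit 41835281) (nat_lit 8327482) [(nat_lit 923013), (nat_lit 2879642), (nat_lit 0)]) (PF.cons (PF.leaf (nat_lit 9942853) (nat_lit 927389) (nat_lit 40942642) (nat_lit 8263370) [(nat_lit 927389), (nat_lit 2876300), (nat_lit 0)]) (PF.cons PF.nil PF.nil)))))))))))) (PF.cons (PF.cons (PF.leaf (nat_lit 6073103) (nat_lit 2813265) (nat_lit 47277285) (nat_lit 8578463) [(nat_lit 0), (nat_lit 2813265), (nat_lit 0)]) (PF.cons (PF.leaf (nat_lit 6549634) (nat_lit 862879) (nat_lit 46369196) (nat_lit 8550299) [(nat_lit 862879), (nat_lit 2831609), (nat_lit 0)]) (PF.cons (PF.leaf (nat_lit 7036198) (nat_lit 877042) (nat_lit 45455368) (nat_lit 8515326) [(nat_lit 877042), (nat_lit 2846008), (nat_lit 0)]) (PF.cons (PF.leaf (nat_lit 7529674) (nat_lit 889021) (nat_lit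 44541405) (nat_lit 8473918) [(nat_lit 889021), (nat_lit 2856605), (nat_lit 0)]) (PF.cons (PF.leaf (nat_lit 8027554) (nat_lit 899030) (nat_lit 43631777) (nat_lit 8426523) [(nat_lit 899030), (nat_lit 2863597),
 (nat_lit 0)]) (PF.cons (PF.leaf (nat_lit 8527722) (nat_lit 907253) (nat_lit 42730081) (nat_lit 8373628) [(nat_lit 907253), (nat_lit 2867208), (nat_lit 0)]) (PF.cons (PF.leaf (nat_lit 9028389) (nat_lit 913855) (nat_lit 41839216) (nat_lit 8315741) [(nat_lit 913855), (nat_lit 2867680), (nat_lit 0)]) (PF.cons (PF.leaf (nat_lit 9528025) (nat_lit 918986) (nat_lit 40961507) (nat_lit 8253370) [(nat_lit 918986), (nat_lit 2865257), (nat_lit 0)]) (PF.cons (PF.leaf (nat_lit 10025343) (nat_lit 922782) (nat_lit 40098803) (nat_lit 8187018) [(nat_lit 922782), (nat_lit 2860183), (nat_lit 0)]) (PF.cons PF.nil PF.nil)))))))))) (PF.cons (PF.cons (PF.leaf (nat_lit 7186730) (nat_lit 2841753) (nat_lit 44444823) (nat_lit 8455223) [(nat_lit 0), (nat_lit 2841753), (nat_lit 0)]) (PF.cons (PF.leaf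 (nat_lit 7666648) (nat_lit 886903) (nat_lit 43565207) (nat_lit 8409521) [(nat_lit 886903), (nat_lit 2849436), (nat_lit 0)]) (PF.cons (PF.leaf (nat_lit 8151751) (nat_lit 896211) (nat_lit 42688742) (nat_lit 8358404) [(nat_lit 896211), (nat_lit 2853848), (nat_lit 0)]) (PF.cons (PF.leaf (nat_lit 8639697) (nat_lit 903779) (nat_lit 41819218) (nat_lit 8302331) [(nat_lit 903779), (nat_lit 2855184), (nat_lit 0)]) (PF.cons
 (PF.leaf (nat_lit 9128622) (nat_lit 909778) (nat_lit 40959630) (nat_lit 8241773) [(nat_lit 909778), (nat_lit 2853658), (nat_lit 0)]) (PF.cons (PF.leaf (nat_lit 9616975) (nat_lit 914361) (nat_lit 40112347) (nat_lit 8177204) [(nat_lit 914361), (nat_lit 2849490), (nat_lit 0)]) (PF.cons (PF.leaf (nat_lit 10103426) (nat_lit 917663) (nat_lit 39279230) (nat_lit 8109086) [(nat_lit 917663), (nat_lit 2842902), (nat_lit 0)]) (PF.cons PF.nil PF.nil)))))))) (PF.cons (PF.cons (PF.leaf (nat_lit 8272190) (nat_lit 2842134) (nat_lit 41769129) (nat_lit 8286877) [(nat_lit 0), (nat_lit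 2842134), (nat_lit 0)]) (PF.cons (PF.leaf (nat_lit 8747668) (nat_lit 899540) (nat_lit 40932163) (nat_lit 8228266) [(nat_lit 899540), (nat_lit 2841473), (nat_lit 0)]) (PF.cons (PF.leaf (nat_lit 9224866) (nat_lit 905050) (nat_lit 40103918) (nat_lit 8165601) [(nat_lit 905050), (nat_lit 2838198), (nat_lit 0)]) (PF.cons (PF.leaf (nat_lit 9702026) (nat_lit 909182) (nat_lit 39286891) (nat_lit 8099326) [(nat_lit 909182), (nat_lit 2832508), (nat_lit 0)]) (PF.cons (PF.leaf (nat_lit 10177797) (nat_lit 912076) (nat_lit 38483022) (nat_lit 8029873) [(nat_lit 912076), (nat_lit 2824601), (nat_lit 0)]) (PF.cons PF.nil PF.nil))))))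
 (PF.cons (PF.cons (PF.leaf (nat_lit 9318051) (nat_lit 2821461) (nat_lit 39271033) (nat_lit 8087548) [(nat_lit 0), (nat_lit 2821461), (nat_lit 0)]) (PF.cons (PF.leaf (nat_lit 9783926) (nat_lit 903484) (nat_lit 38484147) (nat_lit 8020022) [(nat_lit 903484), (nat_lit 2814451), (nat_lit 0)]) (PF.cons (PF.leaf (nat_lit 10249093) (nat_lit 906053) (nat_lit 37709219) (nat_lit 7949629) [(nat_lit 906053), (nat_lit 2805408), (nat_lit 0)]) (PF.cons (PF.leaf (nat_lit 10712244) (nat_lit 907540) (nat_lit 36947841) (nat_lit 7876758) [(nat_lit 907540), (nat_lit 2794512), (nat_lit 0)]) PF.nil)))) (PF.cons (PF.cons (PF.leaf (nat_lit 10318074) (nat_lit 2785430) (nat_lit 36956805) (nat_lit 7868565) [(nat_lit 0), (nat_lit 2785430), (nat_lit 0)]) (PF.cons (PF.leaf (nat_lit 10771119) (nat_lit 900883) (nat_lit 36222882) (nat_lit 7795358) [(nat_lit 900883), (nat_lit 2773711), (nat_lit 0)]) PF.nil)) (PF.cons PF.nil (PF.cons PF.nil (PF.cons PF.nil (PF.cons PF.nil PF.nil))))))))))))) (PF.cons (PF.cons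 (PF.cons (PF.leaf (nat_lit 3658486) (nat_lit 6492693) (nat_lit 52070765) (nat_lit 8545353) [(nat_lit 0), (nat_lit 0), (nat_lit 6492693)]) (PF.cons (PF.leaf (nat_lit 4042374) (nat_lit 723664) (nat_lit 51301236)
 (nat_lit 8560249) [(nat_lit 723664), (nat_lit 0), (nat_lit 6523662)]) (PF.cons (PF.leaf (nat_lit 4459080) (nat_lit 756461) (nat_lit 50477057) (nat_lit 8569029) [(nat_lit 756461), (nat_lit 0), (nat_lit 6549803)]) (PF.cons (PF.leaf (nat_lit 4901273) (nat_lit 784766) (nat_lit 49613828) (nat_lit 8570722) [(nat_lit 784766), (nat_lit 0), (nat_lit 6569963)]) (PF.cons (PF.leaf (nat_lit 5363510) (nat_lit 809303) (nat_lit 48723212) (nat_lit 8564844) [(nat_lit 809303), (nat_lit 0), (nat_lit 6583540)]) (PF.cons (PF.leaf (nat_lit 5841397) (nat_lit 830579) (nat_lit 47814364) (nat_lit 8551254) [(nat_lit 830579), (nat_lit 0), (nat_lit 6590296)]) (PF.cons (PF.leaf (nat_lit 6331254) (nat_lit 848973) (nat_lit 46894675) (nat_lit 8530051) [(nat_lit 848973), (nat_lit 0), (nat_lit 6590243)])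 (PF.cons (PF.leaf (nat_lit 6829968) (nat_lit 864790) (nat_lit 45970209) (nat_lit 8501506) [(nat_lit 864790), (nat_lit 0), (nat_lit 6583566)]) (PF.cons (PF.leaf (nat_lit 7334849) (nat_lit 878283) (nat_lit 45045981) (nat_lit 8466003) [(nat_lit 878283), (nat_lit 0), (nat_lit 6570562)]) (PF.cons (PF.leaf (nat_lit 7843597) (nat_lit 889673) (nat_lit 44126145) (nat_lit 8424004) [(nat_lit 889673), (nat_lit 0), (nat_lit
 6551605)]) (PF.cons (PF.leaf (nat_lit 8354196) (nat_lit 899153) (nat_lit 43214143) (nat_lit 8376015) [(nat_lit 899153), (nat_lit 0), (nat_lit 6527117)]) (PF.cons (PF.leaf (nat_lit 8864939) (nat_lit 906899) (nat_lit 42312806) (nat_lit 8322568) [(nat_lit 906899), (nat_lit 0), (nat_lit 6497541)]) (PF.cons (PF.leaf (nat_lit 9374336) (nat_lit 913069) (nat_lit 41424448) (nat_lit 8264197) [(nat_lit 913069), (nat_lit 0), (nat_lit 6463331)]) (PF.cons PF.nil (PF.cons PF.nil (PF.cons PF.nil PF.nil)))))))))))))))) (PF.cons (PF.cons (PF.leaf (nat_lit 4681360) (nat_lit 2693116)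 (nat_lit 49310349) (nat_lit 8550835) [(nat_lit 0), (nat_lit 2693116), (nat_lit 6554510)]) (PF.cons (PF.leaf (nat_lit 5106994) (nat_lit 789343) (nat_lit 48483197) (nat_lit 8544061) [(nat_lit 789343), (nat_lit 2725941), (nat_lit 6566269)]) (PF.cons (PF.leaf (nat_lit 5554460) (nat_lit 812813) (nat_lit 47626046) (nat_lit 8530389) [(nat_lit 812813), (nat_lit 2754555), (nat_lit 6572194)]) (PF.cons (PF.leaf (nat_lit 6018555) (nat_lit 832987) (nat_lit 46749307) (nat_lit 8509703) [(nat_lit 832987), (nat_lit 2778818), (nat_lit 6572020)]) (PF.cons (PF.leaf (nat_lit 6495264) (nat_lit 850302) (nat_lit 45860990) (nat_lit 8482108)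
 [(nat_lit 850302), (nat_lit 2798770), (nat_lit 6565733)]) (PF.cons (PF.leaf (nat_lit 6981284) (nat_lit 865090) (nat_lit 44967453) (nat_lit 8447865) [(nat_lit 865090), (nat_lit 2814557), (nat_lit 6553486)]) (PF.cons (PF.leaf (nat_lit 7473830) (nat_lit 877620) (nat_lit 44073827) (nat_lit 8407337) [(nat_lit 877620), (nat_lit 2826380), (nat_lit 6535543)]) (PF.cons (PF.leaf (nat_lit 7970559) (nat_lit 888121) (nat_lit 43184284) (nat_lit 8360957) [(nat_lit 888121), (nat_lit 2834478), (nat_lit 6512242)]) (PF.cons (PF.leaf (nat_lit 8469450) (nat_lit 896789) (nat_lit 42302234) (nat_lit 8309195) [(nat_lit 896789), (nat_lit 2839106), (nat_lit 6483964)]) (PF.cons (PF.leaf (nat_lit 8968777) (nat_lit 903798) (nat_lit 41430450) (nat_lit 8252540) [(nat_lit 903798), (nat_lit 2840525), (nat_lit 6451114)]) (PF.cons (PF.leaf (nat_lit 9467056) (nat_lit 909304) (nat_lit 40571179) (nat_lit 8191485) [(nat_lit 909304), (nat_lit 2838995), (nat_lit 6414104)]) (PF.cons (PF.leaf (nat_lit 9963073)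 (nat_lit 913450) (nat_lit 39726224) (nat_lit 8126515) [(nat_lit 913450), (nat_lit 2834770), (nat_lit 6373343)]) (PF.cons PF.nil (PF.cons PF.nil PF.nil)))))))))))))) (PF.cons (PF.cons (PF.leaf (nat_lit 5743363)
 (nat_lit 2762096) (nat_lit 46543484) (nat_lit 8487676) [(nat_lit 0), (nat_lit 2762096), (nat_lit 6553458)]) (PF.cons (PF.leaf (nat_lit 6192193) (nat_lit 833692) (nat_lit 45702464) (nat_lit 8461015) [(nat_lit 833692), (nat_lit 2782169), (nat_lit 6547300)]) (PF.cons (PF.leaf (nat_lit 6654933) (nat_lit 850185) (nat_lit 44847947) (nat_lit 8428035) [(nat_lit 850185), (nat_lit 2798412), (nat_lit 6535635)]) (PF.cons (PF.leaf (nat_lit 7127784) (nat_lit 864151) (nat_lit 43986951) (nat_lit 8388999) [(nat_lit 864151), (nat_lit 2810907), (nat_lit 6518590)]) (PF.cons (PF.leaf (nat_lit 7607764) (nat_lit 875893) (nat_lit 43124950) (nat_lit 8344259) [(nat_lit 875893), (nat_lit 2819812), (nat_lit 6496405)]) (PF.cons (PF.leaf (nat_lit 8092410) (nat_lit 885651) (nat_lit 42266289)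 (nat_lit 8294224) [(nat_lit 885651), (nat_lit 2825328), (nat_lit 6469383)]) (PF.cons (PF.leaf (nat_lit 8579641) (nat_lit 893633) (nat_lit 41414445) (nat_lit 8239335) [(nat_lit 893633), (nat_lit 2827679), (nat_lit 6437874)]) (PF.cons (PF.leaf (nat_lit 9067703) (nat_lit 900015) (nat_lit 40572214) (nat_lit 8180048) [(nat_lit 900015), (nat_lit 2827097), (nat_lit 6402247)]) (PF.cons (PF.leaf (nat_lit 9555115) (nat_lit 904955)
 (nat_lit 39741834) (nat_lit 8116819) [(nat_lit 904955), (nat_lit 2823818), (nat_lit 6362877)]) (PF.cons (PF.leaf (nat_lit 10040591) (nat_lit 908593) (nat_lit 38925083) (nat_lit 8050096) [(nat_lit 908593), (nat_lit 2818073), (nat_lit 6320140)]) (PF.cons PF.nil (PF.cons PF.nil PF.nil)))))))))))) (PF.cons (PF.cons (PF.leaf (nat_lit 6811890) (nat_lit 2795131) (nat_lit 43854450) (nat_lit 8368452) [(nat_lit 0), (nat_lit 2795131), (nat_lit 6500514)]) (PF.cons (PF.leaf (nat_lit 7270725) (nat_lit 862024) (nat_lit 43027791) (nat_lit 8325485) [(nat_lit 862024),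 (nat_lit 2804704), (nat_lit 6479399)]) (PF.cons (PF.leaf (nat_lit 7737729) (nat_lit 873154) (nat_lit 42198517) (nat_lit 8277295) [(nat_lit 873154), (nat_lit 2811024), (nat_lit 6453616)]) (PF.cons (PF.leaf (nat_lit 8210100) (nat_lit 882319) (nat_lit 41371348) (nat_lit 8224279) [(nat_lit 882319), (nat_lit 2814258), (nat_lit 6423450)]) (PF.cons (PF.leaf (nat_lit 8685634) (nat_lit 889739) (nat_lit 40549968) (nat_lit 8166860) [(nat_lit 889739), (nat_lit 2814601), (nat_lit 6389222)]) (PF.cons (PF.leaf (nat_lit 9162499) (nat_lit 895602) (nat_lit 39737283) (nat_lit 8105467) [(nat_lit 895602), (nat_lit 2812260), (nat_lit 6351270)]) (PF.cons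
 (PF.leaf (nat_lit 9639155) (nat_lit 900068) (nat_lit 38935587) (nat_lit 8040528) [(nat_lit 900068), (nat_lit 2807447), (nat_lit 6309943)]) (PF.cons (PF.leaf (nat_lit 10114323) (nat_lit 903279) (nat_lit 38146686) (nat_lit 7972459) [(nat_lit 903279), (nat_lit 2800374), (nat_lit 6265586)]) (PF.cons PF.nil (PF.cons PF.nil PF.nil)))))))))) (PF.cons (PF.cons (PF.leaf (nat_lit 7864990) (nat_lit 2800242) (nat_lit 41293388) (nat_lit 8206881) [(nat_lit 0), (nat_lit 2800242), (nat_lit 6407574)]) (PF.cons (PF.leaf (nat_lit 8324606) (nat_lit 878161) (nat_lit 40498443) (nat_lit 8151521) [(nat_lit 878161), (nat_lit 2801470), (nat_lit 6374801)]) (PF.cons (PF.leaf (nat_lit 8788272) (nat_lit 885147) (nat_lit 39707848) (nat_lit 8092128) [(nat_lit 885147), (nat_lit 2800053), (nat_lit 6338327)]) (PF.cons (PF.leaf (nat_lit 9253905) (nat_lit 890597) (nat_lit 38924738) (nat_lit 8029117) [(nat_lit 890597), (nat_lit 2796173), (nat_lit 6298471)]) (PF.cons (PF.leaf (nat_lit 9719881) (nat_lit 894680)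 (nat_lit 38151543) (nat_lit 7962894) [(nat_lit 894680), (nat_lit 2790024), (nat_lit 6255555)]) (PF.cons (PF.leaf (nat_lit 10184855) (nat_lit 897542) (nat_lit 37390154) (nat_lit 7893852) [(nat_lit 897542),
 (nat_lit 2781798), (nat_lit 6209900)]) (PF.cons PF.nil (PF.cons PF.nil PF.nil)))))))) (PF.cons (PF.cons (PF.leaf (nat_lit 8888569) (nat_lit 2784189) (nat_lit 38886967) (nat_lit 8015436) [(nat_lit 0), (nat_lit 2784189), (nat_lit 6285462)]) (PF.cons (PF.leaf (nat_lit 9342702) (nat_lit 885028) (nat_lit 38133550) (nat_lit 7951264) [(nat_lit 885028), (nat_lit 2778975), (nat_lit 6244090)]) (PF.cons (PF.leaf (nat_lit 9797961) (nat_lit 888819) (nat_lit 37388735) (nat_lit 7884154) [(nat_lit 888819), (nat_lit 2771671), (nat_lit 6199927)]) (PF.cons (PF.leaf (nat_lit 10252790) (nat_lit 891410) (nat_lit 36654565) (nat_lit 7814483) [(nat_lit 891410), (nat_lit 2762452), (nat_lit 6153272)]) (PF.cons (PF.leaf (nat_lit 10706005) (nat_lit 892932) (nat_lit 35932601) (nat_lit 7742608) [(nat_lit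 892932), (nat_lit 2751490), (nat_lit 6104419)]) (PF.cons PF.nil PF.nil)))))) (PF.cons (PF.cons (PF.leaf (nat_lit 9874200) (nat_lit 2752493) (nat_lit 36646114) (nat_lit 7804500) [(nat_lit 0), (nat_lit 2752493), (nat_lit 6143237)]) (PF.cons (PF.leaf (nat_lit 10318743) (nat_lit 884901) (nat_lit 35938945) (nat_lit 7734522) [(nat_lit 884901), (nat_lit 2742430), (nat_lit 6095861)]) (PF.cons (PF.leaf (nat_lit
 10762372) (nat_lit 886243) (nat_lit 35242782) (nat_lit 7662533) [(nat_lit 886243), (nat_lit 2730755), (nat_lit 6046479)]) (PF.cons PF.nil PF.nil)))) (PF.cons (PF.cons (PF.leaf (nat_lit 10817435) (nat_lit 2709545) (nat_lit 34571618) (nat_lit 7582262) [(nat_lit 0), (nat_lit 2709545), (nat_lit 5988110)]) (PF.cons PF.nil PF.nil)) (PF.cons PF.nil (PF.cons PF.nil (PF.cons PF.nil PF.nil))))))))))) (PF.cons (PF.cons (PF.cons (PF.leaf (nat_lit 5448520) (nat_lit 6475834) (nat_lit 45762995) (nat_lit 8394147) [(nat_lit 0), (nat_lit 0), (nat_lit 6475834)]) (PF.cons (PF.leaf (nat_lit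 5865053) (nat_lit 799798) (nat_lit 44998130) (nat_lit 8369336) [(nat_lit 799798), (nat_lit 0), (nat_lit 6470773)]) (PF.cons (PF.leaf (nat_lit 6300573) (nat_lit 819637) (nat_lit 44209507) (nat_lit 8338619) [(nat_lit 819637), (nat_lit 0), (nat_lit 6460705)]) (PF.cons (PF.leaf (nat_lit 6750156) (nat_lit 836323) (nat_lit 43406427) (nat_lit 8302169) [(nat_lit 836323), (nat_lit 0), (nat_lit 6445623)]) (PF.cons (PF.leaf (nat_lit 7210102) (nat_lit 850338) (nat_lit 42595873) (nat_lit 8260256) [(nat_lit 850338), (nat_lit 0), (nat_lit 6425663)]) (PF.cons (PF.leaf (nat_lit 7677439) (nat_lit 862045) (nat_lit 41783262) (nat_lit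
 8213220) [(nat_lit 862045), (nat_lit 0), (nat_lit 6401052)]) (PF.cons (PF.leaf (nat_lit 8149707) (nat_lit 871724) (nat_lit 40972867) (nat_lit 8161446) [(nat_lit 871724), (nat_lit 0), (nat_lit 6372075)]) (PF.cons (PF.leaf (nat_lit 8624859) (nat_lit 879609) (nat_lit 40168099) (nat_lit 8105338) [(nat_lit 879609), (nat_lit 0), (nat_lit 6339052)]) (PF.cons (PF.leaf (nat_lit 9101164) (nat_lit 885895) (nat_lit 39371686) (nat_lit 8045315) [(nat_lit 885895), (nat_lit 0), (nat_lit 6302322)]) (PF.cons (PF.leaf (nat_lit 9577168) (nat_lit 890750) (nat_lit 38585812) (nat_lit 7981790) [(nat_lit 890750), (nat_lit 0), (nat_lit 6262228)]) (PF.cons (PF.leaf (nat_lit 10051622) (nat_lit 894321) (nat_lit 37812213) (nat_lit 7915168) [(nat_lit 894321), (nat_lit 0), (nat_lit 6219109)]) (PF.cons PF.nil (PF.cons PF.nil (PF.cons PF.nil PF.nil)))))))))))))) (PF.cons (PF.cons (PF.leaf (nat_lit 6465766) (nat_lit 2745766) (nat_lit 43231185) (nat_lit 8279367) [(nat_lit 0), (nat_lit 2745766), (nat_lit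 6426246)]) (PF.cons (PF.leaf (nat_lit 6900302) (nat_lit 834071) (nat_lit 42463108) (nat_lit 8239395) [(nat_lit 834071), (nat_lit 2757547), (nat_lit 6407345)]) (PF.cons (PF.leaf (nat_lit 7346696) (nat_lit 847606)
 (nat_lit 41685256) (nat_lit 8194333) [(nat_lit 847606), (nat_lit 2766058), (nat_lit 6383975)]) (PF.cons (PF.leaf (nat_lit 7801442) (nat_lit 858804) (nat_lit 40903719) (nat_lit 8144538) [(nat_lit 858804), (nat_lit 2771434), (nat_lit 6356353)]) (PF.cons (PF.leaf (nat_lit 8261861) (nat_lit 867980) (nat_lit 40123146) (nat_lit 8090389) [(nat_lit 867980), (nat_lit 2773853), (nat_lit 6324750)]) (PF.cons (PF.leaf (nat_lit 8725766) (nat_lit 875384) (nat_lit 39347160) (nat_lit 8032283) [(nat_lit 875384), (nat_lit 2773516), (nat_lit 6289464)]) (PF.cons (PF.leaf (nat_lit 9191341) (nat_lit 881221) (nat_lit 38578611) (nat_lit 7970616) [(nat_lit 881221), (nat_lit 2770632), (nat_lit 6250810)]) (PF.cons (PF.leaf (nat_lit 9657061) (nat_lit 885665) (nat_lit 37819747) (nat_lit 7905780)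 [(nat_lit 885665), (nat_lit 2765409), (nat_lit 6209107)]) (PF.cons (PF.leaf (nat_lit 10121669) (nat_lit 888865) (nat_lit 37072339) (nat_lit 7838157) [(nat_lit 888865), (nat_lit 2758052), (nat_lit 6164669)]) (PF.cons PF.nil (PF.cons PF.nil (PF.cons PF.nil PF.nil)))))))))))) (PF.cons (PF.cons (PF.leaf (nat_lit 7481884) (nat_lit 2756291) (nat_lit 40793413) (nat_lit 8124879) [(nat_lit 0), (nat_lit 2756291), (nat_lit
 6338968)]) (PF.cons (PF.leaf (nat_lit 7923243) (nat_lit 854646) (nat_lit 40044174) (nat_lit 8072969) [(nat_lit 854646), (nat_lit 2759630), (nat_lit 6308880)]) (PF.cons (PF.leaf (nat_lit 8371424) (nat_lit 863469) (nat_lit 39294087) (nat_lit 8017007) [(nat_lit 863469), (nat_lit 2760262), (nat_lit 6275126)]) (PF.cons (PF.leaf (nat_lit 8823884) (nat_lit 870515) (nat_lit 38547166) (nat_lit 7957388) [(nat_lit 870515), (nat_lit 2758361), (nat_lit 6237995)]) (PF.cons (PF.leaf (nat_lit 9278651) (nat_lit 876005) (nat_lit 37806491) (nat_lit 7894503) [(nat_lit 876005), (nat_lit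 2754113), (nat_lit 6197785)]) (PF.cons (PF.leaf (nat_lit 9734131) (nat_lit 880123) (nat_lit 37074454) (nat_lit 7828729) [(nat_lit 880123), (nat_lit 2747709), (nat_lit 6154795)]) (PF.cons (PF.leaf (nat_lit 10188971) (nat_lit 883025) (nat_lit 36352915) (nat_lit 7760428) [(nat_lit 883025), (nat_lit 2739335), (nat_lit 6109322)]) (PF.cons PF.nil (PF.cons PF.nil (PF.cons PF.nil PF.nil)))))))))) (PF.cons (PF.cons (PF.leaf (nat_lit 8479517) (nat_lit 2745307) (nat_lit 38484436) (nat_lit 7941558) [(nat_lit 0), (nat_lit 2745307), (nat_lit 6223447)]) (PF.cons (PF.leaf (nat_lit 8920045) (nat_lit 865017) (nat_lit 37767015) (nat_lit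
 7880896) [(nat_lit 865017), (nat_lit 2742048), (nat_lit 6184868)]) (PF.cons (PF.leaf (nat_lit 9363831) (nat_lit 870266) (nat_lit 37054325) (nat_lit 7817196) [(nat_lit 870266), (nat_lit 2736621), (nat_lit 6143447)]) (PF.cons (PF.leaf (nat_lit 9808992) (nat_lit 874146) (nat_lit 36349000) (nat_lit 7750831) [(nat_lit 874146), (nat_lit 2729198), (nat_lit 6099472)]) (PF.cons (PF.leaf (nat_lit 10254094) (nat_lit 876823) (nat_lit 35653055) (nat_lit 7682152) [(nat_lit 876823), (nat_lit 2719952), (nat_lit 6053226)]) (PF.cons (PF.leaf (nat_lit 10697960) (nat_lit 878435) (nat_lit 34968035) (nat_lit 7611491) [(nat_lit 878435), (nat_lit 2709051), (nat_lit 6004978)]) (PF.cons PF.nil (PF.cons PF.nil PF.nil)))))))) (PF.cons (PF.cons (PF.leaf (nat_lit 9447757) (nat_lit 2718258) (nat_lit 36320995) (nat_lit 7738864) [(nat_lit 0), (nat_lit 2718258), (nat_lit 6087960)]) (PF.cons (PF.leaf (nat_lit 9882307) (nat_lit 867746) (nat_lit 35642377) (nat_lit 7672241) [(nat_lit 867746), (nat_lit 2709968),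 (nat_lit 6043286)]) (PF.cons (PF.leaf (nat_lit 10317605) (nat_lit 870272) (nat_lit 34971831) (nat_lit 7603470) [(nat_lit 870272), (nat_lit 2699984), (nat_lit 5996513)]) (PF.cons (PF.leaf (nat_lit 10752242)
 (nat_lit 871740) (nat_lit 34311065) (nat_lit 7532875) [(nat_lit 871740), (nat_lit 2688461), (nat_lit 5947901)]) (PF.cons PF.nil (PF.cons PF.nil PF.nil)))))) (PF.cons (PF.cons (PF.leaf (nat_lit 10380201) (nat_lit 2679498) (nat_lit 34308252) (nat_lit 7524486) [(nat_lit 0), (nat_lit 2679498), (nat_lit 5939289)]) (PF.cons (PF.leaf (nat_lit 10805426) (nat_lit 864769) (nat_lit 33671497) (nat_lit 7454189) [(nat_lit 864769), (nat_lit 2667465), (nat_lit 5890515)]) (PF.cons PF.nil (PF.cons PF.nil PF.nil)))) (PF.cons (PF.cons (PF.leaf (nat_lit 11273571) (nat_lit 2632454) (nat_lit 32444152) (nat_lit 7304395) [(nat_lit 0), (nat_lit 2632454), (nat_lit 5782769)]) (PF.cons PF.nil PF.nil)) (PF.cons PF.nil (PF.cons PF.nil (PF.cons PF.nil PF.nil)))))))))) (PF.cons (PF.cons (PF.cons (PF.leaf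 (nat_lit 7126066) (nat_lit 6268343) (nat_lit 40263431) (nat_lit 8040349) [(nat_lit 0), (nat_lit 0), (nat_lit 6268343)]) (PF.cons (PF.leaf (nat_lit 7545965) (nat_lit 828194) (nat_lit 39565029) (nat_lit 7992195) [(nat_lit 828194), (nat_lit 0), (nat_lit 6241131)]) (PF.cons (PF.leaf (nat_lit 7976170) (nat_lit 839417) (nat_lit 38859308) (nat_lit 7939899) [(nat_lit 839417), (nat_lit 0), (nat_lit 6210256)]) (PF.cons
 (PF.leaf (nat_lit 8413431) (nat_lit 848476) (nat_lit 38151563) (nat_lit 7883862) [(nat_lit 848476), (nat_lit 0), (nat_lit 6175985)]) (PF.cons (PF.leaf (nat_lit 8855313) (nat_lit 855694) (nat_lit 37445779) (nat_lit 7824468) [(nat_lit 855694), (nat_lit 0), (nat_lit 6138595)]) (PF.cons (PF.leaf (nat_lit 9299847) (nat_lit 861318) (nat_lit 36745013) (nat_lit 7762090) [(nat_lit 861318), (nat_lit 0), (nat_lit 6098372)]) (PF.cons (PF.leaf (nat_lit 9745434) (nat_lit 865550) (nat_lit 36051637) (nat_lit 7697081) [(nat_lit 865550), (nat_lit 0), (nat_lit 6055597)]) (PF.cons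 (PF.leaf (nat_lit 10190731) (nat_lit 868556) (nat_lit 35367498) (nat_lit 7629780) [(nat_lit 868556), (nat_lit 0), (nat_lit 6010545)]) (PF.cons PF.nil (PF.cons PF.nil PF.nil)))))))))) (PF.cons (PF.cons (PF.leaf (nat_lit 8093104) (nat_lit 2704433) (nat_lit 38059774) (nat_lit 7865542) [(nat_lit 0), (nat_lit 2704433), (nat_lit 6159687)]) (PF.cons (PF.leaf (nat_lit 8517676) (nat_lit 842963) (nat_lit 37381717) (nat_lit 7808618) [(nat_lit 842963), (nat_lit 2703348), (nat_lit 6124055)]) (PF.cons (PF.leaf (nat_lit 8948078) (nat_lit 850016) (nat_lit 36703765) (nat_lit 7748508) [(nat_lit 850016), (nat_lit 2699988), (nat_lit 6085505)])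
 (PF.cons (PF.leaf (nat_lit 9381975) (nat_lit 855453) (nat_lit 36029364) (nat_lit 7685597) [(nat_lit 855453), (nat_lit 2694524), (nat_lit 6044321)]) (PF.cons (PF.leaf (nat_lit 9817594) (nat_lit 859494) (nat_lit 35361126) (nat_lit 7620238) [(nat_lit 859494), (nat_lit 2687134), (nat_lit 6000778)]) (PF.cons (PF.leaf (nat_lit 10253513) (nat_lit 862316) (nat_lit 34701055) (nat_lit 7552765) [(nat_lit 862316), (nat_lit 2677989), (nat_lit 5955140)]) (PF.cons (PF.leaf (nat_lit 10688541) (nat_lit 864066) (nat_lit 34050691) (nat_lit 7483487) [(nat_lit 864066), (nat_lit 2667255), (nat_lit 5907660)]) (PF.cons PF.nil PF.nil)))))))) (PF.cons (PF.cons (PF.leaf (nat_lit 9040348) (nat_lit 2682462) (nat_lit 35979017) (nat_lit 7671389) [(nat_lit 0), (nat_lit 2682462), (nat_lit 6031160)]) (PF.cons (PF.leaf (nat_lit 9463106) (nat_lit 849101) (nat_lit 35331261) (nat_lit 7608295) [(nat_lit 849101), (nat_lit 2676104), (nat_lit 5989314)]) (PF.cons (PF.leaf (nat_lit 9888560) (nat_lit 853040) (nat_lit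 34688174) (nat_lit 7542884) [(nat_lit 853040), (nat_lit 2667948), (nat_lit 5945258)]) (PF.cons (PF.leaf (nat_lit 10314993) (nat_lit 855750) (nat_lit 34052001) (nat_lit 7475492) [(nat_lit 855750), (nat_lit
 2658153), (nat_lit 5899254)]) (PF.cons (PF.leaf (nat_lit 10741113) (nat_lit 857388) (nat_lit 33424444) (nat_lit 7406424) [(nat_lit 857388), (nat_lit 2646874), (nat_lit 5851546)]) (PF.cons PF.nil PF.nil)))))) (PF.cons (PF.cons (PF.leaf (nat_lit 9959112) (nat_lit 2648195) (nat_lit 34031723) (nat_lit 7465108) [(nat_lit 0), (nat_lit 2648195), (nat_lit 5889131)]) (PF.cons (PF.leaf (nat_lit 10375735) (nat_lit 848860) (nat_lit 33419395) (nat_lit 7398043) [(nat_lit 848860), (nat_lit 2637865), (nat_lit 5842972)]) (PF.cons (PF.leaf (nat_lit 10792854) (nat_lit 850451) (nat_lit 32814436) (nat_lit 7329393) [(nat_lit 850451), (nat_lit 2626142), (nat_lit 5795217)]) (PF.cons PF.nil PF.nil)))) (PF.cons (PF.cons (PF.leaf (nat_lit 10844390) (nat_lit 2605102) (nat_lit 32219763) (nat_lit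 7252445) [(nat_lit 0), (nat_lit 2605102), (nat_lit 5738731)]) (PF.cons (PF.leaf (nat_lit 11252074) (nat_lit 843901) (nat_lit 31644908) (nat_lit 7183171) [(nat_lit 843901), (nat_lit 2591849), (nat_lit 5689811)]) PF.nil)) (PF.cons PF.nil (PF.cons PF.nil (PF.cons PF.nil PF.nil)))))))) (PF.cons (PF.cons (PF.cons (PF.leaf (nat_lit 8654110) (nat_lit 5972553) (nat_lit 35616889) (nat_lit 7601708) [(nat_lit 0), (nat_lit 0),
 (nat_lit 5972553)]) (PF.cons (PF.leaf (nat_lit 9062791) (nat_lit 828505) (nat_lit 35003065) (nat_lit 7542392) [(nat_lit 828505), (nat_lit 0), (nat_lit 5933712)]) (PF.cons (PF.leaf (nat_lit 9476558) (nat_lit 834190) (nat_lit 34389819) (nat_lit 7480537) [(nat_lit 834190), (nat_lit 0), (nat_lit 5892518)]) (PF.cons (PF.leaf (nat_lit 9893254) (nat_lit 838398) (nat_lit 33780135) (nat_lit 7416507) [(nat_lit 838398), (nat_lit 0), (nat_lit 5849243)]) (PF.cons (PF.leaf (nat_lit 10311263) (nat_lit 841342) (nat_lit 33176258) (nat_lit 7350626) [(nat_lit 841342), (nat_lit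 0), (nat_lit 5804139)]) (PF.cons (PF.leaf (nat_lit 10729292) (nat_lit 843194) (nat_lit 32579889) (nat_lit 7283188) [(nat_lit 843194), (nat_lit 0), (nat_lit 5757440)]) (PF.cons PF.nil (PF.cons PF.nil PF.nil)))))))) (PF.cons (PF.cons (PF.leaf (nat_lit 9555712) (nat_lit 2615390) (nat_lit 33739839) (nat_lit 7403866) [(nat_lit 0), (nat_lit 2615390), (nat_lit 5837428)]) (PF.cons (PF.leaf (nat_lit 9962005) (nat_lit 831528) (nat_lit 33154049) (nat_lit 7340219) [(nat_lit 831528), (nat_lit 2606919), (nat_lit 5794023)]) (PF.cons (PF.leaf (nat_lit 10370586) (nat_lit 834472) (nat_lit 32572640) (nat_lit 7274781) [(nat_lit 834472), (nat_lit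
 2596938), (nat_lit 5748876)]) (PF.cons (PF.leaf (nat_lit 10779878) (nat_lit 836303) (nat_lit 31997554) (nat_lit 7207855) [(nat_lit 836303), (nat_lit 2585594), (nat_lit 5702224)]) (PF.cons PF.nil (PF.cons PF.nil PF.nil)))))) (PF.cons (PF.cons (PF.leaf (nat_lit 10430149) (nat_lit 2576542) (nat_lit 31983386) (nat_lit 7198896) [(nat_lit 0), (nat_lit 2576542), (nat_lit 5693361)]) (PF.cons (PF.leaf (nat_lit 10830347) (nat_lit 829160) (nat_lit 31429519) (nat_lit 7132670) [(nat_lit 829160), (nat_lit 2564899), (nat_lit 5646916)]) (PF.cons (PF.leaf (nat_lit 11230881) (nat_lit 830055) (nat_lit 30882270) (nat_lit 7065264) [(nat_lit 830055), (nat_lit 2552097), (nat_lit 5599243)]) (PF.cons PF.nil PF.nil)))) (PF.cons (PF.cons (PF.leaf (nat_lit 11273383) (nat_lit 2530999) (nat_lit 30347589) (nat_lit 6991135) [(nat_lit 0), (nat_lit 2530999), (nat_lit 5544272)]) (PF.cons PF.nil PF.nil)) (PF.cons PF.nil (PF.cons PF.nil PF.nil)))))) (PF.cons (PF.cons (PF.cons (PF.leaf (nat_lit 10032345)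 (nat_lit 5646454) (nat_lit 31733046) (nat_lit 7143496) [(nat_lit 0), (nat_lit 0), (nat_lit 5646454)]) (PF.cons (PF.leaf (nat_lit 10423395) (nat_lit 813061) (nat_lit 31202088) (nat_lit 7080509) [(nat_lit 813061),
 (nat_lit 0), (nat_lit 5602630)]) (PF.cons (PF.leaf (nat_lit 10816451) (nat_lit 815244) (nat_lit 30675127) (nat_lit 7016119) [(nat_lit 815244), (nat_lit 0), (nat_lit 5557415)]) (PF.cons PF.nil PF.nil)))) (PF.cons (PF.cons (PF.leaf (nat_lit 10866919) (nat_lit 2504962) (nat_lit 30144524) (nat_lit 6942905) [(nat_lit 0), (nat_lit 2504962), (nat_lit 5503284)]) (PF.cons (PF.leaf (nat_lit 11252035) (nat_lit 809176) (nat_lit 29642119) (nat_lit 6878315) [(nat_lit 809176), (nat_lit 2492519), (nat_lit 5457336)]) PF.nil)) (PF.cons PF.nil (PF.cons PF.nil PF.nil)))) (PF.cons (PF.cons (PF.cons (PF.leaf (nat_lit 11274328) (nat_lit 5320402) (nat_lit 28487888) (nat_lit 6698507) [(nat_lit 0), (nat_lit 0), (nat_lit 5320402)]) (PF.cons PF.nil PF.nil)) (PF.cons PF.nil PF.nil)) (PF.cons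 PF.nil (PF.cons PF.nil (PF.cons PF.nil PF.nil))))))))))

def p13_21_1_0 : pfC (piC [(nat_lit 33242365), (nat_lit 21715570), (nat_lit 14024239)] (nat_lit 11711831)) p13_21_1 (nat_lit 3) (nat_lit 0) (nat_lit 1) = true := by decide +kernel
def p13_21_1_1 : pfC (piC [(nat_lit 33242365), (nat_lit 21715570), (nat_lit 14024239)] (nat_lit 11711831)) p13_21_1 (nat_lit 3) (nat_lit 1) (nat_lit 2) = true := by decide +kernel
def p13_21_1_2 : pfC (piC [(nat_lit 33242365), (nat_lit 21715570), (nat_lit 14024239)] (nat_lit 11711831)) p13_21_1 (nat_lit 3) (nat_lit 2) (nat_lit 3) = true := by decide +kernel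
def p13_21_1_3 : pfC (piC [(nat_lit 33242365), (nat_lit 21715570), (nat_lit 14024239)] (nat_lit 11711831)) p13_21_1 (nat_lit 3) (nat_lit 3) (nat_lit 4) = true := by decide +kernel
def p13_21_1_4 : pfC (piC [(nat_lit 33242365), (nat_lit 21715570), (nat_lit 14024239)] (nat_lit 11711831)) p13_21_1 (nat_lit 3) (nat_lit 4) (nat_lit 5) = true := by decide +kernel
def p13_21_1_5 : pfC (piC [(nat_lit 33242365), (nat_lit 21715570), (nat_lit 14024239)] (nat_lit 11711831)) p13_21_1 (nat_lit 3) (nat_lit 5) (nat_lit 6) = true := by decide +kernel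
def p13_21_1_6 : pfC (piC [(nat_lit 33242365), (nat_lit 21715570), (nat_lit 14024239)] (nat_lit 11711831)) p13_21_1 (nat_lit 3) (nat_lit 6) (nat_lit 7) = true := by decide +kernel
def p13_21_1_7 : pfC (piC [(nat_lit 33242365), (nat_lit 21715570), (nat_lit 14024239)] (nat_lit 11711831)) p13_21_1 (nat_lit 3) (nat_lit 7) (nat_lit 8) = true := by decide +kernel
def p13_21_1_8 : pfC (piC [(nat_lit 33242365), (nat_lit 21715570), (nat_lit 14024239)] (nat_lit 11711831)) p13_21_1 (nat_lit 3) (nat_lit 8) (nat_lit 9) = true := by decide +kernel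
def p13_21_1_9 : pfC (piC [(nat_lit 33242365), (nat_lit 21715570), (nat_lit 14024239)] (nat_lit 11711831)) p13_21_1 (nat_lit 3) (nat_lit 9) (nat_lit 10) = true := by decide +kernel
def p13_21_1_10 : pfC (piC [(nat_lit 33242365), (nat_lit 21715570), (nat_lit 14024239)] (nat_lit 11711831)) p13_21_1 (nat_lit 3) (nat_lit 10) (nat_lit 11) = true := by decide +kernel
def p13_21_1_11 : pfC (piC [(nat_lit 33242365), (nat_lit 21715570), (nat_lit 14024239)] (nat_lit 11711831)) p13_21_1 (nat_lit 3) (nat_lit 11) (nat_lit 12) = true := by decide +kernel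
def p13_21_1_12 : pfC (piC [(nat_lit 33242365), (nat_lit 21715570), (nat_lit 14024239)] (nat_lit 11711831)) p13_21_1 (nat_lit 3) (nat_lit 12) (nat_lit 13) = true := by decide +kernel
def p13_21_1_13 : pfC (piC [(nat_lit 33242365), (nat_lit 21715570), (nat_lit 14024239)] (nat_lit 11711831)) p13_21_1 (nat_lit 3) (nat_lit 13) (nat_lit 14) = true := by decide +kernel
def p13_21_1_14 : pfC (piC [(nat_lit 33242365), (nat_lit 21715570), (nat_lit 14024239)] (nat_lit 11711831)) p13_21_1 (nat_lit 3) (nat_lit 14) (nat_lit 15) = true := by decide +kernel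
def p13_21_1_15 : pfC (piC [(nat_lit 33242365), (nat_lit 21715570), (nat_lit 14024239)] (nat_lit 11711831)) p13_21_1 (nat_lit 3) (nat_lit 15) (nat_lit 16) = true := by decide +kernel
def p13_21_1_16 : pfC (piC [(nat_lit 33242365), (nat_lit 21715570), (nat_lit 14024239)] (nat_lit 11711831)) p13_21_1 (nat_lit 3) (nat_lit 16) (nat_lit 17) = true := by decide +kernel
def p13_21_1_17 : pfC (piC [(nat_lit 33242365), (nat_lit 21715570), (nat_lit 14024239)] (nat_lit 11711831)) p13_21_1 (nat_lit 3) (nat_lit 17) (nat_lit 18) = true := by decide +kernel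
def p13_21_1_18 : pfC (piC [(nat_lit 33242365), (nat_lit 21715570), (nat_lit 14024239)] (nat_lit 11711831)) p13_21_1 (nat_lit 3) (nat_lit 18) (nat_lit 19) = true := by decide +kernel
def p13_21_1_19 : pfC (piC [(nat_lit 33242365), (nat_lit 21715570), (nat_lit 14024239)] (nat_lit 11711831)) p13_21_1 (nat_lit 3) (nat_lit 19) (nat_lit 20) = true := by decide +kernel
def p13_21_1_20 : pfC (piC [(nat_lit 33242365), (nat_lit 21715570), (nat_lit 14024239)] (nat_lit 11711831)) p13_21_1 (nat_lit 3) (nat_lit 20) (nat_lit 21) = true := by decide +kernel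
def p13_21_1_21 : pfC (piC [(nat_lit 33242365), (nat_lit 21715570), (nat_lit 14024239)] (nat_lit 11711831)) p13_21_1 (nat_lit 3) (nat_lit 21) (nat_lit 22) = true := by decide +kernel
def p13_21_1_22 : pfC (piC [(nat_lit 33242365), (nat_lit 21715570), (nat_lit 14024239)] (nat_lit 11711831)) p13_21_1 (nat_lit 3) (nat_lit 22) (nat_lit 23) = true := by decide +kernel
def p13_21_1_23 : pfC (piC [(nat_lit 33242365), (nat_lit 21715570), (nat_lit 14024239)] (nat_lit 11711831)) p13_21_1 (nat_lit 3) (nat_lit 23) (nat_lit 24) = true := by decide +kernel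
def p13_21_1_24 : pfC (piC [(nat_lit 33242365), (nat_lit 21715570), (nat_lit 14024239)] (nat_lit 11711831)) p13_21_1 (nat_lit 3) (nat_lit 24) (nat_lit 25) = true := by decide +kernel
def p13_21_1_25 : pfC (piC [(nat_lit 33242365), (nat_lit 21715570), (nat_lit 14024239)] (nat_lit 11711831)) p13_21_1 (nat_lit 3) (nat_lit 25) (nat_lit 26) = true := by decide +kernel
def p13_21_1_26 : pfC (piC [(nat_lit 33242365), (nat_lit 21715570), (nat_lit 14024239)] (nat_lit 11711831)) p13_21_1 (nat_lit 3) (nat_lit 26) (nat_lit 27) = true := by decide +kernel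
def p13_21_1_27 : pfC (piC [(nat_lit 33242365), (nat_lit 21715570), (nat_lit 14024239)] (nat_lit 11711831)) p13_21_1 (nat_lit 3) (nat_lit 27) (nat_lit 28) = true := by decide +kernel
def p13_21_1_28 : pfC (piC [(nat_lit 33242365), (nat_lit 21715570), (nat_lit 14024239)] (nat_lit 11711831)) p13_21_1 (nat_lit 3) (nat_lit 28) (nat_lit 29) = true := by decide +kernel
def p13_21_1_29 : pfC (piC [(nat_lit 33242365), (nat_lit 21715570), (nat_lit 14024239)] (nat_lit 11711831)) p13_21_1 (nat_lit 3) (nat_lit 29) (nat_lit 30) = true := by decide +kernel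
def p13_21_1_30 : pfC (piC [(nat_lit 33242365), (nat_lit 21715570), (nat_lit 14024239)] (nat_lit 11711831)) p13_21_1 (nat_lit 3) (nat_lit 30) (nat_lit 31) = true := by decide +kernel
def p13_21_1_31 : pfC (piC [(nat_lit 33242365), (nat_lit 21715570), (nat_lit 14024239)] (nat_lit 11711831)) p13_21_1 (nat_lit 3) (nat_lit 31) (nat_lit 32) = true := by decide +kernel
def p13_21_1_32 : pfC (piC [(nat_lit 33242365), (nat_lit 21715570), (nat_lit 14024239)] (nat_lit 11711831)) p13_21_1 (nat_lit 3) (nat_lit 32) (nat_lit 33) = true := by decide +kernel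
def p13_21_1_33 : pfC (piC [(nat_lit 33242365), (nat_lit 21715570), (nat_lit 14024239)] (nat_lit 11711831)) p13_21_1 (nat_lit 3) (nat_lit 33) (nat_lit 34) = true := by decide +kernel
def p13_21_1_34 : pfC (piC [(nat_lit 33242365), (nat_lit 21715570), (nat_lit 14024239)] (nat_lit 11711831)) p13_21_1 (nat_lit 3) (nat_lit 34) (nat_lit 35) = true := by decide +kernel
def p13_21_1_35 : pfC (piC [(nat_lit 33242365), (nat_lit 21715570), (nat_lit 14024239)] (nat_lit 11711831)) p13_21_1 (nat_lit 3) (nat_lit 35) (nat_lit 36) = true := by decide +kernel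
def p13_21_1_36 : pfC (piC [(nat_lit 33242365), (nat_lit 21715570), (nat_lit 14024239)] (nat_lit 11711831)) p13_21_1 (nat_lit 3) (nat_lit 36) (nat_lit 37) = true := by decide +kernel
def p13_21_1_37 : pfC (piC [(nat_lit 33242365), (nat_lit 21715570), (nat_lit 14024239)] (nat_lit 11711831)) p13_21_1 (nat_lit 3) (nat_lit 37) (nat_lit 38) = true := by decide +kernel
def p13_21_1_38 : pfC (piC [(nat_lit 33242365), (nat_lit 21715570), (nat_lit 14024239)] (nat_lit 11711831)) p13_21_1 (nat_lit 3) (nat_lit 38) (nat_lit 39) = true := by decide +kernel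
def p13_21_1_39 : pfC (piC [(nat_lit 33242365), (nat_lit 21715570), (nat_lit 14024239)] (nat_lit 11711831)) p13_21_1 (nat_lit 3) (nat_lit 39) (nat_lit 40) = true := by decide +kernel
def p13_21_1_40 : pfC (piC [(nat_lit 33242365), (nat_lit 21715570), (nat_lit 14024239)] (nat_lit 11711831)) p13_21_1 (nat_lit 3) (nat_lit 40) (nat_lit 41) = true := by decide +kernel
def p13_21_1_41 : pfC (piC [(nat_lit 33242365), (nat_lit 21715570), (nat_lit 14024239)] (nat_lit 11711831)) p13_21_1 (nat_lit 3) (nat_lit 41) (nat_lit 42) = true := by decide +kernel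
def p13_21_1_42 : pfC (piC [(nat_lit 33242365), (nat_lit 21715570), (nat_lit 14024239)] (nat_lit 11711831)) p13_21_1 (nat_lit 3) (nat_lit 42) (nat_lit 43) = true := by decide +kernel
def p13_21_1_43 : pfC (piC [(nat_lit 33242365), (nat_lit 21715570), (nat_lit 14024239)] (nat_lit 11711831)) p13_21_1 (nat_lit 3) (nat_lit 43) (nat_lit 44) = true := by decide +kernel
def p13_21_1_44 : pfC (piC [(nat_lit 33242365), (nat_lit 21715570), (nat_lit 14024239)] (nat_lit 11711831)) p13_21_1 (nat_lit 3) (nat_lit 44) (nat_lit 45) = true := by decide +kernel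
def p13_21_1_45 : pfC (piC [(nat_lit 33242365), (nat_lit 21715570), (nat_lit 14024239)] (nat_lit 11711831)) p13_21_1 (nat_lit 3) (nat_lit 45) (nat_lit 46) = true := by decide +kernel
def p13_21_1_46 : pfC (piC [(nat_lit 33242365), (nat_lit 21715570), (nat_lit 14024239)] (nat_lit 11711831)) p13_21_1 (nat_lit 3) (nat_lit 46) (nat_lit 47) = true := by decide +kernel
def p13_21_1_47 : pfC (piC [(nat_lit 33242365), (nat_lit 21715570), (nat_lit 14024239)] (nat_lit 11711831)) p13_21_1 (nat_lit 3) (nat_lit 47) (nat_lit 48) = true := by decide +kernel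
def p13_21_1_48 : pfC (piC [(nat_lit 33242365), (nat_lit 21715570), (nat_lit 14024239)] (nat_lit 11711831)) p13_21_1 (nat_lit 3) (nat_lit 48) (nat_lit 49) = true := by decide +kernel
def p13_21_1_49 : pfC (piC [(nat_lit 33242365), (nat_lit 21715570), (nat_lit 14024239)] (nat_lit 11711831)) p13_21_1 (nat_lit 3) (nat_lit 49) (nat_lit 50) = true := by decide +kernel
def p13_21_1_50 : pfC (piC [(nat_lit 33242365), (nat_lit 21715570), (nat_lit 14024239)] (nat_lit 11711831)) p13_21_1 (nat_lit 3) (nat_lit 50) (nat_lit 51) = true := by decide +kernel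
def p13_21_1_51 : pfC (piC [(nat_lit 33242365), (nat_lit 21715570), (nat_lit 14024239)] (nat_lit 11711831)) p13_21_1 (nat_lit 3) (nat_lit 51) (nat_lit 52) = true := by decide +kernel
def p13_21_1_52 : pfC (piC [(nat_lit 33242365), (nat_lit 21715570), (nat_lit 14024239)] (nat_lit 11711831)) p13_21_1 (nat_lit 3) (nat_lit 52) (nat_lit 53) = true := by decide +kernel
def p13_21_1_53 : pfC (piC [(nat_lit 33242365), (nat_lit 21715570), (nat_lit 14024239)] (nat_lit 11711831)) p13_21_1 (nat_lit 3) (nat_lit 53) (nat_lit 54) = true := by decide +kernel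
def p13_21_1_54 : pfC (piC [(nat_lit 33242365), (nat_lit 21715570), (nat_lit 14024239)] (nat_lit 11711831)) p13_21_1 (nat_lit 3) (nat_lit 54) (nat_lit 55) = true := by decide +kernel
def p13_21_1_55 : pfC (piC [(nat_lit 33242365), (nat_lit 21715570), (nat_lit 14024239)] (nat_lit 11711831)) p13_21_1 (nat_lit 3) (nat_lit 55) (nat_lit 56) = true := by decide +kernel
def p13_21_1_56 : pfC (piC [(nat_lit 33242365), (nat_lit 21715570), (nat_lit 14024239)] (nat_lit 11711831)) p13_21_1 (nat_lit 3) (nat_lit 56) (nat_lit 57) = true := by decide +kernel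
def p13_21_1_57 : pfC (piC [(nat_lit 33242365), (nat_lit 21715570), (nat_lit 14024239)] (nat_lit 11711831)) p13_21_1 (nat_lit 3) (nat_lit 57) (nat_lit 58) = true := by decide +kernel
def p13_21_1_58 : pfC (piC [(nat_lit 33242365), (nat_lit 21715570), (nat_lit 14024239)] (nat_lit 11711831)) p13_21_1 (nat_lit 3) (nat_lit 58) (nat_lit 59) = true := by decide +kernel
def p13_21_1_59 : pfC (piC [(nat_lit 33242365), (nat_lit 21715570), (nat_lit 14024239)] (nat_lit 11711831)) p13_21_1 (nat_lit 3) (nat_lit 59) (nat_lit 60) = true := by decide +kernel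
def p13_21_1_60 : pfC (piC [(nat_lit 33242365), (nat_lit 21715570), (nat_lit 14024239)] (nat_lit 11711831)) p13_21_1 (nat_lit 3) (nat_lit 60) (nat_lit 61) = true := by decide +kernel
def p13_21_1_61 : pfC (piC [(nat_lit 33242365), (nat_lit 21715570), (nat_lit 14024239)] (nat_lit 11711831)) p13_21_1 (nat_lit 3) (nat_lit 61) (nat_lit 62) = true := by decide +kernel
def p13_21_1_62 : pfC (piC [(nat_lit 33242365), (nat_lit 21715570), (nat_lit 14024239)] (nat_lit 11711831)) p13_21_1 (nat_lit 3) (nat_lit 62) (nat_lit 63) = true := by decide +kernel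
def p13_21_1_63 : pfC (piC [(nat_lit 33242365), (nat_lit 21715570), (nat_lit 14024239)] (nat_lit 11711831)) p13_21_1 (nat_lit 3) (nat_lit 63) (nat_lit 64) = true := by decide +kernel
def p13_21_1_64 : pfC (piC [(nat_lit 33242365), (nat_lit 21715570), (nat_lit 14024239)] (nat_lit 11711831)) p13_21_1 (nat_lit 3) (nat_lit 64) (nat_lit 65) = true := by decide +kernel
def p13_21_1_65 : pfC (piC [(nat_lit 33242365), (nat_lit 21715570), (nat_lit 14024239)] (nat_lit 11711831)) p13_21_1 (nat_lit 3) (nat_lit 65) (nat_lit 66) = true := by decide +kernel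
def p13_21_1_66 : pfC (piC [(nat_lit 33242365), (nat_lit 21715570), (nat_lit 14024239)] (nat_lit 11711831)) p13_21_1 (nat_lit 3) (nat_lit 66) (nat_lit 67) = true := by decide +kernel
def p13_21_1_67 : pfC (piC [(nat_lit 33242365), (nat_lit 21715570), (nat_lit 14024239)] (nat_lit 11711831)) p13_21_1 (nat_lit 3) (nat_lit 67) (nat_lit 68) = true := by decide +kernel
def p13_21_1_68 : pfC (piC [(nat_lit 33242365), (nat_lit 21715570), (nat_lit 14024239)] (nat_lit 11711831)) p13_21_1 (nat_lit 3) (nat_lit 68) (nat_lit 69) = true := by decide +kernel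
def p13_21_1_69 : pfC (piC [(nat_lit 33242365), (nat_lit 21715570), (nat_lit 14024239)] (nat_lit 11711831)) p13_21_1 (nat_lit 3) (nat_lit 69) (nat_lit 70) = true := by decide +kernel
def p13_21_1_70 : pfC (piC [(nat_lit 33242365), (nat_lit 21715570), (nat_lit 14024239)] (nat_lit 11711831)) p13_21_1 (nat_lit 3) (nat_lit 70) (nat_lit 71) = true := by decide +kernel
def p13_21_1_71 : pfC (piC [(nat_lit 33242365), (nat_lit 21715570), (nat_lit 14024239)] (nat_lit 11711831)) p13_21_1 (nat_lit 3) (nat_lit 71) (nat_lit 72) = true := by decide +kernel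
def p13_21_1_72 : pfC (piC [(nat_lit 33242365), (nat_lit 21715570), (nat_lit 14024239)] (nat_lit 11711831)) p13_21_1 (nat_lit 3) (nat_lit 72) (nat_lit 73) = true := by decide +kernel
def p13_21_1_73 : pfC (piC [(nat_lit 33242365), (nat_lit 21715570), (nat_lit 14024239)] (nat_lit 11711831)) p13_21_1 (nat_lit 3) (nat_lit 73) (nat_lit 74) = true := by decide +kernel
def p13_21_1_74 : pfC (piC [(nat_lit 33242365), (nat_lit 21715570), (nat_lit 14024239)] (nat_lit 11711831)) p13_21_1 (nat_lit 3) (nat_lit 74) (nat_lit 75) = true := by decide +kernel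
def p13_21_1_75 : pfC (piC [(nat_lit 33242365), (nat_lit 21715570), (nat_lit 14024239)] (nat_lit 11711831)) p13_21_1 (nat_lit 3) (nat_lit 75) (nat_lit 76) = true := by decide +kernel
def p13_21_1_76 : pfC (piC [(nat_lit 33242365), (nat_lit 21715570), (nat_lit 14024239)] (nat_lit 11711831)) p13_21_1 (nat_lit 3) (nat_lit 76) (nat_lit 77) = true := by decide +kernel
def p13_21_1_77 : pfC (piC [(nat_lit 33242365), (nat_lit 21715570), (nat_lit 14024239)] (nat_lit 11711831)) p13_21_1 (nat_lit 3) (nat_lit 77) (nat_lit 78) = true := by decide +kernel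
def p13_21_1_78 : pfC (piC [(nat_lit 33242365), (nat_lit 21715570), (nat_lit 14024239)] (nat_lit 11711831)) p13_21_1 (nat_lit 3) (nat_lit 78) (nat_lit 79) = true := by decide +kernel
def p13_21_1_79 : pfC (piC [(nat_lit 33242365), (nat_lit 21715570), (nat_lit 14024239)] (nat_lit 11711831)) p13_21_1 (nat_lit 3) (nat_lit 79) (nat_lit 80) = true := by decide +kernel
def p13_21_1_80 : pfC (piC [(nat_lit 33242365), (nat_lit 21715570), (nat_lit 14024239)] (nat_lit 11711831)) p13_21_1 (nat_lit 3) (nat_lit 80) (nat_lit 81) = true := by decide +kernel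
def p13_21_1_81 : pfC (piC [(nat_lit 33242365), (nat_lit 21715570), (nat_lit 14024239)] (nat_lit 11711831)) p13_21_1 (nat_lit 3) (nat_lit 81) (nat_lit 82) = true := by decide +kernel
def p13_21_1_82 : pfC (piC [(nat_lit 33242365), (nat_lit 21715570), (nat_lit 14024239)] (nat_lit 11711831)) p13_21_1 (nat_lit 3) (nat_lit 82) (nat_lit 83) = true := by decide +kernel
def p13_21_1_83 : pfC (piC [(nat_lit 33242365), (nat_lit 21715570), (nat_lit 14024239)] (nat_lit 11711831)) p13_21_1 (nat_lit 3) (nat_lit 83) (nat_lit 84) = true := by decide +kernel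
def p13_21_1_84 : pfC (piC [(nat_lit 33242365), (nat_lit 21715570), (nat_lit 14024239)] (nat_lit 11711831)) p13_21_1 (nat_lit 3) (nat_lit 84) (nat_lit 85) = true := by decide +kernel
def p13_21_1_85 : pfC (piC [(nat_lit 33242365), (nat_lit 21715570), (nat_lit 14024239)] (nat_lit 11711831)) p13_21_1 (nat_lit 3) (nat_lit 85) (nat_lit 86) = true := by decide +kernel
def p13_21_1_86 : pfC (piC [(nat_lit 33242365), (nat_lit 21715570), (nat_lit 14024239)] (nat_lit 11711831)) p13_21_1 (nat_lit 3) (nat_lit 86) (nat_lit 87) = true := by decide +kernel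
def p13_21_1_87 : pfC (piC [(nat_lit 33242365), (nat_lit 21715570), (nat_lit 14024239)] (nat_lit 11711831)) p13_21_1 (nat_lit 3) (nat_lit 87) (nat_lit 88) = true := by decide +kernel
def p13_21_1_88 : pfC (piC [(nat_lit 33242365), (nat_lit 21715570), (nat_lit 14024239)] (nat_lit 11711831)) p13_21_1 (nat_lit 3) (nat_lit 88) (nat_lit 89) = true := by decide +kernel
def p13_21_1_89 : pfC (piC [(nat_lit 33242365), (nat_lit 21715570), (nat_lit 14024239)] (nat_lit 11711831)) p13_21_1 (nat_lit 3) (nat_lit 89) (nat_lit 90) = true := by decide +kernel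
def p13_21_1_90 : pfC (piC [(nat_lit 33242365), (nat_lit 21715570), (nat_lit 14024239)] (nat_lit 11711831)) p13_21_1 (nat_lit 3) (nat_lit 90) (nat_lit 91) = true := by decide +kernel
def p13_21_1_91 : pfC (piC [(nat_lit 33242365), (nat_lit 21715570), (nat_lit 14024239)] (nat_lit 11711831)) p13_21_1 (nat_lit 3) (nat_lit 91) (nat_lit 92) = true := by decide +kernel
def p13_21_1_92 : pfC (piC [(nat_lit 33242365), (nat_lit 21715570), (nat_lit 14024239)] (nat_lit 11711831)) p13_21_1 (nat_lit 3) (nat_lit 92) (nat_lit 93) = true := by decide +kernel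
def p13_21_1_93 : pfC (piC [(nat_lit 33242365), (nat_lit 21715570), (nat_lit 14024239)] (nat_lit 11711831)) p13_21_1 (nat_lit 3) (nat_lit 93) (nat_lit 94) = true := by decide +kernel
def p13_21_1_94 : pfC (piC [(nat_lit 33242365), (nat_lit 21715570), (nat_lit 14024239)] (nat_lit 11711831)) p13_21_1 (nat_lit 3) (nat_lit 94) (nat_lit 95) = true := by decide +kernel
def p13_21_1_95 : pfC (piC [(nat_lit 33242365), (nat_lit 21715570), (nat_lit 14024239)] (nat_lit 11711831)) p13_21_1 (nat_lit 3) (nat_lit 95) (nat_lit 96) = true := by decide +kernel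
def p13_21_1_96 : pfC (piC [(nat_lit 33242365), (nat_lit 21715570), (nat_lit 14024239)] (nat_lit 11711831)) p13_21_1 (nat_lit 3) (nat_lit 96) (nat_lit 97) = true := by decide +kernel
def p13_21_1_97 : pfC (piC [(nat_lit 33242365), (nat_lit 21715570), (nat_lit 14024239)] (nat_lit 11711831)) p13_21_1 (nat_lit 3) (nat_lit 97) (nat_lit 98) = true := by decide +kernel
def p13_21_1_98 : pfC (piC [(nat_lit 33242365), (nat_lit 21715570), (nat_lit 14024239)] (nat_lit 11711831)) p13_21_1 (nat_lit 3) (nat_lit 98) (nat_lit 99) = true := by decide +kernel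
def p13_21_1_99 : pfC (piC [(nat_lit 33242365), (nat_lit 21715570), (nat_lit 14024239)] (nat_lit 11711831)) p13_21_1 (nat_lit 3) (nat_lit 99) (nat_lit 100) = true := by decide +kernel
def p13_21_1_100 : pfC (piC [(nat_lit 33242365), (nat_lit 21715570), (nat_lit 14024239)] (nat_lit 11711831)) p13_21_1 (nat_lit 3) (nat_lit 100) (nat_lit 101) = true := by decide +kernel
def p13_21_1_101 : pfC (piC [(nat_lit 33242365), (nat_lit 21715570), (nat_lit 14024239)] (nat_lit 11711831)) p13_21_1 (nat_lit 3) (nat_lit 101) (nat_lit 102) = true := by decide +kernel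
def p13_21_1_102 : pfC (piC [(nat_lit 33242365), (nat_lit 21715570), (nat_lit 14024239)] (nat_lit 11711831)) p13_21_1 (nat_lit 3) (nat_lit 102) (nat_lit 103) = true := by decide +kernel
def p13_21_1_103 : pfC (piC [(nat_lit 33242365), (nat_lit 21715570), (nat_lit 14024239)] (nat_lit 11711831)) p13_21_1 (nat_lit 3) (nat_lit 103) (nat_lit 104) = true := by decide +kernel
def p13_21_1_104 : pfC (piC [(nat_lit 33242365), (nat_lit 21715570), (nat_lit 14024239)] (nat_lit 11711831)) p13_21_1 (nat_lit 3) (nat_lit 104) (nat_lit 105) = true := by decide +kernel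
def p13_21_1_105 : pfC (piC [(nat_lit 33242365), (nat_lit 21715570), (nat_lit 14024239)] (nat_lit 11711831)) p13_21_1 (nat_lit 3) (nat_lit 105) (nat_lit 106) = true := by decide +kernel
def p13_21_1_106 : pfC (piC [(nat_lit 33242365), (nat_lit 21715570), (nat_lit 14024239)] (nat_lit 11711831)) p13_21_1 (nat_lit 3) (nat_lit 106) (nat_lit 107) = true := by decide +kernel
def p13_21_1_107 : pfC (piC [(nat_lit 33242365), (nat_lit 21715570), (nat_lit 14024239)] (nat_lit 11711831)) p13_21_1 (nat_lit 3) (nat_lit 107) (nat_lit 108) = true := by decide +kernel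
def p13_21_1_108 : pfC (piC [(nat_lit 33242365), (nat_lit 21715570), (nat_lit 14024239)] (nat_lit 11711831)) p13_21_1 (nat_lit 3) (nat_lit 108) (nat_lit 109) = true := by decide +kernel
def p13_21_1_109 : pfC (piC [(nat_lit 33242365), (nat_lit 21715570), (nat_lit 14024239)] (nat_lit 11711831)) p13_21_1 (nat_lit 3) (nat_lit 109) (nat_lit 110) = true := by decide +kernel
def p13_21_1_110 : pfC (piC [(nat_lit 33242365), (nat_lit 21715570), (nat_lit 14024239)] (nat_lit 11711831)) p13_21_1 (nat_lit 3) (nat_lit 110) (nat_lit 111) = true := by decide +kernel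
def p13_21_1_111 : pfC (piC [(nat_lit 33242365), (nat_lit 21715570), (nat_lit 14024239)] (nat_lit 11711831)) p13_21_1 (nat_lit 3) (nat_lit 111) (nat_lit 112) = true := by decide +kernel
def p13_21_1_112 : pfC (piC [(nat_lit 33242365), (nat_lit 21715570), (nat_lit 14024239)] (nat_lit 11711831)) p13_21_1 (nat_lit 3) (nat_lit 112) (nat_lit 113) = true := by decide +kernel
def p13_21_1_113 : pfC (piC [(nat_lit 33242365), (nat_lit 21715570), (nat_lit 14024239)] (nat_lit 11711831)) p13_21_1 (nat_lit 3) (nat_lit 113) (nat_lit 114) = true := by decide +kernel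
def p13_21_1_114 : pfC (piC [(nat_lit 33242365), (nat_lit 21715570), (nat_lit 14024239)] (nat_lit 11711831)) p13_21_1 (nat_lit 3) (nat_lit 114) (nat_lit 115) = true := by decide +kernel
def p13_21_1_115 : pfC (piC [(nat_lit 33242365), (nat_lit 21715570), (nat_lit 14024239)] (nat_lit 11711831)) p13_21_1 (nat_lit 3) (nat_lit 115) (nat_lit 116) = true := by decide +kernel
def p13_21_1_116 : pfC (piC [(nat_lit 33242365), (nat_lit 21715570), (nat_lit 14024239)] (nat_lit 11711831)) p13_21_1 (nat_lit 3) (nat_lit 116) (nat_lit 117) = true := by decide +kernel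
def p13_21_1_117 : pfC (piC [(nat_lit 33242365), (nat_lit 21715570), (nat_lit 14024239)] (nat_lit 11711831)) p13_21_1 (nat_lit 3) (nat_lit 117) (nat_lit 118) = true := by decide +kernel
def p13_21_1_118 : pfC (piC [(nat_lit 33242365), (nat_lit 21715570), (nat_lit 14024239)] (nat_lit 11711831)) p13_21_1 (nat_lit 3) (nat_lit 118) (nat_lit 119) = true := by decide +kernel
def p13_21_1_119 : pfC (piC [(nat_lit 33242365), (nat_lit 21715570), (nat_lit 14024239)] (nat_lit 11711831)) p13_21_1 (nat_lit 3) (nat_lit 119) (nat_lit 120) = true := by decide +kernel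
def p13_21_1_120 : pfC (piC [(nat_lit 33242365), (nat_lit 21715570), (nat_lit 14024239)] (nat_lit 11711831)) p13_21_1 (nat_lit 3) (nat_lit 120) (nat_lit 121) = true := by decide +kernel
def p13_21_1_121 : pfC (piC [(nat_lit 33242365), (nat_lit 21715570), (nat_lit 14024239)] (nat_lit 11711831)) p13_21_1 (nat_lit 3) (nat_lit 121) (nat_lit 122) = true := by decide +kernel
def p13_21_1_122 : pfC (piC [(nat_lit 33242365), (nat_lit 21715570), (nat_lit 14024239)] (nat_lit 11711831)) p13_21_1 (nat_lit 3) (nat_lit 122) (nat_lit 123) = true := by decide +kernel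
def p13_21_1_123 : pfC (piC [(nat_lit 33242365), (nat_lit 21715570), (nat_lit 14024239)] (nat_lit 11711831)) p13_21_1 (nat_lit 3) (nat_lit 123) (nat_lit 124) = true := by decide +kernel
def p13_21_1_124 : pfC (piC [(nat_lit 33242365), (nat_lit 21715570), (nat_lit 14024239)] (nat_lit 11711831)) p13_21_1 (nat_lit 3) (nat_lit 124) (nat_lit 125) = true := by decide +kernel
def p13_21_1_125 : pfC (piC [(nat_lit 33242365), (nat_lit 21715570), (nat_lit 14024239)] (nat_lit 11711831)) p13_21_1 (nat_lit 3) (nat_lit 125) (nat_lit 126) = true := by decide +kernel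
def p13_21_1_126 : pfC (piC [(nat_lit 33242365), (nat_lit 21715570), (nat_lit 14024239)] (nat_lit 11711831)) p13_21_1 (nat_lit 3) (nat_lit 126) (nat_lit 127) = true := by decide +kernel
def p13_21_1_127 : pfC (piC [(nat_lit 33242365), (nat_lit 21715570), (nat_lit 14024239)] (nat_lit 11711831)) p13_21_1 (nat_lit 3) (nat_lit 127) (nat_lit 128) = true := by decide +kernel
def p13_21_1_128 : pfC (piC [(nat_lit 33242365), (nat_lit 21715570), (nat_lit 14024239)] (nat_lit 11711831)) p13_21_1 (nat_lit 3) (nat_lit 128) (nat_lit 129) = true := by decide +kernel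
def p13_21_1_129 : pfC (piC [(nat_lit 33242365), (nat_lit 21715570), (nat_lit 14024239)] (nat_lit 11711831)) p13_21_1 (nat_lit 3) (nat_lit 129) (nat_lit 130) = true := by decide +kernel
def p13_21_1_130 : pfC (piC [(nat_lit 33242365), (nat_lit 21715570), (nat_lit 14024239)] (nat_lit 11711831)) p13_21_1 (nat_lit 3) (nat_lit 130) (nat_lit 131) = true := by decide +kernel
def p13_21_1_131 : pfC (piC [(nat_lit 33242365), (nat_lit 21715570), (nat_lit 14024239)] (nat_lit 11711831)) p13_21_1 (nat_lit 3) (nat_lit 131) (nat_lit 132) = true := by decide +kernel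
def p13_21_1_132 : pfC (piC [(nat_lit 33242365), (nat_lit 21715570), (nat_lit 14024239)] (nat_lit 11711831)) p13_21_1 (nat_lit 3) (nat_lit 132) (nat_lit 133) = true := by decide +kernel
def p13_21_1_133 : pfC (piC [(nat_lit 33242365), (nat_lit 21715570), (nat_lit 14024239)] (nat_lit 11711831)) p13_21_1 (nat_lit 3) (nat_lit 133) (nat_lit 134) = true := by decide +kernel
def p13_21_1_134 : pfC (piC [(nat_lit 33242365), (nat_lit 21715570), (nat_lit 14024239)] (nat_lit 11711831)) p13_21_1 (nat_lit 3) (nat_lit 134) (nat_lit 135) = true := by decide +kernel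
def p13_21_1_135 : pfC (piC [(nat_lit 33242365), (nat_lit 21715570), (nat_lit 14024239)] (nat_lit 11711831)) p13_21_1 (nat_lit 3) (nat_lit 135) (nat_lit 136) = true := by decide +kernel
def p13_21_1_136 : pfC (piC [(nat_lit 33242365), (nat_lit 21715570), (nat_lit 14024239)] (nat_lit 11711831)) p13_21_1 (nat_lit 3) (nat_lit 136) (nat_lit 137) = true := by decide +kernel
def p13_21_1_137 : pfC (piC [(nat_lit 33242365), (nat_lit 21715570), (nat_lit 14024239)] (nat_lit 11711831)) p13_21_1 (nat_lit 3) (nat_lit 137) (nat_lit 138) = true := by decide +kernel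
def p13_21_1_138 : pfC (piC [(nat_lit 33242365), (nat_lit 21715570), (nat_lit 14024239)] (nat_lit 11711831)) p13_21_1 (nat_lit 3) (nat_lit 138) (nat_lit 139) = true := by decide +kernel
def p13_21_1_139 : pfC (piC [(nat_lit 33242365), (nat_lit 21715570), (nat_lit 14024239)] (nat_lit 11711831)) p13_21_1 (nat_lit 3) (nat_lit 139) (nat_lit 140) = true := by decide +kernel
def p13_21_1_140 : pfC (piC [(nat_lit 33242365), (nat_lit 21715570), (nat_lit 14024239)] (nat_lit 11711831)) p13_21_1 (nat_lit 3) (nat_lit 140) (nat_lit 141) = true := by decide +kernel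
def p13_21_1_141 : pfC (piC [(nat_lit 33242365), (nat_lit 21715570), (nat_lit 14024239)] (nat_lit 11711831)) p13_21_1 (nat_lit 3) (nat_lit 141) (nat_lit 142) = true := by decide +kernel
def p13_21_1_142 : pfC (piC [(nat_lit 33242365), (nat_lit 21715570), (nat_lit 14024239)] (nat_lit 11711831)) p13_21_1 (nat_lit 3) (nat_lit 142) (nat_lit 143) = true := by decide +kernel
def p13_21_1_143 : pfC (piC [(nat_lit 33242365), (nat_lit 21715570), (nat_lit 14024239)] (nat_lit 11711831)) p13_21_1 (nat_lit 3) (nat_lit 143) (nat_lit 144) = true := by decide +kernel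
def p13_21_1_144 : pfC (piC [(nat_lit 33242365), (nat_lit 21715570), (nat_lit 14024239)] (nat_lit 11711831)) p13_21_1 (nat_lit 3) (nat_lit 144) (nat_lit 145) = true := by decide +kernel
def p13_21_1_145 : pfC (piC [(nat_lit 33242365), (nat_lit 21715570), (nat_lit 14024239)] (nat_lit 11711831)) p13_21_1 (nat_lit 3) (nat_lit 145) (nat_lit 146) = true := by decide +kernel
def p13_21_1_146 : pfC (piC [(nat_lit 33242365), (nat_lit 21715570), (nat_lit 14024239)] (nat_lit 11711831)) p13_21_1 (nat_lit 3) (nat_lit 146) (nat_lit 147) = true := by decide +kernel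
def p13_21_1_147 : pfC (piC [(nat_lit 33242365), (nat_lit 21715570), (nat_lit 14024239)] (nat_lit 11711831)) p13_21_1 (nat_lit 3) (nat_lit 147) (nat_lit 148) = true := by decide +kernel
def p13_21_1_148 : pfC (piC [(nat_lit 33242365), (nat_lit 21715570), (nat_lit 14024239)] (nat_lit 11711831)) p13_21_1 (nat_lit 3) (nat_lit 148) (nat_lit 149) = true := by decide +kernel
def p13_21_1_149 : pfC (piC [(nat_lit 33242365), (nat_lit 21715570), (nat_lit 14024239)] (nat_lit 11711831)) p13_21_1 (nat_lit 3) (nat_lit 149) (nat_lit 150) = true := by decide +kernel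
def p13_21_1_150 : pfC (piC [(nat_lit 33242365), (nat_lit 21715570), (nat_lit 14024239)] (nat_lit 11711831)) p13_21_1 (nat_lit 3) (nat_lit 150) (nat_lit 151) = true := by decide +kernel
def p13_21_1_151 : pfC (piC [(nat_lit 33242365), (nat_lit 21715570), (nat_lit 14024239)] (nat_lit 11711831)) p13_21_1 (nat_lit 3) (nat_lit 151) (nat_lit 152) = true := by decide +kernel
def p13_21_1_152 : pfC (piC [(nat_lit 33242365), (nat_lit 21715570), (nat_lit 14024239)] (nat_lit 11711831)) p13_21_1 (nat_lit 3) (nat_lit 152) (nat_lit 153) = true := by decide +kernel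
def p13_21_1_153 : pfC (piC [(nat_lit 33242365), (nat_lit 21715570), (nat_lit 14024239)] (nat_lit 11711831)) p13_21_1 (nat_lit 3) (nat_lit 153) (nat_lit 154) = true := by decide +kernel
def p13_21_1_154 : pfC (piC [(nat_lit 33242365), (nat_lit 21715570), (nat_lit 14024239)] (nat_lit 11711831)) p13_21_1 (nat_lit 3) (nat_lit 154) (nat_lit 155) = true := by decide +kernel
def p13_21_1_155 : pfC (piC [(nat_lit 33242365), (nat_lit 21715570), (nat_lit 14024239)] (nat_lit 11711831)) p13_21_1 (nat_lit 3) (nat_lit 155) (nat_lit 156) = true := by decide +kernel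
def p13_21_1_156 : pfC (piC [(nat_lit 33242365), (nat_lit 21715570), (nat_lit 14024239)] (nat_lit 11711831)) p13_21_1 (nat_lit 3) (nat_lit 156) (nat_lit 157) = true := by decide +kernel
def p13_21_1_157 : pfC (piC [(nat_lit 33242365), (nat_lit 21715570), (nat_lit 14024239)] (nat_lit 11711831)) p13_21_1 (nat_lit 3) (nat_lit 157) (nat_lit 158) = true := by decide +kernel
def p13_21_1_158 : pfC (piC [(nat_lit 33242365), (nat_lit 21715570), (nat_lit 14024239)] (nat_lit 11711831)) p13_21_1 (nat_lit 3) (nat_lit 158) (nat_lit 159) = true := by decide +kernel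
def p13_21_1_159 : pfC (piC [(nat_lit 33242365), (nat_lit 21715570), (nat_lit 14024239)] (nat_lit 11711831)) p13_21_1 (nat_lit 3) (nat_lit 159) (nat_lit 160) = true := by decide +kernel
def p13_21_1_160 : pfC (piC [(nat_lit 33242365), (nat_lit 21715570), (nat_lit 14024239)] (nat_lit 11711831)) p13_21_1 (nat_lit 3) (nat_lit 160) (nat_lit 161) = true := by decide +kernel
def p13_21_1_161 : pfC (piC [(nat_lit 33242365), (nat_lit 21715570), (nat_lit 14024239)] (nat_lit 11711831)) p13_21_1 (nat_lit 3) (nat_lit 161) (nat_lit 162) = true := by decide +kernel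
def p13_21_1_162 : pfC (piC [(nat_lit 33242365), (nat_lit 21715570), (nat_lit 14024239)] (nat_lit 11711831)) p13_21_1 (nat_lit 3) (nat_lit 162) (nat_lit 163) = true := by decide +kernel
def p13_21_1_163 : pfC (piC [(nat_lit 33242365), (nat_lit 21715570), (nat_lit 14024239)] (nat_lit 11711831)) p13_21_1 (nat_lit 3) (nat_lit 163) (nat_lit 164) = true := by decide +kernel
def p13_21_1_164 : pfC (piC [(nat_lit 33242365), (nat_lit 21715570), (nat_lit 14024239)] (nat_lit 11711831)) p13_21_1 (nat_lit 3) (nat_lit 164) (nat_lit 165) = true := by decide +kernel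
def p13_21_1_165 : pfC (piC [(nat_lit 33242365), (nat_lit 21715570), (nat_lit 14024239)] (nat_lit 11711831)) p13_21_1 (nat_lit 3) (nat_lit 165) (nat_lit 166) = true := by decide +kernel
def p13_21_1_166 : pfC (piC [(nat_lit 33242365), (nat_lit 21715570), (nat_lit 14024239)] (nat_lit 11711831)) p13_21_1 (nat_lit 3) (nat_lit 166) (nat_lit 167) = true := by decide +kernel
def p13_21_1_167 : pfC (piC [(nat_lit 33242365), (nat_lit 21715570), (nat_lit 14024239)] (nat_lit 11711831)) p13_21_1 (nat_lit 3) (nat_lit 167) (nat_lit 168) = true := by decide +kernel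
def p13_21_1_168 : pfC (piC [(nat_lit 33242365), (nat_lit 21715570), (nat_lit 14024239)] (nat_lit 11711831)) p13_21_1 (nat_lit 3) (nat_lit 168) (nat_lit 169) = true := by decide +kernel
def p13_21_1_169 : pfC (piC [(nat_lit 33242365), (nat_lit 21715570), (nat_lit 14024239)] (nat_lit 11711831)) p13_21_1 (nat_lit 3) (nat_lit 169) (nat_lit 170) = true := by decide +kernel
def p13_21_1_170 : pfC (piC [(nat_lit 33242365), (nat_lit 21715570), (nat_lit 14024239)] (nat_lit 11711831)) p13_21_1 (nat_lit 3) (nat_lit 170) (nat_lit 171) = true := by decide +kernel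
def p13_21_1_171 : pfC (piC [(nat_lit 33242365), (nat_lit 21715570), (nat_lit 14024239)] (nat_lit 11711831)) p13_21_1 (nat_lit 3) (nat_lit 171) (nat_lit 172) = true := by decide +kernel
def p13_21_1_172 : pfC (piC [(nat_lit 33242365), (nat_lit 21715570), (nat_lit 14024239)] (nat_lit 11711831)) p13_21_1 (nat_lit 3) (nat_lit 172) (nat_lit 173) = true := by decide +kernel
def p13_21_1_173 : pfC (piC [(nat_lit 33242365), (nat_lit 21715570), (nat_lit 14024239)] (nat_lit 11711831)) p13_21_1 (nat_lit 3) (nat_lit 173) (nat_lit 174) = true := by decide +kernel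
def p13_21_1_174 : pfC (piC [(nat_lit 33242365), (nat_lit 21715570), (nat_lit 14024239)] (nat_lit 11711831)) p13_21_1 (nat_lit 3) (nat_lit 174) (nat_lit 175) = true := by decide +kernel
def p13_21_1_175 : pfC (piC [(nat_lit 33242365), (nat_lit 21715570), (nat_lit 14024239)] (nat_lit 11711831)) p13_21_1 (nat_lit 3) (nat_lit 175) (nat_lit 176) = true := by decide +kernel
def p13_21_1_176 : pfC (piC [(nat_lit 33242365), (nat_lit 21715570), (nat_lit 14024239)] (nat_lit 11711831)) p13_21_1 (nat_lit 3) (nat_lit 176) (nat_lit 177) = true := by decide +kernel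
def p13_21_1_177 : pfC (piC [(nat_lit 33242365), (nat_lit 21715570), (nat_lit 14024239)] (nat_lit 11711831)) p13_21_1 (nat_lit 3) (nat_lit 177) (nat_lit 178) = true := by decide +kernel
def p13_21_1_178 : pfC (piC [(nat_lit 33242365), (nat_lit 21715570), (nat_lit 14024239)] (nat_lit 11711831)) p13_21_1 (nat_lit 3) (nat_lit 178) (nat_lit 179) = true := by decide +kernel
def p13_21_1_179 : pfC (piC [(nat_lit 33242365), (nat_lit 21715570), (nat_lit 14024239)] (nat_lit 11711831)) p13_21_1 (nat_lit 3) (nat_lit 179) (nat_lit 180) = true := by decide +kernel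
def p13_21_1_180 : pfC (piC [(nat_lit 33242365), (nat_lit 21715570), (nat_lit 14024239)] (nat_lit 11711831)) p13_21_1 (nat_lit 3) (nat_lit 180) (nat_lit 181) = true := by decide +kernel
def p13_21_1_181 : pfC (piC [(nat_lit 33242365), (nat_lit 21715570), (nat_lit 14024239)] (nat_lit 11711831)) p13_21_1 (nat_lit 3) (nat_lit 181) (nat_lit 182) = true := by decide +kernel
def p13_21_1_182 : pfC (piC [(nat_lit 33242365), (nat_lit 21715570), (nat_lit 14024239)] (nat_lit 11711831)) p13_21_1 (nat_lit 3) (nat_lit 182) (nat_lit 183) = true := by decide +kernel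
def p13_21_1_183 : pfC (piC [(nat_lit 33242365), (nat_lit 21715570), (nat_lit 14024239)] (nat_lit 11711831)) p13_21_1 (nat_lit 3) (nat_lit 183) (nat_lit 184) = true := by decide +kernel
def p13_21_1_184 : pfC (piC [(nat_lit 33242365), (nat_lit 21715570), (nat_lit 14024239)] (nat_lit 11711831)) p13_21_1 (nat_lit 3) (nat_lit 184) (nat_lit 185) = true := by decide +kernel
def p13_21_1_185 : pfC (piC [(nat_lit 33242365), (nat_lit 21715570), (nat_lit 14024239)] (nat_lit 11711831)) p13_21_1 (nat_lit 3) (nat_lit 185) (nat_lit 186) = true := by decide +kernel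
def p13_21_1_186 : pfC (piC [(nat_lit 33242365), (nat_lit 21715570), (nat_lit 14024239)] (nat_lit 11711831)) p13_21_1 (nat_lit 3) (nat_lit 186) (nat_lit 187) = true := by decide +kernel
def p13_21_1_187 : pfC (piC [(nat_lit 33242365), (nat_lit 21715570), (nat_lit 14024239)] (nat_lit 11711831)) p13_21_1 (nat_lit 3) (nat_lit 187) (nat_lit 188) = true := by decide +kernel
def p13_21_1_188 : pfC (piC [(nat_lit 33242365), (nat_lit 21715570), (nat_lit 14024239)] (nat_lit 11711831)) p13_21_1 (nat_lit 3) (nat_lit 188) (nat_lit 189) = true := by decide +kernel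
def p13_21_1_189 : pfC (piC [(nat_lit 33242365), (nat_lit 21715570), (nat_lit 14024239)] (nat_lit 11711831)) p13_21_1 (nat_lit 3) (nat_lit 189) (nat_lit 190) = true := by decide +kernel
def p13_21_1_190 : pfC (piC [(nat_lit 33242365), (nat_lit 21715570), (nat_lit 14024239)] (nat_lit 11711831)) p13_21_1 (nat_lit 3) (nat_lit 190) (nat_lit 191) = true := by decide +kernel
def p13_21_1_191 : pfC (piC [(nat_lit 33242365), (nat_lit 21715570), (nat_lit 14024239)] (nat_lit 11711831)) p13_21_1 (nat_lit 3) (nat_lit 191) (nat_lit 192) = true := by decide +kernel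
def p13_21_1_192 : pfC (piC [(nat_lit 33242365), (nat_lit 21715570), (nat_lit 14024239)] (nat_lit 11711831)) p13_21_1 (nat_lit 3) (nat_lit 192) (nat_lit 193) = true := by decide +kernel
def p13_21_1_193 : pfC (piC [(nat_lit 33242365), (nat_lit 21715570), (nat_lit 14024239)] (nat_lit 11711831)) p13_21_1 (nat_lit 3) (nat_lit 193) (nat_lit 194) = true := by decide +kernel
def p13_21_1_194 : pfC (piC [(nat_lit 33242365), (nat_lit 21715570), (nat_lit 14024239)] (nat_lit 11711831)) p13_21_1 (nat_lit 3) (nat_lit 194) (nat_lit 195) = true := by decide +kernel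
def p13_21_1_195 : pfC (piC [(nat_lit 33242365), (nat_lit 21715570), (nat_lit 14024239)] (nat_lit 11711831)) p13_21_1 (nat_lit 3) (nat_lit 195) (nat_lit 196) = true := by decide +kernel
def p13_21_1_196 : pfC (piC [(nat_lit 33242365), (nat_lit 21715570), (nat_lit 14024239)] (nat_lit 11711831)) p13_21_1 (nat_lit 3) (nat_lit 196) (nat_lit 197) = true := by decide +kernel
def p13_21_1_197 : pfC (piC [(nat_lit 33242365), (nat_lit 21715570), (nat_lit 14024239)] (nat_lit 11711831)) p13_21_1 (nat_lit 3) (nat_lit 197) (nat_lit 198) = true := by decide +kernel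
def p13_21_1_198 : pfC (piC [(nat_lit 33242365), (nat_lit 21715570), (nat_lit 14024239)] (nat_lit 11711831)) p13_21_1 (nat_lit 3) (nat_lit 198) (nat_lit 199) = true := by decide +kernel
def p13_21_1_199 : pfC (piC [(nat_lit 33242365), (nat_lit 21715570), (nat_lit 14024239)] (nat_lit 11711831)) p13_21_1 (nat_lit 3) (nat_lit 199) (nat_lit 200) = true := by decide +kernel
def p13_21_1_200 : pfC (piC [(nat_lit 33242365), (nat_lit 21715570), (nat_lit 14024239)] (nat_lit 11711831)) p13_21_1 (nat_lit 3) (nat_lit 200) (nat_lit 201) = true := by decide +kernel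
def p13_21_1_201 : pfC (piC [(nat_lit 33242365), (nat_lit 21715570), (nat_lit 14024239)] (nat_lit 11711831)) p13_21_1 (nat_lit 3) (nat_lit 201) (nat_lit 202) = true := by decide +kernel
def p13_21_1_202 : pfC (piC [(nat_lit 33242365), (nat_lit 21715570), (nat_lit 14024239)] (nat_lit 11711831)) p13_21_1 (nat_lit 3) (nat_lit 202) (nat_lit 203) = true := by decide +kernel
def p13_21_1_203 : pfC (piC [(nat_lit 33242365), (nat_lit 21715570), (nat_lit 14024239)] (nat_lit 11711831)) p13_21_1 (nat_lit 3) (nat_lit 203) (nat_lit 204) = true := by decide +kernel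
def p13_21_1_204 : pfC (piC [(nat_lit 33242365), (nat_lit 21715570), (nat_lit 14024239)] (nat_lit 11711831)) p13_21_1 (nat_lit 3) (nat_lit 204) (nat_lit 205) = true := by decide +kernel
def p13_21_1_205 : pfC (piC [(nat_lit 33242365), (nat_lit 21715570), (nat_lit 14024239)] (nat_lit 11711831)) p13_21_1 (nat_lit 3) (nat_lit 205) (nat_lit 206) = true := by decide +kernel
def p13_21_1_206 : pfC (piC [(nat_lit 33242365), (nat_lit 21715570), (nat_lit 14024239)] (nat_lit 11711831)) p13_21_1 (nat_lit 3) (nat_lit 206) (nat_lit 207) = true := by decide +kernel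
def p13_21_1_207 : pfC (piC [(nat_lit 33242365), (nat_lit 21715570), (nat_lit 14024239)] (nat_lit 11711831)) p13_21_1 (nat_lit 3) (nat_lit 207) (nat_lit 208) = true := by decide +kernel
def p13_21_1_208 : pfC (piC [(nat_lit 33242365), (nat_lit 21715570), (nat_lit 14024239)] (nat_lit 11711831)) p13_21_1 (nat_lit 3) (nat_lit 208) (nat_lit 209) = true := by decide +kernel
def p13_21_1_209 : pfC (piC [(nat_lit 33242365), (nat_lit 21715570), (nat_lit 14024239)] (nat_lit 11711831)) p13_21_1 (nat_lit 3) (nat_lit 209) (nat_lit 210) = true := by decide +kernel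
def p13_21_1_210 : pfC (piC [(nat_lit 33242365), (nat_lit 21715570), (nat_lit 14024239)] (nat_lit 11711831)) p13_21_1 (nat_lit 3) (nat_lit 210) (nat_lit 211) = true := by decide +kernel
def p13_21_1_211 : pfC (piC [(nat_lit 33242365), (nat_lit 21715570), (nat_lit 14024239)] (nat_lit 11711831)) p13_21_1 (nat_lit 3) (nat_lit 211) (nat_lit 212) = true := by decide +kernel
def p13_21_1_212 : pfC (piC [(nat_lit 33242365), (nat_lit 21715570), (nat_lit 14024239)] (nat_lit 11711831)) p13_21_1 (nat_lit 3) (nat_lit 212) (nat_lit 213) = true := by decide +kernel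
def p13_21_1_213 : pfC (piC [(nat_lit 33242365), (nat_lit 21715570), (nat_lit 14024239)] (nat_lit 11711831)) p13_21_1 (nat_lit 3) (nat_lit 213) (nat_lit 214) = true := by decide +kernel
def p13_21_1_214 : pfC (piC [(nat_lit 33242365), (nat_lit 21715570), (nat_lit 14024239)] (nat_lit 11711831)) p13_21_1 (nat_lit 3) (nat_lit 214) (nat_lit 215) = true := by decide +kernel
def p13_21_1_215 : pfC (piC [(nat_lit 33242365), (nat_lit 21715570), (nat_lit 14024239)] (nat_lit 11711831)) p13_21_1 (nat_lit 3) (nat_lit 215) (nat_lit 216) = true := by decide +kernel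
def p13_21_1_216 : pfC (piC [(nat_lit 33242365), (nat_lit 21715570), (nat_lit 14024239)] (nat_lit 11711831)) p13_21_1 (nat_lit 3) (nat_lit 216) (nat_lit 217) = true := by decide +kernel
def p13_21_1_217 : pfC (piC [(nat_lit 33242365), (nat_lit 21715570), (nat_lit 14024239)] (nat_lit 11711831)) p13_21_1 (nat_lit 3) (nat_lit 217) (nat_lit 218) = true := by decide +kernel
def p13_21_1_218 : pfC (piC [(nat_lit 33242365), (nat_lit 21715570), (nat_lit 14024239)] (nat_lit 11711831)) p13_21_1 (nat_lit 3) (nat_lit 218) (nat_lit 219) = true := by decide +kernel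
def p13_21_1_219 : pfC (piC [(nat_lit 33242365), (nat_lit 21715570), (nat_lit 14024239)] (nat_lit 11711831)) p13_21_1 (nat_lit 3) (nat_lit 219) (nat_lit 220) = true := by decide +kernel
def p13_21_1_220 : pfC (piC [(nat_lit 33242365), (nat_lit 21715570), (nat_lit 14024239)] (nat_lit 11711831)) p13_21_1 (nat_lit 3) (nat_lit 220) (nat_lit 221) = true := by decide +kernel
def p13_21_1_221 : pfC (piC [(nat_lit 33242365), (nat_lit 21715570), (nat_lit 14024239)] (nat_lit 11711831)) p13_21_1 (nat_lit 3) (nat_lit 221) (nat_lit 222) = true := by decide +kernel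
def p13_21_1_222 : pfC (piC [(nat_lit 33242365), (nat_lit 21715570), (nat_lit 14024239)] (nat_lit 11711831)) p13_21_1 (nat_lit 3) (nat_lit 222) (nat_lit 223) = true := by decide +kernel
theorem p13_21_1_T : PfS (PiF n13_21.reverse (nat_lit 11711831)) p13_21_1 (nat_lit 3) [] 0 :=
  pftab_of (los := [(nat_lit 33242365), (nat_lit 21715570), (nat_lit 14024239)]) (by decide +kernel) (hi := (nat_lit 223)) (PfP.trans (PfP.trans (PfP.trans (PfP.trans (PfP.trans (PfP.trans (PfP.trans (PfP.trans (PfP.trans (PfP.trans (PfP.trans (PfP.trans (PfP.trans (PfP.trans (PfP.trans (PfP.trans (PfP.trans (PfP.trans (PfP.trans (PfP.trans (PfP.trans (PfP.trans (PfP.trans (PfP.trans (PfP.trans (PfP.trans (PfP.trans (PfP.trans (PfP.trans (PfP.trans (PfP.trans (PfP.trans (PfP.trans (PfP.trans (PfP.trans (PfP.trans (PfP.trans (PfP.trans (PfP.trans (PfP.trans (PfP.trans (PfP.trans (PfP.trans (PfP.trans (PfP.trans (PfP.trans (PfP.trans (PfP.trans (PfP.trans (PfP.trans (PfP.trans (PfP.trans (PfP.trans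 (PfP.trans (PfP.trans (PfP.trans (PfP.trans (PfP.trans (PfP.trans (PfP.trans (PfP.trans (PfP.trans (PfP.trans (PfP.trans (PfP.trans (PfP.trans (PfP.trans (PfP.trans (PfP.trans (PfP.trans (PfP.trans (PfP.trans (PfP.trans (PfP.trans (PfP.trans (PfP.trans (PfP.trans (PfP.trans (PfP.trans (PfP.trans (PfP.trans (PfP.trans (PfP.trans (PfP.trans (PfP.trans (PfP.trans (PfP.trans (PfP.trans (PfP.trans (PfP.trans (PfP.trans (PfP.trans (PfP.trans (PfP.trans (PfP.trans (PfP.trans (PfP.trans (PfP.trans (PfP.trans (PfP.trans (PfP.trans (PfP.trans (PfP.trans (PfP.trans (PfP.trans (PfP.trans (PfP.trans (PfP.trans (PfP.trans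
 (PfP.trans (PfP.trans (PfP.trans (PfP.trans (PfP.trans (PfP.trans (PfP.trans (PfP.trans (PfP.trans (PfP.trans (PfP.trans (PfP.trans (PfP.trans (PfP.trans (PfP.trans (PfP.trans (PfP.trans (PfP.trans (PfP.trans (PfP.trans (PfP.trans (PfP.trans (PfP.trans (PfP.trans (PfP.trans (PfP.trans (PfP.trans (PfP.trans (PfP.trans (PfP.trans (PfP.trans (PfP.trans (PfP.trans (PfP.trans (PfP.trans (PfP.trans (PfP.trans (PfP.trans (PfP.trans (PfP.trans (PfP.trans (PfP.trans (PfP.trans (PfP.trans (PfP.trans (PfP.trans (PfP.trans (PfP.trans (PfP.trans (PfP.trans (PfP.trans (PfP.trans (PfP.trans (PfP.trans (PfP.trans (PfP.trans (PfP.trans (PfP.trans (PfP.trans (PfP.trans (PfP.trans (PfP.trans (PfP.trans (PfP.trans (PfP.trans (PfP.trans (PfP.trans (PfP.trans (PfP.trans (PfP.trans (PfP.trans (PfP.trans (PfP.trans (PfP.trans (PfP.trans (PfP.trans (PfP.trans (PfP.trans (PfP.trans (PfP.trans (PfP.trans (PfP.trans (PfP.trans (PfP.trans (PfP.trans (PfP.trans (PfP.trans (PfP.trans (PfP.trans (PfP.trans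 (PfP.trans (PfP.trans (PfP.trans (PfP.trans (PfP.trans (PfP.trans (PfP.trans (PfP.trans (PfP.trans (PfP.trans (PfP.trans (PfP.trans (PfP.trans (PfP.trans (PfP.trans (PfP.trans (PfP.trans (PfP.trans (PfP.trans
 (PfP.trans (PfP.trans (PfP.trans (PfP.trans (pfC_sound p13_21_1_0) (pfC_sound p13_21_1_1)) (pfC_sound p13_21_1_2)) (pfC_sound p13_21_1_3)) (pfC_sound p13_21_1_4)) (pfC_sound p13_21_1_5)) (pfC_sound p13_21_1_6)) (pfC_sound p13_21_1_7)) (pfC_sound p13_21_1_8)) (pfC_sound p13_21_1_9)) (pfC_sound p13_21_1_10)) (pfC_sound p13_21_1_11)) (pfC_sound p13_21_1_12)) (pfC_sound p13_21_1_13)) (pfC_sound p13_21_1_14)) (pfC_sound p13_21_1_15)) (pfC_sound p13_21_1_16)) (pfC_sound p13_21_1_17)) (pfC_sound p13_21_1_18)) (pfC_sound p13_21_1_19)) (pfC_sound p13_21_1_20)) (pfC_sound p13_21_1_21)) (pfC_sound p13_21_1_22)) (pfC_sound p13_21_1_23)) (pfC_sound p13_21_1_24)) (pfC_sound p13_21_1_25)) (pfC_sound p13_21_1_26)) (pfC_sound p13_21_1_27)) (pfC_sound p13_21_1_28)) (pfC_sound p13_21_1_29))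 (pfC_sound p13_21_1_30)) (pfC_sound p13_21_1_31)) (pfC_sound p13_21_1_32)) (pfC_sound p13_21_1_33)) (pfC_sound p13_21_1_34)) (pfC_sound p13_21_1_35)) (pfC_sound p13_21_1_36)) (pfC_sound p13_21_1_37)) (pfC_sound p13_21_1_38)) (pfC_sound p13_21_1_39)) (pfC_sound p13_21_1_40)) (pfC_sound p13_21_1_41)) (pfC_sound p13_21_1_42)) (pfC_sound p13_21_1_43)) (pfC_sound p13_21_1_44)) (pfC_sound p13_21_1_45)) (pfC_sound
 p13_21_1_46)) (pfC_sound p13_21_1_47)) (pfC_sound p13_21_1_48)) (pfC_sound p13_21_1_49)) (pfC_sound p13_21_1_50)) (pfC_sound p13_21_1_51)) (pfC_sound p13_21_1_52)) (pfC_sound p13_21_1_53)) (pfC_sound p13_21_1_54)) (pfC_sound p13_21_1_55)) (pfC_sound p13_21_1_56)) (pfC_sound p13_21_1_57)) (pfC_sound p13_21_1_58)) (pfC_sound p13_21_1_59)) (pfC_sound p13_21_1_60)) (pfC_sound p13_21_1_61)) (pfC_sound p13_21_1_62)) (pfC_sound p13_21_1_63)) (pfC_sound p13_21_1_64)) (pfC_sound p13_21_1_65)) (pfC_sound p13_21_1_66)) (pfC_sound p13_21_1_67)) (pfC_sound p13_21_1_68)) (pfC_sound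 p13_21_1_69)) (pfC_sound p13_21_1_70)) (pfC_sound p13_21_1_71)) (pfC_sound p13_21_1_72)) (pfC_sound p13_21_1_73)) (pfC_sound p13_21_1_74)) (pfC_sound p13_21_1_75)) (pfC_sound p13_21_1_76)) (pfC_sound p13_21_1_77)) (pfC_sound p13_21_1_78)) (pfC_sound p13_21_1_79)) (pfC_sound p13_21_1_80)) (pfC_sound p13_21_1_81)) (pfC_sound p13_21_1_82)) (pfC_sound p13_21_1_83)) (pfC_sound p13_21_1_84)) (pfC_sound p13_21_1_85)) (pfC_sound p13_21_1_86)) (pfC_sound p13_21_1_87)) (pfC_sound p13_21_1_88)) (pfC_sound p13_21_1_89)) (pfC_sound p13_21_1_90)) (pfC_sound p13_21_1_91)) (pfC_sound p13_21_1_92)) (pfC_sound p13_21_1_93)) (pfC_sound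
 p13_21_1_94)) (pfC_sound p13_21_1_95)) (pfC_sound p13_21_1_96)) (pfC_sound p13_21_1_97)) (pfC_sound p13_21_1_98)) (pfC_sound p13_21_1_99)) (pfC_sound p13_21_1_100)) (pfC_sound p13_21_1_101)) (pfC_sound p13_21_1_102)) (pfC_sound p13_21_1_103)) (pfC_sound p13_21_1_104)) (pfC_sound p13_21_1_105)) (pfC_sound p13_21_1_106)) (pfC_sound p13_21_1_107)) (pfC_sound p13_21_1_108)) (pfC_sound p13_21_1_109)) (pfC_sound p13_21_1_110)) (pfC_sound p13_21_1_111)) (pfC_sound p13_21_1_112)) (pfC_sound p13_21_1_113)) (pfC_sound p13_21_1_114)) (pfC_sound p13_21_1_115)) (pfC_sound p13_21_1_116)) (pfC_sound p13_21_1_117)) (pfC_sound p13_21_1_118)) (pfC_sound p13_21_1_119)) (pfC_sound p13_21_1_120)) (pfC_sound p13_21_1_121)) (pfC_sound p13_21_1_122)) (pfC_sound p13_21_1_123)) (pfC_sound p13_21_1_124)) (pfC_sound p13_21_1_125)) (pfC_sound p13_21_1_126)) (pfC_sound p13_21_1_127)) (pfC_sound p13_21_1_128)) (pfC_sound p13_21_1_129)) (pfC_sound p13_21_1_130)) (pfC_sound p13_21_1_131)) (pfC_sound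 p13_21_1_132)) (pfC_sound p13_21_1_133)) (pfC_sound p13_21_1_134)) (pfC_sound p13_21_1_135)) (pfC_sound p13_21_1_136)) (pfC_sound p13_21_1_137)) (pfC_sound p13_21_1_138)) (pfC_sound p13_21_1_139)) (pfC_sound
 p13_21_1_140)) (pfC_sound p13_21_1_141)) (pfC_sound p13_21_1_142)) (pfC_sound p13_21_1_143)) (pfC_sound p13_21_1_144)) (pfC_sound p13_21_1_145)) (pfC_sound p13_21_1_146)) (pfC_sound p13_21_1_147)) (pfC_sound p13_21_1_148)) (pfC_sound p13_21_1_149)) (pfC_sound p13_21_1_150)) (pfC_sound p13_21_1_151)) (pfC_sound p13_21_1_152)) (pfC_sound p13_21_1_153)) (pfC_sound p13_21_1_154)) (pfC_sound p13_21_1_155)) (pfC_sound p13_21_1_156)) (pfC_sound p13_21_1_157)) (pfC_sound p13_21_1_158)) (pfC_sound p13_21_1_159)) (pfC_sound p13_21_1_160)) (pfC_sound p13_21_1_161)) (pfC_sound p13_21_1_162)) (pfC_sound p13_21_1_163)) (pfC_sound p13_21_1_164)) (pfC_sound p13_21_1_165)) (pfC_sound p13_21_1_166)) (pfC_sound p13_21_1_167)) (pfC_sound p13_21_1_168)) (pfC_sound p13_21_1_169)) (pfC_sound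 p13_21_1_170)) (pfC_sound p13_21_1_171)) (pfC_sound p13_21_1_172)) (pfC_sound p13_21_1_173)) (pfC_sound p13_21_1_174)) (pfC_sound p13_21_1_175)) (pfC_sound p13_21_1_176)) (pfC_sound p13_21_1_177)) (pfC_sound p13_21_1_178)) (pfC_sound p13_21_1_179)) (pfC_sound p13_21_1_180)) (pfC_sound p13_21_1_181)) (pfC_sound p13_21_1_182)) (pfC_sound p13_21_1_183)) (pfC_sound p13_21_1_184)) (pfC_sound p13_21_1_185)) (pfC_sound
 p13_21_1_186)) (pfC_sound p13_21_1_187)) (pfC_sound p13_21_1_188)) (pfC_sound p13_21_1_189)) (pfC_sound p13_21_1_190)) (pfC_sound p13_21_1_191)) (pfC_sound p13_21_1_192)) (pfC_sound p13_21_1_193)) (pfC_sound p13_21_1_194)) (pfC_sound p13_21_1_195)) (pfC_sound p13_21_1_196)) (pfC_sound p13_21_1_197)) (pfC_sound p13_21_1_198)) (pfC_sound p13_21_1_199)) (pfC_sound p13_21_1_200)) (pfC_sound p13_21_1_201)) (pfC_sound p13_21_1_202)) (pfC_sound p13_21_1_203)) (pfC_sound p13_21_1_204)) (pfC_sound p13_21_1_205)) (pfC_sound p13_21_1_206)) (pfC_sound p13_21_1_207)) (pfC_sound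 p13_21_1_208)) (pfC_sound p13_21_1_209)) (pfC_sound p13_21_1_210)) (pfC_sound p13_21_1_211)) (pfC_sound p13_21_1_212)) (pfC_sound p13_21_1_213)) (pfC_sound p13_21_1_214)) (pfC_sound p13_21_1_215)) (pfC_sound p13_21_1_216)) (pfC_sound p13_21_1_217)) (pfC_sound p13_21_1_218)) (pfC_sound p13_21_1_219)) (pfC_sound p13_21_1_220)) (pfC_sound p13_21_1_221)) (pfC_sound p13_21_1_222)) (by decide +kernel)

def z13_21_1 : zOK yB13_21 (nat_lit 1) (nat_lit 400) (nat_lit 601) (nat_lit 11711831) (nat_lit 7852626) = true := by decide +kernel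
def g13_21_1 : gOK yB13_21.x P13_21 (nat_lit 1357) (q13_21 :: r13_21) (nat_lit 1) (nat_lit 400) (nat_lit 2) (nat_lit 601) (nat_lit 11000000) (nat_lit 17884250) (nat_lit 12712500) (nat_lit 12712500) [(nat_lit 800), (nat_lit 1600)] = true := by decide +kernel
def v13_21_1 : ivC P13_21 s13_21 w13_21 n13_21 (nat_lit 3) (nat_lit 4840) (nat_lit 1) (nat_lit 400) f192_0_400 f200_0_400 (nat_lit 2) (nat_lit 601) f192_0_601 f200_0_601 (nat_lit 11711831) (nat_lit 7852626) p13_21_1 = true := by decide +kernel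
end CB
end Pool.Agent.Lib.MP_6947cd_al
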