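import Pool.Agent.Lib.MP_6947cd_al.L.BoxDataB
import Pool.Agent.Lib.MP_6947cd_al.L.TeD3
import Pool.Agent.Lib.MP_6947cd_al.L.TeD4

/-!
Problem MP_6947cd_al (Chollet).  CASE B, rows `j`: boxes (generated).
-/

set_option autoImplicit false
set_option linter.defProp false
set_option maxRecDepth 20000

namespace Pool.Agent.Lib.MP_6947cd_al
namespace CB

open Ent Ent.Pk Fr Fr.WT CA

/-! box `yB14_10` -/

def P14_10 : BQ := ⟨(nat_lit 8), (nat_lit 4), (nat_lit 4), (nat_lit 0), (nat_lit 8), (nat_lit 740), (nat_lit 760), (nat_lit 120), [(nat_lit 200), (nat_lit 300), (nat_lit 450), (nat_lit 800)], (nat_lit 92336000), (nat_lit 16000000), (nat_lit 16000000000)⟩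
def q14_10 : PC := ⟨(nat_lit 1000), [(nat_lit 120000), (nat_lit 200000), (nat_lit 300000), (nat_lit 450000), (nat_lit 800000)], (nat_lit 340282367000166625996085689103316680705000000), (nat_lit 15907664000000), (nat_lit 15907664000000), (nat_lit 10000000)⟩
def r14_10 : List PC := [⟨(nat_lit 1305), [(nat_lit 120554), (nat_lit 201064), (nat_lit 301462), (nat_lit 451635), (nat_lit 799940)], (nat_lit 342209726326912138673739939901251161580063868), (nat_lit 16300559808800), (nat_lit 16311714220000), (nat_lit 10053200)⟩, ⟨(nat_lit 1363), [(nat_lit 120671), (nat_lit 201227), (nat_lit 301777), (nat_lit 452019), (nat_lit 801231)], (nat_lit 342727636089358042655220293413696522461073078), (nat_lit 16375408874080), (nat_lit 16388684452000), (nat_lit 10061350)⟩, ⟨(nat_lit 1206), [(nat_lit 120368), (nat_lit 200734), (nat_lit 300979), (nat_lit 451087), (nat_lit 797705)], (nat_lit 341559446723584723771784483841748913334733144), (nat_lit 16173185024960), (nat_lit 16180718824000),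 (nat_lit 10036700)⟩]
def s14_10 : List PB := [⟨(nat_lit 26100), (nat_lit 1928864000000), [(nat_lit 201064), (nat_lit 301462), (nat_lit 451635), (nat_lit 799940)], (nat_lit 342209726326912138673739939901251161580063868), (nat_lit 1142200466651424), (nat_lit 1142211621062624), (nat_lit 48800)⟩, ⟨(nat_lit 27260), (nat_lit 1930736000000), [(nat_lit 201227), (nat_lit 301777), (nat_lit 452019), (nat_lit 801231)], (nat_lit 342727636089358042655220293413696522461073078), (nat_lit 1142275315716704), (nat_lit 1142288591294624), (nat_lit 58080)⟩, ⟨(nat_lit 24120), (nat_lit 1925888000000), [(nat_lit 200734), (nat_lit 300979), (nat_lit 451087), (nat_lit 797705)], (nat_lit 341559446723584723771784483841748913334733144), (nat_lit 1142073091867584), (nat_lit 1142080625666624), (nat_lit 32960)⟩]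
def n14_10 : List KN := [⟨(nat_lit 800), (nat_lit 450), (nat_lit 13318063), (nat_lit 5978372)⟩, ⟨(nat_lit 450), (nat_lit 300), (nat_lit 19805017), (nat_lit 13318063)⟩, ⟨(nat_lit 300), (nat_lit 200), (nat_lit 26592602), (nat_lit 19805017)⟩, ⟨(nat_lit 200), (nat_lit 120), (nat_lit 41997052), (nat_lit 26592602)⟩]
def w14_10 : List ℕ := [(nat_lit 48800), (nat_lit 58080), (nat_lit 32960)]
def par14_10 : parC yB14_10 P14_10 s14_10 r14_10 q14_10 n14_10 w14_10 = true := by decide +kernel

def p14_10_0 : PF := (PF.cons (PF.cons (PF.cons (PF.cons (PF.leaf (nat_lit 602821) (nat_lit 1745208) (nat_lit 65363604) (nat_lit 1745208) [(nat_lit 0), (nat_lit 0), (nat_lit 0), (nat_lit 0)]) (PF.cons (PF.leaf (nat_lit 706275) (nat_lit 156920) (nat_lit 65163967) (nat_lit 1787924) [(nat_lit 156920), (nat_lit 0), (nat_lit 0), (nat_lit 0)]) (PF.cons (PF.leaf (nat_lit 835604) (nat_lit 173693) (nat_lit 64925779) (nat_lit 1835645) [(nat_lit 173693), (nat_lit 0), (nat_lit 0), (nat_lit 0)]) (PF.cons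 (PF.leaf (nat_lit 984040) (nat_lit 189523) (nat_lit 64653761) (nat_lit 1886481) [(nat_lit 189523), (nat_lit 0), (nat_lit 0), (nat_lit 0)]) (PF.cons (PF.leaf (nat_lit 1149904) (nat_lit 204635) (nat_lit 64351136) (nat_lit 1939132) [(nat_lit 204635), (nat_lit 0), (nat_lit 0), (nat_lit 0)]) (PF.cons (PF.leaf (nat_lit 1332466) (nat_lit 219153) (nat_lit 64020385) (nat_lit 1992659) [(nat_lit 219153), (nat_lit 0), (nat_lit 0), (nat_lit 0)]) (PF.cons (PF.leaf (nat_lit 1530483) (nat_lit 233145) (nat_lit 63663578) (nat_lit 2046360) [(nat_lit 233145), (nat_lit 0), (nat_lit 0), (nat_lit 0)]) (PF.cons (PF.leaf (nat_lit 1743043) (nat_lit 246650) (nat_lit 63282550) (nat_lit 2099705) [(nat_lit 246650), (nat_lit 0), (nat_lit 0),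
 (nat_lit 0)]) (PF.cons PF.nil (PF.cons PF.nil PF.nil)))))))))) (PF.cons (PF.cons (PF.leaf (nat_lit 1052013) (nat_lit 901295) (nat_lit 64267819) (nat_lit 1939697) [(nat_lit 0), (nat_lit 901295), (nat_lit 0), (nat_lit 0)]) (PF.cons (PF.leaf (nat_lit 1201265) (nat_lit 205590) (nat_lit 63983370) (nat_lit 1985622) [(nat_lit 205590), (nat_lit 934229), (nat_lit 0), (nat_lit 0)]) (PF.cons (PF.leaf (nat_lit 1371330) (nat_lit 220295) (nat_lit 63666556) (nat_lit 2033624) [(nat_lit 220295), (nat_lit 968041), (nat_lit 0), (nat_lit 0)]) (PF.cons (PF.leaf (nat_lit 1558365) (nat_lit 234338) (nat_lit 63321033) (nat_lit 2082661) [(nat_lit 234338), (nat_lit 1002101), (nat_lit 0), (nat_lit 0)]) (PF.cons (PF.leaf (nat_lit 1760869) (nat_lit 247819) (nat_lit 62949546) (nat_lit 2131993) [(nat_lit 247819), (nat_lit 1035997), (nat_lit 0), (nat_lit 0)]) (PF.cons (PF.leaf (nat_lit 1977667) (nat_lit 260790) (nat_lit 62554343) (nat_lit 2181071) [(nat_lit 260790), (nat_lit 1069443), (nat_lit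 0), (nat_lit 0)]) (PF.cons PF.nil (PF.cons PF.nil (PF.cons PF.nil PF.nil))))))))) (PF.cons (PF.cons (PF.leaf (nat_lit 1602658) (nat_lit 1023114) (nat_lit 62941070) (nat_lit 2121513) [(nat_lit 0), (nat_lit 1023114), (nat_lit
 0), (nat_lit 0)]) (PF.cons (PF.leaf (nat_lit 1790413) (nat_lit 248173) (nat_lit 62586140) (nat_lit 2166095) [(nat_lit 248173), (nat_lit 1054201), (nat_lit 0), (nat_lit 0)]) (PF.cons (PF.leaf (nat_lit 1995637) (nat_lit 261252) (nat_lit 62204441) (nat_lit 2211174) [(nat_lit 261252), (nat_lit 1085345), (nat_lit 0), (nat_lit 0)]) (PF.cons (PF.leaf (nat_lit 2215453) (nat_lit 273775) (nat_lit 61798941) (nat_lit 2256145) [(nat_lit 273775), (nat_lit 1116199), (nat_lit 0), (nat_lit 0)]) (PF.cons (PF.leaf (nat_lit 2448496) (nat_lit 285792) (nat_lit 61372028) (nat_lit 2300567) [(nat_lit 285792), (nat_lit 1146523), (nat_lit 0), (nat_lit 0)]) (PF.cons PF.nil (PF.cons PF.nil PF.nil))))))) (PF.cons (PF.cons (PF.leaf (nat_lit 2236426) (nat_lit 1131201) (nat_lit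 61430771) (nat_lit 2284436) [(nat_lit 0), (nat_lit 1131201), (nat_lit 0), (nat_lit 0)]) (PF.cons (PF.leaf (nat_lit 2456304) (nat_lit 285651) (nat_lit 61019079) (nat_lit 2325408) [(nat_lit 285651), (nat_lit 1159557), (nat_lit 0), (nat_lit 0)]) (PF.cons (PF.leaf (nat_lit 2690915) (nat_lit 297258) (nat_lit 60585750) (nat_lit 2365986) [(nat_lit 297258), (nat_lit 1187519), (nat_lit 0), (nat_lit 0)]) (PF.cons (PF.leaf (nat_lit 2937721) (nat_lit
 308360) (nat_lit 60133267) (nat_lit 2405809) [(nat_lit 308360), (nat_lit 1214884), (nat_lit 0), (nat_lit 0)]) (PF.cons PF.nil PF.nil))))) (PF.cons (PF.cons (PF.leaf (nat_lit 2936210) (nat_lit 1225474) (nat_lit 59780787) (nat_lit 2426129) [(nat_lit 0), (nat_lit 1225474), (nat_lit 0), (nat_lit 0)]) (PF.cons (PF.leaf (nat_lit 3182309) (nat_lit 318435) (nat_lit 59325325) (nat_lit 2462373) [(nat_lit 318435), (nat_lit 1250669), (nat_lit 0), (nat_lit 0)]) (PF.cons PF.nil (PF.cons PF.nil PF.nil)))) (PF.cons (PF.cons (PF.leaf (nat_lit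 3686104) (nat_lit 1306257) (nat_lit 58031357) (nat_lit 2546169) [(nat_lit 0), (nat_lit 1306257), (nat_lit 0), (nat_lit 0)]) (PF.cons PF.nil PF.nil)) (PF.cons PF.nil (PF.cons PF.nil PF.nil)))))))) (PF.cons (PF.cons (PF.cons (PF.leaf (nat_lit 1631827) (nat_lit 2151415) (nat_lit 62235251) (nat_lit 2151415) [(nat_lit 0), (nat_lit 0), (nat_lit 2722145), (nat_lit 0)]) (PF.cons (PF.leaf (nat_lit 1798898) (nat_lit 237960) (nat_lit 61916530) (nat_lit 2190185) [(nat_lit 237960), (nat_lit 0), (nat_lit 2764137), (nat_lit 0)]) (PF.cons (PF.leaf (nat_lit 1986093) (nat_lit 252369) (nat_lit 61565713) (nat_lit 2230460) [(nat_lit 252369), (nat_lit 0), (nat_lit 2807899),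
 (nat_lit 0)]) (PF.cons (PF.leaf (nat_lit 2189585) (nat_lit 265859) (nat_lit 61187393) (nat_lit 2271372) [(nat_lit 265859), (nat_lit 0), (nat_lit 2852468), (nat_lit 0)]) (PF.cons (PF.leaf (nat_lit 2407621) (nat_lit 278598) (nat_lit 60784951) (nat_lit 2312312) [(nat_lit 278598), (nat_lit 0), (nat_lit 2897154), (nat_lit 0)]) (PF.cons (PF.leaf (nat_lit 2638893) (nat_lit 290692) (nat_lit 60361077) (nat_lit 2352832) [(nat_lit 290692), (nat_lit 0), (nat_lit 2941442), (nat_lit 0)]) (PF.cons PF.nil (PF.cons PF.nil (PF.cons PF.nil PF.nil))))))))) (PF.cons (PF.cons (PF.leaf (nat_lit 2223941) (nat_lit 1130996) (nat_lit 60790229) (nat_lit 2301003) [(nat_lit 0), (nat_lit 1130996), (nat_lit 2886584), (nat_lit 0)]) (PF.cons (PF.leaf (nat_lit 2426205) (nat_lit 277305) (nat_lit 60408512) (nat_lit 2338062) [(nat_lit 277305), (nat_lit 1158015), (nat_lit 2926916), (nat_lit 0)]) (PF.cons (PF.leaf (nat_lit 2644976) (nat_lit 289701) (nat_lit 60001646) (nat_lit 2375332) [(nat_lit 289701),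 (nat_lit 1184901), (nat_lit 2967529), (nat_lit 0)]) (PF.cons (PF.leaf (nat_lit 2877182) (nat_lit 301401) (nat_lit 59573057) (nat_lit 2412317) [(nat_lit 301401), (nat_lit 1211370), (nat_lit 3007861), (nat_lit 0)])
 (PF.cons (PF.leaf (nat_lit 3121620) (nat_lit 312493) (nat_lit 59125444) (nat_lit 2448657) [(nat_lit 312493), (nat_lit 1237233), (nat_lit 3047501), (nat_lit 0)]) (PF.cons PF.nil (PF.cons PF.nil PF.nil))))))) (PF.cons (PF.cons (PF.leaf (nat_lit 2886609) (nat_lit 1222314) (nat_lit 59198554) (nat_lit 2433409) [(nat_lit 0), (nat_lit 1222314), (nat_lit 3032219), (nat_lit 0)]) (PF.cons (PF.leaf (nat_lit 3117320) (nat_lit 311113) (nat_lit 58768910) (nat_lit 2466947) [(nat_lit 311113), (nat_lit 1246582), (nat_lit 3068676), (nat_lit 0)]) (PF.cons (PF.leaf (nat_lit 3361547) (nat_lit 321852) (nat_lit 58319811) (nat_lit 2499980) [(nat_lit 321852), (nat_lit 1270369), (nat_lit 3104575), (nat_lit 0)]) (PF.cons (PF.leaf (nat_lit 3616853) (nat_lit 332011) (nat_lit 57853945)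 (nat_lit 2532218) [(nat_lit 332011), (nat_lit 1293515), (nat_lit 3139584), (nat_lit 0)]) (PF.cons PF.nil PF.nil))))) (PF.cons (PF.cons (PF.leaf (nat_lit 3603217) (nat_lit 1300914) (nat_lit 57502719) (nat_lit 2546863) [(nat_lit 0), (nat_lit 1300914), (nat_lit 3156486), (nat_lit 0)]) (PF.cons (PF.leaf (nat_lit 3856488) (nat_lit 340136) (nat_lit 57038164) (nat_lit 2576030) [(nat_lit 340136), (nat_lit 1322159), (nat_lit 3188002),
 (nat_lit 0)]) (PF.cons PF.nil (PF.cons PF.nil PF.nil)))) (PF.cons (PF.cons (PF.leaf (nat_lit 4359092) (nat_lit 1367293) (nat_lit 55739445) (nat_lit 2641234) [(nat_lit 0), (nat_lit 1367293), (nat_lit 3258957), (nat_lit 0)]) (PF.cons PF.nil PF.nil)) (PF.cons PF.nil PF.nil)))))) (PF.cons (PF.cons (PF.cons (PF.leaf (nat_lit 2851330) (nat_lit 2440859) (nat_lit 58579350) (nat_lit 2440859) [(nat_lit 0), (nat_lit 0), (nat_lit 3044301), (nat_lit 0)]) (PF.cons (PF.leaf (nat_lit 3064290) (nat_lit 301517) (nat_lit 58181652) (nat_lit 2471449) [(nat_lit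 301517), (nat_lit 0), (nat_lit 3077096), (nat_lit 0)]) (PF.cons (PF.leaf (nat_lit 3292782) (nat_lit 313210) (nat_lit 57760577) (nat_lit 2502020) [(nat_lit 313210), (nat_lit 0), (nat_lit 3109896), (nat_lit 0)]) (PF.cons (PF.leaf (nat_lit 3533770) (nat_lit 324102) (nat_lit 57319843) (nat_lit 2532169) [(nat_lit 324102), (nat_lit 0), (nat_lit 3142246), (nat_lit 0)]) (PF.cons (PF.leaf (nat_lit 3785866) (nat_lit 334310) (nat_lit 56862326) (nat_lit 2561605) [(nat_lit 334310), (nat_lit 0), (nat_lit 3173818), (nat_lit 0)]) (PF.cons PF.nil (PF.cons PF.nil PF.nil))))))) (PF.cons (PF.cons (PF.leaf (nat_lit 3531990) (nat_lit 1294519) (nat_lit 56947220)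
 (nat_lit 2547478) [(nat_lit 0), (nat_lit 1294519), (nat_lit 3159797), (nat_lit 0)]) (PF.cons (PF.leaf (nat_lit 3770160) (nat_lit 331932) (nat_lit 56509455) (nat_lit 2574641) [(nat_lit 331932), (nat_lit 1315183), (nat_lit 3188800), (nat_lit 0)]) (PF.cons (PF.leaf (nat_lit 4020687) (nat_lit 341843) (nat_lit 56054294) (nat_lit 2601221) [(nat_lit 341843), (nat_lit 1335306), (nat_lit 3217151), (nat_lit 0)]) (PF.cons PF.nil (PF.cons PF.nil PF.nil))))) (PF.cons (PF.cons (PF.leaf (nat_lit 4256426) (nat_lit 1359583) (nat_lit 55240368) (nat_lit 2637067) [(nat_lit 0), (nat_lit 1359583), (nat_lit 3256105), (nat_lit 0)]) (PF.cons (PF.leaf (nat_lit 4513952) (nat_lit 357561) (nat_lit 54775176) (nat_lit 2660198) [(nat_lit 357561), (nat_lit 1377379), (nat_lit 3280559), (nat_lit 0)]) (PF.cons PF.nil (PF.cons PF.nil PF.nil)))) (PF.cons (PF.cons (PF.leaf (nat_lit 5011191) (nat_lit 1413595) (nat_lit 53491705) (nat_lit 2709819) [(nat_lit 0), (nat_lit 1413595), (nat_lit 3333250), (nat_lit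 0)]) (PF.cons PF.nil PF.nil)) (PF.cons PF.nil PF.nil))))) (PF.cons (PF.cons (PF.cons (PF.leaf (nat_lit 4166029) (nat_lit 2632772) (nat_lit 54716150) (nat_lit 2632772) [(nat_lit 0), (nat_lit 0), (nat_lit 3253296),
 (nat_lit 0)]) (PF.cons (PF.leaf (nat_lit 4408860) (nat_lit 348760) (nat_lit 54277875) (nat_lit 2654446) [(nat_lit 348760), (nat_lit 0), (nat_lit 3275910), (nat_lit 0)]) (PF.cons (PF.leaf (nat_lit 4663126) (nat_lit 357890) (nat_lit 53824091) (nat_lit 2675489) [(nat_lit 357890), (nat_lit 0), (nat_lit 3297816), (nat_lit 0)]) (PF.cons PF.nil PF.nil)))) (PF.cons (PF.cons (PF.leaf (nat_lit 4891322) (nat_lit 1404218) (nat_lit 53024503) (nat_lit 2702119) [(nat_lit 0), (nat_lit 1404218), (nat_lit 3325990), (nat_lit 0)]) (PF.cons (PF.leaf (nat_lit 5150848) (nat_lit 371339) (nat_lit 52565010) (nat_lit 2720101) [(nat_lit 371339), (nat_lit 1419007), (nat_lit 3344451), (nat_lit 0)]) PF.nil)) (PF.cons PF.nil PF.nil))) (PF.cons (PF.cons (PF.cons (PF.leaf (nat_lit 5505040)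 (nat_lit 2746437) (nat_lit 50876468) (nat_lit 2746437) [(nat_lit 0), (nat_lit 0), (nat_lit 3371476), (nat_lit 0)]) (PF.cons PF.nil PF.nil)) (PF.cons PF.nil PF.nil)) (PF.cons PF.nil (PF.cons PF.nil (PF.cons PF.nil PF.nil)))))))) (PF.cons (PF.cons (PF.cons (PF.cons (PF.leaf (nat_lit 2804194) (nat_lit 2380409) (nat_lit 56030938) (nat_lit 2380409) [(nat_lit 0), (nat_lit 0), (nat_lit 0), (nat_lit 8697464)]) (PF.cons (PF.leaf (nat_lit
 2981102) (nat_lit 269878) (nat_lit 55713427) (nat_lit 2408397) [(nat_lit 269878), (nat_lit 0), (nat_lit 0), (nat_lit 8717109)]) (PF.cons (PF.leaf (nat_lit 3177043) (nat_lit 283944) (nat_lit 55366981) (nat_lit 2437043) [(nat_lit 283944), (nat_lit 0), (nat_lit 0), (nat_lit 8736898)]) (PF.cons (PF.leaf (nat_lit 3387902) (nat_lit 296741) (nat_lit 54996654) (nat_lit 2465720) [(nat_lit 296741), (nat_lit 0), (nat_lit 0), (nat_lit 8756213)]) (PF.cons (PF.leaf (nat_lit 3611729) (nat_lit 308517) (nat_lit 54606147) (nat_lit 2494005) [(nat_lit 308517),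 (nat_lit 0), (nat_lit 0), (nat_lit 8774592)]) (PF.cons (PF.leaf (nat_lit 3847066) (nat_lit 319435) (nat_lit 54198354) (nat_lit 2521602) [(nat_lit 319435), (nat_lit 0), (nat_lit 0), (nat_lit 8791677)]) (PF.cons (PF.leaf (nat_lit 4092766) (nat_lit 329611) (nat_lit 53775651) (nat_lit 2548305) [(nat_lit 329611), (nat_lit 0), (nat_lit 0), (nat_lit 8807187)]) (PF.cons (PF.leaf (nat_lit 4347646) (nat_lit 339128) (nat_lit 53340048) (nat_lit 2573964) [(nat_lit 339128), (nat_lit 0), (nat_lit 0), (nat_lit 8820903)]) (PF.cons PF.nil (PF.cons PF.nil PF.nil)))))))))) (PF.cons (PF.cons (PF.leaf (nat_lit 3404648) (nat_lit 1238526) (nat_lit 54619427) (nat_lit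
 2482554) [(nat_lit 0), (nat_lit 1238526), (nat_lit 0), (nat_lit 8768305)]) (PF.cons (PF.leaf (nat_lit 3612056) (nat_lit 305127) (nat_lit 54251761) (nat_lit 2508086) [(nat_lit 305127), (nat_lit 1259958), (nat_lit 0), (nat_lit 8783879)]) (PF.cons (PF.leaf (nat_lit 3834206) (nat_lit 316553) (nat_lit 53862862) (nat_lit 2533417) [(nat_lit 316553), (nat_lit 1280917), (nat_lit 0), (nat_lit 8798507)]) (PF.cons (PF.leaf (nat_lit 4068235) (nat_lit 327088) (nat_lit 53456286) (nat_lit 2558212) [(nat_lit 327088), (nat_lit 1301216), (nat_lit 0), (nat_lit 8811833)]) (PF.cons (PF.leaf (nat_lit 4312745) (nat_lit 336865) (nat_lit 53034781) (nat_lit 2582238) [(nat_lit 336865), (nat_lit 1320742), (nat_lit 0), (nat_lit 8823588)]) (PF.cons (PF.leaf (nat_lit 4566461) (nat_lit 345979) (nat_lit 52600581) (nat_lit 2605335) [(nat_lit 345979), (nat_lit 1339428), (nat_lit 0), (nat_lit 8833569)]) (PF.cons (PF.leaf (nat_lit 4828410) (nat_lit 354500) (nat_lit 52155565) (nat_lit 2627388) [(nat_lit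 354500), (nat_lit 1357236), (nat_lit 0), (nat_lit 8841621)]) (PF.cons PF.nil (PF.cons PF.nil PF.nil))))))))) (PF.cons (PF.cons (PF.leaf (nat_lit 4059089) (nat_lit 1306513) (nat_lit 53110639) (nat_lit 2569035) [(nat_lit
 0), (nat_lit 1306513), (nat_lit 0), (nat_lit 8816109)]) (PF.cons (PF.leaf (nat_lit 4289767) (nat_lit 333837) (nat_lit 52708151) (nat_lit 2591166) [(nat_lit 333837), (nat_lit 1324920), (nat_lit 0), (nat_lit 8825814)]) (PF.cons (PF.leaf (nat_lit 4532142) (nat_lit 343304) (nat_lit 52290169) (nat_lit 2612666) [(nat_lit 343304), (nat_lit 1342695), (nat_lit 0), (nat_lit 8833976)]) (PF.cons (PF.leaf (nat_lit 4783962) (nat_lit 352085) (nat_lit 51859315) (nat_lit 2633351) [(nat_lit 352085), (nat_lit 1359744), (nat_lit 0), (nat_lit 8840401)]) (PF.cons (PF.leaf (nat_lit 5044083) (nat_lit 360262) (nat_lit 51417701) (nat_lit 2653095) [(nat_lit 360262), (nat_lit 1376009), (nat_lit 0), (nat_lit 8844948)]) (PF.cons PF.nil (PF.cons PF.nil PF.nil))))))) (PF.cons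 (PF.cons (PF.leaf (nat_lit 4752235) (nat_lit 1362609) (nat_lit 51542560) (nat_lit 2639840) [(nat_lit 0), (nat_lit 1362609), (nat_lit 0), (nat_lit 8838582)]) (PF.cons (PF.leaf (nat_lit 5000585) (nat_lit 357470) (nat_lit 51117094) (nat_lit 2658245) [(nat_lit 357470), (nat_lit 1378115), (nat_lit 0), (nat_lit 8841655)]) (PF.cons (PF.leaf (nat_lit 5258207) (nat_lit 365362) (nat_lit 50680569) (nat_lit 2675815) [(nat_lit 365362), (nat_lit
 1392931), (nat_lit 0), (nat_lit 8842907)]) (PF.cons (PF.leaf (nat_lit 5523272) (nat_lit 372699) (nat_lit 50234981) (nat_lit 2692451) [(nat_lit 372699), (nat_lit 1407011), (nat_lit 0), (nat_lit 8842247)]) (PF.cons PF.nil PF.nil))))) (PF.cons (PF.cons (PF.leaf (nat_lit 5471717) (nat_lit 1408136) (nat_lit 49944756) (nat_lit 2695748) [(nat_lit 0), (nat_lit 1408136), (nat_lit 0), (nat_lit 8835762)]) (PF.cons (PF.leaf (nat_lit 5733137) (nat_lit 376909) (nat_lit 49505667) (nat_lit 2710427) [(nat_lit 376909), (nat_lit 1420926), (nat_lit 0),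 (nat_lit 8832101)]) (PF.cons PF.nil (PF.cons PF.nil PF.nil)))) (PF.cons (PF.cons (PF.leaf (nat_lit 6207363) (nat_lit 1444264) (nat_lit 48340479) (nat_lit 2737923) [(nat_lit 0), (nat_lit 1444264), (nat_lit 0), (nat_lit 8809088)]) (PF.cons PF.nil PF.nil)) (PF.cons PF.nil (PF.cons PF.nil PF.nil)))))))) (PF.cons (PF.cons (PF.cons (PF.leaf (nat_lit 3990829) (nat_lit 2562928) (nat_lit 52564362) (nat_lit 2562928) [(nat_lit 0), (nat_lit 0), (nat_lit 3178797), (nat_lit 8802724)]) (PF.cons (PF.leaf (nat_lit 4204306) (nat_lit 322047) (nat_lit 52193634) (nat_lit 2583550) [(nat_lit 322047), (nat_lit 0), (nat_lit 3199554), (nat_lit 8810026)]) (PF.cons (PF.leaf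
 (nat_lit 4431695) (nat_lit 332736) (nat_lit 51803384) (nat_lit 2603862) [(nat_lit 332736), (nat_lit 0), (nat_lit 3220000), (nat_lit 8816091)]) (PF.cons (PF.leaf (nat_lit 4670117) (nat_lit 342480) (nat_lit 51397242) (nat_lit 2623597) [(nat_lit 342480), (nat_lit 0), (nat_lit 3239846), (nat_lit 8820683)]) (PF.cons (PF.leaf (nat_lit 4918089) (nat_lit 351436) (nat_lit 50977974) (nat_lit 2642573) [(nat_lit 351436), (nat_lit 0), (nat_lit 3258889), (nat_lit 8823629)]) (PF.cons (PF.leaf (nat_lit 5174411) (nat_lit 359713) (nat_lit 50547794) (nat_lit 2660664) [(nat_lit 359713), (nat_lit 0), (nat_lit 3276985), (nat_lit 8824802)]) (PF.cons PF.nil PF.nil))))))) (PF.cons (PF.cons (PF.leaf (nat_lit 4651346) (nat_lit 1350803) (nat_lit 51061887) (nat_lit 2630608) [(nat_lit 0), (nat_lit 1350803), (nat_lit 3247509), (nat_lit 8818003)]) (PF.cons (PF.leaf (nat_lit 4885571) (nat_lit 347742) (nat_lit 50662206) (nat_lit 2648084) [(nat_lit 347742), (nat_lit 1366326), (nat_lit 3264914),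 (nat_lit 8819539)]) (PF.cons (PF.leaf (nat_lit 5130615) (nat_lit 356454) (nat_lit 50248686) (nat_lit 2664917) [(nat_lit 356454), (nat_lit 1381216), (nat_lit 3281622), (nat_lit 8819459)]) (PF.cons (PF.leaf (nat_lit 5384287)
 (nat_lit 364461) (nat_lit 49823929) (nat_lit 2680965) [(nat_lit 364461), (nat_lit 1395405), (nat_lit 3297478), (nat_lit 8817650)]) (PF.cons (PF.leaf (nat_lit 5645436) (nat_lit 371854) (nat_lit 49390001) (nat_lit 2696133) [(nat_lit 371854), (nat_lit 1408852), (nat_lit 3312373), (nat_lit 8814036)]) PF.nil))))) (PF.cons (PF.cons (PF.leaf (nat_lit 5343424) (nat_lit 1396570) (nat_lit 49519512) (nat_lit 2684532) [(nat_lit 0), (nat_lit 1396570), (nat_lit 3301259), (nat_lit 8810367)]) (PF.cons (PF.leaf (nat_lit 5592964) (nat_lit 368573) (nat_lit 49101916) (nat_lit 2698653) [(nat_lit 368573), (nat_lit 1409436), (nat_lit 3315001), (nat_lit 8805795)]) (PF.cons (PF.leaf (nat_lit 5850995) (nat_lit 375737) (nat_lit 48674727) (nat_lit 2711984) [(nat_lit 375737),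 (nat_lit 1421641), (nat_lit 3327871), (nat_lit 8799470)]) (PF.cons PF.nil PF.nil)))) (PF.cons (PF.cons (PF.leaf (nat_lit 6055830) (nat_lit 1432981) (nat_lit 47963004) (nat_lit 2725503) [(nat_lit 0), (nat_lit 1432981), (nat_lit 3340707), (nat_lit 8780651)]) (PF.cons (PF.leaf (nat_lit 6316443) (nat_lit 385461) (nat_lit 47535934) (nat_lit 2736324) [(nat_lit 385461), (nat_lit 1443393), (nat_lit 3350802), (nat_lit 8770109)]) PF.nil)) (PF.cons
 PF.nil (PF.cons PF.nil PF.nil)))))) (PF.cons (PF.cons (PF.cons (PF.leaf (nat_lit 5228197) (nat_lit 2673033) (nat_lit 49072424) (nat_lit 2673033) [(nat_lit 0), (nat_lit 0), (nat_lit 3289770), (nat_lit 8783814)]) (PF.cons (PF.leaf (nat_lit 5464173) (nat_lit 358716) (nat_lit 48679720) (nat_lit 2686546) [(nat_lit 358716), (nat_lit 0), (nat_lit 3302691), (nat_lit 8778446)]) (PF.cons (PF.leaf (nat_lit 5710245) (nat_lit 366739) (nat_lit 48274641) (nat_lit 2699418) [(nat_lit 366739), (nat_lit 0), (nat_lit 3314910), (nat_lit 8771450)])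 (PF.cons (PF.leaf (nat_lit 5964216) (nat_lit 374044) (nat_lit 47859734) (nat_lit 2711540) [(nat_lit 374044), (nat_lit 0), (nat_lit 3326312), (nat_lit 8762779)]) (PF.cons PF.nil PF.nil))))) (PF.cons (PF.cons (PF.leaf (nat_lit 5915161) (nat_lit 1420887) (nat_lit 47569166) (nat_lit 2712772) [(nat_lit 0), (nat_lit 1420887), (nat_lit 3327384), (nat_lit 8751217)]) (PF.cons (PF.leaf (nat_lit 6164546) (nat_lit 377074) (nat_lit 47162643) (nat_lit 2723269) [(nat_lit 377074), (nat_lit 1431478), (nat_lit 3337013), (nat_lit 8740320)]) (PF.cons (PF.leaf (nat_lit 6421667) (nat_lit 383584) (nat_lit 46747773) (nat_lit 2733023) [(nat_lit 383584), (nat_lit 1441441), (nat_lit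
 3345820), (nat_lit 8727764)]) (PF.cons PF.nil PF.nil)))) (PF.cons (PF.cons (PF.leaf (nat_lit 6617600) (nat_lit 1449553) (nat_lit 46063637) (nat_lit 2741250) [(nat_lit 0), (nat_lit 1449553), (nat_lit 3352599), (nat_lit 8699619)]) (PF.cons (PF.leaf (nat_lit 6876324) (nat_lit 391731) (nat_lit 45650887) (nat_lit 2748828) [(nat_lit 391731), (nat_lit 1457927), (nat_lit 3359011), (nat_lit 8683487)]) PF.nil)) (PF.cons PF.nil (PF.cons PF.nil PF.nil))))) (PF.cons (PF.cons (PF.cons (PF.leaf (nat_lit 6466438) (nat_lit 2727533) (nat_lit 45699848) (nat_lit 2727533) [(nat_lit 0), (nat_lit 0), (nat_lit 3337956), (nat_lit 8667560)]) (PF.cons (PF.leaf (nat_lit 6714515) (nat_lit 383376) (nat_lit 45306573) (nat_lit 2734969) [(nat_lit 383376), (nat_lit 0), (nat_lit 3344128), (nat_lit 8651506)]) (PF.cons (PF.leaf (nat_lit 6969803) (nat_lit 389299) (nat_lit 44906006) (nat_lit 2741711) [(nat_lit 389299), (nat_lit 0), (nat_lit 3349532), (nat_lit 8633897)]) (PF.cons PF.nil PF.nil)))) (PF.cons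 (PF.cons (PF.leaf (nat_lit 7156832) (nat_lit 1459283) (nat_lit 44251470) (nat_lit 2745584) [(nat_lit 0), (nat_lit 1459283), (nat_lit 3351352), (nat_lit 8598415)]) (PF.cons PF.nil PF.nil)) (PF.cons PF.nil PF.nil)))
 (PF.cons (PF.cons (PF.cons (PF.leaf (nat_lit 7673831) (nat_lit 2740656) (nat_lit 42528307) (nat_lit 2740656) [(nat_lit 0), (nat_lit 0), (nat_lit 3339509), (nat_lit 8481812)]) (PF.cons PF.nil PF.nil)) (PF.cons PF.nil PF.nil)) (PF.cons PF.nil PF.nil)))))) (PF.cons (PF.cons (PF.cons (PF.cons (PF.leaf (nat_lit 4986357) (nat_lit 2592519) (nat_lit 47296765) (nat_lit 2592519) [(nat_lit 0), (nat_lit 0), (nat_lit 0), (nat_lit 8609763)]) (PF.cons (PF.leaf (nat_lit 5195820) (nat_lit 330781) (nat_lit 46963890) (nat_lit 2606478) [(nat_lit 330781), (nat_lit 0), (nat_lit 0), (nat_lit 8603831)]) (PF.cons (PF.leaf (nat_lit 5417987) (nat_lit 340592) (nat_lit 46614673) (nat_lit 2619982) [(nat_lit 340592), (nat_lit 0), (nat_lit 0), (nat_lit 8596485)]) (PF.cons (PF.leaf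 (nat_lit 5650016) (nat_lit 349388) (nat_lit 46252437) (nat_lit 2632855) [(nat_lit 349388), (nat_lit 0), (nat_lit 0), (nat_lit 8587677)]) (PF.cons (PF.leaf (nat_lit 5890427) (nat_lit 357347) (nat_lit 45879691) (nat_lit 2644986) [(nat_lit 357347), (nat_lit 0), (nat_lit 0), (nat_lit 8577372)]) (PF.cons (PF.leaf (nat_lit 6138041) (nat_lit 364596) (nat_lit 45498418) (nat_lit 2656302) [(nat_lit 364596), (nat_lit 0), (nat_lit 0), (nat_lit
 8565555)]) (PF.cons PF.nil (PF.cons PF.nil (PF.cons PF.nil PF.nil))))))))) (PF.cons (PF.cons (PF.leaf (nat_lit 5619007) (nat_lit 1364592) (nat_lit 45959048) (nat_lit 2634832) [(nat_lit 0), (nat_lit 1364592), (nat_lit 0), (nat_lit 8575169)]) (PF.cons (PF.leaf (nat_lit 5846112) (nat_lit 352882) (nat_lit 45604386) (nat_lit 2645982) [(nat_lit 352882), (nat_lit 1376516), (nat_lit 0), (nat_lit 8564522)]) (PF.cons (PF.leaf (nat_lit 6082896) (nat_lit 360649) (nat_lit 45238477) (nat_lit 2656490) [(nat_lit 360649), (nat_lit 1387780), (nat_lit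 0), (nat_lit 8552382)]) (PF.cons (PF.leaf (nat_lit 6327204) (nat_lit 367682) (nat_lit 44863644) (nat_lit 2666272) [(nat_lit 367682), (nat_lit 1398350), (nat_lit 0), (nat_lit 8538749)]) (PF.cons (PF.leaf (nat_lit 6577988) (nat_lit 374086) (nat_lit 44481710) (nat_lit 2675274) [(nat_lit 374086), (nat_lit 1408214), (nat_lit 0), (nat_lit 8523632)]) (PF.cons PF.nil (PF.cons PF.nil PF.nil))))))) (PF.cons (PF.cons (PF.leaf (nat_lit 6275515) (nat_lit 1397302) (nat_lit 44599845) (nat_lit 2665991) [(nat_lit 0), (nat_lit 1397302), (nat_lit 0), (nat_lit 8524185)]) (PF.cons (PF.leaf (nat_lit 6515264) (nat_lit 370234) (nat_lit 44232752) (nat_lit 2674344) [(nat_lit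
 370234), (nat_lit 1406811), (nat_lit 0), (nat_lit 8508928)]) (PF.cons (PF.leaf (nat_lit 6762458) (nat_lit 376466) (nat_lit 43858084) (nat_lit 2681993) [(nat_lit 376466), (nat_lit 1415690), (nat_lit 0), (nat_lit 8492209)]) (PF.cons (PF.leaf (nat_lit 7015456) (nat_lit 382135) (nat_lit 43477524) (nat_lit 2688901) [(nat_lit 382135), (nat_lit 1423930), (nat_lit 0), (nat_lit 8474058)]) (PF.cons PF.nil PF.nil))))) (PF.cons (PF.cons (PF.leaf (nat_lit 6946358) (nat_lit 1422074) (nat_lit 43239344) (nat_lit 2687040) [(nat_lit 0), (nat_lit 1422074), (nat_lit 0), (nat_lit 8458101)]) (PF.cons (PF.leaf (nat_lit 7194942) (nat_lit 383905) (nat_lit 42866666) (nat_lit 2692754) [(nat_lit 383905), (nat_lit 1429456), (nat_lit 0), (nat_lit 8438558)]) (PF.cons PF.nil (PF.cons PF.nil PF.nil)))) (PF.cons (PF.cons (PF.leaf (nat_lit 7624180) (nat_lit 1440072) (nat_lit 41892251) (nat_lit 2699092) [(nat_lit 0), (nat_lit 1440072), (nat_lit 0), (nat_lit 8378588)]) (PF.cons PF.nil PF.nil)) (PF.cons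 PF.nil PF.nil)))))) (PF.cons (PF.cons (PF.cons (PF.leaf (nat_lit 6144692) (nat_lit 2651193) (nat_lit 44224036) (nat_lit 2651193) [(nat_lit 0), (nat_lit 0), (nat_lit 3252279), (nat_lit 8490651)]) (PF.cons (PF.leaf
 (nat_lit 6371949) (nat_lit 360020) (nat_lit 43878894) (nat_lit 2659435) [(nat_lit 360020), (nat_lit 0), (nat_lit 3259086), (nat_lit 8475688)]) (PF.cons (PF.leaf (nat_lit 6608324) (nat_lit 367182) (nat_lit 43523636) (nat_lit 2667058) [(nat_lit 367182), (nat_lit 0), (nat_lit 3265230), (nat_lit 8459260)]) (PF.cons (PF.leaf (nat_lit 6851664) (nat_lit 373614) (nat_lit 43160503) (nat_lit 2674002) [(nat_lit 373614), (nat_lit 0), (nat_lit 3270646), (nat_lit 8441409)]) (PF.cons (PF.leaf (nat_lit 7100874) (nat_lit 379426) (nat_lit 42791234) (nat_lit 2680229) [(nat_lit 379426), (nat_lit 0), (nat_lit 3275295), (nat_lit 8422173)]) PF.nil))))) (PF.cons (PF.cons (PF.leaf (nat_lit 6793459) (nat_lit 1408952) (nat_lit 42910333) (nat_lit 2672231) [(nat_lit 0), (nat_lit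 1408952), (nat_lit 3268227), (nat_lit 8424534)]) (PF.cons (PF.leaf (nat_lit 7031905) (nat_lit 375346) (nat_lit 42555531) (nat_lit 2677982) [(nat_lit 375346), (nat_lit 1416711), (nat_lit 3272382), (nat_lit 8405429)]) (PF.cons (PF.leaf (nat_lit 7277302) (nat_lit 381030) (nat_lit 42194059) (nat_lit 2683078) [(nat_lit 381030), (nat_lit 1423880), (nat_lit 3275829), (nat_lit 8384951)]) (PF.cons PF.nil PF.nil)))) (PF.cons (PF.cons (PF.leaf
 (nat_lit 7453191) (nat_lit 1427955) (nat_lit 41602483) (nat_lit 2684533) [(nat_lit 0), (nat_lit 1427955), (nat_lit 3274806), (nat_lit 8345539)]) (PF.cons (PF.leaf (nat_lit 7699268) (nat_lit 387247) (nat_lit 41244159) (nat_lit 2687958) [(nat_lit 387247), (nat_lit 1433805), (nat_lit 3276461), (nat_lit 8322687)]) PF.nil)) (PF.cons PF.nil (PF.cons PF.nil PF.nil))))) (PF.cons (PF.cons (PF.cons (PF.leaf (nat_lit 7292808) (nat_lit 2669560) (nat_lit 41299266) (nat_lit 2669560) [(nat_lit 0), (nat_lit 0), (nat_lit 3258620), (nat_lit 8311372)])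 (PF.cons (PF.leaf (nat_lit 7529278) (nat_lit 378867) (nat_lit 40957709) (nat_lit 2673122) [(nat_lit 378867), (nat_lit 0), (nat_lit 3260366), (nat_lit 8289189)]) (PF.cons (PF.leaf (nat_lit 7772206) (nat_lit 384063) (nat_lit 40610250) (nat_lit 2676079) [(nat_lit 384063), (nat_lit 0), (nat_lit 3261455), (nat_lit 8265722)]) (PF.cons PF.nil PF.nil)))) (PF.cons (PF.cons (PF.leaf (nat_lit 7940302) (nat_lit 1429157) (nat_lit 40046222) (nat_lit 2674594) [(nat_lit 0), (nat_lit 1429157), (nat_lit 3257158), (nat_lit 8222260)]) (PF.cons PF.nil PF.nil)) (PF.cons PF.nil PF.nil))) (PF.cons (PF.cons (PF.cons (PF.leaf (nat_lit 8408276) (nat_lit 2658668) (nat_lit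
 38569335) (nat_lit 2658668) [(nat_lit 0), (nat_lit 0), (nat_lit 3232817), (nat_lit 8091178)]) (PF.cons PF.nil PF.nil)) (PF.cons PF.nil PF.nil)) (PF.cons PF.nil PF.nil))))) (PF.cons (PF.cons (PF.cons (PF.cons (PF.leaf (nat_lit 6945916) (nat_lit 2595712) (nat_lit 40089753) (nat_lit 2595712) [(nat_lit 0), (nat_lit 0), (nat_lit 0), (nat_lit 8141115)]) (PF.cons (PF.leaf (nat_lit 7164009) (nat_lit 356307) (nat_lit 39788400) (nat_lit 2600501) [(nat_lit 356307), (nat_lit 0), (nat_lit 0), (nat_lit 8121201)]) (PF.cons (PF.leaf (nat_lit 7390451) (nat_lit 362787) (nat_lit 39478607) (nat_lit 2604709) [(nat_lit 362787), (nat_lit 0), (nat_lit 0), (nat_lit 8099973)]) (PF.cons (PF.leaf (nat_lit 7623112) (nat_lit 368540) (nat_lit 39162321) (nat_lit 2608305) [(nat_lit 368540), (nat_lit 0), (nat_lit 0), (nat_lit 8077521)]) (PF.cons PF.nil PF.nil))))) (PF.cons (PF.cons (PF.leaf (nat_lit 7558996) (nat_lit 1381281) (nat_lit 38947538) (nat_lit 2604815) [(nat_lit 0), (nat_lit 1381281),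 (nat_lit 0), (nat_lit 8058392)]) (PF.cons (PF.leaf (nat_lit 7786738) (nat_lit 369402) (nat_lit 38638952) (nat_lit 2607518) [(nat_lit 369402), (nat_lit 1387089), (nat_lit 0), (nat_lit 8035283)]) (PF.cons (PF.leaf (nat_lit
 8020770) (nat_lit 374457) (nat_lit 38324863) (nat_lit 2609645) [(nat_lit 374457), (nat_lit 1392348), (nat_lit 0), (nat_lit 8011013)]) (PF.cons PF.nil PF.nil)))) (PF.cons (PF.cons (PF.leaf (nat_lit 8180256) (nat_lit 1393838) (nat_lit 37813965) (nat_lit 2607001) [(nat_lit 0), (nat_lit 1393838), (nat_lit 0), (nat_lit 7966723)]) (PF.cons PF.nil PF.nil)) PF.nil))) (PF.cons (PF.cons (PF.cons (PF.leaf (nat_lit 8015321) (nat_lit 2591927) (nat_lit 37560548) (nat_lit 2591927) [(nat_lit 0), (nat_lit 0), (nat_lit 3156907), (nat_lit 7933143)]) (PF.cons (PF.leaf (nat_lit 8240761) (nat_lit 371130) (nat_lit 37264072) (nat_lit 2593032) [(nat_lit 371130), (nat_lit 0), (nat_lit 3155931), (nat_lit 7908215)]) (PF.cons PF.nil PF.nil))) (PF.cons (PF.cons (PF.leaf (nat_lit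 8624823) (nat_lit 1389875) (nat_lit 36476043) (nat_lit 2588940) [(nat_lit 0), (nat_lit 1389875), (nat_lit 3146571), (nat_lit 7835794)]) PF.nil) PF.nil)) (PF.cons PF.nil PF.nil))) (PF.cons (PF.cons (PF.cons (PF.cons (PF.leaf (nat_lit 8656867) (nat_lit 2505557) (nat_lit 34371375) (nat_lit 2505557) [(nat_lit 0), (nat_lit 0), (nat_lit 0), (nat_lit 7557969)]) (PF.cons (PF.leaf (nat_lit 8872074) (nat_lit 361710) (nat_lit 34113226) (nat_lit
 2505095) [(nat_lit 361710), (nat_lit 0), (nat_lit 0), (nat_lit 7532195)]) PF.nil)) (PF.cons PF.nil PF.nil)) (PF.cons PF.nil PF.nil)) (PF.cons PF.nil (PF.cons PF.nil (PF.cons PF.nil (PF.cons PF.nil PF.nil)))))))))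

def p14_10_0_0 : pfC (piC [(nat_lit 41997052), (nat_lit 26592602), (nat_lit 19805017), (nat_lit 13318063)] (nat_lit 25902673)) p14_10_0 (nat_lit 4) (nat_lit 0) (nat_lit 1) = true := by decide +kernel
def p14_10_0_1 : pfC (piC [(nat_lit 41997052), (nat_lit 26592602), (nat_lit 19805017), (nat_lit 13318063)] (nat_lit 25902673)) p14_10_0 (nat_lit 4) (nat_lit 1) (nat_lit 2) = true := by decide +kernel
def p14_10_0_2 : pfC (piC [(nat_lit 41997052), (nat_lit 26592602), (nat_lit 19805017), (nat_lit 13318063)] (nat_lit 25902673)) p14_10_0 (nat_lit 4) (nat_lit 2) (nat_lit 3) = true := by decide +kernel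
def p14_10_0_3 : pfC (piC [(nat_lit 41997052), (nat_lit 26592602), (nat_lit 19805017), (nat_lit 13318063)] (nat_lit 25902673)) p14_10_0 (nat_lit 4) (nat_lit 3) (nat_lit 4) = true := by decide +kernel
def p14_10_0_4 : pfC (piC [(nat_lit 41997052), (nat_lit 26592602), (nat_lit 19805017), (nat_lit 13318063)] (nat_lit 25902673)) p14_10_0 (nat_lit 4) (nat_lit 4) (nat_lit 5) = true := by decide +kernel
def p14_10_0_5 : pfC (piC [(nat_lit 41997052), (nat_lit 26592602), (nat_lit 19805017), (nat_lit 13318063)] (nat_lit 25902673)) p14_10_0 (nat_lit 4) (nat_lit 5) (nat_lit 6) = true := by decide +kernel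
def p14_10_0_6 : pfC (piC [(nat_lit 41997052), (nat_lit 26592602), (nat_lit 19805017), (nat_lit 13318063)] (nat_lit 25902673)) p14_10_0 (nat_lit 4) (nat_lit 6) (nat_lit 7) = true := by decide +kernel
def p14_10_0_7 : pfC (piC [(nat_lit 41997052), (nat_lit 26592602), (nat_lit 19805017), (nat_lit 13318063)] (nat_lit 25902673)) p14_10_0 (nat_lit 4) (nat_lit 7) (nat_lit 8) = true := by decide +kernel
def p14_10_0_8 : pfC (piC [(nat_lit 41997052), (nat_lit 26592602), (nat_lit 19805017), (nat_lit 13318063)] (nat_lit 25902673)) p14_10_0 (nat_lit 4) (nat_lit 8) (nat_lit 9) = true := by decide +kernel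
def p14_10_0_9 : pfC (piC [(nat_lit 41997052), (nat_lit 26592602), (nat_lit 19805017), (nat_lit 13318063)] (nat_lit 25902673)) p14_10_0 (nat_lit 4) (nat_lit 9) (nat_lit 10) = true := by decide +kernel
def p14_10_0_10 : pfC (piC [(nat_lit 41997052), (nat_lit 26592602), (nat_lit 19805017), (nat_lit 13318063)] (nat_lit 25902673)) p14_10_0 (nat_lit 4) (nat_lit 10) (nat_lit 11) = true := by decide +kernel
def p14_10_0_11 : pfC (piC [(nat_lit 41997052), (nat_lit 26592602), (nat_lit 19805017), (nat_lit 13318063)] (nat_lit 25902673)) p14_10_0 (nat_lit 4) (nat_lit 11) (nat_lit 12) = true := by decide +kernel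
def p14_10_0_12 : pfC (piC [(nat_lit 41997052), (nat_lit 26592602), (nat_lit 19805017), (nat_lit 13318063)] (nat_lit 25902673)) p14_10_0 (nat_lit 4) (nat_lit 12) (nat_lit 13) = true := by decide +kernel
def p14_10_0_13 : pfC (piC [(nat_lit 41997052), (nat_lit 26592602), (nat_lit 19805017), (nat_lit 13318063)] (nat_lit 25902673)) p14_10_0 (nat_lit 4) (nat_lit 13) (nat_lit 14) = true := by decide +kernel
def p14_10_0_14 : pfC (piC [(nat_lit 41997052), (nat_lit 26592602), (nat_lit 19805017), (nat_lit 13318063)] (nat_lit 25902673)) p14_10_0 (nat_lit 4) (nat_lit 14) (nat_lit 15) = true := by decide +kernel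
def p14_10_0_15 : pfC (piC [(nat_lit 41997052), (nat_lit 26592602), (nat_lit 19805017), (nat_lit 13318063)] (nat_lit 25902673)) p14_10_0 (nat_lit 4) (nat_lit 15) (nat_lit 16) = true := by decide +kernel
def p14_10_0_16 : pfC (piC [(nat_lit 41997052), (nat_lit 26592602), (nat_lit 19805017), (nat_lit 13318063)] (nat_lit 25902673)) p14_10_0 (nat_lit 4) (nat_lit 16) (nat_lit 17) = true := by decide +kernel
def p14_10_0_17 : pfC (piC [(nat_lit 41997052), (nat_lit 26592602), (nat_lit 19805017), (nat_lit 13318063)] (nat_lit 25902673)) p14_10_0 (nat_lit 4) (nat_lit 17) (nat_lit 18) = true := by decide +kernel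
def p14_10_0_18 : pfC (piC [(nat_lit 41997052), (nat_lit 26592602), (nat_lit 19805017), (nat_lit 13318063)] (nat_lit 25902673)) p14_10_0 (nat_lit 4) (nat_lit 18) (nat_lit 19) = true := by decide +kernel
def p14_10_0_19 : pfC (piC [(nat_lit 41997052), (nat_lit 26592602), (nat_lit 19805017), (nat_lit 13318063)] (nat_lit 25902673)) p14_10_0 (nat_lit 4) (nat_lit 19) (nat_lit 20) = true := by decide +kernel
def p14_10_0_20 : pfC (piC [(nat_lit 41997052), (nat_lit 26592602), (nat_lit 19805017), (nat_lit 13318063)] (nat_lit 25902673)) p14_10_0 (nat_lit 4) (nat_lit 20) (nat_lit 21) = true := by decide +kernel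
def p14_10_0_21 : pfC (piC [(nat_lit 41997052), (nat_lit 26592602), (nat_lit 19805017), (nat_lit 13318063)] (nat_lit 25902673)) p14_10_0 (nat_lit 4) (nat_lit 21) (nat_lit 22) = true := by decide +kernel
def p14_10_0_22 : pfC (piC [(nat_lit 41997052), (nat_lit 26592602), (nat_lit 19805017), (nat_lit 13318063)] (nat_lit 25902673)) p14_10_0 (nat_lit 4) (nat_lit 22) (nat_lit 23) = true := by decide +kernel
def p14_10_0_23 : pfC (piC [(nat_lit 41997052), (nat_lit 26592602), (nat_lit 19805017), (nat_lit 13318063)] (nat_lit 25902673)) p14_10_0 (nat_lit 4) (nat_lit 23) (nat_lit 24) = true := by decide +kernel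
def p14_10_0_24 : pfC (piC [(nat_lit 41997052), (nat_lit 26592602), (nat_lit 19805017), (nat_lit 13318063)] (nat_lit 25902673)) p14_10_0 (nat_lit 4) (nat_lit 24) (nat_lit 25) = true := by decide +kernel
def p14_10_0_25 : pfC (piC [(nat_lit 41997052), (nat_lit 26592602), (nat_lit 19805017), (nat_lit 13318063)] (nat_lit 25902673)) p14_10_0 (nat_lit 4) (nat_lit 25) (nat_lit 26) = true := by decide +kernel
def p14_10_0_26 : pfC (piC [(nat_lit 41997052), (nat_lit 26592602), (nat_lit 19805017), (nat_lit 13318063)] (nat_lit 25902673)) p14_10_0 (nat_lit 4) (nat_lit 26) (nat_lit 27) = true := by decide +kernel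
def p14_10_0_27 : pfC (piC [(nat_lit 41997052), (nat_lit 26592602), (nat_lit 19805017), (nat_lit 13318063)] (nat_lit 25902673)) p14_10_0 (nat_lit 4) (nat_lit 27) (nat_lit 28) = true := by decide +kernel
def p14_10_0_28 : pfC (piC [(nat_lit 41997052), (nat_lit 26592602), (nat_lit 19805017), (nat_lit 13318063)] (nat_lit 25902673)) p14_10_0 (nat_lit 4) (nat_lit 28) (nat_lit 29) = true := by decide +kernel
def p14_10_0_29 : pfC (piC [(nat_lit 41997052), (nat_lit 26592602), (nat_lit 19805017), (nat_lit 13318063)] (nat_lit 25902673)) p14_10_0 (nat_lit 4) (nat_lit 29) (nat_lit 30) = true := by decide +kernel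
def p14_10_0_30 : pfC (piC [(nat_lit 41997052), (nat_lit 26592602), (nat_lit 19805017), (nat_lit 13318063)] (nat_lit 25902673)) p14_10_0 (nat_lit 4) (nat_lit 30) (nat_lit 31) = true := by decide +kernel
def p14_10_0_31 : pfC (piC [(nat_lit 41997052), (nat_lit 26592602), (nat_lit 19805017), (nat_lit 13318063)] (nat_lit 25902673)) p14_10_0 (nat_lit 4) (nat_lit 31) (nat_lit 32) = true := by decide +kernel
def p14_10_0_32 : pfC (piC [(nat_lit 41997052), (nat_lit 26592602), (nat_lit 19805017), (nat_lit 13318063)] (nat_lit 25902673)) p14_10_0 (nat_lit 4) (nat_lit 32) (nat_lit 33) = true := by decide +kernel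
def p14_10_0_33 : pfC (piC [(nat_lit 41997052), (nat_lit 26592602), (nat_lit 19805017), (nat_lit 13318063)] (nat_lit 25902673)) p14_10_0 (nat_lit 4) (nat_lit 33) (nat_lit 34) = true := by decide +kernel
def p14_10_0_34 : pfC (piC [(nat_lit 41997052), (nat_lit 26592602), (nat_lit 19805017), (nat_lit 13318063)] (nat_lit 25902673)) p14_10_0 (nat_lit 4) (nat_lit 34) (nat_lit 35) = true := by decide +kernel
def p14_10_0_35 : pfC (piC [(nat_lit 41997052), (nat_lit 26592602), (nat_lit 19805017), (nat_lit 13318063)] (nat_lit 25902673)) p14_10_0 (nat_lit 4) (nat_lit 35) (nat_lit 36) = true := by decide +kernel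
def p14_10_0_36 : pfC (piC [(nat_lit 41997052), (nat_lit 26592602), (nat_lit 19805017), (nat_lit 13318063)] (nat_lit 25902673)) p14_10_0 (nat_lit 4) (nat_lit 36) (nat_lit 37) = true := by decide +kernel
def p14_10_0_37 : pfC (piC [(nat_lit 41997052), (nat_lit 26592602), (nat_lit 19805017), (nat_lit 13318063)] (nat_lit 25902673)) p14_10_0 (nat_lit 4) (nat_lit 37) (nat_lit 38) = true := by decide +kernel
def p14_10_0_38 : pfC (piC [(nat_lit 41997052), (nat_lit 26592602), (nat_lit 19805017), (nat_lit 13318063)] (nat_lit 25902673)) p14_10_0 (nat_lit 4) (nat_lit 38) (nat_lit 39) = true := by decide +kernel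
def p14_10_0_39 : pfC (piC [(nat_lit 41997052), (nat_lit 26592602), (nat_lit 19805017), (nat_lit 13318063)] (nat_lit 25902673)) p14_10_0 (nat_lit 4) (nat_lit 39) (nat_lit 40) = true := by decide +kernel
def p14_10_0_40 : pfC (piC [(nat_lit 41997052), (nat_lit 26592602), (nat_lit 19805017), (nat_lit 13318063)] (nat_lit 25902673)) p14_10_0 (nat_lit 4) (nat_lit 40) (nat_lit 41) = true := by decide +kernel
def p14_10_0_41 : pfC (piC [(nat_lit 41997052), (nat_lit 26592602), (nat_lit 19805017), (nat_lit 13318063)] (nat_lit 25902673)) p14_10_0 (nat_lit 4) (nat_lit 41) (nat_lit 42) = true := by decide +kernel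
def p14_10_0_42 : pfC (piC [(nat_lit 41997052), (nat_lit 26592602), (nat_lit 19805017), (nat_lit 13318063)] (nat_lit 25902673)) p14_10_0 (nat_lit 4) (nat_lit 42) (nat_lit 43) = true := by decide +kernel
def p14_10_0_43 : pfC (piC [(nat_lit 41997052), (nat_lit 26592602), (nat_lit 19805017), (nat_lit 13318063)] (nat_lit 25902673)) p14_10_0 (nat_lit 4) (nat_lit 43) (nat_lit 44) = true := by decide +kernel
def p14_10_0_44 : pfC (piC [(nat_lit 41997052), (nat_lit 26592602), (nat_lit 19805017), (nat_lit 13318063)] (nat_lit 25902673)) p14_10_0 (nat_lit 4) (nat_lit 44) (nat_lit 45) = true := by decide +kernel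
def p14_10_0_45 : pfC (piC [(nat_lit 41997052), (nat_lit 26592602), (nat_lit 19805017), (nat_lit 13318063)] (nat_lit 25902673)) p14_10_0 (nat_lit 4) (nat_lit 45) (nat_lit 46) = true := by decide +kernel
def p14_10_0_46 : pfC (piC [(nat_lit 41997052), (nat_lit 26592602), (nat_lit 19805017), (nat_lit 13318063)] (nat_lit 25902673)) p14_10_0 (nat_lit 4) (nat_lit 46) (nat_lit 47) = true := by decide +kernel
def p14_10_0_47 : pfC (piC [(nat_lit 41997052), (nat_lit 26592602), (nat_lit 19805017), (nat_lit 13318063)] (nat_lit 25902673)) p14_10_0 (nat_lit 4) (nat_lit 47) (nat_lit 48) = true := by decide +kernel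
def p14_10_0_48 : pfC (piC [(nat_lit 41997052), (nat_lit 26592602), (nat_lit 19805017), (nat_lit 13318063)] (nat_lit 25902673)) p14_10_0 (nat_lit 4) (nat_lit 48) (nat_lit 49) = true := by decide +kernel
def p14_10_0_49 : pfC (piC [(nat_lit 41997052), (nat_lit 26592602), (nat_lit 19805017), (nat_lit 13318063)] (nat_lit 25902673)) p14_10_0 (nat_lit 4) (nat_lit 49) (nat_lit 50) = true := by decide +kernel
def p14_10_0_50 : pfC (piC [(nat_lit 41997052), (nat_lit 26592602), (nat_lit 19805017), (nat_lit 13318063)] (nat_lit 25902673)) p14_10_0 (nat_lit 4) (nat_lit 50) (nat_lit 51) = true := by decide +kernel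
def p14_10_0_51 : pfC (piC [(nat_lit 41997052), (nat_lit 26592602), (nat_lit 19805017), (nat_lit 13318063)] (nat_lit 25902673)) p14_10_0 (nat_lit 4) (nat_lit 51) (nat_lit 52) = true := by decide +kernel
def p14_10_0_52 : pfC (piC [(nat_lit 41997052), (nat_lit 26592602), (nat_lit 19805017), (nat_lit 13318063)] (nat_lit 25902673)) p14_10_0 (nat_lit 4) (nat_lit 52) (nat_lit 53) = true := by decide +kernel
def p14_10_0_53 : pfC (piC [(nat_lit 41997052), (nat_lit 26592602), (nat_lit 19805017), (nat_lit 13318063)] (nat_lit 25902673)) p14_10_0 (nat_lit 4) (nat_lit 53) (nat_lit 54) = true := by decide +kernel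
def p14_10_0_54 : pfC (piC [(nat_lit 41997052), (nat_lit 26592602), (nat_lit 19805017), (nat_lit 13318063)] (nat_lit 25902673)) p14_10_0 (nat_lit 4) (nat_lit 54) (nat_lit 55) = true := by decide +kernel
def p14_10_0_55 : pfC (piC [(nat_lit 41997052), (nat_lit 26592602), (nat_lit 19805017), (nat_lit 13318063)] (nat_lit 25902673)) p14_10_0 (nat_lit 4) (nat_lit 55) (nat_lit 56) = true := by decide +kernel
def p14_10_0_56 : pfC (piC [(nat_lit 41997052), (nat_lit 26592602), (nat_lit 19805017), (nat_lit 13318063)] (nat_lit 25902673)) p14_10_0 (nat_lit 4) (nat_lit 56) (nat_lit 57) = true := by decide +kernel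
def p14_10_0_57 : pfC (piC [(nat_lit 41997052), (nat_lit 26592602), (nat_lit 19805017), (nat_lit 13318063)] (nat_lit 25902673)) p14_10_0 (nat_lit 4) (nat_lit 57) (nat_lit 58) = true := by decide +kernel
def p14_10_0_58 : pfC (piC [(nat_lit 41997052), (nat_lit 26592602), (nat_lit 19805017), (nat_lit 13318063)] (nat_lit 25902673)) p14_10_0 (nat_lit 4) (nat_lit 58) (nat_lit 59) = true := by decide +kernel
def p14_10_0_59 : pfC (piC [(nat_lit 41997052), (nat_lit 26592602), (nat_lit 19805017), (nat_lit 13318063)] (nat_lit 25902673)) p14_10_0 (nat_lit 4) (nat_lit 59) (nat_lit 60) = true := by decide +kernel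
def p14_10_0_60 : pfC (piC [(nat_lit 41997052), (nat_lit 26592602), (nat_lit 19805017), (nat_lit 13318063)] (nat_lit 25902673)) p14_10_0 (nat_lit 4) (nat_lit 60) (nat_lit 61) = true := by decide +kernel
def p14_10_0_61 : pfC (piC [(nat_lit 41997052), (nat_lit 26592602), (nat_lit 19805017), (nat_lit 13318063)] (nat_lit 25902673)) p14_10_0 (nat_lit 4) (nat_lit 61) (nat_lit 62) = true := by decide +kernel
def p14_10_0_62 : pfC (piC [(nat_lit 41997052), (nat_lit 26592602), (nat_lit 19805017), (nat_lit 13318063)] (nat_lit 25902673)) p14_10_0 (nat_lit 4) (nat_lit 62) (nat_lit 63) = true := by decide +kernel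
def p14_10_0_63 : pfC (piC [(nat_lit 41997052), (nat_lit 26592602), (nat_lit 19805017), (nat_lit 13318063)] (nat_lit 25902673)) p14_10_0 (nat_lit 4) (nat_lit 63) (nat_lit 64) = true := by decide +kernel
def p14_10_0_64 : pfC (piC [(nat_lit 41997052), (nat_lit 26592602), (nat_lit 19805017), (nat_lit 13318063)] (nat_lit 25902673)) p14_10_0 (nat_lit 4) (nat_lit 64) (nat_lit 65) = true := by decide +kernel
def p14_10_0_65 : pfC (piC [(nat_lit 41997052), (nat_lit 26592602), (nat_lit 19805017), (nat_lit 13318063)] (nat_lit 25902673)) p14_10_0 (nat_lit 4) (nat_lit 65) (nat_lit 66) = true := by decide +kernel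
def p14_10_0_66 : pfC (piC [(nat_lit 41997052), (nat_lit 26592602), (nat_lit 19805017), (nat_lit 13318063)] (nat_lit 25902673)) p14_10_0 (nat_lit 4) (nat_lit 66) (nat_lit 67) = true := by decide +kernel
def p14_10_0_67 : pfC (piC [(nat_lit 41997052), (nat_lit 26592602), (nat_lit 19805017), (nat_lit 13318063)] (nat_lit 25902673)) p14_10_0 (nat_lit 4) (nat_lit 67) (nat_lit 68) = true := by decide +kernel
def p14_10_0_68 : pfC (piC [(nat_lit 41997052), (nat_lit 26592602), (nat_lit 19805017), (nat_lit 13318063)] (nat_lit 25902673)) p14_10_0 (nat_lit 4) (nat_lit 68) (nat_lit 69) = true := by decide +kernel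
def p14_10_0_69 : pfC (piC [(nat_lit 41997052), (nat_lit 26592602), (nat_lit 19805017), (nat_lit 13318063)] (nat_lit 25902673)) p14_10_0 (nat_lit 4) (nat_lit 69) (nat_lit 70) = true := by decide +kernel
def p14_10_0_70 : pfC (piC [(nat_lit 41997052), (nat_lit 26592602), (nat_lit 19805017), (nat_lit 13318063)] (nat_lit 25902673)) p14_10_0 (nat_lit 4) (nat_lit 70) (nat_lit 71) = true := by decide +kernel
def p14_10_0_71 : pfC (piC [(nat_lit 41997052), (nat_lit 26592602), (nat_lit 19805017), (nat_lit 13318063)] (nat_lit 25902673)) p14_10_0 (nat_lit 4) (nat_lit 71) (nat_lit 72) = true := by decide +kernel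
def p14_10_0_72 : pfC (piC [(nat_lit 41997052), (nat_lit 26592602), (nat_lit 19805017), (nat_lit 13318063)] (nat_lit 25902673)) p14_10_0 (nat_lit 4) (nat_lit 72) (nat_lit 73) = true := by decide +kernel
def p14_10_0_73 : pfC (piC [(nat_lit 41997052), (nat_lit 26592602), (nat_lit 19805017), (nat_lit 13318063)] (nat_lit 25902673)) p14_10_0 (nat_lit 4) (nat_lit 73) (nat_lit 74) = true := by decide +kernel
def p14_10_0_74 : pfC (piC [(nat_lit 41997052), (nat_lit 26592602), (nat_lit 19805017), (nat_lit 13318063)] (nat_lit 25902673)) p14_10_0 (nat_lit 4) (nat_lit 74) (nat_lit 75) = true := by decide +kernel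
def p14_10_0_75 : pfC (piC [(nat_lit 41997052), (nat_lit 26592602), (nat_lit 19805017), (nat_lit 13318063)] (nat_lit 25902673)) p14_10_0 (nat_lit 4) (nat_lit 75) (nat_lit 76) = true := by decide +kernel
def p14_10_0_76 : pfC (piC [(nat_lit 41997052), (nat_lit 26592602), (nat_lit 19805017), (nat_lit 13318063)] (nat_lit 25902673)) p14_10_0 (nat_lit 4) (nat_lit 76) (nat_lit 77) = true := by decide +kernel
def p14_10_0_77 : pfC (piC [(nat_lit 41997052), (nat_lit 26592602), (nat_lit 19805017), (nat_lit 13318063)] (nat_lit 25902673)) p14_10_0 (nat_lit 4) (nat_lit 77) (nat_lit 78) = true := by decide +kernel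
def p14_10_0_78 : pfC (piC [(nat_lit 41997052), (nat_lit 26592602), (nat_lit 19805017), (nat_lit 13318063)] (nat_lit 25902673)) p14_10_0 (nat_lit 4) (nat_lit 78) (nat_lit 79) = true := by decide +kernel
def p14_10_0_79 : pfC (piC [(nat_lit 41997052), (nat_lit 26592602), (nat_lit 19805017), (nat_lit 13318063)] (nat_lit 25902673)) p14_10_0 (nat_lit 4) (nat_lit 79) (nat_lit 80) = true := by decide +kernel
def p14_10_0_80 : pfC (piC [(nat_lit 41997052), (nat_lit 26592602), (nat_lit 19805017), (nat_lit 13318063)] (nat_lit 25902673)) p14_10_0 (nat_lit 4) (nat_lit 80) (nat_lit 81) = true := by decide +kernel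
def p14_10_0_81 : pfC (piC [(nat_lit 41997052), (nat_lit 26592602), (nat_lit 19805017), (nat_lit 13318063)] (nat_lit 25902673)) p14_10_0 (nat_lit 4) (nat_lit 81) (nat_lit 82) = true := by decide +kernel
def p14_10_0_82 : pfC (piC [(nat_lit 41997052), (nat_lit 26592602), (nat_lit 19805017), (nat_lit 13318063)] (nat_lit 25902673)) p14_10_0 (nat_lit 4) (nat_lit 82) (nat_lit 83) = true := by decide +kernel
def p14_10_0_83 : pfC (piC [(nat_lit 41997052), (nat_lit 26592602), (nat_lit 19805017), (nat_lit 13318063)] (nat_lit 25902673)) p14_10_0 (nat_lit 4) (nat_lit 83) (nat_lit 84) = true := by decide +kernel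
def p14_10_0_84 : pfC (piC [(nat_lit 41997052), (nat_lit 26592602), (nat_lit 19805017), (nat_lit 13318063)] (nat_lit 25902673)) p14_10_0 (nat_lit 4) (nat_lit 84) (nat_lit 85) = true := by decide +kernel
def p14_10_0_85 : pfC (piC [(nat_lit 41997052), (nat_lit 26592602), (nat_lit 19805017), (nat_lit 13318063)] (nat_lit 25902673)) p14_10_0 (nat_lit 4) (nat_lit 85) (nat_lit 86) = true := by decide +kernel
def p14_10_0_86 : pfC (piC [(nat_lit 41997052), (nat_lit 26592602), (nat_lit 19805017), (nat_lit 13318063)] (nat_lit 25902673)) p14_10_0 (nat_lit 4) (nat_lit 86) (nat_lit 87) = true := by decide +kernel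
def p14_10_0_87 : pfC (piC [(nat_lit 41997052), (nat_lit 26592602), (nat_lit 19805017), (nat_lit 13318063)] (nat_lit 25902673)) p14_10_0 (nat_lit 4) (nat_lit 87) (nat_lit 88) = true := by decide +kernel
def p14_10_0_88 : pfC (piC [(nat_lit 41997052), (nat_lit 26592602), (nat_lit 19805017), (nat_lit 13318063)] (nat_lit 25902673)) p14_10_0 (nat_lit 4) (nat_lit 88) (nat_lit 89) = true := by decide +kernel
def p14_10_0_89 : pfC (piC [(nat_lit 41997052), (nat_lit 26592602), (nat_lit 19805017), (nat_lit 13318063)] (nat_lit 25902673)) p14_10_0 (nat_lit 4) (nat_lit 89) (nat_lit 90) = true := by decide +kernel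
def p14_10_0_90 : pfC (piC [(nat_lit 41997052), (nat_lit 26592602), (nat_lit 19805017), (nat_lit 13318063)] (nat_lit 25902673)) p14_10_0 (nat_lit 4) (nat_lit 90) (nat_lit 91) = true := by decide +kernel
def p14_10_0_91 : pfC (piC [(nat_lit 41997052), (nat_lit 26592602), (nat_lit 19805017), (nat_lit 13318063)] (nat_lit 25902673)) p14_10_0 (nat_lit 4) (nat_lit 91) (nat_lit 92) = true := by decide +kernel
def p14_10_0_92 : pfC (piC [(nat_lit 41997052), (nat_lit 26592602), (nat_lit 19805017), (nat_lit 13318063)] (nat_lit 25902673)) p14_10_0 (nat_lit 4) (nat_lit 92) (nat_lit 93) = true := by decide +kernel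
def p14_10_0_93 : pfC (piC [(nat_lit 41997052), (nat_lit 26592602), (nat_lit 19805017), (nat_lit 13318063)] (nat_lit 25902673)) p14_10_0 (nat_lit 4) (nat_lit 93) (nat_lit 94) = true := by decide +kernel
def p14_10_0_94 : pfC (piC [(nat_lit 41997052), (nat_lit 26592602), (nat_lit 19805017), (nat_lit 13318063)] (nat_lit 25902673)) p14_10_0 (nat_lit 4) (nat_lit 94) (nat_lit 95) = true := by decide +kernel
def p14_10_0_95 : pfC (piC [(nat_lit 41997052), (nat_lit 26592602), (nat_lit 19805017), (nat_lit 13318063)] (nat_lit 25902673)) p14_10_0 (nat_lit 4) (nat_lit 95) (nat_lit 96) = true := by decide +kernel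
def p14_10_0_96 : pfC (piC [(nat_lit 41997052), (nat_lit 26592602), (nat_lit 19805017), (nat_lit 13318063)] (nat_lit 25902673)) p14_10_0 (nat_lit 4) (nat_lit 96) (nat_lit 97) = true := by decide +kernel
def p14_10_0_97 : pfC (piC [(nat_lit 41997052), (nat_lit 26592602), (nat_lit 19805017), (nat_lit 13318063)] (nat_lit 25902673)) p14_10_0 (nat_lit 4) (nat_lit 97) (nat_lit 98) = true := by decide +kernel
def p14_10_0_98 : pfC (piC [(nat_lit 41997052), (nat_lit 26592602), (nat_lit 19805017), (nat_lit 13318063)] (nat_lit 25902673)) p14_10_0 (nat_lit 4) (nat_lit 98) (nat_lit 99) = true := by decide +kernel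
def p14_10_0_99 : pfC (piC [(nat_lit 41997052), (nat_lit 26592602), (nat_lit 19805017), (nat_lit 13318063)] (nat_lit 25902673)) p14_10_0 (nat_lit 4) (nat_lit 99) (nat_lit 100) = true := by decide +kernel
def p14_10_0_100 : pfC (piC [(nat_lit 41997052), (nat_lit 26592602), (nat_lit 19805017), (nat_lit 13318063)] (nat_lit 25902673)) p14_10_0 (nat_lit 4) (nat_lit 100) (nat_lit 101) = true := by decide +kernel
def p14_10_0_101 : pfC (piC [(nat_lit 41997052), (nat_lit 26592602), (nat_lit 19805017), (nat_lit 13318063)] (nat_lit 25902673)) p14_10_0 (nat_lit 4) (nat_lit 101) (nat_lit 102) = true := by decide +kernel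
def p14_10_0_102 : pfC (piC [(nat_lit 41997052), (nat_lit 26592602), (nat_lit 19805017), (nat_lit 13318063)] (nat_lit 25902673)) p14_10_0 (nat_lit 4) (nat_lit 102) (nat_lit 103) = true := by decide +kernel
def p14_10_0_103 : pfC (piC [(nat_lit 41997052), (nat_lit 26592602), (nat_lit 19805017), (nat_lit 13318063)] (nat_lit 25902673)) p14_10_0 (nat_lit 4) (nat_lit 103) (nat_lit 104) = true := by decide +kernel
def p14_10_0_104 : pfC (piC [(nat_lit 41997052), (nat_lit 26592602), (nat_lit 19805017), (nat_lit 13318063)] (nat_lit 25902673)) p14_10_0 (nat_lit 4) (nat_lit 104) (nat_lit 105) = true := by decide +kernel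
def p14_10_0_105 : pfC (piC [(nat_lit 41997052), (nat_lit 26592602), (nat_lit 19805017), (nat_lit 13318063)] (nat_lit 25902673)) p14_10_0 (nat_lit 4) (nat_lit 105) (nat_lit 106) = true := by decide +kernel
def p14_10_0_106 : pfC (piC [(nat_lit 41997052), (nat_lit 26592602), (nat_lit 19805017), (nat_lit 13318063)] (nat_lit 25902673)) p14_10_0 (nat_lit 4) (nat_lit 106) (nat_lit 107) = true := by decide +kernel
def p14_10_0_107 : pfC (piC [(nat_lit 41997052), (nat_lit 26592602), (nat_lit 19805017), (nat_lit 13318063)] (nat_lit 25902673)) p14_10_0 (nat_lit 4) (nat_lit 107) (nat_lit 108) = true := by decide +kernel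
def p14_10_0_108 : pfC (piC [(nat_lit 41997052), (nat_lit 26592602), (nat_lit 19805017), (nat_lit 13318063)] (nat_lit 25902673)) p14_10_0 (nat_lit 4) (nat_lit 108) (nat_lit 109) = true := by decide +kernel
def p14_10_0_109 : pfC (piC [(nat_lit 41997052), (nat_lit 26592602), (nat_lit 19805017), (nat_lit 13318063)] (nat_lit 25902673)) p14_10_0 (nat_lit 4) (nat_lit 109) (nat_lit 110) = true := by decide +kernel
def p14_10_0_110 : pfC (piC [(nat_lit 41997052), (nat_lit 26592602), (nat_lit 19805017), (nat_lit 13318063)] (nat_lit 25902673)) p14_10_0 (nat_lit 4) (nat_lit 110) (nat_lit 111) = true := by decide +kernel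
def p14_10_0_111 : pfC (piC [(nat_lit 41997052), (nat_lit 26592602), (nat_lit 19805017), (nat_lit 13318063)] (nat_lit 25902673)) p14_10_0 (nat_lit 4) (nat_lit 111) (nat_lit 112) = true := by decide +kernel
def p14_10_0_112 : pfC (piC [(nat_lit 41997052), (nat_lit 26592602), (nat_lit 19805017), (nat_lit 13318063)] (nat_lit 25902673)) p14_10_0 (nat_lit 4) (nat_lit 112) (nat_lit 113) = true := by decide +kernel
def p14_10_0_113 : pfC (piC [(nat_lit 41997052), (nat_lit 26592602), (nat_lit 19805017), (nat_lit 13318063)] (nat_lit 25902673)) p14_10_0 (nat_lit 4) (nat_lit 113) (nat_lit 114) = true := by decide +kernel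
def p14_10_0_114 : pfC (piC [(nat_lit 41997052), (nat_lit 26592602), (nat_lit 19805017), (nat_lit 13318063)] (nat_lit 25902673)) p14_10_0 (nat_lit 4) (nat_lit 114) (nat_lit 115) = true := by decide +kernel
def p14_10_0_115 : pfC (piC [(nat_lit 41997052), (nat_lit 26592602), (nat_lit 19805017), (nat_lit 13318063)] (nat_lit 25902673)) p14_10_0 (nat_lit 4) (nat_lit 115) (nat_lit 116) = true := by decide +kernel
def p14_10_0_116 : pfC (piC [(nat_lit 41997052), (nat_lit 26592602), (nat_lit 19805017), (nat_lit 13318063)] (nat_lit 25902673)) p14_10_0 (nat_lit 4) (nat_lit 116) (nat_lit 117) = true := by decide +kernel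
def p14_10_0_117 : pfC (piC [(nat_lit 41997052), (nat_lit 26592602), (nat_lit 19805017), (nat_lit 13318063)] (nat_lit 25902673)) p14_10_0 (nat_lit 4) (nat_lit 117) (nat_lit 118) = true := by decide +kernel
def p14_10_0_118 : pfC (piC [(nat_lit 41997052), (nat_lit 26592602), (nat_lit 19805017), (nat_lit 13318063)] (nat_lit 25902673)) p14_10_0 (nat_lit 4) (nat_lit 118) (nat_lit 119) = true := by decide +kernel
def p14_10_0_119 : pfC (piC [(nat_lit 41997052), (nat_lit 26592602), (nat_lit 19805017), (nat_lit 13318063)] (nat_lit 25902673)) p14_10_0 (nat_lit 4) (nat_lit 119) (nat_lit 120) = true := by decide +kernel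
def p14_10_0_120 : pfC (piC [(nat_lit 41997052), (nat_lit 26592602), (nat_lit 19805017), (nat_lit 13318063)] (nat_lit 25902673)) p14_10_0 (nat_lit 4) (nat_lit 120) (nat_lit 121) = true := by decide +kernel
def p14_10_0_121 : pfC (piC [(nat_lit 41997052), (nat_lit 26592602), (nat_lit 19805017), (nat_lit 13318063)] (nat_lit 25902673)) p14_10_0 (nat_lit 4) (nat_lit 121) (nat_lit 122) = true := by decide +kernel
def p14_10_0_122 : pfC (piC [(nat_lit 41997052), (nat_lit 26592602), (nat_lit 19805017), (nat_lit 13318063)] (nat_lit 25902673)) p14_10_0 (nat_lit 4) (nat_lit 122) (nat_lit 123) = true := by decide +kernel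
def p14_10_0_123 : pfC (piC [(nat_lit 41997052), (nat_lit 26592602), (nat_lit 19805017), (nat_lit 13318063)] (nat_lit 25902673)) p14_10_0 (nat_lit 4) (nat_lit 123) (nat_lit 124) = true := by decide +kernel
def p14_10_0_124 : pfC (piC [(nat_lit 41997052), (nat_lit 26592602), (nat_lit 19805017), (nat_lit 13318063)] (nat_lit 25902673)) p14_10_0 (nat_lit 4) (nat_lit 124) (nat_lit 125) = true := by decide +kernel
def p14_10_0_125 : pfC (piC [(nat_lit 41997052), (nat_lit 26592602), (nat_lit 19805017), (nat_lit 13318063)] (nat_lit 25902673)) p14_10_0 (nat_lit 4) (nat_lit 125) (nat_lit 126) = true := by decide +kernel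
def p14_10_0_126 : pfC (piC [(nat_lit 41997052), (nat_lit 26592602), (nat_lit 19805017), (nat_lit 13318063)] (nat_lit 25902673)) p14_10_0 (nat_lit 4) (nat_lit 126) (nat_lit 127) = true := by decide +kernel
def p14_10_0_127 : pfC (piC [(nat_lit 41997052), (nat_lit 26592602), (nat_lit 19805017), (nat_lit 13318063)] (nat_lit 25902673)) p14_10_0 (nat_lit 4) (nat_lit 127) (nat_lit 128) = true := by decide +kernel
def p14_10_0_128 : pfC (piC [(nat_lit 41997052), (nat_lit 26592602), (nat_lit 19805017), (nat_lit 13318063)] (nat_lit 25902673)) p14_10_0 (nat_lit 4) (nat_lit 128) (nat_lit 129) = true := by decide +kernel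
def p14_10_0_129 : pfC (piC [(nat_lit 41997052), (nat_lit 26592602), (nat_lit 19805017), (nat_lit 13318063)] (nat_lit 25902673)) p14_10_0 (nat_lit 4) (nat_lit 129) (nat_lit 130) = true := by decide +kernel
def p14_10_0_130 : pfC (piC [(nat_lit 41997052), (nat_lit 26592602), (nat_lit 19805017), (nat_lit 13318063)] (nat_lit 25902673)) p14_10_0 (nat_lit 4) (nat_lit 130) (nat_lit 131) = true := by decide +kernel
def p14_10_0_131 : pfC (piC [(nat_lit 41997052), (nat_lit 26592602), (nat_lit 19805017), (nat_lit 13318063)] (nat_lit 25902673)) p14_10_0 (nat_lit 4) (nat_lit 131) (nat_lit 132) = true := by decide +kernel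
def p14_10_0_132 : pfC (piC [(nat_lit 41997052), (nat_lit 26592602), (nat_lit 19805017), (nat_lit 13318063)] (nat_lit 25902673)) p14_10_0 (nat_lit 4) (nat_lit 132) (nat_lit 133) = true := by decide +kernel
def p14_10_0_133 : pfC (piC [(nat_lit 41997052), (nat_lit 26592602), (nat_lit 19805017), (nat_lit 13318063)] (nat_lit 25902673)) p14_10_0 (nat_lit 4) (nat_lit 133) (nat_lit 134) = true := by decide +kernel
def p14_10_0_134 : pfC (piC [(nat_lit 41997052), (nat_lit 26592602), (nat_lit 19805017), (nat_lit 13318063)] (nat_lit 25902673)) p14_10_0 (nat_lit 4) (nat_lit 134) (nat_lit 135) = true := by decide +kernel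
def p14_10_0_135 : pfC (piC [(nat_lit 41997052), (nat_lit 26592602), (nat_lit 19805017), (nat_lit 13318063)] (nat_lit 25902673)) p14_10_0 (nat_lit 4) (nat_lit 135) (nat_lit 136) = true := by decide +kernel
def p14_10_0_136 : pfC (piC [(nat_lit 41997052), (nat_lit 26592602), (nat_lit 19805017), (nat_lit 13318063)] (nat_lit 25902673)) p14_10_0 (nat_lit 4) (nat_lit 136) (nat_lit 137) = true := by decide +kernel
def p14_10_0_137 : pfC (piC [(nat_lit 41997052), (nat_lit 26592602), (nat_lit 19805017), (nat_lit 13318063)] (nat_lit 25902673)) p14_10_0 (nat_lit 4) (nat_lit 137) (nat_lit 138) = true := by decide +kernel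
def p14_10_0_138 : pfC (piC [(nat_lit 41997052), (nat_lit 26592602), (nat_lit 19805017), (nat_lit 13318063)] (nat_lit 25902673)) p14_10_0 (nat_lit 4) (nat_lit 138) (nat_lit 139) = true := by decide +kernel
def p14_10_0_139 : pfC (piC [(nat_lit 41997052), (nat_lit 26592602), (nat_lit 19805017), (nat_lit 13318063)] (nat_lit 25902673)) p14_10_0 (nat_lit 4) (nat_lit 139) (nat_lit 140) = true := by decide +kernel
def p14_10_0_140 : pfC (piC [(nat_lit 41997052), (nat_lit 26592602), (nat_lit 19805017), (nat_lit 13318063)] (nat_lit 25902673)) p14_10_0 (nat_lit 4) (nat_lit 140) (nat_lit 141) = true := by decide +kernel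
def p14_10_0_141 : pfC (piC [(nat_lit 41997052), (nat_lit 26592602), (nat_lit 19805017), (nat_lit 13318063)] (nat_lit 25902673)) p14_10_0 (nat_lit 4) (nat_lit 141) (nat_lit 142) = true := by decide +kernel
def p14_10_0_142 : pfC (piC [(nat_lit 41997052), (nat_lit 26592602), (nat_lit 19805017), (nat_lit 13318063)] (nat_lit 25902673)) p14_10_0 (nat_lit 4) (nat_lit 142) (nat_lit 143) = true := by decide +kernel
def p14_10_0_143 : pfC (piC [(nat_lit 41997052), (nat_lit 26592602), (nat_lit 19805017), (nat_lit 13318063)] (nat_lit 25902673)) p14_10_0 (nat_lit 4) (nat_lit 143) (nat_lit 144) = true := by decide +kernel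
def p14_10_0_144 : pfC (piC [(nat_lit 41997052), (nat_lit 26592602), (nat_lit 19805017), (nat_lit 13318063)] (nat_lit 25902673)) p14_10_0 (nat_lit 4) (nat_lit 144) (nat_lit 145) = true := by decide +kernel
def p14_10_0_145 : pfC (piC [(nat_lit 41997052), (nat_lit 26592602), (nat_lit 19805017), (nat_lit 13318063)] (nat_lit 25902673)) p14_10_0 (nat_lit 4) (nat_lit 145) (nat_lit 146) = true := by decide +kernel
def p14_10_0_146 : pfC (piC [(nat_lit 41997052), (nat_lit 26592602), (nat_lit 19805017), (nat_lit 13318063)] (nat_lit 25902673)) p14_10_0 (nat_lit 4) (nat_lit 146) (nat_lit 147) = true := by decide +kernel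
def p14_10_0_147 : pfC (piC [(nat_lit 41997052), (nat_lit 26592602), (nat_lit 19805017), (nat_lit 13318063)] (nat_lit 25902673)) p14_10_0 (nat_lit 4) (nat_lit 147) (nat_lit 148) = true := by decide +kernel
def p14_10_0_148 : pfC (piC [(nat_lit 41997052), (nat_lit 26592602), (nat_lit 19805017), (nat_lit 13318063)] (nat_lit 25902673)) p14_10_0 (nat_lit 4) (nat_lit 148) (nat_lit 149) = true := by decide +kernel
def p14_10_0_149 : pfC (piC [(nat_lit 41997052), (nat_lit 26592602), (nat_lit 19805017), (nat_lit 13318063)] (nat_lit 25902673)) p14_10_0 (nat_lit 4) (nat_lit 149) (nat_lit 150) = true := by decide +kernel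
def p14_10_0_150 : pfC (piC [(nat_lit 41997052), (nat_lit 26592602), (nat_lit 19805017), (nat_lit 13318063)] (nat_lit 25902673)) p14_10_0 (nat_lit 4) (nat_lit 150) (nat_lit 151) = true := by decide +kernel
def p14_10_0_151 : pfC (piC [(nat_lit 41997052), (nat_lit 26592602), (nat_lit 19805017), (nat_lit 13318063)] (nat_lit 25902673)) p14_10_0 (nat_lit 4) (nat_lit 151) (nat_lit 152) = true := by decide +kernel
def p14_10_0_152 : pfC (piC [(nat_lit 41997052), (nat_lit 26592602), (nat_lit 19805017), (nat_lit 13318063)] (nat_lit 25902673)) p14_10_0 (nat_lit 4) (nat_lit 152) (nat_lit 153) = true := by decide +kernel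
def p14_10_0_153 : pfC (piC [(nat_lit 41997052), (nat_lit 26592602), (nat_lit 19805017), (nat_lit 13318063)] (nat_lit 25902673)) p14_10_0 (nat_lit 4) (nat_lit 153) (nat_lit 154) = true := by decide +kernel
def p14_10_0_154 : pfC (piC [(nat_lit 41997052), (nat_lit 26592602), (nat_lit 19805017), (nat_lit 13318063)] (nat_lit 25902673)) p14_10_0 (nat_lit 4) (nat_lit 154) (nat_lit 155) = true := by decide +kernel
def p14_10_0_155 : pfC (piC [(nat_lit 41997052), (nat_lit 26592602), (nat_lit 19805017), (nat_lit 13318063)] (nat_lit 25902673)) p14_10_0 (nat_lit 4) (nat_lit 155) (nat_lit 156) = true := by decide +kernel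
def p14_10_0_156 : pfC (piC [(nat_lit 41997052), (nat_lit 26592602), (nat_lit 19805017), (nat_lit 13318063)] (nat_lit 25902673)) p14_10_0 (nat_lit 4) (nat_lit 156) (nat_lit 157) = true := by decide +kernel
def p14_10_0_157 : pfC (piC [(nat_lit 41997052), (nat_lit 26592602), (nat_lit 19805017), (nat_lit 13318063)] (nat_lit 25902673)) p14_10_0 (nat_lit 4) (nat_lit 157) (nat_lit 158) = true := by decide +kernel
def p14_10_0_158 : pfC (piC [(nat_lit 41997052), (nat_lit 26592602), (nat_lit 19805017), (nat_lit 13318063)] (nat_lit 25902673)) p14_10_0 (nat_lit 4) (nat_lit 158) (nat_lit 159) = true := by decide +kernel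
def p14_10_0_159 : pfC (piC [(nat_lit 41997052), (nat_lit 26592602), (nat_lit 19805017), (nat_lit 13318063)] (nat_lit 25902673)) p14_10_0 (nat_lit 4) (nat_lit 159) (nat_lit 160) = true := by decide +kernel
def p14_10_0_160 : pfC (piC [(nat_lit 41997052), (nat_lit 26592602), (nat_lit 19805017), (nat_lit 13318063)] (nat_lit 25902673)) p14_10_0 (nat_lit 4) (nat_lit 160) (nat_lit 161) = true := by decide +kernel
def p14_10_0_161 : pfC (piC [(nat_lit 41997052), (nat_lit 26592602), (nat_lit 19805017), (nat_lit 13318063)] (nat_lit 25902673)) p14_10_0 (nat_lit 4) (nat_lit 161) (nat_lit 162) = true := by decide +kernel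
def p14_10_0_162 : pfC (piC [(nat_lit 41997052), (nat_lit 26592602), (nat_lit 19805017), (nat_lit 13318063)] (nat_lit 25902673)) p14_10_0 (nat_lit 4) (nat_lit 162) (nat_lit 163) = true := by decide +kernel
def p14_10_0_163 : pfC (piC [(nat_lit 41997052), (nat_lit 26592602), (nat_lit 19805017), (nat_lit 13318063)] (nat_lit 25902673)) p14_10_0 (nat_lit 4) (nat_lit 163) (nat_lit 164) = true := by decide +kernel
theorem p14_10_0_T : PfS (PiF n14_10.reverse (nat_lit 25902673)) p14_10_0 (nat_lit 4) [] 0 :=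
  pftab_of (los := [(nat_lit 41997052), (nat_lit 26592602), (nat_lit 19805017), (nat_lit 13318063)]) (by decide +kernel) (hi := (nat_lit 164)) (PfP.trans (PfP.trans (PfP.trans (PfP.trans (PfP.trans (PfP.trans (PfP.trans (PfP.trans (PfP.trans (PfP.trans (PfP.trans (PfP.trans (PfP.trans (PfP.trans (PfP.trans (PfP.trans (PfP.trans (PfP.trans (PfP.trans (PfP.trans (PfP.trans (PfP.trans (PfP.trans (PfP.trans (PfP.trans (PfP.trans (PfP.trans (PfP.trans (PfP.trans (PfP.trans (PfP.trans (PfP.trans (PfP.trans (PfP.trans (PfP.trans (PfP.trans (PfP.trans (PfP.trans (PfP.trans (PfP.trans (PfP.trans (PfP.trans (PfP.trans (PfP.trans (PfP.trans (PfP.trans (PfP.trans (PfP.trans (PfP.trans (PfP.trans (PfP.trans (PfP.trans (PfP.trans (PfP.trans (PfP.trans (PfP.trans (PfP.trans (PfP.trans (PfP.trans (PfP.trans (PfP.trans (PfP.trans (PfP.trans (PfP.trans (PfP.trans (PfP.trans (PfP.trans (PfP.trans (PfP.trans (PfP.trans (PfP.trans (PfP.trans (PfP.trans (PfP.trans (PfP.trans (PfP.trans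 (PfP.trans (PfP.trans (PfP.trans (PfP.trans (PfP.trans (PfP.trans (PfP.trans (PfP.trans (PfP.trans (PfP.trans (PfP.trans (PfP.trans (PfP.trans (PfP.trans (PfP.trans (PfP.trans (PfP.trans (PfP.trans (PfP.trans (PfP.trans (PfP.trans (PfP.trans (PfP.trans (PfP.trans (PfP.trans (PfP.trans (PfP.trans (PfP.trans (PfP.trans (PfP.trans (PfP.trans (PfP.trans (PfP.trans
 (PfP.trans (PfP.trans (PfP.trans (PfP.trans (PfP.trans (PfP.trans (PfP.trans (PfP.trans (PfP.trans (PfP.trans (PfP.trans (PfP.trans (PfP.trans (PfP.trans (PfP.trans (PfP.trans (PfP.trans (PfP.trans (PfP.trans (PfP.trans (PfP.trans (PfP.trans (PfP.trans (PfP.trans (PfP.trans (PfP.trans (PfP.trans (PfP.trans (PfP.trans (PfP.trans (PfP.trans (PfP.trans (PfP.trans (PfP.trans (PfP.trans (PfP.trans (PfP.trans (PfP.trans (PfP.trans (PfP.trans (PfP.trans (PfP.trans (PfP.trans (PfP.trans (PfP.trans (PfP.trans (PfP.trans (PfP.trans (PfP.trans (PfP.trans (PfP.trans (PfP.trans (PfP.trans (PfP.trans (pfC_sound p14_10_0_0)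 (pfC_sound p14_10_0_1)) (pfC_sound p14_10_0_2)) (pfC_sound p14_10_0_3)) (pfC_sound p14_10_0_4)) (pfC_sound p14_10_0_5)) (pfC_sound p14_10_0_6)) (pfC_sound p14_10_0_7)) (pfC_sound p14_10_0_8)) (pfC_sound p14_10_0_9)) (pfC_sound p14_10_0_10)) (pfC_sound p14_10_0_11)) (pfC_sound p14_10_0_12)) (pfC_sound p14_10_0_13)) (pfC_sound p14_10_0_14)) (pfC_sound p14_10_0_15)) (pfC_sound p14_10_0_16)) (pfC_sound p14_10_0_17)) (pfC_sound p14_10_0_18)) (pfC_sound p14_10_0_19)) (pfC_sound p14_10_0_20)) (pfC_sound p14_10_0_21)) (pfC_sound p14_10_0_22)) (pfC_sound p14_10_0_23)) (pfC_sound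
 p14_10_0_24)) (pfC_sound p14_10_0_25)) (pfC_sound p14_10_0_26)) (pfC_sound p14_10_0_27)) (pfC_sound p14_10_0_28)) (pfC_sound p14_10_0_29)) (pfC_sound p14_10_0_30)) (pfC_sound p14_10_0_31)) (pfC_sound p14_10_0_32)) (pfC_sound p14_10_0_33)) (pfC_sound p14_10_0_34)) (pfC_sound p14_10_0_35)) (pfC_sound p14_10_0_36)) (pfC_sound p14_10_0_37)) (pfC_sound p14_10_0_38)) (pfC_sound p14_10_0_39)) (pfC_sound p14_10_0_40)) (pfC_sound p14_10_0_41)) (pfC_sound p14_10_0_42)) (pfC_sound p14_10_0_43)) (pfC_sound p14_10_0_44)) (pfC_sound p14_10_0_45)) (pfC_sound p14_10_0_46)) (pfC_sound p14_10_0_47)) (pfC_sound p14_10_0_48)) (pfC_sound p14_10_0_49)) (pfC_sound p14_10_0_50)) (pfC_sound p14_10_0_51)) (pfC_sound p14_10_0_52)) (pfC_sound p14_10_0_53)) (pfC_sound p14_10_0_54)) (pfC_sound p14_10_0_55)) (pfC_sound p14_10_0_56)) (pfC_sound p14_10_0_57)) (pfC_sound p14_10_0_58)) (pfC_sound p14_10_0_59)) (pfC_sound p14_10_0_60)) (pfC_sound p14_10_0_61)) (pfC_sound p14_10_0_62)) (pfC_sound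 p14_10_0_63)) (pfC_sound p14_10_0_64)) (pfC_sound p14_10_0_65)) (pfC_sound p14_10_0_66)) (pfC_sound p14_10_0_67)) (pfC_sound p14_10_0_68)) (pfC_sound p14_10_0_69)) (pfC_sound p14_10_0_70)) (pfC_sound p14_10_0_71)) (pfC_sound
 p14_10_0_72)) (pfC_sound p14_10_0_73)) (pfC_sound p14_10_0_74)) (pfC_sound p14_10_0_75)) (pfC_sound p14_10_0_76)) (pfC_sound p14_10_0_77)) (pfC_sound p14_10_0_78)) (pfC_sound p14_10_0_79)) (pfC_sound p14_10_0_80)) (pfC_sound p14_10_0_81)) (pfC_sound p14_10_0_82)) (pfC_sound p14_10_0_83)) (pfC_sound p14_10_0_84)) (pfC_sound p14_10_0_85)) (pfC_sound p14_10_0_86)) (pfC_sound p14_10_0_87)) (pfC_sound p14_10_0_88)) (pfC_sound p14_10_0_89)) (pfC_sound p14_10_0_90)) (pfC_sound p14_10_0_91)) (pfC_sound p14_10_0_92)) (pfC_sound p14_10_0_93)) (pfC_sound p14_10_0_94)) (pfC_sound p14_10_0_95)) (pfC_sound p14_10_0_96)) (pfC_sound p14_10_0_97)) (pfC_sound p14_10_0_98)) (pfC_sound p14_10_0_99)) (pfC_sound p14_10_0_100)) (pfC_sound p14_10_0_101)) (pfC_sound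 p14_10_0_102)) (pfC_sound p14_10_0_103)) (pfC_sound p14_10_0_104)) (pfC_sound p14_10_0_105)) (pfC_sound p14_10_0_106)) (pfC_sound p14_10_0_107)) (pfC_sound p14_10_0_108)) (pfC_sound p14_10_0_109)) (pfC_sound p14_10_0_110)) (pfC_sound p14_10_0_111)) (pfC_sound p14_10_0_112)) (pfC_sound p14_10_0_113)) (pfC_sound p14_10_0_114)) (pfC_sound p14_10_0_115)) (pfC_sound p14_10_0_116)) (pfC_sound p14_10_0_117)) (pfC_sound p14_10_0_118)) (pfC_sound
 p14_10_0_119)) (pfC_sound p14_10_0_120)) (pfC_sound p14_10_0_121)) (pfC_sound p14_10_0_122)) (pfC_sound p14_10_0_123)) (pfC_sound p14_10_0_124)) (pfC_sound p14_10_0_125)) (pfC_sound p14_10_0_126)) (pfC_sound p14_10_0_127)) (pfC_sound p14_10_0_128)) (pfC_sound p14_10_0_129)) (pfC_sound p14_10_0_130)) (pfC_sound p14_10_0_131)) (pfC_sound p14_10_0_132)) (pfC_sound p14_10_0_133)) (pfC_sound p14_10_0_134)) (pfC_sound p14_10_0_135)) (pfC_sound p14_10_0_136)) (pfC_sound p14_10_0_137)) (pfC_sound p14_10_0_138)) (pfC_sound p14_10_0_139))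 (pfC_sound p14_10_0_140)) (pfC_sound p14_10_0_141)) (pfC_sound p14_10_0_142)) (pfC_sound p14_10_0_143)) (pfC_sound p14_10_0_144)) (pfC_sound p14_10_0_145)) (pfC_sound p14_10_0_146)) (pfC_sound p14_10_0_147)) (pfC_sound p14_10_0_148)) (pfC_sound p14_10_0_149)) (pfC_sound p14_10_0_150)) (pfC_sound p14_10_0_151)) (pfC_sound p14_10_0_152)) (pfC_sound p14_10_0_153)) (pfC_sound p14_10_0_154)) (pfC_sound p14_10_0_155)) (pfC_sound p14_10_0_156)) (pfC_sound p14_10_0_157)) (pfC_sound p14_10_0_158)) (pfC_sound p14_10_0_159)) (pfC_sound p14_10_0_160)) (pfC_sound p14_10_0_161)) (pfC_sound p14_10_0_162)) (pfC_sound p14_10_0_163)) (by decide +kernel)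

def z14_10_0 : zOK yB14_10 (nat_lit 0) (nat_lit 0) (nat_lit 400) (nat_lit 25902673) (nat_lit 10328247) = true := by decide +kernel
def g14_10_0 : gOK yB14_10.x P14_10 (nat_lit 1430) (q14_10 :: r14_10) (nat_lit 0) (nat_lit 0) (nat_lit 1) (nat_lit 400) (nat_lit 0) (nat_lit 11000000) (nat_lit 12712500) (nat_lit 12712500) [(nat_lit 800), (nat_lit 1400), (nat_lit 1530)] = true := by decide +kernel
def v14_10_0 : ivC P14_10 s14_10 w14_10 n14_10 (nat_lit 4) (nat_lit 5460) (nat_lit 0) (nat_lit 0) f144_1_0 f152_1_0 (nat_lit 1) (nat_lit 400) f144_1_400 f152_1_400 (nat_lit 25902673) (nat_lit 10328247) p14_10_0 = true := by decide +kernel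
def p14_10_1 : PF := (PF.cons (PF.cons (PF.cons (PF.cons (PF.leaf (nat_lit 2134112) (nat_lit 10226332) (nat_lit 56882480) (nat_lit 10226332) [(nat_lit 0), (nat_lit 0), (nat_lit 0), (nat_lit 0)]) (PF.cons (PF.leaf (nat_lit 2260755) (nat_lit 207768) (nat_lit 56658979) (nat_lit 10242064) [(nat_lit 207768), (nat_lit 0), (nat_lit 0), (nat_lit 0)]) (PF.cons (PF.leaf (nat_lit 2412733) (nat_lit 226319) (nat_lit 56396792) (nat_lit 10259381) [(nat_lit 226319), (nat_lit 0), (nat_lit 0), (nat_lit 0)]) (PF.cons (PF.leaf (nat_lit 2583876) (nat_lit 242929) (nat_lit 56102620) (nat_lit 10277402) [(nat_lit 242929), (nat_lit 0), (nat_lit 0), (nat_lit 0)]) (PF.cons (PF.leaf (nat_lit 2771680) (nat_lit 258049) (nat_lit 55781163) (nat_lit 10295453) [(nat_lit 258049), (nat_lit 0), (nat_lit 0), (nat_lit 0)]) (PF.cons (PF.leaf (nat_lit 2974234) (nat_lit 271961) (nat_lit 55436013) (nat_lit 10312989) [(nat_lit 271961), (nat_lit 0), (nat_lit 0), (nat_lit 0)]) (PF.cons (PF.leaf (nat_lit 3189963)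 (nat_lit 284860) (nat_lit 55070082) (nat_lit 10329565) [(nat_lit 284860), (nat_lit 0), (nat_lit 0), (nat_lit 0)]) (PF.cons PF.nil (PF.cons PF.nil PF.nil))))))))) (PF.cons (PF.cons (PF.leaf (nat_lit 2634645) (nat_lit 1106610) (nat_lit
 55708004) (nat_lit 10294198) [(nat_lit 0), (nat_lit 1106610), (nat_lit 0), (nat_lit 0)]) (PF.cons (PF.leaf (nat_lit 2802803) (nat_lit 254987) (nat_lit 55411695) (nat_lit 10308971) [(nat_lit 254987), (nat_lit 1133158), (nat_lit 0), (nat_lit 0)]) (PF.cons (PF.leaf (nat_lit 2990118) (nat_lit 269483) (nat_lit 55086610) (nat_lit 10323629) [(nat_lit 269483), (nat_lit 1159606), (nat_lit 0), (nat_lit 0)]) (PF.cons (PF.leaf (nat_lit 3192765) (nat_lit 282761) (nat_lit 54737393) (nat_lit 10337623) [(nat_lit 282761), (nat_lit 1185512), (nat_lit 0), (nat_lit 0)]) (PF.cons (PF.leaf (nat_lit 3408795) (nat_lit 295039) (nat_lit 54367501) (nat_lit 10350524) [(nat_lit 295039), (nat_lit 1210630), (nat_lit 0), (nat_lit 0)]) (PF.cons PF.nil (PF.cons PF.nil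 PF.nil))))))) (PF.cons (PF.cons (PF.leaf (nat_lit 3213763) (nat_lit 1195969) (nat_lit 54371643) (nat_lit 10345231) [(nat_lit 0), (nat_lit 1195969), (nat_lit 0), (nat_lit 0)]) (PF.cons (PF.leaf (nat_lit 3413577) (nat_lit 292189) (nat_lit 54022797) (nat_lit 10355637) [(nat_lit 292189), (nat_lit 1219093), (nat_lit 0), (nat_lit 0)]) (PF.cons (PF.leaf (nat_lit 3628590) (nat_lit 304023) (nat_lit 53652451) (nat_lit 10364879) [(nat_lit 304023), (nat_lit
 1241717), (nat_lit 0), (nat_lit 0)]) (PF.cons (PF.leaf (nat_lit 3855780) (nat_lit 314983) (nat_lit 53263967) (nat_lit 10372629) [(nat_lit 314983), (nat_lit 1263633), (nat_lit 0), (nat_lit 0)]) (PF.cons PF.nil PF.nil))))) (PF.cons (PF.cons (PF.leaf (nat_lit 3850997) (nat_lit 1269976) (nat_lit 52926186) (nat_lit 10372698) [(nat_lit 0), (nat_lit 1269976), (nat_lit 0), (nat_lit 0)]) (PF.cons (PF.leaf (nat_lit 4075344) (nat_lit 322509) (nat_lit 52540058) (nat_lit 10376855) [(nat_lit 322509), (nat_lit 1289796), (nat_lit 0),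 (nat_lit 0)]) (PF.cons (PF.leaf (nat_lit 4311751) (nat_lit 332347) (nat_lit 52138000) (nat_lit 10379257) [(nat_lit 332347), (nat_lit 1308953), (nat_lit 0), (nat_lit 0)]) (PF.cons PF.nil PF.nil)))) (PF.cons (PF.cons (PF.leaf (nat_lit 4530568) (nat_lit 1330936) (nat_lit 51411259) (nat_lit 10373807) [(nat_lit 0), (nat_lit 1330936), (nat_lit 0), (nat_lit 0)]) (PF.cons PF.nil PF.nil)) (PF.cons PF.nil PF.nil)))))) (PF.cons (PF.cons (PF.cons (PF.leaf (nat_lit 3193665) (nat_lit 3028670) (nat_lit 53744413) (nat_lit 10335728) [(nat_lit 0), (nat_lit 0), (nat_lit 3028670), (nat_lit 0)]) (PF.cons (PF.leaf (nat_lit 3371764) (nat_lit 276870) (nat_lit 53435369) (nat_lit 10342863)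
 [(nat_lit 276870), (nat_lit 0), (nat_lit 3053709), (nat_lit 0)]) (PF.cons (PF.leaf (nat_lit 3568396) (nat_lit 290677) (nat_lit 53098932) (nat_lit 10349206) [(nat_lit 290677), (nat_lit 0), (nat_lit 3079319), (nat_lit 0)]) (PF.cons (PF.leaf (nat_lit 3779450) (nat_lit 303137) (nat_lit 52740113) (nat_lit 10354377) [(nat_lit 303137), (nat_lit 0), (nat_lit 3104910), (nat_lit 0)]) (PF.cons (PF.leaf (nat_lit 4002952) (nat_lit 314519) (nat_lit 52362570) (nat_lit 10358089) [(nat_lit 314519), (nat_lit 0), (nat_lit 3130076), (nat_lit 0)]) (PF.cons PF.nil (PF.cons PF.nil PF.nil))))))) (PF.cons (PF.cons (PF.leaf (nat_lit 3790643) (nat_lit 1257702) (nat_lit 52378316) (nat_lit 10353014) [(nat_lit 0), (nat_lit 1257702), (nat_lit 3119779), (nat_lit 0)]) (PF.cons (PF.leaf (nat_lit 3997655) (nat_lit 310605) (nat_lit 52023421) (nat_lit 10354996) [(nat_lit 310605), (nat_lit 1277435), (nat_lit 3142352), (nat_lit 0)]) (PF.cons (PF.leaf (nat_lit 4218959) (nat_lit 321654) (nat_lit 51648744)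 (nat_lit 10355473) [(nat_lit 321654), (nat_lit 1296629), (nat_lit 3164657), (nat_lit 0)]) (PF.cons (PF.leaf (nat_lit 4451569) (nat_lit 331771) (nat_lit 51257757) (nat_lit 10354240) [(nat_lit 331771), (nat_lit 1315121),
 (nat_lit 3186377), (nat_lit 0)]) (PF.cons PF.nil PF.nil))))) (PF.cons (PF.cons (PF.leaf (nat_lit 4436989) (nat_lit 1318977) (nat_lit 50928400) (nat_lit 10347032) [(nat_lit 0), (nat_lit 1318977), (nat_lit 3195424), (nat_lit 0)]) (PF.cons (PF.leaf (nat_lit 4665832) (nat_lit 337681) (nat_lit 50542449) (nat_lit 10342739) [(nat_lit 337681), (nat_lit 1335697), (nat_lit 3214547), (nat_lit 0)]) (PF.cons PF.nil (PF.cons PF.nil PF.nil)))) (PF.cons (PF.cons (PF.leaf (nat_lit 5118046) (nat_lit 1368842) (nat_lit 49430085) (nat_lit 10316805) [(nat_lit 0), (nat_lit 1368842), (nat_lit 3255393), (nat_lit 0)]) (PF.cons PF.nil PF.nil)) (PF.cons PF.nil PF.nil))))) (PF.cons (PF.cons (PF.cons (PF.leaf (nat_lit 4359797) (nat_lit 3187678) (nat_lit 50415222) (nat_lit 10318233)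 [(nat_lit 0), (nat_lit 0), (nat_lit 3187678), (nat_lit 0)]) (PF.cons (PF.leaf (nat_lit 4571767) (nat_lit 325522) (nat_lit 50059904) (nat_lit 10312801) [(nat_lit 325522), (nat_lit 0), (nat_lit 3205291), (nat_lit 0)]) (PF.cons (PF.leaf (nat_lit 4797174) (nat_lit 335843) (nat_lit 49686420) (nat_lit 10305647) [(nat_lit 335843), (nat_lit 0), (nat_lit 3222529), (nat_lit 0)]) (PF.cons PF.nil (PF.cons PF.nil PF.nil))))) (PF.cons (PF.cons
 (PF.leaf (nat_lit 5009571) (nat_lit 1356027) (nat_lit 48980357) (nat_lit 10283621) [(nat_lit 0), (nat_lit 1356027), (nat_lit 3244402), (nat_lit 0)]) (PF.cons (PF.leaf (nat_lit 5241025) (nat_lit 349738) (nat_lit 48599187) (nat_lit 10272133) [(nat_lit 349738), (nat_lit 1370090), (nat_lit 3258831), (nat_lit 0)]) (PF.cons PF.nil (PF.cons PF.nil PF.nil)))) (PF.cons (PF.cons (PF.leaf (nat_lit 5687744) (nat_lit 1396513) (nat_lit 47513645) (nat_lit 10227294) [(nat_lit 0), (nat_lit 1396513), (nat_lit 3287423), (nat_lit 0)]) (PF.cons PF.nil PF.nil))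 PF.nil))) (PF.cons (PF.cons (PF.cons (PF.leaf (nat_lit 5566378) (nat_lit 3274232) (nat_lit 47096382) (nat_lit 10189733) [(nat_lit 0), (nat_lit 0), (nat_lit 3274232), (nat_lit 0)]) (PF.cons (PF.leaf (nat_lit 5798932) (nat_lit 359165) (nat_lit 46723328) (nat_lit 10172243) [(nat_lit 359165), (nat_lit 0), (nat_lit 3284691), (nat_lit 0)]) PF.nil)) (PF.cons PF.nil PF.nil)) (PF.cons PF.nil (PF.cons PF.nil PF.nil)))))) (PF.cons (PF.cons (PF.cons (PF.cons (PF.leaf (nat_lit 4199185) (nat_lit 8561516) (nat_lit 48430208) (nat_lit 10117087) [(nat_lit 0), (nat_lit 0), (nat_lit 0), (nat_lit 8561516)]) (PF.cons (PF.leaf (nat_lit 4378101) (nat_lit 290501)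
 (nat_lit 48146160) (nat_lit 10110618) [(nat_lit 290501), (nat_lit 0), (nat_lit 0), (nat_lit 8561532)]) (PF.cons (PF.leaf (nat_lit 4574386) (nat_lit 303691) (nat_lit 47838285) (nat_lit 10102604) [(nat_lit 303691), (nat_lit 0), (nat_lit 0), (nat_lit 8560540)]) (PF.cons (PF.leaf (nat_lit 4783927) (nat_lit 315368) (nat_lit 47511357) (nat_lit 10092980) [(nat_lit 315368), (nat_lit 0), (nat_lit 0), (nat_lit 8558370)]) (PF.cons (PF.leaf (nat_lit 5004720) (nat_lit 325846) (nat_lit 47168840) (nat_lit 10081693) [(nat_lit 325846), (nat_lit 0), (nat_lit 0), (nat_lit 8554893)]) (PF.cons (PF.leaf (nat_lit 5235203) (nat_lit 335339) (nat_lit 46813398) (nat_lit 10068702) [(nat_lit 335339), (nat_lit 0), (nat_lit 0), (nat_lit 8550016)]) (PF.cons PF.nil PF.nil))))))) (PF.cons (PF.cons (PF.leaf (nat_lit 4782208) (nat_lit 1291592) (nat_lit 47188890) (nat_lit 10078018) [(nat_lit 0), (nat_lit 1291592), (nat_lit 0), (nat_lit 8550312)]) (PF.cons (PF.leaf (nat_lit 4986647) (nat_lit 320814)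 (nat_lit 46867932) (nat_lit 10066434) [(nat_lit 320814), (nat_lit 1307557), (nat_lit 0), (nat_lit 8546074)]) (PF.cons (PF.leaf (nat_lit 5204075) (nat_lit 330997) (nat_lit 46530344) (nat_lit 10053125) [(nat_lit 330997),
 (nat_lit 1322844), (nat_lit 0), (nat_lit 8540502)]) (PF.cons (PF.leaf (nat_lit 5431675) (nat_lit 340168) (nat_lit 46179342) (nat_lit 10038087) [(nat_lit 340168), (nat_lit 1337352), (nat_lit 0), (nat_lit 8533525)]) (PF.cons (PF.leaf (nat_lit 5667975) (nat_lit 348497) (nat_lit 45817375) (nat_lit 10021320) [(nat_lit 348497), (nat_lit 1351037), (nat_lit 0), (nat_lit 8525091)]) PF.nil))))) (PF.cons (PF.cons (PF.leaf (nat_lit 5404814) (nat_lit 1338148) (nat_lit 45889653) (nat_lit 10020568) [(nat_lit 0), (nat_lit 1338148), (nat_lit 0), (nat_lit 8522293)]) (PF.cons (PF.leaf (nat_lit 5627806) (nat_lit 344242) (nat_lit 45545125) (nat_lit 10003711) [(nat_lit 344242), (nat_lit 1351163), (nat_lit 0), (nat_lit 8513406)]) (PF.cons (PF.leaf (nat_lit 5860792) (nat_lit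 352334) (nat_lit 45188994) (nat_lit 9985105) [(nat_lit 352334), (nat_lit 1363489), (nat_lit 0), (nat_lit 8503064)]) (PF.cons PF.nil PF.nil)))) (PF.cons (PF.cons (PF.leaf (nat_lit 6053835) (nat_lit 1374479) (nat_lit 44562155) (nat_lit 9945480) [(nat_lit 0), (nat_lit 1374479), (nat_lit 0), (nat_lit 8477740)]) (PF.cons (PF.leaf (nat_lit 6290307) (nat_lit 362699) (nat_lit 44203586) (nat_lit 9923541) [(nat_lit 362699), (nat_lit 1384919),
 (nat_lit 0), (nat_lit 8464227)]) PF.nil)) (PF.cons PF.nil (PF.cons PF.nil PF.nil)))))) (PF.cons (PF.cons (PF.cons (PF.leaf (nat_lit 5307976) (nat_lit 3184906) (nat_lit 45453197) (nat_lit 9980148) [(nat_lit 0), (nat_lit 0), (nat_lit 3184906), (nat_lit 8490560)]) (PF.cons (PF.leaf (nat_lit 5515092) (nat_lit 331378) (nat_lit 45136277) (nat_lit 9963763) [(nat_lit 331378), (nat_lit 0), (nat_lit 3195770), (nat_lit 8481622)]) (PF.cons (PF.leaf (nat_lit 5734523) (nat_lit 340867) (nat_lit 44804105) (nat_lit 9945573) [(nat_lit 340867), (nat_lit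 0), (nat_lit 3206143), (nat_lit 8471256)]) (PF.cons (PF.leaf (nat_lit 5963434) (nat_lit 349331) (nat_lit 44459850) (nat_lit 9925641) [(nat_lit 349331), (nat_lit 0), (nat_lit 3215868), (nat_lit 8459457)]) (PF.cons PF.nil PF.nil))))) (PF.cons (PF.cons (PF.leaf (nat_lit 5929033) (nat_lit 1359828) (nat_lit 44182968) (nat_lit 9904875) [(nat_lit 0), (nat_lit 1359828), (nat_lit 3216220), (nat_lit 8444920)]) (PF.cons (PF.leaf (nat_lit 6152877) (nat_lit 352325) (nat_lit 43846309) (nat_lit 9883536) [(nat_lit 352325), (nat_lit 1370710), (nat_lit 3224329), (nat_lit 8431601)]) (PF.cons (PF.leaf (nat_lit 6386019) (nat_lit 359778) (nat_lit 43499221) (nat_lit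
 9860479) [(nat_lit 359778), (nat_lit 1380939), (nat_lit 3231772), (nat_lit 8416843)]) (PF.cons PF.nil PF.nil)))) (PF.cons (PF.cons (PF.leaf (nat_lit 6571917) (nat_lit 1388913) (nat_lit 42895464) (nat_lit 9814100) [(nat_lit 0), (nat_lit 1388913), (nat_lit 3236716), (nat_lit 8384703)]) (PF.cons PF.nil PF.nil)) (PF.cons PF.nil (PF.cons PF.nil PF.nil))))) (PF.cons (PF.cons (PF.cons (PF.leaf (nat_lit 6437473) (nat_lit 3220599) (nat_lit 42545168) (nat_lit 9772149) [(nat_lit 0), (nat_lit 0), (nat_lit 3220599), (nat_lit 8350295)]) (PF.cons (PF.leaf (nat_lit 6661121) (nat_lit 358441) (nat_lit 42218170) (nat_lit 9747160) [(nat_lit 358441), (nat_lit 0), (nat_lit 3225857), (nat_lit 8333325)]) (PF.cons PF.nil (PF.cons PF.nil PF.nil)))) (PF.cons (PF.cons (PF.leaf (nat_lit 7072219) (nat_lit 1397389) (nat_lit 41302706) (nat_lit 9668897) [(nat_lit 0), (nat_lit 1397389), (nat_lit 3231190), (nat_lit 8277438)]) (PF.cons PF.nil PF.nil)) (PF.cons PF.nil PF.nil))) (PF.cons (PF.cons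 (PF.cons (PF.leaf (nat_lit 7554766) (nat_lit 3217012) (nat_lit 39784946) (nat_lit 9513478) [(nat_lit 0), (nat_lit 0), (nat_lit 3217012), (nat_lit 8159349)]) (PF.cons PF.nil PF.nil)) (PF.cons PF.nil PF.nil)) (PF.cons PF.nil
 PF.nil))))) (PF.cons (PF.cons (PF.cons (PF.cons (PF.leaf (nat_lit 6144539) (nat_lit 8174136) (nat_lit 41194562) (nat_lit 9565977) [(nat_lit 0), (nat_lit 0), (nat_lit 0), (nat_lit 8174136)]) (PF.cons (PF.leaf (nat_lit 6345273) (nat_lit 331288) (nat_lit 40915152) (nat_lit 9543866) [(nat_lit 331288), (nat_lit 0), (nat_lit 0), (nat_lit 8159252)]) (PF.cons (PF.leaf (nat_lit 6557433) (nat_lit 340059) (nat_lit 40622824) (nat_lit 9519985) [(nat_lit 340059), (nat_lit 0), (nat_lit 0), (nat_lit 8142941)]) (PF.cons (PF.leaf (nat_lit 6778217) (nat_lit 347789) (nat_lit 40320389) (nat_lit 9494485) [(nat_lit 347789), (nat_lit 0), (nat_lit 0), (nat_lit 8125285)]) (PF.cons PF.nil PF.nil))))) (PF.cons (PF.cons (PF.leaf (nat_lit 6736187) (nat_lit 1343536) (nat_lit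 40080952) (nat_lit 9470294) [(nat_lit 0), (nat_lit 1343536), (nat_lit 0), (nat_lit 8107015)]) (PF.cons (PF.leaf (nat_lit 6951600) (nat_lit 349697) (nat_lit 39785893) (nat_lit 9444082) [(nat_lit 349697), (nat_lit 1352141), (nat_lit 0), (nat_lit 8088498)]) (PF.cons (PF.leaf (nat_lit 7175594) (nat_lit 356451) (nat_lit 39482129) (nat_lit 9416320) [(nat_lit 356451), (nat_lit 1360102), (nat_lit 0), (nat_lit 8068678)]) (PF.cons PF.nil PF.nil))))
 (PF.cons (PF.cons (PF.leaf (nat_lit 7345318) (nat_lit 1364734) (nat_lit 38957690) (nat_lit 9363309) [(nat_lit 0), (nat_lit 1364734), (nat_lit 0), (nat_lit 8029171)]) (PF.cons PF.nil PF.nil)) PF.nil))) (PF.cons (PF.cons (PF.cons (PF.leaf (nat_lit 7203120) (nat_lit 3136020) (nat_lit 38663689) (nat_lit 9321179) [(nat_lit 0), (nat_lit 0), (nat_lit 3136020), (nat_lit 7993961)]) (PF.cons (PF.leaf (nat_lit 7417678) (nat_lit 353598) (nat_lit 38378174) (nat_lit 9292772) [(nat_lit 353598), (nat_lit 0), (nat_lit 3137952), (nat_lit 7973157)])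 (PF.cons PF.nil PF.nil))) (PF.cons (PF.cons (PF.leaf (nat_lit 7803479) (nat_lit 1366449) (nat_lit 37582999) (nat_lit 9207087) [(nat_lit 0), (nat_lit 1366449), (nat_lit 3135223), (nat_lit 7908526)]) PF.nil) PF.nil)) (PF.cons PF.nil PF.nil))) (PF.cons (PF.cons (PF.cons (PF.cons (PF.leaf (nat_lit 7884907) (nat_lit 7630506) (nat_lit 35346677) (nat_lit 8870615) [(nat_lit 0), (nat_lit 0), (nat_lit 0), (nat_lit 7630506)]) (PF.cons (PF.leaf (nat_lit 8090621) (nat_lit 346433) (nat_lit 35097112) (nat_lit 8841094) [(nat_lit 346433), (nat_lit 0), (nat_lit 0), (nat_lit 7608057)]) PF.nil)) (PF.cons PF.nil PF.nil)) (PF.cons PF.nil PF.nil)) (PF.cons PF.nil (PF.cons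
 PF.nil (PF.cons PF.nil (PF.cons PF.nil PF.nil))))))))

def p14_10_1_0 : pfC (piC [(nat_lit 41997052), (nat_lit 26592602), (nat_lit 19805017), (nat_lit 13318063)] (nat_lit 10328247)) p14_10_1 (nat_lit 4) (nat_lit 0) (nat_lit 1) = true := by decide +kernel
def p14_10_1_1 : pfC (piC [(nat_lit 41997052), (nat_lit 26592602), (nat_lit 19805017), (nat_lit 13318063)] (nat_lit 10328247)) p14_10_1 (nat_lit 4) (nat_lit 1) (nat_lit 2) = true := by decide +kernel
def p14_10_1_2 : pfC (piC [(nat_lit 41997052), (nat_lit 26592602), (nat_lit 19805017), (nat_lit 13318063)] (nat_lit 10328247)) p14_10_1 (nat_lit 4) (nat_lit 2) (nat_lit 3) = true := by decide +kernel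
def p14_10_1_3 : pfC (piC [(nat_lit 41997052), (nat_lit 26592602), (nat_lit 19805017), (nat_lit 13318063)] (nat_lit 10328247)) p14_10_1 (nat_lit 4) (nat_lit 3) (nat_lit 4) = true := by decide +kernel
def p14_10_1_4 : pfC (piC [(nat_lit 41997052), (nat_lit 26592602), (nat_lit 19805017), (nat_lit 13318063)] (nat_lit 10328247)) p14_10_1 (nat_lit 4) (nat_lit 4) (nat_lit 5) = true := by decide +kernel
def p14_10_1_5 : pfC (piC [(nat_lit 41997052), (nat_lit 26592602), (nat_lit 19805017), (nat_lit 13318063)] (nat_lit 10328247)) p14_10_1 (nat_lit 4) (nat_lit 5) (nat_lit 6) = true := by decide +kernel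
def p14_10_1_6 : pfC (piC [(nat_lit 41997052), (nat_lit 26592602), (nat_lit 19805017), (nat_lit 13318063)] (nat_lit 10328247)) p14_10_1 (nat_lit 4) (nat_lit 6) (nat_lit 7) = true := by decide +kernel
def p14_10_1_7 : pfC (piC [(nat_lit 41997052), (nat_lit 26592602), (nat_lit 19805017), (nat_lit 13318063)] (nat_lit 10328247)) p14_10_1 (nat_lit 4) (nat_lit 7) (nat_lit 8) = true := by decide +kernel
def p14_10_1_8 : pfC (piC [(nat_lit 41997052), (nat_lit 26592602), (nat_lit 19805017), (nat_lit 13318063)] (nat_lit 10328247)) p14_10_1 (nat_lit 4) (nat_lit 8) (nat_lit 9) = true := by decide +kernel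
def p14_10_1_9 : pfC (piC [(nat_lit 41997052), (nat_lit 26592602), (nat_lit 19805017), (nat_lit 13318063)] (nat_lit 10328247)) p14_10_1 (nat_lit 4) (nat_lit 9) (nat_lit 10) = true := by decide +kernel
def p14_10_1_10 : pfC (piC [(nat_lit 41997052), (nat_lit 26592602), (nat_lit 19805017), (nat_lit 13318063)] (nat_lit 10328247)) p14_10_1 (nat_lit 4) (nat_lit 10) (nat_lit 11) = true := by decide +kernel
def p14_10_1_11 : pfC (piC [(nat_lit 41997052), (nat_lit 26592602), (nat_lit 19805017), (nat_lit 13318063)] (nat_lit 10328247)) p14_10_1 (nat_lit 4) (nat_lit 11) (nat_lit 12) = true := by decide +kernel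
def p14_10_1_12 : pfC (piC [(nat_lit 41997052), (nat_lit 26592602), (nat_lit 19805017), (nat_lit 13318063)] (nat_lit 10328247)) p14_10_1 (nat_lit 4) (nat_lit 12) (nat_lit 13) = true := by decide +kernel
def p14_10_1_13 : pfC (piC [(nat_lit 41997052), (nat_lit 26592602), (nat_lit 19805017), (nat_lit 13318063)] (nat_lit 10328247)) p14_10_1 (nat_lit 4) (nat_lit 13) (nat_lit 14) = true := by decide +kernel
def p14_10_1_14 : pfC (piC [(nat_lit 41997052), (nat_lit 26592602), (nat_lit 19805017), (nat_lit 13318063)] (nat_lit 10328247)) p14_10_1 (nat_lit 4) (nat_lit 14) (nat_lit 15) = true := by decide +kernel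
def p14_10_1_15 : pfC (piC [(nat_lit 41997052), (nat_lit 26592602), (nat_lit 19805017), (nat_lit 13318063)] (nat_lit 10328247)) p14_10_1 (nat_lit 4) (nat_lit 15) (nat_lit 16) = true := by decide +kernel
def p14_10_1_16 : pfC (piC [(nat_lit 41997052), (nat_lit 26592602), (nat_lit 19805017), (nat_lit 13318063)] (nat_lit 10328247)) p14_10_1 (nat_lit 4) (nat_lit 16) (nat_lit 17) = true := by decide +kernel
def p14_10_1_17 : pfC (piC [(nat_lit 41997052), (nat_lit 26592602), (nat_lit 19805017), (nat_lit 13318063)] (nat_lit 10328247)) p14_10_1 (nat_lit 4) (nat_lit 17) (nat_lit 18) = true := by decide +kernel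
def p14_10_1_18 : pfC (piC [(nat_lit 41997052), (nat_lit 26592602), (nat_lit 19805017), (nat_lit 13318063)] (nat_lit 10328247)) p14_10_1 (nat_lit 4) (nat_lit 18) (nat_lit 19) = true := by decide +kernel
def p14_10_1_19 : pfC (piC [(nat_lit 41997052), (nat_lit 26592602), (nat_lit 19805017), (nat_lit 13318063)] (nat_lit 10328247)) p14_10_1 (nat_lit 4) (nat_lit 19) (nat_lit 20) = true := by decide +kernel
def p14_10_1_20 : pfC (piC [(nat_lit 41997052), (nat_lit 26592602), (nat_lit 19805017), (nat_lit 13318063)] (nat_lit 10328247)) p14_10_1 (nat_lit 4) (nat_lit 20) (nat_lit 21) = true := by decide +kernel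
def p14_10_1_21 : pfC (piC [(nat_lit 41997052), (nat_lit 26592602), (nat_lit 19805017), (nat_lit 13318063)] (nat_lit 10328247)) p14_10_1 (nat_lit 4) (nat_lit 21) (nat_lit 22) = true := by decide +kernel
def p14_10_1_22 : pfC (piC [(nat_lit 41997052), (nat_lit 26592602), (nat_lit 19805017), (nat_lit 13318063)] (nat_lit 10328247)) p14_10_1 (nat_lit 4) (nat_lit 22) (nat_lit 23) = true := by decide +kernel
def p14_10_1_23 : pfC (piC [(nat_lit 41997052), (nat_lit 26592602), (nat_lit 19805017), (nat_lit 13318063)] (nat_lit 10328247)) p14_10_1 (nat_lit 4) (nat_lit 23) (nat_lit 24) = true := by decide +kernel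
def p14_10_1_24 : pfC (piC [(nat_lit 41997052), (nat_lit 26592602), (nat_lit 19805017), (nat_lit 13318063)] (nat_lit 10328247)) p14_10_1 (nat_lit 4) (nat_lit 24) (nat_lit 25) = true := by decide +kernel
def p14_10_1_25 : pfC (piC [(nat_lit 41997052), (nat_lit 26592602), (nat_lit 19805017), (nat_lit 13318063)] (nat_lit 10328247)) p14_10_1 (nat_lit 4) (nat_lit 25) (nat_lit 26) = true := by decide +kernel
def p14_10_1_26 : pfC (piC [(nat_lit 41997052), (nat_lit 26592602), (nat_lit 19805017), (nat_lit 13318063)] (nat_lit 10328247)) p14_10_1 (nat_lit 4) (nat_lit 26) (nat_lit 27) = true := by decide +kernel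
def p14_10_1_27 : pfC (piC [(nat_lit 41997052), (nat_lit 26592602), (nat_lit 19805017), (nat_lit 13318063)] (nat_lit 10328247)) p14_10_1 (nat_lit 4) (nat_lit 27) (nat_lit 28) = true := by decide +kernel
def p14_10_1_28 : pfC (piC [(nat_lit 41997052), (nat_lit 26592602), (nat_lit 19805017), (nat_lit 13318063)] (nat_lit 10328247)) p14_10_1 (nat_lit 4) (nat_lit 28) (nat_lit 29) = true := by decide +kernel
def p14_10_1_29 : pfC (piC [(nat_lit 41997052), (nat_lit 26592602), (nat_lit 19805017), (nat_lit 13318063)] (nat_lit 10328247)) p14_10_1 (nat_lit 4) (nat_lit 29) (nat_lit 30) = true := by decide +kernel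
def p14_10_1_30 : pfC (piC [(nat_lit 41997052), (nat_lit 26592602), (nat_lit 19805017), (nat_lit 13318063)] (nat_lit 10328247)) p14_10_1 (nat_lit 4) (nat_lit 30) (nat_lit 31) = true := by decide +kernel
def p14_10_1_31 : pfC (piC [(nat_lit 41997052), (nat_lit 26592602), (nat_lit 19805017), (nat_lit 13318063)] (nat_lit 10328247)) p14_10_1 (nat_lit 4) (nat_lit 31) (nat_lit 32) = true := by decide +kernel
def p14_10_1_32 : pfC (piC [(nat_lit 41997052), (nat_lit 26592602), (nat_lit 19805017), (nat_lit 13318063)] (nat_lit 10328247)) p14_10_1 (nat_lit 4) (nat_lit 32) (nat_lit 33) = true := by decide +kernel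
def p14_10_1_33 : pfC (piC [(nat_lit 41997052), (nat_lit 26592602), (nat_lit 19805017), (nat_lit 13318063)] (nat_lit 10328247)) p14_10_1 (nat_lit 4) (nat_lit 33) (nat_lit 34) = true := by decide +kernel
def p14_10_1_34 : pfC (piC [(nat_lit 41997052), (nat_lit 26592602), (nat_lit 19805017), (nat_lit 13318063)] (nat_lit 10328247)) p14_10_1 (nat_lit 4) (nat_lit 34) (nat_lit 35) = true := by decide +kernel
def p14_10_1_35 : pfC (piC [(nat_lit 41997052), (nat_lit 26592602), (nat_lit 19805017), (nat_lit 13318063)] (nat_lit 10328247)) p14_10_1 (nat_lit 4) (nat_lit 35) (nat_lit 36) = true := by decide +kernel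
def p14_10_1_36 : pfC (piC [(nat_lit 41997052), (nat_lit 26592602), (nat_lit 19805017), (nat_lit 13318063)] (nat_lit 10328247)) p14_10_1 (nat_lit 4) (nat_lit 36) (nat_lit 37) = true := by decide +kernel
def p14_10_1_37 : pfC (piC [(nat_lit 41997052), (nat_lit 26592602), (nat_lit 19805017), (nat_lit 13318063)] (nat_lit 10328247)) p14_10_1 (nat_lit 4) (nat_lit 37) (nat_lit 38) = true := by decide +kernel
def p14_10_1_38 : pfC (piC [(nat_lit 41997052), (nat_lit 26592602), (nat_lit 19805017), (nat_lit 13318063)] (nat_lit 10328247)) p14_10_1 (nat_lit 4) (nat_lit 38) (nat_lit 39) = true := by decide +kernel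
def p14_10_1_39 : pfC (piC [(nat_lit 41997052), (nat_lit 26592602), (nat_lit 19805017), (nat_lit 13318063)] (nat_lit 10328247)) p14_10_1 (nat_lit 4) (nat_lit 39) (nat_lit 40) = true := by decide +kernel
def p14_10_1_40 : pfC (piC [(nat_lit 41997052), (nat_lit 26592602), (nat_lit 19805017), (nat_lit 13318063)] (nat_lit 10328247)) p14_10_1 (nat_lit 4) (nat_lit 40) (nat_lit 41) = true := by decide +kernel
def p14_10_1_41 : pfC (piC [(nat_lit 41997052), (nat_lit 26592602), (nat_lit 19805017), (nat_lit 13318063)] (nat_lit 10328247)) p14_10_1 (nat_lit 4) (nat_lit 41) (nat_lit 42) = true := by decide +kernel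
def p14_10_1_42 : pfC (piC [(nat_lit 41997052), (nat_lit 26592602), (nat_lit 19805017), (nat_lit 13318063)] (nat_lit 10328247)) p14_10_1 (nat_lit 4) (nat_lit 42) (nat_lit 43) = true := by decide +kernel
def p14_10_1_43 : pfC (piC [(nat_lit 41997052), (nat_lit 26592602), (nat_lit 19805017), (nat_lit 13318063)] (nat_lit 10328247)) p14_10_1 (nat_lit 4) (nat_lit 43) (nat_lit 44) = true := by decide +kernel
def p14_10_1_44 : pfC (piC [(nat_lit 41997052), (nat_lit 26592602), (nat_lit 19805017), (nat_lit 13318063)] (nat_lit 10328247)) p14_10_1 (nat_lit 4) (nat_lit 44) (nat_lit 45) = true := by decide +kernel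
def p14_10_1_45 : pfC (piC [(nat_lit 41997052), (nat_lit 26592602), (nat_lit 19805017), (nat_lit 13318063)] (nat_lit 10328247)) p14_10_1 (nat_lit 4) (nat_lit 45) (nat_lit 46) = true := by decide +kernel
def p14_10_1_46 : pfC (piC [(nat_lit 41997052), (nat_lit 26592602), (nat_lit 19805017), (nat_lit 13318063)] (nat_lit 10328247)) p14_10_1 (nat_lit 4) (nat_lit 46) (nat_lit 47) = true := by decide +kernel
def p14_10_1_47 : pfC (piC [(nat_lit 41997052), (nat_lit 26592602), (nat_lit 19805017), (nat_lit 13318063)] (nat_lit 10328247)) p14_10_1 (nat_lit 4) (nat_lit 47) (nat_lit 48) = true := by decide +kernel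
def p14_10_1_48 : pfC (piC [(nat_lit 41997052), (nat_lit 26592602), (nat_lit 19805017), (nat_lit 13318063)] (nat_lit 10328247)) p14_10_1 (nat_lit 4) (nat_lit 48) (nat_lit 49) = true := by decide +kernel
def p14_10_1_49 : pfC (piC [(nat_lit 41997052), (nat_lit 26592602), (nat_lit 19805017), (nat_lit 13318063)] (nat_lit 10328247)) p14_10_1 (nat_lit 4) (nat_lit 49) (nat_lit 50) = true := by decide +kernel
def p14_10_1_50 : pfC (piC [(nat_lit 41997052), (nat_lit 26592602), (nat_lit 19805017), (nat_lit 13318063)] (nat_lit 10328247)) p14_10_1 (nat_lit 4) (nat_lit 50) (nat_lit 51) = true := by decide +kernel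
def p14_10_1_51 : pfC (piC [(nat_lit 41997052), (nat_lit 26592602), (nat_lit 19805017), (nat_lit 13318063)] (nat_lit 10328247)) p14_10_1 (nat_lit 4) (nat_lit 51) (nat_lit 52) = true := by decide +kernel
def p14_10_1_52 : pfC (piC [(nat_lit 41997052), (nat_lit 26592602), (nat_lit 19805017), (nat_lit 13318063)] (nat_lit 10328247)) p14_10_1 (nat_lit 4) (nat_lit 52) (nat_lit 53) = true := by decide +kernel
def p14_10_1_53 : pfC (piC [(nat_lit 41997052), (nat_lit 26592602), (nat_lit 19805017), (nat_lit 13318063)] (nat_lit 10328247)) p14_10_1 (nat_lit 4) (nat_lit 53) (nat_lit 54) = true := by decide +kernel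
def p14_10_1_54 : pfC (piC [(nat_lit 41997052), (nat_lit 26592602), (nat_lit 19805017), (nat_lit 13318063)] (nat_lit 10328247)) p14_10_1 (nat_lit 4) (nat_lit 54) (nat_lit 55) = true := by decide +kernel
def p14_10_1_55 : pfC (piC [(nat_lit 41997052), (nat_lit 26592602), (nat_lit 19805017), (nat_lit 13318063)] (nat_lit 10328247)) p14_10_1 (nat_lit 4) (nat_lit 55) (nat_lit 56) = true := by decide +kernel
def p14_10_1_56 : pfC (piC [(nat_lit 41997052), (nat_lit 26592602), (nat_lit 19805017), (nat_lit 13318063)] (nat_lit 10328247)) p14_10_1 (nat_lit 4) (nat_lit 56) (nat_lit 57) = true := by decide +kernel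
def p14_10_1_57 : pfC (piC [(nat_lit 41997052), (nat_lit 26592602), (nat_lit 19805017), (nat_lit 13318063)] (nat_lit 10328247)) p14_10_1 (nat_lit 4) (nat_lit 57) (nat_lit 58) = true := by decide +kernel
def p14_10_1_58 : pfC (piC [(nat_lit 41997052), (nat_lit 26592602), (nat_lit 19805017), (nat_lit 13318063)] (nat_lit 10328247)) p14_10_1 (nat_lit 4) (nat_lit 58) (nat_lit 59) = true := by decide +kernel
def p14_10_1_59 : pfC (piC [(nat_lit 41997052), (nat_lit 26592602), (nat_lit 19805017), (nat_lit 13318063)] (nat_lit 10328247)) p14_10_1 (nat_lit 4) (nat_lit 59) (nat_lit 60) = true := by decide +kernel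
def p14_10_1_60 : pfC (piC [(nat_lit 41997052), (nat_lit 26592602), (nat_lit 19805017), (nat_lit 13318063)] (nat_lit 10328247)) p14_10_1 (nat_lit 4) (nat_lit 60) (nat_lit 61) = true := by decide +kernel
def p14_10_1_61 : pfC (piC [(nat_lit 41997052), (nat_lit 26592602), (nat_lit 19805017), (nat_lit 13318063)] (nat_lit 10328247)) p14_10_1 (nat_lit 4) (nat_lit 61) (nat_lit 62) = true := by decide +kernel
def p14_10_1_62 : pfC (piC [(nat_lit 41997052), (nat_lit 26592602), (nat_lit 19805017), (nat_lit 13318063)] (nat_lit 10328247)) p14_10_1 (nat_lit 4) (nat_lit 62) (nat_lit 63) = true := by decide +kernel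
def p14_10_1_63 : pfC (piC [(nat_lit 41997052), (nat_lit 26592602), (nat_lit 19805017), (nat_lit 13318063)] (nat_lit 10328247)) p14_10_1 (nat_lit 4) (nat_lit 63) (nat_lit 64) = true := by decide +kernel
def p14_10_1_64 : pfC (piC [(nat_lit 41997052), (nat_lit 26592602), (nat_lit 19805017), (nat_lit 13318063)] (nat_lit 10328247)) p14_10_1 (nat_lit 4) (nat_lit 64) (nat_lit 65) = true := by decide +kernel
def p14_10_1_65 : pfC (piC [(nat_lit 41997052), (nat_lit 26592602), (nat_lit 19805017), (nat_lit 13318063)] (nat_lit 10328247)) p14_10_1 (nat_lit 4) (nat_lit 65) (nat_lit 66) = true := by decide +kernel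
def p14_10_1_66 : pfC (piC [(nat_lit 41997052), (nat_lit 26592602), (nat_lit 19805017), (nat_lit 13318063)] (nat_lit 10328247)) p14_10_1 (nat_lit 4) (nat_lit 66) (nat_lit 67) = true := by decide +kernel
def p14_10_1_67 : pfC (piC [(nat_lit 41997052), (nat_lit 26592602), (nat_lit 19805017), (nat_lit 13318063)] (nat_lit 10328247)) p14_10_1 (nat_lit 4) (nat_lit 67) (nat_lit 68) = true := by decide +kernel
def p14_10_1_68 : pfC (piC [(nat_lit 41997052), (nat_lit 26592602), (nat_lit 19805017), (nat_lit 13318063)] (nat_lit 10328247)) p14_10_1 (nat_lit 4) (nat_lit 68) (nat_lit 69) = true := by decide +kernel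
def p14_10_1_69 : pfC (piC [(nat_lit 41997052), (nat_lit 26592602), (nat_lit 19805017), (nat_lit 13318063)] (nat_lit 10328247)) p14_10_1 (nat_lit 4) (nat_lit 69) (nat_lit 70) = true := by decide +kernel
def p14_10_1_70 : pfC (piC [(nat_lit 41997052), (nat_lit 26592602), (nat_lit 19805017), (nat_lit 13318063)] (nat_lit 10328247)) p14_10_1 (nat_lit 4) (nat_lit 70) (nat_lit 71) = true := by decide +kernel
def p14_10_1_71 : pfC (piC [(nat_lit 41997052), (nat_lit 26592602), (nat_lit 19805017), (nat_lit 13318063)] (nat_lit 10328247)) p14_10_1 (nat_lit 4) (nat_lit 71) (nat_lit 72) = true := by decide +kernel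
def p14_10_1_72 : pfC (piC [(nat_lit 41997052), (nat_lit 26592602), (nat_lit 19805017), (nat_lit 13318063)] (nat_lit 10328247)) p14_10_1 (nat_lit 4) (nat_lit 72) (nat_lit 73) = true := by decide +kernel
def p14_10_1_73 : pfC (piC [(nat_lit 41997052), (nat_lit 26592602), (nat_lit 19805017), (nat_lit 13318063)] (nat_lit 10328247)) p14_10_1 (nat_lit 4) (nat_lit 73) (nat_lit 74) = true := by decide +kernel
def p14_10_1_74 : pfC (piC [(nat_lit 41997052), (nat_lit 26592602), (nat_lit 19805017), (nat_lit 13318063)] (nat_lit 10328247)) p14_10_1 (nat_lit 4) (nat_lit 74) (nat_lit 75) = true := by decide +kernel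
def p14_10_1_75 : pfC (piC [(nat_lit 41997052), (nat_lit 26592602), (nat_lit 19805017), (nat_lit 13318063)] (nat_lit 10328247)) p14_10_1 (nat_lit 4) (nat_lit 75) (nat_lit 76) = true := by decide +kernel
def p14_10_1_76 : pfC (piC [(nat_lit 41997052), (nat_lit 26592602), (nat_lit 19805017), (nat_lit 13318063)] (nat_lit 10328247)) p14_10_1 (nat_lit 4) (nat_lit 76) (nat_lit 77) = true := by decide +kernel
def p14_10_1_77 : pfC (piC [(nat_lit 41997052), (nat_lit 26592602), (nat_lit 19805017), (nat_lit 13318063)] (nat_lit 10328247)) p14_10_1 (nat_lit 4) (nat_lit 77) (nat_lit 78) = true := by decide +kernel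
def p14_10_1_78 : pfC (piC [(nat_lit 41997052), (nat_lit 26592602), (nat_lit 19805017), (nat_lit 13318063)] (nat_lit 10328247)) p14_10_1 (nat_lit 4) (nat_lit 78) (nat_lit 79) = true := by decide +kernel
def p14_10_1_79 : pfC (piC [(nat_lit 41997052), (nat_lit 26592602), (nat_lit 19805017), (nat_lit 13318063)] (nat_lit 10328247)) p14_10_1 (nat_lit 4) (nat_lit 79) (nat_lit 80) = true := by decide +kernel
def p14_10_1_80 : pfC (piC [(nat_lit 41997052), (nat_lit 26592602), (nat_lit 19805017), (nat_lit 13318063)] (nat_lit 10328247)) p14_10_1 (nat_lit 4) (nat_lit 80) (nat_lit 81) = true := by decide +kernel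
theorem p14_10_1_T : PfS (PiF n14_10.reverse (nat_lit 10328247)) p14_10_1 (nat_lit 4) [] 0 :=
  pftab_of (los := [(nat_lit 41997052), (nat_lit 26592602), (nat_lit 19805017), (nat_lit 13318063)]) (by decide +kernel) (hi := (nat_lit 81)) (PfP.trans (PfP.trans (PfP.trans (PfP.trans (PfP.trans (PfP.trans (PfP.trans (PfP.trans (PfP.trans (PfP.trans (PfP.trans (PfP.trans (PfP.trans (PfP.trans (PfP.trans (PfP.trans (PfP.trans (PfP.trans (PfP.trans (PfP.trans (PfP.trans (PfP.trans (PfP.trans (PfP.trans (PfP.trans (PfP.trans (PfP.trans (PfP.trans (PfP.trans (PfP.trans (PfP.trans (PfP.trans (PfP.trans (PfP.trans (PfP.trans (PfP.trans (PfP.trans (PfP.trans (PfP.trans (PfP.trans (PfP.trans (PfP.trans (PfP.trans (PfP.trans (PfP.trans (PfP.trans (PfP.trans (PfP.trans (PfP.trans (PfP.trans (PfP.trans (PfP.trans (PfP.trans (PfP.trans (PfP.trans (PfP.trans (PfP.trans (PfP.trans (PfP.trans (PfP.trans (PfP.trans (PfP.trans (PfP.trans (PfP.trans (PfP.trans (PfP.trans (PfP.trans (PfP.trans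 (PfP.trans (PfP.trans (PfP.trans (PfP.trans (PfP.trans (PfP.trans (PfP.trans (PfP.trans (PfP.trans (PfP.trans (PfP.trans (PfP.trans (pfC_sound p14_10_1_0) (pfC_sound p14_10_1_1)) (pfC_sound p14_10_1_2)) (pfC_sound p14_10_1_3)) (pfC_sound p14_10_1_4)) (pfC_sound p14_10_1_5)) (pfC_sound p14_10_1_6)) (pfC_sound p14_10_1_7)) (pfC_sound p14_10_1_8)) (pfC_sound p14_10_1_9)) (pfC_sound p14_10_1_10)) (pfC_sound p14_10_1_11)) (pfC_sound p14_10_1_12))
 (pfC_sound p14_10_1_13)) (pfC_sound p14_10_1_14)) (pfC_sound p14_10_1_15)) (pfC_sound p14_10_1_16)) (pfC_sound p14_10_1_17)) (pfC_sound p14_10_1_18)) (pfC_sound p14_10_1_19)) (pfC_sound p14_10_1_20)) (pfC_sound p14_10_1_21)) (pfC_sound p14_10_1_22)) (pfC_sound p14_10_1_23)) (pfC_sound p14_10_1_24)) (pfC_sound p14_10_1_25)) (pfC_sound p14_10_1_26)) (pfC_sound p14_10_1_27)) (pfC_sound p14_10_1_28)) (pfC_sound p14_10_1_29)) (pfC_sound p14_10_1_30)) (pfC_sound p14_10_1_31)) (pfC_sound p14_10_1_32)) (pfC_sound p14_10_1_33)) (pfC_sound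 p14_10_1_34)) (pfC_sound p14_10_1_35)) (pfC_sound p14_10_1_36)) (pfC_sound p14_10_1_37)) (pfC_sound p14_10_1_38)) (pfC_sound p14_10_1_39)) (pfC_sound p14_10_1_40)) (pfC_sound p14_10_1_41)) (pfC_sound p14_10_1_42)) (pfC_sound p14_10_1_43)) (pfC_sound p14_10_1_44)) (pfC_sound p14_10_1_45)) (pfC_sound p14_10_1_46)) (pfC_sound p14_10_1_47)) (pfC_sound p14_10_1_48)) (pfC_sound p14_10_1_49)) (pfC_sound p14_10_1_50)) (pfC_sound p14_10_1_51)) (pfC_sound p14_10_1_52)) (pfC_sound p14_10_1_53)) (pfC_sound p14_10_1_54)) (pfC_sound p14_10_1_55)) (pfC_sound p14_10_1_56)) (pfC_sound p14_10_1_57)) (pfC_sound p14_10_1_58)) (pfC_sound p14_10_1_59)) (pfC_sound p14_10_1_60))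
 (pfC_sound p14_10_1_61)) (pfC_sound p14_10_1_62)) (pfC_sound p14_10_1_63)) (pfC_sound p14_10_1_64)) (pfC_sound p14_10_1_65)) (pfC_sound p14_10_1_66)) (pfC_sound p14_10_1_67)) (pfC_sound p14_10_1_68)) (pfC_sound p14_10_1_69)) (pfC_sound p14_10_1_70)) (pfC_sound p14_10_1_71)) (pfC_sound p14_10_1_72)) (pfC_sound p14_10_1_73)) (pfC_sound p14_10_1_74)) (pfC_sound p14_10_1_75)) (pfC_sound p14_10_1_76)) (pfC_sound p14_10_1_77)) (pfC_sound p14_10_1_78)) (pfC_sound p14_10_1_79)) (pfC_sound p14_10_1_80)) (by decide +kernel)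

def z14_10_1 : zOK yB14_10 (nat_lit 1) (nat_lit 400) (nat_lit 600) (nat_lit 10328247) (nat_lit 6831970) = true := by decide +kernel
def g14_10_1 : gOK yB14_10.x P14_10 (nat_lit 1430) (q14_10 :: r14_10) (nat_lit 1) (nat_lit 400) (nat_lit 2) (nat_lit 600) (nat_lit 11000000) (nat_lit 17850000) (nat_lit 12712500) (nat_lit 12712500) [(nat_lit 800), (nat_lit 1040)] = true := by decide +kernel
def v14_10_1 : ivC P14_10 s14_10 w14_10 n14_10 (nat_lit 4) (nat_lit 5060) (nat_lit 1) (nat_lit 400) f144_1_400 f152_1_400 (nat_lit 2) (nat_lit 600) f144_1_600 f152_1_600 (nat_lit 10328247) (nat_lit 6831970) p14_10_1 = true := by decide +kernel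
def p14_10_2 : PF := (PF.cons (PF.cons (PF.cons (PF.cons (PF.leaf (nat_lit 2730939) (nat_lit 15824141) (nat_lit 51284671) (nat_lit 15824141) [(nat_lit 0), (nat_lit 0), (nat_lit 0), (nat_lit 0)]) (PF.cons (PF.leaf (nat_lit 2854890) (nat_lit 208461) (nat_lit 51089064) (nat_lit 15811286) [(nat_lit 208461), (nat_lit 0), (nat_lit 0), (nat_lit 0)]) (PF.cons (PF.leaf (nat_lit 3003377) (nat_lit 226701) (nat_lit 50859911) (nat_lit 15795498) [(nat_lit 226701), (nat_lit 0), (nat_lit 0), (nat_lit 0)]) (PF.cons (PF.leaf (nat_lit 3170199) (nat_lit 242910) (nat_lit 50603181) (nat_lit 15776899) [(nat_lit 242910), (nat_lit 0), (nat_lit 0), (nat_lit 0)]) (PF.cons (PF.leaf (nat_lit 3352818) (nat_lit 257552) (nat_lit 50323069) (nat_lit 15755534) [(nat_lit 257552), (nat_lit 0), (nat_lit 0), (nat_lit 0)]) (PF.cons (PF.leaf (nat_lit 3549291) (nat_lit 270923) (nat_lit 50022785) (nat_lit 15731410) [(nat_lit 270923), (nat_lit 0), (nat_lit 0), (nat_lit 0)]) (PF.cons (PF.leaf (nat_lit 3758051)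 (nat_lit 283227) (nat_lit 49704920) (nat_lit 15704525) [(nat_lit 283227), (nat_lit 0), (nat_lit 0), (nat_lit 0)]) (PF.cons (PF.leaf (nat_lit 3977826) (nat_lit 294612) (nat_lit 49371649) (nat_lit 15674874) [(nat_lit 294612), (nat_lit 0),
 (nat_lit 0), (nat_lit 0)]) (PF.cons PF.nil (PF.cons PF.nil PF.nil)))))))))) (PF.cons (PF.cons (PF.leaf (nat_lit 3214041) (nat_lit 1100778) (nat_lit 50260722) (nat_lit 15747311) [(nat_lit 0), (nat_lit 1100778), (nat_lit 0), (nat_lit 0)]) (PF.cons (PF.leaf (nat_lit 3377226) (nat_lit 253965) (nat_lit 50002997) (nat_lit 15726403) [(nat_lit 253965), (nat_lit 1125445), (nat_lit 0), (nat_lit 0)]) (PF.cons (PF.leaf (nat_lit 3558676) (nat_lit 267948) (nat_lit 49720626) (nat_lit 15702458) [(nat_lit 267948), (nat_lit 1149830), (nat_lit 0), (nat_lit 0)]) (PF.cons (PF.leaf (nat_lit 3754550) (nat_lit 280660) (nat_lit 49417715) (nat_lit 15675584) [(nat_lit 280660), (nat_lit 1173531), (nat_lit 0), (nat_lit 0)]) (PF.cons (PF.leaf (nat_lit 3962872)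 (nat_lit 292328) (nat_lit 49097316) (nat_lit 15645844) [(nat_lit 292328), (nat_lit 1196337), (nat_lit 0), (nat_lit 0)]) (PF.cons (PF.leaf (nat_lit 4182306) (nat_lit 303108) (nat_lit 48761850) (nat_lit 15613281) [(nat_lit 303108), (nat_lit 1218139), (nat_lit 0), (nat_lit 0)]) (PF.cons PF.nil (PF.cons PF.nil (PF.cons PF.nil PF.nil))))))))) (PF.cons (PF.cons (PF.leaf (nat_lit 3768858) (nat_lit 1181844) (nat_lit 49102230) (nat_lit 15642893) [(nat_lit 0),
 (nat_lit 1181844), (nat_lit 0), (nat_lit 0)]) (PF.cons (PF.leaf (nat_lit 3961367) (nat_lit 289040) (nat_lit 48800451) (nat_lit 15613646) [(nat_lit 289040), (nat_lit 1202837), (nat_lit 0), (nat_lit 0)]) (PF.cons (PF.leaf (nat_lit 4168127) (nat_lit 300259) (nat_lit 48480459) (nat_lit 15581371) [(nat_lit 300259), (nat_lit 1223231), (nat_lit 0), (nat_lit 0)]) (PF.cons (PF.leaf (nat_lit 4386244) (nat_lit 310575) (nat_lit 48145194) (nat_lit 15546183) [(nat_lit 310575), (nat_lit 1242853), (nat_lit 0), (nat_lit 0)]) (PF.cons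 (PF.leaf (nat_lit 4614389) (nat_lit 320120) (nat_lit 47796949) (nat_lit 15508167) [(nat_lit 320120), (nat_lit 1261607), (nat_lit 0), (nat_lit 0)]) (PF.cons PF.nil (PF.cons PF.nil PF.nil))))))) (PF.cons (PF.cons (PF.leaf (nat_lit 4375547) (nat_lit 1247447) (nat_lit 47855285) (nat_lit 15511186) [(nat_lit 0), (nat_lit 1247447), (nat_lit 0), (nat_lit 0)]) (PF.cons (PF.leaf (nat_lit 4590389) (nat_lit 317091) (nat_lit 47522726) (nat_lit 15473724) [(nat_lit 317091), (nat_lit 1265089), (nat_lit 0), (nat_lit 0)]) (PF.cons (PF.leaf (nat_lit 4816520) (nat_lit 326280) (nat_lit 47176788) (nat_lit 15433355) [(nat_lit 326280), (nat_lit 1282036), (nat_lit 0), (nat_lit 0)]) (PF.cons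
 PF.nil (PF.cons PF.nil PF.nil))))) (PF.cons (PF.cons (PF.leaf (nat_lit 5019387) (nat_lit 1300415) (nat_lit 46553502) (nat_lit 15353649) [(nat_lit 0), (nat_lit 1300415), (nat_lit 0), (nat_lit 0)]) (PF.cons (PF.leaf (nat_lit 5251189) (nat_lit 339853) (nat_lit 46200326) (nat_lit 15308440) [(nat_lit 339853), (nat_lit 1315048), (nat_lit 0), (nat_lit 0)]) (PF.cons PF.nil (PF.cons PF.nil PF.nil)))) (PF.cons (PF.cons (PF.leaf (nat_lit 5688800) (nat_lit 1342750) (nat_lit 45222449) (nat_lit 15172608) [(nat_lit 0), (nat_lit 1342750), (nat_lit 0), (nat_lit 0)]) (PF.cons PF.nil PF.nil)) (PF.cons PF.nil (PF.cons PF.nil PF.nil)))))))) (PF.cons (PF.cons (PF.cons (PF.leaf (nat_lit 3737459) (nat_lit 2969686) (nat_lit 48566940) (nat_lit 15572186) [(nat_lit 0), (nat_lit 0), (nat_lit 2969686), (nat_lit 0)]) (PF.cons (PF.leaf (nat_lit 3909078) (nat_lit 273300) (nat_lit 48299990) (nat_lit 15544754) [(nat_lit 273300), (nat_lit 0), (nat_lit 2990767), (nat_lit 0)]) (PF.cons (PF.leaf (nat_lit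 4098225) (nat_lit 286530) (nat_lit 48009664) (nat_lit 15513913) [(nat_lit 286530), (nat_lit 0), (nat_lit 3012173), (nat_lit 0)]) (PF.cons (PF.leaf (nat_lit 4301014) (nat_lit 298386) (nat_lit 47700331) (nat_lit
 15479919) [(nat_lit 298386), (nat_lit 0), (nat_lit 3033403), (nat_lit 0)]) (PF.cons (PF.leaf (nat_lit 4515375) (nat_lit 309144) (nat_lit 47375171) (nat_lit 15442941) [(nat_lit 309144), (nat_lit 0), (nat_lit 3054120), (nat_lit 0)]) (PF.cons (PF.leaf (nat_lit 4739887) (nat_lit 318991) (nat_lit 47036655) (nat_lit 15403108) [(nat_lit 318991), (nat_lit 0), (nat_lit 3074092), (nat_lit 0)]) (PF.cons PF.nil PF.nil))))))) (PF.cons (PF.cons (PF.leaf (nat_lit 4306138) (nat_lit 1233277) (nat_lit 47389964) (nat_lit 15441302) [(nat_lit 0), (nat_lit 1233277), (nat_lit 3044268), (nat_lit 0)]) (PF.cons (PF.leaf (nat_lit 4504551) (nat_lit 304918) (nat_lit 47084565) (nat_lit 15405463) [(nat_lit 304918), (nat_lit 1251066), (nat_lit 3062799), (nat_lit 0)]) (PF.cons (PF.leaf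 (nat_lit 4716357) (nat_lit 315351) (nat_lit 46762407) (nat_lit 15366473) [(nat_lit 315351), (nat_lit 1268256), (nat_lit 3080971), (nat_lit 0)]) (PF.cons (PF.leaf (nat_lit 4938727) (nat_lit 324844) (nat_lit 46426492) (nat_lit 15324542) [(nat_lit 324844), (nat_lit 1284716), (nat_lit 3098527), (nat_lit 0)]) (PF.cons PF.nil PF.nil))))) (PF.cons (PF.cons (PF.leaf (nat_lit 4919138) (nat_lit 1287176) (nat_lit 46144901) (nat_lit 15285069)
 [(nat_lit 0), (nat_lit 1287176), (nat_lit 3104487), (nat_lit 0)]) (PF.cons (PF.leaf (nat_lit 5137512) (nat_lit 329890) (nat_lit 45813729) (nat_lit 15241416) [(nat_lit 329890), (nat_lit 1301995), (nat_lit 3119784), (nat_lit 0)]) (PF.cons (PF.leaf (nat_lit 5366351) (nat_lit 338325) (nat_lit 45470553) (nat_lit 15194895) [(nat_lit 338325), (nat_lit 1316153), (nat_lit 3134406), (nat_lit 0)]) (PF.cons PF.nil PF.nil)))) (PF.cons (PF.cons (PF.leaf (nat_lit 5562932) (nat_lit 1330268) (nat_lit 44861401) (nat_lit 15105870) [(nat_lit 0), (nat_lit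 1330268), (nat_lit 3150734), (nat_lit 0)]) (PF.cons (PF.leaf (nat_lit 5796147) (nat_lit 349930) (nat_lit 44513820) (nat_lit 15055155) [(nat_lit 349930), (nat_lit 1342420), (nat_lit 3162646), (nat_lit 0)]) PF.nil)) (PF.cons PF.nil (PF.cons PF.nil PF.nil)))))) (PF.cons (PF.cons (PF.cons (PF.leaf (nat_lit 4835107) (nat_lit 3093408) (nat_lit 45710288) (nat_lit 15211706) [(nat_lit 0), (nat_lit 0), (nat_lit 3093408), (nat_lit 0)]) (PF.cons (PF.leaf (nat_lit 5037527) (nat_lit 317665) (nat_lit 45405505) (nat_lit 15170319) [(nat_lit 317665), (nat_lit 0), (nat_lit 3107661), (nat_lit 0)]) (PF.cons (PF.leaf (nat_lit 5252650) (nat_lit 327391) (nat_lit 45085299)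
 (nat_lit 15125740) [(nat_lit 327391), (nat_lit 0), (nat_lit 3121494), (nat_lit 0)]) (PF.cons (PF.leaf (nat_lit 5477662) (nat_lit 336153) (nat_lit 44752675) (nat_lit 15078257) [(nat_lit 336153), (nat_lit 0), (nat_lit 3134710), (nat_lit 0)]) (PF.cons PF.nil PF.nil))))) (PF.cons (PF.cons (PF.leaf (nat_lit 5450022) (nat_lit 1316689) (nat_lit 44481421) (nat_lit 15035467) [(nat_lit 0), (nat_lit 1316689), (nat_lit 3137616), (nat_lit 0)]) (PF.cons (PF.leaf (nat_lit 5670413) (nat_lit 339981) (nat_lit 44154991) (nat_lit 14986785) [(nat_lit 339981), (nat_lit 1329133), (nat_lit 3148960), (nat_lit 0)]) (PF.cons (PF.leaf (nat_lit 5900566) (nat_lit 347745) (nat_lit 43817762) (nat_lit 14935318) [(nat_lit 347745), (nat_lit 1340946), (nat_lit 3159647), (nat_lit 0)]) (PF.cons PF.nil PF.nil)))) (PF.cons (PF.cons (PF.leaf (nat_lit 6090478) (nat_lit 1351569) (nat_lit 43226844) (nat_lit 14839192) [(nat_lit 0), (nat_lit 1351569), (nat_lit 3169818), (nat_lit 0)]) (PF.cons PF.nil PF.nil))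 (PF.cons PF.nil (PF.cons PF.nil PF.nil))))) (PF.cons (PF.cons (PF.cons (PF.leaf (nat_lit 5966700) (nat_lit 3155387) (nat_lit 42874360) (nat_lit 14768291) [(nat_lit 0), (nat_lit 0), (nat_lit 3155387), (nat_lit 0)])
 (PF.cons (PF.leaf (nat_lit 6187886) (nat_lit 347818) (nat_lit 42555070) (nat_lit 14715646) [(nat_lit 347818), (nat_lit 0), (nat_lit 3163425), (nat_lit 0)]) (PF.cons PF.nil (PF.cons PF.nil PF.nil)))) (PF.cons (PF.cons (PF.leaf (nat_lit 6601261) (nat_lit 1365864) (nat_lit 41655995) (nat_lit 14559025) [(nat_lit 0), (nat_lit 1365864), (nat_lit 3175975), (nat_lit 0)]) (PF.cons PF.nil PF.nil)) (PF.cons PF.nil PF.nil))) (PF.cons (PF.cons (PF.cons (PF.leaf (nat_lit 7094975) (nat_lit 3171680) (nat_lit 40152171) (nat_lit 14269917) [(nat_lit 0), (nat_lit 0), (nat_lit 3171680), (nat_lit 0)]) (PF.cons PF.nil PF.nil)) (PF.cons PF.nil PF.nil)) (PF.cons PF.nil PF.nil)))))) (PF.cons (PF.cons (PF.cons (PF.cons (PF.leaf (nat_lit 4652818) (nat_lit 8195446) (nat_lit 44049216)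 (nat_lit 14864149) [(nat_lit 0), (nat_lit 0), (nat_lit 0), (nat_lit 8195446)]) (PF.cons (PF.leaf (nat_lit 4824270) (nat_lit 283042) (nat_lit 43805062) (nat_lit 14828740) [(nat_lit 283042), (nat_lit 0), (nat_lit 0), (nat_lit 8191967)]) (PF.cons (PF.leaf (nat_lit 5012329) (nat_lit 295651) (nat_lit 43540509) (nat_lit 14789625) [(nat_lit 295651), (nat_lit 0), (nat_lit 0), (nat_lit 8187375)]) (PF.cons (PF.leaf (nat_lit 5212889)
 (nat_lit 306762) (nat_lit 43259668) (nat_lit 14747263) [(nat_lit 306762), (nat_lit 0), (nat_lit 0), (nat_lit 8181593)]) (PF.cons (PF.leaf (nat_lit 5424032) (nat_lit 316689) (nat_lit 42965511) (nat_lit 14701980) [(nat_lit 316689), (nat_lit 0), (nat_lit 0), (nat_lit 8174562)]) (PF.cons (PF.leaf (nat_lit 5644249) (nat_lit 325644) (nat_lit 42660325) (nat_lit 14654023) [(nat_lit 325644), (nat_lit 0), (nat_lit 0), (nat_lit 8166242)]) (PF.cons PF.nil PF.nil))))))) (PF.cons (PF.cons (PF.leaf (nat_lit 5207295) (nat_lit 1252694) (nat_lit 42983705) (nat_lit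 14701837) [(nat_lit 0), (nat_lit 1252694), (nat_lit 0), (nat_lit 8170574)]) (PF.cons (PF.leaf (nat_lit 5402675) (nat_lit 311582) (nat_lit 42708112) (nat_lit 14658626) [(nat_lit 311582), (nat_lit 1267280), (nat_lit 0), (nat_lit 8163210)]) (PF.cons (PF.leaf (nat_lit 5610402) (nat_lit 321228) (nat_lit 42418290) (nat_lit 14612319) [(nat_lit 321228), (nat_lit 1281178), (nat_lit 0), (nat_lit 8154566)]) (PF.cons (PF.leaf (nat_lit 5827685) (nat_lit 329879) (nat_lit 42116993) (nat_lit 14563249) [(nat_lit 329879), (nat_lit 1294304), (nat_lit 0), (nat_lit 8144626)]) (PF.cons (PF.leaf (nat_lit 6053117) (nat_lit 337705) (nat_lit 41806316) (nat_lit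
 14511668) [(nat_lit 337705), (nat_lit 1306625), (nat_lit 0), (nat_lit 8133380)]) PF.nil))))) (PF.cons (PF.cons (PF.leaf (nat_lit 5798159) (nat_lit 1294359) (nat_lit 41869275) (nat_lit 14519288) [(nat_lit 0), (nat_lit 1294359), (nat_lit 0), (nat_lit 8131529)]) (PF.cons (PF.leaf (nat_lit 6010799) (nat_lit 333409) (nat_lit 41573569) (nat_lit 14469472) [(nat_lit 333409), (nat_lit 1306106), (nat_lit 0), (nat_lit 8120148)]) (PF.cons (PF.leaf (nat_lit 6232955) (nat_lit 341017) (nat_lit 41267912) (nat_lit 14417046) [(nat_lit 341017), (nat_lit 1317181), (nat_lit 0), (nat_lit 8107456)]) (PF.cons PF.nil PF.nil)))) (PF.cons (PF.cons (PF.leaf (nat_lit 6413219) (nat_lit 1326429) (nat_lit 40730761) (nat_lit 14319810) [(nat_lit 0), (nat_lit 1326429), (nat_lit 0), (nat_lit 8078953)]) (PF.cons (PF.leaf (nat_lit 6638403) (nat_lit 350458) (nat_lit 40422956) (nat_lit 14264438) [(nat_lit 350458), (nat_lit 1335753), (nat_lit 0), (nat_lit 8063699)]) PF.nil)) (PF.cons PF.nil (PF.cons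 PF.nil PF.nil)))))) (PF.cons (PF.cons (PF.cons (PF.leaf (nat_lit 5698742) (nat_lit 3067610) (nat_lit 41498930) (nat_lit 14443497) [(nat_lit 0), (nat_lit 0), (nat_lit 3067610), (nat_lit 8098774)]) (PF.cons (PF.leaf (nat_lit
 5896411) (nat_lit 320795) (nat_lit 41226827) (nat_lit 14396871) [(nat_lit 320795), (nat_lit 0), (nat_lit 3076552), (nat_lit 8087765)]) (PF.cons (PF.leaf (nat_lit 6105809) (nat_lit 329781) (nat_lit 40941625) (nat_lit 14347197) [(nat_lit 329781), (nat_lit 0), (nat_lit 3085004), (nat_lit 8075422)]) (PF.cons (PF.leaf (nat_lit 6324139) (nat_lit 337767) (nat_lit 40646036) (nat_lit 14294855) [(nat_lit 337767), (nat_lit 0), (nat_lit 3092839), (nat_lit 8061777)]) (PF.cons PF.nil PF.nil))))) (PF.cons (PF.cons (PF.leaf (nat_lit 6287876) (nat_lit 1311807) (nat_lit 40409121) (nat_lit 14249503) [(nat_lit 0), (nat_lit 1311807), (nat_lit 3092079), (nat_lit 8046300)]) (PF.cons (PF.leaf (nat_lit 6501196) (nat_lit 340329) (nat_lit 40119991) (nat_lit 14196807)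 [(nat_lit 340329), (nat_lit 1321639), (nat_lit 3098512), (nat_lit 8031531)]) (PF.cons (PF.leaf (nat_lit 6723431) (nat_lit 347344) (nat_lit 39821862) (nat_lit 14141616) [(nat_lit 347344), (nat_lit 1330840), (nat_lit 3104325), (nat_lit 8015477)]) (PF.cons PF.nil PF.nil)))) (PF.cons (PF.cons (PF.leaf (nat_lit 6897280) (nat_lit 1337476) (nat_lit 39303923) (nat_lit 14041008) [(nat_lit 0), (nat_lit 1337476), (nat_lit 3106987), (nat_lit 7981941)])
 (PF.cons (PF.leaf (nat_lit 7121758) (nat_lit 355423) (nat_lit 39005094) (nat_lit 13983360) [(nat_lit 355423), (nat_lit 1345148), (nat_lit 3110964), (nat_lit 7963673)]) PF.nil)) (PF.cons PF.nil (PF.cons PF.nil PF.nil))))) (PF.cons (PF.cons (PF.cons (PF.leaf (nat_lit 6763687) (nat_lit 3090895) (nat_lit 39006282) (nat_lit 13972125) [(nat_lit 0), (nat_lit 0), (nat_lit 3090895), (nat_lit 7948612)]) (PF.cons (PF.leaf (nat_lit 6976832) (nat_lit 345540) (nat_lit 38725076) (nat_lit 13917300) [(nat_lit 345540), (nat_lit 0), (nat_lit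 3094913), (nat_lit 7931066)]) (PF.cons (PF.leaf (nat_lit 7198359) (nat_lit 352028) (nat_lit 38435702) (nat_lit 13860102) [(nat_lit 352028), (nat_lit 0), (nat_lit 3098339), (nat_lit 7912273)]) (PF.cons PF.nil PF.nil)))) (PF.cons (PF.cons (PF.leaf (nat_lit 7365825) (nat_lit 1343508) (nat_lit 37938093) (nat_lit 13757375) [(nat_lit 0), (nat_lit 1343508), (nat_lit 3097518), (nat_lit 7874798)]) (PF.cons PF.nil PF.nil)) (PF.cons PF.nil PF.nil))) (PF.cons (PF.cons (PF.cons (PF.leaf (nat_lit 7818957) (nat_lit 3081100) (nat_lit 36633752) (nat_lit 13471711) [(nat_lit 0), (nat_lit 0), (nat_lit 3081100), (nat_lit 7760047)]) (PF.cons PF.nil PF.nil)) (PF.cons PF.nil PF.nil))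
 (PF.cons PF.nil PF.nil))))) (PF.cons (PF.cons (PF.cons (PF.cons (PF.leaf (nat_lit 6470605) (nat_lit 7784636) (nat_lit 37866669) (nat_lit 13672870) [(nat_lit 0), (nat_lit 0), (nat_lit 0), (nat_lit 7784636)]) (PF.cons (PF.leaf (nat_lit 6662435) (nat_lit 319507) (nat_lit 37625489) (nat_lit 13624779) [(nat_lit 319507), (nat_lit 0), (nat_lit 0), (nat_lit 7769518)]) (PF.cons (PF.leaf (nat_lit 6865220) (nat_lit 327851) (nat_lit 37373093) (nat_lit 13573846) [(nat_lit 327851), (nat_lit 0), (nat_lit 0), (nat_lit 7753084)]) (PF.cons (PF.leaf (nat_lit 7076155) (nat_lit 335188) (nat_lit 37111892) (nat_lit 13520491) [(nat_lit 335188), (nat_lit 0), (nat_lit 0), (nat_lit 7735431)]) (PF.cons PF.nil PF.nil))))) (PF.cons (PF.cons (PF.leaf (nat_lit 7033761) (nat_lit 1292410) (nat_lit 36905707) (nat_lit 13475493) [(nat_lit 0), (nat_lit 1292410), (nat_lit 0), (nat_lit 7717600)]) (PF.cons (PF.leaf (nat_lit 7239524) (nat_lit 336846) (nat_lit 36650716) (nat_lit 13422296) [(nat_lit 336846),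 (nat_lit 1300331), (nat_lit 0), (nat_lit 7699311)]) (PF.cons (PF.leaf (nat_lit 7453483) (nat_lit 343250) (nat_lit 36388104) (nat_lit 13366869) [(nat_lit 343250), (nat_lit 1307639), (nat_lit 0), (nat_lit 7679849)])
 (PF.cons PF.nil PF.nil)))) (PF.cons (PF.cons (PF.leaf (nat_lit 7613555) (nat_lit 1311564) (nat_lit 35935092) (nat_lit 13267411) [(nat_lit 0), (nat_lit 1311564), (nat_lit 0), (nat_lit 7641590)]) (PF.cons PF.nil PF.nil)) PF.nil))) (PF.cons (PF.cons (PF.cons (PF.leaf (nat_lit 7474153) (nat_lit 3005470) (nat_lit 35683263) (nat_lit 13202948) [(nat_lit 0), (nat_lit 0), (nat_lit 3005470), (nat_lit 7608564)]) (PF.cons (PF.leaf (nat_lit 7679148) (nat_lit 340260) (nat_lit 35435973) (nat_lit 13148738) [(nat_lit 340260), (nat_lit 0), (nat_lit 3006857), (nat_lit 7588491)]) (PF.cons PF.nil PF.nil))) (PF.cons (PF.cons (PF.leaf (nat_lit 8046196) (nat_lit 1312269) (nat_lit 34747248) (nat_lit 12992594) [(nat_lit 0), (nat_lit 1312269), (nat_lit 3003196), (nat_lit 7526752)])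 PF.nil) PF.nil)) (PF.cons PF.nil PF.nil))) (PF.cons (PF.cons (PF.cons (PF.cons (PF.leaf (nat_lit 8114407) (nat_lit 7269985) (nat_lit 32819173) (nat_lit 12479683) [(nat_lit 0), (nat_lit 0), (nat_lit 0), (nat_lit 7269985)]) (PF.cons (PF.leaf (nat_lit 8311488) (nat_lit 333263) (nat_lit 32601303) (nat_lit 12427535) [(nat_lit 333263), (nat_lit 0), (nat_lit 0), (nat_lit 7248903)]) PF.nil)) (PF.cons PF.nil PF.nil)) (PF.cons PF.nil
 PF.nil)) (PF.cons PF.nil (PF.cons PF.nil (PF.cons PF.nil (PF.cons PF.nil PF.nil))))))))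

def p14_10_2_0 : pfC (piC [(nat_lit 41997052), (nat_lit 26592602), (nat_lit 19805017), (nat_lit 13318063)] (nat_lit 6831970)) p14_10_2 (nat_lit 4) (nat_lit 0) (nat_lit 1) = true := by decide +kernel
def p14_10_2_1 : pfC (piC [(nat_lit 41997052), (nat_lit 26592602), (nat_lit 19805017), (nat_lit 13318063)] (nat_lit 6831970)) p14_10_2 (nat_lit 4) (nat_lit 1) (nat_lit 2) = true := by decide +kernel
def p14_10_2_2 : pfC (piC [(nat_lit 41997052), (nat_lit 26592602), (nat_lit 19805017), (nat_lit 13318063)] (nat_lit 6831970)) p14_10_2 (nat_lit 4) (nat_lit 2) (nat_lit 3) = true := by decide +kernel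
def p14_10_2_3 : pfC (piC [(nat_lit 41997052), (nat_lit 26592602), (nat_lit 19805017), (nat_lit 13318063)] (nat_lit 6831970)) p14_10_2 (nat_lit 4) (nat_lit 3) (nat_lit 4) = true := by decide +kernel
def p14_10_2_4 : pfC (piC [(nat_lit 41997052), (nat_lit 26592602), (nat_lit 19805017), (nat_lit 13318063)] (nat_lit 6831970)) p14_10_2 (nat_lit 4) (nat_lit 4) (nat_lit 5) = true := by decide +kernel
def p14_10_2_5 : pfC (piC [(nat_lit 41997052), (nat_lit 26592602), (nat_lit 19805017), (nat_lit 13318063)] (nat_lit 6831970)) p14_10_2 (nat_lit 4) (nat_lit 5) (nat_lit 6) = true := by decide +kernel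
def p14_10_2_6 : pfC (piC [(nat_lit 41997052), (nat_lit 26592602), (nat_lit 19805017), (nat_lit 13318063)] (nat_lit 6831970)) p14_10_2 (nat_lit 4) (nat_lit 6) (nat_lit 7) = true := by decide +kernel
def p14_10_2_7 : pfC (piC [(nat_lit 41997052), (nat_lit 26592602), (nat_lit 19805017), (nat_lit 13318063)] (nat_lit 6831970)) p14_10_2 (nat_lit 4) (nat_lit 7) (nat_lit 8) = true := by decide +kernel
def p14_10_2_8 : pfC (piC [(nat_lit 41997052), (nat_lit 26592602), (nat_lit 19805017), (nat_lit 13318063)] (nat_lit 6831970)) p14_10_2 (nat_lit 4) (nat_lit 8) (nat_lit 9) = true := by decide +kernel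
def p14_10_2_9 : pfC (piC [(nat_lit 41997052), (nat_lit 26592602), (nat_lit 19805017), (nat_lit 13318063)] (nat_lit 6831970)) p14_10_2 (nat_lit 4) (nat_lit 9) (nat_lit 10) = true := by decide +kernel
def p14_10_2_10 : pfC (piC [(nat_lit 41997052), (nat_lit 26592602), (nat_lit 19805017), (nat_lit 13318063)] (nat_lit 6831970)) p14_10_2 (nat_lit 4) (nat_lit 10) (nat_lit 11) = true := by decide +kernel
def p14_10_2_11 : pfC (piC [(nat_lit 41997052), (nat_lit 26592602), (nat_lit 19805017), (nat_lit 13318063)] (nat_lit 6831970)) p14_10_2 (nat_lit 4) (nat_lit 11) (nat_lit 12) = true := by decide +kernel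
def p14_10_2_12 : pfC (piC [(nat_lit 41997052), (nat_lit 26592602), (nat_lit 19805017), (nat_lit 13318063)] (nat_lit 6831970)) p14_10_2 (nat_lit 4) (nat_lit 12) (nat_lit 13) = true := by decide +kernel
def p14_10_2_13 : pfC (piC [(nat_lit 41997052), (nat_lit 26592602), (nat_lit 19805017), (nat_lit 13318063)] (nat_lit 6831970)) p14_10_2 (nat_lit 4) (nat_lit 13) (nat_lit 14) = true := by decide +kernel
def p14_10_2_14 : pfC (piC [(nat_lit 41997052), (nat_lit 26592602), (nat_lit 19805017), (nat_lit 13318063)] (nat_lit 6831970)) p14_10_2 (nat_lit 4) (nat_lit 14) (nat_lit 15) = true := by decide +kernel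
def p14_10_2_15 : pfC (piC [(nat_lit 41997052), (nat_lit 26592602), (nat_lit 19805017), (nat_lit 13318063)] (nat_lit 6831970)) p14_10_2 (nat_lit 4) (nat_lit 15) (nat_lit 16) = true := by decide +kernel
def p14_10_2_16 : pfC (piC [(nat_lit 41997052), (nat_lit 26592602), (nat_lit 19805017), (nat_lit 13318063)] (nat_lit 6831970)) p14_10_2 (nat_lit 4) (nat_lit 16) (nat_lit 17) = true := by decide +kernel
def p14_10_2_17 : pfC (piC [(nat_lit 41997052), (nat_lit 26592602), (nat_lit 19805017), (nat_lit 13318063)] (nat_lit 6831970)) p14_10_2 (nat_lit 4) (nat_lit 17) (nat_lit 18) = true := by decide +kernel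
def p14_10_2_18 : pfC (piC [(nat_lit 41997052), (nat_lit 26592602), (nat_lit 19805017), (nat_lit 13318063)] (nat_lit 6831970)) p14_10_2 (nat_lit 4) (nat_lit 18) (nat_lit 19) = true := by decide +kernel
def p14_10_2_19 : pfC (piC [(nat_lit 41997052), (nat_lit 26592602), (nat_lit 19805017), (nat_lit 13318063)] (nat_lit 6831970)) p14_10_2 (nat_lit 4) (nat_lit 19) (nat_lit 20) = true := by decide +kernel
def p14_10_2_20 : pfC (piC [(nat_lit 41997052), (nat_lit 26592602), (nat_lit 19805017), (nat_lit 13318063)] (nat_lit 6831970)) p14_10_2 (nat_lit 4) (nat_lit 20) (nat_lit 21) = true := by decide +kernel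
def p14_10_2_21 : pfC (piC [(nat_lit 41997052), (nat_lit 26592602), (nat_lit 19805017), (nat_lit 13318063)] (nat_lit 6831970)) p14_10_2 (nat_lit 4) (nat_lit 21) (nat_lit 22) = true := by decide +kernel
def p14_10_2_22 : pfC (piC [(nat_lit 41997052), (nat_lit 26592602), (nat_lit 19805017), (nat_lit 13318063)] (nat_lit 6831970)) p14_10_2 (nat_lit 4) (nat_lit 22) (nat_lit 23) = true := by decide +kernel
def p14_10_2_23 : pfC (piC [(nat_lit 41997052), (nat_lit 26592602), (nat_lit 19805017), (nat_lit 13318063)] (nat_lit 6831970)) p14_10_2 (nat_lit 4) (nat_lit 23) (nat_lit 24) = true := by decide +kernel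
def p14_10_2_24 : pfC (piC [(nat_lit 41997052), (nat_lit 26592602), (nat_lit 19805017), (nat_lit 13318063)] (nat_lit 6831970)) p14_10_2 (nat_lit 4) (nat_lit 24) (nat_lit 25) = true := by decide +kernel
def p14_10_2_25 : pfC (piC [(nat_lit 41997052), (nat_lit 26592602), (nat_lit 19805017), (nat_lit 13318063)] (nat_lit 6831970)) p14_10_2 (nat_lit 4) (nat_lit 25) (nat_lit 26) = true := by decide +kernel
def p14_10_2_26 : pfC (piC [(nat_lit 41997052), (nat_lit 26592602), (nat_lit 19805017), (nat_lit 13318063)] (nat_lit 6831970)) p14_10_2 (nat_lit 4) (nat_lit 26) (nat_lit 27) = true := by decide +kernel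
def p14_10_2_27 : pfC (piC [(nat_lit 41997052), (nat_lit 26592602), (nat_lit 19805017), (nat_lit 13318063)] (nat_lit 6831970)) p14_10_2 (nat_lit 4) (nat_lit 27) (nat_lit 28) = true := by decide +kernel
def p14_10_2_28 : pfC (piC [(nat_lit 41997052), (nat_lit 26592602), (nat_lit 19805017), (nat_lit 13318063)] (nat_lit 6831970)) p14_10_2 (nat_lit 4) (nat_lit 28) (nat_lit 29) = true := by decide +kernel
def p14_10_2_29 : pfC (piC [(nat_lit 41997052), (nat_lit 26592602), (nat_lit 19805017), (nat_lit 13318063)] (nat_lit 6831970)) p14_10_2 (nat_lit 4) (nat_lit 29) (nat_lit 30) = true := by decide +kernel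
def p14_10_2_30 : pfC (piC [(nat_lit 41997052), (nat_lit 26592602), (nat_lit 19805017), (nat_lit 13318063)] (nat_lit 6831970)) p14_10_2 (nat_lit 4) (nat_lit 30) (nat_lit 31) = true := by decide +kernel
def p14_10_2_31 : pfC (piC [(nat_lit 41997052), (nat_lit 26592602), (nat_lit 19805017), (nat_lit 13318063)] (nat_lit 6831970)) p14_10_2 (nat_lit 4) (nat_lit 31) (nat_lit 32) = true := by decide +kernel
def p14_10_2_32 : pfC (piC [(nat_lit 41997052), (nat_lit 26592602), (nat_lit 19805017), (nat_lit 13318063)] (nat_lit 6831970)) p14_10_2 (nat_lit 4) (nat_lit 32) (nat_lit 33) = true := by decide +kernel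
def p14_10_2_33 : pfC (piC [(nat_lit 41997052), (nat_lit 26592602), (nat_lit 19805017), (nat_lit 13318063)] (nat_lit 6831970)) p14_10_2 (nat_lit 4) (nat_lit 33) (nat_lit 34) = true := by decide +kernel
def p14_10_2_34 : pfC (piC [(nat_lit 41997052), (nat_lit 26592602), (nat_lit 19805017), (nat_lit 13318063)] (nat_lit 6831970)) p14_10_2 (nat_lit 4) (nat_lit 34) (nat_lit 35) = true := by decide +kernel
def p14_10_2_35 : pfC (piC [(nat_lit 41997052), (nat_lit 26592602), (nat_lit 19805017), (nat_lit 13318063)] (nat_lit 6831970)) p14_10_2 (nat_lit 4) (nat_lit 35) (nat_lit 36) = true := by decide +kernel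
def p14_10_2_36 : pfC (piC [(nat_lit 41997052), (nat_lit 26592602), (nat_lit 19805017), (nat_lit 13318063)] (nat_lit 6831970)) p14_10_2 (nat_lit 4) (nat_lit 36) (nat_lit 37) = true := by decide +kernel
def p14_10_2_37 : pfC (piC [(nat_lit 41997052), (nat_lit 26592602), (nat_lit 19805017), (nat_lit 13318063)] (nat_lit 6831970)) p14_10_2 (nat_lit 4) (nat_lit 37) (nat_lit 38) = true := by decide +kernel
def p14_10_2_38 : pfC (piC [(nat_lit 41997052), (nat_lit 26592602), (nat_lit 19805017), (nat_lit 13318063)] (nat_lit 6831970)) p14_10_2 (nat_lit 4) (nat_lit 38) (nat_lit 39) = true := by decide +kernel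
def p14_10_2_39 : pfC (piC [(nat_lit 41997052), (nat_lit 26592602), (nat_lit 19805017), (nat_lit 13318063)] (nat_lit 6831970)) p14_10_2 (nat_lit 4) (nat_lit 39) (nat_lit 40) = true := by decide +kernel
def p14_10_2_40 : pfC (piC [(nat_lit 41997052), (nat_lit 26592602), (nat_lit 19805017), (nat_lit 13318063)] (nat_lit 6831970)) p14_10_2 (nat_lit 4) (nat_lit 40) (nat_lit 41) = true := by decide +kernel
def p14_10_2_41 : pfC (piC [(nat_lit 41997052), (nat_lit 26592602), (nat_lit 19805017), (nat_lit 13318063)] (nat_lit 6831970)) p14_10_2 (nat_lit 4) (nat_lit 41) (nat_lit 42) = true := by decide +kernel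
def p14_10_2_42 : pfC (piC [(nat_lit 41997052), (nat_lit 26592602), (nat_lit 19805017), (nat_lit 13318063)] (nat_lit 6831970)) p14_10_2 (nat_lit 4) (nat_lit 42) (nat_lit 43) = true := by decide +kernel
def p14_10_2_43 : pfC (piC [(nat_lit 41997052), (nat_lit 26592602), (nat_lit 19805017), (nat_lit 13318063)] (nat_lit 6831970)) p14_10_2 (nat_lit 4) (nat_lit 43) (nat_lit 44) = true := by decide +kernel
def p14_10_2_44 : pfC (piC [(nat_lit 41997052), (nat_lit 26592602), (nat_lit 19805017), (nat_lit 13318063)] (nat_lit 6831970)) p14_10_2 (nat_lit 4) (nat_lit 44) (nat_lit 45) = true := by decide +kernel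
def p14_10_2_45 : pfC (piC [(nat_lit 41997052), (nat_lit 26592602), (nat_lit 19805017), (nat_lit 13318063)] (nat_lit 6831970)) p14_10_2 (nat_lit 4) (nat_lit 45) (nat_lit 46) = true := by decide +kernel
def p14_10_2_46 : pfC (piC [(nat_lit 41997052), (nat_lit 26592602), (nat_lit 19805017), (nat_lit 13318063)] (nat_lit 6831970)) p14_10_2 (nat_lit 4) (nat_lit 46) (nat_lit 47) = true := by decide +kernel
def p14_10_2_47 : pfC (piC [(nat_lit 41997052), (nat_lit 26592602), (nat_lit 19805017), (nat_lit 13318063)] (nat_lit 6831970)) p14_10_2 (nat_lit 4) (nat_lit 47) (nat_lit 48) = true := by decide +kernel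
def p14_10_2_48 : pfC (piC [(nat_lit 41997052), (nat_lit 26592602), (nat_lit 19805017), (nat_lit 13318063)] (nat_lit 6831970)) p14_10_2 (nat_lit 4) (nat_lit 48) (nat_lit 49) = true := by decide +kernel
def p14_10_2_49 : pfC (piC [(nat_lit 41997052), (nat_lit 26592602), (nat_lit 19805017), (nat_lit 13318063)] (nat_lit 6831970)) p14_10_2 (nat_lit 4) (nat_lit 49) (nat_lit 50) = true := by decide +kernel
def p14_10_2_50 : pfC (piC [(nat_lit 41997052), (nat_lit 26592602), (nat_lit 19805017), (nat_lit 13318063)] (nat_lit 6831970)) p14_10_2 (nat_lit 4) (nat_lit 50) (nat_lit 51) = true := by decide +kernel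
def p14_10_2_51 : pfC (piC [(nat_lit 41997052), (nat_lit 26592602), (nat_lit 19805017), (nat_lit 13318063)] (nat_lit 6831970)) p14_10_2 (nat_lit 4) (nat_lit 51) (nat_lit 52) = true := by decide +kernel
def p14_10_2_52 : pfC (piC [(nat_lit 41997052), (nat_lit 26592602), (nat_lit 19805017), (nat_lit 13318063)] (nat_lit 6831970)) p14_10_2 (nat_lit 4) (nat_lit 52) (nat_lit 53) = true := by decide +kernel
def p14_10_2_53 : pfC (piC [(nat_lit 41997052), (nat_lit 26592602), (nat_lit 19805017), (nat_lit 13318063)] (nat_lit 6831970)) p14_10_2 (nat_lit 4) (nat_lit 53) (nat_lit 54) = true := by decide +kernel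
def p14_10_2_54 : pfC (piC [(nat_lit 41997052), (nat_lit 26592602), (nat_lit 19805017), (nat_lit 13318063)] (nat_lit 6831970)) p14_10_2 (nat_lit 4) (nat_lit 54) (nat_lit 55) = true := by decide +kernel
def p14_10_2_55 : pfC (piC [(nat_lit 41997052), (nat_lit 26592602), (nat_lit 19805017), (nat_lit 13318063)] (nat_lit 6831970)) p14_10_2 (nat_lit 4) (nat_lit 55) (nat_lit 56) = true := by decide +kernel
def p14_10_2_56 : pfC (piC [(nat_lit 41997052), (nat_lit 26592602), (nat_lit 19805017), (nat_lit 13318063)] (nat_lit 6831970)) p14_10_2 (nat_lit 4) (nat_lit 56) (nat_lit 57) = true := by decide +kernel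
def p14_10_2_57 : pfC (piC [(nat_lit 41997052), (nat_lit 26592602), (nat_lit 19805017), (nat_lit 13318063)] (nat_lit 6831970)) p14_10_2 (nat_lit 4) (nat_lit 57) (nat_lit 58) = true := by decide +kernel
def p14_10_2_58 : pfC (piC [(nat_lit 41997052), (nat_lit 26592602), (nat_lit 19805017), (nat_lit 13318063)] (nat_lit 6831970)) p14_10_2 (nat_lit 4) (nat_lit 58) (nat_lit 59) = true := by decide +kernel
def p14_10_2_59 : pfC (piC [(nat_lit 41997052), (nat_lit 26592602), (nat_lit 19805017), (nat_lit 13318063)] (nat_lit 6831970)) p14_10_2 (nat_lit 4) (nat_lit 59) (nat_lit 60) = true := by decide +kernel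
def p14_10_2_60 : pfC (piC [(nat_lit 41997052), (nat_lit 26592602), (nat_lit 19805017), (nat_lit 13318063)] (nat_lit 6831970)) p14_10_2 (nat_lit 4) (nat_lit 60) (nat_lit 61) = true := by decide +kernel
def p14_10_2_61 : pfC (piC [(nat_lit 41997052), (nat_lit 26592602), (nat_lit 19805017), (nat_lit 13318063)] (nat_lit 6831970)) p14_10_2 (nat_lit 4) (nat_lit 61) (nat_lit 62) = true := by decide +kernel
def p14_10_2_62 : pfC (piC [(nat_lit 41997052), (nat_lit 26592602), (nat_lit 19805017), (nat_lit 13318063)] (nat_lit 6831970)) p14_10_2 (nat_lit 4) (nat_lit 62) (nat_lit 63) = true := by decide +kernel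
def p14_10_2_63 : pfC (piC [(nat_lit 41997052), (nat_lit 26592602), (nat_lit 19805017), (nat_lit 13318063)] (nat_lit 6831970)) p14_10_2 (nat_lit 4) (nat_lit 63) (nat_lit 64) = true := by decide +kernel
def p14_10_2_64 : pfC (piC [(nat_lit 41997052), (nat_lit 26592602), (nat_lit 19805017), (nat_lit 13318063)] (nat_lit 6831970)) p14_10_2 (nat_lit 4) (nat_lit 64) (nat_lit 65) = true := by decide +kernel
def p14_10_2_65 : pfC (piC [(nat_lit 41997052), (nat_lit 26592602), (nat_lit 19805017), (nat_lit 13318063)] (nat_lit 6831970)) p14_10_2 (nat_lit 4) (nat_lit 65) (nat_lit 66) = true := by decide +kernel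
def p14_10_2_66 : pfC (piC [(nat_lit 41997052), (nat_lit 26592602), (nat_lit 19805017), (nat_lit 13318063)] (nat_lit 6831970)) p14_10_2 (nat_lit 4) (nat_lit 66) (nat_lit 67) = true := by decide +kernel
def p14_10_2_67 : pfC (piC [(nat_lit 41997052), (nat_lit 26592602), (nat_lit 19805017), (nat_lit 13318063)] (nat_lit 6831970)) p14_10_2 (nat_lit 4) (nat_lit 67) (nat_lit 68) = true := by decide +kernel
def p14_10_2_68 : pfC (piC [(nat_lit 41997052), (nat_lit 26592602), (nat_lit 19805017), (nat_lit 13318063)] (nat_lit 6831970)) p14_10_2 (nat_lit 4) (nat_lit 68) (nat_lit 69) = true := by decide +kernel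
def p14_10_2_69 : pfC (piC [(nat_lit 41997052), (nat_lit 26592602), (nat_lit 19805017), (nat_lit 13318063)] (nat_lit 6831970)) p14_10_2 (nat_lit 4) (nat_lit 69) (nat_lit 70) = true := by decide +kernel
def p14_10_2_70 : pfC (piC [(nat_lit 41997052), (nat_lit 26592602), (nat_lit 19805017), (nat_lit 13318063)] (nat_lit 6831970)) p14_10_2 (nat_lit 4) (nat_lit 70) (nat_lit 71) = true := by decide +kernel
def p14_10_2_71 : pfC (piC [(nat_lit 41997052), (nat_lit 26592602), (nat_lit 19805017), (nat_lit 13318063)] (nat_lit 6831970)) p14_10_2 (nat_lit 4) (nat_lit 71) (nat_lit 72) = true := by decide +kernel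
def p14_10_2_72 : pfC (piC [(nat_lit 41997052), (nat_lit 26592602), (nat_lit 19805017), (nat_lit 13318063)] (nat_lit 6831970)) p14_10_2 (nat_lit 4) (nat_lit 72) (nat_lit 73) = true := by decide +kernel
def p14_10_2_73 : pfC (piC [(nat_lit 41997052), (nat_lit 26592602), (nat_lit 19805017), (nat_lit 13318063)] (nat_lit 6831970)) p14_10_2 (nat_lit 4) (nat_lit 73) (nat_lit 74) = true := by decide +kernel
def p14_10_2_74 : pfC (piC [(nat_lit 41997052), (nat_lit 26592602), (nat_lit 19805017), (nat_lit 13318063)] (nat_lit 6831970)) p14_10_2 (nat_lit 4) (nat_lit 74) (nat_lit 75) = true := by decide +kernel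
def p14_10_2_75 : pfC (piC [(nat_lit 41997052), (nat_lit 26592602), (nat_lit 19805017), (nat_lit 13318063)] (nat_lit 6831970)) p14_10_2 (nat_lit 4) (nat_lit 75) (nat_lit 76) = true := by decide +kernel
def p14_10_2_76 : pfC (piC [(nat_lit 41997052), (nat_lit 26592602), (nat_lit 19805017), (nat_lit 13318063)] (nat_lit 6831970)) p14_10_2 (nat_lit 4) (nat_lit 76) (nat_lit 77) = true := by decide +kernel
def p14_10_2_77 : pfC (piC [(nat_lit 41997052), (nat_lit 26592602), (nat_lit 19805017), (nat_lit 13318063)] (nat_lit 6831970)) p14_10_2 (nat_lit 4) (nat_lit 77) (nat_lit 78) = true := by decide +kernel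
def p14_10_2_78 : pfC (piC [(nat_lit 41997052), (nat_lit 26592602), (nat_lit 19805017), (nat_lit 13318063)] (nat_lit 6831970)) p14_10_2 (nat_lit 4) (nat_lit 78) (nat_lit 79) = true := by decide +kernel
def p14_10_2_79 : pfC (piC [(nat_lit 41997052), (nat_lit 26592602), (nat_lit 19805017), (nat_lit 13318063)] (nat_lit 6831970)) p14_10_2 (nat_lit 4) (nat_lit 79) (nat_lit 80) = true := by decide +kernel
def p14_10_2_80 : pfC (piC [(nat_lit 41997052), (nat_lit 26592602), (nat_lit 19805017), (nat_lit 13318063)] (nat_lit 6831970)) p14_10_2 (nat_lit 4) (nat_lit 80) (nat_lit 81) = true := by decide +kernel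
def p14_10_2_81 : pfC (piC [(nat_lit 41997052), (nat_lit 26592602), (nat_lit 19805017), (nat_lit 13318063)] (nat_lit 6831970)) p14_10_2 (nat_lit 4) (nat_lit 81) (nat_lit 82) = true := by decide +kernel
def p14_10_2_82 : pfC (piC [(nat_lit 41997052), (nat_lit 26592602), (nat_lit 19805017), (nat_lit 13318063)] (nat_lit 6831970)) p14_10_2 (nat_lit 4) (nat_lit 82) (nat_lit 83) = true := by decide +kernel
def p14_10_2_83 : pfC (piC [(nat_lit 41997052), (nat_lit 26592602), (nat_lit 19805017), (nat_lit 13318063)] (nat_lit 6831970)) p14_10_2 (nat_lit 4) (nat_lit 83) (nat_lit 84) = true := by decide +kernel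
def p14_10_2_84 : pfC (piC [(nat_lit 41997052), (nat_lit 26592602), (nat_lit 19805017), (nat_lit 13318063)] (nat_lit 6831970)) p14_10_2 (nat_lit 4) (nat_lit 84) (nat_lit 85) = true := by decide +kernel
def p14_10_2_85 : pfC (piC [(nat_lit 41997052), (nat_lit 26592602), (nat_lit 19805017), (nat_lit 13318063)] (nat_lit 6831970)) p14_10_2 (nat_lit 4) (nat_lit 85) (nat_lit 86) = true := by decide +kernel
def p14_10_2_86 : pfC (piC [(nat_lit 41997052), (nat_lit 26592602), (nat_lit 19805017), (nat_lit 13318063)] (nat_lit 6831970)) p14_10_2 (nat_lit 4) (nat_lit 86) (nat_lit 87) = true := by decide +kernel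
def p14_10_2_87 : pfC (piC [(nat_lit 41997052), (nat_lit 26592602), (nat_lit 19805017), (nat_lit 13318063)] (nat_lit 6831970)) p14_10_2 (nat_lit 4) (nat_lit 87) (nat_lit 88) = true := by decide +kernel
def p14_10_2_88 : pfC (piC [(nat_lit 41997052), (nat_lit 26592602), (nat_lit 19805017), (nat_lit 13318063)] (nat_lit 6831970)) p14_10_2 (nat_lit 4) (nat_lit 88) (nat_lit 89) = true := by decide +kernel
def p14_10_2_89 : pfC (piC [(nat_lit 41997052), (nat_lit 26592602), (nat_lit 19805017), (nat_lit 13318063)] (nat_lit 6831970)) p14_10_2 (nat_lit 4) (nat_lit 89) (nat_lit 90) = true := by decide +kernel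
def p14_10_2_90 : pfC (piC [(nat_lit 41997052), (nat_lit 26592602), (nat_lit 19805017), (nat_lit 13318063)] (nat_lit 6831970)) p14_10_2 (nat_lit 4) (nat_lit 90) (nat_lit 91) = true := by decide +kernel
def p14_10_2_91 : pfC (piC [(nat_lit 41997052), (nat_lit 26592602), (nat_lit 19805017), (nat_lit 13318063)] (nat_lit 6831970)) p14_10_2 (nat_lit 4) (nat_lit 91) (nat_lit 92) = true := by decide +kernel
def p14_10_2_92 : pfC (piC [(nat_lit 41997052), (nat_lit 26592602), (nat_lit 19805017), (nat_lit 13318063)] (nat_lit 6831970)) p14_10_2 (nat_lit 4) (nat_lit 92) (nat_lit 93) = true := by decide +kernel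
def p14_10_2_93 : pfC (piC [(nat_lit 41997052), (nat_lit 26592602), (nat_lit 19805017), (nat_lit 13318063)] (nat_lit 6831970)) p14_10_2 (nat_lit 4) (nat_lit 93) (nat_lit 94) = true := by decide +kernel
def p14_10_2_94 : pfC (piC [(nat_lit 41997052), (nat_lit 26592602), (nat_lit 19805017), (nat_lit 13318063)] (nat_lit 6831970)) p14_10_2 (nat_lit 4) (nat_lit 94) (nat_lit 95) = true := by decide +kernel
theorem p14_10_2_T : PfS (PiF n14_10.reverse (nat_lit 6831970)) p14_10_2 (nat_lit 4) [] 0 :=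
  pftab_of (los := [(nat_lit 41997052), (nat_lit 26592602), (nat_lit 19805017), (nat_lit 13318063)]) (by decide +kernel) (hi := (nat_lit 95)) (PfP.trans (PfP.trans (PfP.trans (PfP.trans (PfP.trans (PfP.trans (PfP.trans (PfP.trans (PfP.trans (PfP.trans (PfP.trans (PfP.trans (PfP.trans (PfP.trans (PfP.trans (PfP.trans (PfP.trans (PfP.trans (PfP.trans (PfP.trans (PfP.trans (PfP.trans (PfP.trans (PfP.trans (PfP.trans (PfP.trans (PfP.trans (PfP.trans (PfP.trans (PfP.trans (PfP.trans (PfP.trans (PfP.trans (PfP.trans (PfP.trans (PfP.trans (PfP.trans (PfP.trans (PfP.trans (PfP.trans (PfP.trans (PfP.trans (PfP.trans (PfP.trans (PfP.trans (PfP.trans (PfP.trans (PfP.trans (PfP.trans (PfP.trans (PfP.trans (PfP.trans (PfP.trans (PfP.trans (PfP.trans (PfP.trans (PfP.trans (PfP.trans (PfP.trans (PfP.trans (PfP.trans (PfP.trans (PfP.trans (PfP.trans (PfP.trans (PfP.trans (PfP.trans (PfP.trans (PfP.trans (PfP.trans (PfP.trans (PfP.trans (PfP.trans (PfP.trans (PfP.trans (PfP.trans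 (PfP.trans (PfP.trans (PfP.trans (PfP.trans (PfP.trans (PfP.trans (PfP.trans (PfP.trans (PfP.trans (PfP.trans (PfP.trans (PfP.trans (PfP.trans (PfP.trans (PfP.trans (PfP.trans (PfP.trans (PfP.trans (pfC_sound p14_10_2_0) (pfC_sound p14_10_2_1)) (pfC_sound p14_10_2_2)) (pfC_sound p14_10_2_3)) (pfC_sound p14_10_2_4)) (pfC_sound p14_10_2_5)) (pfC_sound
 p14_10_2_6)) (pfC_sound p14_10_2_7)) (pfC_sound p14_10_2_8)) (pfC_sound p14_10_2_9)) (pfC_sound p14_10_2_10)) (pfC_sound p14_10_2_11)) (pfC_sound p14_10_2_12)) (pfC_sound p14_10_2_13)) (pfC_sound p14_10_2_14)) (pfC_sound p14_10_2_15)) (pfC_sound p14_10_2_16)) (pfC_sound p14_10_2_17)) (pfC_sound p14_10_2_18)) (pfC_sound p14_10_2_19)) (pfC_sound p14_10_2_20)) (pfC_sound p14_10_2_21)) (pfC_sound p14_10_2_22)) (pfC_sound p14_10_2_23)) (pfC_sound p14_10_2_24)) (pfC_sound p14_10_2_25)) (pfC_sound p14_10_2_26)) (pfC_sound p14_10_2_27)) (pfC_sound p14_10_2_28)) (pfC_sound p14_10_2_29)) (pfC_sound p14_10_2_30)) (pfC_sound p14_10_2_31))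 (pfC_sound p14_10_2_32)) (pfC_sound p14_10_2_33)) (pfC_sound p14_10_2_34)) (pfC_sound p14_10_2_35)) (pfC_sound p14_10_2_36)) (pfC_sound p14_10_2_37)) (pfC_sound p14_10_2_38)) (pfC_sound p14_10_2_39)) (pfC_sound p14_10_2_40)) (pfC_sound p14_10_2_41)) (pfC_sound p14_10_2_42)) (pfC_sound p14_10_2_43)) (pfC_sound p14_10_2_44)) (pfC_sound p14_10_2_45)) (pfC_sound p14_10_2_46)) (pfC_sound p14_10_2_47)) (pfC_sound p14_10_2_48)) (pfC_sound p14_10_2_49)) (pfC_sound p14_10_2_50)) (pfC_sound p14_10_2_51)) (pfC_sound p14_10_2_52)) (pfC_sound p14_10_2_53)) (pfC_sound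
 p14_10_2_54)) (pfC_sound p14_10_2_55)) (pfC_sound p14_10_2_56)) (pfC_sound p14_10_2_57)) (pfC_sound p14_10_2_58)) (pfC_sound p14_10_2_59)) (pfC_sound p14_10_2_60)) (pfC_sound p14_10_2_61)) (pfC_sound p14_10_2_62)) (pfC_sound p14_10_2_63)) (pfC_sound p14_10_2_64)) (pfC_sound p14_10_2_65)) (pfC_sound p14_10_2_66)) (pfC_sound p14_10_2_67)) (pfC_sound p14_10_2_68)) (pfC_sound p14_10_2_69)) (pfC_sound p14_10_2_70)) (pfC_sound p14_10_2_71)) (pfC_sound p14_10_2_72)) (pfC_sound p14_10_2_73)) (pfC_sound p14_10_2_74)) (pfC_sound p14_10_2_75)) (pfC_sound p14_10_2_76)) (pfC_sound p14_10_2_77)) (pfC_sound p14_10_2_78)) (pfC_sound p14_10_2_79)) (pfC_sound p14_10_2_80)) (pfC_sound p14_10_2_81)) (pfC_sound p14_10_2_82)) (pfC_sound p14_10_2_83)) (pfC_sound p14_10_2_84)) (pfC_sound p14_10_2_85)) (pfC_sound p14_10_2_86)) (pfC_sound p14_10_2_87)) (pfC_sound p14_10_2_88)) (pfC_sound p14_10_2_89)) (pfC_sound p14_10_2_90)) (pfC_sound p14_10_2_91)) (pfC_sound p14_10_2_92)) (pfC_sound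 p14_10_2_93)) (pfC_sound p14_10_2_94)) (by decide +kernel)

def z14_10_2 : zOK yB14_10 (nat_lit 2) (nat_lit 600) (nat_lit 750) (nat_lit 6831970) (nat_lit 4926585) = true := by decide +kernel
def g14_10_2 : gOK yB14_10.x P14_10 (nat_lit 1430) (q14_10 :: r14_10) (nat_lit 2) (nat_lit 600) (nat_lit 3) (nat_lit 750) (nat_lit 12712500) (nat_lit 12712500) (nat_lit 12712500) (nat_lit 12712500) [(nat_lit 800), (nat_lit 1600)] = true := by decide +kernel
def v14_10_2 : ivC P14_10 s14_10 w14_10 n14_10 (nat_lit 4) (nat_lit 4860) (nat_lit 2) (nat_lit 600) f144_1_600 f152_1_600 (nat_lit 3) (nat_lit 750) f144_1_750 f152_1_750 (nat_lit 6831970) (nat_lit 4926585) p14_10_2 = true := by decide +kernel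
def p14_10_3 : PF := (PF.cons (PF.cons (PF.cons (PF.cons (PF.leaf (nat_lit 3062589) (nat_lit 20264351) (nat_lit 46844461) (nat_lit 20264351) [(nat_lit 0), (nat_lit 0), (nat_lit 0), (nat_lit 0)]) (PF.cons (PF.leaf (nat_lit 3181628) (nat_lit 202396) (nat_lit 46676712) (nat_lit 20229703) [(nat_lit 202396), (nat_lit 0), (nat_lit 0), (nat_lit 0)]) (PF.cons (PF.leaf (nat_lit 3324498) (nat_lit 219992) (nat_lit 46480211) (nat_lit 20188615) [(nat_lit 219992), (nat_lit 0), (nat_lit 0), (nat_lit 0)]) (PF.cons (PF.leaf (nat_lit 3484884) (nat_lit 235591) (nat_lit 46260080) (nat_lit 20141956) [(nat_lit 235591), (nat_lit 0), (nat_lit 0), (nat_lit 0)]) (PF.cons (PF.leaf (nat_lit 3660324) (nat_lit 249648) (nat_lit 46019914) (nat_lit 20090304) [(nat_lit 249648), (nat_lit 0), (nat_lit 0), (nat_lit 0)]) (PF.cons (PF.leaf (nat_lit 3848925) (nat_lit 262454) (nat_lit 45762460) (nat_lit 20034080) [(nat_lit 262454), (nat_lit 0), (nat_lit 0), (nat_lit 0)]) (PF.cons (PF.leaf (nat_lit 4049174)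 (nat_lit 274210) (nat_lit 45489934) (nat_lit 19973617) [(nat_lit 274210), (nat_lit 0), (nat_lit 0), (nat_lit 0)]) (PF.cons (PF.leaf (nat_lit 4259849) (nat_lit 285062) (nat_lit 45204189) (nat_lit 19909187) [(nat_lit 285062), (nat_lit 0),
 (nat_lit 0), (nat_lit 0)]) (PF.cons (PF.leaf (nat_lit 4479956) (nat_lit 295120) (nat_lit 44906819) (nat_lit 19841027) [(nat_lit 295120), (nat_lit 0), (nat_lit 0), (nat_lit 0)]) (PF.cons PF.nil PF.nil)))))))))) (PF.cons (PF.cons (PF.leaf (nat_lit 3525141) (nat_lit 1065385) (nat_lit 45966920) (nat_lit 20076507) [(nat_lit 0), (nat_lit 1065385), (nat_lit 0), (nat_lit 0)]) (PF.cons (PF.leaf (nat_lit 3681656) (nat_lit 246005) (nat_lit 45745962) (nat_lit 20028106) [(nat_lit 246005), (nat_lit 1088738), (nat_lit 0), (nat_lit 0)]) (PF.cons (PF.leaf (nat_lit 3855759) (nat_lit 259414) (nat_lit 45503873) (nat_lit 19974347) [(nat_lit 259414), (nat_lit 1111763), (nat_lit 0), (nat_lit 0)]) (PF.cons (PF.leaf (nat_lit 4043593) (nat_lit 271574) (nat_lit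 45244166) (nat_lit 19915836) [(nat_lit 271574), (nat_lit 1134086), (nat_lit 0), (nat_lit 0)]) (PF.cons (PF.leaf (nat_lit 4243243) (nat_lit 282710) (nat_lit 44969448) (nat_lit 19853009) [(nat_lit 282710), (nat_lit 1155512), (nat_lit 0), (nat_lit 0)]) (PF.cons (PF.leaf (nat_lit 4453369) (nat_lit 292975) (nat_lit 44681785) (nat_lit 19786203) [(nat_lit 292975), (nat_lit 1175944), (nat_lit 0), (nat_lit 0)]) (PF.cons (PF.leaf (nat_lit 4672819) (nat_lit
 302482) (nat_lit 44382879) (nat_lit 19715696) [(nat_lit 302482), (nat_lit 1195342), (nat_lit 0), (nat_lit 0)]) (PF.cons PF.nil (PF.cons PF.nil PF.nil))))))))) (PF.cons (PF.cons (PF.leaf (nat_lit 4055284) (nat_lit 1141492) (nat_lit 44974131) (nat_lit 19851696) [(nat_lit 0), (nat_lit 1141492), (nat_lit 0), (nat_lit 0)]) (PF.cons (PF.leaf (nat_lit 4239616) (nat_lit 279387) (nat_lit 44715360) (nat_lit 19791628) [(nat_lit 279387), (nat_lit 1161218), (nat_lit 0), (nat_lit 0)]) (PF.cons (PF.leaf (nat_lit 4437620) (nat_lit 290087)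 (nat_lit 44440939) (nat_lit 19727020) [(nat_lit 290087), (nat_lit 1180339), (nat_lit 0), (nat_lit 0)]) (PF.cons (PF.leaf (nat_lit 4646406) (nat_lit 299906) (nat_lit 44153375) (nat_lit 19658328) [(nat_lit 299906), (nat_lit 1198695), (nat_lit 0), (nat_lit 0)]) (PF.cons (PF.leaf (nat_lit 4864640) (nat_lit 308971) (nat_lit 43854620) (nat_lit 19585899) [(nat_lit 308971), (nat_lit 1216203), (nat_lit 0), (nat_lit 0)]) (PF.cons (PF.leaf (nat_lit 5091233) (nat_lit 317375) (nat_lit 43546266) (nat_lit 19510018) [(nat_lit 317375), (nat_lit 1232824), (nat_lit 0), (nat_lit 0)]) (PF.cons PF.nil PF.nil))))))) (PF.cons (PF.cons (PF.leaf (nat_lit 4634102) (nat_lit 1202632)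
 (nat_lit 43905139) (nat_lit 19595777) [(nat_lit 0), (nat_lit 1202632), (nat_lit 0), (nat_lit 0)]) (PF.cons (PF.leaf (nat_lit 4839554) (nat_lit 305930) (nat_lit 43619791) (nat_lit 19525749) [(nat_lit 305930), (nat_lit 1219114), (nat_lit 0), (nat_lit 0)]) (PF.cons (PF.leaf (nat_lit 5055821) (nat_lit 314657) (nat_lit 43322889) (nat_lit 19451860) [(nat_lit 314657), (nat_lit 1234916), (nat_lit 0), (nat_lit 0)]) (PF.cons (PF.leaf (nat_lit 5280636) (nat_lit 322715) (nat_lit 43016290) (nat_lit 19374470) [(nat_lit 322715), (nat_lit 1249968), (nat_lit 0), (nat_lit 0)]) (PF.cons PF.nil PF.nil))))) (PF.cons (PF.cons (PF.leaf (nat_lit 5247772) (nat_lit 1251720) (nat_lit 42788199) (nat_lit 19313731) [(nat_lit 0), (nat_lit 1251720), (nat_lit 0), (nat_lit 0)]) (PF.cons (PF.leaf (nat_lit 5469218) (nat_lit 327376) (nat_lit 42484825) (nat_lit 19235272) [(nat_lit 327376), (nat_lit 1265334), (nat_lit 0), (nat_lit 0)]) (PF.cons (PF.leaf (nat_lit 5699299) (nat_lit 334565) (nat_lit 42173044)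 (nat_lit 19153546) [(nat_lit 334565), (nat_lit 1278272), (nat_lit 0), (nat_lit 0)]) (PF.cons PF.nil PF.nil)))) (PF.cons (PF.cons (PF.leaf (nat_lit 5885567) (nat_lit 1290804) (nat_lit 41644679) (nat_lit 19010112)
 [(nat_lit 0), (nat_lit 1290804), (nat_lit 0), (nat_lit 0)]) (PF.cons PF.nil PF.nil)) (PF.cons PF.nil (PF.cons PF.nil PF.nil)))))))) (PF.cons (PF.cons (PF.cons (PF.leaf (nat_lit 4020759) (nat_lit 2858647) (nat_lit 44517650) (nat_lit 19732515) [(nat_lit 0), (nat_lit 0), (nat_lit 2858647), (nat_lit 0)]) (PF.cons (PF.leaf (nat_lit 4185094) (nat_lit 263997) (nat_lit 44288664) (nat_lit 19678207) [(nat_lit 263997), (nat_lit 0), (nat_lit 2877943), (nat_lit 0)]) (PF.cons (PF.leaf (nat_lit 4366294) (nat_lit 276660) (nat_lit 44039591) (nat_lit 19618407) [(nat_lit 276660), (nat_lit 0), (nat_lit 2897492), (nat_lit 0)]) (PF.cons (PF.leaf (nat_lit 4560475) (nat_lit 287985) (nat_lit 43774163) (nat_lit 19553857) [(nat_lit 287985), (nat_lit 0), (nat_lit 2916834), (nat_lit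 0)]) (PF.cons (PF.leaf (nat_lit 4765663) (nat_lit 298241) (nat_lit 43495097) (nat_lit 19485083) [(nat_lit 298241), (nat_lit 0), (nat_lit 2935666), (nat_lit 0)]) (PF.cons (PF.leaf (nat_lit 4980486) (nat_lit 307609) (nat_lit 43204493) (nat_lit 19412488) [(nat_lit 307609), (nat_lit 0), (nat_lit 2953781), (nat_lit 0)]) (PF.cons (PF.leaf (nat_lit 5203789) (nat_lit 316220) (nat_lit 42904057) (nat_lit 19336396) [(nat_lit 316220),
 (nat_lit 0), (nat_lit 2971037), (nat_lit 0)]) (PF.cons PF.nil (PF.cons PF.nil PF.nil))))))))) (PF.cons (PF.cons (PF.leaf (nat_lit 4563526) (nat_lit 1188358) (nat_lit 43508244) (nat_lit 19485974) [(nat_lit 0), (nat_lit 1188358), (nat_lit 2926235), (nat_lit 0)]) (PF.cons (PF.leaf (nat_lit 4753267) (nat_lit 294052) (nat_lit 43246079) (nat_lit 19420548) [(nat_lit 294052), (nat_lit 1205057), (nat_lit 2943075), (nat_lit 0)]) (PF.cons (PF.leaf (nat_lit 4955978) (nat_lit 303996) (nat_lit 42969455) (nat_lit 19350643) [(nat_lit 303996), (nat_lit 1221165),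 (nat_lit 2959556), (nat_lit 0)]) (PF.cons (PF.leaf (nat_lit 5168676) (nat_lit 313028) (nat_lit 42680931) (nat_lit 19276787) [(nat_lit 313028), (nat_lit 1236560), (nat_lit 2975446), (nat_lit 0)]) (PF.cons (PF.leaf (nat_lit 5390070) (nat_lit 321296) (nat_lit 42382467) (nat_lit 19199383) [(nat_lit 321296), (nat_lit 1251183), (nat_lit 2990590), (nat_lit 0)]) (PF.cons PF.nil (PF.cons PF.nil PF.nil))))))) (PF.cons (PF.cons (PF.leaf (nat_lit 5148130) (nat_lit 1238559) (nat_lit 42439437) (nat_lit 19211854) [(nat_lit 0), (nat_lit 1238559), (nat_lit 2980402), (nat_lit 0)]) (PF.cons (PF.leaf (nat_lit 5356834) (nat_lit 317684) (nat_lit 42154809)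
 (nat_lit 19137269) [(nat_lit 317684), (nat_lit 1252412), (nat_lit 2994223), (nat_lit 0)]) (PF.cons (PF.leaf (nat_lit 5575633) (nat_lit 325699) (nat_lit 41859752) (nat_lit 19058989) [(nat_lit 325699), (nat_lit 1265630), (nat_lit 3007411), (nat_lit 0)]) (PF.cons (PF.leaf (nat_lit 5802297) (nat_lit 333039) (nat_lit 41556108) (nat_lit 18977418) [(nat_lit 333039), (nat_lit 1278159), (nat_lit 3019847), (nat_lit 0)]) (PF.cons PF.nil PF.nil))))) (PF.cons (PF.cons (PF.leaf (nat_lit 5761901) (nat_lit 1278542) (nat_lit 41336140) (nat_lit 18915322) [(nat_lit 0), (nat_lit 1278542), (nat_lit 3021722), (nat_lit 0)]) (PF.cons (PF.leaf (nat_lit 5984777) (nat_lit 336594) (nat_lit 41036934) (nat_lit 18833223) [(nat_lit 336594), (nat_lit 1289875), (nat_lit 3032435), (nat_lit 0)]) (PF.cons PF.nil (PF.cons PF.nil PF.nil)))) (PF.cons (PF.cons (PF.leaf (nat_lit 6395183) (nat_lit 1309961) (nat_lit 40216794) (nat_lit 18600894) [(nat_lit 0), (nat_lit 1309961), (nat_lit 3051277), (nat_lit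 0)]) (PF.cons PF.nil PF.nil)) (PF.cons PF.nil PF.nil)))))) (PF.cons (PF.cons (PF.cons (PF.leaf (nat_lit 5064220) (nat_lit 2968881) (nat_lit 42068054) (nat_lit 19102994) [(nat_lit 0), (nat_lit 0), (nat_lit 2968881), (nat_lit
 0)]) (PF.cons (PF.leaf (nat_lit 5257786) (nat_lit 305822) (nat_lit 41805946) (nat_lit 19033372) [(nat_lit 305822), (nat_lit 0), (nat_lit 2981835), (nat_lit 0)]) (PF.cons (PF.leaf (nat_lit 5463570) (nat_lit 315094) (nat_lit 41530472) (nat_lit 18959374) [(nat_lit 315094), (nat_lit 0), (nat_lit 2994388), (nat_lit 0)]) (PF.cons (PF.leaf (nat_lit 5678738) (nat_lit 323436) (nat_lit 41244195) (nat_lit 18881588) [(nat_lit 323436), (nat_lit 0), (nat_lit 3006360), (nat_lit 0)]) (PF.cons (PF.leaf (nat_lit 5901933) (nat_lit 331008) (nat_lit 40949054) (nat_lit 18800455) [(nat_lit 331008), (nat_lit 0), (nat_lit 3017634), (nat_lit 0)]) (PF.cons PF.nil (PF.cons PF.nil PF.nil))))))) (PF.cons (PF.cons (PF.leaf (nat_lit 5650803) (nat_lit 1265232) (nat_lit 41011058)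 (nat_lit 18815276) [(nat_lit 0), (nat_lit 1265232), (nat_lit 3008623), (nat_lit 0)]) (PF.cons (PF.leaf (nat_lit 5861467) (nat_lit 326967) (nat_lit 40729879) (nat_lit 18737290) [(nat_lit 326967), (nat_lit 1276893), (nat_lit 3018891), (nat_lit 0)]) (PF.cons (PF.leaf (nat_lit 6081576) (nat_lit 334354) (nat_lit 40439257) (nat_lit 18655790) [(nat_lit 334354), (nat_lit 1287952), (nat_lit 3028551), (nat_lit 0)]) (PF.cons (PF.leaf (nat_lit
 6308957) (nat_lit 341066) (nat_lit 40140997) (nat_lit 18571211) [(nat_lit 341066), (nat_lit 1298372), (nat_lit 3037516), (nat_lit 0)]) (PF.cons PF.nil PF.nil))))) (PF.cons (PF.cons (PF.leaf (nat_lit 6261857) (nat_lit 1297697) (nat_lit 39930044) (nat_lit 18508556) [(nat_lit 0), (nat_lit 1297697), (nat_lit 3037408), (nat_lit 0)]) (PF.cons (PF.leaf (nat_lit 6485052) (nat_lit 343702) (nat_lit 39637073) (nat_lit 18423914) [(nat_lit 343702), (nat_lit 1307111), (nat_lit 3044949), (nat_lit 0)]) (PF.cons PF.nil (PF.cons PF.nil PF.nil)))) (PF.cons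 (PF.cons (PF.leaf (nat_lit 6888593) (nat_lit 1322732) (nat_lit 38841046) (nat_lit 18187220) [(nat_lit 0), (nat_lit 1322732), (nat_lit 3056173), (nat_lit 0)]) (PF.cons PF.nil PF.nil)) (PF.cons PF.nil PF.nil))))) (PF.cons (PF.cons (PF.cons (PF.leaf (nat_lit 6140938) (nat_lit 3023344) (nat_lit 39627650) (nat_lit 18411128) [(nat_lit 0), (nat_lit 0), (nat_lit 3023344), (nat_lit 0)]) (PF.cons (PF.leaf (nat_lit 6352478) (nat_lit 334206) (nat_lit 39351888) (nat_lit 18330747) [(nat_lit 334206), (nat_lit 0), (nat_lit 3030656), (nat_lit 0)]) (PF.cons (PF.leaf (nat_lit 6572924) (nat_lit 341034) (nat_lit 39067549) (nat_lit 18247040) [(nat_lit 341034), (nat_lit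
 0), (nat_lit 3037384), (nat_lit 0)]) (PF.cons PF.nil PF.nil)))) (PF.cons (PF.cons (PF.leaf (nat_lit 6747042) (nat_lit 1310599) (nat_lit 38574909) (nat_lit 18097887) [(nat_lit 0), (nat_lit 1310599), (nat_lit 3041805), (nat_lit 0)]) (PF.cons (PF.leaf (nat_lit 6969785) (nat_lit 349056) (nat_lit 38289613) (nat_lit 18011640) [(nat_lit 349056), (nat_lit 1318384), (nat_lit 3046706), (nat_lit 0)]) PF.nil)) (PF.cons PF.nil PF.nil))) (PF.cons (PF.cons (PF.cons (PF.leaf (nat_lit 7217224) (nat_lit 3037082) (nat_lit 37273532) (nat_lit 17686949) [(nat_lit 0), (nat_lit 0), (nat_lit 3037082), (nat_lit 0)]) (PF.cons PF.nil PF.nil)) (PF.cons PF.nil PF.nil)) (PF.cons PF.nil PF.nil)))))) (PF.cons (PF.cons (PF.cons (PF.cons (PF.leaf (nat_lit 4880053) (nat_lit 7815483) (nat_lit 40654437) (nat_lit 18638892) [(nat_lit 0), (nat_lit 0), (nat_lit 0), (nat_lit 7815483)]) (PF.cons (PF.leaf (nat_lit 5044306) (nat_lit 272491) (nat_lit 40443693) (nat_lit 18580984) [(nat_lit 272491), (nat_lit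 0), (nat_lit 0), (nat_lit 7811644)]) (PF.cons (PF.leaf (nat_lit 5224526) (nat_lit 284569) (nat_lit 40215262) (nat_lit 18517653) [(nat_lit 284569), (nat_lit 0), (nat_lit 0), (nat_lit 7806757)]) (PF.cons (PF.leaf (nat_lit
 5416810) (nat_lit 295202) (nat_lit 39972670) (nat_lit 18449765) [(nat_lit 295202), (nat_lit 0), (nat_lit 0), (nat_lit 7800768)]) (PF.cons (PF.leaf (nat_lit 5619162) (nat_lit 304692) (nat_lit 39718467) (nat_lit 18377935) [(nat_lit 304692), (nat_lit 0), (nat_lit 0), (nat_lit 7793639)]) (PF.cons (PF.leaf (nat_lit 5830187) (nat_lit 313245) (nat_lit 39454608) (nat_lit 18302635) [(nat_lit 313245), (nat_lit 0), (nat_lit 0), (nat_lit 7785340)]) (PF.cons (PF.leaf (nat_lit 6048729) (nat_lit 321009) (nat_lit 39182659) (nat_lit 18224241) [(nat_lit 321009), (nat_lit 0), (nat_lit 0), (nat_lit 7775855)]) (PF.cons PF.nil (PF.cons PF.nil PF.nil))))))))) (PF.cons (PF.cons (PF.leaf (nat_lit 5410379) (nat_lit 1203942) (nat_lit 39734562) (nat_lit 18380380) [(nat_lit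 0), (nat_lit 1203942), (nat_lit 0), (nat_lit 7789927)]) (PF.cons (PF.leaf (nat_lit 5597489) (nat_lit 299726) (nat_lit 39496300) (nat_lit 18312453) [(nat_lit 299726), (nat_lit 1217761), (nat_lit 0), (nat_lit 7782571)]) (PF.cons (PF.leaf (nat_lit 5796562) (nat_lit 308951) (nat_lit 39245622) (nat_lit 18240326) [(nat_lit 308951), (nat_lit 1230916), (nat_lit 0), (nat_lit 7774045)]) (PF.cons (PF.leaf (nat_lit 6004783) (nat_lit 317217) (nat_lit
 38984890) (nat_lit 18164595) [(nat_lit 317217), (nat_lit 1243331), (nat_lit 0), (nat_lit 7764344)]) (PF.cons (PF.leaf (nat_lit 6220808) (nat_lit 324689) (nat_lit 38715898) (nat_lit 18085710) [(nat_lit 324689), (nat_lit 1254979), (nat_lit 0), (nat_lit 7753466)]) (PF.cons PF.nil (PF.cons PF.nil PF.nil))))))) (PF.cons (PF.cons (PF.leaf (nat_lit 5975549) (nat_lit 1243233) (nat_lit 38770779) (nat_lit 18099763) [(nat_lit 0), (nat_lit 1243233), (nat_lit 0), (nat_lit 7751803)]) (PF.cons (PF.leaf (nat_lit 6179255) (nat_lit 320522) (nat_lit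 38514639) (nat_lit 18024085) [(nat_lit 320522), (nat_lit 1254351), (nat_lit 0), (nat_lit 7740863)]) (PF.cons (PF.leaf (nat_lit 6392162) (nat_lit 327790) (nat_lit 38249733) (nat_lit 17945097) [(nat_lit 327790), (nat_lit 1264828), (nat_lit 0), (nat_lit 7728741)]) (PF.cons (PF.leaf (nat_lit 6612083) (nat_lit 334369) (nat_lit 37977728) (nat_lit 17863234) [(nat_lit 334369), (nat_lit 1274641), (nat_lit 0), (nat_lit 7715458)]) (PF.cons PF.nil PF.nil))))) (PF.cons (PF.cons (PF.leaf (nat_lit 6564087) (nat_lit 1273468) (nat_lit 37784172) (nat_lit 17802451) [(nat_lit 0), (nat_lit 1273468), (nat_lit 0), (nat_lit 7701782)]) (PF.cons (PF.leaf (nat_lit 6779886)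
 (nat_lit 336759) (nat_lit 37516969) (nat_lit 17720766) [(nat_lit 336759), (nat_lit 1282301), (nat_lit 0), (nat_lit 7687413)]) (PF.cons PF.nil (PF.cons PF.nil PF.nil)))) (PF.cons (PF.cons (PF.leaf (nat_lit 7167572) (nat_lit 1296351) (nat_lit 36789712) (nat_lit 17492757) [(nat_lit 0), (nat_lit 1296351), (nat_lit 0), (nat_lit 7640936)]) (PF.cons PF.nil PF.nil)) (PF.cons PF.nil PF.nil)))))) (PF.cons (PF.cons (PF.cons (PF.leaf (nat_lit 5878266) (nat_lit 2940454) (nat_lit 38451654) (nat_lit 17995749) [(nat_lit 0), (nat_lit 0), (nat_lit 2940454), (nat_lit 7720954)]) (PF.cons (PF.leaf (nat_lit 6067642) (nat_lit 308377) (nat_lit 38215775) (nat_lit 17925420) [(nat_lit 308377), (nat_lit 0), (nat_lit 2948785), (nat_lit 7710454)]) (PF.cons (PF.leaf (nat_lit 6268408) (nat_lit 316977) (nat_lit 37968411) (nat_lit 17851044) [(nat_lit 316977), (nat_lit 0), (nat_lit 2956660), (nat_lit 7698740)]) (PF.cons (PF.leaf (nat_lit 6477749) (nat_lit 324618) (nat_lit 37711895) (nat_lit 17773249)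 [(nat_lit 324618), (nat_lit 0), (nat_lit 2963962), (nat_lit 7685851)]) (PF.cons (PF.leaf (nat_lit 6694325) (nat_lit 331473) (nat_lit 37447975) (nat_lit 17692504) [(nat_lit 331473), (nat_lit 0), (nat_lit 2970619),
 (nat_lit 7671817)]) PF.nil))))) (PF.cons (PF.cons (PF.leaf (nat_lit 6442267) (nat_lit 1259408) (nat_lit 37506524) (nat_lit 17708459) [(nat_lit 0), (nat_lit 1259408), (nat_lit 2963106), (nat_lit 7671314)]) (PF.cons (PF.leaf (nat_lit 6646720) (nat_lit 327024) (nat_lit 37255346) (nat_lit 17631108) [(nat_lit 327024), (nat_lit 1268750), (nat_lit 2969120), (nat_lit 7657461)]) (PF.cons (PF.leaf (nat_lit 6859867) (nat_lit 333739) (nat_lit 36996193) (nat_lit 17550632) [(nat_lit 333739), (nat_lit 1277495), (nat_lit 2974562), (nat_lit 7642450)]) (PF.cons PF.nil PF.nil)))) (PF.cons (PF.cons (PF.leaf (nat_lit 7026062) (nat_lit 1283746) (nat_lit 36545900) (nat_lit 17407224) [(nat_lit 0), (nat_lit 1283746), (nat_lit 2976980), (nat_lit 7611215)]) (PF.cons (PF.leaf (nat_lit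 7241343) (nat_lit 341444) (nat_lit 36285682) (nat_lit 17324575) [(nat_lit 341444), (nat_lit 1291056), (nat_lit 2980740), (nat_lit 7594257)]) PF.nil)) (PF.cons PF.nil (PF.cons PF.nil PF.nil))))) (PF.cons (PF.cons (PF.cons (PF.leaf (nat_lit 6896694) (nat_lit 2961713) (nat_lit 36288139) (nat_lit 17316896) [(nat_lit 0), (nat_lit 0), (nat_lit 2961713), (nat_lit 7580348)]) (PF.cons (PF.leaf (nat_lit 7101162) (nat_lit 331964) (nat_lit
 36043083) (nat_lit 17238579) [(nat_lit 331964), (nat_lit 0), (nat_lit 2965541), (nat_lit 7564102)]) (PF.cons (PF.leaf (nat_lit 7313858) (nat_lit 338185) (nat_lit 35790746) (nat_lit 17157315) [(nat_lit 338185), (nat_lit 0), (nat_lit 2968824), (nat_lit 7546731)]) (PF.cons PF.nil PF.nil)))) (PF.cons (PF.cons (PF.leaf (nat_lit 7474284) (nat_lit 1289491) (nat_lit 35356728) (nat_lit 17014210) [(nat_lit 0), (nat_lit 1289491), (nat_lit 2968121), (nat_lit 7512140)]) (PF.cons PF.nil PF.nil)) (PF.cons PF.nil PF.nil))) (PF.cons (PF.cons (PF.cons (PF.leaf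 (nat_lit 7908822) (nat_lit 2953087) (nat_lit 34217287) (nat_lit 16625606) [(nat_lit 0), (nat_lit 0), (nat_lit 2953087), (nat_lit 7406655)]) (PF.cons PF.nil PF.nil)) (PF.cons PF.nil PF.nil)) (PF.cons PF.nil PF.nil))))) (PF.cons (PF.cons (PF.cons (PF.cons (PF.leaf (nat_lit 6612939) (nat_lit 7430186) (nat_lit 35303849) (nat_lit 16944590) [(nat_lit 0), (nat_lit 0), (nat_lit 0), (nat_lit 7430186)]) (PF.cons (PF.leaf (nat_lit 6797201) (nat_lit 307176) (nat_lit 35092918) (nat_lit 16876158) [(nat_lit 307176), (nat_lit 0), (nat_lit 0), (nat_lit 7416279)]) (PF.cons (PF.leaf (nat_lit 6992155) (nat_lit 315191) (nat_lit 34872051) (nat_lit 16804024)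
 [(nat_lit 315191), (nat_lit 0), (nat_lit 0), (nat_lit 7401177)]) (PF.cons (PF.leaf (nat_lit 7195008) (nat_lit 322239) (nat_lit 34643340) (nat_lit 16728817) [(nat_lit 322239), (nat_lit 0), (nat_lit 0), (nat_lit 7384968)]) (PF.cons PF.nil PF.nil))))) (PF.cons (PF.cons (PF.leaf (nat_lit 7154033) (nat_lit 1241373) (nat_lit 34462972) (nat_lit 16667368) [(nat_lit 0), (nat_lit 1241373), (nat_lit 0), (nat_lit 7368549)]) (PF.cons (PF.leaf (nat_lit 7351816) (nat_lit 323831) (nat_lit 34239445) (nat_lit 16592976) [(nat_lit 323831), (nat_lit 1248995), (nat_lit 0), (nat_lit 7351781)]) (PF.cons (PF.leaf (nat_lit 7557670) (nat_lit 329990) (nat_lit 34009093) (nat_lit 16515800) [(nat_lit 329990), (nat_lit 1256036), (nat_lit 0), (nat_lit 7333950)]) (PF.cons PF.nil PF.nil)))) (PF.cons (PF.cons (PF.leaf (nat_lit 7711602) (nat_lit 1259869) (nat_lit 33611629) (nat_lit 16379704) [(nat_lit 0), (nat_lit 1259869), (nat_lit 0), (nat_lit 7298870)]) (PF.cons PF.nil PF.nil)) (PF.cons PF.nil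 (PF.cons PF.nil PF.nil))))) (PF.cons (PF.cons (PF.cons (PF.leaf (nat_lit 7577130) (nat_lit 2882882) (nat_lit 33391457) (nat_lit 16297440) [(nat_lit 0), (nat_lit 0), (nat_lit 2882882), (nat_lit 7268516)]) (PF.cons (PF.leaf
 (nat_lit 7774355) (nat_lit 327169) (nat_lit 33173990) (nat_lit 16222929) [(nat_lit 327169), (nat_lit 0), (nat_lit 2884380), (nat_lit 7250171)]) (PF.cons PF.nil (PF.cons PF.nil PF.nil)))) (PF.cons (PF.cons (PF.leaf (nat_lit 8127963) (nat_lit 1260900) (nat_lit 32567816) (nat_lit 16011211) [(nat_lit 0), (nat_lit 1260900), (nat_lit 2881436), (nat_lit 7193723)]) (PF.cons PF.nil PF.nil)) (PF.cons PF.nil PF.nil))) (PF.cons (PF.cons (PF.cons (PF.leaf (nat_lit 8531961) (nat_lit 2860316) (nat_lit 31568339) (nat_lit 15649426) [(nat_lit 0), (nat_lit 0), (nat_lit 2860316), (nat_lit 7085206)]) (PF.cons PF.nil PF.nil)) (PF.cons PF.nil PF.nil)) PF.nil))) (PF.cons (PF.cons (PF.cons (PF.cons (PF.leaf (nat_lit 8195366) (nat_lit 6959259) (nat_lit 30871363) (nat_lit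 15359670) [(nat_lit 0), (nat_lit 0), (nat_lit 0), (nat_lit 6959259)]) (PF.cons (PF.leaf (nat_lit 8385543) (nat_lit 320870) (nat_lit 30678097) (nat_lit 15289716) [(nat_lit 320870), (nat_lit 0), (nat_lit 0), (nat_lit 6940042)]) (PF.cons PF.nil PF.nil))) (PF.cons (PF.cons (PF.leaf (nat_lit 8721432) (nat_lit 1228354) (nat_lit 30141535) (nat_lit 15092218) [(nat_lit 0), (nat_lit 1228354), (nat_lit 0), (nat_lit 6882234)]) PF.nil) PF.nil))
 (PF.cons PF.nil PF.nil)) (PF.cons PF.nil (PF.cons PF.nil (PF.cons PF.nil (PF.cons PF.nil PF.nil))))))))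

def p14_10_3_0 : pfC (piC [(nat_lit 41997052), (nat_lit 26592602), (nat_lit 19805017), (nat_lit 13318063)] (nat_lit 4926585)) p14_10_3 (nat_lit 4) (nat_lit 0) (nat_lit 1) = true := by decide +kernel
def p14_10_3_1 : pfC (piC [(nat_lit 41997052), (nat_lit 26592602), (nat_lit 19805017), (nat_lit 13318063)] (nat_lit 4926585)) p14_10_3 (nat_lit 4) (nat_lit 1) (nat_lit 2) = true := by decide +kernel
def p14_10_3_2 : pfC (piC [(nat_lit 41997052), (nat_lit 26592602), (nat_lit 19805017), (nat_lit 13318063)] (nat_lit 4926585)) p14_10_3 (nat_lit 4) (nat_lit 2) (nat_lit 3) = true := by decide +kernel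
def p14_10_3_3 : pfC (piC [(nat_lit 41997052), (nat_lit 26592602), (nat_lit 19805017), (nat_lit 13318063)] (nat_lit 4926585)) p14_10_3 (nat_lit 4) (nat_lit 3) (nat_lit 4) = true := by decide +kernel
def p14_10_3_4 : pfC (piC [(nat_lit 41997052), (nat_lit 26592602), (nat_lit 19805017), (nat_lit 13318063)] (nat_lit 4926585)) p14_10_3 (nat_lit 4) (nat_lit 4) (nat_lit 5) = true := by decide +kernel
def p14_10_3_5 : pfC (piC [(nat_lit 41997052), (nat_lit 26592602), (nat_lit 19805017), (nat_lit 13318063)] (nat_lit 4926585)) p14_10_3 (nat_lit 4) (nat_lit 5) (nat_lit 6) = true := by decide +kernel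
def p14_10_3_6 : pfC (piC [(nat_lit 41997052), (nat_lit 26592602), (nat_lit 19805017), (nat_lit 13318063)] (nat_lit 4926585)) p14_10_3 (nat_lit 4) (nat_lit 6) (nat_lit 7) = true := by decide +kernel
def p14_10_3_7 : pfC (piC [(nat_lit 41997052), (nat_lit 26592602), (nat_lit 19805017), (nat_lit 13318063)] (nat_lit 4926585)) p14_10_3 (nat_lit 4) (nat_lit 7) (nat_lit 8) = true := by decide +kernel
def p14_10_3_8 : pfC (piC [(nat_lit 41997052), (nat_lit 26592602), (nat_lit 19805017), (nat_lit 13318063)] (nat_lit 4926585)) p14_10_3 (nat_lit 4) (nat_lit 8) (nat_lit 9) = true := by decide +kernel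
def p14_10_3_9 : pfC (piC [(nat_lit 41997052), (nat_lit 26592602), (nat_lit 19805017), (nat_lit 13318063)] (nat_lit 4926585)) p14_10_3 (nat_lit 4) (nat_lit 9) (nat_lit 10) = true := by decide +kernel
def p14_10_3_10 : pfC (piC [(nat_lit 41997052), (nat_lit 26592602), (nat_lit 19805017), (nat_lit 13318063)] (nat_lit 4926585)) p14_10_3 (nat_lit 4) (nat_lit 10) (nat_lit 11) = true := by decide +kernel
def p14_10_3_11 : pfC (piC [(nat_lit 41997052), (nat_lit 26592602), (nat_lit 19805017), (nat_lit 13318063)] (nat_lit 4926585)) p14_10_3 (nat_lit 4) (nat_lit 11) (nat_lit 12) = true := by decide +kernel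
def p14_10_3_12 : pfC (piC [(nat_lit 41997052), (nat_lit 26592602), (nat_lit 19805017), (nat_lit 13318063)] (nat_lit 4926585)) p14_10_3 (nat_lit 4) (nat_lit 12) (nat_lit 13) = true := by decide +kernel
def p14_10_3_13 : pfC (piC [(nat_lit 41997052), (nat_lit 26592602), (nat_lit 19805017), (nat_lit 13318063)] (nat_lit 4926585)) p14_10_3 (nat_lit 4) (nat_lit 13) (nat_lit 14) = true := by decide +kernel
def p14_10_3_14 : pfC (piC [(nat_lit 41997052), (nat_lit 26592602), (nat_lit 19805017), (nat_lit 13318063)] (nat_lit 4926585)) p14_10_3 (nat_lit 4) (nat_lit 14) (nat_lit 15) = true := by decide +kernel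
def p14_10_3_15 : pfC (piC [(nat_lit 41997052), (nat_lit 26592602), (nat_lit 19805017), (nat_lit 13318063)] (nat_lit 4926585)) p14_10_3 (nat_lit 4) (nat_lit 15) (nat_lit 16) = true := by decide +kernel
def p14_10_3_16 : pfC (piC [(nat_lit 41997052), (nat_lit 26592602), (nat_lit 19805017), (nat_lit 13318063)] (nat_lit 4926585)) p14_10_3 (nat_lit 4) (nat_lit 16) (nat_lit 17) = true := by decide +kernel
def p14_10_3_17 : pfC (piC [(nat_lit 41997052), (nat_lit 26592602), (nat_lit 19805017), (nat_lit 13318063)] (nat_lit 4926585)) p14_10_3 (nat_lit 4) (nat_lit 17) (nat_lit 18) = true := by decide +kernel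
def p14_10_3_18 : pfC (piC [(nat_lit 41997052), (nat_lit 26592602), (nat_lit 19805017), (nat_lit 13318063)] (nat_lit 4926585)) p14_10_3 (nat_lit 4) (nat_lit 18) (nat_lit 19) = true := by decide +kernel
def p14_10_3_19 : pfC (piC [(nat_lit 41997052), (nat_lit 26592602), (nat_lit 19805017), (nat_lit 13318063)] (nat_lit 4926585)) p14_10_3 (nat_lit 4) (nat_lit 19) (nat_lit 20) = true := by decide +kernel
def p14_10_3_20 : pfC (piC [(nat_lit 41997052), (nat_lit 26592602), (nat_lit 19805017), (nat_lit 13318063)] (nat_lit 4926585)) p14_10_3 (nat_lit 4) (nat_lit 20) (nat_lit 21) = true := by decide +kernel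
def p14_10_3_21 : pfC (piC [(nat_lit 41997052), (nat_lit 26592602), (nat_lit 19805017), (nat_lit 13318063)] (nat_lit 4926585)) p14_10_3 (nat_lit 4) (nat_lit 21) (nat_lit 22) = true := by decide +kernel
def p14_10_3_22 : pfC (piC [(nat_lit 41997052), (nat_lit 26592602), (nat_lit 19805017), (nat_lit 13318063)] (nat_lit 4926585)) p14_10_3 (nat_lit 4) (nat_lit 22) (nat_lit 23) = true := by decide +kernel
def p14_10_3_23 : pfC (piC [(nat_lit 41997052), (nat_lit 26592602), (nat_lit 19805017), (nat_lit 13318063)] (nat_lit 4926585)) p14_10_3 (nat_lit 4) (nat_lit 23) (nat_lit 24) = true := by decide +kernel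
def p14_10_3_24 : pfC (piC [(nat_lit 41997052), (nat_lit 26592602), (nat_lit 19805017), (nat_lit 13318063)] (nat_lit 4926585)) p14_10_3 (nat_lit 4) (nat_lit 24) (nat_lit 25) = true := by decide +kernel
def p14_10_3_25 : pfC (piC [(nat_lit 41997052), (nat_lit 26592602), (nat_lit 19805017), (nat_lit 13318063)] (nat_lit 4926585)) p14_10_3 (nat_lit 4) (nat_lit 25) (nat_lit 26) = true := by decide +kernel
def p14_10_3_26 : pfC (piC [(nat_lit 41997052), (nat_lit 26592602), (nat_lit 19805017), (nat_lit 13318063)] (nat_lit 4926585)) p14_10_3 (nat_lit 4) (nat_lit 26) (nat_lit 27) = true := by decide +kernel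
def p14_10_3_27 : pfC (piC [(nat_lit 41997052), (nat_lit 26592602), (nat_lit 19805017), (nat_lit 13318063)] (nat_lit 4926585)) p14_10_3 (nat_lit 4) (nat_lit 27) (nat_lit 28) = true := by decide +kernel
def p14_10_3_28 : pfC (piC [(nat_lit 41997052), (nat_lit 26592602), (nat_lit 19805017), (nat_lit 13318063)] (nat_lit 4926585)) p14_10_3 (nat_lit 4) (nat_lit 28) (nat_lit 29) = true := by decide +kernel
def p14_10_3_29 : pfC (piC [(nat_lit 41997052), (nat_lit 26592602), (nat_lit 19805017), (nat_lit 13318063)] (nat_lit 4926585)) p14_10_3 (nat_lit 4) (nat_lit 29) (nat_lit 30) = true := by decide +kernel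
def p14_10_3_30 : pfC (piC [(nat_lit 41997052), (nat_lit 26592602), (nat_lit 19805017), (nat_lit 13318063)] (nat_lit 4926585)) p14_10_3 (nat_lit 4) (nat_lit 30) (nat_lit 31) = true := by decide +kernel
def p14_10_3_31 : pfC (piC [(nat_lit 41997052), (nat_lit 26592602), (nat_lit 19805017), (nat_lit 13318063)] (nat_lit 4926585)) p14_10_3 (nat_lit 4) (nat_lit 31) (nat_lit 32) = true := by decide +kernel
def p14_10_3_32 : pfC (piC [(nat_lit 41997052), (nat_lit 26592602), (nat_lit 19805017), (nat_lit 13318063)] (nat_lit 4926585)) p14_10_3 (nat_lit 4) (nat_lit 32) (nat_lit 33) = true := by decide +kernel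
def p14_10_3_33 : pfC (piC [(nat_lit 41997052), (nat_lit 26592602), (nat_lit 19805017), (nat_lit 13318063)] (nat_lit 4926585)) p14_10_3 (nat_lit 4) (nat_lit 33) (nat_lit 34) = true := by decide +kernel
def p14_10_3_34 : pfC (piC [(nat_lit 41997052), (nat_lit 26592602), (nat_lit 19805017), (nat_lit 13318063)] (nat_lit 4926585)) p14_10_3 (nat_lit 4) (nat_lit 34) (nat_lit 35) = true := by decide +kernel
def p14_10_3_35 : pfC (piC [(nat_lit 41997052), (nat_lit 26592602), (nat_lit 19805017), (nat_lit 13318063)] (nat_lit 4926585)) p14_10_3 (nat_lit 4) (nat_lit 35) (nat_lit 36) = true := by decide +kernel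
def p14_10_3_36 : pfC (piC [(nat_lit 41997052), (nat_lit 26592602), (nat_lit 19805017), (nat_lit 13318063)] (nat_lit 4926585)) p14_10_3 (nat_lit 4) (nat_lit 36) (nat_lit 37) = true := by decide +kernel
def p14_10_3_37 : pfC (piC [(nat_lit 41997052), (nat_lit 26592602), (nat_lit 19805017), (nat_lit 13318063)] (nat_lit 4926585)) p14_10_3 (nat_lit 4) (nat_lit 37) (nat_lit 38) = true := by decide +kernel
def p14_10_3_38 : pfC (piC [(nat_lit 41997052), (nat_lit 26592602), (nat_lit 19805017), (nat_lit 13318063)] (nat_lit 4926585)) p14_10_3 (nat_lit 4) (nat_lit 38) (nat_lit 39) = true := by decide +kernel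
def p14_10_3_39 : pfC (piC [(nat_lit 41997052), (nat_lit 26592602), (nat_lit 19805017), (nat_lit 13318063)] (nat_lit 4926585)) p14_10_3 (nat_lit 4) (nat_lit 39) (nat_lit 40) = true := by decide +kernel
def p14_10_3_40 : pfC (piC [(nat_lit 41997052), (nat_lit 26592602), (nat_lit 19805017), (nat_lit 13318063)] (nat_lit 4926585)) p14_10_3 (nat_lit 4) (nat_lit 40) (nat_lit 41) = true := by decide +kernel
def p14_10_3_41 : pfC (piC [(nat_lit 41997052), (nat_lit 26592602), (nat_lit 19805017), (nat_lit 13318063)] (nat_lit 4926585)) p14_10_3 (nat_lit 4) (nat_lit 41) (nat_lit 42) = true := by decide +kernel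
def p14_10_3_42 : pfC (piC [(nat_lit 41997052), (nat_lit 26592602), (nat_lit 19805017), (nat_lit 13318063)] (nat_lit 4926585)) p14_10_3 (nat_lit 4) (nat_lit 42) (nat_lit 43) = true := by decide +kernel
def p14_10_3_43 : pfC (piC [(nat_lit 41997052), (nat_lit 26592602), (nat_lit 19805017), (nat_lit 13318063)] (nat_lit 4926585)) p14_10_3 (nat_lit 4) (nat_lit 43) (nat_lit 44) = true := by decide +kernel
def p14_10_3_44 : pfC (piC [(nat_lit 41997052), (nat_lit 26592602), (nat_lit 19805017), (nat_lit 13318063)] (nat_lit 4926585)) p14_10_3 (nat_lit 4) (nat_lit 44) (nat_lit 45) = true := by decide +kernel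
def p14_10_3_45 : pfC (piC [(nat_lit 41997052), (nat_lit 26592602), (nat_lit 19805017), (nat_lit 13318063)] (nat_lit 4926585)) p14_10_3 (nat_lit 4) (nat_lit 45) (nat_lit 46) = true := by decide +kernel
def p14_10_3_46 : pfC (piC [(nat_lit 41997052), (nat_lit 26592602), (nat_lit 19805017), (nat_lit 13318063)] (nat_lit 4926585)) p14_10_3 (nat_lit 4) (nat_lit 46) (nat_lit 47) = true := by decide +kernel
def p14_10_3_47 : pfC (piC [(nat_lit 41997052), (nat_lit 26592602), (nat_lit 19805017), (nat_lit 13318063)] (nat_lit 4926585)) p14_10_3 (nat_lit 4) (nat_lit 47) (nat_lit 48) = true := by decide +kernel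
def p14_10_3_48 : pfC (piC [(nat_lit 41997052), (nat_lit 26592602), (nat_lit 19805017), (nat_lit 13318063)] (nat_lit 4926585)) p14_10_3 (nat_lit 4) (nat_lit 48) (nat_lit 49) = true := by decide +kernel
def p14_10_3_49 : pfC (piC [(nat_lit 41997052), (nat_lit 26592602), (nat_lit 19805017), (nat_lit 13318063)] (nat_lit 4926585)) p14_10_3 (nat_lit 4) (nat_lit 49) (nat_lit 50) = true := by decide +kernel
def p14_10_3_50 : pfC (piC [(nat_lit 41997052), (nat_lit 26592602), (nat_lit 19805017), (nat_lit 13318063)] (nat_lit 4926585)) p14_10_3 (nat_lit 4) (nat_lit 50) (nat_lit 51) = true := by decide +kernel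
def p14_10_3_51 : pfC (piC [(nat_lit 41997052), (nat_lit 26592602), (nat_lit 19805017), (nat_lit 13318063)] (nat_lit 4926585)) p14_10_3 (nat_lit 4) (nat_lit 51) (nat_lit 52) = true := by decide +kernel
def p14_10_3_52 : pfC (piC [(nat_lit 41997052), (nat_lit 26592602), (nat_lit 19805017), (nat_lit 13318063)] (nat_lit 4926585)) p14_10_3 (nat_lit 4) (nat_lit 52) (nat_lit 53) = true := by decide +kernel
def p14_10_3_53 : pfC (piC [(nat_lit 41997052), (nat_lit 26592602), (nat_lit 19805017), (nat_lit 13318063)] (nat_lit 4926585)) p14_10_3 (nat_lit 4) (nat_lit 53) (nat_lit 54) = true := by decide +kernel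
def p14_10_3_54 : pfC (piC [(nat_lit 41997052), (nat_lit 26592602), (nat_lit 19805017), (nat_lit 13318063)] (nat_lit 4926585)) p14_10_3 (nat_lit 4) (nat_lit 54) (nat_lit 55) = true := by decide +kernel
def p14_10_3_55 : pfC (piC [(nat_lit 41997052), (nat_lit 26592602), (nat_lit 19805017), (nat_lit 13318063)] (nat_lit 4926585)) p14_10_3 (nat_lit 4) (nat_lit 55) (nat_lit 56) = true := by decide +kernel
def p14_10_3_56 : pfC (piC [(nat_lit 41997052), (nat_lit 26592602), (nat_lit 19805017), (nat_lit 13318063)] (nat_lit 4926585)) p14_10_3 (nat_lit 4) (nat_lit 56) (nat_lit 57) = true := by decide +kernel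
def p14_10_3_57 : pfC (piC [(nat_lit 41997052), (nat_lit 26592602), (nat_lit 19805017), (nat_lit 13318063)] (nat_lit 4926585)) p14_10_3 (nat_lit 4) (nat_lit 57) (nat_lit 58) = true := by decide +kernel
def p14_10_3_58 : pfC (piC [(nat_lit 41997052), (nat_lit 26592602), (nat_lit 19805017), (nat_lit 13318063)] (nat_lit 4926585)) p14_10_3 (nat_lit 4) (nat_lit 58) (nat_lit 59) = true := by decide +kernel
def p14_10_3_59 : pfC (piC [(nat_lit 41997052), (nat_lit 26592602), (nat_lit 19805017), (nat_lit 13318063)] (nat_lit 4926585)) p14_10_3 (nat_lit 4) (nat_lit 59) (nat_lit 60) = true := by decide +kernel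
def p14_10_3_60 : pfC (piC [(nat_lit 41997052), (nat_lit 26592602), (nat_lit 19805017), (nat_lit 13318063)] (nat_lit 4926585)) p14_10_3 (nat_lit 4) (nat_lit 60) (nat_lit 61) = true := by decide +kernel
def p14_10_3_61 : pfC (piC [(nat_lit 41997052), (nat_lit 26592602), (nat_lit 19805017), (nat_lit 13318063)] (nat_lit 4926585)) p14_10_3 (nat_lit 4) (nat_lit 61) (nat_lit 62) = true := by decide +kernel
def p14_10_3_62 : pfC (piC [(nat_lit 41997052), (nat_lit 26592602), (nat_lit 19805017), (nat_lit 13318063)] (nat_lit 4926585)) p14_10_3 (nat_lit 4) (nat_lit 62) (nat_lit 63) = true := by decide +kernel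
def p14_10_3_63 : pfC (piC [(nat_lit 41997052), (nat_lit 26592602), (nat_lit 19805017), (nat_lit 13318063)] (nat_lit 4926585)) p14_10_3 (nat_lit 4) (nat_lit 63) (nat_lit 64) = true := by decide +kernel
def p14_10_3_64 : pfC (piC [(nat_lit 41997052), (nat_lit 26592602), (nat_lit 19805017), (nat_lit 13318063)] (nat_lit 4926585)) p14_10_3 (nat_lit 4) (nat_lit 64) (nat_lit 65) = true := by decide +kernel
def p14_10_3_65 : pfC (piC [(nat_lit 41997052), (nat_lit 26592602), (nat_lit 19805017), (nat_lit 13318063)] (nat_lit 4926585)) p14_10_3 (nat_lit 4) (nat_lit 65) (nat_lit 66) = true := by decide +kernel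
def p14_10_3_66 : pfC (piC [(nat_lit 41997052), (nat_lit 26592602), (nat_lit 19805017), (nat_lit 13318063)] (nat_lit 4926585)) p14_10_3 (nat_lit 4) (nat_lit 66) (nat_lit 67) = true := by decide +kernel
def p14_10_3_67 : pfC (piC [(nat_lit 41997052), (nat_lit 26592602), (nat_lit 19805017), (nat_lit 13318063)] (nat_lit 4926585)) p14_10_3 (nat_lit 4) (nat_lit 67) (nat_lit 68) = true := by decide +kernel
def p14_10_3_68 : pfC (piC [(nat_lit 41997052), (nat_lit 26592602), (nat_lit 19805017), (nat_lit 13318063)] (nat_lit 4926585)) p14_10_3 (nat_lit 4) (nat_lit 68) (nat_lit 69) = true := by decide +kernel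
def p14_10_3_69 : pfC (piC [(nat_lit 41997052), (nat_lit 26592602), (nat_lit 19805017), (nat_lit 13318063)] (nat_lit 4926585)) p14_10_3 (nat_lit 4) (nat_lit 69) (nat_lit 70) = true := by decide +kernel
def p14_10_3_70 : pfC (piC [(nat_lit 41997052), (nat_lit 26592602), (nat_lit 19805017), (nat_lit 13318063)] (nat_lit 4926585)) p14_10_3 (nat_lit 4) (nat_lit 70) (nat_lit 71) = true := by decide +kernel
def p14_10_3_71 : pfC (piC [(nat_lit 41997052), (nat_lit 26592602), (nat_lit 19805017), (nat_lit 13318063)] (nat_lit 4926585)) p14_10_3 (nat_lit 4) (nat_lit 71) (nat_lit 72) = true := by decide +kernel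
def p14_10_3_72 : pfC (piC [(nat_lit 41997052), (nat_lit 26592602), (nat_lit 19805017), (nat_lit 13318063)] (nat_lit 4926585)) p14_10_3 (nat_lit 4) (nat_lit 72) (nat_lit 73) = true := by decide +kernel
def p14_10_3_73 : pfC (piC [(nat_lit 41997052), (nat_lit 26592602), (nat_lit 19805017), (nat_lit 13318063)] (nat_lit 4926585)) p14_10_3 (nat_lit 4) (nat_lit 73) (nat_lit 74) = true := by decide +kernel
def p14_10_3_74 : pfC (piC [(nat_lit 41997052), (nat_lit 26592602), (nat_lit 19805017), (nat_lit 13318063)] (nat_lit 4926585)) p14_10_3 (nat_lit 4) (nat_lit 74) (nat_lit 75) = true := by decide +kernel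
def p14_10_3_75 : pfC (piC [(nat_lit 41997052), (nat_lit 26592602), (nat_lit 19805017), (nat_lit 13318063)] (nat_lit 4926585)) p14_10_3 (nat_lit 4) (nat_lit 75) (nat_lit 76) = true := by decide +kernel
def p14_10_3_76 : pfC (piC [(nat_lit 41997052), (nat_lit 26592602), (nat_lit 19805017), (nat_lit 13318063)] (nat_lit 4926585)) p14_10_3 (nat_lit 4) (nat_lit 76) (nat_lit 77) = true := by decide +kernel
def p14_10_3_77 : pfC (piC [(nat_lit 41997052), (nat_lit 26592602), (nat_lit 19805017), (nat_lit 13318063)] (nat_lit 4926585)) p14_10_3 (nat_lit 4) (nat_lit 77) (nat_lit 78) = true := by decide +kernel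
def p14_10_3_78 : pfC (piC [(nat_lit 41997052), (nat_lit 26592602), (nat_lit 19805017), (nat_lit 13318063)] (nat_lit 4926585)) p14_10_3 (nat_lit 4) (nat_lit 78) (nat_lit 79) = true := by decide +kernel
def p14_10_3_79 : pfC (piC [(nat_lit 41997052), (nat_lit 26592602), (nat_lit 19805017), (nat_lit 13318063)] (nat_lit 4926585)) p14_10_3 (nat_lit 4) (nat_lit 79) (nat_lit 80) = true := by decide +kernel
def p14_10_3_80 : pfC (piC [(nat_lit 41997052), (nat_lit 26592602), (nat_lit 19805017), (nat_lit 13318063)] (nat_lit 4926585)) p14_10_3 (nat_lit 4) (nat_lit 80) (nat_lit 81) = true := by decide +kernel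
def p14_10_3_81 : pfC (piC [(nat_lit 41997052), (nat_lit 26592602), (nat_lit 19805017), (nat_lit 13318063)] (nat_lit 4926585)) p14_10_3 (nat_lit 4) (nat_lit 81) (nat_lit 82) = true := by decide +kernel
def p14_10_3_82 : pfC (piC [(nat_lit 41997052), (nat_lit 26592602), (nat_lit 19805017), (nat_lit 13318063)] (nat_lit 4926585)) p14_10_3 (nat_lit 4) (nat_lit 82) (nat_lit 83) = true := by decide +kernel
def p14_10_3_83 : pfC (piC [(nat_lit 41997052), (nat_lit 26592602), (nat_lit 19805017), (nat_lit 13318063)] (nat_lit 4926585)) p14_10_3 (nat_lit 4) (nat_lit 83) (nat_lit 84) = true := by decide +kernel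
def p14_10_3_84 : pfC (piC [(nat_lit 41997052), (nat_lit 26592602), (nat_lit 19805017), (nat_lit 13318063)] (nat_lit 4926585)) p14_10_3 (nat_lit 4) (nat_lit 84) (nat_lit 85) = true := by decide +kernel
def p14_10_3_85 : pfC (piC [(nat_lit 41997052), (nat_lit 26592602), (nat_lit 19805017), (nat_lit 13318063)] (nat_lit 4926585)) p14_10_3 (nat_lit 4) (nat_lit 85) (nat_lit 86) = true := by decide +kernel
def p14_10_3_86 : pfC (piC [(nat_lit 41997052), (nat_lit 26592602), (nat_lit 19805017), (nat_lit 13318063)] (nat_lit 4926585)) p14_10_3 (nat_lit 4) (nat_lit 86) (nat_lit 87) = true := by decide +kernel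
def p14_10_3_87 : pfC (piC [(nat_lit 41997052), (nat_lit 26592602), (nat_lit 19805017), (nat_lit 13318063)] (nat_lit 4926585)) p14_10_3 (nat_lit 4) (nat_lit 87) (nat_lit 88) = true := by decide +kernel
def p14_10_3_88 : pfC (piC [(nat_lit 41997052), (nat_lit 26592602), (nat_lit 19805017), (nat_lit 13318063)] (nat_lit 4926585)) p14_10_3 (nat_lit 4) (nat_lit 88) (nat_lit 89) = true := by decide +kernel
def p14_10_3_89 : pfC (piC [(nat_lit 41997052), (nat_lit 26592602), (nat_lit 19805017), (nat_lit 13318063)] (nat_lit 4926585)) p14_10_3 (nat_lit 4) (nat_lit 89) (nat_lit 90) = true := by decide +kernel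
def p14_10_3_90 : pfC (piC [(nat_lit 41997052), (nat_lit 26592602), (nat_lit 19805017), (nat_lit 13318063)] (nat_lit 4926585)) p14_10_3 (nat_lit 4) (nat_lit 90) (nat_lit 91) = true := by decide +kernel
def p14_10_3_91 : pfC (piC [(nat_lit 41997052), (nat_lit 26592602), (nat_lit 19805017), (nat_lit 13318063)] (nat_lit 4926585)) p14_10_3 (nat_lit 4) (nat_lit 91) (nat_lit 92) = true := by decide +kernel
def p14_10_3_92 : pfC (piC [(nat_lit 41997052), (nat_lit 26592602), (nat_lit 19805017), (nat_lit 13318063)] (nat_lit 4926585)) p14_10_3 (nat_lit 4) (nat_lit 92) (nat_lit 93) = true := by decide +kernel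
def p14_10_3_93 : pfC (piC [(nat_lit 41997052), (nat_lit 26592602), (nat_lit 19805017), (nat_lit 13318063)] (nat_lit 4926585)) p14_10_3 (nat_lit 4) (nat_lit 93) (nat_lit 94) = true := by decide +kernel
def p14_10_3_94 : pfC (piC [(nat_lit 41997052), (nat_lit 26592602), (nat_lit 19805017), (nat_lit 13318063)] (nat_lit 4926585)) p14_10_3 (nat_lit 4) (nat_lit 94) (nat_lit 95) = true := by decide +kernel
def p14_10_3_95 : pfC (piC [(nat_lit 41997052), (nat_lit 26592602), (nat_lit 19805017), (nat_lit 13318063)] (nat_lit 4926585)) p14_10_3 (nat_lit 4) (nat_lit 95) (nat_lit 96) = true := by decide +kernel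
def p14_10_3_96 : pfC (piC [(nat_lit 41997052), (nat_lit 26592602), (nat_lit 19805017), (nat_lit 13318063)] (nat_lit 4926585)) p14_10_3 (nat_lit 4) (nat_lit 96) (nat_lit 97) = true := by decide +kernel
def p14_10_3_97 : pfC (piC [(nat_lit 41997052), (nat_lit 26592602), (nat_lit 19805017), (nat_lit 13318063)] (nat_lit 4926585)) p14_10_3 (nat_lit 4) (nat_lit 97) (nat_lit 98) = true := by decide +kernel
def p14_10_3_98 : pfC (piC [(nat_lit 41997052), (nat_lit 26592602), (nat_lit 19805017), (nat_lit 13318063)] (nat_lit 4926585)) p14_10_3 (nat_lit 4) (nat_lit 98) (nat_lit 99) = true := by decide +kernel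
def p14_10_3_99 : pfC (piC [(nat_lit 41997052), (nat_lit 26592602), (nat_lit 19805017), (nat_lit 13318063)] (nat_lit 4926585)) p14_10_3 (nat_lit 4) (nat_lit 99) (nat_lit 100) = true := by decide +kernel
def p14_10_3_100 : pfC (piC [(nat_lit 41997052), (nat_lit 26592602), (nat_lit 19805017), (nat_lit 13318063)] (nat_lit 4926585)) p14_10_3 (nat_lit 4) (nat_lit 100) (nat_lit 101) = true := by decide +kernel
def p14_10_3_101 : pfC (piC [(nat_lit 41997052), (nat_lit 26592602), (nat_lit 19805017), (nat_lit 13318063)] (nat_lit 4926585)) p14_10_3 (nat_lit 4) (nat_lit 101) (nat_lit 102) = true := by decide +kernel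
def p14_10_3_102 : pfC (piC [(nat_lit 41997052), (nat_lit 26592602), (nat_lit 19805017), (nat_lit 13318063)] (nat_lit 4926585)) p14_10_3 (nat_lit 4) (nat_lit 102) (nat_lit 103) = true := by decide +kernel
def p14_10_3_103 : pfC (piC [(nat_lit 41997052), (nat_lit 26592602), (nat_lit 19805017), (nat_lit 13318063)] (nat_lit 4926585)) p14_10_3 (nat_lit 4) (nat_lit 103) (nat_lit 104) = true := by decide +kernel
def p14_10_3_104 : pfC (piC [(nat_lit 41997052), (nat_lit 26592602), (nat_lit 19805017), (nat_lit 13318063)] (nat_lit 4926585)) p14_10_3 (nat_lit 4) (nat_lit 104) (nat_lit 105) = true := by decide +kernel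
def p14_10_3_105 : pfC (piC [(nat_lit 41997052), (nat_lit 26592602), (nat_lit 19805017), (nat_lit 13318063)] (nat_lit 4926585)) p14_10_3 (nat_lit 4) (nat_lit 105) (nat_lit 106) = true := by decide +kernel
def p14_10_3_106 : pfC (piC [(nat_lit 41997052), (nat_lit 26592602), (nat_lit 19805017), (nat_lit 13318063)] (nat_lit 4926585)) p14_10_3 (nat_lit 4) (nat_lit 106) (nat_lit 107) = true := by decide +kernel
def p14_10_3_107 : pfC (piC [(nat_lit 41997052), (nat_lit 26592602), (nat_lit 19805017), (nat_lit 13318063)] (nat_lit 4926585)) p14_10_3 (nat_lit 4) (nat_lit 107) (nat_lit 108) = true := by decide +kernel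
def p14_10_3_108 : pfC (piC [(nat_lit 41997052), (nat_lit 26592602), (nat_lit 19805017), (nat_lit 13318063)] (nat_lit 4926585)) p14_10_3 (nat_lit 4) (nat_lit 108) (nat_lit 109) = true := by decide +kernel
def p14_10_3_109 : pfC (piC [(nat_lit 41997052), (nat_lit 26592602), (nat_lit 19805017), (nat_lit 13318063)] (nat_lit 4926585)) p14_10_3 (nat_lit 4) (nat_lit 109) (nat_lit 110) = true := by decide +kernel
def p14_10_3_110 : pfC (piC [(nat_lit 41997052), (nat_lit 26592602), (nat_lit 19805017), (nat_lit 13318063)] (nat_lit 4926585)) p14_10_3 (nat_lit 4) (nat_lit 110) (nat_lit 111) = true := by decide +kernel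
def p14_10_3_111 : pfC (piC [(nat_lit 41997052), (nat_lit 26592602), (nat_lit 19805017), (nat_lit 13318063)] (nat_lit 4926585)) p14_10_3 (nat_lit 4) (nat_lit 111) (nat_lit 112) = true := by decide +kernel
def p14_10_3_112 : pfC (piC [(nat_lit 41997052), (nat_lit 26592602), (nat_lit 19805017), (nat_lit 13318063)] (nat_lit 4926585)) p14_10_3 (nat_lit 4) (nat_lit 112) (nat_lit 113) = true := by decide +kernel
def p14_10_3_113 : pfC (piC [(nat_lit 41997052), (nat_lit 26592602), (nat_lit 19805017), (nat_lit 13318063)] (nat_lit 4926585)) p14_10_3 (nat_lit 4) (nat_lit 113) (nat_lit 114) = true := by decide +kernel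
def p14_10_3_114 : pfC (piC [(nat_lit 41997052), (nat_lit 26592602), (nat_lit 19805017), (nat_lit 13318063)] (nat_lit 4926585)) p14_10_3 (nat_lit 4) (nat_lit 114) (nat_lit 115) = true := by decide +kernel
def p14_10_3_115 : pfC (piC [(nat_lit 41997052), (nat_lit 26592602), (nat_lit 19805017), (nat_lit 13318063)] (nat_lit 4926585)) p14_10_3 (nat_lit 4) (nat_lit 115) (nat_lit 116) = true := by decide +kernel
theorem p14_10_3_T : PfS (PiF n14_10.reverse (nat_lit 4926585)) p14_10_3 (nat_lit 4) [] 0 :=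
  pftab_of (los := [(nat_lit 41997052), (nat_lit 26592602), (nat_lit 19805017), (nat_lit 13318063)]) (by decide +kernel) (hi := (nat_lit 116)) (PfP.trans (PfP.trans (PfP.trans (PfP.trans (PfP.trans (PfP.trans (PfP.trans (PfP.trans (PfP.trans (PfP.trans (PfP.trans (PfP.trans (PfP.trans (PfP.trans (PfP.trans (PfP.trans (PfP.trans (PfP.trans (PfP.trans (PfP.trans (PfP.trans (PfP.trans (PfP.trans (PfP.trans (PfP.trans (PfP.trans (PfP.trans (PfP.trans (PfP.trans (PfP.trans (PfP.trans (PfP.trans (PfP.trans (PfP.trans (PfP.trans (PfP.trans (PfP.trans (PfP.trans (PfP.trans (PfP.trans (PfP.trans (PfP.trans (PfP.trans (PfP.trans (PfP.trans (PfP.trans (PfP.trans (PfP.trans (PfP.trans (PfP.trans (PfP.trans (PfP.trans (PfP.trans (PfP.trans (PfP.trans (PfP.trans (PfP.trans (PfP.trans (PfP.trans (PfP.trans (PfP.trans (PfP.trans (PfP.trans (PfP.trans (PfP.trans (PfP.trans (PfP.trans (PfP.trans (PfP.trans (PfP.trans (PfP.trans (PfP.trans (PfP.trans (PfP.trans (PfP.trans (PfP.trans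 (PfP.trans (PfP.trans (PfP.trans (PfP.trans (PfP.trans (PfP.trans (PfP.trans (PfP.trans (PfP.trans (PfP.trans (PfP.trans (PfP.trans (PfP.trans (PfP.trans (PfP.trans (PfP.trans (PfP.trans (PfP.trans (PfP.trans (PfP.trans (PfP.trans (PfP.trans (PfP.trans (PfP.trans (PfP.trans (PfP.trans (PfP.trans (PfP.trans (PfP.trans (PfP.trans (PfP.trans (PfP.trans (PfP.trans
 (PfP.trans (PfP.trans (PfP.trans (PfP.trans (PfP.trans (PfP.trans (pfC_sound p14_10_3_0) (pfC_sound p14_10_3_1)) (pfC_sound p14_10_3_2)) (pfC_sound p14_10_3_3)) (pfC_sound p14_10_3_4)) (pfC_sound p14_10_3_5)) (pfC_sound p14_10_3_6)) (pfC_sound p14_10_3_7)) (pfC_sound p14_10_3_8)) (pfC_sound p14_10_3_9)) (pfC_sound p14_10_3_10)) (pfC_sound p14_10_3_11)) (pfC_sound p14_10_3_12)) (pfC_sound p14_10_3_13)) (pfC_sound p14_10_3_14)) (pfC_sound p14_10_3_15)) (pfC_sound p14_10_3_16)) (pfC_sound p14_10_3_17)) (pfC_sound p14_10_3_18)) (pfC_sound p14_10_3_19)) (pfC_sound p14_10_3_20)) (pfC_sound p14_10_3_21)) (pfC_sound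 p14_10_3_22)) (pfC_sound p14_10_3_23)) (pfC_sound p14_10_3_24)) (pfC_sound p14_10_3_25)) (pfC_sound p14_10_3_26)) (pfC_sound p14_10_3_27)) (pfC_sound p14_10_3_28)) (pfC_sound p14_10_3_29)) (pfC_sound p14_10_3_30)) (pfC_sound p14_10_3_31)) (pfC_sound p14_10_3_32)) (pfC_sound p14_10_3_33)) (pfC_sound p14_10_3_34)) (pfC_sound p14_10_3_35)) (pfC_sound p14_10_3_36)) (pfC_sound p14_10_3_37)) (pfC_sound p14_10_3_38)) (pfC_sound p14_10_3_39)) (pfC_sound p14_10_3_40)) (pfC_sound p14_10_3_41)) (pfC_sound p14_10_3_42)) (pfC_sound p14_10_3_43)) (pfC_sound p14_10_3_44)) (pfC_sound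
 p14_10_3_45)) (pfC_sound p14_10_3_46)) (pfC_sound p14_10_3_47)) (pfC_sound p14_10_3_48)) (pfC_sound p14_10_3_49)) (pfC_sound p14_10_3_50)) (pfC_sound p14_10_3_51)) (pfC_sound p14_10_3_52)) (pfC_sound p14_10_3_53)) (pfC_sound p14_10_3_54)) (pfC_sound p14_10_3_55)) (pfC_sound p14_10_3_56)) (pfC_sound p14_10_3_57)) (pfC_sound p14_10_3_58)) (pfC_sound p14_10_3_59)) (pfC_sound p14_10_3_60)) (pfC_sound p14_10_3_61)) (pfC_sound p14_10_3_62)) (pfC_sound p14_10_3_63)) (pfC_sound p14_10_3_64)) (pfC_sound p14_10_3_65)) (pfC_sound p14_10_3_66)) (pfC_sound p14_10_3_67)) (pfC_sound p14_10_3_68)) (pfC_sound p14_10_3_69)) (pfC_sound p14_10_3_70)) (pfC_sound p14_10_3_71)) (pfC_sound p14_10_3_72)) (pfC_sound p14_10_3_73)) (pfC_sound p14_10_3_74)) (pfC_sound p14_10_3_75)) (pfC_sound p14_10_3_76)) (pfC_sound p14_10_3_77)) (pfC_sound p14_10_3_78)) (pfC_sound p14_10_3_79)) (pfC_sound p14_10_3_80)) (pfC_sound p14_10_3_81)) (pfC_sound p14_10_3_82)) (pfC_sound p14_10_3_83)) (pfC_sound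 p14_10_3_84)) (pfC_sound p14_10_3_85)) (pfC_sound p14_10_3_86)) (pfC_sound p14_10_3_87)) (pfC_sound p14_10_3_88)) (pfC_sound p14_10_3_89)) (pfC_sound p14_10_3_90)) (pfC_sound p14_10_3_91)) (pfC_sound p14_10_3_92)) (pfC_sound
 p14_10_3_93)) (pfC_sound p14_10_3_94)) (pfC_sound p14_10_3_95)) (pfC_sound p14_10_3_96)) (pfC_sound p14_10_3_97)) (pfC_sound p14_10_3_98)) (pfC_sound p14_10_3_99)) (pfC_sound p14_10_3_100)) (pfC_sound p14_10_3_101)) (pfC_sound p14_10_3_102)) (pfC_sound p14_10_3_103)) (pfC_sound p14_10_3_104)) (pfC_sound p14_10_3_105)) (pfC_sound p14_10_3_106)) (pfC_sound p14_10_3_107)) (pfC_sound p14_10_3_108)) (pfC_sound p14_10_3_109)) (pfC_sound p14_10_3_110)) (pfC_sound p14_10_3_111)) (pfC_sound p14_10_3_112)) (pfC_sound p14_10_3_113)) (pfC_sound p14_10_3_114)) (pfC_sound p14_10_3_115)) (by decide +kernel)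

def z14_10_3 : zOK yB14_10 (nat_lit 3) (nat_lit 750) (nat_lit 896) (nat_lit 4926585) (nat_lit 3453113) = true := by decide +kernel
def g14_10_3 : gOK yB14_10.x P14_10 (nat_lit 1430) (q14_10 :: r14_10) (nat_lit 3) (nat_lit 750) (nat_lit 4) (nat_lit 896) (nat_lit 12712500) (nat_lit 12712500) (nat_lit 12712500) (nat_lit 12712500) [(nat_lit 800)] = true := by decide +kernel
def v14_10_3 : ivC P14_10 s14_10 w14_10 n14_10 (nat_lit 4) (nat_lit 4710) (nat_lit 3) (nat_lit 750) f144_1_750 f152_1_750 (nat_lit 4) (nat_lit 896) f144_1_896 f152_1_896 (nat_lit 4926585) (nat_lit 3453113) p14_10_3 = true := by decide +kernel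
/-! box `yB14_11` -/

def P14_11 : BQ := ⟨(nat_lit 8), (nat_lit 8), (nat_lit 0), (nat_lit 4), (nat_lit 4), (nat_lit 760), (nat_lit 780), (nat_lit 120), [(nat_lit 200), (nat_lit 300), (nat_lit 450), (nat_lit 800)], (nat_lit 99440000), (nat_lit 16000000), (nat_lit 16000000000)⟩
def q14_11 : PC := ⟨(nat_lit 1000), [(nat_lit 120000), (nat_lit 200000), (nat_lit 300000), (nat_lit 450000), (nat_lit 800000)], (nat_lit 340282367000166625996085689103316680705000000), (nat_lit 15900560000000), (nat_lit 15900560000000), (nat_lit 10000000)⟩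
def r14_11 : List PC := [⟨(nat_lit 1312), [(nat_lit 120588), (nat_lit 201072), (nat_lit 301459), (nat_lit 451638), (nat_lit 800876)], (nat_lit 342298540024651962178263834176722959688748223), (nat_lit 16309545248000), (nat_lit 16320826718720), (nat_lit 10053600)⟩, ⟨(nat_lit 2189), [(nat_lit 123017), (nat_lit 204090), (nat_lit 305561), (nat_lit 457766), (nat_lit 811354)], (nat_lit 348047610614923846078493704240713879312624179), (nat_lit 17333209756000), (nat_lit 17376202283840), (nat_lit 10251417)⟩]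
def s14_11 : List PB := [⟨(nat_lit 26240), (nat_lit 1929408000000), [(nat_lit 201072), (nat_lit 301459), (nat_lit 451638), (nat_lit 800876)], (nat_lit 342298540024651962178263834176722959688748223), (nat_lit 1142209452090624), (nat_lit 1142220733561344), (nat_lit 49920)⟩, ⟨(nat_lit 43780), (nat_lit 1968272000000), [(nat_lit 204090), (nat_lit 305561), (nat_lit 457766), (nat_lit 811354)], (nat_lit 348047610614923846078493704240713879312624179), (nat_lit 1143233116598624), (nat_lit 1143276109126464), (nat_lit 190240)⟩]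
def n14_11 : List KN := [⟨(nat_lit 800), (nat_lit 450), (nat_lit 13130440), (nat_lit 5141647)⟩, ⟨(nat_lit 450), (nat_lit 300), (nat_lit 19519284), (nat_lit 13130440)⟩, ⟨(nat_lit 300), (nat_lit 200), (nat_lit 26310893), (nat_lit 19519284)⟩, ⟨(nat_lit 200), (nat_lit 120), (nat_lit 40745421), (nat_lit 26310893)⟩]
def w14_11 : List ℕ := [(nat_lit 49920), (nat_lit 190240)]
def par14_11 : parC yB14_11 P14_11 s14_11 r14_11 q14_11 n14_11 w14_11 = true := by decide +kernel

def p14_11_0 : PF := (PF.cons (PF.cons (PF.cons (PF.cons (PF.leaf (nat_lit 640905) (nat_lit 1887884) (nat_lit 65220928) (nat_lit 1887884) [(nat_lit 0), (nat_lit 0), (nat_lit 0), (nat_lit 0)]) (PF.cons (PF.leaf (nat_lit 757745) (nat_lit 179325) (nat_lit 64993579) (nat_lit 1935907) [(nat_lit 179325), (nat_lit 0), (nat_lit 0), (nat_lit 0)]) (PF.cons (PF.leaf (nat_lit 902428) (nat_lit 198546) (nat_lit 64722409) (nat_lit 1989311) [(nat_lit 198546), (nat_lit 0), (nat_lit 0), (nat_lit 0)]) (PF.cons (PF.leaf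 (nat_lit 1068285) (nat_lit 216667) (nat_lit 64412888) (nat_lit 2045920) [(nat_lit 216667), (nat_lit 0), (nat_lit 0), (nat_lit 0)]) (PF.cons (PF.leaf (nat_lit 1253820) (nat_lit 233939) (nat_lit 64068808) (nat_lit 2104247) [(nat_lit 233939), (nat_lit 0), (nat_lit 0), (nat_lit 0)]) (PF.cons (PF.leaf (nat_lit 1457647) (nat_lit 250492) (nat_lit 63693129) (nat_lit 2163221) [(nat_lit 250492), (nat_lit 0), (nat_lit 0), (nat_lit 0)]) (PF.cons (PF.leaf (nat_lit 1678576) (nat_lit 266400) (nat_lit 63288357) (nat_lit 2222052) [(nat_lit 266400), (nat_lit 0), (nat_lit 0), (nat_lit 0)]) (PF.cons (PF.leaf (nat_lit 1915515) (nat_lit 281704) (nat_lit 62856735) (nat_lit 2280147) [(nat_lit 281704), (nat_lit 0), (nat_lit 0),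
 (nat_lit 0)]) (PF.cons PF.nil (PF.cons PF.nil PF.nil)))))))))) (PF.cons (PF.cons (PF.leaf (nat_lit 1110696) (nat_lit 954121) (nat_lit 64063169) (nat_lit 2091521) [(nat_lit 0), (nat_lit 954121), (nat_lit 0), (nat_lit 0)]) (PF.cons (PF.leaf (nat_lit 1276666) (nat_lit 232734) (nat_lit 63742914) (nat_lit 2142554) [(nat_lit 232734), (nat_lit 990608), (nat_lit 0), (nat_lit 0)]) (PF.cons (PF.leaf (nat_lit 1465152) (nat_lit 249518) (nat_lit 63386255) (nat_lit 2195652) [(nat_lit 249518), (nat_lit 1027867), (nat_lit 0), (nat_lit 0)]) (PF.cons (PF.leaf (nat_lit 1672261) (nat_lit 265517) (nat_lit 62997433) (nat_lit 2249626) [(nat_lit 265517), (nat_lit 1065200), (nat_lit 0), (nat_lit 0)]) (PF.cons (PF.leaf (nat_lit 1896459) (nat_lit 280835) (nat_lit 62579680) (nat_lit 2303633) [(nat_lit 280835), (nat_lit 1102156), (nat_lit 0), (nat_lit 0)]) (PF.cons (PF.leaf (nat_lit 2136448) (nat_lit 295530) (nat_lit 62135678) (nat_lit 2357056) [(nat_lit 295530), (nat_lit 1138426), (nat_lit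 0), (nat_lit 0)]) (PF.cons (PF.leaf (nat_lit 2391042) (nat_lit 309634) (nat_lit 61667782) (nat_lit 2409430) [(nat_lit 309634), (nat_lit 1173790), (nat_lit 0), (nat_lit 0)]) (PF.cons PF.nil (PF.cons PF.nil PF.nil)))))))))
 (PF.cons (PF.cons (PF.leaf (nat_lit 1684714) (nat_lit 1080640) (nat_lit 62666710) (nat_lit 2280821) [(nat_lit 0), (nat_lit 1080640), (nat_lit 0), (nat_lit 0)]) (PF.cons (PF.leaf (nat_lit 1891721) (nat_lit 279194) (nat_lit 62270273) (nat_lit 2329845) [(nat_lit 279194), (nat_lit 1114749), (nat_lit 0), (nat_lit 0)]) (PF.cons (PF.leaf (nat_lit 2117466) (nat_lit 294041) (nat_lit 61844080) (nat_lit 2379163) [(nat_lit 294041), (nat_lit 1148742), (nat_lit 0), (nat_lit 0)]) (PF.cons (PF.leaf (nat_lit 2359178) (nat_lit 308218) (nat_lit 61391587) (nat_lit 2428090) [(nat_lit 308218), (nat_lit 1182239), (nat_lit 0), (nat_lit 0)]) (PF.cons (PF.leaf (nat_lit 2615400) (nat_lit 321777) (nat_lit 60915611) (nat_lit 2476133) [(nat_lit 321777), (nat_lit 1214979),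 (nat_lit 0), (nat_lit 0)]) (PF.cons (PF.leaf (nat_lit 2884888) (nat_lit 334750) (nat_lit 60418581) (nat_lit 2522922) [(nat_lit 334750), (nat_lit 1246778), (nat_lit 0), (nat_lit 0)]) (PF.cons PF.nil PF.nil))))))) (PF.cons (PF.cons (PF.leaf (nat_lit 2343182) (nat_lit 1192121) (nat_lit 61083312) (nat_lit 2449136) [(nat_lit 0), (nat_lit 1192121), (nat_lit 0), (nat_lit 0)]) (PF.cons (PF.leaf (nat_lit 2584080) (nat_lit 319805) (nat_lit 60626495)
 (nat_lit 2493692) [(nat_lit 319805), (nat_lit 1222939), (nat_lit 0), (nat_lit 0)]) (PF.cons (PF.leaf (nat_lit 2840575) (nat_lit 332895) (nat_lit 60145970) (nat_lit 2537562) [(nat_lit 332895), (nat_lit 1253163), (nat_lit 0), (nat_lit 0)]) (PF.cons (PF.leaf (nat_lit 3110381) (nat_lit 345369) (nat_lit 59644639) (nat_lit 2580343) [(nat_lit 345369), (nat_lit 1282573), (nat_lit 0), (nat_lit 0)]) (PF.cons PF.nil PF.nil))))) (PF.cons (PF.cons (PF.leaf (nat_lit 3067746) (nat_lit 1288566) (nat_lit 59360468) (nat_lit 2594079) [(nat_lit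 0), (nat_lit 1288566), (nat_lit 0), (nat_lit 0)]) (PF.cons (PF.leaf (nat_lit 3335896) (nat_lit 355054) (nat_lit 58858044) (nat_lit 2633004) [(nat_lit 355054), (nat_lit 1315677), (nat_lit 0), (nat_lit 0)]) (PF.cons (PF.leaf (nat_lit 3616837) (nat_lit 366489) (nat_lit 58337371) (nat_lit 2670710) [(nat_lit 366489), (nat_lit 1341937), (nat_lit 0), (nat_lit 0)]) (PF.cons PF.nil PF.nil)))) (PF.cons (PF.cons (PF.leaf (nat_lit 3841508) (nat_lit 1370430) (nat_lit 57541284) (nat_lit 2715375) [(nat_lit 0), (nat_lit 1370430), (nat_lit 0), (nat_lit 0)]) (PF.cons (PF.leaf (nat_lit 4130825) (nat_lit 385298) (nat_lit 57006679) (nat_lit 2748243) [(nat_lit 385298), (nat_lit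
 1393718), (nat_lit 0), (nat_lit 0)]) PF.nil)) (PF.cons PF.nil (PF.cons PF.nil PF.nil)))))))) (PF.cons (PF.cons (PF.cons (PF.leaf (nat_lit 1705081) (nat_lit 2309254) (nat_lit 61950382) (nat_lit 2309254) [(nat_lit 0), (nat_lit 0), (nat_lit 2849176), (nat_lit 0)]) (PF.cons (PF.leaf (nat_lit 1889550) (nat_lit 267922) (nat_lit 61593984) (nat_lit 2351979) [(nat_lit 267922), (nat_lit 0), (nat_lit 2894925), (nat_lit 0)]) (PF.cons (PF.leaf (nat_lit 2095739) (nat_lit 284193) (nat_lit 61201950) (nat_lit 2396135) [(nat_lit 284193), (nat_lit 0), (nat_lit 2942339), (nat_lit 0)]) (PF.cons (PF.leaf (nat_lit 2319678) (nat_lit 299399) (nat_lit 60779539) (nat_lit 2440738) [(nat_lit 299399), (nat_lit 0), (nat_lit 2990337), (nat_lit 0)]) (PF.cons (PF.leaf (nat_lit 2559513) (nat_lit 313723) (nat_lit 60330661) (nat_lit 2485104) [(nat_lit 313723), (nat_lit 0), (nat_lit 3038152), (nat_lit 0)]) (PF.cons (PF.leaf (nat_lit 2813695) (nat_lit 327281) (nat_lit 59858453) (nat_lit 2528735) [(nat_lit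 327281), (nat_lit 0), (nat_lit 3085218), (nat_lit 0)]) (PF.cons (PF.leaf (nat_lit 3081058) (nat_lit 340143) (nat_lit 59365570) (nat_lit 2571265) [(nat_lit 340143), (nat_lit 0), (nat_lit 3131112), (nat_lit 0)])
 (PF.cons PF.nil (PF.cons PF.nil PF.nil))))))))) (PF.cons (PF.cons (PF.leaf (nat_lit 2319538) (nat_lit 1190097) (nat_lit 60438388) (nat_lit 2463684) [(nat_lit 0), (nat_lit 1190097), (nat_lit 3016641), (nat_lit 0)]) (PF.cons (PF.leaf (nat_lit 2541283) (nat_lit 310507) (nat_lit 60014697) (nat_lit 2504046) [(nat_lit 310507), (nat_lit 1219550), (nat_lit 3060011), (nat_lit 0)]) (PF.cons (PF.leaf (nat_lit 2780629) (nat_lit 324443) (nat_lit 59563418) (nat_lit 2544404) [(nat_lit 324443), (nat_lit 1248688), (nat_lit 3103414), (nat_lit 0)]) (PF.cons (PF.leaf (nat_lit 3034624) (nat_lit 337560) (nat_lit 59088488) (nat_lit 2584203) [(nat_lit 337560), (nat_lit 1277208), (nat_lit 3146232), (nat_lit 0)]) (PF.cons (PF.leaf (nat_lit 3301719) (nat_lit 349953) (nat_lit 58593034)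 (nat_lit 2623045) [(nat_lit 349953), (nat_lit 1304905), (nat_lit 3188015), (nat_lit 0)]) (PF.cons (PF.leaf (nat_lit 3580687) (nat_lit 361686) (nat_lit 58079669) (nat_lit 2660641) [(nat_lit 361686), (nat_lit 1331642), (nat_lit 3228429), (nat_lit 0)]) (PF.cons PF.nil PF.nil))))))) (PF.cons (PF.cons (PF.leaf (nat_lit 3005136) (nat_lit 1283654) (nat_lit 58778971) (nat_lit 2599095) [(nat_lit 0), (nat_lit 1283654), (nat_lit
 3163436), (nat_lit 0)]) (PF.cons (PF.leaf (nat_lit 3256657) (nat_lit 346856) (nat_lit 58305007) (nat_lit 2635162) [(nat_lit 346856), (nat_lit 1309839), (nat_lit 3202107), (nat_lit 0)]) (PF.cons (PF.leaf (nat_lit 3522402) (nat_lit 358855) (nat_lit 57810034) (nat_lit 2670450) [(nat_lit 358855), (nat_lit 1335349), (nat_lit 3239917), (nat_lit 0)]) (PF.cons (PF.leaf (nat_lit 3800114) (nat_lit 370163) (nat_lit 57297142) (nat_lit 2704638) [(nat_lit 370163), (nat_lit 1360015), (nat_lit 3276508), (nat_lit 0)]) (PF.cons PF.nil PF.nil))))) (PF.cons (PF.cons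 (PF.leaf (nat_lit 3744223) (nat_lit 1363444) (nat_lit 57017605) (nat_lit 2713754) [(nat_lit 0), (nat_lit 1363444), (nat_lit 3287119), (nat_lit 0)]) (PF.cons (PF.leaf (nat_lit 4018969) (nat_lit 377813) (nat_lit 56507940) (nat_lit 2744668) [(nat_lit 377813), (nat_lit 1386118), (nat_lit 3320034), (nat_lit 0)]) (PF.cons (PF.leaf (nat_lit 4305145) (nat_lit 388102) (nat_lit 55982766) (nat_lit 2774399) [(nat_lit 388102), (nat_lit 1407939), (nat_lit 3351621), (nat_lit 0)]) (PF.cons PF.nil PF.nil)))) (PF.cons (PF.cons (PF.leaf (nat_lit 4521344) (nat_lit 1430104) (nat_lit 55193189) (nat_lit 2807709) [(nat_lit 0), (nat_lit 1430104), (nat_lit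
 3387495), (nat_lit 0)]) (PF.cons PF.nil PF.nil)) (PF.cons PF.nil PF.nil)))))) (PF.cons (PF.cons (PF.cons (PF.leaf (nat_lit 2957820) (nat_lit 2604377) (nat_lit 58159340) (nat_lit 2604377) [(nat_lit 0), (nat_lit 0), (nat_lit 3172547), (nat_lit 0)]) (PF.cons (PF.leaf (nat_lit 3190239) (nat_lit 336296) (nat_lit 57720327) (nat_lit 2637327) [(nat_lit 336296), (nat_lit 0), (nat_lit 3207430), (nat_lit 0)]) (PF.cons (PF.leaf (nat_lit 3439057) (nat_lit 349321) (nat_lit 57255982) (nat_lit 2670040) [(nat_lit 349321), (nat_lit 0), (nat_lit 3242073), (nat_lit 0)]) (PF.cons (PF.leaf (nat_lit 3701394) (nat_lit 361418) (nat_lit 56770528) (nat_lit 2702070) [(nat_lit 361418), (nat_lit 0), (nat_lit 3275979), (nat_lit 0)]) (PF.cons (PF.leaf (nat_lit 3975578) (nat_lit 372715) (nat_lit 56267252) (nat_lit 2733102) [(nat_lit 372715), (nat_lit 0), (nat_lit 3308797), (nat_lit 0)]) (PF.cons PF.nil (PF.cons PF.nil PF.nil))))))) (PF.cons (PF.cons (PF.leaf (nat_lit 3659464) (nat_lit 1355388)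 (nat_lit 56466165) (nat_lit 2712116) [(nat_lit 0), (nat_lit 1355388), (nat_lit 3287571), (nat_lit 0)]) (PF.cons (PF.leaf (nat_lit 3918016) (nat_lit 368743) (nat_lit 55985733) (nat_lit 2740950) [(nat_lit 368743), (nat_lit
 1377513), (nat_lit 3317936), (nat_lit 0)]) (PF.cons (PF.leaf (nat_lit 4189558) (nat_lit 379718) (nat_lit 55486769) (nat_lit 2768946) [(nat_lit 379718), (nat_lit 1398914), (nat_lit 3347372), (nat_lit 0)]) (PF.cons (PF.leaf (nat_lit 4471831) (nat_lit 389949) (nat_lit 54972442) (nat_lit 2795855) [(nat_lit 389949), (nat_lit 1419463), (nat_lit 3375601), (nat_lit 0)]) (PF.cons PF.nil PF.nil))))) (PF.cons (PF.cons (PF.leaf (nat_lit 4404083) (nat_lit 1420875) (nat_lit 54701730) (nat_lit 2801340) [(nat_lit 0), (nat_lit 1420875), (nat_lit 3381995), (nat_lit 0)]) (PF.cons (PF.leaf (nat_lit 4682402) (nat_lit 395860) (nat_lit 54193838) (nat_lit 2825471) [(nat_lit 395860), (nat_lit 1439701), (nat_lit 3407119), (nat_lit 0)]) (PF.cons PF.nil (PF.cons PF.nil PF.nil))))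 (PF.cons (PF.cons (PF.leaf (nat_lit 5177628) (nat_lit 1474565) (nat_lit 52900528) (nat_lit 2872432) [(nat_lit 0), (nat_lit 1474565), (nat_lit 3456078), (nat_lit 0)]) (PF.cons PF.nil PF.nil)) (PF.cons PF.nil PF.nil))))) (PF.cons (PF.cons (PF.cons (PF.leaf (nat_lit 4299901) (nat_lit 2794876) (nat_lit 54184257) (nat_lit 2794876) [(nat_lit 0), (nat_lit 0), (nat_lit 3376559), (nat_lit 0)]) (PF.cons (PF.leaf (nat_lit 4562575) (nat_lit
 386221) (nat_lit 53705490) (nat_lit 2817529) [(nat_lit 386221), (nat_lit 0), (nat_lit 3399857), (nat_lit 0)]) (PF.cons (PF.leaf (nat_lit 4837180) (nat_lit 396244) (nat_lit 53210415) (nat_lit 2839319) [(nat_lit 396244), (nat_lit 0), (nat_lit 3422196), (nat_lit 0)]) (PF.cons (PF.leaf (nat_lit 5121452) (nat_lit 405489) (nat_lit 52702192) (nat_lit 2860054) [(nat_lit 405489), (nat_lit 0), (nat_lit 3443365), (nat_lit 0)]) (PF.cons PF.nil PF.nil))))) (PF.cons (PF.cons (PF.leaf (nat_lit 5043195) (nat_lit 1463803) (nat_lit 52442988) (nat_lit 2862682)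 [(nat_lit 0), (nat_lit 1463803), (nat_lit 3446445), (nat_lit 0)]) (PF.cons (PF.leaf (nat_lit 5322759) (nat_lit 409917) (nat_lit 51943499) (nat_lit 2881072) [(nat_lit 409917), (nat_lit 1479299), (nat_lit 3465007), (nat_lit 0)]) (PF.cons PF.nil (PF.cons PF.nil PF.nil)))) (PF.cons (PF.cons (PF.leaf (nat_lit 5808097) (nat_lit 1506444) (nat_lit 50685279) (nat_lit 2914670) [(nat_lit 0), (nat_lit 1506444), (nat_lit 3498658), (nat_lit 0)]) (PF.cons PF.nil PF.nil)) PF.nil))) (PF.cons (PF.cons (PF.cons (PF.leaf (nat_lit 5659078) (nat_lit 2902565) (nat_lit 50261746) (nat_lit 2902565) [(nat_lit 0), (nat_lit 0), (nat_lit 3486125), (nat_lit 0)]) (PF.cons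
 (PF.leaf (nat_lit 5938064) (nat_lit 420602) (nat_lit 49775366) (nat_lit 2916114) [(nat_lit 420602), (nat_lit 0), (nat_lit 3499182), (nat_lit 0)]) (PF.cons PF.nil PF.nil))) (PF.cons (PF.cons (PF.leaf (nat_lit 6411716) (nat_lit 1527942) (nat_lit 48561378) (nat_lit 2938641) [(nat_lit 0), (nat_lit 1527942), (nat_lit 3520212), (nat_lit 0)]) PF.nil) PF.nil)) (PF.cons PF.nil (PF.cons PF.nil (PF.cons PF.nil PF.nil)))))))) (PF.cons (PF.cons (PF.cons (PF.cons (PF.leaf (nat_lit 2952499) (nat_lit 2539179) (nat_lit 55115074) (nat_lit 2539179) [(nat_lit 0), (nat_lit 0), (nat_lit 0), (nat_lit 9454559)]) (PF.cons (PF.leaf (nat_lit 3145914) (nat_lit 302130) (nat_lit 54767326) (nat_lit 2568884) [(nat_lit 302130), (nat_lit 0), (nat_lit 0), (nat_lit 9470471)]) (PF.cons (PF.leaf (nat_lit 3359447) (nat_lit 317721) (nat_lit 54388396) (nat_lit 2599063) [(nat_lit 317721), (nat_lit 0), (nat_lit 0), (nat_lit 9485910)]) (PF.cons (PF.leaf (nat_lit 3589014) (nat_lit 331850) (nat_lit 53983950)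 (nat_lit 2629034) [(nat_lit 331850), (nat_lit 0), (nat_lit 0), (nat_lit 9500275)]) (PF.cons (PF.leaf (nat_lit 3832460) (nat_lit 344797) (nat_lit 53558158) (nat_lit 2658347) [(nat_lit 344797), (nat_lit 0), (nat_lit 0),
 (nat_lit 9513117)]) (PF.cons (PF.leaf (nat_lit 4088085) (nat_lit 356746) (nat_lit 53114294) (nat_lit 2686695) [(nat_lit 356746), (nat_lit 0), (nat_lit 0), (nat_lit 9524090)]) (PF.cons (PF.leaf (nat_lit 4354492) (nat_lit 367827) (nat_lit 52655047) (nat_lit 2713864) [(nat_lit 367827), (nat_lit 0), (nat_lit 0), (nat_lit 9532934)]) (PF.cons (PF.leaf (nat_lit 4630541) (nat_lit 378136) (nat_lit 52182700) (nat_lit 2739709) [(nat_lit 378136), (nat_lit 0), (nat_lit 0), (nat_lit 9539448)]) (PF.cons (PF.leaf (nat_lit 4915101) (nat_lit 387745) (nat_lit 51699231) (nat_lit 2764129) [(nat_lit 387745), (nat_lit 0), (nat_lit 0), (nat_lit 9543488)]) (PF.cons PF.nil PF.nil)))))))))) (PF.cons (PF.cons (PF.leaf (nat_lit 3569405) (nat_lit 1295745) (nat_lit 53668397) (nat_lit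 2640315) [(nat_lit 0), (nat_lit 1295745), (nat_lit 0), (nat_lit 9504354)]) (PF.cons (PF.leaf (nat_lit 3794442) (nat_lit 339532) (nat_lit 53268860) (nat_lit 2666964) [(nat_lit 339532), (nat_lit 1318554), (nat_lit 0), (nat_lit 9514901)]) (PF.cons (PF.leaf (nat_lit 4034982) (nat_lit 352115) (nat_lit 52846784) (nat_lit 2693183) [(nat_lit 352115), (nat_lit 1340683), (nat_lit 0), (nat_lit 9523929)]) (PF.cons (PF.leaf (nat_lit 4288191)
 (nat_lit 363665) (nat_lit 52406147) (nat_lit 2718620) [(nat_lit 363665), (nat_lit 1361944), (nat_lit 0), (nat_lit 9531103)]) (PF.cons (PF.leaf (nat_lit 4552357) (nat_lit 374332) (nat_lit 51950038) (nat_lit 2743032) [(nat_lit 374332), (nat_lit 1382233), (nat_lit 0), (nat_lit 9536177)]) (PF.cons (PF.leaf (nat_lit 4826174) (nat_lit 384224) (nat_lit 51480970) (nat_lit 2766258) [(nat_lit 384224), (nat_lit 1401489), (nat_lit 0), (nat_lit 9538970)]) (PF.cons (PF.leaf (nat_lit 5108531) (nat_lit 393420) (nat_lit 51001061) (nat_lit 2788185) [(nat_lit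 393420), (nat_lit 1419684), (nat_lit 0), (nat_lit 9539356)]) (PF.cons PF.nil (PF.cons PF.nil PF.nil))))))))) (PF.cons (PF.cons (PF.leaf (nat_lit 4239522) (nat_lit 1363497) (nat_lit 52128200) (nat_lit 2724619) [(nat_lit 0), (nat_lit 1363497), (nat_lit 0), (nat_lit 9528998)]) (PF.cons (PF.leaf (nat_lit 4488422) (nat_lit 369724) (nat_lit 51693584) (nat_lit 2747289) [(nat_lit 369724), (nat_lit 1382823), (nat_lit 0), (nat_lit 9532565)]) (PF.cons (PF.leaf (nat_lit 4749467) (nat_lit 380069) (nat_lit 51242828) (nat_lit 2769098) [(nat_lit 380069), (nat_lit 1401334), (nat_lit 0), (nat_lit 9534077)]) (PF.cons (PF.leaf (nat_lit 5020425) (nat_lit 389616)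
 (nat_lit 50778856) (nat_lit 2789858) [(nat_lit 389616), (nat_lit 1418941), (nat_lit 0), (nat_lit 9533367)]) (PF.cons (PF.leaf (nat_lit 5300004) (nat_lit 398457) (nat_lit 50304030) (nat_lit 2809443) [(nat_lit 398457), (nat_lit 1435593), (nat_lit 0), (nat_lit 9530322)]) (PF.cons (PF.leaf (nat_lit 5587120) (nat_lit 406663) (nat_lit 49820319) (nat_lit 2827772) [(nat_lit 406663), (nat_lit 1451266), (nat_lit 0), (nat_lit 9524869)]) (PF.cons PF.nil PF.nil))))))) (PF.cons (PF.cons (PF.leaf (nat_lit 4946998) (nat_lit 1418658) (nat_lit 50533717) (nat_lit 2792280) [(nat_lit 0), (nat_lit 1418658), (nat_lit 0), (nat_lit 9526838)]) (PF.cons (PF.leaf (nat_lit 5213690) (nat_lit 394327) (nat_lit 50076792) (nat_lit 2810709) [(nat_lit 394327), (nat_lit 1434706), (nat_lit 0), (nat_lit 9522862)]) (PF.cons (PF.leaf (nat_lit 5489885) (nat_lit 402876) (nat_lit 49608629) (nat_lit 2828088) [(nat_lit 402876), (nat_lit 1449905), (nat_lit 0), (nat_lit 9516624)]) (PF.cons (PF.leaf (nat_lit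 5773774) (nat_lit 410776) (nat_lit 49131446) (nat_lit 2844323) [(nat_lit 410776), (nat_lit 1464216), (nat_lit 0), (nat_lit 9508063)]) (PF.cons PF.nil PF.nil))))) (PF.cons (PF.cons (PF.leaf (nat_lit 5679134) (nat_lit 1462734)
 (nat_lit 48915097) (nat_lit 2844293) [(nat_lit 0), (nat_lit 1462734), (nat_lit 0), (nat_lit 9498482)]) (PF.cons (PF.leaf (nat_lit 5958685) (nat_lit 414337) (nat_lit 48445821) (nat_lit 2858555) [(nat_lit 414337), (nat_lit 1475759), (nat_lit 0), (nat_lit 9487060)]) (PF.cons (PF.leaf (nat_lit 6245618) (nat_lit 421387) (nat_lit 47969125) (nat_lit 2871715) [(nat_lit 421387), (nat_lit 1487954), (nat_lit 0), (nat_lit 9473378)]) (PF.cons PF.nil PF.nil)))) (PF.cons (PF.cons (PF.leaf (nat_lit 6425597) (nat_lit 1497044) (nat_lit 47295707) (nat_lit 2882021) [(nat_lit 0), (nat_lit 1497044), (nat_lit 0), (nat_lit 9445862)]) (PF.cons PF.nil PF.nil)) (PF.cons PF.nil (PF.cons PF.nil PF.nil)))))))) (PF.cons (PF.cons (PF.cons (PF.leaf (nat_lit 4157789) (nat_lit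 2715879) (nat_lit 51594468) (nat_lit 2715879) [(nat_lit 0), (nat_lit 0), (nat_lit 3291346), (nat_lit 9507118)]) (PF.cons (PF.leaf (nat_lit 4388459) (nat_lit 356899) (nat_lit 51193726) (nat_lit 2737087) [(nat_lit 356899), (nat_lit 0), (nat_lit 3312377), (nat_lit 9508722)]) (PF.cons (PF.leaf (nat_lit 4633677) (nat_lit 368574) (nat_lit 50772468) (nat_lit 2757777) [(nat_lit 368574), (nat_lit 0), (nat_lit 3332871), (nat_lit 9508547)]) (PF.cons
 (PF.leaf (nat_lit 4890575) (nat_lit 379169) (nat_lit 50334710) (nat_lit 2777668) [(nat_lit 379169), (nat_lit 0), (nat_lit 3352530), (nat_lit 9506395)]) (PF.cons (PF.leaf (nat_lit 5157432) (nat_lit 388859) (nat_lit 49883524) (nat_lit 2796576) [(nat_lit 388859), (nat_lit 0), (nat_lit 3371148), (nat_lit 9502127)]) (PF.cons (PF.leaf (nat_lit 5432936) (nat_lit 397765) (nat_lit 49421370) (nat_lit 2814377) [(nat_lit 397765), (nat_lit 0), (nat_lit 3388588), (nat_lit 9495648)]) (PF.cons (PF.leaf (nat_lit 5715968) (nat_lit 405979) (nat_lit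 48950284) (nat_lit 2830992) [(nat_lit 405979), (nat_lit 0), (nat_lit 3404754), (nat_lit 9486901)]) (PF.cons PF.nil (PF.cons PF.nil PF.nil))))))))) (PF.cons (PF.cons (PF.leaf (nat_lit 4831961) (nat_lit 1405243) (nat_lit 50067966) (nat_lit 2780691) [(nat_lit 0), (nat_lit 1405243), (nat_lit 3355929), (nat_lit 9498981)]) (PF.cons (PF.leaf (nat_lit 5083752) (nat_lit 383726) (nat_lit 49638435) (nat_lit 2798263) [(nat_lit 383726), (nat_lit 1421411), (nat_lit 3373107), (nat_lit 9493867)]) (PF.cons (PF.leaf (nat_lit 5346742) (nat_lit 393173) (nat_lit 49194641) (nat_lit 2814989) [(nat_lit 393173), (nat_lit 1436783), (nat_lit 3389375), (nat_lit 9486676)]) (PF.cons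
 (PF.leaf (nat_lit 5618747) (nat_lit 401808) (nat_lit 48739458) (nat_lit 2830727) [(nat_lit 401808), (nat_lit 1451294), (nat_lit 3404576), (nat_lit 9477331)]) (PF.cons (PF.leaf (nat_lit 5898439) (nat_lit 409736) (nat_lit 48275171) (nat_lit 2845383) [(nat_lit 409736), (nat_lit 1464913), (nat_lit 3418608), (nat_lit 9465789)]) (PF.cons PF.nil (PF.cons PF.nil PF.nil))))))) (PF.cons (PF.cons (PF.leaf (nat_lit 5536363) (nat_lit 1449805) (nat_lit 48506383) (nat_lit 2831006) [(nat_lit 0), (nat_lit 1449805), (nat_lit 3404913), (nat_lit 9466899)]) (PF.cons (PF.leaf (nat_lit 5803515) (nat_lit 405253) (nat_lit 48059833) (nat_lit 2844796) [(nat_lit 405253), (nat_lit 1462994), (nat_lit 3418006), (nat_lit 9454933)]) (PF.cons (PF.leaf (nat_lit 6079306) (nat_lit 412954) (nat_lit 47603661) (nat_lit 2857610) [(nat_lit 412954), (nat_lit 1475383), (nat_lit 3430033), (nat_lit 9440831)]) (PF.cons (PF.leaf (nat_lit 6361970) (nat_lit 420009) (nat_lit 47139994) (nat_lit 2869380) [(nat_lit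 420009), (nat_lit 1486948), (nat_lit 3440922), (nat_lit 9424591)]) (PF.cons PF.nil PF.nil))))) (PF.cons (PF.cons (PF.leaf (nat_lit 6259536) (nat_lit 1484613) (nat_lit 46935768) (nat_lit 2867811) [(nat_lit 0), (nat_lit
 1484613), (nat_lit 3439178), (nat_lit 9412215)]) (PF.cons (PF.leaf (nat_lit 6537481) (nat_lit 422499) (nat_lit 46481097) (nat_lit 2877942) [(nat_lit 422499), (nat_lit 1495089), (nat_lit 3448279), (nat_lit 9393724)]) (PF.cons PF.nil (PF.cons PF.nil PF.nil)))) (PF.cons (PF.cons (PF.leaf (nat_lit 6992374) (nat_lit 1510882) (nat_lit 45375752) (nat_lit 2892381) [(nat_lit 0), (nat_lit 1510882), (nat_lit 3460025), (nat_lit 9337123)]) (PF.cons PF.nil PF.nil)) (PF.cons PF.nil PF.nil)))))) (PF.cons (PF.cons (PF.cons (PF.leaf (nat_lit 5407340) (nat_lit 2817423) (nat_lit 48075348) (nat_lit 2817423) [(nat_lit 0), (nat_lit 0), (nat_lit 3391066), (nat_lit 9433908)]) (PF.cons (PF.leaf (nat_lit 5660288) (nat_lit 394597) (nat_lit 47655049) (nat_lit 2830692) [(nat_lit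 394597), (nat_lit 0), (nat_lit 3403456), (nat_lit 9421560)]) (PF.cons (PF.leaf (nat_lit 5923599) (nat_lit 403232) (nat_lit 47222121) (nat_lit 2843140) [(nat_lit 403232), (nat_lit 0), (nat_lit 3414957), (nat_lit 9407172)]) (PF.cons (PF.leaf (nat_lit 6195087) (nat_lit 411050) (nat_lit 46779352) (nat_lit 2854659) [(nat_lit 411050), (nat_lit 0), (nat_lit 3425455), (nat_lit 9390740)]) (PF.cons (PF.leaf (nat_lit 6473497) (nat_lit 418166)
 (nat_lit 46328929) (nat_lit 2865185) [(nat_lit 418166), (nat_lit 0), (nat_lit 3434878), (nat_lit 9372274)]) (PF.cons PF.nil (PF.cons PF.nil PF.nil))))))) (PF.cons (PF.cons (PF.leaf (nat_lit 6104904) (nat_lit 1471336) (nat_lit 46559050) (nat_lit 2853276) [(nat_lit 0), (nat_lit 1471336), (nat_lit 3423886), (nat_lit 9377376)]) (PF.cons (PF.leaf (nat_lit 6371159) (nat_lit 413430) (nat_lit 46125954) (nat_lit 2863173) [(nat_lit 413430), (nat_lit 1482081), (nat_lit 3432636), (nat_lit 9358899)]) (PF.cons (PF.leaf (nat_lit 6645299) (nat_lit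 420374) (nat_lit 45684587) (nat_lit 2872166) [(nat_lit 420374), (nat_lit 1492073), (nat_lit 3440400), (nat_lit 9338434)]) (PF.cons PF.nil (PF.cons PF.nil PF.nil))))) (PF.cons (PF.cons (PF.leaf (nat_lit 6816513) (nat_lit 1498321) (nat_lit 45045026) (nat_lit 2877463) [(nat_lit 0), (nat_lit 1498321), (nat_lit 3444031), (nat_lit 9301616)]) (PF.cons (PF.leaf (nat_lit 7091844) (nat_lit 428276) (nat_lit 44607069) (nat_lit 2884147) [(nat_lit 428276), (nat_lit 1506630), (nat_lit 3449287), (nat_lit 9277482)]) (PF.cons PF.nil (PF.cons PF.nil PF.nil)))) (PF.cons (PF.cons (PF.leaf (nat_lit 7534102) (nat_lit 1517836) (nat_lit 43549758) (nat_lit 2891176) [(nat_lit 0),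
 (nat_lit 1517836), (nat_lit 3452738), (nat_lit 9208891)]) (PF.cons PF.nil PF.nil)) (PF.cons PF.nil PF.nil))))) (PF.cons (PF.cons (PF.cons (PF.leaf (nat_lit 6651951) (nat_lit 2862182) (nat_lit 44698562) (nat_lit 2862182) [(nat_lit 0), (nat_lit 0), (nat_lit 3427734), (nat_lit 9264863)]) (PF.cons (PF.leaf (nat_lit 6916248) (nat_lit 419300) (nat_lit 44280932) (nat_lit 2868817) [(nat_lit 419300), (nat_lit 0), (nat_lit 3432864), (nat_lit 9241167)]) (PF.cons (PF.leaf (nat_lit 7187782) (nat_lit 425573) (nat_lit 43856160) (nat_lit 2874617) [(nat_lit 425573), (nat_lit 0), (nat_lit 3437084), (nat_lit 9215635)]) (PF.cons PF.nil PF.nil)))) (PF.cons (PF.cons (PF.leaf (nat_lit 7350180) (nat_lit 1505326) (nat_lit 43246307) (nat_lit 2875920) [(nat_lit 0), (nat_lit 1505326), (nat_lit 3436247), (nat_lit 9172516)]) (PF.cons (PF.leaf (nat_lit 7622143) (nat_lit 432063) (nat_lit 42826295) (nat_lit 2879736) [(nat_lit 432063), (nat_lit 1511795), (nat_lit 3438322), (nat_lit 9143952)])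 PF.nil)) (PF.cons PF.nil PF.nil))) (PF.cons (PF.cons (PF.cons (PF.leaf (nat_lit 7861081) (nat_lit 2865381) (nat_lit 41540245) (nat_lit 2865381) [(nat_lit 0), (nat_lit 0), (nat_lit 3418371), (nat_lit 9029702)]) (PF.cons PF.nil
 PF.nil)) (PF.cons PF.nil PF.nil)) (PF.cons PF.nil PF.nil)))))) (PF.cons (PF.cons (PF.cons (PF.cons (PF.leaf (nat_lit 5188143) (nat_lit 2724862) (nat_lit 45974853) (nat_lit 2724862) [(nat_lit 0), (nat_lit 0), (nat_lit 0), (nat_lit 9204548)]) (PF.cons (PF.leaf (nat_lit 5412531) (nat_lit 363758) (nat_lit 45622242) (nat_lit 2738580) [(nat_lit 363758), (nat_lit 0), (nat_lit 0), (nat_lit 9192115)]) (PF.cons (PF.leaf (nat_lit 5650050) (nat_lit 374314) (nat_lit 45252852) (nat_lit 2751662) [(nat_lit 374314), (nat_lit 0), (nat_lit 0), (nat_lit 9177834)]) (PF.cons (PF.leaf (nat_lit 5897834) (nat_lit 383725) (nat_lit 44870270) (nat_lit 2763935) [(nat_lit 383725), (nat_lit 0), (nat_lit 0), (nat_lit 9161715)]) (PF.cons (PF.leaf (nat_lit 6154266) (nat_lit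 392191) (nat_lit 44477208) (nat_lit 2775293) [(nat_lit 392191), (nat_lit 0), (nat_lit 0), (nat_lit 9143772)]) (PF.cons (PF.leaf (nat_lit 6418057) (nat_lit 399854) (nat_lit 44075810) (nat_lit 2785674) [(nat_lit 399854), (nat_lit 0), (nat_lit 0), (nat_lit 9124028)]) (PF.cons (PF.leaf (nat_lit 6688142) (nat_lit 406819) (nat_lit 43667822) (nat_lit 2795043) [(nat_lit 406819), (nat_lit 0), (nat_lit 0), (nat_lit 9102513)]) (PF.cons PF.nil (PF.cons
 PF.nil PF.nil))))))))) (PF.cons (PF.cons (PF.leaf (nat_lit 5828558) (nat_lit 1409034) (nat_lit 44642578) (nat_lit 2763022) [(nat_lit 0), (nat_lit 1409034), (nat_lit 0), (nat_lit 9147088)]) (PF.cons (PF.leaf (nat_lit 6070698) (nat_lit 386469) (nat_lit 44268841) (nat_lit 2773589) [(nat_lit 386469), (nat_lit 1421196), (nat_lit 0), (nat_lit 9129357)]) (PF.cons (PF.leaf (nat_lit 6322736) (nat_lit 394761) (nat_lit 43883777) (nat_lit 2783355) [(nat_lit 394761), (nat_lit 1432556), (nat_lit 0), (nat_lit 9109799)]) (PF.cons (PF.leaf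 (nat_lit 6582544) (nat_lit 402222) (nat_lit 43489885) (nat_lit 2792242) [(nat_lit 402222), (nat_lit 1443092), (nat_lit 0), (nat_lit 9088462)]) (PF.cons (PF.leaf (nat_lit 6848888) (nat_lit 408972) (nat_lit 43089128) (nat_lit 2800205) [(nat_lit 408972), (nat_lit 1452803), (nat_lit 0), (nat_lit 9065391)]) (PF.cons (PF.leaf (nat_lit 7120827) (nat_lit 415101) (nat_lit 42683098) (nat_lit 2807224) [(nat_lit 415101), (nat_lit 1461702), (nat_lit 0), (nat_lit 9040639)]) (PF.cons PF.nil PF.nil))))))) (PF.cons (PF.cons (PF.leaf (nat_lit 6491528) (nat_lit 1440015) (nat_lit 43292804) (nat_lit 2789717) [(nat_lit 0), (nat_lit 1440015), (nat_lit 0), (nat_lit 9073130)]) (PF.cons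
 (PF.leaf (nat_lit 6746173) (nat_lit 404099) (nat_lit 42907642) (nat_lit 2797212) [(nat_lit 404099), (nat_lit 1449524), (nat_lit 0), (nat_lit 9050404)]) (PF.cons (PF.leaf (nat_lit 7008361) (nat_lit 410691) (nat_lit 42515053) (nat_lit 2803868) [(nat_lit 410691), (nat_lit 1458289), (nat_lit 0), (nat_lit 9025964)]) (PF.cons (PF.leaf (nat_lit 7276380) (nat_lit 416644) (nat_lit 42116845) (nat_lit 2809654) [(nat_lit 416644), (nat_lit 1466311), (nat_lit 0), (nat_lit 8999877)]) (PF.cons PF.nil PF.nil))))) (PF.cons (PF.cons (PF.leaf (nat_lit 7167479) (nat_lit 1462870) (nat_lit 41945398) (nat_lit 2806128) [(nat_lit 0), (nat_lit 1462870), (nat_lit 0), (nat_lit 8984337)]) (PF.cons (PF.leaf (nat_lit 7430681) (nat_lit 417802) (nat_lit 41555831) (nat_lit 2810770) [(nat_lit 417802), (nat_lit 1470072), (nat_lit 0), (nat_lit 8957096)]) (PF.cons (PF.leaf (nat_lit 7699595) (nat_lit 423054) (nat_lit 41161703) (nat_lit 2814597) [(nat_lit 423054), (nat_lit 1476597), (nat_lit 0), (nat_lit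 8928305)]) (PF.cons PF.nil PF.nil)))) (PF.cons (PF.cons (PF.leaf (nat_lit 7849089) (nat_lit 1478853) (nat_lit 40614627) (nat_lit 2813479) [(nat_lit 0), (nat_lit 1478853), (nat_lit 0), (nat_lit 8882645)]) (PF.cons PF.nil
 PF.nil)) (PF.cons PF.nil PF.nil)))))) (PF.cons (PF.cons (PF.cons (PF.leaf (nat_lit 6348084) (nat_lit 2773289) (nat_lit 42938175) (nat_lit 2773289) [(nat_lit 0), (nat_lit 0), (nat_lit 3327912), (nat_lit 9034718)]) (PF.cons (PF.leaf (nat_lit 6589827) (nat_lit 393205) (nat_lit 42575615) (nat_lit 2780789) [(nat_lit 393205), (nat_lit 0), (nat_lit 3333759), (nat_lit 9012721)]) (PF.cons (PF.leaf (nat_lit 6840845) (nat_lit 400803) (nat_lit 42202940) (nat_lit 2787531) [(nat_lit 400803), (nat_lit 0), (nat_lit 3338800), (nat_lit 8988966)]) (PF.cons (PF.leaf (nat_lit 7098999) (nat_lit 407581) (nat_lit 41822544) (nat_lit 2793462) [(nat_lit 407581), (nat_lit 0), (nat_lit 3342980), (nat_lit 8963540)]) (PF.cons (PF.leaf (nat_lit 7363105) (nat_lit 413665) (nat_lit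 41436287) (nat_lit 2798553) [(nat_lit 413665), (nat_lit 0), (nat_lit 3346270), (nat_lit 8936518)]) (PF.cons PF.nil (PF.cons PF.nil PF.nil))))))) (PF.cons (PF.cons (PF.leaf (nat_lit 7002135) (nat_lit 1448870) (nat_lit 41637240) (nat_lit 2789975) [(nat_lit 0), (nat_lit 1448870), (nat_lit 3339009), (nat_lit 8946858)]) (PF.cons (PF.leaf (nat_lit 7254896) (nat_lit 408676) (nat_lit 41266004) (nat_lit 2794758) [(nat_lit 408676), (nat_lit
 1456540), (nat_lit 3341992), (nat_lit 8920419)]) (PF.cons (PF.leaf (nat_lit 7514638) (nat_lit 414650) (nat_lit 40888288) (nat_lit 2798770) [(nat_lit 414650), (nat_lit 1463519), (nat_lit 3344149), (nat_lit 8892391)]) (PF.cons (PF.leaf (nat_lit 7779691) (nat_lit 420003) (nat_lit 40505800) (nat_lit 2801995) [(nat_lit 420003), (nat_lit 1469816), (nat_lit 3345465), (nat_lit 8862862)]) (PF.cons PF.nil PF.nil))))) (PF.cons (PF.cons (PF.leaf (nat_lit 7665962) (nat_lit 1466035) (nat_lit 40345188) (nat_lit 2797825) [(nat_lit 0), (nat_lit 1466035),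 (nat_lit 3340747), (nat_lit 8846490)]) (PF.cons (PF.leaf (nat_lit 7926052) (nat_lit 420518) (nat_lit 39971536) (nat_lit 2800109) [(nat_lit 420518), (nat_lit 1471644), (nat_lit 3341074), (nat_lit 8816142)]) (PF.cons PF.nil (PF.cons PF.nil PF.nil)))) (PF.cons (PF.cons (PF.leaf (nat_lit 8333012) (nat_lit 1477202) (nat_lit 39074056) (nat_lit 2797931) [(nat_lit 0), (nat_lit 1477202), (nat_lit 3334232), (nat_lit 8735491)]) (PF.cons PF.nil PF.nil)) (PF.cons PF.nil PF.nil))))) (PF.cons (PF.cons (PF.cons (PF.leaf (nat_lit 7493796) (nat_lit 2781723) (nat_lit 40062159) (nat_lit 2781723) [(nat_lit 0), (nat_lit 0), (nat_lit 3323442), (nat_lit 8809021)])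
 (PF.cons (PF.leaf (nat_lit 7744043) (nat_lit 411630) (nat_lit 39705624) (nat_lit 2784242) [(nat_lit 411630), (nat_lit 0), (nat_lit 3323976), (nat_lit 8779681)]) (PF.cons (PF.leaf (nat_lit 8000754) (nat_lit 417057) (nat_lit 39343402) (nat_lit 2786053) [(nat_lit 417057), (nat_lit 0), (nat_lit 3323749), (nat_lit 8748871)]) (PF.cons PF.nil PF.nil)))) (PF.cons (PF.cons (PF.leaf (nat_lit 8144580) (nat_lit 1464754) (nat_lit 38826854) (nat_lit 2782514) [(nat_lit 0), (nat_lit 1464754), (nat_lit 3317510), (nat_lit 8699834)]) (PF.cons (PF.leaf (nat_lit 8401130) (nat_lit 421859) (nat_lit 38469409) (nat_lit 2782841) [(nat_lit 421859), (nat_lit 1469012), (nat_lit 3315720), (nat_lit 8667125)]) PF.nil)) (PF.cons PF.nil PF.nil))) (PF.cons (PF.cons (PF.cons (PF.leaf (nat_lit 8604054) (nat_lit 2761618) (nat_lit 37388432) (nat_lit 2761618) [(nat_lit 0), (nat_lit 0), (nat_lit 3288159), (nat_lit 8547141)]) (PF.cons PF.nil PF.nil)) (PF.cons PF.nil PF.nil)) (PF.cons PF.nil PF.nil)))))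 (PF.cons (PF.cons (PF.cons (PF.cons (PF.leaf (nat_lit 7161778) (nat_lit 2696173) (nat_lit 38638477) (nat_lit 2696173) [(nat_lit 0), (nat_lit 0), (nat_lit 0), (nat_lit 8591387)]) (PF.cons (PF.leaf (nat_lit 7392350) (nat_lit
 386558) (nat_lit 38326953) (nat_lit 2700064) [(nat_lit 386558), (nat_lit 0), (nat_lit 0), (nat_lit 8565078)]) (PF.cons (PF.leaf (nat_lit 7631347) (nat_lit 393358) (nat_lit 38007108) (nat_lit 2703264) [(nat_lit 393358), (nat_lit 0), (nat_lit 0), (nat_lit 8537241)]) (PF.cons (PF.leaf (nat_lit 7876691) (nat_lit 399354) (nat_lit 37680982) (nat_lit 2705751) [(nat_lit 399354), (nat_lit 0), (nat_lit 0), (nat_lit 8508005)]) (PF.cons (PF.leaf (nat_lit 8127311) (nat_lit 404675) (nat_lit 37350153) (nat_lit 2707520) [(nat_lit 404675), (nat_lit 0), (nat_lit 0), (nat_lit 8477479)]) PF.nil))))) (PF.cons (PF.cons (PF.leaf (nat_lit 7776424) (nat_lit 1411297) (nat_lit 37525071) (nat_lit 2701212) [(nat_lit 0), (nat_lit 1411297), (nat_lit 0), (nat_lit 8490410)])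 (PF.cons (PF.leaf (nat_lit 8016429) (nat_lit 399628) (nat_lit 37207127) (nat_lit 2702869) [(nat_lit 399628), (nat_lit 1416921), (nat_lit 0), (nat_lit 8460755)]) (PF.cons (PF.leaf (nat_lit 8262756) (nat_lit 404883) (nat_lit 36883897) (nat_lit 2703860) [(nat_lit 404883), (nat_lit 1421914), (nat_lit 0), (nat_lit 8429790)]) (PF.cons PF.nil PF.nil)))) (PF.cons (PF.cons (PF.leaf (nat_lit 8398322) (nat_lit 1422158) (nat_lit 36422039) (nat_lit
 2699377) [(nat_lit 0), (nat_lit 1422158), (nat_lit 0), (nat_lit 8381026)]) (PF.cons (PF.leaf (nat_lit 8644483) (nat_lit 409383) (nat_lit 36102707) (nat_lit 2699037) [(nat_lit 409383), (nat_lit 1426010), (nat_lit 0), (nat_lit 8348554)]) PF.nil)) (PF.cons PF.nil (PF.cons PF.nil PF.nil))))) (PF.cons (PF.cons (PF.cons (PF.leaf (nat_lit 8223325) (nat_lit 2683572) (nat_lit 36189540) (nat_lit 2683572) [(nat_lit 0), (nat_lit 0), (nat_lit 3199678), (nat_lit 8345340)]) (PF.cons (PF.leaf (nat_lit 8460614) (nat_lit 400786) (nat_lit 35884550)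 (nat_lit 2683613) [(nat_lit 400786), (nat_lit 0), (nat_lit 3197537), (nat_lit 8314108)]) (PF.cons (PF.leaf (nat_lit 8703857) (nat_lit 405585) (nat_lit 35574858) (nat_lit 2683043) [(nat_lit 405585), (nat_lit 0), (nat_lit 3194749), (nat_lit 8281663)]) (PF.cons PF.nil PF.nil)))) (PF.cons (PF.cons (PF.leaf (nat_lit 8833028) (nat_lit 1416148) (nat_lit 35135666) (nat_lit 2676837) [(nat_lit 0), (nat_lit 1416148), (nat_lit 3185644), (nat_lit 8231505)]) (PF.cons PF.nil PF.nil)) (PF.cons PF.nil PF.nil))) (PF.cons (PF.cons (PF.cons (PF.leaf (nat_lit 9251534) (nat_lit 2650779) (nat_lit 33916172) (nat_lit 2650779) [(nat_lit 0), (nat_lit 0), (nat_lit 3150863), (nat_lit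
 8080044)]) (PF.cons PF.nil PF.nil)) (PF.cons PF.nil PF.nil)) PF.nil))) (PF.cons (PF.cons (PF.cons (PF.cons (PF.leaf (nat_lit 8867547) (nat_lit 2579476) (nat_lit 32933142) (nat_lit 2579476) [(nat_lit 0), (nat_lit 0), (nat_lit 0), (nat_lit 7899048)]) (PF.cons (PF.leaf (nat_lit 9093094) (nat_lit 388516) (nat_lit 32670821) (nat_lit 2578020) [(nat_lit 388516), (nat_lit 0), (nat_lit 0), (nat_lit 7867863)]) (PF.cons PF.nil PF.nil))) (PF.cons (PF.cons (PF.leaf (nat_lit 9441568) (nat_lit 1364787) (nat_lit 32028632) (nat_lit 2568414) [(nat_lit 0), (nat_lit 1364787), (nat_lit 0), (nat_lit 7786744)]) PF.nil) PF.nil)) (PF.cons PF.nil PF.nil)) (PF.cons PF.nil (PF.cons PF.nil (PF.cons PF.nil (PF.cons PF.nil PF.nil)))))))))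

def p14_11_0_0 : pfC (piC [(nat_lit 40745421), (nat_lit 26310893), (nat_lit 19519284), (nat_lit 13130440)] (nat_lit 25010362)) p14_11_0 (nat_lit 4) (nat_lit 0) (nat_lit 1) = true := by decide +kernel
def p14_11_0_1 : pfC (piC [(nat_lit 40745421), (nat_lit 26310893), (nat_lit 19519284), (nat_lit 13130440)] (nat_lit 25010362)) p14_11_0 (nat_lit 4) (nat_lit 1) (nat_lit 2) = true := by decide +kernel
def p14_11_0_2 : pfC (piC [(nat_lit 40745421), (nat_lit 26310893), (nat_lit 19519284), (nat_lit 13130440)] (nat_lit 25010362)) p14_11_0 (nat_lit 4) (nat_lit 2) (nat_lit 3) = true := by decide +kernel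
def p14_11_0_3 : pfC (piC [(nat_lit 40745421), (nat_lit 26310893), (nat_lit 19519284), (nat_lit 13130440)] (nat_lit 25010362)) p14_11_0 (nat_lit 4) (nat_lit 3) (nat_lit 4) = true := by decide +kernel
def p14_11_0_4 : pfC (piC [(nat_lit 40745421), (nat_lit 26310893), (nat_lit 19519284), (nat_lit 13130440)] (nat_lit 25010362)) p14_11_0 (nat_lit 4) (nat_lit 4) (nat_lit 5) = true := by decide +kernel
def p14_11_0_5 : pfC (piC [(nat_lit 40745421), (nat_lit 26310893), (nat_lit 19519284), (nat_lit 13130440)] (nat_lit 25010362)) p14_11_0 (nat_lit 4) (nat_lit 5) (nat_lit 6) = true := by decide +kernel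
def p14_11_0_6 : pfC (piC [(nat_lit 40745421), (nat_lit 26310893), (nat_lit 19519284), (nat_lit 13130440)] (nat_lit 25010362)) p14_11_0 (nat_lit 4) (nat_lit 6) (nat_lit 7) = true := by decide +kernel
def p14_11_0_7 : pfC (piC [(nat_lit 40745421), (nat_lit 26310893), (nat_lit 19519284), (nat_lit 13130440)] (nat_lit 25010362)) p14_11_0 (nat_lit 4) (nat_lit 7) (nat_lit 8) = true := by decide +kernel
def p14_11_0_8 : pfC (piC [(nat_lit 40745421), (nat_lit 26310893), (nat_lit 19519284), (nat_lit 13130440)] (nat_lit 25010362)) p14_11_0 (nat_lit 4) (nat_lit 8) (nat_lit 9) = true := by decide +kernel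
def p14_11_0_9 : pfC (piC [(nat_lit 40745421), (nat_lit 26310893), (nat_lit 19519284), (nat_lit 13130440)] (nat_lit 25010362)) p14_11_0 (nat_lit 4) (nat_lit 9) (nat_lit 10) = true := by decide +kernel
def p14_11_0_10 : pfC (piC [(nat_lit 40745421), (nat_lit 26310893), (nat_lit 19519284), (nat_lit 13130440)] (nat_lit 25010362)) p14_11_0 (nat_lit 4) (nat_lit 10) (nat_lit 11) = true := by decide +kernel
def p14_11_0_11 : pfC (piC [(nat_lit 40745421), (nat_lit 26310893), (nat_lit 19519284), (nat_lit 13130440)] (nat_lit 25010362)) p14_11_0 (nat_lit 4) (nat_lit 11) (nat_lit 12) = true := by decide +kernel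
def p14_11_0_12 : pfC (piC [(nat_lit 40745421), (nat_lit 26310893), (nat_lit 19519284), (nat_lit 13130440)] (nat_lit 25010362)) p14_11_0 (nat_lit 4) (nat_lit 12) (nat_lit 13) = true := by decide +kernel
def p14_11_0_13 : pfC (piC [(nat_lit 40745421), (nat_lit 26310893), (nat_lit 19519284), (nat_lit 13130440)] (nat_lit 25010362)) p14_11_0 (nat_lit 4) (nat_lit 13) (nat_lit 14) = true := by decide +kernel
def p14_11_0_14 : pfC (piC [(nat_lit 40745421), (nat_lit 26310893), (nat_lit 19519284), (nat_lit 13130440)] (nat_lit 25010362)) p14_11_0 (nat_lit 4) (nat_lit 14) (nat_lit 15) = true := by decide +kernel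
def p14_11_0_15 : pfC (piC [(nat_lit 40745421), (nat_lit 26310893), (nat_lit 19519284), (nat_lit 13130440)] (nat_lit 25010362)) p14_11_0 (nat_lit 4) (nat_lit 15) (nat_lit 16) = true := by decide +kernel
def p14_11_0_16 : pfC (piC [(nat_lit 40745421), (nat_lit 26310893), (nat_lit 19519284), (nat_lit 13130440)] (nat_lit 25010362)) p14_11_0 (nat_lit 4) (nat_lit 16) (nat_lit 17) = true := by decide +kernel
def p14_11_0_17 : pfC (piC [(nat_lit 40745421), (nat_lit 26310893), (nat_lit 19519284), (nat_lit 13130440)] (nat_lit 25010362)) p14_11_0 (nat_lit 4) (nat_lit 17) (nat_lit 18) = true := by decide +kernel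
def p14_11_0_18 : pfC (piC [(nat_lit 40745421), (nat_lit 26310893), (nat_lit 19519284), (nat_lit 13130440)] (nat_lit 25010362)) p14_11_0 (nat_lit 4) (nat_lit 18) (nat_lit 19) = true := by decide +kernel
def p14_11_0_19 : pfC (piC [(nat_lit 40745421), (nat_lit 26310893), (nat_lit 19519284), (nat_lit 13130440)] (nat_lit 25010362)) p14_11_0 (nat_lit 4) (nat_lit 19) (nat_lit 20) = true := by decide +kernel
def p14_11_0_20 : pfC (piC [(nat_lit 40745421), (nat_lit 26310893), (nat_lit 19519284), (nat_lit 13130440)] (nat_lit 25010362)) p14_11_0 (nat_lit 4) (nat_lit 20) (nat_lit 21) = true := by decide +kernel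
def p14_11_0_21 : pfC (piC [(nat_lit 40745421), (nat_lit 26310893), (nat_lit 19519284), (nat_lit 13130440)] (nat_lit 25010362)) p14_11_0 (nat_lit 4) (nat_lit 21) (nat_lit 22) = true := by decide +kernel
def p14_11_0_22 : pfC (piC [(nat_lit 40745421), (nat_lit 26310893), (nat_lit 19519284), (nat_lit 13130440)] (nat_lit 25010362)) p14_11_0 (nat_lit 4) (nat_lit 22) (nat_lit 23) = true := by decide +kernel
def p14_11_0_23 : pfC (piC [(nat_lit 40745421), (nat_lit 26310893), (nat_lit 19519284), (nat_lit 13130440)] (nat_lit 25010362)) p14_11_0 (nat_lit 4) (nat_lit 23) (nat_lit 24) = true := by decide +kernel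
def p14_11_0_24 : pfC (piC [(nat_lit 40745421), (nat_lit 26310893), (nat_lit 19519284), (nat_lit 13130440)] (nat_lit 25010362)) p14_11_0 (nat_lit 4) (nat_lit 24) (nat_lit 25) = true := by decide +kernel
def p14_11_0_25 : pfC (piC [(nat_lit 40745421), (nat_lit 26310893), (nat_lit 19519284), (nat_lit 13130440)] (nat_lit 25010362)) p14_11_0 (nat_lit 4) (nat_lit 25) (nat_lit 26) = true := by decide +kernel
def p14_11_0_26 : pfC (piC [(nat_lit 40745421), (nat_lit 26310893), (nat_lit 19519284), (nat_lit 13130440)] (nat_lit 25010362)) p14_11_0 (nat_lit 4) (nat_lit 26) (nat_lit 27) = true := by decide +kernel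
def p14_11_0_27 : pfC (piC [(nat_lit 40745421), (nat_lit 26310893), (nat_lit 19519284), (nat_lit 13130440)] (nat_lit 25010362)) p14_11_0 (nat_lit 4) (nat_lit 27) (nat_lit 28) = true := by decide +kernel
def p14_11_0_28 : pfC (piC [(nat_lit 40745421), (nat_lit 26310893), (nat_lit 19519284), (nat_lit 13130440)] (nat_lit 25010362)) p14_11_0 (nat_lit 4) (nat_lit 28) (nat_lit 29) = true := by decide +kernel
def p14_11_0_29 : pfC (piC [(nat_lit 40745421), (nat_lit 26310893), (nat_lit 19519284), (nat_lit 13130440)] (nat_lit 25010362)) p14_11_0 (nat_lit 4) (nat_lit 29) (nat_lit 30) = true := by decide +kernel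
def p14_11_0_30 : pfC (piC [(nat_lit 40745421), (nat_lit 26310893), (nat_lit 19519284), (nat_lit 13130440)] (nat_lit 25010362)) p14_11_0 (nat_lit 4) (nat_lit 30) (nat_lit 31) = true := by decide +kernel
def p14_11_0_31 : pfC (piC [(nat_lit 40745421), (nat_lit 26310893), (nat_lit 19519284), (nat_lit 13130440)] (nat_lit 25010362)) p14_11_0 (nat_lit 4) (nat_lit 31) (nat_lit 32) = true := by decide +kernel
def p14_11_0_32 : pfC (piC [(nat_lit 40745421), (nat_lit 26310893), (nat_lit 19519284), (nat_lit 13130440)] (nat_lit 25010362)) p14_11_0 (nat_lit 4) (nat_lit 32) (nat_lit 33) = true := by decide +kernel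
def p14_11_0_33 : pfC (piC [(nat_lit 40745421), (nat_lit 26310893), (nat_lit 19519284), (nat_lit 13130440)] (nat_lit 25010362)) p14_11_0 (nat_lit 4) (nat_lit 33) (nat_lit 34) = true := by decide +kernel
def p14_11_0_34 : pfC (piC [(nat_lit 40745421), (nat_lit 26310893), (nat_lit 19519284), (nat_lit 13130440)] (nat_lit 25010362)) p14_11_0 (nat_lit 4) (nat_lit 34) (nat_lit 35) = true := by decide +kernel
def p14_11_0_35 : pfC (piC [(nat_lit 40745421), (nat_lit 26310893), (nat_lit 19519284), (nat_lit 13130440)] (nat_lit 25010362)) p14_11_0 (nat_lit 4) (nat_lit 35) (nat_lit 36) = true := by decide +kernel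
def p14_11_0_36 : pfC (piC [(nat_lit 40745421), (nat_lit 26310893), (nat_lit 19519284), (nat_lit 13130440)] (nat_lit 25010362)) p14_11_0 (nat_lit 4) (nat_lit 36) (nat_lit 37) = true := by decide +kernel
def p14_11_0_37 : pfC (piC [(nat_lit 40745421), (nat_lit 26310893), (nat_lit 19519284), (nat_lit 13130440)] (nat_lit 25010362)) p14_11_0 (nat_lit 4) (nat_lit 37) (nat_lit 38) = true := by decide +kernel
def p14_11_0_38 : pfC (piC [(nat_lit 40745421), (nat_lit 26310893), (nat_lit 19519284), (nat_lit 13130440)] (nat_lit 25010362)) p14_11_0 (nat_lit 4) (nat_lit 38) (nat_lit 39) = true := by decide +kernel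
def p14_11_0_39 : pfC (piC [(nat_lit 40745421), (nat_lit 26310893), (nat_lit 19519284), (nat_lit 13130440)] (nat_lit 25010362)) p14_11_0 (nat_lit 4) (nat_lit 39) (nat_lit 40) = true := by decide +kernel
def p14_11_0_40 : pfC (piC [(nat_lit 40745421), (nat_lit 26310893), (nat_lit 19519284), (nat_lit 13130440)] (nat_lit 25010362)) p14_11_0 (nat_lit 4) (nat_lit 40) (nat_lit 41) = true := by decide +kernel
def p14_11_0_41 : pfC (piC [(nat_lit 40745421), (nat_lit 26310893), (nat_lit 19519284), (nat_lit 13130440)] (nat_lit 25010362)) p14_11_0 (nat_lit 4) (nat_lit 41) (nat_lit 42) = true := by decide +kernel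
def p14_11_0_42 : pfC (piC [(nat_lit 40745421), (nat_lit 26310893), (nat_lit 19519284), (nat_lit 13130440)] (nat_lit 25010362)) p14_11_0 (nat_lit 4) (nat_lit 42) (nat_lit 43) = true := by decide +kernel
def p14_11_0_43 : pfC (piC [(nat_lit 40745421), (nat_lit 26310893), (nat_lit 19519284), (nat_lit 13130440)] (nat_lit 25010362)) p14_11_0 (nat_lit 4) (nat_lit 43) (nat_lit 44) = true := by decide +kernel
def p14_11_0_44 : pfC (piC [(nat_lit 40745421), (nat_lit 26310893), (nat_lit 19519284), (nat_lit 13130440)] (nat_lit 25010362)) p14_11_0 (nat_lit 4) (nat_lit 44) (nat_lit 45) = true := by decide +kernel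
def p14_11_0_45 : pfC (piC [(nat_lit 40745421), (nat_lit 26310893), (nat_lit 19519284), (nat_lit 13130440)] (nat_lit 25010362)) p14_11_0 (nat_lit 4) (nat_lit 45) (nat_lit 46) = true := by decide +kernel
def p14_11_0_46 : pfC (piC [(nat_lit 40745421), (nat_lit 26310893), (nat_lit 19519284), (nat_lit 13130440)] (nat_lit 25010362)) p14_11_0 (nat_lit 4) (nat_lit 46) (nat_lit 47) = true := by decide +kernel
def p14_11_0_47 : pfC (piC [(nat_lit 40745421), (nat_lit 26310893), (nat_lit 19519284), (nat_lit 13130440)] (nat_lit 25010362)) p14_11_0 (nat_lit 4) (nat_lit 47) (nat_lit 48) = true := by decide +kernel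
def p14_11_0_48 : pfC (piC [(nat_lit 40745421), (nat_lit 26310893), (nat_lit 19519284), (nat_lit 13130440)] (nat_lit 25010362)) p14_11_0 (nat_lit 4) (nat_lit 48) (nat_lit 49) = true := by decide +kernel
def p14_11_0_49 : pfC (piC [(nat_lit 40745421), (nat_lit 26310893), (nat_lit 19519284), (nat_lit 13130440)] (nat_lit 25010362)) p14_11_0 (nat_lit 4) (nat_lit 49) (nat_lit 50) = true := by decide +kernel
def p14_11_0_50 : pfC (piC [(nat_lit 40745421), (nat_lit 26310893), (nat_lit 19519284), (nat_lit 13130440)] (nat_lit 25010362)) p14_11_0 (nat_lit 4) (nat_lit 50) (nat_lit 51) = true := by decide +kernel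
def p14_11_0_51 : pfC (piC [(nat_lit 40745421), (nat_lit 26310893), (nat_lit 19519284), (nat_lit 13130440)] (nat_lit 25010362)) p14_11_0 (nat_lit 4) (nat_lit 51) (nat_lit 52) = true := by decide +kernel
def p14_11_0_52 : pfC (piC [(nat_lit 40745421), (nat_lit 26310893), (nat_lit 19519284), (nat_lit 13130440)] (nat_lit 25010362)) p14_11_0 (nat_lit 4) (nat_lit 52) (nat_lit 53) = true := by decide +kernel
def p14_11_0_53 : pfC (piC [(nat_lit 40745421), (nat_lit 26310893), (nat_lit 19519284), (nat_lit 13130440)] (nat_lit 25010362)) p14_11_0 (nat_lit 4) (nat_lit 53) (nat_lit 54) = true := by decide +kernel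
def p14_11_0_54 : pfC (piC [(nat_lit 40745421), (nat_lit 26310893), (nat_lit 19519284), (nat_lit 13130440)] (nat_lit 25010362)) p14_11_0 (nat_lit 4) (nat_lit 54) (nat_lit 55) = true := by decide +kernel
def p14_11_0_55 : pfC (piC [(nat_lit 40745421), (nat_lit 26310893), (nat_lit 19519284), (nat_lit 13130440)] (nat_lit 25010362)) p14_11_0 (nat_lit 4) (nat_lit 55) (nat_lit 56) = true := by decide +kernel
def p14_11_0_56 : pfC (piC [(nat_lit 40745421), (nat_lit 26310893), (nat_lit 19519284), (nat_lit 13130440)] (nat_lit 25010362)) p14_11_0 (nat_lit 4) (nat_lit 56) (nat_lit 57) = true := by decide +kernel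
def p14_11_0_57 : pfC (piC [(nat_lit 40745421), (nat_lit 26310893), (nat_lit 19519284), (nat_lit 13130440)] (nat_lit 25010362)) p14_11_0 (nat_lit 4) (nat_lit 57) (nat_lit 58) = true := by decide +kernel
def p14_11_0_58 : pfC (piC [(nat_lit 40745421), (nat_lit 26310893), (nat_lit 19519284), (nat_lit 13130440)] (nat_lit 25010362)) p14_11_0 (nat_lit 4) (nat_lit 58) (nat_lit 59) = true := by decide +kernel
def p14_11_0_59 : pfC (piC [(nat_lit 40745421), (nat_lit 26310893), (nat_lit 19519284), (nat_lit 13130440)] (nat_lit 25010362)) p14_11_0 (nat_lit 4) (nat_lit 59) (nat_lit 60) = true := by decide +kernel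
def p14_11_0_60 : pfC (piC [(nat_lit 40745421), (nat_lit 26310893), (nat_lit 19519284), (nat_lit 13130440)] (nat_lit 25010362)) p14_11_0 (nat_lit 4) (nat_lit 60) (nat_lit 61) = true := by decide +kernel
def p14_11_0_61 : pfC (piC [(nat_lit 40745421), (nat_lit 26310893), (nat_lit 19519284), (nat_lit 13130440)] (nat_lit 25010362)) p14_11_0 (nat_lit 4) (nat_lit 61) (nat_lit 62) = true := by decide +kernel
def p14_11_0_62 : pfC (piC [(nat_lit 40745421), (nat_lit 26310893), (nat_lit 19519284), (nat_lit 13130440)] (nat_lit 25010362)) p14_11_0 (nat_lit 4) (nat_lit 62) (nat_lit 63) = true := by decide +kernel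
def p14_11_0_63 : pfC (piC [(nat_lit 40745421), (nat_lit 26310893), (nat_lit 19519284), (nat_lit 13130440)] (nat_lit 25010362)) p14_11_0 (nat_lit 4) (nat_lit 63) (nat_lit 64) = true := by decide +kernel
def p14_11_0_64 : pfC (piC [(nat_lit 40745421), (nat_lit 26310893), (nat_lit 19519284), (nat_lit 13130440)] (nat_lit 25010362)) p14_11_0 (nat_lit 4) (nat_lit 64) (nat_lit 65) = true := by decide +kernel
def p14_11_0_65 : pfC (piC [(nat_lit 40745421), (nat_lit 26310893), (nat_lit 19519284), (nat_lit 13130440)] (nat_lit 25010362)) p14_11_0 (nat_lit 4) (nat_lit 65) (nat_lit 66) = true := by decide +kernel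
def p14_11_0_66 : pfC (piC [(nat_lit 40745421), (nat_lit 26310893), (nat_lit 19519284), (nat_lit 13130440)] (nat_lit 25010362)) p14_11_0 (nat_lit 4) (nat_lit 66) (nat_lit 67) = true := by decide +kernel
def p14_11_0_67 : pfC (piC [(nat_lit 40745421), (nat_lit 26310893), (nat_lit 19519284), (nat_lit 13130440)] (nat_lit 25010362)) p14_11_0 (nat_lit 4) (nat_lit 67) (nat_lit 68) = true := by decide +kernel
def p14_11_0_68 : pfC (piC [(nat_lit 40745421), (nat_lit 26310893), (nat_lit 19519284), (nat_lit 13130440)] (nat_lit 25010362)) p14_11_0 (nat_lit 4) (nat_lit 68) (nat_lit 69) = true := by decide +kernel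
def p14_11_0_69 : pfC (piC [(nat_lit 40745421), (nat_lit 26310893), (nat_lit 19519284), (nat_lit 13130440)] (nat_lit 25010362)) p14_11_0 (nat_lit 4) (nat_lit 69) (nat_lit 70) = true := by decide +kernel
def p14_11_0_70 : pfC (piC [(nat_lit 40745421), (nat_lit 26310893), (nat_lit 19519284), (nat_lit 13130440)] (nat_lit 25010362)) p14_11_0 (nat_lit 4) (nat_lit 70) (nat_lit 71) = true := by decide +kernel
def p14_11_0_71 : pfC (piC [(nat_lit 40745421), (nat_lit 26310893), (nat_lit 19519284), (nat_lit 13130440)] (nat_lit 25010362)) p14_11_0 (nat_lit 4) (nat_lit 71) (nat_lit 72) = true := by decide +kernel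
def p14_11_0_72 : pfC (piC [(nat_lit 40745421), (nat_lit 26310893), (nat_lit 19519284), (nat_lit 13130440)] (nat_lit 25010362)) p14_11_0 (nat_lit 4) (nat_lit 72) (nat_lit 73) = true := by decide +kernel
def p14_11_0_73 : pfC (piC [(nat_lit 40745421), (nat_lit 26310893), (nat_lit 19519284), (nat_lit 13130440)] (nat_lit 25010362)) p14_11_0 (nat_lit 4) (nat_lit 73) (nat_lit 74) = true := by decide +kernel
def p14_11_0_74 : pfC (piC [(nat_lit 40745421), (nat_lit 26310893), (nat_lit 19519284), (nat_lit 13130440)] (nat_lit 25010362)) p14_11_0 (nat_lit 4) (nat_lit 74) (nat_lit 75) = true := by decide +kernel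
def p14_11_0_75 : pfC (piC [(nat_lit 40745421), (nat_lit 26310893), (nat_lit 19519284), (nat_lit 13130440)] (nat_lit 25010362)) p14_11_0 (nat_lit 4) (nat_lit 75) (nat_lit 76) = true := by decide +kernel
def p14_11_0_76 : pfC (piC [(nat_lit 40745421), (nat_lit 26310893), (nat_lit 19519284), (nat_lit 13130440)] (nat_lit 25010362)) p14_11_0 (nat_lit 4) (nat_lit 76) (nat_lit 77) = true := by decide +kernel
def p14_11_0_77 : pfC (piC [(nat_lit 40745421), (nat_lit 26310893), (nat_lit 19519284), (nat_lit 13130440)] (nat_lit 25010362)) p14_11_0 (nat_lit 4) (nat_lit 77) (nat_lit 78) = true := by decide +kernel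
def p14_11_0_78 : pfC (piC [(nat_lit 40745421), (nat_lit 26310893), (nat_lit 19519284), (nat_lit 13130440)] (nat_lit 25010362)) p14_11_0 (nat_lit 4) (nat_lit 78) (nat_lit 79) = true := by decide +kernel
def p14_11_0_79 : pfC (piC [(nat_lit 40745421), (nat_lit 26310893), (nat_lit 19519284), (nat_lit 13130440)] (nat_lit 25010362)) p14_11_0 (nat_lit 4) (nat_lit 79) (nat_lit 80) = true := by decide +kernel
def p14_11_0_80 : pfC (piC [(nat_lit 40745421), (nat_lit 26310893), (nat_lit 19519284), (nat_lit 13130440)] (nat_lit 25010362)) p14_11_0 (nat_lit 4) (nat_lit 80) (nat_lit 81) = true := by decide +kernel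
def p14_11_0_81 : pfC (piC [(nat_lit 40745421), (nat_lit 26310893), (nat_lit 19519284), (nat_lit 13130440)] (nat_lit 25010362)) p14_11_0 (nat_lit 4) (nat_lit 81) (nat_lit 82) = true := by decide +kernel
def p14_11_0_82 : pfC (piC [(nat_lit 40745421), (nat_lit 26310893), (nat_lit 19519284), (nat_lit 13130440)] (nat_lit 25010362)) p14_11_0 (nat_lit 4) (nat_lit 82) (nat_lit 83) = true := by decide +kernel
def p14_11_0_83 : pfC (piC [(nat_lit 40745421), (nat_lit 26310893), (nat_lit 19519284), (nat_lit 13130440)] (nat_lit 25010362)) p14_11_0 (nat_lit 4) (nat_lit 83) (nat_lit 84) = true := by decide +kernel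
def p14_11_0_84 : pfC (piC [(nat_lit 40745421), (nat_lit 26310893), (nat_lit 19519284), (nat_lit 13130440)] (nat_lit 25010362)) p14_11_0 (nat_lit 4) (nat_lit 84) (nat_lit 85) = true := by decide +kernel
def p14_11_0_85 : pfC (piC [(nat_lit 40745421), (nat_lit 26310893), (nat_lit 19519284), (nat_lit 13130440)] (nat_lit 25010362)) p14_11_0 (nat_lit 4) (nat_lit 85) (nat_lit 86) = true := by decide +kernel
def p14_11_0_86 : pfC (piC [(nat_lit 40745421), (nat_lit 26310893), (nat_lit 19519284), (nat_lit 13130440)] (nat_lit 25010362)) p14_11_0 (nat_lit 4) (nat_lit 86) (nat_lit 87) = true := by decide +kernel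
def p14_11_0_87 : pfC (piC [(nat_lit 40745421), (nat_lit 26310893), (nat_lit 19519284), (nat_lit 13130440)] (nat_lit 25010362)) p14_11_0 (nat_lit 4) (nat_lit 87) (nat_lit 88) = true := by decide +kernel
def p14_11_0_88 : pfC (piC [(nat_lit 40745421), (nat_lit 26310893), (nat_lit 19519284), (nat_lit 13130440)] (nat_lit 25010362)) p14_11_0 (nat_lit 4) (nat_lit 88) (nat_lit 89) = true := by decide +kernel
def p14_11_0_89 : pfC (piC [(nat_lit 40745421), (nat_lit 26310893), (nat_lit 19519284), (nat_lit 13130440)] (nat_lit 25010362)) p14_11_0 (nat_lit 4) (nat_lit 89) (nat_lit 90) = true := by decide +kernel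
def p14_11_0_90 : pfC (piC [(nat_lit 40745421), (nat_lit 26310893), (nat_lit 19519284), (nat_lit 13130440)] (nat_lit 25010362)) p14_11_0 (nat_lit 4) (nat_lit 90) (nat_lit 91) = true := by decide +kernel
def p14_11_0_91 : pfC (piC [(nat_lit 40745421), (nat_lit 26310893), (nat_lit 19519284), (nat_lit 13130440)] (nat_lit 25010362)) p14_11_0 (nat_lit 4) (nat_lit 91) (nat_lit 92) = true := by decide +kernel
def p14_11_0_92 : pfC (piC [(nat_lit 40745421), (nat_lit 26310893), (nat_lit 19519284), (nat_lit 13130440)] (nat_lit 25010362)) p14_11_0 (nat_lit 4) (nat_lit 92) (nat_lit 93) = true := by decide +kernel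
def p14_11_0_93 : pfC (piC [(nat_lit 40745421), (nat_lit 26310893), (nat_lit 19519284), (nat_lit 13130440)] (nat_lit 25010362)) p14_11_0 (nat_lit 4) (nat_lit 93) (nat_lit 94) = true := by decide +kernel
def p14_11_0_94 : pfC (piC [(nat_lit 40745421), (nat_lit 26310893), (nat_lit 19519284), (nat_lit 13130440)] (nat_lit 25010362)) p14_11_0 (nat_lit 4) (nat_lit 94) (nat_lit 95) = true := by decide +kernel
def p14_11_0_95 : pfC (piC [(nat_lit 40745421), (nat_lit 26310893), (nat_lit 19519284), (nat_lit 13130440)] (nat_lit 25010362)) p14_11_0 (nat_lit 4) (nat_lit 95) (nat_lit 96) = true := by decide +kernel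
def p14_11_0_96 : pfC (piC [(nat_lit 40745421), (nat_lit 26310893), (nat_lit 19519284), (nat_lit 13130440)] (nat_lit 25010362)) p14_11_0 (nat_lit 4) (nat_lit 96) (nat_lit 97) = true := by decide +kernel
def p14_11_0_97 : pfC (piC [(nat_lit 40745421), (nat_lit 26310893), (nat_lit 19519284), (nat_lit 13130440)] (nat_lit 25010362)) p14_11_0 (nat_lit 4) (nat_lit 97) (nat_lit 98) = true := by decide +kernel
def p14_11_0_98 : pfC (piC [(nat_lit 40745421), (nat_lit 26310893), (nat_lit 19519284), (nat_lit 13130440)] (nat_lit 25010362)) p14_11_0 (nat_lit 4) (nat_lit 98) (nat_lit 99) = true := by decide +kernel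
def p14_11_0_99 : pfC (piC [(nat_lit 40745421), (nat_lit 26310893), (nat_lit 19519284), (nat_lit 13130440)] (nat_lit 25010362)) p14_11_0 (nat_lit 4) (nat_lit 99) (nat_lit 100) = true := by decide +kernel
def p14_11_0_100 : pfC (piC [(nat_lit 40745421), (nat_lit 26310893), (nat_lit 19519284), (nat_lit 13130440)] (nat_lit 25010362)) p14_11_0 (nat_lit 4) (nat_lit 100) (nat_lit 101) = true := by decide +kernel
def p14_11_0_101 : pfC (piC [(nat_lit 40745421), (nat_lit 26310893), (nat_lit 19519284), (nat_lit 13130440)] (nat_lit 25010362)) p14_11_0 (nat_lit 4) (nat_lit 101) (nat_lit 102) = true := by decide +kernel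
def p14_11_0_102 : pfC (piC [(nat_lit 40745421), (nat_lit 26310893), (nat_lit 19519284), (nat_lit 13130440)] (nat_lit 25010362)) p14_11_0 (nat_lit 4) (nat_lit 102) (nat_lit 103) = true := by decide +kernel
def p14_11_0_103 : pfC (piC [(nat_lit 40745421), (nat_lit 26310893), (nat_lit 19519284), (nat_lit 13130440)] (nat_lit 25010362)) p14_11_0 (nat_lit 4) (nat_lit 103) (nat_lit 104) = true := by decide +kernel
def p14_11_0_104 : pfC (piC [(nat_lit 40745421), (nat_lit 26310893), (nat_lit 19519284), (nat_lit 13130440)] (nat_lit 25010362)) p14_11_0 (nat_lit 4) (nat_lit 104) (nat_lit 105) = true := by decide +kernel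
def p14_11_0_105 : pfC (piC [(nat_lit 40745421), (nat_lit 26310893), (nat_lit 19519284), (nat_lit 13130440)] (nat_lit 25010362)) p14_11_0 (nat_lit 4) (nat_lit 105) (nat_lit 106) = true := by decide +kernel
def p14_11_0_106 : pfC (piC [(nat_lit 40745421), (nat_lit 26310893), (nat_lit 19519284), (nat_lit 13130440)] (nat_lit 25010362)) p14_11_0 (nat_lit 4) (nat_lit 106) (nat_lit 107) = true := by decide +kernel
def p14_11_0_107 : pfC (piC [(nat_lit 40745421), (nat_lit 26310893), (nat_lit 19519284), (nat_lit 13130440)] (nat_lit 25010362)) p14_11_0 (nat_lit 4) (nat_lit 107) (nat_lit 108) = true := by decide +kernel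
def p14_11_0_108 : pfC (piC [(nat_lit 40745421), (nat_lit 26310893), (nat_lit 19519284), (nat_lit 13130440)] (nat_lit 25010362)) p14_11_0 (nat_lit 4) (nat_lit 108) (nat_lit 109) = true := by decide +kernel
def p14_11_0_109 : pfC (piC [(nat_lit 40745421), (nat_lit 26310893), (nat_lit 19519284), (nat_lit 13130440)] (nat_lit 25010362)) p14_11_0 (nat_lit 4) (nat_lit 109) (nat_lit 110) = true := by decide +kernel
def p14_11_0_110 : pfC (piC [(nat_lit 40745421), (nat_lit 26310893), (nat_lit 19519284), (nat_lit 13130440)] (nat_lit 25010362)) p14_11_0 (nat_lit 4) (nat_lit 110) (nat_lit 111) = true := by decide +kernel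
def p14_11_0_111 : pfC (piC [(nat_lit 40745421), (nat_lit 26310893), (nat_lit 19519284), (nat_lit 13130440)] (nat_lit 25010362)) p14_11_0 (nat_lit 4) (nat_lit 111) (nat_lit 112) = true := by decide +kernel
def p14_11_0_112 : pfC (piC [(nat_lit 40745421), (nat_lit 26310893), (nat_lit 19519284), (nat_lit 13130440)] (nat_lit 25010362)) p14_11_0 (nat_lit 4) (nat_lit 112) (nat_lit 113) = true := by decide +kernel
def p14_11_0_113 : pfC (piC [(nat_lit 40745421), (nat_lit 26310893), (nat_lit 19519284), (nat_lit 13130440)] (nat_lit 25010362)) p14_11_0 (nat_lit 4) (nat_lit 113) (nat_lit 114) = true := by decide +kernel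
def p14_11_0_114 : pfC (piC [(nat_lit 40745421), (nat_lit 26310893), (nat_lit 19519284), (nat_lit 13130440)] (nat_lit 25010362)) p14_11_0 (nat_lit 4) (nat_lit 114) (nat_lit 115) = true := by decide +kernel
def p14_11_0_115 : pfC (piC [(nat_lit 40745421), (nat_lit 26310893), (nat_lit 19519284), (nat_lit 13130440)] (nat_lit 25010362)) p14_11_0 (nat_lit 4) (nat_lit 115) (nat_lit 116) = true := by decide +kernel
def p14_11_0_116 : pfC (piC [(nat_lit 40745421), (nat_lit 26310893), (nat_lit 19519284), (nat_lit 13130440)] (nat_lit 25010362)) p14_11_0 (nat_lit 4) (nat_lit 116) (nat_lit 117) = true := by decide +kernel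
def p14_11_0_117 : pfC (piC [(nat_lit 40745421), (nat_lit 26310893), (nat_lit 19519284), (nat_lit 13130440)] (nat_lit 25010362)) p14_11_0 (nat_lit 4) (nat_lit 117) (nat_lit 118) = true := by decide +kernel
def p14_11_0_118 : pfC (piC [(nat_lit 40745421), (nat_lit 26310893), (nat_lit 19519284), (nat_lit 13130440)] (nat_lit 25010362)) p14_11_0 (nat_lit 4) (nat_lit 118) (nat_lit 119) = true := by decide +kernel
def p14_11_0_119 : pfC (piC [(nat_lit 40745421), (nat_lit 26310893), (nat_lit 19519284), (nat_lit 13130440)] (nat_lit 25010362)) p14_11_0 (nat_lit 4) (nat_lit 119) (nat_lit 120) = true := by decide +kernel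
def p14_11_0_120 : pfC (piC [(nat_lit 40745421), (nat_lit 26310893), (nat_lit 19519284), (nat_lit 13130440)] (nat_lit 25010362)) p14_11_0 (nat_lit 4) (nat_lit 120) (nat_lit 121) = true := by decide +kernel
def p14_11_0_121 : pfC (piC [(nat_lit 40745421), (nat_lit 26310893), (nat_lit 19519284), (nat_lit 13130440)] (nat_lit 25010362)) p14_11_0 (nat_lit 4) (nat_lit 121) (nat_lit 122) = true := by decide +kernel
def p14_11_0_122 : pfC (piC [(nat_lit 40745421), (nat_lit 26310893), (nat_lit 19519284), (nat_lit 13130440)] (nat_lit 25010362)) p14_11_0 (nat_lit 4) (nat_lit 122) (nat_lit 123) = true := by decide +kernel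
def p14_11_0_123 : pfC (piC [(nat_lit 40745421), (nat_lit 26310893), (nat_lit 19519284), (nat_lit 13130440)] (nat_lit 25010362)) p14_11_0 (nat_lit 4) (nat_lit 123) (nat_lit 124) = true := by decide +kernel
def p14_11_0_124 : pfC (piC [(nat_lit 40745421), (nat_lit 26310893), (nat_lit 19519284), (nat_lit 13130440)] (nat_lit 25010362)) p14_11_0 (nat_lit 4) (nat_lit 124) (nat_lit 125) = true := by decide +kernel
def p14_11_0_125 : pfC (piC [(nat_lit 40745421), (nat_lit 26310893), (nat_lit 19519284), (nat_lit 13130440)] (nat_lit 25010362)) p14_11_0 (nat_lit 4) (nat_lit 125) (nat_lit 126) = true := by decide +kernel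
def p14_11_0_126 : pfC (piC [(nat_lit 40745421), (nat_lit 26310893), (nat_lit 19519284), (nat_lit 13130440)] (nat_lit 25010362)) p14_11_0 (nat_lit 4) (nat_lit 126) (nat_lit 127) = true := by decide +kernel
def p14_11_0_127 : pfC (piC [(nat_lit 40745421), (nat_lit 26310893), (nat_lit 19519284), (nat_lit 13130440)] (nat_lit 25010362)) p14_11_0 (nat_lit 4) (nat_lit 127) (nat_lit 128) = true := by decide +kernel
def p14_11_0_128 : pfC (piC [(nat_lit 40745421), (nat_lit 26310893), (nat_lit 19519284), (nat_lit 13130440)] (nat_lit 25010362)) p14_11_0 (nat_lit 4) (nat_lit 128) (nat_lit 129) = true := by decide +kernel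
def p14_11_0_129 : pfC (piC [(nat_lit 40745421), (nat_lit 26310893), (nat_lit 19519284), (nat_lit 13130440)] (nat_lit 25010362)) p14_11_0 (nat_lit 4) (nat_lit 129) (nat_lit 130) = true := by decide +kernel
def p14_11_0_130 : pfC (piC [(nat_lit 40745421), (nat_lit 26310893), (nat_lit 19519284), (nat_lit 13130440)] (nat_lit 25010362)) p14_11_0 (nat_lit 4) (nat_lit 130) (nat_lit 131) = true := by decide +kernel
def p14_11_0_131 : pfC (piC [(nat_lit 40745421), (nat_lit 26310893), (nat_lit 19519284), (nat_lit 13130440)] (nat_lit 25010362)) p14_11_0 (nat_lit 4) (nat_lit 131) (nat_lit 132) = true := by decide +kernel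
def p14_11_0_132 : pfC (piC [(nat_lit 40745421), (nat_lit 26310893), (nat_lit 19519284), (nat_lit 13130440)] (nat_lit 25010362)) p14_11_0 (nat_lit 4) (nat_lit 132) (nat_lit 133) = true := by decide +kernel
def p14_11_0_133 : pfC (piC [(nat_lit 40745421), (nat_lit 26310893), (nat_lit 19519284), (nat_lit 13130440)] (nat_lit 25010362)) p14_11_0 (nat_lit 4) (nat_lit 133) (nat_lit 134) = true := by decide +kernel
def p14_11_0_134 : pfC (piC [(nat_lit 40745421), (nat_lit 26310893), (nat_lit 19519284), (nat_lit 13130440)] (nat_lit 25010362)) p14_11_0 (nat_lit 4) (nat_lit 134) (nat_lit 135) = true := by decide +kernel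
def p14_11_0_135 : pfC (piC [(nat_lit 40745421), (nat_lit 26310893), (nat_lit 19519284), (nat_lit 13130440)] (nat_lit 25010362)) p14_11_0 (nat_lit 4) (nat_lit 135) (nat_lit 136) = true := by decide +kernel
def p14_11_0_136 : pfC (piC [(nat_lit 40745421), (nat_lit 26310893), (nat_lit 19519284), (nat_lit 13130440)] (nat_lit 25010362)) p14_11_0 (nat_lit 4) (nat_lit 136) (nat_lit 137) = true := by decide +kernel
def p14_11_0_137 : pfC (piC [(nat_lit 40745421), (nat_lit 26310893), (nat_lit 19519284), (nat_lit 13130440)] (nat_lit 25010362)) p14_11_0 (nat_lit 4) (nat_lit 137) (nat_lit 138) = true := by decide +kernel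
def p14_11_0_138 : pfC (piC [(nat_lit 40745421), (nat_lit 26310893), (nat_lit 19519284), (nat_lit 13130440)] (nat_lit 25010362)) p14_11_0 (nat_lit 4) (nat_lit 138) (nat_lit 139) = true := by decide +kernel
def p14_11_0_139 : pfC (piC [(nat_lit 40745421), (nat_lit 26310893), (nat_lit 19519284), (nat_lit 13130440)] (nat_lit 25010362)) p14_11_0 (nat_lit 4) (nat_lit 139) (nat_lit 140) = true := by decide +kernel
def p14_11_0_140 : pfC (piC [(nat_lit 40745421), (nat_lit 26310893), (nat_lit 19519284), (nat_lit 13130440)] (nat_lit 25010362)) p14_11_0 (nat_lit 4) (nat_lit 140) (nat_lit 141) = true := by decide +kernel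
def p14_11_0_141 : pfC (piC [(nat_lit 40745421), (nat_lit 26310893), (nat_lit 19519284), (nat_lit 13130440)] (nat_lit 25010362)) p14_11_0 (nat_lit 4) (nat_lit 141) (nat_lit 142) = true := by decide +kernel
def p14_11_0_142 : pfC (piC [(nat_lit 40745421), (nat_lit 26310893), (nat_lit 19519284), (nat_lit 13130440)] (nat_lit 25010362)) p14_11_0 (nat_lit 4) (nat_lit 142) (nat_lit 143) = true := by decide +kernel
def p14_11_0_143 : pfC (piC [(nat_lit 40745421), (nat_lit 26310893), (nat_lit 19519284), (nat_lit 13130440)] (nat_lit 25010362)) p14_11_0 (nat_lit 4) (nat_lit 143) (nat_lit 144) = true := by decide +kernel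
def p14_11_0_144 : pfC (piC [(nat_lit 40745421), (nat_lit 26310893), (nat_lit 19519284), (nat_lit 13130440)] (nat_lit 25010362)) p14_11_0 (nat_lit 4) (nat_lit 144) (nat_lit 145) = true := by decide +kernel
def p14_11_0_145 : pfC (piC [(nat_lit 40745421), (nat_lit 26310893), (nat_lit 19519284), (nat_lit 13130440)] (nat_lit 25010362)) p14_11_0 (nat_lit 4) (nat_lit 145) (nat_lit 146) = true := by decide +kernel
def p14_11_0_146 : pfC (piC [(nat_lit 40745421), (nat_lit 26310893), (nat_lit 19519284), (nat_lit 13130440)] (nat_lit 25010362)) p14_11_0 (nat_lit 4) (nat_lit 146) (nat_lit 147) = true := by decide +kernel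
def p14_11_0_147 : pfC (piC [(nat_lit 40745421), (nat_lit 26310893), (nat_lit 19519284), (nat_lit 13130440)] (nat_lit 25010362)) p14_11_0 (nat_lit 4) (nat_lit 147) (nat_lit 148) = true := by decide +kernel
def p14_11_0_148 : pfC (piC [(nat_lit 40745421), (nat_lit 26310893), (nat_lit 19519284), (nat_lit 13130440)] (nat_lit 25010362)) p14_11_0 (nat_lit 4) (nat_lit 148) (nat_lit 149) = true := by decide +kernel
def p14_11_0_149 : pfC (piC [(nat_lit 40745421), (nat_lit 26310893), (nat_lit 19519284), (nat_lit 13130440)] (nat_lit 25010362)) p14_11_0 (nat_lit 4) (nat_lit 149) (nat_lit 150) = true := by decide +kernel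
def p14_11_0_150 : pfC (piC [(nat_lit 40745421), (nat_lit 26310893), (nat_lit 19519284), (nat_lit 13130440)] (nat_lit 25010362)) p14_11_0 (nat_lit 4) (nat_lit 150) (nat_lit 151) = true := by decide +kernel
def p14_11_0_151 : pfC (piC [(nat_lit 40745421), (nat_lit 26310893), (nat_lit 19519284), (nat_lit 13130440)] (nat_lit 25010362)) p14_11_0 (nat_lit 4) (nat_lit 151) (nat_lit 152) = true := by decide +kernel
def p14_11_0_152 : pfC (piC [(nat_lit 40745421), (nat_lit 26310893), (nat_lit 19519284), (nat_lit 13130440)] (nat_lit 25010362)) p14_11_0 (nat_lit 4) (nat_lit 152) (nat_lit 153) = true := by decide +kernel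
def p14_11_0_153 : pfC (piC [(nat_lit 40745421), (nat_lit 26310893), (nat_lit 19519284), (nat_lit 13130440)] (nat_lit 25010362)) p14_11_0 (nat_lit 4) (nat_lit 153) (nat_lit 154) = true := by decide +kernel
def p14_11_0_154 : pfC (piC [(nat_lit 40745421), (nat_lit 26310893), (nat_lit 19519284), (nat_lit 13130440)] (nat_lit 25010362)) p14_11_0 (nat_lit 4) (nat_lit 154) (nat_lit 155) = true := by decide +kernel
def p14_11_0_155 : pfC (piC [(nat_lit 40745421), (nat_lit 26310893), (nat_lit 19519284), (nat_lit 13130440)] (nat_lit 25010362)) p14_11_0 (nat_lit 4) (nat_lit 155) (nat_lit 156) = true := by decide +kernel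
def p14_11_0_156 : pfC (piC [(nat_lit 40745421), (nat_lit 26310893), (nat_lit 19519284), (nat_lit 13130440)] (nat_lit 25010362)) p14_11_0 (nat_lit 4) (nat_lit 156) (nat_lit 157) = true := by decide +kernel
def p14_11_0_157 : pfC (piC [(nat_lit 40745421), (nat_lit 26310893), (nat_lit 19519284), (nat_lit 13130440)] (nat_lit 25010362)) p14_11_0 (nat_lit 4) (nat_lit 157) (nat_lit 158) = true := by decide +kernel
def p14_11_0_158 : pfC (piC [(nat_lit 40745421), (nat_lit 26310893), (nat_lit 19519284), (nat_lit 13130440)] (nat_lit 25010362)) p14_11_0 (nat_lit 4) (nat_lit 158) (nat_lit 159) = true := by decide +kernel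
def p14_11_0_159 : pfC (piC [(nat_lit 40745421), (nat_lit 26310893), (nat_lit 19519284), (nat_lit 13130440)] (nat_lit 25010362)) p14_11_0 (nat_lit 4) (nat_lit 159) (nat_lit 160) = true := by decide +kernel
def p14_11_0_160 : pfC (piC [(nat_lit 40745421), (nat_lit 26310893), (nat_lit 19519284), (nat_lit 13130440)] (nat_lit 25010362)) p14_11_0 (nat_lit 4) (nat_lit 160) (nat_lit 161) = true := by decide +kernel
def p14_11_0_161 : pfC (piC [(nat_lit 40745421), (nat_lit 26310893), (nat_lit 19519284), (nat_lit 13130440)] (nat_lit 25010362)) p14_11_0 (nat_lit 4) (nat_lit 161) (nat_lit 162) = true := by decide +kernel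
def p14_11_0_162 : pfC (piC [(nat_lit 40745421), (nat_lit 26310893), (nat_lit 19519284), (nat_lit 13130440)] (nat_lit 25010362)) p14_11_0 (nat_lit 4) (nat_lit 162) (nat_lit 163) = true := by decide +kernel
def p14_11_0_163 : pfC (piC [(nat_lit 40745421), (nat_lit 26310893), (nat_lit 19519284), (nat_lit 13130440)] (nat_lit 25010362)) p14_11_0 (nat_lit 4) (nat_lit 163) (nat_lit 164) = true := by decide +kernel
def p14_11_0_164 : pfC (piC [(nat_lit 40745421), (nat_lit 26310893), (nat_lit 19519284), (nat_lit 13130440)] (nat_lit 25010362)) p14_11_0 (nat_lit 4) (nat_lit 164) (nat_lit 165) = true := by decide +kernel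
def p14_11_0_165 : pfC (piC [(nat_lit 40745421), (nat_lit 26310893), (nat_lit 19519284), (nat_lit 13130440)] (nat_lit 25010362)) p14_11_0 (nat_lit 4) (nat_lit 165) (nat_lit 166) = true := by decide +kernel
def p14_11_0_166 : pfC (piC [(nat_lit 40745421), (nat_lit 26310893), (nat_lit 19519284), (nat_lit 13130440)] (nat_lit 25010362)) p14_11_0 (nat_lit 4) (nat_lit 166) (nat_lit 167) = true := by decide +kernel
def p14_11_0_167 : pfC (piC [(nat_lit 40745421), (nat_lit 26310893), (nat_lit 19519284), (nat_lit 13130440)] (nat_lit 25010362)) p14_11_0 (nat_lit 4) (nat_lit 167) (nat_lit 168) = true := by decide +kernel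
def p14_11_0_168 : pfC (piC [(nat_lit 40745421), (nat_lit 26310893), (nat_lit 19519284), (nat_lit 13130440)] (nat_lit 25010362)) p14_11_0 (nat_lit 4) (nat_lit 168) (nat_lit 169) = true := by decide +kernel
def p14_11_0_169 : pfC (piC [(nat_lit 40745421), (nat_lit 26310893), (nat_lit 19519284), (nat_lit 13130440)] (nat_lit 25010362)) p14_11_0 (nat_lit 4) (nat_lit 169) (nat_lit 170) = true := by decide +kernel
def p14_11_0_170 : pfC (piC [(nat_lit 40745421), (nat_lit 26310893), (nat_lit 19519284), (nat_lit 13130440)] (nat_lit 25010362)) p14_11_0 (nat_lit 4) (nat_lit 170) (nat_lit 171) = true := by decide +kernel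
def p14_11_0_171 : pfC (piC [(nat_lit 40745421), (nat_lit 26310893), (nat_lit 19519284), (nat_lit 13130440)] (nat_lit 25010362)) p14_11_0 (nat_lit 4) (nat_lit 171) (nat_lit 172) = true := by decide +kernel
def p14_11_0_172 : pfC (piC [(nat_lit 40745421), (nat_lit 26310893), (nat_lit 19519284), (nat_lit 13130440)] (nat_lit 25010362)) p14_11_0 (nat_lit 4) (nat_lit 172) (nat_lit 173) = true := by decide +kernel
def p14_11_0_173 : pfC (piC [(nat_lit 40745421), (nat_lit 26310893), (nat_lit 19519284), (nat_lit 13130440)] (nat_lit 25010362)) p14_11_0 (nat_lit 4) (nat_lit 173) (nat_lit 174) = true := by decide +kernel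
def p14_11_0_174 : pfC (piC [(nat_lit 40745421), (nat_lit 26310893), (nat_lit 19519284), (nat_lit 13130440)] (nat_lit 25010362)) p14_11_0 (nat_lit 4) (nat_lit 174) (nat_lit 175) = true := by decide +kernel
def p14_11_0_175 : pfC (piC [(nat_lit 40745421), (nat_lit 26310893), (nat_lit 19519284), (nat_lit 13130440)] (nat_lit 25010362)) p14_11_0 (nat_lit 4) (nat_lit 175) (nat_lit 176) = true := by decide +kernel
def p14_11_0_176 : pfC (piC [(nat_lit 40745421), (nat_lit 26310893), (nat_lit 19519284), (nat_lit 13130440)] (nat_lit 25010362)) p14_11_0 (nat_lit 4) (nat_lit 176) (nat_lit 177) = true := by decide +kernel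
def p14_11_0_177 : pfC (piC [(nat_lit 40745421), (nat_lit 26310893), (nat_lit 19519284), (nat_lit 13130440)] (nat_lit 25010362)) p14_11_0 (nat_lit 4) (nat_lit 177) (nat_lit 178) = true := by decide +kernel
def p14_11_0_178 : pfC (piC [(nat_lit 40745421), (nat_lit 26310893), (nat_lit 19519284), (nat_lit 13130440)] (nat_lit 25010362)) p14_11_0 (nat_lit 4) (nat_lit 178) (nat_lit 179) = true := by decide +kernel
def p14_11_0_179 : pfC (piC [(nat_lit 40745421), (nat_lit 26310893), (nat_lit 19519284), (nat_lit 13130440)] (nat_lit 25010362)) p14_11_0 (nat_lit 4) (nat_lit 179) (nat_lit 180) = true := by decide +kernel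
def p14_11_0_180 : pfC (piC [(nat_lit 40745421), (nat_lit 26310893), (nat_lit 19519284), (nat_lit 13130440)] (nat_lit 25010362)) p14_11_0 (nat_lit 4) (nat_lit 180) (nat_lit 181) = true := by decide +kernel
def p14_11_0_181 : pfC (piC [(nat_lit 40745421), (nat_lit 26310893), (nat_lit 19519284), (nat_lit 13130440)] (nat_lit 25010362)) p14_11_0 (nat_lit 4) (nat_lit 181) (nat_lit 182) = true := by decide +kernel
def p14_11_0_182 : pfC (piC [(nat_lit 40745421), (nat_lit 26310893), (nat_lit 19519284), (nat_lit 13130440)] (nat_lit 25010362)) p14_11_0 (nat_lit 4) (nat_lit 182) (nat_lit 183) = true := by decide +kernel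
def p14_11_0_183 : pfC (piC [(nat_lit 40745421), (nat_lit 26310893), (nat_lit 19519284), (nat_lit 13130440)] (nat_lit 25010362)) p14_11_0 (nat_lit 4) (nat_lit 183) (nat_lit 184) = true := by decide +kernel
def p14_11_0_184 : pfC (piC [(nat_lit 40745421), (nat_lit 26310893), (nat_lit 19519284), (nat_lit 13130440)] (nat_lit 25010362)) p14_11_0 (nat_lit 4) (nat_lit 184) (nat_lit 185) = true := by decide +kernel
def p14_11_0_185 : pfC (piC [(nat_lit 40745421), (nat_lit 26310893), (nat_lit 19519284), (nat_lit 13130440)] (nat_lit 25010362)) p14_11_0 (nat_lit 4) (nat_lit 185) (nat_lit 186) = true := by decide +kernel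
def p14_11_0_186 : pfC (piC [(nat_lit 40745421), (nat_lit 26310893), (nat_lit 19519284), (nat_lit 13130440)] (nat_lit 25010362)) p14_11_0 (nat_lit 4) (nat_lit 186) (nat_lit 187) = true := by decide +kernel
def p14_11_0_187 : pfC (piC [(nat_lit 40745421), (nat_lit 26310893), (nat_lit 19519284), (nat_lit 13130440)] (nat_lit 25010362)) p14_11_0 (nat_lit 4) (nat_lit 187) (nat_lit 188) = true := by decide +kernel
def p14_11_0_188 : pfC (piC [(nat_lit 40745421), (nat_lit 26310893), (nat_lit 19519284), (nat_lit 13130440)] (nat_lit 25010362)) p14_11_0 (nat_lit 4) (nat_lit 188) (nat_lit 189) = true := by decide +kernel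
def p14_11_0_189 : pfC (piC [(nat_lit 40745421), (nat_lit 26310893), (nat_lit 19519284), (nat_lit 13130440)] (nat_lit 25010362)) p14_11_0 (nat_lit 4) (nat_lit 189) (nat_lit 190) = true := by decide +kernel
def p14_11_0_190 : pfC (piC [(nat_lit 40745421), (nat_lit 26310893), (nat_lit 19519284), (nat_lit 13130440)] (nat_lit 25010362)) p14_11_0 (nat_lit 4) (nat_lit 190) (nat_lit 191) = true := by decide +kernel
def p14_11_0_191 : pfC (piC [(nat_lit 40745421), (nat_lit 26310893), (nat_lit 19519284), (nat_lit 13130440)] (nat_lit 25010362)) p14_11_0 (nat_lit 4) (nat_lit 191) (nat_lit 192) = true := by decide +kernel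
def p14_11_0_192 : pfC (piC [(nat_lit 40745421), (nat_lit 26310893), (nat_lit 19519284), (nat_lit 13130440)] (nat_lit 25010362)) p14_11_0 (nat_lit 4) (nat_lit 192) (nat_lit 193) = true := by decide +kernel
def p14_11_0_193 : pfC (piC [(nat_lit 40745421), (nat_lit 26310893), (nat_lit 19519284), (nat_lit 13130440)] (nat_lit 25010362)) p14_11_0 (nat_lit 4) (nat_lit 193) (nat_lit 194) = true := by decide +kernel
def p14_11_0_194 : pfC (piC [(nat_lit 40745421), (nat_lit 26310893), (nat_lit 19519284), (nat_lit 13130440)] (nat_lit 25010362)) p14_11_0 (nat_lit 4) (nat_lit 194) (nat_lit 195) = true := by decide +kernel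
def p14_11_0_195 : pfC (piC [(nat_lit 40745421), (nat_lit 26310893), (nat_lit 19519284), (nat_lit 13130440)] (nat_lit 25010362)) p14_11_0 (nat_lit 4) (nat_lit 195) (nat_lit 196) = true := by decide +kernel
theorem p14_11_0_T : PfS (PiF n14_11.reverse (nat_lit 25010362)) p14_11_0 (nat_lit 4) [] 0 :=
  pftab_of (los := [(nat_lit 40745421), (nat_lit 26310893), (nat_lit 19519284), (nat_lit 13130440)]) (by decide +kernel) (hi := (nat_lit 196)) (PfP.trans (PfP.trans (PfP.trans (PfP.trans (PfP.trans (PfP.trans (PfP.trans (PfP.trans (PfP.trans (PfP.trans (PfP.trans (PfP.trans (PfP.trans (PfP.trans (PfP.trans (PfP.trans (PfP.trans (PfP.trans (PfP.trans (PfP.trans (PfP.trans (PfP.trans (PfP.trans (PfP.trans (PfP.trans (PfP.trans (PfP.trans (PfP.trans (PfP.trans (PfP.trans (PfP.trans (PfP.trans (PfP.trans (PfP.trans (PfP.trans (PfP.trans (PfP.trans (PfP.trans (PfP.trans (PfP.trans (PfP.trans (PfP.trans (PfP.trans (PfP.trans (PfP.trans (PfP.trans (PfP.trans (PfP.trans (PfP.trans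 (PfP.trans (PfP.trans (PfP.trans (PfP.trans (PfP.trans (PfP.trans (PfP.trans (PfP.trans (PfP.trans (PfP.trans (PfP.trans (PfP.trans (PfP.trans (PfP.trans (PfP.trans (PfP.trans (PfP.trans (PfP.trans (PfP.trans (PfP.trans (PfP.trans (PfP.trans (PfP.trans (PfP.trans (PfP.trans (PfP.trans (PfP.trans (PfP.trans (PfP.trans (PfP.trans (PfP.trans (PfP.trans (PfP.trans (PfP.trans (PfP.trans (PfP.trans (PfP.trans (PfP.trans (PfP.trans (PfP.trans (PfP.trans (PfP.trans (PfP.trans (PfP.trans (PfP.trans (PfP.trans (PfP.trans (PfP.trans (PfP.trans (PfP.trans (PfP.trans (PfP.trans (PfP.trans (PfP.trans (PfP.trans (PfP.trans (PfP.trans (PfP.trans (PfP.trans (PfP.trans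
 (PfP.trans (PfP.trans (PfP.trans (PfP.trans (PfP.trans (PfP.trans (PfP.trans (PfP.trans (PfP.trans (PfP.trans (PfP.trans (PfP.trans (PfP.trans (PfP.trans (PfP.trans (PfP.trans (PfP.trans (PfP.trans (PfP.trans (PfP.trans (PfP.trans (PfP.trans (PfP.trans (PfP.trans (PfP.trans (PfP.trans (PfP.trans (PfP.trans (PfP.trans (PfP.trans (PfP.trans (PfP.trans (PfP.trans (PfP.trans (PfP.trans (PfP.trans (PfP.trans (PfP.trans (PfP.trans (PfP.trans (PfP.trans (PfP.trans (PfP.trans (PfP.trans (PfP.trans (PfP.trans (PfP.trans (PfP.trans (PfP.trans (PfP.trans (PfP.trans (PfP.trans (PfP.trans (PfP.trans (PfP.trans (PfP.trans (PfP.trans (PfP.trans (PfP.trans (PfP.trans (PfP.trans (PfP.trans (PfP.trans (PfP.trans (PfP.trans (PfP.trans (PfP.trans (PfP.trans (PfP.trans (PfP.trans (PfP.trans (PfP.trans (PfP.trans (PfP.trans (PfP.trans (PfP.trans (PfP.trans (PfP.trans (PfP.trans (PfP.trans (PfP.trans (PfP.trans (PfP.trans (PfP.trans (PfP.trans (PfP.trans (pfC_sound p14_11_0_0) (pfC_sound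 p14_11_0_1)) (pfC_sound p14_11_0_2)) (pfC_sound p14_11_0_3)) (pfC_sound p14_11_0_4)) (pfC_sound p14_11_0_5)) (pfC_sound p14_11_0_6)) (pfC_sound p14_11_0_7)) (pfC_sound p14_11_0_8)) (pfC_sound p14_11_0_9)) (pfC_sound
 p14_11_0_10)) (pfC_sound p14_11_0_11)) (pfC_sound p14_11_0_12)) (pfC_sound p14_11_0_13)) (pfC_sound p14_11_0_14)) (pfC_sound p14_11_0_15)) (pfC_sound p14_11_0_16)) (pfC_sound p14_11_0_17)) (pfC_sound p14_11_0_18)) (pfC_sound p14_11_0_19)) (pfC_sound p14_11_0_20)) (pfC_sound p14_11_0_21)) (pfC_sound p14_11_0_22)) (pfC_sound p14_11_0_23)) (pfC_sound p14_11_0_24)) (pfC_sound p14_11_0_25)) (pfC_sound p14_11_0_26)) (pfC_sound p14_11_0_27)) (pfC_sound p14_11_0_28)) (pfC_sound p14_11_0_29)) (pfC_sound p14_11_0_30)) (pfC_sound p14_11_0_31)) (pfC_sound p14_11_0_32)) (pfC_sound p14_11_0_33)) (pfC_sound p14_11_0_34)) (pfC_sound p14_11_0_35)) (pfC_sound p14_11_0_36)) (pfC_sound p14_11_0_37)) (pfC_sound p14_11_0_38)) (pfC_sound p14_11_0_39)) (pfC_sound p14_11_0_40))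 (pfC_sound p14_11_0_41)) (pfC_sound p14_11_0_42)) (pfC_sound p14_11_0_43)) (pfC_sound p14_11_0_44)) (pfC_sound p14_11_0_45)) (pfC_sound p14_11_0_46)) (pfC_sound p14_11_0_47)) (pfC_sound p14_11_0_48)) (pfC_sound p14_11_0_49)) (pfC_sound p14_11_0_50)) (pfC_sound p14_11_0_51)) (pfC_sound p14_11_0_52)) (pfC_sound p14_11_0_53)) (pfC_sound p14_11_0_54)) (pfC_sound p14_11_0_55)) (pfC_sound p14_11_0_56)) (pfC_sound p14_11_0_57)) (pfC_sound
 p14_11_0_58)) (pfC_sound p14_11_0_59)) (pfC_sound p14_11_0_60)) (pfC_sound p14_11_0_61)) (pfC_sound p14_11_0_62)) (pfC_sound p14_11_0_63)) (pfC_sound p14_11_0_64)) (pfC_sound p14_11_0_65)) (pfC_sound p14_11_0_66)) (pfC_sound p14_11_0_67)) (pfC_sound p14_11_0_68)) (pfC_sound p14_11_0_69)) (pfC_sound p14_11_0_70)) (pfC_sound p14_11_0_71)) (pfC_sound p14_11_0_72)) (pfC_sound p14_11_0_73)) (pfC_sound p14_11_0_74)) (pfC_sound p14_11_0_75)) (pfC_sound p14_11_0_76)) (pfC_sound p14_11_0_77)) (pfC_sound p14_11_0_78)) (pfC_sound p14_11_0_79))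 (pfC_sound p14_11_0_80)) (pfC_sound p14_11_0_81)) (pfC_sound p14_11_0_82)) (pfC_sound p14_11_0_83)) (pfC_sound p14_11_0_84)) (pfC_sound p14_11_0_85)) (pfC_sound p14_11_0_86)) (pfC_sound p14_11_0_87)) (pfC_sound p14_11_0_88)) (pfC_sound p14_11_0_89)) (pfC_sound p14_11_0_90)) (pfC_sound p14_11_0_91)) (pfC_sound p14_11_0_92)) (pfC_sound p14_11_0_93)) (pfC_sound p14_11_0_94)) (pfC_sound p14_11_0_95)) (pfC_sound p14_11_0_96)) (pfC_sound p14_11_0_97)) (pfC_sound p14_11_0_98)) (pfC_sound p14_11_0_99)) (pfC_sound p14_11_0_100)) (pfC_sound p14_11_0_101)) (pfC_sound p14_11_0_102)) (pfC_sound p14_11_0_103)) (pfC_sound p14_11_0_104)) (pfC_sound p14_11_0_105))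
 (pfC_sound p14_11_0_106)) (pfC_sound p14_11_0_107)) (pfC_sound p14_11_0_108)) (pfC_sound p14_11_0_109)) (pfC_sound p14_11_0_110)) (pfC_sound p14_11_0_111)) (pfC_sound p14_11_0_112)) (pfC_sound p14_11_0_113)) (pfC_sound p14_11_0_114)) (pfC_sound p14_11_0_115)) (pfC_sound p14_11_0_116)) (pfC_sound p14_11_0_117)) (pfC_sound p14_11_0_118)) (pfC_sound p14_11_0_119)) (pfC_sound p14_11_0_120)) (pfC_sound p14_11_0_121)) (pfC_sound p14_11_0_122)) (pfC_sound p14_11_0_123)) (pfC_sound p14_11_0_124)) (pfC_sound p14_11_0_125)) (pfC_sound p14_11_0_126)) (pfC_sound p14_11_0_127)) (pfC_sound p14_11_0_128)) (pfC_sound p14_11_0_129)) (pfC_sound p14_11_0_130)) (pfC_sound p14_11_0_131)) (pfC_sound p14_11_0_132)) (pfC_sound p14_11_0_133)) (pfC_sound p14_11_0_134)) (pfC_sound p14_11_0_135)) (pfC_sound p14_11_0_136)) (pfC_sound p14_11_0_137)) (pfC_sound p14_11_0_138)) (pfC_sound p14_11_0_139)) (pfC_sound p14_11_0_140)) (pfC_sound p14_11_0_141)) (pfC_sound p14_11_0_142)) (pfC_sound p14_11_0_143))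 (pfC_sound p14_11_0_144)) (pfC_sound p14_11_0_145)) (pfC_sound p14_11_0_146)) (pfC_sound p14_11_0_147)) (pfC_sound p14_11_0_148)) (pfC_sound p14_11_0_149)) (pfC_sound p14_11_0_150)) (pfC_sound p14_11_0_151))
 (pfC_sound p14_11_0_152)) (pfC_sound p14_11_0_153)) (pfC_sound p14_11_0_154)) (pfC_sound p14_11_0_155)) (pfC_sound p14_11_0_156)) (pfC_sound p14_11_0_157)) (pfC_sound p14_11_0_158)) (pfC_sound p14_11_0_159)) (pfC_sound p14_11_0_160)) (pfC_sound p14_11_0_161)) (pfC_sound p14_11_0_162)) (pfC_sound p14_11_0_163)) (pfC_sound p14_11_0_164)) (pfC_sound p14_11_0_165)) (pfC_sound p14_11_0_166)) (pfC_sound p14_11_0_167)) (pfC_sound p14_11_0_168)) (pfC_sound p14_11_0_169)) (pfC_sound p14_11_0_170)) (pfC_sound p14_11_0_171)) (pfC_sound p14_11_0_172)) (pfC_sound p14_11_0_173)) (pfC_sound p14_11_0_174)) (pfC_sound p14_11_0_175)) (pfC_sound p14_11_0_176)) (pfC_sound p14_11_0_177)) (pfC_sound p14_11_0_178)) (pfC_sound p14_11_0_179)) (pfC_sound p14_11_0_180)) (pfC_sound p14_11_0_181))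 (pfC_sound p14_11_0_182)) (pfC_sound p14_11_0_183)) (pfC_sound p14_11_0_184)) (pfC_sound p14_11_0_185)) (pfC_sound p14_11_0_186)) (pfC_sound p14_11_0_187)) (pfC_sound p14_11_0_188)) (pfC_sound p14_11_0_189)) (pfC_sound p14_11_0_190)) (pfC_sound p14_11_0_191)) (pfC_sound p14_11_0_192)) (pfC_sound p14_11_0_193)) (pfC_sound p14_11_0_194)) (pfC_sound p14_11_0_195)) (by decide +kernel)

def z14_11_0 : zOK yB14_11 (nat_lit 0) (nat_lit 0) (nat_lit 400) (nat_lit 25010362) (nat_lit 10412874) = true := by decide +kernel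
def g14_11_0 : gOK yB14_11.x P14_11 (nat_lit 1428) (q14_11 :: r14_11) (nat_lit 0) (nat_lit 0) (nat_lit 1) (nat_lit 400) (nat_lit 0) (nat_lit 11000000) (nat_lit 12712500) (nat_lit 12712500) [(nat_lit 800), (nat_lit 1400), (nat_lit 1530)] = true := by decide +kernel
def v14_11_0 : ivC P14_11 s14_11 w14_11 n14_11 (nat_lit 4) (nat_lit 5440) (nat_lit 0) (nat_lit 0) f152_1_0 f160_1_0 (nat_lit 1) (nat_lit 400) f152_1_400 f160_1_400 (nat_lit 25010362) (nat_lit 10412874) p14_11_0 = true := by decide +kernel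
def p14_11_1 : PF := (PF.cons (PF.cons (PF.cons (PF.cons (PF.leaf (nat_lit 2122543) (nat_lit 10136124) (nat_lit 56972688) (nat_lit 10136124) [(nat_lit 0), (nat_lit 0), (nat_lit 0), (nat_lit 0)]) (PF.cons (PF.leaf (nat_lit 2262673) (nat_lit 233019) (nat_lit 56721613) (nat_lit 10154180) [(nat_lit 233019), (nat_lit 0), (nat_lit 0), (nat_lit 0)]) (PF.cons (PF.leaf (nat_lit 2429877) (nat_lit 253796) (nat_lit 56427311) (nat_lit 10173907) [(nat_lit 253796), (nat_lit 0), (nat_lit 0), (nat_lit 0)]) (PF.cons (PF.leaf (nat_lit 2618210) (nat_lit 272379) (nat_lit 56097418) (nat_lit 10194255) [(nat_lit 272379), (nat_lit 0), (nat_lit 0), (nat_lit 0)]) (PF.cons (PF.leaf (nat_lit 2824680) (nat_lit 289270) (nat_lit 55737313) (nat_lit 10214418) [(nat_lit 289270), (nat_lit 0), (nat_lit 0), (nat_lit 0)]) (PF.cons (PF.leaf (nat_lit 3047242) (nat_lit 304785) (nat_lit 55351133) (nat_lit 10233753) [(nat_lit 304785), (nat_lit 0), (nat_lit 0), (nat_lit 0)]) (PF.cons (PF.leaf (nat_lit 3284112)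 (nat_lit 319138) (nat_lit 54942240) (nat_lit 10251740) [(nat_lit 319138), (nat_lit 0), (nat_lit 0), (nat_lit 0)]) (PF.cons PF.nil (PF.cons PF.nil PF.nil))))))))) (PF.cons (PF.cons (PF.leaf (nat_lit 2640199) (nat_lit 1154758) (nat_lit
 55745572) (nat_lit 10208481) [(nat_lit 0), (nat_lit 1154758), (nat_lit 0), (nat_lit 0)]) (PF.cons (PF.leaf (nat_lit 2824458) (nat_lit 284061) (nat_lit 55415576) (nat_lit 10225140) [(nat_lit 284061), (nat_lit 1184035), (nat_lit 0), (nat_lit 0)]) (PF.cons (PF.leaf (nat_lit 3029358) (nat_lit 300302) (nat_lit 55053685) (nat_lit 10241496) [(nat_lit 300302), (nat_lit 1213026), (nat_lit 0), (nat_lit 0)]) (PF.cons (PF.leaf (nat_lit 3250898) (nat_lit 315155) (nat_lit 54665180) (nat_lit 10256903) [(nat_lit 315155), (nat_lit 1241261), (nat_lit 0), (nat_lit 0)]) (PF.cons (PF.leaf (nat_lit 3487009) (nat_lit 328861) (nat_lit 54254020) (nat_lit 10270861) [(nat_lit 328861), (nat_lit 1268484), (nat_lit 0), (nat_lit 0)]) (PF.cons (PF.leaf (nat_lit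 3736024) (nat_lit 341582) (nat_lit 53823369) (nat_lit 10282977) [(nat_lit 341582), (nat_lit 1294554), (nat_lit 0), (nat_lit 0)]) (PF.cons PF.nil PF.nil))))))) (PF.cons (PF.cons (PF.leaf (nat_lit 3238573) (nat_lit 1247549) (nat_lit 54351442) (nat_lit 10262271) [(nat_lit 0), (nat_lit 1247549), (nat_lit 0), (nat_lit 0)]) (PF.cons (PF.leaf (nat_lit 3456423) (nat_lit 324214) (nat_lit 53965101) (nat_lit 10273755) [(nat_lit 324214), (nat_lit 1272870), (nat_lit
 0), (nat_lit 0)]) (PF.cons (PF.leaf (nat_lit 3690476) (nat_lit 337450) (nat_lit 53555162) (nat_lit 10283748) [(nat_lit 337450), (nat_lit 1297500), (nat_lit 0), (nat_lit 0)]) (PF.cons (PF.leaf (nat_lit 3937752) (nat_lit 349679) (nat_lit 53125454) (nat_lit 10291873) [(nat_lit 349679), (nat_lit 1321223), (nat_lit 0), (nat_lit 0)]) (PF.cons (PF.leaf (nat_lit 4196715) (nat_lit 361035) (nat_lit 52678996) (nat_lit 10297844) [(nat_lit 361035), (nat_lit 1343913), (nat_lit 0), (nat_lit 0)]) PF.nil))))) (PF.cons (PF.cons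 (PF.leaf (nat_lit 3896134) (nat_lit 1323991) (nat_lit 52846339) (nat_lit 10290499) [(nat_lit 0), (nat_lit 1323991), (nat_lit 0), (nat_lit 0)]) (PF.cons (PF.leaf (nat_lit 4139755) (nat_lit 356821) (nat_lit 52420612) (nat_lit 10294796) [(nat_lit 356821), (nat_lit 1345527), (nat_lit 0), (nat_lit 0)]) (PF.cons (PF.leaf (nat_lit 4396170) (nat_lit 367785) (nat_lit 51977633) (nat_lit 10296957) [(nat_lit 367785), (nat_lit 1366217), (nat_lit 0), (nat_lit 0)]) (PF.cons PF.nil PF.nil)))) (PF.cons (PF.cons (PF.leaf (nat_lit 4596250) (nat_lit 1386506) (nat_lit 51272317) (nat_lit 10290468) [(nat_lit 0), (nat_lit 1386506), (nat_lit 0), (nat_lit 0)]) (PF.cons (PF.leaf (nat_lit 4859378)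
 (nat_lit 383554) (nat_lit 50820476) (nat_lit 10286754) [(nat_lit 383554), (nat_lit 1404506), (nat_lit 0), (nat_lit 0)]) PF.nil)) (PF.cons PF.nil (PF.cons PF.nil (PF.cons PF.nil PF.nil)))))))) (PF.cons (PF.cons (PF.cons (PF.leaf (nat_lit 3209989) (nat_lit 3139489) (nat_lit 53718033) (nat_lit 10251289) [(nat_lit 0), (nat_lit 0), (nat_lit 3139489), (nat_lit 0)]) (PF.cons (PF.leaf (nat_lit 3404639) (nat_lit 307809) (nat_lit 53374949) (nat_lit 10259226) [(nat_lit 307809), (nat_lit 0), (nat_lit 3166828), (nat_lit 0)]) (PF.cons (PF.leaf (nat_lit 3619022) (nat_lit 323159) (nat_lit 53001771) (nat_lit 10266119) [(nat_lit 323159), (nat_lit 0), (nat_lit 3194602), (nat_lit 0)]) (PF.cons (PF.leaf (nat_lit 3849049) (nat_lit 336989) (nat_lit 52604159) (nat_lit 10271528) [(nat_lit 336989), (nat_lit 0), (nat_lit 3222156), (nat_lit 0)]) (PF.cons (PF.leaf (nat_lit 4092516) (nat_lit 349596) (nat_lit 52186264) (nat_lit 10275121) [(nat_lit 349596), (nat_lit 0), (nat_lit 3249042), (nat_lit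 0)]) (PF.cons (PF.leaf (nat_lit 4347770) (nat_lit 361177) (nat_lit 51751329) (nat_lit 10276645) [(nat_lit 361177), (nat_lit 0), (nat_lit 3274951), (nat_lit 0)]) (PF.cons PF.nil PF.nil))))))) (PF.cons (PF.cons (PF.leaf
 (nat_lit 3825626) (nat_lit 1310376) (nat_lit 52296718) (nat_lit 10269123) [(nat_lit 0), (nat_lit 1310376), (nat_lit 3232593), (nat_lit 0)]) (PF.cons (PF.leaf (nat_lit 4050722) (nat_lit 343998) (nat_lit 51904914) (nat_lit 10271122) [(nat_lit 343998), (nat_lit 1331872), (nat_lit 3256904), (nat_lit 0)]) (PF.cons (PF.leaf (nat_lit 4290981) (nat_lit 356263) (nat_lit 51491610) (nat_lit 10271285) [(nat_lit 356263), (nat_lit 1352647), (nat_lit 3280742), (nat_lit 0)]) (PF.cons (PF.leaf (nat_lit 4543418) (nat_lit 367467) (nat_lit 51060734) (nat_lit 10269382) [(nat_lit 367467), (nat_lit 1372536), (nat_lit 3303759), (nat_lit 0)]) (PF.cons PF.nil PF.nil))))) (PF.cons (PF.cons (PF.leaf (nat_lit 4491244) (nat_lit 1373307) (nat_lit 50791194) (nat_lit 10262045) [(nat_lit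 0), (nat_lit 1373307), (nat_lit 3308958), (nat_lit 0)]) (PF.cons (PF.leaf (nat_lit 4739122) (nat_lit 372930) (nat_lit 50366991) (nat_lit 10256942) [(nat_lit 372930), (nat_lit 1391359), (nat_lit 3329228), (nat_lit 0)]) (PF.cons (PF.leaf (nat_lit 4998763) (nat_lit 382933) (nat_lit 49927549) (nat_lit 10249632) [(nat_lit 382933), (nat_lit 1408590), (nat_lit 3348583), (nat_lit 0)]) (PF.cons PF.nil PF.nil)))) (PF.cons (PF.cons (PF.leaf
 (nat_lit 5191452) (nat_lit 1424071) (nat_lit 49238867) (nat_lit 10229254) [(nat_lit 0), (nat_lit 1424071), (nat_lit 3368475), (nat_lit 0)]) (PF.cons PF.nil PF.nil)) (PF.cons PF.nil (PF.cons PF.nil PF.nil)))))) (PF.cons (PF.cons (PF.cons (PF.leaf (nat_lit 4403421) (nat_lit 3299358) (nat_lit 50278436) (nat_lit 10231659) [(nat_lit 0), (nat_lit 0), (nat_lit 3299358), (nat_lit 0)]) (PF.cons (PF.leaf (nat_lit 4633346) (nat_lit 359878) (nat_lit 49887358) (nat_lit 10225399) [(nat_lit 359878), (nat_lit 0), (nat_lit 3318088), (nat_lit 0)]) (PF.cons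 (PF.leaf (nat_lit 4877506) (nat_lit 371252) (nat_lit 49476715) (nat_lit 10217100) [(nat_lit 371252), (nat_lit 0), (nat_lit 3336246), (nat_lit 0)]) (PF.cons (PF.leaf (nat_lit 5132911) (nat_lit 381527) (nat_lit 49050444) (nat_lit 10206656) [(nat_lit 381527), (nat_lit 0), (nat_lit 3353564), (nat_lit 0)]) (PF.cons PF.nil PF.nil))))) (PF.cons (PF.cons (PF.leaf (nat_lit 5071288) (nat_lit 1410081) (nat_lit 48792618) (nat_lit 10194664) [(nat_lit 0), (nat_lit 1410081), (nat_lit 3355724), (nat_lit 0)]) (PF.cons (PF.leaf (nat_lit 5321447) (nat_lit 385584) (nat_lit 48374925) (nat_lit 10181642) [(nat_lit 385584), (nat_lit 1425158), (nat_lit 3370750), (nat_lit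
 0)]) (PF.cons (PF.leaf (nat_lit 5582445) (nat_lit 394720) (nat_lit 47943747) (nat_lit 10166423) [(nat_lit 394720), (nat_lit 1439439), (nat_lit 3384880), (nat_lit 0)]) (PF.cons PF.nil PF.nil)))) (PF.cons (PF.cons (PF.leaf (nat_lit 5767198) (nat_lit 1450946) (nat_lit 47277213) (nat_lit 10134857) [(nat_lit 0), (nat_lit 1450946), (nat_lit 3397423), (nat_lit 0)]) (PF.cons PF.nil PF.nil)) (PF.cons PF.nil (PF.cons PF.nil PF.nil))))) (PF.cons (PF.cons (PF.cons (PF.leaf (nat_lit 5634032) (nat_lit 3382595) (nat_lit 46864849) (nat_lit 10096176) [(nat_lit 0), (nat_lit 0), (nat_lit 3382595), (nat_lit 0)]) (PF.cons (PF.leaf (nat_lit 5884858) (nat_lit 395333) (nat_lit 46457217) (nat_lit 10076614) [(nat_lit 395333), (nat_lit 0), (nat_lit 3393215), (nat_lit 0)]) (PF.cons PF.nil (PF.cons PF.nil PF.nil)))) (PF.cons (PF.cons (PF.leaf (nat_lit 6322340) (nat_lit 1469022) (nat_lit 45396757) (nat_lit 10014510) [(nat_lit 0), (nat_lit 1469022), (nat_lit 3409507), (nat_lit 0)]) (PF.cons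 PF.nil PF.nil)) (PF.cons PF.nil PF.nil))) (PF.cons (PF.cons (PF.cons (PF.leaf (nat_lit 6856450) (nat_lit 3407976) (nat_lit 43602602) (nat_lit 9874304) [(nat_lit 0), (nat_lit 0), (nat_lit 3407976), (nat_lit 0)]) (PF.cons
 PF.nil PF.nil)) (PF.cons PF.nil PF.nil)) (PF.cons PF.nil PF.nil)))))) (PF.cons (PF.cons (PF.cons (PF.cons (PF.leaf (nat_lit 4277076) (nat_lit 9233639) (nat_lit 47883981) (nat_lit 9991191) [(nat_lit 0), (nat_lit 0), (nat_lit 0), (nat_lit 9233639)]) (PF.cons (PF.leaf (nat_lit 4471250) (nat_lit 321759) (nat_lit 47574135) (nat_lit 9983441) [(nat_lit 321759), (nat_lit 0), (nat_lit 0), (nat_lit 9229476)]) (PF.cons (PF.leaf (nat_lit 4683727) (nat_lit 336223) (nat_lit 47238714) (nat_lit 9973868) [(nat_lit 336223), (nat_lit 0), (nat_lit 0), (nat_lit 9223783)]) (PF.cons (PF.leaf (nat_lit 4910376) (nat_lit 348985) (nat_lit 46883015) (nat_lit 9962406) [(nat_lit 348985), (nat_lit 0), (nat_lit 0), (nat_lit 9216434)]) (PF.cons (PF.leaf (nat_lit 5148960) (nat_lit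 360394) (nat_lit 46510890) (nat_lit 9949006) [(nat_lit 360394), (nat_lit 0), (nat_lit 0), (nat_lit 9207338)]) (PF.cons (PF.leaf (nat_lit 5397809) (nat_lit 370688) (nat_lit 46125309) (nat_lit 9933633) [(nat_lit 370688), (nat_lit 0), (nat_lit 0), (nat_lit 9196429)]) (PF.cons (PF.leaf (nat_lit 5655431) (nat_lit 380035) (nat_lit 45728657) (nat_lit 9916271) [(nat_lit 380035), (nat_lit 0), (nat_lit 0), (nat_lit 9183668)]) (PF.cons PF.nil
 (PF.cons PF.nil PF.nil))))))))) (PF.cons (PF.cons (PF.leaf (nat_lit 4873902) (nat_lit 1340169) (nat_lit 46615074) (nat_lit 9948330) [(nat_lit 0), (nat_lit 1340169), (nat_lit 0), (nat_lit 9205238)]) (PF.cons (PF.leaf (nat_lit 5094564) (nat_lit 353770) (nat_lit 46267038) (nat_lit 9934922) [(nat_lit 353770), (nat_lit 1357212), (nat_lit 0), (nat_lit 9195869)]) (PF.cons (PF.leaf (nat_lit 5328846) (nat_lit 364897) (nat_lit 45901375) (nat_lit 9919526) [(nat_lit 364897), (nat_lit 1373394), (nat_lit 0), (nat_lit 9184721)]) (PF.cons (PF.leaf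 (nat_lit 5573899) (nat_lit 374878) (nat_lit 45521650) (nat_lit 9902144) [(nat_lit 374878), (nat_lit 1388622), (nat_lit 0), (nat_lit 9171760)]) (PF.cons (PF.leaf (nat_lit 5828098) (nat_lit 383902) (nat_lit 45130584) (nat_lit 9882787) [(nat_lit 383902), (nat_lit 1402861), (nat_lit 0), (nat_lit 9156968)]) (PF.cons PF.nil (PF.cons PF.nil PF.nil))))))) (PF.cons (PF.cons (PF.leaf (nat_lit 5510109) (nat_lit 1386839) (nat_lit 45290031) (nat_lit 9886483) [(nat_lit 0), (nat_lit 1386839), (nat_lit 0), (nat_lit 9158617)]) (PF.cons (PF.leaf (nat_lit 5749834) (nat_lit 378358) (nat_lit 44918161) (nat_lit 9867335) [(nat_lit 378358), (nat_lit 1400565), (nat_lit 0),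
 (nat_lit 9143826)]) (PF.cons (PF.leaf (nat_lit 5999942) (nat_lit 387153) (nat_lit 44534200) (nat_lit 9846203) [(nat_lit 387153), (nat_lit 1413447), (nat_lit 0), (nat_lit 9127207)]) (PF.cons (PF.leaf (nat_lit 6258265) (nat_lit 395108) (nat_lit 44140664) (nat_lit 9823131) [(nat_lit 395108), (nat_lit 1425456), (nat_lit 0), (nat_lit 9108778)]) (PF.cons PF.nil PF.nil))))) (PF.cons (PF.cons (PF.leaf (nat_lit 6172102) (nat_lit 1422773) (nat_lit 43939365) (nat_lit 9806626) [(nat_lit 0), (nat_lit 1422773), (nat_lit 0), (nat_lit 9094500)]) (PF.cons (PF.leaf (nat_lit 6425477) (nat_lit 397573) (nat_lit 43553861) (nat_lit 9782018) [(nat_lit 397573), (nat_lit 1433627), (nat_lit 0), (nat_lit 9074476)]) (PF.cons PF.nil (PF.cons PF.nil PF.nil)))) (PF.cons (PF.cons (PF.leaf (nat_lit 6849711) (nat_lit 1449793) (nat_lit 42584804) (nat_lit 9710446) [(nat_lit 0), (nat_lit 1449793), (nat_lit 0), (nat_lit 9014387)]) (PF.cons PF.nil PF.nil)) (PF.cons PF.nil PF.nil)))))) (PF.cons (PF.cons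 (PF.cons (PF.leaf (nat_lit 5402121) (nat_lit 3279859) (nat_lit 44862942) (nat_lit 9844780) [(nat_lit 0), (nat_lit 0), (nat_lit 3279859), (nat_lit 9121230)]) (PF.cons (PF.leaf (nat_lit 5625157) (nat_lit 364625) (nat_lit
 44520332) (nat_lit 9826265) [(nat_lit 364625), (nat_lit 0), (nat_lit 3290801), (nat_lit 9106788)]) (PF.cons (PF.leaf (nat_lit 5861036) (nat_lit 374923) (nat_lit 44161677) (nat_lit 9805706) [(nat_lit 374923), (nat_lit 0), (nat_lit 3301076), (nat_lit 9090503)]) (PF.cons (PF.leaf (nat_lit 6106903) (nat_lit 384073) (nat_lit 43790468) (nat_lit 9783181) [(nat_lit 384073), (nat_lit 0), (nat_lit 3310528), (nat_lit 9072415)]) (PF.cons (PF.leaf (nat_lit 6361149) (nat_lit 392276) (nat_lit 43409332) (nat_lit 9758756) [(nat_lit 392276), (nat_lit 0), (nat_lit 3319057), (nat_lit 9052561)]) PF.nil))))) (PF.cons (PF.cons (PF.leaf (nat_lit 6035630) (nat_lit 1407043) (nat_lit 43570987) (nat_lit 9765180) [(nat_lit 0), (nat_lit 1407043), (nat_lit 3308718), (nat_lit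 9056883)]) (PF.cons (PF.leaf (nat_lit 6275764) (nat_lit 386474) (nat_lit 43208640) (nat_lit 9741329) [(nat_lit 386474), (nat_lit 1418434), (nat_lit 3316537), (nat_lit 9037396)]) (PF.cons (PF.leaf (nat_lit 6525545) (nat_lit 394521) (nat_lit 42835517) (nat_lit 9715556) [(nat_lit 394521), (nat_lit 1429034), (nat_lit 3323529), (nat_lit 9016132)]) (PF.cons PF.nil PF.nil)))) (PF.cons (PF.cons (PF.leaf (nat_lit 6690298) (nat_lit 1435514) (nat_lit
 42264364) (nat_lit 9669882) [(nat_lit 0), (nat_lit 1435514), (nat_lit 3326275), (nat_lit 8977261)]) (PF.cons (PF.leaf (nat_lit 6942404) (nat_lit 403329) (nat_lit 41891542) (nat_lit 9641149) [(nat_lit 403329), (nat_lit 1444339), (nat_lit 3331023), (nat_lit 8953088)]) PF.nil)) (PF.cons PF.nil (PF.cons PF.nil PF.nil))))) (PF.cons (PF.cons (PF.cons (PF.leaf (nat_lit 6544421) (nat_lit 3308745) (nat_lit 41925297) (nat_lit 9627480) [(nat_lit 0), (nat_lit 0), (nat_lit 3308745), (nat_lit 8938543)]) (PF.cons (PF.leaf (nat_lit 6783912)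 (nat_lit 392478) (nat_lit 41574251) (nat_lit 9599843) [(nat_lit 392478), (nat_lit 0), (nat_lit 3313495), (nat_lit 8915248)]) (PF.cons (PF.leaf (nat_lit 7032458) (nat_lit 399858) (nat_lit 41213563) (nat_lit 9570365) [(nat_lit 399858), (nat_lit 0), (nat_lit 3317459), (nat_lit 8890248)]) (PF.cons PF.nil PF.nil)))) (PF.cons (PF.cons (PF.leaf (nat_lit 7189887) (nat_lit 1442260) (nat_lit 40667310) (nat_lit 9520048) [(nat_lit 0), (nat_lit 1442260), (nat_lit 3316281), (nat_lit 8846630)]) (PF.cons PF.nil PF.nil)) (PF.cons PF.nil PF.nil))) (PF.cons (PF.cons (PF.cons (PF.leaf (nat_lit 7671054) (nat_lit 3297783) (nat_lit 39148612) (nat_lit 9360728) [(nat_lit 0), (nat_lit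
 0), (nat_lit 3297783), (nat_lit 8706122)]) (PF.cons PF.nil PF.nil)) (PF.cons PF.nil PF.nil)) (PF.cons PF.nil PF.nil))))) (PF.cons (PF.cons (PF.cons (PF.cons (PF.leaf (nat_lit 6271255) (nat_lit 8711325) (nat_lit 40304340) (nat_lit 9381821) [(nat_lit 0), (nat_lit 0), (nat_lit 0), (nat_lit 8711325)]) (PF.cons (PF.leaf (nat_lit 6486023) (nat_lit 362480) (nat_lit 40007321) (nat_lit 9357410) [(nat_lit 362480), (nat_lit 0), (nat_lit 0), (nat_lit 8690799)]) (PF.cons (PF.leaf (nat_lit 6712587) (nat_lit 371888) (nat_lit 39696964) (nat_lit 9331055) [(nat_lit 371888), (nat_lit 0), (nat_lit 0), (nat_lit 8668508)]) (PF.cons (PF.leaf (nat_lit 6948140) (nat_lit 380136) (nat_lit 39376301) (nat_lit 9302930) [(nat_lit 380136), (nat_lit 0), (nat_lit 0), (nat_lit 8644586)]) (PF.cons (PF.leaf (nat_lit 7191135) (nat_lit 387439) (nat_lit 39047602) (nat_lit 9273167) [(nat_lit 387439), (nat_lit 0), (nat_lit 0), (nat_lit 8619141)]) PF.nil))))) (PF.cons (PF.cons (PF.leaf (nat_lit 6870903)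 (nat_lit 1382397) (nat_lit 39190437) (nat_lit 9282691) [(nat_lit 0), (nat_lit 1382397), (nat_lit 0), (nat_lit 8626643)]) (PF.cons (PF.leaf (nat_lit 7100537) (nat_lit 381432) (nat_lit 38878065) (nat_lit 9253980) [(nat_lit
 381432), (nat_lit 1391240), (nat_lit 0), (nat_lit 8602047)]) (PF.cons (PF.leaf (nat_lit 7338939) (nat_lit 388632) (nat_lit 38556855) (nat_lit 9223584) [(nat_lit 388632), (nat_lit 1399322), (nat_lit 0), (nat_lit 8575892)]) (PF.cons PF.nil PF.nil)))) (PF.cons (PF.cons (PF.leaf (nat_lit 7487332) (nat_lit 1402614) (nat_lit 38068998) (nat_lit 9172432) [(nat_lit 0), (nat_lit 1402614), (nat_lit 0), (nat_lit 8531076)]) (PF.cons (PF.leaf (nat_lit 7727179) (nat_lit 395680) (nat_lit 37748903) (nat_lit 9140023) [(nat_lit 395680), (nat_lit 1409175), (nat_lit 0), (nat_lit 8502926)]) PF.nil)) (PF.cons PF.nil (PF.cons PF.nil PF.nil))))) (PF.cons (PF.cons (PF.cons (PF.leaf (nat_lit 7334702) (nat_lit 3203185) (nat_lit 37789690) (nat_lit 9130676) [(nat_lit 0), (nat_lit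 0), (nat_lit 3203185), (nat_lit 8492630)]) (PF.cons (PF.leaf (nat_lit 7563075) (nat_lit 385039) (nat_lit 37488028) (nat_lit 9099792) [(nat_lit 385039), (nat_lit 0), (nat_lit 3204364), (nat_lit 8465794)]) (PF.cons (PF.leaf (nat_lit 7799680) (nat_lit 391664) (nat_lit 37178393) (nat_lit 9067306) [(nat_lit 391664), (nat_lit 0), (nat_lit 3204835), (nat_lit 8437474)]) (PF.cons PF.nil PF.nil)))) (PF.cons (PF.cons (PF.leaf (nat_lit 7941615)
 (nat_lit 1402575) (nat_lit 36712665) (nat_lit 9013866) [(nat_lit 0), (nat_lit 1402575), (nat_lit 3199283), (nat_lit 8390210)]) (PF.cons PF.nil PF.nil)) (PF.cons PF.nil PF.nil))) (PF.cons (PF.cons (PF.cons (PF.leaf (nat_lit 8379924) (nat_lit 3171879) (nat_lit 35423646) (nat_lit 8851447) [(nat_lit 0), (nat_lit 0), (nat_lit 3171879), (nat_lit 8244979)]) (PF.cons PF.nil PF.nil)) (PF.cons PF.nil PF.nil)) PF.nil))) (PF.cons (PF.cons (PF.cons (PF.cons (PF.leaf (nat_lit 8032329) (nat_lit 8051142) (nat_lit 34312208) (nat_lit 8643177) [(nat_lit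 0), (nat_lit 0), (nat_lit 0), (nat_lit 8051142)]) (PF.cons (PF.leaf (nat_lit 8250161) (nat_lit 375251) (nat_lit 34052167) (nat_lit 8611593) [(nat_lit 375251), (nat_lit 0), (nat_lit 0), (nat_lit 8023266)]) (PF.cons PF.nil PF.nil))) (PF.cons (PF.cons (PF.leaf (nat_lit 8604968) (nat_lit 1357089) (nat_lit 33386491) (nat_lit 8525490) [(nat_lit 0), (nat_lit 1357089), (nat_lit 0), (nat_lit 7946580)]) PF.nil) PF.nil)) (PF.cons PF.nil PF.nil)) (PF.cons PF.nil (PF.cons PF.nil (PF.cons PF.nil (PF.cons PF.nil PF.nil))))))))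

def p14_11_1_0 : pfC (piC [(nat_lit 40745421), (nat_lit 26310893), (nat_lit 19519284), (nat_lit 13130440)] (nat_lit 10412874)) p14_11_1 (nat_lit 4) (nat_lit 0) (nat_lit 1) = true := by decide +kernel
def p14_11_1_1 : pfC (piC [(nat_lit 40745421), (nat_lit 26310893), (nat_lit 19519284), (nat_lit 13130440)] (nat_lit 10412874)) p14_11_1 (nat_lit 4) (nat_lit 1) (nat_lit 2) = true := by decide +kernel
def p14_11_1_2 : pfC (piC [(nat_lit 40745421), (nat_lit 26310893), (nat_lit 19519284), (nat_lit 13130440)] (nat_lit 10412874)) p14_11_1 (nat_lit 4) (nat_lit 2) (nat_lit 3) = true := by decide +kernel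
def p14_11_1_3 : pfC (piC [(nat_lit 40745421), (nat_lit 26310893), (nat_lit 19519284), (nat_lit 13130440)] (nat_lit 10412874)) p14_11_1 (nat_lit 4) (nat_lit 3) (nat_lit 4) = true := by decide +kernel
def p14_11_1_4 : pfC (piC [(nat_lit 40745421), (nat_lit 26310893), (nat_lit 19519284), (nat_lit 13130440)] (nat_lit 10412874)) p14_11_1 (nat_lit 4) (nat_lit 4) (nat_lit 5) = true := by decide +kernel
def p14_11_1_5 : pfC (piC [(nat_lit 40745421), (nat_lit 26310893), (nat_lit 19519284), (nat_lit 13130440)] (nat_lit 10412874)) p14_11_1 (nat_lit 4) (nat_lit 5) (nat_lit 6) = true := by decide +kernel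
def p14_11_1_6 : pfC (piC [(nat_lit 40745421), (nat_lit 26310893), (nat_lit 19519284), (nat_lit 13130440)] (nat_lit 10412874)) p14_11_1 (nat_lit 4) (nat_lit 6) (nat_lit 7) = true := by decide +kernel
def p14_11_1_7 : pfC (piC [(nat_lit 40745421), (nat_lit 26310893), (nat_lit 19519284), (nat_lit 13130440)] (nat_lit 10412874)) p14_11_1 (nat_lit 4) (nat_lit 7) (nat_lit 8) = true := by decide +kernel
def p14_11_1_8 : pfC (piC [(nat_lit 40745421), (nat_lit 26310893), (nat_lit 19519284), (nat_lit 13130440)] (nat_lit 10412874)) p14_11_1 (nat_lit 4) (nat_lit 8) (nat_lit 9) = true := by decide +kernel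
def p14_11_1_9 : pfC (piC [(nat_lit 40745421), (nat_lit 26310893), (nat_lit 19519284), (nat_lit 13130440)] (nat_lit 10412874)) p14_11_1 (nat_lit 4) (nat_lit 9) (nat_lit 10) = true := by decide +kernel
def p14_11_1_10 : pfC (piC [(nat_lit 40745421), (nat_lit 26310893), (nat_lit 19519284), (nat_lit 13130440)] (nat_lit 10412874)) p14_11_1 (nat_lit 4) (nat_lit 10) (nat_lit 11) = true := by decide +kernel
def p14_11_1_11 : pfC (piC [(nat_lit 40745421), (nat_lit 26310893), (nat_lit 19519284), (nat_lit 13130440)] (nat_lit 10412874)) p14_11_1 (nat_lit 4) (nat_lit 11) (nat_lit 12) = true := by decide +kernel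
def p14_11_1_12 : pfC (piC [(nat_lit 40745421), (nat_lit 26310893), (nat_lit 19519284), (nat_lit 13130440)] (nat_lit 10412874)) p14_11_1 (nat_lit 4) (nat_lit 12) (nat_lit 13) = true := by decide +kernel
def p14_11_1_13 : pfC (piC [(nat_lit 40745421), (nat_lit 26310893), (nat_lit 19519284), (nat_lit 13130440)] (nat_lit 10412874)) p14_11_1 (nat_lit 4) (nat_lit 13) (nat_lit 14) = true := by decide +kernel
def p14_11_1_14 : pfC (piC [(nat_lit 40745421), (nat_lit 26310893), (nat_lit 19519284), (nat_lit 13130440)] (nat_lit 10412874)) p14_11_1 (nat_lit 4) (nat_lit 14) (nat_lit 15) = true := by decide +kernel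
def p14_11_1_15 : pfC (piC [(nat_lit 40745421), (nat_lit 26310893), (nat_lit 19519284), (nat_lit 13130440)] (nat_lit 10412874)) p14_11_1 (nat_lit 4) (nat_lit 15) (nat_lit 16) = true := by decide +kernel
def p14_11_1_16 : pfC (piC [(nat_lit 40745421), (nat_lit 26310893), (nat_lit 19519284), (nat_lit 13130440)] (nat_lit 10412874)) p14_11_1 (nat_lit 4) (nat_lit 16) (nat_lit 17) = true := by decide +kernel
def p14_11_1_17 : pfC (piC [(nat_lit 40745421), (nat_lit 26310893), (nat_lit 19519284), (nat_lit 13130440)] (nat_lit 10412874)) p14_11_1 (nat_lit 4) (nat_lit 17) (nat_lit 18) = true := by decide +kernel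
def p14_11_1_18 : pfC (piC [(nat_lit 40745421), (nat_lit 26310893), (nat_lit 19519284), (nat_lit 13130440)] (nat_lit 10412874)) p14_11_1 (nat_lit 4) (nat_lit 18) (nat_lit 19) = true := by decide +kernel
def p14_11_1_19 : pfC (piC [(nat_lit 40745421), (nat_lit 26310893), (nat_lit 19519284), (nat_lit 13130440)] (nat_lit 10412874)) p14_11_1 (nat_lit 4) (nat_lit 19) (nat_lit 20) = true := by decide +kernel
def p14_11_1_20 : pfC (piC [(nat_lit 40745421), (nat_lit 26310893), (nat_lit 19519284), (nat_lit 13130440)] (nat_lit 10412874)) p14_11_1 (nat_lit 4) (nat_lit 20) (nat_lit 21) = true := by decide +kernel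
def p14_11_1_21 : pfC (piC [(nat_lit 40745421), (nat_lit 26310893), (nat_lit 19519284), (nat_lit 13130440)] (nat_lit 10412874)) p14_11_1 (nat_lit 4) (nat_lit 21) (nat_lit 22) = true := by decide +kernel
def p14_11_1_22 : pfC (piC [(nat_lit 40745421), (nat_lit 26310893), (nat_lit 19519284), (nat_lit 13130440)] (nat_lit 10412874)) p14_11_1 (nat_lit 4) (nat_lit 22) (nat_lit 23) = true := by decide +kernel
def p14_11_1_23 : pfC (piC [(nat_lit 40745421), (nat_lit 26310893), (nat_lit 19519284), (nat_lit 13130440)] (nat_lit 10412874)) p14_11_1 (nat_lit 4) (nat_lit 23) (nat_lit 24) = true := by decide +kernel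
def p14_11_1_24 : pfC (piC [(nat_lit 40745421), (nat_lit 26310893), (nat_lit 19519284), (nat_lit 13130440)] (nat_lit 10412874)) p14_11_1 (nat_lit 4) (nat_lit 24) (nat_lit 25) = true := by decide +kernel
def p14_11_1_25 : pfC (piC [(nat_lit 40745421), (nat_lit 26310893), (nat_lit 19519284), (nat_lit 13130440)] (nat_lit 10412874)) p14_11_1 (nat_lit 4) (nat_lit 25) (nat_lit 26) = true := by decide +kernel
def p14_11_1_26 : pfC (piC [(nat_lit 40745421), (nat_lit 26310893), (nat_lit 19519284), (nat_lit 13130440)] (nat_lit 10412874)) p14_11_1 (nat_lit 4) (nat_lit 26) (nat_lit 27) = true := by decide +kernel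
def p14_11_1_27 : pfC (piC [(nat_lit 40745421), (nat_lit 26310893), (nat_lit 19519284), (nat_lit 13130440)] (nat_lit 10412874)) p14_11_1 (nat_lit 4) (nat_lit 27) (nat_lit 28) = true := by decide +kernel
def p14_11_1_28 : pfC (piC [(nat_lit 40745421), (nat_lit 26310893), (nat_lit 19519284), (nat_lit 13130440)] (nat_lit 10412874)) p14_11_1 (nat_lit 4) (nat_lit 28) (nat_lit 29) = true := by decide +kernel
def p14_11_1_29 : pfC (piC [(nat_lit 40745421), (nat_lit 26310893), (nat_lit 19519284), (nat_lit 13130440)] (nat_lit 10412874)) p14_11_1 (nat_lit 4) (nat_lit 29) (nat_lit 30) = true := by decide +kernel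
def p14_11_1_30 : pfC (piC [(nat_lit 40745421), (nat_lit 26310893), (nat_lit 19519284), (nat_lit 13130440)] (nat_lit 10412874)) p14_11_1 (nat_lit 4) (nat_lit 30) (nat_lit 31) = true := by decide +kernel
def p14_11_1_31 : pfC (piC [(nat_lit 40745421), (nat_lit 26310893), (nat_lit 19519284), (nat_lit 13130440)] (nat_lit 10412874)) p14_11_1 (nat_lit 4) (nat_lit 31) (nat_lit 32) = true := by decide +kernel
def p14_11_1_32 : pfC (piC [(nat_lit 40745421), (nat_lit 26310893), (nat_lit 19519284), (nat_lit 13130440)] (nat_lit 10412874)) p14_11_1 (nat_lit 4) (nat_lit 32) (nat_lit 33) = true := by decide +kernel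
def p14_11_1_33 : pfC (piC [(nat_lit 40745421), (nat_lit 26310893), (nat_lit 19519284), (nat_lit 13130440)] (nat_lit 10412874)) p14_11_1 (nat_lit 4) (nat_lit 33) (nat_lit 34) = true := by decide +kernel
def p14_11_1_34 : pfC (piC [(nat_lit 40745421), (nat_lit 26310893), (nat_lit 19519284), (nat_lit 13130440)] (nat_lit 10412874)) p14_11_1 (nat_lit 4) (nat_lit 34) (nat_lit 35) = true := by decide +kernel
def p14_11_1_35 : pfC (piC [(nat_lit 40745421), (nat_lit 26310893), (nat_lit 19519284), (nat_lit 13130440)] (nat_lit 10412874)) p14_11_1 (nat_lit 4) (nat_lit 35) (nat_lit 36) = true := by decide +kernel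
def p14_11_1_36 : pfC (piC [(nat_lit 40745421), (nat_lit 26310893), (nat_lit 19519284), (nat_lit 13130440)] (nat_lit 10412874)) p14_11_1 (nat_lit 4) (nat_lit 36) (nat_lit 37) = true := by decide +kernel
def p14_11_1_37 : pfC (piC [(nat_lit 40745421), (nat_lit 26310893), (nat_lit 19519284), (nat_lit 13130440)] (nat_lit 10412874)) p14_11_1 (nat_lit 4) (nat_lit 37) (nat_lit 38) = true := by decide +kernel
def p14_11_1_38 : pfC (piC [(nat_lit 40745421), (nat_lit 26310893), (nat_lit 19519284), (nat_lit 13130440)] (nat_lit 10412874)) p14_11_1 (nat_lit 4) (nat_lit 38) (nat_lit 39) = true := by decide +kernel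
def p14_11_1_39 : pfC (piC [(nat_lit 40745421), (nat_lit 26310893), (nat_lit 19519284), (nat_lit 13130440)] (nat_lit 10412874)) p14_11_1 (nat_lit 4) (nat_lit 39) (nat_lit 40) = true := by decide +kernel
def p14_11_1_40 : pfC (piC [(nat_lit 40745421), (nat_lit 26310893), (nat_lit 19519284), (nat_lit 13130440)] (nat_lit 10412874)) p14_11_1 (nat_lit 4) (nat_lit 40) (nat_lit 41) = true := by decide +kernel
def p14_11_1_41 : pfC (piC [(nat_lit 40745421), (nat_lit 26310893), (nat_lit 19519284), (nat_lit 13130440)] (nat_lit 10412874)) p14_11_1 (nat_lit 4) (nat_lit 41) (nat_lit 42) = true := by decide +kernel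
def p14_11_1_42 : pfC (piC [(nat_lit 40745421), (nat_lit 26310893), (nat_lit 19519284), (nat_lit 13130440)] (nat_lit 10412874)) p14_11_1 (nat_lit 4) (nat_lit 42) (nat_lit 43) = true := by decide +kernel
def p14_11_1_43 : pfC (piC [(nat_lit 40745421), (nat_lit 26310893), (nat_lit 19519284), (nat_lit 13130440)] (nat_lit 10412874)) p14_11_1 (nat_lit 4) (nat_lit 43) (nat_lit 44) = true := by decide +kernel
def p14_11_1_44 : pfC (piC [(nat_lit 40745421), (nat_lit 26310893), (nat_lit 19519284), (nat_lit 13130440)] (nat_lit 10412874)) p14_11_1 (nat_lit 4) (nat_lit 44) (nat_lit 45) = true := by decide +kernel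
def p14_11_1_45 : pfC (piC [(nat_lit 40745421), (nat_lit 26310893), (nat_lit 19519284), (nat_lit 13130440)] (nat_lit 10412874)) p14_11_1 (nat_lit 4) (nat_lit 45) (nat_lit 46) = true := by decide +kernel
def p14_11_1_46 : pfC (piC [(nat_lit 40745421), (nat_lit 26310893), (nat_lit 19519284), (nat_lit 13130440)] (nat_lit 10412874)) p14_11_1 (nat_lit 4) (nat_lit 46) (nat_lit 47) = true := by decide +kernel
def p14_11_1_47 : pfC (piC [(nat_lit 40745421), (nat_lit 26310893), (nat_lit 19519284), (nat_lit 13130440)] (nat_lit 10412874)) p14_11_1 (nat_lit 4) (nat_lit 47) (nat_lit 48) = true := by decide +kernel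
def p14_11_1_48 : pfC (piC [(nat_lit 40745421), (nat_lit 26310893), (nat_lit 19519284), (nat_lit 13130440)] (nat_lit 10412874)) p14_11_1 (nat_lit 4) (nat_lit 48) (nat_lit 49) = true := by decide +kernel
def p14_11_1_49 : pfC (piC [(nat_lit 40745421), (nat_lit 26310893), (nat_lit 19519284), (nat_lit 13130440)] (nat_lit 10412874)) p14_11_1 (nat_lit 4) (nat_lit 49) (nat_lit 50) = true := by decide +kernel
def p14_11_1_50 : pfC (piC [(nat_lit 40745421), (nat_lit 26310893), (nat_lit 19519284), (nat_lit 13130440)] (nat_lit 10412874)) p14_11_1 (nat_lit 4) (nat_lit 50) (nat_lit 51) = true := by decide +kernel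
def p14_11_1_51 : pfC (piC [(nat_lit 40745421), (nat_lit 26310893), (nat_lit 19519284), (nat_lit 13130440)] (nat_lit 10412874)) p14_11_1 (nat_lit 4) (nat_lit 51) (nat_lit 52) = true := by decide +kernel
def p14_11_1_52 : pfC (piC [(nat_lit 40745421), (nat_lit 26310893), (nat_lit 19519284), (nat_lit 13130440)] (nat_lit 10412874)) p14_11_1 (nat_lit 4) (nat_lit 52) (nat_lit 53) = true := by decide +kernel
def p14_11_1_53 : pfC (piC [(nat_lit 40745421), (nat_lit 26310893), (nat_lit 19519284), (nat_lit 13130440)] (nat_lit 10412874)) p14_11_1 (nat_lit 4) (nat_lit 53) (nat_lit 54) = true := by decide +kernel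
def p14_11_1_54 : pfC (piC [(nat_lit 40745421), (nat_lit 26310893), (nat_lit 19519284), (nat_lit 13130440)] (nat_lit 10412874)) p14_11_1 (nat_lit 4) (nat_lit 54) (nat_lit 55) = true := by decide +kernel
def p14_11_1_55 : pfC (piC [(nat_lit 40745421), (nat_lit 26310893), (nat_lit 19519284), (nat_lit 13130440)] (nat_lit 10412874)) p14_11_1 (nat_lit 4) (nat_lit 55) (nat_lit 56) = true := by decide +kernel
def p14_11_1_56 : pfC (piC [(nat_lit 40745421), (nat_lit 26310893), (nat_lit 19519284), (nat_lit 13130440)] (nat_lit 10412874)) p14_11_1 (nat_lit 4) (nat_lit 56) (nat_lit 57) = true := by decide +kernel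
def p14_11_1_57 : pfC (piC [(nat_lit 40745421), (nat_lit 26310893), (nat_lit 19519284), (nat_lit 13130440)] (nat_lit 10412874)) p14_11_1 (nat_lit 4) (nat_lit 57) (nat_lit 58) = true := by decide +kernel
def p14_11_1_58 : pfC (piC [(nat_lit 40745421), (nat_lit 26310893), (nat_lit 19519284), (nat_lit 13130440)] (nat_lit 10412874)) p14_11_1 (nat_lit 4) (nat_lit 58) (nat_lit 59) = true := by decide +kernel
def p14_11_1_59 : pfC (piC [(nat_lit 40745421), (nat_lit 26310893), (nat_lit 19519284), (nat_lit 13130440)] (nat_lit 10412874)) p14_11_1 (nat_lit 4) (nat_lit 59) (nat_lit 60) = true := by decide +kernel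
def p14_11_1_60 : pfC (piC [(nat_lit 40745421), (nat_lit 26310893), (nat_lit 19519284), (nat_lit 13130440)] (nat_lit 10412874)) p14_11_1 (nat_lit 4) (nat_lit 60) (nat_lit 61) = true := by decide +kernel
def p14_11_1_61 : pfC (piC [(nat_lit 40745421), (nat_lit 26310893), (nat_lit 19519284), (nat_lit 13130440)] (nat_lit 10412874)) p14_11_1 (nat_lit 4) (nat_lit 61) (nat_lit 62) = true := by decide +kernel
def p14_11_1_62 : pfC (piC [(nat_lit 40745421), (nat_lit 26310893), (nat_lit 19519284), (nat_lit 13130440)] (nat_lit 10412874)) p14_11_1 (nat_lit 4) (nat_lit 62) (nat_lit 63) = true := by decide +kernel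
def p14_11_1_63 : pfC (piC [(nat_lit 40745421), (nat_lit 26310893), (nat_lit 19519284), (nat_lit 13130440)] (nat_lit 10412874)) p14_11_1 (nat_lit 4) (nat_lit 63) (nat_lit 64) = true := by decide +kernel
def p14_11_1_64 : pfC (piC [(nat_lit 40745421), (nat_lit 26310893), (nat_lit 19519284), (nat_lit 13130440)] (nat_lit 10412874)) p14_11_1 (nat_lit 4) (nat_lit 64) (nat_lit 65) = true := by decide +kernel
def p14_11_1_65 : pfC (piC [(nat_lit 40745421), (nat_lit 26310893), (nat_lit 19519284), (nat_lit 13130440)] (nat_lit 10412874)) p14_11_1 (nat_lit 4) (nat_lit 65) (nat_lit 66) = true := by decide +kernel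
def p14_11_1_66 : pfC (piC [(nat_lit 40745421), (nat_lit 26310893), (nat_lit 19519284), (nat_lit 13130440)] (nat_lit 10412874)) p14_11_1 (nat_lit 4) (nat_lit 66) (nat_lit 67) = true := by decide +kernel
def p14_11_1_67 : pfC (piC [(nat_lit 40745421), (nat_lit 26310893), (nat_lit 19519284), (nat_lit 13130440)] (nat_lit 10412874)) p14_11_1 (nat_lit 4) (nat_lit 67) (nat_lit 68) = true := by decide +kernel
def p14_11_1_68 : pfC (piC [(nat_lit 40745421), (nat_lit 26310893), (nat_lit 19519284), (nat_lit 13130440)] (nat_lit 10412874)) p14_11_1 (nat_lit 4) (nat_lit 68) (nat_lit 69) = true := by decide +kernel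
def p14_11_1_69 : pfC (piC [(nat_lit 40745421), (nat_lit 26310893), (nat_lit 19519284), (nat_lit 13130440)] (nat_lit 10412874)) p14_11_1 (nat_lit 4) (nat_lit 69) (nat_lit 70) = true := by decide +kernel
def p14_11_1_70 : pfC (piC [(nat_lit 40745421), (nat_lit 26310893), (nat_lit 19519284), (nat_lit 13130440)] (nat_lit 10412874)) p14_11_1 (nat_lit 4) (nat_lit 70) (nat_lit 71) = true := by decide +kernel
def p14_11_1_71 : pfC (piC [(nat_lit 40745421), (nat_lit 26310893), (nat_lit 19519284), (nat_lit 13130440)] (nat_lit 10412874)) p14_11_1 (nat_lit 4) (nat_lit 71) (nat_lit 72) = true := by decide +kernel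
def p14_11_1_72 : pfC (piC [(nat_lit 40745421), (nat_lit 26310893), (nat_lit 19519284), (nat_lit 13130440)] (nat_lit 10412874)) p14_11_1 (nat_lit 4) (nat_lit 72) (nat_lit 73) = true := by decide +kernel
def p14_11_1_73 : pfC (piC [(nat_lit 40745421), (nat_lit 26310893), (nat_lit 19519284), (nat_lit 13130440)] (nat_lit 10412874)) p14_11_1 (nat_lit 4) (nat_lit 73) (nat_lit 74) = true := by decide +kernel
def p14_11_1_74 : pfC (piC [(nat_lit 40745421), (nat_lit 26310893), (nat_lit 19519284), (nat_lit 13130440)] (nat_lit 10412874)) p14_11_1 (nat_lit 4) (nat_lit 74) (nat_lit 75) = true := by decide +kernel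
def p14_11_1_75 : pfC (piC [(nat_lit 40745421), (nat_lit 26310893), (nat_lit 19519284), (nat_lit 13130440)] (nat_lit 10412874)) p14_11_1 (nat_lit 4) (nat_lit 75) (nat_lit 76) = true := by decide +kernel
def p14_11_1_76 : pfC (piC [(nat_lit 40745421), (nat_lit 26310893), (nat_lit 19519284), (nat_lit 13130440)] (nat_lit 10412874)) p14_11_1 (nat_lit 4) (nat_lit 76) (nat_lit 77) = true := by decide +kernel
def p14_11_1_77 : pfC (piC [(nat_lit 40745421), (nat_lit 26310893), (nat_lit 19519284), (nat_lit 13130440)] (nat_lit 10412874)) p14_11_1 (nat_lit 4) (nat_lit 77) (nat_lit 78) = true := by decide +kernel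
def p14_11_1_78 : pfC (piC [(nat_lit 40745421), (nat_lit 26310893), (nat_lit 19519284), (nat_lit 13130440)] (nat_lit 10412874)) p14_11_1 (nat_lit 4) (nat_lit 78) (nat_lit 79) = true := by decide +kernel
def p14_11_1_79 : pfC (piC [(nat_lit 40745421), (nat_lit 26310893), (nat_lit 19519284), (nat_lit 13130440)] (nat_lit 10412874)) p14_11_1 (nat_lit 4) (nat_lit 79) (nat_lit 80) = true := by decide +kernel
def p14_11_1_80 : pfC (piC [(nat_lit 40745421), (nat_lit 26310893), (nat_lit 19519284), (nat_lit 13130440)] (nat_lit 10412874)) p14_11_1 (nat_lit 4) (nat_lit 80) (nat_lit 81) = true := by decide +kernel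
def p14_11_1_81 : pfC (piC [(nat_lit 40745421), (nat_lit 26310893), (nat_lit 19519284), (nat_lit 13130440)] (nat_lit 10412874)) p14_11_1 (nat_lit 4) (nat_lit 81) (nat_lit 82) = true := by decide +kernel
def p14_11_1_82 : pfC (piC [(nat_lit 40745421), (nat_lit 26310893), (nat_lit 19519284), (nat_lit 13130440)] (nat_lit 10412874)) p14_11_1 (nat_lit 4) (nat_lit 82) (nat_lit 83) = true := by decide +kernel
def p14_11_1_83 : pfC (piC [(nat_lit 40745421), (nat_lit 26310893), (nat_lit 19519284), (nat_lit 13130440)] (nat_lit 10412874)) p14_11_1 (nat_lit 4) (nat_lit 83) (nat_lit 84) = true := by decide +kernel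
def p14_11_1_84 : pfC (piC [(nat_lit 40745421), (nat_lit 26310893), (nat_lit 19519284), (nat_lit 13130440)] (nat_lit 10412874)) p14_11_1 (nat_lit 4) (nat_lit 84) (nat_lit 85) = true := by decide +kernel
def p14_11_1_85 : pfC (piC [(nat_lit 40745421), (nat_lit 26310893), (nat_lit 19519284), (nat_lit 13130440)] (nat_lit 10412874)) p14_11_1 (nat_lit 4) (nat_lit 85) (nat_lit 86) = true := by decide +kernel
def p14_11_1_86 : pfC (piC [(nat_lit 40745421), (nat_lit 26310893), (nat_lit 19519284), (nat_lit 13130440)] (nat_lit 10412874)) p14_11_1 (nat_lit 4) (nat_lit 86) (nat_lit 87) = true := by decide +kernel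
def p14_11_1_87 : pfC (piC [(nat_lit 40745421), (nat_lit 26310893), (nat_lit 19519284), (nat_lit 13130440)] (nat_lit 10412874)) p14_11_1 (nat_lit 4) (nat_lit 87) (nat_lit 88) = true := by decide +kernel
def p14_11_1_88 : pfC (piC [(nat_lit 40745421), (nat_lit 26310893), (nat_lit 19519284), (nat_lit 13130440)] (nat_lit 10412874)) p14_11_1 (nat_lit 4) (nat_lit 88) (nat_lit 89) = true := by decide +kernel
def p14_11_1_89 : pfC (piC [(nat_lit 40745421), (nat_lit 26310893), (nat_lit 19519284), (nat_lit 13130440)] (nat_lit 10412874)) p14_11_1 (nat_lit 4) (nat_lit 89) (nat_lit 90) = true := by decide +kernel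
def p14_11_1_90 : pfC (piC [(nat_lit 40745421), (nat_lit 26310893), (nat_lit 19519284), (nat_lit 13130440)] (nat_lit 10412874)) p14_11_1 (nat_lit 4) (nat_lit 90) (nat_lit 91) = true := by decide +kernel
def p14_11_1_91 : pfC (piC [(nat_lit 40745421), (nat_lit 26310893), (nat_lit 19519284), (nat_lit 13130440)] (nat_lit 10412874)) p14_11_1 (nat_lit 4) (nat_lit 91) (nat_lit 92) = true := by decide +kernel
def p14_11_1_92 : pfC (piC [(nat_lit 40745421), (nat_lit 26310893), (nat_lit 19519284), (nat_lit 13130440)] (nat_lit 10412874)) p14_11_1 (nat_lit 4) (nat_lit 92) (nat_lit 93) = true := by decide +kernel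
def p14_11_1_93 : pfC (piC [(nat_lit 40745421), (nat_lit 26310893), (nat_lit 19519284), (nat_lit 13130440)] (nat_lit 10412874)) p14_11_1 (nat_lit 4) (nat_lit 93) (nat_lit 94) = true := by decide +kernel
def p14_11_1_94 : pfC (piC [(nat_lit 40745421), (nat_lit 26310893), (nat_lit 19519284), (nat_lit 13130440)] (nat_lit 10412874)) p14_11_1 (nat_lit 4) (nat_lit 94) (nat_lit 95) = true := by decide +kernel
def p14_11_1_95 : pfC (piC [(nat_lit 40745421), (nat_lit 26310893), (nat_lit 19519284), (nat_lit 13130440)] (nat_lit 10412874)) p14_11_1 (nat_lit 4) (nat_lit 95) (nat_lit 96) = true := by decide +kernel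
def p14_11_1_96 : pfC (piC [(nat_lit 40745421), (nat_lit 26310893), (nat_lit 19519284), (nat_lit 13130440)] (nat_lit 10412874)) p14_11_1 (nat_lit 4) (nat_lit 96) (nat_lit 97) = true := by decide +kernel
def p14_11_1_97 : pfC (piC [(nat_lit 40745421), (nat_lit 26310893), (nat_lit 19519284), (nat_lit 13130440)] (nat_lit 10412874)) p14_11_1 (nat_lit 4) (nat_lit 97) (nat_lit 98) = true := by decide +kernel
def p14_11_1_98 : pfC (piC [(nat_lit 40745421), (nat_lit 26310893), (nat_lit 19519284), (nat_lit 13130440)] (nat_lit 10412874)) p14_11_1 (nat_lit 4) (nat_lit 98) (nat_lit 99) = true := by decide +kernel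
def p14_11_1_99 : pfC (piC [(nat_lit 40745421), (nat_lit 26310893), (nat_lit 19519284), (nat_lit 13130440)] (nat_lit 10412874)) p14_11_1 (nat_lit 4) (nat_lit 99) (nat_lit 100) = true := by decide +kernel
def p14_11_1_100 : pfC (piC [(nat_lit 40745421), (nat_lit 26310893), (nat_lit 19519284), (nat_lit 13130440)] (nat_lit 10412874)) p14_11_1 (nat_lit 4) (nat_lit 100) (nat_lit 101) = true := by decide +kernel
theorem p14_11_1_T : PfS (PiF n14_11.reverse (nat_lit 10412874)) p14_11_1 (nat_lit 4) [] 0 :=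
  pftab_of (los := [(nat_lit 40745421), (nat_lit 26310893), (nat_lit 19519284), (nat_lit 13130440)]) (by decide +kernel) (hi := (nat_lit 101)) (PfP.trans (PfP.trans (PfP.trans (PfP.trans (PfP.trans (PfP.trans (PfP.trans (PfP.trans (PfP.trans (PfP.trans (PfP.trans (PfP.trans (PfP.trans (PfP.trans (PfP.trans (PfP.trans (PfP.trans (PfP.trans (PfP.trans (PfP.trans (PfP.trans (PfP.trans (PfP.trans (PfP.trans (PfP.trans (PfP.trans (PfP.trans (PfP.trans (PfP.trans (PfP.trans (PfP.trans (PfP.trans (PfP.trans (PfP.trans (PfP.trans (PfP.trans (PfP.trans (PfP.trans (PfP.trans (PfP.trans (PfP.trans (PfP.trans (PfP.trans (PfP.trans (PfP.trans (PfP.trans (PfP.trans (PfP.trans (PfP.trans (PfP.trans (PfP.trans (PfP.trans (PfP.trans (PfP.trans (PfP.trans (PfP.trans (PfP.trans (PfP.trans (PfP.trans (PfP.trans (PfP.trans (PfP.trans (PfP.trans (PfP.trans (PfP.trans (PfP.trans (PfP.trans (PfP.trans (PfP.trans (PfP.trans (PfP.trans (PfP.trans (PfP.trans (PfP.trans (PfP.trans (PfP.trans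 (PfP.trans (PfP.trans (PfP.trans (PfP.trans (PfP.trans (PfP.trans (PfP.trans (PfP.trans (PfP.trans (PfP.trans (PfP.trans (PfP.trans (PfP.trans (PfP.trans (PfP.trans (PfP.trans (PfP.trans (PfP.trans (PfP.trans (PfP.trans (PfP.trans (PfP.trans (PfP.trans (PfP.trans (pfC_sound p14_11_1_0) (pfC_sound p14_11_1_1)) (pfC_sound p14_11_1_2)) (pfC_sound p14_11_1_3))
 (pfC_sound p14_11_1_4)) (pfC_sound p14_11_1_5)) (pfC_sound p14_11_1_6)) (pfC_sound p14_11_1_7)) (pfC_sound p14_11_1_8)) (pfC_sound p14_11_1_9)) (pfC_sound p14_11_1_10)) (pfC_sound p14_11_1_11)) (pfC_sound p14_11_1_12)) (pfC_sound p14_11_1_13)) (pfC_sound p14_11_1_14)) (pfC_sound p14_11_1_15)) (pfC_sound p14_11_1_16)) (pfC_sound p14_11_1_17)) (pfC_sound p14_11_1_18)) (pfC_sound p14_11_1_19)) (pfC_sound p14_11_1_20)) (pfC_sound p14_11_1_21)) (pfC_sound p14_11_1_22)) (pfC_sound p14_11_1_23)) (pfC_sound p14_11_1_24)) (pfC_sound p14_11_1_25)) (pfC_sound p14_11_1_26)) (pfC_sound p14_11_1_27)) (pfC_sound p14_11_1_28))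 (pfC_sound p14_11_1_29)) (pfC_sound p14_11_1_30)) (pfC_sound p14_11_1_31)) (pfC_sound p14_11_1_32)) (pfC_sound p14_11_1_33)) (pfC_sound p14_11_1_34)) (pfC_sound p14_11_1_35)) (pfC_sound p14_11_1_36)) (pfC_sound p14_11_1_37)) (pfC_sound p14_11_1_38)) (pfC_sound p14_11_1_39)) (pfC_sound p14_11_1_40)) (pfC_sound p14_11_1_41)) (pfC_sound p14_11_1_42)) (pfC_sound p14_11_1_43)) (pfC_sound p14_11_1_44)) (pfC_sound p14_11_1_45)) (pfC_sound p14_11_1_46)) (pfC_sound p14_11_1_47)) (pfC_sound p14_11_1_48)) (pfC_sound p14_11_1_49)) (pfC_sound p14_11_1_50)) (pfC_sound p14_11_1_51))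
 (pfC_sound p14_11_1_52)) (pfC_sound p14_11_1_53)) (pfC_sound p14_11_1_54)) (pfC_sound p14_11_1_55)) (pfC_sound p14_11_1_56)) (pfC_sound p14_11_1_57)) (pfC_sound p14_11_1_58)) (pfC_sound p14_11_1_59)) (pfC_sound p14_11_1_60)) (pfC_sound p14_11_1_61)) (pfC_sound p14_11_1_62)) (pfC_sound p14_11_1_63)) (pfC_sound p14_11_1_64)) (pfC_sound p14_11_1_65)) (pfC_sound p14_11_1_66)) (pfC_sound p14_11_1_67)) (pfC_sound p14_11_1_68)) (pfC_sound p14_11_1_69)) (pfC_sound p14_11_1_70)) (pfC_sound p14_11_1_71)) (pfC_sound p14_11_1_72)) (pfC_sound p14_11_1_73)) (pfC_sound p14_11_1_74)) (pfC_sound p14_11_1_75)) (pfC_sound p14_11_1_76)) (pfC_sound p14_11_1_77)) (pfC_sound p14_11_1_78)) (pfC_sound p14_11_1_79)) (pfC_sound p14_11_1_80)) (pfC_sound p14_11_1_81)) (pfC_sound p14_11_1_82)) (pfC_sound p14_11_1_83)) (pfC_sound p14_11_1_84)) (pfC_sound p14_11_1_85)) (pfC_sound p14_11_1_86)) (pfC_sound p14_11_1_87)) (pfC_sound p14_11_1_88)) (pfC_sound p14_11_1_89)) (pfC_sound p14_11_1_90))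 (pfC_sound p14_11_1_91)) (pfC_sound p14_11_1_92)) (pfC_sound p14_11_1_93)) (pfC_sound p14_11_1_94)) (pfC_sound p14_11_1_95)) (pfC_sound p14_11_1_96)) (pfC_sound p14_11_1_97)) (pfC_sound p14_11_1_98)) (pfC_sound p14_11_1_99))
 (pfC_sound p14_11_1_100)) (by decide +kernel)

def z14_11_1 : zOK yB14_11 (nat_lit 1) (nat_lit 400) (nat_lit 600) (nat_lit 10412874) (nat_lit 6851792) = true := by decide +kernel
def g14_11_1 : gOK yB14_11.x P14_11 (nat_lit 1428) (q14_11 :: r14_11) (nat_lit 1) (nat_lit 400) (nat_lit 2) (nat_lit 600) (nat_lit 11000000) (nat_lit 17850000) (nat_lit 12712500) (nat_lit 12712500) [(nat_lit 800), (nat_lit 1040)] = true := by decide +kernel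
def v14_11_1 : ivC P14_11 s14_11 w14_11 n14_11 (nat_lit 4) (nat_lit 5040) (nat_lit 1) (nat_lit 400) f152_1_400 f160_1_400 (nat_lit 2) (nat_lit 600) f152_1_600 f160_1_600 (nat_lit 10412874) (nat_lit 6851792) p14_11_1 = true := by decide +kernel
def p14_11_2 : PF := (PF.cons (PF.cons (PF.cons (PF.cons (PF.leaf (nat_lit 2709524) (nat_lit 15581775) (nat_lit 51527037) (nat_lit 15581775) [(nat_lit 0), (nat_lit 0), (nat_lit 0), (nat_lit 0)]) (PF.cons (PF.leaf (nat_lit 2846830) (nat_lit 234084) (nat_lit 51306048) (nat_lit 15568679) [(nat_lit 234084), (nat_lit 0), (nat_lit 0), (nat_lit 0)]) (PF.cons (PF.leaf (nat_lit 3010416) (nat_lit 254490) (nat_lit 51047409) (nat_lit 15552421) [(nat_lit 254490), (nat_lit 0), (nat_lit 0), (nat_lit 0)]) (PF.cons (PF.leaf (nat_lit 3194002) (nat_lit 272591) (nat_lit 50757969) (nat_lit 15533070) [(nat_lit 272591), (nat_lit 0), (nat_lit 0), (nat_lit 0)]) (PF.cons (PF.leaf (nat_lit 3394838) (nat_lit 288906) (nat_lit 50442563) (nat_lit 15510623)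 [(nat_lit 288906), (nat_lit 0), (nat_lit 0), (nat_lit 0)]) (PF.cons (PF.leaf (nat_lit 3610753) (nat_lit 303770) (nat_lit 50104906) (nat_lit 15485055) [(nat_lit 303770), (nat_lit 0), (nat_lit 0), (nat_lit 0)]) (PF.cons (PF.leaf (nat_lit 3839972) (nat_lit 317411) (nat_lit 49748006) (nat_lit 15456338) [(nat_lit 317411), (nat_lit 0), (nat_lit 0), (nat_lit 0)]) (PF.cons (PF.leaf (nat_lit 4081108) (nat_lit 329995) (nat_lit 49374393) (nat_lit 15424453) [(nat_lit 329995), (nat_lit 0),
 (nat_lit 0), (nat_lit 0)]) (PF.cons PF.nil (PF.cons PF.nil PF.nil)))))))))) (PF.cons (PF.cons (PF.leaf (nat_lit 3209760) (nat_lit 1149931) (nat_lit 50451222) (nat_lit 15507658) [(nat_lit 0), (nat_lit 1149931), (nat_lit 0), (nat_lit 0)]) (PF.cons (PF.leaf (nat_lit 3388723) (nat_lit 283197) (nat_lit 50162651) (nat_lit 15485881) [(nat_lit 283197), (nat_lit 1177083), (nat_lit 0), (nat_lit 0)]) (PF.cons (PF.leaf (nat_lit 3587324) (nat_lit 298833) (nat_lit 49846665) (nat_lit 15460735) [(nat_lit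 298833), (nat_lit 1203745), (nat_lit 0), (nat_lit 0)]) (PF.cons (PF.leaf (nat_lit 3801556) (nat_lit 313017) (nat_lit 49507960) (nat_lit 15432302) [(nat_lit 313017), (nat_lit 1229498), (nat_lit 0), (nat_lit 0)]) (PF.cons (PF.leaf (nat_lit 4029322) (nat_lit 326002) (nat_lit 49150050) (nat_lit 15400624) [(nat_lit 326002), (nat_lit 1254126), (nat_lit 0), (nat_lit 0)]) (PF.cons (PF.leaf (nat_lit 4269082) (nat_lit 337964) (nat_lit 48775731) (nat_lit 15365730) [(nat_lit 337964), (nat_lit 1277527), (nat_lit 0), (nat_lit 0)]) (PF.cons (PF.leaf (nat_lit 4519382) (nat_lit 349028) (nat_lit 48387326) (nat_lit 15327654) [(nat_lit 349028), (nat_lit 1299658), (nat_lit 0), (nat_lit 0)]) (PF.cons PF.nil (PF.cons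
 PF.nil PF.nil))))))))) (PF.cons (PF.cons (PF.leaf (nat_lit 3783617) (nat_lit 1233943) (nat_lit 49236214) (nat_lit 15404712) [(nat_lit 0), (nat_lit 1233943), (nat_lit 0), (nat_lit 0)]) (PF.cons (PF.leaf (nat_lit 3993657) (nat_lit 320974) (nat_lit 48900269) (nat_lit 15373812) [(nat_lit 320974), (nat_lit 1256878), (nat_lit 0), (nat_lit 0)]) (PF.cons (PF.leaf (nat_lit 4218867) (nat_lit 333491) (nat_lit 48544276) (nat_lit 15339511) [(nat_lit 333491), (nat_lit 1279020), (nat_lit 0), (nat_lit 0)]) (PF.cons (PF.leaf (nat_lit 4456415) (nat_lit 344971) (nat_lit 48171599) (nat_lit 15301916) [(nat_lit 344971), (nat_lit 1300191), (nat_lit 0), (nat_lit 0)]) (PF.cons (PF.leaf (nat_lit 4704669) (nat_lit 355557) (nat_lit 47784875) (nat_lit 15261111) [(nat_lit 355557), (nat_lit 1320297), (nat_lit 0), (nat_lit 0)]) (PF.cons PF.nil (PF.cons PF.nil PF.nil))))))) (PF.cons (PF.cons (PF.leaf (nat_lit 4410266) (nat_lit 1301544) (nat_lit 47931129) (nat_lit 15273048) [(nat_lit 0), (nat_lit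 1301544), (nat_lit 0), (nat_lit 0)]) (PF.cons (PF.leaf (nat_lit 4643750) (nat_lit 351070) (nat_lit 47562614) (nat_lit 15233123) [(nat_lit 351070), (nat_lit 1320668), (nat_lit 0), (nat_lit 0)]) (PF.cons (PF.leaf (nat_lit
 4889197) (nat_lit 361284) (nat_lit 47179572) (nat_lit 15189919) [(nat_lit 361284), (nat_lit 1338917), (nat_lit 0), (nat_lit 0)]) (PF.cons (PF.leaf (nat_lit 5144287) (nat_lit 370700) (nat_lit 46784501) (nat_lit 15143566) [(nat_lit 370700), (nat_lit 1356214), (nat_lit 0), (nat_lit 0)]) (PF.cons PF.nil PF.nil))))) (PF.cons (PF.cons (PF.leaf (nat_lit 5074238) (nat_lit 1355720) (nat_lit 46571737) (nat_lit 15114193) [(nat_lit 0), (nat_lit 1355720), (nat_lit 0), (nat_lit 0)]) (PF.cons (PF.leaf (nat_lit 5325312) (nat_lit 375358) (nat_lit 46181939) (nat_lit 15065767) [(nat_lit 375358), (nat_lit 1371436), (nat_lit 0), (nat_lit 0)]) (PF.cons PF.nil (PF.cons PF.nil PF.nil)))) (PF.cons (PF.cons (PF.leaf (nat_lit 5763369) (nat_lit 1398600) (nat_lit 45185129)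 (nat_lit 14930682) [(nat_lit 0), (nat_lit 1398600), (nat_lit 0), (nat_lit 0)]) (PF.cons PF.nil PF.nil)) (PF.cons PF.nil (PF.cons PF.nil PF.nil)))))))) (PF.cons (PF.cons (PF.cons (PF.leaf (nat_lit 3743761) (nat_lit 3081080) (nat_lit 48693126) (nat_lit 15334605) [(nat_lit 0), (nat_lit 0), (nat_lit 3081080), (nat_lit 0)]) (PF.cons (PF.leaf (nat_lit 3931495) (nat_lit 304105) (nat_lit 48395227) (nat_lit 15305477) [(nat_lit 304105), (nat_lit 0),
 (nat_lit 3104002), (nat_lit 0)]) (PF.cons (PF.leaf (nat_lit 4137891) (nat_lit 318788) (nat_lit 48071548) (nat_lit 15272582) [(nat_lit 318788), (nat_lit 0), (nat_lit 3127104), (nat_lit 0)]) (PF.cons (PF.leaf (nat_lit 4359027) (nat_lit 331919) (nat_lit 47727048) (nat_lit 15236172) [(nat_lit 331919), (nat_lit 0), (nat_lit 3149833), (nat_lit 0)]) (PF.cons (PF.leaf (nat_lit 4592650) (nat_lit 343804) (nat_lit 47365356) (nat_lit 15196415) [(nat_lit 343804), (nat_lit 0), (nat_lit 3171821), (nat_lit 0)]) (PF.cons (PF.leaf (nat_lit 4837212)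 (nat_lit 354650) (nat_lit 46989294) (nat_lit 15153445) [(nat_lit 354650), (nat_lit 0), (nat_lit 3192821), (nat_lit 0)]) (PF.cons PF.nil (PF.cons PF.nil (PF.cons PF.nil PF.nil))))))))) (PF.cons (PF.cons (PF.leaf (nat_lit 4330872) (nat_lit 1286045) (nat_lit 47462221) (nat_lit 15203620) [(nat_lit 0), (nat_lit 1286045), (nat_lit 3156925), (nat_lit 0)]) (PF.cons (PF.leaf (nat_lit 4546802) (nat_lit 337963) (nat_lit 47123340) (nat_lit 15165343) [(nat_lit 337963), (nat_lit 1305387), (nat_lit 3176777), (nat_lit 0)]) (PF.cons (PF.leaf (nat_lit 4776928) (nat_lit 349521) (nat_lit 46766182) (nat_lit 15123557) [(nat_lit 349521), (nat_lit 1323952), (nat_lit 3196078),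
 (nat_lit 0)]) (PF.cons (PF.leaf (nat_lit 5018407) (nat_lit 360008) (nat_lit 46394153) (nat_lit 15078478) [(nat_lit 360008), (nat_lit 1341606), (nat_lit 3214549), (nat_lit 0)]) (PF.cons (PF.leaf (nat_lit 5269705) (nat_lit 369592) (nat_lit 46009880) (nat_lit 15030275) [(nat_lit 369592), (nat_lit 1358283), (nat_lit 3232003), (nat_lit 0)]) (PF.cons PF.nil (PF.cons PF.nil PF.nil))))))) (PF.cons (PF.cons (PF.leaf (nat_lit 4962856) (nat_lit 1341291) (nat_lit 46162814) (nat_lit 15046099) [(nat_lit 0), (nat_lit 1341291), (nat_lit 3217316), (nat_lit 0)]) (PF.cons (PF.leaf (nat_lit 5199615) (nat_lit 364594) (nat_lit 45796982) (nat_lit 14999304) [(nat_lit 364594), (nat_lit 1357258), (nat_lit 3233413), (nat_lit 0)]) (PF.cons (PF.leaf (nat_lit 5447379) (nat_lit 373904) (nat_lit 45418252) (nat_lit 14949307) [(nat_lit 373904), (nat_lit 1372404), (nat_lit 3248634), (nat_lit 0)]) (PF.cons (PF.leaf (nat_lit 5703952) (nat_lit 382411) (nat_lit 45029084) (nat_lit 14896309) [(nat_lit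 382411), (nat_lit 1386673), (nat_lit 3262838), (nat_lit 0)]) (PF.cons PF.nil PF.nil))))) (PF.cons (PF.cons (PF.leaf (nat_lit 5625531) (nat_lit 1385056) (nat_lit 44826313) (nat_lit 14864570) [(nat_lit 0), (nat_lit 1385056),
 (nat_lit 3262759), (nat_lit 0)]) (PF.cons (PF.leaf (nat_lit 5877614) (nat_lit 385839) (nat_lit 44443854) (nat_lit 14810096) [(nat_lit 385839), (nat_lit 1398010), (nat_lit 3274990), (nat_lit 0)]) (PF.cons PF.nil (PF.cons PF.nil PF.nil)))) (PF.cons (PF.cons (PF.leaf (nat_lit 6307997) (nat_lit 1419100) (nat_lit 43475932) (nat_lit 14662051) [(nat_lit 0), (nat_lit 1419100), (nat_lit 3294428), (nat_lit 0)]) (PF.cons PF.nil PF.nil)) (PF.cons PF.nil PF.nil)))))) (PF.cons (PF.cons (PF.cons (PF.leaf (nat_lit 4868473) (nat_lit 3204500) (nat_lit 45726588) (nat_lit 14973223) [(nat_lit 0), (nat_lit 0), (nat_lit 3204500), (nat_lit 0)]) (PF.cons (PF.leaf (nat_lit 5088272) (nat_lit 351476) (nat_lit 45389419) (nat_lit 14928792) [(nat_lit 351476), (nat_lit 0),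 (nat_lit 3219561), (nat_lit 0)]) (PF.cons (PF.leaf (nat_lit 5321498) (nat_lit 362177) (nat_lit 45035572) (nat_lit 14880835) [(nat_lit 362177), (nat_lit 0), (nat_lit 3234024), (nat_lit 0)]) (PF.cons (PF.leaf (nat_lit 5565208) (nat_lit 371788) (nat_lit 44668439) (nat_lit 14829657) [(nat_lit 371788), (nat_lit 0), (nat_lit 3247675), (nat_lit 0)]) (PF.cons (PF.leaf (nat_lit 5817856) (nat_lit 380493) (nat_lit 44290591) (nat_lit 14775496) [(nat_lit
 380493), (nat_lit 0), (nat_lit 3260376), (nat_lit 0)]) PF.nil))))) (PF.cons (PF.cons (PF.leaf (nat_lit 5501311) (nat_lit 1370366) (nat_lit 44447584) (nat_lit 14794789) [(nat_lit 0), (nat_lit 1370366), (nat_lit 3248036), (nat_lit 0)]) (PF.cons (PF.leaf (nat_lit 5739745) (nat_lit 375129) (nat_lit 44088056) (nat_lit 14742468) [(nat_lit 375129), (nat_lit 1383685), (nat_lit 3259736), (nat_lit 0)]) (PF.cons (PF.leaf (nat_lit 5988387) (nat_lit 383638) (nat_lit 43717039) (nat_lit 14687070) [(nat_lit 383638), (nat_lit 1396225), (nat_lit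 3270599), (nat_lit 0)]) (PF.cons PF.nil PF.nil)))) (PF.cons (PF.cons (PF.leaf (nat_lit 6159395) (nat_lit 1405492) (nat_lit 43144738) (nat_lit 14595563) [(nat_lit 0), (nat_lit 1405492), (nat_lit 3278762), (nat_lit 0)]) (PF.cons (PF.leaf (nat_lit 6411229) (nat_lit 393756) (nat_lit 42772291) (nat_lit 14536400) [(nat_lit 393756), (nat_lit 1416118), (nat_lit 3287064), (nat_lit 0)]) PF.nil)) (PF.cons PF.nil (PF.cons PF.nil PF.nil))))) (PF.cons (PF.cons (PF.cons (PF.leaf (nat_lit 6024235) (nat_lit 3262851) (nat_lit 42794799) (nat_lit 14525459) [(nat_lit 0), (nat_lit 0), (nat_lit 3262851), (nat_lit 0)]) (PF.cons (PF.leaf (nat_lit 6263067) (nat_lit 383184) (nat_lit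
 42444119) (nat_lit 14468832) [(nat_lit 383184), (nat_lit 0), (nat_lit 3270892), (nat_lit 0)]) (PF.cons (PF.leaf (nat_lit 6511433) (nat_lit 390980) (nat_lit 42083170) (nat_lit 14409277) [(nat_lit 390980), (nat_lit 0), (nat_lit 3278134), (nat_lit 0)]) (PF.cons PF.nil PF.nil)))) (PF.cons (PF.cons (PF.leaf (nat_lit 6675202) (nat_lit 1418670) (nat_lit 41532821) (nat_lit 14312922) [(nat_lit 0), (nat_lit 1418670), (nat_lit 3281466), (nat_lit 0)]) (PF.cons PF.nil PF.nil)) (PF.cons PF.nil PF.nil))) (PF.cons (PF.cons (PF.cons (PF.leaf (nat_lit 7172798) (nat_lit 3273487) (nat_lit 39993430) (nat_lit 14021433) [(nat_lit 0), (nat_lit 0), (nat_lit 3273487), (nat_lit 0)]) (PF.cons PF.nil PF.nil)) (PF.cons PF.nil PF.nil)) (PF.cons PF.nil PF.nil)))))) (PF.cons (PF.cons (PF.cons (PF.cons (PF.leaf (nat_lit 4715900) (nat_lit 8838078) (nat_lit 43710208) (nat_lit 14560526) [(nat_lit 0), (nat_lit 0), (nat_lit 0), (nat_lit 8838078)]) (PF.cons (PF.leaf (nat_lit 4902230) (nat_lit 313674)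 (nat_lit 43442406) (nat_lit 14522273) [(nat_lit 313674), (nat_lit 0), (nat_lit 0), (nat_lit 8830457)]) (PF.cons (PF.leaf (nat_lit 5105985) (nat_lit 327495) (nat_lit 43152590) (nat_lit 14479985) [(nat_lit 327495), (nat_lit
 0), (nat_lit 0), (nat_lit 8821246)]) (PF.cons (PF.leaf (nat_lit 5323206) (nat_lit 339631) (nat_lit 42845342) (nat_lit 14434155) [(nat_lit 339631), (nat_lit 0), (nat_lit 0), (nat_lit 8810419)]) (PF.cons (PF.leaf (nat_lit 5551617) (nat_lit 350432) (nat_lit 42523986) (nat_lit 14385139) [(nat_lit 350432), (nat_lit 0), (nat_lit 0), (nat_lit 8797957)]) (PF.cons (PF.leaf (nat_lit 5789592) (nat_lit 360134) (nat_lit 42191077) (nat_lit 14333208) [(nat_lit 360134), (nat_lit 0), (nat_lit 0), (nat_lit 8783852)]) (PF.cons (PF.leaf (nat_lit 6035835) (nat_lit 368909) (nat_lit 41848666) (nat_lit 14278585) [(nat_lit 368909), (nat_lit 0), (nat_lit 0), (nat_lit 8768104)]) (PF.cons PF.nil (PF.cons PF.nil PF.nil))))))))) (PF.cons (PF.cons (PF.leaf (nat_lit 5284435)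 (nat_lit 1300693) (nat_lit 42614949) (nat_lit 14395985) [(nat_lit 0), (nat_lit 1300693), (nat_lit 0), (nat_lit 8797185)]) (PF.cons (PF.leaf (nat_lit 5495578) (nat_lit 343810) (nat_lit 42314427) (nat_lit 14349450) [(nat_lit 343810), (nat_lit 1316272), (nat_lit 0), (nat_lit 8784852)]) (PF.cons (PF.leaf (nat_lit 5719729) (nat_lit 354347) (nat_lit 41998736) (nat_lit 14299546) [(nat_lit 354347), (nat_lit 1330988), (nat_lit 0), (nat_lit 8770845)])
 (PF.cons (PF.leaf (nat_lit 5953973) (nat_lit 363759) (nat_lit 41670944) (nat_lit 14246637) [(nat_lit 363759), (nat_lit 1344766), (nat_lit 0), (nat_lit 8755187)]) (PF.cons (PF.leaf (nat_lit 6196794) (nat_lit 372234) (nat_lit 41333387) (nat_lit 14191000) [(nat_lit 372234), (nat_lit 1357584), (nat_lit 0), (nat_lit 8737902)]) (PF.cons PF.nil (PF.cons PF.nil PF.nil))))))) (PF.cons (PF.cons (PF.leaf (nat_lit 5889255) (nat_lit 1342491) (nat_lit 41471956) (nat_lit 14210915) [(nat_lit 0), (nat_lit 1342491), (nat_lit 0), (nat_lit 8740957)])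 (PF.cons (PF.leaf (nat_lit 6118201) (nat_lit 366721) (nat_lit 41150962) (nat_lit 14157399) [(nat_lit 366721), (nat_lit 1354887), (nat_lit 0), (nat_lit 8723953)]) (PF.cons (PF.leaf (nat_lit 6357012) (nat_lit 374989) (nat_lit 40819531) (nat_lit 14101055) [(nat_lit 374989), (nat_lit 1366466), (nat_lit 0), (nat_lit 8705314)]) (PF.cons (PF.leaf (nat_lit 6603540) (nat_lit 382439) (nat_lit 40479818) (nat_lit 14042166) [(nat_lit 382439), (nat_lit 1377209), (nat_lit 0), (nat_lit 8685090)]) (PF.cons PF.nil PF.nil))))) (PF.cons (PF.cons (PF.leaf (nat_lit 6517763) (nat_lit 1374227) (nat_lit 40306919) (nat_lit 14008788) [(nat_lit 0), (nat_lit 1374227), (nat_lit 0),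
 (nat_lit 8670424)]) (PF.cons (PF.leaf (nat_lit 6759436) (nat_lit 384477) (nat_lit 39974071) (nat_lit 13949440) [(nat_lit 384477), (nat_lit 1383927), (nat_lit 0), (nat_lit 8649040)]) (PF.cons PF.nil (PF.cons PF.nil PF.nil)))) (PF.cons (PF.cons (PF.leaf (nat_lit 7160687) (nat_lit 1397762) (nat_lit 39137937) (nat_lit 13792764) [(nat_lit 0), (nat_lit 1397762), (nat_lit 0), (nat_lit 8587060)]) (PF.cons PF.nil PF.nil)) (PF.cons PF.nil PF.nil)))))) (PF.cons (PF.cons (PF.cons (PF.leaf (nat_lit 5779230) (nat_lit 3161770) (nat_lit 41107634) (nat_lit 14136170) [(nat_lit 0), (nat_lit 0), (nat_lit 3161770), (nat_lit 8703237)]) (PF.cons (PF.leaf (nat_lit 5992424) (nat_lit 353266) (nat_lit 40811781) (nat_lit 14086041) [(nat_lit 353266), (nat_lit 0), (nat_lit 3170731), (nat_lit 8686991)]) (PF.cons (PF.leaf (nat_lit 6217845) (nat_lit 363019) (nat_lit 40502064) (nat_lit 14032622) [(nat_lit 363019), (nat_lit 0), (nat_lit 3179044), (nat_lit 8669041)]) (PF.cons (PF.leaf (nat_lit 6452688)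 (nat_lit 371652) (nat_lit 40181481) (nat_lit 13976326) [(nat_lit 371652), (nat_lit 0), (nat_lit 3186580), (nat_lit 8649467)]) (PF.cons (PF.leaf (nat_lit 6695418) (nat_lit 379364) (nat_lit 39852288) (nat_lit 13917466)
 [(nat_lit 379364), (nat_lit 0), (nat_lit 3193263), (nat_lit 8628334)]) (PF.cons PF.nil (PF.cons PF.nil PF.nil))))))) (PF.cons (PF.cons (PF.leaf (nat_lit 6381296) (nat_lit 1358618) (nat_lit 39992773) (nat_lit 13939807) [(nat_lit 0), (nat_lit 1358618), (nat_lit 3184032), (nat_lit 8633580)]) (PF.cons (PF.leaf (nat_lit 6610523) (nat_lit 373651) (nat_lit 39679768) (nat_lit 13883310) [(nat_lit 373651), (nat_lit 1368919), (nat_lit 3190156), (nat_lit 8613005)]) (PF.cons (PF.leaf (nat_lit 6848953) (nat_lit 381227) (nat_lit 39357397) (nat_lit 13824130) [(nat_lit 381227), (nat_lit 1378461), (nat_lit 3195514), (nat_lit 8590852)]) (PF.cons PF.nil (PF.cons PF.nil PF.nil))))) (PF.cons (PF.cons (PF.leaf (nat_lit 7003080) (nat_lit 1383761) (nat_lit 38864590) (nat_lit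 13728937) [(nat_lit 0), (nat_lit 1383761), (nat_lit 3196300), (nat_lit 8551461)]) (PF.cons (PF.leaf (nat_lit 7243570) (nat_lit 389271) (nat_lit 38542265) (nat_lit 13667282) [(nat_lit 389271), (nat_lit 1391667), (nat_lit 3199691), (nat_lit 8526965)]) (PF.cons PF.nil (PF.cons PF.nil PF.nil)))) (PF.cons (PF.cons (PF.leaf (nat_lit 7636163) (nat_lit 1401794) (nat_lit 37738678) (nat_lit 13506652) [(nat_lit 0), (nat_lit 1401794), (nat_lit
 3199660), (nat_lit 8458439)]) (PF.cons PF.nil PF.nil)) (PF.cons PF.nil PF.nil))))) (PF.cons (PF.cons (PF.cons (PF.leaf (nat_lit 6858563) (nat_lit 3178964) (nat_lit 38574913) (nat_lit 13661616) [(nat_lit 0), (nat_lit 0), (nat_lit 3178964), (nat_lit 8514352)]) (PF.cons (PF.leaf (nat_lit 7087208) (nat_lit 378748) (nat_lit 38271238) (nat_lit 13602955) [(nat_lit 378748), (nat_lit 0), (nat_lit 3182485), (nat_lit 8490899)]) (PF.cons (PF.leaf (nat_lit 7324497) (nat_lit 385711) (nat_lit 37959126) (nat_lit 13541762) [(nat_lit 385711), (nat_lit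 0), (nat_lit 3185284), (nat_lit 8465933)]) (PF.cons PF.nil PF.nil)))) (PF.cons (PF.cons (PF.leaf (nat_lit 7472111) (nat_lit 1388244) (nat_lit 37486949) (nat_lit 13444828) [(nat_lit 0), (nat_lit 1388244), (nat_lit 3182837), (nat_lit 8423115)]) (PF.cons (PF.leaf (nat_lit 7710774) (nat_lit 392520) (nat_lit 37175973) (nat_lit 13381628) [(nat_lit 392520), (nat_lit 1394630), (nat_lit 3183946), (nat_lit 8396165)]) PF.nil)) (PF.cons PF.nil PF.nil))) (PF.cons (PF.cons (PF.cons (PF.leaf (nat_lit 7925074) (nat_lit 3162531) (nat_lit 36173977) (nat_lit 13159256) [(nat_lit 0), (nat_lit 0), (nat_lit 3162531), (nat_lit 8287983)]) (PF.cons PF.nil PF.nil)) (PF.cons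
 PF.nil PF.nil)) (PF.cons PF.nil PF.nil))))) (PF.cons (PF.cons (PF.cons (PF.cons (PF.leaf (nat_lit 6583307) (nat_lit 8303335) (nat_lit 37196570) (nat_lit 13305572) [(nat_lit 0), (nat_lit 0), (nat_lit 0), (nat_lit 8303335)]) (PF.cons (PF.leaf (nat_lit 6788924) (nat_lit 349984) (nat_lit 36938499) (nat_lit 13254319) [(nat_lit 349984), (nat_lit 0), (nat_lit 0), (nat_lit 8283004)]) (PF.cons (PF.leaf (nat_lit 7005883) (nat_lit 358942) (nat_lit 36668760) (nat_lit 13200058) [(nat_lit 358942), (nat_lit 0), (nat_lit 0), (nat_lit 8261054)]) (PF.cons (PF.leaf (nat_lit 7231401) (nat_lit 366780) (nat_lit 36389971) (nat_lit 13143241) [(nat_lit 366780), (nat_lit 0), (nat_lit 0), (nat_lit 8237629)]) (PF.cons (PF.leaf (nat_lit 7464002) (nat_lit 373706) (nat_lit 36104090) (nat_lit 13084209) [(nat_lit 373706), (nat_lit 0), (nat_lit 0), (nat_lit 8212844)]) PF.nil))))) (PF.cons (PF.cons (PF.leaf (nat_lit 7155374) (nat_lit 1331445) (nat_lit 36228994) (nat_lit 13107592) [(nat_lit 0),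 (nat_lit 1331445), (nat_lit 0), (nat_lit 8220390)]) (PF.cons (PF.leaf (nat_lit 7375136) (nat_lit 367863) (nat_lit 35957243) (nat_lit 13051105) [(nat_lit 367863), (nat_lit 1339608), (nat_lit 0), (nat_lit 8196496)]) (PF.cons
 (PF.leaf (nat_lit 7603349) (nat_lit 374699) (nat_lit 35677694) (nat_lit 12992270) [(nat_lit 374699), (nat_lit 1347046), (nat_lit 0), (nat_lit 8171201)]) (PF.cons PF.nil PF.nil)))) (PF.cons (PF.cons (PF.leaf (nat_lit 7743479) (nat_lit 1349765) (nat_lit 35253494) (nat_lit 12899199) [(nat_lit 0), (nat_lit 1349765), (nat_lit 0), (nat_lit 8128294)]) (PF.cons (PF.leaf (nat_lit 7973006) (nat_lit 381259) (nat_lit 34974590) (nat_lit 12838699) [(nat_lit 381259), (nat_lit 1355790), (nat_lit 0), (nat_lit 8101340)]) PF.nil)) (PF.cons PF.nil (PF.cons PF.nil PF.nil))))) (PF.cons (PF.cons (PF.cons (PF.leaf (nat_lit 7594065) (nat_lit 3074167) (nat_lit 35012736) (nat_lit 12837076) [(nat_lit 0), (nat_lit 0), (nat_lit 3074167), (nat_lit 8092416)]) (PF.cons (PF.leaf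 (nat_lit 7812727) (nat_lit 371014) (nat_lit 34749715) (nat_lit 12779653) [(nat_lit 371014), (nat_lit 0), (nat_lit 3074864), (nat_lit 8066782)]) (PF.cons (PF.leaf (nat_lit 8039368) (nat_lit 377318) (nat_lit 34479616) (nat_lit 12720020) [(nat_lit 377318), (nat_lit 0), (nat_lit 3074910), (nat_lit 8039814)]) (PF.cons PF.nil PF.nil)))) (PF.cons (PF.cons (PF.leaf (nat_lit 8173701) (nat_lit 1348908) (nat_lit 34073657) (nat_lit 12626877) [(nat_lit
 0), (nat_lit 1348908), (nat_lit 3069117), (nat_lit 7995125)]) (PF.cons PF.nil PF.nil)) (PF.cons PF.nil PF.nil))) (PF.cons (PF.cons (PF.cons (PF.leaf (nat_lit 8589837) (nat_lit 3042263) (nat_lit 32949348) (nat_lit 12356834) [(nat_lit 0), (nat_lit 0), (nat_lit 3042263), (nat_lit 7859051)]) (PF.cons PF.nil PF.nil)) (PF.cons PF.nil PF.nil)) PF.nil))) (PF.cons (PF.cons (PF.cons (PF.cons (PF.leaf (nat_lit 8251549) (nat_lit 7682531) (nat_lit 31989511) (nat_lit 12071707) [(nat_lit 0), (nat_lit 0), (nat_lit 0), (nat_lit 7682531)]) (PF.cons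 (PF.leaf (nat_lit 8460761) (nat_lit 361577) (nat_lit 31760849) (nat_lit 12017063) [(nat_lit 361577), (nat_lit 0), (nat_lit 0), (nat_lit 7656441)]) (PF.cons PF.nil PF.nil))) (PF.cons (PF.cons (PF.leaf (nat_lit 8800731) (nat_lit 1305677) (nat_lit 31175389) (nat_lit 11873006) [(nat_lit 0), (nat_lit 1305677), (nat_lit 0), (nat_lit 7584913)]) PF.nil) PF.nil)) (PF.cons PF.nil PF.nil)) (PF.cons PF.nil (PF.cons PF.nil (PF.cons PF.nil (PF.cons PF.nil PF.nil))))))))

def p14_11_2_0 : pfC (piC [(nat_lit 40745421), (nat_lit 26310893), (nat_lit 19519284), (nat_lit 13130440)] (nat_lit 6851792)) p14_11_2 (nat_lit 4) (nat_lit 0) (nat_lit 1) = true := by decide +kernel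
def p14_11_2_1 : pfC (piC [(nat_lit 40745421), (nat_lit 26310893), (nat_lit 19519284), (nat_lit 13130440)] (nat_lit 6851792)) p14_11_2 (nat_lit 4) (nat_lit 1) (nat_lit 2) = true := by decide +kernel
def p14_11_2_2 : pfC (piC [(nat_lit 40745421), (nat_lit 26310893), (nat_lit 19519284), (nat_lit 13130440)] (nat_lit 6851792)) p14_11_2 (nat_lit 4) (nat_lit 2) (nat_lit 3) = true := by decide +kernel
def p14_11_2_3 : pfC (piC [(nat_lit 40745421), (nat_lit 26310893), (nat_lit 19519284), (nat_lit 13130440)] (nat_lit 6851792)) p14_11_2 (nat_lit 4) (nat_lit 3) (nat_lit 4) = true := by decide +kernel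
def p14_11_2_4 : pfC (piC [(nat_lit 40745421), (nat_lit 26310893), (nat_lit 19519284), (nat_lit 13130440)] (nat_lit 6851792)) p14_11_2 (nat_lit 4) (nat_lit 4) (nat_lit 5) = true := by decide +kernel
def p14_11_2_5 : pfC (piC [(nat_lit 40745421), (nat_lit 26310893), (nat_lit 19519284), (nat_lit 13130440)] (nat_lit 6851792)) p14_11_2 (nat_lit 4) (nat_lit 5) (nat_lit 6) = true := by decide +kernel
def p14_11_2_6 : pfC (piC [(nat_lit 40745421), (nat_lit 26310893), (nat_lit 19519284), (nat_lit 13130440)] (nat_lit 6851792)) p14_11_2 (nat_lit 4) (nat_lit 6) (nat_lit 7) = true := by decide +kernel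
def p14_11_2_7 : pfC (piC [(nat_lit 40745421), (nat_lit 26310893), (nat_lit 19519284), (nat_lit 13130440)] (nat_lit 6851792)) p14_11_2 (nat_lit 4) (nat_lit 7) (nat_lit 8) = true := by decide +kernel
def p14_11_2_8 : pfC (piC [(nat_lit 40745421), (nat_lit 26310893), (nat_lit 19519284), (nat_lit 13130440)] (nat_lit 6851792)) p14_11_2 (nat_lit 4) (nat_lit 8) (nat_lit 9) = true := by decide +kernel
def p14_11_2_9 : pfC (piC [(nat_lit 40745421), (nat_lit 26310893), (nat_lit 19519284), (nat_lit 13130440)] (nat_lit 6851792)) p14_11_2 (nat_lit 4) (nat_lit 9) (nat_lit 10) = true := by decide +kernel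
def p14_11_2_10 : pfC (piC [(nat_lit 40745421), (nat_lit 26310893), (nat_lit 19519284), (nat_lit 13130440)] (nat_lit 6851792)) p14_11_2 (nat_lit 4) (nat_lit 10) (nat_lit 11) = true := by decide +kernel
def p14_11_2_11 : pfC (piC [(nat_lit 40745421), (nat_lit 26310893), (nat_lit 19519284), (nat_lit 13130440)] (nat_lit 6851792)) p14_11_2 (nat_lit 4) (nat_lit 11) (nat_lit 12) = true := by decide +kernel
def p14_11_2_12 : pfC (piC [(nat_lit 40745421), (nat_lit 26310893), (nat_lit 19519284), (nat_lit 13130440)] (nat_lit 6851792)) p14_11_2 (nat_lit 4) (nat_lit 12) (nat_lit 13) = true := by decide +kernel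
def p14_11_2_13 : pfC (piC [(nat_lit 40745421), (nat_lit 26310893), (nat_lit 19519284), (nat_lit 13130440)] (nat_lit 6851792)) p14_11_2 (nat_lit 4) (nat_lit 13) (nat_lit 14) = true := by decide +kernel
def p14_11_2_14 : pfC (piC [(nat_lit 40745421), (nat_lit 26310893), (nat_lit 19519284), (nat_lit 13130440)] (nat_lit 6851792)) p14_11_2 (nat_lit 4) (nat_lit 14) (nat_lit 15) = true := by decide +kernel
def p14_11_2_15 : pfC (piC [(nat_lit 40745421), (nat_lit 26310893), (nat_lit 19519284), (nat_lit 13130440)] (nat_lit 6851792)) p14_11_2 (nat_lit 4) (nat_lit 15) (nat_lit 16) = true := by decide +kernel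
def p14_11_2_16 : pfC (piC [(nat_lit 40745421), (nat_lit 26310893), (nat_lit 19519284), (nat_lit 13130440)] (nat_lit 6851792)) p14_11_2 (nat_lit 4) (nat_lit 16) (nat_lit 17) = true := by decide +kernel
def p14_11_2_17 : pfC (piC [(nat_lit 40745421), (nat_lit 26310893), (nat_lit 19519284), (nat_lit 13130440)] (nat_lit 6851792)) p14_11_2 (nat_lit 4) (nat_lit 17) (nat_lit 18) = true := by decide +kernel
def p14_11_2_18 : pfC (piC [(nat_lit 40745421), (nat_lit 26310893), (nat_lit 19519284), (nat_lit 13130440)] (nat_lit 6851792)) p14_11_2 (nat_lit 4) (nat_lit 18) (nat_lit 19) = true := by decide +kernel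
def p14_11_2_19 : pfC (piC [(nat_lit 40745421), (nat_lit 26310893), (nat_lit 19519284), (nat_lit 13130440)] (nat_lit 6851792)) p14_11_2 (nat_lit 4) (nat_lit 19) (nat_lit 20) = true := by decide +kernel
def p14_11_2_20 : pfC (piC [(nat_lit 40745421), (nat_lit 26310893), (nat_lit 19519284), (nat_lit 13130440)] (nat_lit 6851792)) p14_11_2 (nat_lit 4) (nat_lit 20) (nat_lit 21) = true := by decide +kernel
def p14_11_2_21 : pfC (piC [(nat_lit 40745421), (nat_lit 26310893), (nat_lit 19519284), (nat_lit 13130440)] (nat_lit 6851792)) p14_11_2 (nat_lit 4) (nat_lit 21) (nat_lit 22) = true := by decide +kernel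
def p14_11_2_22 : pfC (piC [(nat_lit 40745421), (nat_lit 26310893), (nat_lit 19519284), (nat_lit 13130440)] (nat_lit 6851792)) p14_11_2 (nat_lit 4) (nat_lit 22) (nat_lit 23) = true := by decide +kernel
def p14_11_2_23 : pfC (piC [(nat_lit 40745421), (nat_lit 26310893), (nat_lit 19519284), (nat_lit 13130440)] (nat_lit 6851792)) p14_11_2 (nat_lit 4) (nat_lit 23) (nat_lit 24) = true := by decide +kernel
def p14_11_2_24 : pfC (piC [(nat_lit 40745421), (nat_lit 26310893), (nat_lit 19519284), (nat_lit 13130440)] (nat_lit 6851792)) p14_11_2 (nat_lit 4) (nat_lit 24) (nat_lit 25) = true := by decide +kernel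
def p14_11_2_25 : pfC (piC [(nat_lit 40745421), (nat_lit 26310893), (nat_lit 19519284), (nat_lit 13130440)] (nat_lit 6851792)) p14_11_2 (nat_lit 4) (nat_lit 25) (nat_lit 26) = true := by decide +kernel
def p14_11_2_26 : pfC (piC [(nat_lit 40745421), (nat_lit 26310893), (nat_lit 19519284), (nat_lit 13130440)] (nat_lit 6851792)) p14_11_2 (nat_lit 4) (nat_lit 26) (nat_lit 27) = true := by decide +kernel
def p14_11_2_27 : pfC (piC [(nat_lit 40745421), (nat_lit 26310893), (nat_lit 19519284), (nat_lit 13130440)] (nat_lit 6851792)) p14_11_2 (nat_lit 4) (nat_lit 27) (nat_lit 28) = true := by decide +kernel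
def p14_11_2_28 : pfC (piC [(nat_lit 40745421), (nat_lit 26310893), (nat_lit 19519284), (nat_lit 13130440)] (nat_lit 6851792)) p14_11_2 (nat_lit 4) (nat_lit 28) (nat_lit 29) = true := by decide +kernel
def p14_11_2_29 : pfC (piC [(nat_lit 40745421), (nat_lit 26310893), (nat_lit 19519284), (nat_lit 13130440)] (nat_lit 6851792)) p14_11_2 (nat_lit 4) (nat_lit 29) (nat_lit 30) = true := by decide +kernel
def p14_11_2_30 : pfC (piC [(nat_lit 40745421), (nat_lit 26310893), (nat_lit 19519284), (nat_lit 13130440)] (nat_lit 6851792)) p14_11_2 (nat_lit 4) (nat_lit 30) (nat_lit 31) = true := by decide +kernel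
def p14_11_2_31 : pfC (piC [(nat_lit 40745421), (nat_lit 26310893), (nat_lit 19519284), (nat_lit 13130440)] (nat_lit 6851792)) p14_11_2 (nat_lit 4) (nat_lit 31) (nat_lit 32) = true := by decide +kernel
def p14_11_2_32 : pfC (piC [(nat_lit 40745421), (nat_lit 26310893), (nat_lit 19519284), (nat_lit 13130440)] (nat_lit 6851792)) p14_11_2 (nat_lit 4) (nat_lit 32) (nat_lit 33) = true := by decide +kernel
def p14_11_2_33 : pfC (piC [(nat_lit 40745421), (nat_lit 26310893), (nat_lit 19519284), (nat_lit 13130440)] (nat_lit 6851792)) p14_11_2 (nat_lit 4) (nat_lit 33) (nat_lit 34) = true := by decide +kernel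
def p14_11_2_34 : pfC (piC [(nat_lit 40745421), (nat_lit 26310893), (nat_lit 19519284), (nat_lit 13130440)] (nat_lit 6851792)) p14_11_2 (nat_lit 4) (nat_lit 34) (nat_lit 35) = true := by decide +kernel
def p14_11_2_35 : pfC (piC [(nat_lit 40745421), (nat_lit 26310893), (nat_lit 19519284), (nat_lit 13130440)] (nat_lit 6851792)) p14_11_2 (nat_lit 4) (nat_lit 35) (nat_lit 36) = true := by decide +kernel
def p14_11_2_36 : pfC (piC [(nat_lit 40745421), (nat_lit 26310893), (nat_lit 19519284), (nat_lit 13130440)] (nat_lit 6851792)) p14_11_2 (nat_lit 4) (nat_lit 36) (nat_lit 37) = true := by decide +kernel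
def p14_11_2_37 : pfC (piC [(nat_lit 40745421), (nat_lit 26310893), (nat_lit 19519284), (nat_lit 13130440)] (nat_lit 6851792)) p14_11_2 (nat_lit 4) (nat_lit 37) (nat_lit 38) = true := by decide +kernel
def p14_11_2_38 : pfC (piC [(nat_lit 40745421), (nat_lit 26310893), (nat_lit 19519284), (nat_lit 13130440)] (nat_lit 6851792)) p14_11_2 (nat_lit 4) (nat_lit 38) (nat_lit 39) = true := by decide +kernel
def p14_11_2_39 : pfC (piC [(nat_lit 40745421), (nat_lit 26310893), (nat_lit 19519284), (nat_lit 13130440)] (nat_lit 6851792)) p14_11_2 (nat_lit 4) (nat_lit 39) (nat_lit 40) = true := by decide +kernel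
def p14_11_2_40 : pfC (piC [(nat_lit 40745421), (nat_lit 26310893), (nat_lit 19519284), (nat_lit 13130440)] (nat_lit 6851792)) p14_11_2 (nat_lit 4) (nat_lit 40) (nat_lit 41) = true := by decide +kernel
def p14_11_2_41 : pfC (piC [(nat_lit 40745421), (nat_lit 26310893), (nat_lit 19519284), (nat_lit 13130440)] (nat_lit 6851792)) p14_11_2 (nat_lit 4) (nat_lit 41) (nat_lit 42) = true := by decide +kernel
def p14_11_2_42 : pfC (piC [(nat_lit 40745421), (nat_lit 26310893), (nat_lit 19519284), (nat_lit 13130440)] (nat_lit 6851792)) p14_11_2 (nat_lit 4) (nat_lit 42) (nat_lit 43) = true := by decide +kernel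
def p14_11_2_43 : pfC (piC [(nat_lit 40745421), (nat_lit 26310893), (nat_lit 19519284), (nat_lit 13130440)] (nat_lit 6851792)) p14_11_2 (nat_lit 4) (nat_lit 43) (nat_lit 44) = true := by decide +kernel
def p14_11_2_44 : pfC (piC [(nat_lit 40745421), (nat_lit 26310893), (nat_lit 19519284), (nat_lit 13130440)] (nat_lit 6851792)) p14_11_2 (nat_lit 4) (nat_lit 44) (nat_lit 45) = true := by decide +kernel
def p14_11_2_45 : pfC (piC [(nat_lit 40745421), (nat_lit 26310893), (nat_lit 19519284), (nat_lit 13130440)] (nat_lit 6851792)) p14_11_2 (nat_lit 4) (nat_lit 45) (nat_lit 46) = true := by decide +kernel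
def p14_11_2_46 : pfC (piC [(nat_lit 40745421), (nat_lit 26310893), (nat_lit 19519284), (nat_lit 13130440)] (nat_lit 6851792)) p14_11_2 (nat_lit 4) (nat_lit 46) (nat_lit 47) = true := by decide +kernel
def p14_11_2_47 : pfC (piC [(nat_lit 40745421), (nat_lit 26310893), (nat_lit 19519284), (nat_lit 13130440)] (nat_lit 6851792)) p14_11_2 (nat_lit 4) (nat_lit 47) (nat_lit 48) = true := by decide +kernel
def p14_11_2_48 : pfC (piC [(nat_lit 40745421), (nat_lit 26310893), (nat_lit 19519284), (nat_lit 13130440)] (nat_lit 6851792)) p14_11_2 (nat_lit 4) (nat_lit 48) (nat_lit 49) = true := by decide +kernel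
def p14_11_2_49 : pfC (piC [(nat_lit 40745421), (nat_lit 26310893), (nat_lit 19519284), (nat_lit 13130440)] (nat_lit 6851792)) p14_11_2 (nat_lit 4) (nat_lit 49) (nat_lit 50) = true := by decide +kernel
def p14_11_2_50 : pfC (piC [(nat_lit 40745421), (nat_lit 26310893), (nat_lit 19519284), (nat_lit 13130440)] (nat_lit 6851792)) p14_11_2 (nat_lit 4) (nat_lit 50) (nat_lit 51) = true := by decide +kernel
def p14_11_2_51 : pfC (piC [(nat_lit 40745421), (nat_lit 26310893), (nat_lit 19519284), (nat_lit 13130440)] (nat_lit 6851792)) p14_11_2 (nat_lit 4) (nat_lit 51) (nat_lit 52) = true := by decide +kernel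
def p14_11_2_52 : pfC (piC [(nat_lit 40745421), (nat_lit 26310893), (nat_lit 19519284), (nat_lit 13130440)] (nat_lit 6851792)) p14_11_2 (nat_lit 4) (nat_lit 52) (nat_lit 53) = true := by decide +kernel
def p14_11_2_53 : pfC (piC [(nat_lit 40745421), (nat_lit 26310893), (nat_lit 19519284), (nat_lit 13130440)] (nat_lit 6851792)) p14_11_2 (nat_lit 4) (nat_lit 53) (nat_lit 54) = true := by decide +kernel
def p14_11_2_54 : pfC (piC [(nat_lit 40745421), (nat_lit 26310893), (nat_lit 19519284), (nat_lit 13130440)] (nat_lit 6851792)) p14_11_2 (nat_lit 4) (nat_lit 54) (nat_lit 55) = true := by decide +kernel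
def p14_11_2_55 : pfC (piC [(nat_lit 40745421), (nat_lit 26310893), (nat_lit 19519284), (nat_lit 13130440)] (nat_lit 6851792)) p14_11_2 (nat_lit 4) (nat_lit 55) (nat_lit 56) = true := by decide +kernel
def p14_11_2_56 : pfC (piC [(nat_lit 40745421), (nat_lit 26310893), (nat_lit 19519284), (nat_lit 13130440)] (nat_lit 6851792)) p14_11_2 (nat_lit 4) (nat_lit 56) (nat_lit 57) = true := by decide +kernel
def p14_11_2_57 : pfC (piC [(nat_lit 40745421), (nat_lit 26310893), (nat_lit 19519284), (nat_lit 13130440)] (nat_lit 6851792)) p14_11_2 (nat_lit 4) (nat_lit 57) (nat_lit 58) = true := by decide +kernel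
def p14_11_2_58 : pfC (piC [(nat_lit 40745421), (nat_lit 26310893), (nat_lit 19519284), (nat_lit 13130440)] (nat_lit 6851792)) p14_11_2 (nat_lit 4) (nat_lit 58) (nat_lit 59) = true := by decide +kernel
def p14_11_2_59 : pfC (piC [(nat_lit 40745421), (nat_lit 26310893), (nat_lit 19519284), (nat_lit 13130440)] (nat_lit 6851792)) p14_11_2 (nat_lit 4) (nat_lit 59) (nat_lit 60) = true := by decide +kernel
def p14_11_2_60 : pfC (piC [(nat_lit 40745421), (nat_lit 26310893), (nat_lit 19519284), (nat_lit 13130440)] (nat_lit 6851792)) p14_11_2 (nat_lit 4) (nat_lit 60) (nat_lit 61) = true := by decide +kernel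
def p14_11_2_61 : pfC (piC [(nat_lit 40745421), (nat_lit 26310893), (nat_lit 19519284), (nat_lit 13130440)] (nat_lit 6851792)) p14_11_2 (nat_lit 4) (nat_lit 61) (nat_lit 62) = true := by decide +kernel
def p14_11_2_62 : pfC (piC [(nat_lit 40745421), (nat_lit 26310893), (nat_lit 19519284), (nat_lit 13130440)] (nat_lit 6851792)) p14_11_2 (nat_lit 4) (nat_lit 62) (nat_lit 63) = true := by decide +kernel
def p14_11_2_63 : pfC (piC [(nat_lit 40745421), (nat_lit 26310893), (nat_lit 19519284), (nat_lit 13130440)] (nat_lit 6851792)) p14_11_2 (nat_lit 4) (nat_lit 63) (nat_lit 64) = true := by decide +kernel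
def p14_11_2_64 : pfC (piC [(nat_lit 40745421), (nat_lit 26310893), (nat_lit 19519284), (nat_lit 13130440)] (nat_lit 6851792)) p14_11_2 (nat_lit 4) (nat_lit 64) (nat_lit 65) = true := by decide +kernel
def p14_11_2_65 : pfC (piC [(nat_lit 40745421), (nat_lit 26310893), (nat_lit 19519284), (nat_lit 13130440)] (nat_lit 6851792)) p14_11_2 (nat_lit 4) (nat_lit 65) (nat_lit 66) = true := by decide +kernel
def p14_11_2_66 : pfC (piC [(nat_lit 40745421), (nat_lit 26310893), (nat_lit 19519284), (nat_lit 13130440)] (nat_lit 6851792)) p14_11_2 (nat_lit 4) (nat_lit 66) (nat_lit 67) = true := by decide +kernel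
def p14_11_2_67 : pfC (piC [(nat_lit 40745421), (nat_lit 26310893), (nat_lit 19519284), (nat_lit 13130440)] (nat_lit 6851792)) p14_11_2 (nat_lit 4) (nat_lit 67) (nat_lit 68) = true := by decide +kernel
def p14_11_2_68 : pfC (piC [(nat_lit 40745421), (nat_lit 26310893), (nat_lit 19519284), (nat_lit 13130440)] (nat_lit 6851792)) p14_11_2 (nat_lit 4) (nat_lit 68) (nat_lit 69) = true := by decide +kernel
def p14_11_2_69 : pfC (piC [(nat_lit 40745421), (nat_lit 26310893), (nat_lit 19519284), (nat_lit 13130440)] (nat_lit 6851792)) p14_11_2 (nat_lit 4) (nat_lit 69) (nat_lit 70) = true := by decide +kernel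
def p14_11_2_70 : pfC (piC [(nat_lit 40745421), (nat_lit 26310893), (nat_lit 19519284), (nat_lit 13130440)] (nat_lit 6851792)) p14_11_2 (nat_lit 4) (nat_lit 70) (nat_lit 71) = true := by decide +kernel
def p14_11_2_71 : pfC (piC [(nat_lit 40745421), (nat_lit 26310893), (nat_lit 19519284), (nat_lit 13130440)] (nat_lit 6851792)) p14_11_2 (nat_lit 4) (nat_lit 71) (nat_lit 72) = true := by decide +kernel
def p14_11_2_72 : pfC (piC [(nat_lit 40745421), (nat_lit 26310893), (nat_lit 19519284), (nat_lit 13130440)] (nat_lit 6851792)) p14_11_2 (nat_lit 4) (nat_lit 72) (nat_lit 73) = true := by decide +kernel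
def p14_11_2_73 : pfC (piC [(nat_lit 40745421), (nat_lit 26310893), (nat_lit 19519284), (nat_lit 13130440)] (nat_lit 6851792)) p14_11_2 (nat_lit 4) (nat_lit 73) (nat_lit 74) = true := by decide +kernel
def p14_11_2_74 : pfC (piC [(nat_lit 40745421), (nat_lit 26310893), (nat_lit 19519284), (nat_lit 13130440)] (nat_lit 6851792)) p14_11_2 (nat_lit 4) (nat_lit 74) (nat_lit 75) = true := by decide +kernel
def p14_11_2_75 : pfC (piC [(nat_lit 40745421), (nat_lit 26310893), (nat_lit 19519284), (nat_lit 13130440)] (nat_lit 6851792)) p14_11_2 (nat_lit 4) (nat_lit 75) (nat_lit 76) = true := by decide +kernel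
def p14_11_2_76 : pfC (piC [(nat_lit 40745421), (nat_lit 26310893), (nat_lit 19519284), (nat_lit 13130440)] (nat_lit 6851792)) p14_11_2 (nat_lit 4) (nat_lit 76) (nat_lit 77) = true := by decide +kernel
def p14_11_2_77 : pfC (piC [(nat_lit 40745421), (nat_lit 26310893), (nat_lit 19519284), (nat_lit 13130440)] (nat_lit 6851792)) p14_11_2 (nat_lit 4) (nat_lit 77) (nat_lit 78) = true := by decide +kernel
def p14_11_2_78 : pfC (piC [(nat_lit 40745421), (nat_lit 26310893), (nat_lit 19519284), (nat_lit 13130440)] (nat_lit 6851792)) p14_11_2 (nat_lit 4) (nat_lit 78) (nat_lit 79) = true := by decide +kernel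
def p14_11_2_79 : pfC (piC [(nat_lit 40745421), (nat_lit 26310893), (nat_lit 19519284), (nat_lit 13130440)] (nat_lit 6851792)) p14_11_2 (nat_lit 4) (nat_lit 79) (nat_lit 80) = true := by decide +kernel
def p14_11_2_80 : pfC (piC [(nat_lit 40745421), (nat_lit 26310893), (nat_lit 19519284), (nat_lit 13130440)] (nat_lit 6851792)) p14_11_2 (nat_lit 4) (nat_lit 80) (nat_lit 81) = true := by decide +kernel
def p14_11_2_81 : pfC (piC [(nat_lit 40745421), (nat_lit 26310893), (nat_lit 19519284), (nat_lit 13130440)] (nat_lit 6851792)) p14_11_2 (nat_lit 4) (nat_lit 81) (nat_lit 82) = true := by decide +kernel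
def p14_11_2_82 : pfC (piC [(nat_lit 40745421), (nat_lit 26310893), (nat_lit 19519284), (nat_lit 13130440)] (nat_lit 6851792)) p14_11_2 (nat_lit 4) (nat_lit 82) (nat_lit 83) = true := by decide +kernel
def p14_11_2_83 : pfC (piC [(nat_lit 40745421), (nat_lit 26310893), (nat_lit 19519284), (nat_lit 13130440)] (nat_lit 6851792)) p14_11_2 (nat_lit 4) (nat_lit 83) (nat_lit 84) = true := by decide +kernel
def p14_11_2_84 : pfC (piC [(nat_lit 40745421), (nat_lit 26310893), (nat_lit 19519284), (nat_lit 13130440)] (nat_lit 6851792)) p14_11_2 (nat_lit 4) (nat_lit 84) (nat_lit 85) = true := by decide +kernel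
def p14_11_2_85 : pfC (piC [(nat_lit 40745421), (nat_lit 26310893), (nat_lit 19519284), (nat_lit 13130440)] (nat_lit 6851792)) p14_11_2 (nat_lit 4) (nat_lit 85) (nat_lit 86) = true := by decide +kernel
def p14_11_2_86 : pfC (piC [(nat_lit 40745421), (nat_lit 26310893), (nat_lit 19519284), (nat_lit 13130440)] (nat_lit 6851792)) p14_11_2 (nat_lit 4) (nat_lit 86) (nat_lit 87) = true := by decide +kernel
def p14_11_2_87 : pfC (piC [(nat_lit 40745421), (nat_lit 26310893), (nat_lit 19519284), (nat_lit 13130440)] (nat_lit 6851792)) p14_11_2 (nat_lit 4) (nat_lit 87) (nat_lit 88) = true := by decide +kernel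
def p14_11_2_88 : pfC (piC [(nat_lit 40745421), (nat_lit 26310893), (nat_lit 19519284), (nat_lit 13130440)] (nat_lit 6851792)) p14_11_2 (nat_lit 4) (nat_lit 88) (nat_lit 89) = true := by decide +kernel
def p14_11_2_89 : pfC (piC [(nat_lit 40745421), (nat_lit 26310893), (nat_lit 19519284), (nat_lit 13130440)] (nat_lit 6851792)) p14_11_2 (nat_lit 4) (nat_lit 89) (nat_lit 90) = true := by decide +kernel
def p14_11_2_90 : pfC (piC [(nat_lit 40745421), (nat_lit 26310893), (nat_lit 19519284), (nat_lit 13130440)] (nat_lit 6851792)) p14_11_2 (nat_lit 4) (nat_lit 90) (nat_lit 91) = true := by decide +kernel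
def p14_11_2_91 : pfC (piC [(nat_lit 40745421), (nat_lit 26310893), (nat_lit 19519284), (nat_lit 13130440)] (nat_lit 6851792)) p14_11_2 (nat_lit 4) (nat_lit 91) (nat_lit 92) = true := by decide +kernel
def p14_11_2_92 : pfC (piC [(nat_lit 40745421), (nat_lit 26310893), (nat_lit 19519284), (nat_lit 13130440)] (nat_lit 6851792)) p14_11_2 (nat_lit 4) (nat_lit 92) (nat_lit 93) = true := by decide +kernel
def p14_11_2_93 : pfC (piC [(nat_lit 40745421), (nat_lit 26310893), (nat_lit 19519284), (nat_lit 13130440)] (nat_lit 6851792)) p14_11_2 (nat_lit 4) (nat_lit 93) (nat_lit 94) = true := by decide +kernel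
def p14_11_2_94 : pfC (piC [(nat_lit 40745421), (nat_lit 26310893), (nat_lit 19519284), (nat_lit 13130440)] (nat_lit 6851792)) p14_11_2 (nat_lit 4) (nat_lit 94) (nat_lit 95) = true := by decide +kernel
def p14_11_2_95 : pfC (piC [(nat_lit 40745421), (nat_lit 26310893), (nat_lit 19519284), (nat_lit 13130440)] (nat_lit 6851792)) p14_11_2 (nat_lit 4) (nat_lit 95) (nat_lit 96) = true := by decide +kernel
def p14_11_2_96 : pfC (piC [(nat_lit 40745421), (nat_lit 26310893), (nat_lit 19519284), (nat_lit 13130440)] (nat_lit 6851792)) p14_11_2 (nat_lit 4) (nat_lit 96) (nat_lit 97) = true := by decide +kernel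
def p14_11_2_97 : pfC (piC [(nat_lit 40745421), (nat_lit 26310893), (nat_lit 19519284), (nat_lit 13130440)] (nat_lit 6851792)) p14_11_2 (nat_lit 4) (nat_lit 97) (nat_lit 98) = true := by decide +kernel
def p14_11_2_98 : pfC (piC [(nat_lit 40745421), (nat_lit 26310893), (nat_lit 19519284), (nat_lit 13130440)] (nat_lit 6851792)) p14_11_2 (nat_lit 4) (nat_lit 98) (nat_lit 99) = true := by decide +kernel
def p14_11_2_99 : pfC (piC [(nat_lit 40745421), (nat_lit 26310893), (nat_lit 19519284), (nat_lit 13130440)] (nat_lit 6851792)) p14_11_2 (nat_lit 4) (nat_lit 99) (nat_lit 100) = true := by decide +kernel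
def p14_11_2_100 : pfC (piC [(nat_lit 40745421), (nat_lit 26310893), (nat_lit 19519284), (nat_lit 13130440)] (nat_lit 6851792)) p14_11_2 (nat_lit 4) (nat_lit 100) (nat_lit 101) = true := by decide +kernel
def p14_11_2_101 : pfC (piC [(nat_lit 40745421), (nat_lit 26310893), (nat_lit 19519284), (nat_lit 13130440)] (nat_lit 6851792)) p14_11_2 (nat_lit 4) (nat_lit 101) (nat_lit 102) = true := by decide +kernel
def p14_11_2_102 : pfC (piC [(nat_lit 40745421), (nat_lit 26310893), (nat_lit 19519284), (nat_lit 13130440)] (nat_lit 6851792)) p14_11_2 (nat_lit 4) (nat_lit 102) (nat_lit 103) = true := by decide +kernel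
def p14_11_2_103 : pfC (piC [(nat_lit 40745421), (nat_lit 26310893), (nat_lit 19519284), (nat_lit 13130440)] (nat_lit 6851792)) p14_11_2 (nat_lit 4) (nat_lit 103) (nat_lit 104) = true := by decide +kernel
def p14_11_2_104 : pfC (piC [(nat_lit 40745421), (nat_lit 26310893), (nat_lit 19519284), (nat_lit 13130440)] (nat_lit 6851792)) p14_11_2 (nat_lit 4) (nat_lit 104) (nat_lit 105) = true := by decide +kernel
def p14_11_2_105 : pfC (piC [(nat_lit 40745421), (nat_lit 26310893), (nat_lit 19519284), (nat_lit 13130440)] (nat_lit 6851792)) p14_11_2 (nat_lit 4) (nat_lit 105) (nat_lit 106) = true := by decide +kernel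
def p14_11_2_106 : pfC (piC [(nat_lit 40745421), (nat_lit 26310893), (nat_lit 19519284), (nat_lit 13130440)] (nat_lit 6851792)) p14_11_2 (nat_lit 4) (nat_lit 106) (nat_lit 107) = true := by decide +kernel
def p14_11_2_107 : pfC (piC [(nat_lit 40745421), (nat_lit 26310893), (nat_lit 19519284), (nat_lit 13130440)] (nat_lit 6851792)) p14_11_2 (nat_lit 4) (nat_lit 107) (nat_lit 108) = true := by decide +kernel
def p14_11_2_108 : pfC (piC [(nat_lit 40745421), (nat_lit 26310893), (nat_lit 19519284), (nat_lit 13130440)] (nat_lit 6851792)) p14_11_2 (nat_lit 4) (nat_lit 108) (nat_lit 109) = true := by decide +kernel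
def p14_11_2_109 : pfC (piC [(nat_lit 40745421), (nat_lit 26310893), (nat_lit 19519284), (nat_lit 13130440)] (nat_lit 6851792)) p14_11_2 (nat_lit 4) (nat_lit 109) (nat_lit 110) = true := by decide +kernel
def p14_11_2_110 : pfC (piC [(nat_lit 40745421), (nat_lit 26310893), (nat_lit 19519284), (nat_lit 13130440)] (nat_lit 6851792)) p14_11_2 (nat_lit 4) (nat_lit 110) (nat_lit 111) = true := by decide +kernel
def p14_11_2_111 : pfC (piC [(nat_lit 40745421), (nat_lit 26310893), (nat_lit 19519284), (nat_lit 13130440)] (nat_lit 6851792)) p14_11_2 (nat_lit 4) (nat_lit 111) (nat_lit 112) = true := by decide +kernel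
def p14_11_2_112 : pfC (piC [(nat_lit 40745421), (nat_lit 26310893), (nat_lit 19519284), (nat_lit 13130440)] (nat_lit 6851792)) p14_11_2 (nat_lit 4) (nat_lit 112) (nat_lit 113) = true := by decide +kernel
def p14_11_2_113 : pfC (piC [(nat_lit 40745421), (nat_lit 26310893), (nat_lit 19519284), (nat_lit 13130440)] (nat_lit 6851792)) p14_11_2 (nat_lit 4) (nat_lit 113) (nat_lit 114) = true := by decide +kernel
theorem p14_11_2_T : PfS (PiF n14_11.reverse (nat_lit 6851792)) p14_11_2 (nat_lit 4) [] 0 :=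
  pftab_of (los := [(nat_lit 40745421), (nat_lit 26310893), (nat_lit 19519284), (nat_lit 13130440)]) (by decide +kernel) (hi := (nat_lit 114)) (PfP.trans (PfP.trans (PfP.trans (PfP.trans (PfP.trans (PfP.trans (PfP.trans (PfP.trans (PfP.trans (PfP.trans (PfP.trans (PfP.trans (PfP.trans (PfP.trans (PfP.trans (PfP.trans (PfP.trans (PfP.trans (PfP.trans (PfP.trans (PfP.trans (PfP.trans (PfP.trans (PfP.trans (PfP.trans (PfP.trans (PfP.trans (PfP.trans (PfP.trans (PfP.trans (PfP.trans (PfP.trans (PfP.trans (PfP.trans (PfP.trans (PfP.trans (PfP.trans (PfP.trans (PfP.trans (PfP.trans (PfP.trans (PfP.trans (PfP.trans (PfP.trans (PfP.trans (PfP.trans (PfP.trans (PfP.trans (PfP.trans (PfP.trans (PfP.trans (PfP.trans (PfP.trans (PfP.trans (PfP.trans (PfP.trans (PfP.trans (PfP.trans (PfP.trans (PfP.trans (PfP.trans (PfP.trans (PfP.trans (PfP.trans (PfP.trans (PfP.trans (PfP.trans (PfP.trans (PfP.trans (PfP.trans (PfP.trans (PfP.trans (PfP.trans (PfP.trans (PfP.trans (PfP.trans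 (PfP.trans (PfP.trans (PfP.trans (PfP.trans (PfP.trans (PfP.trans (PfP.trans (PfP.trans (PfP.trans (PfP.trans (PfP.trans (PfP.trans (PfP.trans (PfP.trans (PfP.trans (PfP.trans (PfP.trans (PfP.trans (PfP.trans (PfP.trans (PfP.trans (PfP.trans (PfP.trans (PfP.trans (PfP.trans (PfP.trans (PfP.trans (PfP.trans (PfP.trans (PfP.trans (PfP.trans (PfP.trans (PfP.trans
 (PfP.trans (PfP.trans (PfP.trans (PfP.trans (pfC_sound p14_11_2_0) (pfC_sound p14_11_2_1)) (pfC_sound p14_11_2_2)) (pfC_sound p14_11_2_3)) (pfC_sound p14_11_2_4)) (pfC_sound p14_11_2_5)) (pfC_sound p14_11_2_6)) (pfC_sound p14_11_2_7)) (pfC_sound p14_11_2_8)) (pfC_sound p14_11_2_9)) (pfC_sound p14_11_2_10)) (pfC_sound p14_11_2_11)) (pfC_sound p14_11_2_12)) (pfC_sound p14_11_2_13)) (pfC_sound p14_11_2_14)) (pfC_sound p14_11_2_15)) (pfC_sound p14_11_2_16)) (pfC_sound p14_11_2_17)) (pfC_sound p14_11_2_18)) (pfC_sound p14_11_2_19)) (pfC_sound p14_11_2_20)) (pfC_sound p14_11_2_21)) (pfC_sound p14_11_2_22)) (pfC_sound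 p14_11_2_23)) (pfC_sound p14_11_2_24)) (pfC_sound p14_11_2_25)) (pfC_sound p14_11_2_26)) (pfC_sound p14_11_2_27)) (pfC_sound p14_11_2_28)) (pfC_sound p14_11_2_29)) (pfC_sound p14_11_2_30)) (pfC_sound p14_11_2_31)) (pfC_sound p14_11_2_32)) (pfC_sound p14_11_2_33)) (pfC_sound p14_11_2_34)) (pfC_sound p14_11_2_35)) (pfC_sound p14_11_2_36)) (pfC_sound p14_11_2_37)) (pfC_sound p14_11_2_38)) (pfC_sound p14_11_2_39)) (pfC_sound p14_11_2_40)) (pfC_sound p14_11_2_41)) (pfC_sound p14_11_2_42)) (pfC_sound p14_11_2_43)) (pfC_sound p14_11_2_44)) (pfC_sound p14_11_2_45)) (pfC_sound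
 p14_11_2_46)) (pfC_sound p14_11_2_47)) (pfC_sound p14_11_2_48)) (pfC_sound p14_11_2_49)) (pfC_sound p14_11_2_50)) (pfC_sound p14_11_2_51)) (pfC_sound p14_11_2_52)) (pfC_sound p14_11_2_53)) (pfC_sound p14_11_2_54)) (pfC_sound p14_11_2_55)) (pfC_sound p14_11_2_56)) (pfC_sound p14_11_2_57)) (pfC_sound p14_11_2_58)) (pfC_sound p14_11_2_59)) (pfC_sound p14_11_2_60)) (pfC_sound p14_11_2_61)) (pfC_sound p14_11_2_62)) (pfC_sound p14_11_2_63)) (pfC_sound p14_11_2_64)) (pfC_sound p14_11_2_65)) (pfC_sound p14_11_2_66)) (pfC_sound p14_11_2_67)) (pfC_sound p14_11_2_68)) (pfC_sound p14_11_2_69)) (pfC_sound p14_11_2_70)) (pfC_sound p14_11_2_71)) (pfC_sound p14_11_2_72)) (pfC_sound p14_11_2_73)) (pfC_sound p14_11_2_74)) (pfC_sound p14_11_2_75)) (pfC_sound p14_11_2_76)) (pfC_sound p14_11_2_77)) (pfC_sound p14_11_2_78)) (pfC_sound p14_11_2_79)) (pfC_sound p14_11_2_80)) (pfC_sound p14_11_2_81)) (pfC_sound p14_11_2_82)) (pfC_sound p14_11_2_83)) (pfC_sound p14_11_2_84)) (pfC_sound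 p14_11_2_85)) (pfC_sound p14_11_2_86)) (pfC_sound p14_11_2_87)) (pfC_sound p14_11_2_88)) (pfC_sound p14_11_2_89)) (pfC_sound p14_11_2_90)) (pfC_sound p14_11_2_91)) (pfC_sound p14_11_2_92)) (pfC_sound p14_11_2_93)) (pfC_sound
 p14_11_2_94)) (pfC_sound p14_11_2_95)) (pfC_sound p14_11_2_96)) (pfC_sound p14_11_2_97)) (pfC_sound p14_11_2_98)) (pfC_sound p14_11_2_99)) (pfC_sound p14_11_2_100)) (pfC_sound p14_11_2_101)) (pfC_sound p14_11_2_102)) (pfC_sound p14_11_2_103)) (pfC_sound p14_11_2_104)) (pfC_sound p14_11_2_105)) (pfC_sound p14_11_2_106)) (pfC_sound p14_11_2_107)) (pfC_sound p14_11_2_108)) (pfC_sound p14_11_2_109)) (pfC_sound p14_11_2_110)) (pfC_sound p14_11_2_111)) (pfC_sound p14_11_2_112)) (pfC_sound p14_11_2_113)) (by decide +kernel)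

def z14_11_2 : zOK yB14_11 (nat_lit 2) (nat_lit 600) (nat_lit 750) (nat_lit 6851792) (nat_lit 5108258) = true := by decide +kernel
def g14_11_2 : gOK yB14_11.x P14_11 (nat_lit 1428) (q14_11 :: r14_11) (nat_lit 2) (nat_lit 600) (nat_lit 3) (nat_lit 750) (nat_lit 12712500) (nat_lit 12712500) (nat_lit 12712500) (nat_lit 12712500) [(nat_lit 800), (nat_lit 1600)] = true := by decide +kernel
def v14_11_2 : ivC P14_11 s14_11 w14_11 n14_11 (nat_lit 4) (nat_lit 4840) (nat_lit 2) (nat_lit 600) f152_1_600 f160_1_600 (nat_lit 3) (nat_lit 750) f152_1_750 f160_1_750 (nat_lit 6851792) (nat_lit 5108258) p14_11_2 = true := by decide +kernel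
def p14_11_3 : PF := (PF.cons (PF.cons (PF.cons (PF.cons (PF.leaf (nat_lit 3012445) (nat_lit 19486890) (nat_lit 47621922) (nat_lit 19486890) [(nat_lit 0), (nat_lit 0), (nat_lit 0), (nat_lit 0)]) (PF.cons (PF.leaf (nat_lit 3145191) (nat_lit 228590) (nat_lit 47428113) (nat_lit 19452109) [(nat_lit 228590), (nat_lit 0), (nat_lit 0), (nat_lit 0)]) (PF.cons (PF.leaf (nat_lit 3303505) (nat_lit 248379) (nat_lit 47201319) (nat_lit 19410734) [(nat_lit 248379), (nat_lit 0), (nat_lit 0), (nat_lit 0)]) (PF.cons (PF.leaf (nat_lit 3481005) (nat_lit 265887) (nat_lit 46947553) (nat_lit 19363595) [(nat_lit 265887), (nat_lit 0), (nat_lit 0), (nat_lit 0)]) (PF.cons (PF.leaf (nat_lit 3675034) (nat_lit 281628) (nat_lit 46671057) (nat_lit 19311240) [(nat_lit 281628), (nat_lit 0), (nat_lit 0), (nat_lit 0)]) (PF.cons (PF.leaf (nat_lit 3883465) (nat_lit 295931) (nat_lit 46375086) (nat_lit 19254066) [(nat_lit 295931), (nat_lit 0), (nat_lit 0), (nat_lit 0)]) (PF.cons (PF.leaf (nat_lit 4104571)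 (nat_lit 309025) (nat_lit 46062272) (nat_lit 19192387) [(nat_lit 309025), (nat_lit 0), (nat_lit 0), (nat_lit 0)]) (PF.cons (PF.leaf (nat_lit 4337005) (nat_lit 321074) (nat_lit 45734823) (nat_lit 19126465) [(nat_lit 321074), (nat_lit 0),
 (nat_lit 0), (nat_lit 0)]) (PF.cons (PF.leaf (nat_lit 4579472) (nat_lit 332205) (nat_lit 45394636) (nat_lit 19056530) [(nat_lit 332205), (nat_lit 0), (nat_lit 0), (nat_lit 0)]) (PF.cons PF.nil PF.nil)))))))))) (PF.cons (PF.cons (PF.leaf (nat_lit 3494324) (nat_lit 1119529) (nat_lit 46679121) (nat_lit 19310162) [(nat_lit 0), (nat_lit 1119529), (nat_lit 0), (nat_lit 0)]) (PF.cons (PF.leaf (nat_lit 3667031) (nat_lit 275908) (nat_lit 46426179) (nat_lit 19261349) [(nat_lit 275908), (nat_lit 1145374), (nat_lit 0), (nat_lit 0)]) (PF.cons (PF.leaf (nat_lit 3858704) (nat_lit 290978) (nat_lit 46149227) (nat_lit 19206942) [(nat_lit 290978), (nat_lit 1170685), (nat_lit 0), (nat_lit 0)]) (PF.cons (PF.leaf (nat_lit 4065323) (nat_lit 304614) (nat_lit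 45852375) (nat_lit 19147527) [(nat_lit 304614), (nat_lit 1195066), (nat_lit 0), (nat_lit 0)]) (PF.cons (PF.leaf (nat_lit 4284857) (nat_lit 317068) (nat_lit 45538693) (nat_lit 19083523) [(nat_lit 317068), (nat_lit 1218321), (nat_lit 0), (nat_lit 0)]) (PF.cons (PF.leaf (nat_lit 4515804) (nat_lit 328513) (nat_lit 45210622) (nat_lit 19015260) [(nat_lit 328513), (nat_lit 1240361), (nat_lit 0), (nat_lit 0)]) (PF.cons (PF.leaf (nat_lit 4756778) (nat_lit
 339076) (nat_lit 44870185) (nat_lit 18943011) [(nat_lit 339076), (nat_lit 1261155), (nat_lit 0), (nat_lit 0)]) (PF.cons PF.nil (PF.cons PF.nil PF.nil))))))))) (PF.cons (PF.cons (PF.leaf (nat_lit 4045990) (nat_lit 1198847) (nat_lit 45614688) (nat_lit 19096430) [(nat_lit 0), (nat_lit 1198847), (nat_lit 0), (nat_lit 0)]) (PF.cons (PF.leaf (nat_lit 4248327) (nat_lit 312050) (nat_lit 45320257) (nat_lit 19035473) [(nat_lit 312050), (nat_lit 1220516), (nat_lit 0), (nat_lit 0)]) (PF.cons (PF.leaf (nat_lit 4465256) (nat_lit 324049)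 (nat_lit 45008239) (nat_lit 18969702) [(nat_lit 324049), (nat_lit 1241385), (nat_lit 0), (nat_lit 0)]) (PF.cons (PF.leaf (nat_lit 4693909) (nat_lit 335029) (nat_lit 44681571) (nat_lit 18899565) [(nat_lit 335029), (nat_lit 1261293), (nat_lit 0), (nat_lit 0)]) (PF.cons (PF.leaf (nat_lit 4932835) (nat_lit 345133) (nat_lit 44342548) (nat_lit 18825411) [(nat_lit 345133), (nat_lit 1280160), (nat_lit 0), (nat_lit 0)]) (PF.cons (PF.leaf (nat_lit 5180707) (nat_lit 354465) (nat_lit 43993052) (nat_lit 18747527) [(nat_lit 354465), (nat_lit 1297951), (nat_lit 0), (nat_lit 0)]) (PF.cons PF.nil PF.nil))))))) (PF.cons (PF.cons (PF.leaf (nat_lit 4647467) (nat_lit 1262200)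
 (nat_lit 44471243) (nat_lit 18850967) [(nat_lit 0), (nat_lit 1262200), (nat_lit 0), (nat_lit 0)]) (PF.cons (PF.leaf (nat_lit 4872085) (nat_lit 340677) (nat_lit 44148154) (nat_lit 18779494) [(nat_lit 340677), (nat_lit 1280162), (nat_lit 0), (nat_lit 0)]) (PF.cons (PF.leaf (nat_lit 5108158) (nat_lit 350426) (nat_lit 43812269) (nat_lit 18703883) [(nat_lit 350426), (nat_lit 1297268), (nat_lit 0), (nat_lit 0)]) (PF.cons (PF.leaf (nat_lit 5353451) (nat_lit 359397) (nat_lit 43465761) (nat_lit 18624498) [(nat_lit 359397), (nat_lit 1313453), (nat_lit 0), (nat_lit 0)]) (PF.cons (PF.leaf (nat_lit 5606786) (nat_lit 367679) (nat_lit 43110392) (nat_lit 18541642) [(nat_lit 367679), (nat_lit 1328687), (nat_lit 0), (nat_lit 0)]) PF.nil))))) (PF.cons (PF.cons (PF.leaf (nat_lit 5284134) (nat_lit 1312679) (nat_lit 43279578) (nat_lit 18578517) [(nat_lit 0), (nat_lit 1312679), (nat_lit 0), (nat_lit 0)]) (PF.cons (PF.leaf (nat_lit 5525469) (nat_lit 363679) (nat_lit 42937556) (nat_lit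 18498063) [(nat_lit 363679), (nat_lit 1327378), (nat_lit 0), (nat_lit 0)]) (PF.cons (PF.leaf (nat_lit 5775823) (nat_lit 371668) (nat_lit 42586407) (nat_lit 18414085) [(nat_lit 371668), (nat_lit 1341245), (nat_lit 0),
 (nat_lit 0)]) (PF.cons PF.nil PF.nil)))) (PF.cons (PF.cons (PF.leaf (nat_lit 5944639) (nat_lit 1352466) (nat_lit 42062873) (nat_lit 18283606) [(nat_lit 0), (nat_lit 1352466), (nat_lit 0), (nat_lit 0)]) (PF.cons (PF.leaf (nat_lit 6198256) (nat_lit 382221) (nat_lit 41709433) (nat_lit 18195644) [(nat_lit 382221), (nat_lit 1364302), (nat_lit 0), (nat_lit 0)]) PF.nil)) (PF.cons PF.nil (PF.cons PF.nil PF.nil)))))))) (PF.cons (PF.cons (PF.cons (PF.leaf (nat_lit 4003159) (nat_lit 2983960) (nat_lit 45141290) (nat_lit 18983562) [(nat_lit 0), (nat_lit 0), (nat_lit 2983960), (nat_lit 0)]) (PF.cons (PF.leaf (nat_lit 4184034) (nat_lit 295465) (nat_lit 44880142) (nat_lit 18928155) [(nat_lit 295465), (nat_lit 0), (nat_lit 3005049), (nat_lit 0)]) (PF.cons (PF.leaf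 (nat_lit 4382910) (nat_lit 309593) (nat_lit 44596372) (nat_lit 18867005) [(nat_lit 309593), (nat_lit 0), (nat_lit 3026249), (nat_lit 0)]) (PF.cons (PF.leaf (nat_lit 4595890) (nat_lit 322199) (nat_lit 44294314) (nat_lit 18800848) [(nat_lit 322199), (nat_lit 0), (nat_lit 3047052), (nat_lit 0)]) (PF.cons (PF.leaf (nat_lit 4820809) (nat_lit 333585) (nat_lit 43977133) (nat_lit 18730210) [(nat_lit 333585), (nat_lit 0), (nat_lit 3067125),
 (nat_lit 0)]) (PF.cons (PF.leaf (nat_lit 5056102) (nat_lit 343955) (nat_lit 43647290) (nat_lit 18655497) [(nat_lit 343955), (nat_lit 0), (nat_lit 3086247), (nat_lit 0)]) (PF.cons (PF.leaf (nat_lit 5300521) (nat_lit 353453) (nat_lit 43306779) (nat_lit 18577040) [(nat_lit 353453), (nat_lit 0), (nat_lit 3104271), (nat_lit 0)]) (PF.cons PF.nil (PF.cons PF.nil PF.nil))))))))) (PF.cons (PF.cons (PF.leaf (nat_lit 4566917) (nat_lit 1246566) (nat_lit 44062538) (nat_lit 18746676) [(nat_lit 0), (nat_lit 1246566), (nat_lit 3053031), (nat_lit 0)])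 (PF.cons (PF.leaf (nat_lit 4774718) (nat_lit 327819) (nat_lit 43765325) (nat_lit 18679691) [(nat_lit 327819), (nat_lit 1264822), (nat_lit 3071154), (nat_lit 0)]) (PF.cons (PF.leaf (nat_lit 4996185) (nat_lit 338892) (nat_lit 43452019) (nat_lit 18607964) [(nat_lit 338892), (nat_lit 1282309), (nat_lit 3088733), (nat_lit 0)]) (PF.cons (PF.leaf (nat_lit 5228508) (nat_lit 348921) (nat_lit 43125593) (nat_lit 18532032) [(nat_lit 348921), (nat_lit 1298907), (nat_lit 3105514), (nat_lit 0)]) (PF.cons (PF.leaf (nat_lit 5470173) (nat_lit 358070) (nat_lit 42788331) (nat_lit 18452304) [(nat_lit 358070), (nat_lit 1314561), (nat_lit 3121334), (nat_lit 0)]) (PF.cons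
 (PF.leaf (nat_lit 5719951) (nat_lit 366458) (nat_lit 42442069) (nat_lit 18369114) [(nat_lit 366458), (nat_lit 1329251), (nat_lit 3136085), (nat_lit 0)]) (PF.cons PF.nil PF.nil))))))) (PF.cons (PF.cons (PF.leaf (nat_lit 5173250) (nat_lit 1298302) (nat_lit 42923011) (nat_lit 18481627) [(nat_lit 0), (nat_lit 1298302), (nat_lit 3107569), (nat_lit 0)]) (PF.cons (PF.leaf (nat_lit 5400924) (nat_lit 353154) (nat_lit 42601876) (nat_lit 18404998) [(nat_lit 353154), (nat_lit 1313308), (nat_lit 3122166), (nat_lit 0)]) (PF.cons (PF.leaf (nat_lit 5639190) (nat_lit 362045) (nat_lit 42269315) (nat_lit 18324428) [(nat_lit 362045), (nat_lit 1327520), (nat_lit 3135936), (nat_lit 0)]) (PF.cons (PF.leaf (nat_lit 5885886) (nat_lit 370158) (nat_lit 41927466) (nat_lit 18240332) [(nat_lit 370158), (nat_lit 1340891), (nat_lit 3148754), (nat_lit 0)]) (PF.cons PF.nil PF.nil))))) (PF.cons (PF.cons (PF.leaf (nat_lit 5808793) (nat_lit 1339118) (nat_lit 41749726) (nat_lit 18193464) [(nat_lit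 0), (nat_lit 1339118), (nat_lit 3148265), (nat_lit 0)]) (PF.cons (PF.leaf (nat_lit 6051094) (nat_lit 373304) (nat_lit 41413567) (nat_lit 18108872) [(nat_lit 373304), (nat_lit 1351260), (nat_lit 3159285), (nat_lit 0)])
 (PF.cons (PF.leaf (nat_lit 6301673) (nat_lit 380518) (nat_lit 41069452) (nat_lit 18021017) [(nat_lit 380518), (nat_lit 1362642), (nat_lit 3169378), (nat_lit 0)]) (PF.cons PF.nil PF.nil)))) (PF.cons (PF.cons (PF.leaf (nat_lit 6463367) (nat_lit 1370789) (nat_lit 40562577) (nat_lit 17886733) [(nat_lit 0), (nat_lit 1370789), (nat_lit 3176342), (nat_lit 0)]) (PF.cons PF.nil PF.nil)) (PF.cons PF.nil PF.nil)))))) (PF.cons (PF.cons (PF.cons (PF.leaf (nat_lit 5078929) (nat_lit 3094324) (nat_lit 42542247) (nat_lit 18377916) [(nat_lit 0), (nat_lit 0), (nat_lit 3094324), (nat_lit 0)]) (PF.cons (PF.leaf (nat_lit 5290375) (nat_lit 340356) (nat_lit 42246126) (nat_lit 18306200) [(nat_lit 340356), (nat_lit 0), (nat_lit 3108064), (nat_lit 0)]) (PF.cons (PF.leaf (nat_lit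 5514733) (nat_lit 350611) (nat_lit 41935259) (nat_lit 18229871) [(nat_lit 350611), (nat_lit 0), (nat_lit 3121229), (nat_lit 0)]) (PF.cons (PF.leaf (nat_lit 5749170) (nat_lit 359808) (nat_lit 41612604) (nat_lit 18149527) [(nat_lit 359808), (nat_lit 0), (nat_lit 3133628), (nat_lit 0)]) (PF.cons (PF.leaf (nat_lit 5992174) (nat_lit 368127) (nat_lit 41280402) (nat_lit 18065626) [(nat_lit 368127), (nat_lit 0), (nat_lit 3145137), (nat_lit
 0)]) (PF.cons PF.nil (PF.cons PF.nil PF.nil))))))) (PF.cons (PF.cons (PF.leaf (nat_lit 5686199) (nat_lit 1324665) (nat_lit 41418860) (nat_lit 18098173) [(nat_lit 0), (nat_lit 1324665), (nat_lit 3133556), (nat_lit 0)]) (PF.cons (PF.leaf (nat_lit 5915510) (nat_lit 362885) (nat_lit 41102687) (nat_lit 18017691) [(nat_lit 362885), (nat_lit 1337209), (nat_lit 3144169), (nat_lit 0)]) (PF.cons (PF.leaf (nat_lit 6154674) (nat_lit 371023) (nat_lit 40776272) (nat_lit 17933483) [(nat_lit 371023), (nat_lit 1349008), (nat_lit 3154000), (nat_lit 0)])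 (PF.cons (PF.leaf (nat_lit 6401569) (nat_lit 378387) (nat_lit 40441699) (nat_lit 17846000) [(nat_lit 378387), (nat_lit 1360030), (nat_lit 3162959), (nat_lit 0)]) (PF.cons PF.nil PF.nil))))) (PF.cons (PF.cons (PF.leaf (nat_lit 6317762) (nat_lit 1357514) (nat_lit 40272872) (nat_lit 17798898) [(nat_lit 0), (nat_lit 1357514), (nat_lit 3161006), (nat_lit 0)]) (PF.cons (PF.leaf (nat_lit 6559949) (nat_lit 380595) (nat_lit 39944800) (nat_lit 17711409) [(nat_lit 380595), (nat_lit 1367512), (nat_lit 3168491), (nat_lit 0)]) (PF.cons PF.nil (PF.cons PF.nil PF.nil)))) (PF.cons (PF.cons (PF.leaf (nat_lit 6964393) (nat_lit 1382444) (nat_lit 39121475) (nat_lit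
 17484530) [(nat_lit 0), (nat_lit 1382444), (nat_lit 3177736), (nat_lit 0)]) (PF.cons PF.nil PF.nil)) (PF.cons PF.nil PF.nil))))) (PF.cons (PF.cons (PF.cons (PF.leaf (nat_lit 6185209) (nat_lit 3145435) (nat_lit 39966441) (nat_lit 17706064) [(nat_lit 0), (nat_lit 0), (nat_lit 3145435), (nat_lit 0)]) (PF.cons (PF.leaf (nat_lit 6415005) (nat_lit 370349) (nat_lit 39657360) (nat_lit 17622863) [(nat_lit 370349), (nat_lit 0), (nat_lit 3152746), (nat_lit 0)]) (PF.cons (PF.leaf (nat_lit 6654036) (nat_lit 377819) (nat_lit 39339066) (nat_lit 17536158) [(nat_lit 377819), (nat_lit 0), (nat_lit 3159316), (nat_lit 0)]) (PF.cons PF.nil PF.nil)))) (PF.cons (PF.cons (PF.leaf (nat_lit 6810567) (nat_lit 1369376) (nat_lit 38853787) (nat_lit 17399598) [(nat_lit 0), (nat_lit 1369376), (nat_lit 3162017), (nat_lit 0)]) (PF.cons (PF.leaf (nat_lit 7051785) (nat_lit 385952) (nat_lit 38535314) (nat_lit 17310268) [(nat_lit 385952), (nat_lit 1377557), (nat_lit 3166573), (nat_lit 0)]) PF.nil))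 (PF.cons PF.nil PF.nil))) (PF.cons (PF.cons (PF.cons (PF.leaf (nat_lit 7287093) (nat_lit 3153613) (nat_lit 37494909) (nat_lit 16999448) [(nat_lit 0), (nat_lit 0), (nat_lit 3153613), (nat_lit 0)]) (PF.cons PF.nil PF.nil))
 (PF.cons PF.nil PF.nil)) (PF.cons PF.nil PF.nil)))))) (PF.cons (PF.cons (PF.cons (PF.cons (PF.leaf (nat_lit 4921611) (nat_lit 8480422) (nat_lit 40787565) (nat_lit 17840824) [(nat_lit 0), (nat_lit 0), (nat_lit 0), (nat_lit 8480422)]) (PF.cons (PF.leaf (nat_lit 5101219) (nat_lit 303733) (nat_lit 40551471) (nat_lit 17781026) [(nat_lit 303733), (nat_lit 0), (nat_lit 0), (nat_lit 8472582)]) (PF.cons (PF.leaf (nat_lit 5297694) (nat_lit 317046) (nat_lit 40295889) (nat_lit 17715591) [(nat_lit 317046), (nat_lit 0), (nat_lit 0), (nat_lit 8463238)]) (PF.cons (PF.leaf (nat_lit 5507112) (nat_lit 328724) (nat_lit 40024840) (nat_lit 17645411) [(nat_lit 328724), (nat_lit 0), (nat_lit 0), (nat_lit 8452387)]) (PF.cons (PF.leaf (nat_lit 5727300) (nat_lit 339106)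 (nat_lit 39741234) (nat_lit 17571122) [(nat_lit 339106), (nat_lit 0), (nat_lit 0), (nat_lit 8440028)]) (PF.cons (PF.leaf (nat_lit 5956687) (nat_lit 348425) (nat_lit 39447308) (nat_lit 17493214) [(nat_lit 348425), (nat_lit 0), (nat_lit 0), (nat_lit 8426163)]) (PF.cons (PF.leaf (nat_lit 6193986) (nat_lit 356845) (nat_lit 39144854) (nat_lit 17412081) [(nat_lit 356845), (nat_lit 0), (nat_lit 0), (nat_lit 8410803)]) (PF.cons PF.nil (PF.cons
 PF.nil PF.nil))))))))) (PF.cons (PF.cons (PF.leaf (nat_lit 5468677) (nat_lit 1257476) (nat_lit 39821885) (nat_lit 17589984) [(nat_lit 0), (nat_lit 1257476), (nat_lit 0), (nat_lit 8439466)]) (PF.cons (PF.leaf (nat_lit 5672161) (nat_lit 332655) (nat_lit 39556589) (nat_lit 17519933) [(nat_lit 332655), (nat_lit 1272321), (nat_lit 0), (nat_lit 8427312)]) (PF.cons (PF.leaf (nat_lit 5888194) (nat_lit 342788) (nat_lit 39277788) (nat_lit 17445504) [(nat_lit 342788), (nat_lit 1286331), (nat_lit 0), (nat_lit 8413613)]) (PF.cons (PF.leaf (nat_lit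 6113978) (nat_lit 351830) (nat_lit 38988170) (nat_lit 17367313) [(nat_lit 351830), (nat_lit 1299437), (nat_lit 0), (nat_lit 8398400)]) (PF.cons (PF.leaf (nat_lit 6348024) (nat_lit 359967) (nat_lit 38689781) (nat_lit 17285832) [(nat_lit 359967), (nat_lit 1311623), (nat_lit 0), (nat_lit 8381704)]) (PF.cons (PF.leaf (nat_lit 6589144) (nat_lit 367334) (nat_lit 38384246) (nat_lit 17201435) [(nat_lit 367334), (nat_lit 1322900), (nat_lit 0), (nat_lit 8363559)]) (PF.cons PF.nil PF.nil))))))) (PF.cons (PF.cons (PF.leaf (nat_lit 6050667) (nat_lit 1297121) (nat_lit 38812638) (nat_lit 17317177) [(nat_lit 0), (nat_lit 1297121), (nat_lit 0), (nat_lit 8384754)])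
 (PF.cons (PF.leaf (nat_lit 6271307) (nat_lit 354607) (nat_lit 38528808) (nat_lit 17239175) [(nat_lit 354607), (nat_lit 1308920), (nat_lit 0), (nat_lit 8368381)]) (PF.cons (PF.leaf (nat_lit 6501516) (nat_lit 362550) (nat_lit 38235602) (nat_lit 17157718) [(nat_lit 362550), (nat_lit 1319937), (nat_lit 0), (nat_lit 8350517)]) (PF.cons (PF.leaf (nat_lit 6739167) (nat_lit 369704) (nat_lit 37934911) (nat_lit 17073263) [(nat_lit 369704), (nat_lit 1330154), (nat_lit 0), (nat_lit 8331213)]) (PF.cons PF.nil PF.nil))))) (PF.cons (PF.cons (PF.leaf (nat_lit 6655633) (nat_lit 1327206) (nat_lit 37782142) (nat_lit 17027737) [(nat_lit 0), (nat_lit 1327206), (nat_lit 0), (nat_lit 8317313)]) (PF.cons (PF.leaf (nat_lit 6888605) (nat_lit 371612) (nat_lit 37487278) (nat_lit 16943573) [(nat_lit 371612), (nat_lit 1336444), (nat_lit 0), (nat_lit 8297014)]) (PF.cons (PF.leaf (nat_lit 7128958) (nat_lit 377928) (nat_lit 37186018) (nat_lit 16856675) [(nat_lit 377928), (nat_lit 1344975), (nat_lit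 0), (nat_lit 8275333)]) (PF.cons PF.nil PF.nil)))) (PF.cons (PF.cons (PF.leaf (nat_lit 7274844) (nat_lit 1349552) (nat_lit 36746131) (nat_lit 16725963) [(nat_lit 0), (nat_lit 1349552), (nat_lit 0), (nat_lit 8238509)])
 (PF.cons PF.nil PF.nil)) (PF.cons PF.nil PF.nil)))))) (PF.cons (PF.cons (PF.cons (PF.leaf (nat_lit 5942657) (nat_lit 3049222) (nat_lit 38492128) (nat_lit 17218453) [(nat_lit 0), (nat_lit 0), (nat_lit 3049222), (nat_lit 8349007)]) (PF.cons (PF.leaf (nat_lit 6148147) (nat_lit 341580) (nat_lit 38230354) (nat_lit 17145830) [(nat_lit 341580), (nat_lit 0), (nat_lit 3057603), (nat_lit 8333443)]) (PF.cons (PF.leaf (nat_lit 6365528) (nat_lit 350967) (nat_lit 37956183) (nat_lit 17069008) [(nat_lit 350967), (nat_lit 0), (nat_lit 3065372), (nat_lit 8316311)]) (PF.cons (PF.leaf (nat_lit 6592001) (nat_lit 359271) (nat_lit 37672249) (nat_lit 16988638) [(nat_lit 359271), (nat_lit 0), (nat_lit 3072414), (nat_lit 8297694)]) (PF.cons (PF.leaf (nat_lit 6826098) (nat_lit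 366688) (nat_lit 37380531) (nat_lit 16905209) [(nat_lit 366688), (nat_lit 0), (nat_lit 3078659), (nat_lit 8277657)]) (PF.cons PF.nil (PF.cons PF.nil PF.nil))))))) (PF.cons (PF.cons (PF.leaf (nat_lit 6522434) (nat_lit 1312115) (nat_lit 37505367) (nat_lit 16938803) [(nat_lit 0), (nat_lit 1312115), (nat_lit 3069862), (nat_lit 8282663)]) (PF.cons (PF.leaf (nat_lit 6743476) (nat_lit 361149) (nat_lit 37227906) (nat_lit 16859013) [(nat_lit
 361149), (nat_lit 1321956), (nat_lit 3075596), (nat_lit 8263190)]) (PF.cons (PF.leaf (nat_lit 6973431) (nat_lit 368439) (nat_lit 36941985) (nat_lit 16775980) [(nat_lit 368439), (nat_lit 1331073), (nat_lit 3080617), (nat_lit 8242276)]) (PF.cons (PF.leaf (nat_lit 7210305) (nat_lit 374957) (nat_lit 36649427) (nat_lit 16690175) [(nat_lit 374957), (nat_lit 1339459), (nat_lit 3084877), (nat_lit 8220001)]) (PF.cons PF.nil PF.nil))))) (PF.cons (PF.cons (PF.leaf (nat_lit 7121538) (nat_lit 1336073) (nat_lit 36504887) (nat_lit 16645320) [(nat_lit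 0), (nat_lit 1336073), (nat_lit 3081239), (nat_lit 8205218)]) (PF.cons (PF.leaf (nat_lit 7353520) (nat_lit 376152) (nat_lit 36218580) (nat_lit 16560130) [(nat_lit 376152), (nat_lit 1343644), (nat_lit 3084439), (nat_lit 8182220)]) (PF.cons PF.nil (PF.cons PF.nil PF.nil)))) (PF.cons (PF.cons (PF.leaf (nat_lit 7732007) (nat_lit 1353329) (nat_lit 35504312) (nat_lit 16342030) [(nat_lit 0), (nat_lit 1353329), (nat_lit 3084395), (nat_lit 8118084)]) (PF.cons PF.nil PF.nil)) (PF.cons PF.nil PF.nil))))) (PF.cons (PF.cons (PF.cons (PF.leaf (nat_lit 6980906) (nat_lit 3064672) (nat_lit 36248957) (nat_lit 16559981) [(nat_lit 0), (nat_lit 0), (nat_lit 3064672),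
 (nat_lit 8170529)]) (PF.cons (PF.leaf (nat_lit 7201522) (nat_lit 365998) (nat_lit 35979043) (nat_lit 16479166) [(nat_lit 365998), (nat_lit 0), (nat_lit 3068026), (nat_lit 8148550)]) (PF.cons (PF.leaf (nat_lit 7430604) (nat_lit 372712) (nat_lit 35701466) (nat_lit 16395312) [(nat_lit 372712), (nat_lit 0), (nat_lit 3070710), (nat_lit 8125188)]) (PF.cons PF.nil PF.nil)))) (PF.cons (PF.cons (PF.leaf (nat_lit 7572756) (nat_lit 1340331) (nat_lit 35281496) (nat_lit 16264983) [(nat_lit 0), (nat_lit 1340331), (nat_lit 3068405), (nat_lit 8085190)]) (PF.cons (PF.leaf (nat_lit 7803219) (nat_lit 379271) (nat_lit 35004495) (nat_lit 16179447) [(nat_lit 379271), (nat_lit 1346488), (nat_lit 3069525), (nat_lit 8060058)]) PF.nil)) (PF.cons PF.nil PF.nil))) (PF.cons (PF.cons (PF.cons (PF.leaf (nat_lit 8009471) (nat_lit 3049427) (nat_lit 34112152) (nat_lit 15888958) [(nat_lit 0), (nat_lit 0), (nat_lit 3049427), (nat_lit 7959419)]) (PF.cons PF.nil PF.nil)) (PF.cons PF.nil PF.nil)) (PF.cons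 PF.nil PF.nil))))) (PF.cons (PF.cons (PF.cons (PF.cons (PF.leaf (nat_lit 6712635) (nat_lit 7975224) (nat_lit 35032910) (nat_lit 16125453) [(nat_lit 0), (nat_lit 0), (nat_lit 0), (nat_lit 7975224)]) (PF.cons (PF.leaf
 (nat_lit 6911350) (nat_lit 338455) (nat_lit 34802665) (nat_lit 16055155) [(nat_lit 338455), (nat_lit 0), (nat_lit 0), (nat_lit 7956267)]) (PF.cons (PF.leaf (nat_lit 7121120) (nat_lit 347109) (nat_lit 34561884) (nat_lit 15981072) [(nat_lit 347109), (nat_lit 0), (nat_lit 0), (nat_lit 7935817)]) (PF.cons (PF.leaf (nat_lit 7339188) (nat_lit 354682) (nat_lit 34312887) (nat_lit 15903855) [(nat_lit 354682), (nat_lit 0), (nat_lit 0), (nat_lit 7914012)]) (PF.cons (PF.leaf (nat_lit 7564128) (nat_lit 361375) (nat_lit 34057406) (nat_lit 15823991) [(nat_lit 361375), (nat_lit 0), (nat_lit 0), (nat_lit 7890956)]) PF.nil))))) (PF.cons (PF.cons (PF.leaf (nat_lit 7265431) (nat_lit 1286490) (nat_lit 34169303) (nat_lit 15857133) [(nat_lit 0), (nat_lit 1286490), (nat_lit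 0), (nat_lit 7897942)]) (PF.cons (PF.leaf (nat_lit 7477933) (nat_lit 355726) (nat_lit 33926370) (nat_lit 15780877) [(nat_lit 355726), (nat_lit 1294385), (nat_lit 0), (nat_lit 7875726)]) (PF.cons (PF.leaf (nat_lit 7698693) (nat_lit 362337) (nat_lit 33676319) (nat_lit 15701784) [(nat_lit 362337), (nat_lit 1301588), (nat_lit 0), (nat_lit 7852223)]) (PF.cons PF.nil PF.nil)))) (PF.cons (PF.cons (PF.leaf (nat_lit 7834153) (nat_lit 1304264)
 (nat_lit 33296837) (nat_lit 15578741) [(nat_lit 0), (nat_lit 1304264), (nat_lit 0), (nat_lit 7812352)]) (PF.cons (PF.leaf (nat_lit 8056236) (nat_lit 368695) (nat_lit 33046979) (nat_lit 15498201) [(nat_lit 368695), (nat_lit 1310126), (nat_lit 0), (nat_lit 7787342)]) PF.nil)) (PF.cons PF.nil (PF.cons PF.nil PF.nil))))) (PF.cons (PF.cons (PF.cons (PF.leaf (nat_lit 7689218) (nat_lit 2966685) (nat_lit 33082216) (nat_lit 15501885) [(nat_lit 0), (nat_lit 0), (nat_lit 2966685), (nat_lit 7779012)]) (PF.cons (PF.leaf (nat_lit 7900796) (nat_lit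 358822) (nat_lit 32846442) (nat_lit 15425550) [(nat_lit 358822), (nat_lit 0), (nat_lit 2967513), (nat_lit 7755241)]) (PF.cons (PF.leaf (nat_lit 8120234) (nat_lit 364929) (nat_lit 32604177) (nat_lit 15346557) [(nat_lit 364929), (nat_lit 0), (nat_lit 2967733), (nat_lit 7730242)]) (PF.cons PF.nil PF.nil)))) (PF.cons (PF.cons (PF.leaf (nat_lit 8250384) (nat_lit 1303747) (nat_lit 32239999) (nat_lit 15225010) [(nat_lit 0), (nat_lit 1303747), (nat_lit 2962461), (nat_lit 7688796)]) (PF.cons PF.nil PF.nil)) (PF.cons PF.nil PF.nil))) (PF.cons (PF.cons (PF.cons (PF.leaf (nat_lit 8653763) (nat_lit 2937713) (nat_lit 31230046) (nat_lit 14877933) [(nat_lit 0),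
 (nat_lit 0), (nat_lit 2937713), (nat_lit 7562702)]) (PF.cons PF.nil PF.nil)) (PF.cons PF.nil PF.nil)) PF.nil))) (PF.cons (PF.cons (PF.cons (PF.cons (PF.leaf (nat_lit 8327326) (nat_lit 7399731) (nat_lit 30370989) (nat_lit 14538627) [(nat_lit 0), (nat_lit 0), (nat_lit 0), (nat_lit 7399731)]) (PF.cons (PF.leaf (nat_lit 8530276) (nat_lit 350143) (nat_lit 30164364) (nat_lit 14467561) [(nat_lit 350143), (nat_lit 0), (nat_lit 0), (nat_lit 7375581)]) (PF.cons PF.nil PF.nil))) (PF.cons (PF.cons (PF.leaf (nat_lit 8860652) (nat_lit 1263767) (nat_lit 29634971) (nat_lit 14282109) [(nat_lit 0), (nat_lit 1263767), (nat_lit 0), (nat_lit 7309321)]) PF.nil) PF.nil)) (PF.cons PF.nil PF.nil)) (PF.cons PF.nil (PF.cons PF.nil (PF.cons PF.nil (PF.cons PF.nil PF.nil))))))))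

def p14_11_3_0 : pfC (piC [(nat_lit 40745421), (nat_lit 26310893), (nat_lit 19519284), (nat_lit 13130440)] (nat_lit 5108258)) p14_11_3 (nat_lit 4) (nat_lit 0) (nat_lit 1) = true := by decide +kernel
def p14_11_3_1 : pfC (piC [(nat_lit 40745421), (nat_lit 26310893), (nat_lit 19519284), (nat_lit 13130440)] (nat_lit 5108258)) p14_11_3 (nat_lit 4) (nat_lit 1) (nat_lit 2) = true := by decide +kernel
def p14_11_3_2 : pfC (piC [(nat_lit 40745421), (nat_lit 26310893), (nat_lit 19519284), (nat_lit 13130440)] (nat_lit 5108258)) p14_11_3 (nat_lit 4) (nat_lit 2) (nat_lit 3) = true := by decide +kernel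
def p14_11_3_3 : pfC (piC [(nat_lit 40745421), (nat_lit 26310893), (nat_lit 19519284), (nat_lit 13130440)] (nat_lit 5108258)) p14_11_3 (nat_lit 4) (nat_lit 3) (nat_lit 4) = true := by decide +kernel
def p14_11_3_4 : pfC (piC [(nat_lit 40745421), (nat_lit 26310893), (nat_lit 19519284), (nat_lit 13130440)] (nat_lit 5108258)) p14_11_3 (nat_lit 4) (nat_lit 4) (nat_lit 5) = true := by decide +kernel
def p14_11_3_5 : pfC (piC [(nat_lit 40745421), (nat_lit 26310893), (nat_lit 19519284), (nat_lit 13130440)] (nat_lit 5108258)) p14_11_3 (nat_lit 4) (nat_lit 5) (nat_lit 6) = true := by decide +kernel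
def p14_11_3_6 : pfC (piC [(nat_lit 40745421), (nat_lit 26310893), (nat_lit 19519284), (nat_lit 13130440)] (nat_lit 5108258)) p14_11_3 (nat_lit 4) (nat_lit 6) (nat_lit 7) = true := by decide +kernel
def p14_11_3_7 : pfC (piC [(nat_lit 40745421), (nat_lit 26310893), (nat_lit 19519284), (nat_lit 13130440)] (nat_lit 5108258)) p14_11_3 (nat_lit 4) (nat_lit 7) (nat_lit 8) = true := by decide +kernel
def p14_11_3_8 : pfC (piC [(nat_lit 40745421), (nat_lit 26310893), (nat_lit 19519284), (nat_lit 13130440)] (nat_lit 5108258)) p14_11_3 (nat_lit 4) (nat_lit 8) (nat_lit 9) = true := by decide +kernel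
def p14_11_3_9 : pfC (piC [(nat_lit 40745421), (nat_lit 26310893), (nat_lit 19519284), (nat_lit 13130440)] (nat_lit 5108258)) p14_11_3 (nat_lit 4) (nat_lit 9) (nat_lit 10) = true := by decide +kernel
def p14_11_3_10 : pfC (piC [(nat_lit 40745421), (nat_lit 26310893), (nat_lit 19519284), (nat_lit 13130440)] (nat_lit 5108258)) p14_11_3 (nat_lit 4) (nat_lit 10) (nat_lit 11) = true := by decide +kernel
def p14_11_3_11 : pfC (piC [(nat_lit 40745421), (nat_lit 26310893), (nat_lit 19519284), (nat_lit 13130440)] (nat_lit 5108258)) p14_11_3 (nat_lit 4) (nat_lit 11) (nat_lit 12) = true := by decide +kernel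
def p14_11_3_12 : pfC (piC [(nat_lit 40745421), (nat_lit 26310893), (nat_lit 19519284), (nat_lit 13130440)] (nat_lit 5108258)) p14_11_3 (nat_lit 4) (nat_lit 12) (nat_lit 13) = true := by decide +kernel
def p14_11_3_13 : pfC (piC [(nat_lit 40745421), (nat_lit 26310893), (nat_lit 19519284), (nat_lit 13130440)] (nat_lit 5108258)) p14_11_3 (nat_lit 4) (nat_lit 13) (nat_lit 14) = true := by decide +kernel
def p14_11_3_14 : pfC (piC [(nat_lit 40745421), (nat_lit 26310893), (nat_lit 19519284), (nat_lit 13130440)] (nat_lit 5108258)) p14_11_3 (nat_lit 4) (nat_lit 14) (nat_lit 15) = true := by decide +kernel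
def p14_11_3_15 : pfC (piC [(nat_lit 40745421), (nat_lit 26310893), (nat_lit 19519284), (nat_lit 13130440)] (nat_lit 5108258)) p14_11_3 (nat_lit 4) (nat_lit 15) (nat_lit 16) = true := by decide +kernel
def p14_11_3_16 : pfC (piC [(nat_lit 40745421), (nat_lit 26310893), (nat_lit 19519284), (nat_lit 13130440)] (nat_lit 5108258)) p14_11_3 (nat_lit 4) (nat_lit 16) (nat_lit 17) = true := by decide +kernel
def p14_11_3_17 : pfC (piC [(nat_lit 40745421), (nat_lit 26310893), (nat_lit 19519284), (nat_lit 13130440)] (nat_lit 5108258)) p14_11_3 (nat_lit 4) (nat_lit 17) (nat_lit 18) = true := by decide +kernel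
def p14_11_3_18 : pfC (piC [(nat_lit 40745421), (nat_lit 26310893), (nat_lit 19519284), (nat_lit 13130440)] (nat_lit 5108258)) p14_11_3 (nat_lit 4) (nat_lit 18) (nat_lit 19) = true := by decide +kernel
def p14_11_3_19 : pfC (piC [(nat_lit 40745421), (nat_lit 26310893), (nat_lit 19519284), (nat_lit 13130440)] (nat_lit 5108258)) p14_11_3 (nat_lit 4) (nat_lit 19) (nat_lit 20) = true := by decide +kernel
def p14_11_3_20 : pfC (piC [(nat_lit 40745421), (nat_lit 26310893), (nat_lit 19519284), (nat_lit 13130440)] (nat_lit 5108258)) p14_11_3 (nat_lit 4) (nat_lit 20) (nat_lit 21) = true := by decide +kernel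
def p14_11_3_21 : pfC (piC [(nat_lit 40745421), (nat_lit 26310893), (nat_lit 19519284), (nat_lit 13130440)] (nat_lit 5108258)) p14_11_3 (nat_lit 4) (nat_lit 21) (nat_lit 22) = true := by decide +kernel
def p14_11_3_22 : pfC (piC [(nat_lit 40745421), (nat_lit 26310893), (nat_lit 19519284), (nat_lit 13130440)] (nat_lit 5108258)) p14_11_3 (nat_lit 4) (nat_lit 22) (nat_lit 23) = true := by decide +kernel
def p14_11_3_23 : pfC (piC [(nat_lit 40745421), (nat_lit 26310893), (nat_lit 19519284), (nat_lit 13130440)] (nat_lit 5108258)) p14_11_3 (nat_lit 4) (nat_lit 23) (nat_lit 24) = true := by decide +kernel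
def p14_11_3_24 : pfC (piC [(nat_lit 40745421), (nat_lit 26310893), (nat_lit 19519284), (nat_lit 13130440)] (nat_lit 5108258)) p14_11_3 (nat_lit 4) (nat_lit 24) (nat_lit 25) = true := by decide +kernel
def p14_11_3_25 : pfC (piC [(nat_lit 40745421), (nat_lit 26310893), (nat_lit 19519284), (nat_lit 13130440)] (nat_lit 5108258)) p14_11_3 (nat_lit 4) (nat_lit 25) (nat_lit 26) = true := by decide +kernel
def p14_11_3_26 : pfC (piC [(nat_lit 40745421), (nat_lit 26310893), (nat_lit 19519284), (nat_lit 13130440)] (nat_lit 5108258)) p14_11_3 (nat_lit 4) (nat_lit 26) (nat_lit 27) = true := by decide +kernel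
def p14_11_3_27 : pfC (piC [(nat_lit 40745421), (nat_lit 26310893), (nat_lit 19519284), (nat_lit 13130440)] (nat_lit 5108258)) p14_11_3 (nat_lit 4) (nat_lit 27) (nat_lit 28) = true := by decide +kernel
def p14_11_3_28 : pfC (piC [(nat_lit 40745421), (nat_lit 26310893), (nat_lit 19519284), (nat_lit 13130440)] (nat_lit 5108258)) p14_11_3 (nat_lit 4) (nat_lit 28) (nat_lit 29) = true := by decide +kernel
def p14_11_3_29 : pfC (piC [(nat_lit 40745421), (nat_lit 26310893), (nat_lit 19519284), (nat_lit 13130440)] (nat_lit 5108258)) p14_11_3 (nat_lit 4) (nat_lit 29) (nat_lit 30) = true := by decide +kernel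
def p14_11_3_30 : pfC (piC [(nat_lit 40745421), (nat_lit 26310893), (nat_lit 19519284), (nat_lit 13130440)] (nat_lit 5108258)) p14_11_3 (nat_lit 4) (nat_lit 30) (nat_lit 31) = true := by decide +kernel
def p14_11_3_31 : pfC (piC [(nat_lit 40745421), (nat_lit 26310893), (nat_lit 19519284), (nat_lit 13130440)] (nat_lit 5108258)) p14_11_3 (nat_lit 4) (nat_lit 31) (nat_lit 32) = true := by decide +kernel
def p14_11_3_32 : pfC (piC [(nat_lit 40745421), (nat_lit 26310893), (nat_lit 19519284), (nat_lit 13130440)] (nat_lit 5108258)) p14_11_3 (nat_lit 4) (nat_lit 32) (nat_lit 33) = true := by decide +kernel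
def p14_11_3_33 : pfC (piC [(nat_lit 40745421), (nat_lit 26310893), (nat_lit 19519284), (nat_lit 13130440)] (nat_lit 5108258)) p14_11_3 (nat_lit 4) (nat_lit 33) (nat_lit 34) = true := by decide +kernel
def p14_11_3_34 : pfC (piC [(nat_lit 40745421), (nat_lit 26310893), (nat_lit 19519284), (nat_lit 13130440)] (nat_lit 5108258)) p14_11_3 (nat_lit 4) (nat_lit 34) (nat_lit 35) = true := by decide +kernel
def p14_11_3_35 : pfC (piC [(nat_lit 40745421), (nat_lit 26310893), (nat_lit 19519284), (nat_lit 13130440)] (nat_lit 5108258)) p14_11_3 (nat_lit 4) (nat_lit 35) (nat_lit 36) = true := by decide +kernel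
def p14_11_3_36 : pfC (piC [(nat_lit 40745421), (nat_lit 26310893), (nat_lit 19519284), (nat_lit 13130440)] (nat_lit 5108258)) p14_11_3 (nat_lit 4) (nat_lit 36) (nat_lit 37) = true := by decide +kernel
def p14_11_3_37 : pfC (piC [(nat_lit 40745421), (nat_lit 26310893), (nat_lit 19519284), (nat_lit 13130440)] (nat_lit 5108258)) p14_11_3 (nat_lit 4) (nat_lit 37) (nat_lit 38) = true := by decide +kernel
def p14_11_3_38 : pfC (piC [(nat_lit 40745421), (nat_lit 26310893), (nat_lit 19519284), (nat_lit 13130440)] (nat_lit 5108258)) p14_11_3 (nat_lit 4) (nat_lit 38) (nat_lit 39) = true := by decide +kernel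
def p14_11_3_39 : pfC (piC [(nat_lit 40745421), (nat_lit 26310893), (nat_lit 19519284), (nat_lit 13130440)] (nat_lit 5108258)) p14_11_3 (nat_lit 4) (nat_lit 39) (nat_lit 40) = true := by decide +kernel
def p14_11_3_40 : pfC (piC [(nat_lit 40745421), (nat_lit 26310893), (nat_lit 19519284), (nat_lit 13130440)] (nat_lit 5108258)) p14_11_3 (nat_lit 4) (nat_lit 40) (nat_lit 41) = true := by decide +kernel
def p14_11_3_41 : pfC (piC [(nat_lit 40745421), (nat_lit 26310893), (nat_lit 19519284), (nat_lit 13130440)] (nat_lit 5108258)) p14_11_3 (nat_lit 4) (nat_lit 41) (nat_lit 42) = true := by decide +kernel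
def p14_11_3_42 : pfC (piC [(nat_lit 40745421), (nat_lit 26310893), (nat_lit 19519284), (nat_lit 13130440)] (nat_lit 5108258)) p14_11_3 (nat_lit 4) (nat_lit 42) (nat_lit 43) = true := by decide +kernel
def p14_11_3_43 : pfC (piC [(nat_lit 40745421), (nat_lit 26310893), (nat_lit 19519284), (nat_lit 13130440)] (nat_lit 5108258)) p14_11_3 (nat_lit 4) (nat_lit 43) (nat_lit 44) = true := by decide +kernel
def p14_11_3_44 : pfC (piC [(nat_lit 40745421), (nat_lit 26310893), (nat_lit 19519284), (nat_lit 13130440)] (nat_lit 5108258)) p14_11_3 (nat_lit 4) (nat_lit 44) (nat_lit 45) = true := by decide +kernel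
def p14_11_3_45 : pfC (piC [(nat_lit 40745421), (nat_lit 26310893), (nat_lit 19519284), (nat_lit 13130440)] (nat_lit 5108258)) p14_11_3 (nat_lit 4) (nat_lit 45) (nat_lit 46) = true := by decide +kernel
def p14_11_3_46 : pfC (piC [(nat_lit 40745421), (nat_lit 26310893), (nat_lit 19519284), (nat_lit 13130440)] (nat_lit 5108258)) p14_11_3 (nat_lit 4) (nat_lit 46) (nat_lit 47) = true := by decide +kernel
def p14_11_3_47 : pfC (piC [(nat_lit 40745421), (nat_lit 26310893), (nat_lit 19519284), (nat_lit 13130440)] (nat_lit 5108258)) p14_11_3 (nat_lit 4) (nat_lit 47) (nat_lit 48) = true := by decide +kernel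
def p14_11_3_48 : pfC (piC [(nat_lit 40745421), (nat_lit 26310893), (nat_lit 19519284), (nat_lit 13130440)] (nat_lit 5108258)) p14_11_3 (nat_lit 4) (nat_lit 48) (nat_lit 49) = true := by decide +kernel
def p14_11_3_49 : pfC (piC [(nat_lit 40745421), (nat_lit 26310893), (nat_lit 19519284), (nat_lit 13130440)] (nat_lit 5108258)) p14_11_3 (nat_lit 4) (nat_lit 49) (nat_lit 50) = true := by decide +kernel
def p14_11_3_50 : pfC (piC [(nat_lit 40745421), (nat_lit 26310893), (nat_lit 19519284), (nat_lit 13130440)] (nat_lit 5108258)) p14_11_3 (nat_lit 4) (nat_lit 50) (nat_lit 51) = true := by decide +kernel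
def p14_11_3_51 : pfC (piC [(nat_lit 40745421), (nat_lit 26310893), (nat_lit 19519284), (nat_lit 13130440)] (nat_lit 5108258)) p14_11_3 (nat_lit 4) (nat_lit 51) (nat_lit 52) = true := by decide +kernel
def p14_11_3_52 : pfC (piC [(nat_lit 40745421), (nat_lit 26310893), (nat_lit 19519284), (nat_lit 13130440)] (nat_lit 5108258)) p14_11_3 (nat_lit 4) (nat_lit 52) (nat_lit 53) = true := by decide +kernel
def p14_11_3_53 : pfC (piC [(nat_lit 40745421), (nat_lit 26310893), (nat_lit 19519284), (nat_lit 13130440)] (nat_lit 5108258)) p14_11_3 (nat_lit 4) (nat_lit 53) (nat_lit 54) = true := by decide +kernel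
def p14_11_3_54 : pfC (piC [(nat_lit 40745421), (nat_lit 26310893), (nat_lit 19519284), (nat_lit 13130440)] (nat_lit 5108258)) p14_11_3 (nat_lit 4) (nat_lit 54) (nat_lit 55) = true := by decide +kernel
def p14_11_3_55 : pfC (piC [(nat_lit 40745421), (nat_lit 26310893), (nat_lit 19519284), (nat_lit 13130440)] (nat_lit 5108258)) p14_11_3 (nat_lit 4) (nat_lit 55) (nat_lit 56) = true := by decide +kernel
def p14_11_3_56 : pfC (piC [(nat_lit 40745421), (nat_lit 26310893), (nat_lit 19519284), (nat_lit 13130440)] (nat_lit 5108258)) p14_11_3 (nat_lit 4) (nat_lit 56) (nat_lit 57) = true := by decide +kernel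
def p14_11_3_57 : pfC (piC [(nat_lit 40745421), (nat_lit 26310893), (nat_lit 19519284), (nat_lit 13130440)] (nat_lit 5108258)) p14_11_3 (nat_lit 4) (nat_lit 57) (nat_lit 58) = true := by decide +kernel
def p14_11_3_58 : pfC (piC [(nat_lit 40745421), (nat_lit 26310893), (nat_lit 19519284), (nat_lit 13130440)] (nat_lit 5108258)) p14_11_3 (nat_lit 4) (nat_lit 58) (nat_lit 59) = true := by decide +kernel
def p14_11_3_59 : pfC (piC [(nat_lit 40745421), (nat_lit 26310893), (nat_lit 19519284), (nat_lit 13130440)] (nat_lit 5108258)) p14_11_3 (nat_lit 4) (nat_lit 59) (nat_lit 60) = true := by decide +kernel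
def p14_11_3_60 : pfC (piC [(nat_lit 40745421), (nat_lit 26310893), (nat_lit 19519284), (nat_lit 13130440)] (nat_lit 5108258)) p14_11_3 (nat_lit 4) (nat_lit 60) (nat_lit 61) = true := by decide +kernel
def p14_11_3_61 : pfC (piC [(nat_lit 40745421), (nat_lit 26310893), (nat_lit 19519284), (nat_lit 13130440)] (nat_lit 5108258)) p14_11_3 (nat_lit 4) (nat_lit 61) (nat_lit 62) = true := by decide +kernel
def p14_11_3_62 : pfC (piC [(nat_lit 40745421), (nat_lit 26310893), (nat_lit 19519284), (nat_lit 13130440)] (nat_lit 5108258)) p14_11_3 (nat_lit 4) (nat_lit 62) (nat_lit 63) = true := by decide +kernel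
def p14_11_3_63 : pfC (piC [(nat_lit 40745421), (nat_lit 26310893), (nat_lit 19519284), (nat_lit 13130440)] (nat_lit 5108258)) p14_11_3 (nat_lit 4) (nat_lit 63) (nat_lit 64) = true := by decide +kernel
def p14_11_3_64 : pfC (piC [(nat_lit 40745421), (nat_lit 26310893), (nat_lit 19519284), (nat_lit 13130440)] (nat_lit 5108258)) p14_11_3 (nat_lit 4) (nat_lit 64) (nat_lit 65) = true := by decide +kernel
def p14_11_3_65 : pfC (piC [(nat_lit 40745421), (nat_lit 26310893), (nat_lit 19519284), (nat_lit 13130440)] (nat_lit 5108258)) p14_11_3 (nat_lit 4) (nat_lit 65) (nat_lit 66) = true := by decide +kernel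
def p14_11_3_66 : pfC (piC [(nat_lit 40745421), (nat_lit 26310893), (nat_lit 19519284), (nat_lit 13130440)] (nat_lit 5108258)) p14_11_3 (nat_lit 4) (nat_lit 66) (nat_lit 67) = true := by decide +kernel
def p14_11_3_67 : pfC (piC [(nat_lit 40745421), (nat_lit 26310893), (nat_lit 19519284), (nat_lit 13130440)] (nat_lit 5108258)) p14_11_3 (nat_lit 4) (nat_lit 67) (nat_lit 68) = true := by decide +kernel
def p14_11_3_68 : pfC (piC [(nat_lit 40745421), (nat_lit 26310893), (nat_lit 19519284), (nat_lit 13130440)] (nat_lit 5108258)) p14_11_3 (nat_lit 4) (nat_lit 68) (nat_lit 69) = true := by decide +kernel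
def p14_11_3_69 : pfC (piC [(nat_lit 40745421), (nat_lit 26310893), (nat_lit 19519284), (nat_lit 13130440)] (nat_lit 5108258)) p14_11_3 (nat_lit 4) (nat_lit 69) (nat_lit 70) = true := by decide +kernel
def p14_11_3_70 : pfC (piC [(nat_lit 40745421), (nat_lit 26310893), (nat_lit 19519284), (nat_lit 13130440)] (nat_lit 5108258)) p14_11_3 (nat_lit 4) (nat_lit 70) (nat_lit 71) = true := by decide +kernel
def p14_11_3_71 : pfC (piC [(nat_lit 40745421), (nat_lit 26310893), (nat_lit 19519284), (nat_lit 13130440)] (nat_lit 5108258)) p14_11_3 (nat_lit 4) (nat_lit 71) (nat_lit 72) = true := by decide +kernel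
def p14_11_3_72 : pfC (piC [(nat_lit 40745421), (nat_lit 26310893), (nat_lit 19519284), (nat_lit 13130440)] (nat_lit 5108258)) p14_11_3 (nat_lit 4) (nat_lit 72) (nat_lit 73) = true := by decide +kernel
def p14_11_3_73 : pfC (piC [(nat_lit 40745421), (nat_lit 26310893), (nat_lit 19519284), (nat_lit 13130440)] (nat_lit 5108258)) p14_11_3 (nat_lit 4) (nat_lit 73) (nat_lit 74) = true := by decide +kernel
def p14_11_3_74 : pfC (piC [(nat_lit 40745421), (nat_lit 26310893), (nat_lit 19519284), (nat_lit 13130440)] (nat_lit 5108258)) p14_11_3 (nat_lit 4) (nat_lit 74) (nat_lit 75) = true := by decide +kernel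
def p14_11_3_75 : pfC (piC [(nat_lit 40745421), (nat_lit 26310893), (nat_lit 19519284), (nat_lit 13130440)] (nat_lit 5108258)) p14_11_3 (nat_lit 4) (nat_lit 75) (nat_lit 76) = true := by decide +kernel
def p14_11_3_76 : pfC (piC [(nat_lit 40745421), (nat_lit 26310893), (nat_lit 19519284), (nat_lit 13130440)] (nat_lit 5108258)) p14_11_3 (nat_lit 4) (nat_lit 76) (nat_lit 77) = true := by decide +kernel
def p14_11_3_77 : pfC (piC [(nat_lit 40745421), (nat_lit 26310893), (nat_lit 19519284), (nat_lit 13130440)] (nat_lit 5108258)) p14_11_3 (nat_lit 4) (nat_lit 77) (nat_lit 78) = true := by decide +kernel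
def p14_11_3_78 : pfC (piC [(nat_lit 40745421), (nat_lit 26310893), (nat_lit 19519284), (nat_lit 13130440)] (nat_lit 5108258)) p14_11_3 (nat_lit 4) (nat_lit 78) (nat_lit 79) = true := by decide +kernel
def p14_11_3_79 : pfC (piC [(nat_lit 40745421), (nat_lit 26310893), (nat_lit 19519284), (nat_lit 13130440)] (nat_lit 5108258)) p14_11_3 (nat_lit 4) (nat_lit 79) (nat_lit 80) = true := by decide +kernel
def p14_11_3_80 : pfC (piC [(nat_lit 40745421), (nat_lit 26310893), (nat_lit 19519284), (nat_lit 13130440)] (nat_lit 5108258)) p14_11_3 (nat_lit 4) (nat_lit 80) (nat_lit 81) = true := by decide +kernel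
def p14_11_3_81 : pfC (piC [(nat_lit 40745421), (nat_lit 26310893), (nat_lit 19519284), (nat_lit 13130440)] (nat_lit 5108258)) p14_11_3 (nat_lit 4) (nat_lit 81) (nat_lit 82) = true := by decide +kernel
def p14_11_3_82 : pfC (piC [(nat_lit 40745421), (nat_lit 26310893), (nat_lit 19519284), (nat_lit 13130440)] (nat_lit 5108258)) p14_11_3 (nat_lit 4) (nat_lit 82) (nat_lit 83) = true := by decide +kernel
def p14_11_3_83 : pfC (piC [(nat_lit 40745421), (nat_lit 26310893), (nat_lit 19519284), (nat_lit 13130440)] (nat_lit 5108258)) p14_11_3 (nat_lit 4) (nat_lit 83) (nat_lit 84) = true := by decide +kernel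
def p14_11_3_84 : pfC (piC [(nat_lit 40745421), (nat_lit 26310893), (nat_lit 19519284), (nat_lit 13130440)] (nat_lit 5108258)) p14_11_3 (nat_lit 4) (nat_lit 84) (nat_lit 85) = true := by decide +kernel
def p14_11_3_85 : pfC (piC [(nat_lit 40745421), (nat_lit 26310893), (nat_lit 19519284), (nat_lit 13130440)] (nat_lit 5108258)) p14_11_3 (nat_lit 4) (nat_lit 85) (nat_lit 86) = true := by decide +kernel
def p14_11_3_86 : pfC (piC [(nat_lit 40745421), (nat_lit 26310893), (nat_lit 19519284), (nat_lit 13130440)] (nat_lit 5108258)) p14_11_3 (nat_lit 4) (nat_lit 86) (nat_lit 87) = true := by decide +kernel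
def p14_11_3_87 : pfC (piC [(nat_lit 40745421), (nat_lit 26310893), (nat_lit 19519284), (nat_lit 13130440)] (nat_lit 5108258)) p14_11_3 (nat_lit 4) (nat_lit 87) (nat_lit 88) = true := by decide +kernel
def p14_11_3_88 : pfC (piC [(nat_lit 40745421), (nat_lit 26310893), (nat_lit 19519284), (nat_lit 13130440)] (nat_lit 5108258)) p14_11_3 (nat_lit 4) (nat_lit 88) (nat_lit 89) = true := by decide +kernel
def p14_11_3_89 : pfC (piC [(nat_lit 40745421), (nat_lit 26310893), (nat_lit 19519284), (nat_lit 13130440)] (nat_lit 5108258)) p14_11_3 (nat_lit 4) (nat_lit 89) (nat_lit 90) = true := by decide +kernel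
def p14_11_3_90 : pfC (piC [(nat_lit 40745421), (nat_lit 26310893), (nat_lit 19519284), (nat_lit 13130440)] (nat_lit 5108258)) p14_11_3 (nat_lit 4) (nat_lit 90) (nat_lit 91) = true := by decide +kernel
def p14_11_3_91 : pfC (piC [(nat_lit 40745421), (nat_lit 26310893), (nat_lit 19519284), (nat_lit 13130440)] (nat_lit 5108258)) p14_11_3 (nat_lit 4) (nat_lit 91) (nat_lit 92) = true := by decide +kernel
def p14_11_3_92 : pfC (piC [(nat_lit 40745421), (nat_lit 26310893), (nat_lit 19519284), (nat_lit 13130440)] (nat_lit 5108258)) p14_11_3 (nat_lit 4) (nat_lit 92) (nat_lit 93) = true := by decide +kernel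
def p14_11_3_93 : pfC (piC [(nat_lit 40745421), (nat_lit 26310893), (nat_lit 19519284), (nat_lit 13130440)] (nat_lit 5108258)) p14_11_3 (nat_lit 4) (nat_lit 93) (nat_lit 94) = true := by decide +kernel
def p14_11_3_94 : pfC (piC [(nat_lit 40745421), (nat_lit 26310893), (nat_lit 19519284), (nat_lit 13130440)] (nat_lit 5108258)) p14_11_3 (nat_lit 4) (nat_lit 94) (nat_lit 95) = true := by decide +kernel
def p14_11_3_95 : pfC (piC [(nat_lit 40745421), (nat_lit 26310893), (nat_lit 19519284), (nat_lit 13130440)] (nat_lit 5108258)) p14_11_3 (nat_lit 4) (nat_lit 95) (nat_lit 96) = true := by decide +kernel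
def p14_11_3_96 : pfC (piC [(nat_lit 40745421), (nat_lit 26310893), (nat_lit 19519284), (nat_lit 13130440)] (nat_lit 5108258)) p14_11_3 (nat_lit 4) (nat_lit 96) (nat_lit 97) = true := by decide +kernel
def p14_11_3_97 : pfC (piC [(nat_lit 40745421), (nat_lit 26310893), (nat_lit 19519284), (nat_lit 13130440)] (nat_lit 5108258)) p14_11_3 (nat_lit 4) (nat_lit 97) (nat_lit 98) = true := by decide +kernel
def p14_11_3_98 : pfC (piC [(nat_lit 40745421), (nat_lit 26310893), (nat_lit 19519284), (nat_lit 13130440)] (nat_lit 5108258)) p14_11_3 (nat_lit 4) (nat_lit 98) (nat_lit 99) = true := by decide +kernel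
def p14_11_3_99 : pfC (piC [(nat_lit 40745421), (nat_lit 26310893), (nat_lit 19519284), (nat_lit 13130440)] (nat_lit 5108258)) p14_11_3 (nat_lit 4) (nat_lit 99) (nat_lit 100) = true := by decide +kernel
def p14_11_3_100 : pfC (piC [(nat_lit 40745421), (nat_lit 26310893), (nat_lit 19519284), (nat_lit 13130440)] (nat_lit 5108258)) p14_11_3 (nat_lit 4) (nat_lit 100) (nat_lit 101) = true := by decide +kernel
def p14_11_3_101 : pfC (piC [(nat_lit 40745421), (nat_lit 26310893), (nat_lit 19519284), (nat_lit 13130440)] (nat_lit 5108258)) p14_11_3 (nat_lit 4) (nat_lit 101) (nat_lit 102) = true := by decide +kernel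
def p14_11_3_102 : pfC (piC [(nat_lit 40745421), (nat_lit 26310893), (nat_lit 19519284), (nat_lit 13130440)] (nat_lit 5108258)) p14_11_3 (nat_lit 4) (nat_lit 102) (nat_lit 103) = true := by decide +kernel
def p14_11_3_103 : pfC (piC [(nat_lit 40745421), (nat_lit 26310893), (nat_lit 19519284), (nat_lit 13130440)] (nat_lit 5108258)) p14_11_3 (nat_lit 4) (nat_lit 103) (nat_lit 104) = true := by decide +kernel
def p14_11_3_104 : pfC (piC [(nat_lit 40745421), (nat_lit 26310893), (nat_lit 19519284), (nat_lit 13130440)] (nat_lit 5108258)) p14_11_3 (nat_lit 4) (nat_lit 104) (nat_lit 105) = true := by decide +kernel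
def p14_11_3_105 : pfC (piC [(nat_lit 40745421), (nat_lit 26310893), (nat_lit 19519284), (nat_lit 13130440)] (nat_lit 5108258)) p14_11_3 (nat_lit 4) (nat_lit 105) (nat_lit 106) = true := by decide +kernel
def p14_11_3_106 : pfC (piC [(nat_lit 40745421), (nat_lit 26310893), (nat_lit 19519284), (nat_lit 13130440)] (nat_lit 5108258)) p14_11_3 (nat_lit 4) (nat_lit 106) (nat_lit 107) = true := by decide +kernel
def p14_11_3_107 : pfC (piC [(nat_lit 40745421), (nat_lit 26310893), (nat_lit 19519284), (nat_lit 13130440)] (nat_lit 5108258)) p14_11_3 (nat_lit 4) (nat_lit 107) (nat_lit 108) = true := by decide +kernel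
def p14_11_3_108 : pfC (piC [(nat_lit 40745421), (nat_lit 26310893), (nat_lit 19519284), (nat_lit 13130440)] (nat_lit 5108258)) p14_11_3 (nat_lit 4) (nat_lit 108) (nat_lit 109) = true := by decide +kernel
def p14_11_3_109 : pfC (piC [(nat_lit 40745421), (nat_lit 26310893), (nat_lit 19519284), (nat_lit 13130440)] (nat_lit 5108258)) p14_11_3 (nat_lit 4) (nat_lit 109) (nat_lit 110) = true := by decide +kernel
def p14_11_3_110 : pfC (piC [(nat_lit 40745421), (nat_lit 26310893), (nat_lit 19519284), (nat_lit 13130440)] (nat_lit 5108258)) p14_11_3 (nat_lit 4) (nat_lit 110) (nat_lit 111) = true := by decide +kernel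
def p14_11_3_111 : pfC (piC [(nat_lit 40745421), (nat_lit 26310893), (nat_lit 19519284), (nat_lit 13130440)] (nat_lit 5108258)) p14_11_3 (nat_lit 4) (nat_lit 111) (nat_lit 112) = true := by decide +kernel
def p14_11_3_112 : pfC (piC [(nat_lit 40745421), (nat_lit 26310893), (nat_lit 19519284), (nat_lit 13130440)] (nat_lit 5108258)) p14_11_3 (nat_lit 4) (nat_lit 112) (nat_lit 113) = true := by decide +kernel
def p14_11_3_113 : pfC (piC [(nat_lit 40745421), (nat_lit 26310893), (nat_lit 19519284), (nat_lit 13130440)] (nat_lit 5108258)) p14_11_3 (nat_lit 4) (nat_lit 113) (nat_lit 114) = true := by decide +kernel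
def p14_11_3_114 : pfC (piC [(nat_lit 40745421), (nat_lit 26310893), (nat_lit 19519284), (nat_lit 13130440)] (nat_lit 5108258)) p14_11_3 (nat_lit 4) (nat_lit 114) (nat_lit 115) = true := by decide +kernel
def p14_11_3_115 : pfC (piC [(nat_lit 40745421), (nat_lit 26310893), (nat_lit 19519284), (nat_lit 13130440)] (nat_lit 5108258)) p14_11_3 (nat_lit 4) (nat_lit 115) (nat_lit 116) = true := by decide +kernel
def p14_11_3_116 : pfC (piC [(nat_lit 40745421), (nat_lit 26310893), (nat_lit 19519284), (nat_lit 13130440)] (nat_lit 5108258)) p14_11_3 (nat_lit 4) (nat_lit 116) (nat_lit 117) = true := by decide +kernel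
def p14_11_3_117 : pfC (piC [(nat_lit 40745421), (nat_lit 26310893), (nat_lit 19519284), (nat_lit 13130440)] (nat_lit 5108258)) p14_11_3 (nat_lit 4) (nat_lit 117) (nat_lit 118) = true := by decide +kernel
def p14_11_3_118 : pfC (piC [(nat_lit 40745421), (nat_lit 26310893), (nat_lit 19519284), (nat_lit 13130440)] (nat_lit 5108258)) p14_11_3 (nat_lit 4) (nat_lit 118) (nat_lit 119) = true := by decide +kernel
def p14_11_3_119 : pfC (piC [(nat_lit 40745421), (nat_lit 26310893), (nat_lit 19519284), (nat_lit 13130440)] (nat_lit 5108258)) p14_11_3 (nat_lit 4) (nat_lit 119) (nat_lit 120) = true := by decide +kernel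
def p14_11_3_120 : pfC (piC [(nat_lit 40745421), (nat_lit 26310893), (nat_lit 19519284), (nat_lit 13130440)] (nat_lit 5108258)) p14_11_3 (nat_lit 4) (nat_lit 120) (nat_lit 121) = true := by decide +kernel
def p14_11_3_121 : pfC (piC [(nat_lit 40745421), (nat_lit 26310893), (nat_lit 19519284), (nat_lit 13130440)] (nat_lit 5108258)) p14_11_3 (nat_lit 4) (nat_lit 121) (nat_lit 122) = true := by decide +kernel
def p14_11_3_122 : pfC (piC [(nat_lit 40745421), (nat_lit 26310893), (nat_lit 19519284), (nat_lit 13130440)] (nat_lit 5108258)) p14_11_3 (nat_lit 4) (nat_lit 122) (nat_lit 123) = true := by decide +kernel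
def p14_11_3_123 : pfC (piC [(nat_lit 40745421), (nat_lit 26310893), (nat_lit 19519284), (nat_lit 13130440)] (nat_lit 5108258)) p14_11_3 (nat_lit 4) (nat_lit 123) (nat_lit 124) = true := by decide +kernel
def p14_11_3_124 : pfC (piC [(nat_lit 40745421), (nat_lit 26310893), (nat_lit 19519284), (nat_lit 13130440)] (nat_lit 5108258)) p14_11_3 (nat_lit 4) (nat_lit 124) (nat_lit 125) = true := by decide +kernel
def p14_11_3_125 : pfC (piC [(nat_lit 40745421), (nat_lit 26310893), (nat_lit 19519284), (nat_lit 13130440)] (nat_lit 5108258)) p14_11_3 (nat_lit 4) (nat_lit 125) (nat_lit 126) = true := by decide +kernel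
def p14_11_3_126 : pfC (piC [(nat_lit 40745421), (nat_lit 26310893), (nat_lit 19519284), (nat_lit 13130440)] (nat_lit 5108258)) p14_11_3 (nat_lit 4) (nat_lit 126) (nat_lit 127) = true := by decide +kernel
def p14_11_3_127 : pfC (piC [(nat_lit 40745421), (nat_lit 26310893), (nat_lit 19519284), (nat_lit 13130440)] (nat_lit 5108258)) p14_11_3 (nat_lit 4) (nat_lit 127) (nat_lit 128) = true := by decide +kernel
theorem p14_11_3_T : PfS (PiF n14_11.reverse (nat_lit 5108258)) p14_11_3 (nat_lit 4) [] 0 :=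
  pftab_of (los := [(nat_lit 40745421), (nat_lit 26310893), (nat_lit 19519284), (nat_lit 13130440)]) (by decide +kernel) (hi := (nat_lit 128)) (PfP.trans (PfP.trans (PfP.trans (PfP.trans (PfP.trans (PfP.trans (PfP.trans (PfP.trans (PfP.trans (PfP.trans (PfP.trans (PfP.trans (PfP.trans (PfP.trans (PfP.trans (PfP.trans (PfP.trans (PfP.trans (PfP.trans (PfP.trans (PfP.trans (PfP.trans (PfP.trans (PfP.trans (PfP.trans (PfP.trans (PfP.trans (PfP.trans (PfP.trans (PfP.trans (PfP.trans (PfP.trans (PfP.trans (PfP.trans (PfP.trans (PfP.trans (PfP.trans (PfP.trans (PfP.trans (PfP.trans (PfP.trans (PfP.trans (PfP.trans (PfP.trans (PfP.trans (PfP.trans (PfP.trans (PfP.trans (PfP.trans (PfP.trans (PfP.trans (PfP.trans (PfP.trans (PfP.trans (PfP.trans (PfP.trans (PfP.trans (PfP.trans (PfP.trans (PfP.trans (PfP.trans (PfP.trans (PfP.trans (PfP.trans (PfP.trans (PfP.trans (PfP.trans (PfP.trans (PfP.trans (PfP.trans (PfP.trans (PfP.trans (PfP.trans (PfP.trans (PfP.trans (PfP.trans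 (PfP.trans (PfP.trans (PfP.trans (PfP.trans (PfP.trans (PfP.trans (PfP.trans (PfP.trans (PfP.trans (PfP.trans (PfP.trans (PfP.trans (PfP.trans (PfP.trans (PfP.trans (PfP.trans (PfP.trans (PfP.trans (PfP.trans (PfP.trans (PfP.trans (PfP.trans (PfP.trans (PfP.trans (PfP.trans (PfP.trans (PfP.trans (PfP.trans (PfP.trans (PfP.trans (PfP.trans (PfP.trans (PfP.trans
 (PfP.trans (PfP.trans (PfP.trans (PfP.trans (PfP.trans (PfP.trans (PfP.trans (PfP.trans (PfP.trans (PfP.trans (PfP.trans (PfP.trans (PfP.trans (PfP.trans (PfP.trans (PfP.trans (PfP.trans (PfP.trans (pfC_sound p14_11_3_0) (pfC_sound p14_11_3_1)) (pfC_sound p14_11_3_2)) (pfC_sound p14_11_3_3)) (pfC_sound p14_11_3_4)) (pfC_sound p14_11_3_5)) (pfC_sound p14_11_3_6)) (pfC_sound p14_11_3_7)) (pfC_sound p14_11_3_8)) (pfC_sound p14_11_3_9)) (pfC_sound p14_11_3_10)) (pfC_sound p14_11_3_11)) (pfC_sound p14_11_3_12)) (pfC_sound p14_11_3_13)) (pfC_sound p14_11_3_14)) (pfC_sound p14_11_3_15)) (pfC_sound p14_11_3_16))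 (pfC_sound p14_11_3_17)) (pfC_sound p14_11_3_18)) (pfC_sound p14_11_3_19)) (pfC_sound p14_11_3_20)) (pfC_sound p14_11_3_21)) (pfC_sound p14_11_3_22)) (pfC_sound p14_11_3_23)) (pfC_sound p14_11_3_24)) (pfC_sound p14_11_3_25)) (pfC_sound p14_11_3_26)) (pfC_sound p14_11_3_27)) (pfC_sound p14_11_3_28)) (pfC_sound p14_11_3_29)) (pfC_sound p14_11_3_30)) (pfC_sound p14_11_3_31)) (pfC_sound p14_11_3_32)) (pfC_sound p14_11_3_33)) (pfC_sound p14_11_3_34)) (pfC_sound p14_11_3_35)) (pfC_sound p14_11_3_36)) (pfC_sound p14_11_3_37)) (pfC_sound p14_11_3_38)) (pfC_sound p14_11_3_39)) (pfC_sound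
 p14_11_3_40)) (pfC_sound p14_11_3_41)) (pfC_sound p14_11_3_42)) (pfC_sound p14_11_3_43)) (pfC_sound p14_11_3_44)) (pfC_sound p14_11_3_45)) (pfC_sound p14_11_3_46)) (pfC_sound p14_11_3_47)) (pfC_sound p14_11_3_48)) (pfC_sound p14_11_3_49)) (pfC_sound p14_11_3_50)) (pfC_sound p14_11_3_51)) (pfC_sound p14_11_3_52)) (pfC_sound p14_11_3_53)) (pfC_sound p14_11_3_54)) (pfC_sound p14_11_3_55)) (pfC_sound p14_11_3_56)) (pfC_sound p14_11_3_57)) (pfC_sound p14_11_3_58)) (pfC_sound p14_11_3_59)) (pfC_sound p14_11_3_60)) (pfC_sound p14_11_3_61)) (pfC_sound p14_11_3_62)) (pfC_sound p14_11_3_63)) (pfC_sound p14_11_3_64)) (pfC_sound p14_11_3_65)) (pfC_sound p14_11_3_66)) (pfC_sound p14_11_3_67)) (pfC_sound p14_11_3_68)) (pfC_sound p14_11_3_69)) (pfC_sound p14_11_3_70)) (pfC_sound p14_11_3_71)) (pfC_sound p14_11_3_72)) (pfC_sound p14_11_3_73)) (pfC_sound p14_11_3_74)) (pfC_sound p14_11_3_75)) (pfC_sound p14_11_3_76)) (pfC_sound p14_11_3_77)) (pfC_sound p14_11_3_78)) (pfC_sound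 p14_11_3_79)) (pfC_sound p14_11_3_80)) (pfC_sound p14_11_3_81)) (pfC_sound p14_11_3_82)) (pfC_sound p14_11_3_83)) (pfC_sound p14_11_3_84)) (pfC_sound p14_11_3_85)) (pfC_sound p14_11_3_86)) (pfC_sound p14_11_3_87)) (pfC_sound
 p14_11_3_88)) (pfC_sound p14_11_3_89)) (pfC_sound p14_11_3_90)) (pfC_sound p14_11_3_91)) (pfC_sound p14_11_3_92)) (pfC_sound p14_11_3_93)) (pfC_sound p14_11_3_94)) (pfC_sound p14_11_3_95)) (pfC_sound p14_11_3_96)) (pfC_sound p14_11_3_97)) (pfC_sound p14_11_3_98)) (pfC_sound p14_11_3_99)) (pfC_sound p14_11_3_100)) (pfC_sound p14_11_3_101)) (pfC_sound p14_11_3_102)) (pfC_sound p14_11_3_103)) (pfC_sound p14_11_3_104)) (pfC_sound p14_11_3_105)) (pfC_sound p14_11_3_106)) (pfC_sound p14_11_3_107)) (pfC_sound p14_11_3_108)) (pfC_sound p14_11_3_109)) (pfC_sound p14_11_3_110)) (pfC_sound p14_11_3_111)) (pfC_sound p14_11_3_112)) (pfC_sound p14_11_3_113)) (pfC_sound p14_11_3_114)) (pfC_sound p14_11_3_115)) (pfC_sound p14_11_3_116)) (pfC_sound p14_11_3_117))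 (pfC_sound p14_11_3_118)) (pfC_sound p14_11_3_119)) (pfC_sound p14_11_3_120)) (pfC_sound p14_11_3_121)) (pfC_sound p14_11_3_122)) (pfC_sound p14_11_3_123)) (pfC_sound p14_11_3_124)) (pfC_sound p14_11_3_125)) (pfC_sound p14_11_3_126)) (pfC_sound p14_11_3_127)) (by decide +kernel)

def z14_11_3 : zOK yB14_11 (nat_lit 3) (nat_lit 750) (nat_lit 849) (nat_lit 5108258) (nat_lit 3827258) = true := by decide +kernel
def g14_11_3 : gOK yB14_11.x P14_11 (nat_lit 1428) (q14_11 :: r14_11) (nat_lit 3) (nat_lit 750) (nat_lit 4) (nat_lit 849) (nat_lit 12712500) (nat_lit 12712500) (nat_lit 12712500) (nat_lit 12712500) [(nat_lit 800)] = true := by decide +kernel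
def v14_11_3 : ivC P14_11 s14_11 w14_11 n14_11 (nat_lit 4) (nat_lit 4690) (nat_lit 3) (nat_lit 750) f152_1_750 f160_1_750 (nat_lit 4) (nat_lit 849) f152_1_849 f160_1_849 (nat_lit 5108258) (nat_lit 3827258) p14_11_3 = true := by decide +kernel
end CB
end Pool.Agent.Lib.MP_6947cd_al
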