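import Pool.Agent.Lib.MP_6947cd_al.L.BoxDataB
import Pool.Agent.Lib.MP_6947cd_al.L.TeD3
import Pool.Agent.Lib.MP_6947cd_al.L.TeD4

/-!
Problem MP_6947cd_al (Chollet).  CASE B, rows `j`: boxes (generated).
-/

set_option autoImplicit false
set_option linter.defProp false
set_option maxRecDepth 20000

namespace Pool.Agent.Lib.MP_6947cd_al
namespace CB

open Ent Ent.Pk Fr Fr.WT CA

/-! box `yB14_12` -/

def P14_12 : BQ := ⟨(nat_lit 8), (nat_lit 4), (nat_lit 4), (nat_lit 0), (nat_lit 8), (nat_lit 780), (nat_lit 800), (nat_lit 120), [(nat_lit 200), (nat_lit 300), (nat_lit 450), (nat_lit 800)], (nat_lit 106144000), (nat_lit 16000000), (nat_lit 16000000000)⟩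
def q14_12 : PC := ⟨(nat_lit 1000), [(nat_lit 120000), (nat_lit 200000), (nat_lit 300000), (nat_lit 450000), (nat_lit 800000)], (nat_lit 340282367000166625996085689103316680705000000), (nat_lit 15893856000000), (nat_lit 15893856000000), (nat_lit 10000000)⟩
def r14_12 : List PC := [⟨(nat_lit 1306), [(nat_lit 120599), (nat_lit 201030), (nat_lit 301388), (nat_lit 451502), (nat_lit 801007)], (nat_lit 342191691361446234948011421019125800279952461), (nat_lit 16302523743360), (nat_lit 16313464638720), (nat_lit 10051500)⟩, ⟨(nat_lit 2245), [(nat_lit 123366), (nat_lit 204209), (nat_lit 305684), (nat_lit 460974), (nat_lit 811779)], (nat_lit 348168410855466000618091045230893401453325078), (nat_lit 17401179387200), (nat_lit 17445693814400), (nat_lit 10280500)⟩]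
def s14_12 : List PB := [⟨(nat_lit 26120), (nat_lit 1929584000000), [(nat_lit 201030), (nat_lit 301388), (nat_lit 451502), (nat_lit 801007)], (nat_lit 342191691361446234948011421019125800279952461), (nat_lit 1142202430585984), (nat_lit 1142213371481344), (nat_lit 48960)⟩, ⟨(nat_lit 44900), (nat_lit 1973856000000), [(nat_lit 204209), (nat_lit 305684), (nat_lit 460974), (nat_lit 811779)], (nat_lit 348168410855466000618091045230893401453325078), (nat_lit 1143301086229824), (nat_lit 1143345600657024), (nat_lit 199200)⟩]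
def n14_12 : List KN := [⟨(nat_lit 800), (nat_lit 450), (nat_lit 12946273), (nat_lit 5158383)⟩, ⟨(nat_lit 450), (nat_lit 300), (nat_lit 19310217), (nat_lit 12946273)⟩, ⟨(nat_lit 300), (nat_lit 200), (nat_lit 25770221), (nat_lit 19310217)⟩, ⟨(nat_lit 200), (nat_lit 120), (nat_lit 40173837), (nat_lit 25770221)⟩]
def w14_12 : List ℕ := [(nat_lit 48960), (nat_lit 199200)]
def par14_12 : parC yB14_12 P14_12 s14_12 r14_12 q14_12 n14_12 w14_12 = true := by decide +kernel

def p14_12_0 : PF := (PF.cons (PF.cons (PF.cons (PF.cons (PF.leaf (nat_lit 678766) (nat_lit 2032906) (nat_lit 65075906) (nat_lit 2032906) [(nat_lit 0), (nat_lit 0), (nat_lit 0), (nat_lit 0)]) (PF.cons (PF.leaf (nat_lit 806761) (nat_lit 198189) (nat_lit 64825437) (nat_lit 2085186) [(nat_lit 198189), (nat_lit 0), (nat_lit 0), (nat_lit 0)]) (PF.cons (PF.leaf (nat_lit 963595) (nat_lit 219409) (nat_lit 64526862) (nat_lit 2143132) [(nat_lit 219409), (nat_lit 0), (nat_lit 0), (nat_lit 0)]) (PF.cons (PF.leaf (nat_lit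 1143783) (nat_lit 239384) (nat_lit 64186325) (nat_lit 2204334) [(nat_lit 239384), (nat_lit 0), (nat_lit 0), (nat_lit 0)]) (PF.cons (PF.leaf (nat_lit 1345099) (nat_lit 258384) (nat_lit 63808127) (nat_lit 2267146) [(nat_lit 258384), (nat_lit 0), (nat_lit 0), (nat_lit 0)]) (PF.cons (PF.leaf (nat_lit 1566088) (nat_lit 276551) (nat_lit 63395664) (nat_lit 2330388) [(nat_lit 276551), (nat_lit 0), (nat_lit 0), (nat_lit 0)]) (PF.cons (PF.leaf (nat_lit 1805384) (nat_lit 293963) (nat_lit 62951834) (nat_lit 2393197) [(nat_lit 293963), (nat_lit 0), (nat_lit 0), (nat_lit 0)]) (PF.cons (PF.leaf (nat_lit 2061727) (nat_lit 310662) (nat_lit 62479246) (nat_lit 2454925) [(nat_lit 310662), (nat_lit 0), (nat_lit 0),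
 (nat_lit 0)]) (PF.cons (PF.leaf (nat_lit 2333929) (nat_lit 326675) (nat_lit 61980324) (nat_lit 2515087) [(nat_lit 326675), (nat_lit 0), (nat_lit 0), (nat_lit 0)]) (PF.cons PF.nil (PF.cons PF.nil (PF.cons PF.nil PF.nil)))))))))))) (PF.cons (PF.cons (PF.leaf (nat_lit 1175314) (nat_lit 1024220) (nat_lit 63836524) (nat_lit 2248068) [(nat_lit 0), (nat_lit 1024220), (nat_lit 0), (nat_lit 0)]) (PF.cons (PF.leaf (nat_lit 1355196) (nat_lit 256061) (nat_lit 63485973) (nat_lit 2303031) [(nat_lit 256061), (nat_lit 1063746), (nat_lit 0), (nat_lit 0)]) (PF.cons (PF.leaf (nat_lit 1558829) (nat_lit 274493) (nat_lit 63095860) (nat_lit 2360005) [(nat_lit 274493), (nat_lit 1103960), (nat_lit 0), (nat_lit 0)]) (PF.cons (PF.leaf (nat_lit 1782458) (nat_lit 292022) (nat_lit 62670962) (nat_lit 2417682) [(nat_lit 292022), (nat_lit 1144099), (nat_lit 0), (nat_lit 0)]) (PF.cons (PF.leaf (nat_lit 2024354) (nat_lit 308759) (nat_lit 62214958) (nat_lit 2475140) [(nat_lit 308759), (nat_lit 1183675),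 (nat_lit 0), (nat_lit 0)]) (PF.cons (PF.leaf (nat_lit 2283048) (nat_lit 324767) (nat_lit 61730920) (nat_lit 2531704) [(nat_lit 324767), (nat_lit 1222352), (nat_lit 0), (nat_lit 0)]) (PF.cons (PF.leaf (nat_lit
 2557211) (nat_lit 340079) (nat_lit 61221561) (nat_lit 2586876) [(nat_lit 340079), (nat_lit 1259897), (nat_lit 0), (nat_lit 0)]) (PF.cons (PF.leaf (nat_lit 2845610) (nat_lit 354719) (nat_lit 60689354) (nat_lit 2640281) [(nat_lit 354719), (nat_lit 1296142), (nat_lit 0), (nat_lit 0)]) (PF.cons PF.nil (PF.cons PF.nil PF.nil)))))))))) (PF.cons (PF.cons (PF.leaf (nat_lit 1780033) (nat_lit 1157586) (nat_lit 62347360) (nat_lit 2446279) [(nat_lit 0), (nat_lit 1157586), (nat_lit 0), (nat_lit 0)]) (PF.cons (PF.leaf (nat_lit 2003029) (nat_lit 306052) (nat_lit 61915923) (nat_lit 2498473) [(nat_lit 306052), (nat_lit 1194181), (nat_lit 0), (nat_lit 0)]) (PF.cons (PF.leaf (nat_lit 2245800) (nat_lit 322246) (nat_lit 61452561) (nat_lit 2550748) [(nat_lit 322246), (nat_lit 1230505),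 (nat_lit 0), (nat_lit 0)]) (PF.cons (PF.leaf (nat_lit 2505440) (nat_lit 337661) (nat_lit 60961177) (nat_lit 2602361) [(nat_lit 337661), (nat_lit 1266144), (nat_lit 0), (nat_lit 0)]) (PF.cons (PF.leaf (nat_lit 2780396) (nat_lit 352355) (nat_lit 60444970) (nat_lit 2652776) [(nat_lit 352355), (nat_lit 1300821), (nat_lit 0), (nat_lit 0)]) (PF.cons (PF.leaf (nat_lit 3069298) (nat_lit 366363) (nat_lit 59906713) (nat_lit
 2701601) [(nat_lit 366363), (nat_lit 1334341), (nat_lit 0), (nat_lit 0)]) (PF.cons PF.nil (PF.cons PF.nil (PF.cons PF.nil PF.nil))))))))) (PF.cons (PF.cons (PF.leaf (nat_lit 2471113) (nat_lit 1273994) (nat_lit 60666289) (nat_lit 2620541) [(nat_lit 0), (nat_lit 1273994), (nat_lit 0), (nat_lit 0)]) (PF.cons (PF.leaf (nat_lit 2729297) (nat_lit 349385) (nat_lit 60171952) (nat_lit 2667356) [(nat_lit 349385), (nat_lit 1306705), (nat_lit 0), (nat_lit 0)]) (PF.cons (PF.leaf (nat_lit 3003782) (nat_lit 363544) (nat_lit 59652600) (nat_lit 2713206) [(nat_lit 363544),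 (nat_lit 1338638), (nat_lit 0), (nat_lit 0)]) (PF.cons (PF.leaf (nat_lit 3292164) (nat_lit 376990) (nat_lit 59111497) (nat_lit 2757662) [(nat_lit 376990), (nat_lit 1369560), (nat_lit 0), (nat_lit 0)]) (PF.cons (PF.leaf (nat_lit 3593053) (nat_lit 389757) (nat_lit 58551426) (nat_lit 2800416) [(nat_lit 389757), (nat_lit 1399312), (nat_lit 0), (nat_lit 0)]) (PF.cons PF.nil (PF.cons PF.nil PF.nil))))))) (PF.cons (PF.cons (PF.leaf (nat_lit 3228457) (nat_lit 1373580) (nat_lit 58845944) (nat_lit 2768546) [(nat_lit 0), (nat_lit 1373580), (nat_lit 0), (nat_lit 0)]) (PF.cons (PF.leaf (nat_lit 3514495) (nat_lit 386630) (nat_lit 58305333)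
 (nat_lit 2808814) [(nat_lit 386630), (nat_lit 1402008), (nat_lit 0), (nat_lit 0)]) (PF.cons (PF.leaf (nat_lit 3813695) (nat_lit 398884) (nat_lit 57745873) (nat_lit 2847571) [(nat_lit 398884), (nat_lit 1429399), (nat_lit 0), (nat_lit 0)]) (PF.cons (PF.leaf (nat_lit 4124080) (nat_lit 410474) (nat_lit 57170314) (nat_lit 2884575) [(nat_lit 410474), (nat_lit 1455625), (nat_lit 0), (nat_lit 0)]) (PF.cons PF.nil PF.nil))))) (PF.cons (PF.cons (PF.leaf (nat_lit 4033767) (nat_lit 1457001) (nat_lit 56933489) (nat_lit 2890316) [(nat_lit 0), (nat_lit 1457001), (nat_lit 0), (nat_lit 0)]) (PF.cons (PF.leaf (nat_lit 4340961) (nat_lit 418232) (nat_lit 56361490) (nat_lit 2923683) [(nat_lit 418232), (nat_lit 1481081), (nat_lit 0), (nat_lit 0)]) (PF.cons PF.nil (PF.cons PF.nil PF.nil)))) (PF.cons (PF.cons (PF.leaf (nat_lit 4870881) (nat_lit 1525294) (nat_lit 54969886) (nat_lit 2987157) [(nat_lit 0), (nat_lit 1525294), (nat_lit 0), (nat_lit 0)]) (PF.cons PF.nil PF.nil)) (PF.cons PF.nil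 (PF.cons PF.nil PF.nil))))))))) (PF.cons (PF.cons (PF.cons (PF.leaf (nat_lit 1773193) (nat_lit 2467168) (nat_lit 61681270) (nat_lit 2467168) [(nat_lit 0), (nat_lit 0), (nat_lit 2960373), (nat_lit 0)]) (PF.cons (PF.leaf
 (nat_lit 1971552) (nat_lit 292605) (nat_lit 61294445) (nat_lit 2512942) [(nat_lit 292605), (nat_lit 0), (nat_lit 3008819), (nat_lit 0)]) (PF.cons (PF.leaf (nat_lit 2192783) (nat_lit 310349) (nat_lit 60869263) (nat_lit 2560053) [(nat_lit 310349), (nat_lit 0), (nat_lit 3058796), (nat_lit 0)]) (PF.cons (PF.leaf (nat_lit 2432935) (nat_lit 326897) (nat_lit 60411552) (nat_lit 2607428) [(nat_lit 326897), (nat_lit 0), (nat_lit 3109139), (nat_lit 0)]) (PF.cons (PF.leaf (nat_lit 2689964) (nat_lit 342448) (nat_lit 59925676) (nat_lit 2654319) [(nat_lit 342448), (nat_lit 0), (nat_lit 3159023), (nat_lit 0)]) (PF.cons (PF.leaf (nat_lit 2962196) (nat_lit 357123) (nat_lit 59415157) (nat_lit 2700190) [(nat_lit 357123), (nat_lit 0), (nat_lit 3207846), (nat_lit 0)])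 (PF.cons (PF.leaf (nat_lit 3248176) (nat_lit 371002) (nat_lit 58882988) (nat_lit 2744647) [(nat_lit 371002), (nat_lit 0), (nat_lit 3255164), (nat_lit 0)]) (PF.cons PF.nil (PF.cons PF.nil (PF.cons PF.nil PF.nil)))))))))) (PF.cons (PF.cons (PF.leaf (nat_lit 2416556) (nat_lit 1267281) (nat_lit 60081175) (nat_lit 2627965) [(nat_lit 0), (nat_lit 1267281), (nat_lit 3132389), (nat_lit 0)]) (PF.cons (PF.leaf (nat_lit 2653939) (nat_lit 338180)
 (nat_lit 59623558) (nat_lit 2670662) [(nat_lit 338180), (nat_lit 1298732), (nat_lit 3177678), (nat_lit 0)]) (PF.cons (PF.leaf (nat_lit 2909710) (nat_lit 353287) (nat_lit 59136615) (nat_lit 2713144) [(nat_lit 353287), (nat_lit 1329713), (nat_lit 3222764), (nat_lit 0)]) (PF.cons (PF.leaf (nat_lit 3180911) (nat_lit 367464) (nat_lit 58624723) (nat_lit 2754812) [(nat_lit 367464), (nat_lit 1359897), (nat_lit 3266985), (nat_lit 0)]) (PF.cons (PF.leaf (nat_lit 3465926) (nat_lit 380815) (nat_lit 58091369) (nat_lit 2795241) [(nat_lit 380815),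 (nat_lit 1389069), (nat_lit 3309870), (nat_lit 0)]) (PF.cons (PF.leaf (nat_lit 3763251) (nat_lit 393409) (nat_lit 57539484) (nat_lit 2834124) [(nat_lit 393409), (nat_lit 1417084), (nat_lit 3351072), (nat_lit 0)]) (PF.cons PF.nil (PF.cons PF.nil (PF.cons PF.nil PF.nil))))))))) (PF.cons (PF.cons (PF.leaf (nat_lit 3132219) (nat_lit 1364491) (nat_lit 58331560) (nat_lit 2767156) [(nat_lit 0), (nat_lit 1364491), (nat_lit 3281113), (nat_lit 0)]) (PF.cons (PF.leaf (nat_lit 3400298) (nat_lit 376765) (nat_lit 57822152) (nat_lit 2804750) [(nat_lit 376765), (nat_lit 1392138), (nat_lit 3320867), (nat_lit 0)]) (PF.cons (PF.leaf (nat_lit 3683190) (nat_lit 389672)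
 (nat_lit 57290786) (nat_lit 2841311) [(nat_lit 389672), (nat_lit 1418939), (nat_lit 3359491), (nat_lit 0)]) (PF.cons (PF.leaf (nat_lit 3978499) (nat_lit 401792) (nat_lit 56740892) (nat_lit 2876500) [(nat_lit 401792), (nat_lit 1444716), (nat_lit 3396609), (nat_lit 0)]) (PF.cons (PF.leaf (nat_lit 4284795) (nat_lit 413186) (nat_lit 56175318) (nat_lit 2910080) [(nat_lit 413186), (nat_lit 1469353), (nat_lit 3431958), (nat_lit 0)]) (PF.cons PF.nil (PF.cons PF.nil PF.nil))))))) (PF.cons (PF.cons (PF.leaf (nat_lit 3901062) (nat_lit 1446390) (nat_lit 56482149) (nat_lit 2883148) [(nat_lit 0), (nat_lit 1446390), (nat_lit 3404342), (nat_lit 0)]) (PF.cons (PF.leaf (nat_lit 4192718) (nat_lit 409305) (nat_lit 55937089) (nat_lit 2914802) [(nat_lit 409305), (nat_lit 1470021), (nat_lit 3437552), (nat_lit 0)]) (PF.cons (PF.leaf (nat_lit 4496118) (nat_lit 420271) (nat_lit 55376189) (nat_lit 2945015) [(nat_lit 420271), (nat_lit 1492631), (nat_lit 3469170), (nat_lit 0)]) (PF.cons PF.nil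 (PF.cons PF.nil PF.nil))))) (PF.cons (PF.cons (PF.leaf (nat_lit 4706504) (nat_lit 1513819) (nat_lit 54574996) (nat_lit 2976289) [(nat_lit 0), (nat_lit 1513819), (nat_lit 3502249), (nat_lit 0)]) (PF.cons (PF.leaf
 (nat_lit 5015526) (nat_lit 436451) (nat_lit 54007909) (nat_lit 3001832) [(nat_lit 436451), (nat_lit 1533482), (nat_lit 3528689), (nat_lit 0)]) (PF.cons PF.nil (PF.cons PF.nil PF.nil)))) (PF.cons (PF.cons (PF.leaf (nat_lit 5534373) (nat_lit 1567897) (nat_lit 52645048) (nat_lit 3047976) [(nat_lit 0), (nat_lit 1567897), (nat_lit 3576300), (nat_lit 0)]) (PF.cons PF.nil PF.nil)) (PF.cons PF.nil (PF.cons PF.nil PF.nil)))))))) (PF.cons (PF.cons (PF.cons (PF.leaf (nat_lit 3053672) (nat_lit 2766514) (nat_lit 57775838) (nat_lit 2766514) [(nat_lit 0), (nat_lit 0), (nat_lit 3283230), (nat_lit 0)]) (PF.cons (PF.leaf (nat_lit 3301223) (nat_lit 364489) (nat_lit 57304392) (nat_lit 2801107) [(nat_lit 364489), (nat_lit 0), (nat_lit 3319412), (nat_lit 0)]) (PF.cons (PF.leaf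 (nat_lit 3565928) (nat_lit 378530) (nat_lit 56806235) (nat_lit 2835259) [(nat_lit 378530), (nat_lit 0), (nat_lit 3355128), (nat_lit 0)]) (PF.cons (PF.leaf (nat_lit 3844756) (nat_lit 391533) (nat_lit 56286006) (nat_lit 2868492) [(nat_lit 391533), (nat_lit 0), (nat_lit 3389856), (nat_lit 0)]) (PF.cons (PF.leaf (nat_lit 4135989) (nat_lit 403637) (nat_lit 55747329) (nat_lit 2900474) [(nat_lit 403637), (nat_lit 0), (nat_lit 3423230),
 (nat_lit 0)]) (PF.cons (PF.leaf (nat_lit 4438093) (nat_lit 414937) (nat_lit 55193177) (nat_lit 2930972) [(nat_lit 414937), (nat_lit 0), (nat_lit 3454986), (nat_lit 0)]) (PF.cons PF.nil PF.nil))))))) (PF.cons (PF.cons (PF.leaf (nat_lit 3783020) (nat_lit 1434824) (nat_lit 56000081) (nat_lit 2876284) [(nat_lit 0), (nat_lit 1434824), (nat_lit 3398811), (nat_lit 0)]) (PF.cons (PF.leaf (nat_lit 4057418) (nat_lit 398760) (nat_lit 55486444) (nat_lit 2906052) [(nat_lit 398760), (nat_lit 1458054), (nat_lit 3429750), (nat_lit 0)]) (PF.cons (PF.leaf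 (nat_lit 4345273) (nat_lit 410505) (nat_lit 54953608) (nat_lit 2934752) [(nat_lit 410505), (nat_lit 1480402), (nat_lit 3459519), (nat_lit 0)]) (PF.cons (PF.leaf (nat_lit 4644228) (nat_lit 421412) (nat_lit 54405048) (nat_lit 2962124) [(nat_lit 421412), (nat_lit 1501736), (nat_lit 3487832), (nat_lit 0)]) (PF.cons PF.nil PF.nil))))) (PF.cons (PF.cons (PF.leaf (nat_lit 4554721) (nat_lit 1501595) (nat_lit 54156494) (nat_lit 2965487) [(nat_lit 0), (nat_lit 1501595), (nat_lit 3491820), (nat_lit 0)]) (PF.cons (PF.leaf (nat_lit 4849081) (nat_lit 427118) (nat_lit 53615937) (nat_lit 2989879) [(nat_lit 427118), (nat_lit 1521085), (nat_lit 3516852), (nat_lit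
 0)]) (PF.cons (PF.leaf (nat_lit 5153893) (nat_lit 436924) (nat_lit 53062098) (nat_lit 3012915) [(nat_lit 436924), (nat_lit 1539587), (nat_lit 3540387), (nat_lit 0)]) (PF.cons PF.nil PF.nil)))) (PF.cons (PF.cons (PF.leaf (nat_lit 5353822) (nat_lit 1555442) (nat_lit 52281981) (nat_lit 3034795) [(nat_lit 0), (nat_lit 1555442), (nat_lit 3562854), (nat_lit 0)]) (PF.cons (PF.leaf (nat_lit 5662377) (nat_lit 450368) (nat_lit 51726794) (nat_lit 3053792) [(nat_lit 450368), (nat_lit 1571331), (nat_lit 3581931), (nat_lit 0)]) PF.nil)) (PF.cons PF.nil (PF.cons PF.nil PF.nil)))))) (PF.cons (PF.cons (PF.cons (PF.leaf (nat_lit 4417911) (nat_lit 2954799) (nat_lit 53708939) (nat_lit 2954799) [(nat_lit 0), (nat_lit 0), (nat_lit 3481691), (nat_lit 0)]) (PF.cons (PF.leaf (nat_lit 4695744) (nat_lit 416178) (nat_lit 53199235) (nat_lit 2977911) [(nat_lit 416178), (nat_lit 0), (nat_lit 3505162), (nat_lit 0)]) (PF.cons (PF.leaf (nat_lit 4985886) (nat_lit 426853) (nat_lit 52672766) (nat_lit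 2999955) [(nat_lit 426853), (nat_lit 0), (nat_lit 3527461), (nat_lit 0)]) (PF.cons (PF.leaf (nat_lit 5285980) (nat_lit 436660) (nat_lit 52132972) (nat_lit 3020732) [(nat_lit 436660), (nat_lit 0), (nat_lit 3548375),
 (nat_lit 0)]) (PF.cons PF.nil PF.nil))))) (PF.cons (PF.cons (PF.leaf (nat_lit 5185956) (nat_lit 1542224) (nat_lit 51896649) (nat_lit 3021548) [(nat_lit 0), (nat_lit 1542224), (nat_lit 3549463), (nat_lit 0)]) (PF.cons (PF.leaf (nat_lit 5480732) (nat_lit 440833) (nat_lit 51367080) (nat_lit 3039827) [(nat_lit 440833), (nat_lit 1558148), (nat_lit 3567640), (nat_lit 0)]) (PF.cons (PF.leaf (nat_lit 5784890) (nat_lit 449598) (nat_lit 50826371) (nat_lit 3056841) [(nat_lit 449598), (nat_lit 1573129), (nat_lit 3584424), (nat_lit 0)]) (PF.cons PF.nil PF.nil)))) (PF.cons (PF.cons (PF.leaf (nat_lit 5974068) (nat_lit 1584554) (nat_lit 50073922) (nat_lit 3071039) [(nat_lit 0), (nat_lit 1584554), (nat_lit 3598247), (nat_lit 0)]) (PF.cons PF.nil PF.nil)) (PF.cons PF.nil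 (PF.cons PF.nil PF.nil))))) (PF.cons (PF.cons (PF.cons (PF.leaf (nat_lit 5792816) (nat_lit 3056226) (nat_lit 49720885) (nat_lit 3056226) [(nat_lit 0), (nat_lit 0), (nat_lit 3582925), (nat_lit 0)]) (PF.cons (PF.leaf (nat_lit 6086295) (nat_lit 451103) (nat_lit 49206821) (nat_lit 3069376) [(nat_lit 451103), (nat_lit 0), (nat_lit 3595377), (nat_lit 0)]) (PF.cons (PF.leaf (nat_lit 6388245) (nat_lit 458939) (nat_lit 48683392) (nat_lit
 3081357) [(nat_lit 458939), (nat_lit 0), (nat_lit 3606545), (nat_lit 0)]) (PF.cons PF.nil PF.nil)))) (PF.cons (PF.cons (PF.leaf (nat_lit 6566685) (nat_lit 1603392) (nat_lit 47962703) (nat_lit 3089295) [(nat_lit 0), (nat_lit 1603392), (nat_lit 3613355), (nat_lit 0)]) (PF.cons PF.nil PF.nil)) (PF.cons PF.nil PF.nil))) (PF.cons (PF.cons (PF.cons (PF.leaf (nat_lit 7131926) (nat_lit 3093082) (nat_lit 45954603) (nat_lit 3093082) [(nat_lit 0), (nat_lit 0), (nat_lit 3612225), (nat_lit 0)]) (PF.cons PF.nil PF.nil)) (PF.cons PF.nil PF.nil)) (PF.cons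 PF.nil (PF.cons PF.nil PF.nil)))))))) (PF.cons (PF.cons (PF.cons (PF.cons (PF.leaf (nat_lit 3010225) (nat_lit 2692029) (nat_lit 54830717) (nat_lit 2692029) [(nat_lit 0), (nat_lit 0), (nat_lit 0), (nat_lit 9586066)]) (PF.cons (PF.leaf (nat_lit 3216680) (nat_lit 327422) (nat_lit 54456559) (nat_lit 2723386) [(nat_lit 327422), (nat_lit 0), (nat_lit 0), (nat_lit 9601443)]) (PF.cons (PF.leaf (nat_lit 3444247) (nat_lit 344234) (nat_lit 54049231) (nat_lit 2755086) [(nat_lit 344234), (nat_lit 0), (nat_lit 0), (nat_lit 9616025)]) (PF.cons (PF.leaf (nat_lit 3688671) (nat_lit 359435) (nat_lit 53614926) (nat_lit 2786398) [(nat_lit 359435), (nat_lit 0),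
 (nat_lit 0), (nat_lit 9629180)]) (PF.cons (PF.leaf (nat_lit 3947736) (nat_lit 373328) (nat_lit 53158221) (nat_lit 2816841) [(nat_lit 373328), (nat_lit 0), (nat_lit 0), (nat_lit 9640438)]) (PF.cons (PF.leaf (nat_lit 4219539) (nat_lit 386112) (nat_lit 52682715) (nat_lit 2846090) [(nat_lit 386112), (nat_lit 0), (nat_lit 0), (nat_lit 9649447)]) (PF.cons (PF.leaf (nat_lit 4502546) (nat_lit 397928) (nat_lit 52191372) (nat_lit 2873925) [(nat_lit 397928), (nat_lit 0), (nat_lit 0), (nat_lit 9655941)]) (PF.cons (PF.leaf (nat_lit 4795435) (nat_lit 408882) (nat_lit 51686708) (nat_lit 2900197) [(nat_lit 408882), (nat_lit 0), (nat_lit 0), (nat_lit 9659729)]) (PF.cons (PF.leaf (nat_lit 5097095) (nat_lit 419052) (nat_lit 51170903) (nat_lit 2924809) [(nat_lit 419052), (nat_lit 0), (nat_lit 0), (nat_lit 9660676)]) (PF.cons PF.nil PF.nil)))))))))) (PF.cons (PF.cons (PF.leaf (nat_lit 3652130) (nat_lit 1369682) (nat_lit 53312697) (nat_lit 2795625) [(nat_lit 0), (nat_lit 1369682), (nat_lit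 0), (nat_lit 9630807)]) (PF.cons (PF.leaf (nat_lit 3891410) (nat_lit 367034) (nat_lit 52884775) (nat_lit 2823353) [(nat_lit 367034), (nat_lit 1393782), (nat_lit 0), (nat_lit 9639866)]) (PF.cons (PF.leaf (nat_lit
 4146880) (nat_lit 380534) (nat_lit 52433174) (nat_lit 2850467) [(nat_lit 380534), (nat_lit 1417050), (nat_lit 0), (nat_lit 9647050)]) (PF.cons (PF.leaf (nat_lit 4415524) (nat_lit 392888) (nat_lit 51962243) (nat_lit 2876593) [(nat_lit 392888), (nat_lit 1439292), (nat_lit 0), (nat_lit 9652018)]) (PF.cons (PF.leaf (nat_lit 4695642) (nat_lit 404259) (nat_lit 51475366) (nat_lit 2901479) [(nat_lit 404259), (nat_lit 1460401), (nat_lit 0), (nat_lit 9654528)]) (PF.cons (PF.leaf (nat_lit 4985702) (nat_lit 414764) (nat_lit 50975301) (nat_lit 2924960) [(nat_lit 414764), (nat_lit 1480320), (nat_lit 0), (nat_lit 9654406)]) (PF.cons (PF.leaf (nat_lit 5284480) (nat_lit 424492) (nat_lit 50464371) (nat_lit 2946925) [(nat_lit 424492), (nat_lit 1499024), (nat_lit 0), (nat_lit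 9651538)]) (PF.cons (PF.leaf (nat_lit 5590882) (nat_lit 433509) (nat_lit 49944574) (nat_lit 2967307) [(nat_lit 433509), (nat_lit 1516509), (nat_lit 0), (nat_lit 9645853)]) (PF.cons PF.nil PF.nil))))))))) (PF.cons (PF.cons (PF.leaf (nat_lit 4347678) (nat_lit 1439279) (nat_lit 51701834) (nat_lit 2880616) [(nat_lit 0), (nat_lit 1439279), (nat_lit 0), (nat_lit 9647803)]) (PF.cons (PF.leaf (nat_lit 4611432) (nat_lit 398772) (nat_lit
 51238355) (nat_lit 2903780) [(nat_lit 398772), (nat_lit 1459464), (nat_lit 0), (nat_lit 9648974)]) (PF.cons (PF.leaf (nat_lit 4887744) (nat_lit 409795) (nat_lit 50758205) (nat_lit 2925888) [(nat_lit 409795), (nat_lit 1478688), (nat_lit 0), (nat_lit 9647751)]) (PF.cons (PF.leaf (nat_lit 5174291) (nat_lit 419929) (nat_lit 50264576) (nat_lit 2946745) [(nat_lit 419929), (nat_lit 1496861), (nat_lit 0), (nat_lit 9643977)]) (PF.cons (PF.leaf (nat_lit 5469690) (nat_lit 429276) (nat_lit 49760047) (nat_lit 2966228) [(nat_lit 429276), (nat_lit 1513938),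 (nat_lit 0), (nat_lit 9637553)]) (PF.cons (PF.leaf (nat_lit 5772756) (nat_lit 437913) (nat_lit 49246769) (nat_lit 2984256) [(nat_lit 437913), (nat_lit 1529898), (nat_lit 0), (nat_lit 9628423)]) (PF.cons PF.nil PF.nil))))))) (PF.cons (PF.cons (PF.leaf (nat_lit 5080005) (nat_lit 1495182) (nat_lit 50040065) (nat_lit 2947371) [(nat_lit 0), (nat_lit 1495182), (nat_lit 0), (nat_lit 9635828)]) (PF.cons (PF.leaf (nat_lit 5361701) (nat_lit 424393) (nat_lit 49554857) (nat_lit 2965756) [(nat_lit 424393), (nat_lit 1511709), (nat_lit 0), (nat_lit 9628677)]) (PF.cons (PF.leaf (nat_lit 5653089) (nat_lit 433426) (nat_lit 49058319) (nat_lit 2982906) [(nat_lit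
 433426), (nat_lit 1527254), (nat_lit 0), (nat_lit 9618969)]) (PF.cons (PF.leaf (nat_lit 5952322) (nat_lit 441736) (nat_lit 48552863) (nat_lit 2998729) [(nat_lit 441736), (nat_lit 1541783), (nat_lit 0), (nat_lit 9606661)]) (PF.cons (PF.leaf (nat_lit 6258274) (nat_lit 449392) (nat_lit 48040482) (nat_lit 3013169) [(nat_lit 449392), (nat_lit 1555281), (nat_lit 0), (nat_lit 9591746)]) PF.nil))))) (PF.cons (PF.cons (PF.leaf (nat_lit 5835680) (nat_lit 1539085) (nat_lit 48359318) (nat_lit 2997134) [(nat_lit 0), (nat_lit 1539085), (nat_lit 0), (nat_lit 9596016)]) (PF.cons (PF.leaf (nat_lit 6130060) (nat_lit 444993) (nat_lit 47863065) (nat_lit 3010886) [(nat_lit 444993), (nat_lit 1552265), (nat_lit 0), (nat_lit 9580805)]) (PF.cons (PF.leaf (nat_lit 6431824) (nat_lit 452368) (nat_lit 47359610) (nat_lit 3023370) [(nat_lit 452368), (nat_lit 1564500), (nat_lit 0), (nat_lit 9563094)]) (PF.cons PF.nil PF.nil)))) (PF.cons (PF.cons (PF.leaf (nat_lit 6603886) (nat_lit 1572485) (nat_lit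 46684026) (nat_lit 3031529) [(nat_lit 0), (nat_lit 1572485), (nat_lit 0), (nat_lit 9530830)]) (PF.cons (PF.leaf (nat_lit 6906645) (nat_lit 461365) (nat_lit 46184981) (nat_lit 3040981) [(nat_lit 461365), (nat_lit
 1582652), (nat_lit 0), (nat_lit 9508223)]) PF.nil)) (PF.cons PF.nil (PF.cons PF.nil PF.nil)))))))) (PF.cons (PF.cons (PF.cons (PF.leaf (nat_lit 4236678) (nat_lit 2867987) (nat_lit 51229496) (nat_lit 2867987) [(nat_lit 0), (nat_lit 0), (nat_lit 3388571), (nat_lit 9622757)]) (PF.cons (PF.leaf (nat_lit 4481156) (nat_lit 384541) (nat_lit 50801931) (nat_lit 2889854) [(nat_lit 384541), (nat_lit 0), (nat_lit 3410100), (nat_lit 9622384)]) (PF.cons (PF.leaf (nat_lit 4740778) (nat_lit 397015) (nat_lit 50352935) (nat_lit 2911030) [(nat_lit 397015), (nat_lit 0), (nat_lit 3430908), (nat_lit 9619907)]) (PF.cons (PF.leaf (nat_lit 5012502) (nat_lit 408301) (nat_lit 49886867) (nat_lit 2931221) [(nat_lit 408301), (nat_lit 0), (nat_lit 3450686), (nat_lit 9615133)]) (PF.cons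 (PF.leaf (nat_lit 5294596) (nat_lit 418587) (nat_lit 49407067) (nat_lit 2950237) [(nat_lit 418587), (nat_lit 0), (nat_lit 3469224), (nat_lit 9607935)]) (PF.cons (PF.leaf (nat_lit 5585569) (nat_lit 428005) (nat_lit 48916211) (nat_lit 2967955) [(nat_lit 428005), (nat_lit 0), (nat_lit 3486386), (nat_lit 9598230)]) (PF.cons (PF.leaf (nat_lit 5884218) (nat_lit 436656) (nat_lit 48416517) (nat_lit 2984298) [(nat_lit 436656), (nat_lit
 0), (nat_lit 3502082), (nat_lit 9585977)]) (PF.cons PF.nil (PF.cons PF.nil PF.nil))))))))) (PF.cons (PF.cons (PF.leaf (nat_lit 4934515) (nat_lit 1479348) (nat_lit 49638507) (nat_lit 2932529) [(nat_lit 0), (nat_lit 1479348), (nat_lit 3452241), (nat_lit 9606186)]) (PF.cons (PF.leaf (nat_lit 5200599) (nat_lit 412634) (nat_lit 49182047) (nat_lit 2950249) [(nat_lit 412634), (nat_lit 1496147), (nat_lit 3469397), (nat_lit 9598335)]) (PF.cons (PF.leaf (nat_lit 5478185) (nat_lit 422660) (nat_lit 48710951) (nat_lit 2966948) [(nat_lit 422660), (nat_lit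 1512017), (nat_lit 3485461), (nat_lit 9588113)]) (PF.cons (PF.leaf (nat_lit 5765031) (nat_lit 431788) (nat_lit 48228331) (nat_lit 2982480) [(nat_lit 431788), (nat_lit 1526896), (nat_lit 3500278), (nat_lit 9575458)]) (PF.cons (PF.leaf (nat_lit 6059766) (nat_lit 440134) (nat_lit 47736666) (nat_lit 2996757) [(nat_lit 440134), (nat_lit 1540757), (nat_lit 3513749), (nat_lit 9560345)]) (PF.cons (PF.leaf (nat_lit 6361236) (nat_lit 447782) (nat_lit 47237991) (nat_lit 3009724) [(nat_lit 447782), (nat_lit 1553595), (nat_lit 3525814), (nat_lit 9542775)]) (PF.cons PF.nil PF.nil))))))) (PF.cons (PF.cons (PF.leaf (nat_lit 5661874) (nat_lit 1524182) (nat_lit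
 48016199) (nat_lit 2981234) [(nat_lit 0), (nat_lit 1524182), (nat_lit 3499018), (nat_lit 9563995)]) (PF.cons (PF.leaf (nat_lit 5943369) (nat_lit 434957) (nat_lit 47543501) (nat_lit 2994712) [(nat_lit 434957), (nat_lit 1537671), (nat_lit 3511633), (nat_lit 9548666)]) (PF.cons (PF.leaf (nat_lit 6233623) (nat_lit 443060) (nat_lit 47061183) (nat_lit 3007051) [(nat_lit 443060), (nat_lit 1550241), (nat_lit 3523020), (nat_lit 9530954)]) (PF.cons (PF.leaf (nat_lit 6530840) (nat_lit 450448) (nat_lit 46571545) (nat_lit 3018188) [(nat_lit 450448), (nat_lit 1561873), (nat_lit 3533109), (nat_lit 9510876)]) (PF.cons PF.nil PF.nil))))) (PF.cons (PF.cons (PF.leaf (nat_lit 6406696) (nat_lit 1558487) (nat_lit 46389992) (nat_lit 3015318) [(nat_lit 0), (nat_lit 1558487), (nat_lit 3530044), (nat_lit 9497995)]) (PF.cons (PF.leaf (nat_lit 6698744) (nat_lit 452621) (nat_lit 45910538) (nat_lit 3024744) [(nat_lit 452621), (nat_lit 1568984), (nat_lit 3538290), (nat_lit 9475665)]) (PF.cons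 (PF.leaf (nat_lit 6997395) (nat_lit 459152) (nat_lit 45425244) (nat_lit 3033029) [(nat_lit 459152), (nat_lit 1578613), (nat_lit 3545300), (nat_lit 9451092)]) (PF.cons PF.nil PF.nil)))) (PF.cons (PF.cons (PF.leaf (nat_lit
 7159487) (nat_lit 1583636) (nat_lit 44780279) (nat_lit 3036288) [(nat_lit 0), (nat_lit 1583636), (nat_lit 3546873), (nat_lit 9410825)]) (PF.cons PF.nil PF.nil)) (PF.cons PF.nil PF.nil)))))) (PF.cons (PF.cons (PF.cons (PF.leaf (nat_lit 5503242) (nat_lit 2965083) (nat_lit 47647954) (nat_lit 2965083) [(nat_lit 0), (nat_lit 0), (nat_lit 3482548), (nat_lit 9530678)]) (PF.cons (PF.leaf (nat_lit 5769910) (nat_lit 423279) (nat_lit 47202570) (nat_lit 2978222) [(nat_lit 423279), (nat_lit 0), (nat_lit 3494684), (nat_lit 9515371)]) (PF.cons (PF.leaf (nat_lit 6047204) (nat_lit 432408) (nat_lit 46744302) (nat_lit 2990382) [(nat_lit 432408), (nat_lit 0), (nat_lit 3505770), (nat_lit 9497771)]) (PF.cons (PF.leaf (nat_lit 6332900) (nat_lit 440640) (nat_lit 46276151)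 (nat_lit 3001459) [(nat_lit 440640), (nat_lit 0), (nat_lit 3515695), (nat_lit 9477890)]) (PF.cons (PF.leaf (nat_lit 6625650) (nat_lit 448099) (nat_lit 45800477) (nat_lit 3011390) [(nat_lit 448099), (nat_lit 0), (nat_lit 3524394), (nat_lit 9455758)]) (PF.cons PF.nil (PF.cons PF.nil PF.nil))))))) (PF.cons (PF.cons (PF.leaf (nat_lit 6222120) (nat_lit 1543608) (nat_lit 46076761) (nat_lit 2998789) [(nat_lit 0), (nat_lit 1543608), (nat_lit
 3512826), (nat_lit 9464001)]) (PF.cons (PF.leaf (nat_lit 6502098) (nat_lit 442723) (nat_lit 45619479) (nat_lit 3008163) [(nat_lit 442723), (nat_lit 1554507), (nat_lit 3520937), (nat_lit 9442065)]) (PF.cons (PF.leaf (nat_lit 6790026) (nat_lit 450001) (nat_lit 45153997) (nat_lit 3016491) [(nat_lit 450001), (nat_lit 1564547), (nat_lit 3527919), (nat_lit 9417933)]) (PF.cons (PF.leaf (nat_lit 7084219) (nat_lit 456579) (nat_lit 44682490) (nat_lit 3023732) [(nat_lit 456579), (nat_lit 1573722), (nat_lit 3533731), (nat_lit 9391666)]) (PF.cons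 PF.nil PF.nil))))) (PF.cons (PF.cons (PF.leaf (nat_lit 6953765) (nat_lit 1569836) (nat_lit 44512819) (nat_lit 3019915) [(nat_lit 0), (nat_lit 1569836), (nat_lit 3529590), (nat_lit 9377223)]) (PF.cons (PF.leaf (nat_lit 7242536) (nat_lit 457848) (nat_lit 44052049) (nat_lit 3025746) [(nat_lit 457848), (nat_lit 1578058), (nat_lit 3533893), (nat_lit 9349263)]) (PF.cons (PF.leaf (nat_lit 7537263) (nat_lit 463638) (nat_lit 43586530) (nat_lit 3030554) [(nat_lit 463638), (nat_lit 1585486), (nat_lit 3537088), (nat_lit 9319301)]) (PF.cons PF.nil PF.nil)))) (PF.cons (PF.cons (PF.leaf (nat_lit 7689797) (nat_lit 1588077) (nat_lit 42973146) (nat_lit 3029856)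
 [(nat_lit 0), (nat_lit 1588077), (nat_lit 3534296), (nat_lit 9272982)]) (PF.cons PF.nil PF.nil)) (PF.cons PF.nil PF.nil))))) (PF.cons (PF.cons (PF.cons (PF.leaf (nat_lit 6760365) (nat_lit 3003156) (nat_lit 44227370) (nat_lit 3003156) [(nat_lit 0), (nat_lit 0), (nat_lit 3511982), (nat_lit 9342339)]) (PF.cons (PF.leaf (nat_lit 7037810) (nat_lit 448150) (nat_lit 43787346) (nat_lit 3009106) [(nat_lit 448150), (nat_lit 0), (nat_lit 3516352), (nat_lit 9315151)]) (PF.cons (PF.leaf (nat_lit 7322582) (nat_lit 454699) (nat_lit 43340294) (nat_lit 3014097) [(nat_lit 454699), (nat_lit 0), (nat_lit 3519689), (nat_lit 9285954)]) (PF.cons (PF.leaf (nat_lit 7612957) (nat_lit 460563) (nat_lit 42888264) (nat_lit 3018107) [(nat_lit 460563), (nat_lit 0), (nat_lit 3521969), (nat_lit 9254840)]) (PF.cons PF.nil PF.nil))))) (PF.cons (PF.cons (PF.leaf (nat_lit 7477256) (nat_lit 1574605) (nat_lit 42730108) (nat_lit 3013598) [(nat_lit 0), (nat_lit 1574605), (nat_lit 3517044), (nat_lit 9239366)])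 (PF.cons (PF.leaf (nat_lit 7762099) (nat_lit 461079) (nat_lit 42289049) (nat_lit 3016453) [(nat_lit 461079), (nat_lit 1580902), (nat_lit 3518099), (nat_lit 9207031)]) (PF.cons PF.nil (PF.cons PF.nil PF.nil))))
 (PF.cons (PF.cons (PF.leaf (nat_lit 8195774) (nat_lit 1587072) (nat_lit 41262373) (nat_lit 3014510) [(nat_lit 0), (nat_lit 1587072), (nat_lit 3511882), (nat_lit 9122138)]) (PF.cons PF.nil PF.nil)) PF.nil))) (PF.cons (PF.cons (PF.cons (PF.leaf (nat_lit 7977906) (nat_lit 2998563) (nat_lit 41041623) (nat_lit 2998563) [(nat_lit 0), (nat_lit 0), (nat_lit 3494896), (nat_lit 9089041)]) (PF.cons (PF.leaf (nat_lit 8258312) (nat_lit 462659) (nat_lit 40620670) (nat_lit 2998959) [(nat_lit 462659), (nat_lit 0), (nat_lit 3493285), (nat_lit 9053379)]) PF.nil)) (PF.cons PF.nil PF.nil)) (PF.cons PF.nil PF.nil)))))) (PF.cons (PF.cons (PF.cons (PF.cons (PF.leaf (nat_lit 5250550) (nat_lit 2867159) (nat_lit 45646175) (nat_lit 2867159) [(nat_lit 0), (nat_lit 0), (nat_lit 0), (nat_lit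 9297738)]) (PF.cons (PF.leaf (nat_lit 5487692) (nat_lit 390536) (nat_lit 45271304) (nat_lit 2880990) [(nat_lit 390536), (nat_lit 0), (nat_lit 0), (nat_lit 9282990)]) (PF.cons (PF.leaf (nat_lit 5738433) (nat_lit 401742) (nat_lit 44878996) (nat_lit 2894038) [(nat_lit 401742), (nat_lit 0), (nat_lit 0), (nat_lit 9266146)]) (PF.cons (PF.leaf (nat_lit 5999812) (nat_lit 411700) (nat_lit 44473119) (nat_lit 2906128) [(nat_lit
 411700), (nat_lit 0), (nat_lit 0), (nat_lit 9247231)]) (PF.cons (PF.leaf (nat_lit 6270107) (nat_lit 420625) (nat_lit 44056600) (nat_lit 2917156) [(nat_lit 420625), (nat_lit 0), (nat_lit 0), (nat_lit 9226277)]) (PF.cons (PF.leaf (nat_lit 6547934) (nat_lit 428671) (nat_lit 43631751) (nat_lit 2927061) [(nat_lit 428671), (nat_lit 0), (nat_lit 0), (nat_lit 9203322)]) (PF.cons (PF.leaf (nat_lit 6832142) (nat_lit 435952) (nat_lit 43200457) (nat_lit 2935815) [(nat_lit 435952), (nat_lit 0), (nat_lit 0), (nat_lit 9178413)]) (PF.cons PF.nil (PF.cons PF.nil PF.nil)))))))))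 (PF.cons (PF.cons (PF.leaf (nat_lit 5911851) (nat_lit 1478328) (nat_lit 44262356) (nat_lit 2903901) [(nat_lit 0), (nat_lit 1478328), (nat_lit 0), (nat_lit 9232113)]) (PF.cons (PF.leaf (nat_lit 6167063) (nat_lit 414161) (nat_lit 43866482) (nat_lit 2914201) [(nat_lit 414161), (nat_lit 1490841), (nat_lit 0), (nat_lit 9211563)]) (PF.cons (PF.leaf (nat_lit 6432422) (nat_lit 422907) (nat_lit 43459043) (nat_lit 2923562) [(nat_lit 422907), (nat_lit 1502440), (nat_lit 0), (nat_lit 9188975)]) (PF.cons (PF.leaf (nat_lit 6705763) (nat_lit 430744) (nat_lit 43042729) (nat_lit 2931909) [(nat_lit 430744), (nat_lit 1513107), (nat_lit 0),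
 (nat_lit 9164416)]) (PF.cons (PF.leaf (nat_lit 6985784) (nat_lit 437802) (nat_lit 42619649) (nat_lit 2939202) [(nat_lit 437802), (nat_lit 1522848), (nat_lit 0), (nat_lit 9137950)]) (PF.cons (PF.leaf (nat_lit 7271413) (nat_lit 444179) (nat_lit 42191516) (nat_lit 2945427) [(nat_lit 444179), (nat_lit 1531682), (nat_lit 0), (nat_lit 9109644)]) (PF.cons PF.nil PF.nil))))))) (PF.cons (PF.cons (PF.leaf (nat_lit 6595027) (nat_lit 1509046) (nat_lit 42864410) (nat_lit 2928271) [(nat_lit 0), (nat_lit 1509046), (nat_lit 0), (nat_lit 9149018)]) (PF.cons (PF.leaf (nat_lit 6862749) (nat_lit 432317) (nat_lit 42457864) (nat_lit 2935171) [(nat_lit 432317), (nat_lit 1518649), (nat_lit 0), (nat_lit 9123080)]) (PF.cons (PF.leaf (nat_lit 7138112) (nat_lit 439212) (nat_lit 42043935) (nat_lit 2941108) [(nat_lit 439212), (nat_lit 1527412), (nat_lit 0), (nat_lit 9095259)]) (PF.cons (PF.leaf (nat_lit 7419404) (nat_lit 445408) (nat_lit 41624559) (nat_lit 2946061) [(nat_lit 445408), (nat_lit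 1535341), (nat_lit 0), (nat_lit 9065641)]) (PF.cons PF.nil PF.nil))))) (PF.cons (PF.cons (PF.leaf (nat_lit 7290075) (nat_lit 1531084) (nat_lit 41473045) (nat_lit 2941628) [(nat_lit 0), (nat_lit 1531084), (nat_lit 0),
 (nat_lit 9050442)]) (PF.cons (PF.leaf (nat_lit 7566133) (nat_lit 446246) (nat_lit 41063242) (nat_lit 2945402) [(nat_lit 446246), (nat_lit 1538169), (nat_lit 0), (nat_lit 9019705)]) (PF.cons (PF.leaf (nat_lit 7847900) (nat_lit 451683) (nat_lit 40649110) (nat_lit 2948257) [(nat_lit 451683), (nat_lit 1544499), (nat_lit 0), (nat_lit 8987290)]) (PF.cons PF.nil PF.nil)))) (PF.cons (PF.cons (PF.leaf (nat_lit 7989404) (nat_lit 1545819) (nat_lit 40102947) (nat_lit 2945363) [(nat_lit 0), (nat_lit 1545819), (nat_lit 0), (nat_lit 8938612)]) (PF.cons (PF.leaf (nat_lit 8270538) (nat_lit 456789) (nat_lit 39695272) (nat_lit 2946342) [(nat_lit 456789), (nat_lit 1550730), (nat_lit 0), (nat_lit 8903743)]) PF.nil)) (PF.cons PF.nil PF.nil)))))) (PF.cons (PF.cons (PF.cons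 (PF.leaf (nat_lit 6424604) (nat_lit 2910309) (nat_lit 42564322) (nat_lit 2910309) [(nat_lit 0), (nat_lit 0), (nat_lit 3409338), (nat_lit 9112421)]) (PF.cons (PF.leaf (nat_lit 6679000) (nat_lit 420599) (nat_lit 42181078) (nat_lit 2917376) [(nat_lit 420599), (nat_lit 0), (nat_lit 3414722), (nat_lit 9087518)]) (PF.cons (PF.leaf (nat_lit 6942848) (nat_lit 428588) (nat_lit 41787550) (nat_lit 2923561) [(nat_lit 428588), (nat_lit 0),
 (nat_lit 3419174), (nat_lit 9060674)]) (PF.cons (PF.leaf (nat_lit 7214001) (nat_lit 435684) (nat_lit 41386306) (nat_lit 2928814) [(nat_lit 435684), (nat_lit 0), (nat_lit 3422645), (nat_lit 9031995)]) (PF.cons (PF.leaf (nat_lit 7491180) (nat_lit 442024) (nat_lit 40979337) (nat_lit 2933114) [(nat_lit 442024), (nat_lit 0), (nat_lit 3425112), (nat_lit 9001575)]) (PF.cons (PF.leaf (nat_lit 7773408) (nat_lit 447707) (nat_lit 40568241) (nat_lit 2936457) [(nat_lit 447707), (nat_lit 0), (nat_lit 3426570), (nat_lit 8969503)]) (PF.cons PF.nil PF.nil)))))))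 (PF.cons (PF.cons (PF.leaf (nat_lit 7097651) (nat_lit 1516027) (nat_lit 41219437) (nat_lit 2924396) [(nat_lit 0), (nat_lit 1516027), (nat_lit 3417815), (nat_lit 9015568)]) (PF.cons (PF.leaf (nat_lit 7363022) (nat_lit 436470) (nat_lit 40828310) (nat_lit 2928462) [(nat_lit 436470), (nat_lit 1523696), (nat_lit 3420057), (nat_lit 8985907)]) (PF.cons (PF.leaf (nat_lit 7635415) (nat_lit 442698) (nat_lit 40430781) (nat_lit 2931650) [(nat_lit 442698), (nat_lit 1530590), (nat_lit 3421366), (nat_lit 8954514)]) (PF.cons (PF.leaf (nat_lit 7913166) (nat_lit 448248) (nat_lit 40028674) (nat_lit 2933949) [(nat_lit 448248), (nat_lit 1536720), (nat_lit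
 3421732), (nat_lit 8921496)]) (PF.cons PF.nil PF.nil))))) (PF.cons (PF.cons (PF.leaf (nat_lit 7779406) (nat_lit 1532234) (nat_lit 39887430) (nat_lit 2929041) [(nat_lit 0), (nat_lit 1532234), (nat_lit 3416372), (nat_lit 8905749)]) (PF.cons (PF.leaf (nat_lit 8051847) (nat_lit 448445) (nat_lit 39495008) (nat_lit 2930377) [(nat_lit 448445), (nat_lit 1537659), (nat_lit 3415737), (nat_lit 8871962)]) (PF.cons (PF.leaf (nat_lit 8329508) (nat_lit 453300) (nat_lit 39098974) (nat_lit 2930886) [(nat_lit 453300), (nat_lit 1542394), (nat_lit 3414222), (nat_lit 8836669)]) (PF.cons PF.nil PF.nil)))) (PF.cons (PF.cons (PF.leaf (nat_lit 8463088) (nat_lit 1542078) (nat_lit 38580638) (nat_lit 2925484) [(nat_lit 0), (nat_lit 1542078), (nat_lit 3406273), (nat_lit 8785090)]) (PF.cons PF.nil PF.nil)) (PF.cons PF.nil PF.nil))))) (PF.cons (PF.cons (PF.cons (PF.leaf (nat_lit 7581133) (nat_lit 2912206) (nat_lit 39656477) (nat_lit 2912206) [(nat_lit 0), (nat_lit 0), (nat_lit 3398613), (nat_lit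 8871451)]) (PF.cons (PF.leaf (nat_lit 7843524) (nat_lit 438988) (nat_lit 39281410) (nat_lit 2913916) [(nat_lit 438988), (nat_lit 0), (nat_lit 3398337), (nat_lit 8838911)]) (PF.cons (PF.leaf (nat_lit 8112446) (nat_lit
 444627) (nat_lit 38900756) (nat_lit 2914822) [(nat_lit 444627), (nat_lit 0), (nat_lit 3397207), (nat_lit 8804782)]) (PF.cons (PF.leaf (nat_lit 8386233) (nat_lit 449608) (nat_lit 38516229) (nat_lit 2914926) [(nat_lit 449608), (nat_lit 0), (nat_lit 3395228), (nat_lit 8769187)]) (PF.cons PF.nil PF.nil))))) (PF.cons (PF.cons (PF.leaf (nat_lit 8248834) (nat_lit 1529053) (nat_lit 38384701) (nat_lit 2909694) [(nat_lit 0), (nat_lit 1529053), (nat_lit 3389500), (nat_lit 8753180)]) (PF.cons (PF.leaf (nat_lit 8517282) (nat_lit 449274) (nat_lit 38009802) (nat_lit 2909016) [(nat_lit 449274), (nat_lit 1533074), (nat_lit 3386715), (nat_lit 8717106)]) (PF.cons PF.nil (PF.cons PF.nil PF.nil)))) (PF.cons (PF.cons (PF.leaf (nat_lit 8916637) (nat_lit 1534810) (nat_lit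 37140649) (nat_lit 2900187) [(nat_lit 0), (nat_lit 1534810), (nat_lit 3373041), (nat_lit 8626135)]) (PF.cons PF.nil PF.nil)) PF.nil))) (PF.cons (PF.cons (PF.cons (PF.leaf (nat_lit 8699183) (nat_lit 2884999) (nat_lit 36962425) (nat_lit 2884999) [(nat_lit 0), (nat_lit 0), (nat_lit 3356870), (nat_lit 8595388)]) (PF.cons (PF.leaf (nat_lit 8963354) (nat_lit 448970) (nat_lit 36604874) (nat_lit 2882660) [(nat_lit 448970), (nat_lit 0), (nat_lit
 3352327), (nat_lit 8557662)]) PF.nil)) (PF.cons PF.nil PF.nil)) (PF.cons PF.nil PF.nil))))) (PF.cons (PF.cons (PF.cons (PF.cons (PF.leaf (nat_lit 7221696) (nat_lit 2824002) (nat_lit 38314761) (nat_lit 2824002) [(nat_lit 0), (nat_lit 0), (nat_lit 0), (nat_lit 8656682)]) (PF.cons (PF.leaf (nat_lit 7464032) (nat_lit 412721) (nat_lit 37985901) (nat_lit 2827307) [(nat_lit 412721), (nat_lit 0), (nat_lit 0), (nat_lit 8627627)]) (PF.cons (PF.leaf (nat_lit 7714956) (nat_lit 419842) (nat_lit 37648593) (nat_lit 2829820) [(nat_lit 419842), (nat_lit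 0), (nat_lit 0), (nat_lit 8596904)]) (PF.cons (PF.leaf (nat_lit 7972383) (nat_lit 426091) (nat_lit 37305018) (nat_lit 2831526) [(nat_lit 426091), (nat_lit 0), (nat_lit 0), (nat_lit 8564664)]) (PF.cons (PF.leaf (nat_lit 8235129) (nat_lit 431609) (nat_lit 36956856) (nat_lit 2832425) [(nat_lit 431609), (nat_lit 0), (nat_lit 0), (nat_lit 8531030)]) (PF.cons PF.nil (PF.cons PF.nil PF.nil))))))) (PF.cons (PF.cons (PF.leaf (nat_lit 7853673) (nat_lit 1474141) (nat_lit 37165147) (nat_lit 2826301) [(nat_lit 0), (nat_lit 1474141), (nat_lit 0), (nat_lit 8547740)]) (PF.cons (PF.leaf (nat_lit 8105416) (nat_lit 426058) (nat_lit 36830528) (nat_lit 2827160)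
 [(nat_lit 426058), (nat_lit 1479677), (nat_lit 0), (nat_lit 8515129)]) (PF.cons (PF.leaf (nat_lit 8363485) (nat_lit 431514) (nat_lit 36490688) (nat_lit 2827269) [(nat_lit 431514), (nat_lit 1484511), (nat_lit 0), (nat_lit 8481105)]) (PF.cons (PF.leaf (nat_lit 8626319) (nat_lit 436321) (nat_lit 36147162) (nat_lit 2826635) [(nat_lit 436321), (nat_lit 1488665), (nat_lit 0), (nat_lit 8445794)]) (PF.cons PF.nil PF.nil))))) (PF.cons (PF.cons (PF.leaf (nat_lit 8491995) (nat_lit 1483967) (nat_lit 36029100) (nat_lit 2821309) [(nat_lit 0), (nat_lit 1483967), (nat_lit 0), (nat_lit 8430156)]) (PF.cons (PF.leaf (nat_lit 8749689) (nat_lit 435860) (nat_lit 35693993) (nat_lit 2820002) [(nat_lit 435860), (nat_lit 1487587), (nat_lit 0), (nat_lit 8394593)]) (PF.cons PF.nil (PF.cons PF.nil PF.nil)))) (PF.cons (PF.cons (PF.leaf (nat_lit 9130979) (nat_lit 1488593) (nat_lit 34915957) (nat_lit 2810110) [(nat_lit 0), (nat_lit 1488593), (nat_lit 0), (nat_lit 8305654)]) (PF.cons PF.nil PF.nil))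 (PF.cons PF.nil PF.nil))))) (PF.cons (PF.cons (PF.cons (PF.leaf (nat_lit 8293100) (nat_lit 2805229) (nat_lit 35840974) (nat_lit 2805229) [(nat_lit 0), (nat_lit 0), (nat_lit 3268024), (nat_lit 8398194)]) (PF.cons
 (PF.leaf (nat_lit 8541764) (nat_lit 426801) (nat_lit 35520360) (nat_lit 2804419) [(nat_lit 426801), (nat_lit 0), (nat_lit 3265074), (nat_lit 8364052)]) (PF.cons (PF.leaf (nat_lit 8796363) (nat_lit 431770) (nat_lit 35195122) (nat_lit 2802923) [(nat_lit 431770), (nat_lit 0), (nat_lit 3261404), (nat_lit 8328607)]) (PF.cons PF.nil PF.nil)))) (PF.cons (PF.cons (PF.leaf (nat_lit 8918446) (nat_lit 1476321) (nat_lit 34756656) (nat_lit 2795311) [(nat_lit 0), (nat_lit 1476321), (nat_lit 3251080), (nat_lit 8276480)]) (PF.cons (PF.leaf (nat_lit 9172302) (nat_lit 435265) (nat_lit 34436492) (nat_lit 2792601) [(nat_lit 435265), (nat_lit 1478883), (nat_lit 3246168), (nat_lit 8239800)]) PF.nil)) (PF.cons PF.nil PF.nil))) (PF.cons (PF.cons (PF.cons (PF.leaf (nat_lit 9328818)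 (nat_lit 2765992) (nat_lit 33551183) (nat_lit 2765992) [(nat_lit 0), (nat_lit 0), (nat_lit 3213699), (nat_lit 8121412)]) (PF.cons PF.nil PF.nil)) (PF.cons PF.nil PF.nil)) PF.nil))) (PF.cons (PF.cons (PF.cons (PF.cons (PF.leaf (nat_lit 8922563) (nat_lit 2693587) (nat_lit 32632895) (nat_lit 2693587) [(nat_lit 0), (nat_lit 0), (nat_lit 0), (nat_lit 7945582)]) (PF.cons (PF.leaf (nat_lit 9158813) (nat_lit 413321) (nat_lit 32357201)
 (nat_lit 2691280) [(nat_lit 413321), (nat_lit 0), (nat_lit 0), (nat_lit 7911752)]) (PF.cons (PF.leaf (nat_lit 9400570) (nat_lit 417779) (nat_lit 32077572) (nat_lit 2688377) [(nat_lit 417779), (nat_lit 0), (nat_lit 0), (nat_lit 7876826)]) (PF.cons PF.nil PF.nil)))) (PF.cons (PF.cons (PF.leaf (nat_lit 9511241) (nat_lit 1421463) (nat_lit 31702412) (nat_lit 2679513) [(nat_lit 0), (nat_lit 1421463), (nat_lit 0), (nat_lit 7826355)]) (PF.cons PF.nil PF.nil)) (PF.cons PF.nil PF.nil))) (PF.cons (PF.cons (PF.cons (PF.leaf (nat_lit 9889170) (nat_lit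 2648374) (nat_lit 30672604) (nat_lit 2648374) [(nat_lit 0), (nat_lit 0), (nat_lit 3073089), (nat_lit 7678686)]) (PF.cons PF.nil PF.nil)) PF.nil) PF.nil)) (PF.cons PF.nil (PF.cons PF.nil (PF.cons PF.nil (PF.cons PF.nil PF.nil)))))))))

def p14_12_0_0 : pfC (piC [(nat_lit 40173837), (nat_lit 25770221), (nat_lit 19310217), (nat_lit 12946273)] (nat_lit 24191191)) p14_12_0 (nat_lit 4) (nat_lit 0) (nat_lit 1) = true := by decide +kernel
def p14_12_0_1 : pfC (piC [(nat_lit 40173837), (nat_lit 25770221), (nat_lit 19310217), (nat_lit 12946273)] (nat_lit 24191191)) p14_12_0 (nat_lit 4) (nat_lit 1) (nat_lit 2) = true := by decide +kernel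
def p14_12_0_2 : pfC (piC [(nat_lit 40173837), (nat_lit 25770221), (nat_lit 19310217), (nat_lit 12946273)] (nat_lit 24191191)) p14_12_0 (nat_lit 4) (nat_lit 2) (nat_lit 3) = true := by decide +kernel
def p14_12_0_3 : pfC (piC [(nat_lit 40173837), (nat_lit 25770221), (nat_lit 19310217), (nat_lit 12946273)] (nat_lit 24191191)) p14_12_0 (nat_lit 4) (nat_lit 3) (nat_lit 4) = true := by decide +kernel
def p14_12_0_4 : pfC (piC [(nat_lit 40173837), (nat_lit 25770221), (nat_lit 19310217), (nat_lit 12946273)] (nat_lit 24191191)) p14_12_0 (nat_lit 4) (nat_lit 4) (nat_lit 5) = true := by decide +kernel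
def p14_12_0_5 : pfC (piC [(nat_lit 40173837), (nat_lit 25770221), (nat_lit 19310217), (nat_lit 12946273)] (nat_lit 24191191)) p14_12_0 (nat_lit 4) (nat_lit 5) (nat_lit 6) = true := by decide +kernel
def p14_12_0_6 : pfC (piC [(nat_lit 40173837), (nat_lit 25770221), (nat_lit 19310217), (nat_lit 12946273)] (nat_lit 24191191)) p14_12_0 (nat_lit 4) (nat_lit 6) (nat_lit 7) = true := by decide +kernel
def p14_12_0_7 : pfC (piC [(nat_lit 40173837), (nat_lit 25770221), (nat_lit 19310217), (nat_lit 12946273)] (nat_lit 24191191)) p14_12_0 (nat_lit 4) (nat_lit 7) (nat_lit 8) = true := by decide +kernel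
def p14_12_0_8 : pfC (piC [(nat_lit 40173837), (nat_lit 25770221), (nat_lit 19310217), (nat_lit 12946273)] (nat_lit 24191191)) p14_12_0 (nat_lit 4) (nat_lit 8) (nat_lit 9) = true := by decide +kernel
def p14_12_0_9 : pfC (piC [(nat_lit 40173837), (nat_lit 25770221), (nat_lit 19310217), (nat_lit 12946273)] (nat_lit 24191191)) p14_12_0 (nat_lit 4) (nat_lit 9) (nat_lit 10) = true := by decide +kernel
def p14_12_0_10 : pfC (piC [(nat_lit 40173837), (nat_lit 25770221), (nat_lit 19310217), (nat_lit 12946273)] (nat_lit 24191191)) p14_12_0 (nat_lit 4) (nat_lit 10) (nat_lit 11) = true := by decide +kernel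
def p14_12_0_11 : pfC (piC [(nat_lit 40173837), (nat_lit 25770221), (nat_lit 19310217), (nat_lit 12946273)] (nat_lit 24191191)) p14_12_0 (nat_lit 4) (nat_lit 11) (nat_lit 12) = true := by decide +kernel
def p14_12_0_12 : pfC (piC [(nat_lit 40173837), (nat_lit 25770221), (nat_lit 19310217), (nat_lit 12946273)] (nat_lit 24191191)) p14_12_0 (nat_lit 4) (nat_lit 12) (nat_lit 13) = true := by decide +kernel
def p14_12_0_13 : pfC (piC [(nat_lit 40173837), (nat_lit 25770221), (nat_lit 19310217), (nat_lit 12946273)] (nat_lit 24191191)) p14_12_0 (nat_lit 4) (nat_lit 13) (nat_lit 14) = true := by decide +kernel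
def p14_12_0_14 : pfC (piC [(nat_lit 40173837), (nat_lit 25770221), (nat_lit 19310217), (nat_lit 12946273)] (nat_lit 24191191)) p14_12_0 (nat_lit 4) (nat_lit 14) (nat_lit 15) = true := by decide +kernel
def p14_12_0_15 : pfC (piC [(nat_lit 40173837), (nat_lit 25770221), (nat_lit 19310217), (nat_lit 12946273)] (nat_lit 24191191)) p14_12_0 (nat_lit 4) (nat_lit 15) (nat_lit 16) = true := by decide +kernel
def p14_12_0_16 : pfC (piC [(nat_lit 40173837), (nat_lit 25770221), (nat_lit 19310217), (nat_lit 12946273)] (nat_lit 24191191)) p14_12_0 (nat_lit 4) (nat_lit 16) (nat_lit 17) = true := by decide +kernel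
def p14_12_0_17 : pfC (piC [(nat_lit 40173837), (nat_lit 25770221), (nat_lit 19310217), (nat_lit 12946273)] (nat_lit 24191191)) p14_12_0 (nat_lit 4) (nat_lit 17) (nat_lit 18) = true := by decide +kernel
def p14_12_0_18 : pfC (piC [(nat_lit 40173837), (nat_lit 25770221), (nat_lit 19310217), (nat_lit 12946273)] (nat_lit 24191191)) p14_12_0 (nat_lit 4) (nat_lit 18) (nat_lit 19) = true := by decide +kernel
def p14_12_0_19 : pfC (piC [(nat_lit 40173837), (nat_lit 25770221), (nat_lit 19310217), (nat_lit 12946273)] (nat_lit 24191191)) p14_12_0 (nat_lit 4) (nat_lit 19) (nat_lit 20) = true := by decide +kernel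
def p14_12_0_20 : pfC (piC [(nat_lit 40173837), (nat_lit 25770221), (nat_lit 19310217), (nat_lit 12946273)] (nat_lit 24191191)) p14_12_0 (nat_lit 4) (nat_lit 20) (nat_lit 21) = true := by decide +kernel
def p14_12_0_21 : pfC (piC [(nat_lit 40173837), (nat_lit 25770221), (nat_lit 19310217), (nat_lit 12946273)] (nat_lit 24191191)) p14_12_0 (nat_lit 4) (nat_lit 21) (nat_lit 22) = true := by decide +kernel
def p14_12_0_22 : pfC (piC [(nat_lit 40173837), (nat_lit 25770221), (nat_lit 19310217), (nat_lit 12946273)] (nat_lit 24191191)) p14_12_0 (nat_lit 4) (nat_lit 22) (nat_lit 23) = true := by decide +kernel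
def p14_12_0_23 : pfC (piC [(nat_lit 40173837), (nat_lit 25770221), (nat_lit 19310217), (nat_lit 12946273)] (nat_lit 24191191)) p14_12_0 (nat_lit 4) (nat_lit 23) (nat_lit 24) = true := by decide +kernel
def p14_12_0_24 : pfC (piC [(nat_lit 40173837), (nat_lit 25770221), (nat_lit 19310217), (nat_lit 12946273)] (nat_lit 24191191)) p14_12_0 (nat_lit 4) (nat_lit 24) (nat_lit 25) = true := by decide +kernel
def p14_12_0_25 : pfC (piC [(nat_lit 40173837), (nat_lit 25770221), (nat_lit 19310217), (nat_lit 12946273)] (nat_lit 24191191)) p14_12_0 (nat_lit 4) (nat_lit 25) (nat_lit 26) = true := by decide +kernel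
def p14_12_0_26 : pfC (piC [(nat_lit 40173837), (nat_lit 25770221), (nat_lit 19310217), (nat_lit 12946273)] (nat_lit 24191191)) p14_12_0 (nat_lit 4) (nat_lit 26) (nat_lit 27) = true := by decide +kernel
def p14_12_0_27 : pfC (piC [(nat_lit 40173837), (nat_lit 25770221), (nat_lit 19310217), (nat_lit 12946273)] (nat_lit 24191191)) p14_12_0 (nat_lit 4) (nat_lit 27) (nat_lit 28) = true := by decide +kernel
def p14_12_0_28 : pfC (piC [(nat_lit 40173837), (nat_lit 25770221), (nat_lit 19310217), (nat_lit 12946273)] (nat_lit 24191191)) p14_12_0 (nat_lit 4) (nat_lit 28) (nat_lit 29) = true := by decide +kernel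
def p14_12_0_29 : pfC (piC [(nat_lit 40173837), (nat_lit 25770221), (nat_lit 19310217), (nat_lit 12946273)] (nat_lit 24191191)) p14_12_0 (nat_lit 4) (nat_lit 29) (nat_lit 30) = true := by decide +kernel
def p14_12_0_30 : pfC (piC [(nat_lit 40173837), (nat_lit 25770221), (nat_lit 19310217), (nat_lit 12946273)] (nat_lit 24191191)) p14_12_0 (nat_lit 4) (nat_lit 30) (nat_lit 31) = true := by decide +kernel
def p14_12_0_31 : pfC (piC [(nat_lit 40173837), (nat_lit 25770221), (nat_lit 19310217), (nat_lit 12946273)] (nat_lit 24191191)) p14_12_0 (nat_lit 4) (nat_lit 31) (nat_lit 32) = true := by decide +kernel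
def p14_12_0_32 : pfC (piC [(nat_lit 40173837), (nat_lit 25770221), (nat_lit 19310217), (nat_lit 12946273)] (nat_lit 24191191)) p14_12_0 (nat_lit 4) (nat_lit 32) (nat_lit 33) = true := by decide +kernel
def p14_12_0_33 : pfC (piC [(nat_lit 40173837), (nat_lit 25770221), (nat_lit 19310217), (nat_lit 12946273)] (nat_lit 24191191)) p14_12_0 (nat_lit 4) (nat_lit 33) (nat_lit 34) = true := by decide +kernel
def p14_12_0_34 : pfC (piC [(nat_lit 40173837), (nat_lit 25770221), (nat_lit 19310217), (nat_lit 12946273)] (nat_lit 24191191)) p14_12_0 (nat_lit 4) (nat_lit 34) (nat_lit 35) = true := by decide +kernel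
def p14_12_0_35 : pfC (piC [(nat_lit 40173837), (nat_lit 25770221), (nat_lit 19310217), (nat_lit 12946273)] (nat_lit 24191191)) p14_12_0 (nat_lit 4) (nat_lit 35) (nat_lit 36) = true := by decide +kernel
def p14_12_0_36 : pfC (piC [(nat_lit 40173837), (nat_lit 25770221), (nat_lit 19310217), (nat_lit 12946273)] (nat_lit 24191191)) p14_12_0 (nat_lit 4) (nat_lit 36) (nat_lit 37) = true := by decide +kernel
def p14_12_0_37 : pfC (piC [(nat_lit 40173837), (nat_lit 25770221), (nat_lit 19310217), (nat_lit 12946273)] (nat_lit 24191191)) p14_12_0 (nat_lit 4) (nat_lit 37) (nat_lit 38) = true := by decide +kernel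
def p14_12_0_38 : pfC (piC [(nat_lit 40173837), (nat_lit 25770221), (nat_lit 19310217), (nat_lit 12946273)] (nat_lit 24191191)) p14_12_0 (nat_lit 4) (nat_lit 38) (nat_lit 39) = true := by decide +kernel
def p14_12_0_39 : pfC (piC [(nat_lit 40173837), (nat_lit 25770221), (nat_lit 19310217), (nat_lit 12946273)] (nat_lit 24191191)) p14_12_0 (nat_lit 4) (nat_lit 39) (nat_lit 40) = true := by decide +kernel
def p14_12_0_40 : pfC (piC [(nat_lit 40173837), (nat_lit 25770221), (nat_lit 19310217), (nat_lit 12946273)] (nat_lit 24191191)) p14_12_0 (nat_lit 4) (nat_lit 40) (nat_lit 41) = true := by decide +kernel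
def p14_12_0_41 : pfC (piC [(nat_lit 40173837), (nat_lit 25770221), (nat_lit 19310217), (nat_lit 12946273)] (nat_lit 24191191)) p14_12_0 (nat_lit 4) (nat_lit 41) (nat_lit 42) = true := by decide +kernel
def p14_12_0_42 : pfC (piC [(nat_lit 40173837), (nat_lit 25770221), (nat_lit 19310217), (nat_lit 12946273)] (nat_lit 24191191)) p14_12_0 (nat_lit 4) (nat_lit 42) (nat_lit 43) = true := by decide +kernel
def p14_12_0_43 : pfC (piC [(nat_lit 40173837), (nat_lit 25770221), (nat_lit 19310217), (nat_lit 12946273)] (nat_lit 24191191)) p14_12_0 (nat_lit 4) (nat_lit 43) (nat_lit 44) = true := by decide +kernel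
def p14_12_0_44 : pfC (piC [(nat_lit 40173837), (nat_lit 25770221), (nat_lit 19310217), (nat_lit 12946273)] (nat_lit 24191191)) p14_12_0 (nat_lit 4) (nat_lit 44) (nat_lit 45) = true := by decide +kernel
def p14_12_0_45 : pfC (piC [(nat_lit 40173837), (nat_lit 25770221), (nat_lit 19310217), (nat_lit 12946273)] (nat_lit 24191191)) p14_12_0 (nat_lit 4) (nat_lit 45) (nat_lit 46) = true := by decide +kernel
def p14_12_0_46 : pfC (piC [(nat_lit 40173837), (nat_lit 25770221), (nat_lit 19310217), (nat_lit 12946273)] (nat_lit 24191191)) p14_12_0 (nat_lit 4) (nat_lit 46) (nat_lit 47) = true := by decide +kernel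
def p14_12_0_47 : pfC (piC [(nat_lit 40173837), (nat_lit 25770221), (nat_lit 19310217), (nat_lit 12946273)] (nat_lit 24191191)) p14_12_0 (nat_lit 4) (nat_lit 47) (nat_lit 48) = true := by decide +kernel
def p14_12_0_48 : pfC (piC [(nat_lit 40173837), (nat_lit 25770221), (nat_lit 19310217), (nat_lit 12946273)] (nat_lit 24191191)) p14_12_0 (nat_lit 4) (nat_lit 48) (nat_lit 49) = true := by decide +kernel
def p14_12_0_49 : pfC (piC [(nat_lit 40173837), (nat_lit 25770221), (nat_lit 19310217), (nat_lit 12946273)] (nat_lit 24191191)) p14_12_0 (nat_lit 4) (nat_lit 49) (nat_lit 50) = true := by decide +kernel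
def p14_12_0_50 : pfC (piC [(nat_lit 40173837), (nat_lit 25770221), (nat_lit 19310217), (nat_lit 12946273)] (nat_lit 24191191)) p14_12_0 (nat_lit 4) (nat_lit 50) (nat_lit 51) = true := by decide +kernel
def p14_12_0_51 : pfC (piC [(nat_lit 40173837), (nat_lit 25770221), (nat_lit 19310217), (nat_lit 12946273)] (nat_lit 24191191)) p14_12_0 (nat_lit 4) (nat_lit 51) (nat_lit 52) = true := by decide +kernel
def p14_12_0_52 : pfC (piC [(nat_lit 40173837), (nat_lit 25770221), (nat_lit 19310217), (nat_lit 12946273)] (nat_lit 24191191)) p14_12_0 (nat_lit 4) (nat_lit 52) (nat_lit 53) = true := by decide +kernel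
def p14_12_0_53 : pfC (piC [(nat_lit 40173837), (nat_lit 25770221), (nat_lit 19310217), (nat_lit 12946273)] (nat_lit 24191191)) p14_12_0 (nat_lit 4) (nat_lit 53) (nat_lit 54) = true := by decide +kernel
def p14_12_0_54 : pfC (piC [(nat_lit 40173837), (nat_lit 25770221), (nat_lit 19310217), (nat_lit 12946273)] (nat_lit 24191191)) p14_12_0 (nat_lit 4) (nat_lit 54) (nat_lit 55) = true := by decide +kernel
def p14_12_0_55 : pfC (piC [(nat_lit 40173837), (nat_lit 25770221), (nat_lit 19310217), (nat_lit 12946273)] (nat_lit 24191191)) p14_12_0 (nat_lit 4) (nat_lit 55) (nat_lit 56) = true := by decide +kernel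
def p14_12_0_56 : pfC (piC [(nat_lit 40173837), (nat_lit 25770221), (nat_lit 19310217), (nat_lit 12946273)] (nat_lit 24191191)) p14_12_0 (nat_lit 4) (nat_lit 56) (nat_lit 57) = true := by decide +kernel
def p14_12_0_57 : pfC (piC [(nat_lit 40173837), (nat_lit 25770221), (nat_lit 19310217), (nat_lit 12946273)] (nat_lit 24191191)) p14_12_0 (nat_lit 4) (nat_lit 57) (nat_lit 58) = true := by decide +kernel
def p14_12_0_58 : pfC (piC [(nat_lit 40173837), (nat_lit 25770221), (nat_lit 19310217), (nat_lit 12946273)] (nat_lit 24191191)) p14_12_0 (nat_lit 4) (nat_lit 58) (nat_lit 59) = true := by decide +kernel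
def p14_12_0_59 : pfC (piC [(nat_lit 40173837), (nat_lit 25770221), (nat_lit 19310217), (nat_lit 12946273)] (nat_lit 24191191)) p14_12_0 (nat_lit 4) (nat_lit 59) (nat_lit 60) = true := by decide +kernel
def p14_12_0_60 : pfC (piC [(nat_lit 40173837), (nat_lit 25770221), (nat_lit 19310217), (nat_lit 12946273)] (nat_lit 24191191)) p14_12_0 (nat_lit 4) (nat_lit 60) (nat_lit 61) = true := by decide +kernel
def p14_12_0_61 : pfC (piC [(nat_lit 40173837), (nat_lit 25770221), (nat_lit 19310217), (nat_lit 12946273)] (nat_lit 24191191)) p14_12_0 (nat_lit 4) (nat_lit 61) (nat_lit 62) = true := by decide +kernel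
def p14_12_0_62 : pfC (piC [(nat_lit 40173837), (nat_lit 25770221), (nat_lit 19310217), (nat_lit 12946273)] (nat_lit 24191191)) p14_12_0 (nat_lit 4) (nat_lit 62) (nat_lit 63) = true := by decide +kernel
def p14_12_0_63 : pfC (piC [(nat_lit 40173837), (nat_lit 25770221), (nat_lit 19310217), (nat_lit 12946273)] (nat_lit 24191191)) p14_12_0 (nat_lit 4) (nat_lit 63) (nat_lit 64) = true := by decide +kernel
def p14_12_0_64 : pfC (piC [(nat_lit 40173837), (nat_lit 25770221), (nat_lit 19310217), (nat_lit 12946273)] (nat_lit 24191191)) p14_12_0 (nat_lit 4) (nat_lit 64) (nat_lit 65) = true := by decide +kernel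
def p14_12_0_65 : pfC (piC [(nat_lit 40173837), (nat_lit 25770221), (nat_lit 19310217), (nat_lit 12946273)] (nat_lit 24191191)) p14_12_0 (nat_lit 4) (nat_lit 65) (nat_lit 66) = true := by decide +kernel
def p14_12_0_66 : pfC (piC [(nat_lit 40173837), (nat_lit 25770221), (nat_lit 19310217), (nat_lit 12946273)] (nat_lit 24191191)) p14_12_0 (nat_lit 4) (nat_lit 66) (nat_lit 67) = true := by decide +kernel
def p14_12_0_67 : pfC (piC [(nat_lit 40173837), (nat_lit 25770221), (nat_lit 19310217), (nat_lit 12946273)] (nat_lit 24191191)) p14_12_0 (nat_lit 4) (nat_lit 67) (nat_lit 68) = true := by decide +kernel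
def p14_12_0_68 : pfC (piC [(nat_lit 40173837), (nat_lit 25770221), (nat_lit 19310217), (nat_lit 12946273)] (nat_lit 24191191)) p14_12_0 (nat_lit 4) (nat_lit 68) (nat_lit 69) = true := by decide +kernel
def p14_12_0_69 : pfC (piC [(nat_lit 40173837), (nat_lit 25770221), (nat_lit 19310217), (nat_lit 12946273)] (nat_lit 24191191)) p14_12_0 (nat_lit 4) (nat_lit 69) (nat_lit 70) = true := by decide +kernel
def p14_12_0_70 : pfC (piC [(nat_lit 40173837), (nat_lit 25770221), (nat_lit 19310217), (nat_lit 12946273)] (nat_lit 24191191)) p14_12_0 (nat_lit 4) (nat_lit 70) (nat_lit 71) = true := by decide +kernel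
def p14_12_0_71 : pfC (piC [(nat_lit 40173837), (nat_lit 25770221), (nat_lit 19310217), (nat_lit 12946273)] (nat_lit 24191191)) p14_12_0 (nat_lit 4) (nat_lit 71) (nat_lit 72) = true := by decide +kernel
def p14_12_0_72 : pfC (piC [(nat_lit 40173837), (nat_lit 25770221), (nat_lit 19310217), (nat_lit 12946273)] (nat_lit 24191191)) p14_12_0 (nat_lit 4) (nat_lit 72) (nat_lit 73) = true := by decide +kernel
def p14_12_0_73 : pfC (piC [(nat_lit 40173837), (nat_lit 25770221), (nat_lit 19310217), (nat_lit 12946273)] (nat_lit 24191191)) p14_12_0 (nat_lit 4) (nat_lit 73) (nat_lit 74) = true := by decide +kernel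
def p14_12_0_74 : pfC (piC [(nat_lit 40173837), (nat_lit 25770221), (nat_lit 19310217), (nat_lit 12946273)] (nat_lit 24191191)) p14_12_0 (nat_lit 4) (nat_lit 74) (nat_lit 75) = true := by decide +kernel
def p14_12_0_75 : pfC (piC [(nat_lit 40173837), (nat_lit 25770221), (nat_lit 19310217), (nat_lit 12946273)] (nat_lit 24191191)) p14_12_0 (nat_lit 4) (nat_lit 75) (nat_lit 76) = true := by decide +kernel
def p14_12_0_76 : pfC (piC [(nat_lit 40173837), (nat_lit 25770221), (nat_lit 19310217), (nat_lit 12946273)] (nat_lit 24191191)) p14_12_0 (nat_lit 4) (nat_lit 76) (nat_lit 77) = true := by decide +kernel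
def p14_12_0_77 : pfC (piC [(nat_lit 40173837), (nat_lit 25770221), (nat_lit 19310217), (nat_lit 12946273)] (nat_lit 24191191)) p14_12_0 (nat_lit 4) (nat_lit 77) (nat_lit 78) = true := by decide +kernel
def p14_12_0_78 : pfC (piC [(nat_lit 40173837), (nat_lit 25770221), (nat_lit 19310217), (nat_lit 12946273)] (nat_lit 24191191)) p14_12_0 (nat_lit 4) (nat_lit 78) (nat_lit 79) = true := by decide +kernel
def p14_12_0_79 : pfC (piC [(nat_lit 40173837), (nat_lit 25770221), (nat_lit 19310217), (nat_lit 12946273)] (nat_lit 24191191)) p14_12_0 (nat_lit 4) (nat_lit 79) (nat_lit 80) = true := by decide +kernel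
def p14_12_0_80 : pfC (piC [(nat_lit 40173837), (nat_lit 25770221), (nat_lit 19310217), (nat_lit 12946273)] (nat_lit 24191191)) p14_12_0 (nat_lit 4) (nat_lit 80) (nat_lit 81) = true := by decide +kernel
def p14_12_0_81 : pfC (piC [(nat_lit 40173837), (nat_lit 25770221), (nat_lit 19310217), (nat_lit 12946273)] (nat_lit 24191191)) p14_12_0 (nat_lit 4) (nat_lit 81) (nat_lit 82) = true := by decide +kernel
def p14_12_0_82 : pfC (piC [(nat_lit 40173837), (nat_lit 25770221), (nat_lit 19310217), (nat_lit 12946273)] (nat_lit 24191191)) p14_12_0 (nat_lit 4) (nat_lit 82) (nat_lit 83) = true := by decide +kernel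
def p14_12_0_83 : pfC (piC [(nat_lit 40173837), (nat_lit 25770221), (nat_lit 19310217), (nat_lit 12946273)] (nat_lit 24191191)) p14_12_0 (nat_lit 4) (nat_lit 83) (nat_lit 84) = true := by decide +kernel
def p14_12_0_84 : pfC (piC [(nat_lit 40173837), (nat_lit 25770221), (nat_lit 19310217), (nat_lit 12946273)] (nat_lit 24191191)) p14_12_0 (nat_lit 4) (nat_lit 84) (nat_lit 85) = true := by decide +kernel
def p14_12_0_85 : pfC (piC [(nat_lit 40173837), (nat_lit 25770221), (nat_lit 19310217), (nat_lit 12946273)] (nat_lit 24191191)) p14_12_0 (nat_lit 4) (nat_lit 85) (nat_lit 86) = true := by decide +kernel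
def p14_12_0_86 : pfC (piC [(nat_lit 40173837), (nat_lit 25770221), (nat_lit 19310217), (nat_lit 12946273)] (nat_lit 24191191)) p14_12_0 (nat_lit 4) (nat_lit 86) (nat_lit 87) = true := by decide +kernel
def p14_12_0_87 : pfC (piC [(nat_lit 40173837), (nat_lit 25770221), (nat_lit 19310217), (nat_lit 12946273)] (nat_lit 24191191)) p14_12_0 (nat_lit 4) (nat_lit 87) (nat_lit 88) = true := by decide +kernel
def p14_12_0_88 : pfC (piC [(nat_lit 40173837), (nat_lit 25770221), (nat_lit 19310217), (nat_lit 12946273)] (nat_lit 24191191)) p14_12_0 (nat_lit 4) (nat_lit 88) (nat_lit 89) = true := by decide +kernel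
def p14_12_0_89 : pfC (piC [(nat_lit 40173837), (nat_lit 25770221), (nat_lit 19310217), (nat_lit 12946273)] (nat_lit 24191191)) p14_12_0 (nat_lit 4) (nat_lit 89) (nat_lit 90) = true := by decide +kernel
def p14_12_0_90 : pfC (piC [(nat_lit 40173837), (nat_lit 25770221), (nat_lit 19310217), (nat_lit 12946273)] (nat_lit 24191191)) p14_12_0 (nat_lit 4) (nat_lit 90) (nat_lit 91) = true := by decide +kernel
def p14_12_0_91 : pfC (piC [(nat_lit 40173837), (nat_lit 25770221), (nat_lit 19310217), (nat_lit 12946273)] (nat_lit 24191191)) p14_12_0 (nat_lit 4) (nat_lit 91) (nat_lit 92) = true := by decide +kernel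
def p14_12_0_92 : pfC (piC [(nat_lit 40173837), (nat_lit 25770221), (nat_lit 19310217), (nat_lit 12946273)] (nat_lit 24191191)) p14_12_0 (nat_lit 4) (nat_lit 92) (nat_lit 93) = true := by decide +kernel
def p14_12_0_93 : pfC (piC [(nat_lit 40173837), (nat_lit 25770221), (nat_lit 19310217), (nat_lit 12946273)] (nat_lit 24191191)) p14_12_0 (nat_lit 4) (nat_lit 93) (nat_lit 94) = true := by decide +kernel
def p14_12_0_94 : pfC (piC [(nat_lit 40173837), (nat_lit 25770221), (nat_lit 19310217), (nat_lit 12946273)] (nat_lit 24191191)) p14_12_0 (nat_lit 4) (nat_lit 94) (nat_lit 95) = true := by decide +kernel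
def p14_12_0_95 : pfC (piC [(nat_lit 40173837), (nat_lit 25770221), (nat_lit 19310217), (nat_lit 12946273)] (nat_lit 24191191)) p14_12_0 (nat_lit 4) (nat_lit 95) (nat_lit 96) = true := by decide +kernel
def p14_12_0_96 : pfC (piC [(nat_lit 40173837), (nat_lit 25770221), (nat_lit 19310217), (nat_lit 12946273)] (nat_lit 24191191)) p14_12_0 (nat_lit 4) (nat_lit 96) (nat_lit 97) = true := by decide +kernel
def p14_12_0_97 : pfC (piC [(nat_lit 40173837), (nat_lit 25770221), (nat_lit 19310217), (nat_lit 12946273)] (nat_lit 24191191)) p14_12_0 (nat_lit 4) (nat_lit 97) (nat_lit 98) = true := by decide +kernel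
def p14_12_0_98 : pfC (piC [(nat_lit 40173837), (nat_lit 25770221), (nat_lit 19310217), (nat_lit 12946273)] (nat_lit 24191191)) p14_12_0 (nat_lit 4) (nat_lit 98) (nat_lit 99) = true := by decide +kernel
def p14_12_0_99 : pfC (piC [(nat_lit 40173837), (nat_lit 25770221), (nat_lit 19310217), (nat_lit 12946273)] (nat_lit 24191191)) p14_12_0 (nat_lit 4) (nat_lit 99) (nat_lit 100) = true := by decide +kernel
def p14_12_0_100 : pfC (piC [(nat_lit 40173837), (nat_lit 25770221), (nat_lit 19310217), (nat_lit 12946273)] (nat_lit 24191191)) p14_12_0 (nat_lit 4) (nat_lit 100) (nat_lit 101) = true := by decide +kernel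
def p14_12_0_101 : pfC (piC [(nat_lit 40173837), (nat_lit 25770221), (nat_lit 19310217), (nat_lit 12946273)] (nat_lit 24191191)) p14_12_0 (nat_lit 4) (nat_lit 101) (nat_lit 102) = true := by decide +kernel
def p14_12_0_102 : pfC (piC [(nat_lit 40173837), (nat_lit 25770221), (nat_lit 19310217), (nat_lit 12946273)] (nat_lit 24191191)) p14_12_0 (nat_lit 4) (nat_lit 102) (nat_lit 103) = true := by decide +kernel
def p14_12_0_103 : pfC (piC [(nat_lit 40173837), (nat_lit 25770221), (nat_lit 19310217), (nat_lit 12946273)] (nat_lit 24191191)) p14_12_0 (nat_lit 4) (nat_lit 103) (nat_lit 104) = true := by decide +kernel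
def p14_12_0_104 : pfC (piC [(nat_lit 40173837), (nat_lit 25770221), (nat_lit 19310217), (nat_lit 12946273)] (nat_lit 24191191)) p14_12_0 (nat_lit 4) (nat_lit 104) (nat_lit 105) = true := by decide +kernel
def p14_12_0_105 : pfC (piC [(nat_lit 40173837), (nat_lit 25770221), (nat_lit 19310217), (nat_lit 12946273)] (nat_lit 24191191)) p14_12_0 (nat_lit 4) (nat_lit 105) (nat_lit 106) = true := by decide +kernel
def p14_12_0_106 : pfC (piC [(nat_lit 40173837), (nat_lit 25770221), (nat_lit 19310217), (nat_lit 12946273)] (nat_lit 24191191)) p14_12_0 (nat_lit 4) (nat_lit 106) (nat_lit 107) = true := by decide +kernel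
def p14_12_0_107 : pfC (piC [(nat_lit 40173837), (nat_lit 25770221), (nat_lit 19310217), (nat_lit 12946273)] (nat_lit 24191191)) p14_12_0 (nat_lit 4) (nat_lit 107) (nat_lit 108) = true := by decide +kernel
def p14_12_0_108 : pfC (piC [(nat_lit 40173837), (nat_lit 25770221), (nat_lit 19310217), (nat_lit 12946273)] (nat_lit 24191191)) p14_12_0 (nat_lit 4) (nat_lit 108) (nat_lit 109) = true := by decide +kernel
def p14_12_0_109 : pfC (piC [(nat_lit 40173837), (nat_lit 25770221), (nat_lit 19310217), (nat_lit 12946273)] (nat_lit 24191191)) p14_12_0 (nat_lit 4) (nat_lit 109) (nat_lit 110) = true := by decide +kernel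
def p14_12_0_110 : pfC (piC [(nat_lit 40173837), (nat_lit 25770221), (nat_lit 19310217), (nat_lit 12946273)] (nat_lit 24191191)) p14_12_0 (nat_lit 4) (nat_lit 110) (nat_lit 111) = true := by decide +kernel
def p14_12_0_111 : pfC (piC [(nat_lit 40173837), (nat_lit 25770221), (nat_lit 19310217), (nat_lit 12946273)] (nat_lit 24191191)) p14_12_0 (nat_lit 4) (nat_lit 111) (nat_lit 112) = true := by decide +kernel
def p14_12_0_112 : pfC (piC [(nat_lit 40173837), (nat_lit 25770221), (nat_lit 19310217), (nat_lit 12946273)] (nat_lit 24191191)) p14_12_0 (nat_lit 4) (nat_lit 112) (nat_lit 113) = true := by decide +kernel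
def p14_12_0_113 : pfC (piC [(nat_lit 40173837), (nat_lit 25770221), (nat_lit 19310217), (nat_lit 12946273)] (nat_lit 24191191)) p14_12_0 (nat_lit 4) (nat_lit 113) (nat_lit 114) = true := by decide +kernel
def p14_12_0_114 : pfC (piC [(nat_lit 40173837), (nat_lit 25770221), (nat_lit 19310217), (nat_lit 12946273)] (nat_lit 24191191)) p14_12_0 (nat_lit 4) (nat_lit 114) (nat_lit 115) = true := by decide +kernel
def p14_12_0_115 : pfC (piC [(nat_lit 40173837), (nat_lit 25770221), (nat_lit 19310217), (nat_lit 12946273)] (nat_lit 24191191)) p14_12_0 (nat_lit 4) (nat_lit 115) (nat_lit 116) = true := by decide +kernel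
def p14_12_0_116 : pfC (piC [(nat_lit 40173837), (nat_lit 25770221), (nat_lit 19310217), (nat_lit 12946273)] (nat_lit 24191191)) p14_12_0 (nat_lit 4) (nat_lit 116) (nat_lit 117) = true := by decide +kernel
def p14_12_0_117 : pfC (piC [(nat_lit 40173837), (nat_lit 25770221), (nat_lit 19310217), (nat_lit 12946273)] (nat_lit 24191191)) p14_12_0 (nat_lit 4) (nat_lit 117) (nat_lit 118) = true := by decide +kernel
def p14_12_0_118 : pfC (piC [(nat_lit 40173837), (nat_lit 25770221), (nat_lit 19310217), (nat_lit 12946273)] (nat_lit 24191191)) p14_12_0 (nat_lit 4) (nat_lit 118) (nat_lit 119) = true := by decide +kernel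
def p14_12_0_119 : pfC (piC [(nat_lit 40173837), (nat_lit 25770221), (nat_lit 19310217), (nat_lit 12946273)] (nat_lit 24191191)) p14_12_0 (nat_lit 4) (nat_lit 119) (nat_lit 120) = true := by decide +kernel
def p14_12_0_120 : pfC (piC [(nat_lit 40173837), (nat_lit 25770221), (nat_lit 19310217), (nat_lit 12946273)] (nat_lit 24191191)) p14_12_0 (nat_lit 4) (nat_lit 120) (nat_lit 121) = true := by decide +kernel
def p14_12_0_121 : pfC (piC [(nat_lit 40173837), (nat_lit 25770221), (nat_lit 19310217), (nat_lit 12946273)] (nat_lit 24191191)) p14_12_0 (nat_lit 4) (nat_lit 121) (nat_lit 122) = true := by decide +kernel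
def p14_12_0_122 : pfC (piC [(nat_lit 40173837), (nat_lit 25770221), (nat_lit 19310217), (nat_lit 12946273)] (nat_lit 24191191)) p14_12_0 (nat_lit 4) (nat_lit 122) (nat_lit 123) = true := by decide +kernel
def p14_12_0_123 : pfC (piC [(nat_lit 40173837), (nat_lit 25770221), (nat_lit 19310217), (nat_lit 12946273)] (nat_lit 24191191)) p14_12_0 (nat_lit 4) (nat_lit 123) (nat_lit 124) = true := by decide +kernel
def p14_12_0_124 : pfC (piC [(nat_lit 40173837), (nat_lit 25770221), (nat_lit 19310217), (nat_lit 12946273)] (nat_lit 24191191)) p14_12_0 (nat_lit 4) (nat_lit 124) (nat_lit 125) = true := by decide +kernel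
def p14_12_0_125 : pfC (piC [(nat_lit 40173837), (nat_lit 25770221), (nat_lit 19310217), (nat_lit 12946273)] (nat_lit 24191191)) p14_12_0 (nat_lit 4) (nat_lit 125) (nat_lit 126) = true := by decide +kernel
def p14_12_0_126 : pfC (piC [(nat_lit 40173837), (nat_lit 25770221), (nat_lit 19310217), (nat_lit 12946273)] (nat_lit 24191191)) p14_12_0 (nat_lit 4) (nat_lit 126) (nat_lit 127) = true := by decide +kernel
def p14_12_0_127 : pfC (piC [(nat_lit 40173837), (nat_lit 25770221), (nat_lit 19310217), (nat_lit 12946273)] (nat_lit 24191191)) p14_12_0 (nat_lit 4) (nat_lit 127) (nat_lit 128) = true := by decide +kernel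
def p14_12_0_128 : pfC (piC [(nat_lit 40173837), (nat_lit 25770221), (nat_lit 19310217), (nat_lit 12946273)] (nat_lit 24191191)) p14_12_0 (nat_lit 4) (nat_lit 128) (nat_lit 129) = true := by decide +kernel
def p14_12_0_129 : pfC (piC [(nat_lit 40173837), (nat_lit 25770221), (nat_lit 19310217), (nat_lit 12946273)] (nat_lit 24191191)) p14_12_0 (nat_lit 4) (nat_lit 129) (nat_lit 130) = true := by decide +kernel
def p14_12_0_130 : pfC (piC [(nat_lit 40173837), (nat_lit 25770221), (nat_lit 19310217), (nat_lit 12946273)] (nat_lit 24191191)) p14_12_0 (nat_lit 4) (nat_lit 130) (nat_lit 131) = true := by decide +kernel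
def p14_12_0_131 : pfC (piC [(nat_lit 40173837), (nat_lit 25770221), (nat_lit 19310217), (nat_lit 12946273)] (nat_lit 24191191)) p14_12_0 (nat_lit 4) (nat_lit 131) (nat_lit 132) = true := by decide +kernel
def p14_12_0_132 : pfC (piC [(nat_lit 40173837), (nat_lit 25770221), (nat_lit 19310217), (nat_lit 12946273)] (nat_lit 24191191)) p14_12_0 (nat_lit 4) (nat_lit 132) (nat_lit 133) = true := by decide +kernel
def p14_12_0_133 : pfC (piC [(nat_lit 40173837), (nat_lit 25770221), (nat_lit 19310217), (nat_lit 12946273)] (nat_lit 24191191)) p14_12_0 (nat_lit 4) (nat_lit 133) (nat_lit 134) = true := by decide +kernel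
def p14_12_0_134 : pfC (piC [(nat_lit 40173837), (nat_lit 25770221), (nat_lit 19310217), (nat_lit 12946273)] (nat_lit 24191191)) p14_12_0 (nat_lit 4) (nat_lit 134) (nat_lit 135) = true := by decide +kernel
def p14_12_0_135 : pfC (piC [(nat_lit 40173837), (nat_lit 25770221), (nat_lit 19310217), (nat_lit 12946273)] (nat_lit 24191191)) p14_12_0 (nat_lit 4) (nat_lit 135) (nat_lit 136) = true := by decide +kernel
def p14_12_0_136 : pfC (piC [(nat_lit 40173837), (nat_lit 25770221), (nat_lit 19310217), (nat_lit 12946273)] (nat_lit 24191191)) p14_12_0 (nat_lit 4) (nat_lit 136) (nat_lit 137) = true := by decide +kernel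
def p14_12_0_137 : pfC (piC [(nat_lit 40173837), (nat_lit 25770221), (nat_lit 19310217), (nat_lit 12946273)] (nat_lit 24191191)) p14_12_0 (nat_lit 4) (nat_lit 137) (nat_lit 138) = true := by decide +kernel
def p14_12_0_138 : pfC (piC [(nat_lit 40173837), (nat_lit 25770221), (nat_lit 19310217), (nat_lit 12946273)] (nat_lit 24191191)) p14_12_0 (nat_lit 4) (nat_lit 138) (nat_lit 139) = true := by decide +kernel
def p14_12_0_139 : pfC (piC [(nat_lit 40173837), (nat_lit 25770221), (nat_lit 19310217), (nat_lit 12946273)] (nat_lit 24191191)) p14_12_0 (nat_lit 4) (nat_lit 139) (nat_lit 140) = true := by decide +kernel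
def p14_12_0_140 : pfC (piC [(nat_lit 40173837), (nat_lit 25770221), (nat_lit 19310217), (nat_lit 12946273)] (nat_lit 24191191)) p14_12_0 (nat_lit 4) (nat_lit 140) (nat_lit 141) = true := by decide +kernel
def p14_12_0_141 : pfC (piC [(nat_lit 40173837), (nat_lit 25770221), (nat_lit 19310217), (nat_lit 12946273)] (nat_lit 24191191)) p14_12_0 (nat_lit 4) (nat_lit 141) (nat_lit 142) = true := by decide +kernel
def p14_12_0_142 : pfC (piC [(nat_lit 40173837), (nat_lit 25770221), (nat_lit 19310217), (nat_lit 12946273)] (nat_lit 24191191)) p14_12_0 (nat_lit 4) (nat_lit 142) (nat_lit 143) = true := by decide +kernel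
def p14_12_0_143 : pfC (piC [(nat_lit 40173837), (nat_lit 25770221), (nat_lit 19310217), (nat_lit 12946273)] (nat_lit 24191191)) p14_12_0 (nat_lit 4) (nat_lit 143) (nat_lit 144) = true := by decide +kernel
def p14_12_0_144 : pfC (piC [(nat_lit 40173837), (nat_lit 25770221), (nat_lit 19310217), (nat_lit 12946273)] (nat_lit 24191191)) p14_12_0 (nat_lit 4) (nat_lit 144) (nat_lit 145) = true := by decide +kernel
def p14_12_0_145 : pfC (piC [(nat_lit 40173837), (nat_lit 25770221), (nat_lit 19310217), (nat_lit 12946273)] (nat_lit 24191191)) p14_12_0 (nat_lit 4) (nat_lit 145) (nat_lit 146) = true := by decide +kernel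
def p14_12_0_146 : pfC (piC [(nat_lit 40173837), (nat_lit 25770221), (nat_lit 19310217), (nat_lit 12946273)] (nat_lit 24191191)) p14_12_0 (nat_lit 4) (nat_lit 146) (nat_lit 147) = true := by decide +kernel
def p14_12_0_147 : pfC (piC [(nat_lit 40173837), (nat_lit 25770221), (nat_lit 19310217), (nat_lit 12946273)] (nat_lit 24191191)) p14_12_0 (nat_lit 4) (nat_lit 147) (nat_lit 148) = true := by decide +kernel
def p14_12_0_148 : pfC (piC [(nat_lit 40173837), (nat_lit 25770221), (nat_lit 19310217), (nat_lit 12946273)] (nat_lit 24191191)) p14_12_0 (nat_lit 4) (nat_lit 148) (nat_lit 149) = true := by decide +kernel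
def p14_12_0_149 : pfC (piC [(nat_lit 40173837), (nat_lit 25770221), (nat_lit 19310217), (nat_lit 12946273)] (nat_lit 24191191)) p14_12_0 (nat_lit 4) (nat_lit 149) (nat_lit 150) = true := by decide +kernel
def p14_12_0_150 : pfC (piC [(nat_lit 40173837), (nat_lit 25770221), (nat_lit 19310217), (nat_lit 12946273)] (nat_lit 24191191)) p14_12_0 (nat_lit 4) (nat_lit 150) (nat_lit 151) = true := by decide +kernel
def p14_12_0_151 : pfC (piC [(nat_lit 40173837), (nat_lit 25770221), (nat_lit 19310217), (nat_lit 12946273)] (nat_lit 24191191)) p14_12_0 (nat_lit 4) (nat_lit 151) (nat_lit 152) = true := by decide +kernel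
def p14_12_0_152 : pfC (piC [(nat_lit 40173837), (nat_lit 25770221), (nat_lit 19310217), (nat_lit 12946273)] (nat_lit 24191191)) p14_12_0 (nat_lit 4) (nat_lit 152) (nat_lit 153) = true := by decide +kernel
def p14_12_0_153 : pfC (piC [(nat_lit 40173837), (nat_lit 25770221), (nat_lit 19310217), (nat_lit 12946273)] (nat_lit 24191191)) p14_12_0 (nat_lit 4) (nat_lit 153) (nat_lit 154) = true := by decide +kernel
def p14_12_0_154 : pfC (piC [(nat_lit 40173837), (nat_lit 25770221), (nat_lit 19310217), (nat_lit 12946273)] (nat_lit 24191191)) p14_12_0 (nat_lit 4) (nat_lit 154) (nat_lit 155) = true := by decide +kernel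
def p14_12_0_155 : pfC (piC [(nat_lit 40173837), (nat_lit 25770221), (nat_lit 19310217), (nat_lit 12946273)] (nat_lit 24191191)) p14_12_0 (nat_lit 4) (nat_lit 155) (nat_lit 156) = true := by decide +kernel
def p14_12_0_156 : pfC (piC [(nat_lit 40173837), (nat_lit 25770221), (nat_lit 19310217), (nat_lit 12946273)] (nat_lit 24191191)) p14_12_0 (nat_lit 4) (nat_lit 156) (nat_lit 157) = true := by decide +kernel
def p14_12_0_157 : pfC (piC [(nat_lit 40173837), (nat_lit 25770221), (nat_lit 19310217), (nat_lit 12946273)] (nat_lit 24191191)) p14_12_0 (nat_lit 4) (nat_lit 157) (nat_lit 158) = true := by decide +kernel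
def p14_12_0_158 : pfC (piC [(nat_lit 40173837), (nat_lit 25770221), (nat_lit 19310217), (nat_lit 12946273)] (nat_lit 24191191)) p14_12_0 (nat_lit 4) (nat_lit 158) (nat_lit 159) = true := by decide +kernel
def p14_12_0_159 : pfC (piC [(nat_lit 40173837), (nat_lit 25770221), (nat_lit 19310217), (nat_lit 12946273)] (nat_lit 24191191)) p14_12_0 (nat_lit 4) (nat_lit 159) (nat_lit 160) = true := by decide +kernel
def p14_12_0_160 : pfC (piC [(nat_lit 40173837), (nat_lit 25770221), (nat_lit 19310217), (nat_lit 12946273)] (nat_lit 24191191)) p14_12_0 (nat_lit 4) (nat_lit 160) (nat_lit 161) = true := by decide +kernel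
def p14_12_0_161 : pfC (piC [(nat_lit 40173837), (nat_lit 25770221), (nat_lit 19310217), (nat_lit 12946273)] (nat_lit 24191191)) p14_12_0 (nat_lit 4) (nat_lit 161) (nat_lit 162) = true := by decide +kernel
def p14_12_0_162 : pfC (piC [(nat_lit 40173837), (nat_lit 25770221), (nat_lit 19310217), (nat_lit 12946273)] (nat_lit 24191191)) p14_12_0 (nat_lit 4) (nat_lit 162) (nat_lit 163) = true := by decide +kernel
def p14_12_0_163 : pfC (piC [(nat_lit 40173837), (nat_lit 25770221), (nat_lit 19310217), (nat_lit 12946273)] (nat_lit 24191191)) p14_12_0 (nat_lit 4) (nat_lit 163) (nat_lit 164) = true := by decide +kernel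
def p14_12_0_164 : pfC (piC [(nat_lit 40173837), (nat_lit 25770221), (nat_lit 19310217), (nat_lit 12946273)] (nat_lit 24191191)) p14_12_0 (nat_lit 4) (nat_lit 164) (nat_lit 165) = true := by decide +kernel
def p14_12_0_165 : pfC (piC [(nat_lit 40173837), (nat_lit 25770221), (nat_lit 19310217), (nat_lit 12946273)] (nat_lit 24191191)) p14_12_0 (nat_lit 4) (nat_lit 165) (nat_lit 166) = true := by decide +kernel
def p14_12_0_166 : pfC (piC [(nat_lit 40173837), (nat_lit 25770221), (nat_lit 19310217), (nat_lit 12946273)] (nat_lit 24191191)) p14_12_0 (nat_lit 4) (nat_lit 166) (nat_lit 167) = true := by decide +kernel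
def p14_12_0_167 : pfC (piC [(nat_lit 40173837), (nat_lit 25770221), (nat_lit 19310217), (nat_lit 12946273)] (nat_lit 24191191)) p14_12_0 (nat_lit 4) (nat_lit 167) (nat_lit 168) = true := by decide +kernel
def p14_12_0_168 : pfC (piC [(nat_lit 40173837), (nat_lit 25770221), (nat_lit 19310217), (nat_lit 12946273)] (nat_lit 24191191)) p14_12_0 (nat_lit 4) (nat_lit 168) (nat_lit 169) = true := by decide +kernel
def p14_12_0_169 : pfC (piC [(nat_lit 40173837), (nat_lit 25770221), (nat_lit 19310217), (nat_lit 12946273)] (nat_lit 24191191)) p14_12_0 (nat_lit 4) (nat_lit 169) (nat_lit 170) = true := by decide +kernel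
def p14_12_0_170 : pfC (piC [(nat_lit 40173837), (nat_lit 25770221), (nat_lit 19310217), (nat_lit 12946273)] (nat_lit 24191191)) p14_12_0 (nat_lit 4) (nat_lit 170) (nat_lit 171) = true := by decide +kernel
def p14_12_0_171 : pfC (piC [(nat_lit 40173837), (nat_lit 25770221), (nat_lit 19310217), (nat_lit 12946273)] (nat_lit 24191191)) p14_12_0 (nat_lit 4) (nat_lit 171) (nat_lit 172) = true := by decide +kernel
def p14_12_0_172 : pfC (piC [(nat_lit 40173837), (nat_lit 25770221), (nat_lit 19310217), (nat_lit 12946273)] (nat_lit 24191191)) p14_12_0 (nat_lit 4) (nat_lit 172) (nat_lit 173) = true := by decide +kernel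
def p14_12_0_173 : pfC (piC [(nat_lit 40173837), (nat_lit 25770221), (nat_lit 19310217), (nat_lit 12946273)] (nat_lit 24191191)) p14_12_0 (nat_lit 4) (nat_lit 173) (nat_lit 174) = true := by decide +kernel
def p14_12_0_174 : pfC (piC [(nat_lit 40173837), (nat_lit 25770221), (nat_lit 19310217), (nat_lit 12946273)] (nat_lit 24191191)) p14_12_0 (nat_lit 4) (nat_lit 174) (nat_lit 175) = true := by decide +kernel
def p14_12_0_175 : pfC (piC [(nat_lit 40173837), (nat_lit 25770221), (nat_lit 19310217), (nat_lit 12946273)] (nat_lit 24191191)) p14_12_0 (nat_lit 4) (nat_lit 175) (nat_lit 176) = true := by decide +kernel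
def p14_12_0_176 : pfC (piC [(nat_lit 40173837), (nat_lit 25770221), (nat_lit 19310217), (nat_lit 12946273)] (nat_lit 24191191)) p14_12_0 (nat_lit 4) (nat_lit 176) (nat_lit 177) = true := by decide +kernel
def p14_12_0_177 : pfC (piC [(nat_lit 40173837), (nat_lit 25770221), (nat_lit 19310217), (nat_lit 12946273)] (nat_lit 24191191)) p14_12_0 (nat_lit 4) (nat_lit 177) (nat_lit 178) = true := by decide +kernel
def p14_12_0_178 : pfC (piC [(nat_lit 40173837), (nat_lit 25770221), (nat_lit 19310217), (nat_lit 12946273)] (nat_lit 24191191)) p14_12_0 (nat_lit 4) (nat_lit 178) (nat_lit 179) = true := by decide +kernel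
def p14_12_0_179 : pfC (piC [(nat_lit 40173837), (nat_lit 25770221), (nat_lit 19310217), (nat_lit 12946273)] (nat_lit 24191191)) p14_12_0 (nat_lit 4) (nat_lit 179) (nat_lit 180) = true := by decide +kernel
def p14_12_0_180 : pfC (piC [(nat_lit 40173837), (nat_lit 25770221), (nat_lit 19310217), (nat_lit 12946273)] (nat_lit 24191191)) p14_12_0 (nat_lit 4) (nat_lit 180) (nat_lit 181) = true := by decide +kernel
def p14_12_0_181 : pfC (piC [(nat_lit 40173837), (nat_lit 25770221), (nat_lit 19310217), (nat_lit 12946273)] (nat_lit 24191191)) p14_12_0 (nat_lit 4) (nat_lit 181) (nat_lit 182) = true := by decide +kernel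
def p14_12_0_182 : pfC (piC [(nat_lit 40173837), (nat_lit 25770221), (nat_lit 19310217), (nat_lit 12946273)] (nat_lit 24191191)) p14_12_0 (nat_lit 4) (nat_lit 182) (nat_lit 183) = true := by decide +kernel
def p14_12_0_183 : pfC (piC [(nat_lit 40173837), (nat_lit 25770221), (nat_lit 19310217), (nat_lit 12946273)] (nat_lit 24191191)) p14_12_0 (nat_lit 4) (nat_lit 183) (nat_lit 184) = true := by decide +kernel
def p14_12_0_184 : pfC (piC [(nat_lit 40173837), (nat_lit 25770221), (nat_lit 19310217), (nat_lit 12946273)] (nat_lit 24191191)) p14_12_0 (nat_lit 4) (nat_lit 184) (nat_lit 185) = true := by decide +kernel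
def p14_12_0_185 : pfC (piC [(nat_lit 40173837), (nat_lit 25770221), (nat_lit 19310217), (nat_lit 12946273)] (nat_lit 24191191)) p14_12_0 (nat_lit 4) (nat_lit 185) (nat_lit 186) = true := by decide +kernel
def p14_12_0_186 : pfC (piC [(nat_lit 40173837), (nat_lit 25770221), (nat_lit 19310217), (nat_lit 12946273)] (nat_lit 24191191)) p14_12_0 (nat_lit 4) (nat_lit 186) (nat_lit 187) = true := by decide +kernel
def p14_12_0_187 : pfC (piC [(nat_lit 40173837), (nat_lit 25770221), (nat_lit 19310217), (nat_lit 12946273)] (nat_lit 24191191)) p14_12_0 (nat_lit 4) (nat_lit 187) (nat_lit 188) = true := by decide +kernel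
def p14_12_0_188 : pfC (piC [(nat_lit 40173837), (nat_lit 25770221), (nat_lit 19310217), (nat_lit 12946273)] (nat_lit 24191191)) p14_12_0 (nat_lit 4) (nat_lit 188) (nat_lit 189) = true := by decide +kernel
def p14_12_0_189 : pfC (piC [(nat_lit 40173837), (nat_lit 25770221), (nat_lit 19310217), (nat_lit 12946273)] (nat_lit 24191191)) p14_12_0 (nat_lit 4) (nat_lit 189) (nat_lit 190) = true := by decide +kernel
def p14_12_0_190 : pfC (piC [(nat_lit 40173837), (nat_lit 25770221), (nat_lit 19310217), (nat_lit 12946273)] (nat_lit 24191191)) p14_12_0 (nat_lit 4) (nat_lit 190) (nat_lit 191) = true := by decide +kernel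
def p14_12_0_191 : pfC (piC [(nat_lit 40173837), (nat_lit 25770221), (nat_lit 19310217), (nat_lit 12946273)] (nat_lit 24191191)) p14_12_0 (nat_lit 4) (nat_lit 191) (nat_lit 192) = true := by decide +kernel
def p14_12_0_192 : pfC (piC [(nat_lit 40173837), (nat_lit 25770221), (nat_lit 19310217), (nat_lit 12946273)] (nat_lit 24191191)) p14_12_0 (nat_lit 4) (nat_lit 192) (nat_lit 193) = true := by decide +kernel
def p14_12_0_193 : pfC (piC [(nat_lit 40173837), (nat_lit 25770221), (nat_lit 19310217), (nat_lit 12946273)] (nat_lit 24191191)) p14_12_0 (nat_lit 4) (nat_lit 193) (nat_lit 194) = true := by decide +kernel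
def p14_12_0_194 : pfC (piC [(nat_lit 40173837), (nat_lit 25770221), (nat_lit 19310217), (nat_lit 12946273)] (nat_lit 24191191)) p14_12_0 (nat_lit 4) (nat_lit 194) (nat_lit 195) = true := by decide +kernel
def p14_12_0_195 : pfC (piC [(nat_lit 40173837), (nat_lit 25770221), (nat_lit 19310217), (nat_lit 12946273)] (nat_lit 24191191)) p14_12_0 (nat_lit 4) (nat_lit 195) (nat_lit 196) = true := by decide +kernel
def p14_12_0_196 : pfC (piC [(nat_lit 40173837), (nat_lit 25770221), (nat_lit 19310217), (nat_lit 12946273)] (nat_lit 24191191)) p14_12_0 (nat_lit 4) (nat_lit 196) (nat_lit 197) = true := by decide +kernel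
def p14_12_0_197 : pfC (piC [(nat_lit 40173837), (nat_lit 25770221), (nat_lit 19310217), (nat_lit 12946273)] (nat_lit 24191191)) p14_12_0 (nat_lit 4) (nat_lit 197) (nat_lit 198) = true := by decide +kernel
def p14_12_0_198 : pfC (piC [(nat_lit 40173837), (nat_lit 25770221), (nat_lit 19310217), (nat_lit 12946273)] (nat_lit 24191191)) p14_12_0 (nat_lit 4) (nat_lit 198) (nat_lit 199) = true := by decide +kernel
def p14_12_0_199 : pfC (piC [(nat_lit 40173837), (nat_lit 25770221), (nat_lit 19310217), (nat_lit 12946273)] (nat_lit 24191191)) p14_12_0 (nat_lit 4) (nat_lit 199) (nat_lit 200) = true := by decide +kernel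
def p14_12_0_200 : pfC (piC [(nat_lit 40173837), (nat_lit 25770221), (nat_lit 19310217), (nat_lit 12946273)] (nat_lit 24191191)) p14_12_0 (nat_lit 4) (nat_lit 200) (nat_lit 201) = true := by decide +kernel
def p14_12_0_201 : pfC (piC [(nat_lit 40173837), (nat_lit 25770221), (nat_lit 19310217), (nat_lit 12946273)] (nat_lit 24191191)) p14_12_0 (nat_lit 4) (nat_lit 201) (nat_lit 202) = true := by decide +kernel
def p14_12_0_202 : pfC (piC [(nat_lit 40173837), (nat_lit 25770221), (nat_lit 19310217), (nat_lit 12946273)] (nat_lit 24191191)) p14_12_0 (nat_lit 4) (nat_lit 202) (nat_lit 203) = true := by decide +kernel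
def p14_12_0_203 : pfC (piC [(nat_lit 40173837), (nat_lit 25770221), (nat_lit 19310217), (nat_lit 12946273)] (nat_lit 24191191)) p14_12_0 (nat_lit 4) (nat_lit 203) (nat_lit 204) = true := by decide +kernel
def p14_12_0_204 : pfC (piC [(nat_lit 40173837), (nat_lit 25770221), (nat_lit 19310217), (nat_lit 12946273)] (nat_lit 24191191)) p14_12_0 (nat_lit 4) (nat_lit 204) (nat_lit 205) = true := by decide +kernel
def p14_12_0_205 : pfC (piC [(nat_lit 40173837), (nat_lit 25770221), (nat_lit 19310217), (nat_lit 12946273)] (nat_lit 24191191)) p14_12_0 (nat_lit 4) (nat_lit 205) (nat_lit 206) = true := by decide +kernel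
def p14_12_0_206 : pfC (piC [(nat_lit 40173837), (nat_lit 25770221), (nat_lit 19310217), (nat_lit 12946273)] (nat_lit 24191191)) p14_12_0 (nat_lit 4) (nat_lit 206) (nat_lit 207) = true := by decide +kernel
def p14_12_0_207 : pfC (piC [(nat_lit 40173837), (nat_lit 25770221), (nat_lit 19310217), (nat_lit 12946273)] (nat_lit 24191191)) p14_12_0 (nat_lit 4) (nat_lit 207) (nat_lit 208) = true := by decide +kernel
def p14_12_0_208 : pfC (piC [(nat_lit 40173837), (nat_lit 25770221), (nat_lit 19310217), (nat_lit 12946273)] (nat_lit 24191191)) p14_12_0 (nat_lit 4) (nat_lit 208) (nat_lit 209) = true := by decide +kernel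
def p14_12_0_209 : pfC (piC [(nat_lit 40173837), (nat_lit 25770221), (nat_lit 19310217), (nat_lit 12946273)] (nat_lit 24191191)) p14_12_0 (nat_lit 4) (nat_lit 209) (nat_lit 210) = true := by decide +kernel
def p14_12_0_210 : pfC (piC [(nat_lit 40173837), (nat_lit 25770221), (nat_lit 19310217), (nat_lit 12946273)] (nat_lit 24191191)) p14_12_0 (nat_lit 4) (nat_lit 210) (nat_lit 211) = true := by decide +kernel
def p14_12_0_211 : pfC (piC [(nat_lit 40173837), (nat_lit 25770221), (nat_lit 19310217), (nat_lit 12946273)] (nat_lit 24191191)) p14_12_0 (nat_lit 4) (nat_lit 211) (nat_lit 212) = true := by decide +kernel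
def p14_12_0_212 : pfC (piC [(nat_lit 40173837), (nat_lit 25770221), (nat_lit 19310217), (nat_lit 12946273)] (nat_lit 24191191)) p14_12_0 (nat_lit 4) (nat_lit 212) (nat_lit 213) = true := by decide +kernel
def p14_12_0_213 : pfC (piC [(nat_lit 40173837), (nat_lit 25770221), (nat_lit 19310217), (nat_lit 12946273)] (nat_lit 24191191)) p14_12_0 (nat_lit 4) (nat_lit 213) (nat_lit 214) = true := by decide +kernel
def p14_12_0_214 : pfC (piC [(nat_lit 40173837), (nat_lit 25770221), (nat_lit 19310217), (nat_lit 12946273)] (nat_lit 24191191)) p14_12_0 (nat_lit 4) (nat_lit 214) (nat_lit 215) = true := by decide +kernel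
def p14_12_0_215 : pfC (piC [(nat_lit 40173837), (nat_lit 25770221), (nat_lit 19310217), (nat_lit 12946273)] (nat_lit 24191191)) p14_12_0 (nat_lit 4) (nat_lit 215) (nat_lit 216) = true := by decide +kernel
def p14_12_0_216 : pfC (piC [(nat_lit 40173837), (nat_lit 25770221), (nat_lit 19310217), (nat_lit 12946273)] (nat_lit 24191191)) p14_12_0 (nat_lit 4) (nat_lit 216) (nat_lit 217) = true := by decide +kernel
def p14_12_0_217 : pfC (piC [(nat_lit 40173837), (nat_lit 25770221), (nat_lit 19310217), (nat_lit 12946273)] (nat_lit 24191191)) p14_12_0 (nat_lit 4) (nat_lit 217) (nat_lit 218) = true := by decide +kernel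
def p14_12_0_218 : pfC (piC [(nat_lit 40173837), (nat_lit 25770221), (nat_lit 19310217), (nat_lit 12946273)] (nat_lit 24191191)) p14_12_0 (nat_lit 4) (nat_lit 218) (nat_lit 219) = true := by decide +kernel
def p14_12_0_219 : pfC (piC [(nat_lit 40173837), (nat_lit 25770221), (nat_lit 19310217), (nat_lit 12946273)] (nat_lit 24191191)) p14_12_0 (nat_lit 4) (nat_lit 219) (nat_lit 220) = true := by decide +kernel
def p14_12_0_220 : pfC (piC [(nat_lit 40173837), (nat_lit 25770221), (nat_lit 19310217), (nat_lit 12946273)] (nat_lit 24191191)) p14_12_0 (nat_lit 4) (nat_lit 220) (nat_lit 221) = true := by decide +kernel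
def p14_12_0_221 : pfC (piC [(nat_lit 40173837), (nat_lit 25770221), (nat_lit 19310217), (nat_lit 12946273)] (nat_lit 24191191)) p14_12_0 (nat_lit 4) (nat_lit 221) (nat_lit 222) = true := by decide +kernel
def p14_12_0_222 : pfC (piC [(nat_lit 40173837), (nat_lit 25770221), (nat_lit 19310217), (nat_lit 12946273)] (nat_lit 24191191)) p14_12_0 (nat_lit 4) (nat_lit 222) (nat_lit 223) = true := by decide +kernel
def p14_12_0_223 : pfC (piC [(nat_lit 40173837), (nat_lit 25770221), (nat_lit 19310217), (nat_lit 12946273)] (nat_lit 24191191)) p14_12_0 (nat_lit 4) (nat_lit 223) (nat_lit 224) = true := by decide +kernel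
def p14_12_0_224 : pfC (piC [(nat_lit 40173837), (nat_lit 25770221), (nat_lit 19310217), (nat_lit 12946273)] (nat_lit 24191191)) p14_12_0 (nat_lit 4) (nat_lit 224) (nat_lit 225) = true := by decide +kernel
def p14_12_0_225 : pfC (piC [(nat_lit 40173837), (nat_lit 25770221), (nat_lit 19310217), (nat_lit 12946273)] (nat_lit 24191191)) p14_12_0 (nat_lit 4) (nat_lit 225) (nat_lit 226) = true := by decide +kernel
def p14_12_0_226 : pfC (piC [(nat_lit 40173837), (nat_lit 25770221), (nat_lit 19310217), (nat_lit 12946273)] (nat_lit 24191191)) p14_12_0 (nat_lit 4) (nat_lit 226) (nat_lit 227) = true := by decide +kernel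
def p14_12_0_227 : pfC (piC [(nat_lit 40173837), (nat_lit 25770221), (nat_lit 19310217), (nat_lit 12946273)] (nat_lit 24191191)) p14_12_0 (nat_lit 4) (nat_lit 227) (nat_lit 228) = true := by decide +kernel
def p14_12_0_228 : pfC (piC [(nat_lit 40173837), (nat_lit 25770221), (nat_lit 19310217), (nat_lit 12946273)] (nat_lit 24191191)) p14_12_0 (nat_lit 4) (nat_lit 228) (nat_lit 229) = true := by decide +kernel
def p14_12_0_229 : pfC (piC [(nat_lit 40173837), (nat_lit 25770221), (nat_lit 19310217), (nat_lit 12946273)] (nat_lit 24191191)) p14_12_0 (nat_lit 4) (nat_lit 229) (nat_lit 230) = true := by decide +kernel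
def p14_12_0_230 : pfC (piC [(nat_lit 40173837), (nat_lit 25770221), (nat_lit 19310217), (nat_lit 12946273)] (nat_lit 24191191)) p14_12_0 (nat_lit 4) (nat_lit 230) (nat_lit 231) = true := by decide +kernel
theorem p14_12_0_T : PfS (PiF n14_12.reverse (nat_lit 24191191)) p14_12_0 (nat_lit 4) [] 0 :=
  pftab_of (los := [(nat_lit 40173837), (nat_lit 25770221), (nat_lit 19310217), (nat_lit 12946273)]) (by decide +kernel) (hi := (nat_lit 231)) (PfP.trans (PfP.trans (PfP.trans (PfP.trans (PfP.trans (PfP.trans (PfP.trans (PfP.trans (PfP.trans (PfP.trans (PfP.trans (PfP.trans (PfP.trans (PfP.trans (PfP.trans (PfP.trans (PfP.trans (PfP.trans (PfP.trans (PfP.trans (PfP.trans (PfP.trans (PfP.trans (PfP.trans (PfP.trans (PfP.trans (PfP.trans (PfP.trans (PfP.trans (PfP.trans (PfP.trans (PfP.trans (PfP.trans (PfP.trans (PfP.trans (PfP.trans (PfP.trans (PfP.trans (PfP.trans (PfP.trans (PfP.trans (PfP.trans (PfP.trans (PfP.trans (PfP.trans (PfP.trans (PfP.trans (PfP.trans (PfP.trans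 (PfP.trans (PfP.trans (PfP.trans (PfP.trans (PfP.trans (PfP.trans (PfP.trans (PfP.trans (PfP.trans (PfP.trans (PfP.trans (PfP.trans (PfP.trans (PfP.trans (PfP.trans (PfP.trans (PfP.trans (PfP.trans (PfP.trans (PfP.trans (PfP.trans (PfP.trans (PfP.trans (PfP.trans (PfP.trans (PfP.trans (PfP.trans (PfP.trans (PfP.trans (PfP.trans (PfP.trans (PfP.trans (PfP.trans (PfP.trans (PfP.trans (PfP.trans (PfP.trans (PfP.trans (PfP.trans (PfP.trans (PfP.trans (PfP.trans (PfP.trans (PfP.trans (PfP.trans (PfP.trans (PfP.trans (PfP.trans (PfP.trans (PfP.trans (PfP.trans (PfP.trans (PfP.trans (PfP.trans (PfP.trans (PfP.trans (PfP.trans (PfP.trans (PfP.trans (PfP.trans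
 (PfP.trans (PfP.trans (PfP.trans (PfP.trans (PfP.trans (PfP.trans (PfP.trans (PfP.trans (PfP.trans (PfP.trans (PfP.trans (PfP.trans (PfP.trans (PfP.trans (PfP.trans (PfP.trans (PfP.trans (PfP.trans (PfP.trans (PfP.trans (PfP.trans (PfP.trans (PfP.trans (PfP.trans (PfP.trans (PfP.trans (PfP.trans (PfP.trans (PfP.trans (PfP.trans (PfP.trans (PfP.trans (PfP.trans (PfP.trans (PfP.trans (PfP.trans (PfP.trans (PfP.trans (PfP.trans (PfP.trans (PfP.trans (PfP.trans (PfP.trans (PfP.trans (PfP.trans (PfP.trans (PfP.trans (PfP.trans (PfP.trans (PfP.trans (PfP.trans (PfP.trans (PfP.trans (PfP.trans (PfP.trans (PfP.trans (PfP.trans (PfP.trans (PfP.trans (PfP.trans (PfP.trans (PfP.trans (PfP.trans (PfP.trans (PfP.trans (PfP.trans (PfP.trans (PfP.trans (PfP.trans (PfP.trans (PfP.trans (PfP.trans (PfP.trans (PfP.trans (PfP.trans (PfP.trans (PfP.trans (PfP.trans (PfP.trans (PfP.trans (PfP.trans (PfP.trans (PfP.trans (PfP.trans (PfP.trans (PfP.trans (PfP.trans (PfP.trans (PfP.trans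 (PfP.trans (PfP.trans (PfP.trans (PfP.trans (PfP.trans (PfP.trans (PfP.trans (PfP.trans (PfP.trans (PfP.trans (PfP.trans (PfP.trans (PfP.trans (PfP.trans (PfP.trans (PfP.trans (PfP.trans (PfP.trans (PfP.trans (PfP.trans
 (PfP.trans (PfP.trans (PfP.trans (PfP.trans (PfP.trans (PfP.trans (PfP.trans (PfP.trans (PfP.trans (PfP.trans (PfP.trans (PfP.trans (pfC_sound p14_12_0_0) (pfC_sound p14_12_0_1)) (pfC_sound p14_12_0_2)) (pfC_sound p14_12_0_3)) (pfC_sound p14_12_0_4)) (pfC_sound p14_12_0_5)) (pfC_sound p14_12_0_6)) (pfC_sound p14_12_0_7)) (pfC_sound p14_12_0_8)) (pfC_sound p14_12_0_9)) (pfC_sound p14_12_0_10)) (pfC_sound p14_12_0_11)) (pfC_sound p14_12_0_12)) (pfC_sound p14_12_0_13)) (pfC_sound p14_12_0_14)) (pfC_sound p14_12_0_15)) (pfC_sound p14_12_0_16)) (pfC_sound p14_12_0_17)) (pfC_sound p14_12_0_18)) (pfC_sound p14_12_0_19)) (pfC_sound p14_12_0_20)) (pfC_sound p14_12_0_21)) (pfC_sound p14_12_0_22)) (pfC_sound p14_12_0_23)) (pfC_sound p14_12_0_24)) (pfC_sound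 p14_12_0_25)) (pfC_sound p14_12_0_26)) (pfC_sound p14_12_0_27)) (pfC_sound p14_12_0_28)) (pfC_sound p14_12_0_29)) (pfC_sound p14_12_0_30)) (pfC_sound p14_12_0_31)) (pfC_sound p14_12_0_32)) (pfC_sound p14_12_0_33)) (pfC_sound p14_12_0_34)) (pfC_sound p14_12_0_35)) (pfC_sound p14_12_0_36)) (pfC_sound p14_12_0_37)) (pfC_sound p14_12_0_38)) (pfC_sound p14_12_0_39)) (pfC_sound p14_12_0_40)) (pfC_sound p14_12_0_41)) (pfC_sound p14_12_0_42))
 (pfC_sound p14_12_0_43)) (pfC_sound p14_12_0_44)) (pfC_sound p14_12_0_45)) (pfC_sound p14_12_0_46)) (pfC_sound p14_12_0_47)) (pfC_sound p14_12_0_48)) (pfC_sound p14_12_0_49)) (pfC_sound p14_12_0_50)) (pfC_sound p14_12_0_51)) (pfC_sound p14_12_0_52)) (pfC_sound p14_12_0_53)) (pfC_sound p14_12_0_54)) (pfC_sound p14_12_0_55)) (pfC_sound p14_12_0_56)) (pfC_sound p14_12_0_57)) (pfC_sound p14_12_0_58)) (pfC_sound p14_12_0_59)) (pfC_sound p14_12_0_60)) (pfC_sound p14_12_0_61)) (pfC_sound p14_12_0_62)) (pfC_sound p14_12_0_63)) (pfC_sound p14_12_0_64))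 (pfC_sound p14_12_0_65)) (pfC_sound p14_12_0_66)) (pfC_sound p14_12_0_67)) (pfC_sound p14_12_0_68)) (pfC_sound p14_12_0_69)) (pfC_sound p14_12_0_70)) (pfC_sound p14_12_0_71)) (pfC_sound p14_12_0_72)) (pfC_sound p14_12_0_73)) (pfC_sound p14_12_0_74)) (pfC_sound p14_12_0_75)) (pfC_sound p14_12_0_76)) (pfC_sound p14_12_0_77)) (pfC_sound p14_12_0_78)) (pfC_sound p14_12_0_79)) (pfC_sound p14_12_0_80)) (pfC_sound p14_12_0_81)) (pfC_sound p14_12_0_82)) (pfC_sound p14_12_0_83)) (pfC_sound p14_12_0_84)) (pfC_sound p14_12_0_85)) (pfC_sound p14_12_0_86)) (pfC_sound p14_12_0_87)) (pfC_sound p14_12_0_88)) (pfC_sound p14_12_0_89)) (pfC_sound p14_12_0_90))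
 (pfC_sound p14_12_0_91)) (pfC_sound p14_12_0_92)) (pfC_sound p14_12_0_93)) (pfC_sound p14_12_0_94)) (pfC_sound p14_12_0_95)) (pfC_sound p14_12_0_96)) (pfC_sound p14_12_0_97)) (pfC_sound p14_12_0_98)) (pfC_sound p14_12_0_99)) (pfC_sound p14_12_0_100)) (pfC_sound p14_12_0_101)) (pfC_sound p14_12_0_102)) (pfC_sound p14_12_0_103)) (pfC_sound p14_12_0_104)) (pfC_sound p14_12_0_105)) (pfC_sound p14_12_0_106)) (pfC_sound p14_12_0_107)) (pfC_sound p14_12_0_108)) (pfC_sound p14_12_0_109)) (pfC_sound p14_12_0_110)) (pfC_sound p14_12_0_111)) (pfC_sound p14_12_0_112)) (pfC_sound p14_12_0_113)) (pfC_sound p14_12_0_114)) (pfC_sound p14_12_0_115)) (pfC_sound p14_12_0_116)) (pfC_sound p14_12_0_117)) (pfC_sound p14_12_0_118)) (pfC_sound p14_12_0_119)) (pfC_sound p14_12_0_120)) (pfC_sound p14_12_0_121)) (pfC_sound p14_12_0_122)) (pfC_sound p14_12_0_123)) (pfC_sound p14_12_0_124)) (pfC_sound p14_12_0_125)) (pfC_sound p14_12_0_126)) (pfC_sound p14_12_0_127)) (pfC_sound p14_12_0_128))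 (pfC_sound p14_12_0_129)) (pfC_sound p14_12_0_130)) (pfC_sound p14_12_0_131)) (pfC_sound p14_12_0_132)) (pfC_sound p14_12_0_133)) (pfC_sound p14_12_0_134)) (pfC_sound p14_12_0_135)) (pfC_sound p14_12_0_136)) (pfC_sound
 p14_12_0_137)) (pfC_sound p14_12_0_138)) (pfC_sound p14_12_0_139)) (pfC_sound p14_12_0_140)) (pfC_sound p14_12_0_141)) (pfC_sound p14_12_0_142)) (pfC_sound p14_12_0_143)) (pfC_sound p14_12_0_144)) (pfC_sound p14_12_0_145)) (pfC_sound p14_12_0_146)) (pfC_sound p14_12_0_147)) (pfC_sound p14_12_0_148)) (pfC_sound p14_12_0_149)) (pfC_sound p14_12_0_150)) (pfC_sound p14_12_0_151)) (pfC_sound p14_12_0_152)) (pfC_sound p14_12_0_153)) (pfC_sound p14_12_0_154)) (pfC_sound p14_12_0_155)) (pfC_sound p14_12_0_156)) (pfC_sound p14_12_0_157)) (pfC_sound p14_12_0_158)) (pfC_sound p14_12_0_159)) (pfC_sound p14_12_0_160)) (pfC_sound p14_12_0_161)) (pfC_sound p14_12_0_162)) (pfC_sound p14_12_0_163)) (pfC_sound p14_12_0_164)) (pfC_sound p14_12_0_165)) (pfC_sound p14_12_0_166))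 (pfC_sound p14_12_0_167)) (pfC_sound p14_12_0_168)) (pfC_sound p14_12_0_169)) (pfC_sound p14_12_0_170)) (pfC_sound p14_12_0_171)) (pfC_sound p14_12_0_172)) (pfC_sound p14_12_0_173)) (pfC_sound p14_12_0_174)) (pfC_sound p14_12_0_175)) (pfC_sound p14_12_0_176)) (pfC_sound p14_12_0_177)) (pfC_sound p14_12_0_178)) (pfC_sound p14_12_0_179)) (pfC_sound p14_12_0_180)) (pfC_sound p14_12_0_181)) (pfC_sound p14_12_0_182)) (pfC_sound
 p14_12_0_183)) (pfC_sound p14_12_0_184)) (pfC_sound p14_12_0_185)) (pfC_sound p14_12_0_186)) (pfC_sound p14_12_0_187)) (pfC_sound p14_12_0_188)) (pfC_sound p14_12_0_189)) (pfC_sound p14_12_0_190)) (pfC_sound p14_12_0_191)) (pfC_sound p14_12_0_192)) (pfC_sound p14_12_0_193)) (pfC_sound p14_12_0_194)) (pfC_sound p14_12_0_195)) (pfC_sound p14_12_0_196)) (pfC_sound p14_12_0_197)) (pfC_sound p14_12_0_198)) (pfC_sound p14_12_0_199)) (pfC_sound p14_12_0_200)) (pfC_sound p14_12_0_201)) (pfC_sound p14_12_0_202)) (pfC_sound p14_12_0_203)) (pfC_sound p14_12_0_204))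 (pfC_sound p14_12_0_205)) (pfC_sound p14_12_0_206)) (pfC_sound p14_12_0_207)) (pfC_sound p14_12_0_208)) (pfC_sound p14_12_0_209)) (pfC_sound p14_12_0_210)) (pfC_sound p14_12_0_211)) (pfC_sound p14_12_0_212)) (pfC_sound p14_12_0_213)) (pfC_sound p14_12_0_214)) (pfC_sound p14_12_0_215)) (pfC_sound p14_12_0_216)) (pfC_sound p14_12_0_217)) (pfC_sound p14_12_0_218)) (pfC_sound p14_12_0_219)) (pfC_sound p14_12_0_220)) (pfC_sound p14_12_0_221)) (pfC_sound p14_12_0_222)) (pfC_sound p14_12_0_223)) (pfC_sound p14_12_0_224)) (pfC_sound p14_12_0_225)) (pfC_sound p14_12_0_226)) (pfC_sound p14_12_0_227)) (pfC_sound p14_12_0_228)) (pfC_sound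
 p14_12_0_229)) (pfC_sound p14_12_0_230)) (by decide +kernel)

def z14_12_0 : zOK yB14_12 (nat_lit 0) (nat_lit 0) (nat_lit 400) (nat_lit 24191191) (nat_lit 10469692) = true := by decide +kernel
def g14_12_0 : gOK yB14_12.x P14_12 (nat_lit 1425) (q14_12 :: r14_12) (nat_lit 0) (nat_lit 0) (nat_lit 1) (nat_lit 400) (nat_lit 0) (nat_lit 11000000) (nat_lit 12712500) (nat_lit 12712500) [(nat_lit 800), (nat_lit 1400), (nat_lit 1530)] = true := by decide +kernel
def v14_12_0 : ivC P14_12 s14_12 w14_12 n14_12 (nat_lit 4) (nat_lit 5420) (nat_lit 0) (nat_lit 0) f152_1_0 f160_1_0 (nat_lit 1) (nat_lit 400) f152_1_400 f160_1_400 (nat_lit 24191191) (nat_lit 10469692) p14_12_0 = true := by decide +kernel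
def p14_12_1 : PF := (PF.cons (PF.cons (PF.cons (PF.cons (PF.leaf (nat_lit 2111859) (nat_lit 10053296) (nat_lit 57055516) (nat_lit 10053296) [(nat_lit 0), (nat_lit 0), (nat_lit 0), (nat_lit 0)]) (PF.cons (PF.leaf (nat_lit 2262465) (nat_lit 253210) (nat_lit 56782265) (nat_lit 10073336) [(nat_lit 253210), (nat_lit 0), (nat_lit 0), (nat_lit 0)]) (PF.cons (PF.leaf (nat_lit 2441746) (nat_lit 275766) (nat_lit 56462167) (nat_lit 10095112) [(nat_lit 275766), (nat_lit 0), (nat_lit 0), (nat_lit 0)]) (PF.cons (PF.leaf (nat_lit 2643484) (nat_lit 295922) (nat_lit 56103623) (nat_lit 10117422) [(nat_lit 295922), (nat_lit 0), (nat_lit 0), (nat_lit 0)]) (PF.cons (PF.leaf (nat_lit 2864609) (nat_lit 314221) (nat_lit 55712578) (nat_lit 10139348) [(nat_lit 314221), (nat_lit 0), (nat_lit 0), (nat_lit 0)]) (PF.cons (PF.leaf (nat_lit 3102847) (nat_lit 331005) (nat_lit 55293616) (nat_lit 10160167) [(nat_lit 331005), (nat_lit 0), (nat_lit 0), (nat_lit 0)]) (PF.cons (PF.leaf (nat_lit 3356299)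 (nat_lit 346505) (nat_lit 54850480) (nat_lit 10179299) [(nat_lit 346505), (nat_lit 0), (nat_lit 0), (nat_lit 0)]) (PF.cons (PF.leaf (nat_lit 3623346) (nat_lit 360885) (nat_lit 54386335) (nat_lit 10196277) [(nat_lit 360885), (nat_lit 0),
 (nat_lit 0), (nat_lit 0)]) (PF.cons PF.nil (PF.cons PF.nil PF.nil)))))))))) (PF.cons (PF.cons (PF.leaf (nat_lit 2652909) (nat_lit 1221809) (nat_lit 55756083) (nat_lit 10130919) [(nat_lit 0), (nat_lit 1221809), (nat_lit 0), (nat_lit 0)]) (PF.cons (PF.leaf (nat_lit 2850060) (nat_lit 307834) (nat_lit 55398618) (nat_lit 10149049) [(nat_lit 307834), (nat_lit 1253310), (nat_lit 0), (nat_lit 0)]) (PF.cons (PF.leaf (nat_lit 3068936) (nat_lit 325437) (nat_lit 55006849) (nat_lit 10166691) [(nat_lit 325437), (nat_lit 1284396), (nat_lit 0), (nat_lit 0)]) (PF.cons (PF.leaf (nat_lit 3305506) (nat_lit 341511) (nat_lit 54586592) (nat_lit 10183121) [(nat_lit 341511), (nat_lit 1314565), (nat_lit 0), (nat_lit 0)]) (PF.cons (PF.leaf (nat_lit 3557527)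 (nat_lit 356316) (nat_lit 54142224) (nat_lit 10197781) [(nat_lit 356316), (nat_lit 1343543), (nat_lit 0), (nat_lit 0)]) (PF.cons (PF.leaf (nat_lit 3823181) (nat_lit 370025) (nat_lit 53677257) (nat_lit 10210241) [(nat_lit 370025), (nat_lit 1371186), (nat_lit 0), (nat_lit 0)]) (PF.cons (PF.leaf (nat_lit 4100933) (nat_lit 382765) (nat_lit 53194635) (nat_lit 10220168) [(nat_lit 382765), (nat_lit 1397417), (nat_lit 0), (nat_lit 0)]) (PF.cons PF.nil (PF.cons
 PF.nil PF.nil))))))))) (PF.cons (PF.cons (PF.leaf (nat_lit 3277452) (nat_lit 1319211) (nat_lit 54283022) (nat_lit 10187366) [(nat_lit 0), (nat_lit 1319211), (nat_lit 0), (nat_lit 0)]) (PF.cons (PF.leaf (nat_lit 3509768) (nat_lit 350659) (nat_lit 53866176) (nat_lit 10199457) [(nat_lit 350659), (nat_lit 1346260), (nat_lit 0), (nat_lit 0)]) (PF.cons (PF.leaf (nat_lit 3759065) (nat_lit 364953) (nat_lit 53424213) (nat_lit 10209759) [(nat_lit 364953), (nat_lit 1372466), (nat_lit 0), (nat_lit 0)]) (PF.cons (PF.leaf (nat_lit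 4022345) (nat_lit 378129) (nat_lit 52961357) (nat_lit 10217860) [(nat_lit 378129), (nat_lit 1397602), (nat_lit 0), (nat_lit 0)]) (PF.cons (PF.leaf (nat_lit 4297850) (nat_lit 390334) (nat_lit 52480946) (nat_lit 10223452) [(nat_lit 390334), (nat_lit 1421538), (nat_lit 0), (nat_lit 0)]) (PF.cons PF.nil (PF.cons PF.nil PF.nil))))))) (PF.cons (PF.cons (PF.leaf (nat_lit 3962471) (nat_lit 1398821) (nat_lit 52696976) (nat_lit 10215372) [(nat_lit 0), (nat_lit 1398821), (nat_lit 0), (nat_lit 0)]) (PF.cons (PF.leaf (nat_lit 4221519) (nat_lit 385242) (nat_lit 52239395) (nat_lit 10219323) [(nat_lit 385242), (nat_lit 1421616), (nat_lit 0), (nat_lit 0)]) (PF.cons (PF.leaf (nat_lit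
 4493856) (nat_lit 397018) (nat_lit 51763722) (nat_lit 10220810) [(nat_lit 397018), (nat_lit 1443414), (nat_lit 0), (nat_lit 0)]) (PF.cons (PF.leaf (nat_lit 4777177) (nat_lit 407912) (nat_lit 51273134) (nat_lit 10219625) [(nat_lit 407912), (nat_lit 1464104), (nat_lit 0), (nat_lit 0)]) (PF.cons PF.nil PF.nil))))) (PF.cons (PF.cons (PF.leaf (nat_lit 4690138) (nat_lit 1463242) (nat_lit 51043385) (nat_lit 10212457) [(nat_lit 0), (nat_lit 1463242), (nat_lit 0), (nat_lit 0)]) (PF.cons (PF.leaf (nat_lit 4969107) (nat_lit 413381) (nat_lit 50559617) (nat_lit 10207504) [(nat_lit 413381), (nat_lit 1482077), (nat_lit 0), (nat_lit 0)]) (PF.cons PF.nil (PF.cons PF.nil PF.nil)))) (PF.cons (PF.cons (PF.leaf (nat_lit 5446026) (nat_lit 1514451) (nat_lit 49357452) (nat_lit 10179101) [(nat_lit 0), (nat_lit 1514451), (nat_lit 0), (nat_lit 0)]) (PF.cons PF.nil PF.nil)) (PF.cons PF.nil (PF.cons PF.nil PF.nil)))))))) (PF.cons (PF.cons (PF.cons (PF.leaf (nat_lit 3223013) (nat_lit 3234666)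 (nat_lit 53700298) (nat_lit 10173847) [(nat_lit 0), (nat_lit 0), (nat_lit 3234666), (nat_lit 0)]) (PF.cons (PF.leaf (nat_lit 3430539) (nat_lit 332479) (nat_lit 53330103) (nat_lit 10182471) [(nat_lit 332479), (nat_lit 0),
 (nat_lit 3263758), (nat_lit 0)]) (PF.cons (PF.leaf (nat_lit 3658786) (nat_lit 349049) (nat_lit 52927718) (nat_lit 10189838) [(nat_lit 349049), (nat_lit 0), (nat_lit 3293157), (nat_lit 0)]) (PF.cons (PF.leaf (nat_lit 3903604) (nat_lit 363956) (nat_lit 52499336) (nat_lit 10195452) [(nat_lit 363956), (nat_lit 0), (nat_lit 3322153), (nat_lit 0)]) (PF.cons (PF.leaf (nat_lit 4162623) (nat_lit 377520) (nat_lit 52049512) (nat_lit 10198948) [(nat_lit 377520), (nat_lit 0), (nat_lit 3350268), (nat_lit 0)]) (PF.cons (PF.leaf (nat_lit 4433983) (nat_lit 389953) (nat_lit 51581818) (nat_lit 10200053) [(nat_lit 389953), (nat_lit 0), (nat_lit 3377175), (nat_lit 0)]) (PF.cons PF.nil (PF.cons PF.nil (PF.cons PF.nil PF.nil))))))))) (PF.cons (PF.cons (PF.leaf (nat_lit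 3863755) (nat_lit 1382173) (nat_lit 52203672) (nat_lit 10192251) [(nat_lit 0), (nat_lit 1382173), (nat_lit 3330715), (nat_lit 0)]) (PF.cons (PF.leaf (nat_lit 4103081) (nat_lit 370954) (nat_lit 51782451) (nat_lit 10194146) [(nat_lit 370954), (nat_lit 1405064), (nat_lit 3356196), (nat_lit 0)]) (PF.cons (PF.leaf (nat_lit 4358177) (nat_lit 384148) (nat_lit 51338481) (nat_lit 10193922) [(nat_lit 384148), (nat_lit 1427092), (nat_lit 3381019),
 (nat_lit 0)]) (PF.cons (PF.leaf (nat_lit 4626147) (nat_lit 396172) (nat_lit 50876064) (nat_lit 10191333) [(nat_lit 396172), (nat_lit 1448082), (nat_lit 3404814), (nat_lit 0)]) (PF.cons (PF.leaf (nat_lit 4905153) (nat_lit 407200) (nat_lit 50398535) (nat_lit 10186200) [(nat_lit 407200), (nat_lit 1467940), (nat_lit 3427334), (nat_lit 0)]) (PF.cons PF.nil (PF.cons PF.nil PF.nil))))))) (PF.cons (PF.cons (PF.leaf (nat_lit 4555318) (nat_lit 1447461) (nat_lit 50622331) (nat_lit 10183351) [(nat_lit 0), (nat_lit 1447461), (nat_lit 3408206),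 (nat_lit 0)]) (PF.cons (PF.leaf (nat_lit 4818147) (nat_lit 401533) (nat_lit 50167913) (nat_lit 10177333) [(nat_lit 401533), (nat_lit 1466489), (nat_lit 3429054), (nat_lit 0)]) (PF.cons (PF.leaf (nat_lit 5093151) (nat_lit 412234) (nat_lit 49697620) (nat_lit 10168820) [(nat_lit 412234), (nat_lit 1484554), (nat_lit 3448793), (nat_lit 0)]) (PF.cons PF.nil (PF.cons PF.nil PF.nil))))) (PF.cons (PF.cons (PF.leaf (nat_lit 5281288) (nat_lit 1499479) (nat_lit 48996509) (nat_lit 10146624) [(nat_lit 0), (nat_lit 1499479), (nat_lit 3467239), (nat_lit 0)]) (PF.cons (PF.leaf (nat_lit 5561222) (nat_lit 426052) (nat_lit 48522236) (nat_lit 10132490) [(nat_lit 426052),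
 (nat_lit 1514944), (nat_lit 3483200), (nat_lit 0)]) (PF.cons PF.nil (PF.cons PF.nil PF.nil)))) (PF.cons (PF.cons (PF.leaf (nat_lit 6028746) (nat_lit 1539965) (nat_lit 47356418) (nat_lit 10083562) [(nat_lit 0), (nat_lit 1539965), (nat_lit 3508969), (nat_lit 0)]) (PF.cons PF.nil PF.nil)) (PF.cons PF.nil PF.nil)))))) (PF.cons (PF.cons (PF.cons (PF.leaf (nat_lit 4439500) (nat_lit 3395027) (nat_lit 50166061) (nat_lit 10152696) [(nat_lit 0), (nat_lit 0), (nat_lit 3395027), (nat_lit 0)]) (PF.cons (PF.leaf (nat_lit 4683341) (nat_lit 387158) (nat_lit 49746844) (nat_lit 10145788) [(nat_lit 387158), (nat_lit 0), (nat_lit 3414511), (nat_lit 0)]) (PF.cons (PF.leaf (nat_lit 4941946) (nat_lit 399346) (nat_lit 49307036) (nat_lit 10136581) [(nat_lit 399346), (nat_lit 0), (nat_lit 3433250), (nat_lit 0)]) (PF.cons (PF.leaf (nat_lit 5212378) (nat_lit 410332) (nat_lit 48850926) (nat_lit 10124962) [(nat_lit 410332), (nat_lit 0), (nat_lit 3450963), (nat_lit 0)]) (PF.cons (PF.leaf (nat_lit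 5492820) (nat_lit 420309) (nat_lit 48381785) (nat_lit 10110860) [(nat_lit 420309), (nat_lit 0), (nat_lit 3467465), (nat_lit 0)]) PF.nil))))) (PF.cons (PF.cons (PF.leaf (nat_lit 5131887) (nat_lit 1483319) (nat_lit
 48609552) (nat_lit 10112765) [(nat_lit 0), (nat_lit 1483319), (nat_lit 3451587), (nat_lit 0)]) (PF.cons (PF.leaf (nat_lit 5396498) (nat_lit 414227) (nat_lit 48163334) (nat_lit 10098411) [(nat_lit 414227), (nat_lit 1499132), (nat_lit 3466852), (nat_lit 0)]) (PF.cons (PF.leaf (nat_lit 5672309) (nat_lit 423964) (nat_lit 47703161) (nat_lit 10081610) [(nat_lit 423964), (nat_lit 1514020), (nat_lit 3481045), (nat_lit 0)]) (PF.cons PF.nil PF.nil)))) (PF.cons (PF.cons (PF.leaf (nat_lit 5851932) (nat_lit 1524902) (nat_lit 47026395) (nat_lit 10048356) [(nat_lit 0), (nat_lit 1524902), (nat_lit 3492128), (nat_lit 0)]) (PF.cons (PF.leaf (nat_lit 6131272) (nat_lit 435597) (nat_lit 46565359) (nat_lit 10026737) [(nat_lit 435597), (nat_lit 1537497), (nat_lit 3503061), (nat_lit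 0)]) PF.nil)) (PF.cons PF.nil (PF.cons PF.nil PF.nil))))) (PF.cons (PF.cons (PF.cons (PF.leaf (nat_lit 5690222) (nat_lit 3475105) (nat_lit 46671930) (nat_lit 10011567) [(nat_lit 0), (nat_lit 0), (nat_lit 3475105), (nat_lit 0)]) (PF.cons (PF.leaf (nat_lit 5955035) (nat_lit 423904) (nat_lit 46237461) (nat_lit 9990375) [(nat_lit 423904), (nat_lit 0), (nat_lit 3485690), (nat_lit 0)]) (PF.cons (PF.leaf (nat_lit 6230217) (nat_lit
 432776) (nat_lit 45790684) (nat_lit 9966830) [(nat_lit 432776), (nat_lit 0), (nat_lit 3495248), (nat_lit 0)]) (PF.cons PF.nil PF.nil)))) (PF.cons (PF.cons (PF.leaf (nat_lit 6401200) (nat_lit 1541444) (nat_lit 45141435) (nat_lit 9924908) [(nat_lit 0), (nat_lit 1541444), (nat_lit 3500341), (nat_lit 0)]) (PF.cons PF.nil PF.nil)) (PF.cons PF.nil PF.nil))) (PF.cons (PF.cons (PF.cons (PF.leaf (nat_lit 6928894) (nat_lit 3495145) (nat_lit 43345891) (nat_lit 9782338) [(nat_lit 0), (nat_lit 0), (nat_lit 3495145), (nat_lit 0)]) (PF.cons PF.nil PF.nil))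 (PF.cons PF.nil PF.nil)) (PF.cons PF.nil PF.nil)))))) (PF.cons (PF.cons (PF.cons (PF.cons (PF.leaf (nat_lit 4282994) (nat_lit 9352165) (nat_lit 47844100) (nat_lit 9912546) [(nat_lit 0), (nat_lit 0), (nat_lit 0), (nat_lit 9352165)]) (PF.cons (PF.leaf (nat_lit 4489419) (nat_lit 346627) (nat_lit 47510812) (nat_lit 9904445) [(nat_lit 346627), (nat_lit 0), (nat_lit 0), (nat_lit 9346927)]) (PF.cons (PF.leaf (nat_lit 4714983) (nat_lit 362133) (nat_lit 47150329) (nat_lit 9894321) [(nat_lit 362133), (nat_lit 0), (nat_lit 0), (nat_lit 9339894)]) (PF.cons (PF.leaf (nat_lit 4955461) (nat_lit 375786) (nat_lit 46768422) (nat_lit 9882091) [(nat_lit 375786),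
 (nat_lit 0), (nat_lit 0), (nat_lit 9330939)]) (PF.cons (PF.leaf (nat_lit 5208499) (nat_lit 387964) (nat_lit 46369290) (nat_lit 9867695) [(nat_lit 387964), (nat_lit 0), (nat_lit 0), (nat_lit 9319967)]) (PF.cons (PF.leaf (nat_lit 5472158) (nat_lit 398923) (nat_lit 45956180) (nat_lit 9851097) [(nat_lit 398923), (nat_lit 0), (nat_lit 0), (nat_lit 9306919)]) (PF.cons (PF.leaf (nat_lit 5744949) (nat_lit 408845) (nat_lit 45531699) (nat_lit 9832283) [(nat_lit 408845), (nat_lit 0), (nat_lit 0), (nat_lit 9291760)]) (PF.cons PF.nil (PF.cons PF.nil PF.nil))))))))) (PF.cons (PF.cons (PF.leaf (nat_lit 4902503) (nat_lit 1409717) (nat_lit 46512168) (nat_lit 9868027) [(nat_lit 0), (nat_lit 1409717), (nat_lit 0), (nat_lit 9318899)]) (PF.cons (PF.leaf (nat_lit 5136414) (nat_lit 380407) (nat_lit 46139216) (nat_lit 9853702) [(nat_lit 380407), (nat_lit 1427699), (nat_lit 0), (nat_lit 9307786)]) (PF.cons (PF.leaf (nat_lit 5384487) (nat_lit 392291) (nat_lit 45747737) (nat_lit 9837173)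 [(nat_lit 392291), (nat_lit 1444685), (nat_lit 0), (nat_lit 9294633)]) (PF.cons (PF.leaf (nat_lit 5643844) (nat_lit 402922) (nat_lit 45341609) (nat_lit 9818442) [(nat_lit 402922), (nat_lit 1460581), (nat_lit 0), (nat_lit
 9279412)]) (PF.cons (PF.leaf (nat_lit 5912684) (nat_lit 412505) (nat_lit 44923796) (nat_lit 9797522) [(nat_lit 412505), (nat_lit 1475355), (nat_lit 0), (nat_lit 9262114)]) (PF.cons (PF.leaf (nat_lit 6189622) (nat_lit 421189) (nat_lit 44496665) (nat_lit 9774440) [(nat_lit 421189), (nat_lit 1489011), (nat_lit 0), (nat_lit 9242747)]) (PF.cons PF.nil PF.nil))))))) (PF.cons (PF.cons (PF.leaf (nat_lit 5561786) (nat_lit 1457594) (nat_lit 45124855) (nat_lit 9803033) [(nat_lit 0), (nat_lit 1457594), (nat_lit 0), (nat_lit 9265735)]) (PF.cons (PF.leaf (nat_lit 5815269) (nat_lit 406192) (nat_lit 44727771) (nat_lit 9782436) [(nat_lit 406192), (nat_lit 1471909), (nat_lit 0), (nat_lit 9248594)]) (PF.cons (PF.leaf (nat_lit 6079456) (nat_lit 415535) (nat_lit 44318181)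 (nat_lit 9759652) [(nat_lit 415535), (nat_lit 1485259), (nat_lit 0), (nat_lit 9229388)]) (PF.cons (PF.leaf (nat_lit 6352147) (nat_lit 423955) (nat_lit 43898822) (nat_lit 9734736) [(nat_lit 423955), (nat_lit 1497618), (nat_lit 0), (nat_lit 9208149)]) (PF.cons PF.nil PF.nil))))) (PF.cons (PF.cons (PF.leaf (nat_lit 6246481) (nat_lit 1493901) (nat_lit 43714622) (nat_lit 9718786) [(nat_lit 0), (nat_lit 1493901), (nat_lit 0), (nat_lit
 9193698)]) (PF.cons (PF.leaf (nat_lit 6513776) (nat_lit 426173) (nat_lit 43304391) (nat_lit 9692276) [(nat_lit 426173), (nat_lit 1505051), (nat_lit 0), (nat_lit 9170815)]) (PF.cons (PF.leaf (nat_lit 6789157) (nat_lit 433590) (nat_lit 42886008) (nat_lit 9663718) [(nat_lit 433590), (nat_lit 1515309), (nat_lit 0), (nat_lit 9145974)]) (PF.cons PF.nil PF.nil)))) (PF.cons (PF.cons (PF.leaf (nat_lit 6945873) (nat_lit 1520623) (nat_lit 42304421) (nat_lit 9617271) [(nat_lit 0), (nat_lit 1520623), (nat_lit 0), (nat_lit 9104625)]) (PF.cons PF.nil PF.nil))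 (PF.cons PF.nil PF.nil)))))) (PF.cons (PF.cons (PF.cons (PF.leaf (nat_lit 5427597) (nat_lit 3368263) (nat_lit 44748195) (nat_lit 9763442) [(nat_lit 0), (nat_lit 0), (nat_lit 3368263), (nat_lit 9228911)]) (PF.cons (PF.leaf (nat_lit 5663571) (nat_lit 391332) (nat_lit 44381912) (nat_lit 9743717) [(nat_lit 391332), (nat_lit 0), (nat_lit 3379432), (nat_lit 9212418)]) (PF.cons (PF.leaf (nat_lit 5912889) (nat_lit 402298) (nat_lit 43998832) (nat_lit 9721750) [(nat_lit 402298), (nat_lit 0), (nat_lit 3389790), (nat_lit 9193842)]) (PF.cons (PF.leaf (nat_lit 6172591) (nat_lit 412013) (nat_lit 43602738) (nat_lit 9697625) [(nat_lit 412013), (nat_lit 0),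
 (nat_lit 3399172), (nat_lit 9173235)]) (PF.cons (PF.leaf (nat_lit 6440972) (nat_lit 420695) (nat_lit 43196480) (nat_lit 9671417) [(nat_lit 420695), (nat_lit 0), (nat_lit 3407482), (nat_lit 9150648)]) (PF.cons PF.nil (PF.cons PF.nil PF.nil))))))) (PF.cons (PF.cons (PF.leaf (nat_lit 6083019) (nat_lit 1476605) (nat_lit 43398321) (nat_lit 9680171) [(nat_lit 0), (nat_lit 1476605), (nat_lit 3396238), (nat_lit 9157474)]) (PF.cons (PF.leaf (nat_lit 6336490) (nat_lit 414175) (nat_lit 43012231) (nat_lit 9654662) [(nat_lit 414175), (nat_lit 1488425), (nat_lit 3403897), (nat_lit 9135420)]) (PF.cons (PF.leaf (nat_lit 6599882) (nat_lit 422696) (nat_lit 42615051) (nat_lit 9627055) [(nat_lit 422696), (nat_lit 1499341), (nat_lit 3410590), (nat_lit 9111381)]) (PF.cons (PF.leaf (nat_lit 6871044) (nat_lit 430309) (nat_lit 42209399) (nat_lit 9597452) [(nat_lit 430309), (nat_lit 1509343), (nat_lit 3416249), (nat_lit 9085438)]) (PF.cons PF.nil PF.nil))))) (PF.cons (PF.cons (PF.leaf (nat_lit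 6759127) (nat_lit 1505122) (nat_lit 42036693) (nat_lit 9580228) [(nat_lit 0), (nat_lit 1505122), (nat_lit 3411972), (nat_lit 9069672)]) (PF.cons (PF.leaf (nat_lit 7024646) (nat_lit 431636) (nat_lit 41640730) (nat_lit
 9549470) [(nat_lit 431636), (nat_lit 1514116), (nat_lit 3416226), (nat_lit 9042516)]) (PF.cons PF.nil (PF.cons PF.nil PF.nil)))) (PF.cons (PF.cons (PF.leaf (nat_lit 7446253) (nat_lit 1525295) (nat_lit 40682948) (nat_lit 9465747) [(nat_lit 0), (nat_lit 1525295), (nat_lit 3416737), (nat_lit 8967493)]) (PF.cons PF.nil PF.nil)) (PF.cons PF.nil PF.nil))))) (PF.cons (PF.cons (PF.cons (PF.leaf (nat_lit 6586988) (nat_lit 3393271) (nat_lit 41747914) (nat_lit 9541313) [(nat_lit 0), (nat_lit 0), (nat_lit 3393271), (nat_lit 9033041)]) (PF.cons (PF.leaf (nat_lit 6839439) (nat_lit 419983) (nat_lit 41374538) (nat_lit 9511872) [(nat_lit 419983), (nat_lit 0), (nat_lit 3397692), (nat_lit 9007034)]) (PF.cons (PF.leaf (nat_lit 7101147) (nat_lit 427772) (nat_lit 40991283)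 (nat_lit 9480438) [(nat_lit 427772), (nat_lit 0), (nat_lit 3401203), (nat_lit 8979138)]) (PF.cons PF.nil PF.nil)))) (PF.cons (PF.cons (PF.leaf (nat_lit 7252761) (nat_lit 1510346) (nat_lit 40439094) (nat_lit 9429113) [(nat_lit 0), (nat_lit 1510346), (nat_lit 3398707), (nat_lit 8932844)]) (PF.cons (PF.leaf (nat_lit 7515811) (nat_lit 435259) (nat_lit 40058417) (nat_lit 9395044) [(nat_lit 435259), (nat_lit 1517508), (nat_lit 3400124),
 (nat_lit 8902334)]) PF.nil)) (PF.cons PF.nil PF.nil))) (PF.cons (PF.cons (PF.cons (PF.leaf (nat_lit 7727703) (nat_lit 3377137) (nat_lit 38921695) (nat_lit 9268997) [(nat_lit 0), (nat_lit 0), (nat_lit 3377137), (nat_lit 8786707)]) (PF.cons PF.nil PF.nil)) (PF.cons PF.nil PF.nil)) (PF.cons PF.nil PF.nil))))) (PF.cons (PF.cons (PF.cons (PF.cons (PF.leaf (nat_lit 6286583) (nat_lit 8806179) (nat_lit 40195096) (nat_lit 9301356) [(nat_lit 0), (nat_lit 0), (nat_lit 0), (nat_lit 8806179)]) (PF.cons (PF.leaf (nat_lit 6513476) (nat_lit 388381) (nat_lit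 39878114) (nat_lit 9275504) [(nat_lit 388381), (nat_lit 0), (nat_lit 0), (nat_lit 8783405)]) (PF.cons (PF.leaf (nat_lit 6752554) (nat_lit 398350) (nat_lit 39547212) (nat_lit 9247555) [(nat_lit 398350), (nat_lit 0), (nat_lit 0), (nat_lit 8758672)]) (PF.cons (PF.leaf (nat_lit 7000967) (nat_lit 407062) (nat_lit 39205666) (nat_lit 9217692) [(nat_lit 407062), (nat_lit 0), (nat_lit 0), (nat_lit 8732133)]) (PF.cons (PF.leaf (nat_lit 7257067) (nat_lit 414749) (nat_lit 38855926) (nat_lit 9186060) [(nat_lit 414749), (nat_lit 0), (nat_lit 0), (nat_lit 8703912)]) (PF.cons PF.nil (PF.cons PF.nil PF.nil))))))) (PF.cons (PF.cons (PF.leaf (nat_lit 6906150)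
 (nat_lit 1448328) (nat_lit 39033256) (nat_lit 9198404) [(nat_lit 0), (nat_lit 1448328), (nat_lit 0), (nat_lit 8714411)]) (PF.cons (PF.leaf (nat_lit 7148205) (nat_lit 408082) (nat_lit 38700965) (nat_lit 9167946) [(nat_lit 408082), (nat_lit 1457410), (nat_lit 0), (nat_lit 8687204)]) (PF.cons (PF.leaf (nat_lit 7399244) (nat_lit 415668) (nat_lit 38359606) (nat_lit 9135675) [(nat_lit 415668), (nat_lit 1465633), (nat_lit 0), (nat_lit 8658280)]) (PF.cons (PF.leaf (nat_lit 7657172) (nat_lit 422363) (nat_lit 38011414) (nat_lit 9101747) [(nat_lit 422363), (nat_lit 1473011), (nat_lit 0), (nat_lit 8627774)]) (PF.cons PF.nil PF.nil))))) (PF.cons (PF.cons (PF.leaf (nat_lit 7542016) (nat_lit 1468218) (nat_lit 37866454) (nat_lit 9083735) [(nat_lit 0), (nat_lit 1468218), (nat_lit 0), (nat_lit 8611093)]) (PF.cons (PF.leaf (nat_lit 7794317) (nat_lit 422748) (nat_lit 37526994) (nat_lit 9049342) [(nat_lit 422748), (nat_lit 1474807), (nat_lit 0), (nat_lit 8580055)]) (PF.cons PF.nil (PF.cons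 PF.nil PF.nil)))) (PF.cons (PF.cons (PF.leaf (nat_lit 8185918) (nat_lit 1481109) (nat_lit 36709946) (nat_lit 8959345) [(nat_lit 0), (nat_lit 1481109), (nat_lit 0), (nat_lit 8498096)]) (PF.cons PF.nil PF.nil))
 (PF.cons PF.nil PF.nil))))) (PF.cons (PF.cons (PF.cons (PF.leaf (nat_lit 7365103) (nat_lit 3281045) (nat_lit 37630487) (nat_lit 9046167) [(nat_lit 0), (nat_lit 0), (nat_lit 3281045), (nat_lit 8575556)]) (PF.cons (PF.leaf (nat_lit 7605552) (nat_lit 411433) (nat_lit 37310058) (nat_lit 9013469) [(nat_lit 411433), (nat_lit 0), (nat_lit 3281746), (nat_lit 8546052)]) (PF.cons (PF.leaf (nat_lit 7854435) (nat_lit 418394) (nat_lit 36981477) (nat_lit 8979057) [(nat_lit 418394), (nat_lit 0), (nat_lit 3281640), (nat_lit 8514923)]) (PF.cons PF.nil PF.nil)))) (PF.cons (PF.cons (PF.leaf (nat_lit 7990551) (nat_lit 1466738) (nat_lit 36511347) (nat_lit 8924943) [(nat_lit 0), (nat_lit 1466738), (nat_lit 3274907), (nat_lit 8465437)]) (PF.cons (PF.leaf (nat_lit 8240118) (nat_lit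 424323) (nat_lit 36185502) (nat_lit 8888772) [(nat_lit 424323), (nat_lit 1471920), (nat_lit 3273194), (nat_lit 8432549)]) PF.nil)) (PF.cons PF.nil PF.nil))) (PF.cons (PF.cons (PF.cons (PF.leaf (nat_lit 8422989) (nat_lit 3244910) (nat_lit 35224679) (nat_lit 8762612) [(nat_lit 0), (nat_lit 0), (nat_lit 3244910), (nat_lit 8315849)]) (PF.cons PF.nil PF.nil)) (PF.cons PF.nil PF.nil)) PF.nil))) (PF.cons (PF.cons (PF.cons (PF.cons
 (PF.leaf (nat_lit 8052012) (nat_lit 8125329) (nat_lit 34170874) (nat_lit 8561951) [(nat_lit 0), (nat_lit 0), (nat_lit 0), (nat_lit 8125329)]) (PF.cons (PF.leaf (nat_lit 8281204) (nat_lit 400557) (nat_lit 33894888) (nat_lit 8528617) [(nat_lit 400557), (nat_lit 0), (nat_lit 0), (nat_lit 8094916)]) (PF.cons (PF.leaf (nat_lit 8518228) (nat_lit 406864) (nat_lit 33612030) (nat_lit 8493790) [(nat_lit 406864), (nat_lit 0), (nat_lit 0), (nat_lit 8063087)]) (PF.cons PF.nil PF.nil)))) (PF.cons (PF.cons (PF.leaf (nat_lit 8641803) (nat_lit 1417734) (nat_lit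 33209716) (nat_lit 8440222) [(nat_lit 0), (nat_lit 1417734), (nat_lit 0), (nat_lit 8013713)]) (PF.cons PF.nil PF.nil)) (PF.cons PF.nil PF.nil))) (PF.cons (PF.cons (PF.cons (PF.leaf (nat_lit 9039486) (nat_lit 3109982) (nat_lit 32111650) (nat_lit 8283064) [(nat_lit 0), (nat_lit 0), (nat_lit 3109982), (nat_lit 7868038)]) (PF.cons PF.nil PF.nil)) PF.nil) PF.nil)) (PF.cons PF.nil (PF.cons PF.nil (PF.cons PF.nil (PF.cons PF.nil PF.nil))))))))

def p14_12_1_0 : pfC (piC [(nat_lit 40173837), (nat_lit 25770221), (nat_lit 19310217), (nat_lit 12946273)] (nat_lit 10469692)) p14_12_1 (nat_lit 4) (nat_lit 0) (nat_lit 1) = true := by decide +kernel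
def p14_12_1_1 : pfC (piC [(nat_lit 40173837), (nat_lit 25770221), (nat_lit 19310217), (nat_lit 12946273)] (nat_lit 10469692)) p14_12_1 (nat_lit 4) (nat_lit 1) (nat_lit 2) = true := by decide +kernel
def p14_12_1_2 : pfC (piC [(nat_lit 40173837), (nat_lit 25770221), (nat_lit 19310217), (nat_lit 12946273)] (nat_lit 10469692)) p14_12_1 (nat_lit 4) (nat_lit 2) (nat_lit 3) = true := by decide +kernel
def p14_12_1_3 : pfC (piC [(nat_lit 40173837), (nat_lit 25770221), (nat_lit 19310217), (nat_lit 12946273)] (nat_lit 10469692)) p14_12_1 (nat_lit 4) (nat_lit 3) (nat_lit 4) = true := by decide +kernel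
def p14_12_1_4 : pfC (piC [(nat_lit 40173837), (nat_lit 25770221), (nat_lit 19310217), (nat_lit 12946273)] (nat_lit 10469692)) p14_12_1 (nat_lit 4) (nat_lit 4) (nat_lit 5) = true := by decide +kernel
def p14_12_1_5 : pfC (piC [(nat_lit 40173837), (nat_lit 25770221), (nat_lit 19310217), (nat_lit 12946273)] (nat_lit 10469692)) p14_12_1 (nat_lit 4) (nat_lit 5) (nat_lit 6) = true := by decide +kernel
def p14_12_1_6 : pfC (piC [(nat_lit 40173837), (nat_lit 25770221), (nat_lit 19310217), (nat_lit 12946273)] (nat_lit 10469692)) p14_12_1 (nat_lit 4) (nat_lit 6) (nat_lit 7) = true := by decide +kernel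
def p14_12_1_7 : pfC (piC [(nat_lit 40173837), (nat_lit 25770221), (nat_lit 19310217), (nat_lit 12946273)] (nat_lit 10469692)) p14_12_1 (nat_lit 4) (nat_lit 7) (nat_lit 8) = true := by decide +kernel
def p14_12_1_8 : pfC (piC [(nat_lit 40173837), (nat_lit 25770221), (nat_lit 19310217), (nat_lit 12946273)] (nat_lit 10469692)) p14_12_1 (nat_lit 4) (nat_lit 8) (nat_lit 9) = true := by decide +kernel
def p14_12_1_9 : pfC (piC [(nat_lit 40173837), (nat_lit 25770221), (nat_lit 19310217), (nat_lit 12946273)] (nat_lit 10469692)) p14_12_1 (nat_lit 4) (nat_lit 9) (nat_lit 10) = true := by decide +kernel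
def p14_12_1_10 : pfC (piC [(nat_lit 40173837), (nat_lit 25770221), (nat_lit 19310217), (nat_lit 12946273)] (nat_lit 10469692)) p14_12_1 (nat_lit 4) (nat_lit 10) (nat_lit 11) = true := by decide +kernel
def p14_12_1_11 : pfC (piC [(nat_lit 40173837), (nat_lit 25770221), (nat_lit 19310217), (nat_lit 12946273)] (nat_lit 10469692)) p14_12_1 (nat_lit 4) (nat_lit 11) (nat_lit 12) = true := by decide +kernel
def p14_12_1_12 : pfC (piC [(nat_lit 40173837), (nat_lit 25770221), (nat_lit 19310217), (nat_lit 12946273)] (nat_lit 10469692)) p14_12_1 (nat_lit 4) (nat_lit 12) (nat_lit 13) = true := by decide +kernel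
def p14_12_1_13 : pfC (piC [(nat_lit 40173837), (nat_lit 25770221), (nat_lit 19310217), (nat_lit 12946273)] (nat_lit 10469692)) p14_12_1 (nat_lit 4) (nat_lit 13) (nat_lit 14) = true := by decide +kernel
def p14_12_1_14 : pfC (piC [(nat_lit 40173837), (nat_lit 25770221), (nat_lit 19310217), (nat_lit 12946273)] (nat_lit 10469692)) p14_12_1 (nat_lit 4) (nat_lit 14) (nat_lit 15) = true := by decide +kernel
def p14_12_1_15 : pfC (piC [(nat_lit 40173837), (nat_lit 25770221), (nat_lit 19310217), (nat_lit 12946273)] (nat_lit 10469692)) p14_12_1 (nat_lit 4) (nat_lit 15) (nat_lit 16) = true := by decide +kernel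
def p14_12_1_16 : pfC (piC [(nat_lit 40173837), (nat_lit 25770221), (nat_lit 19310217), (nat_lit 12946273)] (nat_lit 10469692)) p14_12_1 (nat_lit 4) (nat_lit 16) (nat_lit 17) = true := by decide +kernel
def p14_12_1_17 : pfC (piC [(nat_lit 40173837), (nat_lit 25770221), (nat_lit 19310217), (nat_lit 12946273)] (nat_lit 10469692)) p14_12_1 (nat_lit 4) (nat_lit 17) (nat_lit 18) = true := by decide +kernel
def p14_12_1_18 : pfC (piC [(nat_lit 40173837), (nat_lit 25770221), (nat_lit 19310217), (nat_lit 12946273)] (nat_lit 10469692)) p14_12_1 (nat_lit 4) (nat_lit 18) (nat_lit 19) = true := by decide +kernel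
def p14_12_1_19 : pfC (piC [(nat_lit 40173837), (nat_lit 25770221), (nat_lit 19310217), (nat_lit 12946273)] (nat_lit 10469692)) p14_12_1 (nat_lit 4) (nat_lit 19) (nat_lit 20) = true := by decide +kernel
def p14_12_1_20 : pfC (piC [(nat_lit 40173837), (nat_lit 25770221), (nat_lit 19310217), (nat_lit 12946273)] (nat_lit 10469692)) p14_12_1 (nat_lit 4) (nat_lit 20) (nat_lit 21) = true := by decide +kernel
def p14_12_1_21 : pfC (piC [(nat_lit 40173837), (nat_lit 25770221), (nat_lit 19310217), (nat_lit 12946273)] (nat_lit 10469692)) p14_12_1 (nat_lit 4) (nat_lit 21) (nat_lit 22) = true := by decide +kernel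
def p14_12_1_22 : pfC (piC [(nat_lit 40173837), (nat_lit 25770221), (nat_lit 19310217), (nat_lit 12946273)] (nat_lit 10469692)) p14_12_1 (nat_lit 4) (nat_lit 22) (nat_lit 23) = true := by decide +kernel
def p14_12_1_23 : pfC (piC [(nat_lit 40173837), (nat_lit 25770221), (nat_lit 19310217), (nat_lit 12946273)] (nat_lit 10469692)) p14_12_1 (nat_lit 4) (nat_lit 23) (nat_lit 24) = true := by decide +kernel
def p14_12_1_24 : pfC (piC [(nat_lit 40173837), (nat_lit 25770221), (nat_lit 19310217), (nat_lit 12946273)] (nat_lit 10469692)) p14_12_1 (nat_lit 4) (nat_lit 24) (nat_lit 25) = true := by decide +kernel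
def p14_12_1_25 : pfC (piC [(nat_lit 40173837), (nat_lit 25770221), (nat_lit 19310217), (nat_lit 12946273)] (nat_lit 10469692)) p14_12_1 (nat_lit 4) (nat_lit 25) (nat_lit 26) = true := by decide +kernel
def p14_12_1_26 : pfC (piC [(nat_lit 40173837), (nat_lit 25770221), (nat_lit 19310217), (nat_lit 12946273)] (nat_lit 10469692)) p14_12_1 (nat_lit 4) (nat_lit 26) (nat_lit 27) = true := by decide +kernel
def p14_12_1_27 : pfC (piC [(nat_lit 40173837), (nat_lit 25770221), (nat_lit 19310217), (nat_lit 12946273)] (nat_lit 10469692)) p14_12_1 (nat_lit 4) (nat_lit 27) (nat_lit 28) = true := by decide +kernel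
def p14_12_1_28 : pfC (piC [(nat_lit 40173837), (nat_lit 25770221), (nat_lit 19310217), (nat_lit 12946273)] (nat_lit 10469692)) p14_12_1 (nat_lit 4) (nat_lit 28) (nat_lit 29) = true := by decide +kernel
def p14_12_1_29 : pfC (piC [(nat_lit 40173837), (nat_lit 25770221), (nat_lit 19310217), (nat_lit 12946273)] (nat_lit 10469692)) p14_12_1 (nat_lit 4) (nat_lit 29) (nat_lit 30) = true := by decide +kernel
def p14_12_1_30 : pfC (piC [(nat_lit 40173837), (nat_lit 25770221), (nat_lit 19310217), (nat_lit 12946273)] (nat_lit 10469692)) p14_12_1 (nat_lit 4) (nat_lit 30) (nat_lit 31) = true := by decide +kernel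
def p14_12_1_31 : pfC (piC [(nat_lit 40173837), (nat_lit 25770221), (nat_lit 19310217), (nat_lit 12946273)] (nat_lit 10469692)) p14_12_1 (nat_lit 4) (nat_lit 31) (nat_lit 32) = true := by decide +kernel
def p14_12_1_32 : pfC (piC [(nat_lit 40173837), (nat_lit 25770221), (nat_lit 19310217), (nat_lit 12946273)] (nat_lit 10469692)) p14_12_1 (nat_lit 4) (nat_lit 32) (nat_lit 33) = true := by decide +kernel
def p14_12_1_33 : pfC (piC [(nat_lit 40173837), (nat_lit 25770221), (nat_lit 19310217), (nat_lit 12946273)] (nat_lit 10469692)) p14_12_1 (nat_lit 4) (nat_lit 33) (nat_lit 34) = true := by decide +kernel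
def p14_12_1_34 : pfC (piC [(nat_lit 40173837), (nat_lit 25770221), (nat_lit 19310217), (nat_lit 12946273)] (nat_lit 10469692)) p14_12_1 (nat_lit 4) (nat_lit 34) (nat_lit 35) = true := by decide +kernel
def p14_12_1_35 : pfC (piC [(nat_lit 40173837), (nat_lit 25770221), (nat_lit 19310217), (nat_lit 12946273)] (nat_lit 10469692)) p14_12_1 (nat_lit 4) (nat_lit 35) (nat_lit 36) = true := by decide +kernel
def p14_12_1_36 : pfC (piC [(nat_lit 40173837), (nat_lit 25770221), (nat_lit 19310217), (nat_lit 12946273)] (nat_lit 10469692)) p14_12_1 (nat_lit 4) (nat_lit 36) (nat_lit 37) = true := by decide +kernel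
def p14_12_1_37 : pfC (piC [(nat_lit 40173837), (nat_lit 25770221), (nat_lit 19310217), (nat_lit 12946273)] (nat_lit 10469692)) p14_12_1 (nat_lit 4) (nat_lit 37) (nat_lit 38) = true := by decide +kernel
def p14_12_1_38 : pfC (piC [(nat_lit 40173837), (nat_lit 25770221), (nat_lit 19310217), (nat_lit 12946273)] (nat_lit 10469692)) p14_12_1 (nat_lit 4) (nat_lit 38) (nat_lit 39) = true := by decide +kernel
def p14_12_1_39 : pfC (piC [(nat_lit 40173837), (nat_lit 25770221), (nat_lit 19310217), (nat_lit 12946273)] (nat_lit 10469692)) p14_12_1 (nat_lit 4) (nat_lit 39) (nat_lit 40) = true := by decide +kernel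
def p14_12_1_40 : pfC (piC [(nat_lit 40173837), (nat_lit 25770221), (nat_lit 19310217), (nat_lit 12946273)] (nat_lit 10469692)) p14_12_1 (nat_lit 4) (nat_lit 40) (nat_lit 41) = true := by decide +kernel
def p14_12_1_41 : pfC (piC [(nat_lit 40173837), (nat_lit 25770221), (nat_lit 19310217), (nat_lit 12946273)] (nat_lit 10469692)) p14_12_1 (nat_lit 4) (nat_lit 41) (nat_lit 42) = true := by decide +kernel
def p14_12_1_42 : pfC (piC [(nat_lit 40173837), (nat_lit 25770221), (nat_lit 19310217), (nat_lit 12946273)] (nat_lit 10469692)) p14_12_1 (nat_lit 4) (nat_lit 42) (nat_lit 43) = true := by decide +kernel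
def p14_12_1_43 : pfC (piC [(nat_lit 40173837), (nat_lit 25770221), (nat_lit 19310217), (nat_lit 12946273)] (nat_lit 10469692)) p14_12_1 (nat_lit 4) (nat_lit 43) (nat_lit 44) = true := by decide +kernel
def p14_12_1_44 : pfC (piC [(nat_lit 40173837), (nat_lit 25770221), (nat_lit 19310217), (nat_lit 12946273)] (nat_lit 10469692)) p14_12_1 (nat_lit 4) (nat_lit 44) (nat_lit 45) = true := by decide +kernel
def p14_12_1_45 : pfC (piC [(nat_lit 40173837), (nat_lit 25770221), (nat_lit 19310217), (nat_lit 12946273)] (nat_lit 10469692)) p14_12_1 (nat_lit 4) (nat_lit 45) (nat_lit 46) = true := by decide +kernel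
def p14_12_1_46 : pfC (piC [(nat_lit 40173837), (nat_lit 25770221), (nat_lit 19310217), (nat_lit 12946273)] (nat_lit 10469692)) p14_12_1 (nat_lit 4) (nat_lit 46) (nat_lit 47) = true := by decide +kernel
def p14_12_1_47 : pfC (piC [(nat_lit 40173837), (nat_lit 25770221), (nat_lit 19310217), (nat_lit 12946273)] (nat_lit 10469692)) p14_12_1 (nat_lit 4) (nat_lit 47) (nat_lit 48) = true := by decide +kernel
def p14_12_1_48 : pfC (piC [(nat_lit 40173837), (nat_lit 25770221), (nat_lit 19310217), (nat_lit 12946273)] (nat_lit 10469692)) p14_12_1 (nat_lit 4) (nat_lit 48) (nat_lit 49) = true := by decide +kernel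
def p14_12_1_49 : pfC (piC [(nat_lit 40173837), (nat_lit 25770221), (nat_lit 19310217), (nat_lit 12946273)] (nat_lit 10469692)) p14_12_1 (nat_lit 4) (nat_lit 49) (nat_lit 50) = true := by decide +kernel
def p14_12_1_50 : pfC (piC [(nat_lit 40173837), (nat_lit 25770221), (nat_lit 19310217), (nat_lit 12946273)] (nat_lit 10469692)) p14_12_1 (nat_lit 4) (nat_lit 50) (nat_lit 51) = true := by decide +kernel
def p14_12_1_51 : pfC (piC [(nat_lit 40173837), (nat_lit 25770221), (nat_lit 19310217), (nat_lit 12946273)] (nat_lit 10469692)) p14_12_1 (nat_lit 4) (nat_lit 51) (nat_lit 52) = true := by decide +kernel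
def p14_12_1_52 : pfC (piC [(nat_lit 40173837), (nat_lit 25770221), (nat_lit 19310217), (nat_lit 12946273)] (nat_lit 10469692)) p14_12_1 (nat_lit 4) (nat_lit 52) (nat_lit 53) = true := by decide +kernel
def p14_12_1_53 : pfC (piC [(nat_lit 40173837), (nat_lit 25770221), (nat_lit 19310217), (nat_lit 12946273)] (nat_lit 10469692)) p14_12_1 (nat_lit 4) (nat_lit 53) (nat_lit 54) = true := by decide +kernel
def p14_12_1_54 : pfC (piC [(nat_lit 40173837), (nat_lit 25770221), (nat_lit 19310217), (nat_lit 12946273)] (nat_lit 10469692)) p14_12_1 (nat_lit 4) (nat_lit 54) (nat_lit 55) = true := by decide +kernel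
def p14_12_1_55 : pfC (piC [(nat_lit 40173837), (nat_lit 25770221), (nat_lit 19310217), (nat_lit 12946273)] (nat_lit 10469692)) p14_12_1 (nat_lit 4) (nat_lit 55) (nat_lit 56) = true := by decide +kernel
def p14_12_1_56 : pfC (piC [(nat_lit 40173837), (nat_lit 25770221), (nat_lit 19310217), (nat_lit 12946273)] (nat_lit 10469692)) p14_12_1 (nat_lit 4) (nat_lit 56) (nat_lit 57) = true := by decide +kernel
def p14_12_1_57 : pfC (piC [(nat_lit 40173837), (nat_lit 25770221), (nat_lit 19310217), (nat_lit 12946273)] (nat_lit 10469692)) p14_12_1 (nat_lit 4) (nat_lit 57) (nat_lit 58) = true := by decide +kernel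
def p14_12_1_58 : pfC (piC [(nat_lit 40173837), (nat_lit 25770221), (nat_lit 19310217), (nat_lit 12946273)] (nat_lit 10469692)) p14_12_1 (nat_lit 4) (nat_lit 58) (nat_lit 59) = true := by decide +kernel
def p14_12_1_59 : pfC (piC [(nat_lit 40173837), (nat_lit 25770221), (nat_lit 19310217), (nat_lit 12946273)] (nat_lit 10469692)) p14_12_1 (nat_lit 4) (nat_lit 59) (nat_lit 60) = true := by decide +kernel
def p14_12_1_60 : pfC (piC [(nat_lit 40173837), (nat_lit 25770221), (nat_lit 19310217), (nat_lit 12946273)] (nat_lit 10469692)) p14_12_1 (nat_lit 4) (nat_lit 60) (nat_lit 61) = true := by decide +kernel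
def p14_12_1_61 : pfC (piC [(nat_lit 40173837), (nat_lit 25770221), (nat_lit 19310217), (nat_lit 12946273)] (nat_lit 10469692)) p14_12_1 (nat_lit 4) (nat_lit 61) (nat_lit 62) = true := by decide +kernel
def p14_12_1_62 : pfC (piC [(nat_lit 40173837), (nat_lit 25770221), (nat_lit 19310217), (nat_lit 12946273)] (nat_lit 10469692)) p14_12_1 (nat_lit 4) (nat_lit 62) (nat_lit 63) = true := by decide +kernel
def p14_12_1_63 : pfC (piC [(nat_lit 40173837), (nat_lit 25770221), (nat_lit 19310217), (nat_lit 12946273)] (nat_lit 10469692)) p14_12_1 (nat_lit 4) (nat_lit 63) (nat_lit 64) = true := by decide +kernel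
def p14_12_1_64 : pfC (piC [(nat_lit 40173837), (nat_lit 25770221), (nat_lit 19310217), (nat_lit 12946273)] (nat_lit 10469692)) p14_12_1 (nat_lit 4) (nat_lit 64) (nat_lit 65) = true := by decide +kernel
def p14_12_1_65 : pfC (piC [(nat_lit 40173837), (nat_lit 25770221), (nat_lit 19310217), (nat_lit 12946273)] (nat_lit 10469692)) p14_12_1 (nat_lit 4) (nat_lit 65) (nat_lit 66) = true := by decide +kernel
def p14_12_1_66 : pfC (piC [(nat_lit 40173837), (nat_lit 25770221), (nat_lit 19310217), (nat_lit 12946273)] (nat_lit 10469692)) p14_12_1 (nat_lit 4) (nat_lit 66) (nat_lit 67) = true := by decide +kernel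
def p14_12_1_67 : pfC (piC [(nat_lit 40173837), (nat_lit 25770221), (nat_lit 19310217), (nat_lit 12946273)] (nat_lit 10469692)) p14_12_1 (nat_lit 4) (nat_lit 67) (nat_lit 68) = true := by decide +kernel
def p14_12_1_68 : pfC (piC [(nat_lit 40173837), (nat_lit 25770221), (nat_lit 19310217), (nat_lit 12946273)] (nat_lit 10469692)) p14_12_1 (nat_lit 4) (nat_lit 68) (nat_lit 69) = true := by decide +kernel
def p14_12_1_69 : pfC (piC [(nat_lit 40173837), (nat_lit 25770221), (nat_lit 19310217), (nat_lit 12946273)] (nat_lit 10469692)) p14_12_1 (nat_lit 4) (nat_lit 69) (nat_lit 70) = true := by decide +kernel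
def p14_12_1_70 : pfC (piC [(nat_lit 40173837), (nat_lit 25770221), (nat_lit 19310217), (nat_lit 12946273)] (nat_lit 10469692)) p14_12_1 (nat_lit 4) (nat_lit 70) (nat_lit 71) = true := by decide +kernel
def p14_12_1_71 : pfC (piC [(nat_lit 40173837), (nat_lit 25770221), (nat_lit 19310217), (nat_lit 12946273)] (nat_lit 10469692)) p14_12_1 (nat_lit 4) (nat_lit 71) (nat_lit 72) = true := by decide +kernel
def p14_12_1_72 : pfC (piC [(nat_lit 40173837), (nat_lit 25770221), (nat_lit 19310217), (nat_lit 12946273)] (nat_lit 10469692)) p14_12_1 (nat_lit 4) (nat_lit 72) (nat_lit 73) = true := by decide +kernel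
def p14_12_1_73 : pfC (piC [(nat_lit 40173837), (nat_lit 25770221), (nat_lit 19310217), (nat_lit 12946273)] (nat_lit 10469692)) p14_12_1 (nat_lit 4) (nat_lit 73) (nat_lit 74) = true := by decide +kernel
def p14_12_1_74 : pfC (piC [(nat_lit 40173837), (nat_lit 25770221), (nat_lit 19310217), (nat_lit 12946273)] (nat_lit 10469692)) p14_12_1 (nat_lit 4) (nat_lit 74) (nat_lit 75) = true := by decide +kernel
def p14_12_1_75 : pfC (piC [(nat_lit 40173837), (nat_lit 25770221), (nat_lit 19310217), (nat_lit 12946273)] (nat_lit 10469692)) p14_12_1 (nat_lit 4) (nat_lit 75) (nat_lit 76) = true := by decide +kernel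
def p14_12_1_76 : pfC (piC [(nat_lit 40173837), (nat_lit 25770221), (nat_lit 19310217), (nat_lit 12946273)] (nat_lit 10469692)) p14_12_1 (nat_lit 4) (nat_lit 76) (nat_lit 77) = true := by decide +kernel
def p14_12_1_77 : pfC (piC [(nat_lit 40173837), (nat_lit 25770221), (nat_lit 19310217), (nat_lit 12946273)] (nat_lit 10469692)) p14_12_1 (nat_lit 4) (nat_lit 77) (nat_lit 78) = true := by decide +kernel
def p14_12_1_78 : pfC (piC [(nat_lit 40173837), (nat_lit 25770221), (nat_lit 19310217), (nat_lit 12946273)] (nat_lit 10469692)) p14_12_1 (nat_lit 4) (nat_lit 78) (nat_lit 79) = true := by decide +kernel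
def p14_12_1_79 : pfC (piC [(nat_lit 40173837), (nat_lit 25770221), (nat_lit 19310217), (nat_lit 12946273)] (nat_lit 10469692)) p14_12_1 (nat_lit 4) (nat_lit 79) (nat_lit 80) = true := by decide +kernel
def p14_12_1_80 : pfC (piC [(nat_lit 40173837), (nat_lit 25770221), (nat_lit 19310217), (nat_lit 12946273)] (nat_lit 10469692)) p14_12_1 (nat_lit 4) (nat_lit 80) (nat_lit 81) = true := by decide +kernel
def p14_12_1_81 : pfC (piC [(nat_lit 40173837), (nat_lit 25770221), (nat_lit 19310217), (nat_lit 12946273)] (nat_lit 10469692)) p14_12_1 (nat_lit 4) (nat_lit 81) (nat_lit 82) = true := by decide +kernel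
def p14_12_1_82 : pfC (piC [(nat_lit 40173837), (nat_lit 25770221), (nat_lit 19310217), (nat_lit 12946273)] (nat_lit 10469692)) p14_12_1 (nat_lit 4) (nat_lit 82) (nat_lit 83) = true := by decide +kernel
def p14_12_1_83 : pfC (piC [(nat_lit 40173837), (nat_lit 25770221), (nat_lit 19310217), (nat_lit 12946273)] (nat_lit 10469692)) p14_12_1 (nat_lit 4) (nat_lit 83) (nat_lit 84) = true := by decide +kernel
def p14_12_1_84 : pfC (piC [(nat_lit 40173837), (nat_lit 25770221), (nat_lit 19310217), (nat_lit 12946273)] (nat_lit 10469692)) p14_12_1 (nat_lit 4) (nat_lit 84) (nat_lit 85) = true := by decide +kernel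
def p14_12_1_85 : pfC (piC [(nat_lit 40173837), (nat_lit 25770221), (nat_lit 19310217), (nat_lit 12946273)] (nat_lit 10469692)) p14_12_1 (nat_lit 4) (nat_lit 85) (nat_lit 86) = true := by decide +kernel
def p14_12_1_86 : pfC (piC [(nat_lit 40173837), (nat_lit 25770221), (nat_lit 19310217), (nat_lit 12946273)] (nat_lit 10469692)) p14_12_1 (nat_lit 4) (nat_lit 86) (nat_lit 87) = true := by decide +kernel
def p14_12_1_87 : pfC (piC [(nat_lit 40173837), (nat_lit 25770221), (nat_lit 19310217), (nat_lit 12946273)] (nat_lit 10469692)) p14_12_1 (nat_lit 4) (nat_lit 87) (nat_lit 88) = true := by decide +kernel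
def p14_12_1_88 : pfC (piC [(nat_lit 40173837), (nat_lit 25770221), (nat_lit 19310217), (nat_lit 12946273)] (nat_lit 10469692)) p14_12_1 (nat_lit 4) (nat_lit 88) (nat_lit 89) = true := by decide +kernel
def p14_12_1_89 : pfC (piC [(nat_lit 40173837), (nat_lit 25770221), (nat_lit 19310217), (nat_lit 12946273)] (nat_lit 10469692)) p14_12_1 (nat_lit 4) (nat_lit 89) (nat_lit 90) = true := by decide +kernel
def p14_12_1_90 : pfC (piC [(nat_lit 40173837), (nat_lit 25770221), (nat_lit 19310217), (nat_lit 12946273)] (nat_lit 10469692)) p14_12_1 (nat_lit 4) (nat_lit 90) (nat_lit 91) = true := by decide +kernel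
def p14_12_1_91 : pfC (piC [(nat_lit 40173837), (nat_lit 25770221), (nat_lit 19310217), (nat_lit 12946273)] (nat_lit 10469692)) p14_12_1 (nat_lit 4) (nat_lit 91) (nat_lit 92) = true := by decide +kernel
def p14_12_1_92 : pfC (piC [(nat_lit 40173837), (nat_lit 25770221), (nat_lit 19310217), (nat_lit 12946273)] (nat_lit 10469692)) p14_12_1 (nat_lit 4) (nat_lit 92) (nat_lit 93) = true := by decide +kernel
def p14_12_1_93 : pfC (piC [(nat_lit 40173837), (nat_lit 25770221), (nat_lit 19310217), (nat_lit 12946273)] (nat_lit 10469692)) p14_12_1 (nat_lit 4) (nat_lit 93) (nat_lit 94) = true := by decide +kernel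
def p14_12_1_94 : pfC (piC [(nat_lit 40173837), (nat_lit 25770221), (nat_lit 19310217), (nat_lit 12946273)] (nat_lit 10469692)) p14_12_1 (nat_lit 4) (nat_lit 94) (nat_lit 95) = true := by decide +kernel
def p14_12_1_95 : pfC (piC [(nat_lit 40173837), (nat_lit 25770221), (nat_lit 19310217), (nat_lit 12946273)] (nat_lit 10469692)) p14_12_1 (nat_lit 4) (nat_lit 95) (nat_lit 96) = true := by decide +kernel
def p14_12_1_96 : pfC (piC [(nat_lit 40173837), (nat_lit 25770221), (nat_lit 19310217), (nat_lit 12946273)] (nat_lit 10469692)) p14_12_1 (nat_lit 4) (nat_lit 96) (nat_lit 97) = true := by decide +kernel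
def p14_12_1_97 : pfC (piC [(nat_lit 40173837), (nat_lit 25770221), (nat_lit 19310217), (nat_lit 12946273)] (nat_lit 10469692)) p14_12_1 (nat_lit 4) (nat_lit 97) (nat_lit 98) = true := by decide +kernel
def p14_12_1_98 : pfC (piC [(nat_lit 40173837), (nat_lit 25770221), (nat_lit 19310217), (nat_lit 12946273)] (nat_lit 10469692)) p14_12_1 (nat_lit 4) (nat_lit 98) (nat_lit 99) = true := by decide +kernel
def p14_12_1_99 : pfC (piC [(nat_lit 40173837), (nat_lit 25770221), (nat_lit 19310217), (nat_lit 12946273)] (nat_lit 10469692)) p14_12_1 (nat_lit 4) (nat_lit 99) (nat_lit 100) = true := by decide +kernel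
def p14_12_1_100 : pfC (piC [(nat_lit 40173837), (nat_lit 25770221), (nat_lit 19310217), (nat_lit 12946273)] (nat_lit 10469692)) p14_12_1 (nat_lit 4) (nat_lit 100) (nat_lit 101) = true := by decide +kernel
def p14_12_1_101 : pfC (piC [(nat_lit 40173837), (nat_lit 25770221), (nat_lit 19310217), (nat_lit 12946273)] (nat_lit 10469692)) p14_12_1 (nat_lit 4) (nat_lit 101) (nat_lit 102) = true := by decide +kernel
def p14_12_1_102 : pfC (piC [(nat_lit 40173837), (nat_lit 25770221), (nat_lit 19310217), (nat_lit 12946273)] (nat_lit 10469692)) p14_12_1 (nat_lit 4) (nat_lit 102) (nat_lit 103) = true := by decide +kernel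
def p14_12_1_103 : pfC (piC [(nat_lit 40173837), (nat_lit 25770221), (nat_lit 19310217), (nat_lit 12946273)] (nat_lit 10469692)) p14_12_1 (nat_lit 4) (nat_lit 103) (nat_lit 104) = true := by decide +kernel
def p14_12_1_104 : pfC (piC [(nat_lit 40173837), (nat_lit 25770221), (nat_lit 19310217), (nat_lit 12946273)] (nat_lit 10469692)) p14_12_1 (nat_lit 4) (nat_lit 104) (nat_lit 105) = true := by decide +kernel
def p14_12_1_105 : pfC (piC [(nat_lit 40173837), (nat_lit 25770221), (nat_lit 19310217), (nat_lit 12946273)] (nat_lit 10469692)) p14_12_1 (nat_lit 4) (nat_lit 105) (nat_lit 106) = true := by decide +kernel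
def p14_12_1_106 : pfC (piC [(nat_lit 40173837), (nat_lit 25770221), (nat_lit 19310217), (nat_lit 12946273)] (nat_lit 10469692)) p14_12_1 (nat_lit 4) (nat_lit 106) (nat_lit 107) = true := by decide +kernel
def p14_12_1_107 : pfC (piC [(nat_lit 40173837), (nat_lit 25770221), (nat_lit 19310217), (nat_lit 12946273)] (nat_lit 10469692)) p14_12_1 (nat_lit 4) (nat_lit 107) (nat_lit 108) = true := by decide +kernel
def p14_12_1_108 : pfC (piC [(nat_lit 40173837), (nat_lit 25770221), (nat_lit 19310217), (nat_lit 12946273)] (nat_lit 10469692)) p14_12_1 (nat_lit 4) (nat_lit 108) (nat_lit 109) = true := by decide +kernel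
def p14_12_1_109 : pfC (piC [(nat_lit 40173837), (nat_lit 25770221), (nat_lit 19310217), (nat_lit 12946273)] (nat_lit 10469692)) p14_12_1 (nat_lit 4) (nat_lit 109) (nat_lit 110) = true := by decide +kernel
def p14_12_1_110 : pfC (piC [(nat_lit 40173837), (nat_lit 25770221), (nat_lit 19310217), (nat_lit 12946273)] (nat_lit 10469692)) p14_12_1 (nat_lit 4) (nat_lit 110) (nat_lit 111) = true := by decide +kernel
def p14_12_1_111 : pfC (piC [(nat_lit 40173837), (nat_lit 25770221), (nat_lit 19310217), (nat_lit 12946273)] (nat_lit 10469692)) p14_12_1 (nat_lit 4) (nat_lit 111) (nat_lit 112) = true := by decide +kernel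
def p14_12_1_112 : pfC (piC [(nat_lit 40173837), (nat_lit 25770221), (nat_lit 19310217), (nat_lit 12946273)] (nat_lit 10469692)) p14_12_1 (nat_lit 4) (nat_lit 112) (nat_lit 113) = true := by decide +kernel
def p14_12_1_113 : pfC (piC [(nat_lit 40173837), (nat_lit 25770221), (nat_lit 19310217), (nat_lit 12946273)] (nat_lit 10469692)) p14_12_1 (nat_lit 4) (nat_lit 113) (nat_lit 114) = true := by decide +kernel
def p14_12_1_114 : pfC (piC [(nat_lit 40173837), (nat_lit 25770221), (nat_lit 19310217), (nat_lit 12946273)] (nat_lit 10469692)) p14_12_1 (nat_lit 4) (nat_lit 114) (nat_lit 115) = true := by decide +kernel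
def p14_12_1_115 : pfC (piC [(nat_lit 40173837), (nat_lit 25770221), (nat_lit 19310217), (nat_lit 12946273)] (nat_lit 10469692)) p14_12_1 (nat_lit 4) (nat_lit 115) (nat_lit 116) = true := by decide +kernel
def p14_12_1_116 : pfC (piC [(nat_lit 40173837), (nat_lit 25770221), (nat_lit 19310217), (nat_lit 12946273)] (nat_lit 10469692)) p14_12_1 (nat_lit 4) (nat_lit 116) (nat_lit 117) = true := by decide +kernel
def p14_12_1_117 : pfC (piC [(nat_lit 40173837), (nat_lit 25770221), (nat_lit 19310217), (nat_lit 12946273)] (nat_lit 10469692)) p14_12_1 (nat_lit 4) (nat_lit 117) (nat_lit 118) = true := by decide +kernel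
def p14_12_1_118 : pfC (piC [(nat_lit 40173837), (nat_lit 25770221), (nat_lit 19310217), (nat_lit 12946273)] (nat_lit 10469692)) p14_12_1 (nat_lit 4) (nat_lit 118) (nat_lit 119) = true := by decide +kernel
def p14_12_1_119 : pfC (piC [(nat_lit 40173837), (nat_lit 25770221), (nat_lit 19310217), (nat_lit 12946273)] (nat_lit 10469692)) p14_12_1 (nat_lit 4) (nat_lit 119) (nat_lit 120) = true := by decide +kernel
def p14_12_1_120 : pfC (piC [(nat_lit 40173837), (nat_lit 25770221), (nat_lit 19310217), (nat_lit 12946273)] (nat_lit 10469692)) p14_12_1 (nat_lit 4) (nat_lit 120) (nat_lit 121) = true := by decide +kernel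
theorem p14_12_1_T : PfS (PiF n14_12.reverse (nat_lit 10469692)) p14_12_1 (nat_lit 4) [] 0 :=
  pftab_of (los := [(nat_lit 40173837), (nat_lit 25770221), (nat_lit 19310217), (nat_lit 12946273)]) (by decide +kernel) (hi := (nat_lit 121)) (PfP.trans (PfP.trans (PfP.trans (PfP.trans (PfP.trans (PfP.trans (PfP.trans (PfP.trans (PfP.trans (PfP.trans (PfP.trans (PfP.trans (PfP.trans (PfP.trans (PfP.trans (PfP.trans (PfP.trans (PfP.trans (PfP.trans (PfP.trans (PfP.trans (PfP.trans (PfP.trans (PfP.trans (PfP.trans (PfP.trans (PfP.trans (PfP.trans (PfP.trans (PfP.trans (PfP.trans (PfP.trans (PfP.trans (PfP.trans (PfP.trans (PfP.trans (PfP.trans (PfP.trans (PfP.trans (PfP.trans (PfP.trans (PfP.trans (PfP.trans (PfP.trans (PfP.trans (PfP.trans (PfP.trans (PfP.trans (PfP.trans (PfP.trans (PfP.trans (PfP.trans (PfP.trans (PfP.trans (PfP.trans (PfP.trans (PfP.trans (PfP.trans (PfP.trans (PfP.trans (PfP.trans (PfP.trans (PfP.trans (PfP.trans (PfP.trans (PfP.trans (PfP.trans (PfP.trans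 (PfP.trans (PfP.trans (PfP.trans (PfP.trans (PfP.trans (PfP.trans (PfP.trans (PfP.trans (PfP.trans (PfP.trans (PfP.trans (PfP.trans (PfP.trans (PfP.trans (PfP.trans (PfP.trans (PfP.trans (PfP.trans (PfP.trans (PfP.trans (PfP.trans (PfP.trans (PfP.trans (PfP.trans (PfP.trans (PfP.trans (PfP.trans (PfP.trans (PfP.trans (PfP.trans (PfP.trans (PfP.trans (PfP.trans (PfP.trans (PfP.trans (PfP.trans (PfP.trans (PfP.trans (PfP.trans (PfP.trans (PfP.trans
 (PfP.trans (PfP.trans (PfP.trans (PfP.trans (PfP.trans (PfP.trans (PfP.trans (PfP.trans (PfP.trans (PfP.trans (PfP.trans (pfC_sound p14_12_1_0) (pfC_sound p14_12_1_1)) (pfC_sound p14_12_1_2)) (pfC_sound p14_12_1_3)) (pfC_sound p14_12_1_4)) (pfC_sound p14_12_1_5)) (pfC_sound p14_12_1_6)) (pfC_sound p14_12_1_7)) (pfC_sound p14_12_1_8)) (pfC_sound p14_12_1_9)) (pfC_sound p14_12_1_10)) (pfC_sound p14_12_1_11)) (pfC_sound p14_12_1_12)) (pfC_sound p14_12_1_13)) (pfC_sound p14_12_1_14)) (pfC_sound p14_12_1_15)) (pfC_sound p14_12_1_16))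 (pfC_sound p14_12_1_17)) (pfC_sound p14_12_1_18)) (pfC_sound p14_12_1_19)) (pfC_sound p14_12_1_20)) (pfC_sound p14_12_1_21)) (pfC_sound p14_12_1_22)) (pfC_sound p14_12_1_23)) (pfC_sound p14_12_1_24)) (pfC_sound p14_12_1_25)) (pfC_sound p14_12_1_26)) (pfC_sound p14_12_1_27)) (pfC_sound p14_12_1_28)) (pfC_sound p14_12_1_29)) (pfC_sound p14_12_1_30)) (pfC_sound p14_12_1_31)) (pfC_sound p14_12_1_32)) (pfC_sound p14_12_1_33)) (pfC_sound p14_12_1_34)) (pfC_sound p14_12_1_35)) (pfC_sound p14_12_1_36)) (pfC_sound p14_12_1_37)) (pfC_sound p14_12_1_38)) (pfC_sound p14_12_1_39)) (pfC_sound p14_12_1_40)) (pfC_sound p14_12_1_41)) (pfC_sound p14_12_1_42)) (pfC_sound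
 p14_12_1_43)) (pfC_sound p14_12_1_44)) (pfC_sound p14_12_1_45)) (pfC_sound p14_12_1_46)) (pfC_sound p14_12_1_47)) (pfC_sound p14_12_1_48)) (pfC_sound p14_12_1_49)) (pfC_sound p14_12_1_50)) (pfC_sound p14_12_1_51)) (pfC_sound p14_12_1_52)) (pfC_sound p14_12_1_53)) (pfC_sound p14_12_1_54)) (pfC_sound p14_12_1_55)) (pfC_sound p14_12_1_56)) (pfC_sound p14_12_1_57)) (pfC_sound p14_12_1_58)) (pfC_sound p14_12_1_59)) (pfC_sound p14_12_1_60)) (pfC_sound p14_12_1_61)) (pfC_sound p14_12_1_62)) (pfC_sound p14_12_1_63)) (pfC_sound p14_12_1_64)) (pfC_sound p14_12_1_65)) (pfC_sound p14_12_1_66)) (pfC_sound p14_12_1_67)) (pfC_sound p14_12_1_68)) (pfC_sound p14_12_1_69)) (pfC_sound p14_12_1_70)) (pfC_sound p14_12_1_71)) (pfC_sound p14_12_1_72)) (pfC_sound p14_12_1_73)) (pfC_sound p14_12_1_74)) (pfC_sound p14_12_1_75)) (pfC_sound p14_12_1_76)) (pfC_sound p14_12_1_77)) (pfC_sound p14_12_1_78)) (pfC_sound p14_12_1_79)) (pfC_sound p14_12_1_80)) (pfC_sound p14_12_1_81)) (pfC_sound p14_12_1_82))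 (pfC_sound p14_12_1_83)) (pfC_sound p14_12_1_84)) (pfC_sound p14_12_1_85)) (pfC_sound p14_12_1_86)) (pfC_sound p14_12_1_87)) (pfC_sound p14_12_1_88)) (pfC_sound p14_12_1_89)) (pfC_sound p14_12_1_90)) (pfC_sound
 p14_12_1_91)) (pfC_sound p14_12_1_92)) (pfC_sound p14_12_1_93)) (pfC_sound p14_12_1_94)) (pfC_sound p14_12_1_95)) (pfC_sound p14_12_1_96)) (pfC_sound p14_12_1_97)) (pfC_sound p14_12_1_98)) (pfC_sound p14_12_1_99)) (pfC_sound p14_12_1_100)) (pfC_sound p14_12_1_101)) (pfC_sound p14_12_1_102)) (pfC_sound p14_12_1_103)) (pfC_sound p14_12_1_104)) (pfC_sound p14_12_1_105)) (pfC_sound p14_12_1_106)) (pfC_sound p14_12_1_107)) (pfC_sound p14_12_1_108)) (pfC_sound p14_12_1_109)) (pfC_sound p14_12_1_110)) (pfC_sound p14_12_1_111)) (pfC_sound p14_12_1_112)) (pfC_sound p14_12_1_113)) (pfC_sound p14_12_1_114)) (pfC_sound p14_12_1_115)) (pfC_sound p14_12_1_116)) (pfC_sound p14_12_1_117)) (pfC_sound p14_12_1_118)) (pfC_sound p14_12_1_119)) (pfC_sound p14_12_1_120)) (by decide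 +kernel)

def z14_12_1 : zOK yB14_12 (nat_lit 1) (nat_lit 400) (nat_lit 600) (nat_lit 10469692) (nat_lit 6891553) = true := by decide +kernel
def g14_12_1 : gOK yB14_12.x P14_12 (nat_lit 1425) (q14_12 :: r14_12) (nat_lit 1) (nat_lit 400) (nat_lit 2) (nat_lit 600) (nat_lit 11000000) (nat_lit 17850000) (nat_lit 12712500) (nat_lit 12712500) [(nat_lit 800), (nat_lit 1040)] = true := by decide +kernel
def v14_12_1 : ivC P14_12 s14_12 w14_12 n14_12 (nat_lit 4) (nat_lit 5020) (nat_lit 1) (nat_lit 400) f152_1_400 f160_1_400 (nat_lit 2) (nat_lit 600) f152_1_600 f160_1_600 (nat_lit 10469692) (nat_lit 6891553) p14_12_1 = true := by decide +kernel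
def p14_12_2 : PF := (PF.cons (PF.cons (PF.cons (PF.cons (PF.leaf (nat_lit 2712368) (nat_lit 15613723) (nat_lit 51495089) (nat_lit 15613723) [(nat_lit 0), (nat_lit 0), (nat_lit 0), (nat_lit 0)]) (PF.cons (PF.leaf (nat_lit 2859936) (nat_lit 254420) (nat_lit 51255153) (nat_lit 15599239) [(nat_lit 254420), (nat_lit 0), (nat_lit 0), (nat_lit 0)]) (PF.cons (PF.leaf (nat_lit 3034975) (nat_lit 276522) (nat_lit 50974559) (nat_lit 15581208) [(nat_lit 276522), (nat_lit 0), (nat_lit 0), (nat_lit 0)]) (PF.cons (PF.leaf (nat_lit 3231496) (nat_lit 296093) (nat_lit 50660840) (nat_lit 15559693) [(nat_lit 296093), (nat_lit 0), (nat_lit 0), (nat_lit 0)]) (PF.cons (PF.leaf (nat_lit 3446279) (nat_lit 313699) (nat_lit 50319327) (nat_lit 15534685) [(nat_lit 313699), (nat_lit 0), (nat_lit 0), (nat_lit 0)]) (PF.cons (PF.leaf (nat_lit 3677024) (nat_lit 329705) (nat_lit 49954130) (nat_lit 15506155) [(nat_lit 329705), (nat_lit 0), (nat_lit 0), (nat_lit 0)]) (PF.cons (PF.leaf (nat_lit 3921809)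 (nat_lit 344358) (nat_lit 49568585) (nat_lit 15474075) [(nat_lit 344358), (nat_lit 0), (nat_lit 0), (nat_lit 0)]) (PF.cons (PF.leaf (nat_lit 4179031) (nat_lit 357840) (nat_lit 49165499) (nat_lit 15438429) [(nat_lit 357840), (nat_lit 0),
 (nat_lit 0), (nat_lit 0)]) (PF.cons (PF.leaf (nat_lit 4447328) (nat_lit 370287) (nat_lit 48747292) (nat_lit 15399219) [(nat_lit 370287), (nat_lit 0), (nat_lit 0), (nat_lit 0)]) (PF.cons PF.nil PF.nil)))))))))) (PF.cons (PF.cons (PF.leaf (nat_lit 3234528) (nat_lit 1216203) (nat_lit 50358911) (nat_lit 15533697) [(nat_lit 0), (nat_lit 1216203), (nat_lit 0), (nat_lit 0)]) (PF.cons (PF.leaf (nat_lit 3425777) (nat_lit 306784) (nat_lit 50047219) (nat_lit 15509571) [(nat_lit 306784), (nat_lit 1245237), (nat_lit 0), (nat_lit 0)]) (PF.cons (PF.leaf (nat_lit 3637614) (nat_lit 323667) (nat_lit 49706179) (nat_lit 15481668) [(nat_lit 323667), (nat_lit 1273629), (nat_lit 0), (nat_lit 0)]) (PF.cons (PF.leaf (nat_lit 3866008) (nat_lit 338950) (nat_lit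 49340950) (nat_lit 15450076) [(nat_lit 338950), (nat_lit 1300936), (nat_lit 0), (nat_lit 0)]) (PF.cons (PF.leaf (nat_lit 4108714) (nat_lit 352906) (nat_lit 48955401) (nat_lit 15414844) [(nat_lit 352906), (nat_lit 1326939), (nat_lit 0), (nat_lit 0)]) (PF.cons (PF.leaf (nat_lit 4363940) (nat_lit 365727) (nat_lit 48552624) (nat_lit 15376015) [(nat_lit 365727), (nat_lit 1351535), (nat_lit 0), (nat_lit 0)]) (PF.cons (PF.leaf (nat_lit 4630219) (nat_lit
 377550) (nat_lit 48135190) (nat_lit 15333632) [(nat_lit 377550), (nat_lit 1374685), (nat_lit 0), (nat_lit 0)]) (PF.cons PF.nil (PF.cons PF.nil PF.nil))))))))) (PF.cons (PF.cons (PF.leaf (nat_lit 3832443) (nat_lit 1303713) (nat_lit 49079076) (nat_lit 15422308) [(nat_lit 0), (nat_lit 1303713), (nat_lit 0), (nat_lit 0)]) (PF.cons (PF.leaf (nat_lit 4056073) (nat_lit 346871) (nat_lit 48717773) (nat_lit 15388104) [(nat_lit 346871), (nat_lit 1328031), (nat_lit 0), (nat_lit 0)]) (PF.cons (PF.leaf (nat_lit 4295533) (nat_lit 360326)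 (nat_lit 48335246) (nat_lit 15350107) [(nat_lit 360326), (nat_lit 1351403), (nat_lit 0), (nat_lit 0)]) (PF.cons (PF.leaf (nat_lit 4547959) (nat_lit 372631) (nat_lit 47935187) (nat_lit 15308442) [(nat_lit 372631), (nat_lit 1373644), (nat_lit 0), (nat_lit 0)]) (PF.cons (PF.leaf (nat_lit 4811563) (nat_lit 383944) (nat_lit 47520499) (nat_lit 15263211) [(nat_lit 383944), (nat_lit 1394661), (nat_lit 0), (nat_lit 0)]) (PF.cons (PF.leaf (nat_lit 5085009) (nat_lit 394379) (nat_lit 47093567) (nat_lit 15214511) [(nat_lit 394379), (nat_lit 1414417), (nat_lit 0), (nat_lit 0)]) (PF.cons PF.nil PF.nil))))))) (PF.cons (PF.cons (PF.leaf (nat_lit 4483978) (nat_lit 1373490)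
 (nat_lit 47708420) (nat_lit 15279921) [(nat_lit 0), (nat_lit 1373490), (nat_lit 0), (nat_lit 0)]) (PF.cons (PF.leaf (nat_lit 4731817) (nat_lit 378602) (nat_lit 47313682) (nat_lit 15235836) [(nat_lit 378602), (nat_lit 1393564), (nat_lit 0), (nat_lit 0)]) (PF.cons (PF.leaf (nat_lit 4991980) (nat_lit 389516) (nat_lit 46903790) (nat_lit 15188125) [(nat_lit 389516), (nat_lit 1412621), (nat_lit 0), (nat_lit 0)]) (PF.cons (PF.leaf (nat_lit 5262201) (nat_lit 399543) (nat_lit 46481486) (nat_lit 15136942) [(nat_lit 399543), (nat_lit 1430584), (nat_lit 0), (nat_lit 0)]) (PF.cons PF.nil PF.nil))))) (PF.cons (PF.cons (PF.leaf (nat_lit 5172674) (nat_lit 1428759) (nat_lit 46285275) (nat_lit 15108497) [(nat_lit 0), (nat_lit 1428759), (nat_lit 0), (nat_lit 0)]) (PF.cons (PF.leaf (nat_lit 5438394) (nat_lit 404002) (nat_lit 45869373) (nat_lit 15055209) [(nat_lit 404002), (nat_lit 1445056), (nat_lit 0), (nat_lit 0)]) (PF.cons (PF.leaf (nat_lit 5713697) (nat_lit 412908) (nat_lit 45442967)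 (nat_lit 14998590) [(nat_lit 412908), (nat_lit 1460359), (nat_lit 0), (nat_lit 0)]) (PF.cons PF.nil PF.nil)))) (PF.cons (PF.cons (PF.leaf (nat_lit 5885662) (nat_lit 1471851) (nat_lit 44838470) (nat_lit 14911082)
 [(nat_lit 0), (nat_lit 1471851), (nat_lit 0), (nat_lit 0)]) (PF.cons (PF.leaf (nat_lit 6164209) (nat_lit 424333) (nat_lit 44410856) (nat_lit 14849577) [(nat_lit 424333), (nat_lit 1484809), (nat_lit 0), (nat_lit 0)]) PF.nil)) (PF.cons PF.nil (PF.cons PF.nil PF.nil)))))))) (PF.cons (PF.cons (PF.cons (PF.leaf (nat_lit 3767534) (nat_lit 3171952) (nat_lit 48582023) (nat_lit 15354836) [(nat_lit 0), (nat_lit 0), (nat_lit 3171952), (nat_lit 0)]) (PF.cons (PF.leaf (nat_lit 3967437) (nat_lit 328293) (nat_lit 48261550) (nat_lit 15322863) [(nat_lit 328293), (nat_lit 0), (nat_lit 3196105), (nat_lit 0)]) (PF.cons (PF.leaf (nat_lit 4186918) (nat_lit 344087) (nat_lit 47913621) (nat_lit 15286719) [(nat_lit 344087), (nat_lit 0), (nat_lit 3220296), (nat_lit 0)]) (PF.cons (PF.leaf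 (nat_lit 4421863) (nat_lit 358184) (nat_lit 47543645) (nat_lit 15246678) [(nat_lit 358184), (nat_lit 0), (nat_lit 3243936), (nat_lit 0)]) (PF.cons (PF.leaf (nat_lit 4670024) (nat_lit 370914) (nat_lit 47155587) (nat_lit 15202931) [(nat_lit 370914), (nat_lit 0), (nat_lit 3266638), (nat_lit 0)]) (PF.cons (PF.leaf (nat_lit 4929530) (nat_lit 382498) (nat_lit 46752542) (nat_lit 15155631) [(nat_lit 382498), (nat_lit 0), (nat_lit
 3288146), (nat_lit 0)]) (PF.cons (PF.leaf (nat_lit 5198922) (nat_lit 393096) (nat_lit 46337029) (nat_lit 15104911) [(nat_lit 393096), (nat_lit 0), (nat_lit 3308294), (nat_lit 0)]) (PF.cons PF.nil (PF.cons PF.nil PF.nil))))))))) (PF.cons (PF.cons (PF.leaf (nat_lit 4377585) (nat_lit 1355232) (nat_lit 47289985) (nat_lit 15214359) [(nat_lit 0), (nat_lit 1355232), (nat_lit 3249236), (nat_lit 0)]) (PF.cons (PF.leaf (nat_lit 4606790) (nat_lit 364120) (nat_lit 46926831) (nat_lit 15172382) [(nat_lit 364120), (nat_lit 1375685), (nat_lit 3269792), (nat_lit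 0)]) (PF.cons (PF.leaf (nat_lit 4850775) (nat_lit 376501) (nat_lit 46544426) (nat_lit 15126536) [(nat_lit 376501), (nat_lit 1395221), (nat_lit 3289626), (nat_lit 0)]) (PF.cons (PF.leaf (nat_lit 5106690) (nat_lit 387705) (nat_lit 46146486) (nat_lit 15077062) [(nat_lit 387705), (nat_lit 1413702), (nat_lit 3308446), (nat_lit 0)]) (PF.cons (PF.leaf (nat_lit 5372756) (nat_lit 397911) (nat_lit 45735880) (nat_lit 15024156) [(nat_lit 397911), (nat_lit 1431064), (nat_lit 3326063), (nat_lit 0)]) (PF.cons (PF.leaf (nat_lit 5647618) (nat_lit 407252) (nat_lit 45314921) (nat_lit 14967986) [(nat_lit 407252), (nat_lit 1447288), (nat_lit 3342355), (nat_lit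
 0)]) (PF.cons PF.nil PF.nil))))))) (PF.cons (PF.cons (PF.leaf (nat_lit 5033040) (nat_lit 1412054) (nat_lit 45929645) (nat_lit 15045491) [(nat_lit 0), (nat_lit 1412054), (nat_lit 3309566), (nat_lit 0)]) (PF.cons (PF.leaf (nat_lit 5283666) (nat_lit 392116) (nat_lit 45539043) (nat_lit 14994275) [(nat_lit 392116), (nat_lit 1428752), (nat_lit 3325872), (nat_lit 0)]) (PF.cons (PF.leaf (nat_lit 5545676) (nat_lit 402031) (nat_lit 45135065) (nat_lit 14939554) [(nat_lit 402031), (nat_lit 1444499), (nat_lit 3341131), (nat_lit 0)]) (PF.cons (PF.leaf (nat_lit 5816797) (nat_lit 411059) (nat_lit 44720388) (nat_lit 14881557) [(nat_lit 411059), (nat_lit 1459243), (nat_lit 3355202), (nat_lit 0)]) (PF.cons PF.nil PF.nil))))) (PF.cons (PF.cons (PF.leaf (nat_lit 5718877) (nat_lit 1456461) (nat_lit 44534525) (nat_lit 14851207) [(nat_lit 0), (nat_lit 1456461), (nat_lit 3353694), (nat_lit 0)]) (PF.cons (PF.leaf (nat_lit 5985023) (nat_lit 414259) (nat_lit 44127635) (nat_lit 14791752) [(nat_lit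 414259), (nat_lit 1469822), (nat_lit 3365697), (nat_lit 0)]) (PF.cons (PF.leaf (nat_lit 6259895) (nat_lit 422259) (nat_lit 43711732) (nat_lit 14729202) [(nat_lit 422259), (nat_lit 1482270), (nat_lit 3376547),
 (nat_lit 0)]) (PF.cons PF.nil PF.nil)))) (PF.cons (PF.cons (PF.leaf (nat_lit 6423584) (nat_lit 1490390) (nat_lit 43129222) (nat_lit 14634993) [(nat_lit 0), (nat_lit 1490390), (nat_lit 3383035), (nat_lit 0)]) (PF.cons PF.nil PF.nil)) (PF.cons PF.nil PF.nil)))))) (PF.cons (PF.cons (PF.cons (PF.leaf (nat_lit 4912029) (nat_lit 3293757) (nat_lit 45543666) (nat_lit 14977631) [(nat_lit 0), (nat_lit 0), (nat_lit 3293757), (nat_lit 0)]) (PF.cons (PF.leaf (nat_lit 5144822) (nat_lit 377768) (nat_lit 45183375) (nat_lit 14929228) [(nat_lit 377768), (nat_lit 0), (nat_lit 3309220), (nat_lit 0)]) (PF.cons (PF.leaf (nat_lit 5391486) (nat_lit 389192) (nat_lit 44805600) (nat_lit 14876970) [(nat_lit 389192), (nat_lit 0), (nat_lit 3323927), (nat_lit 0)]) (PF.cons (PF.leaf (nat_lit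 5649125) (nat_lit 399425) (nat_lit 44414018) (nat_lit 14821197) [(nat_lit 399425), (nat_lit 0), (nat_lit 3337660), (nat_lit 0)]) (PF.cons (PF.leaf (nat_lit 5916039) (nat_lit 408663) (nat_lit 44011425) (nat_lit 14762174) [(nat_lit 408663), (nat_lit 0), (nat_lit 3350278), (nat_lit 0)]) (PF.cons PF.nil (PF.cons PF.nil PF.nil))))))) (PF.cons (PF.cons (PF.leaf (nat_lit 5567058) (nat_lit 1439875) (nat_lit 44208106) (nat_lit
 14787548) [(nat_lit 0), (nat_lit 1439875), (nat_lit 3336641), (nat_lit 0)]) (PF.cons (PF.leaf (nat_lit 5818944) (nat_lit 402554) (nat_lit 43825236) (nat_lit 14730655) [(nat_lit 402554), (nat_lit 1453739), (nat_lit 3348313), (nat_lit 0)]) (PF.cons (PF.leaf (nat_lit 6081313) (nat_lit 411586) (nat_lit 43430513) (nat_lit 14670420) [(nat_lit 411586), (nat_lit 1466709), (nat_lit 3358997), (nat_lit 0)]) (PF.cons (PF.leaf (nat_lit 6352006) (nat_lit 419739) (nat_lit 43026528) (nat_lit 14607130) [(nat_lit 419739), (nat_lit 1478751), (nat_lit 3368592), (nat_lit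 0)]) (PF.cons PF.nil PF.nil))))) (PF.cons (PF.cons (PF.leaf (nat_lit 6246906) (nat_lit 1475269) (nat_lit 42851326) (nat_lit 14575624) [(nat_lit 0), (nat_lit 1475269), (nat_lit 3365662), (nat_lit 0)]) (PF.cons (PF.leaf (nat_lit 6512287) (nat_lit 421899) (nat_lit 42456028) (nat_lit 14511446) [(nat_lit 421899), (nat_lit 1486156), (nat_lit 3373563), (nat_lit 0)]) (PF.cons PF.nil (PF.cons PF.nil PF.nil)))) (PF.cons (PF.cons (PF.leaf (nat_lit 6941203) (nat_lit 1501562) (nat_lit 41494412) (nat_lit 14345514) [(nat_lit 0), (nat_lit 1501562), (nat_lit 3382099), (nat_lit 0)]) (PF.cons PF.nil PF.nil)) (PF.cons PF.nil PF.nil))))) (PF.cons (PF.cons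
 (PF.cons (PF.leaf (nat_lit 6084860) (nat_lit 3348024) (nat_lit 42552287) (nat_lit 14512453) [(nat_lit 0), (nat_lit 0), (nat_lit 3348024), (nat_lit 0)]) (PF.cons (PF.leaf (nat_lit 6336722) (nat_lit 410442) (nat_lit 42179643) (nat_lit 14451184) [(nat_lit 410442), (nat_lit 0), (nat_lit 3355847), (nat_lit 0)]) (PF.cons (PF.leaf (nat_lit 6598347) (nat_lit 418691) (nat_lit 41796456) (nat_lit 14386760) [(nat_lit 418691), (nat_lit 0), (nat_lit 3362738), (nat_lit 0)]) (PF.cons PF.nil PF.nil)))) (PF.cons (PF.cons (PF.leaf (nat_lit 6756350) (nat_lit 1486832) (nat_lit 41240629) (nat_lit 14287442) [(nat_lit 0), (nat_lit 1486832), (nat_lit 3364635), (nat_lit 0)]) (PF.cons (PF.leaf (nat_lit 7020047) (nat_lit 427365) (nat_lit 40858611) (nat_lit 14219790) [(nat_lit 427365), (nat_lit 1495625), (nat_lit 3369140), (nat_lit 0)]) PF.nil)) (PF.cons PF.nil PF.nil))) (PF.cons (PF.cons (PF.cons (PF.leaf (nat_lit 7247224) (nat_lit 3353207) (nat_lit 39704620) (nat_lit 13991361) [(nat_lit 0),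 (nat_lit 0), (nat_lit 3353207), (nat_lit 0)]) (PF.cons (PF.leaf (nat_lit 7508486) (nat_lit 431023) (nat_lit 39336900) (nat_lit 13921296) [(nat_lit 431023), (nat_lit 0), (nat_lit 3354898), (nat_lit 0)]) PF.nil)) (PF.cons
 PF.nil PF.nil)) (PF.cons PF.nil PF.nil)))))) (PF.cons (PF.cons (PF.cons (PF.cons (PF.leaf (nat_lit 4730756) (nat_lit 8941352) (nat_lit 43597265) (nat_lit 14570195) [(nat_lit 0), (nat_lit 0), (nat_lit 0), (nat_lit 8941352)]) (PF.cons (PF.leaf (nat_lit 4928651) (nat_lit 337704) (nat_lit 43310023) (nat_lit 14528706) [(nat_lit 337704), (nat_lit 0), (nat_lit 0), (nat_lit 8932378)]) (PF.cons (PF.leaf (nat_lit 5144750) (nat_lit 352482) (nat_lit 42999450) (nat_lit 14482823) [(nat_lit 352482), (nat_lit 0), (nat_lit 0), (nat_lit 8921573)]) (PF.cons (PF.leaf (nat_lit 5374906) (nat_lit 365428) (nat_lit 42670520) (nat_lit 14433088) [(nat_lit 365428), (nat_lit 0), (nat_lit 0), (nat_lit 8908918)]) (PF.cons (PF.leaf (nat_lit 5616829) (nat_lit 376919) (nat_lit 42326844)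 (nat_lit 14379888) [(nat_lit 376919), (nat_lit 0), (nat_lit 0), (nat_lit 8894401)]) (PF.cons (PF.leaf (nat_lit 5868693) (nat_lit 387211) (nat_lit 41971205) (nat_lit 14323525) [(nat_lit 387211), (nat_lit 0), (nat_lit 0), (nat_lit 8878023)]) (PF.cons (PF.leaf (nat_lit 6129063) (nat_lit 396489) (nat_lit 41605834) (nat_lit 14264246) [(nat_lit 396489), (nat_lit 0), (nat_lit 0), (nat_lit 8859796)]) (PF.cons PF.nil (PF.cons PF.nil
 PF.nil))))))))) (PF.cons (PF.cons (PF.leaf (nat_lit 5320132) (nat_lit 1366974) (nat_lit 42450975) (nat_lit 14395831) [(nat_lit 0), (nat_lit 1366974), (nat_lit 0), (nat_lit 8895031)]) (PF.cons (PF.leaf (nat_lit 5543742) (nat_lit 369395) (nat_lit 42129868) (nat_lit 14345427) [(nat_lit 369395), (nat_lit 1383324), (nat_lit 0), (nat_lit 8880796)]) (PF.cons (PF.leaf (nat_lit 5780760) (nat_lit 380616) (nat_lit 41792865) (nat_lit 14291369) [(nat_lit 380616), (nat_lit 1398679), (nat_lit 0), (nat_lit 8864665)]) (PF.cons (PF.leaf (nat_lit 6028338) (nat_lit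 390607) (nat_lit 41443291) (nat_lit 14234055) [(nat_lit 390607), (nat_lit 1412970), (nat_lit 0), (nat_lit 8846672)]) (PF.cons (PF.leaf (nat_lit 6284806) (nat_lit 399575) (nat_lit 41083681) (nat_lit 14173794) [(nat_lit 399575), (nat_lit 1426180), (nat_lit 0), (nat_lit 8826853)]) (PF.cons (PF.leaf (nat_lit 6548831) (nat_lit 407669) (nat_lit 40716053) (nat_lit 14110838) [(nat_lit 407669), (nat_lit 1438325), (nat_lit 0), (nat_lit 8805249)]) (PF.cons PF.nil PF.nil))))))) (PF.cons (PF.cons (PF.leaf (nat_lit 5946047) (nat_lit 1409553) (nat_lit 41257772) (nat_lit 14199812) [(nat_lit 0), (nat_lit 1409553), (nat_lit 0), (nat_lit 8832121)]) (PF.cons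
 (PF.leaf (nat_lit 6187878) (nat_lit 393329) (nat_lit 40915989) (nat_lit 14141945) [(nat_lit 393329), (nat_lit 1422402), (nat_lit 0), (nat_lit 8812742)]) (PF.cons (PF.leaf (nat_lit 6439822) (nat_lit 402083) (nat_lit 40563434) (nat_lit 14081028) [(nat_lit 402083), (nat_lit 1434323), (nat_lit 0), (nat_lit 8791535)]) (PF.cons (PF.leaf (nat_lit 6699735) (nat_lit 409942) (nat_lit 40202442) (nat_lit 14017375) [(nat_lit 409942), (nat_lit 1445301), (nat_lit 0), (nat_lit 8768564)]) (PF.cons PF.nil PF.nil))))) (PF.cons (PF.cons (PF.leaf (nat_lit 6595252) (nat_lit 1441357) (nat_lit 40044834) (nat_lit 13985982) [(nat_lit 0), (nat_lit 1441357), (nat_lit 0), (nat_lit 8753925)]) (PF.cons (PF.leaf (nat_lit 6849925) (nat_lit 411716) (nat_lit 39691611) (nat_lit 13921942) [(nat_lit 411716), (nat_lit 1451252), (nat_lit 0), (nat_lit 8729784)]) (PF.cons (PF.leaf (nat_lit 7112282) (nat_lit 418626) (nat_lit 39331297) (nat_lit 13855373) [(nat_lit 418626), (nat_lit 1460309), (nat_lit 0),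 (nat_lit 8703958)]) (PF.cons PF.nil PF.nil)))) (PF.cons (PF.cons (PF.leaf (nat_lit 7258031) (nat_lit 1464399) (nat_lit 38831173) (nat_lit 13757847) [(nat_lit 0), (nat_lit 1464399), (nat_lit 0), (nat_lit 8662192)]) (PF.cons
 PF.nil PF.nil)) (PF.cons PF.nil PF.nil)))))) (PF.cons (PF.cons (PF.cons (PF.leaf (nat_lit 5811129) (nat_lit 3243709) (nat_lit 40938092) (nat_lit 14131533) [(nat_lit 0), (nat_lit 0), (nat_lit 3243709), (nat_lit 8795477)]) (PF.cons (PF.leaf (nat_lit 6036457) (nat_lit 378826) (nat_lit 40622685) (nat_lit 14077434) [(nat_lit 378826), (nat_lit 0), (nat_lit 3252728), (nat_lit 8777137)]) (PF.cons (PF.leaf (nat_lit 6274428) (nat_lit 389184) (nat_lit 40292800) (nat_lit 14019785) [(nat_lit 389184), (nat_lit 0), (nat_lit 3260967), (nat_lit 8756890)]) (PF.cons (PF.leaf (nat_lit 6522197) (nat_lit 398323) (nat_lit 39951674) (nat_lit 13959039) [(nat_lit 398323), (nat_lit 0), (nat_lit 3268295), (nat_lit 8734830)]) (PF.cons (PF.leaf (nat_lit 6778126) (nat_lit 406461)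 (nat_lit 39601745) (nat_lit 13895541) [(nat_lit 406461), (nat_lit 0), (nat_lit 3274640), (nat_lit 8711038)]) (PF.cons PF.nil (PF.cons PF.nil PF.nil))))))) (PF.cons (PF.cons (PF.leaf (nat_lit 6433257) (nat_lit 1424368) (nat_lit 39776552) (nat_lit 13924269) [(nat_lit 0), (nat_lit 1424368), (nat_lit 3264734), (nat_lit 8718887)]) (PF.cons (PF.leaf (nat_lit 6674963) (nat_lit 400065) (nat_lit 39443948) (nat_lit 13863402) [(nat_lit 400065),
 (nat_lit 1434995), (nat_lit 3270585), (nat_lit 8695816)]) (PF.cons (PF.leaf (nat_lit 6926105) (nat_lit 408064) (nat_lit 39101718) (nat_lit 13799658) [(nat_lit 408064), (nat_lit 1444761), (nat_lit 3275549), (nat_lit 8670995)]) (PF.cons (PF.leaf (nat_lit 7184570) (nat_lit 415188) (nat_lit 38752099) (nat_lit 13733380) [(nat_lit 415188), (nat_lit 1453664), (nat_lit 3279579), (nat_lit 8644522)]) (PF.cons PF.nil PF.nil))))) (PF.cons (PF.cons (PF.leaf (nat_lit 7074650) (nat_lit 1449345) (nat_lit 38604092) (nat_lit 13701960) [(nat_lit 0), (nat_lit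 1449345), (nat_lit 3275008), (nat_lit 8629061)]) (PF.cons (PF.leaf (nat_lit 7327680) (nat_lit 416187) (nat_lit 38262655) (nat_lit 13635668) [(nat_lit 416187), (nat_lit 1457348), (nat_lit 3277849), (nat_lit 8601753)]) (PF.cons PF.nil (PF.cons PF.nil PF.nil)))) (PF.cons (PF.cons (PF.leaf (nat_lit 7726500) (nat_lit 1466725) (nat_lit 37437042) (nat_lit 13468001) [(nat_lit 0), (nat_lit 1466725), (nat_lit 3275789), (nat_lit 8527802)]) (PF.cons PF.nil PF.nil)) (PF.cons PF.nil PF.nil))))) (PF.cons (PF.cons (PF.cons (PF.leaf (nat_lit 6905302) (nat_lit 3256764) (nat_lit 38358675) (nat_lit 13642308) [(nat_lit 0), (nat_lit 0), (nat_lit 3256764), (nat_lit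
 8594299)]) (PF.cons (PF.leaf (nat_lit 7146066) (nat_lit 404928) (nat_lit 38036528) (nat_lit 13579299) [(nat_lit 404928), (nat_lit 0), (nat_lit 3259891), (nat_lit 8568273)]) (PF.cons (PF.leaf (nat_lit 7395675) (nat_lit 412259) (nat_lit 37705742) (nat_lit 13513589) [(nat_lit 412259), (nat_lit 0), (nat_lit 3262188), (nat_lit 8540583)]) (PF.cons PF.nil (PF.cons PF.nil PF.nil))))) (PF.cons (PF.cons (PF.leaf (nat_lit 7537486) (nat_lit 1452326) (nat_lit 37229706) (nat_lit 13414412) [(nat_lit 0), (nat_lit 1452326), (nat_lit 3258484), (nat_lit 8495399)]) (PF.cons (PF.leaf (nat_lit 7788313) (nat_lit 419093) (nat_lit 36900791) (nat_lit 13346659) [(nat_lit 419093), (nat_lit 1458728), (nat_lit 3258960), (nat_lit 8465618)]) (PF.cons PF.nil (PF.cons PF.nil PF.nil)))) (PF.cons (PF.cons (PF.leaf (nat_lit 8177607) (nat_lit 1464966) (nat_lit 36110611) (nat_lit 13177177) [(nat_lit 0), (nat_lit 1464966), (nat_lit 3252089), (nat_lit 8386910)]) (PF.cons PF.nil PF.nil)) PF.nil))) (PF.cons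 (PF.cons (PF.cons (PF.leaf (nat_lit 7984084) (nat_lit 3235345) (nat_lit 35921233) (nat_lit 13126054) [(nat_lit 0), (nat_lit 0), (nat_lit 3235345), (nat_lit 8355489)]) (PF.cons (PF.leaf (nat_lit 8232211) (nat_lit 420696)
 (nat_lit 35605198) (nat_lit 13057496) [(nat_lit 420696), (nat_lit 0), (nat_lit 3233866), (nat_lit 8323821)]) PF.nil)) (PF.cons PF.nil PF.nil)) (PF.cons PF.nil PF.nil))))) (PF.cons (PF.cons (PF.cons (PF.cons (PF.leaf (nat_lit 6604499) (nat_lit 8384628) (nat_lit 37043427) (nat_lit 13296129) [(nat_lit 0), (nat_lit 0), (nat_lit 0), (nat_lit 8384628)]) (PF.cons (PF.leaf (nat_lit 6821546) (nat_lit 374708) (nat_lit 36768707) (nat_lit 13241089) [(nat_lit 374708), (nat_lit 0), (nat_lit 0), (nat_lit 8362153)]) (PF.cons (PF.leaf (nat_lit 7050276) (nat_lit 384183) (nat_lit 36481830) (nat_lit 13182831) [(nat_lit 384183), (nat_lit 0), (nat_lit 0), (nat_lit 8337892)]) (PF.cons (PF.leaf (nat_lit 7287882) (nat_lit 392444) (nat_lit 36185617) (nat_lit 13121847) [(nat_lit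 392444), (nat_lit 0), (nat_lit 0), (nat_lit 8312007)]) (PF.cons (PF.leaf (nat_lit 7532794) (nat_lit 399717) (nat_lit 35882173) (nat_lit 13058507) [(nat_lit 399717), (nat_lit 0), (nat_lit 0), (nat_lit 8284630)]) (PF.cons PF.nil (PF.cons PF.nil PF.nil))))))) (PF.cons (PF.cons (PF.leaf (nat_lit 7194978) (nat_lit 1393714) (nat_lit 36036775) (nat_lit 13088185) [(nat_lit 0), (nat_lit 1393714), (nat_lit 0), (nat_lit 8295068)]) (PF.cons
 (PF.leaf (nat_lit 7426463) (nat_lit 393247) (nat_lit 35748397) (nat_lit 13027632) [(nat_lit 393247), (nat_lit 1402061), (nat_lit 0), (nat_lit 8268736)]) (PF.cons (PF.leaf (nat_lit 7666528) (nat_lit 400435) (nat_lit 35452020) (nat_lit 12964584) [(nat_lit 400435), (nat_lit 1409594), (nat_lit 0), (nat_lit 8240870)]) (PF.cons PF.nil (PF.cons PF.nil PF.nil))))) (PF.cons (PF.cons (PF.leaf (nat_lit 7801054) (nat_lit 1411619) (nat_lit 35024275) (nat_lit 12869566) [(nat_lit 0), (nat_lit 1411619), (nat_lit 0), (nat_lit 8195866)]) (PF.cons (PF.leaf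 (nat_lit 8042307) (nat_lit 407002) (nat_lit 34729177) (nat_lit 12804835) [(nat_lit 407002), (nat_lit 1417642), (nat_lit 0), (nat_lit 8166256)]) (PF.cons PF.nil (PF.cons PF.nil PF.nil)))) (PF.cons (PF.cons (PF.leaf (nat_lit 8415082) (nat_lit 1423086) (nat_lit 34018863) (nat_lit 12643300) [(nat_lit 0), (nat_lit 1423086), (nat_lit 0), (nat_lit 8088695)]) (PF.cons PF.nil PF.nil)) (PF.cons PF.nil PF.nil))))) (PF.cons (PF.cons (PF.cons (PF.leaf (nat_lit 7628581) (nat_lit 3145960) (nat_lit 34821854) (nat_lit 12815186) [(nat_lit 0), (nat_lit 0), (nat_lit 3145960), (nat_lit 8162905)]) (PF.cons (PF.leaf (nat_lit 7858629) (nat_lit 396135) (nat_lit 34543122)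
 (nat_lit 12753760) [(nat_lit 396135), (nat_lit 0), (nat_lit 3146174), (nat_lit 8134809)]) (PF.cons (PF.leaf (nat_lit 8096811) (nat_lit 402747) (nat_lit 34257151) (nat_lit 12689994) [(nat_lit 402747), (nat_lit 0), (nat_lit 3145648), (nat_lit 8105261)]) (PF.cons PF.nil PF.nil)))) (PF.cons (PF.cons (PF.leaf (nat_lit 8225404) (nat_lit 1409385) (nat_lit 33848324) (nat_lit 12595109) [(nat_lit 0), (nat_lit 1409385), (nat_lit 3138750), (nat_lit 8058621)]) (PF.cons (PF.leaf (nat_lit 8464235) (nat_lit 408276) (nat_lit 33564333) (nat_lit 12530019) [(nat_lit 408276), (nat_lit 1414152), (nat_lit 3136798), (nat_lit 8027615)]) PF.nil)) (PF.cons PF.nil PF.nil))) (PF.cons (PF.cons (PF.cons (PF.leaf (nat_lit 8635600) (nat_lit 3109527) (nat_lit 32728638) (nat_lit 12323379) [(nat_lit 0), (nat_lit 0), (nat_lit 3109527), (nat_lit 7918869)]) (PF.cons PF.nil PF.nil)) (PF.cons PF.nil PF.nil)) PF.nil))) (PF.cons (PF.cons (PF.cons (PF.cons (PF.leaf (nat_lit 8275348) (nat_lit 7745971) (nat_lit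 31821570) (nat_lit 12049326) [(nat_lit 0), (nat_lit 0), (nat_lit 0), (nat_lit 7745971)]) (PF.cons (PF.leaf (nat_lit 8495324) (nat_lit 385686) (nat_lit 31579400) (nat_lit 11991022) [(nat_lit 385686), (nat_lit 0),
 (nat_lit 0), (nat_lit 7717567)]) (PF.cons (PF.leaf (nat_lit 8722857) (nat_lit 391719) (nat_lit 31331058) (nat_lit 11930668) [(nat_lit 391719), (nat_lit 0), (nat_lit 0), (nat_lit 7687882)]) (PF.cons PF.nil PF.nil)))) (PF.cons (PF.cons (PF.leaf (nat_lit 8840562) (nat_lit 1362956) (nat_lit 30978063) (nat_lit 11841811) [(nat_lit 0), (nat_lit 1362956), (nat_lit 0), (nat_lit 7641993)]) (PF.cons PF.nil PF.nil)) (PF.cons PF.nil PF.nil))) (PF.cons (PF.cons (PF.cons (PF.leaf (nat_lit 9220431) (nat_lit 2983536) (nat_lit 30013750) (nat_lit 11589903) [(nat_lit 0), (nat_lit 0), (nat_lit 2983536), (nat_lit 7507207)]) (PF.cons PF.nil PF.nil)) PF.nil) PF.nil)) (PF.cons PF.nil (PF.cons PF.nil (PF.cons PF.nil (PF.cons PF.nil PF.nil))))))))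

def p14_12_2_0 : pfC (piC [(nat_lit 40173837), (nat_lit 25770221), (nat_lit 19310217), (nat_lit 12946273)] (nat_lit 6891553)) p14_12_2 (nat_lit 4) (nat_lit 0) (nat_lit 1) = true := by decide +kernel
def p14_12_2_1 : pfC (piC [(nat_lit 40173837), (nat_lit 25770221), (nat_lit 19310217), (nat_lit 12946273)] (nat_lit 6891553)) p14_12_2 (nat_lit 4) (nat_lit 1) (nat_lit 2) = true := by decide +kernel
def p14_12_2_2 : pfC (piC [(nat_lit 40173837), (nat_lit 25770221), (nat_lit 19310217), (nat_lit 12946273)] (nat_lit 6891553)) p14_12_2 (nat_lit 4) (nat_lit 2) (nat_lit 3) = true := by decide +kernel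
def p14_12_2_3 : pfC (piC [(nat_lit 40173837), (nat_lit 25770221), (nat_lit 19310217), (nat_lit 12946273)] (nat_lit 6891553)) p14_12_2 (nat_lit 4) (nat_lit 3) (nat_lit 4) = true := by decide +kernel
def p14_12_2_4 : pfC (piC [(nat_lit 40173837), (nat_lit 25770221), (nat_lit 19310217), (nat_lit 12946273)] (nat_lit 6891553)) p14_12_2 (nat_lit 4) (nat_lit 4) (nat_lit 5) = true := by decide +kernel
def p14_12_2_5 : pfC (piC [(nat_lit 40173837), (nat_lit 25770221), (nat_lit 19310217), (nat_lit 12946273)] (nat_lit 6891553)) p14_12_2 (nat_lit 4) (nat_lit 5) (nat_lit 6) = true := by decide +kernel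
def p14_12_2_6 : pfC (piC [(nat_lit 40173837), (nat_lit 25770221), (nat_lit 19310217), (nat_lit 12946273)] (nat_lit 6891553)) p14_12_2 (nat_lit 4) (nat_lit 6) (nat_lit 7) = true := by decide +kernel
def p14_12_2_7 : pfC (piC [(nat_lit 40173837), (nat_lit 25770221), (nat_lit 19310217), (nat_lit 12946273)] (nat_lit 6891553)) p14_12_2 (nat_lit 4) (nat_lit 7) (nat_lit 8) = true := by decide +kernel
def p14_12_2_8 : pfC (piC [(nat_lit 40173837), (nat_lit 25770221), (nat_lit 19310217), (nat_lit 12946273)] (nat_lit 6891553)) p14_12_2 (nat_lit 4) (nat_lit 8) (nat_lit 9) = true := by decide +kernel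
def p14_12_2_9 : pfC (piC [(nat_lit 40173837), (nat_lit 25770221), (nat_lit 19310217), (nat_lit 12946273)] (nat_lit 6891553)) p14_12_2 (nat_lit 4) (nat_lit 9) (nat_lit 10) = true := by decide +kernel
def p14_12_2_10 : pfC (piC [(nat_lit 40173837), (nat_lit 25770221), (nat_lit 19310217), (nat_lit 12946273)] (nat_lit 6891553)) p14_12_2 (nat_lit 4) (nat_lit 10) (nat_lit 11) = true := by decide +kernel
def p14_12_2_11 : pfC (piC [(nat_lit 40173837), (nat_lit 25770221), (nat_lit 19310217), (nat_lit 12946273)] (nat_lit 6891553)) p14_12_2 (nat_lit 4) (nat_lit 11) (nat_lit 12) = true := by decide +kernel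
def p14_12_2_12 : pfC (piC [(nat_lit 40173837), (nat_lit 25770221), (nat_lit 19310217), (nat_lit 12946273)] (nat_lit 6891553)) p14_12_2 (nat_lit 4) (nat_lit 12) (nat_lit 13) = true := by decide +kernel
def p14_12_2_13 : pfC (piC [(nat_lit 40173837), (nat_lit 25770221), (nat_lit 19310217), (nat_lit 12946273)] (nat_lit 6891553)) p14_12_2 (nat_lit 4) (nat_lit 13) (nat_lit 14) = true := by decide +kernel
def p14_12_2_14 : pfC (piC [(nat_lit 40173837), (nat_lit 25770221), (nat_lit 19310217), (nat_lit 12946273)] (nat_lit 6891553)) p14_12_2 (nat_lit 4) (nat_lit 14) (nat_lit 15) = true := by decide +kernel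
def p14_12_2_15 : pfC (piC [(nat_lit 40173837), (nat_lit 25770221), (nat_lit 19310217), (nat_lit 12946273)] (nat_lit 6891553)) p14_12_2 (nat_lit 4) (nat_lit 15) (nat_lit 16) = true := by decide +kernel
def p14_12_2_16 : pfC (piC [(nat_lit 40173837), (nat_lit 25770221), (nat_lit 19310217), (nat_lit 12946273)] (nat_lit 6891553)) p14_12_2 (nat_lit 4) (nat_lit 16) (nat_lit 17) = true := by decide +kernel
def p14_12_2_17 : pfC (piC [(nat_lit 40173837), (nat_lit 25770221), (nat_lit 19310217), (nat_lit 12946273)] (nat_lit 6891553)) p14_12_2 (nat_lit 4) (nat_lit 17) (nat_lit 18) = true := by decide +kernel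
def p14_12_2_18 : pfC (piC [(nat_lit 40173837), (nat_lit 25770221), (nat_lit 19310217), (nat_lit 12946273)] (nat_lit 6891553)) p14_12_2 (nat_lit 4) (nat_lit 18) (nat_lit 19) = true := by decide +kernel
def p14_12_2_19 : pfC (piC [(nat_lit 40173837), (nat_lit 25770221), (nat_lit 19310217), (nat_lit 12946273)] (nat_lit 6891553)) p14_12_2 (nat_lit 4) (nat_lit 19) (nat_lit 20) = true := by decide +kernel
def p14_12_2_20 : pfC (piC [(nat_lit 40173837), (nat_lit 25770221), (nat_lit 19310217), (nat_lit 12946273)] (nat_lit 6891553)) p14_12_2 (nat_lit 4) (nat_lit 20) (nat_lit 21) = true := by decide +kernel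
def p14_12_2_21 : pfC (piC [(nat_lit 40173837), (nat_lit 25770221), (nat_lit 19310217), (nat_lit 12946273)] (nat_lit 6891553)) p14_12_2 (nat_lit 4) (nat_lit 21) (nat_lit 22) = true := by decide +kernel
def p14_12_2_22 : pfC (piC [(nat_lit 40173837), (nat_lit 25770221), (nat_lit 19310217), (nat_lit 12946273)] (nat_lit 6891553)) p14_12_2 (nat_lit 4) (nat_lit 22) (nat_lit 23) = true := by decide +kernel
def p14_12_2_23 : pfC (piC [(nat_lit 40173837), (nat_lit 25770221), (nat_lit 19310217), (nat_lit 12946273)] (nat_lit 6891553)) p14_12_2 (nat_lit 4) (nat_lit 23) (nat_lit 24) = true := by decide +kernel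
def p14_12_2_24 : pfC (piC [(nat_lit 40173837), (nat_lit 25770221), (nat_lit 19310217), (nat_lit 12946273)] (nat_lit 6891553)) p14_12_2 (nat_lit 4) (nat_lit 24) (nat_lit 25) = true := by decide +kernel
def p14_12_2_25 : pfC (piC [(nat_lit 40173837), (nat_lit 25770221), (nat_lit 19310217), (nat_lit 12946273)] (nat_lit 6891553)) p14_12_2 (nat_lit 4) (nat_lit 25) (nat_lit 26) = true := by decide +kernel
def p14_12_2_26 : pfC (piC [(nat_lit 40173837), (nat_lit 25770221), (nat_lit 19310217), (nat_lit 12946273)] (nat_lit 6891553)) p14_12_2 (nat_lit 4) (nat_lit 26) (nat_lit 27) = true := by decide +kernel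
def p14_12_2_27 : pfC (piC [(nat_lit 40173837), (nat_lit 25770221), (nat_lit 19310217), (nat_lit 12946273)] (nat_lit 6891553)) p14_12_2 (nat_lit 4) (nat_lit 27) (nat_lit 28) = true := by decide +kernel
def p14_12_2_28 : pfC (piC [(nat_lit 40173837), (nat_lit 25770221), (nat_lit 19310217), (nat_lit 12946273)] (nat_lit 6891553)) p14_12_2 (nat_lit 4) (nat_lit 28) (nat_lit 29) = true := by decide +kernel
def p14_12_2_29 : pfC (piC [(nat_lit 40173837), (nat_lit 25770221), (nat_lit 19310217), (nat_lit 12946273)] (nat_lit 6891553)) p14_12_2 (nat_lit 4) (nat_lit 29) (nat_lit 30) = true := by decide +kernel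
def p14_12_2_30 : pfC (piC [(nat_lit 40173837), (nat_lit 25770221), (nat_lit 19310217), (nat_lit 12946273)] (nat_lit 6891553)) p14_12_2 (nat_lit 4) (nat_lit 30) (nat_lit 31) = true := by decide +kernel
def p14_12_2_31 : pfC (piC [(nat_lit 40173837), (nat_lit 25770221), (nat_lit 19310217), (nat_lit 12946273)] (nat_lit 6891553)) p14_12_2 (nat_lit 4) (nat_lit 31) (nat_lit 32) = true := by decide +kernel
def p14_12_2_32 : pfC (piC [(nat_lit 40173837), (nat_lit 25770221), (nat_lit 19310217), (nat_lit 12946273)] (nat_lit 6891553)) p14_12_2 (nat_lit 4) (nat_lit 32) (nat_lit 33) = true := by decide +kernel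
def p14_12_2_33 : pfC (piC [(nat_lit 40173837), (nat_lit 25770221), (nat_lit 19310217), (nat_lit 12946273)] (nat_lit 6891553)) p14_12_2 (nat_lit 4) (nat_lit 33) (nat_lit 34) = true := by decide +kernel
def p14_12_2_34 : pfC (piC [(nat_lit 40173837), (nat_lit 25770221), (nat_lit 19310217), (nat_lit 12946273)] (nat_lit 6891553)) p14_12_2 (nat_lit 4) (nat_lit 34) (nat_lit 35) = true := by decide +kernel
def p14_12_2_35 : pfC (piC [(nat_lit 40173837), (nat_lit 25770221), (nat_lit 19310217), (nat_lit 12946273)] (nat_lit 6891553)) p14_12_2 (nat_lit 4) (nat_lit 35) (nat_lit 36) = true := by decide +kernel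
def p14_12_2_36 : pfC (piC [(nat_lit 40173837), (nat_lit 25770221), (nat_lit 19310217), (nat_lit 12946273)] (nat_lit 6891553)) p14_12_2 (nat_lit 4) (nat_lit 36) (nat_lit 37) = true := by decide +kernel
def p14_12_2_37 : pfC (piC [(nat_lit 40173837), (nat_lit 25770221), (nat_lit 19310217), (nat_lit 12946273)] (nat_lit 6891553)) p14_12_2 (nat_lit 4) (nat_lit 37) (nat_lit 38) = true := by decide +kernel
def p14_12_2_38 : pfC (piC [(nat_lit 40173837), (nat_lit 25770221), (nat_lit 19310217), (nat_lit 12946273)] (nat_lit 6891553)) p14_12_2 (nat_lit 4) (nat_lit 38) (nat_lit 39) = true := by decide +kernel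
def p14_12_2_39 : pfC (piC [(nat_lit 40173837), (nat_lit 25770221), (nat_lit 19310217), (nat_lit 12946273)] (nat_lit 6891553)) p14_12_2 (nat_lit 4) (nat_lit 39) (nat_lit 40) = true := by decide +kernel
def p14_12_2_40 : pfC (piC [(nat_lit 40173837), (nat_lit 25770221), (nat_lit 19310217), (nat_lit 12946273)] (nat_lit 6891553)) p14_12_2 (nat_lit 4) (nat_lit 40) (nat_lit 41) = true := by decide +kernel
def p14_12_2_41 : pfC (piC [(nat_lit 40173837), (nat_lit 25770221), (nat_lit 19310217), (nat_lit 12946273)] (nat_lit 6891553)) p14_12_2 (nat_lit 4) (nat_lit 41) (nat_lit 42) = true := by decide +kernel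
def p14_12_2_42 : pfC (piC [(nat_lit 40173837), (nat_lit 25770221), (nat_lit 19310217), (nat_lit 12946273)] (nat_lit 6891553)) p14_12_2 (nat_lit 4) (nat_lit 42) (nat_lit 43) = true := by decide +kernel
def p14_12_2_43 : pfC (piC [(nat_lit 40173837), (nat_lit 25770221), (nat_lit 19310217), (nat_lit 12946273)] (nat_lit 6891553)) p14_12_2 (nat_lit 4) (nat_lit 43) (nat_lit 44) = true := by decide +kernel
def p14_12_2_44 : pfC (piC [(nat_lit 40173837), (nat_lit 25770221), (nat_lit 19310217), (nat_lit 12946273)] (nat_lit 6891553)) p14_12_2 (nat_lit 4) (nat_lit 44) (nat_lit 45) = true := by decide +kernel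
def p14_12_2_45 : pfC (piC [(nat_lit 40173837), (nat_lit 25770221), (nat_lit 19310217), (nat_lit 12946273)] (nat_lit 6891553)) p14_12_2 (nat_lit 4) (nat_lit 45) (nat_lit 46) = true := by decide +kernel
def p14_12_2_46 : pfC (piC [(nat_lit 40173837), (nat_lit 25770221), (nat_lit 19310217), (nat_lit 12946273)] (nat_lit 6891553)) p14_12_2 (nat_lit 4) (nat_lit 46) (nat_lit 47) = true := by decide +kernel
def p14_12_2_47 : pfC (piC [(nat_lit 40173837), (nat_lit 25770221), (nat_lit 19310217), (nat_lit 12946273)] (nat_lit 6891553)) p14_12_2 (nat_lit 4) (nat_lit 47) (nat_lit 48) = true := by decide +kernel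
def p14_12_2_48 : pfC (piC [(nat_lit 40173837), (nat_lit 25770221), (nat_lit 19310217), (nat_lit 12946273)] (nat_lit 6891553)) p14_12_2 (nat_lit 4) (nat_lit 48) (nat_lit 49) = true := by decide +kernel
def p14_12_2_49 : pfC (piC [(nat_lit 40173837), (nat_lit 25770221), (nat_lit 19310217), (nat_lit 12946273)] (nat_lit 6891553)) p14_12_2 (nat_lit 4) (nat_lit 49) (nat_lit 50) = true := by decide +kernel
def p14_12_2_50 : pfC (piC [(nat_lit 40173837), (nat_lit 25770221), (nat_lit 19310217), (nat_lit 12946273)] (nat_lit 6891553)) p14_12_2 (nat_lit 4) (nat_lit 50) (nat_lit 51) = true := by decide +kernel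
def p14_12_2_51 : pfC (piC [(nat_lit 40173837), (nat_lit 25770221), (nat_lit 19310217), (nat_lit 12946273)] (nat_lit 6891553)) p14_12_2 (nat_lit 4) (nat_lit 51) (nat_lit 52) = true := by decide +kernel
def p14_12_2_52 : pfC (piC [(nat_lit 40173837), (nat_lit 25770221), (nat_lit 19310217), (nat_lit 12946273)] (nat_lit 6891553)) p14_12_2 (nat_lit 4) (nat_lit 52) (nat_lit 53) = true := by decide +kernel
def p14_12_2_53 : pfC (piC [(nat_lit 40173837), (nat_lit 25770221), (nat_lit 19310217), (nat_lit 12946273)] (nat_lit 6891553)) p14_12_2 (nat_lit 4) (nat_lit 53) (nat_lit 54) = true := by decide +kernel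
def p14_12_2_54 : pfC (piC [(nat_lit 40173837), (nat_lit 25770221), (nat_lit 19310217), (nat_lit 12946273)] (nat_lit 6891553)) p14_12_2 (nat_lit 4) (nat_lit 54) (nat_lit 55) = true := by decide +kernel
def p14_12_2_55 : pfC (piC [(nat_lit 40173837), (nat_lit 25770221), (nat_lit 19310217), (nat_lit 12946273)] (nat_lit 6891553)) p14_12_2 (nat_lit 4) (nat_lit 55) (nat_lit 56) = true := by decide +kernel
def p14_12_2_56 : pfC (piC [(nat_lit 40173837), (nat_lit 25770221), (nat_lit 19310217), (nat_lit 12946273)] (nat_lit 6891553)) p14_12_2 (nat_lit 4) (nat_lit 56) (nat_lit 57) = true := by decide +kernel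
def p14_12_2_57 : pfC (piC [(nat_lit 40173837), (nat_lit 25770221), (nat_lit 19310217), (nat_lit 12946273)] (nat_lit 6891553)) p14_12_2 (nat_lit 4) (nat_lit 57) (nat_lit 58) = true := by decide +kernel
def p14_12_2_58 : pfC (piC [(nat_lit 40173837), (nat_lit 25770221), (nat_lit 19310217), (nat_lit 12946273)] (nat_lit 6891553)) p14_12_2 (nat_lit 4) (nat_lit 58) (nat_lit 59) = true := by decide +kernel
def p14_12_2_59 : pfC (piC [(nat_lit 40173837), (nat_lit 25770221), (nat_lit 19310217), (nat_lit 12946273)] (nat_lit 6891553)) p14_12_2 (nat_lit 4) (nat_lit 59) (nat_lit 60) = true := by decide +kernel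
def p14_12_2_60 : pfC (piC [(nat_lit 40173837), (nat_lit 25770221), (nat_lit 19310217), (nat_lit 12946273)] (nat_lit 6891553)) p14_12_2 (nat_lit 4) (nat_lit 60) (nat_lit 61) = true := by decide +kernel
def p14_12_2_61 : pfC (piC [(nat_lit 40173837), (nat_lit 25770221), (nat_lit 19310217), (nat_lit 12946273)] (nat_lit 6891553)) p14_12_2 (nat_lit 4) (nat_lit 61) (nat_lit 62) = true := by decide +kernel
def p14_12_2_62 : pfC (piC [(nat_lit 40173837), (nat_lit 25770221), (nat_lit 19310217), (nat_lit 12946273)] (nat_lit 6891553)) p14_12_2 (nat_lit 4) (nat_lit 62) (nat_lit 63) = true := by decide +kernel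
def p14_12_2_63 : pfC (piC [(nat_lit 40173837), (nat_lit 25770221), (nat_lit 19310217), (nat_lit 12946273)] (nat_lit 6891553)) p14_12_2 (nat_lit 4) (nat_lit 63) (nat_lit 64) = true := by decide +kernel
def p14_12_2_64 : pfC (piC [(nat_lit 40173837), (nat_lit 25770221), (nat_lit 19310217), (nat_lit 12946273)] (nat_lit 6891553)) p14_12_2 (nat_lit 4) (nat_lit 64) (nat_lit 65) = true := by decide +kernel
def p14_12_2_65 : pfC (piC [(nat_lit 40173837), (nat_lit 25770221), (nat_lit 19310217), (nat_lit 12946273)] (nat_lit 6891553)) p14_12_2 (nat_lit 4) (nat_lit 65) (nat_lit 66) = true := by decide +kernel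
def p14_12_2_66 : pfC (piC [(nat_lit 40173837), (nat_lit 25770221), (nat_lit 19310217), (nat_lit 12946273)] (nat_lit 6891553)) p14_12_2 (nat_lit 4) (nat_lit 66) (nat_lit 67) = true := by decide +kernel
def p14_12_2_67 : pfC (piC [(nat_lit 40173837), (nat_lit 25770221), (nat_lit 19310217), (nat_lit 12946273)] (nat_lit 6891553)) p14_12_2 (nat_lit 4) (nat_lit 67) (nat_lit 68) = true := by decide +kernel
def p14_12_2_68 : pfC (piC [(nat_lit 40173837), (nat_lit 25770221), (nat_lit 19310217), (nat_lit 12946273)] (nat_lit 6891553)) p14_12_2 (nat_lit 4) (nat_lit 68) (nat_lit 69) = true := by decide +kernel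
def p14_12_2_69 : pfC (piC [(nat_lit 40173837), (nat_lit 25770221), (nat_lit 19310217), (nat_lit 12946273)] (nat_lit 6891553)) p14_12_2 (nat_lit 4) (nat_lit 69) (nat_lit 70) = true := by decide +kernel
def p14_12_2_70 : pfC (piC [(nat_lit 40173837), (nat_lit 25770221), (nat_lit 19310217), (nat_lit 12946273)] (nat_lit 6891553)) p14_12_2 (nat_lit 4) (nat_lit 70) (nat_lit 71) = true := by decide +kernel
def p14_12_2_71 : pfC (piC [(nat_lit 40173837), (nat_lit 25770221), (nat_lit 19310217), (nat_lit 12946273)] (nat_lit 6891553)) p14_12_2 (nat_lit 4) (nat_lit 71) (nat_lit 72) = true := by decide +kernel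
def p14_12_2_72 : pfC (piC [(nat_lit 40173837), (nat_lit 25770221), (nat_lit 19310217), (nat_lit 12946273)] (nat_lit 6891553)) p14_12_2 (nat_lit 4) (nat_lit 72) (nat_lit 73) = true := by decide +kernel
def p14_12_2_73 : pfC (piC [(nat_lit 40173837), (nat_lit 25770221), (nat_lit 19310217), (nat_lit 12946273)] (nat_lit 6891553)) p14_12_2 (nat_lit 4) (nat_lit 73) (nat_lit 74) = true := by decide +kernel
def p14_12_2_74 : pfC (piC [(nat_lit 40173837), (nat_lit 25770221), (nat_lit 19310217), (nat_lit 12946273)] (nat_lit 6891553)) p14_12_2 (nat_lit 4) (nat_lit 74) (nat_lit 75) = true := by decide +kernel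
def p14_12_2_75 : pfC (piC [(nat_lit 40173837), (nat_lit 25770221), (nat_lit 19310217), (nat_lit 12946273)] (nat_lit 6891553)) p14_12_2 (nat_lit 4) (nat_lit 75) (nat_lit 76) = true := by decide +kernel
def p14_12_2_76 : pfC (piC [(nat_lit 40173837), (nat_lit 25770221), (nat_lit 19310217), (nat_lit 12946273)] (nat_lit 6891553)) p14_12_2 (nat_lit 4) (nat_lit 76) (nat_lit 77) = true := by decide +kernel
def p14_12_2_77 : pfC (piC [(nat_lit 40173837), (nat_lit 25770221), (nat_lit 19310217), (nat_lit 12946273)] (nat_lit 6891553)) p14_12_2 (nat_lit 4) (nat_lit 77) (nat_lit 78) = true := by decide +kernel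
def p14_12_2_78 : pfC (piC [(nat_lit 40173837), (nat_lit 25770221), (nat_lit 19310217), (nat_lit 12946273)] (nat_lit 6891553)) p14_12_2 (nat_lit 4) (nat_lit 78) (nat_lit 79) = true := by decide +kernel
def p14_12_2_79 : pfC (piC [(nat_lit 40173837), (nat_lit 25770221), (nat_lit 19310217), (nat_lit 12946273)] (nat_lit 6891553)) p14_12_2 (nat_lit 4) (nat_lit 79) (nat_lit 80) = true := by decide +kernel
def p14_12_2_80 : pfC (piC [(nat_lit 40173837), (nat_lit 25770221), (nat_lit 19310217), (nat_lit 12946273)] (nat_lit 6891553)) p14_12_2 (nat_lit 4) (nat_lit 80) (nat_lit 81) = true := by decide +kernel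
def p14_12_2_81 : pfC (piC [(nat_lit 40173837), (nat_lit 25770221), (nat_lit 19310217), (nat_lit 12946273)] (nat_lit 6891553)) p14_12_2 (nat_lit 4) (nat_lit 81) (nat_lit 82) = true := by decide +kernel
def p14_12_2_82 : pfC (piC [(nat_lit 40173837), (nat_lit 25770221), (nat_lit 19310217), (nat_lit 12946273)] (nat_lit 6891553)) p14_12_2 (nat_lit 4) (nat_lit 82) (nat_lit 83) = true := by decide +kernel
def p14_12_2_83 : pfC (piC [(nat_lit 40173837), (nat_lit 25770221), (nat_lit 19310217), (nat_lit 12946273)] (nat_lit 6891553)) p14_12_2 (nat_lit 4) (nat_lit 83) (nat_lit 84) = true := by decide +kernel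
def p14_12_2_84 : pfC (piC [(nat_lit 40173837), (nat_lit 25770221), (nat_lit 19310217), (nat_lit 12946273)] (nat_lit 6891553)) p14_12_2 (nat_lit 4) (nat_lit 84) (nat_lit 85) = true := by decide +kernel
def p14_12_2_85 : pfC (piC [(nat_lit 40173837), (nat_lit 25770221), (nat_lit 19310217), (nat_lit 12946273)] (nat_lit 6891553)) p14_12_2 (nat_lit 4) (nat_lit 85) (nat_lit 86) = true := by decide +kernel
def p14_12_2_86 : pfC (piC [(nat_lit 40173837), (nat_lit 25770221), (nat_lit 19310217), (nat_lit 12946273)] (nat_lit 6891553)) p14_12_2 (nat_lit 4) (nat_lit 86) (nat_lit 87) = true := by decide +kernel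
def p14_12_2_87 : pfC (piC [(nat_lit 40173837), (nat_lit 25770221), (nat_lit 19310217), (nat_lit 12946273)] (nat_lit 6891553)) p14_12_2 (nat_lit 4) (nat_lit 87) (nat_lit 88) = true := by decide +kernel
def p14_12_2_88 : pfC (piC [(nat_lit 40173837), (nat_lit 25770221), (nat_lit 19310217), (nat_lit 12946273)] (nat_lit 6891553)) p14_12_2 (nat_lit 4) (nat_lit 88) (nat_lit 89) = true := by decide +kernel
def p14_12_2_89 : pfC (piC [(nat_lit 40173837), (nat_lit 25770221), (nat_lit 19310217), (nat_lit 12946273)] (nat_lit 6891553)) p14_12_2 (nat_lit 4) (nat_lit 89) (nat_lit 90) = true := by decide +kernel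
def p14_12_2_90 : pfC (piC [(nat_lit 40173837), (nat_lit 25770221), (nat_lit 19310217), (nat_lit 12946273)] (nat_lit 6891553)) p14_12_2 (nat_lit 4) (nat_lit 90) (nat_lit 91) = true := by decide +kernel
def p14_12_2_91 : pfC (piC [(nat_lit 40173837), (nat_lit 25770221), (nat_lit 19310217), (nat_lit 12946273)] (nat_lit 6891553)) p14_12_2 (nat_lit 4) (nat_lit 91) (nat_lit 92) = true := by decide +kernel
def p14_12_2_92 : pfC (piC [(nat_lit 40173837), (nat_lit 25770221), (nat_lit 19310217), (nat_lit 12946273)] (nat_lit 6891553)) p14_12_2 (nat_lit 4) (nat_lit 92) (nat_lit 93) = true := by decide +kernel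
def p14_12_2_93 : pfC (piC [(nat_lit 40173837), (nat_lit 25770221), (nat_lit 19310217), (nat_lit 12946273)] (nat_lit 6891553)) p14_12_2 (nat_lit 4) (nat_lit 93) (nat_lit 94) = true := by decide +kernel
def p14_12_2_94 : pfC (piC [(nat_lit 40173837), (nat_lit 25770221), (nat_lit 19310217), (nat_lit 12946273)] (nat_lit 6891553)) p14_12_2 (nat_lit 4) (nat_lit 94) (nat_lit 95) = true := by decide +kernel
def p14_12_2_95 : pfC (piC [(nat_lit 40173837), (nat_lit 25770221), (nat_lit 19310217), (nat_lit 12946273)] (nat_lit 6891553)) p14_12_2 (nat_lit 4) (nat_lit 95) (nat_lit 96) = true := by decide +kernel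
def p14_12_2_96 : pfC (piC [(nat_lit 40173837), (nat_lit 25770221), (nat_lit 19310217), (nat_lit 12946273)] (nat_lit 6891553)) p14_12_2 (nat_lit 4) (nat_lit 96) (nat_lit 97) = true := by decide +kernel
def p14_12_2_97 : pfC (piC [(nat_lit 40173837), (nat_lit 25770221), (nat_lit 19310217), (nat_lit 12946273)] (nat_lit 6891553)) p14_12_2 (nat_lit 4) (nat_lit 97) (nat_lit 98) = true := by decide +kernel
def p14_12_2_98 : pfC (piC [(nat_lit 40173837), (nat_lit 25770221), (nat_lit 19310217), (nat_lit 12946273)] (nat_lit 6891553)) p14_12_2 (nat_lit 4) (nat_lit 98) (nat_lit 99) = true := by decide +kernel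
def p14_12_2_99 : pfC (piC [(nat_lit 40173837), (nat_lit 25770221), (nat_lit 19310217), (nat_lit 12946273)] (nat_lit 6891553)) p14_12_2 (nat_lit 4) (nat_lit 99) (nat_lit 100) = true := by decide +kernel
def p14_12_2_100 : pfC (piC [(nat_lit 40173837), (nat_lit 25770221), (nat_lit 19310217), (nat_lit 12946273)] (nat_lit 6891553)) p14_12_2 (nat_lit 4) (nat_lit 100) (nat_lit 101) = true := by decide +kernel
def p14_12_2_101 : pfC (piC [(nat_lit 40173837), (nat_lit 25770221), (nat_lit 19310217), (nat_lit 12946273)] (nat_lit 6891553)) p14_12_2 (nat_lit 4) (nat_lit 101) (nat_lit 102) = true := by decide +kernel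
def p14_12_2_102 : pfC (piC [(nat_lit 40173837), (nat_lit 25770221), (nat_lit 19310217), (nat_lit 12946273)] (nat_lit 6891553)) p14_12_2 (nat_lit 4) (nat_lit 102) (nat_lit 103) = true := by decide +kernel
def p14_12_2_103 : pfC (piC [(nat_lit 40173837), (nat_lit 25770221), (nat_lit 19310217), (nat_lit 12946273)] (nat_lit 6891553)) p14_12_2 (nat_lit 4) (nat_lit 103) (nat_lit 104) = true := by decide +kernel
def p14_12_2_104 : pfC (piC [(nat_lit 40173837), (nat_lit 25770221), (nat_lit 19310217), (nat_lit 12946273)] (nat_lit 6891553)) p14_12_2 (nat_lit 4) (nat_lit 104) (nat_lit 105) = true := by decide +kernel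
def p14_12_2_105 : pfC (piC [(nat_lit 40173837), (nat_lit 25770221), (nat_lit 19310217), (nat_lit 12946273)] (nat_lit 6891553)) p14_12_2 (nat_lit 4) (nat_lit 105) (nat_lit 106) = true := by decide +kernel
def p14_12_2_106 : pfC (piC [(nat_lit 40173837), (nat_lit 25770221), (nat_lit 19310217), (nat_lit 12946273)] (nat_lit 6891553)) p14_12_2 (nat_lit 4) (nat_lit 106) (nat_lit 107) = true := by decide +kernel
def p14_12_2_107 : pfC (piC [(nat_lit 40173837), (nat_lit 25770221), (nat_lit 19310217), (nat_lit 12946273)] (nat_lit 6891553)) p14_12_2 (nat_lit 4) (nat_lit 107) (nat_lit 108) = true := by decide +kernel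
def p14_12_2_108 : pfC (piC [(nat_lit 40173837), (nat_lit 25770221), (nat_lit 19310217), (nat_lit 12946273)] (nat_lit 6891553)) p14_12_2 (nat_lit 4) (nat_lit 108) (nat_lit 109) = true := by decide +kernel
def p14_12_2_109 : pfC (piC [(nat_lit 40173837), (nat_lit 25770221), (nat_lit 19310217), (nat_lit 12946273)] (nat_lit 6891553)) p14_12_2 (nat_lit 4) (nat_lit 109) (nat_lit 110) = true := by decide +kernel
def p14_12_2_110 : pfC (piC [(nat_lit 40173837), (nat_lit 25770221), (nat_lit 19310217), (nat_lit 12946273)] (nat_lit 6891553)) p14_12_2 (nat_lit 4) (nat_lit 110) (nat_lit 111) = true := by decide +kernel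
def p14_12_2_111 : pfC (piC [(nat_lit 40173837), (nat_lit 25770221), (nat_lit 19310217), (nat_lit 12946273)] (nat_lit 6891553)) p14_12_2 (nat_lit 4) (nat_lit 111) (nat_lit 112) = true := by decide +kernel
def p14_12_2_112 : pfC (piC [(nat_lit 40173837), (nat_lit 25770221), (nat_lit 19310217), (nat_lit 12946273)] (nat_lit 6891553)) p14_12_2 (nat_lit 4) (nat_lit 112) (nat_lit 113) = true := by decide +kernel
def p14_12_2_113 : pfC (piC [(nat_lit 40173837), (nat_lit 25770221), (nat_lit 19310217), (nat_lit 12946273)] (nat_lit 6891553)) p14_12_2 (nat_lit 4) (nat_lit 113) (nat_lit 114) = true := by decide +kernel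
def p14_12_2_114 : pfC (piC [(nat_lit 40173837), (nat_lit 25770221), (nat_lit 19310217), (nat_lit 12946273)] (nat_lit 6891553)) p14_12_2 (nat_lit 4) (nat_lit 114) (nat_lit 115) = true := by decide +kernel
def p14_12_2_115 : pfC (piC [(nat_lit 40173837), (nat_lit 25770221), (nat_lit 19310217), (nat_lit 12946273)] (nat_lit 6891553)) p14_12_2 (nat_lit 4) (nat_lit 115) (nat_lit 116) = true := by decide +kernel
def p14_12_2_116 : pfC (piC [(nat_lit 40173837), (nat_lit 25770221), (nat_lit 19310217), (nat_lit 12946273)] (nat_lit 6891553)) p14_12_2 (nat_lit 4) (nat_lit 116) (nat_lit 117) = true := by decide +kernel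
def p14_12_2_117 : pfC (piC [(nat_lit 40173837), (nat_lit 25770221), (nat_lit 19310217), (nat_lit 12946273)] (nat_lit 6891553)) p14_12_2 (nat_lit 4) (nat_lit 117) (nat_lit 118) = true := by decide +kernel
def p14_12_2_118 : pfC (piC [(nat_lit 40173837), (nat_lit 25770221), (nat_lit 19310217), (nat_lit 12946273)] (nat_lit 6891553)) p14_12_2 (nat_lit 4) (nat_lit 118) (nat_lit 119) = true := by decide +kernel
def p14_12_2_119 : pfC (piC [(nat_lit 40173837), (nat_lit 25770221), (nat_lit 19310217), (nat_lit 12946273)] (nat_lit 6891553)) p14_12_2 (nat_lit 4) (nat_lit 119) (nat_lit 120) = true := by decide +kernel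
def p14_12_2_120 : pfC (piC [(nat_lit 40173837), (nat_lit 25770221), (nat_lit 19310217), (nat_lit 12946273)] (nat_lit 6891553)) p14_12_2 (nat_lit 4) (nat_lit 120) (nat_lit 121) = true := by decide +kernel
def p14_12_2_121 : pfC (piC [(nat_lit 40173837), (nat_lit 25770221), (nat_lit 19310217), (nat_lit 12946273)] (nat_lit 6891553)) p14_12_2 (nat_lit 4) (nat_lit 121) (nat_lit 122) = true := by decide +kernel
def p14_12_2_122 : pfC (piC [(nat_lit 40173837), (nat_lit 25770221), (nat_lit 19310217), (nat_lit 12946273)] (nat_lit 6891553)) p14_12_2 (nat_lit 4) (nat_lit 122) (nat_lit 123) = true := by decide +kernel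
def p14_12_2_123 : pfC (piC [(nat_lit 40173837), (nat_lit 25770221), (nat_lit 19310217), (nat_lit 12946273)] (nat_lit 6891553)) p14_12_2 (nat_lit 4) (nat_lit 123) (nat_lit 124) = true := by decide +kernel
def p14_12_2_124 : pfC (piC [(nat_lit 40173837), (nat_lit 25770221), (nat_lit 19310217), (nat_lit 12946273)] (nat_lit 6891553)) p14_12_2 (nat_lit 4) (nat_lit 124) (nat_lit 125) = true := by decide +kernel
def p14_12_2_125 : pfC (piC [(nat_lit 40173837), (nat_lit 25770221), (nat_lit 19310217), (nat_lit 12946273)] (nat_lit 6891553)) p14_12_2 (nat_lit 4) (nat_lit 125) (nat_lit 126) = true := by decide +kernel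
def p14_12_2_126 : pfC (piC [(nat_lit 40173837), (nat_lit 25770221), (nat_lit 19310217), (nat_lit 12946273)] (nat_lit 6891553)) p14_12_2 (nat_lit 4) (nat_lit 126) (nat_lit 127) = true := by decide +kernel
def p14_12_2_127 : pfC (piC [(nat_lit 40173837), (nat_lit 25770221), (nat_lit 19310217), (nat_lit 12946273)] (nat_lit 6891553)) p14_12_2 (nat_lit 4) (nat_lit 127) (nat_lit 128) = true := by decide +kernel
def p14_12_2_128 : pfC (piC [(nat_lit 40173837), (nat_lit 25770221), (nat_lit 19310217), (nat_lit 12946273)] (nat_lit 6891553)) p14_12_2 (nat_lit 4) (nat_lit 128) (nat_lit 129) = true := by decide +kernel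
def p14_12_2_129 : pfC (piC [(nat_lit 40173837), (nat_lit 25770221), (nat_lit 19310217), (nat_lit 12946273)] (nat_lit 6891553)) p14_12_2 (nat_lit 4) (nat_lit 129) (nat_lit 130) = true := by decide +kernel
def p14_12_2_130 : pfC (piC [(nat_lit 40173837), (nat_lit 25770221), (nat_lit 19310217), (nat_lit 12946273)] (nat_lit 6891553)) p14_12_2 (nat_lit 4) (nat_lit 130) (nat_lit 131) = true := by decide +kernel
def p14_12_2_131 : pfC (piC [(nat_lit 40173837), (nat_lit 25770221), (nat_lit 19310217), (nat_lit 12946273)] (nat_lit 6891553)) p14_12_2 (nat_lit 4) (nat_lit 131) (nat_lit 132) = true := by decide +kernel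
def p14_12_2_132 : pfC (piC [(nat_lit 40173837), (nat_lit 25770221), (nat_lit 19310217), (nat_lit 12946273)] (nat_lit 6891553)) p14_12_2 (nat_lit 4) (nat_lit 132) (nat_lit 133) = true := by decide +kernel
def p14_12_2_133 : pfC (piC [(nat_lit 40173837), (nat_lit 25770221), (nat_lit 19310217), (nat_lit 12946273)] (nat_lit 6891553)) p14_12_2 (nat_lit 4) (nat_lit 133) (nat_lit 134) = true := by decide +kernel
theorem p14_12_2_T : PfS (PiF n14_12.reverse (nat_lit 6891553)) p14_12_2 (nat_lit 4) [] 0 :=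
  pftab_of (los := [(nat_lit 40173837), (nat_lit 25770221), (nat_lit 19310217), (nat_lit 12946273)]) (by decide +kernel) (hi := (nat_lit 134)) (PfP.trans (PfP.trans (PfP.trans (PfP.trans (PfP.trans (PfP.trans (PfP.trans (PfP.trans (PfP.trans (PfP.trans (PfP.trans (PfP.trans (PfP.trans (PfP.trans (PfP.trans (PfP.trans (PfP.trans (PfP.trans (PfP.trans (PfP.trans (PfP.trans (PfP.trans (PfP.trans (PfP.trans (PfP.trans (PfP.trans (PfP.trans (PfP.trans (PfP.trans (PfP.trans (PfP.trans (PfP.trans (PfP.trans (PfP.trans (PfP.trans (PfP.trans (PfP.trans (PfP.trans (PfP.trans (PfP.trans (PfP.trans (PfP.trans (PfP.trans (PfP.trans (PfP.trans (PfP.trans (PfP.trans (PfP.trans (PfP.trans (PfP.trans (PfP.trans (PfP.trans (PfP.trans (PfP.trans (PfP.trans (PfP.trans (PfP.trans (PfP.trans (PfP.trans (PfP.trans (PfP.trans (PfP.trans (PfP.trans (PfP.trans (PfP.trans (PfP.trans (PfP.trans (PfP.trans (PfP.trans (PfP.trans (PfP.trans (PfP.trans (PfP.trans (PfP.trans (PfP.trans (PfP.trans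 (PfP.trans (PfP.trans (PfP.trans (PfP.trans (PfP.trans (PfP.trans (PfP.trans (PfP.trans (PfP.trans (PfP.trans (PfP.trans (PfP.trans (PfP.trans (PfP.trans (PfP.trans (PfP.trans (PfP.trans (PfP.trans (PfP.trans (PfP.trans (PfP.trans (PfP.trans (PfP.trans (PfP.trans (PfP.trans (PfP.trans (PfP.trans (PfP.trans (PfP.trans (PfP.trans (PfP.trans (PfP.trans (PfP.trans
 (PfP.trans (PfP.trans (PfP.trans (PfP.trans (PfP.trans (PfP.trans (PfP.trans (PfP.trans (PfP.trans (PfP.trans (PfP.trans (PfP.trans (PfP.trans (PfP.trans (PfP.trans (PfP.trans (PfP.trans (PfP.trans (PfP.trans (PfP.trans (PfP.trans (PfP.trans (PfP.trans (PfP.trans (pfC_sound p14_12_2_0) (pfC_sound p14_12_2_1)) (pfC_sound p14_12_2_2)) (pfC_sound p14_12_2_3)) (pfC_sound p14_12_2_4)) (pfC_sound p14_12_2_5)) (pfC_sound p14_12_2_6)) (pfC_sound p14_12_2_7)) (pfC_sound p14_12_2_8)) (pfC_sound p14_12_2_9)) (pfC_sound p14_12_2_10)) (pfC_sound p14_12_2_11)) (pfC_sound p14_12_2_12)) (pfC_sound p14_12_2_13)) (pfC_sound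 p14_12_2_14)) (pfC_sound p14_12_2_15)) (pfC_sound p14_12_2_16)) (pfC_sound p14_12_2_17)) (pfC_sound p14_12_2_18)) (pfC_sound p14_12_2_19)) (pfC_sound p14_12_2_20)) (pfC_sound p14_12_2_21)) (pfC_sound p14_12_2_22)) (pfC_sound p14_12_2_23)) (pfC_sound p14_12_2_24)) (pfC_sound p14_12_2_25)) (pfC_sound p14_12_2_26)) (pfC_sound p14_12_2_27)) (pfC_sound p14_12_2_28)) (pfC_sound p14_12_2_29)) (pfC_sound p14_12_2_30)) (pfC_sound p14_12_2_31)) (pfC_sound p14_12_2_32)) (pfC_sound p14_12_2_33)) (pfC_sound p14_12_2_34)) (pfC_sound p14_12_2_35)) (pfC_sound p14_12_2_36)) (pfC_sound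
 p14_12_2_37)) (pfC_sound p14_12_2_38)) (pfC_sound p14_12_2_39)) (pfC_sound p14_12_2_40)) (pfC_sound p14_12_2_41)) (pfC_sound p14_12_2_42)) (pfC_sound p14_12_2_43)) (pfC_sound p14_12_2_44)) (pfC_sound p14_12_2_45)) (pfC_sound p14_12_2_46)) (pfC_sound p14_12_2_47)) (pfC_sound p14_12_2_48)) (pfC_sound p14_12_2_49)) (pfC_sound p14_12_2_50)) (pfC_sound p14_12_2_51)) (pfC_sound p14_12_2_52)) (pfC_sound p14_12_2_53)) (pfC_sound p14_12_2_54)) (pfC_sound p14_12_2_55)) (pfC_sound p14_12_2_56)) (pfC_sound p14_12_2_57)) (pfC_sound p14_12_2_58)) (pfC_sound p14_12_2_59)) (pfC_sound p14_12_2_60)) (pfC_sound p14_12_2_61)) (pfC_sound p14_12_2_62)) (pfC_sound p14_12_2_63)) (pfC_sound p14_12_2_64)) (pfC_sound p14_12_2_65)) (pfC_sound p14_12_2_66)) (pfC_sound p14_12_2_67)) (pfC_sound p14_12_2_68)) (pfC_sound p14_12_2_69)) (pfC_sound p14_12_2_70)) (pfC_sound p14_12_2_71)) (pfC_sound p14_12_2_72)) (pfC_sound p14_12_2_73)) (pfC_sound p14_12_2_74)) (pfC_sound p14_12_2_75)) (pfC_sound p14_12_2_76))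 (pfC_sound p14_12_2_77)) (pfC_sound p14_12_2_78)) (pfC_sound p14_12_2_79)) (pfC_sound p14_12_2_80)) (pfC_sound p14_12_2_81)) (pfC_sound p14_12_2_82)) (pfC_sound p14_12_2_83)) (pfC_sound p14_12_2_84)) (pfC_sound
 p14_12_2_85)) (pfC_sound p14_12_2_86)) (pfC_sound p14_12_2_87)) (pfC_sound p14_12_2_88)) (pfC_sound p14_12_2_89)) (pfC_sound p14_12_2_90)) (pfC_sound p14_12_2_91)) (pfC_sound p14_12_2_92)) (pfC_sound p14_12_2_93)) (pfC_sound p14_12_2_94)) (pfC_sound p14_12_2_95)) (pfC_sound p14_12_2_96)) (pfC_sound p14_12_2_97)) (pfC_sound p14_12_2_98)) (pfC_sound p14_12_2_99)) (pfC_sound p14_12_2_100)) (pfC_sound p14_12_2_101)) (pfC_sound p14_12_2_102)) (pfC_sound p14_12_2_103)) (pfC_sound p14_12_2_104)) (pfC_sound p14_12_2_105)) (pfC_sound p14_12_2_106)) (pfC_sound p14_12_2_107)) (pfC_sound p14_12_2_108)) (pfC_sound p14_12_2_109)) (pfC_sound p14_12_2_110)) (pfC_sound p14_12_2_111)) (pfC_sound p14_12_2_112)) (pfC_sound p14_12_2_113)) (pfC_sound p14_12_2_114)) (pfC_sound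 p14_12_2_115)) (pfC_sound p14_12_2_116)) (pfC_sound p14_12_2_117)) (pfC_sound p14_12_2_118)) (pfC_sound p14_12_2_119)) (pfC_sound p14_12_2_120)) (pfC_sound p14_12_2_121)) (pfC_sound p14_12_2_122)) (pfC_sound p14_12_2_123)) (pfC_sound p14_12_2_124)) (pfC_sound p14_12_2_125)) (pfC_sound p14_12_2_126)) (pfC_sound p14_12_2_127)) (pfC_sound p14_12_2_128)) (pfC_sound p14_12_2_129)) (pfC_sound p14_12_2_130)) (pfC_sound p14_12_2_131))
 (pfC_sound p14_12_2_132)) (pfC_sound p14_12_2_133)) (by decide +kernel)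

def z14_12_2 : zOK yB14_12 (nat_lit 2) (nat_lit 600) (nat_lit 750) (nat_lit 6891553) (nat_lit 5041812) = true := by decide +kernel
def g14_12_2 : gOK yB14_12.x P14_12 (nat_lit 1425) (q14_12 :: r14_12) (nat_lit 2) (nat_lit 600) (nat_lit 3) (nat_lit 750) (nat_lit 12712500) (nat_lit 12712500) (nat_lit 12712500) (nat_lit 12712500) [(nat_lit 800), (nat_lit 1600)] = true := by decide +kernel
def v14_12_2 : ivC P14_12 s14_12 w14_12 n14_12 (nat_lit 4) (nat_lit 4820) (nat_lit 2) (nat_lit 600) f152_1_600 f160_1_600 (nat_lit 3) (nat_lit 750) f152_1_750 f160_1_750 (nat_lit 6891553) (nat_lit 5041812) p14_12_2 = true := by decide +kernel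
def p14_12_3 : PF := (PF.cons (PF.cons (PF.cons (PF.cons (PF.leaf (nat_lit 3009060) (nat_lit 19436146) (nat_lit 47672666) (nat_lit 19436146) [(nat_lit 0), (nat_lit 0), (nat_lit 0), (nat_lit 0)]) (PF.cons (PF.leaf (nat_lit 3151867) (nat_lit 248565) (nat_lit 47461643) (nat_lit 19398603) [(nat_lit 248565), (nat_lit 0), (nat_lit 0), (nat_lit 0)]) (PF.cons (PF.leaf (nat_lit 3321311) (nat_lit 269999) (nat_lit 47214903) (nat_lit 19353909) [(nat_lit 269999), (nat_lit 0), (nat_lit 0), (nat_lit 0)]) (PF.cons (PF.leaf (nat_lit 3511416) (nat_lit 288928) (nat_lit 46939075) (nat_lit 19302951) [(nat_lit 288928), (nat_lit 0), (nat_lit 0), (nat_lit 0)]) (PF.cons (PF.leaf (nat_lit 3719004) (nat_lit 305911) (nat_lit 46638850) (nat_lit 19246316) [(nat_lit 305911), (nat_lit 0), (nat_lit 0), (nat_lit 0)]) (PF.cons (PF.leaf (nat_lit 3941839) (nat_lit 321308) (nat_lit 46317837) (nat_lit 19184434) [(nat_lit 321308), (nat_lit 0), (nat_lit 0), (nat_lit 0)]) (PF.cons (PF.leaf (nat_lit 4178017)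 (nat_lit 335367) (nat_lit 45978961) (nat_lit 19117645) [(nat_lit 335367), (nat_lit 0), (nat_lit 0), (nat_lit 0)]) (PF.cons (PF.leaf (nat_lit 4426101) (nat_lit 348271) (nat_lit 45624677) (nat_lit 19046238) [(nat_lit 348271), (nat_lit 0),
 (nat_lit 0), (nat_lit 0)]) (PF.cons (PF.leaf (nat_lit 4684598) (nat_lit 360155) (nat_lit 45257096) (nat_lit 18970470) [(nat_lit 360155), (nat_lit 0), (nat_lit 0), (nat_lit 0)]) (PF.cons PF.nil (PF.cons PF.nil (PF.cons PF.nil PF.nil)))))))))))) (PF.cons (PF.cons (PF.leaf (nat_lit 3512337) (nat_lit 1184522) (nat_lit 46674160) (nat_lit 19250130) [(nat_lit 0), (nat_lit 1184522), (nat_lit 0), (nat_lit 0)]) (PF.cons (PF.leaf (nat_lit 3697025) (nat_lit 299009) (nat_lit 46400180) (nat_lit 19197474) [(nat_lit 299009), (nat_lit 1212148), (nat_lit 0), (nat_lit 0)]) (PF.cons (PF.leaf (nat_lit 3901564) (nat_lit 315280) (nat_lit 46100422) (nat_lit 19138742) [(nat_lit 315280), (nat_lit 1239087), (nat_lit 0), (nat_lit 0)]) (PF.cons (PF.leaf (nat_lit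 4121941) (nat_lit 329969) (nat_lit 45779413) (nat_lit 19074565) [(nat_lit 329969), (nat_lit 1264924), (nat_lit 0), (nat_lit 0)]) (PF.cons (PF.leaf (nat_lit 4355946) (nat_lit 343351) (nat_lit 45440545) (nat_lit 19005401) [(nat_lit 343351), (nat_lit 1289460), (nat_lit 0), (nat_lit 0)]) (PF.cons (PF.leaf (nat_lit 4601945) (nat_lit 355614) (nat_lit 45086520) (nat_lit 18931610) [(nat_lit 355614), (nat_lit 1312609), (nat_lit 0), (nat_lit 0)]) (PF.cons
 (PF.leaf (nat_lit 4858393) (nat_lit 366898) (nat_lit 44719580) (nat_lit 18853498) [(nat_lit 366898), (nat_lit 1334344), (nat_lit 0), (nat_lit 0)]) (PF.cons (PF.leaf (nat_lit 5124126) (nat_lit 377309) (nat_lit 44341640) (nat_lit 18771333) [(nat_lit 377309), (nat_lit 1354675), (nat_lit 0), (nat_lit 0)]) (PF.cons PF.nil (PF.cons PF.nil PF.nil)))))))))) (PF.cons (PF.cons (PF.leaf (nat_lit 4087447) (nat_lit 1267098) (nat_lit 45549763) (nat_lit 19024853) [(nat_lit 0), (nat_lit 1267098), (nat_lit 0), (nat_lit 0)]) (PF.cons (PF.leaf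 (nat_lit 4303008) (nat_lit 337353) (nat_lit 45232200) (nat_lit 18959130) [(nat_lit 337353), (nat_lit 1290064), (nat_lit 0), (nat_lit 0)]) (PF.cons (PF.leaf (nat_lit 4533779) (nat_lit 350249) (nat_lit 44895960) (nat_lit 18888188) [(nat_lit 350249), (nat_lit 1312081), (nat_lit 0), (nat_lit 0)]) (PF.cons (PF.leaf (nat_lit 4776919) (nat_lit 362017) (nat_lit 44544274) (nat_lit 18812514) [(nat_lit 362017), (nat_lit 1332985), (nat_lit 0), (nat_lit 0)]) (PF.cons (PF.leaf (nat_lit 5030722) (nat_lit 372813) (nat_lit 44179674) (nat_lit 18732492) [(nat_lit 372813), (nat_lit 1352696), (nat_lit 0), (nat_lit 0)]) (PF.cons (PF.leaf (nat_lit 5293857) (nat_lit 382751) (nat_lit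
 43804236) (nat_lit 18648445) [(nat_lit 382751), (nat_lit 1371185), (nat_lit 0), (nat_lit 0)]) (PF.cons (PF.leaf (nat_lit 5565172) (nat_lit 391921) (nat_lit 43419717) (nat_lit 18560653) [(nat_lit 391921), (nat_lit 1388455), (nat_lit 0), (nat_lit 0)]) (PF.cons PF.nil (PF.cons PF.nil PF.nil))))))))) (PF.cons (PF.cons (PF.leaf (nat_lit 4713182) (nat_lit 1332454) (nat_lit 44345413) (nat_lit 18766036) [(nat_lit 0), (nat_lit 1332454), (nat_lit 0), (nat_lit 0)]) (PF.cons (PF.leaf (nat_lit 4951733) (nat_lit 367531) (nat_lit 43998319) (nat_lit 18689055) [(nat_lit 367531), (nat_lit 1351302), (nat_lit 0), (nat_lit 0)]) (PF.cons (PF.leaf (nat_lit 5202170) (nat_lit 377949) (nat_lit 43637827) (nat_lit 18607606) [(nat_lit 377949), (nat_lit 1369160), (nat_lit 0), (nat_lit 0)]) (PF.cons (PF.leaf (nat_lit 5462178) (nat_lit 387502) (nat_lit 43266326) (nat_lit 18522092) [(nat_lit 387502), (nat_lit 1385962), (nat_lit 0), (nat_lit 0)]) (PF.cons (PF.leaf (nat_lit 5730503) (nat_lit 396290)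 (nat_lit 42885750) (nat_lit 18432850) [(nat_lit 396290), (nat_lit 1401683), (nat_lit 0), (nat_lit 0)]) (PF.cons PF.nil (PF.cons PF.nil PF.nil))))))) (PF.cons (PF.cons (PF.leaf (nat_lit 5374006) (nat_lit 1383928)
 (nat_lit 43094176) (nat_lit 18478921) [(nat_lit 0), (nat_lit 1383928), (nat_lit 0), (nat_lit 0)]) (PF.cons (PF.leaf (nat_lit 5629581) (nat_lit 391588) (nat_lit 42728145) (nat_lit 18392403) [(nat_lit 391588), (nat_lit 1399168), (nat_lit 0), (nat_lit 0)]) (PF.cons (PF.leaf (nat_lit 5894387) (nat_lit 400064) (nat_lit 42352742) (nat_lit 18302107) [(nat_lit 400064), (nat_lit 1413458), (nat_lit 0), (nat_lit 0)]) (PF.cons (PF.leaf (nat_lit 6166606) (nat_lit 407849) (nat_lit 41969775) (nat_lit 18208379) [(nat_lit 407849), (nat_lit 1426776), (nat_lit 0), (nat_lit 0)]) (PF.cons PF.nil PF.nil))))) (PF.cons (PF.cons (PF.leaf (nat_lit 6057925) (nat_lit 1423902) (nat_lit 41820772) (nat_lit 18168529) [(nat_lit 0), (nat_lit 1423902), (nat_lit 0), (nat_lit 0)]) (PF.cons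 (PF.leaf (nat_lit 6325789) (nat_lit 410794) (nat_lit 41443932) (nat_lit 18074130) [(nat_lit 410794), (nat_lit 1435991), (nat_lit 0), (nat_lit 0)]) (PF.cons PF.nil (PF.cons PF.nil PF.nil)))) (PF.cons (PF.cons (PF.leaf (nat_lit 6755464) (nat_lit 1454209) (nat_lit 40543907) (nat_lit 17839647) [(nat_lit 0), (nat_lit 1454209), (nat_lit 0), (nat_lit 0)]) (PF.cons PF.nil PF.nil)) (PF.cons PF.nil PF.nil)))))))) (PF.cons (PF.cons (PF.cons
 (PF.leaf (nat_lit 4020556) (nat_lit 3073494) (nat_lit 45115498) (nat_lit 18919820) [(nat_lit 0), (nat_lit 0), (nat_lit 3073494), (nat_lit 0)]) (PF.cons (PF.leaf (nat_lit 4213249) (nat_lit 319119) (nat_lit 44833754) (nat_lit 18860227) [(nat_lit 319119), (nat_lit 0), (nat_lit 3095711), (nat_lit 0)]) (PF.cons (PF.leaf (nat_lit 4424868) (nat_lit 334316) (nat_lit 44527843) (nat_lit 18794430) [(nat_lit 334316), (nat_lit 0), (nat_lit 3117905), (nat_lit 0)]) (PF.cons (PF.leaf (nat_lit 4651320) (nat_lit 347850) (nat_lit 44202505) (nat_lit 18723222)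 [(nat_lit 347850), (nat_lit 0), (nat_lit 3139532), (nat_lit 0)]) (PF.cons (PF.leaf (nat_lit 4890326) (nat_lit 360045) (nat_lit 43861210) (nat_lit 18647174) [(nat_lit 360045), (nat_lit 0), (nat_lit 3160245), (nat_lit 0)]) (PF.cons (PF.leaf (nat_lit 5140246) (nat_lit 371121) (nat_lit 43506658) (nat_lit 18566728) [(nat_lit 371121), (nat_lit 0), (nat_lit 3179815), (nat_lit 0)]) (PF.cons (PF.leaf (nat_lit 5399570) (nat_lit 381236) (nat_lit 43141046) (nat_lit 18482251) [(nat_lit 381236), (nat_lit 0), (nat_lit 3198095), (nat_lit 0)]) (PF.cons (PF.leaf (nat_lit 5667130) (nat_lit 390507) (nat_lit 42766209) (nat_lit 18394057) [(nat_lit 390507), (nat_lit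
 0), (nat_lit 3214995), (nat_lit 0)]) (PF.cons PF.nil PF.nil))))))))) (PF.cons (PF.cons (PF.leaf (nat_lit 4606732) (nat_lit 1314225) (nat_lit 43979909) (nat_lit 18670841) [(nat_lit 0), (nat_lit 1314225), (nat_lit 3143836), (nat_lit 0)]) (PF.cons (PF.leaf (nat_lit 4827468) (nat_lit 353355) (nat_lit 43660476) (nat_lit 18598855) [(nat_lit 353355), (nat_lit 1333528), (nat_lit 3162596), (nat_lit 0)]) (PF.cons (PF.leaf (nat_lit 5062426) (nat_lit 365219) (nat_lit 43324035) (nat_lit 18521759) [(nat_lit 365219), (nat_lit 1351928), (nat_lit 3180652), (nat_lit 0)]) (PF.cons (PF.leaf (nat_lit 5308757) (nat_lit 375934) (nat_lit 42973835) (nat_lit 18440133) [(nat_lit 375934), (nat_lit 1369301), (nat_lit 3197740), (nat_lit 0)]) (PF.cons (PF.leaf (nat_lit 5564855) (nat_lit 385679) (nat_lit 42612380) (nat_lit 18354427) [(nat_lit 385679), (nat_lit 1385595), (nat_lit 3213693), (nat_lit 0)]) (PF.cons (PF.leaf (nat_lit 5829333) (nat_lit 394583) (nat_lit 42241682) (nat_lit 18265010) [(nat_lit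 394583), (nat_lit 1400797), (nat_lit 3228405), (nat_lit 0)]) (PF.cons PF.nil PF.nil))))))) (PF.cons (PF.cons (PF.leaf (nat_lit 5236040) (nat_lit 1367427) (nat_lit 42783439) (nat_lit 18392249) [(nat_lit 0), (nat_lit
 1367427), (nat_lit 3198269), (nat_lit 0)]) (PF.cons (PF.leaf (nat_lit 5477234) (nat_lit 379992) (nat_lit 42439532) (nat_lit 18310000) [(nat_lit 379992), (nat_lit 1383121), (nat_lit 3213045), (nat_lit 0)]) (PF.cons (PF.leaf (nat_lit 5729362) (nat_lit 389464) (nat_lit 42083725) (nat_lit 18223522) [(nat_lit 389464), (nat_lit 1397898), (nat_lit 3226837), (nat_lit 0)]) (PF.cons (PF.leaf (nat_lit 5990239) (nat_lit 398077) (nat_lit 41718353) (nat_lit 18133272) [(nat_lit 398077), (nat_lit 1411715), (nat_lit 3239523), (nat_lit 0)]) (PF.cons (PF.leaf (nat_lit 6258606) (nat_lit 405941) (nat_lit 41345280) (nat_lit 18039622) [(nat_lit 405941), (nat_lit 1424559), (nat_lit 3251026), (nat_lit 0)]) PF.nil))))) (PF.cons (PF.cons (PF.leaf (nat_lit 5894327) (nat_lit 1408840)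 (nat_lit 41554994) (nat_lit 18089580) [(nat_lit 0), (nat_lit 1408840), (nat_lit 3237717), (nat_lit 0)]) (PF.cons (PF.leaf (nat_lit 6150364) (nat_lit 401002) (nat_lit 41196256) (nat_lit 17998932) [(nat_lit 401002), (nat_lit 1421367), (nat_lit 3248518), (nat_lit 0)]) (PF.cons (PF.leaf (nat_lit 6414845) (nat_lit 408632) (nat_lit 40829402) (nat_lit 17904810) [(nat_lit 408632), (nat_lit 1433027), (nat_lit 3258252), (nat_lit 0)])
 (PF.cons PF.nil PF.nil)))) (PF.cons (PF.cons (PF.leaf (nat_lit 6570851) (nat_lit 1440409) (nat_lit 40315709) (nat_lit 17767832) [(nat_lit 0), (nat_lit 1440409), (nat_lit 3263632), (nat_lit 0)]) (PF.cons (PF.leaf (nat_lit 6837379) (nat_lit 417591) (nat_lit 39949364) (nat_lit 17670466) [(nat_lit 417591), (nat_lit 1450171), (nat_lit 3270704), (nat_lit 0)]) PF.nil)) (PF.cons PF.nil PF.nil)))))) (PF.cons (PF.cons (PF.cons (PF.leaf (nat_lit 5116169) (nat_lit 3182300) (nat_lit 42445788) (nat_lit 18298423) [(nat_lit 0), (nat_lit 0), (nat_lit 3182300),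 (nat_lit 0)]) (PF.cons (PF.leaf (nat_lit 5340266) (nat_lit 366014) (nat_lit 42128422) (nat_lit 18221566) [(nat_lit 366014), (nat_lit 0), (nat_lit 3196404), (nat_lit 0)]) (PF.cons (PF.leaf (nat_lit 5577787) (nat_lit 376967) (nat_lit 41795540) (nat_lit 18139760) [(nat_lit 376967), (nat_lit 0), (nat_lit 3209789), (nat_lit 0)]) (PF.cons (PF.leaf (nat_lit 5825816) (nat_lit 386762) (nat_lit 41450358) (nat_lit 18053656) [(nat_lit 386762), (nat_lit 0), (nat_lit 3222255), (nat_lit 0)]) (PF.cons (PF.leaf (nat_lit 6082746) (nat_lit 395594) (nat_lit 41095319) (nat_lit 17963754) [(nat_lit 395594), (nat_lit 0), (nat_lit 3233681), (nat_lit 0)]) (PF.cons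
 (PF.leaf (nat_lit 6347270) (nat_lit 403603) (nat_lit 40732359) (nat_lit 17870454) [(nat_lit 403603), (nat_lit 0), (nat_lit 3243989), (nat_lit 0)]) (PF.cons PF.nil PF.nil))))))) (PF.cons (PF.cons (PF.leaf (nat_lit 5745249) (nat_lit 1392613) (nat_lit 41269227) (nat_lit 18005161) [(nat_lit 0), (nat_lit 1392613), (nat_lit 3220905), (nat_lit 0)]) (PF.cons (PF.leaf (nat_lit 5987677) (nat_lit 389632) (nat_lit 40931503) (nat_lit 17919026) [(nat_lit 389632), (nat_lit 1405676), (nat_lit 3231486), (nat_lit 0)]) (PF.cons (PF.leaf (nat_lit 6240250) (nat_lit 398275) (nat_lit 40583164) (nat_lit 17828917) [(nat_lit 398275), (nat_lit 1417884), (nat_lit 3241148), (nat_lit 0)]) (PF.cons (PF.leaf (nat_lit 6500827) (nat_lit 406067) (nat_lit 40226474) (nat_lit 17735326) [(nat_lit 406067), (nat_lit 1429208), (nat_lit 3249799), (nat_lit 0)]) (PF.cons PF.nil PF.nil))))) (PF.cons (PF.cons (PF.leaf (nat_lit 6398283) (nat_lit 1425723) (nat_lit 40072143) (nat_lit 17691694) [(nat_lit 0), (nat_lit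 1425723), (nat_lit 3246763), (nat_lit 0)]) (PF.cons (PF.leaf (nat_lit 6653729) (nat_lit 408037) (nat_lit 39722854) (nat_lit 17598218) [(nat_lit 408037), (nat_lit 1435974), (nat_lit 3253876), (nat_lit 0)]) (PF.cons
 (PF.leaf (nat_lit 6916936) (nat_lit 414927) (nat_lit 39366497) (nat_lit 17501560) [(nat_lit 414927), (nat_lit 1445428), (nat_lit 3260021), (nat_lit 0)]) (PF.cons PF.nil PF.nil)))) (PF.cons (PF.cons (PF.leaf (nat_lit 7065562) (nat_lit 1450312) (nat_lit 38872730) (nat_lit 17362864) [(nat_lit 0), (nat_lit 1450312), (nat_lit 3261139), (nat_lit 0)]) (PF.cons PF.nil PF.nil)) (PF.cons PF.nil PF.nil))))) (PF.cons (PF.cons (PF.cons (PF.leaf (nat_lit 6239886) (nat_lit 3229628) (nat_lit 39809730) (nat_lit 17610196) [(nat_lit 0), (nat_lit 0), (nat_lit 3229628), (nat_lit 0)]) (PF.cons (PF.leaf (nat_lit 6482416) (nat_lit 396944) (nat_lit 39480284) (nat_lit 17521372) [(nat_lit 396944), (nat_lit 0), (nat_lit 3236737), (nat_lit 0)]) (PF.cons (PF.leaf (nat_lit 6734428)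 (nat_lit 404852) (nat_lit 39141333) (nat_lit 17428828) [(nat_lit 404852), (nat_lit 0), (nat_lit 3242981), (nat_lit 0)]) (PF.cons (PF.leaf (nat_lit 6993791) (nat_lit 411924) (nat_lit 38795054) (nat_lit 17333082) [(nat_lit 411924), (nat_lit 0), (nat_lit 3248300), (nat_lit 0)]) (PF.cons PF.nil PF.nil))))) (PF.cons (PF.cons (PF.leaf (nat_lit 6885573) (nat_lit 1436088) (nat_lit 38649711) (nat_lit 17289955) [(nat_lit 0), (nat_lit 1436088),
 (nat_lit 3244352), (nat_lit 0)]) (PF.cons (PF.leaf (nat_lit 7139609) (nat_lit 413101) (nat_lit 38311302) (nat_lit 17194751) [(nat_lit 413101), (nat_lit 1444414), (nat_lit 3248414), (nat_lit 0)]) (PF.cons PF.nil (PF.cons PF.nil PF.nil)))) (PF.cons (PF.cons (PF.leaf (nat_lit 7542273) (nat_lit 1454839) (nat_lit 37493711) (nat_lit 16957587) [(nat_lit 0), (nat_lit 1454839), (nat_lit 3249278), (nat_lit 0)]) (PF.cons PF.nil PF.nil)) PF.nil))) (PF.cons (PF.cons (PF.cons (PF.leaf (nat_lit 7356227) (nat_lit 3232769) (nat_lit 37289579) (nat_lit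 16888153) [(nat_lit 0), (nat_lit 0), (nat_lit 3232769), (nat_lit 0)]) (PF.cons (PF.leaf (nat_lit 7608156) (nat_lit 416524) (nat_lit 36962944) (nat_lit 16792135) [(nat_lit 416524), (nat_lit 0), (nat_lit 3234302), (nat_lit 0)]) (PF.cons PF.nil PF.nil))) (PF.cons (PF.cons (PF.leaf (nat_lit 8001379) (nat_lit 1454979) (nat_lit 36178906) (nat_lit 16555142) [(nat_lit 0), (nat_lit 1454979), (nat_lit 3229946), (nat_lit 0)]) PF.nil) PF.nil)) (PF.cons PF.nil PF.nil)))))) (PF.cons (PF.cons (PF.cons (PF.cons (PF.leaf (nat_lit 4931572) (nat_lit 8586283) (nat_lit 40747436) (nat_lit 17775092) [(nat_lit 0), (nat_lit 0), (nat_lit 0), (nat_lit 8586283)]) (PF.cons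
 (PF.leaf (nat_lit 5122445) (nat_lit 327212) (nat_lit 40493475) (nat_lit 17710987) [(nat_lit 327212), (nat_lit 0), (nat_lit 0), (nat_lit 8577136)]) (PF.cons (PF.leaf (nat_lit 5330987) (nat_lit 341455) (nat_lit 40218795) (nat_lit 17640842) [(nat_lit 341455), (nat_lit 0), (nat_lit 0), (nat_lit 8566263)]) (PF.cons (PF.leaf (nat_lit 5553075) (nat_lit 353918) (nat_lit 39927771) (nat_lit 17565619) [(nat_lit 353918), (nat_lit 0), (nat_lit 0), (nat_lit 8553667)]) (PF.cons (PF.leaf (nat_lit 5786439) (nat_lit 364968) (nat_lit 39623574) (nat_lit 17486007) [(nat_lit 364968), (nat_lit 0), (nat_lit 0), (nat_lit 8539356)]) (PF.cons (PF.leaf (nat_lit 6029377) (nat_lit 374857) (nat_lit 39308646) (nat_lit 17402537) [(nat_lit 374857), (nat_lit 0), (nat_lit 0), (nat_lit 8523341)]) (PF.cons (PF.leaf (nat_lit 6280506) (nat_lit 383764) (nat_lit 38984941) (nat_lit 17315640) [(nat_lit 383764), (nat_lit 0), (nat_lit 0), (nat_lit 8505643)]) (PF.cons (PF.leaf (nat_lit 6538680) (nat_lit 391824)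 (nat_lit 38654073) (nat_lit 17225676) [(nat_lit 391824), (nat_lit 0), (nat_lit 0), (nat_lit 8486291)]) (PF.cons PF.nil PF.nil))))))))) (PF.cons (PF.cons (PF.leaf (nat_lit 5499138) (nat_lit 1322392) (nat_lit 39733848)
 (nat_lit 17512405) [(nat_lit 0), (nat_lit 1322392), (nat_lit 0), (nat_lit 8540167)]) (PF.cons (PF.leaf (nat_lit 5714786) (nat_lit 357641) (nat_lit 39449549) (nat_lit 17437437) [(nat_lit 357641), (nat_lit 1337977), (nat_lit 0), (nat_lit 8526206)]) (PF.cons (PF.leaf (nat_lit 5943432) (nat_lit 368437) (nat_lit 39151045) (nat_lit 17357794) [(nat_lit 368437), (nat_lit 1352602), (nat_lit 0), (nat_lit 8510495)]) (PF.cons (PF.leaf (nat_lit 6182290) (nat_lit 378041) (nat_lit 38841260) (nat_lit 17274145) [(nat_lit 378041), (nat_lit 1366202), (nat_lit 0), (nat_lit 8493078)]) (PF.cons (PF.leaf (nat_lit 6429692) (nat_lit 386657) (nat_lit 38522419) (nat_lit 17186999) [(nat_lit 386657), (nat_lit 1378767), (nat_lit 0), (nat_lit 8473998)]) (PF.cons (PF.leaf (nat_lit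 6684379) (nat_lit 394428) (nat_lit 38196291) (nat_lit 17096767) [(nat_lit 394428), (nat_lit 1390314), (nat_lit 0), (nat_lit 8453299)]) (PF.cons PF.nil PF.nil))))))) (PF.cons (PF.cons (PF.leaf (nat_lit 6101922) (nat_lit 1362793) (nat_lit 38677165) (nat_lit 17226900) [(nat_lit 0), (nat_lit 1362793), (nat_lit 0), (nat_lit 8479160)]) (PF.cons (PF.leaf (nat_lit 6335159) (nat_lit 380586) (nat_lit 38374046) (nat_lit 17143565) [(nat_lit
 380586), (nat_lit 1375031), (nat_lit 0), (nat_lit 8460551)]) (PF.cons (PF.leaf (nat_lit 6578230) (nat_lit 389001) (nat_lit 38061210) (nat_lit 17056563) [(nat_lit 389001), (nat_lit 1386380), (nat_lit 0), (nat_lit 8440274)]) (PF.cons (PF.leaf (nat_lit 6829003) (nat_lit 396554) (nat_lit 37740707) (nat_lit 16966387) [(nat_lit 396554), (nat_lit 1396830), (nat_lit 0), (nat_lit 8418393)]) (PF.cons (PF.leaf (nat_lit 7086272) (nat_lit 403365) (nat_lit 37414157) (nat_lit 16873434) [(nat_lit 403365), (nat_lit 1406392), (nat_lit 0), (nat_lit 8394973)])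 PF.nil))))) (PF.cons (PF.cons (PF.leaf (nat_lit 6727363) (nat_lit 1392962) (nat_lit 37601070) (nat_lit 16924314) [(nat_lit 0), (nat_lit 1392962), (nat_lit 0), (nat_lit 8404539)]) (PF.cons (PF.leaf (nat_lit 6973065) (nat_lit 398209) (nat_lit 37287196) (nat_lit 16834561) [(nat_lit 398209), (nat_lit 1402396), (nat_lit 0), (nat_lit 8381656)]) (PF.cons (PF.leaf (nat_lit 7226274) (nat_lit 404854) (nat_lit 36966827) (nat_lit 16741929) [(nat_lit 404854), (nat_lit 1411033), (nat_lit 0), (nat_lit 8357245)]) (PF.cons PF.nil PF.nil)))) (PF.cons (PF.cons (PF.leaf (nat_lit 7366301) (nat_lit 1414867) (nat_lit 36522144) (nat_lit 16609284) [(nat_lit 0),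
 (nat_lit 1414867), (nat_lit 0), (nat_lit 8317912)]) (PF.cons (PF.leaf (nat_lit 7620620) (nat_lit 411791) (nat_lit 36203352) (nat_lit 16514706) [(nat_lit 411791), (nat_lit 1421931), (nat_lit 0), (nat_lit 8291236)]) PF.nil)) (PF.cons PF.nil PF.nil)))))) (PF.cons (PF.cons (PF.cons (PF.leaf (nat_lit 5969905) (nat_lit 3130437) (nat_lit 38395300) (nat_lit 17138587) [(nat_lit 0), (nat_lit 0), (nat_lit 3130437), (nat_lit 8444487)]) (PF.cons (PF.leaf (nat_lit 6187288) (nat_lit 366547) (nat_lit 38115408) (nat_lit 17061034) [(nat_lit 366547), (nat_lit 0), (nat_lit 3138877), (nat_lit 8426945)]) (PF.cons (PF.leaf (nat_lit 6416956) (nat_lit 376522) (nat_lit 37822521) (nat_lit 16979015) [(nat_lit 376522), (nat_lit 0), (nat_lit 3146582), (nat_lit 8407647)]) (PF.cons (PF.leaf (nat_lit 6656120) (nat_lit 385320) (nat_lit 37519491) (nat_lit 16893232) [(nat_lit 385320), (nat_lit 0), (nat_lit 3153435), (nat_lit 8386691)]) (PF.cons (PF.leaf (nat_lit 6903118) (nat_lit 393151) (nat_lit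 37208464) (nat_lit 16804216) [(nat_lit 393151), (nat_lit 0), (nat_lit 3159368), (nat_lit 8364156)]) (PF.cons (PF.leaf (nat_lit 7156791) (nat_lit 400166) (nat_lit 36891124) (nat_lit 16712390) [(nat_lit 400166), (nat_lit 0),
 (nat_lit 3164348), (nat_lit 8340115)]) (PF.cons PF.nil PF.nil))))))) (PF.cons (PF.cons (PF.leaf (nat_lit 6569518) (nat_lit 1376559) (nat_lit 37364203) (nat_lit 16846503) [(nat_lit 0), (nat_lit 1376559), (nat_lit 3149925), (nat_lit 8371619)]) (PF.cons (PF.leaf (nat_lit 6802804) (nat_lit 386950) (nat_lit 37068487) (nat_lit 16761443) [(nat_lit 386950), (nat_lit 1386720), (nat_lit 3155410), (nat_lit 8349800)]) (PF.cons (PF.leaf (nat_lit 7045265) (nat_lit 394654) (nat_lit 36764036) (nat_lit 16672954) [(nat_lit 394654), (nat_lit 1396061), (nat_lit 3160069), (nat_lit 8326381)]) (PF.cons (PF.leaf (nat_lit 7294819) (nat_lit 401515) (nat_lit 36452821) (nat_lit 16581545) [(nat_lit 401515), (nat_lit 1404580), (nat_lit 3163857), (nat_lit 8301461)]) (PF.cons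 PF.nil PF.nil))))) (PF.cons (PF.cons (PF.leaf (nat_lit 7188081) (nat_lit 1400386) (nat_lit 36321336) (nat_lit 16540311) [(nat_lit 0), (nat_lit 1400386), (nat_lit 3159448), (nat_lit 8286943)]) (PF.cons (PF.leaf (nat_lit 7432420) (nat_lit 402451) (nat_lit 36017126) (nat_lit 16449659) [(nat_lit 402451), (nat_lit 1408061), (nat_lit 3162141), (nat_lit 8261309)]) (PF.cons (PF.leaf (nat_lit 7683689) (nat_lit 408482) (nat_lit 35707189) (nat_lit
 16356370) [(nat_lit 408482), (nat_lit 1415008), (nat_lit 3164013), (nat_lit 8234257)]) (PF.cons PF.nil PF.nil)))) (PF.cons (PF.cons (PF.leaf (nat_lit 7817258) (nat_lit 1417054) (nat_lit 35281018) (nat_lit 16224335) [(nat_lit 0), (nat_lit 1417054), (nat_lit 3160207), (nat_lit 8192089)]) (PF.cons PF.nil PF.nil)) (PF.cons PF.nil PF.nil))))) (PF.cons (PF.cons (PF.cons (PF.leaf (nat_lit 7023434) (nat_lit 3142027) (nat_lit 36104058) (nat_lit 16466249) [(nat_lit 0), (nat_lit 0), (nat_lit 3142027), (nat_lit 8254450)]) (PF.cons (PF.leaf (nat_lit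 7255963) (nat_lit 391585) (nat_lit 35816876) (nat_lit 16380256) [(nat_lit 391585), (nat_lit 0), (nat_lit 3145019), (nat_lit 8230054)]) (PF.cons (PF.leaf (nat_lit 7497148) (nat_lit 398660) (nat_lit 35521810) (nat_lit 16291062) [(nat_lit 398660), (nat_lit 0), (nat_lit 3147241), (nat_lit 8204135)]) (PF.cons (PF.leaf (nat_lit 7744898) (nat_lit 404913) (nat_lit 35220742) (nat_lit 16199184) [(nat_lit 404913), (nat_lit 0), (nat_lit 3148665), (nat_lit 8176814)]) (PF.cons PF.nil PF.nil))))) (PF.cons (PF.cons (PF.leaf (nat_lit 7633829) (nat_lit 1403239) (nat_lit 35097141) (nat_lit 16159011) [(nat_lit 0), (nat_lit 1403239), (nat_lit 3143756), (nat_lit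
 8161907)]) (PF.cons (PF.leaf (nat_lit 7876248) (nat_lit 405253) (nat_lit 34803273) (nat_lit 16068159) [(nat_lit 405253), (nat_lit 1409425), (nat_lit 3144291), (nat_lit 8134118)]) (PF.cons PF.nil (PF.cons PF.nil PF.nil)))) (PF.cons (PF.cons (PF.leaf (nat_lit 8252496) (nat_lit 1415519) (nat_lit 34096756) (nat_lit 15844256) [(nat_lit 0), (nat_lit 1415519), (nat_lit 3137987), (nat_lit 8060785)]) (PF.cons PF.nil PF.nil)) PF.nil))) (PF.cons (PF.cons (PF.cons (PF.leaf (nat_lit 8064880) (nat_lit 3122118) (nat_lit 33928310) (nat_lit 15782561) [(nat_lit 0), (nat_lit 0), (nat_lit 3122118), (nat_lit 8031583)]) (PF.cons (PF.leaf (nat_lit 8304923) (nat_lit 406855) (nat_lit 33645147) (nat_lit 15692077) [(nat_lit 406855), (nat_lit 0), (nat_lit 3120864), (nat_lit 8002140)]) PF.nil)) (PF.cons PF.nil PF.nil)) (PF.cons PF.nil PF.nil))))) (PF.cons (PF.cons (PF.cons (PF.cons (PF.leaf (nat_lit 6730491) (nat_lit 8060239) (nat_lit 34940605) (nat_lit 16047728) [(nat_lit 0), (nat_lit 0),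 (nat_lit 0), (nat_lit 8060239)]) (PF.cons (PF.leaf (nat_lit 6940438) (nat_lit 362636) (nat_lit 34694821) (nat_lit 15972833) [(nat_lit 362636), (nat_lit 0), (nat_lit 0), (nat_lit 8039261)]) (PF.cons (PF.leaf (nat_lit
 7161770) (nat_lit 371796) (nat_lit 34438019) (nat_lit 15893933) [(nat_lit 371796), (nat_lit 0), (nat_lit 0), (nat_lit 8016633)]) (PF.cons (PF.leaf (nat_lit 7391719) (nat_lit 379784) (nat_lit 34172704) (nat_lit 15811730) [(nat_lit 379784), (nat_lit 0), (nat_lit 0), (nat_lit 7992511)]) (PF.cons (PF.leaf (nat_lit 7628769) (nat_lit 386820) (nat_lit 33900748) (nat_lit 15726749) [(nat_lit 386820), (nat_lit 0), (nat_lit 0), (nat_lit 7967015)]) (PF.cons PF.nil (PF.cons PF.nil PF.nil))))))) (PF.cons (PF.cons (PF.leaf (nat_lit 7301560) (nat_lit 1347658) (nat_lit 34039600) (nat_lit 15768149) [(nat_lit 0), (nat_lit 1347658), (nat_lit 0), (nat_lit 7976702)]) (PF.cons (PF.leaf (nat_lit 7525574) (nat_lit 380561) (nat_lit 33781067) (nat_lit 15687058) [(nat_lit 380561),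 (nat_lit 1355743), (nat_lit 0), (nat_lit 7952190)]) (PF.cons (PF.leaf (nat_lit 7758024) (nat_lit 387519) (nat_lit 33515201) (nat_lit 15602987) [(nat_lit 387519), (nat_lit 1363051), (nat_lit 0), (nat_lit 7926266)]) (PF.cons (PF.leaf (nat_lit 7996867) (nat_lit 393653) (nat_lit 33243711) (nat_lit 15516429) [(nat_lit 393653), (nat_lit 1369598), (nat_lit 0), (nat_lit 7899056)]) (PF.cons PF.nil PF.nil))))) (PF.cons (PF.cons (PF.leaf
 (nat_lit 7888175) (nat_lit 1365070) (nat_lit 33131452) (nat_lit 15478431) [(nat_lit 0), (nat_lit 1365070), (nat_lit 0), (nat_lit 7884394)]) (PF.cons (PF.leaf (nat_lit 8121821) (nat_lit 393895) (nat_lit 32866318) (nat_lit 15392946) [(nat_lit 393895), (nat_lit 1370942), (nat_lit 0), (nat_lit 7856883)]) (PF.cons PF.nil (PF.cons PF.nil PF.nil)))) (PF.cons (PF.cons (PF.leaf (nat_lit 8483037) (nat_lit 1376374) (nat_lit 32227660) (nat_lit 15182358) [(nat_lit 0), (nat_lit 1376374), (nat_lit 0), (nat_lit 7784834)]) (PF.cons PF.nil PF.nil)) (PF.cons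 PF.nil PF.nil))))) (PF.cons (PF.cons (PF.cons (PF.leaf (nat_lit 7720823) (nat_lit 3038349) (nat_lit 32950652) (nat_lit 15412355) [(nat_lit 0), (nat_lit 0), (nat_lit 3038349), (nat_lit 7853727)]) (PF.cons (PF.leaf (nat_lit 7943626) (nat_lit 383414) (nat_lit 32700091) (nat_lit 15331301) [(nat_lit 383414), (nat_lit 0), (nat_lit 3038732), (nat_lit 7827636)]) (PF.cons (PF.leaf (nat_lit 8174433) (nat_lit 389826) (nat_lit 32442863) (nat_lit 15247463) [(nat_lit 389826), (nat_lit 0), (nat_lit 3038423), (nat_lit 7800204)]) (PF.cons PF.nil PF.nil)))) (PF.cons (PF.cons (PF.leaf (nat_lit 8299135) (nat_lit 1363254) (nat_lit 32075075) (nat_lit 15124606)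
 [(nat_lit 0), (nat_lit 1363254), (nat_lit 3032102), (nat_lit 7756886)]) (PF.cons (PF.leaf (nat_lit 8530648) (nat_lit 395223) (nat_lit 31819222) (nat_lit 15039720) [(nat_lit 395223), (nat_lit 1367947), (nat_lit 3030457), (nat_lit 7728120)]) PF.nil)) (PF.cons PF.nil PF.nil))) (PF.cons (PF.cons (PF.cons (PF.leaf (nat_lit 8697147) (nat_lit 3005099) (nat_lit 31066436) (nat_lit 14777803) [(nat_lit 0), (nat_lit 0), (nat_lit 3005099), (nat_lit 7627187)]) (PF.cons PF.nil PF.nil)) (PF.cons PF.nil PF.nil)) PF.nil))) (PF.cons (PF.cons (PF.cons (PF.cons (PF.leaf (nat_lit 8349177) (nat_lit 7467328) (nat_lit 30252595) (nat_lit 14454232) [(nat_lit 0), (nat_lit 0), (nat_lit 0), (nat_lit 7467328)]) (PF.cons (PF.leaf (nat_lit 8562761) (nat_lit 373780) (nat_lit 30033187) (nat_lit 14378880) [(nat_lit 373780), (nat_lit 0), (nat_lit 0), (nat_lit 7440988)]) (PF.cons (PF.leaf (nat_lit 8783832) (nat_lit 379652) (nat_lit 29808052) (nat_lit 14301082) [(nat_lit 379652), (nat_lit 0), (nat_lit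 0), (nat_lit 7413457)]) (PF.cons PF.nil PF.nil)))) (PF.cons (PF.cons (PF.leaf (nat_lit 8898516) (nat_lit 1320229) (nat_lit 29487998) (nat_lit 14188019) [(nat_lit 0), (nat_lit 1320229), (nat_lit 0), (nat_lit 7370854)])
 (PF.cons PF.nil PF.nil)) (PF.cons PF.nil PF.nil))) (PF.cons (PF.cons (PF.cons (PF.leaf (nat_lit 9268648) (nat_lit 2888093) (nat_lit 28612562) (nat_lit 13871083) [(nat_lit 0), (nat_lit 0), (nat_lit 2888093), (nat_lit 7245691)]) (PF.cons PF.nil PF.nil)) PF.nil) PF.nil)) (PF.cons PF.nil (PF.cons PF.nil (PF.cons PF.nil (PF.cons PF.nil PF.nil))))))))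

def p14_12_3_0 : pfC (piC [(nat_lit 40173837), (nat_lit 25770221), (nat_lit 19310217), (nat_lit 12946273)] (nat_lit 5041812)) p14_12_3 (nat_lit 4) (nat_lit 0) (nat_lit 1) = true := by decide +kernel
def p14_12_3_1 : pfC (piC [(nat_lit 40173837), (nat_lit 25770221), (nat_lit 19310217), (nat_lit 12946273)] (nat_lit 5041812)) p14_12_3 (nat_lit 4) (nat_lit 1) (nat_lit 2) = true := by decide +kernel
def p14_12_3_2 : pfC (piC [(nat_lit 40173837), (nat_lit 25770221), (nat_lit 19310217), (nat_lit 12946273)] (nat_lit 5041812)) p14_12_3 (nat_lit 4) (nat_lit 2) (nat_lit 3) = true := by decide +kernel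
def p14_12_3_3 : pfC (piC [(nat_lit 40173837), (nat_lit 25770221), (nat_lit 19310217), (nat_lit 12946273)] (nat_lit 5041812)) p14_12_3 (nat_lit 4) (nat_lit 3) (nat_lit 4) = true := by decide +kernel
def p14_12_3_4 : pfC (piC [(nat_lit 40173837), (nat_lit 25770221), (nat_lit 19310217), (nat_lit 12946273)] (nat_lit 5041812)) p14_12_3 (nat_lit 4) (nat_lit 4) (nat_lit 5) = true := by decide +kernel
def p14_12_3_5 : pfC (piC [(nat_lit 40173837), (nat_lit 25770221), (nat_lit 19310217), (nat_lit 12946273)] (nat_lit 5041812)) p14_12_3 (nat_lit 4) (nat_lit 5) (nat_lit 6) = true := by decide +kernel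
def p14_12_3_6 : pfC (piC [(nat_lit 40173837), (nat_lit 25770221), (nat_lit 19310217), (nat_lit 12946273)] (nat_lit 5041812)) p14_12_3 (nat_lit 4) (nat_lit 6) (nat_lit 7) = true := by decide +kernel
def p14_12_3_7 : pfC (piC [(nat_lit 40173837), (nat_lit 25770221), (nat_lit 19310217), (nat_lit 12946273)] (nat_lit 5041812)) p14_12_3 (nat_lit 4) (nat_lit 7) (nat_lit 8) = true := by decide +kernel
def p14_12_3_8 : pfC (piC [(nat_lit 40173837), (nat_lit 25770221), (nat_lit 19310217), (nat_lit 12946273)] (nat_lit 5041812)) p14_12_3 (nat_lit 4) (nat_lit 8) (nat_lit 9) = true := by decide +kernel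
def p14_12_3_9 : pfC (piC [(nat_lit 40173837), (nat_lit 25770221), (nat_lit 19310217), (nat_lit 12946273)] (nat_lit 5041812)) p14_12_3 (nat_lit 4) (nat_lit 9) (nat_lit 10) = true := by decide +kernel
def p14_12_3_10 : pfC (piC [(nat_lit 40173837), (nat_lit 25770221), (nat_lit 19310217), (nat_lit 12946273)] (nat_lit 5041812)) p14_12_3 (nat_lit 4) (nat_lit 10) (nat_lit 11) = true := by decide +kernel
def p14_12_3_11 : pfC (piC [(nat_lit 40173837), (nat_lit 25770221), (nat_lit 19310217), (nat_lit 12946273)] (nat_lit 5041812)) p14_12_3 (nat_lit 4) (nat_lit 11) (nat_lit 12) = true := by decide +kernel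
def p14_12_3_12 : pfC (piC [(nat_lit 40173837), (nat_lit 25770221), (nat_lit 19310217), (nat_lit 12946273)] (nat_lit 5041812)) p14_12_3 (nat_lit 4) (nat_lit 12) (nat_lit 13) = true := by decide +kernel
def p14_12_3_13 : pfC (piC [(nat_lit 40173837), (nat_lit 25770221), (nat_lit 19310217), (nat_lit 12946273)] (nat_lit 5041812)) p14_12_3 (nat_lit 4) (nat_lit 13) (nat_lit 14) = true := by decide +kernel
def p14_12_3_14 : pfC (piC [(nat_lit 40173837), (nat_lit 25770221), (nat_lit 19310217), (nat_lit 12946273)] (nat_lit 5041812)) p14_12_3 (nat_lit 4) (nat_lit 14) (nat_lit 15) = true := by decide +kernel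
def p14_12_3_15 : pfC (piC [(nat_lit 40173837), (nat_lit 25770221), (nat_lit 19310217), (nat_lit 12946273)] (nat_lit 5041812)) p14_12_3 (nat_lit 4) (nat_lit 15) (nat_lit 16) = true := by decide +kernel
def p14_12_3_16 : pfC (piC [(nat_lit 40173837), (nat_lit 25770221), (nat_lit 19310217), (nat_lit 12946273)] (nat_lit 5041812)) p14_12_3 (nat_lit 4) (nat_lit 16) (nat_lit 17) = true := by decide +kernel
def p14_12_3_17 : pfC (piC [(nat_lit 40173837), (nat_lit 25770221), (nat_lit 19310217), (nat_lit 12946273)] (nat_lit 5041812)) p14_12_3 (nat_lit 4) (nat_lit 17) (nat_lit 18) = true := by decide +kernel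
def p14_12_3_18 : pfC (piC [(nat_lit 40173837), (nat_lit 25770221), (nat_lit 19310217), (nat_lit 12946273)] (nat_lit 5041812)) p14_12_3 (nat_lit 4) (nat_lit 18) (nat_lit 19) = true := by decide +kernel
def p14_12_3_19 : pfC (piC [(nat_lit 40173837), (nat_lit 25770221), (nat_lit 19310217), (nat_lit 12946273)] (nat_lit 5041812)) p14_12_3 (nat_lit 4) (nat_lit 19) (nat_lit 20) = true := by decide +kernel
def p14_12_3_20 : pfC (piC [(nat_lit 40173837), (nat_lit 25770221), (nat_lit 19310217), (nat_lit 12946273)] (nat_lit 5041812)) p14_12_3 (nat_lit 4) (nat_lit 20) (nat_lit 21) = true := by decide +kernel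
def p14_12_3_21 : pfC (piC [(nat_lit 40173837), (nat_lit 25770221), (nat_lit 19310217), (nat_lit 12946273)] (nat_lit 5041812)) p14_12_3 (nat_lit 4) (nat_lit 21) (nat_lit 22) = true := by decide +kernel
def p14_12_3_22 : pfC (piC [(nat_lit 40173837), (nat_lit 25770221), (nat_lit 19310217), (nat_lit 12946273)] (nat_lit 5041812)) p14_12_3 (nat_lit 4) (nat_lit 22) (nat_lit 23) = true := by decide +kernel
def p14_12_3_23 : pfC (piC [(nat_lit 40173837), (nat_lit 25770221), (nat_lit 19310217), (nat_lit 12946273)] (nat_lit 5041812)) p14_12_3 (nat_lit 4) (nat_lit 23) (nat_lit 24) = true := by decide +kernel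
def p14_12_3_24 : pfC (piC [(nat_lit 40173837), (nat_lit 25770221), (nat_lit 19310217), (nat_lit 12946273)] (nat_lit 5041812)) p14_12_3 (nat_lit 4) (nat_lit 24) (nat_lit 25) = true := by decide +kernel
def p14_12_3_25 : pfC (piC [(nat_lit 40173837), (nat_lit 25770221), (nat_lit 19310217), (nat_lit 12946273)] (nat_lit 5041812)) p14_12_3 (nat_lit 4) (nat_lit 25) (nat_lit 26) = true := by decide +kernel
def p14_12_3_26 : pfC (piC [(nat_lit 40173837), (nat_lit 25770221), (nat_lit 19310217), (nat_lit 12946273)] (nat_lit 5041812)) p14_12_3 (nat_lit 4) (nat_lit 26) (nat_lit 27) = true := by decide +kernel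
def p14_12_3_27 : pfC (piC [(nat_lit 40173837), (nat_lit 25770221), (nat_lit 19310217), (nat_lit 12946273)] (nat_lit 5041812)) p14_12_3 (nat_lit 4) (nat_lit 27) (nat_lit 28) = true := by decide +kernel
def p14_12_3_28 : pfC (piC [(nat_lit 40173837), (nat_lit 25770221), (nat_lit 19310217), (nat_lit 12946273)] (nat_lit 5041812)) p14_12_3 (nat_lit 4) (nat_lit 28) (nat_lit 29) = true := by decide +kernel
def p14_12_3_29 : pfC (piC [(nat_lit 40173837), (nat_lit 25770221), (nat_lit 19310217), (nat_lit 12946273)] (nat_lit 5041812)) p14_12_3 (nat_lit 4) (nat_lit 29) (nat_lit 30) = true := by decide +kernel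
def p14_12_3_30 : pfC (piC [(nat_lit 40173837), (nat_lit 25770221), (nat_lit 19310217), (nat_lit 12946273)] (nat_lit 5041812)) p14_12_3 (nat_lit 4) (nat_lit 30) (nat_lit 31) = true := by decide +kernel
def p14_12_3_31 : pfC (piC [(nat_lit 40173837), (nat_lit 25770221), (nat_lit 19310217), (nat_lit 12946273)] (nat_lit 5041812)) p14_12_3 (nat_lit 4) (nat_lit 31) (nat_lit 32) = true := by decide +kernel
def p14_12_3_32 : pfC (piC [(nat_lit 40173837), (nat_lit 25770221), (nat_lit 19310217), (nat_lit 12946273)] (nat_lit 5041812)) p14_12_3 (nat_lit 4) (nat_lit 32) (nat_lit 33) = true := by decide +kernel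
def p14_12_3_33 : pfC (piC [(nat_lit 40173837), (nat_lit 25770221), (nat_lit 19310217), (nat_lit 12946273)] (nat_lit 5041812)) p14_12_3 (nat_lit 4) (nat_lit 33) (nat_lit 34) = true := by decide +kernel
def p14_12_3_34 : pfC (piC [(nat_lit 40173837), (nat_lit 25770221), (nat_lit 19310217), (nat_lit 12946273)] (nat_lit 5041812)) p14_12_3 (nat_lit 4) (nat_lit 34) (nat_lit 35) = true := by decide +kernel
def p14_12_3_35 : pfC (piC [(nat_lit 40173837), (nat_lit 25770221), (nat_lit 19310217), (nat_lit 12946273)] (nat_lit 5041812)) p14_12_3 (nat_lit 4) (nat_lit 35) (nat_lit 36) = true := by decide +kernel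
def p14_12_3_36 : pfC (piC [(nat_lit 40173837), (nat_lit 25770221), (nat_lit 19310217), (nat_lit 12946273)] (nat_lit 5041812)) p14_12_3 (nat_lit 4) (nat_lit 36) (nat_lit 37) = true := by decide +kernel
def p14_12_3_37 : pfC (piC [(nat_lit 40173837), (nat_lit 25770221), (nat_lit 19310217), (nat_lit 12946273)] (nat_lit 5041812)) p14_12_3 (nat_lit 4) (nat_lit 37) (nat_lit 38) = true := by decide +kernel
def p14_12_3_38 : pfC (piC [(nat_lit 40173837), (nat_lit 25770221), (nat_lit 19310217), (nat_lit 12946273)] (nat_lit 5041812)) p14_12_3 (nat_lit 4) (nat_lit 38) (nat_lit 39) = true := by decide +kernel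
def p14_12_3_39 : pfC (piC [(nat_lit 40173837), (nat_lit 25770221), (nat_lit 19310217), (nat_lit 12946273)] (nat_lit 5041812)) p14_12_3 (nat_lit 4) (nat_lit 39) (nat_lit 40) = true := by decide +kernel
def p14_12_3_40 : pfC (piC [(nat_lit 40173837), (nat_lit 25770221), (nat_lit 19310217), (nat_lit 12946273)] (nat_lit 5041812)) p14_12_3 (nat_lit 4) (nat_lit 40) (nat_lit 41) = true := by decide +kernel
def p14_12_3_41 : pfC (piC [(nat_lit 40173837), (nat_lit 25770221), (nat_lit 19310217), (nat_lit 12946273)] (nat_lit 5041812)) p14_12_3 (nat_lit 4) (nat_lit 41) (nat_lit 42) = true := by decide +kernel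
def p14_12_3_42 : pfC (piC [(nat_lit 40173837), (nat_lit 25770221), (nat_lit 19310217), (nat_lit 12946273)] (nat_lit 5041812)) p14_12_3 (nat_lit 4) (nat_lit 42) (nat_lit 43) = true := by decide +kernel
def p14_12_3_43 : pfC (piC [(nat_lit 40173837), (nat_lit 25770221), (nat_lit 19310217), (nat_lit 12946273)] (nat_lit 5041812)) p14_12_3 (nat_lit 4) (nat_lit 43) (nat_lit 44) = true := by decide +kernel
def p14_12_3_44 : pfC (piC [(nat_lit 40173837), (nat_lit 25770221), (nat_lit 19310217), (nat_lit 12946273)] (nat_lit 5041812)) p14_12_3 (nat_lit 4) (nat_lit 44) (nat_lit 45) = true := by decide +kernel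
def p14_12_3_45 : pfC (piC [(nat_lit 40173837), (nat_lit 25770221), (nat_lit 19310217), (nat_lit 12946273)] (nat_lit 5041812)) p14_12_3 (nat_lit 4) (nat_lit 45) (nat_lit 46) = true := by decide +kernel
def p14_12_3_46 : pfC (piC [(nat_lit 40173837), (nat_lit 25770221), (nat_lit 19310217), (nat_lit 12946273)] (nat_lit 5041812)) p14_12_3 (nat_lit 4) (nat_lit 46) (nat_lit 47) = true := by decide +kernel
def p14_12_3_47 : pfC (piC [(nat_lit 40173837), (nat_lit 25770221), (nat_lit 19310217), (nat_lit 12946273)] (nat_lit 5041812)) p14_12_3 (nat_lit 4) (nat_lit 47) (nat_lit 48) = true := by decide +kernel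
def p14_12_3_48 : pfC (piC [(nat_lit 40173837), (nat_lit 25770221), (nat_lit 19310217), (nat_lit 12946273)] (nat_lit 5041812)) p14_12_3 (nat_lit 4) (nat_lit 48) (nat_lit 49) = true := by decide +kernel
def p14_12_3_49 : pfC (piC [(nat_lit 40173837), (nat_lit 25770221), (nat_lit 19310217), (nat_lit 12946273)] (nat_lit 5041812)) p14_12_3 (nat_lit 4) (nat_lit 49) (nat_lit 50) = true := by decide +kernel
def p14_12_3_50 : pfC (piC [(nat_lit 40173837), (nat_lit 25770221), (nat_lit 19310217), (nat_lit 12946273)] (nat_lit 5041812)) p14_12_3 (nat_lit 4) (nat_lit 50) (nat_lit 51) = true := by decide +kernel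
def p14_12_3_51 : pfC (piC [(nat_lit 40173837), (nat_lit 25770221), (nat_lit 19310217), (nat_lit 12946273)] (nat_lit 5041812)) p14_12_3 (nat_lit 4) (nat_lit 51) (nat_lit 52) = true := by decide +kernel
def p14_12_3_52 : pfC (piC [(nat_lit 40173837), (nat_lit 25770221), (nat_lit 19310217), (nat_lit 12946273)] (nat_lit 5041812)) p14_12_3 (nat_lit 4) (nat_lit 52) (nat_lit 53) = true := by decide +kernel
def p14_12_3_53 : pfC (piC [(nat_lit 40173837), (nat_lit 25770221), (nat_lit 19310217), (nat_lit 12946273)] (nat_lit 5041812)) p14_12_3 (nat_lit 4) (nat_lit 53) (nat_lit 54) = true := by decide +kernel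
def p14_12_3_54 : pfC (piC [(nat_lit 40173837), (nat_lit 25770221), (nat_lit 19310217), (nat_lit 12946273)] (nat_lit 5041812)) p14_12_3 (nat_lit 4) (nat_lit 54) (nat_lit 55) = true := by decide +kernel
def p14_12_3_55 : pfC (piC [(nat_lit 40173837), (nat_lit 25770221), (nat_lit 19310217), (nat_lit 12946273)] (nat_lit 5041812)) p14_12_3 (nat_lit 4) (nat_lit 55) (nat_lit 56) = true := by decide +kernel
def p14_12_3_56 : pfC (piC [(nat_lit 40173837), (nat_lit 25770221), (nat_lit 19310217), (nat_lit 12946273)] (nat_lit 5041812)) p14_12_3 (nat_lit 4) (nat_lit 56) (nat_lit 57) = true := by decide +kernel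
def p14_12_3_57 : pfC (piC [(nat_lit 40173837), (nat_lit 25770221), (nat_lit 19310217), (nat_lit 12946273)] (nat_lit 5041812)) p14_12_3 (nat_lit 4) (nat_lit 57) (nat_lit 58) = true := by decide +kernel
def p14_12_3_58 : pfC (piC [(nat_lit 40173837), (nat_lit 25770221), (nat_lit 19310217), (nat_lit 12946273)] (nat_lit 5041812)) p14_12_3 (nat_lit 4) (nat_lit 58) (nat_lit 59) = true := by decide +kernel
def p14_12_3_59 : pfC (piC [(nat_lit 40173837), (nat_lit 25770221), (nat_lit 19310217), (nat_lit 12946273)] (nat_lit 5041812)) p14_12_3 (nat_lit 4) (nat_lit 59) (nat_lit 60) = true := by decide +kernel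
def p14_12_3_60 : pfC (piC [(nat_lit 40173837), (nat_lit 25770221), (nat_lit 19310217), (nat_lit 12946273)] (nat_lit 5041812)) p14_12_3 (nat_lit 4) (nat_lit 60) (nat_lit 61) = true := by decide +kernel
def p14_12_3_61 : pfC (piC [(nat_lit 40173837), (nat_lit 25770221), (nat_lit 19310217), (nat_lit 12946273)] (nat_lit 5041812)) p14_12_3 (nat_lit 4) (nat_lit 61) (nat_lit 62) = true := by decide +kernel
def p14_12_3_62 : pfC (piC [(nat_lit 40173837), (nat_lit 25770221), (nat_lit 19310217), (nat_lit 12946273)] (nat_lit 5041812)) p14_12_3 (nat_lit 4) (nat_lit 62) (nat_lit 63) = true := by decide +kernel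
def p14_12_3_63 : pfC (piC [(nat_lit 40173837), (nat_lit 25770221), (nat_lit 19310217), (nat_lit 12946273)] (nat_lit 5041812)) p14_12_3 (nat_lit 4) (nat_lit 63) (nat_lit 64) = true := by decide +kernel
def p14_12_3_64 : pfC (piC [(nat_lit 40173837), (nat_lit 25770221), (nat_lit 19310217), (nat_lit 12946273)] (nat_lit 5041812)) p14_12_3 (nat_lit 4) (nat_lit 64) (nat_lit 65) = true := by decide +kernel
def p14_12_3_65 : pfC (piC [(nat_lit 40173837), (nat_lit 25770221), (nat_lit 19310217), (nat_lit 12946273)] (nat_lit 5041812)) p14_12_3 (nat_lit 4) (nat_lit 65) (nat_lit 66) = true := by decide +kernel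
def p14_12_3_66 : pfC (piC [(nat_lit 40173837), (nat_lit 25770221), (nat_lit 19310217), (nat_lit 12946273)] (nat_lit 5041812)) p14_12_3 (nat_lit 4) (nat_lit 66) (nat_lit 67) = true := by decide +kernel
def p14_12_3_67 : pfC (piC [(nat_lit 40173837), (nat_lit 25770221), (nat_lit 19310217), (nat_lit 12946273)] (nat_lit 5041812)) p14_12_3 (nat_lit 4) (nat_lit 67) (nat_lit 68) = true := by decide +kernel
def p14_12_3_68 : pfC (piC [(nat_lit 40173837), (nat_lit 25770221), (nat_lit 19310217), (nat_lit 12946273)] (nat_lit 5041812)) p14_12_3 (nat_lit 4) (nat_lit 68) (nat_lit 69) = true := by decide +kernel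
def p14_12_3_69 : pfC (piC [(nat_lit 40173837), (nat_lit 25770221), (nat_lit 19310217), (nat_lit 12946273)] (nat_lit 5041812)) p14_12_3 (nat_lit 4) (nat_lit 69) (nat_lit 70) = true := by decide +kernel
def p14_12_3_70 : pfC (piC [(nat_lit 40173837), (nat_lit 25770221), (nat_lit 19310217), (nat_lit 12946273)] (nat_lit 5041812)) p14_12_3 (nat_lit 4) (nat_lit 70) (nat_lit 71) = true := by decide +kernel
def p14_12_3_71 : pfC (piC [(nat_lit 40173837), (nat_lit 25770221), (nat_lit 19310217), (nat_lit 12946273)] (nat_lit 5041812)) p14_12_3 (nat_lit 4) (nat_lit 71) (nat_lit 72) = true := by decide +kernel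
def p14_12_3_72 : pfC (piC [(nat_lit 40173837), (nat_lit 25770221), (nat_lit 19310217), (nat_lit 12946273)] (nat_lit 5041812)) p14_12_3 (nat_lit 4) (nat_lit 72) (nat_lit 73) = true := by decide +kernel
def p14_12_3_73 : pfC (piC [(nat_lit 40173837), (nat_lit 25770221), (nat_lit 19310217), (nat_lit 12946273)] (nat_lit 5041812)) p14_12_3 (nat_lit 4) (nat_lit 73) (nat_lit 74) = true := by decide +kernel
def p14_12_3_74 : pfC (piC [(nat_lit 40173837), (nat_lit 25770221), (nat_lit 19310217), (nat_lit 12946273)] (nat_lit 5041812)) p14_12_3 (nat_lit 4) (nat_lit 74) (nat_lit 75) = true := by decide +kernel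
def p14_12_3_75 : pfC (piC [(nat_lit 40173837), (nat_lit 25770221), (nat_lit 19310217), (nat_lit 12946273)] (nat_lit 5041812)) p14_12_3 (nat_lit 4) (nat_lit 75) (nat_lit 76) = true := by decide +kernel
def p14_12_3_76 : pfC (piC [(nat_lit 40173837), (nat_lit 25770221), (nat_lit 19310217), (nat_lit 12946273)] (nat_lit 5041812)) p14_12_3 (nat_lit 4) (nat_lit 76) (nat_lit 77) = true := by decide +kernel
def p14_12_3_77 : pfC (piC [(nat_lit 40173837), (nat_lit 25770221), (nat_lit 19310217), (nat_lit 12946273)] (nat_lit 5041812)) p14_12_3 (nat_lit 4) (nat_lit 77) (nat_lit 78) = true := by decide +kernel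
def p14_12_3_78 : pfC (piC [(nat_lit 40173837), (nat_lit 25770221), (nat_lit 19310217), (nat_lit 12946273)] (nat_lit 5041812)) p14_12_3 (nat_lit 4) (nat_lit 78) (nat_lit 79) = true := by decide +kernel
def p14_12_3_79 : pfC (piC [(nat_lit 40173837), (nat_lit 25770221), (nat_lit 19310217), (nat_lit 12946273)] (nat_lit 5041812)) p14_12_3 (nat_lit 4) (nat_lit 79) (nat_lit 80) = true := by decide +kernel
def p14_12_3_80 : pfC (piC [(nat_lit 40173837), (nat_lit 25770221), (nat_lit 19310217), (nat_lit 12946273)] (nat_lit 5041812)) p14_12_3 (nat_lit 4) (nat_lit 80) (nat_lit 81) = true := by decide +kernel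
def p14_12_3_81 : pfC (piC [(nat_lit 40173837), (nat_lit 25770221), (nat_lit 19310217), (nat_lit 12946273)] (nat_lit 5041812)) p14_12_3 (nat_lit 4) (nat_lit 81) (nat_lit 82) = true := by decide +kernel
def p14_12_3_82 : pfC (piC [(nat_lit 40173837), (nat_lit 25770221), (nat_lit 19310217), (nat_lit 12946273)] (nat_lit 5041812)) p14_12_3 (nat_lit 4) (nat_lit 82) (nat_lit 83) = true := by decide +kernel
def p14_12_3_83 : pfC (piC [(nat_lit 40173837), (nat_lit 25770221), (nat_lit 19310217), (nat_lit 12946273)] (nat_lit 5041812)) p14_12_3 (nat_lit 4) (nat_lit 83) (nat_lit 84) = true := by decide +kernel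
def p14_12_3_84 : pfC (piC [(nat_lit 40173837), (nat_lit 25770221), (nat_lit 19310217), (nat_lit 12946273)] (nat_lit 5041812)) p14_12_3 (nat_lit 4) (nat_lit 84) (nat_lit 85) = true := by decide +kernel
def p14_12_3_85 : pfC (piC [(nat_lit 40173837), (nat_lit 25770221), (nat_lit 19310217), (nat_lit 12946273)] (nat_lit 5041812)) p14_12_3 (nat_lit 4) (nat_lit 85) (nat_lit 86) = true := by decide +kernel
def p14_12_3_86 : pfC (piC [(nat_lit 40173837), (nat_lit 25770221), (nat_lit 19310217), (nat_lit 12946273)] (nat_lit 5041812)) p14_12_3 (nat_lit 4) (nat_lit 86) (nat_lit 87) = true := by decide +kernel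
def p14_12_3_87 : pfC (piC [(nat_lit 40173837), (nat_lit 25770221), (nat_lit 19310217), (nat_lit 12946273)] (nat_lit 5041812)) p14_12_3 (nat_lit 4) (nat_lit 87) (nat_lit 88) = true := by decide +kernel
def p14_12_3_88 : pfC (piC [(nat_lit 40173837), (nat_lit 25770221), (nat_lit 19310217), (nat_lit 12946273)] (nat_lit 5041812)) p14_12_3 (nat_lit 4) (nat_lit 88) (nat_lit 89) = true := by decide +kernel
def p14_12_3_89 : pfC (piC [(nat_lit 40173837), (nat_lit 25770221), (nat_lit 19310217), (nat_lit 12946273)] (nat_lit 5041812)) p14_12_3 (nat_lit 4) (nat_lit 89) (nat_lit 90) = true := by decide +kernel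
def p14_12_3_90 : pfC (piC [(nat_lit 40173837), (nat_lit 25770221), (nat_lit 19310217), (nat_lit 12946273)] (nat_lit 5041812)) p14_12_3 (nat_lit 4) (nat_lit 90) (nat_lit 91) = true := by decide +kernel
def p14_12_3_91 : pfC (piC [(nat_lit 40173837), (nat_lit 25770221), (nat_lit 19310217), (nat_lit 12946273)] (nat_lit 5041812)) p14_12_3 (nat_lit 4) (nat_lit 91) (nat_lit 92) = true := by decide +kernel
def p14_12_3_92 : pfC (piC [(nat_lit 40173837), (nat_lit 25770221), (nat_lit 19310217), (nat_lit 12946273)] (nat_lit 5041812)) p14_12_3 (nat_lit 4) (nat_lit 92) (nat_lit 93) = true := by decide +kernel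
def p14_12_3_93 : pfC (piC [(nat_lit 40173837), (nat_lit 25770221), (nat_lit 19310217), (nat_lit 12946273)] (nat_lit 5041812)) p14_12_3 (nat_lit 4) (nat_lit 93) (nat_lit 94) = true := by decide +kernel
def p14_12_3_94 : pfC (piC [(nat_lit 40173837), (nat_lit 25770221), (nat_lit 19310217), (nat_lit 12946273)] (nat_lit 5041812)) p14_12_3 (nat_lit 4) (nat_lit 94) (nat_lit 95) = true := by decide +kernel
def p14_12_3_95 : pfC (piC [(nat_lit 40173837), (nat_lit 25770221), (nat_lit 19310217), (nat_lit 12946273)] (nat_lit 5041812)) p14_12_3 (nat_lit 4) (nat_lit 95) (nat_lit 96) = true := by decide +kernel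
def p14_12_3_96 : pfC (piC [(nat_lit 40173837), (nat_lit 25770221), (nat_lit 19310217), (nat_lit 12946273)] (nat_lit 5041812)) p14_12_3 (nat_lit 4) (nat_lit 96) (nat_lit 97) = true := by decide +kernel
def p14_12_3_97 : pfC (piC [(nat_lit 40173837), (nat_lit 25770221), (nat_lit 19310217), (nat_lit 12946273)] (nat_lit 5041812)) p14_12_3 (nat_lit 4) (nat_lit 97) (nat_lit 98) = true := by decide +kernel
def p14_12_3_98 : pfC (piC [(nat_lit 40173837), (nat_lit 25770221), (nat_lit 19310217), (nat_lit 12946273)] (nat_lit 5041812)) p14_12_3 (nat_lit 4) (nat_lit 98) (nat_lit 99) = true := by decide +kernel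
def p14_12_3_99 : pfC (piC [(nat_lit 40173837), (nat_lit 25770221), (nat_lit 19310217), (nat_lit 12946273)] (nat_lit 5041812)) p14_12_3 (nat_lit 4) (nat_lit 99) (nat_lit 100) = true := by decide +kernel
def p14_12_3_100 : pfC (piC [(nat_lit 40173837), (nat_lit 25770221), (nat_lit 19310217), (nat_lit 12946273)] (nat_lit 5041812)) p14_12_3 (nat_lit 4) (nat_lit 100) (nat_lit 101) = true := by decide +kernel
def p14_12_3_101 : pfC (piC [(nat_lit 40173837), (nat_lit 25770221), (nat_lit 19310217), (nat_lit 12946273)] (nat_lit 5041812)) p14_12_3 (nat_lit 4) (nat_lit 101) (nat_lit 102) = true := by decide +kernel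
def p14_12_3_102 : pfC (piC [(nat_lit 40173837), (nat_lit 25770221), (nat_lit 19310217), (nat_lit 12946273)] (nat_lit 5041812)) p14_12_3 (nat_lit 4) (nat_lit 102) (nat_lit 103) = true := by decide +kernel
def p14_12_3_103 : pfC (piC [(nat_lit 40173837), (nat_lit 25770221), (nat_lit 19310217), (nat_lit 12946273)] (nat_lit 5041812)) p14_12_3 (nat_lit 4) (nat_lit 103) (nat_lit 104) = true := by decide +kernel
def p14_12_3_104 : pfC (piC [(nat_lit 40173837), (nat_lit 25770221), (nat_lit 19310217), (nat_lit 12946273)] (nat_lit 5041812)) p14_12_3 (nat_lit 4) (nat_lit 104) (nat_lit 105) = true := by decide +kernel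
def p14_12_3_105 : pfC (piC [(nat_lit 40173837), (nat_lit 25770221), (nat_lit 19310217), (nat_lit 12946273)] (nat_lit 5041812)) p14_12_3 (nat_lit 4) (nat_lit 105) (nat_lit 106) = true := by decide +kernel
def p14_12_3_106 : pfC (piC [(nat_lit 40173837), (nat_lit 25770221), (nat_lit 19310217), (nat_lit 12946273)] (nat_lit 5041812)) p14_12_3 (nat_lit 4) (nat_lit 106) (nat_lit 107) = true := by decide +kernel
def p14_12_3_107 : pfC (piC [(nat_lit 40173837), (nat_lit 25770221), (nat_lit 19310217), (nat_lit 12946273)] (nat_lit 5041812)) p14_12_3 (nat_lit 4) (nat_lit 107) (nat_lit 108) = true := by decide +kernel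
def p14_12_3_108 : pfC (piC [(nat_lit 40173837), (nat_lit 25770221), (nat_lit 19310217), (nat_lit 12946273)] (nat_lit 5041812)) p14_12_3 (nat_lit 4) (nat_lit 108) (nat_lit 109) = true := by decide +kernel
def p14_12_3_109 : pfC (piC [(nat_lit 40173837), (nat_lit 25770221), (nat_lit 19310217), (nat_lit 12946273)] (nat_lit 5041812)) p14_12_3 (nat_lit 4) (nat_lit 109) (nat_lit 110) = true := by decide +kernel
def p14_12_3_110 : pfC (piC [(nat_lit 40173837), (nat_lit 25770221), (nat_lit 19310217), (nat_lit 12946273)] (nat_lit 5041812)) p14_12_3 (nat_lit 4) (nat_lit 110) (nat_lit 111) = true := by decide +kernel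
def p14_12_3_111 : pfC (piC [(nat_lit 40173837), (nat_lit 25770221), (nat_lit 19310217), (nat_lit 12946273)] (nat_lit 5041812)) p14_12_3 (nat_lit 4) (nat_lit 111) (nat_lit 112) = true := by decide +kernel
def p14_12_3_112 : pfC (piC [(nat_lit 40173837), (nat_lit 25770221), (nat_lit 19310217), (nat_lit 12946273)] (nat_lit 5041812)) p14_12_3 (nat_lit 4) (nat_lit 112) (nat_lit 113) = true := by decide +kernel
def p14_12_3_113 : pfC (piC [(nat_lit 40173837), (nat_lit 25770221), (nat_lit 19310217), (nat_lit 12946273)] (nat_lit 5041812)) p14_12_3 (nat_lit 4) (nat_lit 113) (nat_lit 114) = true := by decide +kernel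
def p14_12_3_114 : pfC (piC [(nat_lit 40173837), (nat_lit 25770221), (nat_lit 19310217), (nat_lit 12946273)] (nat_lit 5041812)) p14_12_3 (nat_lit 4) (nat_lit 114) (nat_lit 115) = true := by decide +kernel
def p14_12_3_115 : pfC (piC [(nat_lit 40173837), (nat_lit 25770221), (nat_lit 19310217), (nat_lit 12946273)] (nat_lit 5041812)) p14_12_3 (nat_lit 4) (nat_lit 115) (nat_lit 116) = true := by decide +kernel
def p14_12_3_116 : pfC (piC [(nat_lit 40173837), (nat_lit 25770221), (nat_lit 19310217), (nat_lit 12946273)] (nat_lit 5041812)) p14_12_3 (nat_lit 4) (nat_lit 116) (nat_lit 117) = true := by decide +kernel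
def p14_12_3_117 : pfC (piC [(nat_lit 40173837), (nat_lit 25770221), (nat_lit 19310217), (nat_lit 12946273)] (nat_lit 5041812)) p14_12_3 (nat_lit 4) (nat_lit 117) (nat_lit 118) = true := by decide +kernel
def p14_12_3_118 : pfC (piC [(nat_lit 40173837), (nat_lit 25770221), (nat_lit 19310217), (nat_lit 12946273)] (nat_lit 5041812)) p14_12_3 (nat_lit 4) (nat_lit 118) (nat_lit 119) = true := by decide +kernel
def p14_12_3_119 : pfC (piC [(nat_lit 40173837), (nat_lit 25770221), (nat_lit 19310217), (nat_lit 12946273)] (nat_lit 5041812)) p14_12_3 (nat_lit 4) (nat_lit 119) (nat_lit 120) = true := by decide +kernel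
def p14_12_3_120 : pfC (piC [(nat_lit 40173837), (nat_lit 25770221), (nat_lit 19310217), (nat_lit 12946273)] (nat_lit 5041812)) p14_12_3 (nat_lit 4) (nat_lit 120) (nat_lit 121) = true := by decide +kernel
def p14_12_3_121 : pfC (piC [(nat_lit 40173837), (nat_lit 25770221), (nat_lit 19310217), (nat_lit 12946273)] (nat_lit 5041812)) p14_12_3 (nat_lit 4) (nat_lit 121) (nat_lit 122) = true := by decide +kernel
def p14_12_3_122 : pfC (piC [(nat_lit 40173837), (nat_lit 25770221), (nat_lit 19310217), (nat_lit 12946273)] (nat_lit 5041812)) p14_12_3 (nat_lit 4) (nat_lit 122) (nat_lit 123) = true := by decide +kernel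
def p14_12_3_123 : pfC (piC [(nat_lit 40173837), (nat_lit 25770221), (nat_lit 19310217), (nat_lit 12946273)] (nat_lit 5041812)) p14_12_3 (nat_lit 4) (nat_lit 123) (nat_lit 124) = true := by decide +kernel
def p14_12_3_124 : pfC (piC [(nat_lit 40173837), (nat_lit 25770221), (nat_lit 19310217), (nat_lit 12946273)] (nat_lit 5041812)) p14_12_3 (nat_lit 4) (nat_lit 124) (nat_lit 125) = true := by decide +kernel
def p14_12_3_125 : pfC (piC [(nat_lit 40173837), (nat_lit 25770221), (nat_lit 19310217), (nat_lit 12946273)] (nat_lit 5041812)) p14_12_3 (nat_lit 4) (nat_lit 125) (nat_lit 126) = true := by decide +kernel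
def p14_12_3_126 : pfC (piC [(nat_lit 40173837), (nat_lit 25770221), (nat_lit 19310217), (nat_lit 12946273)] (nat_lit 5041812)) p14_12_3 (nat_lit 4) (nat_lit 126) (nat_lit 127) = true := by decide +kernel
def p14_12_3_127 : pfC (piC [(nat_lit 40173837), (nat_lit 25770221), (nat_lit 19310217), (nat_lit 12946273)] (nat_lit 5041812)) p14_12_3 (nat_lit 4) (nat_lit 127) (nat_lit 128) = true := by decide +kernel
def p14_12_3_128 : pfC (piC [(nat_lit 40173837), (nat_lit 25770221), (nat_lit 19310217), (nat_lit 12946273)] (nat_lit 5041812)) p14_12_3 (nat_lit 4) (nat_lit 128) (nat_lit 129) = true := by decide +kernel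
def p14_12_3_129 : pfC (piC [(nat_lit 40173837), (nat_lit 25770221), (nat_lit 19310217), (nat_lit 12946273)] (nat_lit 5041812)) p14_12_3 (nat_lit 4) (nat_lit 129) (nat_lit 130) = true := by decide +kernel
def p14_12_3_130 : pfC (piC [(nat_lit 40173837), (nat_lit 25770221), (nat_lit 19310217), (nat_lit 12946273)] (nat_lit 5041812)) p14_12_3 (nat_lit 4) (nat_lit 130) (nat_lit 131) = true := by decide +kernel
def p14_12_3_131 : pfC (piC [(nat_lit 40173837), (nat_lit 25770221), (nat_lit 19310217), (nat_lit 12946273)] (nat_lit 5041812)) p14_12_3 (nat_lit 4) (nat_lit 131) (nat_lit 132) = true := by decide +kernel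
def p14_12_3_132 : pfC (piC [(nat_lit 40173837), (nat_lit 25770221), (nat_lit 19310217), (nat_lit 12946273)] (nat_lit 5041812)) p14_12_3 (nat_lit 4) (nat_lit 132) (nat_lit 133) = true := by decide +kernel
def p14_12_3_133 : pfC (piC [(nat_lit 40173837), (nat_lit 25770221), (nat_lit 19310217), (nat_lit 12946273)] (nat_lit 5041812)) p14_12_3 (nat_lit 4) (nat_lit 133) (nat_lit 134) = true := by decide +kernel
def p14_12_3_134 : pfC (piC [(nat_lit 40173837), (nat_lit 25770221), (nat_lit 19310217), (nat_lit 12946273)] (nat_lit 5041812)) p14_12_3 (nat_lit 4) (nat_lit 134) (nat_lit 135) = true := by decide +kernel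
def p14_12_3_135 : pfC (piC [(nat_lit 40173837), (nat_lit 25770221), (nat_lit 19310217), (nat_lit 12946273)] (nat_lit 5041812)) p14_12_3 (nat_lit 4) (nat_lit 135) (nat_lit 136) = true := by decide +kernel
def p14_12_3_136 : pfC (piC [(nat_lit 40173837), (nat_lit 25770221), (nat_lit 19310217), (nat_lit 12946273)] (nat_lit 5041812)) p14_12_3 (nat_lit 4) (nat_lit 136) (nat_lit 137) = true := by decide +kernel
def p14_12_3_137 : pfC (piC [(nat_lit 40173837), (nat_lit 25770221), (nat_lit 19310217), (nat_lit 12946273)] (nat_lit 5041812)) p14_12_3 (nat_lit 4) (nat_lit 137) (nat_lit 138) = true := by decide +kernel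
def p14_12_3_138 : pfC (piC [(nat_lit 40173837), (nat_lit 25770221), (nat_lit 19310217), (nat_lit 12946273)] (nat_lit 5041812)) p14_12_3 (nat_lit 4) (nat_lit 138) (nat_lit 139) = true := by decide +kernel
def p14_12_3_139 : pfC (piC [(nat_lit 40173837), (nat_lit 25770221), (nat_lit 19310217), (nat_lit 12946273)] (nat_lit 5041812)) p14_12_3 (nat_lit 4) (nat_lit 139) (nat_lit 140) = true := by decide +kernel
def p14_12_3_140 : pfC (piC [(nat_lit 40173837), (nat_lit 25770221), (nat_lit 19310217), (nat_lit 12946273)] (nat_lit 5041812)) p14_12_3 (nat_lit 4) (nat_lit 140) (nat_lit 141) = true := by decide +kernel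
def p14_12_3_141 : pfC (piC [(nat_lit 40173837), (nat_lit 25770221), (nat_lit 19310217), (nat_lit 12946273)] (nat_lit 5041812)) p14_12_3 (nat_lit 4) (nat_lit 141) (nat_lit 142) = true := by decide +kernel
def p14_12_3_142 : pfC (piC [(nat_lit 40173837), (nat_lit 25770221), (nat_lit 19310217), (nat_lit 12946273)] (nat_lit 5041812)) p14_12_3 (nat_lit 4) (nat_lit 142) (nat_lit 143) = true := by decide +kernel
def p14_12_3_143 : pfC (piC [(nat_lit 40173837), (nat_lit 25770221), (nat_lit 19310217), (nat_lit 12946273)] (nat_lit 5041812)) p14_12_3 (nat_lit 4) (nat_lit 143) (nat_lit 144) = true := by decide +kernel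
def p14_12_3_144 : pfC (piC [(nat_lit 40173837), (nat_lit 25770221), (nat_lit 19310217), (nat_lit 12946273)] (nat_lit 5041812)) p14_12_3 (nat_lit 4) (nat_lit 144) (nat_lit 145) = true := by decide +kernel
def p14_12_3_145 : pfC (piC [(nat_lit 40173837), (nat_lit 25770221), (nat_lit 19310217), (nat_lit 12946273)] (nat_lit 5041812)) p14_12_3 (nat_lit 4) (nat_lit 145) (nat_lit 146) = true := by decide +kernel
def p14_12_3_146 : pfC (piC [(nat_lit 40173837), (nat_lit 25770221), (nat_lit 19310217), (nat_lit 12946273)] (nat_lit 5041812)) p14_12_3 (nat_lit 4) (nat_lit 146) (nat_lit 147) = true := by decide +kernel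
def p14_12_3_147 : pfC (piC [(nat_lit 40173837), (nat_lit 25770221), (nat_lit 19310217), (nat_lit 12946273)] (nat_lit 5041812)) p14_12_3 (nat_lit 4) (nat_lit 147) (nat_lit 148) = true := by decide +kernel
def p14_12_3_148 : pfC (piC [(nat_lit 40173837), (nat_lit 25770221), (nat_lit 19310217), (nat_lit 12946273)] (nat_lit 5041812)) p14_12_3 (nat_lit 4) (nat_lit 148) (nat_lit 149) = true := by decide +kernel
def p14_12_3_149 : pfC (piC [(nat_lit 40173837), (nat_lit 25770221), (nat_lit 19310217), (nat_lit 12946273)] (nat_lit 5041812)) p14_12_3 (nat_lit 4) (nat_lit 149) (nat_lit 150) = true := by decide +kernel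
def p14_12_3_150 : pfC (piC [(nat_lit 40173837), (nat_lit 25770221), (nat_lit 19310217), (nat_lit 12946273)] (nat_lit 5041812)) p14_12_3 (nat_lit 4) (nat_lit 150) (nat_lit 151) = true := by decide +kernel
def p14_12_3_151 : pfC (piC [(nat_lit 40173837), (nat_lit 25770221), (nat_lit 19310217), (nat_lit 12946273)] (nat_lit 5041812)) p14_12_3 (nat_lit 4) (nat_lit 151) (nat_lit 152) = true := by decide +kernel
def p14_12_3_152 : pfC (piC [(nat_lit 40173837), (nat_lit 25770221), (nat_lit 19310217), (nat_lit 12946273)] (nat_lit 5041812)) p14_12_3 (nat_lit 4) (nat_lit 152) (nat_lit 153) = true := by decide +kernel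
def p14_12_3_153 : pfC (piC [(nat_lit 40173837), (nat_lit 25770221), (nat_lit 19310217), (nat_lit 12946273)] (nat_lit 5041812)) p14_12_3 (nat_lit 4) (nat_lit 153) (nat_lit 154) = true := by decide +kernel
theorem p14_12_3_T : PfS (PiF n14_12.reverse (nat_lit 5041812)) p14_12_3 (nat_lit 4) [] 0 :=
  pftab_of (los := [(nat_lit 40173837), (nat_lit 25770221), (nat_lit 19310217), (nat_lit 12946273)]) (by decide +kernel) (hi := (nat_lit 154)) (PfP.trans (PfP.trans (PfP.trans (PfP.trans (PfP.trans (PfP.trans (PfP.trans (PfP.trans (PfP.trans (PfP.trans (PfP.trans (PfP.trans (PfP.trans (PfP.trans (PfP.trans (PfP.trans (PfP.trans (PfP.trans (PfP.trans (PfP.trans (PfP.trans (PfP.trans (PfP.trans (PfP.trans (PfP.trans (PfP.trans (PfP.trans (PfP.trans (PfP.trans (PfP.trans (PfP.trans (PfP.trans (PfP.trans (PfP.trans (PfP.trans (PfP.trans (PfP.trans (PfP.trans (PfP.trans (PfP.trans (PfP.trans (PfP.trans (PfP.trans (PfP.trans (PfP.trans (PfP.trans (PfP.trans (PfP.trans (PfP.trans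 (PfP.trans (PfP.trans (PfP.trans (PfP.trans (PfP.trans (PfP.trans (PfP.trans (PfP.trans (PfP.trans (PfP.trans (PfP.trans (PfP.trans (PfP.trans (PfP.trans (PfP.trans (PfP.trans (PfP.trans (PfP.trans (PfP.trans (PfP.trans (PfP.trans (PfP.trans (PfP.trans (PfP.trans (PfP.trans (PfP.trans (PfP.trans (PfP.trans (PfP.trans (PfP.trans (PfP.trans (PfP.trans (PfP.trans (PfP.trans (PfP.trans (PfP.trans (PfP.trans (PfP.trans (PfP.trans (PfP.trans (PfP.trans (PfP.trans (PfP.trans (PfP.trans (PfP.trans (PfP.trans (PfP.trans (PfP.trans (PfP.trans (PfP.trans (PfP.trans (PfP.trans (PfP.trans (PfP.trans (PfP.trans (PfP.trans (PfP.trans (PfP.trans (PfP.trans (PfP.trans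
 (PfP.trans (PfP.trans (PfP.trans (PfP.trans (PfP.trans (PfP.trans (PfP.trans (PfP.trans (PfP.trans (PfP.trans (PfP.trans (PfP.trans (PfP.trans (PfP.trans (PfP.trans (PfP.trans (PfP.trans (PfP.trans (PfP.trans (PfP.trans (PfP.trans (PfP.trans (PfP.trans (PfP.trans (PfP.trans (PfP.trans (PfP.trans (PfP.trans (PfP.trans (PfP.trans (PfP.trans (PfP.trans (PfP.trans (PfP.trans (PfP.trans (PfP.trans (PfP.trans (PfP.trans (PfP.trans (PfP.trans (PfP.trans (PfP.trans (PfP.trans (PfP.trans (pfC_sound p14_12_3_0) (pfC_sound p14_12_3_1)) (pfC_sound p14_12_3_2)) (pfC_sound p14_12_3_3)) (pfC_sound p14_12_3_4)) (pfC_sound p14_12_3_5)) (pfC_sound p14_12_3_6)) (pfC_sound p14_12_3_7)) (pfC_sound p14_12_3_8)) (pfC_sound p14_12_3_9)) (pfC_sound p14_12_3_10)) (pfC_sound p14_12_3_11)) (pfC_sound p14_12_3_12)) (pfC_sound p14_12_3_13)) (pfC_sound p14_12_3_14)) (pfC_sound p14_12_3_15)) (pfC_sound p14_12_3_16)) (pfC_sound p14_12_3_17)) (pfC_sound p14_12_3_18)) (pfC_sound p14_12_3_19)) (pfC_sound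 p14_12_3_20)) (pfC_sound p14_12_3_21)) (pfC_sound p14_12_3_22)) (pfC_sound p14_12_3_23)) (pfC_sound p14_12_3_24)) (pfC_sound p14_12_3_25)) (pfC_sound p14_12_3_26)) (pfC_sound p14_12_3_27)) (pfC_sound p14_12_3_28))
 (pfC_sound p14_12_3_29)) (pfC_sound p14_12_3_30)) (pfC_sound p14_12_3_31)) (pfC_sound p14_12_3_32)) (pfC_sound p14_12_3_33)) (pfC_sound p14_12_3_34)) (pfC_sound p14_12_3_35)) (pfC_sound p14_12_3_36)) (pfC_sound p14_12_3_37)) (pfC_sound p14_12_3_38)) (pfC_sound p14_12_3_39)) (pfC_sound p14_12_3_40)) (pfC_sound p14_12_3_41)) (pfC_sound p14_12_3_42)) (pfC_sound p14_12_3_43)) (pfC_sound p14_12_3_44)) (pfC_sound p14_12_3_45)) (pfC_sound p14_12_3_46)) (pfC_sound p14_12_3_47)) (pfC_sound p14_12_3_48)) (pfC_sound p14_12_3_49)) (pfC_sound p14_12_3_50)) (pfC_sound p14_12_3_51)) (pfC_sound p14_12_3_52)) (pfC_sound p14_12_3_53)) (pfC_sound p14_12_3_54)) (pfC_sound p14_12_3_55)) (pfC_sound p14_12_3_56)) (pfC_sound p14_12_3_57)) (pfC_sound p14_12_3_58)) (pfC_sound p14_12_3_59))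 (pfC_sound p14_12_3_60)) (pfC_sound p14_12_3_61)) (pfC_sound p14_12_3_62)) (pfC_sound p14_12_3_63)) (pfC_sound p14_12_3_64)) (pfC_sound p14_12_3_65)) (pfC_sound p14_12_3_66)) (pfC_sound p14_12_3_67)) (pfC_sound p14_12_3_68)) (pfC_sound p14_12_3_69)) (pfC_sound p14_12_3_70)) (pfC_sound p14_12_3_71)) (pfC_sound p14_12_3_72)) (pfC_sound p14_12_3_73)) (pfC_sound p14_12_3_74)) (pfC_sound p14_12_3_75)) (pfC_sound p14_12_3_76))
 (pfC_sound p14_12_3_77)) (pfC_sound p14_12_3_78)) (pfC_sound p14_12_3_79)) (pfC_sound p14_12_3_80)) (pfC_sound p14_12_3_81)) (pfC_sound p14_12_3_82)) (pfC_sound p14_12_3_83)) (pfC_sound p14_12_3_84)) (pfC_sound p14_12_3_85)) (pfC_sound p14_12_3_86)) (pfC_sound p14_12_3_87)) (pfC_sound p14_12_3_88)) (pfC_sound p14_12_3_89)) (pfC_sound p14_12_3_90)) (pfC_sound p14_12_3_91)) (pfC_sound p14_12_3_92)) (pfC_sound p14_12_3_93)) (pfC_sound p14_12_3_94)) (pfC_sound p14_12_3_95)) (pfC_sound p14_12_3_96)) (pfC_sound p14_12_3_97)) (pfC_sound p14_12_3_98)) (pfC_sound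 p14_12_3_99)) (pfC_sound p14_12_3_100)) (pfC_sound p14_12_3_101)) (pfC_sound p14_12_3_102)) (pfC_sound p14_12_3_103)) (pfC_sound p14_12_3_104)) (pfC_sound p14_12_3_105)) (pfC_sound p14_12_3_106)) (pfC_sound p14_12_3_107)) (pfC_sound p14_12_3_108)) (pfC_sound p14_12_3_109)) (pfC_sound p14_12_3_110)) (pfC_sound p14_12_3_111)) (pfC_sound p14_12_3_112)) (pfC_sound p14_12_3_113)) (pfC_sound p14_12_3_114)) (pfC_sound p14_12_3_115)) (pfC_sound p14_12_3_116)) (pfC_sound p14_12_3_117)) (pfC_sound p14_12_3_118)) (pfC_sound p14_12_3_119)) (pfC_sound p14_12_3_120)) (pfC_sound p14_12_3_121)) (pfC_sound p14_12_3_122)) (pfC_sound p14_12_3_123))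
 (pfC_sound p14_12_3_124)) (pfC_sound p14_12_3_125)) (pfC_sound p14_12_3_126)) (pfC_sound p14_12_3_127)) (pfC_sound p14_12_3_128)) (pfC_sound p14_12_3_129)) (pfC_sound p14_12_3_130)) (pfC_sound p14_12_3_131)) (pfC_sound p14_12_3_132)) (pfC_sound p14_12_3_133)) (pfC_sound p14_12_3_134)) (pfC_sound p14_12_3_135)) (pfC_sound p14_12_3_136)) (pfC_sound p14_12_3_137)) (pfC_sound p14_12_3_138)) (pfC_sound p14_12_3_139)) (pfC_sound p14_12_3_140)) (pfC_sound p14_12_3_141)) (pfC_sound p14_12_3_142)) (pfC_sound p14_12_3_143)) (pfC_sound p14_12_3_144)) (pfC_sound p14_12_3_145)) (pfC_sound p14_12_3_146)) (pfC_sound p14_12_3_147)) (pfC_sound p14_12_3_148)) (pfC_sound p14_12_3_149)) (pfC_sound p14_12_3_150)) (pfC_sound p14_12_3_151)) (pfC_sound p14_12_3_152)) (pfC_sound p14_12_3_153)) (by decide +kernel)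

def z14_12_3 : zOK yB14_12 (nat_lit 3) (nat_lit 750) (nat_lit 867) (nat_lit 5041812) (nat_lit 3930427) = true := by decide +kernel
def g14_12_3 : gOK yB14_12.x P14_12 (nat_lit 1425) (q14_12 :: r14_12) (nat_lit 3) (nat_lit 750) (nat_lit 4) (nat_lit 867) (nat_lit 12712500) (nat_lit 12712500) (nat_lit 12712500) (nat_lit 12712500) [(nat_lit 800)] = true := by decide +kernel
def v14_12_3 : ivC P14_12 s14_12 w14_12 n14_12 (nat_lit 4) (nat_lit 4670) (nat_lit 3) (nat_lit 750) f152_1_750 f160_1_750 (nat_lit 4) (nat_lit 867) f152_1_867 f160_1_867 (nat_lit 5041812) (nat_lit 3930427) p14_12_3 = true := by decide +kernel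
end CB
end Pool.Agent.Lib.MP_6947cd_al
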